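import Pool.Agent.Lib.MP_5854e1_co.DtD

/-!
# Windows and cells of the rings
-/

set_option autoImplicit false
set_option maxRecDepth 100000
set_option deprecated.oldSectionVars true

namespace Pool.Agent.Lib.MP_5854e1_co.Cz

open Pool.Agent.Lib.MP_5854e1_co

noncomputable section

noncomputable def tv336 : DT := (.nd (nat_lit 0) (.nd (nat_lit 1) (.nd (nat_lit 2) (.nd (nat_lit 3) (.nd (nat_lit 4) (.nd (nat_lit 5) (.nd (nat_lit 6) 
(.lf (nat_lit 23808) (.g (nat_lit 2878) (.e (nat_lit 1188) (nat_lit 88) (.e (nat_lit 65627) (nat_lit 13) (.e (nat_lit 393301) (nat_lit 27) (.e (nat_lit 491560) (nat_lit 10) (.e (nat_lit 344089) (nat_lit 18) .nil))))) .nil)) 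
(.lf (nat_lit 23872) (.g (nat_lit 2410) (.e (nat_lit 1188) (nat_lit 88) (.e (nat_lit 65630) (nat_lit 14) (.e (nat_lit 401436) (nat_lit 9) (.e (nat_lit 426542) (nat_lit 29) (.e (nat_lit 352307) (nat_lit 21) (.e (nat_lit 57870) (nat_lit 264) .nil)))))) (.g (nat_lit 6) .nil .nil)))) (.nd (nat_lit 6) 
(.lf (nat_lit 23840) (.g (nat_lit 2143) (.e (nat_lit 1188) (nat_lit 88) (.e (nat_lit 65629) (nat_lit 14) (.e (nat_lit 401459) (nat_lit 13) (.e (nat_lit 491264) (nat_lit 23) .nil)))) .nil)) 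
(.lf (nat_lit 23904) (.g (nat_lit 1111) (.e (nat_lit 1188) (nat_lit 88) (.e (nat_lit 65630) (nat_lit 14) (.e (nat_lit 401437) (nat_lit 9) (.e (nat_lit 426509) (nat_lit 27) .nil)))) .nil)))) (.nd (nat_lit 5) (.nd (nat_lit 6) 
(.lf (nat_lit 23824) (.g (nat_lit 2780) (.e (nat_lit 1188) (nat_lit 88) (.e (nat_lit 65629) (nat_lit 14) (.e (nat_lit 401459) (nat_lit 13) (.e (nat_lit 483344) (nat_lit 17) (.e (nat_lit 6486) (nat_lit 343) .nil))))) .nil)) 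
(.lf (nat_lit 23888) (.g (nat_lit 1536) (.e (nat_lit 1188) (nat_lit 88) (.e (nat_lit 65630) (nat_lit 14) (.e (nat_lit 401436) (nat_lit 9) (.e (nat_lit 426546) (nat_lit 30) (.e (nat_lit 368384) (nat_lit 0) (.e (nat_lit 5906) (nat_lit 320) .nil)))))) (.g (nat_lit 4) .nil .nil)))) (.nd (nat_lit 6) 
(.lf (nat_lit 23856) (.g (nat_lit 1906) (.e (nat_lit 1188) (nat_lit 88) (.e (nat_lit 65630) (nat_lit 14) (.e (nat_lit 401428) (nat_lit 3) (.e (nat_lit 204868) (nat_lit 29) (.e (nat_lit 360456) (nat_lit 0) .nil))))) .nil)) 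
(.lf (nat_lit 23920) (.g (nat_lit 3258) (.e (nat_lit 1188) (nat_lit 88) (.e (nat_lit 65630) (nat_lit 14) (.e (nat_lit 401437) (nat_lit 9) (.e (nat_lit 426555) (nat_lit 32) (.e (nat_lit 376857) (nat_lit 21) (.e (nat_lit 57872) (nat_lit 264) .nil)))))) (.g (nat_lit 6) .nil .nil)))))) (.nd (nat_lit 4) (.nd (nat_lit 5) (.nd (nat_lit 6) 
(.lf (nat_lit 23816) (.g (nat_lit 1603) (.e (nat_lit 1188) (nat_lit 88) (.e (nat_lit 65628) (nat_lit 14) (.e (nat_lit 401459) (nat_lit 13) (.e (nat_lit 483394) (nat_lit 24) .nil)))) .nil)) 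
(.lf (nat_lit 23880) (.g (nat_lit 2959) (.e (nat_lit 1188) (nat_lit 88) (.e (nat_lit 65630) (nat_lit 14) (.e (nat_lit 401436) (nat_lit 9) (.e (nat_lit 426544) (nat_lit 30) (.e (nat_lit 360453) (nat_lit 0) (.e (nat_lit 5907) (nat_lit 320) .nil)))))) (.g (nat_lit 6) .nil .nil)))) (.nd (nat_lit 6) 
(.lf (nat_lit 23848) (.g (nat_lit 2308) (.e (nat_lit 1188) (nat_lit 88) (.e (nat_lit 65630) (nat_lit 14) (.e (nat_lit 401425) (nat_lit 2) (.e (nat_lit 196674) (nat_lit 15) .nil)))) .nil)) 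
(.lf (nat_lit 23912) (.g (nat_lit 2438) (.e (nat_lit 1188) (nat_lit 88) (.e (nat_lit 65630) (nat_lit 14) (.e (nat_lit 401437) (nat_lit 9) (.e (nat_lit 426544) (nat_lit 30) (.e (nat_lit 360452) (nat_lit 0) (.e (nat_lit 5907) (nat_lit 320) .nil)))))) (.g (nat_lit 4) .nil .nil))))) (.nd (nat_lit 5) (.nd (nat_lit 6) 
(.lf (nat_lit 23832) (.g (nat_lit 2370) (.e (nat_lit 1188) (nat_lit 88) (.e (nat_lit 65629) (nat_lit 14) (.e (nat_lit 401459) (nat_lit 13) (.e (nat_lit 483375) (nat_lit 22) .nil)))) .nil)) 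
(.lf (nat_lit 23896) (.g (nat_lit 2819) (.e (nat_lit 1188) (nat_lit 88) (.e (nat_lit 65630) (nat_lit 14) (.e (nat_lit 401436) (nat_lit 9) (.e (nat_lit 426555) (nat_lit 32) (.e (nat_lit 376860) (nat_lit 21) (.e (nat_lit 57870) (nat_lit 264) .nil)))))) (.g (nat_lit 5) .nil .nil)))) (.nd (nat_lit 6) 
(.lf (nat_lit 23864) (.g (nat_lit 2005) (.e (nat_lit 1188) (nat_lit 88) (.e (nat_lit 65630) (nat_lit 14) (.e (nat_lit 401435) (nat_lit 9) (.e (nat_lit 426546) (nat_lit 30) (.e (nat_lit 360452) (nat_lit 0) (.e (nat_lit 5905) (nat_lit 320) .nil)))))) (.g (nat_lit 4) .nil .nil))) 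
(.lf (nat_lit 23928) (.g (nat_lit 1801) (.e (nat_lit 1188) (nat_lit 88) (.e (nat_lit 65630) (nat_lit 14) (.e (nat_lit 401438) (nat_lit 9) (.e (nat_lit 426542) (nat_lit 29) (.e (nat_lit 352290) (nat_lit 20) .nil))))) .nil)))))) (.nd (nat_lit 3) (.nd (nat_lit 4) (.nd (nat_lit 5) (.nd (nat_lit 6) 
(.lf (nat_lit 23812) (.g (nat_lit 671) (.e (nat_lit 1188) (nat_lit 88) (.e (nat_lit 65628) (nat_lit 14) (.e (nat_lit 401458) (nat_lit 13) .nil))) .nil)) 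
(.lf (nat_lit 23876) (.g (nat_lit 2346) (.e (nat_lit 1188) (nat_lit 88) (.e (nat_lit 65630) (nat_lit 14) (.e (nat_lit 401436) (nat_lit 9) (.e (nat_lit 426542) (nat_lit 29) (.e (nat_lit 352309) (nat_lit 21) (.e (nat_lit 57870) (nat_lit 264) .nil)))))) (.g (nat_lit 6) .nil .nil)))) (.nd (nat_lit 6) 
(.lf (nat_lit 23844) (.g (nat_lit 2200) (.e (nat_lit 1188) (nat_lit 88) (.e (nat_lit 65629) (nat_lit 14) (.e (nat_lit 401459) (nat_lit 13) (.e (nat_lit 483411) (nat_lit 27) .nil)))) .nil)) 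
(.lf (nat_lit 23908) (.g (nat_lit 2782) (.e (nat_lit 1188) (nat_lit 88) (.e (nat_lit 65630) (nat_lit 14) (.e (nat_lit 401437) (nat_lit 9) (.e (nat_lit 426542) (nat_lit 29) (.e (nat_lit 352307) (nat_lit 21) (.e (nat_lit 57870) (nat_lit 264) .nil)))))) (.g (nat_lit 5) .nil .nil))))) (.nd (nat_lit 5) (.nd (nat_lit 6) 
(.lf (nat_lit 23828) (.g (nat_lit 4262) (.e (nat_lit 1188) (nat_lit 88) (.e (nat_lit 65629) (nat_lit 14) (.e (nat_lit 401459) (nat_lit 13) (.e (nat_lit 483350) (nat_lit 17) (.e (nat_lit 6490) (nat_lit 343) .nil))))) .nil)) 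
(.lf (nat_lit 23892) (.g (nat_lit 2813) (.e (nat_lit 1188) (nat_lit 88) (.e (nat_lit 65630) (nat_lit 14) (.e (nat_lit 401436) (nat_lit 9) (.e (nat_lit 426555) (nat_lit 32) (.e (nat_lit 376859) (nat_lit 21) (.e (nat_lit 57870) (nat_lit 264) .nil)))))) (.g (nat_lit 5) .nil .nil)))) (.nd (nat_lit 6) 
(.lf (nat_lit 23860) (.g (nat_lit 1650) (.e (nat_lit 1188) (nat_lit 88) (.e (nat_lit 65630) (nat_lit 14) (.e (nat_lit 401435) (nat_lit 9) (.e (nat_lit 426544) (nat_lit 30) (.e (nat_lit 368384) (nat_lit 0) (.e (nat_lit 5902) (nat_lit 320) .nil)))))) (.g (nat_lit 4) .nil .nil))) 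
(.lf (nat_lit 23924) (.g (nat_lit 3438) (.e (nat_lit 1188) (nat_lit 88) (.e (nat_lit 65630) (nat_lit 14) (.e (nat_lit 401437) (nat_lit 9) (.e (nat_lit 426555) (nat_lit 32) (.e (nat_lit 376859) (nat_lit 21) (.e (nat_lit 57873) (nat_lit 264) .nil)))))) (.g (nat_lit 6) .nil .nil)))))) (.nd (nat_lit 4) (.nd (nat_lit 5) (.nd (nat_lit 6) 
(.lf (nat_lit 23820) (.g (nat_lit 1793) (.e (nat_lit 1188) (nat_lit 88) (.e (nat_lit 65629) (nat_lit 14) (.e (nat_lit 401459) (nat_lit 13) (.e (nat_lit 483344) (nat_lit 17) .nil)))) .nil)) 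
(.lf (nat_lit 23884) (.g (nat_lit 1586) (.e (nat_lit 1188) (nat_lit 88) (.e (nat_lit 65630) (nat_lit 14) (.e (nat_lit 401436) (nat_lit 9) (.e (nat_lit 426546) (nat_lit 30) (.e (nat_lit 360452) (nat_lit 0) (.e (nat_lit 5906) (nat_lit 320) .nil)))))) (.g (nat_lit 4) .nil .nil)))) (.nd (nat_lit 6) 
(.lf (nat_lit 23852) (.g (nat_lit 2011) (.e (nat_lit 1188) (nat_lit 88) (.e (nat_lit 65630) (nat_lit 14) (.e (nat_lit 401428) (nat_lit 3) (.e (nat_lit 204861) (nat_lit 26) (.e (nat_lit 336076) (nat_lit 9) (.e (nat_lit 336314) (nat_lit 16) (.e (nat_lit 164119) (nat_lit 128) .nil))))))) (.g (nat_lit 4) .nil .nil))) 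
(.lf (nat_lit 23916) (.g (nat_lit 2190) (.e (nat_lit 1188) (nat_lit 88) (.e (nat_lit 65630) (nat_lit 14) (.e (nat_lit 401437) (nat_lit 9) (.e (nat_lit 426544) (nat_lit 30) (.e (nat_lit 368384) (nat_lit 0) (.e (nat_lit 5906) (nat_lit 320) .nil)))))) (.g (nat_lit 4) .nil .nil))))) (.nd (nat_lit 5) (.nd (nat_lit 6) 
(.lf (nat_lit 23836) (.g (nat_lit 2433) (.e (nat_lit 1188) (nat_lit 88) (.e (nat_lit 65629) (nat_lit 14) (.e (nat_lit 401459) (nat_lit 13) (.e (nat_lit 483387) (nat_lit 23) .nil)))) .nil)) 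
(.lf (nat_lit 23900) (.g (nat_lit 2256) (.e (nat_lit 1188) (nat_lit 88) (.e (nat_lit 65630) (nat_lit 14) (.e (nat_lit 401437) (nat_lit 9) (.e (nat_lit 426487) (nat_lit 27) .nil)))) .nil))) (.nd (nat_lit 6) 
(.lf (nat_lit 23868) (.g (nat_lit 2287) (.e (nat_lit 1188) (nat_lit 88) (.e (nat_lit 65630) (nat_lit 14) (.e (nat_lit 401435) (nat_lit 9) (.e (nat_lit 426555) (nat_lit 32) (.e (nat_lit 376859) (nat_lit 21) (.e (nat_lit 57871) (nat_lit 264) .nil)))))) (.g (nat_lit 4) .nil .nil))) 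
(.lf (nat_lit 23932) (.g (nat_lit 2010) (.e (nat_lit 1188) (nat_lit 88) (.e (nat_lit 65630) (nat_lit 14) (.e (nat_lit 401438) (nat_lit 9) (.e (nat_lit 426544) (nat_lit 30) (.e (nat_lit 368384) (nat_lit 0) (.e (nat_lit 5902) (nat_lit 320) .nil)))))) (.g (nat_lit 4) .nil .nil)))))))) (.nd (nat_lit 2) (.nd (nat_lit 3) (.nd (nat_lit 4) (.nd (nat_lit 5) (.nd (nat_lit 6) 
(.lf (nat_lit 23810) (.g (nat_lit 1843) (.e (nat_lit 1188) (nat_lit 88) (.e (nat_lit 65628) (nat_lit 14) (.e (nat_lit 401437) (nat_lit 9) (.e (nat_lit 426555) (nat_lit 32) .nil)))) .nil)) 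
(.lf (nat_lit 23874) (.g (nat_lit 2776) (.e (nat_lit 1188) (nat_lit 88) (.e (nat_lit 65630) (nat_lit 14) (.e (nat_lit 401436) (nat_lit 9) (.e (nat_lit 426542) (nat_lit 29) (.e (nat_lit 352307) (nat_lit 21) (.e (nat_lit 57872) (nat_lit 264) .nil)))))) (.g (nat_lit 6) .nil .nil)))) (.nd (nat_lit 6) 
(.lf (nat_lit 23842) (.g (nat_lit 2215) (.e (nat_lit 1188) (nat_lit 88) (.e (nat_lit 65629) (nat_lit 14) (.e (nat_lit 401459) (nat_lit 13) (.e (nat_lit 483399) (nat_lit 25) .nil)))) .nil)) 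
(.lf (nat_lit 23906) (.g (nat_lit 1678) (.e (nat_lit 1188) (nat_lit 88) (.e (nat_lit 65630) (nat_lit 14) (.e (nat_lit 401437) (nat_lit 9) (.e (nat_lit 426509) (nat_lit 27) (.e (nat_lit 336177) (nat_lit 10) (.e (nat_lit 344097) (nat_lit 18) (.e (nat_lit 5906) (nat_lit 320) .nil))))))) (.g (nat_lit 4) .nil .nil))))) (.nd (nat_lit 5) (.nd (nat_lit 6) 
(.lf (nat_lit 23826) (.g (nat_lit 2432) (.e (nat_lit 1188) (nat_lit 88) (.e (nat_lit 65629) (nat_lit 14) (.e (nat_lit 401459) (nat_lit 13) (.e (nat_lit 483347) (nat_lit 17) .nil)))) .nil)) 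
(.lf (nat_lit 23890) (.g (nat_lit 3151) (.e (nat_lit 1188) (nat_lit 88) (.e (nat_lit 65630) (nat_lit 14) (.e (nat_lit 401436) (nat_lit 9) (.e (nat_lit 426555) (nat_lit 32) (.e (nat_lit 376857) (nat_lit 21) (.e (nat_lit 57872) (nat_lit 264) .nil)))))) (.g (nat_lit 6) .nil .nil)))) (.nd (nat_lit 6) 
(.lf (nat_lit 23858) (.g (nat_lit 3859) (.e (nat_lit 1188) (nat_lit 88) (.e (nat_lit 65630) (nat_lit 14) (.e (nat_lit 401428) (nat_lit 3) (.e (nat_lit 204869) (nat_lit 29) (.e (nat_lit 360456) (nat_lit 0) (.e (nat_lit 3962) (nat_lit 239) .nil)))))) (.g (nat_lit 5) .nil .nil))) 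
(.lf (nat_lit 23922) (.g (nat_lit 2979) (.e (nat_lit 1188) (nat_lit 88) (.e (nat_lit 65630) (nat_lit 14) (.e (nat_lit 401437) (nat_lit 9) (.e (nat_lit 426555) (nat_lit 32) (.e (nat_lit 376859) (nat_lit 21) (.e (nat_lit 57870) (nat_lit 264) .nil)))))) (.g (nat_lit 5) .nil .nil)))))) (.nd (nat_lit 4) (.nd (nat_lit 5) (.nd (nat_lit 6) 
(.lf (nat_lit 23818) (.g (nat_lit 475) (.e (nat_lit 1188) (nat_lit 88) (.e (nat_lit 65629) (nat_lit 14) (.e (nat_lit 401459) (nat_lit 13) .nil))) .nil)) 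
(.lf (nat_lit 23882) (.g (nat_lit 1800) (.e (nat_lit 1188) (nat_lit 88) (.e (nat_lit 65630) (nat_lit 14) (.e (nat_lit 401436) (nat_lit 9) (.e (nat_lit 426544) (nat_lit 30) (.e (nat_lit 368384) (nat_lit 0) (.e (nat_lit 5905) (nat_lit 320) .nil)))))) (.g (nat_lit 4) .nil .nil)))) (.nd (nat_lit 6) 
(.lf (nat_lit 23850) (.g (nat_lit 601) (.e (nat_lit 1188) (nat_lit 88) (.e (nat_lit 65630) (nat_lit 14) (.e (nat_lit 401428) (nat_lit 3) .nil))) .nil)) 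
(.lf (nat_lit 23914) (.g (nat_lit 2172) (.e (nat_lit 1188) (nat_lit 88) (.e (nat_lit 65630) (nat_lit 14) (.e (nat_lit 401437) (nat_lit 9) (.e (nat_lit 426544) (nat_lit 30) (.e (nat_lit 368384) (nat_lit 0) (.e (nat_lit 5902) (nat_lit 320) .nil)))))) (.g (nat_lit 4) .nil .nil))))) (.nd (nat_lit 5) (.nd (nat_lit 6) 
(.lf (nat_lit 23834) (.g (nat_lit 1955) (.e (nat_lit 1188) (nat_lit 88) (.e (nat_lit 65629) (nat_lit 14) (.e (nat_lit 401459) (nat_lit 13) (.e (nat_lit 483380) (nat_lit 23) .nil)))) .nil)) 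
(.lf (nat_lit 23898) (.g (nat_lit 434) (.e (nat_lit 1188) (nat_lit 88) (.e (nat_lit 65630) (nat_lit 14) (.e (nat_lit 401437) (nat_lit 9) .nil))) .nil))) (.nd (nat_lit 6) 
(.lf (nat_lit 23866) (.g (nat_lit 3444) (.e (nat_lit 1188) (nat_lit 88) (.e (nat_lit 65630) (nat_lit 14) (.e (nat_lit 401435) (nat_lit 9) (.e (nat_lit 426555) (nat_lit 32) (.e (nat_lit 376857) (nat_lit 21) (.e (nat_lit 57873) (nat_lit 264) .nil)))))) (.g (nat_lit 6) .nil .nil))) 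
(.lf (nat_lit 23930) (.g (nat_lit 3400) (.e (nat_lit 1188) (nat_lit 88) (.e (nat_lit 65630) (nat_lit 14) (.e (nat_lit 401438) (nat_lit 9) (.e (nat_lit 426542) (nat_lit 29) (.e (nat_lit 352309) (nat_lit 21) (.e (nat_lit 57873) (nat_lit 264) .nil)))))) (.g (nat_lit 0) .nil .nil))))))) (.nd (nat_lit 3) (.nd (nat_lit 4) (.nd (nat_lit 5) (.nd (nat_lit 6) 
(.lf (nat_lit 23814) (.g (nat_lit 1464) (.e (nat_lit 1188) (nat_lit 88) (.e (nat_lit 65628) (nat_lit 14) (.e (nat_lit 401459) (nat_lit 13) (.e (nat_lit 483344) (nat_lit 17) .nil)))) .nil)) 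
(.lf (nat_lit 23878) (.g (nat_lit 2793) (.e (nat_lit 1188) (nat_lit 88) (.e (nat_lit 65630) (nat_lit 14) (.e (nat_lit 401436) (nat_lit 9) (.e (nat_lit 426542) (nat_lit 29) (.e (nat_lit 352309) (nat_lit 21) (.e (nat_lit 57872) (nat_lit 264) .nil)))))) (.g (nat_lit 6) .nil .nil)))) (.nd (nat_lit 6) 
(.lf (nat_lit 23846) (.g (nat_lit 2672) (.e (nat_lit 1188) (nat_lit 88) (.e (nat_lit 65630) (nat_lit 14) (.e (nat_lit 401425) (nat_lit 2) (.e (nat_lit 196660) (nat_lit 12) .nil)))) .nil)) 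
(.lf (nat_lit 23910) (.g (nat_lit 2712) (.e (nat_lit 1188) (nat_lit 88) (.e (nat_lit 65630) (nat_lit 14) (.e (nat_lit 401437) (nat_lit 9) (.e (nat_lit 426542) (nat_lit 29) (.e (nat_lit 352309) (nat_lit 21) (.e (nat_lit 57870) (nat_lit 264) .nil)))))) (.g (nat_lit 5) .nil .nil))))) (.nd (nat_lit 5) (.nd (nat_lit 6) 
(.lf (nat_lit 23830) (.g (nat_lit 2557) (.e (nat_lit 1188) (nat_lit 88) (.e (nat_lit 65629) (nat_lit 14) (.e (nat_lit 401459) (nat_lit 13) (.e (nat_lit 483354) (nat_lit 17) .nil)))) .nil)) 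
(.lf (nat_lit 23894) (.g (nat_lit 3186) (.e (nat_lit 1188) (nat_lit 88) (.e (nat_lit 65630) (nat_lit 14) (.e (nat_lit 401436) (nat_lit 9) (.e (nat_lit 426555) (nat_lit 32) (.e (nat_lit 376859) (nat_lit 21) (.e (nat_lit 57872) (nat_lit 264) .nil)))))) (.g (nat_lit 6) .nil .nil)))) (.nd (nat_lit 6) 
(.lf (nat_lit 23862) (.g (nat_lit 1668) (.e (nat_lit 1188) (nat_lit 88) (.e (nat_lit 65630) (nat_lit 14) (.e (nat_lit 401435) (nat_lit 9) (.e (nat_lit 426544) (nat_lit 30) (.e (nat_lit 368384) (nat_lit 0) (.e (nat_lit 5906) (nat_lit 320) .nil)))))) (.g (nat_lit 4) .nil .nil))) 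
(.lf (nat_lit 23926) (.g (nat_lit 1941) (.e (nat_lit 1188) (nat_lit 88) (.e (nat_lit 65630) (nat_lit 14) (.e (nat_lit 401437) (nat_lit 9) (.e (nat_lit 426556) (nat_lit 32) .nil)))) .nil))))) (.nd (nat_lit 4) (.nd (nat_lit 5) (.nd (nat_lit 6) 
(.lf (nat_lit 23822) (.g (nat_lit 2663) (.e (nat_lit 1188) (nat_lit 88) (.e (nat_lit 65629) (nat_lit 14) (.e (nat_lit 401459) (nat_lit 13) (.e (nat_lit 483344) (nat_lit 17) (.e (nat_lit 6444) (nat_lit 343) .nil))))) .nil)) 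
(.lf (nat_lit 23886) (.g (nat_lit 1726) (.e (nat_lit 1188) (nat_lit 88) (.e (nat_lit 65630) (nat_lit 14) (.e (nat_lit 401436) (nat_lit 9) (.e (nat_lit 426546) (nat_lit 30) (.e (nat_lit 368384) (nat_lit 0) (.e (nat_lit 5902) (nat_lit 320) .nil)))))) (.g (nat_lit 4) .nil .nil)))) (.nd (nat_lit 6) 
(.lf (nat_lit 23854) (.g (nat_lit 1664) (.e (nat_lit 1188) (nat_lit 88) (.e (nat_lit 65630) (nat_lit 14) (.e (nat_lit 401428) (nat_lit 3) (.e (nat_lit 204866) (nat_lit 28) (.e (nat_lit 360192) (nat_lit 1) .nil))))) .nil)) 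
(.lf (nat_lit 23918) (.g (nat_lit 2188) (.e (nat_lit 1188) (nat_lit 88) (.e (nat_lit 65630) (nat_lit 14) (.e (nat_lit 401437) (nat_lit 9) (.e (nat_lit 426546) (nat_lit 30) (.e (nat_lit 360452) (nat_lit 0) (.e (nat_lit 5906) (nat_lit 320) .nil)))))) (.g (nat_lit 5) .nil .nil))))) (.nd (nat_lit 5) (.nd (nat_lit 6) 
(.lf (nat_lit 23838) (.g (nat_lit 3073) (.e (nat_lit 1188) (nat_lit 88) (.e (nat_lit 65629) (nat_lit 14) (.e (nat_lit 401459) (nat_lit 13) (.e (nat_lit 483392) (nat_lit 23) .nil)))) .nil)) 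
(.lf (nat_lit 23902) (.g (nat_lit 2439) (.e (nat_lit 1188) (nat_lit 88) (.e (nat_lit 65630) (nat_lit 14) (.e (nat_lit 401437) (nat_lit 9) (.e (nat_lit 426489) (nat_lit 27) (.e (nat_lit 336157) (nat_lit 9) (.e (nat_lit 335995) (nat_lit 1) (.e (nat_lit 57872) (nat_lit 264) .nil))))))) (.g (nat_lit 4) .nil .nil)))) (.nd (nat_lit 6) 
(.lf (nat_lit 23870) (.g (nat_lit 3567) (.e (nat_lit 1188) (nat_lit 88) (.e (nat_lit 65630) (nat_lit 14) (.e (nat_lit 401435) (nat_lit 9) (.e (nat_lit 426555) (nat_lit 32) (.e (nat_lit 376859) (nat_lit 21) (.e (nat_lit 57873) (nat_lit 264) .nil)))))) (.g (nat_lit 6) .nil .nil))) 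
(.lf (nat_lit 23934) (.g (nat_lit 2028) (.e (nat_lit 1188) (nat_lit 88) (.e (nat_lit 65630) (nat_lit 14) (.e (nat_lit 401438) (nat_lit 9) (.e (nat_lit 426544) (nat_lit 30) (.e (nat_lit 368384) (nat_lit 0) (.e (nat_lit 5906) (nat_lit 320) .nil)))))) (.g (nat_lit 4) .nil .nil))))))))) (.nd (nat_lit 1) (.nd (nat_lit 2) (.nd (nat_lit 3) (.nd (nat_lit 4) (.nd (nat_lit 5) (.nd (nat_lit 6) 
(.lf (nat_lit 23809) (.g (nat_lit 1859) (.e (nat_lit 1188) (nat_lit 88) (.e (nat_lit 65628) (nat_lit 14) (.e (nat_lit 401437) (nat_lit 9) (.e (nat_lit 426546) (nat_lit 30) .nil)))) .nil)) 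
(.lf (nat_lit 23873) (.g (nat_lit 2865) (.e (nat_lit 1188) (nat_lit 88) (.e (nat_lit 65630) (nat_lit 14) (.e (nat_lit 401436) (nat_lit 9) (.e (nat_lit 426542) (nat_lit 29) (.e (nat_lit 352307) (nat_lit 21) (.e (nat_lit 57871) (nat_lit 264) .nil)))))) (.g (nat_lit 6) .nil .nil)))) (.nd (nat_lit 6) 
(.lf (nat_lit 23841) (.g (nat_lit 2086) (.e (nat_lit 1188) (nat_lit 88) (.e (nat_lit 65629) (nat_lit 14) (.e (nat_lit 401459) (nat_lit 13) (.e (nat_lit 483398) (nat_lit 25) .nil)))) .nil)) 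
(.lf (nat_lit 23905) (.g (nat_lit 1629) (.e (nat_lit 1188) (nat_lit 88) (.e (nat_lit 65630) (nat_lit 14) (.e (nat_lit 401437) (nat_lit 9) (.e (nat_lit 426509) (nat_lit 27) (.e (nat_lit 336177) (nat_lit 10) (.e (nat_lit 344097) (nat_lit 18) (.e (nat_lit 5905) (nat_lit 320) .nil))))))) (.g (nat_lit 4) .nil .nil))))) (.nd (nat_lit 5) (.nd (nat_lit 6) 
(.lf (nat_lit 23825) (.g (nat_lit 2800) (.e (nat_lit 1188) (nat_lit 88) (.e (nat_lit 65629) (nat_lit 14) (.e (nat_lit 401459) (nat_lit 13) (.e (nat_lit 483344) (nat_lit 17) (.e (nat_lit 6514) (nat_lit 346) .nil))))) .nil)) 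
(.lf (nat_lit 23889) (.g (nat_lit 3081) (.e (nat_lit 1188) (nat_lit 88) (.e (nat_lit 65630) (nat_lit 14) (.e (nat_lit 401436) (nat_lit 9) (.e (nat_lit 426555) (nat_lit 32) (.e (nat_lit 376857) (nat_lit 21) (.e (nat_lit 57870) (nat_lit 264) .nil)))))) (.g (nat_lit 6) .nil .nil)))) (.nd (nat_lit 6) 
(.lf (nat_lit 23857) (.g (nat_lit 3572) (.e (nat_lit 1188) (nat_lit 88) (.e (nat_lit 65630) (nat_lit 14) (.e (nat_lit 401428) (nat_lit 3) (.e (nat_lit 204869) (nat_lit 29) (.e (nat_lit 360448) (nat_lit 0) (.e (nat_lit 3972) (nat_lit 239) .nil)))))) (.g (nat_lit 5) .nil .nil))) 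
(.lf (nat_lit 23921) (.g (nat_lit 3442) (.e (nat_lit 1188) (nat_lit 88) (.e (nat_lit 65630) (nat_lit 14) (.e (nat_lit 401437) (nat_lit 9) (.e (nat_lit 426555) (nat_lit 32) (.e (nat_lit 376857) (nat_lit 21) (.e (nat_lit 57873) (nat_lit 264) .nil)))))) (.g (nat_lit 6) .nil .nil)))))) (.nd (nat_lit 4) (.nd (nat_lit 5) (.nd (nat_lit 6) 
(.lf (nat_lit 23817) (.g (nat_lit 1481) (.e (nat_lit 1188) (nat_lit 88) (.e (nat_lit 65628) (nat_lit 14) (.e (nat_lit 401459) (nat_lit 13) (.e (nat_lit 483395) (nat_lit 24) .nil)))) .nil)) 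
(.lf (nat_lit 23881) (.g (nat_lit 1801) (.e (nat_lit 1188) (nat_lit 88) (.e (nat_lit 65630) (nat_lit 14) (.e (nat_lit 401436) (nat_lit 9) (.e (nat_lit 426544) (nat_lit 30) (.e (nat_lit 368384) (nat_lit 0) (.e (nat_lit 5902) (nat_lit 320) .nil)))))) (.g (nat_lit 4) .nil .nil)))) (.nd (nat_lit 6) 
(.lf (nat_lit 23849) (.g (nat_lit 2140) (.e (nat_lit 1188) (nat_lit 88) (.e (nat_lit 65630) (nat_lit 14) (.e (nat_lit 401425) (nat_lit 2) (.e (nat_lit 196681) (nat_lit 17) .nil)))) .nil)) 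
(.lf (nat_lit 23913) (.g (nat_lit 3355) (.e (nat_lit 1188) (nat_lit 88) (.e (nat_lit 65630) (nat_lit 14) (.e (nat_lit 401437) (nat_lit 9) (.e (nat_lit 426544) (nat_lit 30) (.e (nat_lit 360453) (nat_lit 0) (.e (nat_lit 5907) (nat_lit 320) .nil)))))) (.g (nat_lit 6) .nil .nil))))) (.nd (nat_lit 5) (.nd (nat_lit 6) 
(.lf (nat_lit 23833) (.g (nat_lit 2073) (.e (nat_lit 1188) (nat_lit 88) (.e (nat_lit 65629) (nat_lit 14) (.e (nat_lit 401459) (nat_lit 13) (.e (nat_lit 483378) (nat_lit 23) .nil)))) .nil)) 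
(.lf (nat_lit 23897) (.g (nat_lit 1243) (.e (nat_lit 1188) (nat_lit 88) (.e (nat_lit 65630) (nat_lit 14) (.e (nat_lit 401436) (nat_lit 9) (.e (nat_lit 426556) (nat_lit 32) .nil)))) .nil))) (.nd (nat_lit 6) 
(.lf (nat_lit 23865) (.g (nat_lit 3292) (.e (nat_lit 1188) (nat_lit 88) (.e (nat_lit 65630) (nat_lit 14) (.e (nat_lit 401435) (nat_lit 9) (.e (nat_lit 426555) (nat_lit 32) (.e (nat_lit 376857) (nat_lit 21) (.e (nat_lit 57872) (nat_lit 264) .nil)))))) (.g (nat_lit 6) .nil .nil))) 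
(.lf (nat_lit 23929) (.g (nat_lit 3323) (.e (nat_lit 1188) (nat_lit 88) (.e (nat_lit 65630) (nat_lit 14) (.e (nat_lit 401438) (nat_lit 9) (.e (nat_lit 426542) (nat_lit 29) (.e (nat_lit 352309) (nat_lit 21) (.e (nat_lit 57871) (nat_lit 264) .nil)))))) (.g (nat_lit 0) .nil .nil))))))) (.nd (nat_lit 3) (.nd (nat_lit 4) (.nd (nat_lit 5) (.nd (nat_lit 6) 
(.lf (nat_lit 23813) (.g (nat_lit 606) (.e (nat_lit 1188) (nat_lit 88) (.e (nat_lit 65628) (nat_lit 14) (.e (nat_lit 401459) (nat_lit 13) .nil))) .nil)) 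
(.lf (nat_lit 23877) (.g (nat_lit 2704) (.e (nat_lit 1188) (nat_lit 88) (.e (nat_lit 65630) (nat_lit 14) (.e (nat_lit 401436) (nat_lit 9) (.e (nat_lit 426542) (nat_lit 29) (.e (nat_lit 352309) (nat_lit 21) (.e (nat_lit 57871) (nat_lit 264) .nil)))))) (.g (nat_lit 6) .nil .nil)))) (.nd (nat_lit 6) 
(.lf (nat_lit 23845) (.g (nat_lit 675) (.e (nat_lit 1188) (nat_lit 88) (.e (nat_lit 65630) (nat_lit 14) (.e (nat_lit 401425) (nat_lit 2) .nil))) .nil)) 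
(.lf (nat_lit 23909) (.g (nat_lit 3238) (.e (nat_lit 1188) (nat_lit 88) (.e (nat_lit 65630) (nat_lit 14) (.e (nat_lit 401437) (nat_lit 9) (.e (nat_lit 426542) (nat_lit 29) (.e (nat_lit 352307) (nat_lit 21) (.e (nat_lit 57871) (nat_lit 264) .nil)))))) (.g (nat_lit 6) .nil .nil))))) (.nd (nat_lit 5) (.nd (nat_lit 6) 
(.lf (nat_lit 23829) (.g (nat_lit 4270) (.e (nat_lit 1188) (nat_lit 88) (.e (nat_lit 65629) (nat_lit 14) (.e (nat_lit 401459) (nat_lit 13) (.e (nat_lit 483350) (nat_lit 17) (.e (nat_lit 7936) (nat_lit 343) .nil))))) .nil)) 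
(.lf (nat_lit 23893) (.g (nat_lit 2109) (.e (nat_lit 1188) (nat_lit 88) (.e (nat_lit 65630) (nat_lit 14) (.e (nat_lit 401436) (nat_lit 9) (.e (nat_lit 426555) (nat_lit 32) (.e (nat_lit 376859) (nat_lit 21) (.e (nat_lit 57871) (nat_lit 264) .nil)))))) (.g (nat_lit 4) .nil .nil)))) (.nd (nat_lit 6) 
(.lf (nat_lit 23861) (.g (nat_lit 1649) (.e (nat_lit 1188) (nat_lit 88) (.e (nat_lit 65630) (nat_lit 14) (.e (nat_lit 401435) (nat_lit 9) (.e (nat_lit 426544) (nat_lit 30) (.e (nat_lit 368384) (nat_lit 0) (.e (nat_lit 5905) (nat_lit 320) .nil)))))) (.g (nat_lit 4) .nil .nil))) 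
(.lf (nat_lit 23925) (.g (nat_lit 2919) (.e (nat_lit 1188) (nat_lit 88) (.e (nat_lit 65630) (nat_lit 14) (.e (nat_lit 401437) (nat_lit 9) (.e (nat_lit 426555) (nat_lit 32) (.e (nat_lit 376860) (nat_lit 21) (.e (nat_lit 57870) (nat_lit 264) .nil)))))) (.g (nat_lit 5) .nil .nil)))))) (.nd (nat_lit 4) (.nd (nat_lit 5) (.nd (nat_lit 6) 
(.lf (nat_lit 23821) (.g (nat_lit 2791) (.e (nat_lit 1188) (nat_lit 88) (.e (nat_lit 65629) (nat_lit 14) (.e (nat_lit 401459) (nat_lit 13) (.e (nat_lit 483344) (nat_lit 17) (.e (nat_lit 6436) (nat_lit 343) .nil))))) .nil)) 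
(.lf (nat_lit 23885) (.g (nat_lit 2986) (.e (nat_lit 1188) (nat_lit 88) (.e (nat_lit 65630) (nat_lit 14) (.e (nat_lit 401436) (nat_lit 9) (.e (nat_lit 426546) (nat_lit 30) (.e (nat_lit 360452) (nat_lit 0) (.e (nat_lit 5907) (nat_lit 320) .nil)))))) (.g (nat_lit 6) .nil .nil)))) (.nd (nat_lit 6) 
(.lf (nat_lit 23853) (.g (nat_lit 1025) (.e (nat_lit 1188) (nat_lit 88) (.e (nat_lit 65630) (nat_lit 14) (.e (nat_lit 401428) (nat_lit 3) (.e (nat_lit 204865) (nat_lit 28) .nil)))) .nil)) 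
(.lf (nat_lit 23917) (.g (nat_lit 3261) (.e (nat_lit 1188) (nat_lit 88) (.e (nat_lit 65630) (nat_lit 14) (.e (nat_lit 401437) (nat_lit 9) (.e (nat_lit 426546) (nat_lit 30) (.e (nat_lit 360452) (nat_lit 0) (.e (nat_lit 5905) (nat_lit 320) .nil)))))) (.g (nat_lit 6) .nil .nil))))) (.nd (nat_lit 5) (.nd (nat_lit 6) 
(.lf (nat_lit 23837) (.g (nat_lit 2676) (.e (nat_lit 1188) (nat_lit 88) (.e (nat_lit 65629) (nat_lit 14) (.e (nat_lit 401459) (nat_lit 13) (.e (nat_lit 483389) (nat_lit 23) .nil)))) .nil)) 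
(.lf (nat_lit 23901) (.g (nat_lit 2086) (.e (nat_lit 1188) (nat_lit 88) (.e (nat_lit 65630) (nat_lit 14) (.e (nat_lit 401437) (nat_lit 9) (.e (nat_lit 426489) (nat_lit 27) .nil)))) .nil))) (.nd (nat_lit 6) 
(.lf (nat_lit 23869) (.g (nat_lit 3481) (.e (nat_lit 1188) (nat_lit 88) (.e (nat_lit 65630) (nat_lit 14) (.e (nat_lit 401435) (nat_lit 9) (.e (nat_lit 426555) (nat_lit 32) (.e (nat_lit 376859) (nat_lit 21) (.e (nat_lit 57872) (nat_lit 264) .nil)))))) (.g (nat_lit 6) .nil .nil))) 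
(.lf (nat_lit 23933) (.g (nat_lit 2009) (.e (nat_lit 1188) (nat_lit 88) (.e (nat_lit 65630) (nat_lit 14) (.e (nat_lit 401438) (nat_lit 9) (.e (nat_lit 426544) (nat_lit 30) (.e (nat_lit 368384) (nat_lit 0) (.e (nat_lit 5905) (nat_lit 320) .nil)))))) (.g (nat_lit 4) .nil .nil)))))))) (.nd (nat_lit 2) (.nd (nat_lit 3) (.nd (nat_lit 4) (.nd (nat_lit 5) (.nd (nat_lit 6) 
(.lf (nat_lit 23811) (.g (nat_lit 674) (.e (nat_lit 1188) (nat_lit 88) (.e (nat_lit 65628) (nat_lit 14) (.e (nat_lit 401438) (nat_lit 9) .nil))) .nil)) 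
(.lf (nat_lit 23875) (.g (nat_lit 3007) (.e (nat_lit 1188) (nat_lit 88) (.e (nat_lit 65630) (nat_lit 14) (.e (nat_lit 401436) (nat_lit 9) (.e (nat_lit 426542) (nat_lit 29) (.e (nat_lit 352307) (nat_lit 21) (.e (nat_lit 57873) (nat_lit 264) .nil)))))) (.g (nat_lit 6) .nil .nil)))) (.nd (nat_lit 6) 
(.lf (nat_lit 23843) (.g (nat_lit 2346) (.e (nat_lit 1188) (nat_lit 88) (.e (nat_lit 65629) (nat_lit 14) (.e (nat_lit 401459) (nat_lit 13) (.e (nat_lit 483400) (nat_lit 25) .nil)))) .nil)) 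
(.lf (nat_lit 23907) (.g (nat_lit 895) (.e (nat_lit 1188) (nat_lit 88) (.e (nat_lit 65630) (nat_lit 14) (.e (nat_lit 401437) (nat_lit 9) (.e (nat_lit 426533) (nat_lit 28) .nil)))) .nil)))) (.nd (nat_lit 5) (.nd (nat_lit 6) 
(.lf (nat_lit 23827) (.g (nat_lit 2902) (.e (nat_lit 1188) (nat_lit 88) (.e (nat_lit 65629) (nat_lit 14) (.e (nat_lit 401459) (nat_lit 13) (.e (nat_lit 483350) (nat_lit 17) .nil)))) .nil)) 
(.lf (nat_lit 23891) (.g (nat_lit 3308) (.e (nat_lit 1188) (nat_lit 88) (.e (nat_lit 65630) (nat_lit 14) (.e (nat_lit 401436) (nat_lit 9) (.e (nat_lit 426555) (nat_lit 32) (.e (nat_lit 376857) (nat_lit 21) (.e (nat_lit 57873) (nat_lit 264) .nil)))))) (.g (nat_lit 6) .nil .nil)))) (.nd (nat_lit 6) 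
(.lf (nat_lit 23859) (.g (nat_lit 1636) (.e (nat_lit 1188) (nat_lit 88) (.e (nat_lit 65630) (nat_lit 14) (.e (nat_lit 401428) (nat_lit 3) (.e (nat_lit 204877) (nat_lit 31) (.e (nat_lit 384768) (nat_lit 1) .nil))))) .nil)) 
(.lf (nat_lit 23923) (.g (nat_lit 2233) (.e (nat_lit 1188) (nat_lit 88) (.e (nat_lit 65630) (nat_lit 14) (.e (nat_lit 401437) (nat_lit 9) (.e (nat_lit 426555) (nat_lit 32) (.e (nat_lit 376859) (nat_lit 21) (.e (nat_lit 57871) (nat_lit 264) .nil)))))) (.g (nat_lit 4) .nil .nil)))))) (.nd (nat_lit 4) (.nd (nat_lit 5) (.nd (nat_lit 6) 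
(.lf (nat_lit 23819) (.g (nat_lit 2045) (.e (nat_lit 1188) (nat_lit 88) (.e (nat_lit 65629) (nat_lit 14) (.e (nat_lit 401459) (nat_lit 13) (.e (nat_lit 483343) (nat_lit 17) .nil)))) .nil)) 
(.lf (nat_lit 23883) (.g (nat_lit 1819) (.e (nat_lit 1188) (nat_lit 88) (.e (nat_lit 65630) (nat_lit 14) (.e (nat_lit 401436) (nat_lit 9) (.e (nat_lit 426544) (nat_lit 30) (.e (nat_lit 368384) (nat_lit 0) (.e (nat_lit 5906) (nat_lit 320) .nil)))))) (.g (nat_lit 4) .nil .nil)))) (.nd (nat_lit 6) 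
(.lf (nat_lit 23851) (.g (nat_lit 1287) (.e (nat_lit 1188) (nat_lit 88) (.e (nat_lit 65630) (nat_lit 14) (.e (nat_lit 401428) (nat_lit 3) (.e (nat_lit 204838) (nat_lit 20) .nil)))) .nil)) 
(.lf (nat_lit 23915) (.g (nat_lit 2171) (.e (nat_lit 1188) (nat_lit 88) (.e (nat_lit 65630) (nat_lit 14) (.e (nat_lit 401437) (nat_lit 9) (.e (nat_lit 426544) (nat_lit 30) (.e (nat_lit 368384) (nat_lit 0) (.e (nat_lit 5905) (nat_lit 320) .nil)))))) (.g (nat_lit 4) .nil .nil))))) (.nd (nat_lit 5) (.nd (nat_lit 6) 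
(.lf (nat_lit 23835) (.g (nat_lit 2623) (.e (nat_lit 1188) (nat_lit 88) (.e (nat_lit 65629) (nat_lit 14) (.e (nat_lit 401459) (nat_lit 13) (.e (nat_lit 483383) (nat_lit 23) .nil)))) .nil)) 
(.lf (nat_lit 23899) (.g (nat_lit 2693) (.e (nat_lit 1188) (nat_lit 88) (.e (nat_lit 65630) (nat_lit 14) (.e (nat_lit 401437) (nat_lit 9) (.e (nat_lit 426482) (nat_lit 27) (.e (nat_lit 336140) (nat_lit 9) .nil))))) .nil))) (.nd (nat_lit 6) 
(.lf (nat_lit 23867) (.g (nat_lit 3105) (.e (nat_lit 1188) (nat_lit 88) (.e (nat_lit 65630) (nat_lit 14) (.e (nat_lit 401435) (nat_lit 9) (.e (nat_lit 426555) (nat_lit 32) (.e (nat_lit 376859) (nat_lit 21) (.e (nat_lit 57870) (nat_lit 264) .nil)))))) (.g (nat_lit 6) .nil .nil))) 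
(.lf (nat_lit 23931) (.g (nat_lit 3206) (.e (nat_lit 1188) (nat_lit 88) (.e (nat_lit 65630) (nat_lit 14) (.e (nat_lit 401438) (nat_lit 9) (.e (nat_lit 426544) (nat_lit 30) (.e (nat_lit 360453) (nat_lit 0) (.e (nat_lit 5907) (nat_lit 320) .nil)))))) (.g (nat_lit 0) .nil .nil))))))) (.nd (nat_lit 3) (.nd (nat_lit 4) (.nd (nat_lit 5) (.nd (nat_lit 6) 
(.lf (nat_lit 23815) (.g (nat_lit 2433) (.e (nat_lit 1188) (nat_lit 88) (.e (nat_lit 65628) (nat_lit 14) (.e (nat_lit 401459) (nat_lit 13) (.e (nat_lit 483393) (nat_lit 23) .nil)))) .nil)) 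
(.lf (nat_lit 23879) (.g (nat_lit 2796) (.e (nat_lit 1188) (nat_lit 88) (.e (nat_lit 65630) (nat_lit 14) (.e (nat_lit 401436) (nat_lit 9) (.e (nat_lit 426542) (nat_lit 29) (.e (nat_lit 352309) (nat_lit 21) (.e (nat_lit 57873) (nat_lit 264) .nil)))))) (.g (nat_lit 6) .nil .nil)))) (.nd (nat_lit 6) 
(.lf (nat_lit 23847) (.g (nat_lit 2142) (.e (nat_lit 1188) (nat_lit 88) (.e (nat_lit 65630) (nat_lit 14) (.e (nat_lit 401425) (nat_lit 2) (.e (nat_lit 196672) (nat_lit 15) .nil)))) .nil)) 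
(.lf (nat_lit 23911) (.g (nat_lit 3064) (.e (nat_lit 1188) (nat_lit 88) (.e (nat_lit 65630) (nat_lit 14) (.e (nat_lit 401437) (nat_lit 9) (.e (nat_lit 426542) (nat_lit 29) (.e (nat_lit 352309) (nat_lit 21) (.e (nat_lit 57871) (nat_lit 264) .nil)))))) (.g (nat_lit 6) .nil .nil))))) (.nd (nat_lit 5) (.nd (nat_lit 6) 
(.lf (nat_lit 23831) (.g (nat_lit 2451) (.e (nat_lit 1188) (nat_lit 88) (.e (nat_lit 65629) (nat_lit 14) (.e (nat_lit 401459) (nat_lit 13) (.e (nat_lit 483364) (nat_lit 18) .nil)))) .nil)) 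
(.lf (nat_lit 23895) (.g (nat_lit 3287) (.e (nat_lit 1188) (nat_lit 88) (.e (nat_lit 65630) (nat_lit 14) (.e (nat_lit 401436) (nat_lit 9) (.e (nat_lit 426555) (nat_lit 32) (.e (nat_lit 376859) (nat_lit 21) (.e (nat_lit 57873) (nat_lit 264) .nil)))))) (.g (nat_lit 6) .nil .nil)))) (.nd (nat_lit 6) 
(.lf (nat_lit 23863) (.g (nat_lit 1248) (.e (nat_lit 1188) (nat_lit 88) (.e (nat_lit 65630) (nat_lit 14) (.e (nat_lit 401435) (nat_lit 9) (.e (nat_lit 426546) (nat_lit 30) .nil)))) .nil)) 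
(.lf (nat_lit 23927) (.g (nat_lit 1223) (.e (nat_lit 1188) (nat_lit 88) (.e (nat_lit 65630) (nat_lit 14) (.e (nat_lit 401438) (nat_lit 9) (.e (nat_lit 426542) (nat_lit 29) .nil)))) .nil))))) (.nd (nat_lit 4) (.nd (nat_lit 5) (.nd (nat_lit 6) 
(.lf (nat_lit 23823) (.g (nat_lit 2961) (.e (nat_lit 1188) (nat_lit 88) (.e (nat_lit 65629) (nat_lit 14) (.e (nat_lit 401459) (nat_lit 13) (.e (nat_lit 483344) (nat_lit 17) (.e (nat_lit 6479) (nat_lit 343) (.e (nat_lit 1181) (nat_lit 87) (.e (nat_lit 57872) (nat_lit 264) .nil))))))) (.g (nat_lit 4) .nil .nil))) 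
(.lf (nat_lit 23887) (.g (nat_lit 1776) (.e (nat_lit 1188) (nat_lit 88) (.e (nat_lit 65630) (nat_lit 14) (.e (nat_lit 401436) (nat_lit 9) (.e (nat_lit 426546) (nat_lit 30) (.e (nat_lit 368384) (nat_lit 0) (.e (nat_lit 5905) (nat_lit 320) .nil)))))) (.g (nat_lit 4) .nil .nil)))) (.nd (nat_lit 6) 
(.lf (nat_lit 23855) (.g (nat_lit 3443) (.e (nat_lit 1188) (nat_lit 88) (.e (nat_lit 65630) (nat_lit 14) (.e (nat_lit 401428) (nat_lit 3) (.e (nat_lit 204866) (nat_lit 28) (.e (nat_lit 352318) (nat_lit 24) (.e (nat_lit 123040) (nat_lit 140) .nil)))))) (.g (nat_lit 6) .nil .nil))) 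
(.lf (nat_lit 23919) (.g (nat_lit 2137) (.e (nat_lit 1188) (nat_lit 88) (.e (nat_lit 65630) (nat_lit 14) (.e (nat_lit 401437) (nat_lit 9) (.e (nat_lit 426546) (nat_lit 30) (.e (nat_lit 368384) (nat_lit 0) (.e (nat_lit 5906) (nat_lit 320) .nil)))))) (.g (nat_lit 4) .nil .nil))))) (.nd (nat_lit 5) (.nd (nat_lit 6) 
(.lf (nat_lit 23839) (.g (nat_lit 2568) (.e (nat_lit 1188) (nat_lit 88) (.e (nat_lit 65629) (nat_lit 14) (.e (nat_lit 401459) (nat_lit 13) (.e (nat_lit 483393) (nat_lit 23) .nil)))) .nil)) 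
(.lf (nat_lit 23903) (.g (nat_lit 2256) (.e (nat_lit 1188) (nat_lit 88) (.e (nat_lit 65630) (nat_lit 14) (.e (nat_lit 401437) (nat_lit 9) (.e (nat_lit 426491) (nat_lit 27) .nil)))) .nil))) (.nd (nat_lit 6) 
(.lf (nat_lit 23871) (.g (nat_lit 2969) (.e (nat_lit 1188) (nat_lit 88) (.e (nat_lit 65630) (nat_lit 14) (.e (nat_lit 401435) (nat_lit 9) (.e (nat_lit 426555) (nat_lit 32) (.e (nat_lit 376860) (nat_lit 21) (.e (nat_lit 57870) (nat_lit 264) .nil)))))) (.g (nat_lit 5) .nil .nil))) 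
(.lf (nat_lit 23935) (.g (nat_lit 1750) (.e (nat_lit 1188) (nat_lit 88) (.e (nat_lit 65630) (nat_lit 14) (.e (nat_lit 401438) (nat_lit 9) (.e (nat_lit 426546) (nat_lit 30) (.e (nat_lit 368384) (nat_lit 0) (.e (nat_lit 5906) (nat_lit 320) .nil)))))) (.g (nat_lit 4) .nil .nil))))))))))

noncomputable def tv337 : DT := (.nd (nat_lit 0) (.nd (nat_lit 1) (.nd (nat_lit 2) (.nd (nat_lit 3) (.nd (nat_lit 4) (.nd (nat_lit 5) 
(.lf (nat_lit 23936) (.g (nat_lit 3378) (.e (nat_lit 1188) (nat_lit 88) (.e (nat_lit 65630) (nat_lit 14) (.e (nat_lit 401438) (nat_lit 9) (.e (nat_lit 426555) (nat_lit 32) (.e (nat_lit 376857) (nat_lit 21) (.e (nat_lit 57872) (nat_lit 264) .nil)))))) (.g (nat_lit 6) .nil .nil))) 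
(.lf (nat_lit 23968) (.g (nat_lit 2361) (.e (nat_lit 1188) (nat_lit 88) (.e (nat_lit 65630) (nat_lit 14) (.e (nat_lit 401458) (nat_lit 13) (.e (nat_lit 483378) (nat_lit 23) (.e (nat_lit 335997) (nat_lit 1) (.e (nat_lit 57870) (nat_lit 264) .nil)))))) (.g (nat_lit 6) .nil .nil)))) (.nd (nat_lit 5) 
(.lf (nat_lit 23952) (.g (nat_lit 1933) (.e (nat_lit 1188) (nat_lit 88) (.e (nat_lit 65630) (nat_lit 14) (.e (nat_lit 401456) (nat_lit 13) (.e (nat_lit 483395) (nat_lit 24) (.e (nat_lit 344097) (nat_lit 18) (.e (nat_lit 5906) (nat_lit 320) .nil)))))) (.g (nat_lit 4) .nil .nil))) 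
(.lf (nat_lit 23984) (.g (nat_lit 3146) (.e (nat_lit 1188) (nat_lit 88) (.e (nat_lit 65630) (nat_lit 14) (.e (nat_lit 401458) (nat_lit 13) (.e (nat_lit 483393) (nat_lit 23) (.e (nat_lit 335995) (nat_lit 1) (.e (nat_lit 57872) (nat_lit 264) .nil)))))) (.g (nat_lit 6) .nil .nil))))) (.nd (nat_lit 4) (.nd (nat_lit 5) 
(.lf (nat_lit 23944) (.g (nat_lit 2507) (.e (nat_lit 1188) (nat_lit 88) (.e (nat_lit 65630) (nat_lit 14) (.e (nat_lit 401454) (nat_lit 12) (.e (nat_lit 475144) (nat_lit 16) .nil)))) .nil)) 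
(.lf (nat_lit 23976) (.g (nat_lit 2299) (.e (nat_lit 1188) (nat_lit 88) (.e (nat_lit 65630) (nat_lit 14) (.e (nat_lit 401458) (nat_lit 13) (.e (nat_lit 483387) (nat_lit 23) (.e (nat_lit 335997) (nat_lit 1) (.e (nat_lit 57870) (nat_lit 264) .nil)))))) (.g (nat_lit 5) .nil .nil)))) (.nd (nat_lit 5) 
(.lf (nat_lit 23960) (.g (nat_lit 2002) (.e (nat_lit 1188) (nat_lit 88) (.e (nat_lit 65630) (nat_lit 14) (.e (nat_lit 401457) (nat_lit 13) (.e (nat_lit 483393) (nat_lit 23) (.e (nat_lit 335986) (nat_lit 1) (.e (nat_lit 57871) (nat_lit 264) .nil)))))) (.g (nat_lit 4) .nil .nil))) 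
(.lf (nat_lit 23992) (.g (nat_lit 2802) (.e (nat_lit 1188) (nat_lit 88) (.e (nat_lit 65630) (nat_lit 14) (.e (nat_lit 401458) (nat_lit 13) (.e (nat_lit 483395) (nat_lit 24) (.e (nat_lit 344097) (nat_lit 18) (.e (nat_lit 5906) (nat_lit 320) .nil)))))) (.g (nat_lit 6) .nil .nil)))))) (.nd (nat_lit 3) (.nd (nat_lit 4) (.nd (nat_lit 5) 
(.lf (nat_lit 23940) (.g (nat_lit 3640) (.e (nat_lit 1188) (nat_lit 88) (.e (nat_lit 65630) (nat_lit 14) (.e (nat_lit 401438) (nat_lit 9) (.e (nat_lit 426555) (nat_lit 32) (.e (nat_lit 376859) (nat_lit 21) (.e (nat_lit 57873) (nat_lit 264) .nil)))))) (.g (nat_lit 0) .nil .nil))) 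
(.lf (nat_lit 23972) (.g (nat_lit 1592) (.e (nat_lit 1188) (nat_lit 88) (.e (nat_lit 65630) (nat_lit 14) (.e (nat_lit 401458) (nat_lit 13) (.e (nat_lit 483383) (nat_lit 23) (.e (nat_lit 336000) (nat_lit 1) .nil))))) .nil))) (.nd (nat_lit 5) 
(.lf (nat_lit 23956) (.g (nat_lit 2305) (.e (nat_lit 1188) (nat_lit 88) (.e (nat_lit 65630) (nat_lit 14) (.e (nat_lit 401457) (nat_lit 13) (.e (nat_lit 483378) (nat_lit 23) (.e (nat_lit 335997) (nat_lit 1) (.e (nat_lit 57872) (nat_lit 264) .nil)))))) (.g (nat_lit 5) .nil .nil))) 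
(.lf (nat_lit 23988) (.g (nat_lit 3138) (.e (nat_lit 1188) (nat_lit 88) (.e (nat_lit 65630) (nat_lit 14) (.e (nat_lit 401458) (nat_lit 13) (.e (nat_lit 483394) (nat_lit 24) (.e (nat_lit 344097) (nat_lit 18) (.e (nat_lit 5907) (nat_lit 320) .nil)))))) (.g (nat_lit 6) .nil .nil))))) (.nd (nat_lit 4) (.nd (nat_lit 5) 
(.lf (nat_lit 23948) (.g (nat_lit 1581) (.e (nat_lit 1188) (nat_lit 88) (.e (nat_lit 65630) (nat_lit 14) (.e (nat_lit 401456) (nat_lit 13) (.e (nat_lit 483387) (nat_lit 23) .nil)))) .nil)) 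
(.lf (nat_lit 23980) (.g (nat_lit 1890) (.e (nat_lit 1188) (nat_lit 88) (.e (nat_lit 65630) (nat_lit 14) (.e (nat_lit 401458) (nat_lit 13) (.e (nat_lit 483392) (nat_lit 23) (.e (nat_lit 335995) (nat_lit 1) (.e (nat_lit 57872) (nat_lit 264) .nil)))))) (.g (nat_lit 4) .nil .nil)))) (.nd (nat_lit 5) 
(.lf (nat_lit 23964) (.g (nat_lit 3004) (.e (nat_lit 1188) (nat_lit 88) (.e (nat_lit 65630) (nat_lit 14) (.e (nat_lit 401457) (nat_lit 13) (.e (nat_lit 483413) (nat_lit 27) (.e (nat_lit 401462) (nat_lit 15) .nil))))) .nil)) 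
(.lf (nat_lit 23996) (.g (nat_lit 1952) (.e (nat_lit 1188) (nat_lit 88) (.e (nat_lit 65630) (nat_lit 14) (.e (nat_lit 401458) (nat_lit 13) (.e (nat_lit 483396) (nat_lit 24) (.e (nat_lit 344097) (nat_lit 18) .nil))))) .nil)))))) (.nd (nat_lit 2) (.nd (nat_lit 3) (.nd (nat_lit 4) (.nd (nat_lit 5) 
(.lf (nat_lit 23938) (.g (nat_lit 3184) (.e (nat_lit 1188) (nat_lit 88) (.e (nat_lit 65630) (nat_lit 14) (.e (nat_lit 401438) (nat_lit 9) (.e (nat_lit 426555) (nat_lit 32) (.e (nat_lit 376859) (nat_lit 21) (.e (nat_lit 57870) (nat_lit 264) .nil)))))) (.g (nat_lit 6) .nil .nil))) 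
(.lf (nat_lit 23970) (.g (nat_lit 2537) (.e (nat_lit 1188) (nat_lit 88) (.e (nat_lit 65630) (nat_lit 14) (.e (nat_lit 401458) (nat_lit 13) (.e (nat_lit 483378) (nat_lit 23) (.e (nat_lit 335997) (nat_lit 1) (.e (nat_lit 57872) (nat_lit 264) .nil)))))) (.g (nat_lit 6) .nil .nil)))) (.nd (nat_lit 5) 
(.lf (nat_lit 23954) (.g (nat_lit 1190) (.e (nat_lit 1188) (nat_lit 88) (.e (nat_lit 65630) (nat_lit 14) (.e (nat_lit 401457) (nat_lit 13) (.e (nat_lit 483346) (nat_lit 17) .nil)))) .nil)) 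
(.lf (nat_lit 23986) (.g (nat_lit 3147) (.e (nat_lit 1188) (nat_lit 88) (.e (nat_lit 65630) (nat_lit 14) (.e (nat_lit 401458) (nat_lit 13) (.e (nat_lit 483394) (nat_lit 24) (.e (nat_lit 344097) (nat_lit 18) (.e (nat_lit 5905) (nat_lit 320) .nil)))))) (.g (nat_lit 6) .nil .nil))))) (.nd (nat_lit 4) (.nd (nat_lit 5) 
(.lf (nat_lit 23946) (.g (nat_lit 1952) (.e (nat_lit 1188) (nat_lit 88) (.e (nat_lit 65630) (nat_lit 14) (.e (nat_lit 401456) (nat_lit 13) (.e (nat_lit 483378) (nat_lit 23) (.e (nat_lit 335997) (nat_lit 1) (.e (nat_lit 57870) (nat_lit 264) .nil)))))) (.g (nat_lit 4) .nil .nil))) 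
(.lf (nat_lit 23978) (.g (nat_lit 2543) (.e (nat_lit 1188) (nat_lit 88) (.e (nat_lit 65630) (nat_lit 14) (.e (nat_lit 401458) (nat_lit 13) (.e (nat_lit 483387) (nat_lit 23) (.e (nat_lit 335997) (nat_lit 1) (.e (nat_lit 57872) (nat_lit 264) .nil)))))) (.g (nat_lit 6) .nil .nil)))) (.nd (nat_lit 5) 
(.lf (nat_lit 23962) (.g (nat_lit 2047) (.e (nat_lit 1188) (nat_lit 88) (.e (nat_lit 65630) (nat_lit 14) (.e (nat_lit 401457) (nat_lit 13) (.e (nat_lit 483393) (nat_lit 23) (.e (nat_lit 335995) (nat_lit 1) .nil))))) .nil)) 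
(.lf (nat_lit 23994) (.g (nat_lit 1184) (.e (nat_lit 1188) (nat_lit 88) (.e (nat_lit 65630) (nat_lit 14) (.e (nat_lit 401458) (nat_lit 13) (.e (nat_lit 483396) (nat_lit 24) .nil)))) .nil))))) (.nd (nat_lit 3) (.nd (nat_lit 4) (.nd (nat_lit 5) 
(.lf (nat_lit 23942) (.g (nat_lit 1569) (.e (nat_lit 1188) (nat_lit 88) (.e (nat_lit 65630) (nat_lit 14) (.e (nat_lit 401438) (nat_lit 9) (.e (nat_lit 426556) (nat_lit 32) .nil)))) .nil)) 
(.lf (nat_lit 23974) (.g (nat_lit 2775) (.e (nat_lit 1188) (nat_lit 88) (.e (nat_lit 65630) (nat_lit 14) (.e (nat_lit 401458) (nat_lit 13) (.e (nat_lit 483383) (nat_lit 23) (.e (nat_lit 336000) (nat_lit 1) (.e (nat_lit 57872) (nat_lit 264) .nil)))))) (.g (nat_lit 6) .nil .nil)))) (.nd (nat_lit 5) 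
(.lf (nat_lit 23958) (.g (nat_lit 1561) (.e (nat_lit 1188) (nat_lit 88) (.e (nat_lit 65630) (nat_lit 14) (.e (nat_lit 401457) (nat_lit 13) (.e (nat_lit 483389) (nat_lit 23) .nil)))) .nil)) 
(.lf (nat_lit 23990) (.g (nat_lit 1224) (.e (nat_lit 1188) (nat_lit 88) (.e (nat_lit 65630) (nat_lit 14) (.e (nat_lit 401458) (nat_lit 13) (.e (nat_lit 483395) (nat_lit 24) .nil)))) .nil)))) (.nd (nat_lit 4) (.nd (nat_lit 5) 
(.lf (nat_lit 23950) (.g (nat_lit 1619) (.e (nat_lit 1188) (nat_lit 88) (.e (nat_lit 65630) (nat_lit 14) (.e (nat_lit 401456) (nat_lit 13) (.e (nat_lit 483393) (nat_lit 23) .nil)))) .nil)) 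
(.lf (nat_lit 23982) (.g (nat_lit 2011) (.e (nat_lit 1188) (nat_lit 88) (.e (nat_lit 65630) (nat_lit 14) (.e (nat_lit 401458) (nat_lit 13) (.e (nat_lit 483393) (nat_lit 23) (.e (nat_lit 335987) (nat_lit 1) (.e (nat_lit 57870) (nat_lit 264) .nil)))))) (.g (nat_lit 5) .nil .nil)))) (.nd (nat_lit 5) 
(.lf (nat_lit 23966) (.g (nat_lit 3025) (.e (nat_lit 1188) (nat_lit 88) (.e (nat_lit 65630) (nat_lit 14) (.e (nat_lit 401457) (nat_lit 13) (.e (nat_lit 483413) (nat_lit 27) (.e (nat_lit 401466) (nat_lit 15) .nil))))) .nil)) 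
(.lf (nat_lit 23998) (.g (nat_lit 1944) (.e (nat_lit 1188) (nat_lit 88) (.e (nat_lit 65630) (nat_lit 14) (.e (nat_lit 401458) (nat_lit 13) (.e (nat_lit 483396) (nat_lit 24) (.e (nat_lit 344100) (nat_lit 18) .nil))))) .nil))))))) (.nd (nat_lit 1) (.nd (nat_lit 2) (.nd (nat_lit 3) (.nd (nat_lit 4) (.nd (nat_lit 5) 
(.lf (nat_lit 23937) (.g (nat_lit 3530) (.e (nat_lit 1188) (nat_lit 88) (.e (nat_lit 65630) (nat_lit 14) (.e (nat_lit 401438) (nat_lit 9) (.e (nat_lit 426555) (nat_lit 32) (.e (nat_lit 376857) (nat_lit 21) (.e (nat_lit 57873) (nat_lit 264) .nil)))))) (.g (nat_lit 6) .nil .nil))) 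
(.lf (nat_lit 23969) (.g (nat_lit 2508) (.e (nat_lit 1188) (nat_lit 88) (.e (nat_lit 65630) (nat_lit 14) (.e (nat_lit 401458) (nat_lit 13) (.e (nat_lit 483378) (nat_lit 23) (.e (nat_lit 335997) (nat_lit 1) (.e (nat_lit 57871) (nat_lit 264) .nil)))))) (.g (nat_lit 6) .nil .nil)))) (.nd (nat_lit 5) 
(.lf (nat_lit 23953) (.g (nat_lit 425) (.e (nat_lit 1188) (nat_lit 88) (.e (nat_lit 65630) (nat_lit 14) (.e (nat_lit 401457) (nat_lit 13) .nil))) .nil)) 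
(.lf (nat_lit 23985) (.g (nat_lit 3019) (.e (nat_lit 1188) (nat_lit 88) (.e (nat_lit 65630) (nat_lit 14) (.e (nat_lit 401458) (nat_lit 13) (.e (nat_lit 483393) (nat_lit 23) (.e (nat_lit 335996) (nat_lit 1) (.e (nat_lit 57870) (nat_lit 264) .nil)))))) (.g (nat_lit 6) .nil .nil))))) (.nd (nat_lit 4) (.nd (nat_lit 5) 
(.lf (nat_lit 23945) (.g (nat_lit 2364) (.e (nat_lit 1188) (nat_lit 88) (.e (nat_lit 65630) (nat_lit 14) (.e (nat_lit 401454) (nat_lit 12) (.e (nat_lit 475154) (nat_lit 20) .nil)))) .nil)) 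
(.lf (nat_lit 23977) (.g (nat_lit 2472) (.e (nat_lit 1188) (nat_lit 88) (.e (nat_lit 65630) (nat_lit 14) (.e (nat_lit 401458) (nat_lit 13) (.e (nat_lit 483387) (nat_lit 23) (.e (nat_lit 335997) (nat_lit 1) (.e (nat_lit 57871) (nat_lit 264) .nil)))))) (.g (nat_lit 6) .nil .nil)))) (.nd (nat_lit 5) 
(.lf (nat_lit 23961) (.g (nat_lit 2075) (.e (nat_lit 1188) (nat_lit 88) (.e (nat_lit 65630) (nat_lit 14) (.e (nat_lit 401457) (nat_lit 13) (.e (nat_lit 483393) (nat_lit 23) (.e (nat_lit 335988) (nat_lit 1) (.e (nat_lit 57870) (nat_lit 264) .nil)))))) (.g (nat_lit 4) .nil .nil))) 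
(.lf (nat_lit 23993) (.g (nat_lit 3062) (.e (nat_lit 1188) (nat_lit 88) (.e (nat_lit 65630) (nat_lit 14) (.e (nat_lit 401458) (nat_lit 13) (.e (nat_lit 483395) (nat_lit 24) (.e (nat_lit 344097) (nat_lit 18) (.e (nat_lit 5907) (nat_lit 320) .nil)))))) (.g (nat_lit 6) .nil .nil)))))) (.nd (nat_lit 3) (.nd (nat_lit 4) (.nd (nat_lit 5) 
(.lf (nat_lit 23941) (.g (nat_lit 3125) (.e (nat_lit 1188) (nat_lit 88) (.e (nat_lit 65630) (nat_lit 14) (.e (nat_lit 401438) (nat_lit 9) (.e (nat_lit 426555) (nat_lit 32) (.e (nat_lit 376860) (nat_lit 21) (.e (nat_lit 57870) (nat_lit 264) .nil)))))) (.g (nat_lit 5) .nil .nil))) 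
(.lf (nat_lit 23973) (.g (nat_lit 2370) (.e (nat_lit 1188) (nat_lit 88) (.e (nat_lit 65630) (nat_lit 14) (.e (nat_lit 401458) (nat_lit 13) (.e (nat_lit 483383) (nat_lit 23) (.e (nat_lit 336000) (nat_lit 1) (.e (nat_lit 57871) (nat_lit 264) .nil)))))) (.g (nat_lit 5) .nil .nil)))) (.nd (nat_lit 5) 
(.lf (nat_lit 23957) (.g (nat_lit 1951) (.e (nat_lit 1188) (nat_lit 88) (.e (nat_lit 65630) (nat_lit 14) (.e (nat_lit 401457) (nat_lit 13) (.e (nat_lit 483383) (nat_lit 23) (.e (nat_lit 336000) (nat_lit 1) .nil))))) .nil)) 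
(.lf (nat_lit 23989) (.g (nat_lit 1743) (.e (nat_lit 1188) (nat_lit 88) (.e (nat_lit 65630) (nat_lit 14) (.e (nat_lit 401458) (nat_lit 13) (.e (nat_lit 483394) (nat_lit 24) (.e (nat_lit 344100) (nat_lit 18) .nil))))) .nil)))) (.nd (nat_lit 4) (.nd (nat_lit 5) 
(.lf (nat_lit 23949) (.g (nat_lit 1592) (.e (nat_lit 1188) (nat_lit 88) (.e (nat_lit 65630) (nat_lit 14) (.e (nat_lit 401456) (nat_lit 13) (.e (nat_lit 483391) (nat_lit 23) .nil)))) .nil)) 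
(.lf (nat_lit 23981) (.g (nat_lit 2402) (.e (nat_lit 1188) (nat_lit 88) (.e (nat_lit 65630) (nat_lit 14) (.e (nat_lit 401458) (nat_lit 13) (.e (nat_lit 483393) (nat_lit 23) (.e (nat_lit 335986) (nat_lit 1) (.e (nat_lit 57871) (nat_lit 264) .nil)))))) (.g (nat_lit 5) .nil .nil)))) (.nd (nat_lit 5) 
(.lf (nat_lit 23965) (.g (nat_lit 2607) (.e (nat_lit 1188) (nat_lit 88) (.e (nat_lit 65630) (nat_lit 14) (.e (nat_lit 401457) (nat_lit 13) (.e (nat_lit 483413) (nat_lit 27) (.e (nat_lit 401463) (nat_lit 15) .nil))))) .nil)) 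
(.lf (nat_lit 23997) (.g (nat_lit 2095) (.e (nat_lit 1188) (nat_lit 88) (.e (nat_lit 65630) (nat_lit 14) (.e (nat_lit 401458) (nat_lit 13) (.e (nat_lit 483396) (nat_lit 24) (.e (nat_lit 344097) (nat_lit 18) (.e (nat_lit 5907) (nat_lit 320) .nil)))))) (.g (nat_lit 4) .nil .nil))))))) (.nd (nat_lit 2) (.nd (nat_lit 3) (.nd (nat_lit 4) (.nd (nat_lit 5) 
(.lf (nat_lit 23939) (.g (nat_lit 3558) (.e (nat_lit 1188) (nat_lit 88) (.e (nat_lit 65630) (nat_lit 14) (.e (nat_lit 401438) (nat_lit 9) (.e (nat_lit 426555) (nat_lit 32) (.e (nat_lit 376859) (nat_lit 21) (.e (nat_lit 57872) (nat_lit 264) .nil)))))) (.g (nat_lit 6) .nil .nil))) 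
(.lf (nat_lit 23971) (.g (nat_lit 1670) (.e (nat_lit 1188) (nat_lit 88) (.e (nat_lit 65630) (nat_lit 14) (.e (nat_lit 401458) (nat_lit 13) (.e (nat_lit 483383) (nat_lit 23) (.e (nat_lit 335878) (nat_lit 0) .nil))))) .nil))) (.nd (nat_lit 5) 
(.lf (nat_lit 23955) (.g (nat_lit 2560) (.e (nat_lit 1188) (nat_lit 88) (.e (nat_lit 65630) (nat_lit 14) (.e (nat_lit 401457) (nat_lit 13) (.e (nat_lit 483346) (nat_lit 17) (.e (nat_lit 6479) (nat_lit 343) (.e (nat_lit 1181) (nat_lit 87) (.e (nat_lit 57872) (nat_lit 264) .nil))))))) (.g (nat_lit 4) .nil .nil))) 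
(.lf (nat_lit 23987) (.g (nat_lit 2919) (.e (nat_lit 1188) (nat_lit 88) (.e (nat_lit 65630) (nat_lit 14) (.e (nat_lit 401458) (nat_lit 13) (.e (nat_lit 483394) (nat_lit 24) (.e (nat_lit 344097) (nat_lit 18) (.e (nat_lit 5906) (nat_lit 320) .nil)))))) (.g (nat_lit 6) .nil .nil))))) (.nd (nat_lit 4) (.nd (nat_lit 5) 
(.lf (nat_lit 23947) (.g (nat_lit 2098) (.e (nat_lit 1188) (nat_lit 88) (.e (nat_lit 65630) (nat_lit 14) (.e (nat_lit 401456) (nat_lit 13) (.e (nat_lit 483378) (nat_lit 23) (.e (nat_lit 335997) (nat_lit 1) (.e (nat_lit 57871) (nat_lit 264) .nil)))))) (.g (nat_lit 4) .nil .nil))) 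
(.lf (nat_lit 23979) (.g (nat_lit 2881) (.e (nat_lit 1188) (nat_lit 88) (.e (nat_lit 65630) (nat_lit 14) (.e (nat_lit 401458) (nat_lit 13) (.e (nat_lit 483391) (nat_lit 23) (.e (nat_lit 335998) (nat_lit 1) (.e (nat_lit 57873) (nat_lit 264) .nil)))))) (.g (nat_lit 6) .nil .nil)))) (.nd (nat_lit 5) 
(.lf (nat_lit 23963) (.g (nat_lit 2694) (.e (nat_lit 1188) (nat_lit 88) (.e (nat_lit 65630) (nat_lit 14) (.e (nat_lit 401457) (nat_lit 13) (.e (nat_lit 483395) (nat_lit 24) (.e (nat_lit 344097) (nat_lit 18) .nil))))) .nil)) 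
(.lf (nat_lit 23995) (.g (nat_lit 1967) (.e (nat_lit 1188) (nat_lit 88) (.e (nat_lit 65630) (nat_lit 14) (.e (nat_lit 401458) (nat_lit 13) (.e (nat_lit 483396) (nat_lit 24) (.e (nat_lit 344093) (nat_lit 18) .nil))))) .nil))))) (.nd (nat_lit 3) (.nd (nat_lit 4) (.nd (nat_lit 5) 
(.lf (nat_lit 23943) (.g (nat_lit 1347) (.e (nat_lit 1188) (nat_lit 88) (.e (nat_lit 65630) (nat_lit 14) (.e (nat_lit 401454) (nat_lit 12) (.e (nat_lit 483072) (nat_lit 13) .nil)))) .nil)) 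
(.lf (nat_lit 23975) (.g (nat_lit 3134) (.e (nat_lit 1188) (nat_lit 88) (.e (nat_lit 65630) (nat_lit 14) (.e (nat_lit 401458) (nat_lit 13) (.e (nat_lit 483383) (nat_lit 23) (.e (nat_lit 336000) (nat_lit 1) (.e (nat_lit 57873) (nat_lit 264) .nil)))))) (.g (nat_lit 0) .nil .nil)))) (.nd (nat_lit 5) 
(.lf (nat_lit 23959) (.g (nat_lit 2491) (.e (nat_lit 1188) (nat_lit 88) (.e (nat_lit 65630) (nat_lit 14) (.e (nat_lit 401457) (nat_lit 13) (.e (nat_lit 483392) (nat_lit 23) (.e (nat_lit 335995) (nat_lit 1) (.e (nat_lit 57872) (nat_lit 264) .nil)))))) (.g (nat_lit 4) .nil .nil))) 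
(.lf (nat_lit 23991) (.g (nat_lit 3007) (.e (nat_lit 1188) (nat_lit 88) (.e (nat_lit 65630) (nat_lit 14) (.e (nat_lit 401458) (nat_lit 13) (.e (nat_lit 483395) (nat_lit 24) (.e (nat_lit 344097) (nat_lit 18) (.e (nat_lit 5905) (nat_lit 320) .nil)))))) (.g (nat_lit 6) .nil .nil))))) (.nd (nat_lit 4) (.nd (nat_lit 5) 
(.lf (nat_lit 23951) (.g (nat_lit 2088) (.e (nat_lit 1188) (nat_lit 88) (.e (nat_lit 65630) (nat_lit 14) (.e (nat_lit 401456) (nat_lit 13) (.e (nat_lit 483395) (nat_lit 24) (.e (nat_lit 344097) (nat_lit 18) (.e (nat_lit 5905) (nat_lit 320) .nil)))))) (.g (nat_lit 4) .nil .nil))) 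
(.lf (nat_lit 23983) (.g (nat_lit 2555) (.e (nat_lit 1188) (nat_lit 88) (.e (nat_lit 65630) (nat_lit 14) (.e (nat_lit 401458) (nat_lit 13) (.e (nat_lit 483393) (nat_lit 23) (.e (nat_lit 335988) (nat_lit 1) (.e (nat_lit 57870) (nat_lit 264) .nil)))))) (.g (nat_lit 5) .nil .nil)))) (.nd (nat_lit 5) 
(.lf (nat_lit 23967) (.g (nat_lit 416) (.e (nat_lit 1188) (nat_lit 88) (.e (nat_lit 65630) (nat_lit 14) (.e (nat_lit 401458) (nat_lit 13) .nil))) .nil)) 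
(.lf (nat_lit 23999) (.g (nat_lit 2417) (.e (nat_lit 1188) (nat_lit 88) (.e (nat_lit 65630) (nat_lit 14) (.e (nat_lit 401458) (nat_lit 13) (.e (nat_lit 483396) (nat_lit 24) (.e (nat_lit 344100) (nat_lit 18) (.e (nat_lit 5907) (nat_lit 320) .nil)))))) (.g (nat_lit 5) .nil .nil)))))))))

noncomputable def tv338 : DT := (.nd (nat_lit 0) (.nd (nat_lit 1) (.nd (nat_lit 2) (.nd (nat_lit 3) (.nd (nat_lit 4) (.nd (nat_lit 5) 
(.lf (nat_lit 24000) (.g (nat_lit 2398) (.e (nat_lit 1188) (nat_lit 88) (.e (nat_lit 65630) (nat_lit 14) (.e (nat_lit 401458) (nat_lit 13) (.e (nat_lit 483398) (nat_lit 25) (.e (nat_lit 368662) (nat_lit 18) (.e (nat_lit 5907) (nat_lit 320) .nil)))))) (.g (nat_lit 6) .nil .nil))) 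
(.lf (nat_lit 24032) (.g (nat_lit 3100) (.e (nat_lit 1188) (nat_lit 88) (.e (nat_lit 65630) (nat_lit 14) (.e (nat_lit 401459) (nat_lit 13) (.e (nat_lit 483350) (nat_lit 17) (.e (nat_lit 7936) (nat_lit 343) .nil))))) .nil))) (.nd (nat_lit 5) 
(.lf (nat_lit 24016) (.g (nat_lit 2610) (.e (nat_lit 1188) (nat_lit 88) (.e (nat_lit 65630) (nat_lit 14) (.e (nat_lit 401459) (nat_lit 13) (.e (nat_lit 483344) (nat_lit 17) (.e (nat_lit 7936) (nat_lit 343) .nil))))) .nil)) 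
(.lf (nat_lit 24048) (.g (nat_lit 4194) (.e (nat_lit 1188) (nat_lit 88) (.e (nat_lit 65630) (nat_lit 14) (.e (nat_lit 401459) (nat_lit 13) (.e (nat_lit 483372) (nat_lit 21) (.e (nat_lit 319516) (nat_lit 11) .nil))))) .nil)))) (.nd (nat_lit 4) (.nd (nat_lit 5) 
(.lf (nat_lit 24008) (.g (nat_lit 2630) (.e (nat_lit 1188) (nat_lit 88) (.e (nat_lit 65630) (nat_lit 14) (.e (nat_lit 401459) (nat_lit 13) (.e (nat_lit 483344) (nat_lit 17) (.e (nat_lit 6155) (nat_lit 332) .nil))))) .nil)) 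
(.lf (nat_lit 24040) (.g (nat_lit 2101) (.e (nat_lit 1188) (nat_lit 88) (.e (nat_lit 65630) (nat_lit 14) (.e (nat_lit 401459) (nat_lit 13) (.e (nat_lit 483364) (nat_lit 18) .nil)))) .nil))) (.nd (nat_lit 5) 
(.lf (nat_lit 24024) (.g (nat_lit 3815) (.e (nat_lit 1188) (nat_lit 88) (.e (nat_lit 65630) (nat_lit 14) (.e (nat_lit 401459) (nat_lit 13) (.e (nat_lit 483344) (nat_lit 17) (.e (nat_lit 6714) (nat_lit 360) (.e (nat_lit 163850) (nat_lit 0) (.e (nat_lit 4605) (nat_lit 269) .nil))))))) (.g (nat_lit 6) .nil .nil))) 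
(.lf (nat_lit 24056) (.g (nat_lit 3260) (.e (nat_lit 1188) (nat_lit 88) (.e (nat_lit 65630) (nat_lit 14) (.e (nat_lit 401459) (nat_lit 13) (.e (nat_lit 483380) (nat_lit 23) (.e (nat_lit 335880) (nat_lit 0) .nil))))) .nil))))) (.nd (nat_lit 3) (.nd (nat_lit 4) (.nd (nat_lit 5) 
(.lf (nat_lit 24004) (.g (nat_lit 1876) (.e (nat_lit 1188) (nat_lit 88) (.e (nat_lit 65630) (nat_lit 14) (.e (nat_lit 401459) (nat_lit 13) (.e (nat_lit 483343) (nat_lit 17) .nil)))) .nil)) 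
(.lf (nat_lit 24036) (.g (nat_lit 2409) (.e (nat_lit 1188) (nat_lit 88) (.e (nat_lit 65630) (nat_lit 14) (.e (nat_lit 401459) (nat_lit 13) (.e (nat_lit 483354) (nat_lit 17) (.e (nat_lit 7936) (nat_lit 343) .nil))))) .nil))) (.nd (nat_lit 5) 
(.lf (nat_lit 24020) (.g (nat_lit 4064) (.e (nat_lit 1188) (nat_lit 88) (.e (nat_lit 65630) (nat_lit 14) (.e (nat_lit 401459) (nat_lit 13) (.e (nat_lit 483344) (nat_lit 17) (.e (nat_lit 6712) (nat_lit 360) (.e (nat_lit 163843) (nat_lit 0) (.e (nat_lit 4598) (nat_lit 269) .nil))))))) (.g (nat_lit 6) .nil .nil))) 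
(.lf (nat_lit 24052) (.g (nat_lit 2651) (.e (nat_lit 1188) (nat_lit 88) (.e (nat_lit 65630) (nat_lit 14) (.e (nat_lit 401459) (nat_lit 13) (.e (nat_lit 483375) (nat_lit 22) (.e (nat_lit 327680) (nat_lit 0) .nil))))) .nil)))) (.nd (nat_lit 4) (.nd (nat_lit 5) 
(.lf (nat_lit 24012) (.g (nat_lit 2557) (.e (nat_lit 1188) (nat_lit 88) (.e (nat_lit 65630) (nat_lit 14) (.e (nat_lit 401459) (nat_lit 13) (.e (nat_lit 483344) (nat_lit 17) (.e (nat_lit 6440) (nat_lit 343) .nil))))) .nil)) 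
(.lf (nat_lit 24044) (.g (nat_lit 5817) (.e (nat_lit 1188) (nat_lit 88) (.e (nat_lit 65630) (nat_lit 14) (.e (nat_lit 401459) (nat_lit 13) (.e (nat_lit 483372) (nat_lit 21) (.e (nat_lit 319494) (nat_lit 0) .nil))))) .nil))) (.nd (nat_lit 5) 
(.lf (nat_lit 24028) (.g (nat_lit 2293) (.e (nat_lit 1188) (nat_lit 88) (.e (nat_lit 65630) (nat_lit 14) (.e (nat_lit 401459) (nat_lit 13) (.e (nat_lit 483347) (nat_lit 17) (.e (nat_lit 7936) (nat_lit 346) (.e (nat_lit 57354) (nat_lit 0) (.e (nat_lit 5906) (nat_lit 320) .nil))))))) (.g (nat_lit 4) .nil .nil))) 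
(.lf (nat_lit 24060) (.g (nat_lit 3306) (.e (nat_lit 1188) (nat_lit 88) (.e (nat_lit 65630) (nat_lit 14) (.e (nat_lit 401459) (nat_lit 13) (.e (nat_lit 483380) (nat_lit 23) (.e (nat_lit 335971) (nat_lit 0) .nil))))) .nil)))))) (.nd (nat_lit 2) (.nd (nat_lit 3) (.nd (nat_lit 4) (.nd (nat_lit 5) 
(.lf (nat_lit 24002) (.g (nat_lit 355) (.e (nat_lit 1188) (nat_lit 88) (.e (nat_lit 65630) (nat_lit 14) (.e (nat_lit 401459) (nat_lit 13) .nil))) .nil)) 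
(.lf (nat_lit 24034) (.g (nat_lit 2771) (.e (nat_lit 1188) (nat_lit 88) (.e (nat_lit 65630) (nat_lit 14) (.e (nat_lit 401459) (nat_lit 13) (.e (nat_lit 483351) (nat_lit 17) .nil)))) .nil))) (.nd (nat_lit 5) 
(.lf (nat_lit 24018) (.g (nat_lit 2703) (.e (nat_lit 1188) (nat_lit 88) (.e (nat_lit 65630) (nat_lit 14) (.e (nat_lit 401459) (nat_lit 13) (.e (nat_lit 483344) (nat_lit 17) (.e (nat_lit 6700) (nat_lit 358) .nil))))) .nil)) 
(.lf (nat_lit 24050) (.g (nat_lit 3269) (.e (nat_lit 1188) (nat_lit 88) (.e (nat_lit 65630) (nat_lit 14) (.e (nat_lit 401459) (nat_lit 13) (.e (nat_lit 483374) (nat_lit 22) (.e (nat_lit 327684) (nat_lit 0) (.e (nat_lit 81) (nat_lit 0) (.e (nat_lit 5902) (nat_lit 320) .nil))))))) (.g (nat_lit 5) .nil .nil))))) (.nd (nat_lit 4) (.nd (nat_lit 5) 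
(.lf (nat_lit 24010) (.g (nat_lit 2565) (.e (nat_lit 1188) (nat_lit 88) (.e (nat_lit 65630) (nat_lit 14) (.e (nat_lit 401459) (nat_lit 13) (.e (nat_lit 483344) (nat_lit 17) (.e (nat_lit 6235) (nat_lit 335) .nil))))) .nil)) 
(.lf (nat_lit 24042) (.g (nat_lit 3250) (.e (nat_lit 1188) (nat_lit 88) (.e (nat_lit 65630) (nat_lit 14) (.e (nat_lit 401459) (nat_lit 13) (.e (nat_lit 483371) (nat_lit 21) (.e (nat_lit 319516) (nat_lit 11) .nil))))) .nil))) (.nd (nat_lit 5) 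
(.lf (nat_lit 24026) (.g (nat_lit 2279) (.e (nat_lit 1188) (nat_lit 88) (.e (nat_lit 65630) (nat_lit 14) (.e (nat_lit 401459) (nat_lit 13) (.e (nat_lit 483347) (nat_lit 17) (.e (nat_lit 7936) (nat_lit 343) .nil))))) .nil)) 
(.lf (nat_lit 24058) (.g (nat_lit 3251) (.e (nat_lit 1188) (nat_lit 88) (.e (nat_lit 65630) (nat_lit 14) (.e (nat_lit 401459) (nat_lit 13) (.e (nat_lit 483380) (nat_lit 23) (.e (nat_lit 335885) (nat_lit 0) .nil))))) .nil))))) (.nd (nat_lit 3) (.nd (nat_lit 4) (.nd (nat_lit 5) 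
(.lf (nat_lit 24006) (.g (nat_lit 2664) (.e (nat_lit 1188) (nat_lit 88) (.e (nat_lit 65630) (nat_lit 14) (.e (nat_lit 401459) (nat_lit 13) (.e (nat_lit 483344) (nat_lit 17) (.e (nat_lit 6152) (nat_lit 332) .nil))))) .nil)) 
(.lf (nat_lit 24038) (.g (nat_lit 2111) (.e (nat_lit 1188) (nat_lit 88) (.e (nat_lit 65630) (nat_lit 14) (.e (nat_lit 401459) (nat_lit 13) (.e (nat_lit 483363) (nat_lit 18) .nil)))) .nil))) (.nd (nat_lit 5) 
(.lf (nat_lit 24022) (.g (nat_lit 3386) (.e (nat_lit 1188) (nat_lit 88) (.e (nat_lit 65630) (nat_lit 14) (.e (nat_lit 401459) (nat_lit 13) (.e (nat_lit 483344) (nat_lit 17) (.e (nat_lit 6712) (nat_lit 360) (.e (nat_lit 163850) (nat_lit 0) (.e (nat_lit 4605) (nat_lit 269) .nil))))))) (.g (nat_lit 5) .nil .nil))) 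
(.lf (nat_lit 24054) (.g (nat_lit 3106) (.e (nat_lit 1188) (nat_lit 88) (.e (nat_lit 65630) (nat_lit 14) (.e (nat_lit 401459) (nat_lit 13) (.e (nat_lit 483378) (nat_lit 23) (.e (nat_lit 335997) (nat_lit 1) (.e (nat_lit 57871) (nat_lit 264) .nil)))))) (.g (nat_lit 0) .nil .nil))))) (.nd (nat_lit 4) (.nd (nat_lit 5) 
(.lf (nat_lit 24014) (.g (nat_lit 2747) (.e (nat_lit 1188) (nat_lit 88) (.e (nat_lit 65630) (nat_lit 14) (.e (nat_lit 401459) (nat_lit 13) (.e (nat_lit 483344) (nat_lit 17) (.e (nat_lit 6486) (nat_lit 343) .nil))))) .nil)) 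
(.lf (nat_lit 24046) (.g (nat_lit 3361) (.e (nat_lit 1188) (nat_lit 88) (.e (nat_lit 65630) (nat_lit 14) (.e (nat_lit 401459) (nat_lit 13) (.e (nat_lit 483372) (nat_lit 21) (.e (nat_lit 327424) (nat_lit 1) .nil))))) .nil))) (.nd (nat_lit 5) 
(.lf (nat_lit 24030) (.g (nat_lit 3240) (.e (nat_lit 1188) (nat_lit 88) (.e (nat_lit 65630) (nat_lit 14) (.e (nat_lit 401459) (nat_lit 13) (.e (nat_lit 483350) (nat_lit 17) (.e (nat_lit 6097) (nat_lit 332) .nil))))) .nil)) 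
(.lf (nat_lit 24062) (.g (nat_lit 2952) (.e (nat_lit 1188) (nat_lit 88) (.e (nat_lit 65630) (nat_lit 14) (.e (nat_lit 401459) (nat_lit 13) (.e (nat_lit 483380) (nat_lit 23) (.e (nat_lit 336000) (nat_lit 1) .nil))))) .nil))))))) (.nd (nat_lit 1) (.nd (nat_lit 2) (.nd (nat_lit 3) (.nd (nat_lit 4) (.nd (nat_lit 5) 
(.lf (nat_lit 24001) (.g (nat_lit 2408) (.e (nat_lit 1188) (nat_lit 88) (.e (nat_lit 65630) (nat_lit 14) (.e (nat_lit 401458) (nat_lit 13) (.e (nat_lit 483399) (nat_lit 25) (.e (nat_lit 368662) (nat_lit 18) (.e (nat_lit 5907) (nat_lit 320) .nil)))))) (.g (nat_lit 6) .nil .nil))) 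
(.lf (nat_lit 24033) (.g (nat_lit 3100) (.e (nat_lit 1188) (nat_lit 88) (.e (nat_lit 65630) (nat_lit 14) (.e (nat_lit 401459) (nat_lit 13) (.e (nat_lit 483350) (nat_lit 17) (.e (nat_lit 7936) (nat_lit 346) .nil))))) .nil))) (.nd (nat_lit 5) 
(.lf (nat_lit 24017) (.g (nat_lit 4568) (.e (nat_lit 1188) (nat_lit 88) (.e (nat_lit 65630) (nat_lit 14) (.e (nat_lit 401459) (nat_lit 13) (.e (nat_lit 483344) (nat_lit 17) (.e (nat_lit 6514) (nat_lit 346) (.e (nat_lit 57354) (nat_lit 0) (.e (nat_lit 5907) (nat_lit 320) .nil))))))) (.g (nat_lit 7) .nil .nil))) 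
(.lf (nat_lit 24049) (.g (nat_lit 2217) (.e (nat_lit 1188) (nat_lit 88) (.e (nat_lit 65630) (nat_lit 14) (.e (nat_lit 401459) (nat_lit 13) (.e (nat_lit 483374) (nat_lit 22) .nil)))) .nil)))) (.nd (nat_lit 4) (.nd (nat_lit 5) 
(.lf (nat_lit 24009) (.g (nat_lit 2565) (.e (nat_lit 1188) (nat_lit 88) (.e (nat_lit 65630) (nat_lit 14) (.e (nat_lit 401459) (nat_lit 13) (.e (nat_lit 483344) (nat_lit 17) (.e (nat_lit 6196) (nat_lit 332) .nil))))) .nil)) 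
(.lf (nat_lit 24041) (.g (nat_lit 2875) (.e (nat_lit 1188) (nat_lit 88) (.e (nat_lit 65630) (nat_lit 14) (.e (nat_lit 401459) (nat_lit 13) (.e (nat_lit 483364) (nat_lit 18) (.e (nat_lit 65280) (nat_lit 217) (.e (nat_lit 57367) (nat_lit 1) (.e (nat_lit 57870) (nat_lit 264) .nil))))))) (.g (nat_lit 4) .nil .nil)))) (.nd (nat_lit 5) 
(.lf (nat_lit 24025) (.g (nat_lit 1956) (.e (nat_lit 1188) (nat_lit 88) (.e (nat_lit 65630) (nat_lit 14) (.e (nat_lit 401459) (nat_lit 13) (.e (nat_lit 483347) (nat_lit 17) .nil)))) .nil)) 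
(.lf (nat_lit 24057) (.g (nat_lit 3232) (.e (nat_lit 1188) (nat_lit 88) (.e (nat_lit 65630) (nat_lit 14) (.e (nat_lit 401459) (nat_lit 13) (.e (nat_lit 483380) (nat_lit 23) (.e (nat_lit 335883) (nat_lit 0) .nil))))) .nil))))) (.nd (nat_lit 3) (.nd (nat_lit 4) (.nd (nat_lit 5) 
(.lf (nat_lit 24005) (.g (nat_lit 1664) (.e (nat_lit 1188) (nat_lit 88) (.e (nat_lit 65630) (nat_lit 14) (.e (nat_lit 401459) (nat_lit 13) (.e (nat_lit 483344) (nat_lit 17) .nil)))) .nil)) 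
(.lf (nat_lit 24037) (.g (nat_lit 2559) (.e (nat_lit 1188) (nat_lit 88) (.e (nat_lit 65630) (nat_lit 14) (.e (nat_lit 401459) (nat_lit 13) (.e (nat_lit 483354) (nat_lit 17) (.e (nat_lit 7936) (nat_lit 346) (.e (nat_lit 57354) (nat_lit 0) (.e (nat_lit 5907) (nat_lit 320) .nil))))))) (.g (nat_lit 4) .nil .nil)))) (.nd (nat_lit 5) 
(.lf (nat_lit 24021) (.g (nat_lit 3618) (.e (nat_lit 1188) (nat_lit 88) (.e (nat_lit 65630) (nat_lit 14) (.e (nat_lit 401459) (nat_lit 13) (.e (nat_lit 483344) (nat_lit 17) (.e (nat_lit 6712) (nat_lit 360) (.e (nat_lit 163849) (nat_lit 0) (.e (nat_lit 4598) (nat_lit 269) .nil))))))) (.g (nat_lit 5) .nil .nil))) 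
(.lf (nat_lit 24053) (.g (nat_lit 2709) (.e (nat_lit 1188) (nat_lit 88) (.e (nat_lit 65630) (nat_lit 14) (.e (nat_lit 401459) (nat_lit 13) (.e (nat_lit 483375) (nat_lit 22) (.e (nat_lit 335616) (nat_lit 1) .nil))))) .nil)))) (.nd (nat_lit 4) (.nd (nat_lit 5) 
(.lf (nat_lit 24013) (.g (nat_lit 2582) (.e (nat_lit 1188) (nat_lit 88) (.e (nat_lit 65630) (nat_lit 14) (.e (nat_lit 401459) (nat_lit 13) (.e (nat_lit 483344) (nat_lit 17) (.e (nat_lit 6444) (nat_lit 343) .nil))))) .nil)) 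
(.lf (nat_lit 24045) (.g (nat_lit 3361) (.e (nat_lit 1188) (nat_lit 88) (.e (nat_lit 65630) (nat_lit 14) (.e (nat_lit 401459) (nat_lit 13) (.e (nat_lit 483372) (nat_lit 21) (.e (nat_lit 327424) (nat_lit 0) .nil))))) .nil))) (.nd (nat_lit 5) 
(.lf (nat_lit 24029) (.g (nat_lit 1977) (.e (nat_lit 1188) (nat_lit 88) (.e (nat_lit 65630) (nat_lit 14) (.e (nat_lit 401459) (nat_lit 13) (.e (nat_lit 483350) (nat_lit 17) .nil)))) .nil)) 
(.lf (nat_lit 24061) (.g (nat_lit 3318) (.e (nat_lit 1188) (nat_lit 88) (.e (nat_lit 65630) (nat_lit 14) (.e (nat_lit 401459) (nat_lit 13) (.e (nat_lit 483380) (nat_lit 23) (.e (nat_lit 335973) (nat_lit 0) .nil))))) .nil)))))) (.nd (nat_lit 2) (.nd (nat_lit 3) (.nd (nat_lit 4) (.nd (nat_lit 5) 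
(.lf (nat_lit 24003) (.g (nat_lit 2359) (.e (nat_lit 1188) (nat_lit 88) (.e (nat_lit 65630) (nat_lit 14) (.e (nat_lit 401459) (nat_lit 13) (.e (nat_lit 483342) (nat_lit 17) .nil)))) .nil)) 
(.lf (nat_lit 24035) (.g (nat_lit 2035) (.e (nat_lit 1188) (nat_lit 88) (.e (nat_lit 65630) (nat_lit 14) (.e (nat_lit 401459) (nat_lit 13) (.e (nat_lit 483354) (nat_lit 17) .nil)))) .nil))) (.nd (nat_lit 5) 
(.lf (nat_lit 24019) (.g (nat_lit 2563) (.e (nat_lit 1188) (nat_lit 88) (.e (nat_lit 65630) (nat_lit 14) (.e (nat_lit 401459) (nat_lit 13) (.e (nat_lit 483344) (nat_lit 17) (.e (nat_lit 6712) (nat_lit 360) .nil))))) .nil)) 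
(.lf (nat_lit 24051) (.g (nat_lit 1866) (.e (nat_lit 1188) (nat_lit 88) (.e (nat_lit 65630) (nat_lit 14) (.e (nat_lit 401459) (nat_lit 13) (.e (nat_lit 483375) (nat_lit 22) .nil)))) .nil)))) (.nd (nat_lit 4) (.nd (nat_lit 5) 
(.lf (nat_lit 24011) (.g (nat_lit 2669) (.e (nat_lit 1188) (nat_lit 88) (.e (nat_lit 65630) (nat_lit 14) (.e (nat_lit 401459) (nat_lit 13) (.e (nat_lit 483344) (nat_lit 17) (.e (nat_lit 6434) (nat_lit 343) .nil))))) .nil)) 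
(.lf (nat_lit 24043) (.g (nat_lit 4334) (.e (nat_lit 1188) (nat_lit 88) (.e (nat_lit 65630) (nat_lit 14) (.e (nat_lit 401459) (nat_lit 13) (.e (nat_lit 483372) (nat_lit 21) (.e (nat_lit 319490) (nat_lit 0) .nil))))) .nil))) (.nd (nat_lit 5) 
(.lf (nat_lit 24027) (.g (nat_lit 2479) (.e (nat_lit 1188) (nat_lit 88) (.e (nat_lit 65630) (nat_lit 14) (.e (nat_lit 401459) (nat_lit 13) (.e (nat_lit 483347) (nat_lit 17) (.e (nat_lit 7936) (nat_lit 346) (.e (nat_lit 57354) (nat_lit 0) (.e (nat_lit 5905) (nat_lit 320) .nil))))))) (.g (nat_lit 4) .nil .nil))) 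
(.lf (nat_lit 24059) (.g (nat_lit 3300) (.e (nat_lit 1188) (nat_lit 88) (.e (nat_lit 65630) (nat_lit 14) (.e (nat_lit 401459) (nat_lit 13) (.e (nat_lit 483380) (nat_lit 23) (.e (nat_lit 335969) (nat_lit 0) .nil))))) .nil))))) (.nd (nat_lit 3) (.nd (nat_lit 4) (.nd (nat_lit 5) 
(.lf (nat_lit 24007) (.g (nat_lit 2689) (.e (nat_lit 1188) (nat_lit 88) (.e (nat_lit 65630) (nat_lit 14) (.e (nat_lit 401459) (nat_lit 13) (.e (nat_lit 483344) (nat_lit 17) (.e (nat_lit 6154) (nat_lit 332) .nil))))) .nil)) 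
(.lf (nat_lit 24039) (.g (nat_lit 3119) (.e (nat_lit 1188) (nat_lit 88) (.e (nat_lit 65630) (nat_lit 14) (.e (nat_lit 401459) (nat_lit 13) (.e (nat_lit 483363) (nat_lit 18) (.e (nat_lit 65280) (nat_lit 217) .nil))))) .nil))) (.nd (nat_lit 5) 
(.lf (nat_lit 24023) (.g (nat_lit 2455) (.e (nat_lit 1188) (nat_lit 88) (.e (nat_lit 65630) (nat_lit 14) (.e (nat_lit 401459) (nat_lit 13) (.e (nat_lit 483344) (nat_lit 17) (.e (nat_lit 6714) (nat_lit 360) .nil))))) .nil)) 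
(.lf (nat_lit 24055) (.g (nat_lit 1665) (.e (nat_lit 1188) (nat_lit 88) (.e (nat_lit 65630) (nat_lit 14) (.e (nat_lit 401459) (nat_lit 13) (.e (nat_lit 483380) (nat_lit 23) .nil)))) .nil)))) (.nd (nat_lit 4) (.nd (nat_lit 5) 
(.lf (nat_lit 24015) (.g (nat_lit 5015) (.e (nat_lit 1188) (nat_lit 88) (.e (nat_lit 65630) (nat_lit 14) (.e (nat_lit 401459) (nat_lit 13) (.e (nat_lit 483344) (nat_lit 17) (.e (nat_lit 6486) (nat_lit 343) (.e (nat_lit 1181) (nat_lit 87) (.e (nat_lit 57872) (nat_lit 264) .nil))))))) (.g (nat_lit 7) .nil .nil))) 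
(.lf (nat_lit 24047) (.g (nat_lit 4640) (.e (nat_lit 1188) (nat_lit 88) (.e (nat_lit 65630) (nat_lit 14) (.e (nat_lit 401459) (nat_lit 13) (.e (nat_lit 483372) (nat_lit 21) (.e (nat_lit 319514) (nat_lit 11) .nil))))) .nil))) (.nd (nat_lit 5) 
(.lf (nat_lit 24031) (.g (nat_lit 2726) (.e (nat_lit 1188) (nat_lit 88) (.e (nat_lit 65630) (nat_lit 14) (.e (nat_lit 401459) (nat_lit 13) (.e (nat_lit 483350) (nat_lit 17) (.e (nat_lit 6113) (nat_lit 332) .nil))))) .nil)) 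
(.lf (nat_lit 24063) (.g (nat_lit 2378) (.e (nat_lit 1188) (nat_lit 88) (.e (nat_lit 65630) (nat_lit 14) (.e (nat_lit 401459) (nat_lit 13) (.e (nat_lit 483380) (nat_lit 23) (.e (nat_lit 343808) (nat_lit 1) (.e (nat_lit 57871) (nat_lit 264) .nil)))))) (.g (nat_lit 4) .nil .nil)))))))))

noncomputable def tv339 : DT := (.nd (nat_lit 0) (.nd (nat_lit 1) (.nd (nat_lit 2) (.nd (nat_lit 3) (.nd (nat_lit 4) (.nd (nat_lit 5) 
(.lf (nat_lit 24064) (.g (nat_lit 2530) (.e (nat_lit 1188) (nat_lit 88) (.e (nat_lit 65630) (nat_lit 14) (.e (nat_lit 401459) (nat_lit 13) (.e (nat_lit 483380) (nat_lit 23) (.e (nat_lit 336258) (nat_lit 15) .nil))))) .nil)) 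
(.lf (nat_lit 24096) (.g (nat_lit 1954) (.e (nat_lit 1188) (nat_lit 88) (.e (nat_lit 65630) (nat_lit 14) (.e (nat_lit 401459) (nat_lit 13) (.e (nat_lit 491264) (nat_lit 23) .nil)))) .nil))) (.nd (nat_lit 5) 
(.lf (nat_lit 24080) (.g (nat_lit 2435) (.e (nat_lit 1188) (nat_lit 88) (.e (nat_lit 65630) (nat_lit 14) (.e (nat_lit 401459) (nat_lit 13) (.e (nat_lit 483388) (nat_lit 23) .nil)))) .nil)) 
(.lf (nat_lit 24112) (.g (nat_lit 3417) (.e (nat_lit 1188) (nat_lit 88) (.e (nat_lit 65630) (nat_lit 14) (.e (nat_lit 401459) (nat_lit 13) (.e (nat_lit 483396) (nat_lit 24) (.e (nat_lit 344100) (nat_lit 18) (.e (nat_lit 5907) (nat_lit 320) .nil)))))) (.g (nat_lit 5) .nil .nil))))) (.nd (nat_lit 4) (.nd (nat_lit 5) 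
(.lf (nat_lit 24072) (.g (nat_lit 1909) (.e (nat_lit 1188) (nat_lit 88) (.e (nat_lit 65630) (nat_lit 14) (.e (nat_lit 401459) (nat_lit 13) (.e (nat_lit 483386) (nat_lit 23) (.e (nat_lit 335923) (nat_lit 0) .nil))))) .nil)) 
(.lf (nat_lit 24104) (.g (nat_lit 3483) (.e (nat_lit 1188) (nat_lit 88) (.e (nat_lit 65630) (nat_lit 14) (.e (nat_lit 401459) (nat_lit 13) (.e (nat_lit 483395) (nat_lit 24) (.e (nat_lit 344097) (nat_lit 18) (.e (nat_lit 5907) (nat_lit 320) .nil)))))) (.g (nat_lit 0) .nil .nil)))) (.nd (nat_lit 5) 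
(.lf (nat_lit 24088) (.g (nat_lit 1996) (.e (nat_lit 1188) (nat_lit 88) (.e (nat_lit 65630) (nat_lit 14) (.e (nat_lit 401459) (nat_lit 13) (.e (nat_lit 483393) (nat_lit 23) .nil)))) .nil)) 
(.lf (nat_lit 24120) (.g (nat_lit 3351) (.e (nat_lit 1188) (nat_lit 88) (.e (nat_lit 65630) (nat_lit 14) (.e (nat_lit 401459) (nat_lit 13) (.e (nat_lit 483399) (nat_lit 25) (.e (nat_lit 368662) (nat_lit 18) (.e (nat_lit 5907) (nat_lit 320) .nil)))))) (.g (nat_lit 0) .nil .nil)))))) (.nd (nat_lit 3) (.nd (nat_lit 4) (.nd (nat_lit 5) 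
(.lf (nat_lit 24068) (.g (nat_lit 2900) (.e (nat_lit 1188) (nat_lit 88) (.e (nat_lit 65630) (nat_lit 14) (.e (nat_lit 401459) (nat_lit 13) (.e (nat_lit 483383) (nat_lit 23) (.e (nat_lit 336000) (nat_lit 1) .nil))))) .nil)) 
(.lf (nat_lit 24100) (.g (nat_lit 1989) (.e (nat_lit 1188) (nat_lit 88) (.e (nat_lit 65630) (nat_lit 14) (.e (nat_lit 401459) (nat_lit 13) (.e (nat_lit 483394) (nat_lit 24) (.e (nat_lit 344100) (nat_lit 18) .nil))))) .nil))) (.nd (nat_lit 5) 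
(.lf (nat_lit 24084) (.g (nat_lit 2642) (.e (nat_lit 1188) (nat_lit 88) (.e (nat_lit 65630) (nat_lit 14) (.e (nat_lit 401459) (nat_lit 13) (.e (nat_lit 483389) (nat_lit 23) (.e (nat_lit 335997) (nat_lit 1) (.e (nat_lit 57872) (nat_lit 264) .nil)))))) (.g (nat_lit 5) .nil .nil))) 
(.lf (nat_lit 24116) (.g (nat_lit 2820) (.e (nat_lit 1188) (nat_lit 88) (.e (nat_lit 65630) (nat_lit 14) (.e (nat_lit 401459) (nat_lit 13) (.e (nat_lit 483398) (nat_lit 25) (.e (nat_lit 368662) (nat_lit 18) (.e (nat_lit 5905) (nat_lit 320) .nil)))))) (.g (nat_lit 5) .nil .nil))))) (.nd (nat_lit 4) (.nd (nat_lit 5) 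
(.lf (nat_lit 24076) (.g (nat_lit 1668) (.e (nat_lit 1188) (nat_lit 88) (.e (nat_lit 65630) (nat_lit 14) (.e (nat_lit 401459) (nat_lit 13) (.e (nat_lit 483386) (nat_lit 23) (.e (nat_lit 335992) (nat_lit 1) .nil))))) .nil)) 
(.lf (nat_lit 24108) (.g (nat_lit 2888) (.e (nat_lit 1188) (nat_lit 88) (.e (nat_lit 65630) (nat_lit 14) (.e (nat_lit 401459) (nat_lit 13) (.e (nat_lit 483396) (nat_lit 24) (.e (nat_lit 344093) (nat_lit 18) .nil))))) .nil))) (.nd (nat_lit 5) 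
(.lf (nat_lit 24092) (.g (nat_lit 3734) (.e (nat_lit 1188) (nat_lit 88) (.e (nat_lit 65630) (nat_lit 14) (.e (nat_lit 401459) (nat_lit 13) (.e (nat_lit 483393) (nat_lit 23) (.e (nat_lit 335986) (nat_lit 1) (.e (nat_lit 57873) (nat_lit 264) .nil)))))) (.g (nat_lit 6) .nil .nil))) 
(.lf (nat_lit 24124) (.g (nat_lit 1582) (.e (nat_lit 1188) (nat_lit 88) (.e (nat_lit 65630) (nat_lit 14) (.e (nat_lit 401459) (nat_lit 13) (.e (nat_lit 483410) (nat_lit 27) .nil)))) .nil)))))) (.nd (nat_lit 2) (.nd (nat_lit 3) (.nd (nat_lit 4) (.nd (nat_lit 5) 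
(.lf (nat_lit 24066) (.g (nat_lit 2303) (.e (nat_lit 1188) (nat_lit 88) (.e (nat_lit 65630) (nat_lit 14) (.e (nat_lit 401459) (nat_lit 13) (.e (nat_lit 483381) (nat_lit 23) (.e (nat_lit 343808) (nat_lit 1) (.e (nat_lit 57873) (nat_lit 264) .nil)))))) (.g (nat_lit 4) .nil .nil))) 
(.lf (nat_lit 24098) (.g (nat_lit 3537) (.e (nat_lit 1188) (nat_lit 88) (.e (nat_lit 65630) (nat_lit 14) (.e (nat_lit 401459) (nat_lit 13) (.e (nat_lit 483394) (nat_lit 24) (.e (nat_lit 344097) (nat_lit 18) (.e (nat_lit 5906) (nat_lit 320) .nil)))))) (.g (nat_lit 0) .nil .nil)))) (.nd (nat_lit 5) 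
(.lf (nat_lit 24082) (.g (nat_lit 2625) (.e (nat_lit 1188) (nat_lit 88) (.e (nat_lit 65630) (nat_lit 14) (.e (nat_lit 401459) (nat_lit 13) (.e (nat_lit 483389) (nat_lit 23) (.e (nat_lit 335997) (nat_lit 1) (.e (nat_lit 57870) (nat_lit 264) .nil)))))) (.g (nat_lit 5) .nil .nil))) 
(.lf (nat_lit 24114) (.g (nat_lit 3107) (.e (nat_lit 1188) (nat_lit 88) (.e (nat_lit 65630) (nat_lit 14) (.e (nat_lit 401459) (nat_lit 13) (.e (nat_lit 483397) (nat_lit 25) (.e (nat_lit 368662) (nat_lit 18) (.e (nat_lit 5907) (nat_lit 320) .nil)))))) (.g (nat_lit 5) .nil .nil))))) (.nd (nat_lit 4) (.nd (nat_lit 5) 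
(.lf (nat_lit 24074) (.g (nat_lit 2710) (.e (nat_lit 1188) (nat_lit 88) (.e (nat_lit 65630) (nat_lit 14) (.e (nat_lit 401459) (nat_lit 13) (.e (nat_lit 483386) (nat_lit 23) (.e (nat_lit 335985) (nat_lit 1) (.e (nat_lit 57873) (nat_lit 264) .nil)))))) (.g (nat_lit 0) .nil .nil))) 
(.lf (nat_lit 24106) (.g (nat_lit 1895) (.e (nat_lit 1188) (nat_lit 88) (.e (nat_lit 65630) (nat_lit 14) (.e (nat_lit 401459) (nat_lit 13) (.e (nat_lit 483395) (nat_lit 24) (.e (nat_lit 344101) (nat_lit 18) .nil))))) .nil))) (.nd (nat_lit 5) 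
(.lf (nat_lit 24090) (.g (nat_lit 3396) (.e (nat_lit 1188) (nat_lit 88) (.e (nat_lit 65630) (nat_lit 14) (.e (nat_lit 401459) (nat_lit 13) (.e (nat_lit 483393) (nat_lit 23) (.e (nat_lit 335986) (nat_lit 1) (.e (nat_lit 57871) (nat_lit 264) .nil)))))) (.g (nat_lit 6) .nil .nil))) 
(.lf (nat_lit 24122) (.g (nat_lit 1871) (.e (nat_lit 1188) (nat_lit 88) (.e (nat_lit 65630) (nat_lit 14) (.e (nat_lit 401459) (nat_lit 13) (.e (nat_lit 483400) (nat_lit 25) .nil)))) .nil))))) (.nd (nat_lit 3) (.nd (nat_lit 4) (.nd (nat_lit 5) 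
(.lf (nat_lit 24070) (.g (nat_lit 1233) (.e (nat_lit 1188) (nat_lit 88) (.e (nat_lit 65630) (nat_lit 14) (.e (nat_lit 401459) (nat_lit 13) (.e (nat_lit 483386) (nat_lit 23) .nil)))) .nil)) 
(.lf (nat_lit 24102) (.g (nat_lit 1177) (.e (nat_lit 1188) (nat_lit 88) (.e (nat_lit 65630) (nat_lit 14) (.e (nat_lit 401459) (nat_lit 13) (.e (nat_lit 483395) (nat_lit 24) .nil)))) .nil))) (.nd (nat_lit 5) 
(.lf (nat_lit 24086) (.g (nat_lit 3689) (.e (nat_lit 1188) (nat_lit 88) (.e (nat_lit 65630) (nat_lit 14) (.e (nat_lit 401459) (nat_lit 13) (.e (nat_lit 483391) (nat_lit 23) (.e (nat_lit 335998) (nat_lit 1) (.e (nat_lit 57873) (nat_lit 264) .nil)))))) (.g (nat_lit 6) .nil .nil))) 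
(.lf (nat_lit 24118) (.g (nat_lit 1718) (.e (nat_lit 1188) (nat_lit 88) (.e (nat_lit 65630) (nat_lit 14) (.e (nat_lit 401459) (nat_lit 13) (.e (nat_lit 483399) (nat_lit 25) .nil)))) .nil)))) (.nd (nat_lit 4) (.nd (nat_lit 5) 
(.lf (nat_lit 24078) (.g (nat_lit 3090) (.e (nat_lit 1188) (nat_lit 88) (.e (nat_lit 65630) (nat_lit 14) (.e (nat_lit 401459) (nat_lit 13) (.e (nat_lit 483387) (nat_lit 23) (.e (nat_lit 335997) (nat_lit 1) (.e (nat_lit 57870) (nat_lit 264) .nil)))))) (.g (nat_lit 6) .nil .nil))) 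
(.lf (nat_lit 24110) (.g (nat_lit 2998) (.e (nat_lit 1188) (nat_lit 88) (.e (nat_lit 65630) (nat_lit 14) (.e (nat_lit 401459) (nat_lit 13) (.e (nat_lit 483396) (nat_lit 24) (.e (nat_lit 344097) (nat_lit 18) (.e (nat_lit 5907) (nat_lit 320) .nil)))))) (.g (nat_lit 4) .nil .nil)))) (.nd (nat_lit 5) 
(.lf (nat_lit 24094) (.g (nat_lit 4125) (.e (nat_lit 1188) (nat_lit 88) (.e (nat_lit 65630) (nat_lit 14) (.e (nat_lit 401459) (nat_lit 13) (.e (nat_lit 483393) (nat_lit 23) (.e (nat_lit 335995) (nat_lit 1) (.e (nat_lit 57872) (nat_lit 264) .nil)))))) (.g (nat_lit 6) .nil .nil))) 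
(.lf (nat_lit 24126) (.g (nat_lit 2739) (.e (nat_lit 1188) (nat_lit 88) (.e (nat_lit 65630) (nat_lit 14) (.e (nat_lit 401459) (nat_lit 13) (.e (nat_lit 483410) (nat_lit 27) (.e (nat_lit 401416) (nat_lit 0) .nil))))) .nil))))))) (.nd (nat_lit 1) (.nd (nat_lit 2) (.nd (nat_lit 3) (.nd (nat_lit 4) (.nd (nat_lit 5) 
(.lf (nat_lit 24065) (.g (nat_lit 1998) (.e (nat_lit 1188) (nat_lit 88) (.e (nat_lit 65630) (nat_lit 14) (.e (nat_lit 401459) (nat_lit 13) (.e (nat_lit 483381) (nat_lit 23) .nil)))) .nil)) 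
(.lf (nat_lit 24097) (.g (nat_lit 1278) (.e (nat_lit 1188) (nat_lit 88) (.e (nat_lit 65630) (nat_lit 14) (.e (nat_lit 401459) (nat_lit 13) (.e (nat_lit 483394) (nat_lit 24) .nil)))) .nil))) (.nd (nat_lit 5) 
(.lf (nat_lit 24081) (.g (nat_lit 2048) (.e (nat_lit 1188) (nat_lit 88) (.e (nat_lit 65630) (nat_lit 14) (.e (nat_lit 401459) (nat_lit 13) (.e (nat_lit 483389) (nat_lit 23) .nil)))) .nil)) 
(.lf (nat_lit 24113) (.g (nat_lit 2461) (.e (nat_lit 1188) (nat_lit 88) (.e (nat_lit 65630) (nat_lit 14) (.e (nat_lit 401459) (nat_lit 13) (.e (nat_lit 483397) (nat_lit 25) .nil)))) .nil)))) (.nd (nat_lit 4) (.nd (nat_lit 5) 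
(.lf (nat_lit 24073) (.g (nat_lit 2523) (.e (nat_lit 1188) (nat_lit 88) (.e (nat_lit 65630) (nat_lit 14) (.e (nat_lit 401459) (nat_lit 13) (.e (nat_lit 483386) (nat_lit 23) (.e (nat_lit 335985) (nat_lit 1) (.e (nat_lit 57871) (nat_lit 264) .nil)))))) (.g (nat_lit 0) .nil .nil))) 
(.lf (nat_lit 24105) (.g (nat_lit 1914) (.e (nat_lit 1188) (nat_lit 88) (.e (nat_lit 65630) (nat_lit 14) (.e (nat_lit 401459) (nat_lit 13) (.e (nat_lit 483395) (nat_lit 24) (.e (nat_lit 344099) (nat_lit 18) .nil))))) .nil))) (.nd (nat_lit 5) 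
(.lf (nat_lit 24089) (.g (nat_lit 2592) (.e (nat_lit 1188) (nat_lit 88) (.e (nat_lit 65630) (nat_lit 14) (.e (nat_lit 401459) (nat_lit 13) (.e (nat_lit 483393) (nat_lit 23) (.e (nat_lit 335986) (nat_lit 1) (.e (nat_lit 57870) (nat_lit 264) .nil)))))) (.g (nat_lit 4) .nil .nil))) 
(.lf (nat_lit 24121) (.g (nat_lit 2330) (.e (nat_lit 1188) (nat_lit 88) (.e (nat_lit 65630) (nat_lit 14) (.e (nat_lit 401459) (nat_lit 13) (.e (nat_lit 483399) (nat_lit 25) (.e (nat_lit 368663) (nat_lit 18) .nil))))) .nil))))) (.nd (nat_lit 3) (.nd (nat_lit 4) (.nd (nat_lit 5) 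
(.lf (nat_lit 24069) (.g (nat_lit 3646) (.e (nat_lit 1188) (nat_lit 88) (.e (nat_lit 65630) (nat_lit 14) (.e (nat_lit 401459) (nat_lit 13) (.e (nat_lit 483383) (nat_lit 23) (.e (nat_lit 336000) (nat_lit 1) (.e (nat_lit 57873) (nat_lit 264) .nil)))))) (.g (nat_lit 5) .nil .nil))) 
(.lf (nat_lit 24101) (.g (nat_lit 2577) (.e (nat_lit 1188) (nat_lit 88) (.e (nat_lit 65630) (nat_lit 14) (.e (nat_lit 401459) (nat_lit 13) (.e (nat_lit 483394) (nat_lit 24) (.e (nat_lit 344100) (nat_lit 18) (.e (nat_lit 5907) (nat_lit 320) .nil)))))) (.g (nat_lit 5) .nil .nil)))) (.nd (nat_lit 5) 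
(.lf (nat_lit 24085) (.g (nat_lit 1998) (.e (nat_lit 1188) (nat_lit 88) (.e (nat_lit 65630) (nat_lit 14) (.e (nat_lit 401459) (nat_lit 13) (.e (nat_lit 483391) (nat_lit 23) .nil)))) .nil)) 
(.lf (nat_lit 24117) (.g (nat_lit 3139) (.e (nat_lit 1188) (nat_lit 88) (.e (nat_lit 65630) (nat_lit 14) (.e (nat_lit 401459) (nat_lit 13) (.e (nat_lit 483398) (nat_lit 25) (.e (nat_lit 368662) (nat_lit 18) (.e (nat_lit 5907) (nat_lit 320) .nil)))))) (.g (nat_lit 0) .nil .nil))))) (.nd (nat_lit 4) (.nd (nat_lit 5) 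
(.lf (nat_lit 24077) (.g (nat_lit 2461) (.e (nat_lit 1188) (nat_lit 88) (.e (nat_lit 65630) (nat_lit 14) (.e (nat_lit 401459) (nat_lit 13) (.e (nat_lit 483386) (nat_lit 23) (.e (nat_lit 335992) (nat_lit 1) (.e (nat_lit 57870) (nat_lit 264) .nil)))))) (.g (nat_lit 6) .nil .nil))) 
(.lf (nat_lit 24109) (.g (nat_lit 2893) (.e (nat_lit 1188) (nat_lit 88) (.e (nat_lit 65630) (nat_lit 14) (.e (nat_lit 401459) (nat_lit 13) (.e (nat_lit 483396) (nat_lit 24) (.e (nat_lit 344097) (nat_lit 18) .nil))))) .nil))) (.nd (nat_lit 5) 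
(.lf (nat_lit 24093) (.g (nat_lit 3326) (.e (nat_lit 1188) (nat_lit 88) (.e (nat_lit 65630) (nat_lit 14) (.e (nat_lit 401459) (nat_lit 13) (.e (nat_lit 483393) (nat_lit 23) (.e (nat_lit 335995) (nat_lit 1) (.e (nat_lit 57870) (nat_lit 264) .nil)))))) (.g (nat_lit 5) .nil .nil))) 
(.lf (nat_lit 24125) (.g (nat_lit 2383) (.e (nat_lit 1188) (nat_lit 88) (.e (nat_lit 65630) (nat_lit 14) (.e (nat_lit 401459) (nat_lit 13) (.e (nat_lit 483410) (nat_lit 27) (.e (nat_lit 401414) (nat_lit 0) .nil))))) .nil)))))) (.nd (nat_lit 2) (.nd (nat_lit 3) (.nd (nat_lit 4) (.nd (nat_lit 5) 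
(.lf (nat_lit 24067) (.g (nat_lit 2317) (.e (nat_lit 1188) (nat_lit 88) (.e (nat_lit 65630) (nat_lit 14) (.e (nat_lit 401459) (nat_lit 13) (.e (nat_lit 483383) (nat_lit 23) .nil)))) .nil)) 
(.lf (nat_lit 24099) (.g (nat_lit 3771) (.e (nat_lit 1188) (nat_lit 88) (.e (nat_lit 65630) (nat_lit 14) (.e (nat_lit 401459) (nat_lit 13) (.e (nat_lit 483394) (nat_lit 24) (.e (nat_lit 344097) (nat_lit 18) (.e (nat_lit 5907) (nat_lit 320) .nil)))))) (.g (nat_lit 0) .nil .nil)))) (.nd (nat_lit 5) 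
(.lf (nat_lit 24083) (.g (nat_lit 2641) (.e (nat_lit 1188) (nat_lit 88) (.e (nat_lit 65630) (nat_lit 14) (.e (nat_lit 401459) (nat_lit 13) (.e (nat_lit 483389) (nat_lit 23) (.e (nat_lit 335997) (nat_lit 1) (.e (nat_lit 57871) (nat_lit 264) .nil)))))) (.g (nat_lit 5) .nil .nil))) 
(.lf (nat_lit 24115) (.g (nat_lit 1569) (.e (nat_lit 1188) (nat_lit 88) (.e (nat_lit 65630) (nat_lit 14) (.e (nat_lit 401459) (nat_lit 13) (.e (nat_lit 483398) (nat_lit 25) .nil)))) .nil)))) (.nd (nat_lit 4) (.nd (nat_lit 5) 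
(.lf (nat_lit 24075) (.g (nat_lit 1820) (.e (nat_lit 1188) (nat_lit 88) (.e (nat_lit 65630) (nat_lit 14) (.e (nat_lit 401459) (nat_lit 13) (.e (nat_lit 483386) (nat_lit 23) (.e (nat_lit 335991) (nat_lit 1) .nil))))) .nil)) 
(.lf (nat_lit 24107) (.g (nat_lit 2102) (.e (nat_lit 1188) (nat_lit 88) (.e (nat_lit 65630) (nat_lit 14) (.e (nat_lit 401459) (nat_lit 13) (.e (nat_lit 483396) (nat_lit 24) .nil)))) .nil))) (.nd (nat_lit 5) 
(.lf (nat_lit 24091) (.g (nat_lit 3169) (.e (nat_lit 1188) (nat_lit 88) (.e (nat_lit 65630) (nat_lit 14) (.e (nat_lit 401459) (nat_lit 13) (.e (nat_lit 483393) (nat_lit 23) (.e (nat_lit 335986) (nat_lit 1) (.e (nat_lit 57872) (nat_lit 264) .nil)))))) (.g (nat_lit 5) .nil .nil))) 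
(.lf (nat_lit 24123) (.g (nat_lit 3142) (.e (nat_lit 1188) (nat_lit 88) (.e (nat_lit 65630) (nat_lit 14) (.e (nat_lit 401459) (nat_lit 13) (.e (nat_lit 483400) (nat_lit 25) (.e (nat_lit 368662) (nat_lit 18) (.e (nat_lit 5907) (nat_lit 320) .nil)))))) (.g (nat_lit 6) .nil .nil)))))) (.nd (nat_lit 3) (.nd (nat_lit 4) (.nd (nat_lit 5) 
(.lf (nat_lit 24071) (.g (nat_lit 1907) (.e (nat_lit 1188) (nat_lit 88) (.e (nat_lit 65630) (nat_lit 14) (.e (nat_lit 401459) (nat_lit 13) (.e (nat_lit 483386) (nat_lit 23) (.e (nat_lit 335921) (nat_lit 0) .nil))))) .nil)) 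
(.lf (nat_lit 24103) (.g (nat_lit 3237) (.e (nat_lit 1188) (nat_lit 88) (.e (nat_lit 65630) (nat_lit 14) (.e (nat_lit 401459) (nat_lit 13) (.e (nat_lit 483395) (nat_lit 24) (.e (nat_lit 344097) (nat_lit 18) (.e (nat_lit 5906) (nat_lit 320) .nil)))))) (.g (nat_lit 0) .nil .nil)))) (.nd (nat_lit 5) 
(.lf (nat_lit 24087) (.g (nat_lit 2305) (.e (nat_lit 1188) (nat_lit 88) (.e (nat_lit 65630) (nat_lit 14) (.e (nat_lit 401459) (nat_lit 13) (.e (nat_lit 483392) (nat_lit 23) .nil)))) .nil)) 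
(.lf (nat_lit 24119) (.g (nat_lit 2841) (.e (nat_lit 1188) (nat_lit 88) (.e (nat_lit 65630) (nat_lit 14) (.e (nat_lit 401459) (nat_lit 13) (.e (nat_lit 483399) (nat_lit 25) (.e (nat_lit 368662) (nat_lit 18) (.e (nat_lit 5905) (nat_lit 320) .nil)))))) (.g (nat_lit 5) .nil .nil))))) (.nd (nat_lit 4) (.nd (nat_lit 5) 
(.lf (nat_lit 24079) (.g (nat_lit 3332) (.e (nat_lit 1188) (nat_lit 88) (.e (nat_lit 65630) (nat_lit 14) (.e (nat_lit 401459) (nat_lit 13) (.e (nat_lit 483387) (nat_lit 23) (.e (nat_lit 335997) (nat_lit 1) (.e (nat_lit 57872) (nat_lit 264) .nil)))))) (.g (nat_lit 0) .nil .nil))) 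
(.lf (nat_lit 24111) (.g (nat_lit 2907) (.e (nat_lit 1188) (nat_lit 88) (.e (nat_lit 65630) (nat_lit 14) (.e (nat_lit 401459) (nat_lit 13) (.e (nat_lit 483396) (nat_lit 24) (.e (nat_lit 344100) (nat_lit 18) .nil))))) .nil))) (.nd (nat_lit 5) 
(.lf (nat_lit 24095) (.g (nat_lit 3958) (.e (nat_lit 1188) (nat_lit 88) (.e (nat_lit 65630) (nat_lit 14) (.e (nat_lit 401459) (nat_lit 13) (.e (nat_lit 483393) (nat_lit 23) (.e (nat_lit 335996) (nat_lit 1) (.e (nat_lit 57870) (nat_lit 264) .nil)))))) (.g (nat_lit 6) .nil .nil))) 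
(.lf (nat_lit 24127) (.g (nat_lit 2721) (.e (nat_lit 1188) (nat_lit 88) (.e (nat_lit 65630) (nat_lit 14) (.e (nat_lit 401459) (nat_lit 13) (.e (nat_lit 483410) (nat_lit 27) (.e (nat_lit 401418) (nat_lit 0) .nil))))) .nil))))))))

noncomputable def tv340 : DT := (.nd (nat_lit 0) (.nd (nat_lit 1) (.nd (nat_lit 2) (.nd (nat_lit 3) (.nd (nat_lit 4) (.nd (nat_lit 5) 
(.lf (nat_lit 24128) (.g (nat_lit 2536) (.e (nat_lit 1188) (nat_lit 88) (.e (nat_lit 65630) (nat_lit 14) (.e (nat_lit 401459) (nat_lit 13) (.e (nat_lit 483410) (nat_lit 27) (.e (nat_lit 401422) (nat_lit 1) .nil))))) .nil)) 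
(.lf (nat_lit 24160) (.g (nat_lit 2551) (.e (nat_lit 1189) (nat_lit 88) (.e (nat_lit 65571) (nat_lit 3) (.e (nat_lit 98370) (nat_lit 28) (.e (nat_lit 442427) (nat_lit 23) (.e (nat_lit 204821) (nat_lit 17) .nil))))) .nil))) (.nd (nat_lit 5) 
(.lf (nat_lit 24144) (.g (nat_lit 3437) (.e (nat_lit 1188) (nat_lit 88) (.e (nat_lit 65631) (nat_lit 15) (.e (nat_lit 7593) (nat_lit 407) (.e (nat_lit 73746) (nat_lit 3) (.e (nat_lit 516195) (nat_lit 26) (.e (nat_lit 335995) (nat_lit 1) (.e (nat_lit 57872) (nat_lit 264) .nil))))))) (.g (nat_lit 0) .nil .nil))) 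
(.lf (nat_lit 24176) (.g (nat_lit 3404) (.e (nat_lit 1189) (nat_lit 88) (.e (nat_lit 65604) (nat_lit 9) (.e (nat_lit 335997) (nat_lit 1) (.e (nat_lit 57870) (nat_lit 264) (.e (nat_lit 1189) (nat_lit 88) (.e (nat_lit 65619) (nat_lit 10) (.e (nat_lit 344097) (nat_lit 18) (.e (nat_lit 5905) (nat_lit 320) .nil)))))))) (.g (nat_lit 0) .nil .nil))))) (.nd (nat_lit 4) (.nd (nat_lit 5) 
(.lf (nat_lit 24136) (.g (nat_lit 2772) (.e (nat_lit 1188) (nat_lit 88) (.e (nat_lit 65630) (nat_lit 14) (.e (nat_lit 401459) (nat_lit 13) (.e (nat_lit 483411) (nat_lit 27) (.e (nat_lit 401414) (nat_lit 0) (.e (nat_lit 2458) (nat_lit 157) (.e (nat_lit 4602) (nat_lit 269) .nil))))))) (.g (nat_lit 4) .nil .nil))) 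
(.lf (nat_lit 24168) (.g (nat_lit 2411) (.e (nat_lit 1189) (nat_lit 88) (.e (nat_lit 65604) (nat_lit 9) (.e (nat_lit 335907) (nat_lit 0) (.e (nat_lit 1994) (nat_lit 137) (.e (nat_lit 663567) (nat_lit 4) (.e (nat_lit 65604) (nat_lit 9) (.e (nat_lit 335997) (nat_lit 1) (.e (nat_lit 57870) (nat_lit 264) .nil)))))))) (.g (nat_lit 6) .nil .nil)))) (.nd (nat_lit 5) 
(.lf (nat_lit 24152) (.g (nat_lit 2937) (.e (nat_lit 1189) (nat_lit 88) (.e (nat_lit 65570) (nat_lit 3) (.e (nat_lit 98372) (nat_lit 29) (.e (nat_lit 450579) (nat_lit 5) (.e (nat_lit 532501) (nat_lit 1) (.e (nat_lit 65280) (nat_lit 221) .nil)))))) (.g (nat_lit 5) .nil .nil))) 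
(.lf (nat_lit 24184) (.g (nat_lit 2676) (.e (nat_lit 1189) (nat_lit 88) (.e (nat_lit 65604) (nat_lit 9) (.e (nat_lit 335997) (nat_lit 1) (.e (nat_lit 57871) (nat_lit 264) (.e (nat_lit 1189) (nat_lit 88) (.e (nat_lit 65604) (nat_lit 9) (.e (nat_lit 335997) (nat_lit 1) (.e (nat_lit 57871) (nat_lit 264) .nil)))))))) (.g (nat_lit 0) .nil .nil)))))) (.nd (nat_lit 3) (.nd (nat_lit 4) (.nd (nat_lit 5) 
(.lf (nat_lit 24132) (.g (nat_lit 2600) (.e (nat_lit 1188) (nat_lit 88) (.e (nat_lit 65630) (nat_lit 14) (.e (nat_lit 401459) (nat_lit 13) (.e (nat_lit 483411) (nat_lit 27) (.e (nat_lit 401414) (nat_lit 0) .nil))))) .nil)) 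
(.lf (nat_lit 24164) (.g (nat_lit 3004) (.e (nat_lit 1189) (nat_lit 88) (.e (nat_lit 65571) (nat_lit 3) (.e (nat_lit 98373) (nat_lit 29) (.e (nat_lit 450588) (nat_lit 10) (.e (nat_lit 573473) (nat_lit 12) (.e (nat_lit 57348) (nat_lit 0) (.e (nat_lit 7236) (nat_lit 382) .nil))))))) (.g (nat_lit 4) .nil .nil)))) (.nd (nat_lit 5) 
(.lf (nat_lit 24148) (.g (nat_lit 4172) (.e (nat_lit 1189) (nat_lit 88) (.e (nat_lit 65566) (nat_lit 2) (.e (nat_lit 90170) (nat_lit 13) (.e (nat_lit 172106) (nat_lit 10) (.e (nat_lit 434231) (nat_lit 23) (.e (nat_lit 532500) (nat_lit 1) (.e (nat_lit 65280) (nat_lit 221) .nil))))))) (.g (nat_lit 6) .nil .nil))) 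
(.lf (nat_lit 24180) (.g (nat_lit 2293) (.e (nat_lit 1189) (nat_lit 88) (.e (nat_lit 65604) (nat_lit 9) (.e (nat_lit 335997) (nat_lit 1) (.e (nat_lit 57870) (nat_lit 264) (.e (nat_lit 1219) (nat_lit 90) (.e (nat_lit 81948) (nat_lit 21) (.e (nat_lit 57871) (nat_lit 264) .nil))))))) (.g (nat_lit 0) .nil .nil))))) (.nd (nat_lit 4) (.nd (nat_lit 5) 
(.lf (nat_lit 24140) (.g (nat_lit 2973) (.e (nat_lit 1188) (nat_lit 88) (.e (nat_lit 65630) (nat_lit 14) (.e (nat_lit 401459) (nat_lit 13) (.e (nat_lit 483411) (nat_lit 27) (.e (nat_lit 401429) (nat_lit 4) .nil))))) .nil)) 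
(.lf (nat_lit 24172) (.g (nat_lit 1603) (.e (nat_lit 1189) (nat_lit 88) (.e (nat_lit 65604) (nat_lit 9) (.e (nat_lit 335907) (nat_lit 0) (.e (nat_lit 1996) (nat_lit 137) (.e (nat_lit 663569) (nat_lit 6) (.e (nat_lit 81948) (nat_lit 21) (.e (nat_lit 57870) (nat_lit 264) .nil))))))) (.g (nat_lit 5) .nil .nil)))) (.nd (nat_lit 5) 
(.lf (nat_lit 24156) (.g (nat_lit 2927) (.e (nat_lit 1189) (nat_lit 88) (.e (nat_lit 65570) (nat_lit 3) (.e (nat_lit 98373) (nat_lit 29) (.e (nat_lit 450588) (nat_lit 10) (.e (nat_lit 573475) (nat_lit 12) .nil))))) .nil)) 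
(.lf (nat_lit 24188) (.g (nat_lit 3843) (.e (nat_lit 1189) (nat_lit 88) (.e (nat_lit 65604) (nat_lit 9) (.e (nat_lit 335997) (nat_lit 1) (.e (nat_lit 57871) (nat_lit 264) (.e (nat_lit 1190) (nat_lit 88) (.e (nat_lit 65619) (nat_lit 10) (.e (nat_lit 344097) (nat_lit 18) (.e (nat_lit 5905) (nat_lit 320) .nil)))))))) (.g (nat_lit 8) .nil .nil))))))) 
(.nd (nat_lit 2) (.nd (nat_lit 3) (.nd (nat_lit 4) (.nd (nat_lit 5) 
(.lf (nat_lit 24130) (.g (nat_lit 1674) (.e (nat_lit 1188) (nat_lit 88) (.e (nat_lit 65630) (nat_lit 14) (.e (nat_lit 401459) (nat_lit 13) (.e (nat_lit 483411) (nat_lit 27) .nil)))) .nil)) 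
(.lf (nat_lit 24162) (.g (nat_lit 3171) (.e (nat_lit 1189) (nat_lit 88) (.e (nat_lit 65571) (nat_lit 3) (.e (nat_lit 98372) (nat_lit 29) (.e (nat_lit 450579) (nat_lit 5) (.e (nat_lit 532501) (nat_lit 1) (.e (nat_lit 65280) (nat_lit 221) .nil)))))) (.g (nat_lit 5) .nil .nil)))) (.nd (nat_lit 5) 
(.lf (nat_lit 24146) (.g (nat_lit 2552) (.e (nat_lit 1188) (nat_lit 88) (.e (nat_lit 65655) (nat_lit 35) (.e (nat_lit 491549) (nat_lit 9) (.e (nat_lit 336019) (nat_lit 3) (.e (nat_lit 98313) (nat_lit 9) (.e (nat_lit 335995) (nat_lit 1) (.e (nat_lit 57872) (nat_lit 264) .nil))))))) (.g (nat_lit 5) .nil .nil))) 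
(.lf (nat_lit 24178) (.g (nat_lit 3034) (.e (nat_lit 1189) (nat_lit 88) (.e (nat_lit 65604) (nat_lit 9) (.e (nat_lit 335997) (nat_lit 1) (.e (nat_lit 57870) (nat_lit 264) (.e (nat_lit 1200) (nat_lit 88) (.e (nat_lit 65604) (nat_lit 9) (.e (nat_lit 335997) (nat_lit 1) (.e (nat_lit 57871) (nat_lit 264) .nil)))))))) (.g (nat_lit 0) .nil .nil))))) (.nd (nat_lit 4) (.nd (nat_lit 5) 
(.lf (nat_lit 24138) (.g (nat_lit 3000) (.e (nat_lit 1188) (nat_lit 88) (.e (nat_lit 65630) (nat_lit 14) (.e (nat_lit 401459) (nat_lit 13) (.e (nat_lit 483411) (nat_lit 27) (.e (nat_lit 401418) (nat_lit 0) .nil))))) .nil)) 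
(.lf (nat_lit 24170) (.g (nat_lit 1287) (.e (nat_lit 1189) (nat_lit 88) (.e (nat_lit 65604) (nat_lit 9) (.e (nat_lit 335907) (nat_lit 0) (.e (nat_lit 1994) (nat_lit 137) (.e (nat_lit 663569) (nat_lit 6) (.e (nat_lit 81950) (nat_lit 21) (.e (nat_lit 57870) (nat_lit 264) .nil))))))) (.g (nat_lit 4) .nil .nil)))) (.nd (nat_lit 5) 
(.lf (nat_lit 24154) (.g (nat_lit 2915) (.e (nat_lit 1189) (nat_lit 88) (.e (nat_lit 65570) (nat_lit 3) (.e (nat_lit 98373) (nat_lit 29) (.e (nat_lit 450588) (nat_lit 10) (.e (nat_lit 573473) (nat_lit 12) .nil))))) .nil)) 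
(.lf (nat_lit 24186) (.g (nat_lit 3031) (.e (nat_lit 1189) (nat_lit 88) (.e (nat_lit 65604) (nat_lit 9) (.e (nat_lit 335997) (nat_lit 1) (.e (nat_lit 57871) (nat_lit 264) (.e (nat_lit 1190) (nat_lit 88) (.e (nat_lit 65604) (nat_lit 9) (.e (nat_lit 335997) (nat_lit 1) (.e (nat_lit 57870) (nat_lit 264) .nil)))))))) (.g (nat_lit 8) .nil .nil)))))) (.nd (nat_lit 3) (.nd (nat_lit 4) (.nd (nat_lit 5) 
(.lf (nat_lit 24134) (.g (nat_lit 3474) (.e (nat_lit 1188) (nat_lit 88) (.e (nat_lit 65630) (nat_lit 14) (.e (nat_lit 401459) (nat_lit 13) (.e (nat_lit 483411) (nat_lit 27) (.e (nat_lit 401414) (nat_lit 0) (.e (nat_lit 2424) (nat_lit 157) (.e (nat_lit 4616) (nat_lit 269) .nil))))))) (.g (nat_lit 5) .nil .nil))) 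
(.lf (nat_lit 24166) (.g (nat_lit 2968) (.e (nat_lit 1189) (nat_lit 88) (.e (nat_lit 65571) (nat_lit 3) (.e (nat_lit 98373) (nat_lit 29) (.e (nat_lit 450588) (nat_lit 10) (.e (nat_lit 573475) (nat_lit 12) (.e (nat_lit 57347) (nat_lit 0) (.e (nat_lit 7236) (nat_lit 382) .nil))))))) (.g (nat_lit 4) .nil .nil)))) (.nd (nat_lit 5) 
(.lf (nat_lit 24150) (.g (nat_lit 2362) (.e (nat_lit 1189) (nat_lit 88) (.e (nat_lit 65569) (nat_lit 3) (.e (nat_lit 98372) (nat_lit 29) (.e (nat_lit 450579) (nat_lit 5) (.e (nat_lit 532504) (nat_lit 1) (.e (nat_lit 65280) (nat_lit 221) .nil)))))) (.g (nat_lit 4) .nil .nil))) 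
(.lf (nat_lit 24182) (.g (nat_lit 2794) (.e (nat_lit 1189) (nat_lit 88) (.e (nat_lit 65604) (nat_lit 9) (.e (nat_lit 335997) (nat_lit 1) (.e (nat_lit 57870) (nat_lit 264) (.e (nat_lit 1221) (nat_lit 90) (.e (nat_lit 81950) (nat_lit 21) (.e (nat_lit 57871) (nat_lit 264) .nil))))))) (.g (nat_lit 0) .nil .nil))))) (.nd (nat_lit 4) (.nd (nat_lit 5) 
(.lf (nat_lit 24142) (.g (nat_lit 3023) (.e (nat_lit 1188) (nat_lit 88) (.e (nat_lit 65630) (nat_lit 14) (.e (nat_lit 401459) (nat_lit 13) (.e (nat_lit 483411) (nat_lit 27) (.e (nat_lit 401463) (nat_lit 15) .nil))))) .nil)) 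
(.lf (nat_lit 24174) (.g (nat_lit 880) (.e (nat_lit 1189) (nat_lit 88) (.e (nat_lit 65604) (nat_lit 9) (.e (nat_lit 335997) (nat_lit 1) (.e (nat_lit 57870) (nat_lit 264) .nil)))) .nil))) (.nd (nat_lit 5) 
(.lf (nat_lit 24158) (.g (nat_lit 3893) (.e (nat_lit 1189) (nat_lit 88) (.e (nat_lit 65570) (nat_lit 3) (.e (nat_lit 98373) (nat_lit 29) (.e (nat_lit 450588) (nat_lit 10) (.e (nat_lit 573475) (nat_lit 12) (.e (nat_lit 57348) (nat_lit 0) (.e (nat_lit 7236) (nat_lit 382) .nil))))))) (.g (nat_lit 5) .nil .nil))) 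
(.lf (nat_lit 24190) (.g (nat_lit 2984) (.e (nat_lit 1189) (nat_lit 88) (.e (nat_lit 65604) (nat_lit 9) (.e (nat_lit 335997) (nat_lit 1) (.e (nat_lit 57871) (nat_lit 264) (.e (nat_lit 1200) (nat_lit 88) (.e (nat_lit 65604) (nat_lit 9) (.e (nat_lit 335997) (nat_lit 1) (.e (nat_lit 57871) (nat_lit 264) .nil)))))))) (.g (nat_lit 8) .nil .nil)))))))) 
(.nd (nat_lit 1) (.nd (nat_lit 2) (.nd (nat_lit 3) (.nd (nat_lit 4) (.nd (nat_lit 5) 
(.lf (nat_lit 24129) (.g (nat_lit 2711) (.e (nat_lit 1188) (nat_lit 88) (.e (nat_lit 65630) (nat_lit 14) (.e (nat_lit 401459) (nat_lit 13) (.e (nat_lit 483410) (nat_lit 27) (.e (nat_lit 401463) (nat_lit 15) .nil))))) .nil)) 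
(.lf (nat_lit 24161) (.g (nat_lit 2572) (.e (nat_lit 1189) (nat_lit 88) (.e (nat_lit 65571) (nat_lit 3) (.e (nat_lit 98372) (nat_lit 29) (.e (nat_lit 450579) (nat_lit 5) (.e (nat_lit 532499) (nat_lit 1) (.e (nat_lit 65280) (nat_lit 221) .nil)))))) (.g (nat_lit 5) .nil .nil)))) (.nd (nat_lit 5) 
(.lf (nat_lit 24145) (.g (nat_lit 881) (.e (nat_lit 1188) (nat_lit 88) (.e (nat_lit 65655) (nat_lit 35) (.e (nat_lit 491547) (nat_lit 9) (.e (nat_lit 336019) (nat_lit 3) .nil)))) .nil)) 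
(.lf (nat_lit 24177) (.g (nat_lit 3589) (.e (nat_lit 1189) (nat_lit 88) (.e (nat_lit 65604) (nat_lit 9) (.e (nat_lit 335997) (nat_lit 1) (.e (nat_lit 57870) (nat_lit 264) (.e (nat_lit 1199) (nat_lit 88) (.e (nat_lit 65610) (nat_lit 10) (.e (nat_lit 344097) (nat_lit 18) (.e (nat_lit 5905) (nat_lit 320) .nil)))))))) (.g (nat_lit 0) .nil .nil))))) (.nd (nat_lit 4) (.nd (nat_lit 5) 
(.lf (nat_lit 24137) (.g (nat_lit 3106) (.e (nat_lit 1188) (nat_lit 88) (.e (nat_lit 65630) (nat_lit 14) (.e (nat_lit 401459) (nat_lit 13) (.e (nat_lit 483411) (nat_lit 27) (.e (nat_lit 401416) (nat_lit 0) .nil))))) .nil)) 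
(.lf (nat_lit 24169) (.g (nat_lit 1719) (.e (nat_lit 1189) (nat_lit 88) (.e (nat_lit 65604) (nat_lit 9) (.e (nat_lit 335907) (nat_lit 0) (.e (nat_lit 1994) (nat_lit 137) (.e (nat_lit 663569) (nat_lit 6) (.e (nat_lit 81948) (nat_lit 21) (.e (nat_lit 57870) (nat_lit 264) .nil))))))) (.g (nat_lit 5) .nil .nil)))) (.nd (nat_lit 5) 
(.lf (nat_lit 24153) (.g (nat_lit 2888) (.e (nat_lit 1189) (nat_lit 88) (.e (nat_lit 65570) (nat_lit 3) (.e (nat_lit 98372) (nat_lit 29) (.e (nat_lit 450579) (nat_lit 5) (.e (nat_lit 532504) (nat_lit 1) (.e (nat_lit 65280) (nat_lit 221) .nil)))))) (.g (nat_lit 5) .nil .nil))) 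
(.lf (nat_lit 24185) (.g (nat_lit 3246) (.e (nat_lit 1189) (nat_lit 88) (.e (nat_lit 65604) (nat_lit 9) (.e (nat_lit 335997) (nat_lit 1) (.e (nat_lit 57871) (nat_lit 264) (.e (nat_lit 1189) (nat_lit 88) (.e (nat_lit 65619) (nat_lit 10) (.e (nat_lit 344097) (nat_lit 18) (.e (nat_lit 5905) (nat_lit 320) .nil)))))))) (.g (nat_lit 0) .nil .nil)))))) (.nd (nat_lit 3) (.nd (nat_lit 4) (.nd (nat_lit 5) 
(.lf (nat_lit 24133) (.g (nat_lit 2723) (.e (nat_lit 1188) (nat_lit 88) (.e (nat_lit 65630) (nat_lit 14) (.e (nat_lit 401459) (nat_lit 13) (.e (nat_lit 483411) (nat_lit 27) (.e (nat_lit 401414) (nat_lit 0) (.e (nat_lit 2422) (nat_lit 157) (.e (nat_lit 4598) (nat_lit 269) .nil))))))) (.g (nat_lit 4) .nil .nil))) 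
(.lf (nat_lit 24165) (.g (nat_lit 2859) (.e (nat_lit 1189) (nat_lit 88) (.e (nat_lit 65571) (nat_lit 3) (.e (nat_lit 98373) (nat_lit 29) (.e (nat_lit 450588) (nat_lit 10) (.e (nat_lit 573475) (nat_lit 12) .nil))))) .nil))) (.nd (nat_lit 5) 
(.lf (nat_lit 24149) (.g (nat_lit 1953) (.e (nat_lit 1189) (nat_lit 88) (.e (nat_lit 65569) (nat_lit 3) (.e (nat_lit 98372) (nat_lit 29) (.e (nat_lit 450579) (nat_lit 5) (.e (nat_lit 532499) (nat_lit 1) .nil))))) .nil)) 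
(.lf (nat_lit 24181) (.g (nat_lit 3061) (.e (nat_lit 1189) (nat_lit 88) (.e (nat_lit 65604) (nat_lit 9) (.e (nat_lit 335997) (nat_lit 1) (.e (nat_lit 57870) (nat_lit 264) (.e (nat_lit 1220) (nat_lit 90) (.e (nat_lit 81950) (nat_lit 21) (.e (nat_lit 57871) (nat_lit 264) .nil))))))) (.g (nat_lit 0) .nil .nil))))) (.nd (nat_lit 4) (.nd (nat_lit 5) 
(.lf (nat_lit 24141) (.g (nat_lit 3128) (.e (nat_lit 1188) (nat_lit 88) (.e (nat_lit 65630) (nat_lit 14) (.e (nat_lit 401459) (nat_lit 13) (.e (nat_lit 483411) (nat_lit 27) (.e (nat_lit 401462) (nat_lit 15) .nil))))) .nil)) 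
(.lf (nat_lit 24173) (.g (nat_lit 1203) (.e (nat_lit 1189) (nat_lit 88) (.e (nat_lit 65604) (nat_lit 9) (.e (nat_lit 335907) (nat_lit 0) (.e (nat_lit 1996) (nat_lit 137) (.e (nat_lit 663569) (nat_lit 6) (.e (nat_lit 81950) (nat_lit 21) (.e (nat_lit 57870) (nat_lit 264) .nil))))))) (.g (nat_lit 4) .nil .nil)))) (.nd (nat_lit 5) 
(.lf (nat_lit 24157) (.g (nat_lit 3099) (.e (nat_lit 1189) (nat_lit 88) (.e (nat_lit 65570) (nat_lit 3) (.e (nat_lit 98373) (nat_lit 29) (.e (nat_lit 450588) (nat_lit 10) (.e (nat_lit 573475) (nat_lit 12) (.e (nat_lit 57344) (nat_lit 0) (.e (nat_lit 7236) (nat_lit 382) .nil))))))) (.g (nat_lit 4) .nil .nil))) 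
(.lf (nat_lit 24189) (.g (nat_lit 3117) (.e (nat_lit 1189) (nat_lit 88) (.e (nat_lit 65604) (nat_lit 9) (.e (nat_lit 335997) (nat_lit 1) (.e (nat_lit 57871) (nat_lit 264) (.e (nat_lit 1200) (nat_lit 88) (.e (nat_lit 65604) (nat_lit 9) (.e (nat_lit 335997) (nat_lit 1) (.e (nat_lit 57870) (nat_lit 264) .nil)))))))) (.g (nat_lit 8) .nil .nil))))))) 
(.nd (nat_lit 2) (.nd (nat_lit 3) (.nd (nat_lit 4) (.nd (nat_lit 5) 
(.lf (nat_lit 24131) (.g (nat_lit 2541) (.e (nat_lit 1188) (nat_lit 88) (.e (nat_lit 65630) (nat_lit 14) (.e (nat_lit 401459) (nat_lit 13) (.e (nat_lit 483411) (nat_lit 27) (.e (nat_lit 401408) (nat_lit 0) .nil))))) .nil)) 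
(.lf (nat_lit 24163) (.g (nat_lit 3103) (.e (nat_lit 1189) (nat_lit 88) (.e (nat_lit 65571) (nat_lit 3) (.e (nat_lit 98372) (nat_lit 29) (.e (nat_lit 450579) (nat_lit 5) (.e (nat_lit 532504) (nat_lit 1) (.e (nat_lit 65280) (nat_lit 221) .nil)))))) (.g (nat_lit 5) .nil .nil)))) (.nd (nat_lit 5) 
(.lf (nat_lit 24147) (.g (nat_lit 3817) (.e (nat_lit 1188) (nat_lit 88) (.e (nat_lit 65655) (nat_lit 35) (.e (nat_lit 491560) (nat_lit 10) (.e (nat_lit 344117) (nat_lit 21) (.e (nat_lit 516195) (nat_lit 26) (.e (nat_lit 335995) (nat_lit 1) (.e (nat_lit 57872) (nat_lit 264) .nil))))))) (.g (nat_lit 6) .nil .nil))) 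
(.lf (nat_lit 24179) (.g (nat_lit 3578) (.e (nat_lit 1189) (nat_lit 88) (.e (nat_lit 65604) (nat_lit 9) (.e (nat_lit 335997) (nat_lit 1) (.e (nat_lit 57870) (nat_lit 264) (.e (nat_lit 1200) (nat_lit 88) (.e (nat_lit 65619) (nat_lit 10) (.e (nat_lit 344097) (nat_lit 18) (.e (nat_lit 5905) (nat_lit 320) .nil)))))))) (.g (nat_lit 0) .nil .nil))))) (.nd (nat_lit 4) (.nd (nat_lit 5) 
(.lf (nat_lit 24139) (.g (nat_lit 2474) (.e (nat_lit 1188) (nat_lit 88) (.e (nat_lit 65630) (nat_lit 14) (.e (nat_lit 401459) (nat_lit 13) (.e (nat_lit 483411) (nat_lit 27) (.e (nat_lit 401420) (nat_lit 1) .nil))))) .nil)) 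
(.lf (nat_lit 24171) (.g (nat_lit 2216) (.e (nat_lit 1189) (nat_lit 88) (.e (nat_lit 65604) (nat_lit 9) (.e (nat_lit 335907) (nat_lit 0) (.e (nat_lit 1996) (nat_lit 137) (.e (nat_lit 663567) (nat_lit 4) (.e (nat_lit 65604) (nat_lit 9) (.e (nat_lit 335997) (nat_lit 1) (.e (nat_lit 57870) (nat_lit 264) .nil)))))))) (.g (nat_lit 6) .nil .nil)))) (.nd (nat_lit 5) 
(.lf (nat_lit 24155) (.g (nat_lit 4100) (.e (nat_lit 1189) (nat_lit 88) (.e (nat_lit 65570) (nat_lit 3) (.e (nat_lit 98373) (nat_lit 29) (.e (nat_lit 450588) (nat_lit 10) (.e (nat_lit 573473) (nat_lit 12) (.e (nat_lit 57348) (nat_lit 0) (.e (nat_lit 7236) (nat_lit 382) .nil))))))) (.g (nat_lit 6) .nil .nil))) 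
(.lf (nat_lit 24187) (.g (nat_lit 2895) (.e (nat_lit 1189) (nat_lit 88) (.e (nat_lit 65604) (nat_lit 9) (.e (nat_lit 335997) (nat_lit 1) (.e (nat_lit 57871) (nat_lit 264) (.e (nat_lit 1190) (nat_lit 88) (.e (nat_lit 65604) (nat_lit 9) (.e (nat_lit 335997) (nat_lit 1) (.e (nat_lit 57871) (nat_lit 264) .nil)))))))) (.g (nat_lit 7) .nil .nil)))))) (.nd (nat_lit 3) (.nd (nat_lit 4) (.nd (nat_lit 5) 
(.lf (nat_lit 24135) (.g (nat_lit 2829) (.e (nat_lit 1188) (nat_lit 88) (.e (nat_lit 65630) (nat_lit 14) (.e (nat_lit 401459) (nat_lit 13) (.e (nat_lit 483411) (nat_lit 27) (.e (nat_lit 401414) (nat_lit 0) (.e (nat_lit 2438) (nat_lit 157) (.e (nat_lit 4604) (nat_lit 269) .nil))))))) (.g (nat_lit 4) .nil .nil))) 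
(.lf (nat_lit 24167) (.g (nat_lit 2087) (.e (nat_lit 1189) (nat_lit 88) (.e (nat_lit 65581) (nat_lit 7) (.e (nat_lit 319530) (nat_lit 16) (.e (nat_lit 286759) (nat_lit 12) (.e (nat_lit 385106) (nat_lit 50) .nil))))) .nil))) (.nd (nat_lit 5) 
(.lf (nat_lit 24151) (.g (nat_lit 2278) (.e (nat_lit 1189) (nat_lit 88) (.e (nat_lit 65570) (nat_lit 3) (.e (nat_lit 98372) (nat_lit 29) (.e (nat_lit 450579) (nat_lit 5) (.e (nat_lit 532499) (nat_lit 1) (.e (nat_lit 65280) (nat_lit 221) .nil)))))) (.g (nat_lit 5) .nil .nil))) 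
(.lf (nat_lit 24183) (.g (nat_lit 889) (.e (nat_lit 1189) (nat_lit 88) (.e (nat_lit 65604) (nat_lit 9) (.e (nat_lit 335997) (nat_lit 1) (.e (nat_lit 57871) (nat_lit 264) .nil)))) .nil)))) (.nd (nat_lit 4) (.nd (nat_lit 5) 
(.lf (nat_lit 24143) (.g (nat_lit 3005) (.e (nat_lit 1188) (nat_lit 88) (.e (nat_lit 65630) (nat_lit 14) (.e (nat_lit 401459) (nat_lit 13) (.e (nat_lit 483411) (nat_lit 27) (.e (nat_lit 401466) (nat_lit 15) .nil))))) .nil)) 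
(.lf (nat_lit 24175) (.g (nat_lit 2812) (.e (nat_lit 1189) (nat_lit 88) (.e (nat_lit 65604) (nat_lit 9) (.e (nat_lit 335997) (nat_lit 1) (.e (nat_lit 57870) (nat_lit 264) (.e (nat_lit 1189) (nat_lit 88) (.e (nat_lit 65604) (nat_lit 9) (.e (nat_lit 335997) (nat_lit 1) (.e (nat_lit 57871) (nat_lit 264) .nil)))))))) (.g (nat_lit 0) .nil .nil)))) (.nd (nat_lit 5) 
(.lf (nat_lit 24159) (.g (nat_lit 1579) (.e (nat_lit 1189) (nat_lit 88) (.e (nat_lit 65571) (nat_lit 3) (.e (nat_lit 98370) (nat_lit 28) (.e (nat_lit 450304) (nat_lit 3) .nil)))) .nil)) 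
(.lf (nat_lit 24191) (.g (nat_lit 3650) (.e (nat_lit 1189) (nat_lit 88) (.e (nat_lit 65604) (nat_lit 9) (.e (nat_lit 335997) (nat_lit 1) (.e (nat_lit 57871) (nat_lit 264) (.e (nat_lit 1200) (nat_lit 88) (.e (nat_lit 65619) (nat_lit 10) (.e (nat_lit 344097) (nat_lit 18) (.e (nat_lit 5905) (nat_lit 320) .nil)))))))) (.g (nat_lit 0) .nil .nil)))))))))

noncomputable def tv341 : DT := (.nd (nat_lit 0) (.nd (nat_lit 1) (.nd (nat_lit 2) (.nd (nat_lit 3) (.nd (nat_lit 4) (.nd (nat_lit 5) 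
(.lf (nat_lit 24192) (.g (nat_lit 2253) (.e (nat_lit 1189) (nat_lit 88) (.e (nat_lit 65604) (nat_lit 9) (.e (nat_lit 335997) (nat_lit 1) (.e (nat_lit 57871) (nat_lit 264) (.e (nat_lit 1219) (nat_lit 90) (.e (nat_lit 81948) (nat_lit 21) (.e (nat_lit 57871) (nat_lit 264) .nil))))))) (.g (nat_lit 0) .nil .nil))) 
(.lf (nat_lit 24224) (.g (nat_lit 3633) (.e (nat_lit 1189) (nat_lit 88) (.e (nat_lit 65619) (nat_lit 10) (.e (nat_lit 344097) (nat_lit 18) (.e (nat_lit 5905) (nat_lit 320) (.e (nat_lit 1221) (nat_lit 90) (.e (nat_lit 81950) (nat_lit 21) (.e (nat_lit 57871) (nat_lit 264) .nil))))))) (.g (nat_lit 0) .nil .nil)))) (.nd (nat_lit 5) 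
(.lf (nat_lit 24208) (.g (nat_lit 3224) (.e (nat_lit 1189) (nat_lit 88) (.e (nat_lit 65610) (nat_lit 10) (.e (nat_lit 344117) (nat_lit 21) (.e (nat_lit 516099) (nat_lit 0) .nil)))) .nil)) 
(.lf (nat_lit 24240) (.g (nat_lit 1568) (.e (nat_lit 1189) (nat_lit 88) (.e (nat_lit 65619) (nat_lit 10) (.e (nat_lit 344097) (nat_lit 18) (.e (nat_lit 5906) (nat_lit 320) (.e (nat_lit 7936) (nat_lit 90) .nil))))) .nil)))) (.nd (nat_lit 4) (.nd (nat_lit 5) 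
(.lf (nat_lit 24200) (.g (nat_lit 2675) (.e (nat_lit 1189) (nat_lit 88) (.e (nat_lit 65604) (nat_lit 9) (.e (nat_lit 335997) (nat_lit 1) (.e (nat_lit 57872) (nat_lit 264) (.e (nat_lit 1219) (nat_lit 90) (.e (nat_lit 81948) (nat_lit 21) (.e (nat_lit 57871) (nat_lit 264) .nil))))))) (.g (nat_lit 0) .nil .nil))) 
(.lf (nat_lit 24232) (.g (nat_lit 2734) (.e (nat_lit 1189) (nat_lit 88) (.e (nat_lit 65619) (nat_lit 10) (.e (nat_lit 344097) (nat_lit 18) (.e (nat_lit 5906) (nat_lit 320) (.e (nat_lit 1219) (nat_lit 90) (.e (nat_lit 81948) (nat_lit 21) (.e (nat_lit 57871) (nat_lit 264) .nil))))))) (.g (nat_lit 0) .nil .nil)))) (.nd (nat_lit 5) 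
(.lf (nat_lit 24216) (.g (nat_lit 3766) (.e (nat_lit 1189) (nat_lit 88) (.e (nat_lit 65619) (nat_lit 10) (.e (nat_lit 344097) (nat_lit 18) (.e (nat_lit 5905) (nat_lit 320) (.e (nat_lit 1190) (nat_lit 88) (.e (nat_lit 65604) (nat_lit 9) (.e (nat_lit 335997) (nat_lit 1) (.e (nat_lit 57871) (nat_lit 264) .nil)))))))) (.g (nat_lit 7) .nil .nil))) 
(.lf (nat_lit 24248) (.g (nat_lit 4226) (.e (nat_lit 1189) (nat_lit 88) (.e (nat_lit 65619) (nat_lit 10) (.e (nat_lit 344097) (nat_lit 18) (.e (nat_lit 5907) (nat_lit 320) (.e (nat_lit 1199) (nat_lit 88) (.e (nat_lit 65610) (nat_lit 10) (.e (nat_lit 344097) (nat_lit 18) (.e (nat_lit 5905) (nat_lit 320) .nil)))))))) (.g (nat_lit 0) .nil .nil)))))) (.nd (nat_lit 3) (.nd (nat_lit 4) (.nd (nat_lit 5) 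
(.lf (nat_lit 24196) (.g (nat_lit 3835) (.e (nat_lit 1189) (nat_lit 88) (.e (nat_lit 65604) (nat_lit 9) (.e (nat_lit 335997) (nat_lit 1) (.e (nat_lit 57872) (nat_lit 264) (.e (nat_lit 1190) (nat_lit 88) (.e (nat_lit 65619) (nat_lit 10) (.e (nat_lit 344097) (nat_lit 18) (.e (nat_lit 5905) (nat_lit 320) .nil)))))))) (.g (nat_lit 0) .nil .nil))) 
(.lf (nat_lit 24228) (.g (nat_lit 4132) (.e (nat_lit 1189) (nat_lit 88) (.e (nat_lit 65619) (nat_lit 10) (.e (nat_lit 344097) (nat_lit 18) (.e (nat_lit 5906) (nat_lit 320) (.e (nat_lit 1190) (nat_lit 88) (.e (nat_lit 65619) (nat_lit 10) (.e (nat_lit 344097) (nat_lit 18) (.e (nat_lit 5905) (nat_lit 320) .nil)))))))) (.g (nat_lit 0) .nil .nil)))) (.nd (nat_lit 5) 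
(.lf (nat_lit 24212) (.g (nat_lit 1720) (.e (nat_lit 1189) (nat_lit 88) (.e (nat_lit 65619) (nat_lit 10) (.e (nat_lit 344090) (nat_lit 18) (.e (nat_lit 5896) (nat_lit 320) (.e (nat_lit 7936) (nat_lit 90) (.e (nat_lit 81950) (nat_lit 21) (.e (nat_lit 57870) (nat_lit 264) .nil))))))) (.g (nat_lit 4) .nil .nil))) 
(.lf (nat_lit 24244) (.g (nat_lit 2310) (.e (nat_lit 1189) (nat_lit 88) (.e (nat_lit 65619) (nat_lit 10) (.e (nat_lit 344097) (nat_lit 18) (.e (nat_lit 5907) (nat_lit 320) (.e (nat_lit 1189) (nat_lit 88) (.e (nat_lit 65604) (nat_lit 9) (.e (nat_lit 335997) (nat_lit 1) (.e (nat_lit 57870) (nat_lit 264) .nil)))))))) (.g (nat_lit 4) .nil .nil))))) (.nd (nat_lit 4) (.nd (nat_lit 5) 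
(.lf (nat_lit 24204) (.g (nat_lit 2847) (.e (nat_lit 1189) (nat_lit 88) (.e (nat_lit 65604) (nat_lit 9) (.e (nat_lit 335997) (nat_lit 1) (.e (nat_lit 57872) (nat_lit 264) (.e (nat_lit 1221) (nat_lit 90) (.e (nat_lit 81959) (nat_lit 24) (.e (nat_lit 123191) (nat_lit 264) .nil))))))) (.g (nat_lit 6) .nil .nil))) 
(.lf (nat_lit 24236) (.g (nat_lit 2845) (.e (nat_lit 1189) (nat_lit 88) (.e (nat_lit 65619) (nat_lit 10) (.e (nat_lit 344097) (nat_lit 18) (.e (nat_lit 5906) (nat_lit 320) (.e (nat_lit 1221) (nat_lit 90) (.e (nat_lit 81948) (nat_lit 21) (.e (nat_lit 57870) (nat_lit 264) .nil))))))) (.g (nat_lit 6) .nil .nil)))) (.nd (nat_lit 5) 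
(.lf (nat_lit 24220) (.g (nat_lit 2875) (.e (nat_lit 1189) (nat_lit 88) (.e (nat_lit 65619) (nat_lit 10) (.e (nat_lit 344097) (nat_lit 18) (.e (nat_lit 5905) (nat_lit 320) (.e (nat_lit 1219) (nat_lit 90) (.e (nat_lit 81948) (nat_lit 21) (.e (nat_lit 57871) (nat_lit 264) .nil))))))) (.g (nat_lit 0) .nil .nil))) 
(.lf (nat_lit 24252) (.g (nat_lit 1881) (.e (nat_lit 1189) (nat_lit 88) (.e (nat_lit 65619) (nat_lit 10) (.e (nat_lit 344097) (nat_lit 18) (.e (nat_lit 5907) (nat_lit 320) (.e (nat_lit 1200) (nat_lit 88) (.e (nat_lit 65619) (nat_lit 10) (.e (nat_lit 344097) (nat_lit 18) (.e (nat_lit 5906) (nat_lit 320) .nil)))))))) (.g (nat_lit 4) .nil .nil))))))) 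
(.nd (nat_lit 2) (.nd (nat_lit 3) (.nd (nat_lit 4) (.nd (nat_lit 5) 
(.lf (nat_lit 24194) (.g (nat_lit 2867) (.e (nat_lit 1189) (nat_lit 88) (.e (nat_lit 65604) (nat_lit 9) (.e (nat_lit 335997) (nat_lit 1) (.e (nat_lit 57871) (nat_lit 264) (.e (nat_lit 1221) (nat_lit 90) (.e (nat_lit 81950) (nat_lit 21) (.e (nat_lit 57871) (nat_lit 264) .nil))))))) (.g (nat_lit 0) .nil .nil))) 
(.lf (nat_lit 24226) (.g (nat_lit 1552) (.e (nat_lit 1189) (nat_lit 88) (.e (nat_lit 65619) (nat_lit 10) (.e (nat_lit 344097) (nat_lit 18) (.e (nat_lit 5906) (nat_lit 320) (.e (nat_lit 1189) (nat_lit 88) .nil))))) .nil))) (.nd (nat_lit 5) 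
(.lf (nat_lit 24210) (.g (nat_lit 1642) (.e (nat_lit 1189) (nat_lit 88) (.e (nat_lit 65619) (nat_lit 10) (.e (nat_lit 344090) (nat_lit 18) (.e (nat_lit 5896) (nat_lit 320) (.e (nat_lit 1200) (nat_lit 88) .nil))))) .nil)) 
(.lf (nat_lit 24242) (.g (nat_lit 2165) (.e (nat_lit 1189) (nat_lit 88) (.e (nat_lit 65619) (nat_lit 10) (.e (nat_lit 344097) (nat_lit 18) (.e (nat_lit 5907) (nat_lit 320) (.e (nat_lit 989) (nat_lit 81) .nil))))) .nil)))) (.nd (nat_lit 4) (.nd (nat_lit 5) 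
(.lf (nat_lit 24202) (.g (nat_lit 2777) (.e (nat_lit 1189) (nat_lit 88) (.e (nat_lit 65604) (nat_lit 9) (.e (nat_lit 335997) (nat_lit 1) (.e (nat_lit 57872) (nat_lit 264) (.e (nat_lit 1221) (nat_lit 90) (.e (nat_lit 81948) (nat_lit 21) (.e (nat_lit 57870) (nat_lit 264) .nil))))))) (.g (nat_lit 6) .nil .nil))) 
(.lf (nat_lit 24234) (.g (nat_lit 2176) (.e (nat_lit 1189) (nat_lit 88) (.e (nat_lit 65619) (nat_lit 10) (.e (nat_lit 344097) (nat_lit 18) (.e (nat_lit 5906) (nat_lit 320) (.e (nat_lit 1219) (nat_lit 90) (.e (nat_lit 81950) (nat_lit 21) (.e (nat_lit 57870) (nat_lit 264) .nil))))))) (.g (nat_lit 5) .nil .nil)))) (.nd (nat_lit 5) 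
(.lf (nat_lit 24218) (.g (nat_lit 3523) (.e (nat_lit 1189) (nat_lit 88) (.e (nat_lit 65619) (nat_lit 10) (.e (nat_lit 344097) (nat_lit 18) (.e (nat_lit 5905) (nat_lit 320) (.e (nat_lit 1190) (nat_lit 88) (.e (nat_lit 65619) (nat_lit 10) (.e (nat_lit 344097) (nat_lit 18) (.e (nat_lit 5907) (nat_lit 320) .nil)))))))) (.g (nat_lit 6) .nil .nil))) 
(.lf (nat_lit 24250) (.g (nat_lit 3709) (.e (nat_lit 1189) (nat_lit 88) (.e (nat_lit 65619) (nat_lit 10) (.e (nat_lit 344097) (nat_lit 18) (.e (nat_lit 5907) (nat_lit 320) (.e (nat_lit 1200) (nat_lit 88) (.e (nat_lit 65604) (nat_lit 9) (.e (nat_lit 335997) (nat_lit 1) (.e (nat_lit 57871) (nat_lit 264) .nil)))))))) (.g (nat_lit 0) .nil .nil)))))) (.nd (nat_lit 3) (.nd (nat_lit 4) (.nd (nat_lit 5) 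
(.lf (nat_lit 24198) (.g (nat_lit 3142) (.e (nat_lit 1189) (nat_lit 88) (.e (nat_lit 65604) (nat_lit 9) (.e (nat_lit 335997) (nat_lit 1) (.e (nat_lit 57872) (nat_lit 264) (.e (nat_lit 1200) (nat_lit 88) (.e (nat_lit 65604) (nat_lit 9) (.e (nat_lit 335997) (nat_lit 1) (.e (nat_lit 57871) (nat_lit 264) .nil)))))))) (.g (nat_lit 0) .nil .nil))) 
(.lf (nat_lit 24230) (.g (nat_lit 3472) (.e (nat_lit 1189) (nat_lit 88) (.e (nat_lit 65619) (nat_lit 10) (.e (nat_lit 344097) (nat_lit 18) (.e (nat_lit 5906) (nat_lit 320) (.e (nat_lit 1200) (nat_lit 88) (.e (nat_lit 65604) (nat_lit 9) (.e (nat_lit 335997) (nat_lit 1) (.e (nat_lit 57871) (nat_lit 264) .nil)))))))) (.g (nat_lit 0) .nil .nil)))) (.nd (nat_lit 5) 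
(.lf (nat_lit 24214) (.g (nat_lit 3840) (.e (nat_lit 1189) (nat_lit 88) (.e (nat_lit 65619) (nat_lit 10) (.e (nat_lit 344097) (nat_lit 18) (.e (nat_lit 5905) (nat_lit 320) (.e (nat_lit 1189) (nat_lit 88) (.e (nat_lit 65619) (nat_lit 10) (.e (nat_lit 344097) (nat_lit 18) (.e (nat_lit 5905) (nat_lit 320) .nil)))))))) (.g (nat_lit 0) .nil .nil))) 
(.lf (nat_lit 24246) (.g (nat_lit 4458) (.e (nat_lit 1189) (nat_lit 88) (.e (nat_lit 65619) (nat_lit 10) (.e (nat_lit 344097) (nat_lit 18) (.e (nat_lit 5907) (nat_lit 320) (.e (nat_lit 1190) (nat_lit 88) (.e (nat_lit 65619) (nat_lit 10) (.e (nat_lit 344097) (nat_lit 18) (.e (nat_lit 5905) (nat_lit 320) .nil)))))))) (.g (nat_lit 0) .nil .nil))))) (.nd (nat_lit 4) (.nd (nat_lit 5) 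
(.lf (nat_lit 24206) (.g (nat_lit 430) (.e (nat_lit 1189) (nat_lit 88) (.e (nat_lit 65610) (nat_lit 10) (.e (nat_lit 344097) (nat_lit 18) .nil))) .nil)) 
(.lf (nat_lit 24238) (.g (nat_lit 3185) (.e (nat_lit 1189) (nat_lit 88) (.e (nat_lit 65619) (nat_lit 10) (.e (nat_lit 344097) (nat_lit 18) (.e (nat_lit 5906) (nat_lit 320) (.e (nat_lit 1221) (nat_lit 90) (.e (nat_lit 81950) (nat_lit 21) (.e (nat_lit 57871) (nat_lit 264) .nil))))))) (.g (nat_lit 0) .nil .nil)))) (.nd (nat_lit 5) 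
(.lf (nat_lit 24222) (.g (nat_lit 2424) (.e (nat_lit 1189) (nat_lit 88) (.e (nat_lit 65619) (nat_lit 10) (.e (nat_lit 344097) (nat_lit 18) (.e (nat_lit 5905) (nat_lit 320) (.e (nat_lit 1219) (nat_lit 90) (.e (nat_lit 81950) (nat_lit 21) (.e (nat_lit 57870) (nat_lit 264) .nil))))))) (.g (nat_lit 5) .nil .nil))) 
(.lf (nat_lit 24254) (.g (nat_lit 2540) (.e (nat_lit 1189) (nat_lit 88) (.e (nat_lit 65619) (nat_lit 10) (.e (nat_lit 344097) (nat_lit 18) (.e (nat_lit 5907) (nat_lit 320) (.e (nat_lit 1219) (nat_lit 90) (.e (nat_lit 81948) (nat_lit 21) (.e (nat_lit 57873) (nat_lit 264) .nil))))))) (.g (nat_lit 5) .nil .nil)))))))) 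
(.nd (nat_lit 1) (.nd (nat_lit 2) (.nd (nat_lit 3) (.nd (nat_lit 4) (.nd (nat_lit 5) 
(.lf (nat_lit 24193) (.g (nat_lit 3043) (.e (nat_lit 1189) (nat_lit 88) (.e (nat_lit 65604) (nat_lit 9) (.e (nat_lit 335997) (nat_lit 1) (.e (nat_lit 57871) (nat_lit 264) (.e (nat_lit 1220) (nat_lit 90) (.e (nat_lit 81950) (nat_lit 21) (.e (nat_lit 57871) (nat_lit 264) .nil))))))) (.g (nat_lit 0) .nil .nil))) 
(.lf (nat_lit 24225) (.g (nat_lit 1087) (.e (nat_lit 1189) (nat_lit 88) (.e (nat_lit 65619) (nat_lit 10) (.e (nat_lit 344097) (nat_lit 18) (.e (nat_lit 5906) (nat_lit 320) .nil)))) .nil))) (.nd (nat_lit 5) 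
(.lf (nat_lit 24209) (.g (nat_lit 1646) (.e (nat_lit 1189) (nat_lit 88) (.e (nat_lit 65619) (nat_lit 10) (.e (nat_lit 344090) (nat_lit 18) (.e (nat_lit 5896) (nat_lit 320) (.e (nat_lit 1190) (nat_lit 88) .nil))))) .nil)) 
(.lf (nat_lit 24241) (.g (nat_lit 1182) (.e (nat_lit 1189) (nat_lit 88) (.e (nat_lit 65619) (nat_lit 10) (.e (nat_lit 344097) (nat_lit 18) (.e (nat_lit 5907) (nat_lit 320) .nil)))) .nil)))) (.nd (nat_lit 4) (.nd (nat_lit 5) 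
(.lf (nat_lit 24201) (.g (nat_lit 2206) (.e (nat_lit 1189) (nat_lit 88) (.e (nat_lit 65604) (nat_lit 9) (.e (nat_lit 335997) (nat_lit 1) (.e (nat_lit 57872) (nat_lit 264) (.e (nat_lit 1219) (nat_lit 90) (.e (nat_lit 81950) (nat_lit 21) (.e (nat_lit 57870) (nat_lit 264) .nil))))))) (.g (nat_lit 5) .nil .nil))) 
(.lf (nat_lit 24233) (.g (nat_lit 2038) (.e (nat_lit 1189) (nat_lit 88) (.e (nat_lit 65619) (nat_lit 10) (.e (nat_lit 344097) (nat_lit 18) (.e (nat_lit 5906) (nat_lit 320) (.e (nat_lit 1219) (nat_lit 90) (.e (nat_lit 81948) (nat_lit 21) (.e (nat_lit 57873) (nat_lit 264) .nil))))))) (.g (nat_lit 5) .nil .nil)))) (.nd (nat_lit 5) 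
(.lf (nat_lit 24217) (.g (nat_lit 4582) (.e (nat_lit 1189) (nat_lit 88) (.e (nat_lit 65619) (nat_lit 10) (.e (nat_lit 344097) (nat_lit 18) (.e (nat_lit 5905) (nat_lit 320) (.e (nat_lit 1190) (nat_lit 88) (.e (nat_lit 65619) (nat_lit 10) (.e (nat_lit 344097) (nat_lit 18) (.e (nat_lit 5905) (nat_lit 320) .nil)))))))) (.g (nat_lit 8) .nil .nil))) 
(.lf (nat_lit 24249) (.g (nat_lit 1870) (.e (nat_lit 1189) (nat_lit 88) (.e (nat_lit 65619) (nat_lit 10) (.e (nat_lit 344097) (nat_lit 18) (.e (nat_lit 5907) (nat_lit 320) (.e (nat_lit 1199) (nat_lit 88) (.e (nat_lit 65610) (nat_lit 10) (.e (nat_lit 344097) (nat_lit 18) (.e (nat_lit 5906) (nat_lit 320) .nil)))))))) (.g (nat_lit 4) .nil .nil)))))) (.nd (nat_lit 3) (.nd (nat_lit 4) (.nd (nat_lit 5) 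
(.lf (nat_lit 24197) (.g (nat_lit 3550) (.e (nat_lit 1189) (nat_lit 88) (.e (nat_lit 65604) (nat_lit 9) (.e (nat_lit 335997) (nat_lit 1) (.e (nat_lit 57872) (nat_lit 264) (.e (nat_lit 1199) (nat_lit 88) (.e (nat_lit 65610) (nat_lit 10) (.e (nat_lit 344097) (nat_lit 18) (.e (nat_lit 5905) (nat_lit 320) .nil)))))))) (.g (nat_lit 0) .nil .nil))) 
(.lf (nat_lit 24229) (.g (nat_lit 3902) (.e (nat_lit 1189) (nat_lit 88) (.e (nat_lit 65619) (nat_lit 10) (.e (nat_lit 344097) (nat_lit 18) (.e (nat_lit 5906) (nat_lit 320) (.e (nat_lit 1199) (nat_lit 88) (.e (nat_lit 65610) (nat_lit 10) (.e (nat_lit 344097) (nat_lit 18) (.e (nat_lit 5905) (nat_lit 320) .nil)))))))) (.g (nat_lit 0) .nil .nil)))) (.nd (nat_lit 5) 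
(.lf (nat_lit 24213) (.g (nat_lit 1129) (.e (nat_lit 1189) (nat_lit 88) (.e (nat_lit 65619) (nat_lit 10) (.e (nat_lit 344097) (nat_lit 18) (.e (nat_lit 5905) (nat_lit 320) .nil)))) .nil)) 
(.lf (nat_lit 24245) (.g (nat_lit 3927) (.e (nat_lit 1189) (nat_lit 88) (.e (nat_lit 65619) (nat_lit 10) (.e (nat_lit 344097) (nat_lit 18) (.e (nat_lit 5907) (nat_lit 320) (.e (nat_lit 1190) (nat_lit 88) (.e (nat_lit 65604) (nat_lit 9) (.e (nat_lit 335997) (nat_lit 1) (.e (nat_lit 57871) (nat_lit 264) .nil)))))))) (.g (nat_lit 0) .nil .nil))))) (.nd (nat_lit 4) (.nd (nat_lit 5) 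
(.lf (nat_lit 24205) (.g (nat_lit 1476) (.e (nat_lit 1189) (nat_lit 88) (.e (nat_lit 65604) (nat_lit 9) (.e (nat_lit 336013) (nat_lit 2) (.e (nat_lit 90165) (nat_lit 12) .nil)))) .nil)) 
(.lf (nat_lit 24237) (.g (nat_lit 2640) (.e (nat_lit 1189) (nat_lit 88) (.e (nat_lit 65619) (nat_lit 10) (.e (nat_lit 344097) (nat_lit 18) (.e (nat_lit 5906) (nat_lit 320) (.e (nat_lit 1221) (nat_lit 90) (.e (nat_lit 81948) (nat_lit 21) (.e (nat_lit 57871) (nat_lit 264) .nil))))))) (.g (nat_lit 6) .nil .nil)))) (.nd (nat_lit 5) 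
(.lf (nat_lit 24221) (.g (nat_lit 2178) (.e (nat_lit 1189) (nat_lit 88) (.e (nat_lit 65619) (nat_lit 10) (.e (nat_lit 344097) (nat_lit 18) (.e (nat_lit 5905) (nat_lit 320) (.e (nat_lit 1219) (nat_lit 90) (.e (nat_lit 81948) (nat_lit 21) (.e (nat_lit 57873) (nat_lit 264) .nil))))))) (.g (nat_lit 5) .nil .nil))) 
(.lf (nat_lit 24253) (.g (nat_lit 3231) (.e (nat_lit 1189) (nat_lit 88) (.e (nat_lit 65619) (nat_lit 10) (.e (nat_lit 344097) (nat_lit 18) (.e (nat_lit 5907) (nat_lit 320) (.e (nat_lit 1219) (nat_lit 90) (.e (nat_lit 81948) (nat_lit 21) (.e (nat_lit 57871) (nat_lit 264) .nil))))))) (.g (nat_lit 0) .nil .nil))))))) (.nd (nat_lit 2) (.nd (nat_lit 3) (.nd (nat_lit 4) (.nd (nat_lit 5) 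
(.lf (nat_lit 24195) (.g (nat_lit 3195) (.e (nat_lit 1189) (nat_lit 88) (.e (nat_lit 65604) (nat_lit 9) (.e (nat_lit 335997) (nat_lit 1) (.e (nat_lit 57872) (nat_lit 264) (.e (nat_lit 1190) (nat_lit 88) (.e (nat_lit 65604) (nat_lit 9) (.e (nat_lit 335997) (nat_lit 1) (.e (nat_lit 57871) (nat_lit 264) .nil)))))))) (.g (nat_lit 0) .nil .nil))) 
(.lf (nat_lit 24227) (.g (nat_lit 3475) (.e (nat_lit 1189) (nat_lit 88) (.e (nat_lit 65619) (nat_lit 10) (.e (nat_lit 344097) (nat_lit 18) (.e (nat_lit 5906) (nat_lit 320) (.e (nat_lit 1190) (nat_lit 88) (.e (nat_lit 65604) (nat_lit 9) (.e (nat_lit 335997) (nat_lit 1) (.e (nat_lit 57871) (nat_lit 264) .nil)))))))) (.g (nat_lit 0) .nil .nil)))) (.nd (nat_lit 5) 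
(.lf (nat_lit 24211) (.g (nat_lit 1633) (.e (nat_lit 1189) (nat_lit 88) (.e (nat_lit 65619) (nat_lit 10) (.e (nat_lit 344090) (nat_lit 18) (.e (nat_lit 5896) (nat_lit 320) (.e (nat_lit 7936) (nat_lit 90) .nil))))) .nil)) 
(.lf (nat_lit 24243) (.g (nat_lit 2165) (.e (nat_lit 1189) (nat_lit 88) (.e (nat_lit 65619) (nat_lit 10) (.e (nat_lit 344097) (nat_lit 18) (.e (nat_lit 5907) (nat_lit 320) (.e (nat_lit 1189) (nat_lit 88) .nil))))) .nil)))) (.nd (nat_lit 4) (.nd (nat_lit 5) 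
(.lf (nat_lit 24203) (.g (nat_lit 3023) (.e (nat_lit 1189) (nat_lit 88) (.e (nat_lit 65604) (nat_lit 9) (.e (nat_lit 335997) (nat_lit 1) (.e (nat_lit 57872) (nat_lit 264) (.e (nat_lit 1221) (nat_lit 90) (.e (nat_lit 81950) (nat_lit 21) (.e (nat_lit 57871) (nat_lit 264) .nil))))))) (.g (nat_lit 0) .nil .nil))) 
(.lf (nat_lit 24235) (.g (nat_lit 3338) (.e (nat_lit 1189) (nat_lit 88) (.e (nat_lit 65619) (nat_lit 10) (.e (nat_lit 344097) (nat_lit 18) (.e (nat_lit 5906) (nat_lit 320) (.e (nat_lit 1220) (nat_lit 90) (.e (nat_lit 81950) (nat_lit 21) (.e (nat_lit 57870) (nat_lit 264) .nil))))))) (.g (nat_lit 6) .nil .nil)))) (.nd (nat_lit 5) 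
(.lf (nat_lit 24219) (.g (nat_lit 3972) (.e (nat_lit 1189) (nat_lit 88) (.e (nat_lit 65619) (nat_lit 10) (.e (nat_lit 344097) (nat_lit 18) (.e (nat_lit 5905) (nat_lit 320) (.e (nat_lit 1200) (nat_lit 88) (.e (nat_lit 65619) (nat_lit 10) (.e (nat_lit 344097) (nat_lit 18) (.e (nat_lit 5905) (nat_lit 320) .nil)))))))) (.g (nat_lit 7) .nil .nil))) 
(.lf (nat_lit 24251) (.g (nat_lit 4225) (.e (nat_lit 1189) (nat_lit 88) (.e (nat_lit 65619) (nat_lit 10) (.e (nat_lit 344097) (nat_lit 18) (.e (nat_lit 5907) (nat_lit 320) (.e (nat_lit 1200) (nat_lit 88) (.e (nat_lit 65619) (nat_lit 10) (.e (nat_lit 344097) (nat_lit 18) (.e (nat_lit 5905) (nat_lit 320) .nil)))))))) (.g (nat_lit 0) .nil .nil)))))) (.nd (nat_lit 3) (.nd (nat_lit 4) (.nd (nat_lit 5) 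
(.lf (nat_lit 24199) (.g (nat_lit 3675) (.e (nat_lit 1189) (nat_lit 88) (.e (nat_lit 65604) (nat_lit 9) (.e (nat_lit 335997) (nat_lit 1) (.e (nat_lit 57872) (nat_lit 264) (.e (nat_lit 1200) (nat_lit 88) (.e (nat_lit 65619) (nat_lit 10) (.e (nat_lit 344097) (nat_lit 18) (.e (nat_lit 5905) (nat_lit 320) .nil)))))))) (.g (nat_lit 0) .nil .nil))) 
(.lf (nat_lit 24231) (.g (nat_lit 3980) (.e (nat_lit 1189) (nat_lit 88) (.e (nat_lit 65619) (nat_lit 10) (.e (nat_lit 344097) (nat_lit 18) (.e (nat_lit 5906) (nat_lit 320) (.e (nat_lit 1200) (nat_lit 88) (.e (nat_lit 65619) (nat_lit 10) (.e (nat_lit 344097) (nat_lit 18) (.e (nat_lit 5905) (nat_lit 320) .nil)))))))) (.g (nat_lit 0) .nil .nil)))) (.nd (nat_lit 5) 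
(.lf (nat_lit 24215) (.g (nat_lit 3924) (.e (nat_lit 1189) (nat_lit 88) (.e (nat_lit 65619) (nat_lit 10) (.e (nat_lit 344097) (nat_lit 18) (.e (nat_lit 5905) (nat_lit 320) (.e (nat_lit 1190) (nat_lit 88) (.e (nat_lit 65604) (nat_lit 9) (.e (nat_lit 335997) (nat_lit 1) (.e (nat_lit 57870) (nat_lit 264) .nil)))))))) (.g (nat_lit 8) .nil .nil))) 
(.lf (nat_lit 24247) (.g (nat_lit 2098) (.e (nat_lit 1189) (nat_lit 88) (.e (nat_lit 65619) (nat_lit 10) (.e (nat_lit 344097) (nat_lit 18) (.e (nat_lit 5907) (nat_lit 320) (.e (nat_lit 1190) (nat_lit 88) (.e (nat_lit 65619) (nat_lit 10) (.e (nat_lit 344097) (nat_lit 18) (.e (nat_lit 5906) (nat_lit 320) .nil)))))))) (.g (nat_lit 4) .nil .nil))))) (.nd (nat_lit 4) (.nd (nat_lit 5) 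
(.lf (nat_lit 24207) (.g (nat_lit 1325) (.e (nat_lit 1189) (nat_lit 88) (.e (nat_lit 65610) (nat_lit 10) (.e (nat_lit 344097) (nat_lit 18) (.e (nat_lit 5907) (nat_lit 320) .nil)))) .nil)) 
(.lf (nat_lit 24239) (.g (nat_lit 3005) (.e (nat_lit 1189) (nat_lit 88) (.e (nat_lit 65619) (nat_lit 10) (.e (nat_lit 344097) (nat_lit 18) (.e (nat_lit 5906) (nat_lit 320) (.e (nat_lit 1221) (nat_lit 90) (.e (nat_lit 81959) (nat_lit 24) (.e (nat_lit 123191) (nat_lit 264) .nil))))))) (.g (nat_lit 6) .nil .nil)))) (.nd (nat_lit 5) 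
(.lf (nat_lit 24223) (.g (nat_lit 3749) (.e (nat_lit 1189) (nat_lit 88) (.e (nat_lit 65619) (nat_lit 10) (.e (nat_lit 344097) (nat_lit 18) (.e (nat_lit 5905) (nat_lit 320) (.e (nat_lit 1220) (nat_lit 90) (.e (nat_lit 81950) (nat_lit 21) (.e (nat_lit 57871) (nat_lit 264) .nil))))))) (.g (nat_lit 0) .nil .nil))) 
(.lf (nat_lit 24255) (.g (nat_lit 2605) (.e (nat_lit 1189) (nat_lit 88) (.e (nat_lit 65619) (nat_lit 10) (.e (nat_lit 344097) (nat_lit 18) (.e (nat_lit 5907) (nat_lit 320) (.e (nat_lit 1219) (nat_lit 90) (.e (nat_lit 81950) (nat_lit 21) (.e (nat_lit 57871) (nat_lit 264) .nil))))))) (.g (nat_lit 5) .nil .nil)))))))))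

noncomputable def tv342 : DT := (.nd (nat_lit 0) (.nd (nat_lit 1) (.nd (nat_lit 2) (.nd (nat_lit 3) (.nd (nat_lit 4) (.nd (nat_lit 5) 
(.lf (nat_lit 24256) (.g (nat_lit 3536) (.e (nat_lit 1189) (nat_lit 88) (.e (nat_lit 65619) (nat_lit 10) (.e (nat_lit 344097) (nat_lit 18) (.e (nat_lit 5907) (nat_lit 320) (.e (nat_lit 1221) (nat_lit 90) (.e (nat_lit 81948) (nat_lit 21) (.e (nat_lit 57871) (nat_lit 264) .nil))))))) (.g (nat_lit 7) .nil .nil))) 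
(.lf (nat_lit 24288) (.g (nat_lit 2528) (.e (nat_lit 1189) (nat_lit 88) (.e (nat_lit 65619) (nat_lit 10) (.e (nat_lit 344117) (nat_lit 21) (.e (nat_lit 516134) (nat_lit 5) (.e (nat_lit 253975) (nat_lit 9) .nil))))) .nil))) (.nd (nat_lit 5) 
(.lf (nat_lit 24272) (.g (nat_lit 2827) (.e (nat_lit 1189) (nat_lit 88) (.e (nat_lit 65619) (nat_lit 10) (.e (nat_lit 344117) (nat_lit 21) (.e (nat_lit 516097) (nat_lit 0) (.e (nat_lit 3454) (nat_lit 216) (.e (nat_lit 688182) (nat_lit 17) (.e (nat_lit 73731) (nat_lit 0) (.e (nat_lit 7454) (nat_lit 396) .nil)))))))) (.g (nat_lit 6) .nil .nil))) 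
(.lf (nat_lit 24304) (.g (nat_lit 2922) (.e (nat_lit 1189) (nat_lit 88) (.e (nat_lit 65619) (nat_lit 10) (.e (nat_lit 344129) (nat_lit 26) (.e (nat_lit 557084) (nat_lit 10) (.e (nat_lit 8362) (nat_lit 89) .nil))))) .nil)))) (.nd (nat_lit 4) (.nd (nat_lit 5) 
(.lf (nat_lit 24264) (.g (nat_lit 2646) (.e (nat_lit 1189) (nat_lit 88) (.e (nat_lit 65619) (nat_lit 10) (.e (nat_lit 344117) (nat_lit 21) (.e (nat_lit 516097) (nat_lit 0) (.e (nat_lit 3453) (nat_lit 216) (.e (nat_lit 688181) (nat_lit 17) (.e (nat_lit 73731) (nat_lit 0) (.e (nat_lit 7454) (nat_lit 396) .nil)))))))) (.g (nat_lit 5) .nil .nil))) 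
(.lf (nat_lit 24296) (.g (nat_lit 2337) (.e (nat_lit 1189) (nat_lit 88) (.e (nat_lit 65619) (nat_lit 10) (.e (nat_lit 344117) (nat_lit 21) (.e (nat_lit 516195) (nat_lit 26) (.e (nat_lit 335995) (nat_lit 1) (.e (nat_lit 57847) (nat_lit 252) (.e (nat_lit 57363) (nat_lit 1) (.e (nat_lit 57754) (nat_lit 209) .nil)))))))) (.g (nat_lit 5) .nil .nil)))) (.nd (nat_lit 5) 
(.lf (nat_lit 24280) (.g (nat_lit 3082) (.e (nat_lit 1189) (nat_lit 88) (.e (nat_lit 65619) (nat_lit 10) (.e (nat_lit 344117) (nat_lit 21) (.e (nat_lit 516115) (nat_lit 1) (.e (nat_lit 164151) (nat_lit 152) .nil))))) .nil)) 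
(.lf (nat_lit 24312) (.g (nat_lit 1083) (.e (nat_lit 1189) (nat_lit 88) (.e (nat_lit 65619) (nat_lit 10) (.e (nat_lit 344168) (nat_lit 40) (.e (nat_lit 671746) (nat_lit 0) .nil)))) .nil))))) (.nd (nat_lit 3) (.nd (nat_lit 4) (.nd (nat_lit 5) 
(.lf (nat_lit 24260) (.g (nat_lit 1133) (.e (nat_lit 1189) (nat_lit 88) (.e (nat_lit 65619) (nat_lit 10) (.e (nat_lit 344117) (nat_lit 21) (.e (nat_lit 516097) (nat_lit 0) .nil)))) .nil)) 
(.lf (nat_lit 24292) (.g (nat_lit 2165) (.e (nat_lit 1189) (nat_lit 88) (.e (nat_lit 65619) (nat_lit 10) (.e (nat_lit 344117) (nat_lit 21) (.e (nat_lit 516195) (nat_lit 26) (.e (nat_lit 335986) (nat_lit 1) (.e (nat_lit 57847) (nat_lit 252) (.e (nat_lit 57363) (nat_lit 1) (.e (nat_lit 57755) (nat_lit 209) .nil)))))))) (.g (nat_lit 4) .nil .nil)))) (.nd (nat_lit 5) 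
(.lf (nat_lit 24276) (.g (nat_lit 1866) (.e (nat_lit 1189) (nat_lit 88) (.e (nat_lit 65619) (nat_lit 10) (.e (nat_lit 344117) (nat_lit 21) (.e (nat_lit 516098) (nat_lit 0) (.e (nat_lit 3555) (nat_lit 220) .nil))))) .nil)) 
(.lf (nat_lit 24308) (.g (nat_lit 1484) (.e (nat_lit 1189) (nat_lit 88) (.e (nat_lit 65619) (nat_lit 10) (.e (nat_lit 344160) (nat_lit 37) (.e (nat_lit 647195) (nat_lit 9) (.e (nat_lit 7936) (nat_lit 34) .nil))))) .nil)))) (.nd (nat_lit 4) (.nd (nat_lit 5) 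
(.lf (nat_lit 24268) (.g (nat_lit 2239) (.e (nat_lit 1189) (nat_lit 88) (.e (nat_lit 65619) (nat_lit 10) (.e (nat_lit 344117) (nat_lit 21) (.e (nat_lit 516097) (nat_lit 0) (.e (nat_lit 3454) (nat_lit 216) .nil))))) .nil)) 
(.lf (nat_lit 24300) (.g (nat_lit 1907) (.e (nat_lit 1189) (nat_lit 88) (.e (nat_lit 65619) (nat_lit 10) (.e (nat_lit 344117) (nat_lit 21) (.e (nat_lit 516195) (nat_lit 26) (.e (nat_lit 335996) (nat_lit 1) .nil))))) .nil))) (.nd (nat_lit 5) 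
(.lf (nat_lit 24284) (.g (nat_lit 3404) (.e (nat_lit 1189) (nat_lit 88) (.e (nat_lit 65619) (nat_lit 10) (.e (nat_lit 344117) (nat_lit 21) (.e (nat_lit 516115) (nat_lit 1) (.e (nat_lit 164163) (nat_lit 152) .nil))))) .nil)) 
(.lf (nat_lit 24316) (.g (nat_lit 1671) (.e (nat_lit 1189) (nat_lit 88) (.e (nat_lit 65619) (nat_lit 10) (.e (nat_lit 344168) (nat_lit 40) (.e (nat_lit 671747) (nat_lit 0) (.e (nat_lit 1595) (nat_lit 111) (.e (nat_lit 360453) (nat_lit 0) (.e (nat_lit 5905) (nat_lit 320) .nil))))))) (.g (nat_lit 4) .nil .nil))))))) (.nd (nat_lit 2) (.nd (nat_lit 3) (.nd (nat_lit 4) (.nd (nat_lit 5) 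
(.lf (nat_lit 24258) (.g (nat_lit 1968) (.e (nat_lit 1189) (nat_lit 88) (.e (nat_lit 65619) (nat_lit 10) (.e (nat_lit 344097) (nat_lit 18) (.e (nat_lit 5907) (nat_lit 320) (.e (nat_lit 7936) (nat_lit 90) .nil))))) .nil)) 
(.lf (nat_lit 24290) (.g (nat_lit 1799) (.e (nat_lit 1189) (nat_lit 88) (.e (nat_lit 65619) (nat_lit 10) (.e (nat_lit 344117) (nat_lit 21) (.e (nat_lit 516135) (nat_lit 5) (.e (nat_lit 253975) (nat_lit 9) (.e (nat_lit 1281) (nat_lit 94) (.e (nat_lit 114711) (nat_lit 21) (.e (nat_lit 57870) (nat_lit 264) .nil)))))))) (.g (nat_lit 4) .nil .nil)))) (.nd (nat_lit 5) 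
(.lf (nat_lit 24274) (.g (nat_lit 2259) (.e (nat_lit 1189) (nat_lit 88) (.e (nat_lit 65619) (nat_lit 10) (.e (nat_lit 344117) (nat_lit 21) (.e (nat_lit 516097) (nat_lit 0) (.e (nat_lit 3555) (nat_lit 220) .nil))))) .nil)) 
(.lf (nat_lit 24306) (.g (nat_lit 2931) (.e (nat_lit 1189) (nat_lit 88) (.e (nat_lit 65619) (nat_lit 10) (.e (nat_lit 344129) (nat_lit 26) (.e (nat_lit 557084) (nat_lit 10) (.e (nat_lit 8363) (nat_lit 89) (.e (nat_lit 720956) (nat_lit 25) (.e (nat_lit 114712) (nat_lit 21) (.e (nat_lit 57870) (nat_lit 264) .nil)))))))) (.g (nat_lit 4) .nil .nil))))) (.nd (nat_lit 4) (.nd (nat_lit 5) 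
(.lf (nat_lit 24266) (.g (nat_lit 2883) (.e (nat_lit 1189) (nat_lit 88) (.e (nat_lit 65619) (nat_lit 10) (.e (nat_lit 344117) (nat_lit 21) (.e (nat_lit 516097) (nat_lit 0) (.e (nat_lit 3453) (nat_lit 216) (.e (nat_lit 688182) (nat_lit 17) (.e (nat_lit 73730) (nat_lit 0) (.e (nat_lit 7454) (nat_lit 396) .nil)))))))) (.g (nat_lit 6) .nil .nil))) 
(.lf (nat_lit 24298) (.g (nat_lit 2795) (.e (nat_lit 1189) (nat_lit 88) (.e (nat_lit 65619) (nat_lit 10) (.e (nat_lit 344117) (nat_lit 21) (.e (nat_lit 516195) (nat_lit 26) (.e (nat_lit 335995) (nat_lit 1) (.e (nat_lit 57847) (nat_lit 252) (.e (nat_lit 57365) (nat_lit 1) (.e (nat_lit 57754) (nat_lit 209) .nil)))))))) (.g (nat_lit 6) .nil .nil)))) (.nd (nat_lit 5) 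
(.lf (nat_lit 24282) (.g (nat_lit 3392) (.e (nat_lit 1189) (nat_lit 88) (.e (nat_lit 65619) (nat_lit 10) (.e (nat_lit 344117) (nat_lit 21) (.e (nat_lit 516115) (nat_lit 1) (.e (nat_lit 164153) (nat_lit 152) .nil))))) .nil)) 
(.lf (nat_lit 24314) (.g (nat_lit 1193) (.e (nat_lit 1189) (nat_lit 88) (.e (nat_lit 65619) (nat_lit 10) (.e (nat_lit 344168) (nat_lit 40) (.e (nat_lit 671747) (nat_lit 0) .nil)))) .nil))))) (.nd (nat_lit 3) (.nd (nat_lit 4) (.nd (nat_lit 5) 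
(.lf (nat_lit 24262) (.g (nat_lit 2149) (.e (nat_lit 1189) (nat_lit 88) (.e (nat_lit 65619) (nat_lit 10) (.e (nat_lit 344117) (nat_lit 21) (.e (nat_lit 516097) (nat_lit 0) (.e (nat_lit 3453) (nat_lit 216) .nil))))) .nil)) 
(.lf (nat_lit 24294) (.g (nat_lit 2249) (.e (nat_lit 1189) (nat_lit 88) (.e (nat_lit 65619) (nat_lit 10) (.e (nat_lit 344117) (nat_lit 21) (.e (nat_lit 516195) (nat_lit 26) (.e (nat_lit 335986) (nat_lit 1) (.e (nat_lit 57847) (nat_lit 252) (.e (nat_lit 57368) (nat_lit 1) (.e (nat_lit 57754) (nat_lit 209) .nil)))))))) (.g (nat_lit 5) .nil .nil)))) (.nd (nat_lit 5) 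
(.lf (nat_lit 24278) (.g (nat_lit 2653) (.e (nat_lit 1189) (nat_lit 88) (.e (nat_lit 65619) (nat_lit 10) (.e (nat_lit 344117) (nat_lit 21) (.e (nat_lit 516106) (nat_lit 0) (.e (nat_lit 2478) (nat_lit 157) .nil))))) .nil)) 
(.lf (nat_lit 24310) (.g (nat_lit 414) (.e (nat_lit 1189) (nat_lit 88) (.e (nat_lit 65619) (nat_lit 10) (.e (nat_lit 344168) (nat_lit 40) .nil))) .nil)))) (.nd (nat_lit 4) (.nd (nat_lit 5) 
(.lf (nat_lit 24270) (.g (nat_lit 2479) (.e (nat_lit 1189) (nat_lit 88) (.e (nat_lit 65619) (nat_lit 10) (.e (nat_lit 344117) (nat_lit 21) (.e (nat_lit 516097) (nat_lit 0) (.e (nat_lit 3454) (nat_lit 216) (.e (nat_lit 688181) (nat_lit 17) (.e (nat_lit 73729) (nat_lit 0) (.e (nat_lit 7454) (nat_lit 396) .nil)))))))) (.g (nat_lit 4) .nil .nil))) 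
(.lf (nat_lit 24302) (.g (nat_lit 2853) (.e (nat_lit 1189) (nat_lit 88) (.e (nat_lit 65619) (nat_lit 10) (.e (nat_lit 344129) (nat_lit 26) (.e (nat_lit 557074) (nat_lit 9) (.e (nat_lit 284) (nat_lit 21) (.e (nat_lit 336076) (nat_lit 9) (.e (nat_lit 336314) (nat_lit 16) (.e (nat_lit 164119) (nat_lit 128) .nil)))))))) (.g (nat_lit 5) .nil .nil)))) (.nd (nat_lit 5) 
(.lf (nat_lit 24286) (.g (nat_lit 2196) (.e (nat_lit 1189) (nat_lit 88) (.e (nat_lit 65619) (nat_lit 10) (.e (nat_lit 344117) (nat_lit 21) (.e (nat_lit 516115) (nat_lit 1) (.e (nat_lit 164183) (nat_lit 154) .nil))))) .nil)) 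
(.lf (nat_lit 24318) (.g (nat_lit 1820) (.e (nat_lit 1189) (nat_lit 88) (.e (nat_lit 65619) (nat_lit 10) (.e (nat_lit 344168) (nat_lit 40) (.e (nat_lit 671747) (nat_lit 0) (.e (nat_lit 1598) (nat_lit 111) (.e (nat_lit 368384) (nat_lit 0) (.e (nat_lit 5905) (nat_lit 320) .nil))))))) (.g (nat_lit 4) .nil .nil)))))))) 
(.nd (nat_lit 1) (.nd (nat_lit 2) (.nd (nat_lit 3) (.nd (nat_lit 4) (.nd (nat_lit 5) 
(.lf (nat_lit 24257) (.g (nat_lit 3778) (.e (nat_lit 1189) (nat_lit 88) (.e (nat_lit 65619) (nat_lit 10) (.e (nat_lit 344097) (nat_lit 18) (.e (nat_lit 5907) (nat_lit 320) (.e (nat_lit 1221) (nat_lit 90) (.e (nat_lit 81950) (nat_lit 21) (.e (nat_lit 57871) (nat_lit 264) .nil))))))) (.g (nat_lit 0) .nil .nil))) 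
(.lf (nat_lit 24289) (.g (nat_lit 1439) (.e (nat_lit 1189) (nat_lit 88) (.e (nat_lit 65619) (nat_lit 10) (.e (nat_lit 344117) (nat_lit 21) (.e (nat_lit 516135) (nat_lit 5) .nil)))) .nil))) (.nd (nat_lit 5) 
(.lf (nat_lit 24273) (.g (nat_lit 2208) (.e (nat_lit 1189) (nat_lit 88) (.e (nat_lit 65619) (nat_lit 10) (.e (nat_lit 344117) (nat_lit 21) (.e (nat_lit 516097) (nat_lit 0) (.e (nat_lit 3455) (nat_lit 216) .nil))))) .nil)) 
(.lf (nat_lit 24305) (.g (nat_lit 2817) (.e (nat_lit 1189) (nat_lit 88) (.e (nat_lit 65619) (nat_lit 10) (.e (nat_lit 344129) (nat_lit 26) (.e (nat_lit 557084) (nat_lit 10) (.e (nat_lit 8363) (nat_lit 89) .nil))))) .nil)))) (.nd (nat_lit 4) (.nd (nat_lit 5) 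
(.lf (nat_lit 24265) (.g (nat_lit 2576) (.e (nat_lit 1189) (nat_lit 88) (.e (nat_lit 65619) (nat_lit 10) (.e (nat_lit 344117) (nat_lit 21) (.e (nat_lit 516097) (nat_lit 0) (.e (nat_lit 3453) (nat_lit 216) (.e (nat_lit 688182) (nat_lit 17) (.e (nat_lit 73729) (nat_lit 0) (.e (nat_lit 7454) (nat_lit 396) .nil)))))))) (.g (nat_lit 5) .nil .nil))) 
(.lf (nat_lit 24297) (.g (nat_lit 1994) (.e (nat_lit 1189) (nat_lit 88) (.e (nat_lit 65619) (nat_lit 10) (.e (nat_lit 344117) (nat_lit 21) (.e (nat_lit 516195) (nat_lit 26) (.e (nat_lit 335995) (nat_lit 1) (.e (nat_lit 57847) (nat_lit 252) (.e (nat_lit 57363) (nat_lit 1) (.e (nat_lit 57755) (nat_lit 209) .nil)))))))) (.g (nat_lit 4) .nil .nil)))) (.nd (nat_lit 5) 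
(.lf (nat_lit 24281) (.g (nat_lit 3841) (.e (nat_lit 1189) (nat_lit 88) (.e (nat_lit 65619) (nat_lit 10) (.e (nat_lit 344117) (nat_lit 21) (.e (nat_lit 516115) (nat_lit 1) (.e (nat_lit 164151) (nat_lit 152) (.e (nat_lit 1207) (nat_lit 89) (.e (nat_lit 73729) (nat_lit 0) (.e (nat_lit 7454) (nat_lit 396) .nil)))))))) (.g (nat_lit 5) .nil .nil))) 
(.lf (nat_lit 24313) (.g (nat_lit 1121) (.e (nat_lit 1189) (nat_lit 88) (.e (nat_lit 65619) (nat_lit 10) (.e (nat_lit 344168) (nat_lit 40) (.e (nat_lit 671746) (nat_lit 0) (.e (nat_lit 1598) (nat_lit 111) .nil))))) .nil))))) (.nd (nat_lit 3) (.nd (nat_lit 4) (.nd (nat_lit 5) 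
(.lf (nat_lit 24261) (.g (nat_lit 2259) (.e (nat_lit 1189) (nat_lit 88) (.e (nat_lit 65619) (nat_lit 10) (.e (nat_lit 344117) (nat_lit 21) (.e (nat_lit 516097) (nat_lit 0) (.e (nat_lit 3452) (nat_lit 216) .nil))))) .nil)) 
(.lf (nat_lit 24293) (.g (nat_lit 2897) (.e (nat_lit 1189) (nat_lit 88) (.e (nat_lit 65619) (nat_lit 10) (.e (nat_lit 344117) (nat_lit 21) (.e (nat_lit 516195) (nat_lit 26) (.e (nat_lit 335986) (nat_lit 1) (.e (nat_lit 57847) (nat_lit 252) (.e (nat_lit 57365) (nat_lit 1) (.e (nat_lit 57754) (nat_lit 209) .nil)))))))) (.g (nat_lit 6) .nil .nil)))) (.nd (nat_lit 5) 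
(.lf (nat_lit 24277) (.g (nat_lit 2673) (.e (nat_lit 1189) (nat_lit 88) (.e (nat_lit 65619) (nat_lit 10) (.e (nat_lit 344117) (nat_lit 21) (.e (nat_lit 516099) (nat_lit 0) .nil)))) .nil)) 
(.lf (nat_lit 24309) (.g (nat_lit 4108) (.e (nat_lit 1189) (nat_lit 88) (.e (nat_lit 65619) (nat_lit 10) (.e (nat_lit 344160) (nat_lit 37) (.e (nat_lit 647203) (nat_lit 14) (.e (nat_lit 1349) (nat_lit 102) (.e (nat_lit 286749) (nat_lit 9) (.e (nat_lit 335997) (nat_lit 1) (.e (nat_lit 57870) (nat_lit 264) .nil)))))))) (.g (nat_lit 7) .nil .nil))))) (.nd (nat_lit 4) (.nd (nat_lit 5) 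
(.lf (nat_lit 24269) (.g (nat_lit 2373) (.e (nat_lit 1189) (nat_lit 88) (.e (nat_lit 65619) (nat_lit 10) (.e (nat_lit 344117) (nat_lit 21) (.e (nat_lit 516097) (nat_lit 0) (.e (nat_lit 3454) (nat_lit 216) (.e (nat_lit 688180) (nat_lit 17) (.e (nat_lit 73730) (nat_lit 0) (.e (nat_lit 7454) (nat_lit 396) .nil)))))))) (.g (nat_lit 4) .nil .nil))) 
(.lf (nat_lit 24301) (.g (nat_lit 1971) (.e (nat_lit 1189) (nat_lit 88) (.e (nat_lit 65619) (nat_lit 10) (.e (nat_lit 344117) (nat_lit 21) (.e (nat_lit 516195) (nat_lit 26) (.e (nat_lit 335996) (nat_lit 1) (.e (nat_lit 57854) (nat_lit 252) (.e (nat_lit 57363) (nat_lit 1) (.e (nat_lit 57754) (nat_lit 209) .nil)))))))) (.g (nat_lit 4) .nil .nil)))) (.nd (nat_lit 5) 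
(.lf (nat_lit 24285) (.g (nat_lit 2252) (.e (nat_lit 1189) (nat_lit 88) (.e (nat_lit 65619) (nat_lit 10) (.e (nat_lit 344117) (nat_lit 21) (.e (nat_lit 516115) (nat_lit 1) (.e (nat_lit 164179) (nat_lit 154) .nil))))) .nil)) 
(.lf (nat_lit 24317) (.g (nat_lit 1574) (.e (nat_lit 1189) (nat_lit 88) (.e (nat_lit 65619) (nat_lit 10) (.e (nat_lit 344168) (nat_lit 40) (.e (nat_lit 671747) (nat_lit 0) (.e (nat_lit 1598) (nat_lit 111) .nil))))) .nil)))))) (.nd (nat_lit 2) (.nd (nat_lit 3) (.nd (nat_lit 4) (.nd (nat_lit 5) 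
(.lf (nat_lit 24259) (.g (nat_lit 431) (.e (nat_lit 1189) (nat_lit 88) (.e (nat_lit 65619) (nat_lit 10) (.e (nat_lit 344117) (nat_lit 21) .nil))) .nil)) 
(.lf (nat_lit 24291) (.g (nat_lit 1879) (.e (nat_lit 1189) (nat_lit 88) (.e (nat_lit 65619) (nat_lit 10) (.e (nat_lit 344117) (nat_lit 21) (.e (nat_lit 516195) (nat_lit 26) (.e (nat_lit 335986) (nat_lit 1) .nil))))) .nil))) (.nd (nat_lit 5) 
(.lf (nat_lit 24275) (.g (nat_lit 1047) (.e (nat_lit 1189) (nat_lit 88) (.e (nat_lit 65619) (nat_lit 10) (.e (nat_lit 344117) (nat_lit 21) (.e (nat_lit 516098) (nat_lit 0) .nil)))) .nil)) 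
(.lf (nat_lit 24307) (.g (nat_lit 440) (.e (nat_lit 1189) (nat_lit 88) (.e (nat_lit 65619) (nat_lit 10) (.e (nat_lit 344157) (nat_lit 36) .nil))) .nil)))) (.nd (nat_lit 4) (.nd (nat_lit 5) 
(.lf (nat_lit 24267) (.g (nat_lit 3617) (.e (nat_lit 1189) (nat_lit 88) (.e (nat_lit 65619) (nat_lit 10) (.e (nat_lit 344117) (nat_lit 21) (.e (nat_lit 516097) (nat_lit 0) (.e (nat_lit 3453) (nat_lit 216) (.e (nat_lit 688182) (nat_lit 17) (.e (nat_lit 73731) (nat_lit 0) (.e (nat_lit 7454) (nat_lit 396) .nil)))))))) (.g (nat_lit 8) .nil .nil))) 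
(.lf (nat_lit 24299) (.g (nat_lit 2164) (.e (nat_lit 1189) (nat_lit 88) (.e (nat_lit 65619) (nat_lit 10) (.e (nat_lit 344117) (nat_lit 21) (.e (nat_lit 516195) (nat_lit 26) (.e (nat_lit 335995) (nat_lit 1) (.e (nat_lit 57847) (nat_lit 252) (.e (nat_lit 57368) (nat_lit 1) (.e (nat_lit 57754) (nat_lit 209) .nil)))))))) (.g (nat_lit 4) .nil .nil)))) (.nd (nat_lit 5) 
(.lf (nat_lit 24283) (.g (nat_lit 3436) (.e (nat_lit 1189) (nat_lit 88) (.e (nat_lit 65619) (nat_lit 10) (.e (nat_lit 344117) (nat_lit 21) (.e (nat_lit 516115) (nat_lit 1) (.e (nat_lit 164155) (nat_lit 152) .nil))))) .nil)) 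
(.lf (nat_lit 24315) (.g (nat_lit 1567) (.e (nat_lit 1189) (nat_lit 88) (.e (nat_lit 65619) (nat_lit 10) (.e (nat_lit 344168) (nat_lit 40) (.e (nat_lit 671747) (nat_lit 0) (.e (nat_lit 1592) (nat_lit 111) .nil))))) .nil))))) (.nd (nat_lit 3) (.nd (nat_lit 4) (.nd (nat_lit 5) 
(.lf (nat_lit 24263) (.g (nat_lit 2364) (.e (nat_lit 1189) (nat_lit 88) (.e (nat_lit 65619) (nat_lit 10) (.e (nat_lit 344117) (nat_lit 21) (.e (nat_lit 516097) (nat_lit 0) (.e (nat_lit 3453) (nat_lit 216) (.e (nat_lit 688180) (nat_lit 17) (.e (nat_lit 73729) (nat_lit 0) (.e (nat_lit 7454) (nat_lit 396) .nil)))))))) (.g (nat_lit 4) .nil .nil))) 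
(.lf (nat_lit 24295) (.g (nat_lit 1908) (.e (nat_lit 1189) (nat_lit 88) (.e (nat_lit 65619) (nat_lit 10) (.e (nat_lit 344117) (nat_lit 21) (.e (nat_lit 516195) (nat_lit 26) (.e (nat_lit 335995) (nat_lit 1) .nil))))) .nil))) (.nd (nat_lit 5) 
(.lf (nat_lit 24279) (.g (nat_lit 2880) (.e (nat_lit 1189) (nat_lit 88) (.e (nat_lit 65619) (nat_lit 10) (.e (nat_lit 344117) (nat_lit 21) (.e (nat_lit 516106) (nat_lit 0) (.e (nat_lit 3452) (nat_lit 216) .nil))))) .nil)) 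
(.lf (nat_lit 24311) (.g (nat_lit 1434) (.e (nat_lit 1189) (nat_lit 88) (.e (nat_lit 65619) (nat_lit 10) (.e (nat_lit 344168) (nat_lit 40) (.e (nat_lit 671744) (nat_lit 0) (.e (nat_lit 1615) (nat_lit 113) (.e (nat_lit 376860) (nat_lit 21) (.e (nat_lit 57870) (nat_lit 264) .nil))))))) (.g (nat_lit 4) .nil .nil))))) (.nd (nat_lit 4) (.nd (nat_lit 5) 
(.lf (nat_lit 24271) (.g (nat_lit 2512) (.e (nat_lit 1189) (nat_lit 88) (.e (nat_lit 65619) (nat_lit 10) (.e (nat_lit 344117) (nat_lit 21) (.e (nat_lit 516097) (nat_lit 0) (.e (nat_lit 3454) (nat_lit 216) (.e (nat_lit 688181) (nat_lit 17) (.e (nat_lit 73730) (nat_lit 0) (.e (nat_lit 7454) (nat_lit 396) .nil)))))))) (.g (nat_lit 4) .nil .nil))) 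
(.lf (nat_lit 24303) (.g (nat_lit 3075) (.e (nat_lit 1189) (nat_lit 88) (.e (nat_lit 65619) (nat_lit 10) (.e (nat_lit 344129) (nat_lit 26) (.e (nat_lit 557084) (nat_lit 10) (.e (nat_lit 8361) (nat_lit 89) .nil))))) .nil))) (.nd (nat_lit 5) 
(.lf (nat_lit 24287) (.g (nat_lit 3027) (.e (nat_lit 1189) (nat_lit 88) (.e (nat_lit 65619) (nat_lit 10) (.e (nat_lit 344117) (nat_lit 21) (.e (nat_lit 516116) (nat_lit 1) (.e (nat_lit 164147) (nat_lit 152) .nil))))) .nil)) 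
(.lf (nat_lit 24319) (.g (nat_lit 1660) (.e (nat_lit 1189) (nat_lit 88) (.e (nat_lit 65619) (nat_lit 10) (.e (nat_lit 344168) (nat_lit 40) (.e (nat_lit 671747) (nat_lit 0) (.e (nat_lit 1599) (nat_lit 111) (.e (nat_lit 368384) (nat_lit 0) (.e (nat_lit 5905) (nat_lit 320) .nil))))))) (.g (nat_lit 4) .nil .nil)))))))))

noncomputable def tv343 : DT := (.nd (nat_lit 0) (.nd (nat_lit 1) (.nd (nat_lit 2) (.nd (nat_lit 3) (.nd (nat_lit 4) (.nd (nat_lit 5) 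
(.lf (nat_lit 24320) (.g (nat_lit 1077) (.e (nat_lit 1189) (nat_lit 88) (.e (nat_lit 65619) (nat_lit 10) (.e (nat_lit 344168) (nat_lit 40) (.e (nat_lit 671748) (nat_lit 0) .nil)))) .nil)) 
(.lf (nat_lit 24352) (.g (nat_lit 1176) (.e (nat_lit 1189) (nat_lit 88) (.e (nat_lit 65619) (nat_lit 10) (.e (nat_lit 344169) (nat_lit 40) (.e (nat_lit 671751) (nat_lit 0) .nil)))) .nil))) (.nd (nat_lit 5) 
(.lf (nat_lit 24336) (.g (nat_lit 2018) (.e (nat_lit 1189) (nat_lit 88) (.e (nat_lit 65619) (nat_lit 10) (.e (nat_lit 344169) (nat_lit 40) (.e (nat_lit 671746) (nat_lit 0) (.e (nat_lit 1586) (nat_lit 111) (.e (nat_lit 368384) (nat_lit 0) (.e (nat_lit 5905) (nat_lit 320) .nil))))))) (.g (nat_lit 5) .nil .nil))) 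
(.lf (nat_lit 24368) (.g (nat_lit 661) (.e (nat_lit 1189) (nat_lit 88) (.e (nat_lit 65622) (nat_lit 12) (.e (nat_lit 385092) (nat_lit 49) (.e (nat_lit 778326) (nat_lit 6) .nil)))) .nil)))) (.nd (nat_lit 4) (.nd (nat_lit 5) 
(.lf (nat_lit 24328) (.g (nat_lit 2209) (.e (nat_lit 1189) (nat_lit 88) (.e (nat_lit 65619) (nat_lit 10) (.e (nat_lit 344168) (nat_lit 40) (.e (nat_lit 671764) (nat_lit 6) (.e (nat_lit 81948) (nat_lit 21) (.e (nat_lit 57871) (nat_lit 264) .nil)))))) (.g (nat_lit 0) .nil .nil))) 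
(.lf (nat_lit 24360) (.g (nat_lit 2685) (.e (nat_lit 1189) (nat_lit 88) (.e (nat_lit 65619) (nat_lit 10) (.e (nat_lit 344169) (nat_lit 40) (.e (nat_lit 671762) (nat_lit 4) (.e (nat_lit 65610) (nat_lit 10) (.e (nat_lit 344097) (nat_lit 18) (.e (nat_lit 5907) (nat_lit 320) .nil))))))) (.g (nat_lit 5) .nil .nil)))) (.nd (nat_lit 5) 
(.lf (nat_lit 24344) (.g (nat_lit 2541) (.e (nat_lit 1189) (nat_lit 88) (.e (nat_lit 65619) (nat_lit 10) (.e (nat_lit 344169) (nat_lit 40) (.e (nat_lit 671748) (nat_lit 0) (.e (nat_lit 1589) (nat_lit 111) (.e (nat_lit 368384) (nat_lit 0) (.e (nat_lit 5902) (nat_lit 320) .nil))))))) (.g (nat_lit 5) .nil .nil))) 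
(.lf (nat_lit 24376) (.g (nat_lit 2246) (.e (nat_lit 1189) (nat_lit 88) (.e (nat_lit 65622) (nat_lit 12) (.e (nat_lit 385093) (nat_lit 49) (.e (nat_lit 778327) (nat_lit 6) (.e (nat_lit 81949) (nat_lit 21) (.e (nat_lit 57870) (nat_lit 264) .nil)))))) (.g (nat_lit 5) .nil .nil)))))) (.nd (nat_lit 3) (.nd (nat_lit 4) (.nd (nat_lit 5) 
(.lf (nat_lit 24324) (.g (nat_lit 3842) (.e (nat_lit 1189) (nat_lit 88) (.e (nat_lit 65619) (nat_lit 10) (.e (nat_lit 344168) (nat_lit 40) (.e (nat_lit 671762) (nat_lit 4) (.e (nat_lit 65610) (nat_lit 10) (.e (nat_lit 344097) (nat_lit 18) (.e (nat_lit 5905) (nat_lit 320) .nil))))))) (.g (nat_lit 0) .nil .nil))) 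
(.lf (nat_lit 24356) (.g (nat_lit 3755) (.e (nat_lit 1189) (nat_lit 88) (.e (nat_lit 65619) (nat_lit 10) (.e (nat_lit 344169) (nat_lit 40) (.e (nat_lit 671762) (nat_lit 4) (.e (nat_lit 65598) (nat_lit 9) (.e (nat_lit 335997) (nat_lit 1) (.e (nat_lit 57870) (nat_lit 264) .nil))))))) (.g (nat_lit 0) .nil .nil)))) (.nd (nat_lit 5) 
(.lf (nat_lit 24340) (.g (nat_lit 1784) (.e (nat_lit 1189) (nat_lit 88) (.e (nat_lit 65619) (nat_lit 10) (.e (nat_lit 344169) (nat_lit 40) (.e (nat_lit 671747) (nat_lit 0) (.e (nat_lit 1599) (nat_lit 111) (.e (nat_lit 368384) (nat_lit 0) (.e (nat_lit 5905) (nat_lit 320) .nil))))))) (.g (nat_lit 4) .nil .nil))) 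
(.lf (nat_lit 24372) (.g (nat_lit 2181) (.e (nat_lit 1189) (nat_lit 88) (.e (nat_lit 65622) (nat_lit 12) (.e (nat_lit 385093) (nat_lit 49) (.e (nat_lit 778326) (nat_lit 6) (.e (nat_lit 81948) (nat_lit 21) (.e (nat_lit 57870) (nat_lit 264) .nil)))))) (.g (nat_lit 0) .nil .nil))))) (.nd (nat_lit 4) (.nd (nat_lit 5) 
(.lf (nat_lit 24332) (.g (nat_lit 404) (.e (nat_lit 1189) (nat_lit 88) (.e (nat_lit 65619) (nat_lit 10) (.e (nat_lit 344169) (nat_lit 40) .nil))) .nil)) 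
(.lf (nat_lit 24364) (.g (nat_lit 2164) (.e (nat_lit 1189) (nat_lit 88) (.e (nat_lit 65619) (nat_lit 10) (.e (nat_lit 344169) (nat_lit 40) (.e (nat_lit 671764) (nat_lit 6) (.e (nat_lit 81948) (nat_lit 21) (.e (nat_lit 57871) (nat_lit 264) .nil)))))) (.g (nat_lit 0) .nil .nil)))) (.nd (nat_lit 5) 
(.lf (nat_lit 24348) (.g (nat_lit 2404) (.e (nat_lit 1189) (nat_lit 88) (.e (nat_lit 65619) (nat_lit 10) (.e (nat_lit 344169) (nat_lit 40) (.e (nat_lit 671748) (nat_lit 0) (.e (nat_lit 1595) (nat_lit 111) (.e (nat_lit 368384) (nat_lit 0) (.e (nat_lit 5902) (nat_lit 320) .nil))))))) (.g (nat_lit 5) .nil .nil))) 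
(.lf (nat_lit 24380) (.g (nat_lit 1824) (.e (nat_lit 1189) (nat_lit 88) (.e (nat_lit 65622) (nat_lit 12) (.e (nat_lit 385094) (nat_lit 49) (.e (nat_lit 778326) (nat_lit 6) (.e (nat_lit 81948) (nat_lit 21) (.e (nat_lit 57871) (nat_lit 264) .nil)))))) (.g (nat_lit 5) .nil .nil))))))) (.nd (nat_lit 2) (.nd (nat_lit 3) (.nd (nat_lit 4) (.nd (nat_lit 5) 
(.lf (nat_lit 24322) (.g (nat_lit 3410) (.e (nat_lit 1189) (nat_lit 88) (.e (nat_lit 65619) (nat_lit 10) (.e (nat_lit 344168) (nat_lit 40) (.e (nat_lit 671762) (nat_lit 4) (.e (nat_lit 65598) (nat_lit 9) (.e (nat_lit 335997) (nat_lit 1) (.e (nat_lit 57871) (nat_lit 264) .nil))))))) (.g (nat_lit 0) .nil .nil))) 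
(.lf (nat_lit 24354) (.g (nat_lit 2938) (.e (nat_lit 1189) (nat_lit 88) (.e (nat_lit 65619) (nat_lit 10) (.e (nat_lit 344169) (nat_lit 40) (.e (nat_lit 671760) (nat_lit 4) (.e (nat_lit 65619) (nat_lit 10) (.e (nat_lit 344097) (nat_lit 18) (.e (nat_lit 5905) (nat_lit 320) .nil))))))) (.g (nat_lit 6) .nil .nil)))) (.nd (nat_lit 5) 
(.lf (nat_lit 24338) (.g (nat_lit 2169) (.e (nat_lit 1189) (nat_lit 88) (.e (nat_lit 65619) (nat_lit 10) (.e (nat_lit 344169) (nat_lit 40) (.e (nat_lit 671747) (nat_lit 0) (.e (nat_lit 1586) (nat_lit 111) (.e (nat_lit 368384) (nat_lit 0) (.e (nat_lit 5902) (nat_lit 320) .nil))))))) (.g (nat_lit 5) .nil .nil))) 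
(.lf (nat_lit 24370) (.g (nat_lit 1089) (.e (nat_lit 1189) (nat_lit 88) (.e (nat_lit 65622) (nat_lit 12) (.e (nat_lit 385092) (nat_lit 49) (.e (nat_lit 778326) (nat_lit 6) (.e (nat_lit 81950) (nat_lit 21) (.e (nat_lit 57870) (nat_lit 264) .nil)))))) (.g (nat_lit 4) .nil .nil))))) (.nd (nat_lit 4) (.nd (nat_lit 5) 
(.lf (nat_lit 24330) (.g (nat_lit 2348) (.e (nat_lit 1189) (nat_lit 88) (.e (nat_lit 65619) (nat_lit 10) (.e (nat_lit 344168) (nat_lit 40) (.e (nat_lit 671764) (nat_lit 6) (.e (nat_lit 81950) (nat_lit 21) (.e (nat_lit 57871) (nat_lit 264) .nil)))))) (.g (nat_lit 0) .nil .nil))) 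
(.lf (nat_lit 24362) (.g (nat_lit 2677) (.e (nat_lit 1189) (nat_lit 88) (.e (nat_lit 65619) (nat_lit 10) (.e (nat_lit 344169) (nat_lit 40) (.e (nat_lit 671762) (nat_lit 4) (.e (nat_lit 65619) (nat_lit 10) (.e (nat_lit 344097) (nat_lit 18) (.e (nat_lit 5907) (nat_lit 320) .nil))))))) (.g (nat_lit 5) .nil .nil)))) (.nd (nat_lit 5) 
(.lf (nat_lit 24346) (.g (nat_lit 1931) (.e (nat_lit 1189) (nat_lit 88) (.e (nat_lit 65619) (nat_lit 10) (.e (nat_lit 344169) (nat_lit 40) (.e (nat_lit 671748) (nat_lit 0) (.e (nat_lit 1595) (nat_lit 111) (.e (nat_lit 360453) (nat_lit 0) (.e (nat_lit 5905) (nat_lit 320) .nil))))))) (.g (nat_lit 4) .nil .nil))) 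
(.lf (nat_lit 24378) (.g (nat_lit 1920) (.e (nat_lit 1189) (nat_lit 88) (.e (nat_lit 65622) (nat_lit 12) (.e (nat_lit 385093) (nat_lit 49) (.e (nat_lit 778327) (nat_lit 6) (.e (nat_lit 81950) (nat_lit 21) (.e (nat_lit 57870) (nat_lit 264) .nil)))))) (.g (nat_lit 4) .nil .nil)))))) (.nd (nat_lit 3) (.nd (nat_lit 4) (.nd (nat_lit 5) 
(.lf (nat_lit 24326) (.g (nat_lit 3731) (.e (nat_lit 1189) (nat_lit 88) (.e (nat_lit 65619) (nat_lit 10) (.e (nat_lit 344168) (nat_lit 40) (.e (nat_lit 671762) (nat_lit 4) (.e (nat_lit 65619) (nat_lit 10) (.e (nat_lit 344097) (nat_lit 18) (.e (nat_lit 5905) (nat_lit 320) .nil))))))) (.g (nat_lit 0) .nil .nil))) 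
(.lf (nat_lit 24358) (.g (nat_lit 3411) (.e (nat_lit 1189) (nat_lit 88) (.e (nat_lit 65619) (nat_lit 10) (.e (nat_lit 344169) (nat_lit 40) (.e (nat_lit 671762) (nat_lit 4) (.e (nat_lit 65604) (nat_lit 9) (.e (nat_lit 335997) (nat_lit 1) (.e (nat_lit 57871) (nat_lit 264) .nil))))))) (.g (nat_lit 0) .nil .nil)))) (.nd (nat_lit 5) 
(.lf (nat_lit 24342) (.g (nat_lit 2555) (.e (nat_lit 1189) (nat_lit 88) (.e (nat_lit 65619) (nat_lit 10) (.e (nat_lit 344169) (nat_lit 40) (.e (nat_lit 671748) (nat_lit 0) (.e (nat_lit 1586) (nat_lit 111) (.e (nat_lit 368384) (nat_lit 0) (.e (nat_lit 5902) (nat_lit 320) .nil))))))) (.g (nat_lit 5) .nil .nil))) 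
(.lf (nat_lit 24374) (.g (nat_lit 1938) (.e (nat_lit 1189) (nat_lit 88) (.e (nat_lit 65622) (nat_lit 12) (.e (nat_lit 385093) (nat_lit 49) (.e (nat_lit 778326) (nat_lit 6) (.e (nat_lit 81950) (nat_lit 21) (.e (nat_lit 57871) (nat_lit 264) .nil)))))) (.g (nat_lit 5) .nil .nil))))) (.nd (nat_lit 4) (.nd (nat_lit 5) 
(.lf (nat_lit 24334) (.g (nat_lit 1167) (.e (nat_lit 1189) (nat_lit 88) (.e (nat_lit 65619) (nat_lit 10) (.e (nat_lit 344169) (nat_lit 40) (.e (nat_lit 671746) (nat_lit 0) .nil)))) .nil)) 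
(.lf (nat_lit 24366) (.g (nat_lit 2248) (.e (nat_lit 1189) (nat_lit 88) (.e (nat_lit 65619) (nat_lit 10) (.e (nat_lit 344169) (nat_lit 40) (.e (nat_lit 671764) (nat_lit 6) (.e (nat_lit 81950) (nat_lit 21) (.e (nat_lit 57871) (nat_lit 264) .nil)))))) (.g (nat_lit 0) .nil .nil)))) (.nd (nat_lit 5) 
(.lf (nat_lit 24350) (.g (nat_lit 2233) (.e (nat_lit 1189) (nat_lit 88) (.e (nat_lit 65619) (nat_lit 10) (.e (nat_lit 344169) (nat_lit 40) (.e (nat_lit 671748) (nat_lit 0) (.e (nat_lit 1598) (nat_lit 111) (.e (nat_lit 368384) (nat_lit 0) (.e (nat_lit 5902) (nat_lit 320) .nil))))))) (.g (nat_lit 5) .nil .nil))) 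
(.lf (nat_lit 24382) (.g (nat_lit 1848) (.e (nat_lit 1189) (nat_lit 88) (.e (nat_lit 65622) (nat_lit 12) (.e (nat_lit 385094) (nat_lit 49) (.e (nat_lit 778327) (nat_lit 6) (.e (nat_lit 81949) (nat_lit 21) (.e (nat_lit 57870) (nat_lit 264) .nil)))))) (.g (nat_lit 5) .nil .nil)))))))) (.nd (nat_lit 1) (.nd (nat_lit 2) (.nd (nat_lit 3) (.nd (nat_lit 4) (.nd (nat_lit 5) 
(.lf (nat_lit 24321) (.g (nat_lit 3598) (.e (nat_lit 1189) (nat_lit 88) (.e (nat_lit 65619) (nat_lit 10) (.e (nat_lit 344168) (nat_lit 40) (.e (nat_lit 671762) (nat_lit 4) (.e (nat_lit 65598) (nat_lit 9) (.e (nat_lit 335997) (nat_lit 1) (.e (nat_lit 57870) (nat_lit 264) .nil))))))) (.g (nat_lit 0) .nil .nil))) 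
(.lf (nat_lit 24353) (.g (nat_lit 1489) (.e (nat_lit 1189) (nat_lit 88) (.e (nat_lit 65619) (nat_lit 10) (.e (nat_lit 344169) (nat_lit 40) (.e (nat_lit 671760) (nat_lit 4) (.e (nat_lit 65604) (nat_lit 9) .nil))))) .nil))) (.nd (nat_lit 5) 
(.lf (nat_lit 24337) (.g (nat_lit 1169) (.e (nat_lit 1189) (nat_lit 88) (.e (nat_lit 65619) (nat_lit 10) (.e (nat_lit 344169) (nat_lit 40) (.e (nat_lit 671747) (nat_lit 0) .nil)))) .nil)) 
(.lf (nat_lit 24369) (.g (nat_lit 983) (.e (nat_lit 1189) (nat_lit 88) (.e (nat_lit 65622) (nat_lit 12) (.e (nat_lit 385092) (nat_lit 49) (.e (nat_lit 778326) (nat_lit 6) (.e (nat_lit 81948) (nat_lit 21) (.e (nat_lit 57870) (nat_lit 264) .nil)))))) (.g (nat_lit 4) .nil .nil))))) (.nd (nat_lit 4) (.nd (nat_lit 5) 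
(.lf (nat_lit 24329) (.g (nat_lit 1422) (.e (nat_lit 1189) (nat_lit 88) (.e (nat_lit 65619) (nat_lit 10) (.e (nat_lit 344168) (nat_lit 40) (.e (nat_lit 671764) (nat_lit 6) (.e (nat_lit 81948) (nat_lit 21) (.e (nat_lit 57873) (nat_lit 264) .nil)))))) (.g (nat_lit 4) .nil .nil))) 
(.lf (nat_lit 24361) (.g (nat_lit 3872) (.e (nat_lit 1189) (nat_lit 88) (.e (nat_lit 65619) (nat_lit 10) (.e (nat_lit 344169) (nat_lit 40) (.e (nat_lit 671762) (nat_lit 4) (.e (nat_lit 65619) (nat_lit 10) (.e (nat_lit 344097) (nat_lit 18) (.e (nat_lit 5905) (nat_lit 320) .nil))))))) (.g (nat_lit 0) .nil .nil)))) (.nd (nat_lit 5) 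
(.lf (nat_lit 24345) (.g (nat_lit 1781) (.e (nat_lit 1189) (nat_lit 88) (.e (nat_lit 65619) (nat_lit 10) (.e (nat_lit 344169) (nat_lit 40) (.e (nat_lit 671748) (nat_lit 0) (.e (nat_lit 1592) (nat_lit 111) .nil))))) .nil)) 
(.lf (nat_lit 24377) (.g (nat_lit 1656) (.e (nat_lit 1189) (nat_lit 88) (.e (nat_lit 65622) (nat_lit 12) (.e (nat_lit 385093) (nat_lit 49) (.e (nat_lit 778327) (nat_lit 6) (.e (nat_lit 81950) (nat_lit 21) .nil))))) .nil))))) (.nd (nat_lit 3) (.nd (nat_lit 4) (.nd (nat_lit 5) 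
(.lf (nat_lit 24325) (.g (nat_lit 2560) (.e (nat_lit 1189) (nat_lit 88) (.e (nat_lit 65619) (nat_lit 10) (.e (nat_lit 344168) (nat_lit 40) (.e (nat_lit 671762) (nat_lit 4) (.e (nat_lit 65610) (nat_lit 10) (.e (nat_lit 344097) (nat_lit 18) (.e (nat_lit 5907) (nat_lit 320) .nil))))))) (.g (nat_lit 5) .nil .nil))) 
(.lf (nat_lit 24357) (.g (nat_lit 3566) (.e (nat_lit 1189) (nat_lit 88) (.e (nat_lit 65619) (nat_lit 10) (.e (nat_lit 344169) (nat_lit 40) (.e (nat_lit 671762) (nat_lit 4) (.e (nat_lit 65598) (nat_lit 9) (.e (nat_lit 335997) (nat_lit 1) (.e (nat_lit 57871) (nat_lit 264) .nil))))))) (.g (nat_lit 0) .nil .nil)))) (.nd (nat_lit 5) 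
(.lf (nat_lit 24341) (.g (nat_lit 1735) (.e (nat_lit 1189) (nat_lit 88) (.e (nat_lit 65619) (nat_lit 10) (.e (nat_lit 344169) (nat_lit 40) (.e (nat_lit 671748) (nat_lit 0) (.e (nat_lit 1562) (nat_lit 110) .nil))))) .nil)) 
(.lf (nat_lit 24373) (.g (nat_lit 1813) (.e (nat_lit 1189) (nat_lit 88) (.e (nat_lit 65622) (nat_lit 12) (.e (nat_lit 385093) (nat_lit 49) (.e (nat_lit 778326) (nat_lit 6) (.e (nat_lit 81948) (nat_lit 21) (.e (nat_lit 57871) (nat_lit 264) .nil)))))) (.g (nat_lit 5) .nil .nil))))) (.nd (nat_lit 4) (.nd (nat_lit 5) 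
(.lf (nat_lit 24333) (.g (nat_lit 1085) (.e (nat_lit 1189) (nat_lit 88) (.e (nat_lit 65619) (nat_lit 10) (.e (nat_lit 344169) (nat_lit 40) (.e (nat_lit 671744) (nat_lit 0) .nil)))) .nil)) 
(.lf (nat_lit 24365) (.g (nat_lit 1374) (.e (nat_lit 1189) (nat_lit 88) (.e (nat_lit 65619) (nat_lit 10) (.e (nat_lit 344169) (nat_lit 40) (.e (nat_lit 671764) (nat_lit 6) (.e (nat_lit 81948) (nat_lit 21) (.e (nat_lit 57873) (nat_lit 264) .nil)))))) (.g (nat_lit 4) .nil .nil)))) (.nd (nat_lit 5) 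
(.lf (nat_lit 24349) (.g (nat_lit 3609) (.e (nat_lit 1189) (nat_lit 88) (.e (nat_lit 65619) (nat_lit 10) (.e (nat_lit 344169) (nat_lit 40) (.e (nat_lit 671748) (nat_lit 0) (.e (nat_lit 1598) (nat_lit 111) (.e (nat_lit 360452) (nat_lit 0) (.e (nat_lit 5905) (nat_lit 320) .nil))))))) (.g (nat_lit 7) .nil .nil))) 
(.lf (nat_lit 24381) (.g (nat_lit 1945) (.e (nat_lit 1189) (nat_lit 88) (.e (nat_lit 65622) (nat_lit 12) (.e (nat_lit 385094) (nat_lit 49) (.e (nat_lit 778326) (nat_lit 6) (.e (nat_lit 81950) (nat_lit 21) (.e (nat_lit 57871) (nat_lit 264) .nil)))))) (.g (nat_lit 5) .nil .nil))))))) (.nd (nat_lit 2) (.nd (nat_lit 3) (.nd (nat_lit 4) (.nd (nat_lit 5) 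
(.lf (nat_lit 24323) (.g (nat_lit 3297) (.e (nat_lit 1189) (nat_lit 88) (.e (nat_lit 65619) (nat_lit 10) (.e (nat_lit 344168) (nat_lit 40) (.e (nat_lit 671762) (nat_lit 4) (.e (nat_lit 65604) (nat_lit 9) (.e (nat_lit 335997) (nat_lit 1) (.e (nat_lit 57871) (nat_lit 264) .nil))))))) (.g (nat_lit 0) .nil .nil))) 
(.lf (nat_lit 24355) (.g (nat_lit 1687) (.e (nat_lit 1189) (nat_lit 88) (.e (nat_lit 65619) (nat_lit 10) (.e (nat_lit 344169) (nat_lit 40) (.e (nat_lit 671761) (nat_lit 4) (.e (nat_lit 65604) (nat_lit 9) .nil))))) .nil))) (.nd (nat_lit 5) 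
(.lf (nat_lit 24339) (.g (nat_lit 1560) (.e (nat_lit 1189) (nat_lit 88) (.e (nat_lit 65619) (nat_lit 10) (.e (nat_lit 344169) (nat_lit 40) (.e (nat_lit 671747) (nat_lit 0) (.e (nat_lit 1592) (nat_lit 111) .nil))))) .nil)) 
(.lf (nat_lit 24371) (.g (nat_lit 846) (.e (nat_lit 1189) (nat_lit 88) (.e (nat_lit 65622) (nat_lit 12) (.e (nat_lit 385093) (nat_lit 49) (.e (nat_lit 778323) (nat_lit 5) (.e (nat_lit 81664) (nat_lit 40) .nil))))) .nil)))) (.nd (nat_lit 4) (.nd (nat_lit 5) 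
(.lf (nat_lit 24331) (.g (nat_lit 1579) (.e (nat_lit 1189) (nat_lit 88) (.e (nat_lit 65619) (nat_lit 10) (.e (nat_lit 344168) (nat_lit 40) (.e (nat_lit 671764) (nat_lit 6) (.e (nat_lit 81950) (nat_lit 21) (.e (nat_lit 57873) (nat_lit 264) .nil)))))) (.g (nat_lit 4) .nil .nil))) 
(.lf (nat_lit 24363) (.g (nat_lit 1814) (.e (nat_lit 1189) (nat_lit 88) (.e (nat_lit 65619) (nat_lit 10) (.e (nat_lit 344169) (nat_lit 40) (.e (nat_lit 671762) (nat_lit 4) (.e (nat_lit 65620) (nat_lit 10) .nil))))) .nil))) (.nd (nat_lit 5) 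
(.lf (nat_lit 24347) (.g (nat_lit 2469) (.e (nat_lit 1189) (nat_lit 88) (.e (nat_lit 65619) (nat_lit 10) (.e (nat_lit 344169) (nat_lit 40) (.e (nat_lit 671748) (nat_lit 0) (.e (nat_lit 1595) (nat_lit 111) (.e (nat_lit 360453) (nat_lit 0) (.e (nat_lit 5907) (nat_lit 320) .nil))))))) (.g (nat_lit 5) .nil .nil))) 
(.lf (nat_lit 24379) (.g (nat_lit 2187) (.e (nat_lit 1189) (nat_lit 88) (.e (nat_lit 65622) (nat_lit 12) (.e (nat_lit 385094) (nat_lit 49) (.e (nat_lit 778326) (nat_lit 6) (.e (nat_lit 81948) (nat_lit 21) (.e (nat_lit 57870) (nat_lit 264) .nil)))))) (.g (nat_lit 0) .nil .nil)))))) (.nd (nat_lit 3) (.nd (nat_lit 4) (.nd (nat_lit 5) 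
(.lf (nat_lit 24327) (.g (nat_lit 1727) (.e (nat_lit 1189) (nat_lit 88) (.e (nat_lit 65619) (nat_lit 10) (.e (nat_lit 344168) (nat_lit 40) (.e (nat_lit 671762) (nat_lit 4) (.e (nat_lit 65620) (nat_lit 10) .nil))))) .nil)) 
(.lf (nat_lit 24359) (.g (nat_lit 3962) (.e (nat_lit 1189) (nat_lit 88) (.e (nat_lit 65619) (nat_lit 10) (.e (nat_lit 344169) (nat_lit 40) (.e (nat_lit 671762) (nat_lit 4) (.e (nat_lit 65610) (nat_lit 10) (.e (nat_lit 344097) (nat_lit 18) (.e (nat_lit 5905) (nat_lit 320) .nil))))))) (.g (nat_lit 0) .nil .nil)))) (.nd (nat_lit 5) 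
(.lf (nat_lit 24343) (.g (nat_lit 2435) (.e (nat_lit 1189) (nat_lit 88) (.e (nat_lit 65619) (nat_lit 10) (.e (nat_lit 344169) (nat_lit 40) (.e (nat_lit 671748) (nat_lit 0) (.e (nat_lit 1589) (nat_lit 111) (.e (nat_lit 360453) (nat_lit 0) (.e (nat_lit 5907) (nat_lit 320) .nil))))))) (.g (nat_lit 5) .nil .nil))) 
(.lf (nat_lit 24375) (.g (nat_lit 1163) (.e (nat_lit 1189) (nat_lit 88) (.e (nat_lit 65622) (nat_lit 12) (.e (nat_lit 385093) (nat_lit 49) (.e (nat_lit 778327) (nat_lit 6) .nil)))) .nil)))) (.nd (nat_lit 4) (.nd (nat_lit 5) 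
(.lf (nat_lit 24335) (.g (nat_lit 1525) (.e (nat_lit 1189) (nat_lit 88) (.e (nat_lit 65619) (nat_lit 10) (.e (nat_lit 344169) (nat_lit 40) (.e (nat_lit 671746) (nat_lit 0) (.e (nat_lit 1586) (nat_lit 111) (.e (nat_lit 368384) (nat_lit 0) (.e (nat_lit 5902) (nat_lit 320) .nil))))))) (.g (nat_lit 4) .nil .nil))) 
(.lf (nat_lit 24367) (.g (nat_lit 1495) (.e (nat_lit 1189) (nat_lit 88) (.e (nat_lit 65619) (nat_lit 10) (.e (nat_lit 344169) (nat_lit 40) (.e (nat_lit 671764) (nat_lit 6) (.e (nat_lit 81950) (nat_lit 21) (.e (nat_lit 57873) (nat_lit 264) .nil)))))) (.g (nat_lit 4) .nil .nil)))) (.nd (nat_lit 5) 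
(.lf (nat_lit 24351) (.g (nat_lit 2095) (.e (nat_lit 1189) (nat_lit 88) (.e (nat_lit 65619) (nat_lit 10) (.e (nat_lit 344169) (nat_lit 40) (.e (nat_lit 671748) (nat_lit 0) (.e (nat_lit 1599) (nat_lit 111) (.e (nat_lit 368384) (nat_lit 0) (.e (nat_lit 5902) (nat_lit 320) .nil))))))) (.g (nat_lit 5) .nil .nil))) 
(.lf (nat_lit 24383) (.g (nat_lit 1564) (.e (nat_lit 1189) (nat_lit 88) (.e (nat_lit 65622) (nat_lit 12) (.e (nat_lit 385094) (nat_lit 49) (.e (nat_lit 778327) (nat_lit 6) (.e (nat_lit 81950) (nat_lit 21) (.e (nat_lit 57870) (nat_lit 264) .nil)))))) (.g (nat_lit 4) .nil .nil)))))))))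

noncomputable def tv344 : DT := (.nd (nat_lit 0) (.nd (nat_lit 1) (.nd (nat_lit 2) (.nd (nat_lit 3) (.nd (nat_lit 4) (.nd (nat_lit 5) 
(.lf (nat_lit 24384) (.g (nat_lit 2848) (.e (nat_lit 1189) (nat_lit 88) (.e (nat_lit 65622) (nat_lit 12) (.e (nat_lit 385105) (nat_lit 50) (.e (nat_lit 786478) (nat_lit 29) (.e (nat_lit 352309) (nat_lit 21) (.e (nat_lit 57870) (nat_lit 264) .nil)))))) (.g (nat_lit 6) .nil .nil))) 
(.lf (nat_lit 24416) (.g (nat_lit 2411) (.e (nat_lit 1189) (nat_lit 88) (.e (nat_lit 65624) (nat_lit 12) (.e (nat_lit 385093) (nat_lit 49) (.e (nat_lit 778326) (nat_lit 6) (.e (nat_lit 81950) (nat_lit 21) (.e (nat_lit 57870) (nat_lit 264) .nil)))))) (.g (nat_lit 6) .nil .nil)))) (.nd (nat_lit 5) 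
(.lf (nat_lit 24400) (.g (nat_lit 1652) (.e (nat_lit 1189) (nat_lit 88) (.e (nat_lit 65623) (nat_lit 12) (.e (nat_lit 385105) (nat_lit 50) (.e (nat_lit 786481) (nat_lit 30) (.e (nat_lit 360452) (nat_lit 0) (.e (nat_lit 5905) (nat_lit 320) .nil)))))) (.g (nat_lit 4) .nil .nil))) 
(.lf (nat_lit 24432) (.g (nat_lit 3230) (.e (nat_lit 1189) (nat_lit 88) (.e (nat_lit 65624) (nat_lit 12) (.e (nat_lit 385105) (nat_lit 50) (.e (nat_lit 786480) (nat_lit 29) (.e (nat_lit 352309) (nat_lit 21) (.e (nat_lit 57870) (nat_lit 264) .nil)))))) (.g (nat_lit 5) .nil .nil))))) (.nd (nat_lit 4) (.nd (nat_lit 5) 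
(.lf (nat_lit 24392) (.g (nat_lit 1490) (.e (nat_lit 1189) (nat_lit 88) (.e (nat_lit 65623) (nat_lit 12) (.e (nat_lit 385093) (nat_lit 49) (.e (nat_lit 778326) (nat_lit 6) (.e (nat_lit 81950) (nat_lit 21) (.e (nat_lit 57870) (nat_lit 264) .nil)))))) (.g (nat_lit 4) .nil .nil))) 
(.lf (nat_lit 24424) (.g (nat_lit 2463) (.e (nat_lit 1189) (nat_lit 88) (.e (nat_lit 65624) (nat_lit 12) (.e (nat_lit 385094) (nat_lit 49) (.e (nat_lit 778327) (nat_lit 6) (.e (nat_lit 81949) (nat_lit 21) (.e (nat_lit 57870) (nat_lit 264) .nil)))))) (.g (nat_lit 5) .nil .nil)))) (.nd (nat_lit 5) 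
(.lf (nat_lit 24408) (.g (nat_lit 2193) (.e (nat_lit 1189) (nat_lit 88) (.e (nat_lit 65624) (nat_lit 12) (.e (nat_lit 385092) (nat_lit 49) (.e (nat_lit 778326) (nat_lit 6) (.e (nat_lit 81948) (nat_lit 21) (.e (nat_lit 57870) (nat_lit 264) .nil)))))) (.g (nat_lit 6) .nil .nil))) 
(.lf (nat_lit 24440) (.g (nat_lit 3315) (.e (nat_lit 1189) (nat_lit 88) (.e (nat_lit 65624) (nat_lit 12) (.e (nat_lit 385106) (nat_lit 50) (.e (nat_lit 786480) (nat_lit 29) (.e (nat_lit 352309) (nat_lit 21) (.e (nat_lit 57870) (nat_lit 264) .nil)))))) (.g (nat_lit 6) .nil .nil)))))) (.nd (nat_lit 3) (.nd (nat_lit 4) (.nd (nat_lit 5) 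
(.lf (nat_lit 24388) (.g (nat_lit 3234) (.e (nat_lit 1189) (nat_lit 88) (.e (nat_lit 65622) (nat_lit 12) (.e (nat_lit 385106) (nat_lit 50) (.e (nat_lit 786480) (nat_lit 29) (.e (nat_lit 352309) (nat_lit 21) (.e (nat_lit 57870) (nat_lit 264) .nil)))))) (.g (nat_lit 0) .nil .nil))) 
(.lf (nat_lit 24420) (.g (nat_lit 2585) (.e (nat_lit 1189) (nat_lit 88) (.e (nat_lit 65624) (nat_lit 12) (.e (nat_lit 385094) (nat_lit 49) (.e (nat_lit 778326) (nat_lit 6) (.e (nat_lit 81948) (nat_lit 21) (.e (nat_lit 57870) (nat_lit 264) .nil)))))) (.g (nat_lit 0) .nil .nil)))) (.nd (nat_lit 5) 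
(.lf (nat_lit 24404) (.g (nat_lit 1565) (.e (nat_lit 1189) (nat_lit 88) (.e (nat_lit 65623) (nat_lit 12) (.e (nat_lit 385106) (nat_lit 50) (.e (nat_lit 786481) (nat_lit 30) (.e (nat_lit 368384) (nat_lit 0) .nil))))) .nil)) 
(.lf (nat_lit 24436) (.g (nat_lit 2164) (.e (nat_lit 1189) (nat_lit 88) (.e (nat_lit 65624) (nat_lit 12) (.e (nat_lit 385105) (nat_lit 50) (.e (nat_lit 786481) (nat_lit 30) (.e (nat_lit 368384) (nat_lit 0) (.e (nat_lit 5902) (nat_lit 320) .nil)))))) (.g (nat_lit 4) .nil .nil))))) (.nd (nat_lit 4) (.nd (nat_lit 5) 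
(.lf (nat_lit 24396) (.g (nat_lit 2032) (.e (nat_lit 1189) (nat_lit 88) (.e (nat_lit 65623) (nat_lit 12) (.e (nat_lit 385094) (nat_lit 49) (.e (nat_lit 778326) (nat_lit 6) (.e (nat_lit 81950) (nat_lit 21) (.e (nat_lit 57871) (nat_lit 264) .nil)))))) (.g (nat_lit 6) .nil .nil))) 
(.lf (nat_lit 24428) (.g (nat_lit 2465) (.e (nat_lit 1189) (nat_lit 88) (.e (nat_lit 65624) (nat_lit 12) (.e (nat_lit 385104) (nat_lit 50) (.e (nat_lit 786480) (nat_lit 29) (.e (nat_lit 352309) (nat_lit 21) (.e (nat_lit 57871) (nat_lit 264) .nil)))))) (.g (nat_lit 5) .nil .nil)))) (.nd (nat_lit 5) 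
(.lf (nat_lit 24412) (.g (nat_lit 1513) (.e (nat_lit 1189) (nat_lit 88) (.e (nat_lit 65624) (nat_lit 12) (.e (nat_lit 385092) (nat_lit 49) (.e (nat_lit 778327) (nat_lit 6) (.e (nat_lit 81949) (nat_lit 21) .nil))))) .nil)) 
(.lf (nat_lit 24444) (.g (nat_lit 2121) (.e (nat_lit 1189) (nat_lit 88) (.e (nat_lit 65624) (nat_lit 12) (.e (nat_lit 385106) (nat_lit 50) (.e (nat_lit 786481) (nat_lit 30) (.e (nat_lit 368384) (nat_lit 0) (.e (nat_lit 5902) (nat_lit 320) .nil)))))) (.g (nat_lit 4) .nil .nil))))))) (.nd (nat_lit 2) (.nd (nat_lit 3) (.nd (nat_lit 4) (.nd (nat_lit 5) 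
(.lf (nat_lit 24386) (.g (nat_lit 3426) (.e (nat_lit 1189) (nat_lit 88) (.e (nat_lit 65622) (nat_lit 12) (.e (nat_lit 385105) (nat_lit 50) (.e (nat_lit 786480) (nat_lit 29) (.e (nat_lit 352309) (nat_lit 21) (.e (nat_lit 57871) (nat_lit 264) .nil)))))) (.g (nat_lit 0) .nil .nil))) 
(.lf (nat_lit 24418) (.g (nat_lit 2397) (.e (nat_lit 1189) (nat_lit 88) (.e (nat_lit 65624) (nat_lit 12) (.e (nat_lit 385093) (nat_lit 49) (.e (nat_lit 778327) (nat_lit 6) (.e (nat_lit 81949) (nat_lit 21) (.e (nat_lit 57870) (nat_lit 264) .nil)))))) (.g (nat_lit 5) .nil .nil)))) (.nd (nat_lit 5) 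
(.lf (nat_lit 24402) (.g (nat_lit 1502) (.e (nat_lit 1189) (nat_lit 88) (.e (nat_lit 65623) (nat_lit 12) (.e (nat_lit 385106) (nat_lit 50) (.e (nat_lit 786479) (nat_lit 29) (.e (nat_lit 352309) (nat_lit 21) .nil))))) .nil)) 
(.lf (nat_lit 24434) (.g (nat_lit 1897) (.e (nat_lit 1189) (nat_lit 88) (.e (nat_lit 65624) (nat_lit 12) (.e (nat_lit 385105) (nat_lit 50) (.e (nat_lit 786481) (nat_lit 30) (.e (nat_lit 360452) (nat_lit 0) (.e (nat_lit 5907) (nat_lit 320) .nil)))))) (.g (nat_lit 4) .nil .nil))))) (.nd (nat_lit 4) (.nd (nat_lit 5) 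
(.lf (nat_lit 24394) (.g (nat_lit 2232) (.e (nat_lit 1189) (nat_lit 88) (.e (nat_lit 65623) (nat_lit 12) (.e (nat_lit 385094) (nat_lit 49) (.e (nat_lit 778326) (nat_lit 6) (.e (nat_lit 81948) (nat_lit 21) (.e (nat_lit 57870) (nat_lit 264) .nil)))))) (.g (nat_lit 0) .nil .nil))) 
(.lf (nat_lit 24426) (.g (nat_lit 2043) (.e (nat_lit 1189) (nat_lit 88) (.e (nat_lit 65624) (nat_lit 12) (.e (nat_lit 385094) (nat_lit 49) (.e (nat_lit 778327) (nat_lit 6) (.e (nat_lit 81950) (nat_lit 21) (.e (nat_lit 57871) (nat_lit 264) .nil)))))) (.g (nat_lit 4) .nil .nil)))) (.nd (nat_lit 5) 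
(.lf (nat_lit 24410) (.g (nat_lit 2107) (.e (nat_lit 1189) (nat_lit 88) (.e (nat_lit 65624) (nat_lit 12) (.e (nat_lit 385092) (nat_lit 49) (.e (nat_lit 778326) (nat_lit 6) (.e (nat_lit 81950) (nat_lit 21) (.e (nat_lit 57871) (nat_lit 264) .nil)))))) (.g (nat_lit 5) .nil .nil))) 
(.lf (nat_lit 24442) (.g (nat_lit 1894) (.e (nat_lit 1189) (nat_lit 88) (.e (nat_lit 65624) (nat_lit 12) (.e (nat_lit 385106) (nat_lit 50) (.e (nat_lit 786481) (nat_lit 30) (.e (nat_lit 360452) (nat_lit 0) (.e (nat_lit 5907) (nat_lit 320) .nil)))))) (.g (nat_lit 4) .nil .nil)))))) (.nd (nat_lit 3) (.nd (nat_lit 4) (.nd (nat_lit 5) 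
(.lf (nat_lit 24390) (.g (nat_lit 2467) (.e (nat_lit 1189) (nat_lit 88) (.e (nat_lit 65622) (nat_lit 12) (.e (nat_lit 385106) (nat_lit 50) (.e (nat_lit 786483) (nat_lit 30) (.e (nat_lit 360452) (nat_lit 0) (.e (nat_lit 5905) (nat_lit 320) .nil)))))) (.g (nat_lit 4) .nil .nil))) 
(.lf (nat_lit 24422) (.g (nat_lit 2501) (.e (nat_lit 1189) (nat_lit 88) (.e (nat_lit 65624) (nat_lit 12) (.e (nat_lit 385094) (nat_lit 49) (.e (nat_lit 778326) (nat_lit 6) (.e (nat_lit 81950) (nat_lit 21) (.e (nat_lit 57871) (nat_lit 264) .nil)))))) (.g (nat_lit 6) .nil .nil)))) (.nd (nat_lit 5) 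
(.lf (nat_lit 24406) (.g (nat_lit 2299) (.e (nat_lit 1189) (nat_lit 88) (.e (nat_lit 65623) (nat_lit 12) (.e (nat_lit 385106) (nat_lit 50) (.e (nat_lit 786483) (nat_lit 30) (.e (nat_lit 360452) (nat_lit 0) (.e (nat_lit 5905) (nat_lit 320) .nil)))))) (.g (nat_lit 4) .nil .nil))) 
(.lf (nat_lit 24438) (.g (nat_lit 2250) (.e (nat_lit 1189) (nat_lit 88) (.e (nat_lit 65624) (nat_lit 12) (.e (nat_lit 385105) (nat_lit 50) (.e (nat_lit 786483) (nat_lit 30) (.e (nat_lit 360454) (nat_lit 0) .nil))))) .nil)))) (.nd (nat_lit 4) (.nd (nat_lit 5) 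
(.lf (nat_lit 24398) (.g (nat_lit 1957) (.e (nat_lit 1189) (nat_lit 88) (.e (nat_lit 65623) (nat_lit 12) (.e (nat_lit 385094) (nat_lit 49) (.e (nat_lit 778327) (nat_lit 6) (.e (nat_lit 81949) (nat_lit 21) (.e (nat_lit 57870) (nat_lit 264) .nil)))))) (.g (nat_lit 5) .nil .nil))) 
(.lf (nat_lit 24430) (.g (nat_lit 2762) (.e (nat_lit 1189) (nat_lit 88) (.e (nat_lit 65624) (nat_lit 12) (.e (nat_lit 385105) (nat_lit 50) (.e (nat_lit 786478) (nat_lit 29) (.e (nat_lit 352309) (nat_lit 21) (.e (nat_lit 57871) (nat_lit 264) .nil)))))) (.g (nat_lit 5) .nil .nil)))) (.nd (nat_lit 5) 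
(.lf (nat_lit 24414) (.g (nat_lit 2319) (.e (nat_lit 1189) (nat_lit 88) (.e (nat_lit 65624) (nat_lit 12) (.e (nat_lit 385093) (nat_lit 49) (.e (nat_lit 778326) (nat_lit 6) (.e (nat_lit 81948) (nat_lit 21) (.e (nat_lit 57870) (nat_lit 264) .nil)))))) (.g (nat_lit 6) .nil .nil))) 
(.lf (nat_lit 24446) (.g (nat_lit 906) (.e (nat_lit 1189) (nat_lit 88) (.e (nat_lit 65627) (nat_lit 13) (.e (nat_lit 393260) (nat_lit 21) (.e (nat_lit 409646) (nat_lit 18) .nil)))) .nil))))))) (.nd (nat_lit 1) (.nd (nat_lit 2) (.nd (nat_lit 3) (.nd (nat_lit 4) (.nd (nat_lit 5) 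
(.lf (nat_lit 24385) (.g (nat_lit 3403) (.e (nat_lit 1189) (nat_lit 88) (.e (nat_lit 65622) (nat_lit 12) (.e (nat_lit 385105) (nat_lit 50) (.e (nat_lit 786480) (nat_lit 29) (.e (nat_lit 352309) (nat_lit 21) (.e (nat_lit 57870) (nat_lit 264) .nil)))))) (.g (nat_lit 0) .nil .nil))) 
(.lf (nat_lit 24417) (.g (nat_lit 2199) (.e (nat_lit 1189) (nat_lit 88) (.e (nat_lit 65624) (nat_lit 12) (.e (nat_lit 385093) (nat_lit 49) (.e (nat_lit 778326) (nat_lit 6) (.e (nat_lit 81950) (nat_lit 21) (.e (nat_lit 57871) (nat_lit 264) .nil)))))) (.g (nat_lit 5) .nil .nil)))) (.nd (nat_lit 5) 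
(.lf (nat_lit 24401) (.g (nat_lit 1884) (.e (nat_lit 1189) (nat_lit 88) (.e (nat_lit 65623) (nat_lit 12) (.e (nat_lit 385106) (nat_lit 50) (.e (nat_lit 786478) (nat_lit 29) (.e (nat_lit 352309) (nat_lit 21) .nil))))) .nil)) 
(.lf (nat_lit 24433) (.g (nat_lit 3348) (.e (nat_lit 1189) (nat_lit 88) (.e (nat_lit 65624) (nat_lit 12) (.e (nat_lit 385105) (nat_lit 50) (.e (nat_lit 786480) (nat_lit 29) (.e (nat_lit 352309) (nat_lit 21) (.e (nat_lit 57871) (nat_lit 264) .nil)))))) (.g (nat_lit 6) .nil .nil))))) (.nd (nat_lit 4) (.nd (nat_lit 5) 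
(.lf (nat_lit 24393) (.g (nat_lit 945) (.e (nat_lit 1189) (nat_lit 88) (.e (nat_lit 65623) (nat_lit 12) (.e (nat_lit 385093) (nat_lit 49) (.e (nat_lit 778327) (nat_lit 6) .nil)))) .nil)) 
(.lf (nat_lit 24425) (.g (nat_lit 2299) (.e (nat_lit 1189) (nat_lit 88) (.e (nat_lit 65624) (nat_lit 12) (.e (nat_lit 385094) (nat_lit 49) (.e (nat_lit 778327) (nat_lit 6) (.e (nat_lit 81950) (nat_lit 21) (.e (nat_lit 57870) (nat_lit 264) .nil)))))) (.g (nat_lit 5) .nil .nil)))) (.nd (nat_lit 5) 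
(.lf (nat_lit 24409) (.g (nat_lit 1964) (.e (nat_lit 1189) (nat_lit 88) (.e (nat_lit 65624) (nat_lit 12) (.e (nat_lit 385092) (nat_lit 49) (.e (nat_lit 778326) (nat_lit 6) (.e (nat_lit 81948) (nat_lit 21) (.e (nat_lit 57871) (nat_lit 264) .nil)))))) (.g (nat_lit 5) .nil .nil))) 
(.lf (nat_lit 24441) (.g (nat_lit 3385) (.e (nat_lit 1189) (nat_lit 88) (.e (nat_lit 65624) (nat_lit 12) (.e (nat_lit 385106) (nat_lit 50) (.e (nat_lit 786480) (nat_lit 29) (.e (nat_lit 352309) (nat_lit 21) (.e (nat_lit 57871) (nat_lit 264) .nil)))))) (.g (nat_lit 6) .nil .nil)))))) (.nd (nat_lit 3) (.nd (nat_lit 4) (.nd (nat_lit 5) 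
(.lf (nat_lit 24389) (.g (nat_lit 3186) (.e (nat_lit 1189) (nat_lit 88) (.e (nat_lit 65622) (nat_lit 12) (.e (nat_lit 385106) (nat_lit 50) (.e (nat_lit 786480) (nat_lit 29) (.e (nat_lit 352309) (nat_lit 21) (.e (nat_lit 57871) (nat_lit 264) .nil)))))) (.g (nat_lit 6) .nil .nil))) 
(.lf (nat_lit 24421) (.g (nat_lit 1670) (.e (nat_lit 1189) (nat_lit 88) (.e (nat_lit 65624) (nat_lit 12) (.e (nat_lit 385094) (nat_lit 49) (.e (nat_lit 778326) (nat_lit 6) (.e (nat_lit 81948) (nat_lit 21) (.e (nat_lit 57873) (nat_lit 264) .nil)))))) (.g (nat_lit 4) .nil .nil)))) (.nd (nat_lit 5) 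
(.lf (nat_lit 24405) (.g (nat_lit 1868) (.e (nat_lit 1189) (nat_lit 88) (.e (nat_lit 65623) (nat_lit 12) (.e (nat_lit 385106) (nat_lit 50) (.e (nat_lit 786481) (nat_lit 30) (.e (nat_lit 368384) (nat_lit 0) (.e (nat_lit 5905) (nat_lit 320) .nil)))))) (.g (nat_lit 4) .nil .nil))) 
(.lf (nat_lit 24437) (.g (nat_lit 2680) (.e (nat_lit 1189) (nat_lit 88) (.e (nat_lit 65624) (nat_lit 12) (.e (nat_lit 385105) (nat_lit 50) (.e (nat_lit 786483) (nat_lit 30) (.e (nat_lit 360452) (nat_lit 0) (.e (nat_lit 5905) (nat_lit 320) .nil)))))) (.g (nat_lit 4) .nil .nil))))) (.nd (nat_lit 4) (.nd (nat_lit 5) 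
(.lf (nat_lit 24397) (.g (nat_lit 1122) (.e (nat_lit 1189) (nat_lit 88) (.e (nat_lit 65623) (nat_lit 12) (.e (nat_lit 385094) (nat_lit 49) (.e (nat_lit 778327) (nat_lit 6) .nil)))) .nil)) 
(.lf (nat_lit 24429) (.g (nat_lit 2730) (.e (nat_lit 1189) (nat_lit 88) (.e (nat_lit 65624) (nat_lit 12) (.e (nat_lit 385105) (nat_lit 50) (.e (nat_lit 786478) (nat_lit 29) (.e (nat_lit 352309) (nat_lit 21) (.e (nat_lit 57870) (nat_lit 264) .nil)))))) (.g (nat_lit 5) .nil .nil)))) (.nd (nat_lit 5) 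
(.lf (nat_lit 24413) (.g (nat_lit 1734) (.e (nat_lit 1189) (nat_lit 88) (.e (nat_lit 65624) (nat_lit 12) (.e (nat_lit 385093) (nat_lit 49) (.e (nat_lit 778323) (nat_lit 5) (.e (nat_lit 81664) (nat_lit 40) .nil))))) .nil)) 
(.lf (nat_lit 24445) (.g (nat_lit 2615) (.e (nat_lit 1189) (nat_lit 88) (.e (nat_lit 65624) (nat_lit 12) (.e (nat_lit 385106) (nat_lit 50) (.e (nat_lit 786483) (nat_lit 30) (.e (nat_lit 360452) (nat_lit 0) (.e (nat_lit 5905) (nat_lit 320) .nil)))))) (.g (nat_lit 4) .nil .nil))))))) (.nd (nat_lit 2) (.nd (nat_lit 3) (.nd (nat_lit 4) (.nd (nat_lit 5) 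
(.lf (nat_lit 24387) (.g (nat_lit 2403) (.e (nat_lit 1189) (nat_lit 88) (.e (nat_lit 65622) (nat_lit 12) (.e (nat_lit 385105) (nat_lit 50) (.e (nat_lit 786483) (nat_lit 30) (.e (nat_lit 360452) (nat_lit 0) (.e (nat_lit 5905) (nat_lit 320) .nil)))))) (.g (nat_lit 4) .nil .nil))) 
(.lf (nat_lit 24419) (.g (nat_lit 2042) (.e (nat_lit 1189) (nat_lit 88) (.e (nat_lit 65624) (nat_lit 12) (.e (nat_lit 385093) (nat_lit 49) (.e (nat_lit 778327) (nat_lit 6) (.e (nat_lit 81950) (nat_lit 21) (.e (nat_lit 57870) (nat_lit 264) .nil)))))) (.g (nat_lit 4) .nil .nil)))) (.nd (nat_lit 5) 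
(.lf (nat_lit 24403) (.g (nat_lit 3073) (.e (nat_lit 1189) (nat_lit 88) (.e (nat_lit 65623) (nat_lit 12) (.e (nat_lit 385106) (nat_lit 50) (.e (nat_lit 786480) (nat_lit 29) (.e (nat_lit 352309) (nat_lit 21) (.e (nat_lit 57871) (nat_lit 264) .nil)))))) (.g (nat_lit 5) .nil .nil))) 
(.lf (nat_lit 24435) (.g (nat_lit 1708) (.e (nat_lit 1189) (nat_lit 88) (.e (nat_lit 65624) (nat_lit 12) (.e (nat_lit 385105) (nat_lit 50) (.e (nat_lit 786481) (nat_lit 30) (.e (nat_lit 360453) (nat_lit 0) .nil))))) .nil)))) (.nd (nat_lit 4) (.nd (nat_lit 5) 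
(.lf (nat_lit 24395) (.g (nat_lit 1914) (.e (nat_lit 1189) (nat_lit 88) (.e (nat_lit 65623) (nat_lit 12) (.e (nat_lit 385094) (nat_lit 49) (.e (nat_lit 778326) (nat_lit 6) (.e (nat_lit 81948) (nat_lit 21) (.e (nat_lit 57871) (nat_lit 264) .nil)))))) (.g (nat_lit 6) .nil .nil))) 
(.lf (nat_lit 24427) (.g (nat_lit 2373) (.e (nat_lit 1189) (nat_lit 88) (.e (nat_lit 65624) (nat_lit 12) (.e (nat_lit 385104) (nat_lit 50) (.e (nat_lit 786480) (nat_lit 29) (.e (nat_lit 352309) (nat_lit 21) (.e (nat_lit 57870) (nat_lit 264) .nil)))))) (.g (nat_lit 5) .nil .nil)))) (.nd (nat_lit 5) 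
(.lf (nat_lit 24411) (.g (nat_lit 1208) (.e (nat_lit 1189) (nat_lit 88) (.e (nat_lit 65624) (nat_lit 12) (.e (nat_lit 385092) (nat_lit 49) (.e (nat_lit 778327) (nat_lit 6) .nil)))) .nil)) 
(.lf (nat_lit 24443) (.g (nat_lit 1794) (.e (nat_lit 1189) (nat_lit 88) (.e (nat_lit 65624) (nat_lit 12) (.e (nat_lit 385106) (nat_lit 50) (.e (nat_lit 786481) (nat_lit 30) (.e (nat_lit 360453) (nat_lit 0) .nil))))) .nil))))) (.nd (nat_lit 3) (.nd (nat_lit 4) (.nd (nat_lit 5) 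
(.lf (nat_lit 24391) (.g (nat_lit 1450) (.e (nat_lit 1189) (nat_lit 88) (.e (nat_lit 65623) (nat_lit 12) (.e (nat_lit 385093) (nat_lit 49) (.e (nat_lit 778326) (nat_lit 6) (.e (nat_lit 81948) (nat_lit 21) (.e (nat_lit 57870) (nat_lit 264) .nil)))))) (.g (nat_lit 4) .nil .nil))) 
(.lf (nat_lit 24423) (.g (nat_lit 1776) (.e (nat_lit 1189) (nat_lit 88) (.e (nat_lit 65624) (nat_lit 12) (.e (nat_lit 385094) (nat_lit 49) (.e (nat_lit 778326) (nat_lit 6) (.e (nat_lit 81950) (nat_lit 21) (.e (nat_lit 57873) (nat_lit 264) .nil)))))) (.g (nat_lit 4) .nil .nil)))) (.nd (nat_lit 5) 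
(.lf (nat_lit 24407) (.g (nat_lit 2120) (.e (nat_lit 1189) (nat_lit 88) (.e (nat_lit 65623) (nat_lit 12) (.e (nat_lit 385106) (nat_lit 50) (.e (nat_lit 786483) (nat_lit 30) (.e (nat_lit 368384) (nat_lit 0) (.e (nat_lit 5902) (nat_lit 320) .nil)))))) (.g (nat_lit 4) .nil .nil))) 
(.lf (nat_lit 24439) (.g (nat_lit 2477) (.e (nat_lit 1189) (nat_lit 88) (.e (nat_lit 65624) (nat_lit 12) (.e (nat_lit 385105) (nat_lit 50) (.e (nat_lit 786483) (nat_lit 30) (.e (nat_lit 368384) (nat_lit 0) (.e (nat_lit 5902) (nat_lit 320) .nil)))))) (.g (nat_lit 4) .nil .nil))))) (.nd (nat_lit 4) (.nd (nat_lit 5) 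
(.lf (nat_lit 24399) (.g (nat_lit 1507) (.e (nat_lit 1189) (nat_lit 88) (.e (nat_lit 65623) (nat_lit 12) (.e (nat_lit 385094) (nat_lit 49) (.e (nat_lit 778327) (nat_lit 6) (.e (nat_lit 81950) (nat_lit 21) .nil))))) .nil)) 
(.lf (nat_lit 24431) (.g (nat_lit 1415) (.e (nat_lit 1189) (nat_lit 88) (.e (nat_lit 65624) (nat_lit 12) (.e (nat_lit 385105) (nat_lit 50) (.e (nat_lit 786479) (nat_lit 29) .nil)))) .nil))) (.nd (nat_lit 5) 
(.lf (nat_lit 24415) (.g (nat_lit 2067) (.e (nat_lit 1189) (nat_lit 88) (.e (nat_lit 65624) (nat_lit 12) (.e (nat_lit 385093) (nat_lit 49) (.e (nat_lit 778326) (nat_lit 6) (.e (nat_lit 81948) (nat_lit 21) (.e (nat_lit 57871) (nat_lit 264) .nil)))))) (.g (nat_lit 5) .nil .nil))) 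
(.lf (nat_lit 24447) (.g (nat_lit 2451) (.e (nat_lit 1189) (nat_lit 88) (.e (nat_lit 65628) (nat_lit 14) (.e (nat_lit 401436) (nat_lit 9) (.e (nat_lit 426542) (nat_lit 29) (.e (nat_lit 352309) (nat_lit 21) (.e (nat_lit 57871) (nat_lit 264) .nil)))))) (.g (nat_lit 0) .nil .nil)))))))))

noncomputable def tv345 : DT := (.nd (nat_lit 0) (.nd (nat_lit 1) (.nd (nat_lit 2) (.nd (nat_lit 3) (.nd (nat_lit 4) (.nd (nat_lit 5) 
(.lf (nat_lit 24448) (.g (nat_lit 1280) (.e (nat_lit 1189) (nat_lit 88) (.e (nat_lit 65628) (nat_lit 14) (.e (nat_lit 401436) (nat_lit 9) (.e (nat_lit 426544) (nat_lit 30) (.e (nat_lit 368384) (nat_lit 0) (.e (nat_lit 5902) (nat_lit 320) .nil)))))) (.g (nat_lit 4) .nil .nil))) 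
(.lf (nat_lit 24480) (.g (nat_lit 1692) (.e (nat_lit 1189) (nat_lit 88) (.e (nat_lit 65628) (nat_lit 14) (.e (nat_lit 401457) (nat_lit 13) (.e (nat_lit 483389) (nat_lit 23) (.e (nat_lit 335997) (nat_lit 1) (.e (nat_lit 57871) (nat_lit 264) .nil)))))) (.g (nat_lit 4) .nil .nil)))) (.nd (nat_lit 5) 
(.lf (nat_lit 24464) (.g (nat_lit 3165) (.e (nat_lit 1189) (nat_lit 88) (.e (nat_lit 65628) (nat_lit 14) (.e (nat_lit 401437) (nat_lit 9) (.e (nat_lit 426555) (nat_lit 32) (.e (nat_lit 376860) (nat_lit 21) (.e (nat_lit 57870) (nat_lit 264) .nil)))))) (.g (nat_lit 6) .nil .nil))) 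
(.lf (nat_lit 24496) (.g (nat_lit 2007) (.e (nat_lit 1189) (nat_lit 88) (.e (nat_lit 65628) (nat_lit 14) (.e (nat_lit 401458) (nat_lit 13) (.e (nat_lit 483389) (nat_lit 23) (.e (nat_lit 335997) (nat_lit 1) (.e (nat_lit 57870) (nat_lit 264) .nil)))))) (.g (nat_lit 5) .nil .nil))))) (.nd (nat_lit 4) (.nd (nat_lit 5) 
(.lf (nat_lit 24456) (.g (nat_lit 3124) (.e (nat_lit 1189) (nat_lit 88) (.e (nat_lit 65628) (nat_lit 14) (.e (nat_lit 401437) (nat_lit 9) (.e (nat_lit 426542) (nat_lit 29) (.e (nat_lit 352309) (nat_lit 21) (.e (nat_lit 57871) (nat_lit 264) .nil)))))) (.g (nat_lit 0) .nil .nil))) 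
(.lf (nat_lit 24488) (.g (nat_lit 1950) (.e (nat_lit 1189) (nat_lit 88) (.e (nat_lit 65628) (nat_lit 14) (.e (nat_lit 401457) (nat_lit 13) (.e (nat_lit 483395) (nat_lit 24) (.e (nat_lit 344097) (nat_lit 18) (.e (nat_lit 5907) (nat_lit 320) .nil)))))) (.g (nat_lit 4) .nil .nil)))) (.nd (nat_lit 5) 
(.lf (nat_lit 24472) (.g (nat_lit 3218) (.e (nat_lit 1189) (nat_lit 88) (.e (nat_lit 65628) (nat_lit 14) (.e (nat_lit 401438) (nat_lit 9) (.e (nat_lit 426555) (nat_lit 32) (.e (nat_lit 376860) (nat_lit 21) (.e (nat_lit 57870) (nat_lit 264) .nil)))))) (.g (nat_lit 6) .nil .nil))) 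
(.lf (nat_lit 24504) (.g (nat_lit 3158) (.e (nat_lit 1189) (nat_lit 88) (.e (nat_lit 65628) (nat_lit 14) (.e (nat_lit 401458) (nat_lit 13) (.e (nat_lit 483393) (nat_lit 23) (.e (nat_lit 335996) (nat_lit 1) (.e (nat_lit 57870) (nat_lit 264) .nil)))))) (.g (nat_lit 6) .nil .nil)))))) (.nd (nat_lit 3) (.nd (nat_lit 4) (.nd (nat_lit 5) 
(.lf (nat_lit 24452) (.g (nat_lit 410) (.e (nat_lit 1189) (nat_lit 88) (.e (nat_lit 65628) (nat_lit 14) (.e (nat_lit 401437) (nat_lit 9) .nil))) .nil)) 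
(.lf (nat_lit 24484) (.g (nat_lit 1869) (.e (nat_lit 1189) (nat_lit 88) (.e (nat_lit 65628) (nat_lit 14) (.e (nat_lit 401457) (nat_lit 13) (.e (nat_lit 483393) (nat_lit 23) (.e (nat_lit 335986) (nat_lit 1) (.e (nat_lit 57873) (nat_lit 264) .nil)))))) (.g (nat_lit 4) .nil .nil)))) (.nd (nat_lit 5) 
(.lf (nat_lit 24468) (.g (nat_lit 1776) (.e (nat_lit 1189) (nat_lit 88) (.e (nat_lit 65628) (nat_lit 14) (.e (nat_lit 401438) (nat_lit 9) (.e (nat_lit 426544) (nat_lit 30) (.e (nat_lit 368384) (nat_lit 0) (.e (nat_lit 5902) (nat_lit 320) .nil)))))) (.g (nat_lit 4) .nil .nil))) 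
(.lf (nat_lit 24500) (.g (nat_lit 1663) (.e (nat_lit 1189) (nat_lit 88) (.e (nat_lit 65628) (nat_lit 14) (.e (nat_lit 401458) (nat_lit 13) (.e (nat_lit 483393) (nat_lit 23) (.e (nat_lit 335986) (nat_lit 1) (.e (nat_lit 57873) (nat_lit 264) .nil)))))) (.g (nat_lit 4) .nil .nil))))) (.nd (nat_lit 4) (.nd (nat_lit 5) 
(.lf (nat_lit 24460) (.g (nat_lit 3213) (.e (nat_lit 1189) (nat_lit 88) (.e (nat_lit 65628) (nat_lit 14) (.e (nat_lit 401437) (nat_lit 9) (.e (nat_lit 426546) (nat_lit 30) (.e (nat_lit 360452) (nat_lit 0) (.e (nat_lit 5905) (nat_lit 320) .nil)))))) (.g (nat_lit 0) .nil .nil))) 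
(.lf (nat_lit 24492) (.g (nat_lit 2386) (.e (nat_lit 1189) (nat_lit 88) (.e (nat_lit 65628) (nat_lit 14) (.e (nat_lit 401458) (nat_lit 13) (.e (nat_lit 483383) (nat_lit 23) (.e (nat_lit 336000) (nat_lit 1) (.e (nat_lit 57873) (nat_lit 264) .nil)))))) (.g (nat_lit 5) .nil .nil)))) (.nd (nat_lit 5) 
(.lf (nat_lit 24476) (.g (nat_lit 2204) (.e (nat_lit 1189) (nat_lit 88) (.e (nat_lit 65628) (nat_lit 14) (.e (nat_lit 401456) (nat_lit 13) (.e (nat_lit 483395) (nat_lit 24) (.e (nat_lit 344097) (nat_lit 18) (.e (nat_lit 5905) (nat_lit 320) .nil)))))) (.g (nat_lit 4) .nil .nil))) 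
(.lf (nat_lit 24508) (.g (nat_lit 2994) (.e (nat_lit 1189) (nat_lit 88) (.e (nat_lit 65628) (nat_lit 14) (.e (nat_lit 401458) (nat_lit 13) (.e (nat_lit 483395) (nat_lit 24) (.e (nat_lit 344097) (nat_lit 18) (.e (nat_lit 5905) (nat_lit 320) .nil)))))) (.g (nat_lit 0) .nil .nil))))))) (.nd (nat_lit 2) (.nd (nat_lit 3) (.nd (nat_lit 4) (.nd (nat_lit 5) 
(.lf (nat_lit 24450) (.g (nat_lit 1190) (.e (nat_lit 1189) (nat_lit 88) (.e (nat_lit 65628) (nat_lit 14) (.e (nat_lit 401436) (nat_lit 9) (.e (nat_lit 426546) (nat_lit 30) (.e (nat_lit 368384) (nat_lit 0) (.e (nat_lit 5902) (nat_lit 320) .nil)))))) (.g (nat_lit 4) .nil .nil))) 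
(.lf (nat_lit 24482) (.g (nat_lit 1941) (.e (nat_lit 1189) (nat_lit 88) (.e (nat_lit 65628) (nat_lit 14) (.e (nat_lit 401457) (nat_lit 13) (.e (nat_lit 483393) (nat_lit 23) (.e (nat_lit 335986) (nat_lit 1) (.e (nat_lit 57870) (nat_lit 264) .nil)))))) (.g (nat_lit 4) .nil .nil)))) (.nd (nat_lit 5) 
(.lf (nat_lit 24466) (.g (nat_lit 2952) (.e (nat_lit 1189) (nat_lit 88) (.e (nat_lit 65628) (nat_lit 14) (.e (nat_lit 401438) (nat_lit 9) (.e (nat_lit 426542) (nat_lit 29) (.e (nat_lit 352309) (nat_lit 21) (.e (nat_lit 57871) (nat_lit 264) .nil)))))) (.g (nat_lit 0) .nil .nil))) 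
(.lf (nat_lit 24498) (.g (nat_lit 1699) (.e (nat_lit 1189) (nat_lit 88) (.e (nat_lit 65628) (nat_lit 14) (.e (nat_lit 401458) (nat_lit 13) (.e (nat_lit 483393) (nat_lit 23) (.e (nat_lit 335986) (nat_lit 1) (.e (nat_lit 57870) (nat_lit 264) .nil)))))) (.g (nat_lit 4) .nil .nil))))) (.nd (nat_lit 4) (.nd (nat_lit 5) 
(.lf (nat_lit 24458) (.g (nat_lit 2506) (.e (nat_lit 1189) (nat_lit 88) (.e (nat_lit 65628) (nat_lit 14) (.e (nat_lit 401437) (nat_lit 9) (.e (nat_lit 426544) (nat_lit 30) (.e (nat_lit 360452) (nat_lit 0) .nil))))) .nil)) 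
(.lf (nat_lit 24490) (.g (nat_lit 1761) (.e (nat_lit 1189) (nat_lit 88) (.e (nat_lit 65628) (nat_lit 14) (.e (nat_lit 401458) (nat_lit 13) (.e (nat_lit 483383) (nat_lit 23) (.e (nat_lit 335878) (nat_lit 0) .nil))))) .nil))) (.nd (nat_lit 5) 
(.lf (nat_lit 24474) (.g (nat_lit 2466) (.e (nat_lit 1189) (nat_lit 88) (.e (nat_lit 65628) (nat_lit 14) (.e (nat_lit 401454) (nat_lit 12) (.e (nat_lit 475154) (nat_lit 20) .nil)))) .nil)) 
(.lf (nat_lit 24506) (.g (nat_lit 3148) (.e (nat_lit 1189) (nat_lit 88) (.e (nat_lit 65628) (nat_lit 14) (.e (nat_lit 401458) (nat_lit 13) (.e (nat_lit 483394) (nat_lit 24) (.e (nat_lit 344097) (nat_lit 18) (.e (nat_lit 5905) (nat_lit 320) .nil)))))) (.g (nat_lit 0) .nil .nil)))))) (.nd (nat_lit 3) (.nd (nat_lit 4) (.nd (nat_lit 5) 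
(.lf (nat_lit 24454) (.g (nat_lit 905) (.e (nat_lit 1189) (nat_lit 88) (.e (nat_lit 65628) (nat_lit 14) (.e (nat_lit 401437) (nat_lit 9) (.e (nat_lit 426509) (nat_lit 27) .nil)))) .nil)) 
(.lf (nat_lit 24486) (.g (nat_lit 2908) (.e (nat_lit 1189) (nat_lit 88) (.e (nat_lit 65628) (nat_lit 14) (.e (nat_lit 401457) (nat_lit 13) (.e (nat_lit 483393) (nat_lit 23) (.e (nat_lit 335988) (nat_lit 1) (.e (nat_lit 57870) (nat_lit 264) .nil)))))) (.g (nat_lit 5) .nil .nil)))) (.nd (nat_lit 5) 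
(.lf (nat_lit 24470) (.g (nat_lit 1610) (.e (nat_lit 1189) (nat_lit 88) (.e (nat_lit 65628) (nat_lit 14) (.e (nat_lit 401438) (nat_lit 9) (.e (nat_lit 426546) (nat_lit 30) (.e (nat_lit 368384) (nat_lit 0) (.e (nat_lit 5902) (nat_lit 320) .nil)))))) (.g (nat_lit 4) .nil .nil))) 
(.lf (nat_lit 24502) (.g (nat_lit 2800) (.e (nat_lit 1189) (nat_lit 88) (.e (nat_lit 65628) (nat_lit 14) (.e (nat_lit 401458) (nat_lit 13) (.e (nat_lit 483393) (nat_lit 23) (.e (nat_lit 335988) (nat_lit 1) (.e (nat_lit 57870) (nat_lit 264) .nil)))))) (.g (nat_lit 6) .nil .nil))))) (.nd (nat_lit 4) (.nd (nat_lit 5) 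
(.lf (nat_lit 24462) (.g (nat_lit 3410) (.e (nat_lit 1189) (nat_lit 88) (.e (nat_lit 65628) (nat_lit 14) (.e (nat_lit 401437) (nat_lit 9) (.e (nat_lit 426555) (nat_lit 32) (.e (nat_lit 376857) (nat_lit 21) (.e (nat_lit 57870) (nat_lit 264) .nil)))))) (.g (nat_lit 0) .nil .nil))) 
(.lf (nat_lit 24494) (.g (nat_lit 2389) (.e (nat_lit 1189) (nat_lit 88) (.e (nat_lit 65628) (nat_lit 14) (.e (nat_lit 401458) (nat_lit 13) (.e (nat_lit 483387) (nat_lit 23) (.e (nat_lit 335997) (nat_lit 1) (.e (nat_lit 57871) (nat_lit 264) .nil)))))) (.g (nat_lit 6) .nil .nil)))) (.nd (nat_lit 5) 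
(.lf (nat_lit 24478) (.g (nat_lit 1873) (.e (nat_lit 1189) (nat_lit 88) (.e (nat_lit 65628) (nat_lit 14) (.e (nat_lit 401457) (nat_lit 13) (.e (nat_lit 483383) (nat_lit 23) (.e (nat_lit 336000) (nat_lit 1) .nil))))) .nil)) 
(.lf (nat_lit 24510) (.g (nat_lit 1190) (.e (nat_lit 1189) (nat_lit 88) (.e (nat_lit 65628) (nat_lit 14) (.e (nat_lit 401458) (nat_lit 13) (.e (nat_lit 483396) (nat_lit 24) .nil)))) .nil))))))) (.nd (nat_lit 1) (.nd (nat_lit 2) (.nd (nat_lit 3) (.nd (nat_lit 4) (.nd (nat_lit 5) 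
(.lf (nat_lit 24449) (.g (nat_lit 2250) (.e (nat_lit 1189) (nat_lit 88) (.e (nat_lit 65628) (nat_lit 14) (.e (nat_lit 401436) (nat_lit 9) (.e (nat_lit 426546) (nat_lit 30) (.e (nat_lit 360452) (nat_lit 0) (.e (nat_lit 5905) (nat_lit 320) .nil)))))) (.g (nat_lit 6) .nil .nil))) 
(.lf (nat_lit 24481) (.g (nat_lit 1784) (.e (nat_lit 1189) (nat_lit 88) (.e (nat_lit 65628) (nat_lit 14) (.e (nat_lit 401457) (nat_lit 13) (.e (nat_lit 483391) (nat_lit 23) (.e (nat_lit 335998) (nat_lit 1) (.e (nat_lit 57873) (nat_lit 264) .nil)))))) (.g (nat_lit 4) .nil .nil)))) (.nd (nat_lit 5) 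
(.lf (nat_lit 24465) (.g (nat_lit 1775) (.e (nat_lit 1189) (nat_lit 88) (.e (nat_lit 65628) (nat_lit 14) (.e (nat_lit 401437) (nat_lit 9) (.e (nat_lit 426556) (nat_lit 32) .nil)))) .nil)) 
(.lf (nat_lit 24497) (.g (nat_lit 1145) (.e (nat_lit 1189) (nat_lit 88) (.e (nat_lit 65628) (nat_lit 14) (.e (nat_lit 401458) (nat_lit 13) (.e (nat_lit 483393) (nat_lit 23) .nil)))) .nil)))) (.nd (nat_lit 4) (.nd (nat_lit 5) 
(.lf (nat_lit 24457) (.g (nat_lit 1380) (.e (nat_lit 1189) (nat_lit 88) (.e (nat_lit 65628) (nat_lit 14) (.e (nat_lit 401437) (nat_lit 9) (.e (nat_lit 426544) (nat_lit 30) .nil)))) .nil)) 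
(.lf (nat_lit 24489) (.g (nat_lit 2449) (.e (nat_lit 1189) (nat_lit 88) (.e (nat_lit 65628) (nat_lit 14) (.e (nat_lit 401458) (nat_lit 13) (.e (nat_lit 483378) (nat_lit 23) (.e (nat_lit 335997) (nat_lit 1) (.e (nat_lit 57871) (nat_lit 264) .nil)))))) (.g (nat_lit 0) .nil .nil)))) (.nd (nat_lit 5) 
(.lf (nat_lit 24473) (.g (nat_lit 1309) (.e (nat_lit 1189) (nat_lit 88) (.e (nat_lit 65628) (nat_lit 14) (.e (nat_lit 401454) (nat_lit 12) (.e (nat_lit 483072) (nat_lit 13) .nil)))) .nil)) 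
(.lf (nat_lit 24505) (.g (nat_lit 1280) (.e (nat_lit 1189) (nat_lit 88) (.e (nat_lit 65628) (nat_lit 14) (.e (nat_lit 401458) (nat_lit 13) (.e (nat_lit 491264) (nat_lit 23) .nil)))) .nil))))) (.nd (nat_lit 3) (.nd (nat_lit 4) (.nd (nat_lit 5) 
(.lf (nat_lit 24453) (.g (nat_lit 1914) (.e (nat_lit 1189) (nat_lit 88) (.e (nat_lit 65628) (nat_lit 14) (.e (nat_lit 401437) (nat_lit 9) (.e (nat_lit 426489) (nat_lit 27) .nil)))) .nil)) 
(.lf (nat_lit 24485) (.g (nat_lit 2341) (.e (nat_lit 1189) (nat_lit 88) (.e (nat_lit 65628) (nat_lit 14) (.e (nat_lit 401457) (nat_lit 13) (.e (nat_lit 483393) (nat_lit 23) (.e (nat_lit 335987) (nat_lit 1) (.e (nat_lit 57870) (nat_lit 264) .nil)))))) (.g (nat_lit 5) .nil .nil)))) (.nd (nat_lit 5) 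
(.lf (nat_lit 24469) (.g (nat_lit 2717) (.e (nat_lit 1189) (nat_lit 88) (.e (nat_lit 65628) (nat_lit 14) (.e (nat_lit 401438) (nat_lit 9) (.e (nat_lit 426546) (nat_lit 30) (.e (nat_lit 360452) (nat_lit 0) (.e (nat_lit 5905) (nat_lit 320) .nil)))))) (.g (nat_lit 0) .nil .nil))) 
(.lf (nat_lit 24501) (.g (nat_lit 2256) (.e (nat_lit 1189) (nat_lit 88) (.e (nat_lit 65628) (nat_lit 14) (.e (nat_lit 401458) (nat_lit 13) (.e (nat_lit 483393) (nat_lit 23) (.e (nat_lit 335987) (nat_lit 1) (.e (nat_lit 57870) (nat_lit 264) .nil)))))) (.g (nat_lit 6) .nil .nil))))) (.nd (nat_lit 4) (.nd (nat_lit 5) 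
(.lf (nat_lit 24461) (.g (nat_lit 2358) (.e (nat_lit 1189) (nat_lit 88) (.e (nat_lit 65628) (nat_lit 14) (.e (nat_lit 401437) (nat_lit 9) (.e (nat_lit 426546) (nat_lit 30) (.e (nat_lit 360452) (nat_lit 0) (.e (nat_lit 5907) (nat_lit 320) .nil)))))) (.g (nat_lit 5) .nil .nil))) 
(.lf (nat_lit 24493) (.g (nat_lit 2463) (.e (nat_lit 1189) (nat_lit 88) (.e (nat_lit 65628) (nat_lit 14) (.e (nat_lit 401458) (nat_lit 13) (.e (nat_lit 483387) (nat_lit 23) (.e (nat_lit 335997) (nat_lit 1) (.e (nat_lit 57870) (nat_lit 264) .nil)))))) (.g (nat_lit 6) .nil .nil)))) (.nd (nat_lit 5) 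
(.lf (nat_lit 24477) (.g (nat_lit 2649) (.e (nat_lit 1189) (nat_lit 88) (.e (nat_lit 65628) (nat_lit 14) (.e (nat_lit 401457) (nat_lit 13) (.e (nat_lit 483378) (nat_lit 23) (.e (nat_lit 335997) (nat_lit 1) (.e (nat_lit 57871) (nat_lit 264) .nil)))))) (.g (nat_lit 6) .nil .nil))) 
(.lf (nat_lit 24509) (.g (nat_lit 1818) (.e (nat_lit 1189) (nat_lit 88) (.e (nat_lit 65628) (nat_lit 14) (.e (nat_lit 401458) (nat_lit 13) (.e (nat_lit 483395) (nat_lit 24) (.e (nat_lit 344097) (nat_lit 18) (.e (nat_lit 5907) (nat_lit 320) .nil)))))) (.g (nat_lit 4) .nil .nil))))))) (.nd (nat_lit 2) (.nd (nat_lit 3) (.nd (nat_lit 4) (.nd (nat_lit 5) 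
(.lf (nat_lit 24451) (.g (nat_lit 2700) (.e (nat_lit 1189) (nat_lit 88) (.e (nat_lit 65628) (nat_lit 14) (.e (nat_lit 401436) (nat_lit 9) (.e (nat_lit 426555) (nat_lit 32) (.e (nat_lit 376860) (nat_lit 21) (.e (nat_lit 57870) (nat_lit 264) .nil)))))) (.g (nat_lit 6) .nil .nil))) 
(.lf (nat_lit 24483) (.g (nat_lit 2621) (.e (nat_lit 1189) (nat_lit 88) (.e (nat_lit 65628) (nat_lit 14) (.e (nat_lit 401457) (nat_lit 13) (.e (nat_lit 483393) (nat_lit 23) (.e (nat_lit 335986) (nat_lit 1) (.e (nat_lit 57871) (nat_lit 264) .nil)))))) (.g (nat_lit 5) .nil .nil)))) (.nd (nat_lit 5) 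
(.lf (nat_lit 24467) (.g (nat_lit 1542) (.e (nat_lit 1189) (nat_lit 88) (.e (nat_lit 65628) (nat_lit 14) (.e (nat_lit 401438) (nat_lit 9) (.e (nat_lit 426544) (nat_lit 30) (.e (nat_lit 360453) (nat_lit 0) (.e (nat_lit 5905) (nat_lit 320) .nil)))))) (.g (nat_lit 4) .nil .nil))) 
(.lf (nat_lit 24499) (.g (nat_lit 2423) (.e (nat_lit 1189) (nat_lit 88) (.e (nat_lit 65628) (nat_lit 14) (.e (nat_lit 401458) (nat_lit 13) (.e (nat_lit 483393) (nat_lit 23) (.e (nat_lit 335986) (nat_lit 1) (.e (nat_lit 57871) (nat_lit 264) .nil)))))) (.g (nat_lit 5) .nil .nil))))) (.nd (nat_lit 4) (.nd (nat_lit 5) 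
(.lf (nat_lit 24459) (.g (nat_lit 2653) (.e (nat_lit 1189) (nat_lit 88) (.e (nat_lit 65628) (nat_lit 14) (.e (nat_lit 401437) (nat_lit 9) (.e (nat_lit 426544) (nat_lit 30) (.e (nat_lit 360453) (nat_lit 0) (.e (nat_lit 5907) (nat_lit 320) .nil)))))) (.g (nat_lit 5) .nil .nil))) 
(.lf (nat_lit 24491) (.g (nat_lit 2715) (.e (nat_lit 1189) (nat_lit 88) (.e (nat_lit 65628) (nat_lit 14) (.e (nat_lit 401458) (nat_lit 13) (.e (nat_lit 483383) (nat_lit 23) (.e (nat_lit 336000) (nat_lit 1) (.e (nat_lit 57871) (nat_lit 264) .nil)))))) (.g (nat_lit 6) .nil .nil)))) (.nd (nat_lit 5) 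
(.lf (nat_lit 24475) (.g (nat_lit 2319) (.e (nat_lit 1189) (nat_lit 88) (.e (nat_lit 65628) (nat_lit 14) (.e (nat_lit 401456) (nat_lit 13) (.e (nat_lit 483378) (nat_lit 23) (.e (nat_lit 335997) (nat_lit 1) .nil))))) .nil)) 
(.lf (nat_lit 24507) (.g (nat_lit 1129) (.e (nat_lit 1189) (nat_lit 88) (.e (nat_lit 65628) (nat_lit 14) (.e (nat_lit 401458) (nat_lit 13) (.e (nat_lit 483395) (nat_lit 24) .nil)))) .nil))))) (.nd (nat_lit 3) (.nd (nat_lit 4) (.nd (nat_lit 5) 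
(.lf (nat_lit 24455) (.g (nat_lit 1969) (.e (nat_lit 1189) (nat_lit 88) (.e (nat_lit 65628) (nat_lit 14) (.e (nat_lit 401437) (nat_lit 9) (.e (nat_lit 426538) (nat_lit 29) (.e (nat_lit 352309) (nat_lit 21) .nil))))) .nil)) 
(.lf (nat_lit 24487) (.g (nat_lit 3114) (.e (nat_lit 1189) (nat_lit 88) (.e (nat_lit 65628) (nat_lit 14) (.e (nat_lit 401457) (nat_lit 13) (.e (nat_lit 483395) (nat_lit 24) (.e (nat_lit 344097) (nat_lit 18) (.e (nat_lit 5905) (nat_lit 320) .nil)))))) (.g (nat_lit 0) .nil .nil)))) (.nd (nat_lit 5) 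
(.lf (nat_lit 24471) (.g (nat_lit 3419) (.e (nat_lit 1189) (nat_lit 88) (.e (nat_lit 65628) (nat_lit 14) (.e (nat_lit 401438) (nat_lit 9) (.e (nat_lit 426555) (nat_lit 32) (.e (nat_lit 376857) (nat_lit 21) (.e (nat_lit 57870) (nat_lit 264) .nil)))))) (.g (nat_lit 6) .nil .nil))) 
(.lf (nat_lit 24503) (.g (nat_lit 2587) (.e (nat_lit 1189) (nat_lit 88) (.e (nat_lit 65628) (nat_lit 14) (.e (nat_lit 401458) (nat_lit 13) (.e (nat_lit 483393) (nat_lit 23) (.e (nat_lit 335995) (nat_lit 1) (.e (nat_lit 57870) (nat_lit 264) .nil)))))) (.g (nat_lit 5) .nil .nil))))) (.nd (nat_lit 4) (.nd (nat_lit 5) 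
(.lf (nat_lit 24463) (.g (nat_lit 3257) (.e (nat_lit 1189) (nat_lit 88) (.e (nat_lit 65628) (nat_lit 14) (.e (nat_lit 401437) (nat_lit 9) (.e (nat_lit 426555) (nat_lit 32) (.e (nat_lit 376859) (nat_lit 21) (.e (nat_lit 57870) (nat_lit 264) .nil)))))) (.g (nat_lit 0) .nil .nil))) 
(.lf (nat_lit 24495) (.g (nat_lit 1239) (.e (nat_lit 1189) (nat_lit 88) (.e (nat_lit 65628) (nat_lit 14) (.e (nat_lit 401458) (nat_lit 13) (.e (nat_lit 483389) (nat_lit 23) .nil)))) .nil))) (.nd (nat_lit 5) 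
(.lf (nat_lit 24479) (.g (nat_lit 1391) (.e (nat_lit 1189) (nat_lit 88) (.e (nat_lit 65628) (nat_lit 14) (.e (nat_lit 401457) (nat_lit 13) (.e (nat_lit 483389) (nat_lit 23) .nil)))) .nil)) 
(.lf (nat_lit 24511) (.g (nat_lit 2168) (.e (nat_lit 1189) (nat_lit 88) (.e (nat_lit 65628) (nat_lit 14) (.e (nat_lit 401458) (nat_lit 13) (.e (nat_lit 483396) (nat_lit 24) (.e (nat_lit 344093) (nat_lit 18) (.e (nat_lit 5861) (nat_lit 320) .nil)))))) (.g (nat_lit 4) .nil .nil)))))))))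

noncomputable def tv346 : DT := (.nd (nat_lit 0) (.nd (nat_lit 1) (.nd (nat_lit 2) (.nd (nat_lit 3) (.nd (nat_lit 4) (.nd (nat_lit 5) 
(.lf (nat_lit 24512) (.g (nat_lit 2299) (.e (nat_lit 1189) (nat_lit 88) (.e (nat_lit 65628) (nat_lit 14) (.e (nat_lit 401458) (nat_lit 13) (.e (nat_lit 483396) (nat_lit 24) (.e (nat_lit 344093) (nat_lit 18) (.e (nat_lit 5904) (nat_lit 320) .nil)))))) (.g (nat_lit 5) .nil .nil))) 
(.lf (nat_lit 24544) (.g (nat_lit 1217) (.e (nat_lit 1189) (nat_lit 88) (.e (nat_lit 65628) (nat_lit 14) (.e (nat_lit 401459) (nat_lit 13) (.e (nat_lit 483386) (nat_lit 23) .nil)))) .nil))) (.nd (nat_lit 5) 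
(.lf (nat_lit 24528) (.g (nat_lit 2347) (.e (nat_lit 1189) (nat_lit 88) (.e (nat_lit 65628) (nat_lit 14) (.e (nat_lit 401459) (nat_lit 13) (.e (nat_lit 483347) (nat_lit 17) (.e (nat_lit 7936) (nat_lit 346) (.e (nat_lit 57354) (nat_lit 0) (.e (nat_lit 5905) (nat_lit 320) .nil))))))) (.g (nat_lit 4) .nil .nil))) 
(.lf (nat_lit 24560) (.g (nat_lit 1184) (.e (nat_lit 1189) (nat_lit 88) (.e (nat_lit 65628) (nat_lit 14) (.e (nat_lit 401459) (nat_lit 13) (.e (nat_lit 483394) (nat_lit 24) .nil)))) .nil)))) (.nd (nat_lit 4) (.nd (nat_lit 5) 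
(.lf (nat_lit 24520) (.g (nat_lit 2404) (.e (nat_lit 1189) (nat_lit 88) (.e (nat_lit 65628) (nat_lit 14) (.e (nat_lit 401459) (nat_lit 13) (.e (nat_lit 483344) (nat_lit 17) (.e (nat_lit 6479) (nat_lit 343) (.e (nat_lit 1181) (nat_lit 87) (.e (nat_lit 57870) (nat_lit 264) .nil))))))) (.g (nat_lit 4) .nil .nil))) 
(.lf (nat_lit 24552) (.g (nat_lit 2006) (.e (nat_lit 1189) (nat_lit 88) (.e (nat_lit 65628) (nat_lit 14) (.e (nat_lit 401459) (nat_lit 13) (.e (nat_lit 483389) (nat_lit 23) .nil)))) .nil))) (.nd (nat_lit 5) 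
(.lf (nat_lit 24536) (.g (nat_lit 2214) (.e (nat_lit 1189) (nat_lit 88) (.e (nat_lit 65628) (nat_lit 14) (.e (nat_lit 401459) (nat_lit 13) (.e (nat_lit 483374) (nat_lit 22) (.e (nat_lit 327684) (nat_lit 0) .nil))))) .nil)) 
(.lf (nat_lit 24568) (.g (nat_lit 2815) (.e (nat_lit 1189) (nat_lit 88) (.e (nat_lit 65628) (nat_lit 14) (.e (nat_lit 401459) (nat_lit 13) (.e (nat_lit 483396) (nat_lit 24) (.e (nat_lit 344097) (nat_lit 18) .nil))))) .nil))))) (.nd (nat_lit 3) (.nd (nat_lit 4) (.nd (nat_lit 5) 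
(.lf (nat_lit 24516) (.g (nat_lit 1584) (.e (nat_lit 1189) (nat_lit 88) (.e (nat_lit 65628) (nat_lit 14) (.e (nat_lit 401459) (nat_lit 13) (.e (nat_lit 483343) (nat_lit 17) .nil)))) .nil)) 
(.lf (nat_lit 24548) (.g (nat_lit 2405) (.e (nat_lit 1189) (nat_lit 88) (.e (nat_lit 65628) (nat_lit 14) (.e (nat_lit 401459) (nat_lit 13) (.e (nat_lit 483386) (nat_lit 23) (.e (nat_lit 335985) (nat_lit 1) (.e (nat_lit 57871) (nat_lit 264) .nil)))))) (.g (nat_lit 0) .nil .nil)))) (.nd (nat_lit 5) 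
(.lf (nat_lit 24532) (.g (nat_lit 1637) (.e (nat_lit 1189) (nat_lit 88) (.e (nat_lit 65628) (nat_lit 14) (.e (nat_lit 401459) (nat_lit 13) (.e (nat_lit 483371) (nat_lit 21) .nil)))) .nil)) 
(.lf (nat_lit 24564) (.g (nat_lit 2101) (.e (nat_lit 1189) (nat_lit 88) (.e (nat_lit 65628) (nat_lit 14) (.e (nat_lit 401459) (nat_lit 13) (.e (nat_lit 483395) (nat_lit 24) (.e (nat_lit 344097) (nat_lit 18) (.e (nat_lit 5907) (nat_lit 320) .nil)))))) (.g (nat_lit 4) .nil .nil))))) (.nd (nat_lit 4) (.nd (nat_lit 5) 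
(.lf (nat_lit 24524) (.g (nat_lit 2246) (.e (nat_lit 1189) (nat_lit 88) (.e (nat_lit 65628) (nat_lit 14) (.e (nat_lit 401459) (nat_lit 13) (.e (nat_lit 483344) (nat_lit 17) (.e (nat_lit 6712) (nat_lit 360) (.e (nat_lit 163843) (nat_lit 0) (.e (nat_lit 4598) (nat_lit 269) .nil))))))) (.g (nat_lit 4) .nil .nil))) 
(.lf (nat_lit 24556) (.g (nat_lit 2532) (.e (nat_lit 1189) (nat_lit 88) (.e (nat_lit 65628) (nat_lit 14) (.e (nat_lit 401459) (nat_lit 13) (.e (nat_lit 483393) (nat_lit 23) (.e (nat_lit 335986) (nat_lit 1) (.e (nat_lit 57873) (nat_lit 264) .nil)))))) (.g (nat_lit 4) .nil .nil)))) (.nd (nat_lit 5) 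
(.lf (nat_lit 24540) (.g (nat_lit 3166) (.e (nat_lit 1189) (nat_lit 88) (.e (nat_lit 65628) (nat_lit 14) (.e (nat_lit 401459) (nat_lit 13) (.e (nat_lit 483380) (nat_lit 23) (.e (nat_lit 335973) (nat_lit 0) .nil))))) .nil)) 
(.lf (nat_lit 24572) (.g (nat_lit 2359) (.e (nat_lit 1189) (nat_lit 88) (.e (nat_lit 65628) (nat_lit 14) (.e (nat_lit 401459) (nat_lit 13) (.e (nat_lit 483399) (nat_lit 25) (.e (nat_lit 368662) (nat_lit 18) (.e (nat_lit 5907) (nat_lit 320) .nil)))))) (.g (nat_lit 4) .nil .nil))))))) (.nd (nat_lit 2) (.nd (nat_lit 3) (.nd (nat_lit 4) (.nd (nat_lit 5) 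
(.lf (nat_lit 24514) (.g (nat_lit 1876) (.e (nat_lit 1189) (nat_lit 88) (.e (nat_lit 65628) (nat_lit 14) (.e (nat_lit 401458) (nat_lit 13) (.e (nat_lit 483396) (nat_lit 24) (.e (nat_lit 344100) (nat_lit 18) .nil))))) .nil)) 
(.lf (nat_lit 24546) (.g (nat_lit 1979) (.e (nat_lit 1189) (nat_lit 88) (.e (nat_lit 65628) (nat_lit 14) (.e (nat_lit 401459) (nat_lit 13) (.e (nat_lit 483386) (nat_lit 23) (.e (nat_lit 335923) (nat_lit 0) .nil))))) .nil))) (.nd (nat_lit 5) 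
(.lf (nat_lit 24530) (.g (nat_lit 2771) (.e (nat_lit 1189) (nat_lit 88) (.e (nat_lit 65628) (nat_lit 14) (.e (nat_lit 401459) (nat_lit 13) (.e (nat_lit 483350) (nat_lit 17) (.e (nat_lit 7936) (nat_lit 346) .nil))))) .nil)) 
(.lf (nat_lit 24562) (.g (nat_lit 1053) (.e (nat_lit 1189) (nat_lit 88) (.e (nat_lit 65628) (nat_lit 14) (.e (nat_lit 401459) (nat_lit 13) (.e (nat_lit 483395) (nat_lit 24) .nil)))) .nil)))) (.nd (nat_lit 4) (.nd (nat_lit 5) 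
(.lf (nat_lit 24522) (.g (nat_lit 2141) (.e (nat_lit 1189) (nat_lit 88) (.e (nat_lit 65628) (nat_lit 14) (.e (nat_lit 401459) (nat_lit 13) (.e (nat_lit 483344) (nat_lit 17) (.e (nat_lit 6514) (nat_lit 346) .nil))))) .nil)) 
(.lf (nat_lit 24554) (.g (nat_lit 1964) (.e (nat_lit 1189) (nat_lit 88) (.e (nat_lit 65628) (nat_lit 14) (.e (nat_lit 401459) (nat_lit 13) (.e (nat_lit 483391) (nat_lit 23) .nil)))) .nil))) (.nd (nat_lit 5) 
(.lf (nat_lit 24538) (.g (nat_lit 2982) (.e (nat_lit 1189) (nat_lit 88) (.e (nat_lit 65628) (nat_lit 14) (.e (nat_lit 401459) (nat_lit 13) (.e (nat_lit 483378) (nat_lit 23) (.e (nat_lit 335997) (nat_lit 1) (.e (nat_lit 57871) (nat_lit 264) .nil)))))) (.g (nat_lit 0) .nil .nil))) 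
(.lf (nat_lit 24570) (.g (nat_lit 1703) (.e (nat_lit 1189) (nat_lit 88) (.e (nat_lit 65628) (nat_lit 14) (.e (nat_lit 401459) (nat_lit 13) (.e (nat_lit 483398) (nat_lit 25) .nil)))) .nil))))) (.nd (nat_lit 3) (.nd (nat_lit 4) (.nd (nat_lit 5) 
(.lf (nat_lit 24518) (.g (nat_lit 2308) (.e (nat_lit 1189) (nat_lit 88) (.e (nat_lit 65628) (nat_lit 14) (.e (nat_lit 401459) (nat_lit 13) (.e (nat_lit 483344) (nat_lit 17) (.e (nat_lit 6434) (nat_lit 343) (.e (nat_lit 1183) (nat_lit 87) (.e (nat_lit 57871) (nat_lit 264) .nil))))))) (.g (nat_lit 4) .nil .nil))) 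
(.lf (nat_lit 24550) (.g (nat_lit 3155) (.e (nat_lit 1189) (nat_lit 88) (.e (nat_lit 65628) (nat_lit 14) (.e (nat_lit 401459) (nat_lit 13) (.e (nat_lit 483387) (nat_lit 23) (.e (nat_lit 335997) (nat_lit 1) (.e (nat_lit 57871) (nat_lit 264) .nil)))))) (.g (nat_lit 6) .nil .nil)))) (.nd (nat_lit 5) 
(.lf (nat_lit 24534) (.g (nat_lit 3192) (.e (nat_lit 1189) (nat_lit 88) (.e (nat_lit 65628) (nat_lit 14) (.e (nat_lit 401459) (nat_lit 13) (.e (nat_lit 483372) (nat_lit 21) (.e (nat_lit 327424) (nat_lit 0) .nil))))) .nil)) 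
(.lf (nat_lit 24566) (.g (nat_lit 1932) (.e (nat_lit 1189) (nat_lit 88) (.e (nat_lit 65628) (nat_lit 14) (.e (nat_lit 401459) (nat_lit 13) (.e (nat_lit 483396) (nat_lit 24) .nil)))) .nil)))) (.nd (nat_lit 4) (.nd (nat_lit 5) 
(.lf (nat_lit 24526) (.g (nat_lit 1964) (.e (nat_lit 1189) (nat_lit 88) (.e (nat_lit 65628) (nat_lit 14) (.e (nat_lit 401459) (nat_lit 13) (.e (nat_lit 483344) (nat_lit 17) (.e (nat_lit 6714) (nat_lit 360) .nil))))) .nil)) 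
(.lf (nat_lit 24558) (.g (nat_lit 3384) (.e (nat_lit 1189) (nat_lit 88) (.e (nat_lit 65628) (nat_lit 14) (.e (nat_lit 401459) (nat_lit 13) (.e (nat_lit 483393) (nat_lit 23) (.e (nat_lit 335995) (nat_lit 1) (.e (nat_lit 57870) (nat_lit 264) .nil)))))) (.g (nat_lit 5) .nil .nil)))) (.nd (nat_lit 5) 
(.lf (nat_lit 24542) (.g (nat_lit 2442) (.e (nat_lit 1189) (nat_lit 88) (.e (nat_lit 65628) (nat_lit 14) (.e (nat_lit 401459) (nat_lit 13) (.e (nat_lit 483380) (nat_lit 23) (.e (nat_lit 343808) (nat_lit 1) (.e (nat_lit 57871) (nat_lit 264) .nil)))))) (.g (nat_lit 4) .nil .nil))) 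
(.lf (nat_lit 24574) (.g (nat_lit 1799) (.e (nat_lit 1189) (nat_lit 88) (.e (nat_lit 65628) (nat_lit 14) (.e (nat_lit 401459) (nat_lit 13) (.e (nat_lit 483400) (nat_lit 25) .nil)))) .nil))))))) (.nd (nat_lit 1) (.nd (nat_lit 2) (.nd (nat_lit 3) (.nd (nat_lit 4) (.nd (nat_lit 5) 
(.lf (nat_lit 24513) (.g (nat_lit 2082) (.e (nat_lit 1189) (nat_lit 88) (.e (nat_lit 65628) (nat_lit 14) (.e (nat_lit 401458) (nat_lit 13) (.e (nat_lit 483396) (nat_lit 24) (.e (nat_lit 344097) (nat_lit 18) (.e (nat_lit 5905) (nat_lit 320) .nil)))))) (.g (nat_lit 4) .nil .nil))) 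
(.lf (nat_lit 24545) (.g (nat_lit 1978) (.e (nat_lit 1189) (nat_lit 88) (.e (nat_lit 65628) (nat_lit 14) (.e (nat_lit 401459) (nat_lit 13) (.e (nat_lit 483386) (nat_lit 23) (.e (nat_lit 335921) (nat_lit 0) .nil))))) .nil))) (.nd (nat_lit 5) 
(.lf (nat_lit 24529) (.g (nat_lit 2771) (.e (nat_lit 1189) (nat_lit 88) (.e (nat_lit 65628) (nat_lit 14) (.e (nat_lit 401459) (nat_lit 13) (.e (nat_lit 483350) (nat_lit 17) (.e (nat_lit 7936) (nat_lit 343) .nil))))) .nil)) 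
(.lf (nat_lit 24561) (.g (nat_lit 3658) (.e (nat_lit 1189) (nat_lit 88) (.e (nat_lit 65628) (nat_lit 14) (.e (nat_lit 401459) (nat_lit 13) (.e (nat_lit 483394) (nat_lit 24) (.e (nat_lit 344097) (nat_lit 18) (.e (nat_lit 5905) (nat_lit 320) .nil)))))) (.g (nat_lit 0) .nil .nil))))) (.nd (nat_lit 4) (.nd (nat_lit 5) 
(.lf (nat_lit 24521) (.g (nat_lit 2114) (.e (nat_lit 1189) (nat_lit 88) (.e (nat_lit 65628) (nat_lit 14) (.e (nat_lit 401459) (nat_lit 13) (.e (nat_lit 483344) (nat_lit 17) (.e (nat_lit 7936) (nat_lit 343) .nil))))) .nil)) 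
(.lf (nat_lit 24553) (.g (nat_lit 2787) (.e (nat_lit 1189) (nat_lit 88) (.e (nat_lit 65628) (nat_lit 14) (.e (nat_lit 401459) (nat_lit 13) (.e (nat_lit 483389) (nat_lit 23) (.e (nat_lit 335997) (nat_lit 1) (.e (nat_lit 57870) (nat_lit 264) .nil)))))) (.g (nat_lit 5) .nil .nil)))) (.nd (nat_lit 5) 
(.lf (nat_lit 24537) (.g (nat_lit 1776) (.e (nat_lit 1189) (nat_lit 88) (.e (nat_lit 65628) (nat_lit 14) (.e (nat_lit 401459) (nat_lit 13) (.e (nat_lit 483375) (nat_lit 22) .nil)))) .nil)) 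
(.lf (nat_lit 24569) (.g (nat_lit 2274) (.e (nat_lit 1189) (nat_lit 88) (.e (nat_lit 65628) (nat_lit 14) (.e (nat_lit 401459) (nat_lit 13) (.e (nat_lit 483397) (nat_lit 25) .nil)))) .nil))))) (.nd (nat_lit 3) (.nd (nat_lit 4) (.nd (nat_lit 5) 
(.lf (nat_lit 24517) (.g (nat_lit 1127) (.e (nat_lit 1189) (nat_lit 88) (.e (nat_lit 65628) (nat_lit 14) (.e (nat_lit 401459) (nat_lit 13) (.e (nat_lit 483344) (nat_lit 17) .nil)))) .nil)) 
(.lf (nat_lit 24549) (.g (nat_lit 2562) (.e (nat_lit 1189) (nat_lit 88) (.e (nat_lit 65628) (nat_lit 14) (.e (nat_lit 401459) (nat_lit 13) (.e (nat_lit 483386) (nat_lit 23) (.e (nat_lit 335992) (nat_lit 1) (.e (nat_lit 57870) (nat_lit 264) .nil)))))) (.g (nat_lit 6) .nil .nil)))) (.nd (nat_lit 5) 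
(.lf (nat_lit 24533) (.g (nat_lit 5344) (.e (nat_lit 1189) (nat_lit 88) (.e (nat_lit 65628) (nat_lit 14) (.e (nat_lit 401459) (nat_lit 13) (.e (nat_lit 483372) (nat_lit 21) (.e (nat_lit 319494) (nat_lit 0) .nil))))) .nil)) 
(.lf (nat_lit 24565) (.g (nat_lit 1997) (.e (nat_lit 1189) (nat_lit 88) (.e (nat_lit 65628) (nat_lit 14) (.e (nat_lit 401459) (nat_lit 13) (.e (nat_lit 483395) (nat_lit 24) (.e (nat_lit 344099) (nat_lit 18) .nil))))) .nil)))) (.nd (nat_lit 4) (.nd (nat_lit 5) 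
(.lf (nat_lit 24525) (.g (nat_lit 2036) (.e (nat_lit 1189) (nat_lit 88) (.e (nat_lit 65628) (nat_lit 14) (.e (nat_lit 401459) (nat_lit 13) (.e (nat_lit 483344) (nat_lit 17) (.e (nat_lit 6712) (nat_lit 360) (.e (nat_lit 163844) (nat_lit 0) (.e (nat_lit 4598) (nat_lit 269) .nil))))))) (.g (nat_lit 4) .nil .nil))) 
(.lf (nat_lit 24557) (.g (nat_lit 3478) (.e (nat_lit 1189) (nat_lit 88) (.e (nat_lit 65628) (nat_lit 14) (.e (nat_lit 401459) (nat_lit 13) (.e (nat_lit 483393) (nat_lit 23) (.e (nat_lit 335988) (nat_lit 1) (.e (nat_lit 57870) (nat_lit 264) .nil)))))) (.g (nat_lit 6) .nil .nil)))) (.nd (nat_lit 5) 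
(.lf (nat_lit 24541) (.g (nat_lit 2259) (.e (nat_lit 1189) (nat_lit 88) (.e (nat_lit 65628) (nat_lit 14) (.e (nat_lit 401459) (nat_lit 13) (.e (nat_lit 483380) (nat_lit 23) (.e (nat_lit 343808) (nat_lit 1) .nil))))) .nil)) 
(.lf (nat_lit 24573) (.g (nat_lit 2223) (.e (nat_lit 1189) (nat_lit 88) (.e (nat_lit 65628) (nat_lit 14) (.e (nat_lit 401459) (nat_lit 13) (.e (nat_lit 483399) (nat_lit 25) (.e (nat_lit 368663) (nat_lit 18) .nil))))) .nil)))))) (.nd (nat_lit 2) (.nd (nat_lit 3) (.nd (nat_lit 4) (.nd (nat_lit 5) 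
(.lf (nat_lit 24515) (.g (nat_lit 1214) (.e (nat_lit 1189) (nat_lit 88) (.e (nat_lit 65628) (nat_lit 14) (.e (nat_lit 401458) (nat_lit 13) (.e (nat_lit 483399) (nat_lit 25) .nil)))) .nil)) 
(.lf (nat_lit 24547) (.g (nat_lit 1731) (.e (nat_lit 1189) (nat_lit 88) (.e (nat_lit 65628) (nat_lit 14) (.e (nat_lit 401459) (nat_lit 13) (.e (nat_lit 483386) (nat_lit 23) (.e (nat_lit 335985) (nat_lit 1) .nil))))) .nil))) (.nd (nat_lit 5) 
(.lf (nat_lit 24531) (.g (nat_lit 2813) (.e (nat_lit 1189) (nat_lit 88) (.e (nat_lit 65628) (nat_lit 14) (.e (nat_lit 401459) (nat_lit 13) (.e (nat_lit 483363) (nat_lit 18) (.e (nat_lit 65280) (nat_lit 217) .nil))))) .nil)) 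
(.lf (nat_lit 24563) (.g (nat_lit 3274) (.e (nat_lit 1189) (nat_lit 88) (.e (nat_lit 65628) (nat_lit 14) (.e (nat_lit 401459) (nat_lit 13) (.e (nat_lit 483395) (nat_lit 24) (.e (nat_lit 344097) (nat_lit 18) (.e (nat_lit 5905) (nat_lit 320) .nil)))))) (.g (nat_lit 0) .nil .nil))))) (.nd (nat_lit 4) (.nd (nat_lit 5) 
(.lf (nat_lit 24523) (.g (nat_lit 2015) (.e (nat_lit 1189) (nat_lit 88) (.e (nat_lit 65628) (nat_lit 14) (.e (nat_lit 401459) (nat_lit 13) (.e (nat_lit 483344) (nat_lit 17) (.e (nat_lit 6712) (nat_lit 360) .nil))))) .nil)) 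
(.lf (nat_lit 24555) (.g (nat_lit 2587) (.e (nat_lit 1189) (nat_lit 88) (.e (nat_lit 65628) (nat_lit 14) (.e (nat_lit 401459) (nat_lit 13) (.e (nat_lit 483393) (nat_lit 23) (.e (nat_lit 335986) (nat_lit 1) (.e (nat_lit 57870) (nat_lit 264) .nil)))))) (.g (nat_lit 4) .nil .nil)))) (.nd (nat_lit 5) 
(.lf (nat_lit 24539) (.g (nat_lit 3149) (.e (nat_lit 1189) (nat_lit 88) (.e (nat_lit 65628) (nat_lit 14) (.e (nat_lit 401459) (nat_lit 13) (.e (nat_lit 483380) (nat_lit 23) (.e (nat_lit 335969) (nat_lit 0) .nil))))) .nil)) 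
(.lf (nat_lit 24571) (.g (nat_lit 1655) (.e (nat_lit 1189) (nat_lit 88) (.e (nat_lit 65628) (nat_lit 14) (.e (nat_lit 401459) (nat_lit 13) (.e (nat_lit 483399) (nat_lit 25) .nil)))) .nil))))) (.nd (nat_lit 3) (.nd (nat_lit 4) (.nd (nat_lit 5) 
(.lf (nat_lit 24519) (.g (nat_lit 2234) (.e (nat_lit 1189) (nat_lit 88) (.e (nat_lit 65628) (nat_lit 14) (.e (nat_lit 401459) (nat_lit 13) (.e (nat_lit 483344) (nat_lit 17) (.e (nat_lit 6436) (nat_lit 343) .nil))))) .nil)) 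
(.lf (nat_lit 24551) (.g (nat_lit 2147) (.e (nat_lit 1189) (nat_lit 88) (.e (nat_lit 65628) (nat_lit 14) (.e (nat_lit 401459) (nat_lit 13) (.e (nat_lit 483388) (nat_lit 23) .nil)))) .nil))) (.nd (nat_lit 5) 
(.lf (nat_lit 24535) (.g (nat_lit 4675) (.e (nat_lit 1189) (nat_lit 88) (.e (nat_lit 65628) (nat_lit 14) (.e (nat_lit 401459) (nat_lit 13) (.e (nat_lit 483372) (nat_lit 21) (.e (nat_lit 319516) (nat_lit 11) .nil))))) .nil)) 
(.lf (nat_lit 24567) (.g (nat_lit 2827) (.e (nat_lit 1189) (nat_lit 88) (.e (nat_lit 65628) (nat_lit 14) (.e (nat_lit 401459) (nat_lit 13) (.e (nat_lit 483396) (nat_lit 24) (.e (nat_lit 344093) (nat_lit 18) .nil))))) .nil)))) (.nd (nat_lit 4) (.nd (nat_lit 5) 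
(.lf (nat_lit 24527) (.g (nat_lit 2124) (.e (nat_lit 1189) (nat_lit 88) (.e (nat_lit 65628) (nat_lit 14) (.e (nat_lit 401459) (nat_lit 13) (.e (nat_lit 483347) (nat_lit 17) (.e (nat_lit 7936) (nat_lit 343) .nil))))) .nil)) 
(.lf (nat_lit 24559) (.g (nat_lit 3918) (.e (nat_lit 1189) (nat_lit 88) (.e (nat_lit 65628) (nat_lit 14) (.e (nat_lit 401459) (nat_lit 13) (.e (nat_lit 483393) (nat_lit 23) (.e (nat_lit 335996) (nat_lit 1) (.e (nat_lit 57870) (nat_lit 264) .nil)))))) (.g (nat_lit 6) .nil .nil)))) (.nd (nat_lit 5) 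
(.lf (nat_lit 24543) (.g (nat_lit 2839) (.e (nat_lit 1189) (nat_lit 88) (.e (nat_lit 65628) (nat_lit 14) (.e (nat_lit 401459) (nat_lit 13) (.e (nat_lit 483383) (nat_lit 23) (.e (nat_lit 336000) (nat_lit 1) .nil))))) .nil)) 
(.lf (nat_lit 24575) (.g (nat_lit 1233) (.e (nat_lit 1189) (nat_lit 88) (.e (nat_lit 65628) (nat_lit 14) (.e (nat_lit 401459) (nat_lit 13) (.e (nat_lit 483411) (nat_lit 27) .nil)))) .nil))))))))

noncomputable def tv347 : DT := (.nd (nat_lit 0) (.nd (nat_lit 1) (.nd (nat_lit 2) (.nd (nat_lit 3) (.nd (nat_lit 4) (.nd (nat_lit 5) (.nd (nat_lit 6) 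
(.lf (nat_lit 24576) (.g (nat_lit 2346) (.e (nat_lit 1189) (nat_lit 88) (.e (nat_lit 65628) (nat_lit 14) (.e (nat_lit 401459) (nat_lit 13) (.e (nat_lit 483411) (nat_lit 27) (.e (nat_lit 401414) (nat_lit 0) .nil))))) .nil)) 
(.lf (nat_lit 24640) (.g (nat_lit 1548) (.e (nat_lit 1189) (nat_lit 88) (.e (nat_lit 65630) (nat_lit 14) (.e (nat_lit 401436) (nat_lit 9) (.e (nat_lit 426546) (nat_lit 30) .nil)))) .nil))) (.nd (nat_lit 6) 
(.lf (nat_lit 24608) (.g (nat_lit 2834) (.e (nat_lit 1189) (nat_lit 88) (.e (nat_lit 65629) (nat_lit 14) (.e (nat_lit 401459) (nat_lit 13) (.e (nat_lit 483391) (nat_lit 23) .nil)))) .nil)) 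
(.lf (nat_lit 24672) (.g (nat_lit 2074) (.e (nat_lit 1189) (nat_lit 88) (.e (nat_lit 65630) (nat_lit 14) (.e (nat_lit 401458) (nat_lit 13) (.e (nat_lit 483393) (nat_lit 23) (.e (nat_lit 335986) (nat_lit 1) (.e (nat_lit 57871) (nat_lit 264) .nil)))))) (.g (nat_lit 4) .nil .nil))))) (.nd (nat_lit 5) (.nd (nat_lit 6) 
(.lf (nat_lit 24592) (.g (nat_lit 2744) (.e (nat_lit 1189) (nat_lit 88) (.e (nat_lit 65629) (nat_lit 14) (.e (nat_lit 401459) (nat_lit 13) (.e (nat_lit 483347) (nat_lit 17) (.e (nat_lit 7936) (nat_lit 343) .nil))))) .nil)) 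
(.lf (nat_lit 24656) (.g (nat_lit 3063) (.e (nat_lit 1189) (nat_lit 88) (.e (nat_lit 65630) (nat_lit 14) (.e (nat_lit 401454) (nat_lit 12) (.e (nat_lit 475144) (nat_lit 16) .nil)))) .nil))) (.nd (nat_lit 6) 
(.lf (nat_lit 24624) (.g (nat_lit 732) (.e (nat_lit 1189) (nat_lit 88) (.e (nat_lit 65630) (nat_lit 14) (.e (nat_lit 401428) (nat_lit 3) .nil))) .nil)) 
(.lf (nat_lit 24688) (.g (nat_lit 3425) (.e (nat_lit 1189) (nat_lit 88) (.e (nat_lit 65630) (nat_lit 14) (.e (nat_lit 401459) (nat_lit 13) (.e (nat_lit 483344) (nat_lit 17) (.e (nat_lit 6712) (nat_lit 360) (.e (nat_lit 163843) (nat_lit 0) (.e (nat_lit 4598) (nat_lit 269) .nil))))))) (.g (nat_lit 4) .nil .nil)))))) (.nd (nat_lit 4) (.nd (nat_lit 5) (.nd (nat_lit 6) 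
(.lf (nat_lit 24584) (.g (nat_lit 2778) (.e (nat_lit 1189) (nat_lit 88) (.e (nat_lit 65629) (nat_lit 14) (.e (nat_lit 401459) (nat_lit 13) (.e (nat_lit 483344) (nat_lit 17) (.e (nat_lit 6434) (nat_lit 343) .nil))))) .nil)) 
(.lf (nat_lit 24648) (.g (nat_lit 3243) (.e (nat_lit 1189) (nat_lit 88) (.e (nat_lit 65630) (nat_lit 14) (.e (nat_lit 401437) (nat_lit 9) (.e (nat_lit 426555) (nat_lit 32) (.e (nat_lit 376857) (nat_lit 21) (.e (nat_lit 57870) (nat_lit 264) .nil)))))) (.g (nat_lit 5) .nil .nil)))) (.nd (nat_lit 6) 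
(.lf (nat_lit 24616) (.g (nat_lit 2133) (.e (nat_lit 1189) (nat_lit 88) (.e (nat_lit 65629) (nat_lit 14) (.e (nat_lit 401459) (nat_lit 13) (.e (nat_lit 483398) (nat_lit 25) .nil)))) .nil)) 
(.lf (nat_lit 24680) (.g (nat_lit 2463) (.e (nat_lit 1189) (nat_lit 88) (.e (nat_lit 65630) (nat_lit 14) (.e (nat_lit 401459) (nat_lit 13) (.e (nat_lit 483344) (nat_lit 17) .nil)))) .nil)))) (.nd (nat_lit 5) (.nd (nat_lit 6) 
(.lf (nat_lit 24600) (.g (nat_lit 5157) (.e (nat_lit 1189) (nat_lit 88) (.e (nat_lit 65629) (nat_lit 14) (.e (nat_lit 401459) (nat_lit 13) (.e (nat_lit 483372) (nat_lit 21) (.e (nat_lit 327424) (nat_lit 0) .nil))))) .nil)) 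
(.lf (nat_lit 24664) (.g (nat_lit 2441) (.e (nat_lit 1189) (nat_lit 88) (.e (nat_lit 65630) (nat_lit 14) (.e (nat_lit 401457) (nat_lit 13) (.e (nat_lit 483393) (nat_lit 23) (.e (nat_lit 335988) (nat_lit 1) .nil))))) .nil))) (.nd (nat_lit 6) 
(.lf (nat_lit 24632) (.g (nat_lit 1792) (.e (nat_lit 1189) (nat_lit 88) (.e (nat_lit 65630) (nat_lit 14) (.e (nat_lit 401428) (nat_lit 3) (.e (nat_lit 204877) (nat_lit 31) .nil)))) .nil)) 
(.lf (nat_lit 24696) (.g (nat_lit 2651) (.e (nat_lit 1189) (nat_lit 88) (.e (nat_lit 65630) (nat_lit 14) (.e (nat_lit 401459) (nat_lit 13) (.e (nat_lit 483354) (nat_lit 17) .nil)))) .nil)))))) (.nd (nat_lit 3) (.nd (nat_lit 4) (.nd (nat_lit 5) (.nd (nat_lit 6) 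
(.lf (nat_lit 24580) (.g (nat_lit 2895) (.e (nat_lit 1189) (nat_lit 88) (.e (nat_lit 65628) (nat_lit 14) (.e (nat_lit 401459) (nat_lit 13) (.e (nat_lit 483411) (nat_lit 27) (.e (nat_lit 401466) (nat_lit 15) .nil))))) .nil)) 
(.lf (nat_lit 24644) (.g (nat_lit 3087) (.e (nat_lit 1189) (nat_lit 88) (.e (nat_lit 65630) (nat_lit 14) (.e (nat_lit 401437) (nat_lit 9) (.e (nat_lit 426542) (nat_lit 29) (.e (nat_lit 352307) (nat_lit 21) (.e (nat_lit 57871) (nat_lit 264) .nil)))))) (.g (nat_lit 5) .nil .nil)))) (.nd (nat_lit 6) 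
(.lf (nat_lit 24612) (.g (nat_lit 2616) (.e (nat_lit 1189) (nat_lit 88) (.e (nat_lit 65629) (nat_lit 14) (.e (nat_lit 401459) (nat_lit 13) (.e (nat_lit 483393) (nat_lit 23) .nil)))) .nil)) 
(.lf (nat_lit 24676) (.g (nat_lit 1800) (.e (nat_lit 1189) (nat_lit 88) (.e (nat_lit 65630) (nat_lit 14) (.e (nat_lit 401458) (nat_lit 13) (.e (nat_lit 483399) (nat_lit 25) (.e (nat_lit 368662) (nat_lit 18) .nil))))) .nil)))) (.nd (nat_lit 5) (.nd (nat_lit 6) 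
(.lf (nat_lit 24596) (.g (nat_lit 4318) (.e (nat_lit 1189) (nat_lit 88) (.e (nat_lit 65629) (nat_lit 14) (.e (nat_lit 401459) (nat_lit 13) (.e (nat_lit 483350) (nat_lit 17) (.e (nat_lit 7936) (nat_lit 346) .nil))))) .nil)) 
(.lf (nat_lit 24660) (.g (nat_lit 1972) (.e (nat_lit 1189) (nat_lit 88) (.e (nat_lit 65630) (nat_lit 14) (.e (nat_lit 401457) (nat_lit 13) (.e (nat_lit 483378) (nat_lit 23) .nil)))) .nil))) (.nd (nat_lit 6) 
(.lf (nat_lit 24628) (.g (nat_lit 2919) (.e (nat_lit 1189) (nat_lit 88) (.e (nat_lit 65630) (nat_lit 14) (.e (nat_lit 401428) (nat_lit 3) (.e (nat_lit 204869) (nat_lit 29) (.e (nat_lit 360448) (nat_lit 0) (.e (nat_lit 3975) (nat_lit 239) .nil)))))) (.g (nat_lit 4) .nil .nil))) 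
(.lf (nat_lit 24692) (.g (nat_lit 2922) (.e (nat_lit 1189) (nat_lit 88) (.e (nat_lit 65630) (nat_lit 14) (.e (nat_lit 401459) (nat_lit 13) (.e (nat_lit 483347) (nat_lit 17) (.e (nat_lit 7936) (nat_lit 343) .nil))))) .nil))))) (.nd (nat_lit 4) (.nd (nat_lit 5) (.nd (nat_lit 6) 
(.lf (nat_lit 24588) (.g (nat_lit 3931) (.e (nat_lit 1189) (nat_lit 88) (.e (nat_lit 65629) (nat_lit 14) (.e (nat_lit 401459) (nat_lit 13) (.e (nat_lit 483344) (nat_lit 17) (.e (nat_lit 6514) (nat_lit 346) (.e (nat_lit 57354) (nat_lit 0) (.e (nat_lit 5905) (nat_lit 320) .nil))))))) (.g (nat_lit 6) .nil .nil))) 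
(.lf (nat_lit 24652) (.g (nat_lit 2716) (.e (nat_lit 1189) (nat_lit 88) (.e (nat_lit 65630) (nat_lit 14) (.e (nat_lit 401438) (nat_lit 9) (.e (nat_lit 426542) (nat_lit 29) (.e (nat_lit 352309) (nat_lit 21) (.e (nat_lit 57870) (nat_lit 264) .nil)))))) (.g (nat_lit 6) .nil .nil)))) (.nd (nat_lit 6) 
(.lf (nat_lit 24620) (.g (nat_lit 1798) (.e (nat_lit 1189) (nat_lit 88) (.e (nat_lit 65629) (nat_lit 14) (.e (nat_lit 401459) (nat_lit 13) (.e (nat_lit 483410) (nat_lit 27) .nil)))) .nil)) 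
(.lf (nat_lit 24684) (.g (nat_lit 3477) (.e (nat_lit 1189) (nat_lit 88) (.e (nat_lit 65630) (nat_lit 14) (.e (nat_lit 401459) (nat_lit 13) (.e (nat_lit 483344) (nat_lit 17) (.e (nat_lit 6486) (nat_lit 343) .nil))))) .nil)))) (.nd (nat_lit 5) (.nd (nat_lit 6) 
(.lf (nat_lit 24604) (.g (nat_lit 3514) (.e (nat_lit 1189) (nat_lit 88) (.e (nat_lit 65629) (nat_lit 14) (.e (nat_lit 401459) (nat_lit 13) (.e (nat_lit 483380) (nat_lit 23) (.e (nat_lit 335973) (nat_lit 0) .nil))))) .nil)) 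
(.lf (nat_lit 24668) (.g (nat_lit 2033) (.e (nat_lit 1189) (nat_lit 88) (.e (nat_lit 65630) (nat_lit 14) (.e (nat_lit 401458) (nat_lit 13) (.e (nat_lit 483383) (nat_lit 23) (.e (nat_lit 336000) (nat_lit 1) .nil))))) .nil))) (.nd (nat_lit 6) 
(.lf (nat_lit 24636) (.g (nat_lit 2435) (.e (nat_lit 1189) (nat_lit 88) (.e (nat_lit 65630) (nat_lit 14) (.e (nat_lit 401435) (nat_lit 9) (.e (nat_lit 426555) (nat_lit 32) (.e (nat_lit 376859) (nat_lit 21) (.e (nat_lit 57870) (nat_lit 264) .nil)))))) (.g (nat_lit 4) .nil .nil))) 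
(.lf (nat_lit 24700) (.g (nat_lit 2709) (.e (nat_lit 1189) (nat_lit 88) (.e (nat_lit 65630) (nat_lit 14) (.e (nat_lit 401459) (nat_lit 13) (.e (nat_lit 483371) (nat_lit 21) .nil)))) .nil))))))) (.nd (nat_lit 2) (.nd (nat_lit 3) (.nd (nat_lit 4) (.nd (nat_lit 5) (.nd (nat_lit 6) 
(.lf (nat_lit 24578) (.g (nat_lit 2899) (.e (nat_lit 1189) (nat_lit 88) (.e (nat_lit 65628) (nat_lit 14) (.e (nat_lit 401459) (nat_lit 13) (.e (nat_lit 483411) (nat_lit 27) (.e (nat_lit 401463) (nat_lit 15) .nil))))) .nil)) 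
(.lf (nat_lit 24642) (.g (nat_lit 1998) (.e (nat_lit 1189) (nat_lit 88) (.e (nat_lit 65630) (nat_lit 14) (.e (nat_lit 401437) (nat_lit 9) (.e (nat_lit 426538) (nat_lit 29) .nil)))) .nil))) (.nd (nat_lit 6) 
(.lf (nat_lit 24610) (.g (nat_lit 3310) (.e (nat_lit 1189) (nat_lit 88) (.e (nat_lit 65629) (nat_lit 14) (.e (nat_lit 401459) (nat_lit 13) (.e (nat_lit 483392) (nat_lit 23) (.e (nat_lit 335995) (nat_lit 1) (.e (nat_lit 57870) (nat_lit 264) .nil)))))) (.g (nat_lit 4) .nil .nil))) 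
(.lf (nat_lit 24674) (.g (nat_lit 1648) (.e (nat_lit 1189) (nat_lit 88) (.e (nat_lit 65630) (nat_lit 14) (.e (nat_lit 401458) (nat_lit 13) (.e (nat_lit 483395) (nat_lit 24) .nil)))) .nil)))) (.nd (nat_lit 5) (.nd (nat_lit 6) 
(.lf (nat_lit 24594) (.g (nat_lit 2949) (.e (nat_lit 1189) (nat_lit 88) (.e (nat_lit 65629) (nat_lit 14) (.e (nat_lit 401459) (nat_lit 13) (.e (nat_lit 483350) (nat_lit 17) .nil)))) .nil)) 
(.lf (nat_lit 24658) (.g (nat_lit 1962) (.e (nat_lit 1189) (nat_lit 88) (.e (nat_lit 65630) (nat_lit 14) (.e (nat_lit 401456) (nat_lit 13) (.e (nat_lit 483378) (nat_lit 23) .nil)))) .nil))) (.nd (nat_lit 6) 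
(.lf (nat_lit 24626) (.g (nat_lit 1715) (.e (nat_lit 1189) (nat_lit 88) (.e (nat_lit 65630) (nat_lit 14) (.e (nat_lit 401428) (nat_lit 3) (.e (nat_lit 204866) (nat_lit 28) .nil)))) .nil)) 
(.lf (nat_lit 24690) (.g (nat_lit 3630) (.e (nat_lit 1189) (nat_lit 88) (.e (nat_lit 65630) (nat_lit 14) (.e (nat_lit 401459) (nat_lit 13) (.e (nat_lit 483344) (nat_lit 17) (.e (nat_lit 6714) (nat_lit 360) (.e (nat_lit 163843) (nat_lit 0) (.e (nat_lit 4598) (nat_lit 269) .nil))))))) (.g (nat_lit 5) .nil .nil)))))) (.nd (nat_lit 4) (.nd (nat_lit 5) (.nd (nat_lit 6) 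
(.lf (nat_lit 24586) (.g (nat_lit 2968) (.e (nat_lit 1189) (nat_lit 88) (.e (nat_lit 65629) (nat_lit 14) (.e (nat_lit 401459) (nat_lit 13) (.e (nat_lit 483344) (nat_lit 17) (.e (nat_lit 6479) (nat_lit 343) .nil))))) .nil)) 
(.lf (nat_lit 24650) (.g (nat_lit 2179) (.e (nat_lit 1189) (nat_lit 88) (.e (nat_lit 65630) (nat_lit 14) (.e (nat_lit 401437) (nat_lit 9) (.e (nat_lit 426556) (nat_lit 32) .nil)))) .nil))) (.nd (nat_lit 6) 
(.lf (nat_lit 24618) (.g (nat_lit 2736) (.e (nat_lit 1189) (nat_lit 88) (.e (nat_lit 65629) (nat_lit 14) (.e (nat_lit 401459) (nat_lit 13) (.e (nat_lit 483399) (nat_lit 25) (.e (nat_lit 368662) (nat_lit 18) .nil))))) .nil)) 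
(.lf (nat_lit 24682) (.g (nat_lit 3311) (.e (nat_lit 1189) (nat_lit 88) (.e (nat_lit 65630) (nat_lit 14) (.e (nat_lit 401459) (nat_lit 13) (.e (nat_lit 483344) (nat_lit 17) (.e (nat_lit 6444) (nat_lit 343) .nil))))) .nil)))) (.nd (nat_lit 5) (.nd (nat_lit 6) 
(.lf (nat_lit 24602) (.g (nat_lit 2415) (.e (nat_lit 1189) (nat_lit 88) (.e (nat_lit 65629) (nat_lit 14) (.e (nat_lit 401459) (nat_lit 13) (.e (nat_lit 483375) (nat_lit 22) .nil)))) .nil)) 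
(.lf (nat_lit 24666) (.g (nat_lit 704) (.e (nat_lit 1189) (nat_lit 88) (.e (nat_lit 65630) (nat_lit 14) (.e (nat_lit 401458) (nat_lit 13) .nil))) .nil))) (.nd (nat_lit 6) 
(.lf (nat_lit 24634) (.g (nat_lit 1664) (.e (nat_lit 1189) (nat_lit 88) (.e (nat_lit 65630) (nat_lit 14) (.e (nat_lit 401435) (nat_lit 9) (.e (nat_lit 426555) (nat_lit 32) .nil)))) .nil)) 
(.lf (nat_lit 24698) (.g (nat_lit 2709) (.e (nat_lit 1189) (nat_lit 88) (.e (nat_lit 65630) (nat_lit 14) (.e (nat_lit 401459) (nat_lit 13) (.e (nat_lit 483363) (nat_lit 18) .nil)))) .nil)))))) (.nd (nat_lit 3) (.nd (nat_lit 4) (.nd (nat_lit 5) (.nd (nat_lit 6) 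
(.lf (nat_lit 24582) (.g (nat_lit 2093) (.e (nat_lit 1189) (nat_lit 88) (.e (nat_lit 65629) (nat_lit 14) (.e (nat_lit 401459) (nat_lit 13) (.e (nat_lit 483343) (nat_lit 17) .nil)))) .nil)) 
(.lf (nat_lit 24646) (.g (nat_lit 2620) (.e (nat_lit 1189) (nat_lit 88) (.e (nat_lit 65630) (nat_lit 14) (.e (nat_lit 401437) (nat_lit 9) (.e (nat_lit 426544) (nat_lit 30) (.e (nat_lit 368384) (nat_lit 0) .nil))))) .nil))) (.nd (nat_lit 6) 
(.lf (nat_lit 24614) (.g (nat_lit 3131) (.e (nat_lit 1189) (nat_lit 88) (.e (nat_lit 65629) (nat_lit 14) (.e (nat_lit 401459) (nat_lit 13) (.e (nat_lit 483393) (nat_lit 23) (.e (nat_lit 335996) (nat_lit 1) (.e (nat_lit 57870) (nat_lit 264) .nil)))))) (.g (nat_lit 4) .nil .nil))) 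
(.lf (nat_lit 24678) (.g (nat_lit 2545) (.e (nat_lit 1189) (nat_lit 88) (.e (nat_lit 65630) (nat_lit 14) (.e (nat_lit 401459) (nat_lit 13) (.e (nat_lit 483343) (nat_lit 17) .nil)))) .nil)))) (.nd (nat_lit 5) (.nd (nat_lit 6) 
(.lf (nat_lit 24598) (.g (nat_lit 2992) (.e (nat_lit 1189) (nat_lit 88) (.e (nat_lit 65629) (nat_lit 14) (.e (nat_lit 401459) (nat_lit 13) (.e (nat_lit 483354) (nat_lit 17) (.e (nat_lit 6493) (nat_lit 343) .nil))))) .nil)) 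
(.lf (nat_lit 24662) (.g (nat_lit 1815) (.e (nat_lit 1189) (nat_lit 88) (.e (nat_lit 65630) (nat_lit 14) (.e (nat_lit 401457) (nat_lit 13) (.e (nat_lit 483389) (nat_lit 23) .nil)))) .nil))) (.nd (nat_lit 6) 
(.lf (nat_lit 24630) (.g (nat_lit 2942) (.e (nat_lit 1189) (nat_lit 88) (.e (nat_lit 65630) (nat_lit 14) (.e (nat_lit 401428) (nat_lit 3) (.e (nat_lit 204869) (nat_lit 29) (.e (nat_lit 360456) (nat_lit 0) (.e (nat_lit 3962) (nat_lit 239) .nil)))))) (.g (nat_lit 4) .nil .nil))) 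
(.lf (nat_lit 24694) (.g (nat_lit 3660) (.e (nat_lit 1189) (nat_lit 88) (.e (nat_lit 65630) (nat_lit 14) (.e (nat_lit 401459) (nat_lit 13) (.e (nat_lit 483350) (nat_lit 17) (.e (nat_lit 7936) (nat_lit 343) .nil))))) .nil))))) (.nd (nat_lit 4) (.nd (nat_lit 5) (.nd (nat_lit 6) 
(.lf (nat_lit 24590) (.g (nat_lit 2664) (.e (nat_lit 1189) (nat_lit 88) (.e (nat_lit 65629) (nat_lit 14) (.e (nat_lit 401459) (nat_lit 13) (.e (nat_lit 483344) (nat_lit 17) (.e (nat_lit 6714) (nat_lit 360) .nil))))) .nil)) 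
(.lf (nat_lit 24654) (.g (nat_lit 1861) (.e (nat_lit 1189) (nat_lit 88) (.e (nat_lit 65630) (nat_lit 14) (.e (nat_lit 401438) (nat_lit 9) (.e (nat_lit 426546) (nat_lit 30) (.e (nat_lit 368384) (nat_lit 0) .nil))))) .nil))) (.nd (nat_lit 6) 
(.lf (nat_lit 24622) (.g (nat_lit 3298) (.e (nat_lit 1189) (nat_lit 88) (.e (nat_lit 65629) (nat_lit 14) (.e (nat_lit 401459) (nat_lit 13) (.e (nat_lit 483411) (nat_lit 27) (.e (nat_lit 401414) (nat_lit 0) .nil))))) .nil)) 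
(.lf (nat_lit 24686) (.g (nat_lit 3392) (.e (nat_lit 1189) (nat_lit 88) (.e (nat_lit 65630) (nat_lit 14) (.e (nat_lit 401459) (nat_lit 13) (.e (nat_lit 483344) (nat_lit 17) (.e (nat_lit 6514) (nat_lit 346) .nil))))) .nil)))) (.nd (nat_lit 5) (.nd (nat_lit 6) 
(.lf (nat_lit 24606) (.g (nat_lit 2875) (.e (nat_lit 1189) (nat_lit 88) (.e (nat_lit 65629) (nat_lit 14) (.e (nat_lit 401459) (nat_lit 13) (.e (nat_lit 483387) (nat_lit 23) (.e (nat_lit 335997) (nat_lit 1) (.e (nat_lit 57871) (nat_lit 264) .nil)))))) (.g (nat_lit 4) .nil .nil))) 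
(.lf (nat_lit 24670) (.g (nat_lit 1702) (.e (nat_lit 1189) (nat_lit 88) (.e (nat_lit 65630) (nat_lit 14) (.e (nat_lit 401458) (nat_lit 13) (.e (nat_lit 483389) (nat_lit 23) (.e (nat_lit 335997) (nat_lit 1) .nil))))) .nil))) (.nd (nat_lit 6) 
(.lf (nat_lit 24638) (.g (nat_lit 2329) (.e (nat_lit 1189) (nat_lit 88) (.e (nat_lit 65630) (nat_lit 14) (.e (nat_lit 401436) (nat_lit 9) (.e (nat_lit 426542) (nat_lit 29) (.e (nat_lit 352307) (nat_lit 21) (.e (nat_lit 57871) (nat_lit 264) .nil)))))) (.g (nat_lit 5) .nil .nil))) 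
(.lf (nat_lit 24702) (.g (nat_lit 6598) (.e (nat_lit 1189) (nat_lit 88) (.e (nat_lit 65630) (nat_lit 14) (.e (nat_lit 401459) (nat_lit 13) (.e (nat_lit 483372) (nat_lit 21) (.e (nat_lit 319494) (nat_lit 0) .nil))))) .nil)))))))) (.nd (nat_lit 1) (.nd (nat_lit 2) (.nd (nat_lit 3) (.nd (nat_lit 4) (.nd (nat_lit 5) (.nd (nat_lit 6) 
(.lf (nat_lit 24577) (.g (nat_lit 2920) (.e (nat_lit 1189) (nat_lit 88) (.e (nat_lit 65628) (nat_lit 14) (.e (nat_lit 401459) (nat_lit 13) (.e (nat_lit 483411) (nat_lit 27) (.e (nat_lit 401462) (nat_lit 15) .nil))))) .nil)) 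
(.lf (nat_lit 24641) (.g (nat_lit 639) (.e (nat_lit 1189) (nat_lit 88) (.e (nat_lit 65630) (nat_lit 14) (.e (nat_lit 401437) (nat_lit 9) .nil))) .nil))) (.nd (nat_lit 6) 
(.lf (nat_lit 24609) (.g (nat_lit 3121) (.e (nat_lit 1189) (nat_lit 88) (.e (nat_lit 65629) (nat_lit 14) (.e (nat_lit 401459) (nat_lit 13) (.e (nat_lit 483392) (nat_lit 23) .nil)))) .nil)) 
(.lf (nat_lit 24673) (.g (nat_lit 2048) (.e (nat_lit 1189) (nat_lit 88) (.e (nat_lit 65630) (nat_lit 14) (.e (nat_lit 401458) (nat_lit 13) (.e (nat_lit 483393) (nat_lit 23) (.e (nat_lit 335987) (nat_lit 1) (.e (nat_lit 57870) (nat_lit 264) .nil)))))) (.g (nat_lit 4) .nil .nil))))) (.nd (nat_lit 5) (.nd (nat_lit 6) 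
(.lf (nat_lit 24593) (.g (nat_lit 2744) (.e (nat_lit 1189) (nat_lit 88) (.e (nat_lit 65629) (nat_lit 14) (.e (nat_lit 401459) (nat_lit 13) (.e (nat_lit 483347) (nat_lit 17) (.e (nat_lit 7936) (nat_lit 346) .nil))))) .nil)) 
(.lf (nat_lit 24657) (.g (nat_lit 2920) (.e (nat_lit 1189) (nat_lit 88) (.e (nat_lit 65630) (nat_lit 14) (.e (nat_lit 401454) (nat_lit 12) (.e (nat_lit 475154) (nat_lit 20) .nil)))) .nil))) (.nd (nat_lit 6) 
(.lf (nat_lit 24625) (.g (nat_lit 1920) (.e (nat_lit 1189) (nat_lit 88) (.e (nat_lit 65630) (nat_lit 14) (.e (nat_lit 401428) (nat_lit 3) (.e (nat_lit 204838) (nat_lit 20) .nil)))) .nil)) 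
(.lf (nat_lit 24689) (.g (nat_lit 3184) (.e (nat_lit 1189) (nat_lit 88) (.e (nat_lit 65630) (nat_lit 14) (.e (nat_lit 401459) (nat_lit 13) (.e (nat_lit 483344) (nat_lit 17) (.e (nat_lit 6714) (nat_lit 360) .nil))))) .nil))))) (.nd (nat_lit 4) (.nd (nat_lit 5) (.nd (nat_lit 6) 
(.lf (nat_lit 24585) (.g (nat_lit 2847) (.e (nat_lit 1189) (nat_lit 88) (.e (nat_lit 65629) (nat_lit 14) (.e (nat_lit 401459) (nat_lit 13) (.e (nat_lit 483344) (nat_lit 17) (.e (nat_lit 6436) (nat_lit 343) .nil))))) .nil)) 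
(.lf (nat_lit 24649) (.g (nat_lit 2557) (.e (nat_lit 1189) (nat_lit 88) (.e (nat_lit 65630) (nat_lit 14) (.e (nat_lit 401437) (nat_lit 9) (.e (nat_lit 426555) (nat_lit 32) (.e (nat_lit 376859) (nat_lit 21) .nil))))) .nil))) (.nd (nat_lit 6) 
(.lf (nat_lit 24617) (.g (nat_lit 2262) (.e (nat_lit 1189) (nat_lit 88) (.e (nat_lit 65629) (nat_lit 14) (.e (nat_lit 401459) (nat_lit 13) (.e (nat_lit 483399) (nat_lit 25) .nil)))) .nil)) 
(.lf (nat_lit 24681) (.g (nat_lit 3588) (.e (nat_lit 1189) (nat_lit 88) (.e (nat_lit 65630) (nat_lit 14) (.e (nat_lit 401459) (nat_lit 13) (.e (nat_lit 483344) (nat_lit 17) (.e (nat_lit 6436) (nat_lit 343) .nil))))) .nil)))) (.nd (nat_lit 5) (.nd (nat_lit 6) 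
(.lf (nat_lit 24601) (.g (nat_lit 2423) (.e (nat_lit 1189) (nat_lit 88) (.e (nat_lit 65629) (nat_lit 14) (.e (nat_lit 401459) (nat_lit 13) (.e (nat_lit 483374) (nat_lit 22) .nil)))) .nil)) 
(.lf (nat_lit 24665) (.g (nat_lit 2490) (.e (nat_lit 1189) (nat_lit 88) (.e (nat_lit 65630) (nat_lit 14) (.e (nat_lit 401457) (nat_lit 13) (.e (nat_lit 483393) (nat_lit 23) (.e (nat_lit 335996) (nat_lit 1) .nil))))) .nil))) (.nd (nat_lit 6) 
(.lf (nat_lit 24633) (.g (nat_lit 1649) (.e (nat_lit 1189) (nat_lit 88) (.e (nat_lit 65630) (nat_lit 14) (.e (nat_lit 401435) (nat_lit 9) (.e (nat_lit 426546) (nat_lit 30) .nil)))) .nil)) 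
(.lf (nat_lit 24697) (.g (nat_lit 3079) (.e (nat_lit 1189) (nat_lit 88) (.e (nat_lit 65630) (nat_lit 14) (.e (nat_lit 401459) (nat_lit 13) (.e (nat_lit 483354) (nat_lit 17) (.e (nat_lit 7936) (nat_lit 343) .nil))))) .nil)))))) (.nd (nat_lit 3) (.nd (nat_lit 4) (.nd (nat_lit 5) (.nd (nat_lit 6) 
(.lf (nat_lit 24581) (.g (nat_lit 504) (.e (nat_lit 1189) (nat_lit 88) (.e (nat_lit 65629) (nat_lit 14) (.e (nat_lit 401459) (nat_lit 13) .nil))) .nil)) 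
(.lf (nat_lit 24645) (.g (nat_lit 2955) (.e (nat_lit 1189) (nat_lit 88) (.e (nat_lit 65630) (nat_lit 14) (.e (nat_lit 401437) (nat_lit 9) (.e (nat_lit 426542) (nat_lit 29) (.e (nat_lit 352309) (nat_lit 21) (.e (nat_lit 57870) (nat_lit 264) .nil)))))) (.g (nat_lit 5) .nil .nil)))) (.nd (nat_lit 6) 
(.lf (nat_lit 24613) (.g (nat_lit 3051) (.e (nat_lit 1189) (nat_lit 88) (.e (nat_lit 65629) (nat_lit 14) (.e (nat_lit 401459) (nat_lit 13) (.e (nat_lit 483393) (nat_lit 23) (.e (nat_lit 335988) (nat_lit 1) .nil))))) .nil)) 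
(.lf (nat_lit 24677) (.g (nat_lit 566) (.e (nat_lit 1189) (nat_lit 88) (.e (nat_lit 65630) (nat_lit 14) (.e (nat_lit 401459) (nat_lit 13) .nil))) .nil)))) (.nd (nat_lit 5) (.nd (nat_lit 6) 
(.lf (nat_lit 24597) (.g (nat_lit 2604) (.e (nat_lit 1189) (nat_lit 88) (.e (nat_lit 65629) (nat_lit 14) (.e (nat_lit 401459) (nat_lit 13) (.e (nat_lit 483354) (nat_lit 17) .nil)))) .nil)) 
(.lf (nat_lit 24661) (.g (nat_lit 1823) (.e (nat_lit 1189) (nat_lit 88) (.e (nat_lit 65630) (nat_lit 14) (.e (nat_lit 401457) (nat_lit 13) (.e (nat_lit 483383) (nat_lit 23) .nil)))) .nil))) (.nd (nat_lit 6) 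
(.lf (nat_lit 24629) (.g (nat_lit 2826) (.e (nat_lit 1189) (nat_lit 88) (.e (nat_lit 65630) (nat_lit 14) (.e (nat_lit 401428) (nat_lit 3) (.e (nat_lit 204869) (nat_lit 29) (.e (nat_lit 360455) (nat_lit 0) (.e (nat_lit 3962) (nat_lit 239) .nil)))))) (.g (nat_lit 4) .nil .nil))) 
(.lf (nat_lit 24693) (.g (nat_lit 2537) (.e (nat_lit 1189) (nat_lit 88) (.e (nat_lit 65630) (nat_lit 14) (.e (nat_lit 401459) (nat_lit 13) (.e (nat_lit 483350) (nat_lit 17) .nil)))) .nil))))) (.nd (nat_lit 4) (.nd (nat_lit 5) (.nd (nat_lit 6) 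
(.lf (nat_lit 24589) (.g (nat_lit 2745) (.e (nat_lit 1189) (nat_lit 88) (.e (nat_lit 65629) (nat_lit 14) (.e (nat_lit 401459) (nat_lit 13) (.e (nat_lit 483344) (nat_lit 17) (.e (nat_lit 7936) (nat_lit 346) .nil))))) .nil)) 
(.lf (nat_lit 24653) (.g (nat_lit 2043) (.e (nat_lit 1189) (nat_lit 88) (.e (nat_lit 65630) (nat_lit 14) (.e (nat_lit 401438) (nat_lit 9) (.e (nat_lit 426544) (nat_lit 30) (.e (nat_lit 368384) (nat_lit 0) .nil))))) .nil))) (.nd (nat_lit 6) 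
(.lf (nat_lit 24621) (.g (nat_lit 2247) (.e (nat_lit 1189) (nat_lit 88) (.e (nat_lit 65629) (nat_lit 14) (.e (nat_lit 401459) (nat_lit 13) (.e (nat_lit 483411) (nat_lit 27) .nil)))) .nil)) 
(.lf (nat_lit 24685) (.g (nat_lit 3366) (.e (nat_lit 1189) (nat_lit 88) (.e (nat_lit 65630) (nat_lit 14) (.e (nat_lit 401459) (nat_lit 13) (.e (nat_lit 483344) (nat_lit 17) (.e (nat_lit 7936) (nat_lit 343) .nil))))) .nil)))) (.nd (nat_lit 5) (.nd (nat_lit 6) 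
(.lf (nat_lit 24605) (.g (nat_lit 2671) (.e (nat_lit 1189) (nat_lit 88) (.e (nat_lit 65629) (nat_lit 14) (.e (nat_lit 401459) (nat_lit 13) (.e (nat_lit 483383) (nat_lit 23) .nil)))) .nil)) 
(.lf (nat_lit 24669) (.g (nat_lit 2146) (.e (nat_lit 1189) (nat_lit 88) (.e (nat_lit 65630) (nat_lit 14) (.e (nat_lit 401458) (nat_lit 13) (.e (nat_lit 483383) (nat_lit 23) (.e (nat_lit 336000) (nat_lit 1) (.e (nat_lit 57871) (nat_lit 264) .nil)))))) (.g (nat_lit 4) .nil .nil)))) (.nd (nat_lit 6) 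
(.lf (nat_lit 24637) (.g (nat_lit 2430) (.e (nat_lit 1189) (nat_lit 88) (.e (nat_lit 65630) (nat_lit 14) (.e (nat_lit 401435) (nat_lit 9) (.e (nat_lit 426555) (nat_lit 32) (.e (nat_lit 376860) (nat_lit 21) .nil))))) .nil)) 
(.lf (nat_lit 24701) (.g (nat_lit 2552) (.e (nat_lit 1189) (nat_lit 88) (.e (nat_lit 65630) (nat_lit 14) (.e (nat_lit 401459) (nat_lit 13) (.e (nat_lit 483372) (nat_lit 21) .nil)))) .nil))))))) (.nd (nat_lit 2) (.nd (nat_lit 3) (.nd (nat_lit 4) (.nd (nat_lit 5) (.nd (nat_lit 6) 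
(.lf (nat_lit 24579) (.g (nat_lit 2954) (.e (nat_lit 1189) (nat_lit 88) (.e (nat_lit 65628) (nat_lit 14) (.e (nat_lit 401459) (nat_lit 13) (.e (nat_lit 483411) (nat_lit 27) (.e (nat_lit 401463) (nat_lit 15) (.e (nat_lit 1014) (nat_lit 81) (.e (nat_lit 7454) (nat_lit 396) .nil))))))) (.g (nat_lit 4) .nil .nil))) 
(.lf (nat_lit 24643) (.g (nat_lit 3028) (.e (nat_lit 1189) (nat_lit 88) (.e (nat_lit 65630) (nat_lit 14) (.e (nat_lit 401437) (nat_lit 9) (.e (nat_lit 426542) (nat_lit 29) (.e (nat_lit 352307) (nat_lit 21) (.e (nat_lit 57870) (nat_lit 264) .nil)))))) (.g (nat_lit 5) .nil .nil)))) (.nd (nat_lit 6) 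
(.lf (nat_lit 24611) (.g (nat_lit 3307) (.e (nat_lit 1189) (nat_lit 88) (.e (nat_lit 65629) (nat_lit 14) (.e (nat_lit 401459) (nat_lit 13) (.e (nat_lit 483392) (nat_lit 23) (.e (nat_lit 335996) (nat_lit 1) .nil))))) .nil)) 
(.lf (nat_lit 24675) (.g (nat_lit 1707) (.e (nat_lit 1189) (nat_lit 88) (.e (nat_lit 65630) (nat_lit 14) (.e (nat_lit 401458) (nat_lit 13) (.e (nat_lit 483396) (nat_lit 24) .nil)))) .nil)))) (.nd (nat_lit 5) (.nd (nat_lit 6) 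
(.lf (nat_lit 24595) (.g (nat_lit 4318) (.e (nat_lit 1189) (nat_lit 88) (.e (nat_lit 65629) (nat_lit 14) (.e (nat_lit 401459) (nat_lit 13) (.e (nat_lit 483350) (nat_lit 17) (.e (nat_lit 7936) (nat_lit 343) .nil))))) .nil)) 
(.lf (nat_lit 24659) (.g (nat_lit 1610) (.e (nat_lit 1189) (nat_lit 88) (.e (nat_lit 65630) (nat_lit 14) (.e (nat_lit 401456) (nat_lit 13) (.e (nat_lit 483395) (nat_lit 24) .nil)))) .nil))) (.nd (nat_lit 6) 
(.lf (nat_lit 24627) (.g (nat_lit 2865) (.e (nat_lit 1189) (nat_lit 88) (.e (nat_lit 65630) (nat_lit 14) (.e (nat_lit 401428) (nat_lit 3) (.e (nat_lit 204869) (nat_lit 29) (.e (nat_lit 360448) (nat_lit 0) (.e (nat_lit 3972) (nat_lit 239) .nil)))))) (.g (nat_lit 4) .nil .nil))) 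
(.lf (nat_lit 24691) (.g (nat_lit 2558) (.e (nat_lit 1189) (nat_lit 88) (.e (nat_lit 65630) (nat_lit 14) (.e (nat_lit 401459) (nat_lit 13) (.e (nat_lit 483347) (nat_lit 17) .nil)))) .nil))))) (.nd (nat_lit 4) (.nd (nat_lit 5) (.nd (nat_lit 6) 
(.lf (nat_lit 24587) (.g (nat_lit 2745) (.e (nat_lit 1189) (nat_lit 88) (.e (nat_lit 65629) (nat_lit 14) (.e (nat_lit 401459) (nat_lit 13) (.e (nat_lit 483344) (nat_lit 17) (.e (nat_lit 7936) (nat_lit 343) .nil))))) .nil)) 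
(.lf (nat_lit 24651) (.g (nat_lit 2760) (.e (nat_lit 1189) (nat_lit 88) (.e (nat_lit 65630) (nat_lit 14) (.e (nat_lit 401438) (nat_lit 9) (.e (nat_lit 426542) (nat_lit 29) (.e (nat_lit 352307) (nat_lit 21) (.e (nat_lit 57870) (nat_lit 264) .nil)))))) (.g (nat_lit 6) .nil .nil)))) (.nd (nat_lit 6) 
(.lf (nat_lit 24619) (.g (nat_lit 2394) (.e (nat_lit 1189) (nat_lit 88) (.e (nat_lit 65629) (nat_lit 14) (.e (nat_lit 401459) (nat_lit 13) (.e (nat_lit 483400) (nat_lit 25) .nil)))) .nil)) 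
(.lf (nat_lit 24683) (.g (nat_lit 3826) (.e (nat_lit 1189) (nat_lit 88) (.e (nat_lit 65630) (nat_lit 14) (.e (nat_lit 401459) (nat_lit 13) (.e (nat_lit 483344) (nat_lit 17) (.e (nat_lit 6479) (nat_lit 343) (.e (nat_lit 1181) (nat_lit 87) (.e (nat_lit 57870) (nat_lit 264) .nil))))))) (.g (nat_lit 4) .nil .nil))))) (.nd (nat_lit 5) (.nd (nat_lit 6) 
(.lf (nat_lit 24603) (.g (nat_lit 2002) (.e (nat_lit 1189) (nat_lit 88) (.e (nat_lit 65629) (nat_lit 14) (.e (nat_lit 401459) (nat_lit 13) (.e (nat_lit 483380) (nat_lit 23) .nil)))) .nil)) 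
(.lf (nat_lit 24667) (.g (nat_lit 2352) (.e (nat_lit 1189) (nat_lit 88) (.e (nat_lit 65630) (nat_lit 14) (.e (nat_lit 401458) (nat_lit 13) (.e (nat_lit 483378) (nat_lit 23) (.e (nat_lit 335997) (nat_lit 1) (.e (nat_lit 57870) (nat_lit 264) .nil)))))) (.g (nat_lit 5) .nil .nil)))) (.nd (nat_lit 6) 
(.lf (nat_lit 24635) (.g (nat_lit 2487) (.e (nat_lit 1189) (nat_lit 88) (.e (nat_lit 65630) (nat_lit 14) (.e (nat_lit 401435) (nat_lit 9) (.e (nat_lit 426555) (nat_lit 32) (.e (nat_lit 376857) (nat_lit 21) (.e (nat_lit 57870) (nat_lit 264) .nil)))))) (.g (nat_lit 4) .nil .nil))) 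
(.lf (nat_lit 24699) (.g (nat_lit 2666) (.e (nat_lit 1189) (nat_lit 88) (.e (nat_lit 65630) (nat_lit 14) (.e (nat_lit 401459) (nat_lit 13) (.e (nat_lit 483364) (nat_lit 18) .nil)))) .nil)))))) (.nd (nat_lit 3) (.nd (nat_lit 4) (.nd (nat_lit 5) (.nd (nat_lit 6) 
(.lf (nat_lit 24583) (.g (nat_lit 1848) (.e (nat_lit 1189) (nat_lit 88) (.e (nat_lit 65629) (nat_lit 14) (.e (nat_lit 401459) (nat_lit 13) (.e (nat_lit 483344) (nat_lit 17) .nil)))) .nil)) 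
(.lf (nat_lit 24647) (.g (nat_lit 2668) (.e (nat_lit 1189) (nat_lit 88) (.e (nat_lit 65630) (nat_lit 14) (.e (nat_lit 401437) (nat_lit 9) (.e (nat_lit 426546) (nat_lit 30) (.e (nat_lit 368384) (nat_lit 0) .nil))))) .nil))) (.nd (nat_lit 6) 
(.lf (nat_lit 24615) (.g (nat_lit 2900) (.e (nat_lit 1189) (nat_lit 88) (.e (nat_lit 65629) (nat_lit 14) (.e (nat_lit 401459) (nat_lit 13) (.e (nat_lit 483397) (nat_lit 25) .nil)))) .nil)) 
(.lf (nat_lit 24679) (.g (nat_lit 2784) (.e (nat_lit 1189) (nat_lit 88) (.e (nat_lit 65630) (nat_lit 14) (.e (nat_lit 401459) (nat_lit 13) (.e (nat_lit 483343) (nat_lit 17) (.e (nat_lit 6514) (nat_lit 346) .nil))))) .nil)))) (.nd (nat_lit 5) (.nd (nat_lit 6) 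
(.lf (nat_lit 24599) (.g (nat_lit 2532) (.e (nat_lit 1189) (nat_lit 88) (.e (nat_lit 65629) (nat_lit 14) (.e (nat_lit 401459) (nat_lit 13) (.e (nat_lit 483363) (nat_lit 18) .nil)))) .nil)) 
(.lf (nat_lit 24663) (.g (nat_lit 1929) (.e (nat_lit 1189) (nat_lit 88) (.e (nat_lit 65630) (nat_lit 14) (.e (nat_lit 401457) (nat_lit 13) (.e (nat_lit 483393) (nat_lit 23) .nil)))) .nil))) (.nd (nat_lit 6) 
(.lf (nat_lit 24631) (.g (nat_lit 1830) (.e (nat_lit 1189) (nat_lit 88) (.e (nat_lit 65630) (nat_lit 14) (.e (nat_lit 401428) (nat_lit 3) (.e (nat_lit 204876) (nat_lit 31) .nil)))) .nil)) 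
(.lf (nat_lit 24695) (.g (nat_lit 3660) (.e (nat_lit 1189) (nat_lit 88) (.e (nat_lit 65630) (nat_lit 14) (.e (nat_lit 401459) (nat_lit 13) (.e (nat_lit 483350) (nat_lit 17) (.e (nat_lit 7936) (nat_lit 346) .nil))))) .nil))))) (.nd (nat_lit 4) (.nd (nat_lit 5) (.nd (nat_lit 6) 
(.lf (nat_lit 24591) (.g (nat_lit 2479) (.e (nat_lit 1189) (nat_lit 88) (.e (nat_lit 65629) (nat_lit 14) (.e (nat_lit 401459) (nat_lit 13) (.e (nat_lit 483347) (nat_lit 17) .nil)))) .nil)) 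
(.lf (nat_lit 24655) (.g (nat_lit 2430) (.e (nat_lit 1189) (nat_lit 88) (.e (nat_lit 65630) (nat_lit 14) (.e (nat_lit 401438) (nat_lit 9) (.e (nat_lit 426555) (nat_lit 32) (.e (nat_lit 376859) (nat_lit 21) .nil))))) .nil))) (.nd (nat_lit 6) 
(.lf (nat_lit 24623) (.g (nat_lit 3863) (.e (nat_lit 1189) (nat_lit 88) (.e (nat_lit 65629) (nat_lit 14) (.e (nat_lit 401459) (nat_lit 13) (.e (nat_lit 483411) (nat_lit 27) (.e (nat_lit 401463) (nat_lit 15) .nil))))) .nil)) 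
(.lf (nat_lit 24687) (.g (nat_lit 3292) (.e (nat_lit 1189) (nat_lit 88) (.e (nat_lit 65630) (nat_lit 14) (.e (nat_lit 401459) (nat_lit 13) (.e (nat_lit 483344) (nat_lit 17) (.e (nat_lit 6712) (nat_lit 360) .nil))))) .nil)))) (.nd (nat_lit 5) (.nd (nat_lit 6) 
(.lf (nat_lit 24607) (.g (nat_lit 2723) (.e (nat_lit 1189) (nat_lit 88) (.e (nat_lit 65629) (nat_lit 14) (.e (nat_lit 401459) (nat_lit 13) (.e (nat_lit 483389) (nat_lit 23) .nil)))) .nil)) 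
(.lf (nat_lit 24671) (.g (nat_lit 1599) (.e (nat_lit 1189) (nat_lit 88) (.e (nat_lit 65630) (nat_lit 14) (.e (nat_lit 401458) (nat_lit 13) (.e (nat_lit 483393) (nat_lit 23) .nil)))) .nil))) (.nd (nat_lit 6) 
(.lf (nat_lit 24639) (.g (nat_lit 1537) (.e (nat_lit 1189) (nat_lit 88) (.e (nat_lit 65630) (nat_lit 14) (.e (nat_lit 401436) (nat_lit 9) (.e (nat_lit 426544) (nat_lit 30) .nil)))) .nil)) 
(.lf (nat_lit 24703) (.g (nat_lit 5188) (.e (nat_lit 1189) (nat_lit 88) (.e (nat_lit 65630) (nat_lit 14) (.e (nat_lit 401459) (nat_lit 13) (.e (nat_lit 483372) (nat_lit 21) (.e (nat_lit 319516) (nat_lit 11) .nil))))) .nil)))))))))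

noncomputable def tv348 : DT := (.nd (nat_lit 0) (.nd (nat_lit 1) (.nd (nat_lit 2) (.nd (nat_lit 3) (.nd (nat_lit 4) (.nd (nat_lit 5) 
(.lf (nat_lit 24704) (.g (nat_lit 2873) (.e (nat_lit 1189) (nat_lit 88) (.e (nat_lit 65630) (nat_lit 14) (.e (nat_lit 401459) (nat_lit 13) (.e (nat_lit 483374) (nat_lit 22) .nil)))) .nil)) 
(.lf (nat_lit 24736) (.g (nat_lit 4223) (.e (nat_lit 1189) (nat_lit 88) (.e (nat_lit 65630) (nat_lit 14) (.e (nat_lit 401459) (nat_lit 13) (.e (nat_lit 483411) (nat_lit 27) (.e (nat_lit 401463) (nat_lit 15) .nil))))) .nil))) (.nd (nat_lit 5) 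
(.lf (nat_lit 24720) (.g (nat_lit 3468) (.e (nat_lit 1189) (nat_lit 88) (.e (nat_lit 65630) (nat_lit 14) (.e (nat_lit 401459) (nat_lit 13) (.e (nat_lit 483393) (nat_lit 23) (.e (nat_lit 335987) (nat_lit 1) .nil))))) .nil)) 
(.lf (nat_lit 24752) (.g (nat_lit 2193) (.e (nat_lit 1190) (nat_lit 88) (.e (nat_lit 65567) (nat_lit 2) (.e (nat_lit 90176) (nat_lit 15) (.e (nat_lit 188450) (nat_lit 23) (.e (nat_lit 204819) (nat_lit 17) (.e (nat_lit 973) (nat_lit 81) (.e (nat_lit 4491) (nat_lit 263) .nil))))))) (.g (nat_lit 4) .nil .nil))))) (.nd (nat_lit 4) (.nd (nat_lit 5) 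
(.lf (nat_lit 24712) (.g (nat_lit 2834) (.e (nat_lit 1189) (nat_lit 88) (.e (nat_lit 65630) (nat_lit 14) (.e (nat_lit 401459) (nat_lit 13) (.e (nat_lit 483386) (nat_lit 23) (.e (nat_lit 335992) (nat_lit 1) .nil))))) .nil)) 
(.lf (nat_lit 24744) (.g (nat_lit 3112) (.e (nat_lit 1190) (nat_lit 88) (.e (nat_lit 65566) (nat_lit 2) (.e (nat_lit 90170) (nat_lit 13) (.e (nat_lit 172106) (nat_lit 10) (.e (nat_lit 434231) (nat_lit 23) (.e (nat_lit 532490) (nat_lit 0) (.e (nat_lit 1086) (nat_lit 81) (.e (nat_lit 4490) (nat_lit 263) .nil)))))))) (.g (nat_lit 6) .nil .nil)))) (.nd (nat_lit 5) 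
(.lf (nat_lit 24728) (.g (nat_lit 2672) (.e (nat_lit 1189) (nat_lit 88) (.e (nat_lit 65630) (nat_lit 14) (.e (nat_lit 401459) (nat_lit 13) (.e (nat_lit 483399) (nat_lit 25) .nil)))) .nil)) 
(.lf (nat_lit 24760) (.g (nat_lit 3112) (.e (nat_lit 1190) (nat_lit 88) (.e (nat_lit 65568) (nat_lit 2) (.e (nat_lit 90170) (nat_lit 13) (.e (nat_lit 172106) (nat_lit 10) (.e (nat_lit 434231) (nat_lit 23) (.e (nat_lit 532482) (nat_lit 0) (.e (nat_lit 1050) (nat_lit 81) (.e (nat_lit 4491) (nat_lit 263) .nil)))))))) (.g (nat_lit 5) .nil .nil)))))) (.nd (nat_lit 3) (.nd (nat_lit 4) (.nd (nat_lit 5) 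
(.lf (nat_lit 24708) (.g (nat_lit 4149) (.e (nat_lit 1189) (nat_lit 88) (.e (nat_lit 65630) (nat_lit 14) (.e (nat_lit 401459) (nat_lit 13) (.e (nat_lit 483380) (nat_lit 23) (.e (nat_lit 335973) (nat_lit 0) .nil))))) .nil)) 
(.lf (nat_lit 24740) (.g (nat_lit 2854) (.e (nat_lit 1190) (nat_lit 88) (.e (nat_lit 65566) (nat_lit 2) (.e (nat_lit 90170) (nat_lit 13) (.e (nat_lit 172106) (nat_lit 10) (.e (nat_lit 434231) (nat_lit 23) (.e (nat_lit 532482) (nat_lit 0) (.e (nat_lit 979) (nat_lit 81) (.e (nat_lit 4490) (nat_lit 263) .nil)))))))) (.g (nat_lit 5) .nil .nil)))) (.nd (nat_lit 5) 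
(.lf (nat_lit 24724) (.g (nat_lit 2773) (.e (nat_lit 1189) (nat_lit 88) (.e (nat_lit 65630) (nat_lit 14) (.e (nat_lit 401459) (nat_lit 13) (.e (nat_lit 483396) (nat_lit 24) .nil)))) .nil)) 
(.lf (nat_lit 24756) (.g (nat_lit 3940) (.e (nat_lit 1190) (nat_lit 88) (.e (nat_lit 65568) (nat_lit 2) (.e (nat_lit 90170) (nat_lit 13) (.e (nat_lit 172106) (nat_lit 10) (.e (nat_lit 434231) (nat_lit 23) (.e (nat_lit 532481) (nat_lit 0) (.e (nat_lit 981) (nat_lit 81) (.e (nat_lit 4490) (nat_lit 263) .nil)))))))) (.g (nat_lit 5) .nil .nil))))) (.nd (nat_lit 4) (.nd (nat_lit 5) 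
(.lf (nat_lit 24716) (.g (nat_lit 2890) (.e (nat_lit 1189) (nat_lit 88) (.e (nat_lit 65630) (nat_lit 14) (.e (nat_lit 401459) (nat_lit 13) (.e (nat_lit 483391) (nat_lit 23) .nil)))) .nil)) 
(.lf (nat_lit 24748) (.g (nat_lit 3073) (.e (nat_lit 1190) (nat_lit 88) (.e (nat_lit 65566) (nat_lit 2) (.e (nat_lit 90170) (nat_lit 13) (.e (nat_lit 172106) (nat_lit 10) (.e (nat_lit 434244) (nat_lit 28) (.e (nat_lit 573468) (nat_lit 10) (.e (nat_lit 8194) (nat_lit 0) (.e (nat_lit 4491) (nat_lit 263) .nil)))))))) (.g (nat_lit 6) .nil .nil)))) (.nd (nat_lit 5) 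
(.lf (nat_lit 24732) (.g (nat_lit 3453) (.e (nat_lit 1189) (nat_lit 88) (.e (nat_lit 65630) (nat_lit 14) (.e (nat_lit 401459) (nat_lit 13) (.e (nat_lit 483410) (nat_lit 27) (.e (nat_lit 401462) (nat_lit 15) .nil))))) .nil)) 
(.lf (nat_lit 24764) (.g (nat_lit 4721) (.e (nat_lit 1190) (nat_lit 88) (.e (nat_lit 65568) (nat_lit 2) (.e (nat_lit 90170) (nat_lit 13) (.e (nat_lit 172106) (nat_lit 10) (.e (nat_lit 434231) (nat_lit 23) (.e (nat_lit 532499) (nat_lit 1) (.e (nat_lit 65280) (nat_lit 221) .nil))))))) (.g (nat_lit 6) .nil .nil))))))) (.nd (nat_lit 2) (.nd (nat_lit 3) (.nd (nat_lit 4) (.nd (nat_lit 5) 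
(.lf (nat_lit 24706) (.g (nat_lit 2497) (.e (nat_lit 1189) (nat_lit 88) (.e (nat_lit 65630) (nat_lit 14) (.e (nat_lit 401459) (nat_lit 13) (.e (nat_lit 483380) (nat_lit 23) .nil)))) .nil)) 
(.lf (nat_lit 24738) (.g (nat_lit 4142) (.e (nat_lit 1190) (nat_lit 88) (.e (nat_lit 65566) (nat_lit 2) (.e (nat_lit 90170) (nat_lit 13) (.e (nat_lit 172106) (nat_lit 10) (.e (nat_lit 434231) (nat_lit 23) (.e (nat_lit 532481) (nat_lit 0) (.e (nat_lit 971) (nat_lit 81) (.e (nat_lit 4491) (nat_lit 263) .nil)))))))) (.g (nat_lit 6) .nil .nil)))) (.nd (nat_lit 5) 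
(.lf (nat_lit 24722) (.g (nat_lit 2226) (.e (nat_lit 1189) (nat_lit 88) (.e (nat_lit 65630) (nat_lit 14) (.e (nat_lit 401459) (nat_lit 13) (.e (nat_lit 483394) (nat_lit 24) .nil)))) .nil)) 
(.lf (nat_lit 24754) (.g (nat_lit 3867) (.e (nat_lit 1190) (nat_lit 88) (.e (nat_lit 65568) (nat_lit 2) (.e (nat_lit 90170) (nat_lit 13) (.e (nat_lit 172106) (nat_lit 10) (.e (nat_lit 434231) (nat_lit 23) (.e (nat_lit 532481) (nat_lit 0) (.e (nat_lit 971) (nat_lit 81) (.e (nat_lit 4490) (nat_lit 263) .nil)))))))) (.g (nat_lit 5) .nil .nil))))) (.nd (nat_lit 4) (.nd (nat_lit 5) 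
(.lf (nat_lit 24714) (.g (nat_lit 3054) (.e (nat_lit 1189) (nat_lit 88) (.e (nat_lit 65630) (nat_lit 14) (.e (nat_lit 401459) (nat_lit 13) (.e (nat_lit 483388) (nat_lit 23) .nil)))) .nil)) 
(.lf (nat_lit 24746) (.g (nat_lit 3237) (.e (nat_lit 1190) (nat_lit 88) (.e (nat_lit 65566) (nat_lit 2) (.e (nat_lit 90170) (nat_lit 13) (.e (nat_lit 172106) (nat_lit 10) (.e (nat_lit 434244) (nat_lit 28) (.e (nat_lit 573468) (nat_lit 10) (.e (nat_lit 8192) (nat_lit 0) (.e (nat_lit 4491) (nat_lit 263) .nil)))))))) (.g (nat_lit 6) .nil .nil)))) (.nd (nat_lit 5) 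
(.lf (nat_lit 24730) (.g (nat_lit 2881) (.e (nat_lit 1189) (nat_lit 88) (.e (nat_lit 65630) (nat_lit 14) (.e (nat_lit 401459) (nat_lit 13) (.e (nat_lit 483400) (nat_lit 25) .nil)))) .nil)) 
(.lf (nat_lit 24762) (.g (nat_lit 3568) (.e (nat_lit 1190) (nat_lit 88) (.e (nat_lit 65568) (nat_lit 2) (.e (nat_lit 90170) (nat_lit 13) (.e (nat_lit 172106) (nat_lit 10) (.e (nat_lit 434231) (nat_lit 23) (.e (nat_lit 532483) (nat_lit 0) (.e (nat_lit 1097) (nat_lit 81) (.e (nat_lit 4490) (nat_lit 263) .nil)))))))) (.g (nat_lit 5) .nil .nil)))))) (.nd (nat_lit 3) (.nd (nat_lit 4) (.nd (nat_lit 5) 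
(.lf (nat_lit 24710) (.g (nat_lit 2312) (.e (nat_lit 1189) (nat_lit 88) (.e (nat_lit 65630) (nat_lit 14) (.e (nat_lit 401459) (nat_lit 13) (.e (nat_lit 483386) (nat_lit 23) .nil)))) .nil)) 
(.lf (nat_lit 24742) (.g (nat_lit 3289) (.e (nat_lit 1190) (nat_lit 88) (.e (nat_lit 65566) (nat_lit 2) (.e (nat_lit 90170) (nat_lit 13) (.e (nat_lit 172106) (nat_lit 10) (.e (nat_lit 434231) (nat_lit 23) (.e (nat_lit 532483) (nat_lit 0) (.e (nat_lit 7936) (nat_lit 81) (.e (nat_lit 4491) (nat_lit 263) .nil)))))))) (.g (nat_lit 5) .nil .nil)))) (.nd (nat_lit 5) 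
(.lf (nat_lit 24726) (.g (nat_lit 2611) (.e (nat_lit 1189) (nat_lit 88) (.e (nat_lit 65630) (nat_lit 14) (.e (nat_lit 401459) (nat_lit 13) (.e (nat_lit 483398) (nat_lit 25) .nil)))) .nil)) 
(.lf (nat_lit 24758) (.g (nat_lit 3902) (.e (nat_lit 1190) (nat_lit 88) (.e (nat_lit 65568) (nat_lit 2) (.e (nat_lit 90170) (nat_lit 13) (.e (nat_lit 172106) (nat_lit 10) (.e (nat_lit 434231) (nat_lit 23) (.e (nat_lit 532482) (nat_lit 0) (.e (nat_lit 971) (nat_lit 81) (.e (nat_lit 4490) (nat_lit 263) .nil)))))))) (.g (nat_lit 6) .nil .nil))))) (.nd (nat_lit 4) (.nd (nat_lit 5) 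
(.lf (nat_lit 24718) (.g (nat_lit 2843) (.e (nat_lit 1189) (nat_lit 88) (.e (nat_lit 65630) (nat_lit 14) (.e (nat_lit 401459) (nat_lit 13) (.e (nat_lit 483393) (nat_lit 23) .nil)))) .nil)) 
(.lf (nat_lit 24750) (.g (nat_lit 2146) (.e (nat_lit 1190) (nat_lit 88) (.e (nat_lit 65566) (nat_lit 2) (.e (nat_lit 90176) (nat_lit 15) (.e (nat_lit 188450) (nat_lit 23) (.e (nat_lit 204819) (nat_lit 17) (.e (nat_lit 973) (nat_lit 81) (.e (nat_lit 4491) (nat_lit 263) .nil))))))) (.g (nat_lit 4) .nil .nil)))) (.nd (nat_lit 5) 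
(.lf (nat_lit 24734) (.g (nat_lit 2874) (.e (nat_lit 1189) (nat_lit 88) (.e (nat_lit 65630) (nat_lit 14) (.e (nat_lit 401459) (nat_lit 13) (.e (nat_lit 483411) (nat_lit 27) .nil)))) .nil)) 
(.lf (nat_lit 24766) (.g (nat_lit 3538) (.e (nat_lit 1190) (nat_lit 88) (.e (nat_lit 65568) (nat_lit 2) (.e (nat_lit 90170) (nat_lit 13) (.e (nat_lit 172106) (nat_lit 10) (.e (nat_lit 434231) (nat_lit 23) (.e (nat_lit 540416) (nat_lit 18) (.e (nat_lit 164163) (nat_lit 152) .nil))))))) (.g (nat_lit 5) .nil .nil)))))))) 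
(.nd (nat_lit 1) (.nd (nat_lit 2) (.nd (nat_lit 3) (.nd (nat_lit 4) (.nd (nat_lit 5) 
(.lf (nat_lit 24705) (.g (nat_lit 2573) (.e (nat_lit 1189) (nat_lit 88) (.e (nat_lit 65630) (nat_lit 14) (.e (nat_lit 401459) (nat_lit 13) (.e (nat_lit 483375) (nat_lit 22) .nil)))) .nil)) 
(.lf (nat_lit 24737) (.g (nat_lit 1760) (.e (nat_lit 1189) (nat_lit 88) (.e (nat_lit 65637) (nat_lit 15) (.e (nat_lit 3632) (nat_lit 227) (.e (nat_lit 778323) (nat_lit 5) .nil)))) .nil))) (.nd (nat_lit 5) 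
(.lf (nat_lit 24721) (.g (nat_lit 3469) (.e (nat_lit 1189) (nat_lit 88) (.e (nat_lit 65630) (nat_lit 14) (.e (nat_lit 401459) (nat_lit 13) (.e (nat_lit 483393) (nat_lit 23) (.e (nat_lit 335995) (nat_lit 1) .nil))))) .nil)) 
(.lf (nat_lit 24753) (.g (nat_lit 3946) (.e (nat_lit 1190) (nat_lit 88) (.e (nat_lit 65568) (nat_lit 2) (.e (nat_lit 90170) (nat_lit 13) (.e (nat_lit 172106) (nat_lit 10) (.e (nat_lit 434231) (nat_lit 23) (.e (nat_lit 532481) (nat_lit 0) (.e (nat_lit 969) (nat_lit 81) (.e (nat_lit 4491) (nat_lit 263) .nil)))))))) (.g (nat_lit 5) .nil .nil))))) (.nd (nat_lit 4) (.nd (nat_lit 5) 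
(.lf (nat_lit 24713) (.g (nat_lit 3056) (.e (nat_lit 1189) (nat_lit 88) (.e (nat_lit 65630) (nat_lit 14) (.e (nat_lit 401459) (nat_lit 13) (.e (nat_lit 483387) (nat_lit 23) (.e (nat_lit 335997) (nat_lit 1) (.e (nat_lit 57871) (nat_lit 264) .nil)))))) (.g (nat_lit 4) .nil .nil))) 
(.lf (nat_lit 24745) (.g (nat_lit 3331) (.e (nat_lit 1190) (nat_lit 88) (.e (nat_lit 65566) (nat_lit 2) (.e (nat_lit 90170) (nat_lit 13) (.e (nat_lit 172106) (nat_lit 10) (.e (nat_lit 434231) (nat_lit 23) (.e (nat_lit 532490) (nat_lit 0) (.e (nat_lit 7936) (nat_lit 81) (.e (nat_lit 4491) (nat_lit 263) .nil)))))))) (.g (nat_lit 6) .nil .nil)))) (.nd (nat_lit 5) 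
(.lf (nat_lit 24729) (.g (nat_lit 3046) (.e (nat_lit 1189) (nat_lit 88) (.e (nat_lit 65630) (nat_lit 14) (.e (nat_lit 401459) (nat_lit 13) (.e (nat_lit 483399) (nat_lit 25) (.e (nat_lit 368662) (nat_lit 18) .nil))))) .nil)) 
(.lf (nat_lit 24761) (.g (nat_lit 3449) (.e (nat_lit 1190) (nat_lit 88) (.e (nat_lit 65568) (nat_lit 2) (.e (nat_lit 90170) (nat_lit 13) (.e (nat_lit 172106) (nat_lit 10) (.e (nat_lit 434231) (nat_lit 23) (.e (nat_lit 532483) (nat_lit 0) (.e (nat_lit 1063) (nat_lit 81) (.e (nat_lit 4490) (nat_lit 263) .nil)))))))) (.g (nat_lit 5) .nil .nil)))))) (.nd (nat_lit 3) (.nd (nat_lit 4) (.nd (nat_lit 5) 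
(.lf (nat_lit 24709) (.g (nat_lit 2967) (.e (nat_lit 1189) (nat_lit 88) (.e (nat_lit 65630) (nat_lit 14) (.e (nat_lit 401459) (nat_lit 13) (.e (nat_lit 483383) (nat_lit 23) .nil)))) .nil)) 
(.lf (nat_lit 24741) (.g (nat_lit 2424) (.e (nat_lit 1190) (nat_lit 88) (.e (nat_lit 65566) (nat_lit 2) (.e (nat_lit 90170) (nat_lit 13) (.e (nat_lit 172106) (nat_lit 10) (.e (nat_lit 434231) (nat_lit 23) (.e (nat_lit 532482) (nat_lit 0) (.e (nat_lit 1050) (nat_lit 81) (.e (nat_lit 4491) (nat_lit 263) .nil)))))))) (.g (nat_lit 5) .nil .nil)))) (.nd (nat_lit 5) 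
(.lf (nat_lit 24725) (.g (nat_lit 3092) (.e (nat_lit 1189) (nat_lit 88) (.e (nat_lit 65630) (nat_lit 14) (.e (nat_lit 401459) (nat_lit 13) (.e (nat_lit 483397) (nat_lit 25) .nil)))) .nil)) 
(.lf (nat_lit 24757) (.g (nat_lit 4670) (.e (nat_lit 1190) (nat_lit 88) (.e (nat_lit 65568) (nat_lit 2) (.e (nat_lit 90170) (nat_lit 13) (.e (nat_lit 172106) (nat_lit 10) (.e (nat_lit 434231) (nat_lit 23) (.e (nat_lit 532481) (nat_lit 0) (.e (nat_lit 1050) (nat_lit 81) (.e (nat_lit 4491) (nat_lit 263) .nil)))))))) (.g (nat_lit 6) .nil .nil))))) (.nd (nat_lit 4) (.nd (nat_lit 5) 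
(.lf (nat_lit 24717) (.g (nat_lit 3133) (.e (nat_lit 1189) (nat_lit 88) (.e (nat_lit 65630) (nat_lit 14) (.e (nat_lit 401459) (nat_lit 13) (.e (nat_lit 483392) (nat_lit 23) .nil)))) .nil)) 
(.lf (nat_lit 24749) (.g (nat_lit 2012) (.e (nat_lit 1190) (nat_lit 88) (.e (nat_lit 65566) (nat_lit 2) (.e (nat_lit 90170) (nat_lit 13) (.e (nat_lit 172106) (nat_lit 10) (.e (nat_lit 434244) (nat_lit 28) (.e (nat_lit 573468) (nat_lit 10) (.e (nat_lit 8202) (nat_lit 0) (.e (nat_lit 4490) (nat_lit 263) .nil)))))))) (.g (nat_lit 5) .nil .nil)))) (.nd (nat_lit 5) 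
(.lf (nat_lit 24733) (.g (nat_lit 3427) (.e (nat_lit 1189) (nat_lit 88) (.e (nat_lit 65630) (nat_lit 14) (.e (nat_lit 401459) (nat_lit 13) (.e (nat_lit 483410) (nat_lit 27) (.e (nat_lit 401463) (nat_lit 15) .nil))))) .nil)) 
(.lf (nat_lit 24765) (.g (nat_lit 5040) (.e (nat_lit 1190) (nat_lit 88) (.e (nat_lit 65568) (nat_lit 2) (.e (nat_lit 90170) (nat_lit 13) (.e (nat_lit 172106) (nat_lit 10) (.e (nat_lit 434231) (nat_lit 23) (.e (nat_lit 532500) (nat_lit 1) (.e (nat_lit 65280) (nat_lit 221) .nil))))))) (.g (nat_lit 6) .nil .nil))))))) (.nd (nat_lit 2) (.nd (nat_lit 3) (.nd (nat_lit 4) (.nd (nat_lit 5) 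
(.lf (nat_lit 24707) (.g (nat_lit 4131) (.e (nat_lit 1189) (nat_lit 88) (.e (nat_lit 65630) (nat_lit 14) (.e (nat_lit 401459) (nat_lit 13) (.e (nat_lit 483380) (nat_lit 23) (.e (nat_lit 335969) (nat_lit 0) .nil))))) .nil)) 
(.lf (nat_lit 24739) (.g (nat_lit 2578) (.e (nat_lit 1190) (nat_lit 88) (.e (nat_lit 65566) (nat_lit 2) (.e (nat_lit 90170) (nat_lit 13) (.e (nat_lit 172106) (nat_lit 10) (.e (nat_lit 434231) (nat_lit 23) (.e (nat_lit 532482) (nat_lit 0) (.e (nat_lit 971) (nat_lit 81) (.e (nat_lit 4490) (nat_lit 263) .nil)))))))) (.g (nat_lit 5) .nil .nil)))) (.nd (nat_lit 5) 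
(.lf (nat_lit 24723) (.g (nat_lit 2297) (.e (nat_lit 1189) (nat_lit 88) (.e (nat_lit 65630) (nat_lit 14) (.e (nat_lit 401459) (nat_lit 13) (.e (nat_lit 483395) (nat_lit 24) .nil)))) .nil)) 
(.lf (nat_lit 24755) (.g (nat_lit 4828) (.e (nat_lit 1190) (nat_lit 88) (.e (nat_lit 65568) (nat_lit 2) (.e (nat_lit 90170) (nat_lit 13) (.e (nat_lit 172106) (nat_lit 10) (.e (nat_lit 434231) (nat_lit 23) (.e (nat_lit 532481) (nat_lit 0) (.e (nat_lit 971) (nat_lit 81) (.e (nat_lit 4491) (nat_lit 263) .nil)))))))) (.g (nat_lit 6) .nil .nil))))) (.nd (nat_lit 4) (.nd (nat_lit 5) 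
(.lf (nat_lit 24715) (.g (nat_lit 3066) (.e (nat_lit 1189) (nat_lit 88) (.e (nat_lit 65630) (nat_lit 14) (.e (nat_lit 401459) (nat_lit 13) (.e (nat_lit 483389) (nat_lit 23) .nil)))) .nil)) 
(.lf (nat_lit 24747) (.g (nat_lit 2841) (.e (nat_lit 1190) (nat_lit 88) (.e (nat_lit 65566) (nat_lit 2) (.e (nat_lit 90170) (nat_lit 13) (.e (nat_lit 172106) (nat_lit 10) (.e (nat_lit 434244) (nat_lit 28) (.e (nat_lit 573468) (nat_lit 10) (.e (nat_lit 8193) (nat_lit 0) (.e (nat_lit 4491) (nat_lit 263) .nil)))))))) (.g (nat_lit 6) .nil .nil)))) (.nd (nat_lit 5) 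
(.lf (nat_lit 24731) (.g (nat_lit 2298) (.e (nat_lit 1189) (nat_lit 88) (.e (nat_lit 65630) (nat_lit 14) (.e (nat_lit 401459) (nat_lit 13) (.e (nat_lit 483410) (nat_lit 27) .nil)))) .nil)) 
(.lf (nat_lit 24763) (.g (nat_lit 4279) (.e (nat_lit 1190) (nat_lit 88) (.e (nat_lit 65568) (nat_lit 2) (.e (nat_lit 90170) (nat_lit 13) (.e (nat_lit 172106) (nat_lit 10) (.e (nat_lit 434231) (nat_lit 23) (.e (nat_lit 532490) (nat_lit 0) (.e (nat_lit 990) (nat_lit 81) (.e (nat_lit 4500) (nat_lit 263) .nil)))))))) (.g (nat_lit 6) .nil .nil)))))) (.nd (nat_lit 3) (.nd (nat_lit 4) (.nd (nat_lit 5) 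
(.lf (nat_lit 24711) (.g (nat_lit 2777) (.e (nat_lit 1189) (nat_lit 88) (.e (nat_lit 65630) (nat_lit 14) (.e (nat_lit 401459) (nat_lit 13) (.e (nat_lit 483386) (nat_lit 23) (.e (nat_lit 335985) (nat_lit 1) .nil))))) .nil)) 
(.lf (nat_lit 24743) (.g (nat_lit 3554) (.e (nat_lit 1190) (nat_lit 88) (.e (nat_lit 65566) (nat_lit 2) (.e (nat_lit 90170) (nat_lit 13) (.e (nat_lit 172106) (nat_lit 10) (.e (nat_lit 434231) (nat_lit 23) (.e (nat_lit 532490) (nat_lit 0) (.e (nat_lit 991) (nat_lit 81) (.e (nat_lit 4500) (nat_lit 263) .nil)))))))) (.g (nat_lit 6) .nil .nil)))) (.nd (nat_lit 5) 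
(.lf (nat_lit 24727) (.g (nat_lit 3022) (.e (nat_lit 1189) (nat_lit 88) (.e (nat_lit 65630) (nat_lit 14) (.e (nat_lit 401459) (nat_lit 13) (.e (nat_lit 483398) (nat_lit 25) (.e (nat_lit 368662) (nat_lit 18) (.e (nat_lit 5905) (nat_lit 320) .nil)))))) (.g (nat_lit 4) .nil .nil))) 
(.lf (nat_lit 24759) (.g (nat_lit 2811) (.e (nat_lit 1190) (nat_lit 88) (.e (nat_lit 65568) (nat_lit 2) (.e (nat_lit 90170) (nat_lit 13) (.e (nat_lit 172106) (nat_lit 10) (.e (nat_lit 434231) (nat_lit 23) (.e (nat_lit 532482) (nat_lit 0) (.e (nat_lit 1049) (nat_lit 81) (.e (nat_lit 4491) (nat_lit 263) .nil)))))))) (.g (nat_lit 5) .nil .nil))))) (.nd (nat_lit 4) (.nd (nat_lit 5) 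
(.lf (nat_lit 24719) (.g (nat_lit 3361) (.e (nat_lit 1189) (nat_lit 88) (.e (nat_lit 65630) (nat_lit 14) (.e (nat_lit 401459) (nat_lit 13) (.e (nat_lit 483393) (nat_lit 23) (.e (nat_lit 335986) (nat_lit 1) .nil))))) .nil)) 
(.lf (nat_lit 24751) (.g (nat_lit 745) (.e (nat_lit 1190) (nat_lit 88) (.e (nat_lit 65567) (nat_lit 2) (.e (nat_lit 90176) (nat_lit 15) (.e (nat_lit 188450) (nat_lit 23) .nil)))) .nil))) (.nd (nat_lit 5) 
(.lf (nat_lit 24735) (.g (nat_lit 3800) (.e (nat_lit 1189) (nat_lit 88) (.e (nat_lit 65630) (nat_lit 14) (.e (nat_lit 401459) (nat_lit 13) (.e (nat_lit 483411) (nat_lit 27) (.e (nat_lit 401414) (nat_lit 0) .nil))))) .nil)) 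
(.lf (nat_lit 24767) (.g (nat_lit 2245) (.e (nat_lit 1190) (nat_lit 88) (.e (nat_lit 65568) (nat_lit 2) (.e (nat_lit 90170) (nat_lit 13) (.e (nat_lit 172106) (nat_lit 10) (.e (nat_lit 434244) (nat_lit 28) (.e (nat_lit 573468) (nat_lit 10) (.e (nat_lit 8192) (nat_lit 0) (.e (nat_lit 4490) (nat_lit 263) .nil)))))))) (.g (nat_lit 4) .nil .nil)))))))))

noncomputable def tv349 : DT := (.nd (nat_lit 0) (.nd (nat_lit 1) (.nd (nat_lit 2) (.nd (nat_lit 3) (.nd (nat_lit 4) (.nd (nat_lit 5) 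
(.lf (nat_lit 24768) (.g (nat_lit 4189) (.e (nat_lit 1190) (nat_lit 88) (.e (nat_lit 65568) (nat_lit 2) (.e (nat_lit 90170) (nat_lit 13) (.e (nat_lit 172106) (nat_lit 10) (.e (nat_lit 434244) (nat_lit 28) (.e (nat_lit 573468) (nat_lit 10) (.e (nat_lit 8192) (nat_lit 0) (.e (nat_lit 4491) (nat_lit 263) .nil)))))))) (.g (nat_lit 7) .nil .nil))) 
(.lf (nat_lit 24800) (.g (nat_lit 2439) (.e (nat_lit 1190) (nat_lit 88) (.e (nat_lit 65571) (nat_lit 3) (.e (nat_lit 98359) (nat_lit 26) (.e (nat_lit 426211) (nat_lit 9) (.e (nat_lit 426125) (nat_lit 2) .nil))))) .nil))) (.nd (nat_lit 5) 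
(.lf (nat_lit 24784) (.g (nat_lit 2318) (.e (nat_lit 1190) (nat_lit 88) (.e (nat_lit 65570) (nat_lit 3) (.e (nat_lit 98372) (nat_lit 29) (.e (nat_lit 450579) (nat_lit 5) (.e (nat_lit 532504) (nat_lit 1) (.e (nat_lit 65280) (nat_lit 221) .nil)))))) (.g (nat_lit 4) .nil .nil))) 
(.lf (nat_lit 24816) (.g (nat_lit 2899) (.e (nat_lit 1190) (nat_lit 88) (.e (nat_lit 65571) (nat_lit 3) (.e (nat_lit 98359) (nat_lit 26) (.e (nat_lit 426286) (nat_lit 10) (.e (nat_lit 434248) (nat_lit 28) (.e (nat_lit 573475) (nat_lit 12) (.e (nat_lit 57345) (nat_lit 0) (.e (nat_lit 7237) (nat_lit 382) .nil)))))))) (.g (nat_lit 4) .nil .nil))))) (.nd (nat_lit 4) (.nd (nat_lit 5) 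
(.lf (nat_lit 24776) (.g (nat_lit 2677) (.e (nat_lit 1190) (nat_lit 88) (.e (nat_lit 65568) (nat_lit 2) (.e (nat_lit 90170) (nat_lit 13) (.e (nat_lit 172106) (nat_lit 10) (.e (nat_lit 434244) (nat_lit 28) (.e (nat_lit 573468) (nat_lit 10) (.e (nat_lit 8199) (nat_lit 0) (.e (nat_lit 4490) (nat_lit 263) .nil)))))))) (.g (nat_lit 5) .nil .nil))) 
(.lf (nat_lit 24808) (.g (nat_lit 3225) (.e (nat_lit 1190) (nat_lit 88) (.e (nat_lit 65571) (nat_lit 3) (.e (nat_lit 98359) (nat_lit 26) (.e (nat_lit 426286) (nat_lit 10) (.e (nat_lit 434245) (nat_lit 28) (.e (nat_lit 573468) (nat_lit 10) (.e (nat_lit 8195) (nat_lit 0) (.e (nat_lit 4491) (nat_lit 263) .nil)))))))) (.g (nat_lit 5) .nil .nil)))) (.nd (nat_lit 5) 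
(.lf (nat_lit 24792) (.g (nat_lit 3865) (.e (nat_lit 1190) (nat_lit 88) (.e (nat_lit 65570) (nat_lit 3) (.e (nat_lit 98373) (nat_lit 29) (.e (nat_lit 450588) (nat_lit 10) (.e (nat_lit 573475) (nat_lit 12) (.e (nat_lit 57347) (nat_lit 0) (.e (nat_lit 7236) (nat_lit 382) .nil))))))) (.g (nat_lit 5) .nil .nil))) 
(.lf (nat_lit 24824) (.g (nat_lit 2908) (.e (nat_lit 1190) (nat_lit 88) (.e (nat_lit 65571) (nat_lit 3) (.e (nat_lit 98370) (nat_lit 28) (.e (nat_lit 442427) (nat_lit 23) (.e (nat_lit 212736) (nat_lit 1) (.e (nat_lit 164163) (nat_lit 152) .nil)))))) (.g (nat_lit 4) .nil .nil)))))) (.nd (nat_lit 3) (.nd (nat_lit 4) (.nd (nat_lit 5) 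
(.lf (nat_lit 24772) (.g (nat_lit 1867) (.e (nat_lit 1190) (nat_lit 88) (.e (nat_lit 65568) (nat_lit 2) (.e (nat_lit 90170) (nat_lit 13) (.e (nat_lit 172106) (nat_lit 10) (.e (nat_lit 434244) (nat_lit 28) (.e (nat_lit 573468) (nat_lit 10) (.e (nat_lit 8194) (nat_lit 0) (.e (nat_lit 4490) (nat_lit 263) .nil)))))))) (.g (nat_lit 4) .nil .nil))) 
(.lf (nat_lit 24804) (.g (nat_lit 2013) (.e (nat_lit 1190) (nat_lit 88) (.e (nat_lit 65571) (nat_lit 3) (.e (nat_lit 98359) (nat_lit 26) (.e (nat_lit 426286) (nat_lit 10) (.e (nat_lit 434245) (nat_lit 28) .nil))))) .nil))) (.nd (nat_lit 5) 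
(.lf (nat_lit 24788) (.g (nat_lit 2920) (.e (nat_lit 1190) (nat_lit 88) (.e (nat_lit 65570) (nat_lit 3) (.e (nat_lit 98373) (nat_lit 29) (.e (nat_lit 450588) (nat_lit 10) (.e (nat_lit 573475) (nat_lit 12) .nil))))) .nil)) 
(.lf (nat_lit 24820) (.g (nat_lit 1773) (.e (nat_lit 1190) (nat_lit 88) (.e (nat_lit 65571) (nat_lit 3) (.e (nat_lit 98367) (nat_lit 27) (.e (nat_lit 434268) (nat_lit 36) .nil)))) .nil)))) (.nd (nat_lit 4) (.nd (nat_lit 5) 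
(.lf (nat_lit 24780) (.g (nat_lit 1230) (.e (nat_lit 1190) (nat_lit 88) (.e (nat_lit 65568) (nat_lit 2) (.e (nat_lit 90176) (nat_lit 15) (.e (nat_lit 188450) (nat_lit 23) .nil)))) .nil)) 
(.lf (nat_lit 24812) (.g (nat_lit 2996) (.e (nat_lit 1190) (nat_lit 88) (.e (nat_lit 65571) (nat_lit 3) (.e (nat_lit 98359) (nat_lit 26) (.e (nat_lit 426286) (nat_lit 10) (.e (nat_lit 434245) (nat_lit 28) (.e (nat_lit 573474) (nat_lit 12) (.e (nat_lit 57347) (nat_lit 0) (.e (nat_lit 7236) (nat_lit 382) .nil)))))))) (.g (nat_lit 4) .nil .nil)))) (.nd (nat_lit 5) 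
(.lf (nat_lit 24796) (.g (nat_lit 2351) (.e (nat_lit 1190) (nat_lit 88) (.e (nat_lit 65571) (nat_lit 3) (.e (nat_lit 98350) (nat_lit 24) (.e (nat_lit 409647) (nat_lit 18) .nil)))) .nil)) 
(.lf (nat_lit 24828) (.g (nat_lit 3488) (.e (nat_lit 1190) (nat_lit 88) (.e (nat_lit 65571) (nat_lit 3) (.e (nat_lit 98370) (nat_lit 28) (.e (nat_lit 442427) (nat_lit 23) (.e (nat_lit 204821) (nat_lit 17) (.e (nat_lit 991) (nat_lit 81) (.e (nat_lit 4500) (nat_lit 263) .nil))))))) (.g (nat_lit 5) .nil .nil))))))) (.nd (nat_lit 2) (.nd (nat_lit 3) (.nd (nat_lit 4) (.nd (nat_lit 5) 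
(.lf (nat_lit 24770) (.g (nat_lit 3793) (.e (nat_lit 1190) (nat_lit 88) (.e (nat_lit 65568) (nat_lit 2) (.e (nat_lit 90170) (nat_lit 13) (.e (nat_lit 172106) (nat_lit 10) (.e (nat_lit 434244) (nat_lit 28) (.e (nat_lit 573468) (nat_lit 10) (.e (nat_lit 8193) (nat_lit 0) (.e (nat_lit 4491) (nat_lit 263) .nil)))))))) (.g (nat_lit 6) .nil .nil))) 
(.lf (nat_lit 24802) (.g (nat_lit 3764) (.e (nat_lit 1190) (nat_lit 88) (.e (nat_lit 65571) (nat_lit 3) (.e (nat_lit 98359) (nat_lit 26) (.e (nat_lit 426211) (nat_lit 9) (.e (nat_lit 426125) (nat_lit 2) (.e (nat_lit 196686) (nat_lit 18) (.e (nat_lit 1115) (nat_lit 82) (.e (nat_lit 8418) (nat_lit 132) .nil)))))))) (.g (nat_lit 4) .nil .nil)))) (.nd (nat_lit 5) 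
(.lf (nat_lit 24786) (.g (nat_lit 2909) (.e (nat_lit 1190) (nat_lit 88) (.e (nat_lit 65570) (nat_lit 3) (.e (nat_lit 98373) (nat_lit 29) (.e (nat_lit 450588) (nat_lit 10) (.e (nat_lit 573473) (nat_lit 12) .nil))))) .nil)) 
(.lf (nat_lit 24818) (.g (nat_lit 2995) (.e (nat_lit 1190) (nat_lit 88) (.e (nat_lit 65571) (nat_lit 3) (.e (nat_lit 98359) (nat_lit 26) (.e (nat_lit 426286) (nat_lit 10) (.e (nat_lit 434248) (nat_lit 28) (.e (nat_lit 573475) (nat_lit 12) (.e (nat_lit 57347) (nat_lit 0) (.e (nat_lit 7236) (nat_lit 382) .nil)))))))) (.g (nat_lit 4) .nil .nil))))) (.nd (nat_lit 4) (.nd (nat_lit 5) 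
(.lf (nat_lit 24778) (.g (nat_lit 3600) (.e (nat_lit 1190) (nat_lit 88) (.e (nat_lit 65568) (nat_lit 2) (.e (nat_lit 90170) (nat_lit 13) (.e (nat_lit 172106) (nat_lit 10) (.e (nat_lit 434244) (nat_lit 28) (.e (nat_lit 573468) (nat_lit 10) (.e (nat_lit 8202) (nat_lit 0) (.e (nat_lit 4490) (nat_lit 263) .nil)))))))) (.g (nat_lit 6) .nil .nil))) 
(.lf (nat_lit 24810) (.g (nat_lit 2429) (.e (nat_lit 1190) (nat_lit 88) (.e (nat_lit 65571) (nat_lit 3) (.e (nat_lit 98359) (nat_lit 26) (.e (nat_lit 426286) (nat_lit 10) (.e (nat_lit 434245) (nat_lit 28) (.e (nat_lit 573473) (nat_lit 12) (.e (nat_lit 57348) (nat_lit 0) (.e (nat_lit 7236) (nat_lit 382) .nil)))))))) (.g (nat_lit 4) .nil .nil)))) (.nd (nat_lit 5) 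
(.lf (nat_lit 24794) (.g (nat_lit 2835) (.e (nat_lit 1190) (nat_lit 88) (.e (nat_lit 65571) (nat_lit 3) (.e (nat_lit 98350) (nat_lit 24) (.e (nat_lit 409645) (nat_lit 18) .nil)))) .nil)) 
(.lf (nat_lit 24826) (.g (nat_lit 2848) (.e (nat_lit 1190) (nat_lit 88) (.e (nat_lit 65571) (nat_lit 3) (.e (nat_lit 98370) (nat_lit 28) (.e (nat_lit 442427) (nat_lit 23) (.e (nat_lit 204814) (nat_lit 17) .nil))))) .nil))))) (.nd (nat_lit 3) (.nd (nat_lit 4) (.nd (nat_lit 5) 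
(.lf (nat_lit 24774) (.g (nat_lit 3419) (.e (nat_lit 1190) (nat_lit 88) (.e (nat_lit 65568) (nat_lit 2) (.e (nat_lit 90170) (nat_lit 13) (.e (nat_lit 172106) (nat_lit 10) (.e (nat_lit 434244) (nat_lit 28) (.e (nat_lit 573468) (nat_lit 10) (.e (nat_lit 8196) (nat_lit 0) (.e (nat_lit 4490) (nat_lit 263) .nil)))))))) (.g (nat_lit 6) .nil .nil))) 
(.lf (nat_lit 24806) (.g (nat_lit 2522) (.e (nat_lit 1190) (nat_lit 88) (.e (nat_lit 65571) (nat_lit 3) (.e (nat_lit 98359) (nat_lit 26) (.e (nat_lit 426286) (nat_lit 10) (.e (nat_lit 434245) (nat_lit 28) (.e (nat_lit 573468) (nat_lit 10) (.e (nat_lit 8193) (nat_lit 0) (.e (nat_lit 4491) (nat_lit 263) .nil)))))))) (.g (nat_lit 4) .nil .nil)))) (.nd (nat_lit 5) 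
(.lf (nat_lit 24790) (.g (nat_lit 3338) (.e (nat_lit 1190) (nat_lit 88) (.e (nat_lit 65570) (nat_lit 3) (.e (nat_lit 98373) (nat_lit 29) (.e (nat_lit 450588) (nat_lit 10) (.e (nat_lit 573475) (nat_lit 12) (.e (nat_lit 57345) (nat_lit 0) (.e (nat_lit 7237) (nat_lit 382) .nil))))))) (.g (nat_lit 4) .nil .nil))) 
(.lf (nat_lit 24822) (.g (nat_lit 1350) (.e (nat_lit 1190) (nat_lit 88) (.e (nat_lit 65571) (nat_lit 3) (.e (nat_lit 98370) (nat_lit 28) (.e (nat_lit 450304) (nat_lit 3) .nil)))) .nil)))) (.nd (nat_lit 4) (.nd (nat_lit 5) 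
(.lf (nat_lit 24782) (.g (nat_lit 1889) (.e (nat_lit 1190) (nat_lit 88) (.e (nat_lit 65570) (nat_lit 3) (.e (nat_lit 98372) (nat_lit 29) (.e (nat_lit 450579) (nat_lit 5) (.e (nat_lit 532499) (nat_lit 1) .nil))))) .nil)) 
(.lf (nat_lit 24814) (.g (nat_lit 2559) (.e (nat_lit 1190) (nat_lit 88) (.e (nat_lit 65571) (nat_lit 3) (.e (nat_lit 98359) (nat_lit 26) (.e (nat_lit 426286) (nat_lit 10) (.e (nat_lit 434248) (nat_lit 28) (.e (nat_lit 573473) (nat_lit 12) (.e (nat_lit 57348) (nat_lit 0) (.e (nat_lit 7236) (nat_lit 382) .nil)))))))) (.g (nat_lit 4) .nil .nil)))) (.nd (nat_lit 5) 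
(.lf (nat_lit 24798) (.g (nat_lit 1018) (.e (nat_lit 1190) (nat_lit 88) (.e (nat_lit 65571) (nat_lit 3) (.e (nat_lit 98353) (nat_lit 25) .nil))) .nil)) 
(.lf (nat_lit 24830) (.g (nat_lit 2827) (.e (nat_lit 1190) (nat_lit 88) (.e (nat_lit 65571) (nat_lit 3) (.e (nat_lit 98372) (nat_lit 29) (.e (nat_lit 450579) (nat_lit 5) (.e (nat_lit 532484) (nat_lit 0) (.e (nat_lit 996) (nat_lit 81) (.e (nat_lit 4500) (nat_lit 263) .nil))))))) (.g (nat_lit 4) .nil .nil)))))))) (.nd (nat_lit 1) (.nd (nat_lit 2) (.nd (nat_lit 3) (.nd (nat_lit 4) (.nd (nat_lit 5) 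
(.lf (nat_lit 24769) (.g (nat_lit 2789) (.e (nat_lit 1190) (nat_lit 88) (.e (nat_lit 65568) (nat_lit 2) (.e (nat_lit 90170) (nat_lit 13) (.e (nat_lit 172106) (nat_lit 10) (.e (nat_lit 434244) (nat_lit 28) (.e (nat_lit 573468) (nat_lit 10) (.e (nat_lit 8193) (nat_lit 0) (.e (nat_lit 4439) (nat_lit 263) .nil)))))))) (.g (nat_lit 5) .nil .nil))) 
(.lf (nat_lit 24801) (.g (nat_lit 3302) (.e (nat_lit 1190) (nat_lit 88) (.e (nat_lit 65571) (nat_lit 3) (.e (nat_lit 98359) (nat_lit 26) (.e (nat_lit 426211) (nat_lit 9) (.e (nat_lit 426125) (nat_lit 2) (.e (nat_lit 196686) (nat_lit 18) (.e (nat_lit 1112) (nat_lit 82) (.e (nat_lit 8418) (nat_lit 132) .nil)))))))) (.g (nat_lit 4) .nil .nil)))) (.nd (nat_lit 5) 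
(.lf (nat_lit 24785) (.g (nat_lit 323) (.e (nat_lit 1190) (nat_lit 88) (.e (nat_lit 65570) (nat_lit 3) (.e (nat_lit 98373) (nat_lit 29) .nil))) .nil)) 
(.lf (nat_lit 24817) (.g (nat_lit 2688) (.e (nat_lit 1190) (nat_lit 88) (.e (nat_lit 65571) (nat_lit 3) (.e (nat_lit 98359) (nat_lit 26) (.e (nat_lit 426286) (nat_lit 10) (.e (nat_lit 434248) (nat_lit 28) (.e (nat_lit 573475) (nat_lit 12) (.e (nat_lit 57346) (nat_lit 0) (.e (nat_lit 7133) (nat_lit 382) .nil)))))))) (.g (nat_lit 4) .nil .nil))))) (.nd (nat_lit 4) (.nd (nat_lit 5) 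
(.lf (nat_lit 24777) (.g (nat_lit 1862) (.e (nat_lit 1190) (nat_lit 88) (.e (nat_lit 65568) (nat_lit 2) (.e (nat_lit 90170) (nat_lit 13) (.e (nat_lit 172106) (nat_lit 10) (.e (nat_lit 434244) (nat_lit 28) (.e (nat_lit 573468) (nat_lit 10) (.e (nat_lit 8200) (nat_lit 0) (.e (nat_lit 4490) (nat_lit 263) .nil)))))))) (.g (nat_lit 4) .nil .nil))) 
(.lf (nat_lit 24809) (.g (nat_lit 3117) (.e (nat_lit 1190) (nat_lit 88) (.e (nat_lit 65571) (nat_lit 3) (.e (nat_lit 98359) (nat_lit 26) (.e (nat_lit 426286) (nat_lit 10) (.e (nat_lit 434245) (nat_lit 28) (.e (nat_lit 573468) (nat_lit 10) (.e (nat_lit 8196) (nat_lit 0) (.e (nat_lit 4491) (nat_lit 263) .nil)))))))) (.g (nat_lit 5) .nil .nil)))) (.nd (nat_lit 5) 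
(.lf (nat_lit 24793) (.g (nat_lit 3488) (.e (nat_lit 1190) (nat_lit 88) (.e (nat_lit 65570) (nat_lit 3) (.e (nat_lit 98373) (nat_lit 29) (.e (nat_lit 450588) (nat_lit 10) (.e (nat_lit 573475) (nat_lit 12) (.e (nat_lit 57348) (nat_lit 0) (.e (nat_lit 7236) (nat_lit 382) .nil))))))) (.g (nat_lit 4) .nil .nil))) 
(.lf (nat_lit 24825) (.g (nat_lit 2539) (.e (nat_lit 1190) (nat_lit 88) (.e (nat_lit 65571) (nat_lit 3) (.e (nat_lit 98370) (nat_lit 28) (.e (nat_lit 442427) (nat_lit 23) (.e (nat_lit 212736) (nat_lit 4) .nil))))) .nil))))) (.nd (nat_lit 3) (.nd (nat_lit 4) (.nd (nat_lit 5) 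
(.lf (nat_lit 24773) (.g (nat_lit 4025) (.e (nat_lit 1190) (nat_lit 88) (.e (nat_lit 65568) (nat_lit 2) (.e (nat_lit 90170) (nat_lit 13) (.e (nat_lit 172106) (nat_lit 10) (.e (nat_lit 434244) (nat_lit 28) (.e (nat_lit 573468) (nat_lit 10) (.e (nat_lit 8194) (nat_lit 0) (.e (nat_lit 4491) (nat_lit 263) .nil)))))))) (.g (nat_lit 7) .nil .nil))) 
(.lf (nat_lit 24805) (.g (nat_lit 2958) (.e (nat_lit 1190) (nat_lit 88) (.e (nat_lit 65571) (nat_lit 3) (.e (nat_lit 98359) (nat_lit 26) (.e (nat_lit 426286) (nat_lit 10) (.e (nat_lit 434245) (nat_lit 28) (.e (nat_lit 573468) (nat_lit 10) (.e (nat_lit 8192) (nat_lit 0) (.e (nat_lit 4491) (nat_lit 263) .nil)))))))) (.g (nat_lit 4) .nil .nil)))) (.nd (nat_lit 5) 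
(.lf (nat_lit 24789) (.g (nat_lit 3449) (.e (nat_lit 1190) (nat_lit 88) (.e (nat_lit 65570) (nat_lit 3) (.e (nat_lit 98373) (nat_lit 29) (.e (nat_lit 450588) (nat_lit 10) (.e (nat_lit 573475) (nat_lit 12) (.e (nat_lit 57345) (nat_lit 0) (.e (nat_lit 7236) (nat_lit 382) .nil))))))) (.g (nat_lit 4) .nil .nil))) 
(.lf (nat_lit 24821) (.g (nat_lit 595) (.e (nat_lit 1190) (nat_lit 88) (.e (nat_lit 65571) (nat_lit 3) (.e (nat_lit 98370) (nat_lit 28) .nil))) .nil)))) (.nd (nat_lit 4) (.nd (nat_lit 5) 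
(.lf (nat_lit 24781) (.g (nat_lit 2044) (.e (nat_lit 1190) (nat_lit 88) (.e (nat_lit 65569) (nat_lit 3) (.e (nat_lit 98372) (nat_lit 29) (.e (nat_lit 450579) (nat_lit 5) (.e (nat_lit 532501) (nat_lit 1) (.e (nat_lit 65280) (nat_lit 221) .nil)))))) (.g (nat_lit 4) .nil .nil))) 
(.lf (nat_lit 24813) (.g (nat_lit 3039) (.e (nat_lit 1190) (nat_lit 88) (.e (nat_lit 65571) (nat_lit 3) (.e (nat_lit 98359) (nat_lit 26) (.e (nat_lit 426286) (nat_lit 10) (.e (nat_lit 434245) (nat_lit 28) (.e (nat_lit 573474) (nat_lit 12) (.e (nat_lit 57348) (nat_lit 0) (.e (nat_lit 7236) (nat_lit 382) .nil)))))))) (.g (nat_lit 4) .nil .nil)))) (.nd (nat_lit 5) 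
(.lf (nat_lit 24797) (.g (nat_lit 3276) (.e (nat_lit 1190) (nat_lit 88) (.e (nat_lit 65571) (nat_lit 3) (.e (nat_lit 98350) (nat_lit 24) (.e (nat_lit 409649) (nat_lit 18) (.e (nat_lit 303119) (nat_lit 3) (.e (nat_lit 204829) (nat_lit 18) (.e (nat_lit 57760) (nat_lit 215) .nil))))))) (.g (nat_lit 4) .nil .nil))) 
(.lf (nat_lit 24829) (.g (nat_lit 953) (.e (nat_lit 1190) (nat_lit 88) (.e (nat_lit 65571) (nat_lit 3) (.e (nat_lit 98372) (nat_lit 29) (.e (nat_lit 458496) (nat_lit 3) .nil)))) .nil)))))) (.nd (nat_lit 2) (.nd (nat_lit 3) (.nd (nat_lit 4) (.nd (nat_lit 5) 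
(.lf (nat_lit 24771) (.g (nat_lit 2758) (.e (nat_lit 1190) (nat_lit 88) (.e (nat_lit 65568) (nat_lit 2) (.e (nat_lit 90170) (nat_lit 13) (.e (nat_lit 172106) (nat_lit 10) (.e (nat_lit 434244) (nat_lit 28) (.e (nat_lit 573468) (nat_lit 10) (.e (nat_lit 8194) (nat_lit 0) (.e (nat_lit 4439) (nat_lit 263) .nil)))))))) (.g (nat_lit 5) .nil .nil))) 
(.lf (nat_lit 24803) (.g (nat_lit 3675) (.e (nat_lit 1190) (nat_lit 88) (.e (nat_lit 65571) (nat_lit 3) (.e (nat_lit 98359) (nat_lit 26) (.e (nat_lit 426211) (nat_lit 9) (.e (nat_lit 426125) (nat_lit 2) (.e (nat_lit 196686) (nat_lit 18) (.e (nat_lit 1116) (nat_lit 82) (.e (nat_lit 8418) (nat_lit 132) .nil)))))))) (.g (nat_lit 4) .nil .nil)))) (.nd (nat_lit 5) 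
(.lf (nat_lit 24787) (.g (nat_lit 3676) (.e (nat_lit 1190) (nat_lit 88) (.e (nat_lit 65570) (nat_lit 3) (.e (nat_lit 98373) (nat_lit 29) (.e (nat_lit 450588) (nat_lit 10) (.e (nat_lit 573473) (nat_lit 12) (.e (nat_lit 57348) (nat_lit 0) (.e (nat_lit 7236) (nat_lit 382) .nil))))))) (.g (nat_lit 4) .nil .nil))) 
(.lf (nat_lit 24819) (.g (nat_lit 2648) (.e (nat_lit 1190) (nat_lit 88) (.e (nat_lit 65571) (nat_lit 3) (.e (nat_lit 98359) (nat_lit 26) (.e (nat_lit 426286) (nat_lit 10) (.e (nat_lit 434248) (nat_lit 28) (.e (nat_lit 573475) (nat_lit 12) (.e (nat_lit 57348) (nat_lit 0) (.e (nat_lit 7236) (nat_lit 382) .nil)))))))) (.g (nat_lit 4) .nil .nil))))) (.nd (nat_lit 4) (.nd (nat_lit 5) 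
(.lf (nat_lit 24779) (.g (nat_lit 2029) (.e (nat_lit 1190) (nat_lit 88) (.e (nat_lit 65568) (nat_lit 2) (.e (nat_lit 90170) (nat_lit 13) (.e (nat_lit 172113) (nat_lit 10) .nil)))) .nil)) 
(.lf (nat_lit 24811) (.g (nat_lit 2643) (.e (nat_lit 1190) (nat_lit 88) (.e (nat_lit 65571) (nat_lit 3) (.e (nat_lit 98359) (nat_lit 26) (.e (nat_lit 426286) (nat_lit 10) (.e (nat_lit 434245) (nat_lit 28) (.e (nat_lit 573474) (nat_lit 12) (.e (nat_lit 57346) (nat_lit 0) (.e (nat_lit 7233) (nat_lit 382) .nil)))))))) (.g (nat_lit 4) .nil .nil)))) (.nd (nat_lit 5) 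
(.lf (nat_lit 24795) (.g (nat_lit 2967) (.e (nat_lit 1190) (nat_lit 88) (.e (nat_lit 65571) (nat_lit 3) (.e (nat_lit 98350) (nat_lit 24) (.e (nat_lit 409646) (nat_lit 18) (.e (nat_lit 303119) (nat_lit 3) .nil))))) .nil)) 
(.lf (nat_lit 24827) (.g (nat_lit 2323) (.e (nat_lit 1190) (nat_lit 88) (.e (nat_lit 65571) (nat_lit 3) (.e (nat_lit 98370) (nat_lit 28) (.e (nat_lit 442427) (nat_lit 23) (.e (nat_lit 204821) (nat_lit 17) .nil))))) .nil))))) (.nd (nat_lit 3) (.nd (nat_lit 4) (.nd (nat_lit 5) 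
(.lf (nat_lit 24775) (.g (nat_lit 2161) (.e (nat_lit 1190) (nat_lit 88) (.e (nat_lit 65568) (nat_lit 2) (.e (nat_lit 90170) (nat_lit 13) (.e (nat_lit 172106) (nat_lit 10) (.e (nat_lit 434244) (nat_lit 28) (.e (nat_lit 573468) (nat_lit 10) (.e (nat_lit 8197) (nat_lit 0) (.e (nat_lit 4490) (nat_lit 263) .nil)))))))) (.g (nat_lit 4) .nil .nil))) 
(.lf (nat_lit 24807) (.g (nat_lit 2758) (.e (nat_lit 1190) (nat_lit 88) (.e (nat_lit 65571) (nat_lit 3) (.e (nat_lit 98359) (nat_lit 26) (.e (nat_lit 426286) (nat_lit 10) (.e (nat_lit 434245) (nat_lit 28) (.e (nat_lit 573468) (nat_lit 10) (.e (nat_lit 8194) (nat_lit 0) (.e (nat_lit 4491) (nat_lit 263) .nil)))))))) (.g (nat_lit 4) .nil .nil)))) (.nd (nat_lit 5) 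
(.lf (nat_lit 24791) (.g (nat_lit 3077) (.e (nat_lit 1190) (nat_lit 88) (.e (nat_lit 65570) (nat_lit 3) (.e (nat_lit 98373) (nat_lit 29) (.e (nat_lit 450588) (nat_lit 10) (.e (nat_lit 573475) (nat_lit 12) (.e (nat_lit 57346) (nat_lit 0) (.e (nat_lit 7133) (nat_lit 382) .nil))))))) (.g (nat_lit 4) .nil .nil))) 
(.lf (nat_lit 24823) (.g (nat_lit 2319) (.e (nat_lit 1190) (nat_lit 88) (.e (nat_lit 65571) (nat_lit 3) (.e (nat_lit 98370) (nat_lit 28) (.e (nat_lit 442424) (nat_lit 22) (.e (nat_lit 196628) (nat_lit 9) .nil))))) .nil)))) (.nd (nat_lit 4) (.nd (nat_lit 5) 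
(.lf (nat_lit 24783) (.g (nat_lit 2367) (.e (nat_lit 1190) (nat_lit 88) (.e (nat_lit 65570) (nat_lit 3) (.e (nat_lit 98372) (nat_lit 29) (.e (nat_lit 450579) (nat_lit 5) (.e (nat_lit 532501) (nat_lit 1) (.e (nat_lit 65280) (nat_lit 221) .nil)))))) (.g (nat_lit 4) .nil .nil))) 
(.lf (nat_lit 24815) (.g (nat_lit 2754) (.e (nat_lit 1190) (nat_lit 88) (.e (nat_lit 65571) (nat_lit 3) (.e (nat_lit 98359) (nat_lit 26) (.e (nat_lit 426286) (nat_lit 10) (.e (nat_lit 434248) (nat_lit 28) (.e (nat_lit 573475) (nat_lit 12) (.e (nat_lit 57345) (nat_lit 0) (.e (nat_lit 7236) (nat_lit 382) .nil)))))))) (.g (nat_lit 4) .nil .nil)))) (.nd (nat_lit 5) 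
(.lf (nat_lit 24799) (.g (nat_lit 572) (.e (nat_lit 1190) (nat_lit 88) (.e (nat_lit 65571) (nat_lit 3) (.e (nat_lit 98359) (nat_lit 26) .nil))) .nil)) 
(.lf (nat_lit 24831) (.g (nat_lit 2664) (.e (nat_lit 1190) (nat_lit 88) (.e (nat_lit 65571) (nat_lit 3) (.e (nat_lit 98372) (nat_lit 29) (.e (nat_lit 450579) (nat_lit 5) (.e (nat_lit 532484) (nat_lit 0) (.e (nat_lit 997) (nat_lit 81) (.e (nat_lit 4500) (nat_lit 263) .nil))))))) (.g (nat_lit 4) .nil .nil)))))))))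

noncomputable def tv350 : DT := (.nd (nat_lit 0) (.nd (nat_lit 1) (.nd (nat_lit 2) (.nd (nat_lit 3) (.nd (nat_lit 4) (.nd (nat_lit 5) 
(.lf (nat_lit 24832) (.g (nat_lit 3127) (.e (nat_lit 1190) (nat_lit 88) (.e (nat_lit 65571) (nat_lit 3) (.e (nat_lit 98372) (nat_lit 29) (.e (nat_lit 450579) (nat_lit 5) (.e (nat_lit 532499) (nat_lit 1) (.e (nat_lit 65280) (nat_lit 221) .nil)))))) (.g (nat_lit 5) .nil .nil))) 
(.lf (nat_lit 24864) (.g (nat_lit 3121) (.e (nat_lit 1190) (nat_lit 88) (.e (nat_lit 65571) (nat_lit 3) (.e (nat_lit 98373) (nat_lit 29) (.e (nat_lit 450588) (nat_lit 10) (.e (nat_lit 573473) (nat_lit 12) (.e (nat_lit 65280) (nat_lit 0) (.e (nat_lit 7236) (nat_lit 382) .nil))))))) (.g (nat_lit 5) .nil .nil)))) (.nd (nat_lit 5) 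
(.lf (nat_lit 24848) (.g (nat_lit 2755) (.e (nat_lit 1190) (nat_lit 88) (.e (nat_lit 65571) (nat_lit 3) (.e (nat_lit 98373) (nat_lit 29) (.e (nat_lit 450587) (nat_lit 10) (.e (nat_lit 573477) (nat_lit 12) (.e (nat_lit 65280) (nat_lit 0) (.e (nat_lit 7236) (nat_lit 382) .nil))))))) (.g (nat_lit 4) .nil .nil))) 
(.lf (nat_lit 24880) (.g (nat_lit 3441) (.e (nat_lit 1190) (nat_lit 88) (.e (nat_lit 65581) (nat_lit 7) (.e (nat_lit 319534) (nat_lit 16) (.e (nat_lit 286756) (nat_lit 10) (.e (nat_lit 344168) (nat_lit 40) (.e (nat_lit 671751) (nat_lit 0) (.e (nat_lit 1182) (nat_lit 87) (.e (nat_lit 57724) (nat_lit 181) .nil)))))))) (.g (nat_lit 6) .nil .nil))))) (.nd (nat_lit 4) (.nd (nat_lit 5) 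
(.lf (nat_lit 24840) (.g (nat_lit 1990) (.e (nat_lit 1190) (nat_lit 88) (.e (nat_lit 65571) (nat_lit 3) (.e (nat_lit 98372) (nat_lit 29) (.e (nat_lit 450586) (nat_lit 10) (.e (nat_lit 573475) (nat_lit 12) (.e (nat_lit 57344) (nat_lit 0) (.e (nat_lit 7236) (nat_lit 382) .nil))))))) (.g (nat_lit 4) .nil .nil))) 
(.lf (nat_lit 24872) (.g (nat_lit 3760) (.e (nat_lit 1190) (nat_lit 88) (.e (nat_lit 65571) (nat_lit 3) (.e (nat_lit 98373) (nat_lit 29) (.e (nat_lit 450588) (nat_lit 10) (.e (nat_lit 573475) (nat_lit 12) (.e (nat_lit 57346) (nat_lit 0) (.e (nat_lit 7233) (nat_lit 382) .nil))))))) (.g (nat_lit 5) .nil .nil)))) (.nd (nat_lit 5) 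
(.lf (nat_lit 24856) (.g (nat_lit 2933) (.e (nat_lit 1190) (nat_lit 88) (.e (nat_lit 65571) (nat_lit 3) (.e (nat_lit 98373) (nat_lit 29) (.e (nat_lit 450587) (nat_lit 10) (.e (nat_lit 573478) (nat_lit 12) (.e (nat_lit 65280) (nat_lit 0) (.e (nat_lit 7237) (nat_lit 382) .nil))))))) (.g (nat_lit 5) .nil .nil))) 
(.lf (nat_lit 24888) (.g (nat_lit 2406) (.e (nat_lit 1190) (nat_lit 88) (.e (nat_lit 65604) (nat_lit 9) (.e (nat_lit 335907) (nat_lit 0) (.e (nat_lit 1994) (nat_lit 137) (.e (nat_lit 663567) (nat_lit 4) (.e (nat_lit 65604) (nat_lit 9) (.e (nat_lit 335997) (nat_lit 1) (.e (nat_lit 57871) (nat_lit 264) .nil)))))))) (.g (nat_lit 6) .nil .nil)))))) (.nd (nat_lit 3) (.nd (nat_lit 4) (.nd (nat_lit 5) 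
(.lf (nat_lit 24836) (.g (nat_lit 1960) (.e (nat_lit 1190) (nat_lit 88) (.e (nat_lit 65571) (nat_lit 3) (.e (nat_lit 98372) (nat_lit 29) (.e (nat_lit 450586) (nat_lit 10) (.e (nat_lit 573467) (nat_lit 10) .nil))))) .nil)) 
(.lf (nat_lit 24868) (.g (nat_lit 3735) (.e (nat_lit 1190) (nat_lit 88) (.e (nat_lit 65571) (nat_lit 3) (.e (nat_lit 98373) (nat_lit 29) (.e (nat_lit 450588) (nat_lit 10) (.e (nat_lit 573475) (nat_lit 12) (.e (nat_lit 57344) (nat_lit 0) (.e (nat_lit 7237) (nat_lit 382) .nil))))))) (.g (nat_lit 5) .nil .nil)))) (.nd (nat_lit 5) 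
(.lf (nat_lit 24852) (.g (nat_lit 2962) (.e (nat_lit 1190) (nat_lit 88) (.e (nat_lit 65571) (nat_lit 3) (.e (nat_lit 98373) (nat_lit 29) (.e (nat_lit 450587) (nat_lit 10) (.e (nat_lit 573478) (nat_lit 12) (.e (nat_lit 57344) (nat_lit 0) (.e (nat_lit 7237) (nat_lit 382) .nil))))))) (.g (nat_lit 5) .nil .nil))) 
(.lf (nat_lit 24884) (.g (nat_lit 2674) (.e (nat_lit 1190) (nat_lit 88) (.e (nat_lit 65604) (nat_lit 9) (.e (nat_lit 335907) (nat_lit 0) (.e (nat_lit 1994) (nat_lit 137) (.e (nat_lit 663567) (nat_lit 4) (.e (nat_lit 65598) (nat_lit 9) (.e (nat_lit 335997) (nat_lit 1) (.e (nat_lit 57870) (nat_lit 264) .nil)))))))) (.g (nat_lit 6) .nil .nil))))) (.nd (nat_lit 4) (.nd (nat_lit 5) 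
(.lf (nat_lit 24844) (.g (nat_lit 1178) (.e (nat_lit 1190) (nat_lit 88) (.e (nat_lit 65571) (nat_lit 3) (.e (nat_lit 98373) (nat_lit 29) (.e (nat_lit 450579) (nat_lit 5) .nil)))) .nil)) 
(.lf (nat_lit 24876) (.g (nat_lit 3409) (.e (nat_lit 1190) (nat_lit 88) (.e (nat_lit 65571) (nat_lit 3) (.e (nat_lit 98373) (nat_lit 29) (.e (nat_lit 450588) (nat_lit 10) (.e (nat_lit 573475) (nat_lit 12) (.e (nat_lit 65280) (nat_lit 0) (.e (nat_lit 7237) (nat_lit 382) .nil))))))) (.g (nat_lit 5) .nil .nil)))) (.nd (nat_lit 5) 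
(.lf (nat_lit 24860) (.g (nat_lit 3092) (.e (nat_lit 1190) (nat_lit 88) (.e (nat_lit 65571) (nat_lit 3) (.e (nat_lit 98373) (nat_lit 29) (.e (nat_lit 450588) (nat_lit 10) (.e (nat_lit 573473) (nat_lit 12) (.e (nat_lit 57345) (nat_lit 0) (.e (nat_lit 7237) (nat_lit 382) .nil))))))) (.g (nat_lit 5) .nil .nil))) 
(.lf (nat_lit 24892) (.g (nat_lit 1679) (.e (nat_lit 1190) (nat_lit 88) (.e (nat_lit 65604) (nat_lit 9) (.e (nat_lit 335907) (nat_lit 0) (.e (nat_lit 1994) (nat_lit 137) (.e (nat_lit 663569) (nat_lit 6) (.e (nat_lit 81948) (nat_lit 21) (.e (nat_lit 57871) (nat_lit 264) .nil))))))) (.g (nat_lit 4) .nil .nil))))))) (.nd (nat_lit 2) (.nd (nat_lit 3) (.nd (nat_lit 4) (.nd (nat_lit 5) 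
(.lf (nat_lit 24834) (.g (nat_lit 3481) (.e (nat_lit 1190) (nat_lit 88) (.e (nat_lit 65571) (nat_lit 3) (.e (nat_lit 98372) (nat_lit 29) (.e (nat_lit 450579) (nat_lit 5) (.e (nat_lit 532503) (nat_lit 1) (.e (nat_lit 65280) (nat_lit 221) .nil)))))) (.g (nat_lit 5) .nil .nil))) 
(.lf (nat_lit 24866) (.g (nat_lit 2531) (.e (nat_lit 1190) (nat_lit 88) (.e (nat_lit 65571) (nat_lit 3) (.e (nat_lit 98373) (nat_lit 29) (.e (nat_lit 450588) (nat_lit 10) (.e (nat_lit 573475) (nat_lit 12) (.e (nat_lit 57344) (nat_lit 0) (.e (nat_lit 7133) (nat_lit 382) .nil))))))) (.g (nat_lit 4) .nil .nil)))) (.nd (nat_lit 5) 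
(.lf (nat_lit 24850) (.g (nat_lit 2070) (.e (nat_lit 1190) (nat_lit 88) (.e (nat_lit 65571) (nat_lit 3) (.e (nat_lit 98373) (nat_lit 29) (.e (nat_lit 450587) (nat_lit 10) (.e (nat_lit 573478) (nat_lit 12) .nil))))) .nil)) 
(.lf (nat_lit 24882) (.g (nat_lit 2427) (.e (nat_lit 1190) (nat_lit 88) (.e (nat_lit 65585) (nat_lit 7) (.e (nat_lit 319539) (nat_lit 19) (.e (nat_lit 311358) (nat_lit 29) (.e (nat_lit 352307) (nat_lit 21) (.e (nat_lit 57873) (nat_lit 264) .nil)))))) (.g (nat_lit 0) .nil .nil))))) (.nd (nat_lit 4) (.nd (nat_lit 5) 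
(.lf (nat_lit 24842) (.g (nat_lit 2851) (.e (nat_lit 1190) (nat_lit 88) (.e (nat_lit 65571) (nat_lit 3) (.e (nat_lit 98372) (nat_lit 29) (.e (nat_lit 450586) (nat_lit 10) (.e (nat_lit 573475) (nat_lit 12) (.e (nat_lit 57345) (nat_lit 0) (.e (nat_lit 7237) (nat_lit 382) .nil))))))) (.g (nat_lit 5) .nil .nil))) 
(.lf (nat_lit 24874) (.g (nat_lit 3074) (.e (nat_lit 1190) (nat_lit 88) (.e (nat_lit 65571) (nat_lit 3) (.e (nat_lit 98373) (nat_lit 29) (.e (nat_lit 450588) (nat_lit 10) (.e (nat_lit 573475) (nat_lit 12) (.e (nat_lit 57351) (nat_lit 0) (.e (nat_lit 7236) (nat_lit 382) .nil))))))) (.g (nat_lit 5) .nil .nil)))) (.nd (nat_lit 5) 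
(.lf (nat_lit 24858) (.g (nat_lit 3882) (.e (nat_lit 1190) (nat_lit 88) (.e (nat_lit 65571) (nat_lit 3) (.e (nat_lit 98373) (nat_lit 29) (.e (nat_lit 450588) (nat_lit 10) (.e (nat_lit 573467) (nat_lit 10) (.e (nat_lit 8196) (nat_lit 0) (.e (nat_lit 4491) (nat_lit 263) .nil))))))) (.g (nat_lit 4) .nil .nil))) 
(.lf (nat_lit 24890) (.g (nat_lit 2618) (.e (nat_lit 1190) (nat_lit 88) (.e (nat_lit 65604) (nat_lit 9) (.e (nat_lit 335907) (nat_lit 0) (.e (nat_lit 1994) (nat_lit 137) (.e (nat_lit 663567) (nat_lit 4) (.e (nat_lit 65619) (nat_lit 10) (.e (nat_lit 344097) (nat_lit 18) (.e (nat_lit 5906) (nat_lit 320) .nil)))))))) (.g (nat_lit 6) .nil .nil)))))) (.nd (nat_lit 3) (.nd (nat_lit 4) (.nd (nat_lit 5) 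
(.lf (nat_lit 24838) (.g (nat_lit 1641) (.e (nat_lit 1190) (nat_lit 88) (.e (nat_lit 65571) (nat_lit 3) (.e (nat_lit 98372) (nat_lit 29) (.e (nat_lit 450586) (nat_lit 10) (.e (nat_lit 573468) (nat_lit 10) .nil))))) .nil)) 
(.lf (nat_lit 24870) (.g (nat_lit 4350) (.e (nat_lit 1190) (nat_lit 88) (.e (nat_lit 65571) (nat_lit 3) (.e (nat_lit 98373) (nat_lit 29) (.e (nat_lit 450588) (nat_lit 10) (.e (nat_lit 573475) (nat_lit 12) (.e (nat_lit 57345) (nat_lit 0) (.e (nat_lit 7236) (nat_lit 382) .nil))))))) (.g (nat_lit 7) .nil .nil)))) (.nd (nat_lit 5) 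
(.lf (nat_lit 24854) (.g (nat_lit 2419) (.e (nat_lit 1190) (nat_lit 88) (.e (nat_lit 65571) (nat_lit 3) (.e (nat_lit 98373) (nat_lit 29) (.e (nat_lit 450587) (nat_lit 10) (.e (nat_lit 573478) (nat_lit 12) (.e (nat_lit 57353) (nat_lit 0) (.e (nat_lit 7236) (nat_lit 382) .nil))))))) (.g (nat_lit 4) .nil .nil))) 
(.lf (nat_lit 24886) (.g (nat_lit 2755) (.e (nat_lit 1190) (nat_lit 88) (.e (nat_lit 65604) (nat_lit 9) (.e (nat_lit 335907) (nat_lit 0) (.e (nat_lit 1994) (nat_lit 137) (.e (nat_lit 663567) (nat_lit 4) (.e (nat_lit 65598) (nat_lit 9) (.e (nat_lit 335997) (nat_lit 1) (.e (nat_lit 57872) (nat_lit 264) .nil)))))))) (.g (nat_lit 6) .nil .nil))))) (.nd (nat_lit 4) (.nd (nat_lit 5) 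
(.lf (nat_lit 24846) (.g (nat_lit 2446) (.e (nat_lit 1190) (nat_lit 88) (.e (nat_lit 65571) (nat_lit 3) (.e (nat_lit 98373) (nat_lit 29) (.e (nat_lit 450587) (nat_lit 10) (.e (nat_lit 573477) (nat_lit 12) (.e (nat_lit 57352) (nat_lit 0) (.e (nat_lit 7236) (nat_lit 382) .nil))))))) (.g (nat_lit 4) .nil .nil))) 
(.lf (nat_lit 24878) (.g (nat_lit 3209) (.e (nat_lit 1190) (nat_lit 88) (.e (nat_lit 65581) (nat_lit 7) (.e (nat_lit 319533) (nat_lit 16) (.e (nat_lit 286753) (nat_lit 10) (.e (nat_lit 344169) (nat_lit 40) (.e (nat_lit 671751) (nat_lit 0) (.e (nat_lit 1182) (nat_lit 87) (.e (nat_lit 57724) (nat_lit 181) .nil)))))))) (.g (nat_lit 6) .nil .nil)))) (.nd (nat_lit 5) 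
(.lf (nat_lit 24862) (.g (nat_lit 4560) (.e (nat_lit 1190) (nat_lit 88) (.e (nat_lit 65571) (nat_lit 3) (.e (nat_lit 98373) (nat_lit 29) (.e (nat_lit 450588) (nat_lit 10) (.e (nat_lit 573473) (nat_lit 12) (.e (nat_lit 57348) (nat_lit 0) (.e (nat_lit 7236) (nat_lit 382) .nil))))))) (.g (nat_lit 7) .nil .nil))) 
(.lf (nat_lit 24894) (.g (nat_lit 2179) (.e (nat_lit 1190) (nat_lit 88) (.e (nat_lit 65604) (nat_lit 9) (.e (nat_lit 335907) (nat_lit 0) (.e (nat_lit 1996) (nat_lit 137) (.e (nat_lit 663567) (nat_lit 4) (.e (nat_lit 65598) (nat_lit 9) (.e (nat_lit 335997) (nat_lit 1) (.e (nat_lit 57871) (nat_lit 264) .nil)))))))) (.g (nat_lit 5) .nil .nil)))))))) 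
(.nd (nat_lit 1) (.nd (nat_lit 2) (.nd (nat_lit 3) (.nd (nat_lit 4) (.nd (nat_lit 5) 
(.lf (nat_lit 24833) (.g (nat_lit 3642) (.e (nat_lit 1190) (nat_lit 88) (.e (nat_lit 65571) (nat_lit 3) (.e (nat_lit 98372) (nat_lit 29) (.e (nat_lit 450579) (nat_lit 5) (.e (nat_lit 532501) (nat_lit 1) (.e (nat_lit 65280) (nat_lit 221) .nil)))))) (.g (nat_lit 5) .nil .nil))) 
(.lf (nat_lit 24865) (.g (nat_lit 3289) (.e (nat_lit 1190) (nat_lit 88) (.e (nat_lit 65571) (nat_lit 3) (.e (nat_lit 98373) (nat_lit 29) (.e (nat_lit 450588) (nat_lit 10) (.e (nat_lit 573473) (nat_lit 12) (.e (nat_lit 65280) (nat_lit 0) (.e (nat_lit 7237) (nat_lit 382) .nil))))))) (.g (nat_lit 5) .nil .nil)))) (.nd (nat_lit 5) 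
(.lf (nat_lit 24849) (.g (nat_lit 2923) (.e (nat_lit 1190) (nat_lit 88) (.e (nat_lit 65571) (nat_lit 3) (.e (nat_lit 98373) (nat_lit 29) (.e (nat_lit 450587) (nat_lit 10) (.e (nat_lit 573477) (nat_lit 12) (.e (nat_lit 65280) (nat_lit 0) (.e (nat_lit 7237) (nat_lit 382) .nil))))))) (.g (nat_lit 4) .nil .nil))) 
(.lf (nat_lit 24881) (.g (nat_lit 3499) (.e (nat_lit 1190) (nat_lit 88) (.e (nat_lit 65581) (nat_lit 7) (.e (nat_lit 319534) (nat_lit 16) (.e (nat_lit 286756) (nat_lit 10) (.e (nat_lit 344168) (nat_lit 40) (.e (nat_lit 671751) (nat_lit 0) (.e (nat_lit 1182) (nat_lit 87) (.e (nat_lit 57731) (nat_lit 181) .nil)))))))) (.g (nat_lit 6) .nil .nil))))) (.nd (nat_lit 4) (.nd (nat_lit 5) 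
(.lf (nat_lit 24841) (.g (nat_lit 2706) (.e (nat_lit 1190) (nat_lit 88) (.e (nat_lit 65571) (nat_lit 3) (.e (nat_lit 98372) (nat_lit 29) (.e (nat_lit 450586) (nat_lit 10) (.e (nat_lit 573475) (nat_lit 12) (.e (nat_lit 57345) (nat_lit 0) (.e (nat_lit 7236) (nat_lit 382) .nil))))))) (.g (nat_lit 5) .nil .nil))) 
(.lf (nat_lit 24873) (.g (nat_lit 4766) (.e (nat_lit 1190) (nat_lit 88) (.e (nat_lit 65571) (nat_lit 3) (.e (nat_lit 98373) (nat_lit 29) (.e (nat_lit 450588) (nat_lit 10) (.e (nat_lit 573475) (nat_lit 12) (.e (nat_lit 57347) (nat_lit 0) (.e (nat_lit 7236) (nat_lit 382) .nil))))))) (.g (nat_lit 6) .nil .nil)))) (.nd (nat_lit 5) 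
(.lf (nat_lit 24857) (.g (nat_lit 2723) (.e (nat_lit 1190) (nat_lit 88) (.e (nat_lit 65571) (nat_lit 3) (.e (nat_lit 98373) (nat_lit 29) (.e (nat_lit 450588) (nat_lit 10) (.e (nat_lit 581376) (nat_lit 0) .nil))))) .nil)) 
(.lf (nat_lit 24889) (.g (nat_lit 2720) (.e (nat_lit 1190) (nat_lit 88) (.e (nat_lit 65604) (nat_lit 9) (.e (nat_lit 335907) (nat_lit 0) (.e (nat_lit 1994) (nat_lit 137) (.e (nat_lit 663567) (nat_lit 4) (.e (nat_lit 65604) (nat_lit 9) (.e (nat_lit 335997) (nat_lit 1) (.e (nat_lit 57872) (nat_lit 264) .nil)))))))) (.g (nat_lit 6) .nil .nil)))))) (.nd (nat_lit 3) (.nd (nat_lit 4) (.nd (nat_lit 5) 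
(.lf (nat_lit 24837) (.g (nat_lit 2320) (.e (nat_lit 1190) (nat_lit 88) (.e (nat_lit 65571) (nat_lit 3) (.e (nat_lit 98372) (nat_lit 29) (.e (nat_lit 450586) (nat_lit 10) (.e (nat_lit 573467) (nat_lit 10) (.e (nat_lit 8196) (nat_lit 0) (.e (nat_lit 4491) (nat_lit 263) .nil))))))) (.g (nat_lit 4) .nil .nil))) 
(.lf (nat_lit 24869) (.g (nat_lit 2776) (.e (nat_lit 1190) (nat_lit 88) (.e (nat_lit 65571) (nat_lit 3) (.e (nat_lit 98373) (nat_lit 29) (.e (nat_lit 450588) (nat_lit 10) (.e (nat_lit 573475) (nat_lit 12) (.e (nat_lit 57345) (nat_lit 0) (.e (nat_lit 7133) (nat_lit 382) .nil))))))) (.g (nat_lit 4) .nil .nil)))) (.nd (nat_lit 5) 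
(.lf (nat_lit 24853) (.g (nat_lit 2617) (.e (nat_lit 1190) (nat_lit 88) (.e (nat_lit 65571) (nat_lit 3) (.e (nat_lit 98373) (nat_lit 29) (.e (nat_lit 450587) (nat_lit 10) (.e (nat_lit 573478) (nat_lit 12) (.e (nat_lit 57351) (nat_lit 0) (.e (nat_lit 7236) (nat_lit 382) .nil))))))) (.g (nat_lit 4) .nil .nil))) 
(.lf (nat_lit 24885) (.g (nat_lit 2399) (.e (nat_lit 1190) (nat_lit 88) (.e (nat_lit 65604) (nat_lit 9) (.e (nat_lit 335907) (nat_lit 0) (.e (nat_lit 1994) (nat_lit 137) (.e (nat_lit 663567) (nat_lit 4) (.e (nat_lit 65598) (nat_lit 9) (.e (nat_lit 335997) (nat_lit 1) (.e (nat_lit 57871) (nat_lit 264) .nil)))))))) (.g (nat_lit 5) .nil .nil))))) (.nd (nat_lit 4) (.nd (nat_lit 5) 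
(.lf (nat_lit 24845) (.g (nat_lit 2115) (.e (nat_lit 1190) (nat_lit 88) (.e (nat_lit 65571) (nat_lit 3) (.e (nat_lit 98373) (nat_lit 29) (.e (nat_lit 450587) (nat_lit 10) (.e (nat_lit 573477) (nat_lit 12) .nil))))) .nil)) 
(.lf (nat_lit 24877) (.g (nat_lit 929) (.e (nat_lit 1190) (nat_lit 88) (.e (nat_lit 65571) (nat_lit 3) (.e (nat_lit 98381) (nat_lit 31) .nil))) .nil))) (.nd (nat_lit 5) 
(.lf (nat_lit 24861) (.g (nat_lit 2551) (.e (nat_lit 1190) (nat_lit 88) (.e (nat_lit 65571) (nat_lit 3) (.e (nat_lit 98373) (nat_lit 29) (.e (nat_lit 450588) (nat_lit 10) (.e (nat_lit 573473) (nat_lit 12) (.e (nat_lit 57346) (nat_lit 0) (.e (nat_lit 7133) (nat_lit 382) .nil))))))) (.g (nat_lit 4) .nil .nil))) 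
(.lf (nat_lit 24893) (.g (nat_lit 969) (.e (nat_lit 1190) (nat_lit 88) (.e (nat_lit 65604) (nat_lit 9) (.e (nat_lit 335907) (nat_lit 0) (.e (nat_lit 1996) (nat_lit 137) .nil)))) .nil)))))) (.nd (nat_lit 2) (.nd (nat_lit 3) (.nd (nat_lit 4) (.nd (nat_lit 5) 
(.lf (nat_lit 24835) (.g (nat_lit 3574) (.e (nat_lit 1190) (nat_lit 88) (.e (nat_lit 65571) (nat_lit 3) (.e (nat_lit 98372) (nat_lit 29) (.e (nat_lit 450579) (nat_lit 5) (.e (nat_lit 532504) (nat_lit 1) (.e (nat_lit 65280) (nat_lit 221) .nil)))))) (.g (nat_lit 5) .nil .nil))) 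
(.lf (nat_lit 24867) (.g (nat_lit 3802) (.e (nat_lit 1190) (nat_lit 88) (.e (nat_lit 65571) (nat_lit 3) (.e (nat_lit 98373) (nat_lit 29) (.e (nat_lit 450588) (nat_lit 10) (.e (nat_lit 573475) (nat_lit 12) (.e (nat_lit 57344) (nat_lit 0) (.e (nat_lit 7236) (nat_lit 382) .nil))))))) (.g (nat_lit 5) .nil .nil)))) (.nd (nat_lit 5) 
(.lf (nat_lit 24851) (.g (nat_lit 3029) (.e (nat_lit 1190) (nat_lit 88) (.e (nat_lit 65571) (nat_lit 3) (.e (nat_lit 98373) (nat_lit 29) (.e (nat_lit 450587) (nat_lit 10) (.e (nat_lit 573478) (nat_lit 12) (.e (nat_lit 57344) (nat_lit 0) (.e (nat_lit 7236) (nat_lit 382) .nil))))))) (.g (nat_lit 5) .nil .nil))) 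
(.lf (nat_lit 24883) (.g (nat_lit 949) (.e (nat_lit 1190) (nat_lit 88) (.e (nat_lit 65604) (nat_lit 9) (.e (nat_lit 335907) (nat_lit 0) (.e (nat_lit 1994) (nat_lit 137) .nil)))) .nil)))) (.nd (nat_lit 4) (.nd (nat_lit 5) 
(.lf (nat_lit 24843) (.g (nat_lit 1018) (.e (nat_lit 1190) (nat_lit 88) (.e (nat_lit 65571) (nat_lit 3) (.e (nat_lit 98373) (nat_lit 29) (.e (nat_lit 458496) (nat_lit 3) .nil)))) .nil)) 
(.lf (nat_lit 24875) (.g (nat_lit 3241) (.e (nat_lit 1190) (nat_lit 88) (.e (nat_lit 65571) (nat_lit 3) (.e (nat_lit 98373) (nat_lit 29) (.e (nat_lit 450588) (nat_lit 10) (.e (nat_lit 573475) (nat_lit 12) (.e (nat_lit 65280) (nat_lit 0) (.e (nat_lit 7236) (nat_lit 382) .nil))))))) (.g (nat_lit 5) .nil .nil)))) (.nd (nat_lit 5) 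
(.lf (nat_lit 24859) (.g (nat_lit 1413) (.e (nat_lit 1190) (nat_lit 88) (.e (nat_lit 65571) (nat_lit 3) (.e (nat_lit 98373) (nat_lit 29) (.e (nat_lit 450588) (nat_lit 10) (.e (nat_lit 573468) (nat_lit 10) .nil))))) .nil)) 
(.lf (nat_lit 24891) (.g (nat_lit 1965) (.e (nat_lit 1190) (nat_lit 88) (.e (nat_lit 65604) (nat_lit 9) (.e (nat_lit 335907) (nat_lit 0) (.e (nat_lit 1994) (nat_lit 137) (.e (nat_lit 663569) (nat_lit 6) (.e (nat_lit 81948) (nat_lit 21) (.e (nat_lit 57870) (nat_lit 264) .nil))))))) (.g (nat_lit 5) .nil .nil)))))) (.nd (nat_lit 3) (.nd (nat_lit 4) (.nd (nat_lit 5) 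
(.lf (nat_lit 24839) (.g (nat_lit 2733) (.e (nat_lit 1190) (nat_lit 88) (.e (nat_lit 65571) (nat_lit 3) (.e (nat_lit 98372) (nat_lit 29) (.e (nat_lit 450586) (nat_lit 10) (.e (nat_lit 573473) (nat_lit 12) (.e (nat_lit 57348) (nat_lit 0) (.e (nat_lit 7236) (nat_lit 382) .nil))))))) (.g (nat_lit 5) .nil .nil))) 
(.lf (nat_lit 24871) (.g (nat_lit 4251) (.e (nat_lit 1190) (nat_lit 88) (.e (nat_lit 65571) (nat_lit 3) (.e (nat_lit 98373) (nat_lit 29) (.e (nat_lit 450588) (nat_lit 10) (.e (nat_lit 573475) (nat_lit 12) (.e (nat_lit 57346) (nat_lit 0) (.e (nat_lit 7133) (nat_lit 382) .nil))))))) (.g (nat_lit 6) .nil .nil)))) (.nd (nat_lit 5) 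
(.lf (nat_lit 24855) (.g (nat_lit 2765) (.e (nat_lit 1190) (nat_lit 88) (.e (nat_lit 65571) (nat_lit 3) (.e (nat_lit 98373) (nat_lit 29) (.e (nat_lit 450587) (nat_lit 10) (.e (nat_lit 573478) (nat_lit 12) (.e (nat_lit 65280) (nat_lit 0) (.e (nat_lit 7236) (nat_lit 382) .nil))))))) (.g (nat_lit 4) .nil .nil))) 
(.lf (nat_lit 24887) (.g (nat_lit 2640) (.e (nat_lit 1190) (nat_lit 88) (.e (nat_lit 65604) (nat_lit 9) (.e (nat_lit 335907) (nat_lit 0) (.e (nat_lit 1994) (nat_lit 137) (.e (nat_lit 663567) (nat_lit 4) (.e (nat_lit 65604) (nat_lit 9) (.e (nat_lit 335997) (nat_lit 1) (.e (nat_lit 57870) (nat_lit 264) .nil)))))))) (.g (nat_lit 6) .nil .nil))))) (.nd (nat_lit 4) (.nd (nat_lit 5) 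
(.lf (nat_lit 24847) (.g (nat_lit 2742) (.e (nat_lit 1190) (nat_lit 88) (.e (nat_lit 65571) (nat_lit 3) (.e (nat_lit 98373) (nat_lit 29) (.e (nat_lit 450587) (nat_lit 10) (.e (nat_lit 573477) (nat_lit 12) (.e (nat_lit 57353) (nat_lit 0) (.e (nat_lit 7236) (nat_lit 382) .nil))))))) (.g (nat_lit 4) .nil .nil))) 
(.lf (nat_lit 24879) (.g (nat_lit 3267) (.e (nat_lit 1190) (nat_lit 88) (.e (nat_lit 65581) (nat_lit 7) (.e (nat_lit 319533) (nat_lit 16) (.e (nat_lit 286753) (nat_lit 10) (.e (nat_lit 344169) (nat_lit 40) (.e (nat_lit 671751) (nat_lit 0) (.e (nat_lit 1182) (nat_lit 87) (.e (nat_lit 57731) (nat_lit 181) .nil)))))))) (.g (nat_lit 6) .nil .nil)))) (.nd (nat_lit 5) 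
(.lf (nat_lit 24863) (.g (nat_lit 3240) (.e (nat_lit 1190) (nat_lit 88) (.e (nat_lit 65571) (nat_lit 3) (.e (nat_lit 98373) (nat_lit 29) (.e (nat_lit 450588) (nat_lit 10) (.e (nat_lit 573473) (nat_lit 12) (.e (nat_lit 57353) (nat_lit 0) (.e (nat_lit 7236) (nat_lit 382) .nil))))))) (.g (nat_lit 5) .nil .nil))) 
(.lf (nat_lit 24895) (.g (nat_lit 2445) (.e (nat_lit 1190) (nat_lit 88) (.e (nat_lit 65604) (nat_lit 9) (.e (nat_lit 335907) (nat_lit 0) (.e (nat_lit 1996) (nat_lit 137) (.e (nat_lit 663567) (nat_lit 4) (.e (nat_lit 65604) (nat_lit 9) (.e (nat_lit 335997) (nat_lit 1) (.e (nat_lit 57870) (nat_lit 264) .nil)))))))) (.g (nat_lit 6) .nil .nil)))))))))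

noncomputable def tv351 : DT := (.nd (nat_lit 0) (.nd (nat_lit 1) (.nd (nat_lit 2) (.nd (nat_lit 3) (.nd (nat_lit 4) (.nd (nat_lit 5) 
(.lf (nat_lit 24896) (.g (nat_lit 2525) (.e (nat_lit 1190) (nat_lit 88) (.e (nat_lit 65604) (nat_lit 9) (.e (nat_lit 335907) (nat_lit 0) (.e (nat_lit 1996) (nat_lit 137) (.e (nat_lit 663567) (nat_lit 4) (.e (nat_lit 65604) (nat_lit 9) (.e (nat_lit 335997) (nat_lit 1) (.e (nat_lit 57872) (nat_lit 264) .nil)))))))) (.g (nat_lit 6) .nil .nil))) 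
(.lf (nat_lit 24928) (.g (nat_lit 2929) (.e (nat_lit 1190) (nat_lit 88) (.e (nat_lit 65604) (nat_lit 9) (.e (nat_lit 335997) (nat_lit 1) (.e (nat_lit 57872) (nat_lit 264) (.e (nat_lit 1219) (nat_lit 90) (.e (nat_lit 81948) (nat_lit 21) (.e (nat_lit 57871) (nat_lit 264) .nil))))))) (.g (nat_lit 7) .nil .nil)))) (.nd (nat_lit 5) 
(.lf (nat_lit 24912) (.g (nat_lit 4071) (.e (nat_lit 1190) (nat_lit 88) (.e (nat_lit 65604) (nat_lit 9) (.e (nat_lit 335997) (nat_lit 1) (.e (nat_lit 57871) (nat_lit 264) (.e (nat_lit 1190) (nat_lit 88) (.e (nat_lit 65619) (nat_lit 10) (.e (nat_lit 344097) (nat_lit 18) (.e (nat_lit 5906) (nat_lit 320) .nil)))))))) (.g (nat_lit 0) .nil .nil))) 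
(.lf (nat_lit 24944) (.g (nat_lit 2173) (.e (nat_lit 1190) (nat_lit 88) (.e (nat_lit 65604) (nat_lit 9) (.e (nat_lit 336013) (nat_lit 2) (.e (nat_lit 90165) (nat_lit 12) (.e (nat_lit 171776) (nat_lit 192) (.e (nat_lit 73736) (nat_lit 0) (.e (nat_lit 3962) (nat_lit 239) .nil))))))) (.g (nat_lit 4) .nil .nil))))) (.nd (nat_lit 4) (.nd (nat_lit 5) 
(.lf (nat_lit 24904) (.g (nat_lit 2135) (.e (nat_lit 1190) (nat_lit 88) (.e (nat_lit 65604) (nat_lit 9) (.e (nat_lit 335997) (nat_lit 1) (.e (nat_lit 57870) (nat_lit 264) (.e (nat_lit 1221) (nat_lit 90) (.e (nat_lit 81948) (nat_lit 21) (.e (nat_lit 57870) (nat_lit 264) .nil))))))) (.g (nat_lit 5) .nil .nil))) 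
(.lf (nat_lit 24936) (.g (nat_lit 2807) (.e (nat_lit 1190) (nat_lit 88) (.e (nat_lit 65604) (nat_lit 9) (.e (nat_lit 335997) (nat_lit 1) (.e (nat_lit 57872) (nat_lit 264) (.e (nat_lit 1221) (nat_lit 90) (.e (nat_lit 81948) (nat_lit 21) (.e (nat_lit 57871) (nat_lit 264) .nil))))))) (.g (nat_lit 6) .nil .nil)))) (.nd (nat_lit 5) 
(.lf (nat_lit 24920) (.g (nat_lit 1482) (.e (nat_lit 1190) (nat_lit 88) (.e (nat_lit 65604) (nat_lit 9) (.e (nat_lit 335997) (nat_lit 1) (.e (nat_lit 57871) (nat_lit 264) (.e (nat_lit 1220) (nat_lit 90) (.e (nat_lit 81948) (nat_lit 21) (.e (nat_lit 57870) (nat_lit 264) .nil))))))) (.g (nat_lit 4) .nil .nil))) 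
(.lf (nat_lit 24952) (.g (nat_lit 1924) (.e (nat_lit 1190) (nat_lit 88) (.e (nat_lit 65619) (nat_lit 10) (.e (nat_lit 344090) (nat_lit 18) (.e (nat_lit 5896) (nat_lit 320) (.e (nat_lit 1190) (nat_lit 88) (.e (nat_lit 65619) (nat_lit 10) (.e (nat_lit 344097) (nat_lit 18) (.e (nat_lit 5906) (nat_lit 320) .nil)))))))) (.g (nat_lit 4) .nil .nil)))))) (.nd (nat_lit 3) (.nd (nat_lit 4) (.nd (nat_lit 5) 
(.lf (nat_lit 24900) (.g (nat_lit 2776) (.e (nat_lit 1190) (nat_lit 88) (.e (nat_lit 65604) (nat_lit 9) (.e (nat_lit 335997) (nat_lit 1) (.e (nat_lit 57870) (nat_lit 264) (.e (nat_lit 1219) (nat_lit 90) (.e (nat_lit 81948) (nat_lit 21) (.e (nat_lit 57870) (nat_lit 264) .nil))))))) (.g (nat_lit 0) .nil .nil))) 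
(.lf (nat_lit 24932) (.g (nat_lit 2913) (.e (nat_lit 1190) (nat_lit 88) (.e (nat_lit 65604) (nat_lit 9) (.e (nat_lit 335997) (nat_lit 1) (.e (nat_lit 57872) (nat_lit 264) (.e (nat_lit 1220) (nat_lit 90) (.e (nat_lit 81950) (nat_lit 21) (.e (nat_lit 57870) (nat_lit 264) .nil))))))) (.g (nat_lit 6) .nil .nil)))) (.nd (nat_lit 5) 
(.lf (nat_lit 24916) (.g (nat_lit 3401) (.e (nat_lit 1190) (nat_lit 88) (.e (nat_lit 65604) (nat_lit 9) (.e (nat_lit 335997) (nat_lit 1) (.e (nat_lit 57871) (nat_lit 264) (.e (nat_lit 1200) (nat_lit 88) (.e (nat_lit 65604) (nat_lit 9) (.e (nat_lit 335997) (nat_lit 1) (.e (nat_lit 57870) (nat_lit 264) .nil)))))))) (.g (nat_lit 8) .nil .nil))) 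
(.lf (nat_lit 24948) (.g (nat_lit 704) (.e (nat_lit 1190) (nat_lit 88) (.e (nat_lit 65616) (nat_lit 10) (.e (nat_lit 344169) (nat_lit 40) (.e (nat_lit 671748) (nat_lit 0) .nil)))) .nil)))) (.nd (nat_lit 4) (.nd (nat_lit 5) 
(.lf (nat_lit 24908) (.g (nat_lit 867) (.e (nat_lit 1190) (nat_lit 88) (.e (nat_lit 65604) (nat_lit 9) (.e (nat_lit 335997) (nat_lit 1) (.e (nat_lit 57871) (nat_lit 264) .nil)))) .nil)) 
(.lf (nat_lit 24940) (.g (nat_lit 2362) (.e (nat_lit 1190) (nat_lit 88) (.e (nat_lit 65604) (nat_lit 9) (.e (nat_lit 336013) (nat_lit 2) (.e (nat_lit 90134) (nat_lit 9) (.e (nat_lit 3098) (nat_lit 192) .nil))))) .nil))) (.nd (nat_lit 5) 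
(.lf (nat_lit 24924) (.g (nat_lit 4356) (.e (nat_lit 1190) (nat_lit 88) (.e (nat_lit 65604) (nat_lit 9) (.e (nat_lit 335997) (nat_lit 1) (.e (nat_lit 57872) (nat_lit 264) (.e (nat_lit 1190) (nat_lit 88) (.e (nat_lit 65619) (nat_lit 10) (.e (nat_lit 344097) (nat_lit 18) (.e (nat_lit 5905) (nat_lit 320) .nil)))))))) (.g (nat_lit 8) .nil .nil))) 
(.lf (nat_lit 24956) (.g (nat_lit 1843) (.e (nat_lit 1190) (nat_lit 88) (.e (nat_lit 65619) (nat_lit 10) (.e (nat_lit 344090) (nat_lit 18) (.e (nat_lit 5896) (nat_lit 320) (.e (nat_lit 1200) (nat_lit 88) (.e (nat_lit 65604) (nat_lit 9) (.e (nat_lit 335997) (nat_lit 1) (.e (nat_lit 57872) (nat_lit 264) .nil)))))))) (.g (nat_lit 4) .nil .nil))))))) 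
(.nd (nat_lit 2) (.nd (nat_lit 3) (.nd (nat_lit 4) (.nd (nat_lit 5) 
(.lf (nat_lit 24898) (.g (nat_lit 3315) (.e (nat_lit 1190) (nat_lit 88) (.e (nat_lit 65604) (nat_lit 9) (.e (nat_lit 335997) (nat_lit 1) (.e (nat_lit 57870) (nat_lit 264) (.e (nat_lit 1190) (nat_lit 88) (.e (nat_lit 65604) (nat_lit 9) (.e (nat_lit 335997) (nat_lit 1) (.e (nat_lit 57871) (nat_lit 264) .nil)))))))) (.g (nat_lit 8) .nil .nil))) 
(.lf (nat_lit 24930) (.g (nat_lit 2248) (.e (nat_lit 1190) (nat_lit 88) (.e (nat_lit 65604) (nat_lit 9) (.e (nat_lit 335997) (nat_lit 1) (.e (nat_lit 57872) (nat_lit 264) (.e (nat_lit 1219) (nat_lit 90) (.e (nat_lit 81950) (nat_lit 21) (.e (nat_lit 57871) (nat_lit 264) .nil))))))) (.g (nat_lit 5) .nil .nil)))) (.nd (nat_lit 5) 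
(.lf (nat_lit 24914) (.g (nat_lit 3572) (.e (nat_lit 1190) (nat_lit 88) (.e (nat_lit 65604) (nat_lit 9) (.e (nat_lit 335997) (nat_lit 1) (.e (nat_lit 57871) (nat_lit 264) (.e (nat_lit 1199) (nat_lit 88) (.e (nat_lit 65610) (nat_lit 10) (.e (nat_lit 344097) (nat_lit 18) (.e (nat_lit 5906) (nat_lit 320) .nil)))))))) (.g (nat_lit 8) .nil .nil))) 
(.lf (nat_lit 24946) (.g (nat_lit 1131) (.e (nat_lit 1190) (nat_lit 88) (.e (nat_lit 65604) (nat_lit 9) (.e (nat_lit 336028) (nat_lit 3) (.e (nat_lit 98325) (nat_lit 17) .nil)))) .nil)))) (.nd (nat_lit 4) (.nd (nat_lit 5) 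
(.lf (nat_lit 24906) (.g (nat_lit 3072) (.e (nat_lit 1190) (nat_lit 88) (.e (nat_lit 65604) (nat_lit 9) (.e (nat_lit 335997) (nat_lit 1) (.e (nat_lit 57870) (nat_lit 264) (.e (nat_lit 1221) (nat_lit 90) (.e (nat_lit 81950) (nat_lit 21) (.e (nat_lit 57871) (nat_lit 264) .nil))))))) (.g (nat_lit 7) .nil .nil))) 
(.lf (nat_lit 24938) (.g (nat_lit 3302) (.e (nat_lit 1190) (nat_lit 88) (.e (nat_lit 65604) (nat_lit 9) (.e (nat_lit 335997) (nat_lit 1) (.e (nat_lit 57872) (nat_lit 264) (.e (nat_lit 1221) (nat_lit 90) (.e (nat_lit 81950) (nat_lit 21) (.e (nat_lit 57871) (nat_lit 264) .nil))))))) (.g (nat_lit 7) .nil .nil)))) (.nd (nat_lit 5) 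
(.lf (nat_lit 24922) (.g (nat_lit 3145) (.e (nat_lit 1190) (nat_lit 88) (.e (nat_lit 65604) (nat_lit 9) (.e (nat_lit 335997) (nat_lit 1) (.e (nat_lit 57871) (nat_lit 264) (.e (nat_lit 1221) (nat_lit 90) (.e (nat_lit 81950) (nat_lit 21) (.e (nat_lit 57871) (nat_lit 264) .nil))))))) (.g (nat_lit 7) .nil .nil))) 
(.lf (nat_lit 24954) (.g (nat_lit 2413) (.e (nat_lit 1190) (nat_lit 88) (.e (nat_lit 65619) (nat_lit 10) (.e (nat_lit 344090) (nat_lit 18) (.e (nat_lit 5896) (nat_lit 320) (.e (nat_lit 1199) (nat_lit 88) (.e (nat_lit 65610) (nat_lit 10) (.e (nat_lit 344097) (nat_lit 18) (.e (nat_lit 5906) (nat_lit 320) .nil)))))))) (.g (nat_lit 5) .nil .nil)))))) (.nd (nat_lit 3) (.nd (nat_lit 4) (.nd (nat_lit 5) 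
(.lf (nat_lit 24902) (.g (nat_lit 1999) (.e (nat_lit 1190) (nat_lit 88) (.e (nat_lit 65604) (nat_lit 9) (.e (nat_lit 335997) (nat_lit 1) (.e (nat_lit 57870) (nat_lit 264) (.e (nat_lit 1219) (nat_lit 90) (.e (nat_lit 81950) (nat_lit 21) (.e (nat_lit 57870) (nat_lit 264) .nil))))))) (.g (nat_lit 5) .nil .nil))) 
(.lf (nat_lit 24934) (.g (nat_lit 3335) (.e (nat_lit 1190) (nat_lit 88) (.e (nat_lit 65604) (nat_lit 9) (.e (nat_lit 335997) (nat_lit 1) (.e (nat_lit 57872) (nat_lit 264) (.e (nat_lit 1220) (nat_lit 90) (.e (nat_lit 81950) (nat_lit 21) (.e (nat_lit 57873) (nat_lit 264) .nil))))))) (.g (nat_lit 7) .nil .nil)))) (.nd (nat_lit 5) 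
(.lf (nat_lit 24918) (.g (nat_lit 2506) (.e (nat_lit 1190) (nat_lit 88) (.e (nat_lit 65604) (nat_lit 9) (.e (nat_lit 335997) (nat_lit 1) (.e (nat_lit 57871) (nat_lit 264) (.e (nat_lit 1219) (nat_lit 90) (.e (nat_lit 81948) (nat_lit 21) (.e (nat_lit 57871) (nat_lit 264) .nil))))))) (.g (nat_lit 7) .nil .nil))) 
(.lf (nat_lit 24950) (.g (nat_lit 1848) (.e (nat_lit 1190) (nat_lit 88) (.e (nat_lit 65616) (nat_lit 10) (.e (nat_lit 344169) (nat_lit 40) (.e (nat_lit 671762) (nat_lit 4) (.e (nat_lit 65619) (nat_lit 10) (.e (nat_lit 344097) (nat_lit 18) (.e (nat_lit 5907) (nat_lit 320) .nil))))))) (.g (nat_lit 4) .nil .nil))))) (.nd (nat_lit 4) (.nd (nat_lit 5) 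
(.lf (nat_lit 24910) (.g (nat_lit 3415) (.e (nat_lit 1190) (nat_lit 88) (.e (nat_lit 65604) (nat_lit 9) (.e (nat_lit 335997) (nat_lit 1) (.e (nat_lit 57871) (nat_lit 264) (.e (nat_lit 1190) (nat_lit 88) (.e (nat_lit 65604) (nat_lit 9) (.e (nat_lit 335997) (nat_lit 1) (.e (nat_lit 57872) (nat_lit 264) .nil)))))))) (.g (nat_lit 8) .nil .nil))) 
(.lf (nat_lit 24942) (.g (nat_lit 1470) (.e (nat_lit 1190) (nat_lit 88) (.e (nat_lit 65604) (nat_lit 9) (.e (nat_lit 336013) (nat_lit 2) (.e (nat_lit 90165) (nat_lit 12) .nil)))) .nil))) (.nd (nat_lit 5) 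
(.lf (nat_lit 24926) (.g (nat_lit 4196) (.e (nat_lit 1190) (nat_lit 88) (.e (nat_lit 65604) (nat_lit 9) (.e (nat_lit 335997) (nat_lit 1) (.e (nat_lit 57872) (nat_lit 264) (.e (nat_lit 1200) (nat_lit 88) (.e (nat_lit 65619) (nat_lit 10) (.e (nat_lit 344097) (nat_lit 18) (.e (nat_lit 5905) (nat_lit 320) .nil)))))))) (.g (nat_lit 8) .nil .nil))) 
(.lf (nat_lit 24958) (.g (nat_lit 2513) (.e (nat_lit 1190) (nat_lit 88) (.e (nat_lit 65619) (nat_lit 10) (.e (nat_lit 344090) (nat_lit 18) (.e (nat_lit 5896) (nat_lit 320) (.e (nat_lit 1200) (nat_lit 88) (.e (nat_lit 65619) (nat_lit 10) (.e (nat_lit 344097) (nat_lit 18) (.e (nat_lit 5907) (nat_lit 320) .nil)))))))) (.g (nat_lit 5) .nil .nil)))))))) 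
(.nd (nat_lit 1) (.nd (nat_lit 2) (.nd (nat_lit 3) (.nd (nat_lit 4) (.nd (nat_lit 5) 
(.lf (nat_lit 24897) (.g (nat_lit 1558) (.e (nat_lit 1190) (nat_lit 88) (.e (nat_lit 65604) (nat_lit 9) (.e (nat_lit 335907) (nat_lit 0) (.e (nat_lit 1996) (nat_lit 137) (.e (nat_lit 663569) (nat_lit 6) (.e (nat_lit 81948) (nat_lit 21) (.e (nat_lit 57871) (nat_lit 264) .nil))))))) (.g (nat_lit 4) .nil .nil))) 
(.lf (nat_lit 24929) (.g (nat_lit 2494) (.e (nat_lit 1190) (nat_lit 88) (.e (nat_lit 65604) (nat_lit 9) (.e (nat_lit 335997) (nat_lit 1) (.e (nat_lit 57872) (nat_lit 264) (.e (nat_lit 1219) (nat_lit 90) (.e (nat_lit 81950) (nat_lit 21) (.e (nat_lit 57870) (nat_lit 264) .nil))))))) (.g (nat_lit 5) .nil .nil)))) (.nd (nat_lit 5) 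
(.lf (nat_lit 24913) (.g (nat_lit 4519) (.e (nat_lit 1190) (nat_lit 88) (.e (nat_lit 65604) (nat_lit 9) (.e (nat_lit 335997) (nat_lit 1) (.e (nat_lit 57871) (nat_lit 264) (.e (nat_lit 1190) (nat_lit 88) (.e (nat_lit 65619) (nat_lit 10) (.e (nat_lit 344097) (nat_lit 18) (.e (nat_lit 5907) (nat_lit 320) .nil)))))))) (.g (nat_lit 0) .nil .nil))) 
(.lf (nat_lit 24945) (.g (nat_lit 1074) (.e (nat_lit 1190) (nat_lit 88) (.e (nat_lit 65604) (nat_lit 9) (.e (nat_lit 336028) (nat_lit 3) (.e (nat_lit 106240) (nat_lit 10) .nil)))) .nil)))) (.nd (nat_lit 4) (.nd (nat_lit 5) 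
(.lf (nat_lit 24905) (.g (nat_lit 1866) (.e (nat_lit 1190) (nat_lit 88) (.e (nat_lit 65604) (nat_lit 9) (.e (nat_lit 335997) (nat_lit 1) (.e (nat_lit 57870) (nat_lit 264) (.e (nat_lit 1221) (nat_lit 90) (.e (nat_lit 81948) (nat_lit 21) (.e (nat_lit 57871) (nat_lit 264) .nil))))))) (.g (nat_lit 5) .nil .nil))) 
(.lf (nat_lit 24937) (.g (nat_lit 3437) (.e (nat_lit 1190) (nat_lit 88) (.e (nat_lit 65604) (nat_lit 9) (.e (nat_lit 335997) (nat_lit 1) (.e (nat_lit 57872) (nat_lit 264) (.e (nat_lit 1221) (nat_lit 90) (.e (nat_lit 81948) (nat_lit 21) (.e (nat_lit 57872) (nat_lit 264) .nil))))))) (.g (nat_lit 7) .nil .nil)))) (.nd (nat_lit 5) 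
(.lf (nat_lit 24921) (.g (nat_lit 3303) (.e (nat_lit 1190) (nat_lit 88) (.e (nat_lit 65604) (nat_lit 9) (.e (nat_lit 335997) (nat_lit 1) (.e (nat_lit 57871) (nat_lit 264) (.e (nat_lit 1221) (nat_lit 90) (.e (nat_lit 81950) (nat_lit 21) (.e (nat_lit 57870) (nat_lit 264) .nil))))))) (.g (nat_lit 0) .nil .nil))) 
(.lf (nat_lit 24953) (.g (nat_lit 2210) (.e (nat_lit 1190) (nat_lit 88) (.e (nat_lit 65619) (nat_lit 10) (.e (nat_lit 344090) (nat_lit 18) (.e (nat_lit 5896) (nat_lit 320) (.e (nat_lit 1190) (nat_lit 88) (.e (nat_lit 65619) (nat_lit 10) (.e (nat_lit 344097) (nat_lit 18) (.e (nat_lit 5907) (nat_lit 320) .nil)))))))) (.g (nat_lit 4) .nil .nil)))))) (.nd (nat_lit 3) (.nd (nat_lit 4) (.nd (nat_lit 5) 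
(.lf (nat_lit 24901) (.g (nat_lit 2546) (.e (nat_lit 1190) (nat_lit 88) (.e (nat_lit 65604) (nat_lit 9) (.e (nat_lit 335997) (nat_lit 1) (.e (nat_lit 57870) (nat_lit 264) (.e (nat_lit 1219) (nat_lit 90) (.e (nat_lit 81948) (nat_lit 21) (.e (nat_lit 57871) (nat_lit 264) .nil))))))) (.g (nat_lit 7) .nil .nil))) 
(.lf (nat_lit 24933) (.g (nat_lit 3249) (.e (nat_lit 1190) (nat_lit 88) (.e (nat_lit 65604) (nat_lit 9) (.e (nat_lit 335997) (nat_lit 1) (.e (nat_lit 57872) (nat_lit 264) (.e (nat_lit 1220) (nat_lit 90) (.e (nat_lit 81950) (nat_lit 21) (.e (nat_lit 57872) (nat_lit 264) .nil))))))) (.g (nat_lit 6) .nil .nil)))) (.nd (nat_lit 5) 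
(.lf (nat_lit 24917) (.g (nat_lit 3505) (.e (nat_lit 1190) (nat_lit 88) (.e (nat_lit 65604) (nat_lit 9) (.e (nat_lit 335997) (nat_lit 1) (.e (nat_lit 57871) (nat_lit 264) (.e (nat_lit 1200) (nat_lit 88) (.e (nat_lit 65604) (nat_lit 9) (.e (nat_lit 335997) (nat_lit 1) (.e (nat_lit 57872) (nat_lit 264) .nil)))))))) (.g (nat_lit 8) .nil .nil))) 
(.lf (nat_lit 24949) (.g (nat_lit 2089) (.e (nat_lit 1190) (nat_lit 88) (.e (nat_lit 65616) (nat_lit 10) (.e (nat_lit 344169) (nat_lit 40) (.e (nat_lit 671762) (nat_lit 4) (.e (nat_lit 65610) (nat_lit 10) (.e (nat_lit 344097) (nat_lit 18) (.e (nat_lit 5907) (nat_lit 320) .nil))))))) (.g (nat_lit 4) .nil .nil))))) (.nd (nat_lit 4) (.nd (nat_lit 5) 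
(.lf (nat_lit 24909) (.g (nat_lit 3114) (.e (nat_lit 1190) (nat_lit 88) (.e (nat_lit 65604) (nat_lit 9) (.e (nat_lit 335997) (nat_lit 1) (.e (nat_lit 57871) (nat_lit 264) (.e (nat_lit 1190) (nat_lit 88) (.e (nat_lit 65604) (nat_lit 9) (.e (nat_lit 335997) (nat_lit 1) (.e (nat_lit 57871) (nat_lit 264) .nil)))))))) (.g (nat_lit 7) .nil .nil))) 
(.lf (nat_lit 24941) (.g (nat_lit 2868) (.e (nat_lit 1190) (nat_lit 88) (.e (nat_lit 65604) (nat_lit 9) (.e (nat_lit 336013) (nat_lit 2) (.e (nat_lit 90134) (nat_lit 9) (.e (nat_lit 3098) (nat_lit 192) (.e (nat_lit 491566) (nat_lit 12) (.e (nat_lit 385043) (nat_lit 21) (.e (nat_lit 4202) (nat_lit 251) .nil)))))))) (.g (nat_lit 4) .nil .nil)))) (.nd (nat_lit 5) 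
(.lf (nat_lit 24925) (.g (nat_lit 3362) (.e (nat_lit 1190) (nat_lit 88) (.e (nat_lit 65604) (nat_lit 9) (.e (nat_lit 335997) (nat_lit 1) (.e (nat_lit 57872) (nat_lit 264) (.e (nat_lit 1200) (nat_lit 88) (.e (nat_lit 65604) (nat_lit 9) (.e (nat_lit 335997) (nat_lit 1) (.e (nat_lit 57871) (nat_lit 264) .nil)))))))) (.g (nat_lit 8) .nil .nil))) 
(.lf (nat_lit 24957) (.g (nat_lit 2244) (.e (nat_lit 1190) (nat_lit 88) (.e (nat_lit 65619) (nat_lit 10) (.e (nat_lit 344090) (nat_lit 18) (.e (nat_lit 5896) (nat_lit 320) (.e (nat_lit 1200) (nat_lit 88) (.e (nat_lit 65619) (nat_lit 10) (.e (nat_lit 344097) (nat_lit 18) (.e (nat_lit 5906) (nat_lit 320) .nil)))))))) (.g (nat_lit 4) .nil .nil))))))) 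
(.nd (nat_lit 2) (.nd (nat_lit 3) (.nd (nat_lit 4) (.nd (nat_lit 5) 
(.lf (nat_lit 24899) (.g (nat_lit 3253) (.e (nat_lit 1190) (nat_lit 88) (.e (nat_lit 65604) (nat_lit 9) (.e (nat_lit 335997) (nat_lit 1) (.e (nat_lit 57870) (nat_lit 264) (.e (nat_lit 1200) (nat_lit 88) (.e (nat_lit 65604) (nat_lit 9) (.e (nat_lit 335997) (nat_lit 1) (.e (nat_lit 57871) (nat_lit 264) .nil)))))))) (.g (nat_lit 8) .nil .nil))) 
(.lf (nat_lit 24931) (.g (nat_lit 3243) (.e (nat_lit 1190) (nat_lit 88) (.e (nat_lit 65604) (nat_lit 9) (.e (nat_lit 335997) (nat_lit 1) (.e (nat_lit 57872) (nat_lit 264) (.e (nat_lit 1219) (nat_lit 90) (.e (nat_lit 81950) (nat_lit 21) (.e (nat_lit 57873) (nat_lit 264) .nil))))))) (.g (nat_lit 6) .nil .nil)))) (.nd (nat_lit 5) 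
(.lf (nat_lit 24915) (.g (nat_lit 3984) (.e (nat_lit 1190) (nat_lit 88) (.e (nat_lit 65604) (nat_lit 9) (.e (nat_lit 335997) (nat_lit 1) (.e (nat_lit 57871) (nat_lit 264) (.e (nat_lit 1199) (nat_lit 88) (.e (nat_lit 65610) (nat_lit 10) (.e (nat_lit 344097) (nat_lit 18) (.e (nat_lit 5907) (nat_lit 320) .nil)))))))) (.g (nat_lit 8) .nil .nil))) 
(.lf (nat_lit 24947) (.g (nat_lit 3174) (.e (nat_lit 1190) (nat_lit 88) (.e (nat_lit 65610) (nat_lit 10) (.e (nat_lit 344117) (nat_lit 21) (.e (nat_lit 516099) (nat_lit 0) .nil)))) .nil)))) (.nd (nat_lit 4) (.nd (nat_lit 5) 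
(.lf (nat_lit 24907) (.g (nat_lit 3086) (.e (nat_lit 1190) (nat_lit 88) (.e (nat_lit 65604) (nat_lit 9) (.e (nat_lit 335997) (nat_lit 1) (.e (nat_lit 57870) (nat_lit 264) (.e (nat_lit 1221) (nat_lit 90) (.e (nat_lit 81959) (nat_lit 24) (.e (nat_lit 123191) (nat_lit 264) .nil))))))) (.g (nat_lit 6) .nil .nil))) 
(.lf (nat_lit 24939) (.g (nat_lit 3319) (.e (nat_lit 1190) (nat_lit 88) (.e (nat_lit 65604) (nat_lit 9) (.e (nat_lit 335997) (nat_lit 1) (.e (nat_lit 57872) (nat_lit 264) (.e (nat_lit 1221) (nat_lit 90) (.e (nat_lit 81959) (nat_lit 24) (.e (nat_lit 123191) (nat_lit 264) .nil))))))) (.g (nat_lit 6) .nil .nil)))) (.nd (nat_lit 5) 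
(.lf (nat_lit 24923) (.g (nat_lit 3811) (.e (nat_lit 1190) (nat_lit 88) (.e (nat_lit 65604) (nat_lit 9) (.e (nat_lit 335997) (nat_lit 1) (.e (nat_lit 57871) (nat_lit 264) (.e (nat_lit 1221) (nat_lit 90) (.e (nat_lit 81950) (nat_lit 21) (.e (nat_lit 57873) (nat_lit 264) .nil))))))) (.g (nat_lit 7) .nil .nil))) 
(.lf (nat_lit 24955) (.g (nat_lit 2663) (.e (nat_lit 1190) (nat_lit 88) (.e (nat_lit 65619) (nat_lit 10) (.e (nat_lit 344090) (nat_lit 18) (.e (nat_lit 5896) (nat_lit 320) (.e (nat_lit 1199) (nat_lit 88) (.e (nat_lit 65610) (nat_lit 10) (.e (nat_lit 344097) (nat_lit 18) (.e (nat_lit 5907) (nat_lit 320) .nil)))))))) (.g (nat_lit 5) .nil .nil)))))) (.nd (nat_lit 3) (.nd (nat_lit 4) (.nd (nat_lit 5) 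
(.lf (nat_lit 24903) (.g (nat_lit 1501) (.e (nat_lit 1190) (nat_lit 88) (.e (nat_lit 65604) (nat_lit 9) (.e (nat_lit 335997) (nat_lit 1) (.e (nat_lit 57870) (nat_lit 264) (.e (nat_lit 1220) (nat_lit 90) (.e (nat_lit 81948) (nat_lit 21) (.e (nat_lit 57870) (nat_lit 264) .nil))))))) (.g (nat_lit 4) .nil .nil))) 
(.lf (nat_lit 24935) (.g (nat_lit 3076) (.e (nat_lit 1190) (nat_lit 88) (.e (nat_lit 65604) (nat_lit 9) (.e (nat_lit 335997) (nat_lit 1) (.e (nat_lit 57872) (nat_lit 264) (.e (nat_lit 1221) (nat_lit 90) (.e (nat_lit 81948) (nat_lit 21) (.e (nat_lit 57870) (nat_lit 264) .nil))))))) (.g (nat_lit 6) .nil .nil)))) (.nd (nat_lit 5) 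
(.lf (nat_lit 24919) (.g (nat_lit 2020) (.e (nat_lit 1190) (nat_lit 88) (.e (nat_lit 65604) (nat_lit 9) (.e (nat_lit 335997) (nat_lit 1) (.e (nat_lit 57871) (nat_lit 264) (.e (nat_lit 1219) (nat_lit 90) (.e (nat_lit 81950) (nat_lit 21) (.e (nat_lit 57870) (nat_lit 264) .nil))))))) (.g (nat_lit 5) .nil .nil))) 
(.lf (nat_lit 24951) (.g (nat_lit 2226) (.e (nat_lit 1190) (nat_lit 88) (.e (nat_lit 65619) (nat_lit 10) (.e (nat_lit 344090) (nat_lit 18) (.e (nat_lit 5896) (nat_lit 320) (.e (nat_lit 1190) (nat_lit 88) (.e (nat_lit 65619) (nat_lit 10) (.e (nat_lit 344097) (nat_lit 18) (.e (nat_lit 5905) (nat_lit 320) .nil)))))))) (.g (nat_lit 4) .nil .nil))))) (.nd (nat_lit 4) (.nd (nat_lit 5) 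
(.lf (nat_lit 24911) (.g (nat_lit 4363) (.e (nat_lit 1190) (nat_lit 88) (.e (nat_lit 65604) (nat_lit 9) (.e (nat_lit 335997) (nat_lit 1) (.e (nat_lit 57871) (nat_lit 264) (.e (nat_lit 1190) (nat_lit 88) (.e (nat_lit 65619) (nat_lit 10) (.e (nat_lit 344097) (nat_lit 18) (.e (nat_lit 5905) (nat_lit 320) .nil)))))))) (.g (nat_lit 8) .nil .nil))) 
(.lf (nat_lit 24943) (.g (nat_lit 1950) (.e (nat_lit 1190) (nat_lit 88) (.e (nat_lit 65604) (nat_lit 9) (.e (nat_lit 336013) (nat_lit 2) (.e (nat_lit 90165) (nat_lit 12) (.e (nat_lit 171776) (nat_lit 192) .nil))))) .nil))) (.nd (nat_lit 5) 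
(.lf (nat_lit 24927) (.g (nat_lit 3159) (.e (nat_lit 1190) (nat_lit 88) (.e (nat_lit 65604) (nat_lit 9) (.e (nat_lit 335997) (nat_lit 1) (.e (nat_lit 57872) (nat_lit 264) (.e (nat_lit 1219) (nat_lit 90) (.e (nat_lit 81948) (nat_lit 21) (.e (nat_lit 57870) (nat_lit 264) .nil))))))) (.g (nat_lit 0) .nil .nil))) 
(.lf (nat_lit 24959) (.g (nat_lit 2109) (.e (nat_lit 1190) (nat_lit 88) (.e (nat_lit 65619) (nat_lit 10) (.e (nat_lit 344090) (nat_lit 18) (.e (nat_lit 5896) (nat_lit 320) (.e (nat_lit 7936) (nat_lit 90) (.e (nat_lit 81948) (nat_lit 21) (.e (nat_lit 57872) (nat_lit 264) .nil))))))) (.g (nat_lit 4) .nil .nil)))))))))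

noncomputable def tv352 : DT := (.nd (nat_lit 0) (.nd (nat_lit 1) (.nd (nat_lit 2) (.nd (nat_lit 3) (.nd (nat_lit 4) (.nd (nat_lit 5) 
(.lf (nat_lit 24960) (.g (nat_lit 2012) (.e (nat_lit 1190) (nat_lit 88) (.e (nat_lit 65619) (nat_lit 10) (.e (nat_lit 344090) (nat_lit 18) (.e (nat_lit 5896) (nat_lit 320) (.e (nat_lit 7936) (nat_lit 90) (.e (nat_lit 81950) (nat_lit 21) (.e (nat_lit 57870) (nat_lit 264) .nil))))))) (.g (nat_lit 4) .nil .nil))) 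
(.lf (nat_lit 24992) (.g (nat_lit 1941) (.e (nat_lit 1190) (nat_lit 88) (.e (nat_lit 65619) (nat_lit 10) (.e (nat_lit 344097) (nat_lit 18) (.e (nat_lit 5906) (nat_lit 320) (.e (nat_lit 7936) (nat_lit 90) (.e (nat_lit 81948) (nat_lit 21) (.e (nat_lit 57872) (nat_lit 264) .nil))))))) (.g (nat_lit 4) .nil .nil)))) (.nd (nat_lit 5) 
(.lf (nat_lit 24976) (.g (nat_lit 3388) (.e (nat_lit 1190) (nat_lit 88) (.e (nat_lit 65619) (nat_lit 10) (.e (nat_lit 344097) (nat_lit 18) (.e (nat_lit 5905) (nat_lit 320) (.e (nat_lit 1219) (nat_lit 90) (.e (nat_lit 81950) (nat_lit 21) (.e (nat_lit 57873) (nat_lit 264) .nil))))))) (.g (nat_lit 6) .nil .nil))) 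
(.lf (nat_lit 25008) (.g (nat_lit 3148) (.e (nat_lit 1190) (nat_lit 88) (.e (nat_lit 65619) (nat_lit 10) (.e (nat_lit 344097) (nat_lit 18) (.e (nat_lit 5907) (nat_lit 320) (.e (nat_lit 1219) (nat_lit 90) (.e (nat_lit 81950) (nat_lit 21) (.e (nat_lit 57870) (nat_lit 264) .nil))))))) (.g (nat_lit 6) .nil .nil))))) (.nd (nat_lit 4) (.nd (nat_lit 5) 
(.lf (nat_lit 24968) (.g (nat_lit 3766) (.e (nat_lit 1190) (nat_lit 88) (.e (nat_lit 65619) (nat_lit 10) (.e (nat_lit 344097) (nat_lit 18) (.e (nat_lit 5905) (nat_lit 320) (.e (nat_lit 1200) (nat_lit 88) (.e (nat_lit 65604) (nat_lit 9) (.e (nat_lit 335997) (nat_lit 1) (.e (nat_lit 57870) (nat_lit 264) .nil)))))))) (.g (nat_lit 7) .nil .nil))) 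
(.lf (nat_lit 25000) (.g (nat_lit 2736) (.e (nat_lit 1190) (nat_lit 88) (.e (nat_lit 65619) (nat_lit 10) (.e (nat_lit 344097) (nat_lit 18) (.e (nat_lit 5907) (nat_lit 320) (.e (nat_lit 1189) (nat_lit 88) (.e (nat_lit 65604) (nat_lit 9) (.e (nat_lit 335997) (nat_lit 1) (.e (nat_lit 57872) (nat_lit 264) .nil)))))))) (.g (nat_lit 4) .nil .nil)))) (.nd (nat_lit 5) 
(.lf (nat_lit 24984) (.g (nat_lit 3099) (.e (nat_lit 1190) (nat_lit 88) (.e (nat_lit 65619) (nat_lit 10) (.e (nat_lit 344097) (nat_lit 18) (.e (nat_lit 5906) (nat_lit 320) (.e (nat_lit 1219) (nat_lit 90) (.e (nat_lit 81950) (nat_lit 21) (.e (nat_lit 57872) (nat_lit 264) .nil))))))) (.g (nat_lit 6) .nil .nil))) 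
(.lf (nat_lit 25016) (.g (nat_lit 1809) (.e (nat_lit 1190) (nat_lit 88) (.e (nat_lit 65619) (nat_lit 10) (.e (nat_lit 344097) (nat_lit 18) (.e (nat_lit 5907) (nat_lit 320) (.e (nat_lit 7936) (nat_lit 90) .nil))))) .nil))))) (.nd (nat_lit 3) (.nd (nat_lit 4) (.nd (nat_lit 5) 
(.lf (nat_lit 24964) (.g (nat_lit 5324) (.e (nat_lit 1190) (nat_lit 88) (.e (nat_lit 65619) (nat_lit 10) (.e (nat_lit 344097) (nat_lit 18) (.e (nat_lit 5905) (nat_lit 320) (.e (nat_lit 1190) (nat_lit 88) (.e (nat_lit 65619) (nat_lit 10) (.e (nat_lit 344097) (nat_lit 18) (.e (nat_lit 5905) (nat_lit 320) .nil)))))))) (.g (nat_lit 0) .nil .nil))) 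
(.lf (nat_lit 24996) (.g (nat_lit 2163) (.e (nat_lit 1190) (nat_lit 88) (.e (nat_lit 65619) (nat_lit 10) (.e (nat_lit 344097) (nat_lit 18) (.e (nat_lit 5907) (nat_lit 320) (.e (nat_lit 989) (nat_lit 81) (.e (nat_lit 1615) (nat_lit 113) (.e (nat_lit 376859) (nat_lit 21) (.e (nat_lit 57870) (nat_lit 264) .nil)))))))) (.g (nat_lit 4) .nil .nil)))) (.nd (nat_lit 5) 
(.lf (nat_lit 24980) (.g (nat_lit 4517) (.e (nat_lit 1190) (nat_lit 88) (.e (nat_lit 65619) (nat_lit 10) (.e (nat_lit 344097) (nat_lit 18) (.e (nat_lit 5905) (nat_lit 320) (.e (nat_lit 1221) (nat_lit 90) (.e (nat_lit 81950) (nat_lit 21) (.e (nat_lit 57873) (nat_lit 264) .nil))))))) (.g (nat_lit 7) .nil .nil))) 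
(.lf (nat_lit 25012) (.g (nat_lit 4315) (.e (nat_lit 1190) (nat_lit 88) (.e (nat_lit 65619) (nat_lit 10) (.e (nat_lit 344097) (nat_lit 18) (.e (nat_lit 5907) (nat_lit 320) (.e (nat_lit 1220) (nat_lit 90) (.e (nat_lit 81950) (nat_lit 21) (.e (nat_lit 57871) (nat_lit 264) .nil))))))) (.g (nat_lit 6) .nil .nil))))) (.nd (nat_lit 4) (.nd (nat_lit 5) 
(.lf (nat_lit 24972) (.g (nat_lit 4279) (.e (nat_lit 1190) (nat_lit 88) (.e (nat_lit 65619) (nat_lit 10) (.e (nat_lit 344097) (nat_lit 18) (.e (nat_lit 5905) (nat_lit 320) (.e (nat_lit 1200) (nat_lit 88) (.e (nat_lit 65619) (nat_lit 10) (.e (nat_lit 344097) (nat_lit 18) (.e (nat_lit 5906) (nat_lit 320) .nil)))))))) (.g (nat_lit 7) .nil .nil))) 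
(.lf (nat_lit 25004) (.g (nat_lit 2838) (.e (nat_lit 1190) (nat_lit 88) (.e (nat_lit 65619) (nat_lit 10) (.e (nat_lit 344097) (nat_lit 18) (.e (nat_lit 5907) (nat_lit 320) (.e (nat_lit 1219) (nat_lit 90) (.e (nat_lit 81949) (nat_lit 21) (.e (nat_lit 57870) (nat_lit 264) .nil))))))) (.g (nat_lit 5) .nil .nil)))) (.nd (nat_lit 5) 
(.lf (nat_lit 24988) (.g (nat_lit 3228) (.e (nat_lit 1190) (nat_lit 88) (.e (nat_lit 65619) (nat_lit 10) (.e (nat_lit 344097) (nat_lit 18) (.e (nat_lit 5906) (nat_lit 320) (.e (nat_lit 1221) (nat_lit 90) (.e (nat_lit 81948) (nat_lit 21) (.e (nat_lit 57871) (nat_lit 264) .nil))))))) (.g (nat_lit 6) .nil .nil))) 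
(.lf (nat_lit 25020) (.g (nat_lit 393) (.e (nat_lit 1190) (nat_lit 88) (.e (nat_lit 65619) (nat_lit 10) (.e (nat_lit 344117) (nat_lit 21) .nil))) .nil)))))) (.nd (nat_lit 2) (.nd (nat_lit 3) (.nd (nat_lit 4) (.nd (nat_lit 5) 
(.lf (nat_lit 24962) (.g (nat_lit 983) (.e (nat_lit 1190) (nat_lit 88) (.e (nat_lit 65619) (nat_lit 10) (.e (nat_lit 344097) (nat_lit 18) (.e (nat_lit 5905) (nat_lit 320) .nil)))) .nil)) 
(.lf (nat_lit 24994) (.g (nat_lit 1039) (.e (nat_lit 1190) (nat_lit 88) (.e (nat_lit 65619) (nat_lit 10) (.e (nat_lit 344097) (nat_lit 18) (.e (nat_lit 5907) (nat_lit 320) .nil)))) .nil))) (.nd (nat_lit 5) 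
(.lf (nat_lit 24978) (.g (nat_lit 2090) (.e (nat_lit 1190) (nat_lit 88) (.e (nat_lit 65619) (nat_lit 10) (.e (nat_lit 344097) (nat_lit 18) (.e (nat_lit 5905) (nat_lit 320) (.e (nat_lit 1220) (nat_lit 90) (.e (nat_lit 81948) (nat_lit 21) (.e (nat_lit 57873) (nat_lit 264) .nil))))))) (.g (nat_lit 4) .nil .nil))) 
(.lf (nat_lit 25010) (.g (nat_lit 3747) (.e (nat_lit 1190) (nat_lit 88) (.e (nat_lit 65619) (nat_lit 10) (.e (nat_lit 344097) (nat_lit 18) (.e (nat_lit 5907) (nat_lit 320) (.e (nat_lit 1219) (nat_lit 90) (.e (nat_lit 81950) (nat_lit 21) (.e (nat_lit 57872) (nat_lit 264) .nil))))))) (.g (nat_lit 7) .nil .nil))))) (.nd (nat_lit 4) (.nd (nat_lit 5) 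
(.lf (nat_lit 24970) (.g (nat_lit 3874) (.e (nat_lit 1190) (nat_lit 88) (.e (nat_lit 65619) (nat_lit 10) (.e (nat_lit 344097) (nat_lit 18) (.e (nat_lit 5905) (nat_lit 320) (.e (nat_lit 1200) (nat_lit 88) (.e (nat_lit 65604) (nat_lit 9) (.e (nat_lit 335997) (nat_lit 1) (.e (nat_lit 57872) (nat_lit 264) .nil)))))))) (.g (nat_lit 7) .nil .nil))) 
(.lf (nat_lit 25002) (.g (nat_lit 2105) (.e (nat_lit 1190) (nat_lit 88) (.e (nat_lit 65619) (nat_lit 10) (.e (nat_lit 344097) (nat_lit 18) (.e (nat_lit 5907) (nat_lit 320) (.e (nat_lit 1199) (nat_lit 88) (.e (nat_lit 65619) (nat_lit 10) (.e (nat_lit 344097) (nat_lit 18) (.e (nat_lit 5907) (nat_lit 320) .nil)))))))) (.g (nat_lit 4) .nil .nil)))) (.nd (nat_lit 5) 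
(.lf (nat_lit 24986) (.g (nat_lit 3717) (.e (nat_lit 1190) (nat_lit 88) (.e (nat_lit 65619) (nat_lit 10) (.e (nat_lit 344097) (nat_lit 18) (.e (nat_lit 5906) (nat_lit 320) (.e (nat_lit 1220) (nat_lit 90) (.e (nat_lit 81950) (nat_lit 21) (.e (nat_lit 57871) (nat_lit 264) .nil))))))) (.g (nat_lit 6) .nil .nil))) 
(.lf (nat_lit 25018) (.g (nat_lit 2022) (.e (nat_lit 1190) (nat_lit 88) (.e (nat_lit 65619) (nat_lit 10) (.e (nat_lit 344097) (nat_lit 18) (.e (nat_lit 5907) (nat_lit 320) (.e (nat_lit 7936) (nat_lit 90) (.e (nat_lit 81950) (nat_lit 21) (.e (nat_lit 57870) (nat_lit 264) .nil))))))) (.g (nat_lit 4) .nil .nil)))))) (.nd (nat_lit 3) (.nd (nat_lit 4) (.nd (nat_lit 5) 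
(.lf (nat_lit 24966) (.g (nat_lit 5195) (.e (nat_lit 1190) (nat_lit 88) (.e (nat_lit 65619) (nat_lit 10) (.e (nat_lit 344097) (nat_lit 18) (.e (nat_lit 5905) (nat_lit 320) (.e (nat_lit 1190) (nat_lit 88) (.e (nat_lit 65619) (nat_lit 10) (.e (nat_lit 344097) (nat_lit 18) (.e (nat_lit 5907) (nat_lit 320) .nil)))))))) (.g (nat_lit 0) .nil .nil))) 
(.lf (nat_lit 24998) (.g (nat_lit 2633) (.e (nat_lit 1190) (nat_lit 88) (.e (nat_lit 65619) (nat_lit 10) (.e (nat_lit 344097) (nat_lit 18) (.e (nat_lit 5907) (nat_lit 320) (.e (nat_lit 1189) (nat_lit 88) (.e (nat_lit 65604) (nat_lit 9) (.e (nat_lit 335997) (nat_lit 1) (.e (nat_lit 57870) (nat_lit 264) .nil)))))))) (.g (nat_lit 4) .nil .nil)))) (.nd (nat_lit 5) 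
(.lf (nat_lit 24982) (.g (nat_lit 2500) (.e (nat_lit 1190) (nat_lit 88) (.e (nat_lit 65619) (nat_lit 10) (.e (nat_lit 344097) (nat_lit 18) (.e (nat_lit 5906) (nat_lit 320) (.e (nat_lit 1219) (nat_lit 90) (.e (nat_lit 81950) (nat_lit 21) (.e (nat_lit 57870) (nat_lit 264) .nil))))))) (.g (nat_lit 5) .nil .nil))) 
(.lf (nat_lit 25014) (.g (nat_lit 4268) (.e (nat_lit 1190) (nat_lit 88) (.e (nat_lit 65619) (nat_lit 10) (.e (nat_lit 344097) (nat_lit 18) (.e (nat_lit 5907) (nat_lit 320) (.e (nat_lit 1221) (nat_lit 90) (.e (nat_lit 81948) (nat_lit 21) (.e (nat_lit 57873) (nat_lit 264) .nil))))))) (.g (nat_lit 7) .nil .nil))))) (.nd (nat_lit 4) (.nd (nat_lit 5) 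
(.lf (nat_lit 24974) (.g (nat_lit 2749) (.e (nat_lit 1190) (nat_lit 88) (.e (nat_lit 65619) (nat_lit 10) (.e (nat_lit 344097) (nat_lit 18) (.e (nat_lit 5905) (nat_lit 320) (.e (nat_lit 1219) (nat_lit 90) (.e (nat_lit 81950) (nat_lit 21) (.e (nat_lit 57870) (nat_lit 264) .nil))))))) (.g (nat_lit 5) .nil .nil))) 
(.lf (nat_lit 25006) (.g (nat_lit 2118) (.e (nat_lit 1190) (nat_lit 88) (.e (nat_lit 65619) (nat_lit 10) (.e (nat_lit 344097) (nat_lit 18) (.e (nat_lit 5907) (nat_lit 320) (.e (nat_lit 1219) (nat_lit 90) (.e (nat_lit 81949) (nat_lit 21) (.e (nat_lit 57872) (nat_lit 264) .nil))))))) (.g (nat_lit 4) .nil .nil)))) (.nd (nat_lit 5) 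
(.lf (nat_lit 24990) (.g (nat_lit 3376) (.e (nat_lit 1190) (nat_lit 88) (.e (nat_lit 65619) (nat_lit 10) (.e (nat_lit 344097) (nat_lit 18) (.e (nat_lit 5906) (nat_lit 320) (.e (nat_lit 1221) (nat_lit 90) (.e (nat_lit 81948) (nat_lit 21) (.e (nat_lit 57873) (nat_lit 264) .nil))))))) (.g (nat_lit 6) .nil .nil))) 
(.lf (nat_lit 25022) (.g (nat_lit 2244) (.e (nat_lit 1190) (nat_lit 88) (.e (nat_lit 65619) (nat_lit 10) (.e (nat_lit 344117) (nat_lit 21) (.e (nat_lit 516097) (nat_lit 0) (.e (nat_lit 3453) (nat_lit 216) (.e (nat_lit 688181) (nat_lit 17) (.e (nat_lit 73731) (nat_lit 0) (.e (nat_lit 7454) (nat_lit 396) .nil)))))))) (.g (nat_lit 4) .nil .nil)))))))) 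
(.nd (nat_lit 1) (.nd (nat_lit 2) (.nd (nat_lit 3) (.nd (nat_lit 4) (.nd (nat_lit 5) 
(.lf (nat_lit 24961) (.g (nat_lit 1213) (.e (nat_lit 1190) (nat_lit 88) (.e (nat_lit 65619) (nat_lit 10) (.e (nat_lit 344097) (nat_lit 18) (.e (nat_lit 5902) (nat_lit 320) .nil)))) .nil)) 
(.lf (nat_lit 24993) (.g (nat_lit 1846) (.e (nat_lit 1190) (nat_lit 88) (.e (nat_lit 65619) (nat_lit 10) (.e (nat_lit 344097) (nat_lit 18) (.e (nat_lit 5906) (nat_lit 320) (.e (nat_lit 7936) (nat_lit 90) (.e (nat_lit 81950) (nat_lit 21) (.e (nat_lit 57870) (nat_lit 264) .nil))))))) (.g (nat_lit 4) .nil .nil)))) (.nd (nat_lit 5) 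
(.lf (nat_lit 24977) (.g (nat_lit 2663) (.e (nat_lit 1190) (nat_lit 88) (.e (nat_lit 65619) (nat_lit 10) (.e (nat_lit 344097) (nat_lit 18) (.e (nat_lit 5905) (nat_lit 320) (.e (nat_lit 1220) (nat_lit 90) (.e (nat_lit 81948) (nat_lit 21) (.e (nat_lit 57872) (nat_lit 264) .nil))))))) (.g (nat_lit 5) .nil .nil))) 
(.lf (nat_lit 25009) (.g (nat_lit 3206) (.e (nat_lit 1190) (nat_lit 88) (.e (nat_lit 65619) (nat_lit 10) (.e (nat_lit 344097) (nat_lit 18) (.e (nat_lit 5907) (nat_lit 320) (.e (nat_lit 1219) (nat_lit 90) (.e (nat_lit 81950) (nat_lit 21) (.e (nat_lit 57871) (nat_lit 264) .nil))))))) (.g (nat_lit 6) .nil .nil))))) (.nd (nat_lit 4) (.nd (nat_lit 5) 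
(.lf (nat_lit 24969) (.g (nat_lit 3880) (.e (nat_lit 1190) (nat_lit 88) (.e (nat_lit 65619) (nat_lit 10) (.e (nat_lit 344097) (nat_lit 18) (.e (nat_lit 5905) (nat_lit 320) (.e (nat_lit 1200) (nat_lit 88) (.e (nat_lit 65604) (nat_lit 9) (.e (nat_lit 335997) (nat_lit 1) (.e (nat_lit 57871) (nat_lit 264) .nil)))))))) (.g (nat_lit 7) .nil .nil))) 
(.lf (nat_lit 25001) (.g (nat_lit 2208) (.e (nat_lit 1190) (nat_lit 88) (.e (nat_lit 65619) (nat_lit 10) (.e (nat_lit 344097) (nat_lit 18) (.e (nat_lit 5907) (nat_lit 320) (.e (nat_lit 1199) (nat_lit 88) (.e (nat_lit 65619) (nat_lit 10) (.e (nat_lit 344097) (nat_lit 18) (.e (nat_lit 5905) (nat_lit 320) .nil)))))))) (.g (nat_lit 4) .nil .nil)))) (.nd (nat_lit 5) 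
(.lf (nat_lit 24985) (.g (nat_lit 3665) (.e (nat_lit 1190) (nat_lit 88) (.e (nat_lit 65619) (nat_lit 10) (.e (nat_lit 344097) (nat_lit 18) (.e (nat_lit 5906) (nat_lit 320) (.e (nat_lit 1220) (nat_lit 90) (.e (nat_lit 81950) (nat_lit 21) (.e (nat_lit 57870) (nat_lit 264) .nil))))))) (.g (nat_lit 6) .nil .nil))) 
(.lf (nat_lit 25017) (.g (nat_lit 2117) (.e (nat_lit 1190) (nat_lit 88) (.e (nat_lit 65619) (nat_lit 10) (.e (nat_lit 344097) (nat_lit 18) (.e (nat_lit 5907) (nat_lit 320) (.e (nat_lit 7936) (nat_lit 90) (.e (nat_lit 81948) (nat_lit 21) (.e (nat_lit 57872) (nat_lit 264) .nil))))))) (.g (nat_lit 4) .nil .nil)))))) (.nd (nat_lit 3) (.nd (nat_lit 4) (.nd (nat_lit 5) 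
(.lf (nat_lit 24965) (.g (nat_lit 4873) (.e (nat_lit 1190) (nat_lit 88) (.e (nat_lit 65619) (nat_lit 10) (.e (nat_lit 344097) (nat_lit 18) (.e (nat_lit 5905) (nat_lit 320) (.e (nat_lit 1190) (nat_lit 88) (.e (nat_lit 65619) (nat_lit 10) (.e (nat_lit 344097) (nat_lit 18) (.e (nat_lit 5906) (nat_lit 320) .nil)))))))) (.g (nat_lit 0) .nil .nil))) 
(.lf (nat_lit 24997) (.g (nat_lit 2517) (.e (nat_lit 1190) (nat_lit 88) (.e (nat_lit 65619) (nat_lit 10) (.e (nat_lit 344097) (nat_lit 18) (.e (nat_lit 5907) (nat_lit 320) (.e (nat_lit 989) (nat_lit 81) (.e (nat_lit 1615) (nat_lit 113) (.e (nat_lit 376859) (nat_lit 21) (.e (nat_lit 57872) (nat_lit 264) .nil)))))))) (.g (nat_lit 4) .nil .nil)))) (.nd (nat_lit 5) 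
(.lf (nat_lit 24981) (.g (nat_lit 938) (.e (nat_lit 1190) (nat_lit 88) (.e (nat_lit 65619) (nat_lit 10) (.e (nat_lit 344097) (nat_lit 18) (.e (nat_lit 5906) (nat_lit 320) .nil)))) .nil)) 
(.lf (nat_lit 25013) (.g (nat_lit 4566) (.e (nat_lit 1190) (nat_lit 88) (.e (nat_lit 65619) (nat_lit 10) (.e (nat_lit 344097) (nat_lit 18) (.e (nat_lit 5907) (nat_lit 320) (.e (nat_lit 1220) (nat_lit 90) (.e (nat_lit 81950) (nat_lit 21) (.e (nat_lit 57872) (nat_lit 264) .nil))))))) (.g (nat_lit 6) .nil .nil))))) (.nd (nat_lit 4) (.nd (nat_lit 5) 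
(.lf (nat_lit 24973) (.g (nat_lit 4584) (.e (nat_lit 1190) (nat_lit 88) (.e (nat_lit 65619) (nat_lit 10) (.e (nat_lit 344097) (nat_lit 18) (.e (nat_lit 5905) (nat_lit 320) (.e (nat_lit 1200) (nat_lit 88) (.e (nat_lit 65619) (nat_lit 10) (.e (nat_lit 344097) (nat_lit 18) (.e (nat_lit 5907) (nat_lit 320) .nil)))))))) (.g (nat_lit 8) .nil .nil))) 
(.lf (nat_lit 25005) (.g (nat_lit 2023) (.e (nat_lit 1190) (nat_lit 88) (.e (nat_lit 65619) (nat_lit 10) (.e (nat_lit 344097) (nat_lit 18) (.e (nat_lit 5907) (nat_lit 320) (.e (nat_lit 1219) (nat_lit 90) (.e (nat_lit 81949) (nat_lit 21) (.e (nat_lit 57871) (nat_lit 264) .nil))))))) (.g (nat_lit 4) .nil .nil)))) (.nd (nat_lit 5) 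
(.lf (nat_lit 24989) (.g (nat_lit 3553) (.e (nat_lit 1190) (nat_lit 88) (.e (nat_lit 65619) (nat_lit 10) (.e (nat_lit 344097) (nat_lit 18) (.e (nat_lit 5906) (nat_lit 320) (.e (nat_lit 1221) (nat_lit 90) (.e (nat_lit 81948) (nat_lit 21) (.e (nat_lit 57872) (nat_lit 264) .nil))))))) (.g (nat_lit 7) .nil .nil))) 
(.lf (nat_lit 25021) (.g (nat_lit 2067) (.e (nat_lit 1190) (nat_lit 88) (.e (nat_lit 65619) (nat_lit 10) (.e (nat_lit 344117) (nat_lit 21) (.e (nat_lit 516097) (nat_lit 0) (.e (nat_lit 3453) (nat_lit 216) .nil))))) .nil)))))) (.nd (nat_lit 2) (.nd (nat_lit 3) (.nd (nat_lit 4) (.nd (nat_lit 5) 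
(.lf (nat_lit 24963) (.g (nat_lit 4252) (.e (nat_lit 1190) (nat_lit 88) (.e (nat_lit 65619) (nat_lit 10) (.e (nat_lit 344097) (nat_lit 18) (.e (nat_lit 5905) (nat_lit 320) (.e (nat_lit 1190) (nat_lit 88) (.e (nat_lit 65604) (nat_lit 9) (.e (nat_lit 335997) (nat_lit 1) (.e (nat_lit 57870) (nat_lit 264) .nil)))))))) (.g (nat_lit 7) .nil .nil))) 
(.lf (nat_lit 24995) (.g (nat_lit 2016) (.e (nat_lit 1190) (nat_lit 88) (.e (nat_lit 65619) (nat_lit 10) (.e (nat_lit 344097) (nat_lit 18) (.e (nat_lit 5907) (nat_lit 320) (.e (nat_lit 989) (nat_lit 81) .nil))))) .nil))) (.nd (nat_lit 5) 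
(.lf (nat_lit 24979) (.g (nat_lit 2260) (.e (nat_lit 1190) (nat_lit 88) (.e (nat_lit 65619) (nat_lit 10) (.e (nat_lit 344097) (nat_lit 18) (.e (nat_lit 5905) (nat_lit 320) (.e (nat_lit 1221) (nat_lit 90) (.e (nat_lit 81948) (nat_lit 21) (.e (nat_lit 57872) (nat_lit 264) .nil))))))) (.g (nat_lit 4) .nil .nil))) 
(.lf (nat_lit 25011) (.g (nat_lit 4196) (.e (nat_lit 1190) (nat_lit 88) (.e (nat_lit 65619) (nat_lit 10) (.e (nat_lit 344097) (nat_lit 18) (.e (nat_lit 5907) (nat_lit 320) (.e (nat_lit 1220) (nat_lit 90) (.e (nat_lit 81950) (nat_lit 21) (.e (nat_lit 57870) (nat_lit 264) .nil))))))) (.g (nat_lit 6) .nil .nil))))) (.nd (nat_lit 4) (.nd (nat_lit 5) 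
(.lf (nat_lit 24971) (.g (nat_lit 4714) (.e (nat_lit 1190) (nat_lit 88) (.e (nat_lit 65619) (nat_lit 10) (.e (nat_lit 344097) (nat_lit 18) (.e (nat_lit 5905) (nat_lit 320) (.e (nat_lit 1200) (nat_lit 88) (.e (nat_lit 65619) (nat_lit 10) (.e (nat_lit 344097) (nat_lit 18) (.e (nat_lit 5905) (nat_lit 320) .nil)))))))) (.g (nat_lit 8) .nil .nil))) 
(.lf (nat_lit 25003) (.g (nat_lit 4962) (.e (nat_lit 1190) (nat_lit 88) (.e (nat_lit 65619) (nat_lit 10) (.e (nat_lit 344097) (nat_lit 18) (.e (nat_lit 5907) (nat_lit 320) (.e (nat_lit 1200) (nat_lit 88) (.e (nat_lit 65619) (nat_lit 10) (.e (nat_lit 344097) (nat_lit 18) (.e (nat_lit 5905) (nat_lit 320) .nil)))))))) (.g (nat_lit 0) .nil .nil)))) (.nd (nat_lit 5) 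
(.lf (nat_lit 24987) (.g (nat_lit 3184) (.e (nat_lit 1190) (nat_lit 88) (.e (nat_lit 65619) (nat_lit 10) (.e (nat_lit 344097) (nat_lit 18) (.e (nat_lit 5906) (nat_lit 320) (.e (nat_lit 1221) (nat_lit 90) (.e (nat_lit 81948) (nat_lit 21) (.e (nat_lit 57870) (nat_lit 264) .nil))))))) (.g (nat_lit 6) .nil .nil))) 
(.lf (nat_lit 25019) (.g (nat_lit 1818) (.e (nat_lit 1190) (nat_lit 88) (.e (nat_lit 65619) (nat_lit 10) (.e (nat_lit 344097) (nat_lit 18) (.e (nat_lit 5907) (nat_lit 320) (.e (nat_lit 7936) (nat_lit 90) (.e (nat_lit 81950) (nat_lit 21) (.e (nat_lit 57871) (nat_lit 264) .nil))))))) (.g (nat_lit 4) .nil .nil)))))) (.nd (nat_lit 3) (.nd (nat_lit 4) (.nd (nat_lit 5) 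
(.lf (nat_lit 24967) (.g (nat_lit 3905) (.e (nat_lit 1190) (nat_lit 88) (.e (nat_lit 65619) (nat_lit 10) (.e (nat_lit 344097) (nat_lit 18) (.e (nat_lit 5905) (nat_lit 320) (.e (nat_lit 1199) (nat_lit 88) (.e (nat_lit 65610) (nat_lit 10) (.e (nat_lit 344097) (nat_lit 18) (.e (nat_lit 5906) (nat_lit 320) .nil)))))))) (.g (nat_lit 7) .nil .nil))) 
(.lf (nat_lit 24999) (.g (nat_lit 2744) (.e (nat_lit 1190) (nat_lit 88) (.e (nat_lit 65619) (nat_lit 10) (.e (nat_lit 344097) (nat_lit 18) (.e (nat_lit 5907) (nat_lit 320) (.e (nat_lit 1189) (nat_lit 88) (.e (nat_lit 65604) (nat_lit 9) (.e (nat_lit 335997) (nat_lit 1) (.e (nat_lit 57871) (nat_lit 264) .nil)))))))) (.g (nat_lit 4) .nil .nil)))) (.nd (nat_lit 5) 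
(.lf (nat_lit 24983) (.g (nat_lit 2558) (.e (nat_lit 1190) (nat_lit 88) (.e (nat_lit 65619) (nat_lit 10) (.e (nat_lit 344097) (nat_lit 18) (.e (nat_lit 5906) (nat_lit 320) (.e (nat_lit 1219) (nat_lit 90) (.e (nat_lit 81950) (nat_lit 21) (.e (nat_lit 57871) (nat_lit 264) .nil))))))) (.g (nat_lit 5) .nil .nil))) 
(.lf (nat_lit 25015) (.g (nat_lit 3864) (.e (nat_lit 1190) (nat_lit 88) (.e (nat_lit 65619) (nat_lit 10) (.e (nat_lit 344097) (nat_lit 18) (.e (nat_lit 5907) (nat_lit 320) (.e (nat_lit 1221) (nat_lit 90) (.e (nat_lit 81959) (nat_lit 24) (.e (nat_lit 123191) (nat_lit 264) .nil))))))) (.g (nat_lit 6) .nil .nil))))) (.nd (nat_lit 4) (.nd (nat_lit 5) 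
(.lf (nat_lit 24975) (.g (nat_lit 2807) (.e (nat_lit 1190) (nat_lit 88) (.e (nat_lit 65619) (nat_lit 10) (.e (nat_lit 344097) (nat_lit 18) (.e (nat_lit 5905) (nat_lit 320) (.e (nat_lit 1219) (nat_lit 90) (.e (nat_lit 81950) (nat_lit 21) (.e (nat_lit 57871) (nat_lit 264) .nil))))))) (.g (nat_lit 5) .nil .nil))) 
(.lf (nat_lit 25007) (.g (nat_lit 2690) (.e (nat_lit 1190) (nat_lit 88) (.e (nat_lit 65619) (nat_lit 10) (.e (nat_lit 344097) (nat_lit 18) (.e (nat_lit 5907) (nat_lit 320) (.e (nat_lit 1219) (nat_lit 90) (.e (nat_lit 81949) (nat_lit 21) (.e (nat_lit 57873) (nat_lit 264) .nil))))))) (.g (nat_lit 5) .nil .nil)))) (.nd (nat_lit 5) 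
(.lf (nat_lit 24991) (.g (nat_lit 3701) (.e (nat_lit 1190) (nat_lit 88) (.e (nat_lit 65619) (nat_lit 10) (.e (nat_lit 344097) (nat_lit 18) (.e (nat_lit 5906) (nat_lit 320) (.e (nat_lit 1221) (nat_lit 90) (.e (nat_lit 81959) (nat_lit 24) (.e (nat_lit 123191) (nat_lit 264) .nil))))))) (.g (nat_lit 0) .nil .nil))) 
(.lf (nat_lit 25023) (.g (nat_lit 2319) (.e (nat_lit 1190) (nat_lit 88) (.e (nat_lit 65619) (nat_lit 10) (.e (nat_lit 344117) (nat_lit 21) (.e (nat_lit 516097) (nat_lit 0) (.e (nat_lit 3453) (nat_lit 216) (.e (nat_lit 688182) (nat_lit 17) (.e (nat_lit 73730) (nat_lit 0) (.e (nat_lit 7454) (nat_lit 396) .nil)))))))) (.g (nat_lit 4) .nil .nil)))))))))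

noncomputable def tv353 : DT := (.nd (nat_lit 0) (.nd (nat_lit 1) (.nd (nat_lit 2) (.nd (nat_lit 3) (.nd (nat_lit 4) (.nd (nat_lit 5) 
(.lf (nat_lit 25024) (.g (nat_lit 2152) (.e (nat_lit 1190) (nat_lit 88) (.e (nat_lit 65619) (nat_lit 10) (.e (nat_lit 344117) (nat_lit 21) (.e (nat_lit 516097) (nat_lit 0) (.e (nat_lit 3454) (nat_lit 216) .nil))))) .nil)) 
(.lf (nat_lit 25056) (.g (nat_lit 1942) (.e (nat_lit 1190) (nat_lit 88) (.e (nat_lit 65619) (nat_lit 10) (.e (nat_lit 344117) (nat_lit 21) (.e (nat_lit 516185) (nat_lit 16) (.e (nat_lit 491560) (nat_lit 10) (.e (nat_lit 344088) (nat_lit 18) (.e (nat_lit 3920) (nat_lit 239) .nil))))))) (.g (nat_lit 4) .nil .nil)))) (.nd (nat_lit 5) 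
(.lf (nat_lit 25040) (.g (nat_lit 1907) (.e (nat_lit 1190) (nat_lit 88) (.e (nat_lit 65619) (nat_lit 10) (.e (nat_lit 344117) (nat_lit 21) (.e (nat_lit 516098) (nat_lit 0) (.e (nat_lit 7593) (nat_lit 407) (.e (nat_lit 73728) (nat_lit 0) (.e (nat_lit 3971) (nat_lit 239) .nil))))))) (.g (nat_lit 4) .nil .nil))) 
(.lf (nat_lit 25072) (.g (nat_lit 4195) (.e (nat_lit 1190) (nat_lit 88) (.e (nat_lit 65619) (nat_lit 10) (.e (nat_lit 344117) (nat_lit 21) (.e (nat_lit 516195) (nat_lit 26) (.e (nat_lit 335995) (nat_lit 1) (.e (nat_lit 57847) (nat_lit 252) (.e (nat_lit 57363) (nat_lit 1) (.e (nat_lit 57754) (nat_lit 209) .nil)))))))) (.g (nat_lit 0) .nil .nil))))) (.nd (nat_lit 4) (.nd (nat_lit 5) 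
(.lf (nat_lit 25032) (.g (nat_lit 2032) (.e (nat_lit 1190) (nat_lit 88) (.e (nat_lit 65619) (nat_lit 10) (.e (nat_lit 344117) (nat_lit 21) (.e (nat_lit 516097) (nat_lit 0) (.e (nat_lit 7593) (nat_lit 407) (.e (nat_lit 73728) (nat_lit 0) (.e (nat_lit 3971) (nat_lit 239) .nil))))))) (.g (nat_lit 5) .nil .nil))) 
(.lf (nat_lit 25064) (.g (nat_lit 4755) (.e (nat_lit 1190) (nat_lit 88) (.e (nat_lit 65619) (nat_lit 10) (.e (nat_lit 344117) (nat_lit 21) (.e (nat_lit 516195) (nat_lit 26) (.e (nat_lit 335986) (nat_lit 1) (.e (nat_lit 57847) (nat_lit 252) (.e (nat_lit 57365) (nat_lit 1) (.e (nat_lit 57754) (nat_lit 209) .nil)))))))) (.g (nat_lit 0) .nil .nil)))) (.nd (nat_lit 5) 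
(.lf (nat_lit 25048) (.g (nat_lit 3332) (.e (nat_lit 1190) (nat_lit 88) (.e (nat_lit 65619) (nat_lit 10) (.e (nat_lit 344117) (nat_lit 21) (.e (nat_lit 516115) (nat_lit 1) (.e (nat_lit 164163) (nat_lit 152) .nil))))) .nil)) 
(.lf (nat_lit 25080) (.g (nat_lit 2392) (.e (nat_lit 1190) (nat_lit 88) (.e (nat_lit 65619) (nat_lit 10) (.e (nat_lit 344117) (nat_lit 21) (.e (nat_lit 516195) (nat_lit 26) (.e (nat_lit 335995) (nat_lit 1) (.e (nat_lit 57848) (nat_lit 252) (.e (nat_lit 57367) (nat_lit 1) (.e (nat_lit 57755) (nat_lit 209) .nil)))))))) (.g (nat_lit 4) .nil .nil)))))) 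
(.nd (nat_lit 3) (.nd (nat_lit 4) (.nd (nat_lit 5) 
(.lf (nat_lit 25028) (.g (nat_lit 2490) (.e (nat_lit 1190) (nat_lit 88) (.e (nat_lit 65619) (nat_lit 10) (.e (nat_lit 344117) (nat_lit 21) (.e (nat_lit 516097) (nat_lit 0) (.e (nat_lit 3455) (nat_lit 216) (.e (nat_lit 688181) (nat_lit 17) (.e (nat_lit 73729) (nat_lit 0) (.e (nat_lit 7454) (nat_lit 396) .nil)))))))) (.g (nat_lit 4) .nil .nil))) 
(.lf (nat_lit 25060) (.g (nat_lit 1361) (.e (nat_lit 1190) (nat_lit 88) (.e (nat_lit 65619) (nat_lit 10) (.e (nat_lit 344117) (nat_lit 21) (.e (nat_lit 516191) (nat_lit 17) .nil)))) .nil))) (.nd (nat_lit 5) 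
(.lf (nat_lit 25044) (.g (nat_lit 1657) (.e (nat_lit 1190) (nat_lit 88) (.e (nat_lit 65619) (nat_lit 10) (.e (nat_lit 344117) (nat_lit 21) (.e (nat_lit 516106) (nat_lit 0) (.e (nat_lit 7936) (nat_lit 407) .nil))))) .nil)) 
(.lf (nat_lit 25076) (.g (nat_lit 2276) (.e (nat_lit 1190) (nat_lit 88) (.e (nat_lit 65619) (nat_lit 10) (.e (nat_lit 344117) (nat_lit 21) (.e (nat_lit 516195) (nat_lit 26) (.e (nat_lit 335995) (nat_lit 1) (.e (nat_lit 57847) (nat_lit 252) (.e (nat_lit 57367) (nat_lit 1) (.e (nat_lit 57755) (nat_lit 209) .nil)))))))) (.g (nat_lit 4) .nil .nil))))) (.nd (nat_lit 4) (.nd (nat_lit 5) 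
(.lf (nat_lit 25036) (.g (nat_lit 2210) (.e (nat_lit 1190) (nat_lit 88) (.e (nat_lit 65619) (nat_lit 10) (.e (nat_lit 344117) (nat_lit 21) (.e (nat_lit 516098) (nat_lit 0) (.e (nat_lit 3555) (nat_lit 220) (.e (nat_lit 720956) (nat_lit 25) (.e (nat_lit 114711) (nat_lit 21) (.e (nat_lit 57872) (nat_lit 264) .nil)))))))) (.g (nat_lit 4) .nil .nil))) 
(.lf (nat_lit 25068) (.g (nat_lit 3196) (.e (nat_lit 1190) (nat_lit 88) (.e (nat_lit 65619) (nat_lit 10) (.e (nat_lit 344117) (nat_lit 21) (.e (nat_lit 516195) (nat_lit 26) (.e (nat_lit 335988) (nat_lit 1) (.e (nat_lit 57854) (nat_lit 252) (.e (nat_lit 57364) (nat_lit 1) (.e (nat_lit 57754) (nat_lit 209) .nil)))))))) (.g (nat_lit 6) .nil .nil)))) (.nd (nat_lit 5) 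
(.lf (nat_lit 25052) (.g (nat_lit 2208) (.e (nat_lit 1190) (nat_lit 88) (.e (nat_lit 65619) (nat_lit 10) (.e (nat_lit 344117) (nat_lit 21) (.e (nat_lit 516135) (nat_lit 5) (.e (nat_lit 253975) (nat_lit 9) (.e (nat_lit 1281) (nat_lit 94) (.e (nat_lit 114711) (nat_lit 21) (.e (nat_lit 57870) (nat_lit 264) .nil)))))))) (.g (nat_lit 4) .nil .nil))) 
(.lf (nat_lit 25084) (.g (nat_lit 3414) (.e (nat_lit 1190) (nat_lit 88) (.e (nat_lit 65619) (nat_lit 10) (.e (nat_lit 344117) (nat_lit 21) (.e (nat_lit 516195) (nat_lit 26) (.e (nat_lit 335995) (nat_lit 1) (.e (nat_lit 57849) (nat_lit 252) (.e (nat_lit 57367) (nat_lit 1) (.e (nat_lit 57754) (nat_lit 209) .nil)))))))) (.g (nat_lit 5) .nil .nil))))))) 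
(.nd (nat_lit 2) (.nd (nat_lit 3) (.nd (nat_lit 4) (.nd (nat_lit 5) 
(.lf (nat_lit 25026) (.g (nat_lit 2410) (.e (nat_lit 1190) (nat_lit 88) (.e (nat_lit 65619) (nat_lit 10) (.e (nat_lit 344117) (nat_lit 21) (.e (nat_lit 516097) (nat_lit 0) (.e (nat_lit 3454) (nat_lit 216) (.e (nat_lit 688182) (nat_lit 17) (.e (nat_lit 73731) (nat_lit 0) (.e (nat_lit 7454) (nat_lit 396) .nil)))))))) (.g (nat_lit 4) .nil .nil))) 
(.lf (nat_lit 25058) (.g (nat_lit 3745) (.e (nat_lit 1190) (nat_lit 88) (.e (nat_lit 65619) (nat_lit 10) (.e (nat_lit 344117) (nat_lit 21) (.e (nat_lit 516185) (nat_lit 16) (.e (nat_lit 491560) (nat_lit 10) (.e (nat_lit 344089) (nat_lit 18) (.e (nat_lit 3972) (nat_lit 239) .nil))))))) (.g (nat_lit 6) .nil .nil)))) (.nd (nat_lit 5) 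
(.lf (nat_lit 25042) (.g (nat_lit 2009) (.e (nat_lit 1190) (nat_lit 88) (.e (nat_lit 65619) (nat_lit 10) (.e (nat_lit 344117) (nat_lit 21) (.e (nat_lit 516098) (nat_lit 0) (.e (nat_lit 7593) (nat_lit 407) (.e (nat_lit 73736) (nat_lit 0) (.e (nat_lit 3962) (nat_lit 239) .nil))))))) (.g (nat_lit 5) .nil .nil))) 
(.lf (nat_lit 25074) (.g (nat_lit 4653) (.e (nat_lit 1190) (nat_lit 88) (.e (nat_lit 65619) (nat_lit 10) (.e (nat_lit 344117) (nat_lit 21) (.e (nat_lit 516195) (nat_lit 26) (.e (nat_lit 335995) (nat_lit 1) (.e (nat_lit 57847) (nat_lit 252) (.e (nat_lit 57365) (nat_lit 1) (.e (nat_lit 57754) (nat_lit 209) .nil)))))))) (.g (nat_lit 0) .nil .nil))))) (.nd (nat_lit 4) (.nd (nat_lit 5) 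
(.lf (nat_lit 25034) (.g (nat_lit 2134) (.e (nat_lit 1190) (nat_lit 88) (.e (nat_lit 65619) (nat_lit 10) (.e (nat_lit 344117) (nat_lit 21) (.e (nat_lit 516097) (nat_lit 0) (.e (nat_lit 7593) (nat_lit 407) (.e (nat_lit 73736) (nat_lit 0) (.e (nat_lit 3962) (nat_lit 239) .nil))))))) (.g (nat_lit 5) .nil .nil))) 
(.lf (nat_lit 25066) (.g (nat_lit 2572) (.e (nat_lit 1190) (nat_lit 88) (.e (nat_lit 65619) (nat_lit 10) (.e (nat_lit 344117) (nat_lit 21) (.e (nat_lit 516195) (nat_lit 26) (.e (nat_lit 335986) (nat_lit 1) (.e (nat_lit 57847) (nat_lit 252) (.e (nat_lit 57367) (nat_lit 1) (.e (nat_lit 57755) (nat_lit 209) .nil)))))))) (.g (nat_lit 4) .nil .nil)))) (.nd (nat_lit 5) 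
(.lf (nat_lit 25050) (.g (nat_lit 2524) (.e (nat_lit 1190) (nat_lit 88) (.e (nat_lit 65619) (nat_lit 10) (.e (nat_lit 344117) (nat_lit 21) (.e (nat_lit 516134) (nat_lit 5) (.e (nat_lit 253975) (nat_lit 9) (.e (nat_lit 1281) (nat_lit 94) (.e (nat_lit 114711) (nat_lit 21) (.e (nat_lit 57870) (nat_lit 264) .nil)))))))) (.g (nat_lit 4) .nil .nil))) 
(.lf (nat_lit 25082) (.g (nat_lit 4149) (.e (nat_lit 1190) (nat_lit 88) (.e (nat_lit 65619) (nat_lit 10) (.e (nat_lit 344117) (nat_lit 21) (.e (nat_lit 516195) (nat_lit 26) (.e (nat_lit 335995) (nat_lit 1) (.e (nat_lit 57849) (nat_lit 252) (.e (nat_lit 57363) (nat_lit 1) (.e (nat_lit 57754) (nat_lit 209) .nil)))))))) (.g (nat_lit 6) .nil .nil)))))) 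
(.nd (nat_lit 3) (.nd (nat_lit 4) (.nd (nat_lit 5) 
(.lf (nat_lit 25030) (.g (nat_lit 2168) (.e (nat_lit 1190) (nat_lit 88) (.e (nat_lit 65619) (nat_lit 10) (.e (nat_lit 344117) (nat_lit 21) (.e (nat_lit 516097) (nat_lit 0) (.e (nat_lit 3555) (nat_lit 220) .nil))))) .nil)) 
(.lf (nat_lit 25062) (.g (nat_lit 4372) (.e (nat_lit 1190) (nat_lit 88) (.e (nat_lit 65619) (nat_lit 10) (.e (nat_lit 344117) (nat_lit 21) (.e (nat_lit 516195) (nat_lit 26) (.e (nat_lit 335986) (nat_lit 1) (.e (nat_lit 57847) (nat_lit 252) (.e (nat_lit 57363) (nat_lit 1) (.e (nat_lit 57754) (nat_lit 209) .nil)))))))) (.g (nat_lit 0) .nil .nil)))) (.nd (nat_lit 5) 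
(.lf (nat_lit 25046) (.g (nat_lit 3304) (.e (nat_lit 1190) (nat_lit 88) (.e (nat_lit 65619) (nat_lit 10) (.e (nat_lit 344117) (nat_lit 21) (.e (nat_lit 516115) (nat_lit 1) (.e (nat_lit 164151) (nat_lit 152) (.e (nat_lit 1207) (nat_lit 89) (.e (nat_lit 73729) (nat_lit 0) (.e (nat_lit 7454) (nat_lit 396) .nil)))))))) (.g (nat_lit 4) .nil .nil))) 
(.lf (nat_lit 25078) (.g (nat_lit 3393) (.e (nat_lit 1190) (nat_lit 88) (.e (nat_lit 65619) (nat_lit 10) (.e (nat_lit 344117) (nat_lit 21) (.e (nat_lit 516195) (nat_lit 26) (.e (nat_lit 335995) (nat_lit 1) (.e (nat_lit 57848) (nat_lit 252) (.e (nat_lit 57365) (nat_lit 1) (.e (nat_lit 57754) (nat_lit 209) .nil)))))))) (.g (nat_lit 6) .nil .nil))))) (.nd (nat_lit 4) (.nd (nat_lit 5) 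
(.lf (nat_lit 25038) (.g (nat_lit 2004) (.e (nat_lit 1190) (nat_lit 88) (.e (nat_lit 65619) (nat_lit 10) (.e (nat_lit 344117) (nat_lit 21) (.e (nat_lit 516098) (nat_lit 0) (.e (nat_lit 7591) (nat_lit 407) (.e (nat_lit 73728) (nat_lit 0) (.e (nat_lit 3972) (nat_lit 239) .nil))))))) (.g (nat_lit 5) .nil .nil))) 
(.lf (nat_lit 25070) (.g (nat_lit 1907) (.e (nat_lit 1190) (nat_lit 88) (.e (nat_lit 65619) (nat_lit 10) (.e (nat_lit 344117) (nat_lit 21) (.e (nat_lit 516195) (nat_lit 26) (.e (nat_lit 335995) (nat_lit 1) .nil))))) .nil))) (.nd (nat_lit 5) 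
(.lf (nat_lit 25054) (.g (nat_lit 2032) (.e (nat_lit 1190) (nat_lit 88) (.e (nat_lit 65619) (nat_lit 10) (.e (nat_lit 344117) (nat_lit 21) (.e (nat_lit 516185) (nat_lit 16) (.e (nat_lit 491560) (nat_lit 10) (.e (nat_lit 344087) (nat_lit 18) (.e (nat_lit 3971) (nat_lit 239) .nil))))))) (.g (nat_lit 4) .nil .nil))) 
(.lf (nat_lit 25086) (.g (nat_lit 2015) (.e (nat_lit 1190) (nat_lit 88) (.e (nat_lit 65619) (nat_lit 10) (.e (nat_lit 344117) (nat_lit 21) (.e (nat_lit 516195) (nat_lit 26) (.e (nat_lit 335996) (nat_lit 1) (.e (nat_lit 57854) (nat_lit 252) (.e (nat_lit 57362) (nat_lit 1) (.e (nat_lit 57754) (nat_lit 209) .nil)))))))) (.g (nat_lit 4) .nil .nil)))))))) 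
(.nd (nat_lit 1) (.nd (nat_lit 2) (.nd (nat_lit 3) (.nd (nat_lit 4) (.nd (nat_lit 5) 
(.lf (nat_lit 25025) (.g (nat_lit 2650) (.e (nat_lit 1190) (nat_lit 88) (.e (nat_lit 65619) (nat_lit 10) (.e (nat_lit 344117) (nat_lit 21) (.e (nat_lit 516097) (nat_lit 0) (.e (nat_lit 3454) (nat_lit 216) (.e (nat_lit 688181) (nat_lit 17) (.e (nat_lit 73731) (nat_lit 0) (.e (nat_lit 7454) (nat_lit 396) .nil)))))))) (.g (nat_lit 4) .nil .nil))) 
(.lf (nat_lit 25057) (.g (nat_lit 1990) (.e (nat_lit 1190) (nat_lit 88) (.e (nat_lit 65619) (nat_lit 10) (.e (nat_lit 344117) (nat_lit 21) (.e (nat_lit 516185) (nat_lit 16) (.e (nat_lit 491560) (nat_lit 10) (.e (nat_lit 344088) (nat_lit 18) (.e (nat_lit 3972) (nat_lit 239) .nil))))))) (.g (nat_lit 4) .nil .nil)))) (.nd (nat_lit 5) 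
(.lf (nat_lit 25041) (.g (nat_lit 2023) (.e (nat_lit 1190) (nat_lit 88) (.e (nat_lit 65619) (nat_lit 10) (.e (nat_lit 344117) (nat_lit 21) (.e (nat_lit 516098) (nat_lit 0) (.e (nat_lit 7593) (nat_lit 407) (.e (nat_lit 73728) (nat_lit 0) (.e (nat_lit 3972) (nat_lit 239) .nil))))))) (.g (nat_lit 5) .nil .nil))) 
(.lf (nat_lit 25073) (.g (nat_lit 2901) (.e (nat_lit 1190) (nat_lit 88) (.e (nat_lit 65619) (nat_lit 10) (.e (nat_lit 344117) (nat_lit 21) (.e (nat_lit 516195) (nat_lit 26) (.e (nat_lit 335995) (nat_lit 1) (.e (nat_lit 57847) (nat_lit 252) (.e (nat_lit 57363) (nat_lit 1) (.e (nat_lit 57755) (nat_lit 209) .nil)))))))) (.g (nat_lit 6) .nil .nil))))) (.nd (nat_lit 4) (.nd (nat_lit 5) 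
(.lf (nat_lit 25033) (.g (nat_lit 2148) (.e (nat_lit 1190) (nat_lit 88) (.e (nat_lit 65619) (nat_lit 10) (.e (nat_lit 344117) (nat_lit 21) (.e (nat_lit 516097) (nat_lit 0) (.e (nat_lit 7593) (nat_lit 407) (.e (nat_lit 73728) (nat_lit 0) (.e (nat_lit 3972) (nat_lit 239) .nil))))))) (.g (nat_lit 5) .nil .nil))) 
(.lf (nat_lit 25065) (.g (nat_lit 3578) (.e (nat_lit 1190) (nat_lit 88) (.e (nat_lit 65619) (nat_lit 10) (.e (nat_lit 344117) (nat_lit 21) (.e (nat_lit 516195) (nat_lit 26) (.e (nat_lit 335986) (nat_lit 1) (.e (nat_lit 57847) (nat_lit 252) (.e (nat_lit 57367) (nat_lit 1) (.e (nat_lit 57754) (nat_lit 209) .nil)))))))) (.g (nat_lit 6) .nil .nil)))) (.nd (nat_lit 5) 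
(.lf (nat_lit 25049) (.g (nat_lit 2966) (.e (nat_lit 1190) (nat_lit 88) (.e (nat_lit 65619) (nat_lit 10) (.e (nat_lit 344117) (nat_lit 21) (.e (nat_lit 516116) (nat_lit 1) (.e (nat_lit 164147) (nat_lit 152) .nil))))) .nil)) 
(.lf (nat_lit 25081) (.g (nat_lit 3318) (.e (nat_lit 1190) (nat_lit 88) (.e (nat_lit 65619) (nat_lit 10) (.e (nat_lit 344117) (nat_lit 21) (.e (nat_lit 516195) (nat_lit 26) (.e (nat_lit 335995) (nat_lit 1) (.e (nat_lit 57848) (nat_lit 252) (.e (nat_lit 57368) (nat_lit 1) (.e (nat_lit 57754) (nat_lit 209) .nil)))))))) (.g (nat_lit 6) .nil .nil)))))) 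
(.nd (nat_lit 3) (.nd (nat_lit 4) (.nd (nat_lit 5) 
(.lf (nat_lit 25029) (.g (nat_lit 2489) (.e (nat_lit 1190) (nat_lit 88) (.e (nat_lit 65619) (nat_lit 10) (.e (nat_lit 344117) (nat_lit 21) (.e (nat_lit 516097) (nat_lit 0) (.e (nat_lit 3455) (nat_lit 216) (.e (nat_lit 688181) (nat_lit 17) (.e (nat_lit 73730) (nat_lit 0) (.e (nat_lit 7454) (nat_lit 396) .nil)))))))) (.g (nat_lit 4) .nil .nil))) 
(.lf (nat_lit 25061) (.g (nat_lit 2372) (.e (nat_lit 1190) (nat_lit 88) (.e (nat_lit 65619) (nat_lit 10) (.e (nat_lit 344117) (nat_lit 21) (.e (nat_lit 516191) (nat_lit 17) (.e (nat_lit 6112) (nat_lit 332) (.e (nat_lit 1374) (nat_lit 104) (.e (nat_lit 303115) (nat_lit 1) (.e (nat_lit 164196) (nat_lit 158) .nil)))))))) (.g (nat_lit 4) .nil .nil)))) (.nd (nat_lit 5) 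
(.lf (nat_lit 25045) (.g (nat_lit 1325) (.e (nat_lit 1190) (nat_lit 88) (.e (nat_lit 65619) (nat_lit 10) (.e (nat_lit 344117) (nat_lit 21) (.e (nat_lit 516115) (nat_lit 1) .nil)))) .nil)) 
(.lf (nat_lit 25077) (.g (nat_lit 2976) (.e (nat_lit 1190) (nat_lit 88) (.e (nat_lit 65619) (nat_lit 10) (.e (nat_lit 344117) (nat_lit 21) (.e (nat_lit 516195) (nat_lit 26) (.e (nat_lit 335995) (nat_lit 1) (.e (nat_lit 57848) (nat_lit 252) (.e (nat_lit 57363) (nat_lit 1) (.e (nat_lit 57754) (nat_lit 209) .nil)))))))) (.g (nat_lit 5) .nil .nil))))) (.nd (nat_lit 4) (.nd (nat_lit 5) 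
(.lf (nat_lit 25037) (.g (nat_lit 1888) (.e (nat_lit 1190) (nat_lit 88) (.e (nat_lit 65619) (nat_lit 10) (.e (nat_lit 344117) (nat_lit 21) (.e (nat_lit 516098) (nat_lit 0) (.e (nat_lit 7591) (nat_lit 407) (.e (nat_lit 73728) (nat_lit 0) (.e (nat_lit 3971) (nat_lit 239) .nil))))))) (.g (nat_lit 4) .nil .nil))) 
(.lf (nat_lit 25069) (.g (nat_lit 2418) (.e (nat_lit 1190) (nat_lit 88) (.e (nat_lit 65619) (nat_lit 10) (.e (nat_lit 344117) (nat_lit 21) (.e (nat_lit 516195) (nat_lit 26) (.e (nat_lit 335988) (nat_lit 1) (.e (nat_lit 57854) (nat_lit 252) (.e (nat_lit 57366) (nat_lit 1) (.e (nat_lit 57754) (nat_lit 209) .nil)))))))) (.g (nat_lit 4) .nil .nil)))) (.nd (nat_lit 5) 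
(.lf (nat_lit 25053) (.g (nat_lit 1100) (.e (nat_lit 1190) (nat_lit 88) (.e (nat_lit 65619) (nat_lit 10) (.e (nat_lit 344117) (nat_lit 21) (.e (nat_lit 516185) (nat_lit 16) .nil)))) .nil)) 
(.lf (nat_lit 25085) (.g (nat_lit 3796) (.e (nat_lit 1190) (nat_lit 88) (.e (nat_lit 65619) (nat_lit 10) (.e (nat_lit 344117) (nat_lit 21) (.e (nat_lit 516195) (nat_lit 26) (.e (nat_lit 335996) (nat_lit 1) (.e (nat_lit 57851) (nat_lit 252) (.e (nat_lit 57364) (nat_lit 1) (.e (nat_lit 57754) (nat_lit 209) .nil)))))))) (.g (nat_lit 6) .nil .nil))))))) 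
(.nd (nat_lit 2) (.nd (nat_lit 3) (.nd (nat_lit 4) (.nd (nat_lit 5) 
(.lf (nat_lit 25027) (.g (nat_lit 3063) (.e (nat_lit 1190) (nat_lit 88) (.e (nat_lit 65619) (nat_lit 10) (.e (nat_lit 344117) (nat_lit 21) (.e (nat_lit 516097) (nat_lit 0) (.e (nat_lit 3455) (nat_lit 216) (.e (nat_lit 688180) (nat_lit 17) (.e (nat_lit 73729) (nat_lit 0) (.e (nat_lit 7454) (nat_lit 396) .nil)))))))) (.g (nat_lit 6) .nil .nil))) 
(.lf (nat_lit 25059) (.g (nat_lit 6596) (.e (nat_lit 1190) (nat_lit 88) (.e (nat_lit 65619) (nat_lit 10) (.e (nat_lit 344117) (nat_lit 21) (.e (nat_lit 516185) (nat_lit 16) (.e (nat_lit 491563) (nat_lit 12) (.e (nat_lit 385054) (nat_lit 21) (.e (nat_lit 4215) (nat_lit 251) .nil))))))) (.g (nat_lit 5) .nil .nil)))) (.nd (nat_lit 5) 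
(.lf (nat_lit 25043) (.g (nat_lit 2643) (.e (nat_lit 1190) (nat_lit 88) (.e (nat_lit 65619) (nat_lit 10) (.e (nat_lit 344117) (nat_lit 21) (.e (nat_lit 516099) (nat_lit 0) .nil)))) .nil)) 
(.lf (nat_lit 25075) (.g (nat_lit 3282) (.e (nat_lit 1190) (nat_lit 88) (.e (nat_lit 65619) (nat_lit 10) (.e (nat_lit 344117) (nat_lit 21) (.e (nat_lit 516195) (nat_lit 26) (.e (nat_lit 335995) (nat_lit 1) (.e (nat_lit 57847) (nat_lit 252) (.e (nat_lit 57367) (nat_lit 1) (.e (nat_lit 57754) (nat_lit 209) .nil)))))))) (.g (nat_lit 6) .nil .nil))))) (.nd (nat_lit 4) (.nd (nat_lit 5) 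
(.lf (nat_lit 25035) (.g (nat_lit 2116) (.e (nat_lit 1190) (nat_lit 88) (.e (nat_lit 65619) (nat_lit 10) (.e (nat_lit 344117) (nat_lit 21) (.e (nat_lit 516098) (nat_lit 0) (.e (nat_lit 3555) (nat_lit 220) (.e (nat_lit 720956) (nat_lit 25) (.e (nat_lit 114711) (nat_lit 21) (.e (nat_lit 57870) (nat_lit 264) .nil)))))))) (.g (nat_lit 4) .nil .nil))) 
(.lf (nat_lit 25067) (.g (nat_lit 2713) (.e (nat_lit 1190) (nat_lit 88) (.e (nat_lit 65619) (nat_lit 10) (.e (nat_lit 344117) (nat_lit 21) (.e (nat_lit 516195) (nat_lit 26) (.e (nat_lit 335988) (nat_lit 1) (.e (nat_lit 57854) (nat_lit 252) (.e (nat_lit 57363) (nat_lit 1) (.e (nat_lit 57754) (nat_lit 209) .nil)))))))) (.g (nat_lit 5) .nil .nil)))) (.nd (nat_lit 5) 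
(.lf (nat_lit 25051) (.g (nat_lit 2819) (.e (nat_lit 1190) (nat_lit 88) (.e (nat_lit 65619) (nat_lit 10) (.e (nat_lit 344117) (nat_lit 21) (.e (nat_lit 516134) (nat_lit 5) (.e (nat_lit 253975) (nat_lit 9) (.e (nat_lit 1281) (nat_lit 94) (.e (nat_lit 114711) (nat_lit 21) (.e (nat_lit 57872) (nat_lit 264) .nil)))))))) (.g (nat_lit 4) .nil .nil))) 
(.lf (nat_lit 25083) (.g (nat_lit 3912) (.e (nat_lit 1190) (nat_lit 88) (.e (nat_lit 65619) (nat_lit 10) (.e (nat_lit 344117) (nat_lit 21) (.e (nat_lit 516195) (nat_lit 26) (.e (nat_lit 335995) (nat_lit 1) (.e (nat_lit 57849) (nat_lit 252) (.e (nat_lit 57365) (nat_lit 1) (.e (nat_lit 57754) (nat_lit 209) .nil)))))))) (.g (nat_lit 6) .nil .nil)))))) 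
(.nd (nat_lit 3) (.nd (nat_lit 4) (.nd (nat_lit 5) 
(.lf (nat_lit 25031) (.g (nat_lit 1626) (.e (nat_lit 1190) (nat_lit 88) (.e (nat_lit 65619) (nat_lit 10) (.e (nat_lit 344117) (nat_lit 21) (.e (nat_lit 516097) (nat_lit 0) (.e (nat_lit 7591) (nat_lit 407) (.e (nat_lit 73737) (nat_lit 0) (.e (nat_lit 3962) (nat_lit 239) .nil))))))) (.g (nat_lit 4) .nil .nil))) 
(.lf (nat_lit 25063) (.g (nat_lit 3072) (.e (nat_lit 1190) (nat_lit 88) (.e (nat_lit 65619) (nat_lit 10) (.e (nat_lit 344117) (nat_lit 21) (.e (nat_lit 516195) (nat_lit 26) (.e (nat_lit 335986) (nat_lit 1) (.e (nat_lit 57847) (nat_lit 252) (.e (nat_lit 57363) (nat_lit 1) (.e (nat_lit 57755) (nat_lit 209) .nil)))))))) (.g (nat_lit 6) .nil .nil)))) (.nd (nat_lit 5) 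
(.lf (nat_lit 25047) (.g (nat_lit 3320) (.e (nat_lit 1190) (nat_lit 88) (.e (nat_lit 65619) (nat_lit 10) (.e (nat_lit 344117) (nat_lit 21) (.e (nat_lit 516115) (nat_lit 1) (.e (nat_lit 164153) (nat_lit 152) .nil))))) .nil)) 
(.lf (nat_lit 25079) (.g (nat_lit 3398) (.e (nat_lit 1190) (nat_lit 88) (.e (nat_lit 65619) (nat_lit 10) (.e (nat_lit 344117) (nat_lit 21) (.e (nat_lit 516195) (nat_lit 26) (.e (nat_lit 335995) (nat_lit 1) (.e (nat_lit 57848) (nat_lit 252) (.e (nat_lit 57367) (nat_lit 1) (.e (nat_lit 57754) (nat_lit 209) .nil)))))))) (.g (nat_lit 6) .nil .nil))))) (.nd (nat_lit 4) (.nd (nat_lit 5) 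
(.lf (nat_lit 25039) (.g (nat_lit 1931) (.e (nat_lit 1190) (nat_lit 88) (.e (nat_lit 65619) (nat_lit 10) (.e (nat_lit 344117) (nat_lit 21) (.e (nat_lit 516098) (nat_lit 0) (.e (nat_lit 7591) (nat_lit 407) (.e (nat_lit 73737) (nat_lit 0) (.e (nat_lit 3962) (nat_lit 239) .nil))))))) (.g (nat_lit 5) .nil .nil))) 
(.lf (nat_lit 25071) (.g (nat_lit 2360) (.e (nat_lit 1190) (nat_lit 88) (.e (nat_lit 65619) (nat_lit 10) (.e (nat_lit 344117) (nat_lit 21) (.e (nat_lit 516195) (nat_lit 26) (.e (nat_lit 335995) (nat_lit 1) (.e (nat_lit 57846) (nat_lit 252) (.e (nat_lit 57365) (nat_lit 1) (.e (nat_lit 57754) (nat_lit 209) .nil)))))))) (.g (nat_lit 4) .nil .nil)))) (.nd (nat_lit 5) 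
(.lf (nat_lit 25055) (.g (nat_lit 1955) (.e (nat_lit 1190) (nat_lit 88) (.e (nat_lit 65619) (nat_lit 10) (.e (nat_lit 344117) (nat_lit 21) (.e (nat_lit 516185) (nat_lit 16) (.e (nat_lit 491560) (nat_lit 10) (.e (nat_lit 344087) (nat_lit 18) (.e (nat_lit 3972) (nat_lit 239) .nil))))))) (.g (nat_lit 4) .nil .nil))) 
(.lf (nat_lit 25087) (.g (nat_lit 2592) (.e (nat_lit 1190) (nat_lit 88) (.e (nat_lit 65619) (nat_lit 10) (.e (nat_lit 344117) (nat_lit 21) (.e (nat_lit 516195) (nat_lit 26) (.e (nat_lit 335996) (nat_lit 1) (.e (nat_lit 57854) (nat_lit 252) (.e (nat_lit 57363) (nat_lit 1) (.e (nat_lit 57755) (nat_lit 209) .nil)))))))) (.g (nat_lit 4) .nil .nil)))))))))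

noncomputable def tv354 : DT := (.nd (nat_lit 0) (.nd (nat_lit 1) (.nd (nat_lit 2) (.nd (nat_lit 3) (.nd (nat_lit 4) (.nd (nat_lit 5) 
(.lf (nat_lit 25088) (.g (nat_lit 4512) (.e (nat_lit 1190) (nat_lit 88) (.e (nat_lit 65619) (nat_lit 10) (.e (nat_lit 344117) (nat_lit 21) (.e (nat_lit 516195) (nat_lit 26) (.e (nat_lit 335996) (nat_lit 1) (.e (nat_lit 57854) (nat_lit 252) (.e (nat_lit 57364) (nat_lit 1) (.e (nat_lit 57754) (nat_lit 209) .nil)))))))) (.g (nat_lit 0) .nil .nil))) 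
(.lf (nat_lit 25120) (.g (nat_lit 399) (.e (nat_lit 1190) (nat_lit 88) (.e (nat_lit 65619) (nat_lit 10) (.e (nat_lit 344168) (nat_lit 40) .nil))) .nil))) (.nd (nat_lit 5) 
(.lf (nat_lit 25104) (.g (nat_lit 4387) (.e (nat_lit 1190) (nat_lit 88) (.e (nat_lit 65619) (nat_lit 10) (.e (nat_lit 344129) (nat_lit 26) (.e (nat_lit 557084) (nat_lit 10) (.e (nat_lit 8363) (nat_lit 89) (.e (nat_lit 720956) (nat_lit 25) (.e (nat_lit 114711) (nat_lit 21) (.e (nat_lit 57870) (nat_lit 264) .nil)))))))) (.g (nat_lit 7) .nil .nil))) 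
(.lf (nat_lit 25136) (.g (nat_lit 3318) (.e (nat_lit 1190) (nat_lit 88) (.e (nat_lit 65619) (nat_lit 10) (.e (nat_lit 344168) (nat_lit 40) (.e (nat_lit 671761) (nat_lit 4) (.e (nat_lit 65610) (nat_lit 10) (.e (nat_lit 344097) (nat_lit 18) (.e (nat_lit 5906) (nat_lit 320) .nil))))))) (.g (nat_lit 6) .nil .nil))))) (.nd (nat_lit 4) (.nd (nat_lit 5) 
(.lf (nat_lit 25096) (.g (nat_lit 3035) (.e (nat_lit 1190) (nat_lit 88) (.e (nat_lit 65619) (nat_lit 10) (.e (nat_lit 344129) (nat_lit 26) (.e (nat_lit 557084) (nat_lit 10) (.e (nat_lit 8361) (nat_lit 89) .nil))))) .nil)) 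
(.lf (nat_lit 25128) (.g (nat_lit 2648) (.e (nat_lit 1190) (nat_lit 88) (.e (nat_lit 65619) (nat_lit 10) (.e (nat_lit 344168) (nat_lit 40) (.e (nat_lit 671747) (nat_lit 0) (.e (nat_lit 1595) (nat_lit 111) (.e (nat_lit 368384) (nat_lit 0) (.e (nat_lit 5902) (nat_lit 320) .nil))))))) (.g (nat_lit 5) .nil .nil)))) (.nd (nat_lit 5) 
(.lf (nat_lit 25112) (.g (nat_lit 1482) (.e (nat_lit 1190) (nat_lit 88) (.e (nat_lit 65619) (nat_lit 10) (.e (nat_lit 344160) (nat_lit 37) (.e (nat_lit 647203) (nat_lit 14) (.e (nat_lit 1349) (nat_lit 102) .nil))))) .nil)) 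
(.lf (nat_lit 25144) (.g (nat_lit 2237) (.e (nat_lit 1190) (nat_lit 88) (.e (nat_lit 65619) (nat_lit 10) (.e (nat_lit 344168) (nat_lit 40) (.e (nat_lit 671764) (nat_lit 6) (.e (nat_lit 81949) (nat_lit 21) (.e (nat_lit 57871) (nat_lit 264) .nil)))))) (.g (nat_lit 5) .nil .nil)))))) (.nd (nat_lit 3) (.nd (nat_lit 4) (.nd (nat_lit 5) 
(.lf (nat_lit 25092) (.g (nat_lit 3337) (.e (nat_lit 1190) (nat_lit 88) (.e (nat_lit 65619) (nat_lit 10) (.e (nat_lit 344123) (nat_lit 24) (.e (nat_lit 540724) (nat_lit 28) (.e (nat_lit 442419) (nat_lit 21) (.e (nat_lit 164196) (nat_lit 158) .nil)))))) (.g (nat_lit 6) .nil .nil))) 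
(.lf (nat_lit 25124) (.g (nat_lit 2546) (.e (nat_lit 1190) (nat_lit 88) (.e (nat_lit 65619) (nat_lit 10) (.e (nat_lit 344168) (nat_lit 40) (.e (nat_lit 671747) (nat_lit 0) (.e (nat_lit 1586) (nat_lit 111) (.e (nat_lit 368384) (nat_lit 0) (.e (nat_lit 5906) (nat_lit 320) .nil))))))) (.g (nat_lit 5) .nil .nil)))) (.nd (nat_lit 5) 
(.lf (nat_lit 25108) (.g (nat_lit 2199) (.e (nat_lit 1190) (nat_lit 88) (.e (nat_lit 65619) (nat_lit 10) (.e (nat_lit 344129) (nat_lit 26) (.e (nat_lit 557119) (nat_lit 18) (.e (nat_lit 2798) (nat_lit 180) (.e (nat_lit 303133) (nat_lit 9) (.e (nat_lit 426412) (nat_lit 15) (.e (nat_lit 1017) (nat_lit 81) (.e (nat_lit 4602) (nat_lit 269) .nil))))))))) (.g (nat_lit 4) .nil .nil))) 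
(.lf (nat_lit 25140) (.g (nat_lit 2066) (.e (nat_lit 1190) (nat_lit 88) (.e (nat_lit 65619) (nat_lit 10) (.e (nat_lit 344168) (nat_lit 40) (.e (nat_lit 671762) (nat_lit 4) (.e (nat_lit 65619) (nat_lit 10) (.e (nat_lit 344090) (nat_lit 18) (.e (nat_lit 5896) (nat_lit 320) .nil))))))) (.g (nat_lit 4) .nil .nil))))) (.nd (nat_lit 4) (.nd (nat_lit 5) 
(.lf (nat_lit 25100) (.g (nat_lit 4951) (.e (nat_lit 1190) (nat_lit 88) (.e (nat_lit 65619) (nat_lit 10) (.e (nat_lit 344129) (nat_lit 26) (.e (nat_lit 557084) (nat_lit 10) (.e (nat_lit 8362) (nat_lit 89) (.e (nat_lit 720956) (nat_lit 25) (.e (nat_lit 114711) (nat_lit 21) (.e (nat_lit 57872) (nat_lit 264) .nil)))))))) (.g (nat_lit 8) .nil .nil))) 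
(.lf (nat_lit 25132) (.g (nat_lit 2017) (.e (nat_lit 1190) (nat_lit 88) (.e (nat_lit 65619) (nat_lit 10) (.e (nat_lit 344168) (nat_lit 40) (.e (nat_lit 671748) (nat_lit 0) (.e (nat_lit 1595) (nat_lit 111) (.e (nat_lit 360453) (nat_lit 0) (.e (nat_lit 5907) (nat_lit 320) .nil))))))) (.g (nat_lit 4) .nil .nil)))) (.nd (nat_lit 5) 
(.lf (nat_lit 25116) (.g (nat_lit 4407) (.e (nat_lit 1190) (nat_lit 88) (.e (nat_lit 65619) (nat_lit 10) (.e (nat_lit 344160) (nat_lit 37) (.e (nat_lit 647203) (nat_lit 14) (.e (nat_lit 1349) (nat_lit 102) (.e (nat_lit 286749) (nat_lit 9) (.e (nat_lit 335997) (nat_lit 1) (.e (nat_lit 57872) (nat_lit 264) .nil)))))))) (.g (nat_lit 7) .nil .nil))) 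
(.lf (nat_lit 25148) (.g (nat_lit 2282) (.e (nat_lit 1190) (nat_lit 88) (.e (nat_lit 65619) (nat_lit 10) (.e (nat_lit 344169) (nat_lit 40) (.e (nat_lit 671746) (nat_lit 0) (.e (nat_lit 1586) (nat_lit 111) (.e (nat_lit 368384) (nat_lit 0) (.e (nat_lit 5902) (nat_lit 320) .nil))))))) (.g (nat_lit 5) .nil .nil))))))) (.nd (nat_lit 2) (.nd (nat_lit 3) (.nd (nat_lit 4) (.nd (nat_lit 5) 
(.lf (nat_lit 25090) (.g (nat_lit 2035) (.e (nat_lit 1190) (nat_lit 88) (.e (nat_lit 65619) (nat_lit 10) (.e (nat_lit 344117) (nat_lit 21) (.e (nat_lit 516195) (nat_lit 26) (.e (nat_lit 335996) (nat_lit 1) (.e (nat_lit 57854) (nat_lit 252) (.e (nat_lit 57366) (nat_lit 1) (.e (nat_lit 57755) (nat_lit 209) .nil)))))))) (.g (nat_lit 4) .nil .nil))) 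
(.lf (nat_lit 25122) (.g (nat_lit 2159) (.e (nat_lit 1190) (nat_lit 88) (.e (nat_lit 65619) (nat_lit 10) (.e (nat_lit 344168) (nat_lit 40) (.e (nat_lit 671746) (nat_lit 0) (.e (nat_lit 1586) (nat_lit 111) (.e (nat_lit 368384) (nat_lit 0) (.e (nat_lit 5902) (nat_lit 320) .nil))))))) (.g (nat_lit 5) .nil .nil)))) (.nd (nat_lit 5) 
(.lf (nat_lit 25106) (.g (nat_lit 4010) (.e (nat_lit 1190) (nat_lit 88) (.e (nat_lit 65619) (nat_lit 10) (.e (nat_lit 344129) (nat_lit 26) (.e (nat_lit 557087) (nat_lit 11) (.e (nat_lit 24617) (nat_lit 7) (.e (nat_lit 319504) (nat_lit 10) (.e (nat_lit 11) (nat_lit 0) (.e (nat_lit 3877) (nat_lit 233) .nil)))))))) (.g (nat_lit 6) .nil .nil))) 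
(.lf (nat_lit 25138) (.g (nat_lit 4495) (.e (nat_lit 1190) (nat_lit 88) (.e (nat_lit 65619) (nat_lit 10) (.e (nat_lit 344168) (nat_lit 40) (.e (nat_lit 671762) (nat_lit 4) (.e (nat_lit 65610) (nat_lit 10) (.e (nat_lit 344097) (nat_lit 18) (.e (nat_lit 5905) (nat_lit 320) .nil))))))) (.g (nat_lit 7) .nil .nil))))) (.nd (nat_lit 4) (.nd (nat_lit 5) 
(.lf (nat_lit 25098) (.g (nat_lit 3278) (.e (nat_lit 1190) (nat_lit 88) (.e (nat_lit 65619) (nat_lit 10) (.e (nat_lit 344129) (nat_lit 26) (.e (nat_lit 557084) (nat_lit 10) (.e (nat_lit 8361) (nat_lit 89) (.e (nat_lit 720956) (nat_lit 25) (.e (nat_lit 114712) (nat_lit 21) (.e (nat_lit 57870) (nat_lit 264) .nil)))))))) (.g (nat_lit 4) .nil .nil))) 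
(.lf (nat_lit 25130) (.g (nat_lit 2028) (.e (nat_lit 1190) (nat_lit 88) (.e (nat_lit 65619) (nat_lit 10) (.e (nat_lit 344168) (nat_lit 40) (.e (nat_lit 671747) (nat_lit 0) (.e (nat_lit 1598) (nat_lit 111) (.e (nat_lit 368384) (nat_lit 0) (.e (nat_lit 5902) (nat_lit 320) .nil))))))) (.g (nat_lit 4) .nil .nil)))) (.nd (nat_lit 5) 
(.lf (nat_lit 25114) (.g (nat_lit 4405) (.e (nat_lit 1190) (nat_lit 88) (.e (nat_lit 65619) (nat_lit 10) (.e (nat_lit 344160) (nat_lit 37) (.e (nat_lit 647203) (nat_lit 14) (.e (nat_lit 1349) (nat_lit 102) (.e (nat_lit 286749) (nat_lit 9) (.e (nat_lit 335997) (nat_lit 1) (.e (nat_lit 57870) (nat_lit 264) .nil)))))))) (.g (nat_lit 7) .nil .nil))) 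
(.lf (nat_lit 25146) (.g (nat_lit 1736) (.e (nat_lit 1190) (nat_lit 88) (.e (nat_lit 65619) (nat_lit 10) (.e (nat_lit 344169) (nat_lit 40) (.e (nat_lit 671744) (nat_lit 0) (.e (nat_lit 1615) (nat_lit 113) (.e (nat_lit 376859) (nat_lit 21) (.e (nat_lit 57872) (nat_lit 264) .nil))))))) (.g (nat_lit 4) .nil .nil)))))) (.nd (nat_lit 3) (.nd (nat_lit 4) (.nd (nat_lit 5) 
(.lf (nat_lit 25094) (.g (nat_lit 2518) (.e (nat_lit 1190) (nat_lit 88) (.e (nat_lit 65619) (nat_lit 10) (.e (nat_lit 344129) (nat_lit 26) (.e (nat_lit 557057) (nat_lit 0) (.e (nat_lit 1532) (nat_lit 109) .nil))))) .nil)) 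
(.lf (nat_lit 25126) (.g (nat_lit 2120) (.e (nat_lit 1190) (nat_lit 88) (.e (nat_lit 65619) (nat_lit 10) (.e (nat_lit 344168) (nat_lit 40) (.e (nat_lit 671747) (nat_lit 0) (.e (nat_lit 1589) (nat_lit 111) (.e (nat_lit 368384) (nat_lit 0) (.e (nat_lit 5905) (nat_lit 320) .nil))))))) (.g (nat_lit 4) .nil .nil)))) (.nd (nat_lit 5) 
(.lf (nat_lit 25110) (.g (nat_lit 1461) (.e (nat_lit 1190) (nat_lit 88) (.e (nat_lit 65619) (nat_lit 10) (.e (nat_lit 344160) (nat_lit 37) (.e (nat_lit 647195) (nat_lit 9) (.e (nat_lit 7936) (nat_lit 34) .nil))))) .nil)) 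
(.lf (nat_lit 25142) (.g (nat_lit 2310) (.e (nat_lit 1190) (nat_lit 88) (.e (nat_lit 65619) (nat_lit 10) (.e (nat_lit 344168) (nat_lit 40) (.e (nat_lit 671762) (nat_lit 4) (.e (nat_lit 65620) (nat_lit 10) (.e (nat_lit 344097) (nat_lit 18) (.e (nat_lit 5905) (nat_lit 320) .nil))))))) (.g (nat_lit 4) .nil .nil))))) (.nd (nat_lit 4) (.nd (nat_lit 5) 
(.lf (nat_lit 25102) (.g (nat_lit 2887) (.e (nat_lit 1190) (nat_lit 88) (.e (nat_lit 65619) (nat_lit 10) (.e (nat_lit 344129) (nat_lit 26) (.e (nat_lit 557084) (nat_lit 10) (.e (nat_lit 8363) (nat_lit 89) (.e (nat_lit 720955) (nat_lit 25) (.e (nat_lit 114711) (nat_lit 21) (.e (nat_lit 57870) (nat_lit 264) .nil)))))))) (.g (nat_lit 4) .nil .nil))) 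
(.lf (nat_lit 25134) (.g (nat_lit 2239) (.e (nat_lit 1190) (nat_lit 88) (.e (nat_lit 65619) (nat_lit 10) (.e (nat_lit 344168) (nat_lit 40) (.e (nat_lit 671748) (nat_lit 0) (.e (nat_lit 1598) (nat_lit 111) (.e (nat_lit 360452) (nat_lit 0) (.e (nat_lit 5907) (nat_lit 320) .nil))))))) (.g (nat_lit 4) .nil .nil)))) (.nd (nat_lit 5) 
(.lf (nat_lit 25118) (.g (nat_lit 2162) (.e (nat_lit 1190) (nat_lit 88) (.e (nat_lit 65619) (nat_lit 10) (.e (nat_lit 344160) (nat_lit 37) (.e (nat_lit 647203) (nat_lit 14) (.e (nat_lit 1359) (nat_lit 102) (.e (nat_lit 286749) (nat_lit 9) (.e (nat_lit 335997) (nat_lit 1) (.e (nat_lit 57870) (nat_lit 264) .nil)))))))) (.g (nat_lit 4) .nil .nil))) 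
(.lf (nat_lit 25150) (.g (nat_lit 1107) (.e (nat_lit 1190) (nat_lit 88) (.e (nat_lit 65619) (nat_lit 10) (.e (nat_lit 344169) (nat_lit 40) (.e (nat_lit 671747) (nat_lit 0) .nil)))) .nil))))))) (.nd (nat_lit 1) (.nd (nat_lit 2) (.nd (nat_lit 3) (.nd (nat_lit 4) (.nd (nat_lit 5) 
(.lf (nat_lit 25089) (.g (nat_lit 3634) (.e (nat_lit 1190) (nat_lit 88) (.e (nat_lit 65619) (nat_lit 10) (.e (nat_lit 344117) (nat_lit 21) (.e (nat_lit 516195) (nat_lit 26) (.e (nat_lit 335996) (nat_lit 1) (.e (nat_lit 57854) (nat_lit 252) (.e (nat_lit 57366) (nat_lit 1) (.e (nat_lit 57754) (nat_lit 209) .nil)))))))) (.g (nat_lit 6) .nil .nil))) 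
(.lf (nat_lit 25121) (.g (nat_lit 1763) (.e (nat_lit 1190) (nat_lit 88) (.e (nat_lit 65619) (nat_lit 10) (.e (nat_lit 344168) (nat_lit 40) (.e (nat_lit 671744) (nat_lit 0) (.e (nat_lit 1615) (nat_lit 113) (.e (nat_lit 376860) (nat_lit 21) (.e (nat_lit 57870) (nat_lit 264) .nil))))))) (.g (nat_lit 4) .nil .nil)))) (.nd (nat_lit 5) 
(.lf (nat_lit 25105) (.g (nat_lit 3275) (.e (nat_lit 1190) (nat_lit 88) (.e (nat_lit 65619) (nat_lit 10) (.e (nat_lit 344129) (nat_lit 26) (.e (nat_lit 557084) (nat_lit 10) (.e (nat_lit 8363) (nat_lit 89) (.e (nat_lit 720956) (nat_lit 25) (.e (nat_lit 114712) (nat_lit 21) (.e (nat_lit 57870) (nat_lit 264) .nil)))))))) (.g (nat_lit 4) .nil .nil))) 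
(.lf (nat_lit 25137) (.g (nat_lit 3607) (.e (nat_lit 1190) (nat_lit 88) (.e (nat_lit 65619) (nat_lit 10) (.e (nat_lit 344168) (nat_lit 40) (.e (nat_lit 671761) (nat_lit 4) (.e (nat_lit 65610) (nat_lit 10) (.e (nat_lit 344097) (nat_lit 18) (.e (nat_lit 5907) (nat_lit 320) .nil))))))) (.g (nat_lit 6) .nil .nil))))) (.nd (nat_lit 4) (.nd (nat_lit 5) 
(.lf (nat_lit 25097) (.g (nat_lit 3052) (.e (nat_lit 1190) (nat_lit 88) (.e (nat_lit 65619) (nat_lit 10) (.e (nat_lit 344129) (nat_lit 26) (.e (nat_lit 557084) (nat_lit 10) (.e (nat_lit 8361) (nat_lit 89) (.e (nat_lit 720955) (nat_lit 25) (.e (nat_lit 114711) (nat_lit 21) (.e (nat_lit 57872) (nat_lit 264) .nil)))))))) (.g (nat_lit 4) .nil .nil))) 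
(.lf (nat_lit 25129) (.g (nat_lit 2359) (.e (nat_lit 1190) (nat_lit 88) (.e (nat_lit 65619) (nat_lit 10) (.e (nat_lit 344168) (nat_lit 40) (.e (nat_lit 671747) (nat_lit 0) (.e (nat_lit 1598) (nat_lit 111) (.e (nat_lit 360452) (nat_lit 0) (.e (nat_lit 5906) (nat_lit 320) .nil))))))) (.g (nat_lit 5) .nil .nil)))) (.nd (nat_lit 5) 
(.lf (nat_lit 25113) (.g (nat_lit 2577) (.e (nat_lit 1190) (nat_lit 88) (.e (nat_lit 65619) (nat_lit 10) (.e (nat_lit 344160) (nat_lit 37) (.e (nat_lit 647203) (nat_lit 14) (.e (nat_lit 1349) (nat_lit 102) (.e (nat_lit 286748) (nat_lit 9) (.e (nat_lit 336295) (nat_lit 15) (.e (nat_lit 2443) (nat_lit 157) (.e (nat_lit 7450) (nat_lit 396) .nil))))))))) (.g (nat_lit 5) .nil .nil))) 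
(.lf (nat_lit 25145) (.g (nat_lit 393) (.e (nat_lit 1190) (nat_lit 88) (.e (nat_lit 65619) (nat_lit 10) (.e (nat_lit 344169) (nat_lit 40) .nil))) .nil))))) (.nd (nat_lit 3) (.nd (nat_lit 4) (.nd (nat_lit 5) 
(.lf (nat_lit 25093) (.g (nat_lit 522) (.e (nat_lit 1190) (nat_lit 88) (.e (nat_lit 65619) (nat_lit 10) (.e (nat_lit 344126) (nat_lit 25) .nil))) .nil)) 
(.lf (nat_lit 25125) (.g (nat_lit 2745) (.e (nat_lit 1190) (nat_lit 88) (.e (nat_lit 65619) (nat_lit 10) (.e (nat_lit 344168) (nat_lit 40) (.e (nat_lit 671747) (nat_lit 0) (.e (nat_lit 1589) (nat_lit 111) (.e (nat_lit 360453) (nat_lit 0) (.e (nat_lit 5907) (nat_lit 320) .nil))))))) (.g (nat_lit 5) .nil .nil)))) (.nd (nat_lit 5) 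
(.lf (nat_lit 25109) (.g (nat_lit 2341) (.e (nat_lit 1190) (nat_lit 88) (.e (nat_lit 65619) (nat_lit 10) (.e (nat_lit 344129) (nat_lit 26) (.e (nat_lit 557119) (nat_lit 18) (.e (nat_lit 2798) (nat_lit 180) (.e (nat_lit 303133) (nat_lit 9) (.e (nat_lit 426412) (nat_lit 15) (.e (nat_lit 1039) (nat_lit 81) (.e (nat_lit 4602) (nat_lit 269) .nil))))))))) (.g (nat_lit 4) .nil .nil))) 
(.lf (nat_lit 25141) (.g (nat_lit 4393) (.e (nat_lit 1190) (nat_lit 88) (.e (nat_lit 65619) (nat_lit 10) (.e (nat_lit 344168) (nat_lit 40) (.e (nat_lit 671762) (nat_lit 4) (.e (nat_lit 65619) (nat_lit 10) (.e (nat_lit 344097) (nat_lit 18) (.e (nat_lit 5905) (nat_lit 320) .nil))))))) (.g (nat_lit 7) .nil .nil))))) (.nd (nat_lit 4) (.nd (nat_lit 5) 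
(.lf (nat_lit 25101) (.g (nat_lit 2778) (.e (nat_lit 1190) (nat_lit 88) (.e (nat_lit 65619) (nat_lit 10) (.e (nat_lit 344129) (nat_lit 26) (.e (nat_lit 557084) (nat_lit 10) (.e (nat_lit 8363) (nat_lit 89) .nil))))) .nil)) 
(.lf (nat_lit 25133) (.g (nat_lit 2299) (.e (nat_lit 1190) (nat_lit 88) (.e (nat_lit 65619) (nat_lit 10) (.e (nat_lit 344168) (nat_lit 40) (.e (nat_lit 671748) (nat_lit 0) (.e (nat_lit 1598) (nat_lit 111) (.e (nat_lit 360452) (nat_lit 0) (.e (nat_lit 5905) (nat_lit 320) .nil))))))) (.g (nat_lit 4) .nil .nil)))) (.nd (nat_lit 5) 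
(.lf (nat_lit 25117) (.g (nat_lit 4308) (.e (nat_lit 1190) (nat_lit 88) (.e (nat_lit 65619) (nat_lit 10) (.e (nat_lit 344160) (nat_lit 37) (.e (nat_lit 647203) (nat_lit 14) (.e (nat_lit 1349) (nat_lit 102) (.e (nat_lit 286759) (nat_lit 12) (.e (nat_lit 385045) (nat_lit 21) (.e (nat_lit 7450) (nat_lit 396) .nil)))))))) (.g (nat_lit 6) .nil .nil))) 
(.lf (nat_lit 25149) (.g (nat_lit 1988) (.e (nat_lit 1190) (nat_lit 88) (.e (nat_lit 65619) (nat_lit 10) (.e (nat_lit 344169) (nat_lit 40) (.e (nat_lit 671746) (nat_lit 0) (.e (nat_lit 1598) (nat_lit 111) (.e (nat_lit 368384) (nat_lit 0) (.e (nat_lit 5905) (nat_lit 320) .nil))))))) (.g (nat_lit 4) .nil .nil))))))) (.nd (nat_lit 2) (.nd (nat_lit 3) (.nd (nat_lit 4) (.nd (nat_lit 5) 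
(.lf (nat_lit 25091) (.g (nat_lit 1217) (.e (nat_lit 1190) (nat_lit 88) (.e (nat_lit 65619) (nat_lit 10) (.e (nat_lit 344117) (nat_lit 21) (.e (nat_lit 524032) (nat_lit 33) .nil)))) .nil)) 
(.lf (nat_lit 25123) (.g (nat_lit 2839) (.e (nat_lit 1190) (nat_lit 88) (.e (nat_lit 65619) (nat_lit 10) (.e (nat_lit 344168) (nat_lit 40) (.e (nat_lit 671747) (nat_lit 0) (.e (nat_lit 1586) (nat_lit 111) (.e (nat_lit 368384) (nat_lit 0) (.e (nat_lit 5902) (nat_lit 320) .nil))))))) (.g (nat_lit 5) .nil .nil)))) (.nd (nat_lit 5) 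
(.lf (nat_lit 25107) (.g (nat_lit 2135) (.e (nat_lit 1190) (nat_lit 88) (.e (nat_lit 65619) (nat_lit 10) (.e (nat_lit 344129) (nat_lit 26) (.e (nat_lit 557119) (nat_lit 18) (.e (nat_lit 2798) (nat_lit 180) .nil))))) .nil)) 
(.lf (nat_lit 25139) (.g (nat_lit 4424) (.e (nat_lit 1190) (nat_lit 88) (.e (nat_lit 65619) (nat_lit 10) (.e (nat_lit 344168) (nat_lit 40) (.e (nat_lit 671762) (nat_lit 4) (.e (nat_lit 65610) (nat_lit 10) (.e (nat_lit 344097) (nat_lit 18) (.e (nat_lit 5907) (nat_lit 320) .nil))))))) (.g (nat_lit 0) .nil .nil))))) (.nd (nat_lit 4) (.nd (nat_lit 5) 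
(.lf (nat_lit 25099) (.g (nat_lit 2882) (.e (nat_lit 1190) (nat_lit 88) (.e (nat_lit 65619) (nat_lit 10) (.e (nat_lit 344129) (nat_lit 26) (.e (nat_lit 557084) (nat_lit 10) (.e (nat_lit 8362) (nat_lit 89) .nil))))) .nil)) 
(.lf (nat_lit 25131) (.g (nat_lit 1898) (.e (nat_lit 1190) (nat_lit 88) (.e (nat_lit 65619) (nat_lit 10) (.e (nat_lit 344168) (nat_lit 40) (.e (nat_lit 671748) (nat_lit 0) (.e (nat_lit 1589) (nat_lit 111) (.e (nat_lit 360453) (nat_lit 0) (.e (nat_lit 5907) (nat_lit 320) .nil))))))) (.g (nat_lit 4) .nil .nil)))) (.nd (nat_lit 5) 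
(.lf (nat_lit 25115) (.g (nat_lit 4180) (.e (nat_lit 1190) (nat_lit 88) (.e (nat_lit 65619) (nat_lit 10) (.e (nat_lit 344160) (nat_lit 37) (.e (nat_lit 647203) (nat_lit 14) (.e (nat_lit 1349) (nat_lit 102) (.e (nat_lit 286749) (nat_lit 9) (.e (nat_lit 335997) (nat_lit 1) (.e (nat_lit 57871) (nat_lit 264) .nil)))))))) (.g (nat_lit 7) .nil .nil))) 
(.lf (nat_lit 25147) (.g (nat_lit 1119) (.e (nat_lit 1190) (nat_lit 88) (.e (nat_lit 65619) (nat_lit 10) (.e (nat_lit 344169) (nat_lit 40) (.e (nat_lit 671746) (nat_lit 0) .nil)))) .nil))))) (.nd (nat_lit 3) (.nd (nat_lit 4) (.nd (nat_lit 5) 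
(.lf (nat_lit 25095) (.g (nat_lit 934) (.e (nat_lit 1190) (nat_lit 88) (.e (nat_lit 65619) (nat_lit 10) (.e (nat_lit 344129) (nat_lit 26) (.e (nat_lit 557066) (nat_lit 9) .nil)))) .nil)) 
(.lf (nat_lit 25127) (.g (nat_lit 2128) (.e (nat_lit 1190) (nat_lit 88) (.e (nat_lit 65619) (nat_lit 10) (.e (nat_lit 344168) (nat_lit 40) (.e (nat_lit 671747) (nat_lit 0) (.e (nat_lit 1592) (nat_lit 111) (.e (nat_lit 368384) (nat_lit 0) (.e (nat_lit 5902) (nat_lit 320) .nil))))))) (.g (nat_lit 4) .nil .nil)))) (.nd (nat_lit 5) 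
(.lf (nat_lit 25111) (.g (nat_lit 1108) (.e (nat_lit 1190) (nat_lit 88) (.e (nat_lit 65619) (nat_lit 10) (.e (nat_lit 344160) (nat_lit 37) (.e (nat_lit 647203) (nat_lit 14) .nil)))) .nil)) 
(.lf (nat_lit 25143) (.g (nat_lit 2214) (.e (nat_lit 1190) (nat_lit 88) (.e (nat_lit 65619) (nat_lit 10) (.e (nat_lit 344168) (nat_lit 40) (.e (nat_lit 671762) (nat_lit 4) (.e (nat_lit 65620) (nat_lit 10) (.e (nat_lit 344097) (nat_lit 18) (.e (nat_lit 5906) (nat_lit 320) .nil))))))) (.g (nat_lit 4) .nil .nil))))) (.nd (nat_lit 4) (.nd (nat_lit 5) 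
(.lf (nat_lit 25103) (.g (nat_lit 2978) (.e (nat_lit 1190) (nat_lit 88) (.e (nat_lit 65619) (nat_lit 10) (.e (nat_lit 344129) (nat_lit 26) (.e (nat_lit 557084) (nat_lit 10) (.e (nat_lit 8363) (nat_lit 89) (.e (nat_lit 720955) (nat_lit 25) (.e (nat_lit 114711) (nat_lit 21) (.e (nat_lit 57872) (nat_lit 264) .nil)))))))) (.g (nat_lit 4) .nil .nil))) 
(.lf (nat_lit 25135) (.g (nat_lit 2220) (.e (nat_lit 1190) (nat_lit 88) (.e (nat_lit 65619) (nat_lit 10) (.e (nat_lit 344168) (nat_lit 40) (.e (nat_lit 671751) (nat_lit 0) (.e (nat_lit 1553) (nat_lit 110) (.e (nat_lit 352309) (nat_lit 21) (.e (nat_lit 57872) (nat_lit 264) .nil))))))) (.g (nat_lit 4) .nil .nil)))) (.nd (nat_lit 5) 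
(.lf (nat_lit 25119) (.g (nat_lit 2164) (.e (nat_lit 1190) (nat_lit 88) (.e (nat_lit 65619) (nat_lit 10) (.e (nat_lit 344160) (nat_lit 37) (.e (nat_lit 647203) (nat_lit 14) (.e (nat_lit 1359) (nat_lit 102) (.e (nat_lit 286749) (nat_lit 9) (.e (nat_lit 335997) (nat_lit 1) (.e (nat_lit 57872) (nat_lit 264) .nil)))))))) (.g (nat_lit 4) .nil .nil))) 
(.lf (nat_lit 25151) (.g (nat_lit 1874) (.e (nat_lit 1190) (nat_lit 88) (.e (nat_lit 65619) (nat_lit 10) (.e (nat_lit 344169) (nat_lit 40) (.e (nat_lit 671747) (nat_lit 0) (.e (nat_lit 1572) (nat_lit 110) (.e (nat_lit 352309) (nat_lit 21) (.e (nat_lit 57872) (nat_lit 264) .nil))))))) (.g (nat_lit 4) .nil .nil)))))))))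

noncomputable def tv355 : DT := (.nd (nat_lit 0) (.nd (nat_lit 1) (.nd (nat_lit 2) (.nd (nat_lit 3) (.nd (nat_lit 4) (.nd (nat_lit 5) 
(.lf (nat_lit 25152) (.g (nat_lit 2898) (.e (nat_lit 1190) (nat_lit 88) (.e (nat_lit 65619) (nat_lit 10) (.e (nat_lit 344169) (nat_lit 40) (.e (nat_lit 671747) (nat_lit 0) (.e (nat_lit 1586) (nat_lit 111) (.e (nat_lit 368384) (nat_lit 0) (.e (nat_lit 5902) (nat_lit 320) .nil))))))) (.g (nat_lit 5) .nil .nil))) 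
(.lf (nat_lit 25184) (.g (nat_lit 1839) (.e (nat_lit 1190) (nat_lit 88) (.e (nat_lit 65619) (nat_lit 10) (.e (nat_lit 344169) (nat_lit 40) (.e (nat_lit 671760) (nat_lit 4) (.e (nat_lit 65604) (nat_lit 9) (.e (nat_lit 335997) (nat_lit 1) (.e (nat_lit 57871) (nat_lit 264) .nil))))))) (.g (nat_lit 4) .nil .nil)))) (.nd (nat_lit 5) 
(.lf (nat_lit 25168) (.g (nat_lit 1782) (.e (nat_lit 1190) (nat_lit 88) (.e (nat_lit 65619) (nat_lit 10) (.e (nat_lit 344169) (nat_lit 40) (.e (nat_lit 671748) (nat_lit 0) (.e (nat_lit 1586) (nat_lit 111) (.e (nat_lit 360451) (nat_lit 0) (.e (nat_lit 5896) (nat_lit 320) .nil))))))) (.g (nat_lit 4) .nil .nil))) 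
(.lf (nat_lit 25200) (.g (nat_lit 4309) (.e (nat_lit 1190) (nat_lit 88) (.e (nat_lit 65619) (nat_lit 10) (.e (nat_lit 344169) (nat_lit 40) (.e (nat_lit 671762) (nat_lit 4) (.e (nat_lit 65619) (nat_lit 10) (.e (nat_lit 344097) (nat_lit 18) (.e (nat_lit 5907) (nat_lit 320) .nil))))))) (.g (nat_lit 7) .nil .nil))))) (.nd (nat_lit 4) (.nd (nat_lit 5) 
(.lf (nat_lit 25160) (.g (nat_lit 2606) (.e (nat_lit 1190) (nat_lit 88) (.e (nat_lit 65619) (nat_lit 10) (.e (nat_lit 344169) (nat_lit 40) (.e (nat_lit 671747) (nat_lit 0) (.e (nat_lit 1595) (nat_lit 111) (.e (nat_lit 368384) (nat_lit 0) (.e (nat_lit 5902) (nat_lit 320) .nil))))))) (.g (nat_lit 5) .nil .nil))) 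
(.lf (nat_lit 25192) (.g (nat_lit 3628) (.e (nat_lit 1190) (nat_lit 88) (.e (nat_lit 65619) (nat_lit 10) (.e (nat_lit 344169) (nat_lit 40) (.e (nat_lit 671761) (nat_lit 4) (.e (nat_lit 65610) (nat_lit 10) (.e (nat_lit 344097) (nat_lit 18) (.e (nat_lit 5905) (nat_lit 320) .nil))))))) (.g (nat_lit 6) .nil .nil)))) (.nd (nat_lit 5) 
(.lf (nat_lit 25176) (.g (nat_lit 2680) (.e (nat_lit 1190) (nat_lit 88) (.e (nat_lit 65619) (nat_lit 10) (.e (nat_lit 344169) (nat_lit 40) (.e (nat_lit 671748) (nat_lit 0) (.e (nat_lit 1595) (nat_lit 111) (.e (nat_lit 360453) (nat_lit 0) (.e (nat_lit 5905) (nat_lit 320) .nil))))))) (.g (nat_lit 5) .nil .nil))) 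
(.lf (nat_lit 25208) (.g (nat_lit 2786) (.e (nat_lit 1190) (nat_lit 88) (.e (nat_lit 65622) (nat_lit 12) (.e (nat_lit 385093) (nat_lit 49) (.e (nat_lit 778326) (nat_lit 6) (.e (nat_lit 81950) (nat_lit 21) (.e (nat_lit 57873) (nat_lit 264) .nil)))))) (.g (nat_lit 6) .nil .nil)))))) (.nd (nat_lit 3) (.nd (nat_lit 4) (.nd (nat_lit 5) 
(.lf (nat_lit 25156) (.g (nat_lit 2098) (.e (nat_lit 1190) (nat_lit 88) (.e (nat_lit 65619) (nat_lit 10) (.e (nat_lit 344169) (nat_lit 40) (.e (nat_lit 671747) (nat_lit 0) (.e (nat_lit 1589) (nat_lit 111) (.e (nat_lit 368384) (nat_lit 0) (.e (nat_lit 5905) (nat_lit 320) .nil))))))) (.g (nat_lit 4) .nil .nil))) 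
(.lf (nat_lit 25188) (.g (nat_lit 3246) (.e (nat_lit 1190) (nat_lit 88) (.e (nat_lit 65619) (nat_lit 10) (.e (nat_lit 344169) (nat_lit 40) (.e (nat_lit 671760) (nat_lit 4) (.e (nat_lit 65619) (nat_lit 10) (.e (nat_lit 344097) (nat_lit 18) (.e (nat_lit 5906) (nat_lit 320) .nil))))))) (.g (nat_lit 6) .nil .nil)))) (.nd (nat_lit 5) 
(.lf (nat_lit 25172) (.g (nat_lit 2926) (.e (nat_lit 1190) (nat_lit 88) (.e (nat_lit 65619) (nat_lit 10) (.e (nat_lit 344169) (nat_lit 40) (.e (nat_lit 671748) (nat_lit 0) (.e (nat_lit 1589) (nat_lit 111) (.e (nat_lit 360453) (nat_lit 0) (.e (nat_lit 5905) (nat_lit 320) .nil))))))) (.g (nat_lit 5) .nil .nil))) 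
(.lf (nat_lit 25204) (.g (nat_lit 2149) (.e (nat_lit 1190) (nat_lit 88) (.e (nat_lit 65622) (nat_lit 12) (.e (nat_lit 385093) (nat_lit 49) (.e (nat_lit 778326) (nat_lit 6) (.e (nat_lit 81948) (nat_lit 21) (.e (nat_lit 57870) (nat_lit 264) .nil)))))) (.g (nat_lit 5) .nil .nil))))) (.nd (nat_lit 4) (.nd (nat_lit 5) 
(.lf (nat_lit 25164) (.g (nat_lit 924) (.e (nat_lit 1190) (nat_lit 88) (.e (nat_lit 65619) (nat_lit 10) (.e (nat_lit 344169) (nat_lit 40) (.e (nat_lit 671748) (nat_lit 0) .nil)))) .nil)) 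
(.lf (nat_lit 25196) (.g (nat_lit 4482) (.e (nat_lit 1190) (nat_lit 88) (.e (nat_lit 65619) (nat_lit 10) (.e (nat_lit 344169) (nat_lit 40) (.e (nat_lit 671762) (nat_lit 4) (.e (nat_lit 65610) (nat_lit 10) (.e (nat_lit 344097) (nat_lit 18) (.e (nat_lit 5905) (nat_lit 320) .nil))))))) (.g (nat_lit 7) .nil .nil)))) (.nd (nat_lit 5) 
(.lf (nat_lit 25180) (.g (nat_lit 1996) (.e (nat_lit 1190) (nat_lit 88) (.e (nat_lit 65619) (nat_lit 10) (.e (nat_lit 344169) (nat_lit 40) (.e (nat_lit 671751) (nat_lit 0) (.e (nat_lit 1524) (nat_lit 108) (.e (nat_lit 336186) (nat_lit 11) (.e (nat_lit 368662) (nat_lit 18) (.e (nat_lit 5906) (nat_lit 320) .nil)))))))) (.g (nat_lit 4) .nil .nil))) 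
(.lf (nat_lit 25212) (.g (nat_lit 2419) (.e (nat_lit 1190) (nat_lit 88) (.e (nat_lit 65622) (nat_lit 12) (.e (nat_lit 385093) (nat_lit 49) (.e (nat_lit 778327) (nat_lit 6) (.e (nat_lit 81950) (nat_lit 21) (.e (nat_lit 57873) (nat_lit 264) .nil)))))) (.g (nat_lit 5) .nil .nil))))))) (.nd (nat_lit 2) (.nd (nat_lit 3) (.nd (nat_lit 4) (.nd (nat_lit 5) 
(.lf (nat_lit 25154) (.g (nat_lit 1569) (.e (nat_lit 1190) (nat_lit 88) (.e (nat_lit 65619) (nat_lit 10) (.e (nat_lit 344169) (nat_lit 40) (.e (nat_lit 671747) (nat_lit 0) (.e (nat_lit 1589) (nat_lit 111) .nil))))) .nil)) 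
(.lf (nat_lit 25186) (.g (nat_lit 1976) (.e (nat_lit 1190) (nat_lit 88) (.e (nat_lit 65619) (nat_lit 10) (.e (nat_lit 344169) (nat_lit 40) (.e (nat_lit 671760) (nat_lit 4) (.e (nat_lit 65610) (nat_lit 10) (.e (nat_lit 344097) (nat_lit 18) (.e (nat_lit 5907) (nat_lit 320) .nil))))))) (.g (nat_lit 4) .nil .nil)))) (.nd (nat_lit 5) 
(.lf (nat_lit 25170) (.g (nat_lit 1879) (.e (nat_lit 1190) (nat_lit 88) (.e (nat_lit 65619) (nat_lit 10) (.e (nat_lit 344169) (nat_lit 40) (.e (nat_lit 671748) (nat_lit 0) (.e (nat_lit 1586) (nat_lit 111) (.e (nat_lit 368384) (nat_lit 0) (.e (nat_lit 5909) (nat_lit 320) .nil))))))) (.g (nat_lit 4) .nil .nil))) 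
(.lf (nat_lit 25202) (.g (nat_lit 2093) (.e (nat_lit 1190) (nat_lit 88) (.e (nat_lit 65619) (nat_lit 10) (.e (nat_lit 344169) (nat_lit 40) (.e (nat_lit 671764) (nat_lit 6) (.e (nat_lit 81949) (nat_lit 21) (.e (nat_lit 57871) (nat_lit 264) .nil)))))) (.g (nat_lit 5) .nil .nil))))) (.nd (nat_lit 4) (.nd (nat_lit 5) 
(.lf (nat_lit 25162) (.g (nat_lit 2015) (.e (nat_lit 1190) (nat_lit 88) (.e (nat_lit 65619) (nat_lit 10) (.e (nat_lit 344169) (nat_lit 40) (.e (nat_lit 671747) (nat_lit 0) (.e (nat_lit 1598) (nat_lit 111) (.e (nat_lit 368384) (nat_lit 0) (.e (nat_lit 5902) (nat_lit 320) .nil))))))) (.g (nat_lit 4) .nil .nil))) 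
(.lf (nat_lit 25194) (.g (nat_lit 3840) (.e (nat_lit 1190) (nat_lit 88) (.e (nat_lit 65619) (nat_lit 10) (.e (nat_lit 344169) (nat_lit 40) (.e (nat_lit 671761) (nat_lit 4) (.e (nat_lit 65610) (nat_lit 10) (.e (nat_lit 344097) (nat_lit 18) (.e (nat_lit 5907) (nat_lit 320) .nil))))))) (.g (nat_lit 6) .nil .nil)))) (.nd (nat_lit 5) 
(.lf (nat_lit 25178) (.g (nat_lit 1778) (.e (nat_lit 1190) (nat_lit 88) (.e (nat_lit 65619) (nat_lit 10) (.e (nat_lit 344169) (nat_lit 40) (.e (nat_lit 671748) (nat_lit 0) (.e (nat_lit 1595) (nat_lit 111) (.e (nat_lit 368384) (nat_lit 0) (.e (nat_lit 5909) (nat_lit 320) .nil))))))) (.g (nat_lit 4) .nil .nil))) 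
(.lf (nat_lit 25210) (.g (nat_lit 2233) (.e (nat_lit 1190) (nat_lit 88) (.e (nat_lit 65622) (nat_lit 12) (.e (nat_lit 385093) (nat_lit 49) (.e (nat_lit 778327) (nat_lit 6) (.e (nat_lit 81949) (nat_lit 21) (.e (nat_lit 57870) (nat_lit 264) .nil)))))) (.g (nat_lit 4) .nil .nil)))))) (.nd (nat_lit 3) (.nd (nat_lit 4) (.nd (nat_lit 5) 
(.lf (nat_lit 25158) (.g (nat_lit 2186) (.e (nat_lit 1190) (nat_lit 88) (.e (nat_lit 65619) (nat_lit 10) (.e (nat_lit 344169) (nat_lit 40) (.e (nat_lit 671747) (nat_lit 0) (.e (nat_lit 1592) (nat_lit 111) (.e (nat_lit 368384) (nat_lit 0) (.e (nat_lit 5905) (nat_lit 320) .nil))))))) (.g (nat_lit 4) .nil .nil))) 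
(.lf (nat_lit 25190) (.g (nat_lit 1912) (.e (nat_lit 1190) (nat_lit 88) (.e (nat_lit 65619) (nat_lit 10) (.e (nat_lit 344169) (nat_lit 40) (.e (nat_lit 671761) (nat_lit 4) (.e (nat_lit 65604) (nat_lit 9) (.e (nat_lit 335997) (nat_lit 1) (.e (nat_lit 57871) (nat_lit 264) .nil))))))) (.g (nat_lit 4) .nil .nil)))) (.nd (nat_lit 5) 
(.lf (nat_lit 25174) (.g (nat_lit 2382) (.e (nat_lit 1190) (nat_lit 88) (.e (nat_lit 65619) (nat_lit 10) (.e (nat_lit 344169) (nat_lit 40) (.e (nat_lit 671748) (nat_lit 0) (.e (nat_lit 1592) (nat_lit 111) (.e (nat_lit 368384) (nat_lit 0) (.e (nat_lit 5902) (nat_lit 320) .nil))))))) (.g (nat_lit 4) .nil .nil))) 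
(.lf (nat_lit 25206) (.g (nat_lit 2231) (.e (nat_lit 1190) (nat_lit 88) (.e (nat_lit 65622) (nat_lit 12) (.e (nat_lit 385093) (nat_lit 49) (.e (nat_lit 778326) (nat_lit 6) (.e (nat_lit 81950) (nat_lit 21) (.e (nat_lit 57870) (nat_lit 264) .nil)))))) (.g (nat_lit 5) .nil .nil))))) (.nd (nat_lit 4) (.nd (nat_lit 5) 
(.lf (nat_lit 25166) (.g (nat_lit 2104) (.e (nat_lit 1190) (nat_lit 88) (.e (nat_lit 65619) (nat_lit 10) (.e (nat_lit 344169) (nat_lit 40) (.e (nat_lit 671748) (nat_lit 0) (.e (nat_lit 1562) (nat_lit 110) (.e (nat_lit 352309) (nat_lit 21) (.e (nat_lit 57871) (nat_lit 264) .nil))))))) (.g (nat_lit 4) .nil .nil))) 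
(.lf (nat_lit 25198) (.g (nat_lit 2150) (.e (nat_lit 1190) (nat_lit 88) (.e (nat_lit 65619) (nat_lit 10) (.e (nat_lit 344169) (nat_lit 40) (.e (nat_lit 671762) (nat_lit 4) (.e (nat_lit 65619) (nat_lit 10) (.e (nat_lit 344090) (nat_lit 18) (.e (nat_lit 5896) (nat_lit 320) .nil))))))) (.g (nat_lit 4) .nil .nil)))) (.nd (nat_lit 5) 
(.lf (nat_lit 25182) (.g (nat_lit 1456) (.e (nat_lit 1190) (nat_lit 88) (.e (nat_lit 65619) (nat_lit 10) (.e (nat_lit 344169) (nat_lit 40) (.e (nat_lit 671760) (nat_lit 4) (.e (nat_lit 65598) (nat_lit 9) .nil))))) .nil)) 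
(.lf (nat_lit 25214) (.g (nat_lit 2656) (.e (nat_lit 1190) (nat_lit 88) (.e (nat_lit 65622) (nat_lit 12) (.e (nat_lit 385094) (nat_lit 49) (.e (nat_lit 778326) (nat_lit 6) (.e (nat_lit 81948) (nat_lit 21) (.e (nat_lit 57873) (nat_lit 264) .nil)))))) (.g (nat_lit 6) .nil .nil)))))))) (.nd (nat_lit 1) (.nd (nat_lit 2) (.nd (nat_lit 3) (.nd (nat_lit 4) (.nd (nat_lit 5) 
(.lf (nat_lit 25153) (.g (nat_lit 2612) (.e (nat_lit 1190) (nat_lit 88) (.e (nat_lit 65619) (nat_lit 10) (.e (nat_lit 344169) (nat_lit 40) (.e (nat_lit 671747) (nat_lit 0) (.e (nat_lit 1586) (nat_lit 111) (.e (nat_lit 368384) (nat_lit 0) (.e (nat_lit 5906) (nat_lit 320) .nil))))))) (.g (nat_lit 5) .nil .nil))) 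
(.lf (nat_lit 25185) (.g (nat_lit 1883) (.e (nat_lit 1190) (nat_lit 88) (.e (nat_lit 65619) (nat_lit 10) (.e (nat_lit 344169) (nat_lit 40) (.e (nat_lit 671760) (nat_lit 4) (.e (nat_lit 65604) (nat_lit 9) (.e (nat_lit 335997) (nat_lit 1) (.e (nat_lit 57872) (nat_lit 264) .nil))))))) (.g (nat_lit 4) .nil .nil)))) (.nd (nat_lit 5) 
(.lf (nat_lit 25169) (.g (nat_lit 2023) (.e (nat_lit 1190) (nat_lit 88) (.e (nat_lit 65619) (nat_lit 10) (.e (nat_lit 344169) (nat_lit 40) (.e (nat_lit 671748) (nat_lit 0) (.e (nat_lit 1586) (nat_lit 111) (.e (nat_lit 360454) (nat_lit 0) (.e (nat_lit 5907) (nat_lit 320) .nil))))))) (.g (nat_lit 4) .nil .nil))) 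
(.lf (nat_lit 25201) (.g (nat_lit 2319) (.e (nat_lit 1190) (nat_lit 88) (.e (nat_lit 65619) (nat_lit 10) (.e (nat_lit 344169) (nat_lit 40) (.e (nat_lit 671762) (nat_lit 4) (.e (nat_lit 65620) (nat_lit 10) (.e (nat_lit 344097) (nat_lit 18) (.e (nat_lit 5906) (nat_lit 320) .nil))))))) (.g (nat_lit 4) .nil .nil))))) (.nd (nat_lit 4) (.nd (nat_lit 5) 
(.lf (nat_lit 25161) (.g (nat_lit 2356) (.e (nat_lit 1190) (nat_lit 88) (.e (nat_lit 65619) (nat_lit 10) (.e (nat_lit 344169) (nat_lit 40) (.e (nat_lit 671747) (nat_lit 0) (.e (nat_lit 1598) (nat_lit 111) (.e (nat_lit 360452) (nat_lit 0) (.e (nat_lit 5906) (nat_lit 320) .nil))))))) (.g (nat_lit 5) .nil .nil))) 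
(.lf (nat_lit 25193) (.g (nat_lit 3581) (.e (nat_lit 1190) (nat_lit 88) (.e (nat_lit 65619) (nat_lit 10) (.e (nat_lit 344169) (nat_lit 40) (.e (nat_lit 671761) (nat_lit 4) (.e (nat_lit 65610) (nat_lit 10) (.e (nat_lit 344097) (nat_lit 18) (.e (nat_lit 5906) (nat_lit 320) .nil))))))) (.g (nat_lit 6) .nil .nil)))) (.nd (nat_lit 5) 
(.lf (nat_lit 25177) (.g (nat_lit 2808) (.e (nat_lit 1190) (nat_lit 88) (.e (nat_lit 65619) (nat_lit 10) (.e (nat_lit 344169) (nat_lit 40) (.e (nat_lit 671748) (nat_lit 0) (.e (nat_lit 1595) (nat_lit 111) (.e (nat_lit 368384) (nat_lit 0) (.e (nat_lit 5906) (nat_lit 320) .nil))))))) (.g (nat_lit 5) .nil .nil))) 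
(.lf (nat_lit 25209) (.g (nat_lit 1793) (.e (nat_lit 1190) (nat_lit 88) (.e (nat_lit 65622) (nat_lit 12) (.e (nat_lit 385093) (nat_lit 49) (.e (nat_lit 778327) (nat_lit 6) (.e (nat_lit 81948) (nat_lit 21) .nil))))) .nil))))) (.nd (nat_lit 3) (.nd (nat_lit 4) (.nd (nat_lit 5) 
(.lf (nat_lit 25157) (.g (nat_lit 2098) (.e (nat_lit 1190) (nat_lit 88) (.e (nat_lit 65619) (nat_lit 10) (.e (nat_lit 344169) (nat_lit 40) (.e (nat_lit 671747) (nat_lit 0) (.e (nat_lit 1592) (nat_lit 111) (.e (nat_lit 368384) (nat_lit 0) (.e (nat_lit 5902) (nat_lit 320) .nil))))))) (.g (nat_lit 4) .nil .nil))) 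
(.lf (nat_lit 25189) (.g (nat_lit 1851) (.e (nat_lit 1190) (nat_lit 88) (.e (nat_lit 65619) (nat_lit 10) (.e (nat_lit 344169) (nat_lit 40) (.e (nat_lit 671761) (nat_lit 4) (.e (nat_lit 65604) (nat_lit 9) (.e (nat_lit 335997) (nat_lit 1) (.e (nat_lit 57870) (nat_lit 264) .nil))))))) (.g (nat_lit 4) .nil .nil)))) (.nd (nat_lit 5) 
(.lf (nat_lit 25173) (.g (nat_lit 1883) (.e (nat_lit 1190) (nat_lit 88) (.e (nat_lit 65619) (nat_lit 10) (.e (nat_lit 344169) (nat_lit 40) (.e (nat_lit 671748) (nat_lit 0) (.e (nat_lit 1589) (nat_lit 111) (.e (nat_lit 368384) (nat_lit 0) (.e (nat_lit 5909) (nat_lit 320) .nil))))))) (.g (nat_lit 4) .nil .nil))) 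
(.lf (nat_lit 25205) (.g (nat_lit 2777) (.e (nat_lit 1190) (nat_lit 88) (.e (nat_lit 65622) (nat_lit 12) (.e (nat_lit 385093) (nat_lit 49) (.e (nat_lit 778326) (nat_lit 6) (.e (nat_lit 81948) (nat_lit 21) (.e (nat_lit 57873) (nat_lit 264) .nil)))))) (.g (nat_lit 6) .nil .nil))))) (.nd (nat_lit 4) (.nd (nat_lit 5) 
(.lf (nat_lit 25165) (.g (nat_lit 1913) (.e (nat_lit 1190) (nat_lit 88) (.e (nat_lit 65619) (nat_lit 10) (.e (nat_lit 344169) (nat_lit 40) (.e (nat_lit 671748) (nat_lit 0) (.e (nat_lit 1562) (nat_lit 110) (.e (nat_lit 352309) (nat_lit 21) (.e (nat_lit 57870) (nat_lit 264) .nil))))))) (.g (nat_lit 4) .nil .nil))) 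
(.lf (nat_lit 25197) (.g (nat_lit 4502) (.e (nat_lit 1190) (nat_lit 88) (.e (nat_lit 65619) (nat_lit 10) (.e (nat_lit 344169) (nat_lit 40) (.e (nat_lit 671762) (nat_lit 4) (.e (nat_lit 65610) (nat_lit 10) (.e (nat_lit 344097) (nat_lit 18) (.e (nat_lit 5907) (nat_lit 320) .nil))))))) (.g (nat_lit 7) .nil .nil)))) (.nd (nat_lit 5) 
(.lf (nat_lit 25181) (.g (nat_lit 2258) (.e (nat_lit 1190) (nat_lit 88) (.e (nat_lit 65619) (nat_lit 10) (.e (nat_lit 344169) (nat_lit 40) (.e (nat_lit 671751) (nat_lit 0) (.e (nat_lit 1524) (nat_lit 108) (.e (nat_lit 336186) (nat_lit 11) (.e (nat_lit 368662) (nat_lit 18) (.e (nat_lit 5907) (nat_lit 320) .nil)))))))) (.g (nat_lit 4) .nil .nil))) 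
(.lf (nat_lit 25213) (.g (nat_lit 2020) (.e (nat_lit 1190) (nat_lit 88) (.e (nat_lit 65622) (nat_lit 12) (.e (nat_lit 385094) (nat_lit 49) (.e (nat_lit 778326) (nat_lit 6) (.e (nat_lit 81948) (nat_lit 21) (.e (nat_lit 57870) (nat_lit 264) .nil)))))) (.g (nat_lit 5) .nil .nil))))))) (.nd (nat_lit 2) (.nd (nat_lit 3) (.nd (nat_lit 4) (.nd (nat_lit 5) 
(.lf (nat_lit 25155) (.g (nat_lit 2814) (.e (nat_lit 1190) (nat_lit 88) (.e (nat_lit 65619) (nat_lit 10) (.e (nat_lit 344169) (nat_lit 40) (.e (nat_lit 671747) (nat_lit 0) (.e (nat_lit 1589) (nat_lit 111) (.e (nat_lit 360453) (nat_lit 0) (.e (nat_lit 5907) (nat_lit 320) .nil))))))) (.g (nat_lit 5) .nil .nil))) 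
(.lf (nat_lit 25187) (.g (nat_lit 3458) (.e (nat_lit 1190) (nat_lit 88) (.e (nat_lit 65619) (nat_lit 10) (.e (nat_lit 344169) (nat_lit 40) (.e (nat_lit 671760) (nat_lit 4) (.e (nat_lit 65619) (nat_lit 10) (.e (nat_lit 344097) (nat_lit 18) (.e (nat_lit 5905) (nat_lit 320) .nil))))))) (.g (nat_lit 6) .nil .nil)))) (.nd (nat_lit 5) 
(.lf (nat_lit 25171) (.g (nat_lit 2384) (.e (nat_lit 1190) (nat_lit 88) (.e (nat_lit 65619) (nat_lit 10) (.e (nat_lit 344169) (nat_lit 40) (.e (nat_lit 671748) (nat_lit 0) (.e (nat_lit 1589) (nat_lit 111) (.e (nat_lit 360452) (nat_lit 0) (.e (nat_lit 5907) (nat_lit 320) .nil))))))) (.g (nat_lit 4) .nil .nil))) 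
(.lf (nat_lit 25203) (.g (nat_lit 1733) (.e (nat_lit 1190) (nat_lit 88) (.e (nat_lit 65622) (nat_lit 12) (.e (nat_lit 385093) (nat_lit 49) (.e (nat_lit 778290) (nat_lit 0) .nil)))) .nil)))) (.nd (nat_lit 4) (.nd (nat_lit 5) 
(.lf (nat_lit 25163) (.g (nat_lit 1995) (.e (nat_lit 1190) (nat_lit 88) (.e (nat_lit 65619) (nat_lit 10) (.e (nat_lit 344169) (nat_lit 40) (.e (nat_lit 671747) (nat_lit 0) (.e (nat_lit 1599) (nat_lit 111) (.e (nat_lit 368384) (nat_lit 0) (.e (nat_lit 5902) (nat_lit 320) .nil))))))) (.g (nat_lit 4) .nil .nil))) 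
(.lf (nat_lit 25195) (.g (nat_lit 931) (.e (nat_lit 1190) (nat_lit 88) (.e (nat_lit 65619) (nat_lit 10) (.e (nat_lit 344169) (nat_lit 40) (.e (nat_lit 671762) (nat_lit 4) .nil)))) .nil))) (.nd (nat_lit 5) 
(.lf (nat_lit 25179) (.g (nat_lit 3347) (.e (nat_lit 1190) (nat_lit 88) (.e (nat_lit 65619) (nat_lit 10) (.e (nat_lit 344169) (nat_lit 40) (.e (nat_lit 671748) (nat_lit 0) (.e (nat_lit 1598) (nat_lit 111) (.e (nat_lit 360452) (nat_lit 0) (.e (nat_lit 5906) (nat_lit 320) .nil))))))) (.g (nat_lit 7) .nil .nil))) 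
(.lf (nat_lit 25211) (.g (nat_lit 2354) (.e (nat_lit 1190) (nat_lit 88) (.e (nat_lit 65622) (nat_lit 12) (.e (nat_lit 385093) (nat_lit 49) (.e (nat_lit 778327) (nat_lit 6) (.e (nat_lit 81950) (nat_lit 21) (.e (nat_lit 57872) (nat_lit 264) .nil)))))) (.g (nat_lit 4) .nil .nil)))))) (.nd (nat_lit 3) (.nd (nat_lit 4) (.nd (nat_lit 5) 
(.lf (nat_lit 25159) (.g (nat_lit 3910) (.e (nat_lit 1190) (nat_lit 88) (.e (nat_lit 65619) (nat_lit 10) (.e (nat_lit 344169) (nat_lit 40) (.e (nat_lit 671747) (nat_lit 0) (.e (nat_lit 1595) (nat_lit 111) (.e (nat_lit 360453) (nat_lit 0) (.e (nat_lit 5907) (nat_lit 320) .nil))))))) (.g (nat_lit 7) .nil .nil))) 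
(.lf (nat_lit 25191) (.g (nat_lit 1956) (.e (nat_lit 1190) (nat_lit 88) (.e (nat_lit 65619) (nat_lit 10) (.e (nat_lit 344169) (nat_lit 40) (.e (nat_lit 671761) (nat_lit 4) (.e (nat_lit 65604) (nat_lit 9) (.e (nat_lit 335997) (nat_lit 1) (.e (nat_lit 57872) (nat_lit 264) .nil))))))) (.g (nat_lit 4) .nil .nil)))) (.nd (nat_lit 5) 
(.lf (nat_lit 25175) (.g (nat_lit 2470) (.e (nat_lit 1190) (nat_lit 88) (.e (nat_lit 65619) (nat_lit 10) (.e (nat_lit 344169) (nat_lit 40) (.e (nat_lit 671748) (nat_lit 0) (.e (nat_lit 1592) (nat_lit 111) (.e (nat_lit 368384) (nat_lit 0) (.e (nat_lit 5905) (nat_lit 320) .nil))))))) (.g (nat_lit 4) .nil .nil))) 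
(.lf (nat_lit 25207) (.g (nat_lit 1754) (.e (nat_lit 1190) (nat_lit 88) (.e (nat_lit 65622) (nat_lit 12) (.e (nat_lit 385093) (nat_lit 49) (.e (nat_lit 778326) (nat_lit 6) (.e (nat_lit 81950) (nat_lit 21) (.e (nat_lit 57871) (nat_lit 264) .nil)))))) (.g (nat_lit 4) .nil .nil))))) (.nd (nat_lit 4) (.nd (nat_lit 5) 
(.lf (nat_lit 25167) (.g (nat_lit 2658) (.e (nat_lit 1190) (nat_lit 88) (.e (nat_lit 65619) (nat_lit 10) (.e (nat_lit 344169) (nat_lit 40) (.e (nat_lit 671748) (nat_lit 0) (.e (nat_lit 1572) (nat_lit 110) (.e (nat_lit 352309) (nat_lit 21) (.e (nat_lit 57872) (nat_lit 264) .nil))))))) (.g (nat_lit 5) .nil .nil))) 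
(.lf (nat_lit 25199) (.g (nat_lit 4401) (.e (nat_lit 1190) (nat_lit 88) (.e (nat_lit 65619) (nat_lit 10) (.e (nat_lit 344169) (nat_lit 40) (.e (nat_lit 671762) (nat_lit 4) (.e (nat_lit 65619) (nat_lit 10) (.e (nat_lit 344097) (nat_lit 18) (.e (nat_lit 5905) (nat_lit 320) .nil))))))) (.g (nat_lit 7) .nil .nil)))) (.nd (nat_lit 5) 
(.lf (nat_lit 25183) (.g (nat_lit 1778) (.e (nat_lit 1190) (nat_lit 88) (.e (nat_lit 65619) (nat_lit 10) (.e (nat_lit 344169) (nat_lit 40) (.e (nat_lit 671760) (nat_lit 4) (.e (nat_lit 65604) (nat_lit 9) (.e (nat_lit 335997) (nat_lit 1) (.e (nat_lit 57870) (nat_lit 264) .nil))))))) (.g (nat_lit 4) .nil .nil))) 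
(.lf (nat_lit 25215) (.g (nat_lit 2099) (.e (nat_lit 1190) (nat_lit 88) (.e (nat_lit 65622) (nat_lit 12) (.e (nat_lit 385094) (nat_lit 49) (.e (nat_lit 778326) (nat_lit 6) (.e (nat_lit 81950) (nat_lit 21) (.e (nat_lit 57870) (nat_lit 264) .nil)))))) (.g (nat_lit 5) .nil .nil)))))))))

noncomputable def tv356 : DT := (.nd (nat_lit 0) (.nd (nat_lit 1) (.nd (nat_lit 2) (.nd (nat_lit 3) (.nd (nat_lit 4) (.nd (nat_lit 5) 
(.lf (nat_lit 25216) (.g (nat_lit 1624) (.e (nat_lit 1190) (nat_lit 88) (.e (nat_lit 65622) (nat_lit 12) (.e (nat_lit 385094) (nat_lit 49) (.e (nat_lit 778326) (nat_lit 6) (.e (nat_lit 81950) (nat_lit 21) (.e (nat_lit 57871) (nat_lit 264) .nil)))))) (.g (nat_lit 4) .nil .nil))) 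
(.lf (nat_lit 25248) (.g (nat_lit 1602) (.e (nat_lit 1190) (nat_lit 88) (.e (nat_lit 65622) (nat_lit 12) (.e (nat_lit 385106) (nat_lit 50) (.e (nat_lit 786481) (nat_lit 30) (.e (nat_lit 368384) (nat_lit 0) (.e (nat_lit 5907) (nat_lit 320) .nil)))))) (.g (nat_lit 4) .nil .nil)))) (.nd (nat_lit 5) 
(.lf (nat_lit 25232) (.g (nat_lit 2419) (.e (nat_lit 1190) (nat_lit 88) (.e (nat_lit 65622) (nat_lit 12) (.e (nat_lit 385105) (nat_lit 50) (.e (nat_lit 786483) (nat_lit 30) (.e (nat_lit 360450) (nat_lit 0) (.e (nat_lit 5896) (nat_lit 320) .nil)))))) (.g (nat_lit 4) .nil .nil))) 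
(.lf (nat_lit 25264) (.g (nat_lit 2032) (.e (nat_lit 1190) (nat_lit 88) (.e (nat_lit 65623) (nat_lit 12) (.e (nat_lit 385105) (nat_lit 50) (.e (nat_lit 786483) (nat_lit 30) (.e (nat_lit 360451) (nat_lit 0) (.e (nat_lit 5896) (nat_lit 320) .nil)))))) (.g (nat_lit 4) .nil .nil))))) (.nd (nat_lit 4) (.nd (nat_lit 5) 
(.lf (nat_lit 25224) (.g (nat_lit 3460) (.e (nat_lit 1190) (nat_lit 88) (.e (nat_lit 65622) (nat_lit 12) (.e (nat_lit 385105) (nat_lit 50) (.e (nat_lit 786478) (nat_lit 29) (.e (nat_lit 352309) (nat_lit 21) (.e (nat_lit 57872) (nat_lit 264) .nil)))))) (.g (nat_lit 6) .nil .nil))) 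
(.lf (nat_lit 25256) (.g (nat_lit 1356) (.e (nat_lit 1190) (nat_lit 88) (.e (nat_lit 65623) (nat_lit 12) (.e (nat_lit 385094) (nat_lit 49) (.e (nat_lit 778327) (nat_lit 6) (.e (nat_lit 81948) (nat_lit 21) .nil))))) .nil))) (.nd (nat_lit 5) 
(.lf (nat_lit 25240) (.g (nat_lit 1967) (.e (nat_lit 1190) (nat_lit 88) (.e (nat_lit 65622) (nat_lit 12) (.e (nat_lit 385106) (nat_lit 50) (.e (nat_lit 786478) (nat_lit 29) (.e (nat_lit 352309) (nat_lit 21) (.e (nat_lit 57871) (nat_lit 264) .nil)))))) (.g (nat_lit 4) .nil .nil))) 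
(.lf (nat_lit 25272) (.g (nat_lit 1778) (.e (nat_lit 1190) (nat_lit 88) (.e (nat_lit 65623) (nat_lit 12) (.e (nat_lit 385106) (nat_lit 50) (.e (nat_lit 786481) (nat_lit 30) (.e (nat_lit 368384) (nat_lit 0) (.e (nat_lit 5906) (nat_lit 320) .nil)))))) (.g (nat_lit 4) .nil .nil)))))) (.nd (nat_lit 3) (.nd (nat_lit 4) (.nd (nat_lit 5) 
(.lf (nat_lit 25220) (.g (nat_lit 2025) (.e (nat_lit 1190) (nat_lit 88) (.e (nat_lit 65622) (nat_lit 12) (.e (nat_lit 385094) (nat_lit 49) (.e (nat_lit 778327) (nat_lit 6) (.e (nat_lit 81949) (nat_lit 21) (.e (nat_lit 57873) (nat_lit 264) .nil)))))) (.g (nat_lit 4) .nil .nil))) 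
(.lf (nat_lit 25252) (.g (nat_lit 2441) (.e (nat_lit 1190) (nat_lit 88) (.e (nat_lit 65622) (nat_lit 12) (.e (nat_lit 385106) (nat_lit 50) (.e (nat_lit 786483) (nat_lit 30) (.e (nat_lit 368384) (nat_lit 0) (.e (nat_lit 5902) (nat_lit 320) .nil)))))) (.g (nat_lit 4) .nil .nil)))) (.nd (nat_lit 5) 
(.lf (nat_lit 25236) (.g (nat_lit 2409) (.e (nat_lit 1190) (nat_lit 88) (.e (nat_lit 65622) (nat_lit 12) (.e (nat_lit 385105) (nat_lit 50) (.e (nat_lit 786483) (nat_lit 30) (.e (nat_lit 368384) (nat_lit 0) (.e (nat_lit 5902) (nat_lit 320) .nil)))))) (.g (nat_lit 4) .nil .nil))) 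
(.lf (nat_lit 25268) (.g (nat_lit 3369) (.e (nat_lit 1190) (nat_lit 88) (.e (nat_lit 65623) (nat_lit 12) (.e (nat_lit 385106) (nat_lit 50) (.e (nat_lit 786480) (nat_lit 29) (.e (nat_lit 352309) (nat_lit 21) (.e (nat_lit 57872) (nat_lit 264) .nil)))))) (.g (nat_lit 6) .nil .nil))))) (.nd (nat_lit 4) (.nd (nat_lit 5) 
(.lf (nat_lit 25228) (.g (nat_lit 3208) (.e (nat_lit 1190) (nat_lit 88) (.e (nat_lit 65622) (nat_lit 12) (.e (nat_lit 385105) (nat_lit 50) (.e (nat_lit 786481) (nat_lit 30) (.e (nat_lit 360449) (nat_lit 0) (.e (nat_lit 5896) (nat_lit 320) .nil)))))) (.g (nat_lit 6) .nil .nil))) 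
(.lf (nat_lit 25260) (.g (nat_lit 1965) (.e (nat_lit 1190) (nat_lit 88) (.e (nat_lit 65623) (nat_lit 12) (.e (nat_lit 385105) (nat_lit 50) (.e (nat_lit 786480) (nat_lit 29) (.e (nat_lit 352309) (nat_lit 21) .nil))))) .nil))) (.nd (nat_lit 5) 
(.lf (nat_lit 25244) (.g (nat_lit 3286) (.e (nat_lit 1190) (nat_lit 88) (.e (nat_lit 65622) (nat_lit 12) (.e (nat_lit 385106) (nat_lit 50) (.e (nat_lit 786481) (nat_lit 30) (.e (nat_lit 360449) (nat_lit 0) (.e (nat_lit 5896) (nat_lit 320) .nil)))))) (.g (nat_lit 6) .nil .nil))) 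
(.lf (nat_lit 25276) (.g (nat_lit 2078) (.e (nat_lit 1190) (nat_lit 88) (.e (nat_lit 65623) (nat_lit 12) (.e (nat_lit 385106) (nat_lit 50) (.e (nat_lit 786483) (nat_lit 30) (.e (nat_lit 368384) (nat_lit 0) (.e (nat_lit 5902) (nat_lit 320) .nil)))))) (.g (nat_lit 4) .nil .nil))))))) (.nd (nat_lit 2) (.nd (nat_lit 3) (.nd (nat_lit 4) (.nd (nat_lit 5) 
(.lf (nat_lit 25218) (.g (nat_lit 1523) (.e (nat_lit 1190) (nat_lit 88) (.e (nat_lit 65622) (nat_lit 12) (.e (nat_lit 385094) (nat_lit 49) (.e (nat_lit 778327) (nat_lit 6) (.e (nat_lit 81948) (nat_lit 21) .nil))))) .nil)) 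
(.lf (nat_lit 25250) (.g (nat_lit 3570) (.e (nat_lit 1190) (nat_lit 88) (.e (nat_lit 65622) (nat_lit 12) (.e (nat_lit 385106) (nat_lit 50) (.e (nat_lit 786483) (nat_lit 30) (.e (nat_lit 360454) (nat_lit 0) (.e (nat_lit 5907) (nat_lit 320) .nil)))))) (.g (nat_lit 6) .nil .nil)))) (.nd (nat_lit 5) 
(.lf (nat_lit 25234) (.g (nat_lit 3524) (.e (nat_lit 1190) (nat_lit 88) (.e (nat_lit 65622) (nat_lit 12) (.e (nat_lit 385105) (nat_lit 50) (.e (nat_lit 786483) (nat_lit 30) (.e (nat_lit 360454) (nat_lit 0) (.e (nat_lit 5907) (nat_lit 320) .nil)))))) (.g (nat_lit 6) .nil .nil))) 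
(.lf (nat_lit 25266) (.g (nat_lit 1960) (.e (nat_lit 1190) (nat_lit 88) (.e (nat_lit 65623) (nat_lit 12) (.e (nat_lit 385106) (nat_lit 50) (.e (nat_lit 786478) (nat_lit 29) (.e (nat_lit 352309) (nat_lit 21) (.e (nat_lit 57872) (nat_lit 264) .nil)))))) (.g (nat_lit 4) .nil .nil))))) (.nd (nat_lit 4) (.nd (nat_lit 5) 
(.lf (nat_lit 25226) (.g (nat_lit 3364) (.e (nat_lit 1190) (nat_lit 88) (.e (nat_lit 65622) (nat_lit 12) (.e (nat_lit 385105) (nat_lit 50) (.e (nat_lit 786480) (nat_lit 29) (.e (nat_lit 352309) (nat_lit 21) (.e (nat_lit 57871) (nat_lit 264) .nil)))))) (.g (nat_lit 5) .nil .nil))) 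
(.lf (nat_lit 25258) (.g (nat_lit 1979) (.e (nat_lit 1190) (nat_lit 88) (.e (nat_lit 65623) (nat_lit 12) (.e (nat_lit 385094) (nat_lit 49) (.e (nat_lit 778327) (nat_lit 6) (.e (nat_lit 81949) (nat_lit 21) (.e (nat_lit 57870) (nat_lit 264) .nil)))))) (.g (nat_lit 5) .nil .nil)))) (.nd (nat_lit 5) 
(.lf (nat_lit 25242) (.g (nat_lit 3279) (.e (nat_lit 1190) (nat_lit 88) (.e (nat_lit 65622) (nat_lit 12) (.e (nat_lit 385106) (nat_lit 50) (.e (nat_lit 786480) (nat_lit 29) (.e (nat_lit 352309) (nat_lit 21) (.e (nat_lit 57870) (nat_lit 264) .nil)))))) (.g (nat_lit 6) .nil .nil))) 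
(.lf (nat_lit 25274) (.g (nat_lit 2490) (.e (nat_lit 1190) (nat_lit 88) (.e (nat_lit 65623) (nat_lit 12) (.e (nat_lit 385106) (nat_lit 50) (.e (nat_lit 786483) (nat_lit 30) (.e (nat_lit 360452) (nat_lit 0) (.e (nat_lit 5905) (nat_lit 320) .nil)))))) (.g (nat_lit 4) .nil .nil)))))) (.nd (nat_lit 3) (.nd (nat_lit 4) (.nd (nat_lit 5) 
(.lf (nat_lit 25222) (.g (nat_lit 2856) (.e (nat_lit 1190) (nat_lit 88) (.e (nat_lit 65622) (nat_lit 12) (.e (nat_lit 385105) (nat_lit 50) (.e (nat_lit 786478) (nat_lit 29) (.e (nat_lit 352309) (nat_lit 21) (.e (nat_lit 57870) (nat_lit 264) .nil)))))) (.g (nat_lit 5) .nil .nil))) 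
(.lf (nat_lit 25254) (.g (nat_lit 2439) (.e (nat_lit 1190) (nat_lit 88) (.e (nat_lit 65623) (nat_lit 12) (.e (nat_lit 385094) (nat_lit 49) (.e (nat_lit 778326) (nat_lit 6) (.e (nat_lit 81948) (nat_lit 21) (.e (nat_lit 57870) (nat_lit 264) .nil)))))) (.g (nat_lit 0) .nil .nil)))) (.nd (nat_lit 5) 
(.lf (nat_lit 25238) (.g (nat_lit 1432) (.e (nat_lit 1190) (nat_lit 88) (.e (nat_lit 65622) (nat_lit 12) (.e (nat_lit 385105) (nat_lit 50) (.e (nat_lit 786485) (nat_lit 32) .nil)))) .nil)) 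
(.lf (nat_lit 25270) (.g (nat_lit 3053) (.e (nat_lit 1190) (nat_lit 88) (.e (nat_lit 65623) (nat_lit 12) (.e (nat_lit 385106) (nat_lit 50) (.e (nat_lit 786481) (nat_lit 30) (.e (nat_lit 360453) (nat_lit 0) (.e (nat_lit 5907) (nat_lit 320) .nil)))))) (.g (nat_lit 6) .nil .nil))))) (.nd (nat_lit 4) (.nd (nat_lit 5) 
(.lf (nat_lit 25230) (.g (nat_lit 2092) (.e (nat_lit 1190) (nat_lit 88) (.e (nat_lit 65622) (nat_lit 12) (.e (nat_lit 385105) (nat_lit 50) (.e (nat_lit 786481) (nat_lit 30) (.e (nat_lit 368384) (nat_lit 0) (.e (nat_lit 5902) (nat_lit 320) .nil)))))) (.g (nat_lit 4) .nil .nil))) 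
(.lf (nat_lit 25262) (.g (nat_lit 1806) (.e (nat_lit 1190) (nat_lit 88) (.e (nat_lit 65623) (nat_lit 12) (.e (nat_lit 385105) (nat_lit 50) (.e (nat_lit 786481) (nat_lit 30) (.e (nat_lit 360449) (nat_lit 0) .nil))))) .nil))) (.nd (nat_lit 5) 
(.lf (nat_lit 25246) (.g (nat_lit 3489) (.e (nat_lit 1190) (nat_lit 88) (.e (nat_lit 65622) (nat_lit 12) (.e (nat_lit 385106) (nat_lit 50) (.e (nat_lit 786481) (nat_lit 30) (.e (nat_lit 360452) (nat_lit 0) (.e (nat_lit 5907) (nat_lit 320) .nil)))))) (.g (nat_lit 0) .nil .nil))) 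
(.lf (nat_lit 25278) (.g (nat_lit 3358) (.e (nat_lit 1190) (nat_lit 88) (.e (nat_lit 65624) (nat_lit 12) (.e (nat_lit 385074) (nat_lit 31) (.e (nat_lit 573491) (nat_lit 15) (.e (nat_lit 81957) (nat_lit 24) .nil))))) .nil))))))) (.nd (nat_lit 1) (.nd (nat_lit 2) (.nd (nat_lit 3) (.nd (nat_lit 4) (.nd (nat_lit 5) 
(.lf (nat_lit 25217) (.g (nat_lit 2678) (.e (nat_lit 1190) (nat_lit 88) (.e (nat_lit 65622) (nat_lit 12) (.e (nat_lit 385094) (nat_lit 49) (.e (nat_lit 778326) (nat_lit 6) (.e (nat_lit 81950) (nat_lit 21) (.e (nat_lit 57873) (nat_lit 264) .nil)))))) (.g (nat_lit 6) .nil .nil))) 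
(.lf (nat_lit 25249) (.g (nat_lit 3707) (.e (nat_lit 1190) (nat_lit 88) (.e (nat_lit 65622) (nat_lit 12) (.e (nat_lit 385106) (nat_lit 50) (.e (nat_lit 786483) (nat_lit 30) (.e (nat_lit 360451) (nat_lit 0) (.e (nat_lit 5896) (nat_lit 320) .nil)))))) (.g (nat_lit 6) .nil .nil)))) (.nd (nat_lit 5) 
(.lf (nat_lit 25233) (.g (nat_lit 3574) (.e (nat_lit 1190) (nat_lit 88) (.e (nat_lit 65622) (nat_lit 12) (.e (nat_lit 385105) (nat_lit 50) (.e (nat_lit 786483) (nat_lit 30) (.e (nat_lit 360451) (nat_lit 0) (.e (nat_lit 5896) (nat_lit 320) .nil)))))) (.g (nat_lit 6) .nil .nil))) 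
(.lf (nat_lit 25265) (.g (nat_lit 2058) (.e (nat_lit 1190) (nat_lit 88) (.e (nat_lit 65623) (nat_lit 12) (.e (nat_lit 385105) (nat_lit 50) (.e (nat_lit 786483) (nat_lit 30) (.e (nat_lit 360454) (nat_lit 0) .nil))))) .nil)))) (.nd (nat_lit 4) (.nd (nat_lit 5) 
(.lf (nat_lit 25225) (.g (nat_lit 3475) (.e (nat_lit 1190) (nat_lit 88) (.e (nat_lit 65622) (nat_lit 12) (.e (nat_lit 385105) (nat_lit 50) (.e (nat_lit 786480) (nat_lit 29) (.e (nat_lit 352309) (nat_lit 21) (.e (nat_lit 57870) (nat_lit 264) .nil)))))) (.g (nat_lit 6) .nil .nil))) 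
(.lf (nat_lit 25257) (.g (nat_lit 1534) (.e (nat_lit 1190) (nat_lit 88) (.e (nat_lit 65623) (nat_lit 12) (.e (nat_lit 385094) (nat_lit 49) (.e (nat_lit 778327) (nat_lit 6) (.e (nat_lit 81948) (nat_lit 21) (.e (nat_lit 57872) (nat_lit 264) .nil)))))) (.g (nat_lit 4) .nil .nil)))) (.nd (nat_lit 5) 
(.lf (nat_lit 25241) (.g (nat_lit 1908) (.e (nat_lit 1190) (nat_lit 88) (.e (nat_lit 65622) (nat_lit 12) (.e (nat_lit 385106) (nat_lit 50) (.e (nat_lit 786479) (nat_lit 29) (.e (nat_lit 352309) (nat_lit 21) (.e (nat_lit 57870) (nat_lit 264) .nil)))))) (.g (nat_lit 4) .nil .nil))) 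
(.lf (nat_lit 25273) (.g (nat_lit 3394) (.e (nat_lit 1190) (nat_lit 88) (.e (nat_lit 65623) (nat_lit 12) (.e (nat_lit 385106) (nat_lit 50) (.e (nat_lit 786483) (nat_lit 30) (.e (nat_lit 360451) (nat_lit 0) (.e (nat_lit 5896) (nat_lit 320) .nil)))))) (.g (nat_lit 0) .nil .nil)))))) (.nd (nat_lit 3) (.nd (nat_lit 4) (.nd (nat_lit 5) 
(.lf (nat_lit 25221) (.g (nat_lit 2028) (.e (nat_lit 1190) (nat_lit 88) (.e (nat_lit 65622) (nat_lit 12) (.e (nat_lit 385094) (nat_lit 49) (.e (nat_lit 778327) (nat_lit 6) (.e (nat_lit 81950) (nat_lit 21) (.e (nat_lit 57872) (nat_lit 264) .nil)))))) (.g (nat_lit 4) .nil .nil))) 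
(.lf (nat_lit 25253) (.g (nat_lit 1091) (.e (nat_lit 1190) (nat_lit 88) (.e (nat_lit 65623) (nat_lit 12) (.e (nat_lit 385093) (nat_lit 49) (.e (nat_lit 778327) (nat_lit 6) .nil)))) .nil))) (.nd (nat_lit 5) 
(.lf (nat_lit 25237) (.g (nat_lit 2497) (.e (nat_lit 1190) (nat_lit 88) (.e (nat_lit 65622) (nat_lit 12) (.e (nat_lit 385105) (nat_lit 50) (.e (nat_lit 786483) (nat_lit 30) (.e (nat_lit 368384) (nat_lit 0) (.e (nat_lit 5906) (nat_lit 320) .nil)))))) (.g (nat_lit 4) .nil .nil))) 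
(.lf (nat_lit 25269) (.g (nat_lit 2729) (.e (nat_lit 1190) (nat_lit 88) (.e (nat_lit 65623) (nat_lit 12) (.e (nat_lit 385106) (nat_lit 50) (.e (nat_lit 786481) (nat_lit 30) (.e (nat_lit 360449) (nat_lit 0) (.e (nat_lit 5896) (nat_lit 320) .nil)))))) (.g (nat_lit 5) .nil .nil))))) (.nd (nat_lit 4) (.nd (nat_lit 5) 
(.lf (nat_lit 25229) (.g (nat_lit 2046) (.e (nat_lit 1190) (nat_lit 88) (.e (nat_lit 65622) (nat_lit 12) (.e (nat_lit 385105) (nat_lit 50) (.e (nat_lit 786481) (nat_lit 30) (.e (nat_lit 360452) (nat_lit 0) (.e (nat_lit 5906) (nat_lit 320) .nil)))))) (.g (nat_lit 4) .nil .nil))) 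
(.lf (nat_lit 25261) (.g (nat_lit 2447) (.e (nat_lit 1190) (nat_lit 88) (.e (nat_lit 65623) (nat_lit 12) (.e (nat_lit 385105) (nat_lit 50) (.e (nat_lit 786480) (nat_lit 29) (.e (nat_lit 352309) (nat_lit 21) (.e (nat_lit 57872) (nat_lit 264) .nil)))))) (.g (nat_lit 4) .nil .nil)))) (.nd (nat_lit 5) 
(.lf (nat_lit 25245) (.g (nat_lit 2002) (.e (nat_lit 1190) (nat_lit 88) (.e (nat_lit 65622) (nat_lit 12) (.e (nat_lit 385106) (nat_lit 50) (.e (nat_lit 786481) (nat_lit 30) (.e (nat_lit 360452) (nat_lit 0) (.e (nat_lit 5906) (nat_lit 320) .nil)))))) (.g (nat_lit 4) .nil .nil))) 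
(.lf (nat_lit 25277) (.g (nat_lit 2169) (.e (nat_lit 1190) (nat_lit 88) (.e (nat_lit 65623) (nat_lit 12) (.e (nat_lit 385106) (nat_lit 50) (.e (nat_lit 786483) (nat_lit 30) (.e (nat_lit 368384) (nat_lit 0) (.e (nat_lit 5906) (nat_lit 320) .nil)))))) (.g (nat_lit 4) .nil .nil))))))) (.nd (nat_lit 2) (.nd (nat_lit 3) (.nd (nat_lit 4) (.nd (nat_lit 5) 
(.lf (nat_lit 25219) (.g (nat_lit 1889) (.e (nat_lit 1190) (nat_lit 88) (.e (nat_lit 65622) (nat_lit 12) (.e (nat_lit 385094) (nat_lit 49) (.e (nat_lit 778327) (nat_lit 6) (.e (nat_lit 81949) (nat_lit 21) (.e (nat_lit 57870) (nat_lit 264) .nil)))))) (.g (nat_lit 4) .nil .nil))) 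
(.lf (nat_lit 25251) (.g (nat_lit 1869) (.e (nat_lit 1190) (nat_lit 88) (.e (nat_lit 65622) (nat_lit 12) (.e (nat_lit 385106) (nat_lit 50) (.e (nat_lit 786483) (nat_lit 30) (.e (nat_lit 368384) (nat_lit 0) .nil))))) .nil))) (.nd (nat_lit 5) 
(.lf (nat_lit 25235) (.g (nat_lit 1931) (.e (nat_lit 1190) (nat_lit 88) (.e (nat_lit 65622) (nat_lit 12) (.e (nat_lit 385105) (nat_lit 50) (.e (nat_lit 786483) (nat_lit 30) (.e (nat_lit 368384) (nat_lit 0) .nil))))) .nil)) 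
(.lf (nat_lit 25267) (.g (nat_lit 1277) (.e (nat_lit 1190) (nat_lit 88) (.e (nat_lit 65623) (nat_lit 12) (.e (nat_lit 385106) (nat_lit 50) (.e (nat_lit 786479) (nat_lit 29) .nil)))) .nil)))) (.nd (nat_lit 4) (.nd (nat_lit 5) 
(.lf (nat_lit 25227) (.g (nat_lit 3920) (.e (nat_lit 1190) (nat_lit 88) (.e (nat_lit 65622) (nat_lit 12) (.e (nat_lit 385105) (nat_lit 50) (.e (nat_lit 786480) (nat_lit 29) (.e (nat_lit 352309) (nat_lit 21) (.e (nat_lit 57872) (nat_lit 264) .nil)))))) (.g (nat_lit 0) .nil .nil))) 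
(.lf (nat_lit 25259) (.g (nat_lit 1768) (.e (nat_lit 1190) (nat_lit 88) (.e (nat_lit 65623) (nat_lit 12) (.e (nat_lit 385094) (nat_lit 49) (.e (nat_lit 778327) (nat_lit 6) (.e (nat_lit 81950) (nat_lit 21) (.e (nat_lit 57870) (nat_lit 264) .nil)))))) (.g (nat_lit 4) .nil .nil)))) (.nd (nat_lit 5) 
(.lf (nat_lit 25243) (.g (nat_lit 3114) (.e (nat_lit 1190) (nat_lit 88) (.e (nat_lit 65622) (nat_lit 12) (.e (nat_lit 385106) (nat_lit 50) (.e (nat_lit 786480) (nat_lit 29) (.e (nat_lit 352309) (nat_lit 21) (.e (nat_lit 57871) (nat_lit 264) .nil)))))) (.g (nat_lit 5) .nil .nil))) 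
(.lf (nat_lit 25275) (.g (nat_lit 2945) (.e (nat_lit 1190) (nat_lit 88) (.e (nat_lit 65623) (nat_lit 12) (.e (nat_lit 385106) (nat_lit 50) (.e (nat_lit 786483) (nat_lit 30) (.e (nat_lit 360453) (nat_lit 0) (.e (nat_lit 5907) (nat_lit 320) .nil)))))) (.g (nat_lit 5) .nil .nil)))))) (.nd (nat_lit 3) (.nd (nat_lit 4) (.nd (nat_lit 5) 
(.lf (nat_lit 25223) (.g (nat_lit 2664) (.e (nat_lit 1190) (nat_lit 88) (.e (nat_lit 65622) (nat_lit 12) (.e (nat_lit 385105) (nat_lit 50) (.e (nat_lit 786478) (nat_lit 29) (.e (nat_lit 352309) (nat_lit 21) (.e (nat_lit 57871) (nat_lit 264) .nil)))))) (.g (nat_lit 5) .nil .nil))) 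
(.lf (nat_lit 25255) (.g (nat_lit 2940) (.e (nat_lit 1190) (nat_lit 88) (.e (nat_lit 65623) (nat_lit 12) (.e (nat_lit 385094) (nat_lit 49) (.e (nat_lit 778326) (nat_lit 6) (.e (nat_lit 81950) (nat_lit 21) (.e (nat_lit 57873) (nat_lit 264) .nil)))))) (.g (nat_lit 0) .nil .nil)))) (.nd (nat_lit 5) 
(.lf (nat_lit 25239) (.g (nat_lit 2159) (.e (nat_lit 1190) (nat_lit 88) (.e (nat_lit 65622) (nat_lit 12) (.e (nat_lit 385106) (nat_lit 50) (.e (nat_lit 786478) (nat_lit 29) (.e (nat_lit 352309) (nat_lit 21) (.e (nat_lit 57870) (nat_lit 264) .nil)))))) (.g (nat_lit 4) .nil .nil))) 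
(.lf (nat_lit 25271) (.g (nat_lit 2055) (.e (nat_lit 1190) (nat_lit 88) (.e (nat_lit 65623) (nat_lit 12) (.e (nat_lit 385106) (nat_lit 50) (.e (nat_lit 786481) (nat_lit 30) (.e (nat_lit 368384) (nat_lit 0) (.e (nat_lit 5905) (nat_lit 320) .nil)))))) (.g (nat_lit 4) .nil .nil))))) (.nd (nat_lit 4) (.nd (nat_lit 5) 
(.lf (nat_lit 25231) (.g (nat_lit 1647) (.e (nat_lit 1190) (nat_lit 88) (.e (nat_lit 65622) (nat_lit 12) (.e (nat_lit 385105) (nat_lit 50) (.e (nat_lit 786481) (nat_lit 30) (.e (nat_lit 368384) (nat_lit 0) (.e (nat_lit 5907) (nat_lit 320) .nil)))))) (.g (nat_lit 4) .nil .nil))) 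
(.lf (nat_lit 25263) (.g (nat_lit 2021) (.e (nat_lit 1190) (nat_lit 88) (.e (nat_lit 65623) (nat_lit 12) (.e (nat_lit 385105) (nat_lit 50) (.e (nat_lit 786481) (nat_lit 30) (.e (nat_lit 360453) (nat_lit 0) (.e (nat_lit 5907) (nat_lit 320) .nil)))))) (.g (nat_lit 4) .nil .nil)))) (.nd (nat_lit 5) 
(.lf (nat_lit 25247) (.g (nat_lit 2046) (.e (nat_lit 1190) (nat_lit 88) (.e (nat_lit 65622) (nat_lit 12) (.e (nat_lit 385106) (nat_lit 50) (.e (nat_lit 786481) (nat_lit 30) (.e (nat_lit 368384) (nat_lit 0) (.e (nat_lit 5902) (nat_lit 320) .nil)))))) (.g (nat_lit 4) .nil .nil))) 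
(.lf (nat_lit 25279) (.g (nat_lit 2983) (.e (nat_lit 1190) (nat_lit 88) (.e (nat_lit 65624) (nat_lit 12) (.e (nat_lit 385092) (nat_lit 49) (.e (nat_lit 778326) (nat_lit 6) (.e (nat_lit 81948) (nat_lit 21) (.e (nat_lit 57873) (nat_lit 264) .nil)))))) (.g (nat_lit 0) .nil .nil)))))))))

noncomputable def tv357 : DT := (.nd (nat_lit 0) (.nd (nat_lit 1) (.nd (nat_lit 2) (.nd (nat_lit 3) (.nd (nat_lit 4) (.nd (nat_lit 5) 
(.lf (nat_lit 25280) (.g (nat_lit 2377) (.e (nat_lit 1190) (nat_lit 88) (.e (nat_lit 65624) (nat_lit 12) (.e (nat_lit 385092) (nat_lit 49) (.e (nat_lit 778326) (nat_lit 6) (.e (nat_lit 81950) (nat_lit 21) (.e (nat_lit 57871) (nat_lit 264) .nil)))))) (.g (nat_lit 5) .nil .nil))) 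
(.lf (nat_lit 25312) (.g (nat_lit 2434) (.e (nat_lit 1190) (nat_lit 88) (.e (nat_lit 65624) (nat_lit 12) (.e (nat_lit 385105) (nat_lit 50) (.e (nat_lit 786478) (nat_lit 29) (.e (nat_lit 352307) (nat_lit 21) (.e (nat_lit 57873) (nat_lit 264) .nil)))))) (.g (nat_lit 4) .nil .nil)))) (.nd (nat_lit 5) 
(.lf (nat_lit 25296) (.g (nat_lit 2812) (.e (nat_lit 1190) (nat_lit 88) (.e (nat_lit 65624) (nat_lit 12) (.e (nat_lit 385093) (nat_lit 49) (.e (nat_lit 778327) (nat_lit 6) (.e (nat_lit 81950) (nat_lit 21) (.e (nat_lit 57873) (nat_lit 264) .nil)))))) (.g (nat_lit 5) .nil .nil))) 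
(.lf (nat_lit 25328) (.g (nat_lit 2006) (.e (nat_lit 1190) (nat_lit 88) (.e (nat_lit 65624) (nat_lit 12) (.e (nat_lit 385105) (nat_lit 50) (.e (nat_lit 786481) (nat_lit 30) (.e (nat_lit 368384) (nat_lit 0) (.e (nat_lit 5907) (nat_lit 320) .nil)))))) (.g (nat_lit 4) .nil .nil))))) (.nd (nat_lit 4) (.nd (nat_lit 5) 
(.lf (nat_lit 25288) (.g (nat_lit 2632) (.e (nat_lit 1190) (nat_lit 88) (.e (nat_lit 65624) (nat_lit 12) (.e (nat_lit 385093) (nat_lit 49) (.e (nat_lit 778326) (nat_lit 6) (.e (nat_lit 81950) (nat_lit 21) (.e (nat_lit 57871) (nat_lit 264) .nil)))))) (.g (nat_lit 5) .nil .nil))) 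
(.lf (nat_lit 25320) (.g (nat_lit 4080) (.e (nat_lit 1190) (nat_lit 88) (.e (nat_lit 65624) (nat_lit 12) (.e (nat_lit 385105) (nat_lit 50) (.e (nat_lit 786480) (nat_lit 29) (.e (nat_lit 352309) (nat_lit 21) (.e (nat_lit 57872) (nat_lit 264) .nil)))))) (.g (nat_lit 6) .nil .nil)))) (.nd (nat_lit 5) 
(.lf (nat_lit 25304) (.g (nat_lit 2195) (.e (nat_lit 1190) (nat_lit 88) (.e (nat_lit 65624) (nat_lit 12) (.e (nat_lit 385094) (nat_lit 49) (.e (nat_lit 778327) (nat_lit 6) (.e (nat_lit 81948) (nat_lit 21) (.e (nat_lit 57872) (nat_lit 264) .nil)))))) (.g (nat_lit 4) .nil .nil))) 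
(.lf (nat_lit 25336) (.g (nat_lit 3864) (.e (nat_lit 1190) (nat_lit 88) (.e (nat_lit 65624) (nat_lit 12) (.e (nat_lit 385105) (nat_lit 50) (.e (nat_lit 786483) (nat_lit 30) (.e (nat_lit 360454) (nat_lit 0) (.e (nat_lit 5907) (nat_lit 320) .nil)))))) (.g (nat_lit 6) .nil .nil)))))) (.nd (nat_lit 3) (.nd (nat_lit 4) (.nd (nat_lit 5) 
(.lf (nat_lit 25284) (.g (nat_lit 1922) (.e (nat_lit 1190) (nat_lit 88) (.e (nat_lit 65624) (nat_lit 12) (.e (nat_lit 385092) (nat_lit 49) (.e (nat_lit 778327) (nat_lit 6) (.e (nat_lit 81950) (nat_lit 21) (.e (nat_lit 57873) (nat_lit 264) .nil)))))) (.g (nat_lit 4) .nil .nil))) 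
(.lf (nat_lit 25316) (.g (nat_lit 3461) (.e (nat_lit 1190) (nat_lit 88) (.e (nat_lit 65624) (nat_lit 12) (.e (nat_lit 385105) (nat_lit 50) (.e (nat_lit 786478) (nat_lit 29) (.e (nat_lit 352309) (nat_lit 21) (.e (nat_lit 57873) (nat_lit 264) .nil)))))) (.g (nat_lit 5) .nil .nil)))) (.nd (nat_lit 5) 
(.lf (nat_lit 25300) (.g (nat_lit 2947) (.e (nat_lit 1190) (nat_lit 88) (.e (nat_lit 65624) (nat_lit 12) (.e (nat_lit 385094) (nat_lit 49) (.e (nat_lit 778326) (nat_lit 6) (.e (nat_lit 81950) (nat_lit 21) (.e (nat_lit 57870) (nat_lit 264) .nil)))))) (.g (nat_lit 6) .nil .nil))) 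
(.lf (nat_lit 25332) (.g (nat_lit 2697) (.e (nat_lit 1190) (nat_lit 88) (.e (nat_lit 65624) (nat_lit 12) (.e (nat_lit 385105) (nat_lit 50) (.e (nat_lit 786483) (nat_lit 30) (.e (nat_lit 360452) (nat_lit 0) (.e (nat_lit 5906) (nat_lit 320) .nil)))))) (.g (nat_lit 4) .nil .nil))))) (.nd (nat_lit 4) (.nd (nat_lit 5) 
(.lf (nat_lit 25292) (.g (nat_lit 2731) (.e (nat_lit 1190) (nat_lit 88) (.e (nat_lit 65624) (nat_lit 12) (.e (nat_lit 385093) (nat_lit 49) (.e (nat_lit 778327) (nat_lit 6) (.e (nat_lit 81949) (nat_lit 21) (.e (nat_lit 57870) (nat_lit 264) .nil)))))) (.g (nat_lit 5) .nil .nil))) 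
(.lf (nat_lit 25324) (.g (nat_lit 2720) (.e (nat_lit 1190) (nat_lit 88) (.e (nat_lit 65624) (nat_lit 12) (.e (nat_lit 385105) (nat_lit 50) (.e (nat_lit 786481) (nat_lit 30) (.e (nat_lit 360452) (nat_lit 0) (.e (nat_lit 5906) (nat_lit 320) .nil)))))) (.g (nat_lit 5) .nil .nil)))) (.nd (nat_lit 5) 
(.lf (nat_lit 25308) (.g (nat_lit 2668) (.e (nat_lit 1190) (nat_lit 88) (.e (nat_lit 65624) (nat_lit 12) (.e (nat_lit 385104) (nat_lit 50) (.e (nat_lit 786480) (nat_lit 29) (.e (nat_lit 352309) (nat_lit 21) (.e (nat_lit 57870) (nat_lit 264) .nil)))))) (.g (nat_lit 5) .nil .nil))) 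
(.lf (nat_lit 25340) (.g (nat_lit 2989) (.e (nat_lit 1190) (nat_lit 88) (.e (nat_lit 65624) (nat_lit 12) (.e (nat_lit 385106) (nat_lit 50) (.e (nat_lit 786478) (nat_lit 29) (.e (nat_lit 352309) (nat_lit 21) (.e (nat_lit 57871) (nat_lit 264) .nil)))))) (.g (nat_lit 4) .nil .nil))))))) (.nd (nat_lit 2) (.nd (nat_lit 3) (.nd (nat_lit 4) (.nd (nat_lit 5) 
(.lf (nat_lit 25282) (.g (nat_lit 959) (.e (nat_lit 1190) (nat_lit 88) (.e (nat_lit 65624) (nat_lit 12) (.e (nat_lit 385092) (nat_lit 49) (.e (nat_lit 778327) (nat_lit 6) .nil)))) .nil)) 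
(.lf (nat_lit 25314) (.g (nat_lit 3264) (.e (nat_lit 1190) (nat_lit 88) (.e (nat_lit 65624) (nat_lit 12) (.e (nat_lit 385105) (nat_lit 50) (.e (nat_lit 786478) (nat_lit 29) (.e (nat_lit 352309) (nat_lit 21) (.e (nat_lit 57871) (nat_lit 264) .nil)))))) (.g (nat_lit 5) .nil .nil)))) (.nd (nat_lit 5) 
(.lf (nat_lit 25298) (.g (nat_lit 2687) (.e (nat_lit 1190) (nat_lit 88) (.e (nat_lit 65624) (nat_lit 12) (.e (nat_lit 385094) (nat_lit 49) (.e (nat_lit 778326) (nat_lit 6) (.e (nat_lit 81948) (nat_lit 21) (.e (nat_lit 57871) (nat_lit 264) .nil)))))) (.g (nat_lit 5) .nil .nil))) 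
(.lf (nat_lit 25330) (.g (nat_lit 4155) (.e (nat_lit 1190) (nat_lit 88) (.e (nat_lit 65624) (nat_lit 12) (.e (nat_lit 385105) (nat_lit 50) (.e (nat_lit 786483) (nat_lit 30) (.e (nat_lit 360451) (nat_lit 0) (.e (nat_lit 5896) (nat_lit 320) .nil)))))) (.g (nat_lit 6) .nil .nil))))) (.nd (nat_lit 4) (.nd (nat_lit 5) 
(.lf (nat_lit 25290) (.g (nat_lit 2187) (.e (nat_lit 1190) (nat_lit 88) (.e (nat_lit 65624) (nat_lit 12) (.e (nat_lit 385093) (nat_lit 49) (.e (nat_lit 778327) (nat_lit 6) (.e (nat_lit 81948) (nat_lit 21) (.e (nat_lit 57872) (nat_lit 264) .nil)))))) (.g (nat_lit 4) .nil .nil))) 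
(.lf (nat_lit 25322) (.g (nat_lit 3637) (.e (nat_lit 1190) (nat_lit 88) (.e (nat_lit 65624) (nat_lit 12) (.e (nat_lit 385105) (nat_lit 50) (.e (nat_lit 786481) (nat_lit 30) (.e (nat_lit 360449) (nat_lit 0) (.e (nat_lit 5896) (nat_lit 320) .nil)))))) (.g (nat_lit 6) .nil .nil)))) (.nd (nat_lit 5) 
(.lf (nat_lit 25306) (.g (nat_lit 2457) (.e (nat_lit 1190) (nat_lit 88) (.e (nat_lit 65624) (nat_lit 12) (.e (nat_lit 385094) (nat_lit 49) (.e (nat_lit 778327) (nat_lit 6) (.e (nat_lit 81950) (nat_lit 21) (.e (nat_lit 57870) (nat_lit 264) .nil)))))) (.g (nat_lit 4) .nil .nil))) 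
(.lf (nat_lit 25338) (.g (nat_lit 2029) (.e (nat_lit 1190) (nat_lit 88) (.e (nat_lit 65624) (nat_lit 12) (.e (nat_lit 385105) (nat_lit 50) (.e (nat_lit 786483) (nat_lit 30) (.e (nat_lit 368384) (nat_lit 0) (.e (nat_lit 5907) (nat_lit 320) .nil)))))) (.g (nat_lit 4) .nil .nil)))))) (.nd (nat_lit 3) (.nd (nat_lit 4) (.nd (nat_lit 5) 
(.lf (nat_lit 25286) (.g (nat_lit 2610) (.e (nat_lit 1190) (nat_lit 88) (.e (nat_lit 65624) (nat_lit 12) (.e (nat_lit 385093) (nat_lit 49) (.e (nat_lit 778326) (nat_lit 6) (.e (nat_lit 81948) (nat_lit 21) (.e (nat_lit 57870) (nat_lit 264) .nil)))))) (.g (nat_lit 6) .nil .nil))) 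
(.lf (nat_lit 25318) (.g (nat_lit 3663) (.e (nat_lit 1190) (nat_lit 88) (.e (nat_lit 65624) (nat_lit 12) (.e (nat_lit 385105) (nat_lit 50) (.e (nat_lit 786480) (nat_lit 29) (.e (nat_lit 352309) (nat_lit 21) (.e (nat_lit 57870) (nat_lit 264) .nil)))))) (.g (nat_lit 6) .nil .nil)))) (.nd (nat_lit 5) 
(.lf (nat_lit 25302) (.g (nat_lit 3251) (.e (nat_lit 1190) (nat_lit 88) (.e (nat_lit 65624) (nat_lit 12) (.e (nat_lit 385094) (nat_lit 49) (.e (nat_lit 778326) (nat_lit 6) (.e (nat_lit 81950) (nat_lit 21) (.e (nat_lit 57872) (nat_lit 264) .nil)))))) (.g (nat_lit 6) .nil .nil))) 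
(.lf (nat_lit 25334) (.g (nat_lit 3779) (.e (nat_lit 1190) (nat_lit 88) (.e (nat_lit 65624) (nat_lit 12) (.e (nat_lit 385105) (nat_lit 50) (.e (nat_lit 786483) (nat_lit 30) (.e (nat_lit 360453) (nat_lit 0) (.e (nat_lit 5907) (nat_lit 320) .nil)))))) (.g (nat_lit 6) .nil .nil))))) (.nd (nat_lit 4) (.nd (nat_lit 5) 
(.lf (nat_lit 25294) (.g (nat_lit 2321) (.e (nat_lit 1190) (nat_lit 88) (.e (nat_lit 65624) (nat_lit 12) (.e (nat_lit 385093) (nat_lit 49) (.e (nat_lit 778327) (nat_lit 6) (.e (nat_lit 81950) (nat_lit 21) (.e (nat_lit 57870) (nat_lit 264) .nil)))))) (.g (nat_lit 4) .nil .nil))) 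
(.lf (nat_lit 25326) (.g (nat_lit 2199) (.e (nat_lit 1190) (nat_lit 88) (.e (nat_lit 65624) (nat_lit 12) (.e (nat_lit 385105) (nat_lit 50) (.e (nat_lit 786481) (nat_lit 30) (.e (nat_lit 360453) (nat_lit 0) (.e (nat_lit 5905) (nat_lit 320) .nil)))))) (.g (nat_lit 4) .nil .nil)))) (.nd (nat_lit 5) 
(.lf (nat_lit 25310) (.g (nat_lit 1297) (.e (nat_lit 1190) (nat_lit 88) (.e (nat_lit 65624) (nat_lit 12) (.e (nat_lit 385105) (nat_lit 50) (.e (nat_lit 786478) (nat_lit 29) .nil)))) .nil)) 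
(.lf (nat_lit 25342) (.g (nat_lit 2290) (.e (nat_lit 1190) (nat_lit 88) (.e (nat_lit 65624) (nat_lit 12) (.e (nat_lit 385106) (nat_lit 50) (.e (nat_lit 786480) (nat_lit 29) (.e (nat_lit 352308) (nat_lit 21) .nil))))) .nil))))))) (.nd (nat_lit 1) (.nd (nat_lit 2) (.nd (nat_lit 3) (.nd (nat_lit 4) (.nd (nat_lit 5) 
(.lf (nat_lit 25281) (.g (nat_lit 3030) (.e (nat_lit 1190) (nat_lit 88) (.e (nat_lit 65624) (nat_lit 12) (.e (nat_lit 385092) (nat_lit 49) (.e (nat_lit 778326) (nat_lit 6) (.e (nat_lit 81950) (nat_lit 21) (.e (nat_lit 57873) (nat_lit 264) .nil)))))) (.g (nat_lit 0) .nil .nil))) 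
(.lf (nat_lit 25313) (.g (nat_lit 3201) (.e (nat_lit 1190) (nat_lit 88) (.e (nat_lit 65624) (nat_lit 12) (.e (nat_lit 385105) (nat_lit 50) (.e (nat_lit 786478) (nat_lit 29) (.e (nat_lit 352309) (nat_lit 21) (.e (nat_lit 57870) (nat_lit 264) .nil)))))) (.g (nat_lit 5) .nil .nil)))) (.nd (nat_lit 5) 
(.lf (nat_lit 25297) (.g (nat_lit 2113) (.e (nat_lit 1190) (nat_lit 88) (.e (nat_lit 65624) (nat_lit 12) (.e (nat_lit 385093) (nat_lit 49) (.e (nat_lit 778331) (nat_lit 8) .nil)))) .nil)) 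
(.lf (nat_lit 25329) (.g (nat_lit 3038) (.e (nat_lit 1190) (nat_lit 88) (.e (nat_lit 65624) (nat_lit 12) (.e (nat_lit 385105) (nat_lit 50) (.e (nat_lit 786483) (nat_lit 30) (.e (nat_lit 360450) (nat_lit 0) (.e (nat_lit 5896) (nat_lit 320) .nil)))))) (.g (nat_lit 5) .nil .nil))))) (.nd (nat_lit 4) (.nd (nat_lit 5) 
(.lf (nat_lit 25289) (.g (nat_lit 3191) (.e (nat_lit 1190) (nat_lit 88) (.e (nat_lit 65624) (nat_lit 12) (.e (nat_lit 385093) (nat_lit 49) (.e (nat_lit 778326) (nat_lit 6) (.e (nat_lit 81950) (nat_lit 21) (.e (nat_lit 57873) (nat_lit 264) .nil)))))) (.g (nat_lit 0) .nil .nil))) 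
(.lf (nat_lit 25321) (.g (nat_lit 3770) (.e (nat_lit 1190) (nat_lit 88) (.e (nat_lit 65624) (nat_lit 12) (.e (nat_lit 385105) (nat_lit 50) (.e (nat_lit 786480) (nat_lit 29) (.e (nat_lit 352309) (nat_lit 21) (.e (nat_lit 57873) (nat_lit 264) .nil)))))) (.g (nat_lit 5) .nil .nil)))) (.nd (nat_lit 5) 
(.lf (nat_lit 25305) (.g (nat_lit 2676) (.e (nat_lit 1190) (nat_lit 88) (.e (nat_lit 65624) (nat_lit 12) (.e (nat_lit 385094) (nat_lit 49) (.e (nat_lit 778327) (nat_lit 6) (.e (nat_lit 81949) (nat_lit 21) (.e (nat_lit 57870) (nat_lit 264) .nil)))))) (.g (nat_lit 5) .nil .nil))) 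
(.lf (nat_lit 25337) (.g (nat_lit 2853) (.e (nat_lit 1190) (nat_lit 88) (.e (nat_lit 65624) (nat_lit 12) (.e (nat_lit 385105) (nat_lit 50) (.e (nat_lit 786483) (nat_lit 30) (.e (nat_lit 368384) (nat_lit 0) (.e (nat_lit 5902) (nat_lit 320) .nil)))))) (.g (nat_lit 4) .nil .nil)))))) (.nd (nat_lit 3) (.nd (nat_lit 4) (.nd (nat_lit 5) 
(.lf (nat_lit 25285) (.g (nat_lit 1174) (.e (nat_lit 1190) (nat_lit 88) (.e (nat_lit 65624) (nat_lit 12) (.e (nat_lit 385093) (nat_lit 49) (.e (nat_lit 778323) (nat_lit 5) .nil)))) .nil)) 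
(.lf (nat_lit 25317) (.g (nat_lit 2493) (.e (nat_lit 1190) (nat_lit 88) (.e (nat_lit 65624) (nat_lit 12) (.e (nat_lit 385105) (nat_lit 50) (.e (nat_lit 786479) (nat_lit 29) (.e (nat_lit 352309) (nat_lit 21) (.e (nat_lit 57872) (nat_lit 264) .nil)))))) (.g (nat_lit 5) .nil .nil)))) (.nd (nat_lit 5) 
(.lf (nat_lit 25301) (.g (nat_lit 2826) (.e (nat_lit 1190) (nat_lit 88) (.e (nat_lit 65624) (nat_lit 12) (.e (nat_lit 385094) (nat_lit 49) (.e (nat_lit 778326) (nat_lit 6) (.e (nat_lit 81950) (nat_lit 21) (.e (nat_lit 57871) (nat_lit 264) .nil)))))) (.g (nat_lit 5) .nil .nil))) 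
(.lf (nat_lit 25333) (.g (nat_lit 3966) (.e (nat_lit 1190) (nat_lit 88) (.e (nat_lit 65624) (nat_lit 12) (.e (nat_lit 385105) (nat_lit 50) (.e (nat_lit 786483) (nat_lit 30) (.e (nat_lit 360452) (nat_lit 0) (.e (nat_lit 5907) (nat_lit 320) .nil)))))) (.g (nat_lit 6) .nil .nil))))) (.nd (nat_lit 4) (.nd (nat_lit 5) 
(.lf (nat_lit 25293) (.g (nat_lit 2823) (.e (nat_lit 1190) (nat_lit 88) (.e (nat_lit 65624) (nat_lit 12) (.e (nat_lit 385093) (nat_lit 49) (.e (nat_lit 778327) (nat_lit 6) (.e (nat_lit 81949) (nat_lit 21) (.e (nat_lit 57873) (nat_lit 264) .nil)))))) (.g (nat_lit 5) .nil .nil))) 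
(.lf (nat_lit 25325) (.g (nat_lit 3864) (.e (nat_lit 1190) (nat_lit 88) (.e (nat_lit 65624) (nat_lit 12) (.e (nat_lit 385105) (nat_lit 50) (.e (nat_lit 786481) (nat_lit 30) (.e (nat_lit 360452) (nat_lit 0) (.e (nat_lit 5907) (nat_lit 320) .nil)))))) (.g (nat_lit 0) .nil .nil)))) (.nd (nat_lit 5) 
(.lf (nat_lit 25309) (.g (nat_lit 2743) (.e (nat_lit 1190) (nat_lit 88) (.e (nat_lit 65624) (nat_lit 12) (.e (nat_lit 385104) (nat_lit 50) (.e (nat_lit 786480) (nat_lit 29) (.e (nat_lit 352309) (nat_lit 21) (.e (nat_lit 57871) (nat_lit 264) .nil)))))) (.g (nat_lit 5) .nil .nil))) 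
(.lf (nat_lit 25341) (.g (nat_lit 3535) (.e (nat_lit 1190) (nat_lit 88) (.e (nat_lit 65624) (nat_lit 12) (.e (nat_lit 385106) (nat_lit 50) (.e (nat_lit 786478) (nat_lit 29) (.e (nat_lit 352309) (nat_lit 21) (.e (nat_lit 57872) (nat_lit 264) .nil)))))) (.g (nat_lit 6) .nil .nil))))))) (.nd (nat_lit 2) (.nd (nat_lit 3) (.nd (nat_lit 4) (.nd (nat_lit 5) 
(.lf (nat_lit 25283) (.g (nat_lit 1961) (.e (nat_lit 1190) (nat_lit 88) (.e (nat_lit 65624) (nat_lit 12) (.e (nat_lit 385092) (nat_lit 49) (.e (nat_lit 778327) (nat_lit 6) (.e (nat_lit 81950) (nat_lit 21) (.e (nat_lit 57872) (nat_lit 264) .nil)))))) (.g (nat_lit 4) .nil .nil))) 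
(.lf (nat_lit 25315) (.g (nat_lit 3777) (.e (nat_lit 1190) (nat_lit 88) (.e (nat_lit 65624) (nat_lit 12) (.e (nat_lit 385105) (nat_lit 50) (.e (nat_lit 786478) (nat_lit 29) (.e (nat_lit 352309) (nat_lit 21) (.e (nat_lit 57872) (nat_lit 264) .nil)))))) (.g (nat_lit 6) .nil .nil)))) (.nd (nat_lit 5) 
(.lf (nat_lit 25299) (.g (nat_lit 3180) (.e (nat_lit 1190) (nat_lit 88) (.e (nat_lit 65624) (nat_lit 12) (.e (nat_lit 385094) (nat_lit 49) (.e (nat_lit 778326) (nat_lit 6) (.e (nat_lit 81948) (nat_lit 21) (.e (nat_lit 57872) (nat_lit 264) .nil)))))) (.g (nat_lit 6) .nil .nil))) 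
(.lf (nat_lit 25331) (.g (nat_lit 3525) (.e (nat_lit 1190) (nat_lit 88) (.e (nat_lit 65624) (nat_lit 12) (.e (nat_lit 385105) (nat_lit 50) (.e (nat_lit 786483) (nat_lit 30) (.e (nat_lit 360452) (nat_lit 0) (.e (nat_lit 5905) (nat_lit 320) .nil)))))) (.g (nat_lit 5) .nil .nil))))) (.nd (nat_lit 4) (.nd (nat_lit 5) 
(.lf (nat_lit 25291) (.g (nat_lit 1928) (.e (nat_lit 1190) (nat_lit 88) (.e (nat_lit 65624) (nat_lit 12) (.e (nat_lit 385093) (nat_lit 49) (.e (nat_lit 778327) (nat_lit 6) (.e (nat_lit 81948) (nat_lit 21) (.e (nat_lit 57873) (nat_lit 264) .nil)))))) (.g (nat_lit 4) .nil .nil))) 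
(.lf (nat_lit 25323) (.g (nat_lit 3759) (.e (nat_lit 1190) (nat_lit 88) (.e (nat_lit 65624) (nat_lit 12) (.e (nat_lit 385105) (nat_lit 50) (.e (nat_lit 786481) (nat_lit 30) (.e (nat_lit 360452) (nat_lit 0) (.e (nat_lit 5905) (nat_lit 320) .nil)))))) (.g (nat_lit 6) .nil .nil)))) (.nd (nat_lit 5) 
(.lf (nat_lit 25307) (.g (nat_lit 2855) (.e (nat_lit 1190) (nat_lit 88) (.e (nat_lit 65624) (nat_lit 12) (.e (nat_lit 385094) (nat_lit 49) (.e (nat_lit 778327) (nat_lit 6) (.e (nat_lit 81950) (nat_lit 21) (.e (nat_lit 57873) (nat_lit 264) .nil)))))) (.g (nat_lit 5) .nil .nil))) 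
(.lf (nat_lit 25339) (.g (nat_lit 2845) (.e (nat_lit 1190) (nat_lit 88) (.e (nat_lit 65624) (nat_lit 12) (.e (nat_lit 385106) (nat_lit 50) (.e (nat_lit 786478) (nat_lit 29) (.e (nat_lit 352309) (nat_lit 21) (.e (nat_lit 57870) (nat_lit 264) .nil)))))) (.g (nat_lit 4) .nil .nil)))))) (.nd (nat_lit 3) (.nd (nat_lit 4) (.nd (nat_lit 5) 
(.lf (nat_lit 25287) (.g (nat_lit 2489) (.e (nat_lit 1190) (nat_lit 88) (.e (nat_lit 65624) (nat_lit 12) (.e (nat_lit 385093) (nat_lit 49) (.e (nat_lit 778326) (nat_lit 6) (.e (nat_lit 81948) (nat_lit 21) (.e (nat_lit 57871) (nat_lit 264) .nil)))))) (.g (nat_lit 5) .nil .nil))) 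
(.lf (nat_lit 25319) (.g (nat_lit 3807) (.e (nat_lit 1190) (nat_lit 88) (.e (nat_lit 65624) (nat_lit 12) (.e (nat_lit 385105) (nat_lit 50) (.e (nat_lit 786480) (nat_lit 29) (.e (nat_lit 352309) (nat_lit 21) (.e (nat_lit 57871) (nat_lit 264) .nil)))))) (.g (nat_lit 6) .nil .nil)))) (.nd (nat_lit 5) 
(.lf (nat_lit 25303) (.g (nat_lit 3379) (.e (nat_lit 1190) (nat_lit 88) (.e (nat_lit 65624) (nat_lit 12) (.e (nat_lit 385094) (nat_lit 49) (.e (nat_lit 778326) (nat_lit 6) (.e (nat_lit 81950) (nat_lit 21) (.e (nat_lit 57873) (nat_lit 264) .nil)))))) (.g (nat_lit 0) .nil .nil))) 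
(.lf (nat_lit 25335) (.g (nat_lit 2065) (.e (nat_lit 1190) (nat_lit 88) (.e (nat_lit 65624) (nat_lit 12) (.e (nat_lit 385105) (nat_lit 50) (.e (nat_lit 786483) (nat_lit 30) (.e (nat_lit 360454) (nat_lit 0) .nil))))) .nil)))) (.nd (nat_lit 4) (.nd (nat_lit 5) 
(.lf (nat_lit 25295) (.g (nat_lit 2872) (.e (nat_lit 1190) (nat_lit 88) (.e (nat_lit 65624) (nat_lit 12) (.e (nat_lit 385093) (nat_lit 49) (.e (nat_lit 778327) (nat_lit 6) (.e (nat_lit 81950) (nat_lit 21) (.e (nat_lit 57872) (nat_lit 264) .nil)))))) (.g (nat_lit 5) .nil .nil))) 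
(.lf (nat_lit 25327) (.g (nat_lit 2643) (.e (nat_lit 1190) (nat_lit 88) (.e (nat_lit 65624) (nat_lit 12) (.e (nat_lit 385105) (nat_lit 50) (.e (nat_lit 786481) (nat_lit 30) (.e (nat_lit 368384) (nat_lit 0) (.e (nat_lit 5902) (nat_lit 320) .nil)))))) (.g (nat_lit 4) .nil .nil)))) (.nd (nat_lit 5) 
(.lf (nat_lit 25311) (.g (nat_lit 2186) (.e (nat_lit 1190) (nat_lit 88) (.e (nat_lit 65624) (nat_lit 12) (.e (nat_lit 385105) (nat_lit 50) (.e (nat_lit 786478) (nat_lit 29) (.e (nat_lit 352307) (nat_lit 21) .nil))))) .nil)) 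
(.lf (nat_lit 25343) (.g (nat_lit 3631) (.e (nat_lit 1190) (nat_lit 88) (.e (nat_lit 65624) (nat_lit 12) (.e (nat_lit 385106) (nat_lit 50) (.e (nat_lit 786480) (nat_lit 29) (.e (nat_lit 352309) (nat_lit 21) (.e (nat_lit 57870) (nat_lit 264) .nil)))))) (.g (nat_lit 6) .nil .nil)))))))))

noncomputable def tv358 : DT := (.nd (nat_lit 0) (.nd (nat_lit 1) (.nd (nat_lit 2) (.nd (nat_lit 3) (.nd (nat_lit 4) (.nd (nat_lit 5) 
(.lf (nat_lit 25344) (.g (nat_lit 3802) (.e (nat_lit 1190) (nat_lit 88) (.e (nat_lit 65624) (nat_lit 12) (.e (nat_lit 385106) (nat_lit 50) (.e (nat_lit 786480) (nat_lit 29) (.e (nat_lit 352309) (nat_lit 21) (.e (nat_lit 57871) (nat_lit 264) .nil)))))) (.g (nat_lit 6) .nil .nil))) 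
(.lf (nat_lit 25376) (.g (nat_lit 2611) (.e (nat_lit 1190) (nat_lit 88) (.e (nat_lit 65627) (nat_lit 13) (.e (nat_lit 393299) (nat_lit 27) (.e (nat_lit 491562) (nat_lit 12) (.e (nat_lit 385047) (nat_lit 21) .nil))))) .nil))) (.nd (nat_lit 5) 
(.lf (nat_lit 25360) (.g (nat_lit 1514) (.e (nat_lit 1190) (nat_lit 88) (.e (nat_lit 65624) (nat_lit 12) (.e (nat_lit 385106) (nat_lit 50) (.e (nat_lit 786485) (nat_lit 32) .nil)))) .nil)) 
(.lf (nat_lit 25392) (.g (nat_lit 3685) (.e (nat_lit 1190) (nat_lit 88) (.e (nat_lit 65627) (nat_lit 13) (.e (nat_lit 393301) (nat_lit 27) (.e (nat_lit 491563) (nat_lit 12) (.e (nat_lit 385047) (nat_lit 21) (.e (nat_lit 4491) (nat_lit 263) .nil)))))) (.g (nat_lit 5) .nil .nil))))) (.nd (nat_lit 4) (.nd (nat_lit 5) 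
(.lf (nat_lit 25352) (.g (nat_lit 4400) (.e (nat_lit 1190) (nat_lit 88) (.e (nat_lit 65624) (nat_lit 12) (.e (nat_lit 385106) (nat_lit 50) (.e (nat_lit 786483) (nat_lit 30) (.e (nat_lit 360451) (nat_lit 0) (.e (nat_lit 5896) (nat_lit 320) .nil)))))) (.g (nat_lit 0) .nil .nil))) 
(.lf (nat_lit 25384) (.g (nat_lit 2638) (.e (nat_lit 1190) (nat_lit 88) (.e (nat_lit 65627) (nat_lit 13) (.e (nat_lit 393301) (nat_lit 27) (.e (nat_lit 491560) (nat_lit 10) (.e (nat_lit 344090) (nat_lit 18) (.e (nat_lit 7236) (nat_lit 382) .nil)))))) (.g (nat_lit 5) .nil .nil)))) (.nd (nat_lit 5) 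
(.lf (nat_lit 25368) (.g (nat_lit 3209) (.e (nat_lit 1190) (nat_lit 88) (.e (nat_lit 65627) (nat_lit 13) (.e (nat_lit 393298) (nat_lit 27) (.e (nat_lit 491566) (nat_lit 12) (.e (nat_lit 385044) (nat_lit 21) .nil))))) .nil)) 
(.lf (nat_lit 25400) (.g (nat_lit 3251) (.e (nat_lit 1190) (nat_lit 88) (.e (nat_lit 65628) (nat_lit 14) (.e (nat_lit 401436) (nat_lit 9) (.e (nat_lit 426542) (nat_lit 29) (.e (nat_lit 352309) (nat_lit 21) (.e (nat_lit 57873) (nat_lit 264) .nil)))))) (.g (nat_lit 0) .nil .nil)))))) (.nd (nat_lit 3) (.nd (nat_lit 4) (.nd (nat_lit 5) 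
(.lf (nat_lit 25348) (.g (nat_lit 2725) (.e (nat_lit 1190) (nat_lit 88) (.e (nat_lit 65624) (nat_lit 12) (.e (nat_lit 385106) (nat_lit 50) (.e (nat_lit 786481) (nat_lit 30) (.e (nat_lit 360452) (nat_lit 0) (.e (nat_lit 5906) (nat_lit 320) .nil)))))) (.g (nat_lit 5) .nil .nil))) 
(.lf (nat_lit 25380) (.g (nat_lit 1668) (.e (nat_lit 1190) (nat_lit 88) (.e (nat_lit 65627) (nat_lit 13) (.e (nat_lit 393301) (nat_lit 27) (.e (nat_lit 491558) (nat_lit 10) (.e (nat_lit 344096) (nat_lit 18) (.e (nat_lit 7236) (nat_lit 382) .nil)))))) (.g (nat_lit 4) .nil .nil)))) (.nd (nat_lit 5) 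
(.lf (nat_lit 25364) (.g (nat_lit 2294) (.e (nat_lit 1190) (nat_lit 88) (.e (nat_lit 65627) (nat_lit 13) (.e (nat_lit 393260) (nat_lit 21) (.e (nat_lit 409646) (nat_lit 18) (.e (nat_lit 303115) (nat_lit 1) (.e (nat_lit 164163) (nat_lit 152) .nil)))))) (.g (nat_lit 4) .nil .nil))) 
(.lf (nat_lit 25396) (.g (nat_lit 2128) (.e (nat_lit 1190) (nat_lit 88) (.e (nat_lit 65628) (nat_lit 14) (.e (nat_lit 401435) (nat_lit 9) (.e (nat_lit 426555) (nat_lit 32) (.e (nat_lit 376857) (nat_lit 21) (.e (nat_lit 57873) (nat_lit 264) .nil)))))) (.g (nat_lit 4) .nil .nil))))) (.nd (nat_lit 4) (.nd (nat_lit 5) 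
(.lf (nat_lit 25356) (.g (nat_lit 3637) (.e (nat_lit 1190) (nat_lit 88) (.e (nat_lit 65624) (nat_lit 12) (.e (nat_lit 385106) (nat_lit 50) (.e (nat_lit 786483) (nat_lit 30) (.e (nat_lit 360453) (nat_lit 0) (.e (nat_lit 5907) (nat_lit 320) .nil)))))) (.g (nat_lit 6) .nil .nil))) 
(.lf (nat_lit 25388) (.g (nat_lit 3070) (.e (nat_lit 1190) (nat_lit 88) (.e (nat_lit 65627) (nat_lit 13) (.e (nat_lit 393301) (nat_lit 27) (.e (nat_lit 491563) (nat_lit 12) (.e (nat_lit 385045) (nat_lit 21) (.e (nat_lit 4490) (nat_lit 263) .nil)))))) (.g (nat_lit 4) .nil .nil)))) (.nd (nat_lit 5) 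
(.lf (nat_lit 25372) (.g (nat_lit 3952) (.e (nat_lit 1190) (nat_lit 88) (.e (nat_lit 65627) (nat_lit 13) (.e (nat_lit 393298) (nat_lit 27) (.e (nat_lit 491566) (nat_lit 12) (.e (nat_lit 385046) (nat_lit 21) (.e (nat_lit 4490) (nat_lit 263) .nil)))))) (.g (nat_lit 5) .nil .nil))) 
(.lf (nat_lit 25404) (.g (nat_lit 3134) (.e (nat_lit 1190) (nat_lit 88) (.e (nat_lit 65628) (nat_lit 14) (.e (nat_lit 401436) (nat_lit 9) (.e (nat_lit 426555) (nat_lit 32) (.e (nat_lit 376859) (nat_lit 21) (.e (nat_lit 57872) (nat_lit 264) .nil)))))) (.g (nat_lit 0) .nil .nil))))))) (.nd (nat_lit 2) (.nd (nat_lit 3) (.nd (nat_lit 4) (.nd (nat_lit 5) 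
(.lf (nat_lit 25346) (.g (nat_lit 4012) (.e (nat_lit 1190) (nat_lit 88) (.e (nat_lit 65624) (nat_lit 12) (.e (nat_lit 385106) (nat_lit 50) (.e (nat_lit 786481) (nat_lit 30) (.e (nat_lit 360449) (nat_lit 0) (.e (nat_lit 5896) (nat_lit 320) .nil)))))) (.g (nat_lit 6) .nil .nil))) 
(.lf (nat_lit 25378) (.g (nat_lit 2050) (.e (nat_lit 1190) (nat_lit 88) (.e (nat_lit 65627) (nat_lit 13) (.e (nat_lit 393301) (nat_lit 27) (.e (nat_lit 491558) (nat_lit 10) (.e (nat_lit 344090) (nat_lit 18) (.e (nat_lit 7236) (nat_lit 382) .nil)))))) (.g (nat_lit 4) .nil .nil)))) (.nd (nat_lit 5) 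
(.lf (nat_lit 25362) (.g (nat_lit 1662) (.e (nat_lit 1190) (nat_lit 88) (.e (nat_lit 65627) (nat_lit 13) (.e (nat_lit 393234) (nat_lit 17) (.e (nat_lit 7591) (nat_lit 407) (.e (nat_lit 81664) (nat_lit 0) .nil))))) .nil)) 
(.lf (nat_lit 25394) (.g (nat_lit 2237) (.e (nat_lit 1190) (nat_lit 88) (.e (nat_lit 65628) (nat_lit 14) (.e (nat_lit 401434) (nat_lit 9) (.e (nat_lit 426555) (nat_lit 32) (.e (nat_lit 376859) (nat_lit 21) .nil))))) .nil)))) (.nd (nat_lit 4) (.nd (nat_lit 5) 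
(.lf (nat_lit 25354) (.g (nat_lit 2601) (.e (nat_lit 1190) (nat_lit 88) (.e (nat_lit 65624) (nat_lit 12) (.e (nat_lit 385106) (nat_lit 50) (.e (nat_lit 786483) (nat_lit 30) (.e (nat_lit 360452) (nat_lit 0) (.e (nat_lit 5906) (nat_lit 320) .nil)))))) (.g (nat_lit 4) .nil .nil))) 
(.lf (nat_lit 25386) (.g (nat_lit 2426) (.e (nat_lit 1190) (nat_lit 88) (.e (nat_lit 65627) (nat_lit 13) (.e (nat_lit 393301) (nat_lit 27) (.e (nat_lit 491560) (nat_lit 10) (.e (nat_lit 352000) (nat_lit 18) .nil))))) .nil))) (.nd (nat_lit 5) 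
(.lf (nat_lit 25370) (.g (nat_lit 3955) (.e (nat_lit 1190) (nat_lit 88) (.e (nat_lit 65627) (nat_lit 13) (.e (nat_lit 393298) (nat_lit 27) (.e (nat_lit 491566) (nat_lit 12) (.e (nat_lit 385045) (nat_lit 21) (.e (nat_lit 4490) (nat_lit 263) .nil)))))) (.g (nat_lit 0) .nil .nil))) 
(.lf (nat_lit 25402) (.g (nat_lit 1718) (.e (nat_lit 1190) (nat_lit 88) (.e (nat_lit 65628) (nat_lit 14) (.e (nat_lit 401436) (nat_lit 9) (.e (nat_lit 426544) (nat_lit 30) (.e (nat_lit 368384) (nat_lit 0) (.e (nat_lit 5902) (nat_lit 320) .nil)))))) (.g (nat_lit 4) .nil .nil)))))) (.nd (nat_lit 3) (.nd (nat_lit 4) (.nd (nat_lit 5) 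
(.lf (nat_lit 25350) (.g (nat_lit 2021) (.e (nat_lit 1190) (nat_lit 88) (.e (nat_lit 65624) (nat_lit 12) (.e (nat_lit 385106) (nat_lit 50) (.e (nat_lit 786481) (nat_lit 30) (.e (nat_lit 368384) (nat_lit 0) (.e (nat_lit 5907) (nat_lit 320) .nil)))))) (.g (nat_lit 4) .nil .nil))) 
(.lf (nat_lit 25382) (.g (nat_lit 2672) (.e (nat_lit 1190) (nat_lit 88) (.e (nat_lit 65627) (nat_lit 13) (.e (nat_lit 393301) (nat_lit 27) (.e (nat_lit 491560) (nat_lit 10) (.e (nat_lit 344089) (nat_lit 18) .nil))))) .nil))) (.nd (nat_lit 5) 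
(.lf (nat_lit 25366) (.g (nat_lit 2123) (.e (nat_lit 1190) (nat_lit 88) (.e (nat_lit 65627) (nat_lit 13) (.e (nat_lit 393260) (nat_lit 21) (.e (nat_lit 409649) (nat_lit 18) (.e (nat_lit 303115) (nat_lit 1) .nil))))) .nil)) 
(.lf (nat_lit 25398) (.g (nat_lit 3097) (.e (nat_lit 1190) (nat_lit 88) (.e (nat_lit 65628) (nat_lit 14) (.e (nat_lit 401436) (nat_lit 9) (.e (nat_lit 426542) (nat_lit 29) (.e (nat_lit 352307) (nat_lit 21) (.e (nat_lit 57871) (nat_lit 264) .nil)))))) (.g (nat_lit 0) .nil .nil))))) (.nd (nat_lit 4) (.nd (nat_lit 5) 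
(.lf (nat_lit 25358) (.g (nat_lit 3859) (.e (nat_lit 1190) (nat_lit 88) (.e (nat_lit 65624) (nat_lit 12) (.e (nat_lit 385106) (nat_lit 50) (.e (nat_lit 786483) (nat_lit 30) (.e (nat_lit 360454) (nat_lit 0) (.e (nat_lit 5907) (nat_lit 320) .nil)))))) (.g (nat_lit 6) .nil .nil))) 
(.lf (nat_lit 25390) (.g (nat_lit 3373) (.e (nat_lit 1190) (nat_lit 88) (.e (nat_lit 65627) (nat_lit 13) (.e (nat_lit 393301) (nat_lit 27) (.e (nat_lit 491563) (nat_lit 12) (.e (nat_lit 385046) (nat_lit 21) (.e (nat_lit 4491) (nat_lit 263) .nil)))))) (.g (nat_lit 4) .nil .nil)))) (.nd (nat_lit 5) 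
(.lf (nat_lit 25374) (.g (nat_lit 3513) (.e (nat_lit 1190) (nat_lit 88) (.e (nat_lit 65627) (nat_lit 13) (.e (nat_lit 393298) (nat_lit 27) (.e (nat_lit 491566) (nat_lit 12) (.e (nat_lit 385050) (nat_lit 21) .nil))))) .nil)) 
(.lf (nat_lit 25406) (.g (nat_lit 3006) (.e (nat_lit 1190) (nat_lit 88) (.e (nat_lit 65628) (nat_lit 14) (.e (nat_lit 401436) (nat_lit 9) (.e (nat_lit 426555) (nat_lit 32) (.e (nat_lit 376860) (nat_lit 21) (.e (nat_lit 57870) (nat_lit 264) .nil)))))) (.g (nat_lit 6) .nil .nil)))))))) (.nd (nat_lit 1) (.nd (nat_lit 2) (.nd (nat_lit 3) (.nd (nat_lit 4) (.nd (nat_lit 5) 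
(.lf (nat_lit 25345) (.g (nat_lit 4114) (.e (nat_lit 1190) (nat_lit 88) (.e (nat_lit 65624) (nat_lit 12) (.e (nat_lit 385106) (nat_lit 50) (.e (nat_lit 786480) (nat_lit 29) (.e (nat_lit 352309) (nat_lit 21) (.e (nat_lit 57872) (nat_lit 264) .nil)))))) (.g (nat_lit 6) .nil .nil))) 
(.lf (nat_lit 25377) (.g (nat_lit 2122) (.e (nat_lit 1190) (nat_lit 88) (.e (nat_lit 65627) (nat_lit 13) (.e (nat_lit 393300) (nat_lit 27) (.e (nat_lit 491560) (nat_lit 10) (.e (nat_lit 344089) (nat_lit 18) .nil))))) .nil))) (.nd (nat_lit 5) 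
(.lf (nat_lit 25361) (.g (nat_lit 1694) (.e (nat_lit 1190) (nat_lit 88) (.e (nat_lit 65626) (nat_lit 13) (.e (nat_lit 393301) (nat_lit 27) (.e (nat_lit 491563) (nat_lit 12) .nil)))) .nil)) 
(.lf (nat_lit 25393) (.g (nat_lit 2148) (.e (nat_lit 1190) (nat_lit 88) (.e (nat_lit 65628) (nat_lit 14) (.e (nat_lit 401434) (nat_lit 9) (.e (nat_lit 426555) (nat_lit 32) (.e (nat_lit 376857) (nat_lit 21) .nil))))) .nil)))) (.nd (nat_lit 4) (.nd (nat_lit 5) 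
(.lf (nat_lit 25353) (.g (nat_lit 3415) (.e (nat_lit 1190) (nat_lit 88) (.e (nat_lit 65624) (nat_lit 12) (.e (nat_lit 385106) (nat_lit 50) (.e (nat_lit 786483) (nat_lit 30) (.e (nat_lit 360452) (nat_lit 0) (.e (nat_lit 5905) (nat_lit 320) .nil)))))) (.g (nat_lit 5) .nil .nil))) 
(.lf (nat_lit 25385) (.g (nat_lit 2453) (.e (nat_lit 1190) (nat_lit 88) (.e (nat_lit 65627) (nat_lit 13) (.e (nat_lit 393301) (nat_lit 27) (.e (nat_lit 491560) (nat_lit 10) (.e (nat_lit 344091) (nat_lit 18) .nil))))) .nil))) (.nd (nat_lit 5) 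
(.lf (nat_lit 25369) (.g (nat_lit 3455) (.e (nat_lit 1190) (nat_lit 88) (.e (nat_lit 65627) (nat_lit 13) (.e (nat_lit 393298) (nat_lit 27) (.e (nat_lit 491566) (nat_lit 12) (.e (nat_lit 385045) (nat_lit 21) (.e (nat_lit 4439) (nat_lit 263) .nil)))))) (.g (nat_lit 5) .nil .nil))) 
(.lf (nat_lit 25401) (.g (nat_lit 3034) (.e (nat_lit 1190) (nat_lit 88) (.e (nat_lit 65628) (nat_lit 14) (.e (nat_lit 401436) (nat_lit 9) (.e (nat_lit 426544) (nat_lit 30) (.e (nat_lit 360453) (nat_lit 0) (.e (nat_lit 5907) (nat_lit 320) .nil)))))) (.g (nat_lit 6) .nil .nil)))))) (.nd (nat_lit 3) (.nd (nat_lit 4) (.nd (nat_lit 5) 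
(.lf (nat_lit 25349) (.g (nat_lit 2198) (.e (nat_lit 1190) (nat_lit 88) (.e (nat_lit 65624) (nat_lit 12) (.e (nat_lit 385106) (nat_lit 50) (.e (nat_lit 786481) (nat_lit 30) (.e (nat_lit 360453) (nat_lit 0) (.e (nat_lit 5905) (nat_lit 320) .nil)))))) (.g (nat_lit 4) .nil .nil))) 
(.lf (nat_lit 25381) (.g (nat_lit 2926) (.e (nat_lit 1190) (nat_lit 88) (.e (nat_lit 65627) (nat_lit 13) (.e (nat_lit 393301) (nat_lit 27) (.e (nat_lit 491560) (nat_lit 10) (.e (nat_lit 344088) (nat_lit 18) .nil))))) .nil))) (.nd (nat_lit 5) 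
(.lf (nat_lit 25365) (.g (nat_lit 2104) (.e (nat_lit 1190) (nat_lit 88) (.e (nat_lit 65627) (nat_lit 13) (.e (nat_lit 393260) (nat_lit 21) (.e (nat_lit 409648) (nat_lit 18) (.e (nat_lit 303114) (nat_lit 1) .nil))))) .nil)) 
(.lf (nat_lit 25397) (.g (nat_lit 385) (.e (nat_lit 1190) (nat_lit 88) (.e (nat_lit 65628) (nat_lit 14) (.e (nat_lit 401436) (nat_lit 9) .nil))) .nil)))) (.nd (nat_lit 4) (.nd (nat_lit 5) 
(.lf (nat_lit 25357) (.g (nat_lit 2308) (.e (nat_lit 1190) (nat_lit 88) (.e (nat_lit 65624) (nat_lit 12) (.e (nat_lit 385106) (nat_lit 50) (.e (nat_lit 786483) (nat_lit 30) (.e (nat_lit 360454) (nat_lit 0) .nil))))) .nil)) 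
(.lf (nat_lit 25389) (.g (nat_lit 3052) (.e (nat_lit 1190) (nat_lit 88) (.e (nat_lit 65627) (nat_lit 13) (.e (nat_lit 393301) (nat_lit 27) (.e (nat_lit 491563) (nat_lit 12) (.e (nat_lit 385046) (nat_lit 21) (.e (nat_lit 4490) (nat_lit 263) .nil)))))) (.g (nat_lit 4) .nil .nil)))) (.nd (nat_lit 5) 
(.lf (nat_lit 25373) (.g (nat_lit 4155) (.e (nat_lit 1190) (nat_lit 88) (.e (nat_lit 65627) (nat_lit 13) (.e (nat_lit 393298) (nat_lit 27) (.e (nat_lit 491566) (nat_lit 12) (.e (nat_lit 385046) (nat_lit 21) (.e (nat_lit 4491) (nat_lit 263) .nil)))))) (.g (nat_lit 0) .nil .nil))) 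
(.lf (nat_lit 25405) (.g (nat_lit 3212) (.e (nat_lit 1190) (nat_lit 88) (.e (nat_lit 65628) (nat_lit 14) (.e (nat_lit 401436) (nat_lit 9) (.e (nat_lit 426555) (nat_lit 32) (.e (nat_lit 376859) (nat_lit 21) (.e (nat_lit 57873) (nat_lit 264) .nil)))))) (.g (nat_lit 6) .nil .nil))))))) (.nd (nat_lit 2) (.nd (nat_lit 3) (.nd (nat_lit 4) (.nd (nat_lit 5) 
(.lf (nat_lit 25347) (.g (nat_lit 3750) (.e (nat_lit 1190) (nat_lit 88) (.e (nat_lit 65624) (nat_lit 12) (.e (nat_lit 385106) (nat_lit 50) (.e (nat_lit 786481) (nat_lit 30) (.e (nat_lit 360452) (nat_lit 0) (.e (nat_lit 5905) (nat_lit 320) .nil)))))) (.g (nat_lit 6) .nil .nil))) 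
(.lf (nat_lit 25379) (.g (nat_lit 2505) (.e (nat_lit 1190) (nat_lit 88) (.e (nat_lit 65627) (nat_lit 13) (.e (nat_lit 393301) (nat_lit 27) (.e (nat_lit 491558) (nat_lit 10) (.e (nat_lit 344091) (nat_lit 18) (.e (nat_lit 7236) (nat_lit 382) .nil)))))) (.g (nat_lit 5) .nil .nil)))) (.nd (nat_lit 5) 
(.lf (nat_lit 25363) (.g (nat_lit 2657) (.e (nat_lit 1190) (nat_lit 88) (.e (nat_lit 65627) (nat_lit 13) (.e (nat_lit 393260) (nat_lit 21) (.e (nat_lit 409645) (nat_lit 18) (.e (nat_lit 303115) (nat_lit 1) (.e (nat_lit 164163) (nat_lit 152) .nil)))))) (.g (nat_lit 4) .nil .nil))) 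
(.lf (nat_lit 25395) (.g (nat_lit 1444) (.e (nat_lit 1190) (nat_lit 88) (.e (nat_lit 65628) (nat_lit 14) (.e (nat_lit 401435) (nat_lit 9) (.e (nat_lit 426546) (nat_lit 30) .nil)))) .nil)))) (.nd (nat_lit 4) (.nd (nat_lit 5) 
(.lf (nat_lit 25355) (.g (nat_lit 3872) (.e (nat_lit 1190) (nat_lit 88) (.e (nat_lit 65624) (nat_lit 12) (.e (nat_lit 385106) (nat_lit 50) (.e (nat_lit 786483) (nat_lit 30) (.e (nat_lit 360452) (nat_lit 0) (.e (nat_lit 5907) (nat_lit 320) .nil)))))) (.g (nat_lit 6) .nil .nil))) 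
(.lf (nat_lit 25387) (.g (nat_lit 2949) (.e (nat_lit 1190) (nat_lit 88) (.e (nat_lit 65627) (nat_lit 13) (.e (nat_lit 393301) (nat_lit 27) (.e (nat_lit 491563) (nat_lit 12) (.e (nat_lit 385045) (nat_lit 21) .nil))))) .nil))) (.nd (nat_lit 5) 
(.lf (nat_lit 25371) (.g (nat_lit 3725) (.e (nat_lit 1190) (nat_lit 88) (.e (nat_lit 65627) (nat_lit 13) (.e (nat_lit 393298) (nat_lit 27) (.e (nat_lit 491566) (nat_lit 12) (.e (nat_lit 385045) (nat_lit 21) (.e (nat_lit 4491) (nat_lit 263) .nil)))))) (.g (nat_lit 0) .nil .nil))) 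
(.lf (nat_lit 25403) (.g (nat_lit 1966) (.e (nat_lit 1190) (nat_lit 88) (.e (nat_lit 65628) (nat_lit 14) (.e (nat_lit 401436) (nat_lit 9) (.e (nat_lit 426555) (nat_lit 32) (.e (nat_lit 376859) (nat_lit 21) (.e (nat_lit 57871) (nat_lit 264) .nil)))))) (.g (nat_lit 4) .nil .nil)))))) (.nd (nat_lit 3) (.nd (nat_lit 4) (.nd (nat_lit 5) 
(.lf (nat_lit 25351) (.g (nat_lit 3483) (.e (nat_lit 1190) (nat_lit 88) (.e (nat_lit 65624) (nat_lit 12) (.e (nat_lit 385106) (nat_lit 50) (.e (nat_lit 786483) (nat_lit 30) (.e (nat_lit 360450) (nat_lit 0) (.e (nat_lit 5896) (nat_lit 320) .nil)))))) (.g (nat_lit 5) .nil .nil))) 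
(.lf (nat_lit 25383) (.g (nat_lit 3355) (.e (nat_lit 1190) (nat_lit 88) (.e (nat_lit 65627) (nat_lit 13) (.e (nat_lit 393301) (nat_lit 27) (.e (nat_lit 491560) (nat_lit 10) (.e (nat_lit 344089) (nat_lit 18) (.e (nat_lit 7133) (nat_lit 382) .nil)))))) (.g (nat_lit 4) .nil .nil)))) (.nd (nat_lit 5) 
(.lf (nat_lit 25367) (.g (nat_lit 2840) (.e (nat_lit 1190) (nat_lit 88) (.e (nat_lit 65627) (nat_lit 13) (.e (nat_lit 393265) (nat_lit 22) (.e (nat_lit 417820) (nat_lit 10) (.e (nat_lit 5761) (nat_lit 315) (.e (nat_lit 163850) (nat_lit 0) (.e (nat_lit 6306) (nat_lit 337) .nil))))))) (.g (nat_lit 7) .nil .nil))) 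
(.lf (nat_lit 25399) (.g (nat_lit 2692) (.e (nat_lit 1190) (nat_lit 88) (.e (nat_lit 65628) (nat_lit 14) (.e (nat_lit 401436) (nat_lit 9) (.e (nat_lit 426542) (nat_lit 29) (.e (nat_lit 352309) (nat_lit 21) (.e (nat_lit 57871) (nat_lit 264) .nil)))))) (.g (nat_lit 6) .nil .nil))))) (.nd (nat_lit 4) (.nd (nat_lit 5) 
(.lf (nat_lit 25359) (.g (nat_lit 2204) (.e (nat_lit 1190) (nat_lit 88) (.e (nat_lit 65624) (nat_lit 12) (.e (nat_lit 385106) (nat_lit 50) (.e (nat_lit 786483) (nat_lit 30) (.e (nat_lit 368384) (nat_lit 0) (.e (nat_lit 5907) (nat_lit 320) .nil)))))) (.g (nat_lit 4) .nil .nil))) 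
(.lf (nat_lit 25391) (.g (nat_lit 3005) (.e (nat_lit 1190) (nat_lit 88) (.e (nat_lit 65627) (nat_lit 13) (.e (nat_lit 393301) (nat_lit 27) (.e (nat_lit 491563) (nat_lit 12) (.e (nat_lit 385047) (nat_lit 21) .nil))))) .nil))) (.nd (nat_lit 5) 
(.lf (nat_lit 25375) (.g (nat_lit 3394) (.e (nat_lit 1190) (nat_lit 88) (.e (nat_lit 65627) (nat_lit 13) (.e (nat_lit 393298) (nat_lit 27) (.e (nat_lit 491566) (nat_lit 12) (.e (nat_lit 385051) (nat_lit 21) (.e (nat_lit 4490) (nat_lit 263) .nil)))))) (.g (nat_lit 4) .nil .nil))) 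
(.lf (nat_lit 25407) (.g (nat_lit 1750) (.e (nat_lit 1190) (nat_lit 88) (.e (nat_lit 65628) (nat_lit 14) (.e (nat_lit 401436) (nat_lit 9) (.e (nat_lit 426556) (nat_lit 32) (.e (nat_lit 376859) (nat_lit 21) (.e (nat_lit 57872) (nat_lit 264) .nil)))))) (.g (nat_lit 5) .nil .nil)))))))))

noncomputable def tv359 : DT := (.nd (nat_lit 0) (.nd (nat_lit 1) (.nd (nat_lit 2) (.nd (nat_lit 3) (.nd (nat_lit 4) (.nd (nat_lit 5) 
(.lf (nat_lit 25408) (.g (nat_lit 421) (.e (nat_lit 1190) (nat_lit 88) (.e (nat_lit 65628) (nat_lit 14) (.e (nat_lit 401437) (nat_lit 9) .nil))) .nil)) 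
(.lf (nat_lit 25440) (.g (nat_lit 3556) (.e (nat_lit 1190) (nat_lit 88) (.e (nat_lit 65628) (nat_lit 14) (.e (nat_lit 401438) (nat_lit 9) (.e (nat_lit 426542) (nat_lit 29) (.e (nat_lit 352307) (nat_lit 21) (.e (nat_lit 57871) (nat_lit 264) .nil)))))) (.g (nat_lit 0) .nil .nil)))) (.nd (nat_lit 5) 
(.lf (nat_lit 25424) (.g (nat_lit 3791) (.e (nat_lit 1190) (nat_lit 88) (.e (nat_lit 65628) (nat_lit 14) (.e (nat_lit 401437) (nat_lit 9) (.e (nat_lit 426544) (nat_lit 30) (.e (nat_lit 360453) (nat_lit 0) (.e (nat_lit 5907) (nat_lit 320) .nil)))))) (.g (nat_lit 0) .nil .nil))) 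
(.lf (nat_lit 25456) (.g (nat_lit 1252) (.e (nat_lit 1190) (nat_lit 88) (.e (nat_lit 65628) (nat_lit 14) (.e (nat_lit 401454) (nat_lit 12) (.e (nat_lit 483072) (nat_lit 13) .nil)))) .nil)))) (.nd (nat_lit 4) (.nd (nat_lit 5) 
(.lf (nat_lit 25416) (.g (nat_lit 1777) (.e (nat_lit 1190) (nat_lit 88) (.e (nat_lit 65628) (nat_lit 14) (.e (nat_lit 401437) (nat_lit 9) (.e (nat_lit 426539) (nat_lit 29) .nil)))) .nil)) 
(.lf (nat_lit 25448) (.g (nat_lit 3620) (.e (nat_lit 1190) (nat_lit 88) (.e (nat_lit 65628) (nat_lit 14) (.e (nat_lit 401438) (nat_lit 9) (.e (nat_lit 426555) (nat_lit 32) (.e (nat_lit 376857) (nat_lit 21) (.e (nat_lit 57872) (nat_lit 264) .nil)))))) (.g (nat_lit 6) .nil .nil)))) (.nd (nat_lit 5) 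
(.lf (nat_lit 25432) (.g (nat_lit 3534) (.e (nat_lit 1190) (nat_lit 88) (.e (nat_lit 65628) (nat_lit 14) (.e (nat_lit 401437) (nat_lit 9) (.e (nat_lit 426555) (nat_lit 32) (.e (nat_lit 376859) (nat_lit 21) (.e (nat_lit 57870) (nat_lit 264) .nil)))))) (.g (nat_lit 0) .nil .nil))) 
(.lf (nat_lit 25464) (.g (nat_lit 430) (.e (nat_lit 1190) (nat_lit 88) (.e (nat_lit 65628) (nat_lit 14) (.e (nat_lit 401457) (nat_lit 13) .nil))) .nil))))) (.nd (nat_lit 3) (.nd (nat_lit 4) (.nd (nat_lit 5) 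
(.lf (nat_lit 25412) (.g (nat_lit 2517) (.e (nat_lit 1190) (nat_lit 88) (.e (nat_lit 65628) (nat_lit 14) (.e (nat_lit 401437) (nat_lit 9) (.e (nat_lit 426489) (nat_lit 27) (.e (nat_lit 336156) (nat_lit 9) (.e (nat_lit 335995) (nat_lit 1) (.e (nat_lit 57872) (nat_lit 264) .nil))))))) (.g (nat_lit 4) .nil .nil))) 
(.lf (nat_lit 25444) (.g (nat_lit 3458) (.e (nat_lit 1190) (nat_lit 88) (.e (nat_lit 65628) (nat_lit 14) (.e (nat_lit 401438) (nat_lit 9) (.e (nat_lit 426544) (nat_lit 30) (.e (nat_lit 360453) (nat_lit 0) (.e (nat_lit 5907) (nat_lit 320) .nil)))))) (.g (nat_lit 0) .nil .nil)))) (.nd (nat_lit 5) 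
(.lf (nat_lit 25428) (.g (nat_lit 2722) (.e (nat_lit 1190) (nat_lit 88) (.e (nat_lit 65628) (nat_lit 14) (.e (nat_lit 401437) (nat_lit 9) (.e (nat_lit 426555) (nat_lit 32) (.e (nat_lit 376856) (nat_lit 21) .nil))))) .nil)) 
(.lf (nat_lit 25460) (.g (nat_lit 1753) (.e (nat_lit 1190) (nat_lit 88) (.e (nat_lit 65628) (nat_lit 14) (.e (nat_lit 401456) (nat_lit 13) (.e (nat_lit 483394) (nat_lit 24) .nil)))) .nil)))) (.nd (nat_lit 4) (.nd (nat_lit 5) 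
(.lf (nat_lit 25420) (.g (nat_lit 3922) (.e (nat_lit 1190) (nat_lit 88) (.e (nat_lit 65628) (nat_lit 14) (.e (nat_lit 401437) (nat_lit 9) (.e (nat_lit 426542) (nat_lit 29) (.e (nat_lit 352309) (nat_lit 21) (.e (nat_lit 57873) (nat_lit 264) .nil)))))) (.g (nat_lit 0) .nil .nil))) 
(.lf (nat_lit 25452) (.g (nat_lit 3707) (.e (nat_lit 1190) (nat_lit 88) (.e (nat_lit 65628) (nat_lit 14) (.e (nat_lit 401438) (nat_lit 9) (.e (nat_lit 426555) (nat_lit 32) (.e (nat_lit 376859) (nat_lit 21) (.e (nat_lit 57872) (nat_lit 264) .nil)))))) (.g (nat_lit 0) .nil .nil)))) (.nd (nat_lit 5) 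
(.lf (nat_lit 25436) (.g (nat_lit 3460) (.e (nat_lit 1190) (nat_lit 88) (.e (nat_lit 65628) (nat_lit 14) (.e (nat_lit 401437) (nat_lit 9) (.e (nat_lit 426555) (nat_lit 32) (.e (nat_lit 376860) (nat_lit 21) (.e (nat_lit 57870) (nat_lit 264) .nil)))))) (.g (nat_lit 6) .nil .nil))) 
(.lf (nat_lit 25468) (.g (nat_lit 1289) (.e (nat_lit 1190) (nat_lit 88) (.e (nat_lit 65628) (nat_lit 14) (.e (nat_lit 401457) (nat_lit 13) (.e (nat_lit 483391) (nat_lit 23) .nil)))) .nil)))))) (.nd (nat_lit 2) (.nd (nat_lit 3) (.nd (nat_lit 4) (.nd (nat_lit 5) 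
(.lf (nat_lit 25410) (.g (nat_lit 2020) (.e (nat_lit 1190) (nat_lit 88) (.e (nat_lit 65628) (nat_lit 14) (.e (nat_lit 401437) (nat_lit 9) (.e (nat_lit 426486) (nat_lit 27) .nil)))) .nil)) 
(.lf (nat_lit 25442) (.g (nat_lit 3729) (.e (nat_lit 1190) (nat_lit 88) (.e (nat_lit 65628) (nat_lit 14) (.e (nat_lit 401438) (nat_lit 9) (.e (nat_lit 426542) (nat_lit 29) (.e (nat_lit 352309) (nat_lit 21) (.e (nat_lit 57873) (nat_lit 264) .nil)))))) (.g (nat_lit 0) .nil .nil)))) (.nd (nat_lit 5) 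
(.lf (nat_lit 25426) (.g (nat_lit 3953) (.e (nat_lit 1190) (nat_lit 88) (.e (nat_lit 65628) (nat_lit 14) (.e (nat_lit 401437) (nat_lit 9) (.e (nat_lit 426546) (nat_lit 30) (.e (nat_lit 360452) (nat_lit 0) (.e (nat_lit 5905) (nat_lit 320) .nil)))))) (.g (nat_lit 0) .nil .nil))) 
(.lf (nat_lit 25458) (.g (nat_lit 2270) (.e (nat_lit 1190) (nat_lit 88) (.e (nat_lit 65628) (nat_lit 14) (.e (nat_lit 401456) (nat_lit 13) (.e (nat_lit 483378) (nat_lit 23) (.e (nat_lit 335997) (nat_lit 1) .nil))))) .nil)))) (.nd (nat_lit 4) (.nd (nat_lit 5) 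
(.lf (nat_lit 25418) (.g (nat_lit 3771) (.e (nat_lit 1190) (nat_lit 88) (.e (nat_lit 65628) (nat_lit 14) (.e (nat_lit 401437) (nat_lit 9) (.e (nat_lit 426542) (nat_lit 29) (.e (nat_lit 352307) (nat_lit 21) (.e (nat_lit 57871) (nat_lit 264) .nil)))))) (.g (nat_lit 0) .nil .nil))) 
(.lf (nat_lit 25450) (.g (nat_lit 3565) (.e (nat_lit 1190) (nat_lit 88) (.e (nat_lit 65628) (nat_lit 14) (.e (nat_lit 401438) (nat_lit 9) (.e (nat_lit 426555) (nat_lit 32) (.e (nat_lit 376859) (nat_lit 21) (.e (nat_lit 57870) (nat_lit 264) .nil)))))) (.g (nat_lit 6) .nil .nil)))) (.nd (nat_lit 5) 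
(.lf (nat_lit 25434) (.g (nat_lit 3666) (.e (nat_lit 1190) (nat_lit 88) (.e (nat_lit 65628) (nat_lit 14) (.e (nat_lit 401437) (nat_lit 9) (.e (nat_lit 426555) (nat_lit 32) (.e (nat_lit 376859) (nat_lit 21) (.e (nat_lit 57872) (nat_lit 264) .nil)))))) (.g (nat_lit 0) .nil .nil))) 
(.lf (nat_lit 25466) (.g (nat_lit 2579) (.e (nat_lit 1190) (nat_lit 88) (.e (nat_lit 65628) (nat_lit 14) (.e (nat_lit 401457) (nat_lit 13) (.e (nat_lit 483383) (nat_lit 23) (.e (nat_lit 336000) (nat_lit 1) (.e (nat_lit 57872) (nat_lit 264) .nil)))))) (.g (nat_lit 5) .nil .nil)))))) (.nd (nat_lit 3) (.nd (nat_lit 4) (.nd (nat_lit 5) 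
(.lf (nat_lit 25414) (.g (nat_lit 1902) (.e (nat_lit 1190) (nat_lit 88) (.e (nat_lit 65628) (nat_lit 14) (.e (nat_lit 401437) (nat_lit 9) (.e (nat_lit 426538) (nat_lit 29) (.e (nat_lit 352309) (nat_lit 21) .nil))))) .nil)) 
(.lf (nat_lit 25446) (.g (nat_lit 2031) (.e (nat_lit 1190) (nat_lit 88) (.e (nat_lit 65628) (nat_lit 14) (.e (nat_lit 401438) (nat_lit 9) (.e (nat_lit 426546) (nat_lit 30) (.e (nat_lit 368384) (nat_lit 0) (.e (nat_lit 5902) (nat_lit 320) .nil)))))) (.g (nat_lit 4) .nil .nil)))) (.nd (nat_lit 5) 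
(.lf (nat_lit 25430) (.g (nat_lit 3955) (.e (nat_lit 1190) (nat_lit 88) (.e (nat_lit 65628) (nat_lit 14) (.e (nat_lit 401437) (nat_lit 9) (.e (nat_lit 426555) (nat_lit 32) (.e (nat_lit 376857) (nat_lit 21) (.e (nat_lit 57873) (nat_lit 264) .nil)))))) (.g (nat_lit 0) .nil .nil))) 
(.lf (nat_lit 25462) (.g (nat_lit 2325) (.e (nat_lit 1190) (nat_lit 88) (.e (nat_lit 65628) (nat_lit 14) (.e (nat_lit 401456) (nat_lit 13) (.e (nat_lit 483395) (nat_lit 24) (.e (nat_lit 344097) (nat_lit 18) (.e (nat_lit 5906) (nat_lit 320) .nil)))))) (.g (nat_lit 4) .nil .nil))))) (.nd (nat_lit 4) (.nd (nat_lit 5) 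
(.lf (nat_lit 25422) (.g (nat_lit 2867) (.e (nat_lit 1190) (nat_lit 88) (.e (nat_lit 65628) (nat_lit 14) (.e (nat_lit 401437) (nat_lit 9) (.e (nat_lit 426544) (nat_lit 30) (.e (nat_lit 360452) (nat_lit 0) (.e (nat_lit 5907) (nat_lit 320) .nil)))))) (.g (nat_lit 4) .nil .nil))) 
(.lf (nat_lit 25454) (.g (nat_lit 3508) (.e (nat_lit 1190) (nat_lit 88) (.e (nat_lit 65628) (nat_lit 14) (.e (nat_lit 401438) (nat_lit 9) (.e (nat_lit 426555) (nat_lit 32) (.e (nat_lit 376860) (nat_lit 21) (.e (nat_lit 57870) (nat_lit 264) .nil)))))) (.g (nat_lit 6) .nil .nil)))) (.nd (nat_lit 5) 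
(.lf (nat_lit 25438) (.g (nat_lit 2407) (.e (nat_lit 1190) (nat_lit 88) (.e (nat_lit 65628) (nat_lit 14) (.e (nat_lit 401437) (nat_lit 9) (.e (nat_lit 426556) (nat_lit 32) (.e (nat_lit 376859) (nat_lit 21) (.e (nat_lit 57872) (nat_lit 264) .nil)))))) (.g (nat_lit 4) .nil .nil))) 
(.lf (nat_lit 25470) (.g (nat_lit 2751) (.e (nat_lit 1190) (nat_lit 88) (.e (nat_lit 65628) (nat_lit 14) (.e (nat_lit 401457) (nat_lit 13) (.e (nat_lit 483393) (nat_lit 23) (.e (nat_lit 335986) (nat_lit 1) (.e (nat_lit 57871) (nat_lit 264) .nil)))))) (.g (nat_lit 5) .nil .nil)))))))) (.nd (nat_lit 1) (.nd (nat_lit 2) (.nd (nat_lit 3) (.nd (nat_lit 4) (.nd (nat_lit 5) 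
(.lf (nat_lit 25409) (.g (nat_lit 2947) (.e (nat_lit 1190) (nat_lit 88) (.e (nat_lit 65628) (nat_lit 14) (.e (nat_lit 401437) (nat_lit 9) (.e (nat_lit 426482) (nat_lit 27) (.e (nat_lit 336140) (nat_lit 9) (.e (nat_lit 335995) (nat_lit 1) (.e (nat_lit 57872) (nat_lit 264) .nil))))))) (.g (nat_lit 4) .nil .nil))) 
(.lf (nat_lit 25441) (.g (nat_lit 3187) (.e (nat_lit 1190) (nat_lit 88) (.e (nat_lit 65628) (nat_lit 14) (.e (nat_lit 401438) (nat_lit 9) (.e (nat_lit 426542) (nat_lit 29) (.e (nat_lit 352309) (nat_lit 21) (.e (nat_lit 57871) (nat_lit 264) .nil)))))) (.g (nat_lit 6) .nil .nil)))) (.nd (nat_lit 5) 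
(.lf (nat_lit 25425) (.g (nat_lit 2427) (.e (nat_lit 1190) (nat_lit 88) (.e (nat_lit 65628) (nat_lit 14) (.e (nat_lit 401437) (nat_lit 9) (.e (nat_lit 426544) (nat_lit 30) (.e (nat_lit 368384) (nat_lit 0) (.e (nat_lit 5902) (nat_lit 320) .nil)))))) (.g (nat_lit 4) .nil .nil))) 
(.lf (nat_lit 25457) (.g (nat_lit 2414) (.e (nat_lit 1190) (nat_lit 88) (.e (nat_lit 65628) (nat_lit 14) (.e (nat_lit 401454) (nat_lit 12) (.e (nat_lit 475154) (nat_lit 20) .nil)))) .nil)))) (.nd (nat_lit 4) (.nd (nat_lit 5) 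
(.lf (nat_lit 25417) (.g (nat_lit 1799) (.e (nat_lit 1190) (nat_lit 88) (.e (nat_lit 65628) (nat_lit 14) (.e (nat_lit 401437) (nat_lit 9) (.e (nat_lit 426542) (nat_lit 29) (.e (nat_lit 352290) (nat_lit 20) .nil))))) .nil)) 
(.lf (nat_lit 25449) (.g (nat_lit 3897) (.e (nat_lit 1190) (nat_lit 88) (.e (nat_lit 65628) (nat_lit 14) (.e (nat_lit 401438) (nat_lit 9) (.e (nat_lit 426555) (nat_lit 32) (.e (nat_lit 376857) (nat_lit 21) (.e (nat_lit 57873) (nat_lit 264) .nil)))))) (.g (nat_lit 6) .nil .nil)))) (.nd (nat_lit 5) 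
(.lf (nat_lit 25433) (.g (nat_lit 2469) (.e (nat_lit 1190) (nat_lit 88) (.e (nat_lit 65628) (nat_lit 14) (.e (nat_lit 401437) (nat_lit 9) (.e (nat_lit 426555) (nat_lit 32) (.e (nat_lit 376859) (nat_lit 21) (.e (nat_lit 57871) (nat_lit 264) .nil)))))) (.g (nat_lit 4) .nil .nil))) 
(.lf (nat_lit 25465) (.g (nat_lit 1980) (.e (nat_lit 1190) (nat_lit 88) (.e (nat_lit 65628) (nat_lit 14) (.e (nat_lit 401457) (nat_lit 13) (.e (nat_lit 483383) (nat_lit 23) (.e (nat_lit 336000) (nat_lit 1) (.e (nat_lit 57871) (nat_lit 264) .nil)))))) (.g (nat_lit 4) .nil .nil)))))) (.nd (nat_lit 3) (.nd (nat_lit 4) (.nd (nat_lit 5) 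
(.lf (nat_lit 25413) (.g (nat_lit 1536) (.e (nat_lit 1190) (nat_lit 88) (.e (nat_lit 65628) (nat_lit 14) (.e (nat_lit 401437) (nat_lit 9) (.e (nat_lit 426509) (nat_lit 27) (.e (nat_lit 336110) (nat_lit 9) .nil))))) .nil)) 
(.lf (nat_lit 25445) (.g (nat_lit 2104) (.e (nat_lit 1190) (nat_lit 88) (.e (nat_lit 65628) (nat_lit 14) (.e (nat_lit 401438) (nat_lit 9) (.e (nat_lit 426544) (nat_lit 30) (.e (nat_lit 368384) (nat_lit 0) (.e (nat_lit 5902) (nat_lit 320) .nil)))))) (.g (nat_lit 4) .nil .nil)))) (.nd (nat_lit 5) 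
(.lf (nat_lit 25429) (.g (nat_lit 3691) (.e (nat_lit 1190) (nat_lit 88) (.e (nat_lit 65628) (nat_lit 14) (.e (nat_lit 401437) (nat_lit 9) (.e (nat_lit 426555) (nat_lit 32) (.e (nat_lit 376857) (nat_lit 21) (.e (nat_lit 57870) (nat_lit 264) .nil)))))) (.g (nat_lit 0) .nil .nil))) 
(.lf (nat_lit 25461) (.g (nat_lit 2345) (.e (nat_lit 1190) (nat_lit 88) (.e (nat_lit 65628) (nat_lit 14) (.e (nat_lit 401456) (nat_lit 13) (.e (nat_lit 483395) (nat_lit 24) (.e (nat_lit 344097) (nat_lit 18) (.e (nat_lit 5905) (nat_lit 320) .nil)))))) (.g (nat_lit 4) .nil .nil))))) (.nd (nat_lit 4) (.nd (nat_lit 5) 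
(.lf (nat_lit 25421) (.g (nat_lit 2490) (.e (nat_lit 1190) (nat_lit 88) (.e (nat_lit 65628) (nat_lit 14) (.e (nat_lit 401437) (nat_lit 9) (.e (nat_lit 426544) (nat_lit 30) (.e (nat_lit 360452) (nat_lit 0) (.e (nat_lit 5905) (nat_lit 320) .nil)))))) (.g (nat_lit 4) .nil .nil))) 
(.lf (nat_lit 25453) (.g (nat_lit 3768) (.e (nat_lit 1190) (nat_lit 88) (.e (nat_lit 65628) (nat_lit 14) (.e (nat_lit 401438) (nat_lit 9) (.e (nat_lit 426555) (nat_lit 32) (.e (nat_lit 376859) (nat_lit 21) (.e (nat_lit 57873) (nat_lit 264) .nil)))))) (.g (nat_lit 6) .nil .nil)))) (.nd (nat_lit 5) 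
(.lf (nat_lit 25437) (.g (nat_lit 1894) (.e (nat_lit 1190) (nat_lit 88) (.e (nat_lit 65628) (nat_lit 14) (.e (nat_lit 401437) (nat_lit 9) (.e (nat_lit 426556) (nat_lit 32) (.e (nat_lit 376859) (nat_lit 21) .nil))))) .nil)) 
(.lf (nat_lit 25469) (.g (nat_lit 2316) (.e (nat_lit 1190) (nat_lit 88) (.e (nat_lit 65628) (nat_lit 14) (.e (nat_lit 401457) (nat_lit 13) (.e (nat_lit 483393) (nat_lit 23) (.e (nat_lit 335986) (nat_lit 1) (.e (nat_lit 57870) (nat_lit 264) .nil)))))) (.g (nat_lit 4) .nil .nil))))))) (.nd (nat_lit 2) (.nd (nat_lit 3) (.nd (nat_lit 4) (.nd (nat_lit 5) 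
(.lf (nat_lit 25411) (.g (nat_lit 1888) (.e (nat_lit 1190) (nat_lit 88) (.e (nat_lit 65628) (nat_lit 14) (.e (nat_lit 401437) (nat_lit 9) (.e (nat_lit 426489) (nat_lit 27) .nil)))) .nil)) 
(.lf (nat_lit 25443) (.g (nat_lit 2005) (.e (nat_lit 1190) (nat_lit 88) (.e (nat_lit 65628) (nat_lit 14) (.e (nat_lit 401438) (nat_lit 9) (.e (nat_lit 426544) (nat_lit 30) (.e (nat_lit 360453) (nat_lit 0) (.e (nat_lit 5905) (nat_lit 320) .nil)))))) (.g (nat_lit 4) .nil .nil)))) (.nd (nat_lit 5) 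
(.lf (nat_lit 25427) (.g (nat_lit 2885) (.e (nat_lit 1190) (nat_lit 88) (.e (nat_lit 65628) (nat_lit 14) (.e (nat_lit 401437) (nat_lit 9) (.e (nat_lit 426546) (nat_lit 30) (.e (nat_lit 360452) (nat_lit 0) (.e (nat_lit 5906) (nat_lit 320) .nil)))))) (.g (nat_lit 6) .nil .nil))) 
(.lf (nat_lit 25459) (.g (nat_lit 1875) (.e (nat_lit 1190) (nat_lit 88) (.e (nat_lit 65628) (nat_lit 14) (.e (nat_lit 401456) (nat_lit 13) (.e (nat_lit 483393) (nat_lit 23) .nil)))) .nil)))) (.nd (nat_lit 4) (.nd (nat_lit 5) 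
(.lf (nat_lit 25419) (.g (nat_lit 3354) (.e (nat_lit 1190) (nat_lit 88) (.e (nat_lit 65628) (nat_lit 14) (.e (nat_lit 401437) (nat_lit 9) (.e (nat_lit 426542) (nat_lit 29) (.e (nat_lit 352309) (nat_lit 21) (.e (nat_lit 57871) (nat_lit 264) .nil)))))) (.g (nat_lit 6) .nil .nil))) 
(.lf (nat_lit 25451) (.g (nat_lit 2483) (.e (nat_lit 1190) (nat_lit 88) (.e (nat_lit 65628) (nat_lit 14) (.e (nat_lit 401438) (nat_lit 9) (.e (nat_lit 426555) (nat_lit 32) (.e (nat_lit 376859) (nat_lit 21) (.e (nat_lit 57871) (nat_lit 264) .nil)))))) (.g (nat_lit 4) .nil .nil)))) (.nd (nat_lit 5) 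
(.lf (nat_lit 25435) (.g (nat_lit 3740) (.e (nat_lit 1190) (nat_lit 88) (.e (nat_lit 65628) (nat_lit 14) (.e (nat_lit 401437) (nat_lit 9) (.e (nat_lit 426555) (nat_lit 32) (.e (nat_lit 376859) (nat_lit 21) (.e (nat_lit 57873) (nat_lit 264) .nil)))))) (.g (nat_lit 6) .nil .nil))) 
(.lf (nat_lit 25467) (.g (nat_lit 3023) (.e (nat_lit 1190) (nat_lit 88) (.e (nat_lit 65628) (nat_lit 14) (.e (nat_lit 401457) (nat_lit 13) (.e (nat_lit 483383) (nat_lit 23) (.e (nat_lit 336000) (nat_lit 1) (.e (nat_lit 57873) (nat_lit 264) .nil)))))) (.g (nat_lit 5) .nil .nil)))))) (.nd (nat_lit 3) (.nd (nat_lit 4) (.nd (nat_lit 5) 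
(.lf (nat_lit 25415) (.g (nat_lit 3063) (.e (nat_lit 1190) (nat_lit 88) (.e (nat_lit 65628) (nat_lit 14) (.e (nat_lit 401437) (nat_lit 9) (.e (nat_lit 426538) (nat_lit 29) (.e (nat_lit 352309) (nat_lit 21) (.e (nat_lit 57872) (nat_lit 264) .nil)))))) (.g (nat_lit 5) .nil .nil))) 
(.lf (nat_lit 25447) (.g (nat_lit 3695) (.e (nat_lit 1190) (nat_lit 88) (.e (nat_lit 65628) (nat_lit 14) (.e (nat_lit 401438) (nat_lit 9) (.e (nat_lit 426555) (nat_lit 32) (.e (nat_lit 376857) (nat_lit 21) (.e (nat_lit 57870) (nat_lit 264) .nil)))))) (.g (nat_lit 6) .nil .nil)))) (.nd (nat_lit 5) 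
(.lf (nat_lit 25431) (.g (nat_lit 2736) (.e (nat_lit 1190) (nat_lit 88) (.e (nat_lit 65628) (nat_lit 14) (.e (nat_lit 401437) (nat_lit 9) (.e (nat_lit 426555) (nat_lit 32) (.e (nat_lit 376858) (nat_lit 21) .nil))))) .nil)) 
(.lf (nat_lit 25463) (.g (nat_lit 2537) (.e (nat_lit 1190) (nat_lit 88) (.e (nat_lit 65628) (nat_lit 14) (.e (nat_lit 401456) (nat_lit 13) (.e (nat_lit 483395) (nat_lit 24) (.e (nat_lit 344097) (nat_lit 18) (.e (nat_lit 5907) (nat_lit 320) .nil)))))) (.g (nat_lit 4) .nil .nil))))) (.nd (nat_lit 4) (.nd (nat_lit 5) 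
(.lf (nat_lit 25423) (.g (nat_lit 2326) (.e (nat_lit 1190) (nat_lit 88) (.e (nat_lit 65628) (nat_lit 14) (.e (nat_lit 401437) (nat_lit 9) (.e (nat_lit 426544) (nat_lit 30) (.e (nat_lit 360453) (nat_lit 0) (.e (nat_lit 5905) (nat_lit 320) .nil)))))) (.g (nat_lit 4) .nil .nil))) 
(.lf (nat_lit 25455) (.g (nat_lit 1402) (.e (nat_lit 1190) (nat_lit 88) (.e (nat_lit 65628) (nat_lit 14) (.e (nat_lit 401438) (nat_lit 9) (.e (nat_lit 426556) (nat_lit 32) .nil)))) .nil))) (.nd (nat_lit 5) 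
(.lf (nat_lit 25439) (.g (nat_lit 1543) (.e (nat_lit 1190) (nat_lit 88) (.e (nat_lit 65628) (nat_lit 14) (.e (nat_lit 401438) (nat_lit 9) (.e (nat_lit 426542) (nat_lit 29) (.e (nat_lit 352290) (nat_lit 20) .nil))))) .nil)) 
(.lf (nat_lit 25471) (.g (nat_lit 2716) (.e (nat_lit 1190) (nat_lit 88) (.e (nat_lit 65628) (nat_lit 14) (.e (nat_lit 401457) (nat_lit 13) (.e (nat_lit 483393) (nat_lit 23) (.e (nat_lit 335986) (nat_lit 1) (.e (nat_lit 57872) (nat_lit 264) .nil)))))) (.g (nat_lit 5) .nil .nil)))))))))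

noncomputable def tv360 : DT := (.nd (nat_lit 0) (.nd (nat_lit 1) (.nd (nat_lit 2) (.nd (nat_lit 3) (.nd (nat_lit 4) (.nd (nat_lit 5) 
(.lf (nat_lit 25472) (.g (nat_lit 3323) (.e (nat_lit 1190) (nat_lit 88) (.e (nat_lit 65628) (nat_lit 14) (.e (nat_lit 401457) (nat_lit 13) (.e (nat_lit 483393) (nat_lit 23) (.e (nat_lit 335986) (nat_lit 1) (.e (nat_lit 57873) (nat_lit 264) .nil)))))) (.g (nat_lit 6) .nil .nil))) 
(.lf (nat_lit 25504) (.g (nat_lit 2480) (.e (nat_lit 1190) (nat_lit 88) (.e (nat_lit 65628) (nat_lit 14) (.e (nat_lit 401458) (nat_lit 13) (.e (nat_lit 483393) (nat_lit 23) (.e (nat_lit 335986) (nat_lit 1) (.e (nat_lit 57872) (nat_lit 264) .nil)))))) (.g (nat_lit 5) .nil .nil)))) (.nd (nat_lit 5) 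
(.lf (nat_lit 25488) (.g (nat_lit 2240) (.e (nat_lit 1190) (nat_lit 88) (.e (nat_lit 65628) (nat_lit 14) (.e (nat_lit 401458) (nat_lit 13) (.e (nat_lit 483383) (nat_lit 23) (.e (nat_lit 336000) (nat_lit 1) (.e (nat_lit 57870) (nat_lit 264) .nil)))))) (.g (nat_lit 5) .nil .nil))) 
(.lf (nat_lit 25520) (.g (nat_lit 2770) (.e (nat_lit 1190) (nat_lit 88) (.e (nat_lit 65628) (nat_lit 14) (.e (nat_lit 401458) (nat_lit 13) (.e (nat_lit 483396) (nat_lit 24) (.e (nat_lit 344097) (nat_lit 18) (.e (nat_lit 5907) (nat_lit 320) .nil)))))) (.g (nat_lit 5) .nil .nil))))) (.nd (nat_lit 4) (.nd (nat_lit 5) 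
(.lf (nat_lit 25480) (.g (nat_lit 2838) (.e (nat_lit 1190) (nat_lit 88) (.e (nat_lit 65628) (nat_lit 14) (.e (nat_lit 401457) (nat_lit 13) (.e (nat_lit 483394) (nat_lit 24) (.e (nat_lit 344097) (nat_lit 18) (.e (nat_lit 5907) (nat_lit 320) .nil)))))) (.g (nat_lit 5) .nil .nil))) 
(.lf (nat_lit 25512) (.g (nat_lit 3480) (.e (nat_lit 1190) (nat_lit 88) (.e (nat_lit 65628) (nat_lit 14) (.e (nat_lit 401458) (nat_lit 13) (.e (nat_lit 483394) (nat_lit 24) (.e (nat_lit 344097) (nat_lit 18) (.e (nat_lit 5905) (nat_lit 320) .nil)))))) (.g (nat_lit 6) .nil .nil)))) (.nd (nat_lit 5) 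
(.lf (nat_lit 25496) (.g (nat_lit 1192) (.e (nat_lit 1190) (nat_lit 88) (.e (nat_lit 65628) (nat_lit 14) (.e (nat_lit 401458) (nat_lit 13) (.e (nat_lit 483389) (nat_lit 23) .nil)))) .nil)) 
(.lf (nat_lit 25528) (.g (nat_lit 2820) (.e (nat_lit 1190) (nat_lit 88) (.e (nat_lit 65628) (nat_lit 14) (.e (nat_lit 401459) (nat_lit 13) (.e (nat_lit 483344) (nat_lit 17) (.e (nat_lit 6152) (nat_lit 332) (.e (nat_lit 2546) (nat_lit 158) (.e (nat_lit 8439) (nat_lit 138) .nil))))))) (.g (nat_lit 4) .nil .nil)))))) (.nd (nat_lit 3) (.nd (nat_lit 4) (.nd (nat_lit 5) 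
(.lf (nat_lit 25476) (.g (nat_lit 2978) (.e (nat_lit 1190) (nat_lit 88) (.e (nat_lit 65628) (nat_lit 14) (.e (nat_lit 401457) (nat_lit 13) (.e (nat_lit 483393) (nat_lit 23) (.e (nat_lit 335995) (nat_lit 1) (.e (nat_lit 57870) (nat_lit 264) .nil)))))) (.g (nat_lit 5) .nil .nil))) 
(.lf (nat_lit 25508) (.g (nat_lit 1702) (.e (nat_lit 1190) (nat_lit 88) (.e (nat_lit 65628) (nat_lit 14) (.e (nat_lit 401458) (nat_lit 13) (.e (nat_lit 483393) (nat_lit 23) (.e (nat_lit 335993) (nat_lit 1) .nil))))) .nil))) (.nd (nat_lit 5) 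
(.lf (nat_lit 25492) (.g (nat_lit 1341) (.e (nat_lit 1190) (nat_lit 88) (.e (nat_lit 65628) (nat_lit 14) (.e (nat_lit 401458) (nat_lit 13) (.e (nat_lit 483386) (nat_lit 23) .nil)))) .nil)) 
(.lf (nat_lit 25524) (.g (nat_lit 357) (.e (nat_lit 1190) (nat_lit 88) (.e (nat_lit 65628) (nat_lit 14) (.e (nat_lit 401459) (nat_lit 13) .nil))) .nil)))) (.nd (nat_lit 4) (.nd (nat_lit 5) 
(.lf (nat_lit 25484) (.g (nat_lit 2400) (.e (nat_lit 1190) (nat_lit 88) (.e (nat_lit 65628) (nat_lit 14) (.e (nat_lit 401457) (nat_lit 13) (.e (nat_lit 483413) (nat_lit 27) (.e (nat_lit 401420) (nat_lit 1) .nil))))) .nil)) 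
(.lf (nat_lit 25516) (.g (nat_lit 3513) (.e (nat_lit 1190) (nat_lit 88) (.e (nat_lit 65628) (nat_lit 14) (.e (nat_lit 401458) (nat_lit 13) (.e (nat_lit 483395) (nat_lit 24) (.e (nat_lit 344097) (nat_lit 18) (.e (nat_lit 5907) (nat_lit 320) .nil)))))) (.g (nat_lit 0) .nil .nil)))) (.nd (nat_lit 5) 
(.lf (nat_lit 25500) (.g (nat_lit 1069) (.e (nat_lit 1190) (nat_lit 88) (.e (nat_lit 65628) (nat_lit 14) (.e (nat_lit 401458) (nat_lit 13) (.e (nat_lit 483391) (nat_lit 23) .nil)))) .nil)) 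
(.lf (nat_lit 25532) (.g (nat_lit 3354) (.e (nat_lit 1190) (nat_lit 88) (.e (nat_lit 65628) (nat_lit 14) (.e (nat_lit 401459) (nat_lit 13) (.e (nat_lit 483344) (nat_lit 17) (.e (nat_lit 6203) (nat_lit 332) (.e (nat_lit 2544) (nat_lit 158) (.e (nat_lit 8439) (nat_lit 138) .nil))))))) (.g (nat_lit 5) .nil .nil))))))) (.nd (nat_lit 2) (.nd (nat_lit 3) (.nd (nat_lit 4) (.nd (nat_lit 5) 
(.lf (nat_lit 25474) (.g (nat_lit 3226) (.e (nat_lit 1190) (nat_lit 88) (.e (nat_lit 65628) (nat_lit 14) (.e (nat_lit 401457) (nat_lit 13) (.e (nat_lit 483393) (nat_lit 23) (.e (nat_lit 335988) (nat_lit 1) (.e (nat_lit 57870) (nat_lit 264) .nil)))))) (.g (nat_lit 5) .nil .nil))) 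
(.lf (nat_lit 25506) (.g (nat_lit 2551) (.e (nat_lit 1190) (nat_lit 88) (.e (nat_lit 65628) (nat_lit 14) (.e (nat_lit 401458) (nat_lit 13) (.e (nat_lit 483393) (nat_lit 23) (.e (nat_lit 335987) (nat_lit 1) (.e (nat_lit 57870) (nat_lit 264) .nil)))))) (.g (nat_lit 6) .nil .nil)))) (.nd (nat_lit 5) 
(.lf (nat_lit 25490) (.g (nat_lit 3159) (.e (nat_lit 1190) (nat_lit 88) (.e (nat_lit 65628) (nat_lit 14) (.e (nat_lit 401458) (nat_lit 13) (.e (nat_lit 483383) (nat_lit 23) (.e (nat_lit 336000) (nat_lit 1) (.e (nat_lit 57872) (nat_lit 264) .nil)))))) (.g (nat_lit 0) .nil .nil))) 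
(.lf (nat_lit 25522) (.g (nat_lit 2474) (.e (nat_lit 1190) (nat_lit 88) (.e (nat_lit 65628) (nat_lit 14) (.e (nat_lit 401458) (nat_lit 13) (.e (nat_lit 483396) (nat_lit 24) (.e (nat_lit 344100) (nat_lit 18) (.e (nat_lit 5906) (nat_lit 320) .nil)))))) (.g (nat_lit 4) .nil .nil))))) (.nd (nat_lit 4) (.nd (nat_lit 5) 
(.lf (nat_lit 25482) (.g (nat_lit 3433) (.e (nat_lit 1190) (nat_lit 88) (.e (nat_lit 65628) (nat_lit 14) (.e (nat_lit 401457) (nat_lit 13) (.e (nat_lit 483395) (nat_lit 24) (.e (nat_lit 344097) (nat_lit 18) (.e (nat_lit 5905) (nat_lit 320) .nil)))))) (.g (nat_lit 6) .nil .nil))) 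
(.lf (nat_lit 25514) (.g (nat_lit 2626) (.e (nat_lit 1190) (nat_lit 88) (.e (nat_lit 65628) (nat_lit 14) (.e (nat_lit 401458) (nat_lit 13) (.e (nat_lit 483395) (nat_lit 24) (.e (nat_lit 344090) (nat_lit 18) (.e (nat_lit 5896) (nat_lit 320) .nil)))))) (.g (nat_lit 5) .nil .nil)))) (.nd (nat_lit 5) 
(.lf (nat_lit 25498) (.g (nat_lit 1918) (.e (nat_lit 1190) (nat_lit 88) (.e (nat_lit 65628) (nat_lit 14) (.e (nat_lit 401458) (nat_lit 13) (.e (nat_lit 483389) (nat_lit 23) (.e (nat_lit 335997) (nat_lit 1) (.e (nat_lit 57871) (nat_lit 264) .nil)))))) (.g (nat_lit 4) .nil .nil))) 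
(.lf (nat_lit 25530) (.g (nat_lit 2626) (.e (nat_lit 1190) (nat_lit 88) (.e (nat_lit 65628) (nat_lit 14) (.e (nat_lit 401459) (nat_lit 13) (.e (nat_lit 483344) (nat_lit 17) (.e (nat_lit 6155) (nat_lit 332) (.e (nat_lit 2544) (nat_lit 158) (.e (nat_lit 8439) (nat_lit 138) .nil))))))) (.g (nat_lit 4) .nil .nil)))))) (.nd (nat_lit 3) (.nd (nat_lit 4) (.nd (nat_lit 5) 
(.lf (nat_lit 25478) (.g (nat_lit 3538) (.e (nat_lit 1190) (nat_lit 88) (.e (nat_lit 65628) (nat_lit 14) (.e (nat_lit 401457) (nat_lit 13) (.e (nat_lit 483393) (nat_lit 23) (.e (nat_lit 335996) (nat_lit 1) (.e (nat_lit 57870) (nat_lit 264) .nil)))))) (.g (nat_lit 6) .nil .nil))) 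
(.lf (nat_lit 25510) (.g (nat_lit 3495) (.e (nat_lit 1190) (nat_lit 88) (.e (nat_lit 65628) (nat_lit 14) (.e (nat_lit 401458) (nat_lit 13) (.e (nat_lit 483393) (nat_lit 23) (.e (nat_lit 335995) (nat_lit 1) (.e (nat_lit 57872) (nat_lit 264) .nil)))))) (.g (nat_lit 0) .nil .nil)))) (.nd (nat_lit 5) 
(.lf (nat_lit 25494) (.g (nat_lit 2558) (.e (nat_lit 1190) (nat_lit 88) (.e (nat_lit 65628) (nat_lit 14) (.e (nat_lit 401458) (nat_lit 13) (.e (nat_lit 483387) (nat_lit 23) (.e (nat_lit 335997) (nat_lit 1) (.e (nat_lit 57871) (nat_lit 264) .nil)))))) (.g (nat_lit 5) .nil .nil))) 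
(.lf (nat_lit 25526) (.g (nat_lit 1158) (.e (nat_lit 1190) (nat_lit 88) (.e (nat_lit 65628) (nat_lit 14) (.e (nat_lit 401459) (nat_lit 13) (.e (nat_lit 483344) (nat_lit 17) .nil)))) .nil)))) (.nd (nat_lit 4) (.nd (nat_lit 5) 
(.lf (nat_lit 25486) (.g (nat_lit 1601) (.e (nat_lit 1190) (nat_lit 88) (.e (nat_lit 65628) (nat_lit 14) (.e (nat_lit 401458) (nat_lit 13) (.e (nat_lit 483383) (nat_lit 23) (.e (nat_lit 335878) (nat_lit 0) .nil))))) .nil)) 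
(.lf (nat_lit 25518) (.g (nat_lit 1873) (.e (nat_lit 1190) (nat_lit 88) (.e (nat_lit 65628) (nat_lit 14) (.e (nat_lit 401458) (nat_lit 13) (.e (nat_lit 483396) (nat_lit 24) (.e (nat_lit 344093) (nat_lit 18) .nil))))) .nil))) (.nd (nat_lit 5) 
(.lf (nat_lit 25502) (.g (nat_lit 2063) (.e (nat_lit 1190) (nat_lit 88) (.e (nat_lit 65628) (nat_lit 14) (.e (nat_lit 401458) (nat_lit 13) (.e (nat_lit 483393) (nat_lit 23) (.e (nat_lit 335986) (nat_lit 1) (.e (nat_lit 57870) (nat_lit 264) .nil)))))) (.g (nat_lit 4) .nil .nil))) 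
(.lf (nat_lit 25534) (.g (nat_lit 2449) (.e (nat_lit 1190) (nat_lit 88) (.e (nat_lit 65628) (nat_lit 14) (.e (nat_lit 401459) (nat_lit 13) (.e (nat_lit 483344) (nat_lit 17) (.e (nat_lit 6436) (nat_lit 343) (.e (nat_lit 1183) (nat_lit 87) (.e (nat_lit 57870) (nat_lit 264) .nil))))))) (.g (nat_lit 4) .nil .nil)))))))) 
(.nd (nat_lit 1) (.nd (nat_lit 2) (.nd (nat_lit 3) (.nd (nat_lit 4) (.nd (nat_lit 5) 
(.lf (nat_lit 25473) (.g (nat_lit 2647) (.e (nat_lit 1190) (nat_lit 88) (.e (nat_lit 65628) (nat_lit 14) (.e (nat_lit 401457) (nat_lit 13) (.e (nat_lit 483393) (nat_lit 23) (.e (nat_lit 335987) (nat_lit 1) (.e (nat_lit 57870) (nat_lit 264) .nil)))))) (.g (nat_lit 5) .nil .nil))) 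
(.lf (nat_lit 25505) (.g (nat_lit 3108) (.e (nat_lit 1190) (nat_lit 88) (.e (nat_lit 65628) (nat_lit 14) (.e (nat_lit 401458) (nat_lit 13) (.e (nat_lit 483393) (nat_lit 23) (.e (nat_lit 335986) (nat_lit 1) (.e (nat_lit 57873) (nat_lit 264) .nil)))))) (.g (nat_lit 6) .nil .nil)))) (.nd (nat_lit 5) 
(.lf (nat_lit 25489) (.g (nat_lit 2657) (.e (nat_lit 1190) (nat_lit 88) (.e (nat_lit 65628) (nat_lit 14) (.e (nat_lit 401458) (nat_lit 13) (.e (nat_lit 483383) (nat_lit 23) (.e (nat_lit 336000) (nat_lit 1) (.e (nat_lit 57871) (nat_lit 264) .nil)))))) (.g (nat_lit 5) .nil .nil))) 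
(.lf (nat_lit 25521) (.g (nat_lit 2107) (.e (nat_lit 1190) (nat_lit 88) (.e (nat_lit 65628) (nat_lit 14) (.e (nat_lit 401458) (nat_lit 13) (.e (nat_lit 483396) (nat_lit 24) (.e (nat_lit 344100) (nat_lit 18) (.e (nat_lit 5905) (nat_lit 320) .nil)))))) (.g (nat_lit 4) .nil .nil))))) (.nd (nat_lit 4) (.nd (nat_lit 5) 
(.lf (nat_lit 25481) (.g (nat_lit 2327) (.e (nat_lit 1190) (nat_lit 88) (.e (nat_lit 65628) (nat_lit 14) (.e (nat_lit 401457) (nat_lit 13) (.e (nat_lit 483395) (nat_lit 24) (.e (nat_lit 344090) (nat_lit 18) (.e (nat_lit 5896) (nat_lit 320) .nil)))))) (.g (nat_lit 4) .nil .nil))) 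
(.lf (nat_lit 25513) (.g (nat_lit 1956) (.e (nat_lit 1190) (nat_lit 88) (.e (nat_lit 65628) (nat_lit 14) (.e (nat_lit 401458) (nat_lit 13) (.e (nat_lit 483394) (nat_lit 24) (.e (nat_lit 344100) (nat_lit 18) (.e (nat_lit 5907) (nat_lit 320) .nil)))))) (.g (nat_lit 4) .nil .nil)))) (.nd (nat_lit 5) 
(.lf (nat_lit 25497) (.g (nat_lit 2250) (.e (nat_lit 1190) (nat_lit 88) (.e (nat_lit 65628) (nat_lit 14) (.e (nat_lit 401458) (nat_lit 13) (.e (nat_lit 483389) (nat_lit 23) (.e (nat_lit 335997) (nat_lit 1) (.e (nat_lit 57870) (nat_lit 264) .nil)))))) (.g (nat_lit 5) .nil .nil))) 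
(.lf (nat_lit 25529) (.g (nat_lit 2725) (.e (nat_lit 1190) (nat_lit 88) (.e (nat_lit 65628) (nat_lit 14) (.e (nat_lit 401459) (nat_lit 13) (.e (nat_lit 483344) (nat_lit 17) (.e (nat_lit 6154) (nat_lit 332) (.e (nat_lit 2544) (nat_lit 158) (.e (nat_lit 8439) (nat_lit 138) .nil))))))) (.g (nat_lit 4) .nil .nil)))))) (.nd (nat_lit 3) (.nd (nat_lit 4) (.nd (nat_lit 5) 
(.lf (nat_lit 25477) (.g (nat_lit 3634) (.e (nat_lit 1190) (nat_lit 88) (.e (nat_lit 65628) (nat_lit 14) (.e (nat_lit 401457) (nat_lit 13) (.e (nat_lit 483393) (nat_lit 23) (.e (nat_lit 335995) (nat_lit 1) (.e (nat_lit 57872) (nat_lit 264) .nil)))))) (.g (nat_lit 6) .nil .nil))) 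
(.lf (nat_lit 25509) (.g (nat_lit 2873) (.e (nat_lit 1190) (nat_lit 88) (.e (nat_lit 65628) (nat_lit 14) (.e (nat_lit 401458) (nat_lit 13) (.e (nat_lit 483393) (nat_lit 23) (.e (nat_lit 335995) (nat_lit 1) (.e (nat_lit 57870) (nat_lit 264) .nil)))))) (.g (nat_lit 5) .nil .nil)))) (.nd (nat_lit 5) 
(.lf (nat_lit 25493) (.g (nat_lit 2750) (.e (nat_lit 1190) (nat_lit 88) (.e (nat_lit 65628) (nat_lit 14) (.e (nat_lit 401458) (nat_lit 13) (.e (nat_lit 483387) (nat_lit 23) (.e (nat_lit 335997) (nat_lit 1) (.e (nat_lit 57870) (nat_lit 264) .nil)))))) (.g (nat_lit 6) .nil .nil))) 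
(.lf (nat_lit 25525) (.g (nat_lit 1583) (.e (nat_lit 1190) (nat_lit 88) (.e (nat_lit 65628) (nat_lit 14) (.e (nat_lit 401459) (nat_lit 13) (.e (nat_lit 483343) (nat_lit 17) .nil)))) .nil)))) (.nd (nat_lit 4) (.nd (nat_lit 5) 
(.lf (nat_lit 25485) (.g (nat_lit 435) (.e (nat_lit 1190) (nat_lit 88) (.e (nat_lit 65628) (nat_lit 14) (.e (nat_lit 401458) (nat_lit 13) .nil))) .nil)) 
(.lf (nat_lit 25517) (.g (nat_lit 1164) (.e (nat_lit 1190) (nat_lit 88) (.e (nat_lit 65628) (nat_lit 14) (.e (nat_lit 401458) (nat_lit 13) (.e (nat_lit 483396) (nat_lit 24) .nil)))) .nil))) (.nd (nat_lit 5) 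
(.lf (nat_lit 25501) (.g (nat_lit 1110) (.e (nat_lit 1190) (nat_lit 88) (.e (nat_lit 65628) (nat_lit 14) (.e (nat_lit 401458) (nat_lit 13) (.e (nat_lit 483393) (nat_lit 23) .nil)))) .nil)) 
(.lf (nat_lit 25533) (.g (nat_lit 2435) (.e (nat_lit 1190) (nat_lit 88) (.e (nat_lit 65628) (nat_lit 14) (.e (nat_lit 401459) (nat_lit 13) (.e (nat_lit 483344) (nat_lit 17) (.e (nat_lit 6434) (nat_lit 343) (.e (nat_lit 1183) (nat_lit 87) (.e (nat_lit 57871) (nat_lit 264) .nil))))))) (.g (nat_lit 4) .nil .nil))))))) (.nd (nat_lit 2) (.nd (nat_lit 3) (.nd (nat_lit 4) (.nd (nat_lit 5) 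
(.lf (nat_lit 25475) (.g (nat_lit 2051) (.e (nat_lit 1190) (nat_lit 88) (.e (nat_lit 65628) (nat_lit 14) (.e (nat_lit 401457) (nat_lit 13) (.e (nat_lit 483393) (nat_lit 23) (.e (nat_lit 335993) (nat_lit 1) .nil))))) .nil)) 
(.lf (nat_lit 25507) (.g (nat_lit 3107) (.e (nat_lit 1190) (nat_lit 88) (.e (nat_lit 65628) (nat_lit 14) (.e (nat_lit 401458) (nat_lit 13) (.e (nat_lit 483393) (nat_lit 23) (.e (nat_lit 335988) (nat_lit 1) (.e (nat_lit 57870) (nat_lit 264) .nil)))))) (.g (nat_lit 6) .nil .nil)))) (.nd (nat_lit 5) 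
(.lf (nat_lit 25491) (.g (nat_lit 3587) (.e (nat_lit 1190) (nat_lit 88) (.e (nat_lit 65628) (nat_lit 14) (.e (nat_lit 401458) (nat_lit 13) (.e (nat_lit 483383) (nat_lit 23) (.e (nat_lit 336000) (nat_lit 1) (.e (nat_lit 57873) (nat_lit 264) .nil)))))) (.g (nat_lit 0) .nil .nil))) 
(.lf (nat_lit 25523) (.g (nat_lit 1094) (.e (nat_lit 1190) (nat_lit 88) (.e (nat_lit 65628) (nat_lit 14) (.e (nat_lit 401458) (nat_lit 13) (.e (nat_lit 483399) (nat_lit 25) .nil)))) .nil)))) (.nd (nat_lit 4) (.nd (nat_lit 5) 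
(.lf (nat_lit 25483) (.g (nat_lit 3654) (.e (nat_lit 1190) (nat_lit 88) (.e (nat_lit 65628) (nat_lit 14) (.e (nat_lit 401457) (nat_lit 13) (.e (nat_lit 483395) (nat_lit 24) (.e (nat_lit 344097) (nat_lit 18) (.e (nat_lit 5907) (nat_lit 320) .nil)))))) (.g (nat_lit 0) .nil .nil))) 
(.lf (nat_lit 25515) (.g (nat_lit 3327) (.e (nat_lit 1190) (nat_lit 88) (.e (nat_lit 65628) (nat_lit 14) (.e (nat_lit 401458) (nat_lit 13) (.e (nat_lit 483395) (nat_lit 24) (.e (nat_lit 344097) (nat_lit 18) (.e (nat_lit 5905) (nat_lit 320) .nil)))))) (.g (nat_lit 6) .nil .nil)))) (.nd (nat_lit 5) 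
(.lf (nat_lit 25499) (.g (nat_lit 2232) (.e (nat_lit 1190) (nat_lit 88) (.e (nat_lit 65628) (nat_lit 14) (.e (nat_lit 401458) (nat_lit 13) (.e (nat_lit 483389) (nat_lit 23) (.e (nat_lit 335997) (nat_lit 1) (.e (nat_lit 57872) (nat_lit 264) .nil)))))) (.g (nat_lit 5) .nil .nil))) 
(.lf (nat_lit 25531) (.g (nat_lit 2535) (.e (nat_lit 1190) (nat_lit 88) (.e (nat_lit 65628) (nat_lit 14) (.e (nat_lit 401459) (nat_lit 13) (.e (nat_lit 483344) (nat_lit 17) (.e (nat_lit 6155) (nat_lit 332) (.e (nat_lit 2546) (nat_lit 158) (.e (nat_lit 8439) (nat_lit 138) .nil))))))) (.g (nat_lit 4) .nil .nil)))))) (.nd (nat_lit 3) (.nd (nat_lit 4) (.nd (nat_lit 5) 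
(.lf (nat_lit 25479) (.g (nat_lit 2169) (.e (nat_lit 1190) (nat_lit 88) (.e (nat_lit 65628) (nat_lit 14) (.e (nat_lit 401457) (nat_lit 13) (.e (nat_lit 491264) (nat_lit 23) (.e (nat_lit 335995) (nat_lit 1) (.e (nat_lit 57870) (nat_lit 264) .nil)))))) (.g (nat_lit 5) .nil .nil))) 
(.lf (nat_lit 25511) (.g (nat_lit 1868) (.e (nat_lit 1190) (nat_lit 88) (.e (nat_lit 65628) (nat_lit 14) (.e (nat_lit 401458) (nat_lit 13) (.e (nat_lit 483394) (nat_lit 24) (.e (nat_lit 344090) (nat_lit 18) (.e (nat_lit 5896) (nat_lit 320) .nil)))))) (.g (nat_lit 4) .nil .nil)))) (.nd (nat_lit 5) 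
(.lf (nat_lit 25495) (.g (nat_lit 2915) (.e (nat_lit 1190) (nat_lit 88) (.e (nat_lit 65628) (nat_lit 14) (.e (nat_lit 401458) (nat_lit 13) (.e (nat_lit 483387) (nat_lit 23) (.e (nat_lit 335997) (nat_lit 1) (.e (nat_lit 57872) (nat_lit 264) .nil)))))) (.g (nat_lit 0) .nil .nil))) 
(.lf (nat_lit 25527) (.g (nat_lit 2177) (.e (nat_lit 1190) (nat_lit 88) (.e (nat_lit 65628) (nat_lit 14) (.e (nat_lit 401459) (nat_lit 13) (.e (nat_lit 483344) (nat_lit 17) (.e (nat_lit 6152) (nat_lit 332) .nil))))) .nil)))) (.nd (nat_lit 4) (.nd (nat_lit 5) 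
(.lf (nat_lit 25487) (.g (nat_lit 1982) (.e (nat_lit 1190) (nat_lit 88) (.e (nat_lit 65628) (nat_lit 14) (.e (nat_lit 401458) (nat_lit 13) (.e (nat_lit 483383) (nat_lit 23) (.e (nat_lit 335878) (nat_lit 0) (.e (nat_lit 1028) (nat_lit 81) (.e (nat_lit 5902) (nat_lit 320) .nil))))))) (.g (nat_lit 4) .nil .nil))) 
(.lf (nat_lit 25519) (.g (nat_lit 2387) (.e (nat_lit 1190) (nat_lit 88) (.e (nat_lit 65628) (nat_lit 14) (.e (nat_lit 401458) (nat_lit 13) (.e (nat_lit 483396) (nat_lit 24) (.e (nat_lit 344097) (nat_lit 18) (.e (nat_lit 5905) (nat_lit 320) .nil)))))) (.g (nat_lit 4) .nil .nil)))) (.nd (nat_lit 5) 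
(.lf (nat_lit 25503) (.g (nat_lit 2547) (.e (nat_lit 1190) (nat_lit 88) (.e (nat_lit 65628) (nat_lit 14) (.e (nat_lit 401458) (nat_lit 13) (.e (nat_lit 483393) (nat_lit 23) (.e (nat_lit 335986) (nat_lit 1) (.e (nat_lit 57871) (nat_lit 264) .nil)))))) (.g (nat_lit 5) .nil .nil))) 
(.lf (nat_lit 25535) (.g (nat_lit 2474) (.e (nat_lit 1190) (nat_lit 88) (.e (nat_lit 65628) (nat_lit 14) (.e (nat_lit 401459) (nat_lit 13) (.e (nat_lit 483344) (nat_lit 17) (.e (nat_lit 6440) (nat_lit 343) (.e (nat_lit 1181) (nat_lit 87) (.e (nat_lit 57872) (nat_lit 264) .nil))))))) (.g (nat_lit 4) .nil .nil)))))))))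

noncomputable def tv361 : DT := (.nd (nat_lit 0) (.nd (nat_lit 1) (.nd (nat_lit 2) (.nd (nat_lit 3) (.nd (nat_lit 4) (.nd (nat_lit 5) 
(.lf (nat_lit 25536) (.g (nat_lit 2684) (.e (nat_lit 1190) (nat_lit 88) (.e (nat_lit 65628) (nat_lit 14) (.e (nat_lit 401459) (nat_lit 13) (.e (nat_lit 483344) (nat_lit 17) (.e (nat_lit 6479) (nat_lit 343) (.e (nat_lit 1181) (nat_lit 87) (.e (nat_lit 57870) (nat_lit 264) .nil))))))) (.g (nat_lit 4) .nil .nil))) 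
(.lf (nat_lit 25568) (.g (nat_lit 3247) (.e (nat_lit 1190) (nat_lit 88) (.e (nat_lit 65628) (nat_lit 14) (.e (nat_lit 401459) (nat_lit 13) (.e (nat_lit 483372) (nat_lit 21) (.e (nat_lit 327424) (nat_lit 0) (.e (nat_lit 17) (nat_lit 0) (.e (nat_lit 5905) (nat_lit 320) .nil))))))) (.g (nat_lit 4) .nil .nil)))) (.nd (nat_lit 5) 
(.lf (nat_lit 25552) (.g (nat_lit 2764) (.e (nat_lit 1190) (nat_lit 88) (.e (nat_lit 65628) (nat_lit 14) (.e (nat_lit 401459) (nat_lit 13) (.e (nat_lit 483350) (nat_lit 17) (.e (nat_lit 6113) (nat_lit 332) (.e (nat_lit 2538) (nat_lit 158) (.e (nat_lit 8439) (nat_lit 138) .nil))))))) (.g (nat_lit 4) .nil .nil))) 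
(.lf (nat_lit 25584) (.g (nat_lit 3274) (.e (nat_lit 1190) (nat_lit 88) (.e (nat_lit 65628) (nat_lit 14) (.e (nat_lit 401459) (nat_lit 13) (.e (nat_lit 483380) (nat_lit 23) (.e (nat_lit 335969) (nat_lit 0) .nil))))) .nil)))) (.nd (nat_lit 4) (.nd (nat_lit 5) 
(.lf (nat_lit 25544) (.g (nat_lit 2934) (.e (nat_lit 1190) (nat_lit 88) (.e (nat_lit 65628) (nat_lit 14) (.e (nat_lit 401459) (nat_lit 13) (.e (nat_lit 483344) (nat_lit 17) (.e (nat_lit 6712) (nat_lit 360) (.e (nat_lit 163843) (nat_lit 0) (.e (nat_lit 4598) (nat_lit 269) .nil))))))) (.g (nat_lit 5) .nil .nil))) 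
(.lf (nat_lit 25576) (.g (nat_lit 3622) (.e (nat_lit 1190) (nat_lit 88) (.e (nat_lit 65628) (nat_lit 14) (.e (nat_lit 401459) (nat_lit 13) (.e (nat_lit 483375) (nat_lit 22) (.e (nat_lit 327692) (nat_lit 1) (.e (nat_lit 8439) (nat_lit 138) .nil)))))) (.g (nat_lit 5) .nil .nil)))) (.nd (nat_lit 5) 
(.lf (nat_lit 25560) (.g (nat_lit 1687) (.e (nat_lit 1190) (nat_lit 88) (.e (nat_lit 65628) (nat_lit 14) (.e (nat_lit 401459) (nat_lit 13) (.e (nat_lit 483354) (nat_lit 17) .nil)))) .nil)) 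
(.lf (nat_lit 25592) (.g (nat_lit 2622) (.e (nat_lit 1190) (nat_lit 88) (.e (nat_lit 65628) (nat_lit 14) (.e (nat_lit 401459) (nat_lit 13) (.e (nat_lit 483380) (nat_lit 23) (.e (nat_lit 336258) (nat_lit 15) .nil))))) .nil))))) (.nd (nat_lit 3) (.nd (nat_lit 4) (.nd (nat_lit 5) 
(.lf (nat_lit 25540) (.g (nat_lit 2523) (.e (nat_lit 1190) (nat_lit 88) (.e (nat_lit 65628) (nat_lit 14) (.e (nat_lit 401459) (nat_lit 13) (.e (nat_lit 483344) (nat_lit 17) (.e (nat_lit 7936) (nat_lit 346) (.e (nat_lit 57354) (nat_lit 0) (.e (nat_lit 5907) (nat_lit 320) .nil))))))) (.g (nat_lit 4) .nil .nil))) 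
(.lf (nat_lit 25572) (.g (nat_lit 4385) (.e (nat_lit 1190) (nat_lit 88) (.e (nat_lit 65628) (nat_lit 14) (.e (nat_lit 401459) (nat_lit 13) (.e (nat_lit 483372) (nat_lit 21) (.e (nat_lit 319514) (nat_lit 11) (.e (nat_lit 8484) (nat_lit 168) .nil)))))) (.g (nat_lit 4) .nil .nil)))) (.nd (nat_lit 5) 
(.lf (nat_lit 25556) (.g (nat_lit 2973) (.e (nat_lit 1190) (nat_lit 88) (.e (nat_lit 65628) (nat_lit 14) (.e (nat_lit 401459) (nat_lit 13) (.e (nat_lit 483350) (nat_lit 17) (.e (nat_lit 7936) (nat_lit 343) (.e (nat_lit 1183) (nat_lit 87) (.e (nat_lit 57870) (nat_lit 264) .nil))))))) (.g (nat_lit 4) .nil .nil))) 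
(.lf (nat_lit 25588) (.g (nat_lit 3036) (.e (nat_lit 1190) (nat_lit 88) (.e (nat_lit 65628) (nat_lit 14) (.e (nat_lit 401459) (nat_lit 13) (.e (nat_lit 483380) (nat_lit 23) (.e (nat_lit 336000) (nat_lit 1) .nil))))) .nil)))) (.nd (nat_lit 4) (.nd (nat_lit 5) 
(.lf (nat_lit 25548) (.g (nat_lit 4127) (.e (nat_lit 1190) (nat_lit 88) (.e (nat_lit 65628) (nat_lit 14) (.e (nat_lit 401459) (nat_lit 13) (.e (nat_lit 483344) (nat_lit 17) (.e (nat_lit 6714) (nat_lit 360) (.e (nat_lit 163850) (nat_lit 0) (.e (nat_lit 4605) (nat_lit 269) .nil))))))) (.g (nat_lit 0) .nil .nil))) 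
(.lf (nat_lit 25580) (.g (nat_lit 3210) (.e (nat_lit 1190) (nat_lit 88) (.e (nat_lit 65628) (nat_lit 14) (.e (nat_lit 401459) (nat_lit 13) (.e (nat_lit 483380) (nat_lit 23) (.e (nat_lit 335873) (nat_lit 0) .nil))))) .nil))) (.nd (nat_lit 5) 
(.lf (nat_lit 25564) (.g (nat_lit 4278) (.e (nat_lit 1190) (nat_lit 88) (.e (nat_lit 65628) (nat_lit 14) (.e (nat_lit 401459) (nat_lit 13) (.e (nat_lit 483372) (nat_lit 21) (.e (nat_lit 319490) (nat_lit 0) (.e (nat_lit 79) (nat_lit 0) (.e (nat_lit 5902) (nat_lit 320) .nil))))))) (.g (nat_lit 4) .nil .nil))) 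
(.lf (nat_lit 25596) (.g (nat_lit 2966) (.e (nat_lit 1190) (nat_lit 88) (.e (nat_lit 65628) (nat_lit 14) (.e (nat_lit 401459) (nat_lit 13) (.e (nat_lit 483383) (nat_lit 23) (.e (nat_lit 336000) (nat_lit 1) (.e (nat_lit 57872) (nat_lit 264) .nil)))))) (.g (nat_lit 4) .nil .nil))))))) (.nd (nat_lit 2) (.nd (nat_lit 3) (.nd (nat_lit 4) (.nd (nat_lit 5) 
(.lf (nat_lit 25538) (.g (nat_lit 2145) (.e (nat_lit 1190) (nat_lit 88) (.e (nat_lit 65628) (nat_lit 14) (.e (nat_lit 401459) (nat_lit 13) (.e (nat_lit 483344) (nat_lit 17) (.e (nat_lit 7936) (nat_lit 343) .nil))))) .nil)) 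
(.lf (nat_lit 25570) (.g (nat_lit 4700) (.e (nat_lit 1190) (nat_lit 88) (.e (nat_lit 65628) (nat_lit 14) (.e (nat_lit 401459) (nat_lit 13) (.e (nat_lit 483372) (nat_lit 21) (.e (nat_lit 319504) (nat_lit 10) .nil))))) .nil))) (.nd (nat_lit 5) 
(.lf (nat_lit 25554) (.g (nat_lit 2735) (.e (nat_lit 1190) (nat_lit 88) (.e (nat_lit 65628) (nat_lit 14) (.e (nat_lit 401459) (nat_lit 13) (.e (nat_lit 483350) (nat_lit 17) (.e (nat_lit 6490) (nat_lit 343) .nil))))) .nil)) 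
(.lf (nat_lit 25586) (.g (nat_lit 3291) (.e (nat_lit 1190) (nat_lit 88) (.e (nat_lit 65628) (nat_lit 14) (.e (nat_lit 401459) (nat_lit 13) (.e (nat_lit 483380) (nat_lit 23) (.e (nat_lit 335973) (nat_lit 0) .nil))))) .nil)))) (.nd (nat_lit 4) (.nd (nat_lit 5) 
(.lf (nat_lit 25546) (.g (nat_lit 2488) (.e (nat_lit 1190) (nat_lit 88) (.e (nat_lit 65628) (nat_lit 14) (.e (nat_lit 401459) (nat_lit 13) (.e (nat_lit 483344) (nat_lit 17) (.e (nat_lit 6712) (nat_lit 360) (.e (nat_lit 163849) (nat_lit 0) (.e (nat_lit 4598) (nat_lit 269) .nil))))))) (.g (nat_lit 4) .nil .nil))) 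
(.lf (nat_lit 25578) (.g (nat_lit 3180) (.e (nat_lit 1190) (nat_lit 88) (.e (nat_lit 65628) (nat_lit 14) (.e (nat_lit 401459) (nat_lit 13) (.e (nat_lit 483378) (nat_lit 23) (.e (nat_lit 335997) (nat_lit 1) (.e (nat_lit 57871) (nat_lit 264) .nil)))))) (.g (nat_lit 6) .nil .nil)))) (.nd (nat_lit 5) 
(.lf (nat_lit 25562) (.g (nat_lit 2812) (.e (nat_lit 1190) (nat_lit 88) (.e (nat_lit 65628) (nat_lit 14) (.e (nat_lit 401459) (nat_lit 13) (.e (nat_lit 483363) (nat_lit 18) (.e (nat_lit 65280) (nat_lit 217) .nil))))) .nil)) 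
(.lf (nat_lit 25594) (.g (nat_lit 1707) (.e (nat_lit 1190) (nat_lit 88) (.e (nat_lit 65628) (nat_lit 14) (.e (nat_lit 401459) (nat_lit 13) (.e (nat_lit 483381) (nat_lit 23) .nil)))) .nil))))) (.nd (nat_lit 3) (.nd (nat_lit 4) (.nd (nat_lit 5) 
(.lf (nat_lit 25542) (.g (nat_lit 2145) (.e (nat_lit 1190) (nat_lit 88) (.e (nat_lit 65628) (nat_lit 14) (.e (nat_lit 401459) (nat_lit 13) (.e (nat_lit 483344) (nat_lit 17) (.e (nat_lit 7936) (nat_lit 357) .nil))))) .nil)) 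
(.lf (nat_lit 25574) (.g (nat_lit 1863) (.e (nat_lit 1190) (nat_lit 88) (.e (nat_lit 65628) (nat_lit 14) (.e (nat_lit 401459) (nat_lit 13) (.e (nat_lit 483374) (nat_lit 22) .nil)))) .nil))) (.nd (nat_lit 5) 
(.lf (nat_lit 25558) (.g (nat_lit 3201) (.e (nat_lit 1190) (nat_lit 88) (.e (nat_lit 65628) (nat_lit 14) (.e (nat_lit 401459) (nat_lit 13) (.e (nat_lit 483350) (nat_lit 17) (.e (nat_lit 7936) (nat_lit 346) (.e (nat_lit 57354) (nat_lit 0) (.e (nat_lit 5905) (nat_lit 320) .nil))))))) (.g (nat_lit 4) .nil .nil))) 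
(.lf (nat_lit 25590) (.g (nat_lit 2525) (.e (nat_lit 1190) (nat_lit 88) (.e (nat_lit 65628) (nat_lit 14) (.e (nat_lit 401459) (nat_lit 13) (.e (nat_lit 483380) (nat_lit 23) (.e (nat_lit 343808) (nat_lit 1) (.e (nat_lit 57871) (nat_lit 264) .nil)))))) (.g (nat_lit 4) .nil .nil))))) (.nd (nat_lit 4) (.nd (nat_lit 5) 
(.lf (nat_lit 25550) (.g (nat_lit 2672) (.e (nat_lit 1190) (nat_lit 88) (.e (nat_lit 65628) (nat_lit 14) (.e (nat_lit 401459) (nat_lit 13) (.e (nat_lit 483347) (nat_lit 17) (.e (nat_lit 7936) (nat_lit 346) (.e (nat_lit 57354) (nat_lit 0) (.e (nat_lit 5906) (nat_lit 320) .nil))))))) (.g (nat_lit 4) .nil .nil))) 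
(.lf (nat_lit 25582) (.g (nat_lit 3220) (.e (nat_lit 1190) (nat_lit 88) (.e (nat_lit 65628) (nat_lit 14) (.e (nat_lit 401459) (nat_lit 13) (.e (nat_lit 483380) (nat_lit 23) (.e (nat_lit 335883) (nat_lit 0) .nil))))) .nil))) (.nd (nat_lit 5) 
(.lf (nat_lit 25566) (.g (nat_lit 5353) (.e (nat_lit 1190) (nat_lit 88) (.e (nat_lit 65628) (nat_lit 14) (.e (nat_lit 401459) (nat_lit 13) (.e (nat_lit 483372) (nat_lit 21) (.e (nat_lit 319494) (nat_lit 0) .nil))))) .nil)) 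
(.lf (nat_lit 25598) (.g (nat_lit 1188) (.e (nat_lit 1190) (nat_lit 88) (.e (nat_lit 65628) (nat_lit 14) (.e (nat_lit 401459) (nat_lit 13) (.e (nat_lit 483386) (nat_lit 23) .nil)))) .nil))))))) (.nd (nat_lit 1) (.nd (nat_lit 2) (.nd (nat_lit 3) (.nd (nat_lit 4) (.nd (nat_lit 5) 
(.lf (nat_lit 25537) (.g (nat_lit 2189) (.e (nat_lit 1190) (nat_lit 88) (.e (nat_lit 65628) (nat_lit 14) (.e (nat_lit 401459) (nat_lit 13) (.e (nat_lit 483344) (nat_lit 17) (.e (nat_lit 6486) (nat_lit 343) .nil))))) .nil)) 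
(.lf (nat_lit 25569) (.g (nat_lit 3382) (.e (nat_lit 1190) (nat_lit 88) (.e (nat_lit 65628) (nat_lit 14) (.e (nat_lit 401459) (nat_lit 13) (.e (nat_lit 483372) (nat_lit 21) (.e (nat_lit 327424) (nat_lit 0) (.e (nat_lit 19) (nat_lit 0) (.e (nat_lit 5905) (nat_lit 320) .nil))))))) (.g (nat_lit 4) .nil .nil)))) (.nd (nat_lit 5) 
(.lf (nat_lit 25553) (.g (nat_lit 2792) (.e (nat_lit 1190) (nat_lit 88) (.e (nat_lit 65628) (nat_lit 14) (.e (nat_lit 401459) (nat_lit 13) (.e (nat_lit 483350) (nat_lit 17) (.e (nat_lit 6113) (nat_lit 332) (.e (nat_lit 7936) (nat_lit 158) (.e (nat_lit 8439) (nat_lit 138) .nil))))))) (.g (nat_lit 4) .nil .nil))) 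
(.lf (nat_lit 25585) (.g (nat_lit 3280) (.e (nat_lit 1190) (nat_lit 88) (.e (nat_lit 65628) (nat_lit 14) (.e (nat_lit 401459) (nat_lit 13) (.e (nat_lit 483380) (nat_lit 23) (.e (nat_lit 335971) (nat_lit 0) .nil))))) .nil)))) (.nd (nat_lit 4) (.nd (nat_lit 5) 
(.lf (nat_lit 25545) (.g (nat_lit 2724) (.e (nat_lit 1190) (nat_lit 88) (.e (nat_lit 65628) (nat_lit 14) (.e (nat_lit 401459) (nat_lit 13) (.e (nat_lit 483344) (nat_lit 17) (.e (nat_lit 6712) (nat_lit 360) (.e (nat_lit 163844) (nat_lit 0) (.e (nat_lit 4598) (nat_lit 269) .nil))))))) (.g (nat_lit 4) .nil .nil))) 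
(.lf (nat_lit 25577) (.g (nat_lit 2691) (.e (nat_lit 1190) (nat_lit 88) (.e (nat_lit 65628) (nat_lit 14) (.e (nat_lit 401459) (nat_lit 13) (.e (nat_lit 483375) (nat_lit 22) (.e (nat_lit 335616) (nat_lit 1) .nil))))) .nil))) (.nd (nat_lit 5) 
(.lf (nat_lit 25561) (.g (nat_lit 2484) (.e (nat_lit 1190) (nat_lit 88) (.e (nat_lit 65628) (nat_lit 14) (.e (nat_lit 401459) (nat_lit 13) (.e (nat_lit 483354) (nat_lit 17) (.e (nat_lit 7936) (nat_lit 346) (.e (nat_lit 57354) (nat_lit 0) (.e (nat_lit 5907) (nat_lit 320) .nil))))))) (.g (nat_lit 4) .nil .nil))) 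
(.lf (nat_lit 25593) (.g (nat_lit 3007) (.e (nat_lit 1190) (nat_lit 88) (.e (nat_lit 65628) (nat_lit 14) (.e (nat_lit 401459) (nat_lit 13) (.e (nat_lit 483380) (nat_lit 23) (.e (nat_lit 336258) (nat_lit 15) (.e (nat_lit 2450) (nat_lit 157) (.e (nat_lit 7450) (nat_lit 396) .nil))))))) (.g (nat_lit 4) .nil .nil)))))) (.nd (nat_lit 3) (.nd (nat_lit 4) (.nd (nat_lit 5) 
(.lf (nat_lit 25541) (.g (nat_lit 2492) (.e (nat_lit 1190) (nat_lit 88) (.e (nat_lit 65628) (nat_lit 14) (.e (nat_lit 401459) (nat_lit 13) (.e (nat_lit 483344) (nat_lit 17) (.e (nat_lit 6522) (nat_lit 349) (.e (nat_lit 122883) (nat_lit 0) (.e (nat_lit 5907) (nat_lit 320) .nil))))))) (.g (nat_lit 4) .nil .nil))) 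
(.lf (nat_lit 25573) (.g (nat_lit 5446) (.e (nat_lit 1190) (nat_lit 88) (.e (nat_lit 65628) (nat_lit 14) (.e (nat_lit 401459) (nat_lit 13) (.e (nat_lit 483372) (nat_lit 21) (.e (nat_lit 319516) (nat_lit 11) (.e (nat_lit 8484) (nat_lit 168) .nil)))))) (.g (nat_lit 5) .nil .nil)))) (.nd (nat_lit 5) 
(.lf (nat_lit 25557) (.g (nat_lit 2785) (.e (nat_lit 1190) (nat_lit 88) (.e (nat_lit 65628) (nat_lit 14) (.e (nat_lit 401459) (nat_lit 13) (.e (nat_lit 483350) (nat_lit 17) (.e (nat_lit 7936) (nat_lit 346) .nil))))) .nil)) 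
(.lf (nat_lit 25589) (.g (nat_lit 2384) (.e (nat_lit 1190) (nat_lit 88) (.e (nat_lit 65628) (nat_lit 14) (.e (nat_lit 401459) (nat_lit 13) (.e (nat_lit 483380) (nat_lit 23) (.e (nat_lit 343808) (nat_lit 1) .nil))))) .nil)))) (.nd (nat_lit 4) (.nd (nat_lit 5) 
(.lf (nat_lit 25549) (.g (nat_lit 1745) (.e (nat_lit 1190) (nat_lit 88) (.e (nat_lit 65628) (nat_lit 14) (.e (nat_lit 401459) (nat_lit 13) (.e (nat_lit 483347) (nat_lit 17) .nil)))) .nil)) 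
(.lf (nat_lit 25581) (.g (nat_lit 3246) (.e (nat_lit 1190) (nat_lit 88) (.e (nat_lit 65628) (nat_lit 14) (.e (nat_lit 401459) (nat_lit 13) (.e (nat_lit 483380) (nat_lit 23) (.e (nat_lit 335880) (nat_lit 0) .nil))))) .nil))) (.nd (nat_lit 5) 
(.lf (nat_lit 25565) (.g (nat_lit 4897) (.e (nat_lit 1190) (nat_lit 88) (.e (nat_lit 65628) (nat_lit 14) (.e (nat_lit 401459) (nat_lit 13) (.e (nat_lit 483372) (nat_lit 21) (.e (nat_lit 319492) (nat_lit 0) .nil))))) .nil)) 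
(.lf (nat_lit 25597) (.g (nat_lit 3403) (.e (nat_lit 1190) (nat_lit 88) (.e (nat_lit 65628) (nat_lit 14) (.e (nat_lit 401459) (nat_lit 13) (.e (nat_lit 483383) (nat_lit 23) (.e (nat_lit 336000) (nat_lit 1) (.e (nat_lit 57873) (nat_lit 264) .nil)))))) (.g (nat_lit 4) .nil .nil))))))) (.nd (nat_lit 2) (.nd (nat_lit 3) (.nd (nat_lit 4) (.nd (nat_lit 5) 
(.lf (nat_lit 25539) (.g (nat_lit 4614) (.e (nat_lit 1190) (nat_lit 88) (.e (nat_lit 65628) (nat_lit 14) (.e (nat_lit 401459) (nat_lit 13) (.e (nat_lit 483344) (nat_lit 17) (.e (nat_lit 6514) (nat_lit 346) (.e (nat_lit 57354) (nat_lit 0) (.e (nat_lit 5905) (nat_lit 320) .nil))))))) (.g (nat_lit 7) .nil .nil))) 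
(.lf (nat_lit 25571) (.g (nat_lit 4512) (.e (nat_lit 1190) (nat_lit 88) (.e (nat_lit 65628) (nat_lit 14) (.e (nat_lit 401459) (nat_lit 13) (.e (nat_lit 483372) (nat_lit 21) (.e (nat_lit 319505) (nat_lit 10) .nil))))) .nil))) (.nd (nat_lit 5) 
(.lf (nat_lit 25555) (.g (nat_lit 2785) (.e (nat_lit 1190) (nat_lit 88) (.e (nat_lit 65628) (nat_lit 14) (.e (nat_lit 401459) (nat_lit 13) (.e (nat_lit 483350) (nat_lit 17) (.e (nat_lit 7936) (nat_lit 343) .nil))))) .nil)) 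
(.lf (nat_lit 25587) (.g (nat_lit 3345) (.e (nat_lit 1190) (nat_lit 88) (.e (nat_lit 65628) (nat_lit 14) (.e (nat_lit 401459) (nat_lit 13) (.e (nat_lit 483380) (nat_lit 23) (.e (nat_lit 335973) (nat_lit 0) (.e (nat_lit 1023) (nat_lit 81) (.e (nat_lit 5905) (nat_lit 320) .nil))))))) (.g (nat_lit 4) .nil .nil))))) (.nd (nat_lit 4) (.nd (nat_lit 5) 
(.lf (nat_lit 25547) (.g (nat_lit 2857) (.e (nat_lit 1190) (nat_lit 88) (.e (nat_lit 65628) (nat_lit 14) (.e (nat_lit 401459) (nat_lit 13) (.e (nat_lit 483344) (nat_lit 17) (.e (nat_lit 6714) (nat_lit 360) (.e (nat_lit 163842) (nat_lit 0) (.e (nat_lit 4616) (nat_lit 269) .nil))))))) (.g (nat_lit 5) .nil .nil))) 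
(.lf (nat_lit 25579) (.g (nat_lit 1712) (.e (nat_lit 1190) (nat_lit 88) (.e (nat_lit 65628) (nat_lit 14) (.e (nat_lit 401459) (nat_lit 13) (.e (nat_lit 483380) (nat_lit 23) .nil)))) .nil))) (.nd (nat_lit 5) 
(.lf (nat_lit 25563) (.g (nat_lit 2615) (.e (nat_lit 1190) (nat_lit 88) (.e (nat_lit 65628) (nat_lit 14) (.e (nat_lit 401459) (nat_lit 13) (.e (nat_lit 483371) (nat_lit 21) (.e (nat_lit 319516) (nat_lit 11) (.e (nat_lit 8484) (nat_lit 168) .nil)))))) (.g (nat_lit 4) .nil .nil))) 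
(.lf (nat_lit 25595) (.g (nat_lit 2048) (.e (nat_lit 1190) (nat_lit 88) (.e (nat_lit 65628) (nat_lit 14) (.e (nat_lit 401459) (nat_lit 13) (.e (nat_lit 483383) (nat_lit 23) .nil)))) .nil))))) (.nd (nat_lit 3) (.nd (nat_lit 4) (.nd (nat_lit 5) 
(.lf (nat_lit 25543) (.g (nat_lit 2045) (.e (nat_lit 1190) (nat_lit 88) (.e (nat_lit 65628) (nat_lit 14) (.e (nat_lit 401459) (nat_lit 13) (.e (nat_lit 483344) (nat_lit 17) (.e (nat_lit 6712) (nat_lit 360) .nil))))) .nil)) 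
(.lf (nat_lit 25575) (.g (nat_lit 1776) (.e (nat_lit 1190) (nat_lit 88) (.e (nat_lit 65628) (nat_lit 14) (.e (nat_lit 401459) (nat_lit 13) (.e (nat_lit 483375) (nat_lit 22) .nil)))) .nil))) (.nd (nat_lit 5) 
(.lf (nat_lit 25559) (.g (nat_lit 2921) (.e (nat_lit 1190) (nat_lit 88) (.e (nat_lit 65628) (nat_lit 14) (.e (nat_lit 401459) (nat_lit 13) (.e (nat_lit 483350) (nat_lit 17) (.e (nat_lit 7936) (nat_lit 346) (.e (nat_lit 57354) (nat_lit 0) (.e (nat_lit 5906) (nat_lit 320) .nil))))))) (.g (nat_lit 4) .nil .nil))) 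
(.lf (nat_lit 25591) (.g (nat_lit 2721) (.e (nat_lit 1190) (nat_lit 88) (.e (nat_lit 65628) (nat_lit 14) (.e (nat_lit 401459) (nat_lit 13) (.e (nat_lit 483380) (nat_lit 23) (.e (nat_lit 336257) (nat_lit 15) .nil))))) .nil)))) (.nd (nat_lit 4) (.nd (nat_lit 5) 
(.lf (nat_lit 25551) (.g (nat_lit 2830) (.e (nat_lit 1190) (nat_lit 88) (.e (nat_lit 65628) (nat_lit 14) (.e (nat_lit 401459) (nat_lit 13) (.e (nat_lit 483350) (nat_lit 17) (.e (nat_lit 6097) (nat_lit 332) .nil))))) .nil)) 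
(.lf (nat_lit 25583) (.g (nat_lit 3233) (.e (nat_lit 1190) (nat_lit 88) (.e (nat_lit 65628) (nat_lit 14) (.e (nat_lit 401459) (nat_lit 13) (.e (nat_lit 483380) (nat_lit 23) (.e (nat_lit 335885) (nat_lit 0) .nil))))) .nil))) (.nd (nat_lit 5) 
(.lf (nat_lit 25567) (.g (nat_lit 3200) (.e (nat_lit 1190) (nat_lit 88) (.e (nat_lit 65628) (nat_lit 14) (.e (nat_lit 401459) (nat_lit 13) (.e (nat_lit 483372) (nat_lit 21) (.e (nat_lit 327424) (nat_lit 0) .nil))))) .nil)) 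
(.lf (nat_lit 25599) (.g (nat_lit 1919) (.e (nat_lit 1190) (nat_lit 88) (.e (nat_lit 65628) (nat_lit 14) (.e (nat_lit 401459) (nat_lit 13) (.e (nat_lit 483386) (nat_lit 23) (.e (nat_lit 335991) (nat_lit 1) .nil))))) .nil))))))))

noncomputable def tv362 : DT := (.nd (nat_lit 0) (.nd (nat_lit 1) (.nd (nat_lit 2) (.nd (nat_lit 3) (.nd (nat_lit 4) (.nd (nat_lit 5) (.nd (nat_lit 6) 
(.lf (nat_lit 25600) (.g (nat_lit 2857) (.e (nat_lit 1190) (nat_lit 88) (.e (nat_lit 65628) (nat_lit 14) (.e (nat_lit 401459) (nat_lit 13) (.e (nat_lit 483386) (nat_lit 23) (.e (nat_lit 335992) (nat_lit 1) (.e (nat_lit 57870) (nat_lit 264) .nil)))))) (.g (nat_lit 6) .nil .nil))) 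
(.lf (nat_lit 25664) (.g (nat_lit 3004) (.e (nat_lit 1190) (nat_lit 88) (.e (nat_lit 65628) (nat_lit 14) (.e (nat_lit 401459) (nat_lit 13) (.e (nat_lit 483411) (nat_lit 27) (.e (nat_lit 401414) (nat_lit 0) (.e (nat_lit 2478) (nat_lit 157) (.e (nat_lit 4605) (nat_lit 269) .nil))))))) (.g (nat_lit 4) .nil .nil)))) (.nd (nat_lit 6) 
(.lf (nat_lit 25632) (.g (nat_lit 1668) (.e (nat_lit 1190) (nat_lit 88) (.e (nat_lit 65628) (nat_lit 14) (.e (nat_lit 401459) (nat_lit 13) (.e (nat_lit 483395) (nat_lit 24) (.e (nat_lit 344096) (nat_lit 18) (.e (nat_lit 5896) (nat_lit 320) .nil)))))) (.g (nat_lit 4) .nil .nil))) 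
(.lf (nat_lit 25696) (.g (nat_lit 1955) (.e (nat_lit 1190) (nat_lit 88) (.e (nat_lit 65629) (nat_lit 14) (.e (nat_lit 401459) (nat_lit 13) (.e (nat_lit 483380) (nat_lit 23) .nil)))) .nil)))) (.nd (nat_lit 5) (.nd (nat_lit 6) 
(.lf (nat_lit 25616) (.g (nat_lit 3258) (.e (nat_lit 1190) (nat_lit 88) (.e (nat_lit 65628) (nat_lit 14) (.e (nat_lit 401459) (nat_lit 13) (.e (nat_lit 483393) (nat_lit 23) (.e (nat_lit 335986) (nat_lit 1) (.e (nat_lit 57872) (nat_lit 264) .nil)))))) (.g (nat_lit 5) .nil .nil))) 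
(.lf (nat_lit 25680) (.g (nat_lit 2934) (.e (nat_lit 1190) (nat_lit 88) (.e (nat_lit 65629) (nat_lit 14) (.e (nat_lit 401459) (nat_lit 13) (.e (nat_lit 483344) (nat_lit 17) (.e (nat_lit 6514) (nat_lit 346) (.e (nat_lit 57354) (nat_lit 0) (.e (nat_lit 5907) (nat_lit 320) .nil))))))) (.g (nat_lit 4) .nil .nil)))) (.nd (nat_lit 6) 
(.lf (nat_lit 25648) (.g (nat_lit 1974) (.e (nat_lit 1190) (nat_lit 88) (.e (nat_lit 65628) (nat_lit 14) (.e (nat_lit 401459) (nat_lit 13) (.e (nat_lit 483399) (nat_lit 25) (.e (nat_lit 368662) (nat_lit 18) .nil))))) .nil)) 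
(.lf (nat_lit 25712) (.g (nat_lit 2200) (.e (nat_lit 1190) (nat_lit 88) (.e (nat_lit 65629) (nat_lit 14) (.e (nat_lit 401459) (nat_lit 13) (.e (nat_lit 483411) (nat_lit 27) .nil)))) .nil))))) (.nd (nat_lit 4) (.nd (nat_lit 5) (.nd (nat_lit 6) 
(.lf (nat_lit 25608) (.g (nat_lit 2789) (.e (nat_lit 1190) (nat_lit 88) (.e (nat_lit 65628) (nat_lit 14) (.e (nat_lit 401459) (nat_lit 13) (.e (nat_lit 483389) (nat_lit 23) (.e (nat_lit 335997) (nat_lit 1) (.e (nat_lit 57871) (nat_lit 264) .nil)))))) (.g (nat_lit 4) .nil .nil))) 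
(.lf (nat_lit 25672) (.g (nat_lit 2321) (.e (nat_lit 1190) (nat_lit 88) (.e (nat_lit 65629) (nat_lit 14) (.e (nat_lit 401459) (nat_lit 13) (.e (nat_lit 483343) (nat_lit 17) (.e (nat_lit 6514) (nat_lit 346) .nil))))) .nil))) (.nd (nat_lit 6) 
(.lf (nat_lit 25640) (.g (nat_lit 2986) (.e (nat_lit 1190) (nat_lit 88) (.e (nat_lit 65628) (nat_lit 14) (.e (nat_lit 401459) (nat_lit 13) (.e (nat_lit 483396) (nat_lit 24) (.e (nat_lit 344097) (nat_lit 18) (.e (nat_lit 5907) (nat_lit 320) .nil)))))) (.g (nat_lit 4) .nil .nil))) 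
(.lf (nat_lit 25704) (.g (nat_lit 2852) (.e (nat_lit 1190) (nat_lit 88) (.e (nat_lit 65629) (nat_lit 14) (.e (nat_lit 401459) (nat_lit 13) (.e (nat_lit 483397) (nat_lit 25) .nil)))) .nil)))) (.nd (nat_lit 5) (.nd (nat_lit 6) 
(.lf (nat_lit 25624) (.g (nat_lit 1762) (.e (nat_lit 1190) (nat_lit 88) (.e (nat_lit 65628) (nat_lit 14) (.e (nat_lit 401459) (nat_lit 13) (.e (nat_lit 491264) (nat_lit 23) .nil)))) .nil)) 
(.lf (nat_lit 25688) (.g (nat_lit 4270) (.e (nat_lit 1190) (nat_lit 88) (.e (nat_lit 65629) (nat_lit 14) (.e (nat_lit 401459) (nat_lit 13) (.e (nat_lit 483350) (nat_lit 17) (.e (nat_lit 7936) (nat_lit 343) .nil))))) .nil))) (.nd (nat_lit 6) 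
(.lf (nat_lit 25656) (.g (nat_lit 2284) (.e (nat_lit 1190) (nat_lit 88) (.e (nat_lit 65628) (nat_lit 14) (.e (nat_lit 401459) (nat_lit 13) (.e (nat_lit 483410) (nat_lit 27) (.e (nat_lit 401420) (nat_lit 1) .nil))))) .nil)) 
(.lf (nat_lit 25720) (.g (nat_lit 4208) (.e (nat_lit 1190) (nat_lit 88) (.e (nat_lit 65630) (nat_lit 14) (.e (nat_lit 401428) (nat_lit 3) (.e (nat_lit 204866) (nat_lit 28) (.e (nat_lit 352318) (nat_lit 24) (.e (nat_lit 123040) (nat_lit 140) .nil)))))) (.g (nat_lit 0) .nil .nil))))))) (.nd (nat_lit 3) (.nd (nat_lit 4) (.nd (nat_lit 5) (.nd (nat_lit 6) 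
(.lf (nat_lit 25604) (.g (nat_lit 3675) (.e (nat_lit 1190) (nat_lit 88) (.e (nat_lit 65628) (nat_lit 14) (.e (nat_lit 401459) (nat_lit 13) (.e (nat_lit 483387) (nat_lit 23) (.e (nat_lit 335997) (nat_lit 1) (.e (nat_lit 57872) (nat_lit 264) .nil)))))) (.g (nat_lit 0) .nil .nil))) 
(.lf (nat_lit 25668) (.g (nat_lit 3352) (.e (nat_lit 1190) (nat_lit 88) (.e (nat_lit 65628) (nat_lit 14) (.e (nat_lit 401459) (nat_lit 13) (.e (nat_lit 483411) (nat_lit 27) (.e (nat_lit 401421) (nat_lit 1) (.e (nat_lit 164422) (nat_lit 272) .nil)))))) (.g (nat_lit 5) .nil .nil)))) (.nd (nat_lit 6) 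
(.lf (nat_lit 25636) (.g (nat_lit 1889) (.e (nat_lit 1190) (nat_lit 88) (.e (nat_lit 65628) (nat_lit 14) (.e (nat_lit 401459) (nat_lit 13) (.e (nat_lit 483395) (nat_lit 24) (.e (nat_lit 344101) (nat_lit 18) .nil))))) .nil)) 
(.lf (nat_lit 25700) (.g (nat_lit 2676) (.e (nat_lit 1190) (nat_lit 88) (.e (nat_lit 65629) (nat_lit 14) (.e (nat_lit 401459) (nat_lit 13) (.e (nat_lit 483389) (nat_lit 23) .nil)))) .nil)))) (.nd (nat_lit 5) (.nd (nat_lit 6) 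
(.lf (nat_lit 25620) (.g (nat_lit 2576) (.e (nat_lit 1190) (nat_lit 88) (.e (nat_lit 65628) (nat_lit 14) (.e (nat_lit 401459) (nat_lit 13) (.e (nat_lit 483393) (nat_lit 23) (.e (nat_lit 335993) (nat_lit 1) .nil))))) .nil)) 
(.lf (nat_lit 25684) (.g (nat_lit 2432) (.e (nat_lit 1190) (nat_lit 88) (.e (nat_lit 65629) (nat_lit 14) (.e (nat_lit 401459) (nat_lit 13) (.e (nat_lit 483347) (nat_lit 17) .nil)))) .nil))) (.nd (nat_lit 6) 
(.lf (nat_lit 25652) (.g (nat_lit 1765) (.e (nat_lit 1190) (nat_lit 88) (.e (nat_lit 65628) (nat_lit 14) (.e (nat_lit 401459) (nat_lit 13) (.e (nat_lit 483400) (nat_lit 25) .nil)))) .nil)) 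
(.lf (nat_lit 25716) (.g (nat_lit 2971) (.e (nat_lit 1190) (nat_lit 88) (.e (nat_lit 65630) (nat_lit 14) (.e (nat_lit 401425) (nat_lit 2) (.e (nat_lit 196674) (nat_lit 15) (.e (nat_lit 81959) (nat_lit 24) .nil))))) .nil))))) (.nd (nat_lit 4) (.nd (nat_lit 5) (.nd (nat_lit 6) 
(.lf (nat_lit 25612) (.g (nat_lit 3290) (.e (nat_lit 1190) (nat_lit 88) (.e (nat_lit 65628) (nat_lit 14) (.e (nat_lit 401459) (nat_lit 13) (.e (nat_lit 483392) (nat_lit 23) (.e (nat_lit 335995) (nat_lit 1) (.e (nat_lit 57872) (nat_lit 264) .nil)))))) (.g (nat_lit 5) .nil .nil))) 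
(.lf (nat_lit 25676) (.g (nat_lit 2886) (.e (nat_lit 1190) (nat_lit 88) (.e (nat_lit 65629) (nat_lit 14) (.e (nat_lit 401459) (nat_lit 13) (.e (nat_lit 483344) (nat_lit 17) (.e (nat_lit 6486) (nat_lit 343) (.e (nat_lit 1181) (nat_lit 87) (.e (nat_lit 57872) (nat_lit 264) .nil))))))) (.g (nat_lit 4) .nil .nil)))) (.nd (nat_lit 6) 
(.lf (nat_lit 25644) (.g (nat_lit 1597) (.e (nat_lit 1190) (nat_lit 88) (.e (nat_lit 65628) (nat_lit 14) (.e (nat_lit 401459) (nat_lit 13) (.e (nat_lit 483398) (nat_lit 25) .nil)))) .nil)) 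
(.lf (nat_lit 25708) (.g (nat_lit 2346) (.e (nat_lit 1190) (nat_lit 88) (.e (nat_lit 65629) (nat_lit 14) (.e (nat_lit 401459) (nat_lit 13) (.e (nat_lit 483400) (nat_lit 25) .nil)))) .nil)))) (.nd (nat_lit 5) (.nd (nat_lit 6) 
(.lf (nat_lit 25628) (.g (nat_lit 2153) (.e (nat_lit 1190) (nat_lit 88) (.e (nat_lit 65628) (nat_lit 14) (.e (nat_lit 401459) (nat_lit 13) (.e (nat_lit 483394) (nat_lit 24) (.e (nat_lit 344100) (nat_lit 18) (.e (nat_lit 5906) (nat_lit 320) .nil)))))) (.g (nat_lit 4) .nil .nil))) 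
(.lf (nat_lit 25692) (.g (nat_lit 3211) (.e (nat_lit 1190) (nat_lit 88) (.e (nat_lit 65629) (nat_lit 14) (.e (nat_lit 401459) (nat_lit 13) (.e (nat_lit 483364) (nat_lit 18) (.e (nat_lit 65280) (nat_lit 217) .nil))))) .nil))) (.nd (nat_lit 6) 
(.lf (nat_lit 25660) (.g (nat_lit 2417) (.e (nat_lit 1190) (nat_lit 88) (.e (nat_lit 65628) (nat_lit 14) (.e (nat_lit 401459) (nat_lit 13) (.e (nat_lit 483411) (nat_lit 27) (.e (nat_lit 401414) (nat_lit 0) .nil))))) .nil)) 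
(.lf (nat_lit 25724) (.g (nat_lit 1099) (.e (nat_lit 1190) (nat_lit 88) (.e (nat_lit 65630) (nat_lit 14) (.e (nat_lit 401435) (nat_lit 9) (.e (nat_lit 426546) (nat_lit 30) .nil)))) .nil))))))) (.nd (nat_lit 2) (.nd (nat_lit 3) (.nd (nat_lit 4) (.nd (nat_lit 5) (.nd (nat_lit 6) 
(.lf (nat_lit 25602) (.g (nat_lit 3521) (.e (nat_lit 1190) (nat_lit 88) (.e (nat_lit 65628) (nat_lit 14) (.e (nat_lit 401459) (nat_lit 13) (.e (nat_lit 483387) (nat_lit 23) (.e (nat_lit 335997) (nat_lit 1) (.e (nat_lit 57870) (nat_lit 264) .nil)))))) (.g (nat_lit 6) .nil .nil))) 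
(.lf (nat_lit 25666) (.g (nat_lit 3409) (.e (nat_lit 1190) (nat_lit 88) (.e (nat_lit 65628) (nat_lit 14) (.e (nat_lit 401459) (nat_lit 13) (.e (nat_lit 483411) (nat_lit 27) (.e (nat_lit 401420) (nat_lit 1) (.e (nat_lit 164422) (nat_lit 272) .nil)))))) (.g (nat_lit 0) .nil .nil)))) (.nd (nat_lit 6) 
(.lf (nat_lit 25634) (.g (nat_lit 3792) (.e (nat_lit 1190) (nat_lit 88) (.e (nat_lit 65628) (nat_lit 14) (.e (nat_lit 401459) (nat_lit 13) (.e (nat_lit 483395) (nat_lit 24) (.e (nat_lit 344097) (nat_lit 18) (.e (nat_lit 5907) (nat_lit 320) .nil)))))) (.g (nat_lit 0) .nil .nil))) 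
(.lf (nat_lit 25698) (.g (nat_lit 2623) (.e (nat_lit 1190) (nat_lit 88) (.e (nat_lit 65629) (nat_lit 14) (.e (nat_lit 401459) (nat_lit 13) (.e (nat_lit 483383) (nat_lit 23) .nil)))) .nil)))) (.nd (nat_lit 5) (.nd (nat_lit 6) 
(.lf (nat_lit 25618) (.g (nat_lit 3208) (.e (nat_lit 1190) (nat_lit 88) (.e (nat_lit 65628) (nat_lit 14) (.e (nat_lit 401459) (nat_lit 13) (.e (nat_lit 483393) (nat_lit 23) (.e (nat_lit 335987) (nat_lit 1) (.e (nat_lit 57870) (nat_lit 264) .nil)))))) (.g (nat_lit 5) .nil .nil))) 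
(.lf (nat_lit 25682) (.g (nat_lit 2354) (.e (nat_lit 1190) (nat_lit 88) (.e (nat_lit 65629) (nat_lit 14) (.e (nat_lit 401459) (nat_lit 13) (.e (nat_lit 483344) (nat_lit 17) (.e (nat_lit 6619) (nat_lit 357) .nil))))) .nil))) (.nd (nat_lit 6) 
(.lf (nat_lit 25650) (.g (nat_lit 2072) (.e (nat_lit 1190) (nat_lit 88) (.e (nat_lit 65628) (nat_lit 14) (.e (nat_lit 401459) (nat_lit 13) (.e (nat_lit 483399) (nat_lit 25) (.e (nat_lit 368663) (nat_lit 18) .nil))))) .nil)) 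
(.lf (nat_lit 25714) (.g (nat_lit 686) (.e (nat_lit 1190) (nat_lit 88) (.e (nat_lit 65630) (nat_lit 14) (.e (nat_lit 401425) (nat_lit 2) .nil))) .nil))))) (.nd (nat_lit 4) (.nd (nat_lit 5) (.nd (nat_lit 6) 
(.lf (nat_lit 25610) (.g (nat_lit 1960) (.e (nat_lit 1190) (nat_lit 88) (.e (nat_lit 65628) (nat_lit 14) (.e (nat_lit 401459) (nat_lit 13) (.e (nat_lit 483391) (nat_lit 23) .nil)))) .nil)) 
(.lf (nat_lit 25674) (.g (nat_lit 2819) (.e (nat_lit 1190) (nat_lit 88) (.e (nat_lit 65629) (nat_lit 14) (.e (nat_lit 401459) (nat_lit 13) (.e (nat_lit 483344) (nat_lit 17) (.e (nat_lit 6203) (nat_lit 332) .nil))))) .nil))) (.nd (nat_lit 6) 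
(.lf (nat_lit 25642) (.g (nat_lit 3333) (.e (nat_lit 1190) (nat_lit 88) (.e (nat_lit 65628) (nat_lit 14) (.e (nat_lit 401459) (nat_lit 13) (.e (nat_lit 483396) (nat_lit 24) (.e (nat_lit 344100) (nat_lit 18) (.e (nat_lit 5907) (nat_lit 320) .nil)))))) (.g (nat_lit 4) .nil .nil))) 
(.lf (nat_lit 25706) (.g (nat_lit 2838) (.e (nat_lit 1190) (nat_lit 88) (.e (nat_lit 65629) (nat_lit 14) (.e (nat_lit 401459) (nat_lit 13) (.e (nat_lit 483398) (nat_lit 25) (.e (nat_lit 368662) (nat_lit 18) (.e (nat_lit 5907) (nat_lit 320) .nil)))))) (.g (nat_lit 4) .nil .nil))))) (.nd (nat_lit 5) (.nd (nat_lit 6) 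
(.lf (nat_lit 25626) (.g (nat_lit 4151) (.e (nat_lit 1190) (nat_lit 88) (.e (nat_lit 65628) (nat_lit 14) (.e (nat_lit 401459) (nat_lit 13) (.e (nat_lit 483394) (nat_lit 24) (.e (nat_lit 344097) (nat_lit 18) (.e (nat_lit 5907) (nat_lit 320) .nil)))))) (.g (nat_lit 0) .nil .nil))) 
(.lf (nat_lit 25690) (.g (nat_lit 4270) (.e (nat_lit 1190) (nat_lit 88) (.e (nat_lit 65629) (nat_lit 14) (.e (nat_lit 401459) (nat_lit 13) (.e (nat_lit 483350) (nat_lit 17) (.e (nat_lit 7936) (nat_lit 346) .nil))))) .nil))) (.nd (nat_lit 6) 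
(.lf (nat_lit 25658) (.g (nat_lit 2585) (.e (nat_lit 1190) (nat_lit 88) (.e (nat_lit 65628) (nat_lit 14) (.e (nat_lit 401459) (nat_lit 13) (.e (nat_lit 483410) (nat_lit 27) (.e (nat_lit 401422) (nat_lit 1) (.e (nat_lit 164422) (nat_lit 272) .nil)))))) (.g (nat_lit 4) .nil .nil))) 
(.lf (nat_lit 25722) (.g (nat_lit 4507) (.e (nat_lit 1190) (nat_lit 88) (.e (nat_lit 65630) (nat_lit 14) (.e (nat_lit 401428) (nat_lit 3) (.e (nat_lit 204869) (nat_lit 29) (.e (nat_lit 360456) (nat_lit 0) (.e (nat_lit 3962) (nat_lit 239) .nil)))))) (.g (nat_lit 5) .nil .nil))))))) (.nd (nat_lit 3) (.nd (nat_lit 4) (.nd (nat_lit 5) (.nd (nat_lit 6) 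
(.lf (nat_lit 25606) (.g (nat_lit 2025) (.e (nat_lit 1190) (nat_lit 88) (.e (nat_lit 65628) (nat_lit 14) (.e (nat_lit 401459) (nat_lit 13) (.e (nat_lit 483389) (nat_lit 23) .nil)))) .nil)) 
(.lf (nat_lit 25670) (.g (nat_lit 475) (.e (nat_lit 1190) (nat_lit 88) (.e (nat_lit 65629) (nat_lit 14) (.e (nat_lit 401459) (nat_lit 13) .nil))) .nil))) (.nd (nat_lit 6) 
(.lf (nat_lit 25638) (.g (nat_lit 2814) (.e (nat_lit 1190) (nat_lit 88) (.e (nat_lit 65628) (nat_lit 14) (.e (nat_lit 401459) (nat_lit 13) (.e (nat_lit 483396) (nat_lit 24) (.e (nat_lit 344097) (nat_lit 18) .nil))))) .nil)) 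
(.lf (nat_lit 25702) (.g (nat_lit 2568) (.e (nat_lit 1190) (nat_lit 88) (.e (nat_lit 65629) (nat_lit 14) (.e (nat_lit 401459) (nat_lit 13) (.e (nat_lit 483393) (nat_lit 23) .nil)))) .nil)))) (.nd (nat_lit 5) (.nd (nat_lit 6) 
(.lf (nat_lit 25622) (.g (nat_lit 4260) (.e (nat_lit 1190) (nat_lit 88) (.e (nat_lit 65628) (nat_lit 14) (.e (nat_lit 401459) (nat_lit 13) (.e (nat_lit 483393) (nat_lit 23) (.e (nat_lit 335995) (nat_lit 1) (.e (nat_lit 57872) (nat_lit 264) .nil)))))) (.g (nat_lit 6) .nil .nil))) 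
(.lf (nat_lit 25686) (.g (nat_lit 2902) (.e (nat_lit 1190) (nat_lit 88) (.e (nat_lit 65629) (nat_lit 14) (.e (nat_lit 401459) (nat_lit 13) (.e (nat_lit 483350) (nat_lit 17) .nil)))) .nil))) (.nd (nat_lit 6) 
(.lf (nat_lit 25654) (.g (nat_lit 3876) (.e (nat_lit 1190) (nat_lit 88) (.e (nat_lit 65628) (nat_lit 14) (.e (nat_lit 401459) (nat_lit 13) (.e (nat_lit 483400) (nat_lit 25) (.e (nat_lit 368662) (nat_lit 18) (.e (nat_lit 5906) (nat_lit 320) .nil)))))) (.g (nat_lit 0) .nil .nil))) 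
(.lf (nat_lit 25718) (.g (nat_lit 1532) (.e (nat_lit 1190) (nat_lit 88) (.e (nat_lit 65630) (nat_lit 14) (.e (nat_lit 401428) (nat_lit 3) (.e (nat_lit 204837) (nat_lit 20) .nil)))) .nil))))) (.nd (nat_lit 4) (.nd (nat_lit 5) (.nd (nat_lit 6) 
(.lf (nat_lit 25614) (.g (nat_lit 2906) (.e (nat_lit 1190) (nat_lit 88) (.e (nat_lit 65628) (nat_lit 14) (.e (nat_lit 401459) (nat_lit 13) (.e (nat_lit 483393) (nat_lit 23) (.e (nat_lit 335986) (nat_lit 1) (.e (nat_lit 57870) (nat_lit 264) .nil)))))) (.g (nat_lit 4) .nil .nil))) 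
(.lf (nat_lit 25678) (.g (nat_lit 3227) (.e (nat_lit 1190) (nat_lit 88) (.e (nat_lit 65629) (nat_lit 14) (.e (nat_lit 401459) (nat_lit 13) (.e (nat_lit 483344) (nat_lit 17) (.e (nat_lit 6514) (nat_lit 346) (.e (nat_lit 57354) (nat_lit 0) (.e (nat_lit 5905) (nat_lit 320) .nil))))))) (.g (nat_lit 4) .nil .nil)))) (.nd (nat_lit 6) 
(.lf (nat_lit 25646) (.g (nat_lit 3775) (.e (nat_lit 1190) (nat_lit 88) (.e (nat_lit 65628) (nat_lit 14) (.e (nat_lit 401459) (nat_lit 13) (.e (nat_lit 483398) (nat_lit 25) (.e (nat_lit 368662) (nat_lit 18) (.e (nat_lit 5907) (nat_lit 320) .nil)))))) (.g (nat_lit 0) .nil .nil))) 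
(.lf (nat_lit 25710) (.g (nat_lit 2247) (.e (nat_lit 1190) (nat_lit 88) (.e (nat_lit 65629) (nat_lit 14) (.e (nat_lit 401459) (nat_lit 13) (.e (nat_lit 483404) (nat_lit 26) .nil)))) .nil)))) (.nd (nat_lit 5) (.nd (nat_lit 6) 
(.lf (nat_lit 25630) (.g (nat_lit 1039) (.e (nat_lit 1190) (nat_lit 88) (.e (nat_lit 65628) (nat_lit 14) (.e (nat_lit 401459) (nat_lit 13) (.e (nat_lit 483395) (nat_lit 24) .nil)))) .nil)) 
(.lf (nat_lit 25694) (.g (nat_lit 2376) (.e (nat_lit 1190) (nat_lit 88) (.e (nat_lit 65629) (nat_lit 14) (.e (nat_lit 401459) (nat_lit 13) (.e (nat_lit 483374) (nat_lit 22) .nil)))) .nil))) (.nd (nat_lit 6) 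
(.lf (nat_lit 25662) (.g (nat_lit 2647) (.e (nat_lit 1190) (nat_lit 88) (.e (nat_lit 65628) (nat_lit 14) (.e (nat_lit 401459) (nat_lit 13) (.e (nat_lit 483411) (nat_lit 27) (.e (nat_lit 401414) (nat_lit 0) (.e (nat_lit 2458) (nat_lit 157) (.e (nat_lit 4602) (nat_lit 269) .nil))))))) (.g (nat_lit 4) .nil .nil))) 
(.lf (nat_lit 25726) (.g (nat_lit 2693) (.e (nat_lit 1190) (nat_lit 88) (.e (nat_lit 65630) (nat_lit 14) (.e (nat_lit 401435) (nat_lit 9) (.e (nat_lit 426555) (nat_lit 32) (.e (nat_lit 376857) (nat_lit 21) (.e (nat_lit 57872) (nat_lit 264) .nil)))))) (.g (nat_lit 5) .nil .nil))))))))) (.nd (nat_lit 1) (.nd (nat_lit 2) (.nd (nat_lit 3) (.nd (nat_lit 4) (.nd (nat_lit 5) (.nd (nat_lit 6) 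
(.lf (nat_lit 25601) (.g (nat_lit 1895) (.e (nat_lit 1190) (nat_lit 88) (.e (nat_lit 65628) (nat_lit 14) (.e (nat_lit 401459) (nat_lit 13) (.e (nat_lit 483386) (nat_lit 23) (.e (nat_lit 335992) (nat_lit 1) (.e (nat_lit 57872) (nat_lit 264) .nil)))))) (.g (nat_lit 4) .nil .nil))) 
(.lf (nat_lit 25665) (.g (nat_lit 2861) (.e (nat_lit 1190) (nat_lit 88) (.e (nat_lit 65628) (nat_lit 14) (.e (nat_lit 401459) (nat_lit 13) (.e (nat_lit 483411) (nat_lit 27) (.e (nat_lit 401418) (nat_lit 0) .nil))))) .nil))) (.nd (nat_lit 6) 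
(.lf (nat_lit 25633) (.g (nat_lit 3622) (.e (nat_lit 1190) (nat_lit 88) (.e (nat_lit 65628) (nat_lit 14) (.e (nat_lit 401459) (nat_lit 13) (.e (nat_lit 483395) (nat_lit 24) (.e (nat_lit 344097) (nat_lit 18) (.e (nat_lit 5905) (nat_lit 320) .nil)))))) (.g (nat_lit 6) .nil .nil))) 
(.lf (nat_lit 25697) (.g (nat_lit 1964) (.e (nat_lit 1190) (nat_lit 88) (.e (nat_lit 65629) (nat_lit 14) (.e (nat_lit 401459) (nat_lit 13) (.e (nat_lit 483381) (nat_lit 23) .nil)))) .nil)))) (.nd (nat_lit 5) (.nd (nat_lit 6) 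
(.lf (nat_lit 25617) (.g (nat_lit 3909) (.e (nat_lit 1190) (nat_lit 88) (.e (nat_lit 65628) (nat_lit 14) (.e (nat_lit 401459) (nat_lit 13) (.e (nat_lit 483393) (nat_lit 23) (.e (nat_lit 335986) (nat_lit 1) (.e (nat_lit 57873) (nat_lit 264) .nil)))))) (.g (nat_lit 6) .nil .nil))) 
(.lf (nat_lit 25681) (.g (nat_lit 2689) (.e (nat_lit 1190) (nat_lit 88) (.e (nat_lit 65629) (nat_lit 14) (.e (nat_lit 401459) (nat_lit 13) (.e (nat_lit 483344) (nat_lit 17) (.e (nat_lit 7936) (nat_lit 346) .nil))))) .nil))) (.nd (nat_lit 6) 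
(.lf (nat_lit 25649) (.g (nat_lit 3842) (.e (nat_lit 1190) (nat_lit 88) (.e (nat_lit 65628) (nat_lit 14) (.e (nat_lit 401459) (nat_lit 13) (.e (nat_lit 483399) (nat_lit 25) (.e (nat_lit 368662) (nat_lit 18) (.e (nat_lit 5906) (nat_lit 320) .nil)))))) (.g (nat_lit 0) .nil .nil))) 
(.lf (nat_lit 25713) (.g (nat_lit 3252) (.e (nat_lit 1190) (nat_lit 88) (.e (nat_lit 65629) (nat_lit 14) (.e (nat_lit 401459) (nat_lit 13) (.e (nat_lit 483411) (nat_lit 27) (.e (nat_lit 401414) (nat_lit 0) .nil))))) .nil))))) (.nd (nat_lit 4) (.nd (nat_lit 5) (.nd (nat_lit 6) 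
(.lf (nat_lit 25609) (.g (nat_lit 3089) (.e (nat_lit 1190) (nat_lit 88) (.e (nat_lit 65628) (nat_lit 14) (.e (nat_lit 401459) (nat_lit 13) (.e (nat_lit 483389) (nat_lit 23) (.e (nat_lit 335997) (nat_lit 1) (.e (nat_lit 57872) (nat_lit 264) .nil)))))) (.g (nat_lit 5) .nil .nil))) 
(.lf (nat_lit 25673) (.g (nat_lit 1793) (.e (nat_lit 1190) (nat_lit 88) (.e (nat_lit 65629) (nat_lit 14) (.e (nat_lit 401459) (nat_lit 13) (.e (nat_lit 483344) (nat_lit 17) .nil)))) .nil))) (.nd (nat_lit 6) 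
(.lf (nat_lit 25641) (.g (nat_lit 2823) (.e (nat_lit 1190) (nat_lit 88) (.e (nat_lit 65628) (nat_lit 14) (.e (nat_lit 401459) (nat_lit 13) (.e (nat_lit 483396) (nat_lit 24) (.e (nat_lit 344100) (nat_lit 18) .nil))))) .nil)) 
(.lf (nat_lit 25705) (.g (nat_lit 2520) (.e (nat_lit 1190) (nat_lit 88) (.e (nat_lit 65629) (nat_lit 14) (.e (nat_lit 401459) (nat_lit 13) (.e (nat_lit 483398) (nat_lit 25) (.e (nat_lit 368662) (nat_lit 18) .nil))))) .nil)))) (.nd (nat_lit 5) (.nd (nat_lit 6) 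
(.lf (nat_lit 25625) (.g (nat_lit 4001) (.e (nat_lit 1190) (nat_lit 88) (.e (nat_lit 65628) (nat_lit 14) (.e (nat_lit 401459) (nat_lit 13) (.e (nat_lit 483394) (nat_lit 24) (.e (nat_lit 344097) (nat_lit 18) (.e (nat_lit 5905) (nat_lit 320) .nil)))))) (.g (nat_lit 6) .nil .nil))) 
(.lf (nat_lit 25689) (.g (nat_lit 4525) (.e (nat_lit 1190) (nat_lit 88) (.e (nat_lit 65629) (nat_lit 14) (.e (nat_lit 401459) (nat_lit 13) (.e (nat_lit 483350) (nat_lit 17) (.e (nat_lit 7936) (nat_lit 343) (.e (nat_lit 1183) (nat_lit 87) (.e (nat_lit 57872) (nat_lit 264) .nil))))))) (.g (nat_lit 4) .nil .nil)))) (.nd (nat_lit 6) 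
(.lf (nat_lit 25657) (.g (nat_lit 2583) (.e (nat_lit 1190) (nat_lit 88) (.e (nat_lit 65628) (nat_lit 14) (.e (nat_lit 401459) (nat_lit 13) (.e (nat_lit 483410) (nat_lit 27) (.e (nat_lit 401422) (nat_lit 1) (.e (nat_lit 164421) (nat_lit 272) .nil)))))) (.g (nat_lit 4) .nil .nil))) 
(.lf (nat_lit 25721) (.g (nat_lit 2699) (.e (nat_lit 1190) (nat_lit 88) (.e (nat_lit 65630) (nat_lit 14) (.e (nat_lit 401428) (nat_lit 3) (.e (nat_lit 204868) (nat_lit 29) (.e (nat_lit 360456) (nat_lit 0) (.e (nat_lit 3962) (nat_lit 239) .nil)))))) (.g (nat_lit 4) .nil .nil))))))) (.nd (nat_lit 3) (.nd (nat_lit 4) (.nd (nat_lit 5) (.nd (nat_lit 6) 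
(.lf (nat_lit 25605) (.g (nat_lit 2132) (.e (nat_lit 1190) (nat_lit 88) (.e (nat_lit 65628) (nat_lit 14) (.e (nat_lit 401459) (nat_lit 13) (.e (nat_lit 483388) (nat_lit 23) .nil)))) .nil)) 
(.lf (nat_lit 25669) (.g (nat_lit 3490) (.e (nat_lit 1190) (nat_lit 88) (.e (nat_lit 65628) (nat_lit 14) (.e (nat_lit 401459) (nat_lit 13) (.e (nat_lit 483411) (nat_lit 27) (.e (nat_lit 401422) (nat_lit 1) (.e (nat_lit 164422) (nat_lit 272) .nil)))))) (.g (nat_lit 6) .nil .nil)))) (.nd (nat_lit 6) 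
(.lf (nat_lit 25637) (.g (nat_lit 1931) (.e (nat_lit 1190) (nat_lit 88) (.e (nat_lit 65628) (nat_lit 14) (.e (nat_lit 401459) (nat_lit 13) (.e (nat_lit 483396) (nat_lit 24) .nil)))) .nil)) 
(.lf (nat_lit 25701) (.g (nat_lit 3073) (.e (nat_lit 1190) (nat_lit 88) (.e (nat_lit 65629) (nat_lit 14) (.e (nat_lit 401459) (nat_lit 13) (.e (nat_lit 483392) (nat_lit 23) .nil)))) .nil)))) (.nd (nat_lit 5) (.nd (nat_lit 6) 
(.lf (nat_lit 25621) (.g (nat_lit 3625) (.e (nat_lit 1190) (nat_lit 88) (.e (nat_lit 65628) (nat_lit 14) (.e (nat_lit 401459) (nat_lit 13) (.e (nat_lit 483393) (nat_lit 23) (.e (nat_lit 335995) (nat_lit 1) (.e (nat_lit 57870) (nat_lit 264) .nil)))))) (.g (nat_lit 5) .nil .nil))) 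
(.lf (nat_lit 25685) (.g (nat_lit 2696) (.e (nat_lit 1190) (nat_lit 88) (.e (nat_lit 65629) (nat_lit 14) (.e (nat_lit 401459) (nat_lit 13) (.e (nat_lit 483347) (nat_lit 17) (.e (nat_lit 7936) (nat_lit 343) .nil))))) .nil))) (.nd (nat_lit 6) 
(.lf (nat_lit 25653) (.g (nat_lit 2004) (.e (nat_lit 1190) (nat_lit 88) (.e (nat_lit 65628) (nat_lit 14) (.e (nat_lit 401459) (nat_lit 13) (.e (nat_lit 483400) (nat_lit 25) (.e (nat_lit 368662) (nat_lit 18) .nil))))) .nil)) 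
(.lf (nat_lit 25717) (.g (nat_lit 593) (.e (nat_lit 1190) (nat_lit 88) (.e (nat_lit 65630) (nat_lit 14) (.e (nat_lit 401428) (nat_lit 3) .nil))) .nil))))) (.nd (nat_lit 4) (.nd (nat_lit 5) (.nd (nat_lit 6) 
(.lf (nat_lit 25613) (.g (nat_lit 1846) (.e (nat_lit 1190) (nat_lit 88) (.e (nat_lit 65628) (nat_lit 14) (.e (nat_lit 401459) (nat_lit 13) (.e (nat_lit 483393) (nat_lit 23) .nil)))) .nil)) 
(.lf (nat_lit 25677) (.g (nat_lit 2688) (.e (nat_lit 1190) (nat_lit 88) (.e (nat_lit 65629) (nat_lit 14) (.e (nat_lit 401459) (nat_lit 13) (.e (nat_lit 483344) (nat_lit 17) (.e (nat_lit 6513) (nat_lit 346) .nil))))) .nil))) (.nd (nat_lit 6) 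
(.lf (nat_lit 25645) (.g (nat_lit 3861) (.e (nat_lit 1190) (nat_lit 88) (.e (nat_lit 65628) (nat_lit 14) (.e (nat_lit 401459) (nat_lit 13) (.e (nat_lit 483398) (nat_lit 25) (.e (nat_lit 368662) (nat_lit 18) (.e (nat_lit 5906) (nat_lit 320) .nil)))))) (.g (nat_lit 0) .nil .nil))) 
(.lf (nat_lit 25709) (.g (nat_lit 1869) (.e (nat_lit 1190) (nat_lit 88) (.e (nat_lit 65629) (nat_lit 14) (.e (nat_lit 401459) (nat_lit 13) (.e (nat_lit 483403) (nat_lit 26) .nil)))) .nil)))) (.nd (nat_lit 5) (.nd (nat_lit 6) 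
(.lf (nat_lit 25629) (.g (nat_lit 2753) (.e (nat_lit 1190) (nat_lit 88) (.e (nat_lit 65628) (nat_lit 14) (.e (nat_lit 401459) (nat_lit 13) (.e (nat_lit 483394) (nat_lit 24) (.e (nat_lit 344100) (nat_lit 18) (.e (nat_lit 5907) (nat_lit 320) .nil)))))) (.g (nat_lit 4) .nil .nil))) 
(.lf (nat_lit 25693) (.g (nat_lit 5109) (.e (nat_lit 1190) (nat_lit 88) (.e (nat_lit 65629) (nat_lit 14) (.e (nat_lit 401459) (nat_lit 13) (.e (nat_lit 483372) (nat_lit 21) (.e (nat_lit 327424) (nat_lit 1) .nil))))) .nil))) (.nd (nat_lit 6) 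
(.lf (nat_lit 25661) (.g (nat_lit 2446) (.e (nat_lit 1190) (nat_lit 88) (.e (nat_lit 65628) (nat_lit 14) (.e (nat_lit 401459) (nat_lit 13) (.e (nat_lit 483411) (nat_lit 27) (.e (nat_lit 401414) (nat_lit 0) (.e (nat_lit 2438) (nat_lit 157) (.e (nat_lit 4602) (nat_lit 269) .nil))))))) (.g (nat_lit 4) .nil .nil))) 
(.lf (nat_lit 25725) (.g (nat_lit 2783) (.e (nat_lit 1190) (nat_lit 88) (.e (nat_lit 65630) (nat_lit 14) (.e (nat_lit 401435) (nat_lit 9) (.e (nat_lit 426555) (nat_lit 32) (.e (nat_lit 376857) (nat_lit 21) (.e (nat_lit 57870) (nat_lit 264) .nil)))))) (.g (nat_lit 5) .nil .nil)))))))) (.nd (nat_lit 2) (.nd (nat_lit 3) (.nd (nat_lit 4) (.nd (nat_lit 5) (.nd (nat_lit 6) 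
(.lf (nat_lit 25603) (.g (nat_lit 3328) (.e (nat_lit 1190) (nat_lit 88) (.e (nat_lit 65628) (nat_lit 14) (.e (nat_lit 401459) (nat_lit 13) (.e (nat_lit 483387) (nat_lit 23) (.e (nat_lit 335997) (nat_lit 1) (.e (nat_lit 57871) (nat_lit 264) .nil)))))) (.g (nat_lit 5) .nil .nil))) 
(.lf (nat_lit 25667) (.g (nat_lit 3661) (.e (nat_lit 1190) (nat_lit 88) (.e (nat_lit 65628) (nat_lit 14) (.e (nat_lit 401459) (nat_lit 13) (.e (nat_lit 483411) (nat_lit 27) (.e (nat_lit 401421) (nat_lit 1) (.e (nat_lit 164421) (nat_lit 272) .nil)))))) (.g (nat_lit 0) .nil .nil)))) (.nd (nat_lit 6) 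
(.lf (nat_lit 25635) (.g (nat_lit 2090) (.e (nat_lit 1190) (nat_lit 88) (.e (nat_lit 65628) (nat_lit 14) (.e (nat_lit 401459) (nat_lit 13) (.e (nat_lit 483395) (nat_lit 24) (.e (nat_lit 344099) (nat_lit 18) (.e (nat_lit 5905) (nat_lit 320) .nil)))))) (.g (nat_lit 4) .nil .nil))) 
(.lf (nat_lit 25699) (.g (nat_lit 2433) (.e (nat_lit 1190) (nat_lit 88) (.e (nat_lit 65629) (nat_lit 14) (.e (nat_lit 401459) (nat_lit 13) (.e (nat_lit 483387) (nat_lit 23) .nil)))) .nil)))) (.nd (nat_lit 5) (.nd (nat_lit 6) 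
(.lf (nat_lit 25619) (.g (nat_lit 3740) (.e (nat_lit 1190) (nat_lit 88) (.e (nat_lit 65628) (nat_lit 14) (.e (nat_lit 401459) (nat_lit 13) (.e (nat_lit 483393) (nat_lit 23) (.e (nat_lit 335988) (nat_lit 1) (.e (nat_lit 57870) (nat_lit 264) .nil)))))) (.g (nat_lit 6) .nil .nil))) 
(.lf (nat_lit 25683) (.g (nat_lit 2675) (.e (nat_lit 1190) (nat_lit 88) (.e (nat_lit 65629) (nat_lit 14) (.e (nat_lit 401459) (nat_lit 13) (.e (nat_lit 483344) (nat_lit 17) (.e (nat_lit 6714) (nat_lit 360) (.e (nat_lit 163850) (nat_lit 0) (.e (nat_lit 4605) (nat_lit 269) .nil))))))) (.g (nat_lit 4) .nil .nil)))) (.nd (nat_lit 6) 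
(.lf (nat_lit 25651) (.g (nat_lit 2304) (.e (nat_lit 1190) (nat_lit 88) (.e (nat_lit 65628) (nat_lit 14) (.e (nat_lit 401459) (nat_lit 13) (.e (nat_lit 483399) (nat_lit 25) (.e (nat_lit 368663) (nat_lit 18) (.e (nat_lit 5905) (nat_lit 320) .nil)))))) (.g (nat_lit 4) .nil .nil))) 
(.lf (nat_lit 25715) (.g (nat_lit 3001) (.e (nat_lit 1190) (nat_lit 88) (.e (nat_lit 65630) (nat_lit 14) (.e (nat_lit 401425) (nat_lit 2) (.e (nat_lit 196672) (nat_lit 15) (.e (nat_lit 81957) (nat_lit 24) .nil))))) .nil))))) (.nd (nat_lit 4) (.nd (nat_lit 5) (.nd (nat_lit 6) 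
(.lf (nat_lit 25611) (.g (nat_lit 2032) (.e (nat_lit 1190) (nat_lit 88) (.e (nat_lit 65628) (nat_lit 14) (.e (nat_lit 401459) (nat_lit 13) (.e (nat_lit 483392) (nat_lit 23) .nil)))) .nil)) 
(.lf (nat_lit 25675) (.g (nat_lit 2663) (.e (nat_lit 1190) (nat_lit 88) (.e (nat_lit 65629) (nat_lit 14) (.e (nat_lit 401459) (nat_lit 13) (.e (nat_lit 483344) (nat_lit 17) (.e (nat_lit 6444) (nat_lit 343) .nil))))) .nil))) (.nd (nat_lit 6) 
(.lf (nat_lit 25643) (.g (nat_lit 3085) (.e (nat_lit 1190) (nat_lit 88) (.e (nat_lit 65628) (nat_lit 14) (.e (nat_lit 401459) (nat_lit 13) (.e (nat_lit 483397) (nat_lit 25) (.e (nat_lit 368662) (nat_lit 18) (.e (nat_lit 5907) (nat_lit 320) .nil)))))) (.g (nat_lit 4) .nil .nil))) 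
(.lf (nat_lit 25707) (.g (nat_lit 2688) (.e (nat_lit 1190) (nat_lit 88) (.e (nat_lit 65629) (nat_lit 14) (.e (nat_lit 401459) (nat_lit 13) (.e (nat_lit 483399) (nat_lit 25) (.e (nat_lit 368662) (nat_lit 18) .nil))))) .nil)))) (.nd (nat_lit 5) (.nd (nat_lit 6) 
(.lf (nat_lit 25627) (.g (nat_lit 2076) (.e (nat_lit 1190) (nat_lit 88) (.e (nat_lit 65628) (nat_lit 14) (.e (nat_lit 401459) (nat_lit 13) (.e (nat_lit 483394) (nat_lit 24) (.e (nat_lit 344100) (nat_lit 18) .nil))))) .nil)) 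
(.lf (nat_lit 25691) (.g (nat_lit 2557) (.e (nat_lit 1190) (nat_lit 88) (.e (nat_lit 65629) (nat_lit 14) (.e (nat_lit 401459) (nat_lit 13) (.e (nat_lit 483354) (nat_lit 17) .nil)))) .nil))) (.nd (nat_lit 6) 
(.lf (nat_lit 25659) (.g (nat_lit 3177) (.e (nat_lit 1190) (nat_lit 88) (.e (nat_lit 65628) (nat_lit 14) (.e (nat_lit 401459) (nat_lit 13) (.e (nat_lit 483411) (nat_lit 27) (.e (nat_lit 401413) (nat_lit 0) .nil))))) .nil)) 
(.lf (nat_lit 25723) (.g (nat_lit 1500) (.e (nat_lit 1190) (nat_lit 88) (.e (nat_lit 65630) (nat_lit 14) (.e (nat_lit 401435) (nat_lit 9) (.e (nat_lit 426544) (nat_lit 30) (.e (nat_lit 368384) (nat_lit 0) .nil))))) .nil)))))) (.nd (nat_lit 3) (.nd (nat_lit 4) (.nd (nat_lit 5) (.nd (nat_lit 6) 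
(.lf (nat_lit 25607) (.g (nat_lit 3108) (.e (nat_lit 1190) (nat_lit 88) (.e (nat_lit 65628) (nat_lit 14) (.e (nat_lit 401459) (nat_lit 13) (.e (nat_lit 483389) (nat_lit 23) (.e (nat_lit 335997) (nat_lit 1) (.e (nat_lit 57870) (nat_lit 264) .nil)))))) (.g (nat_lit 5) .nil .nil))) 
(.lf (nat_lit 25671) (.g (nat_lit 2045) (.e (nat_lit 1190) (nat_lit 88) (.e (nat_lit 65629) (nat_lit 14) (.e (nat_lit 401459) (nat_lit 13) (.e (nat_lit 483343) (nat_lit 17) .nil)))) .nil))) (.nd (nat_lit 6) 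
(.lf (nat_lit 25639) (.g (nat_lit 2850) (.e (nat_lit 1190) (nat_lit 88) (.e (nat_lit 65628) (nat_lit 14) (.e (nat_lit 401459) (nat_lit 13) (.e (nat_lit 483396) (nat_lit 24) (.e (nat_lit 344097) (nat_lit 18) (.e (nat_lit 5906) (nat_lit 320) .nil)))))) (.g (nat_lit 4) .nil .nil))) 
(.lf (nat_lit 25703) (.g (nat_lit 2143) (.e (nat_lit 1190) (nat_lit 88) (.e (nat_lit 65629) (nat_lit 14) (.e (nat_lit 401459) (nat_lit 13) (.e (nat_lit 491264) (nat_lit 23) .nil)))) .nil)))) (.nd (nat_lit 5) (.nd (nat_lit 6) 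
(.lf (nat_lit 25623) (.g (nat_lit 4174) (.e (nat_lit 1190) (nat_lit 88) (.e (nat_lit 65628) (nat_lit 14) (.e (nat_lit 401459) (nat_lit 13) (.e (nat_lit 483393) (nat_lit 23) (.e (nat_lit 335996) (nat_lit 1) (.e (nat_lit 57870) (nat_lit 264) .nil)))))) (.g (nat_lit 6) .nil .nil))) 
(.lf (nat_lit 25687) (.g (nat_lit 4262) (.e (nat_lit 1190) (nat_lit 88) (.e (nat_lit 65629) (nat_lit 14) (.e (nat_lit 401459) (nat_lit 13) (.e (nat_lit 483350) (nat_lit 17) (.e (nat_lit 6490) (nat_lit 343) .nil))))) .nil))) (.nd (nat_lit 6) 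
(.lf (nat_lit 25655) (.g (nat_lit 3224) (.e (nat_lit 1190) (nat_lit 88) (.e (nat_lit 65628) (nat_lit 14) (.e (nat_lit 401459) (nat_lit 13) (.e (nat_lit 483403) (nat_lit 26) (.e (nat_lit 385043) (nat_lit 21) .nil))))) .nil)) 
(.lf (nat_lit 25719) (.g (nat_lit 1524) (.e (nat_lit 1190) (nat_lit 88) (.e (nat_lit 65630) (nat_lit 14) (.e (nat_lit 401428) (nat_lit 3) (.e (nat_lit 204838) (nat_lit 20) .nil)))) .nil))))) (.nd (nat_lit 4) (.nd (nat_lit 5) (.nd (nat_lit 6) 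
(.lf (nat_lit 25615) (.g (nat_lit 3320) (.e (nat_lit 1190) (nat_lit 88) (.e (nat_lit 65628) (nat_lit 14) (.e (nat_lit 401459) (nat_lit 13) (.e (nat_lit 483393) (nat_lit 23) (.e (nat_lit 335986) (nat_lit 1) (.e (nat_lit 57871) (nat_lit 264) .nil)))))) (.g (nat_lit 5) .nil .nil))) 
(.lf (nat_lit 25679) (.g (nat_lit 3008) (.e (nat_lit 1190) (nat_lit 88) (.e (nat_lit 65629) (nat_lit 14) (.e (nat_lit 401459) (nat_lit 13) (.e (nat_lit 483344) (nat_lit 17) (.e (nat_lit 6514) (nat_lit 346) (.e (nat_lit 57354) (nat_lit 0) (.e (nat_lit 5906) (nat_lit 320) .nil))))))) (.g (nat_lit 4) .nil .nil)))) (.nd (nat_lit 6) 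
(.lf (nat_lit 25647) (.g (nat_lit 1504) (.e (nat_lit 1190) (nat_lit 88) (.e (nat_lit 65628) (nat_lit 14) (.e (nat_lit 401459) (nat_lit 13) (.e (nat_lit 483399) (nat_lit 25) .nil)))) .nil)) 
(.lf (nat_lit 25711) (.g (nat_lit 1754) (.e (nat_lit 1190) (nat_lit 88) (.e (nat_lit 65629) (nat_lit 14) (.e (nat_lit 401459) (nat_lit 13) (.e (nat_lit 483410) (nat_lit 27) .nil)))) .nil)))) (.nd (nat_lit 5) (.nd (nat_lit 6) 
(.lf (nat_lit 25631) (.g (nat_lit 3033) (.e (nat_lit 1190) (nat_lit 88) (.e (nat_lit 65628) (nat_lit 14) (.e (nat_lit 401459) (nat_lit 13) (.e (nat_lit 483395) (nat_lit 24) (.e (nat_lit 344090) (nat_lit 18) (.e (nat_lit 5896) (nat_lit 320) .nil)))))) (.g (nat_lit 5) .nil .nil))) 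
(.lf (nat_lit 25695) (.g (nat_lit 2464) (.e (nat_lit 1190) (nat_lit 88) (.e (nat_lit 65629) (nat_lit 14) (.e (nat_lit 401459) (nat_lit 13) (.e (nat_lit 483378) (nat_lit 23) (.e (nat_lit 335997) (nat_lit 1) .nil))))) .nil))) (.nd (nat_lit 6) 
(.lf (nat_lit 25663) (.g (nat_lit 2522) (.e (nat_lit 1190) (nat_lit 88) (.e (nat_lit 65628) (nat_lit 14) (.e (nat_lit 401459) (nat_lit 13) (.e (nat_lit 483411) (nat_lit 27) (.e (nat_lit 401414) (nat_lit 0) (.e (nat_lit 2477) (nat_lit 157) (.e (nat_lit 4605) (nat_lit 269) .nil))))))) (.g (nat_lit 4) .nil .nil))) 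
(.lf (nat_lit 25727) (.g (nat_lit 3373) (.e (nat_lit 1190) (nat_lit 88) (.e (nat_lit 65630) (nat_lit 14) (.e (nat_lit 401435) (nat_lit 9) (.e (nat_lit 426555) (nat_lit 32) (.e (nat_lit 376857) (nat_lit 21) (.e (nat_lit 57873) (nat_lit 264) .nil)))))) (.g (nat_lit 6) .nil .nil))))))))))

noncomputable def tv363 : DT := (.nd (nat_lit 0) (.nd (nat_lit 1) (.nd (nat_lit 2) (.nd (nat_lit 3) (.nd (nat_lit 4) (.nd (nat_lit 5) 
(.lf (nat_lit 25728) (.g (nat_lit 2728) (.e (nat_lit 1190) (nat_lit 88) (.e (nat_lit 65630) (nat_lit 14) (.e (nat_lit 401435) (nat_lit 9) (.e (nat_lit 426555) (nat_lit 32) (.e (nat_lit 376859) (nat_lit 21) (.e (nat_lit 57870) (nat_lit 264) .nil)))))) (.g (nat_lit 5) .nil .nil))) 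
(.lf (nat_lit 25760) (.g (nat_lit 2829) (.e (nat_lit 1190) (nat_lit 88) (.e (nat_lit 65630) (nat_lit 14) (.e (nat_lit 401437) (nat_lit 9) (.e (nat_lit 426542) (nat_lit 29) (.e (nat_lit 352309) (nat_lit 21) (.e (nat_lit 57870) (nat_lit 264) .nil)))))) (.g (nat_lit 5) .nil .nil)))) (.nd (nat_lit 5) 
(.lf (nat_lit 25744) (.g (nat_lit 1878) (.e (nat_lit 1190) (nat_lit 88) (.e (nat_lit 65630) (nat_lit 14) (.e (nat_lit 401436) (nat_lit 9) (.e (nat_lit 426555) (nat_lit 32) (.e (nat_lit 376859) (nat_lit 21) (.e (nat_lit 57871) (nat_lit 264) .nil)))))) (.g (nat_lit 4) .nil .nil))) 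
(.lf (nat_lit 25776) (.g (nat_lit 3143) (.e (nat_lit 1190) (nat_lit 88) (.e (nat_lit 65630) (nat_lit 14) (.e (nat_lit 401437) (nat_lit 9) (.e (nat_lit 426555) (nat_lit 32) (.e (nat_lit 376859) (nat_lit 21) (.e (nat_lit 57872) (nat_lit 264) .nil)))))) (.g (nat_lit 5) .nil .nil))))) (.nd (nat_lit 4) (.nd (nat_lit 5) 
(.lf (nat_lit 25736) (.g (nat_lit 2092) (.e (nat_lit 1190) (nat_lit 88) (.e (nat_lit 65630) (nat_lit 14) (.e (nat_lit 401436) (nat_lit 9) (.e (nat_lit 426544) (nat_lit 30) (.e (nat_lit 368384) (nat_lit 0) (.e (nat_lit 5905) (nat_lit 320) .nil)))))) (.g (nat_lit 4) .nil .nil))) 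
(.lf (nat_lit 25768) (.g (nat_lit 2525) (.e (nat_lit 1190) (nat_lit 88) (.e (nat_lit 65630) (nat_lit 14) (.e (nat_lit 401437) (nat_lit 9) (.e (nat_lit 426546) (nat_lit 30) (.e (nat_lit 360452) (nat_lit 0) (.e (nat_lit 5906) (nat_lit 320) .nil)))))) (.g (nat_lit 5) .nil .nil)))) (.nd (nat_lit 5) 
(.lf (nat_lit 25752) (.g (nat_lit 2187) (.e (nat_lit 1190) (nat_lit 88) (.e (nat_lit 65630) (nat_lit 14) (.e (nat_lit 401437) (nat_lit 9) (.e (nat_lit 426509) (nat_lit 27) (.e (nat_lit 336177) (nat_lit 10) (.e (nat_lit 344097) (nat_lit 18) (.e (nat_lit 5906) (nat_lit 320) .nil))))))) (.g (nat_lit 4) .nil .nil))) 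
(.lf (nat_lit 25784) (.g (nat_lit 3324) (.e (nat_lit 1190) (nat_lit 88) (.e (nat_lit 65630) (nat_lit 14) (.e (nat_lit 401438) (nat_lit 9) (.e (nat_lit 426544) (nat_lit 30) (.e (nat_lit 360453) (nat_lit 0) (.e (nat_lit 5907) (nat_lit 320) .nil)))))) (.g (nat_lit 6) .nil .nil)))))) (.nd (nat_lit 3) (.nd (nat_lit 4) (.nd (nat_lit 5) 
(.lf (nat_lit 25732) (.g (nat_lit 2575) (.e (nat_lit 1190) (nat_lit 88) (.e (nat_lit 65630) (nat_lit 14) (.e (nat_lit 401436) (nat_lit 9) (.e (nat_lit 426542) (nat_lit 29) (.e (nat_lit 352307) (nat_lit 21) (.e (nat_lit 57870) (nat_lit 264) .nil)))))) (.g (nat_lit 5) .nil .nil))) 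
(.lf (nat_lit 25764) (.g (nat_lit 2718) (.e (nat_lit 1190) (nat_lit 88) (.e (nat_lit 65630) (nat_lit 14) (.e (nat_lit 401437) (nat_lit 9) (.e (nat_lit 426544) (nat_lit 30) (.e (nat_lit 360452) (nat_lit 0) (.e (nat_lit 5907) (nat_lit 320) .nil)))))) (.g (nat_lit 4) .nil .nil)))) (.nd (nat_lit 5) 
(.lf (nat_lit 25748) (.g (nat_lit 1215) (.e (nat_lit 1190) (nat_lit 88) (.e (nat_lit 65630) (nat_lit 14) (.e (nat_lit 401436) (nat_lit 9) (.e (nat_lit 426556) (nat_lit 32) .nil)))) .nil)) 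
(.lf (nat_lit 25780) (.g (nat_lit 2618) (.e (nat_lit 1190) (nat_lit 88) (.e (nat_lit 65630) (nat_lit 14) (.e (nat_lit 401438) (nat_lit 9) (.e (nat_lit 426542) (nat_lit 29) (.e (nat_lit 352307) (nat_lit 21) (.e (nat_lit 57870) (nat_lit 264) .nil)))))) (.g (nat_lit 5) .nil .nil))))) (.nd (nat_lit 4) (.nd (nat_lit 5) 
(.lf (nat_lit 25740) (.g (nat_lit 1729) (.e (nat_lit 1190) (nat_lit 88) (.e (nat_lit 65630) (nat_lit 14) (.e (nat_lit 401436) (nat_lit 9) (.e (nat_lit 426546) (nat_lit 30) (.e (nat_lit 368384) (nat_lit 0) (.e (nat_lit 5906) (nat_lit 320) .nil)))))) (.g (nat_lit 4) .nil .nil))) 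
(.lf (nat_lit 25772) (.g (nat_lit 2897) (.e (nat_lit 1190) (nat_lit 88) (.e (nat_lit 65630) (nat_lit 14) (.e (nat_lit 401437) (nat_lit 9) (.e (nat_lit 426555) (nat_lit 32) (.e (nat_lit 376856) (nat_lit 21) .nil))))) .nil))) (.nd (nat_lit 5) 
(.lf (nat_lit 25756) (.g (nat_lit 2024) (.e (nat_lit 1190) (nat_lit 88) (.e (nat_lit 65630) (nat_lit 14) (.e (nat_lit 401437) (nat_lit 9) (.e (nat_lit 426539) (nat_lit 29) .nil)))) .nil)) 
(.lf (nat_lit 25788) (.g (nat_lit 3337) (.e (nat_lit 1190) (nat_lit 88) (.e (nat_lit 65630) (nat_lit 14) (.e (nat_lit 401438) (nat_lit 9) (.e (nat_lit 426555) (nat_lit 32) (.e (nat_lit 376857) (nat_lit 21) (.e (nat_lit 57870) (nat_lit 264) .nil)))))) (.g (nat_lit 5) .nil .nil))))))) (.nd (nat_lit 2) (.nd (nat_lit 3) (.nd (nat_lit 4) (.nd (nat_lit 5) 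
(.lf (nat_lit 25730) (.g (nat_lit 3280) (.e (nat_lit 1190) (nat_lit 88) (.e (nat_lit 65630) (nat_lit 14) (.e (nat_lit 401435) (nat_lit 9) (.e (nat_lit 426555) (nat_lit 32) (.e (nat_lit 376859) (nat_lit 21) (.e (nat_lit 57873) (nat_lit 264) .nil)))))) (.g (nat_lit 6) .nil .nil))) 
(.lf (nat_lit 25762) (.g (nat_lit 3163) (.e (nat_lit 1190) (nat_lit 88) (.e (nat_lit 65630) (nat_lit 14) (.e (nat_lit 401437) (nat_lit 9) (.e (nat_lit 426542) (nat_lit 29) (.e (nat_lit 352309) (nat_lit 21) (.e (nat_lit 57872) (nat_lit 264) .nil)))))) (.g (nat_lit 6) .nil .nil)))) (.nd (nat_lit 5) 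
(.lf (nat_lit 25746) (.g (nat_lit 3451) (.e (nat_lit 1190) (nat_lit 88) (.e (nat_lit 65630) (nat_lit 14) (.e (nat_lit 401436) (nat_lit 9) (.e (nat_lit 426555) (nat_lit 32) (.e (nat_lit 376859) (nat_lit 21) (.e (nat_lit 57873) (nat_lit 264) .nil)))))) (.g (nat_lit 6) .nil .nil))) 
(.lf (nat_lit 25778) (.g (nat_lit 2978) (.e (nat_lit 1190) (nat_lit 88) (.e (nat_lit 65630) (nat_lit 14) (.e (nat_lit 401437) (nat_lit 9) (.e (nat_lit 426555) (nat_lit 32) (.e (nat_lit 376860) (nat_lit 21) (.e (nat_lit 57870) (nat_lit 264) .nil)))))) (.g (nat_lit 5) .nil .nil))))) (.nd (nat_lit 4) (.nd (nat_lit 5) 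
(.lf (nat_lit 25738) (.g (nat_lit 3261) (.e (nat_lit 1190) (nat_lit 88) (.e (nat_lit 65630) (nat_lit 14) (.e (nat_lit 401436) (nat_lit 9) (.e (nat_lit 426546) (nat_lit 30) (.e (nat_lit 360452) (nat_lit 0) (.e (nat_lit 5907) (nat_lit 320) .nil)))))) (.g (nat_lit 0) .nil .nil))) 
(.lf (nat_lit 25770) (.g (nat_lit 2651) (.e (nat_lit 1190) (nat_lit 88) (.e (nat_lit 65630) (nat_lit 14) (.e (nat_lit 401437) (nat_lit 9) (.e (nat_lit 426546) (nat_lit 30) (.e (nat_lit 368384) (nat_lit 0) (.e (nat_lit 5905) (nat_lit 320) .nil)))))) (.g (nat_lit 4) .nil .nil)))) (.nd (nat_lit 5) 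
(.lf (nat_lit 25754) (.g (nat_lit 1816) (.e (nat_lit 1190) (nat_lit 88) (.e (nat_lit 65630) (nat_lit 14) (.e (nat_lit 401437) (nat_lit 9) (.e (nat_lit 426538) (nat_lit 29) .nil)))) .nil)) 
(.lf (nat_lit 25786) (.g (nat_lit 2035) (.e (nat_lit 1190) (nat_lit 88) (.e (nat_lit 65630) (nat_lit 14) (.e (nat_lit 401438) (nat_lit 9) (.e (nat_lit 426544) (nat_lit 30) (.e (nat_lit 368384) (nat_lit 0) (.e (nat_lit 5906) (nat_lit 320) .nil)))))) (.g (nat_lit 4) .nil .nil)))))) (.nd (nat_lit 3) (.nd (nat_lit 4) (.nd (nat_lit 5) 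
(.lf (nat_lit 25734) (.g (nat_lit 2553) (.e (nat_lit 1190) (nat_lit 88) (.e (nat_lit 65630) (nat_lit 14) (.e (nat_lit 401436) (nat_lit 9) (.e (nat_lit 426542) (nat_lit 29) (.e (nat_lit 352309) (nat_lit 21) (.e (nat_lit 57871) (nat_lit 264) .nil)))))) (.g (nat_lit 5) .nil .nil))) 
(.lf (nat_lit 25766) (.g (nat_lit 2355) (.e (nat_lit 1190) (nat_lit 88) (.e (nat_lit 65630) (nat_lit 14) (.e (nat_lit 401437) (nat_lit 9) (.e (nat_lit 426544) (nat_lit 30) (.e (nat_lit 368384) (nat_lit 0) (.e (nat_lit 5906) (nat_lit 320) .nil)))))) (.g (nat_lit 4) .nil .nil)))) (.nd (nat_lit 5) 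
(.lf (nat_lit 25750) (.g (nat_lit 2294) (.e (nat_lit 1190) (nat_lit 88) (.e (nat_lit 65630) (nat_lit 14) (.e (nat_lit 401437) (nat_lit 9) (.e (nat_lit 426486) (nat_lit 27) .nil)))) .nil)) 
(.lf (nat_lit 25782) (.g (nat_lit 2574) (.e (nat_lit 1190) (nat_lit 88) (.e (nat_lit 65630) (nat_lit 14) (.e (nat_lit 401438) (nat_lit 9) (.e (nat_lit 426542) (nat_lit 29) (.e (nat_lit 352309) (nat_lit 21) (.e (nat_lit 57870) (nat_lit 264) .nil)))))) (.g (nat_lit 5) .nil .nil))))) (.nd (nat_lit 4) (.nd (nat_lit 5) 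
(.lf (nat_lit 25742) (.g (nat_lit 3028) (.e (nat_lit 1190) (nat_lit 88) (.e (nat_lit 65630) (nat_lit 14) (.e (nat_lit 401436) (nat_lit 9) (.e (nat_lit 426555) (nat_lit 32) (.e (nat_lit 376857) (nat_lit 21) (.e (nat_lit 57872) (nat_lit 264) .nil)))))) (.g (nat_lit 5) .nil .nil))) 
(.lf (nat_lit 25774) (.g (nat_lit 3104) (.e (nat_lit 1190) (nat_lit 88) (.e (nat_lit 65630) (nat_lit 14) (.e (nat_lit 401437) (nat_lit 9) (.e (nat_lit 426555) (nat_lit 32) (.e (nat_lit 376857) (nat_lit 21) (.e (nat_lit 57872) (nat_lit 264) .nil)))))) (.g (nat_lit 5) .nil .nil)))) (.nd (nat_lit 5) 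
(.lf (nat_lit 25758) (.g (nat_lit 3287) (.e (nat_lit 1190) (nat_lit 88) (.e (nat_lit 65630) (nat_lit 14) (.e (nat_lit 401437) (nat_lit 9) (.e (nat_lit 426542) (nat_lit 29) (.e (nat_lit 352307) (nat_lit 21) (.e (nat_lit 57871) (nat_lit 264) .nil)))))) (.g (nat_lit 6) .nil .nil))) 
(.lf (nat_lit 25790) (.g (nat_lit 3875) (.e (nat_lit 1190) (nat_lit 88) (.e (nat_lit 65630) (nat_lit 14) (.e (nat_lit 401438) (nat_lit 9) (.e (nat_lit 426555) (nat_lit 32) (.e (nat_lit 376857) (nat_lit 21) (.e (nat_lit 57873) (nat_lit 264) .nil)))))) (.g (nat_lit 6) .nil .nil)))))))) (.nd (nat_lit 1) (.nd (nat_lit 2) (.nd (nat_lit 3) (.nd (nat_lit 4) (.nd (nat_lit 5) 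
(.lf (nat_lit 25729) (.g (nat_lit 2838) (.e (nat_lit 1190) (nat_lit 88) (.e (nat_lit 65630) (nat_lit 14) (.e (nat_lit 401435) (nat_lit 9) (.e (nat_lit 426555) (nat_lit 32) (.e (nat_lit 376859) (nat_lit 21) (.e (nat_lit 57872) (nat_lit 264) .nil)))))) (.g (nat_lit 5) .nil .nil))) 
(.lf (nat_lit 25761) (.g (nat_lit 2868) (.e (nat_lit 1190) (nat_lit 88) (.e (nat_lit 65630) (nat_lit 14) (.e (nat_lit 401437) (nat_lit 9) (.e (nat_lit 426542) (nat_lit 29) (.e (nat_lit 352309) (nat_lit 21) (.e (nat_lit 57871) (nat_lit 264) .nil)))))) (.g (nat_lit 5) .nil .nil)))) (.nd (nat_lit 5) 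
(.lf (nat_lit 25745) (.g (nat_lit 3019) (.e (nat_lit 1190) (nat_lit 88) (.e (nat_lit 65630) (nat_lit 14) (.e (nat_lit 401436) (nat_lit 9) (.e (nat_lit 426555) (nat_lit 32) (.e (nat_lit 376859) (nat_lit 21) (.e (nat_lit 57872) (nat_lit 264) .nil)))))) (.g (nat_lit 5) .nil .nil))) 
(.lf (nat_lit 25777) (.g (nat_lit 3575) (.e (nat_lit 1190) (nat_lit 88) (.e (nat_lit 65630) (nat_lit 14) (.e (nat_lit 401437) (nat_lit 9) (.e (nat_lit 426555) (nat_lit 32) (.e (nat_lit 376859) (nat_lit 21) (.e (nat_lit 57873) (nat_lit 264) .nil)))))) (.g (nat_lit 6) .nil .nil))))) (.nd (nat_lit 4) (.nd (nat_lit 5) 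
(.lf (nat_lit 25737) (.g (nat_lit 2014) (.e (nat_lit 1190) (nat_lit 88) (.e (nat_lit 65630) (nat_lit 14) (.e (nat_lit 401436) (nat_lit 9) (.e (nat_lit 426544) (nat_lit 30) (.e (nat_lit 368384) (nat_lit 0) (.e (nat_lit 5906) (nat_lit 320) .nil)))))) (.g (nat_lit 4) .nil .nil))) 
(.lf (nat_lit 25769) (.g (nat_lit 2063) (.e (nat_lit 1190) (nat_lit 88) (.e (nat_lit 65630) (nat_lit 14) (.e (nat_lit 401437) (nat_lit 9) (.e (nat_lit 426546) (nat_lit 30) (.e (nat_lit 368384) (nat_lit 0) (.e (nat_lit 5902) (nat_lit 320) .nil)))))) (.g (nat_lit 4) .nil .nil)))) (.nd (nat_lit 5) 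
(.lf (nat_lit 25753) (.g (nat_lit 1036) (.e (nat_lit 1190) (nat_lit 88) (.e (nat_lit 65630) (nat_lit 14) (.e (nat_lit 401437) (nat_lit 9) (.e (nat_lit 426533) (nat_lit 28) .nil)))) .nil)) 
(.lf (nat_lit 25785) (.g (nat_lit 2113) (.e (nat_lit 1190) (nat_lit 88) (.e (nat_lit 65630) (nat_lit 14) (.e (nat_lit 401438) (nat_lit 9) (.e (nat_lit 426544) (nat_lit 30) (.e (nat_lit 368384) (nat_lit 0) (.e (nat_lit 5905) (nat_lit 320) .nil)))))) (.g (nat_lit 4) .nil .nil)))))) (.nd (nat_lit 3) (.nd (nat_lit 4) (.nd (nat_lit 5) 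
(.lf (nat_lit 25733) (.g (nat_lit 2508) (.e (nat_lit 1190) (nat_lit 88) (.e (nat_lit 65630) (nat_lit 14) (.e (nat_lit 401436) (nat_lit 9) (.e (nat_lit 426542) (nat_lit 29) (.e (nat_lit 352309) (nat_lit 21) (.e (nat_lit 57870) (nat_lit 264) .nil)))))) (.g (nat_lit 5) .nil .nil))) 
(.lf (nat_lit 25765) (.g (nat_lit 2433) (.e (nat_lit 1190) (nat_lit 88) (.e (nat_lit 65630) (nat_lit 14) (.e (nat_lit 401437) (nat_lit 9) (.e (nat_lit 426544) (nat_lit 30) (.e (nat_lit 368384) (nat_lit 0) (.e (nat_lit 5905) (nat_lit 320) .nil)))))) (.g (nat_lit 4) .nil .nil)))) (.nd (nat_lit 5) 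
(.lf (nat_lit 25749) (.g (nat_lit 2804) (.e (nat_lit 1190) (nat_lit 88) (.e (nat_lit 65630) (nat_lit 14) (.e (nat_lit 401437) (nat_lit 9) (.e (nat_lit 426482) (nat_lit 27) (.e (nat_lit 336140) (nat_lit 9) .nil))))) .nil)) 
(.lf (nat_lit 25781) (.g (nat_lit 3705) (.e (nat_lit 1190) (nat_lit 88) (.e (nat_lit 65630) (nat_lit 14) (.e (nat_lit 401438) (nat_lit 9) (.e (nat_lit 426542) (nat_lit 29) (.e (nat_lit 352307) (nat_lit 21) (.e (nat_lit 57873) (nat_lit 264) .nil)))))) (.g (nat_lit 0) .nil .nil))))) (.nd (nat_lit 4) (.nd (nat_lit 5) 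
(.lf (nat_lit 25741) (.g (nat_lit 3118) (.e (nat_lit 1190) (nat_lit 88) (.e (nat_lit 65630) (nat_lit 14) (.e (nat_lit 401436) (nat_lit 9) (.e (nat_lit 426555) (nat_lit 32) (.e (nat_lit 376857) (nat_lit 21) (.e (nat_lit 57870) (nat_lit 264) .nil)))))) (.g (nat_lit 5) .nil .nil))) 
(.lf (nat_lit 25773) (.g (nat_lit 3212) (.e (nat_lit 1190) (nat_lit 88) (.e (nat_lit 65630) (nat_lit 14) (.e (nat_lit 401437) (nat_lit 9) (.e (nat_lit 426555) (nat_lit 32) (.e (nat_lit 376857) (nat_lit 21) (.e (nat_lit 57870) (nat_lit 264) .nil)))))) (.g (nat_lit 5) .nil .nil)))) (.nd (nat_lit 5) 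
(.lf (nat_lit 25757) (.g (nat_lit 2902) (.e (nat_lit 1190) (nat_lit 88) (.e (nat_lit 65630) (nat_lit 14) (.e (nat_lit 401437) (nat_lit 9) (.e (nat_lit 426542) (nat_lit 29) (.e (nat_lit 352307) (nat_lit 21) (.e (nat_lit 57870) (nat_lit 264) .nil)))))) (.g (nat_lit 5) .nil .nil))) 
(.lf (nat_lit 25789) (.g (nat_lit 3195) (.e (nat_lit 1190) (nat_lit 88) (.e (nat_lit 65630) (nat_lit 14) (.e (nat_lit 401438) (nat_lit 9) (.e (nat_lit 426555) (nat_lit 32) (.e (nat_lit 376857) (nat_lit 21) (.e (nat_lit 57872) (nat_lit 264) .nil)))))) (.g (nat_lit 5) .nil .nil))))))) (.nd (nat_lit 2) (.nd (nat_lit 3) (.nd (nat_lit 4) (.nd (nat_lit 5) 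
(.lf (nat_lit 25731) (.g (nat_lit 2583) (.e (nat_lit 1190) (nat_lit 88) (.e (nat_lit 65630) (nat_lit 14) (.e (nat_lit 401435) (nat_lit 9) (.e (nat_lit 426555) (nat_lit 32) (.e (nat_lit 376860) (nat_lit 21) (.e (nat_lit 57870) (nat_lit 264) .nil)))))) (.g (nat_lit 4) .nil .nil))) 
(.lf (nat_lit 25763) (.g (nat_lit 2324) (.e (nat_lit 1190) (nat_lit 88) (.e (nat_lit 65630) (nat_lit 14) (.e (nat_lit 401437) (nat_lit 9) (.e (nat_lit 426544) (nat_lit 30) (.e (nat_lit 360452) (nat_lit 0) .nil))))) .nil))) (.nd (nat_lit 5) 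
(.lf (nat_lit 25747) (.g (nat_lit 2909) (.e (nat_lit 1190) (nat_lit 88) (.e (nat_lit 65630) (nat_lit 14) (.e (nat_lit 401436) (nat_lit 9) (.e (nat_lit 426555) (nat_lit 32) (.e (nat_lit 376860) (nat_lit 21) (.e (nat_lit 57870) (nat_lit 264) .nil)))))) (.g (nat_lit 5) .nil .nil))) 
(.lf (nat_lit 25779) (.g (nat_lit 1983) (.e (nat_lit 1190) (nat_lit 88) (.e (nat_lit 65630) (nat_lit 14) (.e (nat_lit 401437) (nat_lit 9) (.e (nat_lit 426556) (nat_lit 32) .nil)))) .nil)))) (.nd (nat_lit 4) (.nd (nat_lit 5) 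
(.lf (nat_lit 25739) (.g (nat_lit 2066) (.e (nat_lit 1190) (nat_lit 88) (.e (nat_lit 65630) (nat_lit 14) (.e (nat_lit 401436) (nat_lit 9) (.e (nat_lit 426546) (nat_lit 30) (.e (nat_lit 368384) (nat_lit 0) (.e (nat_lit 5905) (nat_lit 320) .nil)))))) (.g (nat_lit 4) .nil .nil))) 
(.lf (nat_lit 25771) (.g (nat_lit 2314) (.e (nat_lit 1190) (nat_lit 88) (.e (nat_lit 65630) (nat_lit 14) (.e (nat_lit 401437) (nat_lit 9) (.e (nat_lit 426546) (nat_lit 30) (.e (nat_lit 368384) (nat_lit 0) (.e (nat_lit 5906) (nat_lit 320) .nil)))))) (.g (nat_lit 4) .nil .nil)))) (.nd (nat_lit 5) 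
(.lf (nat_lit 25755) (.g (nat_lit 2916) (.e (nat_lit 1190) (nat_lit 88) (.e (nat_lit 65630) (nat_lit 14) (.e (nat_lit 401437) (nat_lit 9) (.e (nat_lit 426538) (nat_lit 29) (.e (nat_lit 352309) (nat_lit 21) (.e (nat_lit 57872) (nat_lit 264) .nil)))))) (.g (nat_lit 5) .nil .nil))) 
(.lf (nat_lit 25787) (.g (nat_lit 1960) (.e (nat_lit 1190) (nat_lit 88) (.e (nat_lit 65630) (nat_lit 14) (.e (nat_lit 401438) (nat_lit 9) (.e (nat_lit 426546) (nat_lit 30) (.e (nat_lit 360452) (nat_lit 0) (.e (nat_lit 5906) (nat_lit 320) .nil)))))) (.g (nat_lit 4) .nil .nil)))))) (.nd (nat_lit 3) (.nd (nat_lit 4) (.nd (nat_lit 5) 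
(.lf (nat_lit 25735) (.g (nat_lit 3259) (.e (nat_lit 1190) (nat_lit 88) (.e (nat_lit 65630) (nat_lit 14) (.e (nat_lit 401436) (nat_lit 9) (.e (nat_lit 426544) (nat_lit 30) (.e (nat_lit 360453) (nat_lit 0) (.e (nat_lit 5907) (nat_lit 320) .nil)))))) (.g (nat_lit 6) .nil .nil))) 
(.lf (nat_lit 25767) (.g (nat_lit 3669) (.e (nat_lit 1190) (nat_lit 88) (.e (nat_lit 65630) (nat_lit 14) (.e (nat_lit 401437) (nat_lit 9) (.e (nat_lit 426546) (nat_lit 30) (.e (nat_lit 360452) (nat_lit 0) (.e (nat_lit 5905) (nat_lit 320) .nil)))))) (.g (nat_lit 6) .nil .nil)))) (.nd (nat_lit 5) 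
(.lf (nat_lit 25751) (.g (nat_lit 1252) (.e (nat_lit 1190) (nat_lit 88) (.e (nat_lit 65630) (nat_lit 14) (.e (nat_lit 401437) (nat_lit 9) (.e (nat_lit 426509) (nat_lit 27) .nil)))) .nil)) 
(.lf (nat_lit 25783) (.g (nat_lit 2614) (.e (nat_lit 1190) (nat_lit 88) (.e (nat_lit 65630) (nat_lit 14) (.e (nat_lit 401438) (nat_lit 9) (.e (nat_lit 426542) (nat_lit 29) (.e (nat_lit 352309) (nat_lit 21) (.e (nat_lit 57871) (nat_lit 264) .nil)))))) (.g (nat_lit 5) .nil .nil))))) (.nd (nat_lit 4) (.nd (nat_lit 5) 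
(.lf (nat_lit 25743) (.g (nat_lit 2912) (.e (nat_lit 1190) (nat_lit 88) (.e (nat_lit 65630) (nat_lit 14) (.e (nat_lit 401436) (nat_lit 9) (.e (nat_lit 426555) (nat_lit 32) (.e (nat_lit 376859) (nat_lit 21) (.e (nat_lit 57870) (nat_lit 264) .nil)))))) (.g (nat_lit 5) .nil .nil))) 
(.lf (nat_lit 25775) (.g (nat_lit 3047) (.e (nat_lit 1190) (nat_lit 88) (.e (nat_lit 65630) (nat_lit 14) (.e (nat_lit 401437) (nat_lit 9) (.e (nat_lit 426555) (nat_lit 32) (.e (nat_lit 376859) (nat_lit 21) (.e (nat_lit 57870) (nat_lit 264) .nil)))))) (.g (nat_lit 5) .nil .nil)))) (.nd (nat_lit 5) 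
(.lf (nat_lit 25759) (.g (nat_lit 3164) (.e (nat_lit 1190) (nat_lit 88) (.e (nat_lit 65630) (nat_lit 14) (.e (nat_lit 401437) (nat_lit 9) (.e (nat_lit 426542) (nat_lit 29) (.e (nat_lit 352307) (nat_lit 21) (.e (nat_lit 57872) (nat_lit 264) .nil)))))) (.g (nat_lit 6) .nil .nil))) 
(.lf (nat_lit 25791) (.g (nat_lit 3227) (.e (nat_lit 1190) (nat_lit 88) (.e (nat_lit 65630) (nat_lit 14) (.e (nat_lit 401438) (nat_lit 9) (.e (nat_lit 426555) (nat_lit 32) (.e (nat_lit 376859) (nat_lit 21) (.e (nat_lit 57870) (nat_lit 264) .nil)))))) (.g (nat_lit 5) .nil .nil)))))))))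

noncomputable def tv364 : DT := (.nd (nat_lit 0) (.nd (nat_lit 1) (.nd (nat_lit 2) (.nd (nat_lit 3) (.nd (nat_lit 4) (.nd (nat_lit 5) 
(.lf (nat_lit 25792) (.g (nat_lit 3331) (.e (nat_lit 1190) (nat_lit 88) (.e (nat_lit 65630) (nat_lit 14) (.e (nat_lit 401438) (nat_lit 9) (.e (nat_lit 426555) (nat_lit 32) (.e (nat_lit 376859) (nat_lit 21) (.e (nat_lit 57872) (nat_lit 264) .nil)))))) (.g (nat_lit 5) .nil .nil))) 
(.lf (nat_lit 25824) (.g (nat_lit 2918) (.e (nat_lit 1190) (nat_lit 88) (.e (nat_lit 65630) (nat_lit 14) (.e (nat_lit 401457) (nat_lit 13) (.e (nat_lit 483413) (nat_lit 27) (.e (nat_lit 401421) (nat_lit 1) (.e (nat_lit 164422) (nat_lit 272) .nil)))))) (.g (nat_lit 4) .nil .nil)))) (.nd (nat_lit 5) 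
(.lf (nat_lit 25808) (.g (nat_lit 2715) (.e (nat_lit 1190) (nat_lit 88) (.e (nat_lit 65630) (nat_lit 14) (.e (nat_lit 401457) (nat_lit 13) (.e (nat_lit 483378) (nat_lit 23) (.e (nat_lit 335997) (nat_lit 1) (.e (nat_lit 57872) (nat_lit 264) .nil)))))) (.g (nat_lit 5) .nil .nil))) 
(.lf (nat_lit 25840) (.g (nat_lit 2940) (.e (nat_lit 1190) (nat_lit 88) (.e (nat_lit 65630) (nat_lit 14) (.e (nat_lit 401458) (nat_lit 13) (.e (nat_lit 483393) (nat_lit 23) (.e (nat_lit 335988) (nat_lit 1) (.e (nat_lit 57870) (nat_lit 264) .nil)))))) (.g (nat_lit 5) .nil .nil))))) (.nd (nat_lit 4) (.nd (nat_lit 5) 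
(.lf (nat_lit 25800) (.g (nat_lit 1881) (.e (nat_lit 1190) (nat_lit 88) (.e (nat_lit 65630) (nat_lit 14) (.e (nat_lit 401456) (nat_lit 13) (.e (nat_lit 483395) (nat_lit 24) (.e (nat_lit 344097) (nat_lit 18) (.e (nat_lit 5906) (nat_lit 320) .nil)))))) (.g (nat_lit 4) .nil .nil))) 
(.lf (nat_lit 25832) (.g (nat_lit 3549) (.e (nat_lit 1190) (nat_lit 88) (.e (nat_lit 65630) (nat_lit 14) (.e (nat_lit 401458) (nat_lit 13) (.e (nat_lit 483383) (nat_lit 23) (.e (nat_lit 336000) (nat_lit 1) (.e (nat_lit 57873) (nat_lit 264) .nil)))))) (.g (nat_lit 0) .nil .nil)))) (.nd (nat_lit 5) 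
(.lf (nat_lit 25816) (.g (nat_lit 2872) (.e (nat_lit 1190) (nat_lit 88) (.e (nat_lit 65630) (nat_lit 14) (.e (nat_lit 401457) (nat_lit 13) (.e (nat_lit 483393) (nat_lit 23) (.e (nat_lit 335995) (nat_lit 1) (.e (nat_lit 57872) (nat_lit 264) .nil)))))) (.g (nat_lit 5) .nil .nil))) 
(.lf (nat_lit 25848) (.g (nat_lit 3002) (.e (nat_lit 1190) (nat_lit 88) (.e (nat_lit 65630) (nat_lit 14) (.e (nat_lit 401458) (nat_lit 13) (.e (nat_lit 483395) (nat_lit 24) (.e (nat_lit 344097) (nat_lit 18) (.e (nat_lit 5906) (nat_lit 320) .nil)))))) (.g (nat_lit 6) .nil .nil)))))) (.nd (nat_lit 3) (.nd (nat_lit 4) (.nd (nat_lit 5) 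
(.lf (nat_lit 25796) (.g (nat_lit 2767) (.e (nat_lit 1190) (nat_lit 88) (.e (nat_lit 65630) (nat_lit 14) (.e (nat_lit 401454) (nat_lit 12) (.e (nat_lit 475144) (nat_lit 16) .nil)))) .nil)) 
(.lf (nat_lit 25828) (.g (nat_lit 1762) (.e (nat_lit 1190) (nat_lit 88) (.e (nat_lit 65630) (nat_lit 14) (.e (nat_lit 401458) (nat_lit 13) (.e (nat_lit 483383) (nat_lit 23) (.e (nat_lit 335878) (nat_lit 0) .nil))))) .nil))) (.nd (nat_lit 5) 
(.lf (nat_lit 25812) (.g (nat_lit 1550) (.e (nat_lit 1190) (nat_lit 88) (.e (nat_lit 65630) (nat_lit 14) (.e (nat_lit 401457) (nat_lit 13) (.e (nat_lit 483389) (nat_lit 23) .nil)))) .nil)) 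
(.lf (nat_lit 25844) (.g (nat_lit 1345) (.e (nat_lit 1190) (nat_lit 88) (.e (nat_lit 65630) (nat_lit 14) (.e (nat_lit 401458) (nat_lit 13) (.e (nat_lit 491264) (nat_lit 23) .nil)))) .nil)))) (.nd (nat_lit 4) (.nd (nat_lit 5) 
(.lf (nat_lit 25804) (.g (nat_lit 2766) (.e (nat_lit 1190) (nat_lit 88) (.e (nat_lit 65630) (nat_lit 14) (.e (nat_lit 401457) (nat_lit 13) (.e (nat_lit 483346) (nat_lit 17) (.e (nat_lit 6434) (nat_lit 343) .nil))))) .nil)) 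
(.lf (nat_lit 25836) (.g (nat_lit 1301) (.e (nat_lit 1190) (nat_lit 88) (.e (nat_lit 65630) (nat_lit 14) (.e (nat_lit 401458) (nat_lit 13) (.e (nat_lit 483393) (nat_lit 23) .nil)))) .nil))) (.nd (nat_lit 5) 
(.lf (nat_lit 25820) (.g (nat_lit 2107) (.e (nat_lit 1190) (nat_lit 88) (.e (nat_lit 65630) (nat_lit 14) (.e (nat_lit 401457) (nat_lit 13) (.e (nat_lit 483399) (nat_lit 25) .nil)))) .nil)) 
(.lf (nat_lit 25852) (.g (nat_lit 2941) (.e (nat_lit 1190) (nat_lit 88) (.e (nat_lit 65630) (nat_lit 14) (.e (nat_lit 401458) (nat_lit 13) (.e (nat_lit 483398) (nat_lit 25) (.e (nat_lit 368662) (nat_lit 18) (.e (nat_lit 5907) (nat_lit 320) .nil)))))) (.g (nat_lit 0) .nil .nil))))))) (.nd (nat_lit 2) (.nd (nat_lit 3) (.nd (nat_lit 4) (.nd (nat_lit 5) 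
(.lf (nat_lit 25794) (.g (nat_lit 3159) (.e (nat_lit 1190) (nat_lit 88) (.e (nat_lit 65630) (nat_lit 14) (.e (nat_lit 401438) (nat_lit 9) (.e (nat_lit 426555) (nat_lit 32) (.e (nat_lit 376860) (nat_lit 21) (.e (nat_lit 57870) (nat_lit 264) .nil)))))) (.g (nat_lit 5) .nil .nil))) 
(.lf (nat_lit 25826) (.g (nat_lit 2621) (.e (nat_lit 1190) (nat_lit 88) (.e (nat_lit 65630) (nat_lit 14) (.e (nat_lit 401458) (nat_lit 13) (.e (nat_lit 483378) (nat_lit 23) (.e (nat_lit 335997) (nat_lit 1) (.e (nat_lit 57870) (nat_lit 264) .nil)))))) (.g (nat_lit 6) .nil .nil)))) (.nd (nat_lit 5) 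
(.lf (nat_lit 25810) (.g (nat_lit 1996) (.e (nat_lit 1190) (nat_lit 88) (.e (nat_lit 65630) (nat_lit 14) (.e (nat_lit 401457) (nat_lit 13) (.e (nat_lit 483383) (nat_lit 23) (.e (nat_lit 336000) (nat_lit 1) (.e (nat_lit 57872) (nat_lit 264) .nil)))))) (.g (nat_lit 4) .nil .nil))) 
(.lf (nat_lit 25842) (.g (nat_lit 3282) (.e (nat_lit 1190) (nat_lit 88) (.e (nat_lit 65630) (nat_lit 14) (.e (nat_lit 401458) (nat_lit 13) (.e (nat_lit 483393) (nat_lit 23) (.e (nat_lit 335995) (nat_lit 1) (.e (nat_lit 57872) (nat_lit 264) .nil)))))) (.g (nat_lit 6) .nil .nil))))) (.nd (nat_lit 4) (.nd (nat_lit 5) 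
(.lf (nat_lit 25802) (.g (nat_lit 491) (.e (nat_lit 1190) (nat_lit 88) (.e (nat_lit 65630) (nat_lit 14) (.e (nat_lit 401457) (nat_lit 13) .nil))) .nil)) 
(.lf (nat_lit 25834) (.g (nat_lit 1890) (.e (nat_lit 1190) (nat_lit 88) (.e (nat_lit 65630) (nat_lit 14) (.e (nat_lit 401458) (nat_lit 13) (.e (nat_lit 483389) (nat_lit 23) (.e (nat_lit 335997) (nat_lit 1) (.e (nat_lit 57870) (nat_lit 264) .nil)))))) (.g (nat_lit 4) .nil .nil)))) (.nd (nat_lit 5) 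
(.lf (nat_lit 25818) (.g (nat_lit 2899) (.e (nat_lit 1190) (nat_lit 88) (.e (nat_lit 65630) (nat_lit 14) (.e (nat_lit 401457) (nat_lit 13) (.e (nat_lit 483395) (nat_lit 24) (.e (nat_lit 344097) (nat_lit 18) .nil))))) .nil)) 
(.lf (nat_lit 25850) (.g (nat_lit 2270) (.e (nat_lit 1190) (nat_lit 88) (.e (nat_lit 65630) (nat_lit 14) (.e (nat_lit 401458) (nat_lit 13) (.e (nat_lit 483396) (nat_lit 24) (.e (nat_lit 344097) (nat_lit 18) (.e (nat_lit 5906) (nat_lit 320) .nil)))))) (.g (nat_lit 4) .nil .nil)))))) (.nd (nat_lit 3) (.nd (nat_lit 4) (.nd (nat_lit 5) 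
(.lf (nat_lit 25798) (.g (nat_lit 1516) (.e (nat_lit 1190) (nat_lit 88) (.e (nat_lit 65630) (nat_lit 14) (.e (nat_lit 401456) (nat_lit 13) (.e (nat_lit 483387) (nat_lit 23) .nil)))) .nil)) 
(.lf (nat_lit 25830) (.g (nat_lit 2252) (.e (nat_lit 1190) (nat_lit 88) (.e (nat_lit 65630) (nat_lit 14) (.e (nat_lit 401458) (nat_lit 13) (.e (nat_lit 483383) (nat_lit 23) (.e (nat_lit 336000) (nat_lit 1) (.e (nat_lit 57871) (nat_lit 264) .nil)))))) (.g (nat_lit 4) .nil .nil)))) (.nd (nat_lit 5) 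
(.lf (nat_lit 25814) (.g (nat_lit 3010) (.e (nat_lit 1190) (nat_lit 88) (.e (nat_lit 65630) (nat_lit 14) (.e (nat_lit 401457) (nat_lit 13) (.e (nat_lit 483392) (nat_lit 23) (.e (nat_lit 335995) (nat_lit 1) (.e (nat_lit 57872) (nat_lit 264) .nil)))))) (.g (nat_lit 4) .nil .nil))) 
(.lf (nat_lit 25846) (.g (nat_lit 1928) (.e (nat_lit 1190) (nat_lit 88) (.e (nat_lit 65630) (nat_lit 14) (.e (nat_lit 401458) (nat_lit 13) (.e (nat_lit 483394) (nat_lit 24) (.e (nat_lit 344100) (nat_lit 18) (.e (nat_lit 5907) (nat_lit 320) .nil)))))) (.g (nat_lit 4) .nil .nil))))) (.nd (nat_lit 4) (.nd (nat_lit 5) 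
(.lf (nat_lit 25806) (.g (nat_lit 1656) (.e (nat_lit 1190) (nat_lit 88) (.e (nat_lit 65630) (nat_lit 14) (.e (nat_lit 401457) (nat_lit 13) (.e (nat_lit 483377) (nat_lit 22) .nil)))) .nil)) 
(.lf (nat_lit 25838) (.g (nat_lit 2251) (.e (nat_lit 1190) (nat_lit 88) (.e (nat_lit 65630) (nat_lit 14) (.e (nat_lit 401458) (nat_lit 13) (.e (nat_lit 483393) (nat_lit 23) (.e (nat_lit 335986) (nat_lit 1) (.e (nat_lit 57872) (nat_lit 264) .nil)))))) (.g (nat_lit 4) .nil .nil)))) (.nd (nat_lit 5) 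
(.lf (nat_lit 25822) (.g (nat_lit 3282) (.e (nat_lit 1190) (nat_lit 88) (.e (nat_lit 65630) (nat_lit 14) (.e (nat_lit 401457) (nat_lit 13) (.e (nat_lit 483413) (nat_lit 27) (.e (nat_lit 401420) (nat_lit 1) (.e (nat_lit 164422) (nat_lit 272) .nil)))))) (.g (nat_lit 4) .nil .nil))) 
(.lf (nat_lit 25854) (.g (nat_lit 403) (.e (nat_lit 1190) (nat_lit 88) (.e (nat_lit 65630) (nat_lit 14) (.e (nat_lit 401459) (nat_lit 13) .nil))) .nil))))))) (.nd (nat_lit 1) (.nd (nat_lit 2) (.nd (nat_lit 3) (.nd (nat_lit 4) (.nd (nat_lit 5) 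
(.lf (nat_lit 25793) (.g (nat_lit 3769) (.e (nat_lit 1190) (nat_lit 88) (.e (nat_lit 65630) (nat_lit 14) (.e (nat_lit 401438) (nat_lit 9) (.e (nat_lit 426555) (nat_lit 32) (.e (nat_lit 376859) (nat_lit 21) (.e (nat_lit 57873) (nat_lit 264) .nil)))))) (.g (nat_lit 6) .nil .nil))) 
(.lf (nat_lit 25825) (.g (nat_lit 502) (.e (nat_lit 1190) (nat_lit 88) (.e (nat_lit 65630) (nat_lit 14) (.e (nat_lit 401458) (nat_lit 13) .nil))) .nil))) (.nd (nat_lit 5) 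
(.lf (nat_lit 25809) (.g (nat_lit 1752) (.e (nat_lit 1190) (nat_lit 88) (.e (nat_lit 65630) (nat_lit 14) (.e (nat_lit 401457) (nat_lit 13) (.e (nat_lit 483383) (nat_lit 23) (.e (nat_lit 336000) (nat_lit 1) .nil))))) .nil)) 
(.lf (nat_lit 25841) (.g (nat_lit 2710) (.e (nat_lit 1190) (nat_lit 88) (.e (nat_lit 65630) (nat_lit 14) (.e (nat_lit 401458) (nat_lit 13) (.e (nat_lit 483393) (nat_lit 23) (.e (nat_lit 335995) (nat_lit 1) (.e (nat_lit 57870) (nat_lit 264) .nil)))))) (.g (nat_lit 5) .nil .nil))))) (.nd (nat_lit 4) (.nd (nat_lit 5) 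
(.lf (nat_lit 25801) (.g (nat_lit 2352) (.e (nat_lit 1190) (nat_lit 88) (.e (nat_lit 65630) (nat_lit 14) (.e (nat_lit 401456) (nat_lit 13) (.e (nat_lit 483395) (nat_lit 24) (.e (nat_lit 344097) (nat_lit 18) (.e (nat_lit 5907) (nat_lit 320) .nil)))))) (.g (nat_lit 5) .nil .nil))) 
(.lf (nat_lit 25833) (.g (nat_lit 2603) (.e (nat_lit 1190) (nat_lit 88) (.e (nat_lit 65630) (nat_lit 14) (.e (nat_lit 401458) (nat_lit 13) (.e (nat_lit 483387) (nat_lit 23) (.e (nat_lit 335997) (nat_lit 1) (.e (nat_lit 57870) (nat_lit 264) .nil)))))) (.g (nat_lit 5) .nil .nil)))) (.nd (nat_lit 5) 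
(.lf (nat_lit 25817) (.g (nat_lit 1104) (.e (nat_lit 1190) (nat_lit 88) (.e (nat_lit 65630) (nat_lit 14) (.e (nat_lit 401457) (nat_lit 13) (.e (nat_lit 491264) (nat_lit 23) .nil)))) .nil)) 
(.lf (nat_lit 25849) (.g (nat_lit 3511) (.e (nat_lit 1190) (nat_lit 88) (.e (nat_lit 65630) (nat_lit 14) (.e (nat_lit 401458) (nat_lit 13) (.e (nat_lit 483395) (nat_lit 24) (.e (nat_lit 344097) (nat_lit 18) (.e (nat_lit 5907) (nat_lit 320) .nil)))))) (.g (nat_lit 0) .nil .nil)))))) (.nd (nat_lit 3) (.nd (nat_lit 4) (.nd (nat_lit 5) 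
(.lf (nat_lit 25797) (.g (nat_lit 2624) (.e (nat_lit 1190) (nat_lit 88) (.e (nat_lit 65630) (nat_lit 14) (.e (nat_lit 401454) (nat_lit 12) (.e (nat_lit 475154) (nat_lit 20) .nil)))) .nil)) 
(.lf (nat_lit 25829) (.g (nat_lit 1849) (.e (nat_lit 1190) (nat_lit 88) (.e (nat_lit 65630) (nat_lit 14) (.e (nat_lit 401458) (nat_lit 13) (.e (nat_lit 483383) (nat_lit 23) (.e (nat_lit 336000) (nat_lit 1) (.e (nat_lit 57870) (nat_lit 264) .nil)))))) (.g (nat_lit 4) .nil .nil)))) (.nd (nat_lit 5) 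
(.lf (nat_lit 25813) (.g (nat_lit 1943) (.e (nat_lit 1190) (nat_lit 88) (.e (nat_lit 65630) (nat_lit 14) (.e (nat_lit 401457) (nat_lit 13) (.e (nat_lit 483390) (nat_lit 23) .nil)))) .nil)) 
(.lf (nat_lit 25845) (.g (nat_lit 3100) (.e (nat_lit 1190) (nat_lit 88) (.e (nat_lit 65630) (nat_lit 14) (.e (nat_lit 401458) (nat_lit 13) (.e (nat_lit 483394) (nat_lit 24) (.e (nat_lit 344097) (nat_lit 18) (.e (nat_lit 5906) (nat_lit 320) .nil)))))) (.g (nat_lit 6) .nil .nil))))) (.nd (nat_lit 4) (.nd (nat_lit 5) 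
(.lf (nat_lit 25805) (.g (nat_lit 3171) (.e (nat_lit 1190) (nat_lit 88) (.e (nat_lit 65630) (nat_lit 14) (.e (nat_lit 401457) (nat_lit 13) (.e (nat_lit 483346) (nat_lit 17) (.e (nat_lit 6479) (nat_lit 343) (.e (nat_lit 1181) (nat_lit 87) (.e (nat_lit 57872) (nat_lit 264) .nil))))))) (.g (nat_lit 4) .nil .nil))) 
(.lf (nat_lit 25837) (.g (nat_lit 2366) (.e (nat_lit 1190) (nat_lit 88) (.e (nat_lit 65630) (nat_lit 14) (.e (nat_lit 401458) (nat_lit 13) (.e (nat_lit 483393) (nat_lit 23) (.e (nat_lit 335986) (nat_lit 1) (.e (nat_lit 57871) (nat_lit 264) .nil)))))) (.g (nat_lit 4) .nil .nil)))) (.nd (nat_lit 5) 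
(.lf (nat_lit 25821) (.g (nat_lit 3435) (.e (nat_lit 1190) (nat_lit 88) (.e (nat_lit 65630) (nat_lit 14) (.e (nat_lit 401457) (nat_lit 13) (.e (nat_lit 483413) (nat_lit 27) (.e (nat_lit 401420) (nat_lit 1) (.e (nat_lit 164421) (nat_lit 272) .nil)))))) (.g (nat_lit 5) .nil .nil))) 
(.lf (nat_lit 25853) (.g (nat_lit 3018) (.e (nat_lit 1190) (nat_lit 88) (.e (nat_lit 65630) (nat_lit 14) (.e (nat_lit 401458) (nat_lit 13) (.e (nat_lit 483399) (nat_lit 25) (.e (nat_lit 368662) (nat_lit 18) (.e (nat_lit 5907) (nat_lit 320) .nil)))))) (.g (nat_lit 0) .nil .nil))))))) (.nd (nat_lit 2) (.nd (nat_lit 3) (.nd (nat_lit 4) (.nd (nat_lit 5) 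
(.lf (nat_lit 25795) (.g (nat_lit 1608) (.e (nat_lit 1190) (nat_lit 88) (.e (nat_lit 65630) (nat_lit 14) (.e (nat_lit 401454) (nat_lit 12) (.e (nat_lit 483072) (nat_lit 13) .nil)))) .nil)) 
(.lf (nat_lit 25827) (.g (nat_lit 2452) (.e (nat_lit 1190) (nat_lit 88) (.e (nat_lit 65630) (nat_lit 14) (.e (nat_lit 401458) (nat_lit 13) (.e (nat_lit 483378) (nat_lit 23) (.e (nat_lit 335997) (nat_lit 1) (.e (nat_lit 57871) (nat_lit 264) .nil)))))) (.g (nat_lit 5) .nil .nil)))) (.nd (nat_lit 5) 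
(.lf (nat_lit 25811) (.g (nat_lit 1941) (.e (nat_lit 1190) (nat_lit 88) (.e (nat_lit 65630) (nat_lit 14) (.e (nat_lit 401457) (nat_lit 13) (.e (nat_lit 483387) (nat_lit 23) .nil)))) .nil)) 
(.lf (nat_lit 25843) (.g (nat_lit 3304) (.e (nat_lit 1190) (nat_lit 88) (.e (nat_lit 65630) (nat_lit 14) (.e (nat_lit 401458) (nat_lit 13) (.e (nat_lit 483393) (nat_lit 23) (.e (nat_lit 335996) (nat_lit 1) (.e (nat_lit 57870) (nat_lit 264) .nil)))))) (.g (nat_lit 6) .nil .nil))))) (.nd (nat_lit 4) (.nd (nat_lit 5) 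
(.lf (nat_lit 25803) (.g (nat_lit 1614) (.e (nat_lit 1190) (nat_lit 88) (.e (nat_lit 65630) (nat_lit 14) (.e (nat_lit 401457) (nat_lit 13) (.e (nat_lit 483346) (nat_lit 17) .nil)))) .nil)) 
(.lf (nat_lit 25835) (.g (nat_lit 3295) (.e (nat_lit 1190) (nat_lit 88) (.e (nat_lit 65630) (nat_lit 14) (.e (nat_lit 401458) (nat_lit 13) (.e (nat_lit 483391) (nat_lit 23) (.e (nat_lit 335998) (nat_lit 1) (.e (nat_lit 57873) (nat_lit 264) .nil)))))) (.g (nat_lit 0) .nil .nil)))) (.nd (nat_lit 5) 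
(.lf (nat_lit 25819) (.g (nat_lit 2911) (.e (nat_lit 1190) (nat_lit 88) (.e (nat_lit 65630) (nat_lit 14) (.e (nat_lit 401457) (nat_lit 13) (.e (nat_lit 483395) (nat_lit 24) (.e (nat_lit 344097) (nat_lit 18) (.e (nat_lit 5907) (nat_lit 320) .nil)))))) (.g (nat_lit 4) .nil .nil))) 
(.lf (nat_lit 25851) (.g (nat_lit 2159) (.e (nat_lit 1190) (nat_lit 88) (.e (nat_lit 65630) (nat_lit 14) (.e (nat_lit 401458) (nat_lit 13) (.e (nat_lit 483396) (nat_lit 24) (.e (nat_lit 344100) (nat_lit 18) (.e (nat_lit 5906) (nat_lit 320) .nil)))))) (.g (nat_lit 4) .nil .nil)))))) (.nd (nat_lit 3) (.nd (nat_lit 4) (.nd (nat_lit 5) 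
(.lf (nat_lit 25799) (.g (nat_lit 1989) (.e (nat_lit 1190) (nat_lit 88) (.e (nat_lit 65630) (nat_lit 14) (.e (nat_lit 401456) (nat_lit 13) (.e (nat_lit 483394) (nat_lit 24) (.e (nat_lit 344097) (nat_lit 18) (.e (nat_lit 5907) (nat_lit 320) .nil)))))) (.g (nat_lit 4) .nil .nil))) 
(.lf (nat_lit 25831) (.g (nat_lit 2757) (.e (nat_lit 1190) (nat_lit 88) (.e (nat_lit 65630) (nat_lit 14) (.e (nat_lit 401458) (nat_lit 13) (.e (nat_lit 483383) (nat_lit 23) (.e (nat_lit 336000) (nat_lit 1) (.e (nat_lit 57872) (nat_lit 264) .nil)))))) (.g (nat_lit 5) .nil .nil)))) (.nd (nat_lit 5) 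
(.lf (nat_lit 25815) (.g (nat_lit 2258) (.e (nat_lit 1190) (nat_lit 88) (.e (nat_lit 65630) (nat_lit 14) (.e (nat_lit 401457) (nat_lit 13) (.e (nat_lit 483393) (nat_lit 23) (.e (nat_lit 335995) (nat_lit 1) (.e (nat_lit 57870) (nat_lit 264) .nil)))))) (.g (nat_lit 4) .nil .nil))) 
(.lf (nat_lit 25847) (.g (nat_lit 2236) (.e (nat_lit 1190) (nat_lit 88) (.e (nat_lit 65630) (nat_lit 14) (.e (nat_lit 401458) (nat_lit 13) (.e (nat_lit 483395) (nat_lit 24) (.e (nat_lit 344090) (nat_lit 18) (.e (nat_lit 5896) (nat_lit 320) .nil)))))) (.g (nat_lit 4) .nil .nil))))) (.nd (nat_lit 4) (.nd (nat_lit 5) 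
(.lf (nat_lit 25807) (.g (nat_lit 2633) (.e (nat_lit 1190) (nat_lit 88) (.e (nat_lit 65630) (nat_lit 14) (.e (nat_lit 401457) (nat_lit 13) (.e (nat_lit 483378) (nat_lit 23) (.e (nat_lit 335997) (nat_lit 1) (.e (nat_lit 57870) (nat_lit 264) .nil)))))) (.g (nat_lit 5) .nil .nil))) 
(.lf (nat_lit 25839) (.g (nat_lit 2383) (.e (nat_lit 1190) (nat_lit 88) (.e (nat_lit 65630) (nat_lit 14) (.e (nat_lit 401458) (nat_lit 13) (.e (nat_lit 483393) (nat_lit 23) (.e (nat_lit 335987) (nat_lit 1) (.e (nat_lit 57870) (nat_lit 264) .nil)))))) (.g (nat_lit 5) .nil .nil)))) (.nd (nat_lit 5) 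
(.lf (nat_lit 25823) (.g (nat_lit 3395) (.e (nat_lit 1190) (nat_lit 88) (.e (nat_lit 65630) (nat_lit 14) (.e (nat_lit 401457) (nat_lit 13) (.e (nat_lit 483413) (nat_lit 27) (.e (nat_lit 401421) (nat_lit 1) (.e (nat_lit 164421) (nat_lit 272) .nil)))))) (.g (nat_lit 5) .nil .nil))) 
(.lf (nat_lit 25855) (.g (nat_lit 2747) (.e (nat_lit 1190) (nat_lit 88) (.e (nat_lit 65630) (nat_lit 14) (.e (nat_lit 401459) (nat_lit 13) (.e (nat_lit 483342) (nat_lit 17) .nil)))) .nil))))))))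

noncomputable def tv365 : DT := (.nd (nat_lit 0) (.nd (nat_lit 1) (.nd (nat_lit 2) (.nd (nat_lit 3) (.nd (nat_lit 4) (.nd (nat_lit 5) (.nd (nat_lit 6) 
(.lf (nat_lit 25856) (.g (nat_lit 2261) (.e (nat_lit 1190) (nat_lit 88) (.e (nat_lit 65630) (nat_lit 14) (.e (nat_lit 401459) (nat_lit 13) (.e (nat_lit 483343) (nat_lit 17) .nil)))) .nil)) 
(.lf (nat_lit 25920) (.g (nat_lit 2891) (.e (nat_lit 1190) (nat_lit 88) (.e (nat_lit 65630) (nat_lit 14) (.e (nat_lit 401459) (nat_lit 13) (.e (nat_lit 483392) (nat_lit 23) .nil)))) .nil))) (.nd (nat_lit 6) 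
(.lf (nat_lit 25888) (.g (nat_lit 3614) (.e (nat_lit 1190) (nat_lit 88) (.e (nat_lit 65630) (nat_lit 14) (.e (nat_lit 401459) (nat_lit 13) (.e (nat_lit 483372) (nat_lit 21) (.e (nat_lit 327424) (nat_lit 0) .nil))))) .nil)) 
(.lf (nat_lit 25952) (.g (nat_lit 2072) (.e (nat_lit 1190) (nat_lit 88) (.e (nat_lit 65630) (nat_lit 14) (.e (nat_lit 401459) (nat_lit 13) (.e (nat_lit 483399) (nat_lit 25) .nil)))) .nil)))) (.nd (nat_lit 5) (.nd (nat_lit 6) 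
(.lf (nat_lit 25872) (.g (nat_lit 3875) (.e (nat_lit 1190) (nat_lit 88) (.e (nat_lit 65630) (nat_lit 14) (.e (nat_lit 401459) (nat_lit 13) (.e (nat_lit 483344) (nat_lit 17) (.e (nat_lit 6714) (nat_lit 360) (.e (nat_lit 163842) (nat_lit 0) (.e (nat_lit 4616) (nat_lit 269) .nil))))))) (.g (nat_lit 6) .nil .nil))) 
(.lf (nat_lit 25936) (.g (nat_lit 3664) (.e (nat_lit 1190) (nat_lit 88) (.e (nat_lit 65630) (nat_lit 14) (.e (nat_lit 401459) (nat_lit 13) (.e (nat_lit 483394) (nat_lit 24) (.e (nat_lit 344097) (nat_lit 18) (.e (nat_lit 5906) (nat_lit 320) .nil)))))) (.g (nat_lit 5) .nil .nil)))) (.nd (nat_lit 6) 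
(.lf (nat_lit 25904) (.g (nat_lit 3682) (.e (nat_lit 1190) (nat_lit 88) (.e (nat_lit 65630) (nat_lit 14) (.e (nat_lit 401459) (nat_lit 13) (.e (nat_lit 483380) (nat_lit 23) (.e (nat_lit 335971) (nat_lit 0) .nil))))) .nil)) 
(.lf (nat_lit 25968) (.g (nat_lit 2932) (.e (nat_lit 1190) (nat_lit 88) (.e (nat_lit 65630) (nat_lit 14) (.e (nat_lit 401459) (nat_lit 13) (.e (nat_lit 483411) (nat_lit 27) (.e (nat_lit 401414) (nat_lit 0) .nil))))) .nil))))) (.nd (nat_lit 4) (.nd (nat_lit 5) (.nd (nat_lit 6) 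
(.lf (nat_lit 25864) (.g (nat_lit 3041) (.e (nat_lit 1190) (nat_lit 88) (.e (nat_lit 65630) (nat_lit 14) (.e (nat_lit 401459) (nat_lit 13) (.e (nat_lit 483344) (nat_lit 17) (.e (nat_lit 6486) (nat_lit 343) .nil))))) .nil)) 
(.lf (nat_lit 25928) (.g (nat_lit 3812) (.e (nat_lit 1190) (nat_lit 88) (.e (nat_lit 65630) (nat_lit 14) (.e (nat_lit 401459) (nat_lit 13) (.e (nat_lit 483393) (nat_lit 23) (.e (nat_lit 335988) (nat_lit 1) (.e (nat_lit 57870) (nat_lit 264) .nil)))))) (.g (nat_lit 5) .nil .nil)))) (.nd (nat_lit 6) 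
(.lf (nat_lit 25896) (.g (nat_lit 2288) (.e (nat_lit 1190) (nat_lit 88) (.e (nat_lit 65630) (nat_lit 14) (.e (nat_lit 401459) (nat_lit 13) (.e (nat_lit 483375) (nat_lit 22) .nil)))) .nil)) 
(.lf (nat_lit 25960) (.g (nat_lit 3325) (.e (nat_lit 1190) (nat_lit 88) (.e (nat_lit 65630) (nat_lit 14) (.e (nat_lit 401459) (nat_lit 13) (.e (nat_lit 483410) (nat_lit 27) (.e (nat_lit 401414) (nat_lit 0) (.e (nat_lit 2425) (nat_lit 157) (.e (nat_lit 4616) (nat_lit 269) .nil))))))) (.g (nat_lit 4) .nil .nil))))) (.nd (nat_lit 5) (.nd (nat_lit 6) 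
(.lf (nat_lit 25880) (.g (nat_lit 3317) (.e (nat_lit 1190) (nat_lit 88) (.e (nat_lit 65630) (nat_lit 14) (.e (nat_lit 401459) (nat_lit 13) (.e (nat_lit 483350) (nat_lit 17) (.e (nat_lit 7936) (nat_lit 346) (.e (nat_lit 57354) (nat_lit 0) (.e (nat_lit 5905) (nat_lit 320) .nil))))))) (.g (nat_lit 4) .nil .nil))) 
(.lf (nat_lit 25944) (.g (nat_lit 3699) (.e (nat_lit 1190) (nat_lit 88) (.e (nat_lit 65630) (nat_lit 14) (.e (nat_lit 401459) (nat_lit 13) (.e (nat_lit 483395) (nat_lit 24) (.e (nat_lit 344097) (nat_lit 18) (.e (nat_lit 5907) (nat_lit 320) .nil)))))) (.g (nat_lit 6) .nil .nil)))) (.nd (nat_lit 6) 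
(.lf (nat_lit 25912) (.g (nat_lit 1867) (.e (nat_lit 1190) (nat_lit 88) (.e (nat_lit 65630) (nat_lit 14) (.e (nat_lit 401459) (nat_lit 13) (.e (nat_lit 483386) (nat_lit 23) .nil)))) .nil)) 
(.lf (nat_lit 25976) (.g (nat_lit 3621) (.e (nat_lit 1190) (nat_lit 88) (.e (nat_lit 65630) (nat_lit 14) (.e (nat_lit 401459) (nat_lit 13) (.e (nat_lit 483411) (nat_lit 27) (.e (nat_lit 401420) (nat_lit 1) (.e (nat_lit 164421) (nat_lit 272) .nil)))))) (.g (nat_lit 5) .nil .nil))))))) (.nd (nat_lit 3) (.nd (nat_lit 4) (.nd (nat_lit 5) (.nd (nat_lit 6) 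
(.lf (nat_lit 25860) (.g (nat_lit 3534) (.e (nat_lit 1190) (nat_lit 88) (.e (nat_lit 65630) (nat_lit 14) (.e (nat_lit 401459) (nat_lit 13) (.e (nat_lit 483344) (nat_lit 17) (.e (nat_lit 6434) (nat_lit 343) (.e (nat_lit 1183) (nat_lit 87) (.e (nat_lit 57871) (nat_lit 264) .nil))))))) (.g (nat_lit 4) .nil .nil))) 
(.lf (nat_lit 25924) (.g (nat_lit 3334) (.e (nat_lit 1190) (nat_lit 88) (.e (nat_lit 65630) (nat_lit 14) (.e (nat_lit 401459) (nat_lit 13) (.e (nat_lit 483393) (nat_lit 23) (.e (nat_lit 335986) (nat_lit 1) (.e (nat_lit 57871) (nat_lit 264) .nil)))))) (.g (nat_lit 4) .nil .nil)))) (.nd (nat_lit 6) 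
(.lf (nat_lit 25892) (.g (nat_lit 4893) (.e (nat_lit 1190) (nat_lit 88) (.e (nat_lit 65630) (nat_lit 14) (.e (nat_lit 401459) (nat_lit 13) (.e (nat_lit 483372) (nat_lit 21) (.e (nat_lit 319514) (nat_lit 11) .nil))))) .nil)) 
(.lf (nat_lit 25956) (.g (nat_lit 2434) (.e (nat_lit 1190) (nat_lit 88) (.e (nat_lit 65630) (nat_lit 14) (.e (nat_lit 401459) (nat_lit 13) (.e (nat_lit 483400) (nat_lit 25) .nil)))) .nil)))) (.nd (nat_lit 5) (.nd (nat_lit 6) 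
(.lf (nat_lit 25876) (.g (nat_lit 2176) (.e (nat_lit 1190) (nat_lit 88) (.e (nat_lit 65630) (nat_lit 14) (.e (nat_lit 401459) (nat_lit 13) (.e (nat_lit 483350) (nat_lit 17) .nil)))) .nil)) 
(.lf (nat_lit 25940) (.g (nat_lit 1551) (.e (nat_lit 1190) (nat_lit 88) (.e (nat_lit 65630) (nat_lit 14) (.e (nat_lit 401459) (nat_lit 13) (.e (nat_lit 483395) (nat_lit 24) .nil)))) .nil))) (.nd (nat_lit 6) 
(.lf (nat_lit 25908) (.g (nat_lit 2909) (.e (nat_lit 1190) (nat_lit 88) (.e (nat_lit 65630) (nat_lit 14) (.e (nat_lit 401459) (nat_lit 13) (.e (nat_lit 483380) (nat_lit 23) (.e (nat_lit 336258) (nat_lit 15) .nil))))) .nil)) 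
(.lf (nat_lit 25972) (.g (nat_lit 3034) (.e (nat_lit 1190) (nat_lit 88) (.e (nat_lit 65630) (nat_lit 14) (.e (nat_lit 401459) (nat_lit 13) (.e (nat_lit 483411) (nat_lit 27) (.e (nat_lit 401414) (nat_lit 0) (.e (nat_lit 2458) (nat_lit 157) (.e (nat_lit 4602) (nat_lit 269) .nil))))))) (.g (nat_lit 4) .nil .nil)))))) (.nd (nat_lit 4) (.nd (nat_lit 5) (.nd (nat_lit 6) 
(.lf (nat_lit 25868) (.g (nat_lit 4054) (.e (nat_lit 1190) (nat_lit 88) (.e (nat_lit 65630) (nat_lit 14) (.e (nat_lit 401459) (nat_lit 13) (.e (nat_lit 483344) (nat_lit 17) (.e (nat_lit 6712) (nat_lit 360) (.e (nat_lit 163843) (nat_lit 0) (.e (nat_lit 4598) (nat_lit 269) .nil))))))) (.g (nat_lit 5) .nil .nil))) 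
(.lf (nat_lit 25932) (.g (nat_lit 2240) (.e (nat_lit 1190) (nat_lit 88) (.e (nat_lit 65630) (nat_lit 14) (.e (nat_lit 401459) (nat_lit 13) (.e (nat_lit 491264) (nat_lit 23) .nil)))) .nil))) (.nd (nat_lit 6) 
(.lf (nat_lit 25900) (.g (nat_lit 2194) (.e (nat_lit 1190) (nat_lit 88) (.e (nat_lit 65630) (nat_lit 14) (.e (nat_lit 401459) (nat_lit 13) (.e (nat_lit 483380) (nat_lit 23) .nil)))) .nil)) 
(.lf (nat_lit 25964) (.g (nat_lit 3192) (.e (nat_lit 1190) (nat_lit 88) (.e (nat_lit 65630) (nat_lit 14) (.e (nat_lit 401459) (nat_lit 13) (.e (nat_lit 483410) (nat_lit 27) (.e (nat_lit 401420) (nat_lit 1) (.e (nat_lit 164421) (nat_lit 272) .nil)))))) (.g (nat_lit 4) .nil .nil))))) (.nd (nat_lit 5) (.nd (nat_lit 6) 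
(.lf (nat_lit 25884) (.g (nat_lit 3413) (.e (nat_lit 1190) (nat_lit 88) (.e (nat_lit 65630) (nat_lit 14) (.e (nat_lit 401459) (nat_lit 13) (.e (nat_lit 483354) (nat_lit 17) (.e (nat_lit 7936) (nat_lit 346) (.e (nat_lit 57354) (nat_lit 0) (.e (nat_lit 5905) (nat_lit 320) .nil))))))) (.g (nat_lit 4) .nil .nil))) 
(.lf (nat_lit 25948) (.g (nat_lit 3294) (.e (nat_lit 1190) (nat_lit 88) (.e (nat_lit 65630) (nat_lit 14) (.e (nat_lit 401459) (nat_lit 13) (.e (nat_lit 483396) (nat_lit 24) (.e (nat_lit 344100) (nat_lit 18) .nil))))) .nil))) (.nd (nat_lit 6) 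
(.lf (nat_lit 25916) (.g (nat_lit 3670) (.e (nat_lit 1190) (nat_lit 88) (.e (nat_lit 65630) (nat_lit 14) (.e (nat_lit 401459) (nat_lit 13) (.e (nat_lit 483387) (nat_lit 23) (.e (nat_lit 335997) (nat_lit 1) (.e (nat_lit 57872) (nat_lit 264) .nil)))))) (.g (nat_lit 5) .nil .nil))) 
(.lf (nat_lit 25980) (.g (nat_lit 3580) (.e (nat_lit 1190) (nat_lit 88) (.e (nat_lit 65630) (nat_lit 14) (.e (nat_lit 401459) (nat_lit 13) (.e (nat_lit 483411) (nat_lit 27) (.e (nat_lit 401422) (nat_lit 1) (.e (nat_lit 164421) (nat_lit 272) .nil)))))) (.g (nat_lit 4) .nil .nil)))))))) (.nd (nat_lit 2) (.nd (nat_lit 3) (.nd (nat_lit 4) (.nd (nat_lit 5) (.nd (nat_lit 6) 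
(.lf (nat_lit 25858) (.g (nat_lit 3043) (.e (nat_lit 1190) (nat_lit 88) (.e (nat_lit 65630) (nat_lit 14) (.e (nat_lit 401459) (nat_lit 13) (.e (nat_lit 483344) (nat_lit 17) (.e (nat_lit 6152) (nat_lit 332) (.e (nat_lit 2545) (nat_lit 158) (.e (nat_lit 8439) (nat_lit 138) .nil))))))) (.g (nat_lit 4) .nil .nil))) 
(.lf (nat_lit 25922) (.g (nat_lit 2561) (.e (nat_lit 1190) (nat_lit 88) (.e (nat_lit 65630) (nat_lit 14) (.e (nat_lit 401459) (nat_lit 13) (.e (nat_lit 483393) (nat_lit 23) .nil)))) .nil))) (.nd (nat_lit 6) 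
(.lf (nat_lit 25890) (.g (nat_lit 4911) (.e (nat_lit 1190) (nat_lit 88) (.e (nat_lit 65630) (nat_lit 14) (.e (nat_lit 401459) (nat_lit 13) (.e (nat_lit 483372) (nat_lit 21) (.e (nat_lit 319504) (nat_lit 10) .nil))))) .nil)) 
(.lf (nat_lit 25954) (.g (nat_lit 3696) (.e (nat_lit 1190) (nat_lit 88) (.e (nat_lit 65630) (nat_lit 14) (.e (nat_lit 401459) (nat_lit 13) (.e (nat_lit 483399) (nat_lit 25) (.e (nat_lit 368662) (nat_lit 18) (.e (nat_lit 5907) (nat_lit 320) .nil)))))) (.g (nat_lit 6) .nil .nil))))) (.nd (nat_lit 5) (.nd (nat_lit 6) 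
(.lf (nat_lit 25874) (.g (nat_lit 5112) (.e (nat_lit 1190) (nat_lit 88) (.e (nat_lit 65630) (nat_lit 14) (.e (nat_lit 401459) (nat_lit 13) (.e (nat_lit 483344) (nat_lit 17) (.e (nat_lit 6714) (nat_lit 360) (.e (nat_lit 163850) (nat_lit 0) (.e (nat_lit 4605) (nat_lit 269) .nil))))))) (.g (nat_lit 0) .nil .nil))) 
(.lf (nat_lit 25938) (.g (nat_lit 2762) (.e (nat_lit 1190) (nat_lit 88) (.e (nat_lit 65630) (nat_lit 14) (.e (nat_lit 401459) (nat_lit 13) (.e (nat_lit 483394) (nat_lit 24) (.e (nat_lit 344100) (nat_lit 18) .nil))))) .nil))) (.nd (nat_lit 6) 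
(.lf (nat_lit 25906) (.g (nat_lit 3204) (.e (nat_lit 1190) (nat_lit 88) (.e (nat_lit 65630) (nat_lit 14) (.e (nat_lit 401459) (nat_lit 13) (.e (nat_lit 483380) (nat_lit 23) (.e (nat_lit 343808) (nat_lit 1) (.e (nat_lit 57872) (nat_lit 264) .nil)))))) (.g (nat_lit 4) .nil .nil))) 
(.lf (nat_lit 25970) (.g (nat_lit 4485) (.e (nat_lit 1190) (nat_lit 88) (.e (nat_lit 65630) (nat_lit 14) (.e (nat_lit 401459) (nat_lit 13) (.e (nat_lit 483411) (nat_lit 27) (.e (nat_lit 401414) (nat_lit 0) (.e (nat_lit 2424) (nat_lit 157) (.e (nat_lit 4616) (nat_lit 269) .nil))))))) (.g (nat_lit 6) .nil .nil)))))) (.nd (nat_lit 4) (.nd (nat_lit 5) (.nd (nat_lit 6) 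
(.lf (nat_lit 25866) (.g (nat_lit 2267) (.e (nat_lit 1190) (nat_lit 88) (.e (nat_lit 65630) (nat_lit 14) (.e (nat_lit 401459) (nat_lit 13) (.e (nat_lit 483344) (nat_lit 17) (.e (nat_lit 6619) (nat_lit 357) .nil))))) .nil)) 
(.lf (nat_lit 25930) (.g (nat_lit 4229) (.e (nat_lit 1190) (nat_lit 88) (.e (nat_lit 65630) (nat_lit 14) (.e (nat_lit 401459) (nat_lit 13) (.e (nat_lit 483393) (nat_lit 23) (.e (nat_lit 335995) (nat_lit 1) (.e (nat_lit 57872) (nat_lit 264) .nil)))))) (.g (nat_lit 5) .nil .nil)))) (.nd (nat_lit 6) 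
(.lf (nat_lit 25898) (.g (nat_lit 3158) (.e (nat_lit 1190) (nat_lit 88) (.e (nat_lit 65630) (nat_lit 14) (.e (nat_lit 401459) (nat_lit 13) (.e (nat_lit 483378) (nat_lit 23) (.e (nat_lit 335997) (nat_lit 1) (.e (nat_lit 57870) (nat_lit 264) .nil)))))) (.g (nat_lit 5) .nil .nil))) 
(.lf (nat_lit 25962) (.g (nat_lit 3166) (.e (nat_lit 1190) (nat_lit 88) (.e (nat_lit 65630) (nat_lit 14) (.e (nat_lit 401459) (nat_lit 13) (.e (nat_lit 483410) (nat_lit 27) (.e (nat_lit 401418) (nat_lit 0) .nil))))) .nil)))) (.nd (nat_lit 5) (.nd (nat_lit 6) 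
(.lf (nat_lit 25882) (.g (nat_lit 2458) (.e (nat_lit 1190) (nat_lit 88) (.e (nat_lit 65630) (nat_lit 14) (.e (nat_lit 401459) (nat_lit 13) (.e (nat_lit 483354) (nat_lit 17) .nil)))) .nil)) 
(.lf (nat_lit 25946) (.g (nat_lit 2489) (.e (nat_lit 1190) (nat_lit 88) (.e (nat_lit 65630) (nat_lit 14) (.e (nat_lit 401459) (nat_lit 13) (.e (nat_lit 483396) (nat_lit 24) .nil)))) .nil))) (.nd (nat_lit 6) 
(.lf (nat_lit 25914) (.g (nat_lit 3562) (.e (nat_lit 1190) (nat_lit 88) (.e (nat_lit 65630) (nat_lit 14) (.e (nat_lit 401459) (nat_lit 13) (.e (nat_lit 483387) (nat_lit 23) (.e (nat_lit 335997) (nat_lit 1) (.e (nat_lit 57870) (nat_lit 264) .nil)))))) (.g (nat_lit 5) .nil .nil))) 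
(.lf (nat_lit 25978) (.g (nat_lit 3677) (.e (nat_lit 1190) (nat_lit 88) (.e (nat_lit 65630) (nat_lit 14) (.e (nat_lit 401459) (nat_lit 13) (.e (nat_lit 483411) (nat_lit 27) (.e (nat_lit 401421) (nat_lit 1) (.e (nat_lit 164421) (nat_lit 272) .nil)))))) (.g (nat_lit 4) .nil .nil))))))) (.nd (nat_lit 3) (.nd (nat_lit 4) (.nd (nat_lit 5) (.nd (nat_lit 6) 
(.lf (nat_lit 25862) (.g (nat_lit 2875) (.e (nat_lit 1190) (nat_lit 88) (.e (nat_lit 65630) (nat_lit 14) (.e (nat_lit 401459) (nat_lit 13) (.e (nat_lit 483344) (nat_lit 17) (.e (nat_lit 6444) (nat_lit 343) .nil))))) .nil)) 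
(.lf (nat_lit 25926) (.g (nat_lit 4287) (.e (nat_lit 1190) (nat_lit 88) (.e (nat_lit 65630) (nat_lit 14) (.e (nat_lit 401459) (nat_lit 13) (.e (nat_lit 483393) (nat_lit 23) (.e (nat_lit 335986) (nat_lit 1) (.e (nat_lit 57873) (nat_lit 264) .nil)))))) (.g (nat_lit 6) .nil .nil)))) (.nd (nat_lit 6) 
(.lf (nat_lit 25894) (.g (nat_lit 3159) (.e (nat_lit 1190) (nat_lit 88) (.e (nat_lit 65630) (nat_lit 14) (.e (nat_lit 401459) (nat_lit 13) (.e (nat_lit 483373) (nat_lit 22) .nil)))) .nil)) 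
(.lf (nat_lit 25958) (.g (nat_lit 2027) (.e (nat_lit 1190) (nat_lit 88) (.e (nat_lit 65630) (nat_lit 14) (.e (nat_lit 401459) (nat_lit 13) (.e (nat_lit 483410) (nat_lit 27) .nil)))) .nil)))) (.nd (nat_lit 5) (.nd (nat_lit 6) 
(.lf (nat_lit 25878) (.g (nat_lit 3299) (.e (nat_lit 1190) (nat_lit 88) (.e (nat_lit 65630) (nat_lit 14) (.e (nat_lit 401459) (nat_lit 13) (.e (nat_lit 483350) (nat_lit 17) (.e (nat_lit 7936) (nat_lit 343) .nil))))) .nil)) 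
(.lf (nat_lit 25942) (.g (nat_lit 3273) (.e (nat_lit 1190) (nat_lit 88) (.e (nat_lit 65630) (nat_lit 14) (.e (nat_lit 401459) (nat_lit 13) (.e (nat_lit 483395) (nat_lit 24) (.e (nat_lit 344097) (nat_lit 18) (.e (nat_lit 5905) (nat_lit 320) .nil)))))) (.g (nat_lit 5) .nil .nil)))) (.nd (nat_lit 6) 
(.lf (nat_lit 25910) (.g (nat_lit 2732) (.e (nat_lit 1190) (nat_lit 88) (.e (nat_lit 65630) (nat_lit 14) (.e (nat_lit 401459) (nat_lit 13) (.e (nat_lit 483383) (nat_lit 23) .nil)))) .nil)) 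
(.lf (nat_lit 25974) (.g (nat_lit 3316) (.e (nat_lit 1190) (nat_lit 88) (.e (nat_lit 65630) (nat_lit 14) (.e (nat_lit 401459) (nat_lit 13) (.e (nat_lit 483411) (nat_lit 27) (.e (nat_lit 401414) (nat_lit 0) (.e (nat_lit 2478) (nat_lit 157) (.e (nat_lit 4605) (nat_lit 269) .nil))))))) (.g (nat_lit 4) .nil .nil)))))) (.nd (nat_lit 4) (.nd (nat_lit 5) (.nd (nat_lit 6) 
(.lf (nat_lit 25870) (.g (nat_lit 3608) (.e (nat_lit 1190) (nat_lit 88) (.e (nat_lit 65630) (nat_lit 14) (.e (nat_lit 401459) (nat_lit 13) (.e (nat_lit 483344) (nat_lit 17) (.e (nat_lit 6712) (nat_lit 360) (.e (nat_lit 163849) (nat_lit 0) (.e (nat_lit 4598) (nat_lit 269) .nil))))))) (.g (nat_lit 4) .nil .nil))) 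
(.lf (nat_lit 25934) (.g (nat_lit 2762) (.e (nat_lit 1190) (nat_lit 88) (.e (nat_lit 65630) (nat_lit 14) (.e (nat_lit 401459) (nat_lit 13) (.e (nat_lit 483394) (nat_lit 24) (.e (nat_lit 344090) (nat_lit 18) .nil))))) .nil))) (.nd (nat_lit 6) 
(.lf (nat_lit 25902) (.g (nat_lit 3608) (.e (nat_lit 1190) (nat_lit 88) (.e (nat_lit 65630) (nat_lit 14) (.e (nat_lit 401459) (nat_lit 13) (.e (nat_lit 483380) (nat_lit 23) (.e (nat_lit 335883) (nat_lit 0) .nil))))) .nil)) 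
(.lf (nat_lit 25966) (.g (nat_lit 3182) (.e (nat_lit 1190) (nat_lit 88) (.e (nat_lit 65630) (nat_lit 14) (.e (nat_lit 401459) (nat_lit 13) (.e (nat_lit 483410) (nat_lit 27) (.e (nat_lit 401462) (nat_lit 15) .nil))))) .nil)))) (.nd (nat_lit 5) (.nd (nat_lit 6) 
(.lf (nat_lit 25886) (.g (nat_lit 4588) (.e (nat_lit 1190) (nat_lit 88) (.e (nat_lit 65630) (nat_lit 14) (.e (nat_lit 401459) (nat_lit 13) (.e (nat_lit 483372) (nat_lit 21) (.e (nat_lit 319490) (nat_lit 0) .nil))))) .nil)) 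
(.lf (nat_lit 25950) (.g (nat_lit 2852) (.e (nat_lit 1190) (nat_lit 88) (.e (nat_lit 65630) (nat_lit 14) (.e (nat_lit 401459) (nat_lit 13) (.e (nat_lit 483397) (nat_lit 25) .nil)))) .nil))) (.nd (nat_lit 6) 
(.lf (nat_lit 25918) (.g (nat_lit 2710) (.e (nat_lit 1190) (nat_lit 88) (.e (nat_lit 65630) (nat_lit 14) (.e (nat_lit 401459) (nat_lit 13) (.e (nat_lit 483389) (nat_lit 23) .nil)))) .nil)) 
(.lf (nat_lit 25982) (.g (nat_lit 3011) (.e (nat_lit 1190) (nat_lit 88) (.e (nat_lit 65631) (nat_lit 15) (.e (nat_lit 7593) (nat_lit 407) (.e (nat_lit 73746) (nat_lit 3) (.e (nat_lit 516195) (nat_lit 26) (.e (nat_lit 335995) (nat_lit 1) (.e (nat_lit 57872) (nat_lit 264) .nil))))))) (.g (nat_lit 6) .nil .nil))))))))) 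
(.nd (nat_lit 1) (.nd (nat_lit 2) (.nd (nat_lit 3) (.nd (nat_lit 4) (.nd (nat_lit 5) 
(.nd (nat_lit 6) 
(.lf (nat_lit 25857) (.g (nat_lit 2027) (.e (nat_lit 1190) (nat_lit 88) (.e (nat_lit 65630) (nat_lit 14) (.e (nat_lit 401459) (nat_lit 13) (.e (nat_lit 483344) (nat_lit 17) .nil)))) .nil)) 
(.lf (nat_lit 25921) (.g (nat_lit 3957) (.e (nat_lit 1190) (nat_lit 88) (.e (nat_lit 65630) (nat_lit 14) (.e (nat_lit 401459) (nat_lit 13) (.e (nat_lit 483392) (nat_lit 23) (.e (nat_lit 335995) (nat_lit 1) (.e (nat_lit 57872) (nat_lit 264) .nil)))))) (.g (nat_lit 5) .nil .nil)))) (.nd (nat_lit 6) 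
(.lf (nat_lit 25889) (.g (nat_lit 3682) (.e (nat_lit 1190) (nat_lit 88) (.e (nat_lit 65630) (nat_lit 14) (.e (nat_lit 401459) (nat_lit 13) (.e (nat_lit 483372) (nat_lit 21) (.e (nat_lit 327424) (nat_lit 1) (.e (nat_lit 8439) (nat_lit 138) .nil)))))) (.g (nat_lit 4) .nil .nil))) 
(.lf (nat_lit 25953) (.g (nat_lit 2968) (.e (nat_lit 1190) (nat_lit 88) (.e (nat_lit 65630) (nat_lit 14) (.e (nat_lit 401459) (nat_lit 13) (.e (nat_lit 483399) (nat_lit 25) (.e (nat_lit 368662) (nat_lit 18) (.e (nat_lit 5905) (nat_lit 320) .nil)))))) (.g (nat_lit 4) .nil .nil))))) (.nd (nat_lit 5) (.nd (nat_lit 6) 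
(.lf (nat_lit 25873) (.g (nat_lit 4259) (.e (nat_lit 1190) (nat_lit 88) (.e (nat_lit 65630) (nat_lit 14) (.e (nat_lit 401459) (nat_lit 13) (.e (nat_lit 483344) (nat_lit 17) (.e (nat_lit 6714) (nat_lit 360) (.e (nat_lit 163843) (nat_lit 0) (.e (nat_lit 4598) (nat_lit 269) .nil))))))) (.g (nat_lit 6) .nil .nil))) 
(.lf (nat_lit 25937) (.g (nat_lit 4216) (.e (nat_lit 1190) (nat_lit 88) (.e (nat_lit 65630) (nat_lit 14) (.e (nat_lit 401459) (nat_lit 13) (.e (nat_lit 483394) (nat_lit 24) (.e (nat_lit 344097) (nat_lit 18) (.e (nat_lit 5907) (nat_lit 320) .nil)))))) (.g (nat_lit 6) .nil .nil)))) (.nd (nat_lit 6) 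
(.lf (nat_lit 25905) (.g (nat_lit 3693) (.e (nat_lit 1190) (nat_lit 88) (.e (nat_lit 65630) (nat_lit 14) (.e (nat_lit 401459) (nat_lit 13) (.e (nat_lit 483380) (nat_lit 23) (.e (nat_lit 335973) (nat_lit 0) .nil))))) .nil)) 
(.lf (nat_lit 25969) (.g (nat_lit 3477) (.e (nat_lit 1190) (nat_lit 88) (.e (nat_lit 65630) (nat_lit 14) (.e (nat_lit 401459) (nat_lit 13) (.e (nat_lit 483411) (nat_lit 27) (.e (nat_lit 401414) (nat_lit 0) (.e (nat_lit 2423) (nat_lit 157) (.e (nat_lit 4616) (nat_lit 269) .nil))))))) (.g (nat_lit 4) .nil .nil)))))) (.nd (nat_lit 4) (.nd (nat_lit 5) (.nd (nat_lit 6) 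
(.lf (nat_lit 25865) (.g (nat_lit 2861) (.e (nat_lit 1190) (nat_lit 88) (.e (nat_lit 65630) (nat_lit 14) (.e (nat_lit 401459) (nat_lit 13) (.e (nat_lit 483344) (nat_lit 17) (.e (nat_lit 6511) (nat_lit 346) .nil))))) .nil)) 
(.lf (nat_lit 25929) (.g (nat_lit 3645) (.e (nat_lit 1190) (nat_lit 88) (.e (nat_lit 65630) (nat_lit 14) (.e (nat_lit 401459) (nat_lit 13) (.e (nat_lit 483393) (nat_lit 23) (.e (nat_lit 335995) (nat_lit 1) (.e (nat_lit 57870) (nat_lit 264) .nil)))))) (.g (nat_lit 4) .nil .nil)))) (.nd (nat_lit 6) 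
(.lf (nat_lit 25897) (.g (nat_lit 3716) (.e (nat_lit 1190) (nat_lit 88) (.e (nat_lit 65630) (nat_lit 14) (.e (nat_lit 401459) (nat_lit 13) (.e (nat_lit 483375) (nat_lit 22) (.e (nat_lit 327692) (nat_lit 1) (.e (nat_lit 8439) (nat_lit 138) .nil)))))) (.g (nat_lit 4) .nil .nil))) 
(.lf (nat_lit 25961) (.g (nat_lit 3288) (.e (nat_lit 1190) (nat_lit 88) (.e (nat_lit 65630) (nat_lit 14) (.e (nat_lit 401459) (nat_lit 13) (.e (nat_lit 483410) (nat_lit 27) (.e (nat_lit 401414) (nat_lit 0) (.e (nat_lit 2438) (nat_lit 157) (.e (nat_lit 4603) (nat_lit 269) .nil))))))) (.g (nat_lit 4) .nil .nil))))) (.nd (nat_lit 5) (.nd (nat_lit 6) 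
(.lf (nat_lit 25881) (.g (nat_lit 3159) (.e (nat_lit 1190) (nat_lit 88) (.e (nat_lit 65630) (nat_lit 14) (.e (nat_lit 401459) (nat_lit 13) (.e (nat_lit 483351) (nat_lit 17) .nil)))) .nil)) 
(.lf (nat_lit 25945) (.g (nat_lit 2619) (.e (nat_lit 1190) (nat_lit 88) (.e (nat_lit 65630) (nat_lit 14) (.e (nat_lit 401459) (nat_lit 13) (.e (nat_lit 483395) (nat_lit 24) (.e (nat_lit 344099) (nat_lit 18) .nil))))) .nil))) (.nd (nat_lit 6) 
(.lf (nat_lit 25913) (.g (nat_lit 2643) (.e (nat_lit 1190) (nat_lit 88) (.e (nat_lit 65630) (nat_lit 14) (.e (nat_lit 401459) (nat_lit 13) (.e (nat_lit 483386) (nat_lit 23) (.e (nat_lit 335923) (nat_lit 0) .nil))))) .nil)) 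
(.lf (nat_lit 25977) (.g (nat_lit 3544) (.e (nat_lit 1190) (nat_lit 88) (.e (nat_lit 65630) (nat_lit 14) (.e (nat_lit 401459) (nat_lit 13) (.e (nat_lit 483411) (nat_lit 27) (.e (nat_lit 401420) (nat_lit 1) (.e (nat_lit 164422) (nat_lit 272) .nil)))))) (.g (nat_lit 4) .nil .nil))))))) (.nd (nat_lit 3) (.nd (nat_lit 4) (.nd (nat_lit 5) (.nd (nat_lit 6) 
(.lf (nat_lit 25861) (.g (nat_lit 3573) (.e (nat_lit 1190) (nat_lit 88) (.e (nat_lit 65630) (nat_lit 14) (.e (nat_lit 401459) (nat_lit 13) (.e (nat_lit 483344) (nat_lit 17) (.e (nat_lit 6436) (nat_lit 343) (.e (nat_lit 1183) (nat_lit 87) (.e (nat_lit 57870) (nat_lit 264) .nil))))))) (.g (nat_lit 4) .nil .nil))) 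
(.lf (nat_lit 25925) (.g (nat_lit 3233) (.e (nat_lit 1190) (nat_lit 88) (.e (nat_lit 65630) (nat_lit 14) (.e (nat_lit 401459) (nat_lit 13) (.e (nat_lit 483393) (nat_lit 23) (.e (nat_lit 335986) (nat_lit 1) (.e (nat_lit 57872) (nat_lit 264) .nil)))))) (.g (nat_lit 4) .nil .nil)))) (.nd (nat_lit 6) 
(.lf (nat_lit 25893) (.g (nat_lit 4873) (.e (nat_lit 1190) (nat_lit 88) (.e (nat_lit 65630) (nat_lit 14) (.e (nat_lit 401459) (nat_lit 13) (.e (nat_lit 483372) (nat_lit 21) (.e (nat_lit 319516) (nat_lit 11) .nil))))) .nil)) 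
(.lf (nat_lit 25957) (.g (nat_lit 2592) (.e (nat_lit 1190) (nat_lit 88) (.e (nat_lit 65630) (nat_lit 14) (.e (nat_lit 401459) (nat_lit 13) (.e (nat_lit 483409) (nat_lit 27) .nil)))) .nil)))) (.nd (nat_lit 5) (.nd (nat_lit 6) 
(.lf (nat_lit 25877) (.g (nat_lit 3438) (.e (nat_lit 1190) (nat_lit 88) (.e (nat_lit 65630) (nat_lit 14) (.e (nat_lit 401459) (nat_lit 13) (.e (nat_lit 483350) (nat_lit 17) (.e (nat_lit 6097) (nat_lit 332) .nil))))) .nil)) 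
(.lf (nat_lit 25941) (.g (nat_lit 2701) (.e (nat_lit 1190) (nat_lit 88) (.e (nat_lit 65630) (nat_lit 14) (.e (nat_lit 401459) (nat_lit 13) (.e (nat_lit 483395) (nat_lit 24) (.e (nat_lit 344090) (nat_lit 18) (.e (nat_lit 5896) (nat_lit 320) .nil)))))) (.g (nat_lit 4) .nil .nil)))) (.nd (nat_lit 6) 
(.lf (nat_lit 25909) (.g (nat_lit 2385) (.e (nat_lit 1190) (nat_lit 88) (.e (nat_lit 65630) (nat_lit 14) (.e (nat_lit 401459) (nat_lit 13) (.e (nat_lit 483381) (nat_lit 23) .nil)))) .nil)) 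
(.lf (nat_lit 25973) (.g (nat_lit 4235) (.e (nat_lit 1190) (nat_lit 88) (.e (nat_lit 65630) (nat_lit 14) (.e (nat_lit 401459) (nat_lit 13) (.e (nat_lit 483411) (nat_lit 27) (.e (nat_lit 401414) (nat_lit 0) (.e (nat_lit 2458) (nat_lit 157) (.e (nat_lit 4605) (nat_lit 269) .nil))))))) (.g (nat_lit 5) .nil .nil)))))) (.nd (nat_lit 4) (.nd (nat_lit 5) (.nd (nat_lit 6) 
(.lf (nat_lit 25869) (.g (nat_lit 3844) (.e (nat_lit 1190) (nat_lit 88) (.e (nat_lit 65630) (nat_lit 14) (.e (nat_lit 401459) (nat_lit 13) (.e (nat_lit 483344) (nat_lit 17) (.e (nat_lit 6712) (nat_lit 360) (.e (nat_lit 163844) (nat_lit 0) (.e (nat_lit 4598) (nat_lit 269) .nil))))))) (.g (nat_lit 5) .nil .nil))) 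
(.lf (nat_lit 25933) (.g (nat_lit 3469) (.e (nat_lit 1190) (nat_lit 88) (.e (nat_lit 65630) (nat_lit 14) (.e (nat_lit 401459) (nat_lit 13) (.e (nat_lit 491264) (nat_lit 23) (.e (nat_lit 335995) (nat_lit 1) (.e (nat_lit 57872) (nat_lit 264) .nil)))))) (.g (nat_lit 5) .nil .nil)))) (.nd (nat_lit 6) 
(.lf (nat_lit 25901) (.g (nat_lit 3637) (.e (nat_lit 1190) (nat_lit 88) (.e (nat_lit 65630) (nat_lit 14) (.e (nat_lit 401459) (nat_lit 13) (.e (nat_lit 483380) (nat_lit 23) (.e (nat_lit 335880) (nat_lit 0) .nil))))) .nil)) 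
(.lf (nat_lit 25965) (.g (nat_lit 4178) (.e (nat_lit 1190) (nat_lit 88) (.e (nat_lit 65630) (nat_lit 14) (.e (nat_lit 401459) (nat_lit 13) (.e (nat_lit 483410) (nat_lit 27) (.e (nat_lit 401422) (nat_lit 1) (.e (nat_lit 164422) (nat_lit 272) .nil)))))) (.g (nat_lit 6) .nil .nil))))) (.nd (nat_lit 5) (.nd (nat_lit 6) 
(.lf (nat_lit 25885) (.g (nat_lit 3226) (.e (nat_lit 1190) (nat_lit 88) (.e (nat_lit 65630) (nat_lit 14) (.e (nat_lit 401459) (nat_lit 13) (.e (nat_lit 483354) (nat_lit 17) (.e (nat_lit 7936) (nat_lit 346) (.e (nat_lit 57354) (nat_lit 0) (.e (nat_lit 5906) (nat_lit 320) .nil))))))) (.g (nat_lit 4) .nil .nil))) 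
(.lf (nat_lit 25949) (.g (nat_lit 3624) (.e (nat_lit 1190) (nat_lit 88) (.e (nat_lit 65630) (nat_lit 14) (.e (nat_lit 401459) (nat_lit 13) (.e (nat_lit 483396) (nat_lit 24) (.e (nat_lit 344100) (nat_lit 18) (.e (nat_lit 5907) (nat_lit 320) .nil)))))) (.g (nat_lit 4) .nil .nil)))) (.nd (nat_lit 6) 
(.lf (nat_lit 25917) (.g (nat_lit 2822) (.e (nat_lit 1190) (nat_lit 88) (.e (nat_lit 65630) (nat_lit 14) (.e (nat_lit 401459) (nat_lit 13) (.e (nat_lit 483388) (nat_lit 23) .nil)))) .nil)) 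
(.lf (nat_lit 25981) (.g (nat_lit 3252) (.e (nat_lit 1190) (nat_lit 88) (.e (nat_lit 65630) (nat_lit 14) (.e (nat_lit 401459) (nat_lit 13) (.e (nat_lit 483411) (nat_lit 27) (.e (nat_lit 401422) (nat_lit 1) (.e (nat_lit 164422) (nat_lit 272) .nil)))))) (.g (nat_lit 4) .nil .nil)))))))) (.nd (nat_lit 2) (.nd (nat_lit 3) (.nd (nat_lit 4) (.nd (nat_lit 5) (.nd (nat_lit 6) 
(.lf (nat_lit 25859) (.g (nat_lit 3596) (.e (nat_lit 1190) (nat_lit 88) (.e (nat_lit 65630) (nat_lit 14) (.e (nat_lit 401459) (nat_lit 13) (.e (nat_lit 483344) (nat_lit 17) (.e (nat_lit 6155) (nat_lit 332) (.e (nat_lit 2546) (nat_lit 158) (.e (nat_lit 8439) (nat_lit 138) .nil))))))) (.g (nat_lit 4) .nil .nil))) 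
(.lf (nat_lit 25923) (.g (nat_lit 2955) (.e (nat_lit 1190) (nat_lit 88) (.e (nat_lit 65630) (nat_lit 14) (.e (nat_lit 401459) (nat_lit 13) (.e (nat_lit 483393) (nat_lit 23) (.e (nat_lit 335986) (nat_lit 1) .nil))))) .nil))) (.nd (nat_lit 6) 
(.lf (nat_lit 25891) (.g (nat_lit 4949) (.e (nat_lit 1190) (nat_lit 88) (.e (nat_lit 65630) (nat_lit 14) (.e (nat_lit 401459) (nat_lit 13) (.e (nat_lit 483372) (nat_lit 21) (.e (nat_lit 319505) (nat_lit 10) .nil))))) .nil)) 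
(.lf (nat_lit 25955) (.g (nat_lit 2571) (.e (nat_lit 1190) (nat_lit 88) (.e (nat_lit 65630) (nat_lit 14) (.e (nat_lit 401459) (nat_lit 13) (.e (nat_lit 483399) (nat_lit 25) (.e (nat_lit 368663) (nat_lit 18) .nil))))) .nil)))) (.nd (nat_lit 5) (.nd (nat_lit 6) 
(.lf (nat_lit 25875) (.g (nat_lit 2343) (.e (nat_lit 1190) (nat_lit 88) (.e (nat_lit 65630) (nat_lit 14) (.e (nat_lit 401459) (nat_lit 13) (.e (nat_lit 483347) (nat_lit 17) .nil)))) .nil)) 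
(.lf (nat_lit 25939) (.g (nat_lit 2905) (.e (nat_lit 1190) (nat_lit 88) (.e (nat_lit 65630) (nat_lit 14) (.e (nat_lit 401459) (nat_lit 13) (.e (nat_lit 483394) (nat_lit 24) (.e (nat_lit 344100) (nat_lit 18) (.e (nat_lit 5907) (nat_lit 320) .nil)))))) (.g (nat_lit 4) .nil .nil)))) (.nd (nat_lit 6) 
(.lf (nat_lit 25907) (.g (nat_lit 3004) (.e (nat_lit 1190) (nat_lit 88) (.e (nat_lit 65630) (nat_lit 14) (.e (nat_lit 401459) (nat_lit 13) (.e (nat_lit 483380) (nat_lit 23) (.e (nat_lit 336257) (nat_lit 15) .nil))))) .nil)) 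
(.lf (nat_lit 25971) (.g (nat_lit 4499) (.e (nat_lit 1190) (nat_lit 88) (.e (nat_lit 65630) (nat_lit 14) (.e (nat_lit 401459) (nat_lit 13) (.e (nat_lit 483411) (nat_lit 27) (.e (nat_lit 401414) (nat_lit 0) (.e (nat_lit 2425) (nat_lit 157) (.e (nat_lit 4616) (nat_lit 269) .nil))))))) (.g (nat_lit 6) .nil .nil)))))) (.nd (nat_lit 4) (.nd (nat_lit 5) (.nd (nat_lit 6) 
(.lf (nat_lit 25867) (.g (nat_lit 3088) (.e (nat_lit 1190) (nat_lit 88) (.e (nat_lit 65630) (nat_lit 14) (.e (nat_lit 401459) (nat_lit 13) (.e (nat_lit 483344) (nat_lit 17) (.e (nat_lit 6712) (nat_lit 360) (.e (nat_lit 163842) (nat_lit 0) (.e (nat_lit 4616) (nat_lit 269) .nil))))))) (.g (nat_lit 4) .nil .nil))) 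
(.lf (nat_lit 25931) (.g (nat_lit 4221) (.e (nat_lit 1190) (nat_lit 88) (.e (nat_lit 65630) (nat_lit 14) (.e (nat_lit 401459) (nat_lit 13) (.e (nat_lit 483393) (nat_lit 23) (.e (nat_lit 335996) (nat_lit 1) (.e (nat_lit 57870) (nat_lit 264) .nil)))))) (.g (nat_lit 5) .nil .nil)))) (.nd (nat_lit 6) 
(.lf (nat_lit 25899) (.g (nat_lit 3235) (.e (nat_lit 1190) (nat_lit 88) (.e (nat_lit 65630) (nat_lit 14) (.e (nat_lit 401459) (nat_lit 13) (.e (nat_lit 483378) (nat_lit 23) (.e (nat_lit 335997) (nat_lit 1) (.e (nat_lit 57872) (nat_lit 264) .nil)))))) (.g (nat_lit 5) .nil .nil))) 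
(.lf (nat_lit 25963) (.g (nat_lit 3183) (.e (nat_lit 1190) (nat_lit 88) (.e (nat_lit 65630) (nat_lit 14) (.e (nat_lit 401459) (nat_lit 13) (.e (nat_lit 483410) (nat_lit 27) (.e (nat_lit 401420) (nat_lit 1) .nil))))) .nil)))) (.nd (nat_lit 5) (.nd (nat_lit 6) 
(.lf (nat_lit 25883) (.g (nat_lit 2801) (.e (nat_lit 1190) (nat_lit 88) (.e (nat_lit 65630) (nat_lit 14) (.e (nat_lit 401459) (nat_lit 13) (.e (nat_lit 483354) (nat_lit 17) (.e (nat_lit 6493) (nat_lit 343) .nil))))) .nil)) 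
(.lf (nat_lit 25947) (.g (nat_lit 3280) (.e (nat_lit 1190) (nat_lit 88) (.e (nat_lit 65630) (nat_lit 14) (.e (nat_lit 401459) (nat_lit 13) (.e (nat_lit 483396) (nat_lit 24) (.e (nat_lit 344097) (nat_lit 18) .nil))))) .nil))) (.nd (nat_lit 6) 
(.lf (nat_lit 25915) (.g (nat_lit 3335) (.e (nat_lit 1190) (nat_lit 88) (.e (nat_lit 65630) (nat_lit 14) (.e (nat_lit 401459) (nat_lit 13) (.e (nat_lit 483387) (nat_lit 23) (.e (nat_lit 335997) (nat_lit 1) (.e (nat_lit 57871) (nat_lit 264) .nil)))))) (.g (nat_lit 4) .nil .nil))) 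
(.lf (nat_lit 25979) (.g (nat_lit 3172) (.e (nat_lit 1190) (nat_lit 88) (.e (nat_lit 65630) (nat_lit 14) (.e (nat_lit 401459) (nat_lit 13) (.e (nat_lit 483411) (nat_lit 27) (.e (nat_lit 401421) (nat_lit 1) (.e (nat_lit 164422) (nat_lit 272) .nil)))))) (.g (nat_lit 4) .nil .nil))))))) (.nd (nat_lit 3) (.nd (nat_lit 4) (.nd (nat_lit 5) (.nd (nat_lit 6) 
(.lf (nat_lit 25863) (.g (nat_lit 3816) (.e (nat_lit 1190) (nat_lit 88) (.e (nat_lit 65630) (nat_lit 14) (.e (nat_lit 401459) (nat_lit 13) (.e (nat_lit 483344) (nat_lit 17) (.e (nat_lit 6479) (nat_lit 343) (.e (nat_lit 1181) (nat_lit 87) (.e (nat_lit 57870) (nat_lit 264) .nil))))))) (.g (nat_lit 4) .nil .nil))) 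
(.lf (nat_lit 25927) (.g (nat_lit 3346) (.e (nat_lit 1190) (nat_lit 88) (.e (nat_lit 65630) (nat_lit 14) (.e (nat_lit 401459) (nat_lit 13) (.e (nat_lit 483393) (nat_lit 23) (.e (nat_lit 335987) (nat_lit 1) (.e (nat_lit 57870) (nat_lit 264) .nil)))))) (.g (nat_lit 4) .nil .nil)))) (.nd (nat_lit 6) 
(.lf (nat_lit 25895) (.g (nat_lit 2605) (.e (nat_lit 1190) (nat_lit 88) (.e (nat_lit 65630) (nat_lit 14) (.e (nat_lit 401459) (nat_lit 13) (.e (nat_lit 483374) (nat_lit 22) .nil)))) .nil)) 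
(.lf (nat_lit 25959) (.g (nat_lit 3094) (.e (nat_lit 1190) (nat_lit 88) (.e (nat_lit 65630) (nat_lit 14) (.e (nat_lit 401459) (nat_lit 13) (.e (nat_lit 483410) (nat_lit 27) (.e (nat_lit 401414) (nat_lit 0) (.e (nat_lit 2424) (nat_lit 157) (.e (nat_lit 4616) (nat_lit 269) .nil))))))) (.g (nat_lit 4) .nil .nil))))) (.nd (nat_lit 5) (.nd (nat_lit 6) 
(.lf (nat_lit 25879) (.g (nat_lit 3299) (.e (nat_lit 1190) (nat_lit 88) (.e (nat_lit 65630) (nat_lit 14) (.e (nat_lit 401459) (nat_lit 13) (.e (nat_lit 483350) (nat_lit 17) (.e (nat_lit 7936) (nat_lit 346) .nil))))) .nil)) 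
(.lf (nat_lit 25943) (.g (nat_lit 3186) (.e (nat_lit 1190) (nat_lit 88) (.e (nat_lit 65630) (nat_lit 14) (.e (nat_lit 401459) (nat_lit 13) (.e (nat_lit 483395) (nat_lit 24) (.e (nat_lit 344097) (nat_lit 18) (.e (nat_lit 5906) (nat_lit 320) .nil)))))) (.g (nat_lit 5) .nil .nil)))) (.nd (nat_lit 6) 
(.lf (nat_lit 25911) (.g (nat_lit 3763) (.e (nat_lit 1190) (nat_lit 88) (.e (nat_lit 65630) (nat_lit 14) (.e (nat_lit 401459) (nat_lit 13) (.e (nat_lit 483383) (nat_lit 23) (.e (nat_lit 336000) (nat_lit 1) (.e (nat_lit 57873) (nat_lit 264) .nil)))))) (.g (nat_lit 4) .nil .nil))) 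
(.lf (nat_lit 25975) (.g (nat_lit 3332) (.e (nat_lit 1190) (nat_lit 88) (.e (nat_lit 65630) (nat_lit 14) (.e (nat_lit 401459) (nat_lit 13) (.e (nat_lit 483411) (nat_lit 27) (.e (nat_lit 401418) (nat_lit 0) .nil))))) .nil))))) (.nd (nat_lit 4) (.nd (nat_lit 5) (.nd (nat_lit 6) 
(.lf (nat_lit 25871) (.g (nat_lit 4685) (.e (nat_lit 1190) (nat_lit 88) (.e (nat_lit 65630) (nat_lit 14) (.e (nat_lit 401459) (nat_lit 13) (.e (nat_lit 483344) (nat_lit 17) (.e (nat_lit 6712) (nat_lit 360) (.e (nat_lit 163850) (nat_lit 0) (.e (nat_lit 4605) (nat_lit 269) .nil))))))) (.g (nat_lit 6) .nil .nil))) 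
(.lf (nat_lit 25935) (.g (nat_lit 3810) (.e (nat_lit 1190) (nat_lit 88) (.e (nat_lit 65630) (nat_lit 14) (.e (nat_lit 401459) (nat_lit 13) (.e (nat_lit 483394) (nat_lit 24) (.e (nat_lit 344097) (nat_lit 18) (.e (nat_lit 5905) (nat_lit 320) .nil)))))) (.g (nat_lit 5) .nil .nil)))) (.nd (nat_lit 6) 
(.lf (nat_lit 25903) (.g (nat_lit 3676) (.e (nat_lit 1190) (nat_lit 88) (.e (nat_lit 65630) (nat_lit 14) (.e (nat_lit 401459) (nat_lit 13) (.e (nat_lit 483380) (nat_lit 23) (.e (nat_lit 335969) (nat_lit 0) .nil))))) .nil)) 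
(.lf (nat_lit 25967) (.g (nat_lit 2006) (.e (nat_lit 1190) (nat_lit 88) (.e (nat_lit 65630) (nat_lit 14) (.e (nat_lit 401459) (nat_lit 13) (.e (nat_lit 483411) (nat_lit 27) .nil)))) .nil)))) (.nd (nat_lit 5) (.nd (nat_lit 6) 
(.lf (nat_lit 25887) (.g (nat_lit 6106) (.e (nat_lit 1190) (nat_lit 88) (.e (nat_lit 65630) (nat_lit 14) (.e (nat_lit 401459) (nat_lit 13) (.e (nat_lit 483372) (nat_lit 21) (.e (nat_lit 319494) (nat_lit 0) .nil))))) .nil)) 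
(.lf (nat_lit 25951) (.g (nat_lit 2033) (.e (nat_lit 1190) (nat_lit 88) (.e (nat_lit 65630) (nat_lit 14) (.e (nat_lit 401459) (nat_lit 13) (.e (nat_lit 483398) (nat_lit 25) .nil)))) .nil))) (.nd (nat_lit 6) 
(.lf (nat_lit 25919) (.g (nat_lit 2587) (.e (nat_lit 1190) (nat_lit 88) (.e (nat_lit 65630) (nat_lit 14) (.e (nat_lit 401459) (nat_lit 13) (.e (nat_lit 483391) (nat_lit 23) .nil)))) .nil)) 
(.lf (nat_lit 25983) (.g (nat_lit 2958) (.e (nat_lit 1190) (nat_lit 88) (.e (nat_lit 65637) (nat_lit 15) (.e (nat_lit 3632) (nat_lit 227) (.e (nat_lit 778320) (nat_lit 4) (.e (nat_lit 65630) (nat_lit 14) .nil))))) .nil)))))))))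

noncomputable def tv366 : DT := (.nd (nat_lit 0) (.nd (nat_lit 1) (.nd (nat_lit 2) (.nd (nat_lit 3) (.nd (nat_lit 4) (.nd (nat_lit 5) (.nd (nat_lit 6) 
(.lf (nat_lit 25984) (.g (nat_lit 1760) (.e (nat_lit 1190) (nat_lit 88) (.e (nat_lit 65637) (nat_lit 15) (.e (nat_lit 3632) (nat_lit 227) (.e (nat_lit 778323) (nat_lit 5) .nil)))) .nil)) 
(.lf (nat_lit 26048) (.g (nat_lit 2915) (.e (nat_lit 1191) (nat_lit 88) (.e (nat_lit 65629) (nat_lit 14) (.e (nat_lit 401459) (nat_lit 13) (.e (nat_lit 483350) (nat_lit 17) .nil)))) .nil))) (.nd (nat_lit 6) 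
(.lf (nat_lit 26016) (.g (nat_lit 1811) (.e (nat_lit 1191) (nat_lit 88) (.e (nat_lit 65586) (nat_lit 7) (.e (nat_lit 319531) (nat_lit 16) (.e (nat_lit 286759) (nat_lit 12) (.e (nat_lit 385094) (nat_lit 49) .nil))))) .nil)) 
(.lf (nat_lit 26080) (.g (nat_lit 2779) (.e (nat_lit 1191) (nat_lit 88) (.e (nat_lit 65630) (nat_lit 14) (.e (nat_lit 401437) (nat_lit 9) (.e (nat_lit 426542) (nat_lit 29) (.e (nat_lit 352317) (nat_lit 24) .nil))))) .nil)))) (.nd (nat_lit 5) (.nd (nat_lit 6) 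
(.lf (nat_lit 26000) (.g (nat_lit 2034) (.e (nat_lit 1191) (nat_lit 88) (.e (nat_lit 65571) (nat_lit 3) (.e (nat_lit 98359) (nat_lit 26) (.e (nat_lit 426286) (nat_lit 10) (.e (nat_lit 434248) (nat_lit 28) .nil))))) .nil)) 
(.lf (nat_lit 26064) (.g (nat_lit 1608) (.e (nat_lit 1191) (nat_lit 88) (.e (nat_lit 65630) (nat_lit 14) (.e (nat_lit 401436) (nat_lit 9) (.e (nat_lit 426542) (nat_lit 29) (.e (nat_lit 352316) (nat_lit 24) .nil))))) .nil))) (.nd (nat_lit 6) 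
(.lf (nat_lit 26032) (.g (nat_lit 1711) (.e (nat_lit 1191) (nat_lit 88) (.e (nat_lit 65624) (nat_lit 12) (.e (nat_lit 385094) (nat_lit 49) (.e (nat_lit 778327) (nat_lit 6) .nil)))) .nil)) 
(.lf (nat_lit 26096) (.g (nat_lit 1820) (.e (nat_lit 1191) (nat_lit 88) (.e (nat_lit 65630) (nat_lit 14) (.e (nat_lit 401438) (nat_lit 9) (.e (nat_lit 426544) (nat_lit 30) (.e (nat_lit 360456) (nat_lit 0) .nil))))) .nil))))) (.nd (nat_lit 4) (.nd (nat_lit 5) (.nd (nat_lit 6) 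
(.lf (nat_lit 25992) (.g (nat_lit 2320) (.e (nat_lit 1191) (nat_lit 88) (.e (nat_lit 65566) (nat_lit 2) (.e (nat_lit 90170) (nat_lit 13) (.e (nat_lit 172113) (nat_lit 10) (.e (nat_lit 434248) (nat_lit 28) (.e (nat_lit 573475) (nat_lit 12) (.e (nat_lit 57351) (nat_lit 0) (.e (nat_lit 7122) (nat_lit 382) .nil)))))))) (.g (nat_lit 4) .nil .nil))) 
(.lf (nat_lit 26056) (.g (nat_lit 1180) (.e (nat_lit 1191) (nat_lit 88) (.e (nat_lit 65630) (nat_lit 14) (.e (nat_lit 401428) (nat_lit 3) (.e (nat_lit 204868) (nat_lit 29) .nil)))) .nil))) (.nd (nat_lit 6) 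
(.lf (nat_lit 26024) (.g (nat_lit 685) (.e (nat_lit 1191) (nat_lit 88) (.e (nat_lit 65624) (nat_lit 12) (.e (nat_lit 385092) (nat_lit 49) .nil))) .nil)) 
(.lf (nat_lit 26088) (.g (nat_lit 1859) (.e (nat_lit 1191) (nat_lit 88) (.e (nat_lit 65630) (nat_lit 14) (.e (nat_lit 401438) (nat_lit 9) (.e (nat_lit 426538) (nat_lit 29) (.e (nat_lit 352318) (nat_lit 24) (.e (nat_lit 123184) (nat_lit 264) .nil)))))) (.g (nat_lit 4) .nil .nil))))) (.nd (nat_lit 5) (.nd (nat_lit 6) 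
(.lf (nat_lit 26008) (.g (nat_lit 3423) (.e (nat_lit 1191) (nat_lit 88) (.e (nat_lit 65571) (nat_lit 3) (.e (nat_lit 98372) (nat_lit 29) (.e (nat_lit 450588) (nat_lit 10) (.e (nat_lit 573473) (nat_lit 12) .nil))))) .nil)) 
(.lf (nat_lit 26072) (.g (nat_lit 1388) (.e (nat_lit 1191) (nat_lit 88) (.e (nat_lit 65630) (nat_lit 14) (.e (nat_lit 401436) (nat_lit 9) (.e (nat_lit 426546) (nat_lit 30) (.e (nat_lit 360456) (nat_lit 0) .nil))))) .nil))) (.nd (nat_lit 6) 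
(.lf (nat_lit 26040) (.g (nat_lit 879) (.e (nat_lit 1191) (nat_lit 88) (.e (nat_lit 65627) (nat_lit 13) (.e (nat_lit 393234) (nat_lit 17) (.e (nat_lit 7593) (nat_lit 407) .nil)))) .nil)) 
(.lf (nat_lit 26104) (.g (nat_lit 1390) (.e (nat_lit 1191) (nat_lit 88) (.e (nat_lit 65630) (nat_lit 14) (.e (nat_lit 401458) (nat_lit 13) (.e (nat_lit 483378) (nat_lit 23) .nil)))) .nil)))))) (.nd (nat_lit 3) (.nd (nat_lit 4) (.nd (nat_lit 5) (.nd (nat_lit 6) 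
(.lf (nat_lit 25988) (.g (nat_lit 1876) (.e (nat_lit 1190) (nat_lit 88) (.e (nat_lit 65655) (nat_lit 35) (.e (nat_lit 491549) (nat_lit 9) (.e (nat_lit 336019) (nat_lit 3) (.e (nat_lit 98313) (nat_lit 9) .nil))))) .nil)) 
(.lf (nat_lit 26052) (.g (nat_lit 1498) (.e (nat_lit 1191) (nat_lit 88) (.e (nat_lit 65630) (nat_lit 14) (.e (nat_lit 401428) (nat_lit 3) (.e (nat_lit 204861) (nat_lit 26) .nil)))) .nil))) (.nd (nat_lit 6) 
(.lf (nat_lit 26020) (.g (nat_lit 2190) (.e (nat_lit 1191) (nat_lit 88) (.e (nat_lit 65586) (nat_lit 7) (.e (nat_lit 319534) (nat_lit 16) (.e (nat_lit 286756) (nat_lit 10) .nil)))) .nil)) 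
(.lf (nat_lit 26084) (.g (nat_lit 1545) (.e (nat_lit 1191) (nat_lit 88) (.e (nat_lit 65630) (nat_lit 14) (.e (nat_lit 401437) (nat_lit 9) (.e (nat_lit 426546) (nat_lit 30) .nil)))) .nil)))) (.nd (nat_lit 5) (.nd (nat_lit 6) 
(.lf (nat_lit 26004) (.g (nat_lit 2244) (.e (nat_lit 1191) (nat_lit 88) (.e (nat_lit 65571) (nat_lit 3) (.e (nat_lit 98372) (nat_lit 29) (.e (nat_lit 450586) (nat_lit 10) (.e (nat_lit 573473) (nat_lit 12) (.e (nat_lit 57348) (nat_lit 0) (.e (nat_lit 7125) (nat_lit 382) .nil))))))) (.g (nat_lit 4) .nil .nil))) 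
(.lf (nat_lit 26068) (.g (nat_lit 2160) (.e (nat_lit 1191) (nat_lit 88) (.e (nat_lit 65630) (nat_lit 14) (.e (nat_lit 401436) (nat_lit 9) (.e (nat_lit 426542) (nat_lit 29) (.e (nat_lit 352318) (nat_lit 24) (.e (nat_lit 123184) (nat_lit 264) .nil)))))) (.g (nat_lit 5) .nil .nil)))) (.nd (nat_lit 6) 
(.lf (nat_lit 26036) (.g (nat_lit 1656) (.e (nat_lit 1191) (nat_lit 88) (.e (nat_lit 65624) (nat_lit 12) (.e (nat_lit 385105) (nat_lit 50) (.e (nat_lit 786480) (nat_lit 29) .nil)))) .nil)) 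
(.lf (nat_lit 26100) (.g (nat_lit 442) (.e (nat_lit 1191) (nat_lit 88) (.e (nat_lit 65630) (nat_lit 14) (.e (nat_lit 401457) (nat_lit 13) .nil))) .nil))))) (.nd (nat_lit 4) (.nd (nat_lit 5) (.nd (nat_lit 6) 
(.lf (nat_lit 25996) (.g (nat_lit 2989) (.e (nat_lit 1191) (nat_lit 88) (.e (nat_lit 65570) (nat_lit 3) (.e (nat_lit 98373) (nat_lit 29) (.e (nat_lit 450588) (nat_lit 10) (.e (nat_lit 573473) (nat_lit 12) (.e (nat_lit 57348) (nat_lit 0) (.e (nat_lit 7125) (nat_lit 382) .nil))))))) (.g (nat_lit 4) .nil .nil))) 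
(.lf (nat_lit 26060) (.g (nat_lit 1581) (.e (nat_lit 1191) (nat_lit 88) (.e (nat_lit 65630) (nat_lit 14) (.e (nat_lit 401435) (nat_lit 9) (.e (nat_lit 426538) (nat_lit 29) .nil)))) .nil))) (.nd (nat_lit 6) 
(.lf (nat_lit 26028) (.g (nat_lit 1962) (.e (nat_lit 1191) (nat_lit 88) (.e (nat_lit 65624) (nat_lit 12) (.e (nat_lit 385093) (nat_lit 49) (.e (nat_lit 778327) (nat_lit 6) (.e (nat_lit 81957) (nat_lit 24) .nil))))) .nil)) 
(.lf (nat_lit 26092) (.g (nat_lit 2098) (.e (nat_lit 1191) (nat_lit 88) (.e (nat_lit 65630) (nat_lit 14) (.e (nat_lit 401438) (nat_lit 9) (.e (nat_lit 426542) (nat_lit 29) (.e (nat_lit 352317) (nat_lit 24) (.e (nat_lit 123182) (nat_lit 264) .nil)))))) (.g (nat_lit 4) .nil .nil))))) (.nd (nat_lit 5) (.nd (nat_lit 6) 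
(.lf (nat_lit 26012) (.g (nat_lit 2665) (.e (nat_lit 1191) (nat_lit 88) (.e (nat_lit 65571) (nat_lit 3) (.e (nat_lit 98373) (nat_lit 29) (.e (nat_lit 450588) (nat_lit 10) (.e (nat_lit 573473) (nat_lit 12) .nil))))) .nil)) 
(.lf (nat_lit 26076) (.g (nat_lit 1897) (.e (nat_lit 1191) (nat_lit 88) (.e (nat_lit 65630) (nat_lit 14) (.e (nat_lit 401437) (nat_lit 9) (.e (nat_lit 426538) (nat_lit 29) .nil)))) .nil))) (.nd (nat_lit 6) 
(.lf (nat_lit 26044) (.g (nat_lit 2056) (.e (nat_lit 1191) (nat_lit 88) (.e (nat_lit 65627) (nat_lit 13) (.e (nat_lit 393301) (nat_lit 27) (.e (nat_lit 491560) (nat_lit 10) (.e (nat_lit 344090) (nat_lit 18) .nil))))) .nil)) 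
(.lf (nat_lit 26108) (.g (nat_lit 1323) (.e (nat_lit 1191) (nat_lit 88) (.e (nat_lit 65630) (nat_lit 14) (.e (nat_lit 401458) (nat_lit 13) (.e (nat_lit 483396) (nat_lit 24) .nil)))) .nil))))))) (.nd (nat_lit 2) (.nd (nat_lit 3) (.nd (nat_lit 4) (.nd (nat_lit 5) (.nd (nat_lit 6) 
(.lf (nat_lit 25986) (.g (nat_lit 2128) (.e (nat_lit 1190) (nat_lit 88) (.e (nat_lit 65655) (nat_lit 35) (.e (nat_lit 491546) (nat_lit 9) (.e (nat_lit 336028) (nat_lit 3) (.e (nat_lit 98313) (nat_lit 9) .nil))))) .nil)) 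
(.lf (nat_lit 26050) (.g (nat_lit 564) (.e (nat_lit 1191) (nat_lit 88) (.e (nat_lit 65630) (nat_lit 14) (.e (nat_lit 401425) (nat_lit 2) .nil))) .nil))) (.nd (nat_lit 6) 
(.lf (nat_lit 26018) (.g (nat_lit 3837) (.e (nat_lit 1191) (nat_lit 88) (.e (nat_lit 65586) (nat_lit 7) (.e (nat_lit 319531) (nat_lit 16) (.e (nat_lit 286767) (nat_lit 27) (.e (nat_lit 426098) (nat_lit 1) (.e (nat_lit 164325) (nat_lit 230) (.e (nat_lit 163861) (nat_lit 1) (.e (nat_lit 164381) (nat_lit 254) .nil)))))))) (.g (nat_lit 6) .nil .nil))) 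
(.lf (nat_lit 26082) (.g (nat_lit 1516) (.e (nat_lit 1191) (nat_lit 88) (.e (nat_lit 65630) (nat_lit 14) (.e (nat_lit 401437) (nat_lit 9) (.e (nat_lit 426544) (nat_lit 30) .nil)))) .nil)))) (.nd (nat_lit 5) (.nd (nat_lit 6) 
(.lf (nat_lit 26002) (.g (nat_lit 2233) (.e (nat_lit 1191) (nat_lit 88) (.e (nat_lit 65571) (nat_lit 3) (.e (nat_lit 98372) (nat_lit 29) (.e (nat_lit 450586) (nat_lit 10) (.e (nat_lit 573473) (nat_lit 12) .nil))))) .nil)) 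
(.lf (nat_lit 26066) (.g (nat_lit 1817) (.e (nat_lit 1191) (nat_lit 88) (.e (nat_lit 65630) (nat_lit 14) (.e (nat_lit 401436) (nat_lit 9) (.e (nat_lit 426542) (nat_lit 29) (.e (nat_lit 352317) (nat_lit 24) .nil))))) .nil))) (.nd (nat_lit 6) 
(.lf (nat_lit 26034) (.g (nat_lit 666) (.e (nat_lit 1191) (nat_lit 88) (.e (nat_lit 65624) (nat_lit 12) (.e (nat_lit 385105) (nat_lit 50) .nil))) .nil)) 
(.lf (nat_lit 26098) (.g (nat_lit 2917) (.e (nat_lit 1191) (nat_lit 88) (.e (nat_lit 65630) (nat_lit 14) (.e (nat_lit 401438) (nat_lit 9) (.e (nat_lit 426555) (nat_lit 32) (.e (nat_lit 376870) (nat_lit 24) .nil))))) .nil))))) (.nd (nat_lit 4) (.nd (nat_lit 5) (.nd (nat_lit 6) 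
(.lf (nat_lit 25994) (.g (nat_lit 2909) (.e (nat_lit 1191) (nat_lit 88) (.e (nat_lit 65570) (nat_lit 3) (.e (nat_lit 98373) (nat_lit 29) (.e (nat_lit 450588) (nat_lit 10) (.e (nat_lit 573473) (nat_lit 12) .nil))))) .nil)) 
(.lf (nat_lit 26058) (.g (nat_lit 2484) (.e (nat_lit 1191) (nat_lit 88) (.e (nat_lit 65630) (nat_lit 14) (.e (nat_lit 401428) (nat_lit 3) (.e (nat_lit 204869) (nat_lit 29) (.e (nat_lit 368384) (nat_lit 0) .nil))))) .nil))) (.nd (nat_lit 6) 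
(.lf (nat_lit 26026) (.g (nat_lit 1650) (.e (nat_lit 1191) (nat_lit 88) (.e (nat_lit 65624) (nat_lit 12) (.e (nat_lit 385093) (nat_lit 49) (.e (nat_lit 778326) (nat_lit 6) .nil)))) .nil)) 
(.lf (nat_lit 26090) (.g (nat_lit 1827) (.e (nat_lit 1191) (nat_lit 88) (.e (nat_lit 65630) (nat_lit 14) (.e (nat_lit 401438) (nat_lit 9) (.e (nat_lit 426542) (nat_lit 29) (.e (nat_lit 352316) (nat_lit 24) .nil))))) .nil)))) (.nd (nat_lit 5) (.nd (nat_lit 6) 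
(.lf (nat_lit 26010) (.g (nat_lit 2590) (.e (nat_lit 1191) (nat_lit 88) (.e (nat_lit 65571) (nat_lit 3) (.e (nat_lit 98373) (nat_lit 29) (.e (nat_lit 450587) (nat_lit 10) (.e (nat_lit 573477) (nat_lit 12) .nil))))) .nil)) 
(.lf (nat_lit 26074) (.g (nat_lit 533) (.e (nat_lit 1191) (nat_lit 88) (.e (nat_lit 65630) (nat_lit 14) (.e (nat_lit 401437) (nat_lit 9) .nil))) .nil))) (.nd (nat_lit 6) 
(.lf (nat_lit 26042) (.g (nat_lit 1997) (.e (nat_lit 1191) (nat_lit 88) (.e (nat_lit 65627) (nat_lit 13) (.e (nat_lit 393301) (nat_lit 27) (.e (nat_lit 491558) (nat_lit 10) (.e (nat_lit 344095) (nat_lit 18) .nil))))) .nil)) 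
(.lf (nat_lit 26106) (.g (nat_lit 1389) (.e (nat_lit 1191) (nat_lit 88) (.e (nat_lit 65630) (nat_lit 14) (.e (nat_lit 401458) (nat_lit 13) (.e (nat_lit 483389) (nat_lit 23) .nil)))) .nil)))))) (.nd (nat_lit 3) (.nd (nat_lit 4) (.nd (nat_lit 5) (.nd (nat_lit 6) 
(.lf (nat_lit 25990) (.g (nat_lit 4133) (.e (nat_lit 1190) (nat_lit 88) (.e (nat_lit 65655) (nat_lit 35) (.e (nat_lit 491559) (nat_lit 10) (.e (nat_lit 344117) (nat_lit 21) (.e (nat_lit 516195) (nat_lit 26) (.e (nat_lit 335995) (nat_lit 1) (.e (nat_lit 57872) (nat_lit 264) .nil))))))) (.g (nat_lit 0) .nil .nil))) 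
(.lf (nat_lit 26054) (.g (nat_lit 2103) (.e (nat_lit 1191) (nat_lit 88) (.e (nat_lit 65630) (nat_lit 14) (.e (nat_lit 401428) (nat_lit 3) (.e (nat_lit 204866) (nat_lit 28) (.e (nat_lit 352268) (nat_lit 6) .nil))))) .nil))) (.nd (nat_lit 6) 
(.lf (nat_lit 26022) (.g (nat_lit 2825) (.e (nat_lit 1191) (nat_lit 88) (.e (nat_lit 65586) (nat_lit 7) (.e (nat_lit 319534) (nat_lit 16) (.e (nat_lit 286756) (nat_lit 10) (.e (nat_lit 344169) (nat_lit 40) .nil))))) .nil)) 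
(.lf (nat_lit 26086) (.g (nat_lit 2596) (.e (nat_lit 1191) (nat_lit 88) (.e (nat_lit 65630) (nat_lit 14) (.e (nat_lit 401437) (nat_lit 9) (.e (nat_lit 426555) (nat_lit 32) (.e (nat_lit 376870) (nat_lit 24) .nil))))) .nil)))) (.nd (nat_lit 5) (.nd (nat_lit 6) 
(.lf (nat_lit 26006) (.g (nat_lit 2394) (.e (nat_lit 1191) (nat_lit 88) (.e (nat_lit 65571) (nat_lit 3) (.e (nat_lit 98372) (nat_lit 29) (.e (nat_lit 450586) (nat_lit 10) (.e (nat_lit 573477) (nat_lit 12) .nil))))) .nil)) 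
(.lf (nat_lit 26070) (.g (nat_lit 1239) (.e (nat_lit 1191) (nat_lit 88) (.e (nat_lit 65630) (nat_lit 14) (.e (nat_lit 401436) (nat_lit 9) (.e (nat_lit 426543) (nat_lit 29) .nil)))) .nil))) (.nd (nat_lit 6) 
(.lf (nat_lit 26038) (.g (nat_lit 1544) (.e (nat_lit 1191) (nat_lit 88) (.e (nat_lit 65624) (nat_lit 12) (.e (nat_lit 385106) (nat_lit 50) (.e (nat_lit 786481) (nat_lit 30) .nil)))) .nil)) 
(.lf (nat_lit 26102) (.g (nat_lit 1664) (.e (nat_lit 1191) (nat_lit 88) (.e (nat_lit 65630) (nat_lit 14) (.e (nat_lit 401457) (nat_lit 13) (.e (nat_lit 483389) (nat_lit 23) .nil)))) .nil))))) (.nd (nat_lit 4) (.nd (nat_lit 5) (.nd (nat_lit 6) 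
(.lf (nat_lit 25998) (.g (nat_lit 3005) (.e (nat_lit 1191) (nat_lit 88) (.e (nat_lit 65570) (nat_lit 3) (.e (nat_lit 98373) (nat_lit 29) (.e (nat_lit 450588) (nat_lit 10) (.e (nat_lit 573475) (nat_lit 12) (.e (nat_lit 57347) (nat_lit 0) (.e (nat_lit 7124) (nat_lit 382) .nil))))))) (.g (nat_lit 4) .nil .nil))) 
(.lf (nat_lit 26062) (.g (nat_lit 581) (.e (nat_lit 1191) (nat_lit 88) (.e (nat_lit 65630) (nat_lit 14) (.e (nat_lit 401436) (nat_lit 9) .nil))) .nil))) (.nd (nat_lit 6) 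
(.lf (nat_lit 26030) (.g (nat_lit 1982) (.e (nat_lit 1191) (nat_lit 88) (.e (nat_lit 65624) (nat_lit 12) (.e (nat_lit 385094) (nat_lit 49) (.e (nat_lit 778326) (nat_lit 6) (.e (nat_lit 81959) (nat_lit 24) .nil))))) .nil)) 
(.lf (nat_lit 26094) (.g (nat_lit 2701) (.e (nat_lit 1191) (nat_lit 88) (.e (nat_lit 65630) (nat_lit 14) (.e (nat_lit 401438) (nat_lit 9) (.e (nat_lit 426542) (nat_lit 29) (.e (nat_lit 352318) (nat_lit 24) (.e (nat_lit 123185) (nat_lit 264) .nil)))))) (.g (nat_lit 6) .nil .nil))))) (.nd (nat_lit 5) (.nd (nat_lit 6) 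
(.lf (nat_lit 26014) (.g (nat_lit 2680) (.e (nat_lit 1191) (nat_lit 88) (.e (nat_lit 65571) (nat_lit 3) (.e (nat_lit 98373) (nat_lit 29) (.e (nat_lit 450588) (nat_lit 10) (.e (nat_lit 573475) (nat_lit 12) .nil))))) .nil)) 
(.lf (nat_lit 26078) (.g (nat_lit 1669) (.e (nat_lit 1191) (nat_lit 88) (.e (nat_lit 65630) (nat_lit 14) (.e (nat_lit 401437) (nat_lit 9) (.e (nat_lit 426542) (nat_lit 29) .nil)))) .nil))) (.nd (nat_lit 6) 
(.lf (nat_lit 26046) (.g (nat_lit 2619) (.e (nat_lit 1191) (nat_lit 88) (.e (nat_lit 65627) (nat_lit 13) (.e (nat_lit 393301) (nat_lit 27) (.e (nat_lit 491560) (nat_lit 10) (.e (nat_lit 344096) (nat_lit 18) .nil))))) .nil)) 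
(.lf (nat_lit 26110) (.g (nat_lit 1906) (.e (nat_lit 1191) (nat_lit 88) (.e (nat_lit 65630) (nat_lit 14) (.e (nat_lit 401459) (nat_lit 13) (.e (nat_lit 483343) (nat_lit 17) .nil)))) .nil)))))))) (.nd (nat_lit 1) (.nd (nat_lit 2) (.nd (nat_lit 3) (.nd (nat_lit 4) (.nd (nat_lit 5) (.nd (nat_lit 6) 
(.lf (nat_lit 25985) (.g (nat_lit 2539) (.e (nat_lit 1190) (nat_lit 88) (.e (nat_lit 65648) (nat_lit 26) (.e (nat_lit 417827) (nat_lit 17) (.e (nat_lit 294931) (nat_lit 3) (.e (nat_lit 98313) (nat_lit 9) (.e (nat_lit 335995) (nat_lit 1) (.e (nat_lit 57872) (nat_lit 264) .nil))))))) (.g (nat_lit 0) .nil .nil))) 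
(.lf (nat_lit 26049) (.g (nat_lit 2383) (.e (nat_lit 1191) (nat_lit 88) (.e (nat_lit 65629) (nat_lit 14) (.e (nat_lit 401459) (nat_lit 13) (.e (nat_lit 483375) (nat_lit 22) .nil)))) .nil))) (.nd (nat_lit 6) 
(.lf (nat_lit 26017) (.g (nat_lit 2052) (.e (nat_lit 1191) (nat_lit 88) (.e (nat_lit 65586) (nat_lit 7) (.e (nat_lit 319531) (nat_lit 16) (.e (nat_lit 286767) (nat_lit 27) .nil)))) .nil)) 
(.lf (nat_lit 26081) (.g (nat_lit 2809) (.e (nat_lit 1191) (nat_lit 88) (.e (nat_lit 65630) (nat_lit 14) (.e (nat_lit 401437) (nat_lit 9) (.e (nat_lit 426542) (nat_lit 29) (.e (nat_lit 352317) (nat_lit 24) (.e (nat_lit 123184) (nat_lit 264) .nil)))))) (.g (nat_lit 4) .nil .nil))))) (.nd (nat_lit 5) (.nd (nat_lit 6) 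
(.lf (nat_lit 26001) (.g (nat_lit 1799) (.e (nat_lit 1191) (nat_lit 88) (.e (nat_lit 65571) (nat_lit 3) (.e (nat_lit 98372) (nat_lit 29) (.e (nat_lit 450579) (nat_lit 5) .nil)))) .nil)) 
(.lf (nat_lit 26065) (.g (nat_lit 1764) (.e (nat_lit 1191) (nat_lit 88) (.e (nat_lit 65630) (nat_lit 14) (.e (nat_lit 401436) (nat_lit 9) (.e (nat_lit 426542) (nat_lit 29) (.e (nat_lit 352316) (nat_lit 24) (.e (nat_lit 123184) (nat_lit 264) .nil)))))) (.g (nat_lit 4) .nil .nil)))) (.nd (nat_lit 6) 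
(.lf (nat_lit 26033) (.g (nat_lit 1989) (.e (nat_lit 1191) (nat_lit 88) (.e (nat_lit 65624) (nat_lit 12) (.e (nat_lit 385094) (nat_lit 49) (.e (nat_lit 778327) (nat_lit 6) (.e (nat_lit 81959) (nat_lit 24) .nil))))) .nil)) 
(.lf (nat_lit 26097) (.g (nat_lit 1390) (.e (nat_lit 1191) (nat_lit 88) (.e (nat_lit 65630) (nat_lit 14) (.e (nat_lit 401438) (nat_lit 9) (.e (nat_lit 426546) (nat_lit 30) .nil)))) .nil))))) (.nd (nat_lit 4) (.nd (nat_lit 5) (.nd (nat_lit 6) 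
(.lf (nat_lit 25993) (.g (nat_lit 2733) (.e (nat_lit 1191) (nat_lit 88) (.e (nat_lit 65569) (nat_lit 3) (.e (nat_lit 98373) (nat_lit 29) (.e (nat_lit 450588) (nat_lit 10) (.e (nat_lit 573475) (nat_lit 12) .nil))))) .nil)) 
(.lf (nat_lit 26057) (.g (nat_lit 2253) (.e (nat_lit 1191) (nat_lit 88) (.e (nat_lit 65630) (nat_lit 14) (.e (nat_lit 401428) (nat_lit 3) (.e (nat_lit 204869) (nat_lit 29) (.e (nat_lit 360456) (nat_lit 0) .nil))))) .nil))) (.nd (nat_lit 6) 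
(.lf (nat_lit 26025) (.g (nat_lit 1397) (.e (nat_lit 1191) (nat_lit 88) (.e (nat_lit 65624) (nat_lit 12) (.e (nat_lit 385092) (nat_lit 49) (.e (nat_lit 778326) (nat_lit 6) (.e (nat_lit 81957) (nat_lit 24) .nil))))) .nil)) 
(.lf (nat_lit 26089) (.g (nat_lit 1301) (.e (nat_lit 1191) (nat_lit 88) (.e (nat_lit 65630) (nat_lit 14) (.e (nat_lit 401438) (nat_lit 9) (.e (nat_lit 426542) (nat_lit 29) .nil)))) .nil)))) (.nd (nat_lit 5) (.nd (nat_lit 6) 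
(.lf (nat_lit 26009) (.g (nat_lit 3383) (.e (nat_lit 1191) (nat_lit 88) (.e (nat_lit 65571) (nat_lit 3) (.e (nat_lit 98372) (nat_lit 29) (.e (nat_lit 450588) (nat_lit 10) (.e (nat_lit 573475) (nat_lit 12) .nil))))) .nil)) 
(.lf (nat_lit 26073) (.g (nat_lit 2616) (.e (nat_lit 1191) (nat_lit 88) (.e (nat_lit 65630) (nat_lit 14) (.e (nat_lit 401436) (nat_lit 9) (.e (nat_lit 426555) (nat_lit 32) (.e (nat_lit 376870) (nat_lit 24) .nil))))) .nil))) (.nd (nat_lit 6) 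
(.lf (nat_lit 26041) (.g (nat_lit 1918) (.e (nat_lit 1191) (nat_lit 88) (.e (nat_lit 65627) (nat_lit 13) (.e (nat_lit 393301) (nat_lit 27) (.e (nat_lit 491558) (nat_lit 10) (.e (nat_lit 344091) (nat_lit 18) .nil))))) .nil)) 
(.lf (nat_lit 26105) (.g (nat_lit 1428) (.e (nat_lit 1191) (nat_lit 88) (.e (nat_lit 65630) (nat_lit 14) (.e (nat_lit 401458) (nat_lit 13) (.e (nat_lit 483387) (nat_lit 23) .nil)))) .nil)))))) (.nd (nat_lit 3) (.nd (nat_lit 4) (.nd (nat_lit 5) (.nd (nat_lit 6) 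
(.lf (nat_lit 25989) (.g (nat_lit 4073) (.e (nat_lit 1190) (nat_lit 88) (.e (nat_lit 65655) (nat_lit 35) (.e (nat_lit 491558) (nat_lit 10) (.e (nat_lit 344117) (nat_lit 21) (.e (nat_lit 516195) (nat_lit 26) (.e (nat_lit 335995) (nat_lit 1) (.e (nat_lit 57872) (nat_lit 264) .nil))))))) (.g (nat_lit 0) .nil .nil))) 
(.lf (nat_lit 26053) (.g (nat_lit 1573) (.e (nat_lit 1191) (nat_lit 88) (.e (nat_lit 65630) (nat_lit 14) (.e (nat_lit 401428) (nat_lit 3) (.e (nat_lit 204865) (nat_lit 28) (.e (nat_lit 352268) (nat_lit 6) (.e (nat_lit 229522) (nat_lit 128) .nil)))))) (.g (nat_lit 4) .nil .nil)))) (.nd (nat_lit 6) 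
(.lf (nat_lit 26021) (.g (nat_lit 2913) (.e (nat_lit 1191) (nat_lit 88) (.e (nat_lit 65586) (nat_lit 7) (.e (nat_lit 319534) (nat_lit 16) (.e (nat_lit 286756) (nat_lit 10) (.e (nat_lit 344168) (nat_lit 40) .nil))))) .nil)) 
(.lf (nat_lit 26085) (.g (nat_lit 2603) (.e (nat_lit 1191) (nat_lit 88) (.e (nat_lit 65630) (nat_lit 14) (.e (nat_lit 401437) (nat_lit 9) (.e (nat_lit 426546) (nat_lit 30) (.e (nat_lit 360455) (nat_lit 0) .nil))))) .nil)))) (.nd (nat_lit 5) (.nd (nat_lit 6) 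
(.lf (nat_lit 26005) (.g (nat_lit 2365) (.e (nat_lit 1191) (nat_lit 88) (.e (nat_lit 65571) (nat_lit 3) (.e (nat_lit 98372) (nat_lit 29) (.e (nat_lit 450586) (nat_lit 10) (.e (nat_lit 573475) (nat_lit 12) .nil))))) .nil)) 
(.lf (nat_lit 26069) (.g (nat_lit 1732) (.e (nat_lit 1191) (nat_lit 88) (.e (nat_lit 65630) (nat_lit 14) (.e (nat_lit 401436) (nat_lit 9) (.e (nat_lit 426542) (nat_lit 29) (.e (nat_lit 352318) (nat_lit 24) (.e (nat_lit 123185) (nat_lit 264) .nil)))))) (.g (nat_lit 4) .nil .nil)))) (.nd (nat_lit 6) 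
(.lf (nat_lit 26037) (.g (nat_lit 1588) (.e (nat_lit 1191) (nat_lit 88) (.e (nat_lit 65624) (nat_lit 12) (.e (nat_lit 385106) (nat_lit 50) (.e (nat_lit 786480) (nat_lit 29) .nil)))) .nil)) 
(.lf (nat_lit 26101) (.g (nat_lit 1649) (.e (nat_lit 1191) (nat_lit 88) (.e (nat_lit 65630) (nat_lit 14) (.e (nat_lit 401457) (nat_lit 13) (.e (nat_lit 483378) (nat_lit 23) .nil)))) .nil))))) (.nd (nat_lit 4) (.nd (nat_lit 5) (.nd (nat_lit 6) 
(.lf (nat_lit 25997) (.g (nat_lit 2920) (.e (nat_lit 1191) (nat_lit 88) (.e (nat_lit 65570) (nat_lit 3) (.e (nat_lit 98373) (nat_lit 29) (.e (nat_lit 450588) (nat_lit 10) (.e (nat_lit 573475) (nat_lit 12) .nil))))) .nil)) 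
(.lf (nat_lit 26061) (.g (nat_lit 1618) (.e (nat_lit 1191) (nat_lit 88) (.e (nat_lit 65630) (nat_lit 14) (.e (nat_lit 401435) (nat_lit 9) (.e (nat_lit 426544) (nat_lit 30) (.e (nat_lit 360457) (nat_lit 0) .nil))))) .nil))) (.nd (nat_lit 6) 
(.lf (nat_lit 26029) (.g (nat_lit 1715) (.e (nat_lit 1191) (nat_lit 88) (.e (nat_lit 65624) (nat_lit 12) (.e (nat_lit 385094) (nat_lit 49) (.e (nat_lit 778326) (nat_lit 6) .nil)))) .nil)) 
(.lf (nat_lit 26093) (.g (nat_lit 3204) (.e (nat_lit 1191) (nat_lit 88) (.e (nat_lit 65630) (nat_lit 14) (.e (nat_lit 401438) (nat_lit 9) (.e (nat_lit 426542) (nat_lit 29) (.e (nat_lit 352318) (nat_lit 24) (.e (nat_lit 123182) (nat_lit 264) .nil)))))) (.g (nat_lit 0) .nil .nil))))) (.nd (nat_lit 5) (.nd (nat_lit 6) 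
(.lf (nat_lit 26013) (.g (nat_lit 2667) (.e (nat_lit 1191) (nat_lit 88) (.e (nat_lit 65571) (nat_lit 3) (.e (nat_lit 98373) (nat_lit 29) (.e (nat_lit 450588) (nat_lit 10) (.e (nat_lit 573473) (nat_lit 12) (.e (nat_lit 57353) (nat_lit 0) (.e (nat_lit 7122) (nat_lit 382) .nil))))))) (.g (nat_lit 4) .nil .nil))) 
(.lf (nat_lit 26077) (.g (nat_lit 2514) (.e (nat_lit 1191) (nat_lit 88) (.e (nat_lit 65630) (nat_lit 14) (.e (nat_lit 401437) (nat_lit 9) (.e (nat_lit 426538) (nat_lit 29) (.e (nat_lit 352318) (nat_lit 24) (.e (nat_lit 123182) (nat_lit 264) .nil)))))) (.g (nat_lit 5) .nil .nil)))) (.nd (nat_lit 6) 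
(.lf (nat_lit 26045) (.g (nat_lit 1914) (.e (nat_lit 1191) (nat_lit 88) (.e (nat_lit 65627) (nat_lit 13) (.e (nat_lit 393301) (nat_lit 27) (.e (nat_lit 491560) (nat_lit 10) (.e (nat_lit 344094) (nat_lit 18) .nil))))) .nil)) 
(.lf (nat_lit 26109) (.g (nat_lit 483) (.e (nat_lit 1191) (nat_lit 88) (.e (nat_lit 65630) (nat_lit 14) (.e (nat_lit 401459) (nat_lit 13) .nil))) .nil))))))) (.nd (nat_lit 2) (.nd (nat_lit 3) (.nd (nat_lit 4) (.nd (nat_lit 5) (.nd (nat_lit 6) 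
(.lf (nat_lit 25987) (.g (nat_lit 2050) (.e (nat_lit 1190) (nat_lit 88) (.e (nat_lit 65655) (nat_lit 35) (.e (nat_lit 491547) (nat_lit 9) (.e (nat_lit 336019) (nat_lit 3) (.e (nat_lit 98313) (nat_lit 9) (.e (nat_lit 335995) (nat_lit 1) (.e (nat_lit 57872) (nat_lit 264) .nil))))))) (.g (nat_lit 4) .nil .nil))) 
(.lf (nat_lit 26051) (.g (nat_lit 656) (.e (nat_lit 1191) (nat_lit 88) (.e (nat_lit 65630) (nat_lit 14) (.e (nat_lit 401428) (nat_lit 3) .nil))) .nil))) (.nd (nat_lit 6) 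
(.lf (nat_lit 26019) (.g (nat_lit 2318) (.e (nat_lit 1191) (nat_lit 88) (.e (nat_lit 65586) (nat_lit 7) (.e (nat_lit 319531) (nat_lit 16) (.e (nat_lit 286767) (nat_lit 27) (.e (nat_lit 426107) (nat_lit 1) .nil))))) .nil)) 
(.lf (nat_lit 26083) (.g (nat_lit 2551) (.e (nat_lit 1191) (nat_lit 88) (.e (nat_lit 65630) (nat_lit 14) (.e (nat_lit 401437) (nat_lit 9) (.e (nat_lit 426544) (nat_lit 30) (.e (nat_lit 360456) (nat_lit 0) .nil))))) .nil)))) (.nd (nat_lit 5) (.nd (nat_lit 6) 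
(.lf (nat_lit 26003) (.g (nat_lit 2278) (.e (nat_lit 1191) (nat_lit 88) (.e (nat_lit 65571) (nat_lit 3) (.e (nat_lit 98372) (nat_lit 29) (.e (nat_lit 450586) (nat_lit 10) (.e (nat_lit 573473) (nat_lit 12) (.e (nat_lit 57348) (nat_lit 0) (.e (nat_lit 7119) (nat_lit 382) .nil))))))) (.g (nat_lit 4) .nil .nil))) 
(.lf (nat_lit 26067) (.g (nat_lit 2241) (.e (nat_lit 1191) (nat_lit 88) (.e (nat_lit 65630) (nat_lit 14) (.e (nat_lit 401436) (nat_lit 9) (.e (nat_lit 426542) (nat_lit 29) (.e (nat_lit 352318) (nat_lit 24) (.e (nat_lit 123182) (nat_lit 264) .nil)))))) (.g (nat_lit 5) .nil .nil)))) (.nd (nat_lit 6) 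
(.lf (nat_lit 26035) (.g (nat_lit 1684) (.e (nat_lit 1191) (nat_lit 88) (.e (nat_lit 65624) (nat_lit 12) (.e (nat_lit 385105) (nat_lit 50) (.e (nat_lit 786478) (nat_lit 29) .nil)))) .nil)) 
(.lf (nat_lit 26099) (.g (nat_lit 1633) (.e (nat_lit 1191) (nat_lit 88) (.e (nat_lit 65630) (nat_lit 14) (.e (nat_lit 401456) (nat_lit 13) (.e (nat_lit 483378) (nat_lit 23) .nil)))) .nil))))) (.nd (nat_lit 4) (.nd (nat_lit 5) (.nd (nat_lit 6) 
(.lf (nat_lit 25995) (.g (nat_lit 3023) (.e (nat_lit 1191) (nat_lit 88) (.e (nat_lit 65570) (nat_lit 3) (.e (nat_lit 98373) (nat_lit 29) (.e (nat_lit 450588) (nat_lit 10) (.e (nat_lit 573473) (nat_lit 12) (.e (nat_lit 57348) (nat_lit 0) (.e (nat_lit 7119) (nat_lit 382) .nil))))))) (.g (nat_lit 4) .nil .nil))) 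
(.lf (nat_lit 26059) (.g (nat_lit 624) (.e (nat_lit 1191) (nat_lit 88) (.e (nat_lit 65630) (nat_lit 14) (.e (nat_lit 401435) (nat_lit 9) .nil))) .nil))) (.nd (nat_lit 6) 
(.lf (nat_lit 26027) (.g (nat_lit 1671) (.e (nat_lit 1191) (nat_lit 88) (.e (nat_lit 65624) (nat_lit 12) (.e (nat_lit 385093) (nat_lit 49) (.e (nat_lit 778327) (nat_lit 6) .nil)))) .nil)) 
(.lf (nat_lit 26091) (.g (nat_lit 2806) (.e (nat_lit 1191) (nat_lit 88) (.e (nat_lit 65630) (nat_lit 14) (.e (nat_lit 401438) (nat_lit 9) (.e (nat_lit 426542) (nat_lit 29) (.e (nat_lit 352316) (nat_lit 24) (.e (nat_lit 123184) (nat_lit 264) .nil)))))) (.g (nat_lit 0) .nil .nil))))) (.nd (nat_lit 5) (.nd (nat_lit 6) 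
(.lf (nat_lit 26011) (.g (nat_lit 2545) (.e (nat_lit 1191) (nat_lit 88) (.e (nat_lit 65571) (nat_lit 3) (.e (nat_lit 98373) (nat_lit 29) (.e (nat_lit 450587) (nat_lit 10) (.e (nat_lit 573478) (nat_lit 12) .nil))))) .nil)) 
(.lf (nat_lit 26075) (.g (nat_lit 1248) (.e (nat_lit 1191) (nat_lit 88) (.e (nat_lit 65630) (nat_lit 14) (.e (nat_lit 401437) (nat_lit 9) (.e (nat_lit 426509) (nat_lit 27) .nil)))) .nil))) (.nd (nat_lit 6) 
(.lf (nat_lit 26043) (.g (nat_lit 2090) (.e (nat_lit 1191) (nat_lit 88) (.e (nat_lit 65627) (nat_lit 13) (.e (nat_lit 393301) (nat_lit 27) (.e (nat_lit 491558) (nat_lit 10) (.e (nat_lit 344096) (nat_lit 18) (.e (nat_lit 7122) (nat_lit 382) .nil)))))) (.g (nat_lit 4) .nil .nil))) 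
(.lf (nat_lit 26107) (.g (nat_lit 1397) (.e (nat_lit 1191) (nat_lit 88) (.e (nat_lit 65630) (nat_lit 14) (.e (nat_lit 401458) (nat_lit 13) (.e (nat_lit 483394) (nat_lit 24) .nil)))) .nil)))))) (.nd (nat_lit 3) (.nd (nat_lit 4) (.nd (nat_lit 5) (.nd (nat_lit 6) 
(.lf (nat_lit 25991) (.g (nat_lit 2801) (.e (nat_lit 1190) (nat_lit 88) (.e (nat_lit 65655) (nat_lit 35) (.e (nat_lit 491560) (nat_lit 10) (.e (nat_lit 344118) (nat_lit 21) (.e (nat_lit 516195) (nat_lit 26) (.e (nat_lit 335995) (nat_lit 1) (.e (nat_lit 57872) (nat_lit 264) .nil))))))) (.g (nat_lit 6) .nil .nil))) 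
(.lf (nat_lit 26055) (.g (nat_lit 3098) (.e (nat_lit 1191) (nat_lit 88) (.e (nat_lit 65630) (nat_lit 14) (.e (nat_lit 401428) (nat_lit 3) (.e (nat_lit 204866) (nat_lit 28) (.e (nat_lit 352318) (nat_lit 24) (.e (nat_lit 130816) (nat_lit 140) .nil)))))) (.g (nat_lit 5) .nil .nil)))) (.nd (nat_lit 6) 
(.lf (nat_lit 26023) (.g (nat_lit 2359) (.e (nat_lit 1191) (nat_lit 88) (.e (nat_lit 65586) (nat_lit 7) (.e (nat_lit 319534) (nat_lit 16) (.e (nat_lit 286767) (nat_lit 27) .nil)))) .nil)) 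
(.lf (nat_lit 26087) (.g (nat_lit 1821) (.e (nat_lit 1191) (nat_lit 88) (.e (nat_lit 65630) (nat_lit 14) (.e (nat_lit 401438) (nat_lit 9) (.e (nat_lit 426538) (nat_lit 29) (.e (nat_lit 352318) (nat_lit 24) .nil))))) .nil)))) (.nd (nat_lit 5) (.nd (nat_lit 6) 
(.lf (nat_lit 26007) (.g (nat_lit 2342) (.e (nat_lit 1191) (nat_lit 88) (.e (nat_lit 65571) (nat_lit 3) (.e (nat_lit 98372) (nat_lit 29) (.e (nat_lit 450586) (nat_lit 10) (.e (nat_lit 573478) (nat_lit 12) .nil))))) .nil)) 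
(.lf (nat_lit 26071) (.g (nat_lit 1138) (.e (nat_lit 1191) (nat_lit 88) (.e (nat_lit 65630) (nat_lit 14) (.e (nat_lit 401436) (nat_lit 9) (.e (nat_lit 426544) (nat_lit 30) .nil)))) .nil))) (.nd (nat_lit 6) 
(.lf (nat_lit 26039) (.g (nat_lit 1762) (.e (nat_lit 1191) (nat_lit 88) (.e (nat_lit 65624) (nat_lit 12) (.e (nat_lit 385106) (nat_lit 50) (.e (nat_lit 786483) (nat_lit 30) .nil)))) .nil)) 
(.lf (nat_lit 26103) (.g (nat_lit 577) (.e (nat_lit 1191) (nat_lit 88) (.e (nat_lit 65630) (nat_lit 14) (.e (nat_lit 401458) (nat_lit 13) .nil))) .nil))))) (.nd (nat_lit 4) (.nd (nat_lit 5) (.nd (nat_lit 6) 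
(.lf (nat_lit 25999) (.g (nat_lit 2010) (.e (nat_lit 1191) (nat_lit 88) (.e (nat_lit 65571) (nat_lit 3) (.e (nat_lit 98359) (nat_lit 26) (.e (nat_lit 426286) (nat_lit 10) (.e (nat_lit 434245) (nat_lit 28) (.e (nat_lit 573474) (nat_lit 12) (.e (nat_lit 57351) (nat_lit 0) (.e (nat_lit 7122) (nat_lit 382) .nil)))))))) (.g (nat_lit 4) .nil .nil))) 
(.lf (nat_lit 26063) (.g (nat_lit 1295) (.e (nat_lit 1191) (nat_lit 88) (.e (nat_lit 65630) (nat_lit 14) (.e (nat_lit 401436) (nat_lit 9) (.e (nat_lit 426538) (nat_lit 29) .nil)))) .nil))) (.nd (nat_lit 6) 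
(.lf (nat_lit 26031) (.g (nat_lit 1983) (.e (nat_lit 1191) (nat_lit 88) (.e (nat_lit 65624) (nat_lit 12) (.e (nat_lit 385094) (nat_lit 49) (.e (nat_lit 778326) (nat_lit 6) (.e (nat_lit 81959) (nat_lit 24) (.e (nat_lit 123183) (nat_lit 264) .nil)))))) (.g (nat_lit 4) .nil .nil))) 
(.lf (nat_lit 26095) (.g (nat_lit 1394) (.e (nat_lit 1191) (nat_lit 88) (.e (nat_lit 65630) (nat_lit 14) (.e (nat_lit 401438) (nat_lit 9) (.e (nat_lit 426544) (nat_lit 30) .nil)))) .nil)))) (.nd (nat_lit 5) (.nd (nat_lit 6) 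
(.lf (nat_lit 26015) (.g (nat_lit 1221) (.e (nat_lit 1191) (nat_lit 88) (.e (nat_lit 65583) (nat_lit 7) (.e (nat_lit 319530) (nat_lit 16) (.e (nat_lit 286767) (nat_lit 27) .nil)))) .nil)) 
(.lf (nat_lit 26079) (.g (nat_lit 2856) (.e (nat_lit 1191) (nat_lit 88) (.e (nat_lit 65630) (nat_lit 14) (.e (nat_lit 401437) (nat_lit 9) (.e (nat_lit 426542) (nat_lit 29) (.e (nat_lit 352316) (nat_lit 24) (.e (nat_lit 123182) (nat_lit 264) .nil)))))) (.g (nat_lit 5) .nil .nil)))) (.nd (nat_lit 6) 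
(.lf (nat_lit 26047) (.g (nat_lit 490) (.e (nat_lit 1191) (nat_lit 88) (.e (nat_lit 65629) (nat_lit 14) (.e (nat_lit 401459) (nat_lit 13) .nil))) .nil)) 
(.lf (nat_lit 26111) (.g (nat_lit 1764) (.e (nat_lit 1191) (nat_lit 88) (.e (nat_lit 65630) (nat_lit 14) (.e (nat_lit 401459) (nat_lit 13) (.e (nat_lit 483344) (nat_lit 17) .nil)))) .nil)))))))))

noncomputable def tv367 : DT := (.nd (nat_lit 0) (.nd (nat_lit 1) (.nd (nat_lit 2) (.nd (nat_lit 3) (.nd (nat_lit 4) (.nd (nat_lit 5) (.nd (nat_lit 6) 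
(.lf (nat_lit 26112) (.g (nat_lit 2588) (.e (nat_lit 1191) (nat_lit 88) (.e (nat_lit 65630) (nat_lit 14) (.e (nat_lit 401459) (nat_lit 13) (.e (nat_lit 483344) (nat_lit 17) (.e (nat_lit 6079) (nat_lit 332) .nil))))) .nil)) 
(.lf (nat_lit 26176) (.g (nat_lit 3702) (.e (nat_lit 1192) (nat_lit 88) (.e (nat_lit 65570) (nat_lit 3) (.e (nat_lit 98373) (nat_lit 29) (.e (nat_lit 450588) (nat_lit 10) (.e (nat_lit 573475) (nat_lit 12) (.e (nat_lit 57347) (nat_lit 0) (.e (nat_lit 7125) (nat_lit 382) .nil))))))) (.g (nat_lit 5) .nil .nil)))) (.nd (nat_lit 6) 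
(.lf (nat_lit 26144) (.g (nat_lit 2369) (.e (nat_lit 1191) (nat_lit 88) (.e (nat_lit 65630) (nat_lit 14) (.e (nat_lit 401459) (nat_lit 13) (.e (nat_lit 483375) (nat_lit 22) (.e (nat_lit 327692) (nat_lit 1) .nil))))) .nil)) 
(.lf (nat_lit 26208) (.g (nat_lit 1844) (.e (nat_lit 1192) (nat_lit 88) (.e (nat_lit 65624) (nat_lit 12) (.e (nat_lit 385093) (nat_lit 49) (.e (nat_lit 778326) (nat_lit 6) (.e (nat_lit 81957) (nat_lit 24) (.e (nat_lit 123184) (nat_lit 264) .nil)))))) (.g (nat_lit 4) .nil .nil))))) (.nd (nat_lit 5) (.nd (nat_lit 6) 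
(.lf (nat_lit 26128) (.g (nat_lit 2889) (.e (nat_lit 1191) (nat_lit 88) (.e (nat_lit 65630) (nat_lit 14) (.e (nat_lit 401459) (nat_lit 13) (.e (nat_lit 483344) (nat_lit 17) (.e (nat_lit 6436) (nat_lit 343) .nil))))) .nil)) 
(.lf (nat_lit 26192) (.g (nat_lit 2360) (.e (nat_lit 1192) (nat_lit 88) (.e (nat_lit 65571) (nat_lit 3) (.e (nat_lit 98372) (nat_lit 29) (.e (nat_lit 450586) (nat_lit 10) (.e (nat_lit 573478) (nat_lit 12) .nil))))) .nil))) (.nd (nat_lit 6) 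
(.lf (nat_lit 26160) (.g (nat_lit 2501) (.e (nat_lit 1191) (nat_lit 88) (.e (nat_lit 65630) (nat_lit 14) (.e (nat_lit 401459) (nat_lit 13) (.e (nat_lit 483392) (nat_lit 23) .nil)))) .nil)) 
(.lf (nat_lit 26224) (.g (nat_lit 2065) (.e (nat_lit 1192) (nat_lit 88) (.e (nat_lit 65624) (nat_lit 12) (.e (nat_lit 385105) (nat_lit 50) (.e (nat_lit 786481) (nat_lit 30) (.e (nat_lit 360456) (nat_lit 0) .nil))))) .nil))))) (.nd (nat_lit 4) (.nd (nat_lit 5) (.nd (nat_lit 6) 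
(.lf (nat_lit 26120) (.g (nat_lit 2666) (.e (nat_lit 1191) (nat_lit 88) (.e (nat_lit 65630) (nat_lit 14) (.e (nat_lit 401459) (nat_lit 13) (.e (nat_lit 483344) (nat_lit 17) (.e (nat_lit 6155) (nat_lit 332) (.e (nat_lit 2540) (nat_lit 158) (.e (nat_lit 8432) (nat_lit 138) .nil))))))) (.g (nat_lit 4) .nil .nil))) 
(.lf (nat_lit 26184) (.g (nat_lit 2723) (.e (nat_lit 1192) (nat_lit 88) (.e (nat_lit 65571) (nat_lit 3) (.e (nat_lit 98372) (nat_lit 29) (.e (nat_lit 450579) (nat_lit 5) (.e (nat_lit 532501) (nat_lit 1) (.e (nat_lit 65280) (nat_lit 221) .nil)))))) (.g (nat_lit 4) .nil .nil)))) (.nd (nat_lit 6) 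
(.lf (nat_lit 26152) (.g (nat_lit 2073) (.e (nat_lit 1191) (nat_lit 88) (.e (nat_lit 65630) (nat_lit 14) (.e (nat_lit 401459) (nat_lit 13) (.e (nat_lit 483386) (nat_lit 23) (.e (nat_lit 336030) (nat_lit 4) (.e (nat_lit 123185) (nat_lit 264) .nil)))))) (.g (nat_lit 0) .nil .nil))) 
(.lf (nat_lit 26216) (.g (nat_lit 1524) (.e (nat_lit 1192) (nat_lit 88) (.e (nat_lit 65624) (nat_lit 12) (.e (nat_lit 385094) (nat_lit 49) (.e (nat_lit 778327) (nat_lit 6) .nil)))) .nil)))) (.nd (nat_lit 5) (.nd (nat_lit 6) 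
(.lf (nat_lit 26136) (.g (nat_lit 2104) (.e (nat_lit 1191) (nat_lit 88) (.e (nat_lit 65630) (nat_lit 14) (.e (nat_lit 401459) (nat_lit 13) (.e (nat_lit 483354) (nat_lit 17) .nil)))) .nil)) 
(.lf (nat_lit 26200) (.g (nat_lit 2760) (.e (nat_lit 1192) (nat_lit 88) (.e (nat_lit 65571) (nat_lit 3) (.e (nat_lit 98373) (nat_lit 29) (.e (nat_lit 450588) (nat_lit 10) (.e (nat_lit 573475) (nat_lit 12) .nil))))) .nil))) (.nd (nat_lit 6) 
(.lf (nat_lit 26168) (.g (nat_lit 2037) (.e (nat_lit 1191) (nat_lit 88) (.e (nat_lit 65630) (nat_lit 14) (.e (nat_lit 401459) (nat_lit 13) (.e (nat_lit 483398) (nat_lit 25) .nil)))) .nil)) 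
(.lf (nat_lit 26232) (.g (nat_lit 2340) (.e (nat_lit 1192) (nat_lit 88) (.e (nat_lit 65624) (nat_lit 12) (.e (nat_lit 385106) (nat_lit 50) (.e (nat_lit 786481) (nat_lit 30) (.e (nat_lit 360455) (nat_lit 0) .nil))))) .nil)))))) (.nd (nat_lit 3) (.nd (nat_lit 4) (.nd (nat_lit 5) (.nd (nat_lit 6) 
(.lf (nat_lit 26116) (.g (nat_lit 2700) (.e (nat_lit 1191) (nat_lit 88) (.e (nat_lit 65630) (nat_lit 14) (.e (nat_lit 401459) (nat_lit 13) (.e (nat_lit 483344) (nat_lit 17) (.e (nat_lit 6152) (nat_lit 332) .nil))))) .nil)) 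
(.lf (nat_lit 26180) (.g (nat_lit 2072) (.e (nat_lit 1192) (nat_lit 88) (.e (nat_lit 65571) (nat_lit 3) (.e (nat_lit 98359) (nat_lit 26) (.e (nat_lit 426286) (nat_lit 10) (.e (nat_lit 434248) (nat_lit 28) (.e (nat_lit 573475) (nat_lit 12) (.e (nat_lit 57347) (nat_lit 0) (.e (nat_lit 7119) (nat_lit 382) .nil)))))))) (.g (nat_lit 4) .nil .nil)))) (.nd (nat_lit 6) 
(.lf (nat_lit 26148) (.g (nat_lit 2718) (.e (nat_lit 1191) (nat_lit 88) (.e (nat_lit 65630) (nat_lit 14) (.e (nat_lit 401459) (nat_lit 13) (.e (nat_lit 483380) (nat_lit 23) (.e (nat_lit 336036) (nat_lit 4) .nil))))) .nil)) 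
(.lf (nat_lit 26212) (.g (nat_lit 1668) (.e (nat_lit 1192) (nat_lit 88) (.e (nat_lit 65624) (nat_lit 12) (.e (nat_lit 385094) (nat_lit 49) (.e (nat_lit 778326) (nat_lit 6) .nil)))) .nil)))) (.nd (nat_lit 5) (.nd (nat_lit 6) 
(.lf (nat_lit 26132) (.g (nat_lit 1988) (.e (nat_lit 1191) (nat_lit 88) (.e (nat_lit 65630) (nat_lit 14) (.e (nat_lit 401459) (nat_lit 13) (.e (nat_lit 483347) (nat_lit 17) .nil)))) .nil)) 
(.lf (nat_lit 26196) (.g (nat_lit 2660) (.e (nat_lit 1192) (nat_lit 88) (.e (nat_lit 65571) (nat_lit 3) (.e (nat_lit 98373) (nat_lit 29) (.e (nat_lit 450587) (nat_lit 10) (.e (nat_lit 573477) (nat_lit 12) .nil))))) .nil))) (.nd (nat_lit 6) 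
(.lf (nat_lit 26164) (.g (nat_lit 1638) (.e (nat_lit 1191) (nat_lit 88) (.e (nat_lit 65630) (nat_lit 14) (.e (nat_lit 401459) (nat_lit 13) (.e (nat_lit 483395) (nat_lit 24) .nil)))) .nil)) 
(.lf (nat_lit 26228) (.g (nat_lit 661) (.e (nat_lit 1192) (nat_lit 88) (.e (nat_lit 65624) (nat_lit 12) (.e (nat_lit 385106) (nat_lit 50) .nil))) .nil))))) (.nd (nat_lit 4) (.nd (nat_lit 5) (.nd (nat_lit 6) 
(.lf (nat_lit 26124) (.g (nat_lit 3275) (.e (nat_lit 1191) (nat_lit 88) (.e (nat_lit 65630) (nat_lit 14) (.e (nat_lit 401459) (nat_lit 13) (.e (nat_lit 483344) (nat_lit 17) (.e (nat_lit 6230) (nat_lit 335) (.e (nat_lit 164080) (nat_lit 61) (.e (nat_lit 5803) (nat_lit 320) .nil))))))) (.g (nat_lit 7) .nil .nil))) 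
(.lf (nat_lit 26188) (.g (nat_lit 2383) (.e (nat_lit 1192) (nat_lit 88) (.e (nat_lit 65571) (nat_lit 3) (.e (nat_lit 98372) (nat_lit 29) (.e (nat_lit 450586) (nat_lit 10) (.e (nat_lit 573475) (nat_lit 12) .nil))))) .nil))) (.nd (nat_lit 6) 
(.lf (nat_lit 26156) (.g (nat_lit 2522) (.e (nat_lit 1191) (nat_lit 88) (.e (nat_lit 65630) (nat_lit 14) (.e (nat_lit 401459) (nat_lit 13) (.e (nat_lit 483388) (nat_lit 23) (.e (nat_lit 336032) (nat_lit 4) .nil))))) .nil)) 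
(.lf (nat_lit 26220) (.g (nat_lit 2256) (.e (nat_lit 1192) (nat_lit 88) (.e (nat_lit 65624) (nat_lit 12) (.e (nat_lit 385105) (nat_lit 50) (.e (nat_lit 786478) (nat_lit 29) (.e (nat_lit 352318) (nat_lit 24) .nil))))) .nil)))) (.nd (nat_lit 5) (.nd (nat_lit 6) 
(.lf (nat_lit 26140) (.g (nat_lit 2206) (.e (nat_lit 1191) (nat_lit 88) (.e (nat_lit 65630) (nat_lit 14) (.e (nat_lit 401459) (nat_lit 13) (.e (nat_lit 483374) (nat_lit 22) .nil)))) .nil)) 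
(.lf (nat_lit 26204) (.g (nat_lit 1314) (.e (nat_lit 1192) (nat_lit 88) (.e (nat_lit 65624) (nat_lit 12) (.e (nat_lit 385092) (nat_lit 49) (.e (nat_lit 778326) (nat_lit 6) .nil)))) .nil))) (.nd (nat_lit 6) 
(.lf (nat_lit 26172) (.g (nat_lit 2909) (.e (nat_lit 1192) (nat_lit 88) (.e (nat_lit 65570) (nat_lit 3) (.e (nat_lit 98373) (nat_lit 29) (.e (nat_lit 450588) (nat_lit 10) (.e (nat_lit 573473) (nat_lit 12) .nil))))) .nil)) 
(.lf (nat_lit 26236) (.g (nat_lit 1576) (.e (nat_lit 1192) (nat_lit 88) (.e (nat_lit 65627) (nat_lit 13) (.e (nat_lit 393234) (nat_lit 17) (.e (nat_lit 7593) (nat_lit 407) (.e (nat_lit 73729) (nat_lit 0) .nil))))) .nil))))))) (.nd (nat_lit 2) (.nd (nat_lit 3) (.nd (nat_lit 4) (.nd (nat_lit 5) (.nd (nat_lit 6) 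
(.lf (nat_lit 26114) (.g (nat_lit 3236) (.e (nat_lit 1191) (nat_lit 88) (.e (nat_lit 65630) (nat_lit 14) (.e (nat_lit 401459) (nat_lit 13) (.e (nat_lit 483344) (nat_lit 17) (.e (nat_lit 6081) (nat_lit 332) (.e (nat_lit 2548) (nat_lit 158) (.e (nat_lit 8430) (nat_lit 138) .nil))))))) (.g (nat_lit 5) .nil .nil))) 
(.lf (nat_lit 26178) (.g (nat_lit 2013) (.e (nat_lit 1192) (nat_lit 88) (.e (nat_lit 65571) (nat_lit 3) (.e (nat_lit 98359) (nat_lit 26) (.e (nat_lit 426286) (nat_lit 10) (.e (nat_lit 434245) (nat_lit 28) (.e (nat_lit 573474) (nat_lit 12) (.e (nat_lit 57347) (nat_lit 0) (.e (nat_lit 7124) (nat_lit 382) .nil)))))))) (.g (nat_lit 4) .nil .nil)))) (.nd (nat_lit 6) 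
(.lf (nat_lit 26146) (.g (nat_lit 2870) (.e (nat_lit 1191) (nat_lit 88) (.e (nat_lit 65630) (nat_lit 14) (.e (nat_lit 401459) (nat_lit 13) (.e (nat_lit 483378) (nat_lit 23) (.e (nat_lit 336032) (nat_lit 4) (.e (nat_lit 123184) (nat_lit 264) .nil)))))) (.g (nat_lit 6) .nil .nil))) 
(.lf (nat_lit 26210) (.g (nat_lit 1611) (.e (nat_lit 1192) (nat_lit 88) (.e (nat_lit 65624) (nat_lit 12) (.e (nat_lit 385093) (nat_lit 49) (.e (nat_lit 778327) (nat_lit 6) .nil)))) .nil)))) (.nd (nat_lit 5) (.nd (nat_lit 6) 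
(.lf (nat_lit 26130) (.g (nat_lit 2595) (.e (nat_lit 1191) (nat_lit 88) (.e (nat_lit 65630) (nat_lit 14) (.e (nat_lit 401459) (nat_lit 13) (.e (nat_lit 483344) (nat_lit 17) (.e (nat_lit 6439) (nat_lit 343) .nil))))) .nil)) 
(.lf (nat_lit 26194) (.g (nat_lit 3527) (.e (nat_lit 1192) (nat_lit 88) (.e (nat_lit 65571) (nat_lit 3) (.e (nat_lit 98372) (nat_lit 29) (.e (nat_lit 450588) (nat_lit 10) (.e (nat_lit 573475) (nat_lit 12) .nil))))) .nil))) (.nd (nat_lit 6) 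
(.lf (nat_lit 26162) (.g (nat_lit 1885) (.e (nat_lit 1191) (nat_lit 88) (.e (nat_lit 65630) (nat_lit 14) (.e (nat_lit 401459) (nat_lit 13) (.e (nat_lit 491264) (nat_lit 23) .nil)))) .nil)) 
(.lf (nat_lit 26226) (.g (nat_lit 2259) (.e (nat_lit 1192) (nat_lit 88) (.e (nat_lit 65624) (nat_lit 12) (.e (nat_lit 385105) (nat_lit 50) (.e (nat_lit 786483) (nat_lit 30) (.e (nat_lit 360456) (nat_lit 0) .nil))))) .nil))))) (.nd (nat_lit 4) (.nd (nat_lit 5) (.nd (nat_lit 6) 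
(.lf (nat_lit 26122) (.g (nat_lit 2726) (.e (nat_lit 1191) (nat_lit 88) (.e (nat_lit 65630) (nat_lit 14) (.e (nat_lit 401459) (nat_lit 13) (.e (nat_lit 483344) (nat_lit 17) (.e (nat_lit 6203) (nat_lit 332) .nil))))) .nil)) 
(.lf (nat_lit 26186) (.g (nat_lit 2655) (.e (nat_lit 1192) (nat_lit 88) (.e (nat_lit 65571) (nat_lit 3) (.e (nat_lit 98372) (nat_lit 29) (.e (nat_lit 450579) (nat_lit 5) (.e (nat_lit 532504) (nat_lit 1) (.e (nat_lit 65280) (nat_lit 221) .nil)))))) (.g (nat_lit 4) .nil .nil)))) (.nd (nat_lit 6) 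
(.lf (nat_lit 26154) (.g (nat_lit 3337) (.e (nat_lit 1191) (nat_lit 88) (.e (nat_lit 65630) (nat_lit 14) (.e (nat_lit 401459) (nat_lit 13) (.e (nat_lit 483387) (nat_lit 23) (.e (nat_lit 336032) (nat_lit 4) (.e (nat_lit 123184) (nat_lit 264) .nil)))))) (.g (nat_lit 0) .nil .nil))) 
(.lf (nat_lit 26218) (.g (nat_lit 1858) (.e (nat_lit 1192) (nat_lit 88) (.e (nat_lit 65624) (nat_lit 12) (.e (nat_lit 385094) (nat_lit 49) (.e (nat_lit 778327) (nat_lit 6) (.e (nat_lit 81959) (nat_lit 24) (.e (nat_lit 123183) (nat_lit 264) .nil)))))) (.g (nat_lit 4) .nil .nil))))) (.nd (nat_lit 5) (.nd (nat_lit 6) 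
(.lf (nat_lit 26138) (.g (nat_lit 3442) (.e (nat_lit 1191) (nat_lit 88) (.e (nat_lit 65630) (nat_lit 14) (.e (nat_lit 401459) (nat_lit 13) (.e (nat_lit 483372) (nat_lit 21) (.e (nat_lit 327424) (nat_lit 1) .nil))))) .nil)) 
(.lf (nat_lit 26202) (.g (nat_lit 2777) (.e (nat_lit 1192) (nat_lit 88) (.e (nat_lit 65571) (nat_lit 3) (.e (nat_lit 98373) (nat_lit 29) (.e (nat_lit 450588) (nat_lit 10) (.e (nat_lit 573475) (nat_lit 12) (.e (nat_lit 57351) (nat_lit 0) (.e (nat_lit 7125) (nat_lit 382) .nil))))))) (.g (nat_lit 4) .nil .nil)))) (.nd (nat_lit 6) 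
(.lf (nat_lit 26170) (.g (nat_lit 3161) (.e (nat_lit 1191) (nat_lit 88) (.e (nat_lit 65630) (nat_lit 14) (.e (nat_lit 401459) (nat_lit 13) (.e (nat_lit 483411) (nat_lit 27) (.e (nat_lit 401414) (nat_lit 0) .nil))))) .nil)) 
(.lf (nat_lit 26234) (.g (nat_lit 442) (.e (nat_lit 1192) (nat_lit 88) (.e (nat_lit 65627) (nat_lit 13) (.e (nat_lit 393233) (nat_lit 17) .nil))) .nil)))))) (.nd (nat_lit 3) (.nd (nat_lit 4) (.nd (nat_lit 5) (.nd (nat_lit 6) 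
(.lf (nat_lit 26118) (.g (nat_lit 2719) (.e (nat_lit 1191) (nat_lit 88) (.e (nat_lit 65630) (nat_lit 14) (.e (nat_lit 401459) (nat_lit 13) (.e (nat_lit 483344) (nat_lit 17) (.e (nat_lit 6154) (nat_lit 332) .nil))))) .nil)) 
(.lf (nat_lit 26182) (.g (nat_lit 658) (.e (nat_lit 1192) (nat_lit 88) (.e (nat_lit 65571) (nat_lit 3) (.e (nat_lit 98372) (nat_lit 29) .nil))) .nil))) (.nd (nat_lit 6) 
(.lf (nat_lit 26150) (.g (nat_lit 2030) (.e (nat_lit 1191) (nat_lit 88) (.e (nat_lit 65630) (nat_lit 14) (.e (nat_lit 401459) (nat_lit 13) (.e (nat_lit 483381) (nat_lit 23) .nil)))) .nil)) 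
(.lf (nat_lit 26214) (.g (nat_lit 1935) (.e (nat_lit 1192) (nat_lit 88) (.e (nat_lit 65624) (nat_lit 12) (.e (nat_lit 385094) (nat_lit 49) (.e (nat_lit 778326) (nat_lit 6) (.e (nat_lit 81959) (nat_lit 24) .nil))))) .nil)))) (.nd (nat_lit 5) (.nd (nat_lit 6) 
(.lf (nat_lit 26134) (.g (nat_lit 3171) (.e (nat_lit 1191) (nat_lit 88) (.e (nat_lit 65630) (nat_lit 14) (.e (nat_lit 401459) (nat_lit 13) (.e (nat_lit 483350) (nat_lit 17) (.e (nat_lit 6097) (nat_lit 332) .nil))))) .nil)) 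
(.lf (nat_lit 26198) (.g (nat_lit 2745) (.e (nat_lit 1192) (nat_lit 88) (.e (nat_lit 65571) (nat_lit 3) (.e (nat_lit 98373) (nat_lit 29) (.e (nat_lit 450588) (nat_lit 10) (.e (nat_lit 573473) (nat_lit 12) .nil))))) .nil))) (.nd (nat_lit 6) 
(.lf (nat_lit 26166) (.g (nat_lit 2539) (.e (nat_lit 1191) (nat_lit 88) (.e (nat_lit 65630) (nat_lit 14) (.e (nat_lit 401459) (nat_lit 13) (.e (nat_lit 483396) (nat_lit 24) (.e (nat_lit 344104) (nat_lit 18) .nil))))) .nil)) 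
(.lf (nat_lit 26230) (.g (nat_lit 2255) (.e (nat_lit 1192) (nat_lit 88) (.e (nat_lit 65624) (nat_lit 12) (.e (nat_lit 385106) (nat_lit 50) (.e (nat_lit 786480) (nat_lit 29) (.e (nat_lit 352318) (nat_lit 24) .nil))))) .nil))))) (.nd (nat_lit 4) (.nd (nat_lit 5) (.nd (nat_lit 6) 
(.lf (nat_lit 26126) (.g (nat_lit 2700) (.e (nat_lit 1191) (nat_lit 88) (.e (nat_lit 65630) (nat_lit 14) (.e (nat_lit 401459) (nat_lit 13) (.e (nat_lit 483344) (nat_lit 17) (.e (nat_lit 6434) (nat_lit 343) .nil))))) .nil)) 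
(.lf (nat_lit 26190) (.g (nat_lit 2460) (.e (nat_lit 1192) (nat_lit 88) (.e (nat_lit 65571) (nat_lit 3) (.e (nat_lit 98372) (nat_lit 29) (.e (nat_lit 450586) (nat_lit 10) (.e (nat_lit 573475) (nat_lit 12) (.e (nat_lit 57347) (nat_lit 0) (.e (nat_lit 7124) (nat_lit 382) .nil))))))) (.g (nat_lit 4) .nil .nil)))) (.nd (nat_lit 6) 
(.lf (nat_lit 26158) (.g (nat_lit 2381) (.e (nat_lit 1191) (nat_lit 88) (.e (nat_lit 65630) (nat_lit 14) (.e (nat_lit 401459) (nat_lit 13) (.e (nat_lit 483389) (nat_lit 23) (.e (nat_lit 336032) (nat_lit 4) (.e (nat_lit 123182) (nat_lit 264) .nil)))))) (.g (nat_lit 4) .nil .nil))) 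
(.lf (nat_lit 26222) (.g (nat_lit 1635) (.e (nat_lit 1192) (nat_lit 88) (.e (nat_lit 65624) (nat_lit 12) (.e (nat_lit 385105) (nat_lit 50) (.e (nat_lit 786481) (nat_lit 30) .nil)))) .nil)))) (.nd (nat_lit 5) (.nd (nat_lit 6) 
(.lf (nat_lit 26142) (.g (nat_lit 2471) (.e (nat_lit 1191) (nat_lit 88) (.e (nat_lit 65630) (nat_lit 14) (.e (nat_lit 401459) (nat_lit 13) (.e (nat_lit 483374) (nat_lit 22) (.e (nat_lit 327692) (nat_lit 1) .nil))))) .nil)) 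
(.lf (nat_lit 26206) (.g (nat_lit 1413) (.e (nat_lit 1192) (nat_lit 88) (.e (nat_lit 65624) (nat_lit 12) (.e (nat_lit 385092) (nat_lit 49) (.e (nat_lit 778327) (nat_lit 6) .nil)))) .nil))) (.nd (nat_lit 6) 
(.lf (nat_lit 26174) (.g (nat_lit 2983) (.e (nat_lit 1192) (nat_lit 88) (.e (nat_lit 65570) (nat_lit 3) (.e (nat_lit 98373) (nat_lit 29) (.e (nat_lit 450588) (nat_lit 10) (.e (nat_lit 573475) (nat_lit 12) (.e (nat_lit 57347) (nat_lit 0) (.e (nat_lit 7119) (nat_lit 382) .nil))))))) (.g (nat_lit 4) .nil .nil))) 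
(.lf (nat_lit 26238) (.g (nat_lit 1343) (.e (nat_lit 1192) (nat_lit 88) (.e (nat_lit 65627) (nat_lit 13) (.e (nat_lit 393265) (nat_lit 22) (.e (nat_lit 417820) (nat_lit 10) (.e (nat_lit 5761) (nat_lit 315) (.e (nat_lit 163850) (nat_lit 0) (.e (nat_lit 6277) (nat_lit 337) .nil))))))) (.g (nat_lit 4) .nil .nil))))))))) 
(.nd (nat_lit 1) (.nd (nat_lit 2) (.nd (nat_lit 3) (.nd (nat_lit 4) (.nd (nat_lit 5) 
(.nd (nat_lit 6) 
(.lf (nat_lit 26113) (.g (nat_lit 2742) (.e (nat_lit 1191) (nat_lit 88) (.e (nat_lit 65630) (nat_lit 14) (.e (nat_lit 401459) (nat_lit 13) (.e (nat_lit 483344) (nat_lit 17) (.e (nat_lit 6081) (nat_lit 332) .nil))))) .nil)) 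
(.lf (nat_lit 26177) (.g (nat_lit 2073) (.e (nat_lit 1192) (nat_lit 88) (.e (nat_lit 65571) (nat_lit 3) (.e (nat_lit 98359) (nat_lit 26) (.e (nat_lit 426286) (nat_lit 10) (.e (nat_lit 434245) (nat_lit 28) (.e (nat_lit 573474) (nat_lit 12) (.e (nat_lit 57347) (nat_lit 0) (.e (nat_lit 7119) (nat_lit 382) .nil)))))))) (.g (nat_lit 4) .nil .nil)))) (.nd (nat_lit 6) 
(.lf (nat_lit 26145) (.g (nat_lit 2151) (.e (nat_lit 1191) (nat_lit 88) (.e (nat_lit 65630) (nat_lit 14) (.e (nat_lit 401459) (nat_lit 13) (.e (nat_lit 483378) (nat_lit 23) (.e (nat_lit 336032) (nat_lit 4) .nil))))) .nil)) 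
(.lf (nat_lit 26209) (.g (nat_lit 1732) (.e (nat_lit 1192) (nat_lit 88) (.e (nat_lit 65624) (nat_lit 12) (.e (nat_lit 385093) (nat_lit 49) (.e (nat_lit 778326) (nat_lit 6) (.e (nat_lit 81959) (nat_lit 24) .nil))))) .nil)))) (.nd (nat_lit 5) (.nd (nat_lit 6) 
(.lf (nat_lit 26129) (.g (nat_lit 2647) (.e (nat_lit 1191) (nat_lit 88) (.e (nat_lit 65630) (nat_lit 14) (.e (nat_lit 401459) (nat_lit 13) (.e (nat_lit 483344) (nat_lit 17) (.e (nat_lit 6437) (nat_lit 343) (.e (nat_lit 1286) (nat_lit 95) (.e (nat_lit 123184) (nat_lit 264) .nil))))))) (.g (nat_lit 4) .nil .nil))) 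
(.lf (nat_lit 26193) (.g (nat_lit 3567) (.e (nat_lit 1192) (nat_lit 88) (.e (nat_lit 65571) (nat_lit 3) (.e (nat_lit 98372) (nat_lit 29) (.e (nat_lit 450588) (nat_lit 10) (.e (nat_lit 573473) (nat_lit 12) .nil))))) .nil))) (.nd (nat_lit 6) 
(.lf (nat_lit 26161) (.g (nat_lit 2129) (.e (nat_lit 1191) (nat_lit 88) (.e (nat_lit 65630) (nat_lit 14) (.e (nat_lit 401459) (nat_lit 13) (.e (nat_lit 483393) (nat_lit 23) .nil)))) .nil)) 
(.lf (nat_lit 26225) (.g (nat_lit 1681) (.e (nat_lit 1192) (nat_lit 88) (.e (nat_lit 65624) (nat_lit 12) (.e (nat_lit 385105) (nat_lit 50) (.e (nat_lit 786483) (nat_lit 30) .nil)))) .nil))))) (.nd (nat_lit 4) (.nd (nat_lit 5) (.nd (nat_lit 6) 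
(.lf (nat_lit 26121) (.g (nat_lit 2595) (.e (nat_lit 1191) (nat_lit 88) (.e (nat_lit 65630) (nat_lit 14) (.e (nat_lit 401459) (nat_lit 13) (.e (nat_lit 483344) (nat_lit 17) (.e (nat_lit 6156) (nat_lit 332) .nil))))) .nil)) 
(.lf (nat_lit 26185) (.g (nat_lit 2683) (.e (nat_lit 1192) (nat_lit 88) (.e (nat_lit 65571) (nat_lit 3) (.e (nat_lit 98372) (nat_lit 29) (.e (nat_lit 450579) (nat_lit 5) (.e (nat_lit 532503) (nat_lit 1) .nil))))) .nil))) (.nd (nat_lit 6) 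
(.lf (nat_lit 26153) (.g (nat_lit 2237) (.e (nat_lit 1191) (nat_lit 88) (.e (nat_lit 65630) (nat_lit 14) (.e (nat_lit 401459) (nat_lit 13) (.e (nat_lit 483387) (nat_lit 23) .nil)))) .nil)) 
(.lf (nat_lit 26217) (.g (nat_lit 1802) (.e (nat_lit 1192) (nat_lit 88) (.e (nat_lit 65624) (nat_lit 12) (.e (nat_lit 385094) (nat_lit 49) (.e (nat_lit 778327) (nat_lit 6) (.e (nat_lit 81959) (nat_lit 24) .nil))))) .nil)))) (.nd (nat_lit 5) (.nd (nat_lit 6) 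
(.lf (nat_lit 26137) (.g (nat_lit 3442) (.e (nat_lit 1191) (nat_lit 88) (.e (nat_lit 65630) (nat_lit 14) (.e (nat_lit 401459) (nat_lit 13) (.e (nat_lit 483372) (nat_lit 21) (.e (nat_lit 327424) (nat_lit 0) .nil))))) .nil)) 
(.lf (nat_lit 26201) (.g (nat_lit 2783) (.e (nat_lit 1192) (nat_lit 88) (.e (nat_lit 65571) (nat_lit 3) (.e (nat_lit 98373) (nat_lit 29) (.e (nat_lit 450588) (nat_lit 10) (.e (nat_lit 573475) (nat_lit 12) (.e (nat_lit 57351) (nat_lit 0) (.e (nat_lit 7122) (nat_lit 382) .nil))))))) (.g (nat_lit 4) .nil .nil)))) (.nd (nat_lit 6) 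
(.lf (nat_lit 26169) (.g (nat_lit 1858) (.e (nat_lit 1191) (nat_lit 88) (.e (nat_lit 65630) (nat_lit 14) (.e (nat_lit 401459) (nat_lit 13) (.e (nat_lit 483400) (nat_lit 25) .nil)))) .nil)) 
(.lf (nat_lit 26233) (.g (nat_lit 1759) (.e (nat_lit 1192) (nat_lit 88) (.e (nat_lit 65624) (nat_lit 12) (.e (nat_lit 385106) (nat_lit 50) (.e (nat_lit 786483) (nat_lit 30) .nil)))) .nil)))))) (.nd (nat_lit 3) (.nd (nat_lit 4) (.nd (nat_lit 5) (.nd (nat_lit 6) 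
(.lf (nat_lit 26117) (.g (nat_lit 2578) (.e (nat_lit 1191) (nat_lit 88) (.e (nat_lit 65630) (nat_lit 14) (.e (nat_lit 401459) (nat_lit 13) (.e (nat_lit 483344) (nat_lit 17) (.e (nat_lit 6153) (nat_lit 332) .nil))))) .nil)) 
(.lf (nat_lit 26181) (.g (nat_lit 2044) (.e (nat_lit 1192) (nat_lit 88) (.e (nat_lit 65571) (nat_lit 3) (.e (nat_lit 98359) (nat_lit 26) (.e (nat_lit 426286) (nat_lit 10) (.e (nat_lit 434248) (nat_lit 28) (.e (nat_lit 573475) (nat_lit 12) (.e (nat_lit 57347) (nat_lit 0) (.e (nat_lit 7124) (nat_lit 382) .nil)))))))) (.g (nat_lit 4) .nil .nil)))) (.nd (nat_lit 6) 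
(.lf (nat_lit 26149) (.g (nat_lit 2247) (.e (nat_lit 1191) (nat_lit 88) (.e (nat_lit 65630) (nat_lit 14) (.e (nat_lit 401459) (nat_lit 13) (.e (nat_lit 483380) (nat_lit 23) (.e (nat_lit 343808) (nat_lit 4) .nil))))) .nil)) 
(.lf (nat_lit 26213) (.g (nat_lit 1966) (.e (nat_lit 1192) (nat_lit 88) (.e (nat_lit 65624) (nat_lit 12) (.e (nat_lit 385094) (nat_lit 49) (.e (nat_lit 778326) (nat_lit 6) (.e (nat_lit 81957) (nat_lit 24) .nil))))) .nil)))) (.nd (nat_lit 5) (.nd (nat_lit 6) 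
(.lf (nat_lit 26133) (.g (nat_lit 1909) (.e (nat_lit 1191) (nat_lit 88) (.e (nat_lit 65630) (nat_lit 14) (.e (nat_lit 401459) (nat_lit 13) (.e (nat_lit 483350) (nat_lit 17) .nil)))) .nil)) 
(.lf (nat_lit 26197) (.g (nat_lit 2615) (.e (nat_lit 1192) (nat_lit 88) (.e (nat_lit 65571) (nat_lit 3) (.e (nat_lit 98373) (nat_lit 29) (.e (nat_lit 450587) (nat_lit 10) (.e (nat_lit 573478) (nat_lit 12) .nil))))) .nil))) (.nd (nat_lit 6) 
(.lf (nat_lit 26165) (.g (nat_lit 1759) (.e (nat_lit 1191) (nat_lit 88) (.e (nat_lit 65630) (nat_lit 14) (.e (nat_lit 401459) (nat_lit 13) (.e (nat_lit 483396) (nat_lit 24) .nil)))) .nil)) 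
(.lf (nat_lit 26229) (.g (nat_lit 2296) (.e (nat_lit 1192) (nat_lit 88) (.e (nat_lit 65624) (nat_lit 12) (.e (nat_lit 385106) (nat_lit 50) (.e (nat_lit 786478) (nat_lit 29) (.e (nat_lit 352318) (nat_lit 24) .nil))))) .nil))))) (.nd (nat_lit 4) (.nd (nat_lit 5) (.nd (nat_lit 6) 
(.lf (nat_lit 26125) (.g (nat_lit 2595) (.e (nat_lit 1191) (nat_lit 88) (.e (nat_lit 65630) (nat_lit 14) (.e (nat_lit 401459) (nat_lit 13) (.e (nat_lit 483344) (nat_lit 17) (.e (nat_lit 6235) (nat_lit 335) .nil))))) .nil)) 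
(.lf (nat_lit 26189) (.g (nat_lit 2432) (.e (nat_lit 1192) (nat_lit 88) (.e (nat_lit 65571) (nat_lit 3) (.e (nat_lit 98372) (nat_lit 29) (.e (nat_lit 450586) (nat_lit 10) (.e (nat_lit 573475) (nat_lit 12) (.e (nat_lit 57347) (nat_lit 0) (.e (nat_lit 7119) (nat_lit 382) .nil))))))) (.g (nat_lit 4) .nil .nil)))) (.nd (nat_lit 6) 
(.lf (nat_lit 26157) (.g (nat_lit 2320) (.e (nat_lit 1191) (nat_lit 88) (.e (nat_lit 65630) (nat_lit 14) (.e (nat_lit 401459) (nat_lit 13) (.e (nat_lit 483389) (nat_lit 23) .nil)))) .nil)) 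
(.lf (nat_lit 26221) (.g (nat_lit 2383) (.e (nat_lit 1192) (nat_lit 88) (.e (nat_lit 65624) (nat_lit 12) (.e (nat_lit 385105) (nat_lit 50) (.e (nat_lit 786480) (nat_lit 29) (.e (nat_lit 352318) (nat_lit 24) .nil))))) .nil)))) (.nd (nat_lit 5) (.nd (nat_lit 6) 
(.lf (nat_lit 26141) (.g (nat_lit 2487) (.e (nat_lit 1191) (nat_lit 88) (.e (nat_lit 65630) (nat_lit 14) (.e (nat_lit 401459) (nat_lit 13) (.e (nat_lit 483374) (nat_lit 22) (.e (nat_lit 327684) (nat_lit 0) .nil))))) .nil)) 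
(.lf (nat_lit 26205) (.g (nat_lit 1468) (.e (nat_lit 1192) (nat_lit 88) (.e (nat_lit 65624) (nat_lit 12) (.e (nat_lit 385092) (nat_lit 49) (.e (nat_lit 778326) (nat_lit 6) (.e (nat_lit 81959) (nat_lit 24) (.e (nat_lit 123185) (nat_lit 264) .nil)))))) (.g (nat_lit 4) .nil .nil)))) (.nd (nat_lit 6) 
(.lf (nat_lit 26173) (.g (nat_lit 2920) (.e (nat_lit 1192) (nat_lit 88) (.e (nat_lit 65570) (nat_lit 3) (.e (nat_lit 98373) (nat_lit 29) (.e (nat_lit 450588) (nat_lit 10) (.e (nat_lit 573475) (nat_lit 12) .nil))))) .nil)) 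
(.lf (nat_lit 26237) (.g (nat_lit 2355) (.e (nat_lit 1192) (nat_lit 88) (.e (nat_lit 65627) (nat_lit 13) (.e (nat_lit 393265) (nat_lit 22) (.e (nat_lit 417820) (nat_lit 10) (.e (nat_lit 5761) (nat_lit 315) (.e (nat_lit 163850) (nat_lit 0) (.e (nat_lit 6270) (nat_lit 337) .nil))))))) (.g (nat_lit 7) .nil .nil)))))))) 
(.nd (nat_lit 2) (.nd (nat_lit 3) (.nd (nat_lit 4) (.nd (nat_lit 5) (.nd (nat_lit 6) 
(.lf (nat_lit 26115) (.g (nat_lit 2595) (.e (nat_lit 1191) (nat_lit 88) (.e (nat_lit 65630) (nat_lit 14) (.e (nat_lit 401459) (nat_lit 13) (.e (nat_lit 483344) (nat_lit 17) (.e (nat_lit 6091) (nat_lit 332) .nil))))) .nil)) 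
(.lf (nat_lit 26179) (.g (nat_lit 2719) (.e (nat_lit 1192) (nat_lit 88) (.e (nat_lit 65571) (nat_lit 3) (.e (nat_lit 98359) (nat_lit 26) (.e (nat_lit 426286) (nat_lit 10) (.e (nat_lit 434245) (nat_lit 28) (.e (nat_lit 573474) (nat_lit 12) (.e (nat_lit 57347) (nat_lit 0) (.e (nat_lit 7125) (nat_lit 382) .nil)))))))) (.g (nat_lit 5) .nil .nil)))) (.nd (nat_lit 6) 
(.lf (nat_lit 26147) (.g (nat_lit 2009) (.e (nat_lit 1191) (nat_lit 88) (.e (nat_lit 65630) (nat_lit 14) (.e (nat_lit 401459) (nat_lit 13) (.e (nat_lit 483379) (nat_lit 23) .nil)))) .nil)) 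
(.lf (nat_lit 26211) (.g (nat_lit 1966) (.e (nat_lit 1192) (nat_lit 88) (.e (nat_lit 65624) (nat_lit 12) (.e (nat_lit 385093) (nat_lit 49) (.e (nat_lit 778327) (nat_lit 6) (.e (nat_lit 81959) (nat_lit 24) .nil))))) .nil)))) (.nd (nat_lit 5) (.nd (nat_lit 6) 
(.lf (nat_lit 26131) (.g (nat_lit 2588) (.e (nat_lit 1191) (nat_lit 88) (.e (nat_lit 65630) (nat_lit 14) (.e (nat_lit 401459) (nat_lit 13) (.e (nat_lit 483344) (nat_lit 17) (.e (nat_lit 6440) (nat_lit 343) .nil))))) .nil)) 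
(.lf (nat_lit 26195) (.g (nat_lit 3530) (.e (nat_lit 1192) (nat_lit 88) (.e (nat_lit 65571) (nat_lit 3) (.e (nat_lit 98372) (nat_lit 29) (.e (nat_lit 450588) (nat_lit 10) (.e (nat_lit 573475) (nat_lit 12) (.e (nat_lit 57347) (nat_lit 0) (.e (nat_lit 7125) (nat_lit 382) .nil))))))) (.g (nat_lit 4) .nil .nil)))) (.nd (nat_lit 6) 
(.lf (nat_lit 26163) (.g (nat_lit 1736) (.e (nat_lit 1191) (nat_lit 88) (.e (nat_lit 65630) (nat_lit 14) (.e (nat_lit 401459) (nat_lit 13) (.e (nat_lit 483394) (nat_lit 24) .nil)))) .nil)) 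
(.lf (nat_lit 26227) (.g (nat_lit 2408) (.e (nat_lit 1192) (nat_lit 88) (.e (nat_lit 65624) (nat_lit 12) (.e (nat_lit 385105) (nat_lit 50) (.e (nat_lit 786483) (nat_lit 30) (.e (nat_lit 360457) (nat_lit 0) .nil))))) .nil))))) (.nd (nat_lit 4) (.nd (nat_lit 5) (.nd (nat_lit 6) 
(.lf (nat_lit 26123) (.g (nat_lit 2728) (.e (nat_lit 1191) (nat_lit 88) (.e (nat_lit 65630) (nat_lit 14) (.e (nat_lit 401459) (nat_lit 13) (.e (nat_lit 483344) (nat_lit 17) (.e (nat_lit 6230) (nat_lit 335) .nil))))) .nil)) 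
(.lf (nat_lit 26187) (.g (nat_lit 2251) (.e (nat_lit 1192) (nat_lit 88) (.e (nat_lit 65571) (nat_lit 3) (.e (nat_lit 98372) (nat_lit 29) (.e (nat_lit 450586) (nat_lit 10) (.e (nat_lit 573473) (nat_lit 12) .nil))))) .nil))) (.nd (nat_lit 6) 
(.lf (nat_lit 26155) (.g (nat_lit 2387) (.e (nat_lit 1191) (nat_lit 88) (.e (nat_lit 65630) (nat_lit 14) (.e (nat_lit 401459) (nat_lit 13) (.e (nat_lit 483388) (nat_lit 23) .nil)))) .nil)) 
(.lf (nat_lit 26219) (.g (nat_lit 2234) (.e (nat_lit 1192) (nat_lit 88) (.e (nat_lit 65624) (nat_lit 12) (.e (nat_lit 385094) (nat_lit 49) (.e (nat_lit 778327) (nat_lit 6) (.e (nat_lit 81959) (nat_lit 24) (.e (nat_lit 123185) (nat_lit 264) .nil)))))) (.g (nat_lit 5) .nil .nil))))) (.nd (nat_lit 5) (.nd (nat_lit 6) 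
(.lf (nat_lit 26139) (.g (nat_lit 2804) (.e (nat_lit 1191) (nat_lit 88) (.e (nat_lit 65630) (nat_lit 14) (.e (nat_lit 401459) (nat_lit 13) (.e (nat_lit 483373) (nat_lit 22) .nil)))) .nil)) 
(.lf (nat_lit 26203) (.g (nat_lit 2981) (.e (nat_lit 1192) (nat_lit 88) (.e (nat_lit 65610) (nat_lit 10) (.e (nat_lit 344097) (nat_lit 18) (.e (nat_lit 5906) (nat_lit 320) (.e (nat_lit 1221) (nat_lit 90) (.e (nat_lit 81959) (nat_lit 24) (.e (nat_lit 123182) (nat_lit 264) .nil))))))) (.g (nat_lit 6) .nil .nil)))) (.nd (nat_lit 6) 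
(.lf (nat_lit 26171) (.g (nat_lit 2841) (.e (nat_lit 1192) (nat_lit 88) (.e (nat_lit 65568) (nat_lit 2) (.e (nat_lit 90170) (nat_lit 13) (.e (nat_lit 172113) (nat_lit 10) (.e (nat_lit 434248) (nat_lit 28) (.e (nat_lit 573475) (nat_lit 12) (.e (nat_lit 57347) (nat_lit 0) (.e (nat_lit 7125) (nat_lit 382) .nil)))))))) (.g (nat_lit 4) .nil .nil))) 
(.lf (nat_lit 26235) (.g (nat_lit 932) (.e (nat_lit 1192) (nat_lit 88) (.e (nat_lit 65627) (nat_lit 13) (.e (nat_lit 393234) (nat_lit 17) (.e (nat_lit 7593) (nat_lit 407) .nil)))) .nil)))))) (.nd (nat_lit 3) (.nd (nat_lit 4) (.nd (nat_lit 5) (.nd (nat_lit 6) 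
(.lf (nat_lit 26119) (.g (nat_lit 2661) (.e (nat_lit 1191) (nat_lit 88) (.e (nat_lit 65630) (nat_lit 14) (.e (nat_lit 401459) (nat_lit 13) (.e (nat_lit 483344) (nat_lit 17) (.e (nat_lit 6155) (nat_lit 332) .nil))))) .nil)) 
(.lf (nat_lit 26183) (.g (nat_lit 2599) (.e (nat_lit 1192) (nat_lit 88) (.e (nat_lit 65571) (nat_lit 3) (.e (nat_lit 98372) (nat_lit 29) (.e (nat_lit 450579) (nat_lit 5) (.e (nat_lit 532499) (nat_lit 1) .nil))))) .nil))) (.nd (nat_lit 6) 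
(.lf (nat_lit 26151) (.g (nat_lit 2312) (.e (nat_lit 1191) (nat_lit 88) (.e (nat_lit 65630) (nat_lit 14) (.e (nat_lit 401459) (nat_lit 13) (.e (nat_lit 483386) (nat_lit 23) (.e (nat_lit 336030) (nat_lit 4) (.e (nat_lit 123183) (nat_lit 264) .nil)))))) (.g (nat_lit 0) .nil .nil))) 
(.lf (nat_lit 26215) (.g (nat_lit 4484) (.e (nat_lit 1192) (nat_lit 88) (.e (nat_lit 65624) (nat_lit 12) (.e (nat_lit 385094) (nat_lit 49) (.e (nat_lit 778326) (nat_lit 6) (.e (nat_lit 81959) (nat_lit 24) (.e (nat_lit 123182) (nat_lit 264) .nil)))))) (.g (nat_lit 0) .nil .nil))))) (.nd (nat_lit 5) (.nd (nat_lit 6) 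
(.lf (nat_lit 26135) (.g (nat_lit 2657) (.e (nat_lit 1191) (nat_lit 88) (.e (nat_lit 65630) (nat_lit 14) (.e (nat_lit 401459) (nat_lit 13) (.e (nat_lit 483350) (nat_lit 17) (.e (nat_lit 6113) (nat_lit 332) .nil))))) .nil)) 
(.lf (nat_lit 26199) (.g (nat_lit 2753) (.e (nat_lit 1192) (nat_lit 88) (.e (nat_lit 65571) (nat_lit 3) (.e (nat_lit 98373) (nat_lit 29) (.e (nat_lit 450588) (nat_lit 10) (.e (nat_lit 573473) (nat_lit 12) (.e (nat_lit 57347) (nat_lit 0) (.e (nat_lit 7125) (nat_lit 382) .nil))))))) (.g (nat_lit 4) .nil .nil)))) (.nd (nat_lit 6) 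
(.lf (nat_lit 26167) (.g (nat_lit 2497) (.e (nat_lit 1191) (nat_lit 88) (.e (nat_lit 65630) (nat_lit 14) (.e (nat_lit 401459) (nat_lit 13) (.e (nat_lit 483397) (nat_lit 25) .nil)))) .nil)) 
(.lf (nat_lit 26231) (.g (nat_lit 1539) (.e (nat_lit 1192) (nat_lit 88) (.e (nat_lit 65624) (nat_lit 12) (.e (nat_lit 385106) (nat_lit 50) (.e (nat_lit 786481) (nat_lit 30) .nil)))) .nil))))) (.nd (nat_lit 4) (.nd (nat_lit 5) (.nd (nat_lit 6) 
(.lf (nat_lit 26127) (.g (nat_lit 2742) (.e (nat_lit 1191) (nat_lit 88) (.e (nat_lit 65630) (nat_lit 14) (.e (nat_lit 401459) (nat_lit 13) (.e (nat_lit 483344) (nat_lit 17) (.e (nat_lit 6434) (nat_lit 343) (.e (nat_lit 1288) (nat_lit 95) (.e (nat_lit 123183) (nat_lit 264) .nil))))))) (.g (nat_lit 4) .nil .nil))) 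
(.lf (nat_lit 26191) (.g (nat_lit 2412) (.e (nat_lit 1192) (nat_lit 88) (.e (nat_lit 65571) (nat_lit 3) (.e (nat_lit 98372) (nat_lit 29) (.e (nat_lit 450586) (nat_lit 10) (.e (nat_lit 573477) (nat_lit 12) .nil))))) .nil))) (.nd (nat_lit 6) 
(.lf (nat_lit 26159) (.g (nat_lit 2362) (.e (nat_lit 1191) (nat_lit 88) (.e (nat_lit 65630) (nat_lit 14) (.e (nat_lit 401459) (nat_lit 13) (.e (nat_lit 483391) (nat_lit 23) .nil)))) .nil)) 
(.lf (nat_lit 26223) (.g (nat_lit 2276) (.e (nat_lit 1192) (nat_lit 88) (.e (nat_lit 65624) (nat_lit 12) (.e (nat_lit 385105) (nat_lit 50) (.e (nat_lit 786481) (nat_lit 30) (.e (nat_lit 360455) (nat_lit 0) .nil))))) .nil)))) (.nd (nat_lit 5) (.nd (nat_lit 6) 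
(.lf (nat_lit 26143) (.g (nat_lit 1565) (.e (nat_lit 1191) (nat_lit 88) (.e (nat_lit 65630) (nat_lit 14) (.e (nat_lit 401459) (nat_lit 13) (.e (nat_lit 483375) (nat_lit 22) .nil)))) .nil)) 
(.lf (nat_lit 26207) (.g (nat_lit 1619) (.e (nat_lit 1192) (nat_lit 88) (.e (nat_lit 65624) (nat_lit 12) (.e (nat_lit 385093) (nat_lit 49) (.e (nat_lit 778326) (nat_lit 6) .nil)))) .nil))) (.nd (nat_lit 6) 
(.lf (nat_lit 26175) (.g (nat_lit 2952) (.e (nat_lit 1192) (nat_lit 88) (.e (nat_lit 65570) (nat_lit 3) (.e (nat_lit 98373) (nat_lit 29) (.e (nat_lit 450588) (nat_lit 10) (.e (nat_lit 573475) (nat_lit 12) (.e (nat_lit 57347) (nat_lit 0) (.e (nat_lit 7124) (nat_lit 382) .nil))))))) (.g (nat_lit 4) .nil .nil))) 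
(.lf (nat_lit 26239) (.g (nat_lit 1833) (.e (nat_lit 1192) (nat_lit 88) (.e (nat_lit 65627) (nat_lit 13) (.e (nat_lit 393301) (nat_lit 27) (.e (nat_lit 491558) (nat_lit 10) (.e (nat_lit 344091) (nat_lit 18) .nil))))) .nil)))))))))

noncomputable def tv368 : DT := (.nd (nat_lit 0) (.nd (nat_lit 1) (.nd (nat_lit 2) (.nd (nat_lit 3) (.nd (nat_lit 4) (.nd (nat_lit 5) (.nd (nat_lit 6) 
(.lf (nat_lit 26240) (.g (nat_lit 1889) (.e (nat_lit 1192) (nat_lit 88) (.e (nat_lit 65627) (nat_lit 13) (.e (nat_lit 393301) (nat_lit 27) (.e (nat_lit 491558) (nat_lit 10) (.e (nat_lit 344096) (nat_lit 18) .nil))))) .nil)) 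
(.lf (nat_lit 26304) (.g (nat_lit 552) (.e (nat_lit 1193) (nat_lit 88) (.e (nat_lit 65623) (nat_lit 12) (.e (nat_lit 385093) (nat_lit 49) .nil))) .nil))) (.nd (nat_lit 6) 
(.lf (nat_lit 26272) (.g (nat_lit 2681) (.e (nat_lit 1193) (nat_lit 88) (.e (nat_lit 65569) (nat_lit 3) (.e (nat_lit 98373) (nat_lit 29) (.e (nat_lit 450588) (nat_lit 10) (.e (nat_lit 573473) (nat_lit 12) .nil))))) .nil)) 
(.lf (nat_lit 26336) (.g (nat_lit 3089) (.e (nat_lit 1193) (nat_lit 88) (.e (nat_lit 65626) (nat_lit 13) (.e (nat_lit 393234) (nat_lit 17) (.e (nat_lit 7593) (nat_lit 407) (.e (nat_lit 73729) (nat_lit 0) (.e (nat_lit 7125) (nat_lit 382) .nil)))))) (.g (nat_lit 6) .nil .nil))))) (.nd (nat_lit 5) (.nd (nat_lit 6) 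
(.lf (nat_lit 26256) (.g (nat_lit 2569) (.e (nat_lit 1192) (nat_lit 88) (.e (nat_lit 65630) (nat_lit 14) (.e (nat_lit 401459) (nat_lit 13) (.e (nat_lit 483344) (nat_lit 17) .nil)))) .nil)) 
(.lf (nat_lit 26320) (.g (nat_lit 2017) (.e (nat_lit 1193) (nat_lit 88) (.e (nat_lit 65625) (nat_lit 13) (.e (nat_lit 393301) (nat_lit 27) (.e (nat_lit 491558) (nat_lit 10) (.e (nat_lit 344091) (nat_lit 18) (.e (nat_lit 7124) (nat_lit 382) .nil)))))) (.g (nat_lit 4) .nil .nil)))) (.nd (nat_lit 6) 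
(.lf (nat_lit 26288) (.g (nat_lit 2065) (.e (nat_lit 1193) (nat_lit 88) (.e (nat_lit 65586) (nat_lit 7) (.e (nat_lit 319531) (nat_lit 16) (.e (nat_lit 286767) (nat_lit 27) .nil)))) .nil)) 
(.lf (nat_lit 26352) (.g (nat_lit 2907) (.e (nat_lit 1193) (nat_lit 88) (.e (nat_lit 65626) (nat_lit 13) (.e (nat_lit 393301) (nat_lit 27) (.e (nat_lit 491560) (nat_lit 10) (.e (nat_lit 344094) (nat_lit 18) .nil))))) .nil))))) (.nd (nat_lit 4) (.nd (nat_lit 5) (.nd (nat_lit 6) 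
(.lf (nat_lit 26248) (.g (nat_lit 677) (.e (nat_lit 1192) (nat_lit 88) (.e (nat_lit 65630) (nat_lit 14) (.e (nat_lit 401436) (nat_lit 9) .nil))) .nil)) 
(.lf (nat_lit 26312) (.g (nat_lit 880) (.e (nat_lit 1193) (nat_lit 88) (.e (nat_lit 65625) (nat_lit 13) (.e (nat_lit 393300) (nat_lit 27) (.e (nat_lit 491558) (nat_lit 10) .nil)))) .nil))) (.nd (nat_lit 6) 
(.lf (nat_lit 26280) (.g (nat_lit 3535) (.e (nat_lit 1193) (nat_lit 88) (.e (nat_lit 65570) (nat_lit 3) (.e (nat_lit 98373) (nat_lit 29) (.e (nat_lit 450588) (nat_lit 10) (.e (nat_lit 573473) (nat_lit 12) (.e (nat_lit 57348) (nat_lit 0) (.e (nat_lit 7124) (nat_lit 382) .nil))))))) (.g (nat_lit 5) .nil .nil))) 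
(.lf (nat_lit 26344) (.g (nat_lit 2417) (.e (nat_lit 1193) (nat_lit 88) (.e (nat_lit 65626) (nat_lit 13) (.e (nat_lit 393300) (nat_lit 27) (.e (nat_lit 491560) (nat_lit 10) (.e (nat_lit 344094) (nat_lit 18) (.e (nat_lit 7125) (nat_lit 382) .nil)))))) (.g (nat_lit 5) .nil .nil))))) (.nd (nat_lit 5) (.nd (nat_lit 6) 
(.lf (nat_lit 26264) (.g (nat_lit 2431) (.e (nat_lit 1192) (nat_lit 88) (.e (nat_lit 65630) (nat_lit 14) (.e (nat_lit 401459) (nat_lit 13) (.e (nat_lit 483394) (nat_lit 24) .nil)))) .nil)) 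
(.lf (nat_lit 26328) (.g (nat_lit 2762) (.e (nat_lit 1193) (nat_lit 88) (.e (nat_lit 65625) (nat_lit 13) (.e (nat_lit 393301) (nat_lit 27) (.e (nat_lit 491560) (nat_lit 10) (.e (nat_lit 344096) (nat_lit 18) .nil))))) .nil))) (.nd (nat_lit 6) 
(.lf (nat_lit 26296) (.g (nat_lit 2124) (.e (nat_lit 1193) (nat_lit 88) (.e (nat_lit 65617) (nat_lit 10) (.e (nat_lit 344097) (nat_lit 18) (.e (nat_lit 5906) (nat_lit 320) (.e (nat_lit 1221) (nat_lit 90) (.e (nat_lit 81959) (nat_lit 24) (.e (nat_lit 123182) (nat_lit 264) .nil))))))) (.g (nat_lit 4) .nil .nil))) 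
(.lf (nat_lit 26360) (.g (nat_lit 1190) (.e (nat_lit 1193) (nat_lit 88) (.e (nat_lit 65628) (nat_lit 14) (.e (nat_lit 401437) (nat_lit 9) (.e (nat_lit 426509) (nat_lit 27) .nil)))) .nil)))))) (.nd (nat_lit 3) (.nd (nat_lit 4) (.nd (nat_lit 5) (.nd (nat_lit 6) 
(.lf (nat_lit 26244) (.g (nat_lit 2915) (.e (nat_lit 1192) (nat_lit 88) (.e (nat_lit 65629) (nat_lit 14) (.e (nat_lit 401459) (nat_lit 13) (.e (nat_lit 483350) (nat_lit 17) .nil)))) .nil)) 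
(.lf (nat_lit 26308) (.g (nat_lit 1907) (.e (nat_lit 1193) (nat_lit 88) (.e (nat_lit 65625) (nat_lit 13) (.e (nat_lit 393234) (nat_lit 17) (.e (nat_lit 7591) (nat_lit 407) (.e (nat_lit 73731) (nat_lit 0) (.e (nat_lit 7125) (nat_lit 382) .nil)))))) (.g (nat_lit 4) .nil .nil)))) (.nd (nat_lit 6) 
(.lf (nat_lit 26276) (.g (nat_lit 1894) (.e (nat_lit 1193) (nat_lit 88) (.e (nat_lit 65570) (nat_lit 3) (.e (nat_lit 98373) (nat_lit 29) (.e (nat_lit 450587) (nat_lit 10) (.e (nat_lit 573478) (nat_lit 12) (.e (nat_lit 57351) (nat_lit 0) (.e (nat_lit 7125) (nat_lit 382) .nil))))))) (.g (nat_lit 4) .nil .nil))) 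
(.lf (nat_lit 26340) (.g (nat_lit 3132) (.e (nat_lit 1193) (nat_lit 88) (.e (nat_lit 65626) (nat_lit 13) (.e (nat_lit 393300) (nat_lit 27) (.e (nat_lit 491558) (nat_lit 10) (.e (nat_lit 344091) (nat_lit 18) (.e (nat_lit 7125) (nat_lit 382) .nil)))))) (.g (nat_lit 6) .nil .nil))))) (.nd (nat_lit 5) (.nd (nat_lit 6) 
(.lf (nat_lit 26260) (.g (nat_lit 2679) (.e (nat_lit 1192) (nat_lit 88) (.e (nat_lit 65630) (nat_lit 14) (.e (nat_lit 401459) (nat_lit 13) (.e (nat_lit 483375) (nat_lit 22) .nil)))) .nil)) 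
(.lf (nat_lit 26324) (.g (nat_lit 2104) (.e (nat_lit 1193) (nat_lit 88) (.e (nat_lit 65625) (nat_lit 13) (.e (nat_lit 393301) (nat_lit 27) (.e (nat_lit 491560) (nat_lit 10) (.e (nat_lit 344090) (nat_lit 18) (.e (nat_lit 7124) (nat_lit 382) .nil)))))) (.g (nat_lit 4) .nil .nil)))) (.nd (nat_lit 6) 
(.lf (nat_lit 26292) (.g (nat_lit 1595) (.e (nat_lit 1193) (nat_lit 88) (.e (nat_lit 65586) (nat_lit 7) (.e (nat_lit 319539) (nat_lit 19) (.e (nat_lit 311358) (nat_lit 29) (.e (nat_lit 352318) (nat_lit 24) (.e (nat_lit 123185) (nat_lit 264) .nil)))))) (.g (nat_lit 5) .nil .nil))) 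
(.lf (nat_lit 26356) (.g (nat_lit 2218) (.e (nat_lit 1193) (nat_lit 88) (.e (nat_lit 65628) (nat_lit 14) (.e (nat_lit 401436) (nat_lit 9) (.e (nat_lit 426542) (nat_lit 29) (.e (nat_lit 352316) (nat_lit 24) (.e (nat_lit 123185) (nat_lit 264) .nil)))))) (.g (nat_lit 5) .nil .nil)))))) (.nd (nat_lit 4) (.nd (nat_lit 5) (.nd (nat_lit 6) 
(.lf (nat_lit 26252) (.g (nat_lit 2326) (.e (nat_lit 1192) (nat_lit 88) (.e (nat_lit 65630) (nat_lit 14) (.e (nat_lit 401438) (nat_lit 9) (.e (nat_lit 426542) (nat_lit 29) (.e (nat_lit 352318) (nat_lit 24) .nil))))) .nil)) 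
(.lf (nat_lit 26316) (.g (nat_lit 1755) (.e (nat_lit 1193) (nat_lit 88) (.e (nat_lit 65625) (nat_lit 13) (.e (nat_lit 393300) (nat_lit 27) (.e (nat_lit 491560) (nat_lit 10) (.e (nat_lit 344091) (nat_lit 18) (.e (nat_lit 7125) (nat_lit 382) .nil)))))) (.g (nat_lit 4) .nil .nil)))) (.nd (nat_lit 6) 
(.lf (nat_lit 26284) (.g (nat_lit 4318) (.e (nat_lit 1193) (nat_lit 88) (.e (nat_lit 65570) (nat_lit 3) (.e (nat_lit 98373) (nat_lit 29) (.e (nat_lit 450588) (nat_lit 10) (.e (nat_lit 573475) (nat_lit 12) (.e (nat_lit 57348) (nat_lit 0) (.e (nat_lit 7125) (nat_lit 382) .nil))))))) (.g (nat_lit 6) .nil .nil))) 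
(.lf (nat_lit 26348) (.g (nat_lit 2823) (.e (nat_lit 1193) (nat_lit 88) (.e (nat_lit 65626) (nat_lit 13) (.e (nat_lit 393301) (nat_lit 27) (.e (nat_lit 491558) (nat_lit 10) (.e (nat_lit 344096) (nat_lit 18) .nil))))) .nil)))) (.nd (nat_lit 5) (.nd (nat_lit 6) 
(.lf (nat_lit 26268) (.g (nat_lit 592) (.e (nat_lit 1192) (nat_lit 88) (.e (nat_lit 65648) (nat_lit 26) (.e (nat_lit 417796) (nat_lit 0) (.e (nat_lit 5393) (nat_lit 301) .nil)))) .nil)) 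
(.lf (nat_lit 26332) (.g (nat_lit 3146) (.e (nat_lit 1193) (nat_lit 88) (.e (nat_lit 65626) (nat_lit 13) (.e (nat_lit 393234) (nat_lit 17) (.e (nat_lit 7591) (nat_lit 407) (.e (nat_lit 73729) (nat_lit 0) (.e (nat_lit 7125) (nat_lit 382) .nil)))))) (.g (nat_lit 6) .nil .nil)))) (.nd (nat_lit 6) 
(.lf (nat_lit 26300) (.g (nat_lit 2860) (.e (nat_lit 1193) (nat_lit 88) (.e (nat_lit 65622) (nat_lit 12) (.e (nat_lit 385094) (nat_lit 49) (.e (nat_lit 778327) (nat_lit 6) (.e (nat_lit 81957) (nat_lit 24) (.e (nat_lit 123182) (nat_lit 264) .nil)))))) (.g (nat_lit 6) .nil .nil))) 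
(.lf (nat_lit 26364) (.g (nat_lit 2859) (.e (nat_lit 1193) (nat_lit 88) (.e (nat_lit 65628) (nat_lit 14) (.e (nat_lit 401437) (nat_lit 9) (.e (nat_lit 426542) (nat_lit 29) (.e (nat_lit 352317) (nat_lit 24) .nil))))) .nil))))))) (.nd (nat_lit 2) (.nd (nat_lit 3) (.nd (nat_lit 4) (.nd (nat_lit 5) (.nd (nat_lit 6) 
(.lf (nat_lit 26242) (.g (nat_lit 1895) (.e (nat_lit 1192) (nat_lit 88) (.e (nat_lit 65627) (nat_lit 13) (.e (nat_lit 393301) (nat_lit 27) (.e (nat_lit 491560) (nat_lit 10) (.e (nat_lit 344094) (nat_lit 18) .nil))))) .nil)) 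
(.lf (nat_lit 26306) (.g (nat_lit 1297) (.e (nat_lit 1193) (nat_lit 88) (.e (nat_lit 65623) (nat_lit 12) (.e (nat_lit 385094) (nat_lit 49) (.e (nat_lit 778326) (nat_lit 6) (.e (nat_lit 81959) (nat_lit 24) (.e (nat_lit 123185) (nat_lit 264) .nil)))))) (.g (nat_lit 4) .nil .nil)))) (.nd (nat_lit 6) 
(.lf (nat_lit 26274) (.g (nat_lit 1854) (.e (nat_lit 1193) (nat_lit 88) (.e (nat_lit 65570) (nat_lit 3) (.e (nat_lit 98373) (nat_lit 29) (.e (nat_lit 450587) (nat_lit 10) (.e (nat_lit 573477) (nat_lit 12) .nil))))) .nil)) 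
(.lf (nat_lit 26338) (.g (nat_lit 1932) (.e (nat_lit 1193) (nat_lit 88) (.e (nat_lit 65626) (nat_lit 13) (.e (nat_lit 393300) (nat_lit 27) (.e (nat_lit 491558) (nat_lit 10) (.e (nat_lit 344090) (nat_lit 18) (.e (nat_lit 7124) (nat_lit 382) .nil)))))) (.g (nat_lit 4) .nil .nil))))) (.nd (nat_lit 5) (.nd (nat_lit 6) 
(.lf (nat_lit 26258) (.g (nat_lit 2658) (.e (nat_lit 1192) (nat_lit 88) (.e (nat_lit 65630) (nat_lit 14) (.e (nat_lit 401459) (nat_lit 13) (.e (nat_lit 483372) (nat_lit 21) .nil)))) .nil)) 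
(.lf (nat_lit 26322) (.g (nat_lit 2076) (.e (nat_lit 1193) (nat_lit 88) (.e (nat_lit 65625) (nat_lit 13) (.e (nat_lit 393301) (nat_lit 27) (.e (nat_lit 491558) (nat_lit 10) (.e (nat_lit 344096) (nat_lit 18) .nil))))) .nil))) (.nd (nat_lit 6) 
(.lf (nat_lit 26290) (.g (nat_lit 2816) (.e (nat_lit 1193) (nat_lit 88) (.e (nat_lit 65586) (nat_lit 7) (.e (nat_lit 319534) (nat_lit 16) (.e (nat_lit 286756) (nat_lit 10) (.e (nat_lit 344160) (nat_lit 37) .nil))))) .nil)) 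
(.lf (nat_lit 26354) (.g (nat_lit 3294) (.e (nat_lit 1193) (nat_lit 88) (.e (nat_lit 65626) (nat_lit 13) (.e (nat_lit 393301) (nat_lit 27) (.e (nat_lit 491560) (nat_lit 10) (.e (nat_lit 344096) (nat_lit 18) .nil))))) .nil))))) (.nd (nat_lit 4) (.nd (nat_lit 5) (.nd (nat_lit 6) 
(.lf (nat_lit 26250) (.g (nat_lit 2069) (.e (nat_lit 1192) (nat_lit 88) (.e (nat_lit 65630) (nat_lit 14) (.e (nat_lit 401437) (nat_lit 9) (.e (nat_lit 426546) (nat_lit 30) .nil)))) .nil)) 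
(.lf (nat_lit 26314) (.g (nat_lit 1956) (.e (nat_lit 1193) (nat_lit 88) (.e (nat_lit 65625) (nat_lit 13) (.e (nat_lit 393300) (nat_lit 27) (.e (nat_lit 491558) (nat_lit 10) (.e (nat_lit 344096) (nat_lit 18) (.e (nat_lit 7125) (nat_lit 382) .nil)))))) (.g (nat_lit 4) .nil .nil)))) (.nd (nat_lit 6) 
(.lf (nat_lit 26282) (.g (nat_lit 5254) (.e (nat_lit 1193) (nat_lit 88) (.e (nat_lit 65570) (nat_lit 3) (.e (nat_lit 98373) (nat_lit 29) (.e (nat_lit 450588) (nat_lit 10) (.e (nat_lit 573475) (nat_lit 12) (.e (nat_lit 57347) (nat_lit 0) (.e (nat_lit 7125) (nat_lit 382) .nil))))))) (.g (nat_lit 7) .nil .nil))) 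
(.lf (nat_lit 26346) (.g (nat_lit 2907) (.e (nat_lit 1193) (nat_lit 88) (.e (nat_lit 65626) (nat_lit 13) (.e (nat_lit 393301) (nat_lit 27) (.e (nat_lit 491558) (nat_lit 10) (.e (nat_lit 344090) (nat_lit 18) .nil))))) .nil)))) (.nd (nat_lit 5) (.nd (nat_lit 6) 
(.lf (nat_lit 26266) (.g (nat_lit 2880) (.e (nat_lit 1192) (nat_lit 88) (.e (nat_lit 65630) (nat_lit 14) (.e (nat_lit 401459) (nat_lit 13) (.e (nat_lit 483396) (nat_lit 24) .nil)))) .nil)) 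
(.lf (nat_lit 26330) (.g (nat_lit 1785) (.e (nat_lit 1193) (nat_lit 88) (.e (nat_lit 65626) (nat_lit 13) (.e (nat_lit 393233) (nat_lit 17) (.e (nat_lit 7591) (nat_lit 407) (.e (nat_lit 73731) (nat_lit 0) (.e (nat_lit 7125) (nat_lit 382) .nil)))))) (.g (nat_lit 4) .nil .nil)))) (.nd (nat_lit 6) 
(.lf (nat_lit 26298) (.g (nat_lit 1264) (.e (nat_lit 1193) (nat_lit 88) (.e (nat_lit 65622) (nat_lit 12) (.e (nat_lit 385093) (nat_lit 49) (.e (nat_lit 778327) (nat_lit 6) .nil)))) .nil)) 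
(.lf (nat_lit 26362) (.g (nat_lit 3206) (.e (nat_lit 1193) (nat_lit 88) (.e (nat_lit 65628) (nat_lit 14) (.e (nat_lit 401437) (nat_lit 9) (.e (nat_lit 426540) (nat_lit 29) (.e (nat_lit 352316) (nat_lit 24) .nil))))) .nil)))))) (.nd (nat_lit 3) (.nd (nat_lit 4) (.nd (nat_lit 5) (.nd (nat_lit 6) 
(.lf (nat_lit 26246) (.g (nat_lit 2383) (.e (nat_lit 1192) (nat_lit 88) (.e (nat_lit 65629) (nat_lit 14) (.e (nat_lit 401459) (nat_lit 13) (.e (nat_lit 483375) (nat_lit 22) .nil)))) .nil)) 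
(.lf (nat_lit 26310) (.g (nat_lit 1849) (.e (nat_lit 1193) (nat_lit 88) (.e (nat_lit 65625) (nat_lit 13) (.e (nat_lit 393234) (nat_lit 17) (.e (nat_lit 7593) (nat_lit 407) (.e (nat_lit 73731) (nat_lit 0) (.e (nat_lit 7125) (nat_lit 382) .nil)))))) (.g (nat_lit 4) .nil .nil)))) (.nd (nat_lit 6) 
(.lf (nat_lit 26278) (.g (nat_lit 2824) (.e (nat_lit 1193) (nat_lit 88) (.e (nat_lit 65570) (nat_lit 3) (.e (nat_lit 98373) (nat_lit 29) (.e (nat_lit 450588) (nat_lit 10) (.e (nat_lit 573473) (nat_lit 12) .nil))))) .nil)) 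
(.lf (nat_lit 26342) (.g (nat_lit 1859) (.e (nat_lit 1193) (nat_lit 88) (.e (nat_lit 65626) (nat_lit 13) (.e (nat_lit 393300) (nat_lit 27) (.e (nat_lit 491560) (nat_lit 10) (.e (nat_lit 344091) (nat_lit 18) (.e (nat_lit 7124) (nat_lit 382) .nil)))))) (.g (nat_lit 4) .nil .nil))))) (.nd (nat_lit 5) (.nd (nat_lit 6) 
(.lf (nat_lit 26262) (.g (nat_lit 2877) (.e (nat_lit 1192) (nat_lit 88) (.e (nat_lit 65630) (nat_lit 14) (.e (nat_lit 401459) (nat_lit 13) (.e (nat_lit 483387) (nat_lit 23) .nil)))) .nil)) 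
(.lf (nat_lit 26326) (.g (nat_lit 1989) (.e (nat_lit 1193) (nat_lit 88) (.e (nat_lit 65625) (nat_lit 13) (.e (nat_lit 393301) (nat_lit 27) (.e (nat_lit 491560) (nat_lit 10) (.e (nat_lit 344094) (nat_lit 18) .nil))))) .nil))) (.nd (nat_lit 6) 
(.lf (nat_lit 26294) (.g (nat_lit 2895) (.e (nat_lit 1193) (nat_lit 88) (.e (nat_lit 65599) (nat_lit 9) (.e (nat_lit 335997) (nat_lit 1) (.e (nat_lit 57872) (nat_lit 264) (.e (nat_lit 1221) (nat_lit 90) (.e (nat_lit 81959) (nat_lit 24) (.e (nat_lit 123182) (nat_lit 264) .nil))))))) (.g (nat_lit 7) .nil .nil))) 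
(.lf (nat_lit 26358) (.g (nat_lit 1655) (.e (nat_lit 1193) (nat_lit 88) (.e (nat_lit 65628) (nat_lit 14) (.e (nat_lit 401436) (nat_lit 9) (.e (nat_lit 426544) (nat_lit 30) (.e (nat_lit 360457) (nat_lit 0) (.e (nat_lit 5818) (nat_lit 320) .nil)))))) (.g (nat_lit 4) .nil .nil)))))) (.nd (nat_lit 4) (.nd (nat_lit 5) (.nd (nat_lit 6) 
(.lf (nat_lit 26254) (.g (nat_lit 1710) (.e (nat_lit 1192) (nat_lit 88) (.e (nat_lit 65630) (nat_lit 14) (.e (nat_lit 401438) (nat_lit 9) (.e (nat_lit 426546) (nat_lit 30) .nil)))) .nil)) 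
(.lf (nat_lit 26318) (.g (nat_lit 1928) (.e (nat_lit 1193) (nat_lit 88) (.e (nat_lit 65625) (nat_lit 13) (.e (nat_lit 393300) (nat_lit 27) (.e (nat_lit 491560) (nat_lit 10) (.e (nat_lit 344096) (nat_lit 18) (.e (nat_lit 7125) (nat_lit 382) .nil)))))) (.g (nat_lit 4) .nil .nil)))) (.nd (nat_lit 6) 
(.lf (nat_lit 26286) (.g (nat_lit 1703) (.e (nat_lit 1193) (nat_lit 88) (.e (nat_lit 65585) (nat_lit 7) (.e (nat_lit 319539) (nat_lit 19) (.e (nat_lit 311358) (nat_lit 29) (.e (nat_lit 352318) (nat_lit 24) (.e (nat_lit 123185) (nat_lit 264) .nil)))))) (.g (nat_lit 0) .nil .nil))) 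
(.lf (nat_lit 26350) (.g (nat_lit 3848) (.e (nat_lit 1193) (nat_lit 88) (.e (nat_lit 65626) (nat_lit 13) (.e (nat_lit 393301) (nat_lit 27) (.e (nat_lit 491560) (nat_lit 10) (.e (nat_lit 344090) (nat_lit 18) (.e (nat_lit 7125) (nat_lit 382) .nil)))))) (.g (nat_lit 5) .nil .nil))))) (.nd (nat_lit 5) (.nd (nat_lit 6) 
(.lf (nat_lit 26270) (.g (nat_lit 2338) (.e (nat_lit 1193) (nat_lit 88) (.e (nat_lit 65566) (nat_lit 2) (.e (nat_lit 90170) (nat_lit 13) (.e (nat_lit 172113) (nat_lit 10) (.e (nat_lit 434248) (nat_lit 28) (.e (nat_lit 573475) (nat_lit 12) (.e (nat_lit 57347) (nat_lit 0) (.e (nat_lit 7124) (nat_lit 382) .nil)))))))) (.g (nat_lit 4) .nil .nil))) 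
(.lf (nat_lit 26334) (.g (nat_lit 1843) (.e (nat_lit 1193) (nat_lit 88) (.e (nat_lit 65626) (nat_lit 13) (.e (nat_lit 393234) (nat_lit 17) (.e (nat_lit 7591) (nat_lit 407) (.e (nat_lit 73731) (nat_lit 0) (.e (nat_lit 7124) (nat_lit 382) .nil)))))) (.g (nat_lit 4) .nil .nil)))) (.nd (nat_lit 6) 
(.lf (nat_lit 26302) (.g (nat_lit 1115) (.e (nat_lit 1193) (nat_lit 88) (.e (nat_lit 65622) (nat_lit 12) (.e (nat_lit 385105) (nat_lit 50) (.e (nat_lit 786481) (nat_lit 30) .nil)))) .nil)) 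
(.lf (nat_lit 26366) (.g (nat_lit 4408) (.e (nat_lit 1193) (nat_lit 88) (.e (nat_lit 65628) (nat_lit 14) (.e (nat_lit 401437) (nat_lit 9) (.e (nat_lit 426542) (nat_lit 29) (.e (nat_lit 352318) (nat_lit 24) (.e (nat_lit 123182) (nat_lit 264) .nil)))))) (.g (nat_lit 0) .nil .nil))))))))) (.nd (nat_lit 1) (.nd (nat_lit 2) (.nd (nat_lit 3) (.nd (nat_lit 4) (.nd (nat_lit 5) (.nd (nat_lit 6) 
(.lf (nat_lit 26241) (.g (nat_lit 1968) (.e (nat_lit 1192) (nat_lit 88) (.e (nat_lit 65627) (nat_lit 13) (.e (nat_lit 393301) (nat_lit 27) (.e (nat_lit 491560) (nat_lit 10) (.e (nat_lit 344090) (nat_lit 18) .nil))))) .nil)) 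
(.lf (nat_lit 26305) (.g (nat_lit 1362) (.e (nat_lit 1193) (nat_lit 88) (.e (nat_lit 65623) (nat_lit 12) (.e (nat_lit 385094) (nat_lit 49) (.e (nat_lit 778326) (nat_lit 6) (.e (nat_lit 81957) (nat_lit 24) (.e (nat_lit 123185) (nat_lit 264) .nil)))))) (.g (nat_lit 4) .nil .nil)))) (.nd (nat_lit 6) 
(.lf (nat_lit 26273) (.g (nat_lit 2733) (.e (nat_lit 1193) (nat_lit 88) (.e (nat_lit 65569) (nat_lit 3) (.e (nat_lit 98373) (nat_lit 29) (.e (nat_lit 450588) (nat_lit 10) (.e (nat_lit 573475) (nat_lit 12) .nil))))) .nil)) 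
(.lf (nat_lit 26337) (.g (nat_lit 1745) (.e (nat_lit 1193) (nat_lit 88) (.e (nat_lit 65626) (nat_lit 13) (.e (nat_lit 393234) (nat_lit 17) (.e (nat_lit 7593) (nat_lit 407) (.e (nat_lit 73731) (nat_lit 0) .nil))))) .nil)))) (.nd (nat_lit 5) (.nd (nat_lit 6) 
(.lf (nat_lit 26257) (.g (nat_lit 2818) (.e (nat_lit 1192) (nat_lit 88) (.e (nat_lit 65630) (nat_lit 14) (.e (nat_lit 401459) (nat_lit 13) (.e (nat_lit 483350) (nat_lit 17) .nil)))) .nil)) 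
(.lf (nat_lit 26321) (.g (nat_lit 2779) (.e (nat_lit 1193) (nat_lit 88) (.e (nat_lit 65625) (nat_lit 13) (.e (nat_lit 393301) (nat_lit 27) (.e (nat_lit 491558) (nat_lit 10) (.e (nat_lit 344091) (nat_lit 18) (.e (nat_lit 7125) (nat_lit 382) .nil)))))) (.g (nat_lit 5) .nil .nil)))) (.nd (nat_lit 6) 
(.lf (nat_lit 26289) (.g (nat_lit 2182) (.e (nat_lit 1193) (nat_lit 88) (.e (nat_lit 65586) (nat_lit 7) (.e (nat_lit 319534) (nat_lit 16) (.e (nat_lit 286756) (nat_lit 10) .nil)))) .nil)) 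
(.lf (nat_lit 26353) (.g (nat_lit 3417) (.e (nat_lit 1193) (nat_lit 88) (.e (nat_lit 65626) (nat_lit 13) (.e (nat_lit 393301) (nat_lit 27) (.e (nat_lit 491560) (nat_lit 10) (.e (nat_lit 344094) (nat_lit 18) (.e (nat_lit 7125) (nat_lit 382) .nil)))))) (.g (nat_lit 5) .nil .nil)))))) (.nd (nat_lit 4) (.nd (nat_lit 5) (.nd (nat_lit 6) 
(.lf (nat_lit 26249) (.g (nat_lit 2010) (.e (nat_lit 1192) (nat_lit 88) (.e (nat_lit 65630) (nat_lit 14) (.e (nat_lit 401437) (nat_lit 9) (.e (nat_lit 426544) (nat_lit 30) .nil)))) .nil)) 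
(.lf (nat_lit 26313) (.g (nat_lit 1518) (.e (nat_lit 1193) (nat_lit 88) (.e (nat_lit 65625) (nat_lit 13) (.e (nat_lit 393300) (nat_lit 27) (.e (nat_lit 491558) (nat_lit 10) (.e (nat_lit 344090) (nat_lit 18) .nil))))) .nil))) (.nd (nat_lit 6) 
(.lf (nat_lit 26281) (.g (nat_lit 2836) (.e (nat_lit 1193) (nat_lit 88) (.e (nat_lit 65570) (nat_lit 3) (.e (nat_lit 98373) (nat_lit 29) (.e (nat_lit 450588) (nat_lit 10) (.e (nat_lit 573475) (nat_lit 12) .nil))))) .nil)) 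
(.lf (nat_lit 26345) (.g (nat_lit 2159) (.e (nat_lit 1193) (nat_lit 88) (.e (nat_lit 65626) (nat_lit 13) (.e (nat_lit 393300) (nat_lit 27) (.e (nat_lit 491560) (nat_lit 10) (.e (nat_lit 344096) (nat_lit 18) (.e (nat_lit 7124) (nat_lit 382) .nil)))))) (.g (nat_lit 4) .nil .nil))))) (.nd (nat_lit 5) (.nd (nat_lit 6) 
(.lf (nat_lit 26265) (.g (nat_lit 2389) (.e (nat_lit 1192) (nat_lit 88) (.e (nat_lit 65630) (nat_lit 14) (.e (nat_lit 401459) (nat_lit 13) (.e (nat_lit 483395) (nat_lit 24) .nil)))) .nil)) 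
(.lf (nat_lit 26329) (.g (nat_lit 2905) (.e (nat_lit 1193) (nat_lit 88) (.e (nat_lit 65625) (nat_lit 13) (.e (nat_lit 393301) (nat_lit 27) (.e (nat_lit 491560) (nat_lit 10) (.e (nat_lit 344096) (nat_lit 18) (.e (nat_lit 7125) (nat_lit 382) .nil)))))) (.g (nat_lit 4) .nil .nil)))) (.nd (nat_lit 6) 
(.lf (nat_lit 26297) (.g (nat_lit 2646) (.e (nat_lit 1193) (nat_lit 88) (.e (nat_lit 65618) (nat_lit 10) (.e (nat_lit 344097) (nat_lit 18) (.e (nat_lit 5906) (nat_lit 320) (.e (nat_lit 1221) (nat_lit 90) (.e (nat_lit 81959) (nat_lit 24) (.e (nat_lit 123182) (nat_lit 264) .nil))))))) (.g (nat_lit 6) .nil .nil))) 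
(.lf (nat_lit 26361) (.g (nat_lit 1824) (.e (nat_lit 1193) (nat_lit 88) (.e (nat_lit 65628) (nat_lit 14) (.e (nat_lit 401437) (nat_lit 9) (.e (nat_lit 426538) (nat_lit 29) .nil)))) .nil)))))) (.nd (nat_lit 3) (.nd (nat_lit 4) (.nd (nat_lit 5) (.nd (nat_lit 6) 
(.lf (nat_lit 26245) (.g (nat_lit 4087) (.e (nat_lit 1192) (nat_lit 88) (.e (nat_lit 65629) (nat_lit 14) (.e (nat_lit 401459) (nat_lit 13) (.e (nat_lit 483350) (nat_lit 17) (.e (nat_lit 6113) (nat_lit 332) .nil))))) .nil)) 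
(.lf (nat_lit 26309) (.g (nat_lit 959) (.e (nat_lit 1193) (nat_lit 88) (.e (nat_lit 65625) (nat_lit 13) (.e (nat_lit 393234) (nat_lit 17) (.e (nat_lit 7593) (nat_lit 407) .nil)))) .nil))) (.nd (nat_lit 6) 
(.lf (nat_lit 26277) (.g (nat_lit 2046) (.e (nat_lit 1193) (nat_lit 88) (.e (nat_lit 65570) (nat_lit 3) (.e (nat_lit 98373) (nat_lit 29) (.e (nat_lit 450587) (nat_lit 10) (.e (nat_lit 573478) (nat_lit 12) (.e (nat_lit 57353) (nat_lit 0) (.e (nat_lit 7125) (nat_lit 382) .nil))))))) (.g (nat_lit 4) .nil .nil))) 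
(.lf (nat_lit 26341) (.g (nat_lit 1876) (.e (nat_lit 1193) (nat_lit 88) (.e (nat_lit 65626) (nat_lit 13) (.e (nat_lit 393300) (nat_lit 27) (.e (nat_lit 491558) (nat_lit 10) (.e (nat_lit 344095) (nat_lit 18) .nil))))) .nil)))) (.nd (nat_lit 5) (.nd (nat_lit 6) 
(.lf (nat_lit 26261) (.g (nat_lit 2439) (.e (nat_lit 1192) (nat_lit 88) (.e (nat_lit 65630) (nat_lit 14) (.e (nat_lit 401459) (nat_lit 13) (.e (nat_lit 483386) (nat_lit 23) .nil)))) .nil)) 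
(.lf (nat_lit 26325) (.g (nat_lit 2604) (.e (nat_lit 1193) (nat_lit 88) (.e (nat_lit 65625) (nat_lit 13) (.e (nat_lit 393301) (nat_lit 27) (.e (nat_lit 491560) (nat_lit 10) (.e (nat_lit 344091) (nat_lit 18) .nil))))) .nil))) (.nd (nat_lit 6) 
(.lf (nat_lit 26293) (.g (nat_lit 3248) (.e (nat_lit 1193) (nat_lit 88) (.e (nat_lit 65598) (nat_lit 9) (.e (nat_lit 335997) (nat_lit 1) (.e (nat_lit 57870) (nat_lit 264) (.e (nat_lit 1221) (nat_lit 90) (.e (nat_lit 81959) (nat_lit 24) (.e (nat_lit 123182) (nat_lit 264) .nil))))))) (.g (nat_lit 7) .nil .nil))) 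
(.lf (nat_lit 26357) (.g (nat_lit 2277) (.e (nat_lit 1193) (nat_lit 88) (.e (nat_lit 65628) (nat_lit 14) (.e (nat_lit 401436) (nat_lit 9) (.e (nat_lit 426542) (nat_lit 29) (.e (nat_lit 352318) (nat_lit 24) (.e (nat_lit 123185) (nat_lit 264) .nil)))))) (.g (nat_lit 5) .nil .nil)))))) (.nd (nat_lit 4) (.nd (nat_lit 5) (.nd (nat_lit 6) 
(.lf (nat_lit 26253) (.g (nat_lit 1711) (.e (nat_lit 1192) (nat_lit 88) (.e (nat_lit 65630) (nat_lit 14) (.e (nat_lit 401438) (nat_lit 9) (.e (nat_lit 426544) (nat_lit 30) .nil)))) .nil)) 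
(.lf (nat_lit 26317) (.g (nat_lit 1743) (.e (nat_lit 1193) (nat_lit 88) (.e (nat_lit 65625) (nat_lit 13) (.e (nat_lit 393300) (nat_lit 27) (.e (nat_lit 491560) (nat_lit 10) (.e (nat_lit 344094) (nat_lit 18) .nil))))) .nil))) (.nd (nat_lit 6) 
(.lf (nat_lit 26285) (.g (nat_lit 2850) (.e (nat_lit 1193) (nat_lit 88) (.e (nat_lit 65570) (nat_lit 3) (.e (nat_lit 98373) (nat_lit 29) (.e (nat_lit 450588) (nat_lit 10) (.e (nat_lit 573475) (nat_lit 12) (.e (nat_lit 57351) (nat_lit 0) (.e (nat_lit 7122) (nat_lit 382) .nil))))))) (.g (nat_lit 4) .nil .nil))) 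
(.lf (nat_lit 26349) (.g (nat_lit 3361) (.e (nat_lit 1193) (nat_lit 88) (.e (nat_lit 65626) (nat_lit 13) (.e (nat_lit 393301) (nat_lit 27) (.e (nat_lit 491560) (nat_lit 10) (.e (nat_lit 344090) (nat_lit 18) (.e (nat_lit 7124) (nat_lit 382) .nil)))))) (.g (nat_lit 4) .nil .nil))))) (.nd (nat_lit 5) (.nd (nat_lit 6) 
(.lf (nat_lit 26269) (.g (nat_lit 2391) (.e (nat_lit 1193) (nat_lit 88) (.e (nat_lit 65566) (nat_lit 2) (.e (nat_lit 90170) (nat_lit 13) (.e (nat_lit 172113) (nat_lit 10) (.e (nat_lit 434248) (nat_lit 28) (.e (nat_lit 573473) (nat_lit 12) (.e (nat_lit 57348) (nat_lit 0) (.e (nat_lit 7125) (nat_lit 382) .nil)))))))) (.g (nat_lit 4) .nil .nil))) 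
(.lf (nat_lit 26333) (.g (nat_lit 1691) (.e (nat_lit 1193) (nat_lit 88) (.e (nat_lit 65626) (nat_lit 13) (.e (nat_lit 393234) (nat_lit 17) (.e (nat_lit 7591) (nat_lit 407) (.e (nat_lit 73731) (nat_lit 0) .nil))))) .nil))) (.nd (nat_lit 6) 
(.lf (nat_lit 26301) (.g (nat_lit 1180) (.e (nat_lit 1193) (nat_lit 88) (.e (nat_lit 65622) (nat_lit 12) (.e (nat_lit 385105) (nat_lit 50) (.e (nat_lit 786478) (nat_lit 29) .nil)))) .nil)) 
(.lf (nat_lit 26365) (.g (nat_lit 2423) (.e (nat_lit 1193) (nat_lit 88) (.e (nat_lit 65628) (nat_lit 14) (.e (nat_lit 401437) (nat_lit 9) (.e (nat_lit 426542) (nat_lit 29) (.e (nat_lit 352318) (nat_lit 24) .nil))))) .nil))))))) (.nd (nat_lit 2) (.nd (nat_lit 3) (.nd (nat_lit 4) (.nd (nat_lit 5) (.nd (nat_lit 6) 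
(.lf (nat_lit 26243) (.g (nat_lit 490) (.e (nat_lit 1192) (nat_lit 88) (.e (nat_lit 65629) (nat_lit 14) (.e (nat_lit 401459) (nat_lit 13) .nil))) .nil)) 
(.lf (nat_lit 26307) (.g (nat_lit 954) (.e (nat_lit 1193) (nat_lit 88) (.e (nat_lit 65625) (nat_lit 13) (.e (nat_lit 393234) (nat_lit 17) (.e (nat_lit 7591) (nat_lit 407) .nil)))) .nil))) (.nd (nat_lit 6) 
(.lf (nat_lit 26275) (.g (nat_lit 2242) (.e (nat_lit 1193) (nat_lit 88) (.e (nat_lit 65570) (nat_lit 3) (.e (nat_lit 98373) (nat_lit 29) (.e (nat_lit 450587) (nat_lit 10) (.e (nat_lit 573477) (nat_lit 12) (.e (nat_lit 57353) (nat_lit 0) (.e (nat_lit 7125) (nat_lit 382) .nil))))))) (.g (nat_lit 5) .nil .nil))) 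
(.lf (nat_lit 26339) (.g (nat_lit 1814) (.e (nat_lit 1193) (nat_lit 88) (.e (nat_lit 65626) (nat_lit 13) (.e (nat_lit 393300) (nat_lit 27) (.e (nat_lit 491558) (nat_lit 10) (.e (nat_lit 344091) (nat_lit 18) .nil))))) .nil)))) (.nd (nat_lit 5) (.nd (nat_lit 6) 
(.lf (nat_lit 26259) (.g (nat_lit 2980) (.e (nat_lit 1192) (nat_lit 88) (.e (nat_lit 65630) (nat_lit 14) (.e (nat_lit 401459) (nat_lit 13) (.e (nat_lit 483374) (nat_lit 22) .nil)))) .nil)) 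
(.lf (nat_lit 26323) (.g (nat_lit 2153) (.e (nat_lit 1193) (nat_lit 88) (.e (nat_lit 65625) (nat_lit 13) (.e (nat_lit 393301) (nat_lit 27) (.e (nat_lit 491558) (nat_lit 10) (.e (nat_lit 344096) (nat_lit 18) (.e (nat_lit 7124) (nat_lit 382) .nil)))))) (.g (nat_lit 4) .nil .nil)))) (.nd (nat_lit 6) 
(.lf (nat_lit 26291) (.g (nat_lit 1426) (.e (nat_lit 1193) (nat_lit 88) (.e (nat_lit 65586) (nat_lit 7) (.e (nat_lit 319539) (nat_lit 19) (.e (nat_lit 311358) (nat_lit 29) (.e (nat_lit 352316) (nat_lit 24) (.e (nat_lit 123185) (nat_lit 264) .nil)))))) (.g (nat_lit 4) .nil .nil))) 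
(.lf (nat_lit 26355) (.g (nat_lit 642) (.e (nat_lit 1193) (nat_lit 88) (.e (nat_lit 65628) (nat_lit 14) (.e (nat_lit 401436) (nat_lit 9) .nil))) .nil))))) (.nd (nat_lit 4) (.nd (nat_lit 5) (.nd (nat_lit 6) 
(.lf (nat_lit 26251) (.g (nat_lit 2393) (.e (nat_lit 1192) (nat_lit 88) (.e (nat_lit 65630) (nat_lit 14) (.e (nat_lit 401438) (nat_lit 9) (.e (nat_lit 426542) (nat_lit 29) (.e (nat_lit 352316) (nat_lit 24) .nil))))) .nil)) 
(.lf (nat_lit 26315) (.g (nat_lit 1703) (.e (nat_lit 1193) (nat_lit 88) (.e (nat_lit 65625) (nat_lit 13) (.e (nat_lit 393300) (nat_lit 27) (.e (nat_lit 491560) (nat_lit 10) (.e (nat_lit 344090) (nat_lit 18) (.e (nat_lit 7125) (nat_lit 382) .nil)))))) (.g (nat_lit 4) .nil .nil)))) (.nd (nat_lit 6) 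
(.lf (nat_lit 26283) (.g (nat_lit 2898) (.e (nat_lit 1193) (nat_lit 88) (.e (nat_lit 65570) (nat_lit 3) (.e (nat_lit 98373) (nat_lit 29) (.e (nat_lit 450588) (nat_lit 10) (.e (nat_lit 573475) (nat_lit 12) (.e (nat_lit 57348) (nat_lit 0) (.e (nat_lit 7119) (nat_lit 382) .nil))))))) (.g (nat_lit 4) .nil .nil))) 
(.lf (nat_lit 26347) (.g (nat_lit 2783) (.e (nat_lit 1193) (nat_lit 88) (.e (nat_lit 65626) (nat_lit 13) (.e (nat_lit 393301) (nat_lit 27) (.e (nat_lit 491558) (nat_lit 10) (.e (nat_lit 344091) (nat_lit 18) .nil))))) .nil)))) (.nd (nat_lit 5) (.nd (nat_lit 6) 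
(.lf (nat_lit 26267) (.g (nat_lit 1760) (.e (nat_lit 1192) (nat_lit 88) (.e (nat_lit 65637) (nat_lit 15) (.e (nat_lit 3632) (nat_lit 227) (.e (nat_lit 778323) (nat_lit 5) .nil)))) .nil)) 
(.lf (nat_lit 26331) (.g (nat_lit 1760) (.e (nat_lit 1193) (nat_lit 88) (.e (nat_lit 65626) (nat_lit 13) (.e (nat_lit 393233) (nat_lit 17) (.e (nat_lit 7593) (nat_lit 407) (.e (nat_lit 73731) (nat_lit 0) (.e (nat_lit 7125) (nat_lit 382) .nil)))))) (.g (nat_lit 4) .nil .nil)))) (.nd (nat_lit 6) 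
(.lf (nat_lit 26299) (.g (nat_lit 1049) (.e (nat_lit 1193) (nat_lit 88) (.e (nat_lit 65622) (nat_lit 12) (.e (nat_lit 385094) (nat_lit 49) (.e (nat_lit 778327) (nat_lit 6) .nil)))) .nil)) 
(.lf (nat_lit 26363) (.g (nat_lit 1679) (.e (nat_lit 1193) (nat_lit 88) (.e (nat_lit 65628) (nat_lit 14) (.e (nat_lit 401437) (nat_lit 9) (.e (nat_lit 426542) (nat_lit 29) .nil)))) .nil)))))) (.nd (nat_lit 3) (.nd (nat_lit 4) (.nd (nat_lit 5) (.nd (nat_lit 6) 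
(.lf (nat_lit 26247) (.g (nat_lit 1022) (.e (nat_lit 1192) (nat_lit 88) (.e (nat_lit 65630) (nat_lit 14) (.e (nat_lit 401428) (nat_lit 3) .nil))) .nil)) 
(.lf (nat_lit 26311) (.g (nat_lit 1233) (.e (nat_lit 1193) (nat_lit 88) (.e (nat_lit 65625) (nat_lit 13) (.e (nat_lit 393299) (nat_lit 27) (.e (nat_lit 491558) (nat_lit 10) .nil)))) .nil))) (.nd (nat_lit 6) 
(.lf (nat_lit 26279) (.g (nat_lit 2842) (.e (nat_lit 1193) (nat_lit 88) (.e (nat_lit 65570) (nat_lit 3) (.e (nat_lit 98373) (nat_lit 29) (.e (nat_lit 450588) (nat_lit 10) (.e (nat_lit 573473) (nat_lit 12) (.e (nat_lit 57347) (nat_lit 0) (.e (nat_lit 7124) (nat_lit 382) .nil))))))) (.g (nat_lit 4) .nil .nil))) 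
(.lf (nat_lit 26343) (.g (nat_lit 1944) (.e (nat_lit 1193) (nat_lit 88) (.e (nat_lit 65626) (nat_lit 13) (.e (nat_lit 393300) (nat_lit 27) (.e (nat_lit 491560) (nat_lit 10) (.e (nat_lit 344094) (nat_lit 18) .nil))))) .nil)))) (.nd (nat_lit 5) (.nd (nat_lit 6) 
(.lf (nat_lit 26263) (.g (nat_lit 2975) (.e (nat_lit 1192) (nat_lit 88) (.e (nat_lit 65630) (nat_lit 14) (.e (nat_lit 401459) (nat_lit 13) (.e (nat_lit 483391) (nat_lit 23) .nil)))) .nil)) 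
(.lf (nat_lit 26327) (.g (nat_lit 2577) (.e (nat_lit 1193) (nat_lit 88) (.e (nat_lit 65625) (nat_lit 13) (.e (nat_lit 393301) (nat_lit 27) (.e (nat_lit 491560) (nat_lit 10) (.e (nat_lit 344094) (nat_lit 18) (.e (nat_lit 7125) (nat_lit 382) .nil)))))) (.g (nat_lit 5) .nil .nil)))) (.nd (nat_lit 6) 
(.lf (nat_lit 26295) (.g (nat_lit 2811) (.e (nat_lit 1193) (nat_lit 88) (.e (nat_lit 65604) (nat_lit 9) (.e (nat_lit 335997) (nat_lit 1) (.e (nat_lit 57870) (nat_lit 264) (.e (nat_lit 1221) (nat_lit 90) (.e (nat_lit 81959) (nat_lit 24) (.e (nat_lit 123182) (nat_lit 264) .nil))))))) (.g (nat_lit 7) .nil .nil))) 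
(.lf (nat_lit 26359) (.g (nat_lit 2501) (.e (nat_lit 1193) (nat_lit 88) (.e (nat_lit 65628) (nat_lit 14) (.e (nat_lit 401436) (nat_lit 9) (.e (nat_lit 426555) (nat_lit 32) (.e (nat_lit 376870) (nat_lit 24) .nil))))) .nil))))) (.nd (nat_lit 4) (.nd (nat_lit 5) (.nd (nat_lit 6) 
(.lf (nat_lit 26255) (.g (nat_lit 691) (.e (nat_lit 1192) (nat_lit 88) (.e (nat_lit 65630) (nat_lit 14) (.e (nat_lit 401459) (nat_lit 13) .nil))) .nil)) 
(.lf (nat_lit 26319) (.g (nat_lit 2233) (.e (nat_lit 1193) (nat_lit 88) (.e (nat_lit 65625) (nat_lit 13) (.e (nat_lit 393301) (nat_lit 27) (.e (nat_lit 491558) (nat_lit 10) (.e (nat_lit 344090) (nat_lit 18) (.e (nat_lit 7125) (nat_lit 382) .nil)))))) (.g (nat_lit 4) .nil .nil)))) (.nd (nat_lit 6) 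
(.lf (nat_lit 26287) (.g (nat_lit 436) (.e (nat_lit 1193) (nat_lit 88) (.e (nat_lit 65586) (nat_lit 7) (.e (nat_lit 319531) (nat_lit 16) .nil))) .nil)) 
(.lf (nat_lit 26351) (.g (nat_lit 3323) (.e (nat_lit 1193) (nat_lit 88) (.e (nat_lit 65626) (nat_lit 13) (.e (nat_lit 393301) (nat_lit 27) (.e (nat_lit 491560) (nat_lit 10) (.e (nat_lit 344091) (nat_lit 18) .nil))))) .nil)))) (.nd (nat_lit 5) (.nd (nat_lit 6) 
(.lf (nat_lit 26271) (.g (nat_lit 2328) (.e (nat_lit 1193) (nat_lit 88) (.e (nat_lit 65566) (nat_lit 2) (.e (nat_lit 90170) (nat_lit 13) (.e (nat_lit 172113) (nat_lit 10) (.e (nat_lit 434248) (nat_lit 28) (.e (nat_lit 573475) (nat_lit 12) (.e (nat_lit 57351) (nat_lit 0) (.e (nat_lit 7125) (nat_lit 382) .nil)))))))) (.g (nat_lit 4) .nil .nil))) 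
(.lf (nat_lit 26335) (.g (nat_lit 2760) (.e (nat_lit 1193) (nat_lit 88) (.e (nat_lit 65626) (nat_lit 13) (.e (nat_lit 393234) (nat_lit 17) (.e (nat_lit 7591) (nat_lit 407) (.e (nat_lit 73731) (nat_lit 0) (.e (nat_lit 7125) (nat_lit 382) .nil)))))) (.g (nat_lit 6) .nil .nil)))) (.nd (nat_lit 6) 
(.lf (nat_lit 26303) (.g (nat_lit 929) (.e (nat_lit 1193) (nat_lit 88) (.e (nat_lit 65622) (nat_lit 12) (.e (nat_lit 385106) (nat_lit 50) (.e (nat_lit 786481) (nat_lit 30) .nil)))) .nil)) 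
(.lf (nat_lit 26367) (.g (nat_lit 2769) (.e (nat_lit 1193) (nat_lit 88) (.e (nat_lit 65628) (nat_lit 14) (.e (nat_lit 401437) (nat_lit 9) (.e (nat_lit 426544) (nat_lit 30) (.e (nat_lit 360456) (nat_lit 0) (.e (nat_lit 5818) (nat_lit 320) .nil)))))) (.g (nat_lit 4) .nil .nil))))))))))

noncomputable def tv369 : DT := (.nd (nat_lit 0) (.nd (nat_lit 1) (.nd (nat_lit 2) (.nd (nat_lit 3) (.nd (nat_lit 4) (.nd (nat_lit 5) (.nd (nat_lit 6) 
(.lf (nat_lit 26368) (.g (nat_lit 3244) (.e (nat_lit 1193) (nat_lit 88) (.e (nat_lit 65628) (nat_lit 14) (.e (nat_lit 401437) (nat_lit 9) (.e (nat_lit 426544) (nat_lit 30) (.e (nat_lit 360457) (nat_lit 0) (.e (nat_lit 5818) (nat_lit 320) .nil)))))) (.g (nat_lit 6) .nil .nil))) 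
(.lf (nat_lit 26432) (.g (nat_lit 3872) (.e (nat_lit 1193) (nat_lit 88) (.e (nat_lit 65653) (nat_lit 27) (.e (nat_lit 426500) (nat_lit 27) (.e (nat_lit 336088) (nat_lit 9) (.e (nat_lit 336019) (nat_lit 3) (.e (nat_lit 98333) (nat_lit 18) (.e (nat_lit 164155) (nat_lit 152) .nil))))))) (.g (nat_lit 0) .nil .nil)))) (.nd (nat_lit 6) 
(.lf (nat_lit 26400) (.g (nat_lit 2469) (.e (nat_lit 1193) (nat_lit 88) (.e (nat_lit 65628) (nat_lit 14) (.e (nat_lit 401459) (nat_lit 13) (.e (nat_lit 483378) (nat_lit 23) (.e (nat_lit 336032) (nat_lit 4) (.e (nat_lit 123182) (nat_lit 264) .nil)))))) (.g (nat_lit 4) .nil .nil))) 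
(.lf (nat_lit 26464) (.g (nat_lit 2311) (.e (nat_lit 1194) (nat_lit 88) (.e (nat_lit 65586) (nat_lit 7) (.e (nat_lit 319531) (nat_lit 16) (.e (nat_lit 286743) (nat_lit 9) (.e (nat_lit 336337) (nat_lit 20) .nil))))) .nil)))) (.nd (nat_lit 5) (.nd (nat_lit 6) 
(.lf (nat_lit 26384) (.g (nat_lit 1674) (.e (nat_lit 1193) (nat_lit 88) (.e (nat_lit 65628) (nat_lit 14) (.e (nat_lit 401458) (nat_lit 13) (.e (nat_lit 483350) (nat_lit 17) .nil)))) .nil)) 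
(.lf (nat_lit 26448) (.g (nat_lit 2851) (.e (nat_lit 1194) (nat_lit 88) (.e (nat_lit 65570) (nat_lit 3) (.e (nat_lit 98373) (nat_lit 29) (.e (nat_lit 450588) (nat_lit 10) (.e (nat_lit 573475) (nat_lit 12) .nil))))) .nil))) (.nd (nat_lit 6) 
(.lf (nat_lit 26416) (.g (nat_lit 2995) (.e (nat_lit 1193) (nat_lit 88) (.e (nat_lit 65653) (nat_lit 27) (.e (nat_lit 426011) (nat_lit 0) (.e (nat_lit 7581) (nat_lit 405) (.e (nat_lit 57479) (nat_lit 28) .nil))))) .nil)) 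
(.lf (nat_lit 26480) (.g (nat_lit 3775) (.e (nat_lit 1194) (nat_lit 88) (.e (nat_lit 65623) (nat_lit 12) (.e (nat_lit 385074) (nat_lit 31) (.e (nat_lit 573493) (nat_lit 15) (.e (nat_lit 81959) (nat_lit 24) .nil))))) .nil))))) (.nd (nat_lit 4) (.nd (nat_lit 5) (.nd (nat_lit 6) 
(.lf (nat_lit 26376) (.g (nat_lit 2657) (.e (nat_lit 1193) (nat_lit 88) (.e (nat_lit 65628) (nat_lit 14) (.e (nat_lit 401454) (nat_lit 12) (.e (nat_lit 475141) (nat_lit 8) .nil)))) .nil)) 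
(.lf (nat_lit 26440) (.g (nat_lit 3066) (.e (nat_lit 1193) (nat_lit 88) (.e (nat_lit 65653) (nat_lit 27) (.e (nat_lit 426500) (nat_lit 27) (.e (nat_lit 336204) (nat_lit 12) (.e (nat_lit 385066) (nat_lit 26) (.e (nat_lit 532504) (nat_lit 1) (.e (nat_lit 57830) (nat_lit 250) .nil))))))) (.g (nat_lit 0) .nil .nil)))) (.nd (nat_lit 6) 
(.lf (nat_lit 26408) (.g (nat_lit 2024) (.e (nat_lit 1193) (nat_lit 88) (.e (nat_lit 65628) (nat_lit 14) (.e (nat_lit 401459) (nat_lit 13) (.e (nat_lit 491264) (nat_lit 23) .nil)))) .nil)) 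
(.lf (nat_lit 26472) (.g (nat_lit 647) (.e (nat_lit 1194) (nat_lit 88) (.e (nat_lit 65619) (nat_lit 10) (.e (nat_lit 344097) (nat_lit 18) .nil))) .nil)))) (.nd (nat_lit 5) (.nd (nat_lit 6) 
(.lf (nat_lit 26392) (.g (nat_lit 2264) (.e (nat_lit 1193) (nat_lit 88) (.e (nat_lit 65628) (nat_lit 14) (.e (nat_lit 401459) (nat_lit 13) (.e (nat_lit 483344) (nat_lit 17) (.e (nat_lit 6440) (nat_lit 343) .nil))))) .nil)) 
(.lf (nat_lit 26456) (.g (nat_lit 4068) (.e (nat_lit 1194) (nat_lit 88) (.e (nat_lit 65570) (nat_lit 3) (.e (nat_lit 98373) (nat_lit 29) (.e (nat_lit 450588) (nat_lit 10) (.e (nat_lit 573475) (nat_lit 12) (.e (nat_lit 57349) (nat_lit 0) (.e (nat_lit 7220) (nat_lit 382) .nil))))))) (.g (nat_lit 5) .nil .nil)))) (.nd (nat_lit 6) 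
(.lf (nat_lit 26424) (.g (nat_lit 3340) (.e (nat_lit 1193) (nat_lit 88) (.e (nat_lit 65653) (nat_lit 27) (.e (nat_lit 426011) (nat_lit 0) (.e (nat_lit 7581) (nat_lit 405) (.e (nat_lit 57480) (nat_lit 28) (.e (nat_lit 557105) (nat_lit 14) (.e (nat_lit 180227) (nat_lit 0) (.e (nat_lit 5814) (nat_lit 320) .nil)))))))) (.g (nat_lit 5) .nil .nil))) 
(.lf (nat_lit 26488) (.g (nat_lit 1741) (.e (nat_lit 1194) (nat_lit 88) (.e (nat_lit 65624) (nat_lit 12) (.e (nat_lit 385093) (nat_lit 49) (.e (nat_lit 778327) (nat_lit 6) .nil)))) .nil)))))) (.nd (nat_lit 3) (.nd (nat_lit 4) (.nd (nat_lit 5) (.nd (nat_lit 6) 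
(.lf (nat_lit 26372) (.g (nat_lit 1690) (.e (nat_lit 1193) (nat_lit 88) (.e (nat_lit 65628) (nat_lit 14) (.e (nat_lit 401438) (nat_lit 9) (.e (nat_lit 426538) (nat_lit 29) .nil)))) .nil)) 
(.lf (nat_lit 26436) (.g (nat_lit 3000) (.e (nat_lit 1193) (nat_lit 88) (.e (nat_lit 65653) (nat_lit 27) (.e (nat_lit 426500) (nat_lit 27) (.e (nat_lit 336194) (nat_lit 12) (.e (nat_lit 385066) (nat_lit 26) (.e (nat_lit 532501) (nat_lit 1) (.e (nat_lit 57830) (nat_lit 250) .nil))))))) (.g (nat_lit 7) .nil .nil)))) (.nd (nat_lit 6) 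
(.lf (nat_lit 26404) (.g (nat_lit 2774) (.e (nat_lit 1193) (nat_lit 88) (.e (nat_lit 65628) (nat_lit 14) (.e (nat_lit 401459) (nat_lit 13) (.e (nat_lit 483388) (nat_lit 23) (.e (nat_lit 336032) (nat_lit 4) .nil))))) .nil)) 
(.lf (nat_lit 26468) (.g (nat_lit 2052) (.e (nat_lit 1194) (nat_lit 88) (.e (nat_lit 65586) (nat_lit 7) (.e (nat_lit 319531) (nat_lit 16) (.e (nat_lit 286767) (nat_lit 27) .nil)))) .nil)))) (.nd (nat_lit 5) (.nd (nat_lit 6) 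
(.lf (nat_lit 26388) (.g (nat_lit 1482) (.e (nat_lit 1193) (nat_lit 88) (.e (nat_lit 65628) (nat_lit 14) (.e (nat_lit 401458) (nat_lit 13) (.e (nat_lit 483394) (nat_lit 24) .nil)))) .nil)) 
(.lf (nat_lit 26452) (.g (nat_lit 4418) (.e (nat_lit 1194) (nat_lit 88) (.e (nat_lit 65570) (nat_lit 3) (.e (nat_lit 98373) (nat_lit 29) (.e (nat_lit 450588) (nat_lit 10) (.e (nat_lit 573475) (nat_lit 12) (.e (nat_lit 57345) (nat_lit 0) (.e (nat_lit 7220) (nat_lit 382) .nil))))))) (.g (nat_lit 0) .nil .nil)))) (.nd (nat_lit 6) 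
(.lf (nat_lit 26420) (.g (nat_lit 2948) (.e (nat_lit 1193) (nat_lit 88) (.e (nat_lit 65653) (nat_lit 27) (.e (nat_lit 426011) (nat_lit 0) (.e (nat_lit 7581) (nat_lit 405) (.e (nat_lit 57480) (nat_lit 28) (.e (nat_lit 557103) (nat_lit 14) (.e (nat_lit 180233) (nat_lit 0) (.e (nat_lit 5818) (nat_lit 320) .nil)))))))) (.g (nat_lit 4) .nil .nil))) 
(.lf (nat_lit 26484) (.g (nat_lit 755) (.e (nat_lit 1194) (nat_lit 88) (.e (nat_lit 65624) (nat_lit 12) (.e (nat_lit 385074) (nat_lit 31) .nil))) .nil))))) (.nd (nat_lit 4) (.nd (nat_lit 5) (.nd (nat_lit 6) 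
(.lf (nat_lit 26380) (.g (nat_lit 1975) (.e (nat_lit 1193) (nat_lit 88) (.e (nat_lit 65628) (nat_lit 14) (.e (nat_lit 401457) (nat_lit 13) (.e (nat_lit 483378) (nat_lit 23) (.e (nat_lit 336032) (nat_lit 4) .nil))))) .nil)) 
(.lf (nat_lit 26444) (.g (nat_lit 3534) (.e (nat_lit 1194) (nat_lit 88) (.e (nat_lit 65570) (nat_lit 3) (.e (nat_lit 98373) (nat_lit 29) (.e (nat_lit 450588) (nat_lit 10) (.e (nat_lit 573473) (nat_lit 12) (.e (nat_lit 57348) (nat_lit 0) (.e (nat_lit 7119) (nat_lit 382) .nil))))))) (.g (nat_lit 5) .nil .nil)))) (.nd (nat_lit 6) 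
(.lf (nat_lit 26412) (.g (nat_lit 2523) (.e (nat_lit 1193) (nat_lit 88) (.e (nat_lit 65637) (nat_lit 15) (.e (nat_lit 3632) (nat_lit 227) (.e (nat_lit 778323) (nat_lit 5) (.e (nat_lit 81664) (nat_lit 37) .nil))))) .nil)) 
(.lf (nat_lit 26476) (.g (nat_lit 1834) (.e (nat_lit 1194) (nat_lit 88) (.e (nat_lit 65619) (nat_lit 10) (.e (nat_lit 344160) (nat_lit 37) (.e (nat_lit 647195) (nat_lit 9) (.e (nat_lit 7936) (nat_lit 37) .nil))))) .nil)))) (.nd (nat_lit 5) (.nd (nat_lit 6) 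
(.lf (nat_lit 26396) (.g (nat_lit 3676) (.e (nat_lit 1193) (nat_lit 88) (.e (nat_lit 65628) (nat_lit 14) (.e (nat_lit 401459) (nat_lit 13) (.e (nat_lit 483372) (nat_lit 21) (.e (nat_lit 327424) (nat_lit 1) .nil))))) .nil)) 
(.lf (nat_lit 26460) (.g (nat_lit 2661) (.e (nat_lit 1194) (nat_lit 88) (.e (nat_lit 65571) (nat_lit 3) (.e (nat_lit 98372) (nat_lit 29) (.e (nat_lit 450579) (nat_lit 5) (.e (nat_lit 532504) (nat_lit 1) .nil))))) .nil))) (.nd (nat_lit 6) 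
(.lf (nat_lit 26428) (.g (nat_lit 3482) (.e (nat_lit 1193) (nat_lit 88) (.e (nat_lit 65653) (nat_lit 27) (.e (nat_lit 426500) (nat_lit 27) (.e (nat_lit 336087) (nat_lit 9) (.e (nat_lit 336019) (nat_lit 3) (.e (nat_lit 98333) (nat_lit 18) (.e (nat_lit 164155) (nat_lit 152) .nil))))))) (.g (nat_lit 0) .nil .nil))) 
(.lf (nat_lit 26492) (.g (nat_lit 2083) (.e (nat_lit 1194) (nat_lit 88) (.e (nat_lit 65624) (nat_lit 12) (.e (nat_lit 385094) (nat_lit 49) (.e (nat_lit 778327) (nat_lit 6) (.e (nat_lit 81957) (nat_lit 24) (.e (nat_lit 123181) (nat_lit 264) .nil)))))) (.g (nat_lit 4) .nil .nil)))))))) (.nd (nat_lit 2) (.nd (nat_lit 3) (.nd (nat_lit 4) (.nd (nat_lit 5) (.nd (nat_lit 6) 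
(.lf (nat_lit 26370) (.g (nat_lit 2158) (.e (nat_lit 1193) (nat_lit 88) (.e (nat_lit 65628) (nat_lit 14) (.e (nat_lit 401437) (nat_lit 9) (.e (nat_lit 426553) (nat_lit 32) .nil)))) .nil)) 
(.lf (nat_lit 26434) (.g (nat_lit 2407) (.e (nat_lit 1193) (nat_lit 88) (.e (nat_lit 65653) (nat_lit 27) (.e (nat_lit 426500) (nat_lit 27) (.e (nat_lit 336088) (nat_lit 9) (.e (nat_lit 336324) (nat_lit 18) (.e (nat_lit 204830) (nat_lit 18) (.e (nat_lit 57830) (nat_lit 250) .nil))))))) (.g (nat_lit 6) .nil .nil)))) (.nd (nat_lit 6) 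
(.lf (nat_lit 26402) (.g (nat_lit 1729) (.e (nat_lit 1193) (nat_lit 88) (.e (nat_lit 65628) (nat_lit 14) (.e (nat_lit 401459) (nat_lit 13) (.e (nat_lit 483386) (nat_lit 23) .nil)))) .nil)) 
(.lf (nat_lit 26466) (.g (nat_lit 2445) (.e (nat_lit 1194) (nat_lit 88) (.e (nat_lit 65586) (nat_lit 7) (.e (nat_lit 319531) (nat_lit 16) (.e (nat_lit 286756) (nat_lit 10) (.e (nat_lit 344160) (nat_lit 37) .nil))))) .nil)))) (.nd (nat_lit 5) (.nd (nat_lit 6) 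
(.lf (nat_lit 26386) (.g (nat_lit 1492) (.e (nat_lit 1193) (nat_lit 88) (.e (nat_lit 65628) (nat_lit 14) (.e (nat_lit 401458) (nat_lit 13) (.e (nat_lit 483391) (nat_lit 23) .nil)))) .nil)) 
(.lf (nat_lit 26450) (.g (nat_lit 4086) (.e (nat_lit 1194) (nat_lit 88) (.e (nat_lit 65570) (nat_lit 3) (.e (nat_lit 98373) (nat_lit 29) (.e (nat_lit 450588) (nat_lit 10) (.e (nat_lit 573475) (nat_lit 12) (.e (nat_lit 57345) (nat_lit 0) (.e (nat_lit 7128) (nat_lit 382) .nil))))))) (.g (nat_lit 5) .nil .nil)))) (.nd (nat_lit 6) 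
(.lf (nat_lit 26418) (.g (nat_lit 2934) (.e (nat_lit 1193) (nat_lit 88) (.e (nat_lit 65653) (nat_lit 27) (.e (nat_lit 426011) (nat_lit 0) (.e (nat_lit 7581) (nat_lit 405) (.e (nat_lit 57480) (nat_lit 28) (.e (nat_lit 557103) (nat_lit 14) (.e (nat_lit 180225) (nat_lit 0) (.e (nat_lit 5814) (nat_lit 320) .nil)))))))) (.g (nat_lit 4) .nil .nil))) 
(.lf (nat_lit 26482) (.g (nat_lit 1232) (.e (nat_lit 1194) (nat_lit 88) (.e (nat_lit 65623) (nat_lit 12) (.e (nat_lit 385094) (nat_lit 49) (.e (nat_lit 778327) (nat_lit 6) .nil)))) .nil))))) (.nd (nat_lit 4) (.nd (nat_lit 5) (.nd (nat_lit 6) 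
(.lf (nat_lit 26378) (.g (nat_lit 1392) (.e (nat_lit 1193) (nat_lit 88) (.e (nat_lit 65628) (nat_lit 14) (.e (nat_lit 401454) (nat_lit 12) (.e (nat_lit 483072) (nat_lit 8) .nil)))) .nil)) 
(.lf (nat_lit 26442) (.g (nat_lit 2840) (.e (nat_lit 1194) (nat_lit 88) (.e (nat_lit 65570) (nat_lit 3) (.e (nat_lit 98373) (nat_lit 29) (.e (nat_lit 450588) (nat_lit 10) (.e (nat_lit 573473) (nat_lit 12) .nil))))) .nil))) (.nd (nat_lit 6) 
(.lf (nat_lit 26410) (.g (nat_lit 1437) (.e (nat_lit 1193) (nat_lit 88) (.e (nat_lit 65628) (nat_lit 14) (.e (nat_lit 401459) (nat_lit 13) (.e (nat_lit 483395) (nat_lit 24) .nil)))) .nil)) 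
(.lf (nat_lit 26474) (.g (nat_lit 677) (.e (nat_lit 1194) (nat_lit 88) (.e (nat_lit 65619) (nat_lit 10) (.e (nat_lit 344117) (nat_lit 21) .nil))) .nil)))) (.nd (nat_lit 5) (.nd (nat_lit 6) 
(.lf (nat_lit 26394) (.g (nat_lit 3407) (.e (nat_lit 1193) (nat_lit 88) (.e (nat_lit 65628) (nat_lit 14) (.e (nat_lit 401459) (nat_lit 13) (.e (nat_lit 483350) (nat_lit 17) (.e (nat_lit 6097) (nat_lit 332) .nil))))) .nil)) 
(.lf (nat_lit 26458) (.g (nat_lit 2632) (.e (nat_lit 1194) (nat_lit 88) (.e (nat_lit 65571) (nat_lit 3) (.e (nat_lit 98372) (nat_lit 29) (.e (nat_lit 450579) (nat_lit 5) (.e (nat_lit 532501) (nat_lit 1) .nil))))) .nil))) (.nd (nat_lit 6) 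
(.lf (nat_lit 26426) (.g (nat_lit 3416) (.e (nat_lit 1193) (nat_lit 88) (.e (nat_lit 65653) (nat_lit 27) (.e (nat_lit 426500) (nat_lit 27) (.e (nat_lit 336087) (nat_lit 9) (.e (nat_lit 336019) (nat_lit 3) (.e (nat_lit 98333) (nat_lit 18) (.e (nat_lit 164153) (nat_lit 152) .nil))))))) (.g (nat_lit 0) .nil .nil))) 
(.lf (nat_lit 26490) (.g (nat_lit 2045) (.e (nat_lit 1194) (nat_lit 88) (.e (nat_lit 65624) (nat_lit 12) (.e (nat_lit 385094) (nat_lit 49) (.e (nat_lit 778326) (nat_lit 6) (.e (nat_lit 81959) (nat_lit 24) .nil))))) .nil)))))) (.nd (nat_lit 3) (.nd (nat_lit 4) (.nd (nat_lit 5) (.nd (nat_lit 6) 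
(.lf (nat_lit 26374) (.g (nat_lit 3194) (.e (nat_lit 1193) (nat_lit 88) (.e (nat_lit 65628) (nat_lit 14) (.e (nat_lit 401438) (nat_lit 9) (.e (nat_lit 426542) (nat_lit 29) (.e (nat_lit 352318) (nat_lit 24) (.e (nat_lit 123185) (nat_lit 264) .nil)))))) (.g (nat_lit 6) .nil .nil))) 
(.lf (nat_lit 26438) (.g (nat_lit 3078) (.e (nat_lit 1193) (nat_lit 88) (.e (nat_lit 65653) (nat_lit 27) (.e (nat_lit 426500) (nat_lit 27) (.e (nat_lit 336194) (nat_lit 12) (.e (nat_lit 385068) (nat_lit 26) (.e (nat_lit 532501) (nat_lit 1) (.e (nat_lit 57830) (nat_lit 250) .nil))))))) (.g (nat_lit 6) .nil .nil)))) (.nd (nat_lit 6) 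
(.lf (nat_lit 26406) (.g (nat_lit 2174) (.e (nat_lit 1193) (nat_lit 88) (.e (nat_lit 65628) (nat_lit 14) (.e (nat_lit 401459) (nat_lit 13) (.e (nat_lit 483391) (nat_lit 23) .nil)))) .nil)) 
(.lf (nat_lit 26470) (.g (nat_lit 1943) (.e (nat_lit 1194) (nat_lit 88) (.e (nat_lit 65604) (nat_lit 9) (.e (nat_lit 335997) (nat_lit 1) (.e (nat_lit 57681) (nat_lit 155) (.e (nat_lit 122919) (nat_lit 15) .nil))))) .nil)))) (.nd (nat_lit 5) (.nd (nat_lit 6) 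
(.lf (nat_lit 26390) (.g (nat_lit 1368) (.e (nat_lit 1193) (nat_lit 88) (.e (nat_lit 65628) (nat_lit 14) (.e (nat_lit 401459) (nat_lit 13) (.e (nat_lit 483344) (nat_lit 17) .nil)))) .nil)) 
(.lf (nat_lit 26454) (.g (nat_lit 3023) (.e (nat_lit 1194) (nat_lit 88) (.e (nat_lit 65570) (nat_lit 3) (.e (nat_lit 98373) (nat_lit 29) (.e (nat_lit 450588) (nat_lit 10) (.e (nat_lit 573475) (nat_lit 12) (.e (nat_lit 57347) (nat_lit 0) (.e (nat_lit 7218) (nat_lit 382) .nil))))))) (.g (nat_lit 4) .nil .nil)))) (.nd (nat_lit 6) 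
(.lf (nat_lit 26422) (.g (nat_lit 4028) (.e (nat_lit 1193) (nat_lit 88) (.e (nat_lit 65653) (nat_lit 27) (.e (nat_lit 426011) (nat_lit 0) (.e (nat_lit 7581) (nat_lit 405) (.e (nat_lit 57480) (nat_lit 28) (.e (nat_lit 557104) (nat_lit 14) (.e (nat_lit 180233) (nat_lit 0) (.e (nat_lit 5818) (nat_lit 320) .nil)))))))) (.g (nat_lit 5) .nil .nil))) 
(.lf (nat_lit 26486) (.g (nat_lit 683) (.e (nat_lit 1194) (nat_lit 88) (.e (nat_lit 65624) (nat_lit 12) (.e (nat_lit 385092) (nat_lit 49) .nil))) .nil))))) (.nd (nat_lit 4) (.nd (nat_lit 5) (.nd (nat_lit 6) 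
(.lf (nat_lit 26382) (.g (nat_lit 1669) (.e (nat_lit 1193) (nat_lit 88) (.e (nat_lit 65628) (nat_lit 14) (.e (nat_lit 401457) (nat_lit 13) (.e (nat_lit 483393) (nat_lit 23) .nil)))) .nil)) 
(.lf (nat_lit 26446) (.g (nat_lit 2898) (.e (nat_lit 1194) (nat_lit 88) (.e (nat_lit 65570) (nat_lit 3) (.e (nat_lit 98373) (nat_lit 29) (.e (nat_lit 450588) (nat_lit 10) (.e (nat_lit 573473) (nat_lit 12) (.e (nat_lit 57348) (nat_lit 0) (.e (nat_lit 7218) (nat_lit 382) .nil))))))) (.g (nat_lit 4) .nil .nil)))) (.nd (nat_lit 6) 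
(.lf (nat_lit 26414) (.g (nat_lit 3438) (.e (nat_lit 1193) (nat_lit 88) (.e (nat_lit 65653) (nat_lit 27) (.e (nat_lit 426011) (nat_lit 0) (.e (nat_lit 7581) (nat_lit 405) (.e (nat_lit 57476) (nat_lit 28) .nil))))) .nil)) 
(.lf (nat_lit 26478) (.g (nat_lit 1910) (.e (nat_lit 1194) (nat_lit 88) (.e (nat_lit 65622) (nat_lit 12) (.e (nat_lit 385105) (nat_lit 50) (.e (nat_lit 786483) (nat_lit 30) (.e (nat_lit 368384) (nat_lit 0) .nil))))) .nil)))) (.nd (nat_lit 5) (.nd (nat_lit 6) 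
(.lf (nat_lit 26398) (.g (nat_lit 3361) (.e (nat_lit 1193) (nat_lit 88) (.e (nat_lit 65628) (nat_lit 14) (.e (nat_lit 401459) (nat_lit 13) (.e (nat_lit 483375) (nat_lit 22) (.e (nat_lit 327692) (nat_lit 1) (.e (nat_lit 8433) (nat_lit 138) .nil)))))) (.g (nat_lit 5) .nil .nil))) 
(.lf (nat_lit 26462) (.g (nat_lit 3020) (.e (nat_lit 1194) (nat_lit 88) (.e (nat_lit 65571) (nat_lit 3) (.e (nat_lit 98373) (nat_lit 29) (.e (nat_lit 450588) (nat_lit 10) (.e (nat_lit 573475) (nat_lit 12) .nil))))) .nil))) (.nd (nat_lit 6) 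
(.lf (nat_lit 26430) (.g (nat_lit 3808) (.e (nat_lit 1193) (nat_lit 88) (.e (nat_lit 65653) (nat_lit 27) (.e (nat_lit 426500) (nat_lit 27) (.e (nat_lit 336088) (nat_lit 9) (.e (nat_lit 336019) (nat_lit 3) (.e (nat_lit 98333) (nat_lit 18) (.e (nat_lit 164153) (nat_lit 152) .nil))))))) (.g (nat_lit 0) .nil .nil))) 
(.lf (nat_lit 26494) (.g (nat_lit 1629) (.e (nat_lit 1194) (nat_lit 88) (.e (nat_lit 65624) (nat_lit 12) (.e (nat_lit 385105) (nat_lit 50) (.e (nat_lit 786481) (nat_lit 30) .nil)))) .nil)))))))) (.nd (nat_lit 1) (.nd (nat_lit 2) (.nd (nat_lit 3) (.nd (nat_lit 4) (.nd (nat_lit 5) (.nd (nat_lit 6) 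
(.lf (nat_lit 26369) (.g (nat_lit 3098) (.e (nat_lit 1193) (nat_lit 88) (.e (nat_lit 65628) (nat_lit 14) (.e (nat_lit 401437) (nat_lit 9) (.e (nat_lit 426546) (nat_lit 30) (.e (nat_lit 360456) (nat_lit 0) (.e (nat_lit 5818) (nat_lit 320) .nil)))))) (.g (nat_lit 6) .nil .nil))) 
(.lf (nat_lit 26433) (.g (nat_lit 3053) (.e (nat_lit 1193) (nat_lit 88) (.e (nat_lit 65653) (nat_lit 27) (.e (nat_lit 426500) (nat_lit 27) (.e (nat_lit 336088) (nat_lit 9) (.e (nat_lit 336019) (nat_lit 3) (.e (nat_lit 98335) (nat_lit 18) (.e (nat_lit 164155) (nat_lit 152) .nil))))))) (.g (nat_lit 6) .nil .nil)))) (.nd (nat_lit 6) 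
(.lf (nat_lit 26401) (.g (nat_lit 3225) (.e (nat_lit 1193) (nat_lit 88) (.e (nat_lit 65628) (nat_lit 14) (.e (nat_lit 401459) (nat_lit 13) (.e (nat_lit 483380) (nat_lit 23) (.e (nat_lit 336036) (nat_lit 4) .nil))))) .nil)) 
(.lf (nat_lit 26465) (.g (nat_lit 1262) (.e (nat_lit 1194) (nat_lit 88) (.e (nat_lit 65586) (nat_lit 7) (.e (nat_lit 319531) (nat_lit 16) (.e (nat_lit 286748) (nat_lit 9) .nil)))) .nil)))) (.nd (nat_lit 5) (.nd (nat_lit 6) 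
(.lf (nat_lit 26385) (.g (nat_lit 1896) (.e (nat_lit 1193) (nat_lit 88) (.e (nat_lit 65628) (nat_lit 14) (.e (nat_lit 401458) (nat_lit 13) (.e (nat_lit 483378) (nat_lit 23) (.e (nat_lit 336032) (nat_lit 4) (.e (nat_lit 123182) (nat_lit 264) .nil)))))) (.g (nat_lit 4) .nil .nil))) 
(.lf (nat_lit 26449) (.g (nat_lit 3934) (.e (nat_lit 1194) (nat_lit 88) (.e (nat_lit 65570) (nat_lit 3) (.e (nat_lit 98373) (nat_lit 29) (.e (nat_lit 450588) (nat_lit 10) (.e (nat_lit 573475) (nat_lit 12) (.e (nat_lit 57344) (nat_lit 0) (.e (nat_lit 7220) (nat_lit 382) .nil))))))) (.g (nat_lit 5) .nil .nil)))) (.nd (nat_lit 6) 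
(.lf (nat_lit 26417) (.g (nat_lit 2869) (.e (nat_lit 1193) (nat_lit 88) (.e (nat_lit 65653) (nat_lit 27) (.e (nat_lit 426011) (nat_lit 0) (.e (nat_lit 7581) (nat_lit 405) (.e (nat_lit 57480) (nat_lit 28) .nil))))) .nil)) 
(.lf (nat_lit 26481) (.g (nat_lit 1222) (.e (nat_lit 1194) (nat_lit 88) (.e (nat_lit 65623) (nat_lit 12) (.e (nat_lit 385094) (nat_lit 49) (.e (nat_lit 778326) (nat_lit 6) .nil)))) .nil))))) (.nd (nat_lit 4) (.nd (nat_lit 5) (.nd (nat_lit 6) 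
(.lf (nat_lit 26377) (.g (nat_lit 2756) (.e (nat_lit 1193) (nat_lit 88) (.e (nat_lit 65628) (nat_lit 14) (.e (nat_lit 401454) (nat_lit 12) (.e (nat_lit 475142) (nat_lit 8) .nil)))) .nil)) 
(.lf (nat_lit 26441) (.g (nat_lit 1848) (.e (nat_lit 1194) (nat_lit 88) (.e (nat_lit 65570) (nat_lit 3) (.e (nat_lit 98373) (nat_lit 29) (.e (nat_lit 450587) (nat_lit 10) (.e (nat_lit 573478) (nat_lit 12) .nil))))) .nil))) (.nd (nat_lit 6) 
(.lf (nat_lit 26409) (.g (nat_lit 2489) (.e (nat_lit 1193) (nat_lit 88) (.e (nat_lit 65628) (nat_lit 14) (.e (nat_lit 401459) (nat_lit 13) (.e (nat_lit 483394) (nat_lit 24) (.e (nat_lit 344104) (nat_lit 18) .nil))))) .nil)) 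
(.lf (nat_lit 26473) (.g (nat_lit 1584) (.e (nat_lit 1194) (nat_lit 88) (.e (nat_lit 65619) (nat_lit 10) (.e (nat_lit 344097) (nat_lit 18) (.e (nat_lit 7270) (nat_lit 385) (.e (nat_lit 122919) (nat_lit 15) .nil))))) .nil)))) (.nd (nat_lit 5) (.nd (nat_lit 6) 
(.lf (nat_lit 26393) (.g (nat_lit 2124) (.e (nat_lit 1193) (nat_lit 88) (.e (nat_lit 65628) (nat_lit 14) (.e (nat_lit 401459) (nat_lit 13) (.e (nat_lit 483350) (nat_lit 17) .nil)))) .nil)) 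
(.lf (nat_lit 26457) (.g (nat_lit 1976) (.e (nat_lit 1194) (nat_lit 88) (.e (nat_lit 65571) (nat_lit 3) (.e (nat_lit 98372) (nat_lit 29) (.e (nat_lit 458496) (nat_lit 3) .nil)))) .nil))) (.nd (nat_lit 6) 
(.lf (nat_lit 26425) (.g (nat_lit 3025) (.e (nat_lit 1193) (nat_lit 88) (.e (nat_lit 65653) (nat_lit 27) (.e (nat_lit 426011) (nat_lit 0) (.e (nat_lit 7581) (nat_lit 405) (.e (nat_lit 57480) (nat_lit 28) (.e (nat_lit 557105) (nat_lit 14) (.e (nat_lit 180233) (nat_lit 0) (.e (nat_lit 5818) (nat_lit 320) .nil)))))))) (.g (nat_lit 4) .nil .nil))) 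
(.lf (nat_lit 26489) (.g (nat_lit 1777) (.e (nat_lit 1194) (nat_lit 88) (.e (nat_lit 65624) (nat_lit 12) (.e (nat_lit 385094) (nat_lit 49) (.e (nat_lit 778326) (nat_lit 6) .nil)))) .nil)))))) (.nd (nat_lit 3) (.nd (nat_lit 4) (.nd (nat_lit 5) (.nd (nat_lit 6) 
(.lf (nat_lit 26373) (.g (nat_lit 1515) (.e (nat_lit 1193) (nat_lit 88) (.e (nat_lit 65628) (nat_lit 14) (.e (nat_lit 401438) (nat_lit 9) (.e (nat_lit 426542) (nat_lit 29) .nil)))) .nil)) 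
(.lf (nat_lit 26437) (.g (nat_lit 2971) (.e (nat_lit 1193) (nat_lit 88) (.e (nat_lit 65653) (nat_lit 27) (.e (nat_lit 426500) (nat_lit 27) (.e (nat_lit 336194) (nat_lit 12) (.e (nat_lit 385066) (nat_lit 26) (.e (nat_lit 532504) (nat_lit 1) (.e (nat_lit 57830) (nat_lit 250) .nil))))))) (.g (nat_lit 7) .nil .nil)))) (.nd (nat_lit 6) 
(.lf (nat_lit 26405) (.g (nat_lit 2394) (.e (nat_lit 1193) (nat_lit 88) (.e (nat_lit 65628) (nat_lit 14) (.e (nat_lit 401459) (nat_lit 13) (.e (nat_lit 483389) (nat_lit 23) .nil)))) .nil)) 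
(.lf (nat_lit 26469) (.g (nat_lit 1942) (.e (nat_lit 1194) (nat_lit 88) (.e (nat_lit 65586) (nat_lit 7) (.e (nat_lit 319534) (nat_lit 16) (.e (nat_lit 286762) (nat_lit 14) .nil)))) .nil)))) (.nd (nat_lit 5) (.nd (nat_lit 6) 
(.lf (nat_lit 26389) (.g (nat_lit 521) (.e (nat_lit 1193) (nat_lit 88) (.e (nat_lit 65628) (nat_lit 14) (.e (nat_lit 401459) (nat_lit 13) .nil))) .nil)) 
(.lf (nat_lit 26453) (.g (nat_lit 3678) (.e (nat_lit 1194) (nat_lit 88) (.e (nat_lit 65570) (nat_lit 3) (.e (nat_lit 98373) (nat_lit 29) (.e (nat_lit 450588) (nat_lit 10) (.e (nat_lit 573475) (nat_lit 12) (.e (nat_lit 57347) (nat_lit 0) (.e (nat_lit 7119) (nat_lit 382) .nil))))))) (.g (nat_lit 5) .nil .nil)))) (.nd (nat_lit 6) 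
(.lf (nat_lit 26421) (.g (nat_lit 2969) (.e (nat_lit 1193) (nat_lit 88) (.e (nat_lit 65653) (nat_lit 27) (.e (nat_lit 426011) (nat_lit 0) (.e (nat_lit 7581) (nat_lit 405) (.e (nat_lit 57480) (nat_lit 28) (.e (nat_lit 557104) (nat_lit 14) (.e (nat_lit 180233) (nat_lit 0) (.e (nat_lit 5816) (nat_lit 320) .nil)))))))) (.g (nat_lit 4) .nil .nil))) 
(.lf (nat_lit 26485) (.g (nat_lit 3888) (.e (nat_lit 1194) (nat_lit 88) (.e (nat_lit 65624) (nat_lit 12) (.e (nat_lit 385074) (nat_lit 31) (.e (nat_lit 573493) (nat_lit 15) (.e (nat_lit 81959) (nat_lit 24) .nil))))) .nil))))) (.nd (nat_lit 4) (.nd (nat_lit 5) (.nd (nat_lit 6) 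
(.lf (nat_lit 26381) (.g (nat_lit 1838) (.e (nat_lit 1193) (nat_lit 88) (.e (nat_lit 65628) (nat_lit 14) (.e (nat_lit 401457) (nat_lit 13) (.e (nat_lit 483389) (nat_lit 23) (.e (nat_lit 336032) (nat_lit 4) .nil))))) .nil)) 
(.lf (nat_lit 26445) (.g (nat_lit 3914) (.e (nat_lit 1194) (nat_lit 88) (.e (nat_lit 65570) (nat_lit 3) (.e (nat_lit 98373) (nat_lit 29) (.e (nat_lit 450588) (nat_lit 10) (.e (nat_lit 573473) (nat_lit 12) (.e (nat_lit 57348) (nat_lit 0) (.e (nat_lit 7126) (nat_lit 382) .nil))))))) (.g (nat_lit 6) .nil .nil)))) (.nd (nat_lit 6) 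
(.lf (nat_lit 26413) (.g (nat_lit 1474) (.e (nat_lit 1193) (nat_lit 88) (.e (nat_lit 65637) (nat_lit 15) (.e (nat_lit 3632) (nat_lit 227) (.e (nat_lit 778324) (nat_lit 5) .nil)))) .nil)) 
(.lf (nat_lit 26477) (.g (nat_lit 1857) (.e (nat_lit 1194) (nat_lit 88) (.e (nat_lit 65619) (nat_lit 10) (.e (nat_lit 344160) (nat_lit 37) (.e (nat_lit 647195) (nat_lit 9) (.e (nat_lit 7936) (nat_lit 37) (.e (nat_lit 466971) (nat_lit 21) (.e (nat_lit 164308) (nat_lit 226) .nil))))))) (.g (nat_lit 4) .nil .nil))))) (.nd (nat_lit 5) (.nd (nat_lit 6) 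
(.lf (nat_lit 26397) (.g (nat_lit 2179) (.e (nat_lit 1193) (nat_lit 88) (.e (nat_lit 65628) (nat_lit 14) (.e (nat_lit 401459) (nat_lit 13) (.e (nat_lit 483374) (nat_lit 22) .nil)))) .nil)) 
(.lf (nat_lit 26461) (.g (nat_lit 1852) (.e (nat_lit 1194) (nat_lit 88) (.e (nat_lit 65571) (nat_lit 3) (.e (nat_lit 98373) (nat_lit 29) (.e (nat_lit 458496) (nat_lit 3) .nil)))) .nil))) (.nd (nat_lit 6) 
(.lf (nat_lit 26429) (.g (nat_lit 2601) (.e (nat_lit 1193) (nat_lit 88) (.e (nat_lit 65653) (nat_lit 27) (.e (nat_lit 426500) (nat_lit 27) (.e (nat_lit 336087) (nat_lit 9) (.e (nat_lit 336019) (nat_lit 3) (.e (nat_lit 98335) (nat_lit 18) (.e (nat_lit 164155) (nat_lit 152) .nil))))))) (.g (nat_lit 6) .nil .nil))) 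
(.lf (nat_lit 26493) (.g (nat_lit 2042) (.e (nat_lit 1194) (nat_lit 88) (.e (nat_lit 65624) (nat_lit 12) (.e (nat_lit 385094) (nat_lit 49) (.e (nat_lit 778327) (nat_lit 6) (.e (nat_lit 81959) (nat_lit 24) .nil))))) .nil))))))) (.nd (nat_lit 2) (.nd (nat_lit 3) (.nd (nat_lit 4) (.nd (nat_lit 5) (.nd (nat_lit 6) 
(.lf (nat_lit 26371) (.g (nat_lit 1788) (.e (nat_lit 1193) (nat_lit 88) (.e (nat_lit 65628) (nat_lit 14) (.e (nat_lit 401437) (nat_lit 9) (.e (nat_lit 426555) (nat_lit 32) .nil)))) .nil)) 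
(.lf (nat_lit 26435) (.g (nat_lit 3093) (.e (nat_lit 1193) (nat_lit 88) (.e (nat_lit 65653) (nat_lit 27) (.e (nat_lit 426500) (nat_lit 27) (.e (nat_lit 336184) (nat_lit 11) (.e (nat_lit 368676) (nat_lit 21) (.e (nat_lit 516115) (nat_lit 1) (.e (nat_lit 164153) (nat_lit 152) .nil))))))) (.g (nat_lit 0) .nil .nil)))) (.nd (nat_lit 6) 
(.lf (nat_lit 26403) (.g (nat_lit 2156) (.e (nat_lit 1193) (nat_lit 88) (.e (nat_lit 65628) (nat_lit 14) (.e (nat_lit 401459) (nat_lit 13) (.e (nat_lit 483387) (nat_lit 23) .nil)))) .nil)) 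
(.lf (nat_lit 26467) (.g (nat_lit 1341) (.e (nat_lit 1194) (nat_lit 88) (.e (nat_lit 65586) (nat_lit 7) (.e (nat_lit 319531) (nat_lit 16) (.e (nat_lit 286759) (nat_lit 12) .nil)))) .nil)))) (.nd (nat_lit 5) (.nd (nat_lit 6) 
(.lf (nat_lit 26387) (.g (nat_lit 1534) (.e (nat_lit 1193) (nat_lit 88) (.e (nat_lit 65628) (nat_lit 14) (.e (nat_lit 401458) (nat_lit 13) (.e (nat_lit 483393) (nat_lit 23) .nil)))) .nil)) 
(.lf (nat_lit 26451) (.g (nat_lit 4199) (.e (nat_lit 1194) (nat_lit 88) (.e (nat_lit 65570) (nat_lit 3) (.e (nat_lit 98373) (nat_lit 29) (.e (nat_lit 450588) (nat_lit 10) (.e (nat_lit 573475) (nat_lit 12) (.e (nat_lit 57345) (nat_lit 0) (.e (nat_lit 7219) (nat_lit 382) .nil))))))) (.g (nat_lit 6) .nil .nil)))) (.nd (nat_lit 6) 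
(.lf (nat_lit 26419) (.g (nat_lit 2971) (.e (nat_lit 1193) (nat_lit 88) (.e (nat_lit 65653) (nat_lit 27) (.e (nat_lit 426011) (nat_lit 0) (.e (nat_lit 7581) (nat_lit 405) (.e (nat_lit 57480) (nat_lit 28) (.e (nat_lit 557103) (nat_lit 14) (.e (nat_lit 180225) (nat_lit 0) (.e (nat_lit 5823) (nat_lit 320) .nil)))))))) (.g (nat_lit 4) .nil .nil))) 
(.lf (nat_lit 26483) (.g (nat_lit 965) (.e (nat_lit 1194) (nat_lit 88) (.e (nat_lit 65623) (nat_lit 12) (.e (nat_lit 385106) (nat_lit 50) (.e (nat_lit 786483) (nat_lit 30) .nil)))) .nil))))) (.nd (nat_lit 4) (.nd (nat_lit 5) (.nd (nat_lit 6) 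
(.lf (nat_lit 26379) (.g (nat_lit 658) (.e (nat_lit 1193) (nat_lit 88) (.e (nat_lit 65628) (nat_lit 14) (.e (nat_lit 401457) (nat_lit 13) .nil))) .nil)) 
(.lf (nat_lit 26443) (.g (nat_lit 2994) (.e (nat_lit 1194) (nat_lit 88) (.e (nat_lit 65570) (nat_lit 3) (.e (nat_lit 98373) (nat_lit 29) (.e (nat_lit 450588) (nat_lit 10) (.e (nat_lit 573473) (nat_lit 12) (.e (nat_lit 57345) (nat_lit 0) (.e (nat_lit 7220) (nat_lit 382) .nil))))))) (.g (nat_lit 4) .nil .nil)))) (.nd (nat_lit 6) 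
(.lf (nat_lit 26411) (.g (nat_lit 2307) (.e (nat_lit 1193) (nat_lit 88) (.e (nat_lit 65628) (nat_lit 14) (.e (nat_lit 401459) (nat_lit 13) (.e (nat_lit 483396) (nat_lit 24) .nil)))) .nil)) 
(.lf (nat_lit 26475) (.g (nat_lit 1298) (.e (nat_lit 1194) (nat_lit 88) (.e (nat_lit 65619) (nat_lit 10) (.e (nat_lit 344160) (nat_lit 37) (.e (nat_lit 647195) (nat_lit 9) .nil)))) .nil)))) (.nd (nat_lit 5) (.nd (nat_lit 6) 
(.lf (nat_lit 26395) (.g (nat_lit 2993) (.e (nat_lit 1193) (nat_lit 88) (.e (nat_lit 65628) (nat_lit 14) (.e (nat_lit 401459) (nat_lit 13) (.e (nat_lit 483350) (nat_lit 17) (.e (nat_lit 6113) (nat_lit 332) .nil))))) .nil)) 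
(.lf (nat_lit 26459) (.g (nat_lit 2700) (.e (nat_lit 1194) (nat_lit 88) (.e (nat_lit 65571) (nat_lit 3) (.e (nat_lit 98372) (nat_lit 29) (.e (nat_lit 450579) (nat_lit 5) (.e (nat_lit 532503) (nat_lit 1) .nil))))) .nil))) (.nd (nat_lit 6) 
(.lf (nat_lit 26427) (.g (nat_lit 3364) (.e (nat_lit 1193) (nat_lit 88) (.e (nat_lit 65653) (nat_lit 27) (.e (nat_lit 426500) (nat_lit 27) (.e (nat_lit 336087) (nat_lit 9) (.e (nat_lit 336019) (nat_lit 3) (.e (nat_lit 98333) (nat_lit 18) (.e (nat_lit 164154) (nat_lit 152) .nil))))))) (.g (nat_lit 6) .nil .nil))) 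
(.lf (nat_lit 26491) (.g (nat_lit 1764) (.e (nat_lit 1194) (nat_lit 88) (.e (nat_lit 65624) (nat_lit 12) (.e (nat_lit 385094) (nat_lit 49) (.e (nat_lit 778327) (nat_lit 6) .nil)))) .nil)))))) (.nd (nat_lit 3) (.nd (nat_lit 4) (.nd (nat_lit 5) (.nd (nat_lit 6) 
(.lf (nat_lit 26375) (.g (nat_lit 667) (.e (nat_lit 1193) (nat_lit 88) (.e (nat_lit 65628) (nat_lit 14) (.e (nat_lit 401454) (nat_lit 12) .nil))) .nil)) 
(.lf (nat_lit 26439) (.g (nat_lit 3110) (.e (nat_lit 1193) (nat_lit 88) (.e (nat_lit 65653) (nat_lit 27) (.e (nat_lit 426500) (nat_lit 27) (.e (nat_lit 336204) (nat_lit 12) (.e (nat_lit 385066) (nat_lit 26) (.e (nat_lit 532501) (nat_lit 1) (.e (nat_lit 57830) (nat_lit 250) .nil))))))) (.g (nat_lit 0) .nil .nil)))) (.nd (nat_lit 6) 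
(.lf (nat_lit 26407) (.g (nat_lit 2336) (.e (nat_lit 1193) (nat_lit 88) (.e (nat_lit 65628) (nat_lit 14) (.e (nat_lit 401459) (nat_lit 13) (.e (nat_lit 483393) (nat_lit 23) .nil)))) .nil)) 
(.lf (nat_lit 26471) (.g (nat_lit 2590) (.e (nat_lit 1194) (nat_lit 88) (.e (nat_lit 65610) (nat_lit 10) (.e (nat_lit 344097) (nat_lit 18) (.e (nat_lit 5906) (nat_lit 320) (.e (nat_lit 1221) (nat_lit 90) (.e (nat_lit 81959) (nat_lit 24) (.e (nat_lit 123181) (nat_lit 264) .nil))))))) (.g (nat_lit 5) .nil .nil))))) (.nd (nat_lit 5) (.nd (nat_lit 6) 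
(.lf (nat_lit 26391) (.g (nat_lit 2387) (.e (nat_lit 1193) (nat_lit 88) (.e (nat_lit 65628) (nat_lit 14) (.e (nat_lit 401459) (nat_lit 13) (.e (nat_lit 483344) (nat_lit 17) (.e (nat_lit 6155) (nat_lit 332) .nil))))) .nil)) 
(.lf (nat_lit 26455) (.g (nat_lit 3001) (.e (nat_lit 1194) (nat_lit 88) (.e (nat_lit 65570) (nat_lit 3) (.e (nat_lit 98373) (nat_lit 29) (.e (nat_lit 450588) (nat_lit 10) (.e (nat_lit 573475) (nat_lit 12) (.e (nat_lit 57349) (nat_lit 0) (.e (nat_lit 7219) (nat_lit 382) .nil))))))) (.g (nat_lit 4) .nil .nil)))) (.nd (nat_lit 6) 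
(.lf (nat_lit 26423) (.g (nat_lit 3174) (.e (nat_lit 1193) (nat_lit 88) (.e (nat_lit 65653) (nat_lit 27) (.e (nat_lit 426011) (nat_lit 0) (.e (nat_lit 7581) (nat_lit 405) (.e (nat_lit 57480) (nat_lit 28) (.e (nat_lit 557105) (nat_lit 14) (.e (nat_lit 180227) (nat_lit 0) (.e (nat_lit 5796) (nat_lit 320) .nil)))))))) (.g (nat_lit 5) .nil .nil))) 
(.lf (nat_lit 26487) (.g (nat_lit 1677) (.e (nat_lit 1194) (nat_lit 88) (.e (nat_lit 65624) (nat_lit 12) (.e (nat_lit 385093) (nat_lit 49) (.e (nat_lit 778326) (nat_lit 6) .nil)))) .nil))))) (.nd (nat_lit 4) (.nd (nat_lit 5) (.nd (nat_lit 6) 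
(.lf (nat_lit 26383) (.g (nat_lit 626) (.e (nat_lit 1193) (nat_lit 88) (.e (nat_lit 65628) (nat_lit 14) (.e (nat_lit 401458) (nat_lit 13) .nil))) .nil)) 
(.lf (nat_lit 26447) (.g (nat_lit 2859) (.e (nat_lit 1194) (nat_lit 88) (.e (nat_lit 65570) (nat_lit 3) (.e (nat_lit 98373) (nat_lit 29) (.e (nat_lit 450588) (nat_lit 10) (.e (nat_lit 573473) (nat_lit 12) (.e (nat_lit 57353) (nat_lit 0) (.e (nat_lit 7119) (nat_lit 382) .nil))))))) (.g (nat_lit 4) .nil .nil)))) (.nd (nat_lit 6) 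
(.lf (nat_lit 26415) (.g (nat_lit 2684) (.e (nat_lit 1193) (nat_lit 88) (.e (nat_lit 65653) (nat_lit 27) (.e (nat_lit 426011) (nat_lit 0) (.e (nat_lit 7581) (nat_lit 405) (.e (nat_lit 57477) (nat_lit 28) .nil))))) .nil)) 
(.lf (nat_lit 26479) (.g (nat_lit 1842) (.e (nat_lit 1194) (nat_lit 88) (.e (nat_lit 65622) (nat_lit 12) (.e (nat_lit 385106) (nat_lit 50) (.e (nat_lit 786483) (nat_lit 30) (.e (nat_lit 368384) (nat_lit 0) .nil))))) .nil)))) (.nd (nat_lit 5) (.nd (nat_lit 6) 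
(.lf (nat_lit 26399) (.g (nat_lit 1800) (.e (nat_lit 1193) (nat_lit 88) (.e (nat_lit 65628) (nat_lit 14) (.e (nat_lit 401459) (nat_lit 13) (.e (nat_lit 483378) (nat_lit 23) .nil)))) .nil)) 
(.lf (nat_lit 26463) (.g (nat_lit 1941) (.e (nat_lit 1194) (nat_lit 88) (.e (nat_lit 65586) (nat_lit 7) (.e (nat_lit 319531) (nat_lit 16) (.e (nat_lit 286727) (nat_lit 0) (.e (nat_lit 7936) (nat_lit 362) .nil))))) .nil))) (.nd (nat_lit 6) 
(.lf (nat_lit 26431) (.g (nat_lit 3772) (.e (nat_lit 1193) (nat_lit 88) (.e (nat_lit 65653) (nat_lit 27) (.e (nat_lit 426500) (nat_lit 27) (.e (nat_lit 336088) (nat_lit 9) (.e (nat_lit 336019) (nat_lit 3) (.e (nat_lit 98333) (nat_lit 18) (.e (nat_lit 164154) (nat_lit 152) .nil))))))) (.g (nat_lit 6) .nil .nil))) 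
(.lf (nat_lit 26495) (.g (nat_lit 1655) (.e (nat_lit 1194) (nat_lit 88) (.e (nat_lit 65624) (nat_lit 12) (.e (nat_lit 385105) (nat_lit 50) (.e (nat_lit 786483) (nat_lit 30) .nil)))) .nil)))))))))

noncomputable def tv370 : DT := (.nd (nat_lit 0) (.nd (nat_lit 1) (.nd (nat_lit 2) (.nd (nat_lit 3) (.nd (nat_lit 4) (.nd (nat_lit 5) (.nd (nat_lit 6) 
(.lf (nat_lit 26496) (.g (nat_lit 2384) (.e (nat_lit 1194) (nat_lit 88) (.e (nat_lit 65624) (nat_lit 12) (.e (nat_lit 385105) (nat_lit 50) (.e (nat_lit 786483) (nat_lit 30) (.e (nat_lit 360450) (nat_lit 0) .nil))))) .nil)) 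
(.lf (nat_lit 26560) (.g (nat_lit 2070) (.e (nat_lit 1194) (nat_lit 88) (.e (nat_lit 65628) (nat_lit 14) (.e (nat_lit 401459) (nat_lit 13) (.e (nat_lit 483398) (nat_lit 25) .nil)))) .nil))) (.nd (nat_lit 6) 
(.lf (nat_lit 26528) (.g (nat_lit 1884) (.e (nat_lit 1194) (nat_lit 88) (.e (nat_lit 65628) (nat_lit 14) (.e (nat_lit 401437) (nat_lit 9) (.e (nat_lit 426546) (nat_lit 30) .nil)))) .nil)) 
(.lf (nat_lit 26592) (.g (nat_lit 2916) (.e (nat_lit 1194) (nat_lit 88) (.e (nat_lit 65630) (nat_lit 14) (.e (nat_lit 401454) (nat_lit 12) (.e (nat_lit 475214) (nat_lit 42) .nil)))) .nil)))) (.nd (nat_lit 5) (.nd (nat_lit 6) 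
(.lf (nat_lit 26512) (.g (nat_lit 1039) (.e (nat_lit 1194) (nat_lit 88) (.e (nat_lit 65626) (nat_lit 13) (.e (nat_lit 393300) (nat_lit 27) (.e (nat_lit 491558) (nat_lit 10) .nil)))) .nil)) 
(.lf (nat_lit 26576) (.g (nat_lit 2638) (.e (nat_lit 1194) (nat_lit 88) (.e (nat_lit 65629) (nat_lit 14) (.e (nat_lit 401459) (nat_lit 13) (.e (nat_lit 483374) (nat_lit 22) (.e (nat_lit 327684) (nat_lit 0) .nil))))) .nil))) (.nd (nat_lit 6) 
(.lf (nat_lit 26544) (.g (nat_lit 2129) (.e (nat_lit 1194) (nat_lit 88) (.e (nat_lit 65628) (nat_lit 14) (.e (nat_lit 401459) (nat_lit 13) (.e (nat_lit 483350) (nat_lit 17) .nil)))) .nil)) 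
(.lf (nat_lit 26608) (.g (nat_lit 2636) (.e (nat_lit 1194) (nat_lit 88) (.e (nat_lit 65630) (nat_lit 14) (.e (nat_lit 401459) (nat_lit 13) (.e (nat_lit 483398) (nat_lit 25) .nil)))) .nil))))) (.nd (nat_lit 4) (.nd (nat_lit 5) (.nd (nat_lit 6) 
(.lf (nat_lit 26504) (.g (nat_lit 844) (.e (nat_lit 1194) (nat_lit 88) (.e (nat_lit 65626) (nat_lit 13) (.e (nat_lit 393233) (nat_lit 17) (.e (nat_lit 7593) (nat_lit 407) .nil)))) .nil)) 
(.lf (nat_lit 26568) (.g (nat_lit 2811) (.e (nat_lit 1194) (nat_lit 88) (.e (nat_lit 65629) (nat_lit 14) (.e (nat_lit 401459) (nat_lit 13) (.e (nat_lit 483344) (nat_lit 17) (.e (nat_lit 6155) (nat_lit 332) .nil))))) .nil))) (.nd (nat_lit 6) 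
(.lf (nat_lit 26536) (.g (nat_lit 1795) (.e (nat_lit 1194) (nat_lit 88) (.e (nat_lit 65628) (nat_lit 14) (.e (nat_lit 401457) (nat_lit 13) (.e (nat_lit 483393) (nat_lit 23) .nil)))) .nil)) 
(.lf (nat_lit 26600) (.g (nat_lit 4068) (.e (nat_lit 1194) (nat_lit 88) (.e (nat_lit 65630) (nat_lit 14) (.e (nat_lit 401459) (nat_lit 13) (.e (nat_lit 483372) (nat_lit 21) (.e (nat_lit 327424) (nat_lit 1) .nil))))) .nil)))) (.nd (nat_lit 5) (.nd (nat_lit 6) 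
(.lf (nat_lit 26520) (.g (nat_lit 2786) (.e (nat_lit 1194) (nat_lit 88) (.e (nat_lit 65626) (nat_lit 13) (.e (nat_lit 393301) (nat_lit 27) (.e (nat_lit 491558) (nat_lit 10) (.e (nat_lit 344091) (nat_lit 18) .nil))))) .nil)) 
(.lf (nat_lit 26584) (.g (nat_lit 2859) (.e (nat_lit 1194) (nat_lit 88) (.e (nat_lit 65630) (nat_lit 14) (.e (nat_lit 401425) (nat_lit 2) (.e (nat_lit 196666) (nat_lit 13) (.e (nat_lit 65610) (nat_lit 10) .nil))))) .nil))) (.nd (nat_lit 6) 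
(.lf (nat_lit 26552) (.g (nat_lit 2150) (.e (nat_lit 1194) (nat_lit 88) (.e (nat_lit 65628) (nat_lit 14) (.e (nat_lit 401459) (nat_lit 13) (.e (nat_lit 483375) (nat_lit 22) .nil)))) .nil)) 
(.lf (nat_lit 26616) (.g (nat_lit 3175) (.e (nat_lit 1195) (nat_lit 88) (.e (nat_lit 65570) (nat_lit 3) (.e (nat_lit 98373) (nat_lit 29) (.e (nat_lit 450588) (nat_lit 10) (.e (nat_lit 573475) (nat_lit 12) (.e (nat_lit 57348) (nat_lit 0) (.e (nat_lit 7119) (nat_lit 382) .nil))))))) (.g (nat_lit 4) .nil .nil))))))) (.nd (nat_lit 3) (.nd (nat_lit 4) (.nd (nat_lit 5) (.nd (nat_lit 6) 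
(.lf (nat_lit 26500) (.g (nat_lit 1781) (.e (nat_lit 1194) (nat_lit 88) (.e (nat_lit 65624) (nat_lit 12) (.e (nat_lit 385106) (nat_lit 50) (.e (nat_lit 786483) (nat_lit 30) .nil)))) .nil)) 
(.lf (nat_lit 26564) (.g (nat_lit 512) (.e (nat_lit 1194) (nat_lit 88) (.e (nat_lit 65629) (nat_lit 14) (.e (nat_lit 401459) (nat_lit 13) .nil))) .nil))) (.nd (nat_lit 6) 
(.lf (nat_lit 26532) (.g (nat_lit 3059) (.e (nat_lit 1194) (nat_lit 88) (.e (nat_lit 65628) (nat_lit 14) (.e (nat_lit 401454) (nat_lit 12) (.e (nat_lit 475212) (nat_lit 42) (.e (nat_lit 720956) (nat_lit 25) (.e (nat_lit 114712) (nat_lit 21) (.e (nat_lit 57672) (nat_lit 152) .nil))))))) (.g (nat_lit 4) .nil .nil))) 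
(.lf (nat_lit 26596) (.g (nat_lit 3119) (.e (nat_lit 1194) (nat_lit 88) (.e (nat_lit 65630) (nat_lit 14) (.e (nat_lit 401459) (nat_lit 13) (.e (nat_lit 483344) (nat_lit 17) (.e (nat_lit 6714) (nat_lit 360) .nil))))) .nil)))) (.nd (nat_lit 5) (.nd (nat_lit 6) 
(.lf (nat_lit 26516) (.g (nat_lit 1082) (.e (nat_lit 1194) (nat_lit 88) (.e (nat_lit 65626) (nat_lit 13) (.e (nat_lit 393300) (nat_lit 27) (.e (nat_lit 491560) (nat_lit 10) .nil)))) .nil)) 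
(.lf (nat_lit 26580) (.g (nat_lit 2898) (.e (nat_lit 1194) (nat_lit 88) (.e (nat_lit 65629) (nat_lit 14) (.e (nat_lit 401459) (nat_lit 13) (.e (nat_lit 483397) (nat_lit 25) .nil)))) .nil))) (.nd (nat_lit 6) 
(.lf (nat_lit 26548) (.g (nat_lit 4339) (.e (nat_lit 1194) (nat_lit 88) (.e (nat_lit 65628) (nat_lit 14) (.e (nat_lit 401459) (nat_lit 13) (.e (nat_lit 483372) (nat_lit 21) (.e (nat_lit 319490) (nat_lit 0) .nil))))) .nil)) 
(.lf (nat_lit 26612) (.g (nat_lit 2296) (.e (nat_lit 1195) (nat_lit 88) (.e (nat_lit 65568) (nat_lit 2) (.e (nat_lit 90170) (nat_lit 13) (.e (nat_lit 172106) (nat_lit 10) (.e (nat_lit 434244) (nat_lit 28) (.e (nat_lit 573468) (nat_lit 10) (.e (nat_lit 8193) (nat_lit 0) (.e (nat_lit 4443) (nat_lit 263) .nil)))))))) (.g (nat_lit 5) .nil .nil)))))) (.nd (nat_lit 4) (.nd (nat_lit 5) (.nd (nat_lit 6) 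
(.lf (nat_lit 26508) (.g (nat_lit 991) (.e (nat_lit 1194) (nat_lit 88) (.e (nat_lit 65626) (nat_lit 13) (.e (nat_lit 393234) (nat_lit 17) (.e (nat_lit 7593) (nat_lit 407) .nil)))) .nil)) 
(.lf (nat_lit 26572) (.g (nat_lit 2603) (.e (nat_lit 1194) (nat_lit 88) (.e (nat_lit 65629) (nat_lit 14) (.e (nat_lit 401459) (nat_lit 13) (.e (nat_lit 483354) (nat_lit 17) .nil)))) .nil))) (.nd (nat_lit 6) 
(.lf (nat_lit 26540) (.g (nat_lit 1420) (.e (nat_lit 1194) (nat_lit 88) (.e (nat_lit 65628) (nat_lit 14) (.e (nat_lit 401459) (nat_lit 13) (.e (nat_lit 483344) (nat_lit 17) .nil)))) .nil)) 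
(.lf (nat_lit 26604) (.g (nat_lit 3312) (.e (nat_lit 1194) (nat_lit 88) (.e (nat_lit 65630) (nat_lit 14) (.e (nat_lit 401459) (nat_lit 13) (.e (nat_lit 483375) (nat_lit 22) (.e (nat_lit 327692) (nat_lit 1) .nil))))) .nil)))) (.nd (nat_lit 5) (.nd (nat_lit 6) 
(.lf (nat_lit 26524) (.g (nat_lit 2402) (.e (nat_lit 1194) (nat_lit 88) (.e (nat_lit 65628) (nat_lit 14) (.e (nat_lit 401428) (nat_lit 3) (.e (nat_lit 204869) (nat_lit 29) (.e (nat_lit 360448) (nat_lit 0) .nil))))) .nil)) 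
(.lf (nat_lit 26588) (.g (nat_lit 1467) (.e (nat_lit 1194) (nat_lit 88) (.e (nat_lit 65630) (nat_lit 14) (.e (nat_lit 401438) (nat_lit 9) (.e (nat_lit 426544) (nat_lit 30) .nil)))) .nil))) (.nd (nat_lit 6) 
(.lf (nat_lit 26556) (.g (nat_lit 1770) (.e (nat_lit 1194) (nat_lit 88) (.e (nat_lit 65628) (nat_lit 14) (.e (nat_lit 401459) (nat_lit 13) (.e (nat_lit 483386) (nat_lit 23) .nil)))) .nil)) 
(.lf (nat_lit 26620) (.g (nat_lit 1890) (.e (nat_lit 1195) (nat_lit 88) (.e (nat_lit 65585) (nat_lit 7) (.e (nat_lit 319533) (nat_lit 16) (.e (nat_lit 286753) (nat_lit 10) (.e (nat_lit 344097) (nat_lit 18) (.e (nat_lit 5195) (nat_lit 294) (.e (nat_lit 57363) (nat_lit 1) (.e (nat_lit 57825) (nat_lit 250) .nil)))))))) (.g (nat_lit 5) .nil .nil)))))))) 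
(.nd (nat_lit 2) (.nd (nat_lit 3) (.nd (nat_lit 4) (.nd (nat_lit 5) (.nd (nat_lit 6) 
(.lf (nat_lit 26498) (.g (nat_lit 686) (.e (nat_lit 1194) (nat_lit 88) (.e (nat_lit 65624) (nat_lit 12) (.e (nat_lit 385106) (nat_lit 50) .nil))) .nil)) 
(.lf (nat_lit 26562) (.g (nat_lit 2407) (.e (nat_lit 1194) (nat_lit 88) (.e (nat_lit 65629) (nat_lit 14) (.e (nat_lit 401454) (nat_lit 12) (.e (nat_lit 475212) (nat_lit 42) .nil)))) .nil))) (.nd (nat_lit 6) 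
(.lf (nat_lit 26530) (.g (nat_lit 1449) (.e (nat_lit 1194) (nat_lit 88) (.e (nat_lit 65628) (nat_lit 14) (.e (nat_lit 401438) (nat_lit 9) (.e (nat_lit 426546) (nat_lit 30) .nil)))) .nil)) 
(.lf (nat_lit 26594) (.g (nat_lit 2398) (.e (nat_lit 1194) (nat_lit 88) (.e (nat_lit 65630) (nat_lit 14) (.e (nat_lit 401459) (nat_lit 13) (.e (nat_lit 483344) (nat_lit 17) .nil)))) .nil)))) (.nd (nat_lit 5) (.nd (nat_lit 6) 
(.lf (nat_lit 26514) (.g (nat_lit 2299) (.e (nat_lit 1194) (nat_lit 88) (.e (nat_lit 65626) (nat_lit 13) (.e (nat_lit 393300) (nat_lit 27) (.e (nat_lit 491558) (nat_lit 10) (.e (nat_lit 344095) (nat_lit 18) (.e (nat_lit 7128) (nat_lit 382) .nil)))))) (.g (nat_lit 5) .nil .nil))) 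
(.lf (nat_lit 26578) (.g (nat_lit 3230) (.e (nat_lit 1194) (nat_lit 88) (.e (nat_lit 65629) (nat_lit 14) (.e (nat_lit 401459) (nat_lit 13) (.e (nat_lit 483375) (nat_lit 22) (.e (nat_lit 327692) (nat_lit 1) .nil))))) .nil))) (.nd (nat_lit 6) 
(.lf (nat_lit 26546) (.g (nat_lit 3489) (.e (nat_lit 1194) (nat_lit 88) (.e (nat_lit 65628) (nat_lit 14) (.e (nat_lit 401459) (nat_lit 13) (.e (nat_lit 483350) (nat_lit 17) (.e (nat_lit 6240) (nat_lit 336) .nil))))) .nil)) 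
(.lf (nat_lit 26610) (.g (nat_lit 3737) (.e (nat_lit 1194) (nat_lit 88) (.e (nat_lit 65630) (nat_lit 14) (.e (nat_lit 401459) (nat_lit 13) (.e (nat_lit 483411) (nat_lit 27) (.e (nat_lit 401414) (nat_lit 0) .nil))))) .nil))))) (.nd (nat_lit 4) (.nd (nat_lit 5) (.nd (nat_lit 6) 
(.lf (nat_lit 26506) (.g (nat_lit 2479) (.e (nat_lit 1194) (nat_lit 88) (.e (nat_lit 65626) (nat_lit 13) (.e (nat_lit 393234) (nat_lit 17) (.e (nat_lit 7591) (nat_lit 407) (.e (nat_lit 73729) (nat_lit 0) (.e (nat_lit 7128) (nat_lit 382) .nil)))))) (.g (nat_lit 5) .nil .nil))) 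
(.lf (nat_lit 26570) (.g (nat_lit 4453) (.e (nat_lit 1194) (nat_lit 88) (.e (nat_lit 65629) (nat_lit 14) (.e (nat_lit 401459) (nat_lit 13) (.e (nat_lit 483350) (nat_lit 17) (.e (nat_lit 6239) (nat_lit 336) .nil))))) .nil))) (.nd (nat_lit 6) 
(.lf (nat_lit 26538) (.g (nat_lit 1622) (.e (nat_lit 1194) (nat_lit 88) (.e (nat_lit 65628) (nat_lit 14) (.e (nat_lit 401458) (nat_lit 13) (.e (nat_lit 483393) (nat_lit 23) .nil)))) .nil)) 
(.lf (nat_lit 26602) (.g (nat_lit 3105) (.e (nat_lit 1194) (nat_lit 88) (.e (nat_lit 65630) (nat_lit 14) (.e (nat_lit 401459) (nat_lit 13) (.e (nat_lit 483374) (nat_lit 22) (.e (nat_lit 327684) (nat_lit 0) .nil))))) .nil)))) (.nd (nat_lit 5) (.nd (nat_lit 6) 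
(.lf (nat_lit 26522) (.g (nat_lit 3183) (.e (nat_lit 1194) (nat_lit 88) (.e (nat_lit 65626) (nat_lit 13) (.e (nat_lit 393301) (nat_lit 27) (.e (nat_lit 491560) (nat_lit 10) (.e (nat_lit 344087) (nat_lit 18) .nil))))) .nil)) 
(.lf (nat_lit 26586) (.g (nat_lit 2482) (.e (nat_lit 1194) (nat_lit 88) (.e (nat_lit 65630) (nat_lit 14) (.e (nat_lit 401428) (nat_lit 3) (.e (nat_lit 204866) (nat_lit 28) (.e (nat_lit 352318) (nat_lit 24) (.e (nat_lit 130816) (nat_lit 140) .nil)))))) (.g (nat_lit 4) .nil .nil)))) (.nd (nat_lit 6) 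
(.lf (nat_lit 26554) (.g (nat_lit 3127) (.e (nat_lit 1194) (nat_lit 88) (.e (nat_lit 65628) (nat_lit 14) (.e (nat_lit 401459) (nat_lit 13) (.e (nat_lit 483375) (nat_lit 22) (.e (nat_lit 327692) (nat_lit 1) (.e (nat_lit 8434) (nat_lit 138) .nil)))))) (.g (nat_lit 4) .nil .nil))) 
(.lf (nat_lit 26618) (.g (nat_lit 1577) (.e (nat_lit 1195) (nat_lit 88) (.e (nat_lit 65571) (nat_lit 3) (.e (nat_lit 98373) (nat_lit 29) (.e (nat_lit 450588) (nat_lit 10) .nil)))) .nil)))))) (.nd (nat_lit 3) (.nd (nat_lit 4) (.nd (nat_lit 5) (.nd (nat_lit 6) 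
(.lf (nat_lit 26502) (.g (nat_lit 2539) (.e (nat_lit 1194) (nat_lit 88) (.e (nat_lit 65624) (nat_lit 12) (.e (nat_lit 385106) (nat_lit 50) (.e (nat_lit 786483) (nat_lit 30) (.e (nat_lit 368384) (nat_lit 0) .nil))))) .nil)) 
(.lf (nat_lit 26566) (.g (nat_lit 2802) (.e (nat_lit 1194) (nat_lit 88) (.e (nat_lit 65629) (nat_lit 14) (.e (nat_lit 401459) (nat_lit 13) (.e (nat_lit 483344) (nat_lit 17) (.e (nat_lit 6152) (nat_lit 332) .nil))))) .nil))) (.nd (nat_lit 6) 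
(.lf (nat_lit 26534) (.g (nat_lit 4203) (.e (nat_lit 1194) (nat_lit 88) (.e (nat_lit 65628) (nat_lit 14) (.e (nat_lit 401454) (nat_lit 12) (.e (nat_lit 475214) (nat_lit 42) (.e (nat_lit 720955) (nat_lit 25) .nil))))) .nil)) 
(.lf (nat_lit 26598) (.g (nat_lit 2678) (.e (nat_lit 1194) (nat_lit 88) (.e (nat_lit 65630) (nat_lit 14) (.e (nat_lit 401459) (nat_lit 13) (.e (nat_lit 483354) (nat_lit 17) .nil)))) .nil)))) (.nd (nat_lit 5) (.nd (nat_lit 6) 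
(.lf (nat_lit 26518) (.g (nat_lit 1967) (.e (nat_lit 1194) (nat_lit 88) (.e (nat_lit 65626) (nat_lit 13) (.e (nat_lit 393300) (nat_lit 27) (.e (nat_lit 491560) (nat_lit 10) (.e (nat_lit 344094) (nat_lit 18) .nil))))) .nil)) 
(.lf (nat_lit 26582) (.g (nat_lit 3297) (.e (nat_lit 1194) (nat_lit 88) (.e (nat_lit 65629) (nat_lit 14) (.e (nat_lit 401459) (nat_lit 13) (.e (nat_lit 483411) (nat_lit 27) (.e (nat_lit 401414) (nat_lit 0) .nil))))) .nil))) (.nd (nat_lit 6) 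
(.lf (nat_lit 26550) (.g (nat_lit 3549) (.e (nat_lit 1194) (nat_lit 88) (.e (nat_lit 65628) (nat_lit 14) (.e (nat_lit 401459) (nat_lit 13) (.e (nat_lit 483372) (nat_lit 21) (.e (nat_lit 327424) (nat_lit 1) .nil))))) .nil)) 
(.lf (nat_lit 26614) (.g (nat_lit 2909) (.e (nat_lit 1195) (nat_lit 88) (.e (nat_lit 65570) (nat_lit 3) (.e (nat_lit 98373) (nat_lit 29) (.e (nat_lit 450588) (nat_lit 10) (.e (nat_lit 573473) (nat_lit 12) .nil))))) .nil))))) (.nd (nat_lit 4) (.nd (nat_lit 5) (.nd (nat_lit 6) 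
(.lf (nat_lit 26510) (.g (nat_lit 2523) (.e (nat_lit 1194) (nat_lit 88) (.e (nat_lit 65626) (nat_lit 13) (.e (nat_lit 393234) (nat_lit 17) (.e (nat_lit 7593) (nat_lit 407) (.e (nat_lit 73729) (nat_lit 0) (.e (nat_lit 7128) (nat_lit 382) .nil)))))) (.g (nat_lit 6) .nil .nil))) 
(.lf (nat_lit 26574) (.g (nat_lit 5125) (.e (nat_lit 1194) (nat_lit 88) (.e (nat_lit 65629) (nat_lit 14) (.e (nat_lit 401459) (nat_lit 13) (.e (nat_lit 483372) (nat_lit 21) (.e (nat_lit 327424) (nat_lit 1) .nil))))) .nil))) (.nd (nat_lit 6) 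
(.lf (nat_lit 26542) (.g (nat_lit 2439) (.e (nat_lit 1194) (nat_lit 88) (.e (nat_lit 65628) (nat_lit 14) (.e (nat_lit 401459) (nat_lit 13) (.e (nat_lit 483344) (nat_lit 17) (.e (nat_lit 6155) (nat_lit 332) .nil))))) .nil)) 
(.lf (nat_lit 26606) (.g (nat_lit 2083) (.e (nat_lit 1194) (nat_lit 88) (.e (nat_lit 65630) (nat_lit 14) (.e (nat_lit 401459) (nat_lit 13) (.e (nat_lit 483395) (nat_lit 24) .nil)))) .nil)))) (.nd (nat_lit 5) (.nd (nat_lit 6) 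
(.lf (nat_lit 26526) (.g (nat_lit 1882) (.e (nat_lit 1194) (nat_lit 88) (.e (nat_lit 65628) (nat_lit 14) (.e (nat_lit 401437) (nat_lit 9) (.e (nat_lit 426533) (nat_lit 28) (.e (nat_lit 344086) (nat_lit 17) .nil))))) .nil)) 
(.lf (nat_lit 26590) (.g (nat_lit 2521) (.e (nat_lit 1194) (nat_lit 88) (.e (nat_lit 65630) (nat_lit 14) (.e (nat_lit 401454) (nat_lit 12) (.e (nat_lit 475212) (nat_lit 42) .nil)))) .nil))) (.nd (nat_lit 6) 
(.lf (nat_lit 26558) (.g (nat_lit 1457) (.e (nat_lit 1194) (nat_lit 88) (.e (nat_lit 65628) (nat_lit 14) (.e (nat_lit 401459) (nat_lit 13) (.e (nat_lit 483395) (nat_lit 24) .nil)))) .nil)) 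
(.lf (nat_lit 26622) (.g (nat_lit 2198) (.e (nat_lit 1195) (nat_lit 88) (.e (nat_lit 65586) (nat_lit 7) (.e (nat_lit 319534) (nat_lit 16) (.e (nat_lit 286756) (nat_lit 10) .nil)))) .nil)))))))) (.nd (nat_lit 1) (.nd (nat_lit 2) (.nd (nat_lit 3) (.nd (nat_lit 4) (.nd (nat_lit 5) (.nd (nat_lit 6) 
(.lf (nat_lit 26497) (.g (nat_lit 2396) (.e (nat_lit 1194) (nat_lit 88) (.e (nat_lit 65624) (nat_lit 12) (.e (nat_lit 385105) (nat_lit 50) (.e (nat_lit 786483) (nat_lit 30) (.e (nat_lit 368384) (nat_lit 0) .nil))))) .nil)) 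
(.lf (nat_lit 26561) (.g (nat_lit 2713) (.e (nat_lit 1194) (nat_lit 88) (.e (nat_lit 65628) (nat_lit 14) (.e (nat_lit 401459) (nat_lit 13) (.e (nat_lit 483411) (nat_lit 27) (.e (nat_lit 401414) (nat_lit 0) .nil))))) .nil))) (.nd (nat_lit 6) 
(.lf (nat_lit 26529) (.g (nat_lit 1454) (.e (nat_lit 1194) (nat_lit 88) (.e (nat_lit 65628) (nat_lit 14) (.e (nat_lit 401438) (nat_lit 9) (.e (nat_lit 426544) (nat_lit 30) .nil)))) .nil)) 
(.lf (nat_lit 26593) (.g (nat_lit 459) (.e (nat_lit 1194) (nat_lit 88) (.e (nat_lit 65630) (nat_lit 14) (.e (nat_lit 401459) (nat_lit 13) .nil))) .nil)))) (.nd (nat_lit 5) (.nd (nat_lit 6) 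
(.lf (nat_lit 26513) (.g (nat_lit 1837) (.e (nat_lit 1194) (nat_lit 88) (.e (nat_lit 65626) (nat_lit 13) (.e (nat_lit 393300) (nat_lit 27) (.e (nat_lit 491558) (nat_lit 10) (.e (nat_lit 344091) (nat_lit 18) .nil))))) .nil)) 
(.lf (nat_lit 26577) (.g (nat_lit 2425) (.e (nat_lit 1194) (nat_lit 88) (.e (nat_lit 65629) (nat_lit 14) (.e (nat_lit 401459) (nat_lit 13) (.e (nat_lit 483375) (nat_lit 22) .nil)))) .nil))) (.nd (nat_lit 6) 
(.lf (nat_lit 26545) (.g (nat_lit 3453) (.e (nat_lit 1194) (nat_lit 88) (.e (nat_lit 65628) (nat_lit 14) (.e (nat_lit 401459) (nat_lit 13) (.e (nat_lit 483350) (nat_lit 17) (.e (nat_lit 6239) (nat_lit 336) .nil))))) .nil)) 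
(.lf (nat_lit 26609) (.g (nat_lit 2666) (.e (nat_lit 1194) (nat_lit 88) (.e (nat_lit 65630) (nat_lit 14) (.e (nat_lit 401459) (nat_lit 13) (.e (nat_lit 483399) (nat_lit 25) .nil)))) .nil))))) (.nd (nat_lit 4) (.nd (nat_lit 5) (.nd (nat_lit 6) 
(.lf (nat_lit 26505) (.g (nat_lit 947) (.e (nat_lit 1194) (nat_lit 88) (.e (nat_lit 65626) (nat_lit 13) (.e (nat_lit 393234) (nat_lit 17) (.e (nat_lit 7591) (nat_lit 407) .nil)))) .nil)) 
(.lf (nat_lit 26569) (.g (nat_lit 2948) (.e (nat_lit 1194) (nat_lit 88) (.e (nat_lit 65629) (nat_lit 14) (.e (nat_lit 401459) (nat_lit 13) (.e (nat_lit 483350) (nat_lit 17) .nil)))) .nil))) (.nd (nat_lit 6) 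
(.lf (nat_lit 26537) (.g (nat_lit 678) (.e (nat_lit 1194) (nat_lit 88) (.e (nat_lit 65628) (nat_lit 14) (.e (nat_lit 401458) (nat_lit 13) .nil))) .nil)) 
(.lf (nat_lit 26601) (.g (nat_lit 2824) (.e (nat_lit 1194) (nat_lit 88) (.e (nat_lit 65630) (nat_lit 14) (.e (nat_lit 401459) (nat_lit 13) (.e (nat_lit 483374) (nat_lit 22) .nil)))) .nil)))) (.nd (nat_lit 5) (.nd (nat_lit 6) 
(.lf (nat_lit 26521) (.g (nat_lit 2827) (.e (nat_lit 1194) (nat_lit 88) (.e (nat_lit 65626) (nat_lit 13) (.e (nat_lit 393301) (nat_lit 27) (.e (nat_lit 491558) (nat_lit 10) (.e (nat_lit 344095) (nat_lit 18) .nil))))) .nil)) 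
(.lf (nat_lit 26585) (.g (nat_lit 2505) (.e (nat_lit 1194) (nat_lit 88) (.e (nat_lit 65630) (nat_lit 14) (.e (nat_lit 401425) (nat_lit 2) (.e (nat_lit 196666) (nat_lit 13) (.e (nat_lit 65617) (nat_lit 10) (.e (nat_lit 344096) (nat_lit 18) (.e (nat_lit 3957) (nat_lit 239) .nil))))))) (.g (nat_lit 4) .nil .nil)))) (.nd (nat_lit 6) 
(.lf (nat_lit 26553) (.g (nat_lit 3065) (.e (nat_lit 1194) (nat_lit 88) (.e (nat_lit 65628) (nat_lit 14) (.e (nat_lit 401459) (nat_lit 13) (.e (nat_lit 483375) (nat_lit 22) (.e (nat_lit 327692) (nat_lit 1) .nil))))) .nil)) 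
(.lf (nat_lit 26617) (.g (nat_lit 1858) (.e (nat_lit 1195) (nat_lit 88) (.e (nat_lit 65571) (nat_lit 3) (.e (nat_lit 98372) (nat_lit 29) (.e (nat_lit 450579) (nat_lit 5) .nil)))) .nil)))))) (.nd (nat_lit 3) (.nd (nat_lit 4) (.nd (nat_lit 5) (.nd (nat_lit 6) 
(.lf (nat_lit 26501) (.g (nat_lit 2711) (.e (nat_lit 1194) (nat_lit 88) (.e (nat_lit 65624) (nat_lit 12) (.e (nat_lit 385106) (nat_lit 50) (.e (nat_lit 786483) (nat_lit 30) (.e (nat_lit 360450) (nat_lit 0) .nil))))) .nil)) 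
(.lf (nat_lit 26565) (.g (nat_lit 1836) (.e (nat_lit 1194) (nat_lit 88) (.e (nat_lit 65629) (nat_lit 14) (.e (nat_lit 401459) (nat_lit 13) (.e (nat_lit 483344) (nat_lit 17) .nil)))) .nil))) (.nd (nat_lit 6) 
(.lf (nat_lit 26533) (.g (nat_lit 3028) (.e (nat_lit 1194) (nat_lit 88) (.e (nat_lit 65628) (nat_lit 14) (.e (nat_lit 401454) (nat_lit 12) (.e (nat_lit 475213) (nat_lit 42) .nil)))) .nil)) 
(.lf (nat_lit 26597) (.g (nat_lit 2789) (.e (nat_lit 1194) (nat_lit 88) (.e (nat_lit 65630) (nat_lit 14) (.e (nat_lit 401459) (nat_lit 13) (.e (nat_lit 483350) (nat_lit 17) .nil)))) .nil)))) (.nd (nat_lit 5) (.nd (nat_lit 6) 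
(.lf (nat_lit 26517) (.g (nat_lit 1844) (.e (nat_lit 1194) (nat_lit 88) (.e (nat_lit 65626) (nat_lit 13) (.e (nat_lit 393300) (nat_lit 27) (.e (nat_lit 491560) (nat_lit 10) (.e (nat_lit 344090) (nat_lit 18) .nil))))) .nil)) 
(.lf (nat_lit 26581) (.g (nat_lit 1917) (.e (nat_lit 1194) (nat_lit 88) (.e (nat_lit 65629) (nat_lit 14) (.e (nat_lit 401459) (nat_lit 13) (.e (nat_lit 483403) (nat_lit 26) .nil)))) .nil))) (.nd (nat_lit 6) 
(.lf (nat_lit 26549) (.g (nat_lit 3549) (.e (nat_lit 1194) (nat_lit 88) (.e (nat_lit 65628) (nat_lit 14) (.e (nat_lit 401459) (nat_lit 13) (.e (nat_lit 483372) (nat_lit 21) (.e (nat_lit 327424) (nat_lit 0) .nil))))) .nil)) 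
(.lf (nat_lit 26613) (.g (nat_lit 2033) (.e (nat_lit 1195) (nat_lit 88) (.e (nat_lit 65568) (nat_lit 2) (.e (nat_lit 90170) (nat_lit 13) (.e (nat_lit 172113) (nat_lit 10) .nil)))) .nil))))) (.nd (nat_lit 4) (.nd (nat_lit 5) (.nd (nat_lit 6) 
(.lf (nat_lit 26509) (.g (nat_lit 1732) (.e (nat_lit 1194) (nat_lit 88) (.e (nat_lit 65626) (nat_lit 13) (.e (nat_lit 393234) (nat_lit 17) (.e (nat_lit 7593) (nat_lit 407) (.e (nat_lit 73728) (nat_lit 0) .nil))))) .nil)) 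
(.lf (nat_lit 26573) (.g (nat_lit 5125) (.e (nat_lit 1194) (nat_lit 88) (.e (nat_lit 65629) (nat_lit 14) (.e (nat_lit 401459) (nat_lit 13) (.e (nat_lit 483372) (nat_lit 21) (.e (nat_lit 327424) (nat_lit 0) .nil))))) .nil))) (.nd (nat_lit 6) 
(.lf (nat_lit 26541) (.g (nat_lit 2412) (.e (nat_lit 1194) (nat_lit 88) (.e (nat_lit 65628) (nat_lit 14) (.e (nat_lit 401459) (nat_lit 13) (.e (nat_lit 483344) (nat_lit 17) (.e (nat_lit 6154) (nat_lit 332) .nil))))) .nil)) 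
(.lf (nat_lit 26605) (.g (nat_lit 2634) (.e (nat_lit 1194) (nat_lit 88) (.e (nat_lit 65630) (nat_lit 14) (.e (nat_lit 401459) (nat_lit 13) (.e (nat_lit 483393) (nat_lit 23) .nil)))) .nil)))) (.nd (nat_lit 5) (.nd (nat_lit 6) 
(.lf (nat_lit 26525) (.g (nat_lit 668) (.e (nat_lit 1194) (nat_lit 88) (.e (nat_lit 65628) (nat_lit 14) (.e (nat_lit 401437) (nat_lit 9) .nil))) .nil)) 
(.lf (nat_lit 26589) (.g (nat_lit 1467) (.e (nat_lit 1194) (nat_lit 88) (.e (nat_lit 65630) (nat_lit 14) (.e (nat_lit 401438) (nat_lit 9) (.e (nat_lit 426546) (nat_lit 30) .nil)))) .nil))) (.nd (nat_lit 6) 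
(.lf (nat_lit 26557) (.g (nat_lit 2388) (.e (nat_lit 1194) (nat_lit 88) (.e (nat_lit 65628) (nat_lit 14) (.e (nat_lit 401459) (nat_lit 13) (.e (nat_lit 483393) (nat_lit 23) .nil)))) .nil)) 
(.lf (nat_lit 26621) (.g (nat_lit 2052) (.e (nat_lit 1195) (nat_lit 88) (.e (nat_lit 65586) (nat_lit 7) (.e (nat_lit 319531) (nat_lit 16) (.e (nat_lit 286767) (nat_lit 27) .nil)))) .nil))))))) (.nd (nat_lit 2) (.nd (nat_lit 3) (.nd (nat_lit 4) (.nd (nat_lit 5) (.nd (nat_lit 6) 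
(.lf (nat_lit 26499) (.g (nat_lit 2188) (.e (nat_lit 1194) (nat_lit 88) (.e (nat_lit 65624) (nat_lit 12) (.e (nat_lit 385106) (nat_lit 50) (.e (nat_lit 786481) (nat_lit 30) (.e (nat_lit 368384) (nat_lit 0) .nil))))) .nil)) 
(.lf (nat_lit 26563) (.g (nat_lit 2936) (.e (nat_lit 1194) (nat_lit 88) (.e (nat_lit 65629) (nat_lit 14) (.e (nat_lit 401454) (nat_lit 12) (.e (nat_lit 475214) (nat_lit 42) .nil)))) .nil))) (.nd (nat_lit 6) 
(.lf (nat_lit 26531) (.g (nat_lit 2281) (.e (nat_lit 1194) (nat_lit 88) (.e (nat_lit 65628) (nat_lit 14) (.e (nat_lit 401454) (nat_lit 12) (.e (nat_lit 475212) (nat_lit 42) .nil)))) .nil)) 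
(.lf (nat_lit 26595) (.g (nat_lit 3669) (.e (nat_lit 1194) (nat_lit 88) (.e (nat_lit 65630) (nat_lit 14) (.e (nat_lit 401459) (nat_lit 13) (.e (nat_lit 483344) (nat_lit 17) (.e (nat_lit 6154) (nat_lit 332) (.e (nat_lit 2545) (nat_lit 158) (.e (nat_lit 8435) (nat_lit 138) .nil))))))) (.g (nat_lit 5) .nil .nil))))) (.nd (nat_lit 5) (.nd (nat_lit 6) 
(.lf (nat_lit 26515) (.g (nat_lit 1873) (.e (nat_lit 1194) (nat_lit 88) (.e (nat_lit 65626) (nat_lit 13) (.e (nat_lit 393300) (nat_lit 27) (.e (nat_lit 491558) (nat_lit 10) (.e (nat_lit 344096) (nat_lit 18) .nil))))) .nil)) 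
(.lf (nat_lit 26579) (.g (nat_lit 3629) (.e (nat_lit 1194) (nat_lit 88) (.e (nat_lit 65629) (nat_lit 14) (.e (nat_lit 401459) (nat_lit 13) (.e (nat_lit 483375) (nat_lit 22) (.e (nat_lit 327692) (nat_lit 1) (.e (nat_lit 8435) (nat_lit 138) .nil)))))) (.g (nat_lit 6) .nil .nil)))) (.nd (nat_lit 6) 
(.lf (nat_lit 26547) (.g (nat_lit 2050) (.e (nat_lit 1194) (nat_lit 88) (.e (nat_lit 65628) (nat_lit 14) (.e (nat_lit 401459) (nat_lit 13) (.e (nat_lit 483354) (nat_lit 17) .nil)))) .nil)) 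
(.lf (nat_lit 26611) (.g (nat_lit 2489) (.e (nat_lit 1195) (nat_lit 88) (.e (nat_lit 65568) (nat_lit 2) (.e (nat_lit 90170) (nat_lit 13) (.e (nat_lit 172106) (nat_lit 10) (.e (nat_lit 434244) (nat_lit 28) (.e (nat_lit 573468) (nat_lit 10) (.e (nat_lit 8192) (nat_lit 0) (.e (nat_lit 4443) (nat_lit 263) .nil)))))))) (.g (nat_lit 5) .nil .nil)))))) (.nd (nat_lit 4) (.nd (nat_lit 5) (.nd (nat_lit 6) 
(.lf (nat_lit 26507) (.g (nat_lit 1714) (.e (nat_lit 1194) (nat_lit 88) (.e (nat_lit 65626) (nat_lit 13) (.e (nat_lit 393234) (nat_lit 17) (.e (nat_lit 7591) (nat_lit 407) (.e (nat_lit 73730) (nat_lit 0) .nil))))) .nil)) 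
(.lf (nat_lit 26571) (.g (nat_lit 4489) (.e (nat_lit 1194) (nat_lit 88) (.e (nat_lit 65629) (nat_lit 14) (.e (nat_lit 401459) (nat_lit 13) (.e (nat_lit 483350) (nat_lit 17) (.e (nat_lit 6240) (nat_lit 336) .nil))))) .nil))) (.nd (nat_lit 6) 
(.lf (nat_lit 26539) (.g (nat_lit 551) (.e (nat_lit 1194) (nat_lit 88) (.e (nat_lit 65628) (nat_lit 14) (.e (nat_lit 401459) (nat_lit 13) .nil))) .nil)) 
(.lf (nat_lit 26603) (.g (nat_lit 2508) (.e (nat_lit 1194) (nat_lit 88) (.e (nat_lit 65630) (nat_lit 14) (.e (nat_lit 401459) (nat_lit 13) (.e (nat_lit 483375) (nat_lit 22) .nil)))) .nil)))) (.nd (nat_lit 5) (.nd (nat_lit 6) 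
(.lf (nat_lit 26523) (.g (nat_lit 2888) (.e (nat_lit 1194) (nat_lit 88) (.e (nat_lit 65626) (nat_lit 13) (.e (nat_lit 393301) (nat_lit 27) (.e (nat_lit 491560) (nat_lit 10) (.e (nat_lit 344094) (nat_lit 18) .nil))))) .nil)) 
(.lf (nat_lit 26587) (.g (nat_lit 1621) (.e (nat_lit 1194) (nat_lit 88) (.e (nat_lit 65630) (nat_lit 14) (.e (nat_lit 401428) (nat_lit 3) (.e (nat_lit 204868) (nat_lit 29) .nil)))) .nil))) (.nd (nat_lit 6) 
(.lf (nat_lit 26555) (.g (nat_lit 2128) (.e (nat_lit 1194) (nat_lit 88) (.e (nat_lit 65628) (nat_lit 14) (.e (nat_lit 401459) (nat_lit 13) (.e (nat_lit 483380) (nat_lit 23) .nil)))) .nil)) 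
(.lf (nat_lit 26619) (.g (nat_lit 3020) (.e (nat_lit 1195) (nat_lit 88) (.e (nat_lit 65571) (nat_lit 3) (.e (nat_lit 98373) (nat_lit 29) (.e (nat_lit 450588) (nat_lit 10) (.e (nat_lit 573475) (nat_lit 12) .nil))))) .nil)))))) (.nd (nat_lit 3) (.nd (nat_lit 4) (.nd (nat_lit 5) (.nd (nat_lit 6) 
(.lf (nat_lit 26503) (.g (nat_lit 851) (.e (nat_lit 1194) (nat_lit 88) (.e (nat_lit 65626) (nat_lit 13) (.e (nat_lit 393233) (nat_lit 17) (.e (nat_lit 7591) (nat_lit 407) .nil)))) .nil)) 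
(.lf (nat_lit 26567) (.g (nat_lit 2784) (.e (nat_lit 1194) (nat_lit 88) (.e (nat_lit 65629) (nat_lit 14) (.e (nat_lit 401459) (nat_lit 13) (.e (nat_lit 483344) (nat_lit 17) (.e (nat_lit 6154) (nat_lit 332) .nil))))) .nil))) (.nd (nat_lit 6) 
(.lf (nat_lit 26535) (.g (nat_lit 3862) (.e (nat_lit 1194) (nat_lit 88) (.e (nat_lit 65628) (nat_lit 14) (.e (nat_lit 401454) (nat_lit 12) (.e (nat_lit 475214) (nat_lit 42) (.e (nat_lit 720956) (nat_lit 25) .nil))))) .nil)) 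
(.lf (nat_lit 26599) (.g (nat_lit 4068) (.e (nat_lit 1194) (nat_lit 88) (.e (nat_lit 65630) (nat_lit 14) (.e (nat_lit 401459) (nat_lit 13) (.e (nat_lit 483372) (nat_lit 21) (.e (nat_lit 327424) (nat_lit 0) .nil))))) .nil)))) (.nd (nat_lit 5) (.nd (nat_lit 6) 
(.lf (nat_lit 26519) (.g (nat_lit 1590) (.e (nat_lit 1194) (nat_lit 88) (.e (nat_lit 65626) (nat_lit 13) (.e (nat_lit 393301) (nat_lit 27) (.e (nat_lit 491558) (nat_lit 10) .nil)))) .nil)) 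
(.lf (nat_lit 26583) (.g (nat_lit 1024) (.e (nat_lit 1194) (nat_lit 88) (.e (nat_lit 65630) (nat_lit 14) (.e (nat_lit 401425) (nat_lit 2) .nil))) .nil))) (.nd (nat_lit 6) 
(.lf (nat_lit 26551) (.g (nat_lit 2231) (.e (nat_lit 1194) (nat_lit 88) (.e (nat_lit 65628) (nat_lit 14) (.e (nat_lit 401459) (nat_lit 13) (.e (nat_lit 483374) (nat_lit 22) .nil)))) .nil)) 
(.lf (nat_lit 26615) (.g (nat_lit 2920) (.e (nat_lit 1195) (nat_lit 88) (.e (nat_lit 65570) (nat_lit 3) (.e (nat_lit 98373) (nat_lit 29) (.e (nat_lit 450588) (nat_lit 10) (.e (nat_lit 573475) (nat_lit 12) .nil))))) .nil))))) (.nd (nat_lit 4) (.nd (nat_lit 5) (.nd (nat_lit 6) 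
(.lf (nat_lit 26511) (.g (nat_lit 1865) (.e (nat_lit 1194) (nat_lit 88) (.e (nat_lit 65626) (nat_lit 13) (.e (nat_lit 393234) (nat_lit 17) (.e (nat_lit 7593) (nat_lit 407) (.e (nat_lit 73730) (nat_lit 0) .nil))))) .nil)) 
(.lf (nat_lit 26575) (.g (nat_lit 2422) (.e (nat_lit 1194) (nat_lit 88) (.e (nat_lit 65629) (nat_lit 14) (.e (nat_lit 401459) (nat_lit 13) (.e (nat_lit 483374) (nat_lit 22) .nil)))) .nil))) (.nd (nat_lit 6) 
(.lf (nat_lit 26543) (.g (nat_lit 2257) (.e (nat_lit 1194) (nat_lit 88) (.e (nat_lit 65628) (nat_lit 14) (.e (nat_lit 401459) (nat_lit 13) (.e (nat_lit 483344) (nat_lit 17) (.e (nat_lit 6714) (nat_lit 360) .nil))))) .nil)) 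
(.lf (nat_lit 26607) (.g (nat_lit 3072) (.e (nat_lit 1194) (nat_lit 88) (.e (nat_lit 65630) (nat_lit 14) (.e (nat_lit 401459) (nat_lit 13) (.e (nat_lit 483397) (nat_lit 25) .nil)))) .nil)))) (.nd (nat_lit 5) (.nd (nat_lit 6) 
(.lf (nat_lit 26527) (.g (nat_lit 1837) (.e (nat_lit 1194) (nat_lit 88) (.e (nat_lit 65628) (nat_lit 14) (.e (nat_lit 401437) (nat_lit 9) (.e (nat_lit 426544) (nat_lit 30) .nil)))) .nil)) 
(.lf (nat_lit 26591) (.g (nat_lit 3283) (.e (nat_lit 1194) (nat_lit 88) (.e (nat_lit 65630) (nat_lit 14) (.e (nat_lit 401454) (nat_lit 12) (.e (nat_lit 475213) (nat_lit 42) .nil)))) .nil))) (.nd (nat_lit 6) 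
(.lf (nat_lit 26559) (.g (nat_lit 2641) (.e (nat_lit 1194) (nat_lit 88) (.e (nat_lit 65628) (nat_lit 14) (.e (nat_lit 401459) (nat_lit 13) (.e (nat_lit 483397) (nat_lit 25) .nil)))) .nil)) 
(.lf (nat_lit 26623) (.g (nat_lit 659) (.e (nat_lit 1195) (nat_lit 88) (.e (nat_lit 65624) (nat_lit 12) (.e (nat_lit 385105) (nat_lit 50) .nil))) .nil)))))))))

noncomputable def tv371 : DT := (.nd (nat_lit 0) (.nd (nat_lit 1) (.nd (nat_lit 2) (.nd (nat_lit 3) (.nd (nat_lit 4) (.nd (nat_lit 5) (.nd (nat_lit 6) 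
(.lf (nat_lit 26624) (.g (nat_lit 1750) (.e (nat_lit 1195) (nat_lit 88) (.e (nat_lit 65624) (nat_lit 12) (.e (nat_lit 385106) (nat_lit 50) (.e (nat_lit 786483) (nat_lit 30) .nil)))) .nil)) 
(.lf (nat_lit 26688) (.g (nat_lit 1736) (.e (nat_lit 1196) (nat_lit 88) (.e (nat_lit 65583) (nat_lit 7) (.e (nat_lit 319530) (nat_lit 16) (.e (nat_lit 286767) (nat_lit 27) (.e (nat_lit 426098) (nat_lit 1) (.e (nat_lit 164325) (nat_lit 230) (.e (nat_lit 163864) (nat_lit 1) (.e (nat_lit 164391) (nat_lit 254) .nil)))))))) (.g (nat_lit 4) .nil .nil)))) (.nd (nat_lit 6) 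
(.lf (nat_lit 26656) (.g (nat_lit 2883) (.e (nat_lit 1196) (nat_lit 88) (.e (nat_lit 65569) (nat_lit 3) (.e (nat_lit 98372) (nat_lit 29) (.e (nat_lit 450579) (nat_lit 5) (.e (nat_lit 532501) (nat_lit 1) (.e (nat_lit 57767) (nat_lit 221) .nil)))))) (.g (nat_lit 5) .nil .nil))) 
(.lf (nat_lit 26720) (.g (nat_lit 3524) (.e (nat_lit 1196) (nat_lit 88) (.e (nat_lit 65586) (nat_lit 7) (.e (nat_lit 319534) (nat_lit 16) (.e (nat_lit 286756) (nat_lit 10) (.e (nat_lit 344169) (nat_lit 40) (.e (nat_lit 671751) (nat_lit 0) (.e (nat_lit 1182) (nat_lit 87) (.e (nat_lit 57724) (nat_lit 181) .nil)))))))) (.g (nat_lit 5) .nil .nil))))) (.nd (nat_lit 5) (.nd (nat_lit 6) 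
(.lf (nat_lit 26640) (.g (nat_lit 691) (.e (nat_lit 1195) (nat_lit 88) (.e (nat_lit 65630) (nat_lit 14) (.e (nat_lit 401459) (nat_lit 13) .nil))) .nil)) 
(.lf (nat_lit 26704) (.g (nat_lit 2148) (.e (nat_lit 1196) (nat_lit 88) (.e (nat_lit 65586) (nat_lit 7) (.e (nat_lit 319531) (nat_lit 16) (.e (nat_lit 286759) (nat_lit 12) (.e (nat_lit 385092) (nat_lit 49) .nil))))) .nil))) (.nd (nat_lit 6) 
(.lf (nat_lit 26672) (.g (nat_lit 3018) (.e (nat_lit 1196) (nat_lit 88) (.e (nat_lit 65571) (nat_lit 3) (.e (nat_lit 98373) (nat_lit 29) (.e (nat_lit 450588) (nat_lit 10) (.e (nat_lit 573475) (nat_lit 12) .nil))))) .nil)) 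
(.lf (nat_lit 26736) (.g (nat_lit 2868) (.e (nat_lit 1196) (nat_lit 88) (.e (nat_lit 65610) (nat_lit 10) (.e (nat_lit 344117) (nat_lit 21) (.e (nat_lit 516195) (nat_lit 26) (.e (nat_lit 335986) (nat_lit 1) (.e (nat_lit 57847) (nat_lit 252) (.e (nat_lit 57367) (nat_lit 1) (.e (nat_lit 57755) (nat_lit 209) .nil)))))))) (.g (nat_lit 4) .nil .nil)))))) 
(.nd (nat_lit 4) (.nd (nat_lit 5) (.nd (nat_lit 6) 
(.lf (nat_lit 26632) (.g (nat_lit 5132) (.e (nat_lit 1195) (nat_lit 88) (.e (nat_lit 65629) (nat_lit 14) (.e (nat_lit 401459) (nat_lit 13) (.e (nat_lit 483372) (nat_lit 21) (.e (nat_lit 327424) (nat_lit 1) .nil))))) .nil)) 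
(.lf (nat_lit 26696) (.g (nat_lit 1905) (.e (nat_lit 1196) (nat_lit 88) (.e (nat_lit 65586) (nat_lit 7) (.e (nat_lit 319531) (nat_lit 16) (.e (nat_lit 286755) (nat_lit 10) .nil)))) .nil))) (.nd (nat_lit 6) 
(.lf (nat_lit 26664) (.g (nat_lit 3497) (.e (nat_lit 1196) (nat_lit 88) (.e (nat_lit 65571) (nat_lit 3) (.e (nat_lit 98372) (nat_lit 29) (.e (nat_lit 450579) (nat_lit 5) (.e (nat_lit 532501) (nat_lit 1) (.e (nat_lit 57766) (nat_lit 221) .nil)))))) (.g (nat_lit 6) .nil .nil))) 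
(.lf (nat_lit 26728) (.g (nat_lit 431) (.e (nat_lit 1196) (nat_lit 88) (.e (nat_lit 65610) (nat_lit 10) (.e (nat_lit 344117) (nat_lit 21) .nil))) .nil)))) (.nd (nat_lit 5) (.nd (nat_lit 6) 
(.lf (nat_lit 26648) (.g (nat_lit 4521) (.e (nat_lit 1196) (nat_lit 88) (.e (nat_lit 65568) (nat_lit 2) (.e (nat_lit 90170) (nat_lit 13) (.e (nat_lit 172106) (nat_lit 10) (.e (nat_lit 434231) (nat_lit 23) (.e (nat_lit 532499) (nat_lit 1) (.e (nat_lit 57767) (nat_lit 221) .nil))))))) (.g (nat_lit 7) .nil .nil))) 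
(.lf (nat_lit 26712) (.g (nat_lit 3651) (.e (nat_lit 1196) (nat_lit 88) (.e (nat_lit 65586) (nat_lit 7) (.e (nat_lit 319531) (nat_lit 16) (.e (nat_lit 286759) (nat_lit 12) (.e (nat_lit 385094) (nat_lit 49) (.e (nat_lit 778318) (nat_lit 3) (.e (nat_lit 57354) (nat_lit 0) (.e (nat_lit 6319) (nat_lit 337) .nil)))))))) (.g (nat_lit 6) .nil .nil)))) (.nd (nat_lit 6) 
(.lf (nat_lit 26680) (.g (nat_lit 1957) (.e (nat_lit 1196) (nat_lit 88) (.e (nat_lit 65583) (nat_lit 7) (.e (nat_lit 319530) (nat_lit 16) (.e (nat_lit 286731) (nat_lit 1) (.e (nat_lit 57688) (nat_lit 156) (.e (nat_lit 163928) (nat_lit 16) (.e (nat_lit 458774) (nat_lit 18) (.e (nat_lit 4607) (nat_lit 269) .nil)))))))) (.g (nat_lit 4) .nil .nil))) 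
(.lf (nat_lit 26744) (.g (nat_lit 3226) (.e (nat_lit 1196) (nat_lit 88) (.e (nat_lit 65610) (nat_lit 10) (.e (nat_lit 344117) (nat_lit 21) (.e (nat_lit 516195) (nat_lit 26) (.e (nat_lit 335995) (nat_lit 1) (.e (nat_lit 57849) (nat_lit 252) (.e (nat_lit 57365) (nat_lit 1) (.e (nat_lit 57754) (nat_lit 209) .nil)))))))) (.g (nat_lit 4) .nil .nil))))))) 
(.nd (nat_lit 3) (.nd (nat_lit 4) (.nd (nat_lit 5) (.nd (nat_lit 6) 
(.lf (nat_lit 26628) (.g (nat_lit 2933) (.e (nat_lit 1195) (nat_lit 88) (.e (nat_lit 65629) (nat_lit 14) (.e (nat_lit 401459) (nat_lit 13) (.e (nat_lit 483350) (nat_lit 17) .nil)))) .nil)) 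
(.lf (nat_lit 26692) (.g (nat_lit 1270) (.e (nat_lit 1196) (nat_lit 88) (.e (nat_lit 65586) (nat_lit 7) (.e (nat_lit 319531) (nat_lit 16) (.e (nat_lit 286748) (nat_lit 9) .nil)))) .nil))) (.nd (nat_lit 6) 
(.lf (nat_lit 26660) (.g (nat_lit 3124) (.e (nat_lit 1196) (nat_lit 88) (.e (nat_lit 65570) (nat_lit 3) (.e (nat_lit 98373) (nat_lit 29) (.e (nat_lit 450588) (nat_lit 10) (.e (nat_lit 573475) (nat_lit 12) (.e (nat_lit 57347) (nat_lit 0) (.e (nat_lit 7236) (nat_lit 382) .nil))))))) (.g (nat_lit 4) .nil .nil))) 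
(.lf (nat_lit 26724) (.g (nat_lit 2938) (.e (nat_lit 1196) (nat_lit 88) (.e (nat_lit 65598) (nat_lit 9) (.e (nat_lit 336013) (nat_lit 2) (.e (nat_lit 90185) (nat_lit 17) .nil)))) .nil)))) (.nd (nat_lit 5) (.nd (nat_lit 6) 
(.lf (nat_lit 26644) (.g (nat_lit 2980) (.e (nat_lit 1195) (nat_lit 88) (.e (nat_lit 65630) (nat_lit 14) (.e (nat_lit 401459) (nat_lit 13) (.e (nat_lit 483374) (nat_lit 22) .nil)))) .nil)) 
(.lf (nat_lit 26708) (.g (nat_lit 2152) (.e (nat_lit 1196) (nat_lit 88) (.e (nat_lit 65586) (nat_lit 7) (.e (nat_lit 319531) (nat_lit 16) (.e (nat_lit 286759) (nat_lit 12) (.e (nat_lit 385094) (nat_lit 49) (.e (nat_lit 778246) (nat_lit 0) (.e (nat_lit 1183) (nat_lit 87) (.e (nat_lit 57731) (nat_lit 181) .nil)))))))) (.g (nat_lit 4) .nil .nil)))) (.nd (nat_lit 6) 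
(.lf (nat_lit 26676) (.g (nat_lit 1891) (.e (nat_lit 1196) (nat_lit 88) (.e (nat_lit 65580) (nat_lit 6) (.e (nat_lit 155392) (nat_lit 6) (.e (nat_lit 81954) (nat_lit 23) (.e (nat_lit 98334) (nat_lit 18) (.e (nat_lit 164170) (nat_lit 152) .nil)))))) (.g (nat_lit 5) .nil .nil))) 
(.lf (nat_lit 26740) (.g (nat_lit 3188) (.e (nat_lit 1196) (nat_lit 88) (.e (nat_lit 65610) (nat_lit 10) (.e (nat_lit 344117) (nat_lit 21) (.e (nat_lit 516195) (nat_lit 26) (.e (nat_lit 335995) (nat_lit 1) (.e (nat_lit 57847) (nat_lit 252) (.e (nat_lit 57365) (nat_lit 1) (.e (nat_lit 57752) (nat_lit 209) .nil)))))))) (.g (nat_lit 4) .nil .nil)))))) 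
(.nd (nat_lit 4) (.nd (nat_lit 5) (.nd (nat_lit 6) 
(.lf (nat_lit 26636) (.g (nat_lit 2279) (.e (nat_lit 1195) (nat_lit 88) (.e (nat_lit 65629) (nat_lit 14) (.e (nat_lit 401459) (nat_lit 13) (.e (nat_lit 483404) (nat_lit 26) .nil)))) .nil)) 
(.lf (nat_lit 26700) (.g (nat_lit 2329) (.e (nat_lit 1196) (nat_lit 88) (.e (nat_lit 65586) (nat_lit 7) (.e (nat_lit 319531) (nat_lit 16) (.e (nat_lit 286756) (nat_lit 10) (.e (nat_lit 344169) (nat_lit 40) .nil))))) .nil))) (.nd (nat_lit 6) 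
(.lf (nat_lit 26668) (.g (nat_lit 3851) (.e (nat_lit 1196) (nat_lit 88) (.e (nat_lit 65571) (nat_lit 3) (.e (nat_lit 98372) (nat_lit 29) (.e (nat_lit 450579) (nat_lit 5) (.e (nat_lit 532504) (nat_lit 1) (.e (nat_lit 57766) (nat_lit 221) .nil)))))) (.g (nat_lit 5) .nil .nil))) 
(.lf (nat_lit 26732) (.g (nat_lit 2704) (.e (nat_lit 1196) (nat_lit 88) (.e (nat_lit 65610) (nat_lit 10) (.e (nat_lit 344117) (nat_lit 21) (.e (nat_lit 516195) (nat_lit 26) (.e (nat_lit 335986) (nat_lit 1) .nil))))) .nil)))) (.nd (nat_lit 5) (.nd (nat_lit 6) 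
(.lf (nat_lit 26652) (.g (nat_lit 1783) (.e (nat_lit 1196) (nat_lit 88) (.e (nat_lit 65568) (nat_lit 2) (.e (nat_lit 90170) (nat_lit 13) (.e (nat_lit 172106) (nat_lit 10) (.e (nat_lit 434244) (nat_lit 28) (.e (nat_lit 573468) (nat_lit 10) (.e (nat_lit 8193) (nat_lit 0) (.e (nat_lit 4447) (nat_lit 263) .nil)))))))) (.g (nat_lit 4) .nil .nil))) 
(.lf (nat_lit 26716) (.g (nat_lit 2208) (.e (nat_lit 1196) (nat_lit 88) (.e (nat_lit 65586) (nat_lit 7) (.e (nat_lit 319534) (nat_lit 16) (.e (nat_lit 286756) (nat_lit 10) .nil)))) .nil))) (.nd (nat_lit 6) 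
(.lf (nat_lit 26684) (.g (nat_lit 2304) (.e (nat_lit 1196) (nat_lit 88) (.e (nat_lit 65583) (nat_lit 7) (.e (nat_lit 319530) (nat_lit 16) (.e (nat_lit 286759) (nat_lit 12) (.e (nat_lit 385092) (nat_lit 49) (.e (nat_lit 778486) (nat_lit 12) (.e (nat_lit 163843) (nat_lit 0) (.e (nat_lit 7232) (nat_lit 382) .nil)))))))) (.g (nat_lit 4) .nil .nil))) 
(.lf (nat_lit 26748) (.g (nat_lit 3825) (.e (nat_lit 1196) (nat_lit 88) (.e (nat_lit 65610) (nat_lit 10) (.e (nat_lit 344117) (nat_lit 21) (.e (nat_lit 516195) (nat_lit 26) (.e (nat_lit 335996) (nat_lit 1) (.e (nat_lit 57854) (nat_lit 252) (.e (nat_lit 57364) (nat_lit 1) (.e (nat_lit 57754) (nat_lit 209) .nil)))))))) (.g (nat_lit 6) .nil .nil)))))))) 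
(.nd (nat_lit 2) (.nd (nat_lit 3) (.nd (nat_lit 4) (.nd (nat_lit 5) (.nd (nat_lit 6) 
(.lf (nat_lit 26626) (.g (nat_lit 501) (.e (nat_lit 1195) (nat_lit 88) (.e (nat_lit 65629) (nat_lit 14) (.e (nat_lit 401459) (nat_lit 13) .nil))) .nil)) 
(.lf (nat_lit 26690) (.g (nat_lit 448) (.e (nat_lit 1196) (nat_lit 88) (.e (nat_lit 65586) (nat_lit 7) (.e (nat_lit 319500) (nat_lit 10) .nil))) .nil))) (.nd (nat_lit 6) 
(.lf (nat_lit 26658) (.g (nat_lit 3161) (.e (nat_lit 1196) (nat_lit 88) (.e (nat_lit 65570) (nat_lit 3) (.e (nat_lit 98373) (nat_lit 29) (.e (nat_lit 450588) (nat_lit 10) (.e (nat_lit 573473) (nat_lit 12) (.e (nat_lit 57348) (nat_lit 0) (.e (nat_lit 7236) (nat_lit 382) .nil))))))) (.g (nat_lit 4) .nil .nil))) 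
(.lf (nat_lit 26722) (.g (nat_lit 3044) (.e (nat_lit 1196) (nat_lit 88) (.e (nat_lit 65586) (nat_lit 7) (.e (nat_lit 319534) (nat_lit 16) (.e (nat_lit 286756) (nat_lit 10) (.e (nat_lit 344169) (nat_lit 40) (.e (nat_lit 671751) (nat_lit 0) (.e (nat_lit 1182) (nat_lit 87) (.e (nat_lit 57730) (nat_lit 181) .nil)))))))) (.g (nat_lit 4) .nil .nil))))) (.nd (nat_lit 5) (.nd (nat_lit 6) 
(.lf (nat_lit 26642) (.g (nat_lit 2818) (.e (nat_lit 1195) (nat_lit 88) (.e (nat_lit 65630) (nat_lit 14) (.e (nat_lit 401459) (nat_lit 13) (.e (nat_lit 483350) (nat_lit 17) .nil)))) .nil)) 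
(.lf (nat_lit 26706) (.g (nat_lit 2058) (.e (nat_lit 1196) (nat_lit 88) (.e (nat_lit 65586) (nat_lit 7) (.e (nat_lit 319531) (nat_lit 16) (.e (nat_lit 286759) (nat_lit 12) (.e (nat_lit 385094) (nat_lit 49) (.e (nat_lit 778246) (nat_lit 0) (.e (nat_lit 1173) (nat_lit 87) (.e (nat_lit 57726) (nat_lit 181) .nil)))))))) (.g (nat_lit 4) .nil .nil)))) (.nd (nat_lit 6) 
(.lf (nat_lit 26674) (.g (nat_lit 3316) (.e (nat_lit 1196) (nat_lit 88) (.e (nat_lit 65571) (nat_lit 3) (.e (nat_lit 98373) (nat_lit 29) (.e (nat_lit 450588) (nat_lit 10) (.e (nat_lit 573475) (nat_lit 12) (.e (nat_lit 57346) (nat_lit 0) (.e (nat_lit 7233) (nat_lit 382) .nil))))))) (.g (nat_lit 4) .nil .nil))) 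
(.lf (nat_lit 26738) (.g (nat_lit 2753) (.e (nat_lit 1196) (nat_lit 88) (.e (nat_lit 65610) (nat_lit 10) (.e (nat_lit 344117) (nat_lit 21) (.e (nat_lit 516195) (nat_lit 26) (.e (nat_lit 335995) (nat_lit 1) .nil))))) .nil))))) (.nd (nat_lit 4) (.nd (nat_lit 5) (.nd (nat_lit 6) 
(.lf (nat_lit 26634) (.g (nat_lit 3617) (.e (nat_lit 1195) (nat_lit 88) (.e (nat_lit 65629) (nat_lit 14) (.e (nat_lit 401459) (nat_lit 13) (.e (nat_lit 483375) (nat_lit 22) (.e (nat_lit 327692) (nat_lit 1) (.e (nat_lit 8429) (nat_lit 138) .nil)))))) (.g (nat_lit 5) .nil .nil))) 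
(.lf (nat_lit 26698) (.g (nat_lit 2493) (.e (nat_lit 1196) (nat_lit 88) (.e (nat_lit 65586) (nat_lit 7) (.e (nat_lit 319531) (nat_lit 16) (.e (nat_lit 286756) (nat_lit 10) (.e (nat_lit 344168) (nat_lit 40) (.e (nat_lit 671751) (nat_lit 0) (.e (nat_lit 1182) (nat_lit 87) (.e (nat_lit 57724) (nat_lit 181) .nil)))))))) (.g (nat_lit 4) .nil .nil)))) (.nd (nat_lit 6) 
(.lf (nat_lit 26666) (.g (nat_lit 2920) (.e (nat_lit 1196) (nat_lit 88) (.e (nat_lit 65571) (nat_lit 3) (.e (nat_lit 98372) (nat_lit 29) (.e (nat_lit 450579) (nat_lit 5) (.e (nat_lit 532501) (nat_lit 1) (.e (nat_lit 65280) (nat_lit 221) .nil)))))) (.g (nat_lit 5) .nil .nil))) 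
(.lf (nat_lit 26730) (.g (nat_lit 2757) (.e (nat_lit 1196) (nat_lit 88) (.e (nat_lit 65610) (nat_lit 10) (.e (nat_lit 344117) (nat_lit 21) (.e (nat_lit 516179) (nat_lit 15) (.e (nat_lit 475214) (nat_lit 42) .nil))))) .nil)))) (.nd (nat_lit 5) (.nd (nat_lit 6) 
(.lf (nat_lit 26650) (.g (nat_lit 4707) (.e (nat_lit 1196) (nat_lit 88) (.e (nat_lit 65568) (nat_lit 2) (.e (nat_lit 90170) (nat_lit 13) (.e (nat_lit 172106) (nat_lit 10) (.e (nat_lit 434231) (nat_lit 23) (.e (nat_lit 532500) (nat_lit 1) (.e (nat_lit 57767) (nat_lit 221) .nil))))))) (.g (nat_lit 0) .nil .nil))) 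
(.lf (nat_lit 26714) (.g (nat_lit 1928) (.e (nat_lit 1196) (nat_lit 88) (.e (nat_lit 65586) (nat_lit 7) (.e (nat_lit 319534) (nat_lit 16) (.e (nat_lit 286752) (nat_lit 10) .nil)))) .nil))) (.nd (nat_lit 6) 
(.lf (nat_lit 26682) (.g (nat_lit 1108) (.e (nat_lit 1196) (nat_lit 88) (.e (nat_lit 65583) (nat_lit 7) (.e (nat_lit 319530) (nat_lit 16) (.e (nat_lit 286748) (nat_lit 9) .nil)))) .nil)) 
(.lf (nat_lit 26746) (.g (nat_lit 3142) (.e (nat_lit 1196) (nat_lit 88) (.e (nat_lit 65610) (nat_lit 10) (.e (nat_lit 344117) (nat_lit 21) (.e (nat_lit 516195) (nat_lit 26) (.e (nat_lit 335996) (nat_lit 1) (.e (nat_lit 57854) (nat_lit 252) (.e (nat_lit 57363) (nat_lit 1) (.e (nat_lit 57754) (nat_lit 209) .nil)))))))) (.g (nat_lit 4) .nil .nil))))))) 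
(.nd (nat_lit 3) (.nd (nat_lit 4) (.nd (nat_lit 5) (.nd (nat_lit 6) 
(.lf (nat_lit 26630) (.g (nat_lit 2588) (.e (nat_lit 1195) (nat_lit 88) (.e (nat_lit 65629) (nat_lit 14) (.e (nat_lit 401459) (nat_lit 13) (.e (nat_lit 483354) (nat_lit 17) .nil)))) .nil)) 
(.lf (nat_lit 26694) (.g (nat_lit 1990) (.e (nat_lit 1196) (nat_lit 88) (.e (nat_lit 65586) (nat_lit 7) (.e (nat_lit 319531) (nat_lit 16) (.e (nat_lit 286752) (nat_lit 10) .nil)))) .nil))) (.nd (nat_lit 6) 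
(.lf (nat_lit 26662) (.g (nat_lit 1575) (.e (nat_lit 1196) (nat_lit 88) (.e (nat_lit 65571) (nat_lit 3) (.e (nat_lit 98370) (nat_lit 28) (.e (nat_lit 450304) (nat_lit 3) .nil)))) .nil)) 
(.lf (nat_lit 26726) (.g (nat_lit 2910) (.e (nat_lit 1196) (nat_lit 88) (.e (nat_lit 65604) (nat_lit 9) (.e (nat_lit 336013) (nat_lit 2) (.e (nat_lit 90170) (nat_lit 13) (.e (nat_lit 172059) (nat_lit 1) (.e (nat_lit 164325) (nat_lit 230) (.e (nat_lit 163861) (nat_lit 1) (.e (nat_lit 164133) (nat_lit 134) .nil)))))))) (.g (nat_lit 5) .nil .nil))))) (.nd (nat_lit 5) (.nd (nat_lit 6) 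
(.lf (nat_lit 26646) (.g (nat_lit 2982) (.e (nat_lit 1195) (nat_lit 88) (.e (nat_lit 65630) (nat_lit 14) (.e (nat_lit 401459) (nat_lit 13) (.e (nat_lit 483411) (nat_lit 27) .nil)))) .nil)) 
(.lf (nat_lit 26710) (.g (nat_lit 3742) (.e (nat_lit 1196) (nat_lit 88) (.e (nat_lit 65586) (nat_lit 7) (.e (nat_lit 319531) (nat_lit 16) (.e (nat_lit 286759) (nat_lit 12) (.e (nat_lit 385094) (nat_lit 49) (.e (nat_lit 778317) (nat_lit 3) (.e (nat_lit 57354) (nat_lit 0) (.e (nat_lit 6319) (nat_lit 337) .nil)))))))) (.g (nat_lit 6) .nil .nil)))) (.nd (nat_lit 6) 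
(.lf (nat_lit 26678) (.g (nat_lit 1823) (.e (nat_lit 1196) (nat_lit 88) (.e (nat_lit 65583) (nat_lit 7) (.e (nat_lit 319530) (nat_lit 16) (.e (nat_lit 286731) (nat_lit 1) (.e (nat_lit 57687) (nat_lit 156) .nil))))) .nil)) 
(.lf (nat_lit 26742) (.g (nat_lit 3336) (.e (nat_lit 1196) (nat_lit 88) (.e (nat_lit 65610) (nat_lit 10) (.e (nat_lit 344117) (nat_lit 21) (.e (nat_lit 516195) (nat_lit 26) (.e (nat_lit 335995) (nat_lit 1) (.e (nat_lit 57847) (nat_lit 252) (.e (nat_lit 57368) (nat_lit 1) (.e (nat_lit 57754) (nat_lit 209) .nil)))))))) (.g (nat_lit 5) .nil .nil)))))) 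
(.nd (nat_lit 4) (.nd (nat_lit 5) (.nd (nat_lit 6) 
(.lf (nat_lit 26638) (.g (nat_lit 939) (.e (nat_lit 1195) (nat_lit 88) (.e (nat_lit 65630) (nat_lit 14) (.e (nat_lit 401428) (nat_lit 3) .nil))) .nil)) 
(.lf (nat_lit 26702) (.g (nat_lit 2401) (.e (nat_lit 1196) (nat_lit 88) (.e (nat_lit 65586) (nat_lit 7) (.e (nat_lit 319531) (nat_lit 16) (.e (nat_lit 286756) (nat_lit 10) (.e (nat_lit 344169) (nat_lit 40) (.e (nat_lit 671751) (nat_lit 0) (.e (nat_lit 1182) (nat_lit 87) (.e (nat_lit 57731) (nat_lit 181) .nil)))))))) (.g (nat_lit 4) .nil .nil)))) (.nd (nat_lit 6) 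
(.lf (nat_lit 26670) (.g (nat_lit 1744) (.e (nat_lit 1196) (nat_lit 88) (.e (nat_lit 65571) (nat_lit 3) (.e (nat_lit 98373) (nat_lit 29) (.e (nat_lit 450587) (nat_lit 10) .nil)))) .nil)) 
(.lf (nat_lit 26734) (.g (nat_lit 4070) (.e (nat_lit 1196) (nat_lit 88) (.e (nat_lit 65610) (nat_lit 10) (.e (nat_lit 344117) (nat_lit 21) (.e (nat_lit 516195) (nat_lit 26) (.e (nat_lit 335986) (nat_lit 1) (.e (nat_lit 57847) (nat_lit 252) (.e (nat_lit 57365) (nat_lit 1) (.e (nat_lit 57754) (nat_lit 209) .nil)))))))) (.g (nat_lit 6) .nil .nil))))) (.nd (nat_lit 5) (.nd (nat_lit 6) 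
(.lf (nat_lit 26654) (.g (nat_lit 1877) (.e (nat_lit 1196) (nat_lit 88) (.e (nat_lit 65569) (nat_lit 3) (.e (nat_lit 98372) (nat_lit 29) (.e (nat_lit 450579) (nat_lit 5) (.e (nat_lit 532499) (nat_lit 1) .nil))))) .nil)) 
(.lf (nat_lit 26718) (.g (nat_lit 3184) (.e (nat_lit 1196) (nat_lit 88) (.e (nat_lit 65586) (nat_lit 7) (.e (nat_lit 319534) (nat_lit 16) (.e (nat_lit 286756) (nat_lit 10) (.e (nat_lit 344168) (nat_lit 40) (.e (nat_lit 671751) (nat_lit 0) (.e (nat_lit 1182) (nat_lit 87) (.e (nat_lit 57730) (nat_lit 181) .nil)))))))) (.g (nat_lit 4) .nil .nil)))) (.nd (nat_lit 6) 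
(.lf (nat_lit 26686) (.g (nat_lit 3092) (.e (nat_lit 1196) (nat_lit 88) (.e (nat_lit 65583) (nat_lit 7) (.e (nat_lit 319530) (nat_lit 16) (.e (nat_lit 286759) (nat_lit 12) (.e (nat_lit 385105) (nat_lit 50) (.e (nat_lit 786452) (nat_lit 16) (.e (nat_lit 57731) (nat_lit 181) .nil))))))) (.g (nat_lit 5) .nil .nil))) 
(.lf (nat_lit 26750) (.g (nat_lit 491) (.e (nat_lit 1196) (nat_lit 88) (.e (nat_lit 65610) (nat_lit 10) (.e (nat_lit 344123) (nat_lit 24) .nil))) .nil)))))))) (.nd (nat_lit 1) (.nd (nat_lit 2) (.nd (nat_lit 3) (.nd (nat_lit 4) (.nd (nat_lit 5) (.nd (nat_lit 6) 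
(.lf (nat_lit 26625) (.g (nat_lit 2188) (.e (nat_lit 1195) (nat_lit 88) (.e (nat_lit 65628) (nat_lit 14) (.e (nat_lit 401459) (nat_lit 13) (.e (nat_lit 483375) (nat_lit 22) .nil)))) .nil)) 
(.lf (nat_lit 26689) (.g (nat_lit 2450) (.e (nat_lit 1196) (nat_lit 88) (.e (nat_lit 65583) (nat_lit 7) (.e (nat_lit 319533) (nat_lit 16) (.e (nat_lit 286753) (nat_lit 10) (.e (nat_lit 344169) (nat_lit 40) .nil))))) .nil))) (.nd (nat_lit 6) 
(.lf (nat_lit 26657) (.g (nat_lit 2292) (.e (nat_lit 1196) (nat_lit 88) (.e (nat_lit 65569) (nat_lit 3) (.e (nat_lit 98372) (nat_lit 29) (.e (nat_lit 450579) (nat_lit 5) (.e (nat_lit 532504) (nat_lit 1) (.e (nat_lit 65280) (nat_lit 221) .nil)))))) (.g (nat_lit 4) .nil .nil))) 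
(.lf (nat_lit 26721) (.g (nat_lit 3794) (.e (nat_lit 1196) (nat_lit 88) (.e (nat_lit 65586) (nat_lit 7) (.e (nat_lit 319534) (nat_lit 16) (.e (nat_lit 286756) (nat_lit 10) (.e (nat_lit 344169) (nat_lit 40) (.e (nat_lit 671751) (nat_lit 0) (.e (nat_lit 1182) (nat_lit 87) (.e (nat_lit 57728) (nat_lit 181) .nil)))))))) (.g (nat_lit 5) .nil .nil))))) (.nd (nat_lit 5) (.nd (nat_lit 6) 
(.lf (nat_lit 26641) (.g (nat_lit 2569) (.e (nat_lit 1195) (nat_lit 88) (.e (nat_lit 65630) (nat_lit 14) (.e (nat_lit 401459) (nat_lit 13) (.e (nat_lit 483344) (nat_lit 17) .nil)))) .nil)) 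
(.lf (nat_lit 26705) (.g (nat_lit 1777) (.e (nat_lit 1196) (nat_lit 88) (.e (nat_lit 65586) (nat_lit 7) (.e (nat_lit 319531) (nat_lit 16) (.e (nat_lit 286759) (nat_lit 12) (.e (nat_lit 385094) (nat_lit 49) .nil))))) .nil))) (.nd (nat_lit 6) 
(.lf (nat_lit 26673) (.g (nat_lit 3116) (.e (nat_lit 1196) (nat_lit 88) (.e (nat_lit 65571) (nat_lit 3) (.e (nat_lit 98373) (nat_lit 29) (.e (nat_lit 450588) (nat_lit 10) (.e (nat_lit 573475) (nat_lit 12) (.e (nat_lit 57345) (nat_lit 0) (.e (nat_lit 7236) (nat_lit 382) .nil))))))) (.g (nat_lit 4) .nil .nil))) 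
(.lf (nat_lit 26737) (.g (nat_lit 2708) (.e (nat_lit 1196) (nat_lit 88) (.e (nat_lit 65610) (nat_lit 10) (.e (nat_lit 344117) (nat_lit 21) (.e (nat_lit 516195) (nat_lit 26) (.e (nat_lit 335988) (nat_lit 1) .nil))))) .nil))))) (.nd (nat_lit 4) (.nd (nat_lit 5) (.nd (nat_lit 6) 
(.lf (nat_lit 26633) (.g (nat_lit 2407) (.e (nat_lit 1195) (nat_lit 88) (.e (nat_lit 65629) (nat_lit 14) (.e (nat_lit 401459) (nat_lit 13) (.e (nat_lit 483374) (nat_lit 22) .nil)))) .nil)) 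
(.lf (nat_lit 26697) (.g (nat_lit 2356) (.e (nat_lit 1196) (nat_lit 88) (.e (nat_lit 65586) (nat_lit 7) (.e (nat_lit 319531) (nat_lit 16) (.e (nat_lit 286756) (nat_lit 10) (.e (nat_lit 344168) (nat_lit 40) .nil))))) .nil))) (.nd (nat_lit 6) 
(.lf (nat_lit 26665) (.g (nat_lit 3428) (.e (nat_lit 1196) (nat_lit 88) (.e (nat_lit 65571) (nat_lit 3) (.e (nat_lit 98372) (nat_lit 29) (.e (nat_lit 450579) (nat_lit 5) (.e (nat_lit 532501) (nat_lit 1) (.e (nat_lit 57767) (nat_lit 221) .nil)))))) (.g (nat_lit 0) .nil .nil))) 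
(.lf (nat_lit 26729) (.g (nat_lit 3060) (.e (nat_lit 1196) (nat_lit 88) (.e (nat_lit 65610) (nat_lit 10) (.e (nat_lit 344117) (nat_lit 21) (.e (nat_lit 516145) (nat_lit 9) (.e (nat_lit 426448) (nat_lit 20) .nil))))) .nil)))) (.nd (nat_lit 5) (.nd (nat_lit 6) 
(.lf (nat_lit 26649) (.g (nat_lit 4276) (.e (nat_lit 1196) (nat_lit 88) (.e (nat_lit 65568) (nat_lit 2) (.e (nat_lit 90170) (nat_lit 13) (.e (nat_lit 172106) (nat_lit 10) (.e (nat_lit 434231) (nat_lit 23) (.e (nat_lit 532500) (nat_lit 1) (.e (nat_lit 57766) (nat_lit 221) .nil))))))) (.g (nat_lit 6) .nil .nil))) 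
(.lf (nat_lit 26713) (.g (nat_lit 2062) (.e (nat_lit 1196) (nat_lit 88) (.e (nat_lit 65586) (nat_lit 7) (.e (nat_lit 319531) (nat_lit 16) (.e (nat_lit 286767) (nat_lit 27) .nil)))) .nil))) (.nd (nat_lit 6) 
(.lf (nat_lit 26681) (.g (nat_lit 1613) (.e (nat_lit 1196) (nat_lit 88) (.e (nat_lit 65583) (nat_lit 7) (.e (nat_lit 319530) (nat_lit 16) (.e (nat_lit 286743) (nat_lit 9) (.e (nat_lit 336337) (nat_lit 20) .nil))))) .nil)) 
(.lf (nat_lit 26745) (.g (nat_lit 3109) (.e (nat_lit 1196) (nat_lit 88) (.e (nat_lit 65610) (nat_lit 10) (.e (nat_lit 344117) (nat_lit 21) (.e (nat_lit 516195) (nat_lit 26) (.e (nat_lit 335996) (nat_lit 1) (.e (nat_lit 57851) (nat_lit 252) (.e (nat_lit 57364) (nat_lit 1) (.e (nat_lit 57754) (nat_lit 209) .nil)))))))) (.g (nat_lit 4) .nil .nil))))))) 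
(.nd (nat_lit 3) (.nd (nat_lit 4) (.nd (nat_lit 5) (.nd (nat_lit 6) 
(.lf (nat_lit 26629) (.g (nat_lit 4106) (.e (nat_lit 1195) (nat_lit 88) (.e (nat_lit 65629) (nat_lit 14) (.e (nat_lit 401459) (nat_lit 13) (.e (nat_lit 483350) (nat_lit 17) (.e (nat_lit 6113) (nat_lit 332) .nil))))) .nil)) 
(.lf (nat_lit 26693) (.g (nat_lit 2443) (.e (nat_lit 1196) (nat_lit 88) (.e (nat_lit 65586) (nat_lit 7) (.e (nat_lit 319531) (nat_lit 16) (.e (nat_lit 286748) (nat_lit 9) (.e (nat_lit 336295) (nat_lit 15) (.e (nat_lit 3747) (nat_lit 228) (.e (nat_lit 786452) (nat_lit 16) (.e (nat_lit 57726) (nat_lit 181) .nil)))))))) (.g (nat_lit 5) .nil .nil)))) (.nd (nat_lit 6) 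
(.lf (nat_lit 26661) (.g (nat_lit 2954) (.e (nat_lit 1196) (nat_lit 88) (.e (nat_lit 65570) (nat_lit 3) (.e (nat_lit 98373) (nat_lit 29) (.e (nat_lit 450588) (nat_lit 10) (.e (nat_lit 573475) (nat_lit 12) (.e (nat_lit 57348) (nat_lit 0) (.e (nat_lit 7236) (nat_lit 382) .nil))))))) (.g (nat_lit 4) .nil .nil))) 
(.lf (nat_lit 26725) (.g (nat_lit 1311) (.e (nat_lit 1196) (nat_lit 88) (.e (nat_lit 65604) (nat_lit 9) (.e (nat_lit 336013) (nat_lit 2) (.e (nat_lit 90170) (nat_lit 13) .nil)))) .nil)))) (.nd (nat_lit 5) (.nd (nat_lit 6) 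
(.lf (nat_lit 26645) (.g (nat_lit 2679) (.e (nat_lit 1195) (nat_lit 88) (.e (nat_lit 65630) (nat_lit 14) (.e (nat_lit 401459) (nat_lit 13) (.e (nat_lit 483375) (nat_lit 22) .nil)))) .nil)) 
(.lf (nat_lit 26709) (.g (nat_lit 4447) (.e (nat_lit 1196) (nat_lit 88) (.e (nat_lit 65586) (nat_lit 7) (.e (nat_lit 319531) (nat_lit 16) (.e (nat_lit 286759) (nat_lit 12) (.e (nat_lit 385094) (nat_lit 49) (.e (nat_lit 778317) (nat_lit 3) (.e (nat_lit 57354) (nat_lit 0) (.e (nat_lit 6298) (nat_lit 337) .nil)))))))) (.g (nat_lit 7) .nil .nil)))) (.nd (nat_lit 6) 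
(.lf (nat_lit 26677) (.g (nat_lit 300) (.e (nat_lit 1196) (nat_lit 88) (.e (nat_lit 65583) (nat_lit 7) (.e (nat_lit 319499) (nat_lit 10) .nil))) .nil)) 
(.lf (nat_lit 26741) (.g (nat_lit 3967) (.e (nat_lit 1196) (nat_lit 88) (.e (nat_lit 65610) (nat_lit 10) (.e (nat_lit 344117) (nat_lit 21) (.e (nat_lit 516195) (nat_lit 26) (.e (nat_lit 335995) (nat_lit 1) (.e (nat_lit 57847) (nat_lit 252) (.e (nat_lit 57365) (nat_lit 1) (.e (nat_lit 57754) (nat_lit 209) .nil)))))))) (.g (nat_lit 6) .nil .nil)))))) 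
(.nd (nat_lit 4) (.nd (nat_lit 5) (.nd (nat_lit 6) 
(.lf (nat_lit 26637) (.g (nat_lit 3282) (.e (nat_lit 1195) (nat_lit 88) (.e (nat_lit 65629) (nat_lit 14) (.e (nat_lit 401459) (nat_lit 13) (.e (nat_lit 483411) (nat_lit 27) (.e (nat_lit 401414) (nat_lit 0) .nil))))) .nil)) 
(.lf (nat_lit 26701) (.g (nat_lit 2570) (.e (nat_lit 1196) (nat_lit 88) (.e (nat_lit 65586) (nat_lit 7) (.e (nat_lit 319531) (nat_lit 16) (.e (nat_lit 286756) (nat_lit 10) (.e (nat_lit 344169) (nat_lit 40) (.e (nat_lit 671751) (nat_lit 0) (.e (nat_lit 1182) (nat_lit 87) (.e (nat_lit 57728) (nat_lit 181) .nil)))))))) (.g (nat_lit 4) .nil .nil)))) (.nd (nat_lit 6) 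
(.lf (nat_lit 26669) (.g (nat_lit 2852) (.e (nat_lit 1196) (nat_lit 88) (.e (nat_lit 65571) (nat_lit 3) (.e (nat_lit 98372) (nat_lit 29) (.e (nat_lit 450579) (nat_lit 5) (.e (nat_lit 532504) (nat_lit 1) (.e (nat_lit 65280) (nat_lit 221) .nil)))))) (.g (nat_lit 5) .nil .nil))) 
(.lf (nat_lit 26733) (.g (nat_lit 3344) (.e (nat_lit 1196) (nat_lit 88) (.e (nat_lit 65610) (nat_lit 10) (.e (nat_lit 344117) (nat_lit 21) (.e (nat_lit 516195) (nat_lit 26) (.e (nat_lit 335986) (nat_lit 1) (.e (nat_lit 57847) (nat_lit 252) (.e (nat_lit 57365) (nat_lit 1) (.e (nat_lit 57752) (nat_lit 209) .nil)))))))) (.g (nat_lit 5) .nil .nil))))) (.nd (nat_lit 5) (.nd (nat_lit 6) 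
(.lf (nat_lit 26653) (.g (nat_lit 1788) (.e (nat_lit 1196) (nat_lit 88) (.e (nat_lit 65568) (nat_lit 2) (.e (nat_lit 90170) (nat_lit 13) (.e (nat_lit 172106) (nat_lit 10) (.e (nat_lit 434244) (nat_lit 28) (.e (nat_lit 573468) (nat_lit 10) (.e (nat_lit 8194) (nat_lit 0) (.e (nat_lit 4448) (nat_lit 263) .nil)))))))) (.g (nat_lit 4) .nil .nil))) 
(.lf (nat_lit 26717) (.g (nat_lit 3664) (.e (nat_lit 1196) (nat_lit 88) (.e (nat_lit 65586) (nat_lit 7) (.e (nat_lit 319534) (nat_lit 16) (.e (nat_lit 286756) (nat_lit 10) (.e (nat_lit 344168) (nat_lit 40) (.e (nat_lit 671751) (nat_lit 0) (.e (nat_lit 1182) (nat_lit 87) (.e (nat_lit 57724) (nat_lit 181) .nil)))))))) (.g (nat_lit 5) .nil .nil)))) (.nd (nat_lit 6) 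
(.lf (nat_lit 26685) (.g (nat_lit 4358) (.e (nat_lit 1196) (nat_lit 88) (.e (nat_lit 65583) (nat_lit 7) (.e (nat_lit 319530) (nat_lit 16) (.e (nat_lit 286759) (nat_lit 12) (.e (nat_lit 385094) (nat_lit 49) (.e (nat_lit 778317) (nat_lit 3) (.e (nat_lit 57354) (nat_lit 0) (.e (nat_lit 6298) (nat_lit 337) .nil)))))))) (.g (nat_lit 6) .nil .nil))) 
(.lf (nat_lit 26749) (.g (nat_lit 2947) (.e (nat_lit 1196) (nat_lit 88) (.e (nat_lit 65610) (nat_lit 10) (.e (nat_lit 344117) (nat_lit 21) (.e (nat_lit 516195) (nat_lit 26) (.e (nat_lit 335996) (nat_lit 1) (.e (nat_lit 57854) (nat_lit 252) (.e (nat_lit 57366) (nat_lit 1) (.e (nat_lit 57754) (nat_lit 209) .nil)))))))) (.g (nat_lit 4) .nil .nil)))))))) 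
(.nd (nat_lit 2) (.nd (nat_lit 3) (.nd (nat_lit 4) (.nd (nat_lit 5) (.nd (nat_lit 6) 
(.lf (nat_lit 26627) (.g (nat_lit 1822) (.e (nat_lit 1195) (nat_lit 88) (.e (nat_lit 65629) (nat_lit 14) (.e (nat_lit 401459) (nat_lit 13) (.e (nat_lit 483344) (nat_lit 17) .nil)))) .nil)) 
(.lf (nat_lit 26691) (.g (nat_lit 3277) (.e (nat_lit 1196) (nat_lit 88) (.e (nat_lit 65586) (nat_lit 7) (.e (nat_lit 319505) (nat_lit 10) (.e (nat_lit 618) (nat_lit 48) (.e (nat_lit 557109) (nat_lit 15) (.e (nat_lit 188455) (nat_lit 24) (.e (nat_lit 229558) (nat_lit 158) .nil))))))) (.g (nat_lit 5) .nil .nil)))) (.nd (nat_lit 6) 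
(.lf (nat_lit 26659) (.g (nat_lit 2920) (.e (nat_lit 1196) (nat_lit 88) (.e (nat_lit 65570) (nat_lit 3) (.e (nat_lit 98373) (nat_lit 29) (.e (nat_lit 450588) (nat_lit 10) (.e (nat_lit 573475) (nat_lit 12) .nil))))) .nil)) 
(.lf (nat_lit 26723) (.g (nat_lit 3625) (.e (nat_lit 1196) (nat_lit 88) (.e (nat_lit 65586) (nat_lit 7) (.e (nat_lit 319534) (nat_lit 16) (.e (nat_lit 286756) (nat_lit 10) (.e (nat_lit 344169) (nat_lit 40) (.e (nat_lit 671751) (nat_lit 0) (.e (nat_lit 1182) (nat_lit 87) (.e (nat_lit 57731) (nat_lit 181) .nil)))))))) (.g (nat_lit 5) .nil .nil))))) (.nd (nat_lit 5) (.nd (nat_lit 6) 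
(.lf (nat_lit 26643) (.g (nat_lit 2655) (.e (nat_lit 1195) (nat_lit 88) (.e (nat_lit 65630) (nat_lit 14) (.e (nat_lit 401459) (nat_lit 13) (.e (nat_lit 483372) (nat_lit 21) .nil)))) .nil)) 
(.lf (nat_lit 26707) (.g (nat_lit 2658) (.e (nat_lit 1196) (nat_lit 88) (.e (nat_lit 65586) (nat_lit 7) (.e (nat_lit 319531) (nat_lit 16) (.e (nat_lit 286759) (nat_lit 12) (.e (nat_lit 385094) (nat_lit 49) (.e (nat_lit 778246) (nat_lit 0) (.e (nat_lit 1183) (nat_lit 87) (.e (nat_lit 57724) (nat_lit 181) .nil)))))))) (.g (nat_lit 5) .nil .nil)))) (.nd (nat_lit 6) 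
(.lf (nat_lit 26675) (.g (nat_lit 1587) (.e (nat_lit 1196) (nat_lit 88) (.e (nat_lit 65571) (nat_lit 3) (.e (nat_lit 98389) (nat_lit 33) (.e (nat_lit 491560) (nat_lit 10) .nil)))) .nil)) 
(.lf (nat_lit 26739) (.g (nat_lit 3196) (.e (nat_lit 1196) (nat_lit 88) (.e (nat_lit 65610) (nat_lit 10) (.e (nat_lit 344117) (nat_lit 21) (.e (nat_lit 516195) (nat_lit 26) (.e (nat_lit 335995) (nat_lit 1) (.e (nat_lit 57847) (nat_lit 252) (.e (nat_lit 57363) (nat_lit 1) (.e (nat_lit 57755) (nat_lit 209) .nil)))))))) (.g (nat_lit 4) .nil .nil)))))) 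
(.nd (nat_lit 4) (.nd (nat_lit 5) (.nd (nat_lit 6) 
(.lf (nat_lit 26635) (.g (nat_lit 3477) (.e (nat_lit 1195) (nat_lit 88) (.e (nat_lit 65629) (nat_lit 14) (.e (nat_lit 401459) (nat_lit 13) (.e (nat_lit 483403) (nat_lit 26) (.e (nat_lit 385043) (nat_lit 21) .nil))))) .nil)) 
(.lf (nat_lit 26699) (.g (nat_lit 2594) (.e (nat_lit 1196) (nat_lit 88) (.e (nat_lit 65586) (nat_lit 7) (.e (nat_lit 319531) (nat_lit 16) (.e (nat_lit 286756) (nat_lit 10) (.e (nat_lit 344168) (nat_lit 40) (.e (nat_lit 671751) (nat_lit 0) (.e (nat_lit 1182) (nat_lit 87) (.e (nat_lit 57731) (nat_lit 181) .nil)))))))) (.g (nat_lit 4) .nil .nil)))) (.nd (nat_lit 6) 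
(.lf (nat_lit 26667) (.g (nat_lit 2555) (.e (nat_lit 1196) (nat_lit 88) (.e (nat_lit 65571) (nat_lit 3) (.e (nat_lit 98372) (nat_lit 29) (.e (nat_lit 450579) (nat_lit 5) (.e (nat_lit 532503) (nat_lit 1) (.e (nat_lit 65280) (nat_lit 221) .nil)))))) (.g (nat_lit 4) .nil .nil))) 
(.lf (nat_lit 26731) (.g (nat_lit 2073) (.e (nat_lit 1196) (nat_lit 88) (.e (nat_lit 65610) (nat_lit 10) (.e (nat_lit 344117) (nat_lit 21) (.e (nat_lit 516195) (nat_lit 26) .nil)))) .nil)))) (.nd (nat_lit 5) (.nd (nat_lit 6) 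
(.lf (nat_lit 26651) (.g (nat_lit 4396) (.e (nat_lit 1196) (nat_lit 88) (.e (nat_lit 65568) (nat_lit 2) (.e (nat_lit 90170) (nat_lit 13) (.e (nat_lit 172106) (nat_lit 10) (.e (nat_lit 434231) (nat_lit 23) (.e (nat_lit 532500) (nat_lit 1) (.e (nat_lit 65280) (nat_lit 221) .nil))))))) (.g (nat_lit 6) .nil .nil))) 
(.lf (nat_lit 26715) (.g (nat_lit 2189) (.e (nat_lit 1196) (nat_lit 88) (.e (nat_lit 65586) (nat_lit 7) (.e (nat_lit 319534) (nat_lit 16) (.e (nat_lit 286753) (nat_lit 10) .nil)))) .nil))) (.nd (nat_lit 6) 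
(.lf (nat_lit 26683) (.g (nat_lit 1343) (.e (nat_lit 1196) (nat_lit 88) (.e (nat_lit 65583) (nat_lit 7) (.e (nat_lit 319530) (nat_lit 16) (.e (nat_lit 286755) (nat_lit 10) .nil)))) .nil)) 
(.lf (nat_lit 26747) (.g (nat_lit 2886) (.e (nat_lit 1196) (nat_lit 88) (.e (nat_lit 65610) (nat_lit 10) (.e (nat_lit 344117) (nat_lit 21) (.e (nat_lit 516195) (nat_lit 26) (.e (nat_lit 335996) (nat_lit 1) (.e (nat_lit 57854) (nat_lit 252) (.e (nat_lit 57363) (nat_lit 1) (.e (nat_lit 57755) (nat_lit 209) .nil)))))))) (.g (nat_lit 4) .nil .nil))))))) 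
(.nd (nat_lit 3) (.nd (nat_lit 4) (.nd (nat_lit 5) (.nd (nat_lit 6) 
(.lf (nat_lit 26631) (.g (nat_lit 5132) (.e (nat_lit 1195) (nat_lit 88) (.e (nat_lit 65629) (nat_lit 14) (.e (nat_lit 401459) (nat_lit 13) (.e (nat_lit 483372) (nat_lit 21) (.e (nat_lit 327424) (nat_lit 0) .nil))))) .nil)) 
(.lf (nat_lit 26695) (.g (nat_lit 2053) (.e (nat_lit 1196) (nat_lit 88) (.e (nat_lit 65586) (nat_lit 7) (.e (nat_lit 319531) (nat_lit 16) (.e (nat_lit 286753) (nat_lit 10) .nil)))) .nil))) (.nd (nat_lit 6) 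
(.lf (nat_lit 26663) (.g (nat_lit 2321) (.e (nat_lit 1196) (nat_lit 88) (.e (nat_lit 65571) (nat_lit 3) (.e (nat_lit 98372) (nat_lit 29) (.e (nat_lit 450579) (nat_lit 5) (.e (nat_lit 532499) (nat_lit 1) (.e (nat_lit 65280) (nat_lit 221) .nil)))))) (.g (nat_lit 4) .nil .nil))) 
(.lf (nat_lit 26727) (.g (nat_lit 1570) (.e (nat_lit 1196) (nat_lit 88) (.e (nat_lit 65610) (nat_lit 10) (.e (nat_lit 344097) (nat_lit 18) (.e (nat_lit 5906) (nat_lit 320) .nil)))) .nil)))) (.nd (nat_lit 5) (.nd (nat_lit 6) 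
(.lf (nat_lit 26647) (.g (nat_lit 3894) (.e (nat_lit 1196) (nat_lit 88) (.e (nat_lit 65566) (nat_lit 2) (.e (nat_lit 90170) (nat_lit 13) (.e (nat_lit 172106) (nat_lit 10) (.e (nat_lit 434231) (nat_lit 23) (.e (nat_lit 532500) (nat_lit 1) (.e (nat_lit 57767) (nat_lit 221) .nil))))))) (.g (nat_lit 6) .nil .nil))) 
(.lf (nat_lit 26711) (.g (nat_lit 3967) (.e (nat_lit 1196) (nat_lit 88) (.e (nat_lit 65586) (nat_lit 7) (.e (nat_lit 319531) (nat_lit 16) (.e (nat_lit 286759) (nat_lit 12) (.e (nat_lit 385094) (nat_lit 49) (.e (nat_lit 778317) (nat_lit 3) (.e (nat_lit 57354) (nat_lit 0) (.e (nat_lit 6321) (nat_lit 337) .nil)))))))) (.g (nat_lit 6) .nil .nil)))) (.nd (nat_lit 6) 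
(.lf (nat_lit 26679) (.g (nat_lit 2147) (.e (nat_lit 1196) (nat_lit 88) (.e (nat_lit 65583) (nat_lit 7) (.e (nat_lit 319530) (nat_lit 16) (.e (nat_lit 286731) (nat_lit 1) (.e (nat_lit 57688) (nat_lit 156) (.e (nat_lit 163928) (nat_lit 16) (.e (nat_lit 458774) (nat_lit 18) (.e (nat_lit 4605) (nat_lit 269) .nil)))))))) (.g (nat_lit 4) .nil .nil))) 
(.lf (nat_lit 26743) (.g (nat_lit 3211) (.e (nat_lit 1196) (nat_lit 88) (.e (nat_lit 65610) (nat_lit 10) (.e (nat_lit 344117) (nat_lit 21) (.e (nat_lit 516195) (nat_lit 26) (.e (nat_lit 335995) (nat_lit 1) (.e (nat_lit 57849) (nat_lit 252) (.e (nat_lit 57363) (nat_lit 1) (.e (nat_lit 57755) (nat_lit 209) .nil)))))))) (.g (nat_lit 4) .nil .nil)))))) 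
(.nd (nat_lit 4) (.nd (nat_lit 5) (.nd (nat_lit 6) 
(.lf (nat_lit 26639) (.g (nat_lit 2824) (.e (nat_lit 1195) (nat_lit 88) (.e (nat_lit 65630) (nat_lit 14) (.e (nat_lit 401428) (nat_lit 3) (.e (nat_lit 204869) (nat_lit 29) (.e (nat_lit 360448) (nat_lit 0) (.e (nat_lit 3922) (nat_lit 239) .nil)))))) (.g (nat_lit 4) .nil .nil))) 
(.lf (nat_lit 26703) (.g (nat_lit 1309) (.e (nat_lit 1196) (nat_lit 88) (.e (nat_lit 65586) (nat_lit 7) (.e (nat_lit 319531) (nat_lit 16) (.e (nat_lit 286759) (nat_lit 12) .nil)))) .nil))) (.nd (nat_lit 6) 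
(.lf (nat_lit 26671) (.g (nat_lit 2999) (.e (nat_lit 1196) (nat_lit 88) (.e (nat_lit 65571) (nat_lit 3) (.e (nat_lit 98373) (nat_lit 29) (.e (nat_lit 450588) (nat_lit 10) (.e (nat_lit 573473) (nat_lit 12) .nil))))) .nil)) 
(.lf (nat_lit 26735) (.g (nat_lit 2893) (.e (nat_lit 1196) (nat_lit 88) (.e (nat_lit 65610) (nat_lit 10) (.e (nat_lit 344117) (nat_lit 21) (.e (nat_lit 516195) (nat_lit 26) (.e (nat_lit 335986) (nat_lit 1) (.e (nat_lit 57847) (nat_lit 252) (.e (nat_lit 57367) (nat_lit 1) (.e (nat_lit 57754) (nat_lit 209) .nil)))))))) (.g (nat_lit 4) .nil .nil))))) (.nd (nat_lit 5) (.nd (nat_lit 6) 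
(.lf (nat_lit 26655) (.g (nat_lit 2915) (.e (nat_lit 1196) (nat_lit 88) (.e (nat_lit 65569) (nat_lit 3) (.e (nat_lit 98372) (nat_lit 29) (.e (nat_lit 450579) (nat_lit 5) (.e (nat_lit 532501) (nat_lit 1) (.e (nat_lit 57766) (nat_lit 221) .nil)))))) (.g (nat_lit 5) .nil .nil))) 
(.lf (nat_lit 26719) (.g (nat_lit 3765) (.e (nat_lit 1196) (nat_lit 88) (.e (nat_lit 65586) (nat_lit 7) (.e (nat_lit 319534) (nat_lit 16) (.e (nat_lit 286756) (nat_lit 10) (.e (nat_lit 344168) (nat_lit 40) (.e (nat_lit 671751) (nat_lit 0) (.e (nat_lit 1182) (nat_lit 87) (.e (nat_lit 57731) (nat_lit 181) .nil)))))))) (.g (nat_lit 5) .nil .nil)))) (.nd (nat_lit 6) 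
(.lf (nat_lit 26687) (.g (nat_lit 1935) (.e (nat_lit 1196) (nat_lit 88) (.e (nat_lit 65583) (nat_lit 7) (.e (nat_lit 319530) (nat_lit 16) (.e (nat_lit 286759) (nat_lit 12) (.e (nat_lit 385115) (nat_lit 53) (.e (nat_lit 811020) (nat_lit 1) (.e (nat_lit 8547) (nat_lit 230) .nil))))))) (.g (nat_lit 4) .nil .nil))) 
(.lf (nat_lit 26751) (.g (nat_lit 2080) (.e (nat_lit 1196) (nat_lit 88) (.e (nat_lit 65610) (nat_lit 10) (.e (nat_lit 344129) (nat_lit 26) (.e (nat_lit 557087) (nat_lit 11) (.e (nat_lit 24617) (nat_lit 7) .nil))))) .nil)))))))))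

noncomputable def tv372 : DT := (.nd (nat_lit 0) (.nd (nat_lit 1) (.nd (nat_lit 2) (.nd (nat_lit 3) (.nd (nat_lit 4) (.nd (nat_lit 5) 
(.lf (nat_lit 26752) (.g (nat_lit 2456) (.e (nat_lit 1196) (nat_lit 88) (.e (nat_lit 65610) (nat_lit 10) (.e (nat_lit 344129) (nat_lit 26) (.e (nat_lit 557087) (nat_lit 11) (.e (nat_lit 24617) (nat_lit 7) (.e (nat_lit 319505) (nat_lit 10) (.e (nat_lit 52) (nat_lit 0) (.e (nat_lit 3883) (nat_lit 233) .nil)))))))) (.g (nat_lit 4) .nil .nil))) 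
(.lf (nat_lit 26784) (.g (nat_lit 2046) (.e (nat_lit 1196) (nat_lit 88) (.e (nat_lit 65624) (nat_lit 12) (.e (nat_lit 385094) (nat_lit 49) (.e (nat_lit 778326) (nat_lit 6) (.e (nat_lit 81938) (nat_lit 20) (.e (nat_lit 991) (nat_lit 81) (.e (nat_lit 5900) (nat_lit 320) .nil))))))) (.g (nat_lit 5) .nil .nil)))) (.nd (nat_lit 5) 
(.lf (nat_lit 26768) (.g (nat_lit 2222) (.e (nat_lit 1196) (nat_lit 88) (.e (nat_lit 65619) (nat_lit 10) (.e (nat_lit 344117) (nat_lit 21) (.e (nat_lit 516195) (nat_lit 26) (.e (nat_lit 335996) (nat_lit 1) (.e (nat_lit 57854) (nat_lit 252) (.e (nat_lit 57363) (nat_lit 1) (.e (nat_lit 57755) (nat_lit 209) .nil)))))))) (.g (nat_lit 4) .nil .nil))) 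
(.lf (nat_lit 26800) (.g (nat_lit 1437) (.e (nat_lit 1196) (nat_lit 88) (.e (nat_lit 65624) (nat_lit 12) (.e (nat_lit 385094) (nat_lit 49) (.e (nat_lit 778327) (nat_lit 6) (.e (nat_lit 81950) (nat_lit 21) (.e (nat_lit 57871) (nat_lit 264) .nil)))))) (.g (nat_lit 4) .nil .nil))))) (.nd (nat_lit 4) (.nd (nat_lit 5) 
(.lf (nat_lit 26760) (.g (nat_lit 2227) (.e (nat_lit 1196) (nat_lit 88) (.e (nat_lit 65619) (nat_lit 10) (.e (nat_lit 344117) (nat_lit 21) (.e (nat_lit 516195) (nat_lit 26) (.e (nat_lit 335986) (nat_lit 1) (.e (nat_lit 57847) (nat_lit 252) (.e (nat_lit 57367) (nat_lit 1) (.e (nat_lit 57754) (nat_lit 209) .nil)))))))) (.g (nat_lit 4) .nil .nil))) 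
(.lf (nat_lit 26792) (.g (nat_lit 2439) (.e (nat_lit 1196) (nat_lit 88) (.e (nat_lit 65624) (nat_lit 12) (.e (nat_lit 385094) (nat_lit 49) (.e (nat_lit 778326) (nat_lit 6) (.e (nat_lit 81950) (nat_lit 21) (.e (nat_lit 57871) (nat_lit 264) .nil)))))) (.g (nat_lit 6) .nil .nil)))) (.nd (nat_lit 5) 
(.lf (nat_lit 26776) (.g (nat_lit 3420) (.e (nat_lit 1196) (nat_lit 88) (.e (nat_lit 65624) (nat_lit 12) (.e (nat_lit 385074) (nat_lit 31) (.e (nat_lit 573493) (nat_lit 15) (.e (nat_lit 81959) (nat_lit 24) .nil))))) .nil)) 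
(.lf (nat_lit 26808) (.g (nat_lit 1213) (.e (nat_lit 1196) (nat_lit 88) (.e (nat_lit 65624) (nat_lit 12) (.e (nat_lit 385105) (nat_lit 50) (.e (nat_lit 786481) (nat_lit 30) .nil)))) .nil))))) (.nd (nat_lit 3) (.nd (nat_lit 4) (.nd (nat_lit 5) 
(.lf (nat_lit 26756) (.g (nat_lit 1263) (.e (nat_lit 1196) (nat_lit 88) (.e (nat_lit 65619) (nat_lit 10) (.e (nat_lit 344117) (nat_lit 21) (.e (nat_lit 516098) (nat_lit 0) .nil)))) .nil)) 
(.lf (nat_lit 26788) (.g (nat_lit 2721) (.e (nat_lit 1196) (nat_lit 88) (.e (nat_lit 65624) (nat_lit 12) (.e (nat_lit 385094) (nat_lit 49) (.e (nat_lit 778326) (nat_lit 6) (.e (nat_lit 81948) (nat_lit 21) (.e (nat_lit 57872) (nat_lit 264) .nil)))))) (.g (nat_lit 6) .nil .nil)))) (.nd (nat_lit 5) 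
(.lf (nat_lit 26772) (.g (nat_lit 1964) (.e (nat_lit 1196) (nat_lit 88) (.e (nat_lit 65623) (nat_lit 12) (.e (nat_lit 385106) (nat_lit 50) (.e (nat_lit 786483) (nat_lit 30) (.e (nat_lit 360451) (nat_lit 0) (.e (nat_lit 5896) (nat_lit 320) .nil)))))) (.g (nat_lit 4) .nil .nil))) 
(.lf (nat_lit 26804) (.g (nat_lit 1076) (.e (nat_lit 1196) (nat_lit 88) (.e (nat_lit 65624) (nat_lit 12) (.e (nat_lit 385102) (nat_lit 50) (.e (nat_lit 786483) (nat_lit 30) .nil)))) .nil)))) (.nd (nat_lit 4) (.nd (nat_lit 5) 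
(.lf (nat_lit 26764) (.g (nat_lit 2531) (.e (nat_lit 1196) (nat_lit 88) (.e (nat_lit 65619) (nat_lit 10) (.e (nat_lit 344117) (nat_lit 21) (.e (nat_lit 516195) (nat_lit 26) (.e (nat_lit 335995) (nat_lit 1) (.e (nat_lit 57847) (nat_lit 252) (.e (nat_lit 57363) (nat_lit 1) (.e (nat_lit 57755) (nat_lit 209) .nil)))))))) (.g (nat_lit 5) .nil .nil))) 
(.lf (nat_lit 26796) (.g (nat_lit 2407) (.e (nat_lit 1196) (nat_lit 88) (.e (nat_lit 65624) (nat_lit 12) (.e (nat_lit 385094) (nat_lit 49) (.e (nat_lit 778326) (nat_lit 6) (.e (nat_lit 81959) (nat_lit 24) (.e (nat_lit 123190) (nat_lit 264) .nil)))))) (.g (nat_lit 6) .nil .nil)))) (.nd (nat_lit 5) 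
(.lf (nat_lit 26780) (.g (nat_lit 1638) (.e (nat_lit 1196) (nat_lit 88) (.e (nat_lit 65624) (nat_lit 12) (.e (nat_lit 385093) (nat_lit 49) (.e (nat_lit 778326) (nat_lit 6) (.e (nat_lit 81950) (nat_lit 21) (.e (nat_lit 57871) (nat_lit 264) .nil)))))) (.g (nat_lit 4) .nil .nil))) 
(.lf (nat_lit 26812) (.g (nat_lit 1943) (.e (nat_lit 1196) (nat_lit 88) (.e (nat_lit 65624) (nat_lit 12) (.e (nat_lit 385105) (nat_lit 50) (.e (nat_lit 786481) (nat_lit 30) (.e (nat_lit 360449) (nat_lit 0) (.e (nat_lit 5882) (nat_lit 320) .nil)))))) (.g (nat_lit 4) .nil .nil))))))) (.nd (nat_lit 2) (.nd (nat_lit 3) (.nd (nat_lit 4) (.nd (nat_lit 5) 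
(.lf (nat_lit 26754) (.g (nat_lit 679) (.e (nat_lit 1196) (nat_lit 88) (.e (nat_lit 65619) (nat_lit 10) (.e (nat_lit 344117) (nat_lit 21) .nil))) .nil)) 
(.lf (nat_lit 26786) (.g (nat_lit 1723) (.e (nat_lit 1196) (nat_lit 88) (.e (nat_lit 65624) (nat_lit 12) (.e (nat_lit 385094) (nat_lit 49) (.e (nat_lit 778326) (nat_lit 6) (.e (nat_lit 81948) (nat_lit 21) (.e (nat_lit 57870) (nat_lit 264) .nil)))))) (.g (nat_lit 5) .nil .nil)))) (.nd (nat_lit 5) 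
(.lf (nat_lit 26770) (.g (nat_lit 2283) (.e (nat_lit 1196) (nat_lit 88) (.e (nat_lit 65619) (nat_lit 10) (.e (nat_lit 344117) (nat_lit 21) (.e (nat_lit 516195) (nat_lit 26) (.e (nat_lit 335996) (nat_lit 1) (.e (nat_lit 57854) (nat_lit 252) (.e (nat_lit 57366) (nat_lit 1) (.e (nat_lit 57754) (nat_lit 209) .nil)))))))) (.g (nat_lit 4) .nil .nil))) 
(.lf (nat_lit 26802) (.g (nat_lit 1367) (.e (nat_lit 1196) (nat_lit 88) (.e (nat_lit 65624) (nat_lit 12) (.e (nat_lit 385094) (nat_lit 49) (.e (nat_lit 778327) (nat_lit 6) (.e (nat_lit 81957) (nat_lit 24) (.e (nat_lit 123190) (nat_lit 264) .nil)))))) (.g (nat_lit 4) .nil .nil))))) (.nd (nat_lit 4) (.nd (nat_lit 5) 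
(.lf (nat_lit 26762) (.g (nat_lit 2148) (.e (nat_lit 1196) (nat_lit 88) (.e (nat_lit 65619) (nat_lit 10) (.e (nat_lit 344117) (nat_lit 21) (.e (nat_lit 516195) (nat_lit 26) (.e (nat_lit 335988) (nat_lit 1) .nil))))) .nil)) 
(.lf (nat_lit 26794) (.g (nat_lit 3091) (.e (nat_lit 1196) (nat_lit 88) (.e (nat_lit 65624) (nat_lit 12) (.e (nat_lit 385094) (nat_lit 49) (.e (nat_lit 778326) (nat_lit 6) (.e (nat_lit 81950) (nat_lit 21) (.e (nat_lit 57873) (nat_lit 264) .nil)))))) (.g (nat_lit 0) .nil .nil)))) (.nd (nat_lit 5) 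
(.lf (nat_lit 26778) (.g (nat_lit 1004) (.e (nat_lit 1196) (nat_lit 88) (.e (nat_lit 65624) (nat_lit 12) (.e (nat_lit 385093) (nat_lit 49) (.e (nat_lit 778323) (nat_lit 5) .nil)))) .nil)) 
(.lf (nat_lit 26810) (.g (nat_lit 2398) (.e (nat_lit 1196) (nat_lit 88) (.e (nat_lit 65624) (nat_lit 12) (.e (nat_lit 385105) (nat_lit 50) (.e (nat_lit 786481) (nat_lit 30) (.e (nat_lit 360449) (nat_lit 0) (.e (nat_lit 5873) (nat_lit 320) .nil)))))) (.g (nat_lit 5) .nil .nil)))))) (.nd (nat_lit 3) (.nd (nat_lit 4) (.nd (nat_lit 5) 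
(.lf (nat_lit 26758) (.g (nat_lit 2110) (.e (nat_lit 1196) (nat_lit 88) (.e (nat_lit 65619) (nat_lit 10) (.e (nat_lit 344117) (nat_lit 21) (.e (nat_lit 516195) (nat_lit 26) (.e (nat_lit 335986) (nat_lit 1) .nil))))) .nil)) 
(.lf (nat_lit 26790) (.g (nat_lit 2392) (.e (nat_lit 1196) (nat_lit 88) (.e (nat_lit 65624) (nat_lit 12) (.e (nat_lit 385094) (nat_lit 49) (.e (nat_lit 778326) (nat_lit 6) (.e (nat_lit 81948) (nat_lit 21) (.e (nat_lit 57875) (nat_lit 264) .nil)))))) (.g (nat_lit 0) .nil .nil)))) (.nd (nat_lit 5) 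
(.lf (nat_lit 26774) (.g (nat_lit 2179) (.e (nat_lit 1196) (nat_lit 88) (.e (nat_lit 65624) (nat_lit 12) (.e (nat_lit 385074) (nat_lit 31) (.e (nat_lit 573491) (nat_lit 15) .nil)))) .nil)) 
(.lf (nat_lit 26806) (.g (nat_lit 2197) (.e (nat_lit 1196) (nat_lit 88) (.e (nat_lit 65624) (nat_lit 12) (.e (nat_lit 385102) (nat_lit 50) (.e (nat_lit 786483) (nat_lit 30) (.e (nat_lit 360451) (nat_lit 0) (.e (nat_lit 5898) (nat_lit 320) .nil)))))) (.g (nat_lit 4) .nil .nil))))) (.nd (nat_lit 4) (.nd (nat_lit 5) 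
(.lf (nat_lit 26766) (.g (nat_lit 2445) (.e (nat_lit 1196) (nat_lit 88) (.e (nat_lit 65619) (nat_lit 10) (.e (nat_lit 344117) (nat_lit 21) (.e (nat_lit 516195) (nat_lit 26) (.e (nat_lit 335996) (nat_lit 1) (.e (nat_lit 57851) (nat_lit 252) (.e (nat_lit 57364) (nat_lit 1) (.e (nat_lit 57754) (nat_lit 209) .nil)))))))) (.g (nat_lit 4) .nil .nil))) 
(.lf (nat_lit 26798) (.g (nat_lit 1316) (.e (nat_lit 1196) (nat_lit 88) (.e (nat_lit 65624) (nat_lit 12) (.e (nat_lit 385094) (nat_lit 49) (.e (nat_lit 778327) (nat_lit 6) (.e (nat_lit 81948) (nat_lit 21) .nil))))) .nil))) (.nd (nat_lit 5) 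
(.lf (nat_lit 26782) (.g (nat_lit 986) (.e (nat_lit 1196) (nat_lit 88) (.e (nat_lit 65624) (nat_lit 12) (.e (nat_lit 385094) (nat_lit 49) (.e (nat_lit 778326) (nat_lit 6) .nil)))) .nil)) 
(.lf (nat_lit 26814) (.g (nat_lit 1977) (.e (nat_lit 1196) (nat_lit 88) (.e (nat_lit 65624) (nat_lit 12) (.e (nat_lit 385105) (nat_lit 50) (.e (nat_lit 786481) (nat_lit 30) (.e (nat_lit 360452) (nat_lit 0) (.e (nat_lit 5905) (nat_lit 320) .nil)))))) (.g (nat_lit 4) .nil .nil)))))))) (.nd (nat_lit 1) (.nd (nat_lit 2) (.nd (nat_lit 3) (.nd (nat_lit 4) (.nd (nat_lit 5) 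
(.lf (nat_lit 26753) (.g (nat_lit 214) (.e (nat_lit 1196) (nat_lit 88) (.e (nat_lit 65616) (nat_lit 10) (.e (nat_lit 344123) (nat_lit 24) .nil))) .nil)) 
(.lf (nat_lit 26785) (.g (nat_lit 1198) (.e (nat_lit 1196) (nat_lit 88) (.e (nat_lit 65624) (nat_lit 12) (.e (nat_lit 385094) (nat_lit 49) (.e (nat_lit 778326) (nat_lit 6) (.e (nat_lit 81943) (nat_lit 20) .nil))))) .nil))) (.nd (nat_lit 5) 
(.lf (nat_lit 26769) (.g (nat_lit 3161) (.e (nat_lit 1196) (nat_lit 88) (.e (nat_lit 65619) (nat_lit 10) (.e (nat_lit 344117) (nat_lit 21) (.e (nat_lit 516195) (nat_lit 26) (.e (nat_lit 335996) (nat_lit 1) (.e (nat_lit 57854) (nat_lit 252) (.e (nat_lit 57364) (nat_lit 1) (.e (nat_lit 57754) (nat_lit 209) .nil)))))))) (.g (nat_lit 6) .nil .nil))) 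
(.lf (nat_lit 26801) (.g (nat_lit 1943) (.e (nat_lit 1196) (nat_lit 88) (.e (nat_lit 65624) (nat_lit 12) (.e (nat_lit 385094) (nat_lit 49) (.e (nat_lit 778327) (nat_lit 6) (.e (nat_lit 81950) (nat_lit 21) (.e (nat_lit 57872) (nat_lit 264) .nil)))))) (.g (nat_lit 5) .nil .nil))))) (.nd (nat_lit 4) (.nd (nat_lit 5) 
(.lf (nat_lit 26761) (.g (nat_lit 2202) (.e (nat_lit 1196) (nat_lit 88) (.e (nat_lit 65619) (nat_lit 10) (.e (nat_lit 344117) (nat_lit 21) (.e (nat_lit 516195) (nat_lit 26) (.e (nat_lit 335986) (nat_lit 1) (.e (nat_lit 57847) (nat_lit 252) (.e (nat_lit 57367) (nat_lit 1) (.e (nat_lit 57755) (nat_lit 209) .nil)))))))) (.g (nat_lit 4) .nil .nil))) 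
(.lf (nat_lit 26793) (.g (nat_lit 2780) (.e (nat_lit 1196) (nat_lit 88) (.e (nat_lit 65624) (nat_lit 12) (.e (nat_lit 385094) (nat_lit 49) (.e (nat_lit 778326) (nat_lit 6) (.e (nat_lit 81950) (nat_lit 21) (.e (nat_lit 57872) (nat_lit 264) .nil)))))) (.g (nat_lit 6) .nil .nil)))) (.nd (nat_lit 5) 
(.lf (nat_lit 26777) (.g (nat_lit 906) (.e (nat_lit 1196) (nat_lit 88) (.e (nat_lit 65624) (nat_lit 12) (.e (nat_lit 385092) (nat_lit 49) (.e (nat_lit 778326) (nat_lit 6) .nil)))) .nil)) 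
(.lf (nat_lit 26809) (.g (nat_lit 1783) (.e (nat_lit 1196) (nat_lit 88) (.e (nat_lit 65624) (nat_lit 12) (.e (nat_lit 385105) (nat_lit 50) (.e (nat_lit 786481) (nat_lit 30) (.e (nat_lit 360449) (nat_lit 0) .nil))))) .nil))))) (.nd (nat_lit 3) (.nd (nat_lit 4) (.nd (nat_lit 5) 
(.lf (nat_lit 26757) (.g (nat_lit 1456) (.e (nat_lit 1196) (nat_lit 88) (.e (nat_lit 65619) (nat_lit 10) (.e (nat_lit 344117) (nat_lit 21) (.e (nat_lit 516195) (nat_lit 26) .nil)))) .nil)) 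
(.lf (nat_lit 26789) (.g (nat_lit 2985) (.e (nat_lit 1196) (nat_lit 88) (.e (nat_lit 65624) (nat_lit 12) (.e (nat_lit 385094) (nat_lit 49) (.e (nat_lit 778326) (nat_lit 6) (.e (nat_lit 81948) (nat_lit 21) (.e (nat_lit 57873) (nat_lit 264) .nil)))))) (.g (nat_lit 0) .nil .nil)))) (.nd (nat_lit 5) 
(.lf (nat_lit 26773) (.g (nat_lit 1472) (.e (nat_lit 1196) (nat_lit 88) (.e (nat_lit 65624) (nat_lit 12) (.e (nat_lit 385074) (nat_lit 31) (.e (nat_lit 573484) (nat_lit 13) .nil)))) .nil)) 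
(.lf (nat_lit 26805) (.g (nat_lit 2188) (.e (nat_lit 1196) (nat_lit 88) (.e (nat_lit 65624) (nat_lit 12) (.e (nat_lit 385102) (nat_lit 50) (.e (nat_lit 786483) (nat_lit 30) (.e (nat_lit 360451) (nat_lit 0) (.e (nat_lit 5896) (nat_lit 320) .nil)))))) (.g (nat_lit 4) .nil .nil))))) (.nd (nat_lit 4) (.nd (nat_lit 5) 
(.lf (nat_lit 26765) (.g (nat_lit 2523) (.e (nat_lit 1196) (nat_lit 88) (.e (nat_lit 65619) (nat_lit 10) (.e (nat_lit 344117) (nat_lit 21) (.e (nat_lit 516195) (nat_lit 26) (.e (nat_lit 335995) (nat_lit 1) (.e (nat_lit 57847) (nat_lit 252) (.e (nat_lit 57365) (nat_lit 1) (.e (nat_lit 57752) (nat_lit 209) .nil)))))))) (.g (nat_lit 5) .nil .nil))) 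
(.lf (nat_lit 26797) (.g (nat_lit 954) (.e (nat_lit 1196) (nat_lit 88) (.e (nat_lit 65624) (nat_lit 12) (.e (nat_lit 385094) (nat_lit 49) (.e (nat_lit 778327) (nat_lit 6) .nil)))) .nil))) (.nd (nat_lit 5) 
(.lf (nat_lit 26781) (.g (nat_lit 1485) (.e (nat_lit 1196) (nat_lit 88) (.e (nat_lit 65624) (nat_lit 12) (.e (nat_lit 385093) (nat_lit 49) (.e (nat_lit 778327) (nat_lit 6) .nil)))) .nil)) 
(.lf (nat_lit 26813) (.g (nat_lit 2816) (.e (nat_lit 1196) (nat_lit 88) (.e (nat_lit 65624) (nat_lit 12) (.e (nat_lit 385105) (nat_lit 50) (.e (nat_lit 786481) (nat_lit 30) (.e (nat_lit 360449) (nat_lit 0) (.e (nat_lit 5920) (nat_lit 320) .nil)))))) (.g (nat_lit 0) .nil .nil))))))) (.nd (nat_lit 2) (.nd (nat_lit 3) (.nd (nat_lit 4) (.nd (nat_lit 5) 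
(.lf (nat_lit 26755) (.g (nat_lit 1350) (.e (nat_lit 1196) (nat_lit 88) (.e (nat_lit 65619) (nat_lit 10) (.e (nat_lit 344117) (nat_lit 21) (.e (nat_lit 516097) (nat_lit 0) .nil)))) .nil)) 
(.lf (nat_lit 26787) (.g (nat_lit 2300) (.e (nat_lit 1196) (nat_lit 88) (.e (nat_lit 65624) (nat_lit 12) (.e (nat_lit 385094) (nat_lit 49) (.e (nat_lit 778326) (nat_lit 6) (.e (nat_lit 81948) (nat_lit 21) (.e (nat_lit 57871) (nat_lit 264) .nil)))))) (.g (nat_lit 6) .nil .nil)))) (.nd (nat_lit 5) 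
(.lf (nat_lit 26771) (.g (nat_lit 1640) (.e (nat_lit 1196) (nat_lit 88) (.e (nat_lit 65623) (nat_lit 12) (.e (nat_lit 385106) (nat_lit 50) (.e (nat_lit 786483) (nat_lit 30) (.e (nat_lit 360451) (nat_lit 0) .nil))))) .nil)) 
(.lf (nat_lit 26803) (.g (nat_lit 2391) (.e (nat_lit 1196) (nat_lit 88) (.e (nat_lit 65624) (nat_lit 12) (.e (nat_lit 385094) (nat_lit 49) (.e (nat_lit 778327) (nat_lit 6) (.e (nat_lit 81959) (nat_lit 24) (.e (nat_lit 123190) (nat_lit 264) .nil)))))) (.g (nat_lit 6) .nil .nil))))) (.nd (nat_lit 4) (.nd (nat_lit 5) 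
(.lf (nat_lit 26763) (.g (nat_lit 2139) (.e (nat_lit 1196) (nat_lit 88) (.e (nat_lit 65619) (nat_lit 10) (.e (nat_lit 344117) (nat_lit 21) (.e (nat_lit 516195) (nat_lit 26) (.e (nat_lit 335995) (nat_lit 1) .nil))))) .nil)) 
(.lf (nat_lit 26795) (.g (nat_lit 2348) (.e (nat_lit 1196) (nat_lit 88) (.e (nat_lit 65624) (nat_lit 12) (.e (nat_lit 385094) (nat_lit 49) (.e (nat_lit 778326) (nat_lit 6) (.e (nat_lit 81950) (nat_lit 21) (.e (nat_lit 57875) (nat_lit 264) .nil)))))) (.g (nat_lit 5) .nil .nil)))) (.nd (nat_lit 5) 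
(.lf (nat_lit 26779) (.g (nat_lit 1271) (.e (nat_lit 1196) (nat_lit 88) (.e (nat_lit 65624) (nat_lit 12) (.e (nat_lit 385093) (nat_lit 49) (.e (nat_lit 778326) (nat_lit 6) .nil)))) .nil)) 
(.lf (nat_lit 26811) (.g (nat_lit 2060) (.e (nat_lit 1196) (nat_lit 88) (.e (nat_lit 65624) (nat_lit 12) (.e (nat_lit 385105) (nat_lit 50) (.e (nat_lit 786481) (nat_lit 30) (.e (nat_lit 360449) (nat_lit 0) (.e (nat_lit 5876) (nat_lit 320) .nil)))))) (.g (nat_lit 4) .nil .nil)))))) (.nd (nat_lit 3) (.nd (nat_lit 4) (.nd (nat_lit 5) 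
(.lf (nat_lit 26759) (.g (nat_lit 3404) (.e (nat_lit 1196) (nat_lit 88) (.e (nat_lit 65619) (nat_lit 10) (.e (nat_lit 344117) (nat_lit 21) (.e (nat_lit 516195) (nat_lit 26) (.e (nat_lit 335986) (nat_lit 1) (.e (nat_lit 57847) (nat_lit 252) (.e (nat_lit 57365) (nat_lit 1) (.e (nat_lit 57754) (nat_lit 209) .nil)))))))) (.g (nat_lit 6) .nil .nil))) 
(.lf (nat_lit 26791) (.g (nat_lit 1822) (.e (nat_lit 1196) (nat_lit 88) (.e (nat_lit 65624) (nat_lit 12) (.e (nat_lit 385094) (nat_lit 49) (.e (nat_lit 778326) (nat_lit 6) (.e (nat_lit 81950) (nat_lit 21) (.e (nat_lit 57870) (nat_lit 264) .nil)))))) (.g (nat_lit 5) .nil .nil)))) (.nd (nat_lit 5) 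
(.lf (nat_lit 26775) (.g (nat_lit 2247) (.e (nat_lit 1196) (nat_lit 88) (.e (nat_lit 65624) (nat_lit 12) (.e (nat_lit 385074) (nat_lit 31) (.e (nat_lit 573493) (nat_lit 15) .nil)))) .nil)) 
(.lf (nat_lit 26807) (.g (nat_lit 2058) (.e (nat_lit 1196) (nat_lit 88) (.e (nat_lit 65624) (nat_lit 12) (.e (nat_lit 385105) (nat_lit 50) (.e (nat_lit 786480) (nat_lit 29) (.e (nat_lit 352309) (nat_lit 21) .nil))))) .nil)))) (.nd (nat_lit 4) (.nd (nat_lit 5) 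
(.lf (nat_lit 26767) (.g (nat_lit 2478) (.e (nat_lit 1196) (nat_lit 88) (.e (nat_lit 65619) (nat_lit 10) (.e (nat_lit 344117) (nat_lit 21) (.e (nat_lit 516195) (nat_lit 26) (.e (nat_lit 335996) (nat_lit 1) (.e (nat_lit 57854) (nat_lit 252) (.e (nat_lit 57363) (nat_lit 1) (.e (nat_lit 57754) (nat_lit 209) .nil)))))))) (.g (nat_lit 4) .nil .nil))) 
(.lf (nat_lit 26799) (.g (nat_lit 1476) (.e (nat_lit 1196) (nat_lit 88) (.e (nat_lit 65624) (nat_lit 12) (.e (nat_lit 385094) (nat_lit 49) (.e (nat_lit 778327) (nat_lit 6) (.e (nat_lit 81949) (nat_lit 21) (.e (nat_lit 57875) (nat_lit 264) .nil)))))) (.g (nat_lit 4) .nil .nil)))) (.nd (nat_lit 5) 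
(.lf (nat_lit 26783) (.g (nat_lit 1403) (.e (nat_lit 1196) (nat_lit 88) (.e (nat_lit 65624) (nat_lit 12) (.e (nat_lit 385094) (nat_lit 49) (.e (nat_lit 778326) (nat_lit 6) (.e (nat_lit 81938) (nat_lit 20) (.e (nat_lit 991) (nat_lit 81) (.e (nat_lit 5857) (nat_lit 320) .nil))))))) (.g (nat_lit 4) .nil .nil))) 
(.lf (nat_lit 26815) (.g (nat_lit 2250) (.e (nat_lit 1196) (nat_lit 88) (.e (nat_lit 65624) (nat_lit 12) (.e (nat_lit 385105) (nat_lit 50) (.e (nat_lit 786481) (nat_lit 30) (.e (nat_lit 360453) (nat_lit 0) (.e (nat_lit 5907) (nat_lit 320) .nil)))))) (.g (nat_lit 5) .nil .nil)))))))))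

noncomputable def tv373 : DT := (.nd (nat_lit 0) (.nd (nat_lit 1) (.nd (nat_lit 2) (.nd (nat_lit 3) (.nd (nat_lit 4) (.nd (nat_lit 5) 
(.lf (nat_lit 26816) (.g (nat_lit 2036) (.e (nat_lit 1196) (nat_lit 88) (.e (nat_lit 65624) (nat_lit 12) (.e (nat_lit 385105) (nat_lit 50) (.e (nat_lit 786481) (nat_lit 30) (.e (nat_lit 368384) (nat_lit 0) (.e (nat_lit 5902) (nat_lit 320) .nil)))))) (.g (nat_lit 4) .nil .nil))) 
(.lf (nat_lit 26848) (.g (nat_lit 2318) (.e (nat_lit 1196) (nat_lit 88) (.e (nat_lit 65624) (nat_lit 12) (.e (nat_lit 385106) (nat_lit 50) (.e (nat_lit 786483) (nat_lit 30) (.e (nat_lit 360452) (nat_lit 0) (.e (nat_lit 5907) (nat_lit 320) .nil)))))) (.g (nat_lit 4) .nil .nil)))) (.nd (nat_lit 5) 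
(.lf (nat_lit 26832) (.g (nat_lit 1052) (.e (nat_lit 1196) (nat_lit 88) (.e (nat_lit 65624) (nat_lit 12) (.e (nat_lit 385106) (nat_lit 50) (.e (nat_lit 786481) (nat_lit 30) .nil)))) .nil)) 
(.lf (nat_lit 26864) (.g (nat_lit 2233) (.e (nat_lit 1196) (nat_lit 88) (.e (nat_lit 65627) (nat_lit 13) (.e (nat_lit 393260) (nat_lit 21) (.e (nat_lit 409649) (nat_lit 18) (.e (nat_lit 303115) (nat_lit 1) (.e (nat_lit 164162) (nat_lit 152) .nil)))))) (.g (nat_lit 4) .nil .nil))))) (.nd (nat_lit 4) (.nd (nat_lit 5) 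
(.lf (nat_lit 26824) (.g (nat_lit 3247) (.e (nat_lit 1196) (nat_lit 88) (.e (nat_lit 65624) (nat_lit 12) (.e (nat_lit 385105) (nat_lit 50) (.e (nat_lit 786483) (nat_lit 30) (.e (nat_lit 360451) (nat_lit 0) (.e (nat_lit 5920) (nat_lit 320) .nil)))))) (.g (nat_lit 5) .nil .nil))) 
(.lf (nat_lit 26856) (.g (nat_lit 2309) (.e (nat_lit 1196) (nat_lit 88) (.e (nat_lit 65626) (nat_lit 13) (.e (nat_lit 393260) (nat_lit 21) (.e (nat_lit 409649) (nat_lit 18) (.e (nat_lit 303115) (nat_lit 1) (.e (nat_lit 164162) (nat_lit 152) .nil)))))) (.g (nat_lit 4) .nil .nil)))) (.nd (nat_lit 5) 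
(.lf (nat_lit 26840) (.g (nat_lit 1941) (.e (nat_lit 1196) (nat_lit 88) (.e (nat_lit 65624) (nat_lit 12) (.e (nat_lit 385106) (nat_lit 50) (.e (nat_lit 786481) (nat_lit 30) (.e (nat_lit 368384) (nat_lit 0) (.e (nat_lit 5902) (nat_lit 320) .nil)))))) (.g (nat_lit 4) .nil .nil))) 
(.lf (nat_lit 26872) (.g (nat_lit 2015) (.e (nat_lit 1196) (nat_lit 88) (.e (nat_lit 65627) (nat_lit 13) (.e (nat_lit 393300) (nat_lit 27) (.e (nat_lit 491560) (nat_lit 10) (.e (nat_lit 344089) (nat_lit 18) (.e (nat_lit 7233) (nat_lit 382) .nil)))))) (.g (nat_lit 4) .nil .nil)))))) (.nd (nat_lit 3) (.nd (nat_lit 4) (.nd (nat_lit 5) 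
(.lf (nat_lit 26820) (.g (nat_lit 3762) (.e (nat_lit 1196) (nat_lit 88) (.e (nat_lit 65624) (nat_lit 12) (.e (nat_lit 385105) (nat_lit 50) (.e (nat_lit 786483) (nat_lit 30) (.e (nat_lit 360450) (nat_lit 0) (.e (nat_lit 5898) (nat_lit 320) .nil)))))) (.g (nat_lit 6) .nil .nil))) 
(.lf (nat_lit 26852) (.g (nat_lit 1040) (.e (nat_lit 1196) (nat_lit 88) (.e (nat_lit 65625) (nat_lit 13) (.e (nat_lit 393301) (nat_lit 27) (.e (nat_lit 491560) (nat_lit 10) .nil)))) .nil))) (.nd (nat_lit 5) 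
(.lf (nat_lit 26836) (.g (nat_lit 2211) (.e (nat_lit 1196) (nat_lit 88) (.e (nat_lit 65624) (nat_lit 12) (.e (nat_lit 385106) (nat_lit 50) (.e (nat_lit 786481) (nat_lit 30) (.e (nat_lit 360449) (nat_lit 0) (.e (nat_lit 5882) (nat_lit 320) .nil)))))) (.g (nat_lit 4) .nil .nil))) 
(.lf (nat_lit 26868) (.g (nat_lit 2585) (.e (nat_lit 1196) (nat_lit 88) (.e (nat_lit 65627) (nat_lit 13) (.e (nat_lit 393298) (nat_lit 27) (.e (nat_lit 491566) (nat_lit 12) (.e (nat_lit 385045) (nat_lit 21) (.e (nat_lit 4447) (nat_lit 263) .nil)))))) (.g (nat_lit 4) .nil .nil))))) (.nd (nat_lit 4) (.nd (nat_lit 5) 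
(.lf (nat_lit 26828) (.g (nat_lit 1993) (.e (nat_lit 1196) (nat_lit 88) (.e (nat_lit 65624) (nat_lit 12) (.e (nat_lit 385105) (nat_lit 50) (.e (nat_lit 786483) (nat_lit 30) (.e (nat_lit 368384) (nat_lit 0) .nil))))) .nil)) 
(.lf (nat_lit 26860) (.g (nat_lit 1891) (.e (nat_lit 1196) (nat_lit 88) (.e (nat_lit 65627) (nat_lit 13) (.e (nat_lit 393260) (nat_lit 21) (.e (nat_lit 409644) (nat_lit 18) (.e (nat_lit 303115) (nat_lit 1) .nil))))) .nil))) (.nd (nat_lit 5) 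
(.lf (nat_lit 26844) (.g (nat_lit 2879) (.e (nat_lit 1196) (nat_lit 88) (.e (nat_lit 65624) (nat_lit 12) (.e (nat_lit 385106) (nat_lit 50) (.e (nat_lit 786483) (nat_lit 30) (.e (nat_lit 360451) (nat_lit 0) (.e (nat_lit 5872) (nat_lit 320) .nil)))))) (.g (nat_lit 5) .nil .nil))) 
(.lf (nat_lit 26876) (.g (nat_lit 1735) (.e (nat_lit 1196) (nat_lit 88) (.e (nat_lit 65627) (nat_lit 13) (.e (nat_lit 393301) (nat_lit 27) (.e (nat_lit 491558) (nat_lit 10) (.e (nat_lit 344090) (nat_lit 18) (.e (nat_lit 7236) (nat_lit 382) .nil)))))) (.g (nat_lit 4) .nil .nil))))))) (.nd (nat_lit 2) (.nd (nat_lit 3) (.nd (nat_lit 4) (.nd (nat_lit 5) 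
(.lf (nat_lit 26818) (.g (nat_lit 2559) (.e (nat_lit 1196) (nat_lit 88) (.e (nat_lit 65624) (nat_lit 12) (.e (nat_lit 385105) (nat_lit 50) (.e (nat_lit 786483) (nat_lit 30) (.e (nat_lit 360448) (nat_lit 0) (.e (nat_lit 5859) (nat_lit 320) .nil)))))) (.g (nat_lit 4) .nil .nil))) 
(.lf (nat_lit 26850) (.g (nat_lit 1980) (.e (nat_lit 1196) (nat_lit 88) (.e (nat_lit 65624) (nat_lit 12) (.e (nat_lit 385106) (nat_lit 50) (.e (nat_lit 786483) (nat_lit 30) (.e (nat_lit 368384) (nat_lit 0) .nil))))) .nil))) (.nd (nat_lit 5) 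
(.lf (nat_lit 26834) (.g (nat_lit 2666) (.e (nat_lit 1196) (nat_lit 88) (.e (nat_lit 65624) (nat_lit 12) (.e (nat_lit 385106) (nat_lit 50) (.e (nat_lit 786481) (nat_lit 30) (.e (nat_lit 360449) (nat_lit 0) (.e (nat_lit 5873) (nat_lit 320) .nil)))))) (.g (nat_lit 5) .nil .nil))) 
(.lf (nat_lit 26866) (.g (nat_lit 3023) (.e (nat_lit 1196) (nat_lit 88) (.e (nat_lit 65627) (nat_lit 13) (.e (nat_lit 393298) (nat_lit 27) (.e (nat_lit 491566) (nat_lit 12) (.e (nat_lit 385043) (nat_lit 21) (.e (nat_lit 4450) (nat_lit 263) .nil)))))) (.g (nat_lit 5) .nil .nil))))) (.nd (nat_lit 4) (.nd (nat_lit 5) 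
(.lf (nat_lit 26826) (.g (nat_lit 2389) (.e (nat_lit 1196) (nat_lit 88) (.e (nat_lit 65624) (nat_lit 12) (.e (nat_lit 385105) (nat_lit 50) (.e (nat_lit 786483) (nat_lit 30) (.e (nat_lit 360453) (nat_lit 0) .nil))))) .nil)) 
(.lf (nat_lit 26858) (.g (nat_lit 3067) (.e (nat_lit 1196) (nat_lit 88) (.e (nat_lit 65626) (nat_lit 13) (.e (nat_lit 393301) (nat_lit 27) (.e (nat_lit 491560) (nat_lit 10) (.e (nat_lit 344089) (nat_lit 18) .nil))))) .nil))) (.nd (nat_lit 5) 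
(.lf (nat_lit 26842) (.g (nat_lit 2547) (.e (nat_lit 1196) (nat_lit 88) (.e (nat_lit 65624) (nat_lit 12) (.e (nat_lit 385106) (nat_lit 50) (.e (nat_lit 786483) (nat_lit 30) (.e (nat_lit 360448) (nat_lit 0) (.e (nat_lit 5859) (nat_lit 320) .nil)))))) (.g (nat_lit 4) .nil .nil))) 
(.lf (nat_lit 26874) (.g (nat_lit 2263) (.e (nat_lit 1196) (nat_lit 88) (.e (nat_lit 65627) (nat_lit 13) (.e (nat_lit 393301) (nat_lit 27) (.e (nat_lit 491558) (nat_lit 10) (.e (nat_lit 344088) (nat_lit 18) .nil))))) .nil))))) (.nd (nat_lit 3) (.nd (nat_lit 4) (.nd (nat_lit 5) 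
(.lf (nat_lit 26822) (.g (nat_lit 3782) (.e (nat_lit 1196) (nat_lit 88) (.e (nat_lit 65624) (nat_lit 12) (.e (nat_lit 385105) (nat_lit 50) (.e (nat_lit 786483) (nat_lit 30) (.e (nat_lit 360451) (nat_lit 0) (.e (nat_lit 5896) (nat_lit 320) .nil)))))) (.g (nat_lit 0) .nil .nil))) 
(.lf (nat_lit 26854) (.g (nat_lit 2011) (.e (nat_lit 1196) (nat_lit 88) (.e (nat_lit 65626) (nat_lit 13) (.e (nat_lit 393260) (nat_lit 21) (.e (nat_lit 409643) (nat_lit 18) (.e (nat_lit 303115) (nat_lit 1) .nil))))) .nil))) (.nd (nat_lit 5) 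
(.lf (nat_lit 26838) (.g (nat_lit 3060) (.e (nat_lit 1196) (nat_lit 88) (.e (nat_lit 65624) (nat_lit 12) (.e (nat_lit 385106) (nat_lit 50) (.e (nat_lit 786481) (nat_lit 30) (.e (nat_lit 360449) (nat_lit 0) (.e (nat_lit 5920) (nat_lit 320) .nil)))))) (.g (nat_lit 0) .nil .nil))) 
(.lf (nat_lit 26870) (.g (nat_lit 1254) (.e (nat_lit 1196) (nat_lit 88) (.e (nat_lit 65627) (nat_lit 13) (.e (nat_lit 393299) (nat_lit 27) (.e (nat_lit 491558) (nat_lit 10) .nil)))) .nil)))) (.nd (nat_lit 4) (.nd (nat_lit 5) 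
(.lf (nat_lit 26830) (.g (nat_lit 1443) (.e (nat_lit 1196) (nat_lit 88) (.e (nat_lit 65624) (nat_lit 12) (.e (nat_lit 385106) (nat_lit 50) (.e (nat_lit 786479) (nat_lit 29) .nil)))) .nil)) 
(.lf (nat_lit 26862) (.g (nat_lit 2657) (.e (nat_lit 1196) (nat_lit 88) (.e (nat_lit 65627) (nat_lit 13) (.e (nat_lit 393260) (nat_lit 21) (.e (nat_lit 409646) (nat_lit 18) (.e (nat_lit 303115) (nat_lit 1) (.e (nat_lit 164162) (nat_lit 152) .nil)))))) (.g (nat_lit 5) .nil .nil)))) (.nd (nat_lit 5) 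
(.lf (nat_lit 26846) (.g (nat_lit 3919) (.e (nat_lit 1196) (nat_lit 88) (.e (nat_lit 65624) (nat_lit 12) (.e (nat_lit 385106) (nat_lit 50) (.e (nat_lit 786483) (nat_lit 30) (.e (nat_lit 360451) (nat_lit 0) (.e (nat_lit 5898) (nat_lit 320) .nil)))))) (.g (nat_lit 6) .nil .nil))) 
(.lf (nat_lit 26878) (.g (nat_lit 2190) (.e (nat_lit 1196) (nat_lit 88) (.e (nat_lit 65627) (nat_lit 13) (.e (nat_lit 393301) (nat_lit 27) (.e (nat_lit 491558) (nat_lit 10) (.e (nat_lit 344091) (nat_lit 18) (.e (nat_lit 7236) (nat_lit 382) .nil)))))) (.g (nat_lit 4) .nil .nil)))))))) (.nd (nat_lit 1) (.nd (nat_lit 2) (.nd (nat_lit 3) (.nd (nat_lit 4) (.nd (nat_lit 5) 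
(.lf (nat_lit 26817) (.g (nat_lit 2250) (.e (nat_lit 1196) (nat_lit 88) (.e (nat_lit 65624) (nat_lit 12) (.e (nat_lit 385105) (nat_lit 50) (.e (nat_lit 786483) (nat_lit 30) (.e (nat_lit 360448) (nat_lit 0) .nil))))) .nil)) 
(.lf (nat_lit 26849) (.g (nat_lit 2251) (.e (nat_lit 1196) (nat_lit 88) (.e (nat_lit 65624) (nat_lit 12) (.e (nat_lit 385106) (nat_lit 50) (.e (nat_lit 786483) (nat_lit 30) (.e (nat_lit 360454) (nat_lit 0) .nil))))) .nil))) (.nd (nat_lit 5) 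
(.lf (nat_lit 26833) (.g (nat_lit 1999) (.e (nat_lit 1196) (nat_lit 88) (.e (nat_lit 65624) (nat_lit 12) (.e (nat_lit 385106) (nat_lit 50) (.e (nat_lit 786481) (nat_lit 30) (.e (nat_lit 360449) (nat_lit 0) .nil))))) .nil)) 
(.lf (nat_lit 26865) (.g (nat_lit 2485) (.e (nat_lit 1196) (nat_lit 88) (.e (nat_lit 65627) (nat_lit 13) (.e (nat_lit 393298) (nat_lit 27) (.e (nat_lit 491566) (nat_lit 12) (.e (nat_lit 385043) (nat_lit 21) .nil))))) .nil)))) (.nd (nat_lit 4) (.nd (nat_lit 5) 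
(.lf (nat_lit 26825) (.g (nat_lit 2485) (.e (nat_lit 1196) (nat_lit 88) (.e (nat_lit 65624) (nat_lit 12) (.e (nat_lit 385105) (nat_lit 50) (.e (nat_lit 786483) (nat_lit 30) (.e (nat_lit 360452) (nat_lit 0) (.e (nat_lit 5907) (nat_lit 320) .nil)))))) (.g (nat_lit 4) .nil .nil))) 
(.lf (nat_lit 26857) (.g (nat_lit 2127) (.e (nat_lit 1196) (nat_lit 88) (.e (nat_lit 65626) (nat_lit 13) (.e (nat_lit 393300) (nat_lit 27) (.e (nat_lit 491560) (nat_lit 10) (.e (nat_lit 344089) (nat_lit 18) .nil))))) .nil))) (.nd (nat_lit 5) 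
(.lf (nat_lit 26841) (.g (nat_lit 2360) (.e (nat_lit 1196) (nat_lit 88) (.e (nat_lit 65624) (nat_lit 12) (.e (nat_lit 385106) (nat_lit 50) (.e (nat_lit 786483) (nat_lit 30) (.e (nat_lit 360448) (nat_lit 0) .nil))))) .nil)) 
(.lf (nat_lit 26873) (.g (nat_lit 1595) (.e (nat_lit 1196) (nat_lit 88) (.e (nat_lit 65627) (nat_lit 13) (.e (nat_lit 393300) (nat_lit 27) (.e (nat_lit 491560) (nat_lit 10) (.e (nat_lit 344091) (nat_lit 18) .nil))))) .nil))))) (.nd (nat_lit 3) (.nd (nat_lit 4) (.nd (nat_lit 5) 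
(.lf (nat_lit 26821) (.g (nat_lit 1988) (.e (nat_lit 1196) (nat_lit 88) (.e (nat_lit 65624) (nat_lit 12) (.e (nat_lit 385105) (nat_lit 50) (.e (nat_lit 786483) (nat_lit 30) (.e (nat_lit 360451) (nat_lit 0) .nil))))) .nil)) 
(.lf (nat_lit 26853) (.g (nat_lit 3199) (.e (nat_lit 1196) (nat_lit 88) (.e (nat_lit 65625) (nat_lit 13) (.e (nat_lit 393301) (nat_lit 27) (.e (nat_lit 491560) (nat_lit 10) (.e (nat_lit 344089) (nat_lit 18) .nil))))) .nil))) (.nd (nat_lit 5) 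
(.lf (nat_lit 26837) (.g (nat_lit 3735) (.e (nat_lit 1196) (nat_lit 88) (.e (nat_lit 65624) (nat_lit 12) (.e (nat_lit 385106) (nat_lit 50) (.e (nat_lit 786481) (nat_lit 30) (.e (nat_lit 360449) (nat_lit 0) (.e (nat_lit 5896) (nat_lit 320) .nil)))))) (.g (nat_lit 0) .nil .nil))) 
(.lf (nat_lit 26869) (.g (nat_lit 2746) (.e (nat_lit 1196) (nat_lit 88) (.e (nat_lit 65627) (nat_lit 13) (.e (nat_lit 393298) (nat_lit 27) (.e (nat_lit 491566) (nat_lit 12) (.e (nat_lit 385045) (nat_lit 21) (.e (nat_lit 4450) (nat_lit 263) .nil)))))) (.g (nat_lit 4) .nil .nil))))) (.nd (nat_lit 4) (.nd (nat_lit 5) 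
(.lf (nat_lit 26829) (.g (nat_lit 2138) (.e (nat_lit 1196) (nat_lit 88) (.e (nat_lit 65624) (nat_lit 12) (.e (nat_lit 385105) (nat_lit 50) (.e (nat_lit 786483) (nat_lit 30) (.e (nat_lit 368384) (nat_lit 0) (.e (nat_lit 5902) (nat_lit 320) .nil)))))) (.g (nat_lit 4) .nil .nil))) 
(.lf (nat_lit 26861) (.g (nat_lit 3034) (.e (nat_lit 1196) (nat_lit 88) (.e (nat_lit 65627) (nat_lit 13) (.e (nat_lit 393260) (nat_lit 21) (.e (nat_lit 409645) (nat_lit 18) (.e (nat_lit 303115) (nat_lit 1) (.e (nat_lit 164162) (nat_lit 152) .nil)))))) (.g (nat_lit 5) .nil .nil)))) (.nd (nat_lit 5) 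
(.lf (nat_lit 26845) (.g (nat_lit 2198) (.e (nat_lit 1196) (nat_lit 88) (.e (nat_lit 65624) (nat_lit 12) (.e (nat_lit 385106) (nat_lit 50) (.e (nat_lit 786483) (nat_lit 30) (.e (nat_lit 360451) (nat_lit 0) (.e (nat_lit 5876) (nat_lit 320) .nil)))))) (.g (nat_lit 4) .nil .nil))) 
(.lf (nat_lit 26877) (.g (nat_lit 2119) (.e (nat_lit 1196) (nat_lit 88) (.e (nat_lit 65627) (nat_lit 13) (.e (nat_lit 393301) (nat_lit 27) (.e (nat_lit 491558) (nat_lit 10) (.e (nat_lit 344091) (nat_lit 18) (.e (nat_lit 7226) (nat_lit 382) .nil)))))) (.g (nat_lit 4) .nil .nil))))))) (.nd (nat_lit 2) (.nd (nat_lit 3) (.nd (nat_lit 4) (.nd (nat_lit 5) 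
(.lf (nat_lit 26819) (.g (nat_lit 1990) (.e (nat_lit 1196) (nat_lit 88) (.e (nat_lit 65624) (nat_lit 12) (.e (nat_lit 385105) (nat_lit 50) (.e (nat_lit 786483) (nat_lit 30) (.e (nat_lit 360450) (nat_lit 0) .nil))))) .nil)) 
(.lf (nat_lit 26851) (.g (nat_lit 2240) (.e (nat_lit 1196) (nat_lit 88) (.e (nat_lit 65624) (nat_lit 12) (.e (nat_lit 385106) (nat_lit 50) (.e (nat_lit 786483) (nat_lit 30) (.e (nat_lit 368384) (nat_lit 0) (.e (nat_lit 5902) (nat_lit 320) .nil)))))) (.g (nat_lit 4) .nil .nil)))) (.nd (nat_lit 5) 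
(.lf (nat_lit 26835) (.g (nat_lit 2328) (.e (nat_lit 1196) (nat_lit 88) (.e (nat_lit 65624) (nat_lit 12) (.e (nat_lit 385106) (nat_lit 50) (.e (nat_lit 786481) (nat_lit 30) (.e (nat_lit 360449) (nat_lit 0) (.e (nat_lit 5876) (nat_lit 320) .nil)))))) (.g (nat_lit 4) .nil .nil))) 
(.lf (nat_lit 26867) (.g (nat_lit 2404) (.e (nat_lit 1196) (nat_lit 88) (.e (nat_lit 65627) (nat_lit 13) (.e (nat_lit 393298) (nat_lit 27) (.e (nat_lit 491566) (nat_lit 12) (.e (nat_lit 385045) (nat_lit 21) .nil))))) .nil)))) (.nd (nat_lit 4) (.nd (nat_lit 5) 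
(.lf (nat_lit 26827) (.g (nat_lit 2165) (.e (nat_lit 1196) (nat_lit 88) (.e (nat_lit 65624) (nat_lit 12) (.e (nat_lit 385105) (nat_lit 50) (.e (nat_lit 786483) (nat_lit 30) (.e (nat_lit 360454) (nat_lit 0) .nil))))) .nil)) 
(.lf (nat_lit 26859) (.g (nat_lit 2018) (.e (nat_lit 1196) (nat_lit 88) (.e (nat_lit 65627) (nat_lit 13) (.e (nat_lit 393260) (nat_lit 21) (.e (nat_lit 409643) (nat_lit 18) (.e (nat_lit 303115) (nat_lit 1) (.e (nat_lit 164162) (nat_lit 152) .nil)))))) (.g (nat_lit 4) .nil .nil)))) (.nd (nat_lit 5) 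
(.lf (nat_lit 26843) (.g (nat_lit 2152) (.e (nat_lit 1196) (nat_lit 88) (.e (nat_lit 65624) (nat_lit 12) (.e (nat_lit 385106) (nat_lit 50) (.e (nat_lit 786483) (nat_lit 30) (.e (nat_lit 360450) (nat_lit 0) .nil))))) .nil)) 
(.lf (nat_lit 26875) (.g (nat_lit 2257) (.e (nat_lit 1196) (nat_lit 88) (.e (nat_lit 65627) (nat_lit 13) (.e (nat_lit 393301) (nat_lit 27) (.e (nat_lit 491558) (nat_lit 10) (.e (nat_lit 344089) (nat_lit 18) .nil))))) .nil))))) (.nd (nat_lit 3) (.nd (nat_lit 4) (.nd (nat_lit 5) 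
(.lf (nat_lit 26823) (.g (nat_lit 3759) (.e (nat_lit 1196) (nat_lit 88) (.e (nat_lit 65624) (nat_lit 12) (.e (nat_lit 385105) (nat_lit 50) (.e (nat_lit 786483) (nat_lit 30) (.e (nat_lit 360451) (nat_lit 0) (.e (nat_lit 5898) (nat_lit 320) .nil)))))) (.g (nat_lit 6) .nil .nil))) 
(.lf (nat_lit 26855) (.g (nat_lit 2303) (.e (nat_lit 1196) (nat_lit 88) (.e (nat_lit 65626) (nat_lit 13) (.e (nat_lit 393260) (nat_lit 21) (.e (nat_lit 409648) (nat_lit 18) (.e (nat_lit 303115) (nat_lit 1) .nil))))) .nil))) (.nd (nat_lit 5) 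
(.lf (nat_lit 26839) (.g (nat_lit 1875) (.e (nat_lit 1196) (nat_lit 88) (.e (nat_lit 65624) (nat_lit 12) (.e (nat_lit 385106) (nat_lit 50) (.e (nat_lit 786481) (nat_lit 30) (.e (nat_lit 360452) (nat_lit 0) (.e (nat_lit 5905) (nat_lit 320) .nil)))))) (.g (nat_lit 4) .nil .nil))) 
(.lf (nat_lit 26871) (.g (nat_lit 1610) (.e (nat_lit 1196) (nat_lit 88) (.e (nat_lit 65627) (nat_lit 13) (.e (nat_lit 393300) (nat_lit 27) (.e (nat_lit 491558) (nat_lit 10) (.e (nat_lit 344091) (nat_lit 18) .nil))))) .nil)))) (.nd (nat_lit 4) (.nd (nat_lit 5) 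
(.lf (nat_lit 26831) (.g (nat_lit 1919) (.e (nat_lit 1196) (nat_lit 88) (.e (nat_lit 65624) (nat_lit 12) (.e (nat_lit 385106) (nat_lit 50) (.e (nat_lit 786480) (nat_lit 29) (.e (nat_lit 352309) (nat_lit 21) .nil))))) .nil)) 
(.lf (nat_lit 26863) (.g (nat_lit 2027) (.e (nat_lit 1196) (nat_lit 88) (.e (nat_lit 65627) (nat_lit 13) (.e (nat_lit 393260) (nat_lit 21) (.e (nat_lit 409648) (nat_lit 18) (.e (nat_lit 303115) (nat_lit 1) .nil))))) .nil))) (.nd (nat_lit 5) 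
(.lf (nat_lit 26847) (.g (nat_lit 3450) (.e (nat_lit 1196) (nat_lit 88) (.e (nat_lit 65624) (nat_lit 12) (.e (nat_lit 385106) (nat_lit 50) (.e (nat_lit 786483) (nat_lit 30) (.e (nat_lit 360451) (nat_lit 0) (.e (nat_lit 5920) (nat_lit 320) .nil)))))) (.g (nat_lit 5) .nil .nil))) 
(.lf (nat_lit 26879) (.g (nat_lit 1845) (.e (nat_lit 1196) (nat_lit 88) (.e (nat_lit 65627) (nat_lit 13) (.e (nat_lit 393301) (nat_lit 27) (.e (nat_lit 491558) (nat_lit 10) (.e (nat_lit 344096) (nat_lit 18) .nil))))) .nil))))))))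

noncomputable def tv374 : DT := (.nd (nat_lit 0) (.nd (nat_lit 1) (.nd (nat_lit 2) (.nd (nat_lit 3) (.nd (nat_lit 4) (.nd (nat_lit 5) (.nd (nat_lit 6) 
(.lf (nat_lit 26880) (.g (nat_lit 3016) (.e (nat_lit 1196) (nat_lit 88) (.e (nat_lit 65627) (nat_lit 13) (.e (nat_lit 393301) (nat_lit 27) (.e (nat_lit 491560) (nat_lit 10) (.e (nat_lit 344088) (nat_lit 18) .nil))))) .nil)) 
(.lf (nat_lit 26944) (.g (nat_lit 2042) (.e (nat_lit 1196) (nat_lit 88) (.e (nat_lit 65628) (nat_lit 14) (.e (nat_lit 401459) (nat_lit 13) (.e (nat_lit 483399) (nat_lit 25) .nil)))) .nil))) (.nd (nat_lit 6) 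
(.lf (nat_lit 26912) (.g (nat_lit 1441) (.e (nat_lit 1196) (nat_lit 88) (.e (nat_lit 65628) (nat_lit 14) (.e (nat_lit 401459) (nat_lit 13) (.e (nat_lit 483344) (nat_lit 17) .nil)))) .nil)) 
(.lf (nat_lit 26976) (.g (nat_lit 3227) (.e (nat_lit 1196) (nat_lit 88) (.e (nat_lit 65630) (nat_lit 14) (.e (nat_lit 401428) (nat_lit 3) (.e (nat_lit 204868) (nat_lit 29) (.e (nat_lit 360452) (nat_lit 0) (.e (nat_lit 3946) (nat_lit 239) .nil)))))) (.g (nat_lit 6) .nil .nil))))) (.nd (nat_lit 5) (.nd (nat_lit 6) 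
(.lf (nat_lit 26896) (.g (nat_lit 2402) (.e (nat_lit 1196) (nat_lit 88) (.e (nat_lit 65628) (nat_lit 14) (.e (nat_lit 401437) (nat_lit 9) (.e (nat_lit 426546) (nat_lit 30) (.e (nat_lit 360452) (nat_lit 0) .nil))))) .nil)) 
(.lf (nat_lit 26960) (.g (nat_lit 2621) (.e (nat_lit 1196) (nat_lit 88) (.e (nat_lit 65629) (nat_lit 14) (.e (nat_lit 401459) (nat_lit 13) (.e (nat_lit 483344) (nat_lit 17) (.e (nat_lit 6714) (nat_lit 360) .nil))))) .nil))) (.nd (nat_lit 6) 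
(.lf (nat_lit 26928) (.g (nat_lit 2252) (.e (nat_lit 1196) (nat_lit 88) (.e (nat_lit 65628) (nat_lit 14) (.e (nat_lit 401459) (nat_lit 13) (.e (nat_lit 483374) (nat_lit 22) .nil)))) .nil)) 
(.lf (nat_lit 26992) (.g (nat_lit 723) (.e (nat_lit 1196) (nat_lit 88) (.e (nat_lit 65630) (nat_lit 14) (.e (nat_lit 401436) (nat_lit 9) .nil))) .nil))))) (.nd (nat_lit 4) (.nd (nat_lit 5) (.nd (nat_lit 6) 
(.lf (nat_lit 26888) (.g (nat_lit 1927) (.e (nat_lit 1196) (nat_lit 88) (.e (nat_lit 65628) (nat_lit 14) (.e (nat_lit 401428) (nat_lit 3) (.e (nat_lit 204868) (nat_lit 29) (.e (nat_lit 360452) (nat_lit 0) .nil))))) .nil)) 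
(.lf (nat_lit 26952) (.g (nat_lit 3286) (.e (nat_lit 1196) (nat_lit 88) (.e (nat_lit 65628) (nat_lit 14) (.e (nat_lit 401459) (nat_lit 13) (.e (nat_lit 483411) (nat_lit 27) (.e (nat_lit 401416) (nat_lit 0) .nil))))) .nil))) (.nd (nat_lit 6) 
(.lf (nat_lit 26920) (.g (nat_lit 2851) (.e (nat_lit 1196) (nat_lit 88) (.e (nat_lit 65628) (nat_lit 14) (.e (nat_lit 401459) (nat_lit 13) (.e (nat_lit 483344) (nat_lit 17) (.e (nat_lit 6714) (nat_lit 360) (.e (nat_lit 163850) (nat_lit 0) (.e (nat_lit 4607) (nat_lit 269) .nil))))))) (.g (nat_lit 5) .nil .nil))) 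
(.lf (nat_lit 26984) (.g (nat_lit 4861) (.e (nat_lit 1196) (nat_lit 88) (.e (nat_lit 65630) (nat_lit 14) (.e (nat_lit 401428) (nat_lit 3) (.e (nat_lit 204869) (nat_lit 29) (.e (nat_lit 360451) (nat_lit 0) (.e (nat_lit 3982) (nat_lit 239) .nil)))))) (.g (nat_lit 5) .nil .nil))))) (.nd (nat_lit 5) (.nd (nat_lit 6) 
(.lf (nat_lit 26904) (.g (nat_lit 714) (.e (nat_lit 1196) (nat_lit 88) (.e (nat_lit 65628) (nat_lit 14) (.e (nat_lit 401457) (nat_lit 13) .nil))) .nil)) 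
(.lf (nat_lit 26968) (.g (nat_lit 893) (.e (nat_lit 1196) (nat_lit 88) (.e (nat_lit 65630) (nat_lit 14) (.e (nat_lit 401427) (nat_lit 3) .nil))) .nil))) (.nd (nat_lit 6) 
(.lf (nat_lit 26936) (.g (nat_lit 1579) (.e (nat_lit 1196) (nat_lit 88) (.e (nat_lit 65628) (nat_lit 14) (.e (nat_lit 401459) (nat_lit 13) (.e (nat_lit 483394) (nat_lit 24) .nil)))) .nil)) 
(.lf (nat_lit 27000) (.g (nat_lit 1783) (.e (nat_lit 1196) (nat_lit 88) (.e (nat_lit 65630) (nat_lit 14) (.e (nat_lit 401437) (nat_lit 9) (.e (nat_lit 426546) (nat_lit 30) .nil)))) .nil)))))) (.nd (nat_lit 3) (.nd (nat_lit 4) (.nd (nat_lit 5) (.nd (nat_lit 6) 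
(.lf (nat_lit 26884) (.g (nat_lit 2384) (.e (nat_lit 1196) (nat_lit 88) (.e (nat_lit 65627) (nat_lit 13) (.e (nat_lit 393301) (nat_lit 27) (.e (nat_lit 491560) (nat_lit 10) (.e (nat_lit 344091) (nat_lit 18) .nil))))) .nil)) 
(.lf (nat_lit 26948) (.g (nat_lit 1448) (.e (nat_lit 1196) (nat_lit 88) (.e (nat_lit 65628) (nat_lit 14) (.e (nat_lit 401459) (nat_lit 13) (.e (nat_lit 483410) (nat_lit 27) .nil)))) .nil))) (.nd (nat_lit 6) 
(.lf (nat_lit 26916) (.g (nat_lit 3105) (.e (nat_lit 1196) (nat_lit 88) (.e (nat_lit 65628) (nat_lit 14) (.e (nat_lit 401459) (nat_lit 13) (.e (nat_lit 483344) (nat_lit 17) (.e (nat_lit 6712) (nat_lit 360) (.e (nat_lit 163843) (nat_lit 0) (.e (nat_lit 4598) (nat_lit 269) .nil))))))) (.g (nat_lit 5) .nil .nil))) 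
(.lf (nat_lit 26980) (.g (nat_lit 2697) (.e (nat_lit 1196) (nat_lit 88) (.e (nat_lit 65630) (nat_lit 14) (.e (nat_lit 401428) (nat_lit 3) (.e (nat_lit 204869) (nat_lit 29) (.e (nat_lit 360448) (nat_lit 0) (.e (nat_lit 3985) (nat_lit 239) .nil)))))) (.g (nat_lit 4) .nil .nil))))) (.nd (nat_lit 5) (.nd (nat_lit 6) 
(.lf (nat_lit 26900) (.g (nat_lit 1652) (.e (nat_lit 1196) (nat_lit 88) (.e (nat_lit 65628) (nat_lit 14) (.e (nat_lit 401438) (nat_lit 9) (.e (nat_lit 426555) (nat_lit 32) .nil)))) .nil)) 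
(.lf (nat_lit 26964) (.g (nat_lit 527) (.e (nat_lit 1196) (nat_lit 88) (.e (nat_lit 65630) (nat_lit 14) (.e (nat_lit 401425) (nat_lit 2) .nil))) .nil))) (.nd (nat_lit 6) 
(.lf (nat_lit 26932) (.g (nat_lit 3072) (.e (nat_lit 1196) (nat_lit 88) (.e (nat_lit 65628) (nat_lit 14) (.e (nat_lit 401459) (nat_lit 13) (.e (nat_lit 483380) (nat_lit 23) (.e (nat_lit 336310) (nat_lit 16) .nil))))) .nil)) 
(.lf (nat_lit 26996) (.g (nat_lit 594) (.e (nat_lit 1196) (nat_lit 88) (.e (nat_lit 65630) (nat_lit 14) (.e (nat_lit 401437) (nat_lit 9) .nil))) .nil))))) (.nd (nat_lit 4) (.nd (nat_lit 5) (.nd (nat_lit 6) 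
(.lf (nat_lit 26892) (.g (nat_lit 1795) (.e (nat_lit 1196) (nat_lit 88) (.e (nat_lit 65628) (nat_lit 14) (.e (nat_lit 401437) (nat_lit 9) (.e (nat_lit 426542) (nat_lit 29) .nil)))) .nil)) 
(.lf (nat_lit 26956) (.g (nat_lit 2976) (.e (nat_lit 1196) (nat_lit 88) (.e (nat_lit 65628) (nat_lit 14) (.e (nat_lit 401459) (nat_lit 13) (.e (nat_lit 483411) (nat_lit 27) (.e (nat_lit 401422) (nat_lit 1) .nil))))) .nil))) (.nd (nat_lit 6) 
(.lf (nat_lit 26924) (.g (nat_lit 5083) (.e (nat_lit 1196) (nat_lit 88) (.e (nat_lit 65628) (nat_lit 14) (.e (nat_lit 401459) (nat_lit 13) (.e (nat_lit 483372) (nat_lit 21) (.e (nat_lit 319504) (nat_lit 10) .nil))))) .nil)) 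
(.lf (nat_lit 26988) (.g (nat_lit 3777) (.e (nat_lit 1196) (nat_lit 88) (.e (nat_lit 65630) (nat_lit 14) (.e (nat_lit 401428) (nat_lit 3) (.e (nat_lit 204869) (nat_lit 29) (.e (nat_lit 360457) (nat_lit 0) (.e (nat_lit 3982) (nat_lit 239) .nil)))))) (.g (nat_lit 6) .nil .nil))))) (.nd (nat_lit 5) (.nd (nat_lit 6) 
(.lf (nat_lit 26908) (.g (nat_lit 2311) (.e (nat_lit 1196) (nat_lit 88) (.e (nat_lit 65628) (nat_lit 14) (.e (nat_lit 401458) (nat_lit 13) (.e (nat_lit 483395) (nat_lit 24) (.e (nat_lit 344090) (nat_lit 18) .nil))))) .nil)) 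
(.lf (nat_lit 26972) (.g (nat_lit 1210) (.e (nat_lit 1196) (nat_lit 88) (.e (nat_lit 65630) (nat_lit 14) (.e (nat_lit 401428) (nat_lit 3) (.e (nat_lit 204865) (nat_lit 28) .nil)))) .nil))) (.nd (nat_lit 6) 
(.lf (nat_lit 26940) (.g (nat_lit 2684) (.e (nat_lit 1196) (nat_lit 88) (.e (nat_lit 65628) (nat_lit 14) (.e (nat_lit 401459) (nat_lit 13) (.e (nat_lit 483395) (nat_lit 24) (.e (nat_lit 344090) (nat_lit 18) (.e (nat_lit 5896) (nat_lit 320) .nil)))))) (.g (nat_lit 4) .nil .nil))) 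
(.lf (nat_lit 27004) (.g (nat_lit 2118) (.e (nat_lit 1196) (nat_lit 88) (.e (nat_lit 65630) (nat_lit 14) (.e (nat_lit 401438) (nat_lit 9) (.e (nat_lit 426542) (nat_lit 29) (.e (nat_lit 352307) (nat_lit 21) .nil))))) .nil))))))) (.nd (nat_lit 2) (.nd (nat_lit 3) (.nd (nat_lit 4) (.nd (nat_lit 5) (.nd (nat_lit 6) 
(.lf (nat_lit 26882) (.g (nat_lit 3204) (.e (nat_lit 1196) (nat_lit 88) (.e (nat_lit 65627) (nat_lit 13) (.e (nat_lit 393301) (nat_lit 27) (.e (nat_lit 491560) (nat_lit 10) (.e (nat_lit 344089) (nat_lit 18) (.e (nat_lit 7233) (nat_lit 382) .nil)))))) (.g (nat_lit 5) .nil .nil))) 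
(.lf (nat_lit 26946) (.g (nat_lit 1957) (.e (nat_lit 1196) (nat_lit 88) (.e (nat_lit 65628) (nat_lit 14) (.e (nat_lit 401459) (nat_lit 13) (.e (nat_lit 483403) (nat_lit 26) .nil)))) .nil))) (.nd (nat_lit 6) 
(.lf (nat_lit 26914) (.g (nat_lit 2342) (.e (nat_lit 1196) (nat_lit 88) (.e (nat_lit 65628) (nat_lit 14) (.e (nat_lit 401459) (nat_lit 13) (.e (nat_lit 483344) (nat_lit 17) (.e (nat_lit 6696) (nat_lit 357) .nil))))) .nil)) 
(.lf (nat_lit 26978) (.g (nat_lit 2186) (.e (nat_lit 1196) (nat_lit 88) (.e (nat_lit 65630) (nat_lit 14) (.e (nat_lit 401428) (nat_lit 3) (.e (nat_lit 204869) (nat_lit 29) (.e (nat_lit 360448) (nat_lit 0) .nil))))) .nil)))) (.nd (nat_lit 5) (.nd (nat_lit 6) 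
(.lf (nat_lit 26898) (.g (nat_lit 1625) (.e (nat_lit 1196) (nat_lit 88) (.e (nat_lit 65628) (nat_lit 14) (.e (nat_lit 401438) (nat_lit 9) (.e (nat_lit 426542) (nat_lit 29) .nil)))) .nil)) 
(.lf (nat_lit 26962) (.g (nat_lit 1883) (.e (nat_lit 1196) (nat_lit 88) (.e (nat_lit 65629) (nat_lit 14) (.e (nat_lit 401459) (nat_lit 13) (.e (nat_lit 483403) (nat_lit 26) .nil)))) .nil))) (.nd (nat_lit 6) 
(.lf (nat_lit 26930) (.g (nat_lit 2145) (.e (nat_lit 1196) (nat_lit 88) (.e (nat_lit 65628) (nat_lit 14) (.e (nat_lit 401459) (nat_lit 13) (.e (nat_lit 483380) (nat_lit 23) .nil)))) .nil)) 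
(.lf (nat_lit 26994) (.g (nat_lit 1377) (.e (nat_lit 1196) (nat_lit 88) (.e (nat_lit 65630) (nat_lit 14) (.e (nat_lit 401436) (nat_lit 9) (.e (nat_lit 426546) (nat_lit 30) .nil)))) .nil))))) (.nd (nat_lit 4) (.nd (nat_lit 5) (.nd (nat_lit 6) 
(.lf (nat_lit 26890) (.g (nat_lit 2721) (.e (nat_lit 1196) (nat_lit 88) (.e (nat_lit 65628) (nat_lit 14) (.e (nat_lit 401428) (nat_lit 3) (.e (nat_lit 204869) (nat_lit 29) (.e (nat_lit 360457) (nat_lit 0) (.e (nat_lit 3982) (nat_lit 239) .nil)))))) (.g (nat_lit 4) .nil .nil))) 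
(.lf (nat_lit 26954) (.g (nat_lit 2722) (.e (nat_lit 1196) (nat_lit 88) (.e (nat_lit 65628) (nat_lit 14) (.e (nat_lit 401459) (nat_lit 13) (.e (nat_lit 483411) (nat_lit 27) (.e (nat_lit 401420) (nat_lit 1) .nil))))) .nil))) (.nd (nat_lit 6) 
(.lf (nat_lit 26922) (.g (nat_lit 3005) (.e (nat_lit 1196) (nat_lit 88) (.e (nat_lit 65628) (nat_lit 14) (.e (nat_lit 401459) (nat_lit 13) (.e (nat_lit 483350) (nat_lit 17) (.e (nat_lit 6113) (nat_lit 332) .nil))))) .nil)) 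
(.lf (nat_lit 26986) (.g (nat_lit 3645) (.e (nat_lit 1196) (nat_lit 88) (.e (nat_lit 65630) (nat_lit 14) (.e (nat_lit 401428) (nat_lit 3) (.e (nat_lit 204869) (nat_lit 29) (.e (nat_lit 360455) (nat_lit 0) (.e (nat_lit 3982) (nat_lit 239) .nil)))))) (.g (nat_lit 5) .nil .nil))))) (.nd (nat_lit 5) (.nd (nat_lit 6) 
(.lf (nat_lit 26906) (.g (nat_lit 1552) (.e (nat_lit 1196) (nat_lit 88) (.e (nat_lit 65628) (nat_lit 14) (.e (nat_lit 401458) (nat_lit 13) (.e (nat_lit 483383) (nat_lit 23) .nil)))) .nil)) 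
(.lf (nat_lit 26970) (.g (nat_lit 513) (.e (nat_lit 1196) (nat_lit 88) (.e (nat_lit 65630) (nat_lit 14) (.e (nat_lit 401428) (nat_lit 3) .nil))) .nil))) (.nd (nat_lit 6) 
(.lf (nat_lit 26938) (.g (nat_lit 2387) (.e (nat_lit 1196) (nat_lit 88) (.e (nat_lit 65628) (nat_lit 14) (.e (nat_lit 401459) (nat_lit 13) (.e (nat_lit 483394) (nat_lit 24) (.e (nat_lit 344097) (nat_lit 18) (.e (nat_lit 5907) (nat_lit 320) .nil)))))) (.g (nat_lit 4) .nil .nil))) 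
(.lf (nat_lit 27002) (.g (nat_lit 2601) (.e (nat_lit 1196) (nat_lit 88) (.e (nat_lit 65630) (nat_lit 14) (.e (nat_lit 401437) (nat_lit 9) (.e (nat_lit 426546) (nat_lit 30) (.e (nat_lit 360452) (nat_lit 0) (.e (nat_lit 5907) (nat_lit 320) .nil)))))) (.g (nat_lit 4) .nil .nil))))))) (.nd (nat_lit 3) (.nd (nat_lit 4) (.nd (nat_lit 5) (.nd (nat_lit 6) 
(.lf (nat_lit 26886) (.g (nat_lit 609) (.e (nat_lit 1196) (nat_lit 88) (.e (nat_lit 65628) (nat_lit 14) (.e (nat_lit 401428) (nat_lit 3) .nil))) .nil)) 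
(.lf (nat_lit 26950) (.g (nat_lit 2734) (.e (nat_lit 1196) (nat_lit 88) (.e (nat_lit 65628) (nat_lit 14) (.e (nat_lit 401459) (nat_lit 13) (.e (nat_lit 483411) (nat_lit 27) (.e (nat_lit 401414) (nat_lit 0) .nil))))) .nil))) (.nd (nat_lit 6) 
(.lf (nat_lit 26918) (.g (nat_lit 2277) (.e (nat_lit 1196) (nat_lit 88) (.e (nat_lit 65628) (nat_lit 14) (.e (nat_lit 401459) (nat_lit 13) (.e (nat_lit 483344) (nat_lit 17) (.e (nat_lit 6714) (nat_lit 360) .nil))))) .nil)) 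
(.lf (nat_lit 26982) (.g (nat_lit 4933) (.e (nat_lit 1196) (nat_lit 88) (.e (nat_lit 65630) (nat_lit 14) (.e (nat_lit 401428) (nat_lit 3) (.e (nat_lit 204869) (nat_lit 29) (.e (nat_lit 360450) (nat_lit 0) (.e (nat_lit 3950) (nat_lit 239) .nil)))))) (.g (nat_lit 6) .nil .nil))))) (.nd (nat_lit 5) (.nd (nat_lit 6) 
(.lf (nat_lit 26902) (.g (nat_lit 2282) (.e (nat_lit 1196) (nat_lit 88) (.e (nat_lit 65628) (nat_lit 14) (.e (nat_lit 401454) (nat_lit 12) (.e (nat_lit 475212) (nat_lit 42) .nil)))) .nil)) 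
(.lf (nat_lit 26966) (.g (nat_lit 2584) (.e (nat_lit 1196) (nat_lit 88) (.e (nat_lit 65630) (nat_lit 14) (.e (nat_lit 401425) (nat_lit 2) (.e (nat_lit 196666) (nat_lit 13) (.e (nat_lit 65617) (nat_lit 10) (.e (nat_lit 344091) (nat_lit 18) (.e (nat_lit 3982) (nat_lit 239) .nil))))))) (.g (nat_lit 5) .nil .nil)))) (.nd (nat_lit 6) 
(.lf (nat_lit 26934) (.g (nat_lit 3578) (.e (nat_lit 1196) (nat_lit 88) (.e (nat_lit 65628) (nat_lit 14) (.e (nat_lit 401459) (nat_lit 13) (.e (nat_lit 483380) (nat_lit 23) (.e (nat_lit 336310) (nat_lit 16) (.e (nat_lit 164253) (nat_lit 209) .nil)))))) (.g (nat_lit 5) .nil .nil))) 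
(.lf (nat_lit 26998) (.g (nat_lit 1756) (.e (nat_lit 1196) (nat_lit 88) (.e (nat_lit 65630) (nat_lit 14) (.e (nat_lit 401437) (nat_lit 9) (.e (nat_lit 426544) (nat_lit 30) .nil)))) .nil))))) (.nd (nat_lit 4) (.nd (nat_lit 5) (.nd (nat_lit 6) 
(.lf (nat_lit 26894) (.g (nat_lit 2423) (.e (nat_lit 1196) (nat_lit 88) (.e (nat_lit 65628) (nat_lit 14) (.e (nat_lit 401437) (nat_lit 9) (.e (nat_lit 426544) (nat_lit 30) (.e (nat_lit 360453) (nat_lit 0) .nil))))) .nil)) 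
(.lf (nat_lit 26958) (.g (nat_lit 490) (.e (nat_lit 1196) (nat_lit 88) (.e (nat_lit 65629) (nat_lit 14) (.e (nat_lit 401459) (nat_lit 13) .nil))) .nil))) (.nd (nat_lit 6) 
(.lf (nat_lit 26926) (.g (nat_lit 4624) (.e (nat_lit 1196) (nat_lit 88) (.e (nat_lit 65628) (nat_lit 14) (.e (nat_lit 401459) (nat_lit 13) (.e (nat_lit 483372) (nat_lit 21) (.e (nat_lit 319514) (nat_lit 11) .nil))))) .nil)) 
(.lf (nat_lit 26990) (.g (nat_lit 1211) (.e (nat_lit 1196) (nat_lit 88) (.e (nat_lit 65630) (nat_lit 14) (.e (nat_lit 401428) (nat_lit 3) (.e (nat_lit 204877) (nat_lit 31) .nil)))) .nil)))) (.nd (nat_lit 5) (.nd (nat_lit 6) 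
(.lf (nat_lit 26910) (.g (nat_lit 570) (.e (nat_lit 1196) (nat_lit 88) (.e (nat_lit 65628) (nat_lit 14) (.e (nat_lit 401459) (nat_lit 13) .nil))) .nil)) 
(.lf (nat_lit 26974) (.g (nat_lit 3053) (.e (nat_lit 1196) (nat_lit 88) (.e (nat_lit 65630) (nat_lit 14) (.e (nat_lit 401428) (nat_lit 3) (.e (nat_lit 204866) (nat_lit 28) (.e (nat_lit 352318) (nat_lit 24) (.e (nat_lit 123040) (nat_lit 140) .nil)))))) (.g (nat_lit 5) .nil .nil)))) (.nd (nat_lit 6) 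
(.lf (nat_lit 26942) (.g (nat_lit 2320) (.e (nat_lit 1196) (nat_lit 88) (.e (nat_lit 65628) (nat_lit 14) (.e (nat_lit 401459) (nat_lit 13) (.e (nat_lit 483396) (nat_lit 24) .nil)))) .nil)) 
(.lf (nat_lit 27006) (.g (nat_lit 2168) (.e (nat_lit 1196) (nat_lit 88) (.e (nat_lit 65630) (nat_lit 14) (.e (nat_lit 401438) (nat_lit 9) (.e (nat_lit 426542) (nat_lit 29) (.e (nat_lit 352309) (nat_lit 21) .nil))))) .nil)))))))) (.nd (nat_lit 1) (.nd (nat_lit 2) (.nd (nat_lit 3) (.nd (nat_lit 4) (.nd (nat_lit 5) (.nd (nat_lit 6) 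
(.lf (nat_lit 26881) (.g (nat_lit 2631) (.e (nat_lit 1196) (nat_lit 88) (.e (nat_lit 65627) (nat_lit 13) (.e (nat_lit 393301) (nat_lit 27) (.e (nat_lit 491560) (nat_lit 10) (.e (nat_lit 344089) (nat_lit 18) .nil))))) .nil)) 
(.lf (nat_lit 26945) (.g (nat_lit 2186) (.e (nat_lit 1196) (nat_lit 88) (.e (nat_lit 65628) (nat_lit 14) (.e (nat_lit 401459) (nat_lit 13) (.e (nat_lit 483400) (nat_lit 25) .nil)))) .nil))) (.nd (nat_lit 6) 
(.lf (nat_lit 26913) (.g (nat_lit 2454) (.e (nat_lit 1196) (nat_lit 88) (.e (nat_lit 65628) (nat_lit 14) (.e (nat_lit 401459) (nat_lit 13) (.e (nat_lit 483344) (nat_lit 17) (.e (nat_lit 6514) (nat_lit 346) .nil))))) .nil)) 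
(.lf (nat_lit 26977) (.g (nat_lit 2018) (.e (nat_lit 1196) (nat_lit 88) (.e (nat_lit 65630) (nat_lit 14) (.e (nat_lit 401428) (nat_lit 3) (.e (nat_lit 204868) (nat_lit 29) (.e (nat_lit 360456) (nat_lit 0) .nil))))) .nil)))) (.nd (nat_lit 5) (.nd (nat_lit 6) 
(.lf (nat_lit 26897) (.g (nat_lit 1847) (.e (nat_lit 1196) (nat_lit 88) (.e (nat_lit 65628) (nat_lit 14) (.e (nat_lit 401437) (nat_lit 9) (.e (nat_lit 426555) (nat_lit 32) .nil)))) .nil)) 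
(.lf (nat_lit 26961) (.g (nat_lit 1967) (.e (nat_lit 1196) (nat_lit 88) (.e (nat_lit 65629) (nat_lit 14) (.e (nat_lit 401459) (nat_lit 13) (.e (nat_lit 483380) (nat_lit 23) .nil)))) .nil))) (.nd (nat_lit 6) 
(.lf (nat_lit 26929) (.g (nat_lit 2164) (.e (nat_lit 1196) (nat_lit 88) (.e (nat_lit 65628) (nat_lit 14) (.e (nat_lit 401459) (nat_lit 13) (.e (nat_lit 483375) (nat_lit 22) .nil)))) .nil)) 
(.lf (nat_lit 26993) (.g (nat_lit 1290) (.e (nat_lit 1196) (nat_lit 88) (.e (nat_lit 65630) (nat_lit 14) (.e (nat_lit 401436) (nat_lit 9) (.e (nat_lit 426542) (nat_lit 29) .nil)))) .nil))))) (.nd (nat_lit 4) (.nd (nat_lit 5) (.nd (nat_lit 6) 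
(.lf (nat_lit 26889) (.g (nat_lit 2436) (.e (nat_lit 1196) (nat_lit 88) (.e (nat_lit 65628) (nat_lit 14) (.e (nat_lit 401428) (nat_lit 3) (.e (nat_lit 204869) (nat_lit 29) (.e (nat_lit 360448) (nat_lit 0) .nil))))) .nil)) 
(.lf (nat_lit 26953) (.g (nat_lit 3177) (.e (nat_lit 1196) (nat_lit 88) (.e (nat_lit 65628) (nat_lit 14) (.e (nat_lit 401459) (nat_lit 13) (.e (nat_lit 483411) (nat_lit 27) (.e (nat_lit 401418) (nat_lit 0) .nil))))) .nil))) (.nd (nat_lit 6) 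
(.lf (nat_lit 26921) (.g (nat_lit 2137) (.e (nat_lit 1196) (nat_lit 88) (.e (nat_lit 65628) (nat_lit 14) (.e (nat_lit 401459) (nat_lit 13) (.e (nat_lit 483350) (nat_lit 17) .nil)))) .nil)) 
(.lf (nat_lit 26985) (.g (nat_lit 3491) (.e (nat_lit 1196) (nat_lit 88) (.e (nat_lit 65630) (nat_lit 14) (.e (nat_lit 401428) (nat_lit 3) (.e (nat_lit 204869) (nat_lit 29) (.e (nat_lit 360455) (nat_lit 0) (.e (nat_lit 3962) (nat_lit 239) .nil)))))) (.g (nat_lit 5) .nil .nil))))) (.nd (nat_lit 5) (.nd (nat_lit 6) 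
(.lf (nat_lit 26905) (.g (nat_lit 686) (.e (nat_lit 1196) (nat_lit 88) (.e (nat_lit 65628) (nat_lit 14) (.e (nat_lit 401458) (nat_lit 13) .nil))) .nil)) 
(.lf (nat_lit 26969) (.g (nat_lit 1595) (.e (nat_lit 1196) (nat_lit 88) (.e (nat_lit 65630) (nat_lit 14) (.e (nat_lit 401427) (nat_lit 3) (.e (nat_lit 204861) (nat_lit 26) .nil)))) .nil))) (.nd (nat_lit 6) 
(.lf (nat_lit 26937) (.g (nat_lit 2505) (.e (nat_lit 1196) (nat_lit 88) (.e (nat_lit 65628) (nat_lit 14) (.e (nat_lit 401459) (nat_lit 13) (.e (nat_lit 483394) (nat_lit 24) (.e (nat_lit 344090) (nat_lit 18) .nil))))) .nil)) 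
(.lf (nat_lit 27001) (.g (nat_lit 2968) (.e (nat_lit 1196) (nat_lit 88) (.e (nat_lit 65630) (nat_lit 14) (.e (nat_lit 401437) (nat_lit 9) (.e (nat_lit 426546) (nat_lit 30) (.e (nat_lit 360449) (nat_lit 0) .nil))))) .nil)))))) (.nd (nat_lit 3) (.nd (nat_lit 4) (.nd (nat_lit 5) (.nd (nat_lit 6) 
(.lf (nat_lit 26885) (.g (nat_lit 2646) (.e (nat_lit 1196) (nat_lit 88) (.e (nat_lit 65627) (nat_lit 13) (.e (nat_lit 393301) (nat_lit 27) (.e (nat_lit 491560) (nat_lit 10) (.e (nat_lit 352000) (nat_lit 18) .nil))))) .nil)) 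
(.lf (nat_lit 26949) (.g (nat_lit 2835) (.e (nat_lit 1196) (nat_lit 88) (.e (nat_lit 65628) (nat_lit 14) (.e (nat_lit 401459) (nat_lit 13) (.e (nat_lit 483411) (nat_lit 27) (.e (nat_lit 401408) (nat_lit 0) .nil))))) .nil))) (.nd (nat_lit 6) 
(.lf (nat_lit 26917) (.g (nat_lit 2659) (.e (nat_lit 1196) (nat_lit 88) (.e (nat_lit 65628) (nat_lit 14) (.e (nat_lit 401459) (nat_lit 13) (.e (nat_lit 483344) (nat_lit 17) (.e (nat_lit 6712) (nat_lit 360) (.e (nat_lit 163849) (nat_lit 0) (.e (nat_lit 4598) (nat_lit 269) .nil))))))) (.g (nat_lit 4) .nil .nil))) 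
(.lf (nat_lit 26981) (.g (nat_lit 2293) (.e (nat_lit 1196) (nat_lit 88) (.e (nat_lit 65630) (nat_lit 14) (.e (nat_lit 401428) (nat_lit 3) (.e (nat_lit 204869) (nat_lit 29) (.e (nat_lit 360449) (nat_lit 0) .nil))))) .nil)))) (.nd (nat_lit 5) (.nd (nat_lit 6) 
(.lf (nat_lit 26901) (.g (nat_lit 711) (.e (nat_lit 1196) (nat_lit 88) (.e (nat_lit 65628) (nat_lit 14) (.e (nat_lit 401454) (nat_lit 12) .nil))) .nil)) 
(.lf (nat_lit 26965) (.g (nat_lit 1017) (.e (nat_lit 1196) (nat_lit 88) (.e (nat_lit 65630) (nat_lit 14) (.e (nat_lit 401425) (nat_lit 2) (.e (nat_lit 196666) (nat_lit 13) .nil)))) .nil))) (.nd (nat_lit 6) 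
(.lf (nat_lit 26933) (.g (nat_lit 3183) (.e (nat_lit 1196) (nat_lit 88) (.e (nat_lit 65628) (nat_lit 14) (.e (nat_lit 401459) (nat_lit 13) (.e (nat_lit 483380) (nat_lit 23) (.e (nat_lit 336310) (nat_lit 16) (.e (nat_lit 164252) (nat_lit 209) .nil)))))) (.g (nat_lit 4) .nil .nil))) 
(.lf (nat_lit 26997) (.g (nat_lit 1713) (.e (nat_lit 1196) (nat_lit 88) (.e (nat_lit 65630) (nat_lit 14) (.e (nat_lit 401437) (nat_lit 9) (.e (nat_lit 426542) (nat_lit 29) .nil)))) .nil))))) (.nd (nat_lit 4) (.nd (nat_lit 5) (.nd (nat_lit 6) 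
(.lf (nat_lit 26893) (.g (nat_lit 1827) (.e (nat_lit 1196) (nat_lit 88) (.e (nat_lit 65628) (nat_lit 14) (.e (nat_lit 401437) (nat_lit 9) (.e (nat_lit 426544) (nat_lit 30) .nil)))) .nil)) 
(.lf (nat_lit 26957) (.g (nat_lit 3247) (.e (nat_lit 1196) (nat_lit 88) (.e (nat_lit 65628) (nat_lit 14) (.e (nat_lit 401459) (nat_lit 13) (.e (nat_lit 483411) (nat_lit 27) (.e (nat_lit 401429) (nat_lit 4) .nil))))) .nil))) (.nd (nat_lit 6) 
(.lf (nat_lit 26925) (.g (nat_lit 4788) (.e (nat_lit 1196) (nat_lit 88) (.e (nat_lit 65628) (nat_lit 14) (.e (nat_lit 401459) (nat_lit 13) (.e (nat_lit 483372) (nat_lit 21) (.e (nat_lit 319505) (nat_lit 10) .nil))))) .nil)) 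
(.lf (nat_lit 26989) (.g (nat_lit 2438) (.e (nat_lit 1196) (nat_lit 88) (.e (nat_lit 65630) (nat_lit 14) (.e (nat_lit 401428) (nat_lit 3) (.e (nat_lit 204869) (nat_lit 29) (.e (nat_lit 368384) (nat_lit 0) .nil))))) .nil)))) (.nd (nat_lit 5) (.nd (nat_lit 6) 
(.lf (nat_lit 26909) (.g (nat_lit 1554) (.e (nat_lit 1196) (nat_lit 88) (.e (nat_lit 65628) (nat_lit 14) (.e (nat_lit 401458) (nat_lit 13) (.e (nat_lit 483396) (nat_lit 24) .nil)))) .nil)) 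
(.lf (nat_lit 26973) (.g (nat_lit 1225) (.e (nat_lit 1196) (nat_lit 88) (.e (nat_lit 65630) (nat_lit 14) (.e (nat_lit 401428) (nat_lit 3) (.e (nat_lit 204866) (nat_lit 28) .nil)))) .nil))) (.nd (nat_lit 6) 
(.lf (nat_lit 26941) (.g (nat_lit 2178) (.e (nat_lit 1196) (nat_lit 88) (.e (nat_lit 65628) (nat_lit 14) (.e (nat_lit 401459) (nat_lit 13) (.e (nat_lit 483395) (nat_lit 24) (.e (nat_lit 344097) (nat_lit 18) .nil))))) .nil)) 
(.lf (nat_lit 27005) (.g (nat_lit 2458) (.e (nat_lit 1196) (nat_lit 88) (.e (nat_lit 65630) (nat_lit 14) (.e (nat_lit 401438) (nat_lit 9) (.e (nat_lit 426542) (nat_lit 29) (.e (nat_lit 352307) (nat_lit 21) (.e (nat_lit 57873) (nat_lit 264) .nil)))))) (.g (nat_lit 4) .nil .nil)))))))) (.nd (nat_lit 2) (.nd (nat_lit 3) (.nd (nat_lit 4) (.nd (nat_lit 5) (.nd (nat_lit 6) 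
(.lf (nat_lit 26883) (.g (nat_lit 2285) (.e (nat_lit 1196) (nat_lit 88) (.e (nat_lit 65627) (nat_lit 13) (.e (nat_lit 393301) (nat_lit 27) (.e (nat_lit 491560) (nat_lit 10) (.e (nat_lit 344090) (nat_lit 18) (.e (nat_lit 7236) (nat_lit 382) .nil)))))) (.g (nat_lit 4) .nil .nil))) 
(.lf (nat_lit 26947) (.g (nat_lit 3190) (.e (nat_lit 1196) (nat_lit 88) (.e (nat_lit 65628) (nat_lit 14) (.e (nat_lit 401459) (nat_lit 13) (.e (nat_lit 483403) (nat_lit 26) (.e (nat_lit 385049) (nat_lit 21) .nil))))) .nil))) (.nd (nat_lit 6) 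
(.lf (nat_lit 26915) (.g (nat_lit 2328) (.e (nat_lit 1196) (nat_lit 88) (.e (nat_lit 65628) (nat_lit 14) (.e (nat_lit 401459) (nat_lit 13) (.e (nat_lit 483344) (nat_lit 17) (.e (nat_lit 6712) (nat_lit 360) .nil))))) .nil)) 
(.lf (nat_lit 26979) (.g (nat_lit 2676) (.e (nat_lit 1196) (nat_lit 88) (.e (nat_lit 65630) (nat_lit 14) (.e (nat_lit 401428) (nat_lit 3) (.e (nat_lit 204869) (nat_lit 29) (.e (nat_lit 360448) (nat_lit 0) (.e (nat_lit 3983) (nat_lit 239) .nil)))))) (.g (nat_lit 4) .nil .nil))))) (.nd (nat_lit 5) (.nd (nat_lit 6) 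
(.lf (nat_lit 26899) (.g (nat_lit 1443) (.e (nat_lit 1196) (nat_lit 88) (.e (nat_lit 65628) (nat_lit 14) (.e (nat_lit 401438) (nat_lit 9) (.e (nat_lit 426546) (nat_lit 30) .nil)))) .nil)) 
(.lf (nat_lit 26963) (.g (nat_lit 2213) (.e (nat_lit 1196) (nat_lit 88) (.e (nat_lit 65629) (nat_lit 14) (.e (nat_lit 401459) (nat_lit 13) (.e (nat_lit 483411) (nat_lit 27) .nil)))) .nil))) (.nd (nat_lit 6) 
(.lf (nat_lit 26931) (.g (nat_lit 3490) (.e (nat_lit 1196) (nat_lit 88) (.e (nat_lit 65628) (nat_lit 14) (.e (nat_lit 401459) (nat_lit 13) (.e (nat_lit 483380) (nat_lit 23) (.e (nat_lit 336309) (nat_lit 16) .nil))))) .nil)) 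
(.lf (nat_lit 26995) (.g (nat_lit 1372) (.e (nat_lit 1196) (nat_lit 88) (.e (nat_lit 65630) (nat_lit 14) (.e (nat_lit 401436) (nat_lit 9) (.e (nat_lit 426555) (nat_lit 32) .nil)))) .nil))))) (.nd (nat_lit 4) (.nd (nat_lit 5) (.nd (nat_lit 6) 
(.lf (nat_lit 26891) (.g (nat_lit 661) (.e (nat_lit 1196) (nat_lit 88) (.e (nat_lit 65628) (nat_lit 14) (.e (nat_lit 401436) (nat_lit 9) .nil))) .nil)) 
(.lf (nat_lit 26955) (.g (nat_lit 2986) (.e (nat_lit 1196) (nat_lit 88) (.e (nat_lit 65628) (nat_lit 14) (.e (nat_lit 401459) (nat_lit 13) (.e (nat_lit 483411) (nat_lit 27) (.e (nat_lit 401421) (nat_lit 1) .nil))))) .nil))) (.nd (nat_lit 6) 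
(.lf (nat_lit 26923) (.g (nat_lit 2895) (.e (nat_lit 1196) (nat_lit 88) (.e (nat_lit 65628) (nat_lit 14) (.e (nat_lit 401459) (nat_lit 13) (.e (nat_lit 483371) (nat_lit 21) (.e (nat_lit 319516) (nat_lit 11) .nil))))) .nil)) 
(.lf (nat_lit 26987) (.g (nat_lit 3963) (.e (nat_lit 1196) (nat_lit 88) (.e (nat_lit 65630) (nat_lit 14) (.e (nat_lit 401428) (nat_lit 3) (.e (nat_lit 204869) (nat_lit 29) (.e (nat_lit 360456) (nat_lit 0) (.e (nat_lit 3982) (nat_lit 239) .nil)))))) (.g (nat_lit 5) .nil .nil))))) (.nd (nat_lit 5) (.nd (nat_lit 6) 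
(.lf (nat_lit 26907) (.g (nat_lit 1580) (.e (nat_lit 1196) (nat_lit 88) (.e (nat_lit 65628) (nat_lit 14) (.e (nat_lit 401458) (nat_lit 13) (.e (nat_lit 483394) (nat_lit 24) .nil)))) .nil)) 
(.lf (nat_lit 26971) (.g (nat_lit 1729) (.e (nat_lit 1196) (nat_lit 88) (.e (nat_lit 65630) (nat_lit 14) (.e (nat_lit 401428) (nat_lit 3) (.e (nat_lit 204861) (nat_lit 26) (.e (nat_lit 336076) (nat_lit 9) (.e (nat_lit 336314) (nat_lit 16) (.e (nat_lit 164119) (nat_lit 128) .nil))))))) (.g (nat_lit 4) .nil .nil)))) (.nd (nat_lit 6) 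
(.lf (nat_lit 26939) (.g (nat_lit 1457) (.e (nat_lit 1196) (nat_lit 88) (.e (nat_lit 65628) (nat_lit 14) (.e (nat_lit 401459) (nat_lit 13) (.e (nat_lit 483395) (nat_lit 24) .nil)))) .nil)) 
(.lf (nat_lit 27003) (.g (nat_lit 1782) (.e (nat_lit 1196) (nat_lit 88) (.e (nat_lit 65630) (nat_lit 14) (.e (nat_lit 401437) (nat_lit 9) (.e (nat_lit 426555) (nat_lit 32) .nil)))) .nil)))))) (.nd (nat_lit 3) (.nd (nat_lit 4) (.nd (nat_lit 5) (.nd (nat_lit 6) 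
(.lf (nat_lit 26887) (.g (nat_lit 2079) (.e (nat_lit 1196) (nat_lit 88) (.e (nat_lit 65628) (nat_lit 14) (.e (nat_lit 401428) (nat_lit 3) (.e (nat_lit 204866) (nat_lit 28) (.e (nat_lit 352318) (nat_lit 24) .nil))))) .nil)) 
(.lf (nat_lit 26951) (.g (nat_lit 3014) (.e (nat_lit 1196) (nat_lit 88) (.e (nat_lit 65628) (nat_lit 14) (.e (nat_lit 401459) (nat_lit 13) (.e (nat_lit 483411) (nat_lit 27) (.e (nat_lit 401414) (nat_lit 0) (.e (nat_lit 2438) (nat_lit 157) (.e (nat_lit 4604) (nat_lit 269) .nil))))))) (.g (nat_lit 4) .nil .nil)))) (.nd (nat_lit 6) 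
(.lf (nat_lit 26919) (.g (nat_lit 2504) (.e (nat_lit 1196) (nat_lit 88) (.e (nat_lit 65628) (nat_lit 14) (.e (nat_lit 401459) (nat_lit 13) (.e (nat_lit 483344) (nat_lit 17) (.e (nat_lit 6714) (nat_lit 360) (.e (nat_lit 163843) (nat_lit 0) (.e (nat_lit 4588) (nat_lit 269) .nil))))))) (.g (nat_lit 4) .nil .nil))) 
(.lf (nat_lit 26983) (.g (nat_lit 5190) (.e (nat_lit 1196) (nat_lit 88) (.e (nat_lit 65630) (nat_lit 14) (.e (nat_lit 401428) (nat_lit 3) (.e (nat_lit 204869) (nat_lit 29) (.e (nat_lit 360451) (nat_lit 0) (.e (nat_lit 3950) (nat_lit 239) .nil)))))) (.g (nat_lit 6) .nil .nil))))) (.nd (nat_lit 5) (.nd (nat_lit 6) 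
(.lf (nat_lit 26903) (.g (nat_lit 2916) (.e (nat_lit 1196) (nat_lit 88) (.e (nat_lit 65628) (nat_lit 14) (.e (nat_lit 401454) (nat_lit 12) (.e (nat_lit 475214) (nat_lit 42) .nil)))) .nil)) 
(.lf (nat_lit 26967) (.g (nat_lit 2100) (.e (nat_lit 1196) (nat_lit 88) (.e (nat_lit 65630) (nat_lit 14) (.e (nat_lit 401425) (nat_lit 2) (.e (nat_lit 196674) (nat_lit 15) .nil)))) .nil))) (.nd (nat_lit 6) 
(.lf (nat_lit 26935) (.g (nat_lit 2409) (.e (nat_lit 1196) (nat_lit 88) (.e (nat_lit 65628) (nat_lit 14) (.e (nat_lit 401459) (nat_lit 13) (.e (nat_lit 483393) (nat_lit 23) .nil)))) .nil)) 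
(.lf (nat_lit 26999) (.g (nat_lit 2370) (.e (nat_lit 1196) (nat_lit 88) (.e (nat_lit 65630) (nat_lit 14) (.e (nat_lit 401437) (nat_lit 9) (.e (nat_lit 426544) (nat_lit 30) (.e (nat_lit 360453) (nat_lit 0) .nil))))) .nil))))) (.nd (nat_lit 4) (.nd (nat_lit 5) (.nd (nat_lit 6) 
(.lf (nat_lit 26895) (.g (nat_lit 1861) (.e (nat_lit 1196) (nat_lit 88) (.e (nat_lit 65628) (nat_lit 14) (.e (nat_lit 401437) (nat_lit 9) (.e (nat_lit 426546) (nat_lit 30) .nil)))) .nil)) 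
(.lf (nat_lit 26959) (.g (nat_lit 1805) (.e (nat_lit 1196) (nat_lit 88) (.e (nat_lit 65629) (nat_lit 14) (.e (nat_lit 401459) (nat_lit 13) (.e (nat_lit 483344) (nat_lit 17) .nil)))) .nil))) (.nd (nat_lit 6) 
(.lf (nat_lit 26927) (.g (nat_lit 5598) (.e (nat_lit 1196) (nat_lit 88) (.e (nat_lit 65628) (nat_lit 14) (.e (nat_lit 401459) (nat_lit 13) (.e (nat_lit 483372) (nat_lit 21) (.e (nat_lit 319516) (nat_lit 11) (.e (nat_lit 8484) (nat_lit 168) .nil)))))) (.g (nat_lit 0) .nil .nil))) 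
(.lf (nat_lit 26991) (.g (nat_lit 858) (.e (nat_lit 1196) (nat_lit 88) (.e (nat_lit 65630) (nat_lit 14) (.e (nat_lit 401435) (nat_lit 9) .nil))) .nil)))) (.nd (nat_lit 5) (.nd (nat_lit 6) 
(.lf (nat_lit 26911) (.g (nat_lit 1972) (.e (nat_lit 1196) (nat_lit 88) (.e (nat_lit 65628) (nat_lit 14) (.e (nat_lit 401459) (nat_lit 13) (.e (nat_lit 483343) (nat_lit 17) .nil)))) .nil)) 
(.lf (nat_lit 26975) (.g (nat_lit 3610) (.e (nat_lit 1196) (nat_lit 88) (.e (nat_lit 65630) (nat_lit 14) (.e (nat_lit 401428) (nat_lit 3) (.e (nat_lit 204866) (nat_lit 28) (.e (nat_lit 352318) (nat_lit 24) (.e (nat_lit 123043) (nat_lit 140) .nil)))))) (.g (nat_lit 6) .nil .nil)))) (.nd (nat_lit 6) 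
(.lf (nat_lit 26943) (.g (nat_lit 2091) (.e (nat_lit 1196) (nat_lit 88) (.e (nat_lit 65628) (nat_lit 14) (.e (nat_lit 401459) (nat_lit 13) (.e (nat_lit 483398) (nat_lit 25) .nil)))) .nil)) 
(.lf (nat_lit 27007) (.g (nat_lit 1670) (.e (nat_lit 1196) (nat_lit 88) (.e (nat_lit 65630) (nat_lit 14) (.e (nat_lit 401438) (nat_lit 9) (.e (nat_lit 426544) (nat_lit 30) .nil)))) .nil)))))))))

noncomputable def tv375 : DT := (.nd (nat_lit 0) (.nd (nat_lit 1) (.nd (nat_lit 2) (.nd (nat_lit 3) (.nd (nat_lit 4) (.nd (nat_lit 5) (.nd (nat_lit 6) 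
(.lf (nat_lit 27008) (.g (nat_lit 1669) (.e (nat_lit 1196) (nat_lit 88) (.e (nat_lit 65630) (nat_lit 14) (.e (nat_lit 401438) (nat_lit 9) (.e (nat_lit 426546) (nat_lit 30) .nil)))) .nil)) 
(.lf (nat_lit 27072) (.g (nat_lit 5554) (.e (nat_lit 1196) (nat_lit 88) (.e (nat_lit 65630) (nat_lit 14) (.e (nat_lit 401459) (nat_lit 13) (.e (nat_lit 483372) (nat_lit 21) (.e (nat_lit 319502) (nat_lit 10) .nil))))) .nil))) (.nd (nat_lit 6) 
(.lf (nat_lit 27040) (.g (nat_lit 3056) (.e (nat_lit 1196) (nat_lit 88) (.e (nat_lit 65630) (nat_lit 14) (.e (nat_lit 401459) (nat_lit 13) (.e (nat_lit 483344) (nat_lit 17) (.e (nat_lit 7936) (nat_lit 346) .nil))))) .nil)) 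
(.lf (nat_lit 27104) (.g (nat_lit 2563) (.e (nat_lit 1196) (nat_lit 88) (.e (nat_lit 65630) (nat_lit 14) (.e (nat_lit 401459) (nat_lit 13) (.e (nat_lit 483399) (nat_lit 25) .nil)))) .nil)))) (.nd (nat_lit 5) (.nd (nat_lit 6) 
(.lf (nat_lit 27024) (.g (nat_lit 2641) (.e (nat_lit 1196) (nat_lit 88) (.e (nat_lit 65630) (nat_lit 14) (.e (nat_lit 401457) (nat_lit 13) (.e (nat_lit 483413) (nat_lit 27) (.e (nat_lit 401421) (nat_lit 1) .nil))))) .nil)) 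
(.lf (nat_lit 27088) (.g (nat_lit 2285) (.e (nat_lit 1196) (nat_lit 88) (.e (nat_lit 65630) (nat_lit 14) (.e (nat_lit 401459) (nat_lit 13) (.e (nat_lit 483386) (nat_lit 23) .nil)))) .nil))) (.nd (nat_lit 6) 
(.lf (nat_lit 27056) (.g (nat_lit 4300) (.e (nat_lit 1196) (nat_lit 88) (.e (nat_lit 65630) (nat_lit 14) (.e (nat_lit 401459) (nat_lit 13) (.e (nat_lit 483344) (nat_lit 17) (.e (nat_lit 6714) (nat_lit 360) (.e (nat_lit 163843) (nat_lit 0) (.e (nat_lit 4588) (nat_lit 269) .nil))))))) (.g (nat_lit 6) .nil .nil))) 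
(.lf (nat_lit 27120) (.g (nat_lit 2587) (.e (nat_lit 1196) (nat_lit 88) (.e (nat_lit 65630) (nat_lit 14) (.e (nat_lit 401459) (nat_lit 13) (.e (nat_lit 483411) (nat_lit 27) (.e (nat_lit 401408) (nat_lit 0) .nil))))) .nil))))) (.nd (nat_lit 4) (.nd (nat_lit 5) (.nd (nat_lit 6) 
(.lf (nat_lit 27016) (.g (nat_lit 884) (.e (nat_lit 1196) (nat_lit 88) (.e (nat_lit 65630) (nat_lit 14) (.e (nat_lit 401456) (nat_lit 13) .nil))) .nil)) 
(.lf (nat_lit 27080) (.g (nat_lit 2406) (.e (nat_lit 1196) (nat_lit 88) (.e (nat_lit 65630) (nat_lit 14) (.e (nat_lit 401459) (nat_lit 13) (.e (nat_lit 483375) (nat_lit 22) .nil)))) .nil))) (.nd (nat_lit 6) 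
(.lf (nat_lit 27048) (.g (nat_lit 4667) (.e (nat_lit 1196) (nat_lit 88) (.e (nat_lit 65630) (nat_lit 14) (.e (nat_lit 401459) (nat_lit 13) (.e (nat_lit 483344) (nat_lit 17) (.e (nat_lit 6712) (nat_lit 360) (.e (nat_lit 163850) (nat_lit 0) (.e (nat_lit 4605) (nat_lit 269) .nil))))))) (.g (nat_lit 6) .nil .nil))) 
(.lf (nat_lit 27112) (.g (nat_lit 3245) (.e (nat_lit 1196) (nat_lit 88) (.e (nat_lit 65630) (nat_lit 14) (.e (nat_lit 401459) (nat_lit 13) (.e (nat_lit 483410) (nat_lit 27) (.e (nat_lit 401416) (nat_lit 0) .nil))))) .nil)))) (.nd (nat_lit 5) (.nd (nat_lit 6) 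
(.lf (nat_lit 27032) (.g (nat_lit 2153) (.e (nat_lit 1196) (nat_lit 88) (.e (nat_lit 65630) (nat_lit 14) (.e (nat_lit 401459) (nat_lit 13) (.e (nat_lit 483344) (nat_lit 17) .nil)))) .nil)) 
(.lf (nat_lit 27096) (.g (nat_lit 3226) (.e (nat_lit 1196) (nat_lit 88) (.e (nat_lit 65630) (nat_lit 14) (.e (nat_lit 401459) (nat_lit 13) (.e (nat_lit 483394) (nat_lit 24) (.e (nat_lit 344090) (nat_lit 18) (.e (nat_lit 5896) (nat_lit 320) .nil)))))) (.g (nat_lit 4) .nil .nil)))) (.nd (nat_lit 6) 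
(.lf (nat_lit 27064) (.g (nat_lit 2460) (.e (nat_lit 1196) (nat_lit 88) (.e (nat_lit 65630) (nat_lit 14) (.e (nat_lit 401459) (nat_lit 13) (.e (nat_lit 483347) (nat_lit 17) .nil)))) .nil)) 
(.lf (nat_lit 27128) (.g (nat_lit 2790) (.e (nat_lit 1196) (nat_lit 88) (.e (nat_lit 65630) (nat_lit 14) (.e (nat_lit 401459) (nat_lit 13) (.e (nat_lit 483411) (nat_lit 27) (.e (nat_lit 401414) (nat_lit 0) (.e (nat_lit 2425) (nat_lit 157) (.e (nat_lit 4563) (nat_lit 269) .nil))))))) (.g (nat_lit 4) .nil .nil))))))) (.nd (nat_lit 3) (.nd (nat_lit 4) (.nd (nat_lit 5) (.nd (nat_lit 6) 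
(.lf (nat_lit 27012) (.g (nat_lit 1834) (.e (nat_lit 1196) (nat_lit 88) (.e (nat_lit 65630) (nat_lit 14) (.e (nat_lit 401454) (nat_lit 12) (.e (nat_lit 483072) (nat_lit 16) .nil)))) .nil)) 
(.lf (nat_lit 27076) (.g (nat_lit 4864) (.e (nat_lit 1196) (nat_lit 88) (.e (nat_lit 65630) (nat_lit 14) (.e (nat_lit 401459) (nat_lit 13) (.e (nat_lit 483372) (nat_lit 21) (.e (nat_lit 319514) (nat_lit 11) (.e (nat_lit 8484) (nat_lit 168) .nil)))))) (.g (nat_lit 4) .nil .nil)))) (.nd (nat_lit 6) 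
(.lf (nat_lit 27044) (.g (nat_lit 3328) (.e (nat_lit 1196) (nat_lit 88) (.e (nat_lit 65630) (nat_lit 14) (.e (nat_lit 401459) (nat_lit 13) (.e (nat_lit 483344) (nat_lit 17) (.e (nat_lit 6712) (nat_lit 360) (.e (nat_lit 163841) (nat_lit 0) (.e (nat_lit 4598) (nat_lit 269) .nil))))))) (.g (nat_lit 4) .nil .nil))) 
(.lf (nat_lit 27108) (.g (nat_lit 3273) (.e (nat_lit 1196) (nat_lit 88) (.e (nat_lit 65630) (nat_lit 14) (.e (nat_lit 401459) (nat_lit 13) (.e (nat_lit 483403) (nat_lit 26) (.e (nat_lit 385049) (nat_lit 21) .nil))))) .nil)))) (.nd (nat_lit 5) (.nd (nat_lit 6) 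
(.lf (nat_lit 27028) (.g (nat_lit 1409) (.e (nat_lit 1196) (nat_lit 88) (.e (nat_lit 65630) (nat_lit 14) (.e (nat_lit 401458) (nat_lit 13) (.e (nat_lit 483394) (nat_lit 24) .nil)))) .nil)) 
(.lf (nat_lit 27092) (.g (nat_lit 3009) (.e (nat_lit 1196) (nat_lit 88) (.e (nat_lit 65630) (nat_lit 14) (.e (nat_lit 401459) (nat_lit 13) (.e (nat_lit 483392) (nat_lit 23) .nil)))) .nil))) (.nd (nat_lit 6) 
(.lf (nat_lit 27060) (.g (nat_lit 5094) (.e (nat_lit 1196) (nat_lit 88) (.e (nat_lit 65630) (nat_lit 14) (.e (nat_lit 401459) (nat_lit 13) (.e (nat_lit 483344) (nat_lit 17) (.e (nat_lit 6714) (nat_lit 360) (.e (nat_lit 163850) (nat_lit 0) (.e (nat_lit 4605) (nat_lit 269) .nil))))))) (.g (nat_lit 0) .nil .nil))) 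
(.lf (nat_lit 27124) (.g (nat_lit 3031) (.e (nat_lit 1196) (nat_lit 88) (.e (nat_lit 65630) (nat_lit 14) (.e (nat_lit 401459) (nat_lit 13) (.e (nat_lit 483411) (nat_lit 27) (.e (nat_lit 401414) (nat_lit 0) (.e (nat_lit 2422) (nat_lit 157) (.e (nat_lit 4598) (nat_lit 269) .nil))))))) (.g (nat_lit 4) .nil .nil)))))) (.nd (nat_lit 4) (.nd (nat_lit 5) (.nd (nat_lit 6) 
(.lf (nat_lit 27020) (.g (nat_lit 1805) (.e (nat_lit 1196) (nat_lit 88) (.e (nat_lit 65630) (nat_lit 14) (.e (nat_lit 401457) (nat_lit 13) (.e (nat_lit 483393) (nat_lit 23) .nil)))) .nil)) 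
(.lf (nat_lit 27084) (.g (nat_lit 3454) (.e (nat_lit 1196) (nat_lit 88) (.e (nat_lit 65630) (nat_lit 14) (.e (nat_lit 401459) (nat_lit 13) (.e (nat_lit 483380) (nat_lit 23) (.e (nat_lit 336310) (nat_lit 16) (.e (nat_lit 164250) (nat_lit 209) .nil)))))) (.g (nat_lit 4) .nil .nil)))) (.nd (nat_lit 6) 
(.lf (nat_lit 27052) (.g (nat_lit 3388) (.e (nat_lit 1196) (nat_lit 88) (.e (nat_lit 65630) (nat_lit 14) (.e (nat_lit 401459) (nat_lit 13) (.e (nat_lit 483344) (nat_lit 17) (.e (nat_lit 6712) (nat_lit 360) (.e (nat_lit 163853) (nat_lit 0) (.e (nat_lit 4607) (nat_lit 269) .nil))))))) (.g (nat_lit 4) .nil .nil))) 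
(.lf (nat_lit 27116) (.g (nat_lit 3620) (.e (nat_lit 1196) (nat_lit 88) (.e (nat_lit 65630) (nat_lit 14) (.e (nat_lit 401459) (nat_lit 13) (.e (nat_lit 483410) (nat_lit 27) (.e (nat_lit 401422) (nat_lit 1) (.e (nat_lit 164422) (nat_lit 272) .nil)))))) (.g (nat_lit 5) .nil .nil))))) (.nd (nat_lit 5) (.nd (nat_lit 6) 
(.lf (nat_lit 27036) (.g (nat_lit 3167) (.e (nat_lit 1196) (nat_lit 88) (.e (nat_lit 65630) (nat_lit 14) (.e (nat_lit 401459) (nat_lit 13) (.e (nat_lit 483344) (nat_lit 17) (.e (nat_lit 6486) (nat_lit 343) .nil))))) .nil)) 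
(.lf (nat_lit 27100) (.g (nat_lit 2934) (.e (nat_lit 1196) (nat_lit 88) (.e (nat_lit 65630) (nat_lit 14) (.e (nat_lit 401459) (nat_lit 13) (.e (nat_lit 483395) (nat_lit 24) (.e (nat_lit 344097) (nat_lit 18) .nil))))) .nil))) (.nd (nat_lit 6) 
(.lf (nat_lit 27068) (.g (nat_lit 2576) (.e (nat_lit 1196) (nat_lit 88) (.e (nat_lit 65630) (nat_lit 14) (.e (nat_lit 401459) (nat_lit 13) (.e (nat_lit 483354) (nat_lit 17) .nil)))) .nil)) 
(.lf (nat_lit 27132) (.g (nat_lit 2958) (.e (nat_lit 1196) (nat_lit 88) (.e (nat_lit 65630) (nat_lit 14) (.e (nat_lit 401459) (nat_lit 13) (.e (nat_lit 483411) (nat_lit 27) (.e (nat_lit 401414) (nat_lit 0) (.e (nat_lit 2426) (nat_lit 157) (.e (nat_lit 4575) (nat_lit 269) .nil))))))) (.g (nat_lit 4) .nil .nil)))))))) 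
(.nd (nat_lit 2) (.nd (nat_lit 3) (.nd (nat_lit 4) (.nd (nat_lit 5) (.nd (nat_lit 6) 
(.lf (nat_lit 27010) (.g (nat_lit 1798) (.e (nat_lit 1196) (nat_lit 88) (.e (nat_lit 65630) (nat_lit 14) (.e (nat_lit 401438) (nat_lit 9) (.e (nat_lit 426555) (nat_lit 32) .nil)))) .nil)) 
(.lf (nat_lit 27074) (.g (nat_lit 5038) (.e (nat_lit 1196) (nat_lit 88) (.e (nat_lit 65630) (nat_lit 14) (.e (nat_lit 401459) (nat_lit 13) (.e (nat_lit 483372) (nat_lit 21) (.e (nat_lit 319505) (nat_lit 10) .nil))))) .nil))) (.nd (nat_lit 6) 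
(.lf (nat_lit 27042) (.g (nat_lit 2982) (.e (nat_lit 1196) (nat_lit 88) (.e (nat_lit 65630) (nat_lit 14) (.e (nat_lit 401459) (nat_lit 13) (.e (nat_lit 483344) (nat_lit 17) (.e (nat_lit 6712) (nat_lit 360) .nil))))) .nil)) 
(.lf (nat_lit 27106) (.g (nat_lit 2295) (.e (nat_lit 1196) (nat_lit 88) (.e (nat_lit 65630) (nat_lit 14) (.e (nat_lit 401459) (nat_lit 13) (.e (nat_lit 483403) (nat_lit 26) .nil)))) .nil)))) (.nd (nat_lit 5) (.nd (nat_lit 6) 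
(.lf (nat_lit 27026) (.g (nat_lit 3000) (.e (nat_lit 1196) (nat_lit 88) (.e (nat_lit 65630) (nat_lit 14) (.e (nat_lit 401457) (nat_lit 13) (.e (nat_lit 483413) (nat_lit 27) (.e (nat_lit 401429) (nat_lit 4) .nil))))) .nil)) 
(.lf (nat_lit 27090) (.g (nat_lit 2906) (.e (nat_lit 1196) (nat_lit 88) (.e (nat_lit 65630) (nat_lit 14) (.e (nat_lit 401459) (nat_lit 13) (.e (nat_lit 483389) (nat_lit 23) .nil)))) .nil))) (.nd (nat_lit 6) 
(.lf (nat_lit 27058) (.g (nat_lit 3365) (.e (nat_lit 1196) (nat_lit 88) (.e (nat_lit 65630) (nat_lit 14) (.e (nat_lit 401459) (nat_lit 13) (.e (nat_lit 483344) (nat_lit 17) (.e (nat_lit 6714) (nat_lit 360) (.e (nat_lit 163843) (nat_lit 0) (.e (nat_lit 4600) (nat_lit 269) .nil))))))) (.g (nat_lit 4) .nil .nil))) 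
(.lf (nat_lit 27122) (.g (nat_lit 2646) (.e (nat_lit 1196) (nat_lit 88) (.e (nat_lit 65630) (nat_lit 14) (.e (nat_lit 401459) (nat_lit 13) (.e (nat_lit 483411) (nat_lit 27) (.e (nat_lit 401414) (nat_lit 0) .nil))))) .nil))))) (.nd (nat_lit 4) (.nd (nat_lit 5) (.nd (nat_lit 6) 
(.lf (nat_lit 27018) (.g (nat_lit 596) (.e (nat_lit 1196) (nat_lit 88) (.e (nat_lit 65630) (nat_lit 14) (.e (nat_lit 401457) (nat_lit 13) .nil))) .nil)) 
(.lf (nat_lit 27082) (.g (nat_lit 2349) (.e (nat_lit 1196) (nat_lit 88) (.e (nat_lit 65630) (nat_lit 14) (.e (nat_lit 401459) (nat_lit 13) (.e (nat_lit 483380) (nat_lit 23) .nil)))) .nil))) (.nd (nat_lit 6) 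
(.lf (nat_lit 27050) (.g (nat_lit 4186) (.e (nat_lit 1196) (nat_lit 88) (.e (nat_lit 65630) (nat_lit 14) (.e (nat_lit 401459) (nat_lit 13) (.e (nat_lit 483344) (nat_lit 17) (.e (nat_lit 6712) (nat_lit 360) (.e (nat_lit 163850) (nat_lit 0) (.e (nat_lit 4607) (nat_lit 269) .nil))))))) (.g (nat_lit 5) .nil .nil))) 
(.lf (nat_lit 27114) (.g (nat_lit 3245) (.e (nat_lit 1196) (nat_lit 88) (.e (nat_lit 65630) (nat_lit 14) (.e (nat_lit 401459) (nat_lit 13) (.e (nat_lit 483410) (nat_lit 27) (.e (nat_lit 401420) (nat_lit 1) .nil))))) .nil)))) (.nd (nat_lit 5) (.nd (nat_lit 6) 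
(.lf (nat_lit 27034) (.g (nat_lit 3278) (.e (nat_lit 1196) (nat_lit 88) (.e (nat_lit 65630) (nat_lit 14) (.e (nat_lit 401459) (nat_lit 13) (.e (nat_lit 483344) (nat_lit 17) (.e (nat_lit 6436) (nat_lit 343) .nil))))) .nil)) 
(.lf (nat_lit 27098) (.g (nat_lit 2194) (.e (nat_lit 1196) (nat_lit 88) (.e (nat_lit 65630) (nat_lit 14) (.e (nat_lit 401459) (nat_lit 13) (.e (nat_lit 483395) (nat_lit 24) .nil)))) .nil))) (.nd (nat_lit 6) 
(.lf (nat_lit 27066) (.g (nat_lit 2812) (.e (nat_lit 1196) (nat_lit 88) (.e (nat_lit 65630) (nat_lit 14) (.e (nat_lit 401459) (nat_lit 13) (.e (nat_lit 483350) (nat_lit 17) (.e (nat_lit 6113) (nat_lit 332) .nil))))) .nil)) 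
(.lf (nat_lit 27130) (.g (nat_lit 2941) (.e (nat_lit 1196) (nat_lit 88) (.e (nat_lit 65630) (nat_lit 14) (.e (nat_lit 401459) (nat_lit 13) (.e (nat_lit 483411) (nat_lit 27) (.e (nat_lit 401414) (nat_lit 0) (.e (nat_lit 2425) (nat_lit 157) (.e (nat_lit 4616) (nat_lit 269) .nil))))))) (.g (nat_lit 4) .nil .nil))))))) (.nd (nat_lit 3) (.nd (nat_lit 4) (.nd (nat_lit 5) (.nd (nat_lit 6) 
(.lf (nat_lit 27014) (.g (nat_lit 2187) (.e (nat_lit 1196) (nat_lit 88) (.e (nat_lit 65630) (nat_lit 14) (.e (nat_lit 401454) (nat_lit 12) (.e (nat_lit 475212) (nat_lit 42) .nil)))) .nil)) 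
(.lf (nat_lit 27078) (.g (nat_lit 5147) (.e (nat_lit 1196) (nat_lit 88) (.e (nat_lit 65630) (nat_lit 14) (.e (nat_lit 401459) (nat_lit 13) (.e (nat_lit 483372) (nat_lit 21) (.e (nat_lit 319516) (nat_lit 11) (.e (nat_lit 8484) (nat_lit 168) .nil)))))) (.g (nat_lit 5) .nil .nil)))) (.nd (nat_lit 6) 
(.lf (nat_lit 27046) (.g (nat_lit 4550) (.e (nat_lit 1196) (nat_lit 88) (.e (nat_lit 65630) (nat_lit 14) (.e (nat_lit 401459) (nat_lit 13) (.e (nat_lit 483344) (nat_lit 17) (.e (nat_lit 6712) (nat_lit 360) (.e (nat_lit 163849) (nat_lit 0) (.e (nat_lit 4598) (nat_lit 269) .nil))))))) (.g (nat_lit 6) .nil .nil))) 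
(.lf (nat_lit 27110) (.g (nat_lit 2089) (.e (nat_lit 1196) (nat_lit 88) (.e (nat_lit 65630) (nat_lit 14) (.e (nat_lit 401459) (nat_lit 13) (.e (nat_lit 483410) (nat_lit 27) .nil)))) .nil)))) (.nd (nat_lit 5) (.nd (nat_lit 6) 
(.lf (nat_lit 27030) (.g (nat_lit 1446) (.e (nat_lit 1196) (nat_lit 88) (.e (nat_lit 65630) (nat_lit 14) (.e (nat_lit 401458) (nat_lit 13) (.e (nat_lit 483396) (nat_lit 24) .nil)))) .nil)) 
(.lf (nat_lit 27094) (.g (nat_lit 1986) (.e (nat_lit 1196) (nat_lit 88) (.e (nat_lit 65630) (nat_lit 14) (.e (nat_lit 401459) (nat_lit 13) (.e (nat_lit 491264) (nat_lit 23) .nil)))) .nil))) (.nd (nat_lit 6) 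
(.lf (nat_lit 27062) (.g (nat_lit 4681) (.e (nat_lit 1196) (nat_lit 88) (.e (nat_lit 65630) (nat_lit 14) (.e (nat_lit 401459) (nat_lit 13) (.e (nat_lit 483344) (nat_lit 17) (.e (nat_lit 6714) (nat_lit 360) (.e (nat_lit 163850) (nat_lit 0) (.e (nat_lit 4607) (nat_lit 269) .nil))))))) (.g (nat_lit 7) .nil .nil))) 
(.lf (nat_lit 27126) (.g (nat_lit 2927) (.e (nat_lit 1196) (nat_lit 88) (.e (nat_lit 65630) (nat_lit 14) (.e (nat_lit 401459) (nat_lit 13) (.e (nat_lit 483411) (nat_lit 27) (.e (nat_lit 401414) (nat_lit 0) (.e (nat_lit 2424) (nat_lit 157) (.e (nat_lit 4616) (nat_lit 269) .nil))))))) (.g (nat_lit 4) .nil .nil)))))) (.nd (nat_lit 4) (.nd (nat_lit 5) (.nd (nat_lit 6) 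
(.lf (nat_lit 27022) (.g (nat_lit 2690) (.e (nat_lit 1196) (nat_lit 88) (.e (nat_lit 65630) (nat_lit 14) (.e (nat_lit 401457) (nat_lit 13) (.e (nat_lit 483413) (nat_lit 27) (.e (nat_lit 401420) (nat_lit 1) (.e (nat_lit 164422) (nat_lit 272) .nil)))))) (.g (nat_lit 4) .nil .nil))) 
(.lf (nat_lit 27086) (.g (nat_lit 4048) (.e (nat_lit 1196) (nat_lit 88) (.e (nat_lit 65630) (nat_lit 14) (.e (nat_lit 401459) (nat_lit 13) (.e (nat_lit 483380) (nat_lit 23) (.e (nat_lit 336310) (nat_lit 16) (.e (nat_lit 164253) (nat_lit 209) .nil)))))) (.g (nat_lit 6) .nil .nil)))) (.nd (nat_lit 6) 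
(.lf (nat_lit 27054) (.g (nat_lit 3594) (.e (nat_lit 1196) (nat_lit 88) (.e (nat_lit 65630) (nat_lit 14) (.e (nat_lit 401459) (nat_lit 13) (.e (nat_lit 483344) (nat_lit 17) (.e (nat_lit 6714) (nat_lit 360) (.e (nat_lit 163841) (nat_lit 0) (.e (nat_lit 4588) (nat_lit 269) .nil))))))) (.g (nat_lit 5) .nil .nil))) 
(.lf (nat_lit 27118) (.g (nat_lit 3580) (.e (nat_lit 1196) (nat_lit 88) (.e (nat_lit 65630) (nat_lit 14) (.e (nat_lit 401459) (nat_lit 13) (.e (nat_lit 483410) (nat_lit 27) (.e (nat_lit 401422) (nat_lit 1) (.e (nat_lit 164424) (nat_lit 272) .nil)))))) (.g (nat_lit 5) .nil .nil))))) (.nd (nat_lit 5) (.nd (nat_lit 6) 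
(.lf (nat_lit 27038) (.g (nat_lit 3082) (.e (nat_lit 1196) (nat_lit 88) (.e (nat_lit 65630) (nat_lit 14) (.e (nat_lit 401459) (nat_lit 13) (.e (nat_lit 483344) (nat_lit 17) (.e (nat_lit 6514) (nat_lit 346) .nil))))) .nil)) 
(.lf (nat_lit 27102) (.g (nat_lit 2970) (.e (nat_lit 1196) (nat_lit 88) (.e (nat_lit 65630) (nat_lit 14) (.e (nat_lit 401459) (nat_lit 13) (.e (nat_lit 483397) (nat_lit 25) .nil)))) .nil))) (.nd (nat_lit 6) 
(.lf (nat_lit 27070) (.g (nat_lit 3709) (.e (nat_lit 1196) (nat_lit 88) (.e (nat_lit 65630) (nat_lit 14) (.e (nat_lit 401459) (nat_lit 13) (.e (nat_lit 483371) (nat_lit 21) (.e (nat_lit 319516) (nat_lit 11) (.e (nat_lit 8484) (nat_lit 168) .nil)))))) (.g (nat_lit 0) .nil .nil))) 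
(.lf (nat_lit 27134) (.g (nat_lit 3448) (.e (nat_lit 1196) (nat_lit 88) (.e (nat_lit 65630) (nat_lit 14) (.e (nat_lit 401459) (nat_lit 13) (.e (nat_lit 483411) (nat_lit 27) (.e (nat_lit 401414) (nat_lit 0) (.e (nat_lit 2438) (nat_lit 157) (.e (nat_lit 4561) (nat_lit 269) .nil))))))) (.g (nat_lit 5) .nil .nil))))))))) 
(.nd (nat_lit 1) (.nd (nat_lit 2) (.nd (nat_lit 3) (.nd (nat_lit 4) (.nd (nat_lit 5) 
(.nd (nat_lit 6) 
(.lf (nat_lit 27009) (.g (nat_lit 2484) (.e (nat_lit 1196) (nat_lit 88) (.e (nat_lit 65630) (nat_lit 14) (.e (nat_lit 401438) (nat_lit 9) (.e (nat_lit 426546) (nat_lit 30) (.e (nat_lit 360452) (nat_lit 0) (.e (nat_lit 5907) (nat_lit 320) .nil)))))) (.g (nat_lit 5) .nil .nil))) 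
(.lf (nat_lit 27073) (.g (nat_lit 5002) (.e (nat_lit 1196) (nat_lit 88) (.e (nat_lit 65630) (nat_lit 14) (.e (nat_lit 401459) (nat_lit 13) (.e (nat_lit 483372) (nat_lit 21) (.e (nat_lit 319504) (nat_lit 10) .nil))))) .nil))) (.nd (nat_lit 6) 
(.lf (nat_lit 27041) (.g (nat_lit 4261) (.e (nat_lit 1196) (nat_lit 88) (.e (nat_lit 65630) (nat_lit 14) (.e (nat_lit 401459) (nat_lit 13) (.e (nat_lit 483344) (nat_lit 17) (.e (nat_lit 6619) (nat_lit 357) (.e (nat_lit 2612) (nat_lit 163) (.e (nat_lit 164423) (nat_lit 272) .nil))))))) (.g (nat_lit 7) .nil .nil))) 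
(.lf (nat_lit 27105) (.g (nat_lit 2714) (.e (nat_lit 1196) (nat_lit 88) (.e (nat_lit 65630) (nat_lit 14) (.e (nat_lit 401459) (nat_lit 13) (.e (nat_lit 483400) (nat_lit 25) .nil)))) .nil)))) (.nd (nat_lit 5) (.nd (nat_lit 6) 
(.lf (nat_lit 27025) (.g (nat_lit 2729) (.e (nat_lit 1196) (nat_lit 88) (.e (nat_lit 65630) (nat_lit 14) (.e (nat_lit 401457) (nat_lit 13) (.e (nat_lit 483413) (nat_lit 27) (.e (nat_lit 401421) (nat_lit 1) (.e (nat_lit 164424) (nat_lit 272) .nil)))))) (.g (nat_lit 4) .nil .nil))) 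
(.lf (nat_lit 27089) (.g (nat_lit 2122) (.e (nat_lit 1196) (nat_lit 88) (.e (nat_lit 65630) (nat_lit 14) (.e (nat_lit 401459) (nat_lit 13) (.e (nat_lit 483387) (nat_lit 23) .nil)))) .nil))) (.nd (nat_lit 6) 
(.lf (nat_lit 27057) (.g (nat_lit 5201) (.e (nat_lit 1196) (nat_lit 88) (.e (nat_lit 65630) (nat_lit 14) (.e (nat_lit 401459) (nat_lit 13) (.e (nat_lit 483344) (nat_lit 17) (.e (nat_lit 6714) (nat_lit 360) (.e (nat_lit 163843) (nat_lit 0) (.e (nat_lit 4598) (nat_lit 269) .nil))))))) (.g (nat_lit 7) .nil .nil))) 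
(.lf (nat_lit 27121) (.g (nat_lit 2636) (.e (nat_lit 1196) (nat_lit 88) (.e (nat_lit 65630) (nat_lit 14) (.e (nat_lit 401459) (nat_lit 13) (.e (nat_lit 483411) (nat_lit 27) (.e (nat_lit 401408) (nat_lit 0) (.e (nat_lit 2427) (nat_lit 157) (.e (nat_lit 4598) (nat_lit 269) .nil))))))) (.g (nat_lit 4) .nil .nil)))))) (.nd (nat_lit 4) (.nd (nat_lit 5) (.nd (nat_lit 6) 
(.lf (nat_lit 27017) (.g (nat_lit 1641) (.e (nat_lit 1196) (nat_lit 88) (.e (nat_lit 65630) (nat_lit 14) (.e (nat_lit 401456) (nat_lit 13) (.e (nat_lit 483395) (nat_lit 24) .nil)))) .nil)) 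
(.lf (nat_lit 27081) (.g (nat_lit 2269) (.e (nat_lit 1196) (nat_lit 88) (.e (nat_lit 65630) (nat_lit 14) (.e (nat_lit 401459) (nat_lit 13) (.e (nat_lit 483378) (nat_lit 23) .nil)))) .nil))) (.nd (nat_lit 6) 
(.lf (nat_lit 27049) (.g (nat_lit 4725) (.e (nat_lit 1196) (nat_lit 88) (.e (nat_lit 65630) (nat_lit 14) (.e (nat_lit 401459) (nat_lit 13) (.e (nat_lit 483344) (nat_lit 17) (.e (nat_lit 6712) (nat_lit 360) (.e (nat_lit 163850) (nat_lit 0) (.e (nat_lit 4606) (nat_lit 269) .nil))))))) (.g (nat_lit 6) .nil .nil))) 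
(.lf (nat_lit 27113) (.g (nat_lit 3227) (.e (nat_lit 1196) (nat_lit 88) (.e (nat_lit 65630) (nat_lit 14) (.e (nat_lit 401459) (nat_lit 13) (.e (nat_lit 483410) (nat_lit 27) (.e (nat_lit 401418) (nat_lit 0) .nil))))) .nil)))) (.nd (nat_lit 5) (.nd (nat_lit 6) 
(.lf (nat_lit 27033) (.g (nat_lit 3115) (.e (nat_lit 1196) (nat_lit 88) (.e (nat_lit 65630) (nat_lit 14) (.e (nat_lit 401459) (nat_lit 13) (.e (nat_lit 483344) (nat_lit 17) (.e (nat_lit 6203) (nat_lit 332) .nil))))) .nil)) 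
(.lf (nat_lit 27097) (.g (nat_lit 3151) (.e (nat_lit 1196) (nat_lit 88) (.e (nat_lit 65630) (nat_lit 14) (.e (nat_lit 401459) (nat_lit 13) (.e (nat_lit 483394) (nat_lit 24) (.e (nat_lit 344097) (nat_lit 18) (.e (nat_lit 5907) (nat_lit 320) .nil)))))) (.g (nat_lit 4) .nil .nil)))) (.nd (nat_lit 6) 
(.lf (nat_lit 27065) (.g (nat_lit 2063) (.e (nat_lit 1196) (nat_lit 88) (.e (nat_lit 65630) (nat_lit 14) (.e (nat_lit 401459) (nat_lit 13) (.e (nat_lit 483350) (nat_lit 17) .nil)))) .nil)) 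
(.lf (nat_lit 27129) (.g (nat_lit 2908) (.e (nat_lit 1196) (nat_lit 88) (.e (nat_lit 65630) (nat_lit 14) (.e (nat_lit 401459) (nat_lit 13) (.e (nat_lit 483411) (nat_lit 27) (.e (nat_lit 401414) (nat_lit 0) (.e (nat_lit 2425) (nat_lit 157) (.e (nat_lit 4565) (nat_lit 269) .nil))))))) (.g (nat_lit 4) .nil .nil))))))) (.nd (nat_lit 3) (.nd (nat_lit 4) (.nd (nat_lit 5) (.nd (nat_lit 6) 
(.lf (nat_lit 27013) (.g (nat_lit 2851) (.e (nat_lit 1196) (nat_lit 88) (.e (nat_lit 65630) (nat_lit 14) (.e (nat_lit 401454) (nat_lit 12) (.e (nat_lit 475154) (nat_lit 20) .nil)))) .nil)) 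
(.lf (nat_lit 27077) (.g (nat_lit 5895) (.e (nat_lit 1196) (nat_lit 88) (.e (nat_lit 65630) (nat_lit 14) (.e (nat_lit 401459) (nat_lit 13) (.e (nat_lit 483372) (nat_lit 21) (.e (nat_lit 319515) (nat_lit 11) .nil))))) .nil))) (.nd (nat_lit 6) 
(.lf (nat_lit 27045) (.g (nat_lit 4786) (.e (nat_lit 1196) (nat_lit 88) (.e (nat_lit 65630) (nat_lit 14) (.e (nat_lit 401459) (nat_lit 13) (.e (nat_lit 483344) (nat_lit 17) (.e (nat_lit 6712) (nat_lit 360) (.e (nat_lit 163844) (nat_lit 0) (.e (nat_lit 4598) (nat_lit 269) .nil))))))) (.g (nat_lit 6) .nil .nil))) 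
(.lf (nat_lit 27109) (.g (nat_lit 4722) (.e (nat_lit 1196) (nat_lit 88) (.e (nat_lit 65630) (nat_lit 14) (.e (nat_lit 401459) (nat_lit 13) (.e (nat_lit 483403) (nat_lit 26) (.e (nat_lit 385051) (nat_lit 21) .nil))))) .nil)))) (.nd (nat_lit 5) (.nd (nat_lit 6) 
(.lf (nat_lit 27029) (.g (nat_lit 2266) (.e (nat_lit 1196) (nat_lit 88) (.e (nat_lit 65630) (nat_lit 14) (.e (nat_lit 401458) (nat_lit 13) (.e (nat_lit 483395) (nat_lit 24) (.e (nat_lit 344090) (nat_lit 18) (.e (nat_lit 5896) (nat_lit 320) .nil)))))) (.g (nat_lit 4) .nil .nil))) 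
(.lf (nat_lit 27093) (.g (nat_lit 2729) (.e (nat_lit 1196) (nat_lit 88) (.e (nat_lit 65630) (nat_lit 14) (.e (nat_lit 401459) (nat_lit 13) (.e (nat_lit 483393) (nat_lit 23) .nil)))) .nil))) (.nd (nat_lit 6) 
(.lf (nat_lit 27061) (.g (nat_lit 5197) (.e (nat_lit 1196) (nat_lit 88) (.e (nat_lit 65630) (nat_lit 14) (.e (nat_lit 401459) (nat_lit 13) (.e (nat_lit 483344) (nat_lit 17) (.e (nat_lit 6714) (nat_lit 360) (.e (nat_lit 163850) (nat_lit 0) (.e (nat_lit 4606) (nat_lit 269) .nil))))))) (.g (nat_lit 0) .nil .nil))) 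
(.lf (nat_lit 27125) (.g (nat_lit 2703) (.e (nat_lit 1196) (nat_lit 88) (.e (nat_lit 65630) (nat_lit 14) (.e (nat_lit 401459) (nat_lit 13) (.e (nat_lit 483411) (nat_lit 27) (.e (nat_lit 401414) (nat_lit 0) (.e (nat_lit 2424) (nat_lit 157) (.e (nat_lit 4565) (nat_lit 269) .nil))))))) (.g (nat_lit 4) .nil .nil)))))) (.nd (nat_lit 4) (.nd (nat_lit 5) (.nd (nat_lit 6) 
(.lf (nat_lit 27021) (.g (nat_lit 2579) (.e (nat_lit 1196) (nat_lit 88) (.e (nat_lit 65630) (nat_lit 14) (.e (nat_lit 401457) (nat_lit 13) (.e (nat_lit 483413) (nat_lit 27) (.e (nat_lit 401420) (nat_lit 1) .nil))))) .nil)) 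
(.lf (nat_lit 27085) (.g (nat_lit 3667) (.e (nat_lit 1196) (nat_lit 88) (.e (nat_lit 65630) (nat_lit 14) (.e (nat_lit 401459) (nat_lit 13) (.e (nat_lit 483380) (nat_lit 23) (.e (nat_lit 336310) (nat_lit 16) (.e (nat_lit 164252) (nat_lit 209) .nil)))))) (.g (nat_lit 4) .nil .nil)))) (.nd (nat_lit 6) 
(.lf (nat_lit 27053) (.g (nat_lit 2874) (.e (nat_lit 1196) (nat_lit 88) (.e (nat_lit 65630) (nat_lit 14) (.e (nat_lit 401459) (nat_lit 13) (.e (nat_lit 483344) (nat_lit 17) (.e (nat_lit 6714) (nat_lit 360) .nil))))) .nil)) 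
(.lf (nat_lit 27117) (.g (nat_lit 3716) (.e (nat_lit 1196) (nat_lit 88) (.e (nat_lit 65630) (nat_lit 14) (.e (nat_lit 401459) (nat_lit 13) (.e (nat_lit 483410) (nat_lit 27) (.e (nat_lit 401422) (nat_lit 1) (.e (nat_lit 164423) (nat_lit 272) .nil)))))) (.g (nat_lit 5) .nil .nil))))) (.nd (nat_lit 5) (.nd (nat_lit 6) 
(.lf (nat_lit 27037) (.g (nat_lit 2990) (.e (nat_lit 1196) (nat_lit 88) (.e (nat_lit 65630) (nat_lit 14) (.e (nat_lit 401459) (nat_lit 13) (.e (nat_lit 483344) (nat_lit 17) (.e (nat_lit 6513) (nat_lit 346) (.e (nat_lit 57354) (nat_lit 0) (.e (nat_lit 5905) (nat_lit 320) .nil))))))) (.g (nat_lit 4) .nil .nil))) 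
(.lf (nat_lit 27101) (.g (nat_lit 2257) (.e (nat_lit 1196) (nat_lit 88) (.e (nat_lit 65630) (nat_lit 14) (.e (nat_lit 401459) (nat_lit 13) (.e (nat_lit 483396) (nat_lit 24) .nil)))) .nil))) (.nd (nat_lit 6) 
(.lf (nat_lit 27069) (.g (nat_lit 2619) (.e (nat_lit 1196) (nat_lit 88) (.e (nat_lit 65630) (nat_lit 14) (.e (nat_lit 401459) (nat_lit 13) (.e (nat_lit 483364) (nat_lit 18) .nil)))) .nil)) 
(.lf (nat_lit 27133) (.g (nat_lit 3483) (.e (nat_lit 1196) (nat_lit 88) (.e (nat_lit 65630) (nat_lit 14) (.e (nat_lit 401459) (nat_lit 13) (.e (nat_lit 483411) (nat_lit 27) (.e (nat_lit 401414) (nat_lit 0) (.e (nat_lit 2426) (nat_lit 157) (.e (nat_lit 4600) (nat_lit 269) .nil))))))) (.g (nat_lit 5) .nil .nil)))))))) 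
(.nd (nat_lit 2) (.nd (nat_lit 3) (.nd (nat_lit 4) (.nd (nat_lit 5) (.nd (nat_lit 6) 
(.lf (nat_lit 27011) (.g (nat_lit 1834) (.e (nat_lit 1196) (nat_lit 88) (.e (nat_lit 65630) (nat_lit 14) (.e (nat_lit 401454) (nat_lit 12) (.e (nat_lit 483072) (nat_lit 1) .nil)))) .nil)) 
(.lf (nat_lit 27075) (.g (nat_lit 4610) (.e (nat_lit 1196) (nat_lit 88) (.e (nat_lit 65630) (nat_lit 14) (.e (nat_lit 401459) (nat_lit 13) (.e (nat_lit 483372) (nat_lit 21) (.e (nat_lit 319514) (nat_lit 11) .nil))))) .nil))) (.nd (nat_lit 6) 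
(.lf (nat_lit 27043) (.g (nat_lit 3206) (.e (nat_lit 1196) (nat_lit 88) (.e (nat_lit 65630) (nat_lit 14) (.e (nat_lit 401459) (nat_lit 13) (.e (nat_lit 483344) (nat_lit 17) (.e (nat_lit 6712) (nat_lit 360) (.e (nat_lit 163841) (nat_lit 0) (.e (nat_lit 4588) (nat_lit 269) .nil))))))) (.g (nat_lit 4) .nil .nil))) 
(.lf (nat_lit 27107) (.g (nat_lit 4606) (.e (nat_lit 1196) (nat_lit 88) (.e (nat_lit 65630) (nat_lit 14) (.e (nat_lit 401459) (nat_lit 13) (.e (nat_lit 483403) (nat_lit 26) (.e (nat_lit 385047) (nat_lit 21) .nil))))) .nil)))) (.nd (nat_lit 5) (.nd (nat_lit 6) 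
(.lf (nat_lit 27027) (.g (nat_lit 558) (.e (nat_lit 1196) (nat_lit 88) (.e (nat_lit 65630) (nat_lit 14) (.e (nat_lit 401458) (nat_lit 13) .nil))) .nil)) 
(.lf (nat_lit 27091) (.g (nat_lit 2776) (.e (nat_lit 1196) (nat_lit 88) (.e (nat_lit 65630) (nat_lit 14) (.e (nat_lit 401459) (nat_lit 13) (.e (nat_lit 483391) (nat_lit 23) .nil)))) .nil))) (.nd (nat_lit 6) 
(.lf (nat_lit 27059) (.g (nat_lit 3073) (.e (nat_lit 1196) (nat_lit 88) (.e (nat_lit 65630) (nat_lit 14) (.e (nat_lit 401459) (nat_lit 13) (.e (nat_lit 483344) (nat_lit 17) (.e (nat_lit 6714) (nat_lit 360) (.e (nat_lit 163843) (nat_lit 0) (.e (nat_lit 4622) (nat_lit 269) .nil))))))) (.g (nat_lit 4) .nil .nil))) 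
(.lf (nat_lit 27123) (.g (nat_lit 2810) (.e (nat_lit 1196) (nat_lit 88) (.e (nat_lit 65630) (nat_lit 14) (.e (nat_lit 401459) (nat_lit 13) (.e (nat_lit 483411) (nat_lit 27) (.e (nat_lit 401414) (nat_lit 0) (.e (nat_lit 2422) (nat_lit 157) (.e (nat_lit 4588) (nat_lit 269) .nil))))))) (.g (nat_lit 4) .nil .nil)))))) (.nd (nat_lit 4) (.nd (nat_lit 5) (.nd (nat_lit 6) 
(.lf (nat_lit 27019) (.g (nat_lit 2695) (.e (nat_lit 1196) (nat_lit 88) (.e (nat_lit 65630) (nat_lit 14) (.e (nat_lit 401457) (nat_lit 13) (.e (nat_lit 483346) (nat_lit 17) (.e (nat_lit 6203) (nat_lit 332) .nil))))) .nil)) 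
(.lf (nat_lit 27083) (.g (nat_lit 3580) (.e (nat_lit 1196) (nat_lit 88) (.e (nat_lit 65630) (nat_lit 14) (.e (nat_lit 401459) (nat_lit 13) (.e (nat_lit 483380) (nat_lit 23) (.e (nat_lit 336309) (nat_lit 16) .nil))))) .nil))) (.nd (nat_lit 6) 
(.lf (nat_lit 27051) (.g (nat_lit 3361) (.e (nat_lit 1196) (nat_lit 88) (.e (nat_lit 65630) (nat_lit 14) (.e (nat_lit 401459) (nat_lit 13) (.e (nat_lit 483344) (nat_lit 17) (.e (nat_lit 6712) (nat_lit 360) (.e (nat_lit 163851) (nat_lit 0) (.e (nat_lit 4574) (nat_lit 269) .nil))))))) (.g (nat_lit 4) .nil .nil))) 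
(.lf (nat_lit 27115) (.g (nat_lit 3405) (.e (nat_lit 1196) (nat_lit 88) (.e (nat_lit 65630) (nat_lit 14) (.e (nat_lit 401459) (nat_lit 13) (.e (nat_lit 483410) (nat_lit 27) (.e (nat_lit 401422) (nat_lit 1) (.e (nat_lit 164421) (nat_lit 272) .nil)))))) (.g (nat_lit 4) .nil .nil))))) (.nd (nat_lit 5) (.nd (nat_lit 6) 
(.lf (nat_lit 27035) (.g (nat_lit 3378) (.e (nat_lit 1196) (nat_lit 88) (.e (nat_lit 65630) (nat_lit 14) (.e (nat_lit 401459) (nat_lit 13) (.e (nat_lit 483344) (nat_lit 17) (.e (nat_lit 6479) (nat_lit 343) .nil))))) .nil)) 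
(.lf (nat_lit 27099) (.g (nat_lit 2926) (.e (nat_lit 1196) (nat_lit 88) (.e (nat_lit 65630) (nat_lit 14) (.e (nat_lit 401459) (nat_lit 13) (.e (nat_lit 483395) (nat_lit 24) (.e (nat_lit 344096) (nat_lit 18) .nil))))) .nil))) (.nd (nat_lit 6) 
(.lf (nat_lit 27067) (.g (nat_lit 3186) (.e (nat_lit 1196) (nat_lit 88) (.e (nat_lit 65630) (nat_lit 14) (.e (nat_lit 401459) (nat_lit 13) (.e (nat_lit 483350) (nat_lit 17) (.e (nat_lit 7936) (nat_lit 343) .nil))))) .nil)) 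
(.lf (nat_lit 27131) (.g (nat_lit 3036) (.e (nat_lit 1196) (nat_lit 88) (.e (nat_lit 65630) (nat_lit 14) (.e (nat_lit 401459) (nat_lit 13) (.e (nat_lit 483411) (nat_lit 27) (.e (nat_lit 401414) (nat_lit 0) (.e (nat_lit 2426) (nat_lit 157) (.e (nat_lit 4573) (nat_lit 269) .nil))))))) (.g (nat_lit 4) .nil .nil))))))) (.nd (nat_lit 3) (.nd (nat_lit 4) (.nd (nat_lit 5) (.nd (nat_lit 6) 
(.lf (nat_lit 27015) (.g (nat_lit 3029) (.e (nat_lit 1196) (nat_lit 88) (.e (nat_lit 65630) (nat_lit 14) (.e (nat_lit 401454) (nat_lit 12) (.e (nat_lit 475213) (nat_lit 42) .nil)))) .nil)) 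
(.lf (nat_lit 27079) (.g (nat_lit 2722) (.e (nat_lit 1196) (nat_lit 88) (.e (nat_lit 65630) (nat_lit 14) (.e (nat_lit 401459) (nat_lit 13) (.e (nat_lit 483374) (nat_lit 22) .nil)))) .nil))) (.nd (nat_lit 6) 
(.lf (nat_lit 27047) (.g (nat_lit 3385) (.e (nat_lit 1196) (nat_lit 88) (.e (nat_lit 65630) (nat_lit 14) (.e (nat_lit 401459) (nat_lit 13) (.e (nat_lit 483344) (nat_lit 17) (.e (nat_lit 6712) (nat_lit 360) (.e (nat_lit 163850) (nat_lit 0) (.e (nat_lit 4574) (nat_lit 269) .nil))))))) (.g (nat_lit 4) .nil .nil))) 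
(.lf (nat_lit 27111) (.g (nat_lit 2890) (.e (nat_lit 1196) (nat_lit 88) (.e (nat_lit 65630) (nat_lit 14) (.e (nat_lit 401459) (nat_lit 13) (.e (nat_lit 483410) (nat_lit 27) (.e (nat_lit 401414) (nat_lit 0) .nil))))) .nil)))) (.nd (nat_lit 5) (.nd (nat_lit 6) 
(.lf (nat_lit 27031) (.g (nat_lit 2378) (.e (nat_lit 1196) (nat_lit 88) (.e (nat_lit 65630) (nat_lit 14) (.e (nat_lit 401459) (nat_lit 13) (.e (nat_lit 483343) (nat_lit 17) .nil)))) .nil)) 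
(.lf (nat_lit 27095) (.g (nat_lit 2240) (.e (nat_lit 1196) (nat_lit 88) (.e (nat_lit 65630) (nat_lit 14) (.e (nat_lit 401459) (nat_lit 13) (.e (nat_lit 483394) (nat_lit 24) .nil)))) .nil))) (.nd (nat_lit 6) 
(.lf (nat_lit 27063) (.g (nat_lit 3475) (.e (nat_lit 1196) (nat_lit 88) (.e (nat_lit 65630) (nat_lit 14) (.e (nat_lit 401459) (nat_lit 13) (.e (nat_lit 483344) (nat_lit 17) (.e (nat_lit 6714) (nat_lit 360) (.e (nat_lit 163851) (nat_lit 0) (.e (nat_lit 4574) (nat_lit 269) .nil))))))) (.g (nat_lit 5) .nil .nil))) 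
(.lf (nat_lit 27127) (.g (nat_lit 2805) (.e (nat_lit 1196) (nat_lit 88) (.e (nat_lit 65630) (nat_lit 14) (.e (nat_lit 401459) (nat_lit 13) (.e (nat_lit 483411) (nat_lit 27) (.e (nat_lit 401414) (nat_lit 0) (.e (nat_lit 2425) (nat_lit 157) (.e (nat_lit 4560) (nat_lit 269) .nil))))))) (.g (nat_lit 4) .nil .nil)))))) (.nd (nat_lit 4) (.nd (nat_lit 5) (.nd (nat_lit 6) 
(.lf (nat_lit 27023) (.g (nat_lit 2704) (.e (nat_lit 1196) (nat_lit 88) (.e (nat_lit 65630) (nat_lit 14) (.e (nat_lit 401457) (nat_lit 13) (.e (nat_lit 483413) (nat_lit 27) (.e (nat_lit 401420) (nat_lit 1) (.e (nat_lit 164424) (nat_lit 272) .nil)))))) (.g (nat_lit 4) .nil .nil))) 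
(.lf (nat_lit 27087) (.g (nat_lit 2849) (.e (nat_lit 1196) (nat_lit 88) (.e (nat_lit 65630) (nat_lit 14) (.e (nat_lit 401459) (nat_lit 13) (.e (nat_lit 483383) (nat_lit 23) .nil)))) .nil))) (.nd (nat_lit 6) 
(.lf (nat_lit 27055) (.g (nat_lit 3716) (.e (nat_lit 1196) (nat_lit 88) (.e (nat_lit 65630) (nat_lit 14) (.e (nat_lit 401459) (nat_lit 13) (.e (nat_lit 483344) (nat_lit 17) (.e (nat_lit 6714) (nat_lit 360) (.e (nat_lit 163841) (nat_lit 0) (.e (nat_lit 4598) (nat_lit 269) .nil))))))) (.g (nat_lit 5) .nil .nil))) 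
(.lf (nat_lit 27119) (.g (nat_lit 1720) (.e (nat_lit 1196) (nat_lit 88) (.e (nat_lit 65630) (nat_lit 14) (.e (nat_lit 401459) (nat_lit 13) (.e (nat_lit 483411) (nat_lit 27) .nil)))) .nil)))) (.nd (nat_lit 5) (.nd (nat_lit 6) 
(.lf (nat_lit 27039) (.g (nat_lit 3536) (.e (nat_lit 1196) (nat_lit 88) (.e (nat_lit 65630) (nat_lit 14) (.e (nat_lit 401459) (nat_lit 13) (.e (nat_lit 483344) (nat_lit 17) (.e (nat_lit 6514) (nat_lit 346) (.e (nat_lit 57354) (nat_lit 0) (.e (nat_lit 5905) (nat_lit 320) .nil))))))) (.g (nat_lit 4) .nil .nil))) 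
(.lf (nat_lit 27103) (.g (nat_lit 2534) (.e (nat_lit 1196) (nat_lit 88) (.e (nat_lit 65630) (nat_lit 14) (.e (nat_lit 401459) (nat_lit 13) (.e (nat_lit 483398) (nat_lit 25) .nil)))) .nil))) (.nd (nat_lit 6) 
(.lf (nat_lit 27071) (.g (nat_lit 1995) (.e (nat_lit 1196) (nat_lit 88) (.e (nat_lit 65630) (nat_lit 14) (.e (nat_lit 401459) (nat_lit 13) (.e (nat_lit 483372) (nat_lit 21) .nil)))) .nil)) 
(.lf (nat_lit 27135) (.g (nat_lit 3335) (.e (nat_lit 1196) (nat_lit 88) (.e (nat_lit 65630) (nat_lit 14) (.e (nat_lit 401459) (nat_lit 13) (.e (nat_lit 483411) (nat_lit 27) (.e (nat_lit 401414) (nat_lit 0) (.e (nat_lit 2438) (nat_lit 157) (.e (nat_lit 4602) (nat_lit 269) .nil))))))) (.g (nat_lit 5) .nil .nil))))))))))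

noncomputable def tv376 : DT := (.nd (nat_lit 0) (.nd (nat_lit 1) (.nd (nat_lit 2) (.nd (nat_lit 3) (.nd (nat_lit 4) (.nd (nat_lit 5) (.nd (nat_lit 6) 
(.lf (nat_lit 27136) (.g (nat_lit 3929) (.e (nat_lit 1196) (nat_lit 88) (.e (nat_lit 65630) (nat_lit 14) (.e (nat_lit 401459) (nat_lit 13) (.e (nat_lit 483411) (nat_lit 27) (.e (nat_lit 401414) (nat_lit 0) (.e (nat_lit 2438) (nat_lit 157) (.e (nat_lit 4604) (nat_lit 269) .nil))))))) (.g (nat_lit 6) .nil .nil))) 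
(.lf (nat_lit 27200) (.g (nat_lit 1794) (.e (nat_lit 1197) (nat_lit 88) (.e (nat_lit 65619) (nat_lit 10) (.e (nat_lit 344117) (nat_lit 21) (.e (nat_lit 516185) (nat_lit 16) (.e (nat_lit 491560) (nat_lit 10) .nil))))) .nil))) (.nd (nat_lit 6) 
(.lf (nat_lit 27168) (.g (nat_lit 1518) (.e (nat_lit 1197) (nat_lit 88) (.e (nat_lit 65571) (nat_lit 3) (.e (nat_lit 98370) (nat_lit 28) (.e (nat_lit 450304) (nat_lit 3) .nil)))) .nil)) 
(.lf (nat_lit 27232) (.g (nat_lit 1608) (.e (nat_lit 1197) (nat_lit 88) (.e (nat_lit 65628) (nat_lit 14) (.e (nat_lit 401458) (nat_lit 13) (.e (nat_lit 483395) (nat_lit 24) .nil)))) .nil)))) (.nd (nat_lit 5) (.nd (nat_lit 6) 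
(.lf (nat_lit 27152) (.g (nat_lit 3075) (.e (nat_lit 1196) (nat_lit 88) (.e (nat_lit 65630) (nat_lit 14) (.e (nat_lit 401459) (nat_lit 13) (.e (nat_lit 483411) (nat_lit 27) (.e (nat_lit 401420) (nat_lit 1) (.e (nat_lit 164424) (nat_lit 272) .nil)))))) (.g (nat_lit 6) .nil .nil))) 
(.lf (nat_lit 27216) (.g (nat_lit 2127) (.e (nat_lit 1197) (nat_lit 88) (.e (nat_lit 65624) (nat_lit 12) (.e (nat_lit 385106) (nat_lit 50) (.e (nat_lit 786481) (nat_lit 30) (.e (nat_lit 360449) (nat_lit 0) .nil))))) .nil))) (.nd (nat_lit 6) 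
(.lf (nat_lit 27184) (.g (nat_lit 3232) (.e (nat_lit 1197) (nat_lit 88) (.e (nat_lit 65610) (nat_lit 10) (.e (nat_lit 344117) (nat_lit 21) (.e (nat_lit 516099) (nat_lit 0) .nil)))) .nil)) 
(.lf (nat_lit 27248) (.g (nat_lit 2086) (.e (nat_lit 1197) (nat_lit 88) (.e (nat_lit 65629) (nat_lit 14) (.e (nat_lit 401459) (nat_lit 13) (.e (nat_lit 483398) (nat_lit 25) .nil)))) .nil))))) (.nd (nat_lit 4) (.nd (nat_lit 5) (.nd (nat_lit 6) 
(.lf (nat_lit 27144) (.g (nat_lit 3553) (.e (nat_lit 1196) (nat_lit 88) (.e (nat_lit 65630) (nat_lit 14) (.e (nat_lit 401459) (nat_lit 13) (.e (nat_lit 483411) (nat_lit 27) (.e (nat_lit 401414) (nat_lit 0) (.e (nat_lit 2478) (nat_lit 157) (.e (nat_lit 4607) (nat_lit 269) .nil))))))) (.g (nat_lit 5) .nil .nil))) 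
(.lf (nat_lit 27208) (.g (nat_lit 582) (.e (nat_lit 1197) (nat_lit 88) (.e (nat_lit 65624) (nat_lit 12) (.e (nat_lit 385092) (nat_lit 49) .nil))) .nil))) (.nd (nat_lit 6) 
(.lf (nat_lit 27176) (.g (nat_lit 1753) (.e (nat_lit 1197) (nat_lit 88) (.e (nat_lit 65583) (nat_lit 7) (.e (nat_lit 319530) (nat_lit 16) (.e (nat_lit 286727) (nat_lit 0) (.e (nat_lit 7936) (nat_lit 362) .nil))))) .nil)) 
(.lf (nat_lit 27240) (.g (nat_lit 2151) (.e (nat_lit 1197) (nat_lit 88) (.e (nat_lit 65628) (nat_lit 14) (.e (nat_lit 401459) (nat_lit 13) (.e (nat_lit 483395) (nat_lit 24) (.e (nat_lit 344096) (nat_lit 18) .nil))))) .nil)))) (.nd (nat_lit 5) (.nd (nat_lit 6) 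
(.lf (nat_lit 27160) (.g (nat_lit 4085) (.e (nat_lit 1197) (nat_lit 88) (.e (nat_lit 65566) (nat_lit 2) (.e (nat_lit 90170) (nat_lit 13) (.e (nat_lit 172106) (nat_lit 10) (.e (nat_lit 434231) (nat_lit 23) (.e (nat_lit 532500) (nat_lit 1) (.e (nat_lit 65280) (nat_lit 221) .nil))))))) (.g (nat_lit 6) .nil .nil))) 
(.lf (nat_lit 27224) (.g (nat_lit 659) (.e (nat_lit 1197) (nat_lit 88) (.e (nat_lit 65628) (nat_lit 14) (.e (nat_lit 401428) (nat_lit 3) .nil))) .nil))) (.nd (nat_lit 6) 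
(.lf (nat_lit 27192) (.g (nat_lit 3596) (.e (nat_lit 1197) (nat_lit 88) (.e (nat_lit 65610) (nat_lit 10) (.e (nat_lit 344117) (nat_lit 21) (.e (nat_lit 516195) (nat_lit 26) (.e (nat_lit 335995) (nat_lit 1) (.e (nat_lit 57847) (nat_lit 252) (.e (nat_lit 57365) (nat_lit 1) (.e (nat_lit 57753) (nat_lit 209) .nil)))))))) (.g (nat_lit 6) .nil .nil))) 
(.lf (nat_lit 27256) (.g (nat_lit 1029) (.e (nat_lit 1197) (nat_lit 88) (.e (nat_lit 65630) (nat_lit 14) (.e (nat_lit 401410) (nat_lit 0) .nil))) .nil)))))) (.nd (nat_lit 3) (.nd (nat_lit 4) (.nd (nat_lit 5) (.nd (nat_lit 6) 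
(.lf (nat_lit 27140) (.g (nat_lit 2762) (.e (nat_lit 1196) (nat_lit 88) (.e (nat_lit 65630) (nat_lit 14) (.e (nat_lit 401459) (nat_lit 13) (.e (nat_lit 483411) (nat_lit 27) (.e (nat_lit 401414) (nat_lit 0) (.e (nat_lit 2477) (nat_lit 157) (.e (nat_lit 4602) (nat_lit 269) .nil))))))) (.g (nat_lit 4) .nil .nil))) 
(.lf (nat_lit 27204) (.g (nat_lit 1884) (.e (nat_lit 1197) (nat_lit 88) (.e (nat_lit 65622) (nat_lit 12) (.e (nat_lit 385105) (nat_lit 50) (.e (nat_lit 786483) (nat_lit 30) (.e (nat_lit 360451) (nat_lit 0) .nil))))) .nil))) (.nd (nat_lit 6) 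
(.lf (nat_lit 27172) (.g (nat_lit 2922) (.e (nat_lit 1197) (nat_lit 88) (.e (nat_lit 65571) (nat_lit 3) (.e (nat_lit 98373) (nat_lit 29) (.e (nat_lit 450588) (nat_lit 10) (.e (nat_lit 573475) (nat_lit 12) .nil))))) .nil)) 
(.lf (nat_lit 27236) (.g (nat_lit 2138) (.e (nat_lit 1197) (nat_lit 88) (.e (nat_lit 65628) (nat_lit 14) (.e (nat_lit 401459) (nat_lit 13) (.e (nat_lit 483380) (nat_lit 23) .nil)))) .nil)))) (.nd (nat_lit 5) (.nd (nat_lit 6) 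
(.lf (nat_lit 27156) (.g (nat_lit 2707) (.e (nat_lit 1196) (nat_lit 88) (.e (nat_lit 65630) (nat_lit 14) (.e (nat_lit 401459) (nat_lit 13) (.e (nat_lit 483411) (nat_lit 27) (.e (nat_lit 401422) (nat_lit 1) .nil))))) .nil)) 
(.lf (nat_lit 27220) (.g (nat_lit 926) (.e (nat_lit 1197) (nat_lit 88) (.e (nat_lit 65626) (nat_lit 13) (.e (nat_lit 393234) (nat_lit 17) (.e (nat_lit 7591) (nat_lit 407) .nil)))) .nil))) (.nd (nat_lit 6) 
(.lf (nat_lit 27188) (.g (nat_lit 2262) (.e (nat_lit 1197) (nat_lit 88) (.e (nat_lit 65610) (nat_lit 10) (.e (nat_lit 344117) (nat_lit 21) (.e (nat_lit 516185) (nat_lit 16) .nil)))) .nil)) 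
(.lf (nat_lit 27252) (.g (nat_lit 3353) (.e (nat_lit 1197) (nat_lit 88) (.e (nat_lit 65629) (nat_lit 14) (.e (nat_lit 401459) (nat_lit 13) (.e (nat_lit 483403) (nat_lit 26) (.e (nat_lit 385049) (nat_lit 21) (.e (nat_lit 7423) (nat_lit 396) .nil)))))) (.g (nat_lit 5) .nil .nil)))))) (.nd (nat_lit 4) (.nd (nat_lit 5) (.nd (nat_lit 6) 
(.lf (nat_lit 27148) (.g (nat_lit 3183) (.e (nat_lit 1196) (nat_lit 88) (.e (nat_lit 65630) (nat_lit 14) (.e (nat_lit 401459) (nat_lit 13) (.e (nat_lit 483411) (nat_lit 27) (.e (nat_lit 401418) (nat_lit 0) (.e (nat_lit 2453) (nat_lit 157) (.e (nat_lit 4606) (nat_lit 269) .nil))))))) (.g (nat_lit 4) .nil .nil))) 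
(.lf (nat_lit 27212) (.g (nat_lit 1494) (.e (nat_lit 1197) (nat_lit 88) (.e (nat_lit 65624) (nat_lit 12) (.e (nat_lit 385094) (nat_lit 49) (.e (nat_lit 778327) (nat_lit 6) .nil)))) .nil))) (.nd (nat_lit 6) 
(.lf (nat_lit 27180) (.g (nat_lit 2198) (.e (nat_lit 1197) (nat_lit 88) (.e (nat_lit 65586) (nat_lit 7) (.e (nat_lit 319534) (nat_lit 16) (.e (nat_lit 286756) (nat_lit 10) .nil)))) .nil)) 
(.lf (nat_lit 27244) (.g (nat_lit 475) (.e (nat_lit 1197) (nat_lit 88) (.e (nat_lit 65629) (nat_lit 14) (.e (nat_lit 401459) (nat_lit 13) .nil))) .nil)))) (.nd (nat_lit 5) (.nd (nat_lit 6) 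
(.lf (nat_lit 27164) (.g (nat_lit 1880) (.e (nat_lit 1197) (nat_lit 88) (.e (nat_lit 65569) (nat_lit 3) (.e (nat_lit 98372) (nat_lit 29) (.e (nat_lit 450579) (nat_lit 5) (.e (nat_lit 532499) (nat_lit 1) .nil))))) .nil)) 
(.lf (nat_lit 27228) (.g (nat_lit 2276) (.e (nat_lit 1197) (nat_lit 88) (.e (nat_lit 65628) (nat_lit 14) (.e (nat_lit 401454) (nat_lit 12) (.e (nat_lit 475212) (nat_lit 42) .nil)))) .nil))) (.nd (nat_lit 6) 
(.lf (nat_lit 27196) (.g (nat_lit 1388) (.e (nat_lit 1197) (nat_lit 88) (.e (nat_lit 65619) (nat_lit 10) (.e (nat_lit 344117) (nat_lit 21) (.e (nat_lit 516097) (nat_lit 0) .nil)))) .nil)) 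
(.lf (nat_lit 27260) (.g (nat_lit 2955) (.e (nat_lit 1197) (nat_lit 88) (.e (nat_lit 65630) (nat_lit 14) (.e (nat_lit 401425) (nat_lit 2) (.e (nat_lit 196666) (nat_lit 13) (.e (nat_lit 65617) (nat_lit 10) (.e (nat_lit 344091) (nat_lit 18) (.e (nat_lit 3982) (nat_lit 239) .nil))))))) (.g (nat_lit 5) .nil .nil)))))))) 
(.nd (nat_lit 2) (.nd (nat_lit 3) (.nd (nat_lit 4) (.nd (nat_lit 5) (.nd (nat_lit 6) 
(.lf (nat_lit 27138) (.g (nat_lit 3661) (.e (nat_lit 1196) (nat_lit 88) (.e (nat_lit 65630) (nat_lit 14) (.e (nat_lit 401459) (nat_lit 13) (.e (nat_lit 483411) (nat_lit 27) (.e (nat_lit 401414) (nat_lit 0) (.e (nat_lit 2458) (nat_lit 157) (.e (nat_lit 4607) (nat_lit 269) .nil))))))) (.g (nat_lit 5) .nil .nil))) 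
(.lf (nat_lit 27202) (.g (nat_lit 2198) (.e (nat_lit 1197) (nat_lit 88) (.e (nat_lit 65619) (nat_lit 10) (.e (nat_lit 344117) (nat_lit 21) (.e (nat_lit 516195) (nat_lit 26) (.e (nat_lit 335995) (nat_lit 1) (.e (nat_lit 57847) (nat_lit 252) (.e (nat_lit 57365) (nat_lit 1) (.e (nat_lit 57752) (nat_lit 209) .nil)))))))) (.g (nat_lit 4) .nil .nil)))) (.nd (nat_lit 6) 
(.lf (nat_lit 27170) (.g (nat_lit 3153) (.e (nat_lit 1197) (nat_lit 88) (.e (nat_lit 65571) (nat_lit 3) (.e (nat_lit 98372) (nat_lit 29) (.e (nat_lit 450579) (nat_lit 5) (.e (nat_lit 532501) (nat_lit 1) (.e (nat_lit 65280) (nat_lit 221) .nil)))))) (.g (nat_lit 5) .nil .nil))) 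
(.lf (nat_lit 27234) (.g (nat_lit 560) (.e (nat_lit 1197) (nat_lit 88) (.e (nat_lit 65628) (nat_lit 14) (.e (nat_lit 401459) (nat_lit 13) .nil))) .nil)))) (.nd (nat_lit 5) (.nd (nat_lit 6) 
(.lf (nat_lit 27154) (.g (nat_lit 2798) (.e (nat_lit 1196) (nat_lit 88) (.e (nat_lit 65630) (nat_lit 14) (.e (nat_lit 401459) (nat_lit 13) (.e (nat_lit 483411) (nat_lit 27) (.e (nat_lit 401421) (nat_lit 1) (.e (nat_lit 164421) (nat_lit 272) .nil)))))) (.g (nat_lit 4) .nil .nil))) 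
(.lf (nat_lit 27218) (.g (nat_lit 3045) (.e (nat_lit 1197) (nat_lit 88) (.e (nat_lit 65624) (nat_lit 12) (.e (nat_lit 385106) (nat_lit 50) (.e (nat_lit 786483) (nat_lit 30) (.e (nat_lit 360451) (nat_lit 0) (.e (nat_lit 5872) (nat_lit 320) .nil)))))) (.g (nat_lit 5) .nil .nil)))) (.nd (nat_lit 6) 
(.lf (nat_lit 27186) (.g (nat_lit 2047) (.e (nat_lit 1197) (nat_lit 88) (.e (nat_lit 65610) (nat_lit 10) (.e (nat_lit 344117) (nat_lit 21) (.e (nat_lit 516115) (nat_lit 1) .nil)))) .nil)) 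
(.lf (nat_lit 27250) (.g (nat_lit 4210) (.e (nat_lit 1197) (nat_lit 88) (.e (nat_lit 65629) (nat_lit 14) (.e (nat_lit 401459) (nat_lit 13) (.e (nat_lit 483403) (nat_lit 26) (.e (nat_lit 385047) (nat_lit 21) .nil))))) .nil))))) (.nd (nat_lit 4) (.nd (nat_lit 5) (.nd (nat_lit 6) 
(.lf (nat_lit 27146) (.g (nat_lit 3478) (.e (nat_lit 1196) (nat_lit 88) (.e (nat_lit 65630) (nat_lit 14) (.e (nat_lit 401459) (nat_lit 13) (.e (nat_lit 483411) (nat_lit 27) (.e (nat_lit 401417) (nat_lit 0) .nil))))) .nil)) 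
(.lf (nat_lit 27210) (.g (nat_lit 1621) (.e (nat_lit 1197) (nat_lit 88) (.e (nat_lit 65624) (nat_lit 12) (.e (nat_lit 385093) (nat_lit 49) (.e (nat_lit 778327) (nat_lit 6) .nil)))) .nil))) (.nd (nat_lit 6) 
(.lf (nat_lit 27178) (.g (nat_lit 1271) (.e (nat_lit 1197) (nat_lit 88) (.e (nat_lit 65586) (nat_lit 7) (.e (nat_lit 319531) (nat_lit 16) (.e (nat_lit 286748) (nat_lit 9) .nil)))) .nil)) 
(.lf (nat_lit 27242) (.g (nat_lit 3183) (.e (nat_lit 1197) (nat_lit 88) (.e (nat_lit 65628) (nat_lit 14) (.e (nat_lit 401459) (nat_lit 13) (.e (nat_lit 483403) (nat_lit 26) (.e (nat_lit 385049) (nat_lit 21) .nil))))) .nil)))) (.nd (nat_lit 5) (.nd (nat_lit 6) 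
(.lf (nat_lit 27162) (.g (nat_lit 4354) (.e (nat_lit 1197) (nat_lit 88) (.e (nat_lit 65568) (nat_lit 2) (.e (nat_lit 90170) (nat_lit 13) (.e (nat_lit 172106) (nat_lit 10) (.e (nat_lit 434231) (nat_lit 23) (.e (nat_lit 532500) (nat_lit 1) (.e (nat_lit 57767) (nat_lit 221) .nil))))))) (.g (nat_lit 6) .nil .nil))) 
(.lf (nat_lit 27226) (.g (nat_lit 2534) (.e (nat_lit 1197) (nat_lit 88) (.e (nat_lit 65628) (nat_lit 14) (.e (nat_lit 401428) (nat_lit 3) (.e (nat_lit 204869) (nat_lit 29) (.e (nat_lit 360457) (nat_lit 0) .nil))))) .nil))) (.nd (nat_lit 6) 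
(.lf (nat_lit 27194) (.g (nat_lit 1463) (.e (nat_lit 1197) (nat_lit 88) (.e (nat_lit 65610) (nat_lit 10) (.e (nat_lit 344129) (nat_lit 26) (.e (nat_lit 557087) (nat_lit 11) .nil)))) .nil)) 
(.lf (nat_lit 27258) (.g (nat_lit 586) (.e (nat_lit 1197) (nat_lit 88) (.e (nat_lit 65630) (nat_lit 14) (.e (nat_lit 401425) (nat_lit 2) .nil))) .nil)))))) (.nd (nat_lit 3) (.nd (nat_lit 4) (.nd (nat_lit 5) (.nd (nat_lit 6) 
(.lf (nat_lit 27142) (.g (nat_lit 2882) (.e (nat_lit 1196) (nat_lit 88) (.e (nat_lit 65630) (nat_lit 14) (.e (nat_lit 401459) (nat_lit 13) (.e (nat_lit 483411) (nat_lit 27) (.e (nat_lit 401414) (nat_lit 0) (.e (nat_lit 2478) (nat_lit 157) (.e (nat_lit 4602) (nat_lit 269) .nil))))))) (.g (nat_lit 4) .nil .nil))) 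
(.lf (nat_lit 27206) (.g (nat_lit 1378) (.e (nat_lit 1197) (nat_lit 88) (.e (nat_lit 65623) (nat_lit 12) (.e (nat_lit 385102) (nat_lit 50) (.e (nat_lit 786483) (nat_lit 30) (.e (nat_lit 360451) (nat_lit 0) (.e (nat_lit 5872) (nat_lit 320) .nil)))))) (.g (nat_lit 4) .nil .nil)))) (.nd (nat_lit 6) 
(.lf (nat_lit 27174) (.g (nat_lit 2136) (.e (nat_lit 1197) (nat_lit 88) (.e (nat_lit 65580) (nat_lit 6) (.e (nat_lit 147492) (nat_lit 11) (.e (nat_lit 24657) (nat_lit 13) (.e (nat_lit 393253) (nat_lit 18) (.e (nat_lit 164410) (nat_lit 260) .nil)))))) (.g (nat_lit 6) .nil .nil))) 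
(.lf (nat_lit 27238) (.g (nat_lit 2403) (.e (nat_lit 1197) (nat_lit 88) (.e (nat_lit 65628) (nat_lit 14) (.e (nat_lit 401459) (nat_lit 13) (.e (nat_lit 483393) (nat_lit 23) .nil)))) .nil)))) (.nd (nat_lit 5) (.nd (nat_lit 6) 
(.lf (nat_lit 27158) (.g (nat_lit 2947) (.e (nat_lit 1196) (nat_lit 88) (.e (nat_lit 65630) (nat_lit 14) (.e (nat_lit 401459) (nat_lit 13) (.e (nat_lit 483411) (nat_lit 27) (.e (nat_lit 401422) (nat_lit 1) (.e (nat_lit 164423) (nat_lit 272) .nil)))))) (.g (nat_lit 4) .nil .nil))) 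
(.lf (nat_lit 27222) (.g (nat_lit 1927) (.e (nat_lit 1197) (nat_lit 88) (.e (nat_lit 65627) (nat_lit 13) (.e (nat_lit 393301) (nat_lit 27) (.e (nat_lit 491558) (nat_lit 10) (.e (nat_lit 344091) (nat_lit 18) .nil))))) .nil))) (.nd (nat_lit 6) 
(.lf (nat_lit 27190) (.g (nat_lit 3752) (.e (nat_lit 1197) (nat_lit 88) (.e (nat_lit 65610) (nat_lit 10) (.e (nat_lit 344117) (nat_lit 21) (.e (nat_lit 516195) (nat_lit 26) (.e (nat_lit 335986) (nat_lit 1) (.e (nat_lit 57847) (nat_lit 252) (.e (nat_lit 57365) (nat_lit 1) (.e (nat_lit 57753) (nat_lit 209) .nil)))))))) (.g (nat_lit 6) .nil .nil))) 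
(.lf (nat_lit 27254) (.g (nat_lit 2247) (.e (nat_lit 1197) (nat_lit 88) (.e (nat_lit 65629) (nat_lit 14) (.e (nat_lit 401459) (nat_lit 13) (.e (nat_lit 483404) (nat_lit 26) .nil)))) .nil))))) (.nd (nat_lit 4) (.nd (nat_lit 5) (.nd (nat_lit 6) 
(.lf (nat_lit 27150) (.g (nat_lit 3110) (.e (nat_lit 1196) (nat_lit 88) (.e (nat_lit 65630) (nat_lit 14) (.e (nat_lit 401459) (nat_lit 13) (.e (nat_lit 483411) (nat_lit 27) (.e (nat_lit 401420) (nat_lit 1) (.e (nat_lit 164422) (nat_lit 272) .nil)))))) (.g (nat_lit 5) .nil .nil))) 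
(.lf (nat_lit 27214) (.g (nat_lit 3056) (.e (nat_lit 1197) (nat_lit 88) (.e (nat_lit 65624) (nat_lit 12) (.e (nat_lit 385105) (nat_lit 50) (.e (nat_lit 786483) (nat_lit 30) (.e (nat_lit 360451) (nat_lit 0) (.e (nat_lit 5872) (nat_lit 320) .nil)))))) (.g (nat_lit 5) .nil .nil)))) (.nd (nat_lit 6) 
(.lf (nat_lit 27182) (.g (nat_lit 1589) (.e (nat_lit 1197) (nat_lit 88) (.e (nat_lit 65610) (nat_lit 10) (.e (nat_lit 344097) (nat_lit 18) (.e (nat_lit 5906) (nat_lit 320) .nil)))) .nil)) 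
(.lf (nat_lit 27246) (.g (nat_lit 1955) (.e (nat_lit 1197) (nat_lit 88) (.e (nat_lit 65629) (nat_lit 14) (.e (nat_lit 401459) (nat_lit 13) (.e (nat_lit 483380) (nat_lit 23) .nil)))) .nil)))) (.nd (nat_lit 5) (.nd (nat_lit 6) 
(.lf (nat_lit 27166) (.g (nat_lit 2909) (.e (nat_lit 1197) (nat_lit 88) (.e (nat_lit 65570) (nat_lit 3) (.e (nat_lit 98373) (nat_lit 29) (.e (nat_lit 450588) (nat_lit 10) (.e (nat_lit 573473) (nat_lit 12) .nil))))) .nil)) 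
(.lf (nat_lit 27230) (.g (nat_lit 681) (.e (nat_lit 1197) (nat_lit 88) (.e (nat_lit 65628) (nat_lit 14) (.e (nat_lit 401458) (nat_lit 13) .nil))) .nil))) (.nd (nat_lit 6) 
(.lf (nat_lit 27198) (.g (nat_lit 1350) (.e (nat_lit 1197) (nat_lit 88) (.e (nat_lit 65619) (nat_lit 10) (.e (nat_lit 344117) (nat_lit 21) (.e (nat_lit 516098) (nat_lit 0) .nil)))) .nil)) 
(.lf (nat_lit 27262) (.g (nat_lit 2142) (.e (nat_lit 1197) (nat_lit 88) (.e (nat_lit 65630) (nat_lit 14) (.e (nat_lit 401425) (nat_lit 2) (.e (nat_lit 196666) (nat_lit 13) (.e (nat_lit 65617) (nat_lit 10) (.e (nat_lit 344091) (nat_lit 18) (.e (nat_lit 3986) (nat_lit 239) .nil))))))) (.g (nat_lit 4) .nil .nil))))))))) 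
(.nd (nat_lit 1) (.nd (nat_lit 2) (.nd (nat_lit 3) (.nd (nat_lit 4) (.nd (nat_lit 5) 
(.nd (nat_lit 6) 
(.lf (nat_lit 27137) (.g (nat_lit 3536) (.e (nat_lit 1196) (nat_lit 88) (.e (nat_lit 65630) (nat_lit 14) (.e (nat_lit 401459) (nat_lit 13) (.e (nat_lit 483411) (nat_lit 27) (.e (nat_lit 401414) (nat_lit 0) (.e (nat_lit 2458) (nat_lit 157) (.e (nat_lit 4602) (nat_lit 269) .nil))))))) (.g (nat_lit 5) .nil .nil))) 
(.lf (nat_lit 27201) (.g (nat_lit 2353) (.e (nat_lit 1197) (nat_lit 88) (.e (nat_lit 65619) (nat_lit 10) (.e (nat_lit 344117) (nat_lit 21) (.e (nat_lit 516195) (nat_lit 26) (.e (nat_lit 335986) (nat_lit 1) (.e (nat_lit 57847) (nat_lit 252) (.e (nat_lit 57365) (nat_lit 1) (.e (nat_lit 57752) (nat_lit 209) .nil)))))))) (.g (nat_lit 4) .nil .nil)))) (.nd (nat_lit 6) 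
(.lf (nat_lit 27169) (.g (nat_lit 2554) (.e (nat_lit 1197) (nat_lit 88) (.e (nat_lit 65571) (nat_lit 3) (.e (nat_lit 98372) (nat_lit 29) (.e (nat_lit 450579) (nat_lit 5) (.e (nat_lit 532499) (nat_lit 1) (.e (nat_lit 65280) (nat_lit 221) .nil)))))) (.g (nat_lit 5) .nil .nil))) 
(.lf (nat_lit 27233) (.g (nat_lit 2259) (.e (nat_lit 1197) (nat_lit 88) (.e (nat_lit 65628) (nat_lit 14) (.e (nat_lit 401458) (nat_lit 13) (.e (nat_lit 483396) (nat_lit 24) (.e (nat_lit 344091) (nat_lit 18) .nil))))) .nil)))) (.nd (nat_lit 5) (.nd (nat_lit 6) 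
(.lf (nat_lit 27153) (.g (nat_lit 2775) (.e (nat_lit 1196) (nat_lit 88) (.e (nat_lit 65630) (nat_lit 14) (.e (nat_lit 401459) (nat_lit 13) (.e (nat_lit 483411) (nat_lit 27) (.e (nat_lit 401421) (nat_lit 1) .nil))))) .nil)) 
(.lf (nat_lit 27217) (.g (nat_lit 2292) (.e (nat_lit 1197) (nat_lit 88) (.e (nat_lit 65624) (nat_lit 12) (.e (nat_lit 385106) (nat_lit 50) (.e (nat_lit 786481) (nat_lit 30) (.e (nat_lit 360449) (nat_lit 0) (.e (nat_lit 5872) (nat_lit 320) .nil)))))) (.g (nat_lit 4) .nil .nil)))) (.nd (nat_lit 6) 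
(.lf (nat_lit 27185) (.g (nat_lit 2075) (.e (nat_lit 1197) (nat_lit 88) (.e (nat_lit 65610) (nat_lit 10) (.e (nat_lit 344117) (nat_lit 21) (.e (nat_lit 516106) (nat_lit 0) .nil)))) .nil)) 
(.lf (nat_lit 27249) (.g (nat_lit 1869) (.e (nat_lit 1197) (nat_lit 88) (.e (nat_lit 65629) (nat_lit 14) (.e (nat_lit 401459) (nat_lit 13) (.e (nat_lit 483403) (nat_lit 26) .nil)))) .nil))))) (.nd (nat_lit 4) (.nd (nat_lit 5) (.nd (nat_lit 6) 
(.lf (nat_lit 27145) (.g (nat_lit 3152) (.e (nat_lit 1196) (nat_lit 88) (.e (nat_lit 65630) (nat_lit 14) (.e (nat_lit 401459) (nat_lit 13) (.e (nat_lit 483411) (nat_lit 27) (.e (nat_lit 401416) (nat_lit 0) .nil))))) .nil)) 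
(.lf (nat_lit 27209) (.g (nat_lit 1407) (.e (nat_lit 1197) (nat_lit 88) (.e (nat_lit 65624) (nat_lit 12) (.e (nat_lit 385093) (nat_lit 49) (.e (nat_lit 778326) (nat_lit 6) .nil)))) .nil))) (.nd (nat_lit 6) 
(.lf (nat_lit 27177) (.g (nat_lit 737) (.e (nat_lit 1197) (nat_lit 88) (.e (nat_lit 65583) (nat_lit 7) (.e (nat_lit 319539) (nat_lit 19) (.e (nat_lit 319232) (nat_lit 30) .nil)))) .nil)) 
(.lf (nat_lit 27241) (.g (nat_lit 2313) (.e (nat_lit 1197) (nat_lit 88) (.e (nat_lit 65628) (nat_lit 14) (.e (nat_lit 401459) (nat_lit 13) (.e (nat_lit 483396) (nat_lit 24) .nil)))) .nil)))) (.nd (nat_lit 5) (.nd (nat_lit 6) 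
(.lf (nat_lit 27161) (.g (nat_lit 4143) (.e (nat_lit 1197) (nat_lit 88) (.e (nat_lit 65568) (nat_lit 2) (.e (nat_lit 90170) (nat_lit 13) (.e (nat_lit 172106) (nat_lit 10) (.e (nat_lit 434231) (nat_lit 23) (.e (nat_lit 532499) (nat_lit 1) (.e (nat_lit 57767) (nat_lit 221) .nil))))))) (.g (nat_lit 6) .nil .nil))) 
(.lf (nat_lit 27225) (.g (nat_lit 2458) (.e (nat_lit 1197) (nat_lit 88) (.e (nat_lit 65628) (nat_lit 14) (.e (nat_lit 401428) (nat_lit 3) (.e (nat_lit 204869) (nat_lit 29) (.e (nat_lit 360448) (nat_lit 0) .nil))))) .nil))) (.nd (nat_lit 6) 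
(.lf (nat_lit 27193) (.g (nat_lit 2744) (.e (nat_lit 1197) (nat_lit 88) (.e (nat_lit 65610) (nat_lit 10) (.e (nat_lit 344117) (nat_lit 21) (.e (nat_lit 516195) (nat_lit 26) (.e (nat_lit 335996) (nat_lit 1) .nil))))) .nil)) 
(.lf (nat_lit 27257) (.g (nat_lit 1446) (.e (nat_lit 1197) (nat_lit 88) (.e (nat_lit 65630) (nat_lit 14) (.e (nat_lit 401412) (nat_lit 0) (.e (nat_lit 3262) (nat_lit 198) .nil)))) .nil)))))) (.nd (nat_lit 3) (.nd (nat_lit 4) (.nd (nat_lit 5) (.nd (nat_lit 6) 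
(.lf (nat_lit 27141) (.g (nat_lit 2725) (.e (nat_lit 1196) (nat_lit 88) (.e (nat_lit 65630) (nat_lit 14) (.e (nat_lit 401459) (nat_lit 13) (.e (nat_lit 483411) (nat_lit 27) (.e (nat_lit 401414) (nat_lit 0) (.e (nat_lit 2477) (nat_lit 157) (.e (nat_lit 4605) (nat_lit 269) .nil))))))) (.g (nat_lit 4) .nil .nil))) 
(.lf (nat_lit 27205) (.g (nat_lit 1955) (.e (nat_lit 1197) (nat_lit 88) (.e (nat_lit 65622) (nat_lit 12) (.e (nat_lit 385106) (nat_lit 50) (.e (nat_lit 786483) (nat_lit 30) (.e (nat_lit 360451) (nat_lit 0) .nil))))) .nil))) (.nd (nat_lit 6) 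
(.lf (nat_lit 27173) (.g (nat_lit 2307) (.e (nat_lit 1197) (nat_lit 88) (.e (nat_lit 65580) (nat_lit 6) (.e (nat_lit 147492) (nat_lit 11) (.e (nat_lit 24657) (nat_lit 13) (.e (nat_lit 393253) (nat_lit 18) (.e (nat_lit 164409) (nat_lit 260) .nil)))))) (.g (nat_lit 6) .nil .nil))) 
(.lf (nat_lit 27237) (.g (nat_lit 3066) (.e (nat_lit 1197) (nat_lit 88) (.e (nat_lit 65628) (nat_lit 14) (.e (nat_lit 401459) (nat_lit 13) (.e (nat_lit 483380) (nat_lit 23) (.e (nat_lit 336310) (nat_lit 16) .nil))))) .nil)))) (.nd (nat_lit 5) (.nd (nat_lit 6) 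
(.lf (nat_lit 27157) (.g (nat_lit 2781) (.e (nat_lit 1196) (nat_lit 88) (.e (nat_lit 65630) (nat_lit 14) (.e (nat_lit 401459) (nat_lit 13) (.e (nat_lit 483411) (nat_lit 27) (.e (nat_lit 401422) (nat_lit 1) (.e (nat_lit 164422) (nat_lit 272) .nil)))))) (.g (nat_lit 4) .nil .nil))) 
(.lf (nat_lit 27221) (.g (nat_lit 1055) (.e (nat_lit 1197) (nat_lit 88) (.e (nat_lit 65626) (nat_lit 13) (.e (nat_lit 393300) (nat_lit 27) (.e (nat_lit 491560) (nat_lit 10) .nil)))) .nil))) (.nd (nat_lit 6) 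
(.lf (nat_lit 27189) (.g (nat_lit 2099) (.e (nat_lit 1197) (nat_lit 88) (.e (nat_lit 65610) (nat_lit 10) (.e (nat_lit 344117) (nat_lit 21) (.e (nat_lit 516195) (nat_lit 26) .nil)))) .nil)) 
(.lf (nat_lit 27253) (.g (nat_lit 4258) (.e (nat_lit 1197) (nat_lit 88) (.e (nat_lit 65629) (nat_lit 14) (.e (nat_lit 401459) (nat_lit 13) (.e (nat_lit 483403) (nat_lit 26) (.e (nat_lit 385053) (nat_lit 21) .nil))))) .nil))))) (.nd (nat_lit 4) (.nd (nat_lit 5) (.nd (nat_lit 6) 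
(.lf (nat_lit 27149) (.g (nat_lit 2737) (.e (nat_lit 1196) (nat_lit 88) (.e (nat_lit 65630) (nat_lit 14) (.e (nat_lit 401459) (nat_lit 13) (.e (nat_lit 483411) (nat_lit 27) (.e (nat_lit 401420) (nat_lit 1) (.e (nat_lit 164421) (nat_lit 272) .nil)))))) (.g (nat_lit 4) .nil .nil))) 
(.lf (nat_lit 27213) (.g (nat_lit 1837) (.e (nat_lit 1197) (nat_lit 88) (.e (nat_lit 65624) (nat_lit 12) (.e (nat_lit 385105) (nat_lit 50) (.e (nat_lit 786481) (nat_lit 30) (.e (nat_lit 360449) (nat_lit 0) .nil))))) .nil))) (.nd (nat_lit 6) 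
(.lf (nat_lit 27181) (.g (nat_lit 434) (.e (nat_lit 1197) (nat_lit 88) (.e (nat_lit 65610) (nat_lit 10) (.e (nat_lit 344097) (nat_lit 18) .nil))) .nil)) 
(.lf (nat_lit 27245) (.g (nat_lit 1793) (.e (nat_lit 1197) (nat_lit 88) (.e (nat_lit 65629) (nat_lit 14) (.e (nat_lit 401459) (nat_lit 13) (.e (nat_lit 483344) (nat_lit 17) .nil)))) .nil)))) (.nd (nat_lit 5) (.nd (nat_lit 6) 
(.lf (nat_lit 27165) (.g (nat_lit 2084) (.e (nat_lit 1197) (nat_lit 88) (.e (nat_lit 65569) (nat_lit 3) (.e (nat_lit 98372) (nat_lit 29) (.e (nat_lit 450579) (nat_lit 5) (.e (nat_lit 532503) (nat_lit 1) (.e (nat_lit 65280) (nat_lit 221) .nil)))))) (.g (nat_lit 4) .nil .nil))) 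
(.lf (nat_lit 27229) (.g (nat_lit 2910) (.e (nat_lit 1197) (nat_lit 88) (.e (nat_lit 65628) (nat_lit 14) (.e (nat_lit 401454) (nat_lit 12) (.e (nat_lit 475214) (nat_lit 42) .nil)))) .nil))) (.nd (nat_lit 6) 
(.lf (nat_lit 27197) (.g (nat_lit 1535) (.e (nat_lit 1197) (nat_lit 88) (.e (nat_lit 65619) (nat_lit 10) (.e (nat_lit 344117) (nat_lit 21) (.e (nat_lit 516097) (nat_lit 0) (.e (nat_lit 7593) (nat_lit 407) .nil))))) .nil)) 
(.lf (nat_lit 27261) (.g (nat_lit 3856) (.e (nat_lit 1197) (nat_lit 88) (.e (nat_lit 65630) (nat_lit 14) (.e (nat_lit 401425) (nat_lit 2) (.e (nat_lit 196666) (nat_lit 13) (.e (nat_lit 65617) (nat_lit 10) (.e (nat_lit 344091) (nat_lit 18) (.e (nat_lit 3985) (nat_lit 239) .nil))))))) (.g (nat_lit 7) .nil .nil)))))))) 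
(.nd (nat_lit 2) (.nd (nat_lit 3) (.nd (nat_lit 4) (.nd (nat_lit 5) (.nd (nat_lit 6) 
(.lf (nat_lit 27139) (.g (nat_lit 3006) (.e (nat_lit 1196) (nat_lit 88) (.e (nat_lit 65630) (nat_lit 14) (.e (nat_lit 401459) (nat_lit 13) (.e (nat_lit 483411) (nat_lit 27) (.e (nat_lit 401414) (nat_lit 0) (.e (nat_lit 2468) (nat_lit 157) (.e (nat_lit 4602) (nat_lit 269) .nil))))))) (.g (nat_lit 4) .nil .nil))) 
(.lf (nat_lit 27203) (.g (nat_lit 2465) (.e (nat_lit 1197) (nat_lit 88) (.e (nat_lit 65619) (nat_lit 10) (.e (nat_lit 344117) (nat_lit 21) (.e (nat_lit 516195) (nat_lit 26) (.e (nat_lit 335995) (nat_lit 1) (.e (nat_lit 57847) (nat_lit 252) (.e (nat_lit 57365) (nat_lit 1) (.e (nat_lit 57753) (nat_lit 209) .nil)))))))) (.g (nat_lit 5) .nil .nil)))) (.nd (nat_lit 6) 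
(.lf (nat_lit 27171) (.g (nat_lit 3085) (.e (nat_lit 1197) (nat_lit 88) (.e (nat_lit 65571) (nat_lit 3) (.e (nat_lit 98372) (nat_lit 29) (.e (nat_lit 450579) (nat_lit 5) (.e (nat_lit 532504) (nat_lit 1) (.e (nat_lit 65280) (nat_lit 221) .nil)))))) (.g (nat_lit 5) .nil .nil))) 
(.lf (nat_lit 27235) (.g (nat_lit 1434) (.e (nat_lit 1197) (nat_lit 88) (.e (nat_lit 65628) (nat_lit 14) (.e (nat_lit 401459) (nat_lit 13) (.e (nat_lit 483344) (nat_lit 17) .nil)))) .nil)))) (.nd (nat_lit 5) (.nd (nat_lit 6) 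
(.lf (nat_lit 27155) (.g (nat_lit 2960) (.e (nat_lit 1196) (nat_lit 88) (.e (nat_lit 65630) (nat_lit 14) (.e (nat_lit 401459) (nat_lit 13) (.e (nat_lit 483411) (nat_lit 27) (.e (nat_lit 401421) (nat_lit 1) (.e (nat_lit 164424) (nat_lit 272) .nil)))))) (.g (nat_lit 4) .nil .nil))) 
(.lf (nat_lit 27219) (.g (nat_lit 2255) (.e (nat_lit 1197) (nat_lit 88) (.e (nat_lit 65624) (nat_lit 12) (.e (nat_lit 385106) (nat_lit 50) (.e (nat_lit 786483) (nat_lit 30) (.e (nat_lit 360451) (nat_lit 0) (.e (nat_lit 5920) (nat_lit 320) .nil)))))) (.g (nat_lit 4) .nil .nil)))) (.nd (nat_lit 6) 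
(.lf (nat_lit 27187) (.g (nat_lit 2806) (.e (nat_lit 1197) (nat_lit 88) (.e (nat_lit 65610) (nat_lit 10) (.e (nat_lit 344117) (nat_lit 21) (.e (nat_lit 516115) (nat_lit 1) (.e (nat_lit 164179) (nat_lit 154) (.e (nat_lit 57432) (nat_lit 16) (.e (nat_lit 368662) (nat_lit 18) (.e (nat_lit 7431) (nat_lit 396) .nil)))))))) (.g (nat_lit 4) .nil .nil))) 
(.lf (nat_lit 27251) (.g (nat_lit 3022) (.e (nat_lit 1197) (nat_lit 88) (.e (nat_lit 65629) (nat_lit 14) (.e (nat_lit 401459) (nat_lit 13) (.e (nat_lit 483403) (nat_lit 26) (.e (nat_lit 385049) (nat_lit 21) .nil))))) .nil))))) (.nd (nat_lit 4) (.nd (nat_lit 5) (.nd (nat_lit 6) 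
(.lf (nat_lit 27147) (.g (nat_lit 3046) (.e (nat_lit 1196) (nat_lit 88) (.e (nat_lit 65630) (nat_lit 14) (.e (nat_lit 401459) (nat_lit 13) (.e (nat_lit 483411) (nat_lit 27) (.e (nat_lit 401418) (nat_lit 0) .nil))))) .nil)) 
(.lf (nat_lit 27211) (.g (nat_lit 1507) (.e (nat_lit 1197) (nat_lit 88) (.e (nat_lit 65624) (nat_lit 12) (.e (nat_lit 385094) (nat_lit 49) (.e (nat_lit 778326) (nat_lit 6) .nil)))) .nil))) (.nd (nat_lit 6) 
(.lf (nat_lit 27179) (.g (nat_lit 1349) (.e (nat_lit 1197) (nat_lit 88) (.e (nat_lit 65586) (nat_lit 7) (.e (nat_lit 319531) (nat_lit 16) (.e (nat_lit 286759) (nat_lit 12) .nil)))) .nil)) 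
(.lf (nat_lit 27243) (.g (nat_lit 2727) (.e (nat_lit 1197) (nat_lit 88) (.e (nat_lit 65628) (nat_lit 14) (.e (nat_lit 401459) (nat_lit 13) (.e (nat_lit 483411) (nat_lit 27) (.e (nat_lit 401414) (nat_lit 0) .nil))))) .nil)))) (.nd (nat_lit 5) (.nd (nat_lit 6) 
(.lf (nat_lit 27163) (.g (nat_lit 4640) (.e (nat_lit 1197) (nat_lit 88) (.e (nat_lit 65568) (nat_lit 2) (.e (nat_lit 90170) (nat_lit 13) (.e (nat_lit 172106) (nat_lit 10) (.e (nat_lit 434231) (nat_lit 23) (.e (nat_lit 532500) (nat_lit 1) (.e (nat_lit 65280) (nat_lit 221) .nil))))))) (.g (nat_lit 6) .nil .nil))) 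
(.lf (nat_lit 27227) (.g (nat_lit 690) (.e (nat_lit 1197) (nat_lit 88) (.e (nat_lit 65628) (nat_lit 14) (.e (nat_lit 401437) (nat_lit 9) .nil))) .nil))) (.nd (nat_lit 6) 
(.lf (nat_lit 27195) (.g (nat_lit 2207) (.e (nat_lit 1197) (nat_lit 88) (.e (nat_lit 65610) (nat_lit 10) (.e (nat_lit 344129) (nat_lit 26) (.e (nat_lit 557087) (nat_lit 11) (.e (nat_lit 24617) (nat_lit 7) (.e (nat_lit 319514) (nat_lit 11) (.e (nat_lit 8385) (nat_lit 108) .nil))))))) (.g (nat_lit 4) .nil .nil))) 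
(.lf (nat_lit 27259) (.g (nat_lit 1524) (.e (nat_lit 1197) (nat_lit 88) (.e (nat_lit 65630) (nat_lit 14) (.e (nat_lit 401425) (nat_lit 2) (.e (nat_lit 196666) (nat_lit 13) .nil)))) .nil)))))) (.nd (nat_lit 3) (.nd (nat_lit 4) (.nd (nat_lit 5) (.nd (nat_lit 6) 
(.lf (nat_lit 27143) (.g (nat_lit 2693) (.e (nat_lit 1196) (nat_lit 88) (.e (nat_lit 65630) (nat_lit 14) (.e (nat_lit 401459) (nat_lit 13) (.e (nat_lit 483411) (nat_lit 27) (.e (nat_lit 401414) (nat_lit 0) (.e (nat_lit 2478) (nat_lit 157) (.e (nat_lit 4606) (nat_lit 269) .nil))))))) (.g (nat_lit 4) .nil .nil))) 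
(.lf (nat_lit 27207) (.g (nat_lit 2562) (.e (nat_lit 1197) (nat_lit 88) (.e (nat_lit 65624) (nat_lit 12) (.e (nat_lit 385074) (nat_lit 31) (.e (nat_lit 573493) (nat_lit 15) .nil)))) .nil))) (.nd (nat_lit 6) 
(.lf (nat_lit 27175) (.g (nat_lit 2134) (.e (nat_lit 1197) (nat_lit 88) (.e (nat_lit 65580) (nat_lit 6) (.e (nat_lit 147492) (nat_lit 11) (.e (nat_lit 24657) (nat_lit 13) (.e (nat_lit 393253) (nat_lit 18) (.e (nat_lit 164414) (nat_lit 260) .nil)))))) (.g (nat_lit 0) .nil .nil))) 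
(.lf (nat_lit 27239) (.g (nat_lit 1573) (.e (nat_lit 1197) (nat_lit 88) (.e (nat_lit 65628) (nat_lit 14) (.e (nat_lit 401459) (nat_lit 13) (.e (nat_lit 483394) (nat_lit 24) .nil)))) .nil)))) (.nd (nat_lit 5) (.nd (nat_lit 6) 
(.lf (nat_lit 27159) (.g (nat_lit 3019) (.e (nat_lit 1196) (nat_lit 88) (.e (nat_lit 65630) (nat_lit 14) (.e (nat_lit 401459) (nat_lit 13) (.e (nat_lit 483411) (nat_lit 27) (.e (nat_lit 401429) (nat_lit 4) .nil))))) .nil)) 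
(.lf (nat_lit 27223) (.g (nat_lit 2547) (.e (nat_lit 1197) (nat_lit 88) (.e (nat_lit 65627) (nat_lit 13) (.e (nat_lit 393301) (nat_lit 27) (.e (nat_lit 491560) (nat_lit 10) (.e (nat_lit 344097) (nat_lit 18) (.e (nat_lit 7225) (nat_lit 382) .nil)))))) (.g (nat_lit 4) .nil .nil)))) (.nd (nat_lit 6) 
(.lf (nat_lit 27191) (.g (nat_lit 2733) (.e (nat_lit 1197) (nat_lit 88) (.e (nat_lit 65610) (nat_lit 10) (.e (nat_lit 344117) (nat_lit 21) (.e (nat_lit 516195) (nat_lit 26) (.e (nat_lit 335995) (nat_lit 1) .nil))))) .nil)) 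
(.lf (nat_lit 27255) (.g (nat_lit 2200) (.e (nat_lit 1197) (nat_lit 88) (.e (nat_lit 65629) (nat_lit 14) (.e (nat_lit 401459) (nat_lit 13) (.e (nat_lit 483411) (nat_lit 27) .nil)))) .nil))))) (.nd (nat_lit 4) (.nd (nat_lit 5) (.nd (nat_lit 6) 
(.lf (nat_lit 27151) (.g (nat_lit 2959) (.e (nat_lit 1196) (nat_lit 88) (.e (nat_lit 65630) (nat_lit 14) (.e (nat_lit 401459) (nat_lit 13) (.e (nat_lit 483411) (nat_lit 27) (.e (nat_lit 401420) (nat_lit 1) (.e (nat_lit 164423) (nat_lit 272) .nil)))))) (.g (nat_lit 4) .nil .nil))) 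
(.lf (nat_lit 27215) (.g (nat_lit 2182) (.e (nat_lit 1197) (nat_lit 88) (.e (nat_lit 65624) (nat_lit 12) (.e (nat_lit 385105) (nat_lit 50) (.e (nat_lit 786483) (nat_lit 30) (.e (nat_lit 360451) (nat_lit 0) (.e (nat_lit 5920) (nat_lit 320) .nil)))))) (.g (nat_lit 4) .nil .nil)))) (.nd (nat_lit 6) 
(.lf (nat_lit 27183) (.g (nat_lit 2170) (.e (nat_lit 1197) (nat_lit 88) (.e (nat_lit 65610) (nat_lit 10) (.e (nat_lit 344117) (nat_lit 21) (.e (nat_lit 516098) (nat_lit 0) .nil)))) .nil)) 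
(.lf (nat_lit 27247) (.g (nat_lit 2568) (.e (nat_lit 1197) (nat_lit 88) (.e (nat_lit 65629) (nat_lit 14) (.e (nat_lit 401459) (nat_lit 13) (.e (nat_lit 483393) (nat_lit 23) .nil)))) .nil)))) (.nd (nat_lit 5) (.nd (nat_lit 6) 
(.lf (nat_lit 27167) (.g (nat_lit 2920) (.e (nat_lit 1197) (nat_lit 88) (.e (nat_lit 65570) (nat_lit 3) (.e (nat_lit 98373) (nat_lit 29) (.e (nat_lit 450588) (nat_lit 10) (.e (nat_lit 573475) (nat_lit 12) .nil))))) .nil)) 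
(.lf (nat_lit 27231) (.g (nat_lit 1610) (.e (nat_lit 1197) (nat_lit 88) (.e (nat_lit 65628) (nat_lit 14) (.e (nat_lit 401458) (nat_lit 13) (.e (nat_lit 483393) (nat_lit 23) .nil)))) .nil))) (.nd (nat_lit 6) 
(.lf (nat_lit 27199) (.g (nat_lit 1569) (.e (nat_lit 1197) (nat_lit 88) (.e (nat_lit 65619) (nat_lit 10) (.e (nat_lit 344117) (nat_lit 21) (.e (nat_lit 516106) (nat_lit 0) .nil)))) .nil)) 
(.lf (nat_lit 27263) (.g (nat_lit 3745) (.e (nat_lit 1197) (nat_lit 88) (.e (nat_lit 65630) (nat_lit 14) (.e (nat_lit 401425) (nat_lit 2) (.e (nat_lit 196666) (nat_lit 13) (.e (nat_lit 65617) (nat_lit 10) (.e (nat_lit 344096) (nat_lit 18) (.e (nat_lit 3959) (nat_lit 239) .nil))))))) (.g (nat_lit 6) .nil .nil))))))))))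

noncomputable def tv377 : DT := (.nd (nat_lit 0) (.nd (nat_lit 1) (.nd (nat_lit 2) (.nd (nat_lit 3) (.nd (nat_lit 4) (.nd (nat_lit 5) (.nd (nat_lit 6) 
(.lf (nat_lit 27264) (.g (nat_lit 1960) (.e (nat_lit 1197) (nat_lit 88) (.e (nat_lit 65630) (nat_lit 14) (.e (nat_lit 401425) (nat_lit 2) (.e (nat_lit 196672) (nat_lit 15) .nil)))) .nil)) 
(.lf (nat_lit 27328) (.g (nat_lit 3342) (.e (nat_lit 1197) (nat_lit 88) (.e (nat_lit 65630) (nat_lit 14) (.e (nat_lit 401454) (nat_lit 12) (.e (nat_lit 475213) (nat_lit 42) .nil)))) .nil))) (.nd (nat_lit 6) 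
(.lf (nat_lit 27296) (.g (nat_lit 523) (.e (nat_lit 1197) (nat_lit 88) (.e (nat_lit 65630) (nat_lit 14) (.e (nat_lit 401437) (nat_lit 9) .nil))) .nil)) 
(.lf (nat_lit 27360) (.g (nat_lit 4103) (.e (nat_lit 1197) (nat_lit 88) (.e (nat_lit 65630) (nat_lit 14) (.e (nat_lit 401459) (nat_lit 13) (.e (nat_lit 483344) (nat_lit 17) (.e (nat_lit 6712) (nat_lit 360) (.e (nat_lit 163844) (nat_lit 0) (.e (nat_lit 4588) (nat_lit 269) .nil))))))) (.g (nat_lit 5) .nil .nil))))) (.nd (nat_lit 5) (.nd (nat_lit 6) 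
(.lf (nat_lit 27280) (.g (nat_lit 2683) (.e (nat_lit 1197) (nat_lit 88) (.e (nat_lit 65630) (nat_lit 14) (.e (nat_lit 401428) (nat_lit 3) (.e (nat_lit 204869) (nat_lit 29) (.e (nat_lit 360448) (nat_lit 0) (.e (nat_lit 3982) (nat_lit 239) .nil)))))) (.g (nat_lit 4) .nil .nil))) 
(.lf (nat_lit 27344) (.g (nat_lit 1947) (.e (nat_lit 1197) (nat_lit 88) (.e (nat_lit 65630) (nat_lit 14) (.e (nat_lit 401458) (nat_lit 13) (.e (nat_lit 483393) (nat_lit 23) (.e (nat_lit 335988) (nat_lit 1) (.e (nat_lit 57868) (nat_lit 264) .nil)))))) (.g (nat_lit 4) .nil .nil)))) (.nd (nat_lit 6) 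
(.lf (nat_lit 27312) (.g (nat_lit 2387) (.e (nat_lit 1197) (nat_lit 88) (.e (nat_lit 65630) (nat_lit 14) (.e (nat_lit 401438) (nat_lit 9) (.e (nat_lit 426542) (nat_lit 29) (.e (nat_lit 352309) (nat_lit 21) .nil))))) .nil)) 
(.lf (nat_lit 27376) (.g (nat_lit 5851) (.e (nat_lit 1197) (nat_lit 88) (.e (nat_lit 65630) (nat_lit 14) (.e (nat_lit 401459) (nat_lit 13) (.e (nat_lit 483372) (nat_lit 21) (.e (nat_lit 319515) (nat_lit 11) .nil))))) .nil))))) (.nd (nat_lit 4) (.nd (nat_lit 5) (.nd (nat_lit 6) 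
(.lf (nat_lit 27272) (.g (nat_lit 1341) (.e (nat_lit 1197) (nat_lit 88) (.e (nat_lit 65630) (nat_lit 14) (.e (nat_lit 401428) (nat_lit 3) (.e (nat_lit 204866) (nat_lit 28) .nil)))) .nil)) 
(.lf (nat_lit 27336) (.g (nat_lit 1883) (.e (nat_lit 1197) (nat_lit 88) (.e (nat_lit 65630) (nat_lit 14) (.e (nat_lit 401457) (nat_lit 13) (.e (nat_lit 483393) (nat_lit 23) .nil)))) .nil))) (.nd (nat_lit 6) 
(.lf (nat_lit 27304) (.g (nat_lit 3024) (.e (nat_lit 1197) (nat_lit 88) (.e (nat_lit 65630) (nat_lit 14) (.e (nat_lit 401437) (nat_lit 9) (.e (nat_lit 426546) (nat_lit 30) (.e (nat_lit 360449) (nat_lit 0) .nil))))) .nil)) 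
(.lf (nat_lit 27368) (.g (nat_lit 4370) (.e (nat_lit 1197) (nat_lit 88) (.e (nat_lit 65630) (nat_lit 14) (.e (nat_lit 401459) (nat_lit 13) (.e (nat_lit 483344) (nat_lit 17) (.e (nat_lit 6714) (nat_lit 360) (.e (nat_lit 163851) (nat_lit 0) (.e (nat_lit 4574) (nat_lit 269) .nil))))))) (.g (nat_lit 0) .nil .nil))))) (.nd (nat_lit 5) (.nd (nat_lit 6) 
(.lf (nat_lit 27288) (.g (nat_lit 3818) (.e (nat_lit 1197) (nat_lit 88) (.e (nat_lit 65630) (nat_lit 14) (.e (nat_lit 401428) (nat_lit 3) (.e (nat_lit 204869) (nat_lit 29) (.e (nat_lit 360457) (nat_lit 0) (.e (nat_lit 3982) (nat_lit 239) .nil)))))) (.g (nat_lit 6) .nil .nil))) 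
(.lf (nat_lit 27352) (.g (nat_lit 2947) (.e (nat_lit 1197) (nat_lit 88) (.e (nat_lit 65630) (nat_lit 14) (.e (nat_lit 401458) (nat_lit 13) (.e (nat_lit 483396) (nat_lit 24) (.e (nat_lit 344091) (nat_lit 18) (.e (nat_lit 5875) (nat_lit 320) .nil)))))) (.g (nat_lit 5) .nil .nil)))) (.nd (nat_lit 6) 
(.lf (nat_lit 27320) (.g (nat_lit 1946) (.e (nat_lit 1197) (nat_lit 88) (.e (nat_lit 65630) (nat_lit 14) (.e (nat_lit 401438) (nat_lit 9) (.e (nat_lit 426555) (nat_lit 32) .nil)))) .nil)) 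
(.lf (nat_lit 27384) (.g (nat_lit 3732) (.e (nat_lit 1197) (nat_lit 88) (.e (nat_lit 65630) (nat_lit 14) (.e (nat_lit 401459) (nat_lit 13) (.e (nat_lit 483380) (nat_lit 23) (.e (nat_lit 336340) (nat_lit 21) .nil))))) .nil)))))) (.nd (nat_lit 3) (.nd (nat_lit 4) (.nd (nat_lit 5) (.nd (nat_lit 6) 
(.lf (nat_lit 27268) (.g (nat_lit 1454) (.e (nat_lit 1197) (nat_lit 88) (.e (nat_lit 65630) (nat_lit 14) (.e (nat_lit 401427) (nat_lit 3) (.e (nat_lit 204869) (nat_lit 29) .nil)))) .nil)) 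
(.lf (nat_lit 27332) (.g (nat_lit 4177) (.e (nat_lit 1197) (nat_lit 88) (.e (nat_lit 65630) (nat_lit 14) (.e (nat_lit 401454) (nat_lit 12) (.e (nat_lit 475214) (nat_lit 42) (.e (nat_lit 720956) (nat_lit 25) (.e (nat_lit 114712) (nat_lit 21) (.e (nat_lit 57673) (nat_lit 152) .nil))))))) (.g (nat_lit 5) .nil .nil)))) (.nd (nat_lit 6) 
(.lf (nat_lit 27300) (.g (nat_lit 2926) (.e (nat_lit 1197) (nat_lit 88) (.e (nat_lit 65630) (nat_lit 14) (.e (nat_lit 401437) (nat_lit 9) (.e (nat_lit 426544) (nat_lit 30) (.e (nat_lit 360449) (nat_lit 0) .nil))))) .nil)) 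
(.lf (nat_lit 27364) (.g (nat_lit 3915) (.e (nat_lit 1197) (nat_lit 88) (.e (nat_lit 65630) (nat_lit 14) (.e (nat_lit 401459) (nat_lit 13) (.e (nat_lit 483344) (nat_lit 17) (.e (nat_lit 6714) (nat_lit 360) (.e (nat_lit 163841) (nat_lit 0) (.e (nat_lit 4588) (nat_lit 269) .nil))))))) (.g (nat_lit 6) .nil .nil))))) (.nd (nat_lit 5) (.nd (nat_lit 6) 
(.lf (nat_lit 27284) (.g (nat_lit 4897) (.e (nat_lit 1197) (nat_lit 88) (.e (nat_lit 65630) (nat_lit 14) (.e (nat_lit 401428) (nat_lit 3) (.e (nat_lit 204869) (nat_lit 29) (.e (nat_lit 360451) (nat_lit 0) (.e (nat_lit 3982) (nat_lit 239) .nil)))))) (.g (nat_lit 5) .nil .nil))) 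
(.lf (nat_lit 27348) (.g (nat_lit 2117) (.e (nat_lit 1197) (nat_lit 88) (.e (nat_lit 65630) (nat_lit 14) (.e (nat_lit 401458) (nat_lit 13) (.e (nat_lit 483395) (nat_lit 24) (.e (nat_lit 344091) (nat_lit 18) .nil))))) .nil))) (.nd (nat_lit 6) 
(.lf (nat_lit 27316) (.g (nat_lit 2794) (.e (nat_lit 1197) (nat_lit 88) (.e (nat_lit 65630) (nat_lit 14) (.e (nat_lit 401438) (nat_lit 9) (.e (nat_lit 426544) (nat_lit 30) (.e (nat_lit 360457) (nat_lit 0) (.e (nat_lit 5872) (nat_lit 320) .nil)))))) (.g (nat_lit 6) .nil .nil))) 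
(.lf (nat_lit 27380) (.g (nat_lit 3530) (.e (nat_lit 1197) (nat_lit 88) (.e (nat_lit 65630) (nat_lit 14) (.e (nat_lit 401459) (nat_lit 13) (.e (nat_lit 483380) (nat_lit 23) (.e (nat_lit 336309) (nat_lit 16) .nil))))) .nil))))) (.nd (nat_lit 4) (.nd (nat_lit 5) (.nd (nat_lit 6) 
(.lf (nat_lit 27276) (.g (nat_lit 2217) (.e (nat_lit 1197) (nat_lit 88) (.e (nat_lit 65630) (nat_lit 14) (.e (nat_lit 401428) (nat_lit 3) (.e (nat_lit 204868) (nat_lit 29) (.e (nat_lit 360456) (nat_lit 0) .nil))))) .nil)) 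
(.lf (nat_lit 27340) (.g (nat_lit 1378) (.e (nat_lit 1197) (nat_lit 88) (.e (nat_lit 65630) (nat_lit 14) (.e (nat_lit 401458) (nat_lit 13) (.e (nat_lit 483383) (nat_lit 23) .nil)))) .nil))) (.nd (nat_lit 6) 
(.lf (nat_lit 27308) (.g (nat_lit 2317) (.e (nat_lit 1197) (nat_lit 88) (.e (nat_lit 65630) (nat_lit 14) (.e (nat_lit 401438) (nat_lit 9) (.e (nat_lit 426542) (nat_lit 29) (.e (nat_lit 352290) (nat_lit 20) .nil))))) .nil)) 
(.lf (nat_lit 27372) (.g (nat_lit 3287) (.e (nat_lit 1197) (nat_lit 88) (.e (nat_lit 65630) (nat_lit 14) (.e (nat_lit 401459) (nat_lit 13) (.e (nat_lit 483372) (nat_lit 21) (.e (nat_lit 327424) (nat_lit 1) .nil))))) .nil)))) (.nd (nat_lit 5) (.nd (nat_lit 6) 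
(.lf (nat_lit 27292) (.g (nat_lit 1598) (.e (nat_lit 1197) (nat_lit 88) (.e (nat_lit 65630) (nat_lit 14) (.e (nat_lit 401436) (nat_lit 9) (.e (nat_lit 426544) (nat_lit 30) .nil)))) .nil)) 
(.lf (nat_lit 27356) (.g (nat_lit 2522) (.e (nat_lit 1197) (nat_lit 88) (.e (nat_lit 65630) (nat_lit 14) (.e (nat_lit 401459) (nat_lit 13) (.e (nat_lit 483343) (nat_lit 17) .nil)))) .nil))) (.nd (nat_lit 6) 
(.lf (nat_lit 27324) (.g (nat_lit 2040) (.e (nat_lit 1197) (nat_lit 88) (.e (nat_lit 65630) (nat_lit 14) (.e (nat_lit 401454) (nat_lit 12) (.e (nat_lit 475193) (nat_lit 38) .nil)))) .nil)) 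
(.lf (nat_lit 27388) (.g (nat_lit 3050) (.e (nat_lit 1197) (nat_lit 88) (.e (nat_lit 65630) (nat_lit 14) (.e (nat_lit 401459) (nat_lit 13) (.e (nat_lit 483389) (nat_lit 23) .nil)))) .nil))))))) (.nd (nat_lit 2) (.nd (nat_lit 3) (.nd (nat_lit 4) (.nd (nat_lit 5) (.nd (nat_lit 6) 
(.lf (nat_lit 27266) (.g (nat_lit 918) (.e (nat_lit 1197) (nat_lit 88) (.e (nat_lit 65630) (nat_lit 14) (.e (nat_lit 401427) (nat_lit 3) .nil))) .nil)) 
(.lf (nat_lit 27330) (.g (nat_lit 2974) (.e (nat_lit 1197) (nat_lit 88) (.e (nat_lit 65630) (nat_lit 14) (.e (nat_lit 401454) (nat_lit 12) (.e (nat_lit 475214) (nat_lit 42) .nil)))) .nil))) (.nd (nat_lit 6) 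
(.lf (nat_lit 27298) (.g (nat_lit 1917) (.e (nat_lit 1197) (nat_lit 88) (.e (nat_lit 65630) (nat_lit 14) (.e (nat_lit 401437) (nat_lit 9) (.e (nat_lit 426544) (nat_lit 30) .nil)))) .nil)) 
(.lf (nat_lit 27362) (.g (nat_lit 4262) (.e (nat_lit 1197) (nat_lit 88) (.e (nat_lit 65630) (nat_lit 14) (.e (nat_lit 401459) (nat_lit 13) (.e (nat_lit 483344) (nat_lit 17) (.e (nat_lit 6712) (nat_lit 360) (.e (nat_lit 163851) (nat_lit 0) (.e (nat_lit 4574) (nat_lit 269) .nil))))))) (.g (nat_lit 5) .nil .nil))))) (.nd (nat_lit 5) (.nd (nat_lit 6) 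
(.lf (nat_lit 27282) (.g (nat_lit 4943) (.e (nat_lit 1197) (nat_lit 88) (.e (nat_lit 65630) (nat_lit 14) (.e (nat_lit 401428) (nat_lit 3) (.e (nat_lit 204869) (nat_lit 29) (.e (nat_lit 360450) (nat_lit 0) (.e (nat_lit 3950) (nat_lit 239) .nil)))))) (.g (nat_lit 6) .nil .nil))) 
(.lf (nat_lit 27346) (.g (nat_lit 1456) (.e (nat_lit 1197) (nat_lit 88) (.e (nat_lit 65630) (nat_lit 14) (.e (nat_lit 401458) (nat_lit 13) (.e (nat_lit 483395) (nat_lit 24) .nil)))) .nil))) (.nd (nat_lit 6) 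
(.lf (nat_lit 27314) (.g (nat_lit 2264) (.e (nat_lit 1197) (nat_lit 88) (.e (nat_lit 65630) (nat_lit 14) (.e (nat_lit 401438) (nat_lit 9) (.e (nat_lit 426544) (nat_lit 30) (.e (nat_lit 360448) (nat_lit 0) .nil))))) .nil)) 
(.lf (nat_lit 27378) (.g (nat_lit 2550) (.e (nat_lit 1197) (nat_lit 88) (.e (nat_lit 65630) (nat_lit 14) (.e (nat_lit 401459) (nat_lit 13) (.e (nat_lit 483375) (nat_lit 22) .nil)))) .nil))))) (.nd (nat_lit 4) (.nd (nat_lit 5) (.nd (nat_lit 6) 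
(.lf (nat_lit 27274) (.g (nat_lit 3599) (.e (nat_lit 1197) (nat_lit 88) (.e (nat_lit 65630) (nat_lit 14) (.e (nat_lit 401428) (nat_lit 3) (.e (nat_lit 204866) (nat_lit 28) (.e (nat_lit 352318) (nat_lit 24) (.e (nat_lit 123043) (nat_lit 140) .nil)))))) (.g (nat_lit 6) .nil .nil))) 
(.lf (nat_lit 27338) (.g (nat_lit 2139) (.e (nat_lit 1197) (nat_lit 88) (.e (nat_lit 65630) (nat_lit 14) (.e (nat_lit 401457) (nat_lit 13) (.e (nat_lit 483395) (nat_lit 24) .nil)))) .nil))) (.nd (nat_lit 6) 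
(.lf (nat_lit 27306) (.g (nat_lit 2456) (.e (nat_lit 1197) (nat_lit 88) (.e (nat_lit 65630) (nat_lit 14) (.e (nat_lit 401437) (nat_lit 9) (.e (nat_lit 426555) (nat_lit 32) (.e (nat_lit 376860) (nat_lit 21) .nil))))) .nil)) 
(.lf (nat_lit 27370) (.g (nat_lit 2825) (.e (nat_lit 1197) (nat_lit 88) (.e (nat_lit 65630) (nat_lit 14) (.e (nat_lit 401459) (nat_lit 13) (.e (nat_lit 483350) (nat_lit 17) (.e (nat_lit 6113) (nat_lit 332) .nil))))) .nil)))) (.nd (nat_lit 5) (.nd (nat_lit 6) 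
(.lf (nat_lit 27290) (.g (nat_lit 2051) (.e (nat_lit 1197) (nat_lit 88) (.e (nat_lit 65630) (nat_lit 14) (.e (nat_lit 401428) (nat_lit 3) (.e (nat_lit 204877) (nat_lit 31) (.e (nat_lit 376860) (nat_lit 21) .nil))))) .nil)) 
(.lf (nat_lit 27354) (.g (nat_lit 1397) (.e (nat_lit 1197) (nat_lit 88) (.e (nat_lit 65630) (nat_lit 14) (.e (nat_lit 401458) (nat_lit 13) (.e (nat_lit 483399) (nat_lit 25) .nil)))) .nil))) (.nd (nat_lit 6) 
(.lf (nat_lit 27322) (.g (nat_lit 2613) (.e (nat_lit 1197) (nat_lit 88) (.e (nat_lit 65630) (nat_lit 14) (.e (nat_lit 401438) (nat_lit 9) (.e (nat_lit 426555) (nat_lit 32) (.e (nat_lit 376859) (nat_lit 21) .nil))))) .nil)) 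
(.lf (nat_lit 27386) (.g (nat_lit 2993) (.e (nat_lit 1197) (nat_lit 88) (.e (nat_lit 65630) (nat_lit 14) (.e (nat_lit 401459) (nat_lit 13) (.e (nat_lit 483383) (nat_lit 23) .nil)))) .nil)))))) (.nd (nat_lit 3) (.nd (nat_lit 4) (.nd (nat_lit 5) (.nd (nat_lit 6) 
(.lf (nat_lit 27270) (.g (nat_lit 2604) (.e (nat_lit 1197) (nat_lit 88) (.e (nat_lit 65630) (nat_lit 14) (.e (nat_lit 401427) (nat_lit 3) (.e (nat_lit 204869) (nat_lit 29) (.e (nat_lit 360451) (nat_lit 0) .nil))))) .nil)) 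
(.lf (nat_lit 27334) (.g (nat_lit 1710) (.e (nat_lit 1197) (nat_lit 88) (.e (nat_lit 65630) (nat_lit 14) (.e (nat_lit 401456) (nat_lit 13) (.e (nat_lit 483395) (nat_lit 24) .nil)))) .nil))) (.nd (nat_lit 6) 
(.lf (nat_lit 27302) (.g (nat_lit 1944) (.e (nat_lit 1197) (nat_lit 88) (.e (nat_lit 65630) (nat_lit 14) (.e (nat_lit 401437) (nat_lit 9) (.e (nat_lit 426546) (nat_lit 30) .nil)))) .nil)) 
(.lf (nat_lit 27366) (.g (nat_lit 4621) (.e (nat_lit 1197) (nat_lit 88) (.e (nat_lit 65630) (nat_lit 14) (.e (nat_lit 401459) (nat_lit 13) (.e (nat_lit 483344) (nat_lit 17) (.e (nat_lit 6714) (nat_lit 360) (.e (nat_lit 163843) (nat_lit 0) (.e (nat_lit 4588) (nat_lit 269) .nil))))))) (.g (nat_lit 6) .nil .nil))))) (.nd (nat_lit 5) (.nd (nat_lit 6) 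
(.lf (nat_lit 27286) (.g (nat_lit 3681) (.e (nat_lit 1197) (nat_lit 88) (.e (nat_lit 65630) (nat_lit 14) (.e (nat_lit 401428) (nat_lit 3) (.e (nat_lit 204869) (nat_lit 29) (.e (nat_lit 360455) (nat_lit 0) (.e (nat_lit 3982) (nat_lit 239) .nil)))))) (.g (nat_lit 5) .nil .nil))) 
(.lf (nat_lit 27350) (.g (nat_lit 1517) (.e (nat_lit 1197) (nat_lit 88) (.e (nat_lit 65630) (nat_lit 14) (.e (nat_lit 401458) (nat_lit 13) (.e (nat_lit 483396) (nat_lit 24) .nil)))) .nil))) (.nd (nat_lit 6) 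
(.lf (nat_lit 27318) (.g (nat_lit 2152) (.e (nat_lit 1197) (nat_lit 88) (.e (nat_lit 65630) (nat_lit 14) (.e (nat_lit 401438) (nat_lit 9) (.e (nat_lit 426546) (nat_lit 30) (.e (nat_lit 360448) (nat_lit 0) .nil))))) .nil)) 
(.lf (nat_lit 27382) (.g (nat_lit 3870) (.e (nat_lit 1197) (nat_lit 88) (.e (nat_lit 65630) (nat_lit 14) (.e (nat_lit 401459) (nat_lit 13) (.e (nat_lit 483380) (nat_lit 23) (.e (nat_lit 336312) (nat_lit 16) .nil))))) .nil))))) (.nd (nat_lit 4) (.nd (nat_lit 5) (.nd (nat_lit 6) 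
(.lf (nat_lit 27278) (.g (nat_lit 2697) (.e (nat_lit 1197) (nat_lit 88) (.e (nat_lit 65630) (nat_lit 14) (.e (nat_lit 401428) (nat_lit 3) (.e (nat_lit 204869) (nat_lit 29) (.e (nat_lit 360448) (nat_lit 0) (.e (nat_lit 3939) (nat_lit 239) .nil)))))) (.g (nat_lit 4) .nil .nil))) 
(.lf (nat_lit 27342) (.g (nat_lit 1411) (.e (nat_lit 1197) (nat_lit 88) (.e (nat_lit 65630) (nat_lit 14) (.e (nat_lit 401458) (nat_lit 13) (.e (nat_lit 483393) (nat_lit 23) .nil)))) .nil))) (.nd (nat_lit 6) 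
(.lf (nat_lit 27310) (.g (nat_lit 2336) (.e (nat_lit 1197) (nat_lit 88) (.e (nat_lit 65630) (nat_lit 14) (.e (nat_lit 401438) (nat_lit 9) (.e (nat_lit 426542) (nat_lit 29) (.e (nat_lit 352307) (nat_lit 21) .nil))))) .nil)) 
(.lf (nat_lit 27374) (.g (nat_lit 4994) (.e (nat_lit 1197) (nat_lit 88) (.e (nat_lit 65630) (nat_lit 14) (.e (nat_lit 401459) (nat_lit 13) (.e (nat_lit 483372) (nat_lit 21) (.e (nat_lit 319505) (nat_lit 10) .nil))))) .nil)))) (.nd (nat_lit 5) (.nd (nat_lit 6) 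
(.lf (nat_lit 27294) (.g (nat_lit 1609) (.e (nat_lit 1197) (nat_lit 88) (.e (nat_lit 65630) (nat_lit 14) (.e (nat_lit 401436) (nat_lit 9) (.e (nat_lit 426546) (nat_lit 30) .nil)))) .nil)) 
(.lf (nat_lit 27358) (.g (nat_lit 3262) (.e (nat_lit 1197) (nat_lit 88) (.e (nat_lit 65630) (nat_lit 14) (.e (nat_lit 401459) (nat_lit 13) (.e (nat_lit 483344) (nat_lit 17) (.e (nat_lit 6712) (nat_lit 360) .nil))))) .nil))) (.nd (nat_lit 6) 
(.lf (nat_lit 27326) (.g (nat_lit 2953) (.e (nat_lit 1197) (nat_lit 88) (.e (nat_lit 65630) (nat_lit 14) (.e (nat_lit 401454) (nat_lit 12) (.e (nat_lit 475212) (nat_lit 42) (.e (nat_lit 720955) (nat_lit 25) .nil))))) .nil)) 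
(.lf (nat_lit 27390) (.g (nat_lit 2649) (.e (nat_lit 1197) (nat_lit 88) (.e (nat_lit 65630) (nat_lit 14) (.e (nat_lit 401459) (nat_lit 13) (.e (nat_lit 483393) (nat_lit 23) .nil)))) .nil)))))))) (.nd (nat_lit 1) (.nd (nat_lit 2) (.nd (nat_lit 3) (.nd (nat_lit 4) (.nd (nat_lit 5) (.nd (nat_lit 6) 
(.lf (nat_lit 27265) (.g (nat_lit 2097) (.e (nat_lit 1197) (nat_lit 88) (.e (nat_lit 65630) (nat_lit 14) (.e (nat_lit 401425) (nat_lit 2) (.e (nat_lit 196674) (nat_lit 15) .nil)))) .nil)) 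
(.lf (nat_lit 27329) (.g (nat_lit 3881) (.e (nat_lit 1197) (nat_lit 88) (.e (nat_lit 65630) (nat_lit 14) (.e (nat_lit 401454) (nat_lit 12) (.e (nat_lit 475213) (nat_lit 42) (.e (nat_lit 720956) (nat_lit 25) (.e (nat_lit 114712) (nat_lit 21) (.e (nat_lit 57673) (nat_lit 152) .nil))))))) (.g (nat_lit 5) .nil .nil)))) (.nd (nat_lit 6) 
(.lf (nat_lit 27297) (.g (nat_lit 1708) (.e (nat_lit 1197) (nat_lit 88) (.e (nat_lit 65630) (nat_lit 14) (.e (nat_lit 401437) (nat_lit 9) (.e (nat_lit 426542) (nat_lit 29) .nil)))) .nil)) 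
(.lf (nat_lit 27361) (.g (nat_lit 4290) (.e (nat_lit 1197) (nat_lit 88) (.e (nat_lit 65630) (nat_lit 14) (.e (nat_lit 401459) (nat_lit 13) (.e (nat_lit 483344) (nat_lit 17) (.e (nat_lit 6712) (nat_lit 360) (.e (nat_lit 163850) (nat_lit 0) (.e (nat_lit 4574) (nat_lit 269) .nil))))))) (.g (nat_lit 5) .nil .nil))))) (.nd (nat_lit 5) (.nd (nat_lit 6) 
(.lf (nat_lit 27281) (.g (nat_lit 2382) (.e (nat_lit 1197) (nat_lit 88) (.e (nat_lit 65630) (nat_lit 14) (.e (nat_lit 401428) (nat_lit 3) (.e (nat_lit 204869) (nat_lit 29) (.e (nat_lit 360449) (nat_lit 0) .nil))))) .nil)) 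
(.lf (nat_lit 27345) (.g (nat_lit 1433) (.e (nat_lit 1197) (nat_lit 88) (.e (nat_lit 65630) (nat_lit 14) (.e (nat_lit 401458) (nat_lit 13) (.e (nat_lit 483394) (nat_lit 24) .nil)))) .nil))) (.nd (nat_lit 6) 
(.lf (nat_lit 27313) (.g (nat_lit 1818) (.e (nat_lit 1197) (nat_lit 88) (.e (nat_lit 65630) (nat_lit 14) (.e (nat_lit 401438) (nat_lit 9) (.e (nat_lit 426544) (nat_lit 30) .nil)))) .nil)) 
(.lf (nat_lit 27377) (.g (nat_lit 2866) (.e (nat_lit 1197) (nat_lit 88) (.e (nat_lit 65630) (nat_lit 14) (.e (nat_lit 401459) (nat_lit 13) (.e (nat_lit 483374) (nat_lit 22) .nil)))) .nil))))) (.nd (nat_lit 4) (.nd (nat_lit 5) (.nd (nat_lit 6) 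
(.lf (nat_lit 27273) (.g (nat_lit 2500) (.e (nat_lit 1197) (nat_lit 88) (.e (nat_lit 65630) (nat_lit 14) (.e (nat_lit 401428) (nat_lit 3) (.e (nat_lit 204866) (nat_lit 28) (.e (nat_lit 352318) (nat_lit 24) (.e (nat_lit 123039) (nat_lit 140) .nil)))))) (.g (nat_lit 4) .nil .nil))) 
(.lf (nat_lit 27337) (.g (nat_lit 2395) (.e (nat_lit 1197) (nat_lit 88) (.e (nat_lit 65630) (nat_lit 14) (.e (nat_lit 401457) (nat_lit 13) (.e (nat_lit 483393) (nat_lit 23) (.e (nat_lit 335988) (nat_lit 1) .nil))))) .nil))) (.nd (nat_lit 6) 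
(.lf (nat_lit 27305) (.g (nat_lit 1777) (.e (nat_lit 1197) (nat_lit 88) (.e (nat_lit 65630) (nat_lit 14) (.e (nat_lit 401437) (nat_lit 9) (.e (nat_lit 426555) (nat_lit 32) .nil)))) .nil)) 
(.lf (nat_lit 27369) (.g (nat_lit 2076) (.e (nat_lit 1197) (nat_lit 88) (.e (nat_lit 65630) (nat_lit 14) (.e (nat_lit 401459) (nat_lit 13) (.e (nat_lit 483350) (nat_lit 17) .nil)))) .nil)))) (.nd (nat_lit 5) (.nd (nat_lit 6) 
(.lf (nat_lit 27289) (.g (nat_lit 1542) (.e (nat_lit 1197) (nat_lit 88) (.e (nat_lit 65630) (nat_lit 14) (.e (nat_lit 401428) (nat_lit 3) (.e (nat_lit 204877) (nat_lit 31) .nil)))) .nil)) 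
(.lf (nat_lit 27353) (.g (nat_lit 1417) (.e (nat_lit 1197) (nat_lit 88) (.e (nat_lit 65630) (nat_lit 14) (.e (nat_lit 401458) (nat_lit 13) (.e (nat_lit 483398) (nat_lit 25) .nil)))) .nil))) (.nd (nat_lit 6) 
(.lf (nat_lit 27321) (.g (nat_lit 2642) (.e (nat_lit 1197) (nat_lit 88) (.e (nat_lit 65630) (nat_lit 14) (.e (nat_lit 401438) (nat_lit 9) (.e (nat_lit 426555) (nat_lit 32) (.e (nat_lit 376857) (nat_lit 21) .nil))))) .nil)) 
(.lf (nat_lit 27385) (.g (nat_lit 3834) (.e (nat_lit 1197) (nat_lit 88) (.e (nat_lit 65630) (nat_lit 14) (.e (nat_lit 401459) (nat_lit 13) (.e (nat_lit 483380) (nat_lit 23) (.e (nat_lit 336342) (nat_lit 21) .nil))))) .nil)))))) (.nd (nat_lit 3) (.nd (nat_lit 4) (.nd (nat_lit 5) (.nd (nat_lit 6) 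
(.lf (nat_lit 27269) (.g (nat_lit 2577) (.e (nat_lit 1197) (nat_lit 88) (.e (nat_lit 65630) (nat_lit 14) (.e (nat_lit 401427) (nat_lit 3) (.e (nat_lit 204869) (nat_lit 29) (.e (nat_lit 360450) (nat_lit 0) .nil))))) .nil)) 
(.lf (nat_lit 27333) (.g (nat_lit 780) (.e (nat_lit 1197) (nat_lit 88) (.e (nat_lit 65630) (nat_lit 14) (.e (nat_lit 401456) (nat_lit 13) .nil))) .nil))) (.nd (nat_lit 6) 
(.lf (nat_lit 27301) (.g (nat_lit 2482) (.e (nat_lit 1197) (nat_lit 88) (.e (nat_lit 65630) (nat_lit 14) (.e (nat_lit 401437) (nat_lit 9) (.e (nat_lit 426544) (nat_lit 30) (.e (nat_lit 360457) (nat_lit 0) .nil))))) .nil)) 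
(.lf (nat_lit 27365) (.g (nat_lit 3528) (.e (nat_lit 1197) (nat_lit 88) (.e (nat_lit 65630) (nat_lit 14) (.e (nat_lit 401459) (nat_lit 13) (.e (nat_lit 483344) (nat_lit 17) (.e (nat_lit 6714) (nat_lit 360) (.e (nat_lit 163841) (nat_lit 0) (.e (nat_lit 4622) (nat_lit 269) .nil))))))) (.g (nat_lit 5) .nil .nil))))) (.nd (nat_lit 5) (.nd (nat_lit 6) 
(.lf (nat_lit 27285) (.g (nat_lit 2862) (.e (nat_lit 1197) (nat_lit 88) (.e (nat_lit 65630) (nat_lit 14) (.e (nat_lit 401428) (nat_lit 3) (.e (nat_lit 204869) (nat_lit 29) (.e (nat_lit 360454) (nat_lit 0) (.e (nat_lit 3942) (nat_lit 239) .nil)))))) (.g (nat_lit 4) .nil .nil))) 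
(.lf (nat_lit 27349) (.g (nat_lit 2122) (.e (nat_lit 1197) (nat_lit 88) (.e (nat_lit 65630) (nat_lit 14) (.e (nat_lit 401458) (nat_lit 13) (.e (nat_lit 483395) (nat_lit 24) (.e (nat_lit 344096) (nat_lit 18) .nil))))) .nil))) (.nd (nat_lit 6) 
(.lf (nat_lit 27317) (.g (nat_lit 1816) (.e (nat_lit 1197) (nat_lit 88) (.e (nat_lit 65630) (nat_lit 14) (.e (nat_lit 401438) (nat_lit 9) (.e (nat_lit 426546) (nat_lit 30) .nil)))) .nil)) 
(.lf (nat_lit 27381) (.g (nat_lit 3999) (.e (nat_lit 1197) (nat_lit 88) (.e (nat_lit 65630) (nat_lit 14) (.e (nat_lit 401459) (nat_lit 13) (.e (nat_lit 483380) (nat_lit 23) (.e (nat_lit 336310) (nat_lit 16) (.e (nat_lit 164250) (nat_lit 209) .nil)))))) (.g (nat_lit 0) .nil .nil)))))) (.nd (nat_lit 4) (.nd (nat_lit 5) (.nd (nat_lit 6) 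
(.lf (nat_lit 27277) (.g (nat_lit 2275) (.e (nat_lit 1197) (nat_lit 88) (.e (nat_lit 65630) (nat_lit 14) (.e (nat_lit 401428) (nat_lit 3) (.e (nat_lit 204869) (nat_lit 29) (.e (nat_lit 360448) (nat_lit 0) .nil))))) .nil)) 
(.lf (nat_lit 27341) (.g (nat_lit 2045) (.e (nat_lit 1197) (nat_lit 88) (.e (nat_lit 65630) (nat_lit 14) (.e (nat_lit 401458) (nat_lit 13) (.e (nat_lit 483383) (nat_lit 23) (.e (nat_lit 335878) (nat_lit 0) (.e (nat_lit 996) (nat_lit 81) (.e (nat_lit 5920) (nat_lit 320) .nil))))))) (.g (nat_lit 4) .nil .nil)))) (.nd (nat_lit 6) 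
(.lf (nat_lit 27309) (.g (nat_lit 2359) (.e (nat_lit 1197) (nat_lit 88) (.e (nat_lit 65630) (nat_lit 14) (.e (nat_lit 401438) (nat_lit 9) (.e (nat_lit 426542) (nat_lit 29) (.e (nat_lit 352297) (nat_lit 20) .nil))))) .nil)) 
(.lf (nat_lit 27373) (.g (nat_lit 5038) (.e (nat_lit 1197) (nat_lit 88) (.e (nat_lit 65630) (nat_lit 14) (.e (nat_lit 401459) (nat_lit 13) (.e (nat_lit 483372) (nat_lit 21) (.e (nat_lit 319504) (nat_lit 10) .nil))))) .nil)))) (.nd (nat_lit 5) (.nd (nat_lit 6) 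
(.lf (nat_lit 27293) (.g (nat_lit 1912) (.e (nat_lit 1197) (nat_lit 88) (.e (nat_lit 65630) (nat_lit 14) (.e (nat_lit 401436) (nat_lit 9) (.e (nat_lit 426544) (nat_lit 30) (.e (nat_lit 360457) (nat_lit 0) .nil))))) .nil)) 
(.lf (nat_lit 27357) (.g (nat_lit 2433) (.e (nat_lit 1197) (nat_lit 88) (.e (nat_lit 65630) (nat_lit 14) (.e (nat_lit 401459) (nat_lit 13) (.e (nat_lit 483344) (nat_lit 17) .nil)))) .nil))) (.nd (nat_lit 6) 
(.lf (nat_lit 27325) (.g (nat_lit 2316) (.e (nat_lit 1197) (nat_lit 88) (.e (nat_lit 65630) (nat_lit 14) (.e (nat_lit 401454) (nat_lit 12) (.e (nat_lit 475212) (nat_lit 42) .nil)))) .nil)) 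
(.lf (nat_lit 27389) (.g (nat_lit 2820) (.e (nat_lit 1197) (nat_lit 88) (.e (nat_lit 65630) (nat_lit 14) (.e (nat_lit 401459) (nat_lit 13) (.e (nat_lit 483391) (nat_lit 23) .nil)))) .nil))))))) (.nd (nat_lit 2) (.nd (nat_lit 3) (.nd (nat_lit 4) (.nd (nat_lit 5) (.nd (nat_lit 6) 
(.lf (nat_lit 27267) (.g (nat_lit 2585) (.e (nat_lit 1197) (nat_lit 88) (.e (nat_lit 65630) (nat_lit 14) (.e (nat_lit 401427) (nat_lit 3) (.e (nat_lit 204866) (nat_lit 28) (.e (nat_lit 352318) (nat_lit 24) (.e (nat_lit 123043) (nat_lit 140) .nil)))))) (.g (nat_lit 4) .nil .nil))) 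
(.lf (nat_lit 27331) (.g (nat_lit 4121) (.e (nat_lit 1197) (nat_lit 88) (.e (nat_lit 65630) (nat_lit 14) (.e (nat_lit 401454) (nat_lit 12) (.e (nat_lit 475214) (nat_lit 42) (.e (nat_lit 720955) (nat_lit 25) .nil))))) .nil))) (.nd (nat_lit 6) 
(.lf (nat_lit 27299) (.g (nat_lit 2926) (.e (nat_lit 1197) (nat_lit 88) (.e (nat_lit 65630) (nat_lit 14) (.e (nat_lit 401437) (nat_lit 9) (.e (nat_lit 426544) (nat_lit 30) (.e (nat_lit 360448) (nat_lit 0) .nil))))) .nil)) 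
(.lf (nat_lit 27363) (.g (nat_lit 3154) (.e (nat_lit 1197) (nat_lit 88) (.e (nat_lit 65630) (nat_lit 14) (.e (nat_lit 401459) (nat_lit 13) (.e (nat_lit 483344) (nat_lit 17) (.e (nat_lit 6714) (nat_lit 360) .nil))))) .nil)))) (.nd (nat_lit 5) (.nd (nat_lit 6) 
(.lf (nat_lit 27283) (.g (nat_lit 5200) (.e (nat_lit 1197) (nat_lit 88) (.e (nat_lit 65630) (nat_lit 14) (.e (nat_lit 401428) (nat_lit 3) (.e (nat_lit 204869) (nat_lit 29) (.e (nat_lit 360451) (nat_lit 0) (.e (nat_lit 3950) (nat_lit 239) .nil)))))) (.g (nat_lit 6) .nil .nil))) 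
(.lf (nat_lit 27347) (.g (nat_lit 2015) (.e (nat_lit 1197) (nat_lit 88) (.e (nat_lit 65630) (nat_lit 14) (.e (nat_lit 401458) (nat_lit 13) (.e (nat_lit 483395) (nat_lit 24) (.e (nat_lit 344088) (nat_lit 18) (.e (nat_lit 5920) (nat_lit 320) .nil)))))) (.g (nat_lit 4) .nil .nil)))) (.nd (nat_lit 6) 
(.lf (nat_lit 27315) (.g (nat_lit 2263) (.e (nat_lit 1197) (nat_lit 88) (.e (nat_lit 65630) (nat_lit 14) (.e (nat_lit 401438) (nat_lit 9) (.e (nat_lit 426544) (nat_lit 30) (.e (nat_lit 360449) (nat_lit 0) .nil))))) .nil)) 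
(.lf (nat_lit 27379) (.g (nat_lit 2325) (.e (nat_lit 1197) (nat_lit 88) (.e (nat_lit 65630) (nat_lit 14) (.e (nat_lit 401459) (nat_lit 13) (.e (nat_lit 483380) (nat_lit 23) .nil)))) .nil))))) (.nd (nat_lit 4) (.nd (nat_lit 5) (.nd (nat_lit 6) 
(.lf (nat_lit 27275) (.g (nat_lit 3327) (.e (nat_lit 1197) (nat_lit 88) (.e (nat_lit 65630) (nat_lit 14) (.e (nat_lit 401428) (nat_lit 3) (.e (nat_lit 204868) (nat_lit 29) (.e (nat_lit 360452) (nat_lit 0) (.e (nat_lit 3946) (nat_lit 239) .nil)))))) (.g (nat_lit 6) .nil .nil))) 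
(.lf (nat_lit 27339) (.g (nat_lit 493) (.e (nat_lit 1197) (nat_lit 88) (.e (nat_lit 65630) (nat_lit 14) (.e (nat_lit 401458) (nat_lit 13) .nil))) .nil))) (.nd (nat_lit 6) 
(.lf (nat_lit 27307) (.g (nat_lit 1823) (.e (nat_lit 1197) (nat_lit 88) (.e (nat_lit 65630) (nat_lit 14) (.e (nat_lit 401438) (nat_lit 9) (.e (nat_lit 426542) (nat_lit 29) .nil)))) .nil)) 
(.lf (nat_lit 27371) (.g (nat_lit 2974) (.e (nat_lit 1197) (nat_lit 88) (.e (nat_lit 65630) (nat_lit 14) (.e (nat_lit 401459) (nat_lit 13) (.e (nat_lit 483350) (nat_lit 17) (.e (nat_lit 6113) (nat_lit 332) (.e (nat_lit 1109) (nat_lit 82) (.e (nat_lit 8483) (nat_lit 168) .nil))))))) (.g (nat_lit 4) .nil .nil))))) (.nd (nat_lit 5) (.nd (nat_lit 6) 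
(.lf (nat_lit 27291) (.g (nat_lit 1431) (.e (nat_lit 1197) (nat_lit 88) (.e (nat_lit 65630) (nat_lit 14) (.e (nat_lit 401436) (nat_lit 9) (.e (nat_lit 426542) (nat_lit 29) .nil)))) .nil)) 
(.lf (nat_lit 27355) (.g (nat_lit 325) (.e (nat_lit 1197) (nat_lit 88) (.e (nat_lit 65630) (nat_lit 14) (.e (nat_lit 401459) (nat_lit 13) .nil))) .nil))) (.nd (nat_lit 6) 
(.lf (nat_lit 27323) (.g (nat_lit 2147) (.e (nat_lit 1197) (nat_lit 88) (.e (nat_lit 65630) (nat_lit 14) (.e (nat_lit 401454) (nat_lit 12) (.e (nat_lit 483072) (nat_lit 13) .nil)))) .nil)) 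
(.lf (nat_lit 27387) (.g (nat_lit 2386) (.e (nat_lit 1197) (nat_lit 88) (.e (nat_lit 65630) (nat_lit 14) (.e (nat_lit 401459) (nat_lit 13) (.e (nat_lit 483386) (nat_lit 23) .nil)))) .nil)))))) (.nd (nat_lit 3) (.nd (nat_lit 4) (.nd (nat_lit 5) (.nd (nat_lit 6) 
(.lf (nat_lit 27271) (.g (nat_lit 574) (.e (nat_lit 1197) (nat_lit 88) (.e (nat_lit 65630) (nat_lit 14) (.e (nat_lit 401428) (nat_lit 3) .nil))) .nil)) 
(.lf (nat_lit 27335) (.g (nat_lit 1777) (.e (nat_lit 1197) (nat_lit 88) (.e (nat_lit 65630) (nat_lit 14) (.e (nat_lit 401457) (nat_lit 13) (.e (nat_lit 483383) (nat_lit 23) .nil)))) .nil))) (.nd (nat_lit 6) 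
(.lf (nat_lit 27303) (.g (nat_lit 2994) (.e (nat_lit 1197) (nat_lit 88) (.e (nat_lit 65630) (nat_lit 14) (.e (nat_lit 401437) (nat_lit 9) (.e (nat_lit 426546) (nat_lit 30) (.e (nat_lit 360448) (nat_lit 0) .nil))))) .nil)) 
(.lf (nat_lit 27367) (.g (nat_lit 4887) (.e (nat_lit 1197) (nat_lit 88) (.e (nat_lit 65630) (nat_lit 14) (.e (nat_lit 401459) (nat_lit 13) (.e (nat_lit 483344) (nat_lit 17) (.e (nat_lit 6714) (nat_lit 360) (.e (nat_lit 163850) (nat_lit 0) (.e (nat_lit 4574) (nat_lit 269) .nil))))))) (.g (nat_lit 0) .nil .nil))))) (.nd (nat_lit 5) (.nd (nat_lit 6) 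
(.lf (nat_lit 27287) (.g (nat_lit 4002) (.e (nat_lit 1197) (nat_lit 88) (.e (nat_lit 65630) (nat_lit 14) (.e (nat_lit 401428) (nat_lit 3) (.e (nat_lit 204869) (nat_lit 29) (.e (nat_lit 360456) (nat_lit 0) (.e (nat_lit 3982) (nat_lit 239) .nil)))))) (.g (nat_lit 5) .nil .nil))) 
(.lf (nat_lit 27351) (.g (nat_lit 2146) (.e (nat_lit 1197) (nat_lit 88) (.e (nat_lit 65630) (nat_lit 14) (.e (nat_lit 401458) (nat_lit 13) (.e (nat_lit 483396) (nat_lit 24) (.e (nat_lit 344091) (nat_lit 18) .nil))))) .nil))) (.nd (nat_lit 6) 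
(.lf (nat_lit 27319) (.g (nat_lit 2151) (.e (nat_lit 1197) (nat_lit 88) (.e (nat_lit 65630) (nat_lit 14) (.e (nat_lit 401438) (nat_lit 9) (.e (nat_lit 426546) (nat_lit 30) (.e (nat_lit 360449) (nat_lit 0) .nil))))) .nil)) 
(.lf (nat_lit 27383) (.g (nat_lit 3373) (.e (nat_lit 1197) (nat_lit 88) (.e (nat_lit 65630) (nat_lit 14) (.e (nat_lit 401459) (nat_lit 13) (.e (nat_lit 483380) (nat_lit 23) (.e (nat_lit 336314) (nat_lit 16) .nil))))) .nil))))) (.nd (nat_lit 4) (.nd (nat_lit 5) (.nd (nat_lit 6) 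
(.lf (nat_lit 27279) (.g (nat_lit 2711) (.e (nat_lit 1197) (nat_lit 88) (.e (nat_lit 65630) (nat_lit 14) (.e (nat_lit 401428) (nat_lit 3) (.e (nat_lit 204869) (nat_lit 29) (.e (nat_lit 360448) (nat_lit 0) (.e (nat_lit 3959) (nat_lit 239) .nil)))))) (.g (nat_lit 4) .nil .nil))) 
(.lf (nat_lit 27343) (.g (nat_lit 1833) (.e (nat_lit 1197) (nat_lit 88) (.e (nat_lit 65630) (nat_lit 14) (.e (nat_lit 401458) (nat_lit 13) (.e (nat_lit 483393) (nat_lit 23) (.e (nat_lit 335987) (nat_lit 1) .nil))))) .nil))) (.nd (nat_lit 6) 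
(.lf (nat_lit 27311) (.g (nat_lit 2380) (.e (nat_lit 1197) (nat_lit 88) (.e (nat_lit 65630) (nat_lit 14) (.e (nat_lit 401438) (nat_lit 9) (.e (nat_lit 426542) (nat_lit 29) (.e (nat_lit 352307) (nat_lit 21) (.e (nat_lit 57868) (nat_lit 264) .nil)))))) (.g (nat_lit 4) .nil .nil))) 
(.lf (nat_lit 27375) (.g (nat_lit 4645) (.e (nat_lit 1197) (nat_lit 88) (.e (nat_lit 65630) (nat_lit 14) (.e (nat_lit 401459) (nat_lit 13) (.e (nat_lit 483372) (nat_lit 21) (.e (nat_lit 319514) (nat_lit 11) (.e (nat_lit 8483) (nat_lit 168) .nil)))))) (.g (nat_lit 4) .nil .nil))))) (.nd (nat_lit 5) (.nd (nat_lit 6) 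
(.lf (nat_lit 27295) (.g (nat_lit 1570) (.e (nat_lit 1197) (nat_lit 88) (.e (nat_lit 65630) (nat_lit 14) (.e (nat_lit 401436) (nat_lit 9) (.e (nat_lit 426555) (nat_lit 32) .nil)))) .nil)) 
(.lf (nat_lit 27359) (.g (nat_lit 4055) (.e (nat_lit 1197) (nat_lit 88) (.e (nat_lit 65630) (nat_lit 14) (.e (nat_lit 401459) (nat_lit 13) (.e (nat_lit 483344) (nat_lit 17) (.e (nat_lit 6712) (nat_lit 360) (.e (nat_lit 163843) (nat_lit 0) (.e (nat_lit 4588) (nat_lit 269) .nil))))))) (.g (nat_lit 5) .nil .nil)))) (.nd (nat_lit 6) 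
(.lf (nat_lit 27327) (.g (nat_lit 3525) (.e (nat_lit 1197) (nat_lit 88) (.e (nat_lit 65630) (nat_lit 14) (.e (nat_lit 401454) (nat_lit 12) (.e (nat_lit 475212) (nat_lit 42) (.e (nat_lit 720956) (nat_lit 25) (.e (nat_lit 114712) (nat_lit 21) (.e (nat_lit 57673) (nat_lit 152) .nil))))))) (.g (nat_lit 6) .nil .nil))) 
(.lf (nat_lit 27391) (.g (nat_lit 3320) (.e (nat_lit 1197) (nat_lit 88) (.e (nat_lit 65630) (nat_lit 14) (.e (nat_lit 401459) (nat_lit 13) (.e (nat_lit 483393) (nat_lit 23) (.e (nat_lit 335987) (nat_lit 1) .nil))))) .nil)))))))))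

noncomputable def tv378 : DT := (.nd (nat_lit 0) (.nd (nat_lit 1) (.nd (nat_lit 2) (.nd (nat_lit 3) (.nd (nat_lit 4) (.nd (nat_lit 5) (.nd (nat_lit 6) 
(.lf (nat_lit 27392) (.g (nat_lit 3276) (.e (nat_lit 1197) (nat_lit 88) (.e (nat_lit 65630) (nat_lit 14) (.e (nat_lit 401459) (nat_lit 13) (.e (nat_lit 483393) (nat_lit 23) (.e (nat_lit 335988) (nat_lit 1) (.e (nat_lit 57868) (nat_lit 264) .nil)))))) (.g (nat_lit 4) .nil .nil))) 
(.lf (nat_lit 27456) (.g (nat_lit 490) (.e (nat_lit 1198) (nat_lit 88) (.e (nat_lit 65629) (nat_lit 14) (.e (nat_lit 401459) (nat_lit 13) .nil))) .nil))) (.nd (nat_lit 6) 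
(.lf (nat_lit 27424) (.g (nat_lit 2551) (.e (nat_lit 1197) (nat_lit 88) (.e (nat_lit 65630) (nat_lit 14) (.e (nat_lit 401459) (nat_lit 13) (.e (nat_lit 483411) (nat_lit 27) (.e (nat_lit 401408) (nat_lit 0) .nil))))) .nil)) 
(.lf (nat_lit 27488) (.g (nat_lit 2559) (.e (nat_lit 1199) (nat_lit 88) (.e (nat_lit 65566) (nat_lit 2) (.e (nat_lit 90170) (nat_lit 13) (.e (nat_lit 172113) (nat_lit 10) (.e (nat_lit 434245) (nat_lit 28) (.e (nat_lit 573474) (nat_lit 12) (.e (nat_lit 57345) (nat_lit 0) (.e (nat_lit 7236) (nat_lit 382) .nil)))))))) (.g (nat_lit 4) .nil .nil))))) (.nd (nat_lit 5) (.nd (nat_lit 6) 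
(.lf (nat_lit 27408) (.g (nat_lit 3698) (.e (nat_lit 1197) (nat_lit 88) (.e (nat_lit 65630) (nat_lit 14) (.e (nat_lit 401459) (nat_lit 13) (.e (nat_lit 483396) (nat_lit 24) (.e (nat_lit 344091) (nat_lit 18) (.e (nat_lit 5875) (nat_lit 320) .nil)))))) (.g (nat_lit 5) .nil .nil))) 
(.lf (nat_lit 27472) (.g (nat_lit 3062) (.e (nat_lit 1199) (nat_lit 88) (.e (nat_lit 65546) (nat_lit 0) (.e (nat_lit 1842) (nat_lit 123) (.e (nat_lit 548889) (nat_lit 9) (.e (nat_lit 65617) (nat_lit 10) (.e (nat_lit 344130) (nat_lit 26) (.e (nat_lit 557090) (nat_lit 12) (.e (nat_lit 163843) (nat_lit 0) (.e (nat_lit 6047) (nat_lit 326) .nil))))))))) (.g (nat_lit 5) .nil .nil)))) (.nd (nat_lit 6) 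
(.lf (nat_lit 27440) (.g (nat_lit 2675) (.e (nat_lit 1198) (nat_lit 88) (.e (nat_lit 65571) (nat_lit 3) (.e (nat_lit 98370) (nat_lit 28) (.e (nat_lit 442427) (nat_lit 23) (.e (nat_lit 212736) (nat_lit 1) .nil))))) .nil)) 
(.lf (nat_lit 27504) (.g (nat_lit 2002) (.e (nat_lit 1199) (nat_lit 88) (.e (nat_lit 65568) (nat_lit 2) (.e (nat_lit 90170) (nat_lit 13) (.e (nat_lit 172106) (nat_lit 10) (.e (nat_lit 434244) (nat_lit 28) (.e (nat_lit 573468) (nat_lit 10) (.e (nat_lit 8193) (nat_lit 0) (.e (nat_lit 4450) (nat_lit 263) .nil)))))))) (.g (nat_lit 4) .nil .nil)))))) (.nd (nat_lit 4) (.nd (nat_lit 5) (.nd (nat_lit 6) 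
(.lf (nat_lit 27400) (.g (nat_lit 2847) (.e (nat_lit 1197) (nat_lit 88) (.e (nat_lit 65630) (nat_lit 14) (.e (nat_lit 401459) (nat_lit 13) (.e (nat_lit 483395) (nat_lit 24) (.e (nat_lit 344090) (nat_lit 18) .nil))))) .nil)) 
(.lf (nat_lit 27464) (.g (nat_lit 2944) (.e (nat_lit 1198) (nat_lit 88) (.e (nat_lit 65630) (nat_lit 14) (.e (nat_lit 401459) (nat_lit 13) (.e (nat_lit 483393) (nat_lit 23) .nil)))) .nil))) (.nd (nat_lit 6) 
(.lf (nat_lit 27432) (.g (nat_lit 2769) (.e (nat_lit 1197) (nat_lit 88) (.e (nat_lit 65630) (nat_lit 14) (.e (nat_lit 401459) (nat_lit 13) (.e (nat_lit 483411) (nat_lit 27) (.e (nat_lit 401414) (nat_lit 0) (.e (nat_lit 2429) (nat_lit 157) (.e (nat_lit 4573) (nat_lit 269) .nil))))))) (.g (nat_lit 4) .nil .nil))) 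
(.lf (nat_lit 27496) (.g (nat_lit 2336) (.e (nat_lit 1199) (nat_lit 88) (.e (nat_lit 65566) (nat_lit 2) (.e (nat_lit 90170) (nat_lit 13) (.e (nat_lit 172113) (nat_lit 10) (.e (nat_lit 434248) (nat_lit 28) (.e (nat_lit 573473) (nat_lit 12) (.e (nat_lit 57353) (nat_lit 0) (.e (nat_lit 7236) (nat_lit 382) .nil)))))))) (.g (nat_lit 4) .nil .nil))))) (.nd (nat_lit 5) (.nd (nat_lit 6) 
(.lf (nat_lit 27416) (.g (nat_lit 4546) (.e (nat_lit 1197) (nat_lit 88) (.e (nat_lit 65630) (nat_lit 14) (.e (nat_lit 401459) (nat_lit 13) (.e (nat_lit 483403) (nat_lit 26) (.e (nat_lit 385048) (nat_lit 21) .nil))))) .nil)) 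
(.lf (nat_lit 27480) (.g (nat_lit 2829) (.e (nat_lit 1199) (nat_lit 88) (.e (nat_lit 65566) (nat_lit 2) (.e (nat_lit 90170) (nat_lit 13) (.e (nat_lit 172106) (nat_lit 10) (.e (nat_lit 434244) (nat_lit 28) (.e (nat_lit 573468) (nat_lit 10) (.e (nat_lit 8192) (nat_lit 0) (.e (nat_lit 4448) (nat_lit 263) .nil)))))))) (.g (nat_lit 6) .nil .nil)))) (.nd (nat_lit 6) 
(.lf (nat_lit 27448) (.g (nat_lit 2628) (.e (nat_lit 1198) (nat_lit 88) (.e (nat_lit 65624) (nat_lit 12) (.e (nat_lit 385105) (nat_lit 50) (.e (nat_lit 786483) (nat_lit 30) (.e (nat_lit 360448) (nat_lit 0) .nil))))) .nil)) 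
(.lf (nat_lit 27512) (.g (nat_lit 3941) (.e (nat_lit 1199) (nat_lit 88) (.e (nat_lit 65568) (nat_lit 2) (.e (nat_lit 90170) (nat_lit 13) (.e (nat_lit 172113) (nat_lit 10) (.e (nat_lit 434248) (nat_lit 28) (.e (nat_lit 573473) (nat_lit 12) (.e (nat_lit 57348) (nat_lit 0) (.e (nat_lit 7236) (nat_lit 382) .nil)))))))) (.g (nat_lit 5) .nil .nil))))))) 
(.nd (nat_lit 3) (.nd (nat_lit 4) (.nd (nat_lit 5) (.nd (nat_lit 6) 
(.lf (nat_lit 27396) (.g (nat_lit 3314) (.e (nat_lit 1197) (nat_lit 88) (.e (nat_lit 65630) (nat_lit 14) (.e (nat_lit 401459) (nat_lit 13) (.e (nat_lit 483394) (nat_lit 24) (.e (nat_lit 344091) (nat_lit 18) (.e (nat_lit 5875) (nat_lit 320) .nil)))))) (.g (nat_lit 4) .nil .nil))) 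
(.lf (nat_lit 27460) (.g (nat_lit 707) (.e (nat_lit 1198) (nat_lit 88) (.e (nat_lit 65630) (nat_lit 14) (.e (nat_lit 401428) (nat_lit 3) .nil))) .nil))) (.nd (nat_lit 6) 
(.lf (nat_lit 27428) (.g (nat_lit 3347) (.e (nat_lit 1197) (nat_lit 88) (.e (nat_lit 65630) (nat_lit 14) (.e (nat_lit 401459) (nat_lit 13) (.e (nat_lit 483411) (nat_lit 27) (.e (nat_lit 401414) (nat_lit 0) (.e (nat_lit 2426) (nat_lit 157) (.e (nat_lit 4575) (nat_lit 269) .nil))))))) (.g (nat_lit 5) .nil .nil))) 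
(.lf (nat_lit 27492) (.g (nat_lit 2753) (.e (nat_lit 1199) (nat_lit 88) (.e (nat_lit 65566) (nat_lit 2) (.e (nat_lit 90170) (nat_lit 13) (.e (nat_lit 172113) (nat_lit 10) (.e (nat_lit 434245) (nat_lit 28) (.e (nat_lit 573474) (nat_lit 12) (.e (nat_lit 65280) (nat_lit 0) (.e (nat_lit 7236) (nat_lit 382) .nil)))))))) (.g (nat_lit 4) .nil .nil))))) (.nd (nat_lit 5) (.nd (nat_lit 6) 
(.lf (nat_lit 27412) (.g (nat_lit 3023) (.e (nat_lit 1197) (nat_lit 88) (.e (nat_lit 65630) (nat_lit 14) (.e (nat_lit 401459) (nat_lit 13) (.e (nat_lit 483399) (nat_lit 25) (.e (nat_lit 368662) (nat_lit 18) .nil))))) .nil)) 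
(.lf (nat_lit 27476) (.g (nat_lit 3559) (.e (nat_lit 1199) (nat_lit 88) (.e (nat_lit 65566) (nat_lit 2) (.e (nat_lit 90170) (nat_lit 13) (.e (nat_lit 172106) (nat_lit 10) (.e (nat_lit 434231) (nat_lit 23) (.e (nat_lit 532490) (nat_lit 0) (.e (nat_lit 991) (nat_lit 81) (.e (nat_lit 4500) (nat_lit 263) .nil)))))))) (.g (nat_lit 6) .nil .nil)))) (.nd (nat_lit 6) 
(.lf (nat_lit 27444) (.g (nat_lit 2978) (.e (nat_lit 1198) (nat_lit 88) (.e (nat_lit 65571) (nat_lit 3) (.e (nat_lit 98373) (nat_lit 29) (.e (nat_lit 450588) (nat_lit 10) (.e (nat_lit 573475) (nat_lit 12) .nil))))) .nil)) 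
(.lf (nat_lit 27508) (.g (nat_lit 2737) (.e (nat_lit 1199) (nat_lit 88) (.e (nat_lit 65568) (nat_lit 2) (.e (nat_lit 90170) (nat_lit 13) (.e (nat_lit 172113) (nat_lit 10) (.e (nat_lit 434245) (nat_lit 28) .nil))))) .nil))))) (.nd (nat_lit 4) (.nd (nat_lit 5) (.nd (nat_lit 6) 
(.lf (nat_lit 27404) (.g (nat_lit 2672) (.e (nat_lit 1197) (nat_lit 88) (.e (nat_lit 65630) (nat_lit 14) (.e (nat_lit 401459) (nat_lit 13) (.e (nat_lit 483395) (nat_lit 24) (.e (nat_lit 344096) (nat_lit 18) .nil))))) .nil)) 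
(.lf (nat_lit 27468) (.g (nat_lit 3797) (.e (nat_lit 1198) (nat_lit 88) (.e (nat_lit 65630) (nat_lit 14) (.e (nat_lit 401459) (nat_lit 13) (.e (nat_lit 483411) (nat_lit 27) (.e (nat_lit 401414) (nat_lit 0) .nil))))) .nil))) (.nd (nat_lit 6) 
(.lf (nat_lit 27436) (.g (nat_lit 3011) (.e (nat_lit 1197) (nat_lit 88) (.e (nat_lit 65630) (nat_lit 14) (.e (nat_lit 401459) (nat_lit 13) (.e (nat_lit 483411) (nat_lit 27) (.e (nat_lit 401418) (nat_lit 0) .nil))))) .nil)) 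
(.lf (nat_lit 27500) (.g (nat_lit 2541) (.e (nat_lit 1199) (nat_lit 88) (.e (nat_lit 65566) (nat_lit 2) (.e (nat_lit 90170) (nat_lit 13) (.e (nat_lit 172113) (nat_lit 10) (.e (nat_lit 434248) (nat_lit 28) (.e (nat_lit 573475) (nat_lit 12) (.e (nat_lit 57351) (nat_lit 0) (.e (nat_lit 7236) (nat_lit 382) .nil)))))))) (.g (nat_lit 4) .nil .nil))))) (.nd (nat_lit 5) (.nd (nat_lit 6) 
(.lf (nat_lit 27420) (.g (nat_lit 2799) (.e (nat_lit 1197) (nat_lit 88) (.e (nat_lit 65630) (nat_lit 14) (.e (nat_lit 401459) (nat_lit 13) (.e (nat_lit 483404) (nat_lit 26) .nil)))) .nil)) 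
(.lf (nat_lit 27484) (.g (nat_lit 1463) (.e (nat_lit 1199) (nat_lit 88) (.e (nat_lit 65566) (nat_lit 2) (.e (nat_lit 90170) (nat_lit 13) (.e (nat_lit 172113) (nat_lit 10) .nil)))) .nil))) (.nd (nat_lit 6) 
(.lf (nat_lit 27452) (.g (nat_lit 1925) (.e (nat_lit 1198) (nat_lit 88) (.e (nat_lit 65627) (nat_lit 13) (.e (nat_lit 393260) (nat_lit 21) (.e (nat_lit 409643) (nat_lit 18) (.e (nat_lit 303115) (nat_lit 1) .nil))))) .nil)) 
(.lf (nat_lit 27516) (.g (nat_lit 3530) (.e (nat_lit 1199) (nat_lit 88) (.e (nat_lit 65569) (nat_lit 3) (.e (nat_lit 98359) (nat_lit 26) (.e (nat_lit 426286) (nat_lit 10) (.e (nat_lit 434245) (nat_lit 28) (.e (nat_lit 573473) (nat_lit 12) (.e (nat_lit 57348) (nat_lit 0) (.e (nat_lit 7236) (nat_lit 382) .nil)))))))) (.g (nat_lit 6) .nil .nil)))))))) 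
(.nd (nat_lit 2) (.nd (nat_lit 3) (.nd (nat_lit 4) (.nd (nat_lit 5) (.nd (nat_lit 6) 
(.lf (nat_lit 27394) (.g (nat_lit 3199) (.e (nat_lit 1197) (nat_lit 88) (.e (nat_lit 65630) (nat_lit 14) (.e (nat_lit 401459) (nat_lit 13) (.e (nat_lit 483394) (nat_lit 24) (.e (nat_lit 344088) (nat_lit 18) .nil))))) .nil)) 
(.lf (nat_lit 27458) (.g (nat_lit 3265) (.e (nat_lit 1198) (nat_lit 88) (.e (nat_lit 65629) (nat_lit 14) (.e (nat_lit 401459) (nat_lit 13) (.e (nat_lit 483411) (nat_lit 27) (.e (nat_lit 401414) (nat_lit 0) .nil))))) .nil))) (.nd (nat_lit 6) 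
(.lf (nat_lit 27426) (.g (nat_lit 2810) (.e (nat_lit 1197) (nat_lit 88) (.e (nat_lit 65630) (nat_lit 14) (.e (nat_lit 401459) (nat_lit 13) (.e (nat_lit 483411) (nat_lit 27) (.e (nat_lit 401414) (nat_lit 0) (.e (nat_lit 2425) (nat_lit 157) (.e (nat_lit 4593) (nat_lit 269) .nil))))))) (.g (nat_lit 4) .nil .nil))) 
(.lf (nat_lit 27490) (.g (nat_lit 4301) (.e (nat_lit 1199) (nat_lit 88) (.e (nat_lit 65566) (nat_lit 2) (.e (nat_lit 90170) (nat_lit 13) (.e (nat_lit 172113) (nat_lit 10) (.e (nat_lit 434245) (nat_lit 28) (.e (nat_lit 573474) (nat_lit 12) (.e (nat_lit 57348) (nat_lit 0) (.e (nat_lit 7236) (nat_lit 382) .nil)))))))) (.g (nat_lit 6) .nil .nil))))) (.nd (nat_lit 5) (.nd (nat_lit 6) 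
(.lf (nat_lit 27410) (.g (nat_lit 2666) (.e (nat_lit 1197) (nat_lit 88) (.e (nat_lit 65630) (nat_lit 14) (.e (nat_lit 401459) (nat_lit 13) (.e (nat_lit 483398) (nat_lit 25) .nil)))) .nil)) 
(.lf (nat_lit 27474) (.g (nat_lit 2693) (.e (nat_lit 1199) (nat_lit 88) (.e (nat_lit 65566) (nat_lit 2) (.e (nat_lit 90170) (nat_lit 13) (.e (nat_lit 172106) (nat_lit 10) (.e (nat_lit 434231) (nat_lit 23) (.e (nat_lit 532482) (nat_lit 0) (.e (nat_lit 979) (nat_lit 81) (.e (nat_lit 4490) (nat_lit 263) .nil)))))))) (.g (nat_lit 5) .nil .nil)))) (.nd (nat_lit 6) 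
(.lf (nat_lit 27442) (.g (nat_lit 2528) (.e (nat_lit 1198) (nat_lit 88) (.e (nat_lit 65571) (nat_lit 3) (.e (nat_lit 98372) (nat_lit 29) (.e (nat_lit 450579) (nat_lit 5) (.e (nat_lit 532499) (nat_lit 1) .nil))))) .nil)) 
(.lf (nat_lit 27506) (.g (nat_lit 3385) (.e (nat_lit 1199) (nat_lit 88) (.e (nat_lit 65568) (nat_lit 2) (.e (nat_lit 90170) (nat_lit 13) (.e (nat_lit 172106) (nat_lit 10) (.e (nat_lit 434244) (nat_lit 28) (.e (nat_lit 573473) (nat_lit 12) (.e (nat_lit 57348) (nat_lit 0) (.e (nat_lit 7236) (nat_lit 382) .nil)))))))) (.g (nat_lit 5) .nil .nil)))))) (.nd (nat_lit 4) (.nd (nat_lit 5) (.nd (nat_lit 6) 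
(.lf (nat_lit 27402) (.g (nat_lit 2843) (.e (nat_lit 1197) (nat_lit 88) (.e (nat_lit 65630) (nat_lit 14) (.e (nat_lit 401459) (nat_lit 13) (.e (nat_lit 483395) (nat_lit 24) (.e (nat_lit 344092) (nat_lit 18) .nil))))) .nil)) 
(.lf (nat_lit 27466) (.g (nat_lit 2405) (.e (nat_lit 1198) (nat_lit 88) (.e (nat_lit 65630) (nat_lit 14) (.e (nat_lit 401459) (nat_lit 13) (.e (nat_lit 483395) (nat_lit 24) .nil)))) .nil))) (.nd (nat_lit 6) 
(.lf (nat_lit 27434) (.g (nat_lit 2803) (.e (nat_lit 1197) (nat_lit 88) (.e (nat_lit 65630) (nat_lit 14) (.e (nat_lit 401459) (nat_lit 13) (.e (nat_lit 483411) (nat_lit 27) (.e (nat_lit 401414) (nat_lit 0) (.e (nat_lit 2447) (nat_lit 157) (.e (nat_lit 4572) (nat_lit 269) .nil))))))) (.g (nat_lit 4) .nil .nil))) 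
(.lf (nat_lit 27498) (.g (nat_lit 4123) (.e (nat_lit 1199) (nat_lit 88) (.e (nat_lit 65566) (nat_lit 2) (.e (nat_lit 90170) (nat_lit 13) (.e (nat_lit 172113) (nat_lit 10) (.e (nat_lit 434248) (nat_lit 28) (.e (nat_lit 573475) (nat_lit 12) (.e (nat_lit 57347) (nat_lit 0) (.e (nat_lit 7236) (nat_lit 382) .nil)))))))) (.g (nat_lit 6) .nil .nil))))) (.nd (nat_lit 5) (.nd (nat_lit 6) 
(.lf (nat_lit 27418) (.g (nat_lit 4546) (.e (nat_lit 1197) (nat_lit 88) (.e (nat_lit 65630) (nat_lit 14) (.e (nat_lit 401459) (nat_lit 13) (.e (nat_lit 483403) (nat_lit 26) (.e (nat_lit 385051) (nat_lit 21) .nil))))) .nil)) 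
(.lf (nat_lit 27482) (.g (nat_lit 2737) (.e (nat_lit 1199) (nat_lit 88) (.e (nat_lit 65566) (nat_lit 2) (.e (nat_lit 90170) (nat_lit 13) (.e (nat_lit 172106) (nat_lit 10) (.e (nat_lit 434244) (nat_lit 28) (.e (nat_lit 573468) (nat_lit 10) (.e (nat_lit 8194) (nat_lit 0) (.e (nat_lit 4450) (nat_lit 263) .nil)))))))) (.g (nat_lit 6) .nil .nil)))) (.nd (nat_lit 6) 
(.lf (nat_lit 27450) (.g (nat_lit 2886) (.e (nat_lit 1198) (nat_lit 88) (.e (nat_lit 65624) (nat_lit 12) (.e (nat_lit 385106) (nat_lit 50) (.e (nat_lit 786483) (nat_lit 30) (.e (nat_lit 360448) (nat_lit 0) .nil))))) .nil)) 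
(.lf (nat_lit 27514) (.g (nat_lit 4054) (.e (nat_lit 1199) (nat_lit 88) (.e (nat_lit 65568) (nat_lit 2) (.e (nat_lit 90170) (nat_lit 13) (.e (nat_lit 172113) (nat_lit 10) (.e (nat_lit 434248) (nat_lit 28) (.e (nat_lit 573475) (nat_lit 12) (.e (nat_lit 57348) (nat_lit 0) (.e (nat_lit 7236) (nat_lit 382) .nil)))))))) (.g (nat_lit 5) .nil .nil))))))) 
(.nd (nat_lit 3) (.nd (nat_lit 4) (.nd (nat_lit 5) (.nd (nat_lit 6) 
(.lf (nat_lit 27398) (.g (nat_lit 2631) (.e (nat_lit 1197) (nat_lit 88) (.e (nat_lit 65630) (nat_lit 14) (.e (nat_lit 401459) (nat_lit 13) (.e (nat_lit 483395) (nat_lit 24) (.e (nat_lit 344088) (nat_lit 18) .nil))))) .nil)) 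
(.lf (nat_lit 27462) (.g (nat_lit 696) (.e (nat_lit 1198) (nat_lit 88) (.e (nat_lit 65630) (nat_lit 14) (.e (nat_lit 401459) (nat_lit 13) .nil))) .nil))) (.nd (nat_lit 6) 
(.lf (nat_lit 27430) (.g (nat_lit 2763) (.e (nat_lit 1197) (nat_lit 88) (.e (nat_lit 65630) (nat_lit 14) (.e (nat_lit 401459) (nat_lit 13) (.e (nat_lit 483411) (nat_lit 27) (.e (nat_lit 401414) (nat_lit 0) (.e (nat_lit 2428) (nat_lit 157) (.e (nat_lit 4572) (nat_lit 269) .nil))))))) (.g (nat_lit 4) .nil .nil))) 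
(.lf (nat_lit 27494) (.g (nat_lit 2289) (.e (nat_lit 1199) (nat_lit 88) (.e (nat_lit 65566) (nat_lit 2) (.e (nat_lit 90170) (nat_lit 13) (.e (nat_lit 172113) (nat_lit 10) (.e (nat_lit 434248) (nat_lit 28) .nil))))) .nil)))) (.nd (nat_lit 5) (.nd (nat_lit 6) 
(.lf (nat_lit 27414) (.g (nat_lit 3665) (.e (nat_lit 1197) (nat_lit 88) (.e (nat_lit 65630) (nat_lit 14) (.e (nat_lit 401459) (nat_lit 13) (.e (nat_lit 483403) (nat_lit 26) (.e (nat_lit 385043) (nat_lit 21) .nil))))) .nil)) 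
(.lf (nat_lit 27478) (.g (nat_lit 4113) (.e (nat_lit 1199) (nat_lit 88) (.e (nat_lit 65566) (nat_lit 2) (.e (nat_lit 90170) (nat_lit 13) (.e (nat_lit 172106) (nat_lit 10) (.e (nat_lit 434231) (nat_lit 23) (.e (nat_lit 532499) (nat_lit 1) (.e (nat_lit 65280) (nat_lit 221) .nil))))))) (.g (nat_lit 6) .nil .nil)))) (.nd (nat_lit 6) 
(.lf (nat_lit 27446) (.g (nat_lit 2645) (.e (nat_lit 1198) (nat_lit 88) (.e (nat_lit 65624) (nat_lit 12) (.e (nat_lit 385074) (nat_lit 31) (.e (nat_lit 573493) (nat_lit 15) .nil)))) .nil)) 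
(.lf (nat_lit 27510) (.g (nat_lit 2798) (.e (nat_lit 1199) (nat_lit 88) (.e (nat_lit 65568) (nat_lit 2) (.e (nat_lit 90170) (nat_lit 13) (.e (nat_lit 172113) (nat_lit 10) (.e (nat_lit 434245) (nat_lit 28) (.e (nat_lit 573474) (nat_lit 12) (.e (nat_lit 65280) (nat_lit 0) (.e (nat_lit 7236) (nat_lit 382) .nil)))))))) (.g (nat_lit 4) .nil .nil)))))) (.nd (nat_lit 4) (.nd (nat_lit 5) (.nd (nat_lit 6) 
(.lf (nat_lit 27406) (.g (nat_lit 3067) (.e (nat_lit 1197) (nat_lit 88) (.e (nat_lit 65630) (nat_lit 14) (.e (nat_lit 401459) (nat_lit 13) (.e (nat_lit 483396) (nat_lit 24) (.e (nat_lit 344088) (nat_lit 18) .nil))))) .nil)) 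
(.lf (nat_lit 27470) (.g (nat_lit 2274) (.e (nat_lit 1199) (nat_lit 88) (.e (nat_lit 65546) (nat_lit 0) (.e (nat_lit 1842) (nat_lit 123) (.e (nat_lit 548874) (nat_lit 5) (.e (nat_lit 1598) (nat_lit 111) (.e (nat_lit 360473) (nat_lit 8) (.e (nat_lit 557091) (nat_lit 12) (.e (nat_lit 163844) (nat_lit 0) (.e (nat_lit 6047) (nat_lit 326) .nil))))))))) (.g (nat_lit 4) .nil .nil)))) (.nd (nat_lit 6) 
(.lf (nat_lit 27438) (.g (nat_lit 2722) (.e (nat_lit 1198) (nat_lit 88) (.e (nat_lit 65566) (nat_lit 2) (.e (nat_lit 90170) (nat_lit 13) (.e (nat_lit 172106) (nat_lit 10) (.e (nat_lit 434231) (nat_lit 23) (.e (nat_lit 540416) (nat_lit 18) (.e (nat_lit 164162) (nat_lit 152) .nil))))))) (.g (nat_lit 5) .nil .nil))) 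
(.lf (nat_lit 27502) (.g (nat_lit 4366) (.e (nat_lit 1199) (nat_lit 88) (.e (nat_lit 65568) (nat_lit 2) (.e (nat_lit 90170) (nat_lit 13) (.e (nat_lit 172106) (nat_lit 10) (.e (nat_lit 434231) (nat_lit 23) (.e (nat_lit 532500) (nat_lit 1) (.e (nat_lit 65280) (nat_lit 221) .nil))))))) (.g (nat_lit 6) .nil .nil))))) (.nd (nat_lit 5) (.nd (nat_lit 6) 
(.lf (nat_lit 27422) (.g (nat_lit 3075) (.e (nat_lit 1197) (nat_lit 88) (.e (nat_lit 65630) (nat_lit 14) (.e (nat_lit 401459) (nat_lit 13) (.e (nat_lit 483410) (nat_lit 27) (.e (nat_lit 401414) (nat_lit 0) .nil))))) .nil)) 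
(.lf (nat_lit 27486) (.g (nat_lit 3749) (.e (nat_lit 1199) (nat_lit 88) (.e (nat_lit 65566) (nat_lit 2) (.e (nat_lit 90170) (nat_lit 13) (.e (nat_lit 172113) (nat_lit 10) (.e (nat_lit 434245) (nat_lit 28) (.e (nat_lit 573473) (nat_lit 12) (.e (nat_lit 57348) (nat_lit 0) (.e (nat_lit 7236) (nat_lit 382) .nil)))))))) (.g (nat_lit 6) .nil .nil)))) (.nd (nat_lit 6) 
(.lf (nat_lit 27454) (.g (nat_lit 2843) (.e (nat_lit 1198) (nat_lit 88) (.e (nat_lit 65627) (nat_lit 13) (.e (nat_lit 393301) (nat_lit 27) (.e (nat_lit 491560) (nat_lit 10) (.e (nat_lit 344089) (nat_lit 18) .nil))))) .nil)) 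
(.lf (nat_lit 27518) (.g (nat_lit 2183) (.e (nat_lit 1199) (nat_lit 88) (.e (nat_lit 65569) (nat_lit 3) (.e (nat_lit 98359) (nat_lit 26) (.e (nat_lit 426286) (nat_lit 10) (.e (nat_lit 434245) (nat_lit 28) (.e (nat_lit 573474) (nat_lit 12) (.e (nat_lit 57344) (nat_lit 0) (.e (nat_lit 7236) (nat_lit 382) .nil)))))))) (.g (nat_lit 4) .nil .nil))))))))) 
(.nd (nat_lit 1) (.nd (nat_lit 2) (.nd (nat_lit 3) (.nd (nat_lit 4) (.nd (nat_lit 5) 
(.nd (nat_lit 6) 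
(.lf (nat_lit 27393) (.g (nat_lit 2218) (.e (nat_lit 1197) (nat_lit 88) (.e (nat_lit 65630) (nat_lit 14) (.e (nat_lit 401459) (nat_lit 13) (.e (nat_lit 483394) (nat_lit 24) .nil)))) .nil)) 
(.lf (nat_lit 27457) (.g (nat_lit 1883) (.e (nat_lit 1198) (nat_lit 88) (.e (nat_lit 65629) (nat_lit 14) (.e (nat_lit 401459) (nat_lit 13) (.e (nat_lit 483403) (nat_lit 26) .nil)))) .nil))) (.nd (nat_lit 6) 
(.lf (nat_lit 27425) (.g (nat_lit 2611) (.e (nat_lit 1197) (nat_lit 88) (.e (nat_lit 65630) (nat_lit 14) (.e (nat_lit 401459) (nat_lit 13) (.e (nat_lit 483411) (nat_lit 27) (.e (nat_lit 401414) (nat_lit 0) .nil))))) .nil)) 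
(.lf (nat_lit 27489) (.g (nat_lit 4034) (.e (nat_lit 1199) (nat_lit 88) (.e (nat_lit 65566) (nat_lit 2) (.e (nat_lit 90170) (nat_lit 13) (.e (nat_lit 172113) (nat_lit 10) (.e (nat_lit 434245) (nat_lit 28) (.e (nat_lit 573474) (nat_lit 12) (.e (nat_lit 57347) (nat_lit 0) (.e (nat_lit 7236) (nat_lit 382) .nil)))))))) (.g (nat_lit 6) .nil .nil))))) (.nd (nat_lit 5) (.nd (nat_lit 6) 
(.lf (nat_lit 27409) (.g (nat_lit 3114) (.e (nat_lit 1197) (nat_lit 88) (.e (nat_lit 65630) (nat_lit 14) (.e (nat_lit 401459) (nat_lit 13) (.e (nat_lit 483397) (nat_lit 25) .nil)))) .nil)) 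
(.lf (nat_lit 27473) (.g (nat_lit 2947) (.e (nat_lit 1199) (nat_lit 88) (.e (nat_lit 65546) (nat_lit 0) (.e (nat_lit 1842) (nat_lit 123) (.e (nat_lit 548889) (nat_lit 9) (.e (nat_lit 65617) (nat_lit 10) (.e (nat_lit 344133) (nat_lit 26) (.e (nat_lit 557089) (nat_lit 12) (.e (nat_lit 163844) (nat_lit 0) (.e (nat_lit 6047) (nat_lit 326) .nil))))))))) (.g (nat_lit 5) .nil .nil)))) (.nd (nat_lit 6) 
(.lf (nat_lit 27441) (.g (nat_lit 659) (.e (nat_lit 1198) (nat_lit 88) (.e (nat_lit 65571) (nat_lit 3) (.e (nat_lit 98372) (nat_lit 29) .nil))) .nil)) 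
(.lf (nat_lit 27505) (.g (nat_lit 2518) (.e (nat_lit 1199) (nat_lit 88) (.e (nat_lit 65568) (nat_lit 2) (.e (nat_lit 90170) (nat_lit 13) (.e (nat_lit 172106) (nat_lit 10) (.e (nat_lit 434244) (nat_lit 28) (.e (nat_lit 573468) (nat_lit 10) (.e (nat_lit 8194) (nat_lit 0) (.e (nat_lit 4450) (nat_lit 263) .nil)))))))) (.g (nat_lit 5) .nil .nil)))))) (.nd (nat_lit 4) (.nd (nat_lit 5) (.nd (nat_lit 6) 
(.lf (nat_lit 27401) (.g (nat_lit 2682) (.e (nat_lit 1197) (nat_lit 88) (.e (nat_lit 65630) (nat_lit 14) (.e (nat_lit 401459) (nat_lit 13) (.e (nat_lit 483395) (nat_lit 24) (.e (nat_lit 344091) (nat_lit 18) .nil))))) .nil)) 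
(.lf (nat_lit 27465) (.g (nat_lit 2447) (.e (nat_lit 1198) (nat_lit 88) (.e (nat_lit 65630) (nat_lit 14) (.e (nat_lit 401459) (nat_lit 13) (.e (nat_lit 483394) (nat_lit 24) .nil)))) .nil))) (.nd (nat_lit 6) 
(.lf (nat_lit 27433) (.g (nat_lit 2691) (.e (nat_lit 1197) (nat_lit 88) (.e (nat_lit 65630) (nat_lit 14) (.e (nat_lit 401459) (nat_lit 13) (.e (nat_lit 483411) (nat_lit 27) (.e (nat_lit 401414) (nat_lit 0) (.e (nat_lit 2429) (nat_lit 157) (.e (nat_lit 4575) (nat_lit 269) .nil))))))) (.g (nat_lit 4) .nil .nil))) 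
(.lf (nat_lit 27497) (.g (nat_lit 3339) (.e (nat_lit 1199) (nat_lit 88) (.e (nat_lit 65566) (nat_lit 2) (.e (nat_lit 90170) (nat_lit 13) (.e (nat_lit 172113) (nat_lit 10) (.e (nat_lit 434248) (nat_lit 28) (.e (nat_lit 573475) (nat_lit 12) (.e (nat_lit 57344) (nat_lit 0) (.e (nat_lit 7236) (nat_lit 382) .nil)))))))) (.g (nat_lit 5) .nil .nil))))) (.nd (nat_lit 5) (.nd (nat_lit 6) 
(.lf (nat_lit 27417) (.g (nat_lit 3163) (.e (nat_lit 1197) (nat_lit 88) (.e (nat_lit 65630) (nat_lit 14) (.e (nat_lit 401459) (nat_lit 13) (.e (nat_lit 483403) (nat_lit 26) (.e (nat_lit 385049) (nat_lit 21) (.e (nat_lit 7420) (nat_lit 396) .nil)))))) (.g (nat_lit 4) .nil .nil))) 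
(.lf (nat_lit 27481) (.g (nat_lit 2837) (.e (nat_lit 1199) (nat_lit 88) (.e (nat_lit 65566) (nat_lit 2) (.e (nat_lit 90170) (nat_lit 13) (.e (nat_lit 172106) (nat_lit 10) (.e (nat_lit 434244) (nat_lit 28) (.e (nat_lit 573468) (nat_lit 10) (.e (nat_lit 8192) (nat_lit 0) (.e (nat_lit 4450) (nat_lit 263) .nil)))))))) (.g (nat_lit 6) .nil .nil)))) (.nd (nat_lit 6) 
(.lf (nat_lit 27449) (.g (nat_lit 665) (.e (nat_lit 1198) (nat_lit 88) (.e (nat_lit 65624) (nat_lit 12) (.e (nat_lit 385106) (nat_lit 50) .nil))) .nil)) 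
(.lf (nat_lit 27513) (.g (nat_lit 3749) (.e (nat_lit 1199) (nat_lit 88) (.e (nat_lit 65568) (nat_lit 2) (.e (nat_lit 90170) (nat_lit 13) (.e (nat_lit 172113) (nat_lit 10) (.e (nat_lit 434248) (nat_lit 28) (.e (nat_lit 573475) (nat_lit 12) (.e (nat_lit 57345) (nat_lit 0) (.e (nat_lit 7236) (nat_lit 382) .nil)))))))) (.g (nat_lit 5) .nil .nil))))))) 
(.nd (nat_lit 3) (.nd (nat_lit 4) (.nd (nat_lit 5) (.nd (nat_lit 6) 
(.lf (nat_lit 27397) (.g (nat_lit 1809) (.e (nat_lit 1197) (nat_lit 88) (.e (nat_lit 65630) (nat_lit 14) (.e (nat_lit 401459) (nat_lit 13) (.e (nat_lit 483395) (nat_lit 24) .nil)))) .nil)) 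
(.lf (nat_lit 27461) (.g (nat_lit 690) (.e (nat_lit 1198) (nat_lit 88) (.e (nat_lit 65630) (nat_lit 14) (.e (nat_lit 401437) (nat_lit 9) .nil))) .nil))) (.nd (nat_lit 6) 
(.lf (nat_lit 27429) (.g (nat_lit 3685) (.e (nat_lit 1197) (nat_lit 88) (.e (nat_lit 65630) (nat_lit 14) (.e (nat_lit 401459) (nat_lit 13) (.e (nat_lit 483411) (nat_lit 27) (.e (nat_lit 401414) (nat_lit 0) (.e (nat_lit 2426) (nat_lit 157) (.e (nat_lit 4622) (nat_lit 269) .nil))))))) (.g (nat_lit 7) .nil .nil))) 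
(.lf (nat_lit 27493) (.g (nat_lit 2448) (.e (nat_lit 1199) (nat_lit 88) (.e (nat_lit 65566) (nat_lit 2) (.e (nat_lit 90170) (nat_lit 13) (.e (nat_lit 172113) (nat_lit 10) (.e (nat_lit 434247) (nat_lit 28) (.e (nat_lit 573477) (nat_lit 12) (.e (nat_lit 65280) (nat_lit 0) (.e (nat_lit 7236) (nat_lit 382) .nil)))))))) (.g (nat_lit 4) .nil .nil))))) (.nd (nat_lit 5) (.nd (nat_lit 6) 
(.lf (nat_lit 27413) (.g (nat_lit 2844) (.e (nat_lit 1197) (nat_lit 88) (.e (nat_lit 65630) (nat_lit 14) (.e (nat_lit 401459) (nat_lit 13) (.e (nat_lit 483400) (nat_lit 25) .nil)))) .nil)) 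
(.lf (nat_lit 27477) (.g (nat_lit 2951) (.e (nat_lit 1199) (nat_lit 88) (.e (nat_lit 65566) (nat_lit 2) (.e (nat_lit 90170) (nat_lit 13) (.e (nat_lit 172106) (nat_lit 10) (.e (nat_lit 434231) (nat_lit 23) (.e (nat_lit 532490) (nat_lit 0) (.e (nat_lit 1086) (nat_lit 81) (.e (nat_lit 4490) (nat_lit 263) .nil)))))))) (.g (nat_lit 6) .nil .nil)))) (.nd (nat_lit 6) 
(.lf (nat_lit 27445) (.g (nat_lit 2198) (.e (nat_lit 1198) (nat_lit 88) (.e (nat_lit 65586) (nat_lit 7) (.e (nat_lit 319534) (nat_lit 16) (.e (nat_lit 286756) (nat_lit 10) .nil)))) .nil)) 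
(.lf (nat_lit 27509) (.g (nat_lit 3794) (.e (nat_lit 1199) (nat_lit 88) (.e (nat_lit 65568) (nat_lit 2) (.e (nat_lit 90170) (nat_lit 13) (.e (nat_lit 172113) (nat_lit 10) (.e (nat_lit 434245) (nat_lit 28) (.e (nat_lit 573473) (nat_lit 12) (.e (nat_lit 57348) (nat_lit 0) (.e (nat_lit 7236) (nat_lit 382) .nil)))))))) (.g (nat_lit 5) .nil .nil)))))) (.nd (nat_lit 4) (.nd (nat_lit 5) (.nd (nat_lit 6) 
(.lf (nat_lit 27405) (.g (nat_lit 2196) (.e (nat_lit 1197) (nat_lit 88) (.e (nat_lit 65630) (nat_lit 14) (.e (nat_lit 401459) (nat_lit 13) (.e (nat_lit 483396) (nat_lit 24) .nil)))) .nil)) 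
(.lf (nat_lit 27469) (.g (nat_lit 1626) (.e (nat_lit 1199) (nat_lit 88) (.e (nat_lit 65546) (nat_lit 0) (.e (nat_lit 1842) (nat_lit 123) (.e (nat_lit 548872) (nat_lit 5) (.e (nat_lit 1598) (nat_lit 111) (.e (nat_lit 360473) (nat_lit 8) (.e (nat_lit 557089) (nat_lit 12) (.e (nat_lit 163844) (nat_lit 0) (.e (nat_lit 6047) (nat_lit 326) .nil))))))))) (.g (nat_lit 4) .nil .nil)))) (.nd (nat_lit 6) 
(.lf (nat_lit 27437) (.g (nat_lit 2684) (.e (nat_lit 1197) (nat_lit 88) (.e (nat_lit 65630) (nat_lit 14) (.e (nat_lit 401459) (nat_lit 13) (.e (nat_lit 483411) (nat_lit 27) (.e (nat_lit 409344) (nat_lit 16) .nil))))) .nil)) 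
(.lf (nat_lit 27501) (.g (nat_lit 2773) (.e (nat_lit 1199) (nat_lit 88) (.e (nat_lit 65566) (nat_lit 2) (.e (nat_lit 90170) (nat_lit 13) (.e (nat_lit 172113) (nat_lit 10) (.e (nat_lit 434248) (nat_lit 28) (.e (nat_lit 573475) (nat_lit 12) (.e (nat_lit 65280) (nat_lit 0) (.e (nat_lit 7236) (nat_lit 382) .nil)))))))) (.g (nat_lit 4) .nil .nil))))) (.nd (nat_lit 5) (.nd (nat_lit 6) 
(.lf (nat_lit 27421) (.g (nat_lit 2275) (.e (nat_lit 1197) (nat_lit 88) (.e (nat_lit 65630) (nat_lit 14) (.e (nat_lit 401459) (nat_lit 13) (.e (nat_lit 483410) (nat_lit 27) .nil)))) .nil)) 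
(.lf (nat_lit 27485) (.g (nat_lit 2306) (.e (nat_lit 1199) (nat_lit 88) (.e (nat_lit 65566) (nat_lit 2) (.e (nat_lit 90170) (nat_lit 13) (.e (nat_lit 172113) (nat_lit 10) (.e (nat_lit 434245) (nat_lit 28) .nil))))) .nil))) (.nd (nat_lit 6) 
(.lf (nat_lit 27453) (.g (nat_lit 2157) (.e (nat_lit 1198) (nat_lit 88) (.e (nat_lit 65627) (nat_lit 13) (.e (nat_lit 393260) (nat_lit 21) (.e (nat_lit 409649) (nat_lit 18) (.e (nat_lit 303115) (nat_lit 1) .nil))))) .nil)) 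
(.lf (nat_lit 27517) (.g (nat_lit 1998) (.e (nat_lit 1199) (nat_lit 88) (.e (nat_lit 65569) (nat_lit 3) (.e (nat_lit 98359) (nat_lit 26) (.e (nat_lit 426286) (nat_lit 10) (.e (nat_lit 434245) (nat_lit 28) (.e (nat_lit 573473) (nat_lit 12) (.e (nat_lit 57353) (nat_lit 0) (.e (nat_lit 7236) (nat_lit 382) .nil)))))))) (.g (nat_lit 4) .nil .nil)))))))) 
(.nd (nat_lit 2) (.nd (nat_lit 3) (.nd (nat_lit 4) (.nd (nat_lit 5) (.nd (nat_lit 6) 
(.lf (nat_lit 27395) (.g (nat_lit 3180) (.e (nat_lit 1197) (nat_lit 88) (.e (nat_lit 65630) (nat_lit 14) (.e (nat_lit 401459) (nat_lit 13) (.e (nat_lit 483394) (nat_lit 24) (.e (nat_lit 344090) (nat_lit 18) .nil))))) .nil)) 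
(.lf (nat_lit 27459) (.g (nat_lit 992) (.e (nat_lit 1198) (nat_lit 88) (.e (nat_lit 65630) (nat_lit 14) (.e (nat_lit 401425) (nat_lit 2) .nil))) .nil))) (.nd (nat_lit 6) 
(.lf (nat_lit 27427) (.g (nat_lit 3425) (.e (nat_lit 1197) (nat_lit 88) (.e (nat_lit 65630) (nat_lit 14) (.e (nat_lit 401459) (nat_lit 13) (.e (nat_lit 483411) (nat_lit 27) (.e (nat_lit 401414) (nat_lit 0) (.e (nat_lit 2426) (nat_lit 157) (.e (nat_lit 4573) (nat_lit 269) .nil))))))) (.g (nat_lit 5) .nil .nil))) 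
(.lf (nat_lit 27491) (.g (nat_lit 2530) (.e (nat_lit 1199) (nat_lit 88) (.e (nat_lit 65566) (nat_lit 2) (.e (nat_lit 90170) (nat_lit 13) (.e (nat_lit 172113) (nat_lit 10) (.e (nat_lit 434245) (nat_lit 28) (.e (nat_lit 573474) (nat_lit 12) (.e (nat_lit 57351) (nat_lit 0) (.e (nat_lit 7236) (nat_lit 382) .nil)))))))) (.g (nat_lit 4) .nil .nil))))) (.nd (nat_lit 5) (.nd (nat_lit 6) 
(.lf (nat_lit 27411) (.g (nat_lit 2708) (.e (nat_lit 1197) (nat_lit 88) (.e (nat_lit 65630) (nat_lit 14) (.e (nat_lit 401459) (nat_lit 13) (.e (nat_lit 483399) (nat_lit 25) .nil)))) .nil)) 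
(.lf (nat_lit 27475) (.g (nat_lit 2844) (.e (nat_lit 1199) (nat_lit 88) (.e (nat_lit 65566) (nat_lit 2) (.e (nat_lit 90170) (nat_lit 13) (.e (nat_lit 172106) (nat_lit 10) (.e (nat_lit 434231) (nat_lit 23) (.e (nat_lit 532483) (nat_lit 0) (.e (nat_lit 982) (nat_lit 81) (.e (nat_lit 4449) (nat_lit 263) .nil)))))))) (.g (nat_lit 5) .nil .nil)))) (.nd (nat_lit 6) 
(.lf (nat_lit 27443) (.g (nat_lit 2634) (.e (nat_lit 1198) (nat_lit 88) (.e (nat_lit 65571) (nat_lit 3) (.e (nat_lit 98372) (nat_lit 29) (.e (nat_lit 450579) (nat_lit 5) (.e (nat_lit 532503) (nat_lit 1) (.e (nat_lit 65280) (nat_lit 221) .nil)))))) (.g (nat_lit 4) .nil .nil))) 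
(.lf (nat_lit 27507) (.g (nat_lit 1911) (.e (nat_lit 1199) (nat_lit 88) (.e (nat_lit 65568) (nat_lit 2) (.e (nat_lit 90170) (nat_lit 13) (.e (nat_lit 172113) (nat_lit 10) .nil)))) .nil))))) (.nd (nat_lit 4) (.nd (nat_lit 5) (.nd (nat_lit 6) 
(.lf (nat_lit 27403) (.g (nat_lit 2878) (.e (nat_lit 1197) (nat_lit 88) (.e (nat_lit 65630) (nat_lit 14) (.e (nat_lit 401459) (nat_lit 13) (.e (nat_lit 483395) (nat_lit 24) (.e (nat_lit 344094) (nat_lit 18) .nil))))) .nil)) 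
(.lf (nat_lit 27467) (.g (nat_lit 2896) (.e (nat_lit 1198) (nat_lit 88) (.e (nat_lit 65630) (nat_lit 14) (.e (nat_lit 401459) (nat_lit 13) (.e (nat_lit 483396) (nat_lit 24) .nil)))) .nil))) (.nd (nat_lit 6) 
(.lf (nat_lit 27435) (.g (nat_lit 2776) (.e (nat_lit 1197) (nat_lit 88) (.e (nat_lit 65630) (nat_lit 14) (.e (nat_lit 401459) (nat_lit 13) (.e (nat_lit 483411) (nat_lit 27) (.e (nat_lit 401414) (nat_lit 0) (.e (nat_lit 2458) (nat_lit 157) (.e (nat_lit 4574) (nat_lit 269) .nil))))))) (.g (nat_lit 4) .nil .nil))) 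
(.lf (nat_lit 27499) (.g (nat_lit 4010) (.e (nat_lit 1199) (nat_lit 88) (.e (nat_lit 65566) (nat_lit 2) (.e (nat_lit 90170) (nat_lit 13) (.e (nat_lit 172113) (nat_lit 10) (.e (nat_lit 434248) (nat_lit 28) (.e (nat_lit 573475) (nat_lit 12) (.e (nat_lit 57348) (nat_lit 0) (.e (nat_lit 7236) (nat_lit 382) .nil)))))))) (.g (nat_lit 6) .nil .nil))))) (.nd (nat_lit 5) (.nd (nat_lit 6) 
(.lf (nat_lit 27419) (.g (nat_lit 4417) (.e (nat_lit 1197) (nat_lit 88) (.e (nat_lit 65630) (nat_lit 14) (.e (nat_lit 401459) (nat_lit 13) (.e (nat_lit 483403) (nat_lit 26) (.e (nat_lit 385053) (nat_lit 21) .nil))))) .nil)) 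
(.lf (nat_lit 27483) (.g (nat_lit 1851) (.e (nat_lit 1199) (nat_lit 88) (.e (nat_lit 65566) (nat_lit 2) (.e (nat_lit 90170) (nat_lit 13) (.e (nat_lit 172106) (nat_lit 10) (.e (nat_lit 434244) (nat_lit 28) (.e (nat_lit 573468) (nat_lit 10) (.e (nat_lit 8202) (nat_lit 0) (.e (nat_lit 4490) (nat_lit 263) .nil)))))))) (.g (nat_lit 5) .nil .nil)))) (.nd (nat_lit 6) 
(.lf (nat_lit 27451) (.g (nat_lit 2627) (.e (nat_lit 1198) (nat_lit 88) (.e (nat_lit 65624) (nat_lit 12) (.e (nat_lit 385106) (nat_lit 50) (.e (nat_lit 786483) (nat_lit 30) (.e (nat_lit 360451) (nat_lit 0) .nil))))) .nil)) 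
(.lf (nat_lit 27515) (.g (nat_lit 2817) (.e (nat_lit 1199) (nat_lit 88) (.e (nat_lit 65568) (nat_lit 2) (.e (nat_lit 90170) (nat_lit 13) (.e (nat_lit 172113) (nat_lit 10) (.e (nat_lit 434248) (nat_lit 28) (.e (nat_lit 573475) (nat_lit 12) (.e (nat_lit 65280) (nat_lit 0) (.e (nat_lit 7236) (nat_lit 382) .nil)))))))) (.g (nat_lit 4) .nil .nil))))))) 
(.nd (nat_lit 3) (.nd (nat_lit 4) (.nd (nat_lit 5) (.nd (nat_lit 6) 
(.lf (nat_lit 27399) (.g (nat_lit 3204) (.e (nat_lit 1197) (nat_lit 88) (.e (nat_lit 65630) (nat_lit 14) (.e (nat_lit 401459) (nat_lit 13) (.e (nat_lit 483395) (nat_lit 24) (.e (nat_lit 344088) (nat_lit 18) (.e (nat_lit 5920) (nat_lit 320) .nil)))))) (.g (nat_lit 5) .nil .nil))) 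
(.lf (nat_lit 27463) (.g (nat_lit 2585) (.e (nat_lit 1198) (nat_lit 88) (.e (nat_lit 65630) (nat_lit 14) (.e (nat_lit 401459) (nat_lit 13) (.e (nat_lit 483344) (nat_lit 17) .nil)))) .nil))) (.nd (nat_lit 6) 
(.lf (nat_lit 27431) (.g (nat_lit 3839) (.e (nat_lit 1197) (nat_lit 88) (.e (nat_lit 65630) (nat_lit 14) (.e (nat_lit 401459) (nat_lit 13) (.e (nat_lit 483411) (nat_lit 27) (.e (nat_lit 401414) (nat_lit 0) (.e (nat_lit 2429) (nat_lit 157) (.e (nat_lit 4572) (nat_lit 269) .nil))))))) (.g (nat_lit 6) .nil .nil))) 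
(.lf (nat_lit 27495) (.g (nat_lit 3897) (.e (nat_lit 1199) (nat_lit 88) (.e (nat_lit 65566) (nat_lit 2) (.e (nat_lit 90170) (nat_lit 13) (.e (nat_lit 172113) (nat_lit 10) (.e (nat_lit 434248) (nat_lit 28) (.e (nat_lit 573473) (nat_lit 12) (.e (nat_lit 57348) (nat_lit 0) (.e (nat_lit 7236) (nat_lit 382) .nil)))))))) (.g (nat_lit 6) .nil .nil))))) (.nd (nat_lit 5) (.nd (nat_lit 6) 
(.lf (nat_lit 27415) (.g (nat_lit 4431) (.e (nat_lit 1197) (nat_lit 88) (.e (nat_lit 65630) (nat_lit 14) (.e (nat_lit 401459) (nat_lit 13) (.e (nat_lit 483403) (nat_lit 26) (.e (nat_lit 385047) (nat_lit 21) .nil))))) .nil)) 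
(.lf (nat_lit 27479) (.g (nat_lit 4433) (.e (nat_lit 1199) (nat_lit 88) (.e (nat_lit 65566) (nat_lit 2) (.e (nat_lit 90170) (nat_lit 13) (.e (nat_lit 172106) (nat_lit 10) (.e (nat_lit 434231) (nat_lit 23) (.e (nat_lit 532500) (nat_lit 1) (.e (nat_lit 65280) (nat_lit 221) .nil))))))) (.g (nat_lit 6) .nil .nil)))) (.nd (nat_lit 6) 
(.lf (nat_lit 27447) (.g (nat_lit 721) (.e (nat_lit 1198) (nat_lit 88) (.e (nat_lit 65624) (nat_lit 12) (.e (nat_lit 385094) (nat_lit 49) .nil))) .nil)) 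
(.lf (nat_lit 27511) (.g (nat_lit 2719) (.e (nat_lit 1199) (nat_lit 88) (.e (nat_lit 65568) (nat_lit 2) (.e (nat_lit 90170) (nat_lit 13) (.e (nat_lit 172113) (nat_lit 10) (.e (nat_lit 434248) (nat_lit 28) .nil))))) .nil))))) (.nd (nat_lit 4) (.nd (nat_lit 5) (.nd (nat_lit 6) 
(.lf (nat_lit 27407) (.g (nat_lit 2942) (.e (nat_lit 1197) (nat_lit 88) (.e (nat_lit 65630) (nat_lit 14) (.e (nat_lit 401459) (nat_lit 13) (.e (nat_lit 483396) (nat_lit 24) (.e (nat_lit 344091) (nat_lit 18) .nil))))) .nil)) 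
(.lf (nat_lit 27471) (.g (nat_lit 2890) (.e (nat_lit 1199) (nat_lit 88) (.e (nat_lit 65546) (nat_lit 0) (.e (nat_lit 1842) (nat_lit 123) (.e (nat_lit 548889) (nat_lit 9) (.e (nat_lit 65617) (nat_lit 10) (.e (nat_lit 344130) (nat_lit 26) (.e (nat_lit 557089) (nat_lit 12) (.e (nat_lit 163844) (nat_lit 0) (.e (nat_lit 6047) (nat_lit 326) .nil))))))))) (.g (nat_lit 5) .nil .nil)))) (.nd (nat_lit 6) 
(.lf (nat_lit 27439) (.g (nat_lit 2929) (.e (nat_lit 1198) (nat_lit 88) (.e (nat_lit 65570) (nat_lit 3) (.e (nat_lit 98373) (nat_lit 29) (.e (nat_lit 450588) (nat_lit 10) (.e (nat_lit 573475) (nat_lit 12) (.e (nat_lit 57346) (nat_lit 0) (.e (nat_lit 7136) (nat_lit 382) .nil))))))) (.g (nat_lit 4) .nil .nil))) 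
(.lf (nat_lit 27503) (.g (nat_lit 1800) (.e (nat_lit 1199) (nat_lit 88) (.e (nat_lit 65568) (nat_lit 2) (.e (nat_lit 90170) (nat_lit 13) (.e (nat_lit 172106) (nat_lit 10) (.e (nat_lit 434244) (nat_lit 28) (.e (nat_lit 573468) (nat_lit 10) (.e (nat_lit 8193) (nat_lit 0) (.e (nat_lit 4448) (nat_lit 263) .nil)))))))) (.g (nat_lit 4) .nil .nil))))) (.nd (nat_lit 5) (.nd (nat_lit 6) 
(.lf (nat_lit 27423) (.g (nat_lit 1685) (.e (nat_lit 1197) (nat_lit 88) (.e (nat_lit 65630) (nat_lit 14) (.e (nat_lit 401459) (nat_lit 13) (.e (nat_lit 483411) (nat_lit 27) .nil)))) .nil)) 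
(.lf (nat_lit 27487) (.g (nat_lit 2447) (.e (nat_lit 1199) (nat_lit 88) (.e (nat_lit 65566) (nat_lit 2) (.e (nat_lit 90170) (nat_lit 13) (.e (nat_lit 172113) (nat_lit 10) (.e (nat_lit 434245) (nat_lit 28) (.e (nat_lit 573474) (nat_lit 12) (.e (nat_lit 57344) (nat_lit 0) (.e (nat_lit 7236) (nat_lit 382) .nil)))))))) (.g (nat_lit 4) .nil .nil)))) (.nd (nat_lit 6) 
(.lf (nat_lit 27455) (.g (nat_lit 671) (.e (nat_lit 1198) (nat_lit 88) (.e (nat_lit 65628) (nat_lit 14) (.e (nat_lit 401458) (nat_lit 13) .nil))) .nil)) 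
(.lf (nat_lit 27519) (.g (nat_lit 2635) (.e (nat_lit 1199) (nat_lit 88) (.e (nat_lit 65569) (nat_lit 3) (.e (nat_lit 98359) (nat_lit 26) (.e (nat_lit 426286) (nat_lit 10) (.e (nat_lit 434245) (nat_lit 28) (.e (nat_lit 573474) (nat_lit 12) (.e (nat_lit 57345) (nat_lit 0) (.e (nat_lit 7236) (nat_lit 382) .nil)))))))) (.g (nat_lit 5) .nil .nil))))))))))

noncomputable def tv379 : DT := (.nd (nat_lit 0) (.nd (nat_lit 1) (.nd (nat_lit 2) (.nd (nat_lit 3) (.nd (nat_lit 4) (.nd (nat_lit 5) 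
(.lf (nat_lit 27520) (.g (nat_lit 3855) (.e (nat_lit 1199) (nat_lit 88) (.e (nat_lit 65569) (nat_lit 3) (.e (nat_lit 98359) (nat_lit 26) (.e (nat_lit 426286) (nat_lit 10) (.e (nat_lit 434245) (nat_lit 28) (.e (nat_lit 573474) (nat_lit 12) (.e (nat_lit 57347) (nat_lit 0) (.e (nat_lit 7236) (nat_lit 382) .nil)))))))) (.g (nat_lit 6) .nil .nil))) 
(.lf (nat_lit 27552) (.g (nat_lit 4625) (.e (nat_lit 1199) (nat_lit 88) (.e (nat_lit 65570) (nat_lit 3) (.e (nat_lit 98373) (nat_lit 29) (.e (nat_lit 450588) (nat_lit 10) (.e (nat_lit 573475) (nat_lit 12) (.e (nat_lit 57348) (nat_lit 0) (.e (nat_lit 7236) (nat_lit 382) .nil))))))) (.g (nat_lit 6) .nil .nil)))) (.nd (nat_lit 5) 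
(.lf (nat_lit 27536) (.g (nat_lit 2464) (.e (nat_lit 1199) (nat_lit 88) (.e (nat_lit 65569) (nat_lit 3) (.e (nat_lit 98373) (nat_lit 29) (.e (nat_lit 450587) (nat_lit 10) (.e (nat_lit 573478) (nat_lit 12) .nil))))) .nil)) 
(.lf (nat_lit 27568) (.g (nat_lit 2251) (.e (nat_lit 1199) (nat_lit 88) (.e (nat_lit 65571) (nat_lit 3) (.e (nat_lit 98359) (nat_lit 26) (.e (nat_lit 426286) (nat_lit 10) (.e (nat_lit 434248) (nat_lit 28) (.e (nat_lit 573475) (nat_lit 12) (.e (nat_lit 57351) (nat_lit 0) (.e (nat_lit 7236) (nat_lit 382) .nil)))))))) (.g (nat_lit 4) .nil .nil))))) (.nd (nat_lit 4) (.nd (nat_lit 5) 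
(.lf (nat_lit 27528) (.g (nat_lit 3731) (.e (nat_lit 1199) (nat_lit 88) (.e (nat_lit 65569) (nat_lit 3) (.e (nat_lit 98359) (nat_lit 26) (.e (nat_lit 426286) (nat_lit 10) (.e (nat_lit 434248) (nat_lit 28) (.e (nat_lit 573475) (nat_lit 12) (.e (nat_lit 57348) (nat_lit 0) (.e (nat_lit 7236) (nat_lit 382) .nil)))))))) (.g (nat_lit 6) .nil .nil))) 
(.lf (nat_lit 27560) (.g (nat_lit 4105) (.e (nat_lit 1199) (nat_lit 88) (.e (nat_lit 65571) (nat_lit 3) (.e (nat_lit 98359) (nat_lit 26) (.e (nat_lit 426286) (nat_lit 10) (.e (nat_lit 434245) (nat_lit 28) (.e (nat_lit 573474) (nat_lit 12) (.e (nat_lit 57348) (nat_lit 0) (.e (nat_lit 7236) (nat_lit 382) .nil)))))))) (.g (nat_lit 6) .nil .nil)))) (.nd (nat_lit 5) 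
(.lf (nat_lit 27544) (.g (nat_lit 3065) (.e (nat_lit 1199) (nat_lit 88) (.e (nat_lit 65570) (nat_lit 3) (.e (nat_lit 98373) (nat_lit 29) (.e (nat_lit 450588) (nat_lit 10) (.e (nat_lit 573473) (nat_lit 12) (.e (nat_lit 57347) (nat_lit 0) (.e (nat_lit 7236) (nat_lit 382) .nil))))))) (.g (nat_lit 4) .nil .nil))) 
(.lf (nat_lit 27576) (.g (nat_lit 3638) (.e (nat_lit 1199) (nat_lit 88) (.e (nat_lit 65571) (nat_lit 3) (.e (nat_lit 98372) (nat_lit 29) (.e (nat_lit 450586) (nat_lit 10) (.e (nat_lit 573475) (nat_lit 12) (.e (nat_lit 57345) (nat_lit 0) (.e (nat_lit 7236) (nat_lit 382) .nil))))))) (.g (nat_lit 5) .nil .nil)))))) (.nd (nat_lit 3) (.nd (nat_lit 4) (.nd (nat_lit 5) 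
(.lf (nat_lit 27524) (.g (nat_lit 3661) (.e (nat_lit 1199) (nat_lit 88) (.e (nat_lit 65569) (nat_lit 3) (.e (nat_lit 98359) (nat_lit 26) (.e (nat_lit 426286) (nat_lit 10) (.e (nat_lit 434248) (nat_lit 28) (.e (nat_lit 573473) (nat_lit 12) (.e (nat_lit 57348) (nat_lit 0) (.e (nat_lit 7236) (nat_lit 382) .nil)))))))) (.g (nat_lit 6) .nil .nil))) 
(.lf (nat_lit 27556) (.g (nat_lit 3514) (.e (nat_lit 1199) (nat_lit 88) (.e (nat_lit 65571) (nat_lit 3) (.e (nat_lit 98359) (nat_lit 26) (.e (nat_lit 426286) (nat_lit 10) (.e (nat_lit 434245) (nat_lit 28) (.e (nat_lit 573473) (nat_lit 12) (.e (nat_lit 57348) (nat_lit 0) (.e (nat_lit 7236) (nat_lit 382) .nil)))))))) (.g (nat_lit 6) .nil .nil)))) (.nd (nat_lit 5) 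
(.lf (nat_lit 27540) (.g (nat_lit 3165) (.e (nat_lit 1199) (nat_lit 88) (.e (nat_lit 65569) (nat_lit 3) (.e (nat_lit 98373) (nat_lit 29) (.e (nat_lit 450588) (nat_lit 10) (.e (nat_lit 573475) (nat_lit 12) (.e (nat_lit 57344) (nat_lit 0) (.e (nat_lit 7236) (nat_lit 382) .nil))))))) (.g (nat_lit 4) .nil .nil))) 
(.lf (nat_lit 27572) (.g (nat_lit 3085) (.e (nat_lit 1199) (nat_lit 88) (.e (nat_lit 65571) (nat_lit 3) (.e (nat_lit 98372) (nat_lit 29) (.e (nat_lit 450579) (nat_lit 5) (.e (nat_lit 532501) (nat_lit 1) (.e (nat_lit 65280) (nat_lit 221) .nil)))))) (.g (nat_lit 5) .nil .nil))))) (.nd (nat_lit 4) (.nd (nat_lit 5) 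
(.lf (nat_lit 27532) (.g (nat_lit 2041) (.e (nat_lit 1199) (nat_lit 88) (.e (nat_lit 65569) (nat_lit 3) (.e (nat_lit 98372) (nat_lit 29) (.e (nat_lit 450579) (nat_lit 5) (.e (nat_lit 532499) (nat_lit 1) (.e (nat_lit 65280) (nat_lit 221) .nil)))))) (.g (nat_lit 4) .nil .nil))) 
(.lf (nat_lit 27564) (.g (nat_lit 2085) (.e (nat_lit 1199) (nat_lit 88) (.e (nat_lit 65571) (nat_lit 3) (.e (nat_lit 98359) (nat_lit 26) (.e (nat_lit 426286) (nat_lit 10) (.e (nat_lit 434248) (nat_lit 28) (.e (nat_lit 573473) (nat_lit 12) (.e (nat_lit 57353) (nat_lit 0) (.e (nat_lit 7236) (nat_lit 382) .nil)))))))) (.g (nat_lit 4) .nil .nil)))) (.nd (nat_lit 5) 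
(.lf (nat_lit 27548) (.g (nat_lit 3138) (.e (nat_lit 1199) (nat_lit 88) (.e (nat_lit 65570) (nat_lit 3) (.e (nat_lit 98373) (nat_lit 29) (.e (nat_lit 450588) (nat_lit 10) (.e (nat_lit 573473) (nat_lit 12) (.e (nat_lit 65280) (nat_lit 0) (.e (nat_lit 7236) (nat_lit 382) .nil))))))) (.g (nat_lit 4) .nil .nil))) 
(.lf (nat_lit 27580) (.g (nat_lit 2458) (.e (nat_lit 1199) (nat_lit 88) (.e (nat_lit 65571) (nat_lit 3) (.e (nat_lit 98372) (nat_lit 29) (.e (nat_lit 450586) (nat_lit 10) (.e (nat_lit 573475) (nat_lit 12) (.e (nat_lit 65280) (nat_lit 0) (.e (nat_lit 7236) (nat_lit 382) .nil))))))) (.g (nat_lit 4) .nil .nil))))))) (.nd (nat_lit 2) (.nd (nat_lit 3) (.nd (nat_lit 4) (.nd (nat_lit 5) 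
(.lf (nat_lit 27522) (.g (nat_lit 2343) (.e (nat_lit 1199) (nat_lit 88) (.e (nat_lit 65569) (nat_lit 3) (.e (nat_lit 98359) (nat_lit 26) (.e (nat_lit 426286) (nat_lit 10) (.e (nat_lit 434245) (nat_lit 28) (.e (nat_lit 573474) (nat_lit 12) (.e (nat_lit 57351) (nat_lit 0) (.e (nat_lit 7236) (nat_lit 382) .nil)))))))) (.g (nat_lit 4) .nil .nil))) 
(.lf (nat_lit 27554) (.g (nat_lit 3257) (.e (nat_lit 1199) (nat_lit 88) (.e (nat_lit 65570) (nat_lit 3) (.e (nat_lit 98373) (nat_lit 29) (.e (nat_lit 450588) (nat_lit 10) (.e (nat_lit 573475) (nat_lit 12) (.e (nat_lit 65280) (nat_lit 0) (.e (nat_lit 7236) (nat_lit 382) .nil))))))) (.g (nat_lit 4) .nil .nil)))) (.nd (nat_lit 5) 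
(.lf (nat_lit 27538) (.g (nat_lit 4161) (.e (nat_lit 1199) (nat_lit 88) (.e (nat_lit 65569) (nat_lit 3) (.e (nat_lit 98373) (nat_lit 29) (.e (nat_lit 450588) (nat_lit 10) (.e (nat_lit 573473) (nat_lit 12) (.e (nat_lit 57348) (nat_lit 0) (.e (nat_lit 7236) (nat_lit 382) .nil))))))) (.g (nat_lit 6) .nil .nil))) 
(.lf (nat_lit 27570) (.g (nat_lit 1639) (.e (nat_lit 1199) (nat_lit 88) (.e (nat_lit 65571) (nat_lit 3) (.e (nat_lit 98359) (nat_lit 26) (.e (nat_lit 426312) (nat_lit 12) .nil)))) .nil)))) (.nd (nat_lit 4) (.nd (nat_lit 5) 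
(.lf (nat_lit 27530) (.g (nat_lit 545) (.e (nat_lit 1199) (nat_lit 88) (.e (nat_lit 65569) (nat_lit 3) (.e (nat_lit 98369) (nat_lit 28) .nil))) .nil)) 
(.lf (nat_lit 27562) (.g (nat_lit 2553) (.e (nat_lit 1199) (nat_lit 88) (.e (nat_lit 65571) (nat_lit 3) (.e (nat_lit 98359) (nat_lit 26) (.e (nat_lit 426286) (nat_lit 10) (.e (nat_lit 434245) (nat_lit 28) (.e (nat_lit 573474) (nat_lit 12) (.e (nat_lit 65280) (nat_lit 0) (.e (nat_lit 7236) (nat_lit 382) .nil)))))))) (.g (nat_lit 4) .nil .nil)))) (.nd (nat_lit 5) 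
(.lf (nat_lit 27546) (.g (nat_lit 2917) (.e (nat_lit 1199) (nat_lit 88) (.e (nat_lit 65570) (nat_lit 3) (.e (nat_lit 98373) (nat_lit 29) (.e (nat_lit 450588) (nat_lit 10) (.e (nat_lit 573473) (nat_lit 12) (.e (nat_lit 57352) (nat_lit 0) (.e (nat_lit 7236) (nat_lit 382) .nil))))))) (.g (nat_lit 4) .nil .nil))) 
(.lf (nat_lit 27578) (.g (nat_lit 3493) (.e (nat_lit 1199) (nat_lit 88) (.e (nat_lit 65571) (nat_lit 3) (.e (nat_lit 98372) (nat_lit 29) (.e (nat_lit 450586) (nat_lit 10) (.e (nat_lit 573475) (nat_lit 12) (.e (nat_lit 57348) (nat_lit 0) (.e (nat_lit 7236) (nat_lit 382) .nil))))))) (.g (nat_lit 5) .nil .nil)))))) (.nd (nat_lit 3) (.nd (nat_lit 4) (.nd (nat_lit 5) 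
(.lf (nat_lit 27526) (.g (nat_lit 3064) (.e (nat_lit 1199) (nat_lit 88) (.e (nat_lit 65569) (nat_lit 3) (.e (nat_lit 98359) (nat_lit 26) (.e (nat_lit 426286) (nat_lit 10) (.e (nat_lit 434248) (nat_lit 28) (.e (nat_lit 573475) (nat_lit 12) (.e (nat_lit 57344) (nat_lit 0) (.e (nat_lit 7236) (nat_lit 382) .nil)))))))) (.g (nat_lit 5) .nil .nil))) 
(.lf (nat_lit 27558) (.g (nat_lit 2619) (.e (nat_lit 1199) (nat_lit 88) (.e (nat_lit 65571) (nat_lit 3) (.e (nat_lit 98359) (nat_lit 26) (.e (nat_lit 426286) (nat_lit 10) (.e (nat_lit 434245) (nat_lit 28) (.e (nat_lit 573474) (nat_lit 12) (.e (nat_lit 57345) (nat_lit 0) (.e (nat_lit 7236) (nat_lit 382) .nil)))))))) (.g (nat_lit 4) .nil .nil)))) (.nd (nat_lit 5) 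
(.lf (nat_lit 27542) (.g (nat_lit 3959) (.e (nat_lit 1199) (nat_lit 88) (.e (nat_lit 65569) (nat_lit 3) (.e (nat_lit 98373) (nat_lit 29) (.e (nat_lit 450588) (nat_lit 10) (.e (nat_lit 573475) (nat_lit 12) (.e (nat_lit 57348) (nat_lit 0) (.e (nat_lit 7236) (nat_lit 382) .nil))))))) (.g (nat_lit 5) .nil .nil))) 
(.lf (nat_lit 27574) (.g (nat_lit 2339) (.e (nat_lit 1199) (nat_lit 88) (.e (nat_lit 65571) (nat_lit 3) (.e (nat_lit 98372) (nat_lit 29) (.e (nat_lit 450586) (nat_lit 10) (.e (nat_lit 573473) (nat_lit 12) (.e (nat_lit 57353) (nat_lit 0) (.e (nat_lit 7236) (nat_lit 382) .nil))))))) (.g (nat_lit 4) .nil .nil))))) (.nd (nat_lit 4) (.nd (nat_lit 5) 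
(.lf (nat_lit 27534) (.g (nat_lit 2787) (.e (nat_lit 1199) (nat_lit 88) (.e (nat_lit 65569) (nat_lit 3) (.e (nat_lit 98372) (nat_lit 29) (.e (nat_lit 450586) (nat_lit 10) (.e (nat_lit 573473) (nat_lit 12) (.e (nat_lit 57348) (nat_lit 0) (.e (nat_lit 7236) (nat_lit 382) .nil))))))) (.g (nat_lit 5) .nil .nil))) 
(.lf (nat_lit 27566) (.g (nat_lit 3838) (.e (nat_lit 1199) (nat_lit 88) (.e (nat_lit 65571) (nat_lit 3) (.e (nat_lit 98359) (nat_lit 26) (.e (nat_lit 426286) (nat_lit 10) (.e (nat_lit 434248) (nat_lit 28) (.e (nat_lit 573475) (nat_lit 12) (.e (nat_lit 57347) (nat_lit 0) (.e (nat_lit 7236) (nat_lit 382) .nil)))))))) (.g (nat_lit 6) .nil .nil)))) (.nd (nat_lit 5) 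
(.lf (nat_lit 27550) (.g (nat_lit 4379) (.e (nat_lit 1199) (nat_lit 88) (.e (nat_lit 65570) (nat_lit 3) (.e (nat_lit 98373) (nat_lit 29) (.e (nat_lit 450588) (nat_lit 10) (.e (nat_lit 573475) (nat_lit 12) (.e (nat_lit 57345) (nat_lit 0) (.e (nat_lit 7236) (nat_lit 382) .nil))))))) (.g (nat_lit 5) .nil .nil))) 
(.lf (nat_lit 27582) (.g (nat_lit 3339) (.e (nat_lit 1199) (nat_lit 88) (.e (nat_lit 65571) (nat_lit 3) (.e (nat_lit 98372) (nat_lit 29) (.e (nat_lit 450588) (nat_lit 10) (.e (nat_lit 573475) (nat_lit 12) .nil))))) .nil))))))) (.nd (nat_lit 1) (.nd (nat_lit 2) (.nd (nat_lit 3) (.nd (nat_lit 4) (.nd (nat_lit 5) 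
(.lf (nat_lit 27521) (.g (nat_lit 4121) (.e (nat_lit 1199) (nat_lit 88) (.e (nat_lit 65569) (nat_lit 3) (.e (nat_lit 98359) (nat_lit 26) (.e (nat_lit 426286) (nat_lit 10) (.e (nat_lit 434245) (nat_lit 28) (.e (nat_lit 573474) (nat_lit 12) (.e (nat_lit 57348) (nat_lit 0) (.e (nat_lit 7236) (nat_lit 382) .nil)))))))) (.g (nat_lit 6) .nil .nil))) 
(.lf (nat_lit 27553) (.g (nat_lit 3103) (.e (nat_lit 1199) (nat_lit 88) (.e (nat_lit 65570) (nat_lit 3) (.e (nat_lit 98373) (nat_lit 29) (.e (nat_lit 450588) (nat_lit 10) (.e (nat_lit 573475) (nat_lit 12) (.e (nat_lit 57351) (nat_lit 0) (.e (nat_lit 7236) (nat_lit 382) .nil))))))) (.g (nat_lit 4) .nil .nil)))) (.nd (nat_lit 5) 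
(.lf (nat_lit 27537) (.g (nat_lit 2639) (.e (nat_lit 1199) (nat_lit 88) (.e (nat_lit 65569) (nat_lit 3) (.e (nat_lit 98373) (nat_lit 29) (.e (nat_lit 450588) (nat_lit 10) (.e (nat_lit 573473) (nat_lit 12) .nil))))) .nil)) 
(.lf (nat_lit 27569) (.g (nat_lit 2489) (.e (nat_lit 1199) (nat_lit 88) (.e (nat_lit 65571) (nat_lit 3) (.e (nat_lit 98359) (nat_lit 26) (.e (nat_lit 426286) (nat_lit 10) (.e (nat_lit 434248) (nat_lit 28) (.e (nat_lit 573475) (nat_lit 12) (.e (nat_lit 65280) (nat_lit 0) (.e (nat_lit 7236) (nat_lit 382) .nil)))))))) (.g (nat_lit 4) .nil .nil))))) (.nd (nat_lit 4) (.nd (nat_lit 5) 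
(.lf (nat_lit 27529) (.g (nat_lit 2268) (.e (nat_lit 1199) (nat_lit 88) (.e (nat_lit 65569) (nat_lit 3) (.e (nat_lit 98359) (nat_lit 26) (.e (nat_lit 426286) (nat_lit 10) (.e (nat_lit 434248) (nat_lit 28) (.e (nat_lit 573475) (nat_lit 12) (.e (nat_lit 57351) (nat_lit 0) (.e (nat_lit 7236) (nat_lit 382) .nil)))))))) (.g (nat_lit 4) .nil .nil))) 
(.lf (nat_lit 27561) (.g (nat_lit 2327) (.e (nat_lit 1199) (nat_lit 88) (.e (nat_lit 65571) (nat_lit 3) (.e (nat_lit 98359) (nat_lit 26) (.e (nat_lit 426286) (nat_lit 10) (.e (nat_lit 434245) (nat_lit 28) (.e (nat_lit 573474) (nat_lit 12) (.e (nat_lit 57351) (nat_lit 0) (.e (nat_lit 7236) (nat_lit 382) .nil)))))))) (.g (nat_lit 4) .nil .nil)))) (.nd (nat_lit 5) 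
(.lf (nat_lit 27545) (.g (nat_lit 4832) (.e (nat_lit 1199) (nat_lit 88) (.e (nat_lit 65570) (nat_lit 3) (.e (nat_lit 98373) (nat_lit 29) (.e (nat_lit 450588) (nat_lit 10) (.e (nat_lit 573473) (nat_lit 12) (.e (nat_lit 57348) (nat_lit 0) (.e (nat_lit 7236) (nat_lit 382) .nil))))))) (.g (nat_lit 7) .nil .nil))) 
(.lf (nat_lit 27577) (.g (nat_lit 3564) (.e (nat_lit 1199) (nat_lit 88) (.e (nat_lit 65571) (nat_lit 3) (.e (nat_lit 98372) (nat_lit 29) (.e (nat_lit 450586) (nat_lit 10) (.e (nat_lit 573475) (nat_lit 12) (.e (nat_lit 57347) (nat_lit 0) (.e (nat_lit 7236) (nat_lit 382) .nil))))))) (.g (nat_lit 5) .nil .nil)))))) (.nd (nat_lit 3) (.nd (nat_lit 4) (.nd (nat_lit 5) 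
(.lf (nat_lit 27525) (.g (nat_lit 2102) (.e (nat_lit 1199) (nat_lit 88) (.e (nat_lit 65569) (nat_lit 3) (.e (nat_lit 98359) (nat_lit 26) (.e (nat_lit 426286) (nat_lit 10) (.e (nat_lit 434248) (nat_lit 28) (.e (nat_lit 573473) (nat_lit 12) (.e (nat_lit 57353) (nat_lit 0) (.e (nat_lit 7236) (nat_lit 382) .nil)))))))) (.g (nat_lit 4) .nil .nil))) 
(.lf (nat_lit 27557) (.g (nat_lit 2167) (.e (nat_lit 1199) (nat_lit 88) (.e (nat_lit 65571) (nat_lit 3) (.e (nat_lit 98359) (nat_lit 26) (.e (nat_lit 426286) (nat_lit 10) (.e (nat_lit 434245) (nat_lit 28) (.e (nat_lit 573474) (nat_lit 12) (.e (nat_lit 57344) (nat_lit 0) (.e (nat_lit 7236) (nat_lit 382) .nil)))))))) (.g (nat_lit 4) .nil .nil)))) (.nd (nat_lit 5) 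
(.lf (nat_lit 27541) (.g (nat_lit 3713) (.e (nat_lit 1199) (nat_lit 88) (.e (nat_lit 65569) (nat_lit 3) (.e (nat_lit 98373) (nat_lit 29) (.e (nat_lit 450588) (nat_lit 10) (.e (nat_lit 573475) (nat_lit 12) (.e (nat_lit 57345) (nat_lit 0) (.e (nat_lit 7236) (nat_lit 382) .nil))))))) (.g (nat_lit 5) .nil .nil))) 
(.lf (nat_lit 27573) (.g (nat_lit 3017) (.e (nat_lit 1199) (nat_lit 88) (.e (nat_lit 65571) (nat_lit 3) (.e (nat_lit 98372) (nat_lit 29) (.e (nat_lit 450579) (nat_lit 5) (.e (nat_lit 532504) (nat_lit 1) (.e (nat_lit 65280) (nat_lit 221) .nil)))))) (.g (nat_lit 5) .nil .nil))))) (.nd (nat_lit 4) (.nd (nat_lit 5) 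
(.lf (nat_lit 27533) (.g (nat_lit 2699) (.e (nat_lit 1199) (nat_lit 88) (.e (nat_lit 65569) (nat_lit 3) (.e (nat_lit 98372) (nat_lit 29) (.e (nat_lit 450579) (nat_lit 5) (.e (nat_lit 532501) (nat_lit 1) (.e (nat_lit 65280) (nat_lit 221) .nil)))))) (.g (nat_lit 5) .nil .nil))) 
(.lf (nat_lit 27565) (.g (nat_lit 3047) (.e (nat_lit 1199) (nat_lit 88) (.e (nat_lit 65571) (nat_lit 3) (.e (nat_lit 98359) (nat_lit 26) (.e (nat_lit 426286) (nat_lit 10) (.e (nat_lit 434248) (nat_lit 28) (.e (nat_lit 573475) (nat_lit 12) (.e (nat_lit 57344) (nat_lit 0) (.e (nat_lit 7236) (nat_lit 382) .nil)))))))) (.g (nat_lit 5) .nil .nil)))) (.nd (nat_lit 5) 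
(.lf (nat_lit 27549) (.g (nat_lit 2920) (.e (nat_lit 1199) (nat_lit 88) (.e (nat_lit 65570) (nat_lit 3) (.e (nat_lit 98373) (nat_lit 29) (.e (nat_lit 450588) (nat_lit 10) (.e (nat_lit 573475) (nat_lit 12) .nil))))) .nil)) 
(.lf (nat_lit 27581) (.g (nat_lit 3378) (.e (nat_lit 1199) (nat_lit 88) (.e (nat_lit 65571) (nat_lit 3) (.e (nat_lit 98372) (nat_lit 29) (.e (nat_lit 450588) (nat_lit 10) (.e (nat_lit 573473) (nat_lit 12) .nil))))) .nil)))))) (.nd (nat_lit 2) (.nd (nat_lit 3) (.nd (nat_lit 4) (.nd (nat_lit 5) 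
(.lf (nat_lit 27523) (.g (nat_lit 1987) (.e (nat_lit 1199) (nat_lit 88) (.e (nat_lit 65569) (nat_lit 3) (.e (nat_lit 98359) (nat_lit 26) (.e (nat_lit 426286) (nat_lit 10) (.e (nat_lit 434247) (nat_lit 28) .nil))))) .nil)) 
(.lf (nat_lit 27555) (.g (nat_lit 873) (.e (nat_lit 1199) (nat_lit 88) (.e (nat_lit 65571) (nat_lit 3) (.e (nat_lit 98350) (nat_lit 24) .nil))) .nil))) (.nd (nat_lit 5) 
(.lf (nat_lit 27539) (.g (nat_lit 2693) (.e (nat_lit 1199) (nat_lit 88) (.e (nat_lit 65569) (nat_lit 3) (.e (nat_lit 98373) (nat_lit 29) (.e (nat_lit 450588) (nat_lit 10) (.e (nat_lit 573475) (nat_lit 12) .nil))))) .nil)) 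
(.lf (nat_lit 27571) (.g (nat_lit 2454) (.e (nat_lit 1199) (nat_lit 88) (.e (nat_lit 65571) (nat_lit 3) (.e (nat_lit 98372) (nat_lit 29) (.e (nat_lit 450579) (nat_lit 5) (.e (nat_lit 532499) (nat_lit 1) (.e (nat_lit 65280) (nat_lit 221) .nil)))))) (.g (nat_lit 4) .nil .nil))))) (.nd (nat_lit 4) (.nd (nat_lit 5) 
(.lf (nat_lit 27531) (.g (nat_lit 1413) (.e (nat_lit 1199) (nat_lit 88) (.e (nat_lit 65569) (nat_lit 3) (.e (nat_lit 98370) (nat_lit 28) (.e (nat_lit 450304) (nat_lit 3) .nil)))) .nil)) 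
(.lf (nat_lit 27563) (.g (nat_lit 3644) (.e (nat_lit 1199) (nat_lit 88) (.e (nat_lit 65571) (nat_lit 3) (.e (nat_lit 98359) (nat_lit 26) (.e (nat_lit 426286) (nat_lit 10) (.e (nat_lit 434248) (nat_lit 28) (.e (nat_lit 573473) (nat_lit 12) (.e (nat_lit 57348) (nat_lit 0) (.e (nat_lit 7236) (nat_lit 382) .nil)))))))) (.g (nat_lit 6) .nil .nil)))) (.nd (nat_lit 5) 
(.lf (nat_lit 27547) (.g (nat_lit 3270) (.e (nat_lit 1199) (nat_lit 88) (.e (nat_lit 65570) (nat_lit 3) (.e (nat_lit 98373) (nat_lit 29) (.e (nat_lit 450588) (nat_lit 10) (.e (nat_lit 573473) (nat_lit 12) (.e (nat_lit 57353) (nat_lit 0) (.e (nat_lit 7236) (nat_lit 382) .nil))))))) (.g (nat_lit 4) .nil .nil))) 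
(.lf (nat_lit 27579) (.g (nat_lit 2298) (.e (nat_lit 1199) (nat_lit 88) (.e (nat_lit 65571) (nat_lit 3) (.e (nat_lit 98372) (nat_lit 29) (.e (nat_lit 450586) (nat_lit 10) (.e (nat_lit 573475) (nat_lit 12) (.e (nat_lit 57351) (nat_lit 0) (.e (nat_lit 7236) (nat_lit 382) .nil))))))) (.g (nat_lit 4) .nil .nil)))))) (.nd (nat_lit 3) (.nd (nat_lit 4) (.nd (nat_lit 5) 
(.lf (nat_lit 27527) (.g (nat_lit 3855) (.e (nat_lit 1199) (nat_lit 88) (.e (nat_lit 65569) (nat_lit 3) (.e (nat_lit 98359) (nat_lit 26) (.e (nat_lit 426286) (nat_lit 10) (.e (nat_lit 434248) (nat_lit 28) (.e (nat_lit 573475) (nat_lit 12) (.e (nat_lit 57347) (nat_lit 0) (.e (nat_lit 7236) (nat_lit 382) .nil)))))))) (.g (nat_lit 6) .nil .nil))) 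
(.lf (nat_lit 27559) (.g (nat_lit 3839) (.e (nat_lit 1199) (nat_lit 88) (.e (nat_lit 65571) (nat_lit 3) (.e (nat_lit 98359) (nat_lit 26) (.e (nat_lit 426286) (nat_lit 10) (.e (nat_lit 434245) (nat_lit 28) (.e (nat_lit 573474) (nat_lit 12) (.e (nat_lit 57347) (nat_lit 0) (.e (nat_lit 7236) (nat_lit 382) .nil)))))))) (.g (nat_lit 6) .nil .nil)))) (.nd (nat_lit 5) 
(.lf (nat_lit 27543) (.g (nat_lit 2919) (.e (nat_lit 1199) (nat_lit 88) (.e (nat_lit 65570) (nat_lit 3) (.e (nat_lit 98373) (nat_lit 29) (.e (nat_lit 450588) (nat_lit 10) (.e (nat_lit 573473) (nat_lit 12) (.e (nat_lit 57345) (nat_lit 0) (.e (nat_lit 7236) (nat_lit 382) .nil))))))) (.g (nat_lit 4) .nil .nil))) 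
(.lf (nat_lit 27575) (.g (nat_lit 2226) (.e (nat_lit 1199) (nat_lit 88) (.e (nat_lit 65571) (nat_lit 3) (.e (nat_lit 98372) (nat_lit 29) (.e (nat_lit 450586) (nat_lit 10) (.e (nat_lit 573473) (nat_lit 12) (.e (nat_lit 65280) (nat_lit 0) (.e (nat_lit 7236) (nat_lit 382) .nil))))))) (.g (nat_lit 4) .nil .nil))))) (.nd (nat_lit 4) (.nd (nat_lit 5) 
(.lf (nat_lit 27535) (.g (nat_lit 2747) (.e (nat_lit 1199) (nat_lit 88) (.e (nat_lit 65569) (nat_lit 3) (.e (nat_lit 98372) (nat_lit 29) (.e (nat_lit 450588) (nat_lit 10) (.e (nat_lit 573475) (nat_lit 12) .nil))))) .nil)) 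
(.lf (nat_lit 27567) (.g (nat_lit 3714) (.e (nat_lit 1199) (nat_lit 88) (.e (nat_lit 65571) (nat_lit 3) (.e (nat_lit 98359) (nat_lit 26) (.e (nat_lit 426286) (nat_lit 10) (.e (nat_lit 434248) (nat_lit 28) (.e (nat_lit 573475) (nat_lit 12) (.e (nat_lit 57348) (nat_lit 0) (.e (nat_lit 7236) (nat_lit 382) .nil)))))))) (.g (nat_lit 6) .nil .nil)))) (.nd (nat_lit 5) 
(.lf (nat_lit 27551) (.g (nat_lit 4795) (.e (nat_lit 1199) (nat_lit 88) (.e (nat_lit 65570) (nat_lit 3) (.e (nat_lit 98373) (nat_lit 29) (.e (nat_lit 450588) (nat_lit 10) (.e (nat_lit 573475) (nat_lit 12) (.e (nat_lit 57347) (nat_lit 0) (.e (nat_lit 7236) (nat_lit 382) .nil))))))) (.g (nat_lit 6) .nil .nil))) 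
(.lf (nat_lit 27583) (.g (nat_lit 2712) (.e (nat_lit 1199) (nat_lit 88) (.e (nat_lit 65571) (nat_lit 3) (.e (nat_lit 98373) (nat_lit 29) (.e (nat_lit 450587) (nat_lit 10) (.e (nat_lit 573477) (nat_lit 12) .nil))))) .nil))))))))

noncomputable def tv380 : DT := (.nd (nat_lit 0) (.nd (nat_lit 1) (.nd (nat_lit 2) (.nd (nat_lit 3) (.nd (nat_lit 4) (.nd (nat_lit 5) 
(.lf (nat_lit 27584) (.g (nat_lit 2938) (.e (nat_lit 1199) (nat_lit 88) (.e (nat_lit 65571) (nat_lit 3) (.e (nat_lit 98373) (nat_lit 29) (.e (nat_lit 450587) (nat_lit 10) (.e (nat_lit 573477) (nat_lit 12) (.e (nat_lit 57353) (nat_lit 0) (.e (nat_lit 7236) (nat_lit 382) .nil))))))) (.g (nat_lit 4) .nil .nil))) 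
(.lf (nat_lit 27616) (.g (nat_lit 2492) (.e (nat_lit 1199) (nat_lit 88) (.e (nat_lit 65586) (nat_lit 7) (.e (nat_lit 319531) (nat_lit 16) (.e (nat_lit 286748) (nat_lit 9) (.e (nat_lit 336295) (nat_lit 15) (.e (nat_lit 3747) (nat_lit 228) (.e (nat_lit 786452) (nat_lit 16) (.e (nat_lit 57724) (nat_lit 181) .nil)))))))) (.g (nat_lit 5) .nil .nil)))) (.nd (nat_lit 5) 
(.lf (nat_lit 27600) (.g (nat_lit 1215) (.e (nat_lit 1199) (nat_lit 88) (.e (nat_lit 65583) (nat_lit 7) (.e (nat_lit 319530) (nat_lit 16) (.e (nat_lit 286755) (nat_lit 10) .nil)))) .nil)) 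
(.lf (nat_lit 27632) (.g (nat_lit 2273) (.e (nat_lit 1199) (nat_lit 88) (.e (nat_lit 65586) (nat_lit 7) (.e (nat_lit 319531) (nat_lit 16) (.e (nat_lit 286756) (nat_lit 10) (.e (nat_lit 344169) (nat_lit 40) .nil))))) .nil)))) (.nd (nat_lit 4) (.nd (nat_lit 5) 
(.lf (nat_lit 27592) (.g (nat_lit 3030) (.e (nat_lit 1199) (nat_lit 88) (.e (nat_lit 65571) (nat_lit 3) (.e (nat_lit 98373) (nat_lit 29) (.e (nat_lit 450588) (nat_lit 10) (.e (nat_lit 573473) (nat_lit 12) (.e (nat_lit 57352) (nat_lit 0) (.e (nat_lit 7236) (nat_lit 382) .nil))))))) (.g (nat_lit 4) .nil .nil))) 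
(.lf (nat_lit 27624) (.g (nat_lit 1829) (.e (nat_lit 1199) (nat_lit 88) (.e (nat_lit 65586) (nat_lit 7) (.e (nat_lit 319531) (nat_lit 16) (.e (nat_lit 286755) (nat_lit 10) .nil)))) .nil))) (.nd (nat_lit 5) 
(.lf (nat_lit 27608) (.g (nat_lit 2261) (.e (nat_lit 1199) (nat_lit 88) (.e (nat_lit 65586) (nat_lit 7) (.e (nat_lit 319531) (nat_lit 16) (.e (nat_lit 286731) (nat_lit 1) (.e (nat_lit 57694) (nat_lit 157) .nil))))) .nil)) 
(.lf (nat_lit 27640) (.g (nat_lit 2656) (.e (nat_lit 1199) (nat_lit 88) (.e (nat_lit 65586) (nat_lit 7) (.e (nat_lit 319531) (nat_lit 16) (.e (nat_lit 286759) (nat_lit 12) (.e (nat_lit 385094) (nat_lit 49) (.e (nat_lit 778246) (nat_lit 0) (.e (nat_lit 1183) (nat_lit 87) (.e (nat_lit 57727) (nat_lit 181) .nil)))))))) (.g (nat_lit 5) .nil .nil)))))) 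
(.nd (nat_lit 3) (.nd (nat_lit 4) (.nd (nat_lit 5) 
(.lf (nat_lit 27588) (.g (nat_lit 2813) (.e (nat_lit 1199) (nat_lit 88) (.e (nat_lit 65571) (nat_lit 3) (.e (nat_lit 98373) (nat_lit 29) (.e (nat_lit 450587) (nat_lit 10) (.e (nat_lit 573478) (nat_lit 12) (.e (nat_lit 57351) (nat_lit 0) (.e (nat_lit 7236) (nat_lit 382) .nil))))))) (.g (nat_lit 4) .nil .nil))) 
(.lf (nat_lit 27620) (.g (nat_lit 2769) (.e (nat_lit 1199) (nat_lit 88) (.e (nat_lit 65586) (nat_lit 7) (.e (nat_lit 319531) (nat_lit 16) (.e (nat_lit 286752) (nat_lit 10) (.e (nat_lit 344169) (nat_lit 40) (.e (nat_lit 671751) (nat_lit 0) (.e (nat_lit 1182) (nat_lit 87) (.e (nat_lit 57730) (nat_lit 181) .nil)))))))) (.g (nat_lit 4) .nil .nil)))) (.nd (nat_lit 5) 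
(.lf (nat_lit 27604) (.g (nat_lit 3812) (.e (nat_lit 1199) (nat_lit 88) (.e (nat_lit 65586) (nat_lit 7) (.e (nat_lit 319505) (nat_lit 10) (.e (nat_lit 618) (nat_lit 48) (.e (nat_lit 557109) (nat_lit 15) (.e (nat_lit 188446) (nat_lit 21) (.e (nat_lit 164195) (nat_lit 158) .nil))))))) (.g (nat_lit 6) .nil .nil))) 
(.lf (nat_lit 27636) (.g (nat_lit 1744) (.e (nat_lit 1199) (nat_lit 88) (.e (nat_lit 65586) (nat_lit 7) (.e (nat_lit 319531) (nat_lit 16) (.e (nat_lit 286759) (nat_lit 12) (.e (nat_lit 385094) (nat_lit 49) .nil))))) .nil)))) (.nd (nat_lit 4) (.nd (nat_lit 5) 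
(.lf (nat_lit 27596) (.g (nat_lit 3217) (.e (nat_lit 1199) (nat_lit 88) (.e (nat_lit 65571) (nat_lit 3) (.e (nat_lit 98373) (nat_lit 29) (.e (nat_lit 450588) (nat_lit 10) (.e (nat_lit 573475) (nat_lit 12) (.e (nat_lit 57351) (nat_lit 0) (.e (nat_lit 7236) (nat_lit 382) .nil))))))) (.g (nat_lit 4) .nil .nil))) 
(.lf (nat_lit 27628) (.g (nat_lit 2300) (.e (nat_lit 1199) (nat_lit 88) (.e (nat_lit 65586) (nat_lit 7) (.e (nat_lit 319531) (nat_lit 16) (.e (nat_lit 286756) (nat_lit 10) (.e (nat_lit 344168) (nat_lit 40) .nil))))) .nil))) (.nd (nat_lit 5) 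
(.lf (nat_lit 27612) (.g (nat_lit 2117) (.e (nat_lit 1199) (nat_lit 88) (.e (nat_lit 65586) (nat_lit 7) (.e (nat_lit 319531) (nat_lit 16) (.e (nat_lit 286748) (nat_lit 9) (.e (nat_lit 335907) (nat_lit 0) .nil))))) .nil)) 
(.lf (nat_lit 27644) (.g (nat_lit 4500) (.e (nat_lit 1199) (nat_lit 88) (.e (nat_lit 65586) (nat_lit 7) (.e (nat_lit 319531) (nat_lit 16) (.e (nat_lit 286759) (nat_lit 12) (.e (nat_lit 385094) (nat_lit 49) (.e (nat_lit 778317) (nat_lit 3) (.e (nat_lit 57354) (nat_lit 0) (.e (nat_lit 6319) (nat_lit 337) .nil)))))))) (.g (nat_lit 7) .nil .nil))))))) 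
(.nd (nat_lit 2) (.nd (nat_lit 3) (.nd (nat_lit 4) (.nd (nat_lit 5) 
(.lf (nat_lit 27586) (.g (nat_lit 2667) (.e (nat_lit 1199) (nat_lit 88) (.e (nat_lit 65571) (nat_lit 3) (.e (nat_lit 98373) (nat_lit 29) (.e (nat_lit 450587) (nat_lit 10) (.e (nat_lit 573478) (nat_lit 12) .nil))))) .nil)) 
(.lf (nat_lit 27618) (.g (nat_lit 1934) (.e (nat_lit 1199) (nat_lit 88) (.e (nat_lit 65586) (nat_lit 7) (.e (nat_lit 319531) (nat_lit 16) (.e (nat_lit 286752) (nat_lit 10) .nil)))) .nil))) (.nd (nat_lit 5) 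
(.lf (nat_lit 27602) (.g (nat_lit 2453) (.e (nat_lit 1199) (nat_lit 88) (.e (nat_lit 65583) (nat_lit 7) (.e (nat_lit 319530) (nat_lit 16) (.e (nat_lit 286763) (nat_lit 15) (.e (nat_lit 6988) (nat_lit 377) (.e (nat_lit 2777) (nat_lit 178) (.e (nat_lit 286731) (nat_lit 1) (.e (nat_lit 57871) (nat_lit 264) .nil)))))))) (.g (nat_lit 6) .nil .nil))) 
(.lf (nat_lit 27634) (.g (nat_lit 1284) (.e (nat_lit 1199) (nat_lit 88) (.e (nat_lit 65586) (nat_lit 7) (.e (nat_lit 319531) (nat_lit 16) (.e (nat_lit 286759) (nat_lit 12) .nil)))) .nil)))) (.nd (nat_lit 4) (.nd (nat_lit 5) 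
(.lf (nat_lit 27594) (.g (nat_lit 3945) (.e (nat_lit 1199) (nat_lit 88) (.e (nat_lit 65571) (nat_lit 3) (.e (nat_lit 98373) (nat_lit 29) (.e (nat_lit 450588) (nat_lit 10) (.e (nat_lit 573475) (nat_lit 12) (.e (nat_lit 57344) (nat_lit 0) (.e (nat_lit 7236) (nat_lit 382) .nil))))))) (.g (nat_lit 5) .nil .nil))) 
(.lf (nat_lit 27626) (.g (nat_lit 3175) (.e (nat_lit 1199) (nat_lit 88) (.e (nat_lit 65586) (nat_lit 7) (.e (nat_lit 319531) (nat_lit 16) (.e (nat_lit 286755) (nat_lit 10) (.e (nat_lit 344169) (nat_lit 40) (.e (nat_lit 671751) (nat_lit 0) (.e (nat_lit 1182) (nat_lit 87) (.e (nat_lit 57724) (nat_lit 181) .nil)))))))) (.g (nat_lit 5) .nil .nil)))) (.nd (nat_lit 5) 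
(.lf (nat_lit 27610) (.g (nat_lit 2002) (.e (nat_lit 1199) (nat_lit 88) (.e (nat_lit 65586) (nat_lit 7) (.e (nat_lit 319531) (nat_lit 16) (.e (nat_lit 286745) (nat_lit 9) .nil)))) .nil)) 
(.lf (nat_lit 27642) (.g (nat_lit 5170) (.e (nat_lit 1199) (nat_lit 88) (.e (nat_lit 65586) (nat_lit 7) (.e (nat_lit 319531) (nat_lit 16) (.e (nat_lit 286759) (nat_lit 12) (.e (nat_lit 385094) (nat_lit 49) (.e (nat_lit 778317) (nat_lit 3) (.e (nat_lit 57354) (nat_lit 0) (.e (nat_lit 6264) (nat_lit 337) .nil)))))))) (.g (nat_lit 8) .nil .nil)))))) (.nd (nat_lit 3) (.nd (nat_lit 4) (.nd (nat_lit 5) 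
(.lf (nat_lit 27590) (.g (nat_lit 3032) (.e (nat_lit 1199) (nat_lit 88) (.e (nat_lit 65571) (nat_lit 3) (.e (nat_lit 98373) (nat_lit 29) (.e (nat_lit 450588) (nat_lit 10) (.e (nat_lit 573473) (nat_lit 12) (.e (nat_lit 57345) (nat_lit 0) (.e (nat_lit 7236) (nat_lit 382) .nil))))))) (.g (nat_lit 4) .nil .nil))) 
(.lf (nat_lit 27622) (.g (nat_lit 2806) (.e (nat_lit 1199) (nat_lit 88) (.e (nat_lit 65586) (nat_lit 7) (.e (nat_lit 319531) (nat_lit 16) (.e (nat_lit 286753) (nat_lit 10) (.e (nat_lit 344168) (nat_lit 40) (.e (nat_lit 671751) (nat_lit 0) (.e (nat_lit 1182) (nat_lit 87) (.e (nat_lit 57724) (nat_lit 181) .nil)))))))) (.g (nat_lit 4) .nil .nil)))) (.nd (nat_lit 5) 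
(.lf (nat_lit 27606) (.g (nat_lit 1465) (.e (nat_lit 1199) (nat_lit 88) (.e (nat_lit 65586) (nat_lit 7) (.e (nat_lit 319531) (nat_lit 16) (.e (nat_lit 286731) (nat_lit 1) .nil)))) .nil)) 
(.lf (nat_lit 27638) (.g (nat_lit 2835) (.e (nat_lit 1199) (nat_lit 88) (.e (nat_lit 65586) (nat_lit 7) (.e (nat_lit 319531) (nat_lit 16) (.e (nat_lit 286759) (nat_lit 12) (.e (nat_lit 385094) (nat_lit 49) (.e (nat_lit 778246) (nat_lit 0) (.e (nat_lit 1173) (nat_lit 87) (.e (nat_lit 57729) (nat_lit 181) .nil)))))))) (.g (nat_lit 5) .nil .nil))))) (.nd (nat_lit 4) (.nd (nat_lit 5) 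
(.lf (nat_lit 27598) (.g (nat_lit 4326) (.e (nat_lit 1199) (nat_lit 88) (.e (nat_lit 65583) (nat_lit 7) (.e (nat_lit 319499) (nat_lit 10) (.e (nat_lit 618) (nat_lit 48) (.e (nat_lit 557109) (nat_lit 15) (.e (nat_lit 188446) (nat_lit 21) (.e (nat_lit 164196) (nat_lit 158) .nil))))))) (.g (nat_lit 0) .nil .nil))) 
(.lf (nat_lit 27630) (.g (nat_lit 3540) (.e (nat_lit 1199) (nat_lit 88) (.e (nat_lit 65586) (nat_lit 7) (.e (nat_lit 319531) (nat_lit 16) (.e (nat_lit 286756) (nat_lit 10) (.e (nat_lit 344168) (nat_lit 40) (.e (nat_lit 671751) (nat_lit 0) (.e (nat_lit 1182) (nat_lit 87) (.e (nat_lit 57730) (nat_lit 181) .nil)))))))) (.g (nat_lit 6) .nil .nil)))) (.nd (nat_lit 5) 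
(.lf (nat_lit 27614) (.g (nat_lit 3772) (.e (nat_lit 1199) (nat_lit 88) (.e (nat_lit 65586) (nat_lit 7) (.e (nat_lit 319531) (nat_lit 16) (.e (nat_lit 286748) (nat_lit 9) (.e (nat_lit 336295) (nat_lit 15) (.e (nat_lit 3632) (nat_lit 227) (.e (nat_lit 778318) (nat_lit 3) (.e (nat_lit 57354) (nat_lit 0) (.e (nat_lit 6264) (nat_lit 337) .nil))))))))) (.g (nat_lit 7) .nil .nil))) 
(.lf (nat_lit 27646) (.g (nat_lit 4447) (.e (nat_lit 1199) (nat_lit 88) (.e (nat_lit 65586) (nat_lit 7) (.e (nat_lit 319531) (nat_lit 16) (.e (nat_lit 286759) (nat_lit 12) (.e (nat_lit 385094) (nat_lit 49) (.e (nat_lit 778317) (nat_lit 3) (.e (nat_lit 57354) (nat_lit 0) (.e (nat_lit 6321) (nat_lit 337) .nil)))))))) (.g (nat_lit 7) .nil .nil)))))))) 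
(.nd (nat_lit 1) (.nd (nat_lit 2) (.nd (nat_lit 3) (.nd (nat_lit 4) (.nd (nat_lit 5) 
(.lf (nat_lit 27585) (.g (nat_lit 2938) (.e (nat_lit 1199) (nat_lit 88) (.e (nat_lit 65571) (nat_lit 3) (.e (nat_lit 98373) (nat_lit 29) (.e (nat_lit 450587) (nat_lit 10) (.e (nat_lit 573477) (nat_lit 12) (.e (nat_lit 65280) (nat_lit 0) (.e (nat_lit 7236) (nat_lit 382) .nil))))))) (.g (nat_lit 4) .nil .nil))) 
(.lf (nat_lit 27617) (.g (nat_lit 2737) (.e (nat_lit 1199) (nat_lit 88) (.e (nat_lit 65586) (nat_lit 7) (.e (nat_lit 319531) (nat_lit 16) (.e (nat_lit 286748) (nat_lit 9) (.e (nat_lit 336295) (nat_lit 15) (.e (nat_lit 3747) (nat_lit 228) (.e (nat_lit 786452) (nat_lit 16) (.e (nat_lit 57729) (nat_lit 181) .nil)))))))) (.g (nat_lit 5) .nil .nil)))) (.nd (nat_lit 5) 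
(.lf (nat_lit 27601) (.g (nat_lit 2428) (.e (nat_lit 1199) (nat_lit 88) (.e (nat_lit 65583) (nat_lit 7) (.e (nat_lit 319530) (nat_lit 16) (.e (nat_lit 286759) (nat_lit 12) (.e (nat_lit 385094) (nat_lit 49) (.e (nat_lit 778317) (nat_lit 3) (.e (nat_lit 57354) (nat_lit 0) (.e (nat_lit 6308) (nat_lit 337) .nil)))))))) (.g (nat_lit 4) .nil .nil))) 
(.lf (nat_lit 27633) (.g (nat_lit 3347) (.e (nat_lit 1199) (nat_lit 88) (.e (nat_lit 65586) (nat_lit 7) (.e (nat_lit 319531) (nat_lit 16) (.e (nat_lit 286756) (nat_lit 10) (.e (nat_lit 344169) (nat_lit 40) (.e (nat_lit 671751) (nat_lit 0) (.e (nat_lit 1182) (nat_lit 87) (.e (nat_lit 57730) (nat_lit 181) .nil)))))))) (.g (nat_lit 5) .nil .nil))))) (.nd (nat_lit 4) (.nd (nat_lit 5) 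
(.lf (nat_lit 27593) (.g (nat_lit 2720) (.e (nat_lit 1199) (nat_lit 88) (.e (nat_lit 65571) (nat_lit 3) (.e (nat_lit 98373) (nat_lit 29) (.e (nat_lit 450588) (nat_lit 10) (.e (nat_lit 573475) (nat_lit 12) .nil))))) .nil)) 
(.lf (nat_lit 27625) (.g (nat_lit 3079) (.e (nat_lit 1199) (nat_lit 88) (.e (nat_lit 65586) (nat_lit 7) (.e (nat_lit 319531) (nat_lit 16) (.e (nat_lit 286755) (nat_lit 10) (.e (nat_lit 344168) (nat_lit 40) (.e (nat_lit 671751) (nat_lit 0) (.e (nat_lit 1182) (nat_lit 87) (.e (nat_lit 57724) (nat_lit 181) .nil)))))))) (.g (nat_lit 5) .nil .nil)))) (.nd (nat_lit 5) 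
(.lf (nat_lit 27609) (.g (nat_lit 2002) (.e (nat_lit 1199) (nat_lit 88) (.e (nat_lit 65586) (nat_lit 7) (.e (nat_lit 319531) (nat_lit 16) (.e (nat_lit 286738) (nat_lit 6) .nil)))) .nil)) 
(.lf (nat_lit 27641) (.g (nat_lit 4261) (.e (nat_lit 1199) (nat_lit 88) (.e (nat_lit 65586) (nat_lit 7) (.e (nat_lit 319531) (nat_lit 16) (.e (nat_lit 286759) (nat_lit 12) (.e (nat_lit 385094) (nat_lit 49) (.e (nat_lit 778317) (nat_lit 3) (.e (nat_lit 57350) (nat_lit 0) (.e (nat_lit 6318) (nat_lit 337) .nil)))))))) (.g (nat_lit 6) .nil .nil)))))) (.nd (nat_lit 3) (.nd (nat_lit 4) (.nd (nat_lit 5) 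
(.lf (nat_lit 27589) (.g (nat_lit 2948) (.e (nat_lit 1199) (nat_lit 88) (.e (nat_lit 65571) (nat_lit 3) (.e (nat_lit 98373) (nat_lit 29) (.e (nat_lit 450587) (nat_lit 10) (.e (nat_lit 573478) (nat_lit 12) (.e (nat_lit 65280) (nat_lit 0) (.e (nat_lit 7236) (nat_lit 382) .nil))))))) (.g (nat_lit 4) .nil .nil))) 
(.lf (nat_lit 27621) (.g (nat_lit 1997) (.e (nat_lit 1199) (nat_lit 88) (.e (nat_lit 65586) (nat_lit 7) (.e (nat_lit 319531) (nat_lit 16) (.e (nat_lit 286753) (nat_lit 10) .nil)))) .nil))) (.nd (nat_lit 5) 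
(.lf (nat_lit 27605) (.g (nat_lit 367) (.e (nat_lit 1199) (nat_lit 88) (.e (nat_lit 65586) (nat_lit 7) (.e (nat_lit 319531) (nat_lit 16) .nil))) .nil)) 
(.lf (nat_lit 27637) (.g (nat_lit 2743) (.e (nat_lit 1199) (nat_lit 88) (.e (nat_lit 65586) (nat_lit 7) (.e (nat_lit 319531) (nat_lit 16) (.e (nat_lit 286759) (nat_lit 12) (.e (nat_lit 385094) (nat_lit 49) (.e (nat_lit 778246) (nat_lit 0) (.e (nat_lit 1173) (nat_lit 87) (.e (nat_lit 57724) (nat_lit 181) .nil)))))))) (.g (nat_lit 5) .nil .nil))))) (.nd (nat_lit 4) (.nd (nat_lit 5) 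
(.lf (nat_lit 27597) (.g (nat_lit 2946) (.e (nat_lit 1199) (nat_lit 88) (.e (nat_lit 65583) (nat_lit 7) (.e (nat_lit 319499) (nat_lit 10) (.e (nat_lit 618) (nat_lit 48) (.e (nat_lit 557109) (nat_lit 15) (.e (nat_lit 188446) (nat_lit 21) (.e (nat_lit 164195) (nat_lit 158) .nil))))))) (.g (nat_lit 5) .nil .nil))) 
(.lf (nat_lit 27629) (.g (nat_lit 2397) (.e (nat_lit 1199) (nat_lit 88) (.e (nat_lit 65586) (nat_lit 7) (.e (nat_lit 319531) (nat_lit 16) (.e (nat_lit 286756) (nat_lit 10) (.e (nat_lit 344168) (nat_lit 40) (.e (nat_lit 671751) (nat_lit 0) (.e (nat_lit 1181) (nat_lit 87) (.e (nat_lit 57724) (nat_lit 181) .nil)))))))) (.g (nat_lit 4) .nil .nil)))) (.nd (nat_lit 5) 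
(.lf (nat_lit 27613) (.g (nat_lit 2821) (.e (nat_lit 1199) (nat_lit 88) (.e (nat_lit 65586) (nat_lit 7) (.e (nat_lit 319531) (nat_lit 16) (.e (nat_lit 286748) (nat_lit 9) (.e (nat_lit 336295) (nat_lit 15) (.e (nat_lit 3630) (nat_lit 227) (.e (nat_lit 778486) (nat_lit 12) (.e (nat_lit 163843) (nat_lit 0) (.e (nat_lit 7232) (nat_lit 382) .nil))))))))) (.g (nat_lit 5) .nil .nil))) 
(.lf (nat_lit 27645) (.g (nat_lit 5146) (.e (nat_lit 1199) (nat_lit 88) (.e (nat_lit 65586) (nat_lit 7) (.e (nat_lit 319531) (nat_lit 16) (.e (nat_lit 286759) (nat_lit 12) (.e (nat_lit 385094) (nat_lit 49) (.e (nat_lit 778317) (nat_lit 3) (.e (nat_lit 57354) (nat_lit 0) (.e (nat_lit 6320) (nat_lit 337) .nil)))))))) (.g (nat_lit 8) .nil .nil))))))) 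
(.nd (nat_lit 2) (.nd (nat_lit 3) (.nd (nat_lit 4) (.nd (nat_lit 5) 
(.lf (nat_lit 27587) (.g (nat_lit 3225) (.e (nat_lit 1199) (nat_lit 88) (.e (nat_lit 65571) (nat_lit 3) (.e (nat_lit 98373) (nat_lit 29) (.e (nat_lit 450587) (nat_lit 10) (.e (nat_lit 573478) (nat_lit 12) (.e (nat_lit 57344) (nat_lit 0) (.e (nat_lit 7236) (nat_lit 382) .nil))))))) (.g (nat_lit 5) .nil .nil))) 
(.lf (nat_lit 27619) (.g (nat_lit 3452) (.e (nat_lit 1199) (nat_lit 88) (.e (nat_lit 65586) (nat_lit 7) (.e (nat_lit 319531) (nat_lit 16) (.e (nat_lit 286752) (nat_lit 10) (.e (nat_lit 344169) (nat_lit 40) (.e (nat_lit 671751) (nat_lit 0) (.e (nat_lit 1182) (nat_lit 87) (.e (nat_lit 57724) (nat_lit 181) .nil)))))))) (.g (nat_lit 5) .nil .nil)))) (.nd (nat_lit 5) 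
(.lf (nat_lit 27603) (.g (nat_lit 3834) (.e (nat_lit 1199) (nat_lit 88) (.e (nat_lit 65586) (nat_lit 7) (.e (nat_lit 319500) (nat_lit 10) (.e (nat_lit 618) (nat_lit 48) (.e (nat_lit 557109) (nat_lit 15) (.e (nat_lit 188446) (nat_lit 21) (.e (nat_lit 164195) (nat_lit 158) .nil))))))) (.g (nat_lit 6) .nil .nil))) 
(.lf (nat_lit 27635) (.g (nat_lit 2914) (.e (nat_lit 1199) (nat_lit 88) (.e (nat_lit 65586) (nat_lit 7) (.e (nat_lit 319531) (nat_lit 16) (.e (nat_lit 286759) (nat_lit 12) (.e (nat_lit 385092) (nat_lit 49) (.e (nat_lit 778486) (nat_lit 12) (.e (nat_lit 163843) (nat_lit 0) (.e (nat_lit 7232) (nat_lit 382) .nil)))))))) (.g (nat_lit 5) .nil .nil))))) (.nd (nat_lit 4) (.nd (nat_lit 5) 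
(.lf (nat_lit 27595) (.g (nat_lit 4909) (.e (nat_lit 1199) (nat_lit 88) (.e (nat_lit 65571) (nat_lit 3) (.e (nat_lit 98373) (nat_lit 29) (.e (nat_lit 450588) (nat_lit 10) (.e (nat_lit 573475) (nat_lit 12) (.e (nat_lit 57347) (nat_lit 0) (.e (nat_lit 7236) (nat_lit 382) .nil))))))) (.g (nat_lit 6) .nil .nil))) 
(.lf (nat_lit 27627) (.g (nat_lit 2399) (.e (nat_lit 1199) (nat_lit 88) (.e (nat_lit 65586) (nat_lit 7) (.e (nat_lit 319531) (nat_lit 16) (.e (nat_lit 286756) (nat_lit 10) (.e (nat_lit 344160) (nat_lit 37) .nil))))) .nil))) (.nd (nat_lit 5) 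
(.lf (nat_lit 27611) (.g (nat_lit 1194) (.e (nat_lit 1199) (nat_lit 88) (.e (nat_lit 65586) (nat_lit 7) (.e (nat_lit 319531) (nat_lit 16) (.e (nat_lit 286748) (nat_lit 9) .nil)))) .nil)) 
(.lf (nat_lit 27643) (.g (nat_lit 4604) (.e (nat_lit 1199) (nat_lit 88) (.e (nat_lit 65586) (nat_lit 7) (.e (nat_lit 319531) (nat_lit 16) (.e (nat_lit 286759) (nat_lit 12) (.e (nat_lit 385094) (nat_lit 49) (.e (nat_lit 778317) (nat_lit 3) (.e (nat_lit 57354) (nat_lit 0) (.e (nat_lit 6308) (nat_lit 337) .nil)))))))) (.g (nat_lit 7) .nil .nil)))))) (.nd (nat_lit 3) (.nd (nat_lit 4) (.nd (nat_lit 5) 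
(.lf (nat_lit 27591) (.g (nat_lit 3178) (.e (nat_lit 1199) (nat_lit 88) (.e (nat_lit 65571) (nat_lit 3) (.e (nat_lit 98373) (nat_lit 29) (.e (nat_lit 450588) (nat_lit 10) (.e (nat_lit 573473) (nat_lit 12) (.e (nat_lit 57347) (nat_lit 0) (.e (nat_lit 7236) (nat_lit 382) .nil))))))) (.g (nat_lit 4) .nil .nil))) 
(.lf (nat_lit 27623) (.g (nat_lit 2825) (.e (nat_lit 1199) (nat_lit 88) (.e (nat_lit 65586) (nat_lit 7) (.e (nat_lit 319531) (nat_lit 16) (.e (nat_lit 286753) (nat_lit 10) (.e (nat_lit 344169) (nat_lit 40) (.e (nat_lit 671751) (nat_lit 0) (.e (nat_lit 1182) (nat_lit 87) (.e (nat_lit 57730) (nat_lit 181) .nil)))))))) (.g (nat_lit 4) .nil .nil)))) (.nd (nat_lit 5) 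
(.lf (nat_lit 27607) (.g (nat_lit 2399) (.e (nat_lit 1199) (nat_lit 88) (.e (nat_lit 65586) (nat_lit 7) (.e (nat_lit 319531) (nat_lit 16) (.e (nat_lit 286731) (nat_lit 1) (.e (nat_lit 57688) (nat_lit 156) .nil))))) .nil)) 
(.lf (nat_lit 27639) (.g (nat_lit 2121) (.e (nat_lit 1199) (nat_lit 88) (.e (nat_lit 65586) (nat_lit 7) (.e (nat_lit 319531) (nat_lit 16) (.e (nat_lit 286759) (nat_lit 12) (.e (nat_lit 385094) (nat_lit 49) (.e (nat_lit 778246) (nat_lit 0) (.e (nat_lit 1173) (nat_lit 87) (.e (nat_lit 57730) (nat_lit 181) .nil)))))))) (.g (nat_lit 4) .nil .nil))))) (.nd (nat_lit 4) (.nd (nat_lit 5) 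
(.lf (nat_lit 27599) (.g (nat_lit 1786) (.e (nat_lit 1199) (nat_lit 88) (.e (nat_lit 65583) (nat_lit 7) (.e (nat_lit 319530) (nat_lit 16) (.e (nat_lit 286731) (nat_lit 1) (.e (nat_lit 57688) (nat_lit 156) .nil))))) .nil)) 
(.lf (nat_lit 27631) (.g (nat_lit 2346) (.e (nat_lit 1199) (nat_lit 88) (.e (nat_lit 65586) (nat_lit 7) (.e (nat_lit 319531) (nat_lit 16) (.e (nat_lit 286756) (nat_lit 10) (.e (nat_lit 344168) (nat_lit 40) (.e (nat_lit 671751) (nat_lit 0) (.e (nat_lit 1182) (nat_lit 87) (.e (nat_lit 57731) (nat_lit 181) .nil)))))))) (.g (nat_lit 4) .nil .nil)))) (.nd (nat_lit 5) 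
(.lf (nat_lit 27615) (.g (nat_lit 3252) (.e (nat_lit 1199) (nat_lit 88) (.e (nat_lit 65586) (nat_lit 7) (.e (nat_lit 319531) (nat_lit 16) (.e (nat_lit 286748) (nat_lit 9) (.e (nat_lit 336295) (nat_lit 15) (.e (nat_lit 3632) (nat_lit 227) (.e (nat_lit 778486) (nat_lit 12) (.e (nat_lit 163843) (nat_lit 0) (.e (nat_lit 7232) (nat_lit 382) .nil))))))))) (.g (nat_lit 6) .nil .nil))) 
(.lf (nat_lit 27647) (.g (nat_lit 5107) (.e (nat_lit 1199) (nat_lit 88) (.e (nat_lit 65586) (nat_lit 7) (.e (nat_lit 319531) (nat_lit 16) (.e (nat_lit 286759) (nat_lit 12) (.e (nat_lit 385094) (nat_lit 49) (.e (nat_lit 778318) (nat_lit 3) (.e (nat_lit 57354) (nat_lit 0) (.e (nat_lit 6264) (nat_lit 337) .nil)))))))) (.g (nat_lit 8) .nil .nil)))))))))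

noncomputable def tv381 : DT := (.nd (nat_lit 0) (.nd (nat_lit 1) (.nd (nat_lit 2) (.nd (nat_lit 3) (.nd (nat_lit 4) (.nd (nat_lit 5) 
(.lf (nat_lit 27648) (.g (nat_lit 4497) (.e (nat_lit 1199) (nat_lit 88) (.e (nat_lit 65586) (nat_lit 7) (.e (nat_lit 319531) (nat_lit 16) (.e (nat_lit 286759) (nat_lit 12) (.e (nat_lit 385094) (nat_lit 49) (.e (nat_lit 778318) (nat_lit 3) (.e (nat_lit 57354) (nat_lit 0) (.e (nat_lit 6308) (nat_lit 337) .nil)))))))) (.g (nat_lit 7) .nil .nil))) 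
(.lf (nat_lit 27680) (.g (nat_lit 907) (.e (nat_lit 1199) (nat_lit 88) (.e (nat_lit 65598) (nat_lit 9) (.e (nat_lit 336013) (nat_lit 2) (.e (nat_lit 98048) (nat_lit 2) .nil)))) .nil))) (.nd (nat_lit 5) 
(.lf (nat_lit 27664) (.g (nat_lit 2515) (.e (nat_lit 1199) (nat_lit 88) (.e (nat_lit 65586) (nat_lit 7) (.e (nat_lit 319534) (nat_lit 16) (.e (nat_lit 286756) (nat_lit 10) (.e (nat_lit 344160) (nat_lit 37) .nil))))) .nil)) 
(.lf (nat_lit 27696) (.g (nat_lit 3296) (.e (nat_lit 1199) (nat_lit 88) (.e (nat_lit 65610) (nat_lit 10) (.e (nat_lit 344097) (nat_lit 18) (.e (nat_lit 5905) (nat_lit 320) (.e (nat_lit 1219) (nat_lit 90) (.e (nat_lit 81948) (nat_lit 21) (.e (nat_lit 57870) (nat_lit 264) .nil))))))) (.g (nat_lit 0) .nil .nil))))) (.nd (nat_lit 4) (.nd (nat_lit 5) 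
(.lf (nat_lit 27656) (.g (nat_lit 3102) (.e (nat_lit 1199) (nat_lit 88) (.e (nat_lit 65586) (nat_lit 7) (.e (nat_lit 319533) (nat_lit 16) (.e (nat_lit 286753) (nat_lit 10) (.e (nat_lit 344169) (nat_lit 40) (.e (nat_lit 671751) (nat_lit 0) (.e (nat_lit 1182) (nat_lit 87) (.e (nat_lit 57724) (nat_lit 181) .nil)))))))) (.g (nat_lit 5) .nil .nil))) 
(.lf (nat_lit 27688) (.g (nat_lit 3651) (.e (nat_lit 1199) (nat_lit 88) (.e (nat_lit 65610) (nat_lit 10) (.e (nat_lit 344097) (nat_lit 18) (.e (nat_lit 5905) (nat_lit 320) (.e (nat_lit 1199) (nat_lit 88) (.e (nat_lit 65610) (nat_lit 10) (.e (nat_lit 344097) (nat_lit 18) (.e (nat_lit 5906) (nat_lit 320) .nil)))))))) (.g (nat_lit 7) .nil .nil)))) (.nd (nat_lit 5) 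
(.lf (nat_lit 27672) (.g (nat_lit 2961) (.e (nat_lit 1199) (nat_lit 88) (.e (nat_lit 65586) (nat_lit 7) (.e (nat_lit 319534) (nat_lit 16) (.e (nat_lit 286756) (nat_lit 10) (.e (nat_lit 344169) (nat_lit 40) (.e (nat_lit 671751) (nat_lit 0) (.e (nat_lit 1181) (nat_lit 87) (.e (nat_lit 57724) (nat_lit 181) .nil)))))))) (.g (nat_lit 4) .nil .nil))) 
(.lf (nat_lit 27704) (.g (nat_lit 1905) (.e (nat_lit 1199) (nat_lit 88) (.e (nat_lit 65610) (nat_lit 10) (.e (nat_lit 344097) (nat_lit 18) (.e (nat_lit 5905) (nat_lit 320) (.e (nat_lit 1221) (nat_lit 90) (.e (nat_lit 81948) (nat_lit 21) (.e (nat_lit 57870) (nat_lit 264) .nil))))))) (.g (nat_lit 4) .nil .nil)))))) (.nd (nat_lit 3) (.nd (nat_lit 4) (.nd (nat_lit 5) 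
(.lf (nat_lit 27652) (.g (nat_lit 3037) (.e (nat_lit 1199) (nat_lit 88) (.e (nat_lit 65586) (nat_lit 7) (.e (nat_lit 319531) (nat_lit 16) (.e (nat_lit 286759) (nat_lit 12) (.e (nat_lit 385094) (nat_lit 49) (.e (nat_lit 778486) (nat_lit 12) (.e (nat_lit 163843) (nat_lit 0) (.e (nat_lit 7232) (nat_lit 382) .nil)))))))) (.g (nat_lit 5) .nil .nil))) 
(.lf (nat_lit 27684) (.g (nat_lit 4100) (.e (nat_lit 1199) (nat_lit 88) (.e (nat_lit 65610) (nat_lit 10) (.e (nat_lit 344097) (nat_lit 18) (.e (nat_lit 5905) (nat_lit 320) (.e (nat_lit 1190) (nat_lit 88) (.e (nat_lit 65604) (nat_lit 9) (.e (nat_lit 335997) (nat_lit 1) (.e (nat_lit 57870) (nat_lit 264) .nil)))))))) (.g (nat_lit 7) .nil .nil)))) (.nd (nat_lit 5) 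
(.lf (nat_lit 27668) (.g (nat_lit 4163) (.e (nat_lit 1199) (nat_lit 88) (.e (nat_lit 65586) (nat_lit 7) (.e (nat_lit 319534) (nat_lit 16) (.e (nat_lit 286756) (nat_lit 10) (.e (nat_lit 344168) (nat_lit 40) (.e (nat_lit 671751) (nat_lit 0) (.e (nat_lit 1182) (nat_lit 87) (.e (nat_lit 57730) (nat_lit 181) .nil)))))))) (.g (nat_lit 6) .nil .nil))) 
(.lf (nat_lit 27700) (.g (nat_lit 3038) (.e (nat_lit 1199) (nat_lit 88) (.e (nat_lit 65610) (nat_lit 10) (.e (nat_lit 344097) (nat_lit 18) (.e (nat_lit 5905) (nat_lit 320) (.e (nat_lit 1219) (nat_lit 90) (.e (nat_lit 81950) (nat_lit 21) (.e (nat_lit 57872) (nat_lit 264) .nil))))))) (.g (nat_lit 6) .nil .nil))))) (.nd (nat_lit 4) (.nd (nat_lit 5) 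
(.lf (nat_lit 27660) (.g (nat_lit 3114) (.e (nat_lit 1199) (nat_lit 88) (.e (nat_lit 65586) (nat_lit 7) (.e (nat_lit 319534) (nat_lit 16) (.e (nat_lit 286752) (nat_lit 10) (.e (nat_lit 344169) (nat_lit 40) (.e (nat_lit 671751) (nat_lit 0) (.e (nat_lit 1182) (nat_lit 87) (.e (nat_lit 57724) (nat_lit 181) .nil)))))))) (.g (nat_lit 5) .nil .nil))) 
(.lf (nat_lit 27692) (.g (nat_lit 3586) (.e (nat_lit 1199) (nat_lit 88) (.e (nat_lit 65610) (nat_lit 10) (.e (nat_lit 344097) (nat_lit 18) (.e (nat_lit 5905) (nat_lit 320) (.e (nat_lit 1200) (nat_lit 88) (.e (nat_lit 65604) (nat_lit 9) (.e (nat_lit 335997) (nat_lit 1) (.e (nat_lit 57872) (nat_lit 264) .nil)))))))) (.g (nat_lit 7) .nil .nil)))) (.nd (nat_lit 5) 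
(.lf (nat_lit 27676) (.g (nat_lit 4261) (.e (nat_lit 1199) (nat_lit 88) (.e (nat_lit 65586) (nat_lit 7) (.e (nat_lit 319534) (nat_lit 16) (.e (nat_lit 286762) (nat_lit 14) (.e (nat_lit 401454) (nat_lit 12) (.e (nat_lit 475155) (nat_lit 21) (.e (nat_lit 6305) (nat_lit 337) .nil))))))) (.g (nat_lit 5) .nil .nil))) 
(.lf (nat_lit 27708) (.g (nat_lit 4436) (.e (nat_lit 1199) (nat_lit 88) (.e (nat_lit 65610) (nat_lit 10) (.e (nat_lit 344097) (nat_lit 18) (.e (nat_lit 5905) (nat_lit 320) (.e (nat_lit 1221) (nat_lit 90) (.e (nat_lit 81950) (nat_lit 21) (.e (nat_lit 57872) (nat_lit 264) .nil))))))) (.g (nat_lit 0) .nil .nil))))))) (.nd (nat_lit 2) (.nd (nat_lit 3) (.nd (nat_lit 4) (.nd (nat_lit 5) 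
(.lf (nat_lit 27650) (.g (nat_lit 5115) (.e (nat_lit 1199) (nat_lit 88) (.e (nat_lit 65586) (nat_lit 7) (.e (nat_lit 319531) (nat_lit 16) (.e (nat_lit 286759) (nat_lit 12) (.e (nat_lit 385094) (nat_lit 49) (.e (nat_lit 778318) (nat_lit 3) (.e (nat_lit 57354) (nat_lit 0) (.e (nat_lit 6320) (nat_lit 337) .nil)))))))) (.g (nat_lit 8) .nil .nil))) 
(.lf (nat_lit 27682) (.g (nat_lit 1093) (.e (nat_lit 1199) (nat_lit 88) (.e (nat_lit 65610) (nat_lit 10) (.e (nat_lit 344097) (nat_lit 18) (.e (nat_lit 5905) (nat_lit 320) .nil)))) .nil))) (.nd (nat_lit 5) 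
(.lf (nat_lit 27666) (.g (nat_lit 3033) (.e (nat_lit 1199) (nat_lit 88) (.e (nat_lit 65586) (nat_lit 7) (.e (nat_lit 319534) (nat_lit 16) (.e (nat_lit 286756) (nat_lit 10) (.e (nat_lit 344168) (nat_lit 40) (.e (nat_lit 671751) (nat_lit 0) (.e (nat_lit 1181) (nat_lit 87) (.e (nat_lit 57724) (nat_lit 181) .nil)))))))) (.g (nat_lit 4) .nil .nil))) 
(.lf (nat_lit 27698) (.g (nat_lit 2613) (.e (nat_lit 1199) (nat_lit 88) (.e (nat_lit 65610) (nat_lit 10) (.e (nat_lit 344097) (nat_lit 18) (.e (nat_lit 5905) (nat_lit 320) (.e (nat_lit 1219) (nat_lit 90) (.e (nat_lit 81950) (nat_lit 21) (.e (nat_lit 57870) (nat_lit 264) .nil))))))) (.g (nat_lit 5) .nil .nil))))) (.nd (nat_lit 4) (.nd (nat_lit 5) 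
(.lf (nat_lit 27658) (.g (nat_lit 2132) (.e (nat_lit 1199) (nat_lit 88) (.e (nat_lit 65586) (nat_lit 7) (.e (nat_lit 319534) (nat_lit 16) (.e (nat_lit 286749) (nat_lit 9) .nil)))) .nil)) 
(.lf (nat_lit 27690) (.g (nat_lit 3620) (.e (nat_lit 1199) (nat_lit 88) (.e (nat_lit 65610) (nat_lit 10) (.e (nat_lit 344097) (nat_lit 18) (.e (nat_lit 5905) (nat_lit 320) (.e (nat_lit 1200) (nat_lit 88) (.e (nat_lit 65604) (nat_lit 9) (.e (nat_lit 335997) (nat_lit 1) (.e (nat_lit 57870) (nat_lit 264) .nil)))))))) (.g (nat_lit 7) .nil .nil)))) (.nd (nat_lit 5) 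
(.lf (nat_lit 27674) (.g (nat_lit 4023) (.e (nat_lit 1199) (nat_lit 88) (.e (nat_lit 65586) (nat_lit 7) (.e (nat_lit 319534) (nat_lit 16) (.e (nat_lit 286756) (nat_lit 10) (.e (nat_lit 344169) (nat_lit 40) (.e (nat_lit 671751) (nat_lit 0) (.e (nat_lit 1182) (nat_lit 87) (.e (nat_lit 57730) (nat_lit 181) .nil)))))))) (.g (nat_lit 6) .nil .nil))) 
(.lf (nat_lit 27706) (.g (nat_lit 4207) (.e (nat_lit 1199) (nat_lit 88) (.e (nat_lit 65610) (nat_lit 10) (.e (nat_lit 344097) (nat_lit 18) (.e (nat_lit 5905) (nat_lit 320) (.e (nat_lit 1221) (nat_lit 90) (.e (nat_lit 81950) (nat_lit 21) (.e (nat_lit 57870) (nat_lit 264) .nil))))))) (.g (nat_lit 0) .nil .nil)))))) (.nd (nat_lit 3) (.nd (nat_lit 4) (.nd (nat_lit 5) 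
(.lf (nat_lit 27654) (.g (nat_lit 1760) (.e (nat_lit 1199) (nat_lit 88) (.e (nat_lit 65586) (nat_lit 7) (.e (nat_lit 319531) (nat_lit 16) (.e (nat_lit 286770) (nat_lit 28) .nil)))) .nil)) 
(.lf (nat_lit 27686) (.g (nat_lit 4954) (.e (nat_lit 1199) (nat_lit 88) (.e (nat_lit 65610) (nat_lit 10) (.e (nat_lit 344097) (nat_lit 18) (.e (nat_lit 5905) (nat_lit 320) (.e (nat_lit 1190) (nat_lit 88) (.e (nat_lit 65619) (nat_lit 10) (.e (nat_lit 344097) (nat_lit 18) (.e (nat_lit 5907) (nat_lit 320) .nil)))))))) (.g (nat_lit 8) .nil .nil)))) (.nd (nat_lit 5) 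
(.lf (nat_lit 27670) (.g (nat_lit 2517) (.e (nat_lit 1199) (nat_lit 88) (.e (nat_lit 65586) (nat_lit 7) (.e (nat_lit 319534) (nat_lit 16) (.e (nat_lit 286756) (nat_lit 10) (.e (nat_lit 344169) (nat_lit 40) .nil))))) .nil)) 
(.lf (nat_lit 27702) (.g (nat_lit 4178) (.e (nat_lit 1199) (nat_lit 88) (.e (nat_lit 65610) (nat_lit 10) (.e (nat_lit 344097) (nat_lit 18) (.e (nat_lit 5905) (nat_lit 320) (.e (nat_lit 1220) (nat_lit 90) (.e (nat_lit 81950) (nat_lit 21) (.e (nat_lit 57870) (nat_lit 264) .nil))))))) (.g (nat_lit 0) .nil .nil))))) (.nd (nat_lit 4) (.nd (nat_lit 5) 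
(.lf (nat_lit 27662) (.g (nat_lit 2780) (.e (nat_lit 1199) (nat_lit 88) (.e (nat_lit 65586) (nat_lit 7) (.e (nat_lit 319534) (nat_lit 16) (.e (nat_lit 286753) (nat_lit 10) (.e (nat_lit 344169) (nat_lit 40) .nil))))) .nil)) 
(.lf (nat_lit 27694) (.g (nat_lit 4046) (.e (nat_lit 1199) (nat_lit 88) (.e (nat_lit 65610) (nat_lit 10) (.e (nat_lit 344097) (nat_lit 18) (.e (nat_lit 5905) (nat_lit 320) (.e (nat_lit 1200) (nat_lit 88) (.e (nat_lit 65619) (nat_lit 10) (.e (nat_lit 344097) (nat_lit 18) (.e (nat_lit 5906) (nat_lit 320) .nil)))))))) (.g (nat_lit 7) .nil .nil)))) (.nd (nat_lit 5) 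
(.lf (nat_lit 27678) (.g (nat_lit 1192) (.e (nat_lit 1199) (nat_lit 88) (.e (nat_lit 65586) (nat_lit 7) (.e (nat_lit 319538) (nat_lit 19) (.e (nat_lit 311358) (nat_lit 29) .nil)))) .nil)) 
(.lf (nat_lit 27710) (.g (nat_lit 1035) (.e (nat_lit 1199) (nat_lit 88) (.e (nat_lit 65610) (nat_lit 10) (.e (nat_lit 344097) (nat_lit 18) (.e (nat_lit 5906) (nat_lit 320) .nil)))) .nil))))))) (.nd (nat_lit 1) (.nd (nat_lit 2) (.nd (nat_lit 3) (.nd (nat_lit 4) (.nd (nat_lit 5) 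
(.lf (nat_lit 27649) (.g (nat_lit 4409) (.e (nat_lit 1199) (nat_lit 88) (.e (nat_lit 65586) (nat_lit 7) (.e (nat_lit 319531) (nat_lit 16) (.e (nat_lit 286759) (nat_lit 12) (.e (nat_lit 385094) (nat_lit 49) (.e (nat_lit 778318) (nat_lit 3) (.e (nat_lit 57354) (nat_lit 0) (.e (nat_lit 6319) (nat_lit 337) .nil)))))))) (.g (nat_lit 7) .nil .nil))) 
(.lf (nat_lit 27681) (.g (nat_lit 1131) (.e (nat_lit 1199) (nat_lit 88) (.e (nat_lit 65610) (nat_lit 10) (.e (nat_lit 344090) (nat_lit 18) (.e (nat_lit 7265) (nat_lit 384) .nil)))) .nil))) (.nd (nat_lit 5) 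
(.lf (nat_lit 27665) (.g (nat_lit 3029) (.e (nat_lit 1199) (nat_lit 88) (.e (nat_lit 65586) (nat_lit 7) (.e (nat_lit 319534) (nat_lit 16) (.e (nat_lit 286756) (nat_lit 10) (.e (nat_lit 344160) (nat_lit 37) (.e (nat_lit 647200) (nat_lit 12) (.e (nat_lit 57348) (nat_lit 0) (.e (nat_lit 7236) (nat_lit 382) .nil)))))))) (.g (nat_lit 4) .nil .nil))) 
(.lf (nat_lit 27697) (.g (nat_lit 2928) (.e (nat_lit 1199) (nat_lit 88) (.e (nat_lit 65610) (nat_lit 10) (.e (nat_lit 344097) (nat_lit 18) (.e (nat_lit 5905) (nat_lit 320) (.e (nat_lit 1219) (nat_lit 90) (.e (nat_lit 81948) (nat_lit 21) (.e (nat_lit 57871) (nat_lit 264) .nil))))))) (.g (nat_lit 7) .nil .nil))))) (.nd (nat_lit 4) (.nd (nat_lit 5) 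
(.lf (nat_lit 27657) (.g (nat_lit 2406) (.e (nat_lit 1199) (nat_lit 88) (.e (nat_lit 65586) (nat_lit 7) (.e (nat_lit 319533) (nat_lit 16) (.e (nat_lit 286753) (nat_lit 10) (.e (nat_lit 344169) (nat_lit 40) (.e (nat_lit 671751) (nat_lit 0) (.e (nat_lit 1182) (nat_lit 87) (.e (nat_lit 57730) (nat_lit 181) .nil)))))))) (.g (nat_lit 4) .nil .nil))) 
(.lf (nat_lit 27689) (.g (nat_lit 3915) (.e (nat_lit 1199) (nat_lit 88) (.e (nat_lit 65610) (nat_lit 10) (.e (nat_lit 344097) (nat_lit 18) (.e (nat_lit 5905) (nat_lit 320) (.e (nat_lit 1199) (nat_lit 88) (.e (nat_lit 65610) (nat_lit 10) (.e (nat_lit 344097) (nat_lit 18) (.e (nat_lit 5907) (nat_lit 320) .nil)))))))) (.g (nat_lit 7) .nil .nil)))) (.nd (nat_lit 5) 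
(.lf (nat_lit 27673) (.g (nat_lit 2739) (.e (nat_lit 1199) (nat_lit 88) (.e (nat_lit 65586) (nat_lit 7) (.e (nat_lit 319534) (nat_lit 16) (.e (nat_lit 286756) (nat_lit 10) (.e (nat_lit 344169) (nat_lit 40) (.e (nat_lit 671751) (nat_lit 0) (.e (nat_lit 1182) (nat_lit 87) (.e (nat_lit 57728) (nat_lit 181) .nil)))))))) (.g (nat_lit 4) .nil .nil))) 
(.lf (nat_lit 27705) (.g (nat_lit 2104) (.e (nat_lit 1199) (nat_lit 88) (.e (nat_lit 65610) (nat_lit 10) (.e (nat_lit 344097) (nat_lit 18) (.e (nat_lit 5905) (nat_lit 320) (.e (nat_lit 1221) (nat_lit 90) (.e (nat_lit 81948) (nat_lit 21) (.e (nat_lit 57872) (nat_lit 264) .nil))))))) (.g (nat_lit 4) .nil .nil)))))) (.nd (nat_lit 3) (.nd (nat_lit 4) (.nd (nat_lit 5) 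
(.lf (nat_lit 27653) (.g (nat_lit 3707) (.e (nat_lit 1199) (nat_lit 88) (.e (nat_lit 65586) (nat_lit 7) (.e (nat_lit 319531) (nat_lit 16) (.e (nat_lit 286759) (nat_lit 12) (.e (nat_lit 385106) (nat_lit 50) (.e (nat_lit 786452) (nat_lit 16) (.e (nat_lit 57729) (nat_lit 181) .nil))))))) (.g (nat_lit 5) .nil .nil))) 
(.lf (nat_lit 27685) (.g (nat_lit 4062) (.e (nat_lit 1199) (nat_lit 88) (.e (nat_lit 65610) (nat_lit 10) (.e (nat_lit 344097) (nat_lit 18) (.e (nat_lit 5905) (nat_lit 320) (.e (nat_lit 1190) (nat_lit 88) (.e (nat_lit 65604) (nat_lit 9) (.e (nat_lit 335997) (nat_lit 1) (.e (nat_lit 57872) (nat_lit 264) .nil)))))))) (.g (nat_lit 7) .nil .nil)))) (.nd (nat_lit 5) 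
(.lf (nat_lit 27669) (.g (nat_lit 2952) (.e (nat_lit 1199) (nat_lit 88) (.e (nat_lit 65586) (nat_lit 7) (.e (nat_lit 319534) (nat_lit 16) (.e (nat_lit 286756) (nat_lit 10) (.e (nat_lit 344168) (nat_lit 40) (.e (nat_lit 671751) (nat_lit 0) (.e (nat_lit 1182) (nat_lit 87) (.e (nat_lit 57731) (nat_lit 181) .nil)))))))) (.g (nat_lit 4) .nil .nil))) 
(.lf (nat_lit 27701) (.g (nat_lit 3178) (.e (nat_lit 1199) (nat_lit 88) (.e (nat_lit 65610) (nat_lit 10) (.e (nat_lit 344097) (nat_lit 18) (.e (nat_lit 5905) (nat_lit 320) (.e (nat_lit 1219) (nat_lit 90) (.e (nat_lit 81950) (nat_lit 21) (.e (nat_lit 57873) (nat_lit 264) .nil))))))) (.g (nat_lit 6) .nil .nil))))) (.nd (nat_lit 4) (.nd (nat_lit 5) 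
(.lf (nat_lit 27661) (.g (nat_lit 2155) (.e (nat_lit 1199) (nat_lit 88) (.e (nat_lit 65586) (nat_lit 7) (.e (nat_lit 319534) (nat_lit 16) (.e (nat_lit 286753) (nat_lit 10) .nil)))) .nil)) 
(.lf (nat_lit 27693) (.g (nat_lit 2146) (.e (nat_lit 1199) (nat_lit 88) (.e (nat_lit 65610) (nat_lit 10) (.e (nat_lit 344097) (nat_lit 18) (.e (nat_lit 5905) (nat_lit 320) (.e (nat_lit 1200) (nat_lit 88) (.e (nat_lit 65619) (nat_lit 10) (.e (nat_lit 344090) (nat_lit 18) (.e (nat_lit 5896) (nat_lit 320) .nil)))))))) (.g (nat_lit 4) .nil .nil)))) (.nd (nat_lit 5) 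
(.lf (nat_lit 27677) (.g (nat_lit 4418) (.e (nat_lit 1199) (nat_lit 88) (.e (nat_lit 65586) (nat_lit 7) (.e (nat_lit 319534) (nat_lit 16) (.e (nat_lit 286762) (nat_lit 14) (.e (nat_lit 401454) (nat_lit 12) (.e (nat_lit 475155) (nat_lit 21) (.e (nat_lit 6318) (nat_lit 337) .nil))))))) (.g (nat_lit 5) .nil .nil))) 
(.lf (nat_lit 27709) (.g (nat_lit 4461) (.e (nat_lit 1199) (nat_lit 88) (.e (nat_lit 65610) (nat_lit 10) (.e (nat_lit 344097) (nat_lit 18) (.e (nat_lit 5905) (nat_lit 320) (.e (nat_lit 1221) (nat_lit 90) (.e (nat_lit 81950) (nat_lit 21) (.e (nat_lit 57873) (nat_lit 264) .nil))))))) (.g (nat_lit 7) .nil .nil))))))) (.nd (nat_lit 2) (.nd (nat_lit 3) (.nd (nat_lit 4) (.nd (nat_lit 5) 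
(.lf (nat_lit 27651) (.g (nat_lit 4340) (.e (nat_lit 1199) (nat_lit 88) (.e (nat_lit 65586) (nat_lit 7) (.e (nat_lit 319531) (nat_lit 16) (.e (nat_lit 286759) (nat_lit 12) (.e (nat_lit 385094) (nat_lit 49) (.e (nat_lit 778318) (nat_lit 3) (.e (nat_lit 57354) (nat_lit 0) (.e (nat_lit 6321) (nat_lit 337) .nil)))))))) (.g (nat_lit 7) .nil .nil))) 
(.lf (nat_lit 27683) (.g (nat_lit 1877) (.e (nat_lit 1199) (nat_lit 88) (.e (nat_lit 65610) (nat_lit 10) (.e (nat_lit 344097) (nat_lit 18) (.e (nat_lit 5905) (nat_lit 320) (.e (nat_lit 989) (nat_lit 81) .nil))))) .nil))) (.nd (nat_lit 5) 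
(.lf (nat_lit 27667) (.g (nat_lit 2879) (.e (nat_lit 1199) (nat_lit 88) (.e (nat_lit 65586) (nat_lit 7) (.e (nat_lit 319534) (nat_lit 16) (.e (nat_lit 286756) (nat_lit 10) (.e (nat_lit 344168) (nat_lit 40) (.e (nat_lit 671751) (nat_lit 0) (.e (nat_lit 1182) (nat_lit 87) (.e (nat_lit 57728) (nat_lit 181) .nil)))))))) (.g (nat_lit 4) .nil .nil))) 
(.lf (nat_lit 27699) (.g (nat_lit 2235) (.e (nat_lit 1199) (nat_lit 88) (.e (nat_lit 65610) (nat_lit 10) (.e (nat_lit 344097) (nat_lit 18) (.e (nat_lit 5905) (nat_lit 320) (.e (nat_lit 1219) (nat_lit 90) (.e (nat_lit 81950) (nat_lit 21) (.e (nat_lit 57871) (nat_lit 264) .nil))))))) (.g (nat_lit 5) .nil .nil))))) (.nd (nat_lit 4) (.nd (nat_lit 5) 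
(.lf (nat_lit 27659) (.g (nat_lit 1894) (.e (nat_lit 1199) (nat_lit 88) (.e (nat_lit 65586) (nat_lit 7) (.e (nat_lit 319534) (nat_lit 16) (.e (nat_lit 286752) (nat_lit 10) .nil)))) .nil)) 
(.lf (nat_lit 27691) (.g (nat_lit 3303) (.e (nat_lit 1199) (nat_lit 88) (.e (nat_lit 65610) (nat_lit 10) (.e (nat_lit 344097) (nat_lit 18) (.e (nat_lit 5905) (nat_lit 320) (.e (nat_lit 1200) (nat_lit 88) (.e (nat_lit 65604) (nat_lit 9) (.e (nat_lit 335997) (nat_lit 1) (.e (nat_lit 57871) (nat_lit 264) .nil)))))))) (.g (nat_lit 6) .nil .nil)))) (.nd (nat_lit 5) 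
(.lf (nat_lit 27675) (.g (nat_lit 2812) (.e (nat_lit 1199) (nat_lit 88) (.e (nat_lit 65586) (nat_lit 7) (.e (nat_lit 319534) (nat_lit 16) (.e (nat_lit 286756) (nat_lit 10) (.e (nat_lit 344169) (nat_lit 40) (.e (nat_lit 671751) (nat_lit 0) (.e (nat_lit 1182) (nat_lit 87) (.e (nat_lit 57731) (nat_lit 181) .nil)))))))) (.g (nat_lit 4) .nil .nil))) 
(.lf (nat_lit 27707) (.g (nat_lit 3856) (.e (nat_lit 1199) (nat_lit 88) (.e (nat_lit 65610) (nat_lit 10) (.e (nat_lit 344097) (nat_lit 18) (.e (nat_lit 5905) (nat_lit 320) (.e (nat_lit 1221) (nat_lit 90) (.e (nat_lit 81950) (nat_lit 21) (.e (nat_lit 57871) (nat_lit 264) .nil))))))) (.g (nat_lit 7) .nil .nil)))))) (.nd (nat_lit 3) (.nd (nat_lit 4) (.nd (nat_lit 5) 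
(.lf (nat_lit 27655) (.g (nat_lit 1100) (.e (nat_lit 1199) (nat_lit 88) (.e (nat_lit 65586) (nat_lit 7) (.e (nat_lit 319533) (nat_lit 16) (.e (nat_lit 286753) (nat_lit 10) .nil)))) .nil)) 
(.lf (nat_lit 27687) (.g (nat_lit 3232) (.e (nat_lit 1199) (nat_lit 88) (.e (nat_lit 65610) (nat_lit 10) (.e (nat_lit 344097) (nat_lit 18) (.e (nat_lit 5905) (nat_lit 320) (.e (nat_lit 1199) (nat_lit 88) (.e (nat_lit 65610) (nat_lit 10) (.e (nat_lit 344097) (nat_lit 18) (.e (nat_lit 5905) (nat_lit 320) .nil)))))))) (.g (nat_lit 6) .nil .nil)))) (.nd (nat_lit 5) 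
(.lf (nat_lit 27671) (.g (nat_lit 2742) (.e (nat_lit 1199) (nat_lit 88) (.e (nat_lit 65586) (nat_lit 7) (.e (nat_lit 319534) (nat_lit 16) (.e (nat_lit 286756) (nat_lit 10) (.e (nat_lit 344169) (nat_lit 40) (.e (nat_lit 671748) (nat_lit 0) (.e (nat_lit 1183) (nat_lit 87) (.e (nat_lit 57724) (nat_lit 181) .nil)))))))) (.g (nat_lit 4) .nil .nil))) 
(.lf (nat_lit 27703) (.g (nat_lit 3806) (.e (nat_lit 1199) (nat_lit 88) (.e (nat_lit 65610) (nat_lit 10) (.e (nat_lit 344097) (nat_lit 18) (.e (nat_lit 5905) (nat_lit 320) (.e (nat_lit 1220) (nat_lit 90) (.e (nat_lit 81950) (nat_lit 21) (.e (nat_lit 57871) (nat_lit 264) .nil))))))) (.g (nat_lit 7) .nil .nil))))) (.nd (nat_lit 4) (.nd (nat_lit 5) 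
(.lf (nat_lit 27663) (.g (nat_lit 1881) (.e (nat_lit 1199) (nat_lit 88) (.e (nat_lit 65586) (nat_lit 7) (.e (nat_lit 319534) (nat_lit 16) (.e (nat_lit 286756) (nat_lit 10) .nil)))) .nil)) 
(.lf (nat_lit 27695) (.g (nat_lit 4349) (.e (nat_lit 1199) (nat_lit 88) (.e (nat_lit 65610) (nat_lit 10) (.e (nat_lit 344097) (nat_lit 18) (.e (nat_lit 5905) (nat_lit 320) (.e (nat_lit 1200) (nat_lit 88) (.e (nat_lit 65619) (nat_lit 10) (.e (nat_lit 344097) (nat_lit 18) (.e (nat_lit 5907) (nat_lit 320) .nil)))))))) (.g (nat_lit 8) .nil .nil)))) (.nd (nat_lit 5) 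
(.lf (nat_lit 27679) (.g (nat_lit 907) (.e (nat_lit 1199) (nat_lit 88) (.e (nat_lit 65598) (nat_lit 9) (.e (nat_lit 336013) (nat_lit 2) (.e (nat_lit 98048) (nat_lit 0) .nil)))) .nil)) 
(.lf (nat_lit 27711) (.g (nat_lit 1443) (.e (nat_lit 1199) (nat_lit 88) (.e (nat_lit 65610) (nat_lit 10) (.e (nat_lit 344097) (nat_lit 18) (.e (nat_lit 5906) (nat_lit 320) (.e (nat_lit 1189) (nat_lit 88) .nil))))) .nil))))))))

noncomputable def tv382 : DT := (.nd (nat_lit 0) (.nd (nat_lit 1) (.nd (nat_lit 2) (.nd (nat_lit 3) (.nd (nat_lit 4) (.nd (nat_lit 5) 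
(.lf (nat_lit 27712) (.g (nat_lit 3892) (.e (nat_lit 1199) (nat_lit 88) (.e (nat_lit 65610) (nat_lit 10) (.e (nat_lit 344097) (nat_lit 18) (.e (nat_lit 5906) (nat_lit 320) (.e (nat_lit 1190) (nat_lit 88) (.e (nat_lit 65604) (nat_lit 9) (.e (nat_lit 335997) (nat_lit 1) (.e (nat_lit 57870) (nat_lit 264) .nil)))))))) (.g (nat_lit 0) .nil .nil))) 
(.lf (nat_lit 27744) (.g (nat_lit 1864) (.e (nat_lit 1199) (nat_lit 88) (.e (nat_lit 65610) (nat_lit 10) (.e (nat_lit 344097) (nat_lit 18) (.e (nat_lit 5907) (nat_lit 320) (.e (nat_lit 993) (nat_lit 81) .nil))))) .nil))) (.nd (nat_lit 5) 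
(.lf (nat_lit 27728) (.g (nat_lit 3009) (.e (nat_lit 1199) (nat_lit 88) (.e (nat_lit 65610) (nat_lit 10) (.e (nat_lit 344097) (nat_lit 18) (.e (nat_lit 5906) (nat_lit 320) (.e (nat_lit 1219) (nat_lit 90) (.e (nat_lit 81950) (nat_lit 21) (.e (nat_lit 57873) (nat_lit 264) .nil))))))) (.g (nat_lit 6) .nil .nil))) 
(.lf (nat_lit 27760) (.g (nat_lit 1710) (.e (nat_lit 1199) (nat_lit 88) (.e (nat_lit 65610) (nat_lit 10) (.e (nat_lit 344097) (nat_lit 18) (.e (nat_lit 5907) (nat_lit 320) (.e (nat_lit 1219) (nat_lit 90) (.e (nat_lit 81949) (nat_lit 21) (.e (nat_lit 57872) (nat_lit 264) .nil))))))) (.g (nat_lit 4) .nil .nil))))) (.nd (nat_lit 4) (.nd (nat_lit 5) 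
(.lf (nat_lit 27720) (.g (nat_lit 3842) (.e (nat_lit 1199) (nat_lit 88) (.e (nat_lit 65610) (nat_lit 10) (.e (nat_lit 344097) (nat_lit 18) (.e (nat_lit 5906) (nat_lit 320) (.e (nat_lit 1200) (nat_lit 88) (.e (nat_lit 65604) (nat_lit 9) (.e (nat_lit 335997) (nat_lit 1) (.e (nat_lit 57872) (nat_lit 264) .nil)))))))) (.g (nat_lit 0) .nil .nil))) 
(.lf (nat_lit 27752) (.g (nat_lit 3717) (.e (nat_lit 1199) (nat_lit 88) (.e (nat_lit 65610) (nat_lit 10) (.e (nat_lit 344097) (nat_lit 18) (.e (nat_lit 5907) (nat_lit 320) (.e (nat_lit 1200) (nat_lit 88) (.e (nat_lit 65604) (nat_lit 9) (.e (nat_lit 335997) (nat_lit 1) (.e (nat_lit 57871) (nat_lit 264) .nil)))))))) (.g (nat_lit 8) .nil .nil)))) (.nd (nat_lit 5) 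
(.lf (nat_lit 27736) (.g (nat_lit 3735) (.e (nat_lit 1199) (nat_lit 88) (.e (nat_lit 65610) (nat_lit 10) (.e (nat_lit 344097) (nat_lit 18) (.e (nat_lit 5906) (nat_lit 320) (.e (nat_lit 1221) (nat_lit 90) (.e (nat_lit 81959) (nat_lit 24) (.e (nat_lit 123191) (nat_lit 264) .nil))))))) (.g (nat_lit 0) .nil .nil))) 
(.lf (nat_lit 27768) (.g (nat_lit 4161) (.e (nat_lit 1199) (nat_lit 88) (.e (nat_lit 65610) (nat_lit 10) (.e (nat_lit 344097) (nat_lit 18) (.e (nat_lit 5907) (nat_lit 320) (.e (nat_lit 1221) (nat_lit 90) (.e (nat_lit 81950) (nat_lit 21) (.e (nat_lit 57870) (nat_lit 264) .nil))))))) (.g (nat_lit 0) .nil .nil)))))) (.nd (nat_lit 3) (.nd (nat_lit 4) (.nd (nat_lit 5) 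
(.lf (nat_lit 27716) (.g (nat_lit 4070) (.e (nat_lit 1199) (nat_lit 88) (.e (nat_lit 65610) (nat_lit 10) (.e (nat_lit 344097) (nat_lit 18) (.e (nat_lit 5906) (nat_lit 320) (.e (nat_lit 1199) (nat_lit 88) (.e (nat_lit 65610) (nat_lit 10) (.e (nat_lit 344097) (nat_lit 18) (.e (nat_lit 5906) (nat_lit 320) .nil)))))))) (.g (nat_lit 0) .nil .nil))) 
(.lf (nat_lit 27748) (.g (nat_lit 2334) (.e (nat_lit 1199) (nat_lit 88) (.e (nat_lit 65610) (nat_lit 10) (.e (nat_lit 344097) (nat_lit 18) (.e (nat_lit 5907) (nat_lit 320) (.e (nat_lit 1189) (nat_lit 88) (.e (nat_lit 65619) (nat_lit 10) (.e (nat_lit 344097) (nat_lit 18) (.e (nat_lit 5905) (nat_lit 320) .nil)))))))) (.g (nat_lit 4) .nil .nil)))) (.nd (nat_lit 5) 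
(.lf (nat_lit 27732) (.g (nat_lit 3311) (.e (nat_lit 1199) (nat_lit 88) (.e (nat_lit 65610) (nat_lit 10) (.e (nat_lit 344097) (nat_lit 18) (.e (nat_lit 5906) (nat_lit 320) (.e (nat_lit 1221) (nat_lit 90) (.e (nat_lit 81948) (nat_lit 21) (.e (nat_lit 57872) (nat_lit 264) .nil))))))) (.g (nat_lit 7) .nil .nil))) 
(.lf (nat_lit 27764) (.g (nat_lit 3941) (.e (nat_lit 1199) (nat_lit 88) (.e (nat_lit 65610) (nat_lit 10) (.e (nat_lit 344097) (nat_lit 18) (.e (nat_lit 5907) (nat_lit 320) (.e (nat_lit 1220) (nat_lit 90) (.e (nat_lit 81950) (nat_lit 21) (.e (nat_lit 57870) (nat_lit 264) .nil))))))) (.g (nat_lit 6) .nil .nil))))) (.nd (nat_lit 4) (.nd (nat_lit 5) 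
(.lf (nat_lit 27724) (.g (nat_lit 3240) (.e (nat_lit 1199) (nat_lit 88) (.e (nat_lit 65610) (nat_lit 10) (.e (nat_lit 344097) (nat_lit 18) (.e (nat_lit 5906) (nat_lit 320) (.e (nat_lit 1219) (nat_lit 90) (.e (nat_lit 81948) (nat_lit 21) (.e (nat_lit 57870) (nat_lit 264) .nil))))))) (.g (nat_lit 0) .nil .nil))) 
(.lf (nat_lit 27756) (.g (nat_lit 4590) (.e (nat_lit 1199) (nat_lit 88) (.e (nat_lit 65610) (nat_lit 10) (.e (nat_lit 344097) (nat_lit 18) (.e (nat_lit 5907) (nat_lit 320) (.e (nat_lit 1200) (nat_lit 88) (.e (nat_lit 65619) (nat_lit 10) (.e (nat_lit 344097) (nat_lit 18) (.e (nat_lit 5907) (nat_lit 320) .nil)))))))) (.g (nat_lit 0) .nil .nil)))) (.nd (nat_lit 5) 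
(.lf (nat_lit 27740) (.g (nat_lit 1080) (.e (nat_lit 1199) (nat_lit 88) (.e (nat_lit 65610) (nat_lit 10) (.e (nat_lit 344097) (nat_lit 18) (.e (nat_lit 5907) (nat_lit 320) .nil)))) .nil)) 
(.lf (nat_lit 27772) (.g (nat_lit 1667) (.e (nat_lit 1199) (nat_lit 88) (.e (nat_lit 65610) (nat_lit 10) (.e (nat_lit 344097) (nat_lit 18) (.e (nat_lit 5907) (nat_lit 320) (.e (nat_lit 7936) (nat_lit 90) (.e (nat_lit 81948) (nat_lit 21) (.e (nat_lit 57872) (nat_lit 264) .nil))))))) (.g (nat_lit 4) .nil .nil))))))) (.nd (nat_lit 2) (.nd (nat_lit 3) (.nd (nat_lit 4) (.nd (nat_lit 5) 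
(.lf (nat_lit 27714) (.g (nat_lit 4267) (.e (nat_lit 1199) (nat_lit 88) (.e (nat_lit 65610) (nat_lit 10) (.e (nat_lit 344097) (nat_lit 18) (.e (nat_lit 5906) (nat_lit 320) (.e (nat_lit 1190) (nat_lit 88) (.e (nat_lit 65619) (nat_lit 10) (.e (nat_lit 344097) (nat_lit 18) (.e (nat_lit 5906) (nat_lit 320) .nil)))))))) (.g (nat_lit 0) .nil .nil))) 
(.lf (nat_lit 27746) (.g (nat_lit 2024) (.e (nat_lit 1199) (nat_lit 88) (.e (nat_lit 65610) (nat_lit 10) (.e (nat_lit 344097) (nat_lit 18) (.e (nat_lit 5907) (nat_lit 320) (.e (nat_lit 1189) (nat_lit 88) (.e (nat_lit 65604) (nat_lit 9) (.e (nat_lit 335997) (nat_lit 1) (.e (nat_lit 57871) (nat_lit 264) .nil)))))))) (.g (nat_lit 4) .nil .nil)))) (.nd (nat_lit 5) 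
(.lf (nat_lit 27730) (.g (nat_lit 3112) (.e (nat_lit 1199) (nat_lit 88) (.e (nat_lit 65610) (nat_lit 10) (.e (nat_lit 344097) (nat_lit 18) (.e (nat_lit 5906) (nat_lit 320) (.e (nat_lit 1221) (nat_lit 90) (.e (nat_lit 81948) (nat_lit 21) (.e (nat_lit 57870) (nat_lit 264) .nil))))))) (.g (nat_lit 6) .nil .nil))) 
(.lf (nat_lit 27762) (.g (nat_lit 2959) (.e (nat_lit 1199) (nat_lit 88) (.e (nat_lit 65610) (nat_lit 10) (.e (nat_lit 344097) (nat_lit 18) (.e (nat_lit 5907) (nat_lit 320) (.e (nat_lit 1219) (nat_lit 90) (.e (nat_lit 81950) (nat_lit 21) (.e (nat_lit 57870) (nat_lit 264) .nil))))))) (.g (nat_lit 6) .nil .nil))))) (.nd (nat_lit 4) (.nd (nat_lit 5) 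
(.lf (nat_lit 27722) (.g (nat_lit 4121) (.e (nat_lit 1199) (nat_lit 88) (.e (nat_lit 65610) (nat_lit 10) (.e (nat_lit 344097) (nat_lit 18) (.e (nat_lit 5906) (nat_lit 320) (.e (nat_lit 1200) (nat_lit 88) (.e (nat_lit 65619) (nat_lit 10) (.e (nat_lit 344097) (nat_lit 18) (.e (nat_lit 5906) (nat_lit 320) .nil)))))))) (.g (nat_lit 0) .nil .nil))) 
(.lf (nat_lit 27754) (.g (nat_lit 2546) (.e (nat_lit 1199) (nat_lit 88) (.e (nat_lit 65610) (nat_lit 10) (.e (nat_lit 344097) (nat_lit 18) (.e (nat_lit 5907) (nat_lit 320) (.e (nat_lit 1200) (nat_lit 88) (.e (nat_lit 65619) (nat_lit 10) (.e (nat_lit 344090) (nat_lit 18) (.e (nat_lit 5896) (nat_lit 320) .nil)))))))) (.g (nat_lit 5) .nil .nil)))) (.nd (nat_lit 5) 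
(.lf (nat_lit 27738) (.g (nat_lit 1641) (.e (nat_lit 1199) (nat_lit 88) (.e (nat_lit 65610) (nat_lit 10) (.e (nat_lit 344097) (nat_lit 18) (.e (nat_lit 5906) (nat_lit 320) (.e (nat_lit 7936) (nat_lit 90) (.e (nat_lit 81948) (nat_lit 21) (.e (nat_lit 57872) (nat_lit 264) .nil))))))) (.g (nat_lit 4) .nil .nil))) 
(.lf (nat_lit 27770) (.g (nat_lit 3809) (.e (nat_lit 1199) (nat_lit 88) (.e (nat_lit 65610) (nat_lit 10) (.e (nat_lit 344097) (nat_lit 18) (.e (nat_lit 5907) (nat_lit 320) (.e (nat_lit 1221) (nat_lit 90) (.e (nat_lit 81959) (nat_lit 24) (.e (nat_lit 123191) (nat_lit 264) .nil))))))) (.g (nat_lit 6) .nil .nil)))))) (.nd (nat_lit 3) (.nd (nat_lit 4) (.nd (nat_lit 5) 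
(.lf (nat_lit 27718) (.g (nat_lit 3876) (.e (nat_lit 1199) (nat_lit 88) (.e (nat_lit 65610) (nat_lit 10) (.e (nat_lit 344097) (nat_lit 18) (.e (nat_lit 5906) (nat_lit 320) (.e (nat_lit 1200) (nat_lit 88) (.e (nat_lit 65604) (nat_lit 9) (.e (nat_lit 335997) (nat_lit 1) (.e (nat_lit 57870) (nat_lit 264) .nil)))))))) (.g (nat_lit 0) .nil .nil))) 
(.lf (nat_lit 27750) (.g (nat_lit 1764) (.e (nat_lit 1199) (nat_lit 88) (.e (nat_lit 65610) (nat_lit 10) (.e (nat_lit 344097) (nat_lit 18) (.e (nat_lit 5907) (nat_lit 320) (.e (nat_lit 1199) (nat_lit 88) (.e (nat_lit 65617) (nat_lit 10) (.e (nat_lit 344091) (nat_lit 18) (.e (nat_lit 5896) (nat_lit 320) .nil)))))))) (.g (nat_lit 4) .nil .nil)))) (.nd (nat_lit 5) 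
(.lf (nat_lit 27734) (.g (nat_lit 3666) (.e (nat_lit 1199) (nat_lit 88) (.e (nat_lit 65610) (nat_lit 10) (.e (nat_lit 344097) (nat_lit 18) (.e (nat_lit 5906) (nat_lit 320) (.e (nat_lit 1221) (nat_lit 90) (.e (nat_lit 81950) (nat_lit 21) (.e (nat_lit 57870) (nat_lit 264) .nil))))))) (.g (nat_lit 0) .nil .nil))) 
(.lf (nat_lit 27766) (.g (nat_lit 3520) (.e (nat_lit 1199) (nat_lit 88) (.e (nat_lit 65610) (nat_lit 10) (.e (nat_lit 344097) (nat_lit 18) (.e (nat_lit 5907) (nat_lit 320) (.e (nat_lit 1221) (nat_lit 90) (.e (nat_lit 81948) (nat_lit 21) (.e (nat_lit 57871) (nat_lit 264) .nil))))))) (.g (nat_lit 7) .nil .nil))))) (.nd (nat_lit 4) (.nd (nat_lit 5) 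
(.lf (nat_lit 27726) (.g (nat_lit 2444) (.e (nat_lit 1199) (nat_lit 88) (.e (nat_lit 65610) (nat_lit 10) (.e (nat_lit 344097) (nat_lit 18) (.e (nat_lit 5906) (nat_lit 320) (.e (nat_lit 1219) (nat_lit 90) (.e (nat_lit 81950) (nat_lit 21) (.e (nat_lit 57870) (nat_lit 264) .nil))))))) (.g (nat_lit 5) .nil .nil))) 
(.lf (nat_lit 27758) (.g (nat_lit 3226) (.e (nat_lit 1199) (nat_lit 88) (.e (nat_lit 65610) (nat_lit 10) (.e (nat_lit 344097) (nat_lit 18) (.e (nat_lit 5907) (nat_lit 320) (.e (nat_lit 1219) (nat_lit 90) (.e (nat_lit 81948) (nat_lit 21) (.e (nat_lit 57871) (nat_lit 264) .nil))))))) (.g (nat_lit 7) .nil .nil)))) (.nd (nat_lit 5) 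
(.lf (nat_lit 27742) (.g (nat_lit 1889) (.e (nat_lit 1199) (nat_lit 88) (.e (nat_lit 65610) (nat_lit 10) (.e (nat_lit 344097) (nat_lit 18) (.e (nat_lit 5907) (nat_lit 320) (.e (nat_lit 989) (nat_lit 81) .nil))))) .nil)) 
(.lf (nat_lit 27774) (.g (nat_lit 220) (.e (nat_lit 1199) (nat_lit 88) (.e (nat_lit 65610) (nat_lit 10) (.e (nat_lit 344117) (nat_lit 21) .nil))) .nil))))))) (.nd (nat_lit 1) (.nd (nat_lit 2) (.nd (nat_lit 3) (.nd (nat_lit 4) (.nd (nat_lit 5) 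
(.lf (nat_lit 27713) (.g (nat_lit 3854) (.e (nat_lit 1199) (nat_lit 88) (.e (nat_lit 65610) (nat_lit 10) (.e (nat_lit 344097) (nat_lit 18) (.e (nat_lit 5906) (nat_lit 320) (.e (nat_lit 1190) (nat_lit 88) (.e (nat_lit 65604) (nat_lit 9) (.e (nat_lit 335997) (nat_lit 1) (.e (nat_lit 57872) (nat_lit 264) .nil)))))))) (.g (nat_lit 0) .nil .nil))) 
(.lf (nat_lit 27745) (.g (nat_lit 2344) (.e (nat_lit 1199) (nat_lit 88) (.e (nat_lit 65610) (nat_lit 10) (.e (nat_lit 344097) (nat_lit 18) (.e (nat_lit 5907) (nat_lit 320) (.e (nat_lit 1189) (nat_lit 88) (.e (nat_lit 65604) (nat_lit 9) (.e (nat_lit 335997) (nat_lit 1) (.e (nat_lit 57870) (nat_lit 264) .nil)))))))) (.g (nat_lit 4) .nil .nil)))) (.nd (nat_lit 5) 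
(.lf (nat_lit 27729) (.g (nat_lit 3605) (.e (nat_lit 1199) (nat_lit 88) (.e (nat_lit 65610) (nat_lit 10) (.e (nat_lit 344097) (nat_lit 18) (.e (nat_lit 5906) (nat_lit 320) (.e (nat_lit 1220) (nat_lit 90) (.e (nat_lit 81950) (nat_lit 21) (.e (nat_lit 57870) (nat_lit 264) .nil))))))) (.g (nat_lit 6) .nil .nil))) 
(.lf (nat_lit 27761) (.g (nat_lit 2155) (.e (nat_lit 1199) (nat_lit 88) (.e (nat_lit 65610) (nat_lit 10) (.e (nat_lit 344097) (nat_lit 18) (.e (nat_lit 5907) (nat_lit 320) (.e (nat_lit 1219) (nat_lit 90) (.e (nat_lit 81949) (nat_lit 21) (.e (nat_lit 57873) (nat_lit 264) .nil))))))) (.g (nat_lit 4) .nil .nil))))) (.nd (nat_lit 4) (.nd (nat_lit 5) 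
(.lf (nat_lit 27721) (.g (nat_lit 2300) (.e (nat_lit 1199) (nat_lit 88) (.e (nat_lit 65610) (nat_lit 10) (.e (nat_lit 344097) (nat_lit 18) (.e (nat_lit 5906) (nat_lit 320) (.e (nat_lit 1200) (nat_lit 88) (.e (nat_lit 65619) (nat_lit 10) (.e (nat_lit 344090) (nat_lit 18) (.e (nat_lit 5896) (nat_lit 320) .nil)))))))) (.g (nat_lit 5) .nil .nil))) 
(.lf (nat_lit 27753) (.g (nat_lit 4000) (.e (nat_lit 1199) (nat_lit 88) (.e (nat_lit 65610) (nat_lit 10) (.e (nat_lit 344097) (nat_lit 18) (.e (nat_lit 5907) (nat_lit 320) (.e (nat_lit 1200) (nat_lit 88) (.e (nat_lit 65604) (nat_lit 9) (.e (nat_lit 335997) (nat_lit 1) (.e (nat_lit 57872) (nat_lit 264) .nil)))))))) (.g (nat_lit 0) .nil .nil)))) (.nd (nat_lit 5) 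
(.lf (nat_lit 27737) (.g (nat_lit 1527) (.e (nat_lit 1199) (nat_lit 88) (.e (nat_lit 65610) (nat_lit 10) (.e (nat_lit 344097) (nat_lit 18) (.e (nat_lit 5906) (nat_lit 320) (.e (nat_lit 7936) (nat_lit 90) .nil))))) .nil)) 
(.lf (nat_lit 27769) (.g (nat_lit 3821) (.e (nat_lit 1199) (nat_lit 88) (.e (nat_lit 65610) (nat_lit 10) (.e (nat_lit 344097) (nat_lit 18) (.e (nat_lit 5907) (nat_lit 320) (.e (nat_lit 1221) (nat_lit 90) (.e (nat_lit 81950) (nat_lit 21) (.e (nat_lit 57871) (nat_lit 264) .nil))))))) (.g (nat_lit 7) .nil .nil)))))) (.nd (nat_lit 3) (.nd (nat_lit 4) (.nd (nat_lit 5) 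
(.lf (nat_lit 27717) (.g (nat_lit 4334) (.e (nat_lit 1199) (nat_lit 88) (.e (nat_lit 65610) (nat_lit 10) (.e (nat_lit 344097) (nat_lit 18) (.e (nat_lit 5906) (nat_lit 320) (.e (nat_lit 1199) (nat_lit 88) (.e (nat_lit 65610) (nat_lit 10) (.e (nat_lit 344097) (nat_lit 18) (.e (nat_lit 5907) (nat_lit 320) .nil)))))))) (.g (nat_lit 0) .nil .nil))) 
(.lf (nat_lit 27749) (.g (nat_lit 4598) (.e (nat_lit 1199) (nat_lit 88) (.e (nat_lit 65610) (nat_lit 10) (.e (nat_lit 344097) (nat_lit 18) (.e (nat_lit 5907) (nat_lit 320) (.e (nat_lit 1199) (nat_lit 88) (.e (nat_lit 65610) (nat_lit 10) (.e (nat_lit 344097) (nat_lit 18) (.e (nat_lit 5907) (nat_lit 320) .nil)))))))) (.g (nat_lit 0) .nil .nil)))) (.nd (nat_lit 5) 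
(.lf (nat_lit 27733) (.g (nat_lit 3180) (.e (nat_lit 1199) (nat_lit 88) (.e (nat_lit 65610) (nat_lit 10) (.e (nat_lit 344097) (nat_lit 18) (.e (nat_lit 5906) (nat_lit 320) (.e (nat_lit 1221) (nat_lit 90) (.e (nat_lit 81948) (nat_lit 21) (.e (nat_lit 57873) (nat_lit 264) .nil))))))) (.g (nat_lit 6) .nil .nil))) 
(.lf (nat_lit 27765) (.g (nat_lit 4159) (.e (nat_lit 1199) (nat_lit 88) (.e (nat_lit 65610) (nat_lit 10) (.e (nat_lit 344097) (nat_lit 18) (.e (nat_lit 5907) (nat_lit 320) (.e (nat_lit 1220) (nat_lit 90) (.e (nat_lit 81950) (nat_lit 21) (.e (nat_lit 57872) (nat_lit 264) .nil))))))) (.g (nat_lit 6) .nil .nil))))) (.nd (nat_lit 4) (.nd (nat_lit 5) 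
(.lf (nat_lit 27725) (.g (nat_lit 2866) (.e (nat_lit 1199) (nat_lit 88) (.e (nat_lit 65610) (nat_lit 10) (.e (nat_lit 344097) (nat_lit 18) (.e (nat_lit 5906) (nat_lit 320) (.e (nat_lit 1219) (nat_lit 90) (.e (nat_lit 81948) (nat_lit 21) (.e (nat_lit 57871) (nat_lit 264) .nil))))))) (.g (nat_lit 7) .nil .nil))) 
(.lf (nat_lit 27757) (.g (nat_lit 3595) (.e (nat_lit 1199) (nat_lit 88) (.e (nat_lit 65610) (nat_lit 10) (.e (nat_lit 344097) (nat_lit 18) (.e (nat_lit 5907) (nat_lit 320) (.e (nat_lit 1219) (nat_lit 90) (.e (nat_lit 81948) (nat_lit 21) (.e (nat_lit 57870) (nat_lit 264) .nil))))))) (.g (nat_lit 0) .nil .nil)))) (.nd (nat_lit 5) 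
(.lf (nat_lit 27741) (.g (nat_lit 1889) (.e (nat_lit 1199) (nat_lit 88) (.e (nat_lit 65610) (nat_lit 10) (.e (nat_lit 344097) (nat_lit 18) (.e (nat_lit 5907) (nat_lit 320) (.e (nat_lit 988) (nat_lit 81) .nil))))) .nil)) 
(.lf (nat_lit 27773) (.g (nat_lit 1738) (.e (nat_lit 1199) (nat_lit 88) (.e (nat_lit 65610) (nat_lit 10) (.e (nat_lit 344097) (nat_lit 18) (.e (nat_lit 5907) (nat_lit 320) (.e (nat_lit 7936) (nat_lit 90) (.e (nat_lit 81950) (nat_lit 21) (.e (nat_lit 57870) (nat_lit 264) .nil))))))) (.g (nat_lit 4) .nil .nil))))))) (.nd (nat_lit 2) (.nd (nat_lit 3) (.nd (nat_lit 4) (.nd (nat_lit 5) 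
(.lf (nat_lit 27715) (.g (nat_lit 4587) (.e (nat_lit 1199) (nat_lit 88) (.e (nat_lit 65610) (nat_lit 10) (.e (nat_lit 344097) (nat_lit 18) (.e (nat_lit 5906) (nat_lit 320) (.e (nat_lit 1190) (nat_lit 88) (.e (nat_lit 65619) (nat_lit 10) (.e (nat_lit 344097) (nat_lit 18) (.e (nat_lit 5907) (nat_lit 320) .nil)))))))) (.g (nat_lit 0) .nil .nil))) 
(.lf (nat_lit 27747) (.g (nat_lit 2305) (.e (nat_lit 1199) (nat_lit 88) (.e (nat_lit 65610) (nat_lit 10) (.e (nat_lit 344097) (nat_lit 18) (.e (nat_lit 5907) (nat_lit 320) (.e (nat_lit 1189) (nat_lit 88) (.e (nat_lit 65604) (nat_lit 9) (.e (nat_lit 335997) (nat_lit 1) (.e (nat_lit 57872) (nat_lit 264) .nil)))))))) (.g (nat_lit 4) .nil .nil)))) (.nd (nat_lit 5) 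
(.lf (nat_lit 27731) (.g (nat_lit 2717) (.e (nat_lit 1199) (nat_lit 88) (.e (nat_lit 65610) (nat_lit 10) (.e (nat_lit 344097) (nat_lit 18) (.e (nat_lit 5906) (nat_lit 320) (.e (nat_lit 1221) (nat_lit 90) (.e (nat_lit 81948) (nat_lit 21) (.e (nat_lit 57871) (nat_lit 264) .nil))))))) (.g (nat_lit 5) .nil .nil))) 
(.lf (nat_lit 27763) (.g (nat_lit 2581) (.e (nat_lit 1199) (nat_lit 88) (.e (nat_lit 65610) (nat_lit 10) (.e (nat_lit 344097) (nat_lit 18) (.e (nat_lit 5907) (nat_lit 320) (.e (nat_lit 1219) (nat_lit 90) (.e (nat_lit 81950) (nat_lit 21) (.e (nat_lit 57871) (nat_lit 264) .nil))))))) (.g (nat_lit 5) .nil .nil))))) (.nd (nat_lit 4) (.nd (nat_lit 5) 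
(.lf (nat_lit 27723) (.g (nat_lit 4424) (.e (nat_lit 1199) (nat_lit 88) (.e (nat_lit 65610) (nat_lit 10) (.e (nat_lit 344097) (nat_lit 18) (.e (nat_lit 5906) (nat_lit 320) (.e (nat_lit 1200) (nat_lit 88) (.e (nat_lit 65619) (nat_lit 10) (.e (nat_lit 344097) (nat_lit 18) (.e (nat_lit 5907) (nat_lit 320) .nil)))))))) (.g (nat_lit 0) .nil .nil))) 
(.lf (nat_lit 27755) (.g (nat_lit 4287) (.e (nat_lit 1199) (nat_lit 88) (.e (nat_lit 65610) (nat_lit 10) (.e (nat_lit 344097) (nat_lit 18) (.e (nat_lit 5907) (nat_lit 320) (.e (nat_lit 1200) (nat_lit 88) (.e (nat_lit 65619) (nat_lit 10) (.e (nat_lit 344097) (nat_lit 18) (.e (nat_lit 5906) (nat_lit 320) .nil)))))))) (.g (nat_lit 0) .nil .nil)))) (.nd (nat_lit 5) 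
(.lf (nat_lit 27739) (.g (nat_lit 1712) (.e (nat_lit 1199) (nat_lit 88) (.e (nat_lit 65610) (nat_lit 10) (.e (nat_lit 344097) (nat_lit 18) (.e (nat_lit 5906) (nat_lit 320) (.e (nat_lit 7936) (nat_lit 90) (.e (nat_lit 81950) (nat_lit 21) (.e (nat_lit 57870) (nat_lit 264) .nil))))))) (.g (nat_lit 4) .nil .nil))) 
(.lf (nat_lit 27771) (.g (nat_lit 1649) (.e (nat_lit 1199) (nat_lit 88) (.e (nat_lit 65610) (nat_lit 10) (.e (nat_lit 344097) (nat_lit 18) (.e (nat_lit 5907) (nat_lit 320) (.e (nat_lit 7936) (nat_lit 90) .nil))))) .nil))))) (.nd (nat_lit 3) (.nd (nat_lit 4) (.nd (nat_lit 5) 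
(.lf (nat_lit 27719) (.g (nat_lit 3559) (.e (nat_lit 1199) (nat_lit 88) (.e (nat_lit 65610) (nat_lit 10) (.e (nat_lit 344097) (nat_lit 18) (.e (nat_lit 5906) (nat_lit 320) (.e (nat_lit 1200) (nat_lit 88) (.e (nat_lit 65604) (nat_lit 9) (.e (nat_lit 335997) (nat_lit 1) (.e (nat_lit 57871) (nat_lit 264) .nil)))))))) (.g (nat_lit 8) .nil .nil))) 
(.lf (nat_lit 27751) (.g (nat_lit 4034) (.e (nat_lit 1199) (nat_lit 88) (.e (nat_lit 65610) (nat_lit 10) (.e (nat_lit 344097) (nat_lit 18) (.e (nat_lit 5907) (nat_lit 320) (.e (nat_lit 1200) (nat_lit 88) (.e (nat_lit 65604) (nat_lit 9) (.e (nat_lit 335997) (nat_lit 1) (.e (nat_lit 57870) (nat_lit 264) .nil)))))))) (.g (nat_lit 0) .nil .nil)))) (.nd (nat_lit 5) 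
(.lf (nat_lit 27735) (.g (nat_lit 3321) (.e (nat_lit 1199) (nat_lit 88) (.e (nat_lit 65610) (nat_lit 10) (.e (nat_lit 344097) (nat_lit 18) (.e (nat_lit 5906) (nat_lit 320) (.e (nat_lit 1221) (nat_lit 90) (.e (nat_lit 81950) (nat_lit 21) (.e (nat_lit 57871) (nat_lit 264) .nil))))))) (.g (nat_lit 7) .nil .nil))) 
(.lf (nat_lit 27767) (.g (nat_lit 3983) (.e (nat_lit 1199) (nat_lit 88) (.e (nat_lit 65610) (nat_lit 10) (.e (nat_lit 344097) (nat_lit 18) (.e (nat_lit 5907) (nat_lit 320) (.e (nat_lit 1221) (nat_lit 90) (.e (nat_lit 81948) (nat_lit 21) (.e (nat_lit 57873) (nat_lit 264) .nil))))))) (.g (nat_lit 7) .nil .nil))))) (.nd (nat_lit 4) (.nd (nat_lit 5) 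
(.lf (nat_lit 27727) (.g (nat_lit 2869) (.e (nat_lit 1199) (nat_lit 88) (.e (nat_lit 65610) (nat_lit 10) (.e (nat_lit 344097) (nat_lit 18) (.e (nat_lit 5906) (nat_lit 320) (.e (nat_lit 1219) (nat_lit 90) (.e (nat_lit 81950) (nat_lit 21) (.e (nat_lit 57872) (nat_lit 264) .nil))))))) (.g (nat_lit 6) .nil .nil))) 
(.lf (nat_lit 27759) (.g (nat_lit 2628) (.e (nat_lit 1199) (nat_lit 88) (.e (nat_lit 65610) (nat_lit 10) (.e (nat_lit 344097) (nat_lit 18) (.e (nat_lit 5907) (nat_lit 320) (.e (nat_lit 1219) (nat_lit 90) (.e (nat_lit 81949) (nat_lit 21) (.e (nat_lit 57870) (nat_lit 264) .nil))))))) (.g (nat_lit 5) .nil .nil)))) (.nd (nat_lit 5) 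
(.lf (nat_lit 27743) (.g (nat_lit 2019) (.e (nat_lit 1199) (nat_lit 88) (.e (nat_lit 65610) (nat_lit 10) (.e (nat_lit 344097) (nat_lit 18) (.e (nat_lit 5907) (nat_lit 320) (.e (nat_lit 989) (nat_lit 81) (.e (nat_lit 1615) (nat_lit 113) (.e (nat_lit 376859) (nat_lit 21) (.e (nat_lit 57872) (nat_lit 264) .nil)))))))) (.g (nat_lit 4) .nil .nil))) 
(.lf (nat_lit 27775) (.g (nat_lit 2289) (.e (nat_lit 1199) (nat_lit 88) (.e (nat_lit 65610) (nat_lit 10) (.e (nat_lit 344117) (nat_lit 21) (.e (nat_lit 516097) (nat_lit 0) .nil)))) .nil))))))))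

noncomputable def tv383 : DT := (.nd (nat_lit 0) (.nd (nat_lit 1) (.nd (nat_lit 2) (.nd (nat_lit 3) (.nd (nat_lit 4) (.nd (nat_lit 5) 
(.lf (nat_lit 27776) (.g (nat_lit 1878) (.e (nat_lit 1199) (nat_lit 88) (.e (nat_lit 65610) (nat_lit 10) (.e (nat_lit 344117) (nat_lit 21) (.e (nat_lit 516098) (nat_lit 0) .nil)))) .nil)) 
(.lf (nat_lit 27808) (.g (nat_lit 1697) (.e (nat_lit 1199) (nat_lit 88) (.e (nat_lit 65610) (nat_lit 10) (.e (nat_lit 344117) (nat_lit 21) (.e (nat_lit 516191) (nat_lit 17) .nil)))) .nil))) (.nd (nat_lit 5) 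
(.lf (nat_lit 27792) (.g (nat_lit 3060) (.e (nat_lit 1199) (nat_lit 88) (.e (nat_lit 65610) (nat_lit 10) (.e (nat_lit 344117) (nat_lit 21) (.e (nat_lit 516179) (nat_lit 15) (.e (nat_lit 475220) (nat_lit 44) .nil))))) .nil)) 
(.lf (nat_lit 27824) (.g (nat_lit 2443) (.e (nat_lit 1199) (nat_lit 88) (.e (nat_lit 65610) (nat_lit 10) (.e (nat_lit 344117) (nat_lit 21) (.e (nat_lit 516195) (nat_lit 26) (.e (nat_lit 335995) (nat_lit 1) .nil))))) .nil)))) (.nd (nat_lit 4) (.nd (nat_lit 5) 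
(.lf (nat_lit 27784) (.g (nat_lit 3066) (.e (nat_lit 1199) (nat_lit 88) (.e (nat_lit 65610) (nat_lit 10) (.e (nat_lit 344117) (nat_lit 21) (.e (nat_lit 516116) (nat_lit 1) (.e (nat_lit 164195) (nat_lit 158) .nil))))) .nil)) 
(.lf (nat_lit 27816) (.g (nat_lit 4630) (.e (nat_lit 1199) (nat_lit 88) (.e (nat_lit 65610) (nat_lit 10) (.e (nat_lit 344117) (nat_lit 21) (.e (nat_lit 516195) (nat_lit 26) (.e (nat_lit 335986) (nat_lit 1) (.e (nat_lit 57847) (nat_lit 252) (.e (nat_lit 57365) (nat_lit 1) (.e (nat_lit 57754) (nat_lit 209) .nil)))))))) (.g (nat_lit 8) .nil .nil)))) (.nd (nat_lit 5) 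
(.lf (nat_lit 27800) (.g (nat_lit 2071) (.e (nat_lit 1199) (nat_lit 88) (.e (nat_lit 65610) (nat_lit 10) (.e (nat_lit 344117) (nat_lit 21) (.e (nat_lit 516183) (nat_lit 16) (.e (nat_lit 491566) (nat_lit 12) (.e (nat_lit 385046) (nat_lit 21) (.e (nat_lit 4212) (nat_lit 251) .nil))))))) (.g (nat_lit 4) .nil .nil))) 
(.lf (nat_lit 27832) (.g (nat_lit 3387) (.e (nat_lit 1199) (nat_lit 88) (.e (nat_lit 65610) (nat_lit 10) (.e (nat_lit 344117) (nat_lit 21) (.e (nat_lit 516195) (nat_lit 26) (.e (nat_lit 335995) (nat_lit 1) (.e (nat_lit 57848) (nat_lit 252) (.e (nat_lit 57367) (nat_lit 1) (.e (nat_lit 57754) (nat_lit 209) .nil)))))))) (.g (nat_lit 5) .nil .nil)))))) 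
(.nd (nat_lit 3) (.nd (nat_lit 4) (.nd (nat_lit 5) 
(.lf (nat_lit 27780) (.g (nat_lit 3227) (.e (nat_lit 1199) (nat_lit 88) (.e (nat_lit 65610) (nat_lit 10) (.e (nat_lit 344117) (nat_lit 21) (.e (nat_lit 516115) (nat_lit 1) (.e (nat_lit 164175) (nat_lit 153) .nil))))) .nil)) 
(.lf (nat_lit 27812) (.g (nat_lit 2067) (.e (nat_lit 1199) (nat_lit 88) (.e (nat_lit 65610) (nat_lit 10) (.e (nat_lit 344117) (nat_lit 21) (.e (nat_lit 516191) (nat_lit 17) (.e (nat_lit 6207) (nat_lit 333) .nil))))) .nil))) (.nd (nat_lit 5) 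
(.lf (nat_lit 27796) (.g (nat_lit 3575) (.e (nat_lit 1199) (nat_lit 88) (.e (nat_lit 65610) (nat_lit 10) (.e (nat_lit 344117) (nat_lit 21) (.e (nat_lit 516183) (nat_lit 16) (.e (nat_lit 491566) (nat_lit 12) (.e (nat_lit 385043) (nat_lit 21) (.e (nat_lit 4212) (nat_lit 251) .nil))))))) (.g (nat_lit 5) .nil .nil))) 
(.lf (nat_lit 27828) (.g (nat_lit 3707) (.e (nat_lit 1199) (nat_lit 88) (.e (nat_lit 65610) (nat_lit 10) (.e (nat_lit 344117) (nat_lit 21) (.e (nat_lit 516195) (nat_lit 26) (.e (nat_lit 335995) (nat_lit 1) (.e (nat_lit 57847) (nat_lit 252) (.e (nat_lit 57392) (nat_lit 6) (.e (nat_lit 123109) (nat_lit 209) .nil)))))))) (.g (nat_lit 6) .nil .nil))))) (.nd (nat_lit 4) (.nd (nat_lit 5) 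
(.lf (nat_lit 27788) (.g (nat_lit 3291) (.e (nat_lit 1199) (nat_lit 88) (.e (nat_lit 65610) (nat_lit 10) (.e (nat_lit 344117) (nat_lit 21) (.e (nat_lit 516145) (nat_lit 9) (.e (nat_lit 426448) (nat_lit 20) (.e (nat_lit 122624) (nat_lit 1) (.e (nat_lit 164132) (nat_lit 134) .nil))))))) (.g (nat_lit 4) .nil .nil))) 
(.lf (nat_lit 27820) (.g (nat_lit 2399) (.e (nat_lit 1199) (nat_lit 88) (.e (nat_lit 65610) (nat_lit 10) (.e (nat_lit 344117) (nat_lit 21) (.e (nat_lit 516195) (nat_lit 26) (.e (nat_lit 335988) (nat_lit 1) .nil))))) .nil))) (.nd (nat_lit 5) 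
(.lf (nat_lit 27804) (.g (nat_lit 1962) (.e (nat_lit 1199) (nat_lit 88) (.e (nat_lit 65610) (nat_lit 10) (.e (nat_lit 344117) (nat_lit 21) (.e (nat_lit 516185) (nat_lit 16) .nil)))) .nil)) 
(.lf (nat_lit 27836) (.g (nat_lit 3772) (.e (nat_lit 1199) (nat_lit 88) (.e (nat_lit 65610) (nat_lit 10) (.e (nat_lit 344117) (nat_lit 21) (.e (nat_lit 516195) (nat_lit 26) (.e (nat_lit 335995) (nat_lit 1) (.e (nat_lit 57849) (nat_lit 252) (.e (nat_lit 57367) (nat_lit 1) (.e (nat_lit 57755) (nat_lit 209) .nil)))))))) (.g (nat_lit 5) .nil .nil))))))) 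
(.nd (nat_lit 2) (.nd (nat_lit 3) (.nd (nat_lit 4) (.nd (nat_lit 5) 
(.lf (nat_lit 27778) (.g (nat_lit 1783) (.e (nat_lit 1199) (nat_lit 88) (.e (nat_lit 65610) (nat_lit 10) (.e (nat_lit 344117) (nat_lit 21) (.e (nat_lit 516106) (nat_lit 0) .nil)))) .nil)) 
(.lf (nat_lit 27810) (.g (nat_lit 4803) (.e (nat_lit 1199) (nat_lit 88) (.e (nat_lit 65610) (nat_lit 10) (.e (nat_lit 344117) (nat_lit 21) (.e (nat_lit 516191) (nat_lit 17) (.e (nat_lit 6112) (nat_lit 332) (.e (nat_lit 1374) (nat_lit 104) (.e (nat_lit 303115) (nat_lit 1) (.e (nat_lit 164196) (nat_lit 158) .nil)))))))) (.g (nat_lit 8) .nil .nil)))) (.nd (nat_lit 5) 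
(.lf (nat_lit 27794) (.g (nat_lit 3883) (.e (nat_lit 1199) (nat_lit 88) (.e (nat_lit 65610) (nat_lit 10) (.e (nat_lit 344117) (nat_lit 21) (.e (nat_lit 516183) (nat_lit 16) (.e (nat_lit 491566) (nat_lit 12) (.e (nat_lit 385043) (nat_lit 21) (.e (nat_lit 4202) (nat_lit 251) .nil))))))) (.g (nat_lit 5) .nil .nil))) 
(.lf (nat_lit 27826) (.g (nat_lit 3640) (.e (nat_lit 1199) (nat_lit 88) (.e (nat_lit 65610) (nat_lit 10) (.e (nat_lit 344117) (nat_lit 21) (.e (nat_lit 516195) (nat_lit 26) (.e (nat_lit 335995) (nat_lit 1) (.e (nat_lit 57847) (nat_lit 252) (.e (nat_lit 57367) (nat_lit 1) (.e (nat_lit 57755) (nat_lit 209) .nil)))))))) (.g (nat_lit 6) .nil .nil))))) (.nd (nat_lit 4) (.nd (nat_lit 5) 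
(.lf (nat_lit 27786) (.g (nat_lit 3021) (.e (nat_lit 1199) (nat_lit 88) (.e (nat_lit 65610) (nat_lit 10) (.e (nat_lit 344117) (nat_lit 21) (.e (nat_lit 516134) (nat_lit 5) (.e (nat_lit 253975) (nat_lit 9) (.e (nat_lit 1281) (nat_lit 94) (.e (nat_lit 114711) (nat_lit 21) (.e (nat_lit 57870) (nat_lit 264) .nil)))))))) (.g (nat_lit 4) .nil .nil))) 
(.lf (nat_lit 27818) (.g (nat_lit 3937) (.e (nat_lit 1199) (nat_lit 88) (.e (nat_lit 65610) (nat_lit 10) (.e (nat_lit 344117) (nat_lit 21) (.e (nat_lit 516195) (nat_lit 26) (.e (nat_lit 335986) (nat_lit 1) (.e (nat_lit 57847) (nat_lit 252) (.e (nat_lit 57367) (nat_lit 1) (.e (nat_lit 57755) (nat_lit 209) .nil)))))))) (.g (nat_lit 6) .nil .nil)))) (.nd (nat_lit 5) 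
(.lf (nat_lit 27802) (.g (nat_lit 4035) (.e (nat_lit 1199) (nat_lit 88) (.e (nat_lit 65610) (nat_lit 10) (.e (nat_lit 344117) (nat_lit 21) (.e (nat_lit 516183) (nat_lit 16) (.e (nat_lit 491566) (nat_lit 12) (.e (nat_lit 385051) (nat_lit 21) (.e (nat_lit 4216) (nat_lit 251) .nil))))))) (.g (nat_lit 5) .nil .nil))) 
(.lf (nat_lit 27834) (.g (nat_lit 3307) (.e (nat_lit 1199) (nat_lit 88) (.e (nat_lit 65610) (nat_lit 10) (.e (nat_lit 344117) (nat_lit 21) (.e (nat_lit 516195) (nat_lit 26) (.e (nat_lit 335995) (nat_lit 1) (.e (nat_lit 57848) (nat_lit 252) (.e (nat_lit 57368) (nat_lit 1) (.e (nat_lit 57754) (nat_lit 209) .nil)))))))) (.g (nat_lit 5) .nil .nil)))))) 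
(.nd (nat_lit 3) (.nd (nat_lit 4) (.nd (nat_lit 5) 
(.lf (nat_lit 27782) (.g (nat_lit 3265) (.e (nat_lit 1199) (nat_lit 88) (.e (nat_lit 65610) (nat_lit 10) (.e (nat_lit 344117) (nat_lit 21) (.e (nat_lit 516116) (nat_lit 1) (.e (nat_lit 164143) (nat_lit 146) .nil))))) .nil)) 
(.lf (nat_lit 27814) (.g (nat_lit 1763) (.e (nat_lit 1199) (nat_lit 88) (.e (nat_lit 65610) (nat_lit 10) (.e (nat_lit 344117) (nat_lit 21) (.e (nat_lit 516195) (nat_lit 26) .nil)))) .nil))) (.nd (nat_lit 5) 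
(.lf (nat_lit 27798) (.g (nat_lit 4159) (.e (nat_lit 1199) (nat_lit 88) (.e (nat_lit 65610) (nat_lit 10) (.e (nat_lit 344117) (nat_lit 21) (.e (nat_lit 516183) (nat_lit 16) (.e (nat_lit 491566) (nat_lit 12) (.e (nat_lit 385044) (nat_lit 21) (.e (nat_lit 4212) (nat_lit 251) .nil))))))) (.g (nat_lit 5) .nil .nil))) 
(.lf (nat_lit 27830) (.g (nat_lit 2992) (.e (nat_lit 1199) (nat_lit 88) (.e (nat_lit 65610) (nat_lit 10) (.e (nat_lit 344117) (nat_lit 21) (.e (nat_lit 516195) (nat_lit 26) (.e (nat_lit 335995) (nat_lit 1) (.e (nat_lit 57848) (nat_lit 252) (.e (nat_lit 57363) (nat_lit 1) (.e (nat_lit 57755) (nat_lit 209) .nil)))))))) (.g (nat_lit 4) .nil .nil))))) (.nd (nat_lit 4) (.nd (nat_lit 5) 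
(.lf (nat_lit 27790) (.g (nat_lit 1289) (.e (nat_lit 1199) (nat_lit 88) (.e (nat_lit 65610) (nat_lit 10) (.e (nat_lit 344117) (nat_lit 21) (.e (nat_lit 516151) (nat_lit 9) .nil)))) .nil)) 
(.lf (nat_lit 27822) (.g (nat_lit 2657) (.e (nat_lit 1199) (nat_lit 88) (.e (nat_lit 65610) (nat_lit 10) (.e (nat_lit 344117) (nat_lit 21) (.e (nat_lit 516195) (nat_lit 26) (.e (nat_lit 335988) (nat_lit 1) (.e (nat_lit 57854) (nat_lit 252) (.e (nat_lit 57363) (nat_lit 1) (.e (nat_lit 57755) (nat_lit 209) .nil)))))))) (.g (nat_lit 4) .nil .nil)))) (.nd (nat_lit 5) 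
(.lf (nat_lit 27806) (.g (nat_lit 2952) (.e (nat_lit 1199) (nat_lit 88) (.e (nat_lit 65610) (nat_lit 10) (.e (nat_lit 344117) (nat_lit 21) (.e (nat_lit 516185) (nat_lit 16) (.e (nat_lit 491560) (nat_lit 10) (.e (nat_lit 344089) (nat_lit 18) (.e (nat_lit 3925) (nat_lit 239) .nil))))))) (.g (nat_lit 4) .nil .nil))) 
(.lf (nat_lit 27838) (.g (nat_lit 2454) (.e (nat_lit 1199) (nat_lit 88) (.e (nat_lit 65610) (nat_lit 10) (.e (nat_lit 344117) (nat_lit 21) (.e (nat_lit 516195) (nat_lit 26) (.e (nat_lit 335996) (nat_lit 1) .nil))))) .nil))))))) (.nd (nat_lit 1) (.nd (nat_lit 2) (.nd (nat_lit 3) (.nd (nat_lit 4) (.nd (nat_lit 5) 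
(.lf (nat_lit 27777) (.g (nat_lit 2185) (.e (nat_lit 1199) (nat_lit 88) (.e (nat_lit 65610) (nat_lit 10) (.e (nat_lit 344117) (nat_lit 21) (.e (nat_lit 516099) (nat_lit 0) (.e (nat_lit 7936) (nat_lit 220) (.e (nat_lit 720954) (nat_lit 25) (.e (nat_lit 114710) (nat_lit 21) (.e (nat_lit 57872) (nat_lit 264) .nil)))))))) (.g (nat_lit 4) .nil .nil))) 
(.lf (nat_lit 27809) (.g (nat_lit 3724) (.e (nat_lit 1199) (nat_lit 88) (.e (nat_lit 65610) (nat_lit 10) (.e (nat_lit 344117) (nat_lit 21) (.e (nat_lit 516191) (nat_lit 17) (.e (nat_lit 6112) (nat_lit 332) (.e (nat_lit 1374) (nat_lit 104) (.e (nat_lit 303115) (nat_lit 1) (.e (nat_lit 164195) (nat_lit 158) .nil)))))))) (.g (nat_lit 6) .nil .nil)))) (.nd (nat_lit 5) 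
(.lf (nat_lit 27793) (.g (nat_lit 2333) (.e (nat_lit 1199) (nat_lit 88) (.e (nat_lit 65610) (nat_lit 10) (.e (nat_lit 344117) (nat_lit 21) (.e (nat_lit 516183) (nat_lit 16) (.e (nat_lit 491566) (nat_lit 12) (.e (nat_lit 385043) (nat_lit 21) (.e (nat_lit 4200) (nat_lit 251) .nil))))))) (.g (nat_lit 4) .nil .nil))) 
(.lf (nat_lit 27825) (.g (nat_lit 4150) (.e (nat_lit 1199) (nat_lit 88) (.e (nat_lit 65610) (nat_lit 10) (.e (nat_lit 344117) (nat_lit 21) (.e (nat_lit 516195) (nat_lit 26) (.e (nat_lit 335995) (nat_lit 1) (.e (nat_lit 57847) (nat_lit 252) (.e (nat_lit 57363) (nat_lit 1) (.e (nat_lit 57755) (nat_lit 209) .nil)))))))) (.g (nat_lit 8) .nil .nil))))) (.nd (nat_lit 4) (.nd (nat_lit 5) 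
(.lf (nat_lit 27785) (.g (nat_lit 2375) (.e (nat_lit 1199) (nat_lit 88) (.e (nat_lit 65610) (nat_lit 10) (.e (nat_lit 344117) (nat_lit 21) (.e (nat_lit 516134) (nat_lit 5) .nil)))) .nil)) 
(.lf (nat_lit 27817) (.g (nat_lit 3568) (.e (nat_lit 1199) (nat_lit 88) (.e (nat_lit 65610) (nat_lit 10) (.e (nat_lit 344117) (nat_lit 21) (.e (nat_lit 516195) (nat_lit 26) (.e (nat_lit 335986) (nat_lit 1) (.e (nat_lit 57847) (nat_lit 252) (.e (nat_lit 57367) (nat_lit 1) (.e (nat_lit 57754) (nat_lit 209) .nil)))))))) (.g (nat_lit 6) .nil .nil)))) (.nd (nat_lit 5) 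
(.lf (nat_lit 27801) (.g (nat_lit 4128) (.e (nat_lit 1199) (nat_lit 88) (.e (nat_lit 65610) (nat_lit 10) (.e (nat_lit 344117) (nat_lit 21) (.e (nat_lit 516183) (nat_lit 16) (.e (nat_lit 491566) (nat_lit 12) (.e (nat_lit 385051) (nat_lit 21) (.e (nat_lit 4168) (nat_lit 251) .nil))))))) (.g (nat_lit 5) .nil .nil))) 
(.lf (nat_lit 27833) (.g (nat_lit 3756) (.e (nat_lit 1199) (nat_lit 88) (.e (nat_lit 65610) (nat_lit 10) (.e (nat_lit 344117) (nat_lit 21) (.e (nat_lit 516195) (nat_lit 26) (.e (nat_lit 335995) (nat_lit 1) (.e (nat_lit 57848) (nat_lit 252) (.e (nat_lit 57367) (nat_lit 1) (.e (nat_lit 57755) (nat_lit 209) .nil)))))))) (.g (nat_lit 6) .nil .nil)))))) 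
(.nd (nat_lit 3) (.nd (nat_lit 4) (.nd (nat_lit 5) 
(.lf (nat_lit 27781) (.g (nat_lit 2047) (.e (nat_lit 1199) (nat_lit 88) (.e (nat_lit 65610) (nat_lit 10) (.e (nat_lit 344117) (nat_lit 21) (.e (nat_lit 516116) (nat_lit 1) .nil)))) .nil)) 
(.lf (nat_lit 27813) (.g (nat_lit 2356) (.e (nat_lit 1199) (nat_lit 88) (.e (nat_lit 65610) (nat_lit 10) (.e (nat_lit 344117) (nat_lit 21) (.e (nat_lit 516191) (nat_lit 17) (.e (nat_lit 7936) (nat_lit 361) .nil))))) .nil))) (.nd (nat_lit 5) 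
(.lf (nat_lit 27797) (.g (nat_lit 2407) (.e (nat_lit 1199) (nat_lit 88) (.e (nat_lit 65610) (nat_lit 10) (.e (nat_lit 344117) (nat_lit 21) (.e (nat_lit 516183) (nat_lit 16) (.e (nat_lit 491566) (nat_lit 12) (.e (nat_lit 385043) (nat_lit 21) (.e (nat_lit 4213) (nat_lit 251) .nil))))))) (.g (nat_lit 4) .nil .nil))) 
(.lf (nat_lit 27829) (.g (nat_lit 2965) (.e (nat_lit 1199) (nat_lit 88) (.e (nat_lit 65610) (nat_lit 10) (.e (nat_lit 344117) (nat_lit 21) (.e (nat_lit 516195) (nat_lit 26) (.e (nat_lit 335995) (nat_lit 1) (.e (nat_lit 57848) (nat_lit 252) (.e (nat_lit 57363) (nat_lit 1) (.e (nat_lit 57754) (nat_lit 209) .nil)))))))) (.g (nat_lit 4) .nil .nil))))) (.nd (nat_lit 4) (.nd (nat_lit 5) 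
(.lf (nat_lit 27789) (.g (nat_lit 3088) (.e (nat_lit 1199) (nat_lit 88) (.e (nat_lit 65610) (nat_lit 10) (.e (nat_lit 344117) (nat_lit 21) (.e (nat_lit 516145) (nat_lit 9) (.e (nat_lit 426448) (nat_lit 20) (.e (nat_lit 122624) (nat_lit 1) (.e (nat_lit 164133) (nat_lit 134) .nil))))))) (.g (nat_lit 4) .nil .nil))) 
(.lf (nat_lit 27821) (.g (nat_lit 2634) (.e (nat_lit 1199) (nat_lit 88) (.e (nat_lit 65610) (nat_lit 10) (.e (nat_lit 344117) (nat_lit 21) (.e (nat_lit 516195) (nat_lit 26) (.e (nat_lit 335988) (nat_lit 1) (.e (nat_lit 57854) (nat_lit 252) (.e (nat_lit 57363) (nat_lit 1) (.e (nat_lit 57754) (nat_lit 209) .nil)))))))) (.g (nat_lit 4) .nil .nil)))) (.nd (nat_lit 5) 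
(.lf (nat_lit 27805) (.g (nat_lit 2470) (.e (nat_lit 1199) (nat_lit 88) (.e (nat_lit 65610) (nat_lit 10) (.e (nat_lit 344117) (nat_lit 21) (.e (nat_lit 516185) (nat_lit 16) (.e (nat_lit 491560) (nat_lit 10) .nil))))) .nil)) 
(.lf (nat_lit 27837) (.g (nat_lit 2866) (.e (nat_lit 1199) (nat_lit 88) (.e (nat_lit 65610) (nat_lit 10) (.e (nat_lit 344117) (nat_lit 21) (.e (nat_lit 516195) (nat_lit 26) (.e (nat_lit 335995) (nat_lit 1) (.e (nat_lit 57849) (nat_lit 252) (.e (nat_lit 57368) (nat_lit 1) (.e (nat_lit 57754) (nat_lit 209) .nil)))))))) (.g (nat_lit 4) .nil .nil))))))) 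
(.nd (nat_lit 2) (.nd (nat_lit 3) (.nd (nat_lit 4) (.nd (nat_lit 5) 
(.lf (nat_lit 27779) (.g (nat_lit 1755) (.e (nat_lit 1199) (nat_lit 88) (.e (nat_lit 65610) (nat_lit 10) (.e (nat_lit 344117) (nat_lit 21) (.e (nat_lit 516115) (nat_lit 1) .nil)))) .nil)) 
(.lf (nat_lit 27811) (.g (nat_lit 2363) (.e (nat_lit 1199) (nat_lit 88) (.e (nat_lit 65610) (nat_lit 10) (.e (nat_lit 344117) (nat_lit 21) (.e (nat_lit 516191) (nat_lit 17) (.e (nat_lit 6112) (nat_lit 332) (.e (nat_lit 7936) (nat_lit 104) (.e (nat_lit 303115) (nat_lit 1) (.e (nat_lit 164196) (nat_lit 158) .nil)))))))) (.g (nat_lit 4) .nil .nil)))) (.nd (nat_lit 5) 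
(.lf (nat_lit 27795) (.g (nat_lit 3794) (.e (nat_lit 1199) (nat_lit 88) (.e (nat_lit 65610) (nat_lit 10) (.e (nat_lit 344117) (nat_lit 21) (.e (nat_lit 516183) (nat_lit 16) (.e (nat_lit 491566) (nat_lit 12) (.e (nat_lit 385043) (nat_lit 21) (.e (nat_lit 4204) (nat_lit 251) .nil))))))) (.g (nat_lit 5) .nil .nil))) 
(.lf (nat_lit 27827) (.g (nat_lit 4011) (.e (nat_lit 1199) (nat_lit 88) (.e (nat_lit 65610) (nat_lit 10) (.e (nat_lit 344117) (nat_lit 21) (.e (nat_lit 516195) (nat_lit 26) (.e (nat_lit 335995) (nat_lit 1) (.e (nat_lit 57847) (nat_lit 252) (.e (nat_lit 57368) (nat_lit 1) (.e (nat_lit 57754) (nat_lit 209) .nil)))))))) (.g (nat_lit 7) .nil .nil))))) (.nd (nat_lit 4) (.nd (nat_lit 5) 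
(.lf (nat_lit 27787) (.g (nat_lit 2609) (.e (nat_lit 1199) (nat_lit 88) (.e (nat_lit 65610) (nat_lit 10) (.e (nat_lit 344117) (nat_lit 21) (.e (nat_lit 516135) (nat_lit 5) (.e (nat_lit 253975) (nat_lit 9) (.e (nat_lit 1281) (nat_lit 94) (.e (nat_lit 114711) (nat_lit 21) (.e (nat_lit 57870) (nat_lit 264) .nil)))))))) (.g (nat_lit 4) .nil .nil))) 
(.lf (nat_lit 27819) (.g (nat_lit 3779) (.e (nat_lit 1199) (nat_lit 88) (.e (nat_lit 65610) (nat_lit 10) (.e (nat_lit 344117) (nat_lit 21) (.e (nat_lit 516195) (nat_lit 26) (.e (nat_lit 335986) (nat_lit 1) (.e (nat_lit 57847) (nat_lit 252) (.e (nat_lit 57392) (nat_lit 6) (.e (nat_lit 123109) (nat_lit 209) .nil)))))))) (.g (nat_lit 6) .nil .nil)))) (.nd (nat_lit 5) 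
(.lf (nat_lit 27803) (.g (nat_lit 1737) (.e (nat_lit 1199) (nat_lit 88) (.e (nat_lit 65610) (nat_lit 10) (.e (nat_lit 344117) (nat_lit 21) (.e (nat_lit 516184) (nat_lit 16) (.e (nat_lit 491566) (nat_lit 12) .nil))))) .nil)) 
(.lf (nat_lit 27835) (.g (nat_lit 3786) (.e (nat_lit 1199) (nat_lit 88) (.e (nat_lit 65610) (nat_lit 10) (.e (nat_lit 344117) (nat_lit 21) (.e (nat_lit 516195) (nat_lit 26) (.e (nat_lit 335995) (nat_lit 1) (.e (nat_lit 57849) (nat_lit 252) (.e (nat_lit 57365) (nat_lit 1) (.e (nat_lit 57754) (nat_lit 209) .nil)))))))) (.g (nat_lit 5) .nil .nil)))))) 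
(.nd (nat_lit 3) (.nd (nat_lit 4) (.nd (nat_lit 5) 
(.lf (nat_lit 27783) (.g (nat_lit 3265) (.e (nat_lit 1199) (nat_lit 88) (.e (nat_lit 65610) (nat_lit 10) (.e (nat_lit 344117) (nat_lit 21) (.e (nat_lit 516116) (nat_lit 1) (.e (nat_lit 164146) (nat_lit 146) .nil))))) .nil)) 
(.lf (nat_lit 27815) (.g (nat_lit 4322) (.e (nat_lit 1199) (nat_lit 88) (.e (nat_lit 65610) (nat_lit 10) (.e (nat_lit 344117) (nat_lit 21) (.e (nat_lit 516195) (nat_lit 26) (.e (nat_lit 335986) (nat_lit 1) (.e (nat_lit 57847) (nat_lit 252) (.e (nat_lit 57363) (nat_lit 1) (.e (nat_lit 57755) (nat_lit 209) .nil)))))))) (.g (nat_lit 8) .nil .nil)))) (.nd (nat_lit 5) 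
(.lf (nat_lit 27799) (.g (nat_lit 3996) (.e (nat_lit 1199) (nat_lit 88) (.e (nat_lit 65610) (nat_lit 10) (.e (nat_lit 344117) (nat_lit 21) (.e (nat_lit 516183) (nat_lit 16) (.e (nat_lit 491566) (nat_lit 12) (.e (nat_lit 385045) (nat_lit 21) (.e (nat_lit 4168) (nat_lit 251) .nil))))))) (.g (nat_lit 5) .nil .nil))) 
(.lf (nat_lit 27831) (.g (nat_lit 3267) (.e (nat_lit 1199) (nat_lit 88) (.e (nat_lit 65610) (nat_lit 10) (.e (nat_lit 344117) (nat_lit 21) (.e (nat_lit 516195) (nat_lit 26) (.e (nat_lit 335995) (nat_lit 1) (.e (nat_lit 57848) (nat_lit 252) (.e (nat_lit 57365) (nat_lit 1) (.e (nat_lit 57754) (nat_lit 209) .nil)))))))) (.g (nat_lit 5) .nil .nil))))) (.nd (nat_lit 4) (.nd (nat_lit 5) 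
(.lf (nat_lit 27791) (.g (nat_lit 1921) (.e (nat_lit 1199) (nat_lit 88) (.e (nat_lit 65610) (nat_lit 10) (.e (nat_lit 344117) (nat_lit 21) (.e (nat_lit 516179) (nat_lit 15) .nil)))) .nil)) 
(.lf (nat_lit 27823) (.g (nat_lit 3117) (.e (nat_lit 1199) (nat_lit 88) (.e (nat_lit 65610) (nat_lit 10) (.e (nat_lit 344117) (nat_lit 21) (.e (nat_lit 516195) (nat_lit 26) (.e (nat_lit 335988) (nat_lit 1) (.e (nat_lit 57854) (nat_lit 252) (.e (nat_lit 57364) (nat_lit 1) (.e (nat_lit 57754) (nat_lit 209) .nil)))))))) (.g (nat_lit 5) .nil .nil)))) (.nd (nat_lit 5) 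
(.lf (nat_lit 27807) (.g (nat_lit 2554) (.e (nat_lit 1199) (nat_lit 88) (.e (nat_lit 65610) (nat_lit 10) (.e (nat_lit 344117) (nat_lit 21) (.e (nat_lit 516190) (nat_lit 17) .nil)))) .nil)) 
(.lf (nat_lit 27839) (.g (nat_lit 2885) (.e (nat_lit 1199) (nat_lit 88) (.e (nat_lit 65610) (nat_lit 10) (.e (nat_lit 344117) (nat_lit 21) (.e (nat_lit 516195) (nat_lit 26) (.e (nat_lit 335996) (nat_lit 1) (.e (nat_lit 57851) (nat_lit 252) (.e (nat_lit 57354) (nat_lit 0) (.e (nat_lit 1040) (nat_lit 81) (.e (nat_lit 6791) (nat_lit 365) .nil))))))))) (.g (nat_lit 4) .nil .nil)))))))))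

noncomputable def tv384 : DT := (.nd (nat_lit 0) (.nd (nat_lit 1) (.nd (nat_lit 2) (.nd (nat_lit 3) (.nd (nat_lit 4) (.nd (nat_lit 5) 
(.lf (nat_lit 27840) (.g (nat_lit 3784) (.e (nat_lit 1199) (nat_lit 88) (.e (nat_lit 65610) (nat_lit 10) (.e (nat_lit 344117) (nat_lit 21) (.e (nat_lit 516195) (nat_lit 26) (.e (nat_lit 335996) (nat_lit 1) (.e (nat_lit 57851) (nat_lit 252) (.e (nat_lit 57364) (nat_lit 1) (.e (nat_lit 57754) (nat_lit 209) .nil)))))))) (.g (nat_lit 5) .nil .nil))) 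
(.lf (nat_lit 27872) (.g (nat_lit 2996) (.e (nat_lit 1199) (nat_lit 88) (.e (nat_lit 65610) (nat_lit 10) (.e (nat_lit 344138) (nat_lit 29) (.e (nat_lit 581653) (nat_lit 6) (.e (nat_lit 188446) (nat_lit 21) (.e (nat_lit 164196) (nat_lit 158) .nil)))))) (.g (nat_lit 0) .nil .nil)))) (.nd (nat_lit 5) 
(.lf (nat_lit 27856) (.g (nat_lit 2811) (.e (nat_lit 1199) (nat_lit 88) (.e (nat_lit 65610) (nat_lit 10) (.e (nat_lit 344129) (nat_lit 26) (.e (nat_lit 557119) (nat_lit 18) (.e (nat_lit 2798) (nat_lit 180) (.e (nat_lit 303132) (nat_lit 9) (.e (nat_lit 426109) (nat_lit 1) (.e (nat_lit 164195) (nat_lit 158) .nil)))))))) (.g (nat_lit 5) .nil .nil))) 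
(.lf (nat_lit 27888) (.g (nat_lit 2219) (.e (nat_lit 1199) (nat_lit 88) (.e (nat_lit 65610) (nat_lit 10) (.e (nat_lit 344168) (nat_lit 40) (.e (nat_lit 671747) (nat_lit 0) (.e (nat_lit 1595) (nat_lit 111) (.e (nat_lit 368384) (nat_lit 0) (.e (nat_lit 5902) (nat_lit 320) .nil))))))) (.g (nat_lit 5) .nil .nil))))) (.nd (nat_lit 4) (.nd (nat_lit 5) 
(.lf (nat_lit 27848) (.g (nat_lit 1448) (.e (nat_lit 1199) (nat_lit 88) (.e (nat_lit 65610) (nat_lit 10) (.e (nat_lit 344129) (nat_lit 26) (.e (nat_lit 557084) (nat_lit 10) .nil)))) .nil)) 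
(.lf (nat_lit 27880) (.g (nat_lit 871) (.e (nat_lit 1199) (nat_lit 88) (.e (nat_lit 65610) (nat_lit 10) (.e (nat_lit 344168) (nat_lit 40) (.e (nat_lit 671746) (nat_lit 0) .nil)))) .nil))) (.nd (nat_lit 5) 
(.lf (nat_lit 27864) (.g (nat_lit 2938) (.e (nat_lit 1199) (nat_lit 88) (.e (nat_lit 65610) (nat_lit 10) (.e (nat_lit 344138) (nat_lit 29) (.e (nat_lit 581651) (nat_lit 4) (.e (nat_lit 172097) (nat_lit 9) (.e (nat_lit 426109) (nat_lit 1) (.e (nat_lit 164196) (nat_lit 158) .nil))))))) (.g (nat_lit 0) .nil .nil))) 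
(.lf (nat_lit 27896) (.g (nat_lit 3358) (.e (nat_lit 1199) (nat_lit 88) (.e (nat_lit 65610) (nat_lit 10) (.e (nat_lit 344168) (nat_lit 40) (.e (nat_lit 671761) (nat_lit 4) (.e (nat_lit 65610) (nat_lit 10) (.e (nat_lit 344097) (nat_lit 18) (.e (nat_lit 5907) (nat_lit 320) .nil))))))) (.g (nat_lit 6) .nil .nil)))))) (.nd (nat_lit 3) (.nd (nat_lit 4) (.nd (nat_lit 5) 
(.lf (nat_lit 27844) (.g (nat_lit 1939) (.e (nat_lit 1199) (nat_lit 88) (.e (nat_lit 65610) (nat_lit 10) (.e (nat_lit 344117) (nat_lit 21) (.e (nat_lit 524032) (nat_lit 33) .nil)))) .nil)) 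
(.lf (nat_lit 27876) (.g (nat_lit 1555) (.e (nat_lit 1199) (nat_lit 88) (.e (nat_lit 65610) (nat_lit 10) (.e (nat_lit 344160) (nat_lit 37) (.e (nat_lit 647203) (nat_lit 14) (.e (nat_lit 1359) (nat_lit 102) (.e (nat_lit 286749) (nat_lit 9) (.e (nat_lit 335997) (nat_lit 1) (.e (nat_lit 57872) (nat_lit 264) .nil)))))))) (.g (nat_lit 4) .nil .nil)))) (.nd (nat_lit 5) 
(.lf (nat_lit 27860) (.g (nat_lit 2114) (.e (nat_lit 1199) (nat_lit 88) (.e (nat_lit 65610) (nat_lit 10) (.e (nat_lit 344129) (nat_lit 26) (.e (nat_lit 557119) (nat_lit 18) (.e (nat_lit 2808) (nat_lit 180) .nil))))) .nil)) 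
(.lf (nat_lit 27892) (.g (nat_lit 1722) (.e (nat_lit 1199) (nat_lit 88) (.e (nat_lit 65610) (nat_lit 10) (.e (nat_lit 344168) (nat_lit 40) (.e (nat_lit 671748) (nat_lit 0) (.e (nat_lit 1595) (nat_lit 111) (.e (nat_lit 360453) (nat_lit 0) (.e (nat_lit 5907) (nat_lit 320) .nil))))))) (.g (nat_lit 4) .nil .nil))))) (.nd (nat_lit 4) (.nd (nat_lit 5) 
(.lf (nat_lit 27852) (.g (nat_lit 2445) (.e (nat_lit 1199) (nat_lit 88) (.e (nat_lit 65610) (nat_lit 10) (.e (nat_lit 344129) (nat_lit 26) (.e (nat_lit 557084) (nat_lit 10) (.e (nat_lit 8363) (nat_lit 89) (.e (nat_lit 720956) (nat_lit 25) (.e (nat_lit 114712) (nat_lit 21) (.e (nat_lit 57870) (nat_lit 264) .nil)))))))) (.g (nat_lit 4) .nil .nil))) 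
(.lf (nat_lit 27884) (.g (nat_lit 2100) (.e (nat_lit 1199) (nat_lit 88) (.e (nat_lit 65610) (nat_lit 10) (.e (nat_lit 344168) (nat_lit 40) (.e (nat_lit 671747) (nat_lit 0) (.e (nat_lit 1586) (nat_lit 111) (.e (nat_lit 368384) (nat_lit 0) (.e (nat_lit 5906) (nat_lit 320) .nil))))))) (.g (nat_lit 5) .nil .nil)))) (.nd (nat_lit 5) 
(.lf (nat_lit 27868) (.g (nat_lit 3024) (.e (nat_lit 1199) (nat_lit 88) (.e (nat_lit 65610) (nat_lit 10) (.e (nat_lit 344138) (nat_lit 29) (.e (nat_lit 581653) (nat_lit 6) (.e (nat_lit 188444) (nat_lit 21) (.e (nat_lit 164196) (nat_lit 158) .nil)))))) (.g (nat_lit 0) .nil .nil))) 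
(.lf (nat_lit 27900) (.g (nat_lit 3499) (.e (nat_lit 1199) (nat_lit 88) (.e (nat_lit 65610) (nat_lit 10) (.e (nat_lit 344168) (nat_lit 40) (.e (nat_lit 671762) (nat_lit 4) (.e (nat_lit 65604) (nat_lit 9) (.e (nat_lit 335997) (nat_lit 1) (.e (nat_lit 57870) (nat_lit 264) .nil))))))) (.g (nat_lit 0) .nil .nil))))))) (.nd (nat_lit 2) (.nd (nat_lit 3) (.nd (nat_lit 4) (.nd (nat_lit 5) 
(.lf (nat_lit 27842) (.g (nat_lit 3840) (.e (nat_lit 1199) (nat_lit 88) (.e (nat_lit 65610) (nat_lit 10) (.e (nat_lit 344117) (nat_lit 21) (.e (nat_lit 516195) (nat_lit 26) (.e (nat_lit 335996) (nat_lit 1) (.e (nat_lit 57854) (nat_lit 252) (.e (nat_lit 57363) (nat_lit 1) (.e (nat_lit 57755) (nat_lit 209) .nil)))))))) (.g (nat_lit 6) .nil .nil))) 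
(.lf (nat_lit 27874) (.g (nat_lit 225) (.e (nat_lit 1199) (nat_lit 88) (.e (nat_lit 65610) (nat_lit 10) (.e (nat_lit 344160) (nat_lit 37) .nil))) .nil))) (.nd (nat_lit 5) 
(.lf (nat_lit 27858) (.g (nat_lit 2692) (.e (nat_lit 1199) (nat_lit 88) (.e (nat_lit 65610) (nat_lit 10) (.e (nat_lit 344129) (nat_lit 26) (.e (nat_lit 557119) (nat_lit 18) (.e (nat_lit 2798) (nat_lit 180) (.e (nat_lit 303133) (nat_lit 9) (.e (nat_lit 426109) (nat_lit 1) (.e (nat_lit 164196) (nat_lit 158) .nil)))))))) (.g (nat_lit 5) .nil .nil))) 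
(.lf (nat_lit 27890) (.g (nat_lit 919) (.e (nat_lit 1199) (nat_lit 88) (.e (nat_lit 65610) (nat_lit 10) (.e (nat_lit 344168) (nat_lit 40) (.e (nat_lit 671748) (nat_lit 0) .nil)))) .nil)))) (.nd (nat_lit 4) (.nd (nat_lit 5) 
(.lf (nat_lit 27850) (.g (nat_lit 3802) (.e (nat_lit 1199) (nat_lit 88) (.e (nat_lit 65610) (nat_lit 10) (.e (nat_lit 344129) (nat_lit 26) (.e (nat_lit 557084) (nat_lit 10) (.e (nat_lit 8362) (nat_lit 89) (.e (nat_lit 720956) (nat_lit 25) (.e (nat_lit 114711) (nat_lit 21) (.e (nat_lit 57872) (nat_lit 264) .nil)))))))) (.g (nat_lit 7) .nil .nil))) 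
(.lf (nat_lit 27882) (.g (nat_lit 985) (.e (nat_lit 1199) (nat_lit 88) (.e (nat_lit 65610) (nat_lit 10) (.e (nat_lit 344168) (nat_lit 40) (.e (nat_lit 671747) (nat_lit 0) .nil)))) .nil))) (.nd (nat_lit 5) 
(.lf (nat_lit 27866) (.g (nat_lit 2933) (.e (nat_lit 1199) (nat_lit 88) (.e (nat_lit 65610) (nat_lit 10) (.e (nat_lit 344138) (nat_lit 29) (.e (nat_lit 581651) (nat_lit 4) (.e (nat_lit 172115) (nat_lit 10) (.e (nat_lit 434209) (nat_lit 18) (.e (nat_lit 6792) (nat_lit 365) .nil))))))) (.g (nat_lit 0) .nil .nil))) 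
(.lf (nat_lit 27898) (.g (nat_lit 3335) (.e (nat_lit 1199) (nat_lit 88) (.e (nat_lit 65610) (nat_lit 10) (.e (nat_lit 344168) (nat_lit 40) (.e (nat_lit 671762) (nat_lit 4) (.e (nat_lit 65598) (nat_lit 9) (.e (nat_lit 335997) (nat_lit 1) (.e (nat_lit 57871) (nat_lit 264) .nil))))))) (.g (nat_lit 7) .nil .nil)))))) (.nd (nat_lit 3) (.nd (nat_lit 4) (.nd (nat_lit 5) 
(.lf (nat_lit 27846) (.g (nat_lit 235) (.e (nat_lit 1199) (nat_lit 88) (.e (nat_lit 65610) (nat_lit 10) (.e (nat_lit 344129) (nat_lit 26) .nil))) .nil)) 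
(.lf (nat_lit 27878) (.g (nat_lit 820) (.e (nat_lit 1199) (nat_lit 88) (.e (nat_lit 65610) (nat_lit 10) (.e (nat_lit 344168) (nat_lit 40) (.e (nat_lit 671744) (nat_lit 0) .nil)))) .nil))) (.nd (nat_lit 5) 
(.lf (nat_lit 27862) (.g (nat_lit 410) (.e (nat_lit 1199) (nat_lit 88) (.e (nat_lit 65610) (nat_lit 10) (.e (nat_lit 344138) (nat_lit 29) .nil))) .nil)) 
(.lf (nat_lit 27894) (.g (nat_lit 937) (.e (nat_lit 1199) (nat_lit 88) (.e (nat_lit 65610) (nat_lit 10) (.e (nat_lit 344168) (nat_lit 40) (.e (nat_lit 671751) (nat_lit 0) .nil)))) .nil)))) (.nd (nat_lit 4) (.nd (nat_lit 5) 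
(.lf (nat_lit 27854) (.g (nat_lit 2321) (.e (nat_lit 1199) (nat_lit 88) (.e (nat_lit 65610) (nat_lit 10) (.e (nat_lit 344129) (nat_lit 26) (.e (nat_lit 557119) (nat_lit 18) (.e (nat_lit 2797) (nat_lit 180) (.e (nat_lit 303132) (nat_lit 9) (.e (nat_lit 426109) (nat_lit 1) (.e (nat_lit 164196) (nat_lit 158) .nil)))))))) (.g (nat_lit 4) .nil .nil))) 
(.lf (nat_lit 27886) (.g (nat_lit 1721) (.e (nat_lit 1199) (nat_lit 88) (.e (nat_lit 65610) (nat_lit 10) (.e (nat_lit 344168) (nat_lit 40) (.e (nat_lit 671747) (nat_lit 0) (.e (nat_lit 1592) (nat_lit 111) (.e (nat_lit 368384) (nat_lit 0) (.e (nat_lit 5902) (nat_lit 320) .nil))))))) (.g (nat_lit 4) .nil .nil)))) (.nd (nat_lit 5) 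
(.lf (nat_lit 27870) (.g (nat_lit 2983) (.e (nat_lit 1199) (nat_lit 88) (.e (nat_lit 65610) (nat_lit 10) (.e (nat_lit 344138) (nat_lit 29) (.e (nat_lit 581653) (nat_lit 6) (.e (nat_lit 188445) (nat_lit 21) (.e (nat_lit 164196) (nat_lit 158) .nil)))))) (.g (nat_lit 6) .nil .nil))) 
(.lf (nat_lit 27902) (.g (nat_lit 3514) (.e (nat_lit 1199) (nat_lit 88) (.e (nat_lit 65610) (nat_lit 10) (.e (nat_lit 344168) (nat_lit 40) (.e (nat_lit 671762) (nat_lit 4) (.e (nat_lit 65604) (nat_lit 9) (.e (nat_lit 335997) (nat_lit 1) (.e (nat_lit 57872) (nat_lit 264) .nil))))))) (.g (nat_lit 0) .nil .nil)))))))) 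
(.nd (nat_lit 1) (.nd (nat_lit 2) (.nd (nat_lit 3) (.nd (nat_lit 4) (.nd (nat_lit 5) 
(.lf (nat_lit 27841) (.g (nat_lit 3817) (.e (nat_lit 1199) (nat_lit 88) (.e (nat_lit 65610) (nat_lit 10) (.e (nat_lit 344117) (nat_lit 21) (.e (nat_lit 516195) (nat_lit 26) (.e (nat_lit 335996) (nat_lit 1) (.e (nat_lit 57854) (nat_lit 252) (.e (nat_lit 57363) (nat_lit 1) (.e (nat_lit 57754) (nat_lit 209) .nil)))))))) (.g (nat_lit 6) .nil .nil))) 
(.lf (nat_lit 27873) (.g (nat_lit 2658) (.e (nat_lit 1199) (nat_lit 88) (.e (nat_lit 65610) (nat_lit 10) (.e (nat_lit 344156) (nat_lit 36) (.e (nat_lit 638998) (nat_lit 8) (.e (nat_lit 172120) (nat_lit 12) (.e (nat_lit 475155) (nat_lit 21) (.e (nat_lit 6318) (nat_lit 337) .nil))))))) (.g (nat_lit 5) .nil .nil)))) (.nd (nat_lit 5) 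
(.lf (nat_lit 27857) (.g (nat_lit 4104) (.e (nat_lit 1199) (nat_lit 88) (.e (nat_lit 65610) (nat_lit 10) (.e (nat_lit 344129) (nat_lit 26) (.e (nat_lit 557119) (nat_lit 18) (.e (nat_lit 2798) (nat_lit 180) (.e (nat_lit 303132) (nat_lit 9) (.e (nat_lit 426109) (nat_lit 1) (.e (nat_lit 164196) (nat_lit 158) .nil)))))))) (.g (nat_lit 7) .nil .nil))) 
(.lf (nat_lit 27889) (.g (nat_lit 1603) (.e (nat_lit 1199) (nat_lit 88) (.e (nat_lit 65610) (nat_lit 10) (.e (nat_lit 344168) (nat_lit 40) (.e (nat_lit 671747) (nat_lit 0) (.e (nat_lit 1598) (nat_lit 111) (.e (nat_lit 368384) (nat_lit 0) (.e (nat_lit 5902) (nat_lit 320) .nil))))))) (.g (nat_lit 4) .nil .nil))))) (.nd (nat_lit 4) (.nd (nat_lit 5) 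
(.lf (nat_lit 27849) (.g (nat_lit 2910) (.e (nat_lit 1199) (nat_lit 88) (.e (nat_lit 65610) (nat_lit 10) (.e (nat_lit 344129) (nat_lit 26) (.e (nat_lit 557084) (nat_lit 10) (.e (nat_lit 8361) (nat_lit 89) (.e (nat_lit 720956) (nat_lit 25) (.e (nat_lit 114711) (nat_lit 21) (.e (nat_lit 57870) (nat_lit 264) .nil)))))))) (.g (nat_lit 4) .nil .nil))) 
(.lf (nat_lit 27881) (.g (nat_lit 1805) (.e (nat_lit 1199) (nat_lit 88) (.e (nat_lit 65610) (nat_lit 10) (.e (nat_lit 344168) (nat_lit 40) (.e (nat_lit 671746) (nat_lit 0) (.e (nat_lit 1586) (nat_lit 111) (.e (nat_lit 368384) (nat_lit 0) (.e (nat_lit 5902) (nat_lit 320) .nil))))))) (.g (nat_lit 5) .nil .nil)))) (.nd (nat_lit 5) 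
(.lf (nat_lit 27865) (.g (nat_lit 3291) (.e (nat_lit 1199) (nat_lit 88) (.e (nat_lit 65610) (nat_lit 10) (.e (nat_lit 344138) (nat_lit 29) (.e (nat_lit 581651) (nat_lit 4) (.e (nat_lit 172106) (nat_lit 10) (.e (nat_lit 434209) (nat_lit 18) (.e (nat_lit 6792) (nat_lit 365) .nil))))))) (.g (nat_lit 0) .nil .nil))) 
(.lf (nat_lit 27897) (.g (nat_lit 3624) (.e (nat_lit 1199) (nat_lit 88) (.e (nat_lit 65610) (nat_lit 10) (.e (nat_lit 344168) (nat_lit 40) (.e (nat_lit 671762) (nat_lit 4) (.e (nat_lit 65598) (nat_lit 9) (.e (nat_lit 335997) (nat_lit 1) (.e (nat_lit 57870) (nat_lit 264) .nil))))))) (.g (nat_lit 0) .nil .nil)))))) (.nd (nat_lit 3) (.nd (nat_lit 4) (.nd (nat_lit 5) 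
(.lf (nat_lit 27845) (.g (nat_lit 2846) (.e (nat_lit 1199) (nat_lit 88) (.e (nat_lit 65610) (nat_lit 10) (.e (nat_lit 344123) (nat_lit 24) (.e (nat_lit 540724) (nat_lit 28) (.e (nat_lit 442421) (nat_lit 21) (.e (nat_lit 164195) (nat_lit 158) .nil)))))) (.g (nat_lit 0) .nil .nil))) 
(.lf (nat_lit 27877) (.g (nat_lit 342) (.e (nat_lit 1199) (nat_lit 88) (.e (nat_lit 65610) (nat_lit 10) (.e (nat_lit 344168) (nat_lit 40) .nil))) .nil))) (.nd (nat_lit 5) 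
(.lf (nat_lit 27861) (.g (nat_lit 2649) (.e (nat_lit 1199) (nat_lit 88) (.e (nat_lit 65610) (nat_lit 10) (.e (nat_lit 344129) (nat_lit 26) (.e (nat_lit 557119) (nat_lit 18) (.e (nat_lit 2808) (nat_lit 180) (.e (nat_lit 303132) (nat_lit 9) (.e (nat_lit 426109) (nat_lit 1) (.e (nat_lit 164196) (nat_lit 158) .nil)))))))) (.g (nat_lit 5) .nil .nil))) 
(.lf (nat_lit 27893) (.g (nat_lit 1867) (.e (nat_lit 1199) (nat_lit 88) (.e (nat_lit 65610) (nat_lit 10) (.e (nat_lit 344168) (nat_lit 40) (.e (nat_lit 671748) (nat_lit 0) (.e (nat_lit 1598) (nat_lit 111) (.e (nat_lit 360452) (nat_lit 0) (.e (nat_lit 5907) (nat_lit 320) .nil))))))) (.g (nat_lit 4) .nil .nil))))) (.nd (nat_lit 4) (.nd (nat_lit 5) 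
(.lf (nat_lit 27853) (.g (nat_lit 1509) (.e (nat_lit 1199) (nat_lit 88) (.e (nat_lit 65610) (nat_lit 10) (.e (nat_lit 344129) (nat_lit 26) (.e (nat_lit 557119) (nat_lit 18) .nil)))) .nil)) 
(.lf (nat_lit 27885) (.g (nat_lit 2222) (.e (nat_lit 1199) (nat_lit 88) (.e (nat_lit 65610) (nat_lit 10) (.e (nat_lit 344168) (nat_lit 40) (.e (nat_lit 671747) (nat_lit 0) (.e (nat_lit 1589) (nat_lit 111) (.e (nat_lit 360453) (nat_lit 0) (.e (nat_lit 5907) (nat_lit 320) .nil))))))) (.g (nat_lit 5) .nil .nil)))) (.nd (nat_lit 5) 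
(.lf (nat_lit 27869) (.g (nat_lit 2379) (.e (nat_lit 1199) (nat_lit 88) (.e (nat_lit 65610) (nat_lit 10) (.e (nat_lit 344138) (nat_lit 29) (.e (nat_lit 581653) (nat_lit 6) (.e (nat_lit 188445) (nat_lit 21) (.e (nat_lit 164195) (nat_lit 158) .nil)))))) (.g (nat_lit 5) .nil .nil))) 
(.lf (nat_lit 27901) (.g (nat_lit 3215) (.e (nat_lit 1199) (nat_lit 88) (.e (nat_lit 65610) (nat_lit 10) (.e (nat_lit 344168) (nat_lit 40) (.e (nat_lit 671762) (nat_lit 4) (.e (nat_lit 65604) (nat_lit 9) (.e (nat_lit 335997) (nat_lit 1) (.e (nat_lit 57871) (nat_lit 264) .nil))))))) (.g (nat_lit 7) .nil .nil))))))) (.nd (nat_lit 2) (.nd (nat_lit 3) (.nd (nat_lit 4) (.nd (nat_lit 5) 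
(.lf (nat_lit 27843) (.g (nat_lit 3622) (.e (nat_lit 1199) (nat_lit 88) (.e (nat_lit 65610) (nat_lit 10) (.e (nat_lit 344117) (nat_lit 21) (.e (nat_lit 516195) (nat_lit 26) (.e (nat_lit 335996) (nat_lit 1) (.e (nat_lit 57854) (nat_lit 252) (.e (nat_lit 57366) (nat_lit 1) (.e (nat_lit 57754) (nat_lit 209) .nil)))))))) (.g (nat_lit 6) .nil .nil))) 
(.lf (nat_lit 27875) (.g (nat_lit 1643) (.e (nat_lit 1199) (nat_lit 88) (.e (nat_lit 65610) (nat_lit 10) (.e (nat_lit 344160) (nat_lit 37) (.e (nat_lit 647203) (nat_lit 14) (.e (nat_lit 1359) (nat_lit 102) (.e (nat_lit 286749) (nat_lit 9) (.e (nat_lit 335997) (nat_lit 1) (.e (nat_lit 57870) (nat_lit 264) .nil)))))))) (.g (nat_lit 4) .nil .nil)))) (.nd (nat_lit 5) 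
(.lf (nat_lit 27859) (.g (nat_lit 2114) (.e (nat_lit 1199) (nat_lit 88) (.e (nat_lit 65610) (nat_lit 10) (.e (nat_lit 344129) (nat_lit 26) (.e (nat_lit 557119) (nat_lit 18) (.e (nat_lit 2798) (nat_lit 180) (.e (nat_lit 303140) (nat_lit 10) (.e (nat_lit 434209) (nat_lit 18) (.e (nat_lit 6792) (nat_lit 365) .nil)))))))) (.g (nat_lit 4) .nil .nil))) 
(.lf (nat_lit 27891) (.g (nat_lit 1525) (.e (nat_lit 1199) (nat_lit 88) (.e (nat_lit 65610) (nat_lit 10) (.e (nat_lit 344168) (nat_lit 40) (.e (nat_lit 671748) (nat_lit 0) (.e (nat_lit 1589) (nat_lit 111) (.e (nat_lit 360453) (nat_lit 0) (.e (nat_lit 5907) (nat_lit 320) .nil))))))) (.g (nat_lit 4) .nil .nil))))) (.nd (nat_lit 4) (.nd (nat_lit 5) 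
(.lf (nat_lit 27851) (.g (nat_lit 2710) (.e (nat_lit 1199) (nat_lit 88) (.e (nat_lit 65610) (nat_lit 10) (.e (nat_lit 344129) (nat_lit 26) (.e (nat_lit 557084) (nat_lit 10) (.e (nat_lit 8362) (nat_lit 89) (.e (nat_lit 720956) (nat_lit 25) (.e (nat_lit 114712) (nat_lit 21) (.e (nat_lit 57870) (nat_lit 264) .nil)))))))) (.g (nat_lit 4) .nil .nil))) 
(.lf (nat_lit 27883) (.g (nat_lit 2402) (.e (nat_lit 1199) (nat_lit 88) (.e (nat_lit 65610) (nat_lit 10) (.e (nat_lit 344168) (nat_lit 40) (.e (nat_lit 671747) (nat_lit 0) (.e (nat_lit 1586) (nat_lit 111) (.e (nat_lit 368384) (nat_lit 0) (.e (nat_lit 5902) (nat_lit 320) .nil))))))) (.g (nat_lit 5) .nil .nil)))) (.nd (nat_lit 5) 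
(.lf (nat_lit 27867) (.g (nat_lit 1802) (.e (nat_lit 1199) (nat_lit 88) (.e (nat_lit 65610) (nat_lit 10) (.e (nat_lit 344138) (nat_lit 29) (.e (nat_lit 581653) (nat_lit 6) (.e (nat_lit 188444) (nat_lit 21) (.e (nat_lit 164195) (nat_lit 158) .nil)))))) (.g (nat_lit 4) .nil .nil))) 
(.lf (nat_lit 27899) (.g (nat_lit 3619) (.e (nat_lit 1199) (nat_lit 88) (.e (nat_lit 65610) (nat_lit 10) (.e (nat_lit 344168) (nat_lit 40) (.e (nat_lit 671762) (nat_lit 4) (.e (nat_lit 65598) (nat_lit 9) (.e (nat_lit 335997) (nat_lit 1) (.e (nat_lit 57872) (nat_lit 264) .nil))))))) (.g (nat_lit 0) .nil .nil)))))) (.nd (nat_lit 3) (.nd (nat_lit 4) (.nd (nat_lit 5) 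
(.lf (nat_lit 27847) (.g (nat_lit 1486) (.e (nat_lit 1199) (nat_lit 88) (.e (nat_lit 65610) (nat_lit 10) (.e (nat_lit 344129) (nat_lit 26) (.e (nat_lit 557067) (nat_lit 9) .nil)))) .nil)) 
(.lf (nat_lit 27879) (.g (nat_lit 1548) (.e (nat_lit 1199) (nat_lit 88) (.e (nat_lit 65610) (nat_lit 10) (.e (nat_lit 344168) (nat_lit 40) (.e (nat_lit 671744) (nat_lit 0) (.e (nat_lit 1615) (nat_lit 113) (.e (nat_lit 376859) (nat_lit 21) (.e (nat_lit 57873) (nat_lit 264) .nil))))))) (.g (nat_lit 4) .nil .nil)))) (.nd (nat_lit 5) 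
(.lf (nat_lit 27863) (.g (nat_lit 3298) (.e (nat_lit 1199) (nat_lit 88) (.e (nat_lit 65610) (nat_lit 10) (.e (nat_lit 344138) (nat_lit 29) (.e (nat_lit 581651) (nat_lit 4) (.e (nat_lit 172094) (nat_lit 9) (.e (nat_lit 426109) (nat_lit 1) (.e (nat_lit 164196) (nat_lit 158) .nil))))))) (.g (nat_lit 0) .nil .nil))) 
(.lf (nat_lit 27895) (.g (nat_lit 1883) (.e (nat_lit 1199) (nat_lit 88) (.e (nat_lit 65610) (nat_lit 10) (.e (nat_lit 344168) (nat_lit 40) (.e (nat_lit 671751) (nat_lit 0) (.e (nat_lit 1553) (nat_lit 110) (.e (nat_lit 352309) (nat_lit 21) (.e (nat_lit 57872) (nat_lit 264) .nil))))))) (.g (nat_lit 4) .nil .nil))))) (.nd (nat_lit 4) (.nd (nat_lit 5) 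
(.lf (nat_lit 27855) (.g (nat_lit 1839) (.e (nat_lit 1199) (nat_lit 88) (.e (nat_lit 65610) (nat_lit 10) (.e (nat_lit 344129) (nat_lit 26) (.e (nat_lit 557119) (nat_lit 18) (.e (nat_lit 2798) (nat_lit 180) .nil))))) .nil)) 
(.lf (nat_lit 27887) (.g (nat_lit 3538) (.e (nat_lit 1199) (nat_lit 88) (.e (nat_lit 65610) (nat_lit 10) (.e (nat_lit 344168) (nat_lit 40) (.e (nat_lit 671747) (nat_lit 0) (.e (nat_lit 1595) (nat_lit 111) (.e (nat_lit 360453) (nat_lit 0) (.e (nat_lit 5907) (nat_lit 320) .nil))))))) (.g (nat_lit 0) .nil .nil)))) (.nd (nat_lit 5) 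
(.lf (nat_lit 27871) (.g (nat_lit 1749) (.e (nat_lit 1199) (nat_lit 88) (.e (nat_lit 65610) (nat_lit 10) (.e (nat_lit 344138) (nat_lit 29) (.e (nat_lit 581653) (nat_lit 6) (.e (nat_lit 188446) (nat_lit 21) (.e (nat_lit 164195) (nat_lit 158) .nil)))))) (.g (nat_lit 4) .nil .nil))) 
(.lf (nat_lit 27903) (.g (nat_lit 3810) (.e (nat_lit 1199) (nat_lit 88) (.e (nat_lit 65610) (nat_lit 10) (.e (nat_lit 344168) (nat_lit 40) (.e (nat_lit 671762) (nat_lit 4) (.e (nat_lit 65610) (nat_lit 10) (.e (nat_lit 344097) (nat_lit 18) (.e (nat_lit 5906) (nat_lit 320) .nil))))))) (.g (nat_lit 0) .nil .nil)))))))))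

noncomputable def tv385 : DT := (.nd (nat_lit 0) (.nd (nat_lit 1) (.nd (nat_lit 2) (.nd (nat_lit 3) (.nd (nat_lit 4) (.nd (nat_lit 5) 
(.lf (nat_lit 27904) (.g (nat_lit 4103) (.e (nat_lit 1199) (nat_lit 88) (.e (nat_lit 65610) (nat_lit 10) (.e (nat_lit 344168) (nat_lit 40) (.e (nat_lit 671762) (nat_lit 4) (.e (nat_lit 65610) (nat_lit 10) (.e (nat_lit 344097) (nat_lit 18) (.e (nat_lit 5907) (nat_lit 320) .nil))))))) (.g (nat_lit 0) .nil .nil))) 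
(.lf (nat_lit 27936) (.g (nat_lit 2333) (.e (nat_lit 1199) (nat_lit 88) (.e (nat_lit 65610) (nat_lit 10) (.e (nat_lit 344169) (nat_lit 40) (.e (nat_lit 671748) (nat_lit 0) (.e (nat_lit 1586) (nat_lit 111) (.e (nat_lit 360451) (nat_lit 0) (.e (nat_lit 5896) (nat_lit 320) .nil))))))) (.g (nat_lit 5) .nil .nil)))) (.nd (nat_lit 5) 
(.lf (nat_lit 27920) (.g (nat_lit 1546) (.e (nat_lit 1199) (nat_lit 88) (.e (nat_lit 65610) (nat_lit 10) (.e (nat_lit 344169) (nat_lit 40) (.e (nat_lit 671746) (nat_lit 0) (.e (nat_lit 1592) (nat_lit 111) (.e (nat_lit 368384) (nat_lit 0) (.e (nat_lit 5906) (nat_lit 320) .nil))))))) (.g (nat_lit 4) .nil .nil))) 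
(.lf (nat_lit 27952) (.g (nat_lit 2200) (.e (nat_lit 1199) (nat_lit 88) (.e (nat_lit 65610) (nat_lit 10) (.e (nat_lit 344169) (nat_lit 40) (.e (nat_lit 671751) (nat_lit 0) (.e (nat_lit 1524) (nat_lit 108) (.e (nat_lit 336186) (nat_lit 11) (.e (nat_lit 368662) (nat_lit 18) (.e (nat_lit 5907) (nat_lit 320) .nil)))))))) (.g (nat_lit 5) .nil .nil))))) (.nd (nat_lit 4) (.nd (nat_lit 5) 
(.lf (nat_lit 27912) (.g (nat_lit 1637) (.e (nat_lit 1199) (nat_lit 88) (.e (nat_lit 65610) (nat_lit 10) (.e (nat_lit 344168) (nat_lit 40) (.e (nat_lit 671764) (nat_lit 6) (.e (nat_lit 81949) (nat_lit 21) (.e (nat_lit 57871) (nat_lit 264) .nil)))))) (.g (nat_lit 4) .nil .nil))) 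
(.lf (nat_lit 27944) (.g (nat_lit 2735) (.e (nat_lit 1199) (nat_lit 88) (.e (nat_lit 65610) (nat_lit 10) (.e (nat_lit 344169) (nat_lit 40) (.e (nat_lit 671748) (nat_lit 0) (.e (nat_lit 1595) (nat_lit 111) (.e (nat_lit 368384) (nat_lit 0) (.e (nat_lit 5905) (nat_lit 320) .nil))))))) (.g (nat_lit 5) .nil .nil)))) (.nd (nat_lit 5) 
(.lf (nat_lit 27928) (.g (nat_lit 2317) (.e (nat_lit 1199) (nat_lit 88) (.e (nat_lit 65610) (nat_lit 10) (.e (nat_lit 344169) (nat_lit 40) (.e (nat_lit 671747) (nat_lit 0) (.e (nat_lit 1595) (nat_lit 111) (.e (nat_lit 368384) (nat_lit 0) (.e (nat_lit 5902) (nat_lit 320) .nil))))))) (.g (nat_lit 5) .nil .nil))) 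
(.lf (nat_lit 27960) (.g (nat_lit 3774) (.e (nat_lit 1199) (nat_lit 88) (.e (nat_lit 65610) (nat_lit 10) (.e (nat_lit 344169) (nat_lit 40) (.e (nat_lit 671762) (nat_lit 4) (.e (nat_lit 65598) (nat_lit 9) (.e (nat_lit 335997) (nat_lit 1) (.e (nat_lit 57871) (nat_lit 264) .nil))))))) (.g (nat_lit 7) .nil .nil)))))) (.nd (nat_lit 3) (.nd (nat_lit 4) (.nd (nat_lit 5) 
(.lf (nat_lit 27908) (.g (nat_lit 1880) (.e (nat_lit 1199) (nat_lit 88) (.e (nat_lit 65610) (nat_lit 10) (.e (nat_lit 344168) (nat_lit 40) (.e (nat_lit 671762) (nat_lit 4) (.e (nat_lit 65620) (nat_lit 10) (.e (nat_lit 344097) (nat_lit 18) (.e (nat_lit 5906) (nat_lit 320) .nil))))))) (.g (nat_lit 4) .nil .nil))) 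
(.lf (nat_lit 27940) (.g (nat_lit 2002) (.e (nat_lit 1199) (nat_lit 88) (.e (nat_lit 65610) (nat_lit 10) (.e (nat_lit 344169) (nat_lit 40) (.e (nat_lit 671748) (nat_lit 0) (.e (nat_lit 1589) (nat_lit 111) (.e (nat_lit 360453) (nat_lit 0) (.e (nat_lit 5905) (nat_lit 320) .nil))))))) (.g (nat_lit 4) .nil .nil)))) (.nd (nat_lit 5) 
(.lf (nat_lit 27924) (.g (nat_lit 2276) (.e (nat_lit 1199) (nat_lit 88) (.e (nat_lit 65610) (nat_lit 10) (.e (nat_lit 344169) (nat_lit 40) (.e (nat_lit 671747) (nat_lit 0) (.e (nat_lit 1586) (nat_lit 111) (.e (nat_lit 368384) (nat_lit 0) (.e (nat_lit 5906) (nat_lit 320) .nil))))))) (.g (nat_lit 5) .nil .nil))) 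
(.lf (nat_lit 27956) (.g (nat_lit 1645) (.e (nat_lit 1199) (nat_lit 88) (.e (nat_lit 65610) (nat_lit 10) (.e (nat_lit 344169) (nat_lit 40) (.e (nat_lit 671761) (nat_lit 4) (.e (nat_lit 65604) (nat_lit 9) (.e (nat_lit 335997) (nat_lit 1) (.e (nat_lit 57872) (nat_lit 264) .nil))))))) (.g (nat_lit 4) .nil .nil))))) (.nd (nat_lit 4) (.nd (nat_lit 5) 
(.lf (nat_lit 27916) (.g (nat_lit 2888) (.e (nat_lit 1199) (nat_lit 88) (.e (nat_lit 65610) (nat_lit 10) (.e (nat_lit 344168) (nat_lit 40) (.e (nat_lit 671764) (nat_lit 6) (.e (nat_lit 81950) (nat_lit 21) (.e (nat_lit 57872) (nat_lit 264) .nil)))))) (.g (nat_lit 0) .nil .nil))) 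
(.lf (nat_lit 27948) (.g (nat_lit 1743) (.e (nat_lit 1199) (nat_lit 88) (.e (nat_lit 65610) (nat_lit 10) (.e (nat_lit 344169) (nat_lit 40) (.e (nat_lit 671748) (nat_lit 0) (.e (nat_lit 1599) (nat_lit 111) .nil))))) .nil))) (.nd (nat_lit 5) 
(.lf (nat_lit 27932) (.g (nat_lit 963) (.e (nat_lit 1199) (nat_lit 88) (.e (nat_lit 65610) (nat_lit 10) (.e (nat_lit 344169) (nat_lit 40) (.e (nat_lit 671748) (nat_lit 0) .nil)))) .nil)) 
(.lf (nat_lit 27964) (.g (nat_lit 3804) (.e (nat_lit 1199) (nat_lit 88) (.e (nat_lit 65610) (nat_lit 10) (.e (nat_lit 344169) (nat_lit 40) (.e (nat_lit 671762) (nat_lit 4) (.e (nat_lit 65604) (nat_lit 9) (.e (nat_lit 335997) (nat_lit 1) (.e (nat_lit 57872) (nat_lit 264) .nil))))))) (.g (nat_lit 0) .nil .nil))))))) (.nd (nat_lit 2) (.nd (nat_lit 3) (.nd (nat_lit 4) (.nd (nat_lit 5) 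
(.lf (nat_lit 27906) (.g (nat_lit 3680) (.e (nat_lit 1199) (nat_lit 88) (.e (nat_lit 65610) (nat_lit 10) (.e (nat_lit 344168) (nat_lit 40) (.e (nat_lit 671762) (nat_lit 4) (.e (nat_lit 65619) (nat_lit 10) (.e (nat_lit 344097) (nat_lit 18) (.e (nat_lit 5906) (nat_lit 320) .nil))))))) (.g (nat_lit 0) .nil .nil))) 
(.lf (nat_lit 27938) (.g (nat_lit 1935) (.e (nat_lit 1199) (nat_lit 88) (.e (nat_lit 65610) (nat_lit 10) (.e (nat_lit 344169) (nat_lit 40) (.e (nat_lit 671748) (nat_lit 0) (.e (nat_lit 1586) (nat_lit 111) (.e (nat_lit 360454) (nat_lit 0) (.e (nat_lit 5907) (nat_lit 320) .nil))))))) (.g (nat_lit 4) .nil .nil)))) (.nd (nat_lit 5) 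
(.lf (nat_lit 27922) (.g (nat_lit 2532) (.e (nat_lit 1199) (nat_lit 88) (.e (nat_lit 65610) (nat_lit 10) (.e (nat_lit 344169) (nat_lit 40) (.e (nat_lit 671747) (nat_lit 0) (.e (nat_lit 1586) (nat_lit 111) (.e (nat_lit 368384) (nat_lit 0) (.e (nat_lit 5902) (nat_lit 320) .nil))))))) (.g (nat_lit 5) .nil .nil))) 
(.lf (nat_lit 27954) (.g (nat_lit 2887) (.e (nat_lit 1199) (nat_lit 88) (.e (nat_lit 65610) (nat_lit 10) (.e (nat_lit 344169) (nat_lit 40) (.e (nat_lit 671760) (nat_lit 4) (.e (nat_lit 65619) (nat_lit 10) (.e (nat_lit 344097) (nat_lit 18) (.e (nat_lit 5906) (nat_lit 320) .nil))))))) (.g (nat_lit 6) .nil .nil))))) (.nd (nat_lit 4) (.nd (nat_lit 5) 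
(.lf (nat_lit 27914) (.g (nat_lit 2613) (.e (nat_lit 1199) (nat_lit 88) (.e (nat_lit 65610) (nat_lit 10) (.e (nat_lit 344168) (nat_lit 40) (.e (nat_lit 671764) (nat_lit 6) (.e (nat_lit 81950) (nat_lit 21) (.e (nat_lit 57870) (nat_lit 264) .nil)))))) (.g (nat_lit 0) .nil .nil))) 
(.lf (nat_lit 27946) (.g (nat_lit 3677) (.e (nat_lit 1199) (nat_lit 88) (.e (nat_lit 65610) (nat_lit 10) (.e (nat_lit 344169) (nat_lit 40) (.e (nat_lit 671748) (nat_lit 0) (.e (nat_lit 1598) (nat_lit 111) (.e (nat_lit 360452) (nat_lit 0) (.e (nat_lit 5905) (nat_lit 320) .nil))))))) (.g (nat_lit 7) .nil .nil)))) (.nd (nat_lit 5) 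
(.lf (nat_lit 27930) (.g (nat_lit 2089) (.e (nat_lit 1199) (nat_lit 88) (.e (nat_lit 65610) (nat_lit 10) (.e (nat_lit 344169) (nat_lit 40) (.e (nat_lit 671747) (nat_lit 0) (.e (nat_lit 1598) (nat_lit 111) (.e (nat_lit 360452) (nat_lit 0) (.e (nat_lit 5906) (nat_lit 320) .nil))))))) (.g (nat_lit 5) .nil .nil))) 
(.lf (nat_lit 27962) (.g (nat_lit 3797) (.e (nat_lit 1199) (nat_lit 88) (.e (nat_lit 65610) (nat_lit 10) (.e (nat_lit 344169) (nat_lit 40) (.e (nat_lit 671762) (nat_lit 4) (.e (nat_lit 65604) (nat_lit 9) (.e (nat_lit 335997) (nat_lit 1) (.e (nat_lit 57870) (nat_lit 264) .nil))))))) (.g (nat_lit 0) .nil .nil)))))) (.nd (nat_lit 3) (.nd (nat_lit 4) (.nd (nat_lit 5) 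
(.lf (nat_lit 27910) (.g (nat_lit 2155) (.e (nat_lit 1199) (nat_lit 88) (.e (nat_lit 65610) (nat_lit 10) (.e (nat_lit 344168) (nat_lit 40) (.e (nat_lit 671764) (nat_lit 6) (.e (nat_lit 81948) (nat_lit 21) (.e (nat_lit 57871) (nat_lit 264) .nil)))))) (.g (nat_lit 6) .nil .nil))) 
(.lf (nat_lit 27942) (.g (nat_lit 2245) (.e (nat_lit 1199) (nat_lit 88) (.e (nat_lit 65610) (nat_lit 10) (.e (nat_lit 344169) (nat_lit 40) (.e (nat_lit 671748) (nat_lit 0) (.e (nat_lit 1592) (nat_lit 111) (.e (nat_lit 368384) (nat_lit 0) (.e (nat_lit 5902) (nat_lit 320) .nil))))))) (.g (nat_lit 4) .nil .nil)))) (.nd (nat_lit 5) 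
(.lf (nat_lit 27926) (.g (nat_lit 1840) (.e (nat_lit 1199) (nat_lit 88) (.e (nat_lit 65610) (nat_lit 10) (.e (nat_lit 344169) (nat_lit 40) (.e (nat_lit 671747) (nat_lit 0) (.e (nat_lit 1592) (nat_lit 111) (.e (nat_lit 368384) (nat_lit 0) (.e (nat_lit 5902) (nat_lit 320) .nil))))))) (.g (nat_lit 4) .nil .nil))) 
(.lf (nat_lit 27958) (.g (nat_lit 913) (.e (nat_lit 1199) (nat_lit 88) (.e (nat_lit 65610) (nat_lit 10) (.e (nat_lit 344169) (nat_lit 40) (.e (nat_lit 671762) (nat_lit 4) .nil)))) .nil)))) (.nd (nat_lit 4) (.nd (nat_lit 5) 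
(.lf (nat_lit 27918) (.g (nat_lit 1285) (.e (nat_lit 1199) (nat_lit 88) (.e (nat_lit 65610) (nat_lit 10) (.e (nat_lit 344169) (nat_lit 40) (.e (nat_lit 671744) (nat_lit 0) (.e (nat_lit 1615) (nat_lit 113) .nil))))) .nil)) 
(.lf (nat_lit 27950) (.g (nat_lit 1110) (.e (nat_lit 1199) (nat_lit 88) (.e (nat_lit 65610) (nat_lit 10) (.e (nat_lit 344169) (nat_lit 40) (.e (nat_lit 671751) (nat_lit 0) .nil)))) .nil))) (.nd (nat_lit 5) 
(.lf (nat_lit 27934) (.g (nat_lit 1734) (.e (nat_lit 1199) (nat_lit 88) (.e (nat_lit 65610) (nat_lit 10) (.e (nat_lit 344169) (nat_lit 40) (.e (nat_lit 671748) (nat_lit 0) (.e (nat_lit 1562) (nat_lit 110) (.e (nat_lit 352309) (nat_lit 21) (.e (nat_lit 57871) (nat_lit 264) .nil))))))) (.g (nat_lit 4) .nil .nil))) 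
(.lf (nat_lit 27966) (.g (nat_lit 4450) (.e (nat_lit 1199) (nat_lit 88) (.e (nat_lit 65610) (nat_lit 10) (.e (nat_lit 344169) (nat_lit 40) (.e (nat_lit 671762) (nat_lit 4) (.e (nat_lit 65610) (nat_lit 10) (.e (nat_lit 344097) (nat_lit 18) (.e (nat_lit 5907) (nat_lit 320) .nil))))))) (.g (nat_lit 0) .nil .nil)))))))) 
(.nd (nat_lit 1) (.nd (nat_lit 2) (.nd (nat_lit 3) (.nd (nat_lit 4) (.nd (nat_lit 5) 
(.lf (nat_lit 27905) (.g (nat_lit 2436) (.e (nat_lit 1199) (nat_lit 88) (.e (nat_lit 65610) (nat_lit 10) (.e (nat_lit 344168) (nat_lit 40) (.e (nat_lit 671762) (nat_lit 4) (.e (nat_lit 65619) (nat_lit 10) (.e (nat_lit 344090) (nat_lit 18) (.e (nat_lit 5896) (nat_lit 320) .nil))))))) (.g (nat_lit 5) .nil .nil))) 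
(.lf (nat_lit 27937) (.g (nat_lit 2813) (.e (nat_lit 1199) (nat_lit 88) (.e (nat_lit 65610) (nat_lit 10) (.e (nat_lit 344169) (nat_lit 40) (.e (nat_lit 671748) (nat_lit 0) (.e (nat_lit 1586) (nat_lit 111) (.e (nat_lit 360452) (nat_lit 0) (.e (nat_lit 5907) (nat_lit 320) .nil))))))) (.g (nat_lit 5) .nil .nil)))) (.nd (nat_lit 5) 
(.lf (nat_lit 27921) (.g (nat_lit 1059) (.e (nat_lit 1199) (nat_lit 88) (.e (nat_lit 65610) (nat_lit 10) (.e (nat_lit 344169) (nat_lit 40) (.e (nat_lit 671747) (nat_lit 0) .nil)))) .nil)) 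
(.lf (nat_lit 27953) (.g (nat_lit 1397) (.e (nat_lit 1199) (nat_lit 88) (.e (nat_lit 65610) (nat_lit 10) (.e (nat_lit 344169) (nat_lit 40) (.e (nat_lit 671760) (nat_lit 4) (.e (nat_lit 65604) (nat_lit 9) .nil))))) .nil)))) (.nd (nat_lit 4) (.nd (nat_lit 5) 
(.lf (nat_lit 27913) (.g (nat_lit 1965) (.e (nat_lit 1199) (nat_lit 88) (.e (nat_lit 65610) (nat_lit 10) (.e (nat_lit 344168) (nat_lit 40) (.e (nat_lit 671764) (nat_lit 6) (.e (nat_lit 81949) (nat_lit 21) (.e (nat_lit 57872) (nat_lit 264) .nil)))))) (.g (nat_lit 5) .nil .nil))) 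
(.lf (nat_lit 27945) (.g (nat_lit 2625) (.e (nat_lit 1199) (nat_lit 88) (.e (nat_lit 65610) (nat_lit 10) (.e (nat_lit 344169) (nat_lit 40) (.e (nat_lit 671748) (nat_lit 0) (.e (nat_lit 1595) (nat_lit 111) (.e (nat_lit 368384) (nat_lit 0) (.e (nat_lit 5906) (nat_lit 320) .nil))))))) (.g (nat_lit 5) .nil .nil)))) (.nd (nat_lit 5) 
(.lf (nat_lit 27929) (.g (nat_lit 1947) (.e (nat_lit 1199) (nat_lit 88) (.e (nat_lit 65610) (nat_lit 10) (.e (nat_lit 344169) (nat_lit 40) (.e (nat_lit 671747) (nat_lit 0) (.e (nat_lit 1595) (nat_lit 111) (.e (nat_lit 368384) (nat_lit 0) (.e (nat_lit 5906) (nat_lit 320) .nil))))))) (.g (nat_lit 4) .nil .nil))) 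
(.lf (nat_lit 27961) (.g (nat_lit 4006) (.e (nat_lit 1199) (nat_lit 88) (.e (nat_lit 65610) (nat_lit 10) (.e (nat_lit 344169) (nat_lit 40) (.e (nat_lit 671762) (nat_lit 4) (.e (nat_lit 65598) (nat_lit 9) (.e (nat_lit 335997) (nat_lit 1) (.e (nat_lit 57872) (nat_lit 264) .nil))))))) (.g (nat_lit 0) .nil .nil)))))) (.nd (nat_lit 3) (.nd (nat_lit 4) (.nd (nat_lit 5) 
(.lf (nat_lit 27909) (.g (nat_lit 2482) (.e (nat_lit 1199) (nat_lit 88) (.e (nat_lit 65610) (nat_lit 10) (.e (nat_lit 344168) (nat_lit 40) (.e (nat_lit 671764) (nat_lit 6) (.e (nat_lit 81948) (nat_lit 21) (.e (nat_lit 57870) (nat_lit 264) .nil)))))) (.g (nat_lit 0) .nil .nil))) 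
(.lf (nat_lit 27941) (.g (nat_lit 1862) (.e (nat_lit 1199) (nat_lit 88) (.e (nat_lit 65610) (nat_lit 10) (.e (nat_lit 344169) (nat_lit 40) (.e (nat_lit 671748) (nat_lit 0) (.e (nat_lit 1592) (nat_lit 111) .nil))))) .nil))) (.nd (nat_lit 5) 
(.lf (nat_lit 27925) (.g (nat_lit 2388) (.e (nat_lit 1199) (nat_lit 88) (.e (nat_lit 65610) (nat_lit 10) (.e (nat_lit 344169) (nat_lit 40) (.e (nat_lit 671747) (nat_lit 0) (.e (nat_lit 1589) (nat_lit 111) (.e (nat_lit 360453) (nat_lit 0) (.e (nat_lit 5907) (nat_lit 320) .nil))))))) (.g (nat_lit 5) .nil .nil))) 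
(.lf (nat_lit 27957) (.g (nat_lit 3301) (.e (nat_lit 1199) (nat_lit 88) (.e (nat_lit 65610) (nat_lit 10) (.e (nat_lit 344169) (nat_lit 40) (.e (nat_lit 671761) (nat_lit 4) (.e (nat_lit 65610) (nat_lit 10) (.e (nat_lit 344097) (nat_lit 18) (.e (nat_lit 5906) (nat_lit 320) .nil))))))) (.g (nat_lit 6) .nil .nil))))) (.nd (nat_lit 4) (.nd (nat_lit 5) 
(.lf (nat_lit 27917) (.g (nat_lit 367) (.e (nat_lit 1199) (nat_lit 88) (.e (nat_lit 65610) (nat_lit 10) (.e (nat_lit 344169) (nat_lit 40) .nil))) .nil)) 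
(.lf (nat_lit 27949) (.g (nat_lit 2092) (.e (nat_lit 1199) (nat_lit 88) (.e (nat_lit 65610) (nat_lit 10) (.e (nat_lit 344169) (nat_lit 40) (.e (nat_lit 671748) (nat_lit 0) (.e (nat_lit 1599) (nat_lit 111) (.e (nat_lit 360452) (nat_lit 0) (.e (nat_lit 5907) (nat_lit 320) .nil))))))) (.g (nat_lit 4) .nil .nil)))) (.nd (nat_lit 5) 
(.lf (nat_lit 27933) (.g (nat_lit 1845) (.e (nat_lit 1199) (nat_lit 88) (.e (nat_lit 65610) (nat_lit 10) (.e (nat_lit 344169) (nat_lit 40) (.e (nat_lit 671748) (nat_lit 0) (.e (nat_lit 1562) (nat_lit 110) (.e (nat_lit 352309) (nat_lit 21) (.e (nat_lit 57870) (nat_lit 264) .nil))))))) (.g (nat_lit 4) .nil .nil))) 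
(.lf (nat_lit 27965) (.g (nat_lit 4179) (.e (nat_lit 1199) (nat_lit 88) (.e (nat_lit 65610) (nat_lit 10) (.e (nat_lit 344169) (nat_lit 40) (.e (nat_lit 671762) (nat_lit 4) (.e (nat_lit 65610) (nat_lit 10) (.e (nat_lit 344097) (nat_lit 18) (.e (nat_lit 5906) (nat_lit 320) .nil))))))) (.g (nat_lit 0) .nil .nil))))))) (.nd (nat_lit 2) (.nd (nat_lit 3) (.nd (nat_lit 4) (.nd (nat_lit 5) 
(.lf (nat_lit 27907) (.g (nat_lit 3934) (.e (nat_lit 1199) (nat_lit 88) (.e (nat_lit 65610) (nat_lit 10) (.e (nat_lit 344168) (nat_lit 40) (.e (nat_lit 671762) (nat_lit 4) (.e (nat_lit 65619) (nat_lit 10) (.e (nat_lit 344097) (nat_lit 18) (.e (nat_lit 5907) (nat_lit 320) .nil))))))) (.g (nat_lit 0) .nil .nil))) 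
(.lf (nat_lit 27939) (.g (nat_lit 1762) (.e (nat_lit 1199) (nat_lit 88) (.e (nat_lit 65610) (nat_lit 10) (.e (nat_lit 344169) (nat_lit 40) (.e (nat_lit 671748) (nat_lit 0) (.e (nat_lit 1589) (nat_lit 111) .nil))))) .nil))) (.nd (nat_lit 5) 
(.lf (nat_lit 27923) (.g (nat_lit 2222) (.e (nat_lit 1199) (nat_lit 88) (.e (nat_lit 65610) (nat_lit 10) (.e (nat_lit 344169) (nat_lit 40) (.e (nat_lit 671747) (nat_lit 0) (.e (nat_lit 1586) (nat_lit 111) (.e (nat_lit 368384) (nat_lit 0) (.e (nat_lit 5905) (nat_lit 320) .nil))))))) (.g (nat_lit 5) .nil .nil))) 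
(.lf (nat_lit 27955) (.g (nat_lit 1641) (.e (nat_lit 1199) (nat_lit 88) (.e (nat_lit 65610) (nat_lit 10) (.e (nat_lit 344169) (nat_lit 40) (.e (nat_lit 671761) (nat_lit 4) (.e (nat_lit 65604) (nat_lit 9) (.e (nat_lit 335997) (nat_lit 1) (.e (nat_lit 57870) (nat_lit 264) .nil))))))) (.g (nat_lit 4) .nil .nil))))) (.nd (nat_lit 4) (.nd (nat_lit 5) 
(.lf (nat_lit 27915) (.g (nat_lit 2318) (.e (nat_lit 1199) (nat_lit 88) (.e (nat_lit 65610) (nat_lit 10) (.e (nat_lit 344168) (nat_lit 40) (.e (nat_lit 671764) (nat_lit 6) (.e (nat_lit 81950) (nat_lit 21) (.e (nat_lit 57871) (nat_lit 264) .nil)))))) (.g (nat_lit 6) .nil .nil))) 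
(.lf (nat_lit 27947) (.g (nat_lit 2453) (.e (nat_lit 1199) (nat_lit 88) (.e (nat_lit 65610) (nat_lit 10) (.e (nat_lit 344169) (nat_lit 40) (.e (nat_lit 671748) (nat_lit 0) (.e (nat_lit 1598) (nat_lit 111) (.e (nat_lit 368384) (nat_lit 0) (.e (nat_lit 5906) (nat_lit 320) .nil))))))) (.g (nat_lit 5) .nil .nil)))) (.nd (nat_lit 5) 
(.lf (nat_lit 27931) (.g (nat_lit 1739) (.e (nat_lit 1199) (nat_lit 88) (.e (nat_lit 65610) (nat_lit 10) (.e (nat_lit 344169) (nat_lit 40) (.e (nat_lit 671747) (nat_lit 0) (.e (nat_lit 1598) (nat_lit 111) (.e (nat_lit 368384) (nat_lit 0) (.e (nat_lit 5902) (nat_lit 320) .nil))))))) (.g (nat_lit 4) .nil .nil))) 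
(.lf (nat_lit 27963) (.g (nat_lit 3557) (.e (nat_lit 1199) (nat_lit 88) (.e (nat_lit 65610) (nat_lit 10) (.e (nat_lit 344169) (nat_lit 40) (.e (nat_lit 671762) (nat_lit 4) (.e (nat_lit 65604) (nat_lit 9) (.e (nat_lit 335997) (nat_lit 1) (.e (nat_lit 57871) (nat_lit 264) .nil))))))) (.g (nat_lit 7) .nil .nil)))))) (.nd (nat_lit 3) (.nd (nat_lit 4) (.nd (nat_lit 5) 
(.lf (nat_lit 27911) (.g (nat_lit 2722) (.e (nat_lit 1199) (nat_lit 88) (.e (nat_lit 65610) (nat_lit 10) (.e (nat_lit 344168) (nat_lit 40) (.e (nat_lit 671764) (nat_lit 6) (.e (nat_lit 81948) (nat_lit 21) (.e (nat_lit 57872) (nat_lit 264) .nil)))))) (.g (nat_lit 0) .nil .nil))) 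
(.lf (nat_lit 27943) (.g (nat_lit 1737) (.e (nat_lit 1199) (nat_lit 88) (.e (nat_lit 65610) (nat_lit 10) (.e (nat_lit 344169) (nat_lit 40) (.e (nat_lit 671748) (nat_lit 0) (.e (nat_lit 1595) (nat_lit 111) .nil))))) .nil))) (.nd (nat_lit 5) 
(.lf (nat_lit 27927) (.g (nat_lit 3664) (.e (nat_lit 1199) (nat_lit 88) (.e (nat_lit 65610) (nat_lit 10) (.e (nat_lit 344169) (nat_lit 40) (.e (nat_lit 671747) (nat_lit 0) (.e (nat_lit 1595) (nat_lit 111) (.e (nat_lit 360453) (nat_lit 0) (.e (nat_lit 5907) (nat_lit 320) .nil))))))) (.g (nat_lit 0) .nil .nil))) 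
(.lf (nat_lit 27959) (.g (nat_lit 4019) (.e (nat_lit 1199) (nat_lit 88) (.e (nat_lit 65610) (nat_lit 10) (.e (nat_lit 344169) (nat_lit 40) (.e (nat_lit 671762) (nat_lit 4) (.e (nat_lit 65598) (nat_lit 9) (.e (nat_lit 335997) (nat_lit 1) (.e (nat_lit 57870) (nat_lit 264) .nil))))))) (.g (nat_lit 0) .nil .nil))))) (.nd (nat_lit 4) (.nd (nat_lit 5) 
(.lf (nat_lit 27919) (.g (nat_lit 990) (.e (nat_lit 1199) (nat_lit 88) (.e (nat_lit 65610) (nat_lit 10) (.e (nat_lit 344169) (nat_lit 40) (.e (nat_lit 671746) (nat_lit 0) .nil)))) .nil)) 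
(.lf (nat_lit 27951) (.g (nat_lit 1930) (.e (nat_lit 1199) (nat_lit 88) (.e (nat_lit 65610) (nat_lit 10) (.e (nat_lit 344169) (nat_lit 40) (.e (nat_lit 671751) (nat_lit 0) (.e (nat_lit 1524) (nat_lit 108) (.e (nat_lit 336186) (nat_lit 11) (.e (nat_lit 368662) (nat_lit 18) (.e (nat_lit 5906) (nat_lit 320) .nil)))))))) (.g (nat_lit 4) .nil .nil)))) (.nd (nat_lit 5) 
(.lf (nat_lit 27935) (.g (nat_lit 2317) (.e (nat_lit 1199) (nat_lit 88) (.e (nat_lit 65610) (nat_lit 10) (.e (nat_lit 344169) (nat_lit 40) (.e (nat_lit 671748) (nat_lit 0) (.e (nat_lit 1572) (nat_lit 110) (.e (nat_lit 352309) (nat_lit 21) (.e (nat_lit 57872) (nat_lit 264) .nil))))))) (.g (nat_lit 4) .nil .nil))) 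
(.lf (nat_lit 27967) (.g (nat_lit 1800) (.e (nat_lit 1199) (nat_lit 88) (.e (nat_lit 65610) (nat_lit 10) (.e (nat_lit 344169) (nat_lit 40) (.e (nat_lit 671762) (nat_lit 4) (.e (nat_lit 65617) (nat_lit 10) .nil))))) .nil))))))))

noncomputable def tv386 : DT := (.nd (nat_lit 0) (.nd (nat_lit 1) (.nd (nat_lit 2) (.nd (nat_lit 3) (.nd (nat_lit 4) (.nd (nat_lit 5) 
(.lf (nat_lit 27968) (.g (nat_lit 2762) (.e (nat_lit 1199) (nat_lit 88) (.e (nat_lit 65610) (nat_lit 10) (.e (nat_lit 344169) (nat_lit 40) (.e (nat_lit 671762) (nat_lit 4) (.e (nat_lit 65619) (nat_lit 10) (.e (nat_lit 344090) (nat_lit 18) (.e (nat_lit 5896) (nat_lit 320) .nil))))))) (.g (nat_lit 5) .nil .nil))) 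
(.lf (nat_lit 28000) (.g (nat_lit 2210) (.e (nat_lit 1199) (nat_lit 88) (.e (nat_lit 65617) (nat_lit 10) (.e (nat_lit 344096) (nat_lit 18) (.e (nat_lit 7125) (nat_lit 382) (.e (nat_lit 1201) (nat_lit 88) (.e (nat_lit 65617) (nat_lit 10) (.e (nat_lit 344096) (nat_lit 18) (.e (nat_lit 7236) (nat_lit 382) .nil)))))))) (.g (nat_lit 4) .nil .nil)))) (.nd (nat_lit 5) 
(.lf (nat_lit 27984) (.g (nat_lit 523) (.e (nat_lit 1199) (nat_lit 88) (.e (nat_lit 65617) (nat_lit 10) (.e (nat_lit 344087) (nat_lit 18) .nil))) .nil)) 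
(.lf (nat_lit 28016) (.g (nat_lit 2786) (.e (nat_lit 1199) (nat_lit 88) (.e (nat_lit 65617) (nat_lit 10) (.e (nat_lit 344130) (nat_lit 26) (.e (nat_lit 557119) (nat_lit 18) (.e (nat_lit 2798) (nat_lit 180) (.e (nat_lit 303133) (nat_lit 9) (.e (nat_lit 426412) (nat_lit 15) (.e (nat_lit 1017) (nat_lit 81) (.e (nat_lit 4602) (nat_lit 269) .nil))))))))) (.g (nat_lit 5) .nil .nil))))) 
(.nd (nat_lit 4) (.nd (nat_lit 5) 
(.lf (nat_lit 27976) (.g (nat_lit 1750) (.e (nat_lit 1199) (nat_lit 88) (.e (nat_lit 65610) (nat_lit 10) (.e (nat_lit 344169) (nat_lit 40) (.e (nat_lit 671764) (nat_lit 6) (.e (nat_lit 81949) (nat_lit 21) (.e (nat_lit 57871) (nat_lit 264) .nil)))))) (.g (nat_lit 4) .nil .nil))) 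
(.lf (nat_lit 28008) (.g (nat_lit 2097) (.e (nat_lit 1199) (nat_lit 88) (.e (nat_lit 65617) (nat_lit 10) (.e (nat_lit 344130) (nat_lit 26) (.e (nat_lit 557084) (nat_lit 10) (.e (nat_lit 8362) (nat_lit 89) (.e (nat_lit 720956) (nat_lit 25) (.e (nat_lit 114711) (nat_lit 21) (.e (nat_lit 57870) (nat_lit 264) .nil)))))))) (.g (nat_lit 4) .nil .nil)))) (.nd (nat_lit 5) 
(.lf (nat_lit 27992) (.g (nat_lit 1983) (.e (nat_lit 1199) (nat_lit 88) (.e (nat_lit 65617) (nat_lit 10) (.e (nat_lit 344091) (nat_lit 18) (.e (nat_lit 7265) (nat_lit 384) (.e (nat_lit 57426) (nat_lit 15) (.e (nat_lit 368384) (nat_lit 0) (.e (nat_lit 7236) (nat_lit 382) .nil))))))) (.g (nat_lit 4) .nil .nil))) 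
(.lf (nat_lit 28024) (.g (nat_lit 1999) (.e (nat_lit 1199) (nat_lit 88) (.e (nat_lit 65617) (nat_lit 10) (.e (nat_lit 344133) (nat_lit 26) (.e (nat_lit 557084) (nat_lit 10) .nil)))) .nil))))) (.nd (nat_lit 3) (.nd (nat_lit 4) (.nd (nat_lit 5) 
(.lf (nat_lit 27972) (.g (nat_lit 2609) (.e (nat_lit 1199) (nat_lit 88) (.e (nat_lit 65610) (nat_lit 10) (.e (nat_lit 344169) (nat_lit 40) (.e (nat_lit 671764) (nat_lit 6) (.e (nat_lit 81948) (nat_lit 21) (.e (nat_lit 57870) (nat_lit 264) .nil)))))) (.g (nat_lit 0) .nil .nil))) 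
(.lf (nat_lit 28004) (.g (nat_lit 1373) (.e (nat_lit 1199) (nat_lit 88) (.e (nat_lit 65617) (nat_lit 10) (.e (nat_lit 344097) (nat_lit 18) (.e (nat_lit 5906) (nat_lit 320) .nil)))) .nil))) (.nd (nat_lit 5) 
(.lf (nat_lit 27988) (.g (nat_lit 2300) (.e (nat_lit 1199) (nat_lit 88) (.e (nat_lit 65617) (nat_lit 10) (.e (nat_lit 344091) (nat_lit 18) (.e (nat_lit 7124) (nat_lit 382) (.e (nat_lit 1201) (nat_lit 88) (.e (nat_lit 65610) (nat_lit 10) (.e (nat_lit 344090) (nat_lit 18) (.e (nat_lit 7236) (nat_lit 382) .nil)))))))) (.g (nat_lit 5) .nil .nil))) 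
(.lf (nat_lit 28020) (.g (nat_lit 1953) (.e (nat_lit 1199) (nat_lit 88) (.e (nat_lit 65617) (nat_lit 10) (.e (nat_lit 344130) (nat_lit 26) (.e (nat_lit 557119) (nat_lit 18) (.e (nat_lit 2808) (nat_lit 180) (.e (nat_lit 303132) (nat_lit 9) (.e (nat_lit 426109) (nat_lit 1) (.e (nat_lit 164195) (nat_lit 158) .nil)))))))) (.g (nat_lit 4) .nil .nil))))) (.nd (nat_lit 4) (.nd (nat_lit 5) 
(.lf (nat_lit 27980) (.g (nat_lit 2970) (.e (nat_lit 1199) (nat_lit 88) (.e (nat_lit 65610) (nat_lit 10) (.e (nat_lit 344169) (nat_lit 40) (.e (nat_lit 671764) (nat_lit 6) (.e (nat_lit 81950) (nat_lit 21) (.e (nat_lit 57872) (nat_lit 264) .nil)))))) (.g (nat_lit 0) .nil .nil))) 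
(.lf (nat_lit 28012) (.g (nat_lit 3405) (.e (nat_lit 1199) (nat_lit 88) (.e (nat_lit 65617) (nat_lit 10) (.e (nat_lit 344130) (nat_lit 26) (.e (nat_lit 557119) (nat_lit 18) (.e (nat_lit 2798) (nat_lit 180) (.e (nat_lit 303132) (nat_lit 9) (.e (nat_lit 426109) (nat_lit 1) (.e (nat_lit 164195) (nat_lit 158) .nil)))))))) (.g (nat_lit 6) .nil .nil)))) (.nd (nat_lit 5) 
(.lf (nat_lit 27996) (.g (nat_lit 2413) (.e (nat_lit 1199) (nat_lit 88) (.e (nat_lit 65617) (nat_lit 10) (.e (nat_lit 344096) (nat_lit 18) (.e (nat_lit 7124) (nat_lit 382) (.e (nat_lit 1201) (nat_lit 88) (.e (nat_lit 65610) (nat_lit 10) (.e (nat_lit 344090) (nat_lit 18) (.e (nat_lit 7236) (nat_lit 382) .nil)))))))) (.g (nat_lit 5) .nil .nil))) 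
(.lf (nat_lit 28028) (.g (nat_lit 4676) (.e (nat_lit 1199) (nat_lit 88) (.e (nat_lit 65617) (nat_lit 10) (.e (nat_lit 344133) (nat_lit 26) (.e (nat_lit 557119) (nat_lit 18) (.e (nat_lit 2798) (nat_lit 180) (.e (nat_lit 303132) (nat_lit 9) (.e (nat_lit 426109) (nat_lit 1) (.e (nat_lit 164196) (nat_lit 158) .nil)))))))) (.g (nat_lit 7) .nil .nil))))))) 
(.nd (nat_lit 2) (.nd (nat_lit 3) (.nd (nat_lit 4) (.nd (nat_lit 5) 
(.lf (nat_lit 27970) (.g (nat_lit 4239) (.e (nat_lit 1199) (nat_lit 88) (.e (nat_lit 65610) (nat_lit 10) (.e (nat_lit 344169) (nat_lit 40) (.e (nat_lit 671762) (nat_lit 4) (.e (nat_lit 65619) (nat_lit 10) (.e (nat_lit 344097) (nat_lit 18) (.e (nat_lit 5907) (nat_lit 320) .nil))))))) (.g (nat_lit 0) .nil .nil))) 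
(.lf (nat_lit 28002) (.g (nat_lit 1843) (.e (nat_lit 1199) (nat_lit 88) (.e (nat_lit 65617) (nat_lit 10) (.e (nat_lit 344096) (nat_lit 18) (.e (nat_lit 7265) (nat_lit 384) (.e (nat_lit 57412) (nat_lit 12) (.e (nat_lit 336176) (nat_lit 10) (.e (nat_lit 344091) (nat_lit 18) (.e (nat_lit 7236) (nat_lit 382) .nil)))))))) (.g (nat_lit 4) .nil .nil)))) (.nd (nat_lit 5) 
(.lf (nat_lit 27986) (.g (nat_lit 2146) (.e (nat_lit 1199) (nat_lit 88) (.e (nat_lit 65617) (nat_lit 10) (.e (nat_lit 344091) (nat_lit 18) (.e (nat_lit 7122) (nat_lit 382) (.e (nat_lit 1201) (nat_lit 88) (.e (nat_lit 65610) (nat_lit 10) (.e (nat_lit 344090) (nat_lit 18) (.e (nat_lit 7236) (nat_lit 382) .nil)))))))) (.g (nat_lit 4) .nil .nil))) 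
(.lf (nat_lit 28018) (.g (nat_lit 2928) (.e (nat_lit 1199) (nat_lit 88) (.e (nat_lit 65617) (nat_lit 10) (.e (nat_lit 344130) (nat_lit 26) (.e (nat_lit 557119) (nat_lit 18) (.e (nat_lit 2798) (nat_lit 180) (.e (nat_lit 303133) (nat_lit 9) (.e (nat_lit 426412) (nat_lit 15) (.e (nat_lit 1039) (nat_lit 81) (.e (nat_lit 4602) (nat_lit 269) .nil))))))))) (.g (nat_lit 5) .nil .nil))))) 
(.nd (nat_lit 4) (.nd (nat_lit 5) 
(.lf (nat_lit 27978) (.g (nat_lit 2706) (.e (nat_lit 1199) (nat_lit 88) (.e (nat_lit 65610) (nat_lit 10) (.e (nat_lit 344169) (nat_lit 40) (.e (nat_lit 671764) (nat_lit 6) (.e (nat_lit 81950) (nat_lit 21) (.e (nat_lit 57870) (nat_lit 264) .nil)))))) (.g (nat_lit 0) .nil .nil))) 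
(.lf (nat_lit 28010) (.g (nat_lit 1987) (.e (nat_lit 1199) (nat_lit 88) (.e (nat_lit 65617) (nat_lit 10) (.e (nat_lit 344130) (nat_lit 26) (.e (nat_lit 557084) (nat_lit 10) (.e (nat_lit 8363) (nat_lit 89) .nil))))) .nil))) (.nd (nat_lit 5) 
(.lf (nat_lit 27994) (.g (nat_lit 2530) (.e (nat_lit 1199) (nat_lit 88) (.e (nat_lit 65617) (nat_lit 10) (.e (nat_lit 344096) (nat_lit 18) (.e (nat_lit 7122) (nat_lit 382) (.e (nat_lit 1201) (nat_lit 88) (.e (nat_lit 65617) (nat_lit 10) (.e (nat_lit 344091) (nat_lit 18) (.e (nat_lit 7236) (nat_lit 382) .nil)))))))) (.g (nat_lit 4) .nil .nil))) 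
(.lf (nat_lit 28026) (.g (nat_lit 2276) (.e (nat_lit 1199) (nat_lit 88) (.e (nat_lit 65617) (nat_lit 10) (.e (nat_lit 344133) (nat_lit 26) (.e (nat_lit 557119) (nat_lit 18) (.e (nat_lit 2798) (nat_lit 180) (.e (nat_lit 303131) (nat_lit 9) (.e (nat_lit 426109) (nat_lit 1) (.e (nat_lit 164196) (nat_lit 158) .nil)))))))) (.g (nat_lit 4) .nil .nil)))))) 
(.nd (nat_lit 3) (.nd (nat_lit 4) (.nd (nat_lit 5) 
(.lf (nat_lit 27974) (.g (nat_lit 2843) (.e (nat_lit 1199) (nat_lit 88) (.e (nat_lit 65610) (nat_lit 10) (.e (nat_lit 344169) (nat_lit 40) (.e (nat_lit 671764) (nat_lit 6) (.e (nat_lit 81948) (nat_lit 21) (.e (nat_lit 57872) (nat_lit 264) .nil)))))) (.g (nat_lit 0) .nil .nil))) 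
(.lf (nat_lit 28006) (.g (nat_lit 1122) (.e (nat_lit 1199) (nat_lit 88) (.e (nat_lit 65617) (nat_lit 10) (.e (nat_lit 344130) (nat_lit 26) (.e (nat_lit 557084) (nat_lit 10) .nil)))) .nil))) (.nd (nat_lit 5) 
(.lf (nat_lit 27990) (.g (nat_lit 2445) (.e (nat_lit 1199) (nat_lit 88) (.e (nat_lit 65617) (nat_lit 10) (.e (nat_lit 344091) (nat_lit 18) (.e (nat_lit 7125) (nat_lit 382) (.e (nat_lit 1201) (nat_lit 88) (.e (nat_lit 65617) (nat_lit 10) (.e (nat_lit 344091) (nat_lit 18) (.e (nat_lit 7236) (nat_lit 382) .nil)))))))) (.g (nat_lit 5) .nil .nil))) 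
(.lf (nat_lit 28022) (.g (nat_lit 2078) (.e (nat_lit 1199) (nat_lit 88) (.e (nat_lit 65617) (nat_lit 10) (.e (nat_lit 344130) (nat_lit 26) (.e (nat_lit 557119) (nat_lit 18) (.e (nat_lit 2808) (nat_lit 180) (.e (nat_lit 303140) (nat_lit 10) (.e (nat_lit 434209) (nat_lit 18) (.e (nat_lit 6792) (nat_lit 365) .nil)))))))) (.g (nat_lit 4) .nil .nil))))) (.nd (nat_lit 4) (.nd (nat_lit 5) 
(.lf (nat_lit 27982) (.g (nat_lit 2724) (.e (nat_lit 1199) (nat_lit 88) (.e (nat_lit 65610) (nat_lit 10) (.e (nat_lit 344169) (nat_lit 40) (.e (nat_lit 671766) (nat_lit 8) (.e (nat_lit 131116) (nat_lit 9) (.e (nat_lit 335986) (nat_lit 1) (.e (nat_lit 57873) (nat_lit 264) .nil))))))) (.g (nat_lit 7) .nil .nil))) 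
(.lf (nat_lit 28014) (.g (nat_lit 2325) (.e (nat_lit 1199) (nat_lit 88) (.e (nat_lit 65617) (nat_lit 10) (.e (nat_lit 344130) (nat_lit 26) (.e (nat_lit 557119) (nat_lit 18) (.e (nat_lit 2798) (nat_lit 180) (.e (nat_lit 303133) (nat_lit 9) (.e (nat_lit 426104) (nat_lit 1) (.e (nat_lit 164195) (nat_lit 158) .nil)))))))) (.g (nat_lit 5) .nil .nil)))) (.nd (nat_lit 5) 
(.lf (nat_lit 27998) (.g (nat_lit 2663) (.e (nat_lit 1199) (nat_lit 88) (.e (nat_lit 65617) (nat_lit 10) (.e (nat_lit 344096) (nat_lit 18) (.e (nat_lit 7125) (nat_lit 382) (.e (nat_lit 1201) (nat_lit 88) (.e (nat_lit 65610) (nat_lit 10) (.e (nat_lit 344090) (nat_lit 18) (.e (nat_lit 7236) (nat_lit 382) .nil)))))))) (.g (nat_lit 5) .nil .nil))) 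
(.lf (nat_lit 28030) (.g (nat_lit 2509) (.e (nat_lit 1199) (nat_lit 88) (.e (nat_lit 65617) (nat_lit 10) (.e (nat_lit 344133) (nat_lit 26) (.e (nat_lit 557119) (nat_lit 18) (.e (nat_lit 2798) (nat_lit 180) (.e (nat_lit 303133) (nat_lit 9) (.e (nat_lit 426109) (nat_lit 1) (.e (nat_lit 164195) (nat_lit 158) .nil)))))))) (.g (nat_lit 4) .nil .nil)))))))) 
(.nd (nat_lit 1) (.nd (nat_lit 2) (.nd (nat_lit 3) (.nd (nat_lit 4) (.nd (nat_lit 5) 
(.lf (nat_lit 27969) (.g (nat_lit 4007) (.e (nat_lit 1199) (nat_lit 88) (.e (nat_lit 65610) (nat_lit 10) (.e (nat_lit 344169) (nat_lit 40) (.e (nat_lit 671762) (nat_lit 4) (.e (nat_lit 65619) (nat_lit 10) (.e (nat_lit 344097) (nat_lit 18) (.e (nat_lit 5906) (nat_lit 320) .nil))))))) (.g (nat_lit 0) .nil .nil))) 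
(.lf (nat_lit 28001) (.g (nat_lit 2012) (.e (nat_lit 1199) (nat_lit 88) (.e (nat_lit 65617) (nat_lit 10) (.e (nat_lit 344096) (nat_lit 18) (.e (nat_lit 7261) (nat_lit 384) (.e (nat_lit 57427) (nat_lit 15) (.e (nat_lit 368384) (nat_lit 0) (.e (nat_lit 7236) (nat_lit 382) .nil))))))) (.g (nat_lit 4) .nil .nil)))) (.nd (nat_lit 5) 
(.lf (nat_lit 27985) (.g (nat_lit 1120) (.e (nat_lit 1199) (nat_lit 88) (.e (nat_lit 65617) (nat_lit 10) (.e (nat_lit 344091) (nat_lit 18) (.e (nat_lit 5896) (nat_lit 320) .nil)))) .nil)) 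
(.lf (nat_lit 28017) (.g (nat_lit 2224) (.e (nat_lit 1199) (nat_lit 88) (.e (nat_lit 65617) (nat_lit 10) (.e (nat_lit 344130) (nat_lit 26) (.e (nat_lit 557119) (nat_lit 18) (.e (nat_lit 2798) (nat_lit 180) (.e (nat_lit 303133) (nat_lit 9) (.e (nat_lit 426412) (nat_lit 15) (.e (nat_lit 1019) (nat_lit 81) (.e (nat_lit 4602) (nat_lit 269) .nil))))))))) (.g (nat_lit 4) .nil .nil))))) 
(.nd (nat_lit 4) (.nd (nat_lit 5) 
(.lf (nat_lit 27977) (.g (nat_lit 2026) (.e (nat_lit 1199) (nat_lit 88) (.e (nat_lit 65610) (nat_lit 10) (.e (nat_lit 344169) (nat_lit 40) (.e (nat_lit 671764) (nat_lit 6) (.e (nat_lit 81949) (nat_lit 21) (.e (nat_lit 57872) (nat_lit 264) .nil)))))) (.g (nat_lit 5) .nil .nil))) 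
(.lf (nat_lit 28009) (.g (nat_lit 2029) (.e (nat_lit 1199) (nat_lit 88) (.e (nat_lit 65617) (nat_lit 10) (.e (nat_lit 344130) (nat_lit 26) (.e (nat_lit 557084) (nat_lit 10) (.e (nat_lit 8362) (nat_lit 89) (.e (nat_lit 720956) (nat_lit 25) (.e (nat_lit 114711) (nat_lit 21) (.e (nat_lit 57872) (nat_lit 264) .nil)))))))) (.g (nat_lit 4) .nil .nil)))) (.nd (nat_lit 5) 
(.lf (nat_lit 27993) (.g (nat_lit 2631) (.e (nat_lit 1199) (nat_lit 88) (.e (nat_lit 65617) (nat_lit 10) (.e (nat_lit 344096) (nat_lit 18) (.e (nat_lit 7122) (nat_lit 382) (.e (nat_lit 1201) (nat_lit 88) (.e (nat_lit 65610) (nat_lit 10) (.e (nat_lit 344090) (nat_lit 18) (.e (nat_lit 7236) (nat_lit 382) .nil)))))))) (.g (nat_lit 4) .nil .nil))) 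
(.lf (nat_lit 28025) (.g (nat_lit 2375) (.e (nat_lit 1199) (nat_lit 88) (.e (nat_lit 65617) (nat_lit 10) (.e (nat_lit 344133) (nat_lit 26) (.e (nat_lit 557119) (nat_lit 18) (.e (nat_lit 2796) (nat_lit 180) .nil))))) .nil))))) (.nd (nat_lit 3) (.nd (nat_lit 4) (.nd (nat_lit 5) 
(.lf (nat_lit 27973) (.g (nat_lit 2338) (.e (nat_lit 1199) (nat_lit 88) (.e (nat_lit 65610) (nat_lit 10) (.e (nat_lit 344169) (nat_lit 40) (.e (nat_lit 671764) (nat_lit 6) (.e (nat_lit 81948) (nat_lit 21) (.e (nat_lit 57871) (nat_lit 264) .nil)))))) (.g (nat_lit 6) .nil .nil))) 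
(.lf (nat_lit 28005) (.g (nat_lit 1317) (.e (nat_lit 1199) (nat_lit 88) (.e (nat_lit 65617) (nat_lit 10) (.e (nat_lit 344097) (nat_lit 18) (.e (nat_lit 5907) (nat_lit 320) .nil)))) .nil))) (.nd (nat_lit 5) 
(.lf (nat_lit 27989) (.g (nat_lit 1821) (.e (nat_lit 1199) (nat_lit 88) (.e (nat_lit 65617) (nat_lit 10) (.e (nat_lit 344091) (nat_lit 18) (.e (nat_lit 7124) (nat_lit 382) (.e (nat_lit 1201) (nat_lit 88) (.e (nat_lit 65617) (nat_lit 10) (.e (nat_lit 344096) (nat_lit 18) (.e (nat_lit 7236) (nat_lit 382) .nil)))))))) (.g (nat_lit 4) .nil .nil))) 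
(.lf (nat_lit 28021) (.g (nat_lit 2876) (.e (nat_lit 1199) (nat_lit 88) (.e (nat_lit 65617) (nat_lit 10) (.e (nat_lit 344130) (nat_lit 26) (.e (nat_lit 557119) (nat_lit 18) (.e (nat_lit 2808) (nat_lit 180) (.e (nat_lit 303132) (nat_lit 9) (.e (nat_lit 426109) (nat_lit 1) (.e (nat_lit 164196) (nat_lit 158) .nil)))))))) (.g (nat_lit 5) .nil .nil))))) (.nd (nat_lit 4) (.nd (nat_lit 5) 
(.lf (nat_lit 27981) (.g (nat_lit 1540) (.e (nat_lit 1199) (nat_lit 88) (.e (nat_lit 65610) (nat_lit 10) (.e (nat_lit 344169) (nat_lit 40) (.e (nat_lit 671766) (nat_lit 8) (.e (nat_lit 131116) (nat_lit 9) (.e (nat_lit 335986) (nat_lit 1) (.e (nat_lit 57870) (nat_lit 264) .nil))))))) (.g (nat_lit 4) .nil .nil))) 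
(.lf (nat_lit 28013) (.g (nat_lit 4328) (.e (nat_lit 1199) (nat_lit 88) (.e (nat_lit 65617) (nat_lit 10) (.e (nat_lit 344130) (nat_lit 26) (.e (nat_lit 557119) (nat_lit 18) (.e (nat_lit 2798) (nat_lit 180) (.e (nat_lit 303132) (nat_lit 9) (.e (nat_lit 426109) (nat_lit 1) (.e (nat_lit 164196) (nat_lit 158) .nil)))))))) (.g (nat_lit 7) .nil .nil)))) (.nd (nat_lit 5) 
(.lf (nat_lit 27997) (.g (nat_lit 1924) (.e (nat_lit 1199) (nat_lit 88) (.e (nat_lit 65617) (nat_lit 10) (.e (nat_lit 344096) (nat_lit 18) (.e (nat_lit 7124) (nat_lit 382) (.e (nat_lit 1201) (nat_lit 88) (.e (nat_lit 65617) (nat_lit 10) (.e (nat_lit 344096) (nat_lit 18) (.e (nat_lit 7236) (nat_lit 382) .nil)))))))) (.g (nat_lit 4) .nil .nil))) 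
(.lf (nat_lit 28029) (.g (nat_lit 2603) (.e (nat_lit 1199) (nat_lit 88) (.e (nat_lit 65617) (nat_lit 10) (.e (nat_lit 344133) (nat_lit 26) (.e (nat_lit 557119) (nat_lit 18) (.e (nat_lit 2798) (nat_lit 180) (.e (nat_lit 303133) (nat_lit 9) (.e (nat_lit 426104) (nat_lit 1) (.e (nat_lit 164195) (nat_lit 158) .nil)))))))) (.g (nat_lit 4) .nil .nil))))))) 
(.nd (nat_lit 2) (.nd (nat_lit 3) (.nd (nat_lit 4) (.nd (nat_lit 5) 
(.lf (nat_lit 27971) (.g (nat_lit 2139) (.e (nat_lit 1199) (nat_lit 88) (.e (nat_lit 65610) (nat_lit 10) (.e (nat_lit 344169) (nat_lit 40) (.e (nat_lit 671762) (nat_lit 4) (.e (nat_lit 65620) (nat_lit 10) (.e (nat_lit 344097) (nat_lit 18) (.e (nat_lit 5906) (nat_lit 320) .nil))))))) (.g (nat_lit 4) .nil .nil))) 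
(.lf (nat_lit 28003) (.g (nat_lit 2109) (.e (nat_lit 1199) (nat_lit 88) (.e (nat_lit 65617) (nat_lit 10) (.e (nat_lit 344096) (nat_lit 18) (.e (nat_lit 7265) (nat_lit 384) (.e (nat_lit 57426) (nat_lit 15) (.e (nat_lit 368384) (nat_lit 0) (.e (nat_lit 7236) (nat_lit 382) .nil))))))) (.g (nat_lit 4) .nil .nil)))) (.nd (nat_lit 5) 
(.lf (nat_lit 27987) (.g (nat_lit 2039) (.e (nat_lit 1199) (nat_lit 88) (.e (nat_lit 65617) (nat_lit 10) (.e (nat_lit 344091) (nat_lit 18) (.e (nat_lit 7122) (nat_lit 382) (.e (nat_lit 1201) (nat_lit 88) (.e (nat_lit 65617) (nat_lit 10) (.e (nat_lit 344091) (nat_lit 18) (.e (nat_lit 7236) (nat_lit 382) .nil)))))))) (.g (nat_lit 4) .nil .nil))) 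
(.lf (nat_lit 28019) (.g (nat_lit 2157) (.e (nat_lit 1199) (nat_lit 88) (.e (nat_lit 65617) (nat_lit 10) (.e (nat_lit 344130) (nat_lit 26) (.e (nat_lit 557119) (nat_lit 18) (.e (nat_lit 2798) (nat_lit 180) (.e (nat_lit 303133) (nat_lit 9) (.e (nat_lit 426412) (nat_lit 15) (.e (nat_lit 1041) (nat_lit 81) (.e (nat_lit 4602) (nat_lit 269) .nil))))))))) (.g (nat_lit 4) .nil .nil))))) 
(.nd (nat_lit 4) (.nd (nat_lit 5) 
(.lf (nat_lit 27979) (.g (nat_lit 2446) (.e (nat_lit 1199) (nat_lit 88) (.e (nat_lit 65610) (nat_lit 10) (.e (nat_lit 344169) (nat_lit 40) (.e (nat_lit 671764) (nat_lit 6) (.e (nat_lit 81950) (nat_lit 21) (.e (nat_lit 57871) (nat_lit 264) .nil)))))) (.g (nat_lit 6) .nil .nil))) 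
(.lf (nat_lit 28011) (.g (nat_lit 2727) (.e (nat_lit 1199) (nat_lit 88) (.e (nat_lit 65617) (nat_lit 10) (.e (nat_lit 344130) (nat_lit 26) (.e (nat_lit 557090) (nat_lit 12) (.e (nat_lit 163993) (nat_lit 36) (.e (nat_lit 622638) (nat_lit 17) (.e (nat_lit 172061) (nat_lit 1) (.e (nat_lit 164196) (nat_lit 158) .nil)))))))) (.g (nat_lit 4) .nil .nil)))) (.nd (nat_lit 5) 
(.lf (nat_lit 27995) (.g (nat_lit 2226) (.e (nat_lit 1199) (nat_lit 88) (.e (nat_lit 65617) (nat_lit 10) (.e (nat_lit 344096) (nat_lit 18) (.e (nat_lit 7122) (nat_lit 382) (.e (nat_lit 1201) (nat_lit 88) (.e (nat_lit 65617) (nat_lit 10) (.e (nat_lit 344096) (nat_lit 18) (.e (nat_lit 7236) (nat_lit 382) .nil)))))))) (.g (nat_lit 4) .nil .nil))) 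
(.lf (nat_lit 28027) (.g (nat_lit 3685) (.e (nat_lit 1199) (nat_lit 88) (.e (nat_lit 65617) (nat_lit 10) (.e (nat_lit 344133) (nat_lit 26) (.e (nat_lit 557119) (nat_lit 18) (.e (nat_lit 2798) (nat_lit 180) (.e (nat_lit 303132) (nat_lit 9) (.e (nat_lit 426109) (nat_lit 1) (.e (nat_lit 164195) (nat_lit 158) .nil)))))))) (.g (nat_lit 6) .nil .nil)))))) 
(.nd (nat_lit 3) (.nd (nat_lit 4) (.nd (nat_lit 5) 
(.lf (nat_lit 27975) (.g (nat_lit 2903) (.e (nat_lit 1199) (nat_lit 88) (.e (nat_lit 65610) (nat_lit 10) (.e (nat_lit 344169) (nat_lit 40) (.e (nat_lit 671764) (nat_lit 6) (.e (nat_lit 81949) (nat_lit 21) (.e (nat_lit 57870) (nat_lit 264) .nil)))))) (.g (nat_lit 0) .nil .nil))) 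
(.lf (nat_lit 28007) (.g (nat_lit 1983) (.e (nat_lit 1199) (nat_lit 88) (.e (nat_lit 65617) (nat_lit 10) (.e (nat_lit 344130) (nat_lit 26) (.e (nat_lit 557084) (nat_lit 10) (.e (nat_lit 8361) (nat_lit 89) .nil))))) .nil))) (.nd (nat_lit 5) 
(.lf (nat_lit 27991) (.g (nat_lit 1889) (.e (nat_lit 1199) (nat_lit 88) (.e (nat_lit 65617) (nat_lit 10) (.e (nat_lit 344091) (nat_lit 18) (.e (nat_lit 7261) (nat_lit 384) (.e (nat_lit 57427) (nat_lit 15) (.e (nat_lit 368384) (nat_lit 0) (.e (nat_lit 7236) (nat_lit 382) .nil))))))) (.g (nat_lit 4) .nil .nil))) 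
(.lf (nat_lit 28023) (.g (nat_lit 1285) (.e (nat_lit 1199) (nat_lit 88) (.e (nat_lit 65617) (nat_lit 10) (.e (nat_lit 344132) (nat_lit 26) (.e (nat_lit 557118) (nat_lit 18) .nil)))) .nil)))) (.nd (nat_lit 4) (.nd (nat_lit 5) 
(.lf (nat_lit 27983) (.g (nat_lit 1334) (.e (nat_lit 1199) (nat_lit 88) (.e (nat_lit 65610) (nat_lit 10) (.e (nat_lit 344177) (nat_lit 43) (.e (nat_lit 770071) (nat_lit 8) .nil)))) .nil)) 
(.lf (nat_lit 28015) (.g (nat_lit 2231) (.e (nat_lit 1199) (nat_lit 88) (.e (nat_lit 65617) (nat_lit 10) (.e (nat_lit 344130) (nat_lit 26) (.e (nat_lit 557119) (nat_lit 18) (.e (nat_lit 2798) (nat_lit 180) (.e (nat_lit 303133) (nat_lit 9) (.e (nat_lit 426109) (nat_lit 1) (.e (nat_lit 164195) (nat_lit 158) .nil)))))))) (.g (nat_lit 4) .nil .nil)))) (.nd (nat_lit 5) 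
(.lf (nat_lit 27999) (.g (nat_lit 2513) (.e (nat_lit 1199) (nat_lit 88) (.e (nat_lit 65617) (nat_lit 10) (.e (nat_lit 344096) (nat_lit 18) (.e (nat_lit 7125) (nat_lit 382) (.e (nat_lit 1201) (nat_lit 88) (.e (nat_lit 65617) (nat_lit 10) (.e (nat_lit 344091) (nat_lit 18) (.e (nat_lit 7236) (nat_lit 382) .nil)))))))) (.g (nat_lit 5) .nil .nil))) 
(.lf (nat_lit 28031) (.g (nat_lit 3064) (.e (nat_lit 1199) (nat_lit 88) (.e (nat_lit 65617) (nat_lit 10) (.e (nat_lit 344133) (nat_lit 26) (.e (nat_lit 557119) (nat_lit 18) (.e (nat_lit 2798) (nat_lit 180) (.e (nat_lit 303133) (nat_lit 9) (.e (nat_lit 426412) (nat_lit 15) (.e (nat_lit 1017) (nat_lit 81) (.e (nat_lit 4602) (nat_lit 269) .nil))))))))) (.g (nat_lit 5) .nil .nil)))))))))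

noncomputable def tv387 : DT := (.nd (nat_lit 0) (.nd (nat_lit 1) (.nd (nat_lit 2) (.nd (nat_lit 3) (.nd (nat_lit 4) (.nd (nat_lit 5) 
(.lf (nat_lit 28032) (.g (nat_lit 2502) (.e (nat_lit 1199) (nat_lit 88) (.e (nat_lit 65617) (nat_lit 10) (.e (nat_lit 344133) (nat_lit 26) (.e (nat_lit 557119) (nat_lit 18) (.e (nat_lit 2798) (nat_lit 180) (.e (nat_lit 303133) (nat_lit 9) (.e (nat_lit 426412) (nat_lit 15) (.e (nat_lit 1019) (nat_lit 81) (.e (nat_lit 4602) (nat_lit 269) .nil))))))))) (.g (nat_lit 4) .nil .nil))) 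
(.lf (nat_lit 28064) (.g (nat_lit 3029) (.e (nat_lit 1199) (nat_lit 88) (.e (nat_lit 65617) (nat_lit 10) (.e (nat_lit 344168) (nat_lit 40) (.e (nat_lit 671747) (nat_lit 0) (.e (nat_lit 1598) (nat_lit 111) (.e (nat_lit 360452) (nat_lit 0) (.e (nat_lit 5907) (nat_lit 320) .nil))))))) (.g (nat_lit 6) .nil .nil)))) (.nd (nat_lit 5) 
(.lf (nat_lit 28048) (.g (nat_lit 3184) (.e (nat_lit 1199) (nat_lit 88) (.e (nat_lit 65617) (nat_lit 10) (.e (nat_lit 344156) (nat_lit 36) (.e (nat_lit 638998) (nat_lit 8) (.e (nat_lit 172120) (nat_lit 12) (.e (nat_lit 475155) (nat_lit 21) (.e (nat_lit 6318) (nat_lit 337) .nil))))))) (.g (nat_lit 5) .nil .nil))) 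
(.lf (nat_lit 28080) (.g (nat_lit 449) (.e (nat_lit 1199) (nat_lit 88) (.e (nat_lit 65617) (nat_lit 10) (.e (nat_lit 344169) (nat_lit 40) .nil))) .nil)))) (.nd (nat_lit 4) (.nd (nat_lit 5) 
(.lf (nat_lit 28040) (.g (nat_lit 608) (.e (nat_lit 1199) (nat_lit 88) (.e (nat_lit 65617) (nat_lit 10) (.e (nat_lit 344137) (nat_lit 29) .nil))) .nil)) 
(.lf (nat_lit 28072) (.g (nat_lit 3022) (.e (nat_lit 1199) (nat_lit 88) (.e (nat_lit 65617) (nat_lit 10) (.e (nat_lit 344168) (nat_lit 40) (.e (nat_lit 671762) (nat_lit 4) (.e (nat_lit 65610) (nat_lit 10) (.e (nat_lit 344097) (nat_lit 18) (.e (nat_lit 5906) (nat_lit 320) .nil))))))) (.g (nat_lit 6) .nil .nil)))) (.nd (nat_lit 5) 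
(.lf (nat_lit 28056) (.g (nat_lit 2075) (.e (nat_lit 1199) (nat_lit 88) (.e (nat_lit 65617) (nat_lit 10) (.e (nat_lit 344168) (nat_lit 40) (.e (nat_lit 671747) (nat_lit 0) (.e (nat_lit 1586) (nat_lit 111) (.e (nat_lit 368384) (nat_lit 0) (.e (nat_lit 5902) (nat_lit 320) .nil))))))) (.g (nat_lit 4) .nil .nil))) 
(.lf (nat_lit 28088) (.g (nat_lit 3631) (.e (nat_lit 1199) (nat_lit 88) (.e (nat_lit 65617) (nat_lit 10) (.e (nat_lit 344169) (nat_lit 40) (.e (nat_lit 671747) (nat_lit 0) (.e (nat_lit 1595) (nat_lit 111) (.e (nat_lit 360453) (nat_lit 0) (.e (nat_lit 5907) (nat_lit 320) .nil))))))) (.g (nat_lit 0) .nil .nil)))))) (.nd (nat_lit 3) (.nd (nat_lit 4) (.nd (nat_lit 5) 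
(.lf (nat_lit 28036) (.g (nat_lit 2212) (.e (nat_lit 1199) (nat_lit 88) (.e (nat_lit 65617) (nat_lit 10) (.e (nat_lit 344133) (nat_lit 26) (.e (nat_lit 557119) (nat_lit 18) (.e (nat_lit 2808) (nat_lit 180) (.e (nat_lit 303132) (nat_lit 9) (.e (nat_lit 426109) (nat_lit 1) (.e (nat_lit 164195) (nat_lit 158) .nil)))))))) (.g (nat_lit 4) .nil .nil))) 
(.lf (nat_lit 28068) (.g (nat_lit 2851) (.e (nat_lit 1199) (nat_lit 88) (.e (nat_lit 65617) (nat_lit 10) (.e (nat_lit 344168) (nat_lit 40) (.e (nat_lit 671762) (nat_lit 4) (.e (nat_lit 65598) (nat_lit 9) (.e (nat_lit 335997) (nat_lit 1) (.e (nat_lit 57872) (nat_lit 264) .nil))))))) (.g (nat_lit 5) .nil .nil)))) (.nd (nat_lit 5) 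
(.lf (nat_lit 28052) (.g (nat_lit 1192) (.e (nat_lit 1199) (nat_lit 88) (.e (nat_lit 65617) (nat_lit 10) (.e (nat_lit 344161) (nat_lit 37) (.e (nat_lit 647203) (nat_lit 14) .nil)))) .nil)) 
(.lf (nat_lit 28084) (.g (nat_lit 2183) (.e (nat_lit 1199) (nat_lit 88) (.e (nat_lit 65617) (nat_lit 10) (.e (nat_lit 344169) (nat_lit 40) (.e (nat_lit 671747) (nat_lit 0) (.e (nat_lit 1586) (nat_lit 111) (.e (nat_lit 368384) (nat_lit 0) (.e (nat_lit 5902) (nat_lit 320) .nil))))))) (.g (nat_lit 4) .nil .nil))))) (.nd (nat_lit 4) (.nd (nat_lit 5) 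
(.lf (nat_lit 28044) (.g (nat_lit 2036) (.e (nat_lit 1199) (nat_lit 88) (.e (nat_lit 65617) (nat_lit 10) (.e (nat_lit 344156) (nat_lit 36) (.e (nat_lit 638998) (nat_lit 8) (.e (nat_lit 172120) (nat_lit 12) (.e (nat_lit 475155) (nat_lit 21) (.e (nat_lit 6303) (nat_lit 337) .nil))))))) (.g (nat_lit 4) .nil .nil))) 
(.lf (nat_lit 28076) (.g (nat_lit 1973) (.e (nat_lit 1199) (nat_lit 88) (.e (nat_lit 65617) (nat_lit 10) (.e (nat_lit 344168) (nat_lit 40) (.e (nat_lit 671764) (nat_lit 6) (.e (nat_lit 81948) (nat_lit 21) (.e (nat_lit 57870) (nat_lit 264) .nil)))))) (.g (nat_lit 5) .nil .nil)))) (.nd (nat_lit 5) 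
(.lf (nat_lit 28060) (.g (nat_lit 2068) (.e (nat_lit 1199) (nat_lit 88) (.e (nat_lit 65617) (nat_lit 10) (.e (nat_lit 344168) (nat_lit 40) (.e (nat_lit 671747) (nat_lit 0) (.e (nat_lit 1592) (nat_lit 111) (.e (nat_lit 368384) (nat_lit 0) (.e (nat_lit 5906) (nat_lit 320) .nil))))))) (.g (nat_lit 4) .nil .nil))) 
(.lf (nat_lit 28092) (.g (nat_lit 911) (.e (nat_lit 1199) (nat_lit 88) (.e (nat_lit 65617) (nat_lit 10) (.e (nat_lit 344169) (nat_lit 40) (.e (nat_lit 671748) (nat_lit 0) .nil)))) .nil)))))) (.nd (nat_lit 2) (.nd (nat_lit 3) (.nd (nat_lit 4) (.nd (nat_lit 5) 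
(.lf (nat_lit 28034) (.g (nat_lit 2435) (.e (nat_lit 1199) (nat_lit 88) (.e (nat_lit 65617) (nat_lit 10) (.e (nat_lit 344133) (nat_lit 26) (.e (nat_lit 557119) (nat_lit 18) (.e (nat_lit 2798) (nat_lit 180) (.e (nat_lit 303133) (nat_lit 9) (.e (nat_lit 426412) (nat_lit 15) (.e (nat_lit 1041) (nat_lit 81) (.e (nat_lit 4602) (nat_lit 269) .nil))))))))) (.g (nat_lit 4) .nil .nil))) 
(.lf (nat_lit 28066) (.g (nat_lit 3019) (.e (nat_lit 1199) (nat_lit 88) (.e (nat_lit 65617) (nat_lit 10) (.e (nat_lit 344168) (nat_lit 40) (.e (nat_lit 671762) (nat_lit 4) (.e (nat_lit 65598) (nat_lit 9) (.e (nat_lit 335997) (nat_lit 1) (.e (nat_lit 57870) (nat_lit 264) .nil))))))) (.g (nat_lit 6) .nil .nil)))) (.nd (nat_lit 5) 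
(.lf (nat_lit 28050) (.g (nat_lit 2010) (.e (nat_lit 1199) (nat_lit 88) (.e (nat_lit 65617) (nat_lit 10) (.e (nat_lit 344156) (nat_lit 36) (.e (nat_lit 638998) (nat_lit 8) (.e (nat_lit 172120) (nat_lit 12) (.e (nat_lit 475163) (nat_lit 21) (.e (nat_lit 6319) (nat_lit 337) .nil))))))) (.g (nat_lit 4) .nil .nil))) 
(.lf (nat_lit 28082) (.g (nat_lit 1050) (.e (nat_lit 1199) (nat_lit 88) (.e (nat_lit 65617) (nat_lit 10) (.e (nat_lit 344169) (nat_lit 40) (.e (nat_lit 671746) (nat_lit 0) .nil)))) .nil)))) (.nd (nat_lit 4) (.nd (nat_lit 5) 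
(.lf (nat_lit 28042) (.g (nat_lit 2511) (.e (nat_lit 1199) (nat_lit 88) (.e (nat_lit 65617) (nat_lit 10) (.e (nat_lit 344138) (nat_lit 29) (.e (nat_lit 581653) (nat_lit 6) (.e (nat_lit 188444) (nat_lit 21) (.e (nat_lit 164195) (nat_lit 158) .nil)))))) (.g (nat_lit 5) .nil .nil))) 
(.lf (nat_lit 28074) (.g (nat_lit 3145) (.e (nat_lit 1199) (nat_lit 88) (.e (nat_lit 65617) (nat_lit 10) (.e (nat_lit 344168) (nat_lit 40) (.e (nat_lit 671762) (nat_lit 4) (.e (nat_lit 65619) (nat_lit 10) (.e (nat_lit 344097) (nat_lit 18) (.e (nat_lit 5906) (nat_lit 320) .nil))))))) (.g (nat_lit 6) .nil .nil)))) (.nd (nat_lit 5) 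
(.lf (nat_lit 28058) (.g (nat_lit 2237) (.e (nat_lit 1199) (nat_lit 88) (.e (nat_lit 65617) (nat_lit 10) (.e (nat_lit 344168) (nat_lit 40) (.e (nat_lit 671747) (nat_lit 0) (.e (nat_lit 1589) (nat_lit 111) (.e (nat_lit 360453) (nat_lit 0) (.e (nat_lit 5907) (nat_lit 320) .nil))))))) (.g (nat_lit 5) .nil .nil))) 
(.lf (nat_lit 28090) (.g (nat_lit 2180) (.e (nat_lit 1199) (nat_lit 88) (.e (nat_lit 65617) (nat_lit 10) (.e (nat_lit 344169) (nat_lit 40) (.e (nat_lit 671747) (nat_lit 0) (.e (nat_lit 1598) (nat_lit 111) (.e (nat_lit 360452) (nat_lit 0) (.e (nat_lit 5905) (nat_lit 320) .nil))))))) (.g (nat_lit 4) .nil .nil)))))) (.nd (nat_lit 3) (.nd (nat_lit 4) (.nd (nat_lit 5) 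
(.lf (nat_lit 28038) (.g (nat_lit 2314) (.e (nat_lit 1199) (nat_lit 88) (.e (nat_lit 65617) (nat_lit 10) (.e (nat_lit 344133) (nat_lit 26) (.e (nat_lit 557119) (nat_lit 18) (.e (nat_lit 2808) (nat_lit 180) (.e (nat_lit 303140) (nat_lit 10) (.e (nat_lit 434209) (nat_lit 18) (.e (nat_lit 6792) (nat_lit 365) .nil)))))))) (.g (nat_lit 4) .nil .nil))) 
(.lf (nat_lit 28070) (.g (nat_lit 2317) (.e (nat_lit 1199) (nat_lit 88) (.e (nat_lit 65617) (nat_lit 10) (.e (nat_lit 344168) (nat_lit 40) (.e (nat_lit 671762) (nat_lit 4) (.e (nat_lit 65604) (nat_lit 9) (.e (nat_lit 335997) (nat_lit 1) (.e (nat_lit 57871) (nat_lit 264) .nil))))))) (.g (nat_lit 4) .nil .nil)))) (.nd (nat_lit 5) 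
(.lf (nat_lit 28054) (.g (nat_lit 1053) (.e (nat_lit 1199) (nat_lit 88) (.e (nat_lit 65617) (nat_lit 10) (.e (nat_lit 344168) (nat_lit 40) (.e (nat_lit 671746) (nat_lit 0) .nil)))) .nil)) 
(.lf (nat_lit 28086) (.g (nat_lit 2371) (.e (nat_lit 1199) (nat_lit 88) (.e (nat_lit 65617) (nat_lit 10) (.e (nat_lit 344169) (nat_lit 40) (.e (nat_lit 671747) (nat_lit 0) (.e (nat_lit 1589) (nat_lit 111) (.e (nat_lit 360453) (nat_lit 0) (.e (nat_lit 5907) (nat_lit 320) .nil))))))) (.g (nat_lit 5) .nil .nil))))) (.nd (nat_lit 4) (.nd (nat_lit 5) 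
(.lf (nat_lit 28046) (.g (nat_lit 2042) (.e (nat_lit 1199) (nat_lit 88) (.e (nat_lit 65617) (nat_lit 10) (.e (nat_lit 344156) (nat_lit 36) (.e (nat_lit 638998) (nat_lit 8) (.e (nat_lit 172120) (nat_lit 12) (.e (nat_lit 475155) (nat_lit 21) (.e (nat_lit 6309) (nat_lit 337) .nil))))))) (.g (nat_lit 4) .nil .nil))) 
(.lf (nat_lit 28078) (.g (nat_lit 2118) (.e (nat_lit 1199) (nat_lit 88) (.e (nat_lit 65617) (nat_lit 10) (.e (nat_lit 344168) (nat_lit 40) (.e (nat_lit 671764) (nat_lit 6) (.e (nat_lit 81950) (nat_lit 21) (.e (nat_lit 57870) (nat_lit 264) .nil)))))) (.g (nat_lit 5) .nil .nil)))) (.nd (nat_lit 5) 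
(.lf (nat_lit 28062) (.g (nat_lit 1891) (.e (nat_lit 1199) (nat_lit 88) (.e (nat_lit 65617) (nat_lit 10) (.e (nat_lit 344168) (nat_lit 40) (.e (nat_lit 671747) (nat_lit 0) (.e (nat_lit 1595) (nat_lit 111) (.e (nat_lit 368384) (nat_lit 0) (.e (nat_lit 5902) (nat_lit 320) .nil))))))) (.g (nat_lit 4) .nil .nil))) 
(.lf (nat_lit 28094) (.g (nat_lit 2707) (.e (nat_lit 1199) (nat_lit 88) (.e (nat_lit 65617) (nat_lit 10) (.e (nat_lit 344169) (nat_lit 40) (.e (nat_lit 671748) (nat_lit 0) (.e (nat_lit 1562) (nat_lit 110) (.e (nat_lit 352309) (nat_lit 21) (.e (nat_lit 57872) (nat_lit 264) .nil))))))) (.g (nat_lit 6) .nil .nil)))))))) 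
(.nd (nat_lit 1) (.nd (nat_lit 2) (.nd (nat_lit 3) (.nd (nat_lit 4) (.nd (nat_lit 5) 
(.lf (nat_lit 28033) (.g (nat_lit 3206) (.e (nat_lit 1199) (nat_lit 88) (.e (nat_lit 65617) (nat_lit 10) (.e (nat_lit 344133) (nat_lit 26) (.e (nat_lit 557119) (nat_lit 18) (.e (nat_lit 2798) (nat_lit 180) (.e (nat_lit 303133) (nat_lit 9) (.e (nat_lit 426412) (nat_lit 15) (.e (nat_lit 1039) (nat_lit 81) (.e (nat_lit 4602) (nat_lit 269) .nil))))))))) (.g (nat_lit 5) .nil .nil))) 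
(.lf (nat_lit 28065) (.g (nat_lit 1045) (.e (nat_lit 1199) (nat_lit 88) (.e (nat_lit 65617) (nat_lit 10) (.e (nat_lit 344168) (nat_lit 40) (.e (nat_lit 671748) (nat_lit 0) .nil)))) .nil))) (.nd (nat_lit 5) 
(.lf (nat_lit 28049) (.g (nat_lit 2083) (.e (nat_lit 1199) (nat_lit 88) (.e (nat_lit 65617) (nat_lit 10) (.e (nat_lit 344156) (nat_lit 36) (.e (nat_lit 638998) (nat_lit 8) (.e (nat_lit 172120) (nat_lit 12) (.e (nat_lit 475155) (nat_lit 21) (.e (nat_lit 6323) (nat_lit 337) .nil))))))) (.g (nat_lit 4) .nil .nil))) 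
(.lf (nat_lit 28081) (.g (nat_lit 1032) (.e (nat_lit 1199) (nat_lit 88) (.e (nat_lit 65617) (nat_lit 10) (.e (nat_lit 344169) (nat_lit 40) (.e (nat_lit 671744) (nat_lit 0) .nil)))) .nil)))) (.nd (nat_lit 4) (.nd (nat_lit 5) 
(.lf (nat_lit 28041) (.g (nat_lit 453) (.e (nat_lit 1199) (nat_lit 88) (.e (nat_lit 65617) (nat_lit 10) (.e (nat_lit 344138) (nat_lit 29) .nil))) .nil)) 
(.lf (nat_lit 28073) (.g (nat_lit 2712) (.e (nat_lit 1199) (nat_lit 88) (.e (nat_lit 65617) (nat_lit 10) (.e (nat_lit 344168) (nat_lit 40) (.e (nat_lit 671762) (nat_lit 4) (.e (nat_lit 65619) (nat_lit 10) (.e (nat_lit 344097) (nat_lit 18) (.e (nat_lit 5905) (nat_lit 320) .nil))))))) (.g (nat_lit 5) .nil .nil)))) (.nd (nat_lit 5) 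
(.lf (nat_lit 28057) (.g (nat_lit 1868) (.e (nat_lit 1199) (nat_lit 88) (.e (nat_lit 65617) (nat_lit 10) (.e (nat_lit 344168) (nat_lit 40) (.e (nat_lit 671747) (nat_lit 0) (.e (nat_lit 1586) (nat_lit 111) (.e (nat_lit 368384) (nat_lit 0) (.e (nat_lit 5906) (nat_lit 320) .nil))))))) (.g (nat_lit 4) .nil .nil))) 
(.lf (nat_lit 28089) (.g (nat_lit 1968) (.e (nat_lit 1199) (nat_lit 88) (.e (nat_lit 65617) (nat_lit 10) (.e (nat_lit 344169) (nat_lit 40) (.e (nat_lit 671747) (nat_lit 0) (.e (nat_lit 1595) (nat_lit 111) (.e (nat_lit 368384) (nat_lit 0) (.e (nat_lit 5902) (nat_lit 320) .nil))))))) (.g (nat_lit 4) .nil .nil)))))) (.nd (nat_lit 3) (.nd (nat_lit 4) (.nd (nat_lit 5) 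
(.lf (nat_lit 28037) (.g (nat_lit 3203) (.e (nat_lit 1199) (nat_lit 88) (.e (nat_lit 65617) (nat_lit 10) (.e (nat_lit 344133) (nat_lit 26) (.e (nat_lit 557119) (nat_lit 18) (.e (nat_lit 2808) (nat_lit 180) (.e (nat_lit 303132) (nat_lit 9) (.e (nat_lit 426109) (nat_lit 1) (.e (nat_lit 164196) (nat_lit 158) .nil)))))))) (.g (nat_lit 5) .nil .nil))) 
(.lf (nat_lit 28069) (.g (nat_lit 2847) (.e (nat_lit 1199) (nat_lit 88) (.e (nat_lit 65617) (nat_lit 10) (.e (nat_lit 344168) (nat_lit 40) (.e (nat_lit 671762) (nat_lit 4) (.e (nat_lit 65604) (nat_lit 9) (.e (nat_lit 335997) (nat_lit 1) (.e (nat_lit 57870) (nat_lit 264) .nil))))))) (.g (nat_lit 6) .nil .nil)))) (.nd (nat_lit 5) 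
(.lf (nat_lit 28053) (.g (nat_lit 594) (.e (nat_lit 1199) (nat_lit 88) (.e (nat_lit 65617) (nat_lit 10) (.e (nat_lit 344167) (nat_lit 40) .nil))) .nil)) 
(.lf (nat_lit 28085) (.g (nat_lit 1952) (.e (nat_lit 1199) (nat_lit 88) (.e (nat_lit 65617) (nat_lit 10) (.e (nat_lit 344169) (nat_lit 40) (.e (nat_lit 671747) (nat_lit 0) (.e (nat_lit 1586) (nat_lit 111) (.e (nat_lit 368384) (nat_lit 0) (.e (nat_lit 5906) (nat_lit 320) .nil))))))) (.g (nat_lit 4) .nil .nil))))) (.nd (nat_lit 4) (.nd (nat_lit 5) 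
(.lf (nat_lit 28045) (.g (nat_lit 3027) (.e (nat_lit 1199) (nat_lit 88) (.e (nat_lit 65617) (nat_lit 10) (.e (nat_lit 344156) (nat_lit 36) (.e (nat_lit 638998) (nat_lit 8) (.e (nat_lit 172120) (nat_lit 12) (.e (nat_lit 475155) (nat_lit 21) (.e (nat_lit 6305) (nat_lit 337) .nil))))))) (.g (nat_lit 5) .nil .nil))) 
(.lf (nat_lit 28077) (.g (nat_lit 2517) (.e (nat_lit 1199) (nat_lit 88) (.e (nat_lit 65617) (nat_lit 10) (.e (nat_lit 344168) (nat_lit 40) (.e (nat_lit 671764) (nat_lit 6) (.e (nat_lit 81948) (nat_lit 21) (.e (nat_lit 57873) (nat_lit 264) .nil)))))) (.g (nat_lit 6) .nil .nil)))) (.nd (nat_lit 5) 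
(.lf (nat_lit 28061) (.g (nat_lit 3561) (.e (nat_lit 1199) (nat_lit 88) (.e (nat_lit 65617) (nat_lit 10) (.e (nat_lit 344168) (nat_lit 40) (.e (nat_lit 671747) (nat_lit 0) (.e (nat_lit 1595) (nat_lit 111) (.e (nat_lit 360453) (nat_lit 0) (.e (nat_lit 5907) (nat_lit 320) .nil))))))) (.g (nat_lit 7) .nil .nil))) 
(.lf (nat_lit 28093) (.g (nat_lit 1697) (.e (nat_lit 1199) (nat_lit 88) (.e (nat_lit 65617) (nat_lit 10) (.e (nat_lit 344169) (nat_lit 40) (.e (nat_lit 671748) (nat_lit 0) (.e (nat_lit 1562) (nat_lit 110) .nil))))) .nil)))))) (.nd (nat_lit 2) (.nd (nat_lit 3) (.nd (nat_lit 4) (.nd (nat_lit 5) 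
(.lf (nat_lit 28035) (.g (nat_lit 2448) (.e (nat_lit 1199) (nat_lit 88) (.e (nat_lit 65617) (nat_lit 10) (.e (nat_lit 344133) (nat_lit 26) (.e (nat_lit 557119) (nat_lit 18) (.e (nat_lit 2798) (nat_lit 180) (.e (nat_lit 303143) (nat_lit 12) (.e (nat_lit 475155) (nat_lit 21) (.e (nat_lit 4609) (nat_lit 269) .nil)))))))) (.g (nat_lit 4) .nil .nil))) 
(.lf (nat_lit 28067) (.g (nat_lit 2484) (.e (nat_lit 1199) (nat_lit 88) (.e (nat_lit 65617) (nat_lit 10) (.e (nat_lit 344168) (nat_lit 40) (.e (nat_lit 671762) (nat_lit 4) (.e (nat_lit 65598) (nat_lit 9) (.e (nat_lit 335997) (nat_lit 1) (.e (nat_lit 57871) (nat_lit 264) .nil))))))) (.g (nat_lit 5) .nil .nil)))) (.nd (nat_lit 5) 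
(.lf (nat_lit 28051) (.g (nat_lit 2029) (.e (nat_lit 1199) (nat_lit 88) (.e (nat_lit 65617) (nat_lit 10) (.e (nat_lit 344156) (nat_lit 36) (.e (nat_lit 638998) (nat_lit 8) (.e (nat_lit 172120) (nat_lit 12) (.e (nat_lit 475163) (nat_lit 21) (.e (nat_lit 6322) (nat_lit 337) .nil))))))) (.g (nat_lit 4) .nil .nil))) 
(.lf (nat_lit 28083) (.g (nat_lit 1041) (.e (nat_lit 1199) (nat_lit 88) (.e (nat_lit 65617) (nat_lit 10) (.e (nat_lit 344169) (nat_lit 40) (.e (nat_lit 671747) (nat_lit 0) .nil)))) .nil)))) (.nd (nat_lit 4) (.nd (nat_lit 5) 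
(.lf (nat_lit 28043) (.g (nat_lit 2473) (.e (nat_lit 1199) (nat_lit 88) (.e (nat_lit 65617) (nat_lit 10) (.e (nat_lit 344138) (nat_lit 29) (.e (nat_lit 581653) (nat_lit 6) (.e (nat_lit 188446) (nat_lit 21) (.e (nat_lit 164195) (nat_lit 158) .nil)))))) (.g (nat_lit 5) .nil .nil))) 
(.lf (nat_lit 28075) (.g (nat_lit 3671) (.e (nat_lit 1199) (nat_lit 88) (.e (nat_lit 65617) (nat_lit 10) (.e (nat_lit 344168) (nat_lit 40) (.e (nat_lit 671762) (nat_lit 4) (.e (nat_lit 65619) (nat_lit 10) (.e (nat_lit 344097) (nat_lit 18) (.e (nat_lit 5907) (nat_lit 320) .nil))))))) (.g (nat_lit 7) .nil .nil)))) (.nd (nat_lit 5) 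
(.lf (nat_lit 28059) (.g (nat_lit 1482) (.e (nat_lit 1199) (nat_lit 88) (.e (nat_lit 65617) (nat_lit 10) (.e (nat_lit 344168) (nat_lit 40) (.e (nat_lit 671747) (nat_lit 0) (.e (nat_lit 1592) (nat_lit 111) .nil))))) .nil)) 
(.lf (nat_lit 28091) (.g (nat_lit 1767) (.e (nat_lit 1199) (nat_lit 88) (.e (nat_lit 65617) (nat_lit 10) (.e (nat_lit 344169) (nat_lit 40) (.e (nat_lit 671747) (nat_lit 0) (.e (nat_lit 1598) (nat_lit 111) (.e (nat_lit 360452) (nat_lit 0) (.e (nat_lit 5906) (nat_lit 320) .nil))))))) (.g (nat_lit 4) .nil .nil)))))) (.nd (nat_lit 3) (.nd (nat_lit 4) (.nd (nat_lit 5) 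
(.lf (nat_lit 28039) (.g (nat_lit 612) (.e (nat_lit 1199) (nat_lit 88) (.e (nat_lit 65617) (nat_lit 10) (.e (nat_lit 344136) (nat_lit 29) .nil))) .nil)) 
(.lf (nat_lit 28071) (.g (nat_lit 2699) (.e (nat_lit 1199) (nat_lit 88) (.e (nat_lit 65617) (nat_lit 10) (.e (nat_lit 344168) (nat_lit 40) (.e (nat_lit 671762) (nat_lit 4) (.e (nat_lit 65604) (nat_lit 9) (.e (nat_lit 335997) (nat_lit 1) (.e (nat_lit 57872) (nat_lit 264) .nil))))))) (.g (nat_lit 5) .nil .nil)))) (.nd (nat_lit 5) 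
(.lf (nat_lit 28055) (.g (nat_lit 1098) (.e (nat_lit 1199) (nat_lit 88) (.e (nat_lit 65617) (nat_lit 10) (.e (nat_lit 344168) (nat_lit 40) (.e (nat_lit 671747) (nat_lit 0) .nil)))) .nil)) 
(.lf (nat_lit 28087) (.g (nat_lit 2134) (.e (nat_lit 1199) (nat_lit 88) (.e (nat_lit 65617) (nat_lit 10) (.e (nat_lit 344169) (nat_lit 40) (.e (nat_lit 671747) (nat_lit 0) (.e (nat_lit 1592) (nat_lit 111) (.e (nat_lit 368384) (nat_lit 0) (.e (nat_lit 5906) (nat_lit 320) .nil))))))) (.g (nat_lit 5) .nil .nil))))) (.nd (nat_lit 4) (.nd (nat_lit 5) 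
(.lf (nat_lit 28047) (.g (nat_lit 2017) (.e (nat_lit 1199) (nat_lit 88) (.e (nat_lit 65617) (nat_lit 10) (.e (nat_lit 344156) (nat_lit 36) (.e (nat_lit 638998) (nat_lit 8) (.e (nat_lit 172120) (nat_lit 12) (.e (nat_lit 475155) (nat_lit 21) (.e (nat_lit 6317) (nat_lit 337) .nil))))))) (.g (nat_lit 4) .nil .nil))) 
(.lf (nat_lit 28079) (.g (nat_lit 2692) (.e (nat_lit 1199) (nat_lit 88) (.e (nat_lit 65617) (nat_lit 10) (.e (nat_lit 344168) (nat_lit 40) (.e (nat_lit 671764) (nat_lit 6) (.e (nat_lit 81950) (nat_lit 21) (.e (nat_lit 57873) (nat_lit 264) .nil)))))) (.g (nat_lit 6) .nil .nil)))) (.nd (nat_lit 5) 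
(.lf (nat_lit 28063) (.g (nat_lit 2057) (.e (nat_lit 1199) (nat_lit 88) (.e (nat_lit 65617) (nat_lit 10) (.e (nat_lit 344168) (nat_lit 40) (.e (nat_lit 671747) (nat_lit 0) (.e (nat_lit 1598) (nat_lit 111) (.e (nat_lit 360452) (nat_lit 0) (.e (nat_lit 5905) (nat_lit 320) .nil))))))) (.g (nat_lit 4) .nil .nil))) 
(.lf (nat_lit 28095) (.g (nat_lit 1990) (.e (nat_lit 1199) (nat_lit 88) (.e (nat_lit 65617) (nat_lit 10) (.e (nat_lit 344169) (nat_lit 40) (.e (nat_lit 671748) (nat_lit 0) (.e (nat_lit 1572) (nat_lit 110) (.e (nat_lit 352309) (nat_lit 21) (.e (nat_lit 57872) (nat_lit 264) .nil))))))) (.g (nat_lit 4) .nil .nil)))))))))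

noncomputable def tv388 : DT := (.nd (nat_lit 0) (.nd (nat_lit 1) (.nd (nat_lit 2) (.nd (nat_lit 3) (.nd (nat_lit 4) (.nd (nat_lit 5) 
(.lf (nat_lit 28096) (.g (nat_lit 1795) (.e (nat_lit 1199) (nat_lit 88) (.e (nat_lit 65617) (nat_lit 10) (.e (nat_lit 344169) (nat_lit 40) (.e (nat_lit 671748) (nat_lit 0) (.e (nat_lit 1586) (nat_lit 111) (.e (nat_lit 360451) (nat_lit 0) (.e (nat_lit 5896) (nat_lit 320) .nil))))))) (.g (nat_lit 4) .nil .nil))) 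
(.lf (nat_lit 28128) (.g (nat_lit 3676) (.e (nat_lit 1199) (nat_lit 88) (.e (nat_lit 65617) (nat_lit 10) (.e (nat_lit 344169) (nat_lit 40) (.e (nat_lit 671762) (nat_lit 4) (.e (nat_lit 65619) (nat_lit 10) (.e (nat_lit 344097) (nat_lit 18) (.e (nat_lit 5906) (nat_lit 320) .nil))))))) (.g (nat_lit 7) .nil .nil)))) (.nd (nat_lit 5) 
(.lf (nat_lit 28112) (.g (nat_lit 2032) (.e (nat_lit 1199) (nat_lit 88) (.e (nat_lit 65617) (nat_lit 10) (.e (nat_lit 344169) (nat_lit 40) (.e (nat_lit 671748) (nat_lit 0) (.e (nat_lit 1598) (nat_lit 111) (.e (nat_lit 368384) (nat_lit 0) (.e (nat_lit 5905) (nat_lit 320) .nil))))))) (.g (nat_lit 4) .nil .nil))) 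
(.lf (nat_lit 28144) (.g (nat_lit 2762) (.e (nat_lit 1199) (nat_lit 88) (.e (nat_lit 65617) (nat_lit 10) (.e (nat_lit 344177) (nat_lit 43) (.e (nat_lit 770072) (nat_lit 8) (.e (nat_lit 65610) (nat_lit 10) (.e (nat_lit 344090) (nat_lit 18) (.e (nat_lit 7236) (nat_lit 382) .nil))))))) (.g (nat_lit 5) .nil .nil))))) (.nd (nat_lit 4) (.nd (nat_lit 5) 
(.lf (nat_lit 28104) (.g (nat_lit 2431) (.e (nat_lit 1199) (nat_lit 88) (.e (nat_lit 65617) (nat_lit 10) (.e (nat_lit 344169) (nat_lit 40) (.e (nat_lit 671748) (nat_lit 0) (.e (nat_lit 1589) (nat_lit 111) (.e (nat_lit 368384) (nat_lit 0) (.e (nat_lit 5906) (nat_lit 320) .nil))))))) (.g (nat_lit 5) .nil .nil))) 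
(.lf (nat_lit 28136) (.g (nat_lit 1838) (.e (nat_lit 1199) (nat_lit 88) (.e (nat_lit 65617) (nat_lit 10) (.e (nat_lit 344174) (nat_lit 42) (.e (nat_lit 761866) (nat_lit 5) (.e (nat_lit 1597) (nat_lit 111) (.e (nat_lit 368384) (nat_lit 0) (.e (nat_lit 7236) (nat_lit 382) .nil))))))) (.g (nat_lit 4) .nil .nil)))) (.nd (nat_lit 5) 
(.lf (nat_lit 28120) (.g (nat_lit 2260) (.e (nat_lit 1199) (nat_lit 88) (.e (nat_lit 65617) (nat_lit 10) (.e (nat_lit 344169) (nat_lit 40) (.e (nat_lit 671761) (nat_lit 4) (.e (nat_lit 65610) (nat_lit 10) (.e (nat_lit 344097) (nat_lit 18) (.e (nat_lit 5905) (nat_lit 320) .nil))))))) (.g (nat_lit 4) .nil .nil))) 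
(.lf (nat_lit 28152) (.g (nat_lit 2451) (.e (nat_lit 1199) (nat_lit 88) (.e (nat_lit 65619) (nat_lit 10) (.e (nat_lit 344097) (nat_lit 18) (.e (nat_lit 5907) (nat_lit 320) (.e (nat_lit 1220) (nat_lit 90) .nil))))) .nil))))) (.nd (nat_lit 3) (.nd (nat_lit 4) (.nd (nat_lit 5) 
(.lf (nat_lit 28100) (.g (nat_lit 2495) (.e (nat_lit 1199) (nat_lit 88) (.e (nat_lit 65617) (nat_lit 10) (.e (nat_lit 344169) (nat_lit 40) (.e (nat_lit 671748) (nat_lit 0) (.e (nat_lit 1586) (nat_lit 111) (.e (nat_lit 368384) (nat_lit 0) (.e (nat_lit 5906) (nat_lit 320) .nil))))))) (.g (nat_lit 5) .nil .nil))) 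
(.lf (nat_lit 28132) (.g (nat_lit 2565) (.e (nat_lit 1199) (nat_lit 88) (.e (nat_lit 65617) (nat_lit 10) (.e (nat_lit 344169) (nat_lit 40) (.e (nat_lit 671764) (nat_lit 6) (.e (nat_lit 81949) (nat_lit 21) (.e (nat_lit 57870) (nat_lit 264) .nil)))))) (.g (nat_lit 6) .nil .nil)))) (.nd (nat_lit 5) 
(.lf (nat_lit 28116) (.g (nat_lit 1877) (.e (nat_lit 1199) (nat_lit 88) (.e (nat_lit 65617) (nat_lit 10) (.e (nat_lit 344169) (nat_lit 40) (.e (nat_lit 671748) (nat_lit 0) (.e (nat_lit 1599) (nat_lit 111) (.e (nat_lit 368384) (nat_lit 0) (.e (nat_lit 5905) (nat_lit 320) .nil))))))) (.g (nat_lit 4) .nil .nil))) 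
(.lf (nat_lit 28148) (.g (nat_lit 729) (.e (nat_lit 1199) (nat_lit 88) (.e (nat_lit 65617) (nat_lit 10) (.e (nat_lit 344183) (nat_lit 49) (.e (nat_lit 819220) (nat_lit 5) .nil)))) .nil)))) (.nd (nat_lit 4) (.nd (nat_lit 5) 
(.lf (nat_lit 28108) (.g (nat_lit 2213) (.e (nat_lit 1199) (nat_lit 88) (.e (nat_lit 65617) (nat_lit 10) (.e (nat_lit 344169) (nat_lit 40) (.e (nat_lit 671748) (nat_lit 0) (.e (nat_lit 1595) (nat_lit 111) (.e (nat_lit 368384) (nat_lit 0) (.e (nat_lit 5905) (nat_lit 320) .nil))))))) (.g (nat_lit 4) .nil .nil))) 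
(.lf (nat_lit 28140) (.g (nat_lit 2436) (.e (nat_lit 1199) (nat_lit 88) (.e (nat_lit 65617) (nat_lit 10) (.e (nat_lit 344177) (nat_lit 43) (.e (nat_lit 770071) (nat_lit 8) (.e (nat_lit 65610) (nat_lit 10) (.e (nat_lit 344090) (nat_lit 18) (.e (nat_lit 7236) (nat_lit 382) .nil))))))) (.g (nat_lit 5) .nil .nil)))) (.nd (nat_lit 5) 
(.lf (nat_lit 28124) (.g (nat_lit 3232) (.e (nat_lit 1199) (nat_lit 88) (.e (nat_lit 65617) (nat_lit 10) (.e (nat_lit 344169) (nat_lit 40) (.e (nat_lit 671762) (nat_lit 4) (.e (nat_lit 65604) (nat_lit 9) (.e (nat_lit 335997) (nat_lit 1) (.e (nat_lit 57871) (nat_lit 264) .nil))))))) (.g (nat_lit 6) .nil .nil))) 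
(.lf (nat_lit 28156) (.g (nat_lit 1638) (.e (nat_lit 1199) (nat_lit 88) (.e (nat_lit 65622) (nat_lit 12) (.e (nat_lit 385093) (nat_lit 49) (.e (nat_lit 778290) (nat_lit 0) .nil)))) .nil)))))) (.nd (nat_lit 2) (.nd (nat_lit 3) (.nd (nat_lit 4) (.nd (nat_lit 5) 
(.lf (nat_lit 28098) (.g (nat_lit 2726) (.e (nat_lit 1199) (nat_lit 88) (.e (nat_lit 65617) (nat_lit 10) (.e (nat_lit 344169) (nat_lit 40) (.e (nat_lit 671748) (nat_lit 0) (.e (nat_lit 1586) (nat_lit 111) (.e (nat_lit 368384) (nat_lit 0) (.e (nat_lit 5902) (nat_lit 320) .nil))))))) (.g (nat_lit 5) .nil .nil))) 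
(.lf (nat_lit 28130) (.g (nat_lit 2237) (.e (nat_lit 1199) (nat_lit 88) (.e (nat_lit 65617) (nat_lit 10) (.e (nat_lit 344169) (nat_lit 40) (.e (nat_lit 671764) (nat_lit 6) (.e (nat_lit 81948) (nat_lit 21) (.e (nat_lit 57870) (nat_lit 264) .nil)))))) (.g (nat_lit 6) .nil .nil)))) (.nd (nat_lit 5) 
(.lf (nat_lit 28114) (.g (nat_lit 1970) (.e (nat_lit 1199) (nat_lit 88) (.e (nat_lit 65617) (nat_lit 10) (.e (nat_lit 344169) (nat_lit 40) (.e (nat_lit 671748) (nat_lit 0) (.e (nat_lit 1599) (nat_lit 111) (.e (nat_lit 360452) (nat_lit 0) (.e (nat_lit 5907) (nat_lit 320) .nil))))))) (.g (nat_lit 4) .nil .nil))) 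
(.lf (nat_lit 28146) (.g (nat_lit 2150) (.e (nat_lit 1199) (nat_lit 88) (.e (nat_lit 65617) (nat_lit 10) (.e (nat_lit 344177) (nat_lit 43) (.e (nat_lit 770072) (nat_lit 8) (.e (nat_lit 65617) (nat_lit 10) (.e (nat_lit 344096) (nat_lit 18) (.e (nat_lit 7236) (nat_lit 382) .nil))))))) (.g (nat_lit 4) .nil .nil))))) (.nd (nat_lit 4) (.nd (nat_lit 5) 
(.lf (nat_lit 28106) (.g (nat_lit 2449) (.e (nat_lit 1199) (nat_lit 88) (.e (nat_lit 65617) (nat_lit 10) (.e (nat_lit 344169) (nat_lit 40) (.e (nat_lit 671748) (nat_lit 0) (.e (nat_lit 1592) (nat_lit 111) (.e (nat_lit 368384) (nat_lit 0) (.e (nat_lit 5906) (nat_lit 320) .nil))))))) (.g (nat_lit 5) .nil .nil))) 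
(.lf (nat_lit 28138) (.g (nat_lit 1795) (.e (nat_lit 1199) (nat_lit 88) (.e (nat_lit 65617) (nat_lit 10) (.e (nat_lit 344177) (nat_lit 43) (.e (nat_lit 770057) (nat_lit 5) (.e (nat_lit 1589) (nat_lit 111) (.e (nat_lit 368384) (nat_lit 0) (.e (nat_lit 7236) (nat_lit 382) .nil))))))) (.g (nat_lit 4) .nil .nil)))) (.nd (nat_lit 5) 
(.lf (nat_lit 28122) (.g (nat_lit 3375) (.e (nat_lit 1199) (nat_lit 88) (.e (nat_lit 65617) (nat_lit 10) (.e (nat_lit 344169) (nat_lit 40) (.e (nat_lit 671762) (nat_lit 4) (.e (nat_lit 65598) (nat_lit 9) (.e (nat_lit 335997) (nat_lit 1) (.e (nat_lit 57871) (nat_lit 264) .nil))))))) (.g (nat_lit 6) .nil .nil))) 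
(.lf (nat_lit 28154) (.g (nat_lit 1649) (.e (nat_lit 1199) (nat_lit 88) (.e (nat_lit 65619) (nat_lit 10) (.e (nat_lit 344117) (nat_lit 21) (.e (nat_lit 516191) (nat_lit 17) .nil)))) .nil))))) (.nd (nat_lit 3) (.nd (nat_lit 4) (.nd (nat_lit 5) 
(.lf (nat_lit 28102) (.g (nat_lit 2726) (.e (nat_lit 1199) (nat_lit 88) (.e (nat_lit 65617) (nat_lit 10) (.e (nat_lit 344169) (nat_lit 40) (.e (nat_lit 671748) (nat_lit 0) (.e (nat_lit 1589) (nat_lit 111) (.e (nat_lit 368384) (nat_lit 0) (.e (nat_lit 5902) (nat_lit 320) .nil))))))) (.g (nat_lit 5) .nil .nil))) 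
(.lf (nat_lit 28134) (.g (nat_lit 1794) (.e (nat_lit 1199) (nat_lit 88) (.e (nat_lit 65617) (nat_lit 10) (.e (nat_lit 344169) (nat_lit 40) (.e (nat_lit 671764) (nat_lit 6) (.e (nat_lit 81950) (nat_lit 21) (.e (nat_lit 57871) (nat_lit 264) .nil)))))) (.g (nat_lit 4) .nil .nil)))) (.nd (nat_lit 5) 
(.lf (nat_lit 28118) (.g (nat_lit 2092) (.e (nat_lit 1199) (nat_lit 88) (.e (nat_lit 65617) (nat_lit 10) (.e (nat_lit 344169) (nat_lit 40) (.e (nat_lit 671751) (nat_lit 0) (.e (nat_lit 1524) (nat_lit 108) (.e (nat_lit 336186) (nat_lit 11) (.e (nat_lit 368662) (nat_lit 18) (.e (nat_lit 5907) (nat_lit 320) .nil)))))))) (.g (nat_lit 5) .nil .nil))) 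
(.lf (nat_lit 28150) (.g (nat_lit 1440) (.e (nat_lit 1199) (nat_lit 88) (.e (nat_lit 65619) (nat_lit 10) (.e (nat_lit 344097) (nat_lit 18) (.e (nat_lit 5906) (nat_lit 320) .nil)))) .nil)))) (.nd (nat_lit 4) (.nd (nat_lit 5) 
(.lf (nat_lit 28110) (.g (nat_lit 3163) (.e (nat_lit 1199) (nat_lit 88) (.e (nat_lit 65617) (nat_lit 10) (.e (nat_lit 344169) (nat_lit 40) (.e (nat_lit 671748) (nat_lit 0) (.e (nat_lit 1598) (nat_lit 111) (.e (nat_lit 360452) (nat_lit 0) (.e (nat_lit 5905) (nat_lit 320) .nil))))))) (.g (nat_lit 6) .nil .nil))) 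
(.lf (nat_lit 28142) (.g (nat_lit 2066) (.e (nat_lit 1199) (nat_lit 88) (.e (nat_lit 65617) (nat_lit 10) (.e (nat_lit 344177) (nat_lit 43) (.e (nat_lit 770071) (nat_lit 8) (.e (nat_lit 65617) (nat_lit 10) (.e (nat_lit 344096) (nat_lit 18) (.e (nat_lit 7236) (nat_lit 382) .nil))))))) (.g (nat_lit 4) .nil .nil)))) (.nd (nat_lit 5) 
(.lf (nat_lit 28126) (.g (nat_lit 3849) (.e (nat_lit 1199) (nat_lit 88) (.e (nat_lit 65617) (nat_lit 10) (.e (nat_lit 344169) (nat_lit 40) (.e (nat_lit 671762) (nat_lit 4) (.e (nat_lit 65610) (nat_lit 10) (.e (nat_lit 344097) (nat_lit 18) (.e (nat_lit 5906) (nat_lit 320) .nil))))))) (.g (nat_lit 7) .nil .nil))) 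
(.lf (nat_lit 28158) (.g (nat_lit 1624) (.e (nat_lit 1199) (nat_lit 88) (.e (nat_lit 65622) (nat_lit 12) (.e (nat_lit 385093) (nat_lit 49) (.e (nat_lit 778326) (nat_lit 6) (.e (nat_lit 81948) (nat_lit 21) (.e (nat_lit 57871) (nat_lit 264) .nil)))))) (.g (nat_lit 4) .nil .nil)))))))) (.nd (nat_lit 1) (.nd (nat_lit 2) (.nd (nat_lit 3) (.nd (nat_lit 4) (.nd (nat_lit 5) 
(.lf (nat_lit 28097) (.g (nat_lit 1814) (.e (nat_lit 1199) (nat_lit 88) (.e (nat_lit 65617) (nat_lit 10) (.e (nat_lit 344169) (nat_lit 40) (.e (nat_lit 671748) (nat_lit 0) (.e (nat_lit 1586) (nat_lit 111) (.e (nat_lit 360454) (nat_lit 0) (.e (nat_lit 5907) (nat_lit 320) .nil))))))) (.g (nat_lit 4) .nil .nil))) 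
(.lf (nat_lit 28129) (.g (nat_lit 1822) (.e (nat_lit 1199) (nat_lit 88) (.e (nat_lit 65617) (nat_lit 10) (.e (nat_lit 344169) (nat_lit 40) (.e (nat_lit 671762) (nat_lit 4) (.e (nat_lit 65620) (nat_lit 10) (.e (nat_lit 344097) (nat_lit 18) (.e (nat_lit 5906) (nat_lit 320) .nil))))))) (.g (nat_lit 4) .nil .nil)))) (.nd (nat_lit 5) 
(.lf (nat_lit 28113) (.g (nat_lit 2069) (.e (nat_lit 1199) (nat_lit 88) (.e (nat_lit 65617) (nat_lit 10) (.e (nat_lit 344169) (nat_lit 40) (.e (nat_lit 671748) (nat_lit 0) (.e (nat_lit 1598) (nat_lit 111) (.e (nat_lit 368384) (nat_lit 0) (.e (nat_lit 5906) (nat_lit 320) .nil))))))) (.g (nat_lit 4) .nil .nil))) 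
(.lf (nat_lit 28145) (.g (nat_lit 2563) (.e (nat_lit 1199) (nat_lit 88) (.e (nat_lit 65617) (nat_lit 10) (.e (nat_lit 344177) (nat_lit 43) (.e (nat_lit 770072) (nat_lit 8) (.e (nat_lit 65617) (nat_lit 10) (.e (nat_lit 344091) (nat_lit 18) (.e (nat_lit 7236) (nat_lit 382) .nil))))))) (.g (nat_lit 4) .nil .nil))))) (.nd (nat_lit 4) (.nd (nat_lit 5) 
(.lf (nat_lit 28105) (.g (nat_lit 1803) (.e (nat_lit 1199) (nat_lit 88) (.e (nat_lit 65617) (nat_lit 10) (.e (nat_lit 344169) (nat_lit 40) (.e (nat_lit 671748) (nat_lit 0) (.e (nat_lit 1592) (nat_lit 111) (.e (nat_lit 368384) (nat_lit 0) (.e (nat_lit 5902) (nat_lit 320) .nil))))))) (.g (nat_lit 4) .nil .nil))) 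
(.lf (nat_lit 28137) (.g (nat_lit 1747) (.e (nat_lit 1199) (nat_lit 88) (.e (nat_lit 65617) (nat_lit 10) (.e (nat_lit 344174) (nat_lit 42) (.e (nat_lit 761868) (nat_lit 5) (.e (nat_lit 1597) (nat_lit 111) (.e (nat_lit 368384) (nat_lit 0) (.e (nat_lit 7236) (nat_lit 382) .nil))))))) (.g (nat_lit 4) .nil .nil)))) (.nd (nat_lit 5) 
(.lf (nat_lit 28121) (.g (nat_lit 3465) (.e (nat_lit 1199) (nat_lit 88) (.e (nat_lit 65617) (nat_lit 10) (.e (nat_lit 344169) (nat_lit 40) (.e (nat_lit 671761) (nat_lit 4) (.e (nat_lit 65610) (nat_lit 10) (.e (nat_lit 344097) (nat_lit 18) (.e (nat_lit 5907) (nat_lit 320) .nil))))))) (.g (nat_lit 6) .nil .nil))) 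
(.lf (nat_lit 28153) (.g (nat_lit 2116) (.e (nat_lit 1199) (nat_lit 88) (.e (nat_lit 65619) (nat_lit 10) (.e (nat_lit 344097) (nat_lit 18) (.e (nat_lit 5907) (nat_lit 320) (.e (nat_lit 1221) (nat_lit 90) .nil))))) .nil))))) (.nd (nat_lit 3) (.nd (nat_lit 4) (.nd (nat_lit 5) 
(.lf (nat_lit 28101) (.g (nat_lit 1684) (.e (nat_lit 1199) (nat_lit 88) (.e (nat_lit 65617) (nat_lit 10) (.e (nat_lit 344169) (nat_lit 40) (.e (nat_lit 671748) (nat_lit 0) (.e (nat_lit 1589) (nat_lit 111) .nil))))) .nil)) 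
(.lf (nat_lit 28133) (.g (nat_lit 2328) (.e (nat_lit 1199) (nat_lit 88) (.e (nat_lit 65617) (nat_lit 10) (.e (nat_lit 344169) (nat_lit 40) (.e (nat_lit 671764) (nat_lit 6) (.e (nat_lit 81950) (nat_lit 21) (.e (nat_lit 57870) (nat_lit 264) .nil)))))) (.g (nat_lit 6) .nil .nil)))) (.nd (nat_lit 5) 
(.lf (nat_lit 28117) (.g (nat_lit 1970) (.e (nat_lit 1199) (nat_lit 88) (.e (nat_lit 65617) (nat_lit 10) (.e (nat_lit 344169) (nat_lit 40) (.e (nat_lit 671748) (nat_lit 0) (.e (nat_lit 1599) (nat_lit 111) (.e (nat_lit 368384) (nat_lit 0) (.e (nat_lit 5906) (nat_lit 320) .nil))))))) (.g (nat_lit 4) .nil .nil))) 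
(.lf (nat_lit 28149) (.g (nat_lit 1447) (.e (nat_lit 1199) (nat_lit 88) (.e (nat_lit 65619) (nat_lit 10) (.e (nat_lit 344097) (nat_lit 18) (.e (nat_lit 5905) (nat_lit 320) .nil)))) .nil)))) (.nd (nat_lit 4) (.nd (nat_lit 5) 
(.lf (nat_lit 28109) (.g (nat_lit 2233) (.e (nat_lit 1199) (nat_lit 88) (.e (nat_lit 65617) (nat_lit 10) (.e (nat_lit 344169) (nat_lit 40) (.e (nat_lit 671748) (nat_lit 0) (.e (nat_lit 1595) (nat_lit 111) (.e (nat_lit 368384) (nat_lit 0) (.e (nat_lit 5906) (nat_lit 320) .nil))))))) (.g (nat_lit 4) .nil .nil))) 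
(.lf (nat_lit 28141) (.g (nat_lit 2472) (.e (nat_lit 1199) (nat_lit 88) (.e (nat_lit 65617) (nat_lit 10) (.e (nat_lit 344177) (nat_lit 43) (.e (nat_lit 770071) (nat_lit 8) (.e (nat_lit 65617) (nat_lit 10) (.e (nat_lit 344091) (nat_lit 18) (.e (nat_lit 7236) (nat_lit 382) .nil))))))) (.g (nat_lit 5) .nil .nil)))) (.nd (nat_lit 5) 
(.lf (nat_lit 28125) (.g (nat_lit 3605) (.e (nat_lit 1199) (nat_lit 88) (.e (nat_lit 65617) (nat_lit 10) (.e (nat_lit 344169) (nat_lit 40) (.e (nat_lit 671762) (nat_lit 4) (.e (nat_lit 65604) (nat_lit 9) (.e (nat_lit 335997) (nat_lit 1) (.e (nat_lit 57872) (nat_lit 264) .nil))))))) (.g (nat_lit 6) .nil .nil))) 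
(.lf (nat_lit 28157) (.g (nat_lit 2168) (.e (nat_lit 1199) (nat_lit 88) (.e (nat_lit 65622) (nat_lit 12) (.e (nat_lit 385093) (nat_lit 49) (.e (nat_lit 778326) (nat_lit 6) (.e (nat_lit 81948) (nat_lit 21) (.e (nat_lit 57870) (nat_lit 264) .nil)))))) (.g (nat_lit 6) .nil .nil))))))) (.nd (nat_lit 2) (.nd (nat_lit 3) (.nd (nat_lit 4) (.nd (nat_lit 5) 
(.lf (nat_lit 28099) (.g (nat_lit 2311) (.e (nat_lit 1199) (nat_lit 88) (.e (nat_lit 65617) (nat_lit 10) (.e (nat_lit 344169) (nat_lit 40) (.e (nat_lit 671748) (nat_lit 0) (.e (nat_lit 1586) (nat_lit 111) (.e (nat_lit 368384) (nat_lit 0) (.e (nat_lit 5905) (nat_lit 320) .nil))))))) (.g (nat_lit 4) .nil .nil))) 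
(.lf (nat_lit 28131) (.g (nat_lit 1709) (.e (nat_lit 1199) (nat_lit 88) (.e (nat_lit 65617) (nat_lit 10) (.e (nat_lit 344169) (nat_lit 40) (.e (nat_lit 671764) (nat_lit 6) (.e (nat_lit 81948) (nat_lit 21) (.e (nat_lit 57871) (nat_lit 264) .nil)))))) (.g (nat_lit 4) .nil .nil)))) (.nd (nat_lit 5) 
(.lf (nat_lit 28115) (.g (nat_lit 2267) (.e (nat_lit 1199) (nat_lit 88) (.e (nat_lit 65617) (nat_lit 10) (.e (nat_lit 344169) (nat_lit 40) (.e (nat_lit 671748) (nat_lit 0) (.e (nat_lit 1599) (nat_lit 111) (.e (nat_lit 368384) (nat_lit 0) (.e (nat_lit 5902) (nat_lit 320) .nil))))))) (.g (nat_lit 4) .nil .nil))) 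
(.lf (nat_lit 28147) (.g (nat_lit 2331) (.e (nat_lit 1199) (nat_lit 88) (.e (nat_lit 65617) (nat_lit 10) (.e (nat_lit 344177) (nat_lit 43) (.e (nat_lit 770072) (nat_lit 8) (.e (nat_lit 65619) (nat_lit 10) (.e (nat_lit 344090) (nat_lit 18) (.e (nat_lit 7236) (nat_lit 382) .nil))))))) (.g (nat_lit 4) .nil .nil))))) (.nd (nat_lit 4) (.nd (nat_lit 5) 
(.lf (nat_lit 28107) (.g (nat_lit 2578) (.e (nat_lit 1199) (nat_lit 88) (.e (nat_lit 65617) (nat_lit 10) (.e (nat_lit 344169) (nat_lit 40) (.e (nat_lit 671748) (nat_lit 0) (.e (nat_lit 1595) (nat_lit 111) (.e (nat_lit 368384) (nat_lit 0) (.e (nat_lit 5902) (nat_lit 320) .nil))))))) (.g (nat_lit 5) .nil .nil))) 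
(.lf (nat_lit 28139) (.g (nat_lit 1921) (.e (nat_lit 1199) (nat_lit 88) (.e (nat_lit 65617) (nat_lit 10) (.e (nat_lit 344177) (nat_lit 43) (.e (nat_lit 770058) (nat_lit 5) (.e (nat_lit 1589) (nat_lit 111) (.e (nat_lit 368384) (nat_lit 0) (.e (nat_lit 7236) (nat_lit 382) .nil))))))) (.g (nat_lit 4) .nil .nil)))) (.nd (nat_lit 5) 
(.lf (nat_lit 28123) (.g (nat_lit 3733) (.e (nat_lit 1199) (nat_lit 88) (.e (nat_lit 65617) (nat_lit 10) (.e (nat_lit 344169) (nat_lit 40) (.e (nat_lit 671762) (nat_lit 4) (.e (nat_lit 65598) (nat_lit 9) (.e (nat_lit 335997) (nat_lit 1) (.e (nat_lit 57872) (nat_lit 264) .nil))))))) (.g (nat_lit 6) .nil .nil))) 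
(.lf (nat_lit 28155) (.g (nat_lit 1255) (.e (nat_lit 1199) (nat_lit 88) (.e (nat_lit 65622) (nat_lit 12) (.e (nat_lit 385092) (nat_lit 49) (.e (nat_lit 778326) (nat_lit 6) (.e (nat_lit 81950) (nat_lit 21) (.e (nat_lit 57870) (nat_lit 264) .nil)))))) (.g (nat_lit 4) .nil .nil)))))) (.nd (nat_lit 3) (.nd (nat_lit 4) (.nd (nat_lit 5) 
(.lf (nat_lit 28103) (.g (nat_lit 2329) (.e (nat_lit 1199) (nat_lit 88) (.e (nat_lit 65617) (nat_lit 10) (.e (nat_lit 344169) (nat_lit 40) (.e (nat_lit 671748) (nat_lit 0) (.e (nat_lit 1589) (nat_lit 111) (.e (nat_lit 368384) (nat_lit 0) (.e (nat_lit 5905) (nat_lit 320) .nil))))))) (.g (nat_lit 4) .nil .nil))) 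
(.lf (nat_lit 28135) (.g (nat_lit 1757) (.e (nat_lit 1199) (nat_lit 88) (.e (nat_lit 65617) (nat_lit 10) (.e (nat_lit 344169) (nat_lit 40) (.e (nat_lit 671766) (nat_lit 8) (.e (nat_lit 131116) (nat_lit 9) (.e (nat_lit 335986) (nat_lit 1) (.e (nat_lit 57872) (nat_lit 264) .nil))))))) (.g (nat_lit 4) .nil .nil)))) (.nd (nat_lit 5) 
(.lf (nat_lit 28119) (.g (nat_lit 1382) (.e (nat_lit 1199) (nat_lit 88) (.e (nat_lit 65617) (nat_lit 10) (.e (nat_lit 344169) (nat_lit 40) (.e (nat_lit 671760) (nat_lit 4) (.e (nat_lit 65604) (nat_lit 9) .nil))))) .nil)) 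
(.lf (nat_lit 28151) (.g (nat_lit 1500) (.e (nat_lit 1199) (nat_lit 88) (.e (nat_lit 65619) (nat_lit 10) (.e (nat_lit 344097) (nat_lit 18) (.e (nat_lit 5907) (nat_lit 320) .nil)))) .nil)))) (.nd (nat_lit 4) (.nd (nat_lit 5) 
(.lf (nat_lit 28111) (.g (nat_lit 2407) (.e (nat_lit 1199) (nat_lit 88) (.e (nat_lit 65617) (nat_lit 10) (.e (nat_lit 344169) (nat_lit 40) (.e (nat_lit 671748) (nat_lit 0) (.e (nat_lit 1598) (nat_lit 111) (.e (nat_lit 368384) (nat_lit 0) (.e (nat_lit 5902) (nat_lit 320) .nil))))))) (.g (nat_lit 4) .nil .nil))) 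
(.lf (nat_lit 28143) (.g (nat_lit 1843) (.e (nat_lit 1199) (nat_lit 88) (.e (nat_lit 65617) (nat_lit 10) (.e (nat_lit 344177) (nat_lit 43) (.e (nat_lit 770071) (nat_lit 8) (.e (nat_lit 65619) (nat_lit 10) .nil))))) .nil))) (.nd (nat_lit 5) 
(.lf (nat_lit 28127) (.g (nat_lit 2331) (.e (nat_lit 1199) (nat_lit 88) (.e (nat_lit 65617) (nat_lit 10) (.e (nat_lit 344169) (nat_lit 40) (.e (nat_lit 671762) (nat_lit 4) (.e (nat_lit 65619) (nat_lit 10) (.e (nat_lit 344090) (nat_lit 18) (.e (nat_lit 5896) (nat_lit 320) .nil))))))) (.g (nat_lit 4) .nil .nil))) 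
(.lf (nat_lit 28159) (.g (nat_lit 1754) (.e (nat_lit 1199) (nat_lit 88) (.e (nat_lit 65622) (nat_lit 12) (.e (nat_lit 385093) (nat_lit 49) (.e (nat_lit 778326) (nat_lit 6) (.e (nat_lit 81950) (nat_lit 21) (.e (nat_lit 57871) (nat_lit 264) .nil)))))) (.g (nat_lit 4) .nil .nil)))))))))

noncomputable def tv389 : DT := (.nd (nat_lit 0) (.nd (nat_lit 1) (.nd (nat_lit 2) (.nd (nat_lit 3) (.nd (nat_lit 4) (.nd (nat_lit 5) 
(.lf (nat_lit 28160) (.g (nat_lit 1012) (.e (nat_lit 1199) (nat_lit 88) (.e (nat_lit 65622) (nat_lit 12) (.e (nat_lit 385093) (nat_lit 49) (.e (nat_lit 778327) (nat_lit 6) .nil)))) .nil)) 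
(.lf (nat_lit 28192) (.g (nat_lit 1972) (.e (nat_lit 1199) (nat_lit 88) (.e (nat_lit 65622) (nat_lit 12) (.e (nat_lit 385105) (nat_lit 50) (.e (nat_lit 786483) (nat_lit 30) (.e (nat_lit 368384) (nat_lit 0) (.e (nat_lit 5905) (nat_lit 320) .nil)))))) (.g (nat_lit 4) .nil .nil)))) (.nd (nat_lit 5) 
(.lf (nat_lit 28176) (.g (nat_lit 2971) (.e (nat_lit 1199) (nat_lit 88) (.e (nat_lit 65622) (nat_lit 12) (.e (nat_lit 385105) (nat_lit 50) (.e (nat_lit 786478) (nat_lit 29) (.e (nat_lit 352309) (nat_lit 21) (.e (nat_lit 57870) (nat_lit 264) .nil)))))) (.g (nat_lit 6) .nil .nil))) 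
(.lf (nat_lit 28208) (.g (nat_lit 3901) (.e (nat_lit 1199) (nat_lit 88) (.e (nat_lit 65622) (nat_lit 12) (.e (nat_lit 385106) (nat_lit 50) (.e (nat_lit 786483) (nat_lit 30) (.e (nat_lit 360451) (nat_lit 0) (.e (nat_lit 5896) (nat_lit 320) .nil)))))) (.g (nat_lit 0) .nil .nil))))) (.nd (nat_lit 4) (.nd (nat_lit 5) 
(.lf (nat_lit 28168) (.g (nat_lit 2123) (.e (nat_lit 1199) (nat_lit 88) (.e (nat_lit 65622) (nat_lit 12) (.e (nat_lit 385094) (nat_lit 49) (.e (nat_lit 778326) (nat_lit 6) (.e (nat_lit 81950) (nat_lit 21) (.e (nat_lit 57870) (nat_lit 264) .nil)))))) (.g (nat_lit 6) .nil .nil))) 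
(.lf (nat_lit 28200) (.g (nat_lit 3348) (.e (nat_lit 1199) (nat_lit 88) (.e (nat_lit 65622) (nat_lit 12) (.e (nat_lit 385106) (nat_lit 50) (.e (nat_lit 786480) (nat_lit 29) (.e (nat_lit 352309) (nat_lit 21) (.e (nat_lit 57870) (nat_lit 264) .nil)))))) (.g (nat_lit 0) .nil .nil)))) (.nd (nat_lit 5) 
(.lf (nat_lit 28184) (.g (nat_lit 2320) (.e (nat_lit 1199) (nat_lit 88) (.e (nat_lit 65622) (nat_lit 12) (.e (nat_lit 385105) (nat_lit 50) (.e (nat_lit 786481) (nat_lit 30) (.e (nat_lit 360452) (nat_lit 0) (.e (nat_lit 5905) (nat_lit 320) .nil)))))) (.g (nat_lit 5) .nil .nil))) 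
(.lf (nat_lit 28216) (.g (nat_lit 2538) (.e (nat_lit 1199) (nat_lit 88) (.e (nat_lit 65624) (nat_lit 12) (.e (nat_lit 385092) (nat_lit 49) (.e (nat_lit 778326) (nat_lit 6) (.e (nat_lit 81948) (nat_lit 21) (.e (nat_lit 57872) (nat_lit 264) .nil)))))) (.g (nat_lit 6) .nil .nil)))))) (.nd (nat_lit 3) (.nd (nat_lit 4) (.nd (nat_lit 5) 
(.lf (nat_lit 28164) (.g (nat_lit 1662) (.e (nat_lit 1199) (nat_lit 88) (.e (nat_lit 65622) (nat_lit 12) (.e (nat_lit 385093) (nat_lit 49) (.e (nat_lit 778327) (nat_lit 6) (.e (nat_lit 81950) (nat_lit 21) (.e (nat_lit 57870) (nat_lit 264) .nil)))))) (.g (nat_lit 4) .nil .nil))) 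
(.lf (nat_lit 28196) (.g (nat_lit 2083) (.e (nat_lit 1199) (nat_lit 88) (.e (nat_lit 65622) (nat_lit 12) (.e (nat_lit 385106) (nat_lit 50) (.e (nat_lit 786478) (nat_lit 29) (.e (nat_lit 352309) (nat_lit 21) (.e (nat_lit 57871) (nat_lit 264) .nil)))))) (.g (nat_lit 4) .nil .nil)))) (.nd (nat_lit 5) 
(.lf (nat_lit 28180) (.g (nat_lit 2123) (.e (nat_lit 1199) (nat_lit 88) (.e (nat_lit 65622) (nat_lit 12) (.e (nat_lit 385105) (nat_lit 50) (.e (nat_lit 786479) (nat_lit 29) (.e (nat_lit 352309) (nat_lit 21) (.e (nat_lit 57871) (nat_lit 264) .nil)))))) (.g (nat_lit 4) .nil .nil))) 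
(.lf (nat_lit 28212) (.g (nat_lit 1903) (.e (nat_lit 1199) (nat_lit 88) (.e (nat_lit 65622) (nat_lit 12) (.e (nat_lit 385106) (nat_lit 50) (.e (nat_lit 786483) (nat_lit 30) (.e (nat_lit 368384) (nat_lit 0) (.e (nat_lit 5905) (nat_lit 320) .nil)))))) (.g (nat_lit 4) .nil .nil))))) (.nd (nat_lit 4) (.nd (nat_lit 5) 
(.lf (nat_lit 28172) (.g (nat_lit 1672) (.e (nat_lit 1199) (nat_lit 88) (.e (nat_lit 65622) (nat_lit 12) (.e (nat_lit 385094) (nat_lit 49) (.e (nat_lit 778327) (nat_lit 6) (.e (nat_lit 81949) (nat_lit 21) (.e (nat_lit 57873) (nat_lit 264) .nil)))))) (.g (nat_lit 4) .nil .nil))) 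
(.lf (nat_lit 28204) (.g (nat_lit 1894) (.e (nat_lit 1199) (nat_lit 88) (.e (nat_lit 65622) (nat_lit 12) (.e (nat_lit 385106) (nat_lit 50) (.e (nat_lit 786481) (nat_lit 30) (.e (nat_lit 360452) (nat_lit 0) (.e (nat_lit 5906) (nat_lit 320) .nil)))))) (.g (nat_lit 4) .nil .nil)))) (.nd (nat_lit 5) 
(.lf (nat_lit 28188) (.g (nat_lit 2912) (.e (nat_lit 1199) (nat_lit 88) (.e (nat_lit 65622) (nat_lit 12) (.e (nat_lit 385105) (nat_lit 50) (.e (nat_lit 786483) (nat_lit 30) (.e (nat_lit 360450) (nat_lit 0) (.e (nat_lit 5896) (nat_lit 320) .nil)))))) (.g (nat_lit 5) .nil .nil))) 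
(.lf (nat_lit 28220) (.g (nat_lit 1781) (.e (nat_lit 1199) (nat_lit 88) (.e (nat_lit 65624) (nat_lit 12) (.e (nat_lit 385092) (nat_lit 49) (.e (nat_lit 778327) (nat_lit 6) (.e (nat_lit 81950) (nat_lit 21) (.e (nat_lit 57872) (nat_lit 264) .nil)))))) (.g (nat_lit 4) .nil .nil))))))) (.nd (nat_lit 2) (.nd (nat_lit 3) (.nd (nat_lit 4) (.nd (nat_lit 5) 
(.lf (nat_lit 28162) (.g (nat_lit 2017) (.e (nat_lit 1199) (nat_lit 88) (.e (nat_lit 65622) (nat_lit 12) (.e (nat_lit 385093) (nat_lit 49) (.e (nat_lit 778327) (nat_lit 6) (.e (nat_lit 81949) (nat_lit 21) (.e (nat_lit 57870) (nat_lit 264) .nil)))))) (.g (nat_lit 4) .nil .nil))) 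
(.lf (nat_lit 28194) (.g (nat_lit 1417) (.e (nat_lit 1199) (nat_lit 88) (.e (nat_lit 65622) (nat_lit 12) (.e (nat_lit 385105) (nat_lit 50) (.e (nat_lit 786485) (nat_lit 32) .nil)))) .nil))) (.nd (nat_lit 5) 
(.lf (nat_lit 28178) (.g (nat_lit 3324) (.e (nat_lit 1199) (nat_lit 88) (.e (nat_lit 65622) (nat_lit 12) (.e (nat_lit 385105) (nat_lit 50) (.e (nat_lit 786478) (nat_lit 29) (.e (nat_lit 352309) (nat_lit 21) (.e (nat_lit 57872) (nat_lit 264) .nil)))))) (.g (nat_lit 6) .nil .nil))) 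
(.lf (nat_lit 28210) (.g (nat_lit 3219) (.e (nat_lit 1199) (nat_lit 88) (.e (nat_lit 65622) (nat_lit 12) (.e (nat_lit 385106) (nat_lit 50) (.e (nat_lit 786483) (nat_lit 30) (.e (nat_lit 360454) (nat_lit 0) (.e (nat_lit 5907) (nat_lit 320) .nil)))))) (.g (nat_lit 6) .nil .nil))))) (.nd (nat_lit 4) (.nd (nat_lit 5) 
(.lf (nat_lit 28170) (.g (nat_lit 1377) (.e (nat_lit 1199) (nat_lit 88) (.e (nat_lit 65622) (nat_lit 12) (.e (nat_lit 385094) (nat_lit 49) (.e (nat_lit 778327) (nat_lit 6) (.e (nat_lit 81948) (nat_lit 21) .nil))))) .nil)) 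
(.lf (nat_lit 28202) (.g (nat_lit 3504) (.e (nat_lit 1199) (nat_lit 88) (.e (nat_lit 65622) (nat_lit 12) (.e (nat_lit 385106) (nat_lit 50) (.e (nat_lit 786480) (nat_lit 29) (.e (nat_lit 352309) (nat_lit 21) (.e (nat_lit 57872) (nat_lit 264) .nil)))))) (.g (nat_lit 6) .nil .nil)))) (.nd (nat_lit 5) 
(.lf (nat_lit 28186) (.g (nat_lit 1515) (.e (nat_lit 1199) (nat_lit 88) (.e (nat_lit 65622) (nat_lit 12) (.e (nat_lit 385105) (nat_lit 50) (.e (nat_lit 786481) (nat_lit 30) (.e (nat_lit 368384) (nat_lit 0) .nil))))) .nil)) 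
(.lf (nat_lit 28218) (.g (nat_lit 2066) (.e (nat_lit 1199) (nat_lit 88) (.e (nat_lit 65624) (nat_lit 12) (.e (nat_lit 385092) (nat_lit 49) (.e (nat_lit 778326) (nat_lit 6) (.e (nat_lit 81950) (nat_lit 21) (.e (nat_lit 57871) (nat_lit 264) .nil)))))) (.g (nat_lit 5) .nil .nil)))))) (.nd (nat_lit 3) (.nd (nat_lit 4) (.nd (nat_lit 5) 
(.lf (nat_lit 28166) (.g (nat_lit 2028) (.e (nat_lit 1199) (nat_lit 88) (.e (nat_lit 65622) (nat_lit 12) (.e (nat_lit 385094) (nat_lit 49) (.e (nat_lit 778326) (nat_lit 6) (.e (nat_lit 81948) (nat_lit 21) (.e (nat_lit 57870) (nat_lit 264) .nil)))))) (.g (nat_lit 6) .nil .nil))) 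
(.lf (nat_lit 28198) (.g (nat_lit 2054) (.e (nat_lit 1199) (nat_lit 88) (.e (nat_lit 65622) (nat_lit 12) (.e (nat_lit 385106) (nat_lit 50) (.e (nat_lit 786479) (nat_lit 29) (.e (nat_lit 352309) (nat_lit 21) (.e (nat_lit 57870) (nat_lit 264) .nil)))))) (.g (nat_lit 5) .nil .nil)))) (.nd (nat_lit 5) 
(.lf (nat_lit 28182) (.g (nat_lit 3419) (.e (nat_lit 1199) (nat_lit 88) (.e (nat_lit 65622) (nat_lit 12) (.e (nat_lit 385105) (nat_lit 50) (.e (nat_lit 786480) (nat_lit 29) (.e (nat_lit 352309) (nat_lit 21) (.e (nat_lit 57871) (nat_lit 264) .nil)))))) (.g (nat_lit 6) .nil .nil))) 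
(.lf (nat_lit 28214) (.g (nat_lit 1201) (.e (nat_lit 1199) (nat_lit 88) (.e (nat_lit 65623) (nat_lit 12) (.e (nat_lit 385094) (nat_lit 49) (.e (nat_lit 778326) (nat_lit 6) .nil)))) .nil)))) (.nd (nat_lit 4) (.nd (nat_lit 5) 
(.lf (nat_lit 28174) (.g (nat_lit 1829) (.e (nat_lit 1199) (nat_lit 88) (.e (nat_lit 65622) (nat_lit 12) (.e (nat_lit 385094) (nat_lit 49) (.e (nat_lit 778327) (nat_lit 6) (.e (nat_lit 81950) (nat_lit 21) (.e (nat_lit 57872) (nat_lit 264) .nil)))))) (.g (nat_lit 4) .nil .nil))) 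
(.lf (nat_lit 28206) (.g (nat_lit 1633) (.e (nat_lit 1199) (nat_lit 88) (.e (nat_lit 65622) (nat_lit 12) (.e (nat_lit 385106) (nat_lit 50) (.e (nat_lit 786481) (nat_lit 30) (.e (nat_lit 368384) (nat_lit 0) (.e (nat_lit 5905) (nat_lit 320) .nil)))))) (.g (nat_lit 4) .nil .nil)))) (.nd (nat_lit 5) 
(.lf (nat_lit 28190) (.g (nat_lit 3272) (.e (nat_lit 1199) (nat_lit 88) (.e (nat_lit 65622) (nat_lit 12) (.e (nat_lit 385105) (nat_lit 50) (.e (nat_lit 786483) (nat_lit 30) (.e (nat_lit 360454) (nat_lit 0) (.e (nat_lit 5907) (nat_lit 320) .nil)))))) (.g (nat_lit 6) .nil .nil))) 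
(.lf (nat_lit 28222) (.g (nat_lit 2411) (.e (nat_lit 1199) (nat_lit 88) (.e (nat_lit 65624) (nat_lit 12) (.e (nat_lit 385093) (nat_lit 49) (.e (nat_lit 778290) (nat_lit 0) (.e (nat_lit 1558) (nat_lit 110) .nil))))) .nil))))))) (.nd (nat_lit 1) (.nd (nat_lit 2) (.nd (nat_lit 3) (.nd (nat_lit 4) (.nd (nat_lit 5) 
(.lf (nat_lit 28161) (.g (nat_lit 1523) (.e (nat_lit 1199) (nat_lit 88) (.e (nat_lit 65622) (nat_lit 12) (.e (nat_lit 385093) (nat_lit 49) (.e (nat_lit 778327) (nat_lit 6) (.e (nat_lit 81948) (nat_lit 21) .nil))))) .nil)) 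
(.lf (nat_lit 28193) (.g (nat_lit 2406) (.e (nat_lit 1199) (nat_lit 88) (.e (nat_lit 65622) (nat_lit 12) (.e (nat_lit 385105) (nat_lit 50) (.e (nat_lit 786483) (nat_lit 30) (.e (nat_lit 368384) (nat_lit 0) (.e (nat_lit 5906) (nat_lit 320) .nil)))))) (.g (nat_lit 4) .nil .nil)))) (.nd (nat_lit 5) 
(.lf (nat_lit 28177) (.g (nat_lit 2749) (.e (nat_lit 1199) (nat_lit 88) (.e (nat_lit 65622) (nat_lit 12) (.e (nat_lit 385105) (nat_lit 50) (.e (nat_lit 786478) (nat_lit 29) (.e (nat_lit 352309) (nat_lit 21) (.e (nat_lit 57871) (nat_lit 264) .nil)))))) (.g (nat_lit 5) .nil .nil))) 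
(.lf (nat_lit 28209) (.g (nat_lit 2074) (.e (nat_lit 1199) (nat_lit 88) (.e (nat_lit 65622) (nat_lit 12) (.e (nat_lit 385106) (nat_lit 50) (.e (nat_lit 786483) (nat_lit 30) (.e (nat_lit 360452) (nat_lit 0) .nil))))) .nil)))) (.nd (nat_lit 4) (.nd (nat_lit 5) 
(.lf (nat_lit 28169) (.g (nat_lit 1613) (.e (nat_lit 1199) (nat_lit 88) (.e (nat_lit 65622) (nat_lit 12) (.e (nat_lit 385094) (nat_lit 49) (.e (nat_lit 778326) (nat_lit 6) (.e (nat_lit 81950) (nat_lit 21) (.e (nat_lit 57871) (nat_lit 264) .nil)))))) (.g (nat_lit 4) .nil .nil))) 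
(.lf (nat_lit 28201) (.g (nat_lit 3164) (.e (nat_lit 1199) (nat_lit 88) (.e (nat_lit 65622) (nat_lit 12) (.e (nat_lit 385106) (nat_lit 50) (.e (nat_lit 786480) (nat_lit 29) (.e (nat_lit 352309) (nat_lit 21) (.e (nat_lit 57871) (nat_lit 264) .nil)))))) (.g (nat_lit 6) .nil .nil)))) (.nd (nat_lit 5) 
(.lf (nat_lit 28185) (.g (nat_lit 1990) (.e (nat_lit 1199) (nat_lit 88) (.e (nat_lit 65622) (nat_lit 12) (.e (nat_lit 385105) (nat_lit 50) (.e (nat_lit 786481) (nat_lit 30) (.e (nat_lit 360452) (nat_lit 0) (.e (nat_lit 5906) (nat_lit 320) .nil)))))) (.g (nat_lit 4) .nil .nil))) 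
(.lf (nat_lit 28217) (.g (nat_lit 2450) (.e (nat_lit 1199) (nat_lit 88) (.e (nat_lit 65624) (nat_lit 12) (.e (nat_lit 385092) (nat_lit 49) (.e (nat_lit 778326) (nat_lit 6) (.e (nat_lit 81950) (nat_lit 21) (.e (nat_lit 57870) (nat_lit 264) .nil)))))) (.g (nat_lit 6) .nil .nil)))))) (.nd (nat_lit 3) (.nd (nat_lit 4) (.nd (nat_lit 5) 
(.lf (nat_lit 28165) (.g (nat_lit 1979) (.e (nat_lit 1199) (nat_lit 88) (.e (nat_lit 65622) (nat_lit 12) (.e (nat_lit 385093) (nat_lit 49) (.e (nat_lit 778327) (nat_lit 6) (.e (nat_lit 81950) (nat_lit 21) (.e (nat_lit 57872) (nat_lit 264) .nil)))))) (.g (nat_lit 4) .nil .nil))) 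
(.lf (nat_lit 28197) (.g (nat_lit 2644) (.e (nat_lit 1199) (nat_lit 88) (.e (nat_lit 65622) (nat_lit 12) (.e (nat_lit 385106) (nat_lit 50) (.e (nat_lit 786478) (nat_lit 29) (.e (nat_lit 352309) (nat_lit 21) (.e (nat_lit 57872) (nat_lit 264) .nil)))))) (.g (nat_lit 5) .nil .nil)))) (.nd (nat_lit 5) 
(.lf (nat_lit 28181) (.g (nat_lit 3549) (.e (nat_lit 1199) (nat_lit 88) (.e (nat_lit 65622) (nat_lit 12) (.e (nat_lit 385105) (nat_lit 50) (.e (nat_lit 786480) (nat_lit 29) (.e (nat_lit 352309) (nat_lit 21) (.e (nat_lit 57870) (nat_lit 264) .nil)))))) (.g (nat_lit 0) .nil .nil))) 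
(.lf (nat_lit 28213) (.g (nat_lit 2337) (.e (nat_lit 1199) (nat_lit 88) (.e (nat_lit 65622) (nat_lit 12) (.e (nat_lit 385106) (nat_lit 50) (.e (nat_lit 786483) (nat_lit 30) (.e (nat_lit 368384) (nat_lit 0) (.e (nat_lit 5906) (nat_lit 320) .nil)))))) (.g (nat_lit 4) .nil .nil))))) (.nd (nat_lit 4) (.nd (nat_lit 5) 
(.lf (nat_lit 28173) (.g (nat_lit 1536) (.e (nat_lit 1199) (nat_lit 88) (.e (nat_lit 65622) (nat_lit 12) (.e (nat_lit 385094) (nat_lit 49) (.e (nat_lit 778327) (nat_lit 6) (.e (nat_lit 81950) (nat_lit 21) (.e (nat_lit 57870) (nat_lit 264) .nil)))))) (.g (nat_lit 4) .nil .nil))) 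
(.lf (nat_lit 28205) (.g (nat_lit 1453) (.e (nat_lit 1199) (nat_lit 88) (.e (nat_lit 65622) (nat_lit 12) (.e (nat_lit 385106) (nat_lit 50) (.e (nat_lit 786481) (nat_lit 30) (.e (nat_lit 368384) (nat_lit 0) .nil))))) .nil))) (.nd (nat_lit 5) 
(.lf (nat_lit 28189) (.g (nat_lit 3892) (.e (nat_lit 1199) (nat_lit 88) (.e (nat_lit 65622) (nat_lit 12) (.e (nat_lit 385105) (nat_lit 50) (.e (nat_lit 786483) (nat_lit 30) (.e (nat_lit 360451) (nat_lit 0) (.e (nat_lit 5896) (nat_lit 320) .nil)))))) (.g (nat_lit 0) .nil .nil))) 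
(.lf (nat_lit 28221) (.g (nat_lit 2249) (.e (nat_lit 1199) (nat_lit 88) (.e (nat_lit 65624) (nat_lit 12) (.e (nat_lit 385093) (nat_lit 49) (.e (nat_lit 778290) (nat_lit 0) .nil)))) .nil)))))) (.nd (nat_lit 2) (.nd (nat_lit 3) (.nd (nat_lit 4) (.nd (nat_lit 5) 
(.lf (nat_lit 28163) (.g (nat_lit 1841) (.e (nat_lit 1199) (nat_lit 88) (.e (nat_lit 65622) (nat_lit 12) (.e (nat_lit 385093) (nat_lit 49) (.e (nat_lit 778327) (nat_lit 6) (.e (nat_lit 81949) (nat_lit 21) (.e (nat_lit 57873) (nat_lit 264) .nil)))))) (.g (nat_lit 4) .nil .nil))) 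
(.lf (nat_lit 28195) (.g (nat_lit 2305) (.e (nat_lit 1199) (nat_lit 88) (.e (nat_lit 65622) (nat_lit 12) (.e (nat_lit 385106) (nat_lit 50) (.e (nat_lit 786478) (nat_lit 29) (.e (nat_lit 352309) (nat_lit 21) (.e (nat_lit 57870) (nat_lit 264) .nil)))))) (.g (nat_lit 5) .nil .nil)))) (.nd (nat_lit 5) 
(.lf (nat_lit 28179) (.g (nat_lit 2211) (.e (nat_lit 1199) (nat_lit 88) (.e (nat_lit 65622) (nat_lit 12) (.e (nat_lit 385105) (nat_lit 50) (.e (nat_lit 786479) (nat_lit 29) (.e (nat_lit 352309) (nat_lit 21) (.e (nat_lit 57870) (nat_lit 264) .nil)))))) (.g (nat_lit 5) .nil .nil))) 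
(.lf (nat_lit 28211) (.g (nat_lit 1752) (.e (nat_lit 1199) (nat_lit 88) (.e (nat_lit 65622) (nat_lit 12) (.e (nat_lit 385106) (nat_lit 50) (.e (nat_lit 786483) (nat_lit 30) (.e (nat_lit 368384) (nat_lit 0) .nil))))) .nil)))) (.nd (nat_lit 4) (.nd (nat_lit 5) 
(.lf (nat_lit 28171) (.g (nat_lit 1849) (.e (nat_lit 1199) (nat_lit 88) (.e (nat_lit 65622) (nat_lit 12) (.e (nat_lit 385094) (nat_lit 49) (.e (nat_lit 778327) (nat_lit 6) (.e (nat_lit 81949) (nat_lit 21) (.e (nat_lit 57870) (nat_lit 264) .nil)))))) (.g (nat_lit 4) .nil .nil))) 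
(.lf (nat_lit 28203) (.g (nat_lit 3760) (.e (nat_lit 1199) (nat_lit 88) (.e (nat_lit 65622) (nat_lit 12) (.e (nat_lit 385106) (nat_lit 50) (.e (nat_lit 786481) (nat_lit 30) (.e (nat_lit 360449) (nat_lit 0) (.e (nat_lit 5896) (nat_lit 320) .nil)))))) (.g (nat_lit 0) .nil .nil)))) (.nd (nat_lit 5) 
(.lf (nat_lit 28187) (.g (nat_lit 1731) (.e (nat_lit 1199) (nat_lit 88) (.e (nat_lit 65622) (nat_lit 12) (.e (nat_lit 385105) (nat_lit 50) (.e (nat_lit 786481) (nat_lit 30) (.e (nat_lit 368384) (nat_lit 0) (.e (nat_lit 5905) (nat_lit 320) .nil)))))) (.g (nat_lit 4) .nil .nil))) 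
(.lf (nat_lit 28219) (.g (nat_lit 1059) (.e (nat_lit 1199) (nat_lit 88) (.e (nat_lit 65624) (nat_lit 12) (.e (nat_lit 385092) (nat_lit 49) (.e (nat_lit 778327) (nat_lit 6) .nil)))) .nil))))) (.nd (nat_lit 3) (.nd (nat_lit 4) (.nd (nat_lit 5) 
(.lf (nat_lit 28167) (.g (nat_lit 1487) (.e (nat_lit 1199) (nat_lit 88) (.e (nat_lit 65622) (nat_lit 12) (.e (nat_lit 385094) (nat_lit 49) (.e (nat_lit 778326) (nat_lit 6) (.e (nat_lit 81948) (nat_lit 21) (.e (nat_lit 57871) (nat_lit 264) .nil)))))) (.g (nat_lit 4) .nil .nil))) 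
(.lf (nat_lit 28199) (.g (nat_lit 1966) (.e (nat_lit 1199) (nat_lit 88) (.e (nat_lit 65622) (nat_lit 12) (.e (nat_lit 385106) (nat_lit 50) (.e (nat_lit 786479) (nat_lit 29) (.e (nat_lit 352309) (nat_lit 21) (.e (nat_lit 57871) (nat_lit 264) .nil)))))) (.g (nat_lit 4) .nil .nil)))) (.nd (nat_lit 5) 
(.lf (nat_lit 28183) (.g (nat_lit 3757) (.e (nat_lit 1199) (nat_lit 88) (.e (nat_lit 65622) (nat_lit 12) (.e (nat_lit 385105) (nat_lit 50) (.e (nat_lit 786481) (nat_lit 30) (.e (nat_lit 360449) (nat_lit 0) (.e (nat_lit 5896) (nat_lit 320) .nil)))))) (.g (nat_lit 0) .nil .nil))) 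
(.lf (nat_lit 28215) (.g (nat_lit 1912) (.e (nat_lit 1199) (nat_lit 88) (.e (nat_lit 65624) (nat_lit 12) (.e (nat_lit 385092) (nat_lit 49) (.e (nat_lit 778326) (nat_lit 6) (.e (nat_lit 81948) (nat_lit 21) (.e (nat_lit 57871) (nat_lit 264) .nil)))))) (.g (nat_lit 5) .nil .nil))))) (.nd (nat_lit 4) (.nd (nat_lit 5) 
(.lf (nat_lit 28175) (.g (nat_lit 1529) (.e (nat_lit 1199) (nat_lit 88) (.e (nat_lit 65622) (nat_lit 12) (.e (nat_lit 385104) (nat_lit 50) (.e (nat_lit 786480) (nat_lit 29) (.e (nat_lit 352309) (nat_lit 21) (.e (nat_lit 57871) (nat_lit 264) .nil)))))) (.g (nat_lit 4) .nil .nil))) 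
(.lf (nat_lit 28207) (.g (nat_lit 3170) (.e (nat_lit 1199) (nat_lit 88) (.e (nat_lit 65622) (nat_lit 12) (.e (nat_lit 385106) (nat_lit 50) (.e (nat_lit 786483) (nat_lit 30) (.e (nat_lit 360450) (nat_lit 0) (.e (nat_lit 5896) (nat_lit 320) .nil)))))) (.g (nat_lit 5) .nil .nil)))) (.nd (nat_lit 5) 
(.lf (nat_lit 28191) (.g (nat_lit 1754) (.e (nat_lit 1199) (nat_lit 88) (.e (nat_lit 65622) (nat_lit 12) (.e (nat_lit 385105) (nat_lit 50) (.e (nat_lit 786483) (nat_lit 30) (.e (nat_lit 368384) (nat_lit 0) .nil))))) .nil)) 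
(.lf (nat_lit 28223) (.g (nat_lit 1129) (.e (nat_lit 1199) (nat_lit 88) (.e (nat_lit 65624) (nat_lit 12) (.e (nat_lit 385093) (nat_lit 49) (.e (nat_lit 778323) (nat_lit 5) .nil)))) .nil))))))))

noncomputable def tv390 : DT := (.nd (nat_lit 0) (.nd (nat_lit 1) (.nd (nat_lit 2) (.nd (nat_lit 3) (.nd (nat_lit 4) (.nd (nat_lit 5) 
(.lf (nat_lit 28224) (.g (nat_lit 2073) (.e (nat_lit 1199) (nat_lit 88) (.e (nat_lit 65624) (nat_lit 12) (.e (nat_lit 385093) (nat_lit 49) (.e (nat_lit 778323) (nat_lit 5) (.e (nat_lit 81664) (nat_lit 40) (.e (nat_lit 1181) (nat_lit 87) (.e (nat_lit 57870) (nat_lit 264) .nil))))))) (.g (nat_lit 4) .nil .nil))) 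
(.lf (nat_lit 28256) (.g (nat_lit 2256) (.e (nat_lit 1199) (nat_lit 88) (.e (nat_lit 65624) (nat_lit 12) (.e (nat_lit 385105) (nat_lit 50) (.e (nat_lit 786479) (nat_lit 29) (.e (nat_lit 352309) (nat_lit 21) (.e (nat_lit 57872) (nat_lit 264) .nil)))))) (.g (nat_lit 5) .nil .nil)))) (.nd (nat_lit 5) 
(.lf (nat_lit 28240) (.g (nat_lit 3096) (.e (nat_lit 1199) (nat_lit 88) (.e (nat_lit 65624) (nat_lit 12) (.e (nat_lit 385094) (nat_lit 49) (.e (nat_lit 778326) (nat_lit 6) (.e (nat_lit 81950) (nat_lit 21) (.e (nat_lit 57872) (nat_lit 264) .nil)))))) (.g (nat_lit 0) .nil .nil))) 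
(.lf (nat_lit 28272) (.g (nat_lit 3417) (.e (nat_lit 1199) (nat_lit 88) (.e (nat_lit 65624) (nat_lit 12) (.e (nat_lit 385106) (nat_lit 50) (.e (nat_lit 786478) (nat_lit 29) (.e (nat_lit 352309) (nat_lit 21) (.e (nat_lit 57872) (nat_lit 264) .nil)))))) (.g (nat_lit 6) .nil .nil))))) (.nd (nat_lit 4) (.nd (nat_lit 5) 
(.lf (nat_lit 28232) (.g (nat_lit 2413) (.e (nat_lit 1199) (nat_lit 88) (.e (nat_lit 65624) (nat_lit 12) (.e (nat_lit 385093) (nat_lit 49) (.e (nat_lit 778327) (nat_lit 6) (.e (nat_lit 81949) (nat_lit 21) (.e (nat_lit 57870) (nat_lit 264) .nil)))))) (.g (nat_lit 5) .nil .nil))) 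
(.lf (nat_lit 28264) (.g (nat_lit 4042) (.e (nat_lit 1199) (nat_lit 88) (.e (nat_lit 65624) (nat_lit 12) (.e (nat_lit 385105) (nat_lit 50) (.e (nat_lit 786483) (nat_lit 30) (.e (nat_lit 360451) (nat_lit 0) (.e (nat_lit 5896) (nat_lit 320) .nil)))))) (.g (nat_lit 0) .nil .nil)))) (.nd (nat_lit 5) 
(.lf (nat_lit 28248) (.g (nat_lit 2513) (.e (nat_lit 1199) (nat_lit 88) (.e (nat_lit 65624) (nat_lit 12) (.e (nat_lit 385094) (nat_lit 49) (.e (nat_lit 778327) (nat_lit 6) (.e (nat_lit 81950) (nat_lit 21) (.e (nat_lit 57873) (nat_lit 264) .nil)))))) (.g (nat_lit 5) .nil .nil))) 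
(.lf (nat_lit 28280) (.g (nat_lit 1680) (.e (nat_lit 1199) (nat_lit 88) (.e (nat_lit 65624) (nat_lit 12) (.e (nat_lit 385106) (nat_lit 50) (.e (nat_lit 786481) (nat_lit 30) (.e (nat_lit 368384) (nat_lit 0) (.e (nat_lit 5907) (nat_lit 320) .nil)))))) (.g (nat_lit 4) .nil .nil)))))) (.nd (nat_lit 3) (.nd (nat_lit 4) (.nd (nat_lit 5) 
(.lf (nat_lit 28228) (.g (nat_lit 2992) (.e (nat_lit 1199) (nat_lit 88) (.e (nat_lit 65624) (nat_lit 12) (.e (nat_lit 385093) (nat_lit 49) (.e (nat_lit 778326) (nat_lit 6) (.e (nat_lit 81950) (nat_lit 21) (.e (nat_lit 57872) (nat_lit 264) .nil)))))) (.g (nat_lit 0) .nil .nil))) 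
(.lf (nat_lit 28260) (.g (nat_lit 3813) (.e (nat_lit 1199) (nat_lit 88) (.e (nat_lit 65624) (nat_lit 12) (.e (nat_lit 385105) (nat_lit 50) (.e (nat_lit 786481) (nat_lit 30) (.e (nat_lit 360449) (nat_lit 0) (.e (nat_lit 5896) (nat_lit 320) .nil)))))) (.g (nat_lit 0) .nil .nil)))) (.nd (nat_lit 5) 
(.lf (nat_lit 28244) (.g (nat_lit 2455) (.e (nat_lit 1199) (nat_lit 88) (.e (nat_lit 65624) (nat_lit 12) (.e (nat_lit 385094) (nat_lit 49) (.e (nat_lit 778327) (nat_lit 6) (.e (nat_lit 81949) (nat_lit 21) (.e (nat_lit 57870) (nat_lit 264) .nil)))))) (.g (nat_lit 5) .nil .nil))) 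
(.lf (nat_lit 28276) (.g (nat_lit 3483) (.e (nat_lit 1199) (nat_lit 88) (.e (nat_lit 65624) (nat_lit 12) (.e (nat_lit 385106) (nat_lit 50) (.e (nat_lit 786480) (nat_lit 29) (.e (nat_lit 352309) (nat_lit 21) (.e (nat_lit 57870) (nat_lit 264) .nil)))))) (.g (nat_lit 6) .nil .nil))))) (.nd (nat_lit 4) (.nd (nat_lit 5) 
(.lf (nat_lit 28236) (.g (nat_lit 2681) (.e (nat_lit 1199) (nat_lit 88) (.e (nat_lit 65624) (nat_lit 12) (.e (nat_lit 385094) (nat_lit 49) (.e (nat_lit 778326) (nat_lit 6) (.e (nat_lit 81948) (nat_lit 21) (.e (nat_lit 57870) (nat_lit 264) .nil)))))) (.g (nat_lit 0) .nil .nil))) 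
(.lf (nat_lit 28268) (.g (nat_lit 1910) (.e (nat_lit 1199) (nat_lit 88) (.e (nat_lit 65624) (nat_lit 12) (.e (nat_lit 385105) (nat_lit 50) (.e (nat_lit 786483) (nat_lit 30) (.e (nat_lit 368384) (nat_lit 0) .nil))))) .nil))) (.nd (nat_lit 5) 
(.lf (nat_lit 28252) (.g (nat_lit 2096) (.e (nat_lit 1199) (nat_lit 88) (.e (nat_lit 65624) (nat_lit 12) (.e (nat_lit 385105) (nat_lit 50) (.e (nat_lit 786478) (nat_lit 29) (.e (nat_lit 352307) (nat_lit 21) .nil))))) .nil)) 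
(.lf (nat_lit 28284) (.g (nat_lit 2237) (.e (nat_lit 1199) (nat_lit 88) (.e (nat_lit 65624) (nat_lit 12) (.e (nat_lit 385106) (nat_lit 50) (.e (nat_lit 786483) (nat_lit 30) (.e (nat_lit 360454) (nat_lit 0) .nil))))) .nil)))))) (.nd (nat_lit 2) (.nd (nat_lit 3) (.nd (nat_lit 4) (.nd (nat_lit 5) 
(.lf (nat_lit 28226) (.g (nat_lit 2814) (.e (nat_lit 1199) (nat_lit 88) (.e (nat_lit 65624) (nat_lit 12) (.e (nat_lit 385093) (nat_lit 49) (.e (nat_lit 778326) (nat_lit 6) (.e (nat_lit 81948) (nat_lit 21) (.e (nat_lit 57872) (nat_lit 264) .nil)))))) (.g (nat_lit 0) .nil .nil))) 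
(.lf (nat_lit 28258) (.g (nat_lit 3548) (.e (nat_lit 1199) (nat_lit 88) (.e (nat_lit 65624) (nat_lit 12) (.e (nat_lit 385105) (nat_lit 50) (.e (nat_lit 786480) (nat_lit 29) (.e (nat_lit 352309) (nat_lit 21) (.e (nat_lit 57871) (nat_lit 264) .nil)))))) (.g (nat_lit 6) .nil .nil)))) (.nd (nat_lit 5) 
(.lf (nat_lit 28242) (.g (nat_lit 1898) (.e (nat_lit 1199) (nat_lit 88) (.e (nat_lit 65624) (nat_lit 12) (.e (nat_lit 385094) (nat_lit 49) (.e (nat_lit 778327) (nat_lit 6) (.e (nat_lit 81948) (nat_lit 21) (.e (nat_lit 57872) (nat_lit 264) .nil)))))) (.g (nat_lit 4) .nil .nil))) 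
(.lf (nat_lit 28274) (.g (nat_lit 2640) (.e (nat_lit 1199) (nat_lit 88) (.e (nat_lit 65624) (nat_lit 12) (.e (nat_lit 385106) (nat_lit 50) (.e (nat_lit 786479) (nat_lit 29) (.e (nat_lit 352309) (nat_lit 21) (.e (nat_lit 57871) (nat_lit 264) .nil)))))) (.g (nat_lit 5) .nil .nil))))) (.nd (nat_lit 4) (.nd (nat_lit 5) 
(.lf (nat_lit 28234) (.g (nat_lit 2027) (.e (nat_lit 1199) (nat_lit 88) (.e (nat_lit 65624) (nat_lit 12) (.e (nat_lit 385093) (nat_lit 49) (.e (nat_lit 778327) (nat_lit 6) (.e (nat_lit 81950) (nat_lit 21) (.e (nat_lit 57870) (nat_lit 264) .nil)))))) (.g (nat_lit 4) .nil .nil))) 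
(.lf (nat_lit 28266) (.g (nat_lit 2064) (.e (nat_lit 1199) (nat_lit 88) (.e (nat_lit 65624) (nat_lit 12) (.e (nat_lit 385105) (nat_lit 50) (.e (nat_lit 786483) (nat_lit 30) (.e (nat_lit 360454) (nat_lit 0) .nil))))) .nil))) (.nd (nat_lit 5) 
(.lf (nat_lit 28250) (.g (nat_lit 2402) (.e (nat_lit 1199) (nat_lit 88) (.e (nat_lit 65624) (nat_lit 12) (.e (nat_lit 385104) (nat_lit 50) (.e (nat_lit 786480) (nat_lit 29) (.e (nat_lit 352309) (nat_lit 21) (.e (nat_lit 57871) (nat_lit 264) .nil)))))) (.g (nat_lit 5) .nil .nil))) 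
(.lf (nat_lit 28282) (.g (nat_lit 2303) (.e (nat_lit 1199) (nat_lit 88) (.e (nat_lit 65624) (nat_lit 12) (.e (nat_lit 385106) (nat_lit 50) (.e (nat_lit 786483) (nat_lit 30) (.e (nat_lit 360452) (nat_lit 0) (.e (nat_lit 5905) (nat_lit 320) .nil)))))) (.g (nat_lit 4) .nil .nil)))))) (.nd (nat_lit 3) (.nd (nat_lit 4) (.nd (nat_lit 5) 
(.lf (nat_lit 28230) (.g (nat_lit 1719) (.e (nat_lit 1199) (nat_lit 88) (.e (nat_lit 65624) (nat_lit 12) (.e (nat_lit 385093) (nat_lit 49) (.e (nat_lit 778327) (nat_lit 6) (.e (nat_lit 81948) (nat_lit 21) (.e (nat_lit 57872) (nat_lit 264) .nil)))))) (.g (nat_lit 4) .nil .nil))) 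
(.lf (nat_lit 28262) (.g (nat_lit 1697) (.e (nat_lit 1199) (nat_lit 88) (.e (nat_lit 65624) (nat_lit 12) (.e (nat_lit 385105) (nat_lit 50) (.e (nat_lit 786481) (nat_lit 30) (.e (nat_lit 368384) (nat_lit 0) (.e (nat_lit 5907) (nat_lit 320) .nil)))))) (.g (nat_lit 4) .nil .nil)))) (.nd (nat_lit 5) 
(.lf (nat_lit 28246) (.g (nat_lit 2260) (.e (nat_lit 1199) (nat_lit 88) (.e (nat_lit 65624) (nat_lit 12) (.e (nat_lit 385094) (nat_lit 49) (.e (nat_lit 778327) (nat_lit 6) (.e (nat_lit 81950) (nat_lit 21) (.e (nat_lit 57870) (nat_lit 264) .nil)))))) (.g (nat_lit 5) .nil .nil))) 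
(.lf (nat_lit 28278) (.g (nat_lit 3833) (.e (nat_lit 1199) (nat_lit 88) (.e (nat_lit 65624) (nat_lit 12) (.e (nat_lit 385106) (nat_lit 50) (.e (nat_lit 786480) (nat_lit 29) (.e (nat_lit 352309) (nat_lit 21) (.e (nat_lit 57872) (nat_lit 264) .nil)))))) (.g (nat_lit 0) .nil .nil))))) (.nd (nat_lit 4) (.nd (nat_lit 5) 
(.lf (nat_lit 28238) (.g (nat_lit 2932) (.e (nat_lit 1199) (nat_lit 88) (.e (nat_lit 65624) (nat_lit 12) (.e (nat_lit 385094) (nat_lit 49) (.e (nat_lit 778326) (nat_lit 6) (.e (nat_lit 81948) (nat_lit 21) (.e (nat_lit 57872) (nat_lit 264) .nil)))))) (.g (nat_lit 0) .nil .nil))) 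
(.lf (nat_lit 28270) (.g (nat_lit 2884) (.e (nat_lit 1199) (nat_lit 88) (.e (nat_lit 65624) (nat_lit 12) (.e (nat_lit 385106) (nat_lit 50) (.e (nat_lit 786478) (nat_lit 29) (.e (nat_lit 352309) (nat_lit 21) (.e (nat_lit 57870) (nat_lit 264) .nil)))))) (.g (nat_lit 5) .nil .nil)))) (.nd (nat_lit 5) 
(.lf (nat_lit 28254) (.g (nat_lit 2802) (.e (nat_lit 1199) (nat_lit 88) (.e (nat_lit 65624) (nat_lit 12) (.e (nat_lit 385105) (nat_lit 50) (.e (nat_lit 786478) (nat_lit 29) (.e (nat_lit 352309) (nat_lit 21) (.e (nat_lit 57871) (nat_lit 264) .nil)))))) (.g (nat_lit 5) .nil .nil))) 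
(.lf (nat_lit 28286) (.g (nat_lit 1976) (.e (nat_lit 1199) (nat_lit 88) (.e (nat_lit 65624) (nat_lit 12) (.e (nat_lit 385106) (nat_lit 50) (.e (nat_lit 786483) (nat_lit 30) (.e (nat_lit 368384) (nat_lit 0) .nil))))) .nil))))))) (.nd (nat_lit 1) (.nd (nat_lit 2) (.nd (nat_lit 3) (.nd (nat_lit 4) (.nd (nat_lit 5) 
(.lf (nat_lit 28225) (.g (nat_lit 2587) (.e (nat_lit 1199) (nat_lit 88) (.e (nat_lit 65624) (nat_lit 12) (.e (nat_lit 385093) (nat_lit 49) (.e (nat_lit 778326) (nat_lit 6) (.e (nat_lit 81948) (nat_lit 21) (.e (nat_lit 57870) (nat_lit 264) .nil)))))) (.g (nat_lit 0) .nil .nil))) 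
(.lf (nat_lit 28257) (.g (nat_lit 3510) (.e (nat_lit 1199) (nat_lit 88) (.e (nat_lit 65624) (nat_lit 12) (.e (nat_lit 385105) (nat_lit 50) (.e (nat_lit 786480) (nat_lit 29) (.e (nat_lit 352309) (nat_lit 21) (.e (nat_lit 57870) (nat_lit 264) .nil)))))) (.g (nat_lit 6) .nil .nil)))) (.nd (nat_lit 5) 
(.lf (nat_lit 28241) (.g (nat_lit 1578) (.e (nat_lit 1199) (nat_lit 88) (.e (nat_lit 65624) (nat_lit 12) (.e (nat_lit 385094) (nat_lit 49) (.e (nat_lit 778327) (nat_lit 6) (.e (nat_lit 81948) (nat_lit 21) .nil))))) .nil)) 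
(.lf (nat_lit 28273) (.g (nat_lit 2588) (.e (nat_lit 1199) (nat_lit 88) (.e (nat_lit 65624) (nat_lit 12) (.e (nat_lit 385106) (nat_lit 50) (.e (nat_lit 786479) (nat_lit 29) (.e (nat_lit 352309) (nat_lit 21) (.e (nat_lit 57870) (nat_lit 264) .nil)))))) (.g (nat_lit 5) .nil .nil))))) (.nd (nat_lit 4) (.nd (nat_lit 5) 
(.lf (nat_lit 28233) (.g (nat_lit 2062) (.e (nat_lit 1199) (nat_lit 88) (.e (nat_lit 65624) (nat_lit 12) (.e (nat_lit 385093) (nat_lit 49) (.e (nat_lit 778327) (nat_lit 6) (.e (nat_lit 81949) (nat_lit 21) (.e (nat_lit 57873) (nat_lit 264) .nil)))))) (.g (nat_lit 4) .nil .nil))) 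
(.lf (nat_lit 28265) (.g (nat_lit 2356) (.e (nat_lit 1199) (nat_lit 88) (.e (nat_lit 65624) (nat_lit 12) (.e (nat_lit 385105) (nat_lit 50) (.e (nat_lit 786483) (nat_lit 30) (.e (nat_lit 360452) (nat_lit 0) (.e (nat_lit 5905) (nat_lit 320) .nil)))))) (.g (nat_lit 4) .nil .nil)))) (.nd (nat_lit 5) 
(.lf (nat_lit 28249) (.g (nat_lit 2497) (.e (nat_lit 1199) (nat_lit 88) (.e (nat_lit 65624) (nat_lit 12) (.e (nat_lit 385104) (nat_lit 50) (.e (nat_lit 786480) (nat_lit 29) (.e (nat_lit 352309) (nat_lit 21) (.e (nat_lit 57870) (nat_lit 264) .nil)))))) (.g (nat_lit 5) .nil .nil))) 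
(.lf (nat_lit 28281) (.g (nat_lit 3562) (.e (nat_lit 1199) (nat_lit 88) (.e (nat_lit 65624) (nat_lit 12) (.e (nat_lit 385106) (nat_lit 50) (.e (nat_lit 786483) (nat_lit 30) (.e (nat_lit 360450) (nat_lit 0) (.e (nat_lit 5896) (nat_lit 320) .nil)))))) (.g (nat_lit 5) .nil .nil)))))) (.nd (nat_lit 3) (.nd (nat_lit 4) (.nd (nat_lit 5) 
(.lf (nat_lit 28229) (.g (nat_lit 1601) (.e (nat_lit 1199) (nat_lit 88) (.e (nat_lit 65624) (nat_lit 12) (.e (nat_lit 385093) (nat_lit 49) (.e (nat_lit 778327) (nat_lit 6) (.e (nat_lit 81948) (nat_lit 21) .nil))))) .nil)) 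
(.lf (nat_lit 28261) (.g (nat_lit 2144) (.e (nat_lit 1199) (nat_lit 88) (.e (nat_lit 65624) (nat_lit 12) (.e (nat_lit 385105) (nat_lit 50) (.e (nat_lit 786481) (nat_lit 30) (.e (nat_lit 368384) (nat_lit 0) (.e (nat_lit 5905) (nat_lit 320) .nil)))))) (.g (nat_lit 4) .nil .nil)))) (.nd (nat_lit 5) 
(.lf (nat_lit 28245) (.g (nat_lit 2098) (.e (nat_lit 1199) (nat_lit 88) (.e (nat_lit 65624) (nat_lit 12) (.e (nat_lit 385094) (nat_lit 49) (.e (nat_lit 778327) (nat_lit 6) (.e (nat_lit 81949) (nat_lit 21) (.e (nat_lit 57873) (nat_lit 264) .nil)))))) (.g (nat_lit 4) .nil .nil))) 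
(.lf (nat_lit 28277) (.g (nat_lit 3439) (.e (nat_lit 1199) (nat_lit 88) (.e (nat_lit 65624) (nat_lit 12) (.e (nat_lit 385106) (nat_lit 50) (.e (nat_lit 786480) (nat_lit 29) (.e (nat_lit 352309) (nat_lit 21) (.e (nat_lit 57871) (nat_lit 264) .nil)))))) (.g (nat_lit 6) .nil .nil))))) (.nd (nat_lit 4) (.nd (nat_lit 5) 
(.lf (nat_lit 28237) (.g (nat_lit 2301) (.e (nat_lit 1199) (nat_lit 88) (.e (nat_lit 65624) (nat_lit 12) (.e (nat_lit 385094) (nat_lit 49) (.e (nat_lit 778326) (nat_lit 6) (.e (nat_lit 81948) (nat_lit 21) (.e (nat_lit 57871) (nat_lit 264) .nil)))))) (.g (nat_lit 6) .nil .nil))) 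
(.lf (nat_lit 28269) (.g (nat_lit 2232) (.e (nat_lit 1199) (nat_lit 88) (.e (nat_lit 65624) (nat_lit 12) (.e (nat_lit 385105) (nat_lit 50) (.e (nat_lit 786483) (nat_lit 30) (.e (nat_lit 368384) (nat_lit 0) (.e (nat_lit 5905) (nat_lit 320) .nil)))))) (.g (nat_lit 4) .nil .nil)))) (.nd (nat_lit 5) 
(.lf (nat_lit 28253) (.g (nat_lit 2856) (.e (nat_lit 1199) (nat_lit 88) (.e (nat_lit 65624) (nat_lit 12) (.e (nat_lit 385105) (nat_lit 50) (.e (nat_lit 786478) (nat_lit 29) (.e (nat_lit 352309) (nat_lit 21) (.e (nat_lit 57870) (nat_lit 264) .nil)))))) (.g (nat_lit 5) .nil .nil))) 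
(.lf (nat_lit 28285) (.g (nat_lit 3441) (.e (nat_lit 1199) (nat_lit 88) (.e (nat_lit 65624) (nat_lit 12) (.e (nat_lit 385106) (nat_lit 50) (.e (nat_lit 786483) (nat_lit 30) (.e (nat_lit 360454) (nat_lit 0) (.e (nat_lit 5907) (nat_lit 320) .nil)))))) (.g (nat_lit 6) .nil .nil))))))) (.nd (nat_lit 2) (.nd (nat_lit 3) (.nd (nat_lit 4) (.nd (nat_lit 5) 
(.lf (nat_lit 28227) (.g (nat_lit 2701) (.e (nat_lit 1199) (nat_lit 88) (.e (nat_lit 65624) (nat_lit 12) (.e (nat_lit 385093) (nat_lit 49) (.e (nat_lit 778326) (nat_lit 6) (.e (nat_lit 81950) (nat_lit 21) (.e (nat_lit 57870) (nat_lit 264) .nil)))))) (.g (nat_lit 0) .nil .nil))) 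
(.lf (nat_lit 28259) (.g (nat_lit 3939) (.e (nat_lit 1199) (nat_lit 88) (.e (nat_lit 65624) (nat_lit 12) (.e (nat_lit 385105) (nat_lit 50) (.e (nat_lit 786480) (nat_lit 29) (.e (nat_lit 352309) (nat_lit 21) (.e (nat_lit 57872) (nat_lit 264) .nil)))))) (.g (nat_lit 6) .nil .nil)))) (.nd (nat_lit 5) 
(.lf (nat_lit 28243) (.g (nat_lit 1594) (.e (nat_lit 1199) (nat_lit 88) (.e (nat_lit 65624) (nat_lit 12) (.e (nat_lit 385094) (nat_lit 49) (.e (nat_lit 778327) (nat_lit 6) (.e (nat_lit 81949) (nat_lit 21) .nil))))) .nil)) 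
(.lf (nat_lit 28275) (.g (nat_lit 3294) (.e (nat_lit 1199) (nat_lit 88) (.e (nat_lit 65624) (nat_lit 12) (.e (nat_lit 385106) (nat_lit 50) (.e (nat_lit 786479) (nat_lit 29) (.e (nat_lit 352309) (nat_lit 21) (.e (nat_lit 57872) (nat_lit 264) .nil)))))) (.g (nat_lit 0) .nil .nil))))) (.nd (nat_lit 4) (.nd (nat_lit 5) 
(.lf (nat_lit 28235) (.g (nat_lit 2233) (.e (nat_lit 1199) (nat_lit 88) (.e (nat_lit 65624) (nat_lit 12) (.e (nat_lit 385093) (nat_lit 49) (.e (nat_lit 778331) (nat_lit 8) .nil)))) .nil)) 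
(.lf (nat_lit 28267) (.g (nat_lit 3415) (.e (nat_lit 1199) (nat_lit 88) (.e (nat_lit 65624) (nat_lit 12) (.e (nat_lit 385105) (nat_lit 50) (.e (nat_lit 786483) (nat_lit 30) (.e (nat_lit 360454) (nat_lit 0) (.e (nat_lit 5907) (nat_lit 320) .nil)))))) (.g (nat_lit 6) .nil .nil)))) (.nd (nat_lit 5) 
(.lf (nat_lit 28251) (.g (nat_lit 2988) (.e (nat_lit 1199) (nat_lit 88) (.e (nat_lit 65624) (nat_lit 12) (.e (nat_lit 385104) (nat_lit 50) (.e (nat_lit 786480) (nat_lit 29) (.e (nat_lit 352309) (nat_lit 21) (.e (nat_lit 57872) (nat_lit 264) .nil)))))) (.g (nat_lit 6) .nil .nil))) 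
(.lf (nat_lit 28283) (.g (nat_lit 3166) (.e (nat_lit 1199) (nat_lit 88) (.e (nat_lit 65624) (nat_lit 12) (.e (nat_lit 385106) (nat_lit 50) (.e (nat_lit 786483) (nat_lit 30) (.e (nat_lit 360453) (nat_lit 0) (.e (nat_lit 5907) (nat_lit 320) .nil)))))) (.g (nat_lit 5) .nil .nil)))))) (.nd (nat_lit 3) (.nd (nat_lit 4) (.nd (nat_lit 5) 
(.lf (nat_lit 28231) (.g (nat_lit 1670) (.e (nat_lit 1199) (nat_lit 88) (.e (nat_lit 65624) (nat_lit 12) (.e (nat_lit 385093) (nat_lit 49) (.e (nat_lit 778327) (nat_lit 6) (.e (nat_lit 81949) (nat_lit 21) .nil))))) .nil)) 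
(.lf (nat_lit 28263) (.g (nat_lit 3112) (.e (nat_lit 1199) (nat_lit 88) (.e (nat_lit 65624) (nat_lit 12) (.e (nat_lit 385105) (nat_lit 50) (.e (nat_lit 786483) (nat_lit 30) (.e (nat_lit 360450) (nat_lit 0) (.e (nat_lit 5896) (nat_lit 320) .nil)))))) (.g (nat_lit 5) .nil .nil)))) (.nd (nat_lit 5) 
(.lf (nat_lit 28247) (.g (nat_lit 1833) (.e (nat_lit 1199) (nat_lit 88) (.e (nat_lit 65624) (nat_lit 12) (.e (nat_lit 385094) (nat_lit 49) (.e (nat_lit 778327) (nat_lit 6) (.e (nat_lit 81950) (nat_lit 21) (.e (nat_lit 57871) (nat_lit 264) .nil)))))) (.g (nat_lit 4) .nil .nil))) 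
(.lf (nat_lit 28279) (.g (nat_lit 2136) (.e (nat_lit 1199) (nat_lit 88) (.e (nat_lit 65624) (nat_lit 12) (.e (nat_lit 385106) (nat_lit 50) (.e (nat_lit 786481) (nat_lit 30) (.e (nat_lit 368384) (nat_lit 0) (.e (nat_lit 5905) (nat_lit 320) .nil)))))) (.g (nat_lit 4) .nil .nil))))) (.nd (nat_lit 4) (.nd (nat_lit 5) 
(.lf (nat_lit 28239) (.g (nat_lit 2440) (.e (nat_lit 1199) (nat_lit 88) (.e (nat_lit 65624) (nat_lit 12) (.e (nat_lit 385094) (nat_lit 49) (.e (nat_lit 778326) (nat_lit 6) (.e (nat_lit 81950) (nat_lit 21) (.e (nat_lit 57871) (nat_lit 264) .nil)))))) (.g (nat_lit 6) .nil .nil))) 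
(.lf (nat_lit 28271) (.g (nat_lit 2802) (.e (nat_lit 1199) (nat_lit 88) (.e (nat_lit 65624) (nat_lit 12) (.e (nat_lit 385106) (nat_lit 50) (.e (nat_lit 786478) (nat_lit 29) (.e (nat_lit 352309) (nat_lit 21) (.e (nat_lit 57871) (nat_lit 264) .nil)))))) (.g (nat_lit 5) .nil .nil)))) (.nd (nat_lit 5) 
(.lf (nat_lit 28255) (.g (nat_lit 3420) (.e (nat_lit 1199) (nat_lit 88) (.e (nat_lit 65624) (nat_lit 12) (.e (nat_lit 385105) (nat_lit 50) (.e (nat_lit 786478) (nat_lit 29) (.e (nat_lit 352309) (nat_lit 21) (.e (nat_lit 57872) (nat_lit 264) .nil)))))) (.g (nat_lit 6) .nil .nil))) 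
(.lf (nat_lit 28287) (.g (nat_lit 2447) (.e (nat_lit 1199) (nat_lit 88) (.e (nat_lit 65624) (nat_lit 12) (.e (nat_lit 385106) (nat_lit 50) (.e (nat_lit 786483) (nat_lit 30) (.e (nat_lit 368384) (nat_lit 0) (.e (nat_lit 5905) (nat_lit 320) .nil)))))) (.g (nat_lit 4) .nil .nil)))))))))

noncomputable def tv391 : DT := (.nd (nat_lit 0) (.nd (nat_lit 1) (.nd (nat_lit 2) (.nd (nat_lit 3) (.nd (nat_lit 4) (.nd (nat_lit 5) 
(.lf (nat_lit 28288) (.g (nat_lit 1511) (.e (nat_lit 1199) (nat_lit 88) (.e (nat_lit 65624) (nat_lit 12) (.e (nat_lit 385106) (nat_lit 50) (.e (nat_lit 786485) (nat_lit 32) .nil)))) .nil)) 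
(.lf (nat_lit 28320) (.g (nat_lit 2626) (.e (nat_lit 1199) (nat_lit 88) (.e (nat_lit 65627) (nat_lit 13) (.e (nat_lit 393300) (nat_lit 27) (.e (nat_lit 491558) (nat_lit 10) (.e (nat_lit 344096) (nat_lit 18) (.e (nat_lit 7236) (nat_lit 382) .nil)))))) (.g (nat_lit 5) .nil .nil)))) (.nd (nat_lit 5) 
(.lf (nat_lit 28304) (.g (nat_lit 2921) (.e (nat_lit 1199) (nat_lit 88) (.e (nat_lit 65625) (nat_lit 13) (.e (nat_lit 393301) (nat_lit 27) (.e (nat_lit 491560) (nat_lit 10) (.e (nat_lit 344091) (nat_lit 18) (.e (nat_lit 7236) (nat_lit 382) .nil)))))) (.g (nat_lit 4) .nil .nil))) 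
(.lf (nat_lit 28336) (.g (nat_lit 2701) (.e (nat_lit 1199) (nat_lit 88) (.e (nat_lit 65627) (nat_lit 13) (.e (nat_lit 393301) (nat_lit 27) (.e (nat_lit 491560) (nat_lit 10) (.e (nat_lit 344096) (nat_lit 18) (.e (nat_lit 7236) (nat_lit 382) .nil)))))) (.g (nat_lit 4) .nil .nil))))) (.nd (nat_lit 4) (.nd (nat_lit 5) 
(.lf (nat_lit 28296) (.g (nat_lit 2505) (.e (nat_lit 1199) (nat_lit 88) (.e (nat_lit 65625) (nat_lit 13) (.e (nat_lit 393301) (nat_lit 27) (.e (nat_lit 491558) (nat_lit 10) (.e (nat_lit 344088) (nat_lit 18) .nil))))) .nil)) 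
(.lf (nat_lit 28328) (.g (nat_lit 3415) (.e (nat_lit 1199) (nat_lit 88) (.e (nat_lit 65627) (nat_lit 13) (.e (nat_lit 393301) (nat_lit 27) (.e (nat_lit 491558) (nat_lit 10) (.e (nat_lit 344090) (nat_lit 18) (.e (nat_lit 7236) (nat_lit 382) .nil)))))) (.g (nat_lit 6) .nil .nil)))) (.nd (nat_lit 5) 
(.lf (nat_lit 28312) (.g (nat_lit 2643) (.e (nat_lit 1199) (nat_lit 88) (.e (nat_lit 65627) (nat_lit 13) (.e (nat_lit 393298) (nat_lit 27) (.e (nat_lit 491566) (nat_lit 12) (.e (nat_lit 385043) (nat_lit 21) .nil))))) .nil)) 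
(.lf (nat_lit 28344) (.g (nat_lit 2788) (.e (nat_lit 1199) (nat_lit 88) (.e (nat_lit 65628) (nat_lit 14) (.e (nat_lit 401436) (nat_lit 9) (.e (nat_lit 426542) (nat_lit 29) (.e (nat_lit 352309) (nat_lit 21) (.e (nat_lit 57873) (nat_lit 264) .nil)))))) (.g (nat_lit 6) .nil .nil)))))) (.nd (nat_lit 3) (.nd (nat_lit 4) (.nd (nat_lit 5) 
(.lf (nat_lit 28292) (.g (nat_lit 2717) (.e (nat_lit 1199) (nat_lit 88) (.e (nat_lit 65625) (nat_lit 13) (.e (nat_lit 393300) (nat_lit 27) (.e (nat_lit 491558) (nat_lit 10) (.e (nat_lit 344091) (nat_lit 18) (.e (nat_lit 7236) (nat_lit 382) .nil)))))) (.g (nat_lit 5) .nil .nil))) 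
(.lf (nat_lit 28324) (.g (nat_lit 3058) (.e (nat_lit 1199) (nat_lit 88) (.e (nat_lit 65627) (nat_lit 13) (.e (nat_lit 393300) (nat_lit 27) (.e (nat_lit 491560) (nat_lit 10) (.e (nat_lit 344091) (nat_lit 18) (.e (nat_lit 7236) (nat_lit 382) .nil)))))) (.g (nat_lit 6) .nil .nil)))) (.nd (nat_lit 5) 
(.lf (nat_lit 28308) (.g (nat_lit 2296) (.e (nat_lit 1199) (nat_lit 88) (.e (nat_lit 65627) (nat_lit 13) (.e (nat_lit 393232) (nat_lit 17) (.e (nat_lit 7593) (nat_lit 407) (.e (nat_lit 81664) (nat_lit 0) (.e (nat_lit 7236) (nat_lit 382) .nil)))))) (.g (nat_lit 4) .nil .nil))) 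
(.lf (nat_lit 28340) (.g (nat_lit 2162) (.e (nat_lit 1199) (nat_lit 88) (.e (nat_lit 65628) (nat_lit 14) (.e (nat_lit 401436) (nat_lit 9) (.e (nat_lit 426542) (nat_lit 29) (.e (nat_lit 352307) (nat_lit 21) (.e (nat_lit 57870) (nat_lit 264) .nil)))))) (.g (nat_lit 5) .nil .nil))))) (.nd (nat_lit 4) (.nd (nat_lit 5) 
(.lf (nat_lit 28300) (.g (nat_lit 1991) (.e (nat_lit 1199) (nat_lit 88) (.e (nat_lit 65625) (nat_lit 13) (.e (nat_lit 393301) (nat_lit 27) (.e (nat_lit 491558) (nat_lit 10) (.e (nat_lit 352000) (nat_lit 18) .nil))))) .nil)) 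
(.lf (nat_lit 28332) (.g (nat_lit 3663) (.e (nat_lit 1199) (nat_lit 88) (.e (nat_lit 65627) (nat_lit 13) (.e (nat_lit 393301) (nat_lit 27) (.e (nat_lit 491560) (nat_lit 10) (.e (nat_lit 344088) (nat_lit 18) (.e (nat_lit 7236) (nat_lit 382) .nil)))))) (.g (nat_lit 4) .nil .nil)))) (.nd (nat_lit 5) 
(.lf (nat_lit 28316) (.g (nat_lit 2327) (.e (nat_lit 1199) (nat_lit 88) (.e (nat_lit 65627) (nat_lit 13) (.e (nat_lit 393299) (nat_lit 27) (.e (nat_lit 491558) (nat_lit 10) (.e (nat_lit 344096) (nat_lit 18) (.e (nat_lit 7236) (nat_lit 382) .nil)))))) (.g (nat_lit 4) .nil .nil))) 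
(.lf (nat_lit 28348) (.g (nat_lit 2403) (.e (nat_lit 1199) (nat_lit 88) (.e (nat_lit 65628) (nat_lit 14) (.e (nat_lit 401436) (nat_lit 9) (.e (nat_lit 426555) (nat_lit 32) (.e (nat_lit 376857) (nat_lit 21) (.e (nat_lit 57872) (nat_lit 264) .nil)))))) (.g (nat_lit 5) .nil .nil))))))) (.nd (nat_lit 2) (.nd (nat_lit 3) (.nd (nat_lit 4) (.nd (nat_lit 5) 
(.lf (nat_lit 28290) (.g (nat_lit 2219) (.e (nat_lit 1199) (nat_lit 88) (.e (nat_lit 65625) (nat_lit 13) (.e (nat_lit 393234) (nat_lit 17) (.e (nat_lit 7593) (nat_lit 407) (.e (nat_lit 81664) (nat_lit 0) (.e (nat_lit 7236) (nat_lit 382) .nil)))))) (.g (nat_lit 4) .nil .nil))) 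
(.lf (nat_lit 28322) (.g (nat_lit 2266) (.e (nat_lit 1199) (nat_lit 88) (.e (nat_lit 65627) (nat_lit 13) (.e (nat_lit 393300) (nat_lit 27) (.e (nat_lit 491560) (nat_lit 10) (.e (nat_lit 344088) (nat_lit 18) (.e (nat_lit 7236) (nat_lit 382) .nil)))))) (.g (nat_lit 4) .nil .nil)))) (.nd (nat_lit 5) 
(.lf (nat_lit 28306) (.g (nat_lit 3253) (.e (nat_lit 1199) (nat_lit 88) (.e (nat_lit 65625) (nat_lit 13) (.e (nat_lit 393301) (nat_lit 27) (.e (nat_lit 491560) (nat_lit 10) (.e (nat_lit 352000) (nat_lit 18) (.e (nat_lit 7236) (nat_lit 382) .nil)))))) (.g (nat_lit 4) .nil .nil))) 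
(.lf (nat_lit 28338) (.g (nat_lit 1519) (.e (nat_lit 1199) (nat_lit 88) (.e (nat_lit 65628) (nat_lit 14) (.e (nat_lit 401435) (nat_lit 9) (.e (nat_lit 426544) (nat_lit 30) .nil)))) .nil)))) (.nd (nat_lit 4) (.nd (nat_lit 5) 
(.lf (nat_lit 28298) (.g (nat_lit 3515) (.e (nat_lit 1199) (nat_lit 88) (.e (nat_lit 65625) (nat_lit 13) (.e (nat_lit 393301) (nat_lit 27) (.e (nat_lit 491558) (nat_lit 10) (.e (nat_lit 344091) (nat_lit 18) (.e (nat_lit 7236) (nat_lit 382) .nil)))))) (.g (nat_lit 6) .nil .nil))) 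
(.lf (nat_lit 28330) (.g (nat_lit 2299) (.e (nat_lit 1199) (nat_lit 88) (.e (nat_lit 65627) (nat_lit 13) (.e (nat_lit 393301) (nat_lit 27) (.e (nat_lit 491558) (nat_lit 10) (.e (nat_lit 352000) (nat_lit 18) (.e (nat_lit 7236) (nat_lit 382) .nil)))))) (.g (nat_lit 4) .nil .nil)))) (.nd (nat_lit 5) 
(.lf (nat_lit 28314) (.g (nat_lit 2623) (.e (nat_lit 1199) (nat_lit 88) (.e (nat_lit 65627) (nat_lit 13) (.e (nat_lit 393299) (nat_lit 27) (.e (nat_lit 491558) (nat_lit 10) (.e (nat_lit 344090) (nat_lit 18) (.e (nat_lit 7236) (nat_lit 382) .nil)))))) (.g (nat_lit 4) .nil .nil))) 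
(.lf (nat_lit 28346) (.g (nat_lit 1131) (.e (nat_lit 1199) (nat_lit 88) (.e (nat_lit 65628) (nat_lit 14) (.e (nat_lit 401436) (nat_lit 9) (.e (nat_lit 426546) (nat_lit 30) (.e (nat_lit 368384) (nat_lit 0) .nil))))) .nil))))) (.nd (nat_lit 3) (.nd (nat_lit 4) (.nd (nat_lit 5) 
(.lf (nat_lit 28294) (.g (nat_lit 2645) (.e (nat_lit 1199) (nat_lit 88) (.e (nat_lit 65625) (nat_lit 13) (.e (nat_lit 393300) (nat_lit 27) (.e (nat_lit 491560) (nat_lit 10) (.e (nat_lit 344090) (nat_lit 18) (.e (nat_lit 7236) (nat_lit 382) .nil)))))) (.g (nat_lit 5) .nil .nil))) 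
(.lf (nat_lit 28326) (.g (nat_lit 2229) (.e (nat_lit 1199) (nat_lit 88) (.e (nat_lit 65627) (nat_lit 13) (.e (nat_lit 393300) (nat_lit 27) (.e (nat_lit 491560) (nat_lit 10) (.e (nat_lit 352000) (nat_lit 18) (.e (nat_lit 7236) (nat_lit 382) .nil)))))) (.g (nat_lit 4) .nil .nil)))) (.nd (nat_lit 5) 
(.lf (nat_lit 28310) (.g (nat_lit 2637) (.e (nat_lit 1199) (nat_lit 88) (.e (nat_lit 65627) (nat_lit 13) (.e (nat_lit 393298) (nat_lit 27) (.e (nat_lit 491560) (nat_lit 10) (.e (nat_lit 344090) (nat_lit 18) (.e (nat_lit 7236) (nat_lit 382) .nil)))))) (.g (nat_lit 4) .nil .nil))) 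
(.lf (nat_lit 28342) (.g (nat_lit 2083) (.e (nat_lit 1199) (nat_lit 88) (.e (nat_lit 65628) (nat_lit 14) (.e (nat_lit 401436) (nat_lit 9) (.e (nat_lit 426542) (nat_lit 29) (.e (nat_lit 352309) (nat_lit 21) (.e (nat_lit 57870) (nat_lit 264) .nil)))))) (.g (nat_lit 5) .nil .nil))))) (.nd (nat_lit 4) (.nd (nat_lit 5) 
(.lf (nat_lit 28302) (.g (nat_lit 3180) (.e (nat_lit 1199) (nat_lit 88) (.e (nat_lit 65625) (nat_lit 13) (.e (nat_lit 393301) (nat_lit 27) (.e (nat_lit 491560) (nat_lit 10) (.e (nat_lit 344089) (nat_lit 18) .nil))))) .nil)) 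
(.lf (nat_lit 28334) (.g (nat_lit 4008) (.e (nat_lit 1199) (nat_lit 88) (.e (nat_lit 65627) (nat_lit 13) (.e (nat_lit 393301) (nat_lit 27) (.e (nat_lit 491560) (nat_lit 10) (.e (nat_lit 344090) (nat_lit 18) (.e (nat_lit 7236) (nat_lit 382) .nil)))))) (.g (nat_lit 0) .nil .nil)))) (.nd (nat_lit 5) 
(.lf (nat_lit 28318) (.g (nat_lit 3036) (.e (nat_lit 1199) (nat_lit 88) (.e (nat_lit 65627) (nat_lit 13) (.e (nat_lit 393300) (nat_lit 27) (.e (nat_lit 491558) (nat_lit 10) (.e (nat_lit 344090) (nat_lit 18) (.e (nat_lit 7236) (nat_lit 382) .nil)))))) (.g (nat_lit 6) .nil .nil))) 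
(.lf (nat_lit 28350) (.g (nat_lit 2440) (.e (nat_lit 1199) (nat_lit 88) (.e (nat_lit 65628) (nat_lit 14) (.e (nat_lit 401436) (nat_lit 9) (.e (nat_lit 426555) (nat_lit 32) (.e (nat_lit 376859) (nat_lit 21) (.e (nat_lit 57870) (nat_lit 264) .nil)))))) (.g (nat_lit 5) .nil .nil)))))))) (.nd (nat_lit 1) (.nd (nat_lit 2) (.nd (nat_lit 3) (.nd (nat_lit 4) (.nd (nat_lit 5) 
(.lf (nat_lit 28289) (.g (nat_lit 2247) (.e (nat_lit 1199) (nat_lit 88) (.e (nat_lit 65625) (nat_lit 13) (.e (nat_lit 393234) (nat_lit 17) (.e (nat_lit 7591) (nat_lit 407) (.e (nat_lit 81664) (nat_lit 0) (.e (nat_lit 7236) (nat_lit 382) .nil)))))) (.g (nat_lit 4) .nil .nil))) 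
(.lf (nat_lit 28321) (.g (nat_lit 1857) (.e (nat_lit 1199) (nat_lit 88) (.e (nat_lit 65627) (nat_lit 13) (.e (nat_lit 393300) (nat_lit 27) (.e (nat_lit 491558) (nat_lit 10) (.e (nat_lit 352000) (nat_lit 18) (.e (nat_lit 7236) (nat_lit 382) .nil)))))) (.g (nat_lit 4) .nil .nil)))) (.nd (nat_lit 5) 
(.lf (nat_lit 28305) (.g (nat_lit 2762) (.e (nat_lit 1199) (nat_lit 88) (.e (nat_lit 65625) (nat_lit 13) (.e (nat_lit 393301) (nat_lit 27) (.e (nat_lit 491560) (nat_lit 10) (.e (nat_lit 344096) (nat_lit 18) .nil))))) .nil)) 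
(.lf (nat_lit 28337) (.g (nat_lit 2963) (.e (nat_lit 1199) (nat_lit 88) (.e (nat_lit 65628) (nat_lit 14) (.e (nat_lit 401428) (nat_lit 3) (.e (nat_lit 204869) (nat_lit 29) (.e (nat_lit 360455) (nat_lit 0) (.e (nat_lit 3962) (nat_lit 239) .nil)))))) (.g (nat_lit 4) .nil .nil))))) (.nd (nat_lit 4) (.nd (nat_lit 5) 
(.lf (nat_lit 28297) (.g (nat_lit 3065) (.e (nat_lit 1199) (nat_lit 88) (.e (nat_lit 65625) (nat_lit 13) (.e (nat_lit 393301) (nat_lit 27) (.e (nat_lit 491558) (nat_lit 10) (.e (nat_lit 344090) (nat_lit 18) (.e (nat_lit 7236) (nat_lit 382) .nil)))))) (.g (nat_lit 5) .nil .nil))) 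
(.lf (nat_lit 28329) (.g (nat_lit 3033) (.e (nat_lit 1199) (nat_lit 88) (.e (nat_lit 65627) (nat_lit 13) (.e (nat_lit 393301) (nat_lit 27) (.e (nat_lit 491558) (nat_lit 10) (.e (nat_lit 344096) (nat_lit 18) (.e (nat_lit 7236) (nat_lit 382) .nil)))))) (.g (nat_lit 5) .nil .nil)))) (.nd (nat_lit 5) 
(.lf (nat_lit 28313) (.g (nat_lit 2561) (.e (nat_lit 1199) (nat_lit 88) (.e (nat_lit 65627) (nat_lit 13) (.e (nat_lit 393298) (nat_lit 27) (.e (nat_lit 491566) (nat_lit 12) (.e (nat_lit 385045) (nat_lit 21) .nil))))) .nil)) 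
(.lf (nat_lit 28345) (.g (nat_lit 2482) (.e (nat_lit 1199) (nat_lit 88) (.e (nat_lit 65628) (nat_lit 14) (.e (nat_lit 401436) (nat_lit 9) (.e (nat_lit 426544) (nat_lit 30) (.e (nat_lit 360453) (nat_lit 0) (.e (nat_lit 5907) (nat_lit 320) .nil)))))) (.g (nat_lit 6) .nil .nil)))))) (.nd (nat_lit 3) (.nd (nat_lit 4) (.nd (nat_lit 5) 
(.lf (nat_lit 28293) (.g (nat_lit 1868) (.e (nat_lit 1199) (nat_lit 88) (.e (nat_lit 65625) (nat_lit 13) (.e (nat_lit 393300) (nat_lit 27) (.e (nat_lit 491558) (nat_lit 10) (.e (nat_lit 344096) (nat_lit 18) (.e (nat_lit 7236) (nat_lit 382) .nil)))))) (.g (nat_lit 4) .nil .nil))) 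
(.lf (nat_lit 28325) (.g (nat_lit 2236) (.e (nat_lit 1199) (nat_lit 88) (.e (nat_lit 65627) (nat_lit 13) (.e (nat_lit 393300) (nat_lit 27) (.e (nat_lit 491560) (nat_lit 10) (.e (nat_lit 344096) (nat_lit 18) (.e (nat_lit 7236) (nat_lit 382) .nil)))))) (.g (nat_lit 4) .nil .nil)))) (.nd (nat_lit 5) 
(.lf (nat_lit 28309) (.g (nat_lit 2245) (.e (nat_lit 1199) (nat_lit 88) (.e (nat_lit 65627) (nat_lit 13) (.e (nat_lit 393298) (nat_lit 27) (.e (nat_lit 491558) (nat_lit 10) (.e (nat_lit 344091) (nat_lit 18) .nil))))) .nil)) 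
(.lf (nat_lit 28341) (.g (nat_lit 2997) (.e (nat_lit 1199) (nat_lit 88) (.e (nat_lit 65628) (nat_lit 14) (.e (nat_lit 401436) (nat_lit 9) (.e (nat_lit 426542) (nat_lit 29) (.e (nat_lit 352307) (nat_lit 21) (.e (nat_lit 57873) (nat_lit 264) .nil)))))) (.g (nat_lit 6) .nil .nil))))) (.nd (nat_lit 4) (.nd (nat_lit 5) 
(.lf (nat_lit 28301) (.g (nat_lit 3226) (.e (nat_lit 1199) (nat_lit 88) (.e (nat_lit 65625) (nat_lit 13) (.e (nat_lit 393301) (nat_lit 27) (.e (nat_lit 491560) (nat_lit 10) (.e (nat_lit 344088) (nat_lit 18) (.e (nat_lit 7236) (nat_lit 382) .nil)))))) (.g (nat_lit 4) .nil .nil))) 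
(.lf (nat_lit 28333) (.g (nat_lit 2847) (.e (nat_lit 1199) (nat_lit 88) (.e (nat_lit 65627) (nat_lit 13) (.e (nat_lit 393301) (nat_lit 27) (.e (nat_lit 491560) (nat_lit 10) (.e (nat_lit 344089) (nat_lit 18) .nil))))) .nil))) (.nd (nat_lit 5) 
(.lf (nat_lit 28317) (.g (nat_lit 2311) (.e (nat_lit 1199) (nat_lit 88) (.e (nat_lit 65627) (nat_lit 13) (.e (nat_lit 393300) (nat_lit 27) (.e (nat_lit 491558) (nat_lit 10) (.e (nat_lit 344088) (nat_lit 18) .nil))))) .nil)) 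
(.lf (nat_lit 28349) (.g (nat_lit 2980) (.e (nat_lit 1199) (nat_lit 88) (.e (nat_lit 65628) (nat_lit 14) (.e (nat_lit 401436) (nat_lit 9) (.e (nat_lit 426555) (nat_lit 32) (.e (nat_lit 376857) (nat_lit 21) (.e (nat_lit 57873) (nat_lit 264) .nil)))))) (.g (nat_lit 6) .nil .nil))))))) (.nd (nat_lit 2) (.nd (nat_lit 3) (.nd (nat_lit 4) (.nd (nat_lit 5) 
(.lf (nat_lit 28291) (.g (nat_lit 2280) (.e (nat_lit 1199) (nat_lit 88) (.e (nat_lit 65625) (nat_lit 13) (.e (nat_lit 393300) (nat_lit 27) (.e (nat_lit 491558) (nat_lit 10) (.e (nat_lit 344090) (nat_lit 18) (.e (nat_lit 7236) (nat_lit 382) .nil)))))) (.g (nat_lit 5) .nil .nil))) 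
(.lf (nat_lit 28323) (.g (nat_lit 3393) (.e (nat_lit 1199) (nat_lit 88) (.e (nat_lit 65627) (nat_lit 13) (.e (nat_lit 393300) (nat_lit 27) (.e (nat_lit 491560) (nat_lit 10) (.e (nat_lit 344090) (nat_lit 18) (.e (nat_lit 7236) (nat_lit 382) .nil)))))) (.g (nat_lit 6) .nil .nil)))) (.nd (nat_lit 5) 
(.lf (nat_lit 28307) (.g (nat_lit 2276) (.e (nat_lit 1199) (nat_lit 88) (.e (nat_lit 65627) (nat_lit 13) (.e (nat_lit 393232) (nat_lit 17) (.e (nat_lit 7591) (nat_lit 407) (.e (nat_lit 81664) (nat_lit 0) (.e (nat_lit 7236) (nat_lit 382) .nil)))))) (.g (nat_lit 4) .nil .nil))) 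
(.lf (nat_lit 28339) (.g (nat_lit 1584) (.e (nat_lit 1199) (nat_lit 88) (.e (nat_lit 65628) (nat_lit 14) (.e (nat_lit 401435) (nat_lit 9) (.e (nat_lit 426555) (nat_lit 32) .nil)))) .nil)))) (.nd (nat_lit 4) (.nd (nat_lit 5) 
(.lf (nat_lit 28299) (.g (nat_lit 2686) (.e (nat_lit 1199) (nat_lit 88) (.e (nat_lit 65625) (nat_lit 13) (.e (nat_lit 393301) (nat_lit 27) (.e (nat_lit 491558) (nat_lit 10) (.e (nat_lit 344096) (nat_lit 18) (.e (nat_lit 7236) (nat_lit 382) .nil)))))) (.g (nat_lit 4) .nil .nil))) 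
(.lf (nat_lit 28331) (.g (nat_lit 2919) (.e (nat_lit 1199) (nat_lit 88) (.e (nat_lit 65627) (nat_lit 13) (.e (nat_lit 393301) (nat_lit 27) (.e (nat_lit 491560) (nat_lit 10) (.e (nat_lit 344087) (nat_lit 18) .nil))))) .nil))) (.nd (nat_lit 5) 
(.lf (nat_lit 28315) (.g (nat_lit 3078) (.e (nat_lit 1199) (nat_lit 88) (.e (nat_lit 65627) (nat_lit 13) (.e (nat_lit 393299) (nat_lit 27) (.e (nat_lit 491558) (nat_lit 10) (.e (nat_lit 344091) (nat_lit 18) (.e (nat_lit 7236) (nat_lit 382) .nil)))))) (.g (nat_lit 5) .nil .nil))) 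
(.lf (nat_lit 28347) (.g (nat_lit 2668) (.e (nat_lit 1199) (nat_lit 88) (.e (nat_lit 65628) (nat_lit 14) (.e (nat_lit 401436) (nat_lit 9) (.e (nat_lit 426555) (nat_lit 32) (.e (nat_lit 376857) (nat_lit 21) (.e (nat_lit 57870) (nat_lit 264) .nil)))))) (.g (nat_lit 5) .nil .nil)))))) (.nd (nat_lit 3) (.nd (nat_lit 4) (.nd (nat_lit 5) 
(.lf (nat_lit 28295) (.g (nat_lit 2313) (.e (nat_lit 1199) (nat_lit 88) (.e (nat_lit 65625) (nat_lit 13) (.e (nat_lit 393300) (nat_lit 27) (.e (nat_lit 491560) (nat_lit 10) (.e (nat_lit 344091) (nat_lit 18) (.e (nat_lit 7236) (nat_lit 382) .nil)))))) (.g (nat_lit 5) .nil .nil))) 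
(.lf (nat_lit 28327) (.g (nat_lit 2684) (.e (nat_lit 1199) (nat_lit 88) (.e (nat_lit 65627) (nat_lit 13) (.e (nat_lit 393301) (nat_lit 27) (.e (nat_lit 491558) (nat_lit 10) (.e (nat_lit 344088) (nat_lit 18) (.e (nat_lit 7236) (nat_lit 382) .nil)))))) (.g (nat_lit 4) .nil .nil)))) (.nd (nat_lit 5) 
(.lf (nat_lit 28311) (.g (nat_lit 2297) (.e (nat_lit 1199) (nat_lit 88) (.e (nat_lit 65627) (nat_lit 13) (.e (nat_lit 393298) (nat_lit 27) (.e (nat_lit 491560) (nat_lit 10) (.e (nat_lit 352000) (nat_lit 18) (.e (nat_lit 7236) (nat_lit 382) .nil)))))) (.g (nat_lit 4) .nil .nil))) 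
(.lf (nat_lit 28343) (.g (nat_lit 1922) (.e (nat_lit 1199) (nat_lit 88) (.e (nat_lit 65628) (nat_lit 14) (.e (nat_lit 401436) (nat_lit 9) (.e (nat_lit 426542) (nat_lit 29) (.e (nat_lit 352309) (nat_lit 21) (.e (nat_lit 57871) (nat_lit 264) .nil)))))) (.g (nat_lit 4) .nil .nil))))) (.nd (nat_lit 4) (.nd (nat_lit 5) 
(.lf (nat_lit 28303) (.g (nat_lit 3582) (.e (nat_lit 1199) (nat_lit 88) (.e (nat_lit 65625) (nat_lit 13) (.e (nat_lit 393301) (nat_lit 27) (.e (nat_lit 491560) (nat_lit 10) (.e (nat_lit 344090) (nat_lit 18) (.e (nat_lit 7236) (nat_lit 382) .nil)))))) (.g (nat_lit 6) .nil .nil))) 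
(.lf (nat_lit 28335) (.g (nat_lit 3353) (.e (nat_lit 1199) (nat_lit 88) (.e (nat_lit 65627) (nat_lit 13) (.e (nat_lit 393301) (nat_lit 27) (.e (nat_lit 491560) (nat_lit 10) (.e (nat_lit 344091) (nat_lit 18) (.e (nat_lit 7236) (nat_lit 382) .nil)))))) (.g (nat_lit 5) .nil .nil)))) (.nd (nat_lit 5) 
(.lf (nat_lit 28319) (.g (nat_lit 3480) (.e (nat_lit 1199) (nat_lit 88) (.e (nat_lit 65627) (nat_lit 13) (.e (nat_lit 393300) (nat_lit 27) (.e (nat_lit 491558) (nat_lit 10) (.e (nat_lit 344091) (nat_lit 18) (.e (nat_lit 7236) (nat_lit 382) .nil)))))) (.g (nat_lit 6) .nil .nil))) 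
(.lf (nat_lit 28351) (.g (nat_lit 2391) (.e (nat_lit 1199) (nat_lit 88) (.e (nat_lit 65628) (nat_lit 14) (.e (nat_lit 401436) (nat_lit 9) (.e (nat_lit 426555) (nat_lit 32) (.e (nat_lit 376859) (nat_lit 21) (.e (nat_lit 57872) (nat_lit 264) .nil)))))) (.g (nat_lit 5) .nil .nil)))))))))

noncomputable def tv392 : DT := (.nd (nat_lit 0) (.nd (nat_lit 1) (.nd (nat_lit 2) (.nd (nat_lit 3) (.nd (nat_lit 4) (.nd (nat_lit 5) 
(.lf (nat_lit 28352) (.g (nat_lit 2922) (.e (nat_lit 1199) (nat_lit 88) (.e (nat_lit 65628) (nat_lit 14) (.e (nat_lit 401436) (nat_lit 9) (.e (nat_lit 426555) (nat_lit 32) (.e (nat_lit 376859) (nat_lit 21) (.e (nat_lit 57873) (nat_lit 264) .nil)))))) (.g (nat_lit 6) .nil .nil))) 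
(.lf (nat_lit 28384) (.g (nat_lit 2684) (.e (nat_lit 1199) (nat_lit 88) (.e (nat_lit 65628) (nat_lit 14) (.e (nat_lit 401438) (nat_lit 9) (.e (nat_lit 426542) (nat_lit 29) (.e (nat_lit 352307) (nat_lit 21) (.e (nat_lit 57870) (nat_lit 264) .nil)))))) (.g (nat_lit 6) .nil .nil)))) (.nd (nat_lit 5) 
(.lf (nat_lit 28368) (.g (nat_lit 2966) (.e (nat_lit 1199) (nat_lit 88) (.e (nat_lit 65628) (nat_lit 14) (.e (nat_lit 401437) (nat_lit 9) (.e (nat_lit 426542) (nat_lit 29) (.e (nat_lit 352309) (nat_lit 21) (.e (nat_lit 57872) (nat_lit 264) .nil)))))) (.g (nat_lit 6) .nil .nil))) 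
(.lf (nat_lit 28400) (.g (nat_lit 3102) (.e (nat_lit 1199) (nat_lit 88) (.e (nat_lit 65628) (nat_lit 14) (.e (nat_lit 401438) (nat_lit 9) (.e (nat_lit 426555) (nat_lit 32) (.e (nat_lit 376860) (nat_lit 21) (.e (nat_lit 57870) (nat_lit 264) .nil)))))) (.g (nat_lit 6) .nil .nil))))) (.nd (nat_lit 4) (.nd (nat_lit 5) 
(.lf (nat_lit 28360) (.g (nat_lit 753) (.e (nat_lit 1199) (nat_lit 88) (.e (nat_lit 65628) (nat_lit 14) (.e (nat_lit 401437) (nat_lit 9) (.e (nat_lit 426509) (nat_lit 27) .nil)))) .nil)) 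
(.lf (nat_lit 28392) (.g (nat_lit 1758) (.e (nat_lit 1199) (nat_lit 88) (.e (nat_lit 65628) (nat_lit 14) (.e (nat_lit 401438) (nat_lit 9) (.e (nat_lit 426544) (nat_lit 30) (.e (nat_lit 368384) (nat_lit 0) (.e (nat_lit 5906) (nat_lit 320) .nil)))))) (.g (nat_lit 4) .nil .nil)))) (.nd (nat_lit 5) 
(.lf (nat_lit 28376) (.g (nat_lit 2027) (.e (nat_lit 1199) (nat_lit 88) (.e (nat_lit 65628) (nat_lit 14) (.e (nat_lit 401437) (nat_lit 9) (.e (nat_lit 426546) (nat_lit 30) (.e (nat_lit 368384) (nat_lit 0) (.e (nat_lit 5906) (nat_lit 320) .nil)))))) (.g (nat_lit 4) .nil .nil))) 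
(.lf (nat_lit 28408) (.g (nat_lit 2632) (.e (nat_lit 1199) (nat_lit 88) (.e (nat_lit 65628) (nat_lit 14) (.e (nat_lit 401457) (nat_lit 13) (.e (nat_lit 483378) (nat_lit 23) (.e (nat_lit 335997) (nat_lit 1) (.e (nat_lit 57872) (nat_lit 264) .nil)))))) (.g (nat_lit 5) .nil .nil)))))) (.nd (nat_lit 3) (.nd (nat_lit 4) (.nd (nat_lit 5) 
(.lf (nat_lit 28356) (.g (nat_lit 2519) (.e (nat_lit 1199) (nat_lit 88) (.e (nat_lit 65628) (nat_lit 14) (.e (nat_lit 401437) (nat_lit 9) (.e (nat_lit 426482) (nat_lit 27) (.e (nat_lit 336140) (nat_lit 9) .nil))))) .nil)) 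
(.lf (nat_lit 28388) (.g (nat_lit 2479) (.e (nat_lit 1199) (nat_lit 88) (.e (nat_lit 65628) (nat_lit 14) (.e (nat_lit 401438) (nat_lit 9) (.e (nat_lit 426542) (nat_lit 29) (.e (nat_lit 352309) (nat_lit 21) (.e (nat_lit 57871) (nat_lit 264) .nil)))))) (.g (nat_lit 5) .nil .nil)))) (.nd (nat_lit 5) 
(.lf (nat_lit 28372) (.g (nat_lit 2222) (.e (nat_lit 1199) (nat_lit 88) (.e (nat_lit 65628) (nat_lit 14) (.e (nat_lit 401437) (nat_lit 9) (.e (nat_lit 426546) (nat_lit 30) (.e (nat_lit 360449) (nat_lit 0) .nil))))) .nil)) 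
(.lf (nat_lit 28404) (.g (nat_lit 2272) (.e (nat_lit 1199) (nat_lit 88) (.e (nat_lit 65628) (nat_lit 14) (.e (nat_lit 401456) (nat_lit 13) (.e (nat_lit 483395) (nat_lit 24) (.e (nat_lit 344097) (nat_lit 18) (.e (nat_lit 5907) (nat_lit 320) .nil)))))) (.g (nat_lit 4) .nil .nil))))) (.nd (nat_lit 4) (.nd (nat_lit 5) 
(.lf (nat_lit 28364) (.g (nat_lit 3071) (.e (nat_lit 1199) (nat_lit 88) (.e (nat_lit 65628) (nat_lit 14) (.e (nat_lit 401437) (nat_lit 9) (.e (nat_lit 426542) (nat_lit 29) (.e (nat_lit 352307) (nat_lit 21) (.e (nat_lit 57871) (nat_lit 264) .nil)))))) (.g (nat_lit 6) .nil .nil))) 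
(.lf (nat_lit 28396) (.g (nat_lit 2890) (.e (nat_lit 1199) (nat_lit 88) (.e (nat_lit 65628) (nat_lit 14) (.e (nat_lit 401438) (nat_lit 9) (.e (nat_lit 426555) (nat_lit 32) (.e (nat_lit 376857) (nat_lit 21) (.e (nat_lit 57872) (nat_lit 264) .nil)))))) (.g (nat_lit 5) .nil .nil)))) (.nd (nat_lit 5) 
(.lf (nat_lit 28380) (.g (nat_lit 3016) (.e (nat_lit 1199) (nat_lit 88) (.e (nat_lit 65628) (nat_lit 14) (.e (nat_lit 401437) (nat_lit 9) (.e (nat_lit 426555) (nat_lit 32) (.e (nat_lit 376859) (nat_lit 21) (.e (nat_lit 57870) (nat_lit 264) .nil)))))) (.g (nat_lit 6) .nil .nil))) 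
(.lf (nat_lit 28412) (.g (nat_lit 1408) (.e (nat_lit 1199) (nat_lit 88) (.e (nat_lit 65628) (nat_lit 14) (.e (nat_lit 401457) (nat_lit 13) (.e (nat_lit 483389) (nat_lit 23) .nil)))) .nil)))))) (.nd (nat_lit 2) (.nd (nat_lit 3) (.nd (nat_lit 4) (.nd (nat_lit 5) 
(.lf (nat_lit 28354) (.g (nat_lit 1070) (.e (nat_lit 1199) (nat_lit 88) (.e (nat_lit 65628) (nat_lit 14) (.e (nat_lit 401436) (nat_lit 9) (.e (nat_lit 426556) (nat_lit 32) (.e (nat_lit 376859) (nat_lit 21) .nil))))) .nil)) 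
(.lf (nat_lit 28386) (.g (nat_lit 2731) (.e (nat_lit 1199) (nat_lit 88) (.e (nat_lit 65628) (nat_lit 14) (.e (nat_lit 401438) (nat_lit 9) (.e (nat_lit 426542) (nat_lit 29) (.e (nat_lit 352307) (nat_lit 21) (.e (nat_lit 57872) (nat_lit 264) .nil)))))) (.g (nat_lit 6) .nil .nil)))) (.nd (nat_lit 5) 
(.lf (nat_lit 28370) (.g (nat_lit 2040) (.e (nat_lit 1199) (nat_lit 88) (.e (nat_lit 65628) (nat_lit 14) (.e (nat_lit 401437) (nat_lit 9) (.e (nat_lit 426544) (nat_lit 30) (.e (nat_lit 368384) (nat_lit 0) (.e (nat_lit 5902) (nat_lit 320) .nil)))))) (.g (nat_lit 4) .nil .nil))) 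
(.lf (nat_lit 28402) (.g (nat_lit 2677) (.e (nat_lit 1199) (nat_lit 88) (.e (nat_lit 65628) (nat_lit 14) (.e (nat_lit 401454) (nat_lit 12) (.e (nat_lit 475154) (nat_lit 20) .nil)))) .nil)))) (.nd (nat_lit 4) (.nd (nat_lit 5) 
(.lf (nat_lit 28362) (.g (nat_lit 2609) (.e (nat_lit 1199) (nat_lit 88) (.e (nat_lit 65628) (nat_lit 14) (.e (nat_lit 401437) (nat_lit 9) (.e (nat_lit 426538) (nat_lit 29) (.e (nat_lit 352309) (nat_lit 21) (.e (nat_lit 57872) (nat_lit 264) .nil)))))) (.g (nat_lit 5) .nil .nil))) 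
(.lf (nat_lit 28394) (.g (nat_lit 1481) (.e (nat_lit 1199) (nat_lit 88) (.e (nat_lit 65628) (nat_lit 14) (.e (nat_lit 401438) (nat_lit 9) (.e (nat_lit 426546) (nat_lit 30) (.e (nat_lit 368384) (nat_lit 0) (.e (nat_lit 5906) (nat_lit 320) .nil)))))) (.g (nat_lit 4) .nil .nil)))) (.nd (nat_lit 5) 
(.lf (nat_lit 28378) (.g (nat_lit 2916) (.e (nat_lit 1199) (nat_lit 88) (.e (nat_lit 65628) (nat_lit 14) (.e (nat_lit 401437) (nat_lit 9) (.e (nat_lit 426555) (nat_lit 32) (.e (nat_lit 376857) (nat_lit 21) (.e (nat_lit 57872) (nat_lit 264) .nil)))))) (.g (nat_lit 5) .nil .nil))) 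
(.lf (nat_lit 28410) (.g (nat_lit 2044) (.e (nat_lit 1199) (nat_lit 88) (.e (nat_lit 65628) (nat_lit 14) (.e (nat_lit 401457) (nat_lit 13) (.e (nat_lit 483383) (nat_lit 23) (.e (nat_lit 336000) (nat_lit 1) (.e (nat_lit 57872) (nat_lit 264) .nil)))))) (.g (nat_lit 4) .nil .nil)))))) (.nd (nat_lit 3) (.nd (nat_lit 4) (.nd (nat_lit 5) 
(.lf (nat_lit 28358) (.g (nat_lit 2138) (.e (nat_lit 1199) (nat_lit 88) (.e (nat_lit 65628) (nat_lit 14) (.e (nat_lit 401437) (nat_lit 9) (.e (nat_lit 426489) (nat_lit 27) (.e (nat_lit 336156) (nat_lit 9) .nil))))) .nil)) 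
(.lf (nat_lit 28390) (.g (nat_lit 983) (.e (nat_lit 1199) (nat_lit 88) (.e (nat_lit 65628) (nat_lit 14) (.e (nat_lit 401438) (nat_lit 9) (.e (nat_lit 426544) (nat_lit 30) .nil)))) .nil))) (.nd (nat_lit 5) 
(.lf (nat_lit 28374) (.g (nat_lit 2211) (.e (nat_lit 1199) (nat_lit 88) (.e (nat_lit 65628) (nat_lit 14) (.e (nat_lit 401437) (nat_lit 9) (.e (nat_lit 426546) (nat_lit 30) (.e (nat_lit 360452) (nat_lit 0) (.e (nat_lit 5906) (nat_lit 320) .nil)))))) (.g (nat_lit 5) .nil .nil))) 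
(.lf (nat_lit 28406) (.g (nat_lit 2745) (.e (nat_lit 1199) (nat_lit 88) (.e (nat_lit 65628) (nat_lit 14) (.e (nat_lit 401457) (nat_lit 13) (.e (nat_lit 483378) (nat_lit 23) (.e (nat_lit 335997) (nat_lit 1) (.e (nat_lit 57870) (nat_lit 264) .nil)))))) (.g (nat_lit 6) .nil .nil))))) (.nd (nat_lit 4) (.nd (nat_lit 5) 
(.lf (nat_lit 28366) (.g (nat_lit 2819) (.e (nat_lit 1199) (nat_lit 88) (.e (nat_lit 65628) (nat_lit 14) (.e (nat_lit 401437) (nat_lit 9) (.e (nat_lit 426542) (nat_lit 29) (.e (nat_lit 352309) (nat_lit 21) (.e (nat_lit 57870) (nat_lit 264) .nil)))))) (.g (nat_lit 6) .nil .nil))) 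
(.lf (nat_lit 28398) (.g (nat_lit 3051) (.e (nat_lit 1199) (nat_lit 88) (.e (nat_lit 65628) (nat_lit 14) (.e (nat_lit 401438) (nat_lit 9) (.e (nat_lit 426555) (nat_lit 32) (.e (nat_lit 376859) (nat_lit 21) (.e (nat_lit 57870) (nat_lit 264) .nil)))))) (.g (nat_lit 6) .nil .nil)))) (.nd (nat_lit 5) 
(.lf (nat_lit 28382) (.g (nat_lit 3050) (.e (nat_lit 1199) (nat_lit 88) (.e (nat_lit 65628) (nat_lit 14) (.e (nat_lit 401437) (nat_lit 9) (.e (nat_lit 426555) (nat_lit 32) (.e (nat_lit 376860) (nat_lit 21) (.e (nat_lit 57870) (nat_lit 264) .nil)))))) (.g (nat_lit 6) .nil .nil))) 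
(.lf (nat_lit 28414) (.g (nat_lit 2180) (.e (nat_lit 1199) (nat_lit 88) (.e (nat_lit 65628) (nat_lit 14) (.e (nat_lit 401457) (nat_lit 13) (.e (nat_lit 483393) (nat_lit 23) (.e (nat_lit 335986) (nat_lit 1) (.e (nat_lit 57871) (nat_lit 264) .nil)))))) (.g (nat_lit 4) .nil .nil)))))))) (.nd (nat_lit 1) (.nd (nat_lit 2) (.nd (nat_lit 3) (.nd (nat_lit 4) (.nd (nat_lit 5) 
(.lf (nat_lit 28353) (.g (nat_lit 2564) (.e (nat_lit 1199) (nat_lit 88) (.e (nat_lit 65628) (nat_lit 14) (.e (nat_lit 401436) (nat_lit 9) (.e (nat_lit 426555) (nat_lit 32) (.e (nat_lit 376860) (nat_lit 21) (.e (nat_lit 57870) (nat_lit 264) .nil)))))) (.g (nat_lit 5) .nil .nil))) 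
(.lf (nat_lit 28385) (.g (nat_lit 2852) (.e (nat_lit 1199) (nat_lit 88) (.e (nat_lit 65628) (nat_lit 14) (.e (nat_lit 401438) (nat_lit 9) (.e (nat_lit 426542) (nat_lit 29) (.e (nat_lit 352307) (nat_lit 21) (.e (nat_lit 57871) (nat_lit 264) .nil)))))) (.g (nat_lit 6) .nil .nil)))) (.nd (nat_lit 5) 
(.lf (nat_lit 28369) (.g (nat_lit 2130) (.e (nat_lit 1199) (nat_lit 88) (.e (nat_lit 65628) (nat_lit 14) (.e (nat_lit 401437) (nat_lit 9) (.e (nat_lit 426544) (nat_lit 30) (.e (nat_lit 360449) (nat_lit 0) .nil))))) .nil)) 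
(.lf (nat_lit 28401) (.g (nat_lit 1520) (.e (nat_lit 1199) (nat_lit 88) (.e (nat_lit 65628) (nat_lit 14) (.e (nat_lit 401454) (nat_lit 12) (.e (nat_lit 483072) (nat_lit 13) .nil)))) .nil)))) (.nd (nat_lit 4) (.nd (nat_lit 5) 
(.lf (nat_lit 28361) (.g (nat_lit 1855) (.e (nat_lit 1199) (nat_lit 88) (.e (nat_lit 65628) (nat_lit 14) (.e (nat_lit 401437) (nat_lit 9) (.e (nat_lit 426538) (nat_lit 29) (.e (nat_lit 352309) (nat_lit 21) .nil))))) .nil)) 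
(.lf (nat_lit 28393) (.g (nat_lit 1619) (.e (nat_lit 1199) (nat_lit 88) (.e (nat_lit 65628) (nat_lit 14) (.e (nat_lit 401438) (nat_lit 9) (.e (nat_lit 426546) (nat_lit 30) (.e (nat_lit 368384) (nat_lit 0) (.e (nat_lit 5902) (nat_lit 320) .nil)))))) (.g (nat_lit 4) .nil .nil)))) (.nd (nat_lit 5) 
(.lf (nat_lit 28377) (.g (nat_lit 3201) (.e (nat_lit 1199) (nat_lit 88) (.e (nat_lit 65628) (nat_lit 14) (.e (nat_lit 401437) (nat_lit 9) (.e (nat_lit 426555) (nat_lit 32) (.e (nat_lit 376857) (nat_lit 21) (.e (nat_lit 57870) (nat_lit 264) .nil)))))) (.g (nat_lit 6) .nil .nil))) 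
(.lf (nat_lit 28409) (.g (nat_lit 1912) (.e (nat_lit 1199) (nat_lit 88) (.e (nat_lit 65628) (nat_lit 14) (.e (nat_lit 401457) (nat_lit 13) (.e (nat_lit 483383) (nat_lit 23) (.e (nat_lit 336000) (nat_lit 1) .nil))))) .nil))))) (.nd (nat_lit 3) (.nd (nat_lit 4) (.nd (nat_lit 5) 
(.lf (nat_lit 28357) (.g (nat_lit 1822) (.e (nat_lit 1199) (nat_lit 88) (.e (nat_lit 65628) (nat_lit 14) (.e (nat_lit 401437) (nat_lit 9) (.e (nat_lit 426489) (nat_lit 27) .nil)))) .nil)) 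
(.lf (nat_lit 28389) (.g (nat_lit 2790) (.e (nat_lit 1199) (nat_lit 88) (.e (nat_lit 65628) (nat_lit 14) (.e (nat_lit 401438) (nat_lit 9) (.e (nat_lit 426542) (nat_lit 29) (.e (nat_lit 352309) (nat_lit 21) (.e (nat_lit 57872) (nat_lit 264) .nil)))))) (.g (nat_lit 6) .nil .nil)))) (.nd (nat_lit 5) 
(.lf (nat_lit 28373) (.g (nat_lit 2619) (.e (nat_lit 1199) (nat_lit 88) (.e (nat_lit 65628) (nat_lit 14) (.e (nat_lit 401437) (nat_lit 9) (.e (nat_lit 426546) (nat_lit 30) (.e (nat_lit 360452) (nat_lit 0) (.e (nat_lit 5905) (nat_lit 320) .nil)))))) (.g (nat_lit 5) .nil .nil))) 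
(.lf (nat_lit 28405) (.g (nat_lit 398) (.e (nat_lit 1199) (nat_lit 88) (.e (nat_lit 65628) (nat_lit 14) (.e (nat_lit 401457) (nat_lit 13) .nil))) .nil)))) (.nd (nat_lit 4) (.nd (nat_lit 5) 
(.lf (nat_lit 28365) (.g (nat_lit 2955) (.e (nat_lit 1199) (nat_lit 88) (.e (nat_lit 65628) (nat_lit 14) (.e (nat_lit 401437) (nat_lit 9) (.e (nat_lit 426542) (nat_lit 29) (.e (nat_lit 352307) (nat_lit 21) (.e (nat_lit 57872) (nat_lit 264) .nil)))))) (.g (nat_lit 6) .nil .nil))) 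
(.lf (nat_lit 28397) (.g (nat_lit 3450) (.e (nat_lit 1199) (nat_lit 88) (.e (nat_lit 65628) (nat_lit 14) (.e (nat_lit 401438) (nat_lit 9) (.e (nat_lit 426555) (nat_lit 32) (.e (nat_lit 376857) (nat_lit 21) (.e (nat_lit 57873) (nat_lit 264) .nil)))))) (.g (nat_lit 6) .nil .nil)))) (.nd (nat_lit 5) 
(.lf (nat_lit 28381) (.g (nat_lit 2954) (.e (nat_lit 1199) (nat_lit 88) (.e (nat_lit 65628) (nat_lit 14) (.e (nat_lit 401437) (nat_lit 9) (.e (nat_lit 426555) (nat_lit 32) (.e (nat_lit 376859) (nat_lit 21) (.e (nat_lit 57872) (nat_lit 264) .nil)))))) (.g (nat_lit 5) .nil .nil))) 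
(.lf (nat_lit 28413) (.g (nat_lit 1904) (.e (nat_lit 1199) (nat_lit 88) (.e (nat_lit 65628) (nat_lit 14) (.e (nat_lit 401457) (nat_lit 13) (.e (nat_lit 483393) (nat_lit 23) (.e (nat_lit 335986) (nat_lit 1) (.e (nat_lit 57870) (nat_lit 264) .nil)))))) (.g (nat_lit 4) .nil .nil))))))) (.nd (nat_lit 2) (.nd (nat_lit 3) (.nd (nat_lit 4) (.nd (nat_lit 5) 
(.lf (nat_lit 28355) (.g (nat_lit 382) (.e (nat_lit 1199) (nat_lit 88) (.e (nat_lit 65628) (nat_lit 14) (.e (nat_lit 401437) (nat_lit 9) .nil))) .nil)) 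
(.lf (nat_lit 28387) (.g (nat_lit 2641) (.e (nat_lit 1199) (nat_lit 88) (.e (nat_lit 65628) (nat_lit 14) (.e (nat_lit 401438) (nat_lit 9) (.e (nat_lit 426542) (nat_lit 29) (.e (nat_lit 352309) (nat_lit 21) (.e (nat_lit 57870) (nat_lit 264) .nil)))))) (.g (nat_lit 6) .nil .nil)))) (.nd (nat_lit 5) 
(.lf (nat_lit 28371) (.g (nat_lit 2113) (.e (nat_lit 1199) (nat_lit 88) (.e (nat_lit 65628) (nat_lit 14) (.e (nat_lit 401437) (nat_lit 9) (.e (nat_lit 426544) (nat_lit 30) (.e (nat_lit 368384) (nat_lit 0) (.e (nat_lit 5906) (nat_lit 320) .nil)))))) (.g (nat_lit 4) .nil .nil))) 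
(.lf (nat_lit 28403) (.g (nat_lit 2127) (.e (nat_lit 1199) (nat_lit 88) (.e (nat_lit 65628) (nat_lit 14) (.e (nat_lit 401456) (nat_lit 13) (.e (nat_lit 483378) (nat_lit 23) .nil)))) .nil)))) (.nd (nat_lit 4) (.nd (nat_lit 5) 
(.lf (nat_lit 28363) (.g (nat_lit 2903) (.e (nat_lit 1199) (nat_lit 88) (.e (nat_lit 65628) (nat_lit 14) (.e (nat_lit 401437) (nat_lit 9) (.e (nat_lit 426542) (nat_lit 29) (.e (nat_lit 352307) (nat_lit 21) (.e (nat_lit 57870) (nat_lit 264) .nil)))))) (.g (nat_lit 6) .nil .nil))) 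
(.lf (nat_lit 28395) (.g (nat_lit 3209) (.e (nat_lit 1199) (nat_lit 88) (.e (nat_lit 65628) (nat_lit 14) (.e (nat_lit 401438) (nat_lit 9) (.e (nat_lit 426555) (nat_lit 32) (.e (nat_lit 376857) (nat_lit 21) (.e (nat_lit 57870) (nat_lit 264) .nil)))))) (.g (nat_lit 6) .nil .nil)))) (.nd (nat_lit 5) 
(.lf (nat_lit 28379) (.g (nat_lit 1892) (.e (nat_lit 1199) (nat_lit 88) (.e (nat_lit 65628) (nat_lit 14) (.e (nat_lit 401437) (nat_lit 9) (.e (nat_lit 426555) (nat_lit 32) (.e (nat_lit 376859) (nat_lit 21) .nil))))) .nil)) 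
(.lf (nat_lit 28411) (.g (nat_lit 2636) (.e (nat_lit 1199) (nat_lit 88) (.e (nat_lit 65628) (nat_lit 14) (.e (nat_lit 401457) (nat_lit 13) (.e (nat_lit 483383) (nat_lit 23) (.e (nat_lit 336000) (nat_lit 1) (.e (nat_lit 57873) (nat_lit 264) .nil)))))) (.g (nat_lit 5) .nil .nil)))))) (.nd (nat_lit 3) (.nd (nat_lit 4) (.nd (nat_lit 5) 
(.lf (nat_lit 28359) (.g (nat_lit 2528) (.e (nat_lit 1199) (nat_lit 88) (.e (nat_lit 65628) (nat_lit 14) (.e (nat_lit 401437) (nat_lit 9) (.e (nat_lit 426489) (nat_lit 27) (.e (nat_lit 336157) (nat_lit 9) (.e (nat_lit 335995) (nat_lit 1) (.e (nat_lit 57872) (nat_lit 264) .nil))))))) (.g (nat_lit 4) .nil .nil))) 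
(.lf (nat_lit 28391) (.g (nat_lit 1688) (.e (nat_lit 1199) (nat_lit 88) (.e (nat_lit 65628) (nat_lit 14) (.e (nat_lit 401438) (nat_lit 9) (.e (nat_lit 426544) (nat_lit 30) (.e (nat_lit 368384) (nat_lit 0) (.e (nat_lit 5902) (nat_lit 320) .nil)))))) (.g (nat_lit 4) .nil .nil)))) (.nd (nat_lit 5) 
(.lf (nat_lit 28375) (.g (nat_lit 2162) (.e (nat_lit 1199) (nat_lit 88) (.e (nat_lit 65628) (nat_lit 14) (.e (nat_lit 401437) (nat_lit 9) (.e (nat_lit 426546) (nat_lit 30) (.e (nat_lit 368384) (nat_lit 0) (.e (nat_lit 5902) (nat_lit 320) .nil)))))) (.g (nat_lit 4) .nil .nil))) 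
(.lf (nat_lit 28407) (.g (nat_lit 2348) (.e (nat_lit 1199) (nat_lit 88) (.e (nat_lit 65628) (nat_lit 14) (.e (nat_lit 401457) (nat_lit 13) (.e (nat_lit 483378) (nat_lit 23) (.e (nat_lit 335997) (nat_lit 1) (.e (nat_lit 57871) (nat_lit 264) .nil)))))) (.g (nat_lit 4) .nil .nil))))) (.nd (nat_lit 4) (.nd (nat_lit 5) 
(.lf (nat_lit 28367) (.g (nat_lit 2650) (.e (nat_lit 1199) (nat_lit 88) (.e (nat_lit 65628) (nat_lit 14) (.e (nat_lit 401437) (nat_lit 9) (.e (nat_lit 426542) (nat_lit 29) (.e (nat_lit 352309) (nat_lit 21) (.e (nat_lit 57871) (nat_lit 264) .nil)))))) (.g (nat_lit 5) .nil .nil))) 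
(.lf (nat_lit 28399) (.g (nat_lit 2997) (.e (nat_lit 1199) (nat_lit 88) (.e (nat_lit 65628) (nat_lit 14) (.e (nat_lit 401438) (nat_lit 9) (.e (nat_lit 426555) (nat_lit 32) (.e (nat_lit 376859) (nat_lit 21) (.e (nat_lit 57872) (nat_lit 264) .nil)))))) (.g (nat_lit 5) .nil .nil)))) (.nd (nat_lit 5) 
(.lf (nat_lit 28383) (.g (nat_lit 1678) (.e (nat_lit 1199) (nat_lit 88) (.e (nat_lit 65628) (nat_lit 14) (.e (nat_lit 401437) (nat_lit 9) (.e (nat_lit 426556) (nat_lit 32) .nil)))) .nil)) 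
(.lf (nat_lit 28415) (.g (nat_lit 2132) (.e (nat_lit 1199) (nat_lit 88) (.e (nat_lit 65628) (nat_lit 14) (.e (nat_lit 401457) (nat_lit 13) (.e (nat_lit 483393) (nat_lit 23) (.e (nat_lit 335986) (nat_lit 1) (.e (nat_lit 57872) (nat_lit 264) .nil)))))) (.g (nat_lit 4) .nil .nil)))))))))

noncomputable def tv393 : DT := (.nd (nat_lit 0) (.nd (nat_lit 1) (.nd (nat_lit 2) (.nd (nat_lit 3) (.nd (nat_lit 4) (.nd (nat_lit 5) 
(.lf (nat_lit 28416) (.g (nat_lit 3134) (.e (nat_lit 1199) (nat_lit 88) (.e (nat_lit 65628) (nat_lit 14) (.e (nat_lit 401457) (nat_lit 13) (.e (nat_lit 483393) (nat_lit 23) (.e (nat_lit 335986) (nat_lit 1) (.e (nat_lit 57873) (nat_lit 264) .nil)))))) (.g (nat_lit 6) .nil .nil))) 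
(.lf (nat_lit 28448) (.g (nat_lit 3036) (.e (nat_lit 1199) (nat_lit 88) (.e (nat_lit 65628) (nat_lit 14) (.e (nat_lit 401458) (nat_lit 13) (.e (nat_lit 483395) (nat_lit 24) (.e (nat_lit 344090) (nat_lit 18) (.e (nat_lit 5896) (nat_lit 320) .nil)))))) (.g (nat_lit 6) .nil .nil)))) (.nd (nat_lit 5) 
(.lf (nat_lit 28432) (.g (nat_lit 1957) (.e (nat_lit 1199) (nat_lit 88) (.e (nat_lit 65628) (nat_lit 14) (.e (nat_lit 401458) (nat_lit 13) (.e (nat_lit 483387) (nat_lit 23) (.e (nat_lit 335997) (nat_lit 1) (.e (nat_lit 57871) (nat_lit 264) .nil)))))) (.g (nat_lit 5) .nil .nil))) 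
(.lf (nat_lit 28464) (.g (nat_lit 2025) (.e (nat_lit 1199) (nat_lit 88) (.e (nat_lit 65628) (nat_lit 14) (.e (nat_lit 401459) (nat_lit 13) (.e (nat_lit 483344) (nat_lit 17) (.e (nat_lit 6434) (nat_lit 343) .nil))))) .nil)))) (.nd (nat_lit 4) (.nd (nat_lit 5) 
(.lf (nat_lit 28424) (.g (nat_lit 3171) (.e (nat_lit 1199) (nat_lit 88) (.e (nat_lit 65628) (nat_lit 14) (.e (nat_lit 401457) (nat_lit 13) (.e (nat_lit 483395) (nat_lit 24) (.e (nat_lit 344097) (nat_lit 18) (.e (nat_lit 5907) (nat_lit 320) .nil)))))) (.g (nat_lit 6) .nil .nil))) 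
(.lf (nat_lit 28456) (.g (nat_lit 2017) (.e (nat_lit 1199) (nat_lit 88) (.e (nat_lit 65628) (nat_lit 14) (.e (nat_lit 401459) (nat_lit 13) (.e (nat_lit 483343) (nat_lit 17) (.e (nat_lit 6436) (nat_lit 343) .nil))))) .nil))) (.nd (nat_lit 5) 
(.lf (nat_lit 28440) (.g (nat_lit 2710) (.e (nat_lit 1199) (nat_lit 88) (.e (nat_lit 65628) (nat_lit 14) (.e (nat_lit 401458) (nat_lit 13) (.e (nat_lit 483393) (nat_lit 23) (.e (nat_lit 335988) (nat_lit 1) (.e (nat_lit 57870) (nat_lit 264) .nil)))))) (.g (nat_lit 6) .nil .nil))) 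
(.lf (nat_lit 28472) (.g (nat_lit 2450) (.e (nat_lit 1199) (nat_lit 88) (.e (nat_lit 65628) (nat_lit 14) (.e (nat_lit 401459) (nat_lit 13) (.e (nat_lit 483344) (nat_lit 17) (.e (nat_lit 7936) (nat_lit 343) (.e (nat_lit 1183) (nat_lit 87) (.e (nat_lit 57871) (nat_lit 264) .nil))))))) (.g (nat_lit 4) .nil .nil)))))) (.nd (nat_lit 3) (.nd (nat_lit 4) (.nd (nat_lit 5) 
(.lf (nat_lit 28420) (.g (nat_lit 3197) (.e (nat_lit 1199) (nat_lit 88) (.e (nat_lit 65628) (nat_lit 14) (.e (nat_lit 401457) (nat_lit 13) (.e (nat_lit 483393) (nat_lit 23) (.e (nat_lit 335996) (nat_lit 1) (.e (nat_lit 57870) (nat_lit 264) .nil)))))) (.g (nat_lit 5) .nil .nil))) 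
(.lf (nat_lit 28452) (.g (nat_lit 1932) (.e (nat_lit 1199) (nat_lit 88) (.e (nat_lit 65628) (nat_lit 14) (.e (nat_lit 401458) (nat_lit 13) (.e (nat_lit 483396) (nat_lit 24) (.e (nat_lit 344100) (nat_lit 18) (.e (nat_lit 5906) (nat_lit 320) .nil)))))) (.g (nat_lit 4) .nil .nil)))) (.nd (nat_lit 5) 
(.lf (nat_lit 28436) (.g (nat_lit 1641) (.e (nat_lit 1199) (nat_lit 88) (.e (nat_lit 65628) (nat_lit 14) (.e (nat_lit 401458) (nat_lit 13) (.e (nat_lit 483393) (nat_lit 23) (.e (nat_lit 335986) (nat_lit 1) (.e (nat_lit 57870) (nat_lit 264) .nil)))))) (.g (nat_lit 4) .nil .nil))) 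
(.lf (nat_lit 28468) (.g (nat_lit 2381) (.e (nat_lit 1199) (nat_lit 88) (.e (nat_lit 65628) (nat_lit 14) (.e (nat_lit 401459) (nat_lit 13) (.e (nat_lit 483344) (nat_lit 17) (.e (nat_lit 6479) (nat_lit 343) (.e (nat_lit 1181) (nat_lit 87) (.e (nat_lit 57870) (nat_lit 264) .nil))))))) (.g (nat_lit 4) .nil .nil))))) (.nd (nat_lit 4) (.nd (nat_lit 5) 
(.lf (nat_lit 28428) (.g (nat_lit 1531) (.e (nat_lit 1199) (nat_lit 88) (.e (nat_lit 65628) (nat_lit 14) (.e (nat_lit 401458) (nat_lit 13) (.e (nat_lit 483383) (nat_lit 23) (.e (nat_lit 335878) (nat_lit 0) .nil))))) .nil)) 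
(.lf (nat_lit 28460) (.g (nat_lit 2043) (.e (nat_lit 1199) (nat_lit 88) (.e (nat_lit 65628) (nat_lit 14) (.e (nat_lit 401459) (nat_lit 13) (.e (nat_lit 483344) (nat_lit 17) (.e (nat_lit 6154) (nat_lit 332) .nil))))) .nil))) (.nd (nat_lit 5) 
(.lf (nat_lit 28444) (.g (nat_lit 1217) (.e (nat_lit 1199) (nat_lit 88) (.e (nat_lit 65628) (nat_lit 14) (.e (nat_lit 401458) (nat_lit 13) (.e (nat_lit 491264) (nat_lit 23) .nil)))) .nil)) 
(.lf (nat_lit 28476) (.g (nat_lit 2287) (.e (nat_lit 1199) (nat_lit 88) (.e (nat_lit 65628) (nat_lit 14) (.e (nat_lit 401459) (nat_lit 13) (.e (nat_lit 483344) (nat_lit 17) (.e (nat_lit 6522) (nat_lit 349) (.e (nat_lit 122883) (nat_lit 0) (.e (nat_lit 5907) (nat_lit 320) .nil))))))) (.g (nat_lit 4) .nil .nil))))))) (.nd (nat_lit 2) (.nd (nat_lit 3) (.nd (nat_lit 4) (.nd (nat_lit 5) 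
(.lf (nat_lit 28418) (.g (nat_lit 2839) (.e (nat_lit 1199) (nat_lit 88) (.e (nat_lit 65628) (nat_lit 14) (.e (nat_lit 401457) (nat_lit 13) (.e (nat_lit 483393) (nat_lit 23) (.e (nat_lit 335988) (nat_lit 1) (.e (nat_lit 57870) (nat_lit 264) .nil)))))) (.g (nat_lit 5) .nil .nil))) 
(.lf (nat_lit 28450) (.g (nat_lit 1154) (.e (nat_lit 1199) (nat_lit 88) (.e (nat_lit 65628) (nat_lit 14) (.e (nat_lit 401458) (nat_lit 13) (.e (nat_lit 483396) (nat_lit 24) .nil)))) .nil))) (.nd (nat_lit 5) 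
(.lf (nat_lit 28434) (.g (nat_lit 1732) (.e (nat_lit 1199) (nat_lit 88) (.e (nat_lit 65628) (nat_lit 14) (.e (nat_lit 401458) (nat_lit 13) (.e (nat_lit 483389) (nat_lit 23) (.e (nat_lit 335997) (nat_lit 1) (.e (nat_lit 57870) (nat_lit 264) .nil)))))) (.g (nat_lit 5) .nil .nil))) 
(.lf (nat_lit 28466) (.g (nat_lit 2158) (.e (nat_lit 1199) (nat_lit 88) (.e (nat_lit 65628) (nat_lit 14) (.e (nat_lit 401459) (nat_lit 13) (.e (nat_lit 483344) (nat_lit 17) (.e (nat_lit 6436) (nat_lit 343) .nil))))) .nil)))) (.nd (nat_lit 4) (.nd (nat_lit 5) 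
(.lf (nat_lit 28426) (.g (nat_lit 2085) (.e (nat_lit 1199) (nat_lit 88) (.e (nat_lit 65628) (nat_lit 14) (.e (nat_lit 401458) (nat_lit 13) (.e (nat_lit 483378) (nat_lit 23) (.e (nat_lit 335997) (nat_lit 1) (.e (nat_lit 57871) (nat_lit 264) .nil)))))) (.g (nat_lit 5) .nil .nil))) 
(.lf (nat_lit 28458) (.g (nat_lit 1051) (.e (nat_lit 1199) (nat_lit 88) (.e (nat_lit 65628) (nat_lit 14) (.e (nat_lit 401459) (nat_lit 13) (.e (nat_lit 483344) (nat_lit 17) .nil)))) .nil))) (.nd (nat_lit 5) 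
(.lf (nat_lit 28442) (.g (nat_lit 2873) (.e (nat_lit 1199) (nat_lit 88) (.e (nat_lit 65628) (nat_lit 14) (.e (nat_lit 401458) (nat_lit 13) (.e (nat_lit 483393) (nat_lit 23) (.e (nat_lit 335995) (nat_lit 1) (.e (nat_lit 57872) (nat_lit 264) .nil)))))) (.g (nat_lit 5) .nil .nil))) 
(.lf (nat_lit 28474) (.g (nat_lit 2093) (.e (nat_lit 1199) (nat_lit 88) (.e (nat_lit 65628) (nat_lit 14) (.e (nat_lit 401459) (nat_lit 13) (.e (nat_lit 483344) (nat_lit 17) (.e (nat_lit 7936) (nat_lit 346) (.e (nat_lit 57354) (nat_lit 0) (.e (nat_lit 5905) (nat_lit 320) .nil))))))) (.g (nat_lit 4) .nil .nil)))))) (.nd (nat_lit 3) (.nd (nat_lit 4) (.nd (nat_lit 5) 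
(.lf (nat_lit 28422) (.g (nat_lit 2257) (.e (nat_lit 1199) (nat_lit 88) (.e (nat_lit 65628) (nat_lit 14) (.e (nat_lit 401457) (nat_lit 13) (.e (nat_lit 483395) (nat_lit 24) (.e (nat_lit 344097) (nat_lit 18) (.e (nat_lit 5905) (nat_lit 320) .nil)))))) (.g (nat_lit 4) .nil .nil))) 
(.lf (nat_lit 28454) (.g (nat_lit 388) (.e (nat_lit 1199) (nat_lit 88) (.e (nat_lit 65628) (nat_lit 14) (.e (nat_lit 401459) (nat_lit 13) .nil))) .nil))) (.nd (nat_lit 5) 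
(.lf (nat_lit 28438) (.g (nat_lit 1867) (.e (nat_lit 1199) (nat_lit 88) (.e (nat_lit 65628) (nat_lit 14) (.e (nat_lit 401458) (nat_lit 13) (.e (nat_lit 483393) (nat_lit 23) (.e (nat_lit 335986) (nat_lit 1) (.e (nat_lit 57872) (nat_lit 264) .nil)))))) (.g (nat_lit 4) .nil .nil))) 
(.lf (nat_lit 28470) (.g (nat_lit 2038) (.e (nat_lit 1199) (nat_lit 88) (.e (nat_lit 65628) (nat_lit 14) (.e (nat_lit 401459) (nat_lit 13) (.e (nat_lit 483344) (nat_lit 17) (.e (nat_lit 7936) (nat_lit 343) .nil))))) .nil)))) (.nd (nat_lit 4) (.nd (nat_lit 5) 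
(.lf (nat_lit 28430) (.g (nat_lit 2567) (.e (nat_lit 1199) (nat_lit 88) (.e (nat_lit 65628) (nat_lit 14) (.e (nat_lit 401458) (nat_lit 13) (.e (nat_lit 483383) (nat_lit 23) (.e (nat_lit 336000) (nat_lit 1) (.e (nat_lit 57872) (nat_lit 264) .nil)))))) (.g (nat_lit 5) .nil .nil))) 
(.lf (nat_lit 28462) (.g (nat_lit 2393) (.e (nat_lit 1199) (nat_lit 88) (.e (nat_lit 65628) (nat_lit 14) (.e (nat_lit 401459) (nat_lit 13) (.e (nat_lit 483344) (nat_lit 17) (.e (nat_lit 6155) (nat_lit 332) (.e (nat_lit 2546) (nat_lit 158) (.e (nat_lit 8439) (nat_lit 138) .nil))))))) (.g (nat_lit 4) .nil .nil)))) (.nd (nat_lit 5) 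
(.lf (nat_lit 28446) (.g (nat_lit 2795) (.e (nat_lit 1199) (nat_lit 88) (.e (nat_lit 65628) (nat_lit 14) (.e (nat_lit 401458) (nat_lit 13) (.e (nat_lit 483394) (nat_lit 24) (.e (nat_lit 344097) (nat_lit 18) (.e (nat_lit 5906) (nat_lit 320) .nil)))))) (.g (nat_lit 6) .nil .nil))) 
(.lf (nat_lit 28478) (.g (nat_lit 1938) (.e (nat_lit 1199) (nat_lit 88) (.e (nat_lit 65628) (nat_lit 14) (.e (nat_lit 401459) (nat_lit 13) (.e (nat_lit 483344) (nat_lit 17) (.e (nat_lit 6712) (nat_lit 360) .nil))))) .nil))))))) (.nd (nat_lit 1) (.nd (nat_lit 2) (.nd (nat_lit 3) (.nd (nat_lit 4) (.nd (nat_lit 5) 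
(.lf (nat_lit 28417) (.g (nat_lit 2320) (.e (nat_lit 1199) (nat_lit 88) (.e (nat_lit 65628) (nat_lit 14) (.e (nat_lit 401457) (nat_lit 13) (.e (nat_lit 483393) (nat_lit 23) (.e (nat_lit 335987) (nat_lit 1) (.e (nat_lit 57870) (nat_lit 264) .nil)))))) (.g (nat_lit 4) .nil .nil))) 
(.lf (nat_lit 28449) (.g (nat_lit 2692) (.e (nat_lit 1199) (nat_lit 88) (.e (nat_lit 65628) (nat_lit 14) (.e (nat_lit 401458) (nat_lit 13) (.e (nat_lit 483395) (nat_lit 24) (.e (nat_lit 344097) (nat_lit 18) (.e (nat_lit 5906) (nat_lit 320) .nil)))))) (.g (nat_lit 6) .nil .nil)))) (.nd (nat_lit 5) 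
(.lf (nat_lit 28433) (.g (nat_lit 2258) (.e (nat_lit 1199) (nat_lit 88) (.e (nat_lit 65628) (nat_lit 14) (.e (nat_lit 401458) (nat_lit 13) (.e (nat_lit 483387) (nat_lit 23) (.e (nat_lit 335997) (nat_lit 1) (.e (nat_lit 57872) (nat_lit 264) .nil)))))) (.g (nat_lit 5) .nil .nil))) 
(.lf (nat_lit 28465) (.g (nat_lit 2559) (.e (nat_lit 1199) (nat_lit 88) (.e (nat_lit 65628) (nat_lit 14) (.e (nat_lit 401459) (nat_lit 13) (.e (nat_lit 483344) (nat_lit 17) (.e (nat_lit 6434) (nat_lit 343) (.e (nat_lit 1183) (nat_lit 87) (.e (nat_lit 57872) (nat_lit 264) .nil))))))) (.g (nat_lit 4) .nil .nil))))) (.nd (nat_lit 4) (.nd (nat_lit 5) 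
(.lf (nat_lit 28425) (.g (nat_lit 377) (.e (nat_lit 1199) (nat_lit 88) (.e (nat_lit 65628) (nat_lit 14) (.e (nat_lit 401458) (nat_lit 13) .nil))) .nil)) 
(.lf (nat_lit 28457) (.g (nat_lit 2391) (.e (nat_lit 1199) (nat_lit 88) (.e (nat_lit 65628) (nat_lit 14) (.e (nat_lit 401459) (nat_lit 13) (.e (nat_lit 483343) (nat_lit 17) (.e (nat_lit 6514) (nat_lit 346) (.e (nat_lit 57354) (nat_lit 0) (.e (nat_lit 5905) (nat_lit 320) .nil))))))) (.g (nat_lit 4) .nil .nil)))) (.nd (nat_lit 5) 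
(.lf (nat_lit 28441) (.g (nat_lit 2429) (.e (nat_lit 1199) (nat_lit 88) (.e (nat_lit 65628) (nat_lit 14) (.e (nat_lit 401458) (nat_lit 13) (.e (nat_lit 483393) (nat_lit 23) (.e (nat_lit 335995) (nat_lit 1) (.e (nat_lit 57870) (nat_lit 264) .nil)))))) (.g (nat_lit 5) .nil .nil))) 
(.lf (nat_lit 28473) (.g (nat_lit 2612) (.e (nat_lit 1199) (nat_lit 88) (.e (nat_lit 65628) (nat_lit 14) (.e (nat_lit 401459) (nat_lit 13) (.e (nat_lit 483344) (nat_lit 17) (.e (nat_lit 6513) (nat_lit 346) (.e (nat_lit 57354) (nat_lit 0) (.e (nat_lit 5905) (nat_lit 320) .nil))))))) (.g (nat_lit 5) .nil .nil)))))) (.nd (nat_lit 3) (.nd (nat_lit 4) (.nd (nat_lit 5) 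
(.lf (nat_lit 28421) (.g (nat_lit 2021) (.e (nat_lit 1199) (nat_lit 88) (.e (nat_lit 65628) (nat_lit 14) (.e (nat_lit 401457) (nat_lit 13) (.e (nat_lit 483394) (nat_lit 24) (.e (nat_lit 344097) (nat_lit 18) (.e (nat_lit 5906) (nat_lit 320) .nil)))))) (.g (nat_lit 4) .nil .nil))) 
(.lf (nat_lit 28453) (.g (nat_lit 2599) (.e (nat_lit 1199) (nat_lit 88) (.e (nat_lit 65628) (nat_lit 14) (.e (nat_lit 401458) (nat_lit 13) (.e (nat_lit 483399) (nat_lit 25) (.e (nat_lit 368662) (nat_lit 18) (.e (nat_lit 5906) (nat_lit 320) .nil)))))) (.g (nat_lit 6) .nil .nil)))) (.nd (nat_lit 5) 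
(.lf (nat_lit 28437) (.g (nat_lit 1955) (.e (nat_lit 1199) (nat_lit 88) (.e (nat_lit 65628) (nat_lit 14) (.e (nat_lit 401458) (nat_lit 13) (.e (nat_lit 483393) (nat_lit 23) (.e (nat_lit 335986) (nat_lit 1) (.e (nat_lit 57871) (nat_lit 264) .nil)))))) (.g (nat_lit 4) .nil .nil))) 
(.lf (nat_lit 28469) (.g (nat_lit 2082) (.e (nat_lit 1199) (nat_lit 88) (.e (nat_lit 65628) (nat_lit 14) (.e (nat_lit 401459) (nat_lit 13) (.e (nat_lit 483344) (nat_lit 17) (.e (nat_lit 6486) (nat_lit 343) .nil))))) .nil)))) (.nd (nat_lit 4) (.nd (nat_lit 5) 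
(.lf (nat_lit 28429) (.g (nat_lit 2047) (.e (nat_lit 1199) (nat_lit 88) (.e (nat_lit 65628) (nat_lit 14) (.e (nat_lit 401458) (nat_lit 13) (.e (nat_lit 483383) (nat_lit 23) (.e (nat_lit 336000) (nat_lit 1) (.e (nat_lit 57871) (nat_lit 264) .nil)))))) (.g (nat_lit 4) .nil .nil))) 
(.lf (nat_lit 28461) (.g (nat_lit 2510) (.e (nat_lit 1199) (nat_lit 88) (.e (nat_lit 65628) (nat_lit 14) (.e (nat_lit 401459) (nat_lit 13) (.e (nat_lit 483344) (nat_lit 17) (.e (nat_lit 6155) (nat_lit 332) (.e (nat_lit 2544) (nat_lit 158) (.e (nat_lit 8439) (nat_lit 138) .nil))))))) (.g (nat_lit 4) .nil .nil)))) (.nd (nat_lit 5) 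
(.lf (nat_lit 28445) (.g (nat_lit 2280) (.e (nat_lit 1199) (nat_lit 88) (.e (nat_lit 65628) (nat_lit 14) (.e (nat_lit 401458) (nat_lit 13) (.e (nat_lit 483394) (nat_lit 24) (.e (nat_lit 344090) (nat_lit 18) (.e (nat_lit 5896) (nat_lit 320) .nil)))))) (.g (nat_lit 5) .nil .nil))) 
(.lf (nat_lit 28477) (.g (nat_lit 1952) (.e (nat_lit 1199) (nat_lit 88) (.e (nat_lit 65628) (nat_lit 14) (.e (nat_lit 401459) (nat_lit 13) (.e (nat_lit 483344) (nat_lit 17) (.e (nat_lit 6696) (nat_lit 357) .nil))))) .nil)))))) (.nd (nat_lit 2) (.nd (nat_lit 3) (.nd (nat_lit 4) (.nd (nat_lit 5) 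
(.lf (nat_lit 28419) (.g (nat_lit 3041) (.e (nat_lit 1199) (nat_lit 88) (.e (nat_lit 65628) (nat_lit 14) (.e (nat_lit 401457) (nat_lit 13) (.e (nat_lit 483393) (nat_lit 23) (.e (nat_lit 335995) (nat_lit 1) (.e (nat_lit 57872) (nat_lit 264) .nil)))))) (.g (nat_lit 5) .nil .nil))) 
(.lf (nat_lit 28451) (.g (nat_lit 2074) (.e (nat_lit 1199) (nat_lit 88) (.e (nat_lit 65628) (nat_lit 14) (.e (nat_lit 401458) (nat_lit 13) (.e (nat_lit 483396) (nat_lit 24) (.e (nat_lit 344097) (nat_lit 18) (.e (nat_lit 5906) (nat_lit 320) .nil)))))) (.g (nat_lit 4) .nil .nil)))) (.nd (nat_lit 5) 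
(.lf (nat_lit 28435) (.g (nat_lit 1083) (.e (nat_lit 1199) (nat_lit 88) (.e (nat_lit 65628) (nat_lit 14) (.e (nat_lit 401458) (nat_lit 13) (.e (nat_lit 483393) (nat_lit 23) .nil)))) .nil)) 
(.lf (nat_lit 28467) (.g (nat_lit 1947) (.e (nat_lit 1199) (nat_lit 88) (.e (nat_lit 65628) (nat_lit 14) (.e (nat_lit 401459) (nat_lit 13) (.e (nat_lit 483344) (nat_lit 17) (.e (nat_lit 6440) (nat_lit 343) .nil))))) .nil)))) (.nd (nat_lit 4) (.nd (nat_lit 5) 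
(.lf (nat_lit 28427) (.g (nat_lit 2343) (.e (nat_lit 1199) (nat_lit 88) (.e (nat_lit 65628) (nat_lit 14) (.e (nat_lit 401458) (nat_lit 13) (.e (nat_lit 483378) (nat_lit 23) (.e (nat_lit 335997) (nat_lit 1) (.e (nat_lit 57872) (nat_lit 264) .nil)))))) (.g (nat_lit 6) .nil .nil))) 
(.lf (nat_lit 28459) (.g (nat_lit 2070) (.e (nat_lit 1199) (nat_lit 88) (.e (nat_lit 65628) (nat_lit 14) (.e (nat_lit 401459) (nat_lit 13) (.e (nat_lit 483344) (nat_lit 17) (.e (nat_lit 6152) (nat_lit 332) .nil))))) .nil))) (.nd (nat_lit 5) 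
(.lf (nat_lit 28443) (.g (nat_lit 3108) (.e (nat_lit 1199) (nat_lit 88) (.e (nat_lit 65628) (nat_lit 14) (.e (nat_lit 401458) (nat_lit 13) (.e (nat_lit 483393) (nat_lit 23) (.e (nat_lit 335996) (nat_lit 1) (.e (nat_lit 57870) (nat_lit 264) .nil)))))) (.g (nat_lit 6) .nil .nil))) 
(.lf (nat_lit 28475) (.g (nat_lit 2318) (.e (nat_lit 1199) (nat_lit 88) (.e (nat_lit 65628) (nat_lit 14) (.e (nat_lit 401459) (nat_lit 13) (.e (nat_lit 483344) (nat_lit 17) (.e (nat_lit 7936) (nat_lit 346) (.e (nat_lit 57354) (nat_lit 0) (.e (nat_lit 5907) (nat_lit 320) .nil))))))) (.g (nat_lit 4) .nil .nil)))))) (.nd (nat_lit 3) (.nd (nat_lit 4) (.nd (nat_lit 5) 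
(.lf (nat_lit 28423) (.g (nat_lit 2754) (.e (nat_lit 1199) (nat_lit 88) (.e (nat_lit 65628) (nat_lit 14) (.e (nat_lit 401457) (nat_lit 13) (.e (nat_lit 483395) (nat_lit 24) (.e (nat_lit 344097) (nat_lit 18) (.e (nat_lit 5906) (nat_lit 320) .nil)))))) (.g (nat_lit 5) .nil .nil))) 
(.lf (nat_lit 28455) (.g (nat_lit 1683) (.e (nat_lit 1199) (nat_lit 88) (.e (nat_lit 65628) (nat_lit 14) (.e (nat_lit 401459) (nat_lit 13) (.e (nat_lit 483343) (nat_lit 17) .nil)))) .nil))) (.nd (nat_lit 5) 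
(.lf (nat_lit 28439) (.g (nat_lit 2214) (.e (nat_lit 1199) (nat_lit 88) (.e (nat_lit 65628) (nat_lit 14) (.e (nat_lit 401458) (nat_lit 13) (.e (nat_lit 483393) (nat_lit 23) (.e (nat_lit 335987) (nat_lit 1) (.e (nat_lit 57870) (nat_lit 264) .nil)))))) (.g (nat_lit 6) .nil .nil))) 
(.lf (nat_lit 28471) (.g (nat_lit 2443) (.e (nat_lit 1199) (nat_lit 88) (.e (nat_lit 65628) (nat_lit 14) (.e (nat_lit 401459) (nat_lit 13) (.e (nat_lit 483344) (nat_lit 17) (.e (nat_lit 7936) (nat_lit 343) (.e (nat_lit 1181) (nat_lit 87) (.e (nat_lit 57872) (nat_lit 264) .nil))))))) (.g (nat_lit 4) .nil .nil))))) (.nd (nat_lit 4) (.nd (nat_lit 5) 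
(.lf (nat_lit 28431) (.g (nat_lit 2326) (.e (nat_lit 1199) (nat_lit 88) (.e (nat_lit 65628) (nat_lit 14) (.e (nat_lit 401458) (nat_lit 13) (.e (nat_lit 483387) (nat_lit 23) (.e (nat_lit 335997) (nat_lit 1) (.e (nat_lit 57870) (nat_lit 264) .nil)))))) (.g (nat_lit 6) .nil .nil))) 
(.lf (nat_lit 28463) (.g (nat_lit 3238) (.e (nat_lit 1199) (nat_lit 88) (.e (nat_lit 65628) (nat_lit 14) (.e (nat_lit 401459) (nat_lit 13) (.e (nat_lit 483344) (nat_lit 17) (.e (nat_lit 6203) (nat_lit 332) (.e (nat_lit 2544) (nat_lit 158) (.e (nat_lit 8439) (nat_lit 138) .nil))))))) (.g (nat_lit 5) .nil .nil)))) (.nd (nat_lit 5) 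
(.lf (nat_lit 28447) (.g (nat_lit 1518) (.e (nat_lit 1199) (nat_lit 88) (.e (nat_lit 65628) (nat_lit 14) (.e (nat_lit 401458) (nat_lit 13) (.e (nat_lit 483394) (nat_lit 24) (.e (nat_lit 344100) (nat_lit 18) .nil))))) .nil)) 
(.lf (nat_lit 28479) (.g (nat_lit 3507) (.e (nat_lit 1199) (nat_lit 88) (.e (nat_lit 65628) (nat_lit 14) (.e (nat_lit 401459) (nat_lit 13) (.e (nat_lit 483344) (nat_lit 17) (.e (nat_lit 6712) (nat_lit 360) (.e (nat_lit 163843) (nat_lit 0) (.e (nat_lit 4598) (nat_lit 269) .nil))))))) (.g (nat_lit 6) .nil .nil)))))))))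

noncomputable def tv394 : DT := (.nd (nat_lit 0) (.nd (nat_lit 1) (.nd (nat_lit 2) (.nd (nat_lit 3) (.nd (nat_lit 4) (.nd (nat_lit 5) 
(.lf (nat_lit 28480) (.g (nat_lit 3297) (.e (nat_lit 1199) (nat_lit 88) (.e (nat_lit 65628) (nat_lit 14) (.e (nat_lit 401459) (nat_lit 13) (.e (nat_lit 483344) (nat_lit 17) (.e (nat_lit 6712) (nat_lit 360) (.e (nat_lit 163844) (nat_lit 0) (.e (nat_lit 4598) (nat_lit 269) .nil))))))) (.g (nat_lit 5) .nil .nil))) 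
(.lf (nat_lit 28512) (.g (nat_lit 1611) (.e (nat_lit 1199) (nat_lit 88) (.e (nat_lit 65628) (nat_lit 14) (.e (nat_lit 401459) (nat_lit 13) (.e (nat_lit 483380) (nat_lit 23) .nil)))) .nil))) (.nd (nat_lit 5) 
(.lf (nat_lit 28496) (.g (nat_lit 2601) (.e (nat_lit 1199) (nat_lit 88) (.e (nat_lit 65628) (nat_lit 14) (.e (nat_lit 401459) (nat_lit 13) (.e (nat_lit 483354) (nat_lit 17) (.e (nat_lit 7936) (nat_lit 346) (.e (nat_lit 57354) (nat_lit 0) (.e (nat_lit 5906) (nat_lit 320) .nil))))))) (.g (nat_lit 4) .nil .nil))) 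
(.lf (nat_lit 28528) (.g (nat_lit 2176) (.e (nat_lit 1199) (nat_lit 88) (.e (nat_lit 65628) (nat_lit 14) (.e (nat_lit 401459) (nat_lit 13) (.e (nat_lit 483389) (nat_lit 23) (.e (nat_lit 335997) (nat_lit 1) .nil))))) .nil)))) (.nd (nat_lit 4) (.nd (nat_lit 5) 
(.lf (nat_lit 28488) (.g (nat_lit 2943) (.e (nat_lit 1199) (nat_lit 88) (.e (nat_lit 65628) (nat_lit 14) (.e (nat_lit 401459) (nat_lit 13) (.e (nat_lit 483350) (nat_lit 17) (.e (nat_lit 6097) (nat_lit 332) .nil))))) .nil)) 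
(.lf (nat_lit 28520) (.g (nat_lit 1295) (.e (nat_lit 1199) (nat_lit 88) (.e (nat_lit 65628) (nat_lit 14) (.e (nat_lit 401459) (nat_lit 13) (.e (nat_lit 483386) (nat_lit 23) .nil)))) .nil))) (.nd (nat_lit 5) 
(.lf (nat_lit 28504) (.g (nat_lit 4430) (.e (nat_lit 1199) (nat_lit 88) (.e (nat_lit 65628) (nat_lit 14) (.e (nat_lit 401459) (nat_lit 13) (.e (nat_lit 483372) (nat_lit 21) (.e (nat_lit 319514) (nat_lit 11) .nil))))) .nil)) 
(.lf (nat_lit 28536) (.g (nat_lit 2645) (.e (nat_lit 1199) (nat_lit 88) (.e (nat_lit 65628) (nat_lit 14) (.e (nat_lit 401459) (nat_lit 13) (.e (nat_lit 483393) (nat_lit 23) (.e (nat_lit 335986) (nat_lit 1) (.e (nat_lit 57872) (nat_lit 264) .nil)))))) (.g (nat_lit 4) .nil .nil)))))) (.nd (nat_lit 3) (.nd (nat_lit 4) (.nd (nat_lit 5) 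
(.lf (nat_lit 28484) (.g (nat_lit 2129) (.e (nat_lit 1199) (nat_lit 88) (.e (nat_lit 65628) (nat_lit 14) (.e (nat_lit 401459) (nat_lit 13) (.e (nat_lit 483344) (nat_lit 17) (.e (nat_lit 6714) (nat_lit 360) (.e (nat_lit 163850) (nat_lit 0) (.e (nat_lit 4605) (nat_lit 269) .nil))))))) (.g (nat_lit 4) .nil .nil))) 
(.lf (nat_lit 28516) (.g (nat_lit 1807) (.e (nat_lit 1199) (nat_lit 88) (.e (nat_lit 65628) (nat_lit 14) (.e (nat_lit 401459) (nat_lit 13) (.e (nat_lit 483381) (nat_lit 23) .nil)))) .nil))) (.nd (nat_lit 5) 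
(.lf (nat_lit 28500) (.g (nat_lit 4678) (.e (nat_lit 1199) (nat_lit 88) (.e (nat_lit 65628) (nat_lit 14) (.e (nat_lit 401459) (nat_lit 13) (.e (nat_lit 483372) (nat_lit 21) (.e (nat_lit 319490) (nat_lit 0) (.e (nat_lit 75) (nat_lit 0) (.e (nat_lit 5902) (nat_lit 320) .nil))))))) (.g (nat_lit 4) .nil .nil))) 
(.lf (nat_lit 28532) (.g (nat_lit 2465) (.e (nat_lit 1199) (nat_lit 88) (.e (nat_lit 65628) (nat_lit 14) (.e (nat_lit 401459) (nat_lit 13) (.e (nat_lit 483392) (nat_lit 23) (.e (nat_lit 335996) (nat_lit 1) .nil))))) .nil)))) (.nd (nat_lit 4) (.nd (nat_lit 5) 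
(.lf (nat_lit 28492) (.g (nat_lit 3310) (.e (nat_lit 1199) (nat_lit 88) (.e (nat_lit 65628) (nat_lit 14) (.e (nat_lit 401459) (nat_lit 13) (.e (nat_lit 483350) (nat_lit 17) (.e (nat_lit 7936) (nat_lit 343) (.e (nat_lit 1181) (nat_lit 87) (.e (nat_lit 57872) (nat_lit 264) .nil))))))) (.g (nat_lit 4) .nil .nil))) 
(.lf (nat_lit 28524) (.g (nat_lit 2921) (.e (nat_lit 1199) (nat_lit 88) (.e (nat_lit 65628) (nat_lit 14) (.e (nat_lit 401459) (nat_lit 13) (.e (nat_lit 483387) (nat_lit 23) (.e (nat_lit 335997) (nat_lit 1) (.e (nat_lit 57871) (nat_lit 264) .nil)))))) (.g (nat_lit 5) .nil .nil)))) (.nd (nat_lit 5) 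
(.lf (nat_lit 28508) (.g (nat_lit 1875) (.e (nat_lit 1199) (nat_lit 88) (.e (nat_lit 65628) (nat_lit 14) (.e (nat_lit 401459) (nat_lit 13) (.e (nat_lit 483375) (nat_lit 22) .nil)))) .nil)) 
(.lf (nat_lit 28540) (.g (nat_lit 3812) (.e (nat_lit 1199) (nat_lit 88) (.e (nat_lit 65628) (nat_lit 14) (.e (nat_lit 401459) (nat_lit 13) (.e (nat_lit 483393) (nat_lit 23) (.e (nat_lit 335996) (nat_lit 1) (.e (nat_lit 57870) (nat_lit 264) .nil)))))) (.g (nat_lit 6) .nil .nil))))))) (.nd (nat_lit 2) (.nd (nat_lit 3) (.nd (nat_lit 4) (.nd (nat_lit 5) 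
(.lf (nat_lit 28482) (.g (nat_lit 1888) (.e (nat_lit 1199) (nat_lit 88) (.e (nat_lit 65628) (nat_lit 14) (.e (nat_lit 401459) (nat_lit 13) (.e (nat_lit 483344) (nat_lit 17) (.e (nat_lit 6714) (nat_lit 360) .nil))))) .nil)) 
(.lf (nat_lit 28514) (.g (nat_lit 2302) (.e (nat_lit 1199) (nat_lit 88) (.e (nat_lit 65628) (nat_lit 14) (.e (nat_lit 401459) (nat_lit 13) (.e (nat_lit 483380) (nat_lit 23) (.e (nat_lit 343808) (nat_lit 1) .nil))))) .nil))) (.nd (nat_lit 5) 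
(.lf (nat_lit 28498) (.g (nat_lit 2911) (.e (nat_lit 1199) (nat_lit 88) (.e (nat_lit 65628) (nat_lit 14) (.e (nat_lit 401459) (nat_lit 13) (.e (nat_lit 483363) (nat_lit 18) (.e (nat_lit 65280) (nat_lit 217) .nil))))) .nil)) 
(.lf (nat_lit 28530) (.g (nat_lit 2210) (.e (nat_lit 1199) (nat_lit 88) (.e (nat_lit 65628) (nat_lit 14) (.e (nat_lit 401459) (nat_lit 13) (.e (nat_lit 483392) (nat_lit 23) .nil)))) .nil)))) (.nd (nat_lit 4) (.nd (nat_lit 5) 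
(.lf (nat_lit 28490) (.g (nat_lit 2795) (.e (nat_lit 1199) (nat_lit 88) (.e (nat_lit 65628) (nat_lit 14) (.e (nat_lit 401459) (nat_lit 13) (.e (nat_lit 483350) (nat_lit 17) (.e (nat_lit 6113) (nat_lit 332) (.e (nat_lit 7936) (nat_lit 158) (.e (nat_lit 8439) (nat_lit 138) .nil))))))) (.g (nat_lit 4) .nil .nil))) 
(.lf (nat_lit 28522) (.g (nat_lit 2901) (.e (nat_lit 1199) (nat_lit 88) (.e (nat_lit 65628) (nat_lit 14) (.e (nat_lit 401459) (nat_lit 13) (.e (nat_lit 483386) (nat_lit 23) (.e (nat_lit 335985) (nat_lit 1) (.e (nat_lit 57873) (nat_lit 264) .nil)))))) (.g (nat_lit 0) .nil .nil)))) (.nd (nat_lit 5) 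
(.lf (nat_lit 28506) (.g (nat_lit 1963) (.e (nat_lit 1199) (nat_lit 88) (.e (nat_lit 65628) (nat_lit 14) (.e (nat_lit 401459) (nat_lit 13) (.e (nat_lit 483374) (nat_lit 22) .nil)))) .nil)) 
(.lf (nat_lit 28538) (.g (nat_lit 3332) (.e (nat_lit 1199) (nat_lit 88) (.e (nat_lit 65628) (nat_lit 14) (.e (nat_lit 401459) (nat_lit 13) (.e (nat_lit 483393) (nat_lit 23) (.e (nat_lit 335988) (nat_lit 1) (.e (nat_lit 57870) (nat_lit 264) .nil)))))) (.g (nat_lit 5) .nil .nil)))))) (.nd (nat_lit 3) (.nd (nat_lit 4) (.nd (nat_lit 5) 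
(.lf (nat_lit 28486) (.g (nat_lit 1857) (.e (nat_lit 1199) (nat_lit 88) (.e (nat_lit 65628) (nat_lit 14) (.e (nat_lit 401459) (nat_lit 13) (.e (nat_lit 483347) (nat_lit 17) .nil)))) .nil)) 
(.lf (nat_lit 28518) (.g (nat_lit 2916) (.e (nat_lit 1199) (nat_lit 88) (.e (nat_lit 65628) (nat_lit 14) (.e (nat_lit 401459) (nat_lit 13) (.e (nat_lit 483383) (nat_lit 23) (.e (nat_lit 336000) (nat_lit 1) .nil))))) .nil))) (.nd (nat_lit 5) 
(.lf (nat_lit 28502) (.g (nat_lit 3353) (.e (nat_lit 1199) (nat_lit 88) (.e (nat_lit 65628) (nat_lit 14) (.e (nat_lit 401459) (nat_lit 13) (.e (nat_lit 483372) (nat_lit 21) (.e (nat_lit 327424) (nat_lit 0) .nil))))) .nil)) 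
(.lf (nat_lit 28534) (.g (nat_lit 2473) (.e (nat_lit 1199) (nat_lit 88) (.e (nat_lit 65628) (nat_lit 14) (.e (nat_lit 401459) (nat_lit 13) (.e (nat_lit 483393) (nat_lit 23) (.e (nat_lit 335986) (nat_lit 1) (.e (nat_lit 57870) (nat_lit 264) .nil)))))) (.g (nat_lit 4) .nil .nil))))) (.nd (nat_lit 4) (.nd (nat_lit 5) 
(.lf (nat_lit 28494) (.g (nat_lit 2209) (.e (nat_lit 1199) (nat_lit 88) (.e (nat_lit 65628) (nat_lit 14) (.e (nat_lit 401459) (nat_lit 13) (.e (nat_lit 483354) (nat_lit 17) (.e (nat_lit 6493) (nat_lit 343) .nil))))) .nil)) 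
(.lf (nat_lit 28526) (.g (nat_lit 2271) (.e (nat_lit 1199) (nat_lit 88) (.e (nat_lit 65628) (nat_lit 14) (.e (nat_lit 401459) (nat_lit 13) (.e (nat_lit 483388) (nat_lit 23) .nil)))) .nil))) (.nd (nat_lit 5) 
(.lf (nat_lit 28510) (.g (nat_lit 2606) (.e (nat_lit 1199) (nat_lit 88) (.e (nat_lit 65628) (nat_lit 14) (.e (nat_lit 401459) (nat_lit 13) (.e (nat_lit 483378) (nat_lit 23) (.e (nat_lit 335997) (nat_lit 1) (.e (nat_lit 57871) (nat_lit 264) .nil)))))) (.g (nat_lit 5) .nil .nil))) 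
(.lf (nat_lit 28542) (.g (nat_lit 3065) (.e (nat_lit 1199) (nat_lit 88) (.e (nat_lit 65628) (nat_lit 14) (.e (nat_lit 401459) (nat_lit 13) (.e (nat_lit 483394) (nat_lit 24) (.e (nat_lit 344090) (nat_lit 18) (.e (nat_lit 5896) (nat_lit 320) .nil)))))) (.g (nat_lit 5) .nil .nil)))))))) (.nd (nat_lit 1) (.nd (nat_lit 2) (.nd (nat_lit 3) (.nd (nat_lit 4) (.nd (nat_lit 5) 
(.lf (nat_lit 28481) (.g (nat_lit 3061) (.e (nat_lit 1199) (nat_lit 88) (.e (nat_lit 65628) (nat_lit 14) (.e (nat_lit 401459) (nat_lit 13) (.e (nat_lit 483344) (nat_lit 17) (.e (nat_lit 6712) (nat_lit 360) (.e (nat_lit 163849) (nat_lit 0) (.e (nat_lit 4598) (nat_lit 269) .nil))))))) (.g (nat_lit 5) .nil .nil))) 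
(.lf (nat_lit 28513) (.g (nat_lit 3209) (.e (nat_lit 1199) (nat_lit 88) (.e (nat_lit 65628) (nat_lit 14) (.e (nat_lit 401459) (nat_lit 13) (.e (nat_lit 483380) (nat_lit 23) (.e (nat_lit 335973) (nat_lit 0) .nil))))) .nil))) (.nd (nat_lit 5) 
(.lf (nat_lit 28497) (.g (nat_lit 2273) (.e (nat_lit 1199) (nat_lit 88) (.e (nat_lit 65628) (nat_lit 14) (.e (nat_lit 401459) (nat_lit 13) (.e (nat_lit 483354) (nat_lit 17) (.e (nat_lit 7936) (nat_lit 346) (.e (nat_lit 57354) (nat_lit 0) (.e (nat_lit 5907) (nat_lit 320) .nil))))))) (.g (nat_lit 4) .nil .nil))) 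
(.lf (nat_lit 28529) (.g (nat_lit 1654) (.e (nat_lit 1199) (nat_lit 88) (.e (nat_lit 65628) (nat_lit 14) (.e (nat_lit 401459) (nat_lit 13) (.e (nat_lit 483391) (nat_lit 23) .nil)))) .nil)))) (.nd (nat_lit 4) (.nd (nat_lit 5) 
(.lf (nat_lit 28489) (.g (nat_lit 2745) (.e (nat_lit 1199) (nat_lit 88) (.e (nat_lit 65628) (nat_lit 14) (.e (nat_lit 401459) (nat_lit 13) (.e (nat_lit 483350) (nat_lit 17) (.e (nat_lit 6113) (nat_lit 332) (.e (nat_lit 2538) (nat_lit 158) (.e (nat_lit 8439) (nat_lit 138) .nil))))))) (.g (nat_lit 4) .nil .nil))) 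
(.lf (nat_lit 28521) (.g (nat_lit 2172) (.e (nat_lit 1199) (nat_lit 88) (.e (nat_lit 65628) (nat_lit 14) (.e (nat_lit 401459) (nat_lit 13) (.e (nat_lit 483386) (nat_lit 23) (.e (nat_lit 335985) (nat_lit 1) (.e (nat_lit 57872) (nat_lit 264) .nil)))))) (.g (nat_lit 4) .nil .nil)))) (.nd (nat_lit 5) 
(.lf (nat_lit 28505) (.g (nat_lit 5115) (.e (nat_lit 1199) (nat_lit 88) (.e (nat_lit 65628) (nat_lit 14) (.e (nat_lit 401459) (nat_lit 13) (.e (nat_lit 483372) (nat_lit 21) (.e (nat_lit 319516) (nat_lit 11) (.e (nat_lit 8484) (nat_lit 168) .nil)))))) (.g (nat_lit 4) .nil .nil))) 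
(.lf (nat_lit 28537) (.g (nat_lit 2860) (.e (nat_lit 1199) (nat_lit 88) (.e (nat_lit 65628) (nat_lit 14) (.e (nat_lit 401459) (nat_lit 13) (.e (nat_lit 483393) (nat_lit 23) (.e (nat_lit 335987) (nat_lit 1) (.e (nat_lit 57870) (nat_lit 264) .nil)))))) (.g (nat_lit 5) .nil .nil)))))) (.nd (nat_lit 3) (.nd (nat_lit 4) (.nd (nat_lit 5) 
(.lf (nat_lit 28485) (.g (nat_lit 2472) (.e (nat_lit 1199) (nat_lit 88) (.e (nat_lit 65628) (nat_lit 14) (.e (nat_lit 401459) (nat_lit 13) (.e (nat_lit 483344) (nat_lit 17) (.e (nat_lit 6714) (nat_lit 360) (.e (nat_lit 163850) (nat_lit 0) (.e (nat_lit 4606) (nat_lit 269) .nil))))))) (.g (nat_lit 5) .nil .nil))) 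
(.lf (nat_lit 28517) (.g (nat_lit 2133) (.e (nat_lit 1199) (nat_lit 88) (.e (nat_lit 65628) (nat_lit 14) (.e (nat_lit 401459) (nat_lit 13) (.e (nat_lit 483383) (nat_lit 23) .nil)))) .nil))) (.nd (nat_lit 5) 
(.lf (nat_lit 28501) (.g (nat_lit 5505) (.e (nat_lit 1199) (nat_lit 88) (.e (nat_lit 65628) (nat_lit 14) (.e (nat_lit 401459) (nat_lit 13) (.e (nat_lit 483372) (nat_lit 21) (.e (nat_lit 319494) (nat_lit 0) .nil))))) .nil)) 
(.lf (nat_lit 28533) (.g (nat_lit 1909) (.e (nat_lit 1199) (nat_lit 88) (.e (nat_lit 65628) (nat_lit 14) (.e (nat_lit 401459) (nat_lit 13) (.e (nat_lit 483393) (nat_lit 23) .nil)))) .nil)))) (.nd (nat_lit 4) (.nd (nat_lit 5) 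
(.lf (nat_lit 28493) (.g (nat_lit 2898) (.e (nat_lit 1199) (nat_lit 88) (.e (nat_lit 65628) (nat_lit 14) (.e (nat_lit 401459) (nat_lit 13) (.e (nat_lit 483350) (nat_lit 17) (.e (nat_lit 7936) (nat_lit 346) .nil))))) .nil)) 
(.lf (nat_lit 28525) (.g (nat_lit 3235) (.e (nat_lit 1199) (nat_lit 88) (.e (nat_lit 65628) (nat_lit 14) (.e (nat_lit 401459) (nat_lit 13) (.e (nat_lit 483387) (nat_lit 23) (.e (nat_lit 335997) (nat_lit 1) (.e (nat_lit 57872) (nat_lit 264) .nil)))))) (.g (nat_lit 5) .nil .nil)))) (.nd (nat_lit 5) 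
(.lf (nat_lit 28509) (.g (nat_lit 3519) (.e (nat_lit 1199) (nat_lit 88) (.e (nat_lit 65628) (nat_lit 14) (.e (nat_lit 401459) (nat_lit 13) (.e (nat_lit 483375) (nat_lit 22) (.e (nat_lit 327692) (nat_lit 1) (.e (nat_lit 8439) (nat_lit 138) .nil)))))) (.g (nat_lit 5) .nil .nil))) 
(.lf (nat_lit 28541) (.g (nat_lit 1047) (.e (nat_lit 1199) (nat_lit 88) (.e (nat_lit 65628) (nat_lit 14) (.e (nat_lit 401459) (nat_lit 13) (.e (nat_lit 483394) (nat_lit 24) .nil)))) .nil)))))) (.nd (nat_lit 2) (.nd (nat_lit 3) (.nd (nat_lit 4) (.nd (nat_lit 5) 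
(.lf (nat_lit 28483) (.g (nat_lit 2282) (.e (nat_lit 1199) (nat_lit 88) (.e (nat_lit 65628) (nat_lit 14) (.e (nat_lit 401459) (nat_lit 13) (.e (nat_lit 483344) (nat_lit 17) (.e (nat_lit 6714) (nat_lit 360) (.e (nat_lit 163841) (nat_lit 0) (.e (nat_lit 4598) (nat_lit 269) .nil))))))) (.g (nat_lit 4) .nil .nil))) 
(.lf (nat_lit 28515) (.g (nat_lit 2674) (.e (nat_lit 1199) (nat_lit 88) (.e (nat_lit 65628) (nat_lit 14) (.e (nat_lit 401459) (nat_lit 13) (.e (nat_lit 483380) (nat_lit 23) (.e (nat_lit 343808) (nat_lit 1) (.e (nat_lit 57872) (nat_lit 264) .nil)))))) (.g (nat_lit 4) .nil .nil)))) (.nd (nat_lit 5) 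
(.lf (nat_lit 28499) (.g (nat_lit 2024) (.e (nat_lit 1199) (nat_lit 88) (.e (nat_lit 65628) (nat_lit 14) (.e (nat_lit 401459) (nat_lit 13) (.e (nat_lit 483364) (nat_lit 18) .nil)))) .nil)) 
(.lf (nat_lit 28531) (.g (nat_lit 2877) (.e (nat_lit 1199) (nat_lit 88) (.e (nat_lit 65628) (nat_lit 14) (.e (nat_lit 401459) (nat_lit 13) (.e (nat_lit 483392) (nat_lit 23) (.e (nat_lit 335995) (nat_lit 1) (.e (nat_lit 57872) (nat_lit 264) .nil)))))) (.g (nat_lit 4) .nil .nil))))) (.nd (nat_lit 4) (.nd (nat_lit 5) 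
(.lf (nat_lit 28491) (.g (nat_lit 2898) (.e (nat_lit 1199) (nat_lit 88) (.e (nat_lit 65628) (nat_lit 14) (.e (nat_lit 401459) (nat_lit 13) (.e (nat_lit 483350) (nat_lit 17) (.e (nat_lit 7936) (nat_lit 343) .nil))))) .nil)) 
(.lf (nat_lit 28523) (.g (nat_lit 3303) (.e (nat_lit 1199) (nat_lit 88) (.e (nat_lit 65628) (nat_lit 14) (.e (nat_lit 401459) (nat_lit 13) (.e (nat_lit 483387) (nat_lit 23) (.e (nat_lit 335997) (nat_lit 1) (.e (nat_lit 57870) (nat_lit 264) .nil)))))) (.g (nat_lit 6) .nil .nil)))) (.nd (nat_lit 5) 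
(.lf (nat_lit 28507) (.g (nat_lit 2313) (.e (nat_lit 1199) (nat_lit 88) (.e (nat_lit 65628) (nat_lit 14) (.e (nat_lit 401459) (nat_lit 13) (.e (nat_lit 483374) (nat_lit 22) (.e (nat_lit 327684) (nat_lit 0) .nil))))) .nil)) 
(.lf (nat_lit 28539) (.g (nat_lit 3638) (.e (nat_lit 1199) (nat_lit 88) (.e (nat_lit 65628) (nat_lit 14) (.e (nat_lit 401459) (nat_lit 13) (.e (nat_lit 483393) (nat_lit 23) (.e (nat_lit 335995) (nat_lit 1) (.e (nat_lit 57872) (nat_lit 264) .nil)))))) (.g (nat_lit 5) .nil .nil)))))) (.nd (nat_lit 3) (.nd (nat_lit 4) (.nd (nat_lit 5) 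
(.lf (nat_lit 28487) (.g (nat_lit 2221) (.e (nat_lit 1199) (nat_lit 88) (.e (nat_lit 65628) (nat_lit 14) (.e (nat_lit 401459) (nat_lit 13) (.e (nat_lit 483347) (nat_lit 17) (.e (nat_lit 7936) (nat_lit 343) .nil))))) .nil)) 
(.lf (nat_lit 28519) (.g (nat_lit 3045) (.e (nat_lit 1199) (nat_lit 88) (.e (nat_lit 65628) (nat_lit 14) (.e (nat_lit 401459) (nat_lit 13) (.e (nat_lit 483383) (nat_lit 23) (.e (nat_lit 336000) (nat_lit 1) (.e (nat_lit 57873) (nat_lit 264) .nil)))))) (.g (nat_lit 4) .nil .nil)))) (.nd (nat_lit 5) 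
(.lf (nat_lit 28503) (.g (nat_lit 4469) (.e (nat_lit 1199) (nat_lit 88) (.e (nat_lit 65628) (nat_lit 14) (.e (nat_lit 401459) (nat_lit 13) (.e (nat_lit 483372) (nat_lit 21) (.e (nat_lit 319505) (nat_lit 10) .nil))))) .nil)) 
(.lf (nat_lit 28535) (.g (nat_lit 2705) (.e (nat_lit 1199) (nat_lit 88) (.e (nat_lit 65628) (nat_lit 14) (.e (nat_lit 401459) (nat_lit 13) (.e (nat_lit 483393) (nat_lit 23) (.e (nat_lit 335986) (nat_lit 1) (.e (nat_lit 57871) (nat_lit 264) .nil)))))) (.g (nat_lit 4) .nil .nil))))) (.nd (nat_lit 4) (.nd (nat_lit 5) 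
(.lf (nat_lit 28495) (.g (nat_lit 2142) (.e (nat_lit 1199) (nat_lit 88) (.e (nat_lit 65628) (nat_lit 14) (.e (nat_lit 401459) (nat_lit 13) (.e (nat_lit 483354) (nat_lit 17) (.e (nat_lit 7936) (nat_lit 343) .nil))))) .nil)) 
(.lf (nat_lit 28527) (.g (nat_lit 2153) (.e (nat_lit 1199) (nat_lit 88) (.e (nat_lit 65628) (nat_lit 14) (.e (nat_lit 401459) (nat_lit 13) (.e (nat_lit 483389) (nat_lit 23) (.e (nat_lit 335991) (nat_lit 1) .nil))))) .nil))) (.nd (nat_lit 5) 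
(.lf (nat_lit 28511) (.g (nat_lit 2884) (.e (nat_lit 1199) (nat_lit 88) (.e (nat_lit 65628) (nat_lit 14) (.e (nat_lit 401459) (nat_lit 13) (.e (nat_lit 483378) (nat_lit 23) (.e (nat_lit 335997) (nat_lit 1) (.e (nat_lit 57872) (nat_lit 264) .nil)))))) (.g (nat_lit 6) .nil .nil))) 
(.lf (nat_lit 28543) (.g (nat_lit 2917) (.e (nat_lit 1199) (nat_lit 88) (.e (nat_lit 65628) (nat_lit 14) (.e (nat_lit 401459) (nat_lit 13) (.e (nat_lit 483394) (nat_lit 24) (.e (nat_lit 344097) (nat_lit 18) (.e (nat_lit 5905) (nat_lit 320) .nil)))))) (.g (nat_lit 5) .nil .nil)))))))))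

noncomputable def tv395 : DT := (.nd (nat_lit 0) (.nd (nat_lit 1) (.nd (nat_lit 2) (.nd (nat_lit 3) (.nd (nat_lit 4) (.nd (nat_lit 5) (.nd (nat_lit 6) 
(.lf (nat_lit 28544) (.g (nat_lit 3276) (.e (nat_lit 1199) (nat_lit 88) (.e (nat_lit 65628) (nat_lit 14) (.e (nat_lit 401459) (nat_lit 13) (.e (nat_lit 483394) (nat_lit 24) (.e (nat_lit 344097) (nat_lit 18) (.e (nat_lit 5906) (nat_lit 320) .nil)))))) (.g (nat_lit 6) .nil .nil))) 
(.lf (nat_lit 28608) (.g (nat_lit 2597) (.e (nat_lit 1199) (nat_lit 88) (.e (nat_lit 65629) (nat_lit 14) (.e (nat_lit 401459) (nat_lit 13) (.e (nat_lit 483354) (nat_lit 17) .nil)))) .nil))) (.nd (nat_lit 6) 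
(.lf (nat_lit 28576) (.g (nat_lit 2690) (.e (nat_lit 1199) (nat_lit 88) (.e (nat_lit 65629) (nat_lit 14) (.e (nat_lit 401459) (nat_lit 13) (.e (nat_lit 483343) (nat_lit 17) (.e (nat_lit 6514) (nat_lit 346) (.e (nat_lit 57354) (nat_lit 0) (.e (nat_lit 5906) (nat_lit 320) .nil))))))) (.g (nat_lit 4) .nil .nil))) 
(.lf (nat_lit 28640) (.g (nat_lit 2537) (.e (nat_lit 1199) (nat_lit 88) (.e (nat_lit 65629) (nat_lit 14) (.e (nat_lit 401459) (nat_lit 13) (.e (nat_lit 483400) (nat_lit 25) (.e (nat_lit 368662) (nat_lit 18) .nil))))) .nil)))) (.nd (nat_lit 5) (.nd (nat_lit 6) 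
(.lf (nat_lit 28560) (.g (nat_lit 1769) (.e (nat_lit 1199) (nat_lit 88) (.e (nat_lit 65628) (nat_lit 14) (.e (nat_lit 401459) (nat_lit 13) (.e (nat_lit 483400) (nat_lit 25) .nil)))) .nil)) 
(.lf (nat_lit 28624) (.g (nat_lit 2664) (.e (nat_lit 1199) (nat_lit 88) (.e (nat_lit 65629) (nat_lit 14) (.e (nat_lit 401459) (nat_lit 13) (.e (nat_lit 483383) (nat_lit 23) .nil)))) .nil))) (.nd (nat_lit 6) 
(.lf (nat_lit 28592) (.g (nat_lit 3525) (.e (nat_lit 1199) (nat_lit 88) (.e (nat_lit 65629) (nat_lit 14) (.e (nat_lit 401459) (nat_lit 13) (.e (nat_lit 483344) (nat_lit 17) (.e (nat_lit 6514) (nat_lit 346) (.e (nat_lit 57354) (nat_lit 0) (.e (nat_lit 5906) (nat_lit 320) .nil))))))) (.g (nat_lit 5) .nil .nil))) 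
(.lf (nat_lit 28656) (.g (nat_lit 3572) (.e (nat_lit 1199) (nat_lit 88) (.e (nat_lit 65630) (nat_lit 14) (.e (nat_lit 401428) (nat_lit 3) (.e (nat_lit 204869) (nat_lit 29) (.e (nat_lit 360448) (nat_lit 0) (.e (nat_lit 3975) (nat_lit 239) .nil)))))) (.g (nat_lit 5) .nil .nil)))))) (.nd (nat_lit 4) (.nd (nat_lit 5) (.nd (nat_lit 6) 
(.lf (nat_lit 28552) (.g (nat_lit 1971) (.e (nat_lit 1199) (nat_lit 88) (.e (nat_lit 65628) (nat_lit 14) (.e (nat_lit 401459) (nat_lit 13) (.e (nat_lit 483396) (nat_lit 24) .nil)))) .nil)) 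
(.lf (nat_lit 28616) (.g (nat_lit 2407) (.e (nat_lit 1199) (nat_lit 88) (.e (nat_lit 65629) (nat_lit 14) (.e (nat_lit 401459) (nat_lit 13) (.e (nat_lit 483375) (nat_lit 22) .nil)))) .nil))) (.nd (nat_lit 6) 
(.lf (nat_lit 28584) (.g (nat_lit 3367) (.e (nat_lit 1199) (nat_lit 88) (.e (nat_lit 65629) (nat_lit 14) (.e (nat_lit 401459) (nat_lit 13) (.e (nat_lit 483344) (nat_lit 17) (.e (nat_lit 6203) (nat_lit 332) (.e (nat_lit 2544) (nat_lit 158) (.e (nat_lit 8439) (nat_lit 138) .nil))))))) (.g (nat_lit 4) .nil .nil))) 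
(.lf (nat_lit 28648) (.g (nat_lit 2138) (.e (nat_lit 1199) (nat_lit 88) (.e (nat_lit 65630) (nat_lit 14) (.e (nat_lit 401425) (nat_lit 2) (.e (nat_lit 196672) (nat_lit 15) .nil)))) .nil)))) (.nd (nat_lit 5) (.nd (nat_lit 6) 
(.lf (nat_lit 28568) (.g (nat_lit 3088) (.e (nat_lit 1199) (nat_lit 88) (.e (nat_lit 65628) (nat_lit 14) (.e (nat_lit 401459) (nat_lit 13) (.e (nat_lit 483411) (nat_lit 27) (.e (nat_lit 401417) (nat_lit 0) .nil))))) .nil)) 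
(.lf (nat_lit 28632) (.g (nat_lit 3138) (.e (nat_lit 1199) (nat_lit 88) (.e (nat_lit 65629) (nat_lit 14) (.e (nat_lit 401459) (nat_lit 13) (.e (nat_lit 483393) (nat_lit 23) (.e (nat_lit 335995) (nat_lit 1) .nil))))) .nil))) (.nd (nat_lit 6) 
(.lf (nat_lit 28600) (.g (nat_lit 3444) (.e (nat_lit 1199) (nat_lit 88) (.e (nat_lit 65629) (nat_lit 14) (.e (nat_lit 401459) (nat_lit 13) (.e (nat_lit 483344) (nat_lit 17) (.e (nat_lit 6714) (nat_lit 360) (.e (nat_lit 163843) (nat_lit 0) (.e (nat_lit 4598) (nat_lit 269) .nil))))))) (.g (nat_lit 5) .nil .nil))) 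
(.lf (nat_lit 28664) (.g (nat_lit 3460) (.e (nat_lit 1199) (nat_lit 88) (.e (nat_lit 65630) (nat_lit 14) (.e (nat_lit 401435) (nat_lit 9) (.e (nat_lit 426555) (nat_lit 32) (.e (nat_lit 376857) (nat_lit 21) (.e (nat_lit 57873) (nat_lit 264) .nil)))))) (.g (nat_lit 6) .nil .nil))))))) (.nd (nat_lit 3) (.nd (nat_lit 4) (.nd (nat_lit 5) (.nd (nat_lit 6) 
(.lf (nat_lit 28548) (.g (nat_lit 3415) (.e (nat_lit 1199) (nat_lit 88) (.e (nat_lit 65628) (nat_lit 14) (.e (nat_lit 401459) (nat_lit 13) (.e (nat_lit 483395) (nat_lit 24) (.e (nat_lit 344090) (nat_lit 18) (.e (nat_lit 5896) (nat_lit 320) .nil)))))) (.g (nat_lit 6) .nil .nil))) 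
(.lf (nat_lit 28612) (.g (nat_lit 2670) (.e (nat_lit 1199) (nat_lit 88) (.e (nat_lit 65629) (nat_lit 14) (.e (nat_lit 401459) (nat_lit 13) (.e (nat_lit 483371) (nat_lit 21) .nil)))) .nil))) (.nd (nat_lit 6) 
(.lf (nat_lit 28580) (.g (nat_lit 2900) (.e (nat_lit 1199) (nat_lit 88) (.e (nat_lit 65629) (nat_lit 14) (.e (nat_lit 401459) (nat_lit 13) (.e (nat_lit 483344) (nat_lit 17) (.e (nat_lit 6152) (nat_lit 332) (.e (nat_lit 2544) (nat_lit 158) (.e (nat_lit 8439) (nat_lit 138) .nil))))))) (.g (nat_lit 4) .nil .nil))) 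
(.lf (nat_lit 28644) (.g (nat_lit 1434) (.e (nat_lit 1199) (nat_lit 88) (.e (nat_lit 65630) (nat_lit 14) (.e (nat_lit 401425) (nat_lit 2) (.e (nat_lit 196666) (nat_lit 13) .nil)))) .nil)))) (.nd (nat_lit 5) (.nd (nat_lit 6) 
(.lf (nat_lit 28564) (.g (nat_lit 2343) (.e (nat_lit 1199) (nat_lit 88) (.e (nat_lit 65628) (nat_lit 14) (.e (nat_lit 401459) (nat_lit 13) (.e (nat_lit 483411) (nat_lit 27) (.e (nat_lit 401414) (nat_lit 0) .nil))))) .nil)) 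
(.lf (nat_lit 28628) (.g (nat_lit 3849) (.e (nat_lit 1199) (nat_lit 88) (.e (nat_lit 65629) (nat_lit 14) (.e (nat_lit 401459) (nat_lit 13) (.e (nat_lit 483391) (nat_lit 23) (.e (nat_lit 335998) (nat_lit 1) (.e (nat_lit 57873) (nat_lit 264) .nil)))))) (.g (nat_lit 5) .nil .nil)))) (.nd (nat_lit 6) 
(.lf (nat_lit 28596) (.g (nat_lit 3162) (.e (nat_lit 1199) (nat_lit 88) (.e (nat_lit 65629) (nat_lit 14) (.e (nat_lit 401459) (nat_lit 13) (.e (nat_lit 483344) (nat_lit 17) (.e (nat_lit 6712) (nat_lit 360) (.e (nat_lit 163843) (nat_lit 0) (.e (nat_lit 4598) (nat_lit 269) .nil))))))) (.g (nat_lit 4) .nil .nil))) 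
(.lf (nat_lit 28660) (.g (nat_lit 2627) (.e (nat_lit 1199) (nat_lit 88) (.e (nat_lit 65630) (nat_lit 14) (.e (nat_lit 401435) (nat_lit 9) (.e (nat_lit 426544) (nat_lit 30) (.e (nat_lit 360453) (nat_lit 0) (.e (nat_lit 5907) (nat_lit 320) .nil)))))) (.g (nat_lit 5) .nil .nil)))))) (.nd (nat_lit 4) (.nd (nat_lit 5) (.nd (nat_lit 6) 
(.lf (nat_lit 28556) (.g (nat_lit 3231) (.e (nat_lit 1199) (nat_lit 88) (.e (nat_lit 65628) (nat_lit 14) (.e (nat_lit 401459) (nat_lit 13) (.e (nat_lit 483398) (nat_lit 25) (.e (nat_lit 368662) (nat_lit 18) (.e (nat_lit 5906) (nat_lit 320) .nil)))))) (.g (nat_lit 6) .nil .nil))) 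
(.lf (nat_lit 28620) (.g (nat_lit 3114) (.e (nat_lit 1199) (nat_lit 88) (.e (nat_lit 65629) (nat_lit 14) (.e (nat_lit 401459) (nat_lit 13) (.e (nat_lit 483378) (nat_lit 23) (.e (nat_lit 335997) (nat_lit 1) (.e (nat_lit 57872) (nat_lit 264) .nil)))))) (.g (nat_lit 5) .nil .nil)))) (.nd (nat_lit 6) 
(.lf (nat_lit 28588) (.g (nat_lit 2736) (.e (nat_lit 1199) (nat_lit 88) (.e (nat_lit 65629) (nat_lit 14) (.e (nat_lit 401459) (nat_lit 13) (.e (nat_lit 483344) (nat_lit 17) (.e (nat_lit 7936) (nat_lit 343) .nil))))) .nil)) 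
(.lf (nat_lit 28652) (.g (nat_lit 1452) (.e (nat_lit 1199) (nat_lit 88) (.e (nat_lit 65630) (nat_lit 14) (.e (nat_lit 401428) (nat_lit 3) (.e (nat_lit 204838) (nat_lit 20) .nil)))) .nil)))) (.nd (nat_lit 5) (.nd (nat_lit 6) 
(.lf (nat_lit 28572) (.g (nat_lit 2585) (.e (nat_lit 1199) (nat_lit 88) (.e (nat_lit 65628) (nat_lit 14) (.e (nat_lit 401459) (nat_lit 13) (.e (nat_lit 483411) (nat_lit 27) (.e (nat_lit 401422) (nat_lit 1) .nil))))) .nil)) 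
(.lf (nat_lit 28636) (.g (nat_lit 3145) (.e (nat_lit 1199) (nat_lit 88) (.e (nat_lit 65629) (nat_lit 14) (.e (nat_lit 401459) (nat_lit 13) (.e (nat_lit 483398) (nat_lit 25) (.e (nat_lit 368662) (nat_lit 18) (.e (nat_lit 5907) (nat_lit 320) .nil)))))) (.g (nat_lit 5) .nil .nil)))) (.nd (nat_lit 6) 
(.lf (nat_lit 28604) (.g (nat_lit 4684) (.e (nat_lit 1199) (nat_lit 88) (.e (nat_lit 65629) (nat_lit 14) (.e (nat_lit 401459) (nat_lit 13) (.e (nat_lit 483350) (nat_lit 17) (.e (nat_lit 6490) (nat_lit 343) (.e (nat_lit 1179) (nat_lit 87) (.e (nat_lit 57872) (nat_lit 264) .nil))))))) (.g (nat_lit 4) .nil .nil))) 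
(.lf (nat_lit 28668) (.g (nat_lit 3213) (.e (nat_lit 1199) (nat_lit 88) (.e (nat_lit 65630) (nat_lit 14) (.e (nat_lit 401435) (nat_lit 9) (.e (nat_lit 426555) (nat_lit 32) (.e (nat_lit 376860) (nat_lit 21) (.e (nat_lit 57870) (nat_lit 264) .nil)))))) (.g (nat_lit 5) .nil .nil)))))))) (.nd (nat_lit 2) (.nd (nat_lit 3) (.nd (nat_lit 4) (.nd (nat_lit 5) (.nd (nat_lit 6) 
(.lf (nat_lit 28546) (.g (nat_lit 917) (.e (nat_lit 1199) (nat_lit 88) (.e (nat_lit 65628) (nat_lit 14) (.e (nat_lit 401459) (nat_lit 13) (.e (nat_lit 483395) (nat_lit 24) .nil)))) .nil)) 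
(.lf (nat_lit 28610) (.g (nat_lit 2492) (.e (nat_lit 1199) (nat_lit 88) (.e (nat_lit 65629) (nat_lit 14) (.e (nat_lit 401459) (nat_lit 13) (.e (nat_lit 483364) (nat_lit 18) .nil)))) .nil))) (.nd (nat_lit 6) 
(.lf (nat_lit 28578) (.g (nat_lit 1839) (.e (nat_lit 1199) (nat_lit 88) (.e (nat_lit 65629) (nat_lit 14) (.e (nat_lit 401459) (nat_lit 13) (.e (nat_lit 483344) (nat_lit 17) .nil)))) .nil)) 
(.lf (nat_lit 28642) (.g (nat_lit 2240) (.e (nat_lit 1199) (nat_lit 88) (.e (nat_lit 65629) (nat_lit 14) (.e (nat_lit 401459) (nat_lit 13) (.e (nat_lit 483411) (nat_lit 27) .nil)))) .nil)))) (.nd (nat_lit 5) (.nd (nat_lit 6) 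
(.lf (nat_lit 28562) (.g (nat_lit 2445) (.e (nat_lit 1199) (nat_lit 88) (.e (nat_lit 65628) (nat_lit 14) (.e (nat_lit 401459) (nat_lit 13) (.e (nat_lit 483411) (nat_lit 27) (.e (nat_lit 401408) (nat_lit 0) .nil))))) .nil)) 
(.lf (nat_lit 28626) (.g (nat_lit 2716) (.e (nat_lit 1199) (nat_lit 88) (.e (nat_lit 65629) (nat_lit 14) (.e (nat_lit 401459) (nat_lit 13) (.e (nat_lit 483389) (nat_lit 23) .nil)))) .nil))) (.nd (nat_lit 6) 
(.lf (nat_lit 28594) (.g (nat_lit 2736) (.e (nat_lit 1199) (nat_lit 88) (.e (nat_lit 65629) (nat_lit 14) (.e (nat_lit 401459) (nat_lit 13) (.e (nat_lit 483344) (nat_lit 17) (.e (nat_lit 7936) (nat_lit 346) .nil))))) .nil)) 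
(.lf (nat_lit 28658) (.g (nat_lit 2280) (.e (nat_lit 1199) (nat_lit 88) (.e (nat_lit 65630) (nat_lit 14) (.e (nat_lit 401434) (nat_lit 9) (.e (nat_lit 426555) (nat_lit 32) (.e (nat_lit 376857) (nat_lit 21) .nil))))) .nil))))) (.nd (nat_lit 4) (.nd (nat_lit 5) (.nd (nat_lit 6) 
(.lf (nat_lit 28554) (.g (nat_lit 2907) (.e (nat_lit 1199) (nat_lit 88) (.e (nat_lit 65628) (nat_lit 14) (.e (nat_lit 401459) (nat_lit 13) (.e (nat_lit 483396) (nat_lit 24) (.e (nat_lit 344100) (nat_lit 18) .nil))))) .nil)) 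
(.lf (nat_lit 28618) (.g (nat_lit 3128) (.e (nat_lit 1199) (nat_lit 88) (.e (nat_lit 65629) (nat_lit 14) (.e (nat_lit 401459) (nat_lit 13) (.e (nat_lit 483378) (nat_lit 23) (.e (nat_lit 335997) (nat_lit 1) (.e (nat_lit 57870) (nat_lit 264) .nil)))))) (.g (nat_lit 5) .nil .nil)))) (.nd (nat_lit 6) 
(.lf (nat_lit 28586) (.g (nat_lit 2964) (.e (nat_lit 1199) (nat_lit 88) (.e (nat_lit 65629) (nat_lit 14) (.e (nat_lit 401459) (nat_lit 13) (.e (nat_lit 483344) (nat_lit 17) (.e (nat_lit 6436) (nat_lit 343) (.e (nat_lit 1183) (nat_lit 87) (.e (nat_lit 57871) (nat_lit 264) .nil))))))) (.g (nat_lit 4) .nil .nil))) 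
(.lf (nat_lit 28650) (.g (nat_lit 896) (.e (nat_lit 1199) (nat_lit 88) (.e (nat_lit 65630) (nat_lit 14) (.e (nat_lit 401427) (nat_lit 3) .nil))) .nil)))) (.nd (nat_lit 5) (.nd (nat_lit 6) 
(.lf (nat_lit 28570) (.g (nat_lit 2331) (.e (nat_lit 1199) (nat_lit 88) (.e (nat_lit 65628) (nat_lit 14) (.e (nat_lit 401459) (nat_lit 13) (.e (nat_lit 483411) (nat_lit 27) (.e (nat_lit 401420) (nat_lit 1) .nil))))) .nil)) 
(.lf (nat_lit 28634) (.g (nat_lit 2893) (.e (nat_lit 1199) (nat_lit 88) (.e (nat_lit 65629) (nat_lit 14) (.e (nat_lit 401459) (nat_lit 13) (.e (nat_lit 483397) (nat_lit 25) .nil)))) .nil))) (.nd (nat_lit 6) 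
(.lf (nat_lit 28602) (.g (nat_lit 2942) (.e (nat_lit 1199) (nat_lit 88) (.e (nat_lit 65629) (nat_lit 14) (.e (nat_lit 401459) (nat_lit 13) (.e (nat_lit 483350) (nat_lit 17) .nil)))) .nil)) 
(.lf (nat_lit 28666) (.g (nat_lit 3389) (.e (nat_lit 1199) (nat_lit 88) (.e (nat_lit 65630) (nat_lit 14) (.e (nat_lit 401435) (nat_lit 9) (.e (nat_lit 426555) (nat_lit 32) (.e (nat_lit 376859) (nat_lit 21) (.e (nat_lit 57872) (nat_lit 264) .nil)))))) (.g (nat_lit 5) .nil .nil))))))) (.nd (nat_lit 3) (.nd (nat_lit 4) (.nd (nat_lit 5) (.nd (nat_lit 6) 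
(.lf (nat_lit 28550) (.g (nat_lit 2532) (.e (nat_lit 1199) (nat_lit 88) (.e (nat_lit 65628) (nat_lit 14) (.e (nat_lit 401459) (nat_lit 13) (.e (nat_lit 483395) (nat_lit 24) (.e (nat_lit 344097) (nat_lit 18) (.e (nat_lit 5905) (nat_lit 320) .nil)))))) (.g (nat_lit 5) .nil .nil))) 
(.lf (nat_lit 28614) (.g (nat_lit 6416) (.e (nat_lit 1199) (nat_lit 88) (.e (nat_lit 65629) (nat_lit 14) (.e (nat_lit 401459) (nat_lit 13) (.e (nat_lit 483372) (nat_lit 21) (.e (nat_lit 319516) (nat_lit 11) .nil))))) .nil))) (.nd (nat_lit 6) 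
(.lf (nat_lit 28582) (.g (nat_lit 2787) (.e (nat_lit 1199) (nat_lit 88) (.e (nat_lit 65629) (nat_lit 14) (.e (nat_lit 401459) (nat_lit 13) (.e (nat_lit 483344) (nat_lit 17) (.e (nat_lit 6154) (nat_lit 332) .nil))))) .nil)) 
(.lf (nat_lit 28646) (.g (nat_lit 2173) (.e (nat_lit 1199) (nat_lit 88) (.e (nat_lit 65630) (nat_lit 14) (.e (nat_lit 401425) (nat_lit 2) (.e (nat_lit 196666) (nat_lit 13) (.e (nat_lit 65617) (nat_lit 10) (.e (nat_lit 344089) (nat_lit 18) (.e (nat_lit 3925) (nat_lit 239) .nil))))))) (.g (nat_lit 4) .nil .nil))))) (.nd (nat_lit 5) (.nd (nat_lit 6) 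
(.lf (nat_lit 28566) (.g (nat_lit 2687) (.e (nat_lit 1199) (nat_lit 88) (.e (nat_lit 65628) (nat_lit 14) (.e (nat_lit 401459) (nat_lit 13) (.e (nat_lit 483411) (nat_lit 27) (.e (nat_lit 401414) (nat_lit 0) (.e (nat_lit 2426) (nat_lit 157) (.e (nat_lit 4598) (nat_lit 269) .nil))))))) (.g (nat_lit 4) .nil .nil))) 
(.lf (nat_lit 28630) (.g (nat_lit 3695) (.e (nat_lit 1199) (nat_lit 88) (.e (nat_lit 65629) (nat_lit 14) (.e (nat_lit 401459) (nat_lit 13) (.e (nat_lit 483392) (nat_lit 23) (.e (nat_lit 335995) (nat_lit 1) (.e (nat_lit 57872) (nat_lit 264) .nil)))))) (.g (nat_lit 4) .nil .nil)))) (.nd (nat_lit 6) 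
(.lf (nat_lit 28598) (.g (nat_lit 2716) (.e (nat_lit 1199) (nat_lit 88) (.e (nat_lit 65629) (nat_lit 14) (.e (nat_lit 401459) (nat_lit 13) (.e (nat_lit 483344) (nat_lit 17) (.e (nat_lit 6712) (nat_lit 360) (.e (nat_lit 163849) (nat_lit 0) (.e (nat_lit 4598) (nat_lit 269) .nil))))))) (.g (nat_lit 4) .nil .nil))) 
(.lf (nat_lit 28662) (.g (nat_lit 3325) (.e (nat_lit 1199) (nat_lit 88) (.e (nat_lit 65630) (nat_lit 14) (.e (nat_lit 401435) (nat_lit 9) (.e (nat_lit 426555) (nat_lit 32) (.e (nat_lit 376857) (nat_lit 21) (.e (nat_lit 57870) (nat_lit 264) .nil)))))) (.g (nat_lit 5) .nil .nil)))))) (.nd (nat_lit 4) (.nd (nat_lit 5) (.nd (nat_lit 6) 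
(.lf (nat_lit 28558) (.g (nat_lit 1929) (.e (nat_lit 1199) (nat_lit 88) (.e (nat_lit 65628) (nat_lit 14) (.e (nat_lit 401459) (nat_lit 13) (.e (nat_lit 483399) (nat_lit 25) (.e (nat_lit 368662) (nat_lit 18) .nil))))) .nil)) 
(.lf (nat_lit 28622) (.g (nat_lit 2600) (.e (nat_lit 1199) (nat_lit 88) (.e (nat_lit 65629) (nat_lit 14) (.e (nat_lit 401459) (nat_lit 13) (.e (nat_lit 483380) (nat_lit 23) (.e (nat_lit 343808) (nat_lit 1) .nil))))) .nil))) (.nd (nat_lit 6) 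
(.lf (nat_lit 28590) (.g (nat_lit 2919) (.e (nat_lit 1199) (nat_lit 88) (.e (nat_lit 65629) (nat_lit 14) (.e (nat_lit 401459) (nat_lit 13) (.e (nat_lit 483344) (nat_lit 17) (.e (nat_lit 6513) (nat_lit 346) (.e (nat_lit 57354) (nat_lit 0) (.e (nat_lit 5906) (nat_lit 320) .nil))))))) (.g (nat_lit 4) .nil .nil))) 
(.lf (nat_lit 28654) (.g (nat_lit 2489) (.e (nat_lit 1199) (nat_lit 88) (.e (nat_lit 65630) (nat_lit 14) (.e (nat_lit 401428) (nat_lit 3) (.e (nat_lit 204868) (nat_lit 29) (.e (nat_lit 360456) (nat_lit 0) (.e (nat_lit 3962) (nat_lit 239) .nil)))))) (.g (nat_lit 4) .nil .nil))))) (.nd (nat_lit 5) (.nd (nat_lit 6) 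
(.lf (nat_lit 28574) (.g (nat_lit 2086) (.e (nat_lit 1199) (nat_lit 88) (.e (nat_lit 65629) (nat_lit 14) (.e (nat_lit 401459) (nat_lit 13) (.e (nat_lit 483343) (nat_lit 17) .nil)))) .nil)) 
(.lf (nat_lit 28638) (.g (nat_lit 2882) (.e (nat_lit 1199) (nat_lit 88) (.e (nat_lit 65629) (nat_lit 14) (.e (nat_lit 401459) (nat_lit 13) (.e (nat_lit 483399) (nat_lit 25) (.e (nat_lit 368662) (nat_lit 18) (.e (nat_lit 5906) (nat_lit 320) .nil)))))) (.g (nat_lit 4) .nil .nil)))) (.nd (nat_lit 6) 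
(.lf (nat_lit 28606) (.g (nat_lit 4497) (.e (nat_lit 1199) (nat_lit 88) (.e (nat_lit 65629) (nat_lit 14) (.e (nat_lit 401459) (nat_lit 13) (.e (nat_lit 483350) (nat_lit 17) (.e (nat_lit 7936) (nat_lit 343) (.e (nat_lit 1183) (nat_lit 87) (.e (nat_lit 57871) (nat_lit 264) .nil))))))) (.g (nat_lit 4) .nil .nil))) 
(.lf (nat_lit 28670) (.g (nat_lit 2894) (.e (nat_lit 1199) (nat_lit 88) (.e (nat_lit 65630) (nat_lit 14) (.e (nat_lit 401436) (nat_lit 9) (.e (nat_lit 426542) (nat_lit 29) (.e (nat_lit 352307) (nat_lit 21) (.e (nat_lit 57870) (nat_lit 264) .nil)))))) (.g (nat_lit 0) .nil .nil))))))))) (.nd (nat_lit 1) (.nd (nat_lit 2) (.nd (nat_lit 3) (.nd (nat_lit 4) (.nd (nat_lit 5) (.nd (nat_lit 6) 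
(.lf (nat_lit 28545) (.g (nat_lit 2233) (.e (nat_lit 1199) (nat_lit 88) (.e (nat_lit 65628) (nat_lit 14) (.e (nat_lit 401459) (nat_lit 13) (.e (nat_lit 483394) (nat_lit 24) (.e (nat_lit 344100) (nat_lit 18) (.e (nat_lit 5907) (nat_lit 320) .nil)))))) (.g (nat_lit 4) .nil .nil))) 
(.lf (nat_lit 28609) (.g (nat_lit 2525) (.e (nat_lit 1199) (nat_lit 88) (.e (nat_lit 65629) (nat_lit 14) (.e (nat_lit 401459) (nat_lit 13) (.e (nat_lit 483363) (nat_lit 18) .nil)))) .nil))) (.nd (nat_lit 6) 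
(.lf (nat_lit 28577) (.g (nat_lit 2500) (.e (nat_lit 1199) (nat_lit 88) (.e (nat_lit 65629) (nat_lit 14) (.e (nat_lit 401459) (nat_lit 13) (.e (nat_lit 483343) (nat_lit 17) (.e (nat_lit 6514) (nat_lit 346) (.e (nat_lit 57354) (nat_lit 0) (.e (nat_lit 5907) (nat_lit 320) .nil))))))) (.g (nat_lit 4) .nil .nil))) 
(.lf (nat_lit 28641) (.g (nat_lit 1794) (.e (nat_lit 1199) (nat_lit 88) (.e (nat_lit 65629) (nat_lit 14) (.e (nat_lit 401459) (nat_lit 13) (.e (nat_lit 483410) (nat_lit 27) .nil)))) .nil)))) (.nd (nat_lit 5) (.nd (nat_lit 6) 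
(.lf (nat_lit 28561) (.g (nat_lit 3255) (.e (nat_lit 1199) (nat_lit 88) (.e (nat_lit 65628) (nat_lit 14) (.e (nat_lit 401459) (nat_lit 13) (.e (nat_lit 483400) (nat_lit 25) (.e (nat_lit 368662) (nat_lit 18) (.e (nat_lit 5907) (nat_lit 320) .nil)))))) (.g (nat_lit 6) .nil .nil))) 
(.lf (nat_lit 28625) (.g (nat_lit 2779) (.e (nat_lit 1199) (nat_lit 88) (.e (nat_lit 65629) (nat_lit 14) (.e (nat_lit 401459) (nat_lit 13) (.e (nat_lit 483387) (nat_lit 23) (.e (nat_lit 335997) (nat_lit 1) .nil))))) .nil))) (.nd (nat_lit 6) 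
(.lf (nat_lit 28593) (.g (nat_lit 3344) (.e (nat_lit 1199) (nat_lit 88) (.e (nat_lit 65629) (nat_lit 14) (.e (nat_lit 401459) (nat_lit 13) (.e (nat_lit 483344) (nat_lit 17) (.e (nat_lit 6514) (nat_lit 346) (.e (nat_lit 57354) (nat_lit 0) (.e (nat_lit 5907) (nat_lit 320) .nil))))))) (.g (nat_lit 5) .nil .nil))) 
(.lf (nat_lit 28657) (.g (nat_lit 4318) (.e (nat_lit 1199) (nat_lit 88) (.e (nat_lit 65630) (nat_lit 14) (.e (nat_lit 401428) (nat_lit 3) (.e (nat_lit 204869) (nat_lit 29) (.e (nat_lit 360456) (nat_lit 0) (.e (nat_lit 3962) (nat_lit 239) .nil)))))) (.g (nat_lit 5) .nil .nil)))))) (.nd (nat_lit 4) (.nd (nat_lit 5) (.nd (nat_lit 6) 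
(.lf (nat_lit 28553) (.g (nat_lit 2898) (.e (nat_lit 1199) (nat_lit 88) (.e (nat_lit 65628) (nat_lit 14) (.e (nat_lit 401459) (nat_lit 13) (.e (nat_lit 483396) (nat_lit 24) (.e (nat_lit 344097) (nat_lit 18) .nil))))) .nil)) 
(.lf (nat_lit 28617) (.g (nat_lit 3772) (.e (nat_lit 1199) (nat_lit 88) (.e (nat_lit 65629) (nat_lit 14) (.e (nat_lit 401459) (nat_lit 13) (.e (nat_lit 483375) (nat_lit 22) (.e (nat_lit 327692) (nat_lit 1) (.e (nat_lit 8439) (nat_lit 138) .nil)))))) (.g (nat_lit 5) .nil .nil)))) (.nd (nat_lit 6) 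
(.lf (nat_lit 28585) (.g (nat_lit 2769) (.e (nat_lit 1199) (nat_lit 88) (.e (nat_lit 65629) (nat_lit 14) (.e (nat_lit 401459) (nat_lit 13) (.e (nat_lit 483344) (nat_lit 17) (.e (nat_lit 6434) (nat_lit 343) .nil))))) .nil)) 
(.lf (nat_lit 28649) (.g (nat_lit 2317) (.e (nat_lit 1199) (nat_lit 88) (.e (nat_lit 65630) (nat_lit 14) (.e (nat_lit 401425) (nat_lit 2) (.e (nat_lit 196674) (nat_lit 15) .nil)))) .nil)))) (.nd (nat_lit 5) (.nd (nat_lit 6) 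
(.lf (nat_lit 28569) (.g (nat_lit 2787) (.e (nat_lit 1199) (nat_lit 88) (.e (nat_lit 65628) (nat_lit 14) (.e (nat_lit 401459) (nat_lit 13) (.e (nat_lit 483411) (nat_lit 27) (.e (nat_lit 401418) (nat_lit 0) .nil))))) .nil)) 
(.lf (nat_lit 28633) (.g (nat_lit 3073) (.e (nat_lit 1199) (nat_lit 88) (.e (nat_lit 65629) (nat_lit 14) (.e (nat_lit 401459) (nat_lit 13) (.e (nat_lit 483393) (nat_lit 23) (.e (nat_lit 335996) (nat_lit 1) .nil))))) .nil))) (.nd (nat_lit 6) 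
(.lf (nat_lit 28601) (.g (nat_lit 2472) (.e (nat_lit 1199) (nat_lit 88) (.e (nat_lit 65629) (nat_lit 14) (.e (nat_lit 401459) (nat_lit 13) (.e (nat_lit 483347) (nat_lit 17) .nil)))) .nil)) 
(.lf (nat_lit 28665) (.g (nat_lit 3273) (.e (nat_lit 1199) (nat_lit 88) (.e (nat_lit 65630) (nat_lit 14) (.e (nat_lit 401435) (nat_lit 9) (.e (nat_lit 426555) (nat_lit 32) (.e (nat_lit 376859) (nat_lit 21) (.e (nat_lit 57870) (nat_lit 264) .nil)))))) (.g (nat_lit 5) .nil .nil))))))) (.nd (nat_lit 3) (.nd (nat_lit 4) (.nd (nat_lit 5) (.nd (nat_lit 6) 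
(.lf (nat_lit 28549) (.g (nat_lit 2050) (.e (nat_lit 1199) (nat_lit 88) (.e (nat_lit 65628) (nat_lit 14) (.e (nat_lit 401459) (nat_lit 13) (.e (nat_lit 483395) (nat_lit 24) (.e (nat_lit 344096) (nat_lit 18) (.e (nat_lit 5896) (nat_lit 320) .nil)))))) (.g (nat_lit 4) .nil .nil))) 
(.lf (nat_lit 28613) (.g (nat_lit 5146) (.e (nat_lit 1199) (nat_lit 88) (.e (nat_lit 65629) (nat_lit 14) (.e (nat_lit 401459) (nat_lit 13) (.e (nat_lit 483372) (nat_lit 21) (.e (nat_lit 327424) (nat_lit 1) .nil))))) .nil))) (.nd (nat_lit 6) 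
(.lf (nat_lit 28581) (.g (nat_lit 2823) (.e (nat_lit 1199) (nat_lit 88) (.e (nat_lit 65629) (nat_lit 14) (.e (nat_lit 401459) (nat_lit 13) (.e (nat_lit 483344) (nat_lit 17) (.e (nat_lit 6152) (nat_lit 332) (.e (nat_lit 2546) (nat_lit 158) (.e (nat_lit 8439) (nat_lit 138) .nil))))))) (.g (nat_lit 4) .nil .nil))) 
(.lf (nat_lit 28645) (.g (nat_lit 1924) (.e (nat_lit 1199) (nat_lit 88) (.e (nat_lit 65630) (nat_lit 14) (.e (nat_lit 401425) (nat_lit 2) (.e (nat_lit 196666) (nat_lit 13) (.e (nat_lit 65617) (nat_lit 10) .nil))))) .nil)))) (.nd (nat_lit 5) (.nd (nat_lit 6) 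
(.lf (nat_lit 28565) (.g (nat_lit 2492) (.e (nat_lit 1199) (nat_lit 88) (.e (nat_lit 65628) (nat_lit 14) (.e (nat_lit 401459) (nat_lit 13) (.e (nat_lit 483411) (nat_lit 27) (.e (nat_lit 401414) (nat_lit 0) (.e (nat_lit 2422) (nat_lit 157) (.e (nat_lit 4598) (nat_lit 269) .nil))))))) (.g (nat_lit 4) .nil .nil))) 
(.lf (nat_lit 28629) (.g (nat_lit 3114) (.e (nat_lit 1199) (nat_lit 88) (.e (nat_lit 65629) (nat_lit 14) (.e (nat_lit 401459) (nat_lit 13) (.e (nat_lit 483392) (nat_lit 23) .nil)))) .nil))) (.nd (nat_lit 6) 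
(.lf (nat_lit 28597) (.g (nat_lit 2952) (.e (nat_lit 1199) (nat_lit 88) (.e (nat_lit 65629) (nat_lit 14) (.e (nat_lit 401459) (nat_lit 13) (.e (nat_lit 483344) (nat_lit 17) (.e (nat_lit 6712) (nat_lit 360) (.e (nat_lit 163844) (nat_lit 0) (.e (nat_lit 4598) (nat_lit 269) .nil))))))) (.g (nat_lit 4) .nil .nil))) 
(.lf (nat_lit 28661) (.g (nat_lit 2158) (.e (nat_lit 1199) (nat_lit 88) (.e (nat_lit 65630) (nat_lit 14) (.e (nat_lit 401435) (nat_lit 9) (.e (nat_lit 426546) (nat_lit 30) (.e (nat_lit 360452) (nat_lit 0) (.e (nat_lit 5907) (nat_lit 320) .nil)))))) (.g (nat_lit 4) .nil .nil)))))) (.nd (nat_lit 4) (.nd (nat_lit 5) (.nd (nat_lit 6) 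
(.lf (nat_lit 28557) (.g (nat_lit 1459) (.e (nat_lit 1199) (nat_lit 88) (.e (nat_lit 65628) (nat_lit 14) (.e (nat_lit 401459) (nat_lit 13) (.e (nat_lit 483399) (nat_lit 25) .nil)))) .nil)) 
(.lf (nat_lit 28621) (.g (nat_lit 1995) (.e (nat_lit 1199) (nat_lit 88) (.e (nat_lit 65629) (nat_lit 14) (.e (nat_lit 401459) (nat_lit 13) (.e (nat_lit 483380) (nat_lit 23) .nil)))) .nil))) (.nd (nat_lit 6) 
(.lf (nat_lit 28589) (.g (nat_lit 2734) (.e (nat_lit 1199) (nat_lit 88) (.e (nat_lit 65629) (nat_lit 14) (.e (nat_lit 401459) (nat_lit 13) (.e (nat_lit 483344) (nat_lit 17) (.e (nat_lit 6513) (nat_lit 346) .nil))))) .nil)) 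
(.lf (nat_lit 28653) (.g (nat_lit 3332) (.e (nat_lit 1199) (nat_lit 88) (.e (nat_lit 65630) (nat_lit 14) (.e (nat_lit 401428) (nat_lit 3) (.e (nat_lit 204866) (nat_lit 28) (.e (nat_lit 352318) (nat_lit 24) (.e (nat_lit 123040) (nat_lit 140) .nil)))))) (.g (nat_lit 5) .nil .nil))))) (.nd (nat_lit 5) (.nd (nat_lit 6) 
(.lf (nat_lit 28573) (.g (nat_lit 500) (.e (nat_lit 1199) (nat_lit 88) (.e (nat_lit 65629) (nat_lit 14) (.e (nat_lit 401459) (nat_lit 13) .nil))) .nil)) 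
(.lf (nat_lit 28637) (.g (nat_lit 2255) (.e (nat_lit 1199) (nat_lit 88) (.e (nat_lit 65629) (nat_lit 14) (.e (nat_lit 401459) (nat_lit 13) (.e (nat_lit 483399) (nat_lit 25) .nil)))) .nil))) (.nd (nat_lit 6) 
(.lf (nat_lit 28605) (.g (nat_lit 4311) (.e (nat_lit 1199) (nat_lit 88) (.e (nat_lit 65629) (nat_lit 14) (.e (nat_lit 401459) (nat_lit 13) (.e (nat_lit 483350) (nat_lit 17) (.e (nat_lit 7936) (nat_lit 343) .nil))))) .nil)) 
(.lf (nat_lit 28669) (.g (nat_lit 416) (.e (nat_lit 1199) (nat_lit 88) (.e (nat_lit 65630) (nat_lit 14) (.e (nat_lit 401436) (nat_lit 9) .nil))) .nil))))))) (.nd (nat_lit 2) (.nd (nat_lit 3) (.nd (nat_lit 4) (.nd (nat_lit 5) (.nd (nat_lit 6) 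
(.lf (nat_lit 28547) (.g (nat_lit 1735) (.e (nat_lit 1199) (nat_lit 88) (.e (nat_lit 65628) (nat_lit 14) (.e (nat_lit 401459) (nat_lit 13) (.e (nat_lit 483395) (nat_lit 24) (.e (nat_lit 344088) (nat_lit 18) (.e (nat_lit 5896) (nat_lit 320) .nil)))))) (.g (nat_lit 4) .nil .nil))) 
(.lf (nat_lit 28611) (.g (nat_lit 3330) (.e (nat_lit 1199) (nat_lit 88) (.e (nat_lit 65629) (nat_lit 14) (.e (nat_lit 401459) (nat_lit 13) (.e (nat_lit 483364) (nat_lit 18) (.e (nat_lit 65280) (nat_lit 217) (.e (nat_lit 57367) (nat_lit 1) (.e (nat_lit 57870) (nat_lit 264) .nil))))))) (.g (nat_lit 4) .nil .nil)))) (.nd (nat_lit 6) 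
(.lf (nat_lit 28579) (.g (nat_lit 2804) (.e (nat_lit 1199) (nat_lit 88) (.e (nat_lit 65629) (nat_lit 14) (.e (nat_lit 401459) (nat_lit 13) (.e (nat_lit 483344) (nat_lit 17) (.e (nat_lit 6152) (nat_lit 332) .nil))))) .nil)) 
(.lf (nat_lit 28643) (.g (nat_lit 3529) (.e (nat_lit 1199) (nat_lit 88) (.e (nat_lit 65629) (nat_lit 14) (.e (nat_lit 401459) (nat_lit 13) (.e (nat_lit 483411) (nat_lit 27) (.e (nat_lit 401422) (nat_lit 1) .nil))))) .nil)))) (.nd (nat_lit 5) (.nd (nat_lit 6) 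
(.lf (nat_lit 28563) (.g (nat_lit 2469) (.e (nat_lit 1199) (nat_lit 88) (.e (nat_lit 65628) (nat_lit 14) (.e (nat_lit 401459) (nat_lit 13) (.e (nat_lit 483411) (nat_lit 27) (.e (nat_lit 401408) (nat_lit 0) (.e (nat_lit 2427) (nat_lit 157) (.e (nat_lit 4598) (nat_lit 269) .nil))))))) (.g (nat_lit 4) .nil .nil))) 
(.lf (nat_lit 28627) (.g (nat_lit 2791) (.e (nat_lit 1199) (nat_lit 88) (.e (nat_lit 65629) (nat_lit 14) (.e (nat_lit 401459) (nat_lit 13) (.e (nat_lit 483391) (nat_lit 23) .nil)))) .nil))) (.nd (nat_lit 6) 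
(.lf (nat_lit 28595) (.g (nat_lit 2707) (.e (nat_lit 1199) (nat_lit 88) (.e (nat_lit 65629) (nat_lit 14) (.e (nat_lit 401459) (nat_lit 13) (.e (nat_lit 483344) (nat_lit 17) (.e (nat_lit 6522) (nat_lit 349) .nil))))) .nil)) 
(.lf (nat_lit 28659) (.g (nat_lit 594) (.e (nat_lit 1199) (nat_lit 88) (.e (nat_lit 65630) (nat_lit 14) (.e (nat_lit 401435) (nat_lit 9) .nil))) .nil))))) (.nd (nat_lit 4) (.nd (nat_lit 5) (.nd (nat_lit 6) 
(.lf (nat_lit 28555) (.g (nat_lit 2373) (.e (nat_lit 1199) (nat_lit 88) (.e (nat_lit 65628) (nat_lit 14) (.e (nat_lit 401459) (nat_lit 13) (.e (nat_lit 483397) (nat_lit 25) .nil)))) .nil)) 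
(.lf (nat_lit 28619) (.g (nat_lit 2673) (.e (nat_lit 1199) (nat_lit 88) (.e (nat_lit 65629) (nat_lit 14) (.e (nat_lit 401459) (nat_lit 13) (.e (nat_lit 483378) (nat_lit 23) (.e (nat_lit 335997) (nat_lit 1) (.e (nat_lit 57871) (nat_lit 264) .nil)))))) (.g (nat_lit 4) .nil .nil)))) (.nd (nat_lit 6) 
(.lf (nat_lit 28587) (.g (nat_lit 3170) (.e (nat_lit 1199) (nat_lit 88) (.e (nat_lit 65629) (nat_lit 14) (.e (nat_lit 401459) (nat_lit 13) (.e (nat_lit 483344) (nat_lit 17) (.e (nat_lit 6444) (nat_lit 343) (.e (nat_lit 1181) (nat_lit 87) (.e (nat_lit 57872) (nat_lit 264) .nil))))))) (.g (nat_lit 4) .nil .nil))) 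
(.lf (nat_lit 28651) (.g (nat_lit 541) (.e (nat_lit 1199) (nat_lit 88) (.e (nat_lit 65630) (nat_lit 14) (.e (nat_lit 401428) (nat_lit 3) .nil))) .nil)))) (.nd (nat_lit 5) (.nd (nat_lit 6) 
(.lf (nat_lit 28571) (.g (nat_lit 2595) (.e (nat_lit 1199) (nat_lit 88) (.e (nat_lit 65628) (nat_lit 14) (.e (nat_lit 401459) (nat_lit 13) (.e (nat_lit 483411) (nat_lit 27) (.e (nat_lit 401421) (nat_lit 1) .nil))))) .nil)) 
(.lf (nat_lit 28635) (.g (nat_lit 2126) (.e (nat_lit 1199) (nat_lit 88) (.e (nat_lit 65629) (nat_lit 14) (.e (nat_lit 401459) (nat_lit 13) (.e (nat_lit 483398) (nat_lit 25) .nil)))) .nil))) (.nd (nat_lit 6) 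
(.lf (nat_lit 28603) (.g (nat_lit 4115) (.e (nat_lit 1199) (nat_lit 88) (.e (nat_lit 65629) (nat_lit 14) (.e (nat_lit 401459) (nat_lit 13) (.e (nat_lit 483350) (nat_lit 17) (.e (nat_lit 6113) (nat_lit 332) .nil))))) .nil)) 
(.lf (nat_lit 28667) (.g (nat_lit 3542) (.e (nat_lit 1199) (nat_lit 88) (.e (nat_lit 65630) (nat_lit 14) (.e (nat_lit 401435) (nat_lit 9) (.e (nat_lit 426555) (nat_lit 32) (.e (nat_lit 376859) (nat_lit 21) (.e (nat_lit 57873) (nat_lit 264) .nil)))))) (.g (nat_lit 6) .nil .nil))))))) (.nd (nat_lit 3) (.nd (nat_lit 4) (.nd (nat_lit 5) (.nd (nat_lit 6) 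
(.lf (nat_lit 28551) (.g (nat_lit 2958) (.e (nat_lit 1199) (nat_lit 88) (.e (nat_lit 65628) (nat_lit 14) (.e (nat_lit 401459) (nat_lit 13) (.e (nat_lit 483395) (nat_lit 24) (.e (nat_lit 344097) (nat_lit 18) (.e (nat_lit 5906) (nat_lit 320) .nil)))))) (.g (nat_lit 6) .nil .nil))) 
(.lf (nat_lit 28615) (.g (nat_lit 2416) (.e (nat_lit 1199) (nat_lit 88) (.e (nat_lit 65629) (nat_lit 14) (.e (nat_lit 401459) (nat_lit 13) (.e (nat_lit 483374) (nat_lit 22) .nil)))) .nil))) (.nd (nat_lit 6) 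
(.lf (nat_lit 28583) (.g (nat_lit 2814) (.e (nat_lit 1199) (nat_lit 88) (.e (nat_lit 65629) (nat_lit 14) (.e (nat_lit 401459) (nat_lit 13) (.e (nat_lit 483344) (nat_lit 17) (.e (nat_lit 6155) (nat_lit 332) .nil))))) .nil)) 
(.lf (nat_lit 28647) (.g (nat_lit 2239) (.e (nat_lit 1199) (nat_lit 88) (.e (nat_lit 65630) (nat_lit 14) (.e (nat_lit 401425) (nat_lit 2) (.e (nat_lit 196666) (nat_lit 13) (.e (nat_lit 65617) (nat_lit 10) (.e (nat_lit 344089) (nat_lit 18) (.e (nat_lit 3972) (nat_lit 239) .nil))))))) (.g (nat_lit 4) .nil .nil))))) (.nd (nat_lit 5) (.nd (nat_lit 6) 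
(.lf (nat_lit 28567) (.g (nat_lit 2895) (.e (nat_lit 1199) (nat_lit 88) (.e (nat_lit 65628) (nat_lit 14) (.e (nat_lit 401459) (nat_lit 13) (.e (nat_lit 483411) (nat_lit 27) (.e (nat_lit 401416) (nat_lit 0) .nil))))) .nil)) 
(.lf (nat_lit 28631) (.g (nat_lit 2609) (.e (nat_lit 1199) (nat_lit 88) (.e (nat_lit 65629) (nat_lit 14) (.e (nat_lit 401459) (nat_lit 13) (.e (nat_lit 483393) (nat_lit 23) .nil)))) .nil))) (.nd (nat_lit 6) 
(.lf (nat_lit 28599) (.g (nat_lit 2655) (.e (nat_lit 1199) (nat_lit 88) (.e (nat_lit 65629) (nat_lit 14) (.e (nat_lit 401459) (nat_lit 13) (.e (nat_lit 483344) (nat_lit 17) (.e (nat_lit 6714) (nat_lit 360) .nil))))) .nil)) 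
(.lf (nat_lit 28663) (.g (nat_lit 3241) (.e (nat_lit 1199) (nat_lit 88) (.e (nat_lit 65630) (nat_lit 14) (.e (nat_lit 401435) (nat_lit 9) (.e (nat_lit 426555) (nat_lit 32) (.e (nat_lit 376857) (nat_lit 21) (.e (nat_lit 57872) (nat_lit 264) .nil)))))) (.g (nat_lit 5) .nil .nil)))))) (.nd (nat_lit 4) (.nd (nat_lit 5) (.nd (nat_lit 6) 
(.lf (nat_lit 28559) (.g (nat_lit 3252) (.e (nat_lit 1199) (nat_lit 88) (.e (nat_lit 65628) (nat_lit 14) (.e (nat_lit 401459) (nat_lit 13) (.e (nat_lit 483399) (nat_lit 25) (.e (nat_lit 368662) (nat_lit 18) (.e (nat_lit 5906) (nat_lit 320) .nil)))))) (.g (nat_lit 6) .nil .nil))) 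
(.lf (nat_lit 28623) (.g (nat_lit 2005) (.e (nat_lit 1199) (nat_lit 88) (.e (nat_lit 65629) (nat_lit 14) (.e (nat_lit 401459) (nat_lit 13) (.e (nat_lit 483381) (nat_lit 23) .nil)))) .nil))) (.nd (nat_lit 6) 
(.lf (nat_lit 28591) (.g (nat_lit 2944) (.e (nat_lit 1199) (nat_lit 88) (.e (nat_lit 65629) (nat_lit 14) (.e (nat_lit 401459) (nat_lit 13) (.e (nat_lit 483344) (nat_lit 17) (.e (nat_lit 6514) (nat_lit 346) (.e (nat_lit 57354) (nat_lit 0) (.e (nat_lit 5905) (nat_lit 320) .nil))))))) (.g (nat_lit 4) .nil .nil))) 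
(.lf (nat_lit 28655) (.g (nat_lit 2827) (.e (nat_lit 1199) (nat_lit 88) (.e (nat_lit 65630) (nat_lit 14) (.e (nat_lit 401428) (nat_lit 3) (.e (nat_lit 204869) (nat_lit 29) (.e (nat_lit 360448) (nat_lit 0) (.e (nat_lit 3925) (nat_lit 239) .nil)))))) (.g (nat_lit 4) .nil .nil))))) (.nd (nat_lit 5) (.nd (nat_lit 6) 
(.lf (nat_lit 28575) (.g (nat_lit 2361) (.e (nat_lit 1199) (nat_lit 88) (.e (nat_lit 65629) (nat_lit 14) (.e (nat_lit 401459) (nat_lit 13) (.e (nat_lit 483343) (nat_lit 17) (.e (nat_lit 6514) (nat_lit 346) .nil))))) .nil)) 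
(.lf (nat_lit 28639) (.g (nat_lit 2880) (.e (nat_lit 1199) (nat_lit 88) (.e (nat_lit 65629) (nat_lit 14) (.e (nat_lit 401459) (nat_lit 13) (.e (nat_lit 483399) (nat_lit 25) (.e (nat_lit 368662) (nat_lit 18) (.e (nat_lit 5907) (nat_lit 320) .nil)))))) (.g (nat_lit 4) .nil .nil)))) (.nd (nat_lit 6) 
(.lf (nat_lit 28607) (.g (nat_lit 4311) (.e (nat_lit 1199) (nat_lit 88) (.e (nat_lit 65629) (nat_lit 14) (.e (nat_lit 401459) (nat_lit 13) (.e (nat_lit 483350) (nat_lit 17) (.e (nat_lit 7936) (nat_lit 346) .nil))))) .nil)) 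
(.lf (nat_lit 28671) (.g (nat_lit 3168) (.e (nat_lit 1199) (nat_lit 88) (.e (nat_lit 65630) (nat_lit 14) (.e (nat_lit 401436) (nat_lit 9) (.e (nat_lit 426542) (nat_lit 29) (.e (nat_lit 352307) (nat_lit 21) (.e (nat_lit 57871) (nat_lit 264) .nil)))))) (.g (nat_lit 0) .nil .nil))))))))))

noncomputable def tv396 : DT := (.nd (nat_lit 0) (.nd (nat_lit 1) (.nd (nat_lit 2) (.nd (nat_lit 3) (.nd (nat_lit 4) (.nd (nat_lit 5) 
(.lf (nat_lit 28672) (.g (nat_lit 3132) (.e (nat_lit 1199) (nat_lit 88) (.e (nat_lit 65630) (nat_lit 14) (.e (nat_lit 401436) (nat_lit 9) (.e (nat_lit 426542) (nat_lit 29) (.e (nat_lit 352307) (nat_lit 21) (.e (nat_lit 57872) (nat_lit 264) .nil)))))) (.g (nat_lit 0) .nil .nil))) 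
(.lf (nat_lit 28704) (.g (nat_lit 3211) (.e (nat_lit 1199) (nat_lit 88) (.e (nat_lit 65630) (nat_lit 14) (.e (nat_lit 401437) (nat_lit 9) (.e (nat_lit 426542) (nat_lit 29) (.e (nat_lit 352309) (nat_lit 21) (.e (nat_lit 57871) (nat_lit 264) .nil)))))) (.g (nat_lit 6) .nil .nil)))) (.nd (nat_lit 5) 
(.lf (nat_lit 28688) (.g (nat_lit 2775) (.e (nat_lit 1199) (nat_lit 88) (.e (nat_lit 65630) (nat_lit 14) (.e (nat_lit 401437) (nat_lit 9) (.e (nat_lit 426482) (nat_lit 27) (.e (nat_lit 336140) (nat_lit 9) (.e (nat_lit 335995) (nat_lit 1) (.e (nat_lit 57872) (nat_lit 264) .nil))))))) (.g (nat_lit 4) .nil .nil))) 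
(.lf (nat_lit 28720) (.g (nat_lit 3450) (.e (nat_lit 1199) (nat_lit 88) (.e (nat_lit 65630) (nat_lit 14) (.e (nat_lit 401438) (nat_lit 9) (.e (nat_lit 426542) (nat_lit 29) (.e (nat_lit 352307) (nat_lit 21) (.e (nat_lit 57871) (nat_lit 264) .nil)))))) (.g (nat_lit 0) .nil .nil))))) (.nd (nat_lit 4) (.nd (nat_lit 5) 
(.lf (nat_lit 28680) (.g (nat_lit 3314) (.e (nat_lit 1199) (nat_lit 88) (.e (nat_lit 65630) (nat_lit 14) (.e (nat_lit 401436) (nat_lit 9) (.e (nat_lit 426555) (nat_lit 32) (.e (nat_lit 376857) (nat_lit 21) (.e (nat_lit 57872) (nat_lit 264) .nil)))))) (.g (nat_lit 6) .nil .nil))) 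
(.lf (nat_lit 28712) (.g (nat_lit 3539) (.e (nat_lit 1199) (nat_lit 88) (.e (nat_lit 65630) (nat_lit 14) (.e (nat_lit 401437) (nat_lit 9) (.e (nat_lit 426555) (nat_lit 32) (.e (nat_lit 376857) (nat_lit 21) (.e (nat_lit 57872) (nat_lit 264) .nil)))))) (.g (nat_lit 0) .nil .nil)))) (.nd (nat_lit 5) 
(.lf (nat_lit 28696) (.g (nat_lit 1408) (.e (nat_lit 1199) (nat_lit 88) (.e (nat_lit 65630) (nat_lit 14) (.e (nat_lit 401437) (nat_lit 9) (.e (nat_lit 426509) (nat_lit 27) (.e (nat_lit 336110) (nat_lit 9) .nil))))) .nil)) 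
(.lf (nat_lit 28728) (.g (nat_lit 3687) (.e (nat_lit 1199) (nat_lit 88) (.e (nat_lit 65630) (nat_lit 14) (.e (nat_lit 401438) (nat_lit 9) (.e (nat_lit 426555) (nat_lit 32) (.e (nat_lit 376857) (nat_lit 21) (.e (nat_lit 57870) (nat_lit 264) .nil)))))) (.g (nat_lit 6) .nil .nil)))))) (.nd (nat_lit 3) (.nd (nat_lit 4) (.nd (nat_lit 5) 
(.lf (nat_lit 28676) (.g (nat_lit 1008) (.e (nat_lit 1199) (nat_lit 88) (.e (nat_lit 65630) (nat_lit 14) (.e (nat_lit 401436) (nat_lit 9) (.e (nat_lit 426544) (nat_lit 30) .nil)))) .nil)) 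
(.lf (nat_lit 28708) (.g (nat_lit 1881) (.e (nat_lit 1199) (nat_lit 88) (.e (nat_lit 65630) (nat_lit 14) (.e (nat_lit 401437) (nat_lit 9) (.e (nat_lit 426544) (nat_lit 30) (.e (nat_lit 368384) (nat_lit 0) (.e (nat_lit 5905) (nat_lit 320) .nil)))))) (.g (nat_lit 4) .nil .nil)))) (.nd (nat_lit 5) 
(.lf (nat_lit 28692) (.g (nat_lit 2656) (.e (nat_lit 1199) (nat_lit 88) (.e (nat_lit 65630) (nat_lit 14) (.e (nat_lit 401437) (nat_lit 9) (.e (nat_lit 426487) (nat_lit 27) (.e (nat_lit 336157) (nat_lit 9) (.e (nat_lit 335995) (nat_lit 1) (.e (nat_lit 57872) (nat_lit 264) .nil))))))) (.g (nat_lit 4) .nil .nil))) 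
(.lf (nat_lit 28724) (.g (nat_lit 3455) (.e (nat_lit 1199) (nat_lit 88) (.e (nat_lit 65630) (nat_lit 14) (.e (nat_lit 401438) (nat_lit 9) (.e (nat_lit 426542) (nat_lit 29) (.e (nat_lit 352309) (nat_lit 21) (.e (nat_lit 57872) (nat_lit 264) .nil)))))) (.g (nat_lit 0) .nil .nil))))) (.nd (nat_lit 4) (.nd (nat_lit 5) 
(.lf (nat_lit 28684) (.g (nat_lit 3260) (.e (nat_lit 1199) (nat_lit 88) (.e (nat_lit 65630) (nat_lit 14) (.e (nat_lit 401436) (nat_lit 9) (.e (nat_lit 426555) (nat_lit 32) (.e (nat_lit 376860) (nat_lit 21) (.e (nat_lit 57870) (nat_lit 264) .nil)))))) (.g (nat_lit 6) .nil .nil))) 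
(.lf (nat_lit 28716) (.g (nat_lit 3734) (.e (nat_lit 1199) (nat_lit 88) (.e (nat_lit 65630) (nat_lit 14) (.e (nat_lit 401437) (nat_lit 9) (.e (nat_lit 426555) (nat_lit 32) (.e (nat_lit 376859) (nat_lit 21) (.e (nat_lit 57873) (nat_lit 264) .nil)))))) (.g (nat_lit 0) .nil .nil)))) (.nd (nat_lit 5) 
(.lf (nat_lit 28700) (.g (nat_lit 3355) (.e (nat_lit 1199) (nat_lit 88) (.e (nat_lit 65630) (nat_lit 14) (.e (nat_lit 401437) (nat_lit 9) (.e (nat_lit 426542) (nat_lit 29) (.e (nat_lit 352307) (nat_lit 21) (.e (nat_lit 57870) (nat_lit 264) .nil)))))) (.g (nat_lit 0) .nil .nil))) 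
(.lf (nat_lit 28732) (.g (nat_lit 2408) (.e (nat_lit 1199) (nat_lit 88) (.e (nat_lit 65630) (nat_lit 14) (.e (nat_lit 401438) (nat_lit 9) (.e (nat_lit 426555) (nat_lit 32) (.e (nat_lit 376859) (nat_lit 21) (.e (nat_lit 57871) (nat_lit 264) .nil)))))) (.g (nat_lit 4) .nil .nil))))))) (.nd (nat_lit 2) (.nd (nat_lit 3) (.nd (nat_lit 4) (.nd (nat_lit 5) 
(.lf (nat_lit 28674) (.g (nat_lit 2758) (.e (nat_lit 1199) (nat_lit 88) (.e (nat_lit 65630) (nat_lit 14) (.e (nat_lit 401436) (nat_lit 9) (.e (nat_lit 426542) (nat_lit 29) (.e (nat_lit 352309) (nat_lit 21) (.e (nat_lit 57871) (nat_lit 264) .nil)))))) (.g (nat_lit 6) .nil .nil))) 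
(.lf (nat_lit 28706) (.g (nat_lit 2310) (.e (nat_lit 1199) (nat_lit 88) (.e (nat_lit 65630) (nat_lit 14) (.e (nat_lit 401437) (nat_lit 9) (.e (nat_lit 426544) (nat_lit 30) (.e (nat_lit 360449) (nat_lit 0) (.e (nat_lit 5896) (nat_lit 320) .nil)))))) (.g (nat_lit 4) .nil .nil)))) (.nd (nat_lit 5) 
(.lf (nat_lit 28690) (.g (nat_lit 2030) (.e (nat_lit 1199) (nat_lit 88) (.e (nat_lit 65630) (nat_lit 14) (.e (nat_lit 401437) (nat_lit 9) (.e (nat_lit 426486) (nat_lit 27) .nil)))) .nil)) 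
(.lf (nat_lit 28722) (.g (nat_lit 3125) (.e (nat_lit 1199) (nat_lit 88) (.e (nat_lit 65630) (nat_lit 14) (.e (nat_lit 401438) (nat_lit 9) (.e (nat_lit 426542) (nat_lit 29) (.e (nat_lit 352309) (nat_lit 21) (.e (nat_lit 57870) (nat_lit 264) .nil)))))) (.g (nat_lit 0) .nil .nil))))) (.nd (nat_lit 4) (.nd (nat_lit 5) 
(.lf (nat_lit 28682) (.g (nat_lit 2064) (.e (nat_lit 1199) (nat_lit 88) (.e (nat_lit 65630) (nat_lit 14) (.e (nat_lit 401436) (nat_lit 9) (.e (nat_lit 426555) (nat_lit 32) (.e (nat_lit 376859) (nat_lit 21) (.e (nat_lit 57871) (nat_lit 264) .nil)))))) (.g (nat_lit 4) .nil .nil))) 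
(.lf (nat_lit 28714) (.g (nat_lit 2318) (.e (nat_lit 1199) (nat_lit 88) (.e (nat_lit 65630) (nat_lit 14) (.e (nat_lit 401437) (nat_lit 9) (.e (nat_lit 426555) (nat_lit 32) (.e (nat_lit 376859) (nat_lit 21) (.e (nat_lit 57871) (nat_lit 264) .nil)))))) (.g (nat_lit 4) .nil .nil)))) (.nd (nat_lit 5) 
(.lf (nat_lit 28698) (.g (nat_lit 1383) (.e (nat_lit 1199) (nat_lit 88) (.e (nat_lit 65630) (nat_lit 14) (.e (nat_lit 401437) (nat_lit 9) (.e (nat_lit 426533) (nat_lit 28) (.e (nat_lit 344074) (nat_lit 13) .nil))))) .nil)) 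
(.lf (nat_lit 28730) (.g (nat_lit 3769) (.e (nat_lit 1199) (nat_lit 88) (.e (nat_lit 65630) (nat_lit 14) (.e (nat_lit 401438) (nat_lit 9) (.e (nat_lit 426555) (nat_lit 32) (.e (nat_lit 376857) (nat_lit 21) (.e (nat_lit 57873) (nat_lit 264) .nil)))))) (.g (nat_lit 6) .nil .nil)))))) (.nd (nat_lit 3) (.nd (nat_lit 4) (.nd (nat_lit 5) 
(.lf (nat_lit 28678) (.g (nat_lit 3072) (.e (nat_lit 1199) (nat_lit 88) (.e (nat_lit 65630) (nat_lit 14) (.e (nat_lit 401436) (nat_lit 9) (.e (nat_lit 426546) (nat_lit 30) (.e (nat_lit 360452) (nat_lit 0) (.e (nat_lit 5907) (nat_lit 320) .nil)))))) (.g (nat_lit 0) .nil .nil))) 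
(.lf (nat_lit 28710) (.g (nat_lit 3093) (.e (nat_lit 1199) (nat_lit 88) (.e (nat_lit 65630) (nat_lit 14) (.e (nat_lit 401437) (nat_lit 9) (.e (nat_lit 426546) (nat_lit 30) (.e (nat_lit 360452) (nat_lit 0) (.e (nat_lit 5905) (nat_lit 320) .nil)))))) (.g (nat_lit 6) .nil .nil)))) (.nd (nat_lit 5) 
(.lf (nat_lit 28694) (.g (nat_lit 2030) (.e (nat_lit 1199) (nat_lit 88) (.e (nat_lit 65630) (nat_lit 14) (.e (nat_lit 401437) (nat_lit 9) (.e (nat_lit 426491) (nat_lit 27) .nil)))) .nil)) 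
(.lf (nat_lit 28726) (.g (nat_lit 1195) (.e (nat_lit 1199) (nat_lit 88) (.e (nat_lit 65630) (nat_lit 14) (.e (nat_lit 401438) (nat_lit 9) (.e (nat_lit 426546) (nat_lit 30) .nil)))) .nil)))) (.nd (nat_lit 4) (.nd (nat_lit 5) 
(.lf (nat_lit 28686) (.g (nat_lit 1939) (.e (nat_lit 1199) (nat_lit 88) (.e (nat_lit 65630) (nat_lit 14) (.e (nat_lit 401436) (nat_lit 9) (.e (nat_lit 426556) (nat_lit 32) (.e (nat_lit 376859) (nat_lit 21) (.e (nat_lit 57872) (nat_lit 264) .nil)))))) (.g (nat_lit 5) .nil .nil))) 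
(.lf (nat_lit 28718) (.g (nat_lit 2372) (.e (nat_lit 1199) (nat_lit 88) (.e (nat_lit 65630) (nat_lit 14) (.e (nat_lit 401437) (nat_lit 9) (.e (nat_lit 426556) (nat_lit 32) (.e (nat_lit 376859) (nat_lit 21) (.e (nat_lit 57872) (nat_lit 264) .nil)))))) (.g (nat_lit 4) .nil .nil)))) (.nd (nat_lit 5) 
(.lf (nat_lit 28702) (.g (nat_lit 3587) (.e (nat_lit 1199) (nat_lit 88) (.e (nat_lit 65630) (nat_lit 14) (.e (nat_lit 401437) (nat_lit 9) (.e (nat_lit 426542) (nat_lit 29) (.e (nat_lit 352307) (nat_lit 21) (.e (nat_lit 57872) (nat_lit 264) .nil)))))) (.g (nat_lit 0) .nil .nil))) 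
(.lf (nat_lit 28734) (.g (nat_lit 3838) (.e (nat_lit 1199) (nat_lit 88) (.e (nat_lit 65630) (nat_lit 14) (.e (nat_lit 401438) (nat_lit 9) (.e (nat_lit 426555) (nat_lit 32) (.e (nat_lit 376859) (nat_lit 21) (.e (nat_lit 57873) (nat_lit 264) .nil)))))) (.g (nat_lit 0) .nil .nil)))))))) (.nd (nat_lit 1) (.nd (nat_lit 2) (.nd (nat_lit 3) (.nd (nat_lit 4) (.nd (nat_lit 5) 
(.lf (nat_lit 28673) (.g (nat_lit 2817) (.e (nat_lit 1199) (nat_lit 88) (.e (nat_lit 65630) (nat_lit 14) (.e (nat_lit 401436) (nat_lit 9) (.e (nat_lit 426542) (nat_lit 29) (.e (nat_lit 352309) (nat_lit 21) (.e (nat_lit 57870) (nat_lit 264) .nil)))))) (.g (nat_lit 0) .nil .nil))) 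
(.lf (nat_lit 28705) (.g (nat_lit 3597) (.e (nat_lit 1199) (nat_lit 88) (.e (nat_lit 65630) (nat_lit 14) (.e (nat_lit 401437) (nat_lit 9) (.e (nat_lit 426542) (nat_lit 29) (.e (nat_lit 352309) (nat_lit 21) (.e (nat_lit 57872) (nat_lit 264) .nil)))))) (.g (nat_lit 0) .nil .nil)))) (.nd (nat_lit 5) 
(.lf (nat_lit 28689) (.g (nat_lit 2030) (.e (nat_lit 1199) (nat_lit 88) (.e (nat_lit 65630) (nat_lit 14) (.e (nat_lit 401437) (nat_lit 9) (.e (nat_lit 426484) (nat_lit 27) .nil)))) .nil)) 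
(.lf (nat_lit 28721) (.g (nat_lit 3409) (.e (nat_lit 1199) (nat_lit 88) (.e (nat_lit 65630) (nat_lit 14) (.e (nat_lit 401438) (nat_lit 9) (.e (nat_lit 426542) (nat_lit 29) (.e (nat_lit 352307) (nat_lit 21) (.e (nat_lit 57872) (nat_lit 264) .nil)))))) (.g (nat_lit 0) .nil .nil))))) (.nd (nat_lit 4) (.nd (nat_lit 5) 
(.lf (nat_lit 28681) (.g (nat_lit 3178) (.e (nat_lit 1199) (nat_lit 88) (.e (nat_lit 65630) (nat_lit 14) (.e (nat_lit 401436) (nat_lit 9) (.e (nat_lit 426555) (nat_lit 32) (.e (nat_lit 376859) (nat_lit 21) (.e (nat_lit 57870) (nat_lit 264) .nil)))))) (.g (nat_lit 6) .nil .nil))) 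
(.lf (nat_lit 28713) (.g (nat_lit 3470) (.e (nat_lit 1199) (nat_lit 88) (.e (nat_lit 65630) (nat_lit 14) (.e (nat_lit 401437) (nat_lit 9) (.e (nat_lit 426555) (nat_lit 32) (.e (nat_lit 376859) (nat_lit 21) (.e (nat_lit 57870) (nat_lit 264) .nil)))))) (.g (nat_lit 0) .nil .nil)))) (.nd (nat_lit 5) 
(.lf (nat_lit 28697) (.g (nat_lit 741) (.e (nat_lit 1199) (nat_lit 88) (.e (nat_lit 65630) (nat_lit 14) (.e (nat_lit 401437) (nat_lit 9) (.e (nat_lit 426533) (nat_lit 28) (.e (nat_lit 352000) (nat_lit 11) .nil))))) .nil)) 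
(.lf (nat_lit 28729) (.g (nat_lit 3563) (.e (nat_lit 1199) (nat_lit 88) (.e (nat_lit 65630) (nat_lit 14) (.e (nat_lit 401438) (nat_lit 9) (.e (nat_lit 426555) (nat_lit 32) (.e (nat_lit 376857) (nat_lit 21) (.e (nat_lit 57872) (nat_lit 264) .nil)))))) (.g (nat_lit 6) .nil .nil)))))) (.nd (nat_lit 3) (.nd (nat_lit 4) (.nd (nat_lit 5) 
(.lf (nat_lit 28677) (.g (nat_lit 3139) (.e (nat_lit 1199) (nat_lit 88) (.e (nat_lit 65630) (nat_lit 14) (.e (nat_lit 401436) (nat_lit 9) (.e (nat_lit 426544) (nat_lit 30) (.e (nat_lit 360453) (nat_lit 0) (.e (nat_lit 5907) (nat_lit 320) .nil)))))) (.g (nat_lit 0) .nil .nil))) 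
(.lf (nat_lit 28709) (.g (nat_lit 2468) (.e (nat_lit 1199) (nat_lit 88) (.e (nat_lit 65630) (nat_lit 14) (.e (nat_lit 401437) (nat_lit 9) (.e (nat_lit 426546) (nat_lit 30) (.e (nat_lit 360449) (nat_lit 0) (.e (nat_lit 5896) (nat_lit 320) .nil)))))) (.g (nat_lit 4) .nil .nil)))) (.nd (nat_lit 5) 
(.lf (nat_lit 28693) (.g (nat_lit 1856) (.e (nat_lit 1199) (nat_lit 88) (.e (nat_lit 65630) (nat_lit 14) (.e (nat_lit 401437) (nat_lit 9) (.e (nat_lit 426489) (nat_lit 27) .nil)))) .nil)) 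
(.lf (nat_lit 28725) (.g (nat_lit 3415) (.e (nat_lit 1199) (nat_lit 88) (.e (nat_lit 65630) (nat_lit 14) (.e (nat_lit 401438) (nat_lit 9) (.e (nat_lit 426544) (nat_lit 30) (.e (nat_lit 360453) (nat_lit 0) (.e (nat_lit 5907) (nat_lit 320) .nil)))))) (.g (nat_lit 0) .nil .nil))))) (.nd (nat_lit 4) (.nd (nat_lit 5) 
(.lf (nat_lit 28685) (.g (nat_lit 1078) (.e (nat_lit 1199) (nat_lit 88) (.e (nat_lit 65630) (nat_lit 14) (.e (nat_lit 401436) (nat_lit 9) (.e (nat_lit 426556) (nat_lit 32) .nil)))) .nil)) 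
(.lf (nat_lit 28717) (.g (nat_lit 1779) (.e (nat_lit 1199) (nat_lit 88) (.e (nat_lit 65630) (nat_lit 14) (.e (nat_lit 401437) (nat_lit 9) (.e (nat_lit 426556) (nat_lit 32) (.e (nat_lit 376859) (nat_lit 21) .nil))))) .nil))) (.nd (nat_lit 5) 
(.lf (nat_lit 28701) (.g (nat_lit 3634) (.e (nat_lit 1199) (nat_lit 88) (.e (nat_lit 65630) (nat_lit 14) (.e (nat_lit 401437) (nat_lit 9) (.e (nat_lit 426542) (nat_lit 29) (.e (nat_lit 352307) (nat_lit 21) (.e (nat_lit 57871) (nat_lit 264) .nil)))))) (.g (nat_lit 0) .nil .nil))) 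
(.lf (nat_lit 28733) (.g (nat_lit 3702) (.e (nat_lit 1199) (nat_lit 88) (.e (nat_lit 65630) (nat_lit 14) (.e (nat_lit 401438) (nat_lit 9) (.e (nat_lit 426555) (nat_lit 32) (.e (nat_lit 376859) (nat_lit 21) (.e (nat_lit 57872) (nat_lit 264) .nil)))))) (.g (nat_lit 6) .nil .nil))))))) (.nd (nat_lit 2) (.nd (nat_lit 3) (.nd (nat_lit 4) (.nd (nat_lit 5) 
(.lf (nat_lit 28675) (.g (nat_lit 3153) (.e (nat_lit 1199) (nat_lit 88) (.e (nat_lit 65630) (nat_lit 14) (.e (nat_lit 401436) (nat_lit 9) (.e (nat_lit 426542) (nat_lit 29) (.e (nat_lit 352309) (nat_lit 21) (.e (nat_lit 57872) (nat_lit 264) .nil)))))) (.g (nat_lit 0) .nil .nil))) 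
(.lf (nat_lit 28707) (.g (nat_lit 3637) (.e (nat_lit 1199) (nat_lit 88) (.e (nat_lit 65630) (nat_lit 14) (.e (nat_lit 401437) (nat_lit 9) (.e (nat_lit 426544) (nat_lit 30) (.e (nat_lit 360453) (nat_lit 0) (.e (nat_lit 5907) (nat_lit 320) .nil)))))) (.g (nat_lit 0) .nil .nil)))) (.nd (nat_lit 5) 
(.lf (nat_lit 28691) (.g (nat_lit 2030) (.e (nat_lit 1199) (nat_lit 88) (.e (nat_lit 65630) (nat_lit 14) (.e (nat_lit 401437) (nat_lit 9) (.e (nat_lit 426487) (nat_lit 27) .nil)))) .nil)) 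
(.lf (nat_lit 28723) (.g (nat_lit 3063) (.e (nat_lit 1199) (nat_lit 88) (.e (nat_lit 65630) (nat_lit 14) (.e (nat_lit 401438) (nat_lit 9) (.e (nat_lit 426542) (nat_lit 29) (.e (nat_lit 352309) (nat_lit 21) (.e (nat_lit 57871) (nat_lit 264) .nil)))))) (.g (nat_lit 6) .nil .nil))))) (.nd (nat_lit 4) (.nd (nat_lit 5) 
(.lf (nat_lit 28683) (.g (nat_lit 3308) (.e (nat_lit 1199) (nat_lit 88) (.e (nat_lit 65630) (nat_lit 14) (.e (nat_lit 401436) (nat_lit 9) (.e (nat_lit 426555) (nat_lit 32) (.e (nat_lit 376859) (nat_lit 21) (.e (nat_lit 57872) (nat_lit 264) .nil)))))) (.g (nat_lit 6) .nil .nil))) 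
(.lf (nat_lit 28715) (.g (nat_lit 3581) (.e (nat_lit 1199) (nat_lit 88) (.e (nat_lit 65630) (nat_lit 14) (.e (nat_lit 401437) (nat_lit 9) (.e (nat_lit 426555) (nat_lit 32) (.e (nat_lit 376859) (nat_lit 21) (.e (nat_lit 57872) (nat_lit 264) .nil)))))) (.g (nat_lit 0) .nil .nil)))) (.nd (nat_lit 5) 
(.lf (nat_lit 28699) (.g (nat_lit 1921) (.e (nat_lit 1199) (nat_lit 88) (.e (nat_lit 65630) (nat_lit 14) (.e (nat_lit 401437) (nat_lit 9) (.e (nat_lit 426538) (nat_lit 29) (.e (nat_lit 352309) (nat_lit 21) .nil))))) .nil)) 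
(.lf (nat_lit 28731) (.g (nat_lit 3580) (.e (nat_lit 1199) (nat_lit 88) (.e (nat_lit 65630) (nat_lit 14) (.e (nat_lit 401438) (nat_lit 9) (.e (nat_lit 426555) (nat_lit 32) (.e (nat_lit 376859) (nat_lit 21) (.e (nat_lit 57870) (nat_lit 264) .nil)))))) (.g (nat_lit 6) .nil .nil)))))) (.nd (nat_lit 3) (.nd (nat_lit 4) (.nd (nat_lit 5) 
(.lf (nat_lit 28679) (.g (nat_lit 3381) (.e (nat_lit 1199) (nat_lit 88) (.e (nat_lit 65630) (nat_lit 14) (.e (nat_lit 401436) (nat_lit 9) (.e (nat_lit 426555) (nat_lit 32) (.e (nat_lit 376857) (nat_lit 21) (.e (nat_lit 57870) (nat_lit 264) .nil)))))) (.g (nat_lit 6) .nil .nil))) 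
(.lf (nat_lit 28711) (.g (nat_lit 2075) (.e (nat_lit 1199) (nat_lit 88) (.e (nat_lit 65630) (nat_lit 14) (.e (nat_lit 401437) (nat_lit 9) (.e (nat_lit 426546) (nat_lit 30) (.e (nat_lit 368384) (nat_lit 0) (.e (nat_lit 5905) (nat_lit 320) .nil)))))) (.g (nat_lit 4) .nil .nil)))) (.nd (nat_lit 5) 
(.lf (nat_lit 28695) (.g (nat_lit 2662) (.e (nat_lit 1199) (nat_lit 88) (.e (nat_lit 65630) (nat_lit 14) (.e (nat_lit 401437) (nat_lit 9) (.e (nat_lit 426491) (nat_lit 27) (.e (nat_lit 336157) (nat_lit 9) (.e (nat_lit 335995) (nat_lit 1) (.e (nat_lit 57872) (nat_lit 264) .nil))))))) (.g (nat_lit 4) .nil .nil))) 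
(.lf (nat_lit 28727) (.g (nat_lit 3348) (.e (nat_lit 1199) (nat_lit 88) (.e (nat_lit 65630) (nat_lit 14) (.e (nat_lit 401438) (nat_lit 9) (.e (nat_lit 426546) (nat_lit 30) (.e (nat_lit 360452) (nat_lit 0) (.e (nat_lit 5907) (nat_lit 320) .nil)))))) (.g (nat_lit 0) .nil .nil))))) (.nd (nat_lit 4) (.nd (nat_lit 5) 
(.lf (nat_lit 28687) (.g (nat_lit 355) (.e (nat_lit 1199) (nat_lit 88) (.e (nat_lit 65630) (nat_lit 14) (.e (nat_lit 401437) (nat_lit 9) .nil))) .nil)) 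
(.lf (nat_lit 28719) (.g (nat_lit 3179) (.e (nat_lit 1199) (nat_lit 88) (.e (nat_lit 65630) (nat_lit 14) (.e (nat_lit 401438) (nat_lit 9) (.e (nat_lit 426542) (nat_lit 29) (.e (nat_lit 352307) (nat_lit 21) (.e (nat_lit 57870) (nat_lit 264) .nil)))))) (.g (nat_lit 0) .nil .nil)))) (.nd (nat_lit 5) 
(.lf (nat_lit 28703) (.g (nat_lit 3272) (.e (nat_lit 1199) (nat_lit 88) (.e (nat_lit 65630) (nat_lit 14) (.e (nat_lit 401437) (nat_lit 9) (.e (nat_lit 426542) (nat_lit 29) (.e (nat_lit 352309) (nat_lit 21) (.e (nat_lit 57870) (nat_lit 264) .nil)))))) (.g (nat_lit 0) .nil .nil))) 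
(.lf (nat_lit 28735) (.g (nat_lit 3597) (.e (nat_lit 1199) (nat_lit 88) (.e (nat_lit 65630) (nat_lit 14) (.e (nat_lit 401438) (nat_lit 9) (.e (nat_lit 426555) (nat_lit 32) (.e (nat_lit 376860) (nat_lit 21) (.e (nat_lit 57870) (nat_lit 264) .nil)))))) (.g (nat_lit 6) .nil .nil)))))))))

noncomputable def tv397 : DT := (.nd (nat_lit 0) (.nd (nat_lit 1) (.nd (nat_lit 2) (.nd (nat_lit 3) (.nd (nat_lit 4) (.nd (nat_lit 5) 
(.lf (nat_lit 28736) (.g (nat_lit 1595) (.e (nat_lit 1199) (nat_lit 88) (.e (nat_lit 65630) (nat_lit 14) (.e (nat_lit 401438) (nat_lit 9) (.e (nat_lit 426556) (nat_lit 32) .nil)))) .nil)) 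
(.lf (nat_lit 28768) (.g (nat_lit 2881) (.e (nat_lit 1199) (nat_lit 88) (.e (nat_lit 65630) (nat_lit 14) (.e (nat_lit 401457) (nat_lit 13) (.e (nat_lit 483393) (nat_lit 23) (.e (nat_lit 335988) (nat_lit 1) (.e (nat_lit 57870) (nat_lit 264) .nil)))))) (.g (nat_lit 5) .nil .nil)))) (.nd (nat_lit 5) 
(.lf (nat_lit 28752) (.g (nat_lit 1429) (.e (nat_lit 1199) (nat_lit 88) (.e (nat_lit 65630) (nat_lit 14) (.e (nat_lit 401457) (nat_lit 13) (.e (nat_lit 483346) (nat_lit 17) .nil)))) .nil)) 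
(.lf (nat_lit 28784) (.g (nat_lit 1536) (.e (nat_lit 1199) (nat_lit 88) (.e (nat_lit 65630) (nat_lit 14) (.e (nat_lit 401458) (nat_lit 13) (.e (nat_lit 483383) (nat_lit 23) (.e (nat_lit 335878) (nat_lit 0) .nil))))) .nil)))) (.nd (nat_lit 4) (.nd (nat_lit 5) 
(.lf (nat_lit 28744) (.g (nat_lit 2317) (.e (nat_lit 1199) (nat_lit 88) (.e (nat_lit 65630) (nat_lit 14) (.e (nat_lit 401456) (nat_lit 13) (.e (nat_lit 483378) (nat_lit 23) (.e (nat_lit 335997) (nat_lit 1) (.e (nat_lit 57872) (nat_lit 264) .nil)))))) (.g (nat_lit 4) .nil .nil))) 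
(.lf (nat_lit 28776) (.g (nat_lit 2615) (.e (nat_lit 1199) (nat_lit 88) (.e (nat_lit 65630) (nat_lit 14) (.e (nat_lit 401457) (nat_lit 13) (.e (nat_lit 483413) (nat_lit 27) (.e (nat_lit 401420) (nat_lit 1) .nil))))) .nil))) (.nd (nat_lit 5) 
(.lf (nat_lit 28760) (.g (nat_lit 2687) (.e (nat_lit 1199) (nat_lit 88) (.e (nat_lit 65630) (nat_lit 14) (.e (nat_lit 401457) (nat_lit 13) (.e (nat_lit 483383) (nat_lit 23) (.e (nat_lit 336000) (nat_lit 1) (.e (nat_lit 57873) (nat_lit 264) .nil)))))) (.g (nat_lit 6) .nil .nil))) 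
(.lf (nat_lit 28792) (.g (nat_lit 2372) (.e (nat_lit 1199) (nat_lit 88) (.e (nat_lit 65630) (nat_lit 14) (.e (nat_lit 401458) (nat_lit 13) (.e (nat_lit 483387) (nat_lit 23) (.e (nat_lit 335997) (nat_lit 1) (.e (nat_lit 57871) (nat_lit 264) .nil)))))) (.g (nat_lit 5) .nil .nil)))))) (.nd (nat_lit 3) (.nd (nat_lit 4) (.nd (nat_lit 5) 
(.lf (nat_lit 28740) (.g (nat_lit 3042) (.e (nat_lit 1199) (nat_lit 88) (.e (nat_lit 65630) (nat_lit 14) (.e (nat_lit 401454) (nat_lit 12) (.e (nat_lit 475149) (nat_lit 16) .nil)))) .nil)) 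
(.lf (nat_lit 28772) (.g (nat_lit 2673) (.e (nat_lit 1199) (nat_lit 88) (.e (nat_lit 65630) (nat_lit 14) (.e (nat_lit 401457) (nat_lit 13) (.e (nat_lit 483395) (nat_lit 24) (.e (nat_lit 344097) (nat_lit 18) (.e (nat_lit 5906) (nat_lit 320) .nil)))))) (.g (nat_lit 4) .nil .nil)))) (.nd (nat_lit 5) 
(.lf (nat_lit 28756) (.g (nat_lit 2954) (.e (nat_lit 1199) (nat_lit 88) (.e (nat_lit 65630) (nat_lit 14) (.e (nat_lit 401457) (nat_lit 13) (.e (nat_lit 483378) (nat_lit 23) (.e (nat_lit 335997) (nat_lit 1) (.e (nat_lit 57872) (nat_lit 264) .nil)))))) (.g (nat_lit 6) .nil .nil))) 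
(.lf (nat_lit 28788) (.g (nat_lit 3110) (.e (nat_lit 1199) (nat_lit 88) (.e (nat_lit 65630) (nat_lit 14) (.e (nat_lit 401458) (nat_lit 13) (.e (nat_lit 483383) (nat_lit 23) (.e (nat_lit 336000) (nat_lit 1) (.e (nat_lit 57872) (nat_lit 264) .nil)))))) (.g (nat_lit 0) .nil .nil))))) (.nd (nat_lit 4) (.nd (nat_lit 5) 
(.lf (nat_lit 28748) (.g (nat_lit 2262) (.e (nat_lit 1199) (nat_lit 88) (.e (nat_lit 65630) (nat_lit 14) (.e (nat_lit 401456) (nat_lit 13) (.e (nat_lit 483395) (nat_lit 24) (.e (nat_lit 344097) (nat_lit 18) (.e (nat_lit 5906) (nat_lit 320) .nil)))))) (.g (nat_lit 4) .nil .nil))) 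
(.lf (nat_lit 28780) (.g (nat_lit 2482) (.e (nat_lit 1199) (nat_lit 88) (.e (nat_lit 65630) (nat_lit 14) (.e (nat_lit 401458) (nat_lit 13) (.e (nat_lit 483350) (nat_lit 17) (.e (nat_lit 6490) (nat_lit 343) .nil))))) .nil))) (.nd (nat_lit 5) 
(.lf (nat_lit 28764) (.g (nat_lit 3229) (.e (nat_lit 1199) (nat_lit 88) (.e (nat_lit 65630) (nat_lit 14) (.e (nat_lit 401457) (nat_lit 13) (.e (nat_lit 483392) (nat_lit 23) (.e (nat_lit 335995) (nat_lit 1) (.e (nat_lit 57872) (nat_lit 264) .nil)))))) (.g (nat_lit 5) .nil .nil))) 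
(.lf (nat_lit 28796) (.g (nat_lit 2030) (.e (nat_lit 1199) (nat_lit 88) (.e (nat_lit 65630) (nat_lit 14) (.e (nat_lit 401458) (nat_lit 13) (.e (nat_lit 483389) (nat_lit 23) (.e (nat_lit 335997) (nat_lit 1) (.e (nat_lit 57872) (nat_lit 264) .nil)))))) (.g (nat_lit 5) .nil .nil))))))) (.nd (nat_lit 2) (.nd (nat_lit 3) (.nd (nat_lit 4) (.nd (nat_lit 5) 
(.lf (nat_lit 28738) (.g (nat_lit 1692) (.e (nat_lit 1199) (nat_lit 88) (.e (nat_lit 65630) (nat_lit 14) (.e (nat_lit 401454) (nat_lit 12) (.e (nat_lit 483072) (nat_lit 13) .nil)))) .nil)) 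
(.lf (nat_lit 28770) (.g (nat_lit 3244) (.e (nat_lit 1199) (nat_lit 88) (.e (nat_lit 65630) (nat_lit 14) (.e (nat_lit 401457) (nat_lit 13) (.e (nat_lit 483393) (nat_lit 23) (.e (nat_lit 335995) (nat_lit 1) (.e (nat_lit 57872) (nat_lit 264) .nil)))))) (.g (nat_lit 5) .nil .nil)))) (.nd (nat_lit 5) 
(.lf (nat_lit 28754) (.g (nat_lit 2569) (.e (nat_lit 1199) (nat_lit 88) (.e (nat_lit 65630) (nat_lit 14) (.e (nat_lit 401457) (nat_lit 13) (.e (nat_lit 483346) (nat_lit 17) (.e (nat_lit 6203) (nat_lit 332) .nil))))) .nil)) 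
(.lf (nat_lit 28786) (.g (nat_lit 2192) (.e (nat_lit 1199) (nat_lit 88) (.e (nat_lit 65630) (nat_lit 14) (.e (nat_lit 401458) (nat_lit 13) (.e (nat_lit 483383) (nat_lit 23) (.e (nat_lit 336000) (nat_lit 1) (.e (nat_lit 57870) (nat_lit 264) .nil)))))) (.g (nat_lit 5) .nil .nil))))) (.nd (nat_lit 4) (.nd (nat_lit 5) 
(.lf (nat_lit 28746) (.g (nat_lit 2459) (.e (nat_lit 1199) (nat_lit 88) (.e (nat_lit 65630) (nat_lit 14) (.e (nat_lit 401456) (nat_lit 13) (.e (nat_lit 483393) (nat_lit 23) (.e (nat_lit 335988) (nat_lit 1) .nil))))) .nil)) 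
(.lf (nat_lit 28778) (.g (nat_lit 2676) (.e (nat_lit 1199) (nat_lit 88) (.e (nat_lit 65630) (nat_lit 14) (.e (nat_lit 401457) (nat_lit 13) (.e (nat_lit 483413) (nat_lit 27) (.e (nat_lit 401421) (nat_lit 1) .nil))))) .nil))) (.nd (nat_lit 5) 
(.lf (nat_lit 28762) (.g (nat_lit 1626) (.e (nat_lit 1199) (nat_lit 88) (.e (nat_lit 65630) (nat_lit 14) (.e (nat_lit 401457) (nat_lit 13) (.e (nat_lit 483390) (nat_lit 23) .nil)))) .nil)) 
(.lf (nat_lit 28794) (.g (nat_lit 2086) (.e (nat_lit 1199) (nat_lit 88) (.e (nat_lit 65630) (nat_lit 14) (.e (nat_lit 401458) (nat_lit 13) (.e (nat_lit 483389) (nat_lit 23) (.e (nat_lit 335997) (nat_lit 1) (.e (nat_lit 57870) (nat_lit 264) .nil)))))) (.g (nat_lit 5) .nil .nil)))))) (.nd (nat_lit 3) (.nd (nat_lit 4) (.nd (nat_lit 5) 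
(.lf (nat_lit 28742) (.g (nat_lit 593) (.e (nat_lit 1199) (nat_lit 88) (.e (nat_lit 65630) (nat_lit 14) (.e (nat_lit 401456) (nat_lit 13) .nil))) .nil)) 
(.lf (nat_lit 28774) (.g (nat_lit 1995) (.e (nat_lit 1199) (nat_lit 88) (.e (nat_lit 65630) (nat_lit 14) (.e (nat_lit 401457) (nat_lit 13) (.e (nat_lit 483398) (nat_lit 25) .nil)))) .nil))) (.nd (nat_lit 5) 
(.lf (nat_lit 28758) (.g (nat_lit 1774) (.e (nat_lit 1199) (nat_lit 88) (.e (nat_lit 65630) (nat_lit 14) (.e (nat_lit 401457) (nat_lit 13) (.e (nat_lit 483383) (nat_lit 23) (.e (nat_lit 336000) (nat_lit 1) (.e (nat_lit 57871) (nat_lit 264) .nil)))))) (.g (nat_lit 4) .nil .nil))) 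
(.lf (nat_lit 28790) (.g (nat_lit 1284) (.e (nat_lit 1199) (nat_lit 88) (.e (nat_lit 65630) (nat_lit 14) (.e (nat_lit 401458) (nat_lit 13) (.e (nat_lit 483386) (nat_lit 23) .nil)))) .nil)))) (.nd (nat_lit 4) (.nd (nat_lit 5) 
(.lf (nat_lit 28750) (.g (nat_lit 1777) (.e (nat_lit 1199) (nat_lit 88) (.e (nat_lit 65630) (nat_lit 14) (.e (nat_lit 401456) (nat_lit 13) (.e (nat_lit 483399) (nat_lit 25) .nil)))) .nil)) 
(.lf (nat_lit 28782) (.g (nat_lit 2473) (.e (nat_lit 1199) (nat_lit 88) (.e (nat_lit 65630) (nat_lit 14) (.e (nat_lit 401458) (nat_lit 13) (.e (nat_lit 483378) (nat_lit 23) (.e (nat_lit 335997) (nat_lit 1) (.e (nat_lit 57871) (nat_lit 264) .nil)))))) (.g (nat_lit 6) .nil .nil)))) (.nd (nat_lit 5) 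
(.lf (nat_lit 28766) (.g (nat_lit 2382) (.e (nat_lit 1199) (nat_lit 88) (.e (nat_lit 65630) (nat_lit 14) (.e (nat_lit 401457) (nat_lit 13) (.e (nat_lit 483393) (nat_lit 23) (.e (nat_lit 335986) (nat_lit 1) (.e (nat_lit 57871) (nat_lit 264) .nil)))))) (.g (nat_lit 5) .nil .nil))) 
(.lf (nat_lit 28798) (.g (nat_lit 1057) (.e (nat_lit 1199) (nat_lit 88) (.e (nat_lit 65630) (nat_lit 14) (.e (nat_lit 401458) (nat_lit 13) (.e (nat_lit 483393) (nat_lit 23) .nil)))) .nil))))))) (.nd (nat_lit 1) (.nd (nat_lit 2) (.nd (nat_lit 3) (.nd (nat_lit 4) (.nd (nat_lit 5) 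
(.lf (nat_lit 28737) (.g (nat_lit 734) (.e (nat_lit 1199) (nat_lit 88) (.e (nat_lit 65630) (nat_lit 14) (.e (nat_lit 401454) (nat_lit 12) .nil))) .nil)) 
(.lf (nat_lit 28769) (.g (nat_lit 1939) (.e (nat_lit 1199) (nat_lit 88) (.e (nat_lit 65630) (nat_lit 14) (.e (nat_lit 401457) (nat_lit 13) (.e (nat_lit 483393) (nat_lit 23) (.e (nat_lit 335993) (nat_lit 1) .nil))))) .nil))) (.nd (nat_lit 5) 
(.lf (nat_lit 28753) (.g (nat_lit 2749) (.e (nat_lit 1199) (nat_lit 88) (.e (nat_lit 65630) (nat_lit 14) (.e (nat_lit 401457) (nat_lit 13) (.e (nat_lit 483346) (nat_lit 17) (.e (nat_lit 6154) (nat_lit 332) (.e (nat_lit 2544) (nat_lit 158) (.e (nat_lit 8439) (nat_lit 138) .nil))))))) (.g (nat_lit 4) .nil .nil))) 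
(.lf (nat_lit 28785) (.g (nat_lit 2109) (.e (nat_lit 1199) (nat_lit 88) (.e (nat_lit 65630) (nat_lit 14) (.e (nat_lit 401458) (nat_lit 13) (.e (nat_lit 483383) (nat_lit 23) (.e (nat_lit 335878) (nat_lit 0) (.e (nat_lit 1028) (nat_lit 81) (.e (nat_lit 5902) (nat_lit 320) .nil))))))) (.g (nat_lit 4) .nil .nil))))) (.nd (nat_lit 4) (.nd (nat_lit 5) 
(.lf (nat_lit 28745) (.g (nat_lit 2283) (.e (nat_lit 1199) (nat_lit 88) (.e (nat_lit 65630) (nat_lit 14) (.e (nat_lit 401456) (nat_lit 13) (.e (nat_lit 483387) (nat_lit 23) (.e (nat_lit 335997) (nat_lit 1) .nil))))) .nil)) 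
(.lf (nat_lit 28777) (.g (nat_lit 3058) (.e (nat_lit 1199) (nat_lit 88) (.e (nat_lit 65630) (nat_lit 14) (.e (nat_lit 401457) (nat_lit 13) (.e (nat_lit 483413) (nat_lit 27) (.e (nat_lit 401420) (nat_lit 1) (.e (nat_lit 164423) (nat_lit 272) .nil)))))) (.g (nat_lit 4) .nil .nil)))) (.nd (nat_lit 5) 
(.lf (nat_lit 28761) (.g (nat_lit 1730) (.e (nat_lit 1199) (nat_lit 88) (.e (nat_lit 65630) (nat_lit 14) (.e (nat_lit 401457) (nat_lit 13) (.e (nat_lit 483387) (nat_lit 23) .nil)))) .nil)) 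
(.lf (nat_lit 28793) (.g (nat_lit 2764) (.e (nat_lit 1199) (nat_lit 88) (.e (nat_lit 65630) (nat_lit 14) (.e (nat_lit 401458) (nat_lit 13) (.e (nat_lit 483387) (nat_lit 23) (.e (nat_lit 335997) (nat_lit 1) (.e (nat_lit 57872) (nat_lit 264) .nil)))))) (.g (nat_lit 0) .nil .nil)))))) (.nd (nat_lit 3) (.nd (nat_lit 4) (.nd (nat_lit 5) 
(.lf (nat_lit 28741) (.g (nat_lit 2708) (.e (nat_lit 1199) (nat_lit 88) (.e (nat_lit 65630) (nat_lit 14) (.e (nat_lit 401454) (nat_lit 12) (.e (nat_lit 475154) (nat_lit 20) .nil)))) .nil)) 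
(.lf (nat_lit 28773) (.g (nat_lit 2810) (.e (nat_lit 1199) (nat_lit 88) (.e (nat_lit 65630) (nat_lit 14) (.e (nat_lit 401457) (nat_lit 13) (.e (nat_lit 483395) (nat_lit 24) (.e (nat_lit 344097) (nat_lit 18) (.e (nat_lit 5907) (nat_lit 320) .nil)))))) (.g (nat_lit 4) .nil .nil)))) (.nd (nat_lit 5) 
(.lf (nat_lit 28757) (.g (nat_lit 1487) (.e (nat_lit 1199) (nat_lit 88) (.e (nat_lit 65630) (nat_lit 14) (.e (nat_lit 401457) (nat_lit 13) (.e (nat_lit 483383) (nat_lit 23) (.e (nat_lit 336000) (nat_lit 1) .nil))))) .nil)) 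
(.lf (nat_lit 28789) (.g (nat_lit 3360) (.e (nat_lit 1199) (nat_lit 88) (.e (nat_lit 65630) (nat_lit 14) (.e (nat_lit 401458) (nat_lit 13) (.e (nat_lit 483383) (nat_lit 23) (.e (nat_lit 336000) (nat_lit 1) (.e (nat_lit 57873) (nat_lit 264) .nil)))))) (.g (nat_lit 0) .nil .nil))))) (.nd (nat_lit 4) (.nd (nat_lit 5) 
(.lf (nat_lit 28749) (.g (nat_lit 2458) (.e (nat_lit 1199) (nat_lit 88) (.e (nat_lit 65630) (nat_lit 14) (.e (nat_lit 401456) (nat_lit 13) (.e (nat_lit 483395) (nat_lit 24) (.e (nat_lit 344097) (nat_lit 18) (.e (nat_lit 5907) (nat_lit 320) .nil)))))) (.g (nat_lit 5) .nil .nil))) 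
(.lf (nat_lit 28781) (.g (nat_lit 2744) (.e (nat_lit 1199) (nat_lit 88) (.e (nat_lit 65630) (nat_lit 14) (.e (nat_lit 401458) (nat_lit 13) (.e (nat_lit 483378) (nat_lit 23) (.e (nat_lit 335997) (nat_lit 1) (.e (nat_lit 57870) (nat_lit 264) .nil)))))) (.g (nat_lit 0) .nil .nil)))) (.nd (nat_lit 5) 
(.lf (nat_lit 28765) (.g (nat_lit 1931) (.e (nat_lit 1199) (nat_lit 88) (.e (nat_lit 65630) (nat_lit 14) (.e (nat_lit 401457) (nat_lit 13) (.e (nat_lit 483393) (nat_lit 23) (.e (nat_lit 335986) (nat_lit 1) (.e (nat_lit 57870) (nat_lit 264) .nil)))))) (.g (nat_lit 4) .nil .nil))) 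
(.lf (nat_lit 28797) (.g (nat_lit 3181) (.e (nat_lit 1199) (nat_lit 88) (.e (nat_lit 65630) (nat_lit 14) (.e (nat_lit 401458) (nat_lit 13) (.e (nat_lit 483391) (nat_lit 23) (.e (nat_lit 335998) (nat_lit 1) (.e (nat_lit 57873) (nat_lit 264) .nil)))))) (.g (nat_lit 0) .nil .nil))))))) (.nd (nat_lit 2) (.nd (nat_lit 3) (.nd (nat_lit 4) (.nd (nat_lit 5) 
(.lf (nat_lit 28739) (.g (nat_lit 2851) (.e (nat_lit 1199) (nat_lit 88) (.e (nat_lit 65630) (nat_lit 14) (.e (nat_lit 401454) (nat_lit 12) (.e (nat_lit 475144) (nat_lit 16) .nil)))) .nil)) 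
(.lf (nat_lit 28771) (.g (nat_lit 3252) (.e (nat_lit 1199) (nat_lit 88) (.e (nat_lit 65630) (nat_lit 14) (.e (nat_lit 401457) (nat_lit 13) (.e (nat_lit 483393) (nat_lit 23) (.e (nat_lit 335996) (nat_lit 1) (.e (nat_lit 57870) (nat_lit 264) .nil)))))) (.g (nat_lit 6) .nil .nil)))) (.nd (nat_lit 5) 
(.lf (nat_lit 28755) (.g (nat_lit 2682) (.e (nat_lit 1199) (nat_lit 88) (.e (nat_lit 65630) (nat_lit 14) (.e (nat_lit 401457) (nat_lit 13) (.e (nat_lit 483378) (nat_lit 23) (.e (nat_lit 335997) (nat_lit 1) (.e (nat_lit 57871) (nat_lit 264) .nil)))))) (.g (nat_lit 5) .nil .nil))) 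
(.lf (nat_lit 28787) (.g (nat_lit 2493) (.e (nat_lit 1199) (nat_lit 88) (.e (nat_lit 65630) (nat_lit 14) (.e (nat_lit 401458) (nat_lit 13) (.e (nat_lit 483383) (nat_lit 23) (.e (nat_lit 336000) (nat_lit 1) (.e (nat_lit 57871) (nat_lit 264) .nil)))))) (.g (nat_lit 5) .nil .nil))))) (.nd (nat_lit 4) (.nd (nat_lit 5) 
(.lf (nat_lit 28747) (.g (nat_lit 2637) (.e (nat_lit 1199) (nat_lit 88) (.e (nat_lit 65630) (nat_lit 14) (.e (nat_lit 401456) (nat_lit 13) (.e (nat_lit 483395) (nat_lit 24) (.e (nat_lit 344090) (nat_lit 18) (.e (nat_lit 5896) (nat_lit 320) .nil)))))) (.g (nat_lit 4) .nil .nil))) 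
(.lf (nat_lit 28779) (.g (nat_lit 369) (.e (nat_lit 1199) (nat_lit 88) (.e (nat_lit 65630) (nat_lit 14) (.e (nat_lit 401458) (nat_lit 13) .nil))) .nil))) (.nd (nat_lit 5) 
(.lf (nat_lit 28763) (.g (nat_lit 1188) (.e (nat_lit 1199) (nat_lit 88) (.e (nat_lit 65630) (nat_lit 14) (.e (nat_lit 401457) (nat_lit 13) (.e (nat_lit 483391) (nat_lit 23) .nil)))) .nil)) 
(.lf (nat_lit 28795) (.g (nat_lit 1656) (.e (nat_lit 1199) (nat_lit 88) (.e (nat_lit 65630) (nat_lit 14) (.e (nat_lit 401458) (nat_lit 13) (.e (nat_lit 483389) (nat_lit 23) (.e (nat_lit 335997) (nat_lit 1) (.e (nat_lit 57871) (nat_lit 264) .nil)))))) (.g (nat_lit 4) .nil .nil)))))) (.nd (nat_lit 3) (.nd (nat_lit 4) (.nd (nat_lit 5) 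
(.lf (nat_lit 28743) (.g (nat_lit 2239) (.e (nat_lit 1199) (nat_lit 88) (.e (nat_lit 65630) (nat_lit 14) (.e (nat_lit 401456) (nat_lit 13) (.e (nat_lit 483378) (nat_lit 23) (.e (nat_lit 335997) (nat_lit 1) (.e (nat_lit 57870) (nat_lit 264) .nil)))))) (.g (nat_lit 4) .nil .nil))) 
(.lf (nat_lit 28775) (.g (nat_lit 1779) (.e (nat_lit 1199) (nat_lit 88) (.e (nat_lit 65630) (nat_lit 14) (.e (nat_lit 401457) (nat_lit 13) (.e (nat_lit 483399) (nat_lit 25) .nil)))) .nil))) (.nd (nat_lit 5) 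
(.lf (nat_lit 28759) (.g (nat_lit 2393) (.e (nat_lit 1199) (nat_lit 88) (.e (nat_lit 65630) (nat_lit 14) (.e (nat_lit 401457) (nat_lit 13) (.e (nat_lit 483383) (nat_lit 23) (.e (nat_lit 336000) (nat_lit 1) (.e (nat_lit 57872) (nat_lit 264) .nil)))))) (.g (nat_lit 5) .nil .nil))) 
(.lf (nat_lit 28791) (.g (nat_lit 2634) (.e (nat_lit 1199) (nat_lit 88) (.e (nat_lit 65630) (nat_lit 14) (.e (nat_lit 401458) (nat_lit 13) (.e (nat_lit 483387) (nat_lit 23) (.e (nat_lit 335997) (nat_lit 1) (.e (nat_lit 57870) (nat_lit 264) .nil)))))) (.g (nat_lit 6) .nil .nil))))) (.nd (nat_lit 4) (.nd (nat_lit 5) 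
(.lf (nat_lit 28751) (.g (nat_lit 343) (.e (nat_lit 1199) (nat_lit 88) (.e (nat_lit 65630) (nat_lit 14) (.e (nat_lit 401457) (nat_lit 13) .nil))) .nil)) 
(.lf (nat_lit 28783) (.g (nat_lit 2822) (.e (nat_lit 1199) (nat_lit 88) (.e (nat_lit 65630) (nat_lit 14) (.e (nat_lit 401458) (nat_lit 13) (.e (nat_lit 483378) (nat_lit 23) (.e (nat_lit 335997) (nat_lit 1) (.e (nat_lit 57872) (nat_lit 264) .nil)))))) (.g (nat_lit 0) .nil .nil)))) (.nd (nat_lit 5) 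
(.lf (nat_lit 28767) (.g (nat_lit 2361) (.e (nat_lit 1199) (nat_lit 88) (.e (nat_lit 65630) (nat_lit 14) (.e (nat_lit 401457) (nat_lit 13) (.e (nat_lit 483393) (nat_lit 23) (.e (nat_lit 335987) (nat_lit 1) (.e (nat_lit 57870) (nat_lit 264) .nil)))))) (.g (nat_lit 5) .nil .nil))) 
(.lf (nat_lit 28799) (.g (nat_lit 1997) (.e (nat_lit 1199) (nat_lit 88) (.e (nat_lit 65630) (nat_lit 14) (.e (nat_lit 401458) (nat_lit 13) (.e (nat_lit 483393) (nat_lit 23) (.e (nat_lit 335986) (nat_lit 1) (.e (nat_lit 57870) (nat_lit 264) .nil)))))) (.g (nat_lit 4) .nil .nil)))))))))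

noncomputable def tv398 : DT := (.nd (nat_lit 0) (.nd (nat_lit 1) (.nd (nat_lit 2) (.nd (nat_lit 3) (.nd (nat_lit 4) (.nd (nat_lit 5) 
(.lf (nat_lit 28800) (.g (nat_lit 2409) (.e (nat_lit 1199) (nat_lit 88) (.e (nat_lit 65630) (nat_lit 14) (.e (nat_lit 401458) (nat_lit 13) (.e (nat_lit 483393) (nat_lit 23) (.e (nat_lit 335986) (nat_lit 1) (.e (nat_lit 57871) (nat_lit 264) .nil)))))) (.g (nat_lit 5) .nil .nil))) 
(.lf (nat_lit 28832) (.g (nat_lit 3139) (.e (nat_lit 1199) (nat_lit 88) (.e (nat_lit 65630) (nat_lit 14) (.e (nat_lit 401459) (nat_lit 13) (.e (nat_lit 483344) (nat_lit 17) (.e (nat_lit 6152) (nat_lit 332) (.e (nat_lit 2541) (nat_lit 158) (.e (nat_lit 8439) (nat_lit 138) .nil))))))) (.g (nat_lit 4) .nil .nil)))) (.nd (nat_lit 5) 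
(.lf (nat_lit 28816) (.g (nat_lit 1885) (.e (nat_lit 1199) (nat_lit 88) (.e (nat_lit 65630) (nat_lit 14) (.e (nat_lit 401458) (nat_lit 13) (.e (nat_lit 483396) (nat_lit 24) (.e (nat_lit 344091) (nat_lit 18) (.e (nat_lit 5896) (nat_lit 320) .nil)))))) (.g (nat_lit 4) .nil .nil))) 
(.lf (nat_lit 28848) (.g (nat_lit 2577) (.e (nat_lit 1199) (nat_lit 88) (.e (nat_lit 65630) (nat_lit 14) (.e (nat_lit 401459) (nat_lit 13) (.e (nat_lit 483344) (nat_lit 17) (.e (nat_lit 6511) (nat_lit 346) .nil))))) .nil)))) (.nd (nat_lit 4) (.nd (nat_lit 5) 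
(.lf (nat_lit 28808) (.g (nat_lit 2645) (.e (nat_lit 1199) (nat_lit 88) (.e (nat_lit 65630) (nat_lit 14) (.e (nat_lit 401458) (nat_lit 13) (.e (nat_lit 483394) (nat_lit 24) (.e (nat_lit 344090) (nat_lit 18) (.e (nat_lit 5896) (nat_lit 320) .nil)))))) (.g (nat_lit 5) .nil .nil))) 
(.lf (nat_lit 28840) (.g (nat_lit 2983) (.e (nat_lit 1199) (nat_lit 88) (.e (nat_lit 65630) (nat_lit 14) (.e (nat_lit 401459) (nat_lit 13) (.e (nat_lit 483344) (nat_lit 17) (.e (nat_lit 6203) (nat_lit 332) (.e (nat_lit 2543) (nat_lit 158) (.e (nat_lit 8439) (nat_lit 138) .nil))))))) (.g (nat_lit 4) .nil .nil)))) (.nd (nat_lit 5) 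
(.lf (nat_lit 28824) (.g (nat_lit 2724) (.e (nat_lit 1199) (nat_lit 88) (.e (nat_lit 65630) (nat_lit 14) (.e (nat_lit 401459) (nat_lit 13) (.e (nat_lit 483342) (nat_lit 17) .nil)))) .nil)) 
(.lf (nat_lit 28856) (.g (nat_lit 2464) (.e (nat_lit 1199) (nat_lit 88) (.e (nat_lit 65630) (nat_lit 14) (.e (nat_lit 401459) (nat_lit 13) (.e (nat_lit 483344) (nat_lit 17) (.e (nat_lit 6714) (nat_lit 360) .nil))))) .nil))))) (.nd (nat_lit 3) (.nd (nat_lit 4) (.nd (nat_lit 5) 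
(.lf (nat_lit 28804) (.g (nat_lit 1644) (.e (nat_lit 1199) (nat_lit 88) (.e (nat_lit 65630) (nat_lit 14) (.e (nat_lit 401458) (nat_lit 13) (.e (nat_lit 483393) (nat_lit 23) (.e (nat_lit 335993) (nat_lit 1) .nil))))) .nil)) 
(.lf (nat_lit 28836) (.g (nat_lit 3213) (.e (nat_lit 1199) (nat_lit 88) (.e (nat_lit 65630) (nat_lit 14) (.e (nat_lit 401459) (nat_lit 13) (.e (nat_lit 483344) (nat_lit 17) (.e (nat_lit 6155) (nat_lit 332) (.e (nat_lit 2545) (nat_lit 158) (.e (nat_lit 8439) (nat_lit 138) .nil))))))) (.g (nat_lit 4) .nil .nil)))) (.nd (nat_lit 5) 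
(.lf (nat_lit 28820) (.g (nat_lit 1654) (.e (nat_lit 1199) (nat_lit 88) (.e (nat_lit 65630) (nat_lit 14) (.e (nat_lit 401458) (nat_lit 13) (.e (nat_lit 483398) (nat_lit 25) (.e (nat_lit 368662) (nat_lit 18) (.e (nat_lit 5905) (nat_lit 320) .nil)))))) (.g (nat_lit 4) .nil .nil))) 
(.lf (nat_lit 28852) (.g (nat_lit 4628) (.e (nat_lit 1199) (nat_lit 88) (.e (nat_lit 65630) (nat_lit 14) (.e (nat_lit 401459) (nat_lit 13) (.e (nat_lit 483344) (nat_lit 17) (.e (nat_lit 6712) (nat_lit 360) (.e (nat_lit 163844) (nat_lit 0) (.e (nat_lit 4598) (nat_lit 269) .nil))))))) (.g (nat_lit 7) .nil .nil))))) (.nd (nat_lit 4) (.nd (nat_lit 5) 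
(.lf (nat_lit 28812) (.g (nat_lit 1065) (.e (nat_lit 1199) (nat_lit 88) (.e (nat_lit 65630) (nat_lit 14) (.e (nat_lit 401458) (nat_lit 13) (.e (nat_lit 483395) (nat_lit 24) .nil)))) .nil)) 
(.lf (nat_lit 28844) (.g (nat_lit 5758) (.e (nat_lit 1199) (nat_lit 88) (.e (nat_lit 65630) (nat_lit 14) (.e (nat_lit 401459) (nat_lit 13) (.e (nat_lit 483344) (nat_lit 17) (.e (nat_lit 6479) (nat_lit 343) (.e (nat_lit 1181) (nat_lit 87) (.e (nat_lit 57872) (nat_lit 264) .nil))))))) (.g (nat_lit 7) .nil .nil)))) (.nd (nat_lit 5) 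
(.lf (nat_lit 28828) (.g (nat_lit 1703) (.e (nat_lit 1199) (nat_lit 88) (.e (nat_lit 65630) (nat_lit 14) (.e (nat_lit 401459) (nat_lit 13) (.e (nat_lit 483344) (nat_lit 17) .nil)))) .nil)) 
(.lf (nat_lit 28860) (.g (nat_lit 3202) (.e (nat_lit 1199) (nat_lit 88) (.e (nat_lit 65630) (nat_lit 14) (.e (nat_lit 401459) (nat_lit 13) (.e (nat_lit 483344) (nat_lit 17) (.e (nat_lit 6714) (nat_lit 360) (.e (nat_lit 163850) (nat_lit 0) (.e (nat_lit 4607) (nat_lit 269) .nil))))))) (.g (nat_lit 5) .nil .nil))))))) (.nd (nat_lit 2) (.nd (nat_lit 3) (.nd (nat_lit 4) (.nd (nat_lit 5) 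
(.lf (nat_lit 28802) (.g (nat_lit 2569) (.e (nat_lit 1199) (nat_lit 88) (.e (nat_lit 65630) (nat_lit 14) (.e (nat_lit 401458) (nat_lit 13) (.e (nat_lit 483393) (nat_lit 23) (.e (nat_lit 335987) (nat_lit 1) (.e (nat_lit 57870) (nat_lit 264) .nil)))))) (.g (nat_lit 6) .nil .nil))) 
(.lf (nat_lit 28834) (.g (nat_lit 3257) (.e (nat_lit 1199) (nat_lit 88) (.e (nat_lit 65630) (nat_lit 14) (.e (nat_lit 401459) (nat_lit 13) (.e (nat_lit 483344) (nat_lit 17) (.e (nat_lit 6154) (nat_lit 332) (.e (nat_lit 2545) (nat_lit 158) (.e (nat_lit 8439) (nat_lit 138) .nil))))))) (.g (nat_lit 4) .nil .nil)))) (.nd (nat_lit 5) 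
(.lf (nat_lit 28818) (.g (nat_lit 2197) (.e (nat_lit 1199) (nat_lit 88) (.e (nat_lit 65630) (nat_lit 14) (.e (nat_lit 401458) (nat_lit 13) (.e (nat_lit 483396) (nat_lit 24) (.e (nat_lit 344100) (nat_lit 18) (.e (nat_lit 5906) (nat_lit 320) .nil)))))) (.g (nat_lit 4) .nil .nil))) 
(.lf (nat_lit 28850) (.g (nat_lit 3170) (.e (nat_lit 1199) (nat_lit 88) (.e (nat_lit 65630) (nat_lit 14) (.e (nat_lit 401459) (nat_lit 13) (.e (nat_lit 483344) (nat_lit 17) (.e (nat_lit 6712) (nat_lit 360) (.e (nat_lit 163841) (nat_lit 0) (.e (nat_lit 4598) (nat_lit 269) .nil))))))) (.g (nat_lit 4) .nil .nil))))) (.nd (nat_lit 4) (.nd (nat_lit 5) 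
(.lf (nat_lit 28810) (.g (nat_lit 3470) (.e (nat_lit 1199) (nat_lit 88) (.e (nat_lit 65630) (nat_lit 14) (.e (nat_lit 401458) (nat_lit 13) (.e (nat_lit 483394) (nat_lit 24) (.e (nat_lit 344097) (nat_lit 18) (.e (nat_lit 5907) (nat_lit 320) .nil)))))) (.g (nat_lit 0) .nil .nil))) 
(.lf (nat_lit 28842) (.g (nat_lit 3316) (.e (nat_lit 1199) (nat_lit 88) (.e (nat_lit 65630) (nat_lit 14) (.e (nat_lit 401459) (nat_lit 13) (.e (nat_lit 483344) (nat_lit 17) (.e (nat_lit 6434) (nat_lit 343) (.e (nat_lit 1183) (nat_lit 87) (.e (nat_lit 57871) (nat_lit 264) .nil))))))) (.g (nat_lit 4) .nil .nil)))) (.nd (nat_lit 5) 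
(.lf (nat_lit 28826) (.g (nat_lit 2510) (.e (nat_lit 1199) (nat_lit 88) (.e (nat_lit 65630) (nat_lit 14) (.e (nat_lit 401459) (nat_lit 13) (.e (nat_lit 483343) (nat_lit 17) (.e (nat_lit 6513) (nat_lit 346) .nil))))) .nil)) 
(.lf (nat_lit 28858) (.g (nat_lit 5043) (.e (nat_lit 1199) (nat_lit 88) (.e (nat_lit 65630) (nat_lit 14) (.e (nat_lit 401459) (nat_lit 13) (.e (nat_lit 483344) (nat_lit 17) (.e (nat_lit 6714) (nat_lit 360) (.e (nat_lit 163843) (nat_lit 0) (.e (nat_lit 4598) (nat_lit 269) .nil))))))) (.g (nat_lit 7) .nil .nil)))))) (.nd (nat_lit 3) (.nd (nat_lit 4) (.nd (nat_lit 5) 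
(.lf (nat_lit 28806) (.g (nat_lit 3417) (.e (nat_lit 1199) (nat_lit 88) (.e (nat_lit 65630) (nat_lit 14) (.e (nat_lit 401458) (nat_lit 13) (.e (nat_lit 483393) (nat_lit 23) (.e (nat_lit 335995) (nat_lit 1) (.e (nat_lit 57872) (nat_lit 264) .nil)))))) (.g (nat_lit 0) .nil .nil))) 
(.lf (nat_lit 28838) (.g (nat_lit 3138) (.e (nat_lit 1199) (nat_lit 88) (.e (nat_lit 65630) (nat_lit 14) (.e (nat_lit 401459) (nat_lit 13) (.e (nat_lit 483344) (nat_lit 17) (.e (nat_lit 6196) (nat_lit 332) (.e (nat_lit 2544) (nat_lit 158) (.e (nat_lit 8439) (nat_lit 138) .nil))))))) (.g (nat_lit 4) .nil .nil)))) (.nd (nat_lit 5) 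
(.lf (nat_lit 28822) (.g (nat_lit 3014) (.e (nat_lit 1199) (nat_lit 88) (.e (nat_lit 65630) (nat_lit 14) (.e (nat_lit 401458) (nat_lit 13) (.e (nat_lit 483399) (nat_lit 25) (.e (nat_lit 368662) (nat_lit 18) (.e (nat_lit 5906) (nat_lit 320) .nil)))))) (.g (nat_lit 0) .nil .nil))) 
(.lf (nat_lit 28854) (.g (nat_lit 3084) (.e (nat_lit 1199) (nat_lit 88) (.e (nat_lit 65630) (nat_lit 14) (.e (nat_lit 401459) (nat_lit 13) (.e (nat_lit 483344) (nat_lit 17) (.e (nat_lit 6712) (nat_lit 360) (.e (nat_lit 163850) (nat_lit 0) (.e (nat_lit 4605) (nat_lit 269) .nil))))))) (.g (nat_lit 4) .nil .nil))))) (.nd (nat_lit 4) (.nd (nat_lit 5) 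
(.lf (nat_lit 28814) (.g (nat_lit 3120) (.e (nat_lit 1199) (nat_lit 88) (.e (nat_lit 65630) (nat_lit 14) (.e (nat_lit 401458) (nat_lit 13) (.e (nat_lit 483395) (nat_lit 24) (.e (nat_lit 344097) (nat_lit 18) (.e (nat_lit 5906) (nat_lit 320) .nil)))))) (.g (nat_lit 0) .nil .nil))) 
(.lf (nat_lit 28846) (.g (nat_lit 2841) (.e (nat_lit 1199) (nat_lit 88) (.e (nat_lit 65630) (nat_lit 14) (.e (nat_lit 401459) (nat_lit 13) (.e (nat_lit 483344) (nat_lit 17) (.e (nat_lit 6486) (nat_lit 343) (.e (nat_lit 1181) (nat_lit 87) (.e (nat_lit 57870) (nat_lit 264) .nil))))))) (.g (nat_lit 4) .nil .nil)))) (.nd (nat_lit 5) 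
(.lf (nat_lit 28830) (.g (nat_lit 2771) (.e (nat_lit 1199) (nat_lit 88) (.e (nat_lit 65630) (nat_lit 14) (.e (nat_lit 401459) (nat_lit 13) (.e (nat_lit 483344) (nat_lit 17) (.e (nat_lit 6081) (nat_lit 332) (.e (nat_lit 2548) (nat_lit 158) (.e (nat_lit 8439) (nat_lit 138) .nil))))))) (.g (nat_lit 4) .nil .nil))) 
(.lf (nat_lit 28862) (.g (nat_lit 2538) (.e (nat_lit 1199) (nat_lit 88) (.e (nat_lit 65630) (nat_lit 14) (.e (nat_lit 401459) (nat_lit 13) (.e (nat_lit 483347) (nat_lit 17) (.e (nat_lit 6198) (nat_lit 332) .nil))))) .nil))))))) (.nd (nat_lit 1) (.nd (nat_lit 2) (.nd (nat_lit 3) (.nd (nat_lit 4) (.nd (nat_lit 5) 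
(.lf (nat_lit 28801) (.g (nat_lit 2408) (.e (nat_lit 1199) (nat_lit 88) (.e (nat_lit 65630) (nat_lit 14) (.e (nat_lit 401458) (nat_lit 13) (.e (nat_lit 483393) (nat_lit 23) (.e (nat_lit 335986) (nat_lit 1) (.e (nat_lit 57872) (nat_lit 264) .nil)))))) (.g (nat_lit 5) .nil .nil))) 
(.lf (nat_lit 28833) (.g (nat_lit 2557) (.e (nat_lit 1199) (nat_lit 88) (.e (nat_lit 65630) (nat_lit 14) (.e (nat_lit 401459) (nat_lit 13) (.e (nat_lit 483344) (nat_lit 17) (.e (nat_lit 6153) (nat_lit 332) .nil))))) .nil))) (.nd (nat_lit 5) 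
(.lf (nat_lit 28817) (.g (nat_lit 2353) (.e (nat_lit 1199) (nat_lit 88) (.e (nat_lit 65630) (nat_lit 14) (.e (nat_lit 401458) (nat_lit 13) (.e (nat_lit 483396) (nat_lit 24) (.e (nat_lit 344097) (nat_lit 18) (.e (nat_lit 5906) (nat_lit 320) .nil)))))) (.g (nat_lit 4) .nil .nil))) 
(.lf (nat_lit 28849) (.g (nat_lit 4691) (.e (nat_lit 1199) (nat_lit 88) (.e (nat_lit 65630) (nat_lit 14) (.e (nat_lit 401459) (nat_lit 13) (.e (nat_lit 483344) (nat_lit 17) (.e (nat_lit 6514) (nat_lit 346) (.e (nat_lit 57354) (nat_lit 0) (.e (nat_lit 5907) (nat_lit 320) .nil))))))) (.g (nat_lit 7) .nil .nil))))) (.nd (nat_lit 4) (.nd (nat_lit 5) 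
(.lf (nat_lit 28809) (.g (nat_lit 3228) (.e (nat_lit 1199) (nat_lit 88) (.e (nat_lit 65630) (nat_lit 14) (.e (nat_lit 401458) (nat_lit 13) (.e (nat_lit 483394) (nat_lit 24) (.e (nat_lit 344097) (nat_lit 18) (.e (nat_lit 5906) (nat_lit 320) .nil)))))) (.g (nat_lit 0) .nil .nil))) 
(.lf (nat_lit 28841) (.g (nat_lit 2574) (.e (nat_lit 1199) (nat_lit 88) (.e (nat_lit 65630) (nat_lit 14) (.e (nat_lit 401459) (nat_lit 13) (.e (nat_lit 483344) (nat_lit 17) (.e (nat_lit 6235) (nat_lit 335) .nil))))) .nil))) (.nd (nat_lit 5) 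
(.lf (nat_lit 28825) (.g (nat_lit 2273) (.e (nat_lit 1199) (nat_lit 88) (.e (nat_lit 65630) (nat_lit 14) (.e (nat_lit 401459) (nat_lit 13) (.e (nat_lit 483343) (nat_lit 17) .nil)))) .nil)) 
(.lf (nat_lit 28857) (.g (nat_lit 3558) (.e (nat_lit 1199) (nat_lit 88) (.e (nat_lit 65630) (nat_lit 14) (.e (nat_lit 401459) (nat_lit 13) (.e (nat_lit 483344) (nat_lit 17) (.e (nat_lit 6714) (nat_lit 360) (.e (nat_lit 163841) (nat_lit 0) (.e (nat_lit 4598) (nat_lit 269) .nil))))))) (.g (nat_lit 6) .nil .nil)))))) (.nd (nat_lit 3) (.nd (nat_lit 4) (.nd (nat_lit 5) 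
(.lf (nat_lit 28805) (.g (nat_lit 2786) (.e (nat_lit 1199) (nat_lit 88) (.e (nat_lit 65630) (nat_lit 14) (.e (nat_lit 401458) (nat_lit 13) (.e (nat_lit 483393) (nat_lit 23) (.e (nat_lit 335995) (nat_lit 1) (.e (nat_lit 57870) (nat_lit 264) .nil)))))) (.g (nat_lit 5) .nil .nil))) 
(.lf (nat_lit 28837) (.g (nat_lit 2852) (.e (nat_lit 1199) (nat_lit 88) (.e (nat_lit 65630) (nat_lit 14) (.e (nat_lit 401459) (nat_lit 13) (.e (nat_lit 483344) (nat_lit 17) (.e (nat_lit 6156) (nat_lit 332) (.e (nat_lit 2540) (nat_lit 158) (.e (nat_lit 8439) (nat_lit 138) .nil))))))) (.g (nat_lit 4) .nil .nil)))) (.nd (nat_lit 5) 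
(.lf (nat_lit 28821) (.g (nat_lit 2905) (.e (nat_lit 1199) (nat_lit 88) (.e (nat_lit 65630) (nat_lit 14) (.e (nat_lit 401458) (nat_lit 13) (.e (nat_lit 483398) (nat_lit 25) (.e (nat_lit 368662) (nat_lit 18) (.e (nat_lit 5906) (nat_lit 320) .nil)))))) (.g (nat_lit 0) .nil .nil))) 
(.lf (nat_lit 28853) (.g (nat_lit 4392) (.e (nat_lit 1199) (nat_lit 88) (.e (nat_lit 65630) (nat_lit 14) (.e (nat_lit 401459) (nat_lit 13) (.e (nat_lit 483344) (nat_lit 17) (.e (nat_lit 6712) (nat_lit 360) (.e (nat_lit 163849) (nat_lit 0) (.e (nat_lit 4598) (nat_lit 269) .nil))))))) (.g (nat_lit 7) .nil .nil))))) (.nd (nat_lit 4) (.nd (nat_lit 5) 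
(.lf (nat_lit 28813) (.g (nat_lit 3393) (.e (nat_lit 1199) (nat_lit 88) (.e (nat_lit 65630) (nat_lit 14) (.e (nat_lit 401458) (nat_lit 13) (.e (nat_lit 483395) (nat_lit 24) (.e (nat_lit 344090) (nat_lit 18) (.e (nat_lit 5896) (nat_lit 320) .nil)))))) (.g (nat_lit 6) .nil .nil))) 
(.lf (nat_lit 28845) (.g (nat_lit 2757) (.e (nat_lit 1199) (nat_lit 88) (.e (nat_lit 65630) (nat_lit 14) (.e (nat_lit 401459) (nat_lit 13) (.e (nat_lit 483344) (nat_lit 17) (.e (nat_lit 6486) (nat_lit 343) .nil))))) .nil))) (.nd (nat_lit 5) 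
(.lf (nat_lit 28829) (.g (nat_lit 2721) (.e (nat_lit 1199) (nat_lit 88) (.e (nat_lit 65630) (nat_lit 14) (.e (nat_lit 401459) (nat_lit 13) (.e (nat_lit 483344) (nat_lit 17) (.e (nat_lit 6081) (nat_lit 332) .nil))))) .nil)) 
(.lf (nat_lit 28861) (.g (nat_lit 2242) (.e (nat_lit 1199) (nat_lit 88) (.e (nat_lit 65630) (nat_lit 14) (.e (nat_lit 401459) (nat_lit 13) (.e (nat_lit 483347) (nat_lit 17) .nil)))) .nil)))))) (.nd (nat_lit 2) (.nd (nat_lit 3) (.nd (nat_lit 4) (.nd (nat_lit 5) 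
(.lf (nat_lit 28803) (.g (nat_lit 3065) (.e (nat_lit 1199) (nat_lit 88) (.e (nat_lit 65630) (nat_lit 14) (.e (nat_lit 401458) (nat_lit 13) (.e (nat_lit 483393) (nat_lit 23) (.e (nat_lit 335988) (nat_lit 1) (.e (nat_lit 57870) (nat_lit 264) .nil)))))) (.g (nat_lit 0) .nil .nil))) 
(.lf (nat_lit 28835) (.g (nat_lit 3103) (.e (nat_lit 1199) (nat_lit 88) (.e (nat_lit 65630) (nat_lit 14) (.e (nat_lit 401459) (nat_lit 13) (.e (nat_lit 483344) (nat_lit 17) (.e (nat_lit 6155) (nat_lit 332) (.e (nat_lit 2540) (nat_lit 158) (.e (nat_lit 8439) (nat_lit 138) .nil))))))) (.g (nat_lit 4) .nil .nil)))) (.nd (nat_lit 5) 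
(.lf (nat_lit 28819) (.g (nat_lit 1023) (.e (nat_lit 1199) (nat_lit 88) (.e (nat_lit 65630) (nat_lit 14) (.e (nat_lit 401458) (nat_lit 13) (.e (nat_lit 483398) (nat_lit 25) .nil)))) .nil)) 
(.lf (nat_lit 28851) (.g (nat_lit 4838) (.e (nat_lit 1199) (nat_lit 88) (.e (nat_lit 65630) (nat_lit 14) (.e (nat_lit 401459) (nat_lit 13) (.e (nat_lit 483344) (nat_lit 17) (.e (nat_lit 6712) (nat_lit 360) (.e (nat_lit 163843) (nat_lit 0) (.e (nat_lit 4598) (nat_lit 269) .nil))))))) (.g (nat_lit 7) .nil .nil))))) (.nd (nat_lit 4) (.nd (nat_lit 5) 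
(.lf (nat_lit 28811) (.g (nat_lit 1703) (.e (nat_lit 1199) (nat_lit 88) (.e (nat_lit 65630) (nat_lit 14) (.e (nat_lit 401458) (nat_lit 13) (.e (nat_lit 483394) (nat_lit 24) (.e (nat_lit 344100) (nat_lit 18) (.e (nat_lit 5907) (nat_lit 320) .nil)))))) (.g (nat_lit 4) .nil .nil))) 
(.lf (nat_lit 28843) (.g (nat_lit 2648) (.e (nat_lit 1199) (nat_lit 88) (.e (nat_lit 65630) (nat_lit 14) (.e (nat_lit 401459) (nat_lit 13) (.e (nat_lit 483344) (nat_lit 17) (.e (nat_lit 6444) (nat_lit 343) (.e (nat_lit 1181) (nat_lit 87) (.e (nat_lit 57870) (nat_lit 264) .nil))))))) (.g (nat_lit 4) .nil .nil)))) (.nd (nat_lit 5) 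
(.lf (nat_lit 28827) (.g (nat_lit 2510) (.e (nat_lit 1199) (nat_lit 88) (.e (nat_lit 65630) (nat_lit 14) (.e (nat_lit 401459) (nat_lit 13) (.e (nat_lit 483343) (nat_lit 17) (.e (nat_lit 6714) (nat_lit 360) .nil))))) .nil)) 
(.lf (nat_lit 28859) (.g (nat_lit 3856) (.e (nat_lit 1199) (nat_lit 88) (.e (nat_lit 65630) (nat_lit 14) (.e (nat_lit 401459) (nat_lit 13) (.e (nat_lit 483344) (nat_lit 17) (.e (nat_lit 6714) (nat_lit 360) (.e (nat_lit 163850) (nat_lit 0) (.e (nat_lit 4606) (nat_lit 269) .nil))))))) (.g (nat_lit 6) .nil .nil)))))) (.nd (nat_lit 3) (.nd (nat_lit 4) (.nd (nat_lit 5) 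
(.lf (nat_lit 28807) (.g (nat_lit 3475) (.e (nat_lit 1199) (nat_lit 88) (.e (nat_lit 65630) (nat_lit 14) (.e (nat_lit 401458) (nat_lit 13) (.e (nat_lit 483393) (nat_lit 23) (.e (nat_lit 335996) (nat_lit 1) (.e (nat_lit 57870) (nat_lit 264) .nil)))))) (.g (nat_lit 0) .nil .nil))) 
(.lf (nat_lit 28839) (.g (nat_lit 2981) (.e (nat_lit 1199) (nat_lit 88) (.e (nat_lit 65630) (nat_lit 14) (.e (nat_lit 401459) (nat_lit 13) (.e (nat_lit 483344) (nat_lit 17) (.e (nat_lit 6203) (nat_lit 332) (.e (nat_lit 2540) (nat_lit 158) (.e (nat_lit 8439) (nat_lit 138) .nil))))))) (.g (nat_lit 4) .nil .nil)))) (.nd (nat_lit 5) 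
(.lf (nat_lit 28823) (.g (nat_lit 433) (.e (nat_lit 1199) (nat_lit 88) (.e (nat_lit 65630) (nat_lit 14) (.e (nat_lit 401459) (nat_lit 13) .nil))) .nil)) 
(.lf (nat_lit 28855) (.g (nat_lit 2705) (.e (nat_lit 1199) (nat_lit 88) (.e (nat_lit 65630) (nat_lit 14) (.e (nat_lit 401459) (nat_lit 13) (.e (nat_lit 483344) (nat_lit 17) (.e (nat_lit 6712) (nat_lit 360) (.e (nat_lit 163850) (nat_lit 0) (.e (nat_lit 4607) (nat_lit 269) .nil))))))) (.g (nat_lit 4) .nil .nil))))) (.nd (nat_lit 4) (.nd (nat_lit 5) 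
(.lf (nat_lit 28815) (.g (nat_lit 1208) (.e (nat_lit 1199) (nat_lit 88) (.e (nat_lit 65630) (nat_lit 14) (.e (nat_lit 401458) (nat_lit 13) (.e (nat_lit 483396) (nat_lit 24) .nil)))) .nil)) 
(.lf (nat_lit 28847) (.g (nat_lit 2646) (.e (nat_lit 1199) (nat_lit 88) (.e (nat_lit 65630) (nat_lit 14) (.e (nat_lit 401459) (nat_lit 13) (.e (nat_lit 483344) (nat_lit 17) (.e (nat_lit 7936) (nat_lit 343) .nil))))) .nil))) (.nd (nat_lit 5) 
(.lf (nat_lit 28831) (.g (nat_lit 2850) (.e (nat_lit 1199) (nat_lit 88) (.e (nat_lit 65630) (nat_lit 14) (.e (nat_lit 401459) (nat_lit 13) (.e (nat_lit 483344) (nat_lit 17) (.e (nat_lit 6152) (nat_lit 332) (.e (nat_lit 2540) (nat_lit 158) (.e (nat_lit 8439) (nat_lit 138) .nil))))))) (.g (nat_lit 4) .nil .nil))) 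
(.lf (nat_lit 28863) (.g (nat_lit 2619) (.e (nat_lit 1199) (nat_lit 88) (.e (nat_lit 65630) (nat_lit 14) (.e (nat_lit 401459) (nat_lit 13) (.e (nat_lit 483347) (nat_lit 17) (.e (nat_lit 7936) (nat_lit 346) .nil))))) .nil))))))))

noncomputable def tv399 : DT := (.nd (nat_lit 0) (.nd (nat_lit 1) (.nd (nat_lit 2) (.nd (nat_lit 3) (.nd (nat_lit 4) (.nd (nat_lit 5) 
(.lf (nat_lit 28864) (.g (nat_lit 2986) (.e (nat_lit 1199) (nat_lit 88) (.e (nat_lit 65630) (nat_lit 14) (.e (nat_lit 401459) (nat_lit 13) (.e (nat_lit 483347) (nat_lit 17) (.e (nat_lit 7936) (nat_lit 346) (.e (nat_lit 57354) (nat_lit 0) (.e (nat_lit 5906) (nat_lit 320) .nil))))))) (.g (nat_lit 4) .nil .nil))) 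
(.lf (nat_lit 28896) (.g (nat_lit 3770) (.e (nat_lit 1199) (nat_lit 88) (.e (nat_lit 65630) (nat_lit 14) (.e (nat_lit 401459) (nat_lit 13) (.e (nat_lit 483374) (nat_lit 22) (.e (nat_lit 327684) (nat_lit 0) (.e (nat_lit 81) (nat_lit 0) (.e (nat_lit 5902) (nat_lit 320) .nil))))))) (.g (nat_lit 5) .nil .nil)))) (.nd (nat_lit 5) 
(.lf (nat_lit 28880) (.g (nat_lit 3105) (.e (nat_lit 1199) (nat_lit 88) (.e (nat_lit 65630) (nat_lit 14) (.e (nat_lit 401459) (nat_lit 13) (.e (nat_lit 483357) (nat_lit 17) .nil)))) .nil)) 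
(.lf (nat_lit 28912) (.g (nat_lit 3169) (.e (nat_lit 1199) (nat_lit 88) (.e (nat_lit 65630) (nat_lit 14) (.e (nat_lit 401459) (nat_lit 13) (.e (nat_lit 483380) (nat_lit 23) (.e (nat_lit 336000) (nat_lit 1) .nil))))) .nil)))) (.nd (nat_lit 4) (.nd (nat_lit 5) 
(.lf (nat_lit 28872) (.g (nat_lit 3042) (.e (nat_lit 1199) (nat_lit 88) (.e (nat_lit 65630) (nat_lit 14) (.e (nat_lit 401459) (nat_lit 13) (.e (nat_lit 483350) (nat_lit 17) (.e (nat_lit 7936) (nat_lit 343) .nil))))) .nil)) 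
(.lf (nat_lit 28904) (.g (nat_lit 1882) (.e (nat_lit 1199) (nat_lit 88) (.e (nat_lit 65630) (nat_lit 14) (.e (nat_lit 401459) (nat_lit 13) (.e (nat_lit 483380) (nat_lit 23) .nil)))) .nil))) (.nd (nat_lit 5) 
(.lf (nat_lit 28888) (.g (nat_lit 4404) (.e (nat_lit 1199) (nat_lit 88) (.e (nat_lit 65630) (nat_lit 14) (.e (nat_lit 401459) (nat_lit 13) (.e (nat_lit 483372) (nat_lit 21) (.e (nat_lit 319490) (nat_lit 0) .nil))))) .nil)) 
(.lf (nat_lit 28920) (.g (nat_lit 2653) (.e (nat_lit 1199) (nat_lit 88) (.e (nat_lit 65630) (nat_lit 14) (.e (nat_lit 401459) (nat_lit 13) (.e (nat_lit 483386) (nat_lit 23) (.e (nat_lit 335985) (nat_lit 1) (.e (nat_lit 57870) (nat_lit 264) .nil)))))) (.g (nat_lit 0) .nil .nil)))))) (.nd (nat_lit 3) (.nd (nat_lit 4) (.nd (nat_lit 5) 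
(.lf (nat_lit 28868) (.g (nat_lit 2668) (.e (nat_lit 1199) (nat_lit 88) (.e (nat_lit 65630) (nat_lit 14) (.e (nat_lit 401459) (nat_lit 13) (.e (nat_lit 483350) (nat_lit 17) (.e (nat_lit 6113) (nat_lit 332) .nil))))) .nil)) 
(.lf (nat_lit 28900) (.g (nat_lit 2456) (.e (nat_lit 1199) (nat_lit 88) (.e (nat_lit 65630) (nat_lit 14) (.e (nat_lit 401459) (nat_lit 13) (.e (nat_lit 483375) (nat_lit 22) (.e (nat_lit 335616) (nat_lit 1) .nil))))) .nil))) (.nd (nat_lit 5) 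
(.lf (nat_lit 28884) (.g (nat_lit 3569) (.e (nat_lit 1199) (nat_lit 88) (.e (nat_lit 65630) (nat_lit 14) (.e (nat_lit 401459) (nat_lit 13) (.e (nat_lit 483364) (nat_lit 18) (.e (nat_lit 65280) (nat_lit 217) (.e (nat_lit 57367) (nat_lit 1) (.e (nat_lit 57870) (nat_lit 264) .nil))))))) (.g (nat_lit 4) .nil .nil))) 
(.lf (nat_lit 28916) (.g (nat_lit 3756) (.e (nat_lit 1199) (nat_lit 88) (.e (nat_lit 65630) (nat_lit 14) (.e (nat_lit 401459) (nat_lit 13) (.e (nat_lit 483383) (nat_lit 23) (.e (nat_lit 336000) (nat_lit 1) (.e (nat_lit 57872) (nat_lit 264) .nil)))))) (.g (nat_lit 4) .nil .nil))))) (.nd (nat_lit 4) (.nd (nat_lit 5) 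
(.lf (nat_lit 28876) (.g (nat_lit 2329) (.e (nat_lit 1199) (nat_lit 88) (.e (nat_lit 65630) (nat_lit 14) (.e (nat_lit 401459) (nat_lit 13) (.e (nat_lit 483354) (nat_lit 17) .nil)))) .nil)) 
(.lf (nat_lit 28908) (.g (nat_lit 3468) (.e (nat_lit 1199) (nat_lit 88) (.e (nat_lit 65630) (nat_lit 14) (.e (nat_lit 401459) (nat_lit 13) (.e (nat_lit 483380) (nat_lit 23) (.e (nat_lit 335885) (nat_lit 0) .nil))))) .nil))) (.nd (nat_lit 5) 
(.lf (nat_lit 28892) (.g (nat_lit 4710) (.e (nat_lit 1199) (nat_lit 88) (.e (nat_lit 65630) (nat_lit 14) (.e (nat_lit 401459) (nat_lit 13) (.e (nat_lit 483372) (nat_lit 21) (.e (nat_lit 319514) (nat_lit 11) .nil))))) .nil)) 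
(.lf (nat_lit 28924) (.g (nat_lit 2682) (.e (nat_lit 1199) (nat_lit 88) (.e (nat_lit 65630) (nat_lit 14) (.e (nat_lit 401459) (nat_lit 13) (.e (nat_lit 483386) (nat_lit 23) (.e (nat_lit 335992) (nat_lit 1) (.e (nat_lit 57870) (nat_lit 264) .nil)))))) (.g (nat_lit 6) .nil .nil))))))) (.nd (nat_lit 2) (.nd (nat_lit 3) (.nd (nat_lit 4) (.nd (nat_lit 5) 
(.lf (nat_lit 28866) (.g (nat_lit 1919) (.e (nat_lit 1199) (nat_lit 88) (.e (nat_lit 65630) (nat_lit 14) (.e (nat_lit 401459) (nat_lit 13) (.e (nat_lit 483350) (nat_lit 17) .nil)))) .nil)) 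
(.lf (nat_lit 28898) (.g (nat_lit 1614) (.e (nat_lit 1199) (nat_lit 88) (.e (nat_lit 65630) (nat_lit 14) (.e (nat_lit 401459) (nat_lit 13) (.e (nat_lit 483375) (nat_lit 22) .nil)))) .nil))) (.nd (nat_lit 5) 
(.lf (nat_lit 28882) (.g (nat_lit 3741) (.e (nat_lit 1199) (nat_lit 88) (.e (nat_lit 65630) (nat_lit 14) (.e (nat_lit 401459) (nat_lit 13) (.e (nat_lit 483363) (nat_lit 18) (.e (nat_lit 65280) (nat_lit 217) (.e (nat_lit 57367) (nat_lit 1) (.e (nat_lit 57870) (nat_lit 264) .nil))))))) (.g (nat_lit 4) .nil .nil))) 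
(.lf (nat_lit 28914) (.g (nat_lit 2700) (.e (nat_lit 1199) (nat_lit 88) (.e (nat_lit 65630) (nat_lit 14) (.e (nat_lit 401459) (nat_lit 13) (.e (nat_lit 483383) (nat_lit 23) .nil)))) .nil)))) (.nd (nat_lit 4) (.nd (nat_lit 5) 
(.lf (nat_lit 28874) (.g (nat_lit 3042) (.e (nat_lit 1199) (nat_lit 88) (.e (nat_lit 65630) (nat_lit 14) (.e (nat_lit 401459) (nat_lit 13) (.e (nat_lit 483350) (nat_lit 17) (.e (nat_lit 7936) (nat_lit 346) .nil))))) .nil)) 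
(.lf (nat_lit 28906) (.g (nat_lit 3477) (.e (nat_lit 1199) (nat_lit 88) (.e (nat_lit 65630) (nat_lit 14) (.e (nat_lit 401459) (nat_lit 13) (.e (nat_lit 483380) (nat_lit 23) (.e (nat_lit 335880) (nat_lit 0) .nil))))) .nil))) (.nd (nat_lit 5) 
(.lf (nat_lit 28890) (.g (nat_lit 3431) (.e (nat_lit 1199) (nat_lit 88) (.e (nat_lit 65630) (nat_lit 14) (.e (nat_lit 401459) (nat_lit 13) (.e (nat_lit 483372) (nat_lit 21) (.e (nat_lit 327424) (nat_lit 0) .nil))))) .nil)) 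
(.lf (nat_lit 28922) (.g (nat_lit 2640) (.e (nat_lit 1199) (nat_lit 88) (.e (nat_lit 65630) (nat_lit 14) (.e (nat_lit 401459) (nat_lit 13) (.e (nat_lit 483386) (nat_lit 23) (.e (nat_lit 335985) (nat_lit 1) (.e (nat_lit 57872) (nat_lit 264) .nil)))))) (.g (nat_lit 0) .nil .nil)))))) (.nd (nat_lit 3) (.nd (nat_lit 4) (.nd (nat_lit 5) 
(.lf (nat_lit 28870) (.g (nat_lit 3696) (.e (nat_lit 1199) (nat_lit 88) (.e (nat_lit 65630) (nat_lit 14) (.e (nat_lit 401459) (nat_lit 13) (.e (nat_lit 483350) (nat_lit 17) (.e (nat_lit 6113) (nat_lit 332) (.e (nat_lit 7936) (nat_lit 158) (.e (nat_lit 8439) (nat_lit 138) .nil))))))) (.g (nat_lit 5) .nil .nil))) 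
(.lf (nat_lit 28902) (.g (nat_lit 2878) (.e (nat_lit 1199) (nat_lit 88) (.e (nat_lit 65630) (nat_lit 14) (.e (nat_lit 401459) (nat_lit 13) (.e (nat_lit 483378) (nat_lit 23) (.e (nat_lit 335997) (nat_lit 1) (.e (nat_lit 57871) (nat_lit 264) .nil)))))) (.g (nat_lit 6) .nil .nil)))) (.nd (nat_lit 5) 
(.lf (nat_lit 28886) (.g (nat_lit 2491) (.e (nat_lit 1199) (nat_lit 88) (.e (nat_lit 65630) (nat_lit 14) (.e (nat_lit 401459) (nat_lit 13) (.e (nat_lit 483371) (nat_lit 21) .nil)))) .nil)) 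
(.lf (nat_lit 28918) (.g (nat_lit 1060) (.e (nat_lit 1199) (nat_lit 88) (.e (nat_lit 65630) (nat_lit 14) (.e (nat_lit 401459) (nat_lit 13) (.e (nat_lit 483386) (nat_lit 23) .nil)))) .nil)))) (.nd (nat_lit 4) (.nd (nat_lit 5) 
(.lf (nat_lit 28878) (.g (nat_lit 3156) (.e (nat_lit 1199) (nat_lit 88) (.e (nat_lit 65630) (nat_lit 14) (.e (nat_lit 401459) (nat_lit 13) (.e (nat_lit 483354) (nat_lit 17) (.e (nat_lit 7936) (nat_lit 346) (.e (nat_lit 57354) (nat_lit 0) (.e (nat_lit 5907) (nat_lit 320) .nil))))))) (.g (nat_lit 4) .nil .nil))) 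
(.lf (nat_lit 28910) (.g (nat_lit 3523) (.e (nat_lit 1199) (nat_lit 88) (.e (nat_lit 65630) (nat_lit 14) (.e (nat_lit 401459) (nat_lit 13) (.e (nat_lit 483380) (nat_lit 23) (.e (nat_lit 335971) (nat_lit 0) .nil))))) .nil))) (.nd (nat_lit 5) 
(.lf (nat_lit 28894) (.g (nat_lit 3100) (.e (nat_lit 1199) (nat_lit 88) (.e (nat_lit 65630) (nat_lit 14) (.e (nat_lit 401459) (nat_lit 13) (.e (nat_lit 483373) (nat_lit 22) .nil)))) .nil)) 
(.lf (nat_lit 28926) (.g (nat_lit 3514) (.e (nat_lit 1199) (nat_lit 88) (.e (nat_lit 65630) (nat_lit 14) (.e (nat_lit 401459) (nat_lit 13) (.e (nat_lit 483387) (nat_lit 23) (.e (nat_lit 335997) (nat_lit 1) (.e (nat_lit 57870) (nat_lit 264) .nil)))))) (.g (nat_lit 6) .nil .nil)))))))) (.nd (nat_lit 1) (.nd (nat_lit 2) (.nd (nat_lit 3) (.nd (nat_lit 4) (.nd (nat_lit 5) 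
(.lf (nat_lit 28865) (.g (nat_lit 2739) (.e (nat_lit 1199) (nat_lit 88) (.e (nat_lit 65630) (nat_lit 14) (.e (nat_lit 401459) (nat_lit 13) (.e (nat_lit 483348) (nat_lit 17) .nil)))) .nil)) 
(.lf (nat_lit 28897) (.g (nat_lit 3860) (.e (nat_lit 1199) (nat_lit 88) (.e (nat_lit 65630) (nat_lit 14) (.e (nat_lit 401459) (nat_lit 13) (.e (nat_lit 483374) (nat_lit 22) (.e (nat_lit 327692) (nat_lit 1) (.e (nat_lit 8439) (nat_lit 138) .nil)))))) (.g (nat_lit 0) .nil .nil)))) (.nd (nat_lit 5) 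
(.lf (nat_lit 28881) (.g (nat_lit 2442) (.e (nat_lit 1199) (nat_lit 88) (.e (nat_lit 65630) (nat_lit 14) (.e (nat_lit 401459) (nat_lit 13) (.e (nat_lit 483363) (nat_lit 18) .nil)))) .nil)) 
(.lf (nat_lit 28913) (.g (nat_lit 2334) (.e (nat_lit 1199) (nat_lit 88) (.e (nat_lit 65630) (nat_lit 14) (.e (nat_lit 401459) (nat_lit 13) (.e (nat_lit 483381) (nat_lit 23) .nil)))) .nil)))) (.nd (nat_lit 4) (.nd (nat_lit 5) 
(.lf (nat_lit 28873) (.g (nat_lit 3140) (.e (nat_lit 1199) (nat_lit 88) (.e (nat_lit 65630) (nat_lit 14) (.e (nat_lit 401459) (nat_lit 13) (.e (nat_lit 483350) (nat_lit 17) (.e (nat_lit 7936) (nat_lit 343) (.e (nat_lit 1183) (nat_lit 87) (.e (nat_lit 57870) (nat_lit 264) .nil))))))) (.g (nat_lit 4) .nil .nil))) 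
(.lf (nat_lit 28905) (.g (nat_lit 3452) (.e (nat_lit 1199) (nat_lit 88) (.e (nat_lit 65630) (nat_lit 14) (.e (nat_lit 401459) (nat_lit 13) (.e (nat_lit 483380) (nat_lit 23) (.e (nat_lit 335873) (nat_lit 0) .nil))))) .nil))) (.nd (nat_lit 5) 
(.lf (nat_lit 28889) (.g (nat_lit 5731) (.e (nat_lit 1199) (nat_lit 88) (.e (nat_lit 65630) (nat_lit 14) (.e (nat_lit 401459) (nat_lit 13) (.e (nat_lit 483372) (nat_lit 21) (.e (nat_lit 319494) (nat_lit 0) .nil))))) .nil)) 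
(.lf (nat_lit 28921) (.g (nat_lit 2271) (.e (nat_lit 1199) (nat_lit 88) (.e (nat_lit 65630) (nat_lit 14) (.e (nat_lit 401459) (nat_lit 13) (.e (nat_lit 483386) (nat_lit 23) (.e (nat_lit 335985) (nat_lit 1) (.e (nat_lit 57871) (nat_lit 264) .nil)))))) (.g (nat_lit 5) .nil .nil)))))) (.nd (nat_lit 3) (.nd (nat_lit 4) (.nd (nat_lit 5) 
(.lf (nat_lit 28869) (.g (nat_lit 3643) (.e (nat_lit 1199) (nat_lit 88) (.e (nat_lit 65630) (nat_lit 14) (.e (nat_lit 401459) (nat_lit 13) (.e (nat_lit 483350) (nat_lit 17) (.e (nat_lit 6113) (nat_lit 332) (.e (nat_lit 2538) (nat_lit 158) (.e (nat_lit 8439) (nat_lit 138) .nil))))))) (.g (nat_lit 5) .nil .nil))) 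
(.lf (nat_lit 28901) (.g (nat_lit 3168) (.e (nat_lit 1199) (nat_lit 88) (.e (nat_lit 65630) (nat_lit 14) (.e (nat_lit 401459) (nat_lit 13) (.e (nat_lit 483378) (nat_lit 23) (.e (nat_lit 335997) (nat_lit 1) (.e (nat_lit 57870) (nat_lit 264) .nil)))))) (.g (nat_lit 0) .nil .nil)))) (.nd (nat_lit 5) 
(.lf (nat_lit 28885) (.g (nat_lit 3105) (.e (nat_lit 1199) (nat_lit 88) (.e (nat_lit 65630) (nat_lit 14) (.e (nat_lit 401459) (nat_lit 13) (.e (nat_lit 483365) (nat_lit 18) .nil)))) .nil)) 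
(.lf (nat_lit 28917) (.g (nat_lit 4018) (.e (nat_lit 1199) (nat_lit 88) (.e (nat_lit 65630) (nat_lit 14) (.e (nat_lit 401459) (nat_lit 13) (.e (nat_lit 483383) (nat_lit 23) (.e (nat_lit 336000) (nat_lit 1) (.e (nat_lit 57873) (nat_lit 264) .nil)))))) (.g (nat_lit 5) .nil .nil))))) (.nd (nat_lit 4) (.nd (nat_lit 5) 
(.lf (nat_lit 28877) (.g (nat_lit 3100) (.e (nat_lit 1199) (nat_lit 88) (.e (nat_lit 65630) (nat_lit 14) (.e (nat_lit 401459) (nat_lit 13) (.e (nat_lit 483354) (nat_lit 17) (.e (nat_lit 7936) (nat_lit 346) (.e (nat_lit 57354) (nat_lit 0) (.e (nat_lit 5905) (nat_lit 320) .nil))))))) (.g (nat_lit 4) .nil .nil))) 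
(.lf (nat_lit 28909) (.g (nat_lit 3517) (.e (nat_lit 1199) (nat_lit 88) (.e (nat_lit 65630) (nat_lit 14) (.e (nat_lit 401459) (nat_lit 13) (.e (nat_lit 483380) (nat_lit 23) (.e (nat_lit 335969) (nat_lit 0) .nil))))) .nil))) (.nd (nat_lit 5) 
(.lf (nat_lit 28893) (.g (nat_lit 4203) (.e (nat_lit 1199) (nat_lit 88) (.e (nat_lit 65630) (nat_lit 14) (.e (nat_lit 401459) (nat_lit 13) (.e (nat_lit 483372) (nat_lit 21) (.e (nat_lit 319516) (nat_lit 11) (.e (nat_lit 8484) (nat_lit 168) .nil)))))) (.g (nat_lit 4) .nil .nil))) 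
(.lf (nat_lit 28925) (.g (nat_lit 1681) (.e (nat_lit 1199) (nat_lit 88) (.e (nat_lit 65630) (nat_lit 14) (.e (nat_lit 401459) (nat_lit 13) (.e (nat_lit 483386) (nat_lit 23) (.e (nat_lit 335992) (nat_lit 1) (.e (nat_lit 57872) (nat_lit 264) .nil)))))) (.g (nat_lit 4) .nil .nil))))))) (.nd (nat_lit 2) (.nd (nat_lit 3) (.nd (nat_lit 4) (.nd (nat_lit 5) 
(.lf (nat_lit 28867) (.g (nat_lit 3188) (.e (nat_lit 1199) (nat_lit 88) (.e (nat_lit 65630) (nat_lit 14) (.e (nat_lit 401459) (nat_lit 13) (.e (nat_lit 483350) (nat_lit 17) (.e (nat_lit 6097) (nat_lit 332) (.e (nat_lit 2538) (nat_lit 158) (.e (nat_lit 8439) (nat_lit 138) .nil))))))) (.g (nat_lit 4) .nil .nil))) 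
(.lf (nat_lit 28899) (.g (nat_lit 3632) (.e (nat_lit 1199) (nat_lit 88) (.e (nat_lit 65630) (nat_lit 14) (.e (nat_lit 401459) (nat_lit 13) (.e (nat_lit 483375) (nat_lit 22) (.e (nat_lit 327692) (nat_lit 1) (.e (nat_lit 8439) (nat_lit 138) .nil)))))) (.g (nat_lit 0) .nil .nil)))) (.nd (nat_lit 5) 
(.lf (nat_lit 28883) (.g (nat_lit 2393) (.e (nat_lit 1199) (nat_lit 88) (.e (nat_lit 65630) (nat_lit 14) (.e (nat_lit 401459) (nat_lit 13) (.e (nat_lit 483364) (nat_lit 18) .nil)))) .nil)) 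
(.lf (nat_lit 28915) (.g (nat_lit 3332) (.e (nat_lit 1199) (nat_lit 88) (.e (nat_lit 65630) (nat_lit 14) (.e (nat_lit 401459) (nat_lit 13) (.e (nat_lit 483383) (nat_lit 23) (.e (nat_lit 336000) (nat_lit 1) .nil))))) .nil)))) (.nd (nat_lit 4) (.nd (nat_lit 5) 
(.lf (nat_lit 28875) (.g (nat_lit 3105) (.e (nat_lit 1199) (nat_lit 88) (.e (nat_lit 65630) (nat_lit 14) (.e (nat_lit 401459) (nat_lit 13) (.e (nat_lit 483351) (nat_lit 17) .nil)))) .nil)) 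
(.lf (nat_lit 28907) (.g (nat_lit 3449) (.e (nat_lit 1199) (nat_lit 88) (.e (nat_lit 65630) (nat_lit 14) (.e (nat_lit 401459) (nat_lit 13) (.e (nat_lit 483380) (nat_lit 23) (.e (nat_lit 335883) (nat_lit 0) .nil))))) .nil))) (.nd (nat_lit 5) 
(.lf (nat_lit 28891) (.g (nat_lit 4208) (.e (nat_lit 1199) (nat_lit 88) (.e (nat_lit 65630) (nat_lit 14) (.e (nat_lit 401459) (nat_lit 13) (.e (nat_lit 483372) (nat_lit 21) (.e (nat_lit 327424) (nat_lit 1) (.e (nat_lit 8439) (nat_lit 138) .nil)))))) (.g (nat_lit 4) .nil .nil))) 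
(.lf (nat_lit 28923) (.g (nat_lit 1781) (.e (nat_lit 1199) (nat_lit 88) (.e (nat_lit 65630) (nat_lit 14) (.e (nat_lit 401459) (nat_lit 13) (.e (nat_lit 483386) (nat_lit 23) (.e (nat_lit 335991) (nat_lit 1) .nil))))) .nil))))) (.nd (nat_lit 3) (.nd (nat_lit 4) (.nd (nat_lit 5) 
(.lf (nat_lit 28871) (.g (nat_lit 3017) (.e (nat_lit 1199) (nat_lit 88) (.e (nat_lit 65630) (nat_lit 14) (.e (nat_lit 401459) (nat_lit 13) (.e (nat_lit 483350) (nat_lit 17) (.e (nat_lit 6490) (nat_lit 343) .nil))))) .nil)) 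
(.lf (nat_lit 28903) (.g (nat_lit 3247) (.e (nat_lit 1199) (nat_lit 88) (.e (nat_lit 65630) (nat_lit 14) (.e (nat_lit 401459) (nat_lit 13) (.e (nat_lit 483378) (nat_lit 23) (.e (nat_lit 335997) (nat_lit 1) (.e (nat_lit 57872) (nat_lit 264) .nil)))))) (.g (nat_lit 0) .nil .nil)))) (.nd (nat_lit 5) 
(.lf (nat_lit 28887) (.g (nat_lit 3820) (.e (nat_lit 1199) (nat_lit 88) (.e (nat_lit 65630) (nat_lit 14) (.e (nat_lit 401459) (nat_lit 13) (.e (nat_lit 483371) (nat_lit 21) (.e (nat_lit 319516) (nat_lit 11) (.e (nat_lit 8484) (nat_lit 168) .nil)))))) (.g (nat_lit 4) .nil .nil))) 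
(.lf (nat_lit 28919) (.g (nat_lit 1741) (.e (nat_lit 1199) (nat_lit 88) (.e (nat_lit 65630) (nat_lit 14) (.e (nat_lit 401459) (nat_lit 13) (.e (nat_lit 483386) (nat_lit 23) (.e (nat_lit 335901) (nat_lit 0) .nil))))) .nil)))) (.nd (nat_lit 4) (.nd (nat_lit 5) 
(.lf (nat_lit 28879) (.g (nat_lit 3105) (.e (nat_lit 1199) (nat_lit 88) (.e (nat_lit 65630) (nat_lit 14) (.e (nat_lit 401459) (nat_lit 13) (.e (nat_lit 483355) (nat_lit 17) .nil)))) .nil)) 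
(.lf (nat_lit 28911) (.g (nat_lit 3535) (.e (nat_lit 1199) (nat_lit 88) (.e (nat_lit 65630) (nat_lit 14) (.e (nat_lit 401459) (nat_lit 13) (.e (nat_lit 483380) (nat_lit 23) (.e (nat_lit 335973) (nat_lit 0) .nil))))) .nil))) (.nd (nat_lit 5) 
(.lf (nat_lit 28895) (.g (nat_lit 2544) (.e (nat_lit 1199) (nat_lit 88) (.e (nat_lit 65630) (nat_lit 14) (.e (nat_lit 401459) (nat_lit 13) (.e (nat_lit 483374) (nat_lit 22) .nil)))) .nil)) 
(.lf (nat_lit 28927) (.g (nat_lit 3237) (.e (nat_lit 1199) (nat_lit 88) (.e (nat_lit 65630) (nat_lit 14) (.e (nat_lit 401459) (nat_lit 13) (.e (nat_lit 483387) (nat_lit 23) (.e (nat_lit 335997) (nat_lit 1) (.e (nat_lit 57871) (nat_lit 264) .nil)))))) (.g (nat_lit 5) .nil .nil)))))))))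

noncomputable def tv400 : DT := (.nd (nat_lit 0) (.nd (nat_lit 1) (.nd (nat_lit 2) (.nd (nat_lit 3) (.nd (nat_lit 4) (.nd (nat_lit 5) 
(.lf (nat_lit 28928) (.g (nat_lit 3642) (.e (nat_lit 1199) (nat_lit 88) (.e (nat_lit 65630) (nat_lit 14) (.e (nat_lit 401459) (nat_lit 13) (.e (nat_lit 483387) (nat_lit 23) (.e (nat_lit 335997) (nat_lit 1) (.e (nat_lit 57872) (nat_lit 264) .nil)))))) (.g (nat_lit 6) .nil .nil))) 
(.lf (nat_lit 28960) (.g (nat_lit 1968) (.e (nat_lit 1199) (nat_lit 88) (.e (nat_lit 65630) (nat_lit 14) (.e (nat_lit 401459) (nat_lit 13) (.e (nat_lit 483395) (nat_lit 24) (.e (nat_lit 344101) (nat_lit 18) .nil))))) .nil))) (.nd (nat_lit 5) 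
(.lf (nat_lit 28944) (.g (nat_lit 4518) (.e (nat_lit 1199) (nat_lit 88) (.e (nat_lit 65630) (nat_lit 14) (.e (nat_lit 401459) (nat_lit 13) (.e (nat_lit 483393) (nat_lit 23) (.e (nat_lit 335995) (nat_lit 1) (.e (nat_lit 57872) (nat_lit 264) .nil)))))) (.g (nat_lit 6) .nil .nil))) 
(.lf (nat_lit 28976) (.g (nat_lit 2117) (.e (nat_lit 1199) (nat_lit 88) (.e (nat_lit 65630) (nat_lit 14) (.e (nat_lit 401459) (nat_lit 13) (.e (nat_lit 483400) (nat_lit 25) .nil)))) .nil)))) (.nd (nat_lit 4) (.nd (nat_lit 5) 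
(.lf (nat_lit 28936) (.g (nat_lit 3189) (.e (nat_lit 1199) (nat_lit 88) (.e (nat_lit 65630) (nat_lit 14) (.e (nat_lit 401459) (nat_lit 13) (.e (nat_lit 483393) (nat_lit 23) (.e (nat_lit 335986) (nat_lit 1) (.e (nat_lit 57870) (nat_lit 264) .nil)))))) (.g (nat_lit 4) .nil .nil))) 
(.lf (nat_lit 28968) (.g (nat_lit 2790) (.e (nat_lit 1199) (nat_lit 88) (.e (nat_lit 65630) (nat_lit 14) (.e (nat_lit 401459) (nat_lit 13) (.e (nat_lit 483397) (nat_lit 25) .nil)))) .nil))) (.nd (nat_lit 5) 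
(.lf (nat_lit 28952) (.g (nat_lit 2596) (.e (nat_lit 1199) (nat_lit 88) (.e (nat_lit 65630) (nat_lit 14) (.e (nat_lit 401459) (nat_lit 13) (.e (nat_lit 483394) (nat_lit 24) (.e (nat_lit 344100) (nat_lit 18) (.e (nat_lit 5907) (nat_lit 320) .nil)))))) (.g (nat_lit 4) .nil .nil))) 
(.lf (nat_lit 28984) (.g (nat_lit 3187) (.e (nat_lit 1199) (nat_lit 88) (.e (nat_lit 65630) (nat_lit 14) (.e (nat_lit 401459) (nat_lit 13) (.e (nat_lit 483410) (nat_lit 27) (.e (nat_lit 401420) (nat_lit 1) .nil))))) .nil))))) (.nd (nat_lit 3) (.nd (nat_lit 4) (.nd (nat_lit 5) 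
(.lf (nat_lit 28932) (.g (nat_lit 4024) (.e (nat_lit 1199) (nat_lit 88) (.e (nat_lit 65630) (nat_lit 14) (.e (nat_lit 401459) (nat_lit 13) (.e (nat_lit 483391) (nat_lit 23) (.e (nat_lit 335998) (nat_lit 1) (.e (nat_lit 57873) (nat_lit 264) .nil)))))) (.g (nat_lit 6) .nil .nil))) 
(.lf (nat_lit 28964) (.g (nat_lit 3473) (.e (nat_lit 1199) (nat_lit 88) (.e (nat_lit 65630) (nat_lit 14) (.e (nat_lit 401459) (nat_lit 13) (.e (nat_lit 483396) (nat_lit 24) (.e (nat_lit 344097) (nat_lit 18) (.e (nat_lit 5906) (nat_lit 320) .nil)))))) (.g (nat_lit 4) .nil .nil)))) (.nd (nat_lit 5) 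
(.lf (nat_lit 28948) (.g (nat_lit 3582) (.e (nat_lit 1199) (nat_lit 88) (.e (nat_lit 65630) (nat_lit 14) (.e (nat_lit 401459) (nat_lit 13) (.e (nat_lit 483394) (nat_lit 24) (.e (nat_lit 344090) (nat_lit 18) (.e (nat_lit 5896) (nat_lit 320) .nil)))))) (.g (nat_lit 6) .nil .nil))) 
(.lf (nat_lit 28980) (.g (nat_lit 2958) (.e (nat_lit 1199) (nat_lit 88) (.e (nat_lit 65630) (nat_lit 14) (.e (nat_lit 401459) (nat_lit 13) (.e (nat_lit 483410) (nat_lit 27) (.e (nat_lit 401414) (nat_lit 0) (.e (nat_lit 2426) (nat_lit 157) (.e (nat_lit 4598) (nat_lit 269) .nil))))))) (.g (nat_lit 4) .nil .nil))))) (.nd (nat_lit 4) (.nd (nat_lit 5) 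
(.lf (nat_lit 28940) (.g (nat_lit 3019) (.e (nat_lit 1199) (nat_lit 88) (.e (nat_lit 65630) (nat_lit 14) (.e (nat_lit 401459) (nat_lit 13) (.e (nat_lit 483393) (nat_lit 23) (.e (nat_lit 335993) (nat_lit 1) .nil))))) .nil)) 
(.lf (nat_lit 28972) (.g (nat_lit 2524) (.e (nat_lit 1199) (nat_lit 88) (.e (nat_lit 65630) (nat_lit 14) (.e (nat_lit 401459) (nat_lit 13) (.e (nat_lit 483399) (nat_lit 25) (.e (nat_lit 368659) (nat_lit 18) (.e (nat_lit 5908) (nat_lit 320) .nil)))))) (.g (nat_lit 4) .nil .nil)))) (.nd (nat_lit 5) 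
(.lf (nat_lit 28956) (.g (nat_lit 2638) (.e (nat_lit 1199) (nat_lit 88) (.e (nat_lit 65630) (nat_lit 14) (.e (nat_lit 401459) (nat_lit 13) (.e (nat_lit 483395) (nat_lit 24) (.e (nat_lit 344096) (nat_lit 18) (.e (nat_lit 5896) (nat_lit 320) .nil)))))) (.g (nat_lit 5) .nil .nil))) 
(.lf (nat_lit 28988) (.g (nat_lit 4233) (.e (nat_lit 1199) (nat_lit 88) (.e (nat_lit 65630) (nat_lit 14) (.e (nat_lit 401459) (nat_lit 13) (.e (nat_lit 483410) (nat_lit 27) (.e (nat_lit 401422) (nat_lit 1) (.e (nat_lit 164423) (nat_lit 272) .nil)))))) (.g (nat_lit 0) .nil .nil))))))) (.nd (nat_lit 2) (.nd (nat_lit 3) (.nd (nat_lit 4) (.nd (nat_lit 5) 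
(.lf (nat_lit 28930) (.g (nat_lit 2343) (.e (nat_lit 1199) (nat_lit 88) (.e (nat_lit 65630) (nat_lit 14) (.e (nat_lit 401459) (nat_lit 13) (.e (nat_lit 483389) (nat_lit 23) .nil)))) .nil)) 
(.lf (nat_lit 28962) (.g (nat_lit 3224) (.e (nat_lit 1199) (nat_lit 88) (.e (nat_lit 65630) (nat_lit 14) (.e (nat_lit 401459) (nat_lit 13) (.e (nat_lit 483396) (nat_lit 24) (.e (nat_lit 344091) (nat_lit 18) .nil))))) .nil))) (.nd (nat_lit 5) 
(.lf (nat_lit 28946) (.g (nat_lit 2163) (.e (nat_lit 1199) (nat_lit 88) (.e (nat_lit 65630) (nat_lit 14) (.e (nat_lit 401459) (nat_lit 13) (.e (nat_lit 491264) (nat_lit 23) .nil)))) .nil)) 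
(.lf (nat_lit 28978) (.g (nat_lit 2031) (.e (nat_lit 1199) (nat_lit 88) (.e (nat_lit 65630) (nat_lit 14) (.e (nat_lit 401459) (nat_lit 13) (.e (nat_lit 483410) (nat_lit 27) .nil)))) .nil)))) (.nd (nat_lit 4) (.nd (nat_lit 5) 
(.lf (nat_lit 28938) (.g (nat_lit 3544) (.e (nat_lit 1199) (nat_lit 88) (.e (nat_lit 65630) (nat_lit 14) (.e (nat_lit 401459) (nat_lit 13) (.e (nat_lit 483393) (nat_lit 23) (.e (nat_lit 335986) (nat_lit 1) (.e (nat_lit 57872) (nat_lit 264) .nil)))))) (.g (nat_lit 5) .nil .nil))) 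
(.lf (nat_lit 28970) (.g (nat_lit 2343) (.e (nat_lit 1199) (nat_lit 88) (.e (nat_lit 65630) (nat_lit 14) (.e (nat_lit 401459) (nat_lit 13) (.e (nat_lit 483398) (nat_lit 25) (.e (nat_lit 368662) (nat_lit 18) (.e (nat_lit 5905) (nat_lit 320) .nil)))))) (.g (nat_lit 4) .nil .nil)))) (.nd (nat_lit 5) 
(.lf (nat_lit 28954) (.g (nat_lit 2285) (.e (nat_lit 1199) (nat_lit 88) (.e (nat_lit 65630) (nat_lit 14) (.e (nat_lit 401459) (nat_lit 13) (.e (nat_lit 483395) (nat_lit 24) (.e (nat_lit 344088) (nat_lit 18) (.e (nat_lit 5896) (nat_lit 320) .nil)))))) (.g (nat_lit 4) .nil .nil))) 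
(.lf (nat_lit 28986) (.g (nat_lit 3260) (.e (nat_lit 1199) (nat_lit 88) (.e (nat_lit 65630) (nat_lit 14) (.e (nat_lit 401459) (nat_lit 13) (.e (nat_lit 483410) (nat_lit 27) (.e (nat_lit 401422) (nat_lit 1) (.e (nat_lit 164421) (nat_lit 272) .nil)))))) (.g (nat_lit 4) .nil .nil)))))) (.nd (nat_lit 3) (.nd (nat_lit 4) (.nd (nat_lit 5) 
(.lf (nat_lit 28934) (.g (nat_lit 3395) (.e (nat_lit 1199) (nat_lit 88) (.e (nat_lit 65630) (nat_lit 14) (.e (nat_lit 401459) (nat_lit 13) (.e (nat_lit 483392) (nat_lit 23) (.e (nat_lit 335995) (nat_lit 1) (.e (nat_lit 57870) (nat_lit 264) .nil)))))) (.g (nat_lit 4) .nil .nil))) 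
(.lf (nat_lit 28966) (.g (nat_lit 3361) (.e (nat_lit 1199) (nat_lit 88) (.e (nat_lit 65630) (nat_lit 14) (.e (nat_lit 401459) (nat_lit 13) (.e (nat_lit 483396) (nat_lit 24) (.e (nat_lit 344100) (nat_lit 18) (.e (nat_lit 5906) (nat_lit 320) .nil)))))) (.g (nat_lit 4) .nil .nil)))) (.nd (nat_lit 5) 
(.lf (nat_lit 28950) (.g (nat_lit 3983) (.e (nat_lit 1199) (nat_lit 88) (.e (nat_lit 65630) (nat_lit 14) (.e (nat_lit 401459) (nat_lit 13) (.e (nat_lit 483394) (nat_lit 24) (.e (nat_lit 344097) (nat_lit 18) (.e (nat_lit 5907) (nat_lit 320) .nil)))))) (.g (nat_lit 0) .nil .nil))) 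
(.lf (nat_lit 28982) (.g (nat_lit 3188) (.e (nat_lit 1199) (nat_lit 88) (.e (nat_lit 65630) (nat_lit 14) (.e (nat_lit 401459) (nat_lit 13) (.e (nat_lit 483410) (nat_lit 27) (.e (nat_lit 401417) (nat_lit 0) .nil))))) .nil)))) (.nd (nat_lit 4) (.nd (nat_lit 5) 
(.lf (nat_lit 28942) (.g (nat_lit 2834) (.e (nat_lit 1199) (nat_lit 88) (.e (nat_lit 65630) (nat_lit 14) (.e (nat_lit 401459) (nat_lit 13) (.e (nat_lit 483393) (nat_lit 23) (.e (nat_lit 335995) (nat_lit 1) .nil))))) .nil)) 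
(.lf (nat_lit 28974) (.g (nat_lit 3642) (.e (nat_lit 1199) (nat_lit 88) (.e (nat_lit 65630) (nat_lit 14) (.e (nat_lit 401459) (nat_lit 13) (.e (nat_lit 483399) (nat_lit 25) (.e (nat_lit 368662) (nat_lit 18) (.e (nat_lit 5907) (nat_lit 320) .nil)))))) (.g (nat_lit 0) .nil .nil)))) (.nd (nat_lit 5) 
(.lf (nat_lit 28958) (.g (nat_lit 3703) (.e (nat_lit 1199) (nat_lit 88) (.e (nat_lit 65630) (nat_lit 14) (.e (nat_lit 401459) (nat_lit 13) (.e (nat_lit 483395) (nat_lit 24) (.e (nat_lit 344097) (nat_lit 18) (.e (nat_lit 5907) (nat_lit 320) .nil)))))) (.g (nat_lit 0) .nil .nil))) 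
(.lf (nat_lit 28990) (.g (nat_lit 2937) (.e (nat_lit 1199) (nat_lit 88) (.e (nat_lit 65630) (nat_lit 14) (.e (nat_lit 401459) (nat_lit 13) (.e (nat_lit 483411) (nat_lit 27) (.e (nat_lit 401408) (nat_lit 0) .nil))))) .nil))))))) (.nd (nat_lit 1) (.nd (nat_lit 2) (.nd (nat_lit 3) (.nd (nat_lit 4) (.nd (nat_lit 5) 
(.lf (nat_lit 28929) (.g (nat_lit 2787) (.e (nat_lit 1199) (nat_lit 88) (.e (nat_lit 65630) (nat_lit 14) (.e (nat_lit 401459) (nat_lit 13) (.e (nat_lit 483388) (nat_lit 23) .nil)))) .nil)) 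
(.lf (nat_lit 28961) (.g (nat_lit 2506) (.e (nat_lit 1199) (nat_lit 88) (.e (nat_lit 65630) (nat_lit 14) (.e (nat_lit 401459) (nat_lit 13) (.e (nat_lit 483396) (nat_lit 24) .nil)))) .nil))) (.nd (nat_lit 5) 
(.lf (nat_lit 28945) (.g (nat_lit 4536) (.e (nat_lit 1199) (nat_lit 88) (.e (nat_lit 65630) (nat_lit 14) (.e (nat_lit 401459) (nat_lit 13) (.e (nat_lit 483393) (nat_lit 23) (.e (nat_lit 335996) (nat_lit 1) (.e (nat_lit 57870) (nat_lit 264) .nil)))))) (.g (nat_lit 6) .nil .nil))) 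
(.lf (nat_lit 28977) (.g (nat_lit 2530) (.e (nat_lit 1199) (nat_lit 88) (.e (nat_lit 65630) (nat_lit 14) (.e (nat_lit 401459) (nat_lit 13) (.e (nat_lit 483409) (nat_lit 27) .nil)))) .nil)))) (.nd (nat_lit 4) (.nd (nat_lit 5) 
(.lf (nat_lit 28937) (.g (nat_lit 3517) (.e (nat_lit 1199) (nat_lit 88) (.e (nat_lit 65630) (nat_lit 14) (.e (nat_lit 401459) (nat_lit 13) (.e (nat_lit 483393) (nat_lit 23) (.e (nat_lit 335986) (nat_lit 1) (.e (nat_lit 57871) (nat_lit 264) .nil)))))) (.g (nat_lit 5) .nil .nil))) 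
(.lf (nat_lit 28969) (.g (nat_lit 1637) (.e (nat_lit 1199) (nat_lit 88) (.e (nat_lit 65630) (nat_lit 14) (.e (nat_lit 401459) (nat_lit 13) (.e (nat_lit 483398) (nat_lit 25) .nil)))) .nil))) (.nd (nat_lit 5) 
(.lf (nat_lit 28953) (.g (nat_lit 1065) (.e (nat_lit 1199) (nat_lit 88) (.e (nat_lit 65630) (nat_lit 14) (.e (nat_lit 401459) (nat_lit 13) (.e (nat_lit 483395) (nat_lit 24) .nil)))) .nil)) 
(.lf (nat_lit 28985) (.g (nat_lit 2985) (.e (nat_lit 1199) (nat_lit 88) (.e (nat_lit 65630) (nat_lit 14) (.e (nat_lit 401459) (nat_lit 13) (.e (nat_lit 483410) (nat_lit 27) (.e (nat_lit 401422) (nat_lit 1) .nil))))) .nil))))) (.nd (nat_lit 3) (.nd (nat_lit 4) (.nd (nat_lit 5) 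
(.lf (nat_lit 28933) (.g (nat_lit 2643) (.e (nat_lit 1199) (nat_lit 88) (.e (nat_lit 65630) (nat_lit 14) (.e (nat_lit 401459) (nat_lit 13) (.e (nat_lit 483392) (nat_lit 23) .nil)))) .nil)) 
(.lf (nat_lit 28965) (.g (nat_lit 3655) (.e (nat_lit 1199) (nat_lit 88) (.e (nat_lit 65630) (nat_lit 14) (.e (nat_lit 401459) (nat_lit 13) (.e (nat_lit 483396) (nat_lit 24) (.e (nat_lit 344097) (nat_lit 18) (.e (nat_lit 5907) (nat_lit 320) .nil)))))) (.g (nat_lit 4) .nil .nil)))) (.nd (nat_lit 5) 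
(.lf (nat_lit 28949) (.g (nat_lit 3728) (.e (nat_lit 1199) (nat_lit 88) (.e (nat_lit 65630) (nat_lit 14) (.e (nat_lit 401459) (nat_lit 13) (.e (nat_lit 483394) (nat_lit 24) (.e (nat_lit 344097) (nat_lit 18) (.e (nat_lit 5906) (nat_lit 320) .nil)))))) (.g (nat_lit 0) .nil .nil))) 
(.lf (nat_lit 28981) (.g (nat_lit 3188) (.e (nat_lit 1199) (nat_lit 88) (.e (nat_lit 65630) (nat_lit 14) (.e (nat_lit 401459) (nat_lit 13) (.e (nat_lit 483410) (nat_lit 27) (.e (nat_lit 401416) (nat_lit 0) .nil))))) .nil)))) (.nd (nat_lit 4) (.nd (nat_lit 5) 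
(.lf (nat_lit 28941) (.g (nat_lit 3021) (.e (nat_lit 1199) (nat_lit 88) (.e (nat_lit 65630) (nat_lit 14) (.e (nat_lit 401459) (nat_lit 13) (.e (nat_lit 483393) (nat_lit 23) (.e (nat_lit 335994) (nat_lit 1) .nil))))) .nil)) 
(.lf (nat_lit 28973) (.g (nat_lit 3820) (.e (nat_lit 1199) (nat_lit 88) (.e (nat_lit 65630) (nat_lit 14) (.e (nat_lit 401459) (nat_lit 13) (.e (nat_lit 483399) (nat_lit 25) (.e (nat_lit 368662) (nat_lit 18) (.e (nat_lit 5906) (nat_lit 320) .nil)))))) (.g (nat_lit 6) .nil .nil)))) (.nd (nat_lit 5) 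
(.lf (nat_lit 28957) (.g (nat_lit 3470) (.e (nat_lit 1199) (nat_lit 88) (.e (nat_lit 65630) (nat_lit 14) (.e (nat_lit 401459) (nat_lit 13) (.e (nat_lit 483395) (nat_lit 24) (.e (nat_lit 344097) (nat_lit 18) (.e (nat_lit 5906) (nat_lit 320) .nil)))))) (.g (nat_lit 0) .nil .nil))) 
(.lf (nat_lit 28989) (.g (nat_lit 2070) (.e (nat_lit 1199) (nat_lit 88) (.e (nat_lit 65630) (nat_lit 14) (.e (nat_lit 401459) (nat_lit 13) (.e (nat_lit 483411) (nat_lit 27) .nil)))) .nil)))))) (.nd (nat_lit 2) (.nd (nat_lit 3) (.nd (nat_lit 4) (.nd (nat_lit 5) 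
(.lf (nat_lit 28931) (.g (nat_lit 2136) (.e (nat_lit 1199) (nat_lit 88) (.e (nat_lit 65630) (nat_lit 14) (.e (nat_lit 401459) (nat_lit 13) (.e (nat_lit 483391) (nat_lit 23) .nil)))) .nil)) 
(.lf (nat_lit 28963) (.g (nat_lit 3298) (.e (nat_lit 1199) (nat_lit 88) (.e (nat_lit 65630) (nat_lit 14) (.e (nat_lit 401459) (nat_lit 13) (.e (nat_lit 483396) (nat_lit 24) (.e (nat_lit 344097) (nat_lit 18) .nil))))) .nil))) (.nd (nat_lit 5) 
(.lf (nat_lit 28947) (.g (nat_lit 1137) (.e (nat_lit 1199) (nat_lit 88) (.e (nat_lit 65630) (nat_lit 14) (.e (nat_lit 401459) (nat_lit 13) (.e (nat_lit 483394) (nat_lit 24) .nil)))) .nil)) 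
(.lf (nat_lit 28979) (.g (nat_lit 2832) (.e (nat_lit 1199) (nat_lit 88) (.e (nat_lit 65630) (nat_lit 14) (.e (nat_lit 401459) (nat_lit 13) (.e (nat_lit 483410) (nat_lit 27) (.e (nat_lit 401414) (nat_lit 0) .nil))))) .nil)))) (.nd (nat_lit 4) (.nd (nat_lit 5) 
(.lf (nat_lit 28939) (.g (nat_lit 4081) (.e (nat_lit 1199) (nat_lit 88) (.e (nat_lit 65630) (nat_lit 14) (.e (nat_lit 401459) (nat_lit 13) (.e (nat_lit 483393) (nat_lit 23) (.e (nat_lit 335988) (nat_lit 1) (.e (nat_lit 57870) (nat_lit 264) .nil)))))) (.g (nat_lit 5) .nil .nil))) 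
(.lf (nat_lit 28971) (.g (nat_lit 1812) (.e (nat_lit 1199) (nat_lit 88) (.e (nat_lit 65630) (nat_lit 14) (.e (nat_lit 401459) (nat_lit 13) (.e (nat_lit 483399) (nat_lit 25) .nil)))) .nil))) (.nd (nat_lit 5) 
(.lf (nat_lit 28955) (.g (nat_lit 4008) (.e (nat_lit 1199) (nat_lit 88) (.e (nat_lit 65630) (nat_lit 14) (.e (nat_lit 401459) (nat_lit 13) (.e (nat_lit 483395) (nat_lit 24) (.e (nat_lit 344090) (nat_lit 18) (.e (nat_lit 5896) (nat_lit 320) .nil)))))) (.g (nat_lit 0) .nil .nil))) 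
(.lf (nat_lit 28987) (.g (nat_lit 3049) (.e (nat_lit 1199) (nat_lit 88) (.e (nat_lit 65630) (nat_lit 14) (.e (nat_lit 401459) (nat_lit 13) (.e (nat_lit 483410) (nat_lit 27) (.e (nat_lit 401422) (nat_lit 1) (.e (nat_lit 164422) (nat_lit 272) .nil)))))) (.g (nat_lit 4) .nil .nil)))))) (.nd (nat_lit 3) (.nd (nat_lit 4) (.nd (nat_lit 5) 
(.lf (nat_lit 28935) (.g (nat_lit 2247) (.e (nat_lit 1199) (nat_lit 88) (.e (nat_lit 65630) (nat_lit 14) (.e (nat_lit 401459) (nat_lit 13) (.e (nat_lit 483393) (nat_lit 23) .nil)))) .nil)) 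
(.lf (nat_lit 28967) (.g (nat_lit 3848) (.e (nat_lit 1199) (nat_lit 88) (.e (nat_lit 65630) (nat_lit 14) (.e (nat_lit 401459) (nat_lit 13) (.e (nat_lit 483396) (nat_lit 24) (.e (nat_lit 344100) (nat_lit 18) (.e (nat_lit 5907) (nat_lit 320) .nil)))))) (.g (nat_lit 5) .nil .nil)))) (.nd (nat_lit 5) 
(.lf (nat_lit 28951) (.g (nat_lit 2104) (.e (nat_lit 1199) (nat_lit 88) (.e (nat_lit 65630) (nat_lit 14) (.e (nat_lit 401459) (nat_lit 13) (.e (nat_lit 483394) (nat_lit 24) (.e (nat_lit 344100) (nat_lit 18) (.e (nat_lit 5906) (nat_lit 320) .nil)))))) (.g (nat_lit 4) .nil .nil))) 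
(.lf (nat_lit 28983) (.g (nat_lit 3170) (.e (nat_lit 1199) (nat_lit 88) (.e (nat_lit 65630) (nat_lit 14) (.e (nat_lit 401459) (nat_lit 13) (.e (nat_lit 483410) (nat_lit 27) (.e (nat_lit 401418) (nat_lit 0) .nil))))) .nil)))) (.nd (nat_lit 4) (.nd (nat_lit 5) 
(.lf (nat_lit 28943) (.g (nat_lit 3865) (.e (nat_lit 1199) (nat_lit 88) (.e (nat_lit 65630) (nat_lit 14) (.e (nat_lit 401459) (nat_lit 13) (.e (nat_lit 483393) (nat_lit 23) (.e (nat_lit 335995) (nat_lit 1) (.e (nat_lit 57870) (nat_lit 264) .nil)))))) (.g (nat_lit 5) .nil .nil))) 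
(.lf (nat_lit 28975) (.g (nat_lit 2370) (.e (nat_lit 1199) (nat_lit 88) (.e (nat_lit 65630) (nat_lit 14) (.e (nat_lit 401459) (nat_lit 13) (.e (nat_lit 483399) (nat_lit 25) (.e (nat_lit 368663) (nat_lit 18) .nil))))) .nil))) (.nd (nat_lit 5) 
(.lf (nat_lit 28959) (.g (nat_lit 2056) (.e (nat_lit 1199) (nat_lit 88) (.e (nat_lit 65630) (nat_lit 14) (.e (nat_lit 401459) (nat_lit 13) (.e (nat_lit 483395) (nat_lit 24) (.e (nat_lit 344099) (nat_lit 18) .nil))))) .nil)) 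
(.lf (nat_lit 28991) (.g (nat_lit 3586) (.e (nat_lit 1199) (nat_lit 88) (.e (nat_lit 65630) (nat_lit 14) (.e (nat_lit 401459) (nat_lit 13) (.e (nat_lit 483411) (nat_lit 27) (.e (nat_lit 401408) (nat_lit 0) (.e (nat_lit 2427) (nat_lit 157) (.e (nat_lit 4598) (nat_lit 269) .nil))))))) (.g (nat_lit 4) .nil .nil)))))))))

noncomputable def tv401 : DT := (.nd (nat_lit 0) (.nd (nat_lit 1) (.nd (nat_lit 2) (.nd (nat_lit 3) (.nd (nat_lit 4) (.nd (nat_lit 5) 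
(.lf (nat_lit 28992) (.g (nat_lit 3071) (.e (nat_lit 1199) (nat_lit 88) (.e (nat_lit 65630) (nat_lit 14) (.e (nat_lit 401459) (nat_lit 13) (.e (nat_lit 483411) (nat_lit 27) (.e (nat_lit 401408) (nat_lit 0) (.e (nat_lit 2449) (nat_lit 157) (.e (nat_lit 4598) (nat_lit 269) .nil))))))) (.g (nat_lit 4) .nil .nil))) 
(.lf (nat_lit 29024) (.g (nat_lit 2879) (.e (nat_lit 1200) (nat_lit 88) (.e (nat_lit 65568) (nat_lit 2) (.e (nat_lit 90170) (nat_lit 13) (.e (nat_lit 172106) (nat_lit 10) (.e (nat_lit 434231) (nat_lit 23) (.e (nat_lit 540416) (nat_lit 18) (.e (nat_lit 164164) (nat_lit 152) .nil))))))) (.g (nat_lit 5) .nil .nil)))) (.nd (nat_lit 5) 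
(.lf (nat_lit 29008) (.g (nat_lit 3397) (.e (nat_lit 1199) (nat_lit 88) (.e (nat_lit 65630) (nat_lit 14) (.e (nat_lit 401459) (nat_lit 13) (.e (nat_lit 483411) (nat_lit 27) (.e (nat_lit 401418) (nat_lit 0) .nil))))) .nil)) 
(.lf (nat_lit 29040) (.g (nat_lit 4398) (.e (nat_lit 1200) (nat_lit 88) (.e (nat_lit 65570) (nat_lit 3) (.e (nat_lit 98373) (nat_lit 29) (.e (nat_lit 450588) (nat_lit 10) (.e (nat_lit 573473) (nat_lit 12) (.e (nat_lit 57348) (nat_lit 0) (.e (nat_lit 7236) (nat_lit 382) .nil))))))) (.g (nat_lit 6) .nil .nil))))) (.nd (nat_lit 4) (.nd (nat_lit 5) 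
(.lf (nat_lit 29000) (.g (nat_lit 3268) (.e (nat_lit 1199) (nat_lit 88) (.e (nat_lit 65630) (nat_lit 14) (.e (nat_lit 401459) (nat_lit 13) (.e (nat_lit 483411) (nat_lit 27) (.e (nat_lit 401414) (nat_lit 0) (.e (nat_lit 2446) (nat_lit 157) (.e (nat_lit 4598) (nat_lit 269) .nil))))))) (.g (nat_lit 4) .nil .nil))) 
(.lf (nat_lit 29032) (.g (nat_lit 1870) (.e (nat_lit 1200) (nat_lit 88) (.e (nat_lit 65568) (nat_lit 2) (.e (nat_lit 90170) (nat_lit 13) (.e (nat_lit 172106) (nat_lit 10) (.e (nat_lit 434244) (nat_lit 28) (.e (nat_lit 573468) (nat_lit 10) (.e (nat_lit 8202) (nat_lit 0) (.e (nat_lit 4490) (nat_lit 263) .nil)))))))) (.g (nat_lit 4) .nil .nil)))) (.nd (nat_lit 5) 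
(.lf (nat_lit 29016) (.g (nat_lit 3645) (.e (nat_lit 1200) (nat_lit 88) (.e (nat_lit 65566) (nat_lit 2) (.e (nat_lit 90170) (nat_lit 13) (.e (nat_lit 172106) (nat_lit 10) (.e (nat_lit 434231) (nat_lit 23) (.e (nat_lit 532500) (nat_lit 1) (.e (nat_lit 65280) (nat_lit 221) .nil))))))) (.g (nat_lit 5) .nil .nil))) 
(.lf (nat_lit 29048) (.g (nat_lit 2240) (.e (nat_lit 1200) (nat_lit 88) (.e (nat_lit 65571) (nat_lit 3) (.e (nat_lit 98359) (nat_lit 26) (.e (nat_lit 426286) (nat_lit 10) (.e (nat_lit 434245) (nat_lit 28) (.e (nat_lit 573474) (nat_lit 12) (.e (nat_lit 57348) (nat_lit 0) (.e (nat_lit 7236) (nat_lit 382) .nil)))))))) (.g (nat_lit 4) .nil .nil)))))) (.nd (nat_lit 3) (.nd (nat_lit 4) (.nd (nat_lit 5) 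
(.lf (nat_lit 28996) (.g (nat_lit 4176) (.e (nat_lit 1199) (nat_lit 88) (.e (nat_lit 65630) (nat_lit 14) (.e (nat_lit 401459) (nat_lit 13) (.e (nat_lit 483411) (nat_lit 27) (.e (nat_lit 401414) (nat_lit 0) (.e (nat_lit 2426) (nat_lit 157) (.e (nat_lit 4598) (nat_lit 269) .nil))))))) (.g (nat_lit 5) .nil .nil))) 
(.lf (nat_lit 29028) (.g (nat_lit 2405) (.e (nat_lit 1200) (nat_lit 88) (.e (nat_lit 65568) (nat_lit 2) (.e (nat_lit 90170) (nat_lit 13) (.e (nat_lit 172106) (nat_lit 10) (.e (nat_lit 434244) (nat_lit 28) (.e (nat_lit 573468) (nat_lit 10) (.e (nat_lit 8193) (nat_lit 0) (.e (nat_lit 4450) (nat_lit 263) .nil)))))))) (.g (nat_lit 5) .nil .nil)))) (.nd (nat_lit 5) 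
(.lf (nat_lit 29012) (.g (nat_lit 3058) (.e (nat_lit 1199) (nat_lit 88) (.e (nat_lit 65630) (nat_lit 14) (.e (nat_lit 401459) (nat_lit 13) (.e (nat_lit 483411) (nat_lit 27) (.e (nat_lit 401422) (nat_lit 1) .nil))))) .nil)) 
(.lf (nat_lit 29044) (.g (nat_lit 4771) (.e (nat_lit 1200) (nat_lit 88) (.e (nat_lit 65570) (nat_lit 3) (.e (nat_lit 98373) (nat_lit 29) (.e (nat_lit 450588) (nat_lit 10) (.e (nat_lit 573475) (nat_lit 12) (.e (nat_lit 57346) (nat_lit 0) (.e (nat_lit 7136) (nat_lit 382) .nil))))))) (.g (nat_lit 6) .nil .nil))))) (.nd (nat_lit 4) (.nd (nat_lit 5) 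
(.lf (nat_lit 29004) (.g (nat_lit 3177) (.e (nat_lit 1199) (nat_lit 88) (.e (nat_lit 65630) (nat_lit 14) (.e (nat_lit 401459) (nat_lit 13) (.e (nat_lit 483411) (nat_lit 27) (.e (nat_lit 401414) (nat_lit 0) (.e (nat_lit 2478) (nat_lit 157) (.e (nat_lit 4607) (nat_lit 269) .nil))))))) (.g (nat_lit 4) .nil .nil))) 
(.lf (nat_lit 29036) (.g (nat_lit 2129) (.e (nat_lit 1200) (nat_lit 88) (.e (nat_lit 65569) (nat_lit 3) (.e (nat_lit 98372) (nat_lit 29) (.e (nat_lit 450579) (nat_lit 5) (.e (nat_lit 532504) (nat_lit 1) (.e (nat_lit 65280) (nat_lit 221) .nil)))))) (.g (nat_lit 4) .nil .nil)))) (.nd (nat_lit 5) 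
(.lf (nat_lit 29020) (.g (nat_lit 3809) (.e (nat_lit 1200) (nat_lit 88) (.e (nat_lit 65568) (nat_lit 2) (.e (nat_lit 90170) (nat_lit 13) (.e (nat_lit 172106) (nat_lit 10) (.e (nat_lit 434231) (nat_lit 23) (.e (nat_lit 532490) (nat_lit 0) (.e (nat_lit 990) (nat_lit 81) (.e (nat_lit 4500) (nat_lit 263) .nil)))))))) (.g (nat_lit 6) .nil .nil))) 
(.lf (nat_lit 29052) (.g (nat_lit 3059) (.e (nat_lit 1200) (nat_lit 88) (.e (nat_lit 65571) (nat_lit 3) (.e (nat_lit 98372) (nat_lit 29) (.e (nat_lit 450579) (nat_lit 5) (.e (nat_lit 532501) (nat_lit 1) (.e (nat_lit 65280) (nat_lit 221) .nil)))))) (.g (nat_lit 5) .nil .nil))))))) (.nd (nat_lit 2) (.nd (nat_lit 3) (.nd (nat_lit 4) (.nd (nat_lit 5) 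
(.lf (nat_lit 28994) (.g (nat_lit 3151) (.e (nat_lit 1199) (nat_lit 88) (.e (nat_lit 65630) (nat_lit 14) (.e (nat_lit 401459) (nat_lit 13) (.e (nat_lit 483411) (nat_lit 27) (.e (nat_lit 401414) (nat_lit 0) (.e (nat_lit 2416) (nat_lit 157) (.e (nat_lit 4598) (nat_lit 269) .nil))))))) (.g (nat_lit 4) .nil .nil))) 
(.lf (nat_lit 29026) (.g (nat_lit 2862) (.e (nat_lit 1200) (nat_lit 88) (.e (nat_lit 65568) (nat_lit 2) (.e (nat_lit 90170) (nat_lit 13) (.e (nat_lit 172106) (nat_lit 10) (.e (nat_lit 434231) (nat_lit 23) (.e (nat_lit 540416) (nat_lit 18) (.e (nat_lit 164167) (nat_lit 152) .nil))))))) (.g (nat_lit 5) .nil .nil)))) (.nd (nat_lit 5) 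
(.lf (nat_lit 29010) (.g (nat_lit 3493) (.e (nat_lit 1199) (nat_lit 88) (.e (nat_lit 65630) (nat_lit 14) (.e (nat_lit 401459) (nat_lit 13) (.e (nat_lit 483411) (nat_lit 27) (.e (nat_lit 401420) (nat_lit 1) (.e (nat_lit 164423) (nat_lit 272) .nil)))))) (.g (nat_lit 5) .nil .nil))) 
(.lf (nat_lit 29042) (.g (nat_lit 2889) (.e (nat_lit 1200) (nat_lit 88) (.e (nat_lit 65570) (nat_lit 3) (.e (nat_lit 98373) (nat_lit 29) (.e (nat_lit 450588) (nat_lit 10) (.e (nat_lit 573475) (nat_lit 12) (.e (nat_lit 57344) (nat_lit 0) (.e (nat_lit 7136) (nat_lit 382) .nil))))))) (.g (nat_lit 4) .nil .nil))))) (.nd (nat_lit 4) (.nd (nat_lit 5) 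
(.lf (nat_lit 29002) (.g (nat_lit 3876) (.e (nat_lit 1199) (nat_lit 88) (.e (nat_lit 65630) (nat_lit 14) (.e (nat_lit 401459) (nat_lit 13) (.e (nat_lit 483411) (nat_lit 27) (.e (nat_lit 401414) (nat_lit 0) (.e (nat_lit 2458) (nat_lit 157) (.e (nat_lit 4606) (nat_lit 269) .nil))))))) (.g (nat_lit 5) .nil .nil))) 
(.lf (nat_lit 29034) (.g (nat_lit 2803) (.e (nat_lit 1200) (nat_lit 88) (.e (nat_lit 65568) (nat_lit 2) (.e (nat_lit 90170) (nat_lit 13) (.e (nat_lit 172113) (nat_lit 10) (.e (nat_lit 434248) (nat_lit 28) (.e (nat_lit 573475) (nat_lit 12) (.e (nat_lit 57346) (nat_lit 0) (.e (nat_lit 7136) (nat_lit 382) .nil)))))))) (.g (nat_lit 4) .nil .nil)))) (.nd (nat_lit 5) 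
(.lf (nat_lit 29018) (.g (nat_lit 2793) (.e (nat_lit 1200) (nat_lit 88) (.e (nat_lit 65568) (nat_lit 2) (.e (nat_lit 90170) (nat_lit 13) (.e (nat_lit 172106) (nat_lit 10) (.e (nat_lit 434231) (nat_lit 23) (.e (nat_lit 532482) (nat_lit 0) (.e (nat_lit 971) (nat_lit 81) (.e (nat_lit 4493) (nat_lit 263) .nil)))))))) (.g (nat_lit 5) .nil .nil))) 
(.lf (nat_lit 29050) (.g (nat_lit 2491) (.e (nat_lit 1200) (nat_lit 88) (.e (nat_lit 65571) (nat_lit 3) (.e (nat_lit 98370) (nat_lit 28) (.e (nat_lit 442427) (nat_lit 23) (.e (nat_lit 204821) (nat_lit 17) .nil))))) .nil))))) (.nd (nat_lit 3) (.nd (nat_lit 4) (.nd (nat_lit 5) 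
(.lf (nat_lit 28998) (.g (nat_lit 3117) (.e (nat_lit 1199) (nat_lit 88) (.e (nat_lit 65630) (nat_lit 14) (.e (nat_lit 401459) (nat_lit 13) (.e (nat_lit 483411) (nat_lit 27) (.e (nat_lit 401414) (nat_lit 0) (.e (nat_lit 2438) (nat_lit 157) (.e (nat_lit 4603) (nat_lit 269) .nil))))))) (.g (nat_lit 4) .nil .nil))) 
(.lf (nat_lit 29030) (.g (nat_lit 2921) (.e (nat_lit 1200) (nat_lit 88) (.e (nat_lit 65568) (nat_lit 2) (.e (nat_lit 90170) (nat_lit 13) (.e (nat_lit 172106) (nat_lit 10) (.e (nat_lit 434244) (nat_lit 28) (.e (nat_lit 573468) (nat_lit 10) (.e (nat_lit 8194) (nat_lit 0) (.e (nat_lit 4450) (nat_lit 263) .nil)))))))) (.g (nat_lit 6) .nil .nil)))) (.nd (nat_lit 5) 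
(.lf (nat_lit 29014) (.g (nat_lit 2632) (.e (nat_lit 1199) (nat_lit 88) (.e (nat_lit 65651) (nat_lit 27) (.e (nat_lit 426343) (nat_lit 14) (.e (nat_lit 491570) (nat_lit 13) (.e (nat_lit 393238) (nat_lit 17) (.e (nat_lit 2400) (nat_lit 157) (.e (nat_lit 4376) (nat_lit 257) .nil))))))) (.g (nat_lit 5) .nil .nil))) 
(.lf (nat_lit 29046) (.g (nat_lit 4191) (.e (nat_lit 1200) (nat_lit 88) (.e (nat_lit 65570) (nat_lit 3) (.e (nat_lit 98373) (nat_lit 29) (.e (nat_lit 450588) (nat_lit 10) (.e (nat_lit 573475) (nat_lit 12) (.e (nat_lit 57348) (nat_lit 0) (.e (nat_lit 7236) (nat_lit 382) .nil))))))) (.g (nat_lit 5) .nil .nil))))) (.nd (nat_lit 4) (.nd (nat_lit 5) 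
(.lf (nat_lit 29006) (.g (nat_lit 3631) (.e (nat_lit 1199) (nat_lit 88) (.e (nat_lit 65630) (nat_lit 14) (.e (nat_lit 401459) (nat_lit 13) (.e (nat_lit 483411) (nat_lit 27) (.e (nat_lit 401416) (nat_lit 0) (.e (nat_lit 2449) (nat_lit 157) (.e (nat_lit 4598) (nat_lit 269) .nil))))))) (.g (nat_lit 4) .nil .nil))) 
(.lf (nat_lit 29038) (.g (nat_lit 2837) (.e (nat_lit 1200) (nat_lit 88) (.e (nat_lit 65570) (nat_lit 3) (.e (nat_lit 98373) (nat_lit 29) (.e (nat_lit 450588) (nat_lit 10) (.e (nat_lit 573473) (nat_lit 12) .nil))))) .nil))) (.nd (nat_lit 5) 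
(.lf (nat_lit 29022) (.g (nat_lit 2797) (.e (nat_lit 1200) (nat_lit 88) (.e (nat_lit 65568) (nat_lit 2) (.e (nat_lit 90170) (nat_lit 13) (.e (nat_lit 172106) (nat_lit 10) (.e (nat_lit 434231) (nat_lit 23) (.e (nat_lit 532516) (nat_lit 4) (.e (nat_lit 123116) (nat_lit 221) .nil))))))) (.g (nat_lit 5) .nil .nil))) 
(.lf (nat_lit 29054) (.g (nat_lit 2993) (.e (nat_lit 1200) (nat_lit 88) (.e (nat_lit 65571) (nat_lit 3) (.e (nat_lit 98372) (nat_lit 29) (.e (nat_lit 450579) (nat_lit 5) (.e (nat_lit 532504) (nat_lit 1) (.e (nat_lit 65280) (nat_lit 221) .nil)))))) (.g (nat_lit 5) .nil .nil)))))))) (.nd (nat_lit 1) (.nd (nat_lit 2) (.nd (nat_lit 3) (.nd (nat_lit 4) (.nd (nat_lit 5) 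
(.lf (nat_lit 28993) (.g (nat_lit 2996) (.e (nat_lit 1199) (nat_lit 88) (.e (nat_lit 65630) (nat_lit 14) (.e (nat_lit 401459) (nat_lit 13) (.e (nat_lit 483411) (nat_lit 27) (.e (nat_lit 401414) (nat_lit 0) .nil))))) .nil)) 
(.lf (nat_lit 29025) (.g (nat_lit 2968) (.e (nat_lit 1200) (nat_lit 88) (.e (nat_lit 65568) (nat_lit 2) (.e (nat_lit 90170) (nat_lit 13) (.e (nat_lit 172106) (nat_lit 10) (.e (nat_lit 434231) (nat_lit 23) (.e (nat_lit 540416) (nat_lit 18) (.e (nat_lit 164166) (nat_lit 152) .nil))))))) (.g (nat_lit 5) .nil .nil)))) (.nd (nat_lit 5) 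
(.lf (nat_lit 29009) (.g (nat_lit 2871) (.e (nat_lit 1199) (nat_lit 88) (.e (nat_lit 65630) (nat_lit 14) (.e (nat_lit 401459) (nat_lit 13) (.e (nat_lit 483411) (nat_lit 27) (.e (nat_lit 401420) (nat_lit 1) .nil))))) .nil)) 
(.lf (nat_lit 29041) (.g (nat_lit 2849) (.e (nat_lit 1200) (nat_lit 88) (.e (nat_lit 65570) (nat_lit 3) (.e (nat_lit 98373) (nat_lit 29) (.e (nat_lit 450588) (nat_lit 10) (.e (nat_lit 573475) (nat_lit 12) .nil))))) .nil)))) (.nd (nat_lit 4) (.nd (nat_lit 5) 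
(.lf (nat_lit 29001) (.g (nat_lit 3277) (.e (nat_lit 1199) (nat_lit 88) (.e (nat_lit 65630) (nat_lit 14) (.e (nat_lit 401459) (nat_lit 13) (.e (nat_lit 483411) (nat_lit 27) (.e (nat_lit 401414) (nat_lit 0) (.e (nat_lit 2458) (nat_lit 157) (.e (nat_lit 4602) (nat_lit 269) .nil))))))) (.g (nat_lit 4) .nil .nil))) 
(.lf (nat_lit 29033) (.g (nat_lit 3017) (.e (nat_lit 1200) (nat_lit 88) (.e (nat_lit 65568) (nat_lit 2) (.e (nat_lit 90170) (nat_lit 13) (.e (nat_lit 172113) (nat_lit 10) (.e (nat_lit 434245) (nat_lit 28) (.e (nat_lit 573474) (nat_lit 12) (.e (nat_lit 57346) (nat_lit 0) (.e (nat_lit 7136) (nat_lit 382) .nil)))))))) (.g (nat_lit 4) .nil .nil)))) (.nd (nat_lit 5) 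
(.lf (nat_lit 29017) (.g (nat_lit 3644) (.e (nat_lit 1200) (nat_lit 88) (.e (nat_lit 65568) (nat_lit 2) (.e (nat_lit 90170) (nat_lit 13) (.e (nat_lit 172106) (nat_lit 10) (.e (nat_lit 434231) (nat_lit 23) (.e (nat_lit 532481) (nat_lit 0) (.e (nat_lit 997) (nat_lit 81) (.e (nat_lit 4500) (nat_lit 263) .nil)))))))) (.g (nat_lit 5) .nil .nil))) 
(.lf (nat_lit 29049) (.g (nat_lit 2607) (.e (nat_lit 1200) (nat_lit 88) (.e (nat_lit 65571) (nat_lit 3) (.e (nat_lit 98359) (nat_lit 26) (.e (nat_lit 426286) (nat_lit 10) (.e (nat_lit 434248) (nat_lit 28) (.e (nat_lit 573475) (nat_lit 12) (.e (nat_lit 57346) (nat_lit 0) (.e (nat_lit 7136) (nat_lit 382) .nil)))))))) (.g (nat_lit 4) .nil .nil)))))) (.nd (nat_lit 3) (.nd (nat_lit 4) (.nd (nat_lit 5) 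
(.lf (nat_lit 28997) (.g (nat_lit 3076) (.e (nat_lit 1199) (nat_lit 88) (.e (nat_lit 65630) (nat_lit 14) (.e (nat_lit 401459) (nat_lit 13) (.e (nat_lit 483411) (nat_lit 27) (.e (nat_lit 401414) (nat_lit 0) (.e (nat_lit 2438) (nat_lit 157) (.e (nat_lit 4602) (nat_lit 269) .nil))))))) (.g (nat_lit 4) .nil .nil))) 
(.lf (nat_lit 29029) (.g (nat_lit 2995) (.e (nat_lit 1200) (nat_lit 88) (.e (nat_lit 65568) (nat_lit 2) (.e (nat_lit 90170) (nat_lit 13) (.e (nat_lit 172106) (nat_lit 10) (.e (nat_lit 434244) (nat_lit 28) (.e (nat_lit 573468) (nat_lit 10) (.e (nat_lit 8194) (nat_lit 0) (.e (nat_lit 4448) (nat_lit 263) .nil)))))))) (.g (nat_lit 6) .nil .nil)))) (.nd (nat_lit 5) 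
(.lf (nat_lit 29013) (.g (nat_lit 3481) (.e (nat_lit 1199) (nat_lit 88) (.e (nat_lit 65630) (nat_lit 14) (.e (nat_lit 401459) (nat_lit 13) (.e (nat_lit 483411) (nat_lit 27) (.e (nat_lit 401422) (nat_lit 1) (.e (nat_lit 164423) (nat_lit 272) .nil)))))) (.g (nat_lit 4) .nil .nil))) 
(.lf (nat_lit 29045) (.g (nat_lit 4018) (.e (nat_lit 1200) (nat_lit 88) (.e (nat_lit 65570) (nat_lit 3) (.e (nat_lit 98373) (nat_lit 29) (.e (nat_lit 450588) (nat_lit 10) (.e (nat_lit 573475) (nat_lit 12) (.e (nat_lit 57346) (nat_lit 0) (.e (nat_lit 7233) (nat_lit 382) .nil))))))) (.g (nat_lit 5) .nil .nil))))) (.nd (nat_lit 4) (.nd (nat_lit 5) 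
(.lf (nat_lit 29005) (.g (nat_lit 3872) (.e (nat_lit 1199) (nat_lit 88) (.e (nat_lit 65630) (nat_lit 14) (.e (nat_lit 401459) (nat_lit 13) (.e (nat_lit 483411) (nat_lit 27) (.e (nat_lit 401415) (nat_lit 0) .nil))))) .nil)) 
(.lf (nat_lit 29037) (.g (nat_lit 2733) (.e (nat_lit 1200) (nat_lit 88) (.e (nat_lit 65569) (nat_lit 3) (.e (nat_lit 98373) (nat_lit 29) (.e (nat_lit 450588) (nat_lit 10) (.e (nat_lit 573475) (nat_lit 12) .nil))))) .nil))) (.nd (nat_lit 5) 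
(.lf (nat_lit 29021) (.g (nat_lit 4469) (.e (nat_lit 1200) (nat_lit 88) (.e (nat_lit 65568) (nat_lit 2) (.e (nat_lit 90170) (nat_lit 13) (.e (nat_lit 172106) (nat_lit 10) (.e (nat_lit 434231) (nat_lit 23) (.e (nat_lit 532500) (nat_lit 1) (.e (nat_lit 65280) (nat_lit 221) .nil))))))) (.g (nat_lit 6) .nil .nil))) 
(.lf (nat_lit 29053) (.g (nat_lit 2696) (.e (nat_lit 1200) (nat_lit 88) (.e (nat_lit 65571) (nat_lit 3) (.e (nat_lit 98372) (nat_lit 29) (.e (nat_lit 450579) (nat_lit 5) (.e (nat_lit 532503) (nat_lit 1) (.e (nat_lit 65280) (nat_lit 221) .nil)))))) (.g (nat_lit 4) .nil .nil))))))) (.nd (nat_lit 2) (.nd (nat_lit 3) (.nd (nat_lit 4) (.nd (nat_lit 5) 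
(.lf (nat_lit 28995) (.g (nat_lit 3981) (.e (nat_lit 1199) (nat_lit 88) (.e (nat_lit 65630) (nat_lit 14) (.e (nat_lit 401459) (nat_lit 13) (.e (nat_lit 483411) (nat_lit 27) (.e (nat_lit 401414) (nat_lit 0) (.e (nat_lit 2422) (nat_lit 157) (.e (nat_lit 4598) (nat_lit 269) .nil))))))) (.g (nat_lit 5) .nil .nil))) 
(.lf (nat_lit 29027) (.g (nat_lit 3489) (.e (nat_lit 1200) (nat_lit 88) (.e (nat_lit 65568) (nat_lit 2) (.e (nat_lit 90170) (nat_lit 13) (.e (nat_lit 172106) (nat_lit 10) (.e (nat_lit 434244) (nat_lit 28) (.e (nat_lit 573468) (nat_lit 10) (.e (nat_lit 8192) (nat_lit 0) (.e (nat_lit 4448) (nat_lit 263) .nil)))))))) (.g (nat_lit 6) .nil .nil)))) (.nd (nat_lit 5) 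
(.lf (nat_lit 29011) (.g (nat_lit 3125) (.e (nat_lit 1199) (nat_lit 88) (.e (nat_lit 65630) (nat_lit 14) (.e (nat_lit 401459) (nat_lit 13) (.e (nat_lit 483411) (nat_lit 27) (.e (nat_lit 401421) (nat_lit 1) .nil))))) .nil)) 
(.lf (nat_lit 29043) (.g (nat_lit 3397) (.e (nat_lit 1200) (nat_lit 88) (.e (nat_lit 65570) (nat_lit 3) (.e (nat_lit 98373) (nat_lit 29) (.e (nat_lit 450588) (nat_lit 10) (.e (nat_lit 573475) (nat_lit 12) (.e (nat_lit 57344) (nat_lit 0) (.e (nat_lit 7236) (nat_lit 382) .nil))))))) (.g (nat_lit 4) .nil .nil))))) (.nd (nat_lit 4) (.nd (nat_lit 5) 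
(.lf (nat_lit 29003) (.g (nat_lit 3285) (.e (nat_lit 1199) (nat_lit 88) (.e (nat_lit 65630) (nat_lit 14) (.e (nat_lit 401459) (nat_lit 13) (.e (nat_lit 483411) (nat_lit 27) (.e (nat_lit 401414) (nat_lit 0) (.e (nat_lit 2458) (nat_lit 157) (.e (nat_lit 4607) (nat_lit 269) .nil))))))) (.g (nat_lit 4) .nil .nil))) 
(.lf (nat_lit 29035) (.g (nat_lit 2147) (.e (nat_lit 1200) (nat_lit 88) (.e (nat_lit 65569) (nat_lit 3) (.e (nat_lit 98372) (nat_lit 29) (.e (nat_lit 450579) (nat_lit 5) (.e (nat_lit 532501) (nat_lit 1) (.e (nat_lit 65280) (nat_lit 221) .nil)))))) (.g (nat_lit 4) .nil .nil)))) (.nd (nat_lit 5) 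
(.lf (nat_lit 29019) (.g (nat_lit 2692) (.e (nat_lit 1200) (nat_lit 88) (.e (nat_lit 65568) (nat_lit 2) (.e (nat_lit 90170) (nat_lit 13) (.e (nat_lit 172106) (nat_lit 10) (.e (nat_lit 434231) (nat_lit 23) (.e (nat_lit 532482) (nat_lit 0) (.e (nat_lit 971) (nat_lit 81) (.e (nat_lit 4494) (nat_lit 263) .nil)))))))) (.g (nat_lit 5) .nil .nil))) 
(.lf (nat_lit 29051) (.g (nat_lit 2448) (.e (nat_lit 1200) (nat_lit 88) (.e (nat_lit 65571) (nat_lit 3) (.e (nat_lit 98372) (nat_lit 29) (.e (nat_lit 450579) (nat_lit 5) (.e (nat_lit 532499) (nat_lit 1) (.e (nat_lit 65280) (nat_lit 221) .nil)))))) (.g (nat_lit 4) .nil .nil)))))) (.nd (nat_lit 3) (.nd (nat_lit 4) (.nd (nat_lit 5) 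
(.lf (nat_lit 28999) (.g (nat_lit 3457) (.e (nat_lit 1199) (nat_lit 88) (.e (nat_lit 65630) (nat_lit 14) (.e (nat_lit 401459) (nat_lit 13) (.e (nat_lit 483411) (nat_lit 27) (.e (nat_lit 401414) (nat_lit 0) (.e (nat_lit 2442) (nat_lit 157) (.e (nat_lit 4598) (nat_lit 269) .nil))))))) (.g (nat_lit 4) .nil .nil))) 
(.lf (nat_lit 29031) (.g (nat_lit 1948) (.e (nat_lit 1200) (nat_lit 88) (.e (nat_lit 65568) (nat_lit 2) (.e (nat_lit 90170) (nat_lit 13) (.e (nat_lit 172106) (nat_lit 10) (.e (nat_lit 434244) (nat_lit 28) (.e (nat_lit 573468) (nat_lit 10) (.e (nat_lit 8195) (nat_lit 0) (.e (nat_lit 4493) (nat_lit 263) .nil)))))))) (.g (nat_lit 4) .nil .nil)))) (.nd (nat_lit 5) 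
(.lf (nat_lit 29015) (.g (nat_lit 3638) (.e (nat_lit 1200) (nat_lit 88) (.e (nat_lit 65566) (nat_lit 2) (.e (nat_lit 90170) (nat_lit 13) (.e (nat_lit 172106) (nat_lit 10) (.e (nat_lit 434231) (nat_lit 23) (.e (nat_lit 532490) (nat_lit 0) (.e (nat_lit 991) (nat_lit 81) (.e (nat_lit 4500) (nat_lit 263) .nil)))))))) (.g (nat_lit 6) .nil .nil))) 
(.lf (nat_lit 29047) (.g (nat_lit 2094) (.e (nat_lit 1200) (nat_lit 88) (.e (nat_lit 65571) (nat_lit 3) (.e (nat_lit 98350) (nat_lit 24) (.e (nat_lit 409646) (nat_lit 18) .nil)))) .nil)))) (.nd (nat_lit 4) (.nd (nat_lit 5) 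
(.lf (nat_lit 29007) (.g (nat_lit 3828) (.e (nat_lit 1199) (nat_lit 88) (.e (nat_lit 65630) (nat_lit 14) (.e (nat_lit 401459) (nat_lit 13) (.e (nat_lit 483411) (nat_lit 27) (.e (nat_lit 401417) (nat_lit 0) .nil))))) .nil)) 
(.lf (nat_lit 29039) (.g (nat_lit 3081) (.e (nat_lit 1200) (nat_lit 88) (.e (nat_lit 65570) (nat_lit 3) (.e (nat_lit 98373) (nat_lit 29) (.e (nat_lit 450588) (nat_lit 10) (.e (nat_lit 573473) (nat_lit 12) (.e (nat_lit 57346) (nat_lit 0) (.e (nat_lit 7136) (nat_lit 382) .nil))))))) (.g (nat_lit 4) .nil .nil)))) (.nd (nat_lit 5) 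
(.lf (nat_lit 29023) (.g (nat_lit 2965) (.e (nat_lit 1200) (nat_lit 88) (.e (nat_lit 65568) (nat_lit 2) (.e (nat_lit 90170) (nat_lit 13) (.e (nat_lit 172106) (nat_lit 10) (.e (nat_lit 434231) (nat_lit 23) (.e (nat_lit 532517) (nat_lit 4) (.e (nat_lit 123116) (nat_lit 221) .nil))))))) (.g (nat_lit 5) .nil .nil))) 
(.lf (nat_lit 29055) (.g (nat_lit 1639) (.e (nat_lit 1200) (nat_lit 88) (.e (nat_lit 65571) (nat_lit 3) (.e (nat_lit 98372) (nat_lit 29) (.e (nat_lit 450586) (nat_lit 10) .nil)))) .nil))))))))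

noncomputable def tv402 : DT := (.nd (nat_lit 0) (.nd (nat_lit 1) (.nd (nat_lit 2) (.nd (nat_lit 3) (.nd (nat_lit 4) (.nd (nat_lit 5) 
(.lf (nat_lit 29056) (.g (nat_lit 2660) (.e (nat_lit 1200) (nat_lit 88) (.e (nat_lit 65571) (nat_lit 3) (.e (nat_lit 98372) (nat_lit 29) (.e (nat_lit 450586) (nat_lit 10) (.e (nat_lit 573475) (nat_lit 12) (.e (nat_lit 57346) (nat_lit 0) (.e (nat_lit 7136) (nat_lit 382) .nil))))))) (.g (nat_lit 4) .nil .nil))) 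
(.lf (nat_lit 29088) (.g (nat_lit 2178) (.e (nat_lit 1200) (nat_lit 88) (.e (nat_lit 65585) (nat_lit 7) (.e (nat_lit 319533) (nat_lit 16) (.e (nat_lit 286753) (nat_lit 10) (.e (nat_lit 344168) (nat_lit 40) (.e (nat_lit 671751) (nat_lit 0) (.e (nat_lit 1182) (nat_lit 87) (.e (nat_lit 57724) (nat_lit 181) .nil)))))))) (.g (nat_lit 4) .nil .nil)))) (.nd (nat_lit 5) 
(.lf (nat_lit 29072) (.g (nat_lit 2445) (.e (nat_lit 1200) (nat_lit 88) (.e (nat_lit 65581) (nat_lit 7) (.e (nat_lit 319534) (nat_lit 16) (.e (nat_lit 286756) (nat_lit 10) (.e (nat_lit 344168) (nat_lit 40) (.e (nat_lit 671751) (nat_lit 0) (.e (nat_lit 1181) (nat_lit 87) (.e (nat_lit 57724) (nat_lit 181) .nil)))))))) (.g (nat_lit 4) .nil .nil))) 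
(.lf (nat_lit 29104) (.g (nat_lit 1928) (.e (nat_lit 1200) (nat_lit 88) (.e (nat_lit 65604) (nat_lit 9) (.e (nat_lit 335907) (nat_lit 0) (.e (nat_lit 1994) (nat_lit 137) (.e (nat_lit 663569) (nat_lit 6) (.e (nat_lit 81948) (nat_lit 21) (.e (nat_lit 57870) (nat_lit 264) .nil))))))) (.g (nat_lit 5) .nil .nil))))) (.nd (nat_lit 4) (.nd (nat_lit 5) 
(.lf (nat_lit 29064) (.g (nat_lit 2590) (.e (nat_lit 1200) (nat_lit 88) (.e (nat_lit 65578) (nat_lit 6) (.e (nat_lit 147458) (nat_lit 0) (.e (nat_lit 1597) (nat_lit 111) (.e (nat_lit 360466) (nat_lit 3) (.e (nat_lit 516120) (nat_lit 1) (.e (nat_lit 164166) (nat_lit 152) .nil))))))) (.g (nat_lit 7) .nil .nil))) 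
(.lf (nat_lit 29096) (.g (nat_lit 2728) (.e (nat_lit 1200) (nat_lit 88) (.e (nat_lit 65604) (nat_lit 9) (.e (nat_lit 335907) (nat_lit 0) (.e (nat_lit 1994) (nat_lit 137) (.e (nat_lit 663567) (nat_lit 4) (.e (nat_lit 65598) (nat_lit 9) (.e (nat_lit 335997) (nat_lit 1) (.e (nat_lit 57872) (nat_lit 264) .nil)))))))) (.g (nat_lit 6) .nil .nil)))) (.nd (nat_lit 5) 
(.lf (nat_lit 29080) (.g (nat_lit 2399) (.e (nat_lit 1200) (nat_lit 88) (.e (nat_lit 65583) (nat_lit 7) (.e (nat_lit 319530) (nat_lit 16) (.e (nat_lit 286759) (nat_lit 12) (.e (nat_lit 385094) (nat_lit 49) (.e (nat_lit 778317) (nat_lit 3) (.e (nat_lit 57354) (nat_lit 0) (.e (nat_lit 6320) (nat_lit 337) .nil)))))))) (.g (nat_lit 4) .nil .nil))) 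
(.lf (nat_lit 29112) (.g (nat_lit 1781) (.e (nat_lit 1200) (nat_lit 88) (.e (nat_lit 65604) (nat_lit 9) (.e (nat_lit 335997) (nat_lit 1) (.e (nat_lit 57857) (nat_lit 254) (.e (nat_lit 163920) (nat_lit 14) (.e (nat_lit 442430) (nat_lit 24) (.e (nat_lit 229632) (nat_lit 226) .nil))))))) (.g (nat_lit 4) .nil .nil)))))) (.nd (nat_lit 3) (.nd (nat_lit 4) (.nd (nat_lit 5) 
(.lf (nat_lit 29060) (.g (nat_lit 3225) (.e (nat_lit 1200) (nat_lit 88) (.e (nat_lit 65571) (nat_lit 3) (.e (nat_lit 98373) (nat_lit 29) (.e (nat_lit 450588) (nat_lit 10) (.e (nat_lit 573475) (nat_lit 12) (.e (nat_lit 57346) (nat_lit 0) (.e (nat_lit 7233) (nat_lit 382) .nil))))))) (.g (nat_lit 4) .nil .nil))) 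
(.lf (nat_lit 29092) (.g (nat_lit 2560) (.e (nat_lit 1200) (nat_lit 88) (.e (nat_lit 65585) (nat_lit 7) (.e (nat_lit 319534) (nat_lit 16) (.e (nat_lit 286756) (nat_lit 10) (.e (nat_lit 344169) (nat_lit 40) (.e (nat_lit 671751) (nat_lit 0) (.e (nat_lit 1182) (nat_lit 87) (.e (nat_lit 57724) (nat_lit 181) .nil)))))))) (.g (nat_lit 4) .nil .nil)))) (.nd (nat_lit 5) 
(.lf (nat_lit 29076) (.g (nat_lit 2378) (.e (nat_lit 1200) (nat_lit 88) (.e (nat_lit 65581) (nat_lit 7) (.e (nat_lit 319534) (nat_lit 16) (.e (nat_lit 286756) (nat_lit 10) (.e (nat_lit 344169) (nat_lit 40) (.e (nat_lit 671751) (nat_lit 0) (.e (nat_lit 1181) (nat_lit 87) (.e (nat_lit 57724) (nat_lit 181) .nil)))))))) (.g (nat_lit 4) .nil .nil))) 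
(.lf (nat_lit 29108) (.g (nat_lit 2414) (.e (nat_lit 1200) (nat_lit 88) (.e (nat_lit 65604) (nat_lit 9) (.e (nat_lit 335907) (nat_lit 0) (.e (nat_lit 1996) (nat_lit 137) (.e (nat_lit 663567) (nat_lit 4) (.e (nat_lit 65604) (nat_lit 9) (.e (nat_lit 335997) (nat_lit 1) (.e (nat_lit 57870) (nat_lit 264) .nil)))))))) (.g (nat_lit 6) .nil .nil))))) (.nd (nat_lit 4) (.nd (nat_lit 5) 
(.lf (nat_lit 29068) (.g (nat_lit 2908) (.e (nat_lit 1200) (nat_lit 88) (.e (nat_lit 65581) (nat_lit 7) (.e (nat_lit 319531) (nat_lit 16) (.e (nat_lit 286756) (nat_lit 10) (.e (nat_lit 344169) (nat_lit 40) (.e (nat_lit 671751) (nat_lit 0) (.e (nat_lit 1182) (nat_lit 87) (.e (nat_lit 57724) (nat_lit 181) .nil)))))))) (.g (nat_lit 4) .nil .nil))) 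
(.lf (nat_lit 29100) (.g (nat_lit 2856) (.e (nat_lit 1200) (nat_lit 88) (.e (nat_lit 65604) (nat_lit 9) (.e (nat_lit 335907) (nat_lit 0) (.e (nat_lit 1994) (nat_lit 137) (.e (nat_lit 663567) (nat_lit 4) (.e (nat_lit 65610) (nat_lit 10) (.e (nat_lit 344097) (nat_lit 18) (.e (nat_lit 5907) (nat_lit 320) .nil)))))))) (.g (nat_lit 6) .nil .nil)))) (.nd (nat_lit 5) 
(.lf (nat_lit 29084) (.g (nat_lit 2473) (.e (nat_lit 1200) (nat_lit 88) (.e (nat_lit 65584) (nat_lit 7) (.e (nat_lit 319530) (nat_lit 16) (.e (nat_lit 286759) (nat_lit 12) (.e (nat_lit 385094) (nat_lit 49) (.e (nat_lit 778318) (nat_lit 3) (.e (nat_lit 57354) (nat_lit 0) (.e (nat_lit 6264) (nat_lit 337) .nil)))))))) (.g (nat_lit 4) .nil .nil))) 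
(.lf (nat_lit 29116) (.g (nat_lit 3339) (.e (nat_lit 1200) (nat_lit 88) (.e (nat_lit 65604) (nat_lit 9) (.e (nat_lit 335997) (nat_lit 1) (.e (nat_lit 57870) (nat_lit 264) (.e (nat_lit 1200) (nat_lit 88) (.e (nat_lit 65604) (nat_lit 9) (.e (nat_lit 335997) (nat_lit 1) (.e (nat_lit 57871) (nat_lit 264) .nil)))))))) (.g (nat_lit 8) .nil .nil))))))) 
(.nd (nat_lit 2) (.nd (nat_lit 3) (.nd (nat_lit 4) (.nd (nat_lit 5) 
(.lf (nat_lit 29058) (.g (nat_lit 2844) (.e (nat_lit 1200) (nat_lit 88) (.e (nat_lit 65571) (nat_lit 3) (.e (nat_lit 98373) (nat_lit 29) (.e (nat_lit 450588) (nat_lit 10) (.e (nat_lit 573475) (nat_lit 12) .nil))))) .nil)) 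
(.lf (nat_lit 29090) (.g (nat_lit 2199) (.e (nat_lit 1200) (nat_lit 88) (.e (nat_lit 65585) (nat_lit 7) (.e (nat_lit 319533) (nat_lit 16) (.e (nat_lit 286753) (nat_lit 10) (.e (nat_lit 344169) (nat_lit 40) (.e (nat_lit 671751) (nat_lit 0) (.e (nat_lit 1182) (nat_lit 87) (.e (nat_lit 57731) (nat_lit 181) .nil)))))))) (.g (nat_lit 4) .nil .nil)))) (.nd (nat_lit 5) 
(.lf (nat_lit 29074) (.g (nat_lit 2863) (.e (nat_lit 1200) (nat_lit 88) (.e (nat_lit 65581) (nat_lit 7) (.e (nat_lit 319534) (nat_lit 16) (.e (nat_lit 286756) (nat_lit 10) (.e (nat_lit 344168) (nat_lit 40) (.e (nat_lit 671751) (nat_lit 0) (.e (nat_lit 1182) (nat_lit 87) (.e (nat_lit 57730) (nat_lit 181) .nil)))))))) (.g (nat_lit 5) .nil .nil))) 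
(.lf (nat_lit 29106) (.g (nat_lit 1650) (.e (nat_lit 1200) (nat_lit 88) (.e (nat_lit 65604) (nat_lit 9) (.e (nat_lit 335907) (nat_lit 0) (.e (nat_lit 1996) (nat_lit 137) (.e (nat_lit 663554) (nat_lit 0) (.e (nat_lit 1595) (nat_lit 111) (.e (nat_lit 360453) (nat_lit 0) (.e (nat_lit 5907) (nat_lit 320) .nil)))))))) (.g (nat_lit 4) .nil .nil))))) (.nd (nat_lit 4) (.nd (nat_lit 5) 
(.lf (nat_lit 29066) (.g (nat_lit 3078) (.e (nat_lit 1200) (nat_lit 88) (.e (nat_lit 65581) (nat_lit 7) (.e (nat_lit 319531) (nat_lit 16) (.e (nat_lit 286756) (nat_lit 10) (.e (nat_lit 344168) (nat_lit 40) (.e (nat_lit 671751) (nat_lit 0) (.e (nat_lit 1182) (nat_lit 87) (.e (nat_lit 57724) (nat_lit 181) .nil)))))))) (.g (nat_lit 4) .nil .nil))) 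
(.lf (nat_lit 29098) (.g (nat_lit 2545) (.e (nat_lit 1200) (nat_lit 88) (.e (nat_lit 65604) (nat_lit 9) (.e (nat_lit 335907) (nat_lit 0) (.e (nat_lit 1994) (nat_lit 137) (.e (nat_lit 663567) (nat_lit 4) (.e (nat_lit 65604) (nat_lit 9) (.e (nat_lit 335997) (nat_lit 1) (.e (nat_lit 57871) (nat_lit 264) .nil)))))))) (.g (nat_lit 5) .nil .nil)))) (.nd (nat_lit 5) 
(.lf (nat_lit 29082) (.g (nat_lit 2522) (.e (nat_lit 1200) (nat_lit 88) (.e (nat_lit 65584) (nat_lit 7) (.e (nat_lit 319530) (nat_lit 16) (.e (nat_lit 286759) (nat_lit 12) (.e (nat_lit 385094) (nat_lit 49) (.e (nat_lit 778317) (nat_lit 3) (.e (nat_lit 57354) (nat_lit 0) (.e (nat_lit 6264) (nat_lit 337) .nil)))))))) (.g (nat_lit 4) .nil .nil))) 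
(.lf (nat_lit 29114) (.g (nat_lit 3275) (.e (nat_lit 1200) (nat_lit 88) (.e (nat_lit 65604) (nat_lit 9) (.e (nat_lit 335997) (nat_lit 1) (.e (nat_lit 57870) (nat_lit 264) (.e (nat_lit 1189) (nat_lit 88) (.e (nat_lit 65604) (nat_lit 9) (.e (nat_lit 335997) (nat_lit 1) (.e (nat_lit 57872) (nat_lit 264) .nil)))))))) (.g (nat_lit 0) .nil .nil)))))) (.nd (nat_lit 3) (.nd (nat_lit 4) (.nd (nat_lit 5) 
(.lf (nat_lit 29062) (.g (nat_lit 1152) (.e (nat_lit 1200) (nat_lit 88) (.e (nat_lit 65574) (nat_lit 4) (.e (nat_lit 123182) (nat_lit 264) (.e (nat_lit 1175) (nat_lit 87) .nil)))) .nil)) 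
(.lf (nat_lit 29094) (.g (nat_lit 2625) (.e (nat_lit 1200) (nat_lit 88) (.e (nat_lit 65604) (nat_lit 9) (.e (nat_lit 335907) (nat_lit 0) (.e (nat_lit 1994) (nat_lit 137) (.e (nat_lit 663567) (nat_lit 4) (.e (nat_lit 65598) (nat_lit 9) (.e (nat_lit 335997) (nat_lit 1) (.e (nat_lit 57870) (nat_lit 264) .nil)))))))) (.g (nat_lit 6) .nil .nil)))) (.nd (nat_lit 5) 
(.lf (nat_lit 29078) (.g (nat_lit 3490) (.e (nat_lit 1200) (nat_lit 88) (.e (nat_lit 65581) (nat_lit 7) (.e (nat_lit 319534) (nat_lit 16) (.e (nat_lit 286756) (nat_lit 10) (.e (nat_lit 344169) (nat_lit 40) (.e (nat_lit 671751) (nat_lit 0) (.e (nat_lit 1182) (nat_lit 87) (.e (nat_lit 57731) (nat_lit 181) .nil)))))))) (.g (nat_lit 6) .nil .nil))) 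
(.lf (nat_lit 29110) (.g (nat_lit 2498) (.e (nat_lit 1200) (nat_lit 88) (.e (nat_lit 65604) (nat_lit 9) (.e (nat_lit 335907) (nat_lit 0) (.e (nat_lit 1996) (nat_lit 137) (.e (nat_lit 663567) (nat_lit 4) (.e (nat_lit 65604) (nat_lit 9) (.e (nat_lit 335997) (nat_lit 1) (.e (nat_lit 57872) (nat_lit 264) .nil)))))))) (.g (nat_lit 6) .nil .nil))))) (.nd (nat_lit 4) (.nd (nat_lit 5) 
(.lf (nat_lit 29070) (.g (nat_lit 2708) (.e (nat_lit 1200) (nat_lit 88) (.e (nat_lit 65581) (nat_lit 7) (.e (nat_lit 319533) (nat_lit 16) (.e (nat_lit 286753) (nat_lit 10) (.e (nat_lit 344168) (nat_lit 40) (.e (nat_lit 671751) (nat_lit 0) (.e (nat_lit 1182) (nat_lit 87) (.e (nat_lit 57731) (nat_lit 181) .nil)))))))) (.g (nat_lit 6) .nil .nil))) 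
(.lf (nat_lit 29102) (.g (nat_lit 2636) (.e (nat_lit 1200) (nat_lit 88) (.e (nat_lit 65604) (nat_lit 9) (.e (nat_lit 335907) (nat_lit 0) (.e (nat_lit 1994) (nat_lit 137) (.e (nat_lit 663567) (nat_lit 4) (.e (nat_lit 65619) (nat_lit 10) (.e (nat_lit 344097) (nat_lit 18) (.e (nat_lit 5906) (nat_lit 320) .nil)))))))) (.g (nat_lit 6) .nil .nil)))) (.nd (nat_lit 5) 
(.lf (nat_lit 29086) (.g (nat_lit 2194) (.e (nat_lit 1200) (nat_lit 88) (.e (nat_lit 65584) (nat_lit 7) (.e (nat_lit 319530) (nat_lit 16) (.e (nat_lit 286759) (nat_lit 12) (.e (nat_lit 385105) (nat_lit 50) .nil))))) .nil)) 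
(.lf (nat_lit 29118) (.g (nat_lit 2715) (.e (nat_lit 1200) (nat_lit 88) (.e (nat_lit 65604) (nat_lit 9) (.e (nat_lit 335997) (nat_lit 1) (.e (nat_lit 57870) (nat_lit 264) (.e (nat_lit 1219) (nat_lit 90) (.e (nat_lit 81948) (nat_lit 21) (.e (nat_lit 57870) (nat_lit 264) .nil))))))) (.g (nat_lit 0) .nil .nil)))))))) 
(.nd (nat_lit 1) (.nd (nat_lit 2) (.nd (nat_lit 3) (.nd (nat_lit 4) (.nd (nat_lit 5) 
(.lf (nat_lit 29057) (.g (nat_lit 2825) (.e (nat_lit 1200) (nat_lit 88) (.e (nat_lit 65571) (nat_lit 3) (.e (nat_lit 98373) (nat_lit 29) (.e (nat_lit 450588) (nat_lit 10) (.e (nat_lit 573473) (nat_lit 12) .nil))))) .nil)) 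
(.lf (nat_lit 29089) (.g (nat_lit 2845) (.e (nat_lit 1200) (nat_lit 88) (.e (nat_lit 65585) (nat_lit 7) (.e (nat_lit 319533) (nat_lit 16) (.e (nat_lit 286753) (nat_lit 10) (.e (nat_lit 344169) (nat_lit 40) (.e (nat_lit 671751) (nat_lit 0) (.e (nat_lit 1182) (nat_lit 87) (.e (nat_lit 57724) (nat_lit 181) .nil)))))))) (.g (nat_lit 5) .nil .nil)))) (.nd (nat_lit 5) 
(.lf (nat_lit 29073) (.g (nat_lit 3046) (.e (nat_lit 1200) (nat_lit 88) (.e (nat_lit 65581) (nat_lit 7) (.e (nat_lit 319534) (nat_lit 16) (.e (nat_lit 286756) (nat_lit 10) (.e (nat_lit 344168) (nat_lit 40) (.e (nat_lit 671751) (nat_lit 0) (.e (nat_lit 1182) (nat_lit 87) (.e (nat_lit 57728) (nat_lit 181) .nil)))))))) (.g (nat_lit 5) .nil .nil))) 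
(.lf (nat_lit 29105) (.g (nat_lit 1817) (.e (nat_lit 1200) (nat_lit 88) (.e (nat_lit 65604) (nat_lit 9) (.e (nat_lit 335907) (nat_lit 0) (.e (nat_lit 1994) (nat_lit 137) (.e (nat_lit 663569) (nat_lit 6) (.e (nat_lit 81948) (nat_lit 21) (.e (nat_lit 57871) (nat_lit 264) .nil))))))) (.g (nat_lit 4) .nil .nil))))) (.nd (nat_lit 4) (.nd (nat_lit 5) 
(.lf (nat_lit 29065) (.g (nat_lit 2272) (.e (nat_lit 1200) (nat_lit 88) (.e (nat_lit 65578) (nat_lit 6) (.e (nat_lit 147460) (nat_lit 0) (.e (nat_lit 1597) (nat_lit 111) (.e (nat_lit 360466) (nat_lit 3) (.e (nat_lit 516120) (nat_lit 1) (.e (nat_lit 164166) (nat_lit 152) .nil))))))) (.g (nat_lit 6) .nil .nil))) 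
(.lf (nat_lit 29097) (.g (nat_lit 2609) (.e (nat_lit 1200) (nat_lit 88) (.e (nat_lit 65604) (nat_lit 9) (.e (nat_lit 335907) (nat_lit 0) (.e (nat_lit 1994) (nat_lit 137) (.e (nat_lit 663567) (nat_lit 4) (.e (nat_lit 65604) (nat_lit 9) (.e (nat_lit 335997) (nat_lit 1) (.e (nat_lit 57870) (nat_lit 264) .nil)))))))) (.g (nat_lit 6) .nil .nil)))) (.nd (nat_lit 5) 
(.lf (nat_lit 29081) (.g (nat_lit 2411) (.e (nat_lit 1200) (nat_lit 88) (.e (nat_lit 65584) (nat_lit 7) (.e (nat_lit 319530) (nat_lit 16) (.e (nat_lit 286759) (nat_lit 12) (.e (nat_lit 385094) (nat_lit 49) (.e (nat_lit 778246) (nat_lit 0) (.e (nat_lit 1183) (nat_lit 87) (.e (nat_lit 57724) (nat_lit 181) .nil)))))))) (.g (nat_lit 4) .nil .nil))) 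
(.lf (nat_lit 29113) (.g (nat_lit 3167) (.e (nat_lit 1200) (nat_lit 88) (.e (nat_lit 65604) (nat_lit 9) (.e (nat_lit 335997) (nat_lit 1) (.e (nat_lit 57870) (nat_lit 264) (.e (nat_lit 1189) (nat_lit 88) (.e (nat_lit 65604) (nat_lit 9) (.e (nat_lit 335997) (nat_lit 1) (.e (nat_lit 57870) (nat_lit 264) .nil)))))))) (.g (nat_lit 0) .nil .nil)))))) (.nd (nat_lit 3) (.nd (nat_lit 4) (.nd (nat_lit 5) 
(.lf (nat_lit 29061) (.g (nat_lit 3398) (.e (nat_lit 1200) (nat_lit 88) (.e (nat_lit 65571) (nat_lit 3) (.e (nat_lit 98373) (nat_lit 29) (.e (nat_lit 450588) (nat_lit 10) (.e (nat_lit 573475) (nat_lit 12) (.e (nat_lit 57348) (nat_lit 0) (.e (nat_lit 7236) (nat_lit 382) .nil))))))) (.g (nat_lit 4) .nil .nil))) 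
(.lf (nat_lit 29093) (.g (nat_lit 412) (.e (nat_lit 1200) (nat_lit 88) (.e (nat_lit 65598) (nat_lit 9) (.e (nat_lit 336013) (nat_lit 2) .nil))) .nil))) (.nd (nat_lit 5) 
(.lf (nat_lit 29077) (.g (nat_lit 2911) (.e (nat_lit 1200) (nat_lit 88) (.e (nat_lit 65581) (nat_lit 7) (.e (nat_lit 319534) (nat_lit 16) (.e (nat_lit 286756) (nat_lit 10) (.e (nat_lit 344169) (nat_lit 40) (.e (nat_lit 671751) (nat_lit 0) (.e (nat_lit 1182) (nat_lit 87) (.e (nat_lit 57728) (nat_lit 181) .nil)))))))) (.g (nat_lit 5) .nil .nil))) 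
(.lf (nat_lit 29109) (.g (nat_lit 2350) (.e (nat_lit 1200) (nat_lit 88) (.e (nat_lit 65604) (nat_lit 9) (.e (nat_lit 335907) (nat_lit 0) (.e (nat_lit 1996) (nat_lit 137) (.e (nat_lit 663567) (nat_lit 4) (.e (nat_lit 65604) (nat_lit 9) (.e (nat_lit 335997) (nat_lit 1) (.e (nat_lit 57871) (nat_lit 264) .nil)))))))) (.g (nat_lit 5) .nil .nil))))) (.nd (nat_lit 4) (.nd (nat_lit 5) 
(.lf (nat_lit 29069) (.g (nat_lit 2129) (.e (nat_lit 1200) (nat_lit 88) (.e (nat_lit 65581) (nat_lit 7) (.e (nat_lit 319533) (nat_lit 16) (.e (nat_lit 286753) (nat_lit 10) (.e (nat_lit 344168) (nat_lit 40) (.e (nat_lit 671751) (nat_lit 0) (.e (nat_lit 1182) (nat_lit 87) (.e (nat_lit 57728) (nat_lit 181) .nil)))))))) (.g (nat_lit 5) .nil .nil))) 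
(.lf (nat_lit 29101) (.g (nat_lit 2444) (.e (nat_lit 1200) (nat_lit 88) (.e (nat_lit 65604) (nat_lit 9) (.e (nat_lit 335907) (nat_lit 0) (.e (nat_lit 1994) (nat_lit 137) (.e (nat_lit 663567) (nat_lit 4) (.e (nat_lit 65619) (nat_lit 10) (.e (nat_lit 344097) (nat_lit 18) (.e (nat_lit 5905) (nat_lit 320) .nil)))))))) (.g (nat_lit 5) .nil .nil)))) (.nd (nat_lit 5) 
(.lf (nat_lit 29085) (.g (nat_lit 2502) (.e (nat_lit 1200) (nat_lit 88) (.e (nat_lit 65584) (nat_lit 7) (.e (nat_lit 319530) (nat_lit 16) (.e (nat_lit 286759) (nat_lit 12) (.e (nat_lit 385094) (nat_lit 49) (.e (nat_lit 778318) (nat_lit 3) (.e (nat_lit 57354) (nat_lit 0) (.e (nat_lit 6308) (nat_lit 337) .nil)))))))) (.g (nat_lit 4) .nil .nil))) 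
(.lf (nat_lit 29117) (.g (nat_lit 3499) (.e (nat_lit 1200) (nat_lit 88) (.e (nat_lit 65604) (nat_lit 9) (.e (nat_lit 335997) (nat_lit 1) (.e (nat_lit 57870) (nat_lit 264) (.e (nat_lit 1200) (nat_lit 88) (.e (nat_lit 65604) (nat_lit 9) (.e (nat_lit 335997) (nat_lit 1) (.e (nat_lit 57872) (nat_lit 264) .nil)))))))) (.g (nat_lit 0) .nil .nil))))))) 
(.nd (nat_lit 2) (.nd (nat_lit 3) (.nd (nat_lit 4) (.nd (nat_lit 5) 
(.lf (nat_lit 29059) (.g (nat_lit 3152) (.e (nat_lit 1200) (nat_lit 88) (.e (nat_lit 65571) (nat_lit 3) (.e (nat_lit 98373) (nat_lit 29) (.e (nat_lit 450588) (nat_lit 10) (.e (nat_lit 573475) (nat_lit 12) (.e (nat_lit 57345) (nat_lit 0) (.e (nat_lit 7236) (nat_lit 382) .nil))))))) (.g (nat_lit 4) .nil .nil))) 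
(.lf (nat_lit 29091) (.g (nat_lit 2695) (.e (nat_lit 1200) (nat_lit 88) (.e (nat_lit 65585) (nat_lit 7) (.e (nat_lit 319534) (nat_lit 16) (.e (nat_lit 286756) (nat_lit 10) (.e (nat_lit 344168) (nat_lit 40) (.e (nat_lit 671751) (nat_lit 0) (.e (nat_lit 1182) (nat_lit 87) (.e (nat_lit 57724) (nat_lit 181) .nil)))))))) (.g (nat_lit 4) .nil .nil)))) (.nd (nat_lit 5) 
(.lf (nat_lit 29075) (.g (nat_lit 3625) (.e (nat_lit 1200) (nat_lit 88) (.e (nat_lit 65581) (nat_lit 7) (.e (nat_lit 319534) (nat_lit 16) (.e (nat_lit 286756) (nat_lit 10) (.e (nat_lit 344168) (nat_lit 40) (.e (nat_lit 671751) (nat_lit 0) (.e (nat_lit 1182) (nat_lit 87) (.e (nat_lit 57731) (nat_lit 181) .nil)))))))) (.g (nat_lit 6) .nil .nil))) 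
(.lf (nat_lit 29107) (.g (nat_lit 2318) (.e (nat_lit 1200) (nat_lit 88) (.e (nat_lit 65604) (nat_lit 9) (.e (nat_lit 335907) (nat_lit 0) (.e (nat_lit 1996) (nat_lit 137) (.e (nat_lit 663567) (nat_lit 4) (.e (nat_lit 65598) (nat_lit 9) (.e (nat_lit 335997) (nat_lit 1) (.e (nat_lit 57871) (nat_lit 264) .nil)))))))) (.g (nat_lit 5) .nil .nil))))) (.nd (nat_lit 4) (.nd (nat_lit 5) 
(.lf (nat_lit 29067) (.g (nat_lit 2365) (.e (nat_lit 1200) (nat_lit 88) (.e (nat_lit 65581) (nat_lit 7) (.e (nat_lit 319531) (nat_lit 16) (.e (nat_lit 286756) (nat_lit 10) (.e (nat_lit 344169) (nat_lit 40) .nil))))) .nil)) 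
(.lf (nat_lit 29099) (.g (nat_lit 2693) (.e (nat_lit 1200) (nat_lit 88) (.e (nat_lit 65604) (nat_lit 9) (.e (nat_lit 335907) (nat_lit 0) (.e (nat_lit 1994) (nat_lit 137) (.e (nat_lit 663567) (nat_lit 4) (.e (nat_lit 65604) (nat_lit 9) (.e (nat_lit 335997) (nat_lit 1) (.e (nat_lit 57872) (nat_lit 264) .nil)))))))) (.g (nat_lit 6) .nil .nil)))) (.nd (nat_lit 5) 
(.lf (nat_lit 29083) (.g (nat_lit 2595) (.e (nat_lit 1200) (nat_lit 88) (.e (nat_lit 65584) (nat_lit 7) (.e (nat_lit 319530) (nat_lit 16) (.e (nat_lit 286759) (nat_lit 12) (.e (nat_lit 385094) (nat_lit 49) (.e (nat_lit 778317) (nat_lit 3) (.e (nat_lit 57354) (nat_lit 0) (.e (nat_lit 6308) (nat_lit 337) .nil)))))))) (.g (nat_lit 4) .nil .nil))) 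
(.lf (nat_lit 29115) (.g (nat_lit 3386) (.e (nat_lit 1200) (nat_lit 88) (.e (nat_lit 65604) (nat_lit 9) (.e (nat_lit 335997) (nat_lit 1) (.e (nat_lit 57870) (nat_lit 264) (.e (nat_lit 1200) (nat_lit 88) (.e (nat_lit 65604) (nat_lit 9) (.e (nat_lit 335997) (nat_lit 1) (.e (nat_lit 57870) (nat_lit 264) .nil)))))))) (.g (nat_lit 0) .nil .nil)))))) (.nd (nat_lit 3) (.nd (nat_lit 4) (.nd (nat_lit 5) 
(.lf (nat_lit 29063) (.g (nat_lit 2626) (.e (nat_lit 1200) (nat_lit 88) (.e (nat_lit 65578) (nat_lit 6) (.e (nat_lit 147458) (nat_lit 0) (.e (nat_lit 1597) (nat_lit 111) (.e (nat_lit 360466) (nat_lit 3) (.e (nat_lit 516117) (nat_lit 1) (.e (nat_lit 164166) (nat_lit 152) .nil))))))) (.g (nat_lit 7) .nil .nil))) 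
(.lf (nat_lit 29095) (.g (nat_lit 2538) (.e (nat_lit 1200) (nat_lit 88) (.e (nat_lit 65604) (nat_lit 9) (.e (nat_lit 335907) (nat_lit 0) (.e (nat_lit 1994) (nat_lit 137) (.e (nat_lit 663567) (nat_lit 4) (.e (nat_lit 65598) (nat_lit 9) (.e (nat_lit 335997) (nat_lit 1) (.e (nat_lit 57871) (nat_lit 264) .nil)))))))) (.g (nat_lit 5) .nil .nil)))) (.nd (nat_lit 5) 
(.lf (nat_lit 29079) (.g (nat_lit 987) (.e (nat_lit 1200) (nat_lit 88) (.e (nat_lit 65583) (nat_lit 7) (.e (nat_lit 319530) (nat_lit 16) (.e (nat_lit 286722) (nat_lit 0) .nil)))) .nil)) 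
(.lf (nat_lit 29111) (.g (nat_lit 1696) (.e (nat_lit 1200) (nat_lit 88) (.e (nat_lit 65604) (nat_lit 9) (.e (nat_lit 335907) (nat_lit 0) (.e (nat_lit 1996) (nat_lit 137) (.e (nat_lit 663569) (nat_lit 6) (.e (nat_lit 81948) (nat_lit 21) (.e (nat_lit 57871) (nat_lit 264) .nil))))))) (.g (nat_lit 4) .nil .nil))))) (.nd (nat_lit 4) (.nd (nat_lit 5) 
(.lf (nat_lit 29071) (.g (nat_lit 2613) (.e (nat_lit 1200) (nat_lit 88) (.e (nat_lit 65581) (nat_lit 7) (.e (nat_lit 319533) (nat_lit 16) (.e (nat_lit 286753) (nat_lit 10) (.e (nat_lit 344169) (nat_lit 40) (.e (nat_lit 671751) (nat_lit 0) (.e (nat_lit 1182) (nat_lit 87) (.e (nat_lit 57730) (nat_lit 181) .nil)))))))) (.g (nat_lit 5) .nil .nil))) 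
(.lf (nat_lit 29103) (.g (nat_lit 2856) (.e (nat_lit 1200) (nat_lit 88) (.e (nat_lit 65604) (nat_lit 9) (.e (nat_lit 335907) (nat_lit 0) (.e (nat_lit 1994) (nat_lit 137) (.e (nat_lit 663567) (nat_lit 4) (.e (nat_lit 65619) (nat_lit 10) (.e (nat_lit 344097) (nat_lit 18) (.e (nat_lit 5907) (nat_lit 320) .nil)))))))) (.g (nat_lit 6) .nil .nil)))) (.nd (nat_lit 5) 
(.lf (nat_lit 29087) (.g (nat_lit 1243) (.e (nat_lit 1200) (nat_lit 88) (.e (nat_lit 65584) (nat_lit 7) (.e (nat_lit 319539) (nat_lit 19) (.e (nat_lit 311358) (nat_lit 29) (.e (nat_lit 352309) (nat_lit 21) (.e (nat_lit 57873) (nat_lit 264) .nil)))))) (.g (nat_lit 4) .nil .nil))) 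
(.lf (nat_lit 29119) (.g (nat_lit 2631) (.e (nat_lit 1200) (nat_lit 88) (.e (nat_lit 65604) (nat_lit 9) (.e (nat_lit 335997) (nat_lit 1) (.e (nat_lit 57870) (nat_lit 264) (.e (nat_lit 1219) (nat_lit 90) (.e (nat_lit 81948) (nat_lit 21) (.e (nat_lit 57871) (nat_lit 264) .nil))))))) (.g (nat_lit 7) .nil .nil)))))))))

noncomputable def tv403 : DT := (.nd (nat_lit 0) (.nd (nat_lit 1) (.nd (nat_lit 2) (.nd (nat_lit 3) (.nd (nat_lit 4) (.nd (nat_lit 5) 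
(.lf (nat_lit 29120) (.g (nat_lit 1920) (.e (nat_lit 1200) (nat_lit 88) (.e (nat_lit 65604) (nat_lit 9) (.e (nat_lit 335997) (nat_lit 1) (.e (nat_lit 57870) (nat_lit 264) (.e (nat_lit 1219) (nat_lit 90) (.e (nat_lit 81950) (nat_lit 21) (.e (nat_lit 57870) (nat_lit 264) .nil))))))) (.g (nat_lit 5) .nil .nil))) 
(.lf (nat_lit 29152) (.g (nat_lit 2896) (.e (nat_lit 1200) (nat_lit 88) (.e (nat_lit 65604) (nat_lit 9) (.e (nat_lit 335997) (nat_lit 1) (.e (nat_lit 57872) (nat_lit 264) (.e (nat_lit 1221) (nat_lit 90) (.e (nat_lit 81948) (nat_lit 21) (.e (nat_lit 57871) (nat_lit 264) .nil))))))) (.g (nat_lit 6) .nil .nil)))) (.nd (nat_lit 5) 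
(.lf (nat_lit 29136) (.g (nat_lit 3371) (.e (nat_lit 1200) (nat_lit 88) (.e (nat_lit 65604) (nat_lit 9) (.e (nat_lit 335997) (nat_lit 1) (.e (nat_lit 57871) (nat_lit 264) (.e (nat_lit 1220) (nat_lit 90) (.e (nat_lit 81950) (nat_lit 21) (.e (nat_lit 57871) (nat_lit 264) .nil))))))) (.g (nat_lit 7) .nil .nil))) 
(.lf (nat_lit 29168) (.g (nat_lit 2747) (.e (nat_lit 1200) (nat_lit 88) (.e (nat_lit 65604) (nat_lit 9) (.e (nat_lit 336013) (nat_lit 2) (.e (nat_lit 90134) (nat_lit 9) (.e (nat_lit 3098) (nat_lit 192) (.e (nat_lit 491566) (nat_lit 12) (.e (nat_lit 385043) (nat_lit 21) (.e (nat_lit 4210) (nat_lit 251) .nil)))))))) (.g (nat_lit 4) .nil .nil))))) (.nd (nat_lit 4) (.nd (nat_lit 5) 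
(.lf (nat_lit 29128) (.g (nat_lit 3252) (.e (nat_lit 1200) (nat_lit 88) (.e (nat_lit 65604) (nat_lit 9) (.e (nat_lit 335997) (nat_lit 1) (.e (nat_lit 57870) (nat_lit 264) (.e (nat_lit 1221) (nat_lit 90) (.e (nat_lit 81959) (nat_lit 24) (.e (nat_lit 123191) (nat_lit 264) .nil))))))) (.g (nat_lit 6) .nil .nil))) 
(.lf (nat_lit 29160) (.g (nat_lit 2845) (.e (nat_lit 1200) (nat_lit 88) (.e (nat_lit 65604) (nat_lit 9) (.e (nat_lit 336013) (nat_lit 2) (.e (nat_lit 90134) (nat_lit 9) (.e (nat_lit 3098) (nat_lit 192) (.e (nat_lit 491566) (nat_lit 12) (.e (nat_lit 385043) (nat_lit 21) (.e (nat_lit 4196) (nat_lit 251) .nil)))))))) (.g (nat_lit 4) .nil .nil)))) (.nd (nat_lit 5) 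
(.lf (nat_lit 29144) (.g (nat_lit 2419) (.e (nat_lit 1200) (nat_lit 88) (.e (nat_lit 65604) (nat_lit 9) (.e (nat_lit 335997) (nat_lit 1) (.e (nat_lit 57872) (nat_lit 264) (.e (nat_lit 1219) (nat_lit 90) (.e (nat_lit 81950) (nat_lit 21) (.e (nat_lit 57870) (nat_lit 264) .nil))))))) (.g (nat_lit 5) .nil .nil))) 
(.lf (nat_lit 29176) (.g (nat_lit 3649) (.e (nat_lit 1200) (nat_lit 88) (.e (nat_lit 65604) (nat_lit 9) (.e (nat_lit 336013) (nat_lit 2) (.e (nat_lit 90170) (nat_lit 13) (.e (nat_lit 172059) (nat_lit 1) (.e (nat_lit 164325) (nat_lit 230) (.e (nat_lit 163861) (nat_lit 1) (.e (nat_lit 164133) (nat_lit 134) .nil)))))))) (.g (nat_lit 6) .nil .nil)))))) 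
(.nd (nat_lit 3) (.nd (nat_lit 4) (.nd (nat_lit 5) 
(.lf (nat_lit 29124) (.g (nat_lit 1951) (.e (nat_lit 1200) (nat_lit 88) (.e (nat_lit 65604) (nat_lit 9) (.e (nat_lit 335997) (nat_lit 1) (.e (nat_lit 57870) (nat_lit 264) (.e (nat_lit 1221) (nat_lit 90) (.e (nat_lit 81948) (nat_lit 21) (.e (nat_lit 57871) (nat_lit 264) .nil))))))) (.g (nat_lit 5) .nil .nil))) 
(.lf (nat_lit 29156) (.g (nat_lit 3367) (.e (nat_lit 1200) (nat_lit 88) (.e (nat_lit 65604) (nat_lit 9) (.e (nat_lit 335997) (nat_lit 1) (.e (nat_lit 57872) (nat_lit 264) (.e (nat_lit 1221) (nat_lit 90) (.e (nat_lit 81950) (nat_lit 21) (.e (nat_lit 57871) (nat_lit 264) .nil))))))) (.g (nat_lit 7) .nil .nil)))) (.nd (nat_lit 5) 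
(.lf (nat_lit 29140) (.g (nat_lit 3615) (.e (nat_lit 1200) (nat_lit 88) (.e (nat_lit 65604) (nat_lit 9) (.e (nat_lit 335997) (nat_lit 1) (.e (nat_lit 57871) (nat_lit 264) (.e (nat_lit 1221) (nat_lit 90) (.e (nat_lit 81950) (nat_lit 21) (.e (nat_lit 57873) (nat_lit 264) .nil))))))) (.g (nat_lit 7) .nil .nil))) 
(.lf (nat_lit 29172) (.g (nat_lit 2679) (.e (nat_lit 1200) (nat_lit 88) (.e (nat_lit 65604) (nat_lit 9) (.e (nat_lit 336013) (nat_lit 2) (.e (nat_lit 90134) (nat_lit 9) (.e (nat_lit 3098) (nat_lit 192) (.e (nat_lit 491566) (nat_lit 12) (.e (nat_lit 385045) (nat_lit 21) (.e (nat_lit 4208) (nat_lit 251) .nil)))))))) (.g (nat_lit 4) .nil .nil))))) (.nd (nat_lit 4) (.nd (nat_lit 5) 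
(.lf (nat_lit 29132) (.g (nat_lit 3891) (.e (nat_lit 1200) (nat_lit 88) (.e (nat_lit 65604) (nat_lit 9) (.e (nat_lit 335997) (nat_lit 1) (.e (nat_lit 57871) (nat_lit 264) (.e (nat_lit 1200) (nat_lit 88) (.e (nat_lit 65619) (nat_lit 10) (.e (nat_lit 344097) (nat_lit 18) (.e (nat_lit 5906) (nat_lit 320) .nil)))))))) (.g (nat_lit 0) .nil .nil))) 
(.lf (nat_lit 29164) (.g (nat_lit 2864) (.e (nat_lit 1200) (nat_lit 88) (.e (nat_lit 65604) (nat_lit 9) (.e (nat_lit 336013) (nat_lit 2) (.e (nat_lit 90134) (nat_lit 9) (.e (nat_lit 3098) (nat_lit 192) (.e (nat_lit 491566) (nat_lit 12) (.e (nat_lit 385043) (nat_lit 21) (.e (nat_lit 4200) (nat_lit 251) .nil)))))))) (.g (nat_lit 4) .nil .nil)))) (.nd (nat_lit 5) 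
(.lf (nat_lit 29148) (.g (nat_lit 2852) (.e (nat_lit 1200) (nat_lit 88) (.e (nat_lit 65604) (nat_lit 9) (.e (nat_lit 335997) (nat_lit 1) (.e (nat_lit 57872) (nat_lit 264) (.e (nat_lit 1220) (nat_lit 90) (.e (nat_lit 81950) (nat_lit 21) (.e (nat_lit 57870) (nat_lit 264) .nil))))))) (.g (nat_lit 6) .nil .nil))) 
(.lf (nat_lit 29180) (.g (nat_lit 2723) (.e (nat_lit 1200) (nat_lit 88) (.e (nat_lit 65604) (nat_lit 9) (.e (nat_lit 336028) (nat_lit 3) (.e (nat_lit 106240) (nat_lit 16) (.e (nat_lit 401454) (nat_lit 12) (.e (nat_lit 475155) (nat_lit 21) (.e (nat_lit 4609) (nat_lit 269) .nil))))))) (.g (nat_lit 6) .nil .nil))))))) (.nd (nat_lit 2) (.nd (nat_lit 3) (.nd (nat_lit 4) (.nd (nat_lit 5) 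
(.lf (nat_lit 29122) (.g (nat_lit 3386) (.e (nat_lit 1200) (nat_lit 88) (.e (nat_lit 65604) (nat_lit 9) (.e (nat_lit 335997) (nat_lit 1) (.e (nat_lit 57870) (nat_lit 264) (.e (nat_lit 1220) (nat_lit 90) (.e (nat_lit 81950) (nat_lit 21) (.e (nat_lit 57871) (nat_lit 264) .nil))))))) (.g (nat_lit 7) .nil .nil))) 
(.lf (nat_lit 29154) (.g (nat_lit 3136) (.e (nat_lit 1200) (nat_lit 88) (.e (nat_lit 65604) (nat_lit 9) (.e (nat_lit 335997) (nat_lit 1) (.e (nat_lit 57872) (nat_lit 264) (.e (nat_lit 1221) (nat_lit 90) (.e (nat_lit 81948) (nat_lit 21) (.e (nat_lit 57873) (nat_lit 264) .nil))))))) (.g (nat_lit 6) .nil .nil)))) (.nd (nat_lit 5) 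
(.lf (nat_lit 29138) (.g (nat_lit 3209) (.e (nat_lit 1200) (nat_lit 88) (.e (nat_lit 65604) (nat_lit 9) (.e (nat_lit 335997) (nat_lit 1) (.e (nat_lit 57871) (nat_lit 264) (.e (nat_lit 1221) (nat_lit 90) (.e (nat_lit 81950) (nat_lit 21) (.e (nat_lit 57871) (nat_lit 264) .nil))))))) (.g (nat_lit 7) .nil .nil))) 
(.lf (nat_lit 29170) (.g (nat_lit 2700) (.e (nat_lit 1200) (nat_lit 88) (.e (nat_lit 65604) (nat_lit 9) (.e (nat_lit 336013) (nat_lit 2) (.e (nat_lit 90134) (nat_lit 9) (.e (nat_lit 3098) (nat_lit 192) (.e (nat_lit 491566) (nat_lit 12) (.e (nat_lit 385043) (nat_lit 21) (.e (nat_lit 4213) (nat_lit 251) .nil)))))))) (.g (nat_lit 4) .nil .nil))))) (.nd (nat_lit 4) (.nd (nat_lit 5) 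
(.lf (nat_lit 29130) (.g (nat_lit 3292) (.e (nat_lit 1200) (nat_lit 88) (.e (nat_lit 65604) (nat_lit 9) (.e (nat_lit 335997) (nat_lit 1) (.e (nat_lit 57871) (nat_lit 264) (.e (nat_lit 1200) (nat_lit 88) (.e (nat_lit 65604) (nat_lit 9) (.e (nat_lit 335997) (nat_lit 1) (.e (nat_lit 57871) (nat_lit 264) .nil)))))))) (.g (nat_lit 7) .nil .nil))) 
(.lf (nat_lit 29162) (.g (nat_lit 2922) (.e (nat_lit 1200) (nat_lit 88) (.e (nat_lit 65604) (nat_lit 9) (.e (nat_lit 336013) (nat_lit 2) (.e (nat_lit 90134) (nat_lit 9) (.e (nat_lit 3098) (nat_lit 192) (.e (nat_lit 491566) (nat_lit 12) (.e (nat_lit 385043) (nat_lit 21) (.e (nat_lit 4198) (nat_lit 251) .nil)))))))) (.g (nat_lit 4) .nil .nil)))) (.nd (nat_lit 5) 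
(.lf (nat_lit 29146) (.g (nat_lit 3037) (.e (nat_lit 1200) (nat_lit 88) (.e (nat_lit 65604) (nat_lit 9) (.e (nat_lit 335997) (nat_lit 1) (.e (nat_lit 57872) (nat_lit 264) (.e (nat_lit 1219) (nat_lit 90) (.e (nat_lit 81950) (nat_lit 21) (.e (nat_lit 57872) (nat_lit 264) .nil))))))) (.g (nat_lit 6) .nil .nil))) 
(.lf (nat_lit 29178) (.g (nat_lit 1066) (.e (nat_lit 1200) (nat_lit 88) (.e (nat_lit 65604) (nat_lit 9) (.e (nat_lit 336028) (nat_lit 3) (.e (nat_lit 106240) (nat_lit 10) .nil)))) .nil))))) (.nd (nat_lit 3) (.nd (nat_lit 4) (.nd (nat_lit 5) 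
(.lf (nat_lit 29126) (.g (nat_lit 3197) (.e (nat_lit 1200) (nat_lit 88) (.e (nat_lit 65604) (nat_lit 9) (.e (nat_lit 335997) (nat_lit 1) (.e (nat_lit 57870) (nat_lit 264) (.e (nat_lit 1221) (nat_lit 90) (.e (nat_lit 81950) (nat_lit 21) (.e (nat_lit 57870) (nat_lit 264) .nil))))))) (.g (nat_lit 0) .nil .nil))) 
(.lf (nat_lit 29158) (.g (nat_lit 735) (.e (nat_lit 1200) (nat_lit 88) (.e (nat_lit 65604) (nat_lit 9) (.e (nat_lit 336013) (nat_lit 2) .nil))) .nil))) (.nd (nat_lit 5) 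
(.lf (nat_lit 29142) (.g (nat_lit 3102) (.e (nat_lit 1200) (nat_lit 88) (.e (nat_lit 65604) (nat_lit 9) (.e (nat_lit 335997) (nat_lit 1) (.e (nat_lit 57872) (nat_lit 264) (.e (nat_lit 1219) (nat_lit 90) (.e (nat_lit 81948) (nat_lit 21) (.e (nat_lit 57870) (nat_lit 264) .nil))))))) (.g (nat_lit 0) .nil .nil))) 
(.lf (nat_lit 29174) (.g (nat_lit 1956) (.e (nat_lit 1200) (nat_lit 88) (.e (nat_lit 65604) (nat_lit 9) (.e (nat_lit 336013) (nat_lit 2) (.e (nat_lit 90165) (nat_lit 12) (.e (nat_lit 171776) (nat_lit 192) .nil))))) .nil)))) (.nd (nat_lit 4) (.nd (nat_lit 5) 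
(.lf (nat_lit 29134) (.g (nat_lit 2594) (.e (nat_lit 1200) (nat_lit 88) (.e (nat_lit 65604) (nat_lit 9) (.e (nat_lit 335997) (nat_lit 1) (.e (nat_lit 57871) (nat_lit 264) (.e (nat_lit 1219) (nat_lit 90) (.e (nat_lit 81948) (nat_lit 21) (.e (nat_lit 57871) (nat_lit 264) .nil))))))) (.g (nat_lit 7) .nil .nil))) 
(.lf (nat_lit 29166) (.g (nat_lit 3024) (.e (nat_lit 1200) (nat_lit 88) (.e (nat_lit 65604) (nat_lit 9) (.e (nat_lit 336013) (nat_lit 2) (.e (nat_lit 90134) (nat_lit 9) (.e (nat_lit 3098) (nat_lit 192) (.e (nat_lit 491566) (nat_lit 12) (.e (nat_lit 385043) (nat_lit 21) (.e (nat_lit 4205) (nat_lit 251) .nil)))))))) (.g (nat_lit 4) .nil .nil)))) (.nd (nat_lit 5) 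
(.lf (nat_lit 29150) (.g (nat_lit 3175) (.e (nat_lit 1200) (nat_lit 88) (.e (nat_lit 65604) (nat_lit 9) (.e (nat_lit 335997) (nat_lit 1) (.e (nat_lit 57872) (nat_lit 264) (.e (nat_lit 1220) (nat_lit 90) (.e (nat_lit 81950) (nat_lit 21) (.e (nat_lit 57873) (nat_lit 264) .nil))))))) (.g (nat_lit 7) .nil .nil))) 
(.lf (nat_lit 29182) (.g (nat_lit 2142) (.e (nat_lit 1200) (nat_lit 88) (.e (nat_lit 65619) (nat_lit 10) (.e (nat_lit 344090) (nat_lit 18) (.e (nat_lit 5896) (nat_lit 320) (.e (nat_lit 1190) (nat_lit 88) (.e (nat_lit 65619) (nat_lit 10) (.e (nat_lit 344097) (nat_lit 18) (.e (nat_lit 5907) (nat_lit 320) .nil)))))))) (.g (nat_lit 4) .nil .nil)))))))) 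
(.nd (nat_lit 1) (.nd (nat_lit 2) (.nd (nat_lit 3) (.nd (nat_lit 4) (.nd (nat_lit 5) 
(.lf (nat_lit 29121) (.g (nat_lit 3461) (.e (nat_lit 1200) (nat_lit 88) (.e (nat_lit 65604) (nat_lit 9) (.e (nat_lit 335997) (nat_lit 1) (.e (nat_lit 57870) (nat_lit 264) (.e (nat_lit 1220) (nat_lit 90) (.e (nat_lit 81950) (nat_lit 21) (.e (nat_lit 57870) (nat_lit 264) .nil))))))) (.g (nat_lit 0) .nil .nil))) 
(.lf (nat_lit 29153) (.g (nat_lit 3374) (.e (nat_lit 1200) (nat_lit 88) (.e (nat_lit 65604) (nat_lit 9) (.e (nat_lit 335997) (nat_lit 1) (.e (nat_lit 57872) (nat_lit 264) (.e (nat_lit 1221) (nat_lit 90) (.e (nat_lit 81948) (nat_lit 21) (.e (nat_lit 57872) (nat_lit 264) .nil))))))) (.g (nat_lit 7) .nil .nil)))) (.nd (nat_lit 5) 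
(.lf (nat_lit 29137) (.g (nat_lit 3246) (.e (nat_lit 1200) (nat_lit 88) (.e (nat_lit 65604) (nat_lit 9) (.e (nat_lit 335997) (nat_lit 1) (.e (nat_lit 57871) (nat_lit 264) (.e (nat_lit 1221) (nat_lit 90) (.e (nat_lit 81950) (nat_lit 21) (.e (nat_lit 57870) (nat_lit 264) .nil))))))) (.g (nat_lit 0) .nil .nil))) 
(.lf (nat_lit 29169) (.g (nat_lit 2970) (.e (nat_lit 1200) (nat_lit 88) (.e (nat_lit 65604) (nat_lit 9) (.e (nat_lit 336013) (nat_lit 2) (.e (nat_lit 90134) (nat_lit 9) (.e (nat_lit 3098) (nat_lit 192) (.e (nat_lit 491566) (nat_lit 12) (.e (nat_lit 385043) (nat_lit 21) (.e (nat_lit 4212) (nat_lit 251) .nil)))))))) (.g (nat_lit 4) .nil .nil))))) (.nd (nat_lit 4) (.nd (nat_lit 5) 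
(.lf (nat_lit 29129) (.g (nat_lit 3203) (.e (nat_lit 1200) (nat_lit 88) (.e (nat_lit 65604) (nat_lit 9) (.e (nat_lit 335997) (nat_lit 1) (.e (nat_lit 57871) (nat_lit 264) (.e (nat_lit 1190) (nat_lit 88) (.e (nat_lit 65604) (nat_lit 9) (.e (nat_lit 335997) (nat_lit 1) (.e (nat_lit 57871) (nat_lit 264) .nil)))))))) (.g (nat_lit 7) .nil .nil))) 
(.lf (nat_lit 29161) (.g (nat_lit 2729) (.e (nat_lit 1200) (nat_lit 88) (.e (nat_lit 65604) (nat_lit 9) (.e (nat_lit 336013) (nat_lit 2) (.e (nat_lit 90134) (nat_lit 9) (.e (nat_lit 3098) (nat_lit 192) (.e (nat_lit 491566) (nat_lit 12) (.e (nat_lit 385043) (nat_lit 21) (.e (nat_lit 4197) (nat_lit 251) .nil)))))))) (.g (nat_lit 4) .nil .nil)))) (.nd (nat_lit 5) 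
(.lf (nat_lit 29145) (.g (nat_lit 2313) (.e (nat_lit 1200) (nat_lit 88) (.e (nat_lit 65604) (nat_lit 9) (.e (nat_lit 335997) (nat_lit 1) (.e (nat_lit 57872) (nat_lit 264) (.e (nat_lit 1219) (nat_lit 90) (.e (nat_lit 81950) (nat_lit 21) (.e (nat_lit 57871) (nat_lit 264) .nil))))))) (.g (nat_lit 5) .nil .nil))) 
(.lf (nat_lit 29177) (.g (nat_lit 388) (.e (nat_lit 1200) (nat_lit 88) (.e (nat_lit 65604) (nat_lit 9) (.e (nat_lit 336028) (nat_lit 3) .nil))) .nil))))) (.nd (nat_lit 3) (.nd (nat_lit 4) (.nd (nat_lit 5) 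
(.lf (nat_lit 29125) (.g (nat_lit 2191) (.e (nat_lit 1200) (nat_lit 88) (.e (nat_lit 65604) (nat_lit 9) (.e (nat_lit 335997) (nat_lit 1) (.e (nat_lit 57870) (nat_lit 264) (.e (nat_lit 1221) (nat_lit 90) (.e (nat_lit 81948) (nat_lit 21) (.e (nat_lit 57873) (nat_lit 264) .nil))))))) (.g (nat_lit 5) .nil .nil))) 
(.lf (nat_lit 29157) (.g (nat_lit 3489) (.e (nat_lit 1200) (nat_lit 88) (.e (nat_lit 65604) (nat_lit 9) (.e (nat_lit 335997) (nat_lit 1) (.e (nat_lit 57872) (nat_lit 264) (.e (nat_lit 1221) (nat_lit 90) (.e (nat_lit 81959) (nat_lit 24) (.e (nat_lit 123191) (nat_lit 264) .nil))))))) (.g (nat_lit 0) .nil .nil)))) (.nd (nat_lit 5) 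
(.lf (nat_lit 29141) (.g (nat_lit 3612) (.e (nat_lit 1200) (nat_lit 88) (.e (nat_lit 65604) (nat_lit 9) (.e (nat_lit 335997) (nat_lit 1) (.e (nat_lit 57872) (nat_lit 264) (.e (nat_lit 1200) (nat_lit 88) (.e (nat_lit 65604) (nat_lit 9) (.e (nat_lit 335997) (nat_lit 1) (.e (nat_lit 57872) (nat_lit 264) .nil)))))))) (.g (nat_lit 0) .nil .nil))) 
(.lf (nat_lit 29173) (.g (nat_lit 1469) (.e (nat_lit 1200) (nat_lit 88) (.e (nat_lit 65604) (nat_lit 9) (.e (nat_lit 336013) (nat_lit 2) (.e (nat_lit 90165) (nat_lit 12) .nil)))) .nil)))) (.nd (nat_lit 4) (.nd (nat_lit 5) 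
(.lf (nat_lit 29133) (.g (nat_lit 4107) (.e (nat_lit 1200) (nat_lit 88) (.e (nat_lit 65604) (nat_lit 9) (.e (nat_lit 335997) (nat_lit 1) (.e (nat_lit 57871) (nat_lit 264) (.e (nat_lit 1200) (nat_lit 88) (.e (nat_lit 65619) (nat_lit 10) (.e (nat_lit 344097) (nat_lit 18) (.e (nat_lit 5907) (nat_lit 320) .nil)))))))) (.g (nat_lit 0) .nil .nil))) 
(.lf (nat_lit 29165) (.g (nat_lit 3042) (.e (nat_lit 1200) (nat_lit 88) (.e (nat_lit 65604) (nat_lit 9) (.e (nat_lit 336013) (nat_lit 2) (.e (nat_lit 90134) (nat_lit 9) (.e (nat_lit 3098) (nat_lit 192) (.e (nat_lit 491566) (nat_lit 12) (.e (nat_lit 385043) (nat_lit 21) (.e (nat_lit 4202) (nat_lit 251) .nil)))))))) (.g (nat_lit 4) .nil .nil)))) (.nd (nat_lit 5) 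
(.lf (nat_lit 29149) (.g (nat_lit 3199) (.e (nat_lit 1200) (nat_lit 88) (.e (nat_lit 65604) (nat_lit 9) (.e (nat_lit 335997) (nat_lit 1) (.e (nat_lit 57872) (nat_lit 264) (.e (nat_lit 1220) (nat_lit 90) (.e (nat_lit 81950) (nat_lit 21) (.e (nat_lit 57872) (nat_lit 264) .nil))))))) (.g (nat_lit 6) .nil .nil))) 
(.lf (nat_lit 29181) (.g (nat_lit 1123) (.e (nat_lit 1200) (nat_lit 88) (.e (nat_lit 65604) (nat_lit 9) (.e (nat_lit 336028) (nat_lit 3) (.e (nat_lit 98325) (nat_lit 17) .nil)))) .nil)))))) (.nd (nat_lit 2) (.nd (nat_lit 3) (.nd (nat_lit 4) (.nd (nat_lit 5) 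
(.lf (nat_lit 29123) (.g (nat_lit 2068) (.e (nat_lit 1200) (nat_lit 88) (.e (nat_lit 65604) (nat_lit 9) (.e (nat_lit 335997) (nat_lit 1) (.e (nat_lit 57870) (nat_lit 264) (.e (nat_lit 1221) (nat_lit 90) (.e (nat_lit 81948) (nat_lit 21) (.e (nat_lit 57870) (nat_lit 264) .nil))))))) (.g (nat_lit 5) .nil .nil))) 
(.lf (nat_lit 29155) (.g (nat_lit 3431) (.e (nat_lit 1200) (nat_lit 88) (.e (nat_lit 65604) (nat_lit 9) (.e (nat_lit 335997) (nat_lit 1) (.e (nat_lit 57872) (nat_lit 264) (.e (nat_lit 1221) (nat_lit 90) (.e (nat_lit 81950) (nat_lit 21) (.e (nat_lit 57870) (nat_lit 264) .nil))))))) (.g (nat_lit 0) .nil .nil)))) (.nd (nat_lit 5) 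
(.lf (nat_lit 29139) (.g (nat_lit 3660) (.e (nat_lit 1200) (nat_lit 88) (.e (nat_lit 65604) (nat_lit 9) (.e (nat_lit 335997) (nat_lit 1) (.e (nat_lit 57871) (nat_lit 264) (.e (nat_lit 1221) (nat_lit 90) (.e (nat_lit 81950) (nat_lit 21) (.e (nat_lit 57872) (nat_lit 264) .nil))))))) (.g (nat_lit 0) .nil .nil))) 
(.lf (nat_lit 29171) (.g (nat_lit 2776) (.e (nat_lit 1200) (nat_lit 88) (.e (nat_lit 65604) (nat_lit 9) (.e (nat_lit 336013) (nat_lit 2) (.e (nat_lit 90134) (nat_lit 9) (.e (nat_lit 3098) (nat_lit 192) (.e (nat_lit 491566) (nat_lit 12) (.e (nat_lit 385043) (nat_lit 21) (.e (nat_lit 4214) (nat_lit 251) .nil)))))))) (.g (nat_lit 4) .nil .nil))))) (.nd (nat_lit 4) (.nd (nat_lit 5) 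
(.lf (nat_lit 29131) (.g (nat_lit 3452) (.e (nat_lit 1200) (nat_lit 88) (.e (nat_lit 65604) (nat_lit 9) (.e (nat_lit 335997) (nat_lit 1) (.e (nat_lit 57871) (nat_lit 264) (.e (nat_lit 1200) (nat_lit 88) (.e (nat_lit 65604) (nat_lit 9) (.e (nat_lit 335997) (nat_lit 1) (.e (nat_lit 57872) (nat_lit 264) .nil)))))))) (.g (nat_lit 8) .nil .nil))) 
(.lf (nat_lit 29163) (.g (nat_lit 2806) (.e (nat_lit 1200) (nat_lit 88) (.e (nat_lit 65604) (nat_lit 9) (.e (nat_lit 336013) (nat_lit 2) (.e (nat_lit 90134) (nat_lit 9) (.e (nat_lit 3098) (nat_lit 192) (.e (nat_lit 491566) (nat_lit 12) (.e (nat_lit 385043) (nat_lit 21) (.e (nat_lit 4199) (nat_lit 251) .nil)))))))) (.g (nat_lit 4) .nil .nil)))) (.nd (nat_lit 5) 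
(.lf (nat_lit 29147) (.g (nat_lit 3029) (.e (nat_lit 1200) (nat_lit 88) (.e (nat_lit 65604) (nat_lit 9) (.e (nat_lit 335997) (nat_lit 1) (.e (nat_lit 57872) (nat_lit 264) (.e (nat_lit 1219) (nat_lit 90) (.e (nat_lit 81950) (nat_lit 21) (.e (nat_lit 57873) (nat_lit 264) .nil))))))) (.g (nat_lit 6) .nil .nil))) 
(.lf (nat_lit 29179) (.g (nat_lit 2693) (.e (nat_lit 1200) (nat_lit 88) (.e (nat_lit 65604) (nat_lit 9) (.e (nat_lit 336028) (nat_lit 3) (.e (nat_lit 106240) (nat_lit 16) (.e (nat_lit 401454) (nat_lit 12) (.e (nat_lit 475155) (nat_lit 21) (.e (nat_lit 4564) (nat_lit 269) .nil))))))) (.g (nat_lit 6) .nil .nil)))))) (.nd (nat_lit 3) (.nd (nat_lit 4) (.nd (nat_lit 5) 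
(.lf (nat_lit 29127) (.g (nat_lit 3133) (.e (nat_lit 1200) (nat_lit 88) (.e (nat_lit 65604) (nat_lit 9) (.e (nat_lit 335997) (nat_lit 1) (.e (nat_lit 57870) (nat_lit 264) (.e (nat_lit 1221) (nat_lit 90) (.e (nat_lit 81950) (nat_lit 21) (.e (nat_lit 57871) (nat_lit 264) .nil))))))) (.g (nat_lit 7) .nil .nil))) 
(.lf (nat_lit 29159) (.g (nat_lit 3959) (.e (nat_lit 1200) (nat_lit 88) (.e (nat_lit 65604) (nat_lit 9) (.e (nat_lit 336013) (nat_lit 2) (.e (nat_lit 90119) (nat_lit 0) .nil)))) .nil))) (.nd (nat_lit 5) 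
(.lf (nat_lit 29143) (.g (nat_lit 3018) (.e (nat_lit 1200) (nat_lit 88) (.e (nat_lit 65604) (nat_lit 9) (.e (nat_lit 335997) (nat_lit 1) (.e (nat_lit 57872) (nat_lit 264) (.e (nat_lit 1219) (nat_lit 90) (.e (nat_lit 81948) (nat_lit 21) (.e (nat_lit 57871) (nat_lit 264) .nil))))))) (.g (nat_lit 7) .nil .nil))) 
(.lf (nat_lit 29175) (.g (nat_lit 2250) (.e (nat_lit 1200) (nat_lit 88) (.e (nat_lit 65604) (nat_lit 9) (.e (nat_lit 336013) (nat_lit 2) (.e (nat_lit 90165) (nat_lit 12) (.e (nat_lit 171776) (nat_lit 192) (.e (nat_lit 73736) (nat_lit 0) (.e (nat_lit 3962) (nat_lit 239) .nil))))))) (.g (nat_lit 4) .nil .nil))))) (.nd (nat_lit 4) (.nd (nat_lit 5) 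
(.lf (nat_lit 29135) (.g (nat_lit 1944) (.e (nat_lit 1200) (nat_lit 88) (.e (nat_lit 65604) (nat_lit 9) (.e (nat_lit 335997) (nat_lit 1) (.e (nat_lit 57871) (nat_lit 264) (.e (nat_lit 1219) (nat_lit 90) (.e (nat_lit 81950) (nat_lit 21) (.e (nat_lit 57870) (nat_lit 264) .nil))))))) (.g (nat_lit 5) .nil .nil))) 
(.lf (nat_lit 29167) (.g (nat_lit 2730) (.e (nat_lit 1200) (nat_lit 88) (.e (nat_lit 65604) (nat_lit 9) (.e (nat_lit 336013) (nat_lit 2) (.e (nat_lit 90134) (nat_lit 9) (.e (nat_lit 3098) (nat_lit 192) (.e (nat_lit 491566) (nat_lit 12) (.e (nat_lit 385043) (nat_lit 21) (.e (nat_lit 4209) (nat_lit 251) .nil)))))))) (.g (nat_lit 4) .nil .nil)))) (.nd (nat_lit 5) 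
(.lf (nat_lit 29151) (.g (nat_lit 3013) (.e (nat_lit 1200) (nat_lit 88) (.e (nat_lit 65604) (nat_lit 9) (.e (nat_lit 335997) (nat_lit 1) (.e (nat_lit 57872) (nat_lit 264) (.e (nat_lit 1221) (nat_lit 90) (.e (nat_lit 81948) (nat_lit 21) (.e (nat_lit 57870) (nat_lit 264) .nil))))))) (.g (nat_lit 6) .nil .nil))) 
(.lf (nat_lit 29183) (.g (nat_lit 1654) (.e (nat_lit 1200) (nat_lit 88) (.e (nat_lit 65619) (nat_lit 10) (.e (nat_lit 344090) (nat_lit 18) (.e (nat_lit 5896) (nat_lit 320) (.e (nat_lit 1200) (nat_lit 88) .nil))))) .nil))))))))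

noncomputable def tv404 : DT := (.nd (nat_lit 0) (.nd (nat_lit 1) (.nd (nat_lit 2) (.nd (nat_lit 3) (.nd (nat_lit 4) (.nd (nat_lit 5) 
(.lf (nat_lit 29184) (.g (nat_lit 2039) (.e (nat_lit 1200) (nat_lit 88) (.e (nat_lit 65619) (nat_lit 10) (.e (nat_lit 344090) (nat_lit 18) (.e (nat_lit 5896) (nat_lit 320) (.e (nat_lit 1200) (nat_lit 88) (.e (nat_lit 65619) (nat_lit 10) (.e (nat_lit 344097) (nat_lit 18) (.e (nat_lit 5905) (nat_lit 320) .nil)))))))) (.g (nat_lit 4) .nil .nil))) 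
(.lf (nat_lit 29216) (.g (nat_lit 3180) (.e (nat_lit 1200) (nat_lit 88) (.e (nat_lit 65619) (nat_lit 10) (.e (nat_lit 344097) (nat_lit 18) (.e (nat_lit 5906) (nat_lit 320) (.e (nat_lit 1219) (nat_lit 90) (.e (nat_lit 81948) (nat_lit 21) (.e (nat_lit 57871) (nat_lit 264) .nil))))))) (.g (nat_lit 7) .nil .nil)))) (.nd (nat_lit 5) 
(.lf (nat_lit 29200) (.g (nat_lit 3306) (.e (nat_lit 1200) (nat_lit 88) (.e (nat_lit 65619) (nat_lit 10) (.e (nat_lit 344097) (nat_lit 18) (.e (nat_lit 5905) (nat_lit 320) (.e (nat_lit 1219) (nat_lit 90) (.e (nat_lit 81948) (nat_lit 21) (.e (nat_lit 57871) (nat_lit 264) .nil))))))) (.g (nat_lit 7) .nil .nil))) 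
(.lf (nat_lit 29232) (.g (nat_lit 2054) (.e (nat_lit 1200) (nat_lit 88) (.e (nat_lit 65619) (nat_lit 10) (.e (nat_lit 344097) (nat_lit 18) (.e (nat_lit 5907) (nat_lit 320) (.e (nat_lit 988) (nat_lit 81) .nil))))) .nil)))) (.nd (nat_lit 4) (.nd (nat_lit 5) 
(.lf (nat_lit 29192) (.g (nat_lit 1022) (.e (nat_lit 1200) (nat_lit 88) (.e (nat_lit 65619) (nat_lit 10) (.e (nat_lit 344097) (nat_lit 18) (.e (nat_lit 5905) (nat_lit 320) .nil)))) .nil)) 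
(.lf (nat_lit 29224) (.g (nat_lit 3386) (.e (nat_lit 1200) (nat_lit 88) (.e (nat_lit 65619) (nat_lit 10) (.e (nat_lit 344097) (nat_lit 18) (.e (nat_lit 5906) (nat_lit 320) (.e (nat_lit 1221) (nat_lit 90) (.e (nat_lit 81948) (nat_lit 21) (.e (nat_lit 57872) (nat_lit 264) .nil))))))) (.g (nat_lit 7) .nil .nil)))) (.nd (nat_lit 5) 
(.lf (nat_lit 29208) (.g (nat_lit 4165) (.e (nat_lit 1200) (nat_lit 88) (.e (nat_lit 65619) (nat_lit 10) (.e (nat_lit 344097) (nat_lit 18) (.e (nat_lit 5905) (nat_lit 320) (.e (nat_lit 1220) (nat_lit 90) (.e (nat_lit 81950) (nat_lit 21) (.e (nat_lit 57871) (nat_lit 264) .nil))))))) (.g (nat_lit 0) .nil .nil))) 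
(.lf (nat_lit 29240) (.g (nat_lit 4134) (.e (nat_lit 1200) (nat_lit 88) (.e (nat_lit 65619) (nat_lit 10) (.e (nat_lit 344097) (nat_lit 18) (.e (nat_lit 5907) (nat_lit 320) (.e (nat_lit 1200) (nat_lit 88) (.e (nat_lit 65604) (nat_lit 9) (.e (nat_lit 335997) (nat_lit 1) (.e (nat_lit 57872) (nat_lit 264) .nil)))))))) (.g (nat_lit 0) .nil .nil)))))) (.nd (nat_lit 3) (.nd (nat_lit 4) (.nd (nat_lit 5) 
(.lf (nat_lit 29188) (.g (nat_lit 1983) (.e (nat_lit 1200) (nat_lit 88) (.e (nat_lit 65619) (nat_lit 10) (.e (nat_lit 344090) (nat_lit 18) (.e (nat_lit 5896) (nat_lit 320) (.e (nat_lit 7936) (nat_lit 90) (.e (nat_lit 81948) (nat_lit 21) (.e (nat_lit 57872) (nat_lit 264) .nil))))))) (.g (nat_lit 4) .nil .nil))) 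
(.lf (nat_lit 29220) (.g (nat_lit 3533) (.e (nat_lit 1200) (nat_lit 88) (.e (nat_lit 65619) (nat_lit 10) (.e (nat_lit 344097) (nat_lit 18) (.e (nat_lit 5906) (nat_lit 320) (.e (nat_lit 1220) (nat_lit 90) (.e (nat_lit 81950) (nat_lit 21) (.e (nat_lit 57870) (nat_lit 264) .nil))))))) (.g (nat_lit 6) .nil .nil)))) (.nd (nat_lit 5) 
(.lf (nat_lit 29204) (.g (nat_lit 3153) (.e (nat_lit 1200) (nat_lit 88) (.e (nat_lit 65619) (nat_lit 10) (.e (nat_lit 344097) (nat_lit 18) (.e (nat_lit 5905) (nat_lit 320) (.e (nat_lit 1219) (nat_lit 90) (.e (nat_lit 81950) (nat_lit 21) (.e (nat_lit 57873) (nat_lit 264) .nil))))))) (.g (nat_lit 6) .nil .nil))) 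
(.lf (nat_lit 29236) (.g (nat_lit 2478) (.e (nat_lit 1200) (nat_lit 88) (.e (nat_lit 65619) (nat_lit 10) (.e (nat_lit 344097) (nat_lit 18) (.e (nat_lit 5907) (nat_lit 320) (.e (nat_lit 1189) (nat_lit 88) (.e (nat_lit 65604) (nat_lit 9) (.e (nat_lit 335997) (nat_lit 1) (.e (nat_lit 57870) (nat_lit 264) .nil)))))))) (.g (nat_lit 4) .nil .nil))))) (.nd (nat_lit 4) (.nd (nat_lit 5) 
(.lf (nat_lit 29196) (.g (nat_lit 4721) (.e (nat_lit 1200) (nat_lit 88) (.e (nat_lit 65619) (nat_lit 10) (.e (nat_lit 344097) (nat_lit 18) (.e (nat_lit 5905) (nat_lit 320) (.e (nat_lit 1190) (nat_lit 88) (.e (nat_lit 65619) (nat_lit 10) (.e (nat_lit 344097) (nat_lit 18) (.e (nat_lit 5906) (nat_lit 320) .nil)))))))) (.g (nat_lit 8) .nil .nil))) 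
(.lf (nat_lit 29228) (.g (nat_lit 1474) (.e (nat_lit 1200) (nat_lit 88) (.e (nat_lit 65619) (nat_lit 10) (.e (nat_lit 344097) (nat_lit 18) (.e (nat_lit 5906) (nat_lit 320) (.e (nat_lit 7936) (nat_lit 90) .nil))))) .nil))) (.nd (nat_lit 5) 
(.lf (nat_lit 29212) (.g (nat_lit 4301) (.e (nat_lit 1200) (nat_lit 88) (.e (nat_lit 65619) (nat_lit 10) (.e (nat_lit 344097) (nat_lit 18) (.e (nat_lit 5905) (nat_lit 320) (.e (nat_lit 1221) (nat_lit 90) (.e (nat_lit 81950) (nat_lit 21) (.e (nat_lit 57873) (nat_lit 264) .nil))))))) (.g (nat_lit 7) .nil .nil))) 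
(.lf (nat_lit 29244) (.g (nat_lit 2985) (.e (nat_lit 1200) (nat_lit 88) (.e (nat_lit 65619) (nat_lit 10) (.e (nat_lit 344097) (nat_lit 18) (.e (nat_lit 5907) (nat_lit 320) (.e (nat_lit 1219) (nat_lit 90) (.e (nat_lit 81950) (nat_lit 21) (.e (nat_lit 57870) (nat_lit 264) .nil))))))) (.g (nat_lit 6) .nil .nil))))))) (.nd (nat_lit 2) (.nd (nat_lit 3) (.nd (nat_lit 4) (.nd (nat_lit 5) 
(.lf (nat_lit 29186) (.g (nat_lit 2445) (.e (nat_lit 1200) (nat_lit 88) (.e (nat_lit 65619) (nat_lit 10) (.e (nat_lit 344090) (nat_lit 18) (.e (nat_lit 5896) (nat_lit 320) (.e (nat_lit 1200) (nat_lit 88) (.e (nat_lit 65619) (nat_lit 10) (.e (nat_lit 344097) (nat_lit 18) (.e (nat_lit 5907) (nat_lit 320) .nil)))))))) (.g (nat_lit 5) .nil .nil))) 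
(.lf (nat_lit 29218) (.g (nat_lit 2356) (.e (nat_lit 1200) (nat_lit 88) (.e (nat_lit 65619) (nat_lit 10) (.e (nat_lit 344097) (nat_lit 18) (.e (nat_lit 5906) (nat_lit 320) (.e (nat_lit 1219) (nat_lit 90) (.e (nat_lit 81950) (nat_lit 21) (.e (nat_lit 57871) (nat_lit 264) .nil))))))) (.g (nat_lit 5) .nil .nil)))) (.nd (nat_lit 5) 
(.lf (nat_lit 29202) (.g (nat_lit 2589) (.e (nat_lit 1200) (nat_lit 88) (.e (nat_lit 65619) (nat_lit 10) (.e (nat_lit 344097) (nat_lit 18) (.e (nat_lit 5905) (nat_lit 320) (.e (nat_lit 1219) (nat_lit 90) (.e (nat_lit 81950) (nat_lit 21) (.e (nat_lit 57871) (nat_lit 264) .nil))))))) (.g (nat_lit 5) .nil .nil))) 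
(.lf (nat_lit 29234) (.g (nat_lit 2343) (.e (nat_lit 1200) (nat_lit 88) (.e (nat_lit 65619) (nat_lit 10) (.e (nat_lit 344097) (nat_lit 18) (.e (nat_lit 5907) (nat_lit 320) (.e (nat_lit 989) (nat_lit 81) (.e (nat_lit 1615) (nat_lit 113) (.e (nat_lit 376859) (nat_lit 21) (.e (nat_lit 57872) (nat_lit 264) .nil)))))))) (.g (nat_lit 4) .nil .nil))))) (.nd (nat_lit 4) (.nd (nat_lit 5) 
(.lf (nat_lit 29194) (.g (nat_lit 4098) (.e (nat_lit 1200) (nat_lit 88) (.e (nat_lit 65619) (nat_lit 10) (.e (nat_lit 344097) (nat_lit 18) (.e (nat_lit 5905) (nat_lit 320) (.e (nat_lit 1190) (nat_lit 88) (.e (nat_lit 65604) (nat_lit 9) (.e (nat_lit 335997) (nat_lit 1) (.e (nat_lit 57870) (nat_lit 264) .nil)))))))) (.g (nat_lit 7) .nil .nil))) 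
(.lf (nat_lit 29226) (.g (nat_lit 3630) (.e (nat_lit 1200) (nat_lit 88) (.e (nat_lit 65619) (nat_lit 10) (.e (nat_lit 344097) (nat_lit 18) (.e (nat_lit 5906) (nat_lit 320) (.e (nat_lit 1221) (nat_lit 90) (.e (nat_lit 81950) (nat_lit 21) (.e (nat_lit 57871) (nat_lit 264) .nil))))))) (.g (nat_lit 7) .nil .nil)))) (.nd (nat_lit 5) 
(.lf (nat_lit 29210) (.g (nat_lit 4063) (.e (nat_lit 1200) (nat_lit 88) (.e (nat_lit 65619) (nat_lit 10) (.e (nat_lit 344097) (nat_lit 18) (.e (nat_lit 5905) (nat_lit 320) (.e (nat_lit 1221) (nat_lit 90) (.e (nat_lit 81950) (nat_lit 21) (.e (nat_lit 57871) (nat_lit 264) .nil))))))) (.g (nat_lit 7) .nil .nil))) 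
(.lf (nat_lit 29242) (.g (nat_lit 2670) (.e (nat_lit 1200) (nat_lit 88) (.e (nat_lit 65619) (nat_lit 10) (.e (nat_lit 344097) (nat_lit 18) (.e (nat_lit 5907) (nat_lit 320) (.e (nat_lit 1219) (nat_lit 90) (.e (nat_lit 81949) (nat_lit 21) (.e (nat_lit 57870) (nat_lit 264) .nil))))))) (.g (nat_lit 5) .nil .nil)))))) (.nd (nat_lit 3) (.nd (nat_lit 4) (.nd (nat_lit 5) 
(.lf (nat_lit 29190) (.g (nat_lit 1764) (.e (nat_lit 1200) (nat_lit 88) (.e (nat_lit 65619) (nat_lit 10) (.e (nat_lit 344090) (nat_lit 18) (.e (nat_lit 7125) (nat_lit 382) (.e (nat_lit 1201) (nat_lit 88) (.e (nat_lit 65610) (nat_lit 10) (.e (nat_lit 344090) (nat_lit 18) (.e (nat_lit 7236) (nat_lit 382) .nil)))))))) (.g (nat_lit 4) .nil .nil))) 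
(.lf (nat_lit 29222) (.g (nat_lit 3053) (.e (nat_lit 1200) (nat_lit 88) (.e (nat_lit 65619) (nat_lit 10) (.e (nat_lit 344097) (nat_lit 18) (.e (nat_lit 5906) (nat_lit 320) (.e (nat_lit 1221) (nat_lit 90) (.e (nat_lit 81948) (nat_lit 21) (.e (nat_lit 57870) (nat_lit 264) .nil))))))) (.g (nat_lit 6) .nil .nil)))) (.nd (nat_lit 5) 
(.lf (nat_lit 29206) (.g (nat_lit 2087) (.e (nat_lit 1200) (nat_lit 88) (.e (nat_lit 65619) (nat_lit 10) (.e (nat_lit 344097) (nat_lit 18) (.e (nat_lit 5905) (nat_lit 320) (.e (nat_lit 1220) (nat_lit 90) (.e (nat_lit 81948) (nat_lit 21) (.e (nat_lit 57871) (nat_lit 264) .nil))))))) (.g (nat_lit 4) .nil .nil))) 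
(.lf (nat_lit 29238) (.g (nat_lit 2575) (.e (nat_lit 1200) (nat_lit 88) (.e (nat_lit 65619) (nat_lit 10) (.e (nat_lit 344097) (nat_lit 18) (.e (nat_lit 5907) (nat_lit 320) (.e (nat_lit 1189) (nat_lit 88) (.e (nat_lit 65604) (nat_lit 9) (.e (nat_lit 335997) (nat_lit 1) (.e (nat_lit 57872) (nat_lit 264) .nil)))))))) (.g (nat_lit 4) .nil .nil))))) (.nd (nat_lit 4) (.nd (nat_lit 5) 
(.lf (nat_lit 29198) (.g (nat_lit 4127) (.e (nat_lit 1200) (nat_lit 88) (.e (nat_lit 65619) (nat_lit 10) (.e (nat_lit 344097) (nat_lit 18) (.e (nat_lit 5905) (nat_lit 320) (.e (nat_lit 1200) (nat_lit 88) (.e (nat_lit 65619) (nat_lit 10) (.e (nat_lit 344097) (nat_lit 18) (.e (nat_lit 5906) (nat_lit 320) .nil)))))))) (.g (nat_lit 7) .nil .nil))) 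
(.lf (nat_lit 29230) (.g (nat_lit 1700) (.e (nat_lit 1200) (nat_lit 88) (.e (nat_lit 65619) (nat_lit 10) (.e (nat_lit 344097) (nat_lit 18) (.e (nat_lit 5906) (nat_lit 320) (.e (nat_lit 7936) (nat_lit 90) (.e (nat_lit 81950) (nat_lit 21) (.e (nat_lit 57870) (nat_lit 264) .nil))))))) (.g (nat_lit 4) .nil .nil)))) (.nd (nat_lit 5) 
(.lf (nat_lit 29214) (.g (nat_lit 1458) (.e (nat_lit 1200) (nat_lit 88) (.e (nat_lit 65619) (nat_lit 10) (.e (nat_lit 344097) (nat_lit 18) (.e (nat_lit 5906) (nat_lit 320) (.e (nat_lit 1189) (nat_lit 88) .nil))))) .nil)) 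
(.lf (nat_lit 29246) (.g (nat_lit 3575) (.e (nat_lit 1200) (nat_lit 88) (.e (nat_lit 65619) (nat_lit 10) (.e (nat_lit 344097) (nat_lit 18) (.e (nat_lit 5907) (nat_lit 320) (.e (nat_lit 1219) (nat_lit 90) (.e (nat_lit 81950) (nat_lit 21) (.e (nat_lit 57872) (nat_lit 264) .nil))))))) (.g (nat_lit 7) .nil .nil)))))))) 
(.nd (nat_lit 1) (.nd (nat_lit 2) (.nd (nat_lit 3) (.nd (nat_lit 4) (.nd (nat_lit 5) 
(.lf (nat_lit 29185) (.g (nat_lit 2141) (.e (nat_lit 1200) (nat_lit 88) (.e (nat_lit 65619) (nat_lit 10) (.e (nat_lit 344090) (nat_lit 18) (.e (nat_lit 5896) (nat_lit 320) (.e (nat_lit 1200) (nat_lit 88) (.e (nat_lit 65619) (nat_lit 10) (.e (nat_lit 344097) (nat_lit 18) (.e (nat_lit 5906) (nat_lit 320) .nil)))))))) (.g (nat_lit 4) .nil .nil))) 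
(.lf (nat_lit 29217) (.g (nat_lit 2354) (.e (nat_lit 1200) (nat_lit 88) (.e (nat_lit 65619) (nat_lit 10) (.e (nat_lit 344097) (nat_lit 18) (.e (nat_lit 5906) (nat_lit 320) (.e (nat_lit 1219) (nat_lit 90) (.e (nat_lit 81950) (nat_lit 21) (.e (nat_lit 57870) (nat_lit 264) .nil))))))) (.g (nat_lit 5) .nil .nil)))) (.nd (nat_lit 5) 
(.lf (nat_lit 29201) (.g (nat_lit 2587) (.e (nat_lit 1200) (nat_lit 88) (.e (nat_lit 65619) (nat_lit 10) (.e (nat_lit 344097) (nat_lit 18) (.e (nat_lit 5905) (nat_lit 320) (.e (nat_lit 1219) (nat_lit 90) (.e (nat_lit 81950) (nat_lit 21) (.e (nat_lit 57870) (nat_lit 264) .nil))))))) (.g (nat_lit 5) .nil .nil))) 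
(.lf (nat_lit 29233) (.g (nat_lit 2054) (.e (nat_lit 1200) (nat_lit 88) (.e (nat_lit 65619) (nat_lit 10) (.e (nat_lit 344097) (nat_lit 18) (.e (nat_lit 5907) (nat_lit 320) (.e (nat_lit 989) (nat_lit 81) .nil))))) .nil)))) (.nd (nat_lit 4) (.nd (nat_lit 5) 
(.lf (nat_lit 29193) (.g (nat_lit 1829) (.e (nat_lit 1200) (nat_lit 88) (.e (nat_lit 65619) (nat_lit 10) (.e (nat_lit 344097) (nat_lit 18) (.e (nat_lit 5905) (nat_lit 320) (.e (nat_lit 989) (nat_lit 81) .nil))))) .nil)) 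
(.lf (nat_lit 29225) (.g (nat_lit 3131) (.e (nat_lit 1200) (nat_lit 88) (.e (nat_lit 65619) (nat_lit 10) (.e (nat_lit 344097) (nat_lit 18) (.e (nat_lit 5906) (nat_lit 320) (.e (nat_lit 1221) (nat_lit 90) (.e (nat_lit 81948) (nat_lit 21) (.e (nat_lit 57873) (nat_lit 264) .nil))))))) (.g (nat_lit 6) .nil .nil)))) (.nd (nat_lit 5) 
(.lf (nat_lit 29209) (.g (nat_lit 4017) (.e (nat_lit 1200) (nat_lit 88) (.e (nat_lit 65619) (nat_lit 10) (.e (nat_lit 344097) (nat_lit 18) (.e (nat_lit 5905) (nat_lit 320) (.e (nat_lit 1221) (nat_lit 90) (.e (nat_lit 81950) (nat_lit 21) (.e (nat_lit 57870) (nat_lit 264) .nil))))))) (.g (nat_lit 0) .nil .nil))) 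
(.lf (nat_lit 29241) (.g (nat_lit 3656) (.e (nat_lit 1200) (nat_lit 88) (.e (nat_lit 65619) (nat_lit 10) (.e (nat_lit 344097) (nat_lit 18) (.e (nat_lit 5907) (nat_lit 320) (.e (nat_lit 1219) (nat_lit 90) (.e (nat_lit 81948) (nat_lit 21) (.e (nat_lit 57871) (nat_lit 264) .nil))))))) (.g (nat_lit 7) .nil .nil)))))) (.nd (nat_lit 3) (.nd (nat_lit 4) (.nd (nat_lit 5) 
(.lf (nat_lit 29189) (.g (nat_lit 1889) (.e (nat_lit 1200) (nat_lit 88) (.e (nat_lit 65619) (nat_lit 10) (.e (nat_lit 344090) (nat_lit 18) (.e (nat_lit 5896) (nat_lit 320) (.e (nat_lit 7936) (nat_lit 90) (.e (nat_lit 81950) (nat_lit 21) (.e (nat_lit 57870) (nat_lit 264) .nil))))))) (.g (nat_lit 4) .nil .nil))) 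
(.lf (nat_lit 29221) (.g (nat_lit 3515) (.e (nat_lit 1200) (nat_lit 88) (.e (nat_lit 65619) (nat_lit 10) (.e (nat_lit 344097) (nat_lit 18) (.e (nat_lit 5906) (nat_lit 320) (.e (nat_lit 1220) (nat_lit 90) (.e (nat_lit 81950) (nat_lit 21) (.e (nat_lit 57871) (nat_lit 264) .nil))))))) (.g (nat_lit 6) .nil .nil)))) (.nd (nat_lit 5) 
(.lf (nat_lit 29205) (.g (nat_lit 2088) (.e (nat_lit 1200) (nat_lit 88) (.e (nat_lit 65619) (nat_lit 10) (.e (nat_lit 344097) (nat_lit 18) (.e (nat_lit 5905) (nat_lit 320) (.e (nat_lit 1220) (nat_lit 90) (.e (nat_lit 81948) (nat_lit 21) (.e (nat_lit 57870) (nat_lit 264) .nil))))))) (.g (nat_lit 4) .nil .nil))) 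
(.lf (nat_lit 29237) (.g (nat_lit 2550) (.e (nat_lit 1200) (nat_lit 88) (.e (nat_lit 65619) (nat_lit 10) (.e (nat_lit 344097) (nat_lit 18) (.e (nat_lit 5907) (nat_lit 320) (.e (nat_lit 1189) (nat_lit 88) (.e (nat_lit 65604) (nat_lit 9) (.e (nat_lit 335997) (nat_lit 1) (.e (nat_lit 57871) (nat_lit 264) .nil)))))))) (.g (nat_lit 4) .nil .nil))))) (.nd (nat_lit 4) (.nd (nat_lit 5) 
(.lf (nat_lit 29197) (.g (nat_lit 4104) (.e (nat_lit 1200) (nat_lit 88) (.e (nat_lit 65619) (nat_lit 10) (.e (nat_lit 344097) (nat_lit 18) (.e (nat_lit 5905) (nat_lit 320) (.e (nat_lit 1200) (nat_lit 88) (.e (nat_lit 65619) (nat_lit 10) (.e (nat_lit 344097) (nat_lit 18) (.e (nat_lit 5905) (nat_lit 320) .nil)))))))) (.g (nat_lit 7) .nil .nil))) 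
(.lf (nat_lit 29229) (.g (nat_lit 1786) (.e (nat_lit 1200) (nat_lit 88) (.e (nat_lit 65619) (nat_lit 10) (.e (nat_lit 344097) (nat_lit 18) (.e (nat_lit 5906) (nat_lit 320) (.e (nat_lit 7936) (nat_lit 90) (.e (nat_lit 81948) (nat_lit 21) (.e (nat_lit 57872) (nat_lit 264) .nil))))))) (.g (nat_lit 4) .nil .nil)))) (.nd (nat_lit 5) 
(.lf (nat_lit 29213) (.g (nat_lit 993) (.e (nat_lit 1200) (nat_lit 88) (.e (nat_lit 65619) (nat_lit 10) (.e (nat_lit 344097) (nat_lit 18) (.e (nat_lit 5906) (nat_lit 320) .nil)))) .nil)) 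
(.lf (nat_lit 29245) (.g (nat_lit 2987) (.e (nat_lit 1200) (nat_lit 88) (.e (nat_lit 65619) (nat_lit 10) (.e (nat_lit 344097) (nat_lit 18) (.e (nat_lit 5907) (nat_lit 320) (.e (nat_lit 1219) (nat_lit 90) (.e (nat_lit 81950) (nat_lit 21) (.e (nat_lit 57871) (nat_lit 264) .nil))))))) (.g (nat_lit 5) .nil .nil))))))) (.nd (nat_lit 2) (.nd (nat_lit 3) (.nd (nat_lit 4) (.nd (nat_lit 5) 
(.lf (nat_lit 29187) (.g (nat_lit 1645) (.e (nat_lit 1200) (nat_lit 88) (.e (nat_lit 65619) (nat_lit 10) (.e (nat_lit 344090) (nat_lit 18) (.e (nat_lit 5896) (nat_lit 320) (.e (nat_lit 7936) (nat_lit 90) .nil))))) .nil)) 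
(.lf (nat_lit 29219) (.g (nat_lit 2944) (.e (nat_lit 1200) (nat_lit 88) (.e (nat_lit 65619) (nat_lit 10) (.e (nat_lit 344097) (nat_lit 18) (.e (nat_lit 5906) (nat_lit 320) (.e (nat_lit 1219) (nat_lit 90) (.e (nat_lit 81950) (nat_lit 21) (.e (nat_lit 57872) (nat_lit 264) .nil))))))) (.g (nat_lit 6) .nil .nil)))) (.nd (nat_lit 5) 
(.lf (nat_lit 29203) (.g (nat_lit 3177) (.e (nat_lit 1200) (nat_lit 88) (.e (nat_lit 65619) (nat_lit 10) (.e (nat_lit 344097) (nat_lit 18) (.e (nat_lit 5905) (nat_lit 320) (.e (nat_lit 1219) (nat_lit 90) (.e (nat_lit 81950) (nat_lit 21) (.e (nat_lit 57872) (nat_lit 264) .nil))))))) (.g (nat_lit 6) .nil .nil))) 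
(.lf (nat_lit 29235) (.g (nat_lit 2074) (.e (nat_lit 1200) (nat_lit 88) (.e (nat_lit 65619) (nat_lit 10) (.e (nat_lit 344097) (nat_lit 18) (.e (nat_lit 5907) (nat_lit 320) (.e (nat_lit 993) (nat_lit 81) .nil))))) .nil)))) (.nd (nat_lit 4) (.nd (nat_lit 5) 
(.lf (nat_lit 29195) (.g (nat_lit 4170) (.e (nat_lit 1200) (nat_lit 88) (.e (nat_lit 65619) (nat_lit 10) (.e (nat_lit 344097) (nat_lit 18) (.e (nat_lit 5905) (nat_lit 320) (.e (nat_lit 1190) (nat_lit 88) (.e (nat_lit 65604) (nat_lit 9) (.e (nat_lit 335997) (nat_lit 1) (.e (nat_lit 57871) (nat_lit 264) .nil)))))))) (.g (nat_lit 7) .nil .nil))) 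
(.lf (nat_lit 29227) (.g (nat_lit 3609) (.e (nat_lit 1200) (nat_lit 88) (.e (nat_lit 65619) (nat_lit 10) (.e (nat_lit 344097) (nat_lit 18) (.e (nat_lit 5906) (nat_lit 320) (.e (nat_lit 1221) (nat_lit 90) (.e (nat_lit 81959) (nat_lit 24) (.e (nat_lit 123191) (nat_lit 264) .nil))))))) (.g (nat_lit 0) .nil .nil)))) (.nd (nat_lit 5) 
(.lf (nat_lit 29211) (.g (nat_lit 4391) (.e (nat_lit 1200) (nat_lit 88) (.e (nat_lit 65619) (nat_lit 10) (.e (nat_lit 344097) (nat_lit 18) (.e (nat_lit 5905) (nat_lit 320) (.e (nat_lit 1221) (nat_lit 90) (.e (nat_lit 81950) (nat_lit 21) (.e (nat_lit 57872) (nat_lit 264) .nil))))))) (.g (nat_lit 0) .nil .nil))) 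
(.lf (nat_lit 29243) (.g (nat_lit 1956) (.e (nat_lit 1200) (nat_lit 88) (.e (nat_lit 65619) (nat_lit 10) (.e (nat_lit 344097) (nat_lit 18) (.e (nat_lit 5907) (nat_lit 320) (.e (nat_lit 1219) (nat_lit 90) (.e (nat_lit 81949) (nat_lit 21) (.e (nat_lit 57872) (nat_lit 264) .nil))))))) (.g (nat_lit 4) .nil .nil)))))) (.nd (nat_lit 3) (.nd (nat_lit 4) (.nd (nat_lit 5) 
(.lf (nat_lit 29191) (.g (nat_lit 1275) (.e (nat_lit 1200) (nat_lit 88) (.e (nat_lit 65619) (nat_lit 10) (.e (nat_lit 344097) (nat_lit 18) (.e (nat_lit 5902) (nat_lit 320) .nil)))) .nil)) 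
(.lf (nat_lit 29223) (.g (nat_lit 3050) (.e (nat_lit 1200) (nat_lit 88) (.e (nat_lit 65619) (nat_lit 10) (.e (nat_lit 344097) (nat_lit 18) (.e (nat_lit 5906) (nat_lit 320) (.e (nat_lit 1221) (nat_lit 90) (.e (nat_lit 81948) (nat_lit 21) (.e (nat_lit 57871) (nat_lit 264) .nil))))))) (.g (nat_lit 6) .nil .nil)))) (.nd (nat_lit 5) 
(.lf (nat_lit 29207) (.g (nat_lit 2492) (.e (nat_lit 1200) (nat_lit 88) (.e (nat_lit 65619) (nat_lit 10) (.e (nat_lit 344097) (nat_lit 18) (.e (nat_lit 5905) (nat_lit 320) (.e (nat_lit 1220) (nat_lit 90) (.e (nat_lit 81948) (nat_lit 21) (.e (nat_lit 57872) (nat_lit 264) .nil))))))) (.g (nat_lit 5) .nil .nil))) 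
(.lf (nat_lit 29239) (.g (nat_lit 4325) (.e (nat_lit 1200) (nat_lit 88) (.e (nat_lit 65619) (nat_lit 10) (.e (nat_lit 344097) (nat_lit 18) (.e (nat_lit 5907) (nat_lit 320) (.e (nat_lit 1190) (nat_lit 88) (.e (nat_lit 65604) (nat_lit 9) (.e (nat_lit 335997) (nat_lit 1) (.e (nat_lit 57871) (nat_lit 264) .nil)))))))) (.g (nat_lit 8) .nil .nil))))) (.nd (nat_lit 4) (.nd (nat_lit 5) 
(.lf (nat_lit 29199) (.g (nat_lit 4351) (.e (nat_lit 1200) (nat_lit 88) (.e (nat_lit 65619) (nat_lit 10) (.e (nat_lit 344097) (nat_lit 18) (.e (nat_lit 5905) (nat_lit 320) (.e (nat_lit 1200) (nat_lit 88) (.e (nat_lit 65619) (nat_lit 10) (.e (nat_lit 344097) (nat_lit 18) (.e (nat_lit 5907) (nat_lit 320) .nil)))))))) (.g (nat_lit 8) .nil .nil))) 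
(.lf (nat_lit 29231) (.g (nat_lit 1077) (.e (nat_lit 1200) (nat_lit 88) (.e (nat_lit 65619) (nat_lit 10) (.e (nat_lit 344097) (nat_lit 18) (.e (nat_lit 5907) (nat_lit 320) .nil)))) .nil))) (.nd (nat_lit 5) 
(.lf (nat_lit 29215) (.g (nat_lit 3918) (.e (nat_lit 1200) (nat_lit 88) (.e (nat_lit 65619) (nat_lit 10) (.e (nat_lit 344097) (nat_lit 18) (.e (nat_lit 5906) (nat_lit 320) (.e (nat_lit 1200) (nat_lit 88) (.e (nat_lit 65604) (nat_lit 9) (.e (nat_lit 335997) (nat_lit 1) (.e (nat_lit 57872) (nat_lit 264) .nil)))))))) (.g (nat_lit 0) .nil .nil))) 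
(.lf (nat_lit 29247) (.g (nat_lit 4047) (.e (nat_lit 1200) (nat_lit 88) (.e (nat_lit 65619) (nat_lit 10) (.e (nat_lit 344097) (nat_lit 18) (.e (nat_lit 5907) (nat_lit 320) (.e (nat_lit 1220) (nat_lit 90) (.e (nat_lit 81950) (nat_lit 21) (.e (nat_lit 57870) (nat_lit 264) .nil))))))) (.g (nat_lit 6) .nil .nil)))))))))

noncomputable def tv405 : DT := (.nd (nat_lit 0) (.nd (nat_lit 1) (.nd (nat_lit 2) (.nd (nat_lit 3) (.nd (nat_lit 4) (.nd (nat_lit 5) 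
(.lf (nat_lit 29248) (.g (nat_lit 4096) (.e (nat_lit 1200) (nat_lit 88) (.e (nat_lit 65619) (nat_lit 10) (.e (nat_lit 344097) (nat_lit 18) (.e (nat_lit 5907) (nat_lit 320) (.e (nat_lit 1220) (nat_lit 90) (.e (nat_lit 81950) (nat_lit 21) (.e (nat_lit 57871) (nat_lit 264) .nil))))))) (.g (nat_lit 6) .nil .nil))) 
(.lf (nat_lit 29280) (.g (nat_lit 2670) (.e (nat_lit 1200) (nat_lit 88) (.e (nat_lit 65619) (nat_lit 10) (.e (nat_lit 344117) (nat_lit 21) (.e (nat_lit 516099) (nat_lit 0) .nil)))) .nil))) (.nd (nat_lit 5) 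
(.lf (nat_lit 29264) (.g (nat_lit 2182) (.e (nat_lit 1200) (nat_lit 88) (.e (nat_lit 65619) (nat_lit 10) (.e (nat_lit 344117) (nat_lit 21) (.e (nat_lit 516097) (nat_lit 0) (.e (nat_lit 3454) (nat_lit 216) .nil))))) .nil)) 
(.lf (nat_lit 29296) (.g (nat_lit 2637) (.e (nat_lit 1200) (nat_lit 88) (.e (nat_lit 65619) (nat_lit 10) (.e (nat_lit 344117) (nat_lit 21) (.e (nat_lit 516134) (nat_lit 5) (.e (nat_lit 253975) (nat_lit 9) (.e (nat_lit 1281) (nat_lit 94) (.e (nat_lit 114711) (nat_lit 21) (.e (nat_lit 57872) (nat_lit 264) .nil)))))))) (.g (nat_lit 4) .nil .nil))))) (.nd (nat_lit 4) (.nd (nat_lit 5) 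
(.lf (nat_lit 29256) (.g (nat_lit 1859) (.e (nat_lit 1200) (nat_lit 88) (.e (nat_lit 65619) (nat_lit 10) (.e (nat_lit 344097) (nat_lit 18) (.e (nat_lit 5907) (nat_lit 320) (.e (nat_lit 7936) (nat_lit 90) (.e (nat_lit 81950) (nat_lit 21) (.e (nat_lit 57870) (nat_lit 264) .nil))))))) (.g (nat_lit 4) .nil .nil))) 
(.lf (nat_lit 29288) (.g (nat_lit 3320) (.e (nat_lit 1200) (nat_lit 88) (.e (nat_lit 65619) (nat_lit 10) (.e (nat_lit 344117) (nat_lit 21) (.e (nat_lit 516115) (nat_lit 1) (.e (nat_lit 164153) (nat_lit 152) .nil))))) .nil))) (.nd (nat_lit 5) 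
(.lf (nat_lit 29272) (.g (nat_lit 1474) (.e (nat_lit 1200) (nat_lit 88) (.e (nat_lit 65619) (nat_lit 10) (.e (nat_lit 344117) (nat_lit 21) (.e (nat_lit 516097) (nat_lit 0) (.e (nat_lit 7591) (nat_lit 407) .nil))))) .nil)) 
(.lf (nat_lit 29304) (.g (nat_lit 2028) (.e (nat_lit 1200) (nat_lit 88) (.e (nat_lit 65619) (nat_lit 10) (.e (nat_lit 344117) (nat_lit 21) (.e (nat_lit 516185) (nat_lit 16) (.e (nat_lit 491560) (nat_lit 10) (.e (nat_lit 344087) (nat_lit 18) (.e (nat_lit 3975) (nat_lit 239) .nil))))))) (.g (nat_lit 4) .nil .nil)))))) (.nd (nat_lit 3) (.nd (nat_lit 4) (.nd (nat_lit 5) 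
(.lf (nat_lit 29252) (.g (nat_lit 4006) (.e (nat_lit 1200) (nat_lit 88) (.e (nat_lit 65619) (nat_lit 10) (.e (nat_lit 344097) (nat_lit 18) (.e (nat_lit 5907) (nat_lit 320) (.e (nat_lit 1221) (nat_lit 90) (.e (nat_lit 81948) (nat_lit 21) (.e (nat_lit 57873) (nat_lit 264) .nil))))))) (.g (nat_lit 7) .nil .nil))) 
(.lf (nat_lit 29284) (.g (nat_lit 2174) (.e (nat_lit 1200) (nat_lit 88) (.e (nat_lit 65619) (nat_lit 10) (.e (nat_lit 344117) (nat_lit 21) (.e (nat_lit 516106) (nat_lit 0) (.e (nat_lit 7936) (nat_lit 407) (.e (nat_lit 73736) (nat_lit 0) (.e (nat_lit 3962) (nat_lit 239) .nil))))))) (.g (nat_lit 4) .nil .nil)))) (.nd (nat_lit 5) 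
(.lf (nat_lit 29268) (.g (nat_lit 2683) (.e (nat_lit 1200) (nat_lit 88) (.e (nat_lit 65619) (nat_lit 10) (.e (nat_lit 344117) (nat_lit 21) (.e (nat_lit 516097) (nat_lit 0) (.e (nat_lit 3454) (nat_lit 216) (.e (nat_lit 688182) (nat_lit 17) (.e (nat_lit 73731) (nat_lit 0) (.e (nat_lit 7454) (nat_lit 396) .nil)))))))) (.g (nat_lit 4) .nil .nil))) 
(.lf (nat_lit 29300) (.g (nat_lit 2321) (.e (nat_lit 1200) (nat_lit 88) (.e (nat_lit 65619) (nat_lit 10) (.e (nat_lit 344117) (nat_lit 21) (.e (nat_lit 516135) (nat_lit 5) (.e (nat_lit 253975) (nat_lit 9) (.e (nat_lit 1281) (nat_lit 94) (.e (nat_lit 114711) (nat_lit 21) (.e (nat_lit 57872) (nat_lit 264) .nil)))))))) (.g (nat_lit 5) .nil .nil))))) (.nd (nat_lit 4) (.nd (nat_lit 5) 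
(.lf (nat_lit 29260) (.g (nat_lit 2501) (.e (nat_lit 1200) (nat_lit 88) (.e (nat_lit 65619) (nat_lit 10) (.e (nat_lit 344117) (nat_lit 21) (.e (nat_lit 516097) (nat_lit 0) (.e (nat_lit 3453) (nat_lit 216) (.e (nat_lit 688181) (nat_lit 17) (.e (nat_lit 73731) (nat_lit 0) (.e (nat_lit 7454) (nat_lit 396) .nil)))))))) (.g (nat_lit 4) .nil .nil))) 
(.lf (nat_lit 29292) (.g (nat_lit 2163) (.e (nat_lit 1200) (nat_lit 88) (.e (nat_lit 65619) (nat_lit 10) (.e (nat_lit 344117) (nat_lit 21) (.e (nat_lit 516115) (nat_lit 1) (.e (nat_lit 164183) (nat_lit 154) .nil))))) .nil))) (.nd (nat_lit 5) 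
(.lf (nat_lit 29276) (.g (nat_lit 2085) (.e (nat_lit 1200) (nat_lit 88) (.e (nat_lit 65619) (nat_lit 10) (.e (nat_lit 344117) (nat_lit 21) (.e (nat_lit 516098) (nat_lit 0) (.e (nat_lit 3555) (nat_lit 220) (.e (nat_lit 720956) (nat_lit 25) (.e (nat_lit 114711) (nat_lit 21) (.e (nat_lit 57872) (nat_lit 264) .nil)))))))) (.g (nat_lit 4) .nil .nil))) 
(.lf (nat_lit 29308) (.g (nat_lit 2955) (.e (nat_lit 1200) (nat_lit 88) (.e (nat_lit 65619) (nat_lit 10) (.e (nat_lit 344117) (nat_lit 21) (.e (nat_lit 516185) (nat_lit 16) (.e (nat_lit 491560) (nat_lit 10) (.e (nat_lit 344089) (nat_lit 18) (.e (nat_lit 3920) (nat_lit 239) .nil))))))) (.g (nat_lit 5) .nil .nil))))))) (.nd (nat_lit 2) (.nd (nat_lit 3) (.nd (nat_lit 4) (.nd (nat_lit 5) 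
(.lf (nat_lit 29250) (.g (nat_lit 2091) (.e (nat_lit 1200) (nat_lit 88) (.e (nat_lit 65619) (nat_lit 10) (.e (nat_lit 344097) (nat_lit 18) (.e (nat_lit 5907) (nat_lit 320) (.e (nat_lit 1221) (nat_lit 90) (.e (nat_lit 81938) (nat_lit 20) (.e (nat_lit 991) (nat_lit 81) (.e (nat_lit 5862) (nat_lit 320) .nil)))))))) (.g (nat_lit 4) .nil .nil))) 
(.lf (nat_lit 29282) (.g (nat_lit 2631) (.e (nat_lit 1200) (nat_lit 88) (.e (nat_lit 65619) (nat_lit 10) (.e (nat_lit 344117) (nat_lit 21) (.e (nat_lit 516106) (nat_lit 0) (.e (nat_lit 2478) (nat_lit 157) .nil))))) .nil))) (.nd (nat_lit 5) 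
(.lf (nat_lit 29266) (.g (nat_lit 2206) (.e (nat_lit 1200) (nat_lit 88) (.e (nat_lit 65619) (nat_lit 10) (.e (nat_lit 344117) (nat_lit 21) (.e (nat_lit 516097) (nat_lit 0) (.e (nat_lit 3454) (nat_lit 216) (.e (nat_lit 688181) (nat_lit 17) (.e (nat_lit 73730) (nat_lit 0) (.e (nat_lit 7454) (nat_lit 396) .nil)))))))) (.g (nat_lit 4) .nil .nil))) 
(.lf (nat_lit 29298) (.g (nat_lit 1701) (.e (nat_lit 1200) (nat_lit 88) (.e (nat_lit 65619) (nat_lit 10) (.e (nat_lit 344117) (nat_lit 21) (.e (nat_lit 516135) (nat_lit 5) (.e (nat_lit 253959) (nat_lit 9) .nil))))) .nil)))) (.nd (nat_lit 4) (.nd (nat_lit 5) 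
(.lf (nat_lit 29258) (.g (nat_lit 407) (.e (nat_lit 1200) (nat_lit 88) (.e (nat_lit 65619) (nat_lit 10) (.e (nat_lit 344117) (nat_lit 21) .nil))) .nil)) 
(.lf (nat_lit 29290) (.g (nat_lit 3332) (.e (nat_lit 1200) (nat_lit 88) (.e (nat_lit 65619) (nat_lit 10) (.e (nat_lit 344117) (nat_lit 21) (.e (nat_lit 516115) (nat_lit 1) (.e (nat_lit 164163) (nat_lit 152) .nil))))) .nil))) (.nd (nat_lit 5) 
(.lf (nat_lit 29274) (.g (nat_lit 1960) (.e (nat_lit 1200) (nat_lit 88) (.e (nat_lit 65619) (nat_lit 10) (.e (nat_lit 344117) (nat_lit 21) (.e (nat_lit 516097) (nat_lit 0) (.e (nat_lit 7593) (nat_lit 407) (.e (nat_lit 73736) (nat_lit 0) (.e (nat_lit 3962) (nat_lit 239) .nil))))))) (.g (nat_lit 4) .nil .nil))) 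
(.lf (nat_lit 29306) (.g (nat_lit 3067) (.e (nat_lit 1200) (nat_lit 88) (.e (nat_lit 65619) (nat_lit 10) (.e (nat_lit 344117) (nat_lit 21) (.e (nat_lit 516185) (nat_lit 16) (.e (nat_lit 491560) (nat_lit 10) (.e (nat_lit 344088) (nat_lit 18) (.e (nat_lit 3925) (nat_lit 239) .nil))))))) (.g (nat_lit 5) .nil .nil)))))) (.nd (nat_lit 3) (.nd (nat_lit 4) (.nd (nat_lit 5) 
(.lf (nat_lit 29254) (.g (nat_lit 1847) (.e (nat_lit 1200) (nat_lit 88) (.e (nat_lit 65619) (nat_lit 10) (.e (nat_lit 344097) (nat_lit 18) (.e (nat_lit 5907) (nat_lit 320) (.e (nat_lit 7936) (nat_lit 90) .nil))))) .nil)) 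
(.lf (nat_lit 29286) (.g (nat_lit 1333) (.e (nat_lit 1200) (nat_lit 88) (.e (nat_lit 65619) (nat_lit 10) (.e (nat_lit 344117) (nat_lit 21) (.e (nat_lit 516115) (nat_lit 1) .nil)))) .nil))) (.nd (nat_lit 5) 
(.lf (nat_lit 29270) (.g (nat_lit 2747) (.e (nat_lit 1200) (nat_lit 88) (.e (nat_lit 65619) (nat_lit 10) (.e (nat_lit 344117) (nat_lit 21) (.e (nat_lit 516097) (nat_lit 0) (.e (nat_lit 3455) (nat_lit 216) (.e (nat_lit 688181) (nat_lit 17) (.e (nat_lit 73730) (nat_lit 0) (.e (nat_lit 7454) (nat_lit 396) .nil)))))))) (.g (nat_lit 4) .nil .nil))) 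
(.lf (nat_lit 29302) (.g (nat_lit 1796) (.e (nat_lit 1200) (nat_lit 88) (.e (nat_lit 65619) (nat_lit 10) (.e (nat_lit 344117) (nat_lit 21) (.e (nat_lit 516185) (nat_lit 16) (.e (nat_lit 491552) (nat_lit 9) .nil))))) .nil)))) (.nd (nat_lit 4) (.nd (nat_lit 5) 
(.lf (nat_lit 29262) (.g (nat_lit 2577) (.e (nat_lit 1200) (nat_lit 88) (.e (nat_lit 65619) (nat_lit 10) (.e (nat_lit 344117) (nat_lit 21) (.e (nat_lit 516097) (nat_lit 0) (.e (nat_lit 3453) (nat_lit 216) (.e (nat_lit 688182) (nat_lit 17) (.e (nat_lit 73730) (nat_lit 0) (.e (nat_lit 7454) (nat_lit 396) .nil)))))))) (.g (nat_lit 4) .nil .nil))) 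
(.lf (nat_lit 29294) (.g (nat_lit 2967) (.e (nat_lit 1200) (nat_lit 88) (.e (nat_lit 65619) (nat_lit 10) (.e (nat_lit 344117) (nat_lit 21) (.e (nat_lit 516116) (nat_lit 1) (.e (nat_lit 164147) (nat_lit 152) .nil))))) .nil))) (.nd (nat_lit 5) 
(.lf (nat_lit 29278) (.g (nat_lit 1911) (.e (nat_lit 1200) (nat_lit 88) (.e (nat_lit 65619) (nat_lit 10) (.e (nat_lit 344117) (nat_lit 21) (.e (nat_lit 516098) (nat_lit 0) (.e (nat_lit 7593) (nat_lit 407) (.e (nat_lit 73728) (nat_lit 0) (.e (nat_lit 3971) (nat_lit 239) .nil))))))) (.g (nat_lit 4) .nil .nil))) 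
(.lf (nat_lit 29310) (.g (nat_lit 2142) (.e (nat_lit 1200) (nat_lit 88) (.e (nat_lit 65619) (nat_lit 10) (.e (nat_lit 344117) (nat_lit 21) (.e (nat_lit 516185) (nat_lit 16) (.e (nat_lit 491560) (nat_lit 10) (.e (nat_lit 344089) (nat_lit 18) (.e (nat_lit 3927) (nat_lit 239) .nil))))))) (.g (nat_lit 4) .nil .nil)))))))) 
(.nd (nat_lit 1) (.nd (nat_lit 2) (.nd (nat_lit 3) (.nd (nat_lit 4) (.nd (nat_lit 5) 
(.lf (nat_lit 29249) (.g (nat_lit 4403) (.e (nat_lit 1200) (nat_lit 88) (.e (nat_lit 65619) (nat_lit 10) (.e (nat_lit 344097) (nat_lit 18) (.e (nat_lit 5907) (nat_lit 320) (.e (nat_lit 1220) (nat_lit 90) (.e (nat_lit 81950) (nat_lit 21) (.e (nat_lit 57872) (nat_lit 264) .nil))))))) (.g (nat_lit 6) .nil .nil))) 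
(.lf (nat_lit 29281) (.g (nat_lit 1264) (.e (nat_lit 1200) (nat_lit 88) (.e (nat_lit 65619) (nat_lit 10) (.e (nat_lit 344117) (nat_lit 21) (.e (nat_lit 516106) (nat_lit 0) .nil)))) .nil))) (.nd (nat_lit 5) 
(.lf (nat_lit 29265) (.g (nat_lit 2207) (.e (nat_lit 1200) (nat_lit 88) (.e (nat_lit 65619) (nat_lit 10) (.e (nat_lit 344117) (nat_lit 21) (.e (nat_lit 516097) (nat_lit 0) (.e (nat_lit 3454) (nat_lit 216) (.e (nat_lit 688181) (nat_lit 17) (.e (nat_lit 73729) (nat_lit 0) (.e (nat_lit 7454) (nat_lit 396) .nil)))))))) (.g (nat_lit 4) .nil .nil))) 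
(.lf (nat_lit 29297) (.g (nat_lit 1412) (.e (nat_lit 1200) (nat_lit 88) (.e (nat_lit 65619) (nat_lit 10) (.e (nat_lit 344117) (nat_lit 21) (.e (nat_lit 516135) (nat_lit 5) .nil)))) .nil)))) (.nd (nat_lit 4) (.nd (nat_lit 5) 
(.lf (nat_lit 29257) (.g (nat_lit 1207) (.e (nat_lit 1200) (nat_lit 88) (.e (nat_lit 65619) (nat_lit 10) (.e (nat_lit 344097) (nat_lit 18) (.e (nat_lit 7672) (nat_lit 410) .nil)))) .nil)) 
(.lf (nat_lit 29289) (.g (nat_lit 3365) (.e (nat_lit 1200) (nat_lit 88) (.e (nat_lit 65619) (nat_lit 10) (.e (nat_lit 344117) (nat_lit 21) (.e (nat_lit 516115) (nat_lit 1) (.e (nat_lit 164155) (nat_lit 152) .nil))))) .nil))) (.nd (nat_lit 5) 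
(.lf (nat_lit 29273) (.g (nat_lit 1894) (.e (nat_lit 1200) (nat_lit 88) (.e (nat_lit 65619) (nat_lit 10) (.e (nat_lit 344117) (nat_lit 21) (.e (nat_lit 516097) (nat_lit 0) (.e (nat_lit 7593) (nat_lit 407) (.e (nat_lit 73728) (nat_lit 0) (.e (nat_lit 3972) (nat_lit 239) .nil))))))) (.g (nat_lit 4) .nil .nil))) 
(.lf (nat_lit 29305) (.g (nat_lit 2584) (.e (nat_lit 1200) (nat_lit 88) (.e (nat_lit 65619) (nat_lit 10) (.e (nat_lit 344117) (nat_lit 21) (.e (nat_lit 516185) (nat_lit 16) (.e (nat_lit 491560) (nat_lit 10) (.e (nat_lit 344088) (nat_lit 18) (.e (nat_lit 3920) (nat_lit 239) .nil))))))) (.g (nat_lit 5) .nil .nil)))))) (.nd (nat_lit 3) (.nd (nat_lit 4) (.nd (nat_lit 5) 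
(.lf (nat_lit 29253) (.g (nat_lit 4202) (.e (nat_lit 1200) (nat_lit 88) (.e (nat_lit 65619) (nat_lit 10) (.e (nat_lit 344097) (nat_lit 18) (.e (nat_lit 5907) (nat_lit 320) (.e (nat_lit 1221) (nat_lit 90) (.e (nat_lit 81950) (nat_lit 21) (.e (nat_lit 57871) (nat_lit 264) .nil))))))) (.g (nat_lit 7) .nil .nil))) 
(.lf (nat_lit 29285) (.g (nat_lit 2421) (.e (nat_lit 1200) (nat_lit 88) (.e (nat_lit 65619) (nat_lit 10) (.e (nat_lit 344117) (nat_lit 21) (.e (nat_lit 516106) (nat_lit 0) (.e (nat_lit 7936) (nat_lit 407) (.e (nat_lit 73737) (nat_lit 0) (.e (nat_lit 3962) (nat_lit 239) .nil))))))) (.g (nat_lit 4) .nil .nil)))) (.nd (nat_lit 5) 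
(.lf (nat_lit 29269) (.g (nat_lit 2748) (.e (nat_lit 1200) (nat_lit 88) (.e (nat_lit 65619) (nat_lit 10) (.e (nat_lit 344117) (nat_lit 21) (.e (nat_lit 516097) (nat_lit 0) (.e (nat_lit 3455) (nat_lit 216) (.e (nat_lit 688181) (nat_lit 17) (.e (nat_lit 73729) (nat_lit 0) (.e (nat_lit 7454) (nat_lit 396) .nil)))))))) (.g (nat_lit 4) .nil .nil))) 
(.lf (nat_lit 29301) (.g (nat_lit 3259) (.e (nat_lit 1200) (nat_lit 88) (.e (nat_lit 65619) (nat_lit 10) (.e (nat_lit 344117) (nat_lit 21) (.e (nat_lit 516145) (nat_lit 9) (.e (nat_lit 426448) (nat_lit 20) .nil))))) .nil)))) (.nd (nat_lit 4) (.nd (nat_lit 5) 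
(.lf (nat_lit 29261) (.g (nat_lit 2304) (.e (nat_lit 1200) (nat_lit 88) (.e (nat_lit 65619) (nat_lit 10) (.e (nat_lit 344117) (nat_lit 21) (.e (nat_lit 516097) (nat_lit 0) (.e (nat_lit 3453) (nat_lit 216) (.e (nat_lit 688182) (nat_lit 17) (.e (nat_lit 73729) (nat_lit 0) (.e (nat_lit 7454) (nat_lit 396) .nil)))))))) (.g (nat_lit 4) .nil .nil))) 
(.lf (nat_lit 29293) (.g (nat_lit 1471) (.e (nat_lit 1200) (nat_lit 88) (.e (nat_lit 65619) (nat_lit 10) (.e (nat_lit 344117) (nat_lit 21) (.e (nat_lit 516116) (nat_lit 1) .nil)))) .nil))) (.nd (nat_lit 5) 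
(.lf (nat_lit 29277) (.g (nat_lit 1892) (.e (nat_lit 1200) (nat_lit 88) (.e (nat_lit 65619) (nat_lit 10) (.e (nat_lit 344117) (nat_lit 21) (.e (nat_lit 516098) (nat_lit 0) (.e (nat_lit 7591) (nat_lit 407) (.e (nat_lit 73728) (nat_lit 0) (.e (nat_lit 3971) (nat_lit 239) .nil))))))) (.g (nat_lit 4) .nil .nil))) 
(.lf (nat_lit 29309) (.g (nat_lit 3856) (.e (nat_lit 1200) (nat_lit 88) (.e (nat_lit 65619) (nat_lit 10) (.e (nat_lit 344117) (nat_lit 21) (.e (nat_lit 516185) (nat_lit 16) (.e (nat_lit 491560) (nat_lit 10) (.e (nat_lit 344089) (nat_lit 18) (.e (nat_lit 3925) (nat_lit 239) .nil))))))) (.g (nat_lit 7) .nil .nil))))))) (.nd (nat_lit 2) (.nd (nat_lit 3) (.nd (nat_lit 4) (.nd (nat_lit 5) 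
(.lf (nat_lit 29251) (.g (nat_lit 3925) (.e (nat_lit 1200) (nat_lit 88) (.e (nat_lit 65619) (nat_lit 10) (.e (nat_lit 344097) (nat_lit 18) (.e (nat_lit 5907) (nat_lit 320) (.e (nat_lit 1221) (nat_lit 90) (.e (nat_lit 81948) (nat_lit 21) (.e (nat_lit 57871) (nat_lit 264) .nil))))))) (.g (nat_lit 7) .nil .nil))) 
(.lf (nat_lit 29283) (.g (nat_lit 2858) (.e (nat_lit 1200) (nat_lit 88) (.e (nat_lit 65619) (nat_lit 10) (.e (nat_lit 344117) (nat_lit 21) (.e (nat_lit 516106) (nat_lit 0) (.e (nat_lit 3452) (nat_lit 216) .nil))))) .nil))) (.nd (nat_lit 5) 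
(.lf (nat_lit 29267) (.g (nat_lit 2907) (.e (nat_lit 1200) (nat_lit 88) (.e (nat_lit 65619) (nat_lit 10) (.e (nat_lit 344117) (nat_lit 21) (.e (nat_lit 516097) (nat_lit 0) (.e (nat_lit 3454) (nat_lit 216) (.e (nat_lit 688181) (nat_lit 17) (.e (nat_lit 73731) (nat_lit 0) (.e (nat_lit 7454) (nat_lit 396) .nil)))))))) (.g (nat_lit 5) .nil .nil))) 
(.lf (nat_lit 29299) (.g (nat_lit 2052) (.e (nat_lit 1200) (nat_lit 88) (.e (nat_lit 65619) (nat_lit 10) (.e (nat_lit 344117) (nat_lit 21) (.e (nat_lit 516135) (nat_lit 5) (.e (nat_lit 253975) (nat_lit 9) (.e (nat_lit 1281) (nat_lit 94) (.e (nat_lit 114711) (nat_lit 21) (.e (nat_lit 57870) (nat_lit 264) .nil)))))))) (.g (nat_lit 4) .nil .nil))))) (.nd (nat_lit 4) (.nd (nat_lit 5) 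
(.lf (nat_lit 29259) (.g (nat_lit 2097) (.e (nat_lit 1200) (nat_lit 88) (.e (nat_lit 65619) (nat_lit 10) (.e (nat_lit 344117) (nat_lit 21) (.e (nat_lit 516097) (nat_lit 0) (.e (nat_lit 3453) (nat_lit 216) .nil))))) .nil)) 
(.lf (nat_lit 29291) (.g (nat_lit 2273) (.e (nat_lit 1200) (nat_lit 88) (.e (nat_lit 65619) (nat_lit 10) (.e (nat_lit 344117) (nat_lit 21) (.e (nat_lit 516115) (nat_lit 1) (.e (nat_lit 164179) (nat_lit 154) (.e (nat_lit 57407) (nat_lit 12) (.e (nat_lit 336310) (nat_lit 16) (.e (nat_lit 164424) (nat_lit 272) .nil)))))))) (.g (nat_lit 4) .nil .nil)))) (.nd (nat_lit 5) 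
(.lf (nat_lit 29275) (.g (nat_lit 1978) (.e (nat_lit 1200) (nat_lit 88) (.e (nat_lit 65619) (nat_lit 10) (.e (nat_lit 344117) (nat_lit 21) (.e (nat_lit 516098) (nat_lit 0) (.e (nat_lit 3555) (nat_lit 220) (.e (nat_lit 720956) (nat_lit 25) (.e (nat_lit 114711) (nat_lit 21) (.e (nat_lit 57870) (nat_lit 264) .nil)))))))) (.g (nat_lit 4) .nil .nil))) 
(.lf (nat_lit 29307) (.g (nat_lit 2016) (.e (nat_lit 1200) (nat_lit 88) (.e (nat_lit 65619) (nat_lit 10) (.e (nat_lit 344117) (nat_lit 21) (.e (nat_lit 516185) (nat_lit 16) (.e (nat_lit 491560) (nat_lit 10) (.e (nat_lit 344088) (nat_lit 18) (.e (nat_lit 3927) (nat_lit 239) .nil))))))) (.g (nat_lit 4) .nil .nil)))))) (.nd (nat_lit 3) (.nd (nat_lit 4) (.nd (nat_lit 5) 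
(.lf (nat_lit 29255) (.g (nat_lit 1945) (.e (nat_lit 1200) (nat_lit 88) (.e (nat_lit 65619) (nat_lit 10) (.e (nat_lit 344097) (nat_lit 18) (.e (nat_lit 5907) (nat_lit 320) (.e (nat_lit 7936) (nat_lit 90) (.e (nat_lit 81948) (nat_lit 21) (.e (nat_lit 57872) (nat_lit 264) .nil))))))) (.g (nat_lit 4) .nil .nil))) 
(.lf (nat_lit 29287) (.g (nat_lit 3562) (.e (nat_lit 1200) (nat_lit 88) (.e (nat_lit 65619) (nat_lit 10) (.e (nat_lit 344117) (nat_lit 21) (.e (nat_lit 516115) (nat_lit 1) (.e (nat_lit 164151) (nat_lit 152) (.e (nat_lit 1207) (nat_lit 89) (.e (nat_lit 73729) (nat_lit 0) (.e (nat_lit 7454) (nat_lit 396) .nil)))))))) (.g (nat_lit 4) .nil .nil)))) (.nd (nat_lit 5) 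
(.lf (nat_lit 29271) (.g (nat_lit 2199) (.e (nat_lit 1200) (nat_lit 88) (.e (nat_lit 65619) (nat_lit 10) (.e (nat_lit 344117) (nat_lit 21) (.e (nat_lit 516097) (nat_lit 0) (.e (nat_lit 3555) (nat_lit 220) .nil))))) .nil)) 
(.lf (nat_lit 29303) (.g (nat_lit 3084) (.e (nat_lit 1200) (nat_lit 88) (.e (nat_lit 65619) (nat_lit 10) (.e (nat_lit 344117) (nat_lit 21) (.e (nat_lit 516185) (nat_lit 16) (.e (nat_lit 491560) (nat_lit 10) (.e (nat_lit 344087) (nat_lit 18) (.e (nat_lit 3925) (nat_lit 239) .nil))))))) (.g (nat_lit 5) .nil .nil))))) (.nd (nat_lit 4) (.nd (nat_lit 5) 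
(.lf (nat_lit 29263) (.g (nat_lit 3473) (.e (nat_lit 1200) (nat_lit 88) (.e (nat_lit 65619) (nat_lit 10) (.e (nat_lit 344117) (nat_lit 21) (.e (nat_lit 516097) (nat_lit 0) (.e (nat_lit 3453) (nat_lit 216) (.e (nat_lit 688182) (nat_lit 17) (.e (nat_lit 73731) (nat_lit 0) (.e (nat_lit 7454) (nat_lit 396) .nil)))))))) (.g (nat_lit 7) .nil .nil))) 
(.lf (nat_lit 29295) (.g (nat_lit 2468) (.e (nat_lit 1200) (nat_lit 88) (.e (nat_lit 65619) (nat_lit 10) (.e (nat_lit 344117) (nat_lit 21) (.e (nat_lit 516134) (nat_lit 5) (.e (nat_lit 253975) (nat_lit 9) .nil))))) .nil))) (.nd (nat_lit 5) 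
(.lf (nat_lit 29279) (.g (nat_lit 1835) (.e (nat_lit 1200) (nat_lit 88) (.e (nat_lit 65619) (nat_lit 10) (.e (nat_lit 344117) (nat_lit 21) (.e (nat_lit 516098) (nat_lit 0) (.e (nat_lit 7593) (nat_lit 407) (.e (nat_lit 73736) (nat_lit 0) (.e (nat_lit 3962) (nat_lit 239) .nil))))))) (.g (nat_lit 4) .nil .nil))) 
(.lf (nat_lit 29311) (.g (nat_lit 3336) (.e (nat_lit 1200) (nat_lit 88) (.e (nat_lit 65619) (nat_lit 10) (.e (nat_lit 344117) (nat_lit 21) (.e (nat_lit 516185) (nat_lit 16) (.e (nat_lit 491560) (nat_lit 10) (.e (nat_lit 344089) (nat_lit 18) (.e (nat_lit 3972) (nat_lit 239) .nil))))))) (.g (nat_lit 5) .nil .nil)))))))))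

noncomputable def tv406 : DT := (.nd (nat_lit 0) (.nd (nat_lit 1) (.nd (nat_lit 2) (.nd (nat_lit 3) (.nd (nat_lit 4) (.nd (nat_lit 5) 
(.lf (nat_lit 29312) (.g (nat_lit 2026) (.e (nat_lit 1200) (nat_lit 88) (.e (nat_lit 65619) (nat_lit 10) (.e (nat_lit 344117) (nat_lit 21) (.e (nat_lit 516185) (nat_lit 16) (.e (nat_lit 491560) (nat_lit 10) (.e (nat_lit 344103) (nat_lit 18) (.e (nat_lit 3962) (nat_lit 239) .nil))))))) (.g (nat_lit 4) .nil .nil))) 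
(.lf (nat_lit 29344) (.g (nat_lit 3779) (.e (nat_lit 1200) (nat_lit 88) (.e (nat_lit 65619) (nat_lit 10) (.e (nat_lit 344117) (nat_lit 21) (.e (nat_lit 516195) (nat_lit 26) (.e (nat_lit 335996) (nat_lit 1) (.e (nat_lit 57851) (nat_lit 252) (.e (nat_lit 57364) (nat_lit 1) (.e (nat_lit 57754) (nat_lit 209) .nil)))))))) (.g (nat_lit 6) .nil .nil)))) (.nd (nat_lit 5) 
(.lf (nat_lit 29328) (.g (nat_lit 3973) (.e (nat_lit 1200) (nat_lit 88) (.e (nat_lit 65619) (nat_lit 10) (.e (nat_lit 344117) (nat_lit 21) (.e (nat_lit 516195) (nat_lit 26) (.e (nat_lit 335995) (nat_lit 1) (.e (nat_lit 57847) (nat_lit 252) (.e (nat_lit 57363) (nat_lit 1) (.e (nat_lit 57755) (nat_lit 209) .nil)))))))) (.g (nat_lit 0) .nil .nil))) 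
(.lf (nat_lit 29360) (.g (nat_lit 1156) (.e (nat_lit 1200) (nat_lit 88) (.e (nat_lit 65619) (nat_lit 10) (.e (nat_lit 344126) (nat_lit 25) (.e (nat_lit 548891) (nat_lit 11) .nil)))) .nil)))) (.nd (nat_lit 4) (.nd (nat_lit 5) 
(.lf (nat_lit 29320) (.g (nat_lit 3662) (.e (nat_lit 1200) (nat_lit 88) (.e (nat_lit 65619) (nat_lit 10) (.e (nat_lit 344117) (nat_lit 21) (.e (nat_lit 516195) (nat_lit 26) (.e (nat_lit 335986) (nat_lit 1) (.e (nat_lit 57847) (nat_lit 252) (.e (nat_lit 57367) (nat_lit 1) (.e (nat_lit 57755) (nat_lit 209) .nil)))))))) (.g (nat_lit 6) .nil .nil))) 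
(.lf (nat_lit 29352) (.g (nat_lit 2859) (.e (nat_lit 1200) (nat_lit 88) (.e (nat_lit 65619) (nat_lit 10) (.e (nat_lit 344117) (nat_lit 21) (.e (nat_lit 524032) (nat_lit 33) (.e (nat_lit 401454) (nat_lit 12) (.e (nat_lit 475155) (nat_lit 21) (.e (nat_lit 4609) (nat_lit 269) .nil))))))) (.g (nat_lit 6) .nil .nil)))) (.nd (nat_lit 5) 
(.lf (nat_lit 29336) (.g (nat_lit 3482) (.e (nat_lit 1200) (nat_lit 88) (.e (nat_lit 65619) (nat_lit 10) (.e (nat_lit 344117) (nat_lit 21) (.e (nat_lit 516195) (nat_lit 26) (.e (nat_lit 335995) (nat_lit 1) (.e (nat_lit 57848) (nat_lit 252) (.e (nat_lit 57367) (nat_lit 1) (.e (nat_lit 57755) (nat_lit 209) .nil)))))))) (.g (nat_lit 6) .nil .nil))) 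
(.lf (nat_lit 29368) (.g (nat_lit 3162) (.e (nat_lit 1200) (nat_lit 88) (.e (nat_lit 65619) (nat_lit 10) (.e (nat_lit 344129) (nat_lit 26) (.e (nat_lit 557084) (nat_lit 10) (.e (nat_lit 8361) (nat_lit 89) (.e (nat_lit 720956) (nat_lit 25) (.e (nat_lit 114712) (nat_lit 21) (.e (nat_lit 57870) (nat_lit 264) .nil)))))))) (.g (nat_lit 4) .nil .nil)))))) 
(.nd (nat_lit 3) (.nd (nat_lit 4) (.nd (nat_lit 5) 
(.lf (nat_lit 29316) (.g (nat_lit 1220) (.e (nat_lit 1200) (nat_lit 88) (.e (nat_lit 65619) (nat_lit 10) (.e (nat_lit 344117) (nat_lit 21) (.e (nat_lit 516195) (nat_lit 26) .nil)))) .nil)) 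
(.lf (nat_lit 29348) (.g (nat_lit 3617) (.e (nat_lit 1200) (nat_lit 88) (.e (nat_lit 65619) (nat_lit 10) (.e (nat_lit 344117) (nat_lit 21) (.e (nat_lit 516195) (nat_lit 26) (.e (nat_lit 335996) (nat_lit 1) (.e (nat_lit 57854) (nat_lit 252) (.e (nat_lit 57366) (nat_lit 1) (.e (nat_lit 57754) (nat_lit 209) .nil)))))))) (.g (nat_lit 6) .nil .nil)))) (.nd (nat_lit 5) 
(.lf (nat_lit 29332) (.g (nat_lit 2937) (.e (nat_lit 1200) (nat_lit 88) (.e (nat_lit 65619) (nat_lit 10) (.e (nat_lit 344117) (nat_lit 21) (.e (nat_lit 516195) (nat_lit 26) (.e (nat_lit 335995) (nat_lit 1) (.e (nat_lit 57848) (nat_lit 252) (.e (nat_lit 57363) (nat_lit 1) (.e (nat_lit 57754) (nat_lit 209) .nil)))))))) (.g (nat_lit 5) .nil .nil))) 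
(.lf (nat_lit 29364) (.g (nat_lit 2852) (.e (nat_lit 1200) (nat_lit 88) (.e (nat_lit 65619) (nat_lit 10) (.e (nat_lit 344129) (nat_lit 26) (.e (nat_lit 557067) (nat_lit 9) (.e (nat_lit 7936) (nat_lit 23) .nil))))) .nil)))) (.nd (nat_lit 4) (.nd (nat_lit 5) 
(.lf (nat_lit 29324) (.g (nat_lit 3179) (.e (nat_lit 1200) (nat_lit 88) (.e (nat_lit 65619) (nat_lit 10) (.e (nat_lit 344117) (nat_lit 21) (.e (nat_lit 516195) (nat_lit 26) (.e (nat_lit 335988) (nat_lit 1) (.e (nat_lit 57854) (nat_lit 252) (.e (nat_lit 57364) (nat_lit 1) (.e (nat_lit 57754) (nat_lit 209) .nil)))))))) (.g (nat_lit 6) .nil .nil))) 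
(.lf (nat_lit 29356) (.g (nat_lit 2620) (.e (nat_lit 1200) (nat_lit 88) (.e (nat_lit 65619) (nat_lit 10) (.e (nat_lit 344123) (nat_lit 24) (.e (nat_lit 540724) (nat_lit 28) (.e (nat_lit 442421) (nat_lit 21) (.e (nat_lit 164195) (nat_lit 158) .nil)))))) (.g (nat_lit 5) .nil .nil)))) (.nd (nat_lit 5) 
(.lf (nat_lit 29340) (.g (nat_lit 3824) (.e (nat_lit 1200) (nat_lit 88) (.e (nat_lit 65619) (nat_lit 10) (.e (nat_lit 344117) (nat_lit 21) (.e (nat_lit 516195) (nat_lit 26) (.e (nat_lit 335995) (nat_lit 1) (.e (nat_lit 57849) (nat_lit 252) (.e (nat_lit 57365) (nat_lit 1) (.e (nat_lit 57754) (nat_lit 209) .nil)))))))) (.g (nat_lit 6) .nil .nil))) 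
(.lf (nat_lit 29372) (.g (nat_lit 2816) (.e (nat_lit 1200) (nat_lit 88) (.e (nat_lit 65619) (nat_lit 10) (.e (nat_lit 344129) (nat_lit 26) (.e (nat_lit 557084) (nat_lit 10) (.e (nat_lit 8363) (nat_lit 89) .nil))))) .nil)))))) (.nd (nat_lit 2) (.nd (nat_lit 3) (.nd (nat_lit 4) (.nd (nat_lit 5) 
(.lf (nat_lit 29314) (.g (nat_lit 3444) (.e (nat_lit 1200) (nat_lit 88) (.e (nat_lit 65619) (nat_lit 10) (.e (nat_lit 344117) (nat_lit 21) (.e (nat_lit 516191) (nat_lit 17) (.e (nat_lit 6112) (nat_lit 332) (.e (nat_lit 1374) (nat_lit 104) (.e (nat_lit 303115) (nat_lit 1) (.e (nat_lit 164195) (nat_lit 158) .nil)))))))) (.g (nat_lit 6) .nil .nil))) 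
(.lf (nat_lit 29346) (.g (nat_lit 3665) (.e (nat_lit 1200) (nat_lit 88) (.e (nat_lit 65619) (nat_lit 10) (.e (nat_lit 344117) (nat_lit 21) (.e (nat_lit 516195) (nat_lit 26) (.e (nat_lit 335996) (nat_lit 1) (.e (nat_lit 57854) (nat_lit 252) (.e (nat_lit 57363) (nat_lit 1) (.e (nat_lit 57755) (nat_lit 209) .nil)))))))) (.g (nat_lit 7) .nil .nil)))) (.nd (nat_lit 5) 
(.lf (nat_lit 29330) (.g (nat_lit 3265) (.e (nat_lit 1200) (nat_lit 88) (.e (nat_lit 65619) (nat_lit 10) (.e (nat_lit 344117) (nat_lit 21) (.e (nat_lit 516195) (nat_lit 26) (.e (nat_lit 335995) (nat_lit 1) (.e (nat_lit 57847) (nat_lit 252) (.e (nat_lit 57367) (nat_lit 1) (.e (nat_lit 57754) (nat_lit 209) .nil)))))))) (.g (nat_lit 6) .nil .nil))) 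
(.lf (nat_lit 29362) (.g (nat_lit 981) (.e (nat_lit 1200) (nat_lit 88) (.e (nat_lit 65619) (nat_lit 10) (.e (nat_lit 344129) (nat_lit 26) (.e (nat_lit 557066) (nat_lit 9) .nil)))) .nil)))) (.nd (nat_lit 4) (.nd (nat_lit 5) 
(.lf (nat_lit 29322) (.g (nat_lit 2674) (.e (nat_lit 1200) (nat_lit 88) (.e (nat_lit 65619) (nat_lit 10) (.e (nat_lit 344117) (nat_lit 21) (.e (nat_lit 516195) (nat_lit 26) (.e (nat_lit 335988) (nat_lit 1) (.e (nat_lit 57854) (nat_lit 252) (.e (nat_lit 57363) (nat_lit 1) (.e (nat_lit 57754) (nat_lit 209) .nil)))))))) (.g (nat_lit 4) .nil .nil))) 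
(.lf (nat_lit 29354) (.g (nat_lit 2585) (.e (nat_lit 1200) (nat_lit 88) (.e (nat_lit 65619) (nat_lit 10) (.e (nat_lit 344123) (nat_lit 24) (.e (nat_lit 540724) (nat_lit 28) (.e (nat_lit 442419) (nat_lit 21) (.e (nat_lit 164195) (nat_lit 158) .nil)))))) (.g (nat_lit 5) .nil .nil)))) (.nd (nat_lit 5) 
(.lf (nat_lit 29338) (.g (nat_lit 2311) (.e (nat_lit 1200) (nat_lit 88) (.e (nat_lit 65619) (nat_lit 10) (.e (nat_lit 344117) (nat_lit 21) (.e (nat_lit 516195) (nat_lit 26) (.e (nat_lit 335995) (nat_lit 1) (.e (nat_lit 57848) (nat_lit 252) (.e (nat_lit 57392) (nat_lit 6) (.e (nat_lit 123109) (nat_lit 209) .nil)))))))) (.g (nat_lit 4) .nil .nil))) 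
(.lf (nat_lit 29370) (.g (nat_lit 4825) (.e (nat_lit 1200) (nat_lit 88) (.e (nat_lit 65619) (nat_lit 10) (.e (nat_lit 344129) (nat_lit 26) (.e (nat_lit 557084) (nat_lit 10) (.e (nat_lit 8362) (nat_lit 89) (.e (nat_lit 720956) (nat_lit 25) (.e (nat_lit 114711) (nat_lit 21) (.e (nat_lit 57870) (nat_lit 264) .nil)))))))) (.g (nat_lit 8) .nil .nil)))))) 
(.nd (nat_lit 3) (.nd (nat_lit 4) (.nd (nat_lit 5) 
(.lf (nat_lit 29318) (.g (nat_lit 2277) (.e (nat_lit 1200) (nat_lit 88) (.e (nat_lit 65619) (nat_lit 10) (.e (nat_lit 344117) (nat_lit 21) (.e (nat_lit 516195) (nat_lit 26) (.e (nat_lit 335986) (nat_lit 1) (.e (nat_lit 57847) (nat_lit 252) (.e (nat_lit 57365) (nat_lit 1) (.e (nat_lit 65280) (nat_lit 209) .nil)))))))) (.g (nat_lit 4) .nil .nil))) 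
(.lf (nat_lit 29350) (.g (nat_lit 2019) (.e (nat_lit 1200) (nat_lit 88) (.e (nat_lit 65619) (nat_lit 10) (.e (nat_lit 344117) (nat_lit 21) (.e (nat_lit 516195) (nat_lit 26) (.e (nat_lit 335996) (nat_lit 1) (.e (nat_lit 57854) (nat_lit 252) (.e (nat_lit 57392) (nat_lit 6) (.e (nat_lit 123109) (nat_lit 209) .nil)))))))) (.g (nat_lit 4) .nil .nil)))) (.nd (nat_lit 5) 
(.lf (nat_lit 29334) (.g (nat_lit 3305) (.e (nat_lit 1200) (nat_lit 88) (.e (nat_lit 65619) (nat_lit 10) (.e (nat_lit 344117) (nat_lit 21) (.e (nat_lit 516195) (nat_lit 26) (.e (nat_lit 335995) (nat_lit 1) (.e (nat_lit 57848) (nat_lit 252) (.e (nat_lit 57365) (nat_lit 1) (.e (nat_lit 57754) (nat_lit 209) .nil)))))))) (.g (nat_lit 6) .nil .nil))) 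
(.lf (nat_lit 29366) (.g (nat_lit 1491) (.e (nat_lit 1200) (nat_lit 88) (.e (nat_lit 65619) (nat_lit 10) (.e (nat_lit 344129) (nat_lit 26) (.e (nat_lit 557074) (nat_lit 9) (.e (nat_lit 7936) (nat_lit 23) .nil))))) .nil)))) (.nd (nat_lit 4) (.nd (nat_lit 5) 
(.lf (nat_lit 29326) (.g (nat_lit 1903) (.e (nat_lit 1200) (nat_lit 88) (.e (nat_lit 65619) (nat_lit 10) (.e (nat_lit 344117) (nat_lit 21) (.e (nat_lit 516195) (nat_lit 26) (.e (nat_lit 335995) (nat_lit 1) .nil))))) .nil)) 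
(.lf (nat_lit 29358) (.g (nat_lit 2485) (.e (nat_lit 1200) (nat_lit 88) (.e (nat_lit 65619) (nat_lit 10) (.e (nat_lit 344123) (nat_lit 24) (.e (nat_lit 540724) (nat_lit 28) (.e (nat_lit 442430) (nat_lit 24) (.e (nat_lit 229559) (nat_lit 158) .nil)))))) (.g (nat_lit 5) .nil .nil)))) (.nd (nat_lit 5) 
(.lf (nat_lit 29342) (.g (nat_lit 3498) (.e (nat_lit 1200) (nat_lit 88) (.e (nat_lit 65619) (nat_lit 10) (.e (nat_lit 344117) (nat_lit 21) (.e (nat_lit 516195) (nat_lit 26) (.e (nat_lit 335995) (nat_lit 1) (.e (nat_lit 57849) (nat_lit 252) (.e (nat_lit 57367) (nat_lit 1) (.e (nat_lit 57755) (nat_lit 209) .nil)))))))) (.g (nat_lit 5) .nil .nil))) 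
(.lf (nat_lit 29374) (.g (nat_lit 2905) (.e (nat_lit 1200) (nat_lit 88) (.e (nat_lit 65619) (nat_lit 10) (.e (nat_lit 344129) (nat_lit 26) (.e (nat_lit 557084) (nat_lit 10) (.e (nat_lit 8363) (nat_lit 89) (.e (nat_lit 720955) (nat_lit 25) (.e (nat_lit 114711) (nat_lit 21) (.e (nat_lit 57872) (nat_lit 264) .nil)))))))) (.g (nat_lit 4) .nil .nil)))))))) 
(.nd (nat_lit 1) (.nd (nat_lit 2) (.nd (nat_lit 3) (.nd (nat_lit 4) (.nd (nat_lit 5) 
(.lf (nat_lit 29313) (.g (nat_lit 1361) (.e (nat_lit 1200) (nat_lit 88) (.e (nat_lit 65619) (nat_lit 10) (.e (nat_lit 344117) (nat_lit 21) (.e (nat_lit 516191) (nat_lit 17) .nil)))) .nil)) 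
(.lf (nat_lit 29345) (.g (nat_lit 1998) (.e (nat_lit 1200) (nat_lit 88) (.e (nat_lit 65619) (nat_lit 10) (.e (nat_lit 344117) (nat_lit 21) (.e (nat_lit 516195) (nat_lit 26) (.e (nat_lit 335996) (nat_lit 1) (.e (nat_lit 57854) (nat_lit 252) (.e (nat_lit 57362) (nat_lit 1) (.e (nat_lit 57754) (nat_lit 209) .nil)))))))) (.g (nat_lit 4) .nil .nil)))) (.nd (nat_lit 5) 
(.lf (nat_lit 29329) (.g (nat_lit 2131) (.e (nat_lit 1200) (nat_lit 88) (.e (nat_lit 65619) (nat_lit 10) (.e (nat_lit 344117) (nat_lit 21) (.e (nat_lit 516195) (nat_lit 26) (.e (nat_lit 335995) (nat_lit 1) (.e (nat_lit 57847) (nat_lit 252) (.e (nat_lit 57365) (nat_lit 1) (.e (nat_lit 65280) (nat_lit 209) .nil)))))))) (.g (nat_lit 4) .nil .nil))) 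
(.lf (nat_lit 29361) (.g (nat_lit 2515) (.e (nat_lit 1200) (nat_lit 88) (.e (nat_lit 65619) (nat_lit 10) (.e (nat_lit 344129) (nat_lit 26) (.e (nat_lit 557057) (nat_lit 0) (.e (nat_lit 1532) (nat_lit 109) .nil))))) .nil)))) (.nd (nat_lit 4) (.nd (nat_lit 5) 
(.lf (nat_lit 29321) (.g (nat_lit 3847) (.e (nat_lit 1200) (nat_lit 88) (.e (nat_lit 65619) (nat_lit 10) (.e (nat_lit 344117) (nat_lit 21) (.e (nat_lit 516195) (nat_lit 26) (.e (nat_lit 335986) (nat_lit 1) (.e (nat_lit 57847) (nat_lit 252) (.e (nat_lit 57392) (nat_lit 6) (.e (nat_lit 123109) (nat_lit 209) .nil)))))))) (.g (nat_lit 8) .nil .nil))) 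
(.lf (nat_lit 29353) (.g (nat_lit 411) (.e (nat_lit 1200) (nat_lit 88) (.e (nat_lit 65619) (nat_lit 10) (.e (nat_lit 344123) (nat_lit 24) .nil))) .nil))) (.nd (nat_lit 5) 
(.lf (nat_lit 29337) (.g (nat_lit 3301) (.e (nat_lit 1200) (nat_lit 88) (.e (nat_lit 65619) (nat_lit 10) (.e (nat_lit 344117) (nat_lit 21) (.e (nat_lit 516195) (nat_lit 26) (.e (nat_lit 335995) (nat_lit 1) (.e (nat_lit 57848) (nat_lit 252) (.e (nat_lit 57368) (nat_lit 1) (.e (nat_lit 57754) (nat_lit 209) .nil)))))))) (.g (nat_lit 6) .nil .nil))) 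
(.lf (nat_lit 29369) (.g (nat_lit 2921) (.e (nat_lit 1200) (nat_lit 88) (.e (nat_lit 65619) (nat_lit 10) (.e (nat_lit 344129) (nat_lit 26) (.e (nat_lit 557084) (nat_lit 10) (.e (nat_lit 8362) (nat_lit 89) .nil))))) .nil))))) (.nd (nat_lit 3) (.nd (nat_lit 4) (.nd (nat_lit 5) 
(.lf (nat_lit 29317) (.g (nat_lit 4144) (.e (nat_lit 1200) (nat_lit 88) (.e (nat_lit 65619) (nat_lit 10) (.e (nat_lit 344117) (nat_lit 21) (.e (nat_lit 516195) (nat_lit 26) (.e (nat_lit 335986) (nat_lit 1) (.e (nat_lit 57847) (nat_lit 252) (.e (nat_lit 57363) (nat_lit 1) (.e (nat_lit 57755) (nat_lit 209) .nil)))))))) (.g (nat_lit 0) .nil .nil))) 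
(.lf (nat_lit 29349) (.g (nat_lit 3125) (.e (nat_lit 1200) (nat_lit 88) (.e (nat_lit 65619) (nat_lit 10) (.e (nat_lit 344117) (nat_lit 21) (.e (nat_lit 516195) (nat_lit 26) (.e (nat_lit 335996) (nat_lit 1) (.e (nat_lit 57854) (nat_lit 252) (.e (nat_lit 57366) (nat_lit 1) (.e (nat_lit 57755) (nat_lit 209) .nil)))))))) (.g (nat_lit 6) .nil .nil)))) (.nd (nat_lit 5) 
(.lf (nat_lit 29333) (.g (nat_lit 2816) (.e (nat_lit 1200) (nat_lit 88) (.e (nat_lit 65619) (nat_lit 10) (.e (nat_lit 344117) (nat_lit 21) (.e (nat_lit 516195) (nat_lit 26) (.e (nat_lit 335995) (nat_lit 1) (.e (nat_lit 57848) (nat_lit 252) (.e (nat_lit 57363) (nat_lit 1) (.e (nat_lit 57755) (nat_lit 209) .nil)))))))) (.g (nat_lit 5) .nil .nil))) 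
(.lf (nat_lit 29365) (.g (nat_lit 2178) (.e (nat_lit 1200) (nat_lit 88) (.e (nat_lit 65619) (nat_lit 10) (.e (nat_lit 344129) (nat_lit 26) (.e (nat_lit 557074) (nat_lit 9) (.e (nat_lit 284) (nat_lit 21) .nil))))) .nil)))) (.nd (nat_lit 4) (.nd (nat_lit 5) 
(.lf (nat_lit 29325) (.g (nat_lit 2401) (.e (nat_lit 1200) (nat_lit 88) (.e (nat_lit 65619) (nat_lit 10) (.e (nat_lit 344117) (nat_lit 21) (.e (nat_lit 516195) (nat_lit 26) (.e (nat_lit 335988) (nat_lit 1) (.e (nat_lit 57854) (nat_lit 252) (.e (nat_lit 57366) (nat_lit 1) (.e (nat_lit 57754) (nat_lit 209) .nil)))))))) (.g (nat_lit 4) .nil .nil))) 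
(.lf (nat_lit 29357) (.g (nat_lit 2083) (.e (nat_lit 1200) (nat_lit 88) (.e (nat_lit 65619) (nat_lit 10) (.e (nat_lit 344123) (nat_lit 24) (.e (nat_lit 540724) (nat_lit 28) (.e (nat_lit 442428) (nat_lit 24) (.e (nat_lit 229559) (nat_lit 158) .nil)))))) (.g (nat_lit 5) .nil .nil)))) (.nd (nat_lit 5) 
(.lf (nat_lit 29341) (.g (nat_lit 3397) (.e (nat_lit 1200) (nat_lit 88) (.e (nat_lit 65619) (nat_lit 10) (.e (nat_lit 344117) (nat_lit 21) (.e (nat_lit 516195) (nat_lit 26) (.e (nat_lit 335995) (nat_lit 1) (.e (nat_lit 57849) (nat_lit 252) (.e (nat_lit 57367) (nat_lit 1) (.e (nat_lit 57754) (nat_lit 209) .nil)))))))) (.g (nat_lit 5) .nil .nil))) 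
(.lf (nat_lit 29373) (.g (nat_lit 2840) (.e (nat_lit 1200) (nat_lit 88) (.e (nat_lit 65619) (nat_lit 10) (.e (nat_lit 344129) (nat_lit 26) (.e (nat_lit 557084) (nat_lit 10) (.e (nat_lit 8363) (nat_lit 89) (.e (nat_lit 720955) (nat_lit 25) (.e (nat_lit 114711) (nat_lit 21) (.e (nat_lit 57870) (nat_lit 264) .nil)))))))) (.g (nat_lit 4) .nil .nil))))))) 
(.nd (nat_lit 2) (.nd (nat_lit 3) (.nd (nat_lit 4) (.nd (nat_lit 5) 
(.lf (nat_lit 29315) (.g (nat_lit 3640) (.e (nat_lit 1200) (nat_lit 88) (.e (nat_lit 65619) (nat_lit 10) (.e (nat_lit 344117) (nat_lit 21) (.e (nat_lit 516191) (nat_lit 17) (.e (nat_lit 6112) (nat_lit 332) (.e (nat_lit 1374) (nat_lit 104) (.e (nat_lit 303115) (nat_lit 1) (.e (nat_lit 164196) (nat_lit 158) .nil)))))))) (.g (nat_lit 6) .nil .nil))) 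
(.lf (nat_lit 29347) (.g (nat_lit 4495) (.e (nat_lit 1200) (nat_lit 88) (.e (nat_lit 65619) (nat_lit 10) (.e (nat_lit 344117) (nat_lit 21) (.e (nat_lit 516195) (nat_lit 26) (.e (nat_lit 335996) (nat_lit 1) (.e (nat_lit 57854) (nat_lit 252) (.e (nat_lit 57364) (nat_lit 1) (.e (nat_lit 57754) (nat_lit 209) .nil)))))))) (.g (nat_lit 0) .nil .nil)))) (.nd (nat_lit 5) 
(.lf (nat_lit 29331) (.g (nat_lit 3366) (.e (nat_lit 1200) (nat_lit 88) (.e (nat_lit 65619) (nat_lit 10) (.e (nat_lit 344117) (nat_lit 21) (.e (nat_lit 516195) (nat_lit 26) (.e (nat_lit 335995) (nat_lit 1) (.e (nat_lit 57847) (nat_lit 252) (.e (nat_lit 57367) (nat_lit 1) (.e (nat_lit 57755) (nat_lit 209) .nil)))))))) (.g (nat_lit 6) .nil .nil))) 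
(.lf (nat_lit 29363) (.g (nat_lit 2105) (.e (nat_lit 1200) (nat_lit 88) (.e (nat_lit 65619) (nat_lit 10) (.e (nat_lit 344129) (nat_lit 26) (.e (nat_lit 557066) (nat_lit 9) (.e (nat_lit 314) (nat_lit 23) .nil))))) .nil)))) (.nd (nat_lit 4) (.nd (nat_lit 5) 
(.lf (nat_lit 29323) (.g (nat_lit 2549) (.e (nat_lit 1200) (nat_lit 88) (.e (nat_lit 65619) (nat_lit 10) (.e (nat_lit 344117) (nat_lit 21) (.e (nat_lit 516195) (nat_lit 26) (.e (nat_lit 335988) (nat_lit 1) (.e (nat_lit 57854) (nat_lit 252) (.e (nat_lit 57363) (nat_lit 1) (.e (nat_lit 57755) (nat_lit 209) .nil)))))))) (.g (nat_lit 4) .nil .nil))) 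
(.lf (nat_lit 29355) (.g (nat_lit 1572) (.e (nat_lit 1200) (nat_lit 88) (.e (nat_lit 65619) (nat_lit 10) (.e (nat_lit 344123) (nat_lit 24) (.e (nat_lit 540724) (nat_lit 28) (.e (nat_lit 442420) (nat_lit 21) (.e (nat_lit 164195) (nat_lit 158) .nil)))))) (.g (nat_lit 4) .nil .nil)))) (.nd (nat_lit 5) 
(.lf (nat_lit 29339) (.g (nat_lit 4110) (.e (nat_lit 1200) (nat_lit 88) (.e (nat_lit 65619) (nat_lit 10) (.e (nat_lit 344117) (nat_lit 21) (.e (nat_lit 516195) (nat_lit 26) (.e (nat_lit 335995) (nat_lit 1) (.e (nat_lit 57849) (nat_lit 252) (.e (nat_lit 57363) (nat_lit 1) (.e (nat_lit 57754) (nat_lit 209) .nil)))))))) (.g (nat_lit 6) .nil .nil))) 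
(.lf (nat_lit 29371) (.g (nat_lit 4934) (.e (nat_lit 1200) (nat_lit 88) (.e (nat_lit 65619) (nat_lit 10) (.e (nat_lit 344129) (nat_lit 26) (.e (nat_lit 557084) (nat_lit 10) (.e (nat_lit 8362) (nat_lit 89) (.e (nat_lit 720956) (nat_lit 25) (.e (nat_lit 114711) (nat_lit 21) (.e (nat_lit 57872) (nat_lit 264) .nil)))))))) (.g (nat_lit 8) .nil .nil)))))) 
(.nd (nat_lit 3) (.nd (nat_lit 4) (.nd (nat_lit 5) 
(.lf (nat_lit 29319) (.g (nat_lit 3561) (.e (nat_lit 1200) (nat_lit 88) (.e (nat_lit 65619) (nat_lit 10) (.e (nat_lit 344117) (nat_lit 21) (.e (nat_lit 516195) (nat_lit 26) (.e (nat_lit 335986) (nat_lit 1) (.e (nat_lit 57847) (nat_lit 252) (.e (nat_lit 57367) (nat_lit 1) (.e (nat_lit 57754) (nat_lit 209) .nil)))))))) (.g (nat_lit 6) .nil .nil))) 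
(.lf (nat_lit 29351) (.g (nat_lit 2829) (.e (nat_lit 1200) (nat_lit 88) (.e (nat_lit 65619) (nat_lit 10) (.e (nat_lit 344117) (nat_lit 21) (.e (nat_lit 524032) (nat_lit 33) (.e (nat_lit 401454) (nat_lit 12) (.e (nat_lit 475155) (nat_lit 21) (.e (nat_lit 4564) (nat_lit 269) .nil))))))) (.g (nat_lit 5) .nil .nil)))) (.nd (nat_lit 5) 
(.lf (nat_lit 29335) (.g (nat_lit 3381) (.e (nat_lit 1200) (nat_lit 88) (.e (nat_lit 65619) (nat_lit 10) (.e (nat_lit 344117) (nat_lit 21) (.e (nat_lit 516195) (nat_lit 26) (.e (nat_lit 335995) (nat_lit 1) (.e (nat_lit 57848) (nat_lit 252) (.e (nat_lit 57367) (nat_lit 1) (.e (nat_lit 57754) (nat_lit 209) .nil)))))))) (.g (nat_lit 6) .nil .nil))) 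
(.lf (nat_lit 29367) (.g (nat_lit 3074) (.e (nat_lit 1200) (nat_lit 88) (.e (nat_lit 65619) (nat_lit 10) (.e (nat_lit 344129) (nat_lit 26) (.e (nat_lit 557084) (nat_lit 10) (.e (nat_lit 8361) (nat_lit 89) .nil))))) .nil)))) (.nd (nat_lit 4) (.nd (nat_lit 5) 
(.lf (nat_lit 29327) (.g (nat_lit 2272) (.e (nat_lit 1200) (nat_lit 88) (.e (nat_lit 65619) (nat_lit 10) (.e (nat_lit 344117) (nat_lit 21) (.e (nat_lit 516195) (nat_lit 26) (.e (nat_lit 335995) (nat_lit 1) (.e (nat_lit 57846) (nat_lit 252) (.e (nat_lit 57365) (nat_lit 1) (.e (nat_lit 57754) (nat_lit 209) .nil)))))))) (.g (nat_lit 4) .nil .nil))) 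
(.lf (nat_lit 29359) (.g (nat_lit 507) (.e (nat_lit 1200) (nat_lit 88) (.e (nat_lit 65619) (nat_lit 10) (.e (nat_lit 344126) (nat_lit 25) .nil))) .nil))) (.nd (nat_lit 5) 
(.lf (nat_lit 29343) (.g (nat_lit 3258) (.e (nat_lit 1200) (nat_lit 88) (.e (nat_lit 65619) (nat_lit 10) (.e (nat_lit 344117) (nat_lit 21) (.e (nat_lit 516195) (nat_lit 26) (.e (nat_lit 335996) (nat_lit 1) (.e (nat_lit 57851) (nat_lit 252) (.e (nat_lit 57354) (nat_lit 0) (.e (nat_lit 1040) (nat_lit 81) (.e (nat_lit 6794) (nat_lit 365) .nil))))))))) (.g (nat_lit 5) .nil .nil))) 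
(.lf (nat_lit 29375) (.g (nat_lit 3159) (.e (nat_lit 1200) (nat_lit 88) (.e (nat_lit 65619) (nat_lit 10) (.e (nat_lit 344129) (nat_lit 26) (.e (nat_lit 557084) (nat_lit 10) (.e (nat_lit 8363) (nat_lit 89) (.e (nat_lit 720956) (nat_lit 25) (.e (nat_lit 114712) (nat_lit 21) (.e (nat_lit 57870) (nat_lit 264) .nil)))))))) (.g (nat_lit 4) .nil .nil)))))))))

noncomputable def tv407 : DT := (.nd (nat_lit 0) (.nd (nat_lit 1) (.nd (nat_lit 2) (.nd (nat_lit 3) (.nd (nat_lit 4) (.nd (nat_lit 5) 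
(.lf (nat_lit 29376) (.g (nat_lit 1039) (.e (nat_lit 1200) (nat_lit 88) (.e (nat_lit 65619) (nat_lit 10) (.e (nat_lit 344129) (nat_lit 26) (.e (nat_lit 557087) (nat_lit 11) .nil)))) .nil)) 
(.lf (nat_lit 29408) (.g (nat_lit 3447) (.e (nat_lit 1200) (nat_lit 88) (.e (nat_lit 65619) (nat_lit 10) (.e (nat_lit 344156) (nat_lit 36) (.e (nat_lit 638998) (nat_lit 8) (.e (nat_lit 172120) (nat_lit 12) (.e (nat_lit 475161) (nat_lit 21) (.e (nat_lit 6264) (nat_lit 337) .nil))))))) (.g (nat_lit 5) .nil .nil)))) (.nd (nat_lit 5) 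
(.lf (nat_lit 29392) (.g (nat_lit 2886) (.e (nat_lit 1200) (nat_lit 88) (.e (nat_lit 65619) (nat_lit 10) (.e (nat_lit 344156) (nat_lit 36) (.e (nat_lit 638998) (nat_lit 8) (.e (nat_lit 172120) (nat_lit 12) (.e (nat_lit 475155) (nat_lit 21) (.e (nat_lit 6304) (nat_lit 337) .nil))))))) (.g (nat_lit 5) .nil .nil))) 
(.lf (nat_lit 29424) (.g (nat_lit 800) (.e (nat_lit 1200) (nat_lit 88) (.e (nat_lit 65619) (nat_lit 10) (.e (nat_lit 344157) (nat_lit 36) (.e (nat_lit 638986) (nat_lit 5) .nil)))) .nil)))) (.nd (nat_lit 4) (.nd (nat_lit 5) 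
(.lf (nat_lit 29384) (.g (nat_lit 2097) (.e (nat_lit 1200) (nat_lit 88) (.e (nat_lit 65619) (nat_lit 10) (.e (nat_lit 344138) (nat_lit 29) (.e (nat_lit 581653) (nat_lit 6) (.e (nat_lit 188444) (nat_lit 21) (.e (nat_lit 164196) (nat_lit 158) .nil)))))) (.g (nat_lit 4) .nil .nil))) 
(.lf (nat_lit 29416) (.g (nat_lit 3285) (.e (nat_lit 1200) (nat_lit 88) (.e (nat_lit 65619) (nat_lit 10) (.e (nat_lit 344156) (nat_lit 36) (.e (nat_lit 638998) (nat_lit 8) (.e (nat_lit 172120) (nat_lit 12) (.e (nat_lit 475162) (nat_lit 21) (.e (nat_lit 6321) (nat_lit 337) .nil))))))) (.g (nat_lit 5) .nil .nil)))) (.nd (nat_lit 5) 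
(.lf (nat_lit 29400) (.g (nat_lit 3461) (.e (nat_lit 1200) (nat_lit 88) (.e (nat_lit 65619) (nat_lit 10) (.e (nat_lit 344156) (nat_lit 36) (.e (nat_lit 638998) (nat_lit 8) (.e (nat_lit 172120) (nat_lit 12) (.e (nat_lit 475155) (nat_lit 21) (.e (nat_lit 6319) (nat_lit 337) .nil))))))) (.g (nat_lit 5) .nil .nil))) 
(.lf (nat_lit 29432) (.g (nat_lit 4299) (.e (nat_lit 1200) (nat_lit 88) (.e (nat_lit 65619) (nat_lit 10) (.e (nat_lit 344160) (nat_lit 37) (.e (nat_lit 647203) (nat_lit 14) (.e (nat_lit 1349) (nat_lit 102) (.e (nat_lit 286749) (nat_lit 9) (.e (nat_lit 335997) (nat_lit 1) (.e (nat_lit 57870) (nat_lit 264) .nil)))))))) (.g (nat_lit 7) .nil .nil)))))) 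
(.nd (nat_lit 3) (.nd (nat_lit 4) (.nd (nat_lit 5) 
(.lf (nat_lit 29380) (.g (nat_lit 2143) (.e (nat_lit 1200) (nat_lit 88) (.e (nat_lit 65619) (nat_lit 10) (.e (nat_lit 344129) (nat_lit 26) (.e (nat_lit 557119) (nat_lit 18) (.e (nat_lit 2798) (nat_lit 180) (.e (nat_lit 303132) (nat_lit 9) (.e (nat_lit 426109) (nat_lit 1) (.e (nat_lit 164196) (nat_lit 158) .nil)))))))) (.g (nat_lit 4) .nil .nil))) 
(.lf (nat_lit 29412) (.g (nat_lit 3284) (.e (nat_lit 1200) (nat_lit 88) (.e (nat_lit 65619) (nat_lit 10) (.e (nat_lit 344156) (nat_lit 36) (.e (nat_lit 638998) (nat_lit 8) (.e (nat_lit 172120) (nat_lit 12) (.e (nat_lit 475161) (nat_lit 21) (.e (nat_lit 6321) (nat_lit 337) .nil))))))) (.g (nat_lit 5) .nil .nil)))) (.nd (nat_lit 5) 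
(.lf (nat_lit 29396) (.g (nat_lit 2124) (.e (nat_lit 1200) (nat_lit 88) (.e (nat_lit 65619) (nat_lit 10) (.e (nat_lit 344156) (nat_lit 36) (.e (nat_lit 638998) (nat_lit 8) (.e (nat_lit 172120) (nat_lit 12) (.e (nat_lit 475155) (nat_lit 21) (.e (nat_lit 6310) (nat_lit 337) .nil))))))) (.g (nat_lit 4) .nil .nil))) 
(.lf (nat_lit 29428) (.g (nat_lit 2047) (.e (nat_lit 1200) (nat_lit 88) (.e (nat_lit 65619) (nat_lit 10) (.e (nat_lit 344160) (nat_lit 37) (.e (nat_lit 647195) (nat_lit 9) (.e (nat_lit 7936) (nat_lit 35) (.e (nat_lit 450568) (nat_lit 0) (.e (nat_lit 5152) (nat_lit 292) .nil))))))) (.g (nat_lit 4) .nil .nil))))) (.nd (nat_lit 4) (.nd (nat_lit 5) 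
(.lf (nat_lit 29388) (.g (nat_lit 1738) (.e (nat_lit 1200) (nat_lit 88) (.e (nat_lit 65619) (nat_lit 10) (.e (nat_lit 344138) (nat_lit 29) (.e (nat_lit 581653) (nat_lit 6) (.e (nat_lit 188455) (nat_lit 24) (.e (nat_lit 229559) (nat_lit 158) .nil)))))) (.g (nat_lit 4) .nil .nil))) 
(.lf (nat_lit 29420) (.g (nat_lit 3532) (.e (nat_lit 1200) (nat_lit 88) (.e (nat_lit 65619) (nat_lit 10) (.e (nat_lit 344156) (nat_lit 36) (.e (nat_lit 638998) (nat_lit 8) (.e (nat_lit 172120) (nat_lit 12) (.e (nat_lit 475163) (nat_lit 21) (.e (nat_lit 6319) (nat_lit 337) .nil))))))) (.g (nat_lit 5) .nil .nil)))) (.nd (nat_lit 5) 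
(.lf (nat_lit 29404) (.g (nat_lit 3447) (.e (nat_lit 1200) (nat_lit 88) (.e (nat_lit 65619) (nat_lit 10) (.e (nat_lit 344156) (nat_lit 36) (.e (nat_lit 638998) (nat_lit 8) (.e (nat_lit 172120) (nat_lit 12) (.e (nat_lit 475160) (nat_lit 21) (.e (nat_lit 6264) (nat_lit 337) .nil))))))) (.g (nat_lit 5) .nil .nil))) 
(.lf (nat_lit 29436) (.g (nat_lit 2053) (.e (nat_lit 1200) (nat_lit 88) (.e (nat_lit 65619) (nat_lit 10) (.e (nat_lit 344160) (nat_lit 37) (.e (nat_lit 647203) (nat_lit 14) (.e (nat_lit 1359) (nat_lit 102) (.e (nat_lit 286749) (nat_lit 9) (.e (nat_lit 335997) (nat_lit 1) (.e (nat_lit 57872) (nat_lit 264) .nil)))))))) (.g (nat_lit 4) .nil .nil))))))) 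
(.nd (nat_lit 2) (.nd (nat_lit 3) (.nd (nat_lit 4) (.nd (nat_lit 5) 
(.lf (nat_lit 29378) (.g (nat_lit 3659) (.e (nat_lit 1200) (nat_lit 88) (.e (nat_lit 65619) (nat_lit 10) (.e (nat_lit 344129) (nat_lit 26) (.e (nat_lit 557087) (nat_lit 11) (.e (nat_lit 24617) (nat_lit 7) (.e (nat_lit 319505) (nat_lit 10) (.e (nat_lit 11) (nat_lit 0) (.e (nat_lit 3877) (nat_lit 233) .nil)))))))) (.g (nat_lit 6) .nil .nil))) 
(.lf (nat_lit 29410) (.g (nat_lit 2869) (.e (nat_lit 1200) (nat_lit 88) (.e (nat_lit 65619) (nat_lit 10) (.e (nat_lit 344156) (nat_lit 36) (.e (nat_lit 638998) (nat_lit 8) (.e (nat_lit 172120) (nat_lit 12) (.e (nat_lit 475161) (nat_lit 21) (.e (nat_lit 6319) (nat_lit 337) .nil))))))) (.g (nat_lit 5) .nil .nil)))) (.nd (nat_lit 5) 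
(.lf (nat_lit 29394) (.g (nat_lit 3815) (.e (nat_lit 1200) (nat_lit 88) (.e (nat_lit 65619) (nat_lit 10) (.e (nat_lit 344156) (nat_lit 36) (.e (nat_lit 638998) (nat_lit 8) (.e (nat_lit 172120) (nat_lit 12) (.e (nat_lit 475155) (nat_lit 21) (.e (nat_lit 6308) (nat_lit 337) .nil))))))) (.g (nat_lit 6) .nil .nil))) 
(.lf (nat_lit 29426) (.g (nat_lit 2136) (.e (nat_lit 1200) (nat_lit 88) (.e (nat_lit 65619) (nat_lit 10) (.e (nat_lit 344160) (nat_lit 37) (.e (nat_lit 647195) (nat_lit 9) (.e (nat_lit 426) (nat_lit 32) (.e (nat_lit 426188) (nat_lit 9) (.e (nat_lit 426426) (nat_lit 16) (.e (nat_lit 57724) (nat_lit 181) .nil)))))))) (.g (nat_lit 4) .nil .nil))))) (.nd (nat_lit 4) (.nd (nat_lit 5) 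
(.lf (nat_lit 29386) (.g (nat_lit 1891) (.e (nat_lit 1200) (nat_lit 88) (.e (nat_lit 65619) (nat_lit 10) (.e (nat_lit 344138) (nat_lit 29) (.e (nat_lit 581653) (nat_lit 6) (.e (nat_lit 188445) (nat_lit 21) (.e (nat_lit 164196) (nat_lit 158) .nil)))))) (.g (nat_lit 4) .nil .nil))) 
(.lf (nat_lit 29418) (.g (nat_lit 3667) (.e (nat_lit 1200) (nat_lit 88) (.e (nat_lit 65619) (nat_lit 10) (.e (nat_lit 344156) (nat_lit 36) (.e (nat_lit 638998) (nat_lit 8) (.e (nat_lit 172120) (nat_lit 12) (.e (nat_lit 475163) (nat_lit 21) (.e (nat_lit 6264) (nat_lit 337) .nil))))))) (.g (nat_lit 6) .nil .nil)))) (.nd (nat_lit 5) 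
(.lf (nat_lit 29402) (.g (nat_lit 3746) (.e (nat_lit 1200) (nat_lit 88) (.e (nat_lit 65619) (nat_lit 10) (.e (nat_lit 344156) (nat_lit 36) (.e (nat_lit 638998) (nat_lit 8) (.e (nat_lit 172120) (nat_lit 12) (.e (nat_lit 475155) (nat_lit 21) (.e (nat_lit 6322) (nat_lit 337) .nil))))))) (.g (nat_lit 6) .nil .nil))) 
(.lf (nat_lit 29434) (.g (nat_lit 4296) (.e (nat_lit 1200) (nat_lit 88) (.e (nat_lit 65619) (nat_lit 10) (.e (nat_lit 344160) (nat_lit 37) (.e (nat_lit 647203) (nat_lit 14) (.e (nat_lit 1349) (nat_lit 102) (.e (nat_lit 286749) (nat_lit 9) (.e (nat_lit 335997) (nat_lit 1) (.e (nat_lit 57872) (nat_lit 264) .nil)))))))) (.g (nat_lit 7) .nil .nil)))))) 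
(.nd (nat_lit 3) (.nd (nat_lit 4) (.nd (nat_lit 5) 
(.lf (nat_lit 29382) (.g (nat_lit 2838) (.e (nat_lit 1200) (nat_lit 88) (.e (nat_lit 65619) (nat_lit 10) (.e (nat_lit 344138) (nat_lit 29) (.e (nat_lit 581651) (nat_lit 4) (.e (nat_lit 172106) (nat_lit 10) (.e (nat_lit 434209) (nat_lit 18) (.e (nat_lit 6792) (nat_lit 365) .nil))))))) (.g (nat_lit 6) .nil .nil))) 
(.lf (nat_lit 29414) (.g (nat_lit 3320) (.e (nat_lit 1200) (nat_lit 88) (.e (nat_lit 65619) (nat_lit 10) (.e (nat_lit 344156) (nat_lit 36) (.e (nat_lit 638998) (nat_lit 8) (.e (nat_lit 172120) (nat_lit 12) (.e (nat_lit 475162) (nat_lit 21) (.e (nat_lit 6308) (nat_lit 337) .nil))))))) (.g (nat_lit 5) .nil .nil)))) (.nd (nat_lit 5) 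
(.lf (nat_lit 29398) (.g (nat_lit 2830) (.e (nat_lit 1200) (nat_lit 88) (.e (nat_lit 65619) (nat_lit 10) (.e (nat_lit 344156) (nat_lit 36) (.e (nat_lit 638998) (nat_lit 8) (.e (nat_lit 172120) (nat_lit 12) (.e (nat_lit 475155) (nat_lit 21) (.e (nat_lit 6316) (nat_lit 337) .nil))))))) (.g (nat_lit 5) .nil .nil))) 
(.lf (nat_lit 29430) (.g (nat_lit 1143) (.e (nat_lit 1200) (nat_lit 88) (.e (nat_lit 65619) (nat_lit 10) (.e (nat_lit 344160) (nat_lit 37) (.e (nat_lit 647203) (nat_lit 14) .nil)))) .nil)))) (.nd (nat_lit 4) (.nd (nat_lit 5) 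
(.lf (nat_lit 29390) (.g (nat_lit 2926) (.e (nat_lit 1200) (nat_lit 88) (.e (nat_lit 65619) (nat_lit 10) (.e (nat_lit 344156) (nat_lit 36) (.e (nat_lit 638998) (nat_lit 8) (.e (nat_lit 172120) (nat_lit 12) (.e (nat_lit 475155) (nat_lit 21) (.e (nat_lit 6300) (nat_lit 337) .nil))))))) (.g (nat_lit 5) .nil .nil))) 
(.lf (nat_lit 29422) (.g (nat_lit 3641) (.e (nat_lit 1200) (nat_lit 88) (.e (nat_lit 65619) (nat_lit 10) (.e (nat_lit 344156) (nat_lit 36) (.e (nat_lit 638998) (nat_lit 8) (.e (nat_lit 172120) (nat_lit 12) (.e (nat_lit 475163) (nat_lit 21) (.e (nat_lit 6322) (nat_lit 337) .nil))))))) (.g (nat_lit 6) .nil .nil)))) (.nd (nat_lit 5) 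
(.lf (nat_lit 29406) (.g (nat_lit 3041) (.e (nat_lit 1200) (nat_lit 88) (.e (nat_lit 65619) (nat_lit 10) (.e (nat_lit 344156) (nat_lit 36) (.e (nat_lit 638998) (nat_lit 8) (.e (nat_lit 172120) (nat_lit 12) (.e (nat_lit 475160) (nat_lit 21) (.e (nat_lit 6319) (nat_lit 337) .nil))))))) (.g (nat_lit 5) .nil .nil))) 
(.lf (nat_lit 29438) (.g (nat_lit 1094) (.e (nat_lit 1200) (nat_lit 88) (.e (nat_lit 65619) (nat_lit 10) (.e (nat_lit 344168) (nat_lit 40) (.e (nat_lit 671744) (nat_lit 0) .nil)))) .nil))))))) (.nd (nat_lit 1) (.nd (nat_lit 2) (.nd (nat_lit 3) (.nd (nat_lit 4) (.nd (nat_lit 5) 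
(.lf (nat_lit 29377) (.g (nat_lit 3135) (.e (nat_lit 1200) (nat_lit 88) (.e (nat_lit 65619) (nat_lit 10) (.e (nat_lit 344129) (nat_lit 26) (.e (nat_lit 557087) (nat_lit 11) (.e (nat_lit 24617) (nat_lit 7) (.e (nat_lit 319504) (nat_lit 10) (.e (nat_lit 11) (nat_lit 0) (.e (nat_lit 3877) (nat_lit 233) .nil)))))))) (.g (nat_lit 5) .nil .nil))) 
(.lf (nat_lit 29409) (.g (nat_lit 3237) (.e (nat_lit 1200) (nat_lit 88) (.e (nat_lit 65619) (nat_lit 10) (.e (nat_lit 344156) (nat_lit 36) (.e (nat_lit 638998) (nat_lit 8) (.e (nat_lit 172120) (nat_lit 12) (.e (nat_lit 475161) (nat_lit 21) (.e (nat_lit 6308) (nat_lit 337) .nil))))))) (.g (nat_lit 5) .nil .nil)))) (.nd (nat_lit 5) 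
(.lf (nat_lit 29393) (.g (nat_lit 2839) (.e (nat_lit 1200) (nat_lit 88) (.e (nat_lit 65619) (nat_lit 10) (.e (nat_lit 344156) (nat_lit 36) (.e (nat_lit 638998) (nat_lit 8) (.e (nat_lit 172120) (nat_lit 12) (.e (nat_lit 475155) (nat_lit 21) (.e (nat_lit 6305) (nat_lit 337) .nil))))))) (.g (nat_lit 5) .nil .nil))) 
(.lf (nat_lit 29425) (.g (nat_lit 2024) (.e (nat_lit 1200) (nat_lit 88) (.e (nat_lit 65619) (nat_lit 10) (.e (nat_lit 344160) (nat_lit 37) (.e (nat_lit 647195) (nat_lit 9) (.e (nat_lit 426) (nat_lit 32) .nil))))) .nil)))) (.nd (nat_lit 4) (.nd (nat_lit 5) 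
(.lf (nat_lit 29385) (.g (nat_lit 2311) (.e (nat_lit 1200) (nat_lit 88) (.e (nat_lit 65619) (nat_lit 10) (.e (nat_lit 344138) (nat_lit 29) (.e (nat_lit 581653) (nat_lit 6) (.e (nat_lit 188445) (nat_lit 21) (.e (nat_lit 164195) (nat_lit 158) .nil)))))) (.g (nat_lit 4) .nil .nil))) 
(.lf (nat_lit 29417) (.g (nat_lit 3186) (.e (nat_lit 1200) (nat_lit 88) (.e (nat_lit 65619) (nat_lit 10) (.e (nat_lit 344156) (nat_lit 36) (.e (nat_lit 638998) (nat_lit 8) (.e (nat_lit 172120) (nat_lit 12) (.e (nat_lit 475162) (nat_lit 21) (.e (nat_lit 6322) (nat_lit 337) .nil))))))) (.g (nat_lit 5) .nil .nil)))) (.nd (nat_lit 5) 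
(.lf (nat_lit 29401) (.g (nat_lit 3806) (.e (nat_lit 1200) (nat_lit 88) (.e (nat_lit 65619) (nat_lit 10) (.e (nat_lit 344156) (nat_lit 36) (.e (nat_lit 638998) (nat_lit 8) (.e (nat_lit 172120) (nat_lit 12) (.e (nat_lit 475155) (nat_lit 21) (.e (nat_lit 6321) (nat_lit 337) .nil))))))) (.g (nat_lit 6) .nil .nil))) 
(.lf (nat_lit 29433) (.g (nat_lit 4116) (.e (nat_lit 1200) (nat_lit 88) (.e (nat_lit 65619) (nat_lit 10) (.e (nat_lit 344160) (nat_lit 37) (.e (nat_lit 647203) (nat_lit 14) (.e (nat_lit 1349) (nat_lit 102) (.e (nat_lit 286749) (nat_lit 9) (.e (nat_lit 335997) (nat_lit 1) (.e (nat_lit 57871) (nat_lit 264) .nil)))))))) (.g (nat_lit 7) .nil .nil)))))) 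
(.nd (nat_lit 3) (.nd (nat_lit 4) (.nd (nat_lit 5) 
(.lf (nat_lit 29381) (.g (nat_lit 804) (.e (nat_lit 1200) (nat_lit 88) (.e (nat_lit 65619) (nat_lit 10) (.e (nat_lit 344138) (nat_lit 29) (.e (nat_lit 581651) (nat_lit 4) .nil)))) .nil)) 
(.lf (nat_lit 29413) (.g (nat_lit 3564) (.e (nat_lit 1200) (nat_lit 88) (.e (nat_lit 65619) (nat_lit 10) (.e (nat_lit 344156) (nat_lit 36) (.e (nat_lit 638998) (nat_lit 8) (.e (nat_lit 172120) (nat_lit 12) (.e (nat_lit 475162) (nat_lit 21) (.e (nat_lit 6264) (nat_lit 337) .nil))))))) (.g (nat_lit 6) .nil .nil)))) (.nd (nat_lit 5) 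
(.lf (nat_lit 29397) (.g (nat_lit 3027) (.e (nat_lit 1200) (nat_lit 88) (.e (nat_lit 65619) (nat_lit 10) (.e (nat_lit 344156) (nat_lit 36) (.e (nat_lit 638998) (nat_lit 8) (.e (nat_lit 172120) (nat_lit 12) (.e (nat_lit 475155) (nat_lit 21) (.e (nat_lit 6311) (nat_lit 337) .nil))))))) (.g (nat_lit 5) .nil .nil))) 
(.lf (nat_lit 29429) (.g (nat_lit 1856) (.e (nat_lit 1200) (nat_lit 88) (.e (nat_lit 65619) (nat_lit 10) (.e (nat_lit 344160) (nat_lit 37) (.e (nat_lit 647195) (nat_lit 9) (.e (nat_lit 7936) (nat_lit 35) (.e (nat_lit 450569) (nat_lit 0) (.e (nat_lit 5152) (nat_lit 292) .nil))))))) (.g (nat_lit 4) .nil .nil))))) (.nd (nat_lit 4) (.nd (nat_lit 5) 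
(.lf (nat_lit 29389) (.g (nat_lit 3840) (.e (nat_lit 1200) (nat_lit 88) (.e (nat_lit 65619) (nat_lit 10) (.e (nat_lit 344156) (nat_lit 36) (.e (nat_lit 638998) (nat_lit 8) (.e (nat_lit 172120) (nat_lit 12) (.e (nat_lit 475155) (nat_lit 21) (.e (nat_lit 6264) (nat_lit 337) .nil))))))) (.g (nat_lit 6) .nil .nil))) 
(.lf (nat_lit 29421) (.g (nat_lit 3663) (.e (nat_lit 1200) (nat_lit 88) (.e (nat_lit 65619) (nat_lit 10) (.e (nat_lit 344156) (nat_lit 36) (.e (nat_lit 638998) (nat_lit 8) (.e (nat_lit 172120) (nat_lit 12) (.e (nat_lit 475163) (nat_lit 21) (.e (nat_lit 6321) (nat_lit 337) .nil))))))) (.g (nat_lit 6) .nil .nil)))) (.nd (nat_lit 5) 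
(.lf (nat_lit 29405) (.g (nat_lit 3258) (.e (nat_lit 1200) (nat_lit 88) (.e (nat_lit 65619) (nat_lit 10) (.e (nat_lit 344156) (nat_lit 36) (.e (nat_lit 638998) (nat_lit 8) (.e (nat_lit 172120) (nat_lit 12) (.e (nat_lit 475160) (nat_lit 21) (.e (nat_lit 6308) (nat_lit 337) .nil))))))) (.g (nat_lit 5) .nil .nil))) 
(.lf (nat_lit 29437) (.g (nat_lit 406) (.e (nat_lit 1200) (nat_lit 88) (.e (nat_lit 65619) (nat_lit 10) (.e (nat_lit 344168) (nat_lit 40) .nil))) .nil)))))) (.nd (nat_lit 2) (.nd (nat_lit 3) (.nd (nat_lit 4) (.nd (nat_lit 5) 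
(.lf (nat_lit 29379) (.g (nat_lit 1344) (.e (nat_lit 1200) (nat_lit 88) (.e (nat_lit 65619) (nat_lit 10) (.e (nat_lit 344129) (nat_lit 26) (.e (nat_lit 557119) (nat_lit 18) .nil)))) .nil)) 
(.lf (nat_lit 29411) (.g (nat_lit 3816) (.e (nat_lit 1200) (nat_lit 88) (.e (nat_lit 65619) (nat_lit 10) (.e (nat_lit 344156) (nat_lit 36) (.e (nat_lit 638998) (nat_lit 8) (.e (nat_lit 172120) (nat_lit 12) (.e (nat_lit 475161) (nat_lit 21) (.e (nat_lit 6320) (nat_lit 337) .nil))))))) (.g (nat_lit 6) .nil .nil)))) (.nd (nat_lit 5) 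
(.lf (nat_lit 29395) (.g (nat_lit 2833) (.e (nat_lit 1200) (nat_lit 88) (.e (nat_lit 65619) (nat_lit 10) (.e (nat_lit 344156) (nat_lit 36) (.e (nat_lit 638998) (nat_lit 8) (.e (nat_lit 172120) (nat_lit 12) (.e (nat_lit 475155) (nat_lit 21) (.e (nat_lit 6309) (nat_lit 337) .nil))))))) (.g (nat_lit 5) .nil .nil))) 
(.lf (nat_lit 29427) (.g (nat_lit 1495) (.e (nat_lit 1200) (nat_lit 88) (.e (nat_lit 65619) (nat_lit 10) (.e (nat_lit 344160) (nat_lit 37) (.e (nat_lit 647195) (nat_lit 9) (.e (nat_lit 7936) (nat_lit 35) .nil))))) .nil)))) (.nd (nat_lit 4) (.nd (nat_lit 5) 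
(.lf (nat_lit 29387) (.g (nat_lit 1655) (.e (nat_lit 1200) (nat_lit 88) (.e (nat_lit 65619) (nat_lit 10) (.e (nat_lit 344138) (nat_lit 29) (.e (nat_lit 581653) (nat_lit 6) (.e (nat_lit 188446) (nat_lit 21) (.e (nat_lit 164195) (nat_lit 158) .nil)))))) (.g (nat_lit 4) .nil .nil))) 
(.lf (nat_lit 29419) (.g (nat_lit 3631) (.e (nat_lit 1200) (nat_lit 88) (.e (nat_lit 65619) (nat_lit 10) (.e (nat_lit 344156) (nat_lit 36) (.e (nat_lit 638998) (nat_lit 8) (.e (nat_lit 172120) (nat_lit 12) (.e (nat_lit 475163) (nat_lit 21) (.e (nat_lit 6308) (nat_lit 337) .nil))))))) (.g (nat_lit 6) .nil .nil)))) (.nd (nat_lit 5) 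
(.lf (nat_lit 29403) (.g (nat_lit 2924) (.e (nat_lit 1200) (nat_lit 88) (.e (nat_lit 65619) (nat_lit 10) (.e (nat_lit 344156) (nat_lit 36) (.e (nat_lit 638998) (nat_lit 8) (.e (nat_lit 172120) (nat_lit 12) (.e (nat_lit 475155) (nat_lit 21) (.e (nat_lit 6323) (nat_lit 337) .nil))))))) (.g (nat_lit 5) .nil .nil))) 
(.lf (nat_lit 29435) (.g (nat_lit 2056) (.e (nat_lit 1200) (nat_lit 88) (.e (nat_lit 65619) (nat_lit 10) (.e (nat_lit 344160) (nat_lit 37) (.e (nat_lit 647203) (nat_lit 14) (.e (nat_lit 1359) (nat_lit 102) (.e (nat_lit 286749) (nat_lit 9) (.e (nat_lit 335997) (nat_lit 1) (.e (nat_lit 57870) (nat_lit 264) .nil)))))))) (.g (nat_lit 4) .nil .nil)))))) 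
(.nd (nat_lit 3) (.nd (nat_lit 4) (.nd (nat_lit 5) 
(.lf (nat_lit 29383) (.g (nat_lit 1670) (.e (nat_lit 1200) (nat_lit 88) (.e (nat_lit 65619) (nat_lit 10) (.e (nat_lit 344138) (nat_lit 29) (.e (nat_lit 581653) (nat_lit 6) (.e (nat_lit 188444) (nat_lit 21) (.e (nat_lit 164195) (nat_lit 158) .nil)))))) (.g (nat_lit 4) .nil .nil))) 
(.lf (nat_lit 29415) (.g (nat_lit 3013) (.e (nat_lit 1200) (nat_lit 88) (.e (nat_lit 65619) (nat_lit 10) (.e (nat_lit 344156) (nat_lit 36) (.e (nat_lit 638998) (nat_lit 8) (.e (nat_lit 172120) (nat_lit 12) (.e (nat_lit 475162) (nat_lit 21) (.e (nat_lit 6319) (nat_lit 337) .nil))))))) (.g (nat_lit 5) .nil .nil)))) (.nd (nat_lit 5) 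
(.lf (nat_lit 29399) (.g (nat_lit 3184) (.e (nat_lit 1200) (nat_lit 88) (.e (nat_lit 65619) (nat_lit 10) (.e (nat_lit 344156) (nat_lit 36) (.e (nat_lit 638998) (nat_lit 8) (.e (nat_lit 172120) (nat_lit 12) (.e (nat_lit 475155) (nat_lit 21) (.e (nat_lit 6318) (nat_lit 337) .nil))))))) (.g (nat_lit 5) .nil .nil))) 
(.lf (nat_lit 29431) (.g (nat_lit 1516) (.e (nat_lit 1200) (nat_lit 88) (.e (nat_lit 65619) (nat_lit 10) (.e (nat_lit 344160) (nat_lit 37) (.e (nat_lit 647203) (nat_lit 14) (.e (nat_lit 1349) (nat_lit 102) .nil))))) .nil)))) (.nd (nat_lit 4) (.nd (nat_lit 5) 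
(.lf (nat_lit 29391) (.g (nat_lit 2889) (.e (nat_lit 1200) (nat_lit 88) (.e (nat_lit 65619) (nat_lit 10) (.e (nat_lit 344156) (nat_lit 36) (.e (nat_lit 638998) (nat_lit 8) (.e (nat_lit 172120) (nat_lit 12) (.e (nat_lit 475155) (nat_lit 21) (.e (nat_lit 6302) (nat_lit 337) .nil))))))) (.g (nat_lit 5) .nil .nil))) 
(.lf (nat_lit 29423) (.g (nat_lit 879) (.e (nat_lit 1200) (nat_lit 88) (.e (nat_lit 65619) (nat_lit 10) (.e (nat_lit 344157) (nat_lit 36) (.e (nat_lit 638985) (nat_lit 5) .nil)))) .nil))) (.nd (nat_lit 5) 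
(.lf (nat_lit 29407) (.g (nat_lit 3144) (.e (nat_lit 1200) (nat_lit 88) (.e (nat_lit 65619) (nat_lit 10) (.e (nat_lit 344156) (nat_lit 36) (.e (nat_lit 638998) (nat_lit 8) (.e (nat_lit 172120) (nat_lit 12) (.e (nat_lit 475160) (nat_lit 21) (.e (nat_lit 6321) (nat_lit 337) .nil))))))) (.g (nat_lit 5) .nil .nil))) 
(.lf (nat_lit 29439) (.g (nat_lit 1721) (.e (nat_lit 1200) (nat_lit 88) (.e (nat_lit 65619) (nat_lit 10) (.e (nat_lit 344168) (nat_lit 40) (.e (nat_lit 671744) (nat_lit 0) (.e (nat_lit 1615) (nat_lit 113) (.e (nat_lit 376859) (nat_lit 21) (.e (nat_lit 57873) (nat_lit 264) .nil))))))) (.g (nat_lit 4) .nil .nil)))))))))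

noncomputable def tv408 : DT := (.nd (nat_lit 0) (.nd (nat_lit 1) (.nd (nat_lit 2) (.nd (nat_lit 3) (.nd (nat_lit 4) (.nd (nat_lit 5) 
(.lf (nat_lit 29440) (.g (nat_lit 1691) (.e (nat_lit 1200) (nat_lit 88) (.e (nat_lit 65619) (nat_lit 10) (.e (nat_lit 344168) (nat_lit 40) (.e (nat_lit 671744) (nat_lit 0) (.e (nat_lit 1615) (nat_lit 113) (.e (nat_lit 376860) (nat_lit 21) (.e (nat_lit 57870) (nat_lit 264) .nil))))))) (.g (nat_lit 4) .nil .nil))) 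
(.lf (nat_lit 29472) (.g (nat_lit 3732) (.e (nat_lit 1200) (nat_lit 88) (.e (nat_lit 65619) (nat_lit 10) (.e (nat_lit 344168) (nat_lit 40) (.e (nat_lit 671762) (nat_lit 4) (.e (nat_lit 65604) (nat_lit 9) (.e (nat_lit 335997) (nat_lit 1) (.e (nat_lit 57871) (nat_lit 264) .nil))))))) (.g (nat_lit 7) .nil .nil)))) (.nd (nat_lit 5) 
(.lf (nat_lit 29456) (.g (nat_lit 1941) (.e (nat_lit 1200) (nat_lit 88) (.e (nat_lit 65619) (nat_lit 10) (.e (nat_lit 344168) (nat_lit 40) (.e (nat_lit 671747) (nat_lit 0) (.e (nat_lit 1598) (nat_lit 111) (.e (nat_lit 368384) (nat_lit 0) (.e (nat_lit 5902) (nat_lit 320) .nil))))))) (.g (nat_lit 4) .nil .nil))) 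
(.lf (nat_lit 29488) (.g (nat_lit 2758) (.e (nat_lit 1200) (nat_lit 88) (.e (nat_lit 65619) (nat_lit 10) (.e (nat_lit 344169) (nat_lit 40) (.e (nat_lit 671747) (nat_lit 0) (.e (nat_lit 1586) (nat_lit 111) (.e (nat_lit 368384) (nat_lit 0) (.e (nat_lit 5902) (nat_lit 320) .nil))))))) (.g (nat_lit 5) .nil .nil))))) (.nd (nat_lit 4) (.nd (nat_lit 5) 
(.lf (nat_lit 29448) (.g (nat_lit 2041) (.e (nat_lit 1200) (nat_lit 88) (.e (nat_lit 65619) (nat_lit 10) (.e (nat_lit 344168) (nat_lit 40) (.e (nat_lit 671747) (nat_lit 0) (.e (nat_lit 1592) (nat_lit 111) (.e (nat_lit 368384) (nat_lit 0) (.e (nat_lit 5902) (nat_lit 320) .nil))))))) (.g (nat_lit 4) .nil .nil))) 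
(.lf (nat_lit 29480) (.g (nat_lit 2224) (.e (nat_lit 1200) (nat_lit 88) (.e (nat_lit 65619) (nat_lit 10) (.e (nat_lit 344168) (nat_lit 40) (.e (nat_lit 671764) (nat_lit 6) (.e (nat_lit 81949) (nat_lit 21) (.e (nat_lit 57872) (nat_lit 264) .nil)))))) (.g (nat_lit 5) .nil .nil)))) (.nd (nat_lit 5) 
(.lf (nat_lit 29464) (.g (nat_lit 2037) (.e (nat_lit 1200) (nat_lit 88) (.e (nat_lit 65619) (nat_lit 10) (.e (nat_lit 344168) (nat_lit 40) (.e (nat_lit 671751) (nat_lit 0) (.e (nat_lit 1524) (nat_lit 108) (.e (nat_lit 336186) (nat_lit 11) (.e (nat_lit 368662) (nat_lit 18) (.e (nat_lit 5905) (nat_lit 320) .nil)))))))) (.g (nat_lit 4) .nil .nil))) 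
(.lf (nat_lit 29496) (.g (nat_lit 2525) (.e (nat_lit 1200) (nat_lit 88) (.e (nat_lit 65619) (nat_lit 10) (.e (nat_lit 344169) (nat_lit 40) (.e (nat_lit 671747) (nat_lit 0) (.e (nat_lit 1595) (nat_lit 111) (.e (nat_lit 368384) (nat_lit 0) (.e (nat_lit 5905) (nat_lit 320) .nil))))))) (.g (nat_lit 5) .nil .nil)))))) (.nd (nat_lit 3) (.nd (nat_lit 4) (.nd (nat_lit 5) 
(.lf (nat_lit 29444) (.g (nat_lit 2752) (.e (nat_lit 1200) (nat_lit 88) (.e (nat_lit 65619) (nat_lit 10) (.e (nat_lit 344168) (nat_lit 40) (.e (nat_lit 671747) (nat_lit 0) (.e (nat_lit 1586) (nat_lit 111) (.e (nat_lit 368384) (nat_lit 0) (.e (nat_lit 5902) (nat_lit 320) .nil))))))) (.g (nat_lit 5) .nil .nil))) 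
(.lf (nat_lit 29476) (.g (nat_lit 3902) (.e (nat_lit 1200) (nat_lit 88) (.e (nat_lit 65619) (nat_lit 10) (.e (nat_lit 344168) (nat_lit 40) (.e (nat_lit 671762) (nat_lit 4) (.e (nat_lit 65619) (nat_lit 10) (.e (nat_lit 344097) (nat_lit 18) (.e (nat_lit 5905) (nat_lit 320) .nil))))))) (.g (nat_lit 7) .nil .nil)))) (.nd (nat_lit 5) 
(.lf (nat_lit 29460) (.g (nat_lit 1857) (.e (nat_lit 1200) (nat_lit 88) (.e (nat_lit 65619) (nat_lit 10) (.e (nat_lit 344168) (nat_lit 40) (.e (nat_lit 671748) (nat_lit 0) (.e (nat_lit 1595) (nat_lit 111) (.e (nat_lit 360453) (nat_lit 0) (.e (nat_lit 5907) (nat_lit 320) .nil))))))) (.g (nat_lit 4) .nil .nil))) 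
(.lf (nat_lit 29492) (.g (nat_lit 2558) (.e (nat_lit 1200) (nat_lit 88) (.e (nat_lit 65619) (nat_lit 10) (.e (nat_lit 344169) (nat_lit 40) (.e (nat_lit 671747) (nat_lit 0) (.e (nat_lit 1589) (nat_lit 111) (.e (nat_lit 360453) (nat_lit 0) (.e (nat_lit 5907) (nat_lit 320) .nil))))))) (.g (nat_lit 5) .nil .nil))))) (.nd (nat_lit 4) (.nd (nat_lit 5) 
(.lf (nat_lit 29452) (.g (nat_lit 2098) (.e (nat_lit 1200) (nat_lit 88) (.e (nat_lit 65619) (nat_lit 10) (.e (nat_lit 344168) (nat_lit 40) (.e (nat_lit 671747) (nat_lit 0) (.e (nat_lit 1595) (nat_lit 111) (.e (nat_lit 368384) (nat_lit 0) (.e (nat_lit 5906) (nat_lit 320) .nil))))))) (.g (nat_lit 5) .nil .nil))) 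
(.lf (nat_lit 29484) (.g (nat_lit 1121) (.e (nat_lit 1200) (nat_lit 88) (.e (nat_lit 65619) (nat_lit 10) (.e (nat_lit 344169) (nat_lit 40) (.e (nat_lit 671746) (nat_lit 0) .nil)))) .nil))) (.nd (nat_lit 5) 
(.lf (nat_lit 29468) (.g (nat_lit 1986) (.e (nat_lit 1200) (nat_lit 88) (.e (nat_lit 65619) (nat_lit 10) (.e (nat_lit 344168) (nat_lit 40) (.e (nat_lit 671761) (nat_lit 4) (.e (nat_lit 65619) (nat_lit 10) (.e (nat_lit 344097) (nat_lit 18) (.e (nat_lit 5906) (nat_lit 320) .nil))))))) (.g (nat_lit 4) .nil .nil))) 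
(.lf (nat_lit 29500) (.g (nat_lit 1875) (.e (nat_lit 1200) (nat_lit 88) (.e (nat_lit 65619) (nat_lit 10) (.e (nat_lit 344169) (nat_lit 40) (.e (nat_lit 671747) (nat_lit 0) (.e (nat_lit 1598) (nat_lit 111) (.e (nat_lit 368384) (nat_lit 0) (.e (nat_lit 5902) (nat_lit 320) .nil))))))) (.g (nat_lit 4) .nil .nil))))))) (.nd (nat_lit 2) (.nd (nat_lit 3) (.nd (nat_lit 4) (.nd (nat_lit 5) 
(.lf (nat_lit 29442) (.g (nat_lit 2089) (.e (nat_lit 1200) (nat_lit 88) (.e (nat_lit 65619) (nat_lit 10) (.e (nat_lit 344168) (nat_lit 40) (.e (nat_lit 671746) (nat_lit 0) (.e (nat_lit 1586) (nat_lit 111) (.e (nat_lit 368384) (nat_lit 0) (.e (nat_lit 5902) (nat_lit 320) .nil))))))) (.g (nat_lit 5) .nil .nil))) 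
(.lf (nat_lit 29474) (.g (nat_lit 2101) (.e (nat_lit 1200) (nat_lit 88) (.e (nat_lit 65619) (nat_lit 10) (.e (nat_lit 344168) (nat_lit 40) (.e (nat_lit 671762) (nat_lit 4) (.e (nat_lit 65617) (nat_lit 10) (.e (nat_lit 344091) (nat_lit 18) (.e (nat_lit 5896) (nat_lit 320) .nil))))))) (.g (nat_lit 4) .nil .nil)))) (.nd (nat_lit 5) 
(.lf (nat_lit 29458) (.g (nat_lit 1067) (.e (nat_lit 1200) (nat_lit 88) (.e (nat_lit 65619) (nat_lit 10) (.e (nat_lit 344168) (nat_lit 40) (.e (nat_lit 671748) (nat_lit 0) .nil)))) .nil)) 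
(.lf (nat_lit 29490) (.g (nat_lit 2400) (.e (nat_lit 1200) (nat_lit 88) (.e (nat_lit 65619) (nat_lit 10) (.e (nat_lit 344169) (nat_lit 40) (.e (nat_lit 671747) (nat_lit 0) (.e (nat_lit 1586) (nat_lit 111) (.e (nat_lit 368384) (nat_lit 0) (.e (nat_lit 5906) (nat_lit 320) .nil))))))) (.g (nat_lit 5) .nil .nil))))) (.nd (nat_lit 4) (.nd (nat_lit 5) 
(.lf (nat_lit 29450) (.g (nat_lit 2561) (.e (nat_lit 1200) (nat_lit 88) (.e (nat_lit 65619) (nat_lit 10) (.e (nat_lit 344168) (nat_lit 40) (.e (nat_lit 671747) (nat_lit 0) (.e (nat_lit 1595) (nat_lit 111) (.e (nat_lit 368384) (nat_lit 0) (.e (nat_lit 5902) (nat_lit 320) .nil))))))) (.g (nat_lit 5) .nil .nil))) 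
(.lf (nat_lit 29482) (.g (nat_lit 396) (.e (nat_lit 1200) (nat_lit 88) (.e (nat_lit 65619) (nat_lit 10) (.e (nat_lit 344169) (nat_lit 40) .nil))) .nil))) (.nd (nat_lit 5) 
(.lf (nat_lit 29466) (.g (nat_lit 1008) (.e (nat_lit 1200) (nat_lit 88) (.e (nat_lit 65619) (nat_lit 10) (.e (nat_lit 344168) (nat_lit 40) (.e (nat_lit 671760) (nat_lit 4) .nil)))) .nil)) 
(.lf (nat_lit 29498) (.g (nat_lit 2071) (.e (nat_lit 1200) (nat_lit 88) (.e (nat_lit 65619) (nat_lit 10) (.e (nat_lit 344169) (nat_lit 40) (.e (nat_lit 671747) (nat_lit 0) (.e (nat_lit 1598) (nat_lit 111) (.e (nat_lit 360452) (nat_lit 0) (.e (nat_lit 5906) (nat_lit 320) .nil))))))) (.g (nat_lit 5) .nil .nil)))))) (.nd (nat_lit 3) (.nd (nat_lit 4) (.nd (nat_lit 5) 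
(.lf (nat_lit 29446) (.g (nat_lit 2403) (.e (nat_lit 1200) (nat_lit 88) (.e (nat_lit 65619) (nat_lit 10) (.e (nat_lit 344168) (nat_lit 40) (.e (nat_lit 671747) (nat_lit 0) (.e (nat_lit 1586) (nat_lit 111) (.e (nat_lit 368384) (nat_lit 0) (.e (nat_lit 5906) (nat_lit 320) .nil))))))) (.g (nat_lit 5) .nil .nil))) 
(.lf (nat_lit 29478) (.g (nat_lit 2662) (.e (nat_lit 1200) (nat_lit 88) (.e (nat_lit 65619) (nat_lit 10) (.e (nat_lit 344168) (nat_lit 40) (.e (nat_lit 671764) (nat_lit 6) (.e (nat_lit 81948) (nat_lit 21) (.e (nat_lit 57871) (nat_lit 264) .nil)))))) (.g (nat_lit 6) .nil .nil)))) (.nd (nat_lit 5) 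
(.lf (nat_lit 29462) (.g (nat_lit 1991) (.e (nat_lit 1200) (nat_lit 88) (.e (nat_lit 65619) (nat_lit 10) (.e (nat_lit 344168) (nat_lit 40) (.e (nat_lit 671748) (nat_lit 0) (.e (nat_lit 1598) (nat_lit 111) (.e (nat_lit 360452) (nat_lit 0) (.e (nat_lit 5907) (nat_lit 320) .nil))))))) (.g (nat_lit 4) .nil .nil))) 
(.lf (nat_lit 29494) (.g (nat_lit 3694) (.e (nat_lit 1200) (nat_lit 88) (.e (nat_lit 65619) (nat_lit 10) (.e (nat_lit 344169) (nat_lit 40) (.e (nat_lit 671747) (nat_lit 0) (.e (nat_lit 1595) (nat_lit 111) (.e (nat_lit 360453) (nat_lit 0) (.e (nat_lit 5907) (nat_lit 320) .nil))))))) (.g (nat_lit 7) .nil .nil))))) (.nd (nat_lit 4) (.nd (nat_lit 5) 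
(.lf (nat_lit 29454) (.g (nat_lit 2143) (.e (nat_lit 1200) (nat_lit 88) (.e (nat_lit 65619) (nat_lit 10) (.e (nat_lit 344168) (nat_lit 40) (.e (nat_lit 671747) (nat_lit 0) (.e (nat_lit 1598) (nat_lit 111) (.e (nat_lit 360452) (nat_lit 0) (.e (nat_lit 5906) (nat_lit 320) .nil))))))) (.g (nat_lit 5) .nil .nil))) 
(.lf (nat_lit 29486) (.g (nat_lit 1732) (.e (nat_lit 1200) (nat_lit 88) (.e (nat_lit 65619) (nat_lit 10) (.e (nat_lit 344169) (nat_lit 40) (.e (nat_lit 671746) (nat_lit 0) (.e (nat_lit 1598) (nat_lit 111) (.e (nat_lit 360452) (nat_lit 0) (.e (nat_lit 5906) (nat_lit 320) .nil))))))) (.g (nat_lit 4) .nil .nil)))) (.nd (nat_lit 5) 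
(.lf (nat_lit 29470) (.g (nat_lit 3860) (.e (nat_lit 1200) (nat_lit 88) (.e (nat_lit 65619) (nat_lit 10) (.e (nat_lit 344168) (nat_lit 40) (.e (nat_lit 671762) (nat_lit 4) (.e (nat_lit 65598) (nat_lit 9) (.e (nat_lit 335997) (nat_lit 1) (.e (nat_lit 57871) (nat_lit 264) .nil))))))) (.g (nat_lit 7) .nil .nil))) 
(.lf (nat_lit 29502) (.g (nat_lit 1855) (.e (nat_lit 1200) (nat_lit 88) (.e (nat_lit 65619) (nat_lit 10) (.e (nat_lit 344169) (nat_lit 40) (.e (nat_lit 671747) (nat_lit 0) (.e (nat_lit 1599) (nat_lit 111) (.e (nat_lit 368384) (nat_lit 0) (.e (nat_lit 5902) (nat_lit 320) .nil))))))) (.g (nat_lit 4) .nil .nil)))))))) 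
(.nd (nat_lit 1) (.nd (nat_lit 2) (.nd (nat_lit 3) (.nd (nat_lit 4) (.nd (nat_lit 5) 
(.lf (nat_lit 29441) (.g (nat_lit 1073) (.e (nat_lit 1200) (nat_lit 88) (.e (nat_lit 65619) (nat_lit 10) (.e (nat_lit 344168) (nat_lit 40) (.e (nat_lit 671746) (nat_lit 0) .nil)))) .nil)) 
(.lf (nat_lit 29473) (.g (nat_lit 4010) (.e (nat_lit 1200) (nat_lit 88) (.e (nat_lit 65619) (nat_lit 10) (.e (nat_lit 344168) (nat_lit 40) (.e (nat_lit 671762) (nat_lit 4) (.e (nat_lit 65610) (nat_lit 10) (.e (nat_lit 344097) (nat_lit 18) (.e (nat_lit 5905) (nat_lit 320) .nil))))))) (.g (nat_lit 7) .nil .nil)))) (.nd (nat_lit 5) 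
(.lf (nat_lit 29457) (.g (nat_lit 1990) (.e (nat_lit 1200) (nat_lit 88) (.e (nat_lit 65619) (nat_lit 10) (.e (nat_lit 344168) (nat_lit 40) (.e (nat_lit 671747) (nat_lit 0) (.e (nat_lit 1598) (nat_lit 111) (.e (nat_lit 368384) (nat_lit 0) (.e (nat_lit 5905) (nat_lit 320) .nil))))))) (.g (nat_lit 4) .nil .nil))) 
(.lf (nat_lit 29489) (.g (nat_lit 2767) (.e (nat_lit 1200) (nat_lit 88) (.e (nat_lit 65619) (nat_lit 10) (.e (nat_lit 344169) (nat_lit 40) (.e (nat_lit 671747) (nat_lit 0) (.e (nat_lit 1586) (nat_lit 111) (.e (nat_lit 368384) (nat_lit 0) (.e (nat_lit 5905) (nat_lit 320) .nil))))))) (.g (nat_lit 5) .nil .nil))))) (.nd (nat_lit 4) (.nd (nat_lit 5) 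
(.lf (nat_lit 29449) (.g (nat_lit 3794) (.e (nat_lit 1200) (nat_lit 88) (.e (nat_lit 65619) (nat_lit 10) (.e (nat_lit 344168) (nat_lit 40) (.e (nat_lit 671747) (nat_lit 0) (.e (nat_lit 1595) (nat_lit 111) (.e (nat_lit 360453) (nat_lit 0) (.e (nat_lit 5907) (nat_lit 320) .nil))))))) (.g (nat_lit 0) .nil .nil))) 
(.lf (nat_lit 29481) (.g (nat_lit 2795) (.e (nat_lit 1200) (nat_lit 88) (.e (nat_lit 65619) (nat_lit 10) (.e (nat_lit 344168) (nat_lit 40) (.e (nat_lit 671764) (nat_lit 6) (.e (nat_lit 81950) (nat_lit 21) (.e (nat_lit 57871) (nat_lit 264) .nil)))))) (.g (nat_lit 6) .nil .nil)))) (.nd (nat_lit 5) 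
(.lf (nat_lit 29465) (.g (nat_lit 1998) (.e (nat_lit 1200) (nat_lit 88) (.e (nat_lit 65619) (nat_lit 10) (.e (nat_lit 344168) (nat_lit 40) (.e (nat_lit 671751) (nat_lit 0) (.e (nat_lit 1553) (nat_lit 110) (.e (nat_lit 352309) (nat_lit 21) (.e (nat_lit 57872) (nat_lit 264) .nil))))))) (.g (nat_lit 4) .nil .nil))) 
(.lf (nat_lit 29497) (.g (nat_lit 3043) (.e (nat_lit 1200) (nat_lit 88) (.e (nat_lit 65619) (nat_lit 10) (.e (nat_lit 344169) (nat_lit 40) (.e (nat_lit 671747) (nat_lit 0) (.e (nat_lit 1598) (nat_lit 111) (.e (nat_lit 360452) (nat_lit 0) (.e (nat_lit 5905) (nat_lit 320) .nil))))))) (.g (nat_lit 6) .nil .nil)))))) (.nd (nat_lit 3) (.nd (nat_lit 4) (.nd (nat_lit 5) 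
(.lf (nat_lit 29445) (.g (nat_lit 2761) (.e (nat_lit 1200) (nat_lit 88) (.e (nat_lit 65619) (nat_lit 10) (.e (nat_lit 344168) (nat_lit 40) (.e (nat_lit 671747) (nat_lit 0) (.e (nat_lit 1586) (nat_lit 111) (.e (nat_lit 368384) (nat_lit 0) (.e (nat_lit 5905) (nat_lit 320) .nil))))))) (.g (nat_lit 5) .nil .nil))) 
(.lf (nat_lit 29477) (.g (nat_lit 2044) (.e (nat_lit 1200) (nat_lit 88) (.e (nat_lit 65619) (nat_lit 10) (.e (nat_lit 344168) (nat_lit 40) (.e (nat_lit 671762) (nat_lit 4) (.e (nat_lit 65620) (nat_lit 10) (.e (nat_lit 344097) (nat_lit 18) (.e (nat_lit 5906) (nat_lit 320) .nil))))))) (.g (nat_lit 4) .nil .nil)))) (.nd (nat_lit 5) 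
(.lf (nat_lit 29461) (.g (nat_lit 1848) (.e (nat_lit 1200) (nat_lit 88) (.e (nat_lit 65619) (nat_lit 10) (.e (nat_lit 344168) (nat_lit 40) (.e (nat_lit 671748) (nat_lit 0) (.e (nat_lit 1598) (nat_lit 111) (.e (nat_lit 360452) (nat_lit 0) (.e (nat_lit 5905) (nat_lit 320) .nil))))))) (.g (nat_lit 4) .nil .nil))) 
(.lf (nat_lit 29493) (.g (nat_lit 1958) (.e (nat_lit 1200) (nat_lit 88) (.e (nat_lit 65619) (nat_lit 10) (.e (nat_lit 344169) (nat_lit 40) (.e (nat_lit 671747) (nat_lit 0) (.e (nat_lit 1592) (nat_lit 111) (.e (nat_lit 368384) (nat_lit 0) (.e (nat_lit 5902) (nat_lit 320) .nil))))))) (.g (nat_lit 4) .nil .nil))))) (.nd (nat_lit 4) (.nd (nat_lit 5) 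
(.lf (nat_lit 29453) (.g (nat_lit 3106) (.e (nat_lit 1200) (nat_lit 88) (.e (nat_lit 65619) (nat_lit 10) (.e (nat_lit 344168) (nat_lit 40) (.e (nat_lit 671747) (nat_lit 0) (.e (nat_lit 1598) (nat_lit 111) (.e (nat_lit 360452) (nat_lit 0) (.e (nat_lit 5905) (nat_lit 320) .nil))))))) (.g (nat_lit 6) .nil .nil))) 
(.lf (nat_lit 29485) (.g (nat_lit 2177) (.e (nat_lit 1200) (nat_lit 88) (.e (nat_lit 65619) (nat_lit 10) (.e (nat_lit 344169) (nat_lit 40) (.e (nat_lit 671746) (nat_lit 0) (.e (nat_lit 1586) (nat_lit 111) (.e (nat_lit 368384) (nat_lit 0) (.e (nat_lit 5902) (nat_lit 320) .nil))))))) (.g (nat_lit 5) .nil .nil)))) (.nd (nat_lit 5) 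
(.lf (nat_lit 29469) (.g (nat_lit 3766) (.e (nat_lit 1200) (nat_lit 88) (.e (nat_lit 65619) (nat_lit 10) (.e (nat_lit 344168) (nat_lit 40) (.e (nat_lit 671762) (nat_lit 4) (.e (nat_lit 65598) (nat_lit 9) (.e (nat_lit 335997) (nat_lit 1) (.e (nat_lit 57870) (nat_lit 264) .nil))))))) (.g (nat_lit 0) .nil .nil))) 
(.lf (nat_lit 29501) (.g (nat_lit 1924) (.e (nat_lit 1200) (nat_lit 88) (.e (nat_lit 65619) (nat_lit 10) (.e (nat_lit 344169) (nat_lit 40) (.e (nat_lit 671747) (nat_lit 0) (.e (nat_lit 1598) (nat_lit 111) (.e (nat_lit 368384) (nat_lit 0) (.e (nat_lit 5905) (nat_lit 320) .nil))))))) (.g (nat_lit 4) .nil .nil))))))) (.nd (nat_lit 2) (.nd (nat_lit 3) (.nd (nat_lit 4) (.nd (nat_lit 5) 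
(.lf (nat_lit 29443) (.g (nat_lit 1137) (.e (nat_lit 1200) (nat_lit 88) (.e (nat_lit 65619) (nat_lit 10) (.e (nat_lit 344168) (nat_lit 40) (.e (nat_lit 671747) (nat_lit 0) .nil)))) .nil)) 
(.lf (nat_lit 29475) (.g (nat_lit 2472) (.e (nat_lit 1200) (nat_lit 88) (.e (nat_lit 65619) (nat_lit 10) (.e (nat_lit 344168) (nat_lit 40) (.e (nat_lit 671762) (nat_lit 4) (.e (nat_lit 65619) (nat_lit 10) (.e (nat_lit 344090) (nat_lit 18) (.e (nat_lit 5896) (nat_lit 320) .nil))))))) (.g (nat_lit 5) .nil .nil)))) (.nd (nat_lit 5) 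
(.lf (nat_lit 29459) (.g (nat_lit 1698) (.e (nat_lit 1200) (nat_lit 88) (.e (nat_lit 65619) (nat_lit 10) (.e (nat_lit 344168) (nat_lit 40) (.e (nat_lit 671748) (nat_lit 0) (.e (nat_lit 1589) (nat_lit 111) (.e (nat_lit 360453) (nat_lit 0) (.e (nat_lit 5907) (nat_lit 320) .nil))))))) (.g (nat_lit 4) .nil .nil))) 
(.lf (nat_lit 29491) (.g (nat_lit 1543) (.e (nat_lit 1200) (nat_lit 88) (.e (nat_lit 65619) (nat_lit 10) (.e (nat_lit 344169) (nat_lit 40) (.e (nat_lit 671747) (nat_lit 0) (.e (nat_lit 1589) (nat_lit 111) .nil))))) .nil)))) (.nd (nat_lit 4) (.nd (nat_lit 5) 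
(.lf (nat_lit 29451) (.g (nat_lit 2620) (.e (nat_lit 1200) (nat_lit 88) (.e (nat_lit 65619) (nat_lit 10) (.e (nat_lit 344168) (nat_lit 40) (.e (nat_lit 671747) (nat_lit 0) (.e (nat_lit 1595) (nat_lit 111) (.e (nat_lit 368384) (nat_lit 0) (.e (nat_lit 5905) (nat_lit 320) .nil))))))) (.g (nat_lit 5) .nil .nil))) 
(.lf (nat_lit 29483) (.g (nat_lit 1382) (.e (nat_lit 1200) (nat_lit 88) (.e (nat_lit 65619) (nat_lit 10) (.e (nat_lit 344169) (nat_lit 40) (.e (nat_lit 671744) (nat_lit 0) (.e (nat_lit 1615) (nat_lit 113) .nil))))) .nil))) (.nd (nat_lit 5) 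
(.lf (nat_lit 29467) (.g (nat_lit 3516) (.e (nat_lit 1200) (nat_lit 88) (.e (nat_lit 65619) (nat_lit 10) (.e (nat_lit 344168) (nat_lit 40) (.e (nat_lit 671761) (nat_lit 4) (.e (nat_lit 65610) (nat_lit 10) (.e (nat_lit 344097) (nat_lit 18) (.e (nat_lit 5907) (nat_lit 320) .nil))))))) (.g (nat_lit 6) .nil .nil))) 
(.lf (nat_lit 29499) (.g (nat_lit 3178) (.e (nat_lit 1200) (nat_lit 88) (.e (nat_lit 65619) (nat_lit 10) (.e (nat_lit 344169) (nat_lit 40) (.e (nat_lit 671747) (nat_lit 0) (.e (nat_lit 1598) (nat_lit 111) (.e (nat_lit 360452) (nat_lit 0) (.e (nat_lit 5907) (nat_lit 320) .nil))))))) (.g (nat_lit 6) .nil .nil)))))) (.nd (nat_lit 3) (.nd (nat_lit 4) (.nd (nat_lit 5) 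
(.lf (nat_lit 29447) (.g (nat_lit 2528) (.e (nat_lit 1200) (nat_lit 88) (.e (nat_lit 65619) (nat_lit 10) (.e (nat_lit 344168) (nat_lit 40) (.e (nat_lit 671747) (nat_lit 0) (.e (nat_lit 1589) (nat_lit 111) (.e (nat_lit 360453) (nat_lit 0) (.e (nat_lit 5907) (nat_lit 320) .nil))))))) (.g (nat_lit 5) .nil .nil))) 
(.lf (nat_lit 29479) (.g (nat_lit 2146) (.e (nat_lit 1200) (nat_lit 88) (.e (nat_lit 65619) (nat_lit 10) (.e (nat_lit 344168) (nat_lit 40) (.e (nat_lit 671764) (nat_lit 6) (.e (nat_lit 81949) (nat_lit 21) (.e (nat_lit 57871) (nat_lit 264) .nil)))))) (.g (nat_lit 4) .nil .nil)))) (.nd (nat_lit 5) 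
(.lf (nat_lit 29463) (.g (nat_lit 1110) (.e (nat_lit 1200) (nat_lit 88) (.e (nat_lit 65619) (nat_lit 10) (.e (nat_lit 344168) (nat_lit 40) (.e (nat_lit 671751) (nat_lit 0) .nil)))) .nil)) 
(.lf (nat_lit 29495) (.g (nat_lit 2466) (.e (nat_lit 1200) (nat_lit 88) (.e (nat_lit 65619) (nat_lit 10) (.e (nat_lit 344169) (nat_lit 40) (.e (nat_lit 671747) (nat_lit 0) (.e (nat_lit 1595) (nat_lit 111) (.e (nat_lit 368384) (nat_lit 0) (.e (nat_lit 5902) (nat_lit 320) .nil))))))) (.g (nat_lit 5) .nil .nil))))) (.nd (nat_lit 4) (.nd (nat_lit 5) 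
(.lf (nat_lit 29455) (.g (nat_lit 3250) (.e (nat_lit 1200) (nat_lit 88) (.e (nat_lit 65619) (nat_lit 10) (.e (nat_lit 344168) (nat_lit 40) (.e (nat_lit 671747) (nat_lit 0) (.e (nat_lit 1598) (nat_lit 111) (.e (nat_lit 360452) (nat_lit 0) (.e (nat_lit 5907) (nat_lit 320) .nil))))))) (.g (nat_lit 6) .nil .nil))) 
(.lf (nat_lit 29487) (.g (nat_lit 1085) (.e (nat_lit 1200) (nat_lit 88) (.e (nat_lit 65619) (nat_lit 10) (.e (nat_lit 344169) (nat_lit 40) (.e (nat_lit 671747) (nat_lit 0) .nil)))) .nil))) (.nd (nat_lit 5) 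
(.lf (nat_lit 29471) (.g (nat_lit 3858) (.e (nat_lit 1200) (nat_lit 88) (.e (nat_lit 65619) (nat_lit 10) (.e (nat_lit 344168) (nat_lit 40) (.e (nat_lit 671762) (nat_lit 4) (.e (nat_lit 65598) (nat_lit 9) (.e (nat_lit 335997) (nat_lit 1) (.e (nat_lit 57872) (nat_lit 264) .nil))))))) (.g (nat_lit 0) .nil .nil))) 
(.lf (nat_lit 29503) (.g (nat_lit 1889) (.e (nat_lit 1200) (nat_lit 88) (.e (nat_lit 65619) (nat_lit 10) (.e (nat_lit 344169) (nat_lit 40) (.e (nat_lit 671747) (nat_lit 0) (.e (nat_lit 1599) (nat_lit 111) (.e (nat_lit 368384) (nat_lit 0) (.e (nat_lit 5905) (nat_lit 320) .nil))))))) (.g (nat_lit 4) .nil .nil)))))))))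

noncomputable def tv409 : DT := (.nd (nat_lit 0) (.nd (nat_lit 1) (.nd (nat_lit 2) (.nd (nat_lit 3) (.nd (nat_lit 4) (.nd (nat_lit 5) 
(.lf (nat_lit 29504) (.g (nat_lit 933) (.e (nat_lit 1200) (nat_lit 88) (.e (nat_lit 65619) (nat_lit 10) (.e (nat_lit 344169) (nat_lit 40) (.e (nat_lit 671748) (nat_lit 0) .nil)))) .nil)) 
(.lf (nat_lit 29536) (.g (nat_lit 3927) (.e (nat_lit 1200) (nat_lit 88) (.e (nat_lit 65619) (nat_lit 10) (.e (nat_lit 344169) (nat_lit 40) (.e (nat_lit 671762) (nat_lit 4) (.e (nat_lit 65598) (nat_lit 9) (.e (nat_lit 335997) (nat_lit 1) (.e (nat_lit 57870) (nat_lit 264) .nil))))))) (.g (nat_lit 0) .nil .nil)))) (.nd (nat_lit 5) 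
(.lf (nat_lit 29520) (.g (nat_lit 1876) (.e (nat_lit 1200) (nat_lit 88) (.e (nat_lit 65619) (nat_lit 10) (.e (nat_lit 344169) (nat_lit 40) (.e (nat_lit 671748) (nat_lit 0) (.e (nat_lit 1595) (nat_lit 111) (.e (nat_lit 368384) (nat_lit 0) (.e (nat_lit 5909) (nat_lit 320) .nil))))))) (.g (nat_lit 4) .nil .nil))) 
(.lf (nat_lit 29552) (.g (nat_lit 2053) (.e (nat_lit 1200) (nat_lit 88) (.e (nat_lit 65619) (nat_lit 10) (.e (nat_lit 344174) (nat_lit 42) (.e (nat_lit 761866) (nat_lit 5) (.e (nat_lit 1597) (nat_lit 111) (.e (nat_lit 368384) (nat_lit 0) (.e (nat_lit 7236) (nat_lit 382) .nil))))))) (.g (nat_lit 4) .nil .nil))))) (.nd (nat_lit 4) (.nd (nat_lit 5) 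
(.lf (nat_lit 29512) (.g (nat_lit 2312) (.e (nat_lit 1200) (nat_lit 88) (.e (nat_lit 65619) (nat_lit 10) (.e (nat_lit 344169) (nat_lit 40) (.e (nat_lit 671748) (nat_lit 0) (.e (nat_lit 1589) (nat_lit 111) (.e (nat_lit 360452) (nat_lit 0) (.e (nat_lit 5907) (nat_lit 320) .nil))))))) (.g (nat_lit 4) .nil .nil))) 
(.lf (nat_lit 29544) (.g (nat_lit 4039) (.e (nat_lit 1200) (nat_lit 88) (.e (nat_lit 65619) (nat_lit 10) (.e (nat_lit 344169) (nat_lit 40) (.e (nat_lit 671762) (nat_lit 4) (.e (nat_lit 65619) (nat_lit 10) (.e (nat_lit 344097) (nat_lit 18) (.e (nat_lit 5905) (nat_lit 320) .nil))))))) (.g (nat_lit 7) .nil .nil)))) (.nd (nat_lit 5) 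
(.lf (nat_lit 29528) (.g (nat_lit 1464) (.e (nat_lit 1200) (nat_lit 88) (.e (nat_lit 65619) (nat_lit 10) (.e (nat_lit 344169) (nat_lit 40) (.e (nat_lit 671760) (nat_lit 4) (.e (nat_lit 65598) (nat_lit 9) .nil))))) .nil)) 
(.lf (nat_lit 29560) (.g (nat_lit 1189) (.e (nat_lit 1200) (nat_lit 88) (.e (nat_lit 65619) (nat_lit 10) (.e (nat_lit 344177) (nat_lit 43) (.e (nat_lit 770072) (nat_lit 8) .nil)))) .nil))))) (.nd (nat_lit 3) (.nd (nat_lit 4) (.nd (nat_lit 5) 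
(.lf (nat_lit 29508) (.g (nat_lit 2128) (.e (nat_lit 1200) (nat_lit 88) (.e (nat_lit 65619) (nat_lit 10) (.e (nat_lit 344169) (nat_lit 40) (.e (nat_lit 671748) (nat_lit 0) (.e (nat_lit 1586) (nat_lit 111) (.e (nat_lit 360451) (nat_lit 0) (.e (nat_lit 5896) (nat_lit 320) .nil))))))) (.g (nat_lit 4) .nil .nil))) 
(.lf (nat_lit 29540) (.g (nat_lit 3847) (.e (nat_lit 1200) (nat_lit 88) (.e (nat_lit 65619) (nat_lit 10) (.e (nat_lit 344169) (nat_lit 40) (.e (nat_lit 671762) (nat_lit 4) (.e (nat_lit 65604) (nat_lit 9) (.e (nat_lit 335997) (nat_lit 1) (.e (nat_lit 57871) (nat_lit 264) .nil))))))) (.g (nat_lit 7) .nil .nil)))) (.nd (nat_lit 5) 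
(.lf (nat_lit 29524) (.g (nat_lit 2075) (.e (nat_lit 1200) (nat_lit 88) (.e (nat_lit 65619) (nat_lit 10) (.e (nat_lit 344169) (nat_lit 40) (.e (nat_lit 671748) (nat_lit 0) (.e (nat_lit 1599) (nat_lit 111) (.e (nat_lit 360452) (nat_lit 0) (.e (nat_lit 5907) (nat_lit 320) .nil))))))) (.g (nat_lit 4) .nil .nil))) 
(.lf (nat_lit 29556) (.g (nat_lit 1305) (.e (nat_lit 1200) (nat_lit 88) (.e (nat_lit 65619) (nat_lit 10) (.e (nat_lit 344177) (nat_lit 43) (.e (nat_lit 770057) (nat_lit 5) .nil)))) .nil)))) (.nd (nat_lit 4) (.nd (nat_lit 5) 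
(.lf (nat_lit 29516) (.g (nat_lit 2291) (.e (nat_lit 1200) (nat_lit 88) (.e (nat_lit 65619) (nat_lit 10) (.e (nat_lit 344169) (nat_lit 40) (.e (nat_lit 671748) (nat_lit 0) (.e (nat_lit 1592) (nat_lit 111) (.e (nat_lit 368384) (nat_lit 0) (.e (nat_lit 5902) (nat_lit 320) .nil))))))) (.g (nat_lit 4) .nil .nil))) 
(.lf (nat_lit 29548) (.g (nat_lit 2850) (.e (nat_lit 1200) (nat_lit 88) (.e (nat_lit 65619) (nat_lit 10) (.e (nat_lit 344169) (nat_lit 40) (.e (nat_lit 671764) (nat_lit 6) (.e (nat_lit 81948) (nat_lit 21) (.e (nat_lit 57872) (nat_lit 264) .nil)))))) (.g (nat_lit 0) .nil .nil)))) (.nd (nat_lit 5) 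
(.lf (nat_lit 29532) (.g (nat_lit 1791) (.e (nat_lit 1200) (nat_lit 88) (.e (nat_lit 65619) (nat_lit 10) (.e (nat_lit 344169) (nat_lit 40) (.e (nat_lit 671761) (nat_lit 4) (.e (nat_lit 65604) (nat_lit 9) (.e (nat_lit 335997) (nat_lit 1) (.e (nat_lit 57872) (nat_lit 264) .nil))))))) (.g (nat_lit 4) .nil .nil))) 
(.lf (nat_lit 29564) (.g (nat_lit 2056) (.e (nat_lit 1200) (nat_lit 88) (.e (nat_lit 65619) (nat_lit 10) (.e (nat_lit 344177) (nat_lit 43) (.e (nat_lit 770072) (nat_lit 8) (.e (nat_lit 65619) (nat_lit 10) .nil))))) .nil)))))) (.nd (nat_lit 2) (.nd (nat_lit 3) (.nd (nat_lit 4) (.nd (nat_lit 5) 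
(.lf (nat_lit 29506) (.g (nat_lit 2015) (.e (nat_lit 1200) (nat_lit 88) (.e (nat_lit 65619) (nat_lit 10) (.e (nat_lit 344169) (nat_lit 40) (.e (nat_lit 671748) (nat_lit 0) (.e (nat_lit 1562) (nat_lit 110) (.e (nat_lit 352309) (nat_lit 21) (.e (nat_lit 57871) (nat_lit 264) .nil))))))) (.g (nat_lit 4) .nil .nil))) 
(.lf (nat_lit 29538) (.g (nat_lit 4008) (.e (nat_lit 1200) (nat_lit 88) (.e (nat_lit 65619) (nat_lit 10) (.e (nat_lit 344169) (nat_lit 40) (.e (nat_lit 671762) (nat_lit 4) (.e (nat_lit 65598) (nat_lit 9) (.e (nat_lit 335997) (nat_lit 1) (.e (nat_lit 57872) (nat_lit 264) .nil))))))) (.g (nat_lit 0) .nil .nil)))) (.nd (nat_lit 5) 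
(.lf (nat_lit 29522) (.g (nat_lit 4082) (.e (nat_lit 1200) (nat_lit 88) (.e (nat_lit 65619) (nat_lit 10) (.e (nat_lit 344169) (nat_lit 40) (.e (nat_lit 671748) (nat_lit 0) (.e (nat_lit 1598) (nat_lit 111) (.e (nat_lit 360452) (nat_lit 0) (.e (nat_lit 5905) (nat_lit 320) .nil))))))) (.g (nat_lit 7) .nil .nil))) 
(.lf (nat_lit 29554) (.g (nat_lit 1911) (.e (nat_lit 1200) (nat_lit 88) (.e (nat_lit 65619) (nat_lit 10) (.e (nat_lit 344174) (nat_lit 42) (.e (nat_lit 761869) (nat_lit 5) (.e (nat_lit 1585) (nat_lit 111) (.e (nat_lit 368384) (nat_lit 0) (.e (nat_lit 7236) (nat_lit 382) .nil))))))) (.g (nat_lit 4) .nil .nil))))) (.nd (nat_lit 4) (.nd (nat_lit 5) 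
(.lf (nat_lit 29514) (.g (nat_lit 2832) (.e (nat_lit 1200) (nat_lit 88) (.e (nat_lit 65619) (nat_lit 10) (.e (nat_lit 344169) (nat_lit 40) (.e (nat_lit 671748) (nat_lit 0) (.e (nat_lit 1589) (nat_lit 111) (.e (nat_lit 368384) (nat_lit 0) (.e (nat_lit 5906) (nat_lit 320) .nil))))))) (.g (nat_lit 5) .nil .nil))) 
(.lf (nat_lit 29546) (.g (nat_lit 2465) (.e (nat_lit 1200) (nat_lit 88) (.e (nat_lit 65619) (nat_lit 10) (.e (nat_lit 344169) (nat_lit 40) (.e (nat_lit 671762) (nat_lit 4) (.e (nat_lit 65620) (nat_lit 10) (.e (nat_lit 344097) (nat_lit 18) (.e (nat_lit 5907) (nat_lit 320) .nil))))))) (.g (nat_lit 5) .nil .nil)))) (.nd (nat_lit 5) 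
(.lf (nat_lit 29530) (.g (nat_lit 1877) (.e (nat_lit 1200) (nat_lit 88) (.e (nat_lit 65619) (nat_lit 10) (.e (nat_lit 344169) (nat_lit 40) (.e (nat_lit 671760) (nat_lit 4) (.e (nat_lit 65610) (nat_lit 10) (.e (nat_lit 344097) (nat_lit 18) (.e (nat_lit 5907) (nat_lit 320) .nil))))))) (.g (nat_lit 4) .nil .nil))) 
(.lf (nat_lit 29562) (.g (nat_lit 2049) (.e (nat_lit 1200) (nat_lit 88) (.e (nat_lit 65619) (nat_lit 10) (.e (nat_lit 344177) (nat_lit 43) (.e (nat_lit 770072) (nat_lit 8) (.e (nat_lit 65617) (nat_lit 10) .nil))))) .nil))))) (.nd (nat_lit 3) (.nd (nat_lit 4) (.nd (nat_lit 5) 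
(.lf (nat_lit 29510) (.g (nat_lit 1982) (.e (nat_lit 1200) (nat_lit 88) (.e (nat_lit 65619) (nat_lit 10) (.e (nat_lit 344169) (nat_lit 40) (.e (nat_lit 671748) (nat_lit 0) (.e (nat_lit 1586) (nat_lit 111) (.e (nat_lit 360454) (nat_lit 0) (.e (nat_lit 5907) (nat_lit 320) .nil))))))) (.g (nat_lit 4) .nil .nil))) 
(.lf (nat_lit 29542) (.g (nat_lit 4126) (.e (nat_lit 1200) (nat_lit 88) (.e (nat_lit 65619) (nat_lit 10) (.e (nat_lit 344169) (nat_lit 40) (.e (nat_lit 671762) (nat_lit 4) (.e (nat_lit 65610) (nat_lit 10) (.e (nat_lit 344097) (nat_lit 18) (.e (nat_lit 5905) (nat_lit 320) .nil))))))) (.g (nat_lit 7) .nil .nil)))) (.nd (nat_lit 5) 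
(.lf (nat_lit 29526) (.g (nat_lit 1884) (.e (nat_lit 1200) (nat_lit 88) (.e (nat_lit 65619) (nat_lit 10) (.e (nat_lit 344169) (nat_lit 40) (.e (nat_lit 671751) (nat_lit 0) (.e (nat_lit 1524) (nat_lit 108) (.e (nat_lit 336186) (nat_lit 11) (.e (nat_lit 368662) (nat_lit 18) (.e (nat_lit 5906) (nat_lit 320) .nil)))))))) (.g (nat_lit 4) .nil .nil))) 
(.lf (nat_lit 29558) (.g (nat_lit 1907) (.e (nat_lit 1200) (nat_lit 88) (.e (nat_lit 65619) (nat_lit 10) (.e (nat_lit 344177) (nat_lit 43) (.e (nat_lit 770071) (nat_lit 8) (.e (nat_lit 65617) (nat_lit 10) .nil))))) .nil)))) (.nd (nat_lit 4) (.nd (nat_lit 5) 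
(.lf (nat_lit 29518) (.g (nat_lit 2160) (.e (nat_lit 1200) (nat_lit 88) (.e (nat_lit 65619) (nat_lit 10) (.e (nat_lit 344169) (nat_lit 40) (.e (nat_lit 671748) (nat_lit 0) (.e (nat_lit 1595) (nat_lit 111) (.e (nat_lit 360453) (nat_lit 0) (.e (nat_lit 5905) (nat_lit 320) .nil))))))) (.g (nat_lit 4) .nil .nil))) 
(.lf (nat_lit 29550) (.g (nat_lit 2084) (.e (nat_lit 1200) (nat_lit 88) (.e (nat_lit 65619) (nat_lit 10) (.e (nat_lit 344169) (nat_lit 40) (.e (nat_lit 671764) (nat_lit 6) (.e (nat_lit 81949) (nat_lit 21) (.e (nat_lit 57872) (nat_lit 264) .nil)))))) (.g (nat_lit 5) .nil .nil)))) (.nd (nat_lit 5) 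
(.lf (nat_lit 29534) (.g (nat_lit 3741) (.e (nat_lit 1200) (nat_lit 88) (.e (nat_lit 65619) (nat_lit 10) (.e (nat_lit 344169) (nat_lit 40) (.e (nat_lit 671761) (nat_lit 4) (.e (nat_lit 65610) (nat_lit 10) (.e (nat_lit 344097) (nat_lit 18) (.e (nat_lit 5907) (nat_lit 320) .nil))))))) (.g (nat_lit 6) .nil .nil))) 
(.lf (nat_lit 29566) (.g (nat_lit 1694) (.e (nat_lit 1200) (nat_lit 88) (.e (nat_lit 65622) (nat_lit 12) (.e (nat_lit 385093) (nat_lit 49) (.e (nat_lit 778326) (nat_lit 6) (.e (nat_lit 81948) (nat_lit 21) (.e (nat_lit 57873) (nat_lit 264) .nil)))))) (.g (nat_lit 4) .nil .nil)))))))) (.nd (nat_lit 1) (.nd (nat_lit 2) (.nd (nat_lit 3) (.nd (nat_lit 4) (.nd (nat_lit 5) 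
(.lf (nat_lit 29505) (.g (nat_lit 1751) (.e (nat_lit 1200) (nat_lit 88) (.e (nat_lit 65619) (nat_lit 10) (.e (nat_lit 344169) (nat_lit 40) (.e (nat_lit 671748) (nat_lit 0) (.e (nat_lit 1562) (nat_lit 110) (.e (nat_lit 352309) (nat_lit 21) (.e (nat_lit 57870) (nat_lit 264) .nil))))))) (.g (nat_lit 4) .nil .nil))) 
(.lf (nat_lit 29537) (.g (nat_lit 4017) (.e (nat_lit 1200) (nat_lit 88) (.e (nat_lit 65619) (nat_lit 10) (.e (nat_lit 344169) (nat_lit 40) (.e (nat_lit 671762) (nat_lit 4) (.e (nat_lit 65598) (nat_lit 9) (.e (nat_lit 335997) (nat_lit 1) (.e (nat_lit 57871) (nat_lit 264) .nil))))))) (.g (nat_lit 7) .nil .nil)))) (.nd (nat_lit 5) 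
(.lf (nat_lit 29521) (.g (nat_lit 1713) (.e (nat_lit 1200) (nat_lit 88) (.e (nat_lit 65619) (nat_lit 10) (.e (nat_lit 344169) (nat_lit 40) (.e (nat_lit 671748) (nat_lit 0) (.e (nat_lit 1598) (nat_lit 111) .nil))))) .nil)) 
(.lf (nat_lit 29553) (.g (nat_lit 2004) (.e (nat_lit 1200) (nat_lit 88) (.e (nat_lit 65619) (nat_lit 10) (.e (nat_lit 344174) (nat_lit 42) (.e (nat_lit 761868) (nat_lit 5) (.e (nat_lit 1597) (nat_lit 111) (.e (nat_lit 368384) (nat_lit 0) (.e (nat_lit 7236) (nat_lit 382) .nil))))))) (.g (nat_lit 4) .nil .nil))))) (.nd (nat_lit 4) (.nd (nat_lit 5) 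
(.lf (nat_lit 29513) (.g (nat_lit 2406) (.e (nat_lit 1200) (nat_lit 88) (.e (nat_lit 65619) (nat_lit 10) (.e (nat_lit 344169) (nat_lit 40) (.e (nat_lit 671748) (nat_lit 0) (.e (nat_lit 1589) (nat_lit 111) (.e (nat_lit 360453) (nat_lit 0) (.e (nat_lit 5905) (nat_lit 320) .nil))))))) (.g (nat_lit 4) .nil .nil))) 
(.lf (nat_lit 29545) (.g (nat_lit 2148) (.e (nat_lit 1200) (nat_lit 88) (.e (nat_lit 65619) (nat_lit 10) (.e (nat_lit 344169) (nat_lit 40) (.e (nat_lit 671762) (nat_lit 4) (.e (nat_lit 65620) (nat_lit 10) (.e (nat_lit 344097) (nat_lit 18) (.e (nat_lit 5906) (nat_lit 320) .nil))))))) (.g (nat_lit 4) .nil .nil)))) (.nd (nat_lit 5) 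
(.lf (nat_lit 29529) (.g (nat_lit 1718) (.e (nat_lit 1200) (nat_lit 88) (.e (nat_lit 65619) (nat_lit 10) (.e (nat_lit 344169) (nat_lit 40) (.e (nat_lit 671760) (nat_lit 4) (.e (nat_lit 65604) (nat_lit 9) (.e (nat_lit 335997) (nat_lit 1) (.e (nat_lit 57872) (nat_lit 264) .nil))))))) (.g (nat_lit 4) .nil .nil))) 
(.lf (nat_lit 29561) (.g (nat_lit 2381) (.e (nat_lit 1200) (nat_lit 88) (.e (nat_lit 65619) (nat_lit 10) (.e (nat_lit 344177) (nat_lit 43) (.e (nat_lit 770072) (nat_lit 8) (.e (nat_lit 65610) (nat_lit 10) (.e (nat_lit 344090) (nat_lit 18) (.e (nat_lit 7236) (nat_lit 382) .nil))))))) (.g (nat_lit 4) .nil .nil)))))) (.nd (nat_lit 3) (.nd (nat_lit 4) (.nd (nat_lit 5) 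
(.lf (nat_lit 29509) (.g (nat_lit 2802) (.e (nat_lit 1200) (nat_lit 88) (.e (nat_lit 65619) (nat_lit 10) (.e (nat_lit 344169) (nat_lit 40) (.e (nat_lit 671748) (nat_lit 0) (.e (nat_lit 1586) (nat_lit 111) (.e (nat_lit 360452) (nat_lit 0) (.e (nat_lit 5907) (nat_lit 320) .nil))))))) (.g (nat_lit 5) .nil .nil))) 
(.lf (nat_lit 29541) (.g (nat_lit 3818) (.e (nat_lit 1200) (nat_lit 88) (.e (nat_lit 65619) (nat_lit 10) (.e (nat_lit 344169) (nat_lit 40) (.e (nat_lit 671762) (nat_lit 4) (.e (nat_lit 65604) (nat_lit 9) (.e (nat_lit 335997) (nat_lit 1) (.e (nat_lit 57872) (nat_lit 264) .nil))))))) (.g (nat_lit 0) .nil .nil)))) (.nd (nat_lit 5) 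
(.lf (nat_lit 29525) (.g (nat_lit 2384) (.e (nat_lit 1200) (nat_lit 88) (.e (nat_lit 65619) (nat_lit 10) (.e (nat_lit 344169) (nat_lit 40) (.e (nat_lit 671748) (nat_lit 0) (.e (nat_lit 1599) (nat_lit 111) (.e (nat_lit 368384) (nat_lit 0) (.e (nat_lit 5906) (nat_lit 320) .nil))))))) (.g (nat_lit 5) .nil .nil))) 
(.lf (nat_lit 29557) (.g (nat_lit 2056) (.e (nat_lit 1200) (nat_lit 88) (.e (nat_lit 65619) (nat_lit 10) (.e (nat_lit 344177) (nat_lit 43) (.e (nat_lit 770071) (nat_lit 8) (.e (nat_lit 65610) (nat_lit 10) (.e (nat_lit 344090) (nat_lit 18) (.e (nat_lit 7236) (nat_lit 382) .nil))))))) (.g (nat_lit 4) .nil .nil))))) (.nd (nat_lit 4) (.nd (nat_lit 5) 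
(.lf (nat_lit 29517) (.g (nat_lit 1950) (.e (nat_lit 1200) (nat_lit 88) (.e (nat_lit 65619) (nat_lit 10) (.e (nat_lit 344169) (nat_lit 40) (.e (nat_lit 671748) (nat_lit 0) (.e (nat_lit 1592) (nat_lit 111) (.e (nat_lit 368384) (nat_lit 0) (.e (nat_lit 5905) (nat_lit 320) .nil))))))) (.g (nat_lit 4) .nil .nil))) 
(.lf (nat_lit 29549) (.g (nat_lit 2013) (.e (nat_lit 1200) (nat_lit 88) (.e (nat_lit 65619) (nat_lit 10) (.e (nat_lit 344169) (nat_lit 40) (.e (nat_lit 671764) (nat_lit 6) (.e (nat_lit 81949) (nat_lit 21) (.e (nat_lit 57871) (nat_lit 264) .nil)))))) (.g (nat_lit 4) .nil .nil)))) (.nd (nat_lit 5) 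
(.lf (nat_lit 29533) (.g (nat_lit 3415) (.e (nat_lit 1200) (nat_lit 88) (.e (nat_lit 65619) (nat_lit 10) (.e (nat_lit 344169) (nat_lit 40) (.e (nat_lit 671761) (nat_lit 4) (.e (nat_lit 65610) (nat_lit 10) (.e (nat_lit 344097) (nat_lit 18) (.e (nat_lit 5906) (nat_lit 320) .nil))))))) (.g (nat_lit 6) .nil .nil))) 
(.lf (nat_lit 29565) (.g (nat_lit 1121) (.e (nat_lit 1200) (nat_lit 88) (.e (nat_lit 65622) (nat_lit 12) (.e (nat_lit 385093) (nat_lit 49) (.e (nat_lit 778326) (nat_lit 6) .nil)))) .nil)))))) (.nd (nat_lit 2) (.nd (nat_lit 3) (.nd (nat_lit 4) (.nd (nat_lit 5) 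
(.lf (nat_lit 29507) (.g (nat_lit 2402) (.e (nat_lit 1200) (nat_lit 88) (.e (nat_lit 65619) (nat_lit 10) (.e (nat_lit 344169) (nat_lit 40) (.e (nat_lit 671748) (nat_lit 0) (.e (nat_lit 1572) (nat_lit 110) (.e (nat_lit 352309) (nat_lit 21) (.e (nat_lit 57872) (nat_lit 264) .nil))))))) (.g (nat_lit 5) .nil .nil))) 
(.lf (nat_lit 29539) (.g (nat_lit 3719) (.e (nat_lit 1200) (nat_lit 88) (.e (nat_lit 65619) (nat_lit 10) (.e (nat_lit 344169) (nat_lit 40) (.e (nat_lit 671762) (nat_lit 4) (.e (nat_lit 65604) (nat_lit 9) (.e (nat_lit 335997) (nat_lit 1) (.e (nat_lit 57870) (nat_lit 264) .nil))))))) (.g (nat_lit 0) .nil .nil)))) (.nd (nat_lit 5) 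
(.lf (nat_lit 29523) (.g (nat_lit 2481) (.e (nat_lit 1200) (nat_lit 88) (.e (nat_lit 65619) (nat_lit 10) (.e (nat_lit 344169) (nat_lit 40) (.e (nat_lit 671748) (nat_lit 0) (.e (nat_lit 1598) (nat_lit 111) (.e (nat_lit 368384) (nat_lit 0) (.e (nat_lit 5906) (nat_lit 320) .nil))))))) (.g (nat_lit 5) .nil .nil))) 
(.lf (nat_lit 29555) (.g (nat_lit 2068) (.e (nat_lit 1200) (nat_lit 88) (.e (nat_lit 65619) (nat_lit 10) (.e (nat_lit 344174) (nat_lit 42) (.e (nat_lit 761869) (nat_lit 5) (.e (nat_lit 1597) (nat_lit 111) (.e (nat_lit 368384) (nat_lit 0) (.e (nat_lit 7236) (nat_lit 382) .nil))))))) (.g (nat_lit 4) .nil .nil))))) (.nd (nat_lit 4) (.nd (nat_lit 5) 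
(.lf (nat_lit 29515) (.g (nat_lit 1981) (.e (nat_lit 1200) (nat_lit 88) (.e (nat_lit 65619) (nat_lit 10) (.e (nat_lit 344169) (nat_lit 40) (.e (nat_lit 671748) (nat_lit 0) (.e (nat_lit 1589) (nat_lit 111) (.e (nat_lit 368384) (nat_lit 0) (.e (nat_lit 5909) (nat_lit 320) .nil))))))) (.g (nat_lit 4) .nil .nil))) 
(.lf (nat_lit 29547) (.g (nat_lit 2621) (.e (nat_lit 1200) (nat_lit 88) (.e (nat_lit 65619) (nat_lit 10) (.e (nat_lit 344169) (nat_lit 40) (.e (nat_lit 671764) (nat_lit 6) (.e (nat_lit 81948) (nat_lit 21) (.e (nat_lit 57871) (nat_lit 264) .nil)))))) (.g (nat_lit 6) .nil .nil)))) (.nd (nat_lit 5) 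
(.lf (nat_lit 29531) (.g (nat_lit 3090) (.e (nat_lit 1200) (nat_lit 88) (.e (nat_lit 65619) (nat_lit 10) (.e (nat_lit 344169) (nat_lit 40) (.e (nat_lit 671760) (nat_lit 4) (.e (nat_lit 65619) (nat_lit 10) (.e (nat_lit 344097) (nat_lit 18) (.e (nat_lit 5906) (nat_lit 320) .nil))))))) (.g (nat_lit 6) .nil .nil))) 
(.lf (nat_lit 29563) (.g (nat_lit 2200) (.e (nat_lit 1200) (nat_lit 88) (.e (nat_lit 65619) (nat_lit 10) (.e (nat_lit 344177) (nat_lit 43) (.e (nat_lit 770072) (nat_lit 8) (.e (nat_lit 65617) (nat_lit 10) (.e (nat_lit 344091) (nat_lit 18) (.e (nat_lit 7236) (nat_lit 382) .nil))))))) (.g (nat_lit 4) .nil .nil)))))) (.nd (nat_lit 3) (.nd (nat_lit 4) (.nd (nat_lit 5) 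
(.lf (nat_lit 29511) (.g (nat_lit 1977) (.e (nat_lit 1200) (nat_lit 88) (.e (nat_lit 65619) (nat_lit 10) (.e (nat_lit 344169) (nat_lit 40) (.e (nat_lit 671748) (nat_lit 0) (.e (nat_lit 1586) (nat_lit 111) (.e (nat_lit 368384) (nat_lit 0) (.e (nat_lit 5909) (nat_lit 320) .nil))))))) (.g (nat_lit 4) .nil .nil))) 
(.lf (nat_lit 29543) (.g (nat_lit 2200) (.e (nat_lit 1200) (nat_lit 88) (.e (nat_lit 65619) (nat_lit 10) (.e (nat_lit 344169) (nat_lit 40) (.e (nat_lit 671762) (nat_lit 4) (.e (nat_lit 65617) (nat_lit 10) (.e (nat_lit 344091) (nat_lit 18) (.e (nat_lit 5896) (nat_lit 320) .nil))))))) (.g (nat_lit 4) .nil .nil)))) (.nd (nat_lit 5) 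
(.lf (nat_lit 29527) (.g (nat_lit 2173) (.e (nat_lit 1200) (nat_lit 88) (.e (nat_lit 65619) (nat_lit 10) (.e (nat_lit 344169) (nat_lit 40) (.e (nat_lit 671751) (nat_lit 0) (.e (nat_lit 1524) (nat_lit 108) (.e (nat_lit 336186) (nat_lit 11) (.e (nat_lit 368662) (nat_lit 18) (.e (nat_lit 5907) (nat_lit 320) .nil)))))))) (.g (nat_lit 5) .nil .nil))) 
(.lf (nat_lit 29559) (.g (nat_lit 2101) (.e (nat_lit 1200) (nat_lit 88) (.e (nat_lit 65619) (nat_lit 10) (.e (nat_lit 344177) (nat_lit 43) (.e (nat_lit 770071) (nat_lit 8) (.e (nat_lit 65617) (nat_lit 10) (.e (nat_lit 344091) (nat_lit 18) (.e (nat_lit 7236) (nat_lit 382) .nil))))))) (.g (nat_lit 4) .nil .nil))))) (.nd (nat_lit 4) (.nd (nat_lit 5) 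
(.lf (nat_lit 29519) (.g (nat_lit 2645) (.e (nat_lit 1200) (nat_lit 88) (.e (nat_lit 65619) (nat_lit 10) (.e (nat_lit 344169) (nat_lit 40) (.e (nat_lit 671748) (nat_lit 0) (.e (nat_lit 1595) (nat_lit 111) (.e (nat_lit 368384) (nat_lit 0) (.e (nat_lit 5906) (nat_lit 320) .nil))))))) (.g (nat_lit 5) .nil .nil))) 
(.lf (nat_lit 29551) (.g (nat_lit 2699) (.e (nat_lit 1200) (nat_lit 88) (.e (nat_lit 65619) (nat_lit 10) (.e (nat_lit 344169) (nat_lit 40) (.e (nat_lit 671764) (nat_lit 6) (.e (nat_lit 81950) (nat_lit 21) (.e (nat_lit 57871) (nat_lit 264) .nil)))))) (.g (nat_lit 6) .nil .nil)))) (.nd (nat_lit 5) 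
(.lf (nat_lit 29535) (.g (nat_lit 936) (.e (nat_lit 1200) (nat_lit 88) (.e (nat_lit 65619) (nat_lit 10) (.e (nat_lit 344169) (nat_lit 40) (.e (nat_lit 671762) (nat_lit 4) .nil)))) .nil)) 
(.lf (nat_lit 29567) (.g (nat_lit 1785) (.e (nat_lit 1200) (nat_lit 88) (.e (nat_lit 65622) (nat_lit 12) (.e (nat_lit 385093) (nat_lit 49) (.e (nat_lit 778326) (nat_lit 6) (.e (nat_lit 81950) (nat_lit 21) (.e (nat_lit 57872) (nat_lit 264) .nil)))))) (.g (nat_lit 4) .nil .nil)))))))))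

noncomputable def tv410 : DT := (.nd (nat_lit 0) (.nd (nat_lit 1) (.nd (nat_lit 2) (.nd (nat_lit 3) (.nd (nat_lit 4) (.nd (nat_lit 5) 
(.lf (nat_lit 29568) (.g (nat_lit 1761) (.e (nat_lit 1200) (nat_lit 88) (.e (nat_lit 65622) (nat_lit 12) (.e (nat_lit 385093) (nat_lit 49) (.e (nat_lit 778326) (nat_lit 6) (.e (nat_lit 81950) (nat_lit 21) (.e (nat_lit 57873) (nat_lit 264) .nil)))))) (.g (nat_lit 4) .nil .nil))) 
(.lf (nat_lit 29600) (.g (nat_lit 2182) (.e (nat_lit 1200) (nat_lit 88) (.e (nat_lit 65622) (nat_lit 12) (.e (nat_lit 385106) (nat_lit 50) (.e (nat_lit 786483) (nat_lit 30) (.e (nat_lit 360454) (nat_lit 0) (.e (nat_lit 5907) (nat_lit 320) .nil)))))) (.g (nat_lit 4) .nil .nil)))) (.nd (nat_lit 5) 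
(.lf (nat_lit 29584) (.g (nat_lit 2430) (.e (nat_lit 1200) (nat_lit 88) (.e (nat_lit 65622) (nat_lit 12) (.e (nat_lit 385105) (nat_lit 50) (.e (nat_lit 786483) (nat_lit 30) (.e (nat_lit 360452) (nat_lit 0) (.e (nat_lit 5907) (nat_lit 320) .nil)))))) (.g (nat_lit 4) .nil .nil))) 
(.lf (nat_lit 29616) (.g (nat_lit 1894) (.e (nat_lit 1200) (nat_lit 88) (.e (nat_lit 65623) (nat_lit 12) (.e (nat_lit 385105) (nat_lit 50) (.e (nat_lit 786481) (nat_lit 30) (.e (nat_lit 360452) (nat_lit 0) (.e (nat_lit 5907) (nat_lit 320) .nil)))))) (.g (nat_lit 4) .nil .nil))))) (.nd (nat_lit 4) (.nd (nat_lit 5) 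
(.lf (nat_lit 29576) (.g (nat_lit 1047) (.e (nat_lit 1200) (nat_lit 88) (.e (nat_lit 65622) (nat_lit 12) (.e (nat_lit 385094) (nat_lit 49) (.e (nat_lit 778327) (nat_lit 6) .nil)))) .nil)) 
(.lf (nat_lit 29608) (.g (nat_lit 2219) (.e (nat_lit 1200) (nat_lit 88) (.e (nat_lit 65623) (nat_lit 12) (.e (nat_lit 385094) (nat_lit 49) (.e (nat_lit 778326) (nat_lit 6) (.e (nat_lit 81950) (nat_lit 21) (.e (nat_lit 57870) (nat_lit 264) .nil)))))) (.g (nat_lit 6) .nil .nil)))) (.nd (nat_lit 5) 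
(.lf (nat_lit 29592) (.g (nat_lit 2712) (.e (nat_lit 1200) (nat_lit 88) (.e (nat_lit 65622) (nat_lit 12) (.e (nat_lit 385106) (nat_lit 50) (.e (nat_lit 786480) (nat_lit 29) (.e (nat_lit 352309) (nat_lit 21) (.e (nat_lit 57872) (nat_lit 264) .nil)))))) (.g (nat_lit 5) .nil .nil))) 
(.lf (nat_lit 29624) (.g (nat_lit 2409) (.e (nat_lit 1200) (nat_lit 88) (.e (nat_lit 65623) (nat_lit 12) (.e (nat_lit 385106) (nat_lit 50) (.e (nat_lit 786481) (nat_lit 30) (.e (nat_lit 360453) (nat_lit 0) (.e (nat_lit 5907) (nat_lit 320) .nil)))))) (.g (nat_lit 5) .nil .nil)))))) (.nd (nat_lit 3) (.nd (nat_lit 4) (.nd (nat_lit 5) 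
(.lf (nat_lit 29572) (.g (nat_lit 1732) (.e (nat_lit 1200) (nat_lit 88) (.e (nat_lit 65622) (nat_lit 12) (.e (nat_lit 385094) (nat_lit 49) (.e (nat_lit 778326) (nat_lit 6) (.e (nat_lit 81948) (nat_lit 21) (.e (nat_lit 57873) (nat_lit 264) .nil)))))) (.g (nat_lit 4) .nil .nil))) 
(.lf (nat_lit 29604) (.g (nat_lit 2147) (.e (nat_lit 1200) (nat_lit 88) (.e (nat_lit 65623) (nat_lit 12) (.e (nat_lit 385094) (nat_lit 49) (.e (nat_lit 778326) (nat_lit 6) (.e (nat_lit 81948) (nat_lit 21) (.e (nat_lit 57870) (nat_lit 264) .nil)))))) (.g (nat_lit 6) .nil .nil)))) (.nd (nat_lit 5) 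
(.lf (nat_lit 29588) (.g (nat_lit 1667) (.e (nat_lit 1200) (nat_lit 88) (.e (nat_lit 65622) (nat_lit 12) (.e (nat_lit 385106) (nat_lit 50) (.e (nat_lit 786478) (nat_lit 29) (.e (nat_lit 352309) (nat_lit 21) .nil))))) .nil)) 
(.lf (nat_lit 29620) (.g (nat_lit 2613) (.e (nat_lit 1200) (nat_lit 88) (.e (nat_lit 65623) (nat_lit 12) (.e (nat_lit 385106) (nat_lit 50) (.e (nat_lit 786480) (nat_lit 29) (.e (nat_lit 352309) (nat_lit 21) (.e (nat_lit 57871) (nat_lit 264) .nil)))))) (.g (nat_lit 4) .nil .nil))))) (.nd (nat_lit 4) (.nd (nat_lit 5) 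
(.lf (nat_lit 29580) (.g (nat_lit 2398) (.e (nat_lit 1200) (nat_lit 88) (.e (nat_lit 65622) (nat_lit 12) (.e (nat_lit 385105) (nat_lit 50) (.e (nat_lit 786481) (nat_lit 30) (.e (nat_lit 360452) (nat_lit 0) (.e (nat_lit 5907) (nat_lit 320) .nil)))))) (.g (nat_lit 5) .nil .nil))) 
(.lf (nat_lit 29612) (.g (nat_lit 1682) (.e (nat_lit 1200) (nat_lit 88) (.e (nat_lit 65623) (nat_lit 12) (.e (nat_lit 385094) (nat_lit 49) (.e (nat_lit 778327) (nat_lit 6) (.e (nat_lit 81949) (nat_lit 21) (.e (nat_lit 57870) (nat_lit 264) .nil)))))) (.g (nat_lit 4) .nil .nil)))) (.nd (nat_lit 5) 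
(.lf (nat_lit 29596) (.g (nat_lit 1533) (.e (nat_lit 1200) (nat_lit 88) (.e (nat_lit 65622) (nat_lit 12) (.e (nat_lit 385106) (nat_lit 50) (.e (nat_lit 786481) (nat_lit 30) (.e (nat_lit 368384) (nat_lit 0) .nil))))) .nil)) 
(.lf (nat_lit 29628) (.g (nat_lit 1880) (.e (nat_lit 1200) (nat_lit 88) (.e (nat_lit 65623) (nat_lit 12) (.e (nat_lit 385106) (nat_lit 50) (.e (nat_lit 786483) (nat_lit 30) (.e (nat_lit 368384) (nat_lit 0) .nil))))) .nil)))))) (.nd (nat_lit 2) (.nd (nat_lit 3) (.nd (nat_lit 4) (.nd (nat_lit 5) 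
(.lf (nat_lit 29570) (.g (nat_lit 1325) (.e (nat_lit 1200) (nat_lit 88) (.e (nat_lit 65622) (nat_lit 12) (.e (nat_lit 385094) (nat_lit 49) (.e (nat_lit 778326) (nat_lit 6) (.e (nat_lit 81948) (nat_lit 21) .nil))))) .nil)) 
(.lf (nat_lit 29602) (.g (nat_lit 1056) (.e (nat_lit 1200) (nat_lit 88) (.e (nat_lit 65623) (nat_lit 12) (.e (nat_lit 385093) (nat_lit 49) (.e (nat_lit 778326) (nat_lit 6) .nil)))) .nil))) (.nd (nat_lit 5) 
(.lf (nat_lit 29586) (.g (nat_lit 2336) (.e (nat_lit 1200) (nat_lit 88) (.e (nat_lit 65622) (nat_lit 12) (.e (nat_lit 385105) (nat_lit 50) (.e (nat_lit 786483) (nat_lit 30) (.e (nat_lit 360454) (nat_lit 0) (.e (nat_lit 5907) (nat_lit 320) .nil)))))) (.g (nat_lit 4) .nil .nil))) 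
(.lf (nat_lit 29618) (.g (nat_lit 2278) (.e (nat_lit 1200) (nat_lit 88) (.e (nat_lit 65623) (nat_lit 12) (.e (nat_lit 385105) (nat_lit 50) (.e (nat_lit 786483) (nat_lit 30) (.e (nat_lit 360451) (nat_lit 0) (.e (nat_lit 5896) (nat_lit 320) .nil)))))) (.g (nat_lit 4) .nil .nil))))) (.nd (nat_lit 4) (.nd (nat_lit 5) 
(.lf (nat_lit 29578) (.g (nat_lit 2966) (.e (nat_lit 1200) (nat_lit 88) (.e (nat_lit 65622) (nat_lit 12) (.e (nat_lit 385105) (nat_lit 50) (.e (nat_lit 786480) (nat_lit 29) (.e (nat_lit 352309) (nat_lit 21) (.e (nat_lit 57872) (nat_lit 264) .nil)))))) (.g (nat_lit 5) .nil .nil))) 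
(.lf (nat_lit 29610) (.g (nat_lit 2655) (.e (nat_lit 1200) (nat_lit 88) (.e (nat_lit 65623) (nat_lit 12) (.e (nat_lit 385094) (nat_lit 49) (.e (nat_lit 778326) (nat_lit 6) (.e (nat_lit 81950) (nat_lit 21) (.e (nat_lit 57872) (nat_lit 264) .nil)))))) (.g (nat_lit 6) .nil .nil)))) (.nd (nat_lit 5) 
(.lf (nat_lit 29594) (.g (nat_lit 2247) (.e (nat_lit 1200) (nat_lit 88) (.e (nat_lit 65622) (nat_lit 12) (.e (nat_lit 385106) (nat_lit 50) (.e (nat_lit 786481) (nat_lit 30) (.e (nat_lit 360452) (nat_lit 0) (.e (nat_lit 5907) (nat_lit 320) .nil)))))) (.g (nat_lit 5) .nil .nil))) 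
(.lf (nat_lit 29626) (.g (nat_lit 2287) (.e (nat_lit 1200) (nat_lit 88) (.e (nat_lit 65623) (nat_lit 12) (.e (nat_lit 385106) (nat_lit 50) (.e (nat_lit 786483) (nat_lit 30) (.e (nat_lit 360453) (nat_lit 0) (.e (nat_lit 5907) (nat_lit 320) .nil)))))) (.g (nat_lit 4) .nil .nil)))))) (.nd (nat_lit 3) (.nd (nat_lit 4) (.nd (nat_lit 5) 
(.lf (nat_lit 29574) (.g (nat_lit 1823) (.e (nat_lit 1200) (nat_lit 88) (.e (nat_lit 65622) (nat_lit 12) (.e (nat_lit 385094) (nat_lit 49) (.e (nat_lit 778326) (nat_lit 6) (.e (nat_lit 81950) (nat_lit 21) (.e (nat_lit 57872) (nat_lit 264) .nil)))))) (.g (nat_lit 4) .nil .nil))) 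
(.lf (nat_lit 29606) (.g (nat_lit 2518) (.e (nat_lit 1200) (nat_lit 88) (.e (nat_lit 65623) (nat_lit 12) (.e (nat_lit 385094) (nat_lit 49) (.e (nat_lit 778326) (nat_lit 6) (.e (nat_lit 81948) (nat_lit 21) (.e (nat_lit 57872) (nat_lit 264) .nil)))))) (.g (nat_lit 6) .nil .nil)))) (.nd (nat_lit 5) 
(.lf (nat_lit 29590) (.g (nat_lit 2151) (.e (nat_lit 1200) (nat_lit 88) (.e (nat_lit 65622) (nat_lit 12) (.e (nat_lit 385106) (nat_lit 50) (.e (nat_lit 786480) (nat_lit 29) (.e (nat_lit 352309) (nat_lit 21) (.e (nat_lit 57870) (nat_lit 264) .nil)))))) (.g (nat_lit 4) .nil .nil))) 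
(.lf (nat_lit 29622) (.g (nat_lit 1734) (.e (nat_lit 1200) (nat_lit 88) (.e (nat_lit 65623) (nat_lit 12) (.e (nat_lit 385106) (nat_lit 50) (.e (nat_lit 786481) (nat_lit 30) (.e (nat_lit 360452) (nat_lit 0) .nil))))) .nil)))) (.nd (nat_lit 4) (.nd (nat_lit 5) 
(.lf (nat_lit 29582) (.g (nat_lit 1657) (.e (nat_lit 1200) (nat_lit 88) (.e (nat_lit 65622) (nat_lit 12) (.e (nat_lit 385105) (nat_lit 50) (.e (nat_lit 786481) (nat_lit 30) (.e (nat_lit 368384) (nat_lit 0) .nil))))) .nil)) 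
(.lf (nat_lit 29614) (.g (nat_lit 1818) (.e (nat_lit 1200) (nat_lit 88) (.e (nat_lit 65623) (nat_lit 12) (.e (nat_lit 385105) (nat_lit 50) (.e (nat_lit 786480) (nat_lit 29) (.e (nat_lit 352309) (nat_lit 21) .nil))))) .nil))) (.nd (nat_lit 5) 
(.lf (nat_lit 29598) (.g (nat_lit 2306) (.e (nat_lit 1200) (nat_lit 88) (.e (nat_lit 65622) (nat_lit 12) (.e (nat_lit 385106) (nat_lit 50) (.e (nat_lit 786483) (nat_lit 30) (.e (nat_lit 360452) (nat_lit 0) (.e (nat_lit 5907) (nat_lit 320) .nil)))))) (.g (nat_lit 4) .nil .nil))) 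
(.lf (nat_lit 29630) (.g (nat_lit 4005) (.e (nat_lit 1200) (nat_lit 88) (.e (nat_lit 65624) (nat_lit 12) (.e (nat_lit 385074) (nat_lit 31) (.e (nat_lit 573493) (nat_lit 15) (.e (nat_lit 81959) (nat_lit 24) .nil))))) .nil))))))) (.nd (nat_lit 1) (.nd (nat_lit 2) (.nd (nat_lit 3) (.nd (nat_lit 4) (.nd (nat_lit 5) 
(.lf (nat_lit 29569) (.g (nat_lit 1269) (.e (nat_lit 1200) (nat_lit 88) (.e (nat_lit 65622) (nat_lit 12) (.e (nat_lit 385093) (nat_lit 49) (.e (nat_lit 778327) (nat_lit 6) .nil)))) .nil)) 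
(.lf (nat_lit 29601) (.g (nat_lit 1762) (.e (nat_lit 1200) (nat_lit 88) (.e (nat_lit 65622) (nat_lit 12) (.e (nat_lit 385106) (nat_lit 50) (.e (nat_lit 786483) (nat_lit 30) (.e (nat_lit 368384) (nat_lit 0) .nil))))) .nil))) (.nd (nat_lit 5) 
(.lf (nat_lit 29585) (.g (nat_lit 2209) (.e (nat_lit 1200) (nat_lit 88) (.e (nat_lit 65622) (nat_lit 12) (.e (nat_lit 385105) (nat_lit 50) (.e (nat_lit 786483) (nat_lit 30) (.e (nat_lit 360453) (nat_lit 0) .nil))))) .nil)) 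
(.lf (nat_lit 29617) (.g (nat_lit 1643) (.e (nat_lit 1200) (nat_lit 88) (.e (nat_lit 65623) (nat_lit 12) (.e (nat_lit 385105) (nat_lit 50) (.e (nat_lit 786481) (nat_lit 30) (.e (nat_lit 360453) (nat_lit 0) .nil))))) .nil)))) (.nd (nat_lit 4) (.nd (nat_lit 5) 
(.lf (nat_lit 29577) (.g (nat_lit 2714) (.e (nat_lit 1200) (nat_lit 88) (.e (nat_lit 65622) (nat_lit 12) (.e (nat_lit 385105) (nat_lit 50) (.e (nat_lit 786478) (nat_lit 29) (.e (nat_lit 352309) (nat_lit 21) (.e (nat_lit 57872) (nat_lit 264) .nil)))))) (.g (nat_lit 5) .nil .nil))) 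
(.lf (nat_lit 29609) (.g (nat_lit 2288) (.e (nat_lit 1200) (nat_lit 88) (.e (nat_lit 65623) (nat_lit 12) (.e (nat_lit 385094) (nat_lit 49) (.e (nat_lit 778326) (nat_lit 6) (.e (nat_lit 81950) (nat_lit 21) (.e (nat_lit 57871) (nat_lit 264) .nil)))))) (.g (nat_lit 5) .nil .nil)))) (.nd (nat_lit 5) 
(.lf (nat_lit 29593) (.g (nat_lit 2937) (.e (nat_lit 1200) (nat_lit 88) (.e (nat_lit 65622) (nat_lit 12) (.e (nat_lit 385106) (nat_lit 50) (.e (nat_lit 786481) (nat_lit 30) (.e (nat_lit 360449) (nat_lit 0) (.e (nat_lit 5896) (nat_lit 320) .nil)))))) (.g (nat_lit 5) .nil .nil))) 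
(.lf (nat_lit 29625) (.g (nat_lit 1563) (.e (nat_lit 1200) (nat_lit 88) (.e (nat_lit 65623) (nat_lit 12) (.e (nat_lit 385106) (nat_lit 50) (.e (nat_lit 786481) (nat_lit 30) (.e (nat_lit 368384) (nat_lit 0) .nil))))) .nil))))) (.nd (nat_lit 3) (.nd (nat_lit 4) (.nd (nat_lit 5) 
(.lf (nat_lit 29573) (.g (nat_lit 1360) (.e (nat_lit 1200) (nat_lit 88) (.e (nat_lit 65622) (nat_lit 12) (.e (nat_lit 385094) (nat_lit 49) (.e (nat_lit 778326) (nat_lit 6) (.e (nat_lit 81950) (nat_lit 21) .nil))))) .nil)) 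
(.lf (nat_lit 29605) (.g (nat_lit 2181) (.e (nat_lit 1200) (nat_lit 88) (.e (nat_lit 65623) (nat_lit 12) (.e (nat_lit 385094) (nat_lit 49) (.e (nat_lit 778326) (nat_lit 6) (.e (nat_lit 81948) (nat_lit 21) (.e (nat_lit 57871) (nat_lit 264) .nil)))))) (.g (nat_lit 5) .nil .nil)))) (.nd (nat_lit 5) 
(.lf (nat_lit 29589) (.g (nat_lit 1983) (.e (nat_lit 1200) (nat_lit 88) (.e (nat_lit 65622) (nat_lit 12) (.e (nat_lit 385106) (nat_lit 50) (.e (nat_lit 786478) (nat_lit 29) (.e (nat_lit 352309) (nat_lit 21) (.e (nat_lit 57872) (nat_lit 264) .nil)))))) (.g (nat_lit 4) .nil .nil))) 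
(.lf (nat_lit 29621) (.g (nat_lit 2922) (.e (nat_lit 1200) (nat_lit 88) (.e (nat_lit 65623) (nat_lit 12) (.e (nat_lit 385106) (nat_lit 50) (.e (nat_lit 786481) (nat_lit 30) (.e (nat_lit 360449) (nat_lit 0) (.e (nat_lit 5896) (nat_lit 320) .nil)))))) (.g (nat_lit 5) .nil .nil))))) (.nd (nat_lit 4) (.nd (nat_lit 5) 
(.lf (nat_lit 29581) (.g (nat_lit 2171) (.e (nat_lit 1200) (nat_lit 88) (.e (nat_lit 65622) (nat_lit 12) (.e (nat_lit 385105) (nat_lit 50) (.e (nat_lit 786481) (nat_lit 30) (.e (nat_lit 360453) (nat_lit 0) (.e (nat_lit 5907) (nat_lit 320) .nil)))))) (.g (nat_lit 5) .nil .nil))) 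
(.lf (nat_lit 29613) (.g (nat_lit 1652) (.e (nat_lit 1200) (nat_lit 88) (.e (nat_lit 65623) (nat_lit 12) (.e (nat_lit 385094) (nat_lit 49) (.e (nat_lit 778327) (nat_lit 6) (.e (nat_lit 81949) (nat_lit 21) (.e (nat_lit 57873) (nat_lit 264) .nil)))))) (.g (nat_lit 4) .nil .nil)))) (.nd (nat_lit 5) 
(.lf (nat_lit 29597) (.g (nat_lit 3020) (.e (nat_lit 1200) (nat_lit 88) (.e (nat_lit 65622) (nat_lit 12) (.e (nat_lit 385106) (nat_lit 50) (.e (nat_lit 786483) (nat_lit 30) (.e (nat_lit 360451) (nat_lit 0) (.e (nat_lit 5896) (nat_lit 320) .nil)))))) (.g (nat_lit 5) .nil .nil))) 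
(.lf (nat_lit 29629) (.g (nat_lit 1956) (.e (nat_lit 1200) (nat_lit 88) (.e (nat_lit 65623) (nat_lit 12) (.e (nat_lit 385106) (nat_lit 50) (.e (nat_lit 786483) (nat_lit 30) (.e (nat_lit 368384) (nat_lit 0) (.e (nat_lit 5902) (nat_lit 320) .nil)))))) (.g (nat_lit 4) .nil .nil))))))) (.nd (nat_lit 2) (.nd (nat_lit 3) (.nd (nat_lit 4) (.nd (nat_lit 5) 
(.lf (nat_lit 29571) (.g (nat_lit 1671) (.e (nat_lit 1200) (nat_lit 88) (.e (nat_lit 65622) (nat_lit 12) (.e (nat_lit 385094) (nat_lit 49) (.e (nat_lit 778326) (nat_lit 6) (.e (nat_lit 81948) (nat_lit 21) (.e (nat_lit 57872) (nat_lit 264) .nil)))))) (.g (nat_lit 4) .nil .nil))) 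
(.lf (nat_lit 29603) (.g (nat_lit 942) (.e (nat_lit 1200) (nat_lit 88) (.e (nat_lit 65623) (nat_lit 12) (.e (nat_lit 385093) (nat_lit 49) (.e (nat_lit 778327) (nat_lit 6) .nil)))) .nil))) (.nd (nat_lit 5) 
(.lf (nat_lit 29587) (.g (nat_lit 1915) (.e (nat_lit 1200) (nat_lit 88) (.e (nat_lit 65622) (nat_lit 12) (.e (nat_lit 385105) (nat_lit 50) (.e (nat_lit 786483) (nat_lit 30) (.e (nat_lit 368384) (nat_lit 0) .nil))))) .nil)) 
(.lf (nat_lit 29619) (.g (nat_lit 1915) (.e (nat_lit 1200) (nat_lit 88) (.e (nat_lit 65623) (nat_lit 12) (.e (nat_lit 385105) (nat_lit 50) (.e (nat_lit 786483) (nat_lit 30) (.e (nat_lit 360454) (nat_lit 0) .nil))))) .nil)))) (.nd (nat_lit 4) (.nd (nat_lit 5) 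
(.lf (nat_lit 29579) (.g (nat_lit 2966) (.e (nat_lit 1200) (nat_lit 88) (.e (nat_lit 65622) (nat_lit 12) (.e (nat_lit 385105) (nat_lit 50) (.e (nat_lit 786481) (nat_lit 30) (.e (nat_lit 360449) (nat_lit 0) (.e (nat_lit 5896) (nat_lit 320) .nil)))))) (.g (nat_lit 6) .nil .nil))) 
(.lf (nat_lit 29611) (.g (nat_lit 1044) (.e (nat_lit 1200) (nat_lit 88) (.e (nat_lit 65623) (nat_lit 12) (.e (nat_lit 385094) (nat_lit 49) (.e (nat_lit 778327) (nat_lit 6) .nil)))) .nil))) (.nd (nat_lit 5) 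
(.lf (nat_lit 29595) (.g (nat_lit 2025) (.e (nat_lit 1200) (nat_lit 88) (.e (nat_lit 65622) (nat_lit 12) (.e (nat_lit 385106) (nat_lit 50) (.e (nat_lit 786481) (nat_lit 30) (.e (nat_lit 360453) (nat_lit 0) (.e (nat_lit 5907) (nat_lit 320) .nil)))))) (.g (nat_lit 5) .nil .nil))) 
(.lf (nat_lit 29627) (.g (nat_lit 2470) (.e (nat_lit 1200) (nat_lit 88) (.e (nat_lit 65623) (nat_lit 12) (.e (nat_lit 385106) (nat_lit 50) (.e (nat_lit 786483) (nat_lit 30) (.e (nat_lit 360454) (nat_lit 0) (.e (nat_lit 5907) (nat_lit 320) .nil)))))) (.g (nat_lit 5) .nil .nil)))))) (.nd (nat_lit 3) (.nd (nat_lit 4) (.nd (nat_lit 5) 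
(.lf (nat_lit 29575) (.g (nat_lit 1812) (.e (nat_lit 1200) (nat_lit 88) (.e (nat_lit 65622) (nat_lit 12) (.e (nat_lit 385094) (nat_lit 49) (.e (nat_lit 778326) (nat_lit 6) (.e (nat_lit 81950) (nat_lit 21) (.e (nat_lit 57873) (nat_lit 264) .nil)))))) (.g (nat_lit 4) .nil .nil))) 
(.lf (nat_lit 29607) (.g (nat_lit 2611) (.e (nat_lit 1200) (nat_lit 88) (.e (nat_lit 65623) (nat_lit 12) (.e (nat_lit 385094) (nat_lit 49) (.e (nat_lit 778326) (nat_lit 6) (.e (nat_lit 81948) (nat_lit 21) (.e (nat_lit 57873) (nat_lit 264) .nil)))))) (.g (nat_lit 6) .nil .nil)))) (.nd (nat_lit 5) 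
(.lf (nat_lit 29591) (.g (nat_lit 2301) (.e (nat_lit 1200) (nat_lit 88) (.e (nat_lit 65622) (nat_lit 12) (.e (nat_lit 385106) (nat_lit 50) (.e (nat_lit 786480) (nat_lit 29) (.e (nat_lit 352309) (nat_lit 21) (.e (nat_lit 57871) (nat_lit 264) .nil)))))) (.g (nat_lit 4) .nil .nil))) 
(.lf (nat_lit 29623) (.g (nat_lit 2395) (.e (nat_lit 1200) (nat_lit 88) (.e (nat_lit 65623) (nat_lit 12) (.e (nat_lit 385106) (nat_lit 50) (.e (nat_lit 786481) (nat_lit 30) (.e (nat_lit 360452) (nat_lit 0) (.e (nat_lit 5907) (nat_lit 320) .nil)))))) (.g (nat_lit 5) .nil .nil))))) (.nd (nat_lit 4) (.nd (nat_lit 5) 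
(.lf (nat_lit 29583) (.g (nat_lit 3086) (.e (nat_lit 1200) (nat_lit 88) (.e (nat_lit 65622) (nat_lit 12) (.e (nat_lit 385105) (nat_lit 50) (.e (nat_lit 786483) (nat_lit 30) (.e (nat_lit 360451) (nat_lit 0) (.e (nat_lit 5896) (nat_lit 320) .nil)))))) (.g (nat_lit 5) .nil .nil))) 
(.lf (nat_lit 29615) (.g (nat_lit 2117) (.e (nat_lit 1200) (nat_lit 88) (.e (nat_lit 65623) (nat_lit 12) (.e (nat_lit 385105) (nat_lit 50) (.e (nat_lit 786481) (nat_lit 30) (.e (nat_lit 360449) (nat_lit 0) (.e (nat_lit 5896) (nat_lit 320) .nil)))))) (.g (nat_lit 4) .nil .nil)))) (.nd (nat_lit 5) 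
(.lf (nat_lit 29599) (.g (nat_lit 2102) (.e (nat_lit 1200) (nat_lit 88) (.e (nat_lit 65622) (nat_lit 12) (.e (nat_lit 385106) (nat_lit 50) (.e (nat_lit 786483) (nat_lit 30) (.e (nat_lit 360453) (nat_lit 0) .nil))))) .nil)) 
(.lf (nat_lit 29631) (.g (nat_lit 641) (.e (nat_lit 1200) (nat_lit 88) (.e (nat_lit 65624) (nat_lit 12) (.e (nat_lit 385092) (nat_lit 49) .nil))) .nil))))))))

noncomputable def tv411 : DT := (.nd (nat_lit 0) (.nd (nat_lit 1) (.nd (nat_lit 2) (.nd (nat_lit 3) (.nd (nat_lit 4) (.nd (nat_lit 5) 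
(.lf (nat_lit 29632) (.g (nat_lit 2040) (.e (nat_lit 1200) (nat_lit 88) (.e (nat_lit 65624) (nat_lit 12) (.e (nat_lit 385092) (nat_lit 49) (.e (nat_lit 778326) (nat_lit 6) (.e (nat_lit 81950) (nat_lit 21) (.e (nat_lit 57870) (nat_lit 264) .nil)))))) (.g (nat_lit 5) .nil .nil))) 
(.lf (nat_lit 29664) (.g (nat_lit 3395) (.e (nat_lit 1200) (nat_lit 88) (.e (nat_lit 65624) (nat_lit 12) (.e (nat_lit 385105) (nat_lit 50) (.e (nat_lit 786481) (nat_lit 30) (.e (nat_lit 360449) (nat_lit 0) (.e (nat_lit 5896) (nat_lit 320) .nil)))))) (.g (nat_lit 6) .nil .nil)))) (.nd (nat_lit 5) 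
(.lf (nat_lit 29648) (.g (nat_lit 2557) (.e (nat_lit 1200) (nat_lit 88) (.e (nat_lit 65624) (nat_lit 12) (.e (nat_lit 385094) (nat_lit 49) (.e (nat_lit 778326) (nat_lit 6) (.e (nat_lit 81950) (nat_lit 21) (.e (nat_lit 57871) (nat_lit 264) .nil)))))) (.g (nat_lit 5) .nil .nil))) 
(.lf (nat_lit 29680) (.g (nat_lit 2968) (.e (nat_lit 1200) (nat_lit 88) (.e (nat_lit 65624) (nat_lit 12) (.e (nat_lit 385106) (nat_lit 50) (.e (nat_lit 786480) (nat_lit 29) (.e (nat_lit 352309) (nat_lit 21) (.e (nat_lit 57871) (nat_lit 264) .nil)))))) (.g (nat_lit 5) .nil .nil))))) (.nd (nat_lit 4) (.nd (nat_lit 5) 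
(.lf (nat_lit 29640) (.g (nat_lit 2341) (.e (nat_lit 1200) (nat_lit 88) (.e (nat_lit 65624) (nat_lit 12) (.e (nat_lit 385093) (nat_lit 49) (.e (nat_lit 778327) (nat_lit 6) (.e (nat_lit 81949) (nat_lit 21) (.e (nat_lit 57870) (nat_lit 264) .nil)))))) (.g (nat_lit 4) .nil .nil))) 
(.lf (nat_lit 29672) (.g (nat_lit 2776) (.e (nat_lit 1200) (nat_lit 88) (.e (nat_lit 65624) (nat_lit 12) (.e (nat_lit 385105) (nat_lit 50) (.e (nat_lit 786483) (nat_lit 30) (.e (nat_lit 360453) (nat_lit 0) (.e (nat_lit 5907) (nat_lit 320) .nil)))))) (.g (nat_lit 4) .nil .nil)))) (.nd (nat_lit 5) 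
(.lf (nat_lit 29656) (.g (nat_lit 2221) (.e (nat_lit 1200) (nat_lit 88) (.e (nat_lit 65624) (nat_lit 12) (.e (nat_lit 385104) (nat_lit 50) (.e (nat_lit 786480) (nat_lit 29) (.e (nat_lit 352309) (nat_lit 21) (.e (nat_lit 57870) (nat_lit 264) .nil)))))) (.g (nat_lit 4) .nil .nil))) 
(.lf (nat_lit 29688) (.g (nat_lit 2834) (.e (nat_lit 1200) (nat_lit 88) (.e (nat_lit 65624) (nat_lit 12) (.e (nat_lit 385106) (nat_lit 50) (.e (nat_lit 786483) (nat_lit 30) (.e (nat_lit 360452) (nat_lit 0) (.e (nat_lit 5907) (nat_lit 320) .nil)))))) (.g (nat_lit 4) .nil .nil)))))) (.nd (nat_lit 3) (.nd (nat_lit 4) (.nd (nat_lit 5) 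
(.lf (nat_lit 29636) (.g (nat_lit 2411) (.e (nat_lit 1200) (nat_lit 88) (.e (nat_lit 65624) (nat_lit 12) (.e (nat_lit 385093) (nat_lit 49) (.e (nat_lit 778290) (nat_lit 0) .nil)))) .nil)) 
(.lf (nat_lit 29668) (.g (nat_lit 2144) (.e (nat_lit 1200) (nat_lit 88) (.e (nat_lit 65624) (nat_lit 12) (.e (nat_lit 385105) (nat_lit 50) (.e (nat_lit 786481) (nat_lit 30) (.e (nat_lit 368384) (nat_lit 0) (.e (nat_lit 5906) (nat_lit 320) .nil)))))) (.g (nat_lit 4) .nil .nil)))) (.nd (nat_lit 5) 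
(.lf (nat_lit 29652) (.g (nat_lit 1967) (.e (nat_lit 1200) (nat_lit 88) (.e (nat_lit 65624) (nat_lit 12) (.e (nat_lit 385094) (nat_lit 49) (.e (nat_lit 778327) (nat_lit 6) (.e (nat_lit 81949) (nat_lit 21) .nil))))) .nil)) 
(.lf (nat_lit 29684) (.g (nat_lit 1914) (.e (nat_lit 1200) (nat_lit 88) (.e (nat_lit 65624) (nat_lit 12) (.e (nat_lit 385106) (nat_lit 50) (.e (nat_lit 786481) (nat_lit 30) (.e (nat_lit 368384) (nat_lit 0) .nil))))) .nil)))) (.nd (nat_lit 4) (.nd (nat_lit 5) 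
(.lf (nat_lit 29644) (.g (nat_lit 2262) (.e (nat_lit 1200) (nat_lit 88) (.e (nat_lit 65624) (nat_lit 12) (.e (nat_lit 385093) (nat_lit 49) (.e (nat_lit 778327) (nat_lit 6) (.e (nat_lit 81950) (nat_lit 21) (.e (nat_lit 57873) (nat_lit 264) .nil)))))) (.g (nat_lit 4) .nil .nil))) 
(.lf (nat_lit 29676) (.g (nat_lit 2187) (.e (nat_lit 1200) (nat_lit 88) (.e (nat_lit 65624) (nat_lit 12) (.e (nat_lit 385105) (nat_lit 50) (.e (nat_lit 786483) (nat_lit 30) (.e (nat_lit 368384) (nat_lit 0) (.e (nat_lit 5906) (nat_lit 320) .nil)))))) (.g (nat_lit 4) .nil .nil)))) (.nd (nat_lit 5) 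
(.lf (nat_lit 29660) (.g (nat_lit 2548) (.e (nat_lit 1200) (nat_lit 88) (.e (nat_lit 65624) (nat_lit 12) (.e (nat_lit 385105) (nat_lit 50) (.e (nat_lit 786478) (nat_lit 29) (.e (nat_lit 352309) (nat_lit 21) (.e (nat_lit 57871) (nat_lit 264) .nil)))))) (.g (nat_lit 4) .nil .nil))) 
(.lf (nat_lit 29692) (.g (nat_lit 2472) (.e (nat_lit 1200) (nat_lit 88) (.e (nat_lit 65624) (nat_lit 12) (.e (nat_lit 385106) (nat_lit 50) (.e (nat_lit 786483) (nat_lit 30) (.e (nat_lit 368384) (nat_lit 0) (.e (nat_lit 5902) (nat_lit 320) .nil)))))) (.g (nat_lit 4) .nil .nil))))))) (.nd (nat_lit 2) (.nd (nat_lit 3) (.nd (nat_lit 4) (.nd (nat_lit 5) 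
(.lf (nat_lit 29634) (.g (nat_lit 1403) (.e (nat_lit 1200) (nat_lit 88) (.e (nat_lit 65624) (nat_lit 12) (.e (nat_lit 385092) (nat_lit 49) (.e (nat_lit 778327) (nat_lit 6) .nil)))) .nil)) 
(.lf (nat_lit 29666) (.g (nat_lit 1918) (.e (nat_lit 1200) (nat_lit 88) (.e (nat_lit 65624) (nat_lit 12) (.e (nat_lit 385105) (nat_lit 50) (.e (nat_lit 786481) (nat_lit 30) (.e (nat_lit 368384) (nat_lit 0) .nil))))) .nil))) (.nd (nat_lit 5) 
(.lf (nat_lit 29650) (.g (nat_lit 1950) (.e (nat_lit 1200) (nat_lit 88) (.e (nat_lit 65624) (nat_lit 12) (.e (nat_lit 385094) (nat_lit 49) (.e (nat_lit 778327) (nat_lit 6) (.e (nat_lit 81948) (nat_lit 21) .nil))))) .nil)) 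
(.lf (nat_lit 29682) (.g (nat_lit 3630) (.e (nat_lit 1200) (nat_lit 88) (.e (nat_lit 65624) (nat_lit 12) (.e (nat_lit 385106) (nat_lit 50) (.e (nat_lit 786481) (nat_lit 30) (.e (nat_lit 360449) (nat_lit 0) (.e (nat_lit 5896) (nat_lit 320) .nil)))))) (.g (nat_lit 6) .nil .nil))))) (.nd (nat_lit 4) (.nd (nat_lit 5) 
(.lf (nat_lit 29642) (.g (nat_lit 2092) (.e (nat_lit 1200) (nat_lit 88) (.e (nat_lit 65624) (nat_lit 12) (.e (nat_lit 385093) (nat_lit 49) (.e (nat_lit 778327) (nat_lit 6) (.e (nat_lit 81950) (nat_lit 21) .nil))))) .nil)) 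
(.lf (nat_lit 29674) (.g (nat_lit 2176) (.e (nat_lit 1200) (nat_lit 88) (.e (nat_lit 65624) (nat_lit 12) (.e (nat_lit 385105) (nat_lit 50) (.e (nat_lit 786483) (nat_lit 30) (.e (nat_lit 368384) (nat_lit 0) .nil))))) .nil))) (.nd (nat_lit 5) 
(.lf (nat_lit 29658) (.g (nat_lit 1572) (.e (nat_lit 1200) (nat_lit 88) (.e (nat_lit 65624) (nat_lit 12) (.e (nat_lit 385105) (nat_lit 50) (.e (nat_lit 786478) (nat_lit 29) .nil)))) .nil)) 
(.lf (nat_lit 29690) (.g (nat_lit 2847) (.e (nat_lit 1200) (nat_lit 88) (.e (nat_lit 65624) (nat_lit 12) (.e (nat_lit 385106) (nat_lit 50) (.e (nat_lit 786483) (nat_lit 30) (.e (nat_lit 360454) (nat_lit 0) (.e (nat_lit 5907) (nat_lit 320) .nil)))))) (.g (nat_lit 4) .nil .nil)))))) (.nd (nat_lit 3) (.nd (nat_lit 4) (.nd (nat_lit 5) 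
(.lf (nat_lit 29638) (.g (nat_lit 1957) (.e (nat_lit 1200) (nat_lit 88) (.e (nat_lit 65624) (nat_lit 12) (.e (nat_lit 385093) (nat_lit 49) (.e (nat_lit 778326) (nat_lit 6) (.e (nat_lit 81950) (nat_lit 21) (.e (nat_lit 57871) (nat_lit 264) .nil)))))) (.g (nat_lit 4) .nil .nil))) 
(.lf (nat_lit 29670) (.g (nat_lit 3699) (.e (nat_lit 1200) (nat_lit 88) (.e (nat_lit 65624) (nat_lit 12) (.e (nat_lit 385105) (nat_lit 50) (.e (nat_lit 786483) (nat_lit 30) (.e (nat_lit 360451) (nat_lit 0) (.e (nat_lit 5896) (nat_lit 320) .nil)))))) (.g (nat_lit 6) .nil .nil)))) (.nd (nat_lit 5) 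
(.lf (nat_lit 29654) (.g (nat_lit 2366) (.e (nat_lit 1200) (nat_lit 88) (.e (nat_lit 65624) (nat_lit 12) (.e (nat_lit 385094) (nat_lit 49) (.e (nat_lit 778327) (nat_lit 6) (.e (nat_lit 81950) (nat_lit 21) (.e (nat_lit 57870) (nat_lit 264) .nil)))))) (.g (nat_lit 4) .nil .nil))) 
(.lf (nat_lit 29686) (.g (nat_lit 2086) (.e (nat_lit 1200) (nat_lit 88) (.e (nat_lit 65624) (nat_lit 12) (.e (nat_lit 385106) (nat_lit 50) (.e (nat_lit 786481) (nat_lit 30) (.e (nat_lit 368384) (nat_lit 0) (.e (nat_lit 5906) (nat_lit 320) .nil)))))) (.g (nat_lit 4) .nil .nil))))) (.nd (nat_lit 4) (.nd (nat_lit 5) 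
(.lf (nat_lit 29646) (.g (nat_lit 2440) (.e (nat_lit 1200) (nat_lit 88) (.e (nat_lit 65624) (nat_lit 12) (.e (nat_lit 385094) (nat_lit 49) (.e (nat_lit 778326) (nat_lit 6) (.e (nat_lit 81948) (nat_lit 21) (.e (nat_lit 57871) (nat_lit 264) .nil)))))) (.g (nat_lit 5) .nil .nil))) 
(.lf (nat_lit 29678) (.g (nat_lit 2981) (.e (nat_lit 1200) (nat_lit 88) (.e (nat_lit 65624) (nat_lit 12) (.e (nat_lit 385106) (nat_lit 50) (.e (nat_lit 786478) (nat_lit 29) (.e (nat_lit 352309) (nat_lit 21) (.e (nat_lit 57872) (nat_lit 264) .nil)))))) (.g (nat_lit 5) .nil .nil)))) (.nd (nat_lit 5) 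
(.lf (nat_lit 29662) (.g (nat_lit 3235) (.e (nat_lit 1200) (nat_lit 88) (.e (nat_lit 65624) (nat_lit 12) (.e (nat_lit 385105) (nat_lit 50) (.e (nat_lit 786480) (nat_lit 29) (.e (nat_lit 352309) (nat_lit 21) (.e (nat_lit 57871) (nat_lit 264) .nil)))))) (.g (nat_lit 5) .nil .nil))) 
(.lf (nat_lit 29694) (.g (nat_lit 3314) (.e (nat_lit 1200) (nat_lit 88) (.e (nat_lit 65625) (nat_lit 13) (.e (nat_lit 393301) (nat_lit 27) (.e (nat_lit 491560) (nat_lit 10) (.e (nat_lit 344089) (nat_lit 18) (.e (nat_lit 7136) (nat_lit 382) .nil)))))) (.g (nat_lit 4) .nil .nil)))))))) (.nd (nat_lit 1) (.nd (nat_lit 2) (.nd (nat_lit 3) (.nd (nat_lit 4) (.nd (nat_lit 5) 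
(.lf (nat_lit 29633) (.g (nat_lit 1951) (.e (nat_lit 1200) (nat_lit 88) (.e (nat_lit 65624) (nat_lit 12) (.e (nat_lit 385092) (nat_lit 49) (.e (nat_lit 778326) (nat_lit 6) (.e (nat_lit 81950) (nat_lit 21) (.e (nat_lit 57871) (nat_lit 264) .nil)))))) (.g (nat_lit 4) .nil .nil))) 
(.lf (nat_lit 29665) (.g (nat_lit 2407) (.e (nat_lit 1200) (nat_lit 88) (.e (nat_lit 65624) (nat_lit 12) (.e (nat_lit 385105) (nat_lit 50) (.e (nat_lit 786481) (nat_lit 30) (.e (nat_lit 360452) (nat_lit 0) (.e (nat_lit 5905) (nat_lit 320) .nil)))))) (.g (nat_lit 4) .nil .nil)))) (.nd (nat_lit 5) 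
(.lf (nat_lit 29649) (.g (nat_lit 3039) (.e (nat_lit 1200) (nat_lit 88) (.e (nat_lit 65624) (nat_lit 12) (.e (nat_lit 385094) (nat_lit 49) (.e (nat_lit 778326) (nat_lit 6) (.e (nat_lit 81950) (nat_lit 21) (.e (nat_lit 57872) (nat_lit 264) .nil)))))) (.g (nat_lit 6) .nil .nil))) 
(.lf (nat_lit 29681) (.g (nat_lit 3353) (.e (nat_lit 1200) (nat_lit 88) (.e (nat_lit 65624) (nat_lit 12) (.e (nat_lit 385106) (nat_lit 50) (.e (nat_lit 786480) (nat_lit 29) (.e (nat_lit 352309) (nat_lit 21) (.e (nat_lit 57872) (nat_lit 264) .nil)))))) (.g (nat_lit 5) .nil .nil))))) (.nd (nat_lit 4) (.nd (nat_lit 5) 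
(.lf (nat_lit 29641) (.g (nat_lit 2242) (.e (nat_lit 1200) (nat_lit 88) (.e (nat_lit 65624) (nat_lit 12) (.e (nat_lit 385093) (nat_lit 49) (.e (nat_lit 778327) (nat_lit 6) (.e (nat_lit 81949) (nat_lit 21) (.e (nat_lit 57873) (nat_lit 264) .nil)))))) (.g (nat_lit 4) .nil .nil))) 
(.lf (nat_lit 29673) (.g (nat_lit 2943) (.e (nat_lit 1200) (nat_lit 88) (.e (nat_lit 65624) (nat_lit 12) (.e (nat_lit 385105) (nat_lit 50) (.e (nat_lit 786483) (nat_lit 30) (.e (nat_lit 360454) (nat_lit 0) (.e (nat_lit 5907) (nat_lit 320) .nil)))))) (.g (nat_lit 5) .nil .nil)))) (.nd (nat_lit 5) 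
(.lf (nat_lit 29657) (.g (nat_lit 2439) (.e (nat_lit 1200) (nat_lit 88) (.e (nat_lit 65624) (nat_lit 12) (.e (nat_lit 385104) (nat_lit 50) (.e (nat_lit 786480) (nat_lit 29) (.e (nat_lit 352309) (nat_lit 21) (.e (nat_lit 57871) (nat_lit 264) .nil)))))) (.g (nat_lit 4) .nil .nil))) 
(.lf (nat_lit 29689) (.g (nat_lit 2543) (.e (nat_lit 1200) (nat_lit 88) (.e (nat_lit 65624) (nat_lit 12) (.e (nat_lit 385106) (nat_lit 50) (.e (nat_lit 786483) (nat_lit 30) (.e (nat_lit 360453) (nat_lit 0) (.e (nat_lit 5907) (nat_lit 320) .nil)))))) (.g (nat_lit 4) .nil .nil)))))) (.nd (nat_lit 3) (.nd (nat_lit 4) (.nd (nat_lit 5) 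
(.lf (nat_lit 29637) (.g (nat_lit 1768) (.e (nat_lit 1200) (nat_lit 88) (.e (nat_lit 65624) (nat_lit 12) (.e (nat_lit 385093) (nat_lit 49) (.e (nat_lit 778323) (nat_lit 5) (.e (nat_lit 81664) (nat_lit 40) .nil))))) .nil)) 
(.lf (nat_lit 29669) (.g (nat_lit 1435) (.e (nat_lit 1200) (nat_lit 88) (.e (nat_lit 65624) (nat_lit 12) (.e (nat_lit 385105) (nat_lit 50) (.e (nat_lit 786483) (nat_lit 30) .nil)))) .nil))) (.nd (nat_lit 5) 
(.lf (nat_lit 29653) (.g (nat_lit 2582) (.e (nat_lit 1200) (nat_lit 88) (.e (nat_lit 65624) (nat_lit 12) (.e (nat_lit 385094) (nat_lit 49) (.e (nat_lit 778327) (nat_lit 6) (.e (nat_lit 81949) (nat_lit 21) (.e (nat_lit 57870) (nat_lit 264) .nil)))))) (.g (nat_lit 5) .nil .nil))) 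
(.lf (nat_lit 29685) (.g (nat_lit 2159) (.e (nat_lit 1200) (nat_lit 88) (.e (nat_lit 65624) (nat_lit 12) (.e (nat_lit 385106) (nat_lit 50) (.e (nat_lit 786481) (nat_lit 30) (.e (nat_lit 368384) (nat_lit 0) (.e (nat_lit 5902) (nat_lit 320) .nil)))))) (.g (nat_lit 4) .nil .nil))))) (.nd (nat_lit 4) (.nd (nat_lit 5) 
(.lf (nat_lit 29645) (.g (nat_lit 2561) (.e (nat_lit 1200) (nat_lit 88) (.e (nat_lit 65624) (nat_lit 12) (.e (nat_lit 385094) (nat_lit 49) (.e (nat_lit 778326) (nat_lit 6) (.e (nat_lit 81948) (nat_lit 21) (.e (nat_lit 57870) (nat_lit 264) .nil)))))) (.g (nat_lit 6) .nil .nil))) 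
(.lf (nat_lit 29677) (.g (nat_lit 2212) (.e (nat_lit 1200) (nat_lit 88) (.e (nat_lit 65624) (nat_lit 12) (.e (nat_lit 385106) (nat_lit 50) (.e (nat_lit 786478) (nat_lit 29) (.e (nat_lit 352309) (nat_lit 21) .nil))))) .nil))) (.nd (nat_lit 5) 
(.lf (nat_lit 29661) (.g (nat_lit 2345) (.e (nat_lit 1200) (nat_lit 88) (.e (nat_lit 65624) (nat_lit 12) (.e (nat_lit 385105) (nat_lit 50) (.e (nat_lit 786478) (nat_lit 29) (.e (nat_lit 352309) (nat_lit 21) (.e (nat_lit 57873) (nat_lit 264) .nil)))))) (.g (nat_lit 4) .nil .nil))) 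
(.lf (nat_lit 29693) (.g (nat_lit 2266) (.e (nat_lit 1200) (nat_lit 88) (.e (nat_lit 65624) (nat_lit 12) (.e (nat_lit 385106) (nat_lit 50) (.e (nat_lit 786483) (nat_lit 30) (.e (nat_lit 368384) (nat_lit 0) (.e (nat_lit 5906) (nat_lit 320) .nil)))))) (.g (nat_lit 4) .nil .nil))))))) (.nd (nat_lit 2) (.nd (nat_lit 3) (.nd (nat_lit 4) (.nd (nat_lit 5) 
(.lf (nat_lit 29635) (.g (nat_lit 1707) (.e (nat_lit 1200) (nat_lit 88) (.e (nat_lit 65624) (nat_lit 12) (.e (nat_lit 385092) (nat_lit 49) (.e (nat_lit 778327) (nat_lit 6) (.e (nat_lit 81950) (nat_lit 21) .nil))))) .nil)) 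
(.lf (nat_lit 29667) (.g (nat_lit 2212) (.e (nat_lit 1200) (nat_lit 88) (.e (nat_lit 65624) (nat_lit 12) (.e (nat_lit 385105) (nat_lit 50) (.e (nat_lit 786481) (nat_lit 30) (.e (nat_lit 368384) (nat_lit 0) (.e (nat_lit 5902) (nat_lit 320) .nil)))))) (.g (nat_lit 4) .nil .nil)))) (.nd (nat_lit 5) 
(.lf (nat_lit 29651) (.g (nat_lit 2179) (.e (nat_lit 1200) (nat_lit 88) (.e (nat_lit 65624) (nat_lit 12) (.e (nat_lit 385094) (nat_lit 49) (.e (nat_lit 778327) (nat_lit 6) (.e (nat_lit 81948) (nat_lit 21) (.e (nat_lit 57872) (nat_lit 264) .nil)))))) (.g (nat_lit 4) .nil .nil))) 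
(.lf (nat_lit 29683) (.g (nat_lit 2300) (.e (nat_lit 1200) (nat_lit 88) (.e (nat_lit 65624) (nat_lit 12) (.e (nat_lit 385106) (nat_lit 50) (.e (nat_lit 786481) (nat_lit 30) (.e (nat_lit 360452) (nat_lit 0) (.e (nat_lit 5905) (nat_lit 320) .nil)))))) (.g (nat_lit 4) .nil .nil))))) (.nd (nat_lit 4) (.nd (nat_lit 5) 
(.lf (nat_lit 29643) (.g (nat_lit 2537) (.e (nat_lit 1200) (nat_lit 88) (.e (nat_lit 65624) (nat_lit 12) (.e (nat_lit 385093) (nat_lit 49) (.e (nat_lit 778327) (nat_lit 6) (.e (nat_lit 81950) (nat_lit 21) (.e (nat_lit 57872) (nat_lit 264) .nil)))))) (.g (nat_lit 4) .nil .nil))) 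
(.lf (nat_lit 29675) (.g (nat_lit 2388) (.e (nat_lit 1200) (nat_lit 88) (.e (nat_lit 65624) (nat_lit 12) (.e (nat_lit 385105) (nat_lit 50) (.e (nat_lit 786483) (nat_lit 30) (.e (nat_lit 368384) (nat_lit 0) (.e (nat_lit 5902) (nat_lit 320) .nil)))))) (.g (nat_lit 4) .nil .nil)))) (.nd (nat_lit 5) 
(.lf (nat_lit 29659) (.g (nat_lit 2339) (.e (nat_lit 1200) (nat_lit 88) (.e (nat_lit 65624) (nat_lit 12) (.e (nat_lit 385105) (nat_lit 50) (.e (nat_lit 786478) (nat_lit 29) (.e (nat_lit 352309) (nat_lit 21) (.e (nat_lit 57870) (nat_lit 264) .nil)))))) (.g (nat_lit 4) .nil .nil))) 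
(.lf (nat_lit 29691) (.g (nat_lit 2216) (.e (nat_lit 1200) (nat_lit 88) (.e (nat_lit 65624) (nat_lit 12) (.e (nat_lit 385106) (nat_lit 50) (.e (nat_lit 786483) (nat_lit 30) (.e (nat_lit 368384) (nat_lit 0) .nil))))) .nil))))) (.nd (nat_lit 3) (.nd (nat_lit 4) (.nd (nat_lit 5) 
(.lf (nat_lit 29639) (.g (nat_lit 1648) (.e (nat_lit 1200) (nat_lit 88) (.e (nat_lit 65624) (nat_lit 12) (.e (nat_lit 385093) (nat_lit 49) (.e (nat_lit 778327) (nat_lit 6) .nil)))) .nil)) 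
(.lf (nat_lit 29671) (.g (nat_lit 2518) (.e (nat_lit 1200) (nat_lit 88) (.e (nat_lit 65624) (nat_lit 12) (.e (nat_lit 385105) (nat_lit 50) (.e (nat_lit 786483) (nat_lit 30) (.e (nat_lit 360452) (nat_lit 0) .nil))))) .nil))) (.nd (nat_lit 5) 
(.lf (nat_lit 29655) (.g (nat_lit 2653) (.e (nat_lit 1200) (nat_lit 88) (.e (nat_lit 65624) (nat_lit 12) (.e (nat_lit 385094) (nat_lit 49) (.e (nat_lit 778327) (nat_lit 6) (.e (nat_lit 81950) (nat_lit 21) (.e (nat_lit 57873) (nat_lit 264) .nil)))))) (.g (nat_lit 5) .nil .nil))) 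
(.lf (nat_lit 29687) (.g (nat_lit 3781) (.e (nat_lit 1200) (nat_lit 88) (.e (nat_lit 65624) (nat_lit 12) (.e (nat_lit 385106) (nat_lit 50) (.e (nat_lit 786483) (nat_lit 30) (.e (nat_lit 360451) (nat_lit 0) (.e (nat_lit 5896) (nat_lit 320) .nil)))))) (.g (nat_lit 6) .nil .nil))))) (.nd (nat_lit 4) (.nd (nat_lit 5) 
(.lf (nat_lit 29647) (.g (nat_lit 2644) (.e (nat_lit 1200) (nat_lit 88) (.e (nat_lit 65624) (nat_lit 12) (.e (nat_lit 385094) (nat_lit 49) (.e (nat_lit 778326) (nat_lit 6) (.e (nat_lit 81950) (nat_lit 21) (.e (nat_lit 57870) (nat_lit 264) .nil)))))) (.g (nat_lit 6) .nil .nil))) 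
(.lf (nat_lit 29679) (.g (nat_lit 1705) (.e (nat_lit 1200) (nat_lit 88) (.e (nat_lit 65624) (nat_lit 12) (.e (nat_lit 385106) (nat_lit 50) (.e (nat_lit 786479) (nat_lit 29) .nil)))) .nil))) (.nd (nat_lit 5) 
(.lf (nat_lit 29663) (.g (nat_lit 3547) (.e (nat_lit 1200) (nat_lit 88) (.e (nat_lit 65624) (nat_lit 12) (.e (nat_lit 385105) (nat_lit 50) (.e (nat_lit 786480) (nat_lit 29) (.e (nat_lit 352309) (nat_lit 21) (.e (nat_lit 57872) (nat_lit 264) .nil)))))) (.g (nat_lit 5) .nil .nil))) 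
(.lf (nat_lit 29695) (.g (nat_lit 2259) (.e (nat_lit 1200) (nat_lit 88) (.e (nat_lit 65626) (nat_lit 13) (.e (nat_lit 393300) (nat_lit 27) (.e (nat_lit 491558) (nat_lit 10) (.e (nat_lit 344089) (nat_lit 18) .nil))))) .nil))))))))

noncomputable def tv412 : DT := (.nd (nat_lit 0) (.nd (nat_lit 1) (.nd (nat_lit 2) (.nd (nat_lit 3) (.nd (nat_lit 4) (.nd (nat_lit 5) 
(.lf (nat_lit 29696) (.g (nat_lit 2088) (.e (nat_lit 1200) (nat_lit 88) (.e (nat_lit 65626) (nat_lit 13) (.e (nat_lit 393300) (nat_lit 27) (.e (nat_lit 491558) (nat_lit 10) (.e (nat_lit 344091) (nat_lit 18) (.e (nat_lit 7236) (nat_lit 382) .nil)))))) (.g (nat_lit 4) .nil .nil))) 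
(.lf (nat_lit 29728) (.g (nat_lit 3117) (.e (nat_lit 1200) (nat_lit 88) (.e (nat_lit 65628) (nat_lit 14) (.e (nat_lit 401436) (nat_lit 9) (.e (nat_lit 426555) (nat_lit 32) (.e (nat_lit 376857) (nat_lit 21) (.e (nat_lit 57872) (nat_lit 264) .nil)))))) (.g (nat_lit 6) .nil .nil)))) (.nd (nat_lit 5) 
(.lf (nat_lit 29712) (.g (nat_lit 2728) (.e (nat_lit 1200) (nat_lit 88) (.e (nat_lit 65628) (nat_lit 14) (.e (nat_lit 401428) (nat_lit 3) (.e (nat_lit 204869) (nat_lit 29) (.e (nat_lit 360448) (nat_lit 0) (.e (nat_lit 3925) (nat_lit 239) .nil)))))) (.g (nat_lit 4) .nil .nil))) 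
(.lf (nat_lit 29744) (.g (nat_lit 1771) (.e (nat_lit 1200) (nat_lit 88) (.e (nat_lit 65628) (nat_lit 14) (.e (nat_lit 401437) (nat_lit 9) (.e (nat_lit 426542) (nat_lit 29) (.e (nat_lit 352290) (nat_lit 20) .nil))))) .nil)))) (.nd (nat_lit 4) (.nd (nat_lit 5) 
(.lf (nat_lit 29704) (.g (nat_lit 3698) (.e (nat_lit 1200) (nat_lit 88) (.e (nat_lit 65626) (nat_lit 13) (.e (nat_lit 393301) (nat_lit 27) (.e (nat_lit 491560) (nat_lit 10) (.e (nat_lit 344089) (nat_lit 18) (.e (nat_lit 7136) (nat_lit 382) .nil)))))) (.g (nat_lit 5) .nil .nil))) 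
(.lf (nat_lit 29736) (.g (nat_lit 1561) (.e (nat_lit 1200) (nat_lit 88) (.e (nat_lit 65628) (nat_lit 14) (.e (nat_lit 401437) (nat_lit 9) (.e (nat_lit 426482) (nat_lit 27) .nil)))) .nil))) (.nd (nat_lit 5) 
(.lf (nat_lit 29720) (.g (nat_lit 384) (.e (nat_lit 1200) (nat_lit 88) (.e (nat_lit 65628) (nat_lit 14) (.e (nat_lit 401436) (nat_lit 9) .nil))) .nil)) 
(.lf (nat_lit 29752) (.g (nat_lit 2406) (.e (nat_lit 1200) (nat_lit 88) (.e (nat_lit 65628) (nat_lit 14) (.e (nat_lit 401437) (nat_lit 9) (.e (nat_lit 426544) (nat_lit 30) (.e (nat_lit 360449) (nat_lit 0) (.e (nat_lit 5896) (nat_lit 320) .nil)))))) (.g (nat_lit 4) .nil .nil)))))) (.nd (nat_lit 3) (.nd (nat_lit 4) (.nd (nat_lit 5) 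
(.lf (nat_lit 29700) (.g (nat_lit 1885) (.e (nat_lit 1200) (nat_lit 88) (.e (nat_lit 65626) (nat_lit 13) (.e (nat_lit 393300) (nat_lit 27) (.e (nat_lit 491560) (nat_lit 10) (.e (nat_lit 344090) (nat_lit 18) (.e (nat_lit 7236) (nat_lit 382) .nil)))))) (.g (nat_lit 4) .nil .nil))) 
(.lf (nat_lit 29732) (.g (nat_lit 3230) (.e (nat_lit 1200) (nat_lit 88) (.e (nat_lit 65628) (nat_lit 14) (.e (nat_lit 401436) (nat_lit 9) (.e (nat_lit 426555) (nat_lit 32) (.e (nat_lit 376859) (nat_lit 21) (.e (nat_lit 57873) (nat_lit 264) .nil)))))) (.g (nat_lit 0) .nil .nil)))) (.nd (nat_lit 5) 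
(.lf (nat_lit 29716) (.g (nat_lit 2249) (.e (nat_lit 1200) (nat_lit 88) (.e (nat_lit 65628) (nat_lit 14) (.e (nat_lit 401434) (nat_lit 9) (.e (nat_lit 426555) (nat_lit 32) (.e (nat_lit 376859) (nat_lit 21) .nil))))) .nil)) 
(.lf (nat_lit 29748) (.g (nat_lit 3244) (.e (nat_lit 1200) (nat_lit 88) (.e (nat_lit 65628) (nat_lit 14) (.e (nat_lit 401437) (nat_lit 9) (.e (nat_lit 426542) (nat_lit 29) (.e (nat_lit 352309) (nat_lit 21) (.e (nat_lit 57870) (nat_lit 264) .nil)))))) (.g (nat_lit 0) .nil .nil))))) (.nd (nat_lit 4) (.nd (nat_lit 5) 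
(.lf (nat_lit 29708) (.g (nat_lit 2117) (.e (nat_lit 1200) (nat_lit 88) (.e (nat_lit 65627) (nat_lit 13) (.e (nat_lit 393300) (nat_lit 27) (.e (nat_lit 491560) (nat_lit 10) (.e (nat_lit 344089) (nat_lit 18) .nil))))) .nil)) 
(.lf (nat_lit 29740) (.g (nat_lit 1509) (.e (nat_lit 1200) (nat_lit 88) (.e (nat_lit 65628) (nat_lit 14) (.e (nat_lit 401437) (nat_lit 9) (.e (nat_lit 426509) (nat_lit 27) (.e (nat_lit 336110) (nat_lit 9) .nil))))) .nil))) (.nd (nat_lit 5) 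
(.lf (nat_lit 29724) (.g (nat_lit 1853) (.e (nat_lit 1200) (nat_lit 88) (.e (nat_lit 65628) (nat_lit 14) (.e (nat_lit 401436) (nat_lit 9) (.e (nat_lit 426544) (nat_lit 30) (.e (nat_lit 368384) (nat_lit 0) (.e (nat_lit 5905) (nat_lit 320) .nil)))))) (.g (nat_lit 4) .nil .nil))) 
(.lf (nat_lit 29756) (.g (nat_lit 2558) (.e (nat_lit 1200) (nat_lit 88) (.e (nat_lit 65628) (nat_lit 14) (.e (nat_lit 401437) (nat_lit 9) (.e (nat_lit 426546) (nat_lit 30) (.e (nat_lit 360449) (nat_lit 0) (.e (nat_lit 5896) (nat_lit 320) .nil)))))) (.g (nat_lit 4) .nil .nil))))))) (.nd (nat_lit 2) (.nd (nat_lit 3) (.nd (nat_lit 4) (.nd (nat_lit 5) 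
(.lf (nat_lit 29698) (.g (nat_lit 2146) (.e (nat_lit 1200) (nat_lit 88) (.e (nat_lit 65626) (nat_lit 13) (.e (nat_lit 393300) (nat_lit 27) (.e (nat_lit 491560) (nat_lit 10) (.e (nat_lit 344089) (nat_lit 18) .nil))))) .nil)) 
(.lf (nat_lit 29730) (.g (nat_lit 2936) (.e (nat_lit 1200) (nat_lit 88) (.e (nat_lit 65628) (nat_lit 14) (.e (nat_lit 401436) (nat_lit 9) (.e (nat_lit 426555) (nat_lit 32) (.e (nat_lit 376859) (nat_lit 21) (.e (nat_lit 57870) (nat_lit 264) .nil)))))) (.g (nat_lit 6) .nil .nil)))) (.nd (nat_lit 5) 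
(.lf (nat_lit 29714) (.g (nat_lit 3678) (.e (nat_lit 1200) (nat_lit 88) (.e (nat_lit 65628) (nat_lit 14) (.e (nat_lit 401428) (nat_lit 3) (.e (nat_lit 204869) (nat_lit 29) (.e (nat_lit 360455) (nat_lit 0) (.e (nat_lit 3962) (nat_lit 239) .nil)))))) (.g (nat_lit 5) .nil .nil))) 
(.lf (nat_lit 29746) (.g (nat_lit 3840) (.e (nat_lit 1200) (nat_lit 88) (.e (nat_lit 65628) (nat_lit 14) (.e (nat_lit 401437) (nat_lit 9) (.e (nat_lit 426542) (nat_lit 29) (.e (nat_lit 352307) (nat_lit 21) (.e (nat_lit 57871) (nat_lit 264) .nil)))))) (.g (nat_lit 0) .nil .nil))))) (.nd (nat_lit 4) (.nd (nat_lit 5) 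
(.lf (nat_lit 29706) (.g (nat_lit 2488) (.e (nat_lit 1200) (nat_lit 88) (.e (nat_lit 65627) (nat_lit 13) (.e (nat_lit 393298) (nat_lit 27) (.e (nat_lit 491566) (nat_lit 12) (.e (nat_lit 385045) (nat_lit 21) .nil))))) .nil)) 
(.lf (nat_lit 29738) (.g (nat_lit 2005) (.e (nat_lit 1200) (nat_lit 88) (.e (nat_lit 65628) (nat_lit 14) (.e (nat_lit 401437) (nat_lit 9) (.e (nat_lit 426486) (nat_lit 27) .nil)))) .nil))) (.nd (nat_lit 5) 
(.lf (nat_lit 29722) (.g (nat_lit 2886) (.e (nat_lit 1200) (nat_lit 88) (.e (nat_lit 65628) (nat_lit 14) (.e (nat_lit 401436) (nat_lit 9) (.e (nat_lit 426542) (nat_lit 29) (.e (nat_lit 352309) (nat_lit 21) (.e (nat_lit 57871) (nat_lit 264) .nil)))))) (.g (nat_lit 6) .nil .nil))) 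
(.lf (nat_lit 29754) (.g (nat_lit 2536) (.e (nat_lit 1200) (nat_lit 88) (.e (nat_lit 65628) (nat_lit 14) (.e (nat_lit 401437) (nat_lit 9) (.e (nat_lit 426544) (nat_lit 30) (.e (nat_lit 368384) (nat_lit 0) (.e (nat_lit 5905) (nat_lit 320) .nil)))))) (.g (nat_lit 4) .nil .nil)))))) (.nd (nat_lit 3) (.nd (nat_lit 4) (.nd (nat_lit 5) 
(.lf (nat_lit 29702) (.g (nat_lit 2767) (.e (nat_lit 1200) (nat_lit 88) (.e (nat_lit 65626) (nat_lit 13) (.e (nat_lit 393301) (nat_lit 27) (.e (nat_lit 491558) (nat_lit 10) (.e (nat_lit 344091) (nat_lit 18) .nil))))) .nil)) 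
(.lf (nat_lit 29734) (.g (nat_lit 1742) (.e (nat_lit 1200) (nat_lit 88) (.e (nat_lit 65628) (nat_lit 14) (.e (nat_lit 401436) (nat_lit 9) (.e (nat_lit 426556) (nat_lit 32) (.e (nat_lit 376859) (nat_lit 21) (.e (nat_lit 57872) (nat_lit 264) .nil)))))) (.g (nat_lit 5) .nil .nil)))) (.nd (nat_lit 5) 
(.lf (nat_lit 29718) (.g (nat_lit 2087) (.e (nat_lit 1200) (nat_lit 88) (.e (nat_lit 65628) (nat_lit 14) (.e (nat_lit 401435) (nat_lit 9) (.e (nat_lit 426555) (nat_lit 32) (.e (nat_lit 376859) (nat_lit 21) (.e (nat_lit 57872) (nat_lit 264) .nil)))))) (.g (nat_lit 4) .nil .nil))) 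
(.lf (nat_lit 29750) (.g (nat_lit 3632) (.e (nat_lit 1200) (nat_lit 88) (.e (nat_lit 65628) (nat_lit 14) (.e (nat_lit 401437) (nat_lit 9) (.e (nat_lit 426542) (nat_lit 29) (.e (nat_lit 352309) (nat_lit 21) (.e (nat_lit 57872) (nat_lit 264) .nil)))))) (.g (nat_lit 0) .nil .nil))))) (.nd (nat_lit 4) (.nd (nat_lit 5) 
(.lf (nat_lit 29710) (.g (nat_lit 2995) (.e (nat_lit 1200) (nat_lit 88) (.e (nat_lit 65627) (nat_lit 13) (.e (nat_lit 393301) (nat_lit 27) (.e (nat_lit 491560) (nat_lit 10) (.e (nat_lit 344089) (nat_lit 18) (.e (nat_lit 7136) (nat_lit 382) .nil)))))) (.g (nat_lit 4) .nil .nil))) 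
(.lf (nat_lit 29742) (.g (nat_lit 3000) (.e (nat_lit 1200) (nat_lit 88) (.e (nat_lit 65628) (nat_lit 14) (.e (nat_lit 401437) (nat_lit 9) (.e (nat_lit 426538) (nat_lit 29) (.e (nat_lit 352309) (nat_lit 21) (.e (nat_lit 57872) (nat_lit 264) .nil)))))) (.g (nat_lit 5) .nil .nil)))) (.nd (nat_lit 5) 
(.lf (nat_lit 29726) (.g (nat_lit 2905) (.e (nat_lit 1200) (nat_lit 88) (.e (nat_lit 65628) (nat_lit 14) (.e (nat_lit 401436) (nat_lit 9) (.e (nat_lit 426546) (nat_lit 30) (.e (nat_lit 360452) (nat_lit 0) (.e (nat_lit 5907) (nat_lit 320) .nil)))))) (.g (nat_lit 0) .nil .nil))) 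
(.lf (nat_lit 29758) (.g (nat_lit 3637) (.e (nat_lit 1200) (nat_lit 88) (.e (nat_lit 65628) (nat_lit 14) (.e (nat_lit 401437) (nat_lit 9) (.e (nat_lit 426555) (nat_lit 32) (.e (nat_lit 376857) (nat_lit 21) (.e (nat_lit 57870) (nat_lit 264) .nil)))))) (.g (nat_lit 0) .nil .nil)))))))) (.nd (nat_lit 1) (.nd (nat_lit 2) (.nd (nat_lit 3) (.nd (nat_lit 4) (.nd (nat_lit 5) 
(.lf (nat_lit 29697) (.g (nat_lit 1075) (.e (nat_lit 1200) (nat_lit 88) (.e (nat_lit 65626) (nat_lit 13) (.e (nat_lit 393300) (nat_lit 27) (.e (nat_lit 491560) (nat_lit 10) .nil)))) .nil)) 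
(.lf (nat_lit 29729) (.g (nat_lit 3309) (.e (nat_lit 1200) (nat_lit 88) (.e (nat_lit 65628) (nat_lit 14) (.e (nat_lit 401436) (nat_lit 9) (.e (nat_lit 426555) (nat_lit 32) (.e (nat_lit 376857) (nat_lit 21) (.e (nat_lit 57873) (nat_lit 264) .nil)))))) (.g (nat_lit 0) .nil .nil)))) (.nd (nat_lit 5) 
(.lf (nat_lit 29713) (.g (nat_lit 3565) (.e (nat_lit 1200) (nat_lit 88) (.e (nat_lit 65628) (nat_lit 14) (.e (nat_lit 401428) (nat_lit 3) (.e (nat_lit 204869) (nat_lit 29) (.e (nat_lit 360448) (nat_lit 0) (.e (nat_lit 3975) (nat_lit 239) .nil)))))) (.g (nat_lit 5) .nil .nil))) 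
(.lf (nat_lit 29745) (.g (nat_lit 3310) (.e (nat_lit 1200) (nat_lit 88) (.e (nat_lit 65628) (nat_lit 14) (.e (nat_lit 401437) (nat_lit 9) (.e (nat_lit 426542) (nat_lit 29) (.e (nat_lit 352307) (nat_lit 21) (.e (nat_lit 57870) (nat_lit 264) .nil)))))) (.g (nat_lit 0) .nil .nil))))) (.nd (nat_lit 4) (.nd (nat_lit 5) 
(.lf (nat_lit 29705) (.g (nat_lit 3224) (.e (nat_lit 1200) (nat_lit 88) (.e (nat_lit 65626) (nat_lit 13) (.e (nat_lit 393301) (nat_lit 27) (.e (nat_lit 491560) (nat_lit 10) (.e (nat_lit 344090) (nat_lit 18) .nil))))) .nil)) 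
(.lf (nat_lit 29737) (.g (nat_lit 2906) (.e (nat_lit 1200) (nat_lit 88) (.e (nat_lit 65628) (nat_lit 14) (.e (nat_lit 401437) (nat_lit 9) (.e (nat_lit 426482) (nat_lit 27) (.e (nat_lit 336140) (nat_lit 9) (.e (nat_lit 335995) (nat_lit 1) (.e (nat_lit 57872) (nat_lit 264) .nil))))))) (.g (nat_lit 4) .nil .nil)))) (.nd (nat_lit 5) 
(.lf (nat_lit 29721) (.g (nat_lit 3179) (.e (nat_lit 1200) (nat_lit 88) (.e (nat_lit 65628) (nat_lit 14) (.e (nat_lit 401436) (nat_lit 9) (.e (nat_lit 426542) (nat_lit 29) (.e (nat_lit 352307) (nat_lit 21) (.e (nat_lit 57871) (nat_lit 264) .nil)))))) (.g (nat_lit 0) .nil .nil))) 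
(.lf (nat_lit 29753) (.g (nat_lit 1956) (.e (nat_lit 1200) (nat_lit 88) (.e (nat_lit 65628) (nat_lit 14) (.e (nat_lit 401437) (nat_lit 9) (.e (nat_lit 426544) (nat_lit 30) (.e (nat_lit 360453) (nat_lit 0) (.e (nat_lit 5905) (nat_lit 320) .nil)))))) (.g (nat_lit 4) .nil .nil)))))) (.nd (nat_lit 3) (.nd (nat_lit 4) (.nd (nat_lit 5) 
(.lf (nat_lit 29701) (.g (nat_lit 1861) (.e (nat_lit 1200) (nat_lit 88) (.e (nat_lit 65626) (nat_lit 13) (.e (nat_lit 393300) (nat_lit 27) (.e (nat_lit 491560) (nat_lit 10) (.e (nat_lit 344091) (nat_lit 18) .nil))))) .nil)) 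
(.lf (nat_lit 29733) (.g (nat_lit 2971) (.e (nat_lit 1200) (nat_lit 88) (.e (nat_lit 65628) (nat_lit 14) (.e (nat_lit 401436) (nat_lit 9) (.e (nat_lit 426555) (nat_lit 32) (.e (nat_lit 376860) (nat_lit 21) (.e (nat_lit 57870) (nat_lit 264) .nil)))))) (.g (nat_lit 6) .nil .nil)))) (.nd (nat_lit 5) 
(.lf (nat_lit 29717) (.g (nat_lit 1455) (.e (nat_lit 1200) (nat_lit 88) (.e (nat_lit 65628) (nat_lit 14) (.e (nat_lit 401435) (nat_lit 9) (.e (nat_lit 426546) (nat_lit 30) .nil)))) .nil)) 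
(.lf (nat_lit 29749) (.g (nat_lit 3535) (.e (nat_lit 1200) (nat_lit 88) (.e (nat_lit 65628) (nat_lit 14) (.e (nat_lit 401437) (nat_lit 9) (.e (nat_lit 426542) (nat_lit 29) (.e (nat_lit 352309) (nat_lit 21) (.e (nat_lit 57871) (nat_lit 264) .nil)))))) (.g (nat_lit 6) .nil .nil))))) (.nd (nat_lit 4) (.nd (nat_lit 5) 
(.lf (nat_lit 29709) (.g (nat_lit 2682) (.e (nat_lit 1200) (nat_lit 88) (.e (nat_lit 65627) (nat_lit 13) (.e (nat_lit 393301) (nat_lit 27) (.e (nat_lit 491560) (nat_lit 10) (.e (nat_lit 344089) (nat_lit 18) .nil))))) .nil)) 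
(.lf (nat_lit 29741) (.g (nat_lit 1871) (.e (nat_lit 1200) (nat_lit 88) (.e (nat_lit 65628) (nat_lit 14) (.e (nat_lit 401437) (nat_lit 9) (.e (nat_lit 426538) (nat_lit 29) (.e (nat_lit 352309) (nat_lit 21) .nil))))) .nil))) (.nd (nat_lit 5) 
(.lf (nat_lit 29725) (.g (nat_lit 729) (.e (nat_lit 1200) (nat_lit 88) (.e (nat_lit 65628) (nat_lit 14) (.e (nat_lit 401436) (nat_lit 9) (.e (nat_lit 426546) (nat_lit 30) .nil)))) .nil)) 
(.lf (nat_lit 29757) (.g (nat_lit 3601) (.e (nat_lit 1200) (nat_lit 88) (.e (nat_lit 65628) (nat_lit 14) (.e (nat_lit 401437) (nat_lit 9) (.e (nat_lit 426546) (nat_lit 30) (.e (nat_lit 360452) (nat_lit 0) (.e (nat_lit 5905) (nat_lit 320) .nil)))))) (.g (nat_lit 6) .nil .nil))))))) (.nd (nat_lit 2) (.nd (nat_lit 3) (.nd (nat_lit 4) (.nd (nat_lit 5) 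
(.lf (nat_lit 29699) (.g (nat_lit 2947) (.e (nat_lit 1200) (nat_lit 88) (.e (nat_lit 65626) (nat_lit 13) (.e (nat_lit 393300) (nat_lit 27) (.e (nat_lit 491560) (nat_lit 10) (.e (nat_lit 344089) (nat_lit 18) (.e (nat_lit 7136) (nat_lit 382) .nil)))))) (.g (nat_lit 5) .nil .nil))) 
(.lf (nat_lit 29731) (.g (nat_lit 3137) (.e (nat_lit 1200) (nat_lit 88) (.e (nat_lit 65628) (nat_lit 14) (.e (nat_lit 401436) (nat_lit 9) (.e (nat_lit 426555) (nat_lit 32) (.e (nat_lit 376859) (nat_lit 21) (.e (nat_lit 57872) (nat_lit 264) .nil)))))) (.g (nat_lit 0) .nil .nil)))) (.nd (nat_lit 5) 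
(.lf (nat_lit 29715) (.g (nat_lit 2160) (.e (nat_lit 1200) (nat_lit 88) (.e (nat_lit 65628) (nat_lit 14) (.e (nat_lit 401434) (nat_lit 9) (.e (nat_lit 426555) (nat_lit 32) (.e (nat_lit 376857) (nat_lit 21) .nil))))) .nil)) 
(.lf (nat_lit 29747) (.g (nat_lit 3630) (.e (nat_lit 1200) (nat_lit 88) (.e (nat_lit 65628) (nat_lit 14) (.e (nat_lit 401437) (nat_lit 9) (.e (nat_lit 426542) (nat_lit 29) (.e (nat_lit 352307) (nat_lit 21) (.e (nat_lit 57872) (nat_lit 264) .nil)))))) (.g (nat_lit 0) .nil .nil))))) (.nd (nat_lit 4) (.nd (nat_lit 5) 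
(.lf (nat_lit 29707) (.g (nat_lit 2723) (.e (nat_lit 1200) (nat_lit 88) (.e (nat_lit 65627) (nat_lit 13) (.e (nat_lit 393298) (nat_lit 27) (.e (nat_lit 491566) (nat_lit 12) (.e (nat_lit 385045) (nat_lit 21) (.e (nat_lit 4439) (nat_lit 263) .nil)))))) (.g (nat_lit 4) .nil .nil))) 
(.lf (nat_lit 29739) (.g (nat_lit 1876) (.e (nat_lit 1200) (nat_lit 88) (.e (nat_lit 65628) (nat_lit 14) (.e (nat_lit 401437) (nat_lit 9) (.e (nat_lit 426489) (nat_lit 27) .nil)))) .nil))) (.nd (nat_lit 5) 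
(.lf (nat_lit 29723) (.g (nat_lit 2977) (.e (nat_lit 1200) (nat_lit 88) (.e (nat_lit 65628) (nat_lit 14) (.e (nat_lit 401436) (nat_lit 9) (.e (nat_lit 426544) (nat_lit 30) (.e (nat_lit 360453) (nat_lit 0) (.e (nat_lit 5907) (nat_lit 320) .nil)))))) (.g (nat_lit 0) .nil .nil))) 
(.lf (nat_lit 29755) (.g (nat_lit 2302) (.e (nat_lit 1200) (nat_lit 88) (.e (nat_lit 65628) (nat_lit 14) (.e (nat_lit 401437) (nat_lit 9) (.e (nat_lit 426546) (nat_lit 30) (.e (nat_lit 360448) (nat_lit 0) .nil))))) .nil))))) (.nd (nat_lit 3) (.nd (nat_lit 4) (.nd (nat_lit 5) 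
(.lf (nat_lit 29703) (.g (nat_lit 2942) (.e (nat_lit 1200) (nat_lit 88) (.e (nat_lit 65626) (nat_lit 13) (.e (nat_lit 393301) (nat_lit 27) (.e (nat_lit 491560) (nat_lit 10) (.e (nat_lit 344089) (nat_lit 18) .nil))))) .nil)) 
(.lf (nat_lit 29735) (.g (nat_lit 412) (.e (nat_lit 1200) (nat_lit 88) (.e (nat_lit 65628) (nat_lit 14) (.e (nat_lit 401437) (nat_lit 9) .nil))) .nil))) (.nd (nat_lit 5) 
(.lf (nat_lit 29719) (.g (nat_lit 2172) (.e (nat_lit 1200) (nat_lit 88) (.e (nat_lit 65628) (nat_lit 14) (.e (nat_lit 401435) (nat_lit 9) (.e (nat_lit 426555) (nat_lit 32) (.e (nat_lit 376859) (nat_lit 21) (.e (nat_lit 57873) (nat_lit 264) .nil)))))) (.g (nat_lit 4) .nil .nil))) 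
(.lf (nat_lit 29751) (.g (nat_lit 1086) (.e (nat_lit 1200) (nat_lit 88) (.e (nat_lit 65628) (nat_lit 14) (.e (nat_lit 401437) (nat_lit 9) (.e (nat_lit 426544) (nat_lit 30) .nil)))) .nil)))) (.nd (nat_lit 4) (.nd (nat_lit 5) 
(.lf (nat_lit 29711) (.g (nat_lit 2173) (.e (nat_lit 1200) (nat_lit 88) (.e (nat_lit 65628) (nat_lit 14) (.e (nat_lit 401428) (nat_lit 3) (.e (nat_lit 204869) (nat_lit 29) (.e (nat_lit 360448) (nat_lit 0) .nil))))) .nil)) 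
(.lf (nat_lit 29743) (.g (nat_lit 1762) (.e (nat_lit 1200) (nat_lit 88) (.e (nat_lit 65628) (nat_lit 14) (.e (nat_lit 401437) (nat_lit 9) (.e (nat_lit 426539) (nat_lit 29) .nil)))) .nil))) (.nd (nat_lit 5) 
(.lf (nat_lit 29727) (.g (nat_lit 3140) (.e (nat_lit 1200) (nat_lit 88) (.e (nat_lit 65628) (nat_lit 14) (.e (nat_lit 401436) (nat_lit 9) (.e (nat_lit 426555) (nat_lit 32) (.e (nat_lit 376857) (nat_lit 21) (.e (nat_lit 57870) (nat_lit 264) .nil)))))) (.g (nat_lit 6) .nil .nil))) 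
(.lf (nat_lit 29759) (.g (nat_lit 3588) (.e (nat_lit 1200) (nat_lit 88) (.e (nat_lit 65628) (nat_lit 14) (.e (nat_lit 401437) (nat_lit 9) (.e (nat_lit 426555) (nat_lit 32) (.e (nat_lit 376857) (nat_lit 21) (.e (nat_lit 57872) (nat_lit 264) .nil)))))) (.g (nat_lit 0) .nil .nil)))))))))


end

end Pool.Agent.Lib.MP_5854e1_co.Cz
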