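import Pool.Agent.Lib.MP_5854e1_co.DtD

/-!
# Windows and cells of the rings
-/

set_option autoImplicit false
set_option maxRecDepth 100000
set_option deprecated.oldSectionVars true

namespace Pool.Agent.Lib.MP_5854e1_co.Cz

open Pool.Agent.Lib.MP_5854e1_co

noncomputable section

noncomputable def tv413 : DT := (.nd (nat_lit 0) (.nd (nat_lit 1) (.nd (nat_lit 2) (.nd (nat_lit 3) (.nd (nat_lit 4) (.nd (nat_lit 5) 
(.lf (nat_lit 29760) (.g (nat_lit 3476) (.e (nat_lit 1200) (nat_lit 88) (.e (nat_lit 65628) (nat_lit 14) (.e (nat_lit 401437) (nat_lit 9) (.e (nat_lit 426555) (nat_lit 32) (.e (nat_lit 376859) (nat_lit 21) (.e (nat_lit 57870) (nat_lit 264) .nil)))))) (.g (nat_lit 0) .nil .nil))) 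
(.lf (nat_lit 29792) (.g (nat_lit 1887) (.e (nat_lit 1200) (nat_lit 88) (.e (nat_lit 65628) (nat_lit 14) (.e (nat_lit 401456) (nat_lit 13) (.e (nat_lit 483393) (nat_lit 23) .nil)))) .nil))) (.nd (nat_lit 5) 
(.lf (nat_lit 29776) (.g (nat_lit 2172) (.e (nat_lit 1200) (nat_lit 88) (.e (nat_lit 65628) (nat_lit 14) (.e (nat_lit 401438) (nat_lit 9) (.e (nat_lit 426546) (nat_lit 30) (.e (nat_lit 368384) (nat_lit 0) (.e (nat_lit 5905) (nat_lit 320) .nil)))))) (.g (nat_lit 4) .nil .nil))) 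
(.lf (nat_lit 29808) (.g (nat_lit 2177) (.e (nat_lit 1200) (nat_lit 88) (.e (nat_lit 65628) (nat_lit 14) (.e (nat_lit 401457) (nat_lit 13) (.e (nat_lit 483393) (nat_lit 23) (.e (nat_lit 335986) (nat_lit 1) (.e (nat_lit 57870) (nat_lit 264) .nil)))))) (.g (nat_lit 4) .nil .nil))))) (.nd (nat_lit 4) (.nd (nat_lit 5) 
(.lf (nat_lit 29768) (.g (nat_lit 3623) (.e (nat_lit 1200) (nat_lit 88) (.e (nat_lit 65628) (nat_lit 14) (.e (nat_lit 401438) (nat_lit 9) (.e (nat_lit 426542) (nat_lit 29) (.e (nat_lit 352307) (nat_lit 21) (.e (nat_lit 57871) (nat_lit 264) .nil)))))) (.g (nat_lit 0) .nil .nil))) 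
(.lf (nat_lit 29800) (.g (nat_lit 2001) (.e (nat_lit 1200) (nat_lit 88) (.e (nat_lit 65628) (nat_lit 14) (.e (nat_lit 401457) (nat_lit 13) (.e (nat_lit 483383) (nat_lit 23) (.e (nat_lit 335878) (nat_lit 0) .nil))))) .nil))) (.nd (nat_lit 5) 
(.lf (nat_lit 29784) (.g (nat_lit 3435) (.e (nat_lit 1200) (nat_lit 88) (.e (nat_lit 65628) (nat_lit 14) (.e (nat_lit 401438) (nat_lit 9) (.e (nat_lit 426555) (nat_lit 32) (.e (nat_lit 376860) (nat_lit 21) (.e (nat_lit 57870) (nat_lit 264) .nil)))))) (.g (nat_lit 6) .nil .nil))) 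
(.lf (nat_lit 29816) (.g (nat_lit 3457) (.e (nat_lit 1200) (nat_lit 88) (.e (nat_lit 65628) (nat_lit 14) (.e (nat_lit 401457) (nat_lit 13) (.e (nat_lit 483393) (nat_lit 23) (.e (nat_lit 335996) (nat_lit 1) (.e (nat_lit 57870) (nat_lit 264) .nil)))))) (.g (nat_lit 6) .nil .nil)))))) (.nd (nat_lit 3) (.nd (nat_lit 4) (.nd (nat_lit 5) 
(.lf (nat_lit 29764) (.g (nat_lit 3421) (.e (nat_lit 1200) (nat_lit 88) (.e (nat_lit 65628) (nat_lit 14) (.e (nat_lit 401437) (nat_lit 9) (.e (nat_lit 426555) (nat_lit 32) (.e (nat_lit 376860) (nat_lit 21) (.e (nat_lit 57870) (nat_lit 264) .nil)))))) (.g (nat_lit 6) .nil .nil))) 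
(.lf (nat_lit 29796) (.g (nat_lit 2426) (.e (nat_lit 1200) (nat_lit 88) (.e (nat_lit 65628) (nat_lit 14) (.e (nat_lit 401456) (nat_lit 13) (.e (nat_lit 483395) (nat_lit 24) (.e (nat_lit 344097) (nat_lit 18) (.e (nat_lit 5906) (nat_lit 320) .nil)))))) (.g (nat_lit 4) .nil .nil)))) (.nd (nat_lit 5) 
(.lf (nat_lit 29780) (.g (nat_lit 3473) (.e (nat_lit 1200) (nat_lit 88) (.e (nat_lit 65628) (nat_lit 14) (.e (nat_lit 401438) (nat_lit 9) (.e (nat_lit 426555) (nat_lit 32) (.e (nat_lit 376859) (nat_lit 21) (.e (nat_lit 57870) (nat_lit 264) .nil)))))) (.g (nat_lit 6) .nil .nil))) 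
(.lf (nat_lit 29812) (.g (nat_lit 3120) (.e (nat_lit 1200) (nat_lit 88) (.e (nat_lit 65628) (nat_lit 14) (.e (nat_lit 401457) (nat_lit 13) (.e (nat_lit 483393) (nat_lit 23) (.e (nat_lit 335988) (nat_lit 1) (.e (nat_lit 57870) (nat_lit 264) .nil)))))) (.g (nat_lit 5) .nil .nil))))) (.nd (nat_lit 4) (.nd (nat_lit 5) 
(.lf (nat_lit 29772) (.g (nat_lit 3464) (.e (nat_lit 1200) (nat_lit 88) (.e (nat_lit 65628) (nat_lit 14) (.e (nat_lit 401438) (nat_lit 9) (.e (nat_lit 426542) (nat_lit 29) (.e (nat_lit 352309) (nat_lit 21) (.e (nat_lit 57872) (nat_lit 264) .nil)))))) (.g (nat_lit 0) .nil .nil))) 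
(.lf (nat_lit 29804) (.g (nat_lit 1402) (.e (nat_lit 1200) (nat_lit 88) (.e (nat_lit 65628) (nat_lit 14) (.e (nat_lit 401457) (nat_lit 13) (.e (nat_lit 483387) (nat_lit 23) .nil)))) .nil))) (.nd (nat_lit 5) 
(.lf (nat_lit 29788) (.g (nat_lit 2652) (.e (nat_lit 1200) (nat_lit 88) (.e (nat_lit 65628) (nat_lit 14) (.e (nat_lit 401454) (nat_lit 12) (.e (nat_lit 475142) (nat_lit 8) .nil)))) .nil)) 
(.lf (nat_lit 29820) (.g (nat_lit 3206) (.e (nat_lit 1200) (nat_lit 88) (.e (nat_lit 65628) (nat_lit 14) (.e (nat_lit 401457) (nat_lit 13) (.e (nat_lit 483395) (nat_lit 24) (.e (nat_lit 344097) (nat_lit 18) (.e (nat_lit 5905) (nat_lit 320) .nil)))))) (.g (nat_lit 6) .nil .nil))))))) (.nd (nat_lit 2) (.nd (nat_lit 3) (.nd (nat_lit 4) (.nd (nat_lit 5) 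
(.lf (nat_lit 29762) (.g (nat_lit 3658) (.e (nat_lit 1200) (nat_lit 88) (.e (nat_lit 65628) (nat_lit 14) (.e (nat_lit 401437) (nat_lit 9) (.e (nat_lit 426555) (nat_lit 32) (.e (nat_lit 376859) (nat_lit 21) (.e (nat_lit 57872) (nat_lit 264) .nil)))))) (.g (nat_lit 0) .nil .nil))) 
(.lf (nat_lit 29794) (.g (nat_lit 2245) (.e (nat_lit 1200) (nat_lit 88) (.e (nat_lit 65628) (nat_lit 14) (.e (nat_lit 401456) (nat_lit 13) (.e (nat_lit 483395) (nat_lit 24) (.e (nat_lit 344090) (nat_lit 18) .nil))))) .nil))) (.nd (nat_lit 5) 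
(.lf (nat_lit 29778) (.g (nat_lit 3529) (.e (nat_lit 1200) (nat_lit 88) (.e (nat_lit 65628) (nat_lit 14) (.e (nat_lit 401438) (nat_lit 9) (.e (nat_lit 426555) (nat_lit 32) (.e (nat_lit 376857) (nat_lit 21) (.e (nat_lit 57872) (nat_lit 264) .nil)))))) (.g (nat_lit 6) .nil .nil))) 
(.lf (nat_lit 29810) (.g (nat_lit 2634) (.e (nat_lit 1200) (nat_lit 88) (.e (nat_lit 65628) (nat_lit 14) (.e (nat_lit 401457) (nat_lit 13) (.e (nat_lit 483393) (nat_lit 23) (.e (nat_lit 335986) (nat_lit 1) (.e (nat_lit 57872) (nat_lit 264) .nil)))))) (.g (nat_lit 5) .nil .nil))))) (.nd (nat_lit 4) (.nd (nat_lit 5) 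
(.lf (nat_lit 29770) (.g (nat_lit 3069) (.e (nat_lit 1200) (nat_lit 88) (.e (nat_lit 65628) (nat_lit 14) (.e (nat_lit 401438) (nat_lit 9) (.e (nat_lit 426542) (nat_lit 29) (.e (nat_lit 352309) (nat_lit 21) (.e (nat_lit 57870) (nat_lit 264) .nil)))))) (.g (nat_lit 0) .nil .nil))) 
(.lf (nat_lit 29802) (.g (nat_lit 2537) (.e (nat_lit 1200) (nat_lit 88) (.e (nat_lit 65628) (nat_lit 14) (.e (nat_lit 401457) (nat_lit 13) (.e (nat_lit 483383) (nat_lit 23) (.e (nat_lit 336000) (nat_lit 1) (.e (nat_lit 57872) (nat_lit 264) .nil)))))) (.g (nat_lit 5) .nil .nil)))) (.nd (nat_lit 5) 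
(.lf (nat_lit 29786) (.g (nat_lit 3481) (.e (nat_lit 1200) (nat_lit 88) (.e (nat_lit 65628) (nat_lit 14) (.e (nat_lit 401448) (nat_lit 10) (.e (nat_lit 434289) (nat_lit 43) (.e (nat_lit 696344) (nat_lit 8) .nil))))) .nil)) 
(.lf (nat_lit 29818) (.g (nat_lit 2743) (.e (nat_lit 1200) (nat_lit 88) (.e (nat_lit 65628) (nat_lit 14) (.e (nat_lit 401457) (nat_lit 13) (.e (nat_lit 483394) (nat_lit 24) (.e (nat_lit 344097) (nat_lit 18) (.e (nat_lit 5907) (nat_lit 320) .nil)))))) (.g (nat_lit 5) .nil .nil)))))) (.nd (nat_lit 3) (.nd (nat_lit 4) (.nd (nat_lit 5) 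
(.lf (nat_lit 29766) (.g (nat_lit 2374) (.e (nat_lit 1200) (nat_lit 88) (.e (nat_lit 65628) (nat_lit 14) (.e (nat_lit 401437) (nat_lit 9) (.e (nat_lit 426556) (nat_lit 32) (.e (nat_lit 376859) (nat_lit 21) (.e (nat_lit 57872) (nat_lit 264) .nil)))))) (.g (nat_lit 4) .nil .nil))) 
(.lf (nat_lit 29798) (.g (nat_lit 405) (.e (nat_lit 1200) (nat_lit 88) (.e (nat_lit 65628) (nat_lit 14) (.e (nat_lit 401457) (nat_lit 13) .nil))) .nil))) (.nd (nat_lit 5) 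
(.lf (nat_lit 29782) (.g (nat_lit 3668) (.e (nat_lit 1200) (nat_lit 88) (.e (nat_lit 65628) (nat_lit 14) (.e (nat_lit 401438) (nat_lit 9) (.e (nat_lit 426555) (nat_lit 32) (.e (nat_lit 376859) (nat_lit 21) (.e (nat_lit 57872) (nat_lit 264) .nil)))))) (.g (nat_lit 6) .nil .nil))) 
(.lf (nat_lit 29814) (.g (nat_lit 2882) (.e (nat_lit 1200) (nat_lit 88) (.e (nat_lit 65628) (nat_lit 14) (.e (nat_lit 401457) (nat_lit 13) (.e (nat_lit 483393) (nat_lit 23) (.e (nat_lit 335995) (nat_lit 1) (.e (nat_lit 57870) (nat_lit 264) .nil)))))) (.g (nat_lit 5) .nil .nil))))) (.nd (nat_lit 4) (.nd (nat_lit 5) 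
(.lf (nat_lit 29774) (.g (nat_lit 1056) (.e (nat_lit 1200) (nat_lit 88) (.e (nat_lit 65628) (nat_lit 14) (.e (nat_lit 401438) (nat_lit 9) (.e (nat_lit 426546) (nat_lit 30) .nil)))) .nil)) 
(.lf (nat_lit 29806) (.g (nat_lit 2094) (.e (nat_lit 1200) (nat_lit 88) (.e (nat_lit 65628) (nat_lit 14) (.e (nat_lit 401457) (nat_lit 13) (.e (nat_lit 483389) (nat_lit 23) (.e (nat_lit 335997) (nat_lit 1) (.e (nat_lit 57872) (nat_lit 264) .nil)))))) (.g (nat_lit 4) .nil .nil)))) (.nd (nat_lit 5) 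
(.lf (nat_lit 29790) (.g (nat_lit 2430) (.e (nat_lit 1200) (nat_lit 88) (.e (nat_lit 65628) (nat_lit 14) (.e (nat_lit 401454) (nat_lit 12) (.e (nat_lit 475154) (nat_lit 20) .nil)))) .nil)) 
(.lf (nat_lit 29822) (.g (nat_lit 2369) (.e (nat_lit 1200) (nat_lit 88) (.e (nat_lit 65628) (nat_lit 14) (.e (nat_lit 401457) (nat_lit 13) (.e (nat_lit 483413) (nat_lit 27) (.e (nat_lit 401420) (nat_lit 1) .nil))))) .nil))))))) (.nd (nat_lit 1) (.nd (nat_lit 2) (.nd (nat_lit 3) (.nd (nat_lit 4) (.nd (nat_lit 5) 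
(.lf (nat_lit 29761) (.g (nat_lit 2659) (.e (nat_lit 1200) (nat_lit 88) (.e (nat_lit 65628) (nat_lit 14) (.e (nat_lit 401437) (nat_lit 9) (.e (nat_lit 426555) (nat_lit 32) (.e (nat_lit 376859) (nat_lit 21) (.e (nat_lit 57871) (nat_lit 264) .nil)))))) (.g (nat_lit 4) .nil .nil))) 
(.lf (nat_lit 29793) (.g (nat_lit 1765) (.e (nat_lit 1200) (nat_lit 88) (.e (nat_lit 65628) (nat_lit 14) (.e (nat_lit 401456) (nat_lit 13) (.e (nat_lit 483394) (nat_lit 24) .nil)))) .nil))) (.nd (nat_lit 5) 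
(.lf (nat_lit 29777) (.g (nat_lit 3607) (.e (nat_lit 1200) (nat_lit 88) (.e (nat_lit 65628) (nat_lit 14) (.e (nat_lit 401438) (nat_lit 9) (.e (nat_lit 426555) (nat_lit 32) (.e (nat_lit 376857) (nat_lit 21) (.e (nat_lit 57870) (nat_lit 264) .nil)))))) (.g (nat_lit 6) .nil .nil))) 
(.lf (nat_lit 29809) (.g (nat_lit 2902) (.e (nat_lit 1200) (nat_lit 88) (.e (nat_lit 65628) (nat_lit 14) (.e (nat_lit 401457) (nat_lit 13) (.e (nat_lit 483393) (nat_lit 23) (.e (nat_lit 335986) (nat_lit 1) (.e (nat_lit 57871) (nat_lit 264) .nil)))))) (.g (nat_lit 5) .nil .nil))))) (.nd (nat_lit 4) (.nd (nat_lit 5) 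
(.lf (nat_lit 29769) (.g (nat_lit 3414) (.e (nat_lit 1200) (nat_lit 88) (.e (nat_lit 65628) (nat_lit 14) (.e (nat_lit 401438) (nat_lit 9) (.e (nat_lit 426542) (nat_lit 29) (.e (nat_lit 352307) (nat_lit 21) (.e (nat_lit 57872) (nat_lit 264) .nil)))))) (.g (nat_lit 0) .nil .nil))) 
(.lf (nat_lit 29801) (.g (nat_lit 2132) (.e (nat_lit 1200) (nat_lit 88) (.e (nat_lit 65628) (nat_lit 14) (.e (nat_lit 401457) (nat_lit 13) (.e (nat_lit 483383) (nat_lit 23) (.e (nat_lit 336000) (nat_lit 1) (.e (nat_lit 57871) (nat_lit 264) .nil)))))) (.g (nat_lit 4) .nil .nil)))) (.nd (nat_lit 5) 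
(.lf (nat_lit 29785) (.g (nat_lit 1397) (.e (nat_lit 1200) (nat_lit 88) (.e (nat_lit 65628) (nat_lit 14) (.e (nat_lit 401438) (nat_lit 9) (.e (nat_lit 426556) (nat_lit 32) .nil)))) .nil)) 
(.lf (nat_lit 29817) (.g (nat_lit 2469) (.e (nat_lit 1200) (nat_lit 88) (.e (nat_lit 65628) (nat_lit 14) (.e (nat_lit 401457) (nat_lit 13) (.e (nat_lit 483394) (nat_lit 24) (.e (nat_lit 344097) (nat_lit 18) (.e (nat_lit 5905) (nat_lit 320) .nil)))))) (.g (nat_lit 4) .nil .nil)))))) (.nd (nat_lit 3) (.nd (nat_lit 4) (.nd (nat_lit 5) 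
(.lf (nat_lit 29765) (.g (nat_lit 1738) (.e (nat_lit 1200) (nat_lit 88) (.e (nat_lit 65628) (nat_lit 14) (.e (nat_lit 401437) (nat_lit 9) (.e (nat_lit 426556) (nat_lit 32) .nil)))) .nil)) 
(.lf (nat_lit 29797) (.g (nat_lit 2618) (.e (nat_lit 1200) (nat_lit 88) (.e (nat_lit 65628) (nat_lit 14) (.e (nat_lit 401456) (nat_lit 13) (.e (nat_lit 483395) (nat_lit 24) (.e (nat_lit 344097) (nat_lit 18) (.e (nat_lit 5907) (nat_lit 320) .nil)))))) (.g (nat_lit 4) .nil .nil)))) (.nd (nat_lit 5) 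
(.lf (nat_lit 29781) (.g (nat_lit 2643) (.e (nat_lit 1200) (nat_lit 88) (.e (nat_lit 65628) (nat_lit 14) (.e (nat_lit 401438) (nat_lit 9) (.e (nat_lit 426555) (nat_lit 32) (.e (nat_lit 376859) (nat_lit 21) (.e (nat_lit 57871) (nat_lit 264) .nil)))))) (.g (nat_lit 4) .nil .nil))) 
(.lf (nat_lit 29813) (.g (nat_lit 2020) (.e (nat_lit 1200) (nat_lit 88) (.e (nat_lit 65628) (nat_lit 14) (.e (nat_lit 401457) (nat_lit 13) (.e (nat_lit 483393) (nat_lit 23) (.e (nat_lit 335993) (nat_lit 1) .nil))))) .nil)))) (.nd (nat_lit 4) (.nd (nat_lit 5) 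
(.lf (nat_lit 29773) (.g (nat_lit 2191) (.e (nat_lit 1200) (nat_lit 88) (.e (nat_lit 65628) (nat_lit 14) (.e (nat_lit 401438) (nat_lit 9) (.e (nat_lit 426544) (nat_lit 30) (.e (nat_lit 368384) (nat_lit 0) (.e (nat_lit 5905) (nat_lit 320) .nil)))))) (.g (nat_lit 4) .nil .nil))) 
(.lf (nat_lit 29805) (.g (nat_lit 2109) (.e (nat_lit 1200) (nat_lit 88) (.e (nat_lit 65628) (nat_lit 14) (.e (nat_lit 401457) (nat_lit 13) (.e (nat_lit 483389) (nat_lit 23) (.e (nat_lit 335997) (nat_lit 1) (.e (nat_lit 57870) (nat_lit 264) .nil)))))) (.g (nat_lit 4) .nil .nil)))) (.nd (nat_lit 5) 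
(.lf (nat_lit 29789) (.g (nat_lit 2565) (.e (nat_lit 1200) (nat_lit 88) (.e (nat_lit 65628) (nat_lit 14) (.e (nat_lit 401454) (nat_lit 12) (.e (nat_lit 475144) (nat_lit 16) .nil)))) .nil)) 
(.lf (nat_lit 29821) (.g (nat_lit 3308) (.e (nat_lit 1200) (nat_lit 88) (.e (nat_lit 65628) (nat_lit 14) (.e (nat_lit 401457) (nat_lit 13) (.e (nat_lit 483395) (nat_lit 24) (.e (nat_lit 344097) (nat_lit 18) (.e (nat_lit 5906) (nat_lit 320) .nil)))))) (.g (nat_lit 0) .nil .nil))))))) (.nd (nat_lit 2) (.nd (nat_lit 3) (.nd (nat_lit 4) (.nd (nat_lit 5) 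
(.lf (nat_lit 29763) (.g (nat_lit 3749) (.e (nat_lit 1200) (nat_lit 88) (.e (nat_lit 65628) (nat_lit 14) (.e (nat_lit 401437) (nat_lit 9) (.e (nat_lit 426555) (nat_lit 32) (.e (nat_lit 376859) (nat_lit 21) (.e (nat_lit 57873) (nat_lit 264) .nil)))))) (.g (nat_lit 0) .nil .nil))) 
(.lf (nat_lit 29795) (.g (nat_lit 2344) (.e (nat_lit 1200) (nat_lit 88) (.e (nat_lit 65628) (nat_lit 14) (.e (nat_lit 401456) (nat_lit 13) (.e (nat_lit 483395) (nat_lit 24) (.e (nat_lit 344097) (nat_lit 18) (.e (nat_lit 5905) (nat_lit 320) .nil)))))) (.g (nat_lit 4) .nil .nil)))) (.nd (nat_lit 5) 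
(.lf (nat_lit 29779) (.g (nat_lit 3726) (.e (nat_lit 1200) (nat_lit 88) (.e (nat_lit 65628) (nat_lit 14) (.e (nat_lit 401438) (nat_lit 9) (.e (nat_lit 426555) (nat_lit 32) (.e (nat_lit 376857) (nat_lit 21) (.e (nat_lit 57873) (nat_lit 264) .nil)))))) (.g (nat_lit 6) .nil .nil))) 
(.lf (nat_lit 29811) (.g (nat_lit 2555) (.e (nat_lit 1200) (nat_lit 88) (.e (nat_lit 65628) (nat_lit 14) (.e (nat_lit 401457) (nat_lit 13) (.e (nat_lit 483393) (nat_lit 23) (.e (nat_lit 335987) (nat_lit 1) (.e (nat_lit 57870) (nat_lit 264) .nil)))))) (.g (nat_lit 5) .nil .nil))))) (.nd (nat_lit 4) (.nd (nat_lit 5) 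
(.lf (nat_lit 29771) (.g (nat_lit 3366) (.e (nat_lit 1200) (nat_lit 88) (.e (nat_lit 65628) (nat_lit 14) (.e (nat_lit 401438) (nat_lit 9) (.e (nat_lit 426542) (nat_lit 29) (.e (nat_lit 352309) (nat_lit 21) (.e (nat_lit 57871) (nat_lit 264) .nil)))))) (.g (nat_lit 6) .nil .nil))) 
(.lf (nat_lit 29803) (.g (nat_lit 2857) (.e (nat_lit 1200) (nat_lit 88) (.e (nat_lit 65628) (nat_lit 14) (.e (nat_lit 401457) (nat_lit 13) (.e (nat_lit 483383) (nat_lit 23) (.e (nat_lit 336000) (nat_lit 1) (.e (nat_lit 57873) (nat_lit 264) .nil)))))) (.g (nat_lit 5) .nil .nil)))) (.nd (nat_lit 5) 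
(.lf (nat_lit 29787) (.g (nat_lit 638) (.e (nat_lit 1200) (nat_lit 88) (.e (nat_lit 65628) (nat_lit 14) (.e (nat_lit 401454) (nat_lit 12) .nil))) .nil)) 
(.lf (nat_lit 29819) (.g (nat_lit 3078) (.e (nat_lit 1200) (nat_lit 88) (.e (nat_lit 65628) (nat_lit 14) (.e (nat_lit 401457) (nat_lit 13) (.e (nat_lit 483395) (nat_lit 24) (.e (nat_lit 344090) (nat_lit 18) (.e (nat_lit 5896) (nat_lit 320) .nil)))))) (.g (nat_lit 5) .nil .nil)))))) (.nd (nat_lit 3) (.nd (nat_lit 4) (.nd (nat_lit 5) 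
(.lf (nat_lit 29767) (.g (nat_lit 3094) (.e (nat_lit 1200) (nat_lit 88) (.e (nat_lit 65628) (nat_lit 14) (.e (nat_lit 401438) (nat_lit 9) (.e (nat_lit 426542) (nat_lit 29) (.e (nat_lit 352307) (nat_lit 21) (.e (nat_lit 57870) (nat_lit 264) .nil)))))) (.g (nat_lit 0) .nil .nil))) 
(.lf (nat_lit 29799) (.g (nat_lit 3025) (.e (nat_lit 1200) (nat_lit 88) (.e (nat_lit 65628) (nat_lit 14) (.e (nat_lit 401457) (nat_lit 13) (.e (nat_lit 483378) (nat_lit 23) (.e (nat_lit 335997) (nat_lit 1) (.e (nat_lit 57871) (nat_lit 264) .nil)))))) (.g (nat_lit 6) .nil .nil)))) (.nd (nat_lit 5) 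
(.lf (nat_lit 29783) (.g (nat_lit 3752) (.e (nat_lit 1200) (nat_lit 88) (.e (nat_lit 65628) (nat_lit 14) (.e (nat_lit 401438) (nat_lit 9) (.e (nat_lit 426555) (nat_lit 32) (.e (nat_lit 376859) (nat_lit 21) (.e (nat_lit 57873) (nat_lit 264) .nil)))))) (.g (nat_lit 6) .nil .nil))) 
(.lf (nat_lit 29815) (.g (nat_lit 3591) (.e (nat_lit 1200) (nat_lit 88) (.e (nat_lit 65628) (nat_lit 14) (.e (nat_lit 401457) (nat_lit 13) (.e (nat_lit 483393) (nat_lit 23) (.e (nat_lit 335995) (nat_lit 1) (.e (nat_lit 57872) (nat_lit 264) .nil)))))) (.g (nat_lit 6) .nil .nil))))) (.nd (nat_lit 4) (.nd (nat_lit 5) 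
(.lf (nat_lit 29775) (.g (nat_lit 3085) (.e (nat_lit 1200) (nat_lit 88) (.e (nat_lit 65628) (nat_lit 14) (.e (nat_lit 401438) (nat_lit 9) (.e (nat_lit 426546) (nat_lit 30) (.e (nat_lit 360452) (nat_lit 0) (.e (nat_lit 5905) (nat_lit 320) .nil)))))) (.g (nat_lit 6) .nil .nil))) 
(.lf (nat_lit 29807) (.g (nat_lit 3131) (.e (nat_lit 1200) (nat_lit 88) (.e (nat_lit 65628) (nat_lit 14) (.e (nat_lit 401457) (nat_lit 13) (.e (nat_lit 483391) (nat_lit 23) (.e (nat_lit 335998) (nat_lit 1) (.e (nat_lit 57873) (nat_lit 264) .nil)))))) (.g (nat_lit 6) .nil .nil)))) (.nd (nat_lit 5) 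
(.lf (nat_lit 29791) (.g (nat_lit 2282) (.e (nat_lit 1200) (nat_lit 88) (.e (nat_lit 65628) (nat_lit 14) (.e (nat_lit 401456) (nat_lit 13) (.e (nat_lit 483378) (nat_lit 23) (.e (nat_lit 335997) (nat_lit 1) .nil))))) .nil)) 
(.lf (nat_lit 29823) (.g (nat_lit 2435) (.e (nat_lit 1200) (nat_lit 88) (.e (nat_lit 65628) (nat_lit 14) (.e (nat_lit 401457) (nat_lit 13) (.e (nat_lit 483413) (nat_lit 27) (.e (nat_lit 401421) (nat_lit 1) .nil))))) .nil))))))))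

noncomputable def tv414 : DT := (.nd (nat_lit 0) (.nd (nat_lit 1) (.nd (nat_lit 2) (.nd (nat_lit 3) (.nd (nat_lit 4) (.nd (nat_lit 5) 
(.lf (nat_lit 29824) (.g (nat_lit 406) (.e (nat_lit 1200) (nat_lit 88) (.e (nat_lit 65628) (nat_lit 14) (.e (nat_lit 401458) (nat_lit 13) .nil))) .nil)) 
(.lf (nat_lit 29856) (.g (nat_lit 1837) (.e (nat_lit 1200) (nat_lit 88) (.e (nat_lit 65628) (nat_lit 14) (.e (nat_lit 401458) (nat_lit 13) (.e (nat_lit 483396) (nat_lit 24) (.e (nat_lit 344093) (nat_lit 18) .nil))))) .nil))) (.nd (nat_lit 5) 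
(.lf (nat_lit 29840) (.g (nat_lit 1961) (.e (nat_lit 1200) (nat_lit 88) (.e (nat_lit 65628) (nat_lit 14) (.e (nat_lit 401458) (nat_lit 13) (.e (nat_lit 483393) (nat_lit 23) (.e (nat_lit 335986) (nat_lit 1) (.e (nat_lit 57870) (nat_lit 264) .nil)))))) (.g (nat_lit 4) .nil .nil))) 
(.lf (nat_lit 29872) (.g (nat_lit 2641) (.e (nat_lit 1200) (nat_lit 88) (.e (nat_lit 65628) (nat_lit 14) (.e (nat_lit 401459) (nat_lit 13) (.e (nat_lit 483344) (nat_lit 17) (.e (nat_lit 6154) (nat_lit 332) (.e (nat_lit 2544) (nat_lit 158) (.e (nat_lit 8439) (nat_lit 138) .nil))))))) (.g (nat_lit 4) .nil .nil))))) (.nd (nat_lit 4) (.nd (nat_lit 5) 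
(.lf (nat_lit 29832) (.g (nat_lit 3127) (.e (nat_lit 1200) (nat_lit 88) (.e (nat_lit 65628) (nat_lit 14) (.e (nat_lit 401458) (nat_lit 13) (.e (nat_lit 483383) (nat_lit 23) (.e (nat_lit 336000) (nat_lit 1) (.e (nat_lit 57872) (nat_lit 264) .nil)))))) (.g (nat_lit 0) .nil .nil))) 
(.lf (nat_lit 29864) (.g (nat_lit 404) (.e (nat_lit 1200) (nat_lit 88) (.e (nat_lit 65628) (nat_lit 14) (.e (nat_lit 401459) (nat_lit 13) .nil))) .nil))) (.nd (nat_lit 5) 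
(.lf (nat_lit 29848) (.g (nat_lit 3415) (.e (nat_lit 1200) (nat_lit 88) (.e (nat_lit 65628) (nat_lit 14) (.e (nat_lit 401458) (nat_lit 13) (.e (nat_lit 483393) (nat_lit 23) (.e (nat_lit 335996) (nat_lit 1) (.e (nat_lit 57870) (nat_lit 264) .nil)))))) (.g (nat_lit 0) .nil .nil))) 
(.lf (nat_lit 29880) (.g (nat_lit 3006) (.e (nat_lit 1200) (nat_lit 88) (.e (nat_lit 65628) (nat_lit 14) (.e (nat_lit 401459) (nat_lit 13) (.e (nat_lit 483344) (nat_lit 17) (.e (nat_lit 7936) (nat_lit 346) (.e (nat_lit 57354) (nat_lit 0) (.e (nat_lit 5905) (nat_lit 320) .nil))))))) (.g (nat_lit 4) .nil .nil)))))) (.nd (nat_lit 3) (.nd (nat_lit 4) (.nd (nat_lit 5) 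
(.lf (nat_lit 29828) (.g (nat_lit 2885) (.e (nat_lit 1200) (nat_lit 88) (.e (nat_lit 65628) (nat_lit 14) (.e (nat_lit 401458) (nat_lit 13) (.e (nat_lit 483378) (nat_lit 23) (.e (nat_lit 335997) (nat_lit 1) (.e (nat_lit 57872) (nat_lit 264) .nil)))))) (.g (nat_lit 0) .nil .nil))) 
(.lf (nat_lit 29860) (.g (nat_lit 2365) (.e (nat_lit 1200) (nat_lit 88) (.e (nat_lit 65628) (nat_lit 14) (.e (nat_lit 401458) (nat_lit 13) (.e (nat_lit 483396) (nat_lit 24) (.e (nat_lit 344100) (nat_lit 18) (.e (nat_lit 5906) (nat_lit 320) .nil)))))) (.g (nat_lit 4) .nil .nil)))) (.nd (nat_lit 5) 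
(.lf (nat_lit 29844) (.g (nat_lit 3038) (.e (nat_lit 1200) (nat_lit 88) (.e (nat_lit 65628) (nat_lit 14) (.e (nat_lit 401458) (nat_lit 13) (.e (nat_lit 483393) (nat_lit 23) (.e (nat_lit 335988) (nat_lit 1) (.e (nat_lit 57870) (nat_lit 264) .nil)))))) (.g (nat_lit 6) .nil .nil))) 
(.lf (nat_lit 29876) (.g (nat_lit 2384) (.e (nat_lit 1200) (nat_lit 88) (.e (nat_lit 65628) (nat_lit 14) (.e (nat_lit 401459) (nat_lit 13) (.e (nat_lit 483344) (nat_lit 17) (.e (nat_lit 6436) (nat_lit 343) .nil))))) .nil)))) (.nd (nat_lit 4) (.nd (nat_lit 5) 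
(.lf (nat_lit 29836) (.g (nat_lit 1095) (.e (nat_lit 1200) (nat_lit 88) (.e (nat_lit 65628) (nat_lit 14) (.e (nat_lit 401458) (nat_lit 13) (.e (nat_lit 483389) (nat_lit 23) .nil)))) .nil)) 
(.lf (nat_lit 29868) (.g (nat_lit 1841) (.e (nat_lit 1200) (nat_lit 88) (.e (nat_lit 65628) (nat_lit 14) (.e (nat_lit 401459) (nat_lit 13) (.e (nat_lit 483343) (nat_lit 17) (.e (nat_lit 6714) (nat_lit 360) .nil))))) .nil))) (.nd (nat_lit 5) 
(.lf (nat_lit 29852) (.g (nat_lit 1072) (.e (nat_lit 1200) (nat_lit 88) (.e (nat_lit 65628) (nat_lit 14) (.e (nat_lit 401458) (nat_lit 13) (.e (nat_lit 483395) (nat_lit 24) .nil)))) .nil)) 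
(.lf (nat_lit 29884) (.g (nat_lit 2179) (.e (nat_lit 1200) (nat_lit 88) (.e (nat_lit 65628) (nat_lit 14) (.e (nat_lit 401459) (nat_lit 13) (.e (nat_lit 483344) (nat_lit 17) (.e (nat_lit 6696) (nat_lit 357) .nil))))) .nil)))))) (.nd (nat_lit 2) (.nd (nat_lit 3) (.nd (nat_lit 4) (.nd (nat_lit 5) 
(.lf (nat_lit 29826) (.g (nat_lit 2752) (.e (nat_lit 1200) (nat_lit 88) (.e (nat_lit 65628) (nat_lit 14) (.e (nat_lit 401458) (nat_lit 13) (.e (nat_lit 483378) (nat_lit 23) (.e (nat_lit 335997) (nat_lit 1) (.e (nat_lit 57870) (nat_lit 264) .nil)))))) (.g (nat_lit 0) .nil .nil))) 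
(.lf (nat_lit 29858) (.g (nat_lit 2786) (.e (nat_lit 1200) (nat_lit 88) (.e (nat_lit 65628) (nat_lit 14) (.e (nat_lit 401458) (nat_lit 13) (.e (nat_lit 483396) (nat_lit 24) (.e (nat_lit 344097) (nat_lit 18) (.e (nat_lit 5907) (nat_lit 320) .nil)))))) (.g (nat_lit 5) .nil .nil)))) (.nd (nat_lit 5) 
(.lf (nat_lit 29842) (.g (nat_lit 2424) (.e (nat_lit 1200) (nat_lit 88) (.e (nat_lit 65628) (nat_lit 14) (.e (nat_lit 401458) (nat_lit 13) (.e (nat_lit 483393) (nat_lit 23) (.e (nat_lit 335986) (nat_lit 1) (.e (nat_lit 57872) (nat_lit 264) .nil)))))) (.g (nat_lit 5) .nil .nil))) 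
(.lf (nat_lit 29874) (.g (nat_lit 2451) (.e (nat_lit 1200) (nat_lit 88) (.e (nat_lit 65628) (nat_lit 14) (.e (nat_lit 401459) (nat_lit 13) (.e (nat_lit 483344) (nat_lit 17) (.e (nat_lit 6155) (nat_lit 332) (.e (nat_lit 2546) (nat_lit 158) (.e (nat_lit 8439) (nat_lit 138) .nil))))))) (.g (nat_lit 4) .nil .nil))))) (.nd (nat_lit 4) (.nd (nat_lit 5) 
(.lf (nat_lit 29834) (.g (nat_lit 2713) (.e (nat_lit 1200) (nat_lit 88) (.e (nat_lit 65628) (nat_lit 14) (.e (nat_lit 401458) (nat_lit 13) (.e (nat_lit 483387) (nat_lit 23) (.e (nat_lit 335997) (nat_lit 1) (.e (nat_lit 57871) (nat_lit 264) .nil)))))) (.g (nat_lit 5) .nil .nil))) 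
(.lf (nat_lit 29866) (.g (nat_lit 1841) (.e (nat_lit 1200) (nat_lit 88) (.e (nat_lit 65628) (nat_lit 14) (.e (nat_lit 401459) (nat_lit 13) (.e (nat_lit 483343) (nat_lit 17) (.e (nat_lit 6513) (nat_lit 346) .nil))))) .nil))) (.nd (nat_lit 5) 
(.lf (nat_lit 29850) (.g (nat_lit 3348) (.e (nat_lit 1200) (nat_lit 88) (.e (nat_lit 65628) (nat_lit 14) (.e (nat_lit 401458) (nat_lit 13) (.e (nat_lit 483394) (nat_lit 24) (.e (nat_lit 344097) (nat_lit 18) (.e (nat_lit 5905) (nat_lit 320) .nil)))))) (.g (nat_lit 6) .nil .nil))) 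
(.lf (nat_lit 29882) (.g (nat_lit 2457) (.e (nat_lit 1200) (nat_lit 88) (.e (nat_lit 65628) (nat_lit 14) (.e (nat_lit 401459) (nat_lit 13) (.e (nat_lit 483344) (nat_lit 17) (.e (nat_lit 6522) (nat_lit 349) (.e (nat_lit 122883) (nat_lit 0) (.e (nat_lit 5907) (nat_lit 320) .nil))))))) (.g (nat_lit 4) .nil .nil)))))) (.nd (nat_lit 3) (.nd (nat_lit 4) (.nd (nat_lit 5) 
(.lf (nat_lit 29830) (.g (nat_lit 2168) (.e (nat_lit 1200) (nat_lit 88) (.e (nat_lit 65628) (nat_lit 14) (.e (nat_lit 401458) (nat_lit 13) (.e (nat_lit 483383) (nat_lit 23) (.e (nat_lit 336000) (nat_lit 1) (.e (nat_lit 57870) (nat_lit 264) .nil)))))) (.g (nat_lit 4) .nil .nil))) 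
(.lf (nat_lit 29862) (.g (nat_lit 1056) (.e (nat_lit 1200) (nat_lit 88) (.e (nat_lit 65628) (nat_lit 14) (.e (nat_lit 401458) (nat_lit 13) (.e (nat_lit 483399) (nat_lit 25) .nil)))) .nil))) (.nd (nat_lit 5) 
(.lf (nat_lit 29846) (.g (nat_lit 2814) (.e (nat_lit 1200) (nat_lit 88) (.e (nat_lit 65628) (nat_lit 14) (.e (nat_lit 401458) (nat_lit 13) (.e (nat_lit 483393) (nat_lit 23) (.e (nat_lit 335995) (nat_lit 1) (.e (nat_lit 57870) (nat_lit 264) .nil)))))) (.g (nat_lit 5) .nil .nil))) 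
(.lf (nat_lit 29878) (.g (nat_lit 3069) (.e (nat_lit 1200) (nat_lit 88) (.e (nat_lit 65628) (nat_lit 14) (.e (nat_lit 401459) (nat_lit 13) (.e (nat_lit 483344) (nat_lit 17) (.e (nat_lit 7936) (nat_lit 343) (.e (nat_lit 1183) (nat_lit 87) (.e (nat_lit 57871) (nat_lit 264) .nil))))))) (.g (nat_lit 4) .nil .nil))))) (.nd (nat_lit 4) (.nd (nat_lit 5) 
(.lf (nat_lit 29838) (.g (nat_lit 1965) (.e (nat_lit 1200) (nat_lit 88) (.e (nat_lit 65628) (nat_lit 14) (.e (nat_lit 401458) (nat_lit 13) (.e (nat_lit 483389) (nat_lit 23) (.e (nat_lit 335997) (nat_lit 1) (.e (nat_lit 57871) (nat_lit 264) .nil)))))) (.g (nat_lit 4) .nil .nil))) 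
(.lf (nat_lit 29870) (.g (nat_lit 2827) (.e (nat_lit 1200) (nat_lit 88) (.e (nat_lit 65628) (nat_lit 14) (.e (nat_lit 401459) (nat_lit 13) (.e (nat_lit 483344) (nat_lit 17) (.e (nat_lit 6152) (nat_lit 332) (.e (nat_lit 2544) (nat_lit 158) (.e (nat_lit 8439) (nat_lit 138) .nil))))))) (.g (nat_lit 4) .nil .nil)))) (.nd (nat_lit 5) 
(.lf (nat_lit 29854) (.g (nat_lit 1810) (.e (nat_lit 1200) (nat_lit 88) (.e (nat_lit 65628) (nat_lit 14) (.e (nat_lit 401458) (nat_lit 13) (.e (nat_lit 483396) (nat_lit 24) (.e (nat_lit 344089) (nat_lit 18) .nil))))) .nil)) 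
(.lf (nat_lit 29886) (.g (nat_lit 3240) (.e (nat_lit 1200) (nat_lit 88) (.e (nat_lit 65628) (nat_lit 14) (.e (nat_lit 401459) (nat_lit 13) (.e (nat_lit 483344) (nat_lit 17) (.e (nat_lit 6712) (nat_lit 360) (.e (nat_lit 163841) (nat_lit 0) (.e (nat_lit 4598) (nat_lit 269) .nil))))))) (.g (nat_lit 5) .nil .nil)))))))) 
(.nd (nat_lit 1) (.nd (nat_lit 2) (.nd (nat_lit 3) (.nd (nat_lit 4) (.nd (nat_lit 5) 
(.lf (nat_lit 29825) (.g (nat_lit 2506) (.e (nat_lit 1200) (nat_lit 88) (.e (nat_lit 65628) (nat_lit 14) (.e (nat_lit 401458) (nat_lit 13) (.e (nat_lit 483350) (nat_lit 17) (.e (nat_lit 6490) (nat_lit 343) .nil))))) .nil)) 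
(.lf (nat_lit 29857) (.g (nat_lit 2259) (.e (nat_lit 1200) (nat_lit 88) (.e (nat_lit 65628) (nat_lit 14) (.e (nat_lit 401458) (nat_lit 13) (.e (nat_lit 483396) (nat_lit 24) (.e (nat_lit 344097) (nat_lit 18) (.e (nat_lit 5905) (nat_lit 320) .nil)))))) (.g (nat_lit 4) .nil .nil)))) (.nd (nat_lit 5) 
(.lf (nat_lit 29841) (.g (nat_lit 2724) (.e (nat_lit 1200) (nat_lit 88) (.e (nat_lit 65628) (nat_lit 14) (.e (nat_lit 401458) (nat_lit 13) (.e (nat_lit 483393) (nat_lit 23) (.e (nat_lit 335986) (nat_lit 1) (.e (nat_lit 57871) (nat_lit 264) .nil)))))) (.g (nat_lit 5) .nil .nil))) 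
(.lf (nat_lit 29873) (.g (nat_lit 2542) (.e (nat_lit 1200) (nat_lit 88) (.e (nat_lit 65628) (nat_lit 14) (.e (nat_lit 401459) (nat_lit 13) (.e (nat_lit 483344) (nat_lit 17) (.e (nat_lit 6155) (nat_lit 332) (.e (nat_lit 2544) (nat_lit 158) (.e (nat_lit 8439) (nat_lit 138) .nil))))))) (.g (nat_lit 4) .nil .nil))))) (.nd (nat_lit 4) (.nd (nat_lit 5) 
(.lf (nat_lit 29833) (.g (nat_lit 2659) (.e (nat_lit 1200) (nat_lit 88) (.e (nat_lit 65628) (nat_lit 14) (.e (nat_lit 401458) (nat_lit 13) (.e (nat_lit 483387) (nat_lit 23) (.e (nat_lit 335997) (nat_lit 1) (.e (nat_lit 57870) (nat_lit 264) .nil)))))) (.g (nat_lit 6) .nil .nil))) 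
(.lf (nat_lit 29865) (.g (nat_lit 1543) (.e (nat_lit 1200) (nat_lit 88) (.e (nat_lit 65628) (nat_lit 14) (.e (nat_lit 401459) (nat_lit 13) (.e (nat_lit 483343) (nat_lit 17) .nil)))) .nil))) (.nd (nat_lit 5) 
(.lf (nat_lit 29849) (.g (nat_lit 2717) (.e (nat_lit 1200) (nat_lit 88) (.e (nat_lit 65628) (nat_lit 14) (.e (nat_lit 401458) (nat_lit 13) (.e (nat_lit 483394) (nat_lit 24) (.e (nat_lit 344090) (nat_lit 18) (.e (nat_lit 5896) (nat_lit 320) .nil)))))) (.g (nat_lit 5) .nil .nil))) 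
(.lf (nat_lit 29881) (.g (nat_lit 2483) (.e (nat_lit 1200) (nat_lit 88) (.e (nat_lit 65628) (nat_lit 14) (.e (nat_lit 401459) (nat_lit 13) (.e (nat_lit 483344) (nat_lit 17) (.e (nat_lit 7936) (nat_lit 346) (.e (nat_lit 57354) (nat_lit 0) (.e (nat_lit 5907) (nat_lit 320) .nil))))))) (.g (nat_lit 4) .nil .nil)))))) (.nd (nat_lit 3) (.nd (nat_lit 4) (.nd (nat_lit 5) 
(.lf (nat_lit 29829) (.g (nat_lit 2297) (.e (nat_lit 1200) (nat_lit 88) (.e (nat_lit 65628) (nat_lit 14) (.e (nat_lit 401458) (nat_lit 13) (.e (nat_lit 483383) (nat_lit 23) (.e (nat_lit 335878) (nat_lit 0) (.e (nat_lit 1028) (nat_lit 81) (.e (nat_lit 5902) (nat_lit 320) .nil))))))) (.g (nat_lit 4) .nil .nil))) 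
(.lf (nat_lit 29861) (.g (nat_lit 3132) (.e (nat_lit 1200) (nat_lit 88) (.e (nat_lit 65628) (nat_lit 14) (.e (nat_lit 401458) (nat_lit 13) (.e (nat_lit 483396) (nat_lit 24) (.e (nat_lit 344100) (nat_lit 18) (.e (nat_lit 5907) (nat_lit 320) .nil)))))) (.g (nat_lit 6) .nil .nil)))) (.nd (nat_lit 5) 
(.lf (nat_lit 29845) (.g (nat_lit 1693) (.e (nat_lit 1200) (nat_lit 88) (.e (nat_lit 65628) (nat_lit 14) (.e (nat_lit 401458) (nat_lit 13) (.e (nat_lit 483393) (nat_lit 23) (.e (nat_lit 335993) (nat_lit 1) .nil))))) .nil)) 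
(.lf (nat_lit 29877) (.g (nat_lit 2539) (.e (nat_lit 1200) (nat_lit 88) (.e (nat_lit 65628) (nat_lit 14) (.e (nat_lit 401459) (nat_lit 13) (.e (nat_lit 483344) (nat_lit 17) (.e (nat_lit 6479) (nat_lit 343) .nil))))) .nil)))) (.nd (nat_lit 4) (.nd (nat_lit 5) 
(.lf (nat_lit 29837) (.g (nat_lit 2071) (.e (nat_lit 1200) (nat_lit 88) (.e (nat_lit 65628) (nat_lit 14) (.e (nat_lit 401458) (nat_lit 13) (.e (nat_lit 483389) (nat_lit 23) (.e (nat_lit 335997) (nat_lit 1) (.e (nat_lit 57870) (nat_lit 264) .nil)))))) (.g (nat_lit 5) .nil .nil))) 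
(.lf (nat_lit 29869) (.g (nat_lit 1278) (.e (nat_lit 1200) (nat_lit 88) (.e (nat_lit 65628) (nat_lit 14) (.e (nat_lit 401459) (nat_lit 13) (.e (nat_lit 483344) (nat_lit 17) .nil)))) .nil))) (.nd (nat_lit 5) 
(.lf (nat_lit 29853) (.g (nat_lit 3480) (.e (nat_lit 1200) (nat_lit 88) (.e (nat_lit 65628) (nat_lit 14) (.e (nat_lit 401458) (nat_lit 13) (.e (nat_lit 483395) (nat_lit 24) (.e (nat_lit 344090) (nat_lit 18) (.e (nat_lit 5896) (nat_lit 320) .nil)))))) (.g (nat_lit 6) .nil .nil))) 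
(.lf (nat_lit 29885) (.g (nat_lit 2740) (.e (nat_lit 1200) (nat_lit 88) (.e (nat_lit 65628) (nat_lit 14) (.e (nat_lit 401459) (nat_lit 13) (.e (nat_lit 483344) (nat_lit 17) (.e (nat_lit 6696) (nat_lit 357) (.e (nat_lit 2610) (nat_lit 163) (.e (nat_lit 164423) (nat_lit 272) .nil))))))) (.g (nat_lit 4) .nil .nil))))))) (.nd (nat_lit 2) (.nd (nat_lit 3) (.nd (nat_lit 4) (.nd (nat_lit 5) 
(.lf (nat_lit 29827) (.g (nat_lit 2829) (.e (nat_lit 1200) (nat_lit 88) (.e (nat_lit 65628) (nat_lit 14) (.e (nat_lit 401458) (nat_lit 13) (.e (nat_lit 483378) (nat_lit 23) (.e (nat_lit 335997) (nat_lit 1) (.e (nat_lit 57871) (nat_lit 264) .nil)))))) (.g (nat_lit 6) .nil .nil))) 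
(.lf (nat_lit 29859) (.g (nat_lit 1814) (.e (nat_lit 1200) (nat_lit 88) (.e (nat_lit 65628) (nat_lit 14) (.e (nat_lit 401458) (nat_lit 13) (.e (nat_lit 483396) (nat_lit 24) (.e (nat_lit 344100) (nat_lit 18) .nil))))) .nil))) (.nd (nat_lit 5) 
(.lf (nat_lit 29843) (.g (nat_lit 2496) (.e (nat_lit 1200) (nat_lit 88) (.e (nat_lit 65628) (nat_lit 14) (.e (nat_lit 401458) (nat_lit 13) (.e (nat_lit 483393) (nat_lit 23) (.e (nat_lit 335987) (nat_lit 1) (.e (nat_lit 57870) (nat_lit 264) .nil)))))) (.g (nat_lit 6) .nil .nil))) 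
(.lf (nat_lit 29875) (.g (nat_lit 2525) (.e (nat_lit 1200) (nat_lit 88) (.e (nat_lit 65628) (nat_lit 14) (.e (nat_lit 401459) (nat_lit 13) (.e (nat_lit 483344) (nat_lit 17) (.e (nat_lit 6434) (nat_lit 343) (.e (nat_lit 1183) (nat_lit 87) (.e (nat_lit 57871) (nat_lit 264) .nil))))))) (.g (nat_lit 4) .nil .nil))))) (.nd (nat_lit 4) (.nd (nat_lit 5) 
(.lf (nat_lit 29835) (.g (nat_lit 2879) (.e (nat_lit 1200) (nat_lit 88) (.e (nat_lit 65628) (nat_lit 14) (.e (nat_lit 401458) (nat_lit 13) (.e (nat_lit 483387) (nat_lit 23) (.e (nat_lit 335997) (nat_lit 1) (.e (nat_lit 57872) (nat_lit 264) .nil)))))) (.g (nat_lit 0) .nil .nil))) 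
(.lf (nat_lit 29867) (.g (nat_lit 2369) (.e (nat_lit 1200) (nat_lit 88) (.e (nat_lit 65628) (nat_lit 14) (.e (nat_lit 401459) (nat_lit 13) (.e (nat_lit 483343) (nat_lit 17) (.e (nat_lit 6712) (nat_lit 360) (.e (nat_lit 163843) (nat_lit 0) (.e (nat_lit 4598) (nat_lit 269) .nil))))))) (.g (nat_lit 4) .nil .nil)))) (.nd (nat_lit 5) 
(.lf (nat_lit 29851) (.g (nat_lit 2011) (.e (nat_lit 1200) (nat_lit 88) (.e (nat_lit 65628) (nat_lit 14) (.e (nat_lit 401458) (nat_lit 13) (.e (nat_lit 483394) (nat_lit 24) (.e (nat_lit 344100) (nat_lit 18) (.e (nat_lit 5907) (nat_lit 320) .nil)))))) (.g (nat_lit 4) .nil .nil))) 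
(.lf (nat_lit 29883) (.g (nat_lit 3592) (.e (nat_lit 1200) (nat_lit 88) (.e (nat_lit 65628) (nat_lit 14) (.e (nat_lit 401459) (nat_lit 13) (.e (nat_lit 483344) (nat_lit 17) (.e (nat_lit 6619) (nat_lit 357) (.e (nat_lit 2612) (nat_lit 163) (.e (nat_lit 164422) (nat_lit 272) .nil))))))) (.g (nat_lit 7) .nil .nil)))))) (.nd (nat_lit 3) (.nd (nat_lit 4) (.nd (nat_lit 5) 
(.lf (nat_lit 29831) (.g (nat_lit 2819) (.e (nat_lit 1200) (nat_lit 88) (.e (nat_lit 65628) (nat_lit 14) (.e (nat_lit 401458) (nat_lit 13) (.e (nat_lit 483383) (nat_lit 23) (.e (nat_lit 336000) (nat_lit 1) (.e (nat_lit 57871) (nat_lit 264) .nil)))))) (.g (nat_lit 5) .nil .nil))) 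
(.lf (nat_lit 29863) (.g (nat_lit 3104) (.e (nat_lit 1200) (nat_lit 88) (.e (nat_lit 65628) (nat_lit 14) (.e (nat_lit 401458) (nat_lit 13) (.e (nat_lit 483399) (nat_lit 25) (.e (nat_lit 368662) (nat_lit 18) (.e (nat_lit 5906) (nat_lit 320) .nil)))))) (.g (nat_lit 0) .nil .nil)))) (.nd (nat_lit 5) 
(.lf (nat_lit 29847) (.g (nat_lit 3478) (.e (nat_lit 1200) (nat_lit 88) (.e (nat_lit 65628) (nat_lit 14) (.e (nat_lit 401458) (nat_lit 13) (.e (nat_lit 483393) (nat_lit 23) (.e (nat_lit 335995) (nat_lit 1) (.e (nat_lit 57872) (nat_lit 264) .nil)))))) (.g (nat_lit 0) .nil .nil))) 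
(.lf (nat_lit 29879) (.g (nat_lit 3759) (.e (nat_lit 1200) (nat_lit 88) (.e (nat_lit 65628) (nat_lit 14) (.e (nat_lit 401459) (nat_lit 13) (.e (nat_lit 483344) (nat_lit 17) (.e (nat_lit 6514) (nat_lit 346) (.e (nat_lit 57354) (nat_lit 0) (.e (nat_lit 5907) (nat_lit 320) .nil))))))) (.g (nat_lit 6) .nil .nil))))) (.nd (nat_lit 4) (.nd (nat_lit 5) 
(.lf (nat_lit 29839) (.g (nat_lit 2053) (.e (nat_lit 1200) (nat_lit 88) (.e (nat_lit 65628) (nat_lit 14) (.e (nat_lit 401458) (nat_lit 13) (.e (nat_lit 483389) (nat_lit 23) (.e (nat_lit 335997) (nat_lit 1) (.e (nat_lit 57872) (nat_lit 264) .nil)))))) (.g (nat_lit 5) .nil .nil))) 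
(.lf (nat_lit 29871) (.g (nat_lit 2736) (.e (nat_lit 1200) (nat_lit 88) (.e (nat_lit 65628) (nat_lit 14) (.e (nat_lit 401459) (nat_lit 13) (.e (nat_lit 483344) (nat_lit 17) (.e (nat_lit 6152) (nat_lit 332) (.e (nat_lit 2546) (nat_lit 158) (.e (nat_lit 8439) (nat_lit 138) .nil))))))) (.g (nat_lit 4) .nil .nil)))) (.nd (nat_lit 5) 
(.lf (nat_lit 29855) (.g (nat_lit 2088) (.e (nat_lit 1200) (nat_lit 88) (.e (nat_lit 65628) (nat_lit 14) (.e (nat_lit 401458) (nat_lit 13) (.e (nat_lit 483396) (nat_lit 24) (.e (nat_lit 344091) (nat_lit 18) (.e (nat_lit 5896) (nat_lit 320) .nil)))))) (.g (nat_lit 4) .nil .nil))) 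
(.lf (nat_lit 29887) (.g (nat_lit 4675) (.e (nat_lit 1200) (nat_lit 88) (.e (nat_lit 65628) (nat_lit 14) (.e (nat_lit 401459) (nat_lit 13) (.e (nat_lit 483344) (nat_lit 17) (.e (nat_lit 6712) (nat_lit 360) (.e (nat_lit 163844) (nat_lit 0) (.e (nat_lit 4598) (nat_lit 269) .nil))))))) (.g (nat_lit 0) .nil .nil)))))))))

noncomputable def tv415 : DT := (.nd (nat_lit 0) (.nd (nat_lit 1) (.nd (nat_lit 2) (.nd (nat_lit 3) (.nd (nat_lit 4) (.nd (nat_lit 5) 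
(.lf (nat_lit 29888) (.g (nat_lit 4462) (.e (nat_lit 1200) (nat_lit 88) (.e (nat_lit 65628) (nat_lit 14) (.e (nat_lit 401459) (nat_lit 13) (.e (nat_lit 483344) (nat_lit 17) (.e (nat_lit 6712) (nat_lit 360) (.e (nat_lit 163849) (nat_lit 0) (.e (nat_lit 4598) (nat_lit 269) .nil))))))) (.g (nat_lit 0) .nil .nil))) 
(.lf (nat_lit 29920) (.g (nat_lit 5045) (.e (nat_lit 1200) (nat_lit 88) (.e (nat_lit 65628) (nat_lit 14) (.e (nat_lit 401459) (nat_lit 13) (.e (nat_lit 483372) (nat_lit 21) (.e (nat_lit 319502) (nat_lit 10) .nil))))) .nil))) (.nd (nat_lit 5) 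
(.lf (nat_lit 29904) (.g (nat_lit 2687) (.e (nat_lit 1200) (nat_lit 88) (.e (nat_lit 65628) (nat_lit 14) (.e (nat_lit 401459) (nat_lit 13) (.e (nat_lit 483350) (nat_lit 17) (.e (nat_lit 6490) (nat_lit 343) .nil))))) .nil)) 
(.lf (nat_lit 29936) (.g (nat_lit 3350) (.e (nat_lit 1200) (nat_lit 88) (.e (nat_lit 65628) (nat_lit 14) (.e (nat_lit 401459) (nat_lit 13) (.e (nat_lit 483380) (nat_lit 23) (.e (nat_lit 335971) (nat_lit 0) .nil))))) .nil)))) (.nd (nat_lit 4) (.nd (nat_lit 5) 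
(.lf (nat_lit 29896) (.g (nat_lit 4250) (.e (nat_lit 1200) (nat_lit 88) (.e (nat_lit 65628) (nat_lit 14) (.e (nat_lit 401459) (nat_lit 13) (.e (nat_lit 483344) (nat_lit 17) (.e (nat_lit 6714) (nat_lit 360) (.e (nat_lit 163850) (nat_lit 0) (.e (nat_lit 4607) (nat_lit 269) .nil))))))) (.g (nat_lit 7) .nil .nil))) 
(.lf (nat_lit 29928) (.g (nat_lit 2650) (.e (nat_lit 1200) (nat_lit 88) (.e (nat_lit 65628) (nat_lit 14) (.e (nat_lit 401459) (nat_lit 13) (.e (nat_lit 483375) (nat_lit 22) (.e (nat_lit 335616) (nat_lit 1) .nil))))) .nil))) (.nd (nat_lit 5) 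
(.lf (nat_lit 29912) (.g (nat_lit 2772) (.e (nat_lit 1200) (nat_lit 88) (.e (nat_lit 65628) (nat_lit 14) (.e (nat_lit 401459) (nat_lit 13) (.e (nat_lit 483363) (nat_lit 18) (.e (nat_lit 65280) (nat_lit 217) .nil))))) .nil)) 
(.lf (nat_lit 29944) (.g (nat_lit 2758) (.e (nat_lit 1200) (nat_lit 88) (.e (nat_lit 65628) (nat_lit 14) (.e (nat_lit 401459) (nat_lit 13) (.e (nat_lit 483383) (nat_lit 23) (.e (nat_lit 336000) (nat_lit 1) .nil))))) .nil))))) (.nd (nat_lit 3) (.nd (nat_lit 4) (.nd (nat_lit 5) 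
(.lf (nat_lit 29892) (.g (nat_lit 2905) (.e (nat_lit 1200) (nat_lit 88) (.e (nat_lit 65628) (nat_lit 14) (.e (nat_lit 401459) (nat_lit 13) (.e (nat_lit 483344) (nat_lit 17) (.e (nat_lit 6712) (nat_lit 360) (.e (nat_lit 163853) (nat_lit 0) (.e (nat_lit 4607) (nat_lit 269) .nil))))))) (.g (nat_lit 4) .nil .nil))) 
(.lf (nat_lit 29924) (.g (nat_lit 5067) (.e (nat_lit 1200) (nat_lit 88) (.e (nat_lit 65628) (nat_lit 14) (.e (nat_lit 401459) (nat_lit 13) (.e (nat_lit 483372) (nat_lit 21) (.e (nat_lit 319516) (nat_lit 11) (.e (nat_lit 8484) (nat_lit 168) .nil)))))) (.g (nat_lit 4) .nil .nil)))) (.nd (nat_lit 5) 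
(.lf (nat_lit 29908) (.g (nat_lit 2836) (.e (nat_lit 1200) (nat_lit 88) (.e (nat_lit 65628) (nat_lit 14) (.e (nat_lit 401459) (nat_lit 13) (.e (nat_lit 483350) (nat_lit 17) (.e (nat_lit 7936) (nat_lit 346) (.e (nat_lit 57354) (nat_lit 0) (.e (nat_lit 5905) (nat_lit 320) .nil))))))) (.g (nat_lit 4) .nil .nil))) 
(.lf (nat_lit 29940) (.g (nat_lit 2767) (.e (nat_lit 1200) (nat_lit 88) (.e (nat_lit 65628) (nat_lit 14) (.e (nat_lit 401459) (nat_lit 13) (.e (nat_lit 483380) (nat_lit 23) (.e (nat_lit 343808) (nat_lit 1) (.e (nat_lit 57871) (nat_lit 264) .nil)))))) (.g (nat_lit 4) .nil .nil))))) (.nd (nat_lit 4) (.nd (nat_lit 5) 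
(.lf (nat_lit 29900) (.g (nat_lit 2540) (.e (nat_lit 1200) (nat_lit 88) (.e (nat_lit 65628) (nat_lit 14) (.e (nat_lit 401459) (nat_lit 13) (.e (nat_lit 483347) (nat_lit 17) (.e (nat_lit 7936) (nat_lit 346) (.e (nat_lit 57354) (nat_lit 0) (.e (nat_lit 5906) (nat_lit 320) .nil))))))) (.g (nat_lit 4) .nil .nil))) 
(.lf (nat_lit 29932) (.g (nat_lit 1758) (.e (nat_lit 1200) (nat_lit 88) (.e (nat_lit 65628) (nat_lit 14) (.e (nat_lit 401459) (nat_lit 13) (.e (nat_lit 483380) (nat_lit 23) .nil)))) .nil))) (.nd (nat_lit 5) 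
(.lf (nat_lit 29916) (.g (nat_lit 4854) (.e (nat_lit 1200) (nat_lit 88) (.e (nat_lit 65628) (nat_lit 14) (.e (nat_lit 401459) (nat_lit 13) (.e (nat_lit 483372) (nat_lit 21) (.e (nat_lit 319492) (nat_lit 0) .nil))))) .nil)) 
(.lf (nat_lit 29948) (.g (nat_lit 1819) (.e (nat_lit 1200) (nat_lit 88) (.e (nat_lit 65628) (nat_lit 14) (.e (nat_lit 401459) (nat_lit 13) (.e (nat_lit 483386) (nat_lit 23) (.e (nat_lit 335901) (nat_lit 0) .nil))))) .nil)))))) (.nd (nat_lit 2) (.nd (nat_lit 3) (.nd (nat_lit 4) (.nd (nat_lit 5) 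
(.lf (nat_lit 29890) (.g (nat_lit 3647) (.e (nat_lit 1200) (nat_lit 88) (.e (nat_lit 65628) (nat_lit 14) (.e (nat_lit 401459) (nat_lit 13) (.e (nat_lit 483344) (nat_lit 17) (.e (nat_lit 6712) (nat_lit 360) (.e (nat_lit 163850) (nat_lit 0) (.e (nat_lit 4606) (nat_lit 269) .nil))))))) (.g (nat_lit 5) .nil .nil))) 
(.lf (nat_lit 29922) (.g (nat_lit 4523) (.e (nat_lit 1200) (nat_lit 88) (.e (nat_lit 65628) (nat_lit 14) (.e (nat_lit 401459) (nat_lit 13) (.e (nat_lit 483372) (nat_lit 21) (.e (nat_lit 319505) (nat_lit 10) .nil))))) .nil))) (.nd (nat_lit 5) 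
(.lf (nat_lit 29906) (.g (nat_lit 2901) (.e (nat_lit 1200) (nat_lit 88) (.e (nat_lit 65628) (nat_lit 14) (.e (nat_lit 401459) (nat_lit 13) (.e (nat_lit 483350) (nat_lit 17) (.e (nat_lit 7936) (nat_lit 343) (.e (nat_lit 1183) (nat_lit 87) (.e (nat_lit 57870) (nat_lit 264) .nil))))))) (.g (nat_lit 4) .nil .nil))) 
(.lf (nat_lit 29938) (.g (nat_lit 3107) (.e (nat_lit 1200) (nat_lit 88) (.e (nat_lit 65628) (nat_lit 14) (.e (nat_lit 401459) (nat_lit 13) (.e (nat_lit 483380) (nat_lit 23) (.e (nat_lit 336000) (nat_lit 1) .nil))))) .nil)))) (.nd (nat_lit 4) (.nd (nat_lit 5) 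
(.lf (nat_lit 29898) (.g (nat_lit 2847) (.e (nat_lit 1200) (nat_lit 88) (.e (nat_lit 65628) (nat_lit 14) (.e (nat_lit 401459) (nat_lit 13) (.e (nat_lit 483347) (nat_lit 17) (.e (nat_lit 6198) (nat_lit 332) (.e (nat_lit 2544) (nat_lit 158) (.e (nat_lit 8439) (nat_lit 138) .nil))))))) (.g (nat_lit 4) .nil .nil))) 
(.lf (nat_lit 29930) (.g (nat_lit 3371) (.e (nat_lit 1200) (nat_lit 88) (.e (nat_lit 65628) (nat_lit 14) (.e (nat_lit 401459) (nat_lit 13) (.e (nat_lit 483378) (nat_lit 23) (.e (nat_lit 335997) (nat_lit 1) (.e (nat_lit 57871) (nat_lit 264) .nil)))))) (.g (nat_lit 6) .nil .nil)))) (.nd (nat_lit 5) 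
(.lf (nat_lit 29914) (.g (nat_lit 5219) (.e (nat_lit 1200) (nat_lit 88) (.e (nat_lit 65628) (nat_lit 14) (.e (nat_lit 401459) (nat_lit 13) (.e (nat_lit 483372) (nat_lit 21) (.e (nat_lit 319490) (nat_lit 0) (.e (nat_lit 75) (nat_lit 0) (.e (nat_lit 5902) (nat_lit 320) .nil))))))) (.g (nat_lit 5) .nil .nil))) 
(.lf (nat_lit 29946) (.g (nat_lit 3241) (.e (nat_lit 1200) (nat_lit 88) (.e (nat_lit 65628) (nat_lit 14) (.e (nat_lit 401459) (nat_lit 13) (.e (nat_lit 483383) (nat_lit 23) (.e (nat_lit 336000) (nat_lit 1) (.e (nat_lit 57873) (nat_lit 264) .nil)))))) (.g (nat_lit 4) .nil .nil)))))) (.nd (nat_lit 3) (.nd (nat_lit 4) (.nd (nat_lit 5) 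
(.lf (nat_lit 29894) (.g (nat_lit 4241) (.e (nat_lit 1200) (nat_lit 88) (.e (nat_lit 65628) (nat_lit 14) (.e (nat_lit 401459) (nat_lit 13) (.e (nat_lit 483344) (nat_lit 17) (.e (nat_lit 6714) (nat_lit 360) (.e (nat_lit 163850) (nat_lit 0) (.e (nat_lit 4605) (nat_lit 269) .nil))))))) (.g (nat_lit 7) .nil .nil))) 
(.lf (nat_lit 29926) (.g (nat_lit 2173) (.e (nat_lit 1200) (nat_lit 88) (.e (nat_lit 65628) (nat_lit 14) (.e (nat_lit 401459) (nat_lit 13) (.e (nat_lit 483374) (nat_lit 22) (.e (nat_lit 327684) (nat_lit 0) .nil))))) .nil))) (.nd (nat_lit 5) 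
(.lf (nat_lit 29910) (.g (nat_lit 1649) (.e (nat_lit 1200) (nat_lit 88) (.e (nat_lit 65628) (nat_lit 14) (.e (nat_lit 401459) (nat_lit 13) (.e (nat_lit 483354) (nat_lit 17) .nil)))) .nil)) 
(.lf (nat_lit 29942) (.g (nat_lit 1667) (.e (nat_lit 1200) (nat_lit 88) (.e (nat_lit 65628) (nat_lit 14) (.e (nat_lit 401459) (nat_lit 13) (.e (nat_lit 483381) (nat_lit 23) .nil)))) .nil)))) (.nd (nat_lit 4) (.nd (nat_lit 5) 
(.lf (nat_lit 29902) (.g (nat_lit 2758) (.e (nat_lit 1200) (nat_lit 88) (.e (nat_lit 65628) (nat_lit 14) (.e (nat_lit 401459) (nat_lit 13) (.e (nat_lit 483350) (nat_lit 17) (.e (nat_lit 6113) (nat_lit 332) (.e (nat_lit 2538) (nat_lit 158) (.e (nat_lit 8439) (nat_lit 138) .nil))))))) (.g (nat_lit 4) .nil .nil))) 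
(.lf (nat_lit 29934) (.g (nat_lit 3291) (.e (nat_lit 1200) (nat_lit 88) (.e (nat_lit 65628) (nat_lit 14) (.e (nat_lit 401459) (nat_lit 13) (.e (nat_lit 483380) (nat_lit 23) (.e (nat_lit 335883) (nat_lit 0) .nil))))) .nil))) (.nd (nat_lit 5) 
(.lf (nat_lit 29918) (.g (nat_lit 3157) (.e (nat_lit 1200) (nat_lit 88) (.e (nat_lit 65628) (nat_lit 14) (.e (nat_lit 401459) (nat_lit 13) (.e (nat_lit 483372) (nat_lit 21) (.e (nat_lit 327424) (nat_lit 0) .nil))))) .nil)) 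
(.lf (nat_lit 29950) (.g (nat_lit 2781) (.e (nat_lit 1200) (nat_lit 88) (.e (nat_lit 65628) (nat_lit 14) (.e (nat_lit 401459) (nat_lit 13) (.e (nat_lit 483386) (nat_lit 23) (.e (nat_lit 335985) (nat_lit 1) (.e (nat_lit 57871) (nat_lit 264) .nil)))))) (.g (nat_lit 6) .nil .nil)))))))) (.nd (nat_lit 1) (.nd (nat_lit 2) (.nd (nat_lit 3) (.nd (nat_lit 4) (.nd (nat_lit 5) 
(.lf (nat_lit 29889) (.g (nat_lit 3760) (.e (nat_lit 1200) (nat_lit 88) (.e (nat_lit 65628) (nat_lit 14) (.e (nat_lit 401459) (nat_lit 13) (.e (nat_lit 483344) (nat_lit 17) (.e (nat_lit 6712) (nat_lit 360) (.e (nat_lit 163850) (nat_lit 0) (.e (nat_lit 4605) (nat_lit 269) .nil))))))) (.g (nat_lit 5) .nil .nil))) 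
(.lf (nat_lit 29921) (.g (nat_lit 4711) (.e (nat_lit 1200) (nat_lit 88) (.e (nat_lit 65628) (nat_lit 14) (.e (nat_lit 401459) (nat_lit 13) (.e (nat_lit 483372) (nat_lit 21) (.e (nat_lit 319504) (nat_lit 10) .nil))))) .nil))) (.nd (nat_lit 5) 
(.lf (nat_lit 29905) (.g (nat_lit 2737) (.e (nat_lit 1200) (nat_lit 88) (.e (nat_lit 65628) (nat_lit 14) (.e (nat_lit 401459) (nat_lit 13) (.e (nat_lit 483350) (nat_lit 17) (.e (nat_lit 7936) (nat_lit 343) .nil))))) .nil)) 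
(.lf (nat_lit 29937) (.g (nat_lit 3361) (.e (nat_lit 1200) (nat_lit 88) (.e (nat_lit 65628) (nat_lit 14) (.e (nat_lit 401459) (nat_lit 13) (.e (nat_lit 483380) (nat_lit 23) (.e (nat_lit 335973) (nat_lit 0) .nil))))) .nil)))) (.nd (nat_lit 4) (.nd (nat_lit 5) 
(.lf (nat_lit 29897) (.g (nat_lit 1698) (.e (nat_lit 1200) (nat_lit 88) (.e (nat_lit 65628) (nat_lit 14) (.e (nat_lit 401459) (nat_lit 13) (.e (nat_lit 483347) (nat_lit 17) .nil)))) .nil)) 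
(.lf (nat_lit 29929) (.g (nat_lit 3287) (.e (nat_lit 1200) (nat_lit 88) (.e (nat_lit 65628) (nat_lit 14) (.e (nat_lit 401459) (nat_lit 13) (.e (nat_lit 483378) (nat_lit 23) (.e (nat_lit 335997) (nat_lit 1) (.e (nat_lit 57870) (nat_lit 264) .nil)))))) (.g (nat_lit 0) .nil .nil)))) (.nd (nat_lit 5) 
(.lf (nat_lit 29913) (.g (nat_lit 1458) (.e (nat_lit 1200) (nat_lit 88) (.e (nat_lit 65628) (nat_lit 14) (.e (nat_lit 401459) (nat_lit 13) (.e (nat_lit 483372) (nat_lit 21) .nil)))) .nil)) 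
(.lf (nat_lit 29945) (.g (nat_lit 2920) (.e (nat_lit 1200) (nat_lit 88) (.e (nat_lit 65628) (nat_lit 14) (.e (nat_lit 401459) (nat_lit 13) (.e (nat_lit 483383) (nat_lit 23) (.e (nat_lit 336000) (nat_lit 1) (.e (nat_lit 57872) (nat_lit 264) .nil)))))) (.g (nat_lit 4) .nil .nil)))))) (.nd (nat_lit 3) (.nd (nat_lit 4) (.nd (nat_lit 5) 
(.lf (nat_lit 29893) (.g (nat_lit 2620) (.e (nat_lit 1200) (nat_lit 88) (.e (nat_lit 65628) (nat_lit 14) (.e (nat_lit 401459) (nat_lit 13) (.e (nat_lit 483344) (nat_lit 17) (.e (nat_lit 6714) (nat_lit 360) (.e (nat_lit 163842) (nat_lit 0) (.e (nat_lit 4616) (nat_lit 269) .nil))))))) (.g (nat_lit 4) .nil .nil))) 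
(.lf (nat_lit 29925) (.g (nat_lit 1823) (.e (nat_lit 1200) (nat_lit 88) (.e (nat_lit 65628) (nat_lit 14) (.e (nat_lit 401459) (nat_lit 13) (.e (nat_lit 483374) (nat_lit 22) .nil)))) .nil))) (.nd (nat_lit 5) 
(.lf (nat_lit 29909) (.g (nat_lit 2800) (.e (nat_lit 1200) (nat_lit 88) (.e (nat_lit 65628) (nat_lit 14) (.e (nat_lit 401459) (nat_lit 13) (.e (nat_lit 483350) (nat_lit 17) (.e (nat_lit 7936) (nat_lit 346) (.e (nat_lit 57354) (nat_lit 0) (.e (nat_lit 5906) (nat_lit 320) .nil))))))) (.g (nat_lit 4) .nil .nil))) 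
(.lf (nat_lit 29941) (.g (nat_lit 2692) (.e (nat_lit 1200) (nat_lit 88) (.e (nat_lit 65628) (nat_lit 14) (.e (nat_lit 401459) (nat_lit 13) (.e (nat_lit 483380) (nat_lit 23) (.e (nat_lit 336258) (nat_lit 15) .nil))))) .nil)))) (.nd (nat_lit 4) (.nd (nat_lit 5) 
(.lf (nat_lit 29901) (.g (nat_lit 2782) (.e (nat_lit 1200) (nat_lit 88) (.e (nat_lit 65628) (nat_lit 14) (.e (nat_lit 401459) (nat_lit 13) (.e (nat_lit 483350) (nat_lit 17) (.e (nat_lit 6097) (nat_lit 332) .nil))))) .nil)) 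
(.lf (nat_lit 29933) (.g (nat_lit 3316) (.e (nat_lit 1200) (nat_lit 88) (.e (nat_lit 65628) (nat_lit 14) (.e (nat_lit 401459) (nat_lit 13) (.e (nat_lit 483380) (nat_lit 23) (.e (nat_lit 335880) (nat_lit 0) .nil))))) .nil))) (.nd (nat_lit 5) 
(.lf (nat_lit 29917) (.g (nat_lit 5309) (.e (nat_lit 1200) (nat_lit 88) (.e (nat_lit 65628) (nat_lit 14) (.e (nat_lit 401459) (nat_lit 13) (.e (nat_lit 483372) (nat_lit 21) (.e (nat_lit 319494) (nat_lit 0) .nil))))) .nil)) 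
(.lf (nat_lit 29949) (.g (nat_lit 2786) (.e (nat_lit 1200) (nat_lit 88) (.e (nat_lit 65628) (nat_lit 14) (.e (nat_lit 401459) (nat_lit 13) (.e (nat_lit 483386) (nat_lit 23) (.e (nat_lit 335985) (nat_lit 1) (.e (nat_lit 57870) (nat_lit 264) .nil)))))) (.g (nat_lit 0) .nil .nil))))))) (.nd (nat_lit 2) (.nd (nat_lit 3) (.nd (nat_lit 4) (.nd (nat_lit 5) 
(.lf (nat_lit 29891) (.g (nat_lit 3700) (.e (nat_lit 1200) (nat_lit 88) (.e (nat_lit 65628) (nat_lit 14) (.e (nat_lit 401459) (nat_lit 13) (.e (nat_lit 483344) (nat_lit 17) (.e (nat_lit 6712) (nat_lit 360) (.e (nat_lit 163850) (nat_lit 0) (.e (nat_lit 4607) (nat_lit 269) .nil))))))) (.g (nat_lit 5) .nil .nil))) 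
(.lf (nat_lit 29923) (.g (nat_lit 4234) (.e (nat_lit 1200) (nat_lit 88) (.e (nat_lit 65628) (nat_lit 14) (.e (nat_lit 401459) (nat_lit 13) (.e (nat_lit 483372) (nat_lit 21) (.e (nat_lit 319514) (nat_lit 11) .nil))))) .nil))) (.nd (nat_lit 5) 
(.lf (nat_lit 29907) (.g (nat_lit 2737) (.e (nat_lit 1200) (nat_lit 88) (.e (nat_lit 65628) (nat_lit 14) (.e (nat_lit 401459) (nat_lit 13) (.e (nat_lit 483350) (nat_lit 17) (.e (nat_lit 7936) (nat_lit 346) .nil))))) .nil)) 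
(.lf (nat_lit 29939) (.g (nat_lit 2449) (.e (nat_lit 1200) (nat_lit 88) (.e (nat_lit 65628) (nat_lit 14) (.e (nat_lit 401459) (nat_lit 13) (.e (nat_lit 483380) (nat_lit 23) (.e (nat_lit 343808) (nat_lit 1) .nil))))) .nil)))) (.nd (nat_lit 4) (.nd (nat_lit 5) 
(.lf (nat_lit 29899) (.g (nat_lit 2576) (.e (nat_lit 1200) (nat_lit 88) (.e (nat_lit 65628) (nat_lit 14) (.e (nat_lit 401459) (nat_lit 13) (.e (nat_lit 483347) (nat_lit 17) (.e (nat_lit 7936) (nat_lit 346) (.e (nat_lit 57354) (nat_lit 0) (.e (nat_lit 5905) (nat_lit 320) .nil))))))) (.g (nat_lit 4) .nil .nil))) 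
(.lf (nat_lit 29931) (.g (nat_lit 3414) (.e (nat_lit 1200) (nat_lit 88) (.e (nat_lit 65628) (nat_lit 14) (.e (nat_lit 401459) (nat_lit 13) (.e (nat_lit 483378) (nat_lit 23) (.e (nat_lit 335997) (nat_lit 1) (.e (nat_lit 57872) (nat_lit 264) .nil)))))) (.g (nat_lit 0) .nil .nil)))) (.nd (nat_lit 5) 
(.lf (nat_lit 29915) (.g (nat_lit 4654) (.e (nat_lit 1200) (nat_lit 88) (.e (nat_lit 65628) (nat_lit 14) (.e (nat_lit 401459) (nat_lit 13) (.e (nat_lit 483372) (nat_lit 21) (.e (nat_lit 319490) (nat_lit 0) (.e (nat_lit 79) (nat_lit 0) (.e (nat_lit 5902) (nat_lit 320) .nil))))))) (.g (nat_lit 4) .nil .nil))) 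
(.lf (nat_lit 29947) (.g (nat_lit 1138) (.e (nat_lit 1200) (nat_lit 88) (.e (nat_lit 65628) (nat_lit 14) (.e (nat_lit 401459) (nat_lit 13) (.e (nat_lit 483386) (nat_lit 23) .nil)))) .nil))))) (.nd (nat_lit 3) (.nd (nat_lit 4) (.nd (nat_lit 5) 
(.lf (nat_lit 29895) (.g (nat_lit 4175) (.e (nat_lit 1200) (nat_lit 88) (.e (nat_lit 65628) (nat_lit 14) (.e (nat_lit 401459) (nat_lit 13) (.e (nat_lit 483344) (nat_lit 17) (.e (nat_lit 6714) (nat_lit 360) (.e (nat_lit 163850) (nat_lit 0) (.e (nat_lit 4606) (nat_lit 269) .nil))))))) (.g (nat_lit 7) .nil .nil))) 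
(.lf (nat_lit 29927) (.g (nat_lit 3605) (.e (nat_lit 1200) (nat_lit 88) (.e (nat_lit 65628) (nat_lit 14) (.e (nat_lit 401459) (nat_lit 13) (.e (nat_lit 483375) (nat_lit 22) (.e (nat_lit 327692) (nat_lit 1) (.e (nat_lit 8439) (nat_lit 138) .nil)))))) (.g (nat_lit 5) .nil .nil)))) (.nd (nat_lit 5) 
(.lf (nat_lit 29911) (.g (nat_lit 2515) (.e (nat_lit 1200) (nat_lit 88) (.e (nat_lit 65628) (nat_lit 14) (.e (nat_lit 401459) (nat_lit 13) (.e (nat_lit 483354) (nat_lit 17) (.e (nat_lit 7936) (nat_lit 346) (.e (nat_lit 57354) (nat_lit 0) (.e (nat_lit 5907) (nat_lit 320) .nil))))))) (.g (nat_lit 4) .nil .nil))) 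
(.lf (nat_lit 29943) (.g (nat_lit 2018) (.e (nat_lit 1200) (nat_lit 88) (.e (nat_lit 65628) (nat_lit 14) (.e (nat_lit 401459) (nat_lit 13) (.e (nat_lit 483383) (nat_lit 23) .nil)))) .nil)))) (.nd (nat_lit 4) (.nd (nat_lit 5) 
(.lf (nat_lit 29903) (.g (nat_lit 2810) (.e (nat_lit 1200) (nat_lit 88) (.e (nat_lit 65628) (nat_lit 14) (.e (nat_lit 401459) (nat_lit 13) (.e (nat_lit 483350) (nat_lit 17) (.e (nat_lit 6113) (nat_lit 332) (.e (nat_lit 7936) (nat_lit 158) (.e (nat_lit 8439) (nat_lit 138) .nil))))))) (.g (nat_lit 4) .nil .nil))) 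
(.lf (nat_lit 29935) (.g (nat_lit 3344) (.e (nat_lit 1200) (nat_lit 88) (.e (nat_lit 65628) (nat_lit 14) (.e (nat_lit 401459) (nat_lit 13) (.e (nat_lit 483380) (nat_lit 23) (.e (nat_lit 335969) (nat_lit 0) .nil))))) .nil))) (.nd (nat_lit 5) 
(.lf (nat_lit 29919) (.g (nat_lit 3188) (.e (nat_lit 1200) (nat_lit 88) (.e (nat_lit 65628) (nat_lit 14) (.e (nat_lit 401459) (nat_lit 13) (.e (nat_lit 483372) (nat_lit 21) (.e (nat_lit 327424) (nat_lit 0) (.e (nat_lit 17) (nat_lit 0) (.e (nat_lit 5902) (nat_lit 320) .nil))))))) (.g (nat_lit 4) .nil .nil))) 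
(.lf (nat_lit 29951) (.g (nat_lit 2816) (.e (nat_lit 1200) (nat_lit 88) (.e (nat_lit 65628) (nat_lit 14) (.e (nat_lit 401459) (nat_lit 13) (.e (nat_lit 483386) (nat_lit 23) (.e (nat_lit 335985) (nat_lit 1) (.e (nat_lit 57872) (nat_lit 264) .nil)))))) (.g (nat_lit 0) .nil .nil)))))))))

noncomputable def tv416 : DT := (.nd (nat_lit 0) (.nd (nat_lit 1) (.nd (nat_lit 2) (.nd (nat_lit 3) (.nd (nat_lit 4) (.nd (nat_lit 5) 
(.lf (nat_lit 29952) (.g (nat_lit 1930) (.e (nat_lit 1200) (nat_lit 88) (.e (nat_lit 65628) (nat_lit 14) (.e (nat_lit 401459) (nat_lit 13) (.e (nat_lit 483386) (nat_lit 23) (.e (nat_lit 335991) (nat_lit 1) (.e (nat_lit 57873) (nat_lit 264) .nil)))))) (.g (nat_lit 4) .nil .nil))) 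
(.lf (nat_lit 29984) (.g (nat_lit 2779) (.e (nat_lit 1200) (nat_lit 88) (.e (nat_lit 65628) (nat_lit 14) (.e (nat_lit 401459) (nat_lit 13) (.e (nat_lit 483394) (nat_lit 24) (.e (nat_lit 344100) (nat_lit 18) (.e (nat_lit 5907) (nat_lit 320) .nil)))))) (.g (nat_lit 5) .nil .nil)))) (.nd (nat_lit 5) 
(.lf (nat_lit 29968) (.g (nat_lit 1793) (.e (nat_lit 1200) (nat_lit 88) (.e (nat_lit 65628) (nat_lit 14) (.e (nat_lit 401459) (nat_lit 13) (.e (nat_lit 483393) (nat_lit 23) .nil)))) .nil)) 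
(.lf (nat_lit 30000) (.g (nat_lit 3375) (.e (nat_lit 1200) (nat_lit 88) (.e (nat_lit 65628) (nat_lit 14) (.e (nat_lit 401459) (nat_lit 13) (.e (nat_lit 483396) (nat_lit 24) (.e (nat_lit 344100) (nat_lit 18) (.e (nat_lit 5907) (nat_lit 320) .nil)))))) (.g (nat_lit 4) .nil .nil))))) (.nd (nat_lit 4) (.nd (nat_lit 5) 
(.lf (nat_lit 29960) (.g (nat_lit 2637) (.e (nat_lit 1200) (nat_lit 88) (.e (nat_lit 65628) (nat_lit 14) (.e (nat_lit 401459) (nat_lit 13) (.e (nat_lit 483389) (nat_lit 23) (.e (nat_lit 335991) (nat_lit 1) (.e (nat_lit 57872) (nat_lit 264) .nil)))))) (.g (nat_lit 4) .nil .nil))) 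
(.lf (nat_lit 29992) (.g (nat_lit 1918) (.e (nat_lit 1200) (nat_lit 88) (.e (nat_lit 65628) (nat_lit 14) (.e (nat_lit 401459) (nat_lit 13) (.e (nat_lit 483395) (nat_lit 24) (.e (nat_lit 344099) (nat_lit 18) .nil))))) .nil))) (.nd (nat_lit 5) 
(.lf (nat_lit 29976) (.g (nat_lit 3508) (.e (nat_lit 1200) (nat_lit 88) (.e (nat_lit 65628) (nat_lit 14) (.e (nat_lit 401459) (nat_lit 13) (.e (nat_lit 483393) (nat_lit 23) (.e (nat_lit 335995) (nat_lit 1) (.e (nat_lit 57870) (nat_lit 264) .nil)))))) (.g (nat_lit 5) .nil .nil))) 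
(.lf (nat_lit 30008) (.g (nat_lit 3793) (.e (nat_lit 1200) (nat_lit 88) (.e (nat_lit 65628) (nat_lit 14) (.e (nat_lit 401459) (nat_lit 13) (.e (nat_lit 483400) (nat_lit 25) (.e (nat_lit 368662) (nat_lit 18) (.e (nat_lit 5906) (nat_lit 320) .nil)))))) (.g (nat_lit 0) .nil .nil)))))) (.nd (nat_lit 3) (.nd (nat_lit 4) (.nd (nat_lit 5) 
(.lf (nat_lit 29956) (.g (nat_lit 3482) (.e (nat_lit 1200) (nat_lit 88) (.e (nat_lit 65628) (nat_lit 14) (.e (nat_lit 401459) (nat_lit 13) (.e (nat_lit 483387) (nat_lit 23) (.e (nat_lit 335997) (nat_lit 1) (.e (nat_lit 57871) (nat_lit 264) .nil)))))) (.g (nat_lit 6) .nil .nil))) 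
(.lf (nat_lit 29988) (.g (nat_lit 1927) (.e (nat_lit 1200) (nat_lit 88) (.e (nat_lit 65628) (nat_lit 14) (.e (nat_lit 401459) (nat_lit 13) (.e (nat_lit 483395) (nat_lit 24) (.e (nat_lit 344089) (nat_lit 18) .nil))))) .nil))) (.nd (nat_lit 5) 
(.lf (nat_lit 29972) (.g (nat_lit 3929) (.e (nat_lit 1200) (nat_lit 88) (.e (nat_lit 65628) (nat_lit 14) (.e (nat_lit 401459) (nat_lit 13) (.e (nat_lit 483393) (nat_lit 23) (.e (nat_lit 335986) (nat_lit 1) (.e (nat_lit 57873) (nat_lit 264) .nil)))))) (.g (nat_lit 0) .nil .nil))) 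
(.lf (nat_lit 30004) (.g (nat_lit 3757) (.e (nat_lit 1200) (nat_lit 88) (.e (nat_lit 65628) (nat_lit 14) (.e (nat_lit 401459) (nat_lit 13) (.e (nat_lit 483399) (nat_lit 25) (.e (nat_lit 368662) (nat_lit 18) (.e (nat_lit 5906) (nat_lit 320) .nil)))))) (.g (nat_lit 0) .nil .nil))))) (.nd (nat_lit 4) (.nd (nat_lit 5) 
(.lf (nat_lit 29964) (.g (nat_lit 1800) (.e (nat_lit 1200) (nat_lit 88) (.e (nat_lit 65628) (nat_lit 14) (.e (nat_lit 401459) (nat_lit 13) (.e (nat_lit 483391) (nat_lit 23) .nil)))) .nil)) 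
(.lf (nat_lit 29996) (.g (nat_lit 2786) (.e (nat_lit 1200) (nat_lit 88) (.e (nat_lit 65628) (nat_lit 14) (.e (nat_lit 401459) (nat_lit 13) (.e (nat_lit 483396) (nat_lit 24) (.e (nat_lit 344093) (nat_lit 18) .nil))))) .nil))) (.nd (nat_lit 5) 
(.lf (nat_lit 29980) (.g (nat_lit 1110) (.e (nat_lit 1200) (nat_lit 88) (.e (nat_lit 65628) (nat_lit 14) (.e (nat_lit 401459) (nat_lit 13) (.e (nat_lit 483394) (nat_lit 24) .nil)))) .nil)) 
(.lf (nat_lit 30012) (.g (nat_lit 2226) (.e (nat_lit 1200) (nat_lit 88) (.e (nat_lit 65628) (nat_lit 14) (.e (nat_lit 401459) (nat_lit 13) (.e (nat_lit 483410) (nat_lit 27) (.e (nat_lit 401418) (nat_lit 0) .nil))))) .nil)))))) (.nd (nat_lit 2) (.nd (nat_lit 3) (.nd (nat_lit 4) (.nd (nat_lit 5) 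
(.lf (nat_lit 29954) (.g (nat_lit 1843) (.e (nat_lit 1200) (nat_lit 88) (.e (nat_lit 65628) (nat_lit 14) (.e (nat_lit 401459) (nat_lit 13) (.e (nat_lit 483386) (nat_lit 23) (.e (nat_lit 335992) (nat_lit 1) (.e (nat_lit 57872) (nat_lit 264) .nil)))))) (.g (nat_lit 4) .nil .nil))) 
(.lf (nat_lit 29986) (.g (nat_lit 2119) (.e (nat_lit 1200) (nat_lit 88) (.e (nat_lit 65628) (nat_lit 14) (.e (nat_lit 401459) (nat_lit 13) (.e (nat_lit 483395) (nat_lit 24) (.e (nat_lit 344088) (nat_lit 18) (.e (nat_lit 5862) (nat_lit 320) .nil)))))) (.g (nat_lit 4) .nil .nil)))) (.nd (nat_lit 5) 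
(.lf (nat_lit 29970) (.g (nat_lit 3451) (.e (nat_lit 1200) (nat_lit 88) (.e (nat_lit 65628) (nat_lit 14) (.e (nat_lit 401459) (nat_lit 13) (.e (nat_lit 483393) (nat_lit 23) (.e (nat_lit 335986) (nat_lit 1) (.e (nat_lit 57871) (nat_lit 264) .nil)))))) (.g (nat_lit 5) .nil .nil))) 
(.lf (nat_lit 30002) (.g (nat_lit 1511) (.e (nat_lit 1200) (nat_lit 88) (.e (nat_lit 65628) (nat_lit 14) (.e (nat_lit 401459) (nat_lit 13) (.e (nat_lit 483398) (nat_lit 25) .nil)))) .nil)))) (.nd (nat_lit 4) (.nd (nat_lit 5) 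
(.lf (nat_lit 29962) (.g (nat_lit 2801) (.e (nat_lit 1200) (nat_lit 88) (.e (nat_lit 65628) (nat_lit 14) (.e (nat_lit 401459) (nat_lit 13) (.e (nat_lit 483389) (nat_lit 23) (.e (nat_lit 335997) (nat_lit 1) (.e (nat_lit 57871) (nat_lit 264) .nil)))))) (.g (nat_lit 4) .nil .nil))) 
(.lf (nat_lit 29994) (.g (nat_lit 1891) (.e (nat_lit 1200) (nat_lit 88) (.e (nat_lit 65628) (nat_lit 14) (.e (nat_lit 401459) (nat_lit 13) (.e (nat_lit 483396) (nat_lit 24) .nil)))) .nil))) (.nd (nat_lit 5) 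
(.lf (nat_lit 29978) (.g (nat_lit 4072) (.e (nat_lit 1200) (nat_lit 88) (.e (nat_lit 65628) (nat_lit 14) (.e (nat_lit 401459) (nat_lit 13) (.e (nat_lit 483393) (nat_lit 23) (.e (nat_lit 335996) (nat_lit 1) (.e (nat_lit 57870) (nat_lit 264) .nil)))))) (.g (nat_lit 6) .nil .nil))) 
(.lf (nat_lit 30010) (.g (nat_lit 1019) (.e (nat_lit 1200) (nat_lit 88) (.e (nat_lit 65628) (nat_lit 14) (.e (nat_lit 401459) (nat_lit 13) (.e (nat_lit 483410) (nat_lit 27) .nil)))) .nil))))) (.nd (nat_lit 3) (.nd (nat_lit 4) (.nd (nat_lit 5) 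
(.lf (nat_lit 29958) (.g (nat_lit 2105) (.e (nat_lit 1200) (nat_lit 88) (.e (nat_lit 65628) (nat_lit 14) (.e (nat_lit 401459) (nat_lit 13) (.e (nat_lit 483388) (nat_lit 23) .nil)))) .nil)) 
(.lf (nat_lit 29990) (.g (nat_lit 2505) (.e (nat_lit 1200) (nat_lit 88) (.e (nat_lit 65628) (nat_lit 14) (.e (nat_lit 401459) (nat_lit 13) (.e (nat_lit 483395) (nat_lit 24) (.e (nat_lit 344096) (nat_lit 18) (.e (nat_lit 5896) (nat_lit 320) .nil)))))) (.g (nat_lit 5) .nil .nil)))) (.nd (nat_lit 5) 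
(.lf (nat_lit 29974) (.g (nat_lit 3613) (.e (nat_lit 1200) (nat_lit 88) (.e (nat_lit 65628) (nat_lit 14) (.e (nat_lit 401459) (nat_lit 13) (.e (nat_lit 483393) (nat_lit 23) (.e (nat_lit 335988) (nat_lit 1) (.e (nat_lit 57870) (nat_lit 264) .nil)))))) (.g (nat_lit 5) .nil .nil))) 
(.lf (nat_lit 30006) (.g (nat_lit 2031) (.e (nat_lit 1200) (nat_lit 88) (.e (nat_lit 65628) (nat_lit 14) (.e (nat_lit 401459) (nat_lit 13) (.e (nat_lit 483399) (nat_lit 25) (.e (nat_lit 368663) (nat_lit 18) .nil))))) .nil)))) (.nd (nat_lit 4) (.nd (nat_lit 5) 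
(.lf (nat_lit 29966) (.g (nat_lit 2044) (.e (nat_lit 1200) (nat_lit 88) (.e (nat_lit 65628) (nat_lit 14) (.e (nat_lit 401459) (nat_lit 13) (.e (nat_lit 483392) (nat_lit 23) .nil)))) .nil)) 
(.lf (nat_lit 29998) (.g (nat_lit 2976) (.e (nat_lit 1200) (nat_lit 88) (.e (nat_lit 65628) (nat_lit 14) (.e (nat_lit 401459) (nat_lit 13) (.e (nat_lit 483396) (nat_lit 24) (.e (nat_lit 344097) (nat_lit 18) (.e (nat_lit 5907) (nat_lit 320) .nil)))))) (.g (nat_lit 4) .nil .nil)))) (.nd (nat_lit 5) 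
(.lf (nat_lit 29982) (.g (nat_lit 3849) (.e (nat_lit 1200) (nat_lit 88) (.e (nat_lit 65628) (nat_lit 14) (.e (nat_lit 401459) (nat_lit 13) (.e (nat_lit 483394) (nat_lit 24) (.e (nat_lit 344097) (nat_lit 18) (.e (nat_lit 5905) (nat_lit 320) .nil)))))) (.g (nat_lit 6) .nil .nil))) 
(.lf (nat_lit 30014) (.g (nat_lit 2748) (.e (nat_lit 1200) (nat_lit 88) (.e (nat_lit 65628) (nat_lit 14) (.e (nat_lit 401459) (nat_lit 13) (.e (nat_lit 483410) (nat_lit 27) (.e (nat_lit 401422) (nat_lit 1) (.e (nat_lit 164422) (nat_lit 272) .nil)))))) (.g (nat_lit 4) .nil .nil)))))))) (.nd (nat_lit 1) (.nd (nat_lit 2) (.nd (nat_lit 3) (.nd (nat_lit 4) (.nd (nat_lit 5) 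
(.lf (nat_lit 29953) (.g (nat_lit 2788) (.e (nat_lit 1200) (nat_lit 88) (.e (nat_lit 65628) (nat_lit 14) (.e (nat_lit 401459) (nat_lit 13) (.e (nat_lit 483386) (nat_lit 23) (.e (nat_lit 335992) (nat_lit 1) (.e (nat_lit 57870) (nat_lit 264) .nil)))))) (.g (nat_lit 6) .nil .nil))) 
(.lf (nat_lit 29985) (.g (nat_lit 988) (.e (nat_lit 1200) (nat_lit 88) (.e (nat_lit 65628) (nat_lit 14) (.e (nat_lit 401459) (nat_lit 13) (.e (nat_lit 483395) (nat_lit 24) .nil)))) .nil))) (.nd (nat_lit 5) 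
(.lf (nat_lit 29969) (.g (nat_lit 2746) (.e (nat_lit 1200) (nat_lit 88) (.e (nat_lit 65628) (nat_lit 14) (.e (nat_lit 401459) (nat_lit 13) (.e (nat_lit 483393) (nat_lit 23) (.e (nat_lit 335986) (nat_lit 1) (.e (nat_lit 57870) (nat_lit 264) .nil)))))) (.g (nat_lit 4) .nil .nil))) 
(.lf (nat_lit 30001) (.g (nat_lit 2233) (.e (nat_lit 1200) (nat_lit 88) (.e (nat_lit 65628) (nat_lit 14) (.e (nat_lit 401459) (nat_lit 13) (.e (nat_lit 483397) (nat_lit 25) .nil)))) .nil)))) (.nd (nat_lit 4) (.nd (nat_lit 5) 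
(.lf (nat_lit 29961) (.g (nat_lit 2882) (.e (nat_lit 1200) (nat_lit 88) (.e (nat_lit 65628) (nat_lit 14) (.e (nat_lit 401459) (nat_lit 13) (.e (nat_lit 483389) (nat_lit 23) (.e (nat_lit 335997) (nat_lit 1) (.e (nat_lit 57870) (nat_lit 264) .nil)))))) (.g (nat_lit 5) .nil .nil))) 
(.lf (nat_lit 29993) (.g (nat_lit 1833) (.e (nat_lit 1200) (nat_lit 88) (.e (nat_lit 65628) (nat_lit 14) (.e (nat_lit 401459) (nat_lit 13) (.e (nat_lit 483395) (nat_lit 24) (.e (nat_lit 344101) (nat_lit 18) .nil))))) .nil))) (.nd (nat_lit 5) 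
(.lf (nat_lit 29977) (.g (nat_lit 4187) (.e (nat_lit 1200) (nat_lit 88) (.e (nat_lit 65628) (nat_lit 14) (.e (nat_lit 401459) (nat_lit 13) (.e (nat_lit 483393) (nat_lit 23) (.e (nat_lit 335995) (nat_lit 1) (.e (nat_lit 57872) (nat_lit 264) .nil)))))) (.g (nat_lit 6) .nil .nil))) 
(.lf (nat_lit 30009) (.g (nat_lit 3632) (.e (nat_lit 1200) (nat_lit 88) (.e (nat_lit 65628) (nat_lit 14) (.e (nat_lit 401459) (nat_lit 13) (.e (nat_lit 483400) (nat_lit 25) (.e (nat_lit 368662) (nat_lit 18) (.e (nat_lit 5907) (nat_lit 320) .nil)))))) (.g (nat_lit 0) .nil .nil)))))) (.nd (nat_lit 3) (.nd (nat_lit 4) (.nd (nat_lit 5) 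
(.lf (nat_lit 29957) (.g (nat_lit 3628) (.e (nat_lit 1200) (nat_lit 88) (.e (nat_lit 65628) (nat_lit 14) (.e (nat_lit 401459) (nat_lit 13) (.e (nat_lit 483387) (nat_lit 23) (.e (nat_lit 335997) (nat_lit 1) (.e (nat_lit 57872) (nat_lit 264) .nil)))))) (.g (nat_lit 0) .nil .nil))) 
(.lf (nat_lit 29989) (.g (nat_lit 3870) (.e (nat_lit 1200) (nat_lit 88) (.e (nat_lit 65628) (nat_lit 14) (.e (nat_lit 401459) (nat_lit 13) (.e (nat_lit 483395) (nat_lit 24) (.e (nat_lit 344090) (nat_lit 18) (.e (nat_lit 5896) (nat_lit 320) .nil)))))) (.g (nat_lit 6) .nil .nil)))) (.nd (nat_lit 5) 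
(.lf (nat_lit 29973) (.g (nat_lit 3095) (.e (nat_lit 1200) (nat_lit 88) (.e (nat_lit 65628) (nat_lit 14) (.e (nat_lit 401459) (nat_lit 13) (.e (nat_lit 483393) (nat_lit 23) (.e (nat_lit 335987) (nat_lit 1) (.e (nat_lit 57870) (nat_lit 264) .nil)))))) (.g (nat_lit 5) .nil .nil))) 
(.lf (nat_lit 30005) (.g (nat_lit 3591) (.e (nat_lit 1200) (nat_lit 88) (.e (nat_lit 65628) (nat_lit 14) (.e (nat_lit 401459) (nat_lit 13) (.e (nat_lit 483399) (nat_lit 25) (.e (nat_lit 368662) (nat_lit 18) (.e (nat_lit 5907) (nat_lit 320) .nil)))))) (.g (nat_lit 0) .nil .nil))))) (.nd (nat_lit 4) (.nd (nat_lit 5) 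
(.lf (nat_lit 29965) (.g (nat_lit 3914) (.e (nat_lit 1200) (nat_lit 88) (.e (nat_lit 65628) (nat_lit 14) (.e (nat_lit 401459) (nat_lit 13) (.e (nat_lit 483391) (nat_lit 23) (.e (nat_lit 335998) (nat_lit 1) (.e (nat_lit 57873) (nat_lit 264) .nil)))))) (.g (nat_lit 6) .nil .nil))) 
(.lf (nat_lit 29997) (.g (nat_lit 2777) (.e (nat_lit 1200) (nat_lit 88) (.e (nat_lit 65628) (nat_lit 14) (.e (nat_lit 401459) (nat_lit 13) (.e (nat_lit 483396) (nat_lit 24) (.e (nat_lit 344097) (nat_lit 18) (.e (nat_lit 5906) (nat_lit 320) .nil)))))) (.g (nat_lit 4) .nil .nil)))) (.nd (nat_lit 5) 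
(.lf (nat_lit 29981) (.g (nat_lit 3515) (.e (nat_lit 1200) (nat_lit 88) (.e (nat_lit 65628) (nat_lit 14) (.e (nat_lit 401459) (nat_lit 13) (.e (nat_lit 483394) (nat_lit 24) (.e (nat_lit 344090) (nat_lit 18) (.e (nat_lit 5896) (nat_lit 320) .nil)))))) (.g (nat_lit 6) .nil .nil))) 
(.lf (nat_lit 30013) (.g (nat_lit 2244) (.e (nat_lit 1200) (nat_lit 88) (.e (nat_lit 65628) (nat_lit 14) (.e (nat_lit 401459) (nat_lit 13) (.e (nat_lit 483410) (nat_lit 27) (.e (nat_lit 401420) (nat_lit 1) .nil))))) .nil)))))) (.nd (nat_lit 2) (.nd (nat_lit 3) (.nd (nat_lit 4) (.nd (nat_lit 5) 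
(.lf (nat_lit 29955) (.g (nat_lit 3417) (.e (nat_lit 1200) (nat_lit 88) (.e (nat_lit 65628) (nat_lit 14) (.e (nat_lit 401459) (nat_lit 13) (.e (nat_lit 483387) (nat_lit 23) (.e (nat_lit 335997) (nat_lit 1) (.e (nat_lit 57870) (nat_lit 264) .nil)))))) (.g (nat_lit 6) .nil .nil))) 
(.lf (nat_lit 29987) (.g (nat_lit 2190) (.e (nat_lit 1200) (nat_lit 88) (.e (nat_lit 65628) (nat_lit 14) (.e (nat_lit 401459) (nat_lit 13) (.e (nat_lit 483395) (nat_lit 24) (.e (nat_lit 344088) (nat_lit 18) (.e (nat_lit 5896) (nat_lit 320) .nil)))))) (.g (nat_lit 4) .nil .nil)))) (.nd (nat_lit 5) 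
(.lf (nat_lit 29971) (.g (nat_lit 3146) (.e (nat_lit 1200) (nat_lit 88) (.e (nat_lit 65628) (nat_lit 14) (.e (nat_lit 401459) (nat_lit 13) (.e (nat_lit 483393) (nat_lit 23) (.e (nat_lit 335986) (nat_lit 1) (.e (nat_lit 57872) (nat_lit 264) .nil)))))) (.g (nat_lit 5) .nil .nil))) 
(.lf (nat_lit 30003) (.g (nat_lit 1453) (.e (nat_lit 1200) (nat_lit 88) (.e (nat_lit 65628) (nat_lit 14) (.e (nat_lit 401459) (nat_lit 13) (.e (nat_lit 483399) (nat_lit 25) .nil)))) .nil)))) (.nd (nat_lit 4) (.nd (nat_lit 5) 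
(.lf (nat_lit 29963) (.g (nat_lit 2865) (.e (nat_lit 1200) (nat_lit 88) (.e (nat_lit 65628) (nat_lit 14) (.e (nat_lit 401459) (nat_lit 13) (.e (nat_lit 483389) (nat_lit 23) (.e (nat_lit 335997) (nat_lit 1) (.e (nat_lit 57872) (nat_lit 264) .nil)))))) (.g (nat_lit 5) .nil .nil))) 
(.lf (nat_lit 29995) (.g (nat_lit 2767) (.e (nat_lit 1200) (nat_lit 88) (.e (nat_lit 65628) (nat_lit 14) (.e (nat_lit 401459) (nat_lit 13) (.e (nat_lit 483396) (nat_lit 24) (.e (nat_lit 344091) (nat_lit 18) .nil))))) .nil))) (.nd (nat_lit 5) 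
(.lf (nat_lit 29979) (.g (nat_lit 1695) (.e (nat_lit 1200) (nat_lit 88) (.e (nat_lit 65628) (nat_lit 14) (.e (nat_lit 401459) (nat_lit 13) (.e (nat_lit 491264) (nat_lit 23) .nil)))) .nil)) 
(.lf (nat_lit 30011) (.g (nat_lit 1889) (.e (nat_lit 1200) (nat_lit 88) (.e (nat_lit 65628) (nat_lit 14) (.e (nat_lit 401459) (nat_lit 13) (.e (nat_lit 483410) (nat_lit 27) (.e (nat_lit 401414) (nat_lit 0) .nil))))) .nil))))) (.nd (nat_lit 3) (.nd (nat_lit 4) (.nd (nat_lit 5) 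
(.lf (nat_lit 29959) (.g (nat_lit 1912) (.e (nat_lit 1200) (nat_lit 88) (.e (nat_lit 65628) (nat_lit 14) (.e (nat_lit 401459) (nat_lit 13) (.e (nat_lit 483389) (nat_lit 23) .nil)))) .nil)) 
(.lf (nat_lit 29991) (.g (nat_lit 3481) (.e (nat_lit 1200) (nat_lit 88) (.e (nat_lit 65628) (nat_lit 14) (.e (nat_lit 401459) (nat_lit 13) (.e (nat_lit 483395) (nat_lit 24) (.e (nat_lit 344097) (nat_lit 18) (.e (nat_lit 5905) (nat_lit 320) .nil)))))) (.g (nat_lit 6) .nil .nil)))) (.nd (nat_lit 5) 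
(.lf (nat_lit 29975) (.g (nat_lit 2523) (.e (nat_lit 1200) (nat_lit 88) (.e (nat_lit 65628) (nat_lit 14) (.e (nat_lit 401459) (nat_lit 13) (.e (nat_lit 483393) (nat_lit 23) (.e (nat_lit 335993) (nat_lit 1) .nil))))) .nil)) 
(.lf (nat_lit 30007) (.g (nat_lit 1690) (.e (nat_lit 1200) (nat_lit 88) (.e (nat_lit 65628) (nat_lit 14) (.e (nat_lit 401459) (nat_lit 13) (.e (nat_lit 483400) (nat_lit 25) .nil)))) .nil)))) (.nd (nat_lit 4) (.nd (nat_lit 5) 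
(.lf (nat_lit 29967) (.g (nat_lit 3334) (.e (nat_lit 1200) (nat_lit 88) (.e (nat_lit 65628) (nat_lit 14) (.e (nat_lit 401459) (nat_lit 13) (.e (nat_lit 483392) (nat_lit 23) (.e (nat_lit 335995) (nat_lit 1) (.e (nat_lit 57872) (nat_lit 264) .nil)))))) (.g (nat_lit 5) .nil .nil))) 
(.lf (nat_lit 29999) (.g (nat_lit 2783) (.e (nat_lit 1200) (nat_lit 88) (.e (nat_lit 65628) (nat_lit 14) (.e (nat_lit 401459) (nat_lit 13) (.e (nat_lit 483396) (nat_lit 24) (.e (nat_lit 344100) (nat_lit 18) .nil))))) .nil))) (.nd (nat_lit 5) 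
(.lf (nat_lit 29983) (.g (nat_lit 2017) (.e (nat_lit 1200) (nat_lit 88) (.e (nat_lit 65628) (nat_lit 14) (.e (nat_lit 401459) (nat_lit 13) (.e (nat_lit 483394) (nat_lit 24) (.e (nat_lit 344100) (nat_lit 18) (.e (nat_lit 5906) (nat_lit 320) .nil)))))) (.g (nat_lit 4) .nil .nil))) 
(.lf (nat_lit 30015) (.g (nat_lit 2186) (.e (nat_lit 1200) (nat_lit 88) (.e (nat_lit 65628) (nat_lit 14) (.e (nat_lit 401459) (nat_lit 13) (.e (nat_lit 483410) (nat_lit 27) (.e (nat_lit 401422) (nat_lit 1) (.e (nat_lit 164423) (nat_lit 272) .nil)))))) (.g (nat_lit 4) .nil .nil)))))))))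

noncomputable def tv417 : DT := (.nd (nat_lit 0) (.nd (nat_lit 1) (.nd (nat_lit 2) (.nd (nat_lit 3) (.nd (nat_lit 4) (.nd (nat_lit 5) 
(.lf (nat_lit 30016) (.g (nat_lit 2586) (.e (nat_lit 1200) (nat_lit 88) (.e (nat_lit 65628) (nat_lit 14) (.e (nat_lit 401459) (nat_lit 13) (.e (nat_lit 483410) (nat_lit 27) (.e (nat_lit 401422) (nat_lit 1) (.e (nat_lit 164424) (nat_lit 272) .nil)))))) (.g (nat_lit 4) .nil .nil))) 
(.lf (nat_lit 30048) (.g (nat_lit 2667) (.e (nat_lit 1200) (nat_lit 88) (.e (nat_lit 65628) (nat_lit 14) (.e (nat_lit 401459) (nat_lit 13) (.e (nat_lit 483411) (nat_lit 27) (.e (nat_lit 401421) (nat_lit 1) (.e (nat_lit 164423) (nat_lit 272) .nil)))))) (.g (nat_lit 4) .nil .nil)))) (.nd (nat_lit 5) 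
(.lf (nat_lit 30032) (.g (nat_lit 2402) (.e (nat_lit 1200) (nat_lit 88) (.e (nat_lit 65628) (nat_lit 14) (.e (nat_lit 401459) (nat_lit 13) (.e (nat_lit 483411) (nat_lit 27) (.e (nat_lit 401414) (nat_lit 0) (.e (nat_lit 2478) (nat_lit 157) (.e (nat_lit 4606) (nat_lit 269) .nil))))))) (.g (nat_lit 4) .nil .nil))) 
(.lf (nat_lit 30064) (.g (nat_lit 2909) (.e (nat_lit 1200) (nat_lit 88) (.e (nat_lit 65629) (nat_lit 14) (.e (nat_lit 401459) (nat_lit 13) (.e (nat_lit 483344) (nat_lit 17) (.e (nat_lit 6155) (nat_lit 332) (.e (nat_lit 2544) (nat_lit 158) (.e (nat_lit 8439) (nat_lit 138) .nil))))))) (.g (nat_lit 4) .nil .nil))))) (.nd (nat_lit 4) (.nd (nat_lit 5) 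
(.lf (nat_lit 30024) (.g (nat_lit 2442) (.e (nat_lit 1200) (nat_lit 88) (.e (nat_lit 65628) (nat_lit 14) (.e (nat_lit 401459) (nat_lit 13) (.e (nat_lit 483411) (nat_lit 27) (.e (nat_lit 401414) (nat_lit 0) (.e (nat_lit 2438) (nat_lit 157) (.e (nat_lit 4603) (nat_lit 269) .nil))))))) (.g (nat_lit 4) .nil .nil))) 
(.lf (nat_lit 30056) (.g (nat_lit 445) (.e (nat_lit 1200) (nat_lit 88) (.e (nat_lit 65629) (nat_lit 14) (.e (nat_lit 401459) (nat_lit 13) .nil))) .nil))) (.nd (nat_lit 5) 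
(.lf (nat_lit 30040) (.g (nat_lit 2906) (.e (nat_lit 1200) (nat_lit 88) (.e (nat_lit 65628) (nat_lit 14) (.e (nat_lit 401459) (nat_lit 13) (.e (nat_lit 483411) (nat_lit 27) (.e (nat_lit 401418) (nat_lit 0) (.e (nat_lit 2471) (nat_lit 157) (.e (nat_lit 4605) (nat_lit 269) .nil))))))) (.g (nat_lit 4) .nil .nil))) 
(.lf (nat_lit 30072) (.g (nat_lit 4137) (.e (nat_lit 1200) (nat_lit 88) (.e (nat_lit 65629) (nat_lit 14) (.e (nat_lit 401459) (nat_lit 13) (.e (nat_lit 483344) (nat_lit 17) (.e (nat_lit 6514) (nat_lit 346) (.e (nat_lit 57354) (nat_lit 0) (.e (nat_lit 5907) (nat_lit 320) .nil))))))) (.g (nat_lit 6) .nil .nil)))))) (.nd (nat_lit 3) (.nd (nat_lit 4) (.nd (nat_lit 5) 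
(.lf (nat_lit 30020) (.g (nat_lit 3094) (.e (nat_lit 1200) (nat_lit 88) (.e (nat_lit 65628) (nat_lit 14) (.e (nat_lit 401459) (nat_lit 13) (.e (nat_lit 483411) (nat_lit 27) (.e (nat_lit 401413) (nat_lit 0) .nil))))) .nil)) 
(.lf (nat_lit 30052) (.g (nat_lit 3114) (.e (nat_lit 1200) (nat_lit 88) (.e (nat_lit 65628) (nat_lit 14) (.e (nat_lit 401459) (nat_lit 13) (.e (nat_lit 483411) (nat_lit 27) (.e (nat_lit 401422) (nat_lit 1) (.e (nat_lit 164423) (nat_lit 272) .nil)))))) (.g (nat_lit 4) .nil .nil)))) (.nd (nat_lit 5) 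
(.lf (nat_lit 30036) (.g (nat_lit 3255) (.e (nat_lit 1200) (nat_lit 88) (.e (nat_lit 65628) (nat_lit 14) (.e (nat_lit 401459) (nat_lit 13) (.e (nat_lit 483411) (nat_lit 27) (.e (nat_lit 401417) (nat_lit 0) (.e (nat_lit 2443) (nat_lit 157) (.e (nat_lit 4598) (nat_lit 269) .nil))))))) (.g (nat_lit 4) .nil .nil))) 
(.lf (nat_lit 30068) (.g (nat_lit 2772) (.e (nat_lit 1200) (nat_lit 88) (.e (nat_lit 65629) (nat_lit 14) (.e (nat_lit 401459) (nat_lit 13) (.e (nat_lit 483344) (nat_lit 17) (.e (nat_lit 6436) (nat_lit 343) .nil))))) .nil)))) (.nd (nat_lit 4) (.nd (nat_lit 5) 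
(.lf (nat_lit 30028) (.g (nat_lit 4040) (.e (nat_lit 1200) (nat_lit 88) (.e (nat_lit 65628) (nat_lit 14) (.e (nat_lit 401459) (nat_lit 13) (.e (nat_lit 483411) (nat_lit 27) (.e (nat_lit 401414) (nat_lit 0) (.e (nat_lit 2458) (nat_lit 157) (.e (nat_lit 4607) (nat_lit 269) .nil))))))) (.g (nat_lit 7) .nil .nil))) 
(.lf (nat_lit 30060) (.g (nat_lit 1774) (.e (nat_lit 1200) (nat_lit 88) (.e (nat_lit 65629) (nat_lit 14) (.e (nat_lit 401459) (nat_lit 13) (.e (nat_lit 483344) (nat_lit 17) .nil)))) .nil))) (.nd (nat_lit 5) 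
(.lf (nat_lit 30044) (.g (nat_lit 2773) (.e (nat_lit 1200) (nat_lit 88) (.e (nat_lit 65628) (nat_lit 14) (.e (nat_lit 401459) (nat_lit 13) (.e (nat_lit 483411) (nat_lit 27) (.e (nat_lit 401420) (nat_lit 1) (.e (nat_lit 164423) (nat_lit 272) .nil)))))) (.g (nat_lit 4) .nil .nil))) 
(.lf (nat_lit 30076) (.g (nat_lit 4014) (.e (nat_lit 1200) (nat_lit 88) (.e (nat_lit 65629) (nat_lit 14) (.e (nat_lit 401459) (nat_lit 13) (.e (nat_lit 483344) (nat_lit 17) (.e (nat_lit 6619) (nat_lit 357) (.e (nat_lit 2612) (nat_lit 163) (.e (nat_lit 164422) (nat_lit 272) .nil))))))) (.g (nat_lit 6) .nil .nil))))))) (.nd (nat_lit 2) (.nd (nat_lit 3) (.nd (nat_lit 4) (.nd (nat_lit 5) 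
(.lf (nat_lit 30018) (.g (nat_lit 2817) (.e (nat_lit 1200) (nat_lit 88) (.e (nat_lit 65628) (nat_lit 14) (.e (nat_lit 401459) (nat_lit 13) (.e (nat_lit 483411) (nat_lit 27) (.e (nat_lit 401408) (nat_lit 0) (.e (nat_lit 2422) (nat_lit 157) (.e (nat_lit 4598) (nat_lit 269) .nil))))))) (.g (nat_lit 4) .nil .nil))) 
(.lf (nat_lit 30050) (.g (nat_lit 2827) (.e (nat_lit 1200) (nat_lit 88) (.e (nat_lit 65628) (nat_lit 14) (.e (nat_lit 401459) (nat_lit 13) (.e (nat_lit 483411) (nat_lit 27) (.e (nat_lit 401422) (nat_lit 1) (.e (nat_lit 164421) (nat_lit 272) .nil)))))) (.g (nat_lit 4) .nil .nil)))) (.nd (nat_lit 5) 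
(.lf (nat_lit 30034) (.g (nat_lit 2887) (.e (nat_lit 1200) (nat_lit 88) (.e (nat_lit 65628) (nat_lit 14) (.e (nat_lit 401459) (nat_lit 13) (.e (nat_lit 483411) (nat_lit 27) (.e (nat_lit 401416) (nat_lit 0) .nil))))) .nil)) 
(.lf (nat_lit 30066) (.g (nat_lit 2941) (.e (nat_lit 1200) (nat_lit 88) (.e (nat_lit 65629) (nat_lit 14) (.e (nat_lit 401459) (nat_lit 13) (.e (nat_lit 483344) (nat_lit 17) (.e (nat_lit 6434) (nat_lit 343) (.e (nat_lit 1183) (nat_lit 87) (.e (nat_lit 57871) (nat_lit 264) .nil))))))) (.g (nat_lit 4) .nil .nil))))) (.nd (nat_lit 4) (.nd (nat_lit 5) 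
(.lf (nat_lit 30026) (.g (nat_lit 2452) (.e (nat_lit 1200) (nat_lit 88) (.e (nat_lit 65628) (nat_lit 14) (.e (nat_lit 401459) (nat_lit 13) (.e (nat_lit 483411) (nat_lit 27) (.e (nat_lit 401414) (nat_lit 0) (.e (nat_lit 2458) (nat_lit 157) (.e (nat_lit 4602) (nat_lit 269) .nil))))))) (.g (nat_lit 4) .nil .nil))) 
(.lf (nat_lit 30058) (.g (nat_lit 2243) (.e (nat_lit 1200) (nat_lit 88) (.e (nat_lit 65629) (nat_lit 14) (.e (nat_lit 401459) (nat_lit 13) (.e (nat_lit 483343) (nat_lit 17) (.e (nat_lit 6513) (nat_lit 346) .nil))))) .nil))) (.nd (nat_lit 5) 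
(.lf (nat_lit 30042) (.g (nat_lit 2509) (.e (nat_lit 1200) (nat_lit 88) (.e (nat_lit 65628) (nat_lit 14) (.e (nat_lit 401459) (nat_lit 13) (.e (nat_lit 483411) (nat_lit 27) (.e (nat_lit 401420) (nat_lit 1) (.e (nat_lit 164421) (nat_lit 272) .nil)))))) (.g (nat_lit 4) .nil .nil))) 
(.lf (nat_lit 30074) (.g (nat_lit 2773) (.e (nat_lit 1200) (nat_lit 88) (.e (nat_lit 65629) (nat_lit 14) (.e (nat_lit 401459) (nat_lit 13) (.e (nat_lit 483344) (nat_lit 17) (.e (nat_lit 7936) (nat_lit 346) (.e (nat_lit 57354) (nat_lit 0) (.e (nat_lit 5907) (nat_lit 320) .nil))))))) (.g (nat_lit 4) .nil .nil)))))) (.nd (nat_lit 3) (.nd (nat_lit 4) (.nd (nat_lit 5) 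
(.lf (nat_lit 30022) (.g (nat_lit 2920) (.e (nat_lit 1200) (nat_lit 88) (.e (nat_lit 65628) (nat_lit 14) (.e (nat_lit 401459) (nat_lit 13) (.e (nat_lit 483411) (nat_lit 27) (.e (nat_lit 401414) (nat_lit 0) (.e (nat_lit 2423) (nat_lit 157) (.e (nat_lit 4616) (nat_lit 269) .nil))))))) (.g (nat_lit 4) .nil .nil))) 
(.lf (nat_lit 30054) (.g (nat_lit 2848) (.e (nat_lit 1200) (nat_lit 88) (.e (nat_lit 65628) (nat_lit 14) (.e (nat_lit 401459) (nat_lit 13) (.e (nat_lit 483411) (nat_lit 27) (.e (nat_lit 401429) (nat_lit 4) .nil))))) .nil))) (.nd (nat_lit 5) 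
(.lf (nat_lit 30038) (.g (nat_lit 3002) (.e (nat_lit 1200) (nat_lit 88) (.e (nat_lit 65628) (nat_lit 14) (.e (nat_lit 401459) (nat_lit 13) (.e (nat_lit 483411) (nat_lit 27) (.e (nat_lit 401418) (nat_lit 0) (.e (nat_lit 2416) (nat_lit 157) (.e (nat_lit 4598) (nat_lit 269) .nil))))))) (.g (nat_lit 4) .nil .nil))) 
(.lf (nat_lit 30070) (.g (nat_lit 2894) (.e (nat_lit 1200) (nat_lit 88) (.e (nat_lit 65629) (nat_lit 14) (.e (nat_lit 401459) (nat_lit 13) (.e (nat_lit 483344) (nat_lit 17) (.e (nat_lit 6479) (nat_lit 343) .nil))))) .nil)))) (.nd (nat_lit 4) (.nd (nat_lit 5) 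
(.lf (nat_lit 30030) (.g (nat_lit 2747) (.e (nat_lit 1200) (nat_lit 88) (.e (nat_lit 65628) (nat_lit 14) (.e (nat_lit 401459) (nat_lit 13) (.e (nat_lit 483411) (nat_lit 27) (.e (nat_lit 401414) (nat_lit 0) (.e (nat_lit 2477) (nat_lit 157) (.e (nat_lit 4607) (nat_lit 269) .nil))))))) (.g (nat_lit 4) .nil .nil))) 
(.lf (nat_lit 30062) (.g (nat_lit 3103) (.e (nat_lit 1200) (nat_lit 88) (.e (nat_lit 65629) (nat_lit 14) (.e (nat_lit 401459) (nat_lit 13) (.e (nat_lit 483344) (nat_lit 17) (.e (nat_lit 6152) (nat_lit 332) (.e (nat_lit 2546) (nat_lit 158) (.e (nat_lit 8439) (nat_lit 138) .nil))))))) (.g (nat_lit 4) .nil .nil)))) (.nd (nat_lit 5) 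
(.lf (nat_lit 30046) (.g (nat_lit 2865) (.e (nat_lit 1200) (nat_lit 88) (.e (nat_lit 65628) (nat_lit 14) (.e (nat_lit 401459) (nat_lit 13) (.e (nat_lit 483411) (nat_lit 27) (.e (nat_lit 401421) (nat_lit 1) (.e (nat_lit 164421) (nat_lit 272) .nil)))))) (.g (nat_lit 4) .nil .nil))) 
(.lf (nat_lit 30078) (.g (nat_lit 2631) (.e (nat_lit 1200) (nat_lit 88) (.e (nat_lit 65629) (nat_lit 14) (.e (nat_lit 401459) (nat_lit 13) (.e (nat_lit 483344) (nat_lit 17) (.e (nat_lit 6696) (nat_lit 357) .nil))))) .nil))))))) (.nd (nat_lit 1) (.nd (nat_lit 2) (.nd (nat_lit 3) (.nd (nat_lit 4) (.nd (nat_lit 5) 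
(.lf (nat_lit 30017) (.g (nat_lit 2436) (.e (nat_lit 1200) (nat_lit 88) (.e (nat_lit 65628) (nat_lit 14) (.e (nat_lit 401459) (nat_lit 13) (.e (nat_lit 483411) (nat_lit 27) (.e (nat_lit 401408) (nat_lit 0) .nil))))) .nil)) 
(.lf (nat_lit 30049) (.g (nat_lit 3564) (.e (nat_lit 1200) (nat_lit 88) (.e (nat_lit 65628) (nat_lit 14) (.e (nat_lit 401459) (nat_lit 13) (.e (nat_lit 483411) (nat_lit 27) (.e (nat_lit 401421) (nat_lit 1) (.e (nat_lit 164424) (nat_lit 272) .nil)))))) (.g (nat_lit 6) .nil .nil)))) (.nd (nat_lit 5) 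
(.lf (nat_lit 30033) (.g (nat_lit 3096) (.e (nat_lit 1200) (nat_lit 88) (.e (nat_lit 65628) (nat_lit 14) (.e (nat_lit 401459) (nat_lit 13) (.e (nat_lit 483411) (nat_lit 27) (.e (nat_lit 401415) (nat_lit 0) .nil))))) .nil)) 
(.lf (nat_lit 30065) (.g (nat_lit 2818) (.e (nat_lit 1200) (nat_lit 88) (.e (nat_lit 65629) (nat_lit 14) (.e (nat_lit 401459) (nat_lit 13) (.e (nat_lit 483344) (nat_lit 17) (.e (nat_lit 6155) (nat_lit 332) (.e (nat_lit 2546) (nat_lit 158) (.e (nat_lit 8439) (nat_lit 138) .nil))))))) (.g (nat_lit 4) .nil .nil))))) (.nd (nat_lit 4) (.nd (nat_lit 5) 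
(.lf (nat_lit 30025) (.g (nat_lit 3281) (.e (nat_lit 1200) (nat_lit 88) (.e (nat_lit 65628) (nat_lit 14) (.e (nat_lit 401459) (nat_lit 13) (.e (nat_lit 483411) (nat_lit 27) (.e (nat_lit 401414) (nat_lit 0) (.e (nat_lit 2442) (nat_lit 157) (.e (nat_lit 4598) (nat_lit 269) .nil))))))) (.g (nat_lit 5) .nil .nil))) 
(.lf (nat_lit 30057) (.g (nat_lit 1978) (.e (nat_lit 1200) (nat_lit 88) (.e (nat_lit 65629) (nat_lit 14) (.e (nat_lit 401459) (nat_lit 13) (.e (nat_lit 483343) (nat_lit 17) .nil)))) .nil))) (.nd (nat_lit 5) 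
(.lf (nat_lit 30041) (.g (nat_lit 3049) (.e (nat_lit 1200) (nat_lit 88) (.e (nat_lit 65628) (nat_lit 14) (.e (nat_lit 401459) (nat_lit 13) (.e (nat_lit 483411) (nat_lit 27) (.e (nat_lit 401418) (nat_lit 0) (.e (nat_lit 2475) (nat_lit 157) (.e (nat_lit 4607) (nat_lit 269) .nil))))))) (.g (nat_lit 4) .nil .nil))) 
(.lf (nat_lit 30073) (.g (nat_lit 3220) (.e (nat_lit 1200) (nat_lit 88) (.e (nat_lit 65629) (nat_lit 14) (.e (nat_lit 401459) (nat_lit 13) (.e (nat_lit 483344) (nat_lit 17) (.e (nat_lit 7936) (nat_lit 346) (.e (nat_lit 57354) (nat_lit 0) (.e (nat_lit 5905) (nat_lit 320) .nil))))))) (.g (nat_lit 4) .nil .nil)))))) (.nd (nat_lit 3) (.nd (nat_lit 4) (.nd (nat_lit 5) 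
(.lf (nat_lit 30021) (.g (nat_lit 2334) (.e (nat_lit 1200) (nat_lit 88) (.e (nat_lit 65628) (nat_lit 14) (.e (nat_lit 401459) (nat_lit 13) (.e (nat_lit 483411) (nat_lit 27) (.e (nat_lit 401414) (nat_lit 0) .nil))))) .nil)) 
(.lf (nat_lit 30053) (.g (nat_lit 3370) (.e (nat_lit 1200) (nat_lit 88) (.e (nat_lit 65628) (nat_lit 14) (.e (nat_lit 401459) (nat_lit 13) (.e (nat_lit 483411) (nat_lit 27) (.e (nat_lit 401422) (nat_lit 1) (.e (nat_lit 164424) (nat_lit 272) .nil)))))) (.g (nat_lit 5) .nil .nil)))) (.nd (nat_lit 5) 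
(.lf (nat_lit 30037) (.g (nat_lit 2778) (.e (nat_lit 1200) (nat_lit 88) (.e (nat_lit 65628) (nat_lit 14) (.e (nat_lit 401459) (nat_lit 13) (.e (nat_lit 483411) (nat_lit 27) (.e (nat_lit 401418) (nat_lit 0) .nil))))) .nil)) 
(.lf (nat_lit 30069) (.g (nat_lit 2625) (.e (nat_lit 1200) (nat_lit 88) (.e (nat_lit 65629) (nat_lit 14) (.e (nat_lit 401459) (nat_lit 13) (.e (nat_lit 483344) (nat_lit 17) (.e (nat_lit 6440) (nat_lit 343) .nil))))) .nil)))) (.nd (nat_lit 4) (.nd (nat_lit 5) 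
(.lf (nat_lit 30029) (.g (nat_lit 2645) (.e (nat_lit 1200) (nat_lit 88) (.e (nat_lit 65628) (nat_lit 14) (.e (nat_lit 401459) (nat_lit 13) (.e (nat_lit 483411) (nat_lit 27) (.e (nat_lit 401414) (nat_lit 0) (.e (nat_lit 2477) (nat_lit 157) (.e (nat_lit 4605) (nat_lit 269) .nil))))))) (.g (nat_lit 4) .nil .nil))) 
(.lf (nat_lit 30061) (.g (nat_lit 3194) (.e (nat_lit 1200) (nat_lit 88) (.e (nat_lit 65629) (nat_lit 14) (.e (nat_lit 401459) (nat_lit 13) (.e (nat_lit 483344) (nat_lit 17) (.e (nat_lit 6152) (nat_lit 332) (.e (nat_lit 2544) (nat_lit 158) (.e (nat_lit 8439) (nat_lit 138) .nil))))))) (.g (nat_lit 4) .nil .nil)))) (.nd (nat_lit 5) 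
(.lf (nat_lit 30045) (.g (nat_lit 3283) (.e (nat_lit 1200) (nat_lit 88) (.e (nat_lit 65628) (nat_lit 14) (.e (nat_lit 401459) (nat_lit 13) (.e (nat_lit 483411) (nat_lit 27) (.e (nat_lit 401420) (nat_lit 1) (.e (nat_lit 164424) (nat_lit 272) .nil)))))) (.g (nat_lit 6) .nil .nil))) 
(.lf (nat_lit 30077) (.g (nat_lit 2556) (.e (nat_lit 1200) (nat_lit 88) (.e (nat_lit 65629) (nat_lit 14) (.e (nat_lit 401459) (nat_lit 13) (.e (nat_lit 483344) (nat_lit 17) (.e (nat_lit 6619) (nat_lit 357) (.e (nat_lit 2612) (nat_lit 163) (.e (nat_lit 164424) (nat_lit 272) .nil))))))) (.g (nat_lit 4) .nil .nil))))))) (.nd (nat_lit 2) (.nd (nat_lit 3) (.nd (nat_lit 4) (.nd (nat_lit 5) 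
(.lf (nat_lit 30019) (.g (nat_lit 2982) (.e (nat_lit 1200) (nat_lit 88) (.e (nat_lit 65628) (nat_lit 14) (.e (nat_lit 401459) (nat_lit 13) (.e (nat_lit 483411) (nat_lit 27) (.e (nat_lit 401408) (nat_lit 0) (.e (nat_lit 2430) (nat_lit 157) (.e (nat_lit 4598) (nat_lit 269) .nil))))))) (.g (nat_lit 4) .nil .nil))) 
(.lf (nat_lit 30051) (.g (nat_lit 3602) (.e (nat_lit 1200) (nat_lit 88) (.e (nat_lit 65628) (nat_lit 14) (.e (nat_lit 401459) (nat_lit 13) (.e (nat_lit 483411) (nat_lit 27) (.e (nat_lit 401422) (nat_lit 1) (.e (nat_lit 164422) (nat_lit 272) .nil)))))) (.g (nat_lit 6) .nil .nil)))) (.nd (nat_lit 5) 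
(.lf (nat_lit 30035) (.g (nat_lit 3080) (.e (nat_lit 1200) (nat_lit 88) (.e (nat_lit 65628) (nat_lit 14) (.e (nat_lit 401459) (nat_lit 13) (.e (nat_lit 483411) (nat_lit 27) (.e (nat_lit 401417) (nat_lit 0) .nil))))) .nil)) 
(.lf (nat_lit 30067) (.g (nat_lit 3192) (.e (nat_lit 1200) (nat_lit 88) (.e (nat_lit 65629) (nat_lit 14) (.e (nat_lit 401459) (nat_lit 13) (.e (nat_lit 483344) (nat_lit 17) (.e (nat_lit 6434) (nat_lit 343) (.e (nat_lit 1183) (nat_lit 87) (.e (nat_lit 57872) (nat_lit 264) .nil))))))) (.g (nat_lit 4) .nil .nil))))) (.nd (nat_lit 4) (.nd (nat_lit 5) 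
(.lf (nat_lit 30027) (.g (nat_lit 3894) (.e (nat_lit 1200) (nat_lit 88) (.e (nat_lit 65628) (nat_lit 14) (.e (nat_lit 401459) (nat_lit 13) (.e (nat_lit 483411) (nat_lit 27) (.e (nat_lit 401414) (nat_lit 0) (.e (nat_lit 2458) (nat_lit 157) (.e (nat_lit 4606) (nat_lit 269) .nil))))))) (.g (nat_lit 6) .nil .nil))) 
(.lf (nat_lit 30059) (.g (nat_lit 2658) (.e (nat_lit 1200) (nat_lit 88) (.e (nat_lit 65629) (nat_lit 14) (.e (nat_lit 401459) (nat_lit 13) (.e (nat_lit 483343) (nat_lit 17) (.e (nat_lit 6712) (nat_lit 360) (.e (nat_lit 163843) (nat_lit 0) (.e (nat_lit 4598) (nat_lit 269) .nil))))))) (.g (nat_lit 4) .nil .nil)))) (.nd (nat_lit 5) 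
(.lf (nat_lit 30043) (.g (nat_lit 3500) (.e (nat_lit 1200) (nat_lit 88) (.e (nat_lit 65628) (nat_lit 14) (.e (nat_lit 401459) (nat_lit 13) (.e (nat_lit 483411) (nat_lit 27) (.e (nat_lit 401420) (nat_lit 1) (.e (nat_lit 164422) (nat_lit 272) .nil)))))) (.g (nat_lit 0) .nil .nil))) 
(.lf (nat_lit 30075) (.g (nat_lit 2830) (.e (nat_lit 1200) (nat_lit 88) (.e (nat_lit 65629) (nat_lit 14) (.e (nat_lit 401459) (nat_lit 13) (.e (nat_lit 483344) (nat_lit 17) (.e (nat_lit 6522) (nat_lit 349) (.e (nat_lit 122883) (nat_lit 0) (.e (nat_lit 5907) (nat_lit 320) .nil))))))) (.g (nat_lit 4) .nil .nil)))))) (.nd (nat_lit 3) (.nd (nat_lit 4) (.nd (nat_lit 5) 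
(.lf (nat_lit 30023) (.g (nat_lit 3942) (.e (nat_lit 1200) (nat_lit 88) (.e (nat_lit 65628) (nat_lit 14) (.e (nat_lit 401459) (nat_lit 13) (.e (nat_lit 483411) (nat_lit 27) (.e (nat_lit 401414) (nat_lit 0) (.e (nat_lit 2425) (nat_lit 157) (.e (nat_lit 4616) (nat_lit 269) .nil))))))) (.g (nat_lit 6) .nil .nil))) 
(.lf (nat_lit 30055) (.g (nat_lit 2888) (.e (nat_lit 1200) (nat_lit 88) (.e (nat_lit 65628) (nat_lit 14) (.e (nat_lit 401459) (nat_lit 13) (.e (nat_lit 483411) (nat_lit 27) (.e (nat_lit 401463) (nat_lit 15) .nil))))) .nil))) (.nd (nat_lit 5) 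
(.lf (nat_lit 30039) (.g (nat_lit 3164) (.e (nat_lit 1200) (nat_lit 88) (.e (nat_lit 65628) (nat_lit 14) (.e (nat_lit 401459) (nat_lit 13) (.e (nat_lit 483411) (nat_lit 27) (.e (nat_lit 401418) (nat_lit 0) (.e (nat_lit 2453) (nat_lit 157) (.e (nat_lit 4606) (nat_lit 269) .nil))))))) (.g (nat_lit 4) .nil .nil))) 
(.lf (nat_lit 30071) (.g (nat_lit 3377) (.e (nat_lit 1200) (nat_lit 88) (.e (nat_lit 65629) (nat_lit 14) (.e (nat_lit 401459) (nat_lit 13) (.e (nat_lit 483344) (nat_lit 17) (.e (nat_lit 7936) (nat_lit 343) (.e (nat_lit 1183) (nat_lit 87) (.e (nat_lit 57871) (nat_lit 264) .nil))))))) (.g (nat_lit 4) .nil .nil))))) (.nd (nat_lit 4) (.nd (nat_lit 5) 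
(.lf (nat_lit 30031) (.g (nat_lit 3127) (.e (nat_lit 1200) (nat_lit 88) (.e (nat_lit 65628) (nat_lit 14) (.e (nat_lit 401459) (nat_lit 13) (.e (nat_lit 483411) (nat_lit 27) (.e (nat_lit 401414) (nat_lit 0) (.e (nat_lit 2478) (nat_lit 157) (.e (nat_lit 4605) (nat_lit 269) .nil))))))) (.g (nat_lit 4) .nil .nil))) 
(.lf (nat_lit 30063) (.g (nat_lit 3008) (.e (nat_lit 1200) (nat_lit 88) (.e (nat_lit 65629) (nat_lit 14) (.e (nat_lit 401459) (nat_lit 13) (.e (nat_lit 483344) (nat_lit 17) (.e (nat_lit 6154) (nat_lit 332) (.e (nat_lit 2544) (nat_lit 158) (.e (nat_lit 8439) (nat_lit 138) .nil))))))) (.g (nat_lit 4) .nil .nil)))) (.nd (nat_lit 5) 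
(.lf (nat_lit 30047) (.g (nat_lit 3481) (.e (nat_lit 1200) (nat_lit 88) (.e (nat_lit 65628) (nat_lit 14) (.e (nat_lit 401459) (nat_lit 13) (.e (nat_lit 483411) (nat_lit 27) (.e (nat_lit 401421) (nat_lit 1) (.e (nat_lit 164422) (nat_lit 272) .nil)))))) (.g (nat_lit 5) .nil .nil))) 
(.lf (nat_lit 30079) (.g (nat_lit 3017) (.e (nat_lit 1200) (nat_lit 88) (.e (nat_lit 65629) (nat_lit 14) (.e (nat_lit 401459) (nat_lit 13) (.e (nat_lit 483344) (nat_lit 17) (.e (nat_lit 6696) (nat_lit 357) (.e (nat_lit 2610) (nat_lit 163) (.e (nat_lit 164423) (nat_lit 272) .nil))))))) (.g (nat_lit 4) .nil .nil)))))))))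

noncomputable def tv418 : DT := (.nd (nat_lit 0) (.nd (nat_lit 1) (.nd (nat_lit 2) (.nd (nat_lit 3) (.nd (nat_lit 4) (.nd (nat_lit 5) 
(.lf (nat_lit 30080) (.g (nat_lit 3557) (.e (nat_lit 1200) (nat_lit 88) (.e (nat_lit 65629) (nat_lit 14) (.e (nat_lit 401459) (nat_lit 13) (.e (nat_lit 483344) (nat_lit 17) (.e (nat_lit 6712) (nat_lit 360) (.e (nat_lit 163841) (nat_lit 0) (.e (nat_lit 4598) (nat_lit 269) .nil))))))) (.g (nat_lit 5) .nil .nil))) 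
(.lf (nat_lit 30112) (.g (nat_lit 4580) (.e (nat_lit 1200) (nat_lit 88) (.e (nat_lit 65629) (nat_lit 14) (.e (nat_lit 401459) (nat_lit 13) (.e (nat_lit 483372) (nat_lit 21) (.e (nat_lit 327424) (nat_lit 1) .nil))))) .nil))) (.nd (nat_lit 5) 
(.lf (nat_lit 30096) (.g (nat_lit 4339) (.e (nat_lit 1200) (nat_lit 88) (.e (nat_lit 65629) (nat_lit 14) (.e (nat_lit 401459) (nat_lit 13) (.e (nat_lit 483350) (nat_lit 17) (.e (nat_lit 6097) (nat_lit 332) .nil))))) .nil)) 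
(.lf (nat_lit 30128) (.g (nat_lit 2608) (.e (nat_lit 1200) (nat_lit 88) (.e (nat_lit 65629) (nat_lit 14) (.e (nat_lit 401459) (nat_lit 13) (.e (nat_lit 483383) (nat_lit 23) .nil)))) .nil)))) (.nd (nat_lit 4) (.nd (nat_lit 5) 
(.lf (nat_lit 30088) (.g (nat_lit 2869) (.e (nat_lit 1200) (nat_lit 88) (.e (nat_lit 65629) (nat_lit 14) (.e (nat_lit 401459) (nat_lit 13) (.e (nat_lit 483344) (nat_lit 17) (.e (nat_lit 6714) (nat_lit 360) (.e (nat_lit 163842) (nat_lit 0) (.e (nat_lit 4616) (nat_lit 269) .nil))))))) (.g (nat_lit 4) .nil .nil))) 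
(.lf (nat_lit 30120) (.g (nat_lit 1904) (.e (nat_lit 1200) (nat_lit 88) (.e (nat_lit 65629) (nat_lit 14) (.e (nat_lit 401459) (nat_lit 13) (.e (nat_lit 483380) (nat_lit 23) .nil)))) .nil))) (.nd (nat_lit 5) 
(.lf (nat_lit 30104) (.g (nat_lit 4286) (.e (nat_lit 1200) (nat_lit 88) (.e (nat_lit 65629) (nat_lit 14) (.e (nat_lit 401459) (nat_lit 13) (.e (nat_lit 483350) (nat_lit 17) (.e (nat_lit 7936) (nat_lit 346) (.e (nat_lit 57354) (nat_lit 0) (.e (nat_lit 5906) (nat_lit 320) .nil))))))) (.g (nat_lit 4) .nil .nil))) 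
(.lf (nat_lit 30136) (.g (nat_lit 3058) (.e (nat_lit 1200) (nat_lit 88) (.e (nat_lit 65629) (nat_lit 14) (.e (nat_lit 401459) (nat_lit 13) (.e (nat_lit 483392) (nat_lit 23) .nil)))) .nil))))) (.nd (nat_lit 3) (.nd (nat_lit 4) (.nd (nat_lit 5) 
(.lf (nat_lit 30084) (.g (nat_lit 4035) (.e (nat_lit 1200) (nat_lit 88) (.e (nat_lit 65629) (nat_lit 14) (.e (nat_lit 401459) (nat_lit 13) (.e (nat_lit 483344) (nat_lit 17) (.e (nat_lit 6712) (nat_lit 360) (.e (nat_lit 163850) (nat_lit 0) (.e (nat_lit 4605) (nat_lit 269) .nil))))))) (.g (nat_lit 5) .nil .nil))) 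
(.lf (nat_lit 30116) (.g (nat_lit 4018) (.e (nat_lit 1200) (nat_lit 88) (.e (nat_lit 65629) (nat_lit 14) (.e (nat_lit 401459) (nat_lit 13) (.e (nat_lit 483375) (nat_lit 22) (.e (nat_lit 327692) (nat_lit 1) (.e (nat_lit 8439) (nat_lit 138) .nil)))))) (.g (nat_lit 5) .nil .nil)))) (.nd (nat_lit 5) 
(.lf (nat_lit 30100) (.g (nat_lit 4244) (.e (nat_lit 1200) (nat_lit 88) (.e (nat_lit 65629) (nat_lit 14) (.e (nat_lit 401459) (nat_lit 13) (.e (nat_lit 483350) (nat_lit 17) (.e (nat_lit 7936) (nat_lit 343) .nil))))) .nil)) 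
(.lf (nat_lit 30132) (.g (nat_lit 3627) (.e (nat_lit 1200) (nat_lit 88) (.e (nat_lit 65629) (nat_lit 14) (.e (nat_lit 401459) (nat_lit 13) (.e (nat_lit 483387) (nat_lit 23) (.e (nat_lit 335997) (nat_lit 1) (.e (nat_lit 57872) (nat_lit 264) .nil)))))) (.g (nat_lit 5) .nil .nil))))) (.nd (nat_lit 4) (.nd (nat_lit 5) 
(.lf (nat_lit 30092) (.g (nat_lit 4609) (.e (nat_lit 1200) (nat_lit 88) (.e (nat_lit 65629) (nat_lit 14) (.e (nat_lit 401459) (nat_lit 13) (.e (nat_lit 483344) (nat_lit 17) (.e (nat_lit 6714) (nat_lit 360) (.e (nat_lit 163850) (nat_lit 0) (.e (nat_lit 4607) (nat_lit 269) .nil))))))) (.g (nat_lit 7) .nil .nil))) 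
(.lf (nat_lit 30124) (.g (nat_lit 3183) (.e (nat_lit 1200) (nat_lit 88) (.e (nat_lit 65629) (nat_lit 14) (.e (nat_lit 401459) (nat_lit 13) (.e (nat_lit 483380) (nat_lit 23) (.e (nat_lit 336000) (nat_lit 1) .nil))))) .nil))) (.nd (nat_lit 5) 
(.lf (nat_lit 30108) (.g (nat_lit 3195) (.e (nat_lit 1200) (nat_lit 88) (.e (nat_lit 65629) (nat_lit 14) (.e (nat_lit 401459) (nat_lit 13) (.e (nat_lit 483364) (nat_lit 18) (.e (nat_lit 65280) (nat_lit 217) .nil))))) .nil)) 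
(.lf (nat_lit 30140) (.g (nat_lit 3626) (.e (nat_lit 1200) (nat_lit 88) (.e (nat_lit 65629) (nat_lit 14) (.e (nat_lit 401459) (nat_lit 13) (.e (nat_lit 483393) (nat_lit 23) (.e (nat_lit 335986) (nat_lit 1) (.e (nat_lit 57873) (nat_lit 264) .nil)))))) (.g (nat_lit 5) .nil .nil))))))) (.nd (nat_lit 2) (.nd (nat_lit 3) (.nd (nat_lit 4) (.nd (nat_lit 5) 
(.lf (nat_lit 30082) (.g (nat_lit 4992) (.e (nat_lit 1200) (nat_lit 88) (.e (nat_lit 65629) (nat_lit 14) (.e (nat_lit 401459) (nat_lit 13) (.e (nat_lit 483344) (nat_lit 17) (.e (nat_lit 6712) (nat_lit 360) (.e (nat_lit 163844) (nat_lit 0) (.e (nat_lit 4598) (nat_lit 269) .nil))))))) (.g (nat_lit 0) .nil .nil))) 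
(.lf (nat_lit 30114) (.g (nat_lit 2326) (.e (nat_lit 1200) (nat_lit 88) (.e (nat_lit 65629) (nat_lit 14) (.e (nat_lit 401459) (nat_lit 13) (.e (nat_lit 483375) (nat_lit 22) .nil)))) .nil))) (.nd (nat_lit 5) 
(.lf (nat_lit 30098) (.g (nat_lit 4312) (.e (nat_lit 1200) (nat_lit 88) (.e (nat_lit 65629) (nat_lit 14) (.e (nat_lit 401459) (nat_lit 13) (.e (nat_lit 483350) (nat_lit 17) (.e (nat_lit 6113) (nat_lit 332) (.e (nat_lit 7936) (nat_lit 158) (.e (nat_lit 8439) (nat_lit 138) .nil))))))) (.g (nat_lit 4) .nil .nil))) 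
(.lf (nat_lit 30130) (.g (nat_lit 3419) (.e (nat_lit 1200) (nat_lit 88) (.e (nat_lit 65629) (nat_lit 14) (.e (nat_lit 401459) (nat_lit 13) (.e (nat_lit 483387) (nat_lit 23) (.e (nat_lit 335997) (nat_lit 1) (.e (nat_lit 57870) (nat_lit 264) .nil)))))) (.g (nat_lit 5) .nil .nil))))) (.nd (nat_lit 4) (.nd (nat_lit 5) 
(.lf (nat_lit 30090) (.g (nat_lit 4538) (.e (nat_lit 1200) (nat_lit 88) (.e (nat_lit 65629) (nat_lit 14) (.e (nat_lit 401459) (nat_lit 13) (.e (nat_lit 483344) (nat_lit 17) (.e (nat_lit 6714) (nat_lit 360) (.e (nat_lit 163850) (nat_lit 0) (.e (nat_lit 4605) (nat_lit 269) .nil))))))) (.g (nat_lit 7) .nil .nil))) 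
(.lf (nat_lit 30122) (.g (nat_lit 3400) (.e (nat_lit 1200) (nat_lit 88) (.e (nat_lit 65629) (nat_lit 14) (.e (nat_lit 401459) (nat_lit 13) (.e (nat_lit 483380) (nat_lit 23) (.e (nat_lit 335969) (nat_lit 0) .nil))))) .nil))) (.nd (nat_lit 5) 
(.lf (nat_lit 30106) (.g (nat_lit 3180) (.e (nat_lit 1200) (nat_lit 88) (.e (nat_lit 65629) (nat_lit 14) (.e (nat_lit 401459) (nat_lit 13) (.e (nat_lit 483354) (nat_lit 17) (.e (nat_lit 7936) (nat_lit 346) (.e (nat_lit 57354) (nat_lit 0) (.e (nat_lit 5907) (nat_lit 320) .nil))))))) (.g (nat_lit 4) .nil .nil))) 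
(.lf (nat_lit 30138) (.g (nat_lit 3662) (.e (nat_lit 1200) (nat_lit 88) (.e (nat_lit 65629) (nat_lit 14) (.e (nat_lit 401459) (nat_lit 13) (.e (nat_lit 483392) (nat_lit 23) (.e (nat_lit 335996) (nat_lit 1) (.e (nat_lit 57870) (nat_lit 264) .nil)))))) (.g (nat_lit 4) .nil .nil)))))) (.nd (nat_lit 3) (.nd (nat_lit 4) (.nd (nat_lit 5) 
(.lf (nat_lit 30086) (.g (nat_lit 4037) (.e (nat_lit 1200) (nat_lit 88) (.e (nat_lit 65629) (nat_lit 14) (.e (nat_lit 401459) (nat_lit 13) (.e (nat_lit 483344) (nat_lit 17) (.e (nat_lit 6712) (nat_lit 360) (.e (nat_lit 163850) (nat_lit 0) (.e (nat_lit 4607) (nat_lit 269) .nil))))))) (.g (nat_lit 5) .nil .nil))) 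
(.lf (nat_lit 30118) (.g (nat_lit 3954) (.e (nat_lit 1200) (nat_lit 88) (.e (nat_lit 65629) (nat_lit 14) (.e (nat_lit 401459) (nat_lit 13) (.e (nat_lit 483378) (nat_lit 23) (.e (nat_lit 335997) (nat_lit 1) (.e (nat_lit 57871) (nat_lit 264) .nil)))))) (.g (nat_lit 6) .nil .nil)))) (.nd (nat_lit 5) 
(.lf (nat_lit 30102) (.g (nat_lit 4244) (.e (nat_lit 1200) (nat_lit 88) (.e (nat_lit 65629) (nat_lit 14) (.e (nat_lit 401459) (nat_lit 13) (.e (nat_lit 483350) (nat_lit 17) (.e (nat_lit 7936) (nat_lit 346) .nil))))) .nil)) 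
(.lf (nat_lit 30134) (.g (nat_lit 2661) (.e (nat_lit 1200) (nat_lit 88) (.e (nat_lit 65629) (nat_lit 14) (.e (nat_lit 401459) (nat_lit 13) (.e (nat_lit 483389) (nat_lit 23) .nil)))) .nil)))) (.nd (nat_lit 4) (.nd (nat_lit 5) 
(.lf (nat_lit 30094) (.g (nat_lit 3227) (.e (nat_lit 1200) (nat_lit 88) (.e (nat_lit 65629) (nat_lit 14) (.e (nat_lit 401459) (nat_lit 13) (.e (nat_lit 483347) (nat_lit 17) (.e (nat_lit 7936) (nat_lit 346) (.e (nat_lit 57354) (nat_lit 0) (.e (nat_lit 5905) (nat_lit 320) .nil))))))) (.g (nat_lit 4) .nil .nil))) 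
(.lf (nat_lit 30126) (.g (nat_lit 2746) (.e (nat_lit 1200) (nat_lit 88) (.e (nat_lit 65629) (nat_lit 14) (.e (nat_lit 401459) (nat_lit 13) (.e (nat_lit 483380) (nat_lit 23) (.e (nat_lit 343808) (nat_lit 1) (.e (nat_lit 57872) (nat_lit 264) .nil)))))) (.g (nat_lit 4) .nil .nil)))) (.nd (nat_lit 5) 
(.lf (nat_lit 30110) (.g (nat_lit 1985) (.e (nat_lit 1200) (nat_lit 88) (.e (nat_lit 65629) (nat_lit 14) (.e (nat_lit 401459) (nat_lit 13) (.e (nat_lit 483372) (nat_lit 21) .nil)))) .nil)) 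
(.lf (nat_lit 30142) (.g (nat_lit 3519) (.e (nat_lit 1200) (nat_lit 88) (.e (nat_lit 65629) (nat_lit 14) (.e (nat_lit 401459) (nat_lit 13) (.e (nat_lit 483393) (nat_lit 23) (.e (nat_lit 335996) (nat_lit 1) (.e (nat_lit 57870) (nat_lit 264) .nil)))))) (.g (nat_lit 4) .nil .nil)))))))) (.nd (nat_lit 1) (.nd (nat_lit 2) (.nd (nat_lit 3) (.nd (nat_lit 4) (.nd (nat_lit 5) 
(.lf (nat_lit 30081) (.g (nat_lit 5197) (.e (nat_lit 1200) (nat_lit 88) (.e (nat_lit 65629) (nat_lit 14) (.e (nat_lit 401459) (nat_lit 13) (.e (nat_lit 483344) (nat_lit 17) (.e (nat_lit 6712) (nat_lit 360) (.e (nat_lit 163843) (nat_lit 0) (.e (nat_lit 4598) (nat_lit 269) .nil))))))) (.g (nat_lit 0) .nil .nil))) 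
(.lf (nat_lit 30113) (.g (nat_lit 2340) (.e (nat_lit 1200) (nat_lit 88) (.e (nat_lit 65629) (nat_lit 14) (.e (nat_lit 401459) (nat_lit 13) (.e (nat_lit 483374) (nat_lit 22) .nil)))) .nil))) (.nd (nat_lit 5) 
(.lf (nat_lit 30097) (.g (nat_lit 4258) (.e (nat_lit 1200) (nat_lit 88) (.e (nat_lit 65629) (nat_lit 14) (.e (nat_lit 401459) (nat_lit 13) (.e (nat_lit 483350) (nat_lit 17) (.e (nat_lit 6113) (nat_lit 332) (.e (nat_lit 2538) (nat_lit 158) (.e (nat_lit 8439) (nat_lit 138) .nil))))))) (.g (nat_lit 4) .nil .nil))) 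
(.lf (nat_lit 30129) (.g (nat_lit 3245) (.e (nat_lit 1200) (nat_lit 88) (.e (nat_lit 65629) (nat_lit 14) (.e (nat_lit 401459) (nat_lit 13) (.e (nat_lit 483383) (nat_lit 23) (.e (nat_lit 336000) (nat_lit 1) .nil))))) .nil)))) (.nd (nat_lit 4) (.nd (nat_lit 5) 
(.lf (nat_lit 30089) (.g (nat_lit 5498) (.e (nat_lit 1200) (nat_lit 88) (.e (nat_lit 65629) (nat_lit 14) (.e (nat_lit 401459) (nat_lit 13) (.e (nat_lit 483344) (nat_lit 17) (.e (nat_lit 6714) (nat_lit 360) (.e (nat_lit 163843) (nat_lit 0) (.e (nat_lit 4598) (nat_lit 269) .nil))))))) (.g (nat_lit 0) .nil .nil))) 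
(.lf (nat_lit 30121) (.g (nat_lit 3371) (.e (nat_lit 1200) (nat_lit 88) (.e (nat_lit 65629) (nat_lit 14) (.e (nat_lit 401459) (nat_lit 13) (.e (nat_lit 483380) (nat_lit 23) (.e (nat_lit 335880) (nat_lit 0) .nil))))) .nil))) (.nd (nat_lit 5) 
(.lf (nat_lit 30105) (.g (nat_lit 2571) (.e (nat_lit 1200) (nat_lit 88) (.e (nat_lit 65629) (nat_lit 14) (.e (nat_lit 401459) (nat_lit 13) (.e (nat_lit 483354) (nat_lit 17) .nil)))) .nil)) 
(.lf (nat_lit 30137) (.g (nat_lit 3666) (.e (nat_lit 1200) (nat_lit 88) (.e (nat_lit 65629) (nat_lit 14) (.e (nat_lit 401459) (nat_lit 13) (.e (nat_lit 483392) (nat_lit 23) (.e (nat_lit 335995) (nat_lit 1) (.e (nat_lit 57870) (nat_lit 264) .nil)))))) (.g (nat_lit 4) .nil .nil)))))) (.nd (nat_lit 3) (.nd (nat_lit 4) (.nd (nat_lit 5) 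
(.lf (nat_lit 30085) (.g (nat_lit 3874) (.e (nat_lit 1200) (nat_lit 88) (.e (nat_lit 65629) (nat_lit 14) (.e (nat_lit 401459) (nat_lit 13) (.e (nat_lit 483344) (nat_lit 17) (.e (nat_lit 6712) (nat_lit 360) (.e (nat_lit 163850) (nat_lit 0) (.e (nat_lit 4606) (nat_lit 269) .nil))))))) (.g (nat_lit 5) .nil .nil))) 
(.lf (nat_lit 30117) (.g (nat_lit 3761) (.e (nat_lit 1200) (nat_lit 88) (.e (nat_lit 65629) (nat_lit 14) (.e (nat_lit 401459) (nat_lit 13) (.e (nat_lit 483378) (nat_lit 23) (.e (nat_lit 335997) (nat_lit 1) (.e (nat_lit 57870) (nat_lit 264) .nil)))))) (.g (nat_lit 0) .nil .nil)))) (.nd (nat_lit 5) 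
(.lf (nat_lit 30101) (.g (nat_lit 4288) (.e (nat_lit 1200) (nat_lit 88) (.e (nat_lit 65629) (nat_lit 14) (.e (nat_lit 401459) (nat_lit 13) (.e (nat_lit 483350) (nat_lit 17) (.e (nat_lit 7936) (nat_lit 343) (.e (nat_lit 1183) (nat_lit 87) (.e (nat_lit 57870) (nat_lit 264) .nil))))))) (.g (nat_lit 4) .nil .nil))) 
(.lf (nat_lit 30133) (.g (nat_lit 2743) (.e (nat_lit 1200) (nat_lit 88) (.e (nat_lit 65629) (nat_lit 14) (.e (nat_lit 401459) (nat_lit 13) (.e (nat_lit 483388) (nat_lit 23) .nil)))) .nil)))) (.nd (nat_lit 4) (.nd (nat_lit 5) 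
(.lf (nat_lit 30093) (.g (nat_lit 2437) (.e (nat_lit 1200) (nat_lit 88) (.e (nat_lit 65629) (nat_lit 14) (.e (nat_lit 401459) (nat_lit 13) (.e (nat_lit 483347) (nat_lit 17) .nil)))) .nil)) 
(.lf (nat_lit 30125) (.g (nat_lit 2509) (.e (nat_lit 1200) (nat_lit 88) (.e (nat_lit 65629) (nat_lit 14) (.e (nat_lit 401459) (nat_lit 13) (.e (nat_lit 483380) (nat_lit 23) (.e (nat_lit 343808) (nat_lit 1) .nil))))) .nil))) (.nd (nat_lit 5) 
(.lf (nat_lit 30109) (.g (nat_lit 2614) (.e (nat_lit 1200) (nat_lit 88) (.e (nat_lit 65629) (nat_lit 14) (.e (nat_lit 401459) (nat_lit 13) (.e (nat_lit 483371) (nat_lit 21) .nil)))) .nil)) 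
(.lf (nat_lit 30141) (.g (nat_lit 3085) (.e (nat_lit 1200) (nat_lit 88) (.e (nat_lit 65629) (nat_lit 14) (.e (nat_lit 401459) (nat_lit 13) (.e (nat_lit 483393) (nat_lit 23) (.e (nat_lit 335988) (nat_lit 1) (.e (nat_lit 57870) (nat_lit 264) .nil)))))) (.g (nat_lit 4) .nil .nil))))))) (.nd (nat_lit 2) (.nd (nat_lit 3) (.nd (nat_lit 4) (.nd (nat_lit 5) 
(.lf (nat_lit 30083) (.g (nat_lit 4779) (.e (nat_lit 1200) (nat_lit 88) (.e (nat_lit 65629) (nat_lit 14) (.e (nat_lit 401459) (nat_lit 13) (.e (nat_lit 483344) (nat_lit 17) (.e (nat_lit 6712) (nat_lit 360) (.e (nat_lit 163849) (nat_lit 0) (.e (nat_lit 4598) (nat_lit 269) .nil))))))) (.g (nat_lit 0) .nil .nil))) 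
(.lf (nat_lit 30115) (.g (nat_lit 3141) (.e (nat_lit 1200) (nat_lit 88) (.e (nat_lit 65629) (nat_lit 14) (.e (nat_lit 401459) (nat_lit 13) (.e (nat_lit 483375) (nat_lit 22) (.e (nat_lit 327680) (nat_lit 0) .nil))))) .nil))) (.nd (nat_lit 5) 
(.lf (nat_lit 30099) (.g (nat_lit 4235) (.e (nat_lit 1200) (nat_lit 88) (.e (nat_lit 65629) (nat_lit 14) (.e (nat_lit 401459) (nat_lit 13) (.e (nat_lit 483350) (nat_lit 17) (.e (nat_lit 6490) (nat_lit 343) .nil))))) .nil)) 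
(.lf (nat_lit 30131) (.g (nat_lit 3593) (.e (nat_lit 1200) (nat_lit 88) (.e (nat_lit 65629) (nat_lit 14) (.e (nat_lit 401459) (nat_lit 13) (.e (nat_lit 483387) (nat_lit 23) (.e (nat_lit 335997) (nat_lit 1) (.e (nat_lit 57871) (nat_lit 264) .nil)))))) (.g (nat_lit 5) .nil .nil))))) (.nd (nat_lit 4) (.nd (nat_lit 5) 
(.lf (nat_lit 30091) (.g (nat_lit 4424) (.e (nat_lit 1200) (nat_lit 88) (.e (nat_lit 65629) (nat_lit 14) (.e (nat_lit 401459) (nat_lit 13) (.e (nat_lit 483344) (nat_lit 17) (.e (nat_lit 6714) (nat_lit 360) (.e (nat_lit 163850) (nat_lit 0) (.e (nat_lit 4606) (nat_lit 269) .nil))))))) (.g (nat_lit 6) .nil .nil))) 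
(.lf (nat_lit 30123) (.g (nat_lit 3416) (.e (nat_lit 1200) (nat_lit 88) (.e (nat_lit 65629) (nat_lit 14) (.e (nat_lit 401459) (nat_lit 13) (.e (nat_lit 483380) (nat_lit 23) (.e (nat_lit 335973) (nat_lit 0) .nil))))) .nil))) (.nd (nat_lit 5) 
(.lf (nat_lit 30107) (.g (nat_lit 2436) (.e (nat_lit 1200) (nat_lit 88) (.e (nat_lit 65629) (nat_lit 14) (.e (nat_lit 401459) (nat_lit 13) (.e (nat_lit 483364) (nat_lit 18) .nil)))) .nil)) 
(.lf (nat_lit 30139) (.g (nat_lit 2553) (.e (nat_lit 1200) (nat_lit 88) (.e (nat_lit 65629) (nat_lit 14) (.e (nat_lit 401459) (nat_lit 13) (.e (nat_lit 483393) (nat_lit 23) .nil)))) .nil))))) (.nd (nat_lit 3) (.nd (nat_lit 4) (.nd (nat_lit 5) 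
(.lf (nat_lit 30087) (.g (nat_lit 3242) (.e (nat_lit 1200) (nat_lit 88) (.e (nat_lit 65629) (nat_lit 14) (.e (nat_lit 401459) (nat_lit 13) (.e (nat_lit 483344) (nat_lit 17) (.e (nat_lit 6712) (nat_lit 360) (.e (nat_lit 163853) (nat_lit 0) (.e (nat_lit 4607) (nat_lit 269) .nil))))))) (.g (nat_lit 4) .nil .nil))) 
(.lf (nat_lit 30119) (.g (nat_lit 3885) (.e (nat_lit 1200) (nat_lit 88) (.e (nat_lit 65629) (nat_lit 14) (.e (nat_lit 401459) (nat_lit 13) (.e (nat_lit 483378) (nat_lit 23) (.e (nat_lit 335997) (nat_lit 1) (.e (nat_lit 57872) (nat_lit 264) .nil)))))) (.g (nat_lit 0) .nil .nil)))) (.nd (nat_lit 5) 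
(.lf (nat_lit 30103) (.g (nat_lit 4245) (.e (nat_lit 1200) (nat_lit 88) (.e (nat_lit 65629) (nat_lit 14) (.e (nat_lit 401459) (nat_lit 13) (.e (nat_lit 483350) (nat_lit 17) (.e (nat_lit 7936) (nat_lit 346) (.e (nat_lit 57354) (nat_lit 0) (.e (nat_lit 5905) (nat_lit 320) .nil))))))) (.g (nat_lit 4) .nil .nil))) 
(.lf (nat_lit 30135) (.g (nat_lit 2793) (.e (nat_lit 1200) (nat_lit 88) (.e (nat_lit 65629) (nat_lit 14) (.e (nat_lit 401459) (nat_lit 13) (.e (nat_lit 483391) (nat_lit 23) .nil)))) .nil)))) (.nd (nat_lit 4) (.nd (nat_lit 5) 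
(.lf (nat_lit 30095) (.g (nat_lit 2875) (.e (nat_lit 1200) (nat_lit 88) (.e (nat_lit 65629) (nat_lit 14) (.e (nat_lit 401459) (nat_lit 13) (.e (nat_lit 483350) (nat_lit 17) .nil)))) .nil)) 
(.lf (nat_lit 30127) (.g (nat_lit 1873) (.e (nat_lit 1200) (nat_lit 88) (.e (nat_lit 65629) (nat_lit 14) (.e (nat_lit 401459) (nat_lit 13) (.e (nat_lit 483381) (nat_lit 23) .nil)))) .nil))) (.nd (nat_lit 5) 
(.lf (nat_lit 30111) (.g (nat_lit 4850) (.e (nat_lit 1200) (nat_lit 88) (.e (nat_lit 65629) (nat_lit 14) (.e (nat_lit 401459) (nat_lit 13) (.e (nat_lit 483372) (nat_lit 21) (.e (nat_lit 319490) (nat_lit 0) .nil))))) .nil)) 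
(.lf (nat_lit 30143) (.g (nat_lit 2127) (.e (nat_lit 1200) (nat_lit 88) (.e (nat_lit 65629) (nat_lit 14) (.e (nat_lit 401459) (nat_lit 13) (.e (nat_lit 491264) (nat_lit 23) .nil)))) .nil))))))))

noncomputable def tv419 : DT := (.nd (nat_lit 0) (.nd (nat_lit 1) (.nd (nat_lit 2) (.nd (nat_lit 3) (.nd (nat_lit 4) (.nd (nat_lit 5) 
(.lf (nat_lit 30144) (.g (nat_lit 2661) (.e (nat_lit 1200) (nat_lit 88) (.e (nat_lit 65629) (nat_lit 14) (.e (nat_lit 401459) (nat_lit 13) (.e (nat_lit 483394) (nat_lit 24) .nil)))) .nil)) 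
(.lf (nat_lit 30176) (.g (nat_lit 4028) (.e (nat_lit 1200) (nat_lit 88) (.e (nat_lit 65629) (nat_lit 14) (.e (nat_lit 401459) (nat_lit 13) (.e (nat_lit 483411) (nat_lit 27) (.e (nat_lit 401415) (nat_lit 0) .nil))))) .nil))) (.nd (nat_lit 5) 
(.lf (nat_lit 30160) (.g (nat_lit 2630) (.e (nat_lit 1200) (nat_lit 88) (.e (nat_lit 65629) (nat_lit 14) (.e (nat_lit 401459) (nat_lit 13) (.e (nat_lit 483410) (nat_lit 27) (.e (nat_lit 401422) (nat_lit 1) .nil))))) .nil)) 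
(.lf (nat_lit 30192) (.g (nat_lit 3780) (.e (nat_lit 1200) (nat_lit 88) (.e (nat_lit 65629) (nat_lit 14) (.e (nat_lit 401459) (nat_lit 13) (.e (nat_lit 483411) (nat_lit 27) (.e (nat_lit 401429) (nat_lit 4) .nil))))) .nil)))) (.nd (nat_lit 4) (.nd (nat_lit 5) 
(.lf (nat_lit 30152) (.g (nat_lit 3708) (.e (nat_lit 1200) (nat_lit 88) (.e (nat_lit 65629) (nat_lit 14) (.e (nat_lit 401459) (nat_lit 13) (.e (nat_lit 483399) (nat_lit 25) (.e (nat_lit 368662) (nat_lit 18) (.e (nat_lit 5907) (nat_lit 320) .nil)))))) (.g (nat_lit 6) .nil .nil))) 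
(.lf (nat_lit 30184) (.g (nat_lit 3463) (.e (nat_lit 1200) (nat_lit 88) (.e (nat_lit 65629) (nat_lit 14) (.e (nat_lit 401459) (nat_lit 13) (.e (nat_lit 483411) (nat_lit 27) (.e (nat_lit 401420) (nat_lit 1) (.e (nat_lit 164423) (nat_lit 272) .nil)))))) (.g (nat_lit 4) .nil .nil)))) (.nd (nat_lit 5) 
(.lf (nat_lit 30168) (.g (nat_lit 3684) (.e (nat_lit 1200) (nat_lit 88) (.e (nat_lit 65629) (nat_lit 14) (.e (nat_lit 401459) (nat_lit 13) (.e (nat_lit 483411) (nat_lit 27) (.e (nat_lit 401414) (nat_lit 0) (.e (nat_lit 2416) (nat_lit 157) (.e (nat_lit 4598) (nat_lit 269) .nil))))))) (.g (nat_lit 4) .nil .nil))) 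
(.lf (nat_lit 30200) (.g (nat_lit 2669) (.e (nat_lit 1200) (nat_lit 88) (.e (nat_lit 65630) (nat_lit 14) (.e (nat_lit 401428) (nat_lit 3) (.e (nat_lit 204869) (nat_lit 29) (.e (nat_lit 360448) (nat_lit 0) (.e (nat_lit 3972) (nat_lit 239) .nil)))))) (.g (nat_lit 4) .nil .nil)))))) (.nd (nat_lit 3) (.nd (nat_lit 4) (.nd (nat_lit 5) 
(.lf (nat_lit 30148) (.g (nat_lit 2525) (.e (nat_lit 1200) (nat_lit 88) (.e (nat_lit 65629) (nat_lit 14) (.e (nat_lit 401459) (nat_lit 13) (.e (nat_lit 483398) (nat_lit 25) (.e (nat_lit 368662) (nat_lit 18) .nil))))) .nil)) 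
(.lf (nat_lit 30180) (.g (nat_lit 3751) (.e (nat_lit 1200) (nat_lit 88) (.e (nat_lit 65629) (nat_lit 14) (.e (nat_lit 401459) (nat_lit 13) (.e (nat_lit 483411) (nat_lit 27) (.e (nat_lit 401418) (nat_lit 0) (.e (nat_lit 2453) (nat_lit 157) (.e (nat_lit 4606) (nat_lit 269) .nil))))))) (.g (nat_lit 4) .nil .nil)))) (.nd (nat_lit 5) 
(.lf (nat_lit 30164) (.g (nat_lit 3514) (.e (nat_lit 1200) (nat_lit 88) (.e (nat_lit 65629) (nat_lit 14) (.e (nat_lit 401459) (nat_lit 13) (.e (nat_lit 483411) (nat_lit 27) (.e (nat_lit 401408) (nat_lit 0) (.e (nat_lit 2422) (nat_lit 157) (.e (nat_lit 4598) (nat_lit 269) .nil))))))) (.g (nat_lit 4) .nil .nil))) 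
(.lf (nat_lit 30196) (.g (nat_lit 885) (.e (nat_lit 1200) (nat_lit 88) (.e (nat_lit 65630) (nat_lit 14) (.e (nat_lit 401427) (nat_lit 3) .nil))) .nil)))) (.nd (nat_lit 4) (.nd (nat_lit 5) 
(.lf (nat_lit 30156) (.g (nat_lit 3343) (.e (nat_lit 1200) (nat_lit 88) (.e (nat_lit 65629) (nat_lit 14) (.e (nat_lit 401459) (nat_lit 13) (.e (nat_lit 483403) (nat_lit 26) (.e (nat_lit 385043) (nat_lit 21) .nil))))) .nil)) 
(.lf (nat_lit 30188) (.g (nat_lit 4517) (.e (nat_lit 1200) (nat_lit 88) (.e (nat_lit 65629) (nat_lit 14) (.e (nat_lit 401459) (nat_lit 13) (.e (nat_lit 483411) (nat_lit 27) (.e (nat_lit 401421) (nat_lit 1) (.e (nat_lit 164424) (nat_lit 272) .nil)))))) (.g (nat_lit 6) .nil .nil)))) (.nd (nat_lit 5) 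
(.lf (nat_lit 30172) (.g (nat_lit 4769) (.e (nat_lit 1200) (nat_lit 88) (.e (nat_lit 65629) (nat_lit 14) (.e (nat_lit 401459) (nat_lit 13) (.e (nat_lit 483411) (nat_lit 27) (.e (nat_lit 401414) (nat_lit 0) (.e (nat_lit 2458) (nat_lit 157) (.e (nat_lit 4607) (nat_lit 269) .nil))))))) (.g (nat_lit 7) .nil .nil))) 
(.lf (nat_lit 30204) (.g (nat_lit 2338) (.e (nat_lit 1200) (nat_lit 88) (.e (nat_lit 65630) (nat_lit 14) (.e (nat_lit 401435) (nat_lit 9) (.e (nat_lit 426544) (nat_lit 30) (.e (nat_lit 360453) (nat_lit 0) (.e (nat_lit 5907) (nat_lit 320) .nil)))))) (.g (nat_lit 5) .nil .nil))))))) (.nd (nat_lit 2) (.nd (nat_lit 3) (.nd (nat_lit 4) (.nd (nat_lit 5) 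
(.lf (nat_lit 30146) (.g (nat_lit 2837) (.e (nat_lit 1200) (nat_lit 88) (.e (nat_lit 65629) (nat_lit 14) (.e (nat_lit 401459) (nat_lit 13) (.e (nat_lit 483397) (nat_lit 25) .nil)))) .nil)) 
(.lf (nat_lit 30178) (.g (nat_lit 4012) (.e (nat_lit 1200) (nat_lit 88) (.e (nat_lit 65629) (nat_lit 14) (.e (nat_lit 401459) (nat_lit 13) (.e (nat_lit 483411) (nat_lit 27) (.e (nat_lit 401417) (nat_lit 0) .nil))))) .nil))) (.nd (nat_lit 5) 
(.lf (nat_lit 30162) (.g (nat_lit 3078) (.e (nat_lit 1200) (nat_lit 88) (.e (nat_lit 65629) (nat_lit 14) (.e (nat_lit 401459) (nat_lit 13) (.e (nat_lit 483410) (nat_lit 27) (.e (nat_lit 401422) (nat_lit 1) (.e (nat_lit 164424) (nat_lit 272) .nil)))))) (.g (nat_lit 4) .nil .nil))) 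
(.lf (nat_lit 30194) (.g (nat_lit 681) (.e (nat_lit 1200) (nat_lit 88) (.e (nat_lit 65630) (nat_lit 14) (.e (nat_lit 401425) (nat_lit 2) .nil))) .nil)))) (.nd (nat_lit 4) (.nd (nat_lit 5) 
(.lf (nat_lit 30154) (.g (nat_lit 3488) (.e (nat_lit 1200) (nat_lit 88) (.e (nat_lit 65629) (nat_lit 14) (.e (nat_lit 401459) (nat_lit 13) (.e (nat_lit 483400) (nat_lit 25) (.e (nat_lit 368662) (nat_lit 18) (.e (nat_lit 5906) (nat_lit 320) .nil)))))) (.g (nat_lit 5) .nil .nil))) 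
(.lf (nat_lit 30186) (.g (nat_lit 3576) (.e (nat_lit 1200) (nat_lit 88) (.e (nat_lit 65629) (nat_lit 14) (.e (nat_lit 401459) (nat_lit 13) (.e (nat_lit 483411) (nat_lit 27) (.e (nat_lit 401421) (nat_lit 1) .nil))))) .nil))) (.nd (nat_lit 5) 
(.lf (nat_lit 30170) (.g (nat_lit 3539) (.e (nat_lit 1200) (nat_lit 88) (.e (nat_lit 65629) (nat_lit 14) (.e (nat_lit 401459) (nat_lit 13) (.e (nat_lit 483411) (nat_lit 27) (.e (nat_lit 401414) (nat_lit 0) (.e (nat_lit 2423) (nat_lit 157) (.e (nat_lit 4616) (nat_lit 269) .nil))))))) (.g (nat_lit 4) .nil .nil))) 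
(.lf (nat_lit 30202) (.g (nat_lit 3828) (.e (nat_lit 1200) (nat_lit 88) (.e (nat_lit 65630) (nat_lit 14) (.e (nat_lit 401428) (nat_lit 3) (.e (nat_lit 204869) (nat_lit 29) (.e (nat_lit 360455) (nat_lit 0) (.e (nat_lit 3962) (nat_lit 239) .nil)))))) (.g (nat_lit 5) .nil .nil)))))) (.nd (nat_lit 3) (.nd (nat_lit 4) (.nd (nat_lit 5) 
(.lf (nat_lit 30150) (.g (nat_lit 3976) (.e (nat_lit 1200) (nat_lit 88) (.e (nat_lit 65629) (nat_lit 14) (.e (nat_lit 401459) (nat_lit 13) (.e (nat_lit 483398) (nat_lit 25) (.e (nat_lit 368662) (nat_lit 18) (.e (nat_lit 5907) (nat_lit 320) .nil)))))) (.g (nat_lit 0) .nil .nil))) 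
(.lf (nat_lit 30182) (.g (nat_lit 3360) (.e (nat_lit 1200) (nat_lit 88) (.e (nat_lit 65629) (nat_lit 14) (.e (nat_lit 401459) (nat_lit 13) (.e (nat_lit 483411) (nat_lit 27) (.e (nat_lit 401420) (nat_lit 1) .nil))))) .nil))) (.nd (nat_lit 5) 
(.lf (nat_lit 30166) (.g (nat_lit 4026) (.e (nat_lit 1200) (nat_lit 88) (.e (nat_lit 65629) (nat_lit 14) (.e (nat_lit 401459) (nat_lit 13) (.e (nat_lit 483411) (nat_lit 27) (.e (nat_lit 401413) (nat_lit 0) .nil))))) .nil)) 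
(.lf (nat_lit 30198) (.g (nat_lit 3479) (.e (nat_lit 1200) (nat_lit 88) (.e (nat_lit 65630) (nat_lit 14) (.e (nat_lit 401428) (nat_lit 3) (.e (nat_lit 204866) (nat_lit 28) (.e (nat_lit 352318) (nat_lit 24) (.e (nat_lit 123040) (nat_lit 140) .nil)))))) (.g (nat_lit 5) .nil .nil))))) (.nd (nat_lit 4) (.nd (nat_lit 5) 
(.lf (nat_lit 30158) (.g (nat_lit 1667) (.e (nat_lit 1200) (nat_lit 88) (.e (nat_lit 65629) (nat_lit 14) (.e (nat_lit 401459) (nat_lit 13) (.e (nat_lit 483410) (nat_lit 27) .nil)))) .nil)) 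
(.lf (nat_lit 30190) (.g (nat_lit 4334) (.e (nat_lit 1200) (nat_lit 88) (.e (nat_lit 65629) (nat_lit 14) (.e (nat_lit 401459) (nat_lit 13) (.e (nat_lit 483411) (nat_lit 27) (.e (nat_lit 401422) (nat_lit 1) (.e (nat_lit 164422) (nat_lit 272) .nil)))))) (.g (nat_lit 6) .nil .nil)))) (.nd (nat_lit 5) 
(.lf (nat_lit 30174) (.g (nat_lit 3476) (.e (nat_lit 1200) (nat_lit 88) (.e (nat_lit 65629) (nat_lit 14) (.e (nat_lit 401459) (nat_lit 13) (.e (nat_lit 483411) (nat_lit 27) (.e (nat_lit 401414) (nat_lit 0) (.e (nat_lit 2477) (nat_lit 157) (.e (nat_lit 4607) (nat_lit 269) .nil))))))) (.g (nat_lit 4) .nil .nil))) 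
(.lf (nat_lit 30206) (.g (nat_lit 1227) (.e (nat_lit 1200) (nat_lit 88) (.e (nat_lit 65630) (nat_lit 14) (.e (nat_lit 401435) (nat_lit 9) (.e (nat_lit 426546) (nat_lit 30) .nil)))) .nil))))))) (.nd (nat_lit 1) (.nd (nat_lit 2) (.nd (nat_lit 3) (.nd (nat_lit 4) (.nd (nat_lit 5) 
(.lf (nat_lit 30145) (.g (nat_lit 2303) (.e (nat_lit 1200) (nat_lit 88) (.e (nat_lit 65629) (nat_lit 14) (.e (nat_lit 401459) (nat_lit 13) (.e (nat_lit 483395) (nat_lit 24) .nil)))) .nil)) 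
(.lf (nat_lit 30177) (.g (nat_lit 3819) (.e (nat_lit 1200) (nat_lit 88) (.e (nat_lit 65629) (nat_lit 14) (.e (nat_lit 401459) (nat_lit 13) (.e (nat_lit 483411) (nat_lit 27) (.e (nat_lit 401416) (nat_lit 0) .nil))))) .nil))) (.nd (nat_lit 5) 
(.lf (nat_lit 30161) (.g (nat_lit 3089) (.e (nat_lit 1200) (nat_lit 88) (.e (nat_lit 65629) (nat_lit 14) (.e (nat_lit 401459) (nat_lit 13) (.e (nat_lit 483410) (nat_lit 27) (.e (nat_lit 401422) (nat_lit 1) (.e (nat_lit 164422) (nat_lit 272) .nil)))))) (.g (nat_lit 4) .nil .nil))) 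
(.lf (nat_lit 30193) (.g (nat_lit 3817) (.e (nat_lit 1200) (nat_lit 88) (.e (nat_lit 65629) (nat_lit 14) (.e (nat_lit 401459) (nat_lit 13) (.e (nat_lit 483411) (nat_lit 27) (.e (nat_lit 401463) (nat_lit 15) .nil))))) .nil)))) (.nd (nat_lit 4) (.nd (nat_lit 5) 
(.lf (nat_lit 30153) (.g (nat_lit 2331) (.e (nat_lit 1200) (nat_lit 88) (.e (nat_lit 65629) (nat_lit 14) (.e (nat_lit 401459) (nat_lit 13) (.e (nat_lit 483400) (nat_lit 25) .nil)))) .nil)) 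
(.lf (nat_lit 30185) (.g (nat_lit 4262) (.e (nat_lit 1200) (nat_lit 88) (.e (nat_lit 65629) (nat_lit 14) (.e (nat_lit 401459) (nat_lit 13) (.e (nat_lit 483411) (nat_lit 27) (.e (nat_lit 401420) (nat_lit 1) (.e (nat_lit 164424) (nat_lit 272) .nil)))))) (.g (nat_lit 6) .nil .nil)))) (.nd (nat_lit 5) 
(.lf (nat_lit 30169) (.g (nat_lit 4514) (.e (nat_lit 1200) (nat_lit 88) (.e (nat_lit 65629) (nat_lit 14) (.e (nat_lit 401459) (nat_lit 13) (.e (nat_lit 483411) (nat_lit 27) (.e (nat_lit 401414) (nat_lit 0) (.e (nat_lit 2422) (nat_lit 157) (.e (nat_lit 4598) (nat_lit 269) .nil))))))) (.g (nat_lit 5) .nil .nil))) 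
(.lf (nat_lit 30201) (.g (nat_lit 3889) (.e (nat_lit 1200) (nat_lit 88) (.e (nat_lit 65630) (nat_lit 14) (.e (nat_lit 401428) (nat_lit 3) (.e (nat_lit 204869) (nat_lit 29) (.e (nat_lit 360448) (nat_lit 0) (.e (nat_lit 3975) (nat_lit 239) .nil)))))) (.g (nat_lit 5) .nil .nil)))))) (.nd (nat_lit 3) (.nd (nat_lit 4) (.nd (nat_lit 5) 
(.lf (nat_lit 30149) (.g (nat_lit 4085) (.e (nat_lit 1200) (nat_lit 88) (.e (nat_lit 65629) (nat_lit 14) (.e (nat_lit 401459) (nat_lit 13) (.e (nat_lit 483398) (nat_lit 25) (.e (nat_lit 368662) (nat_lit 18) (.e (nat_lit 5906) (nat_lit 320) .nil)))))) (.g (nat_lit 6) .nil .nil))) 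
(.lf (nat_lit 30181) (.g (nat_lit 3746) (.e (nat_lit 1200) (nat_lit 88) (.e (nat_lit 65629) (nat_lit 14) (.e (nat_lit 401459) (nat_lit 13) (.e (nat_lit 483411) (nat_lit 27) (.e (nat_lit 401418) (nat_lit 0) (.e (nat_lit 2475) (nat_lit 157) (.e (nat_lit 4607) (nat_lit 269) .nil))))))) (.g (nat_lit 4) .nil .nil)))) (.nd (nat_lit 5) 
(.lf (nat_lit 30165) (.g (nat_lit 3679) (.e (nat_lit 1200) (nat_lit 88) (.e (nat_lit 65629) (nat_lit 14) (.e (nat_lit 401459) (nat_lit 13) (.e (nat_lit 483411) (nat_lit 27) (.e (nat_lit 401408) (nat_lit 0) (.e (nat_lit 2430) (nat_lit 157) (.e (nat_lit 4598) (nat_lit 269) .nil))))))) (.g (nat_lit 4) .nil .nil))) 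
(.lf (nat_lit 30197) (.g (nat_lit 559) (.e (nat_lit 1200) (nat_lit 88) (.e (nat_lit 65630) (nat_lit 14) (.e (nat_lit 401428) (nat_lit 3) .nil))) .nil)))) (.nd (nat_lit 4) (.nd (nat_lit 5) 
(.lf (nat_lit 30157) (.g (nat_lit 2173) (.e (nat_lit 1200) (nat_lit 88) (.e (nat_lit 65629) (nat_lit 14) (.e (nat_lit 401459) (nat_lit 13) (.e (nat_lit 483404) (nat_lit 26) .nil)))) .nil)) 
(.lf (nat_lit 30189) (.g (nat_lit 3490) (.e (nat_lit 1200) (nat_lit 88) (.e (nat_lit 65629) (nat_lit 14) (.e (nat_lit 401459) (nat_lit 13) (.e (nat_lit 483411) (nat_lit 27) (.e (nat_lit 401422) (nat_lit 1) .nil))))) .nil))) (.nd (nat_lit 5) 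
(.lf (nat_lit 30173) (.g (nat_lit 3312) (.e (nat_lit 1200) (nat_lit 88) (.e (nat_lit 65629) (nat_lit 14) (.e (nat_lit 401459) (nat_lit 13) (.e (nat_lit 483411) (nat_lit 27) (.e (nat_lit 401414) (nat_lit 0) (.e (nat_lit 2477) (nat_lit 157) (.e (nat_lit 4605) (nat_lit 269) .nil))))))) (.g (nat_lit 4) .nil .nil))) 
(.lf (nat_lit 30205) (.g (nat_lit 1633) (.e (nat_lit 1200) (nat_lit 88) (.e (nat_lit 65630) (nat_lit 14) (.e (nat_lit 401435) (nat_lit 9) (.e (nat_lit 426544) (nat_lit 30) (.e (nat_lit 368384) (nat_lit 0) .nil))))) .nil)))))) (.nd (nat_lit 2) (.nd (nat_lit 3) (.nd (nat_lit 4) (.nd (nat_lit 5) 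
(.lf (nat_lit 30147) (.g (nat_lit 2091) (.e (nat_lit 1200) (nat_lit 88) (.e (nat_lit 65629) (nat_lit 14) (.e (nat_lit 401459) (nat_lit 13) (.e (nat_lit 483398) (nat_lit 25) .nil)))) .nil)) 
(.lf (nat_lit 30179) (.g (nat_lit 3738) (.e (nat_lit 1200) (nat_lit 88) (.e (nat_lit 65629) (nat_lit 14) (.e (nat_lit 401459) (nat_lit 13) (.e (nat_lit 483411) (nat_lit 27) (.e (nat_lit 401418) (nat_lit 0) .nil))))) .nil))) (.nd (nat_lit 5) 
(.lf (nat_lit 30163) (.g (nat_lit 2201) (.e (nat_lit 1200) (nat_lit 88) (.e (nat_lit 65629) (nat_lit 14) (.e (nat_lit 401459) (nat_lit 13) (.e (nat_lit 483411) (nat_lit 27) .nil)))) .nil)) 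
(.lf (nat_lit 30195) (.g (nat_lit 1854) (.e (nat_lit 1200) (nat_lit 88) (.e (nat_lit 65630) (nat_lit 14) (.e (nat_lit 401425) (nat_lit 2) (.e (nat_lit 196674) (nat_lit 15) .nil)))) .nil)))) (.nd (nat_lit 4) (.nd (nat_lit 5) 
(.lf (nat_lit 30155) (.g (nat_lit 3345) (.e (nat_lit 1200) (nat_lit 88) (.e (nat_lit 65629) (nat_lit 14) (.e (nat_lit 401459) (nat_lit 13) (.e (nat_lit 483400) (nat_lit 25) (.e (nat_lit 368662) (nat_lit 18) (.e (nat_lit 5907) (nat_lit 320) .nil)))))) (.g (nat_lit 5) .nil .nil))) 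
(.lf (nat_lit 30187) (.g (nat_lit 4282) (.e (nat_lit 1200) (nat_lit 88) (.e (nat_lit 65629) (nat_lit 14) (.e (nat_lit 401459) (nat_lit 13) (.e (nat_lit 483411) (nat_lit 27) (.e (nat_lit 401421) (nat_lit 1) (.e (nat_lit 164422) (nat_lit 272) .nil)))))) (.g (nat_lit 5) .nil .nil)))) (.nd (nat_lit 5) 
(.lf (nat_lit 30171) (.g (nat_lit 3801) (.e (nat_lit 1200) (nat_lit 88) (.e (nat_lit 65629) (nat_lit 14) (.e (nat_lit 401459) (nat_lit 13) (.e (nat_lit 483411) (nat_lit 27) (.e (nat_lit 401414) (nat_lit 0) (.e (nat_lit 2446) (nat_lit 157) (.e (nat_lit 4598) (nat_lit 269) .nil))))))) (.g (nat_lit 4) .nil .nil))) 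
(.lf (nat_lit 30203) (.g (nat_lit 3944) (.e (nat_lit 1200) (nat_lit 88) (.e (nat_lit 65630) (nat_lit 14) (.e (nat_lit 401428) (nat_lit 3) (.e (nat_lit 204869) (nat_lit 29) (.e (nat_lit 360456) (nat_lit 0) (.e (nat_lit 3962) (nat_lit 239) .nil)))))) (.g (nat_lit 5) .nil .nil)))))) (.nd (nat_lit 3) (.nd (nat_lit 4) (.nd (nat_lit 5) 
(.lf (nat_lit 30151) (.g (nat_lit 2200) (.e (nat_lit 1200) (nat_lit 88) (.e (nat_lit 65629) (nat_lit 14) (.e (nat_lit 401459) (nat_lit 13) (.e (nat_lit 483399) (nat_lit 25) .nil)))) .nil)) 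
(.lf (nat_lit 30183) (.g (nat_lit 4327) (.e (nat_lit 1200) (nat_lit 88) (.e (nat_lit 65629) (nat_lit 14) (.e (nat_lit 401459) (nat_lit 13) (.e (nat_lit 483411) (nat_lit 27) (.e (nat_lit 401420) (nat_lit 1) (.e (nat_lit 164422) (nat_lit 272) .nil)))))) (.g (nat_lit 6) .nil .nil)))) (.nd (nat_lit 5) 
(.lf (nat_lit 30167) (.g (nat_lit 3253) (.e (nat_lit 1200) (nat_lit 88) (.e (nat_lit 65629) (nat_lit 14) (.e (nat_lit 401459) (nat_lit 13) (.e (nat_lit 483411) (nat_lit 27) (.e (nat_lit 401414) (nat_lit 0) .nil))))) .nil)) 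
(.lf (nat_lit 30199) (.g (nat_lit 2692) (.e (nat_lit 1200) (nat_lit 88) (.e (nat_lit 65630) (nat_lit 14) (.e (nat_lit 401428) (nat_lit 3) (.e (nat_lit 204869) (nat_lit 29) (.e (nat_lit 360448) (nat_lit 0) (.e (nat_lit 3927) (nat_lit 239) .nil)))))) (.g (nat_lit 4) .nil .nil))))) (.nd (nat_lit 4) (.nd (nat_lit 5) 
(.lf (nat_lit 30159) (.g (nat_lit 2857) (.e (nat_lit 1200) (nat_lit 88) (.e (nat_lit 65629) (nat_lit 14) (.e (nat_lit 401459) (nat_lit 13) (.e (nat_lit 483410) (nat_lit 27) (.e (nat_lit 401420) (nat_lit 1) .nil))))) .nil)) 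
(.lf (nat_lit 30191) (.g (nat_lit 3708) (.e (nat_lit 1200) (nat_lit 88) (.e (nat_lit 65629) (nat_lit 14) (.e (nat_lit 401459) (nat_lit 13) (.e (nat_lit 483411) (nat_lit 27) (.e (nat_lit 401422) (nat_lit 1) (.e (nat_lit 164423) (nat_lit 272) .nil)))))) (.g (nat_lit 4) .nil .nil)))) (.nd (nat_lit 5) 
(.lf (nat_lit 30175) (.g (nat_lit 3794) (.e (nat_lit 1200) (nat_lit 88) (.e (nat_lit 65629) (nat_lit 14) (.e (nat_lit 401459) (nat_lit 13) (.e (nat_lit 483411) (nat_lit 27) (.e (nat_lit 401414) (nat_lit 0) (.e (nat_lit 2478) (nat_lit 157) (.e (nat_lit 4605) (nat_lit 269) .nil))))))) (.g (nat_lit 4) .nil .nil))) 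
(.lf (nat_lit 30207) (.g (nat_lit 1778) (.e (nat_lit 1200) (nat_lit 88) (.e (nat_lit 65630) (nat_lit 14) (.e (nat_lit 401435) (nat_lit 9) (.e (nat_lit 426546) (nat_lit 30) (.e (nat_lit 360452) (nat_lit 0) (.e (nat_lit 5907) (nat_lit 320) .nil)))))) (.g (nat_lit 4) .nil .nil)))))))))

noncomputable def tv420 : DT := (.nd (nat_lit 0) (.nd (nat_lit 1) (.nd (nat_lit 2) (.nd (nat_lit 3) (.nd (nat_lit 4) (.nd (nat_lit 5) 
(.lf (nat_lit 30208) (.g (nat_lit 2840) (.e (nat_lit 1200) (nat_lit 88) (.e (nat_lit 65630) (nat_lit 14) (.e (nat_lit 401435) (nat_lit 9) (.e (nat_lit 426555) (nat_lit 32) (.e (nat_lit 376857) (nat_lit 21) (.e (nat_lit 57870) (nat_lit 264) .nil)))))) (.g (nat_lit 5) .nil .nil))) 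
(.lf (nat_lit 30240) (.g (nat_lit 2645) (.e (nat_lit 1200) (nat_lit 88) (.e (nat_lit 65630) (nat_lit 14) (.e (nat_lit 401437) (nat_lit 9) (.e (nat_lit 426482) (nat_lit 27) (.e (nat_lit 336140) (nat_lit 9) .nil))))) .nil))) (.nd (nat_lit 5) 
(.lf (nat_lit 30224) (.g (nat_lit 1924) (.e (nat_lit 1200) (nat_lit 88) (.e (nat_lit 65630) (nat_lit 14) (.e (nat_lit 401436) (nat_lit 9) (.e (nat_lit 426544) (nat_lit 30) (.e (nat_lit 368384) (nat_lit 0) (.e (nat_lit 5906) (nat_lit 320) .nil)))))) (.g (nat_lit 4) .nil .nil))) 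
(.lf (nat_lit 30256) (.g (nat_lit 3177) (.e (nat_lit 1200) (nat_lit 88) (.e (nat_lit 65630) (nat_lit 14) (.e (nat_lit 401437) (nat_lit 9) (.e (nat_lit 426542) (nat_lit 29) (.e (nat_lit 352309) (nat_lit 21) (.e (nat_lit 57871) (nat_lit 264) .nil)))))) (.g (nat_lit 6) .nil .nil))))) (.nd (nat_lit 4) (.nd (nat_lit 5) 
(.lf (nat_lit 30216) (.g (nat_lit 2856) (.e (nat_lit 1200) (nat_lit 88) (.e (nat_lit 65630) (nat_lit 14) (.e (nat_lit 401436) (nat_lit 9) (.e (nat_lit 426542) (nat_lit 29) (.e (nat_lit 352307) (nat_lit 21) (.e (nat_lit 57872) (nat_lit 264) .nil)))))) (.g (nat_lit 6) .nil .nil))) 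
(.lf (nat_lit 30248) (.g (nat_lit 1030) (.e (nat_lit 1200) (nat_lit 88) (.e (nat_lit 65630) (nat_lit 14) (.e (nat_lit 401437) (nat_lit 9) (.e (nat_lit 426533) (nat_lit 28) .nil)))) .nil))) (.nd (nat_lit 5) 
(.lf (nat_lit 30232) (.g (nat_lit 2941) (.e (nat_lit 1200) (nat_lit 88) (.e (nat_lit 65630) (nat_lit 14) (.e (nat_lit 401436) (nat_lit 9) (.e (nat_lit 426555) (nat_lit 32) (.e (nat_lit 376859) (nat_lit 21) (.e (nat_lit 57870) (nat_lit 264) .nil)))))) (.g (nat_lit 6) .nil .nil))) 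
(.lf (nat_lit 30264) (.g (nat_lit 2403) (.e (nat_lit 1200) (nat_lit 88) (.e (nat_lit 65630) (nat_lit 14) (.e (nat_lit 401437) (nat_lit 9) (.e (nat_lit 426546) (nat_lit 30) (.e (nat_lit 360452) (nat_lit 0) (.e (nat_lit 5906) (nat_lit 320) .nil)))))) (.g (nat_lit 5) .nil .nil)))))) (.nd (nat_lit 3) (.nd (nat_lit 4) (.nd (nat_lit 5) 
(.lf (nat_lit 30212) (.g (nat_lit 3149) (.e (nat_lit 1200) (nat_lit 88) (.e (nat_lit 65630) (nat_lit 14) (.e (nat_lit 401435) (nat_lit 9) (.e (nat_lit 426555) (nat_lit 32) (.e (nat_lit 376859) (nat_lit 21) (.e (nat_lit 57873) (nat_lit 264) .nil)))))) (.g (nat_lit 6) .nil .nil))) 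
(.lf (nat_lit 30244) (.g (nat_lit 2668) (.e (nat_lit 1200) (nat_lit 88) (.e (nat_lit 65630) (nat_lit 14) (.e (nat_lit 401437) (nat_lit 9) (.e (nat_lit 426489) (nat_lit 27) (.e (nat_lit 336157) (nat_lit 9) (.e (nat_lit 335995) (nat_lit 1) (.e (nat_lit 57872) (nat_lit 264) .nil))))))) (.g (nat_lit 4) .nil .nil)))) (.nd (nat_lit 5) 
(.lf (nat_lit 30228) (.g (nat_lit 1641) (.e (nat_lit 1200) (nat_lit 88) (.e (nat_lit 65630) (nat_lit 14) (.e (nat_lit 401436) (nat_lit 9) (.e (nat_lit 426546) (nat_lit 30) (.e (nat_lit 368384) (nat_lit 0) (.e (nat_lit 5906) (nat_lit 320) .nil)))))) (.g (nat_lit 4) .nil .nil))) 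
(.lf (nat_lit 30260) (.g (nat_lit 2143) (.e (nat_lit 1200) (nat_lit 88) (.e (nat_lit 65630) (nat_lit 14) (.e (nat_lit 401437) (nat_lit 9) (.e (nat_lit 426544) (nat_lit 30) (.e (nat_lit 368384) (nat_lit 0) (.e (nat_lit 5905) (nat_lit 320) .nil)))))) (.g (nat_lit 4) .nil .nil))))) (.nd (nat_lit 4) (.nd (nat_lit 5) 
(.lf (nat_lit 30220) (.g (nat_lit 2875) (.e (nat_lit 1200) (nat_lit 88) (.e (nat_lit 65630) (nat_lit 14) (.e (nat_lit 401436) (nat_lit 9) (.e (nat_lit 426542) (nat_lit 29) (.e (nat_lit 352309) (nat_lit 21) (.e (nat_lit 57872) (nat_lit 264) .nil)))))) (.g (nat_lit 6) .nil .nil))) 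
(.lf (nat_lit 30252) (.g (nat_lit 2991) (.e (nat_lit 1200) (nat_lit 88) (.e (nat_lit 65630) (nat_lit 14) (.e (nat_lit 401437) (nat_lit 9) (.e (nat_lit 426542) (nat_lit 29) (.e (nat_lit 352307) (nat_lit 21) (.e (nat_lit 57870) (nat_lit 264) .nil)))))) (.g (nat_lit 6) .nil .nil)))) (.nd (nat_lit 5) 
(.lf (nat_lit 30236) (.g (nat_lit 2952) (.e (nat_lit 1200) (nat_lit 88) (.e (nat_lit 65630) (nat_lit 14) (.e (nat_lit 401436) (nat_lit 9) (.e (nat_lit 426555) (nat_lit 32) (.e (nat_lit 376860) (nat_lit 21) (.e (nat_lit 57870) (nat_lit 264) .nil)))))) (.g (nat_lit 5) .nil .nil))) 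
(.lf (nat_lit 30268) (.g (nat_lit 3309) (.e (nat_lit 1200) (nat_lit 88) (.e (nat_lit 65630) (nat_lit 14) (.e (nat_lit 401437) (nat_lit 9) (.e (nat_lit 426555) (nat_lit 32) (.e (nat_lit 376857) (nat_lit 21) (.e (nat_lit 57870) (nat_lit 264) .nil)))))) (.g (nat_lit 6) .nil .nil))))))) (.nd (nat_lit 2) (.nd (nat_lit 3) (.nd (nat_lit 4) (.nd (nat_lit 5) 
(.lf (nat_lit 30210) (.g (nat_lit 2784) (.e (nat_lit 1200) (nat_lit 88) (.e (nat_lit 65630) (nat_lit 14) (.e (nat_lit 401435) (nat_lit 9) (.e (nat_lit 426555) (nat_lit 32) (.e (nat_lit 376859) (nat_lit 21) (.e (nat_lit 57870) (nat_lit 264) .nil)))))) (.g (nat_lit 5) .nil .nil))) 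
(.lf (nat_lit 30242) (.g (nat_lit 1964) (.e (nat_lit 1200) (nat_lit 88) (.e (nat_lit 65630) (nat_lit 14) (.e (nat_lit 401437) (nat_lit 9) (.e (nat_lit 426489) (nat_lit 27) .nil)))) .nil))) (.nd (nat_lit 5) 
(.lf (nat_lit 30226) (.g (nat_lit 2924) (.e (nat_lit 1200) (nat_lit 88) (.e (nat_lit 65630) (nat_lit 14) (.e (nat_lit 401436) (nat_lit 9) (.e (nat_lit 426546) (nat_lit 30) (.e (nat_lit 360452) (nat_lit 0) (.e (nat_lit 5907) (nat_lit 320) .nil)))))) (.g (nat_lit 6) .nil .nil))) 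
(.lf (nat_lit 30258) (.g (nat_lit 2203) (.e (nat_lit 1200) (nat_lit 88) (.e (nat_lit 65630) (nat_lit 14) (.e (nat_lit 401437) (nat_lit 9) (.e (nat_lit 426544) (nat_lit 30) (.e (nat_lit 360449) (nat_lit 0) .nil))))) .nil)))) (.nd (nat_lit 4) (.nd (nat_lit 5) 
(.lf (nat_lit 30218) (.g (nat_lit 2531) (.e (nat_lit 1200) (nat_lit 88) (.e (nat_lit 65630) (nat_lit 14) (.e (nat_lit 401436) (nat_lit 9) (.e (nat_lit 426542) (nat_lit 29) (.e (nat_lit 352309) (nat_lit 21) (.e (nat_lit 57870) (nat_lit 264) .nil)))))) (.g (nat_lit 6) .nil .nil))) 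
(.lf (nat_lit 30250) (.g (nat_lit 2896) (.e (nat_lit 1200) (nat_lit 88) (.e (nat_lit 65630) (nat_lit 14) (.e (nat_lit 401437) (nat_lit 9) (.e (nat_lit 426538) (nat_lit 29) (.e (nat_lit 352309) (nat_lit 21) (.e (nat_lit 57872) (nat_lit 264) .nil)))))) (.g (nat_lit 5) .nil .nil)))) (.nd (nat_lit 5) 
(.lf (nat_lit 30234) (.g (nat_lit 3064) (.e (nat_lit 1200) (nat_lit 88) (.e (nat_lit 65630) (nat_lit 14) (.e (nat_lit 401436) (nat_lit 9) (.e (nat_lit 426555) (nat_lit 32) (.e (nat_lit 376859) (nat_lit 21) (.e (nat_lit 57872) (nat_lit 264) .nil)))))) (.g (nat_lit 6) .nil .nil))) 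
(.lf (nat_lit 30266) (.g (nat_lit 2340) (.e (nat_lit 1200) (nat_lit 88) (.e (nat_lit 65630) (nat_lit 14) (.e (nat_lit 401437) (nat_lit 9) (.e (nat_lit 426546) (nat_lit 30) (.e (nat_lit 368384) (nat_lit 0) (.e (nat_lit 5905) (nat_lit 320) .nil)))))) (.g (nat_lit 4) .nil .nil)))))) (.nd (nat_lit 3) (.nd (nat_lit 4) (.nd (nat_lit 5) 
(.lf (nat_lit 30214) (.g (nat_lit 2605) (.e (nat_lit 1200) (nat_lit 88) (.e (nat_lit 65630) (nat_lit 14) (.e (nat_lit 401436) (nat_lit 9) (.e (nat_lit 426542) (nat_lit 29) (.e (nat_lit 352307) (nat_lit 21) (.e (nat_lit 57870) (nat_lit 264) .nil)))))) (.g (nat_lit 6) .nil .nil))) 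
(.lf (nat_lit 30246) (.g (nat_lit 1253) (.e (nat_lit 1200) (nat_lit 88) (.e (nat_lit 65630) (nat_lit 14) (.e (nat_lit 401437) (nat_lit 9) (.e (nat_lit 426509) (nat_lit 27) .nil)))) .nil))) (.nd (nat_lit 5) 
(.lf (nat_lit 30230) (.g (nat_lit 3052) (.e (nat_lit 1200) (nat_lit 88) (.e (nat_lit 65630) (nat_lit 14) (.e (nat_lit 401436) (nat_lit 9) (.e (nat_lit 426555) (nat_lit 32) (.e (nat_lit 376857) (nat_lit 21) (.e (nat_lit 57872) (nat_lit 264) .nil)))))) (.g (nat_lit 6) .nil .nil))) 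
(.lf (nat_lit 30262) (.g (nat_lit 2320) (.e (nat_lit 1200) (nat_lit 88) (.e (nat_lit 65630) (nat_lit 14) (.e (nat_lit 401437) (nat_lit 9) (.e (nat_lit 426546) (nat_lit 30) (.e (nat_lit 360449) (nat_lit 0) .nil))))) .nil)))) (.nd (nat_lit 4) (.nd (nat_lit 5) 
(.lf (nat_lit 30222) (.g (nat_lit 3000) (.e (nat_lit 1200) (nat_lit 88) (.e (nat_lit 65630) (nat_lit 14) (.e (nat_lit 401436) (nat_lit 9) (.e (nat_lit 426544) (nat_lit 30) (.e (nat_lit 360453) (nat_lit 0) (.e (nat_lit 5907) (nat_lit 320) .nil)))))) (.g (nat_lit 6) .nil .nil))) 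
(.lf (nat_lit 30254) (.g (nat_lit 3242) (.e (nat_lit 1200) (nat_lit 88) (.e (nat_lit 65630) (nat_lit 14) (.e (nat_lit 401437) (nat_lit 9) (.e (nat_lit 426542) (nat_lit 29) (.e (nat_lit 352307) (nat_lit 21) (.e (nat_lit 57872) (nat_lit 264) .nil)))))) (.g (nat_lit 6) .nil .nil)))) (.nd (nat_lit 5) 
(.lf (nat_lit 30238) (.g (nat_lit 1655) (.e (nat_lit 1200) (nat_lit 88) (.e (nat_lit 65630) (nat_lit 14) (.e (nat_lit 401436) (nat_lit 9) (.e (nat_lit 426556) (nat_lit 32) (.e (nat_lit 376859) (nat_lit 21) (.e (nat_lit 57872) (nat_lit 264) .nil)))))) (.g (nat_lit 4) .nil .nil))) 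
(.lf (nat_lit 30270) (.g (nat_lit 3143) (.e (nat_lit 1200) (nat_lit 88) (.e (nat_lit 65630) (nat_lit 14) (.e (nat_lit 401437) (nat_lit 9) (.e (nat_lit 426555) (nat_lit 32) (.e (nat_lit 376859) (nat_lit 21) (.e (nat_lit 57870) (nat_lit 264) .nil)))))) (.g (nat_lit 6) .nil .nil)))))))) (.nd (nat_lit 1) (.nd (nat_lit 2) (.nd (nat_lit 3) (.nd (nat_lit 4) (.nd (nat_lit 5) 
(.lf (nat_lit 30209) (.g (nat_lit 3080) (.e (nat_lit 1200) (nat_lit 88) (.e (nat_lit 65630) (nat_lit 14) (.e (nat_lit 401435) (nat_lit 9) (.e (nat_lit 426555) (nat_lit 32) (.e (nat_lit 376857) (nat_lit 21) (.e (nat_lit 57873) (nat_lit 264) .nil)))))) (.g (nat_lit 5) .nil .nil))) 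
(.lf (nat_lit 30241) (.g (nat_lit 2135) (.e (nat_lit 1200) (nat_lit 88) (.e (nat_lit 65630) (nat_lit 14) (.e (nat_lit 401437) (nat_lit 9) (.e (nat_lit 426486) (nat_lit 27) .nil)))) .nil))) (.nd (nat_lit 5) 
(.lf (nat_lit 30225) (.g (nat_lit 1001) (.e (nat_lit 1200) (nat_lit 88) (.e (nat_lit 65630) (nat_lit 14) (.e (nat_lit 401436) (nat_lit 9) (.e (nat_lit 426546) (nat_lit 30) .nil)))) .nil)) 
(.lf (nat_lit 30257) (.g (nat_lit 3250) (.e (nat_lit 1200) (nat_lit 88) (.e (nat_lit 65630) (nat_lit 14) (.e (nat_lit 401437) (nat_lit 9) (.e (nat_lit 426542) (nat_lit 29) (.e (nat_lit 352309) (nat_lit 21) (.e (nat_lit 57872) (nat_lit 264) .nil)))))) (.g (nat_lit 6) .nil .nil))))) (.nd (nat_lit 4) (.nd (nat_lit 5) 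
(.lf (nat_lit 30217) (.g (nat_lit 3341) (.e (nat_lit 1200) (nat_lit 88) (.e (nat_lit 65630) (nat_lit 14) (.e (nat_lit 401436) (nat_lit 9) (.e (nat_lit 426542) (nat_lit 29) (.e (nat_lit 352307) (nat_lit 21) (.e (nat_lit 57873) (nat_lit 264) .nil)))))) (.g (nat_lit 0) .nil .nil))) 
(.lf (nat_lit 30249) (.g (nat_lit 2062) (.e (nat_lit 1200) (nat_lit 88) (.e (nat_lit 65630) (nat_lit 14) (.e (nat_lit 401437) (nat_lit 9) (.e (nat_lit 426538) (nat_lit 29) (.e (nat_lit 352309) (nat_lit 21) .nil))))) .nil))) (.nd (nat_lit 5) 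
(.lf (nat_lit 30233) (.g (nat_lit 2125) (.e (nat_lit 1200) (nat_lit 88) (.e (nat_lit 65630) (nat_lit 14) (.e (nat_lit 401436) (nat_lit 9) (.e (nat_lit 426555) (nat_lit 32) (.e (nat_lit 376859) (nat_lit 21) (.e (nat_lit 57871) (nat_lit 264) .nil)))))) (.g (nat_lit 4) .nil .nil))) 
(.lf (nat_lit 30265) (.g (nat_lit 3549) (.e (nat_lit 1200) (nat_lit 88) (.e (nat_lit 65630) (nat_lit 14) (.e (nat_lit 401437) (nat_lit 9) (.e (nat_lit 426546) (nat_lit 30) (.e (nat_lit 360452) (nat_lit 0) (.e (nat_lit 5907) (nat_lit 320) .nil)))))) (.g (nat_lit 0) .nil .nil)))))) (.nd (nat_lit 3) (.nd (nat_lit 4) (.nd (nat_lit 5) 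
(.lf (nat_lit 30213) (.g (nat_lit 455) (.e (nat_lit 1200) (nat_lit 88) (.e (nat_lit 65630) (nat_lit 14) (.e (nat_lit 401436) (nat_lit 9) .nil))) .nil)) 
(.lf (nat_lit 30245) (.g (nat_lit 2345) (.e (nat_lit 1200) (nat_lit 88) (.e (nat_lit 65630) (nat_lit 14) (.e (nat_lit 401437) (nat_lit 9) (.e (nat_lit 426491) (nat_lit 27) (.e (nat_lit 336157) (nat_lit 9) .nil))))) .nil))) (.nd (nat_lit 5) 
(.lf (nat_lit 30229) (.g (nat_lit 3148) (.e (nat_lit 1200) (nat_lit 88) (.e (nat_lit 65630) (nat_lit 14) (.e (nat_lit 401436) (nat_lit 9) (.e (nat_lit 426555) (nat_lit 32) (.e (nat_lit 376857) (nat_lit 21) (.e (nat_lit 57870) (nat_lit 264) .nil)))))) (.g (nat_lit 6) .nil .nil))) 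
(.lf (nat_lit 30261) (.g (nat_lit 2290) (.e (nat_lit 1200) (nat_lit 88) (.e (nat_lit 65630) (nat_lit 14) (.e (nat_lit 401437) (nat_lit 9) (.e (nat_lit 426546) (nat_lit 30) (.e (nat_lit 360448) (nat_lit 0) .nil))))) .nil)))) (.nd (nat_lit 4) (.nd (nat_lit 5) 
(.lf (nat_lit 30221) (.g (nat_lit 3152) (.e (nat_lit 1200) (nat_lit 88) (.e (nat_lit 65630) (nat_lit 14) (.e (nat_lit 401436) (nat_lit 9) (.e (nat_lit 426542) (nat_lit 29) (.e (nat_lit 352309) (nat_lit 21) (.e (nat_lit 57873) (nat_lit 264) .nil)))))) (.g (nat_lit 0) .nil .nil))) 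
(.lf (nat_lit 30253) (.g (nat_lit 3482) (.e (nat_lit 1200) (nat_lit 88) (.e (nat_lit 65630) (nat_lit 14) (.e (nat_lit 401437) (nat_lit 9) (.e (nat_lit 426542) (nat_lit 29) (.e (nat_lit 352307) (nat_lit 21) (.e (nat_lit 57871) (nat_lit 264) .nil)))))) (.g (nat_lit 6) .nil .nil)))) (.nd (nat_lit 5) 
(.lf (nat_lit 30237) (.g (nat_lit 1085) (.e (nat_lit 1200) (nat_lit 88) (.e (nat_lit 65630) (nat_lit 14) (.e (nat_lit 401436) (nat_lit 9) (.e (nat_lit 426556) (nat_lit 32) .nil)))) .nil)) 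
(.lf (nat_lit 30269) (.g (nat_lit 3193) (.e (nat_lit 1200) (nat_lit 88) (.e (nat_lit 65630) (nat_lit 14) (.e (nat_lit 401437) (nat_lit 9) (.e (nat_lit 426555) (nat_lit 32) (.e (nat_lit 376857) (nat_lit 21) (.e (nat_lit 57872) (nat_lit 264) .nil)))))) (.g (nat_lit 6) .nil .nil))))))) (.nd (nat_lit 2) (.nd (nat_lit 3) (.nd (nat_lit 4) (.nd (nat_lit 5) 
(.lf (nat_lit 30211) (.g (nat_lit 2909) (.e (nat_lit 1200) (nat_lit 88) (.e (nat_lit 65630) (nat_lit 14) (.e (nat_lit 401435) (nat_lit 9) (.e (nat_lit 426555) (nat_lit 32) (.e (nat_lit 376859) (nat_lit 21) (.e (nat_lit 57872) (nat_lit 264) .nil)))))) (.g (nat_lit 5) .nil .nil))) 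
(.lf (nat_lit 30243) (.g (nat_lit 2293) (.e (nat_lit 1200) (nat_lit 88) (.e (nat_lit 65630) (nat_lit 14) (.e (nat_lit 401437) (nat_lit 9) (.e (nat_lit 426489) (nat_lit 27) (.e (nat_lit 336156) (nat_lit 9) .nil))))) .nil))) (.nd (nat_lit 5) 
(.lf (nat_lit 30227) (.g (nat_lit 1874) (.e (nat_lit 1200) (nat_lit 88) (.e (nat_lit 65630) (nat_lit 14) (.e (nat_lit 401436) (nat_lit 9) (.e (nat_lit 426546) (nat_lit 30) (.e (nat_lit 368384) (nat_lit 0) (.e (nat_lit 5902) (nat_lit 320) .nil)))))) (.g (nat_lit 4) .nil .nil))) 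
(.lf (nat_lit 30259) (.g (nat_lit 2349) (.e (nat_lit 1200) (nat_lit 88) (.e (nat_lit 65630) (nat_lit 14) (.e (nat_lit 401437) (nat_lit 9) (.e (nat_lit 426544) (nat_lit 30) (.e (nat_lit 368384) (nat_lit 0) (.e (nat_lit 5902) (nat_lit 320) .nil)))))) (.g (nat_lit 4) .nil .nil))))) (.nd (nat_lit 4) (.nd (nat_lit 5) 
(.lf (nat_lit 30219) (.g (nat_lit 2790) (.e (nat_lit 1200) (nat_lit 88) (.e (nat_lit 65630) (nat_lit 14) (.e (nat_lit 401436) (nat_lit 9) (.e (nat_lit 426542) (nat_lit 29) (.e (nat_lit 352309) (nat_lit 21) (.e (nat_lit 57871) (nat_lit 264) .nil)))))) (.g (nat_lit 6) .nil .nil))) 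
(.lf (nat_lit 30251) (.g (nat_lit 1865) (.e (nat_lit 1200) (nat_lit 88) (.e (nat_lit 65630) (nat_lit 14) (.e (nat_lit 401437) (nat_lit 9) (.e (nat_lit 426539) (nat_lit 29) .nil)))) .nil))) (.nd (nat_lit 5) 
(.lf (nat_lit 30235) (.g (nat_lit 3304) (.e (nat_lit 1200) (nat_lit 88) (.e (nat_lit 65630) (nat_lit 14) (.e (nat_lit 401436) (nat_lit 9) (.e (nat_lit 426555) (nat_lit 32) (.e (nat_lit 376859) (nat_lit 21) (.e (nat_lit 57873) (nat_lit 264) .nil)))))) (.g (nat_lit 0) .nil .nil))) 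
(.lf (nat_lit 30267) (.g (nat_lit 2248) (.e (nat_lit 1200) (nat_lit 88) (.e (nat_lit 65630) (nat_lit 14) (.e (nat_lit 401437) (nat_lit 9) (.e (nat_lit 426546) (nat_lit 30) (.e (nat_lit 368384) (nat_lit 0) (.e (nat_lit 5906) (nat_lit 320) .nil)))))) (.g (nat_lit 4) .nil .nil)))))) (.nd (nat_lit 3) (.nd (nat_lit 4) (.nd (nat_lit 5) 
(.lf (nat_lit 30215) (.g (nat_lit 3082) (.e (nat_lit 1200) (nat_lit 88) (.e (nat_lit 65630) (nat_lit 14) (.e (nat_lit 401436) (nat_lit 9) (.e (nat_lit 426542) (nat_lit 29) (.e (nat_lit 352307) (nat_lit 21) (.e (nat_lit 57871) (nat_lit 264) .nil)))))) (.g (nat_lit 6) .nil .nil))) 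
(.lf (nat_lit 30247) (.g (nat_lit 2056) (.e (nat_lit 1200) (nat_lit 88) (.e (nat_lit 65630) (nat_lit 14) (.e (nat_lit 401437) (nat_lit 9) (.e (nat_lit 426509) (nat_lit 27) (.e (nat_lit 336177) (nat_lit 10) (.e (nat_lit 344097) (nat_lit 18) (.e (nat_lit 5906) (nat_lit 320) .nil))))))) (.g (nat_lit 4) .nil .nil)))) (.nd (nat_lit 5) 
(.lf (nat_lit 30231) (.g (nat_lit 3379) (.e (nat_lit 1200) (nat_lit 88) (.e (nat_lit 65630) (nat_lit 14) (.e (nat_lit 401436) (nat_lit 9) (.e (nat_lit 426555) (nat_lit 32) (.e (nat_lit 376857) (nat_lit 21) (.e (nat_lit 57873) (nat_lit 264) .nil)))))) (.g (nat_lit 0) .nil .nil))) 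
(.lf (nat_lit 30263) (.g (nat_lit 3208) (.e (nat_lit 1200) (nat_lit 88) (.e (nat_lit 65630) (nat_lit 14) (.e (nat_lit 401437) (nat_lit 9) (.e (nat_lit 426546) (nat_lit 30) (.e (nat_lit 360452) (nat_lit 0) (.e (nat_lit 5905) (nat_lit 320) .nil)))))) (.g (nat_lit 6) .nil .nil))))) (.nd (nat_lit 4) (.nd (nat_lit 5) 
(.lf (nat_lit 30223) (.g (nat_lit 1949) (.e (nat_lit 1200) (nat_lit 88) (.e (nat_lit 65630) (nat_lit 14) (.e (nat_lit 401436) (nat_lit 9) (.e (nat_lit 426544) (nat_lit 30) (.e (nat_lit 368384) (nat_lit 0) (.e (nat_lit 5902) (nat_lit 320) .nil)))))) (.g (nat_lit 4) .nil .nil))) 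
(.lf (nat_lit 30255) (.g (nat_lit 2911) (.e (nat_lit 1200) (nat_lit 88) (.e (nat_lit 65630) (nat_lit 14) (.e (nat_lit 401437) (nat_lit 9) (.e (nat_lit 426542) (nat_lit 29) (.e (nat_lit 352309) (nat_lit 21) (.e (nat_lit 57870) (nat_lit 264) .nil)))))) (.g (nat_lit 6) .nil .nil)))) (.nd (nat_lit 5) 
(.lf (nat_lit 30239) (.g (nat_lit 419) (.e (nat_lit 1200) (nat_lit 88) (.e (nat_lit 65630) (nat_lit 14) (.e (nat_lit 401437) (nat_lit 9) .nil))) .nil)) 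
(.lf (nat_lit 30271) (.g (nat_lit 2298) (.e (nat_lit 1200) (nat_lit 88) (.e (nat_lit 65630) (nat_lit 14) (.e (nat_lit 401437) (nat_lit 9) (.e (nat_lit 426555) (nat_lit 32) (.e (nat_lit 376859) (nat_lit 21) (.e (nat_lit 57871) (nat_lit 264) .nil)))))) (.g (nat_lit 4) .nil .nil)))))))))

noncomputable def tv421 : DT := (.nd (nat_lit 0) (.nd (nat_lit 1) (.nd (nat_lit 2) (.nd (nat_lit 3) (.nd (nat_lit 4) (.nd (nat_lit 5) 
(.lf (nat_lit 30272) (.g (nat_lit 3253) (.e (nat_lit 1200) (nat_lit 88) (.e (nat_lit 65630) (nat_lit 14) (.e (nat_lit 401437) (nat_lit 9) (.e (nat_lit 426555) (nat_lit 32) (.e (nat_lit 376859) (nat_lit 21) (.e (nat_lit 57872) (nat_lit 264) .nil)))))) (.g (nat_lit 6) .nil .nil))) 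
(.lf (nat_lit 30304) (.g (nat_lit 1675) (.e (nat_lit 1200) (nat_lit 88) (.e (nat_lit 65630) (nat_lit 14) (.e (nat_lit 401456) (nat_lit 13) (.e (nat_lit 483391) (nat_lit 23) .nil)))) .nil))) (.nd (nat_lit 5) 
(.lf (nat_lit 30288) (.g (nat_lit 1397) (.e (nat_lit 1200) (nat_lit 88) (.e (nat_lit 65630) (nat_lit 14) (.e (nat_lit 401438) (nat_lit 9) (.e (nat_lit 426546) (nat_lit 30) .nil)))) .nil)) 
(.lf (nat_lit 30320) (.g (nat_lit 1821) (.e (nat_lit 1200) (nat_lit 88) (.e (nat_lit 65630) (nat_lit 14) (.e (nat_lit 401457) (nat_lit 13) (.e (nat_lit 483390) (nat_lit 23) .nil)))) .nil)))) (.nd (nat_lit 4) (.nd (nat_lit 5) 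
(.lf (nat_lit 30280) (.g (nat_lit 2718) (.e (nat_lit 1200) (nat_lit 88) (.e (nat_lit 65630) (nat_lit 14) (.e (nat_lit 401438) (nat_lit 9) (.e (nat_lit 426542) (nat_lit 29) (.e (nat_lit 352309) (nat_lit 21) (.e (nat_lit 57870) (nat_lit 264) .nil)))))) (.g (nat_lit 6) .nil .nil))) 
(.lf (nat_lit 30312) (.g (nat_lit 1582) (.e (nat_lit 1200) (nat_lit 88) (.e (nat_lit 65630) (nat_lit 14) (.e (nat_lit 401457) (nat_lit 13) (.e (nat_lit 483377) (nat_lit 22) .nil)))) .nil))) (.nd (nat_lit 5) 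
(.lf (nat_lit 30296) (.g (nat_lit 3601) (.e (nat_lit 1200) (nat_lit 88) (.e (nat_lit 65630) (nat_lit 14) (.e (nat_lit 401438) (nat_lit 9) (.e (nat_lit 426555) (nat_lit 32) (.e (nat_lit 376859) (nat_lit 21) (.e (nat_lit 57873) (nat_lit 264) .nil)))))) (.g (nat_lit 6) .nil .nil))) 
(.lf (nat_lit 30328) (.g (nat_lit 2772) (.e (nat_lit 1200) (nat_lit 88) (.e (nat_lit 65630) (nat_lit 14) (.e (nat_lit 401457) (nat_lit 13) (.e (nat_lit 483395) (nat_lit 24) (.e (nat_lit 344097) (nat_lit 18) .nil))))) .nil))))) (.nd (nat_lit 3) (.nd (nat_lit 4) (.nd (nat_lit 5) 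
(.lf (nat_lit 30276) (.g (nat_lit 2769) (.e (nat_lit 1200) (nat_lit 88) (.e (nat_lit 65630) (nat_lit 14) (.e (nat_lit 401438) (nat_lit 9) (.e (nat_lit 426542) (nat_lit 29) (.e (nat_lit 352307) (nat_lit 21) (.e (nat_lit 57870) (nat_lit 264) .nil)))))) (.g (nat_lit 6) .nil .nil))) 
(.lf (nat_lit 30308) (.g (nat_lit 1534) (.e (nat_lit 1200) (nat_lit 88) (.e (nat_lit 65630) (nat_lit 14) (.e (nat_lit 401457) (nat_lit 13) (.e (nat_lit 483346) (nat_lit 17) .nil)))) .nil))) (.nd (nat_lit 5) 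
(.lf (nat_lit 30292) (.g (nat_lit 3545) (.e (nat_lit 1200) (nat_lit 88) (.e (nat_lit 65630) (nat_lit 14) (.e (nat_lit 401438) (nat_lit 9) (.e (nat_lit 426555) (nat_lit 32) (.e (nat_lit 376857) (nat_lit 21) (.e (nat_lit 57873) (nat_lit 264) .nil)))))) (.g (nat_lit 6) .nil .nil))) 
(.lf (nat_lit 30324) (.g (nat_lit 1914) (.e (nat_lit 1200) (nat_lit 88) (.e (nat_lit 65630) (nat_lit 14) (.e (nat_lit 401457) (nat_lit 13) (.e (nat_lit 483393) (nat_lit 23) (.e (nat_lit 335987) (nat_lit 1) (.e (nat_lit 57870) (nat_lit 264) .nil)))))) (.g (nat_lit 4) .nil .nil))))) (.nd (nat_lit 4) (.nd (nat_lit 5) 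
(.lf (nat_lit 30284) (.g (nat_lit 1401) (.e (nat_lit 1200) (nat_lit 88) (.e (nat_lit 65630) (nat_lit 14) (.e (nat_lit 401438) (nat_lit 9) (.e (nat_lit 426544) (nat_lit 30) .nil)))) .nil)) 
(.lf (nat_lit 30316) (.g (nat_lit 1679) (.e (nat_lit 1200) (nat_lit 88) (.e (nat_lit 65630) (nat_lit 14) (.e (nat_lit 401457) (nat_lit 13) (.e (nat_lit 483383) (nat_lit 23) (.e (nat_lit 336000) (nat_lit 1) .nil))))) .nil))) (.nd (nat_lit 5) 
(.lf (nat_lit 30300) (.g (nat_lit 2902) (.e (nat_lit 1200) (nat_lit 88) (.e (nat_lit 65630) (nat_lit 14) (.e (nat_lit 401454) (nat_lit 12) (.e (nat_lit 475144) (nat_lit 16) .nil)))) .nil)) 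
(.lf (nat_lit 30332) (.g (nat_lit 2613) (.e (nat_lit 1200) (nat_lit 88) (.e (nat_lit 65630) (nat_lit 14) (.e (nat_lit 401457) (nat_lit 13) (.e (nat_lit 483413) (nat_lit 27) (.e (nat_lit 401420) (nat_lit 1) (.e (nat_lit 164423) (nat_lit 272) .nil)))))) (.g (nat_lit 4) .nil .nil))))))) (.nd (nat_lit 2) (.nd (nat_lit 3) (.nd (nat_lit 4) (.nd (nat_lit 5) 
(.lf (nat_lit 30274) (.g (nat_lit 1822) (.e (nat_lit 1200) (nat_lit 88) (.e (nat_lit 65630) (nat_lit 14) (.e (nat_lit 401437) (nat_lit 9) (.e (nat_lit 426556) (nat_lit 32) .nil)))) .nil)) 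
(.lf (nat_lit 30306) (.g (nat_lit 2106) (.e (nat_lit 1200) (nat_lit 88) (.e (nat_lit 65630) (nat_lit 14) (.e (nat_lit 401456) (nat_lit 13) (.e (nat_lit 483395) (nat_lit 24) (.e (nat_lit 344097) (nat_lit 18) (.e (nat_lit 5907) (nat_lit 320) .nil)))))) (.g (nat_lit 4) .nil .nil)))) (.nd (nat_lit 5) 
(.lf (nat_lit 30290) (.g (nat_lit 3365) (.e (nat_lit 1200) (nat_lit 88) (.e (nat_lit 65630) (nat_lit 14) (.e (nat_lit 401438) (nat_lit 9) (.e (nat_lit 426555) (nat_lit 32) (.e (nat_lit 376857) (nat_lit 21) (.e (nat_lit 57870) (nat_lit 264) .nil)))))) (.g (nat_lit 5) .nil .nil))) 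
(.lf (nat_lit 30322) (.g (nat_lit 1942) (.e (nat_lit 1200) (nat_lit 88) (.e (nat_lit 65630) (nat_lit 14) (.e (nat_lit 401457) (nat_lit 13) (.e (nat_lit 483393) (nat_lit 23) (.e (nat_lit 335986) (nat_lit 1) (.e (nat_lit 57872) (nat_lit 264) .nil)))))) (.g (nat_lit 4) .nil .nil))))) (.nd (nat_lit 4) (.nd (nat_lit 5) 
(.lf (nat_lit 30282) (.g (nat_lit 3061) (.e (nat_lit 1200) (nat_lit 88) (.e (nat_lit 65630) (nat_lit 14) (.e (nat_lit 401438) (nat_lit 9) (.e (nat_lit 426542) (nat_lit 29) (.e (nat_lit 352309) (nat_lit 21) (.e (nat_lit 57872) (nat_lit 264) .nil)))))) (.g (nat_lit 6) .nil .nil))) 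
(.lf (nat_lit 30314) (.g (nat_lit 2524) (.e (nat_lit 1200) (nat_lit 88) (.e (nat_lit 65630) (nat_lit 14) (.e (nat_lit 401457) (nat_lit 13) (.e (nat_lit 483378) (nat_lit 23) (.e (nat_lit 335997) (nat_lit 1) (.e (nat_lit 57871) (nat_lit 264) .nil)))))) (.g (nat_lit 5) .nil .nil)))) (.nd (nat_lit 5) 
(.lf (nat_lit 30298) (.g (nat_lit 835) (.e (nat_lit 1200) (nat_lit 88) (.e (nat_lit 65630) (nat_lit 14) (.e (nat_lit 401454) (nat_lit 12) .nil))) .nil)) 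
(.lf (nat_lit 30330) (.g (nat_lit 2528) (.e (nat_lit 1200) (nat_lit 88) (.e (nat_lit 65630) (nat_lit 14) (.e (nat_lit 401457) (nat_lit 13) (.e (nat_lit 483413) (nat_lit 27) (.e (nat_lit 401420) (nat_lit 1) .nil))))) .nil))))) (.nd (nat_lit 3) (.nd (nat_lit 4) (.nd (nat_lit 5) 
(.lf (nat_lit 30278) (.g (nat_lit 3017) (.e (nat_lit 1200) (nat_lit 88) (.e (nat_lit 65630) (nat_lit 14) (.e (nat_lit 401438) (nat_lit 9) (.e (nat_lit 426542) (nat_lit 29) (.e (nat_lit 352307) (nat_lit 21) (.e (nat_lit 57872) (nat_lit 264) .nil)))))) (.g (nat_lit 6) .nil .nil))) 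
(.lf (nat_lit 30310) (.g (nat_lit 3528) (.e (nat_lit 1200) (nat_lit 88) (.e (nat_lit 65630) (nat_lit 14) (.e (nat_lit 401457) (nat_lit 13) (.e (nat_lit 483346) (nat_lit 17) (.e (nat_lit 6203) (nat_lit 332) (.e (nat_lit 2544) (nat_lit 158) (.e (nat_lit 8439) (nat_lit 138) .nil))))))) (.g (nat_lit 5) .nil .nil)))) (.nd (nat_lit 5) 
(.lf (nat_lit 30294) (.g (nat_lit 2378) (.e (nat_lit 1200) (nat_lit 88) (.e (nat_lit 65630) (nat_lit 14) (.e (nat_lit 401438) (nat_lit 9) (.e (nat_lit 426555) (nat_lit 32) (.e (nat_lit 376859) (nat_lit 21) (.e (nat_lit 57871) (nat_lit 264) .nil)))))) (.g (nat_lit 4) .nil .nil))) 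
(.lf (nat_lit 30326) (.g (nat_lit 2862) (.e (nat_lit 1200) (nat_lit 88) (.e (nat_lit 65630) (nat_lit 14) (.e (nat_lit 401457) (nat_lit 13) (.e (nat_lit 483393) (nat_lit 23) (.e (nat_lit 335995) (nat_lit 1) (.e (nat_lit 57872) (nat_lit 264) .nil)))))) (.g (nat_lit 5) .nil .nil))))) (.nd (nat_lit 4) (.nd (nat_lit 5) 
(.lf (nat_lit 30286) (.g (nat_lit 2026) (.e (nat_lit 1200) (nat_lit 88) (.e (nat_lit 65630) (nat_lit 14) (.e (nat_lit 401438) (nat_lit 9) (.e (nat_lit 426544) (nat_lit 30) (.e (nat_lit 368384) (nat_lit 0) (.e (nat_lit 5902) (nat_lit 320) .nil)))))) (.g (nat_lit 4) .nil .nil))) 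
(.lf (nat_lit 30318) (.g (nat_lit 2448) (.e (nat_lit 1200) (nat_lit 88) (.e (nat_lit 65630) (nat_lit 14) (.e (nat_lit 401457) (nat_lit 13) (.e (nat_lit 483383) (nat_lit 23) (.e (nat_lit 336000) (nat_lit 1) (.e (nat_lit 57873) (nat_lit 264) .nil)))))) (.g (nat_lit 5) .nil .nil)))) (.nd (nat_lit 5) 
(.lf (nat_lit 30302) (.g (nat_lit 585) (.e (nat_lit 1200) (nat_lit 88) (.e (nat_lit 65630) (nat_lit 14) (.e (nat_lit 401456) (nat_lit 13) .nil))) .nil)) 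
(.lf (nat_lit 30334) (.g (nat_lit 2589) (.e (nat_lit 1200) (nat_lit 88) (.e (nat_lit 65630) (nat_lit 14) (.e (nat_lit 401457) (nat_lit 13) (.e (nat_lit 483413) (nat_lit 27) (.e (nat_lit 401421) (nat_lit 1) .nil))))) .nil))))))) (.nd (nat_lit 1) (.nd (nat_lit 2) (.nd (nat_lit 3) (.nd (nat_lit 4) (.nd (nat_lit 5) 
(.lf (nat_lit 30273) (.g (nat_lit 3088) (.e (nat_lit 1200) (nat_lit 88) (.e (nat_lit 65630) (nat_lit 14) (.e (nat_lit 401437) (nat_lit 9) (.e (nat_lit 426555) (nat_lit 32) (.e (nat_lit 376860) (nat_lit 21) (.e (nat_lit 57870) (nat_lit 264) .nil)))))) (.g (nat_lit 6) .nil .nil))) 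
(.lf (nat_lit 30305) (.g (nat_lit 1806) (.e (nat_lit 1200) (nat_lit 88) (.e (nat_lit 65630) (nat_lit 14) (.e (nat_lit 401456) (nat_lit 13) (.e (nat_lit 483395) (nat_lit 24) (.e (nat_lit 344097) (nat_lit 18) (.e (nat_lit 5906) (nat_lit 320) .nil)))))) (.g (nat_lit 4) .nil .nil)))) (.nd (nat_lit 5) 
(.lf (nat_lit 30289) (.g (nat_lit 1912) (.e (nat_lit 1200) (nat_lit 88) (.e (nat_lit 65630) (nat_lit 14) (.e (nat_lit 401438) (nat_lit 9) (.e (nat_lit 426546) (nat_lit 30) (.e (nat_lit 360452) (nat_lit 0) (.e (nat_lit 5906) (nat_lit 320) .nil)))))) (.g (nat_lit 4) .nil .nil))) 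
(.lf (nat_lit 30321) (.g (nat_lit 2256) (.e (nat_lit 1200) (nat_lit 88) (.e (nat_lit 65630) (nat_lit 14) (.e (nat_lit 401457) (nat_lit 13) (.e (nat_lit 483393) (nat_lit 23) (.e (nat_lit 335986) (nat_lit 1) (.e (nat_lit 57871) (nat_lit 264) .nil)))))) (.g (nat_lit 4) .nil .nil))))) (.nd (nat_lit 4) (.nd (nat_lit 5) 
(.lf (nat_lit 30281) (.g (nat_lit 2972) (.e (nat_lit 1200) (nat_lit 88) (.e (nat_lit 65630) (nat_lit 14) (.e (nat_lit 401438) (nat_lit 9) (.e (nat_lit 426542) (nat_lit 29) (.e (nat_lit 352309) (nat_lit 21) (.e (nat_lit 57871) (nat_lit 264) .nil)))))) (.g (nat_lit 6) .nil .nil))) 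
(.lf (nat_lit 30313) (.g (nat_lit 2480) (.e (nat_lit 1200) (nat_lit 88) (.e (nat_lit 65630) (nat_lit 14) (.e (nat_lit 401457) (nat_lit 13) (.e (nat_lit 483378) (nat_lit 23) (.e (nat_lit 335997) (nat_lit 1) (.e (nat_lit 57870) (nat_lit 264) .nil)))))) (.g (nat_lit 5) .nil .nil)))) (.nd (nat_lit 5) 
(.lf (nat_lit 30297) (.g (nat_lit 3200) (.e (nat_lit 1200) (nat_lit 88) (.e (nat_lit 65630) (nat_lit 14) (.e (nat_lit 401438) (nat_lit 9) (.e (nat_lit 426555) (nat_lit 32) (.e (nat_lit 376860) (nat_lit 21) (.e (nat_lit 57870) (nat_lit 264) .nil)))))) (.g (nat_lit 5) .nil .nil))) 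
(.lf (nat_lit 30329) (.g (nat_lit 1985) (.e (nat_lit 1200) (nat_lit 88) (.e (nat_lit 65630) (nat_lit 14) (.e (nat_lit 401457) (nat_lit 13) (.e (nat_lit 483399) (nat_lit 25) .nil)))) .nil))))) (.nd (nat_lit 3) (.nd (nat_lit 4) (.nd (nat_lit 5) 
(.lf (nat_lit 30277) (.g (nat_lit 3241) (.e (nat_lit 1200) (nat_lit 88) (.e (nat_lit 65630) (nat_lit 14) (.e (nat_lit 401438) (nat_lit 9) (.e (nat_lit 426542) (nat_lit 29) (.e (nat_lit 352307) (nat_lit 21) (.e (nat_lit 57871) (nat_lit 264) .nil)))))) (.g (nat_lit 6) .nil .nil))) 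
(.lf (nat_lit 30309) (.g (nat_lit 2600) (.e (nat_lit 1200) (nat_lit 88) (.e (nat_lit 65630) (nat_lit 14) (.e (nat_lit 401457) (nat_lit 13) (.e (nat_lit 483346) (nat_lit 17) (.e (nat_lit 6154) (nat_lit 332) .nil))))) .nil))) (.nd (nat_lit 5) 
(.lf (nat_lit 30293) (.g (nat_lit 3254) (.e (nat_lit 1200) (nat_lit 88) (.e (nat_lit 65630) (nat_lit 14) (.e (nat_lit 401438) (nat_lit 9) (.e (nat_lit 426555) (nat_lit 32) (.e (nat_lit 376859) (nat_lit 21) (.e (nat_lit 57870) (nat_lit 264) .nil)))))) (.g (nat_lit 5) .nil .nil))) 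
(.lf (nat_lit 30325) (.g (nat_lit 2238) (.e (nat_lit 1200) (nat_lit 88) (.e (nat_lit 65630) (nat_lit 14) (.e (nat_lit 401457) (nat_lit 13) (.e (nat_lit 483393) (nat_lit 23) (.e (nat_lit 335995) (nat_lit 1) (.e (nat_lit 57870) (nat_lit 264) .nil)))))) (.g (nat_lit 4) .nil .nil))))) (.nd (nat_lit 4) (.nd (nat_lit 5) 
(.lf (nat_lit 30285) (.g (nat_lit 3126) (.e (nat_lit 1200) (nat_lit 88) (.e (nat_lit 65630) (nat_lit 14) (.e (nat_lit 401438) (nat_lit 9) (.e (nat_lit 426544) (nat_lit 30) (.e (nat_lit 360453) (nat_lit 0) (.e (nat_lit 5907) (nat_lit 320) .nil)))))) (.g (nat_lit 6) .nil .nil))) 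
(.lf (nat_lit 30317) (.g (nat_lit 1957) (.e (nat_lit 1200) (nat_lit 88) (.e (nat_lit 65630) (nat_lit 14) (.e (nat_lit 401457) (nat_lit 13) (.e (nat_lit 483383) (nat_lit 23) (.e (nat_lit 336000) (nat_lit 1) (.e (nat_lit 57872) (nat_lit 264) .nil)))))) (.g (nat_lit 4) .nil .nil)))) (.nd (nat_lit 5) 
(.lf (nat_lit 30301) (.g (nat_lit 2760) (.e (nat_lit 1200) (nat_lit 88) (.e (nat_lit 65630) (nat_lit 14) (.e (nat_lit 401454) (nat_lit 12) (.e (nat_lit 475154) (nat_lit 20) .nil)))) .nil)) 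
(.lf (nat_lit 30333) (.g (nat_lit 3278) (.e (nat_lit 1200) (nat_lit 88) (.e (nat_lit 65630) (nat_lit 14) (.e (nat_lit 401457) (nat_lit 13) (.e (nat_lit 483413) (nat_lit 27) (.e (nat_lit 401420) (nat_lit 1) (.e (nat_lit 164424) (nat_lit 272) .nil)))))) (.g (nat_lit 6) .nil .nil))))))) (.nd (nat_lit 2) (.nd (nat_lit 3) (.nd (nat_lit 4) (.nd (nat_lit 5) 
(.lf (nat_lit 30275) (.g (nat_lit 1800) (.e (nat_lit 1200) (nat_lit 88) (.e (nat_lit 65630) (nat_lit 14) (.e (nat_lit 401438) (nat_lit 9) (.e (nat_lit 426487) (nat_lit 27) .nil)))) .nil)) 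
(.lf (nat_lit 30307) (.g (nat_lit 447) (.e (nat_lit 1200) (nat_lit 88) (.e (nat_lit 65630) (nat_lit 14) (.e (nat_lit 401457) (nat_lit 13) .nil))) .nil))) (.nd (nat_lit 5) 
(.lf (nat_lit 30291) (.g (nat_lit 3217) (.e (nat_lit 1200) (nat_lit 88) (.e (nat_lit 65630) (nat_lit 14) (.e (nat_lit 401438) (nat_lit 9) (.e (nat_lit 426555) (nat_lit 32) (.e (nat_lit 376857) (nat_lit 21) (.e (nat_lit 57872) (nat_lit 264) .nil)))))) (.g (nat_lit 5) .nil .nil))) 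
(.lf (nat_lit 30323) (.g (nat_lit 2787) (.e (nat_lit 1200) (nat_lit 88) (.e (nat_lit 65630) (nat_lit 14) (.e (nat_lit 401457) (nat_lit 13) (.e (nat_lit 483393) (nat_lit 23) (.e (nat_lit 335986) (nat_lit 1) (.e (nat_lit 57873) (nat_lit 264) .nil)))))) (.g (nat_lit 6) .nil .nil))))) (.nd (nat_lit 4) (.nd (nat_lit 5) 
(.lf (nat_lit 30283) (.g (nat_lit 3322) (.e (nat_lit 1200) (nat_lit 88) (.e (nat_lit 65630) (nat_lit 14) (.e (nat_lit 401438) (nat_lit 9) (.e (nat_lit 426542) (nat_lit 29) (.e (nat_lit 352309) (nat_lit 21) (.e (nat_lit 57873) (nat_lit 264) .nil)))))) (.g (nat_lit 6) .nil .nil))) 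
(.lf (nat_lit 30315) (.g (nat_lit 2538) (.e (nat_lit 1200) (nat_lit 88) (.e (nat_lit 65630) (nat_lit 14) (.e (nat_lit 401457) (nat_lit 13) (.e (nat_lit 483378) (nat_lit 23) (.e (nat_lit 335997) (nat_lit 1) (.e (nat_lit 57872) (nat_lit 264) .nil)))))) (.g (nat_lit 5) .nil .nil)))) (.nd (nat_lit 5) 
(.lf (nat_lit 30299) (.g (nat_lit 1743) (.e (nat_lit 1200) (nat_lit 88) (.e (nat_lit 65630) (nat_lit 14) (.e (nat_lit 401454) (nat_lit 12) (.e (nat_lit 483072) (nat_lit 13) .nil)))) .nil)) 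
(.lf (nat_lit 30331) (.g (nat_lit 3396) (.e (nat_lit 1200) (nat_lit 88) (.e (nat_lit 65630) (nat_lit 14) (.e (nat_lit 401457) (nat_lit 13) (.e (nat_lit 483413) (nat_lit 27) (.e (nat_lit 401420) (nat_lit 1) (.e (nat_lit 164422) (nat_lit 272) .nil)))))) (.g (nat_lit 6) .nil .nil)))))) (.nd (nat_lit 3) (.nd (nat_lit 4) (.nd (nat_lit 5) 
(.lf (nat_lit 30279) (.g (nat_lit 3507) (.e (nat_lit 1200) (nat_lit 88) (.e (nat_lit 65630) (nat_lit 14) (.e (nat_lit 401438) (nat_lit 9) (.e (nat_lit 426542) (nat_lit 29) (.e (nat_lit 352307) (nat_lit 21) (.e (nat_lit 57873) (nat_lit 264) .nil)))))) (.g (nat_lit 6) .nil .nil))) 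
(.lf (nat_lit 30311) (.g (nat_lit 2995) (.e (nat_lit 1200) (nat_lit 88) (.e (nat_lit 65630) (nat_lit 14) (.e (nat_lit 401457) (nat_lit 13) (.e (nat_lit 483346) (nat_lit 17) (.e (nat_lit 6479) (nat_lit 343) (.e (nat_lit 1181) (nat_lit 87) (.e (nat_lit 57872) (nat_lit 264) .nil))))))) (.g (nat_lit 4) .nil .nil)))) (.nd (nat_lit 5) 
(.lf (nat_lit 30295) (.g (nat_lit 3374) (.e (nat_lit 1200) (nat_lit 88) (.e (nat_lit 65630) (nat_lit 14) (.e (nat_lit 401438) (nat_lit 9) (.e (nat_lit 426555) (nat_lit 32) (.e (nat_lit 376859) (nat_lit 21) (.e (nat_lit 57872) (nat_lit 264) .nil)))))) (.g (nat_lit 5) .nil .nil))) 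
(.lf (nat_lit 30327) (.g (nat_lit 1108) (.e (nat_lit 1200) (nat_lit 88) (.e (nat_lit 65630) (nat_lit 14) (.e (nat_lit 401457) (nat_lit 13) (.e (nat_lit 491264) (nat_lit 23) .nil)))) .nil)))) (.nd (nat_lit 4) (.nd (nat_lit 5) 
(.lf (nat_lit 30287) (.g (nat_lit 2002) (.e (nat_lit 1200) (nat_lit 88) (.e (nat_lit 65630) (nat_lit 14) (.e (nat_lit 401438) (nat_lit 9) (.e (nat_lit 426544) (nat_lit 30) (.e (nat_lit 368384) (nat_lit 0) (.e (nat_lit 5906) (nat_lit 320) .nil)))))) (.g (nat_lit 4) .nil .nil))) 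
(.lf (nat_lit 30319) (.g (nat_lit 1819) (.e (nat_lit 1200) (nat_lit 88) (.e (nat_lit 65630) (nat_lit 14) (.e (nat_lit 401457) (nat_lit 13) (.e (nat_lit 483387) (nat_lit 23) .nil)))) .nil))) (.nd (nat_lit 5) 
(.lf (nat_lit 30303) (.g (nat_lit 1665) (.e (nat_lit 1200) (nat_lit 88) (.e (nat_lit 65630) (nat_lit 14) (.e (nat_lit 401456) (nat_lit 13) (.e (nat_lit 483387) (nat_lit 23) .nil)))) .nil)) 
(.lf (nat_lit 30335) (.g (nat_lit 3105) (.e (nat_lit 1200) (nat_lit 88) (.e (nat_lit 65630) (nat_lit 14) (.e (nat_lit 401457) (nat_lit 13) (.e (nat_lit 483413) (nat_lit 27) (.e (nat_lit 401421) (nat_lit 1) (.e (nat_lit 164422) (nat_lit 272) .nil)))))) (.g (nat_lit 4) .nil .nil)))))))))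

noncomputable def tv422 : DT := (.nd (nat_lit 0) (.nd (nat_lit 1) (.nd (nat_lit 2) (.nd (nat_lit 3) (.nd (nat_lit 4) (.nd (nat_lit 5) 
(.lf (nat_lit 30336) (.g (nat_lit 3395) (.e (nat_lit 1200) (nat_lit 88) (.e (nat_lit 65630) (nat_lit 14) (.e (nat_lit 401457) (nat_lit 13) (.e (nat_lit 483413) (nat_lit 27) (.e (nat_lit 401421) (nat_lit 1) (.e (nat_lit 164424) (nat_lit 272) .nil)))))) (.g (nat_lit 6) .nil .nil))) 
(.lf (nat_lit 30368) (.g (nat_lit 1859) (.e (nat_lit 1200) (nat_lit 88) (.e (nat_lit 65630) (nat_lit 14) (.e (nat_lit 401458) (nat_lit 13) (.e (nat_lit 483396) (nat_lit 24) (.e (nat_lit 344100) (nat_lit 18) (.e (nat_lit 5906) (nat_lit 320) .nil)))))) (.g (nat_lit 4) .nil .nil)))) (.nd (nat_lit 5) 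
(.lf (nat_lit 30352) (.g (nat_lit 1638) (.e (nat_lit 1200) (nat_lit 88) (.e (nat_lit 65630) (nat_lit 14) (.e (nat_lit 401458) (nat_lit 13) (.e (nat_lit 483393) (nat_lit 23) (.e (nat_lit 335986) (nat_lit 1) (.e (nat_lit 57870) (nat_lit 264) .nil)))))) (.g (nat_lit 4) .nil .nil))) 
(.lf (nat_lit 30384) (.g (nat_lit 2563) (.e (nat_lit 1200) (nat_lit 88) (.e (nat_lit 65630) (nat_lit 14) (.e (nat_lit 401459) (nat_lit 13) (.e (nat_lit 483344) (nat_lit 17) (.e (nat_lit 6440) (nat_lit 343) .nil))))) .nil)))) (.nd (nat_lit 4) (.nd (nat_lit 5) 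
(.lf (nat_lit 30344) (.g (nat_lit 2430) (.e (nat_lit 1200) (nat_lit 88) (.e (nat_lit 65630) (nat_lit 14) (.e (nat_lit 401458) (nat_lit 13) (.e (nat_lit 483383) (nat_lit 23) (.e (nat_lit 336000) (nat_lit 1) (.e (nat_lit 57871) (nat_lit 264) .nil)))))) (.g (nat_lit 5) .nil .nil))) 
(.lf (nat_lit 30376) (.g (nat_lit 1739) (.e (nat_lit 1200) (nat_lit 88) (.e (nat_lit 65630) (nat_lit 14) (.e (nat_lit 401459) (nat_lit 13) (.e (nat_lit 483344) (nat_lit 17) .nil)))) .nil))) (.nd (nat_lit 5) 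
(.lf (nat_lit 30360) (.g (nat_lit 2885) (.e (nat_lit 1200) (nat_lit 88) (.e (nat_lit 65630) (nat_lit 14) (.e (nat_lit 401458) (nat_lit 13) (.e (nat_lit 483394) (nat_lit 24) (.e (nat_lit 344097) (nat_lit 18) (.e (nat_lit 5905) (nat_lit 320) .nil)))))) (.g (nat_lit 5) .nil .nil))) 
(.lf (nat_lit 30392) (.g (nat_lit 2971) (.e (nat_lit 1200) (nat_lit 88) (.e (nat_lit 65630) (nat_lit 14) (.e (nat_lit 401459) (nat_lit 13) (.e (nat_lit 483344) (nat_lit 17) (.e (nat_lit 7936) (nat_lit 346) (.e (nat_lit 57354) (nat_lit 0) (.e (nat_lit 5905) (nat_lit 320) .nil))))))) (.g (nat_lit 4) .nil .nil)))))) (.nd (nat_lit 3) (.nd (nat_lit 4) (.nd (nat_lit 5) 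
(.lf (nat_lit 30340) (.g (nat_lit 2450) (.e (nat_lit 1200) (nat_lit 88) (.e (nat_lit 65630) (nat_lit 14) (.e (nat_lit 401458) (nat_lit 13) (.e (nat_lit 483378) (nat_lit 23) (.e (nat_lit 335997) (nat_lit 1) (.e (nat_lit 57871) (nat_lit 264) .nil)))))) (.g (nat_lit 6) .nil .nil))) 
(.lf (nat_lit 30372) (.g (nat_lit 2814) (.e (nat_lit 1200) (nat_lit 88) (.e (nat_lit 65630) (nat_lit 14) (.e (nat_lit 401459) (nat_lit 13) (.e (nat_lit 483342) (nat_lit 17) .nil)))) .nil))) (.nd (nat_lit 5) 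
(.lf (nat_lit 30356) (.g (nat_lit 2471) (.e (nat_lit 1200) (nat_lit 88) (.e (nat_lit 65630) (nat_lit 14) (.e (nat_lit 401458) (nat_lit 13) (.e (nat_lit 483393) (nat_lit 23) (.e (nat_lit 335995) (nat_lit 1) (.e (nat_lit 57870) (nat_lit 264) .nil)))))) (.g (nat_lit 5) .nil .nil))) 
(.lf (nat_lit 30388) (.g (nat_lit 3093) (.e (nat_lit 1200) (nat_lit 88) (.e (nat_lit 65630) (nat_lit 14) (.e (nat_lit 401459) (nat_lit 13) (.e (nat_lit 483344) (nat_lit 17) (.e (nat_lit 7936) (nat_lit 343) (.e (nat_lit 1183) (nat_lit 87) (.e (nat_lit 57872) (nat_lit 264) .nil))))))) (.g (nat_lit 4) .nil .nil))))) (.nd (nat_lit 4) (.nd (nat_lit 5) 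
(.lf (nat_lit 30348) (.g (nat_lit 2480) (.e (nat_lit 1200) (nat_lit 88) (.e (nat_lit 65630) (nat_lit 14) (.e (nat_lit 401458) (nat_lit 13) (.e (nat_lit 483387) (nat_lit 23) (.e (nat_lit 335997) (nat_lit 1) (.e (nat_lit 57872) (nat_lit 264) .nil)))))) (.g (nat_lit 6) .nil .nil))) 
(.lf (nat_lit 30380) (.g (nat_lit 2636) (.e (nat_lit 1200) (nat_lit 88) (.e (nat_lit 65630) (nat_lit 14) (.e (nat_lit 401459) (nat_lit 13) (.e (nat_lit 483344) (nat_lit 17) (.e (nat_lit 6155) (nat_lit 332) .nil))))) .nil))) (.nd (nat_lit 5) 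
(.lf (nat_lit 30364) (.g (nat_lit 2836) (.e (nat_lit 1200) (nat_lit 88) (.e (nat_lit 65630) (nat_lit 14) (.e (nat_lit 401458) (nat_lit 13) (.e (nat_lit 483395) (nat_lit 24) (.e (nat_lit 344097) (nat_lit 18) (.e (nat_lit 5906) (nat_lit 320) .nil)))))) (.g (nat_lit 6) .nil .nil))) 
(.lf (nat_lit 30396) (.g (nat_lit 2571) (.e (nat_lit 1200) (nat_lit 88) (.e (nat_lit 65630) (nat_lit 14) (.e (nat_lit 401459) (nat_lit 13) (.e (nat_lit 483344) (nat_lit 17) (.e (nat_lit 6696) (nat_lit 357) .nil))))) .nil)))))) (.nd (nat_lit 2) (.nd (nat_lit 3) (.nd (nat_lit 4) (.nd (nat_lit 5) 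
(.lf (nat_lit 30338) (.g (nat_lit 419) (.e (nat_lit 1200) (nat_lit 88) (.e (nat_lit 65630) (nat_lit 14) (.e (nat_lit 401458) (nat_lit 13) .nil))) .nil)) 
(.lf (nat_lit 30370) (.g (nat_lit 2737) (.e (nat_lit 1200) (nat_lit 88) (.e (nat_lit 65630) (nat_lit 14) (.e (nat_lit 401458) (nat_lit 13) (.e (nat_lit 483399) (nat_lit 25) (.e (nat_lit 368662) (nat_lit 18) (.e (nat_lit 5906) (nat_lit 320) .nil)))))) (.g (nat_lit 6) .nil .nil)))) (.nd (nat_lit 5) 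
(.lf (nat_lit 30354) (.g (nat_lit 2155) (.e (nat_lit 1200) (nat_lit 88) (.e (nat_lit 65630) (nat_lit 14) (.e (nat_lit 401458) (nat_lit 13) (.e (nat_lit 483393) (nat_lit 23) (.e (nat_lit 335987) (nat_lit 1) (.e (nat_lit 57870) (nat_lit 264) .nil)))))) (.g (nat_lit 5) .nil .nil))) 
(.lf (nat_lit 30386) (.g (nat_lit 3000) (.e (nat_lit 1200) (nat_lit 88) (.e (nat_lit 65630) (nat_lit 14) (.e (nat_lit 401459) (nat_lit 13) (.e (nat_lit 483344) (nat_lit 17) (.e (nat_lit 7936) (nat_lit 343) (.e (nat_lit 1181) (nat_lit 87) (.e (nat_lit 57872) (nat_lit 264) .nil))))))) (.g (nat_lit 4) .nil .nil))))) (.nd (nat_lit 4) (.nd (nat_lit 5) 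
(.lf (nat_lit 30346) (.g (nat_lit 2343) (.e (nat_lit 1200) (nat_lit 88) (.e (nat_lit 65630) (nat_lit 14) (.e (nat_lit 401458) (nat_lit 13) (.e (nat_lit 483387) (nat_lit 23) (.e (nat_lit 335997) (nat_lit 1) (.e (nat_lit 57870) (nat_lit 264) .nil)))))) (.g (nat_lit 5) .nil .nil))) 
(.lf (nat_lit 30378) (.g (nat_lit 2775) (.e (nat_lit 1200) (nat_lit 88) (.e (nat_lit 65630) (nat_lit 14) (.e (nat_lit 401459) (nat_lit 13) (.e (nat_lit 483344) (nat_lit 17) (.e (nat_lit 6152) (nat_lit 332) (.e (nat_lit 2546) (nat_lit 158) (.e (nat_lit 8439) (nat_lit 138) .nil))))))) (.g (nat_lit 4) .nil .nil)))) (.nd (nat_lit 5) 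
(.lf (nat_lit 30362) (.g (nat_lit 1755) (.e (nat_lit 1200) (nat_lit 88) (.e (nat_lit 65630) (nat_lit 14) (.e (nat_lit 401458) (nat_lit 13) (.e (nat_lit 483394) (nat_lit 24) (.e (nat_lit 344100) (nat_lit 18) (.e (nat_lit 5907) (nat_lit 320) .nil)))))) (.g (nat_lit 4) .nil .nil))) 
(.lf (nat_lit 30394) (.g (nat_lit 2833) (.e (nat_lit 1200) (nat_lit 88) (.e (nat_lit 65630) (nat_lit 14) (.e (nat_lit 401459) (nat_lit 13) (.e (nat_lit 483344) (nat_lit 17) (.e (nat_lit 6522) (nat_lit 349) (.e (nat_lit 122883) (nat_lit 0) (.e (nat_lit 5907) (nat_lit 320) .nil))))))) (.g (nat_lit 4) .nil .nil)))))) (.nd (nat_lit 3) (.nd (nat_lit 4) (.nd (nat_lit 5) 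
(.lf (nat_lit 30342) (.g (nat_lit 1915) (.e (nat_lit 1200) (nat_lit 88) (.e (nat_lit 65630) (nat_lit 14) (.e (nat_lit 401458) (nat_lit 13) (.e (nat_lit 483383) (nat_lit 23) (.e (nat_lit 335878) (nat_lit 0) (.e (nat_lit 1028) (nat_lit 81) (.e (nat_lit 5902) (nat_lit 320) .nil))))))) (.g (nat_lit 4) .nil .nil))) 
(.lf (nat_lit 30374) (.g (nat_lit 3023) (.e (nat_lit 1200) (nat_lit 88) (.e (nat_lit 65630) (nat_lit 14) (.e (nat_lit 401459) (nat_lit 13) (.e (nat_lit 483343) (nat_lit 17) (.e (nat_lit 6514) (nat_lit 346) (.e (nat_lit 57354) (nat_lit 0) (.e (nat_lit 5905) (nat_lit 320) .nil))))))) (.g (nat_lit 4) .nil .nil)))) (.nd (nat_lit 5) 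
(.lf (nat_lit 30358) (.g (nat_lit 3080) (.e (nat_lit 1200) (nat_lit 88) (.e (nat_lit 65630) (nat_lit 14) (.e (nat_lit 401458) (nat_lit 13) (.e (nat_lit 483393) (nat_lit 23) (.e (nat_lit 335996) (nat_lit 1) (.e (nat_lit 57870) (nat_lit 264) .nil)))))) (.g (nat_lit 6) .nil .nil))) 
(.lf (nat_lit 30390) (.g (nat_lit 3967) (.e (nat_lit 1200) (nat_lit 88) (.e (nat_lit 65630) (nat_lit 14) (.e (nat_lit 401459) (nat_lit 13) (.e (nat_lit 483344) (nat_lit 17) (.e (nat_lit 6514) (nat_lit 346) (.e (nat_lit 57354) (nat_lit 0) (.e (nat_lit 5907) (nat_lit 320) .nil))))))) (.g (nat_lit 6) .nil .nil))))) (.nd (nat_lit 4) (.nd (nat_lit 5) 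
(.lf (nat_lit 30350) (.g (nat_lit 1842) (.e (nat_lit 1200) (nat_lit 88) (.e (nat_lit 65630) (nat_lit 14) (.e (nat_lit 401458) (nat_lit 13) (.e (nat_lit 483392) (nat_lit 23) (.e (nat_lit 335995) (nat_lit 1) (.e (nat_lit 57872) (nat_lit 264) .nil)))))) (.g (nat_lit 4) .nil .nil))) 
(.lf (nat_lit 30382) (.g (nat_lit 3104) (.e (nat_lit 1200) (nat_lit 88) (.e (nat_lit 65630) (nat_lit 14) (.e (nat_lit 401459) (nat_lit 13) (.e (nat_lit 483344) (nat_lit 17) (.e (nat_lit 6434) (nat_lit 343) (.e (nat_lit 1183) (nat_lit 87) (.e (nat_lit 57872) (nat_lit 264) .nil))))))) (.g (nat_lit 4) .nil .nil)))) (.nd (nat_lit 5) 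
(.lf (nat_lit 30366) (.g (nat_lit 1861) (.e (nat_lit 1200) (nat_lit 88) (.e (nat_lit 65630) (nat_lit 14) (.e (nat_lit 401458) (nat_lit 13) (.e (nat_lit 483396) (nat_lit 24) (.e (nat_lit 344091) (nat_lit 18) .nil))))) .nil)) 
(.lf (nat_lit 30398) (.g (nat_lit 3482) (.e (nat_lit 1200) (nat_lit 88) (.e (nat_lit 65630) (nat_lit 14) (.e (nat_lit 401459) (nat_lit 13) (.e (nat_lit 483344) (nat_lit 17) (.e (nat_lit 6712) (nat_lit 360) (.e (nat_lit 163841) (nat_lit 0) (.e (nat_lit 4598) (nat_lit 269) .nil))))))) (.g (nat_lit 5) .nil .nil)))))))) 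
(.nd (nat_lit 1) (.nd (nat_lit 2) (.nd (nat_lit 3) (.nd (nat_lit 4) (.nd (nat_lit 5) 
(.lf (nat_lit 30337) (.g (nat_lit 2838) (.e (nat_lit 1200) (nat_lit 88) (.e (nat_lit 65630) (nat_lit 14) (.e (nat_lit 401457) (nat_lit 13) (.e (nat_lit 483413) (nat_lit 27) (.e (nat_lit 401463) (nat_lit 15) .nil))))) .nil)) 
(.lf (nat_lit 30369) (.g (nat_lit 1781) (.e (nat_lit 1200) (nat_lit 88) (.e (nat_lit 65630) (nat_lit 14) (.e (nat_lit 401458) (nat_lit 13) (.e (nat_lit 483399) (nat_lit 25) (.e (nat_lit 368662) (nat_lit 18) (.e (nat_lit 5905) (nat_lit 320) .nil)))))) (.g (nat_lit 4) .nil .nil)))) (.nd (nat_lit 5) 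
(.lf (nat_lit 30353) (.g (nat_lit 2350) (.e (nat_lit 1200) (nat_lit 88) (.e (nat_lit 65630) (nat_lit 14) (.e (nat_lit 401458) (nat_lit 13) (.e (nat_lit 483393) (nat_lit 23) (.e (nat_lit 335986) (nat_lit 1) (.e (nat_lit 57871) (nat_lit 264) .nil)))))) (.g (nat_lit 5) .nil .nil))) 
(.lf (nat_lit 30385) (.g (nat_lit 2964) (.e (nat_lit 1200) (nat_lit 88) (.e (nat_lit 65630) (nat_lit 14) (.e (nat_lit 401459) (nat_lit 13) (.e (nat_lit 483344) (nat_lit 17) (.e (nat_lit 6479) (nat_lit 343) .nil))))) .nil)))) (.nd (nat_lit 4) (.nd (nat_lit 5) 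
(.lf (nat_lit 30345) (.g (nat_lit 2680) (.e (nat_lit 1200) (nat_lit 88) (.e (nat_lit 65630) (nat_lit 14) (.e (nat_lit 401458) (nat_lit 13) (.e (nat_lit 483383) (nat_lit 23) (.e (nat_lit 336000) (nat_lit 1) (.e (nat_lit 57872) (nat_lit 264) .nil)))))) (.g (nat_lit 6) .nil .nil))) 
(.lf (nat_lit 30377) (.g (nat_lit 2866) (.e (nat_lit 1200) (nat_lit 88) (.e (nat_lit 65630) (nat_lit 14) (.e (nat_lit 401459) (nat_lit 13) (.e (nat_lit 483344) (nat_lit 17) (.e (nat_lit 6152) (nat_lit 332) (.e (nat_lit 2544) (nat_lit 158) (.e (nat_lit 8439) (nat_lit 138) .nil))))))) (.g (nat_lit 4) .nil .nil)))) (.nd (nat_lit 5) 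
(.lf (nat_lit 30361) (.g (nat_lit 2946) (.e (nat_lit 1200) (nat_lit 88) (.e (nat_lit 65630) (nat_lit 14) (.e (nat_lit 401458) (nat_lit 13) (.e (nat_lit 483394) (nat_lit 24) (.e (nat_lit 344097) (nat_lit 18) (.e (nat_lit 5906) (nat_lit 320) .nil)))))) (.g (nat_lit 6) .nil .nil))) 
(.lf (nat_lit 30393) (.g (nat_lit 2982) (.e (nat_lit 1200) (nat_lit 88) (.e (nat_lit 65630) (nat_lit 14) (.e (nat_lit 401459) (nat_lit 13) (.e (nat_lit 483344) (nat_lit 17) (.e (nat_lit 7936) (nat_lit 346) (.e (nat_lit 57354) (nat_lit 0) (.e (nat_lit 5906) (nat_lit 320) .nil))))))) (.g (nat_lit 4) .nil .nil)))))) (.nd (nat_lit 3) (.nd (nat_lit 4) (.nd (nat_lit 5) 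
(.lf (nat_lit 30341) (.g (nat_lit 2480) (.e (nat_lit 1200) (nat_lit 88) (.e (nat_lit 65630) (nat_lit 14) (.e (nat_lit 401458) (nat_lit 13) (.e (nat_lit 483378) (nat_lit 23) (.e (nat_lit 335997) (nat_lit 1) (.e (nat_lit 57872) (nat_lit 264) .nil)))))) (.g (nat_lit 6) .nil .nil))) 
(.lf (nat_lit 30373) (.g (nat_lit 2328) (.e (nat_lit 1200) (nat_lit 88) (.e (nat_lit 65630) (nat_lit 14) (.e (nat_lit 401459) (nat_lit 13) (.e (nat_lit 483343) (nat_lit 17) .nil)))) .nil))) (.nd (nat_lit 5) 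
(.lf (nat_lit 30357) (.g (nat_lit 3041) (.e (nat_lit 1200) (nat_lit 88) (.e (nat_lit 65630) (nat_lit 14) (.e (nat_lit 401458) (nat_lit 13) (.e (nat_lit 483393) (nat_lit 23) (.e (nat_lit 335995) (nat_lit 1) (.e (nat_lit 57872) (nat_lit 264) .nil)))))) (.g (nat_lit 6) .nil .nil))) 
(.lf (nat_lit 30389) (.g (nat_lit 4260) (.e (nat_lit 1200) (nat_lit 88) (.e (nat_lit 65630) (nat_lit 14) (.e (nat_lit 401459) (nat_lit 13) (.e (nat_lit 483344) (nat_lit 17) (.e (nat_lit 6514) (nat_lit 346) (.e (nat_lit 57354) (nat_lit 0) (.e (nat_lit 5905) (nat_lit 320) .nil))))))) (.g (nat_lit 6) .nil .nil))))) (.nd (nat_lit 4) (.nd (nat_lit 5) 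
(.lf (nat_lit 30349) (.g (nat_lit 1644) (.e (nat_lit 1200) (nat_lit 88) (.e (nat_lit 65630) (nat_lit 14) (.e (nat_lit 401458) (nat_lit 13) (.e (nat_lit 483389) (nat_lit 23) (.e (nat_lit 335997) (nat_lit 1) (.e (nat_lit 57872) (nat_lit 264) .nil)))))) (.g (nat_lit 4) .nil .nil))) 
(.lf (nat_lit 30381) (.g (nat_lit 2744) (.e (nat_lit 1200) (nat_lit 88) (.e (nat_lit 65630) (nat_lit 14) (.e (nat_lit 401459) (nat_lit 13) (.e (nat_lit 483344) (nat_lit 17) (.e (nat_lit 6434) (nat_lit 343) (.e (nat_lit 1183) (nat_lit 87) (.e (nat_lit 57871) (nat_lit 264) .nil))))))) (.g (nat_lit 4) .nil .nil)))) (.nd (nat_lit 5) 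
(.lf (nat_lit 30365) (.g (nat_lit 1178) (.e (nat_lit 1200) (nat_lit 88) (.e (nat_lit 65630) (nat_lit 14) (.e (nat_lit 401458) (nat_lit 13) (.e (nat_lit 483396) (nat_lit 24) .nil)))) .nil)) 
(.lf (nat_lit 30397) (.g (nat_lit 2970) (.e (nat_lit 1200) (nat_lit 88) (.e (nat_lit 65630) (nat_lit 14) (.e (nat_lit 401459) (nat_lit 13) (.e (nat_lit 483344) (nat_lit 17) (.e (nat_lit 6696) (nat_lit 357) (.e (nat_lit 2610) (nat_lit 163) (.e (nat_lit 164423) (nat_lit 272) .nil))))))) (.g (nat_lit 4) .nil .nil))))))) (.nd (nat_lit 2) (.nd (nat_lit 3) (.nd (nat_lit 4) (.nd (nat_lit 5) 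
(.lf (nat_lit 30339) (.g (nat_lit 2430) (.e (nat_lit 1200) (nat_lit 88) (.e (nat_lit 65630) (nat_lit 14) (.e (nat_lit 401458) (nat_lit 13) (.e (nat_lit 483378) (nat_lit 23) (.e (nat_lit 335997) (nat_lit 1) (.e (nat_lit 57870) (nat_lit 264) .nil)))))) (.g (nat_lit 6) .nil .nil))) 
(.lf (nat_lit 30371) (.g (nat_lit 259) (.e (nat_lit 1200) (nat_lit 88) (.e (nat_lit 65630) (nat_lit 14) (.e (nat_lit 401459) (nat_lit 13) .nil))) .nil))) (.nd (nat_lit 5) 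
(.lf (nat_lit 30355) (.g (nat_lit 2692) (.e (nat_lit 1200) (nat_lit 88) (.e (nat_lit 65630) (nat_lit 14) (.e (nat_lit 401458) (nat_lit 13) (.e (nat_lit 483393) (nat_lit 23) (.e (nat_lit 335988) (nat_lit 1) (.e (nat_lit 57870) (nat_lit 264) .nil)))))) (.g (nat_lit 5) .nil .nil))) 
(.lf (nat_lit 30387) (.g (nat_lit 3020) (.e (nat_lit 1200) (nat_lit 88) (.e (nat_lit 65630) (nat_lit 14) (.e (nat_lit 401459) (nat_lit 13) (.e (nat_lit 483344) (nat_lit 17) (.e (nat_lit 7936) (nat_lit 343) (.e (nat_lit 1183) (nat_lit 87) (.e (nat_lit 57871) (nat_lit 264) .nil))))))) (.g (nat_lit 4) .nil .nil))))) (.nd (nat_lit 4) (.nd (nat_lit 5) 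
(.lf (nat_lit 30347) (.g (nat_lit 2340) (.e (nat_lit 1200) (nat_lit 88) (.e (nat_lit 65630) (nat_lit 14) (.e (nat_lit 401458) (nat_lit 13) (.e (nat_lit 483387) (nat_lit 23) (.e (nat_lit 335997) (nat_lit 1) (.e (nat_lit 57871) (nat_lit 264) .nil)))))) (.g (nat_lit 5) .nil .nil))) 
(.lf (nat_lit 30379) (.g (nat_lit 2833) (.e (nat_lit 1200) (nat_lit 88) (.e (nat_lit 65630) (nat_lit 14) (.e (nat_lit 401459) (nat_lit 13) (.e (nat_lit 483344) (nat_lit 17) (.e (nat_lit 6154) (nat_lit 332) (.e (nat_lit 2544) (nat_lit 158) (.e (nat_lit 8439) (nat_lit 138) .nil))))))) (.g (nat_lit 4) .nil .nil)))) (.nd (nat_lit 5) 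
(.lf (nat_lit 30363) (.g (nat_lit 3058) (.e (nat_lit 1200) (nat_lit 88) (.e (nat_lit 65630) (nat_lit 14) (.e (nat_lit 401458) (nat_lit 13) (.e (nat_lit 483395) (nat_lit 24) (.e (nat_lit 344090) (nat_lit 18) (.e (nat_lit 5896) (nat_lit 320) .nil)))))) (.g (nat_lit 6) .nil .nil))) 
(.lf (nat_lit 30395) (.g (nat_lit 2344) (.e (nat_lit 1200) (nat_lit 88) (.e (nat_lit 65630) (nat_lit 14) (.e (nat_lit 401459) (nat_lit 13) (.e (nat_lit 483344) (nat_lit 17) (.e (nat_lit 6619) (nat_lit 357) (.e (nat_lit 2612) (nat_lit 163) (.e (nat_lit 164424) (nat_lit 272) .nil))))))) (.g (nat_lit 4) .nil .nil)))))) (.nd (nat_lit 3) (.nd (nat_lit 4) (.nd (nat_lit 5) 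
(.lf (nat_lit 30343) (.g (nat_lit 1827) (.e (nat_lit 1200) (nat_lit 88) (.e (nat_lit 65630) (nat_lit 14) (.e (nat_lit 401458) (nat_lit 13) (.e (nat_lit 483383) (nat_lit 23) (.e (nat_lit 336000) (nat_lit 1) (.e (nat_lit 57870) (nat_lit 264) .nil)))))) (.g (nat_lit 4) .nil .nil))) 
(.lf (nat_lit 30375) (.g (nat_lit 2991) (.e (nat_lit 1200) (nat_lit 88) (.e (nat_lit 65630) (nat_lit 14) (.e (nat_lit 401459) (nat_lit 13) (.e (nat_lit 483343) (nat_lit 17) (.e (nat_lit 6514) (nat_lit 346) (.e (nat_lit 57354) (nat_lit 0) (.e (nat_lit 5906) (nat_lit 320) .nil))))))) (.g (nat_lit 4) .nil .nil)))) (.nd (nat_lit 5) 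
(.lf (nat_lit 30359) (.g (nat_lit 2313) (.e (nat_lit 1200) (nat_lit 88) (.e (nat_lit 65630) (nat_lit 14) (.e (nat_lit 401458) (nat_lit 13) (.e (nat_lit 483394) (nat_lit 24) (.e (nat_lit 344090) (nat_lit 18) (.e (nat_lit 5896) (nat_lit 320) .nil)))))) (.g (nat_lit 5) .nil .nil))) 
(.lf (nat_lit 30391) (.g (nat_lit 2642) (.e (nat_lit 1200) (nat_lit 88) (.e (nat_lit 65630) (nat_lit 14) (.e (nat_lit 401459) (nat_lit 13) (.e (nat_lit 483344) (nat_lit 17) (.e (nat_lit 7936) (nat_lit 346) .nil))))) .nil)))) (.nd (nat_lit 4) (.nd (nat_lit 5) 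
(.lf (nat_lit 30351) (.g (nat_lit 1079) (.e (nat_lit 1200) (nat_lit 88) (.e (nat_lit 65630) (nat_lit 14) (.e (nat_lit 401458) (nat_lit 13) (.e (nat_lit 483393) (nat_lit 23) .nil)))) .nil)) 
(.lf (nat_lit 30383) (.g (nat_lit 2864) (.e (nat_lit 1200) (nat_lit 88) (.e (nat_lit 65630) (nat_lit 14) (.e (nat_lit 401459) (nat_lit 13) (.e (nat_lit 483344) (nat_lit 17) (.e (nat_lit 6436) (nat_lit 343) .nil))))) .nil))) (.nd (nat_lit 5) 
(.lf (nat_lit 30367) (.g (nat_lit 2016) (.e (nat_lit 1200) (nat_lit 88) (.e (nat_lit 65630) (nat_lit 14) (.e (nat_lit 401458) (nat_lit 13) (.e (nat_lit 483396) (nat_lit 24) (.e (nat_lit 344097) (nat_lit 18) (.e (nat_lit 5906) (nat_lit 320) .nil)))))) (.g (nat_lit 4) .nil .nil))) 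
(.lf (nat_lit 30399) (.g (nat_lit 5111) (.e (nat_lit 1200) (nat_lit 88) (.e (nat_lit 65630) (nat_lit 14) (.e (nat_lit 401459) (nat_lit 13) (.e (nat_lit 483344) (nat_lit 17) (.e (nat_lit 6712) (nat_lit 360) (.e (nat_lit 163843) (nat_lit 0) (.e (nat_lit 4598) (nat_lit 269) .nil))))))) (.g (nat_lit 0) .nil .nil)))))))))

noncomputable def tv423 : DT := (.nd (nat_lit 0) (.nd (nat_lit 1) (.nd (nat_lit 2) (.nd (nat_lit 3) (.nd (nat_lit 4) (.nd (nat_lit 5) 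
(.lf (nat_lit 30400) (.g (nat_lit 4917) (.e (nat_lit 1200) (nat_lit 88) (.e (nat_lit 65630) (nat_lit 14) (.e (nat_lit 401459) (nat_lit 13) (.e (nat_lit 483344) (nat_lit 17) (.e (nat_lit 6712) (nat_lit 360) (.e (nat_lit 163844) (nat_lit 0) (.e (nat_lit 4598) (nat_lit 269) .nil))))))) (.g (nat_lit 0) .nil .nil))) 
(.lf (nat_lit 30432) (.g (nat_lit 2799) (.e (nat_lit 1200) (nat_lit 88) (.e (nat_lit 65630) (nat_lit 14) (.e (nat_lit 401459) (nat_lit 13) (.e (nat_lit 483383) (nat_lit 23) .nil)))) .nil))) (.nd (nat_lit 5) 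
(.lf (nat_lit 30416) (.g (nat_lit 2579) (.e (nat_lit 1200) (nat_lit 88) (.e (nat_lit 65630) (nat_lit 14) (.e (nat_lit 401459) (nat_lit 13) (.e (nat_lit 483364) (nat_lit 18) .nil)))) .nil)) 
(.lf (nat_lit 30448) (.g (nat_lit 3069) (.e (nat_lit 1200) (nat_lit 88) (.e (nat_lit 65630) (nat_lit 14) (.e (nat_lit 401459) (nat_lit 13) (.e (nat_lit 483393) (nat_lit 23) (.e (nat_lit 335986) (nat_lit 1) (.e (nat_lit 57871) (nat_lit 264) .nil)))))) (.g (nat_lit 4) .nil .nil))))) (.nd (nat_lit 4) (.nd (nat_lit 5) 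
(.lf (nat_lit 30408) (.g (nat_lit 4347) (.e (nat_lit 1200) (nat_lit 88) (.e (nat_lit 65630) (nat_lit 14) (.e (nat_lit 401459) (nat_lit 13) (.e (nat_lit 483344) (nat_lit 17) (.e (nat_lit 6714) (nat_lit 360) (.e (nat_lit 163850) (nat_lit 0) (.e (nat_lit 4606) (nat_lit 269) .nil))))))) (.g (nat_lit 7) .nil .nil))) 
(.lf (nat_lit 30440) (.g (nat_lit 2994) (.e (nat_lit 1200) (nat_lit 88) (.e (nat_lit 65630) (nat_lit 14) (.e (nat_lit 401459) (nat_lit 13) (.e (nat_lit 483387) (nat_lit 23) (.e (nat_lit 335997) (nat_lit 1) (.e (nat_lit 57872) (nat_lit 264) .nil)))))) (.g (nat_lit 5) .nil .nil)))) (.nd (nat_lit 5) 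
(.lf (nat_lit 30424) (.g (nat_lit 2653) (.e (nat_lit 1200) (nat_lit 88) (.e (nat_lit 65630) (nat_lit 14) (.e (nat_lit 401459) (nat_lit 13) (.e (nat_lit 483378) (nat_lit 23) (.e (nat_lit 335997) (nat_lit 1) (.e (nat_lit 57871) (nat_lit 264) .nil)))))) (.g (nat_lit 4) .nil .nil))) 
(.lf (nat_lit 30456) (.g (nat_lit 3466) (.e (nat_lit 1200) (nat_lit 88) (.e (nat_lit 65630) (nat_lit 14) (.e (nat_lit 401459) (nat_lit 13) (.e (nat_lit 483394) (nat_lit 24) (.e (nat_lit 344097) (nat_lit 18) (.e (nat_lit 5907) (nat_lit 320) .nil)))))) (.g (nat_lit 5) .nil .nil)))))) (.nd (nat_lit 3) (.nd (nat_lit 4) (.nd (nat_lit 5) 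
(.lf (nat_lit 30404) (.g (nat_lit 3974) (.e (nat_lit 1200) (nat_lit 88) (.e (nat_lit 65630) (nat_lit 14) (.e (nat_lit 401459) (nat_lit 13) (.e (nat_lit 483344) (nat_lit 17) (.e (nat_lit 6712) (nat_lit 360) (.e (nat_lit 163850) (nat_lit 0) (.e (nat_lit 4607) (nat_lit 269) .nil))))))) (.g (nat_lit 5) .nil .nil))) 
(.lf (nat_lit 30436) (.g (nat_lit 2481) (.e (nat_lit 1200) (nat_lit 88) (.e (nat_lit 65630) (nat_lit 14) (.e (nat_lit 401459) (nat_lit 13) (.e (nat_lit 483386) (nat_lit 23) (.e (nat_lit 335985) (nat_lit 1) (.e (nat_lit 57873) (nat_lit 264) .nil)))))) (.g (nat_lit 4) .nil .nil)))) (.nd (nat_lit 5) 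
(.lf (nat_lit 30420) (.g (nat_lit 2672) (.e (nat_lit 1200) (nat_lit 88) (.e (nat_lit 65630) (nat_lit 14) (.e (nat_lit 401459) (nat_lit 13) (.e (nat_lit 483374) (nat_lit 22) .nil)))) .nil)) 
(.lf (nat_lit 30452) (.g (nat_lit 2177) (.e (nat_lit 1200) (nat_lit 88) (.e (nat_lit 65630) (nat_lit 14) (.e (nat_lit 401459) (nat_lit 13) (.e (nat_lit 491264) (nat_lit 23) .nil)))) .nil)))) (.nd (nat_lit 4) (.nd (nat_lit 5) 
(.lf (nat_lit 30412) (.g (nat_lit 3087) (.e (nat_lit 1200) (nat_lit 88) (.e (nat_lit 65630) (nat_lit 14) (.e (nat_lit 401459) (nat_lit 13) (.e (nat_lit 483350) (nat_lit 17) (.e (nat_lit 7936) (nat_lit 343) .nil))))) .nil)) 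
(.lf (nat_lit 30444) (.g (nat_lit 3166) (.e (nat_lit 1200) (nat_lit 88) (.e (nat_lit 65630) (nat_lit 14) (.e (nat_lit 401459) (nat_lit 13) (.e (nat_lit 483391) (nat_lit 23) (.e (nat_lit 335998) (nat_lit 1) (.e (nat_lit 57873) (nat_lit 264) .nil)))))) (.g (nat_lit 5) .nil .nil)))) (.nd (nat_lit 5) 
(.lf (nat_lit 30428) (.g (nat_lit 3783) (.e (nat_lit 1200) (nat_lit 88) (.e (nat_lit 65630) (nat_lit 14) (.e (nat_lit 401459) (nat_lit 13) (.e (nat_lit 483380) (nat_lit 23) (.e (nat_lit 335973) (nat_lit 0) .nil))))) .nil)) 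
(.lf (nat_lit 30460) (.g (nat_lit 2751) (.e (nat_lit 1200) (nat_lit 88) (.e (nat_lit 65630) (nat_lit 14) (.e (nat_lit 401459) (nat_lit 13) (.e (nat_lit 483395) (nat_lit 24) (.e (nat_lit 344097) (nat_lit 18) (.e (nat_lit 5905) (nat_lit 320) .nil)))))) (.g (nat_lit 4) .nil .nil))))))) (.nd (nat_lit 2) (.nd (nat_lit 3) (.nd (nat_lit 4) (.nd (nat_lit 5) 
(.lf (nat_lit 30402) (.g (nat_lit 3991) (.e (nat_lit 1200) (nat_lit 88) (.e (nat_lit 65630) (nat_lit 14) (.e (nat_lit 401459) (nat_lit 13) (.e (nat_lit 483344) (nat_lit 17) (.e (nat_lit 6712) (nat_lit 360) (.e (nat_lit 163850) (nat_lit 0) (.e (nat_lit 4605) (nat_lit 269) .nil))))))) (.g (nat_lit 5) .nil .nil))) 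
(.lf (nat_lit 30434) (.g (nat_lit 1831) (.e (nat_lit 1200) (nat_lit 88) (.e (nat_lit 65630) (nat_lit 14) (.e (nat_lit 401459) (nat_lit 13) (.e (nat_lit 483386) (nat_lit 23) .nil)))) .nil))) (.nd (nat_lit 5) 
(.lf (nat_lit 30418) (.g (nat_lit 3274) (.e (nat_lit 1200) (nat_lit 88) (.e (nat_lit 65630) (nat_lit 14) (.e (nat_lit 401459) (nat_lit 13) (.e (nat_lit 483372) (nat_lit 21) (.e (nat_lit 327424) (nat_lit 1) .nil))))) .nil)) 
(.lf (nat_lit 30450) (.g (nat_lit 3330) (.e (nat_lit 1200) (nat_lit 88) (.e (nat_lit 65630) (nat_lit 14) (.e (nat_lit 401459) (nat_lit 13) (.e (nat_lit 483393) (nat_lit 23) (.e (nat_lit 335988) (nat_lit 1) (.e (nat_lit 57870) (nat_lit 264) .nil)))))) (.g (nat_lit 4) .nil .nil))))) (.nd (nat_lit 4) (.nd (nat_lit 5) 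
(.lf (nat_lit 30410) (.g (nat_lit 2392) (.e (nat_lit 1200) (nat_lit 88) (.e (nat_lit 65630) (nat_lit 14) (.e (nat_lit 401459) (nat_lit 13) (.e (nat_lit 483347) (nat_lit 17) .nil)))) .nil)) 
(.lf (nat_lit 30442) (.g (nat_lit 2641) (.e (nat_lit 1200) (nat_lit 88) (.e (nat_lit 65630) (nat_lit 14) (.e (nat_lit 401459) (nat_lit 13) (.e (nat_lit 483389) (nat_lit 23) .nil)))) .nil))) (.nd (nat_lit 5) 
(.lf (nat_lit 30426) (.g (nat_lit 2210) (.e (nat_lit 1200) (nat_lit 88) (.e (nat_lit 65630) (nat_lit 14) (.e (nat_lit 401459) (nat_lit 13) (.e (nat_lit 483380) (nat_lit 23) .nil)))) .nil)) 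
(.lf (nat_lit 30458) (.g (nat_lit 1562) (.e (nat_lit 1200) (nat_lit 88) (.e (nat_lit 65630) (nat_lit 14) (.e (nat_lit 401459) (nat_lit 13) (.e (nat_lit 483395) (nat_lit 24) .nil)))) .nil))))) (.nd (nat_lit 3) (.nd (nat_lit 4) (.nd (nat_lit 5) 
(.lf (nat_lit 30406) (.g (nat_lit 5335) (.e (nat_lit 1200) (nat_lit 88) (.e (nat_lit 65630) (nat_lit 14) (.e (nat_lit 401459) (nat_lit 13) (.e (nat_lit 483344) (nat_lit 17) (.e (nat_lit 6714) (nat_lit 360) (.e (nat_lit 163843) (nat_lit 0) (.e (nat_lit 4598) (nat_lit 269) .nil))))))) (.g (nat_lit 0) .nil .nil))) 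
(.lf (nat_lit 30438) (.g (nat_lit 2853) (.e (nat_lit 1200) (nat_lit 88) (.e (nat_lit 65630) (nat_lit 14) (.e (nat_lit 401459) (nat_lit 13) (.e (nat_lit 483387) (nat_lit 23) (.e (nat_lit 335997) (nat_lit 1) (.e (nat_lit 57870) (nat_lit 264) .nil)))))) (.g (nat_lit 4) .nil .nil)))) (.nd (nat_lit 5) 
(.lf (nat_lit 30422) (.g (nat_lit 3018) (.e (nat_lit 1200) (nat_lit 88) (.e (nat_lit 65630) (nat_lit 14) (.e (nat_lit 401459) (nat_lit 13) (.e (nat_lit 483375) (nat_lit 22) (.e (nat_lit 327692) (nat_lit 1) .nil))))) .nil)) 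
(.lf (nat_lit 30454) (.g (nat_lit 1641) (.e (nat_lit 1200) (nat_lit 88) (.e (nat_lit 65630) (nat_lit 14) (.e (nat_lit 401459) (nat_lit 13) (.e (nat_lit 483394) (nat_lit 24) .nil)))) .nil)))) (.nd (nat_lit 4) (.nd (nat_lit 5) 
(.lf (nat_lit 30414) (.g (nat_lit 2526) (.e (nat_lit 1200) (nat_lit 88) (.e (nat_lit 65630) (nat_lit 14) (.e (nat_lit 401459) (nat_lit 13) (.e (nat_lit 483354) (nat_lit 17) .nil)))) .nil)) 
(.lf (nat_lit 30446) (.g (nat_lit 3532) (.e (nat_lit 1200) (nat_lit 88) (.e (nat_lit 65630) (nat_lit 14) (.e (nat_lit 401459) (nat_lit 13) (.e (nat_lit 483392) (nat_lit 23) (.e (nat_lit 335995) (nat_lit 1) (.e (nat_lit 57872) (nat_lit 264) .nil)))))) (.g (nat_lit 4) .nil .nil)))) (.nd (nat_lit 5) 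
(.lf (nat_lit 30430) (.g (nat_lit 2939) (.e (nat_lit 1200) (nat_lit 88) (.e (nat_lit 65630) (nat_lit 14) (.e (nat_lit 401459) (nat_lit 13) (.e (nat_lit 483380) (nat_lit 23) (.e (nat_lit 343808) (nat_lit 1) (.e (nat_lit 57872) (nat_lit 264) .nil)))))) (.g (nat_lit 4) .nil .nil))) 
(.lf (nat_lit 30462) (.g (nat_lit 2448) (.e (nat_lit 1200) (nat_lit 88) (.e (nat_lit 65630) (nat_lit 14) (.e (nat_lit 401459) (nat_lit 13) (.e (nat_lit 483396) (nat_lit 24) .nil)))) .nil))))))) (.nd (nat_lit 1) (.nd (nat_lit 2) (.nd (nat_lit 3) (.nd (nat_lit 4) (.nd (nat_lit 5) 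
(.lf (nat_lit 30401) (.g (nat_lit 4704) (.e (nat_lit 1200) (nat_lit 88) (.e (nat_lit 65630) (nat_lit 14) (.e (nat_lit 401459) (nat_lit 13) (.e (nat_lit 483344) (nat_lit 17) (.e (nat_lit 6712) (nat_lit 360) (.e (nat_lit 163849) (nat_lit 0) (.e (nat_lit 4598) (nat_lit 269) .nil))))))) (.g (nat_lit 0) .nil .nil))) 
(.lf (nat_lit 30433) (.g (nat_lit 3382) (.e (nat_lit 1200) (nat_lit 88) (.e (nat_lit 65630) (nat_lit 14) (.e (nat_lit 401459) (nat_lit 13) (.e (nat_lit 483383) (nat_lit 23) (.e (nat_lit 336000) (nat_lit 1) .nil))))) .nil))) (.nd (nat_lit 5) 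
(.lf (nat_lit 30417) (.g (nat_lit 3274) (.e (nat_lit 1200) (nat_lit 88) (.e (nat_lit 65630) (nat_lit 14) (.e (nat_lit 401459) (nat_lit 13) (.e (nat_lit 483372) (nat_lit 21) (.e (nat_lit 327424) (nat_lit 0) .nil))))) .nil)) 
(.lf (nat_lit 30449) (.g (nat_lit 3684) (.e (nat_lit 1200) (nat_lit 88) (.e (nat_lit 65630) (nat_lit 14) (.e (nat_lit 401459) (nat_lit 13) (.e (nat_lit 483393) (nat_lit 23) (.e (nat_lit 335986) (nat_lit 1) (.e (nat_lit 57873) (nat_lit 264) .nil)))))) (.g (nat_lit 5) .nil .nil))))) (.nd (nat_lit 4) (.nd (nat_lit 5) 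
(.lf (nat_lit 30409) (.g (nat_lit 4469) (.e (nat_lit 1200) (nat_lit 88) (.e (nat_lit 65630) (nat_lit 14) (.e (nat_lit 401459) (nat_lit 13) (.e (nat_lit 483344) (nat_lit 17) (.e (nat_lit 6714) (nat_lit 360) (.e (nat_lit 163850) (nat_lit 0) (.e (nat_lit 4607) (nat_lit 269) .nil))))))) (.g (nat_lit 0) .nil .nil))) 
(.lf (nat_lit 30441) (.g (nat_lit 2890) (.e (nat_lit 1200) (nat_lit 88) (.e (nat_lit 65630) (nat_lit 14) (.e (nat_lit 401459) (nat_lit 13) (.e (nat_lit 483388) (nat_lit 23) .nil)))) .nil))) (.nd (nat_lit 5) 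
(.lf (nat_lit 30425) (.g (nat_lit 2720) (.e (nat_lit 1200) (nat_lit 88) (.e (nat_lit 65630) (nat_lit 14) (.e (nat_lit 401459) (nat_lit 13) (.e (nat_lit 483378) (nat_lit 23) (.e (nat_lit 335997) (nat_lit 1) (.e (nat_lit 57872) (nat_lit 264) .nil)))))) (.g (nat_lit 5) .nil .nil))) 
(.lf (nat_lit 30457) (.g (nat_lit 2604) (.e (nat_lit 1200) (nat_lit 88) (.e (nat_lit 65630) (nat_lit 14) (.e (nat_lit 401459) (nat_lit 13) (.e (nat_lit 483394) (nat_lit 24) (.e (nat_lit 344100) (nat_lit 18) .nil))))) .nil))))) (.nd (nat_lit 3) (.nd (nat_lit 4) (.nd (nat_lit 5) 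
(.lf (nat_lit 30405) (.g (nat_lit 2784) (.e (nat_lit 1200) (nat_lit 88) (.e (nat_lit 65630) (nat_lit 14) (.e (nat_lit 401459) (nat_lit 13) (.e (nat_lit 483344) (nat_lit 17) (.e (nat_lit 6714) (nat_lit 360) (.e (nat_lit 163842) (nat_lit 0) (.e (nat_lit 4616) (nat_lit 269) .nil))))))) (.g (nat_lit 4) .nil .nil))) 
(.lf (nat_lit 30437) (.g (nat_lit 2353) (.e (nat_lit 1200) (nat_lit 88) (.e (nat_lit 65630) (nat_lit 14) (.e (nat_lit 401459) (nat_lit 13) (.e (nat_lit 483386) (nat_lit 23) (.e (nat_lit 335992) (nat_lit 1) .nil))))) .nil))) (.nd (nat_lit 5) 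
(.lf (nat_lit 30421) (.g (nat_lit 2215) (.e (nat_lit 1200) (nat_lit 88) (.e (nat_lit 65630) (nat_lit 14) (.e (nat_lit 401459) (nat_lit 13) (.e (nat_lit 483375) (nat_lit 22) .nil)))) .nil)) 
(.lf (nat_lit 30453) (.g (nat_lit 3148) (.e (nat_lit 1200) (nat_lit 88) (.e (nat_lit 65630) (nat_lit 14) (.e (nat_lit 401459) (nat_lit 13) (.e (nat_lit 491264) (nat_lit 23) (.e (nat_lit 335995) (nat_lit 1) (.e (nat_lit 57872) (nat_lit 264) .nil)))))) (.g (nat_lit 5) .nil .nil))))) (.nd (nat_lit 4) (.nd (nat_lit 5) 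
(.lf (nat_lit 30413) (.g (nat_lit 3087) (.e (nat_lit 1200) (nat_lit 88) (.e (nat_lit 65630) (nat_lit 14) (.e (nat_lit 401459) (nat_lit 13) (.e (nat_lit 483350) (nat_lit 17) (.e (nat_lit 7936) (nat_lit 346) .nil))))) .nil)) 
(.lf (nat_lit 30445) (.g (nat_lit 2915) (.e (nat_lit 1200) (nat_lit 88) (.e (nat_lit 65630) (nat_lit 14) (.e (nat_lit 401459) (nat_lit 13) (.e (nat_lit 483392) (nat_lit 23) .nil)))) .nil))) (.nd (nat_lit 5) 
(.lf (nat_lit 30429) (.g (nat_lit 2745) (.e (nat_lit 1200) (nat_lit 88) (.e (nat_lit 65630) (nat_lit 14) (.e (nat_lit 401459) (nat_lit 13) (.e (nat_lit 483380) (nat_lit 23) (.e (nat_lit 343808) (nat_lit 1) .nil))))) .nil)) 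
(.lf (nat_lit 30461) (.g (nat_lit 3197) (.e (nat_lit 1200) (nat_lit 88) (.e (nat_lit 65630) (nat_lit 14) (.e (nat_lit 401459) (nat_lit 13) (.e (nat_lit 483395) (nat_lit 24) (.e (nat_lit 344097) (nat_lit 18) (.e (nat_lit 5907) (nat_lit 320) .nil)))))) (.g (nat_lit 5) .nil .nil))))))) (.nd (nat_lit 2) (.nd (nat_lit 3) (.nd (nat_lit 4) (.nd (nat_lit 5) 
(.lf (nat_lit 30403) (.g (nat_lit 3874) (.e (nat_lit 1200) (nat_lit 88) (.e (nat_lit 65630) (nat_lit 14) (.e (nat_lit 401459) (nat_lit 13) (.e (nat_lit 483344) (nat_lit 17) (.e (nat_lit 6712) (nat_lit 360) (.e (nat_lit 163850) (nat_lit 0) (.e (nat_lit 4606) (nat_lit 269) .nil))))))) (.g (nat_lit 5) .nil .nil))) 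
(.lf (nat_lit 30435) (.g (nat_lit 2296) (.e (nat_lit 1200) (nat_lit 88) (.e (nat_lit 65630) (nat_lit 14) (.e (nat_lit 401459) (nat_lit 13) (.e (nat_lit 483386) (nat_lit 23) (.e (nat_lit 335985) (nat_lit 1) .nil))))) .nil))) (.nd (nat_lit 5) 
(.lf (nat_lit 30419) (.g (nat_lit 4583) (.e (nat_lit 1200) (nat_lit 88) (.e (nat_lit 65630) (nat_lit 14) (.e (nat_lit 401459) (nat_lit 13) (.e (nat_lit 483372) (nat_lit 21) (.e (nat_lit 319516) (nat_lit 11) .nil))))) .nil)) 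
(.lf (nat_lit 30451) (.g (nat_lit 3172) (.e (nat_lit 1200) (nat_lit 88) (.e (nat_lit 65630) (nat_lit 14) (.e (nat_lit 401459) (nat_lit 13) (.e (nat_lit 483393) (nat_lit 23) (.e (nat_lit 335995) (nat_lit 1) (.e (nat_lit 57870) (nat_lit 264) .nil)))))) (.g (nat_lit 4) .nil .nil))))) (.nd (nat_lit 4) (.nd (nat_lit 5) 
(.lf (nat_lit 30411) (.g (nat_lit 1964) (.e (nat_lit 1200) (nat_lit 88) (.e (nat_lit 65630) (nat_lit 14) (.e (nat_lit 401459) (nat_lit 13) (.e (nat_lit 483350) (nat_lit 17) .nil)))) .nil)) 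
(.lf (nat_lit 30443) (.g (nat_lit 2246) (.e (nat_lit 1200) (nat_lit 88) (.e (nat_lit 65630) (nat_lit 14) (.e (nat_lit 401459) (nat_lit 13) (.e (nat_lit 483391) (nat_lit 23) .nil)))) .nil))) (.nd (nat_lit 5) 
(.lf (nat_lit 30427) (.g (nat_lit 3765) (.e (nat_lit 1200) (nat_lit 88) (.e (nat_lit 65630) (nat_lit 14) (.e (nat_lit 401459) (nat_lit 13) (.e (nat_lit 483380) (nat_lit 23) (.e (nat_lit 335969) (nat_lit 0) .nil))))) .nil)) 
(.lf (nat_lit 30459) (.g (nat_lit 3353) (.e (nat_lit 1200) (nat_lit 88) (.e (nat_lit 65630) (nat_lit 14) (.e (nat_lit 401459) (nat_lit 13) (.e (nat_lit 483395) (nat_lit 24) (.e (nat_lit 344090) (nat_lit 18) (.e (nat_lit 5896) (nat_lit 320) .nil)))))) (.g (nat_lit 5) .nil .nil)))))) (.nd (nat_lit 3) (.nd (nat_lit 4) (.nd (nat_lit 5) 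
(.lf (nat_lit 30407) (.g (nat_lit 4417) (.e (nat_lit 1200) (nat_lit 88) (.e (nat_lit 65630) (nat_lit 14) (.e (nat_lit 401459) (nat_lit 13) (.e (nat_lit 483344) (nat_lit 17) (.e (nat_lit 6714) (nat_lit 360) (.e (nat_lit 163850) (nat_lit 0) (.e (nat_lit 4605) (nat_lit 269) .nil))))))) (.g (nat_lit 7) .nil .nil))) 
(.lf (nat_lit 30439) (.g (nat_lit 2824) (.e (nat_lit 1200) (nat_lit 88) (.e (nat_lit 65630) (nat_lit 14) (.e (nat_lit 401459) (nat_lit 13) (.e (nat_lit 483387) (nat_lit 23) (.e (nat_lit 335997) (nat_lit 1) (.e (nat_lit 57871) (nat_lit 264) .nil)))))) (.g (nat_lit 4) .nil .nil)))) (.nd (nat_lit 5) 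
(.lf (nat_lit 30423) (.g (nat_lit 2663) (.e (nat_lit 1200) (nat_lit 88) (.e (nat_lit 65630) (nat_lit 14) (.e (nat_lit 401459) (nat_lit 13) (.e (nat_lit 483378) (nat_lit 23) (.e (nat_lit 335997) (nat_lit 1) (.e (nat_lit 57870) (nat_lit 264) .nil)))))) (.g (nat_lit 5) .nil .nil))) 
(.lf (nat_lit 30455) (.g (nat_lit 2921) (.e (nat_lit 1200) (nat_lit 88) (.e (nat_lit 65630) (nat_lit 14) (.e (nat_lit 401459) (nat_lit 13) (.e (nat_lit 483394) (nat_lit 24) (.e (nat_lit 344090) (nat_lit 18) (.e (nat_lit 5896) (nat_lit 320) .nil)))))) (.g (nat_lit 4) .nil .nil))))) (.nd (nat_lit 4) (.nd (nat_lit 5) 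
(.lf (nat_lit 30415) (.g (nat_lit 2862) (.e (nat_lit 1200) (nat_lit 88) (.e (nat_lit 65630) (nat_lit 14) (.e (nat_lit 401459) (nat_lit 13) (.e (nat_lit 483354) (nat_lit 17) (.e (nat_lit 7936) (nat_lit 346) .nil))))) .nil)) 
(.lf (nat_lit 30447) (.g (nat_lit 2427) (.e (nat_lit 1200) (nat_lit 88) (.e (nat_lit 65630) (nat_lit 14) (.e (nat_lit 401459) (nat_lit 13) (.e (nat_lit 483393) (nat_lit 23) .nil)))) .nil))) (.nd (nat_lit 5) 
(.lf (nat_lit 30431) (.g (nat_lit 2453) (.e (nat_lit 1200) (nat_lit 88) (.e (nat_lit 65630) (nat_lit 14) (.e (nat_lit 401459) (nat_lit 13) (.e (nat_lit 483381) (nat_lit 23) .nil)))) .nil)) 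
(.lf (nat_lit 30463) (.g (nat_lit 3323) (.e (nat_lit 1200) (nat_lit 88) (.e (nat_lit 65630) (nat_lit 14) (.e (nat_lit 401459) (nat_lit 13) (.e (nat_lit 483396) (nat_lit 24) (.e (nat_lit 344100) (nat_lit 18) .nil))))) .nil))))))))

noncomputable def tv424 : DT := (.nd (nat_lit 0) (.nd (nat_lit 1) (.nd (nat_lit 2) (.nd (nat_lit 3) (.nd (nat_lit 4) (.nd (nat_lit 5) 
(.lf (nat_lit 30464) (.g (nat_lit 2920) (.e (nat_lit 1200) (nat_lit 88) (.e (nat_lit 65630) (nat_lit 14) (.e (nat_lit 401459) (nat_lit 13) (.e (nat_lit 483397) (nat_lit 25) .nil)))) .nil)) 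
(.lf (nat_lit 30496) (.g (nat_lit 3590) (.e (nat_lit 1200) (nat_lit 88) (.e (nat_lit 65630) (nat_lit 14) (.e (nat_lit 401459) (nat_lit 13) (.e (nat_lit 483411) (nat_lit 27) (.e (nat_lit 401417) (nat_lit 0) .nil))))) .nil))) (.nd (nat_lit 5) 
(.lf (nat_lit 30480) (.g (nat_lit 3780) (.e (nat_lit 1200) (nat_lit 88) (.e (nat_lit 65630) (nat_lit 14) (.e (nat_lit 401459) (nat_lit 13) (.e (nat_lit 483410) (nat_lit 27) (.e (nat_lit 401422) (nat_lit 1) (.e (nat_lit 164424) (nat_lit 272) .nil)))))) (.g (nat_lit 6) .nil .nil))) 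
(.lf (nat_lit 30512) (.g (nat_lit 3644) (.e (nat_lit 1201) (nat_lit 88) (.e (nat_lit 65546) (nat_lit 0) (.e (nat_lit 2281) (nat_lit 150) (.e (nat_lit 770073) (nat_lit 9) (.e (nat_lit 73753) (nat_lit 8) (.e (nat_lit 557103) (nat_lit 14) (.e (nat_lit 180229) (nat_lit 0) (.e (nat_lit 5820) (nat_lit 320) .nil)))))))) (.g (nat_lit 6) .nil .nil))))) (.nd (nat_lit 4) (.nd (nat_lit 5) 
(.lf (nat_lit 30472) (.g (nat_lit 1881) (.e (nat_lit 1200) (nat_lit 88) (.e (nat_lit 65630) (nat_lit 14) (.e (nat_lit 401459) (nat_lit 13) (.e (nat_lit 483410) (nat_lit 27) .nil)))) .nil)) 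
(.lf (nat_lit 30504) (.g (nat_lit 1775) (.e (nat_lit 1201) (nat_lit 88) (.e (nat_lit 65546) (nat_lit 0) (.e (nat_lit 1842) (nat_lit 123) (.e (nat_lit 548874) (nat_lit 5) (.e (nat_lit 1598) (nat_lit 111) (.e (nat_lit 360473) (nat_lit 8) (.e (nat_lit 557089) (nat_lit 12) (.e (nat_lit 163844) (nat_lit 0) (.e (nat_lit 5982) (nat_lit 326) .nil))))))))) (.g (nat_lit 4) .nil .nil)))) (.nd (nat_lit 5) 
(.lf (nat_lit 30488) (.g (nat_lit 3035) (.e (nat_lit 1200) (nat_lit 88) (.e (nat_lit 65630) (nat_lit 14) (.e (nat_lit 401459) (nat_lit 13) (.e (nat_lit 483411) (nat_lit 27) (.e (nat_lit 401414) (nat_lit 0) (.e (nat_lit 2442) (nat_lit 157) (.e (nat_lit 4598) (nat_lit 269) .nil))))))) (.g (nat_lit 4) .nil .nil))) 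
(.lf (nat_lit 30520) (.g (nat_lit 3073) (.e (nat_lit 1201) (nat_lit 88) (.e (nat_lit 65546) (nat_lit 0) (.e (nat_lit 2281) (nat_lit 150) (.e (nat_lit 770073) (nat_lit 9) (.e (nat_lit 73755) (nat_lit 8) (.e (nat_lit 557104) (nat_lit 14) (.e (nat_lit 180229) (nat_lit 0) (.e (nat_lit 5821) (nat_lit 320) .nil)))))))) (.g (nat_lit 5) .nil .nil)))))) (.nd (nat_lit 3) (.nd (nat_lit 4) (.nd (nat_lit 5) 
(.lf (nat_lit 30468) (.g (nat_lit 2396) (.e (nat_lit 1200) (nat_lit 88) (.e (nat_lit 65630) (nat_lit 14) (.e (nat_lit 401459) (nat_lit 13) (.e (nat_lit 483399) (nat_lit 25) (.e (nat_lit 368662) (nat_lit 18) .nil))))) .nil)) 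
(.lf (nat_lit 30500) (.g (nat_lit 2903) (.e (nat_lit 1200) (nat_lit 88) (.e (nat_lit 65630) (nat_lit 14) (.e (nat_lit 401459) (nat_lit 13) (.e (nat_lit 483411) (nat_lit 27) (.e (nat_lit 401421) (nat_lit 1) (.e (nat_lit 164422) (nat_lit 272) .nil)))))) (.g (nat_lit 4) .nil .nil)))) (.nd (nat_lit 5) 
(.lf (nat_lit 30484) (.g (nat_lit 2758) (.e (nat_lit 1200) (nat_lit 88) (.e (nat_lit 65630) (nat_lit 14) (.e (nat_lit 401459) (nat_lit 13) (.e (nat_lit 483411) (nat_lit 27) (.e (nat_lit 401414) (nat_lit 0) .nil))))) .nil)) 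
(.lf (nat_lit 30516) (.g (nat_lit 3906) (.e (nat_lit 1201) (nat_lit 88) (.e (nat_lit 65546) (nat_lit 0) (.e (nat_lit 2281) (nat_lit 150) (.e (nat_lit 770073) (nat_lit 9) (.e (nat_lit 73754) (nat_lit 8) (.e (nat_lit 557105) (nat_lit 14) (.e (nat_lit 180227) (nat_lit 0) (.e (nat_lit 5814) (nat_lit 320) .nil)))))))) (.g (nat_lit 7) .nil .nil))))) (.nd (nat_lit 4) (.nd (nat_lit 5) 
(.lf (nat_lit 30476) (.g (nat_lit 3037) (.e (nat_lit 1200) (nat_lit 88) (.e (nat_lit 65630) (nat_lit 14) (.e (nat_lit 401459) (nat_lit 13) (.e (nat_lit 483410) (nat_lit 27) (.e (nat_lit 401420) (nat_lit 1) .nil))))) .nil)) 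
(.lf (nat_lit 30508) (.g (nat_lit 2116) (.e (nat_lit 1201) (nat_lit 88) (.e (nat_lit 65546) (nat_lit 0) (.e (nat_lit 1842) (nat_lit 123) (.e (nat_lit 548889) (nat_lit 9) (.e (nat_lit 65617) (nat_lit 10) (.e (nat_lit 344133) (nat_lit 26) (.e (nat_lit 557091) (nat_lit 12) (.e (nat_lit 163844) (nat_lit 0) (.e (nat_lit 5982) (nat_lit 326) .nil))))))))) (.g (nat_lit 4) .nil .nil)))) (.nd (nat_lit 5) 
(.lf (nat_lit 30492) (.g (nat_lit 3817) (.e (nat_lit 1200) (nat_lit 88) (.e (nat_lit 65630) (nat_lit 14) (.e (nat_lit 401459) (nat_lit 13) (.e (nat_lit 483411) (nat_lit 27) (.e (nat_lit 401414) (nat_lit 0) (.e (nat_lit 2458) (nat_lit 157) (.e (nat_lit 4607) (nat_lit 269) .nil))))))) (.g (nat_lit 5) .nil .nil))) 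
(.lf (nat_lit 30524) (.g (nat_lit 2000) (.e (nat_lit 1201) (nat_lit 88) (.e (nat_lit 65550) (nat_lit 0) (.e (nat_lit 1788) (nat_lit 119) (.e (nat_lit 516151) (nat_lit 9) (.e (nat_lit 426286) (nat_lit 10) (.e (nat_lit 434245) (nat_lit 28) (.e (nat_lit 573474) (nat_lit 12) (.e (nat_lit 57347) (nat_lit 0) (.e (nat_lit 7124) (nat_lit 382) .nil))))))))) (.g (nat_lit 4) .nil .nil))))))) 
(.nd (nat_lit 2) (.nd (nat_lit 3) (.nd (nat_lit 4) (.nd (nat_lit 5) 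
(.lf (nat_lit 30466) (.g (nat_lit 2959) (.e (nat_lit 1200) (nat_lit 88) (.e (nat_lit 65630) (nat_lit 14) (.e (nat_lit 401459) (nat_lit 13) (.e (nat_lit 483398) (nat_lit 25) (.e (nat_lit 368662) (nat_lit 18) (.e (nat_lit 5907) (nat_lit 320) .nil)))))) (.g (nat_lit 5) .nil .nil))) 
(.lf (nat_lit 30498) (.g (nat_lit 3206) (.e (nat_lit 1200) (nat_lit 88) (.e (nat_lit 65630) (nat_lit 14) (.e (nat_lit 401459) (nat_lit 13) (.e (nat_lit 483411) (nat_lit 27) (.e (nat_lit 401420) (nat_lit 1) (.e (nat_lit 164422) (nat_lit 272) .nil)))))) (.g (nat_lit 4) .nil .nil)))) (.nd (nat_lit 5) 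
(.lf (nat_lit 30482) (.g (nat_lit 2699) (.e (nat_lit 1200) (nat_lit 88) (.e (nat_lit 65630) (nat_lit 14) (.e (nat_lit 401459) (nat_lit 13) (.e (nat_lit 483411) (nat_lit 27) (.e (nat_lit 401408) (nat_lit 0) .nil))))) .nil)) 
(.lf (nat_lit 30514) (.g (nat_lit 2409) (.e (nat_lit 1201) (nat_lit 88) (.e (nat_lit 65546) (nat_lit 0) (.e (nat_lit 2281) (nat_lit 150) (.e (nat_lit 770073) (nat_lit 9) (.e (nat_lit 73753) (nat_lit 8) (.e (nat_lit 557104) (nat_lit 14) (.e (nat_lit 180233) (nat_lit 0) (.e (nat_lit 5817) (nat_lit 320) .nil)))))))) (.g (nat_lit 4) .nil .nil))))) (.nd (nat_lit 4) (.nd (nat_lit 5) 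
(.lf (nat_lit 30474) (.g (nat_lit 3038) (.e (nat_lit 1200) (nat_lit 88) (.e (nat_lit 65630) (nat_lit 14) (.e (nat_lit 401459) (nat_lit 13) (.e (nat_lit 483410) (nat_lit 27) (.e (nat_lit 401416) (nat_lit 0) .nil))))) .nil)) 
(.lf (nat_lit 30506) (.g (nat_lit 2505) (.e (nat_lit 1201) (nat_lit 88) (.e (nat_lit 65546) (nat_lit 0) (.e (nat_lit 1842) (nat_lit 123) (.e (nat_lit 548889) (nat_lit 9) (.e (nat_lit 65617) (nat_lit 10) (.e (nat_lit 344130) (nat_lit 26) (.e (nat_lit 557090) (nat_lit 12) (.e (nat_lit 163844) (nat_lit 0) (.e (nat_lit 5982) (nat_lit 326) .nil))))))))) (.g (nat_lit 4) .nil .nil)))) (.nd (nat_lit 5) 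
(.lf (nat_lit 30490) (.g (nat_lit 3833) (.e (nat_lit 1200) (nat_lit 88) (.e (nat_lit 65630) (nat_lit 14) (.e (nat_lit 401459) (nat_lit 13) (.e (nat_lit 483411) (nat_lit 27) (.e (nat_lit 401414) (nat_lit 0) (.e (nat_lit 2458) (nat_lit 157) (.e (nat_lit 4605) (nat_lit 269) .nil))))))) (.g (nat_lit 5) .nil .nil))) 
(.lf (nat_lit 30522) (.g (nat_lit 2861) (.e (nat_lit 1201) (nat_lit 88) (.e (nat_lit 65546) (nat_lit 0) (.e (nat_lit 2281) (nat_lit 150) (.e (nat_lit 770073) (nat_lit 9) (.e (nat_lit 73755) (nat_lit 8) (.e (nat_lit 557104) (nat_lit 14) (.e (nat_lit 180233) (nat_lit 0) (.e (nat_lit 5818) (nat_lit 320) .nil)))))))) (.g (nat_lit 5) .nil .nil)))))) (.nd (nat_lit 3) (.nd (nat_lit 4) (.nd (nat_lit 5) 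
(.lf (nat_lit 30470) (.g (nat_lit 2417) (.e (nat_lit 1200) (nat_lit 88) (.e (nat_lit 65630) (nat_lit 14) (.e (nat_lit 401459) (nat_lit 13) (.e (nat_lit 483400) (nat_lit 25) .nil)))) .nil)) 
(.lf (nat_lit 30502) (.g (nat_lit 2819) (.e (nat_lit 1200) (nat_lit 88) (.e (nat_lit 65630) (nat_lit 14) (.e (nat_lit 401459) (nat_lit 13) (.e (nat_lit 483411) (nat_lit 27) (.e (nat_lit 401422) (nat_lit 1) .nil))))) .nil))) (.nd (nat_lit 5) 
(.lf (nat_lit 30486) (.g (nat_lit 3673) (.e (nat_lit 1200) (nat_lit 88) (.e (nat_lit 65630) (nat_lit 14) (.e (nat_lit 401459) (nat_lit 13) (.e (nat_lit 483411) (nat_lit 27) (.e (nat_lit 401414) (nat_lit 0) (.e (nat_lit 2425) (nat_lit 157) (.e (nat_lit 4616) (nat_lit 269) .nil))))))) (.g (nat_lit 5) .nil .nil))) 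
(.lf (nat_lit 30518) (.g (nat_lit 3094) (.e (nat_lit 1201) (nat_lit 88) (.e (nat_lit 65546) (nat_lit 0) (.e (nat_lit 2281) (nat_lit 150) (.e (nat_lit 770073) (nat_lit 9) (.e (nat_lit 73755) (nat_lit 8) (.e (nat_lit 557104) (nat_lit 14) (.e (nat_lit 180229) (nat_lit 0) (.e (nat_lit 5819) (nat_lit 320) .nil)))))))) (.g (nat_lit 5) .nil .nil))))) (.nd (nat_lit 4) (.nd (nat_lit 5) 
(.lf (nat_lit 30478) (.g (nat_lit 3881) (.e (nat_lit 1200) (nat_lit 88) (.e (nat_lit 65630) (nat_lit 14) (.e (nat_lit 401459) (nat_lit 13) (.e (nat_lit 483410) (nat_lit 27) (.e (nat_lit 401422) (nat_lit 1) (.e (nat_lit 164422) (nat_lit 272) .nil)))))) (.g (nat_lit 6) .nil .nil))) 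
(.lf (nat_lit 30510) (.g (nat_lit 2348) (.e (nat_lit 1201) (nat_lit 88) (.e (nat_lit 65546) (nat_lit 0) (.e (nat_lit 2281) (nat_lit 150) (.e (nat_lit 770058) (nat_lit 5) (.e (nat_lit 1548) (nat_lit 109) (.e (nat_lit 344130) (nat_lit 26) (.e (nat_lit 557104) (nat_lit 14) (.e (nat_lit 180233) (nat_lit 0) (.e (nat_lit 5817) (nat_lit 320) .nil))))))))) (.g (nat_lit 4) .nil .nil)))) (.nd (nat_lit 5) 
(.lf (nat_lit 30494) (.g (nat_lit 3709) (.e (nat_lit 1200) (nat_lit 88) (.e (nat_lit 65630) (nat_lit 14) (.e (nat_lit 401459) (nat_lit 13) (.e (nat_lit 483411) (nat_lit 27) (.e (nat_lit 401414) (nat_lit 0) (.e (nat_lit 2478) (nat_lit 157) (.e (nat_lit 4607) (nat_lit 269) .nil))))))) (.g (nat_lit 5) .nil .nil))) 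
(.lf (nat_lit 30526) (.g (nat_lit 4115) (.e (nat_lit 1201) (nat_lit 88) (.e (nat_lit 65550) (nat_lit 0) (.e (nat_lit 1788) (nat_lit 119) (.e (nat_lit 516166) (nat_lit 12) (.e (nat_lit 450588) (nat_lit 10) (.e (nat_lit 573473) (nat_lit 12) (.e (nat_lit 57348) (nat_lit 0) (.e (nat_lit 7124) (nat_lit 382) .nil)))))))) (.g (nat_lit 5) .nil .nil)))))))) 
(.nd (nat_lit 1) (.nd (nat_lit 2) (.nd (nat_lit 3) (.nd (nat_lit 4) (.nd (nat_lit 5) 
(.lf (nat_lit 30465) (.g (nat_lit 1990) (.e (nat_lit 1200) (nat_lit 88) (.e (nat_lit 65630) (nat_lit 14) (.e (nat_lit 401459) (nat_lit 13) (.e (nat_lit 483398) (nat_lit 25) .nil)))) .nil)) 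
(.lf (nat_lit 30497) (.g (nat_lit 3159) (.e (nat_lit 1200) (nat_lit 88) (.e (nat_lit 65630) (nat_lit 14) (.e (nat_lit 401459) (nat_lit 13) (.e (nat_lit 483411) (nat_lit 27) (.e (nat_lit 401418) (nat_lit 0) .nil))))) .nil))) (.nd (nat_lit 5) 
(.lf (nat_lit 30481) (.g (nat_lit 1832) (.e (nat_lit 1200) (nat_lit 88) (.e (nat_lit 65630) (nat_lit 14) (.e (nat_lit 401459) (nat_lit 13) (.e (nat_lit 483411) (nat_lit 27) .nil)))) .nil)) 
(.lf (nat_lit 30513) (.g (nat_lit 2208) (.e (nat_lit 1201) (nat_lit 88) (.e (nat_lit 65546) (nat_lit 0) (.e (nat_lit 2281) (nat_lit 150) (.e (nat_lit 770073) (nat_lit 9) (.e (nat_lit 73753) (nat_lit 8) (.e (nat_lit 557104) (nat_lit 14) (.e (nat_lit 180233) (nat_lit 0) (.e (nat_lit 5815) (nat_lit 320) .nil)))))))) (.g (nat_lit 4) .nil .nil))))) (.nd (nat_lit 4) (.nd (nat_lit 5) 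
(.lf (nat_lit 30473) (.g (nat_lit 2682) (.e (nat_lit 1200) (nat_lit 88) (.e (nat_lit 65630) (nat_lit 14) (.e (nat_lit 401459) (nat_lit 13) (.e (nat_lit 483410) (nat_lit 27) (.e (nat_lit 401414) (nat_lit 0) .nil))))) .nil)) 
(.lf (nat_lit 30505) (.g (nat_lit 2320) (.e (nat_lit 1201) (nat_lit 88) (.e (nat_lit 65546) (nat_lit 0) (.e (nat_lit 1842) (nat_lit 123) (.e (nat_lit 548889) (nat_lit 9) (.e (nat_lit 65617) (nat_lit 10) (.e (nat_lit 344130) (nat_lit 26) (.e (nat_lit 557090) (nat_lit 12) (.e (nat_lit 163843) (nat_lit 0) (.e (nat_lit 5982) (nat_lit 326) .nil))))))))) (.g (nat_lit 4) .nil .nil)))) (.nd (nat_lit 5) 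
(.lf (nat_lit 30489) (.g (nat_lit 2846) (.e (nat_lit 1200) (nat_lit 88) (.e (nat_lit 65630) (nat_lit 14) (.e (nat_lit 401459) (nat_lit 13) (.e (nat_lit 483411) (nat_lit 27) (.e (nat_lit 401414) (nat_lit 0) (.e (nat_lit 2446) (nat_lit 157) (.e (nat_lit 4598) (nat_lit 269) .nil))))))) (.g (nat_lit 4) .nil .nil))) 
(.lf (nat_lit 30521) (.g (nat_lit 3024) (.e (nat_lit 1201) (nat_lit 88) (.e (nat_lit 65546) (nat_lit 0) (.e (nat_lit 2281) (nat_lit 150) (.e (nat_lit 770073) (nat_lit 9) (.e (nat_lit 73755) (nat_lit 8) (.e (nat_lit 557104) (nat_lit 14) (.e (nat_lit 180233) (nat_lit 0) (.e (nat_lit 5816) (nat_lit 320) .nil)))))))) (.g (nat_lit 5) .nil .nil)))))) (.nd (nat_lit 3) (.nd (nat_lit 4) (.nd (nat_lit 5) 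
(.lf (nat_lit 30469) (.g (nat_lit 3006) (.e (nat_lit 1200) (nat_lit 88) (.e (nat_lit 65630) (nat_lit 14) (.e (nat_lit 401459) (nat_lit 13) (.e (nat_lit 483399) (nat_lit 25) (.e (nat_lit 368662) (nat_lit 18) (.e (nat_lit 5907) (nat_lit 320) .nil)))))) (.g (nat_lit 5) .nil .nil))) 
(.lf (nat_lit 30501) (.g (nat_lit 3026) (.e (nat_lit 1200) (nat_lit 88) (.e (nat_lit 65630) (nat_lit 14) (.e (nat_lit 401459) (nat_lit 13) (.e (nat_lit 483411) (nat_lit 27) (.e (nat_lit 401421) (nat_lit 1) (.e (nat_lit 164424) (nat_lit 272) .nil)))))) (.g (nat_lit 4) .nil .nil)))) (.nd (nat_lit 5) 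
(.lf (nat_lit 30485) (.g (nat_lit 3659) (.e (nat_lit 1200) (nat_lit 88) (.e (nat_lit 65630) (nat_lit 14) (.e (nat_lit 401459) (nat_lit 13) (.e (nat_lit 483411) (nat_lit 27) (.e (nat_lit 401414) (nat_lit 0) (.e (nat_lit 2424) (nat_lit 157) (.e (nat_lit 4616) (nat_lit 269) .nil))))))) (.g (nat_lit 5) .nil .nil))) 
(.lf (nat_lit 30517) (.g (nat_lit 4054) (.e (nat_lit 1201) (nat_lit 88) (.e (nat_lit 65546) (nat_lit 0) (.e (nat_lit 2281) (nat_lit 150) (.e (nat_lit 770073) (nat_lit 9) (.e (nat_lit 73755) (nat_lit 8) (.e (nat_lit 557104) (nat_lit 14) (.e (nat_lit 180229) (nat_lit 0) (.e (nat_lit 5815) (nat_lit 320) .nil)))))))) (.g (nat_lit 6) .nil .nil))))) (.nd (nat_lit 4) (.nd (nat_lit 5) 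
(.lf (nat_lit 30477) (.g (nat_lit 2936) (.e (nat_lit 1200) (nat_lit 88) (.e (nat_lit 65630) (nat_lit 14) (.e (nat_lit 401459) (nat_lit 13) (.e (nat_lit 483410) (nat_lit 27) (.e (nat_lit 401422) (nat_lit 1) (.e (nat_lit 164421) (nat_lit 272) .nil)))))) (.g (nat_lit 4) .nil .nil))) 
(.lf (nat_lit 30509) (.g (nat_lit 2147) (.e (nat_lit 1201) (nat_lit 88) (.e (nat_lit 65546) (nat_lit 0) (.e (nat_lit 2281) (nat_lit 150) (.e (nat_lit 770058) (nat_lit 5) (.e (nat_lit 1548) (nat_lit 109) (.e (nat_lit 344130) (nat_lit 26) (.e (nat_lit 557104) (nat_lit 14) (.e (nat_lit 180233) (nat_lit 0) (.e (nat_lit 5815) (nat_lit 320) .nil))))))))) (.g (nat_lit 4) .nil .nil)))) (.nd (nat_lit 5) 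
(.lf (nat_lit 30493) (.g (nat_lit 2873) (.e (nat_lit 1200) (nat_lit 88) (.e (nat_lit 65630) (nat_lit 14) (.e (nat_lit 401459) (nat_lit 13) (.e (nat_lit 483411) (nat_lit 27) (.e (nat_lit 401414) (nat_lit 0) (.e (nat_lit 2478) (nat_lit 157) (.e (nat_lit 4605) (nat_lit 269) .nil))))))) (.g (nat_lit 4) .nil .nil))) 
(.lf (nat_lit 30525) (.g (nat_lit 2028) (.e (nat_lit 1201) (nat_lit 88) (.e (nat_lit 65550) (nat_lit 0) (.e (nat_lit 1788) (nat_lit 119) (.e (nat_lit 516151) (nat_lit 9) (.e (nat_lit 426286) (nat_lit 10) (.e (nat_lit 434248) (nat_lit 28) (.e (nat_lit 573475) (nat_lit 12) (.e (nat_lit 57347) (nat_lit 0) (.e (nat_lit 7124) (nat_lit 382) .nil))))))))) (.g (nat_lit 4) .nil .nil))))))) 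
(.nd (nat_lit 2) (.nd (nat_lit 3) (.nd (nat_lit 4) (.nd (nat_lit 5) 
(.lf (nat_lit 30467) (.g (nat_lit 2081) (.e (nat_lit 1200) (nat_lit 88) (.e (nat_lit 65630) (nat_lit 14) (.e (nat_lit 401459) (nat_lit 13) (.e (nat_lit 483399) (nat_lit 25) .nil)))) .nil)) 
(.lf (nat_lit 30499) (.g (nat_lit 3038) (.e (nat_lit 1200) (nat_lit 88) (.e (nat_lit 65630) (nat_lit 14) (.e (nat_lit 401459) (nat_lit 13) (.e (nat_lit 483411) (nat_lit 27) (.e (nat_lit 401420) (nat_lit 1) (.e (nat_lit 164424) (nat_lit 272) .nil)))))) (.g (nat_lit 4) .nil .nil)))) (.nd (nat_lit 5) 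
(.lf (nat_lit 30483) (.g (nat_lit 3137) (.e (nat_lit 1200) (nat_lit 88) (.e (nat_lit 65630) (nat_lit 14) (.e (nat_lit 401459) (nat_lit 13) (.e (nat_lit 483411) (nat_lit 27) (.e (nat_lit 401408) (nat_lit 0) (.e (nat_lit 2427) (nat_lit 157) (.e (nat_lit 4598) (nat_lit 269) .nil))))))) (.g (nat_lit 4) .nil .nil))) 
(.lf (nat_lit 30515) (.g (nat_lit 3210) (.e (nat_lit 1201) (nat_lit 88) (.e (nat_lit 65546) (nat_lit 0) (.e (nat_lit 2281) (nat_lit 150) (.e (nat_lit 770073) (nat_lit 9) (.e (nat_lit 73754) (nat_lit 8) (.e (nat_lit 557101) (nat_lit 13) (.e (nat_lit 172070) (nat_lit 4) (.e (nat_lit 229699) (nat_lit 254) .nil)))))))) (.g (nat_lit 6) .nil .nil))))) (.nd (nat_lit 4) (.nd (nat_lit 5) 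
(.lf (nat_lit 30475) (.g (nat_lit 3020) (.e (nat_lit 1200) (nat_lit 88) (.e (nat_lit 65630) (nat_lit 14) (.e (nat_lit 401459) (nat_lit 13) (.e (nat_lit 483410) (nat_lit 27) (.e (nat_lit 401418) (nat_lit 0) .nil))))) .nil)) 
(.lf (nat_lit 30507) (.g (nat_lit 2311) (.e (nat_lit 1201) (nat_lit 88) (.e (nat_lit 65546) (nat_lit 0) (.e (nat_lit 1842) (nat_lit 123) (.e (nat_lit 548889) (nat_lit 9) (.e (nat_lit 65617) (nat_lit 10) (.e (nat_lit 344133) (nat_lit 26) (.e (nat_lit 557091) (nat_lit 12) (.e (nat_lit 163843) (nat_lit 0) (.e (nat_lit 5982) (nat_lit 326) .nil))))))))) (.g (nat_lit 4) .nil .nil)))) (.nd (nat_lit 5) 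
(.lf (nat_lit 30491) (.g (nat_lit 3627) (.e (nat_lit 1200) (nat_lit 88) (.e (nat_lit 65630) (nat_lit 14) (.e (nat_lit 401459) (nat_lit 13) (.e (nat_lit 483411) (nat_lit 27) (.e (nat_lit 401414) (nat_lit 0) (.e (nat_lit 2458) (nat_lit 157) (.e (nat_lit 4606) (nat_lit 269) .nil))))))) (.g (nat_lit 5) .nil .nil))) 
(.lf (nat_lit 30523) (.g (nat_lit 3406) (.e (nat_lit 1201) (nat_lit 88) (.e (nat_lit 65546) (nat_lit 0) (.e (nat_lit 2281) (nat_lit 150) (.e (nat_lit 770073) (nat_lit 9) (.e (nat_lit 73755) (nat_lit 8) (.e (nat_lit 557105) (nat_lit 14) (.e (nat_lit 180227) (nat_lit 0) (.e (nat_lit 5814) (nat_lit 320) .nil)))))))) (.g (nat_lit 6) .nil .nil)))))) (.nd (nat_lit 3) (.nd (nat_lit 4) (.nd (nat_lit 5) 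
(.lf (nat_lit 30471) (.g (nat_lit 2659) (.e (nat_lit 1200) (nat_lit 88) (.e (nat_lit 65630) (nat_lit 14) (.e (nat_lit 401459) (nat_lit 13) (.e (nat_lit 483409) (nat_lit 27) .nil)))) .nil)) 
(.lf (nat_lit 30503) (.g (nat_lit 2956) (.e (nat_lit 1200) (nat_lit 88) (.e (nat_lit 65630) (nat_lit 14) (.e (nat_lit 401459) (nat_lit 13) (.e (nat_lit 483411) (nat_lit 27) (.e (nat_lit 401422) (nat_lit 1) (.e (nat_lit 164422) (nat_lit 272) .nil)))))) (.g (nat_lit 4) .nil .nil)))) (.nd (nat_lit 5) 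
(.lf (nat_lit 30487) (.g (nat_lit 3759) (.e (nat_lit 1200) (nat_lit 88) (.e (nat_lit 65630) (nat_lit 14) (.e (nat_lit 401459) (nat_lit 13) (.e (nat_lit 483411) (nat_lit 27) (.e (nat_lit 401414) (nat_lit 0) (.e (nat_lit 2426) (nat_lit 157) (.e (nat_lit 4598) (nat_lit 269) .nil))))))) (.g (nat_lit 5) .nil .nil))) 
(.lf (nat_lit 30519) (.g (nat_lit 4407) (.e (nat_lit 1201) (nat_lit 88) (.e (nat_lit 65546) (nat_lit 0) (.e (nat_lit 2281) (nat_lit 150) (.e (nat_lit 770073) (nat_lit 9) (.e (nat_lit 73755) (nat_lit 8) (.e (nat_lit 557104) (nat_lit 14) (.e (nat_lit 180229) (nat_lit 0) (.e (nat_lit 5820) (nat_lit 320) .nil)))))))) (.g (nat_lit 7) .nil .nil))))) (.nd (nat_lit 4) (.nd (nat_lit 5) 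
(.lf (nat_lit 30479) (.g (nat_lit 3245) (.e (nat_lit 1200) (nat_lit 88) (.e (nat_lit 65630) (nat_lit 14) (.e (nat_lit 401459) (nat_lit 13) (.e (nat_lit 483410) (nat_lit 27) (.e (nat_lit 401422) (nat_lit 1) (.e (nat_lit 164423) (nat_lit 272) .nil)))))) (.g (nat_lit 4) .nil .nil))) 
(.lf (nat_lit 30511) (.g (nat_lit 2743) (.e (nat_lit 1201) (nat_lit 88) (.e (nat_lit 65546) (nat_lit 0) (.e (nat_lit 2281) (nat_lit 150) (.e (nat_lit 770073) (nat_lit 9) (.e (nat_lit 73753) (nat_lit 8) (.e (nat_lit 557101) (nat_lit 13) (.e (nat_lit 172070) (nat_lit 4) (.e (nat_lit 229699) (nat_lit 254) .nil)))))))) (.g (nat_lit 5) .nil .nil)))) (.nd (nat_lit 5) 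
(.lf (nat_lit 30495) (.g (nat_lit 3264) (.e (nat_lit 1200) (nat_lit 88) (.e (nat_lit 65630) (nat_lit 14) (.e (nat_lit 401459) (nat_lit 13) (.e (nat_lit 483411) (nat_lit 27) (.e (nat_lit 401416) (nat_lit 0) .nil))))) .nil)) 
(.lf (nat_lit 30527) (.g (nat_lit 4518) (.e (nat_lit 1201) (nat_lit 88) (.e (nat_lit 65550) (nat_lit 0) (.e (nat_lit 1788) (nat_lit 119) (.e (nat_lit 516166) (nat_lit 12) (.e (nat_lit 450588) (nat_lit 10) (.e (nat_lit 573473) (nat_lit 12) (.e (nat_lit 57348) (nat_lit 0) (.e (nat_lit 7125) (nat_lit 382) .nil)))))))) (.g (nat_lit 6) .nil .nil)))))))))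

noncomputable def tv425 : DT := (.nd (nat_lit 0) (.nd (nat_lit 1) (.nd (nat_lit 2) (.nd (nat_lit 3) (.nd (nat_lit 4) (.nd (nat_lit 5) 
(.lf (nat_lit 30528) (.g (nat_lit 4025) (.e (nat_lit 1201) (nat_lit 88) (.e (nat_lit 65550) (nat_lit 0) (.e (nat_lit 1788) (nat_lit 119) (.e (nat_lit 516166) (nat_lit 12) (.e (nat_lit 450588) (nat_lit 10) (.e (nat_lit 573473) (nat_lit 12) (.e (nat_lit 57353) (nat_lit 0) (.e (nat_lit 7124) (nat_lit 382) .nil)))))))) (.g (nat_lit 5) .nil .nil))) 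
(.lf (nat_lit 30560) (.g (nat_lit 4300) (.e (nat_lit 1201) (nat_lit 88) (.e (nat_lit 65566) (nat_lit 2) (.e (nat_lit 90170) (nat_lit 13) (.e (nat_lit 172113) (nat_lit 10) (.e (nat_lit 434245) (nat_lit 28) (.e (nat_lit 573473) (nat_lit 12) (.e (nat_lit 57347) (nat_lit 0) (.e (nat_lit 7125) (nat_lit 382) .nil)))))))) (.g (nat_lit 7) .nil .nil)))) (.nd (nat_lit 5) 
(.lf (nat_lit 30544) (.g (nat_lit 4111) (.e (nat_lit 1201) (nat_lit 88) (.e (nat_lit 65566) (nat_lit 2) (.e (nat_lit 90170) (nat_lit 13) (.e (nat_lit 172106) (nat_lit 10) (.e (nat_lit 434244) (nat_lit 28) (.e (nat_lit 573473) (nat_lit 12) (.e (nat_lit 57353) (nat_lit 0) (.e (nat_lit 7122) (nat_lit 382) .nil)))))))) (.g (nat_lit 6) .nil .nil))) 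
(.lf (nat_lit 30576) (.g (nat_lit 3522) (.e (nat_lit 1201) (nat_lit 88) (.e (nat_lit 65566) (nat_lit 2) (.e (nat_lit 90170) (nat_lit 13) (.e (nat_lit 172113) (nat_lit 10) (.e (nat_lit 434248) (nat_lit 28) (.e (nat_lit 573473) (nat_lit 12) (.e (nat_lit 57353) (nat_lit 0) (.e (nat_lit 7122) (nat_lit 382) .nil)))))))) (.g (nat_lit 6) .nil .nil))))) (.nd (nat_lit 4) (.nd (nat_lit 5) 
(.lf (nat_lit 30536) (.g (nat_lit 2486) (.e (nat_lit 1201) (nat_lit 88) (.e (nat_lit 65566) (nat_lit 2) (.e (nat_lit 90170) (nat_lit 13) (.e (nat_lit 172106) (nat_lit 10) (.e (nat_lit 434231) (nat_lit 23) (.e (nat_lit 532483) (nat_lit 0) (.e (nat_lit 982) (nat_lit 81) (.e (nat_lit 4442) (nat_lit 263) .nil)))))))) (.g (nat_lit 5) .nil .nil))) 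
(.lf (nat_lit 30568) (.g (nat_lit 3164) (.e (nat_lit 1201) (nat_lit 88) (.e (nat_lit 65566) (nat_lit 2) (.e (nat_lit 90170) (nat_lit 13) (.e (nat_lit 172113) (nat_lit 10) (.e (nat_lit 434247) (nat_lit 28) (.e (nat_lit 573477) (nat_lit 12) (.e (nat_lit 57351) (nat_lit 0) (.e (nat_lit 7124) (nat_lit 382) .nil)))))))) (.g (nat_lit 5) .nil .nil)))) (.nd (nat_lit 5) 
(.lf (nat_lit 30552) (.g (nat_lit 1922) (.e (nat_lit 1201) (nat_lit 88) (.e (nat_lit 65566) (nat_lit 2) (.e (nat_lit 90170) (nat_lit 13) (.e (nat_lit 172113) (nat_lit 10) (.e (nat_lit 434242) (nat_lit 28) (.e (nat_lit 573473) (nat_lit 12) (.e (nat_lit 57348) (nat_lit 0) (.e (nat_lit 7125) (nat_lit 382) .nil)))))))) (.g (nat_lit 4) .nil .nil))) 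
(.lf (nat_lit 30584) (.g (nat_lit 3144) (.e (nat_lit 1201) (nat_lit 88) (.e (nat_lit 65567) (nat_lit 2) (.e (nat_lit 90170) (nat_lit 13) (.e (nat_lit 172113) (nat_lit 10) (.e (nat_lit 434245) (nat_lit 28) (.e (nat_lit 573474) (nat_lit 12) (.e (nat_lit 57347) (nat_lit 0) (.e (nat_lit 7124) (nat_lit 382) .nil)))))))) (.g (nat_lit 5) .nil .nil)))))) (.nd (nat_lit 3) (.nd (nat_lit 4) (.nd (nat_lit 5) 
(.lf (nat_lit 30532) (.g (nat_lit 3295) (.e (nat_lit 1201) (nat_lit 88) (.e (nat_lit 65566) (nat_lit 2) (.e (nat_lit 90170) (nat_lit 13) (.e (nat_lit 172079) (nat_lit 7) (.e (nat_lit 409611) (nat_lit 10) (.e (nat_lit 604) (nat_lit 45) (.e (nat_lit 532501) (nat_lit 1) (.e (nat_lit 57829) (nat_lit 250) .nil)))))))) (.g (nat_lit 7) .nil .nil))) 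
(.lf (nat_lit 30564) (.g (nat_lit 2134) (.e (nat_lit 1201) (nat_lit 88) (.e (nat_lit 65566) (nat_lit 2) (.e (nat_lit 90170) (nat_lit 13) (.e (nat_lit 172113) (nat_lit 10) (.e (nat_lit 434245) (nat_lit 28) (.e (nat_lit 573474) (nat_lit 12) (.e (nat_lit 57344) (nat_lit 0) (.e (nat_lit 7125) (nat_lit 382) .nil)))))))) (.g (nat_lit 4) .nil .nil)))) (.nd (nat_lit 5) 
(.lf (nat_lit 30548) (.g (nat_lit 4589) (.e (nat_lit 1201) (nat_lit 88) (.e (nat_lit 65566) (nat_lit 2) (.e (nat_lit 90170) (nat_lit 13) (.e (nat_lit 172106) (nat_lit 10) (.e (nat_lit 434244) (nat_lit 28) (.e (nat_lit 573474) (nat_lit 12) (.e (nat_lit 57348) (nat_lit 0) (.e (nat_lit 7124) (nat_lit 382) .nil)))))))) (.g (nat_lit 7) .nil .nil))) 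
(.lf (nat_lit 30580) (.g (nat_lit 2752) (.e (nat_lit 1201) (nat_lit 88) (.e (nat_lit 65567) (nat_lit 2) (.e (nat_lit 90170) (nat_lit 13) (.e (nat_lit 172113) (nat_lit 10) (.e (nat_lit 434242) (nat_lit 28) (.e (nat_lit 573474) (nat_lit 12) (.e (nat_lit 57347) (nat_lit 0) (.e (nat_lit 7124) (nat_lit 382) .nil)))))))) (.g (nat_lit 4) .nil .nil))))) (.nd (nat_lit 4) (.nd (nat_lit 5) 
(.lf (nat_lit 30540) (.g (nat_lit 2429) (.e (nat_lit 1201) (nat_lit 88) (.e (nat_lit 65566) (nat_lit 2) (.e (nat_lit 90170) (nat_lit 13) (.e (nat_lit 172106) (nat_lit 10) (.e (nat_lit 434244) (nat_lit 28) (.e (nat_lit 573468) (nat_lit 10) (.e (nat_lit 8194) (nat_lit 0) (.e (nat_lit 4441) (nat_lit 263) .nil)))))))) (.g (nat_lit 6) .nil .nil))) 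
(.lf (nat_lit 30572) (.g (nat_lit 3763) (.e (nat_lit 1201) (nat_lit 88) (.e (nat_lit 65566) (nat_lit 2) (.e (nat_lit 90170) (nat_lit 13) (.e (nat_lit 172113) (nat_lit 10) (.e (nat_lit 434247) (nat_lit 28) (.e (nat_lit 573478) (nat_lit 12) (.e (nat_lit 57352) (nat_lit 0) (.e (nat_lit 7122) (nat_lit 382) .nil)))))))) (.g (nat_lit 7) .nil .nil)))) (.nd (nat_lit 5) 
(.lf (nat_lit 30556) (.g (nat_lit 5174) (.e (nat_lit 1201) (nat_lit 88) (.e (nat_lit 65566) (nat_lit 2) (.e (nat_lit 90170) (nat_lit 13) (.e (nat_lit 172113) (nat_lit 10) (.e (nat_lit 434242) (nat_lit 28) (.e (nat_lit 573474) (nat_lit 12) (.e (nat_lit 57347) (nat_lit 0) (.e (nat_lit 7125) (nat_lit 382) .nil)))))))) (.g (nat_lit 8) .nil .nil))) 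
(.lf (nat_lit 30588) (.g (nat_lit 2546) (.e (nat_lit 1201) (nat_lit 88) (.e (nat_lit 65567) (nat_lit 2) (.e (nat_lit 90170) (nat_lit 13) (.e (nat_lit 172113) (nat_lit 10) (.e (nat_lit 434245) (nat_lit 28) (.e (nat_lit 573474) (nat_lit 12) (.e (nat_lit 57351) (nat_lit 0) (.e (nat_lit 7124) (nat_lit 382) .nil)))))))) (.g (nat_lit 4) .nil .nil))))))) 
(.nd (nat_lit 2) (.nd (nat_lit 3) (.nd (nat_lit 4) (.nd (nat_lit 5) 
(.lf (nat_lit 30530) (.g (nat_lit 2354) (.e (nat_lit 1201) (nat_lit 88) (.e (nat_lit 65563) (nat_lit 1) (.e (nat_lit 57683) (nat_lit 155) (.e (nat_lit 122913) (nat_lit 13) (.e (nat_lit 344130) (nat_lit 26) (.e (nat_lit 557104) (nat_lit 14) (.e (nat_lit 180233) (nat_lit 0) (.e (nat_lit 5817) (nat_lit 320) .nil)))))))) (.g (nat_lit 5) .nil .nil))) 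
(.lf (nat_lit 30562) (.g (nat_lit 3401) (.e (nat_lit 1201) (nat_lit 88) (.e (nat_lit 65566) (nat_lit 2) (.e (nat_lit 90170) (nat_lit 13) (.e (nat_lit 172113) (nat_lit 10) (.e (nat_lit 434245) (nat_lit 28) (.e (nat_lit 573473) (nat_lit 12) (.e (nat_lit 57353) (nat_lit 0) (.e (nat_lit 7122) (nat_lit 382) .nil)))))))) (.g (nat_lit 6) .nil .nil)))) (.nd (nat_lit 5) 
(.lf (nat_lit 30546) (.g (nat_lit 3657) (.e (nat_lit 1201) (nat_lit 88) (.e (nat_lit 65566) (nat_lit 2) (.e (nat_lit 90170) (nat_lit 13) (.e (nat_lit 172106) (nat_lit 10) (.e (nat_lit 434244) (nat_lit 28) (.e (nat_lit 573474) (nat_lit 12) (.e (nat_lit 57344) (nat_lit 0) (.e (nat_lit 7125) (nat_lit 382) .nil)))))))) (.g (nat_lit 6) .nil .nil))) 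
(.lf (nat_lit 30578) (.g (nat_lit 4478) (.e (nat_lit 1201) (nat_lit 88) (.e (nat_lit 65566) (nat_lit 2) (.e (nat_lit 90170) (nat_lit 13) (.e (nat_lit 172113) (nat_lit 10) (.e (nat_lit 434248) (nat_lit 28) (.e (nat_lit 573475) (nat_lit 12) (.e (nat_lit 57348) (nat_lit 0) (.e (nat_lit 7124) (nat_lit 382) .nil)))))))) (.g (nat_lit 8) .nil .nil))))) (.nd (nat_lit 4) (.nd (nat_lit 5) 
(.lf (nat_lit 30538) (.g (nat_lit 4270) (.e (nat_lit 1201) (nat_lit 88) (.e (nat_lit 65566) (nat_lit 2) (.e (nat_lit 90170) (nat_lit 13) (.e (nat_lit 172106) (nat_lit 10) (.e (nat_lit 434231) (nat_lit 23) (.e (nat_lit 532500) (nat_lit 1) (.e (nat_lit 65280) (nat_lit 221) .nil))))))) (.g (nat_lit 6) .nil .nil))) 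
(.lf (nat_lit 30570) (.g (nat_lit 2981) (.e (nat_lit 1201) (nat_lit 88) (.e (nat_lit 65566) (nat_lit 2) (.e (nat_lit 90170) (nat_lit 13) (.e (nat_lit 172113) (nat_lit 10) (.e (nat_lit 434247) (nat_lit 28) (.e (nat_lit 573477) (nat_lit 12) (.e (nat_lit 57352) (nat_lit 0) (.e (nat_lit 7125) (nat_lit 382) .nil)))))))) (.g (nat_lit 5) .nil .nil)))) (.nd (nat_lit 5) 
(.lf (nat_lit 30554) (.g (nat_lit 1879) (.e (nat_lit 1201) (nat_lit 88) (.e (nat_lit 65566) (nat_lit 2) (.e (nat_lit 90170) (nat_lit 13) (.e (nat_lit 172113) (nat_lit 10) (.e (nat_lit 434242) (nat_lit 28) (.e (nat_lit 573473) (nat_lit 12) (.e (nat_lit 57353) (nat_lit 0) (.e (nat_lit 7125) (nat_lit 382) .nil)))))))) (.g (nat_lit 4) .nil .nil))) 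
(.lf (nat_lit 30586) (.g (nat_lit 3463) (.e (nat_lit 1201) (nat_lit 88) (.e (nat_lit 65567) (nat_lit 2) (.e (nat_lit 90170) (nat_lit 13) (.e (nat_lit 172113) (nat_lit 10) (.e (nat_lit 434245) (nat_lit 28) (.e (nat_lit 573474) (nat_lit 12) (.e (nat_lit 57348) (nat_lit 0) (.e (nat_lit 7125) (nat_lit 382) .nil)))))))) (.g (nat_lit 5) .nil .nil)))))) (.nd (nat_lit 3) (.nd (nat_lit 4) (.nd (nat_lit 5) 
(.lf (nat_lit 30534) (.g (nat_lit 2999) (.e (nat_lit 1201) (nat_lit 88) (.e (nat_lit 65566) (nat_lit 2) (.e (nat_lit 90170) (nat_lit 13) (.e (nat_lit 172082) (nat_lit 7) (.e (nat_lit 409617) (nat_lit 10) (.e (nat_lit 604) (nat_lit 45) (.e (nat_lit 532501) (nat_lit 1) (.e (nat_lit 57830) (nat_lit 250) .nil)))))))) (.g (nat_lit 4) .nil .nil))) 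
(.lf (nat_lit 30566) (.g (nat_lit 3990) (.e (nat_lit 1201) (nat_lit 88) (.e (nat_lit 65566) (nat_lit 2) (.e (nat_lit 90170) (nat_lit 13) (.e (nat_lit 172113) (nat_lit 10) (.e (nat_lit 434245) (nat_lit 28) (.e (nat_lit 573474) (nat_lit 12) (.e (nat_lit 57353) (nat_lit 0) (.e (nat_lit 7125) (nat_lit 382) .nil)))))))) (.g (nat_lit 6) .nil .nil)))) (.nd (nat_lit 5) 
(.lf (nat_lit 30550) (.g (nat_lit 4019) (.e (nat_lit 1201) (nat_lit 88) (.e (nat_lit 65566) (nat_lit 2) (.e (nat_lit 90170) (nat_lit 13) (.e (nat_lit 172106) (nat_lit 10) (.e (nat_lit 434244) (nat_lit 28) (.e (nat_lit 573474) (nat_lit 12) (.e (nat_lit 57353) (nat_lit 0) (.e (nat_lit 7124) (nat_lit 382) .nil)))))))) (.g (nat_lit 6) .nil .nil))) 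
(.lf (nat_lit 30582) (.g (nat_lit 2698) (.e (nat_lit 1201) (nat_lit 88) (.e (nat_lit 65567) (nat_lit 2) (.e (nat_lit 90170) (nat_lit 13) (.e (nat_lit 172113) (nat_lit 10) (.e (nat_lit 434245) (nat_lit 28) (.e (nat_lit 573473) (nat_lit 12) (.e (nat_lit 57348) (nat_lit 0) (.e (nat_lit 7125) (nat_lit 382) .nil)))))))) (.g (nat_lit 4) .nil .nil))))) (.nd (nat_lit 4) (.nd (nat_lit 5) 
(.lf (nat_lit 30542) (.g (nat_lit 4520) (.e (nat_lit 1201) (nat_lit 88) (.e (nat_lit 65566) (nat_lit 2) (.e (nat_lit 90170) (nat_lit 13) (.e (nat_lit 172106) (nat_lit 10) (.e (nat_lit 434244) (nat_lit 28) (.e (nat_lit 573473) (nat_lit 12) (.e (nat_lit 57347) (nat_lit 0) (.e (nat_lit 7125) (nat_lit 382) .nil)))))))) (.g (nat_lit 7) .nil .nil))) 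
(.lf (nat_lit 30574) (.g (nat_lit 4366) (.e (nat_lit 1201) (nat_lit 88) (.e (nat_lit 65566) (nat_lit 2) (.e (nat_lit 90170) (nat_lit 13) (.e (nat_lit 172113) (nat_lit 10) (.e (nat_lit 434248) (nat_lit 28) (.e (nat_lit 573473) (nat_lit 12) (.e (nat_lit 57347) (nat_lit 0) (.e (nat_lit 7125) (nat_lit 382) .nil)))))))) (.g (nat_lit 7) .nil .nil)))) (.nd (nat_lit 5) 
(.lf (nat_lit 30558) (.g (nat_lit 5012) (.e (nat_lit 1201) (nat_lit 88) (.e (nat_lit 65566) (nat_lit 2) (.e (nat_lit 90170) (nat_lit 13) (.e (nat_lit 172113) (nat_lit 10) (.e (nat_lit 434242) (nat_lit 28) (.e (nat_lit 573474) (nat_lit 12) (.e (nat_lit 57348) (nat_lit 0) (.e (nat_lit 7125) (nat_lit 382) .nil)))))))) (.g (nat_lit 8) .nil .nil))) 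
(.lf (nat_lit 30590) (.g (nat_lit 2811) (.e (nat_lit 1201) (nat_lit 88) (.e (nat_lit 65567) (nat_lit 2) (.e (nat_lit 90170) (nat_lit 13) (.e (nat_lit 172113) (nat_lit 10) (.e (nat_lit 434247) (nat_lit 28) (.e (nat_lit 573477) (nat_lit 12) (.e (nat_lit 57353) (nat_lit 0) (.e (nat_lit 7125) (nat_lit 382) .nil)))))))) (.g (nat_lit 4) .nil .nil)))))))) 
(.nd (nat_lit 1) (.nd (nat_lit 2) (.nd (nat_lit 3) (.nd (nat_lit 4) (.nd (nat_lit 5) 
(.lf (nat_lit 30529) (.g (nat_lit 4405) (.e (nat_lit 1201) (nat_lit 88) (.e (nat_lit 65550) (nat_lit 0) (.e (nat_lit 1788) (nat_lit 119) (.e (nat_lit 516166) (nat_lit 12) (.e (nat_lit 450588) (nat_lit 10) (.e (nat_lit 573473) (nat_lit 12) (.e (nat_lit 57353) (nat_lit 0) (.e (nat_lit 7125) (nat_lit 382) .nil)))))))) (.g (nat_lit 6) .nil .nil))) 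
(.lf (nat_lit 30561) (.g (nat_lit 2875) (.e (nat_lit 1201) (nat_lit 88) (.e (nat_lit 65566) (nat_lit 2) (.e (nat_lit 90170) (nat_lit 13) (.e (nat_lit 172113) (nat_lit 10) (.e (nat_lit 434245) (nat_lit 28) (.e (nat_lit 573473) (nat_lit 12) (.e (nat_lit 57352) (nat_lit 0) (.e (nat_lit 7125) (nat_lit 382) .nil)))))))) (.g (nat_lit 5) .nil .nil)))) (.nd (nat_lit 5) 
(.lf (nat_lit 30545) (.g (nat_lit 3773) (.e (nat_lit 1201) (nat_lit 88) (.e (nat_lit 65566) (nat_lit 2) (.e (nat_lit 90170) (nat_lit 13) (.e (nat_lit 172106) (nat_lit 10) (.e (nat_lit 434244) (nat_lit 28) (.e (nat_lit 573474) (nat_lit 12) (.e (nat_lit 57344) (nat_lit 0) (.e (nat_lit 7122) (nat_lit 382) .nil)))))))) (.g (nat_lit 6) .nil .nil))) 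
(.lf (nat_lit 30577) (.g (nat_lit 4421) (.e (nat_lit 1201) (nat_lit 88) (.e (nat_lit 65566) (nat_lit 2) (.e (nat_lit 90170) (nat_lit 13) (.e (nat_lit 172113) (nat_lit 10) (.e (nat_lit 434248) (nat_lit 28) (.e (nat_lit 573475) (nat_lit 12) (.e (nat_lit 57347) (nat_lit 0) (.e (nat_lit 7122) (nat_lit 382) .nil)))))))) (.g (nat_lit 7) .nil .nil))))) (.nd (nat_lit 4) (.nd (nat_lit 5) 
(.lf (nat_lit 30537) (.g (nat_lit 3938) (.e (nat_lit 1201) (nat_lit 88) (.e (nat_lit 65566) (nat_lit 2) (.e (nat_lit 90170) (nat_lit 13) (.e (nat_lit 172106) (nat_lit 10) (.e (nat_lit 434231) (nat_lit 23) (.e (nat_lit 532499) (nat_lit 1) (.e (nat_lit 65280) (nat_lit 221) .nil))))))) (.g (nat_lit 6) .nil .nil))) 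
(.lf (nat_lit 30569) (.g (nat_lit 3495) (.e (nat_lit 1201) (nat_lit 88) (.e (nat_lit 65566) (nat_lit 2) (.e (nat_lit 90170) (nat_lit 13) (.e (nat_lit 172113) (nat_lit 10) (.e (nat_lit 434247) (nat_lit 28) (.e (nat_lit 573477) (nat_lit 12) (.e (nat_lit 57351) (nat_lit 0) (.e (nat_lit 7125) (nat_lit 382) .nil)))))))) (.g (nat_lit 6) .nil .nil)))) (.nd (nat_lit 5) 
(.lf (nat_lit 30553) (.g (nat_lit 1598) (.e (nat_lit 1201) (nat_lit 88) (.e (nat_lit 65566) (nat_lit 2) (.e (nat_lit 90170) (nat_lit 13) (.e (nat_lit 172113) (nat_lit 10) (.e (nat_lit 434242) (nat_lit 28) (.e (nat_lit 573473) (nat_lit 12) (.e (nat_lit 57353) (nat_lit 0) (.e (nat_lit 7124) (nat_lit 382) .nil)))))))) (.g (nat_lit 4) .nil .nil))) 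
(.lf (nat_lit 30585) (.g (nat_lit 2919) (.e (nat_lit 1201) (nat_lit 88) (.e (nat_lit 65567) (nat_lit 2) (.e (nat_lit 90170) (nat_lit 13) (.e (nat_lit 172113) (nat_lit 10) (.e (nat_lit 434245) (nat_lit 28) (.e (nat_lit 573474) (nat_lit 12) (.e (nat_lit 57348) (nat_lit 0) (.e (nat_lit 7124) (nat_lit 382) .nil)))))))) (.g (nat_lit 4) .nil .nil)))))) (.nd (nat_lit 3) (.nd (nat_lit 4) (.nd (nat_lit 5) 
(.lf (nat_lit 30533) (.g (nat_lit 3520) (.e (nat_lit 1201) (nat_lit 88) (.e (nat_lit 65566) (nat_lit 2) (.e (nat_lit 90170) (nat_lit 13) (.e (nat_lit 172082) (nat_lit 7) (.e (nat_lit 409612) (nat_lit 10) (.e (nat_lit 604) (nat_lit 45) (.e (nat_lit 532501) (nat_lit 1) (.e (nat_lit 57829) (nat_lit 250) .nil)))))))) (.g (nat_lit 5) .nil .nil))) 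
(.lf (nat_lit 30565) (.g (nat_lit 4770) (.e (nat_lit 1201) (nat_lit 88) (.e (nat_lit 65566) (nat_lit 2) (.e (nat_lit 90170) (nat_lit 13) (.e (nat_lit 172113) (nat_lit 10) (.e (nat_lit 434245) (nat_lit 28) (.e (nat_lit 573474) (nat_lit 12) (.e (nat_lit 57348) (nat_lit 0) (.e (nat_lit 7124) (nat_lit 382) .nil)))))))) (.g (nat_lit 8) .nil .nil)))) (.nd (nat_lit 5) 
(.lf (nat_lit 30549) (.g (nat_lit 4102) (.e (nat_lit 1201) (nat_lit 88) (.e (nat_lit 65566) (nat_lit 2) (.e (nat_lit 90170) (nat_lit 13) (.e (nat_lit 172106) (nat_lit 10) (.e (nat_lit 434244) (nat_lit 28) (.e (nat_lit 573474) (nat_lit 12) (.e (nat_lit 57352) (nat_lit 0) (.e (nat_lit 7122) (nat_lit 382) .nil)))))))) (.g (nat_lit 6) .nil .nil))) 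
(.lf (nat_lit 30581) (.g (nat_lit 2574) (.e (nat_lit 1201) (nat_lit 88) (.e (nat_lit 65567) (nat_lit 2) (.e (nat_lit 90170) (nat_lit 13) (.e (nat_lit 172113) (nat_lit 10) (.e (nat_lit 434245) (nat_lit 28) (.e (nat_lit 573473) (nat_lit 12) (.e (nat_lit 57347) (nat_lit 0) (.e (nat_lit 7125) (nat_lit 382) .nil)))))))) (.g (nat_lit 4) .nil .nil))))) (.nd (nat_lit 4) (.nd (nat_lit 5) 
(.lf (nat_lit 30541) (.g (nat_lit 3890) (.e (nat_lit 1201) (nat_lit 88) (.e (nat_lit 65566) (nat_lit 2) (.e (nat_lit 90170) (nat_lit 13) (.e (nat_lit 172106) (nat_lit 10) (.e (nat_lit 434244) (nat_lit 28) (.e (nat_lit 573473) (nat_lit 12) (.e (nat_lit 57347) (nat_lit 0) (.e (nat_lit 7124) (nat_lit 382) .nil)))))))) (.g (nat_lit 6) .nil .nil))) 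
(.lf (nat_lit 30573) (.g (nat_lit 3101) (.e (nat_lit 1201) (nat_lit 88) (.e (nat_lit 65566) (nat_lit 2) (.e (nat_lit 90170) (nat_lit 13) (.e (nat_lit 172113) (nat_lit 10) (.e (nat_lit 434247) (nat_lit 28) (.e (nat_lit 573478) (nat_lit 12) (.e (nat_lit 57353) (nat_lit 0) (.e (nat_lit 7122) (nat_lit 382) .nil)))))))) (.g (nat_lit 5) .nil .nil)))) (.nd (nat_lit 5) 
(.lf (nat_lit 30557) (.g (nat_lit 4564) (.e (nat_lit 1201) (nat_lit 88) (.e (nat_lit 65566) (nat_lit 2) (.e (nat_lit 90170) (nat_lit 13) (.e (nat_lit 172113) (nat_lit 10) (.e (nat_lit 434242) (nat_lit 28) (.e (nat_lit 573474) (nat_lit 12) (.e (nat_lit 57348) (nat_lit 0) (.e (nat_lit 7124) (nat_lit 382) .nil)))))))) (.g (nat_lit 7) .nil .nil))) 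
(.lf (nat_lit 30589) (.g (nat_lit 2918) (.e (nat_lit 1201) (nat_lit 88) (.e (nat_lit 65567) (nat_lit 2) (.e (nat_lit 90170) (nat_lit 13) (.e (nat_lit 172113) (nat_lit 10) (.e (nat_lit 434245) (nat_lit 28) (.e (nat_lit 573474) (nat_lit 12) (.e (nat_lit 57351) (nat_lit 0) (.e (nat_lit 7125) (nat_lit 382) .nil)))))))) (.g (nat_lit 4) .nil .nil))))))) 
(.nd (nat_lit 2) (.nd (nat_lit 3) (.nd (nat_lit 4) (.nd (nat_lit 5) 
(.lf (nat_lit 30531) (.g (nat_lit 1718) (.e (nat_lit 1201) (nat_lit 88) (.e (nat_lit 65563) (nat_lit 1) (.e (nat_lit 57684) (nat_lit 155) (.e (nat_lit 122913) (nat_lit 13) (.e (nat_lit 344130) (nat_lit 26) (.e (nat_lit 557104) (nat_lit 14) (.e (nat_lit 180233) (nat_lit 0) (.e (nat_lit 5817) (nat_lit 320) .nil)))))))) (.g (nat_lit 4) .nil .nil))) 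
(.lf (nat_lit 30563) (.g (nat_lit 2250) (.e (nat_lit 1201) (nat_lit 88) (.e (nat_lit 65566) (nat_lit 2) (.e (nat_lit 90170) (nat_lit 13) (.e (nat_lit 172113) (nat_lit 10) (.e (nat_lit 434245) (nat_lit 28) (.e (nat_lit 573474) (nat_lit 12) (.e (nat_lit 57344) (nat_lit 0) (.e (nat_lit 7122) (nat_lit 382) .nil)))))))) (.g (nat_lit 4) .nil .nil)))) (.nd (nat_lit 5) 
(.lf (nat_lit 30547) (.g (nat_lit 4591) (.e (nat_lit 1201) (nat_lit 88) (.e (nat_lit 65566) (nat_lit 2) (.e (nat_lit 90170) (nat_lit 13) (.e (nat_lit 172106) (nat_lit 10) (.e (nat_lit 434244) (nat_lit 28) (.e (nat_lit 573474) (nat_lit 12) (.e (nat_lit 57347) (nat_lit 0) (.e (nat_lit 7122) (nat_lit 382) .nil)))))))) (.g (nat_lit 7) .nil .nil))) 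
(.lf (nat_lit 30579) (.g (nat_lit 3296) (.e (nat_lit 1201) (nat_lit 88) (.e (nat_lit 65566) (nat_lit 2) (.e (nat_lit 90170) (nat_lit 13) (.e (nat_lit 172113) (nat_lit 10) (.e (nat_lit 434248) (nat_lit 28) (.e (nat_lit 573475) (nat_lit 12) (.e (nat_lit 57353) (nat_lit 0) (.e (nat_lit 7122) (nat_lit 382) .nil)))))))) (.g (nat_lit 6) .nil .nil))))) (.nd (nat_lit 4) (.nd (nat_lit 5) 
(.lf (nat_lit 30539) (.g (nat_lit 2717) (.e (nat_lit 1201) (nat_lit 88) (.e (nat_lit 65566) (nat_lit 2) (.e (nat_lit 90170) (nat_lit 13) (.e (nat_lit 172106) (nat_lit 10) (.e (nat_lit 434244) (nat_lit 28) (.e (nat_lit 573468) (nat_lit 10) (.e (nat_lit 8192) (nat_lit 0) (.e (nat_lit 4441) (nat_lit 263) .nil)))))))) (.g (nat_lit 6) .nil .nil))) 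
(.lf (nat_lit 30571) (.g (nat_lit 3473) (.e (nat_lit 1201) (nat_lit 88) (.e (nat_lit 65566) (nat_lit 2) (.e (nat_lit 90170) (nat_lit 13) (.e (nat_lit 172113) (nat_lit 10) (.e (nat_lit 434247) (nat_lit 28) (.e (nat_lit 573477) (nat_lit 12) (.e (nat_lit 57353) (nat_lit 0) (.e (nat_lit 7122) (nat_lit 382) .nil)))))))) (.g (nat_lit 6) .nil .nil)))) (.nd (nat_lit 5) 
(.lf (nat_lit 30555) (.g (nat_lit 4632) (.e (nat_lit 1201) (nat_lit 88) (.e (nat_lit 65566) (nat_lit 2) (.e (nat_lit 90170) (nat_lit 13) (.e (nat_lit 172113) (nat_lit 10) (.e (nat_lit 434242) (nat_lit 28) (.e (nat_lit 573474) (nat_lit 12) (.e (nat_lit 57347) (nat_lit 0) (.e (nat_lit 7124) (nat_lit 382) .nil)))))))) (.g (nat_lit 7) .nil .nil))) 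
(.lf (nat_lit 30587) (.g (nat_lit 2444) (.e (nat_lit 1201) (nat_lit 88) (.e (nat_lit 65567) (nat_lit 2) (.e (nat_lit 90170) (nat_lit 13) (.e (nat_lit 172113) (nat_lit 10) (.e (nat_lit 434245) (nat_lit 28) (.e (nat_lit 573474) (nat_lit 12) (.e (nat_lit 57351) (nat_lit 0) (.e (nat_lit 7122) (nat_lit 382) .nil)))))))) (.g (nat_lit 4) .nil .nil)))))) (.nd (nat_lit 3) (.nd (nat_lit 4) (.nd (nat_lit 5) 
(.lf (nat_lit 30535) (.g (nat_lit 2890) (.e (nat_lit 1201) (nat_lit 88) (.e (nat_lit 65566) (nat_lit 2) (.e (nat_lit 90170) (nat_lit 13) (.e (nat_lit 172082) (nat_lit 7) (.e (nat_lit 409617) (nat_lit 10) (.e (nat_lit 604) (nat_lit 45) (.e (nat_lit 532504) (nat_lit 1) (.e (nat_lit 57829) (nat_lit 250) .nil)))))))) (.g (nat_lit 4) .nil .nil))) 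
(.lf (nat_lit 30567) (.g (nat_lit 3380) (.e (nat_lit 1201) (nat_lit 88) (.e (nat_lit 65566) (nat_lit 2) (.e (nat_lit 90170) (nat_lit 13) (.e (nat_lit 172113) (nat_lit 10) (.e (nat_lit 434247) (nat_lit 28) (.e (nat_lit 573477) (nat_lit 12) (.e (nat_lit 57351) (nat_lit 0) (.e (nat_lit 7122) (nat_lit 382) .nil)))))))) (.g (nat_lit 6) .nil .nil)))) (.nd (nat_lit 5) 
(.lf (nat_lit 30551) (.g (nat_lit 1632) (.e (nat_lit 1201) (nat_lit 88) (.e (nat_lit 65566) (nat_lit 2) (.e (nat_lit 90170) (nat_lit 13) (.e (nat_lit 172113) (nat_lit 10) (.e (nat_lit 434242) (nat_lit 28) (.e (nat_lit 573473) (nat_lit 12) (.e (nat_lit 57348) (nat_lit 0) (.e (nat_lit 7124) (nat_lit 382) .nil)))))))) (.g (nat_lit 4) .nil .nil))) 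
(.lf (nat_lit 30583) (.g (nat_lit 2630) (.e (nat_lit 1201) (nat_lit 88) (.e (nat_lit 65567) (nat_lit 2) (.e (nat_lit 90170) (nat_lit 13) (.e (nat_lit 172113) (nat_lit 10) (.e (nat_lit 434245) (nat_lit 28) (.e (nat_lit 573473) (nat_lit 12) (.e (nat_lit 57353) (nat_lit 0) (.e (nat_lit 7125) (nat_lit 382) .nil)))))))) (.g (nat_lit 4) .nil .nil))))) (.nd (nat_lit 4) (.nd (nat_lit 5) 
(.lf (nat_lit 30543) (.g (nat_lit 4304) (.e (nat_lit 1201) (nat_lit 88) (.e (nat_lit 65566) (nat_lit 2) (.e (nat_lit 90170) (nat_lit 13) (.e (nat_lit 172106) (nat_lit 10) (.e (nat_lit 434244) (nat_lit 28) (.e (nat_lit 573473) (nat_lit 12) (.e (nat_lit 57348) (nat_lit 0) (.e (nat_lit 7122) (nat_lit 382) .nil)))))))) (.g (nat_lit 7) .nil .nil))) 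
(.lf (nat_lit 30575) (.g (nat_lit 2992) (.e (nat_lit 1201) (nat_lit 88) (.e (nat_lit 65566) (nat_lit 2) (.e (nat_lit 90170) (nat_lit 13) (.e (nat_lit 172113) (nat_lit 10) (.e (nat_lit 434248) (nat_lit 28) (.e (nat_lit 573473) (nat_lit 12) (.e (nat_lit 57352) (nat_lit 0) (.e (nat_lit 7125) (nat_lit 382) .nil)))))))) (.g (nat_lit 5) .nil .nil)))) (.nd (nat_lit 5) 
(.lf (nat_lit 30559) (.g (nat_lit 1802) (.e (nat_lit 1201) (nat_lit 88) (.e (nat_lit 65566) (nat_lit 2) (.e (nat_lit 90170) (nat_lit 13) (.e (nat_lit 172113) (nat_lit 10) (.e (nat_lit 434242) (nat_lit 28) (.e (nat_lit 573476) (nat_lit 12) (.e (nat_lit 57353) (nat_lit 0) (.e (nat_lit 7125) (nat_lit 382) .nil)))))))) (.g (nat_lit 4) .nil .nil))) 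
(.lf (nat_lit 30591) (.g (nat_lit 2628) (.e (nat_lit 1201) (nat_lit 88) (.e (nat_lit 65567) (nat_lit 2) (.e (nat_lit 90170) (nat_lit 13) (.e (nat_lit 172113) (nat_lit 10) (.e (nat_lit 434248) (nat_lit 28) (.e (nat_lit 573473) (nat_lit 12) (.e (nat_lit 57347) (nat_lit 0) (.e (nat_lit 7125) (nat_lit 382) .nil)))))))) (.g (nat_lit 4) .nil .nil)))))))))

noncomputable def tv426 : DT := (.nd (nat_lit 0) (.nd (nat_lit 1) (.nd (nat_lit 2) (.nd (nat_lit 3) (.nd (nat_lit 4) (.nd (nat_lit 5) 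
(.lf (nat_lit 30592) (.g (nat_lit 2434) (.e (nat_lit 1201) (nat_lit 88) (.e (nat_lit 65567) (nat_lit 2) (.e (nat_lit 90170) (nat_lit 13) (.e (nat_lit 172113) (nat_lit 10) (.e (nat_lit 434248) (nat_lit 28) (.e (nat_lit 573473) (nat_lit 12) (.e (nat_lit 57348) (nat_lit 0) (.e (nat_lit 7124) (nat_lit 382) .nil)))))))) (.g (nat_lit 4) .nil .nil))) 
(.lf (nat_lit 30624) (.g (nat_lit 5031) (.e (nat_lit 1201) (nat_lit 88) (.e (nat_lit 65568) (nat_lit 2) (.e (nat_lit 90170) (nat_lit 13) (.e (nat_lit 172106) (nat_lit 10) (.e (nat_lit 434244) (nat_lit 28) (.e (nat_lit 573474) (nat_lit 12) (.e (nat_lit 57348) (nat_lit 0) (.e (nat_lit 7124) (nat_lit 382) .nil)))))))) (.g (nat_lit 7) .nil .nil)))) (.nd (nat_lit 5) 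
(.lf (nat_lit 30608) (.g (nat_lit 3969) (.e (nat_lit 1201) (nat_lit 88) (.e (nat_lit 65568) (nat_lit 2) (.e (nat_lit 90170) (nat_lit 13) (.e (nat_lit 172106) (nat_lit 10) (.e (nat_lit 434231) (nat_lit 23) (.e (nat_lit 532499) (nat_lit 1) (.e (nat_lit 65280) (nat_lit 221) .nil))))))) (.g (nat_lit 6) .nil .nil))) 
(.lf (nat_lit 30640) (.g (nat_lit 3196) (.e (nat_lit 1201) (nat_lit 88) (.e (nat_lit 65568) (nat_lit 2) (.e (nat_lit 90170) (nat_lit 13) (.e (nat_lit 172113) (nat_lit 10) (.e (nat_lit 434245) (nat_lit 28) (.e (nat_lit 573473) (nat_lit 12) (.e (nat_lit 57352) (nat_lit 0) (.e (nat_lit 7125) (nat_lit 382) .nil)))))))) (.g (nat_lit 5) .nil .nil))))) (.nd (nat_lit 4) (.nd (nat_lit 5) 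
(.lf (nat_lit 30600) (.g (nat_lit 2267) (.e (nat_lit 1201) (nat_lit 88) (.e (nat_lit 65568) (nat_lit 2) (.e (nat_lit 90170) (nat_lit 13) (.e (nat_lit 172077) (nat_lit 7) .nil)))) .nil)) 
(.lf (nat_lit 30632) (.g (nat_lit 5467) (.e (nat_lit 1201) (nat_lit 88) (.e (nat_lit 65568) (nat_lit 2) (.e (nat_lit 90170) (nat_lit 13) (.e (nat_lit 172113) (nat_lit 10) (.e (nat_lit 434242) (nat_lit 28) (.e (nat_lit 573474) (nat_lit 12) (.e (nat_lit 57347) (nat_lit 0) (.e (nat_lit 7125) (nat_lit 382) .nil)))))))) (.g (nat_lit 8) .nil .nil)))) (.nd (nat_lit 5) 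
(.lf (nat_lit 30616) (.g (nat_lit 4938) (.e (nat_lit 1201) (nat_lit 88) (.e (nat_lit 65568) (nat_lit 2) (.e (nat_lit 90170) (nat_lit 13) (.e (nat_lit 172106) (nat_lit 10) (.e (nat_lit 434244) (nat_lit 28) (.e (nat_lit 573473) (nat_lit 12) (.e (nat_lit 57347) (nat_lit 0) (.e (nat_lit 7125) (nat_lit 382) .nil)))))))) (.g (nat_lit 7) .nil .nil))) 
(.lf (nat_lit 30648) (.g (nat_lit 3298) (.e (nat_lit 1201) (nat_lit 88) (.e (nat_lit 65568) (nat_lit 2) (.e (nat_lit 90170) (nat_lit 13) (.e (nat_lit 172113) (nat_lit 10) (.e (nat_lit 434247) (nat_lit 28) (.e (nat_lit 573477) (nat_lit 12) (.e (nat_lit 57352) (nat_lit 0) (.e (nat_lit 7125) (nat_lit 382) .nil)))))))) (.g (nat_lit 5) .nil .nil)))))) (.nd (nat_lit 3) (.nd (nat_lit 4) (.nd (nat_lit 5) 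
(.lf (nat_lit 30596) (.g (nat_lit 2615) (.e (nat_lit 1201) (nat_lit 88) (.e (nat_lit 65567) (nat_lit 2) (.e (nat_lit 90170) (nat_lit 13) (.e (nat_lit 172113) (nat_lit 10) (.e (nat_lit 434248) (nat_lit 28) (.e (nat_lit 573475) (nat_lit 12) (.e (nat_lit 57348) (nat_lit 0) (.e (nat_lit 7124) (nat_lit 382) .nil)))))))) (.g (nat_lit 4) .nil .nil))) 
(.lf (nat_lit 30628) (.g (nat_lit 2205) (.e (nat_lit 1201) (nat_lit 88) (.e (nat_lit 65568) (nat_lit 2) (.e (nat_lit 90170) (nat_lit 13) (.e (nat_lit 172113) (nat_lit 10) (.e (nat_lit 434242) (nat_lit 28) (.e (nat_lit 573473) (nat_lit 12) (.e (nat_lit 57348) (nat_lit 0) (.e (nat_lit 7125) (nat_lit 382) .nil)))))))) (.g (nat_lit 4) .nil .nil)))) (.nd (nat_lit 5) 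
(.lf (nat_lit 30612) (.g (nat_lit 2006) (.e (nat_lit 1201) (nat_lit 88) (.e (nat_lit 65568) (nat_lit 2) (.e (nat_lit 90170) (nat_lit 13) (.e (nat_lit 172106) (nat_lit 10) (.e (nat_lit 434244) (nat_lit 28) (.e (nat_lit 573468) (nat_lit 10) (.e (nat_lit 8193) (nat_lit 0) (.e (nat_lit 4441) (nat_lit 263) .nil)))))))) (.g (nat_lit 4) .nil .nil))) 
(.lf (nat_lit 30644) (.g (nat_lit 5084) (.e (nat_lit 1201) (nat_lit 88) (.e (nat_lit 65568) (nat_lit 2) (.e (nat_lit 90170) (nat_lit 13) (.e (nat_lit 172113) (nat_lit 10) (.e (nat_lit 434245) (nat_lit 28) (.e (nat_lit 573474) (nat_lit 12) (.e (nat_lit 57348) (nat_lit 0) (.e (nat_lit 7124) (nat_lit 382) .nil)))))))) (.g (nat_lit 8) .nil .nil))))) (.nd (nat_lit 4) (.nd (nat_lit 5) 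
(.lf (nat_lit 30604) (.g (nat_lit 3775) (.e (nat_lit 1201) (nat_lit 88) (.e (nat_lit 65568) (nat_lit 2) (.e (nat_lit 90170) (nat_lit 13) (.e (nat_lit 172082) (nat_lit 7) (.e (nat_lit 409612) (nat_lit 10) (.e (nat_lit 604) (nat_lit 45) (.e (nat_lit 532501) (nat_lit 1) (.e (nat_lit 57829) (nat_lit 250) .nil)))))))) (.g (nat_lit 5) .nil .nil))) 
(.lf (nat_lit 30636) (.g (nat_lit 2101) (.e (nat_lit 1201) (nat_lit 88) (.e (nat_lit 65568) (nat_lit 2) (.e (nat_lit 90170) (nat_lit 13) (.e (nat_lit 172113) (nat_lit 10) (.e (nat_lit 434242) (nat_lit 28) (.e (nat_lit 573476) (nat_lit 12) (.e (nat_lit 57353) (nat_lit 0) (.e (nat_lit 7125) (nat_lit 382) .nil)))))))) (.g (nat_lit 4) .nil .nil)))) (.nd (nat_lit 5) 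
(.lf (nat_lit 30620) (.g (nat_lit 4474) (.e (nat_lit 1201) (nat_lit 88) (.e (nat_lit 65568) (nat_lit 2) (.e (nat_lit 90170) (nat_lit 13) (.e (nat_lit 172106) (nat_lit 10) (.e (nat_lit 434244) (nat_lit 28) (.e (nat_lit 573473) (nat_lit 12) (.e (nat_lit 57353) (nat_lit 0) (.e (nat_lit 7122) (nat_lit 382) .nil)))))))) (.g (nat_lit 6) .nil .nil))) 
(.lf (nat_lit 30652) (.g (nat_lit 2339) (.e (nat_lit 1201) (nat_lit 88) (.e (nat_lit 65568) (nat_lit 2) (.e (nat_lit 90170) (nat_lit 13) (.e (nat_lit 172113) (nat_lit 10) (.e (nat_lit 434247) (nat_lit 28) (.e (nat_lit 573478) (nat_lit 12) (.e (nat_lit 57344) (nat_lit 0) (.e (nat_lit 7125) (nat_lit 382) .nil)))))))) (.g (nat_lit 4) .nil .nil))))))) 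
(.nd (nat_lit 2) (.nd (nat_lit 3) (.nd (nat_lit 4) (.nd (nat_lit 5) 
(.lf (nat_lit 30594) (.g (nat_lit 2738) (.e (nat_lit 1201) (nat_lit 88) (.e (nat_lit 65567) (nat_lit 2) (.e (nat_lit 90170) (nat_lit 13) (.e (nat_lit 172113) (nat_lit 10) (.e (nat_lit 434248) (nat_lit 28) (.e (nat_lit 573473) (nat_lit 12) (.e (nat_lit 57353) (nat_lit 0) (.e (nat_lit 7125) (nat_lit 382) .nil)))))))) (.g (nat_lit 4) .nil .nil))) 
(.lf (nat_lit 30626) (.g (nat_lit 2042) (.e (nat_lit 1201) (nat_lit 88) (.e (nat_lit 65568) (nat_lit 2) (.e (nat_lit 90170) (nat_lit 13) (.e (nat_lit 172113) (nat_lit 10) (.e (nat_lit 434242) (nat_lit 28) (.e (nat_lit 573473) (nat_lit 12) (.e (nat_lit 57347) (nat_lit 0) (.e (nat_lit 7125) (nat_lit 382) .nil)))))))) (.g (nat_lit 4) .nil .nil)))) (.nd (nat_lit 5) 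
(.lf (nat_lit 30610) (.g (nat_lit 3048) (.e (nat_lit 1201) (nat_lit 88) (.e (nat_lit 65568) (nat_lit 2) (.e (nat_lit 90170) (nat_lit 13) (.e (nat_lit 172106) (nat_lit 10) (.e (nat_lit 434231) (nat_lit 23) (.e (nat_lit 540416) (nat_lit 18) (.e (nat_lit 164148) (nat_lit 152) .nil))))))) (.g (nat_lit 5) .nil .nil))) 
(.lf (nat_lit 30642) (.g (nat_lit 2484) (.e (nat_lit 1201) (nat_lit 88) (.e (nat_lit 65568) (nat_lit 2) (.e (nat_lit 90170) (nat_lit 13) (.e (nat_lit 172113) (nat_lit 10) (.e (nat_lit 434245) (nat_lit 28) (.e (nat_lit 573474) (nat_lit 12) (.e (nat_lit 57344) (nat_lit 0) (.e (nat_lit 7122) (nat_lit 382) .nil)))))))) (.g (nat_lit 4) .nil .nil))))) (.nd (nat_lit 4) (.nd (nat_lit 5) 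
(.lf (nat_lit 30602) (.g (nat_lit 3625) (.e (nat_lit 1201) (nat_lit 88) (.e (nat_lit 65568) (nat_lit 2) (.e (nat_lit 90170) (nat_lit 13) (.e (nat_lit 172079) (nat_lit 7) (.e (nat_lit 409611) (nat_lit 10) (.e (nat_lit 604) (nat_lit 45) (.e (nat_lit 532501) (nat_lit 1) (.e (nat_lit 57829) (nat_lit 250) .nil)))))))) (.g (nat_lit 7) .nil .nil))) 
(.lf (nat_lit 30634) (.g (nat_lit 4881) (.e (nat_lit 1201) (nat_lit 88) (.e (nat_lit 65568) (nat_lit 2) (.e (nat_lit 90170) (nat_lit 13) (.e (nat_lit 172113) (nat_lit 10) (.e (nat_lit 434242) (nat_lit 28) (.e (nat_lit 573474) (nat_lit 12) (.e (nat_lit 57348) (nat_lit 0) (.e (nat_lit 7124) (nat_lit 382) .nil)))))))) (.g (nat_lit 7) .nil .nil)))) (.nd (nat_lit 5) 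
(.lf (nat_lit 30618) (.g (nat_lit 5314) (.e (nat_lit 1201) (nat_lit 88) (.e (nat_lit 65568) (nat_lit 2) (.e (nat_lit 90170) (nat_lit 13) (.e (nat_lit 172106) (nat_lit 10) (.e (nat_lit 434244) (nat_lit 28) (.e (nat_lit 573473) (nat_lit 12) (.e (nat_lit 57348) (nat_lit 0) (.e (nat_lit 7124) (nat_lit 382) .nil)))))))) (.g (nat_lit 0) .nil .nil))) 
(.lf (nat_lit 30650) (.g (nat_lit 4564) (.e (nat_lit 1201) (nat_lit 88) (.e (nat_lit 65568) (nat_lit 2) (.e (nat_lit 90170) (nat_lit 13) (.e (nat_lit 172113) (nat_lit 10) (.e (nat_lit 434247) (nat_lit 28) (.e (nat_lit 573477) (nat_lit 12) (.e (nat_lit 57353) (nat_lit 0) (.e (nat_lit 7124) (nat_lit 382) .nil)))))))) (.g (nat_lit 0) .nil .nil)))))) (.nd (nat_lit 3) (.nd (nat_lit 4) (.nd (nat_lit 5) 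
(.lf (nat_lit 30598) (.g (nat_lit 2599) (.e (nat_lit 1201) (nat_lit 88) (.e (nat_lit 65567) (nat_lit 2) (.e (nat_lit 90170) (nat_lit 13) (.e (nat_lit 172113) (nat_lit 10) (.e (nat_lit 434248) (nat_lit 28) (.e (nat_lit 573475) (nat_lit 12) (.e (nat_lit 57351) (nat_lit 0) (.e (nat_lit 7124) (nat_lit 382) .nil)))))))) (.g (nat_lit 4) .nil .nil))) 
(.lf (nat_lit 30630) (.g (nat_lit 4030) (.e (nat_lit 1201) (nat_lit 88) (.e (nat_lit 65568) (nat_lit 2) (.e (nat_lit 90170) (nat_lit 13) (.e (nat_lit 172113) (nat_lit 10) (.e (nat_lit 434242) (nat_lit 28) (.e (nat_lit 573474) (nat_lit 12) (.e (nat_lit 57347) (nat_lit 0) (.e (nat_lit 7122) (nat_lit 382) .nil)))))))) (.g (nat_lit 6) .nil .nil)))) (.nd (nat_lit 5) 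
(.lf (nat_lit 30614) (.g (nat_lit 2422) (.e (nat_lit 1201) (nat_lit 88) (.e (nat_lit 65568) (nat_lit 2) (.e (nat_lit 90170) (nat_lit 13) (.e (nat_lit 172106) (nat_lit 10) (.e (nat_lit 434244) (nat_lit 28) (.e (nat_lit 573468) (nat_lit 10) (.e (nat_lit 8194) (nat_lit 0) (.e (nat_lit 4443) (nat_lit 263) .nil)))))))) (.g (nat_lit 5) .nil .nil))) 
(.lf (nat_lit 30646) (.g (nat_lit 3468) (.e (nat_lit 1201) (nat_lit 88) (.e (nat_lit 65568) (nat_lit 2) (.e (nat_lit 90170) (nat_lit 13) (.e (nat_lit 172113) (nat_lit 10) (.e (nat_lit 434247) (nat_lit 28) (.e (nat_lit 573477) (nat_lit 12) (.e (nat_lit 57351) (nat_lit 0) (.e (nat_lit 7124) (nat_lit 382) .nil)))))))) (.g (nat_lit 5) .nil .nil))))) (.nd (nat_lit 4) (.nd (nat_lit 5) 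
(.lf (nat_lit 30606) (.g (nat_lit 3254) (.e (nat_lit 1201) (nat_lit 88) (.e (nat_lit 65568) (nat_lit 2) (.e (nat_lit 90170) (nat_lit 13) (.e (nat_lit 172082) (nat_lit 7) (.e (nat_lit 409617) (nat_lit 10) (.e (nat_lit 604) (nat_lit 45) (.e (nat_lit 532501) (nat_lit 1) (.e (nat_lit 57830) (nat_lit 250) .nil)))))))) (.g (nat_lit 4) .nil .nil))) 
(.lf (nat_lit 30638) (.g (nat_lit 3975) (.e (nat_lit 1201) (nat_lit 88) (.e (nat_lit 65568) (nat_lit 2) (.e (nat_lit 90170) (nat_lit 13) (.e (nat_lit 172113) (nat_lit 10) (.e (nat_lit 434245) (nat_lit 28) (.e (nat_lit 573473) (nat_lit 12) (.e (nat_lit 57347) (nat_lit 0) (.e (nat_lit 7124) (nat_lit 382) .nil)))))))) (.g (nat_lit 6) .nil .nil)))) (.nd (nat_lit 5) 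
(.lf (nat_lit 30622) (.g (nat_lit 4135) (.e (nat_lit 1201) (nat_lit 88) (.e (nat_lit 65568) (nat_lit 2) (.e (nat_lit 90170) (nat_lit 13) (.e (nat_lit 172106) (nat_lit 10) (.e (nat_lit 434244) (nat_lit 28) (.e (nat_lit 573474) (nat_lit 12) (.e (nat_lit 57344) (nat_lit 0) (.e (nat_lit 7122) (nat_lit 382) .nil)))))))) (.g (nat_lit 6) .nil .nil))) 
(.lf (nat_lit 30654) (.g (nat_lit 3332) (.e (nat_lit 1201) (nat_lit 88) (.e (nat_lit 65568) (nat_lit 2) (.e (nat_lit 90170) (nat_lit 13) (.e (nat_lit 172113) (nat_lit 10) (.e (nat_lit 434247) (nat_lit 28) (.e (nat_lit 573478) (nat_lit 12) (.e (nat_lit 57353) (nat_lit 0) (.e (nat_lit 7122) (nat_lit 382) .nil)))))))) (.g (nat_lit 5) .nil .nil)))))))) 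
(.nd (nat_lit 1) (.nd (nat_lit 2) (.nd (nat_lit 3) (.nd (nat_lit 4) (.nd (nat_lit 5) 
(.lf (nat_lit 30593) (.g (nat_lit 2836) (.e (nat_lit 1201) (nat_lit 88) (.e (nat_lit 65567) (nat_lit 2) (.e (nat_lit 90170) (nat_lit 13) (.e (nat_lit 172113) (nat_lit 10) (.e (nat_lit 434248) (nat_lit 28) (.e (nat_lit 573473) (nat_lit 12) (.e (nat_lit 57348) (nat_lit 0) (.e (nat_lit 7125) (nat_lit 382) .nil)))))))) (.g (nat_lit 4) .nil .nil))) 
(.lf (nat_lit 30625) (.g (nat_lit 4459) (.e (nat_lit 1201) (nat_lit 88) (.e (nat_lit 65568) (nat_lit 2) (.e (nat_lit 90170) (nat_lit 13) (.e (nat_lit 172106) (nat_lit 10) (.e (nat_lit 434244) (nat_lit 28) (.e (nat_lit 573474) (nat_lit 12) (.e (nat_lit 57353) (nat_lit 0) (.e (nat_lit 7124) (nat_lit 382) .nil)))))))) (.g (nat_lit 6) .nil .nil)))) (.nd (nat_lit 5) 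
(.lf (nat_lit 30609) (.g (nat_lit 4301) (.e (nat_lit 1201) (nat_lit 88) (.e (nat_lit 65568) (nat_lit 2) (.e (nat_lit 90170) (nat_lit 13) (.e (nat_lit 172106) (nat_lit 10) (.e (nat_lit 434231) (nat_lit 23) (.e (nat_lit 532500) (nat_lit 1) (.e (nat_lit 65280) (nat_lit 221) .nil))))))) (.g (nat_lit 6) .nil .nil))) 
(.lf (nat_lit 30641) (.g (nat_lit 3636) (.e (nat_lit 1201) (nat_lit 88) (.e (nat_lit 65568) (nat_lit 2) (.e (nat_lit 90170) (nat_lit 13) (.e (nat_lit 172113) (nat_lit 10) (.e (nat_lit 434245) (nat_lit 28) (.e (nat_lit 573473) (nat_lit 12) (.e (nat_lit 57353) (nat_lit 0) (.e (nat_lit 7122) (nat_lit 382) .nil)))))))) (.g (nat_lit 6) .nil .nil))))) (.nd (nat_lit 4) (.nd (nat_lit 5) 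
(.lf (nat_lit 30601) (.g (nat_lit 2384) (.e (nat_lit 1201) (nat_lit 88) (.e (nat_lit 65568) (nat_lit 2) (.e (nat_lit 90170) (nat_lit 13) (.e (nat_lit 172079) (nat_lit 7) (.e (nat_lit 409611) (nat_lit 10) (.e (nat_lit 602) (nat_lit 45) (.e (nat_lit 532504) (nat_lit 1) (.e (nat_lit 57830) (nat_lit 250) .nil)))))))) (.g (nat_lit 4) .nil .nil))) 
(.lf (nat_lit 30633) (.g (nat_lit 4190) (.e (nat_lit 1201) (nat_lit 88) (.e (nat_lit 65568) (nat_lit 2) (.e (nat_lit 90170) (nat_lit 13) (.e (nat_lit 172113) (nat_lit 10) (.e (nat_lit 434242) (nat_lit 28) (.e (nat_lit 573474) (nat_lit 12) (.e (nat_lit 57348) (nat_lit 0) (.e (nat_lit 7122) (nat_lit 382) .nil)))))))) (.g (nat_lit 6) .nil .nil)))) (.nd (nat_lit 5) 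
(.lf (nat_lit 30617) (.g (nat_lit 4667) (.e (nat_lit 1201) (nat_lit 88) (.e (nat_lit 65568) (nat_lit 2) (.e (nat_lit 90170) (nat_lit 13) (.e (nat_lit 172106) (nat_lit 10) (.e (nat_lit 434244) (nat_lit 28) (.e (nat_lit 573473) (nat_lit 12) (.e (nat_lit 57348) (nat_lit 0) (.e (nat_lit 7122) (nat_lit 382) .nil)))))))) (.g (nat_lit 7) .nil .nil))) 
(.lf (nat_lit 30649) (.g (nat_lit 3704) (.e (nat_lit 1201) (nat_lit 88) (.e (nat_lit 65568) (nat_lit 2) (.e (nat_lit 90170) (nat_lit 13) (.e (nat_lit 172113) (nat_lit 10) (.e (nat_lit 434247) (nat_lit 28) (.e (nat_lit 573477) (nat_lit 12) (.e (nat_lit 57353) (nat_lit 0) (.e (nat_lit 7122) (nat_lit 382) .nil)))))))) (.g (nat_lit 6) .nil .nil)))))) (.nd (nat_lit 3) (.nd (nat_lit 4) (.nd (nat_lit 5) 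
(.lf (nat_lit 30597) (.g (nat_lit 2488) (.e (nat_lit 1201) (nat_lit 88) (.e (nat_lit 65567) (nat_lit 2) (.e (nat_lit 90170) (nat_lit 13) (.e (nat_lit 172113) (nat_lit 10) (.e (nat_lit 434248) (nat_lit 28) (.e (nat_lit 573475) (nat_lit 12) (.e (nat_lit 57351) (nat_lit 0) (.e (nat_lit 7122) (nat_lit 382) .nil)))))))) (.g (nat_lit 4) .nil .nil))) 
(.lf (nat_lit 30629) (.g (nat_lit 2178) (.e (nat_lit 1201) (nat_lit 88) (.e (nat_lit 65568) (nat_lit 2) (.e (nat_lit 90170) (nat_lit 13) (.e (nat_lit 172113) (nat_lit 10) (.e (nat_lit 434242) (nat_lit 28) (.e (nat_lit 573473) (nat_lit 12) (.e (nat_lit 57353) (nat_lit 0) (.e (nat_lit 7125) (nat_lit 382) .nil)))))))) (.g (nat_lit 4) .nil .nil)))) (.nd (nat_lit 5) 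
(.lf (nat_lit 30613) (.g (nat_lit 2492) (.e (nat_lit 1201) (nat_lit 88) (.e (nat_lit 65568) (nat_lit 2) (.e (nat_lit 90170) (nat_lit 13) (.e (nat_lit 172106) (nat_lit 10) (.e (nat_lit 434244) (nat_lit 28) (.e (nat_lit 573468) (nat_lit 10) (.e (nat_lit 8194) (nat_lit 0) (.e (nat_lit 4441) (nat_lit 263) .nil)))))))) (.g (nat_lit 5) .nil .nil))) 
(.lf (nat_lit 30645) (.g (nat_lit 4286) (.e (nat_lit 1201) (nat_lit 88) (.e (nat_lit 65568) (nat_lit 2) (.e (nat_lit 90170) (nat_lit 13) (.e (nat_lit 172113) (nat_lit 10) (.e (nat_lit 434245) (nat_lit 28) (.e (nat_lit 573474) (nat_lit 12) (.e (nat_lit 57353) (nat_lit 0) (.e (nat_lit 7125) (nat_lit 382) .nil)))))))) (.g (nat_lit 6) .nil .nil))))) (.nd (nat_lit 4) (.nd (nat_lit 5) 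
(.lf (nat_lit 30605) (.g (nat_lit 2787) (.e (nat_lit 1201) (nat_lit 88) (.e (nat_lit 65568) (nat_lit 2) (.e (nat_lit 90170) (nat_lit 13) (.e (nat_lit 172082) (nat_lit 7) (.e (nat_lit 409617) (nat_lit 10) .nil))))) .nil)) 
(.lf (nat_lit 30637) (.g (nat_lit 2099) (.e (nat_lit 1201) (nat_lit 88) (.e (nat_lit 65568) (nat_lit 2) (.e (nat_lit 90170) (nat_lit 13) (.e (nat_lit 172113) (nat_lit 10) (.e (nat_lit 434245) (nat_lit 28) .nil))))) .nil))) (.nd (nat_lit 5) 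
(.lf (nat_lit 30621) (.g (nat_lit 5244) (.e (nat_lit 1201) (nat_lit 88) (.e (nat_lit 65568) (nat_lit 2) (.e (nat_lit 90170) (nat_lit 13) (.e (nat_lit 172106) (nat_lit 10) (.e (nat_lit 434244) (nat_lit 28) (.e (nat_lit 573473) (nat_lit 12) (.e (nat_lit 57353) (nat_lit 0) (.e (nat_lit 7124) (nat_lit 382) .nil)))))))) (.g (nat_lit 0) .nil .nil))) 
(.lf (nat_lit 30653) (.g (nat_lit 4003) (.e (nat_lit 1201) (nat_lit 88) (.e (nat_lit 65568) (nat_lit 2) (.e (nat_lit 90170) (nat_lit 13) (.e (nat_lit 172113) (nat_lit 10) (.e (nat_lit 434247) (nat_lit 28) (.e (nat_lit 573478) (nat_lit 12) (.e (nat_lit 57352) (nat_lit 0) (.e (nat_lit 7122) (nat_lit 382) .nil)))))))) (.g (nat_lit 7) .nil .nil))))))) 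
(.nd (nat_lit 2) (.nd (nat_lit 3) (.nd (nat_lit 4) (.nd (nat_lit 5) 
(.lf (nat_lit 30595) (.g (nat_lit 3249) (.e (nat_lit 1201) (nat_lit 88) (.e (nat_lit 65567) (nat_lit 2) (.e (nat_lit 90170) (nat_lit 13) (.e (nat_lit 172113) (nat_lit 10) (.e (nat_lit 434248) (nat_lit 28) (.e (nat_lit 573475) (nat_lit 12) (.e (nat_lit 57347) (nat_lit 0) (.e (nat_lit 7124) (nat_lit 382) .nil)))))))) (.g (nat_lit 5) .nil .nil))) 
(.lf (nat_lit 30627) (.g (nat_lit 1949) (.e (nat_lit 1201) (nat_lit 88) (.e (nat_lit 65568) (nat_lit 2) (.e (nat_lit 90170) (nat_lit 13) (.e (nat_lit 172113) (nat_lit 10) (.e (nat_lit 434242) (nat_lit 28) (.e (nat_lit 573473) (nat_lit 12) (.e (nat_lit 57348) (nat_lit 0) (.e (nat_lit 7124) (nat_lit 382) .nil)))))))) (.g (nat_lit 4) .nil .nil)))) (.nd (nat_lit 5) 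
(.lf (nat_lit 30611) (.g (nat_lit 2893) (.e (nat_lit 1201) (nat_lit 88) (.e (nat_lit 65568) (nat_lit 2) (.e (nat_lit 90170) (nat_lit 13) (.e (nat_lit 172106) (nat_lit 10) (.e (nat_lit 434231) (nat_lit 23) (.e (nat_lit 540416) (nat_lit 18) (.e (nat_lit 164155) (nat_lit 152) .nil))))))) (.g (nat_lit 5) .nil .nil))) 
(.lf (nat_lit 30643) (.g (nat_lit 2454) (.e (nat_lit 1201) (nat_lit 88) (.e (nat_lit 65568) (nat_lit 2) (.e (nat_lit 90170) (nat_lit 13) (.e (nat_lit 172113) (nat_lit 10) (.e (nat_lit 434245) (nat_lit 28) (.e (nat_lit 573474) (nat_lit 12) (.e (nat_lit 57344) (nat_lit 0) (.e (nat_lit 7125) (nat_lit 382) .nil)))))))) (.g (nat_lit 4) .nil .nil))))) (.nd (nat_lit 4) (.nd (nat_lit 5) 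
(.lf (nat_lit 30603) (.g (nat_lit 2129) (.e (nat_lit 1201) (nat_lit 88) (.e (nat_lit 65568) (nat_lit 2) (.e (nat_lit 90170) (nat_lit 13) (.e (nat_lit 172082) (nat_lit 7) .nil)))) .nil)) 
(.lf (nat_lit 30635) (.g (nat_lit 5295) (.e (nat_lit 1201) (nat_lit 88) (.e (nat_lit 65568) (nat_lit 2) (.e (nat_lit 90170) (nat_lit 13) (.e (nat_lit 172113) (nat_lit 10) (.e (nat_lit 434242) (nat_lit 28) (.e (nat_lit 573474) (nat_lit 12) (.e (nat_lit 57348) (nat_lit 0) (.e (nat_lit 7125) (nat_lit 382) .nil)))))))) (.g (nat_lit 8) .nil .nil)))) (.nd (nat_lit 5) 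
(.lf (nat_lit 30619) (.g (nat_lit 5571) (.e (nat_lit 1201) (nat_lit 88) (.e (nat_lit 65568) (nat_lit 2) (.e (nat_lit 90170) (nat_lit 13) (.e (nat_lit 172106) (nat_lit 10) (.e (nat_lit 434244) (nat_lit 28) (.e (nat_lit 573473) (nat_lit 12) (.e (nat_lit 57348) (nat_lit 0) (.e (nat_lit 7125) (nat_lit 382) .nil)))))))) (.g (nat_lit 0) .nil .nil))) 
(.lf (nat_lit 30651) (.g (nat_lit 2354) (.e (nat_lit 1201) (nat_lit 88) (.e (nat_lit 65568) (nat_lit 2) (.e (nat_lit 90170) (nat_lit 13) (.e (nat_lit 172113) (nat_lit 10) (.e (nat_lit 434247) (nat_lit 28) (.e (nat_lit 573478) (nat_lit 12) (.e (nat_lit 57344) (nat_lit 0) (.e (nat_lit 7122) (nat_lit 382) .nil)))))))) (.g (nat_lit 4) .nil .nil)))))) (.nd (nat_lit 3) (.nd (nat_lit 4) (.nd (nat_lit 5) 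
(.lf (nat_lit 30599) (.g (nat_lit 2652) (.e (nat_lit 1201) (nat_lit 88) (.e (nat_lit 65567) (nat_lit 2) (.e (nat_lit 90170) (nat_lit 13) (.e (nat_lit 172113) (nat_lit 10) (.e (nat_lit 434248) (nat_lit 28) (.e (nat_lit 573475) (nat_lit 12) (.e (nat_lit 57353) (nat_lit 0) (.e (nat_lit 7125) (nat_lit 382) .nil)))))))) (.g (nat_lit 4) .nil .nil))) 
(.lf (nat_lit 30631) (.g (nat_lit 4941) (.e (nat_lit 1201) (nat_lit 88) (.e (nat_lit 65568) (nat_lit 2) (.e (nat_lit 90170) (nat_lit 13) (.e (nat_lit 172113) (nat_lit 10) (.e (nat_lit 434242) (nat_lit 28) (.e (nat_lit 573474) (nat_lit 12) (.e (nat_lit 57347) (nat_lit 0) (.e (nat_lit 7124) (nat_lit 382) .nil)))))))) (.g (nat_lit 7) .nil .nil)))) (.nd (nat_lit 5) 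
(.lf (nat_lit 30615) (.g (nat_lit 4324) (.e (nat_lit 1201) (nat_lit 88) (.e (nat_lit 65568) (nat_lit 2) (.e (nat_lit 90170) (nat_lit 13) (.e (nat_lit 172106) (nat_lit 10) (.e (nat_lit 434244) (nat_lit 28) (.e (nat_lit 573473) (nat_lit 12) (.e (nat_lit 57347) (nat_lit 0) (.e (nat_lit 7124) (nat_lit 382) .nil)))))))) (.g (nat_lit 6) .nil .nil))) 
(.lf (nat_lit 30647) (.g (nat_lit 3770) (.e (nat_lit 1201) (nat_lit 88) (.e (nat_lit 65568) (nat_lit 2) (.e (nat_lit 90170) (nat_lit 13) (.e (nat_lit 172113) (nat_lit 10) (.e (nat_lit 434247) (nat_lit 28) (.e (nat_lit 573477) (nat_lit 12) (.e (nat_lit 57351) (nat_lit 0) (.e (nat_lit 7125) (nat_lit 382) .nil)))))))) (.g (nat_lit 6) .nil .nil))))) (.nd (nat_lit 4) (.nd (nat_lit 5) 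
(.lf (nat_lit 30607) (.g (nat_lit 3145) (.e (nat_lit 1201) (nat_lit 88) (.e (nat_lit 65568) (nat_lit 2) (.e (nat_lit 90170) (nat_lit 13) (.e (nat_lit 172082) (nat_lit 7) (.e (nat_lit 409617) (nat_lit 10) (.e (nat_lit 604) (nat_lit 45) (.e (nat_lit 532504) (nat_lit 1) (.e (nat_lit 57829) (nat_lit 250) .nil)))))))) (.g (nat_lit 4) .nil .nil))) 
(.lf (nat_lit 30639) (.g (nat_lit 4590) (.e (nat_lit 1201) (nat_lit 88) (.e (nat_lit 65568) (nat_lit 2) (.e (nat_lit 90170) (nat_lit 13) (.e (nat_lit 172113) (nat_lit 10) (.e (nat_lit 434245) (nat_lit 28) (.e (nat_lit 573473) (nat_lit 12) (.e (nat_lit 57347) (nat_lit 0) (.e (nat_lit 7125) (nat_lit 382) .nil)))))))) (.g (nat_lit 7) .nil .nil)))) (.nd (nat_lit 5) 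
(.lf (nat_lit 30623) (.g (nat_lit 4105) (.e (nat_lit 1201) (nat_lit 88) (.e (nat_lit 65568) (nat_lit 2) (.e (nat_lit 90170) (nat_lit 13) (.e (nat_lit 172106) (nat_lit 10) (.e (nat_lit 434244) (nat_lit 28) (.e (nat_lit 573474) (nat_lit 12) (.e (nat_lit 57344) (nat_lit 0) (.e (nat_lit 7125) (nat_lit 382) .nil)))))))) (.g (nat_lit 6) .nil .nil))) 
(.lf (nat_lit 30655) (.g (nat_lit 2082) (.e (nat_lit 1201) (nat_lit 88) (.e (nat_lit 65568) (nat_lit 2) (.e (nat_lit 90170) (nat_lit 13) (.e (nat_lit 172113) (nat_lit 10) (.e (nat_lit 434248) (nat_lit 28) .nil))))) .nil))))))))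

noncomputable def tv427 : DT := (.nd (nat_lit 0) (.nd (nat_lit 1) (.nd (nat_lit 2) (.nd (nat_lit 3) (.nd (nat_lit 4) (.nd (nat_lit 5) 
(.lf (nat_lit 30656) (.g (nat_lit 4040) (.e (nat_lit 1201) (nat_lit 88) (.e (nat_lit 65568) (nat_lit 2) (.e (nat_lit 90170) (nat_lit 13) (.e (nat_lit 172113) (nat_lit 10) (.e (nat_lit 434248) (nat_lit 28) (.e (nat_lit 573473) (nat_lit 12) (.e (nat_lit 57347) (nat_lit 0) (.e (nat_lit 7124) (nat_lit 382) .nil)))))))) (.g (nat_lit 6) .nil .nil))) 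
(.lf (nat_lit 30688) (.g (nat_lit 2195) (.e (nat_lit 1201) (nat_lit 88) (.e (nat_lit 65569) (nat_lit 3) (.e (nat_lit 98359) (nat_lit 26) (.e (nat_lit 426286) (nat_lit 10) (.e (nat_lit 434245) (nat_lit 28) (.e (nat_lit 573474) (nat_lit 12) (.e (nat_lit 57348) (nat_lit 0) (.e (nat_lit 7119) (nat_lit 382) .nil)))))))) (.g (nat_lit 4) .nil .nil)))) (.nd (nat_lit 5) 
(.lf (nat_lit 30672) (.g (nat_lit 3575) (.e (nat_lit 1201) (nat_lit 88) (.e (nat_lit 65569) (nat_lit 3) (.e (nat_lit 98356) (nat_lit 26) (.e (nat_lit 426422) (nat_lit 16) (.e (nat_lit 57688) (nat_lit 156) (.e (nat_lit 163875) (nat_lit 3) (.e (nat_lit 204830) (nat_lit 18) (.e (nat_lit 57830) (nat_lit 250) .nil)))))))) (.g (nat_lit 5) .nil .nil))) 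
(.lf (nat_lit 30704) (.g (nat_lit 3004) (.e (nat_lit 1201) (nat_lit 88) (.e (nat_lit 65569) (nat_lit 3) (.e (nat_lit 98359) (nat_lit 26) (.e (nat_lit 426286) (nat_lit 10) (.e (nat_lit 434248) (nat_lit 28) (.e (nat_lit 573473) (nat_lit 12) (.e (nat_lit 57352) (nat_lit 0) (.e (nat_lit 7125) (nat_lit 382) .nil)))))))) (.g (nat_lit 5) .nil .nil))))) (.nd (nat_lit 4) (.nd (nat_lit 5) 
(.lf (nat_lit 30664) (.g (nat_lit 3373) (.e (nat_lit 1201) (nat_lit 88) (.e (nat_lit 65568) (nat_lit 2) (.e (nat_lit 90170) (nat_lit 13) (.e (nat_lit 172113) (nat_lit 10) (.e (nat_lit 434248) (nat_lit 28) (.e (nat_lit 573475) (nat_lit 12) (.e (nat_lit 57344) (nat_lit 0) (.e (nat_lit 7125) (nat_lit 382) .nil)))))))) (.g (nat_lit 5) .nil .nil))) 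
(.lf (nat_lit 30696) (.g (nat_lit 2761) (.e (nat_lit 1201) (nat_lit 88) (.e (nat_lit 65569) (nat_lit 3) (.e (nat_lit 98359) (nat_lit 26) (.e (nat_lit 426286) (nat_lit 10) (.e (nat_lit 434247) (nat_lit 28) (.e (nat_lit 573477) (nat_lit 12) (.e (nat_lit 57352) (nat_lit 0) (.e (nat_lit 7125) (nat_lit 382) .nil)))))))) (.g (nat_lit 5) .nil .nil)))) (.nd (nat_lit 5) 
(.lf (nat_lit 30680) (.g (nat_lit 4270) (.e (nat_lit 1201) (nat_lit 88) (.e (nat_lit 65569) (nat_lit 3) (.e (nat_lit 98359) (nat_lit 26) (.e (nat_lit 426286) (nat_lit 10) (.e (nat_lit 434245) (nat_lit 28) (.e (nat_lit 573473) (nat_lit 12) (.e (nat_lit 57347) (nat_lit 0) (.e (nat_lit 7125) (nat_lit 382) .nil)))))))) (.g (nat_lit 7) .nil .nil))) 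
(.lf (nat_lit 30712) (.g (nat_lit 4434) (.e (nat_lit 1201) (nat_lit 88) (.e (nat_lit 65569) (nat_lit 3) (.e (nat_lit 98359) (nat_lit 26) (.e (nat_lit 426286) (nat_lit 10) (.e (nat_lit 434248) (nat_lit 28) (.e (nat_lit 573475) (nat_lit 12) (.e (nat_lit 57347) (nat_lit 0) (.e (nat_lit 7122) (nat_lit 382) .nil)))))))) (.g (nat_lit 7) .nil .nil)))))) (.nd (nat_lit 3) (.nd (nat_lit 4) (.nd (nat_lit 5) 
(.lf (nat_lit 30660) (.g (nat_lit 2103) (.e (nat_lit 1201) (nat_lit 88) (.e (nat_lit 65568) (nat_lit 2) (.e (nat_lit 90170) (nat_lit 13) (.e (nat_lit 172113) (nat_lit 10) (.e (nat_lit 434248) (nat_lit 28) (.e (nat_lit 573473) (nat_lit 12) (.e (nat_lit 57352) (nat_lit 0) (.e (nat_lit 7124) (nat_lit 382) .nil)))))))) (.g (nat_lit 4) .nil .nil))) 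
(.lf (nat_lit 30692) (.g (nat_lit 1718) (.e (nat_lit 1201) (nat_lit 88) (.e (nat_lit 65569) (nat_lit 3) (.e (nat_lit 98359) (nat_lit 26) (.e (nat_lit 426286) (nat_lit 10) (.e (nat_lit 434247) (nat_lit 28) .nil))))) .nil))) (.nd (nat_lit 5) 
(.lf (nat_lit 30676) (.g (nat_lit 5019) (.e (nat_lit 1201) (nat_lit 88) (.e (nat_lit 65569) (nat_lit 3) (.e (nat_lit 98356) (nat_lit 26) (.e (nat_lit 426422) (nat_lit 16) (.e (nat_lit 57692) (nat_lit 156) (.e (nat_lit 163875) (nat_lit 3) (.e (nat_lit 204830) (nat_lit 18) (.e (nat_lit 57830) (nat_lit 250) .nil)))))))) (.g (nat_lit 7) .nil .nil))) 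
(.lf (nat_lit 30708) (.g (nat_lit 3059) (.e (nat_lit 1201) (nat_lit 88) (.e (nat_lit 65569) (nat_lit 3) (.e (nat_lit 98359) (nat_lit 26) (.e (nat_lit 426286) (nat_lit 10) (.e (nat_lit 434248) (nat_lit 28) (.e (nat_lit 573475) (nat_lit 12) (.e (nat_lit 57344) (nat_lit 0) (.e (nat_lit 7125) (nat_lit 382) .nil)))))))) (.g (nat_lit 5) .nil .nil))))) (.nd (nat_lit 4) (.nd (nat_lit 5) 
(.lf (nat_lit 30668) (.g (nat_lit 5091) (.e (nat_lit 1201) (nat_lit 88) (.e (nat_lit 65568) (nat_lit 2) (.e (nat_lit 90170) (nat_lit 13) (.e (nat_lit 172113) (nat_lit 10) (.e (nat_lit 434248) (nat_lit 28) (.e (nat_lit 573475) (nat_lit 12) (.e (nat_lit 57348) (nat_lit 0) (.e (nat_lit 7125) (nat_lit 382) .nil)))))))) (.g (nat_lit 0) .nil .nil))) 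
(.lf (nat_lit 30700) (.g (nat_lit 2148) (.e (nat_lit 1201) (nat_lit 88) (.e (nat_lit 65569) (nat_lit 3) (.e (nat_lit 98359) (nat_lit 26) (.e (nat_lit 426286) (nat_lit 10) (.e (nat_lit 434247) (nat_lit 28) (.e (nat_lit 573478) (nat_lit 12) (.e (nat_lit 57352) (nat_lit 0) (.e (nat_lit 7125) (nat_lit 382) .nil)))))))) (.g (nat_lit 4) .nil .nil)))) (.nd (nat_lit 5) 
(.lf (nat_lit 30684) (.g (nat_lit 2150) (.e (nat_lit 1201) (nat_lit 88) (.e (nat_lit 65569) (nat_lit 3) (.e (nat_lit 98359) (nat_lit 26) (.e (nat_lit 426286) (nat_lit 10) (.e (nat_lit 434245) (nat_lit 28) (.e (nat_lit 573474) (nat_lit 12) (.e (nat_lit 57344) (nat_lit 0) (.e (nat_lit 7125) (nat_lit 382) .nil)))))))) (.g (nat_lit 4) .nil .nil))) 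
(.lf (nat_lit 30716) (.g (nat_lit 4018) (.e (nat_lit 1201) (nat_lit 88) (.e (nat_lit 65569) (nat_lit 3) (.e (nat_lit 98359) (nat_lit 26) (.e (nat_lit 426286) (nat_lit 10) (.e (nat_lit 434248) (nat_lit 28) (.e (nat_lit 573475) (nat_lit 12) (.e (nat_lit 57353) (nat_lit 0) (.e (nat_lit 7124) (nat_lit 382) .nil)))))))) (.g (nat_lit 7) .nil .nil))))))) 
(.nd (nat_lit 2) (.nd (nat_lit 3) (.nd (nat_lit 4) (.nd (nat_lit 5) 
(.lf (nat_lit 30658) (.g (nat_lit 4610) (.e (nat_lit 1201) (nat_lit 88) (.e (nat_lit 65568) (nat_lit 2) (.e (nat_lit 90170) (nat_lit 13) (.e (nat_lit 172113) (nat_lit 10) (.e (nat_lit 434248) (nat_lit 28) (.e (nat_lit 573473) (nat_lit 12) (.e (nat_lit 57348) (nat_lit 0) (.e (nat_lit 7124) (nat_lit 382) .nil)))))))) (.g (nat_lit 0) .nil .nil))) 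
(.lf (nat_lit 30690) (.g (nat_lit 4860) (.e (nat_lit 1201) (nat_lit 88) (.e (nat_lit 65569) (nat_lit 3) (.e (nat_lit 98359) (nat_lit 26) (.e (nat_lit 426286) (nat_lit 10) (.e (nat_lit 434245) (nat_lit 28) (.e (nat_lit 573474) (nat_lit 12) (.e (nat_lit 57348) (nat_lit 0) (.e (nat_lit 7124) (nat_lit 382) .nil)))))))) (.g (nat_lit 8) .nil .nil)))) (.nd (nat_lit 5) 
(.lf (nat_lit 30674) (.g (nat_lit 4869) (.e (nat_lit 1201) (nat_lit 88) (.e (nat_lit 65569) (nat_lit 3) (.e (nat_lit 98356) (nat_lit 26) (.e (nat_lit 426422) (nat_lit 16) (.e (nat_lit 57692) (nat_lit 156) (.e (nat_lit 163874) (nat_lit 3) (.e (nat_lit 204830) (nat_lit 18) (.e (nat_lit 57830) (nat_lit 250) .nil)))))))) (.g (nat_lit 7) .nil .nil))) 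
(.lf (nat_lit 30706) (.g (nat_lit 3189) (.e (nat_lit 1201) (nat_lit 88) (.e (nat_lit 65569) (nat_lit 3) (.e (nat_lit 98359) (nat_lit 26) (.e (nat_lit 426286) (nat_lit 10) (.e (nat_lit 434248) (nat_lit 28) (.e (nat_lit 573475) (nat_lit 12) (.e (nat_lit 57344) (nat_lit 0) (.e (nat_lit 7122) (nat_lit 382) .nil)))))))) (.g (nat_lit 5) .nil .nil))))) (.nd (nat_lit 4) (.nd (nat_lit 5) 
(.lf (nat_lit 30666) (.g (nat_lit 2403) (.e (nat_lit 1201) (nat_lit 88) (.e (nat_lit 65568) (nat_lit 2) (.e (nat_lit 90170) (nat_lit 13) (.e (nat_lit 172113) (nat_lit 10) (.e (nat_lit 434248) (nat_lit 28) (.e (nat_lit 573475) (nat_lit 12) (.e (nat_lit 57345) (nat_lit 0) (.e (nat_lit 7124) (nat_lit 382) .nil)))))))) (.g (nat_lit 4) .nil .nil))) 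
(.lf (nat_lit 30698) (.g (nat_lit 1973) (.e (nat_lit 1201) (nat_lit 88) (.e (nat_lit 65569) (nat_lit 3) (.e (nat_lit 98359) (nat_lit 26) (.e (nat_lit 426286) (nat_lit 10) (.e (nat_lit 434247) (nat_lit 28) (.e (nat_lit 573478) (nat_lit 12) (.e (nat_lit 57344) (nat_lit 0) (.e (nat_lit 7122) (nat_lit 382) .nil)))))))) (.g (nat_lit 4) .nil .nil)))) (.nd (nat_lit 5) 
(.lf (nat_lit 30682) (.g (nat_lit 3460) (.e (nat_lit 1201) (nat_lit 88) (.e (nat_lit 65569) (nat_lit 3) (.e (nat_lit 98359) (nat_lit 26) (.e (nat_lit 426286) (nat_lit 10) (.e (nat_lit 434245) (nat_lit 28) (.e (nat_lit 573473) (nat_lit 12) (.e (nat_lit 57353) (nat_lit 0) (.e (nat_lit 7122) (nat_lit 382) .nil)))))))) (.g (nat_lit 6) .nil .nil))) 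
(.lf (nat_lit 30714) (.g (nat_lit 4469) (.e (nat_lit 1201) (nat_lit 88) (.e (nat_lit 65569) (nat_lit 3) (.e (nat_lit 98359) (nat_lit 26) (.e (nat_lit 426286) (nat_lit 10) (.e (nat_lit 434248) (nat_lit 28) (.e (nat_lit 573475) (nat_lit 12) (.e (nat_lit 57348) (nat_lit 0) (.e (nat_lit 7124) (nat_lit 382) .nil)))))))) (.g (nat_lit 7) .nil .nil)))))) (.nd (nat_lit 3) (.nd (nat_lit 4) (.nd (nat_lit 5) 
(.lf (nat_lit 30662) (.g (nat_lit 3756) (.e (nat_lit 1201) (nat_lit 88) (.e (nat_lit 65568) (nat_lit 2) (.e (nat_lit 90170) (nat_lit 13) (.e (nat_lit 172113) (nat_lit 10) (.e (nat_lit 434248) (nat_lit 28) (.e (nat_lit 573473) (nat_lit 12) (.e (nat_lit 57353) (nat_lit 0) (.e (nat_lit 7122) (nat_lit 382) .nil)))))))) (.g (nat_lit 6) .nil .nil))) 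
(.lf (nat_lit 30694) (.g (nat_lit 2973) (.e (nat_lit 1201) (nat_lit 88) (.e (nat_lit 65569) (nat_lit 3) (.e (nat_lit 98359) (nat_lit 26) (.e (nat_lit 426286) (nat_lit 10) (.e (nat_lit 434247) (nat_lit 28) (.e (nat_lit 573477) (nat_lit 12) (.e (nat_lit 57351) (nat_lit 0) (.e (nat_lit 7124) (nat_lit 382) .nil)))))))) (.g (nat_lit 5) .nil .nil)))) (.nd (nat_lit 5) 
(.lf (nat_lit 30678) (.g (nat_lit 4167) (.e (nat_lit 1201) (nat_lit 88) (.e (nat_lit 65569) (nat_lit 3) (.e (nat_lit 98359) (nat_lit 26) (.e (nat_lit 426286) (nat_lit 10) (.e (nat_lit 434242) (nat_lit 28) (.e (nat_lit 573474) (nat_lit 12) (.e (nat_lit 57347) (nat_lit 0) (.e (nat_lit 7125) (nat_lit 382) .nil)))))))) (.g (nat_lit 6) .nil .nil))) 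
(.lf (nat_lit 30710) (.g (nat_lit 2276) (.e (nat_lit 1201) (nat_lit 88) (.e (nat_lit 65569) (nat_lit 3) (.e (nat_lit 98359) (nat_lit 26) (.e (nat_lit 426286) (nat_lit 10) (.e (nat_lit 434248) (nat_lit 28) (.e (nat_lit 573475) (nat_lit 12) (.e (nat_lit 57345) (nat_lit 0) (.e (nat_lit 7124) (nat_lit 382) .nil)))))))) (.g (nat_lit 4) .nil .nil))))) (.nd (nat_lit 4) (.nd (nat_lit 5) 
(.lf (nat_lit 30670) (.g (nat_lit 2273) (.e (nat_lit 1201) (nat_lit 88) (.e (nat_lit 65568) (nat_lit 2) (.e (nat_lit 90170) (nat_lit 13) (.e (nat_lit 172113) (nat_lit 10) (.e (nat_lit 434248) (nat_lit 28) (.e (nat_lit 573476) (nat_lit 12) (.e (nat_lit 57353) (nat_lit 0) (.e (nat_lit 7124) (nat_lit 382) .nil)))))))) (.g (nat_lit 4) .nil .nil))) 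
(.lf (nat_lit 30702) (.g (nat_lit 3758) (.e (nat_lit 1201) (nat_lit 88) (.e (nat_lit 65569) (nat_lit 3) (.e (nat_lit 98359) (nat_lit 26) (.e (nat_lit 426286) (nat_lit 10) (.e (nat_lit 434248) (nat_lit 28) (.e (nat_lit 573473) (nat_lit 12) (.e (nat_lit 57347) (nat_lit 0) (.e (nat_lit 7124) (nat_lit 382) .nil)))))))) (.g (nat_lit 6) .nil .nil)))) (.nd (nat_lit 5) 
(.lf (nat_lit 30686) (.g (nat_lit 2129) (.e (nat_lit 1201) (nat_lit 88) (.e (nat_lit 65569) (nat_lit 3) (.e (nat_lit 98359) (nat_lit 26) (.e (nat_lit 426286) (nat_lit 10) (.e (nat_lit 434245) (nat_lit 28) (.e (nat_lit 573474) (nat_lit 12) (.e (nat_lit 57347) (nat_lit 0) (.e (nat_lit 7119) (nat_lit 382) .nil)))))))) (.g (nat_lit 4) .nil .nil))) 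
(.lf (nat_lit 30718) (.g (nat_lit 2102) (.e (nat_lit 1201) (nat_lit 88) (.e (nat_lit 65569) (nat_lit 3) (.e (nat_lit 98372) (nat_lit 29) (.e (nat_lit 450579) (nat_lit 5) (.e (nat_lit 532503) (nat_lit 1) (.e (nat_lit 65280) (nat_lit 221) .nil)))))) (.g (nat_lit 4) .nil .nil)))))))) (.nd (nat_lit 1) (.nd (nat_lit 2) (.nd (nat_lit 3) (.nd (nat_lit 4) (.nd (nat_lit 5) 
(.lf (nat_lit 30657) (.g (nat_lit 4655) (.e (nat_lit 1201) (nat_lit 88) (.e (nat_lit 65568) (nat_lit 2) (.e (nat_lit 90170) (nat_lit 13) (.e (nat_lit 172113) (nat_lit 10) (.e (nat_lit 434248) (nat_lit 28) (.e (nat_lit 573473) (nat_lit 12) (.e (nat_lit 57347) (nat_lit 0) (.e (nat_lit 7125) (nat_lit 382) .nil)))))))) (.g (nat_lit 7) .nil .nil))) 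
(.lf (nat_lit 30689) (.g (nat_lit 4259) (.e (nat_lit 1201) (nat_lit 88) (.e (nat_lit 65569) (nat_lit 3) (.e (nat_lit 98359) (nat_lit 26) (.e (nat_lit 426286) (nat_lit 10) (.e (nat_lit 434245) (nat_lit 28) (.e (nat_lit 573474) (nat_lit 12) (.e (nat_lit 57348) (nat_lit 0) (.e (nat_lit 7122) (nat_lit 382) .nil)))))))) (.g (nat_lit 7) .nil .nil)))) (.nd (nat_lit 5) 
(.lf (nat_lit 30673) (.g (nat_lit 4433) (.e (nat_lit 1201) (nat_lit 88) (.e (nat_lit 65569) (nat_lit 3) (.e (nat_lit 98356) (nat_lit 26) (.e (nat_lit 426422) (nat_lit 16) (.e (nat_lit 57691) (nat_lit 156) (.e (nat_lit 163875) (nat_lit 3) (.e (nat_lit 204830) (nat_lit 18) (.e (nat_lit 57830) (nat_lit 250) .nil)))))))) (.g (nat_lit 6) .nil .nil))) 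
(.lf (nat_lit 30705) (.g (nat_lit 3564) (.e (nat_lit 1201) (nat_lit 88) (.e (nat_lit 65569) (nat_lit 3) (.e (nat_lit 98359) (nat_lit 26) (.e (nat_lit 426286) (nat_lit 10) (.e (nat_lit 434248) (nat_lit 28) (.e (nat_lit 573473) (nat_lit 12) (.e (nat_lit 57353) (nat_lit 0) (.e (nat_lit 7122) (nat_lit 382) .nil)))))))) (.g (nat_lit 6) .nil .nil))))) (.nd (nat_lit 4) (.nd (nat_lit 5) 
(.lf (nat_lit 30665) (.g (nat_lit 3231) (.e (nat_lit 1201) (nat_lit 88) (.e (nat_lit 65568) (nat_lit 2) (.e (nat_lit 90170) (nat_lit 13) (.e (nat_lit 172113) (nat_lit 10) (.e (nat_lit 434248) (nat_lit 28) (.e (nat_lit 573475) (nat_lit 12) (.e (nat_lit 57345) (nat_lit 0) (.e (nat_lit 7122) (nat_lit 382) .nil)))))))) (.g (nat_lit 5) .nil .nil))) 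
(.lf (nat_lit 30697) (.g (nat_lit 3282) (.e (nat_lit 1201) (nat_lit 88) (.e (nat_lit 65569) (nat_lit 3) (.e (nat_lit 98359) (nat_lit 26) (.e (nat_lit 426286) (nat_lit 10) (.e (nat_lit 434247) (nat_lit 28) (.e (nat_lit 573477) (nat_lit 12) (.e (nat_lit 57353) (nat_lit 0) (.e (nat_lit 7122) (nat_lit 382) .nil)))))))) (.g (nat_lit 6) .nil .nil)))) (.nd (nat_lit 5) 
(.lf (nat_lit 30681) (.g (nat_lit 2905) (.e (nat_lit 1201) (nat_lit 88) (.e (nat_lit 65569) (nat_lit 3) (.e (nat_lit 98359) (nat_lit 26) (.e (nat_lit 426286) (nat_lit 10) (.e (nat_lit 434245) (nat_lit 28) (.e (nat_lit 573473) (nat_lit 12) (.e (nat_lit 57352) (nat_lit 0) (.e (nat_lit 7125) (nat_lit 382) .nil)))))))) (.g (nat_lit 5) .nil .nil))) 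
(.lf (nat_lit 30713) (.g (nat_lit 3869) (.e (nat_lit 1201) (nat_lit 88) (.e (nat_lit 65569) (nat_lit 3) (.e (nat_lit 98359) (nat_lit 26) (.e (nat_lit 426286) (nat_lit 10) (.e (nat_lit 434248) (nat_lit 28) (.e (nat_lit 573475) (nat_lit 12) (.e (nat_lit 57348) (nat_lit 0) (.e (nat_lit 7122) (nat_lit 382) .nil)))))))) (.g (nat_lit 6) .nil .nil)))))) (.nd (nat_lit 3) (.nd (nat_lit 4) (.nd (nat_lit 5) 
(.lf (nat_lit 30661) (.g (nat_lit 3312) (.e (nat_lit 1201) (nat_lit 88) (.e (nat_lit 65568) (nat_lit 2) (.e (nat_lit 90170) (nat_lit 13) (.e (nat_lit 172113) (nat_lit 10) (.e (nat_lit 434248) (nat_lit 28) (.e (nat_lit 573473) (nat_lit 12) (.e (nat_lit 57352) (nat_lit 0) (.e (nat_lit 7125) (nat_lit 382) .nil)))))))) (.g (nat_lit 5) .nil .nil))) 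
(.lf (nat_lit 30693) (.g (nat_lit 3173) (.e (nat_lit 1201) (nat_lit 88) (.e (nat_lit 65569) (nat_lit 3) (.e (nat_lit 98359) (nat_lit 26) (.e (nat_lit 426286) (nat_lit 10) (.e (nat_lit 434247) (nat_lit 28) (.e (nat_lit 573477) (nat_lit 12) (.e (nat_lit 57351) (nat_lit 0) (.e (nat_lit 7122) (nat_lit 382) .nil)))))))) (.g (nat_lit 6) .nil .nil)))) (.nd (nat_lit 5) 
(.lf (nat_lit 30677) (.g (nat_lit 2675) (.e (nat_lit 1201) (nat_lit 88) (.e (nat_lit 65569) (nat_lit 3) (.e (nat_lit 98359) (nat_lit 26) (.e (nat_lit 426171) (nat_lit 7) (.e (nat_lit 409616) (nat_lit 10) (.e (nat_lit 604) (nat_lit 45) (.e (nat_lit 532504) (nat_lit 1) (.e (nat_lit 57830) (nat_lit 250) .nil)))))))) (.g (nat_lit 4) .nil .nil))) 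
(.lf (nat_lit 30709) (.g (nat_lit 3181) (.e (nat_lit 1201) (nat_lit 88) (.e (nat_lit 65569) (nat_lit 3) (.e (nat_lit 98359) (nat_lit 26) (.e (nat_lit 426286) (nat_lit 10) (.e (nat_lit 434248) (nat_lit 28) (.e (nat_lit 573475) (nat_lit 12) (.e (nat_lit 57345) (nat_lit 0) (.e (nat_lit 7122) (nat_lit 382) .nil)))))))) (.g (nat_lit 5) .nil .nil))))) (.nd (nat_lit 4) (.nd (nat_lit 5) 
(.lf (nat_lit 30669) (.g (nat_lit 4769) (.e (nat_lit 1201) (nat_lit 88) (.e (nat_lit 65568) (nat_lit 2) (.e (nat_lit 90170) (nat_lit 13) (.e (nat_lit 172113) (nat_lit 10) (.e (nat_lit 434248) (nat_lit 28) (.e (nat_lit 573475) (nat_lit 12) (.e (nat_lit 57351) (nat_lit 0) (.e (nat_lit 7124) (nat_lit 382) .nil)))))))) (.g (nat_lit 0) .nil .nil))) 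
(.lf (nat_lit 30701) (.g (nat_lit 2947) (.e (nat_lit 1201) (nat_lit 88) (.e (nat_lit 65569) (nat_lit 3) (.e (nat_lit 98359) (nat_lit 26) (.e (nat_lit 426286) (nat_lit 10) (.e (nat_lit 434247) (nat_lit 28) (.e (nat_lit 573478) (nat_lit 12) (.e (nat_lit 57353) (nat_lit 0) (.e (nat_lit 7122) (nat_lit 382) .nil)))))))) (.g (nat_lit 5) .nil .nil)))) (.nd (nat_lit 5) 
(.lf (nat_lit 30685) (.g (nat_lit 2202) (.e (nat_lit 1201) (nat_lit 88) (.e (nat_lit 65569) (nat_lit 3) (.e (nat_lit 98359) (nat_lit 26) (.e (nat_lit 426286) (nat_lit 10) (.e (nat_lit 434245) (nat_lit 28) (.e (nat_lit 573474) (nat_lit 12) (.e (nat_lit 57345) (nat_lit 0) (.e (nat_lit 7122) (nat_lit 382) .nil)))))))) (.g (nat_lit 4) .nil .nil))) 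
(.lf (nat_lit 30717) (.g (nat_lit 2449) (.e (nat_lit 1201) (nat_lit 88) (.e (nat_lit 65569) (nat_lit 3) (.e (nat_lit 98372) (nat_lit 29) (.e (nat_lit 450579) (nat_lit 5) (.e (nat_lit 532501) (nat_lit 1) (.e (nat_lit 65280) (nat_lit 221) .nil)))))) (.g (nat_lit 4) .nil .nil))))))) (.nd (nat_lit 2) (.nd (nat_lit 3) (.nd (nat_lit 4) (.nd (nat_lit 5) 
(.lf (nat_lit 30659) (.g (nat_lit 4882) (.e (nat_lit 1201) (nat_lit 88) (.e (nat_lit 65568) (nat_lit 2) (.e (nat_lit 90170) (nat_lit 13) (.e (nat_lit 172113) (nat_lit 10) (.e (nat_lit 434248) (nat_lit 28) (.e (nat_lit 573473) (nat_lit 12) (.e (nat_lit 57348) (nat_lit 0) (.e (nat_lit 7125) (nat_lit 382) .nil)))))))) (.g (nat_lit 0) .nil .nil))) 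
(.lf (nat_lit 30691) (.g (nat_lit 3925) (.e (nat_lit 1201) (nat_lit 88) (.e (nat_lit 65569) (nat_lit 3) (.e (nat_lit 98359) (nat_lit 26) (.e (nat_lit 426286) (nat_lit 10) (.e (nat_lit 434245) (nat_lit 28) (.e (nat_lit 573474) (nat_lit 12) (.e (nat_lit 57353) (nat_lit 0) (.e (nat_lit 7125) (nat_lit 382) .nil)))))))) (.g (nat_lit 6) .nil .nil)))) (.nd (nat_lit 5) 
(.lf (nat_lit 30675) (.g (nat_lit 4016) (.e (nat_lit 1201) (nat_lit 88) (.e (nat_lit 65569) (nat_lit 3) (.e (nat_lit 98356) (nat_lit 26) (.e (nat_lit 426422) (nat_lit 16) (.e (nat_lit 57692) (nat_lit 156) (.e (nat_lit 163874) (nat_lit 3) (.e (nat_lit 204831) (nat_lit 18) (.e (nat_lit 57830) (nat_lit 250) .nil)))))))) (.g (nat_lit 6) .nil .nil))) 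
(.lf (nat_lit 30707) (.g (nat_lit 2366) (.e (nat_lit 1201) (nat_lit 88) (.e (nat_lit 65569) (nat_lit 3) (.e (nat_lit 98359) (nat_lit 26) (.e (nat_lit 426286) (nat_lit 10) (.e (nat_lit 434248) (nat_lit 28) (.e (nat_lit 573475) (nat_lit 12) (.e (nat_lit 57344) (nat_lit 0) (.e (nat_lit 7124) (nat_lit 382) .nil)))))))) (.g (nat_lit 4) .nil .nil))))) (.nd (nat_lit 4) (.nd (nat_lit 5) 
(.lf (nat_lit 30667) (.g (nat_lit 4791) (.e (nat_lit 1201) (nat_lit 88) (.e (nat_lit 65568) (nat_lit 2) (.e (nat_lit 90170) (nat_lit 13) (.e (nat_lit 172113) (nat_lit 10) (.e (nat_lit 434248) (nat_lit 28) (.e (nat_lit 573475) (nat_lit 12) (.e (nat_lit 57348) (nat_lit 0) (.e (nat_lit 7124) (nat_lit 382) .nil)))))))) (.g (nat_lit 8) .nil .nil))) 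
(.lf (nat_lit 30699) (.g (nat_lit 3555) (.e (nat_lit 1201) (nat_lit 88) (.e (nat_lit 65569) (nat_lit 3) (.e (nat_lit 98359) (nat_lit 26) (.e (nat_lit 426286) (nat_lit 10) (.e (nat_lit 434247) (nat_lit 28) (.e (nat_lit 573478) (nat_lit 12) (.e (nat_lit 57352) (nat_lit 0) (.e (nat_lit 7122) (nat_lit 382) .nil)))))))) (.g (nat_lit 7) .nil .nil)))) (.nd (nat_lit 5) 
(.lf (nat_lit 30683) (.g (nat_lit 2257) (.e (nat_lit 1201) (nat_lit 88) (.e (nat_lit 65569) (nat_lit 3) (.e (nat_lit 98359) (nat_lit 26) (.e (nat_lit 426286) (nat_lit 10) (.e (nat_lit 434245) (nat_lit 28) (.e (nat_lit 573474) (nat_lit 12) (.e (nat_lit 57344) (nat_lit 0) (.e (nat_lit 7122) (nat_lit 382) .nil)))))))) (.g (nat_lit 4) .nil .nil))) 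
(.lf (nat_lit 30715) (.g (nat_lit 3297) (.e (nat_lit 1201) (nat_lit 88) (.e (nat_lit 65569) (nat_lit 3) (.e (nat_lit 98359) (nat_lit 26) (.e (nat_lit 426286) (nat_lit 10) (.e (nat_lit 434248) (nat_lit 28) (.e (nat_lit 573475) (nat_lit 12) (.e (nat_lit 57353) (nat_lit 0) (.e (nat_lit 7122) (nat_lit 382) .nil)))))))) (.g (nat_lit 6) .nil .nil)))))) (.nd (nat_lit 3) (.nd (nat_lit 4) (.nd (nat_lit 5) 
(.lf (nat_lit 30663) (.g (nat_lit 4528) (.e (nat_lit 1201) (nat_lit 88) (.e (nat_lit 65568) (nat_lit 2) (.e (nat_lit 90170) (nat_lit 13) (.e (nat_lit 172113) (nat_lit 10) (.e (nat_lit 434248) (nat_lit 28) (.e (nat_lit 573473) (nat_lit 12) (.e (nat_lit 57353) (nat_lit 0) (.e (nat_lit 7124) (nat_lit 382) .nil)))))))) (.g (nat_lit 0) .nil .nil))) 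
(.lf (nat_lit 30695) (.g (nat_lit 3294) (.e (nat_lit 1201) (nat_lit 88) (.e (nat_lit 65569) (nat_lit 3) (.e (nat_lit 98359) (nat_lit 26) (.e (nat_lit 426286) (nat_lit 10) (.e (nat_lit 434247) (nat_lit 28) (.e (nat_lit 573477) (nat_lit 12) (.e (nat_lit 57351) (nat_lit 0) (.e (nat_lit 7125) (nat_lit 382) .nil)))))))) (.g (nat_lit 6) .nil .nil)))) (.nd (nat_lit 5) 
(.lf (nat_lit 30679) (.g (nat_lit 3635) (.e (nat_lit 1201) (nat_lit 88) (.e (nat_lit 65569) (nat_lit 3) (.e (nat_lit 98359) (nat_lit 26) (.e (nat_lit 426286) (nat_lit 10) (.e (nat_lit 434245) (nat_lit 28) (.e (nat_lit 573473) (nat_lit 12) (.e (nat_lit 57347) (nat_lit 0) (.e (nat_lit 7124) (nat_lit 382) .nil)))))))) (.g (nat_lit 6) .nil .nil))) 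
(.lf (nat_lit 30711) (.g (nat_lit 2129) (.e (nat_lit 1201) (nat_lit 88) (.e (nat_lit 65569) (nat_lit 3) (.e (nat_lit 98359) (nat_lit 26) (.e (nat_lit 426286) (nat_lit 10) (.e (nat_lit 434248) (nat_lit 28) (.e (nat_lit 573475) (nat_lit 12) (.e (nat_lit 57347) (nat_lit 0) (.e (nat_lit 7119) (nat_lit 382) .nil)))))))) (.g (nat_lit 4) .nil .nil))))) (.nd (nat_lit 4) (.nd (nat_lit 5) 
(.lf (nat_lit 30671) (.g (nat_lit 2583) (.e (nat_lit 1201) (nat_lit 88) (.e (nat_lit 65569) (nat_lit 3) (.e (nat_lit 98356) (nat_lit 26) (.e (nat_lit 426422) (nat_lit 16) (.e (nat_lit 57687) (nat_lit 156) (.e (nat_lit 163875) (nat_lit 3) (.e (nat_lit 204830) (nat_lit 18) (.e (nat_lit 57830) (nat_lit 250) .nil)))))))) (.g (nat_lit 4) .nil .nil))) 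
(.lf (nat_lit 30703) (.g (nat_lit 4393) (.e (nat_lit 1201) (nat_lit 88) (.e (nat_lit 65569) (nat_lit 3) (.e (nat_lit 98359) (nat_lit 26) (.e (nat_lit 426286) (nat_lit 10) (.e (nat_lit 434248) (nat_lit 28) (.e (nat_lit 573473) (nat_lit 12) (.e (nat_lit 57347) (nat_lit 0) (.e (nat_lit 7125) (nat_lit 382) .nil)))))))) (.g (nat_lit 7) .nil .nil)))) (.nd (nat_lit 5) 
(.lf (nat_lit 30687) (.g (nat_lit 4312) (.e (nat_lit 1201) (nat_lit 88) (.e (nat_lit 65569) (nat_lit 3) (.e (nat_lit 98359) (nat_lit 26) (.e (nat_lit 426286) (nat_lit 10) (.e (nat_lit 434245) (nat_lit 28) (.e (nat_lit 573474) (nat_lit 12) (.e (nat_lit 57347) (nat_lit 0) (.e (nat_lit 7122) (nat_lit 382) .nil)))))))) (.g (nat_lit 7) .nil .nil))) 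
(.lf (nat_lit 30719) (.g (nat_lit 2460) (.e (nat_lit 1201) (nat_lit 88) (.e (nat_lit 65569) (nat_lit 3) (.e (nat_lit 98372) (nat_lit 29) (.e (nat_lit 450579) (nat_lit 5) (.e (nat_lit 532504) (nat_lit 1) (.e (nat_lit 65280) (nat_lit 221) .nil)))))) (.g (nat_lit 4) .nil .nil)))))))))

noncomputable def tv428 : DT := (.nd (nat_lit 0) (.nd (nat_lit 1) (.nd (nat_lit 2) (.nd (nat_lit 3) (.nd (nat_lit 4) (.nd (nat_lit 5) 
(.lf (nat_lit 30720) (.g (nat_lit 953) (.e (nat_lit 1201) (nat_lit 88) (.e (nat_lit 65569) (nat_lit 3) (.e (nat_lit 98372) (nat_lit 29) (.e (nat_lit 450586) (nat_lit 10) .nil)))) .nil)) 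
(.lf (nat_lit 30752) (.g (nat_lit 2129) (.e (nat_lit 1201) (nat_lit 88) (.e (nat_lit 65569) (nat_lit 3) (.e (nat_lit 98373) (nat_lit 29) (.e (nat_lit 450587) (nat_lit 10) (.e (nat_lit 573478) (nat_lit 12) .nil))))) .nil))) (.nd (nat_lit 5) 
(.lf (nat_lit 30736) (.g (nat_lit 2119) (.e (nat_lit 1201) (nat_lit 88) (.e (nat_lit 65569) (nat_lit 3) (.e (nat_lit 98372) (nat_lit 29) (.e (nat_lit 450586) (nat_lit 10) (.e (nat_lit 573477) (nat_lit 12) (.e (nat_lit 57351) (nat_lit 0) (.e (nat_lit 7124) (nat_lit 382) .nil))))))) (.g (nat_lit 4) .nil .nil))) 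
(.lf (nat_lit 30768) (.g (nat_lit 4404) (.e (nat_lit 1201) (nat_lit 88) (.e (nat_lit 65569) (nat_lit 3) (.e (nat_lit 98373) (nat_lit 29) (.e (nat_lit 450588) (nat_lit 10) (.e (nat_lit 573475) (nat_lit 12) (.e (nat_lit 57348) (nat_lit 0) (.e (nat_lit 7124) (nat_lit 382) .nil))))))) (.g (nat_lit 6) .nil .nil))))) (.nd (nat_lit 4) (.nd (nat_lit 5) 
(.lf (nat_lit 30728) (.g (nat_lit 3941) (.e (nat_lit 1201) (nat_lit 88) (.e (nat_lit 65569) (nat_lit 3) (.e (nat_lit 98372) (nat_lit 29) (.e (nat_lit 450586) (nat_lit 10) (.e (nat_lit 573475) (nat_lit 12) (.e (nat_lit 57347) (nat_lit 0) (.e (nat_lit 7124) (nat_lit 382) .nil))))))) (.g (nat_lit 6) .nil .nil))) 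
(.lf (nat_lit 30760) (.g (nat_lit 3769) (.e (nat_lit 1201) (nat_lit 88) (.e (nat_lit 65569) (nat_lit 3) (.e (nat_lit 98373) (nat_lit 29) (.e (nat_lit 450588) (nat_lit 10) (.e (nat_lit 573473) (nat_lit 12) (.e (nat_lit 57353) (nat_lit 0) (.e (nat_lit 7122) (nat_lit 382) .nil))))))) (.g (nat_lit 5) .nil .nil)))) (.nd (nat_lit 5) 
(.lf (nat_lit 30744) (.g (nat_lit 3952) (.e (nat_lit 1201) (nat_lit 88) (.e (nat_lit 65569) (nat_lit 3) (.e (nat_lit 98372) (nat_lit 29) (.e (nat_lit 450588) (nat_lit 10) (.e (nat_lit 573475) (nat_lit 12) (.e (nat_lit 57351) (nat_lit 0) (.e (nat_lit 7122) (nat_lit 382) .nil))))))) (.g (nat_lit 5) .nil .nil))) 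
(.lf (nat_lit 30776) (.g (nat_lit 2154) (.e (nat_lit 1201) (nat_lit 88) (.e (nat_lit 65570) (nat_lit 3) (.e (nat_lit 98373) (nat_lit 29) (.e (nat_lit 450587) (nat_lit 10) (.e (nat_lit 573477) (nat_lit 12) (.e (nat_lit 57351) (nat_lit 0) (.e (nat_lit 7122) (nat_lit 382) .nil))))))) (.g (nat_lit 4) .nil .nil)))))) (.nd (nat_lit 3) (.nd (nat_lit 4) (.nd (nat_lit 5) 
(.lf (nat_lit 30724) (.g (nat_lit 2865) (.e (nat_lit 1201) (nat_lit 88) (.e (nat_lit 65569) (nat_lit 3) (.e (nat_lit 98372) (nat_lit 29) (.e (nat_lit 450586) (nat_lit 10) (.e (nat_lit 573473) (nat_lit 12) (.e (nat_lit 57353) (nat_lit 0) (.e (nat_lit 7122) (nat_lit 382) .nil))))))) (.g (nat_lit 5) .nil .nil))) 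
(.lf (nat_lit 30756) (.g (nat_lit 2707) (.e (nat_lit 1201) (nat_lit 88) (.e (nat_lit 65569) (nat_lit 3) (.e (nat_lit 98373) (nat_lit 29) (.e (nat_lit 450588) (nat_lit 10) (.e (nat_lit 573473) (nat_lit 12) (.e (nat_lit 57347) (nat_lit 0) (.e (nat_lit 7122) (nat_lit 382) .nil))))))) (.g (nat_lit 4) .nil .nil)))) (.nd (nat_lit 5) 
(.lf (nat_lit 30740) (.g (nat_lit 2226) (.e (nat_lit 1201) (nat_lit 88) (.e (nat_lit 65569) (nat_lit 3) (.e (nat_lit 98372) (nat_lit 29) (.e (nat_lit 450586) (nat_lit 10) (.e (nat_lit 573478) (nat_lit 12) (.e (nat_lit 57353) (nat_lit 0) (.e (nat_lit 7122) (nat_lit 382) .nil))))))) (.g (nat_lit 4) .nil .nil))) 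
(.lf (nat_lit 30772) (.g (nat_lit 4153) (.e (nat_lit 1201) (nat_lit 88) (.e (nat_lit 65569) (nat_lit 3) (.e (nat_lit 98373) (nat_lit 29) (.e (nat_lit 450588) (nat_lit 10) (.e (nat_lit 573475) (nat_lit 12) (.e (nat_lit 57353) (nat_lit 0) (.e (nat_lit 7125) (nat_lit 382) .nil))))))) (.g (nat_lit 6) .nil .nil))))) (.nd (nat_lit 4) (.nd (nat_lit 5) 
(.lf (nat_lit 30732) (.g (nat_lit 3620) (.e (nat_lit 1201) (nat_lit 88) (.e (nat_lit 65569) (nat_lit 3) (.e (nat_lit 98372) (nat_lit 29) (.e (nat_lit 450586) (nat_lit 10) (.e (nat_lit 573475) (nat_lit 12) (.e (nat_lit 57348) (nat_lit 0) (.e (nat_lit 7125) (nat_lit 382) .nil))))))) (.g (nat_lit 6) .nil .nil))) 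
(.lf (nat_lit 30764) (.g (nat_lit 2988) (.e (nat_lit 1201) (nat_lit 88) (.e (nat_lit 65569) (nat_lit 3) (.e (nat_lit 98373) (nat_lit 29) (.e (nat_lit 450588) (nat_lit 10) (.e (nat_lit 573475) (nat_lit 12) (.e (nat_lit 57345) (nat_lit 0) (.e (nat_lit 7122) (nat_lit 382) .nil))))))) (.g (nat_lit 4) .nil .nil)))) (.nd (nat_lit 5) 
(.lf (nat_lit 30748) (.g (nat_lit 2948) (.e (nat_lit 1201) (nat_lit 88) (.e (nat_lit 65569) (nat_lit 3) (.e (nat_lit 98373) (nat_lit 29) (.e (nat_lit 450587) (nat_lit 10) (.e (nat_lit 573477) (nat_lit 12) (.e (nat_lit 57351) (nat_lit 0) (.e (nat_lit 7124) (nat_lit 382) .nil))))))) (.g (nat_lit 5) .nil .nil))) 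
(.lf (nat_lit 30780) (.g (nat_lit 2516) (.e (nat_lit 1201) (nat_lit 88) (.e (nat_lit 65570) (nat_lit 3) (.e (nat_lit 98373) (nat_lit 29) (.e (nat_lit 450587) (nat_lit 10) (.e (nat_lit 573478) (nat_lit 12) (.e (nat_lit 57352) (nat_lit 0) (.e (nat_lit 7122) (nat_lit 382) .nil))))))) (.g (nat_lit 4) .nil .nil))))))) (.nd (nat_lit 2) (.nd (nat_lit 3) (.nd (nat_lit 4) (.nd (nat_lit 5) 
(.lf (nat_lit 30722) (.g (nat_lit 3607) (.e (nat_lit 1201) (nat_lit 88) (.e (nat_lit 65569) (nat_lit 3) (.e (nat_lit 98372) (nat_lit 29) (.e (nat_lit 450586) (nat_lit 10) (.e (nat_lit 573473) (nat_lit 12) (.e (nat_lit 57347) (nat_lit 0) (.e (nat_lit 7125) (nat_lit 382) .nil))))))) (.g (nat_lit 6) .nil .nil))) 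
(.lf (nat_lit 30754) (.g (nat_lit 2767) (.e (nat_lit 1201) (nat_lit 88) (.e (nat_lit 65569) (nat_lit 3) (.e (nat_lit 98373) (nat_lit 29) (.e (nat_lit 450587) (nat_lit 10) (.e (nat_lit 573478) (nat_lit 12) (.e (nat_lit 57353) (nat_lit 0) (.e (nat_lit 7122) (nat_lit 382) .nil))))))) (.g (nat_lit 4) .nil .nil)))) (.nd (nat_lit 5) 
(.lf (nat_lit 30738) (.g (nat_lit 1575) (.e (nat_lit 1201) (nat_lit 88) (.e (nat_lit 65569) (nat_lit 3) (.e (nat_lit 98372) (nat_lit 29) (.e (nat_lit 450586) (nat_lit 10) (.e (nat_lit 573478) (nat_lit 12) .nil))))) .nil)) 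
(.lf (nat_lit 30770) (.g (nat_lit 3050) (.e (nat_lit 1201) (nat_lit 88) (.e (nat_lit 65569) (nat_lit 3) (.e (nat_lit 98373) (nat_lit 29) (.e (nat_lit 450588) (nat_lit 10) (.e (nat_lit 573475) (nat_lit 12) (.e (nat_lit 57353) (nat_lit 0) (.e (nat_lit 7122) (nat_lit 382) .nil))))))) (.g (nat_lit 4) .nil .nil))))) (.nd (nat_lit 4) (.nd (nat_lit 5) 
(.lf (nat_lit 30730) (.g (nat_lit 2695) (.e (nat_lit 1201) (nat_lit 88) (.e (nat_lit 65569) (nat_lit 3) (.e (nat_lit 98372) (nat_lit 29) (.e (nat_lit 450586) (nat_lit 10) (.e (nat_lit 573475) (nat_lit 12) (.e (nat_lit 57348) (nat_lit 0) (.e (nat_lit 7122) (nat_lit 382) .nil))))))) (.g (nat_lit 5) .nil .nil))) 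
(.lf (nat_lit 30762) (.g (nat_lit 2998) (.e (nat_lit 1201) (nat_lit 88) (.e (nat_lit 65569) (nat_lit 3) (.e (nat_lit 98373) (nat_lit 29) (.e (nat_lit 450588) (nat_lit 10) (.e (nat_lit 573475) (nat_lit 12) (.e (nat_lit 57344) (nat_lit 0) (.e (nat_lit 7122) (nat_lit 382) .nil))))))) (.g (nat_lit 4) .nil .nil)))) (.nd (nat_lit 5) 
(.lf (nat_lit 30746) (.g (nat_lit 1271) (.e (nat_lit 1201) (nat_lit 88) (.e (nat_lit 65569) (nat_lit 3) (.e (nat_lit 98373) (nat_lit 29) (.e (nat_lit 450586) (nat_lit 10) .nil)))) .nil)) 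
(.lf (nat_lit 30778) (.g (nat_lit 2546) (.e (nat_lit 1201) (nat_lit 88) (.e (nat_lit 65570) (nat_lit 3) (.e (nat_lit 98373) (nat_lit 29) (.e (nat_lit 450587) (nat_lit 10) (.e (nat_lit 573477) (nat_lit 12) (.e (nat_lit 57351) (nat_lit 0) (.e (nat_lit 7125) (nat_lit 382) .nil))))))) (.g (nat_lit 4) .nil .nil)))))) (.nd (nat_lit 3) (.nd (nat_lit 4) (.nd (nat_lit 5) 
(.lf (nat_lit 30726) (.g (nat_lit 2269) (.e (nat_lit 1201) (nat_lit 88) (.e (nat_lit 65569) (nat_lit 3) (.e (nat_lit 98372) (nat_lit 29) (.e (nat_lit 450586) (nat_lit 10) (.e (nat_lit 573475) (nat_lit 12) (.e (nat_lit 57345) (nat_lit 0) (.e (nat_lit 7122) (nat_lit 382) .nil))))))) (.g (nat_lit 4) .nil .nil))) 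
(.lf (nat_lit 30758) (.g (nat_lit 3991) (.e (nat_lit 1201) (nat_lit 88) (.e (nat_lit 65569) (nat_lit 3) (.e (nat_lit 98373) (nat_lit 29) (.e (nat_lit 450588) (nat_lit 10) (.e (nat_lit 573473) (nat_lit 12) (.e (nat_lit 57348) (nat_lit 0) (.e (nat_lit 7122) (nat_lit 382) .nil))))))) (.g (nat_lit 6) .nil .nil)))) (.nd (nat_lit 5) 
(.lf (nat_lit 30742) (.g (nat_lit 2679) (.e (nat_lit 1201) (nat_lit 88) (.e (nat_lit 65569) (nat_lit 3) (.e (nat_lit 98372) (nat_lit 29) (.e (nat_lit 450588) (nat_lit 10) (.e (nat_lit 573475) (nat_lit 12) .nil))))) .nil)) 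
(.lf (nat_lit 30774) (.g (nat_lit 2310) (.e (nat_lit 1201) (nat_lit 88) (.e (nat_lit 65570) (nat_lit 3) (.e (nat_lit 98372) (nat_lit 29) (.e (nat_lit 450586) (nat_lit 10) (.e (nat_lit 573473) (nat_lit 12) (.e (nat_lit 57353) (nat_lit 0) (.e (nat_lit 7125) (nat_lit 382) .nil))))))) (.g (nat_lit 4) .nil .nil))))) (.nd (nat_lit 4) (.nd (nat_lit 5) 
(.lf (nat_lit 30734) (.g (nat_lit 3273) (.e (nat_lit 1201) (nat_lit 88) (.e (nat_lit 65569) (nat_lit 3) (.e (nat_lit 98372) (nat_lit 29) (.e (nat_lit 450586) (nat_lit 10) (.e (nat_lit 573475) (nat_lit 12) (.e (nat_lit 57353) (nat_lit 0) (.e (nat_lit 7125) (nat_lit 382) .nil))))))) (.g (nat_lit 5) .nil .nil))) 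
(.lf (nat_lit 30766) (.g (nat_lit 4416) (.e (nat_lit 1201) (nat_lit 88) (.e (nat_lit 65569) (nat_lit 3) (.e (nat_lit 98373) (nat_lit 29) (.e (nat_lit 450588) (nat_lit 10) (.e (nat_lit 573475) (nat_lit 12) (.e (nat_lit 57347) (nat_lit 0) (.e (nat_lit 7122) (nat_lit 382) .nil))))))) (.g (nat_lit 6) .nil .nil)))) (.nd (nat_lit 5) 
(.lf (nat_lit 30750) (.g (nat_lit 2511) (.e (nat_lit 1201) (nat_lit 88) (.e (nat_lit 65569) (nat_lit 3) (.e (nat_lit 98373) (nat_lit 29) (.e (nat_lit 450587) (nat_lit 10) (.e (nat_lit 573477) (nat_lit 12) (.e (nat_lit 57352) (nat_lit 0) (.e (nat_lit 7125) (nat_lit 382) .nil))))))) (.g (nat_lit 4) .nil .nil))) 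
(.lf (nat_lit 30782) (.g (nat_lit 2808) (.e (nat_lit 1201) (nat_lit 88) (.e (nat_lit 65570) (nat_lit 3) (.e (nat_lit 98373) (nat_lit 29) (.e (nat_lit 450588) (nat_lit 10) (.e (nat_lit 573473) (nat_lit 12) .nil))))) .nil))))))) (.nd (nat_lit 1) (.nd (nat_lit 2) (.nd (nat_lit 3) (.nd (nat_lit 4) (.nd (nat_lit 5) 
(.lf (nat_lit 30721) (.g (nat_lit 2972) (.e (nat_lit 1201) (nat_lit 88) (.e (nat_lit 65569) (nat_lit 3) (.e (nat_lit 98372) (nat_lit 29) (.e (nat_lit 450586) (nat_lit 10) (.e (nat_lit 573473) (nat_lit 12) (.e (nat_lit 57347) (nat_lit 0) (.e (nat_lit 7124) (nat_lit 382) .nil))))))) (.g (nat_lit 5) .nil .nil))) 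
(.lf (nat_lit 30753) (.g (nat_lit 3466) (.e (nat_lit 1201) (nat_lit 88) (.e (nat_lit 65569) (nat_lit 3) (.e (nat_lit 98373) (nat_lit 29) (.e (nat_lit 450587) (nat_lit 10) (.e (nat_lit 573478) (nat_lit 12) (.e (nat_lit 57352) (nat_lit 0) (.e (nat_lit 7122) (nat_lit 382) .nil))))))) (.g (nat_lit 6) .nil .nil)))) (.nd (nat_lit 5) 
(.lf (nat_lit 30737) (.g (nat_lit 2440) (.e (nat_lit 1201) (nat_lit 88) (.e (nat_lit 65569) (nat_lit 3) (.e (nat_lit 98372) (nat_lit 29) (.e (nat_lit 450586) (nat_lit 10) (.e (nat_lit 573477) (nat_lit 12) (.e (nat_lit 57351) (nat_lit 0) (.e (nat_lit 7125) (nat_lit 382) .nil))))))) (.g (nat_lit 5) .nil .nil))) 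
(.lf (nat_lit 30769) (.g (nat_lit 4732) (.e (nat_lit 1201) (nat_lit 88) (.e (nat_lit 65569) (nat_lit 3) (.e (nat_lit 98373) (nat_lit 29) (.e (nat_lit 450588) (nat_lit 10) (.e (nat_lit 573475) (nat_lit 12) (.e (nat_lit 57348) (nat_lit 0) (.e (nat_lit 7125) (nat_lit 382) .nil))))))) (.g (nat_lit 7) .nil .nil))))) (.nd (nat_lit 4) (.nd (nat_lit 5) 
(.lf (nat_lit 30729) (.g (nat_lit 4459) (.e (nat_lit 1201) (nat_lit 88) (.e (nat_lit 65569) (nat_lit 3) (.e (nat_lit 98372) (nat_lit 29) (.e (nat_lit 450586) (nat_lit 10) (.e (nat_lit 573475) (nat_lit 12) (.e (nat_lit 57347) (nat_lit 0) (.e (nat_lit 7125) (nat_lit 382) .nil))))))) (.g (nat_lit 7) .nil .nil))) 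
(.lf (nat_lit 30761) (.g (nat_lit 2373) (.e (nat_lit 1201) (nat_lit 88) (.e (nat_lit 65569) (nat_lit 3) (.e (nat_lit 98373) (nat_lit 29) (.e (nat_lit 450588) (nat_lit 10) (.e (nat_lit 573475) (nat_lit 12) .nil))))) .nil))) (.nd (nat_lit 5) 
(.lf (nat_lit 30745) (.g (nat_lit 4006) (.e (nat_lit 1201) (nat_lit 88) (.e (nat_lit 65569) (nat_lit 3) (.e (nat_lit 98372) (nat_lit 29) (.e (nat_lit 450588) (nat_lit 10) (.e (nat_lit 573475) (nat_lit 12) (.e (nat_lit 57351) (nat_lit 0) (.e (nat_lit 7125) (nat_lit 382) .nil))))))) (.g (nat_lit 5) .nil .nil))) 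
(.lf (nat_lit 30777) (.g (nat_lit 2274) (.e (nat_lit 1201) (nat_lit 88) (.e (nat_lit 65570) (nat_lit 3) (.e (nat_lit 98373) (nat_lit 29) (.e (nat_lit 450587) (nat_lit 10) (.e (nat_lit 573477) (nat_lit 12) (.e (nat_lit 57351) (nat_lit 0) (.e (nat_lit 7124) (nat_lit 382) .nil))))))) (.g (nat_lit 4) .nil .nil)))))) (.nd (nat_lit 3) (.nd (nat_lit 4) (.nd (nat_lit 5) 
(.lf (nat_lit 30725) (.g (nat_lit 2111) (.e (nat_lit 1201) (nat_lit 88) (.e (nat_lit 65569) (nat_lit 3) (.e (nat_lit 98372) (nat_lit 29) (.e (nat_lit 450586) (nat_lit 10) (.e (nat_lit 573475) (nat_lit 12) (.e (nat_lit 57344) (nat_lit 0) (.e (nat_lit 7122) (nat_lit 382) .nil))))))) (.g (nat_lit 4) .nil .nil))) 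
(.lf (nat_lit 30757) (.g (nat_lit 3834) (.e (nat_lit 1201) (nat_lit 88) (.e (nat_lit 65569) (nat_lit 3) (.e (nat_lit 98373) (nat_lit 29) (.e (nat_lit 450588) (nat_lit 10) (.e (nat_lit 573473) (nat_lit 12) (.e (nat_lit 57347) (nat_lit 0) (.e (nat_lit 7124) (nat_lit 382) .nil))))))) (.g (nat_lit 5) .nil .nil)))) (.nd (nat_lit 5) 
(.lf (nat_lit 30741) (.g (nat_lit 4096) (.e (nat_lit 1201) (nat_lit 88) (.e (nat_lit 65569) (nat_lit 3) (.e (nat_lit 98372) (nat_lit 29) (.e (nat_lit 450588) (nat_lit 10) (.e (nat_lit 573473) (nat_lit 12) (.e (nat_lit 57348) (nat_lit 0) (.e (nat_lit 7125) (nat_lit 382) .nil))))))) (.g (nat_lit 5) .nil .nil))) 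
(.lf (nat_lit 30773) (.g (nat_lit 2404) (.e (nat_lit 1201) (nat_lit 88) (.e (nat_lit 65570) (nat_lit 3) (.e (nat_lit 98372) (nat_lit 29) (.e (nat_lit 450586) (nat_lit 10) (.e (nat_lit 573473) (nat_lit 12) (.e (nat_lit 57348) (nat_lit 0) (.e (nat_lit 7125) (nat_lit 382) .nil))))))) (.g (nat_lit 4) .nil .nil))))) (.nd (nat_lit 4) (.nd (nat_lit 5) 
(.lf (nat_lit 30733) (.g (nat_lit 2893) (.e (nat_lit 1201) (nat_lit 88) (.e (nat_lit 65569) (nat_lit 3) (.e (nat_lit 98372) (nat_lit 29) (.e (nat_lit 450586) (nat_lit 10) (.e (nat_lit 573475) (nat_lit 12) (.e (nat_lit 57353) (nat_lit 0) (.e (nat_lit 7124) (nat_lit 382) .nil))))))) (.g (nat_lit 5) .nil .nil))) 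
(.lf (nat_lit 30765) (.g (nat_lit 2608) (.e (nat_lit 1201) (nat_lit 88) (.e (nat_lit 65569) (nat_lit 3) (.e (nat_lit 98373) (nat_lit 29) (.e (nat_lit 450588) (nat_lit 10) (.e (nat_lit 573475) (nat_lit 12) (.e (nat_lit 57345) (nat_lit 0) (.e (nat_lit 7125) (nat_lit 382) .nil))))))) (.g (nat_lit 4) .nil .nil)))) (.nd (nat_lit 5) 
(.lf (nat_lit 30749) (.g (nat_lit 3271) (.e (nat_lit 1201) (nat_lit 88) (.e (nat_lit 65569) (nat_lit 3) (.e (nat_lit 98373) (nat_lit 29) (.e (nat_lit 450587) (nat_lit 10) (.e (nat_lit 573477) (nat_lit 12) (.e (nat_lit 57351) (nat_lit 0) (.e (nat_lit 7125) (nat_lit 382) .nil))))))) (.g (nat_lit 5) .nil .nil))) 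
(.lf (nat_lit 30781) (.g (nat_lit 2845) (.e (nat_lit 1201) (nat_lit 88) (.e (nat_lit 65570) (nat_lit 3) (.e (nat_lit 98373) (nat_lit 29) (.e (nat_lit 450587) (nat_lit 10) (.e (nat_lit 573478) (nat_lit 12) (.e (nat_lit 57353) (nat_lit 0) (.e (nat_lit 7124) (nat_lit 382) .nil))))))) (.g (nat_lit 5) .nil .nil))))))) (.nd (nat_lit 2) (.nd (nat_lit 3) (.nd (nat_lit 4) (.nd (nat_lit 5) 
(.lf (nat_lit 30723) (.g (nat_lit 3093) (.e (nat_lit 1201) (nat_lit 88) (.e (nat_lit 65569) (nat_lit 3) (.e (nat_lit 98372) (nat_lit 29) (.e (nat_lit 450586) (nat_lit 10) (.e (nat_lit 573473) (nat_lit 12) (.e (nat_lit 57348) (nat_lit 0) (.e (nat_lit 7122) (nat_lit 382) .nil))))))) (.g (nat_lit 6) .nil .nil))) 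
(.lf (nat_lit 30755) (.g (nat_lit 2333) (.e (nat_lit 1201) (nat_lit 88) (.e (nat_lit 65569) (nat_lit 3) (.e (nat_lit 98373) (nat_lit 29) (.e (nat_lit 450588) (nat_lit 10) (.e (nat_lit 573473) (nat_lit 12) .nil))))) .nil))) (.nd (nat_lit 5) 
(.lf (nat_lit 30739) (.g (nat_lit 2856) (.e (nat_lit 1201) (nat_lit 88) (.e (nat_lit 65569) (nat_lit 3) (.e (nat_lit 98372) (nat_lit 29) (.e (nat_lit 450586) (nat_lit 10) (.e (nat_lit 573478) (nat_lit 12) (.e (nat_lit 57352) (nat_lit 0) (.e (nat_lit 7122) (nat_lit 382) .nil))))))) (.g (nat_lit 6) .nil .nil))) 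
(.lf (nat_lit 30771) (.g (nat_lit 3771) (.e (nat_lit 1201) (nat_lit 88) (.e (nat_lit 65569) (nat_lit 3) (.e (nat_lit 98373) (nat_lit 29) (.e (nat_lit 450588) (nat_lit 10) (.e (nat_lit 573475) (nat_lit 12) (.e (nat_lit 57353) (nat_lit 0) (.e (nat_lit 7124) (nat_lit 382) .nil))))))) (.g (nat_lit 5) .nil .nil))))) (.nd (nat_lit 4) (.nd (nat_lit 5) 
(.lf (nat_lit 30731) (.g (nat_lit 3295) (.e (nat_lit 1201) (nat_lit 88) (.e (nat_lit 65569) (nat_lit 3) (.e (nat_lit 98372) (nat_lit 29) (.e (nat_lit 450586) (nat_lit 10) (.e (nat_lit 573475) (nat_lit 12) (.e (nat_lit 57348) (nat_lit 0) (.e (nat_lit 7124) (nat_lit 382) .nil))))))) (.g (nat_lit 5) .nil .nil))) 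
(.lf (nat_lit 30763) (.g (nat_lit 2870) (.e (nat_lit 1201) (nat_lit 88) (.e (nat_lit 65569) (nat_lit 3) (.e (nat_lit 98373) (nat_lit 29) (.e (nat_lit 450588) (nat_lit 10) (.e (nat_lit 573475) (nat_lit 12) (.e (nat_lit 57344) (nat_lit 0) (.e (nat_lit 7125) (nat_lit 382) .nil))))))) (.g (nat_lit 4) .nil .nil)))) (.nd (nat_lit 5) 
(.lf (nat_lit 30747) (.g (nat_lit 3148) (.e (nat_lit 1201) (nat_lit 88) (.e (nat_lit 65569) (nat_lit 3) (.e (nat_lit 98373) (nat_lit 29) (.e (nat_lit 450587) (nat_lit 10) (.e (nat_lit 573477) (nat_lit 12) (.e (nat_lit 57351) (nat_lit 0) (.e (nat_lit 7122) (nat_lit 382) .nil))))))) (.g (nat_lit 5) .nil .nil))) 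
(.lf (nat_lit 30779) (.g (nat_lit 2912) (.e (nat_lit 1201) (nat_lit 88) (.e (nat_lit 65570) (nat_lit 3) (.e (nat_lit 98373) (nat_lit 29) (.e (nat_lit 450587) (nat_lit 10) (.e (nat_lit 573477) (nat_lit 12) (.e (nat_lit 57352) (nat_lit 0) (.e (nat_lit 7122) (nat_lit 382) .nil))))))) (.g (nat_lit 5) .nil .nil)))))) (.nd (nat_lit 3) (.nd (nat_lit 4) (.nd (nat_lit 5) 
(.lf (nat_lit 30727) (.g (nat_lit 3207) (.e (nat_lit 1201) (nat_lit 88) (.e (nat_lit 65569) (nat_lit 3) (.e (nat_lit 98372) (nat_lit 29) (.e (nat_lit 450586) (nat_lit 10) (.e (nat_lit 573475) (nat_lit 12) (.e (nat_lit 57347) (nat_lit 0) (.e (nat_lit 7122) (nat_lit 382) .nil))))))) (.g (nat_lit 5) .nil .nil))) 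
(.lf (nat_lit 30759) (.g (nat_lit 3213) (.e (nat_lit 1201) (nat_lit 88) (.e (nat_lit 65569) (nat_lit 3) (.e (nat_lit 98373) (nat_lit 29) (.e (nat_lit 450588) (nat_lit 10) (.e (nat_lit 573473) (nat_lit 12) (.e (nat_lit 57352) (nat_lit 0) (.e (nat_lit 7125) (nat_lit 382) .nil))))))) (.g (nat_lit 5) .nil .nil)))) (.nd (nat_lit 5) 
(.lf (nat_lit 30743) (.g (nat_lit 4357) (.e (nat_lit 1201) (nat_lit 88) (.e (nat_lit 65569) (nat_lit 3) (.e (nat_lit 98372) (nat_lit 29) (.e (nat_lit 450588) (nat_lit 10) (.e (nat_lit 573475) (nat_lit 12) (.e (nat_lit 57347) (nat_lit 0) (.e (nat_lit 7124) (nat_lit 382) .nil))))))) (.g (nat_lit 5) .nil .nil))) 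
(.lf (nat_lit 30775) (.g (nat_lit 2282) (.e (nat_lit 1201) (nat_lit 88) (.e (nat_lit 65570) (nat_lit 3) (.e (nat_lit 98372) (nat_lit 29) (.e (nat_lit 450586) (nat_lit 10) (.e (nat_lit 573475) (nat_lit 12) (.e (nat_lit 57351) (nat_lit 0) (.e (nat_lit 7125) (nat_lit 382) .nil))))))) (.g (nat_lit 4) .nil .nil))))) (.nd (nat_lit 4) (.nd (nat_lit 5) 
(.lf (nat_lit 30735) (.g (nat_lit 2319) (.e (nat_lit 1201) (nat_lit 88) (.e (nat_lit 65569) (nat_lit 3) (.e (nat_lit 98372) (nat_lit 29) (.e (nat_lit 450586) (nat_lit 10) (.e (nat_lit 573477) (nat_lit 12) (.e (nat_lit 57351) (nat_lit 0) (.e (nat_lit 7122) (nat_lit 382) .nil))))))) (.g (nat_lit 4) .nil .nil))) 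
(.lf (nat_lit 30767) (.g (nat_lit 3805) (.e (nat_lit 1201) (nat_lit 88) (.e (nat_lit 65569) (nat_lit 3) (.e (nat_lit 98373) (nat_lit 29) (.e (nat_lit 450588) (nat_lit 10) (.e (nat_lit 573475) (nat_lit 12) (.e (nat_lit 57348) (nat_lit 0) (.e (nat_lit 7122) (nat_lit 382) .nil))))))) (.g (nat_lit 5) .nil .nil)))) (.nd (nat_lit 5) 
(.lf (nat_lit 30751) (.g (nat_lit 3012) (.e (nat_lit 1201) (nat_lit 88) (.e (nat_lit 65569) (nat_lit 3) (.e (nat_lit 98373) (nat_lit 29) (.e (nat_lit 450587) (nat_lit 10) (.e (nat_lit 573477) (nat_lit 12) (.e (nat_lit 57353) (nat_lit 0) (.e (nat_lit 7122) (nat_lit 382) .nil))))))) (.g (nat_lit 5) .nil .nil))) 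
(.lf (nat_lit 30783) (.g (nat_lit 3060) (.e (nat_lit 1201) (nat_lit 88) (.e (nat_lit 65570) (nat_lit 3) (.e (nat_lit 98373) (nat_lit 29) (.e (nat_lit 450588) (nat_lit 10) (.e (nat_lit 573473) (nat_lit 12) (.e (nat_lit 57347) (nat_lit 0) (.e (nat_lit 7122) (nat_lit 382) .nil))))))) (.g (nat_lit 4) .nil .nil)))))))))

noncomputable def tv429 : DT := (.nd (nat_lit 0) (.nd (nat_lit 1) (.nd (nat_lit 2) (.nd (nat_lit 3) (.nd (nat_lit 4) (.nd (nat_lit 5) 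
(.lf (nat_lit 30784) (.g (nat_lit 4546) (.e (nat_lit 1201) (nat_lit 88) (.e (nat_lit 65570) (nat_lit 3) (.e (nat_lit 98373) (nat_lit 29) (.e (nat_lit 450588) (nat_lit 10) (.e (nat_lit 573473) (nat_lit 12) (.e (nat_lit 57347) (nat_lit 0) (.e (nat_lit 7124) (nat_lit 382) .nil))))))) (.g (nat_lit 6) .nil .nil))) 
(.lf (nat_lit 30816) (.g (nat_lit 2258) (.e (nat_lit 1201) (nat_lit 88) (.e (nat_lit 65571) (nat_lit 3) (.e (nat_lit 98359) (nat_lit 26) (.e (nat_lit 426286) (nat_lit 10) (.e (nat_lit 434245) (nat_lit 28) (.e (nat_lit 573474) (nat_lit 12) (.e (nat_lit 57344) (nat_lit 0) (.e (nat_lit 7125) (nat_lit 382) .nil)))))))) (.g (nat_lit 4) .nil .nil)))) (.nd (nat_lit 5) 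
(.lf (nat_lit 30800) (.g (nat_lit 4817) (.e (nat_lit 1201) (nat_lit 88) (.e (nat_lit 65570) (nat_lit 3) (.e (nat_lit 98373) (nat_lit 29) (.e (nat_lit 450588) (nat_lit 10) (.e (nat_lit 573475) (nat_lit 12) (.e (nat_lit 57353) (nat_lit 0) (.e (nat_lit 7125) (nat_lit 382) .nil))))))) (.g (nat_lit 6) .nil .nil))) 
(.lf (nat_lit 30832) (.g (nat_lit 2363) (.e (nat_lit 1201) (nat_lit 88) (.e (nat_lit 65571) (nat_lit 3) (.e (nat_lit 98359) (nat_lit 26) (.e (nat_lit 426286) (nat_lit 10) (.e (nat_lit 434247) (nat_lit 28) (.e (nat_lit 573478) (nat_lit 12) (.e (nat_lit 57352) (nat_lit 0) (.e (nat_lit 7125) (nat_lit 382) .nil)))))))) (.g (nat_lit 4) .nil .nil))))) (.nd (nat_lit 4) (.nd (nat_lit 5) 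
(.lf (nat_lit 30792) (.g (nat_lit 3294) (.e (nat_lit 1201) (nat_lit 88) (.e (nat_lit 65570) (nat_lit 3) (.e (nat_lit 98373) (nat_lit 29) (.e (nat_lit 450588) (nat_lit 10) (.e (nat_lit 573475) (nat_lit 12) (.e (nat_lit 57344) (nat_lit 0) (.e (nat_lit 7125) (nat_lit 382) .nil))))))) (.g (nat_lit 4) .nil .nil))) 
(.lf (nat_lit 30824) (.g (nat_lit 3146) (.e (nat_lit 1201) (nat_lit 88) (.e (nat_lit 65571) (nat_lit 3) (.e (nat_lit 98359) (nat_lit 26) (.e (nat_lit 426286) (nat_lit 10) (.e (nat_lit 434247) (nat_lit 28) (.e (nat_lit 573477) (nat_lit 12) (.e (nat_lit 57351) (nat_lit 0) (.e (nat_lit 7124) (nat_lit 382) .nil)))))))) (.g (nat_lit 5) .nil .nil)))) (.nd (nat_lit 5) 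
(.lf (nat_lit 30808) (.g (nat_lit 4293) (.e (nat_lit 1201) (nat_lit 88) (.e (nat_lit 65571) (nat_lit 3) (.e (nat_lit 98359) (nat_lit 26) (.e (nat_lit 426286) (nat_lit 10) (.e (nat_lit 434242) (nat_lit 28) (.e (nat_lit 573474) (nat_lit 12) (.e (nat_lit 57347) (nat_lit 0) (.e (nat_lit 7125) (nat_lit 382) .nil)))))))) (.g (nat_lit 6) .nil .nil))) 
(.lf (nat_lit 30840) (.g (nat_lit 3166) (.e (nat_lit 1201) (nat_lit 88) (.e (nat_lit 65571) (nat_lit 3) (.e (nat_lit 98359) (nat_lit 26) (.e (nat_lit 426286) (nat_lit 10) (.e (nat_lit 434248) (nat_lit 28) (.e (nat_lit 573475) (nat_lit 12) (.e (nat_lit 57344) (nat_lit 0) (.e (nat_lit 7125) (nat_lit 382) .nil)))))))) (.g (nat_lit 5) .nil .nil)))))) (.nd (nat_lit 3) (.nd (nat_lit 4) (.nd (nat_lit 5) 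
(.lf (nat_lit 30788) (.g (nat_lit 4127) (.e (nat_lit 1201) (nat_lit 88) (.e (nat_lit 65570) (nat_lit 3) (.e (nat_lit 98373) (nat_lit 29) (.e (nat_lit 450588) (nat_lit 10) (.e (nat_lit 573473) (nat_lit 12) (.e (nat_lit 57353) (nat_lit 0) (.e (nat_lit 7122) (nat_lit 382) .nil))))))) (.g (nat_lit 5) .nil .nil))) 
(.lf (nat_lit 30820) (.g (nat_lit 5042) (.e (nat_lit 1201) (nat_lit 88) (.e (nat_lit 65571) (nat_lit 3) (.e (nat_lit 98359) (nat_lit 26) (.e (nat_lit 426286) (nat_lit 10) (.e (nat_lit 434245) (nat_lit 28) (.e (nat_lit 573474) (nat_lit 12) (.e (nat_lit 57348) (nat_lit 0) (.e (nat_lit 7124) (nat_lit 382) .nil)))))))) (.g (nat_lit 8) .nil .nil)))) (.nd (nat_lit 5) 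
(.lf (nat_lit 30804) (.g (nat_lit 4294) (.e (nat_lit 1201) (nat_lit 88) (.e (nat_lit 65571) (nat_lit 3) (.e (nat_lit 98356) (nat_lit 26) (.e (nat_lit 426422) (nat_lit 16) (.e (nat_lit 57692) (nat_lit 156) (.e (nat_lit 163875) (nat_lit 3) (.e (nat_lit 204830) (nat_lit 18) (.e (nat_lit 57830) (nat_lit 250) .nil)))))))) (.g (nat_lit 6) .nil .nil))) 
(.lf (nat_lit 30836) (.g (nat_lit 2001) (.e (nat_lit 1201) (nat_lit 88) (.e (nat_lit 65571) (nat_lit 3) (.e (nat_lit 98359) (nat_lit 26) (.e (nat_lit 426286) (nat_lit 10) (.e (nat_lit 434248) (nat_lit 28) (.e (nat_lit 573473) (nat_lit 12) (.e (nat_lit 57352) (nat_lit 0) (.e (nat_lit 7124) (nat_lit 382) .nil)))))))) (.g (nat_lit 4) .nil .nil))))) (.nd (nat_lit 4) (.nd (nat_lit 5) 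
(.lf (nat_lit 30796) (.g (nat_lit 6269) (.e (nat_lit 1201) (nat_lit 88) (.e (nat_lit 65570) (nat_lit 3) (.e (nat_lit 98373) (nat_lit 29) (.e (nat_lit 450588) (nat_lit 10) (.e (nat_lit 573475) (nat_lit 12) (.e (nat_lit 57347) (nat_lit 0) (.e (nat_lit 7125) (nat_lit 382) .nil))))))) (.g (nat_lit 0) .nil .nil))) 
(.lf (nat_lit 30828) (.g (nat_lit 4240) (.e (nat_lit 1201) (nat_lit 88) (.e (nat_lit 65571) (nat_lit 3) (.e (nat_lit 98359) (nat_lit 26) (.e (nat_lit 426286) (nat_lit 10) (.e (nat_lit 434247) (nat_lit 28) (.e (nat_lit 573477) (nat_lit 12) (.e (nat_lit 57353) (nat_lit 0) (.e (nat_lit 7124) (nat_lit 382) .nil)))))))) (.g (nat_lit 0) .nil .nil)))) (.nd (nat_lit 5) 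
(.lf (nat_lit 30812) (.g (nat_lit 1903) (.e (nat_lit 1201) (nat_lit 88) (.e (nat_lit 65571) (nat_lit 3) (.e (nat_lit 98359) (nat_lit 26) (.e (nat_lit 426286) (nat_lit 10) (.e (nat_lit 434245) (nat_lit 28) (.e (nat_lit 573473) (nat_lit 12) (.e (nat_lit 57352) (nat_lit 0) (.e (nat_lit 7124) (nat_lit 382) .nil)))))))) (.g (nat_lit 4) .nil .nil))) 
(.lf (nat_lit 30844) (.g (nat_lit 4606) (.e (nat_lit 1201) (nat_lit 88) (.e (nat_lit 65571) (nat_lit 3) (.e (nat_lit 98359) (nat_lit 26) (.e (nat_lit 426286) (nat_lit 10) (.e (nat_lit 434248) (nat_lit 28) (.e (nat_lit 573475) (nat_lit 12) (.e (nat_lit 57347) (nat_lit 0) (.e (nat_lit 7122) (nat_lit 382) .nil)))))))) (.g (nat_lit 7) .nil .nil))))))) 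
(.nd (nat_lit 2) (.nd (nat_lit 3) (.nd (nat_lit 4) (.nd (nat_lit 5) 
(.lf (nat_lit 30786) (.g (nat_lit 2951) (.e (nat_lit 1201) (nat_lit 88) (.e (nat_lit 65570) (nat_lit 3) (.e (nat_lit 98373) (nat_lit 29) (.e (nat_lit 450588) (nat_lit 10) (.e (nat_lit 573473) (nat_lit 12) (.e (nat_lit 57351) (nat_lit 0) (.e (nat_lit 7125) (nat_lit 382) .nil))))))) (.g (nat_lit 4) .nil .nil))) 
(.lf (nat_lit 30818) (.g (nat_lit 4485) (.e (nat_lit 1201) (nat_lit 88) (.e (nat_lit 65571) (nat_lit 3) (.e (nat_lit 98359) (nat_lit 26) (.e (nat_lit 426286) (nat_lit 10) (.e (nat_lit 434245) (nat_lit 28) (.e (nat_lit 573474) (nat_lit 12) (.e (nat_lit 57347) (nat_lit 0) (.e (nat_lit 7122) (nat_lit 382) .nil)))))))) (.g (nat_lit 7) .nil .nil)))) (.nd (nat_lit 5) 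
(.lf (nat_lit 30802) (.g (nat_lit 4144) (.e (nat_lit 1201) (nat_lit 88) (.e (nat_lit 65571) (nat_lit 3) (.e (nat_lit 98356) (nat_lit 26) (.e (nat_lit 426422) (nat_lit 16) (.e (nat_lit 57692) (nat_lit 156) (.e (nat_lit 163874) (nat_lit 3) (.e (nat_lit 204830) (nat_lit 18) (.e (nat_lit 57830) (nat_lit 250) .nil)))))))) (.g (nat_lit 6) .nil .nil))) 
(.lf (nat_lit 30834) (.g (nat_lit 3943) (.e (nat_lit 1201) (nat_lit 88) (.e (nat_lit 65571) (nat_lit 3) (.e (nat_lit 98359) (nat_lit 26) (.e (nat_lit 426286) (nat_lit 10) (.e (nat_lit 434248) (nat_lit 28) (.e (nat_lit 573473) (nat_lit 12) (.e (nat_lit 57347) (nat_lit 0) (.e (nat_lit 7124) (nat_lit 382) .nil)))))))) (.g (nat_lit 6) .nil .nil))))) (.nd (nat_lit 4) (.nd (nat_lit 5) 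
(.lf (nat_lit 30794) (.g (nat_lit 3018) (.e (nat_lit 1201) (nat_lit 88) (.e (nat_lit 65570) (nat_lit 3) (.e (nat_lit 98373) (nat_lit 29) (.e (nat_lit 450588) (nat_lit 10) (.e (nat_lit 573475) (nat_lit 12) (.e (nat_lit 57345) (nat_lit 0) (.e (nat_lit 7125) (nat_lit 382) .nil))))))) (.g (nat_lit 4) .nil .nil))) 
(.lf (nat_lit 30826) (.g (nat_lit 2976) (.e (nat_lit 1201) (nat_lit 88) (.e (nat_lit 65571) (nat_lit 3) (.e (nat_lit 98359) (nat_lit 26) (.e (nat_lit 426286) (nat_lit 10) (.e (nat_lit 434247) (nat_lit 28) (.e (nat_lit 573477) (nat_lit 12) (.e (nat_lit 57352) (nat_lit 0) (.e (nat_lit 7125) (nat_lit 382) .nil)))))))) (.g (nat_lit 5) .nil .nil)))) (.nd (nat_lit 5) 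
(.lf (nat_lit 30810) (.g (nat_lit 3821) (.e (nat_lit 1201) (nat_lit 88) (.e (nat_lit 65571) (nat_lit 3) (.e (nat_lit 98359) (nat_lit 26) (.e (nat_lit 426286) (nat_lit 10) (.e (nat_lit 434245) (nat_lit 28) (.e (nat_lit 573473) (nat_lit 12) (.e (nat_lit 57347) (nat_lit 0) (.e (nat_lit 7124) (nat_lit 382) .nil)))))))) (.g (nat_lit 6) .nil .nil))) 
(.lf (nat_lit 30842) (.g (nat_lit 2444) (.e (nat_lit 1201) (nat_lit 88) (.e (nat_lit 65571) (nat_lit 3) (.e (nat_lit 98359) (nat_lit 26) (.e (nat_lit 426286) (nat_lit 10) (.e (nat_lit 434248) (nat_lit 28) (.e (nat_lit 573475) (nat_lit 12) (.e (nat_lit 57345) (nat_lit 0) (.e (nat_lit 7124) (nat_lit 382) .nil)))))))) (.g (nat_lit 4) .nil .nil)))))) (.nd (nat_lit 3) (.nd (nat_lit 4) (.nd (nat_lit 5) 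
(.lf (nat_lit 30790) (.g (nat_lit 2819) (.e (nat_lit 1201) (nat_lit 88) (.e (nat_lit 65570) (nat_lit 3) (.e (nat_lit 98373) (nat_lit 29) (.e (nat_lit 450588) (nat_lit 10) (.e (nat_lit 573475) (nat_lit 12) .nil))))) .nil)) 
(.lf (nat_lit 30822) (.g (nat_lit 1794) (.e (nat_lit 1201) (nat_lit 88) (.e (nat_lit 65571) (nat_lit 3) (.e (nat_lit 98359) (nat_lit 26) (.e (nat_lit 426286) (nat_lit 10) (.e (nat_lit 434247) (nat_lit 28) .nil))))) .nil))) (.nd (nat_lit 5) 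
(.lf (nat_lit 30806) (.g (nat_lit 3009) (.e (nat_lit 1201) (nat_lit 88) (.e (nat_lit 65571) (nat_lit 3) (.e (nat_lit 98359) (nat_lit 26) (.e (nat_lit 426171) (nat_lit 7) (.e (nat_lit 409616) (nat_lit 10) (.e (nat_lit 604) (nat_lit 45) (.e (nat_lit 532504) (nat_lit 1) (.e (nat_lit 57830) (nat_lit 250) .nil)))))))) (.g (nat_lit 4) .nil .nil))) 
(.lf (nat_lit 30838) (.g (nat_lit 3741) (.e (nat_lit 1201) (nat_lit 88) (.e (nat_lit 65571) (nat_lit 3) (.e (nat_lit 98359) (nat_lit 26) (.e (nat_lit 426286) (nat_lit 10) (.e (nat_lit 434248) (nat_lit 28) (.e (nat_lit 573473) (nat_lit 12) (.e (nat_lit 57353) (nat_lit 0) (.e (nat_lit 7122) (nat_lit 382) .nil)))))))) (.g (nat_lit 6) .nil .nil))))) (.nd (nat_lit 4) (.nd (nat_lit 5) 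
(.lf (nat_lit 30798) (.g (nat_lit 3403) (.e (nat_lit 1201) (nat_lit 88) (.e (nat_lit 65570) (nat_lit 3) (.e (nat_lit 98373) (nat_lit 29) (.e (nat_lit 450588) (nat_lit 10) (.e (nat_lit 573475) (nat_lit 12) (.e (nat_lit 57353) (nat_lit 0) (.e (nat_lit 7122) (nat_lit 382) .nil))))))) (.g (nat_lit 4) .nil .nil))) 
(.lf (nat_lit 30830) (.g (nat_lit 1989) (.e (nat_lit 1201) (nat_lit 88) (.e (nat_lit 65571) (nat_lit 3) (.e (nat_lit 98359) (nat_lit 26) (.e (nat_lit 426286) (nat_lit 10) (.e (nat_lit 434247) (nat_lit 28) (.e (nat_lit 573478) (nat_lit 12) (.e (nat_lit 57344) (nat_lit 0) (.e (nat_lit 7125) (nat_lit 382) .nil)))))))) (.g (nat_lit 4) .nil .nil)))) (.nd (nat_lit 5) 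
(.lf (nat_lit 30814) (.g (nat_lit 3638) (.e (nat_lit 1201) (nat_lit 88) (.e (nat_lit 65571) (nat_lit 3) (.e (nat_lit 98359) (nat_lit 26) (.e (nat_lit 426286) (nat_lit 10) (.e (nat_lit 434245) (nat_lit 28) (.e (nat_lit 573473) (nat_lit 12) (.e (nat_lit 57353) (nat_lit 0) (.e (nat_lit 7122) (nat_lit 382) .nil)))))))) (.g (nat_lit 6) .nil .nil))) 
(.lf (nat_lit 30846) (.g (nat_lit 4650) (.e (nat_lit 1201) (nat_lit 88) (.e (nat_lit 65571) (nat_lit 3) (.e (nat_lit 98359) (nat_lit 26) (.e (nat_lit 426286) (nat_lit 10) (.e (nat_lit 434248) (nat_lit 28) (.e (nat_lit 573475) (nat_lit 12) (.e (nat_lit 57348) (nat_lit 0) (.e (nat_lit 7124) (nat_lit 382) .nil)))))))) (.g (nat_lit 8) .nil .nil)))))))) 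
(.nd (nat_lit 1) (.nd (nat_lit 2) (.nd (nat_lit 3) (.nd (nat_lit 4) (.nd (nat_lit 5) 
(.lf (nat_lit 30785) (.g (nat_lit 5138) (.e (nat_lit 1201) (nat_lit 88) (.e (nat_lit 65570) (nat_lit 3) (.e (nat_lit 98373) (nat_lit 29) (.e (nat_lit 450588) (nat_lit 10) (.e (nat_lit 573473) (nat_lit 12) (.e (nat_lit 57347) (nat_lit 0) (.e (nat_lit 7125) (nat_lit 382) .nil))))))) (.g (nat_lit 7) .nil .nil))) 
(.lf (nat_lit 30817) (.g (nat_lit 2375) (.e (nat_lit 1201) (nat_lit 88) (.e (nat_lit 65571) (nat_lit 3) (.e (nat_lit 98359) (nat_lit 26) (.e (nat_lit 426286) (nat_lit 10) (.e (nat_lit 434245) (nat_lit 28) (.e (nat_lit 573474) (nat_lit 12) (.e (nat_lit 57345) (nat_lit 0) (.e (nat_lit 7122) (nat_lit 382) .nil)))))))) (.g (nat_lit 4) .nil .nil)))) (.nd (nat_lit 5) 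
(.lf (nat_lit 30801) (.g (nat_lit 3708) (.e (nat_lit 1201) (nat_lit 88) (.e (nat_lit 65571) (nat_lit 3) (.e (nat_lit 98356) (nat_lit 26) (.e (nat_lit 426422) (nat_lit 16) (.e (nat_lit 57691) (nat_lit 156) (.e (nat_lit 163875) (nat_lit 3) (.e (nat_lit 204830) (nat_lit 18) (.e (nat_lit 57830) (nat_lit 250) .nil)))))))) (.g (nat_lit 5) .nil .nil))) 
(.lf (nat_lit 30833) (.g (nat_lit 3125) (.e (nat_lit 1201) (nat_lit 88) (.e (nat_lit 65571) (nat_lit 3) (.e (nat_lit 98359) (nat_lit 26) (.e (nat_lit 426286) (nat_lit 10) (.e (nat_lit 434247) (nat_lit 28) (.e (nat_lit 573478) (nat_lit 12) (.e (nat_lit 57353) (nat_lit 0) (.e (nat_lit 7122) (nat_lit 382) .nil)))))))) (.g (nat_lit 5) .nil .nil))))) (.nd (nat_lit 4) (.nd (nat_lit 5) 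
(.lf (nat_lit 30793) (.g (nat_lit 3336) (.e (nat_lit 1201) (nat_lit 88) (.e (nat_lit 65570) (nat_lit 3) (.e (nat_lit 98373) (nat_lit 29) (.e (nat_lit 450588) (nat_lit 10) (.e (nat_lit 573475) (nat_lit 12) (.e (nat_lit 57345) (nat_lit 0) (.e (nat_lit 7122) (nat_lit 382) .nil))))))) (.g (nat_lit 4) .nil .nil))) 
(.lf (nat_lit 30825) (.g (nat_lit 3462) (.e (nat_lit 1201) (nat_lit 88) (.e (nat_lit 65571) (nat_lit 3) (.e (nat_lit 98359) (nat_lit 26) (.e (nat_lit 426286) (nat_lit 10) (.e (nat_lit 434247) (nat_lit 28) (.e (nat_lit 573477) (nat_lit 12) (.e (nat_lit 57351) (nat_lit 0) (.e (nat_lit 7125) (nat_lit 382) .nil)))))))) (.g (nat_lit 6) .nil .nil)))) (.nd (nat_lit 5) 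
(.lf (nat_lit 30809) (.g (nat_lit 4117) (.e (nat_lit 1201) (nat_lit 88) (.e (nat_lit 65571) (nat_lit 3) (.e (nat_lit 98359) (nat_lit 26) (.e (nat_lit 426286) (nat_lit 10) (.e (nat_lit 434242) (nat_lit 28) (.e (nat_lit 573474) (nat_lit 12) (.e (nat_lit 57348) (nat_lit 0) (.e (nat_lit 7125) (nat_lit 382) .nil)))))))) (.g (nat_lit 6) .nil .nil))) 
(.lf (nat_lit 30841) (.g (nat_lit 3353) (.e (nat_lit 1201) (nat_lit 88) (.e (nat_lit 65571) (nat_lit 3) (.e (nat_lit 98359) (nat_lit 26) (.e (nat_lit 426286) (nat_lit 10) (.e (nat_lit 434248) (nat_lit 28) (.e (nat_lit 573475) (nat_lit 12) (.e (nat_lit 57345) (nat_lit 0) (.e (nat_lit 7122) (nat_lit 382) .nil)))))))) (.g (nat_lit 5) .nil .nil)))))) (.nd (nat_lit 3) (.nd (nat_lit 4) (.nd (nat_lit 5) 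
(.lf (nat_lit 30789) (.g (nat_lit 5394) (.e (nat_lit 1201) (nat_lit 88) (.e (nat_lit 65570) (nat_lit 3) (.e (nat_lit 98373) (nat_lit 29) (.e (nat_lit 450588) (nat_lit 10) (.e (nat_lit 573473) (nat_lit 12) (.e (nat_lit 57353) (nat_lit 0) (.e (nat_lit 7125) (nat_lit 382) .nil))))))) (.g (nat_lit 0) .nil .nil))) 
(.lf (nat_lit 30821) (.g (nat_lit 4107) (.e (nat_lit 1201) (nat_lit 88) (.e (nat_lit 65571) (nat_lit 3) (.e (nat_lit 98359) (nat_lit 26) (.e (nat_lit 426286) (nat_lit 10) (.e (nat_lit 434245) (nat_lit 28) (.e (nat_lit 573474) (nat_lit 12) (.e (nat_lit 57353) (nat_lit 0) (.e (nat_lit 7125) (nat_lit 382) .nil)))))))) (.g (nat_lit 6) .nil .nil)))) (.nd (nat_lit 5) 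
(.lf (nat_lit 30805) (.g (nat_lit 1521) (.e (nat_lit 1201) (nat_lit 88) (.e (nat_lit 65571) (nat_lit 3) (.e (nat_lit 98359) (nat_lit 26) (.e (nat_lit 426170) (nat_lit 7) .nil)))) .nil)) 
(.lf (nat_lit 30837) (.g (nat_lit 3218) (.e (nat_lit 1201) (nat_lit 88) (.e (nat_lit 65571) (nat_lit 3) (.e (nat_lit 98359) (nat_lit 26) (.e (nat_lit 426286) (nat_lit 10) (.e (nat_lit 434248) (nat_lit 28) (.e (nat_lit 573473) (nat_lit 12) (.e (nat_lit 57352) (nat_lit 0) (.e (nat_lit 7125) (nat_lit 382) .nil)))))))) (.g (nat_lit 5) .nil .nil))))) (.nd (nat_lit 4) (.nd (nat_lit 5) 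
(.lf (nat_lit 30797) (.g (nat_lit 4153) (.e (nat_lit 1201) (nat_lit 88) (.e (nat_lit 65570) (nat_lit 3) (.e (nat_lit 98373) (nat_lit 29) (.e (nat_lit 450588) (nat_lit 10) (.e (nat_lit 573475) (nat_lit 12) (.e (nat_lit 57348) (nat_lit 0) (.e (nat_lit 7122) (nat_lit 382) .nil))))))) (.g (nat_lit 5) .nil .nil))) 
(.lf (nat_lit 30829) (.g (nat_lit 2156) (.e (nat_lit 1201) (nat_lit 88) (.e (nat_lit 65571) (nat_lit 3) (.e (nat_lit 98359) (nat_lit 26) (.e (nat_lit 426286) (nat_lit 10) (.e (nat_lit 434247) (nat_lit 28) (.e (nat_lit 573478) (nat_lit 12) (.e (nat_lit 57344) (nat_lit 0) (.e (nat_lit 7122) (nat_lit 382) .nil)))))))) (.g (nat_lit 4) .nil .nil)))) (.nd (nat_lit 5) 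
(.lf (nat_lit 30813) (.g (nat_lit 3120) (.e (nat_lit 1201) (nat_lit 88) (.e (nat_lit 65571) (nat_lit 3) (.e (nat_lit 98359) (nat_lit 26) (.e (nat_lit 426286) (nat_lit 10) (.e (nat_lit 434245) (nat_lit 28) (.e (nat_lit 573473) (nat_lit 12) (.e (nat_lit 57352) (nat_lit 0) (.e (nat_lit 7125) (nat_lit 382) .nil)))))))) (.g (nat_lit 5) .nil .nil))) 
(.lf (nat_lit 30845) (.g (nat_lit 4041) (.e (nat_lit 1201) (nat_lit 88) (.e (nat_lit 65571) (nat_lit 3) (.e (nat_lit 98359) (nat_lit 26) (.e (nat_lit 426286) (nat_lit 10) (.e (nat_lit 434248) (nat_lit 28) (.e (nat_lit 573475) (nat_lit 12) (.e (nat_lit 57348) (nat_lit 0) (.e (nat_lit 7122) (nat_lit 382) .nil)))))))) (.g (nat_lit 6) .nil .nil))))))) 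
(.nd (nat_lit 2) (.nd (nat_lit 3) (.nd (nat_lit 4) (.nd (nat_lit 5) 
(.lf (nat_lit 30787) (.g (nat_lit 3670) (.e (nat_lit 1201) (nat_lit 88) (.e (nat_lit 65570) (nat_lit 3) (.e (nat_lit 98373) (nat_lit 29) (.e (nat_lit 450588) (nat_lit 10) (.e (nat_lit 573473) (nat_lit 12) (.e (nat_lit 57352) (nat_lit 0) (.e (nat_lit 7125) (nat_lit 382) .nil))))))) (.g (nat_lit 5) .nil .nil))) 
(.lf (nat_lit 30819) (.g (nat_lit 4432) (.e (nat_lit 1201) (nat_lit 88) (.e (nat_lit 65571) (nat_lit 3) (.e (nat_lit 98359) (nat_lit 26) (.e (nat_lit 426286) (nat_lit 10) (.e (nat_lit 434245) (nat_lit 28) (.e (nat_lit 573474) (nat_lit 12) (.e (nat_lit 57348) (nat_lit 0) (.e (nat_lit 7122) (nat_lit 382) .nil)))))))) (.g (nat_lit 7) .nil .nil)))) (.nd (nat_lit 5) 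
(.lf (nat_lit 30803) (.g (nat_lit 3291) (.e (nat_lit 1201) (nat_lit 88) (.e (nat_lit 65571) (nat_lit 3) (.e (nat_lit 98356) (nat_lit 26) (.e (nat_lit 426422) (nat_lit 16) (.e (nat_lit 57692) (nat_lit 156) (.e (nat_lit 163874) (nat_lit 3) (.e (nat_lit 204831) (nat_lit 18) (.e (nat_lit 57830) (nat_lit 250) .nil)))))))) (.g (nat_lit 5) .nil .nil))) 
(.lf (nat_lit 30835) (.g (nat_lit 4567) (.e (nat_lit 1201) (nat_lit 88) (.e (nat_lit 65571) (nat_lit 3) (.e (nat_lit 98359) (nat_lit 26) (.e (nat_lit 426286) (nat_lit 10) (.e (nat_lit 434248) (nat_lit 28) (.e (nat_lit 573473) (nat_lit 12) (.e (nat_lit 57347) (nat_lit 0) (.e (nat_lit 7125) (nat_lit 382) .nil)))))))) (.g (nat_lit 7) .nil .nil))))) (.nd (nat_lit 4) (.nd (nat_lit 5) 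
(.lf (nat_lit 30795) (.g (nat_lit 4764) (.e (nat_lit 1201) (nat_lit 88) (.e (nat_lit 65570) (nat_lit 3) (.e (nat_lit 98373) (nat_lit 29) (.e (nat_lit 450588) (nat_lit 10) (.e (nat_lit 573475) (nat_lit 12) (.e (nat_lit 57347) (nat_lit 0) (.e (nat_lit 7122) (nat_lit 382) .nil))))))) (.g (nat_lit 6) .nil .nil))) 
(.lf (nat_lit 30827) (.g (nat_lit 3460) (.e (nat_lit 1201) (nat_lit 88) (.e (nat_lit 65571) (nat_lit 3) (.e (nat_lit 98359) (nat_lit 26) (.e (nat_lit 426286) (nat_lit 10) (.e (nat_lit 434247) (nat_lit 28) (.e (nat_lit 573477) (nat_lit 12) (.e (nat_lit 57353) (nat_lit 0) (.e (nat_lit 7122) (nat_lit 382) .nil)))))))) (.g (nat_lit 6) .nil .nil)))) (.nd (nat_lit 5) 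
(.lf (nat_lit 30811) (.g (nat_lit 4445) (.e (nat_lit 1201) (nat_lit 88) (.e (nat_lit 65571) (nat_lit 3) (.e (nat_lit 98359) (nat_lit 26) (.e (nat_lit 426286) (nat_lit 10) (.e (nat_lit 434245) (nat_lit 28) (.e (nat_lit 573473) (nat_lit 12) (.e (nat_lit 57347) (nat_lit 0) (.e (nat_lit 7125) (nat_lit 382) .nil)))))))) (.g (nat_lit 7) .nil .nil))) 
(.lf (nat_lit 30843) (.g (nat_lit 2988) (.e (nat_lit 1201) (nat_lit 88) (.e (nat_lit 65571) (nat_lit 3) (.e (nat_lit 98359) (nat_lit 26) (.e (nat_lit 426286) (nat_lit 10) (.e (nat_lit 434248) (nat_lit 28) (.e (nat_lit 573475) (nat_lit 12) (.e (nat_lit 57345) (nat_lit 0) (.e (nat_lit 7125) (nat_lit 382) .nil)))))))) (.g (nat_lit 5) .nil .nil)))))) (.nd (nat_lit 3) (.nd (nat_lit 4) (.nd (nat_lit 5) 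
(.lf (nat_lit 30791) (.g (nat_lit 3356) (.e (nat_lit 1201) (nat_lit 88) (.e (nat_lit 65570) (nat_lit 3) (.e (nat_lit 98373) (nat_lit 29) (.e (nat_lit 450588) (nat_lit 10) (.e (nat_lit 573475) (nat_lit 12) (.e (nat_lit 57344) (nat_lit 0) (.e (nat_lit 7122) (nat_lit 382) .nil))))))) (.g (nat_lit 4) .nil .nil))) 
(.lf (nat_lit 30823) (.g (nat_lit 3373) (.e (nat_lit 1201) (nat_lit 88) (.e (nat_lit 65571) (nat_lit 3) (.e (nat_lit 98359) (nat_lit 26) (.e (nat_lit 426286) (nat_lit 10) (.e (nat_lit 434247) (nat_lit 28) (.e (nat_lit 573477) (nat_lit 12) (.e (nat_lit 57351) (nat_lit 0) (.e (nat_lit 7122) (nat_lit 382) .nil)))))))) (.g (nat_lit 6) .nil .nil)))) (.nd (nat_lit 5) 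
(.lf (nat_lit 30807) (.g (nat_lit 3797) (.e (nat_lit 1201) (nat_lit 88) (.e (nat_lit 65571) (nat_lit 3) (.e (nat_lit 98359) (nat_lit 26) (.e (nat_lit 426171) (nat_lit 7) (.e (nat_lit 409617) (nat_lit 10) (.e (nat_lit 604) (nat_lit 45) (.e (nat_lit 532501) (nat_lit 1) (.e (nat_lit 57829) (nat_lit 250) .nil)))))))) (.g (nat_lit 5) .nil .nil))) 
(.lf (nat_lit 30839) (.g (nat_lit 2534) (.e (nat_lit 1201) (nat_lit 88) (.e (nat_lit 65571) (nat_lit 3) (.e (nat_lit 98359) (nat_lit 26) (.e (nat_lit 426286) (nat_lit 10) (.e (nat_lit 434248) (nat_lit 28) (.e (nat_lit 573475) (nat_lit 12) (.e (nat_lit 57344) (nat_lit 0) (.e (nat_lit 7124) (nat_lit 382) .nil)))))))) (.g (nat_lit 4) .nil .nil))))) (.nd (nat_lit 4) (.nd (nat_lit 5) 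
(.lf (nat_lit 30799) (.g (nat_lit 4472) (.e (nat_lit 1201) (nat_lit 88) (.e (nat_lit 65570) (nat_lit 3) (.e (nat_lit 98373) (nat_lit 29) (.e (nat_lit 450588) (nat_lit 10) (.e (nat_lit 573475) (nat_lit 12) (.e (nat_lit 57353) (nat_lit 0) (.e (nat_lit 7124) (nat_lit 382) .nil))))))) (.g (nat_lit 5) .nil .nil))) 
(.lf (nat_lit 30831) (.g (nat_lit 3747) (.e (nat_lit 1201) (nat_lit 88) (.e (nat_lit 65571) (nat_lit 3) (.e (nat_lit 98359) (nat_lit 26) (.e (nat_lit 426286) (nat_lit 10) (.e (nat_lit 434247) (nat_lit 28) (.e (nat_lit 573478) (nat_lit 12) (.e (nat_lit 57352) (nat_lit 0) (.e (nat_lit 7122) (nat_lit 382) .nil)))))))) (.g (nat_lit 7) .nil .nil)))) (.nd (nat_lit 5) 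
(.lf (nat_lit 30815) (.g (nat_lit 2440) (.e (nat_lit 1201) (nat_lit 88) (.e (nat_lit 65571) (nat_lit 3) (.e (nat_lit 98359) (nat_lit 26) (.e (nat_lit 426286) (nat_lit 10) (.e (nat_lit 434245) (nat_lit 28) (.e (nat_lit 573474) (nat_lit 12) (.e (nat_lit 57344) (nat_lit 0) (.e (nat_lit 7122) (nat_lit 382) .nil)))))))) (.g (nat_lit 4) .nil .nil))) 
(.lf (nat_lit 30847) (.g (nat_lit 3474) (.e (nat_lit 1201) (nat_lit 88) (.e (nat_lit 65571) (nat_lit 3) (.e (nat_lit 98359) (nat_lit 26) (.e (nat_lit 426286) (nat_lit 10) (.e (nat_lit 434248) (nat_lit 28) (.e (nat_lit 573475) (nat_lit 12) (.e (nat_lit 57353) (nat_lit 0) (.e (nat_lit 7122) (nat_lit 382) .nil)))))))) (.g (nat_lit 6) .nil .nil)))))))))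

noncomputable def tv430 : DT := (.nd (nat_lit 0) (.nd (nat_lit 1) (.nd (nat_lit 2) (.nd (nat_lit 3) (.nd (nat_lit 4) (.nd (nat_lit 5) 
(.lf (nat_lit 30848) (.g (nat_lit 4197) (.e (nat_lit 1201) (nat_lit 88) (.e (nat_lit 65571) (nat_lit 3) (.e (nat_lit 98359) (nat_lit 26) (.e (nat_lit 426286) (nat_lit 10) (.e (nat_lit 434248) (nat_lit 28) (.e (nat_lit 573475) (nat_lit 12) (.e (nat_lit 57353) (nat_lit 0) (.e (nat_lit 7124) (nat_lit 382) .nil)))))))) (.g (nat_lit 7) .nil .nil))) 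
(.lf (nat_lit 30880) (.g (nat_lit 1918) (.e (nat_lit 1201) (nat_lit 88) (.e (nat_lit 65571) (nat_lit 3) (.e (nat_lit 98372) (nat_lit 29) (.e (nat_lit 450586) (nat_lit 10) (.e (nat_lit 573478) (nat_lit 12) .nil))))) .nil))) (.nd (nat_lit 5) 
(.lf (nat_lit 30864) (.g (nat_lit 2772) (.e (nat_lit 1201) (nat_lit 88) (.e (nat_lit 65571) (nat_lit 3) (.e (nat_lit 98372) (nat_lit 29) (.e (nat_lit 450586) (nat_lit 10) (.e (nat_lit 573475) (nat_lit 12) (.e (nat_lit 57345) (nat_lit 0) (.e (nat_lit 7122) (nat_lit 382) .nil))))))) (.g (nat_lit 4) .nil .nil))) 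
(.lf (nat_lit 30896) (.g (nat_lit 5951) (.e (nat_lit 1201) (nat_lit 88) (.e (nat_lit 65571) (nat_lit 3) (.e (nat_lit 98372) (nat_lit 29) (.e (nat_lit 450588) (nat_lit 10) (.e (nat_lit 573475) (nat_lit 12) (.e (nat_lit 57347) (nat_lit 0) (.e (nat_lit 7125) (nat_lit 382) .nil))))))) (.g (nat_lit 6) .nil .nil))))) (.nd (nat_lit 4) (.nd (nat_lit 5) 
(.lf (nat_lit 30856) (.g (nat_lit 4115) (.e (nat_lit 1201) (nat_lit 88) (.e (nat_lit 65571) (nat_lit 3) (.e (nat_lit 98372) (nat_lit 29) (.e (nat_lit 450586) (nat_lit 10) (.e (nat_lit 573473) (nat_lit 12) (.e (nat_lit 57347) (nat_lit 0) (.e (nat_lit 7125) (nat_lit 382) .nil))))))) (.g (nat_lit 6) .nil .nil))) 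
(.lf (nat_lit 30888) (.g (nat_lit 4920) (.e (nat_lit 1201) (nat_lit 88) (.e (nat_lit 65571) (nat_lit 3) (.e (nat_lit 98372) (nat_lit 29) (.e (nat_lit 450588) (nat_lit 10) (.e (nat_lit 573473) (nat_lit 12) (.e (nat_lit 57348) (nat_lit 0) (.e (nat_lit 7124) (nat_lit 382) .nil))))))) (.g (nat_lit 5) .nil .nil)))) (.nd (nat_lit 5) 
(.lf (nat_lit 30872) (.g (nat_lit 2680) (.e (nat_lit 1201) (nat_lit 88) (.e (nat_lit 65571) (nat_lit 3) (.e (nat_lit 98372) (nat_lit 29) (.e (nat_lit 450586) (nat_lit 10) (.e (nat_lit 573475) (nat_lit 12) (.e (nat_lit 57353) (nat_lit 0) (.e (nat_lit 7122) (nat_lit 382) .nil))))))) (.g (nat_lit 4) .nil .nil))) 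
(.lf (nat_lit 30904) (.g (nat_lit 3575) (.e (nat_lit 1201) (nat_lit 88) (.e (nat_lit 65571) (nat_lit 3) (.e (nat_lit 98373) (nat_lit 29) (.e (nat_lit 450587) (nat_lit 10) (.e (nat_lit 573477) (nat_lit 12) (.e (nat_lit 57351) (nat_lit 0) (.e (nat_lit 7125) (nat_lit 382) .nil))))))) (.g (nat_lit 5) .nil .nil)))))) (.nd (nat_lit 3) (.nd (nat_lit 4) (.nd (nat_lit 5) 
(.lf (nat_lit 30852) (.g (nat_lit 1318) (.e (nat_lit 1201) (nat_lit 88) (.e (nat_lit 65571) (nat_lit 3) (.e (nat_lit 98372) (nat_lit 29) (.e (nat_lit 450586) (nat_lit 10) .nil)))) .nil)) 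
(.lf (nat_lit 30884) (.g (nat_lit 1787) (.e (nat_lit 1201) (nat_lit 88) (.e (nat_lit 65571) (nat_lit 3) (.e (nat_lit 98372) (nat_lit 29) (.e (nat_lit 450587) (nat_lit 10) .nil)))) .nil))) (.nd (nat_lit 5) 
(.lf (nat_lit 30868) (.g (nat_lit 4967) (.e (nat_lit 1201) (nat_lit 88) (.e (nat_lit 65571) (nat_lit 3) (.e (nat_lit 98372) (nat_lit 29) (.e (nat_lit 450586) (nat_lit 10) (.e (nat_lit 573475) (nat_lit 12) (.e (nat_lit 57347) (nat_lit 0) (.e (nat_lit 7125) (nat_lit 382) .nil))))))) (.g (nat_lit 7) .nil .nil))) 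
(.lf (nat_lit 30900) (.g (nat_lit 5079) (.e (nat_lit 1201) (nat_lit 88) (.e (nat_lit 65571) (nat_lit 3) (.e (nat_lit 98372) (nat_lit 29) (.e (nat_lit 450588) (nat_lit 10) (.e (nat_lit 573475) (nat_lit 12) (.e (nat_lit 57351) (nat_lit 0) (.e (nat_lit 7125) (nat_lit 382) .nil))))))) (.g (nat_lit 6) .nil .nil))))) (.nd (nat_lit 4) (.nd (nat_lit 5) 
(.lf (nat_lit 30860) (.g (nat_lit 3373) (.e (nat_lit 1201) (nat_lit 88) (.e (nat_lit 65571) (nat_lit 3) (.e (nat_lit 98372) (nat_lit 29) (.e (nat_lit 450586) (nat_lit 10) (.e (nat_lit 573473) (nat_lit 12) (.e (nat_lit 57353) (nat_lit 0) (.e (nat_lit 7122) (nat_lit 382) .nil))))))) (.g (nat_lit 5) .nil .nil))) 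
(.lf (nat_lit 30892) (.g (nat_lit 4864) (.e (nat_lit 1201) (nat_lit 88) (.e (nat_lit 65571) (nat_lit 3) (.e (nat_lit 98372) (nat_lit 29) (.e (nat_lit 450588) (nat_lit 10) (.e (nat_lit 573473) (nat_lit 12) (.e (nat_lit 57353) (nat_lit 0) (.e (nat_lit 7124) (nat_lit 382) .nil))))))) (.g (nat_lit 5) .nil .nil)))) (.nd (nat_lit 5) 
(.lf (nat_lit 30876) (.g (nat_lit 2658) (.e (nat_lit 1201) (nat_lit 88) (.e (nat_lit 65571) (nat_lit 3) (.e (nat_lit 98372) (nat_lit 29) (.e (nat_lit 450586) (nat_lit 10) (.e (nat_lit 573477) (nat_lit 12) (.e (nat_lit 57351) (nat_lit 0) (.e (nat_lit 7124) (nat_lit 382) .nil))))))) (.g (nat_lit 4) .nil .nil))) 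
(.lf (nat_lit 30908) (.g (nat_lit 2278) (.e (nat_lit 1201) (nat_lit 88) (.e (nat_lit 65571) (nat_lit 3) (.e (nat_lit 98373) (nat_lit 29) (.e (nat_lit 450587) (nat_lit 10) (.e (nat_lit 573478) (nat_lit 12) .nil))))) .nil)))))) (.nd (nat_lit 2) (.nd (nat_lit 3) (.nd (nat_lit 4) (.nd (nat_lit 5) 
(.lf (nat_lit 30850) (.g (nat_lit 447) (.e (nat_lit 1201) (nat_lit 88) (.e (nat_lit 65571) (nat_lit 3) (.e (nat_lit 98370) (nat_lit 28) .nil))) .nil)) 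
(.lf (nat_lit 30882) (.g (nat_lit 1998) (.e (nat_lit 1201) (nat_lit 88) (.e (nat_lit 65571) (nat_lit 3) (.e (nat_lit 98372) (nat_lit 29) (.e (nat_lit 450586) (nat_lit 10) (.e (nat_lit 573478) (nat_lit 12) (.e (nat_lit 57352) (nat_lit 0) (.e (nat_lit 7125) (nat_lit 382) .nil))))))) (.g (nat_lit 4) .nil .nil)))) (.nd (nat_lit 5) 
(.lf (nat_lit 30866) (.g (nat_lit 3710) (.e (nat_lit 1201) (nat_lit 88) (.e (nat_lit 65571) (nat_lit 3) (.e (nat_lit 98372) (nat_lit 29) (.e (nat_lit 450586) (nat_lit 10) (.e (nat_lit 573475) (nat_lit 12) (.e (nat_lit 57347) (nat_lit 0) (.e (nat_lit 7122) (nat_lit 382) .nil))))))) (.g (nat_lit 5) .nil .nil))) 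
(.lf (nat_lit 30898) (.g (nat_lit 5054) (.e (nat_lit 1201) (nat_lit 88) (.e (nat_lit 65571) (nat_lit 3) (.e (nat_lit 98372) (nat_lit 29) (.e (nat_lit 450588) (nat_lit 10) (.e (nat_lit 573475) (nat_lit 12) (.e (nat_lit 57351) (nat_lit 0) (.e (nat_lit 7122) (nat_lit 382) .nil))))))) (.g (nat_lit 5) .nil .nil))))) (.nd (nat_lit 4) (.nd (nat_lit 5) 
(.lf (nat_lit 30858) (.g (nat_lit 4189) (.e (nat_lit 1201) (nat_lit 88) (.e (nat_lit 65571) (nat_lit 3) (.e (nat_lit 98372) (nat_lit 29) (.e (nat_lit 450586) (nat_lit 10) (.e (nat_lit 573473) (nat_lit 12) (.e (nat_lit 57348) (nat_lit 0) (.e (nat_lit 7124) (nat_lit 382) .nil))))))) (.g (nat_lit 0) .nil .nil))) 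
(.lf (nat_lit 30890) (.g (nat_lit 4878) (.e (nat_lit 1201) (nat_lit 88) (.e (nat_lit 65571) (nat_lit 3) (.e (nat_lit 98372) (nat_lit 29) (.e (nat_lit 450588) (nat_lit 10) (.e (nat_lit 573473) (nat_lit 12) (.e (nat_lit 57352) (nat_lit 0) (.e (nat_lit 7122) (nat_lit 382) .nil))))))) (.g (nat_lit 5) .nil .nil)))) (.nd (nat_lit 5) 
(.lf (nat_lit 30874) (.g (nat_lit 3788) (.e (nat_lit 1201) (nat_lit 88) (.e (nat_lit 65571) (nat_lit 3) (.e (nat_lit 98372) (nat_lit 29) (.e (nat_lit 450586) (nat_lit 10) (.e (nat_lit 573475) (nat_lit 12) (.e (nat_lit 57353) (nat_lit 0) (.e (nat_lit 7125) (nat_lit 382) .nil))))))) (.g (nat_lit 5) .nil .nil))) 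
(.lf (nat_lit 30906) (.g (nat_lit 3322) (.e (nat_lit 1201) (nat_lit 88) (.e (nat_lit 65571) (nat_lit 3) (.e (nat_lit 98373) (nat_lit 29) (.e (nat_lit 450587) (nat_lit 10) (.e (nat_lit 573477) (nat_lit 12) (.e (nat_lit 57353) (nat_lit 0) (.e (nat_lit 7122) (nat_lit 382) .nil))))))) (.g (nat_lit 5) .nil .nil)))))) (.nd (nat_lit 3) (.nd (nat_lit 4) (.nd (nat_lit 5) 
(.lf (nat_lit 30854) (.g (nat_lit 2348) (.e (nat_lit 1201) (nat_lit 88) (.e (nat_lit 65571) (nat_lit 3) (.e (nat_lit 98372) (nat_lit 29) (.e (nat_lit 450586) (nat_lit 10) (.e (nat_lit 573473) (nat_lit 12) (.e (nat_lit 57347) (nat_lit 0) (.e (nat_lit 7122) (nat_lit 382) .nil))))))) (.g (nat_lit 4) .nil .nil))) 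
(.lf (nat_lit 30886) (.g (nat_lit 3300) (.e (nat_lit 1201) (nat_lit 88) (.e (nat_lit 65571) (nat_lit 3) (.e (nat_lit 98372) (nat_lit 29) (.e (nat_lit 450588) (nat_lit 10) (.e (nat_lit 573473) (nat_lit 12) .nil))))) .nil))) (.nd (nat_lit 5) 
(.lf (nat_lit 30870) (.g (nat_lit 3845) (.e (nat_lit 1201) (nat_lit 88) (.e (nat_lit 65571) (nat_lit 3) (.e (nat_lit 98372) (nat_lit 29) (.e (nat_lit 450586) (nat_lit 10) (.e (nat_lit 573475) (nat_lit 12) (.e (nat_lit 57348) (nat_lit 0) (.e (nat_lit 7124) (nat_lit 382) .nil))))))) (.g (nat_lit 5) .nil .nil))) 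
(.lf (nat_lit 30902) (.g (nat_lit 3480) (.e (nat_lit 1201) (nat_lit 88) (.e (nat_lit 65571) (nat_lit 3) (.e (nat_lit 98373) (nat_lit 29) (.e (nat_lit 450587) (nat_lit 10) (.e (nat_lit 573477) (nat_lit 12) (.e (nat_lit 57351) (nat_lit 0) (.e (nat_lit 7122) (nat_lit 382) .nil))))))) (.g (nat_lit 5) .nil .nil))))) (.nd (nat_lit 4) (.nd (nat_lit 5) 
(.lf (nat_lit 30862) (.g (nat_lit 2624) (.e (nat_lit 1201) (nat_lit 88) (.e (nat_lit 65571) (nat_lit 3) (.e (nat_lit 98372) (nat_lit 29) (.e (nat_lit 450586) (nat_lit 10) (.e (nat_lit 573475) (nat_lit 12) (.e (nat_lit 57344) (nat_lit 0) (.e (nat_lit 7122) (nat_lit 382) .nil))))))) (.g (nat_lit 4) .nil .nil))) 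
(.lf (nat_lit 30894) (.g (nat_lit 3395) (.e (nat_lit 1201) (nat_lit 88) (.e (nat_lit 65571) (nat_lit 3) (.e (nat_lit 98372) (nat_lit 29) (.e (nat_lit 450588) (nat_lit 10) (.e (nat_lit 573475) (nat_lit 12) (.e (nat_lit 57344) (nat_lit 0) (.e (nat_lit 7122) (nat_lit 382) .nil))))))) (.g (nat_lit 4) .nil .nil)))) (.nd (nat_lit 5) 
(.lf (nat_lit 30878) (.g (nat_lit 2451) (.e (nat_lit 1201) (nat_lit 88) (.e (nat_lit 65571) (nat_lit 3) (.e (nat_lit 98372) (nat_lit 29) (.e (nat_lit 450586) (nat_lit 10) (.e (nat_lit 573477) (nat_lit 12) (.e (nat_lit 57352) (nat_lit 0) (.e (nat_lit 7125) (nat_lit 382) .nil))))))) (.g (nat_lit 4) .nil .nil))) 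
(.lf (nat_lit 30910) (.g (nat_lit 4164) (.e (nat_lit 1201) (nat_lit 88) (.e (nat_lit 65571) (nat_lit 3) (.e (nat_lit 98373) (nat_lit 29) (.e (nat_lit 450587) (nat_lit 10) (.e (nat_lit 573478) (nat_lit 12) (.e (nat_lit 57351) (nat_lit 0) (.e (nat_lit 7125) (nat_lit 382) .nil))))))) (.g (nat_lit 0) .nil .nil)))))))) 
(.nd (nat_lit 1) (.nd (nat_lit 2) (.nd (nat_lit 3) (.nd (nat_lit 4) (.nd (nat_lit 5) 
(.lf (nat_lit 30849) (.g (nat_lit 2295) (.e (nat_lit 1201) (nat_lit 88) (.e (nat_lit 65571) (nat_lit 3) (.e (nat_lit 98359) (nat_lit 26) (.e (nat_lit 426286) (nat_lit 10) (.e (nat_lit 434248) (nat_lit 28) (.e (nat_lit 573476) (nat_lit 12) (.e (nat_lit 57353) (nat_lit 0) (.e (nat_lit 7125) (nat_lit 382) .nil)))))))) (.g (nat_lit 4) .nil .nil))) 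
(.lf (nat_lit 30881) (.g (nat_lit 3379) (.e (nat_lit 1201) (nat_lit 88) (.e (nat_lit 65571) (nat_lit 3) (.e (nat_lit 98372) (nat_lit 29) (.e (nat_lit 450586) (nat_lit 10) (.e (nat_lit 573478) (nat_lit 12) (.e (nat_lit 57352) (nat_lit 0) (.e (nat_lit 7122) (nat_lit 382) .nil))))))) (.g (nat_lit 6) .nil .nil)))) (.nd (nat_lit 5) 
(.lf (nat_lit 30865) (.g (nat_lit 2410) (.e (nat_lit 1201) (nat_lit 88) (.e (nat_lit 65571) (nat_lit 3) (.e (nat_lit 98372) (nat_lit 29) (.e (nat_lit 450586) (nat_lit 10) (.e (nat_lit 573475) (nat_lit 12) (.e (nat_lit 57345) (nat_lit 0) (.e (nat_lit 7125) (nat_lit 382) .nil))))))) (.g (nat_lit 4) .nil .nil))) 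
(.lf (nat_lit 30897) (.g (nat_lit 5205) (.e (nat_lit 1201) (nat_lit 88) (.e (nat_lit 65571) (nat_lit 3) (.e (nat_lit 98372) (nat_lit 29) (.e (nat_lit 450588) (nat_lit 10) (.e (nat_lit 573475) (nat_lit 12) (.e (nat_lit 57348) (nat_lit 0) (.e (nat_lit 7125) (nat_lit 382) .nil))))))) (.g (nat_lit 5) .nil .nil))))) (.nd (nat_lit 4) (.nd (nat_lit 5) 
(.lf (nat_lit 30857) (.g (nat_lit 3596) (.e (nat_lit 1201) (nat_lit 88) (.e (nat_lit 65571) (nat_lit 3) (.e (nat_lit 98372) (nat_lit 29) (.e (nat_lit 450586) (nat_lit 10) (.e (nat_lit 573473) (nat_lit 12) (.e (nat_lit 57348) (nat_lit 0) (.e (nat_lit 7122) (nat_lit 382) .nil))))))) (.g (nat_lit 6) .nil .nil))) 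
(.lf (nat_lit 30889) (.g (nat_lit 5172) (.e (nat_lit 1201) (nat_lit 88) (.e (nat_lit 65571) (nat_lit 3) (.e (nat_lit 98372) (nat_lit 29) (.e (nat_lit 450588) (nat_lit 10) (.e (nat_lit 573473) (nat_lit 12) (.e (nat_lit 57348) (nat_lit 0) (.e (nat_lit 7125) (nat_lit 382) .nil))))))) (.g (nat_lit 5) .nil .nil)))) (.nd (nat_lit 5) 
(.lf (nat_lit 30873) (.g (nat_lit 3441) (.e (nat_lit 1201) (nat_lit 88) (.e (nat_lit 65571) (nat_lit 3) (.e (nat_lit 98372) (nat_lit 29) (.e (nat_lit 450586) (nat_lit 10) (.e (nat_lit 573475) (nat_lit 12) (.e (nat_lit 57353) (nat_lit 0) (.e (nat_lit 7124) (nat_lit 382) .nil))))))) (.g (nat_lit 5) .nil .nil))) 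
(.lf (nat_lit 30905) (.g (nat_lit 2862) (.e (nat_lit 1201) (nat_lit 88) (.e (nat_lit 65571) (nat_lit 3) (.e (nat_lit 98373) (nat_lit 29) (.e (nat_lit 450587) (nat_lit 10) (.e (nat_lit 573477) (nat_lit 12) (.e (nat_lit 57352) (nat_lit 0) (.e (nat_lit 7125) (nat_lit 382) .nil))))))) (.g (nat_lit 4) .nil .nil)))))) (.nd (nat_lit 3) (.nd (nat_lit 4) (.nd (nat_lit 5) 
(.lf (nat_lit 30853) (.g (nat_lit 1809) (.e (nat_lit 1201) (nat_lit 88) (.e (nat_lit 65571) (nat_lit 3) (.e (nat_lit 98372) (nat_lit 29) (.e (nat_lit 450586) (nat_lit 10) (.e (nat_lit 573473) (nat_lit 12) .nil))))) .nil)) 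
(.lf (nat_lit 30885) (.g (nat_lit 2382) (.e (nat_lit 1201) (nat_lit 88) (.e (nat_lit 65571) (nat_lit 3) (.e (nat_lit 98372) (nat_lit 29) (.e (nat_lit 450587) (nat_lit 10) (.e (nat_lit 573477) (nat_lit 12) .nil))))) .nil))) (.nd (nat_lit 5) 
(.lf (nat_lit 30869) (.g (nat_lit 3198) (.e (nat_lit 1201) (nat_lit 88) (.e (nat_lit 65571) (nat_lit 3) (.e (nat_lit 98372) (nat_lit 29) (.e (nat_lit 450586) (nat_lit 10) (.e (nat_lit 573475) (nat_lit 12) (.e (nat_lit 57348) (nat_lit 0) (.e (nat_lit 7122) (nat_lit 382) .nil))))))) (.g (nat_lit 5) .nil .nil))) 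
(.lf (nat_lit 30901) (.g (nat_lit 1509) (.e (nat_lit 1201) (nat_lit 88) (.e (nat_lit 65571) (nat_lit 3) (.e (nat_lit 98373) (nat_lit 29) (.e (nat_lit 450586) (nat_lit 10) .nil)))) .nil)))) (.nd (nat_lit 4) (.nd (nat_lit 5) 
(.lf (nat_lit 30861) (.g (nat_lit 4101) (.e (nat_lit 1201) (nat_lit 88) (.e (nat_lit 65571) (nat_lit 3) (.e (nat_lit 98372) (nat_lit 29) (.e (nat_lit 450586) (nat_lit 10) (.e (nat_lit 573473) (nat_lit 12) (.e (nat_lit 57353) (nat_lit 0) (.e (nat_lit 7124) (nat_lit 382) .nil))))))) (.g (nat_lit 0) .nil .nil))) 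
(.lf (nat_lit 30893) (.g (nat_lit 5095) (.e (nat_lit 1201) (nat_lit 88) (.e (nat_lit 65571) (nat_lit 3) (.e (nat_lit 98372) (nat_lit 29) (.e (nat_lit 450588) (nat_lit 10) (.e (nat_lit 573473) (nat_lit 12) (.e (nat_lit 57353) (nat_lit 0) (.e (nat_lit 7125) (nat_lit 382) .nil))))))) (.g (nat_lit 5) .nil .nil)))) (.nd (nat_lit 5) 
(.lf (nat_lit 30877) (.g (nat_lit 2939) (.e (nat_lit 1201) (nat_lit 88) (.e (nat_lit 65571) (nat_lit 3) (.e (nat_lit 98372) (nat_lit 29) (.e (nat_lit 450586) (nat_lit 10) (.e (nat_lit 573477) (nat_lit 12) (.e (nat_lit 57351) (nat_lit 0) (.e (nat_lit 7125) (nat_lit 382) .nil))))))) (.g (nat_lit 5) .nil .nil))) 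
(.lf (nat_lit 30909) (.g (nat_lit 3920) (.e (nat_lit 1201) (nat_lit 88) (.e (nat_lit 65571) (nat_lit 3) (.e (nat_lit 98373) (nat_lit 29) (.e (nat_lit 450587) (nat_lit 10) (.e (nat_lit 573478) (nat_lit 12) (.e (nat_lit 57351) (nat_lit 0) (.e (nat_lit 7124) (nat_lit 382) .nil))))))) (.g (nat_lit 0) .nil .nil))))))) (.nd (nat_lit 2) (.nd (nat_lit 3) (.nd (nat_lit 4) (.nd (nat_lit 5) 
(.lf (nat_lit 30851) (.g (nat_lit 1721) (.e (nat_lit 1201) (nat_lit 88) (.e (nat_lit 65571) (nat_lit 3) (.e (nat_lit 98372) (nat_lit 29) (.e (nat_lit 458496) (nat_lit 3) .nil)))) .nil)) 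
(.lf (nat_lit 30883) (.g (nat_lit 2735) (.e (nat_lit 1201) (nat_lit 88) (.e (nat_lit 65571) (nat_lit 3) (.e (nat_lit 98372) (nat_lit 29) (.e (nat_lit 450586) (nat_lit 10) (.e (nat_lit 573478) (nat_lit 12) (.e (nat_lit 57353) (nat_lit 0) (.e (nat_lit 7122) (nat_lit 382) .nil))))))) (.g (nat_lit 4) .nil .nil)))) (.nd (nat_lit 5) 
(.lf (nat_lit 30867) (.g (nat_lit 4495) (.e (nat_lit 1201) (nat_lit 88) (.e (nat_lit 65571) (nat_lit 3) (.e (nat_lit 98372) (nat_lit 29) (.e (nat_lit 450586) (nat_lit 10) (.e (nat_lit 573475) (nat_lit 12) (.e (nat_lit 57347) (nat_lit 0) (.e (nat_lit 7124) (nat_lit 382) .nil))))))) (.g (nat_lit 6) .nil .nil))) 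
(.lf (nat_lit 30899) (.g (nat_lit 4856) (.e (nat_lit 1201) (nat_lit 88) (.e (nat_lit 65571) (nat_lit 3) (.e (nat_lit 98372) (nat_lit 29) (.e (nat_lit 450588) (nat_lit 10) (.e (nat_lit 573475) (nat_lit 12) (.e (nat_lit 57351) (nat_lit 0) (.e (nat_lit 7124) (nat_lit 382) .nil))))))) (.g (nat_lit 5) .nil .nil))))) (.nd (nat_lit 4) (.nd (nat_lit 5) 
(.lf (nat_lit 30859) (.g (nat_lit 2848) (.e (nat_lit 1201) (nat_lit 88) (.e (nat_lit 65571) (nat_lit 3) (.e (nat_lit 98372) (nat_lit 29) (.e (nat_lit 450586) (nat_lit 10) (.e (nat_lit 573473) (nat_lit 12) (.e (nat_lit 57352) (nat_lit 0) (.e (nat_lit 7125) (nat_lit 382) .nil))))))) (.g (nat_lit 5) .nil .nil))) 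
(.lf (nat_lit 30891) (.g (nat_lit 3598) (.e (nat_lit 1201) (nat_lit 88) (.e (nat_lit 65571) (nat_lit 3) (.e (nat_lit 98372) (nat_lit 29) (.e (nat_lit 450588) (nat_lit 10) (.e (nat_lit 573473) (nat_lit 12) (.e (nat_lit 57352) (nat_lit 0) (.e (nat_lit 7125) (nat_lit 382) .nil))))))) (.g (nat_lit 4) .nil .nil)))) (.nd (nat_lit 5) 
(.lf (nat_lit 30875) (.g (nat_lit 2847) (.e (nat_lit 1201) (nat_lit 88) (.e (nat_lit 65571) (nat_lit 3) (.e (nat_lit 98372) (nat_lit 29) (.e (nat_lit 450586) (nat_lit 10) (.e (nat_lit 573477) (nat_lit 12) (.e (nat_lit 57351) (nat_lit 0) (.e (nat_lit 7122) (nat_lit 382) .nil))))))) (.g (nat_lit 4) .nil .nil))) 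
(.lf (nat_lit 30907) (.g (nat_lit 4107) (.e (nat_lit 1201) (nat_lit 88) (.e (nat_lit 65571) (nat_lit 3) (.e (nat_lit 98373) (nat_lit 29) (.e (nat_lit 450587) (nat_lit 10) (.e (nat_lit 573477) (nat_lit 12) (.e (nat_lit 57353) (nat_lit 0) (.e (nat_lit 7124) (nat_lit 382) .nil))))))) (.g (nat_lit 0) .nil .nil)))))) (.nd (nat_lit 3) (.nd (nat_lit 4) (.nd (nat_lit 5) 
(.lf (nat_lit 30855) (.g (nat_lit 3526) (.e (nat_lit 1201) (nat_lit 88) (.e (nat_lit 65571) (nat_lit 3) (.e (nat_lit 98372) (nat_lit 29) (.e (nat_lit 450586) (nat_lit 10) (.e (nat_lit 573473) (nat_lit 12) (.e (nat_lit 57347) (nat_lit 0) (.e (nat_lit 7124) (nat_lit 382) .nil))))))) (.g (nat_lit 5) .nil .nil))) 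
(.lf (nat_lit 30887) (.g (nat_lit 4940) (.e (nat_lit 1201) (nat_lit 88) (.e (nat_lit 65571) (nat_lit 3) (.e (nat_lit 98372) (nat_lit 29) (.e (nat_lit 450588) (nat_lit 10) (.e (nat_lit 573473) (nat_lit 12) (.e (nat_lit 57347) (nat_lit 0) (.e (nat_lit 7125) (nat_lit 382) .nil))))))) (.g (nat_lit 5) .nil .nil)))) (.nd (nat_lit 5) 
(.lf (nat_lit 30871) (.g (nat_lit 4124) (.e (nat_lit 1201) (nat_lit 88) (.e (nat_lit 65571) (nat_lit 3) (.e (nat_lit 98372) (nat_lit 29) (.e (nat_lit 450586) (nat_lit 10) (.e (nat_lit 573475) (nat_lit 12) (.e (nat_lit 57348) (nat_lit 0) (.e (nat_lit 7125) (nat_lit 382) .nil))))))) (.g (nat_lit 6) .nil .nil))) 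
(.lf (nat_lit 30903) (.g (nat_lit 3264) (.e (nat_lit 1201) (nat_lit 88) (.e (nat_lit 65571) (nat_lit 3) (.e (nat_lit 98373) (nat_lit 29) (.e (nat_lit 450587) (nat_lit 10) (.e (nat_lit 573477) (nat_lit 12) (.e (nat_lit 57351) (nat_lit 0) (.e (nat_lit 7124) (nat_lit 382) .nil))))))) (.g (nat_lit 5) .nil .nil))))) (.nd (nat_lit 4) (.nd (nat_lit 5) 
(.lf (nat_lit 30863) (.g (nat_lit 2422) (.e (nat_lit 1201) (nat_lit 88) (.e (nat_lit 65571) (nat_lit 3) (.e (nat_lit 98372) (nat_lit 29) (.e (nat_lit 450586) (nat_lit 10) (.e (nat_lit 573475) (nat_lit 12) (.e (nat_lit 57344) (nat_lit 0) (.e (nat_lit 7125) (nat_lit 382) .nil))))))) (.g (nat_lit 4) .nil .nil))) 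
(.lf (nat_lit 30895) (.g (nat_lit 4757) (.e (nat_lit 1201) (nat_lit 88) (.e (nat_lit 65571) (nat_lit 3) (.e (nat_lit 98372) (nat_lit 29) (.e (nat_lit 450588) (nat_lit 10) (.e (nat_lit 573475) (nat_lit 12) (.e (nat_lit 57347) (nat_lit 0) (.e (nat_lit 7122) (nat_lit 382) .nil))))))) (.g (nat_lit 5) .nil .nil)))) (.nd (nat_lit 5) 
(.lf (nat_lit 30879) (.g (nat_lit 2923) (.e (nat_lit 1201) (nat_lit 88) (.e (nat_lit 65571) (nat_lit 3) (.e (nat_lit 98372) (nat_lit 29) (.e (nat_lit 450586) (nat_lit 10) (.e (nat_lit 573477) (nat_lit 12) (.e (nat_lit 57353) (nat_lit 0) (.e (nat_lit 7122) (nat_lit 382) .nil))))))) (.g (nat_lit 5) .nil .nil))) 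
(.lf (nat_lit 30911) (.g (nat_lit 3791) (.e (nat_lit 1201) (nat_lit 88) (.e (nat_lit 65571) (nat_lit 3) (.e (nat_lit 98373) (nat_lit 29) (.e (nat_lit 450587) (nat_lit 10) (.e (nat_lit 573478) (nat_lit 12) (.e (nat_lit 57352) (nat_lit 0) (.e (nat_lit 7122) (nat_lit 382) .nil))))))) (.g (nat_lit 6) .nil .nil)))))))))

noncomputable def tv431 : DT := (.nd (nat_lit 0) (.nd (nat_lit 1) (.nd (nat_lit 2) (.nd (nat_lit 3) (.nd (nat_lit 4) (.nd (nat_lit 5) 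
(.lf (nat_lit 30912) (.g (nat_lit 2413) (.e (nat_lit 1201) (nat_lit 88) (.e (nat_lit 65571) (nat_lit 3) (.e (nat_lit 98373) (nat_lit 29) (.e (nat_lit 450587) (nat_lit 10) (.e (nat_lit 573478) (nat_lit 12) (.e (nat_lit 57352) (nat_lit 0) (.e (nat_lit 7125) (nat_lit 382) .nil))))))) (.g (nat_lit 4) .nil .nil))) 
(.lf (nat_lit 30944) (.g (nat_lit 2444) (.e (nat_lit 1201) (nat_lit 88) (.e (nat_lit 65581) (nat_lit 7) (.e (nat_lit 319534) (nat_lit 16) (.e (nat_lit 286749) (nat_lit 9) (.e (nat_lit 335997) (nat_lit 1) (.e (nat_lit 57844) (nat_lit 252) (.e (nat_lit 57364) (nat_lit 1) (.e (nat_lit 57829) (nat_lit 250) .nil)))))))) (.g (nat_lit 5) .nil .nil)))) (.nd (nat_lit 5) 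
(.lf (nat_lit 30928) (.g (nat_lit 5757) (.e (nat_lit 1201) (nat_lit 88) (.e (nat_lit 65571) (nat_lit 3) (.e (nat_lit 98373) (nat_lit 29) (.e (nat_lit 450588) (nat_lit 10) (.e (nat_lit 573475) (nat_lit 12) (.e (nat_lit 57347) (nat_lit 0) (.e (nat_lit 7125) (nat_lit 382) .nil))))))) (.g (nat_lit 0) .nil .nil))) 
(.lf (nat_lit 30960) (.g (nat_lit 2497) (.e (nat_lit 1201) (nat_lit 88) (.e (nat_lit 65581) (nat_lit 7) (.e (nat_lit 319534) (nat_lit 16) (.e (nat_lit 286756) (nat_lit 10) (.e (nat_lit 344160) (nat_lit 37) (.e (nat_lit 647201) (nat_lit 12) (.e (nat_lit 57353) (nat_lit 0) (.e (nat_lit 7125) (nat_lit 382) .nil)))))))) (.g (nat_lit 4) .nil .nil))))) (.nd (nat_lit 4) (.nd (nat_lit 5) 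
(.lf (nat_lit 30920) (.g (nat_lit 3407) (.e (nat_lit 1201) (nat_lit 88) (.e (nat_lit 65571) (nat_lit 3) (.e (nat_lit 98373) (nat_lit 29) (.e (nat_lit 450588) (nat_lit 10) (.e (nat_lit 573473) (nat_lit 12) (.e (nat_lit 57352) (nat_lit 0) (.e (nat_lit 7125) (nat_lit 382) .nil))))))) (.g (nat_lit 5) .nil .nil))) 
(.lf (nat_lit 30952) (.g (nat_lit 2883) (.e (nat_lit 1201) (nat_lit 88) (.e (nat_lit 65581) (nat_lit 7) (.e (nat_lit 319534) (nat_lit 16) (.e (nat_lit 286756) (nat_lit 10) (.e (nat_lit 344097) (nat_lit 18) (.e (nat_lit 5195) (nat_lit 294) (.e (nat_lit 57367) (nat_lit 1) (.e (nat_lit 57829) (nat_lit 250) .nil)))))))) (.g (nat_lit 5) .nil .nil)))) (.nd (nat_lit 5) 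
(.lf (nat_lit 30936) (.g (nat_lit 701) (.e (nat_lit 1201) (nat_lit 88) (.e (nat_lit 65571) (nat_lit 3) (.e (nat_lit 98374) (nat_lit 29) .nil))) .nil)) 
(.lf (nat_lit 30968) (.g (nat_lit 2672) (.e (nat_lit 1201) (nat_lit 88) (.e (nat_lit 65583) (nat_lit 7) (.e (nat_lit 319530) (nat_lit 16) (.e (nat_lit 286742) (nat_lit 9) (.e (nat_lit 335985) (nat_lit 1) (.e (nat_lit 57849) (nat_lit 252) (.e (nat_lit 57365) (nat_lit 1) (.e (nat_lit 57830) (nat_lit 250) .nil)))))))) (.g (nat_lit 6) .nil .nil)))))) (.nd (nat_lit 3) (.nd (nat_lit 4) (.nd (nat_lit 5) 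
(.lf (nat_lit 30916) (.g (nat_lit 4625) (.e (nat_lit 1201) (nat_lit 88) (.e (nat_lit 65571) (nat_lit 3) (.e (nat_lit 98373) (nat_lit 29) (.e (nat_lit 450588) (nat_lit 10) (.e (nat_lit 573473) (nat_lit 12) (.e (nat_lit 57347) (nat_lit 0) (.e (nat_lit 7125) (nat_lit 382) .nil))))))) (.g (nat_lit 6) .nil .nil))) 
(.lf (nat_lit 30948) (.g (nat_lit 2539) (.e (nat_lit 1201) (nat_lit 88) (.e (nat_lit 65581) (nat_lit 7) (.e (nat_lit 319534) (nat_lit 16) (.e (nat_lit 286756) (nat_lit 10) (.e (nat_lit 344097) (nat_lit 18) (.e (nat_lit 5194) (nat_lit 294) (.e (nat_lit 57366) (nat_lit 1) (.e (nat_lit 57830) (nat_lit 250) .nil)))))))) (.g (nat_lit 5) .nil .nil)))) (.nd (nat_lit 5) 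
(.lf (nat_lit 30932) (.g (nat_lit 4497) (.e (nat_lit 1201) (nat_lit 88) (.e (nat_lit 65571) (nat_lit 3) (.e (nat_lit 98373) (nat_lit 29) (.e (nat_lit 450588) (nat_lit 10) (.e (nat_lit 573475) (nat_lit 12) (.e (nat_lit 57351) (nat_lit 0) (.e (nat_lit 7124) (nat_lit 382) .nil))))))) (.g (nat_lit 0) .nil .nil))) 
(.lf (nat_lit 30964) (.g (nat_lit 2764) (.e (nat_lit 1201) (nat_lit 88) (.e (nat_lit 65582) (nat_lit 7) (.e (nat_lit 319534) (nat_lit 16) (.e (nat_lit 286749) (nat_lit 9) (.e (nat_lit 335997) (nat_lit 1) (.e (nat_lit 57848) (nat_lit 252) (.e (nat_lit 57368) (nat_lit 1) (.e (nat_lit 57830) (nat_lit 250) .nil)))))))) (.g (nat_lit 4) .nil .nil))))) (.nd (nat_lit 4) (.nd (nat_lit 5) 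
(.lf (nat_lit 30924) (.g (nat_lit 2953) (.e (nat_lit 1201) (nat_lit 88) (.e (nat_lit 65571) (nat_lit 3) (.e (nat_lit 98373) (nat_lit 29) (.e (nat_lit 450588) (nat_lit 10) (.e (nat_lit 573475) (nat_lit 12) (.e (nat_lit 57344) (nat_lit 0) (.e (nat_lit 7125) (nat_lit 382) .nil))))))) (.g (nat_lit 4) .nil .nil))) 
(.lf (nat_lit 30956) (.g (nat_lit 3153) (.e (nat_lit 1201) (nat_lit 88) (.e (nat_lit 65581) (nat_lit 7) (.e (nat_lit 319534) (nat_lit 16) (.e (nat_lit 286756) (nat_lit 10) (.e (nat_lit 344160) (nat_lit 37) (.e (nat_lit 647200) (nat_lit 12) (.e (nat_lit 57348) (nat_lit 0) (.e (nat_lit 7125) (nat_lit 382) .nil)))))))) (.g (nat_lit 5) .nil .nil)))) (.nd (nat_lit 5) 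
(.lf (nat_lit 30940) (.g (nat_lit 1553) (.e (nat_lit 1201) (nat_lit 88) (.e (nat_lit 65581) (nat_lit 7) (.e (nat_lit 319533) (nat_lit 16) (.e (nat_lit 286753) (nat_lit 10) (.e (nat_lit 344097) (nat_lit 18) (.e (nat_lit 5195) (nat_lit 294) (.e (nat_lit 57363) (nat_lit 1) (.e (nat_lit 57829) (nat_lit 250) .nil)))))))) (.g (nat_lit 4) .nil .nil))) 
(.lf (nat_lit 30972) (.g (nat_lit 2235) (.e (nat_lit 1201) (nat_lit 88) (.e (nat_lit 65583) (nat_lit 7) (.e (nat_lit 319530) (nat_lit 16) (.e (nat_lit 286742) (nat_lit 9) (.e (nat_lit 335989) (nat_lit 1) (.e (nat_lit 57847) (nat_lit 252) (.e (nat_lit 57368) (nat_lit 1) (.e (nat_lit 57830) (nat_lit 250) .nil)))))))) (.g (nat_lit 6) .nil .nil))))))) 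
(.nd (nat_lit 2) (.nd (nat_lit 3) (.nd (nat_lit 4) (.nd (nat_lit 5) 
(.lf (nat_lit 30914) (.g (nat_lit 2306) (.e (nat_lit 1201) (nat_lit 88) (.e (nat_lit 65571) (nat_lit 3) (.e (nat_lit 98373) (nat_lit 29) (.e (nat_lit 450588) (nat_lit 10) (.e (nat_lit 573473) (nat_lit 12) .nil))))) .nil)) 
(.lf (nat_lit 30946) (.g (nat_lit 3414) (.e (nat_lit 1201) (nat_lit 88) (.e (nat_lit 65581) (nat_lit 7) (.e (nat_lit 319534) (nat_lit 16) (.e (nat_lit 286749) (nat_lit 9) (.e (nat_lit 335997) (nat_lit 1) (.e (nat_lit 57854) (nat_lit 252) (.e (nat_lit 57364) (nat_lit 1) (.e (nat_lit 57830) (nat_lit 250) .nil)))))))) (.g (nat_lit 6) .nil .nil)))) (.nd (nat_lit 5) 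
(.lf (nat_lit 30930) (.g (nat_lit 4568) (.e (nat_lit 1201) (nat_lit 88) (.e (nat_lit 65571) (nat_lit 3) (.e (nat_lit 98373) (nat_lit 29) (.e (nat_lit 450588) (nat_lit 10) (.e (nat_lit 573475) (nat_lit 12) (.e (nat_lit 57348) (nat_lit 0) (.e (nat_lit 7124) (nat_lit 382) .nil))))))) (.g (nat_lit 6) .nil .nil))) 
(.lf (nat_lit 30962) (.g (nat_lit 2346) (.e (nat_lit 1201) (nat_lit 88) (.e (nat_lit 65582) (nat_lit 7) (.e (nat_lit 319534) (nat_lit 16) (.e (nat_lit 286749) (nat_lit 9) (.e (nat_lit 335997) (nat_lit 1) (.e (nat_lit 57848) (nat_lit 252) (.e (nat_lit 57365) (nat_lit 1) (.e (nat_lit 57830) (nat_lit 250) .nil)))))))) (.g (nat_lit 4) .nil .nil))))) (.nd (nat_lit 4) (.nd (nat_lit 5) 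
(.lf (nat_lit 30922) (.g (nat_lit 4625) (.e (nat_lit 1201) (nat_lit 88) (.e (nat_lit 65571) (nat_lit 3) (.e (nat_lit 98373) (nat_lit 29) (.e (nat_lit 450588) (nat_lit 10) (.e (nat_lit 573473) (nat_lit 12) (.e (nat_lit 57353) (nat_lit 0) (.e (nat_lit 7124) (nat_lit 382) .nil))))))) (.g (nat_lit 0) .nil .nil))) 
(.lf (nat_lit 30954) (.g (nat_lit 2057) (.e (nat_lit 1201) (nat_lit 88) (.e (nat_lit 65581) (nat_lit 7) (.e (nat_lit 319534) (nat_lit 16) (.e (nat_lit 286756) (nat_lit 10) (.e (nat_lit 344160) (nat_lit 37) .nil))))) .nil))) (.nd (nat_lit 5) 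
(.lf (nat_lit 30938) (.g (nat_lit 2888) (.e (nat_lit 1201) (nat_lit 88) (.e (nat_lit 65581) (nat_lit 7) (.e (nat_lit 319531) (nat_lit 16) (.e (nat_lit 286756) (nat_lit 10) (.e (nat_lit 344097) (nat_lit 18) (.e (nat_lit 5195) (nat_lit 294) (.e (nat_lit 57365) (nat_lit 1) (.e (nat_lit 57829) (nat_lit 250) .nil)))))))) (.g (nat_lit 4) .nil .nil))) 
(.lf (nat_lit 30970) (.g (nat_lit 2234) (.e (nat_lit 1201) (nat_lit 88) (.e (nat_lit 65583) (nat_lit 7) (.e (nat_lit 319530) (nat_lit 16) (.e (nat_lit 286742) (nat_lit 9) (.e (nat_lit 335985) (nat_lit 1) (.e (nat_lit 57854) (nat_lit 252) (.e (nat_lit 57364) (nat_lit 1) (.e (nat_lit 57830) (nat_lit 250) .nil)))))))) (.g (nat_lit 6) .nil .nil)))))) (.nd (nat_lit 3) (.nd (nat_lit 4) (.nd (nat_lit 5) 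
(.lf (nat_lit 30918) (.g (nat_lit 4706) (.e (nat_lit 1201) (nat_lit 88) (.e (nat_lit 65571) (nat_lit 3) (.e (nat_lit 98373) (nat_lit 29) (.e (nat_lit 450588) (nat_lit 10) (.e (nat_lit 573473) (nat_lit 12) (.e (nat_lit 57348) (nat_lit 0) (.e (nat_lit 7124) (nat_lit 382) .nil))))))) (.g (nat_lit 0) .nil .nil))) 
(.lf (nat_lit 30950) (.g (nat_lit 2891) (.e (nat_lit 1201) (nat_lit 88) (.e (nat_lit 65581) (nat_lit 7) (.e (nat_lit 319534) (nat_lit 16) (.e (nat_lit 286756) (nat_lit 10) (.e (nat_lit 344097) (nat_lit 18) (.e (nat_lit 5195) (nat_lit 294) (.e (nat_lit 57364) (nat_lit 1) (.e (nat_lit 57830) (nat_lit 250) .nil)))))))) (.g (nat_lit 5) .nil .nil)))) (.nd (nat_lit 5) 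
(.lf (nat_lit 30934) (.g (nat_lit 3933) (.e (nat_lit 1201) (nat_lit 88) (.e (nat_lit 65571) (nat_lit 3) (.e (nat_lit 98373) (nat_lit 29) (.e (nat_lit 450588) (nat_lit 10) (.e (nat_lit 573475) (nat_lit 12) (.e (nat_lit 57353) (nat_lit 0) (.e (nat_lit 7124) (nat_lit 382) .nil))))))) (.g (nat_lit 5) .nil .nil))) 
(.lf (nat_lit 30966) (.g (nat_lit 1833) (.e (nat_lit 1201) (nat_lit 88) (.e (nat_lit 65583) (nat_lit 7) (.e (nat_lit 319530) (nat_lit 16) (.e (nat_lit 286727) (nat_lit 0) (.e (nat_lit 7936) (nat_lit 362) (.e (nat_lit 180232) (nat_lit 0) (.e (nat_lit 5072) (nat_lit 292) .nil))))))) (.g (nat_lit 4) .nil .nil))))) (.nd (nat_lit 4) (.nd (nat_lit 5) 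
(.lf (nat_lit 30926) (.g (nat_lit 2773) (.e (nat_lit 1201) (nat_lit 88) (.e (nat_lit 65571) (nat_lit 3) (.e (nat_lit 98373) (nat_lit 29) (.e (nat_lit 450588) (nat_lit 10) (.e (nat_lit 573475) (nat_lit 12) (.e (nat_lit 57345) (nat_lit 0) (.e (nat_lit 7125) (nat_lit 382) .nil))))))) (.g (nat_lit 4) .nil .nil))) 
(.lf (nat_lit 30958) (.g (nat_lit 2517) (.e (nat_lit 1201) (nat_lit 88) (.e (nat_lit 65581) (nat_lit 7) (.e (nat_lit 319534) (nat_lit 16) (.e (nat_lit 286756) (nat_lit 10) (.e (nat_lit 344160) (nat_lit 37) (.e (nat_lit 647200) (nat_lit 12) (.e (nat_lit 57353) (nat_lit 0) (.e (nat_lit 7124) (nat_lit 382) .nil)))))))) (.g (nat_lit 4) .nil .nil)))) (.nd (nat_lit 5) 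
(.lf (nat_lit 30942) (.g (nat_lit 1478) (.e (nat_lit 1201) (nat_lit 88) (.e (nat_lit 65581) (nat_lit 7) (.e (nat_lit 319533) (nat_lit 16) (.e (nat_lit 286753) (nat_lit 10) (.e (nat_lit 344160) (nat_lit 37) (.e (nat_lit 647200) (nat_lit 12) (.e (nat_lit 57352) (nat_lit 0) (.e (nat_lit 7122) (nat_lit 382) .nil)))))))) (.g (nat_lit 4) .nil .nil))) 
(.lf (nat_lit 30974) (.g (nat_lit 1284) (.e (nat_lit 1201) (nat_lit 88) (.e (nat_lit 65583) (nat_lit 7) (.e (nat_lit 319530) (nat_lit 16) (.e (nat_lit 286742) (nat_lit 9) (.e (nat_lit 335990) (nat_lit 1) (.e (nat_lit 57854) (nat_lit 252) (.e (nat_lit 57366) (nat_lit 1) (.e (nat_lit 57830) (nat_lit 250) .nil)))))))) (.g (nat_lit 4) .nil .nil)))))))) 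
(.nd (nat_lit 1) (.nd (nat_lit 2) (.nd (nat_lit 3) (.nd (nat_lit 4) (.nd (nat_lit 5) 
(.lf (nat_lit 30913) (.g (nat_lit 3078) (.e (nat_lit 1201) (nat_lit 88) (.e (nat_lit 65571) (nat_lit 3) (.e (nat_lit 98373) (nat_lit 29) (.e (nat_lit 450587) (nat_lit 10) (.e (nat_lit 573478) (nat_lit 12) (.e (nat_lit 57353) (nat_lit 0) (.e (nat_lit 7122) (nat_lit 382) .nil))))))) (.g (nat_lit 4) .nil .nil))) 
(.lf (nat_lit 30945) (.g (nat_lit 2299) (.e (nat_lit 1201) (nat_lit 88) (.e (nat_lit 65581) (nat_lit 7) (.e (nat_lit 319534) (nat_lit 16) (.e (nat_lit 286749) (nat_lit 9) (.e (nat_lit 335997) (nat_lit 1) (.e (nat_lit 57847) (nat_lit 252) (.e (nat_lit 57368) (nat_lit 1) (.e (nat_lit 57830) (nat_lit 250) .nil)))))))) (.g (nat_lit 4) .nil .nil)))) (.nd (nat_lit 5) 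
(.lf (nat_lit 30929) (.g (nat_lit 3949) (.e (nat_lit 1201) (nat_lit 88) (.e (nat_lit 65571) (nat_lit 3) (.e (nat_lit 98373) (nat_lit 29) (.e (nat_lit 450588) (nat_lit 10) (.e (nat_lit 573475) (nat_lit 12) (.e (nat_lit 57348) (nat_lit 0) (.e (nat_lit 7122) (nat_lit 382) .nil))))))) (.g (nat_lit 5) .nil .nil))) 
(.lf (nat_lit 30961) (.g (nat_lit 2264) (.e (nat_lit 1201) (nat_lit 88) (.e (nat_lit 65582) (nat_lit 7) (.e (nat_lit 319534) (nat_lit 16) (.e (nat_lit 286749) (nat_lit 9) (.e (nat_lit 335997) (nat_lit 1) (.e (nat_lit 57844) (nat_lit 252) (.e (nat_lit 57364) (nat_lit 1) (.e (nat_lit 57830) (nat_lit 250) .nil)))))))) (.g (nat_lit 4) .nil .nil))))) (.nd (nat_lit 4) (.nd (nat_lit 5) 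
(.lf (nat_lit 30921) (.g (nat_lit 3922) (.e (nat_lit 1201) (nat_lit 88) (.e (nat_lit 65571) (nat_lit 3) (.e (nat_lit 98373) (nat_lit 29) (.e (nat_lit 450588) (nat_lit 10) (.e (nat_lit 573473) (nat_lit 12) (.e (nat_lit 57353) (nat_lit 0) (.e (nat_lit 7122) (nat_lit 382) .nil))))))) (.g (nat_lit 5) .nil .nil))) 
(.lf (nat_lit 30953) (.g (nat_lit 2831) (.e (nat_lit 1201) (nat_lit 88) (.e (nat_lit 65581) (nat_lit 7) (.e (nat_lit 319534) (nat_lit 16) (.e (nat_lit 286756) (nat_lit 10) (.e (nat_lit 344097) (nat_lit 18) (.e (nat_lit 5195) (nat_lit 294) (.e (nat_lit 57367) (nat_lit 1) (.e (nat_lit 57830) (nat_lit 250) .nil)))))))) (.g (nat_lit 5) .nil .nil)))) (.nd (nat_lit 5) 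
(.lf (nat_lit 30937) (.g (nat_lit 2890) (.e (nat_lit 1201) (nat_lit 88) (.e (nat_lit 65581) (nat_lit 7) (.e (nat_lit 319531) (nat_lit 16) (.e (nat_lit 286756) (nat_lit 10) (.e (nat_lit 344097) (nat_lit 18) (.e (nat_lit 5194) (nat_lit 294) (.e (nat_lit 57368) (nat_lit 1) (.e (nat_lit 57830) (nat_lit 250) .nil)))))))) (.g (nat_lit 4) .nil .nil))) 
(.lf (nat_lit 30969) (.g (nat_lit 2196) (.e (nat_lit 1201) (nat_lit 88) (.e (nat_lit 65583) (nat_lit 7) (.e (nat_lit 319530) (nat_lit 16) (.e (nat_lit 286742) (nat_lit 9) (.e (nat_lit 335985) (nat_lit 1) (.e (nat_lit 57851) (nat_lit 252) (.e (nat_lit 57364) (nat_lit 1) (.e (nat_lit 57830) (nat_lit 250) .nil)))))))) (.g (nat_lit 6) .nil .nil)))))) (.nd (nat_lit 3) (.nd (nat_lit 4) (.nd (nat_lit 5) 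
(.lf (nat_lit 30917) (.g (nat_lit 4139) (.e (nat_lit 1201) (nat_lit 88) (.e (nat_lit 65571) (nat_lit 3) (.e (nat_lit 98373) (nat_lit 29) (.e (nat_lit 450588) (nat_lit 10) (.e (nat_lit 573473) (nat_lit 12) (.e (nat_lit 57348) (nat_lit 0) (.e (nat_lit 7122) (nat_lit 382) .nil))))))) (.g (nat_lit 6) .nil .nil))) 
(.lf (nat_lit 30949) (.g (nat_lit 2470) (.e (nat_lit 1201) (nat_lit 88) (.e (nat_lit 65581) (nat_lit 7) (.e (nat_lit 319534) (nat_lit 16) (.e (nat_lit 286756) (nat_lit 10) (.e (nat_lit 344097) (nat_lit 18) (.e (nat_lit 5195) (nat_lit 294) (.e (nat_lit 57363) (nat_lit 1) (.e (nat_lit 57829) (nat_lit 250) .nil)))))))) (.g (nat_lit 4) .nil .nil)))) (.nd (nat_lit 5) 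
(.lf (nat_lit 30933) (.g (nat_lit 4750) (.e (nat_lit 1201) (nat_lit 88) (.e (nat_lit 65571) (nat_lit 3) (.e (nat_lit 98373) (nat_lit 29) (.e (nat_lit 450588) (nat_lit 10) (.e (nat_lit 573475) (nat_lit 12) (.e (nat_lit 57351) (nat_lit 0) (.e (nat_lit 7125) (nat_lit 382) .nil))))))) (.g (nat_lit 0) .nil .nil))) 
(.lf (nat_lit 30965) (.g (nat_lit 184) (.e (nat_lit 1201) (nat_lit 88) (.e (nat_lit 65583) (nat_lit 7) (.e (nat_lit 319530) (nat_lit 16) .nil))) .nil)))) (.nd (nat_lit 4) (.nd (nat_lit 5) 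
(.lf (nat_lit 30925) (.g (nat_lit 3132) (.e (nat_lit 1201) (nat_lit 88) (.e (nat_lit 65571) (nat_lit 3) (.e (nat_lit 98373) (nat_lit 29) (.e (nat_lit 450588) (nat_lit 10) (.e (nat_lit 573475) (nat_lit 12) (.e (nat_lit 57345) (nat_lit 0) (.e (nat_lit 7122) (nat_lit 382) .nil))))))) (.g (nat_lit 4) .nil .nil))) 
(.lf (nat_lit 30957) (.g (nat_lit 2382) (.e (nat_lit 1201) (nat_lit 88) (.e (nat_lit 65581) (nat_lit 7) (.e (nat_lit 319534) (nat_lit 16) (.e (nat_lit 286756) (nat_lit 10) (.e (nat_lit 344160) (nat_lit 37) (.e (nat_lit 647200) (nat_lit 12) (.e (nat_lit 57352) (nat_lit 0) (.e (nat_lit 7122) (nat_lit 382) .nil)))))))) (.g (nat_lit 4) .nil .nil)))) (.nd (nat_lit 5) 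
(.lf (nat_lit 30941) (.g (nat_lit 1919) (.e (nat_lit 1201) (nat_lit 88) (.e (nat_lit 65581) (nat_lit 7) (.e (nat_lit 319533) (nat_lit 16) (.e (nat_lit 286753) (nat_lit 10) (.e (nat_lit 344097) (nat_lit 18) (.e (nat_lit 5195) (nat_lit 294) (.e (nat_lit 57367) (nat_lit 1) (.e (nat_lit 57829) (nat_lit 250) .nil)))))))) (.g (nat_lit 5) .nil .nil))) 
(.lf (nat_lit 30973) (.g (nat_lit 2627) (.e (nat_lit 1201) (nat_lit 88) (.e (nat_lit 65583) (nat_lit 7) (.e (nat_lit 319530) (nat_lit 16) (.e (nat_lit 286742) (nat_lit 9) (.e (nat_lit 335989) (nat_lit 1) (.e (nat_lit 57854) (nat_lit 252) (.e (nat_lit 57366) (nat_lit 1) (.e (nat_lit 57830) (nat_lit 250) .nil)))))))) (.g (nat_lit 7) .nil .nil))))))) 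
(.nd (nat_lit 2) (.nd (nat_lit 3) (.nd (nat_lit 4) (.nd (nat_lit 5) 
(.lf (nat_lit 30915) (.g (nat_lit 2855) (.e (nat_lit 1201) (nat_lit 88) (.e (nat_lit 65571) (nat_lit 3) (.e (nat_lit 98373) (nat_lit 29) (.e (nat_lit 450588) (nat_lit 10) (.e (nat_lit 573473) (nat_lit 12) (.e (nat_lit 57347) (nat_lit 0) (.e (nat_lit 7122) (nat_lit 382) .nil))))))) (.g (nat_lit 4) .nil .nil))) 
(.lf (nat_lit 30947) (.g (nat_lit 3450) (.e (nat_lit 1201) (nat_lit 88) (.e (nat_lit 65581) (nat_lit 7) (.e (nat_lit 319534) (nat_lit 16) (.e (nat_lit 286749) (nat_lit 9) (.e (nat_lit 335997) (nat_lit 1) (.e (nat_lit 57854) (nat_lit 252) (.e (nat_lit 57366) (nat_lit 1) (.e (nat_lit 57830) (nat_lit 250) .nil)))))))) (.g (nat_lit 6) .nil .nil)))) (.nd (nat_lit 5) 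
(.lf (nat_lit 30931) (.g (nat_lit 4878) (.e (nat_lit 1201) (nat_lit 88) (.e (nat_lit 65571) (nat_lit 3) (.e (nat_lit 98373) (nat_lit 29) (.e (nat_lit 450588) (nat_lit 10) (.e (nat_lit 573475) (nat_lit 12) (.e (nat_lit 57348) (nat_lit 0) (.e (nat_lit 7125) (nat_lit 382) .nil))))))) (.g (nat_lit 7) .nil .nil))) 
(.lf (nat_lit 30963) (.g (nat_lit 2307) (.e (nat_lit 1201) (nat_lit 88) (.e (nat_lit 65582) (nat_lit 7) (.e (nat_lit 319534) (nat_lit 16) (.e (nat_lit 286749) (nat_lit 9) (.e (nat_lit 335997) (nat_lit 1) (.e (nat_lit 57848) (nat_lit 252) (.e (nat_lit 57368) (nat_lit 1) (.e (nat_lit 57829) (nat_lit 250) .nil)))))))) (.g (nat_lit 4) .nil .nil))))) (.nd (nat_lit 4) (.nd (nat_lit 5) 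
(.lf (nat_lit 30923) (.g (nat_lit 2286) (.e (nat_lit 1201) (nat_lit 88) (.e (nat_lit 65571) (nat_lit 3) (.e (nat_lit 98373) (nat_lit 29) (.e (nat_lit 450588) (nat_lit 10) (.e (nat_lit 573475) (nat_lit 12) .nil))))) .nil)) 
(.lf (nat_lit 30955) (.g (nat_lit 2721) (.e (nat_lit 1201) (nat_lit 88) (.e (nat_lit 65581) (nat_lit 7) (.e (nat_lit 319534) (nat_lit 16) (.e (nat_lit 286756) (nat_lit 10) (.e (nat_lit 344160) (nat_lit 37) (.e (nat_lit 647200) (nat_lit 12) (.e (nat_lit 57348) (nat_lit 0) (.e (nat_lit 7124) (nat_lit 382) .nil)))))))) (.g (nat_lit 4) .nil .nil)))) (.nd (nat_lit 5) 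
(.lf (nat_lit 30939) (.g (nat_lit 3099) (.e (nat_lit 1201) (nat_lit 88) (.e (nat_lit 65581) (nat_lit 7) (.e (nat_lit 319531) (nat_lit 16) (.e (nat_lit 286756) (nat_lit 10) (.e (nat_lit 344097) (nat_lit 18) (.e (nat_lit 5195) (nat_lit 294) (.e (nat_lit 57368) (nat_lit 1) (.e (nat_lit 57830) (nat_lit 250) .nil)))))))) (.g (nat_lit 5) .nil .nil))) 
(.lf (nat_lit 30971) (.g (nat_lit 2299) (.e (nat_lit 1201) (nat_lit 88) (.e (nat_lit 65583) (nat_lit 7) (.e (nat_lit 319530) (nat_lit 16) (.e (nat_lit 286742) (nat_lit 9) (.e (nat_lit 335985) (nat_lit 1) (.e (nat_lit 57854) (nat_lit 252) (.e (nat_lit 57366) (nat_lit 1) (.e (nat_lit 57830) (nat_lit 250) .nil)))))))) (.g (nat_lit 6) .nil .nil)))))) (.nd (nat_lit 3) (.nd (nat_lit 4) (.nd (nat_lit 5) 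
(.lf (nat_lit 30919) (.g (nat_lit 4988) (.e (nat_lit 1201) (nat_lit 88) (.e (nat_lit 65571) (nat_lit 3) (.e (nat_lit 98373) (nat_lit 29) (.e (nat_lit 450588) (nat_lit 10) (.e (nat_lit 573473) (nat_lit 12) (.e (nat_lit 57348) (nat_lit 0) (.e (nat_lit 7125) (nat_lit 382) .nil))))))) (.g (nat_lit 0) .nil .nil))) 
(.lf (nat_lit 30951) (.g (nat_lit 3186) (.e (nat_lit 1201) (nat_lit 88) (.e (nat_lit 65581) (nat_lit 7) (.e (nat_lit 319534) (nat_lit 16) (.e (nat_lit 286756) (nat_lit 10) (.e (nat_lit 344097) (nat_lit 18) (.e (nat_lit 5195) (nat_lit 294) (.e (nat_lit 57366) (nat_lit 1) (.e (nat_lit 57830) (nat_lit 250) .nil)))))))) (.g (nat_lit 6) .nil .nil)))) (.nd (nat_lit 5) 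
(.lf (nat_lit 30935) (.g (nat_lit 4310) (.e (nat_lit 1201) (nat_lit 88) (.e (nat_lit 65571) (nat_lit 3) (.e (nat_lit 98373) (nat_lit 29) (.e (nat_lit 450588) (nat_lit 10) (.e (nat_lit 573475) (nat_lit 12) (.e (nat_lit 57353) (nat_lit 0) (.e (nat_lit 7125) (nat_lit 382) .nil))))))) (.g (nat_lit 6) .nil .nil))) 
(.lf (nat_lit 30967) (.g (nat_lit 1825) (.e (nat_lit 1201) (nat_lit 88) (.e (nat_lit 65583) (nat_lit 7) (.e (nat_lit 319530) (nat_lit 16) (.e (nat_lit 286727) (nat_lit 0) (.e (nat_lit 7936) (nat_lit 362) (.e (nat_lit 180233) (nat_lit 0) (.e (nat_lit 5072) (nat_lit 292) .nil))))))) (.g (nat_lit 4) .nil .nil))))) (.nd (nat_lit 4) (.nd (nat_lit 5) 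
(.lf (nat_lit 30927) (.g (nat_lit 4560) (.e (nat_lit 1201) (nat_lit 88) (.e (nat_lit 65571) (nat_lit 3) (.e (nat_lit 98373) (nat_lit 29) (.e (nat_lit 450588) (nat_lit 10) (.e (nat_lit 573475) (nat_lit 12) (.e (nat_lit 57347) (nat_lit 0) (.e (nat_lit 7122) (nat_lit 382) .nil))))))) (.g (nat_lit 6) .nil .nil))) 
(.lf (nat_lit 30959) (.g (nat_lit 2893) (.e (nat_lit 1201) (nat_lit 88) (.e (nat_lit 65581) (nat_lit 7) (.e (nat_lit 319534) (nat_lit 16) (.e (nat_lit 286756) (nat_lit 10) (.e (nat_lit 344160) (nat_lit 37) (.e (nat_lit 647200) (nat_lit 12) (.e (nat_lit 57353) (nat_lit 0) (.e (nat_lit 7125) (nat_lit 382) .nil)))))))) (.g (nat_lit 5) .nil .nil)))) (.nd (nat_lit 5) 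
(.lf (nat_lit 30943) (.g (nat_lit 1578) (.e (nat_lit 1201) (nat_lit 88) (.e (nat_lit 65581) (nat_lit 7) (.e (nat_lit 319533) (nat_lit 16) (.e (nat_lit 286753) (nat_lit 10) (.e (nat_lit 344160) (nat_lit 37) (.e (nat_lit 647200) (nat_lit 12) (.e (nat_lit 57353) (nat_lit 0) (.e (nat_lit 7124) (nat_lit 382) .nil)))))))) (.g (nat_lit 4) .nil .nil))) 
(.lf (nat_lit 30975) (.g (nat_lit 1433) (.e (nat_lit 1201) (nat_lit 88) (.e (nat_lit 65583) (nat_lit 7) (.e (nat_lit 319530) (nat_lit 16) (.e (nat_lit 286742) (nat_lit 9) (.e (nat_lit 335991) (nat_lit 1) (.e (nat_lit 57849) (nat_lit 252) (.e (nat_lit 57365) (nat_lit 1) (.e (nat_lit 57829) (nat_lit 250) .nil)))))))) (.g (nat_lit 4) .nil .nil)))))))))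

noncomputable def tv432 : DT := (.nd (nat_lit 0) (.nd (nat_lit 1) (.nd (nat_lit 2) (.nd (nat_lit 3) (.nd (nat_lit 4) (.nd (nat_lit 5) 
(.lf (nat_lit 30976) (.g (nat_lit 1373) (.e (nat_lit 1201) (nat_lit 88) (.e (nat_lit 65583) (nat_lit 7) (.e (nat_lit 319530) (nat_lit 16) (.e (nat_lit 286742) (nat_lit 9) (.e (nat_lit 335991) (nat_lit 1) (.e (nat_lit 57849) (nat_lit 252) (.e (nat_lit 57368) (nat_lit 1) (.e (nat_lit 57830) (nat_lit 250) .nil)))))))) (.g (nat_lit 4) .nil .nil))) 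
(.lf (nat_lit 31008) (.g (nat_lit 1758) (.e (nat_lit 1201) (nat_lit 88) (.e (nat_lit 65583) (nat_lit 7) (.e (nat_lit 319530) (nat_lit 16) (.e (nat_lit 286748) (nat_lit 9) (.e (nat_lit 335901) (nat_lit 0) .nil))))) .nil))) (.nd (nat_lit 5) 
(.lf (nat_lit 30992) (.g (nat_lit 2089) (.e (nat_lit 1201) (nat_lit 88) (.e (nat_lit 65583) (nat_lit 7) (.e (nat_lit 319530) (nat_lit 16) (.e (nat_lit 286745) (nat_lit 9) (.e (nat_lit 335990) (nat_lit 1) (.e (nat_lit 57852) (nat_lit 252) (.e (nat_lit 57366) (nat_lit 1) (.e (nat_lit 57830) (nat_lit 250) .nil)))))))) (.g (nat_lit 4) .nil .nil))) 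
(.lf (nat_lit 31024) (.g (nat_lit 1730) (.e (nat_lit 1201) (nat_lit 88) (.e (nat_lit 65583) (nat_lit 7) (.e (nat_lit 319530) (nat_lit 16) (.e (nat_lit 286748) (nat_lit 9) (.e (nat_lit 335985) (nat_lit 1) (.e (nat_lit 57851) (nat_lit 252) (.e (nat_lit 57364) (nat_lit 1) (.e (nat_lit 57829) (nat_lit 250) .nil)))))))) (.g (nat_lit 4) .nil .nil))))) (.nd (nat_lit 4) (.nd (nat_lit 5) 
(.lf (nat_lit 30984) (.g (nat_lit 2910) (.e (nat_lit 1201) (nat_lit 88) (.e (nat_lit 65583) (nat_lit 7) (.e (nat_lit 319530) (nat_lit 16) (.e (nat_lit 286743) (nat_lit 9) (.e (nat_lit 336000) (nat_lit 1) (.e (nat_lit 57849) (nat_lit 252) (.e (nat_lit 57368) (nat_lit 1) (.e (nat_lit 57829) (nat_lit 250) .nil)))))))) (.g (nat_lit 6) .nil .nil))) 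
(.lf (nat_lit 31016) (.g (nat_lit 3378) (.e (nat_lit 1201) (nat_lit 88) (.e (nat_lit 65583) (nat_lit 7) (.e (nat_lit 319530) (nat_lit 16) (.e (nat_lit 286748) (nat_lit 9) (.e (nat_lit 335985) (nat_lit 1) (.e (nat_lit 57847) (nat_lit 252) (.e (nat_lit 57365) (nat_lit 1) (.e (nat_lit 57829) (nat_lit 250) .nil)))))))) (.g (nat_lit 7) .nil .nil)))) (.nd (nat_lit 5) 
(.lf (nat_lit 31000) (.g (nat_lit 1350) (.e (nat_lit 1201) (nat_lit 88) (.e (nat_lit 65583) (nat_lit 7) (.e (nat_lit 319530) (nat_lit 16) (.e (nat_lit 286747) (nat_lit 9) .nil)))) .nil)) 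
(.lf (nat_lit 31032) (.g (nat_lit 1582) (.e (nat_lit 1201) (nat_lit 88) (.e (nat_lit 65583) (nat_lit 7) (.e (nat_lit 319530) (nat_lit 16) (.e (nat_lit 286748) (nat_lit 9) (.e (nat_lit 335990) (nat_lit 1) (.e (nat_lit 57854) (nat_lit 252) (.e (nat_lit 57364) (nat_lit 1) (.e (nat_lit 57829) (nat_lit 250) .nil)))))))) (.g (nat_lit 4) .nil .nil)))))) (.nd (nat_lit 3) (.nd (nat_lit 4) (.nd (nat_lit 5) 
(.lf (nat_lit 30980) (.g (nat_lit 3112) (.e (nat_lit 1201) (nat_lit 88) (.e (nat_lit 65583) (nat_lit 7) (.e (nat_lit 319530) (nat_lit 16) (.e (nat_lit 286742) (nat_lit 9) (.e (nat_lit 335997) (nat_lit 1) (.e (nat_lit 57848) (nat_lit 252) (.e (nat_lit 57365) (nat_lit 1) (.e (nat_lit 57830) (nat_lit 250) .nil)))))))) (.g (nat_lit 0) .nil .nil))) 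
(.lf (nat_lit 31012) (.g (nat_lit 1997) (.e (nat_lit 1201) (nat_lit 88) (.e (nat_lit 65583) (nat_lit 7) (.e (nat_lit 319530) (nat_lit 16) (.e (nat_lit 286748) (nat_lit 9) (.e (nat_lit 335938) (nat_lit 0) (.e (nat_lit 1023) (nat_lit 81) (.e (nat_lit 5195) (nat_lit 294) (.e (nat_lit 57365) (nat_lit 1) (.e (nat_lit 57829) (nat_lit 250) .nil))))))))) (.g (nat_lit 4) .nil .nil)))) (.nd (nat_lit 5) 
(.lf (nat_lit 30996) (.g (nat_lit 3466) (.e (nat_lit 1201) (nat_lit 88) (.e (nat_lit 65583) (nat_lit 7) (.e (nat_lit 319530) (nat_lit 16) (.e (nat_lit 286745) (nat_lit 9) (.e (nat_lit 335992) (nat_lit 1) (.e (nat_lit 57847) (nat_lit 252) (.e (nat_lit 57365) (nat_lit 1) (.e (nat_lit 57830) (nat_lit 250) .nil)))))))) (.g (nat_lit 6) .nil .nil))) 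
(.lf (nat_lit 31028) (.g (nat_lit 3299) (.e (nat_lit 1201) (nat_lit 88) (.e (nat_lit 65583) (nat_lit 7) (.e (nat_lit 319530) (nat_lit 16) (.e (nat_lit 286748) (nat_lit 9) (.e (nat_lit 335989) (nat_lit 1) (.e (nat_lit 57847) (nat_lit 252) (.e (nat_lit 57365) (nat_lit 1) (.e (nat_lit 57829) (nat_lit 250) .nil)))))))) (.g (nat_lit 7) .nil .nil))))) (.nd (nat_lit 4) (.nd (nat_lit 5) 
(.lf (nat_lit 30988) (.g (nat_lit 3222) (.e (nat_lit 1201) (nat_lit 88) (.e (nat_lit 65583) (nat_lit 7) (.e (nat_lit 319530) (nat_lit 16) (.e (nat_lit 286745) (nat_lit 9) (.e (nat_lit 335989) (nat_lit 1) (.e (nat_lit 57847) (nat_lit 252) (.e (nat_lit 57365) (nat_lit 1) (.e (nat_lit 57829) (nat_lit 250) .nil)))))))) (.g (nat_lit 6) .nil .nil))) 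
(.lf (nat_lit 31020) (.g (nat_lit 1711) (.e (nat_lit 1201) (nat_lit 88) (.e (nat_lit 65583) (nat_lit 7) (.e (nat_lit 319530) (nat_lit 16) (.e (nat_lit 286748) (nat_lit 9) (.e (nat_lit 335985) (nat_lit 1) (.e (nat_lit 57848) (nat_lit 252) (.e (nat_lit 57368) (nat_lit 1) (.e (nat_lit 57830) (nat_lit 250) .nil)))))))) (.g (nat_lit 4) .nil .nil)))) (.nd (nat_lit 5) 
(.lf (nat_lit 31004) (.g (nat_lit 3501) (.e (nat_lit 1201) (nat_lit 88) (.e (nat_lit 65583) (nat_lit 7) (.e (nat_lit 319530) (nat_lit 16) (.e (nat_lit 286747) (nat_lit 9) (.e (nat_lit 335997) (nat_lit 1) (.e (nat_lit 57848) (nat_lit 252) (.e (nat_lit 57365) (nat_lit 1) (.e (nat_lit 57829) (nat_lit 250) .nil)))))))) (.g (nat_lit 0) .nil .nil))) 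
(.lf (nat_lit 31036) (.g (nat_lit 2789) (.e (nat_lit 1201) (nat_lit 88) (.e (nat_lit 65583) (nat_lit 7) (.e (nat_lit 319530) (nat_lit 16) (.e (nat_lit 286748) (nat_lit 9) (.e (nat_lit 335991) (nat_lit 1) (.e (nat_lit 57851) (nat_lit 252) (.e (nat_lit 57364) (nat_lit 1) (.e (nat_lit 57830) (nat_lit 250) .nil)))))))) (.g (nat_lit 7) .nil .nil))))))) 
(.nd (nat_lit 2) (.nd (nat_lit 3) (.nd (nat_lit 4) (.nd (nat_lit 5) 
(.lf (nat_lit 30978) (.g (nat_lit 2299) (.e (nat_lit 1201) (nat_lit 88) (.e (nat_lit 65583) (nat_lit 7) (.e (nat_lit 319530) (nat_lit 16) (.e (nat_lit 286742) (nat_lit 9) (.e (nat_lit 335992) (nat_lit 1) (.e (nat_lit 57854) (nat_lit 252) (.e (nat_lit 57366) (nat_lit 1) (.e (nat_lit 57830) (nat_lit 250) .nil)))))))) (.g (nat_lit 6) .nil .nil))) 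
(.lf (nat_lit 31010) (.g (nat_lit 1983) (.e (nat_lit 1201) (nat_lit 88) (.e (nat_lit 65583) (nat_lit 7) (.e (nat_lit 319530) (nat_lit 16) (.e (nat_lit 286748) (nat_lit 9) (.e (nat_lit 335925) (nat_lit 0) (.e (nat_lit 1023) (nat_lit 81) (.e (nat_lit 5195) (nat_lit 294) (.e (nat_lit 57368) (nat_lit 1) (.e (nat_lit 57829) (nat_lit 250) .nil))))))))) (.g (nat_lit 4) .nil .nil)))) (.nd (nat_lit 5) 
(.lf (nat_lit 30994) (.g (nat_lit 3011) (.e (nat_lit 1201) (nat_lit 88) (.e (nat_lit 65583) (nat_lit 7) (.e (nat_lit 319530) (nat_lit 16) (.e (nat_lit 286745) (nat_lit 9) (.e (nat_lit 335990) (nat_lit 1) (.e (nat_lit 57854) (nat_lit 252) (.e (nat_lit 57366) (nat_lit 1) (.e (nat_lit 57830) (nat_lit 250) .nil)))))))) (.g (nat_lit 6) .nil .nil))) 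
(.lf (nat_lit 31026) (.g (nat_lit 1637) (.e (nat_lit 1201) (nat_lit 88) (.e (nat_lit 65583) (nat_lit 7) (.e (nat_lit 319530) (nat_lit 16) (.e (nat_lit 286748) (nat_lit 9) (.e (nat_lit 335985) (nat_lit 1) (.e (nat_lit 57854) (nat_lit 252) (.e (nat_lit 57364) (nat_lit 1) (.e (nat_lit 57829) (nat_lit 250) .nil)))))))) (.g (nat_lit 4) .nil .nil))))) (.nd (nat_lit 4) (.nd (nat_lit 5) 
(.lf (nat_lit 30986) (.g (nat_lit 1673) (.e (nat_lit 1201) (nat_lit 88) (.e (nat_lit 65583) (nat_lit 7) (.e (nat_lit 319530) (nat_lit 16) (.e (nat_lit 286744) (nat_lit 9) .nil)))) .nil)) 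
(.lf (nat_lit 31018) (.g (nat_lit 3010) (.e (nat_lit 1201) (nat_lit 88) (.e (nat_lit 65583) (nat_lit 7) (.e (nat_lit 319530) (nat_lit 16) (.e (nat_lit 286748) (nat_lit 9) (.e (nat_lit 335985) (nat_lit 1) (.e (nat_lit 57847) (nat_lit 252) (.e (nat_lit 57368) (nat_lit 1) (.e (nat_lit 57830) (nat_lit 250) .nil)))))))) (.g (nat_lit 7) .nil .nil)))) (.nd (nat_lit 5) 
(.lf (nat_lit 31002) (.g (nat_lit 2361) (.e (nat_lit 1201) (nat_lit 88) (.e (nat_lit 65583) (nat_lit 7) (.e (nat_lit 319530) (nat_lit 16) (.e (nat_lit 286747) (nat_lit 9) (.e (nat_lit 335997) (nat_lit 1) (.e (nat_lit 57844) (nat_lit 252) (.e (nat_lit 57364) (nat_lit 1) (.e (nat_lit 57829) (nat_lit 250) .nil)))))))) (.g (nat_lit 5) .nil .nil))) 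
(.lf (nat_lit 31034) (.g (nat_lit 3752) (.e (nat_lit 1201) (nat_lit 88) (.e (nat_lit 65583) (nat_lit 7) (.e (nat_lit 319530) (nat_lit 16) (.e (nat_lit 286748) (nat_lit 9) (.e (nat_lit 335991) (nat_lit 1) (.e (nat_lit 57849) (nat_lit 252) (.e (nat_lit 57365) (nat_lit 1) (.e (nat_lit 57830) (nat_lit 250) .nil)))))))) (.g (nat_lit 0) .nil .nil)))))) (.nd (nat_lit 3) (.nd (nat_lit 4) (.nd (nat_lit 5) 
(.lf (nat_lit 30982) (.g (nat_lit 3546) (.e (nat_lit 1201) (nat_lit 88) (.e (nat_lit 65583) (nat_lit 7) (.e (nat_lit 319530) (nat_lit 16) (.e (nat_lit 286743) (nat_lit 9) (.e (nat_lit 336000) (nat_lit 1) (.e (nat_lit 57849) (nat_lit 252) (.e (nat_lit 57365) (nat_lit 1) (.e (nat_lit 57829) (nat_lit 250) .nil)))))))) (.g (nat_lit 7) .nil .nil))) 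
(.lf (nat_lit 31014) (.g (nat_lit 1442) (.e (nat_lit 1201) (nat_lit 88) (.e (nat_lit 65583) (nat_lit 7) (.e (nat_lit 319530) (nat_lit 16) (.e (nat_lit 286748) (nat_lit 9) (.e (nat_lit 335985) (nat_lit 1) .nil))))) .nil))) (.nd (nat_lit 5) 
(.lf (nat_lit 30998) (.g (nat_lit 2512) (.e (nat_lit 1201) (nat_lit 88) (.e (nat_lit 65583) (nat_lit 7) (.e (nat_lit 319530) (nat_lit 16) (.e (nat_lit 286745) (nat_lit 9) (.e (nat_lit 335992) (nat_lit 1) (.e (nat_lit 57849) (nat_lit 252) (.e (nat_lit 57365) (nat_lit 1) (.e (nat_lit 57829) (nat_lit 250) .nil)))))))) (.g (nat_lit 5) .nil .nil))) 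
(.lf (nat_lit 31030) (.g (nat_lit 1609) (.e (nat_lit 1201) (nat_lit 88) (.e (nat_lit 65583) (nat_lit 7) (.e (nat_lit 319530) (nat_lit 16) (.e (nat_lit 286748) (nat_lit 9) (.e (nat_lit 335989) (nat_lit 1) (.e (nat_lit 57854) (nat_lit 252) (.e (nat_lit 57364) (nat_lit 1) (.e (nat_lit 57829) (nat_lit 250) .nil)))))))) (.g (nat_lit 4) .nil .nil))))) (.nd (nat_lit 4) (.nd (nat_lit 5) 
(.lf (nat_lit 30990) (.g (nat_lit 2010) (.e (nat_lit 1201) (nat_lit 88) (.e (nat_lit 65583) (nat_lit 7) (.e (nat_lit 319530) (nat_lit 16) (.e (nat_lit 286745) (nat_lit 9) (.e (nat_lit 335989) (nat_lit 1) (.e (nat_lit 57847) (nat_lit 252) (.e (nat_lit 57366) (nat_lit 1) (.e (nat_lit 57830) (nat_lit 250) .nil)))))))) (.g (nat_lit 4) .nil .nil))) 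
(.lf (nat_lit 31022) (.g (nat_lit 3937) (.e (nat_lit 1201) (nat_lit 88) (.e (nat_lit 65583) (nat_lit 7) (.e (nat_lit 319530) (nat_lit 16) (.e (nat_lit 286748) (nat_lit 9) (.e (nat_lit 335985) (nat_lit 1) (.e (nat_lit 57849) (nat_lit 252) (.e (nat_lit 57365) (nat_lit 1) (.e (nat_lit 57830) (nat_lit 250) .nil)))))))) (.g (nat_lit 0) .nil .nil)))) (.nd (nat_lit 5) 
(.lf (nat_lit 31006) (.g (nat_lit 3755) (.e (nat_lit 1201) (nat_lit 88) (.e (nat_lit 65583) (nat_lit 7) (.e (nat_lit 319530) (nat_lit 16) (.e (nat_lit 286747) (nat_lit 9) (.e (nat_lit 335997) (nat_lit 1) (.e (nat_lit 57848) (nat_lit 252) (.e (nat_lit 57368) (nat_lit 1) (.e (nat_lit 57829) (nat_lit 250) .nil)))))))) (.g (nat_lit 0) .nil .nil))) 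
(.lf (nat_lit 31038) (.g (nat_lit 2748) (.e (nat_lit 1201) (nat_lit 88) (.e (nat_lit 65583) (nat_lit 7) (.e (nat_lit 319530) (nat_lit 16) (.e (nat_lit 286748) (nat_lit 9) (.e (nat_lit 335992) (nat_lit 1) (.e (nat_lit 57846) (nat_lit 252) (.e (nat_lit 57365) (nat_lit 1) (.e (nat_lit 57829) (nat_lit 250) .nil)))))))) (.g (nat_lit 6) .nil .nil)))))))) 
(.nd (nat_lit 1) (.nd (nat_lit 2) (.nd (nat_lit 3) (.nd (nat_lit 4) (.nd (nat_lit 5) 
(.lf (nat_lit 30977) (.g (nat_lit 2687) (.e (nat_lit 1201) (nat_lit 88) (.e (nat_lit 65583) (nat_lit 7) (.e (nat_lit 319530) (nat_lit 16) (.e (nat_lit 286742) (nat_lit 9) (.e (nat_lit 335992) (nat_lit 1) (.e (nat_lit 57847) (nat_lit 252) (.e (nat_lit 57365) (nat_lit 1) (.e (nat_lit 57830) (nat_lit 250) .nil)))))))) (.g (nat_lit 6) .nil .nil))) 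
(.lf (nat_lit 31009) (.g (nat_lit 1758) (.e (nat_lit 1201) (nat_lit 88) (.e (nat_lit 65583) (nat_lit 7) (.e (nat_lit 319530) (nat_lit 16) (.e (nat_lit 286748) (nat_lit 9) (.e (nat_lit 335915) (nat_lit 0) .nil))))) .nil))) (.nd (nat_lit 5) 
(.lf (nat_lit 30993) (.g (nat_lit 2924) (.e (nat_lit 1201) (nat_lit 88) (.e (nat_lit 65583) (nat_lit 7) (.e (nat_lit 319530) (nat_lit 16) (.e (nat_lit 286745) (nat_lit 9) (.e (nat_lit 335990) (nat_lit 1) (.e (nat_lit 57854) (nat_lit 252) (.e (nat_lit 57364) (nat_lit 1) (.e (nat_lit 57830) (nat_lit 250) .nil)))))))) (.g (nat_lit 6) .nil .nil))) 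
(.lf (nat_lit 31025) (.g (nat_lit 3348) (.e (nat_lit 1201) (nat_lit 88) (.e (nat_lit 65583) (nat_lit 7) (.e (nat_lit 319530) (nat_lit 16) (.e (nat_lit 286748) (nat_lit 9) (.e (nat_lit 335985) (nat_lit 1) (.e (nat_lit 57851) (nat_lit 252) (.e (nat_lit 57364) (nat_lit 1) (.e (nat_lit 57830) (nat_lit 250) .nil)))))))) (.g (nat_lit 0) .nil .nil))))) (.nd (nat_lit 4) (.nd (nat_lit 5) 
(.lf (nat_lit 30985) (.g (nat_lit 2274) (.e (nat_lit 1201) (nat_lit 88) (.e (nat_lit 65583) (nat_lit 7) (.e (nat_lit 319530) (nat_lit 16) (.e (nat_lit 286743) (nat_lit 9) (.e (nat_lit 336337) (nat_lit 20) (.e (nat_lit 229120) (nat_lit 1) (.e (nat_lit 57827) (nat_lit 250) .nil))))))) (.g (nat_lit 4) .nil .nil))) 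
(.lf (nat_lit 31017) (.g (nat_lit 2594) (.e (nat_lit 1201) (nat_lit 88) (.e (nat_lit 65583) (nat_lit 7) (.e (nat_lit 319530) (nat_lit 16) (.e (nat_lit 286748) (nat_lit 9) (.e (nat_lit 335985) (nat_lit 1) (.e (nat_lit 57847) (nat_lit 252) (.e (nat_lit 57368) (nat_lit 1) (.e (nat_lit 57829) (nat_lit 250) .nil)))))))) (.g (nat_lit 6) .nil .nil)))) (.nd (nat_lit 5) 
(.lf (nat_lit 31001) (.g (nat_lit 1629) (.e (nat_lit 1201) (nat_lit 88) (.e (nat_lit 65583) (nat_lit 7) (.e (nat_lit 319530) (nat_lit 16) (.e (nat_lit 286747) (nat_lit 9) (.e (nat_lit 335997) (nat_lit 1) .nil))))) .nil)) 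
(.lf (nat_lit 31033) (.g (nat_lit 3481) (.e (nat_lit 1201) (nat_lit 88) (.e (nat_lit 65583) (nat_lit 7) (.e (nat_lit 319530) (nat_lit 16) (.e (nat_lit 286748) (nat_lit 9) (.e (nat_lit 335991) (nat_lit 1) (.e (nat_lit 57849) (nat_lit 252) (.e (nat_lit 57365) (nat_lit 1) (.e (nat_lit 57829) (nat_lit 250) .nil)))))))) (.g (nat_lit 8) .nil .nil)))))) (.nd (nat_lit 3) (.nd (nat_lit 4) (.nd (nat_lit 5) 
(.lf (nat_lit 30981) (.g (nat_lit 3177) (.e (nat_lit 1201) (nat_lit 88) (.e (nat_lit 65583) (nat_lit 7) (.e (nat_lit 319530) (nat_lit 16) (.e (nat_lit 286742) (nat_lit 9) (.e (nat_lit 335997) (nat_lit 1) (.e (nat_lit 57848) (nat_lit 252) (.e (nat_lit 57368) (nat_lit 1) (.e (nat_lit 57829) (nat_lit 250) .nil)))))))) (.g (nat_lit 0) .nil .nil))) 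
(.lf (nat_lit 31013) (.g (nat_lit 1965) (.e (nat_lit 1201) (nat_lit 88) (.e (nat_lit 65583) (nat_lit 7) (.e (nat_lit 319530) (nat_lit 16) (.e (nat_lit 286748) (nat_lit 9) (.e (nat_lit 335938) (nat_lit 0) (.e (nat_lit 1023) (nat_lit 81) (.e (nat_lit 5195) (nat_lit 294) (.e (nat_lit 57368) (nat_lit 1) (.e (nat_lit 57830) (nat_lit 250) .nil))))))))) (.g (nat_lit 4) .nil .nil)))) (.nd (nat_lit 5) 
(.lf (nat_lit 30997) (.g (nat_lit 2169) (.e (nat_lit 1201) (nat_lit 88) (.e (nat_lit 65583) (nat_lit 7) (.e (nat_lit 319530) (nat_lit 16) (.e (nat_lit 286745) (nat_lit 9) (.e (nat_lit 335992) (nat_lit 1) (.e (nat_lit 57847) (nat_lit 252) (.e (nat_lit 57368) (nat_lit 1) (.e (nat_lit 57829) (nat_lit 250) .nil)))))))) (.g (nat_lit 4) .nil .nil))) 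
(.lf (nat_lit 31029) (.g (nat_lit 2945) (.e (nat_lit 1201) (nat_lit 88) (.e (nat_lit 65583) (nat_lit 7) (.e (nat_lit 319530) (nat_lit 16) (.e (nat_lit 286748) (nat_lit 9) (.e (nat_lit 335989) (nat_lit 1) (.e (nat_lit 57847) (nat_lit 252) (.e (nat_lit 57368) (nat_lit 1) (.e (nat_lit 57830) (nat_lit 250) .nil)))))))) (.g (nat_lit 7) .nil .nil))))) (.nd (nat_lit 4) (.nd (nat_lit 5) 
(.lf (nat_lit 30989) (.g (nat_lit 3649) (.e (nat_lit 1201) (nat_lit 88) (.e (nat_lit 65583) (nat_lit 7) (.e (nat_lit 319530) (nat_lit 16) (.e (nat_lit 286745) (nat_lit 9) (.e (nat_lit 335989) (nat_lit 1) (.e (nat_lit 57847) (nat_lit 252) (.e (nat_lit 57365) (nat_lit 1) (.e (nat_lit 57830) (nat_lit 250) .nil)))))))) (.g (nat_lit 7) .nil .nil))) 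
(.lf (nat_lit 31021) (.g (nat_lit 3641) (.e (nat_lit 1201) (nat_lit 88) (.e (nat_lit 65583) (nat_lit 7) (.e (nat_lit 319530) (nat_lit 16) (.e (nat_lit 286748) (nat_lit 9) (.e (nat_lit 335985) (nat_lit 1) (.e (nat_lit 57849) (nat_lit 252) (.e (nat_lit 57365) (nat_lit 1) (.e (nat_lit 57829) (nat_lit 250) .nil)))))))) (.g (nat_lit 7) .nil .nil)))) (.nd (nat_lit 5) 
(.lf (nat_lit 31005) (.g (nat_lit 3694) (.e (nat_lit 1201) (nat_lit 88) (.e (nat_lit 65583) (nat_lit 7) (.e (nat_lit 319530) (nat_lit 16) (.e (nat_lit 286747) (nat_lit 9) (.e (nat_lit 335997) (nat_lit 1) (.e (nat_lit 57848) (nat_lit 252) (.e (nat_lit 57365) (nat_lit 1) (.e (nat_lit 57830) (nat_lit 250) .nil)))))))) (.g (nat_lit 0) .nil .nil))) 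
(.lf (nat_lit 31037) (.g (nat_lit 1635) (.e (nat_lit 1201) (nat_lit 88) (.e (nat_lit 65583) (nat_lit 7) (.e (nat_lit 319530) (nat_lit 16) (.e (nat_lit 286748) (nat_lit 9) (.e (nat_lit 335992) (nat_lit 1) (.e (nat_lit 57844) (nat_lit 252) (.e (nat_lit 57364) (nat_lit 1) (.e (nat_lit 57830) (nat_lit 250) .nil)))))))) (.g (nat_lit 4) .nil .nil))))))) 
(.nd (nat_lit 2) (.nd (nat_lit 3) (.nd (nat_lit 4) (.nd (nat_lit 5) 
(.lf (nat_lit 30979) (.g (nat_lit 2919) (.e (nat_lit 1201) (nat_lit 88) (.e (nat_lit 65583) (nat_lit 7) (.e (nat_lit 319530) (nat_lit 16) (.e (nat_lit 286742) (nat_lit 9) (.e (nat_lit 335997) (nat_lit 1) (.e (nat_lit 57848) (nat_lit 252) (.e (nat_lit 57365) (nat_lit 1) (.e (nat_lit 57829) (nat_lit 250) .nil)))))))) (.g (nat_lit 0) .nil .nil))) 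
(.lf (nat_lit 31011) (.g (nat_lit 1758) (.e (nat_lit 1201) (nat_lit 88) (.e (nat_lit 65583) (nat_lit 7) (.e (nat_lit 319530) (nat_lit 16) (.e (nat_lit 286748) (nat_lit 9) (.e (nat_lit 335938) (nat_lit 0) .nil))))) .nil))) (.nd (nat_lit 5) 
(.lf (nat_lit 30995) (.g (nat_lit 2067) (.e (nat_lit 1201) (nat_lit 88) (.e (nat_lit 65583) (nat_lit 7) (.e (nat_lit 319530) (nat_lit 16) (.e (nat_lit 286745) (nat_lit 9) (.e (nat_lit 335992) (nat_lit 1) (.e (nat_lit 57846) (nat_lit 252) (.e (nat_lit 57365) (nat_lit 1) (.e (nat_lit 57829) (nat_lit 250) .nil)))))))) (.g (nat_lit 4) .nil .nil))) 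
(.lf (nat_lit 31027) (.g (nat_lit 1504) (.e (nat_lit 1201) (nat_lit 88) (.e (nat_lit 65583) (nat_lit 7) (.e (nat_lit 319530) (nat_lit 16) (.e (nat_lit 286748) (nat_lit 9) (.e (nat_lit 335989) (nat_lit 1) .nil))))) .nil)))) (.nd (nat_lit 4) (.nd (nat_lit 5) 
(.lf (nat_lit 30987) (.g (nat_lit 3228) (.e (nat_lit 1201) (nat_lit 88) (.e (nat_lit 65583) (nat_lit 7) (.e (nat_lit 319530) (nat_lit 16) (.e (nat_lit 286745) (nat_lit 9) (.e (nat_lit 335985) (nat_lit 1) (.e (nat_lit 57847) (nat_lit 252) (.e (nat_lit 57365) (nat_lit 1) (.e (nat_lit 57830) (nat_lit 250) .nil)))))))) (.g (nat_lit 6) .nil .nil))) 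
(.lf (nat_lit 31019) (.g (nat_lit 1630) (.e (nat_lit 1201) (nat_lit 88) (.e (nat_lit 65583) (nat_lit 7) (.e (nat_lit 319530) (nat_lit 16) (.e (nat_lit 286748) (nat_lit 9) (.e (nat_lit 335985) (nat_lit 1) (.e (nat_lit 57848) (nat_lit 252) (.e (nat_lit 57365) (nat_lit 1) (.e (nat_lit 57830) (nat_lit 250) .nil)))))))) (.g (nat_lit 4) .nil .nil)))) (.nd (nat_lit 5) 
(.lf (nat_lit 31003) (.g (nat_lit 2542) (.e (nat_lit 1201) (nat_lit 88) (.e (nat_lit 65583) (nat_lit 7) (.e (nat_lit 319530) (nat_lit 16) (.e (nat_lit 286747) (nat_lit 9) (.e (nat_lit 335997) (nat_lit 1) (.e (nat_lit 57846) (nat_lit 252) (.e (nat_lit 57365) (nat_lit 1) (.e (nat_lit 57829) (nat_lit 250) .nil)))))))) (.g (nat_lit 5) .nil .nil))) 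
(.lf (nat_lit 31035) (.g (nat_lit 3039) (.e (nat_lit 1201) (nat_lit 88) (.e (nat_lit 65583) (nat_lit 7) (.e (nat_lit 319530) (nat_lit 16) (.e (nat_lit 286748) (nat_lit 9) (.e (nat_lit 335991) (nat_lit 1) (.e (nat_lit 57849) (nat_lit 252) (.e (nat_lit 57368) (nat_lit 1) (.e (nat_lit 57829) (nat_lit 250) .nil)))))))) (.g (nat_lit 7) .nil .nil)))))) (.nd (nat_lit 3) (.nd (nat_lit 4) (.nd (nat_lit 5) 
(.lf (nat_lit 30983) (.g (nat_lit 3846) (.e (nat_lit 1201) (nat_lit 88) (.e (nat_lit 65583) (nat_lit 7) (.e (nat_lit 319530) (nat_lit 16) (.e (nat_lit 286743) (nat_lit 9) (.e (nat_lit 336000) (nat_lit 1) (.e (nat_lit 57849) (nat_lit 252) (.e (nat_lit 57365) (nat_lit 1) (.e (nat_lit 57830) (nat_lit 250) .nil)))))))) (.g (nat_lit 0) .nil .nil))) 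
(.lf (nat_lit 31015) (.g (nat_lit 1589) (.e (nat_lit 1201) (nat_lit 88) (.e (nat_lit 65583) (nat_lit 7) (.e (nat_lit 319530) (nat_lit 16) (.e (nat_lit 286748) (nat_lit 9) (.e (nat_lit 335985) (nat_lit 1) (.e (nat_lit 57844) (nat_lit 252) (.e (nat_lit 57364) (nat_lit 1) (.e (nat_lit 57830) (nat_lit 250) .nil)))))))) (.g (nat_lit 4) .nil .nil)))) (.nd (nat_lit 5) 
(.lf (nat_lit 30999) (.g (nat_lit 3078) (.e (nat_lit 1201) (nat_lit 88) (.e (nat_lit 65583) (nat_lit 7) (.e (nat_lit 319530) (nat_lit 16) (.e (nat_lit 286745) (nat_lit 9) (.e (nat_lit 335992) (nat_lit 1) (.e (nat_lit 57854) (nat_lit 252) (.e (nat_lit 57366) (nat_lit 1) (.e (nat_lit 57830) (nat_lit 250) .nil)))))))) (.g (nat_lit 6) .nil .nil))) 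
(.lf (nat_lit 31031) (.g (nat_lit 1583) (.e (nat_lit 1201) (nat_lit 88) (.e (nat_lit 65583) (nat_lit 7) (.e (nat_lit 319530) (nat_lit 16) (.e (nat_lit 286748) (nat_lit 9) (.e (nat_lit 335990) (nat_lit 1) (.e (nat_lit 57851) (nat_lit 252) (.e (nat_lit 57364) (nat_lit 1) (.e (nat_lit 57829) (nat_lit 250) .nil)))))))) (.g (nat_lit 4) .nil .nil))))) (.nd (nat_lit 4) (.nd (nat_lit 5) 
(.lf (nat_lit 30991) (.g (nat_lit 2787) (.e (nat_lit 1201) (nat_lit 88) (.e (nat_lit 65583) (nat_lit 7) (.e (nat_lit 319530) (nat_lit 16) (.e (nat_lit 286745) (nat_lit 9) (.e (nat_lit 335990) (nat_lit 1) (.e (nat_lit 57851) (nat_lit 252) (.e (nat_lit 57364) (nat_lit 1) (.e (nat_lit 57830) (nat_lit 250) .nil)))))))) (.g (nat_lit 6) .nil .nil))) 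
(.lf (nat_lit 31023) (.g (nat_lit 3118) (.e (nat_lit 1201) (nat_lit 88) (.e (nat_lit 65583) (nat_lit 7) (.e (nat_lit 319530) (nat_lit 16) (.e (nat_lit 286748) (nat_lit 9) (.e (nat_lit 335985) (nat_lit 1) (.e (nat_lit 57849) (nat_lit 252) (.e (nat_lit 57368) (nat_lit 1) (.e (nat_lit 57829) (nat_lit 250) .nil)))))))) (.g (nat_lit 7) .nil .nil)))) (.nd (nat_lit 5) 
(.lf (nat_lit 31007) (.g (nat_lit 3160) (.e (nat_lit 1201) (nat_lit 88) (.e (nat_lit 65583) (nat_lit 7) (.e (nat_lit 319530) (nat_lit 16) (.e (nat_lit 286747) (nat_lit 9) (.e (nat_lit 335997) (nat_lit 1) (.e (nat_lit 57854) (nat_lit 252) (.e (nat_lit 57366) (nat_lit 1) (.e (nat_lit 57830) (nat_lit 250) .nil)))))))) (.g (nat_lit 6) .nil .nil))) 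
(.lf (nat_lit 31039) (.g (nat_lit 3206) (.e (nat_lit 1201) (nat_lit 88) (.e (nat_lit 65583) (nat_lit 7) (.e (nat_lit 319530) (nat_lit 16) (.e (nat_lit 286748) (nat_lit 9) (.e (nat_lit 335992) (nat_lit 1) (.e (nat_lit 57846) (nat_lit 252) (.e (nat_lit 57365) (nat_lit 1) (.e (nat_lit 57830) (nat_lit 250) .nil)))))))) (.g (nat_lit 7) .nil .nil)))))))))

noncomputable def tv433 : DT := (.nd (nat_lit 0) (.nd (nat_lit 1) (.nd (nat_lit 2) (.nd (nat_lit 3) (.nd (nat_lit 4) (.nd (nat_lit 5) 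
(.lf (nat_lit 31040) (.g (nat_lit 3076) (.e (nat_lit 1201) (nat_lit 88) (.e (nat_lit 65583) (nat_lit 7) (.e (nat_lit 319530) (nat_lit 16) (.e (nat_lit 286748) (nat_lit 9) (.e (nat_lit 335992) (nat_lit 1) (.e (nat_lit 57847) (nat_lit 252) (.e (nat_lit 57368) (nat_lit 1) (.e (nat_lit 57830) (nat_lit 250) .nil)))))))) (.g (nat_lit 6) .nil .nil))) 
(.lf (nat_lit 31072) (.g (nat_lit 4470) (.e (nat_lit 1201) (nat_lit 88) (.e (nat_lit 65583) (nat_lit 7) (.e (nat_lit 319530) (nat_lit 16) (.e (nat_lit 286749) (nat_lit 9) (.e (nat_lit 335997) (nat_lit 1) (.e (nat_lit 57848) (nat_lit 252) (.e (nat_lit 57368) (nat_lit 1) (.e (nat_lit 57829) (nat_lit 250) .nil)))))))) (.g (nat_lit 0) .nil .nil)))) (.nd (nat_lit 5) 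
(.lf (nat_lit 31056) (.g (nat_lit 3389) (.e (nat_lit 1201) (nat_lit 88) (.e (nat_lit 65583) (nat_lit 7) (.e (nat_lit 319530) (nat_lit 16) (.e (nat_lit 286748) (nat_lit 9) (.e (nat_lit 335997) (nat_lit 1) (.e (nat_lit 57848) (nat_lit 252) (.e (nat_lit 57365) (nat_lit 1) (.e (nat_lit 57830) (nat_lit 250) .nil)))))))) (.g (nat_lit 0) .nil .nil))) 
(.lf (nat_lit 31088) (.g (nat_lit 3719) (.e (nat_lit 1201) (nat_lit 88) (.e (nat_lit 65583) (nat_lit 7) (.e (nat_lit 319530) (nat_lit 16) (.e (nat_lit 286753) (nat_lit 10) (.e (nat_lit 344097) (nat_lit 18) (.e (nat_lit 5195) (nat_lit 294) (.e (nat_lit 57365) (nat_lit 1) (.e (nat_lit 57829) (nat_lit 250) .nil)))))))) (.g (nat_lit 7) .nil .nil))))) (.nd (nat_lit 4) (.nd (nat_lit 5) 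
(.lf (nat_lit 31048) (.g (nat_lit 2590) (.e (nat_lit 1201) (nat_lit 88) (.e (nat_lit 65583) (nat_lit 7) (.e (nat_lit 319530) (nat_lit 16) (.e (nat_lit 286748) (nat_lit 9) (.e (nat_lit 335992) (nat_lit 1) (.e (nat_lit 57853) (nat_lit 252) (.e (nat_lit 57364) (nat_lit 1) (.e (nat_lit 57830) (nat_lit 250) .nil)))))))) (.g (nat_lit 6) .nil .nil))) 
(.lf (nat_lit 31080) (.g (nat_lit 1919) (.e (nat_lit 1201) (nat_lit 88) (.e (nat_lit 65583) (nat_lit 7) (.e (nat_lit 319530) (nat_lit 16) (.e (nat_lit 286751) (nat_lit 10) (.e (nat_lit 344097) (nat_lit 18) (.e (nat_lit 5194) (nat_lit 294) (.e (nat_lit 57364) (nat_lit 1) (.e (nat_lit 57830) (nat_lit 250) .nil)))))))) (.g (nat_lit 5) .nil .nil)))) (.nd (nat_lit 5) 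
(.lf (nat_lit 31064) (.g (nat_lit 1475) (.e (nat_lit 1201) (nat_lit 88) (.e (nat_lit 65583) (nat_lit 7) (.e (nat_lit 319530) (nat_lit 16) (.e (nat_lit 286748) (nat_lit 9) (.e (nat_lit 343808) (nat_lit 20) (.e (nat_lit 229120) (nat_lit 1) (.e (nat_lit 57829) (nat_lit 250) .nil))))))) (.g (nat_lit 4) .nil .nil))) 
(.lf (nat_lit 31096) (.g (nat_lit 3747) (.e (nat_lit 1201) (nat_lit 88) (.e (nat_lit 65583) (nat_lit 7) (.e (nat_lit 319530) (nat_lit 16) (.e (nat_lit 286753) (nat_lit 10) (.e (nat_lit 344160) (nat_lit 37) (.e (nat_lit 647201) (nat_lit 12) (.e (nat_lit 57351) (nat_lit 0) (.e (nat_lit 7124) (nat_lit 382) .nil)))))))) (.g (nat_lit 6) .nil .nil)))))) 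
(.nd (nat_lit 3) (.nd (nat_lit 4) (.nd (nat_lit 5) 
(.lf (nat_lit 31044) (.g (nat_lit 2919) (.e (nat_lit 1201) (nat_lit 88) (.e (nat_lit 65583) (nat_lit 7) (.e (nat_lit 319530) (nat_lit 16) (.e (nat_lit 286748) (nat_lit 9) (.e (nat_lit 335992) (nat_lit 1) (.e (nat_lit 57849) (nat_lit 252) (.e (nat_lit 57368) (nat_lit 1) (.e (nat_lit 57830) (nat_lit 250) .nil)))))))) (.g (nat_lit 6) .nil .nil))) 
(.lf (nat_lit 31076) (.g (nat_lit 2279) (.e (nat_lit 1201) (nat_lit 88) (.e (nat_lit 65583) (nat_lit 7) (.e (nat_lit 319530) (nat_lit 16) (.e (nat_lit 286750) (nat_lit 9) (.e (nat_lit 335994) (nat_lit 1) (.e (nat_lit 57854) (nat_lit 252) (.e (nat_lit 57366) (nat_lit 1) (.e (nat_lit 57830) (nat_lit 250) .nil)))))))) (.g (nat_lit 4) .nil .nil)))) (.nd (nat_lit 5) 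
(.lf (nat_lit 31060) (.g (nat_lit 3225) (.e (nat_lit 1201) (nat_lit 88) (.e (nat_lit 65583) (nat_lit 7) (.e (nat_lit 319530) (nat_lit 16) (.e (nat_lit 286748) (nat_lit 9) (.e (nat_lit 335997) (nat_lit 1) (.e (nat_lit 57849) (nat_lit 252) (.e (nat_lit 57368) (nat_lit 1) (.e (nat_lit 57830) (nat_lit 250) .nil)))))))) (.g (nat_lit 6) .nil .nil))) 
(.lf (nat_lit 31092) (.g (nat_lit 2216) (.e (nat_lit 1201) (nat_lit 88) (.e (nat_lit 65583) (nat_lit 7) (.e (nat_lit 319530) (nat_lit 16) (.e (nat_lit 286753) (nat_lit 10) (.e (nat_lit 344160) (nat_lit 37) .nil))))) .nil)))) (.nd (nat_lit 4) (.nd (nat_lit 5) 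
(.lf (nat_lit 31052) (.g (nat_lit 3415) (.e (nat_lit 1201) (nat_lit 88) (.e (nat_lit 65583) (nat_lit 7) (.e (nat_lit 319530) (nat_lit 16) (.e (nat_lit 286748) (nat_lit 9) (.e (nat_lit 335997) (nat_lit 1) (.e (nat_lit 57844) (nat_lit 252) (.e (nat_lit 57364) (nat_lit 1) (.e (nat_lit 57830) (nat_lit 250) .nil)))))))) (.g (nat_lit 0) .nil .nil))) 
(.lf (nat_lit 31084) (.g (nat_lit 2255) (.e (nat_lit 1201) (nat_lit 88) (.e (nat_lit 65583) (nat_lit 7) (.e (nat_lit 319530) (nat_lit 16) (.e (nat_lit 286753) (nat_lit 10) (.e (nat_lit 344097) (nat_lit 18) .nil))))) .nil))) (.nd (nat_lit 5) 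
(.lf (nat_lit 31068) (.g (nat_lit 3271) (.e (nat_lit 1201) (nat_lit 88) (.e (nat_lit 65583) (nat_lit 7) (.e (nat_lit 319530) (nat_lit 16) (.e (nat_lit 286749) (nat_lit 9) (.e (nat_lit 335997) (nat_lit 1) (.e (nat_lit 57846) (nat_lit 252) (.e (nat_lit 57365) (nat_lit 1) (.e (nat_lit 57829) (nat_lit 250) .nil)))))))) (.g (nat_lit 5) .nil .nil))) 
(.lf (nat_lit 31100) (.g (nat_lit 2608) (.e (nat_lit 1201) (nat_lit 88) (.e (nat_lit 65583) (nat_lit 7) (.e (nat_lit 319530) (nat_lit 16) (.e (nat_lit 286755) (nat_lit 10) (.e (nat_lit 344097) (nat_lit 18) (.e (nat_lit 5194) (nat_lit 294) (.e (nat_lit 57365) (nat_lit 1) (.e (nat_lit 57829) (nat_lit 250) .nil)))))))) (.g (nat_lit 6) .nil .nil))))))) 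
(.nd (nat_lit 2) (.nd (nat_lit 3) (.nd (nat_lit 4) (.nd (nat_lit 5) 
(.lf (nat_lit 31042) (.g (nat_lit 3193) (.e (nat_lit 1201) (nat_lit 88) (.e (nat_lit 65583) (nat_lit 7) (.e (nat_lit 319530) (nat_lit 16) (.e (nat_lit 286748) (nat_lit 9) (.e (nat_lit 335992) (nat_lit 1) (.e (nat_lit 57849) (nat_lit 252) (.e (nat_lit 57365) (nat_lit 1) (.e (nat_lit 57829) (nat_lit 250) .nil)))))))) (.g (nat_lit 7) .nil .nil))) 
(.lf (nat_lit 31074) (.g (nat_lit 4374) (.e (nat_lit 1201) (nat_lit 88) (.e (nat_lit 65583) (nat_lit 7) (.e (nat_lit 319530) (nat_lit 16) (.e (nat_lit 286750) (nat_lit 9) (.e (nat_lit 335986) (nat_lit 1) (.e (nat_lit 57847) (nat_lit 252) (.e (nat_lit 57365) (nat_lit 1) (.e (nat_lit 57829) (nat_lit 250) .nil)))))))) (.g (nat_lit 7) .nil .nil)))) (.nd (nat_lit 5) 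
(.lf (nat_lit 31058) (.g (nat_lit 3499) (.e (nat_lit 1201) (nat_lit 88) (.e (nat_lit 65583) (nat_lit 7) (.e (nat_lit 319530) (nat_lit 16) (.e (nat_lit 286748) (nat_lit 9) (.e (nat_lit 335997) (nat_lit 1) (.e (nat_lit 57849) (nat_lit 252) (.e (nat_lit 57365) (nat_lit 1) (.e (nat_lit 57829) (nat_lit 250) .nil)))))))) (.g (nat_lit 7) .nil .nil))) 
(.lf (nat_lit 31090) (.g (nat_lit 2465) (.e (nat_lit 1201) (nat_lit 88) (.e (nat_lit 65583) (nat_lit 7) (.e (nat_lit 319530) (nat_lit 16) (.e (nat_lit 286753) (nat_lit 10) (.e (nat_lit 344097) (nat_lit 18) (.e (nat_lit 5195) (nat_lit 294) (.e (nat_lit 57366) (nat_lit 1) (.e (nat_lit 57830) (nat_lit 250) .nil)))))))) (.g (nat_lit 4) .nil .nil))))) (.nd (nat_lit 4) (.nd (nat_lit 5) 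
(.lf (nat_lit 31050) (.g (nat_lit 3385) (.e (nat_lit 1201) (nat_lit 88) (.e (nat_lit 65583) (nat_lit 7) (.e (nat_lit 319530) (nat_lit 16) (.e (nat_lit 286748) (nat_lit 9) (.e (nat_lit 335992) (nat_lit 1) (.e (nat_lit 57854) (nat_lit 252) (.e (nat_lit 57366) (nat_lit 1) (.e (nat_lit 57830) (nat_lit 250) .nil)))))))) (.g (nat_lit 0) .nil .nil))) 
(.lf (nat_lit 31082) (.g (nat_lit 2532) (.e (nat_lit 1201) (nat_lit 88) (.e (nat_lit 65583) (nat_lit 7) (.e (nat_lit 319530) (nat_lit 16) (.e (nat_lit 286751) (nat_lit 10) (.e (nat_lit 344160) (nat_lit 37) (.e (nat_lit 647201) (nat_lit 12) (.e (nat_lit 57351) (nat_lit 0) (.e (nat_lit 7125) (nat_lit 382) .nil)))))))) (.g (nat_lit 6) .nil .nil)))) (.nd (nat_lit 5) 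
(.lf (nat_lit 31066) (.g (nat_lit 2999) (.e (nat_lit 1201) (nat_lit 88) (.e (nat_lit 65583) (nat_lit 7) (.e (nat_lit 319530) (nat_lit 16) (.e (nat_lit 286749) (nat_lit 9) (.e (nat_lit 335997) (nat_lit 1) (.e (nat_lit 57844) (nat_lit 252) (.e (nat_lit 57364) (nat_lit 1) (.e (nat_lit 57829) (nat_lit 250) .nil)))))))) (.g (nat_lit 5) .nil .nil))) 
(.lf (nat_lit 31098) (.g (nat_lit 1192) (.e (nat_lit 1201) (nat_lit 88) (.e (nat_lit 65583) (nat_lit 7) (.e (nat_lit 319530) (nat_lit 16) (.e (nat_lit 286755) (nat_lit 10) .nil)))) .nil))))) (.nd (nat_lit 3) (.nd (nat_lit 4) (.nd (nat_lit 5) 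
(.lf (nat_lit 31046) (.g (nat_lit 3374) (.e (nat_lit 1201) (nat_lit 88) (.e (nat_lit 65583) (nat_lit 7) (.e (nat_lit 319530) (nat_lit 16) (.e (nat_lit 286748) (nat_lit 9) (.e (nat_lit 335992) (nat_lit 1) (.e (nat_lit 57852) (nat_lit 252) (.e (nat_lit 57364) (nat_lit 1) (.e (nat_lit 57830) (nat_lit 250) .nil)))))))) (.g (nat_lit 6) .nil .nil))) 
(.lf (nat_lit 31078) (.g (nat_lit 2575) (.e (nat_lit 1201) (nat_lit 88) (.e (nat_lit 65583) (nat_lit 7) (.e (nat_lit 319530) (nat_lit 16) (.e (nat_lit 294656) (nat_lit 9) (.e (nat_lit 335988) (nat_lit 1) (.e (nat_lit 57854) (nat_lit 252) (.e (nat_lit 57364) (nat_lit 1) (.e (nat_lit 57830) (nat_lit 250) .nil)))))))) (.g (nat_lit 7) .nil .nil)))) (.nd (nat_lit 5) 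
(.lf (nat_lit 31062) (.g (nat_lit 3391) (.e (nat_lit 1201) (nat_lit 88) (.e (nat_lit 65583) (nat_lit 7) (.e (nat_lit 319530) (nat_lit 16) (.e (nat_lit 286748) (nat_lit 9) (.e (nat_lit 335997) (nat_lit 1) (.e (nat_lit 57853) (nat_lit 252) (.e (nat_lit 57364) (nat_lit 1) (.e (nat_lit 57830) (nat_lit 250) .nil)))))))) (.g (nat_lit 7) .nil .nil))) 
(.lf (nat_lit 31094) (.g (nat_lit 2939) (.e (nat_lit 1201) (nat_lit 88) (.e (nat_lit 65583) (nat_lit 7) (.e (nat_lit 319530) (nat_lit 16) (.e (nat_lit 286753) (nat_lit 10) (.e (nat_lit 344160) (nat_lit 37) (.e (nat_lit 647200) (nat_lit 12) (.e (nat_lit 57348) (nat_lit 0) (.e (nat_lit 7125) (nat_lit 382) .nil)))))))) (.g (nat_lit 5) .nil .nil))))) (.nd (nat_lit 4) (.nd (nat_lit 5) 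
(.lf (nat_lit 31054) (.g (nat_lit 3895) (.e (nat_lit 1201) (nat_lit 88) (.e (nat_lit 65583) (nat_lit 7) (.e (nat_lit 319530) (nat_lit 16) (.e (nat_lit 286748) (nat_lit 9) (.e (nat_lit 335997) (nat_lit 1) (.e (nat_lit 57846) (nat_lit 252) (.e (nat_lit 57365) (nat_lit 1) (.e (nat_lit 57830) (nat_lit 250) .nil)))))))) (.g (nat_lit 0) .nil .nil))) 
(.lf (nat_lit 31086) (.g (nat_lit 3498) (.e (nat_lit 1201) (nat_lit 88) (.e (nat_lit 65583) (nat_lit 7) (.e (nat_lit 319530) (nat_lit 16) (.e (nat_lit 286753) (nat_lit 10) (.e (nat_lit 344097) (nat_lit 18) (.e (nat_lit 5194) (nat_lit 294) (.e (nat_lit 57365) (nat_lit 1) (.e (nat_lit 57830) (nat_lit 250) .nil)))))))) (.g (nat_lit 7) .nil .nil)))) (.nd (nat_lit 5) 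
(.lf (nat_lit 31070) (.g (nat_lit 4212) (.e (nat_lit 1201) (nat_lit 88) (.e (nat_lit 65583) (nat_lit 7) (.e (nat_lit 319530) (nat_lit 16) (.e (nat_lit 286749) (nat_lit 9) (.e (nat_lit 335997) (nat_lit 1) (.e (nat_lit 57848) (nat_lit 252) (.e (nat_lit 57365) (nat_lit 1) (.e (nat_lit 57829) (nat_lit 250) .nil)))))))) (.g (nat_lit 0) .nil .nil))) 
(.lf (nat_lit 31102) (.g (nat_lit 2617) (.e (nat_lit 1201) (nat_lit 88) (.e (nat_lit 65583) (nat_lit 7) (.e (nat_lit 319530) (nat_lit 16) (.e (nat_lit 286755) (nat_lit 10) (.e (nat_lit 344097) (nat_lit 18) (.e (nat_lit 5194) (nat_lit 294) (.e (nat_lit 57368) (nat_lit 1) (.e (nat_lit 57829) (nat_lit 250) .nil)))))))) (.g (nat_lit 6) .nil .nil)))))))) 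
(.nd (nat_lit 1) (.nd (nat_lit 2) (.nd (nat_lit 3) (.nd (nat_lit 4) (.nd (nat_lit 5) 
(.lf (nat_lit 31041) (.g (nat_lit 1809) (.e (nat_lit 1201) (nat_lit 88) (.e (nat_lit 65583) (nat_lit 7) (.e (nat_lit 319530) (nat_lit 16) (.e (nat_lit 286748) (nat_lit 9) (.e (nat_lit 335992) (nat_lit 1) (.e (nat_lit 57848) (nat_lit 252) (.e (nat_lit 57368) (nat_lit 1) (.e (nat_lit 57829) (nat_lit 250) .nil)))))))) (.g (nat_lit 4) .nil .nil))) 
(.lf (nat_lit 31073) (.g (nat_lit 1806) (.e (nat_lit 1201) (nat_lit 88) (.e (nat_lit 65583) (nat_lit 7) (.e (nat_lit 319530) (nat_lit 16) (.e (nat_lit 286750) (nat_lit 9) .nil)))) .nil))) (.nd (nat_lit 5) 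
(.lf (nat_lit 31057) (.g (nat_lit 3462) (.e (nat_lit 1201) (nat_lit 88) (.e (nat_lit 65583) (nat_lit 7) (.e (nat_lit 319530) (nat_lit 16) (.e (nat_lit 286748) (nat_lit 9) (.e (nat_lit 335997) (nat_lit 1) (.e (nat_lit 57848) (nat_lit 252) (.e (nat_lit 57368) (nat_lit 1) (.e (nat_lit 57829) (nat_lit 250) .nil)))))))) (.g (nat_lit 0) .nil .nil))) 
(.lf (nat_lit 31089) (.g (nat_lit 3806) (.e (nat_lit 1201) (nat_lit 88) (.e (nat_lit 65583) (nat_lit 7) (.e (nat_lit 319530) (nat_lit 16) (.e (nat_lit 286753) (nat_lit 10) (.e (nat_lit 344097) (nat_lit 18) (.e (nat_lit 5195) (nat_lit 294) (.e (nat_lit 57365) (nat_lit 1) (.e (nat_lit 57830) (nat_lit 250) .nil)))))))) (.g (nat_lit 7) .nil .nil))))) (.nd (nat_lit 4) (.nd (nat_lit 5) 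
(.lf (nat_lit 31049) (.g (nat_lit 1611) (.e (nat_lit 1201) (nat_lit 88) (.e (nat_lit 65583) (nat_lit 7) (.e (nat_lit 319530) (nat_lit 16) (.e (nat_lit 286748) (nat_lit 9) (.e (nat_lit 335992) (nat_lit 1) (.e (nat_lit 57854) (nat_lit 252) (.e (nat_lit 57364) (nat_lit 1) (.e (nat_lit 57829) (nat_lit 250) .nil)))))))) (.g (nat_lit 4) .nil .nil))) 
(.lf (nat_lit 31081) (.g (nat_lit 3628) (.e (nat_lit 1201) (nat_lit 88) (.e (nat_lit 65583) (nat_lit 7) (.e (nat_lit 319530) (nat_lit 16) (.e (nat_lit 286751) (nat_lit 10) (.e (nat_lit 344097) (nat_lit 18) (.e (nat_lit 5195) (nat_lit 294) (.e (nat_lit 57365) (nat_lit 1) (.e (nat_lit 57830) (nat_lit 250) .nil)))))))) (.g (nat_lit 0) .nil .nil)))) (.nd (nat_lit 5) 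
(.lf (nat_lit 31065) (.g (nat_lit 2373) (.e (nat_lit 1201) (nat_lit 88) (.e (nat_lit 65583) (nat_lit 7) (.e (nat_lit 319530) (nat_lit 16) (.e (nat_lit 286749) (nat_lit 9) (.e (nat_lit 335997) (nat_lit 1) .nil))))) .nil)) 
(.lf (nat_lit 31097) (.g (nat_lit 2260) (.e (nat_lit 1201) (nat_lit 88) (.e (nat_lit 65583) (nat_lit 7) (.e (nat_lit 319530) (nat_lit 16) (.e (nat_lit 286753) (nat_lit 10) (.e (nat_lit 344160) (nat_lit 37) (.e (nat_lit 647201) (nat_lit 12) (.e (nat_lit 57353) (nat_lit 0) (.e (nat_lit 7125) (nat_lit 382) .nil)))))))) (.g (nat_lit 4) .nil .nil)))))) 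
(.nd (nat_lit 3) (.nd (nat_lit 4) (.nd (nat_lit 5) 
(.lf (nat_lit 31045) (.g (nat_lit 1661) (.e (nat_lit 1201) (nat_lit 88) (.e (nat_lit 65583) (nat_lit 7) (.e (nat_lit 319530) (nat_lit 16) (.e (nat_lit 286748) (nat_lit 9) (.e (nat_lit 335992) (nat_lit 1) (.e (nat_lit 57851) (nat_lit 252) (.e (nat_lit 57364) (nat_lit 1) (.e (nat_lit 57829) (nat_lit 250) .nil)))))))) (.g (nat_lit 4) .nil .nil))) 
(.lf (nat_lit 31077) (.g (nat_lit 769) (.e (nat_lit 1201) (nat_lit 88) (.e (nat_lit 65583) (nat_lit 7) (.e (nat_lit 319530) (nat_lit 16) (.e (nat_lit 294656) (nat_lit 9) .nil)))) .nil))) (.nd (nat_lit 5) 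
(.lf (nat_lit 31061) (.g (nat_lit 2866) (.e (nat_lit 1201) (nat_lit 88) (.e (nat_lit 65583) (nat_lit 7) (.e (nat_lit 319530) (nat_lit 16) (.e (nat_lit 286748) (nat_lit 9) (.e (nat_lit 335997) (nat_lit 1) (.e (nat_lit 57851) (nat_lit 252) (.e (nat_lit 57364) (nat_lit 1) (.e (nat_lit 57830) (nat_lit 250) .nil)))))))) (.g (nat_lit 6) .nil .nil))) 
(.lf (nat_lit 31093) (.g (nat_lit 2401) (.e (nat_lit 1201) (nat_lit 88) (.e (nat_lit 65583) (nat_lit 7) (.e (nat_lit 319530) (nat_lit 16) (.e (nat_lit 286753) (nat_lit 10) (.e (nat_lit 344160) (nat_lit 37) (.e (nat_lit 647200) (nat_lit 12) (.e (nat_lit 57348) (nat_lit 0) (.e (nat_lit 7124) (nat_lit 382) .nil)))))))) (.g (nat_lit 4) .nil .nil))))) (.nd (nat_lit 4) (.nd (nat_lit 5) 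
(.lf (nat_lit 31053) (.g (nat_lit 3437) (.e (nat_lit 1201) (nat_lit 88) (.e (nat_lit 65583) (nat_lit 7) (.e (nat_lit 319530) (nat_lit 16) (.e (nat_lit 286748) (nat_lit 9) (.e (nat_lit 335997) (nat_lit 1) (.e (nat_lit 57846) (nat_lit 252) (.e (nat_lit 57365) (nat_lit 1) (.e (nat_lit 57829) (nat_lit 250) .nil)))))))) (.g (nat_lit 7) .nil .nil))) 
(.lf (nat_lit 31085) (.g (nat_lit 3373) (.e (nat_lit 1201) (nat_lit 88) (.e (nat_lit 65583) (nat_lit 7) (.e (nat_lit 319530) (nat_lit 16) (.e (nat_lit 286753) (nat_lit 10) (.e (nat_lit 344097) (nat_lit 18) (.e (nat_lit 5194) (nat_lit 294) (.e (nat_lit 57365) (nat_lit 1) (.e (nat_lit 57829) (nat_lit 250) .nil)))))))) (.g (nat_lit 6) .nil .nil)))) (.nd (nat_lit 5) 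
(.lf (nat_lit 31069) (.g (nat_lit 3540) (.e (nat_lit 1201) (nat_lit 88) (.e (nat_lit 65583) (nat_lit 7) (.e (nat_lit 319530) (nat_lit 16) (.e (nat_lit 286749) (nat_lit 9) (.e (nat_lit 335997) (nat_lit 1) (.e (nat_lit 57847) (nat_lit 252) (.e (nat_lit 57365) (nat_lit 1) (.e (nat_lit 57829) (nat_lit 250) .nil)))))))) (.g (nat_lit 5) .nil .nil))) 
(.lf (nat_lit 31101) (.g (nat_lit 2733) (.e (nat_lit 1201) (nat_lit 88) (.e (nat_lit 65583) (nat_lit 7) (.e (nat_lit 319530) (nat_lit 16) (.e (nat_lit 286755) (nat_lit 10) (.e (nat_lit 344097) (nat_lit 18) (.e (nat_lit 5194) (nat_lit 294) (.e (nat_lit 57365) (nat_lit 1) (.e (nat_lit 57830) (nat_lit 250) .nil)))))))) (.g (nat_lit 6) .nil .nil))))))) 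
(.nd (nat_lit 2) (.nd (nat_lit 3) (.nd (nat_lit 4) (.nd (nat_lit 5) 
(.lf (nat_lit 31043) (.g (nat_lit 3498) (.e (nat_lit 1201) (nat_lit 88) (.e (nat_lit 65583) (nat_lit 7) (.e (nat_lit 319530) (nat_lit 16) (.e (nat_lit 286748) (nat_lit 9) (.e (nat_lit 335992) (nat_lit 1) (.e (nat_lit 57849) (nat_lit 252) (.e (nat_lit 57365) (nat_lit 1) (.e (nat_lit 57830) (nat_lit 250) .nil)))))))) (.g (nat_lit 8) .nil .nil))) 
(.lf (nat_lit 31075) (.g (nat_lit 3709) (.e (nat_lit 1201) (nat_lit 88) (.e (nat_lit 65583) (nat_lit 7) (.e (nat_lit 319530) (nat_lit 16) (.e (nat_lit 286750) (nat_lit 9) (.e (nat_lit 335987) (nat_lit 1) (.e (nat_lit 57854) (nat_lit 252) (.e (nat_lit 57366) (nat_lit 1) (.e (nat_lit 57830) (nat_lit 250) .nil)))))))) (.g (nat_lit 0) .nil .nil)))) (.nd (nat_lit 5) 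
(.lf (nat_lit 31059) (.g (nat_lit 3804) (.e (nat_lit 1201) (nat_lit 88) (.e (nat_lit 65583) (nat_lit 7) (.e (nat_lit 319530) (nat_lit 16) (.e (nat_lit 286748) (nat_lit 9) (.e (nat_lit 335997) (nat_lit 1) (.e (nat_lit 57849) (nat_lit 252) (.e (nat_lit 57365) (nat_lit 1) (.e (nat_lit 57830) (nat_lit 250) .nil)))))))) (.g (nat_lit 8) .nil .nil))) 
(.lf (nat_lit 31091) (.g (nat_lit 3488) (.e (nat_lit 1201) (nat_lit 88) (.e (nat_lit 65583) (nat_lit 7) (.e (nat_lit 319530) (nat_lit 16) (.e (nat_lit 286753) (nat_lit 10) (.e (nat_lit 344097) (nat_lit 18) (.e (nat_lit 5195) (nat_lit 294) (.e (nat_lit 57368) (nat_lit 1) (.e (nat_lit 57829) (nat_lit 250) .nil)))))))) (.g (nat_lit 7) .nil .nil))))) (.nd (nat_lit 4) (.nd (nat_lit 5) 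
(.lf (nat_lit 31051) (.g (nat_lit 2047) (.e (nat_lit 1201) (nat_lit 88) (.e (nat_lit 65583) (nat_lit 7) (.e (nat_lit 319530) (nat_lit 16) (.e (nat_lit 286748) (nat_lit 9) (.e (nat_lit 335997) (nat_lit 1) (.e (nat_lit 57844) (nat_lit 252) (.e (nat_lit 57364) (nat_lit 1) (.e (nat_lit 57829) (nat_lit 250) .nil)))))))) (.g (nat_lit 5) .nil .nil))) 
(.lf (nat_lit 31083) (.g (nat_lit 1997) (.e (nat_lit 1201) (nat_lit 88) (.e (nat_lit 65583) (nat_lit 7) (.e (nat_lit 319530) (nat_lit 16) (.e (nat_lit 286751) (nat_lit 10) (.e (nat_lit 344161) (nat_lit 37) (.e (nat_lit 647201) (nat_lit 12) (.e (nat_lit 57351) (nat_lit 0) (.e (nat_lit 7125) (nat_lit 382) .nil)))))))) (.g (nat_lit 6) .nil .nil)))) (.nd (nat_lit 5) 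
(.lf (nat_lit 31067) (.g (nat_lit 4367) (.e (nat_lit 1201) (nat_lit 88) (.e (nat_lit 65583) (nat_lit 7) (.e (nat_lit 319530) (nat_lit 16) (.e (nat_lit 286749) (nat_lit 9) (.e (nat_lit 335997) (nat_lit 1) (.e (nat_lit 57844) (nat_lit 252) (.e (nat_lit 57364) (nat_lit 1) (.e (nat_lit 57830) (nat_lit 250) .nil)))))))) (.g (nat_lit 0) .nil .nil))) 
(.lf (nat_lit 31099) (.g (nat_lit 1926) (.e (nat_lit 1201) (nat_lit 88) (.e (nat_lit 65583) (nat_lit 7) (.e (nat_lit 319530) (nat_lit 16) (.e (nat_lit 286755) (nat_lit 10) (.e (nat_lit 344087) (nat_lit 18) (.e (nat_lit 5205) (nat_lit 294) (.e (nat_lit 57366) (nat_lit 1) (.e (nat_lit 57830) (nat_lit 250) .nil)))))))) (.g (nat_lit 5) .nil .nil)))))) 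
(.nd (nat_lit 3) (.nd (nat_lit 4) (.nd (nat_lit 5) 
(.lf (nat_lit 31047) (.g (nat_lit 3527) (.e (nat_lit 1201) (nat_lit 88) (.e (nat_lit 65583) (nat_lit 7) (.e (nat_lit 319530) (nat_lit 16) (.e (nat_lit 286748) (nat_lit 9) (.e (nat_lit 335992) (nat_lit 1) (.e (nat_lit 57852) (nat_lit 252) (.e (nat_lit 57366) (nat_lit 1) (.e (nat_lit 57830) (nat_lit 250) .nil)))))))) (.g (nat_lit 7) .nil .nil))) 
(.lf (nat_lit 31079) (.g (nat_lit 861) (.e (nat_lit 1201) (nat_lit 88) (.e (nat_lit 65583) (nat_lit 7) (.e (nat_lit 319530) (nat_lit 16) (.e (nat_lit 286751) (nat_lit 10) .nil)))) .nil))) (.nd (nat_lit 5) 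
(.lf (nat_lit 31063) (.g (nat_lit 2105) (.e (nat_lit 1201) (nat_lit 88) (.e (nat_lit 65583) (nat_lit 7) (.e (nat_lit 319530) (nat_lit 16) (.e (nat_lit 286748) (nat_lit 9) (.e (nat_lit 336295) (nat_lit 15) (.e (nat_lit 7936) (nat_lit 157) (.e (nat_lit 7261) (nat_lit 384) (.e (nat_lit 57364) (nat_lit 1) (.e (nat_lit 57830) (nat_lit 250) .nil))))))))) (.g (nat_lit 5) .nil .nil))) 
(.lf (nat_lit 31095) (.g (nat_lit 3695) (.e (nat_lit 1201) (nat_lit 88) (.e (nat_lit 65583) (nat_lit 7) (.e (nat_lit 319530) (nat_lit 16) (.e (nat_lit 286753) (nat_lit 10) (.e (nat_lit 344160) (nat_lit 37) (.e (nat_lit 647201) (nat_lit 12) (.e (nat_lit 57351) (nat_lit 0) (.e (nat_lit 7122) (nat_lit 382) .nil)))))))) (.g (nat_lit 7) .nil .nil))))) (.nd (nat_lit 4) (.nd (nat_lit 5) 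
(.lf (nat_lit 31055) (.g (nat_lit 3196) (.e (nat_lit 1201) (nat_lit 88) (.e (nat_lit 65583) (nat_lit 7) (.e (nat_lit 319530) (nat_lit 16) (.e (nat_lit 286748) (nat_lit 9) (.e (nat_lit 335997) (nat_lit 1) (.e (nat_lit 57848) (nat_lit 252) (.e (nat_lit 57365) (nat_lit 1) (.e (nat_lit 57829) (nat_lit 250) .nil)))))))) (.g (nat_lit 0) .nil .nil))) 
(.lf (nat_lit 31087) (.g (nat_lit 2465) (.e (nat_lit 1201) (nat_lit 88) (.e (nat_lit 65583) (nat_lit 7) (.e (nat_lit 319530) (nat_lit 16) (.e (nat_lit 286753) (nat_lit 10) (.e (nat_lit 344097) (nat_lit 18) (.e (nat_lit 5195) (nat_lit 294) (.e (nat_lit 57363) (nat_lit 1) (.e (nat_lit 57830) (nat_lit 250) .nil)))))))) (.g (nat_lit 4) .nil .nil)))) (.nd (nat_lit 5) 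
(.lf (nat_lit 31071) (.g (nat_lit 4405) (.e (nat_lit 1201) (nat_lit 88) (.e (nat_lit 65583) (nat_lit 7) (.e (nat_lit 319530) (nat_lit 16) (.e (nat_lit 286749) (nat_lit 9) (.e (nat_lit 335997) (nat_lit 1) (.e (nat_lit 57848) (nat_lit 252) (.e (nat_lit 57365) (nat_lit 1) (.e (nat_lit 57830) (nat_lit 250) .nil)))))))) (.g (nat_lit 0) .nil .nil))) 
(.lf (nat_lit 31103) (.g (nat_lit 3101) (.e (nat_lit 1201) (nat_lit 88) (.e (nat_lit 65583) (nat_lit 7) (.e (nat_lit 319530) (nat_lit 16) (.e (nat_lit 286755) (nat_lit 10) (.e (nat_lit 344097) (nat_lit 18) (.e (nat_lit 5195) (nat_lit 294) (.e (nat_lit 57365) (nat_lit 1) (.e (nat_lit 57829) (nat_lit 250) .nil)))))))) (.g (nat_lit 6) .nil .nil)))))))))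

noncomputable def tv434 : DT := (.nd (nat_lit 0) (.nd (nat_lit 1) (.nd (nat_lit 2) (.nd (nat_lit 3) (.nd (nat_lit 4) (.nd (nat_lit 5) 
(.lf (nat_lit 31104) (.g (nat_lit 3188) (.e (nat_lit 1201) (nat_lit 88) (.e (nat_lit 65583) (nat_lit 7) (.e (nat_lit 319530) (nat_lit 16) (.e (nat_lit 286755) (nat_lit 10) (.e (nat_lit 344097) (nat_lit 18) (.e (nat_lit 5195) (nat_lit 294) (.e (nat_lit 57365) (nat_lit 1) (.e (nat_lit 57830) (nat_lit 250) .nil)))))))) (.g (nat_lit 6) .nil .nil))) 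
(.lf (nat_lit 31136) (.g (nat_lit 3140) (.e (nat_lit 1201) (nat_lit 88) (.e (nat_lit 65583) (nat_lit 7) (.e (nat_lit 319530) (nat_lit 16) (.e (nat_lit 286767) (nat_lit 27) (.e (nat_lit 426098) (nat_lit 1) (.e (nat_lit 164325) (nat_lit 230) (.e (nat_lit 163864) (nat_lit 1) (.e (nat_lit 164383) (nat_lit 254) .nil)))))))) (.g (nat_lit 6) .nil .nil)))) (.nd (nat_lit 5) 
(.lf (nat_lit 31120) (.g (nat_lit 2323) (.e (nat_lit 1201) (nat_lit 88) (.e (nat_lit 65583) (nat_lit 7) (.e (nat_lit 319530) (nat_lit 16) (.e (nat_lit 286756) (nat_lit 10) (.e (nat_lit 344097) (nat_lit 18) (.e (nat_lit 5195) (nat_lit 294) (.e (nat_lit 57367) (nat_lit 1) (.e (nat_lit 57830) (nat_lit 250) .nil)))))))) (.g (nat_lit 5) .nil .nil))) 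
(.lf (nat_lit 31152) (.g (nat_lit 2336) (.e (nat_lit 1201) (nat_lit 88) (.e (nat_lit 65583) (nat_lit 7) (.e (nat_lit 319533) (nat_lit 16) (.e (nat_lit 286753) (nat_lit 10) (.e (nat_lit 344160) (nat_lit 37) (.e (nat_lit 647200) (nat_lit 12) (.e (nat_lit 57348) (nat_lit 0) (.e (nat_lit 7125) (nat_lit 382) .nil)))))))) (.g (nat_lit 4) .nil .nil))))) (.nd (nat_lit 4) (.nd (nat_lit 5) 
(.lf (nat_lit 31112) (.g (nat_lit 2369) (.e (nat_lit 1201) (nat_lit 88) (.e (nat_lit 65583) (nat_lit 7) (.e (nat_lit 319530) (nat_lit 16) (.e (nat_lit 286756) (nat_lit 10) (.e (nat_lit 344097) (nat_lit 18) (.e (nat_lit 5194) (nat_lit 294) (.e (nat_lit 57364) (nat_lit 1) (.e (nat_lit 57830) (nat_lit 250) .nil)))))))) (.g (nat_lit 5) .nil .nil))) 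
(.lf (nat_lit 31144) (.g (nat_lit 3488) (.e (nat_lit 1201) (nat_lit 88) (.e (nat_lit 65583) (nat_lit 7) (.e (nat_lit 319533) (nat_lit 16) (.e (nat_lit 286753) (nat_lit 10) (.e (nat_lit 344097) (nat_lit 18) (.e (nat_lit 5194) (nat_lit 294) (.e (nat_lit 57365) (nat_lit 1) (.e (nat_lit 57830) (nat_lit 250) .nil)))))))) (.g (nat_lit 7) .nil .nil)))) (.nd (nat_lit 5) 
(.lf (nat_lit 31128) (.g (nat_lit 1144) (.e (nat_lit 1201) (nat_lit 88) (.e (nat_lit 65583) (nat_lit 7) (.e (nat_lit 319530) (nat_lit 16) (.e (nat_lit 286759) (nat_lit 12) .nil)))) .nil)) 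
(.lf (nat_lit 31160) (.g (nat_lit 2607) (.e (nat_lit 1201) (nat_lit 88) (.e (nat_lit 65583) (nat_lit 7) (.e (nat_lit 319534) (nat_lit 16) (.e (nat_lit 286749) (nat_lit 9) (.e (nat_lit 335997) (nat_lit 1) (.e (nat_lit 57854) (nat_lit 252) (.e (nat_lit 57366) (nat_lit 1) (.e (nat_lit 57830) (nat_lit 250) .nil)))))))) (.g (nat_lit 4) .nil .nil)))))) (.nd (nat_lit 3) (.nd (nat_lit 4) (.nd (nat_lit 5) 
(.lf (nat_lit 31108) (.g (nat_lit 1890) (.e (nat_lit 1201) (nat_lit 88) (.e (nat_lit 65583) (nat_lit 7) (.e (nat_lit 319530) (nat_lit 16) (.e (nat_lit 286755) (nat_lit 10) (.e (nat_lit 344098) (nat_lit 18) (.e (nat_lit 5205) (nat_lit 294) (.e (nat_lit 57366) (nat_lit 1) (.e (nat_lit 57830) (nat_lit 250) .nil)))))))) (.g (nat_lit 5) .nil .nil))) 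
(.lf (nat_lit 31140) (.g (nat_lit 3022) (.e (nat_lit 1201) (nat_lit 88) (.e (nat_lit 65583) (nat_lit 7) (.e (nat_lit 319531) (nat_lit 16) (.e (nat_lit 286749) (nat_lit 9) (.e (nat_lit 335997) (nat_lit 1) .nil))))) .nil))) (.nd (nat_lit 5) 
(.lf (nat_lit 31124) (.g (nat_lit 1266) (.e (nat_lit 1201) (nat_lit 88) (.e (nat_lit 65583) (nat_lit 7) (.e (nat_lit 319530) (nat_lit 16) (.e (nat_lit 286757) (nat_lit 11) .nil)))) .nil)) 
(.lf (nat_lit 31156) (.g (nat_lit 3005) (.e (nat_lit 1201) (nat_lit 88) (.e (nat_lit 65583) (nat_lit 7) (.e (nat_lit 319534) (nat_lit 16) (.e (nat_lit 286749) (nat_lit 9) (.e (nat_lit 335997) (nat_lit 1) (.e (nat_lit 57848) (nat_lit 252) (.e (nat_lit 57365) (nat_lit 1) (.e (nat_lit 57829) (nat_lit 250) .nil)))))))) (.g (nat_lit 5) .nil .nil))))) (.nd (nat_lit 4) (.nd (nat_lit 5) 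
(.lf (nat_lit 31116) (.g (nat_lit 3780) (.e (nat_lit 1201) (nat_lit 88) (.e (nat_lit 65583) (nat_lit 7) (.e (nat_lit 319530) (nat_lit 16) (.e (nat_lit 286756) (nat_lit 10) (.e (nat_lit 344097) (nat_lit 18) (.e (nat_lit 5194) (nat_lit 294) (.e (nat_lit 57368) (nat_lit 1) (.e (nat_lit 57830) (nat_lit 250) .nil)))))))) (.g (nat_lit 0) .nil .nil))) 
(.lf (nat_lit 31148) (.g (nat_lit 2465) (.e (nat_lit 1201) (nat_lit 88) (.e (nat_lit 65583) (nat_lit 7) (.e (nat_lit 319533) (nat_lit 16) (.e (nat_lit 286753) (nat_lit 10) (.e (nat_lit 344097) (nat_lit 18) (.e (nat_lit 5195) (nat_lit 294) (.e (nat_lit 57366) (nat_lit 1) (.e (nat_lit 57830) (nat_lit 250) .nil)))))))) (.g (nat_lit 4) .nil .nil)))) (.nd (nat_lit 5) 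
(.lf (nat_lit 31132) (.g (nat_lit 1818) (.e (nat_lit 1201) (nat_lit 88) (.e (nat_lit 65583) (nat_lit 7) (.e (nat_lit 319530) (nat_lit 16) (.e (nat_lit 286763) (nat_lit 15) (.e (nat_lit 7098) (nat_lit 380) (.e (nat_lit 164268) (nat_lit 221) (.e (nat_lit 2542) (nat_lit 158) (.e (nat_lit 8432) (nat_lit 138) .nil)))))))) (.g (nat_lit 4) .nil .nil))) 
(.lf (nat_lit 31164) (.g (nat_lit 3245) (.e (nat_lit 1201) (nat_lit 88) (.e (nat_lit 65583) (nat_lit 7) (.e (nat_lit 319534) (nat_lit 16) (.e (nat_lit 286756) (nat_lit 10) (.e (nat_lit 344097) (nat_lit 18) (.e (nat_lit 5194) (nat_lit 294) (.e (nat_lit 57368) (nat_lit 1) (.e (nat_lit 57829) (nat_lit 250) .nil)))))))) (.g (nat_lit 5) .nil .nil))))))) 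
(.nd (nat_lit 2) (.nd (nat_lit 3) (.nd (nat_lit 4) (.nd (nat_lit 5) 
(.lf (nat_lit 31106) (.g (nat_lit 2837) (.e (nat_lit 1201) (nat_lit 88) (.e (nat_lit 65583) (nat_lit 7) (.e (nat_lit 319530) (nat_lit 16) (.e (nat_lit 286755) (nat_lit 10) (.e (nat_lit 344097) (nat_lit 18) (.e (nat_lit 5195) (nat_lit 294) (.e (nat_lit 57368) (nat_lit 1) (.e (nat_lit 57829) (nat_lit 250) .nil)))))))) (.g (nat_lit 6) .nil .nil))) 
(.lf (nat_lit 31138) (.g (nat_lit 2887) (.e (nat_lit 1201) (nat_lit 88) (.e (nat_lit 65583) (nat_lit 7) (.e (nat_lit 319530) (nat_lit 16) (.e (nat_lit 286767) (nat_lit 27) (.e (nat_lit 426107) (nat_lit 1) (.e (nat_lit 164325) (nat_lit 230) (.e (nat_lit 163864) (nat_lit 1) (.e (nat_lit 164383) (nat_lit 254) .nil)))))))) (.g (nat_lit 6) .nil .nil)))) (.nd (nat_lit 5) 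
(.lf (nat_lit 31122) (.g (nat_lit 3940) (.e (nat_lit 1201) (nat_lit 88) (.e (nat_lit 65583) (nat_lit 7) (.e (nat_lit 319530) (nat_lit 16) (.e (nat_lit 286756) (nat_lit 10) (.e (nat_lit 344097) (nat_lit 18) (.e (nat_lit 5195) (nat_lit 294) (.e (nat_lit 57368) (nat_lit 1) (.e (nat_lit 57830) (nat_lit 250) .nil)))))))) (.g (nat_lit 0) .nil .nil))) 
(.lf (nat_lit 31154) (.g (nat_lit 2357) (.e (nat_lit 1201) (nat_lit 88) (.e (nat_lit 65583) (nat_lit 7) (.e (nat_lit 319534) (nat_lit 16) (.e (nat_lit 286749) (nat_lit 9) (.e (nat_lit 335997) (nat_lit 1) .nil))))) .nil)))) (.nd (nat_lit 4) (.nd (nat_lit 5) 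
(.lf (nat_lit 31114) (.g (nat_lit 3561) (.e (nat_lit 1201) (nat_lit 88) (.e (nat_lit 65583) (nat_lit 7) (.e (nat_lit 319530) (nat_lit 16) (.e (nat_lit 286756) (nat_lit 10) (.e (nat_lit 344097) (nat_lit 18) (.e (nat_lit 5194) (nat_lit 294) (.e (nat_lit 57365) (nat_lit 1) (.e (nat_lit 57830) (nat_lit 250) .nil)))))))) (.g (nat_lit 0) .nil .nil))) 
(.lf (nat_lit 31146) (.g (nat_lit 3729) (.e (nat_lit 1201) (nat_lit 88) (.e (nat_lit 65583) (nat_lit 7) (.e (nat_lit 319533) (nat_lit 16) (.e (nat_lit 286753) (nat_lit 10) (.e (nat_lit 344097) (nat_lit 18) (.e (nat_lit 5195) (nat_lit 294) (.e (nat_lit 57365) (nat_lit 1) (.e (nat_lit 57829) (nat_lit 250) .nil)))))))) (.g (nat_lit 7) .nil .nil)))) (.nd (nat_lit 5) 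
(.lf (nat_lit 31130) (.g (nat_lit 2605) (.e (nat_lit 1201) (nat_lit 88) (.e (nat_lit 65583) (nat_lit 7) (.e (nat_lit 319530) (nat_lit 16) (.e (nat_lit 286759) (nat_lit 12) (.e (nat_lit 385107) (nat_lit 51) (.e (nat_lit 802560) (nat_lit 1) (.e (nat_lit 57827) (nat_lit 250) .nil))))))) (.g (nat_lit 4) .nil .nil))) 
(.lf (nat_lit 31162) (.g (nat_lit 3257) (.e (nat_lit 1201) (nat_lit 88) (.e (nat_lit 65583) (nat_lit 7) (.e (nat_lit 319534) (nat_lit 16) (.e (nat_lit 286756) (nat_lit 10) (.e (nat_lit 344097) (nat_lit 18) (.e (nat_lit 5194) (nat_lit 294) (.e (nat_lit 57365) (nat_lit 1) (.e (nat_lit 57829) (nat_lit 250) .nil)))))))) (.g (nat_lit 5) .nil .nil)))))) 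
(.nd (nat_lit 3) (.nd (nat_lit 4) (.nd (nat_lit 5) 
(.lf (nat_lit 31110) (.g (nat_lit 1639) (.e (nat_lit 1201) (nat_lit 88) (.e (nat_lit 65583) (nat_lit 7) (.e (nat_lit 319530) (nat_lit 16) (.e (nat_lit 286755) (nat_lit 10) (.e (nat_lit 344160) (nat_lit 37) (.e (nat_lit 647201) (nat_lit 12) (.e (nat_lit 57351) (nat_lit 0) (.e (nat_lit 7124) (nat_lit 382) .nil)))))))) (.g (nat_lit 4) .nil .nil))) 
(.lf (nat_lit 31142) (.g (nat_lit 2255) (.e (nat_lit 1201) (nat_lit 88) (.e (nat_lit 65583) (nat_lit 7) (.e (nat_lit 319533) (nat_lit 16) (.e (nat_lit 286753) (nat_lit 10) (.e (nat_lit 344097) (nat_lit 18) .nil))))) .nil))) (.nd (nat_lit 5) 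
(.lf (nat_lit 31126) (.g (nat_lit 2671) (.e (nat_lit 1201) (nat_lit 88) (.e (nat_lit 65583) (nat_lit 7) (.e (nat_lit 319530) (nat_lit 16) (.e (nat_lit 286757) (nat_lit 11) (.e (nat_lit 368662) (nat_lit 18) (.e (nat_lit 5195) (nat_lit 294) (.e (nat_lit 57365) (nat_lit 1) (.e (nat_lit 57830) (nat_lit 250) .nil)))))))) (.g (nat_lit 6) .nil .nil))) 
(.lf (nat_lit 31158) (.g (nat_lit 3263) (.e (nat_lit 1201) (nat_lit 88) (.e (nat_lit 65583) (nat_lit 7) (.e (nat_lit 319534) (nat_lit 16) (.e (nat_lit 286749) (nat_lit 9) (.e (nat_lit 335997) (nat_lit 1) (.e (nat_lit 57848) (nat_lit 252) (.e (nat_lit 57368) (nat_lit 1) (.e (nat_lit 57829) (nat_lit 250) .nil)))))))) (.g (nat_lit 6) .nil .nil))))) (.nd (nat_lit 4) (.nd (nat_lit 5) 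
(.lf (nat_lit 31118) (.g (nat_lit 3952) (.e (nat_lit 1201) (nat_lit 88) (.e (nat_lit 65583) (nat_lit 7) (.e (nat_lit 319530) (nat_lit 16) (.e (nat_lit 286756) (nat_lit 10) (.e (nat_lit 344097) (nat_lit 18) (.e (nat_lit 5195) (nat_lit 294) (.e (nat_lit 57365) (nat_lit 1) (.e (nat_lit 57830) (nat_lit 250) .nil)))))))) (.g (nat_lit 0) .nil .nil))) 
(.lf (nat_lit 31150) (.g (nat_lit 2228) (.e (nat_lit 1201) (nat_lit 88) (.e (nat_lit 65583) (nat_lit 7) (.e (nat_lit 319533) (nat_lit 16) (.e (nat_lit 286753) (nat_lit 10) (.e (nat_lit 344160) (nat_lit 37) .nil))))) .nil))) (.nd (nat_lit 5) 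
(.lf (nat_lit 31134) (.g (nat_lit 1809) (.e (nat_lit 1201) (nat_lit 88) (.e (nat_lit 65583) (nat_lit 7) (.e (nat_lit 319530) (nat_lit 16) (.e (nat_lit 286763) (nat_lit 15) (.e (nat_lit 7936) (nat_lit 407) (.e (nat_lit 73736) (nat_lit 0) (.e (nat_lit 5817) (nat_lit 320) .nil))))))) (.g (nat_lit 4) .nil .nil))) 
(.lf (nat_lit 31166) (.g (nat_lit 3735) (.e (nat_lit 1201) (nat_lit 88) (.e (nat_lit 65583) (nat_lit 7) (.e (nat_lit 319534) (nat_lit 16) (.e (nat_lit 286756) (nat_lit 10) (.e (nat_lit 344097) (nat_lit 18) (.e (nat_lit 5195) (nat_lit 294) (.e (nat_lit 57365) (nat_lit 1) (.e (nat_lit 57829) (nat_lit 250) .nil)))))))) (.g (nat_lit 6) .nil .nil)))))))) 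
(.nd (nat_lit 1) (.nd (nat_lit 2) (.nd (nat_lit 3) (.nd (nat_lit 4) (.nd (nat_lit 5) 
(.lf (nat_lit 31105) (.g (nat_lit 1610) (.e (nat_lit 1201) (nat_lit 88) (.e (nat_lit 65583) (nat_lit 7) (.e (nat_lit 319530) (nat_lit 16) (.e (nat_lit 286755) (nat_lit 10) (.e (nat_lit 344097) (nat_lit 18) (.e (nat_lit 5195) (nat_lit 294) (.e (nat_lit 57367) (nat_lit 1) (.e (nat_lit 57829) (nat_lit 250) .nil)))))))) (.g (nat_lit 4) .nil .nil))) 
(.lf (nat_lit 31137) (.g (nat_lit 2383) (.e (nat_lit 1201) (nat_lit 88) (.e (nat_lit 65583) (nat_lit 7) (.e (nat_lit 319530) (nat_lit 16) (.e (nat_lit 286767) (nat_lit 27) (.e (nat_lit 426107) (nat_lit 1) (.e (nat_lit 164325) (nat_lit 230) (.e (nat_lit 163861) (nat_lit 1) (.e (nat_lit 164383) (nat_lit 254) .nil)))))))) (.g (nat_lit 5) .nil .nil)))) (.nd (nat_lit 5) 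
(.lf (nat_lit 31121) (.g (nat_lit 3622) (.e (nat_lit 1201) (nat_lit 88) (.e (nat_lit 65583) (nat_lit 7) (.e (nat_lit 319530) (nat_lit 16) (.e (nat_lit 286756) (nat_lit 10) (.e (nat_lit 344097) (nat_lit 18) (.e (nat_lit 5195) (nat_lit 294) (.e (nat_lit 57368) (nat_lit 1) (.e (nat_lit 57829) (nat_lit 250) .nil)))))))) (.g (nat_lit 0) .nil .nil))) 
(.lf (nat_lit 31153) (.g (nat_lit 3163) (.e (nat_lit 1201) (nat_lit 88) (.e (nat_lit 65583) (nat_lit 7) (.e (nat_lit 319533) (nat_lit 16) (.e (nat_lit 286753) (nat_lit 10) (.e (nat_lit 344160) (nat_lit 37) (.e (nat_lit 647201) (nat_lit 12) (.e (nat_lit 57351) (nat_lit 0) (.e (nat_lit 7124) (nat_lit 382) .nil)))))))) (.g (nat_lit 5) .nil .nil))))) (.nd (nat_lit 4) (.nd (nat_lit 5) 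
(.lf (nat_lit 31113) (.g (nat_lit 3436) (.e (nat_lit 1201) (nat_lit 88) (.e (nat_lit 65583) (nat_lit 7) (.e (nat_lit 319530) (nat_lit 16) (.e (nat_lit 286756) (nat_lit 10) (.e (nat_lit 344097) (nat_lit 18) (.e (nat_lit 5194) (nat_lit 294) (.e (nat_lit 57365) (nat_lit 1) (.e (nat_lit 57829) (nat_lit 250) .nil)))))))) (.g (nat_lit 0) .nil .nil))) 
(.lf (nat_lit 31145) (.g (nat_lit 2465) (.e (nat_lit 1201) (nat_lit 88) (.e (nat_lit 65583) (nat_lit 7) (.e (nat_lit 319533) (nat_lit 16) (.e (nat_lit 286753) (nat_lit 10) (.e (nat_lit 344097) (nat_lit 18) (.e (nat_lit 5195) (nat_lit 294) (.e (nat_lit 57363) (nat_lit 1) (.e (nat_lit 57830) (nat_lit 250) .nil)))))))) (.g (nat_lit 4) .nil .nil)))) (.nd (nat_lit 5) 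
(.lf (nat_lit 31129) (.g (nat_lit 2473) (.e (nat_lit 1201) (nat_lit 88) (.e (nat_lit 65583) (nat_lit 7) (.e (nat_lit 319530) (nat_lit 16) (.e (nat_lit 286759) (nat_lit 12) (.e (nat_lit 385089) (nat_lit 48) .nil))))) .nil)) 
(.lf (nat_lit 31161) (.g (nat_lit 2537) (.e (nat_lit 1201) (nat_lit 88) (.e (nat_lit 65583) (nat_lit 7) (.e (nat_lit 319534) (nat_lit 16) (.e (nat_lit 286756) (nat_lit 10) (.e (nat_lit 344097) (nat_lit 18) .nil))))) .nil))))) (.nd (nat_lit 3) (.nd (nat_lit 4) (.nd (nat_lit 5) 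
(.lf (nat_lit 31109) (.g (nat_lit 1587) (.e (nat_lit 1201) (nat_lit 88) (.e (nat_lit 65583) (nat_lit 7) (.e (nat_lit 319530) (nat_lit 16) (.e (nat_lit 286755) (nat_lit 10) (.e (nat_lit 344160) (nat_lit 37) (.e (nat_lit 647201) (nat_lit 12) (.e (nat_lit 57351) (nat_lit 0) (.e (nat_lit 7122) (nat_lit 382) .nil)))))))) (.g (nat_lit 4) .nil .nil))) 
(.lf (nat_lit 31141) (.g (nat_lit 3135) (.e (nat_lit 1201) (nat_lit 88) (.e (nat_lit 65583) (nat_lit 7) (.e (nat_lit 319531) (nat_lit 16) (.e (nat_lit 286749) (nat_lit 9) (.e (nat_lit 335997) (nat_lit 1) (.e (nat_lit 57848) (nat_lit 252) (.e (nat_lit 57368) (nat_lit 1) (.e (nat_lit 57830) (nat_lit 250) .nil)))))))) (.g (nat_lit 4) .nil .nil)))) (.nd (nat_lit 5) 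
(.lf (nat_lit 31125) (.g (nat_lit 2509) (.e (nat_lit 1201) (nat_lit 88) (.e (nat_lit 65583) (nat_lit 7) (.e (nat_lit 319530) (nat_lit 16) (.e (nat_lit 286757) (nat_lit 11) (.e (nat_lit 368662) (nat_lit 18) (.e (nat_lit 5195) (nat_lit 294) (.e (nat_lit 57365) (nat_lit 1) (.e (nat_lit 57829) (nat_lit 250) .nil)))))))) (.g (nat_lit 6) .nil .nil))) 
(.lf (nat_lit 31157) (.g (nat_lit 3188) (.e (nat_lit 1201) (nat_lit 88) (.e (nat_lit 65583) (nat_lit 7) (.e (nat_lit 319534) (nat_lit 16) (.e (nat_lit 286749) (nat_lit 9) (.e (nat_lit 335997) (nat_lit 1) (.e (nat_lit 57848) (nat_lit 252) (.e (nat_lit 57365) (nat_lit 1) (.e (nat_lit 57830) (nat_lit 250) .nil)))))))) (.g (nat_lit 6) .nil .nil))))) (.nd (nat_lit 4) (.nd (nat_lit 5) 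
(.lf (nat_lit 31117) (.g (nat_lit 2592) (.e (nat_lit 1201) (nat_lit 88) (.e (nat_lit 65583) (nat_lit 7) (.e (nat_lit 319530) (nat_lit 16) (.e (nat_lit 286756) (nat_lit 10) (.e (nat_lit 344097) (nat_lit 18) (.e (nat_lit 5195) (nat_lit 294) (.e (nat_lit 57363) (nat_lit 1) (.e (nat_lit 57830) (nat_lit 250) .nil)))))))) (.g (nat_lit 6) .nil .nil))) 
(.lf (nat_lit 31149) (.g (nat_lit 3498) (.e (nat_lit 1201) (nat_lit 88) (.e (nat_lit 65583) (nat_lit 7) (.e (nat_lit 319533) (nat_lit 16) (.e (nat_lit 286753) (nat_lit 10) (.e (nat_lit 344097) (nat_lit 18) (.e (nat_lit 5195) (nat_lit 294) (.e (nat_lit 57368) (nat_lit 1) (.e (nat_lit 57829) (nat_lit 250) .nil)))))))) (.g (nat_lit 7) .nil .nil)))) (.nd (nat_lit 5) 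
(.lf (nat_lit 31133) (.g (nat_lit 1937) (.e (nat_lit 1201) (nat_lit 88) (.e (nat_lit 65583) (nat_lit 7) (.e (nat_lit 319530) (nat_lit 16) (.e (nat_lit 286763) (nat_lit 15) (.e (nat_lit 7098) (nat_lit 380) (.e (nat_lit 164269) (nat_lit 221) (.e (nat_lit 2542) (nat_lit 158) (.e (nat_lit 8433) (nat_lit 138) .nil)))))))) (.g (nat_lit 4) .nil .nil))) 
(.lf (nat_lit 31165) (.g (nat_lit 3591) (.e (nat_lit 1201) (nat_lit 88) (.e (nat_lit 65583) (nat_lit 7) (.e (nat_lit 319534) (nat_lit 16) (.e (nat_lit 286756) (nat_lit 10) (.e (nat_lit 344097) (nat_lit 18) (.e (nat_lit 5194) (nat_lit 294) (.e (nat_lit 57368) (nat_lit 1) (.e (nat_lit 57830) (nat_lit 250) .nil)))))))) (.g (nat_lit 6) .nil .nil))))))) 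
(.nd (nat_lit 2) (.nd (nat_lit 3) (.nd (nat_lit 4) (.nd (nat_lit 5) 
(.lf (nat_lit 31107) (.g (nat_lit 3155) (.e (nat_lit 1201) (nat_lit 88) (.e (nat_lit 65583) (nat_lit 7) (.e (nat_lit 319530) (nat_lit 16) (.e (nat_lit 286755) (nat_lit 10) (.e (nat_lit 344097) (nat_lit 18) (.e (nat_lit 5195) (nat_lit 294) (.e (nat_lit 57368) (nat_lit 1) (.e (nat_lit 57830) (nat_lit 250) .nil)))))))) (.g (nat_lit 7) .nil .nil))) 
(.lf (nat_lit 31139) (.g (nat_lit 2370) (.e (nat_lit 1201) (nat_lit 88) (.e (nat_lit 65583) (nat_lit 7) (.e (nat_lit 319530) (nat_lit 16) (.e (nat_lit 286767) (nat_lit 27) (.e (nat_lit 426107) (nat_lit 1) (.e (nat_lit 164326) (nat_lit 230) (.e (nat_lit 163864) (nat_lit 1) (.e (nat_lit 164383) (nat_lit 254) .nil)))))))) (.g (nat_lit 5) .nil .nil)))) (.nd (nat_lit 5) 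
(.lf (nat_lit 31123) (.g (nat_lit 1760) (.e (nat_lit 1201) (nat_lit 88) (.e (nat_lit 65583) (nat_lit 7) (.e (nat_lit 319530) (nat_lit 16) (.e (nat_lit 286756) (nat_lit 10) (.e (nat_lit 344160) (nat_lit 37) (.e (nat_lit 647200) (nat_lit 12) (.e (nat_lit 57348) (nat_lit 0) (.e (nat_lit 7124) (nat_lit 382) .nil)))))))) (.g (nat_lit 4) .nil .nil))) 
(.lf (nat_lit 31155) (.g (nat_lit 2716) (.e (nat_lit 1201) (nat_lit 88) (.e (nat_lit 65583) (nat_lit 7) (.e (nat_lit 319534) (nat_lit 16) (.e (nat_lit 286749) (nat_lit 9) (.e (nat_lit 335997) (nat_lit 1) (.e (nat_lit 57847) (nat_lit 252) (.e (nat_lit 57365) (nat_lit 1) (.e (nat_lit 57830) (nat_lit 250) .nil)))))))) (.g (nat_lit 4) .nil .nil))))) (.nd (nat_lit 4) (.nd (nat_lit 5) 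
(.lf (nat_lit 31115) (.g (nat_lit 3424) (.e (nat_lit 1201) (nat_lit 88) (.e (nat_lit 65583) (nat_lit 7) (.e (nat_lit 319530) (nat_lit 16) (.e (nat_lit 286756) (nat_lit 10) (.e (nat_lit 344097) (nat_lit 18) (.e (nat_lit 5194) (nat_lit 294) (.e (nat_lit 57368) (nat_lit 1) (.e (nat_lit 57829) (nat_lit 250) .nil)))))))) (.g (nat_lit 0) .nil .nil))) 
(.lf (nat_lit 31147) (.g (nat_lit 3806) (.e (nat_lit 1201) (nat_lit 88) (.e (nat_lit 65583) (nat_lit 7) (.e (nat_lit 319533) (nat_lit 16) (.e (nat_lit 286753) (nat_lit 10) (.e (nat_lit 344097) (nat_lit 18) (.e (nat_lit 5195) (nat_lit 294) (.e (nat_lit 57365) (nat_lit 1) (.e (nat_lit 57830) (nat_lit 250) .nil)))))))) (.g (nat_lit 7) .nil .nil)))) (.nd (nat_lit 5) 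
(.lf (nat_lit 31131) (.g (nat_lit 2743) (.e (nat_lit 1201) (nat_lit 88) (.e (nat_lit 65583) (nat_lit 7) (.e (nat_lit 319530) (nat_lit 16) (.e (nat_lit 286759) (nat_lit 12) (.e (nat_lit 385107) (nat_lit 51) (.e (nat_lit 802560) (nat_lit 1) (.e (nat_lit 57829) (nat_lit 250) .nil))))))) (.g (nat_lit 5) .nil .nil))) 
(.lf (nat_lit 31163) (.g (nat_lit 3372) (.e (nat_lit 1201) (nat_lit 88) (.e (nat_lit 65583) (nat_lit 7) (.e (nat_lit 319534) (nat_lit 16) (.e (nat_lit 286756) (nat_lit 10) (.e (nat_lit 344097) (nat_lit 18) (.e (nat_lit 5194) (nat_lit 294) (.e (nat_lit 57365) (nat_lit 1) (.e (nat_lit 57830) (nat_lit 250) .nil)))))))) (.g (nat_lit 6) .nil .nil)))))) 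
(.nd (nat_lit 3) (.nd (nat_lit 4) (.nd (nat_lit 5) 
(.lf (nat_lit 31111) (.g (nat_lit 1928) (.e (nat_lit 1201) (nat_lit 88) (.e (nat_lit 65583) (nat_lit 7) (.e (nat_lit 319530) (nat_lit 16) (.e (nat_lit 286755) (nat_lit 10) (.e (nat_lit 344161) (nat_lit 37) (.e (nat_lit 647201) (nat_lit 12) (.e (nat_lit 57351) (nat_lit 0) (.e (nat_lit 7122) (nat_lit 382) .nil)))))))) (.g (nat_lit 5) .nil .nil))) 
(.lf (nat_lit 31143) (.g (nat_lit 3373) (.e (nat_lit 1201) (nat_lit 88) (.e (nat_lit 65583) (nat_lit 7) (.e (nat_lit 319533) (nat_lit 16) (.e (nat_lit 286753) (nat_lit 10) (.e (nat_lit 344097) (nat_lit 18) (.e (nat_lit 5194) (nat_lit 294) (.e (nat_lit 57365) (nat_lit 1) (.e (nat_lit 57829) (nat_lit 250) .nil)))))))) (.g (nat_lit 6) .nil .nil)))) (.nd (nat_lit 5) 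
(.lf (nat_lit 31127) (.g (nat_lit 2273) (.e (nat_lit 1201) (nat_lit 88) (.e (nat_lit 65583) (nat_lit 7) (.e (nat_lit 319530) (nat_lit 16) (.e (nat_lit 286757) (nat_lit 11) (.e (nat_lit 368662) (nat_lit 18) (.e (nat_lit 5195) (nat_lit 294) (.e (nat_lit 57368) (nat_lit 1) (.e (nat_lit 57829) (nat_lit 250) .nil)))))))) (.g (nat_lit 5) .nil .nil))) 
(.lf (nat_lit 31159) (.g (nat_lit 2550) (.e (nat_lit 1201) (nat_lit 88) (.e (nat_lit 65583) (nat_lit 7) (.e (nat_lit 319534) (nat_lit 16) (.e (nat_lit 286749) (nat_lit 9) (.e (nat_lit 335997) (nat_lit 1) (.e (nat_lit 57854) (nat_lit 252) (.e (nat_lit 57364) (nat_lit 1) (.e (nat_lit 57830) (nat_lit 250) .nil)))))))) (.g (nat_lit 4) .nil .nil))))) (.nd (nat_lit 4) (.nd (nat_lit 5) 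
(.lf (nat_lit 31119) (.g (nat_lit 2417) (.e (nat_lit 1201) (nat_lit 88) (.e (nat_lit 65583) (nat_lit 7) (.e (nat_lit 319530) (nat_lit 16) (.e (nat_lit 286756) (nat_lit 10) (.e (nat_lit 344097) (nat_lit 18) (.e (nat_lit 5195) (nat_lit 294) (.e (nat_lit 57367) (nat_lit 1) (.e (nat_lit 57829) (nat_lit 250) .nil)))))))) (.g (nat_lit 5) .nil .nil))) 
(.lf (nat_lit 31151) (.g (nat_lit 2356) (.e (nat_lit 1201) (nat_lit 88) (.e (nat_lit 65583) (nat_lit 7) (.e (nat_lit 319533) (nat_lit 16) (.e (nat_lit 286753) (nat_lit 10) (.e (nat_lit 344160) (nat_lit 37) (.e (nat_lit 647200) (nat_lit 12) (.e (nat_lit 57347) (nat_lit 0) (.e (nat_lit 7125) (nat_lit 382) .nil)))))))) (.g (nat_lit 4) .nil .nil)))) (.nd (nat_lit 5) 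
(.lf (nat_lit 31135) (.g (nat_lit 2267) (.e (nat_lit 1201) (nat_lit 88) (.e (nat_lit 65583) (nat_lit 7) (.e (nat_lit 319530) (nat_lit 16) (.e (nat_lit 286767) (nat_lit 27) (.e (nat_lit 426098) (nat_lit 1) (.e (nat_lit 164325) (nat_lit 230) (.e (nat_lit 163861) (nat_lit 1) (.e (nat_lit 164379) (nat_lit 254) .nil)))))))) (.g (nat_lit 5) .nil .nil))) 
(.lf (nat_lit 31167) (.g (nat_lit 3812) (.e (nat_lit 1201) (nat_lit 88) (.e (nat_lit 65583) (nat_lit 7) (.e (nat_lit 319534) (nat_lit 16) (.e (nat_lit 286756) (nat_lit 10) (.e (nat_lit 344097) (nat_lit 18) (.e (nat_lit 5195) (nat_lit 294) (.e (nat_lit 57365) (nat_lit 1) (.e (nat_lit 57830) (nat_lit 250) .nil)))))))) (.g (nat_lit 6) .nil .nil)))))))))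

noncomputable def tv435 : DT := (.nd (nat_lit 0) (.nd (nat_lit 1) (.nd (nat_lit 2) (.nd (nat_lit 3) (.nd (nat_lit 4) (.nd (nat_lit 5) 
(.lf (nat_lit 31168) (.g (nat_lit 3492) (.e (nat_lit 1201) (nat_lit 88) (.e (nat_lit 65583) (nat_lit 7) (.e (nat_lit 319534) (nat_lit 16) (.e (nat_lit 286756) (nat_lit 10) (.e (nat_lit 344097) (nat_lit 18) (.e (nat_lit 5195) (nat_lit 294) (.e (nat_lit 57368) (nat_lit 1) (.e (nat_lit 57829) (nat_lit 250) .nil)))))))) (.g (nat_lit 6) .nil .nil))) 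
(.lf (nat_lit 31200) (.g (nat_lit 3397) (.e (nat_lit 1201) (nat_lit 88) (.e (nat_lit 65586) (nat_lit 7) (.e (nat_lit 319531) (nat_lit 16) (.e (nat_lit 286742) (nat_lit 9) (.e (nat_lit 335985) (nat_lit 1) (.e (nat_lit 57849) (nat_lit 252) (.e (nat_lit 57365) (nat_lit 1) (.e (nat_lit 57830) (nat_lit 250) .nil)))))))) (.g (nat_lit 6) .nil .nil)))) (.nd (nat_lit 5) 
(.lf (nat_lit 31184) (.g (nat_lit 3317) (.e (nat_lit 1201) (nat_lit 88) (.e (nat_lit 65585) (nat_lit 7) (.e (nat_lit 319534) (nat_lit 16) (.e (nat_lit 286749) (nat_lit 9) (.e (nat_lit 335997) (nat_lit 1) (.e (nat_lit 57848) (nat_lit 252) (.e (nat_lit 57368) (nat_lit 1) (.e (nat_lit 57829) (nat_lit 250) .nil)))))))) (.g (nat_lit 7) .nil .nil))) 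
(.lf (nat_lit 31216) (.g (nat_lit 3833) (.e (nat_lit 1201) (nat_lit 88) (.e (nat_lit 65586) (nat_lit 7) (.e (nat_lit 319531) (nat_lit 16) (.e (nat_lit 286742) (nat_lit 9) (.e (nat_lit 335997) (nat_lit 1) (.e (nat_lit 57848) (nat_lit 252) (.e (nat_lit 57368) (nat_lit 1) (.e (nat_lit 57829) (nat_lit 250) .nil)))))))) (.g (nat_lit 8) .nil .nil))))) (.nd (nat_lit 4) (.nd (nat_lit 5) 
(.lf (nat_lit 31176) (.g (nat_lit 2608) (.e (nat_lit 1201) (nat_lit 88) (.e (nat_lit 65585) (nat_lit 7) (.e (nat_lit 319533) (nat_lit 16) (.e (nat_lit 286753) (nat_lit 10) (.e (nat_lit 344097) (nat_lit 18) (.e (nat_lit 5194) (nat_lit 294) (.e (nat_lit 57368) (nat_lit 1) (.e (nat_lit 57829) (nat_lit 250) .nil)))))))) (.g (nat_lit 6) .nil .nil))) 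
(.lf (nat_lit 31208) (.g (nat_lit 2110) (.e (nat_lit 1201) (nat_lit 88) (.e (nat_lit 65586) (nat_lit 7) (.e (nat_lit 319531) (nat_lit 16) (.e (nat_lit 286742) (nat_lit 9) (.e (nat_lit 335991) (nat_lit 1) (.e (nat_lit 57849) (nat_lit 252) (.e (nat_lit 57368) (nat_lit 1) (.e (nat_lit 57830) (nat_lit 250) .nil)))))))) (.g (nat_lit 4) .nil .nil)))) (.nd (nat_lit 5) 
(.lf (nat_lit 31192) (.g (nat_lit 3291) (.e (nat_lit 1201) (nat_lit 88) (.e (nat_lit 65585) (nat_lit 7) (.e (nat_lit 319534) (nat_lit 16) (.e (nat_lit 286756) (nat_lit 10) (.e (nat_lit 344097) (nat_lit 18) (.e (nat_lit 5195) (nat_lit 294) (.e (nat_lit 57368) (nat_lit 1) (.e (nat_lit 57829) (nat_lit 250) .nil)))))))) (.g (nat_lit 6) .nil .nil))) 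
(.lf (nat_lit 31224) (.g (nat_lit 2995) (.e (nat_lit 1201) (nat_lit 88) (.e (nat_lit 65586) (nat_lit 7) (.e (nat_lit 319531) (nat_lit 16) (.e (nat_lit 286743) (nat_lit 9) (.e (nat_lit 336337) (nat_lit 20) (.e (nat_lit 229120) (nat_lit 1) (.e (nat_lit 57829) (nat_lit 250) .nil))))))) (.g (nat_lit 5) .nil .nil)))))) (.nd (nat_lit 3) (.nd (nat_lit 4) (.nd (nat_lit 5) 
(.lf (nat_lit 31172) (.g (nat_lit 963) (.e (nat_lit 1201) (nat_lit 88) (.e (nat_lit 65583) (nat_lit 7) (.e (nat_lit 319538) (nat_lit 19) (.e (nat_lit 319232) (nat_lit 30) .nil)))) .nil)) 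
(.lf (nat_lit 31204) (.g (nat_lit 3231) (.e (nat_lit 1201) (nat_lit 88) (.e (nat_lit 65586) (nat_lit 7) (.e (nat_lit 319531) (nat_lit 16) (.e (nat_lit 286742) (nat_lit 9) (.e (nat_lit 335989) (nat_lit 1) (.e (nat_lit 57847) (nat_lit 252) (.e (nat_lit 57365) (nat_lit 1) (.e (nat_lit 57829) (nat_lit 250) .nil)))))))) (.g (nat_lit 6) .nil .nil)))) (.nd (nat_lit 5) 
(.lf (nat_lit 31188) (.g (nat_lit 2285) (.e (nat_lit 1201) (nat_lit 88) (.e (nat_lit 65585) (nat_lit 7) (.e (nat_lit 319534) (nat_lit 16) (.e (nat_lit 286756) (nat_lit 10) (.e (nat_lit 344097) (nat_lit 18) (.e (nat_lit 5195) (nat_lit 294) (.e (nat_lit 57363) (nat_lit 1) (.e (nat_lit 57830) (nat_lit 250) .nil)))))))) (.g (nat_lit 4) .nil .nil))) 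
(.lf (nat_lit 31220) (.g (nat_lit 3800) (.e (nat_lit 1201) (nat_lit 88) (.e (nat_lit 65586) (nat_lit 7) (.e (nat_lit 319531) (nat_lit 16) (.e (nat_lit 286743) (nat_lit 9) (.e (nat_lit 336000) (nat_lit 1) (.e (nat_lit 57849) (nat_lit 252) (.e (nat_lit 57365) (nat_lit 1) (.e (nat_lit 57829) (nat_lit 250) .nil)))))))) (.g (nat_lit 6) .nil .nil))))) (.nd (nat_lit 4) (.nd (nat_lit 5) 
(.lf (nat_lit 31180) (.g (nat_lit 1811) (.e (nat_lit 1201) (nat_lit 88) (.e (nat_lit 65585) (nat_lit 7) (.e (nat_lit 319533) (nat_lit 16) (.e (nat_lit 286753) (nat_lit 10) (.e (nat_lit 344097) (nat_lit 18) (.e (nat_lit 5195) (nat_lit 294) (.e (nat_lit 57366) (nat_lit 1) (.e (nat_lit 57830) (nat_lit 250) .nil)))))))) (.g (nat_lit 4) .nil .nil))) 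
(.lf (nat_lit 31212) (.g (nat_lit 2196) (.e (nat_lit 1201) (nat_lit 88) (.e (nat_lit 65586) (nat_lit 7) (.e (nat_lit 319531) (nat_lit 16) (.e (nat_lit 286742) (nat_lit 9) (.e (nat_lit 335992) (nat_lit 1) (.e (nat_lit 57849) (nat_lit 252) (.e (nat_lit 57368) (nat_lit 1) (.e (nat_lit 57830) (nat_lit 250) .nil)))))))) (.g (nat_lit 4) .nil .nil)))) (.nd (nat_lit 5) 
(.lf (nat_lit 31196) (.g (nat_lit 2546) (.e (nat_lit 1201) (nat_lit 88) (.e (nat_lit 65586) (nat_lit 7) (.e (nat_lit 319505) (nat_lit 10) (.e (nat_lit 618) (nat_lit 48) (.e (nat_lit 557098) (nat_lit 13) (.e (nat_lit 172115) (nat_lit 10) (.e (nat_lit 434202) (nat_lit 18) (.e (nat_lit 6740) (nat_lit 365) .nil)))))))) (.g (nat_lit 4) .nil .nil))) 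
(.lf (nat_lit 31228) (.g (nat_lit 3692) (.e (nat_lit 1201) (nat_lit 88) (.e (nat_lit 65586) (nat_lit 7) (.e (nat_lit 319531) (nat_lit 16) (.e (nat_lit 286745) (nat_lit 9) (.e (nat_lit 335985) (nat_lit 1) (.e (nat_lit 57847) (nat_lit 252) (.e (nat_lit 57365) (nat_lit 1) (.e (nat_lit 57830) (nat_lit 250) .nil)))))))) (.g (nat_lit 6) .nil .nil))))))) 
(.nd (nat_lit 2) (.nd (nat_lit 3) (.nd (nat_lit 4) (.nd (nat_lit 5) 
(.lf (nat_lit 31170) (.g (nat_lit 2758) (.e (nat_lit 1201) (nat_lit 88) (.e (nat_lit 65583) (nat_lit 7) (.e (nat_lit 319534) (nat_lit 16) (.e (nat_lit 286756) (nat_lit 10) (.e (nat_lit 344160) (nat_lit 37) (.e (nat_lit 647201) (nat_lit 12) (.e (nat_lit 57351) (nat_lit 0) (.e (nat_lit 7124) (nat_lit 382) .nil)))))))) (.g (nat_lit 4) .nil .nil))) 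
(.lf (nat_lit 31202) (.g (nat_lit 2999) (.e (nat_lit 1201) (nat_lit 88) (.e (nat_lit 65586) (nat_lit 7) (.e (nat_lit 319531) (nat_lit 16) (.e (nat_lit 286742) (nat_lit 9) (.e (nat_lit 335985) (nat_lit 1) (.e (nat_lit 57854) (nat_lit 252) (.e (nat_lit 57364) (nat_lit 1) (.e (nat_lit 57830) (nat_lit 250) .nil)))))))) (.g (nat_lit 6) .nil .nil)))) (.nd (nat_lit 5) 
(.lf (nat_lit 31186) (.g (nat_lit 3285) (.e (nat_lit 1201) (nat_lit 88) (.e (nat_lit 65585) (nat_lit 7) (.e (nat_lit 319534) (nat_lit 16) (.e (nat_lit 286756) (nat_lit 10) (.e (nat_lit 344097) (nat_lit 18) (.e (nat_lit 5194) (nat_lit 294) (.e (nat_lit 57365) (nat_lit 1) (.e (nat_lit 57830) (nat_lit 250) .nil)))))))) (.g (nat_lit 6) .nil .nil))) 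
(.lf (nat_lit 31218) (.g (nat_lit 2128) (.e (nat_lit 1201) (nat_lit 88) (.e (nat_lit 65586) (nat_lit 7) (.e (nat_lit 319531) (nat_lit 16) (.e (nat_lit 286742) (nat_lit 9) (.e (nat_lit 335997) (nat_lit 1) (.e (nat_lit 57853) (nat_lit 252) (.e (nat_lit 57364) (nat_lit 1) (.e (nat_lit 57830) (nat_lit 250) .nil)))))))) (.g (nat_lit 4) .nil .nil))))) (.nd (nat_lit 4) (.nd (nat_lit 5) 
(.lf (nat_lit 31178) (.g (nat_lit 2973) (.e (nat_lit 1201) (nat_lit 88) (.e (nat_lit 65585) (nat_lit 7) (.e (nat_lit 319533) (nat_lit 16) (.e (nat_lit 286753) (nat_lit 10) (.e (nat_lit 344097) (nat_lit 18) (.e (nat_lit 5195) (nat_lit 294) (.e (nat_lit 57365) (nat_lit 1) (.e (nat_lit 57829) (nat_lit 250) .nil)))))))) (.g (nat_lit 6) .nil .nil))) 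
(.lf (nat_lit 31210) (.g (nat_lit 3412) (.e (nat_lit 1201) (nat_lit 88) (.e (nat_lit 65586) (nat_lit 7) (.e (nat_lit 319531) (nat_lit 16) (.e (nat_lit 286742) (nat_lit 9) (.e (nat_lit 335992) (nat_lit 1) (.e (nat_lit 57847) (nat_lit 252) (.e (nat_lit 57365) (nat_lit 1) (.e (nat_lit 57830) (nat_lit 250) .nil)))))))) (.g (nat_lit 6) .nil .nil)))) (.nd (nat_lit 5) 
(.lf (nat_lit 31194) (.g (nat_lit 2455) (.e (nat_lit 1201) (nat_lit 88) (.e (nat_lit 65585) (nat_lit 7) (.e (nat_lit 319534) (nat_lit 16) (.e (nat_lit 286756) (nat_lit 10) (.e (nat_lit 344160) (nat_lit 37) (.e (nat_lit 647201) (nat_lit 12) (.e (nat_lit 57351) (nat_lit 0) (.e (nat_lit 7124) (nat_lit 382) .nil)))))))) (.g (nat_lit 4) .nil .nil))) 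
(.lf (nat_lit 31226) (.g (nat_lit 2672) (.e (nat_lit 1201) (nat_lit 88) (.e (nat_lit 65586) (nat_lit 7) (.e (nat_lit 319531) (nat_lit 16) (.e (nat_lit 286744) (nat_lit 9) (.e (nat_lit 335992) (nat_lit 1) (.e (nat_lit 57847) (nat_lit 252) (.e (nat_lit 57365) (nat_lit 1) (.e (nat_lit 57829) (nat_lit 250) .nil)))))))) (.g (nat_lit 5) .nil .nil)))))) (.nd (nat_lit 3) (.nd (nat_lit 4) (.nd (nat_lit 5) 
(.lf (nat_lit 31174) (.g (nat_lit 1610) (.e (nat_lit 1201) (nat_lit 88) (.e (nat_lit 65585) (nat_lit 7) (.e (nat_lit 319533) (nat_lit 16) (.e (nat_lit 286753) (nat_lit 10) (.e (nat_lit 344097) (nat_lit 18) (.e (nat_lit 5194) (nat_lit 294) (.e (nat_lit 57364) (nat_lit 1) (.e (nat_lit 57830) (nat_lit 250) .nil)))))))) (.g (nat_lit 4) .nil .nil))) 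
(.lf (nat_lit 31206) (.g (nat_lit 2134) (.e (nat_lit 1201) (nat_lit 88) (.e (nat_lit 65586) (nat_lit 7) (.e (nat_lit 319531) (nat_lit 16) (.e (nat_lit 286742) (nat_lit 9) (.e (nat_lit 335989) (nat_lit 1) (.e (nat_lit 57847) (nat_lit 252) (.e (nat_lit 57366) (nat_lit 1) (.e (nat_lit 57830) (nat_lit 250) .nil)))))))) (.g (nat_lit 4) .nil .nil)))) (.nd (nat_lit 5) 
(.lf (nat_lit 31190) (.g (nat_lit 3725) (.e (nat_lit 1201) (nat_lit 88) (.e (nat_lit 65585) (nat_lit 7) (.e (nat_lit 319534) (nat_lit 16) (.e (nat_lit 286756) (nat_lit 10) (.e (nat_lit 344097) (nat_lit 18) (.e (nat_lit 5195) (nat_lit 294) (.e (nat_lit 57365) (nat_lit 1) (.e (nat_lit 57830) (nat_lit 250) .nil)))))))) (.g (nat_lit 6) .nil .nil))) 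
(.lf (nat_lit 31222) (.g (nat_lit 3710) (.e (nat_lit 1201) (nat_lit 88) (.e (nat_lit 65586) (nat_lit 7) (.e (nat_lit 319531) (nat_lit 16) (.e (nat_lit 286743) (nat_lit 9) (.e (nat_lit 336000) (nat_lit 1) (.e (nat_lit 57849) (nat_lit 252) (.e (nat_lit 57368) (nat_lit 1) (.e (nat_lit 57830) (nat_lit 250) .nil)))))))) (.g (nat_lit 6) .nil .nil))))) (.nd (nat_lit 4) (.nd (nat_lit 5) 
(.lf (nat_lit 31182) (.g (nat_lit 2454) (.e (nat_lit 1201) (nat_lit 88) (.e (nat_lit 65585) (nat_lit 7) (.e (nat_lit 319533) (nat_lit 16) (.e (nat_lit 286753) (nat_lit 10) (.e (nat_lit 344160) (nat_lit 37) (.e (nat_lit 647201) (nat_lit 12) (.e (nat_lit 57351) (nat_lit 0) (.e (nat_lit 7124) (nat_lit 382) .nil)))))))) (.g (nat_lit 5) .nil .nil))) 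
(.lf (nat_lit 31214) (.g (nat_lit 2934) (.e (nat_lit 1201) (nat_lit 88) (.e (nat_lit 65586) (nat_lit 7) (.e (nat_lit 319531) (nat_lit 16) (.e (nat_lit 286742) (nat_lit 9) (.e (nat_lit 335997) (nat_lit 1) (.e (nat_lit 57846) (nat_lit 252) (.e (nat_lit 57365) (nat_lit 1) (.e (nat_lit 57830) (nat_lit 250) .nil)))))))) (.g (nat_lit 5) .nil .nil)))) (.nd (nat_lit 5) 
(.lf (nat_lit 31198) (.g (nat_lit 3455) (.e (nat_lit 1201) (nat_lit 88) (.e (nat_lit 65586) (nat_lit 7) (.e (nat_lit 319531) (nat_lit 16) (.e (nat_lit 286742) (nat_lit 9) (.e (nat_lit 335985) (nat_lit 1) (.e (nat_lit 57847) (nat_lit 252) (.e (nat_lit 57365) (nat_lit 1) (.e (nat_lit 57830) (nat_lit 250) .nil)))))))) (.g (nat_lit 6) .nil .nil))) 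
(.lf (nat_lit 31230) (.g (nat_lit 3634) (.e (nat_lit 1201) (nat_lit 88) (.e (nat_lit 65586) (nat_lit 7) (.e (nat_lit 319531) (nat_lit 16) (.e (nat_lit 286745) (nat_lit 9) (.e (nat_lit 335985) (nat_lit 1) (.e (nat_lit 57849) (nat_lit 252) (.e (nat_lit 57365) (nat_lit 1) (.e (nat_lit 57830) (nat_lit 250) .nil)))))))) (.g (nat_lit 6) .nil .nil)))))))) 
(.nd (nat_lit 1) (.nd (nat_lit 2) (.nd (nat_lit 3) (.nd (nat_lit 4) (.nd (nat_lit 5) 
(.lf (nat_lit 31169) (.g (nat_lit 2724) (.e (nat_lit 1201) (nat_lit 88) (.e (nat_lit 65583) (nat_lit 7) (.e (nat_lit 319534) (nat_lit 16) (.e (nat_lit 286756) (nat_lit 10) (.e (nat_lit 344160) (nat_lit 37) .nil))))) .nil)) 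
(.lf (nat_lit 31201) (.g (nat_lit 2961) (.e (nat_lit 1201) (nat_lit 88) (.e (nat_lit 65586) (nat_lit 7) (.e (nat_lit 319531) (nat_lit 16) (.e (nat_lit 286742) (nat_lit 9) (.e (nat_lit 335985) (nat_lit 1) (.e (nat_lit 57851) (nat_lit 252) (.e (nat_lit 57364) (nat_lit 1) (.e (nat_lit 57830) (nat_lit 250) .nil)))))))) (.g (nat_lit 6) .nil .nil)))) (.nd (nat_lit 5) 
(.lf (nat_lit 31185) (.g (nat_lit 3065) (.e (nat_lit 1201) (nat_lit 88) (.e (nat_lit 65585) (nat_lit 7) (.e (nat_lit 319534) (nat_lit 16) (.e (nat_lit 286756) (nat_lit 10) (.e (nat_lit 344097) (nat_lit 18) (.e (nat_lit 5194) (nat_lit 294) (.e (nat_lit 57365) (nat_lit 1) (.e (nat_lit 57829) (nat_lit 250) .nil)))))))) (.g (nat_lit 6) .nil .nil))) 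
(.lf (nat_lit 31217) (.g (nat_lit 2169) (.e (nat_lit 1201) (nat_lit 88) (.e (nat_lit 65586) (nat_lit 7) (.e (nat_lit 319531) (nat_lit 16) (.e (nat_lit 286742) (nat_lit 9) (.e (nat_lit 335997) (nat_lit 1) (.e (nat_lit 57849) (nat_lit 252) (.e (nat_lit 57365) (nat_lit 1) (.e (nat_lit 57829) (nat_lit 250) .nil)))))))) (.g (nat_lit 4) .nil .nil))))) (.nd (nat_lit 4) (.nd (nat_lit 5) 
(.lf (nat_lit 31177) (.g (nat_lit 1734) (.e (nat_lit 1201) (nat_lit 88) (.e (nat_lit 65585) (nat_lit 7) (.e (nat_lit 319533) (nat_lit 16) (.e (nat_lit 286753) (nat_lit 10) (.e (nat_lit 344097) (nat_lit 18) (.e (nat_lit 5195) (nat_lit 294) (.e (nat_lit 57363) (nat_lit 1) (.e (nat_lit 57830) (nat_lit 250) .nil)))))))) (.g (nat_lit 4) .nil .nil))) 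
(.lf (nat_lit 31209) (.g (nat_lit 2471) (.e (nat_lit 1201) (nat_lit 88) (.e (nat_lit 65586) (nat_lit 7) (.e (nat_lit 319531) (nat_lit 16) (.e (nat_lit 286742) (nat_lit 9) (.e (nat_lit 335992) (nat_lit 1) (.e (nat_lit 57846) (nat_lit 252) (.e (nat_lit 57365) (nat_lit 1) (.e (nat_lit 57830) (nat_lit 250) .nil)))))))) (.g (nat_lit 5) .nil .nil)))) (.nd (nat_lit 5) 
(.lf (nat_lit 31193) (.g (nat_lit 2403) (.e (nat_lit 1201) (nat_lit 88) (.e (nat_lit 65585) (nat_lit 7) (.e (nat_lit 319534) (nat_lit 16) (.e (nat_lit 286756) (nat_lit 10) (.e (nat_lit 344160) (nat_lit 37) (.e (nat_lit 647201) (nat_lit 12) (.e (nat_lit 57351) (nat_lit 0) (.e (nat_lit 7122) (nat_lit 382) .nil)))))))) (.g (nat_lit 4) .nil .nil))) 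
(.lf (nat_lit 31225) (.g (nat_lit 2361) (.e (nat_lit 1201) (nat_lit 88) (.e (nat_lit 65586) (nat_lit 7) (.e (nat_lit 319531) (nat_lit 16) (.e (nat_lit 286744) (nat_lit 9) (.e (nat_lit 335985) (nat_lit 1) (.e (nat_lit 57847) (nat_lit 252) (.e (nat_lit 57365) (nat_lit 1) (.e (nat_lit 57830) (nat_lit 250) .nil)))))))) (.g (nat_lit 4) .nil .nil)))))) (.nd (nat_lit 3) (.nd (nat_lit 4) (.nd (nat_lit 5) 
(.lf (nat_lit 31173) (.g (nat_lit 1844) (.e (nat_lit 1201) (nat_lit 88) (.e (nat_lit 65583) (nat_lit 7) (.e (nat_lit 319539) (nat_lit 19) (.e (nat_lit 319232) (nat_lit 30) (.e (nat_lit 360457) (nat_lit 0) (.e (nat_lit 5817) (nat_lit 320) .nil)))))) (.g (nat_lit 5) .nil .nil))) 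
(.lf (nat_lit 31205) (.g (nat_lit 3780) (.e (nat_lit 1201) (nat_lit 88) (.e (nat_lit 65586) (nat_lit 7) (.e (nat_lit 319531) (nat_lit 16) (.e (nat_lit 286742) (nat_lit 9) (.e (nat_lit 335989) (nat_lit 1) (.e (nat_lit 57847) (nat_lit 252) (.e (nat_lit 57365) (nat_lit 1) (.e (nat_lit 57830) (nat_lit 250) .nil)))))))) (.g (nat_lit 7) .nil .nil)))) (.nd (nat_lit 5) 
(.lf (nat_lit 31189) (.g (nat_lit 3543) (.e (nat_lit 1201) (nat_lit 88) (.e (nat_lit 65585) (nat_lit 7) (.e (nat_lit 319534) (nat_lit 16) (.e (nat_lit 286756) (nat_lit 10) (.e (nat_lit 344097) (nat_lit 18) (.e (nat_lit 5195) (nat_lit 294) (.e (nat_lit 57365) (nat_lit 1) (.e (nat_lit 57829) (nat_lit 250) .nil)))))))) (.g (nat_lit 6) .nil .nil))) 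
(.lf (nat_lit 31221) (.g (nat_lit 4222) (.e (nat_lit 1201) (nat_lit 88) (.e (nat_lit 65586) (nat_lit 7) (.e (nat_lit 319531) (nat_lit 16) (.e (nat_lit 286743) (nat_lit 9) (.e (nat_lit 336000) (nat_lit 1) (.e (nat_lit 57849) (nat_lit 252) (.e (nat_lit 57365) (nat_lit 1) (.e (nat_lit 57830) (nat_lit 250) .nil)))))))) (.g (nat_lit 7) .nil .nil))))) (.nd (nat_lit 4) (.nd (nat_lit 5) 
(.lf (nat_lit 31181) (.g (nat_lit 2402) (.e (nat_lit 1201) (nat_lit 88) (.e (nat_lit 65585) (nat_lit 7) (.e (nat_lit 319533) (nat_lit 16) (.e (nat_lit 286753) (nat_lit 10) (.e (nat_lit 344160) (nat_lit 37) (.e (nat_lit 647201) (nat_lit 12) (.e (nat_lit 57351) (nat_lit 0) (.e (nat_lit 7122) (nat_lit 382) .nil)))))))) (.g (nat_lit 5) .nil .nil))) 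
(.lf (nat_lit 31213) (.g (nat_lit 3017) (.e (nat_lit 1201) (nat_lit 88) (.e (nat_lit 65586) (nat_lit 7) (.e (nat_lit 319531) (nat_lit 16) (.e (nat_lit 286742) (nat_lit 9) (.e (nat_lit 335992) (nat_lit 1) (.e (nat_lit 57854) (nat_lit 252) (.e (nat_lit 57366) (nat_lit 1) (.e (nat_lit 57830) (nat_lit 250) .nil)))))))) (.g (nat_lit 6) .nil .nil)))) (.nd (nat_lit 5) 
(.lf (nat_lit 31197) (.g (nat_lit 1414) (.e (nat_lit 1201) (nat_lit 88) (.e (nat_lit 65586) (nat_lit 7) (.e (nat_lit 319505) (nat_lit 10) (.e (nat_lit 720) (nat_lit 64) (.e (nat_lit 688177) (nat_lit 16) .nil))))) .nil)) 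
(.lf (nat_lit 31229) (.g (nat_lit 2331) (.e (nat_lit 1201) (nat_lit 88) (.e (nat_lit 65586) (nat_lit 7) (.e (nat_lit 319531) (nat_lit 16) (.e (nat_lit 286745) (nat_lit 9) (.e (nat_lit 335985) (nat_lit 1) (.e (nat_lit 57847) (nat_lit 252) (.e (nat_lit 57368) (nat_lit 1) (.e (nat_lit 57829) (nat_lit 250) .nil)))))))) (.g (nat_lit 4) .nil .nil))))))) 
(.nd (nat_lit 2) (.nd (nat_lit 3) (.nd (nat_lit 4) (.nd (nat_lit 5) 
(.lf (nat_lit 31171) (.g (nat_lit 3210) (.e (nat_lit 1201) (nat_lit 88) (.e (nat_lit 65583) (nat_lit 7) (.e (nat_lit 319534) (nat_lit 16) (.e (nat_lit 286756) (nat_lit 10) (.e (nat_lit 344160) (nat_lit 37) (.e (nat_lit 647201) (nat_lit 12) (.e (nat_lit 57351) (nat_lit 0) (.e (nat_lit 7125) (nat_lit 382) .nil)))))))) (.g (nat_lit 5) .nil .nil))) 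
(.lf (nat_lit 31203) (.g (nat_lit 3017) (.e (nat_lit 1201) (nat_lit 88) (.e (nat_lit 65586) (nat_lit 7) (.e (nat_lit 319531) (nat_lit 16) (.e (nat_lit 286742) (nat_lit 9) (.e (nat_lit 335985) (nat_lit 1) (.e (nat_lit 57854) (nat_lit 252) (.e (nat_lit 57366) (nat_lit 1) (.e (nat_lit 57830) (nat_lit 250) .nil)))))))) (.g (nat_lit 6) .nil .nil)))) (.nd (nat_lit 5) 
(.lf (nat_lit 31187) (.g (nat_lit 3044) (.e (nat_lit 1201) (nat_lit 88) (.e (nat_lit 65585) (nat_lit 7) (.e (nat_lit 319534) (nat_lit 16) (.e (nat_lit 286756) (nat_lit 10) (.e (nat_lit 344097) (nat_lit 18) (.e (nat_lit 5194) (nat_lit 294) (.e (nat_lit 57368) (nat_lit 1) (.e (nat_lit 57829) (nat_lit 250) .nil)))))))) (.g (nat_lit 6) .nil .nil))) 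
(.lf (nat_lit 31219) (.g (nat_lit 3077) (.e (nat_lit 1201) (nat_lit 88) (.e (nat_lit 65586) (nat_lit 7) (.e (nat_lit 319531) (nat_lit 16) (.e (nat_lit 286742) (nat_lit 9) (.e (nat_lit 335997) (nat_lit 1) (.e (nat_lit 57854) (nat_lit 252) (.e (nat_lit 57364) (nat_lit 1) (.e (nat_lit 57830) (nat_lit 250) .nil)))))))) (.g (nat_lit 5) .nil .nil))))) (.nd (nat_lit 4) (.nd (nat_lit 5) 
(.lf (nat_lit 31179) (.g (nat_lit 3155) (.e (nat_lit 1201) (nat_lit 88) (.e (nat_lit 65585) (nat_lit 7) (.e (nat_lit 319533) (nat_lit 16) (.e (nat_lit 286753) (nat_lit 10) (.e (nat_lit 344097) (nat_lit 18) (.e (nat_lit 5195) (nat_lit 294) (.e (nat_lit 57365) (nat_lit 1) (.e (nat_lit 57830) (nat_lit 250) .nil)))))))) (.g (nat_lit 7) .nil .nil))) 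
(.lf (nat_lit 31211) (.g (nat_lit 2336) (.e (nat_lit 1201) (nat_lit 88) (.e (nat_lit 65586) (nat_lit 7) (.e (nat_lit 319531) (nat_lit 16) (.e (nat_lit 286742) (nat_lit 9) (.e (nat_lit 335992) (nat_lit 1) (.e (nat_lit 57849) (nat_lit 252) (.e (nat_lit 57365) (nat_lit 1) (.e (nat_lit 57829) (nat_lit 250) .nil)))))))) (.g (nat_lit 5) .nil .nil)))) (.nd (nat_lit 5) 
(.lf (nat_lit 31195) (.g (nat_lit 2907) (.e (nat_lit 1201) (nat_lit 88) (.e (nat_lit 65585) (nat_lit 7) (.e (nat_lit 319534) (nat_lit 16) (.e (nat_lit 286756) (nat_lit 10) (.e (nat_lit 344160) (nat_lit 37) (.e (nat_lit 647201) (nat_lit 12) (.e (nat_lit 57351) (nat_lit 0) (.e (nat_lit 7125) (nat_lit 382) .nil)))))))) (.g (nat_lit 5) .nil .nil))) 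
(.lf (nat_lit 31227) (.g (nat_lit 2375) (.e (nat_lit 1201) (nat_lit 88) (.e (nat_lit 65586) (nat_lit 7) (.e (nat_lit 319531) (nat_lit 16) (.e (nat_lit 286744) (nat_lit 9) (.e (nat_lit 335992) (nat_lit 1) (.e (nat_lit 57847) (nat_lit 252) (.e (nat_lit 57368) (nat_lit 1) (.e (nat_lit 57830) (nat_lit 250) .nil)))))))) (.g (nat_lit 4) .nil .nil)))))) (.nd (nat_lit 3) (.nd (nat_lit 4) (.nd (nat_lit 5) 
(.lf (nat_lit 31175) (.g (nat_lit 2617) (.e (nat_lit 1201) (nat_lit 88) (.e (nat_lit 65585) (nat_lit 7) (.e (nat_lit 319533) (nat_lit 16) (.e (nat_lit 286753) (nat_lit 10) (.e (nat_lit 344097) (nat_lit 18) (.e (nat_lit 5194) (nat_lit 294) (.e (nat_lit 57365) (nat_lit 1) (.e (nat_lit 57829) (nat_lit 250) .nil)))))))) (.g (nat_lit 6) .nil .nil))) 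
(.lf (nat_lit 31207) (.g (nat_lit 2036) (.e (nat_lit 1201) (nat_lit 88) (.e (nat_lit 65586) (nat_lit 7) (.e (nat_lit 319531) (nat_lit 16) (.e (nat_lit 286742) (nat_lit 9) (.e (nat_lit 335991) (nat_lit 1) (.e (nat_lit 57849) (nat_lit 252) (.e (nat_lit 57365) (nat_lit 1) (.e (nat_lit 57829) (nat_lit 250) .nil)))))))) (.g (nat_lit 4) .nil .nil)))) (.nd (nat_lit 5) 
(.lf (nat_lit 31191) (.g (nat_lit 2371) (.e (nat_lit 1201) (nat_lit 88) (.e (nat_lit 65585) (nat_lit 7) (.e (nat_lit 319534) (nat_lit 16) (.e (nat_lit 286756) (nat_lit 10) (.e (nat_lit 344097) (nat_lit 18) (.e (nat_lit 5195) (nat_lit 294) (.e (nat_lit 57366) (nat_lit 1) (.e (nat_lit 57830) (nat_lit 250) .nil)))))))) (.g (nat_lit 4) .nil .nil))) 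
(.lf (nat_lit 31223) (.g (nat_lit 2596) (.e (nat_lit 1201) (nat_lit 88) (.e (nat_lit 65586) (nat_lit 7) (.e (nat_lit 319531) (nat_lit 16) (.e (nat_lit 286743) (nat_lit 9) (.e (nat_lit 336337) (nat_lit 20) (.e (nat_lit 229120) (nat_lit 1) (.e (nat_lit 57822) (nat_lit 250) .nil))))))) (.g (nat_lit 4) .nil .nil))))) (.nd (nat_lit 4) (.nd (nat_lit 5) 
(.lf (nat_lit 31183) (.g (nat_lit 3068) (.e (nat_lit 1201) (nat_lit 88) (.e (nat_lit 65585) (nat_lit 7) (.e (nat_lit 319534) (nat_lit 16) (.e (nat_lit 286749) (nat_lit 9) (.e (nat_lit 335997) (nat_lit 1) (.e (nat_lit 57848) (nat_lit 252) (.e (nat_lit 57365) (nat_lit 1) (.e (nat_lit 57829) (nat_lit 250) .nil)))))))) (.g (nat_lit 6) .nil .nil))) 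
(.lf (nat_lit 31215) (.g (nat_lit 3563) (.e (nat_lit 1201) (nat_lit 88) (.e (nat_lit 65586) (nat_lit 7) (.e (nat_lit 319531) (nat_lit 16) (.e (nat_lit 286742) (nat_lit 9) (.e (nat_lit 335997) (nat_lit 1) (.e (nat_lit 57848) (nat_lit 252) (.e (nat_lit 57365) (nat_lit 1) (.e (nat_lit 57829) (nat_lit 250) .nil)))))))) (.g (nat_lit 8) .nil .nil)))) (.nd (nat_lit 5) 
(.lf (nat_lit 31199) (.g (nat_lit 2094) (.e (nat_lit 1201) (nat_lit 88) (.e (nat_lit 65586) (nat_lit 7) (.e (nat_lit 319531) (nat_lit 16) (.e (nat_lit 286742) (nat_lit 9) (.e (nat_lit 335985) (nat_lit 1) (.e (nat_lit 57847) (nat_lit 252) (.e (nat_lit 57368) (nat_lit 1) (.e (nat_lit 57829) (nat_lit 250) .nil)))))))) (.g (nat_lit 4) .nil .nil))) 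
(.lf (nat_lit 31231) (.g (nat_lit 2705) (.e (nat_lit 1201) (nat_lit 88) (.e (nat_lit 65586) (nat_lit 7) (.e (nat_lit 319531) (nat_lit 16) (.e (nat_lit 286745) (nat_lit 9) (.e (nat_lit 335985) (nat_lit 1) (.e (nat_lit 57849) (nat_lit 252) (.e (nat_lit 57368) (nat_lit 1) (.e (nat_lit 57829) (nat_lit 250) .nil)))))))) (.g (nat_lit 5) .nil .nil)))))))))

noncomputable def tv436 : DT := (.nd (nat_lit 0) (.nd (nat_lit 1) (.nd (nat_lit 2) (.nd (nat_lit 3) (.nd (nat_lit 4) (.nd (nat_lit 5) 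
(.lf (nat_lit 31232) (.g (nat_lit 3198) (.e (nat_lit 1201) (nat_lit 88) (.e (nat_lit 65586) (nat_lit 7) (.e (nat_lit 319531) (nat_lit 16) (.e (nat_lit 286745) (nat_lit 9) (.e (nat_lit 335985) (nat_lit 1) (.e (nat_lit 57851) (nat_lit 252) (.e (nat_lit 57364) (nat_lit 1) (.e (nat_lit 57830) (nat_lit 250) .nil)))))))) (.g (nat_lit 6) .nil .nil))) 
(.lf (nat_lit 31264) (.g (nat_lit 1003) (.e (nat_lit 1201) (nat_lit 88) (.e (nat_lit 65586) (nat_lit 7) (.e (nat_lit 319531) (nat_lit 16) (.e (nat_lit 286748) (nat_lit 9) .nil)))) .nil))) (.nd (nat_lit 5) 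
(.lf (nat_lit 31248) (.g (nat_lit 3472) (.e (nat_lit 1201) (nat_lit 88) (.e (nat_lit 65586) (nat_lit 7) (.e (nat_lit 319531) (nat_lit 16) (.e (nat_lit 286745) (nat_lit 9) (.e (nat_lit 335992) (nat_lit 1) (.e (nat_lit 57854) (nat_lit 252) (.e (nat_lit 57364) (nat_lit 1) (.e (nat_lit 57830) (nat_lit 250) .nil)))))))) (.g (nat_lit 6) .nil .nil))) 
(.lf (nat_lit 31280) (.g (nat_lit 1996) (.e (nat_lit 1201) (nat_lit 88) (.e (nat_lit 65586) (nat_lit 7) (.e (nat_lit 319531) (nat_lit 16) (.e (nat_lit 286748) (nat_lit 9) (.e (nat_lit 335925) (nat_lit 0) (.e (nat_lit 1023) (nat_lit 81) (.e (nat_lit 5194) (nat_lit 294) (.e (nat_lit 57365) (nat_lit 1) (.e (nat_lit 57830) (nat_lit 250) .nil))))))))) (.g (nat_lit 4) .nil .nil))))) 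
(.nd (nat_lit 4) (.nd (nat_lit 5) 
(.lf (nat_lit 31240) (.g (nat_lit 3428) (.e (nat_lit 1201) (nat_lit 88) (.e (nat_lit 65586) (nat_lit 7) (.e (nat_lit 319531) (nat_lit 16) (.e (nat_lit 286745) (nat_lit 9) (.e (nat_lit 335990) (nat_lit 1) (.e (nat_lit 57854) (nat_lit 252) (.e (nat_lit 57364) (nat_lit 1) (.e (nat_lit 57830) (nat_lit 250) .nil)))))))) (.g (nat_lit 6) .nil .nil))) 
(.lf (nat_lit 31272) (.g (nat_lit 1983) (.e (nat_lit 1201) (nat_lit 88) (.e (nat_lit 65586) (nat_lit 7) (.e (nat_lit 319531) (nat_lit 16) (.e (nat_lit 286748) (nat_lit 9) (.e (nat_lit 335915) (nat_lit 0) (.e (nat_lit 1038) (nat_lit 81) (.e (nat_lit 5205) (nat_lit 294) (.e (nat_lit 57366) (nat_lit 1) (.e (nat_lit 57830) (nat_lit 250) .nil))))))))) (.g (nat_lit 4) .nil .nil)))) (.nd (nat_lit 5) 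
(.lf (nat_lit 31256) (.g (nat_lit 3010) (.e (nat_lit 1201) (nat_lit 88) (.e (nat_lit 65586) (nat_lit 7) (.e (nat_lit 319531) (nat_lit 16) (.e (nat_lit 286747) (nat_lit 9) (.e (nat_lit 335997) (nat_lit 1) (.e (nat_lit 57846) (nat_lit 252) (.e (nat_lit 57365) (nat_lit 1) (.e (nat_lit 57829) (nat_lit 250) .nil)))))))) (.g (nat_lit 5) .nil .nil))) 
(.lf (nat_lit 31288) (.g (nat_lit 2016) (.e (nat_lit 1201) (nat_lit 88) (.e (nat_lit 65586) (nat_lit 7) (.e (nat_lit 319531) (nat_lit 16) (.e (nat_lit 286748) (nat_lit 9) (.e (nat_lit 335985) (nat_lit 1) (.e (nat_lit 57844) (nat_lit 252) (.e (nat_lit 57364) (nat_lit 1) (.e (nat_lit 57830) (nat_lit 250) .nil)))))))) (.g (nat_lit 4) .nil .nil)))))) (.nd (nat_lit 3) (.nd (nat_lit 4) (.nd (nat_lit 5) 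
(.lf (nat_lit 31236) (.g (nat_lit 2467) (.e (nat_lit 1201) (nat_lit 88) (.e (nat_lit 65586) (nat_lit 7) (.e (nat_lit 319531) (nat_lit 16) (.e (nat_lit 286745) (nat_lit 9) (.e (nat_lit 335989) (nat_lit 1) (.e (nat_lit 57847) (nat_lit 252) (.e (nat_lit 57366) (nat_lit 1) (.e (nat_lit 57830) (nat_lit 250) .nil)))))))) (.g (nat_lit 4) .nil .nil))) 
(.lf (nat_lit 31268) (.g (nat_lit 2180) (.e (nat_lit 1201) (nat_lit 88) (.e (nat_lit 65586) (nat_lit 7) (.e (nat_lit 319531) (nat_lit 16) (.e (nat_lit 286748) (nat_lit 9) (.e (nat_lit 335915) (nat_lit 0) (.e (nat_lit 1027) (nat_lit 81) (.e (nat_lit 5205) (nat_lit 294) (.e (nat_lit 57366) (nat_lit 1) (.e (nat_lit 57830) (nat_lit 250) .nil))))))))) (.g (nat_lit 4) .nil .nil)))) (.nd (nat_lit 5) 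
(.lf (nat_lit 31252) (.g (nat_lit 2599) (.e (nat_lit 1201) (nat_lit 88) (.e (nat_lit 65586) (nat_lit 7) (.e (nat_lit 319531) (nat_lit 16) (.e (nat_lit 286747) (nat_lit 9) (.e (nat_lit 335989) (nat_lit 1) (.e (nat_lit 57854) (nat_lit 252) (.e (nat_lit 57364) (nat_lit 1) (.e (nat_lit 57830) (nat_lit 250) .nil)))))))) (.g (nat_lit 5) .nil .nil))) 
(.lf (nat_lit 31284) (.g (nat_lit 2036) (.e (nat_lit 1201) (nat_lit 88) (.e (nat_lit 65586) (nat_lit 7) (.e (nat_lit 319531) (nat_lit 16) (.e (nat_lit 286748) (nat_lit 9) (.e (nat_lit 335928) (nat_lit 0) (.e (nat_lit 1023) (nat_lit 81) (.e (nat_lit 5195) (nat_lit 294) (.e (nat_lit 57365) (nat_lit 1) (.e (nat_lit 57830) (nat_lit 250) .nil))))))))) (.g (nat_lit 4) .nil .nil))))) 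
(.nd (nat_lit 4) (.nd (nat_lit 5) 
(.lf (nat_lit 31244) (.g (nat_lit 3930) (.e (nat_lit 1201) (nat_lit 88) (.e (nat_lit 65586) (nat_lit 7) (.e (nat_lit 319531) (nat_lit 16) (.e (nat_lit 286745) (nat_lit 9) (.e (nat_lit 335992) (nat_lit 1) (.e (nat_lit 57847) (nat_lit 252) (.e (nat_lit 57365) (nat_lit 1) (.e (nat_lit 57830) (nat_lit 250) .nil)))))))) (.g (nat_lit 6) .nil .nil))) 
(.lf (nat_lit 31276) (.g (nat_lit 1981) (.e (nat_lit 1201) (nat_lit 88) (.e (nat_lit 65586) (nat_lit 7) (.e (nat_lit 319531) (nat_lit 16) (.e (nat_lit 286748) (nat_lit 9) (.e (nat_lit 335916) (nat_lit 0) .nil))))) .nil))) (.nd (nat_lit 5) 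
(.lf (nat_lit 31260) (.g (nat_lit 2151) (.e (nat_lit 1201) (nat_lit 88) (.e (nat_lit 65586) (nat_lit 7) (.e (nat_lit 319531) (nat_lit 16) (.e (nat_lit 286747) (nat_lit 9) (.e (nat_lit 335997) (nat_lit 1) (.e (nat_lit 57849) (nat_lit 252) (.e (nat_lit 57368) (nat_lit 1) (.e (nat_lit 57829) (nat_lit 250) .nil)))))))) (.g (nat_lit 4) .nil .nil))) 
(.lf (nat_lit 31292) (.g (nat_lit 2110) (.e (nat_lit 1201) (nat_lit 88) (.e (nat_lit 65586) (nat_lit 7) (.e (nat_lit 319531) (nat_lit 16) (.e (nat_lit 286748) (nat_lit 9) (.e (nat_lit 335985) (nat_lit 1) (.e (nat_lit 57848) (nat_lit 252) (.e (nat_lit 57368) (nat_lit 1) (.e (nat_lit 57830) (nat_lit 250) .nil)))))))) (.g (nat_lit 4) .nil .nil))))))) 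
(.nd (nat_lit 2) (.nd (nat_lit 3) (.nd (nat_lit 4) (.nd (nat_lit 5) 
(.lf (nat_lit 31234) (.g (nat_lit 3254) (.e (nat_lit 1201) (nat_lit 88) (.e (nat_lit 65586) (nat_lit 7) (.e (nat_lit 319531) (nat_lit 16) (.e (nat_lit 286745) (nat_lit 9) (.e (nat_lit 335985) (nat_lit 1) (.e (nat_lit 57854) (nat_lit 252) (.e (nat_lit 57366) (nat_lit 1) (.e (nat_lit 57830) (nat_lit 250) .nil)))))))) (.g (nat_lit 6) .nil .nil))) 
(.lf (nat_lit 31266) (.g (nat_lit 1982) (.e (nat_lit 1201) (nat_lit 88) (.e (nat_lit 65586) (nat_lit 7) (.e (nat_lit 319531) (nat_lit 16) (.e (nat_lit 286748) (nat_lit 9) (.e (nat_lit 335909) (nat_lit 0) .nil))))) .nil))) (.nd (nat_lit 5) 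
(.lf (nat_lit 31250) (.g (nat_lit 2499) (.e (nat_lit 1201) (nat_lit 88) (.e (nat_lit 65586) (nat_lit 7) (.e (nat_lit 319531) (nat_lit 16) (.e (nat_lit 286747) (nat_lit 9) (.e (nat_lit 335989) (nat_lit 1) (.e (nat_lit 57847) (nat_lit 252) (.e (nat_lit 57365) (nat_lit 1) (.e (nat_lit 57829) (nat_lit 250) .nil)))))))) (.g (nat_lit 5) .nil .nil))) 
(.lf (nat_lit 31282) (.g (nat_lit 1590) (.e (nat_lit 1201) (nat_lit 88) (.e (nat_lit 65586) (nat_lit 7) (.e (nat_lit 319531) (nat_lit 16) (.e (nat_lit 286748) (nat_lit 9) (.e (nat_lit 335928) (nat_lit 0) .nil))))) .nil)))) (.nd (nat_lit 4) (.nd (nat_lit 5) 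
(.lf (nat_lit 31242) (.g (nat_lit 2421) (.e (nat_lit 1201) (nat_lit 88) (.e (nat_lit 65586) (nat_lit 7) (.e (nat_lit 319531) (nat_lit 16) (.e (nat_lit 286745) (nat_lit 9) (.e (nat_lit 335991) (nat_lit 1) (.e (nat_lit 57849) (nat_lit 252) (.e (nat_lit 57365) (nat_lit 1) (.e (nat_lit 57830) (nat_lit 250) .nil)))))))) (.g (nat_lit 4) .nil .nil))) 
(.lf (nat_lit 31274) (.g (nat_lit 2164) (.e (nat_lit 1201) (nat_lit 88) (.e (nat_lit 65586) (nat_lit 7) (.e (nat_lit 319531) (nat_lit 16) (.e (nat_lit 286748) (nat_lit 9) (.e (nat_lit 335915) (nat_lit 0) (.e (nat_lit 1045) (nat_lit 81) (.e (nat_lit 5205) (nat_lit 294) (.e (nat_lit 57366) (nat_lit 1) (.e (nat_lit 57830) (nat_lit 250) .nil))))))))) (.g (nat_lit 4) .nil .nil)))) (.nd (nat_lit 5) 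
(.lf (nat_lit 31258) (.g (nat_lit 3859) (.e (nat_lit 1201) (nat_lit 88) (.e (nat_lit 65586) (nat_lit 7) (.e (nat_lit 319531) (nat_lit 16) (.e (nat_lit 286747) (nat_lit 9) (.e (nat_lit 335997) (nat_lit 1) (.e (nat_lit 57847) (nat_lit 252) (.e (nat_lit 57365) (nat_lit 1) (.e (nat_lit 57830) (nat_lit 250) .nil)))))))) (.g (nat_lit 6) .nil .nil))) 
(.lf (nat_lit 31290) (.g (nat_lit 2861) (.e (nat_lit 1201) (nat_lit 88) (.e (nat_lit 65586) (nat_lit 7) (.e (nat_lit 319531) (nat_lit 16) (.e (nat_lit 286748) (nat_lit 9) (.e (nat_lit 335985) (nat_lit 1) (.e (nat_lit 57847) (nat_lit 252) (.e (nat_lit 57368) (nat_lit 1) (.e (nat_lit 57829) (nat_lit 250) .nil)))))))) (.g (nat_lit 6) .nil .nil)))))) (.nd (nat_lit 3) (.nd (nat_lit 4) (.nd (nat_lit 5) 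
(.lf (nat_lit 31238) (.g (nat_lit 2440) (.e (nat_lit 1201) (nat_lit 88) (.e (nat_lit 65586) (nat_lit 7) (.e (nat_lit 319531) (nat_lit 16) (.e (nat_lit 286745) (nat_lit 9) (.e (nat_lit 335990) (nat_lit 1) (.e (nat_lit 57852) (nat_lit 252) (.e (nat_lit 57364) (nat_lit 1) (.e (nat_lit 57830) (nat_lit 250) .nil)))))))) (.g (nat_lit 4) .nil .nil))) 
(.lf (nat_lit 31270) (.g (nat_lit 2315) (.e (nat_lit 1201) (nat_lit 88) (.e (nat_lit 65586) (nat_lit 7) (.e (nat_lit 319531) (nat_lit 16) (.e (nat_lit 286748) (nat_lit 9) (.e (nat_lit 335915) (nat_lit 0) (.e (nat_lit 1035) (nat_lit 81) (.e (nat_lit 5205) (nat_lit 294) (.e (nat_lit 57366) (nat_lit 1) (.e (nat_lit 57830) (nat_lit 250) .nil))))))))) (.g (nat_lit 4) .nil .nil)))) (.nd (nat_lit 5) 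
(.lf (nat_lit 31254) (.g (nat_lit 2043) (.e (nat_lit 1201) (nat_lit 88) (.e (nat_lit 65586) (nat_lit 7) (.e (nat_lit 319531) (nat_lit 16) (.e (nat_lit 286747) (nat_lit 9) (.e (nat_lit 335997) (nat_lit 1) .nil))))) .nil)) 
(.lf (nat_lit 31286) (.g (nat_lit 2345) (.e (nat_lit 1201) (nat_lit 88) (.e (nat_lit 65586) (nat_lit 7) (.e (nat_lit 319531) (nat_lit 16) (.e (nat_lit 286748) (nat_lit 9) (.e (nat_lit 335938) (nat_lit 0) (.e (nat_lit 1023) (nat_lit 81) (.e (nat_lit 5195) (nat_lit 294) (.e (nat_lit 57368) (nat_lit 1) (.e (nat_lit 57829) (nat_lit 250) .nil))))))))) (.g (nat_lit 4) .nil .nil))))) 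
(.nd (nat_lit 4) (.nd (nat_lit 5) 
(.lf (nat_lit 31246) (.g (nat_lit 3383) (.e (nat_lit 1201) (nat_lit 88) (.e (nat_lit 65586) (nat_lit 7) (.e (nat_lit 319531) (nat_lit 16) (.e (nat_lit 286745) (nat_lit 9) (.e (nat_lit 335992) (nat_lit 1) (.e (nat_lit 57851) (nat_lit 252) (.e (nat_lit 57364) (nat_lit 1) (.e (nat_lit 57830) (nat_lit 250) .nil)))))))) (.g (nat_lit 6) .nil .nil))) 
(.lf (nat_lit 31278) (.g (nat_lit 1981) (.e (nat_lit 1201) (nat_lit 88) (.e (nat_lit 65586) (nat_lit 7) (.e (nat_lit 319531) (nat_lit 16) (.e (nat_lit 286748) (nat_lit 9) (.e (nat_lit 335919) (nat_lit 0) .nil))))) .nil))) (.nd (nat_lit 5) 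
(.lf (nat_lit 31262) (.g (nat_lit 3733) (.e (nat_lit 1201) (nat_lit 88) (.e (nat_lit 65586) (nat_lit 7) (.e (nat_lit 319531) (nat_lit 16) (.e (nat_lit 286747) (nat_lit 9) (.e (nat_lit 335997) (nat_lit 1) (.e (nat_lit 57854) (nat_lit 252) (.e (nat_lit 57364) (nat_lit 1) (.e (nat_lit 57830) (nat_lit 250) .nil)))))))) (.g (nat_lit 6) .nil .nil))) 
(.lf (nat_lit 31294) (.g (nat_lit 3395) (.e (nat_lit 1201) (nat_lit 88) (.e (nat_lit 65586) (nat_lit 7) (.e (nat_lit 319531) (nat_lit 16) (.e (nat_lit 286748) (nat_lit 9) (.e (nat_lit 335985) (nat_lit 1) (.e (nat_lit 57849) (nat_lit 252) (.e (nat_lit 57368) (nat_lit 1) (.e (nat_lit 57829) (nat_lit 250) .nil)))))))) (.g (nat_lit 7) .nil .nil)))))))) 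
(.nd (nat_lit 1) (.nd (nat_lit 2) (.nd (nat_lit 3) (.nd (nat_lit 4) (.nd (nat_lit 5) 
(.lf (nat_lit 31233) (.g (nat_lit 3236) (.e (nat_lit 1201) (nat_lit 88) (.e (nat_lit 65586) (nat_lit 7) (.e (nat_lit 319531) (nat_lit 16) (.e (nat_lit 286745) (nat_lit 9) (.e (nat_lit 335985) (nat_lit 1) (.e (nat_lit 57854) (nat_lit 252) (.e (nat_lit 57364) (nat_lit 1) (.e (nat_lit 57830) (nat_lit 250) .nil)))))))) (.g (nat_lit 6) .nil .nil))) 
(.lf (nat_lit 31265) (.g (nat_lit 2288) (.e (nat_lit 1201) (nat_lit 88) (.e (nat_lit 65586) (nat_lit 7) (.e (nat_lit 319531) (nat_lit 16) (.e (nat_lit 286748) (nat_lit 9) (.e (nat_lit 335901) (nat_lit 0) (.e (nat_lit 1095) (nat_lit 81) (.e (nat_lit 5205) (nat_lit 294) (.e (nat_lit 57366) (nat_lit 1) (.e (nat_lit 57830) (nat_lit 250) .nil))))))))) (.g (nat_lit 4) .nil .nil)))) (.nd (nat_lit 5) 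
(.lf (nat_lit 31249) (.g (nat_lit 3535) (.e (nat_lit 1201) (nat_lit 88) (.e (nat_lit 65586) (nat_lit 7) (.e (nat_lit 319531) (nat_lit 16) (.e (nat_lit 286745) (nat_lit 9) (.e (nat_lit 335992) (nat_lit 1) (.e (nat_lit 57854) (nat_lit 252) (.e (nat_lit 57366) (nat_lit 1) (.e (nat_lit 57830) (nat_lit 250) .nil)))))))) (.g (nat_lit 6) .nil .nil))) 
(.lf (nat_lit 31281) (.g (nat_lit 2229) (.e (nat_lit 1201) (nat_lit 88) (.e (nat_lit 65586) (nat_lit 7) (.e (nat_lit 319531) (nat_lit 16) (.e (nat_lit 286748) (nat_lit 9) (.e (nat_lit 335925) (nat_lit 0) (.e (nat_lit 1023) (nat_lit 81) (.e (nat_lit 5194) (nat_lit 294) (.e (nat_lit 57368) (nat_lit 1) (.e (nat_lit 57830) (nat_lit 250) .nil))))))))) (.g (nat_lit 4) .nil .nil))))) 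
(.nd (nat_lit 4) (.nd (nat_lit 5) 
(.lf (nat_lit 31241) (.g (nat_lit 3468) (.e (nat_lit 1201) (nat_lit 88) (.e (nat_lit 65586) (nat_lit 7) (.e (nat_lit 319531) (nat_lit 16) (.e (nat_lit 286745) (nat_lit 9) (.e (nat_lit 335990) (nat_lit 1) (.e (nat_lit 57854) (nat_lit 252) (.e (nat_lit 57366) (nat_lit 1) (.e (nat_lit 57830) (nat_lit 250) .nil)))))))) (.g (nat_lit 6) .nil .nil))) 
(.lf (nat_lit 31273) (.g (nat_lit 2265) (.e (nat_lit 1201) (nat_lit 88) (.e (nat_lit 65586) (nat_lit 7) (.e (nat_lit 319531) (nat_lit 16) (.e (nat_lit 286748) (nat_lit 9) (.e (nat_lit 335915) (nat_lit 0) (.e (nat_lit 1044) (nat_lit 81) (.e (nat_lit 5205) (nat_lit 294) (.e (nat_lit 57366) (nat_lit 1) (.e (nat_lit 57830) (nat_lit 250) .nil))))))))) (.g (nat_lit 4) .nil .nil)))) (.nd (nat_lit 5) 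
(.lf (nat_lit 31257) (.g (nat_lit 3590) (.e (nat_lit 1201) (nat_lit 88) (.e (nat_lit 65586) (nat_lit 7) (.e (nat_lit 319531) (nat_lit 16) (.e (nat_lit 286747) (nat_lit 9) (.e (nat_lit 335997) (nat_lit 1) (.e (nat_lit 57846) (nat_lit 252) (.e (nat_lit 57365) (nat_lit 1) (.e (nat_lit 57830) (nat_lit 250) .nil)))))))) (.g (nat_lit 6) .nil .nil))) 
(.lf (nat_lit 31289) (.g (nat_lit 3633) (.e (nat_lit 1201) (nat_lit 88) (.e (nat_lit 65586) (nat_lit 7) (.e (nat_lit 319531) (nat_lit 16) (.e (nat_lit 286748) (nat_lit 9) (.e (nat_lit 335985) (nat_lit 1) (.e (nat_lit 57847) (nat_lit 252) (.e (nat_lit 57365) (nat_lit 1) (.e (nat_lit 57829) (nat_lit 250) .nil)))))))) (.g (nat_lit 7) .nil .nil)))))) (.nd (nat_lit 3) (.nd (nat_lit 4) (.nd (nat_lit 5) 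
(.lf (nat_lit 31237) (.g (nat_lit 3291) (.e (nat_lit 1201) (nat_lit 88) (.e (nat_lit 65586) (nat_lit 7) (.e (nat_lit 319531) (nat_lit 16) (.e (nat_lit 286745) (nat_lit 9) (.e (nat_lit 335990) (nat_lit 1) (.e (nat_lit 57851) (nat_lit 252) (.e (nat_lit 57364) (nat_lit 1) (.e (nat_lit 57830) (nat_lit 250) .nil)))))))) (.g (nat_lit 6) .nil .nil))) 
(.lf (nat_lit 31269) (.g (nat_lit 2207) (.e (nat_lit 1201) (nat_lit 88) (.e (nat_lit 65586) (nat_lit 7) (.e (nat_lit 319531) (nat_lit 16) (.e (nat_lit 286748) (nat_lit 9) (.e (nat_lit 335915) (nat_lit 0) (.e (nat_lit 1029) (nat_lit 81) (.e (nat_lit 5205) (nat_lit 294) (.e (nat_lit 57366) (nat_lit 1) (.e (nat_lit 57830) (nat_lit 250) .nil))))))))) (.g (nat_lit 4) .nil .nil)))) (.nd (nat_lit 5) 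
(.lf (nat_lit 31253) (.g (nat_lit 2613) (.e (nat_lit 1201) (nat_lit 88) (.e (nat_lit 65586) (nat_lit 7) (.e (nat_lit 319531) (nat_lit 16) (.e (nat_lit 286747) (nat_lit 9) (.e (nat_lit 335989) (nat_lit 1) (.e (nat_lit 57854) (nat_lit 252) (.e (nat_lit 57366) (nat_lit 1) (.e (nat_lit 57830) (nat_lit 250) .nil)))))))) (.g (nat_lit 5) .nil .nil))) 
(.lf (nat_lit 31285) (.g (nat_lit 1981) (.e (nat_lit 1201) (nat_lit 88) (.e (nat_lit 65586) (nat_lit 7) (.e (nat_lit 319531) (nat_lit 16) (.e (nat_lit 286748) (nat_lit 9) (.e (nat_lit 335938) (nat_lit 0) .nil))))) .nil)))) (.nd (nat_lit 4) (.nd (nat_lit 5) 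
(.lf (nat_lit 31245) (.g (nat_lit 2523) (.e (nat_lit 1201) (nat_lit 88) (.e (nat_lit 65586) (nat_lit 7) (.e (nat_lit 319531) (nat_lit 16) (.e (nat_lit 286745) (nat_lit 9) (.e (nat_lit 335992) (nat_lit 1) (.e (nat_lit 57847) (nat_lit 252) (.e (nat_lit 57368) (nat_lit 1) (.e (nat_lit 57829) (nat_lit 250) .nil)))))))) (.g (nat_lit 4) .nil .nil))) 
(.lf (nat_lit 31277) (.g (nat_lit 2056) (.e (nat_lit 1201) (nat_lit 88) (.e (nat_lit 65586) (nat_lit 7) (.e (nat_lit 319531) (nat_lit 16) (.e (nat_lit 286748) (nat_lit 9) (.e (nat_lit 335916) (nat_lit 0) (.e (nat_lit 1023) (nat_lit 81) (.e (nat_lit 5195) (nat_lit 294) (.e (nat_lit 57365) (nat_lit 1) (.e (nat_lit 57830) (nat_lit 250) .nil))))))))) (.g (nat_lit 4) .nil .nil)))) (.nd (nat_lit 5) 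
(.lf (nat_lit 31261) (.g (nat_lit 2784) (.e (nat_lit 1201) (nat_lit 88) (.e (nat_lit 65586) (nat_lit 7) (.e (nat_lit 319531) (nat_lit 16) (.e (nat_lit 286747) (nat_lit 9) (.e (nat_lit 335997) (nat_lit 1) (.e (nat_lit 57853) (nat_lit 252) (.e (nat_lit 57364) (nat_lit 1) (.e (nat_lit 57830) (nat_lit 250) .nil)))))))) (.g (nat_lit 5) .nil .nil))) 
(.lf (nat_lit 31293) (.g (nat_lit 3906) (.e (nat_lit 1201) (nat_lit 88) (.e (nat_lit 65586) (nat_lit 7) (.e (nat_lit 319531) (nat_lit 16) (.e (nat_lit 286748) (nat_lit 9) (.e (nat_lit 335985) (nat_lit 1) (.e (nat_lit 57849) (nat_lit 252) (.e (nat_lit 57365) (nat_lit 1) (.e (nat_lit 57829) (nat_lit 250) .nil)))))))) (.g (nat_lit 8) .nil .nil))))))) 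
(.nd (nat_lit 2) (.nd (nat_lit 3) (.nd (nat_lit 4) (.nd (nat_lit 5) 
(.lf (nat_lit 31235) (.g (nat_lit 4113) (.e (nat_lit 1201) (nat_lit 88) (.e (nat_lit 65586) (nat_lit 7) (.e (nat_lit 319531) (nat_lit 16) (.e (nat_lit 286745) (nat_lit 9) (.e (nat_lit 335989) (nat_lit 1) (.e (nat_lit 57847) (nat_lit 252) (.e (nat_lit 57365) (nat_lit 1) (.e (nat_lit 57830) (nat_lit 250) .nil)))))))) (.g (nat_lit 7) .nil .nil))) 
(.lf (nat_lit 31267) (.g (nat_lit 1981) (.e (nat_lit 1201) (nat_lit 88) (.e (nat_lit 65586) (nat_lit 7) (.e (nat_lit 319531) (nat_lit 16) (.e (nat_lit 286748) (nat_lit 9) (.e (nat_lit 335915) (nat_lit 0) .nil))))) .nil))) (.nd (nat_lit 5) 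
(.lf (nat_lit 31251) (.g (nat_lit 2240) (.e (nat_lit 1201) (nat_lit 88) (.e (nat_lit 65586) (nat_lit 7) (.e (nat_lit 319531) (nat_lit 16) (.e (nat_lit 286747) (nat_lit 9) (.e (nat_lit 335989) (nat_lit 1) (.e (nat_lit 57847) (nat_lit 252) (.e (nat_lit 57368) (nat_lit 1) (.e (nat_lit 57830) (nat_lit 250) .nil)))))))) (.g (nat_lit 4) .nil .nil))) 
(.lf (nat_lit 31283) (.g (nat_lit 1752) (.e (nat_lit 1201) (nat_lit 88) (.e (nat_lit 65586) (nat_lit 7) (.e (nat_lit 319531) (nat_lit 16) (.e (nat_lit 286748) (nat_lit 9) (.e (nat_lit 335928) (nat_lit 0) (.e (nat_lit 1023) (nat_lit 81) (.e (nat_lit 5195) (nat_lit 294) (.e (nat_lit 57365) (nat_lit 1) (.e (nat_lit 57829) (nat_lit 250) .nil))))))))) (.g (nat_lit 4) .nil .nil))))) 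
(.nd (nat_lit 4) (.nd (nat_lit 5) 
(.lf (nat_lit 31243) (.g (nat_lit 2409) (.e (nat_lit 1201) (nat_lit 88) (.e (nat_lit 65586) (nat_lit 7) (.e (nat_lit 319531) (nat_lit 16) (.e (nat_lit 286745) (nat_lit 9) (.e (nat_lit 335992) (nat_lit 1) (.e (nat_lit 57846) (nat_lit 252) (.e (nat_lit 57365) (nat_lit 1) (.e (nat_lit 57829) (nat_lit 250) .nil)))))))) (.g (nat_lit 4) .nil .nil))) 
(.lf (nat_lit 31275) (.g (nat_lit 2416) (.e (nat_lit 1201) (nat_lit 88) (.e (nat_lit 65586) (nat_lit 7) (.e (nat_lit 319531) (nat_lit 16) (.e (nat_lit 286748) (nat_lit 9) (.e (nat_lit 335915) (nat_lit 0) (.e (nat_lit 1048) (nat_lit 81) (.e (nat_lit 5205) (nat_lit 294) (.e (nat_lit 57366) (nat_lit 1) (.e (nat_lit 57830) (nat_lit 250) .nil))))))))) (.g (nat_lit 4) .nil .nil)))) (.nd (nat_lit 5) 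
(.lf (nat_lit 31259) (.g (nat_lit 2044) (.e (nat_lit 1201) (nat_lit 88) (.e (nat_lit 65586) (nat_lit 7) (.e (nat_lit 319531) (nat_lit 16) (.e (nat_lit 286747) (nat_lit 9) (.e (nat_lit 335997) (nat_lit 1) (.e (nat_lit 57847) (nat_lit 252) (.e (nat_lit 57368) (nat_lit 1) (.e (nat_lit 57829) (nat_lit 250) .nil)))))))) (.g (nat_lit 4) .nil .nil))) 
(.lf (nat_lit 31291) (.g (nat_lit 2017) (.e (nat_lit 1201) (nat_lit 88) (.e (nat_lit 65586) (nat_lit 7) (.e (nat_lit 319531) (nat_lit 16) (.e (nat_lit 286748) (nat_lit 9) (.e (nat_lit 335985) (nat_lit 1) (.e (nat_lit 57848) (nat_lit 252) (.e (nat_lit 57365) (nat_lit 1) (.e (nat_lit 57830) (nat_lit 250) .nil)))))))) (.g (nat_lit 4) .nil .nil)))))) (.nd (nat_lit 3) (.nd (nat_lit 4) (.nd (nat_lit 5) 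
(.lf (nat_lit 31239) (.g (nat_lit 2546) (.e (nat_lit 1201) (nat_lit 88) (.e (nat_lit 65586) (nat_lit 7) (.e (nat_lit 319531) (nat_lit 16) (.e (nat_lit 286745) (nat_lit 9) (.e (nat_lit 335990) (nat_lit 1) (.e (nat_lit 57852) (nat_lit 252) (.e (nat_lit 57366) (nat_lit 1) (.e (nat_lit 57830) (nat_lit 250) .nil)))))))) (.g (nat_lit 4) .nil .nil))) 
(.lf (nat_lit 31271) (.g (nat_lit 2150) (.e (nat_lit 1201) (nat_lit 88) (.e (nat_lit 65586) (nat_lit 7) (.e (nat_lit 319531) (nat_lit 16) (.e (nat_lit 286748) (nat_lit 9) (.e (nat_lit 335915) (nat_lit 0) (.e (nat_lit 1036) (nat_lit 81) (.e (nat_lit 5205) (nat_lit 294) (.e (nat_lit 57366) (nat_lit 1) (.e (nat_lit 57830) (nat_lit 250) .nil))))))))) (.g (nat_lit 4) .nil .nil)))) (.nd (nat_lit 5) 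
(.lf (nat_lit 31255) (.g (nat_lit 2880) (.e (nat_lit 1201) (nat_lit 88) (.e (nat_lit 65586) (nat_lit 7) (.e (nat_lit 319531) (nat_lit 16) (.e (nat_lit 286747) (nat_lit 9) (.e (nat_lit 335997) (nat_lit 1) (.e (nat_lit 57844) (nat_lit 252) (.e (nat_lit 57364) (nat_lit 1) (.e (nat_lit 57829) (nat_lit 250) .nil)))))))) (.g (nat_lit 5) .nil .nil))) 
(.lf (nat_lit 31287) (.g (nat_lit 1678) (.e (nat_lit 1201) (nat_lit 88) (.e (nat_lit 65586) (nat_lit 7) (.e (nat_lit 319531) (nat_lit 16) (.e (nat_lit 286748) (nat_lit 9) (.e (nat_lit 335985) (nat_lit 1) .nil))))) .nil)))) (.nd (nat_lit 4) (.nd (nat_lit 5) 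
(.lf (nat_lit 31247) (.g (nat_lit 2413) (.e (nat_lit 1201) (nat_lit 88) (.e (nat_lit 65586) (nat_lit 7) (.e (nat_lit 319531) (nat_lit 16) (.e (nat_lit 286745) (nat_lit 9) (.e (nat_lit 335992) (nat_lit 1) (.e (nat_lit 57853) (nat_lit 252) (.e (nat_lit 57364) (nat_lit 1) (.e (nat_lit 57830) (nat_lit 250) .nil)))))))) (.g (nat_lit 4) .nil .nil))) 
(.lf (nat_lit 31279) (.g (nat_lit 1982) (.e (nat_lit 1201) (nat_lit 88) (.e (nat_lit 65586) (nat_lit 7) (.e (nat_lit 319531) (nat_lit 16) (.e (nat_lit 286748) (nat_lit 9) (.e (nat_lit 335925) (nat_lit 0) .nil))))) .nil))) (.nd (nat_lit 5) 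
(.lf (nat_lit 31263) (.g (nat_lit 3743) (.e (nat_lit 1201) (nat_lit 88) (.e (nat_lit 65586) (nat_lit 7) (.e (nat_lit 319531) (nat_lit 16) (.e (nat_lit 286747) (nat_lit 9) (.e (nat_lit 335997) (nat_lit 1) (.e (nat_lit 57854) (nat_lit 252) (.e (nat_lit 57366) (nat_lit 1) (.e (nat_lit 57830) (nat_lit 250) .nil)))))))) (.g (nat_lit 6) .nil .nil))) 
(.lf (nat_lit 31295) (.g (nat_lit 2049) (.e (nat_lit 1201) (nat_lit 88) (.e (nat_lit 65586) (nat_lit 7) (.e (nat_lit 319531) (nat_lit 16) (.e (nat_lit 286748) (nat_lit 9) (.e (nat_lit 335985) (nat_lit 1) (.e (nat_lit 57851) (nat_lit 252) (.e (nat_lit 57364) (nat_lit 1) (.e (nat_lit 57829) (nat_lit 250) .nil)))))))) (.g (nat_lit 4) .nil .nil)))))))))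

noncomputable def tv437 : DT := (.nd (nat_lit 0) (.nd (nat_lit 1) (.nd (nat_lit 2) (.nd (nat_lit 3) (.nd (nat_lit 4) (.nd (nat_lit 5) 
(.lf (nat_lit 31296) (.g (nat_lit 1957) (.e (nat_lit 1201) (nat_lit 88) (.e (nat_lit 65586) (nat_lit 7) (.e (nat_lit 319531) (nat_lit 16) (.e (nat_lit 286748) (nat_lit 9) (.e (nat_lit 335985) (nat_lit 1) (.e (nat_lit 57854) (nat_lit 252) (.e (nat_lit 57364) (nat_lit 1) (.e (nat_lit 57829) (nat_lit 250) .nil)))))))) (.g (nat_lit 4) .nil .nil))) 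
(.lf (nat_lit 31328) (.g (nat_lit 3661) (.e (nat_lit 1201) (nat_lit 88) (.e (nat_lit 65586) (nat_lit 7) (.e (nat_lit 319531) (nat_lit 16) (.e (nat_lit 286748) (nat_lit 9) (.e (nat_lit 335997) (nat_lit 1) (.e (nat_lit 57849) (nat_lit 252) (.e (nat_lit 57365) (nat_lit 1) (.e (nat_lit 57829) (nat_lit 250) .nil)))))))) (.g (nat_lit 7) .nil .nil)))) (.nd (nat_lit 5) 
(.lf (nat_lit 31312) (.g (nat_lit 3729) (.e (nat_lit 1201) (nat_lit 88) (.e (nat_lit 65586) (nat_lit 7) (.e (nat_lit 319531) (nat_lit 16) (.e (nat_lit 286748) (nat_lit 9) (.e (nat_lit 335992) (nat_lit 1) (.e (nat_lit 57847) (nat_lit 252) (.e (nat_lit 57365) (nat_lit 1) (.e (nat_lit 57829) (nat_lit 250) .nil)))))))) (.g (nat_lit 7) .nil .nil))) 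
(.lf (nat_lit 31344) (.g (nat_lit 3698) (.e (nat_lit 1201) (nat_lit 88) (.e (nat_lit 65586) (nat_lit 7) (.e (nat_lit 319531) (nat_lit 16) (.e (nat_lit 286749) (nat_lit 9) (.e (nat_lit 335997) (nat_lit 1) (.e (nat_lit 57847) (nat_lit 252) (.e (nat_lit 57365) (nat_lit 1) (.e (nat_lit 57829) (nat_lit 250) .nil)))))))) (.g (nat_lit 5) .nil .nil))))) (.nd (nat_lit 4) (.nd (nat_lit 5) 
(.lf (nat_lit 31304) (.g (nat_lit 1653) (.e (nat_lit 1201) (nat_lit 88) (.e (nat_lit 65586) (nat_lit 7) (.e (nat_lit 319531) (nat_lit 16) (.e (nat_lit 286748) (nat_lit 9) (.e (nat_lit 335990) (nat_lit 1) (.e (nat_lit 57853) (nat_lit 252) (.e (nat_lit 57364) (nat_lit 1) (.e (nat_lit 57830) (nat_lit 250) .nil)))))))) (.g (nat_lit 4) .nil .nil))) 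
(.lf (nat_lit 31336) (.g (nat_lit 1511) (.e (nat_lit 1201) (nat_lit 88) (.e (nat_lit 65586) (nat_lit 7) (.e (nat_lit 319531) (nat_lit 16) (.e (nat_lit 286748) (nat_lit 9) (.e (nat_lit 336295) (nat_lit 15) (.e (nat_lit 3757) (nat_lit 229) (.e (nat_lit 802560) (nat_lit 1) (.e (nat_lit 57829) (nat_lit 250) .nil)))))))) (.g (nat_lit 4) .nil .nil)))) (.nd (nat_lit 5) 
(.lf (nat_lit 31320) (.g (nat_lit 3800) (.e (nat_lit 1201) (nat_lit 88) (.e (nat_lit 65586) (nat_lit 7) (.e (nat_lit 319531) (nat_lit 16) (.e (nat_lit 286748) (nat_lit 9) (.e (nat_lit 335992) (nat_lit 1) (.e (nat_lit 57852) (nat_lit 252) (.e (nat_lit 57364) (nat_lit 1) (.e (nat_lit 57830) (nat_lit 250) .nil)))))))) (.g (nat_lit 6) .nil .nil))) 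
(.lf (nat_lit 31352) (.g (nat_lit 3446) (.e (nat_lit 1201) (nat_lit 88) (.e (nat_lit 65586) (nat_lit 7) (.e (nat_lit 319531) (nat_lit 16) (.e (nat_lit 286750) (nat_lit 9) (.e (nat_lit 335986) (nat_lit 1) (.e (nat_lit 57854) (nat_lit 252) (.e (nat_lit 57364) (nat_lit 1) (.e (nat_lit 57830) (nat_lit 250) .nil)))))))) (.g (nat_lit 5) .nil .nil)))))) (.nd (nat_lit 3) (.nd (nat_lit 4) (.nd (nat_lit 5) 
(.lf (nat_lit 31300) (.g (nat_lit 3321) (.e (nat_lit 1201) (nat_lit 88) (.e (nat_lit 65586) (nat_lit 7) (.e (nat_lit 319531) (nat_lit 16) (.e (nat_lit 286748) (nat_lit 9) (.e (nat_lit 335989) (nat_lit 1) (.e (nat_lit 57847) (nat_lit 252) (.e (nat_lit 57368) (nat_lit 1) (.e (nat_lit 57830) (nat_lit 250) .nil)))))))) (.g (nat_lit 7) .nil .nil))) 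
(.lf (nat_lit 31332) (.g (nat_lit 1870) (.e (nat_lit 1201) (nat_lit 88) (.e (nat_lit 65586) (nat_lit 7) (.e (nat_lit 319531) (nat_lit 16) (.e (nat_lit 286748) (nat_lit 9) (.e (nat_lit 335997) (nat_lit 1) (.e (nat_lit 57853) (nat_lit 252) (.e (nat_lit 57364) (nat_lit 1) (.e (nat_lit 57829) (nat_lit 250) .nil)))))))) (.g (nat_lit 4) .nil .nil)))) (.nd (nat_lit 5) 
(.lf (nat_lit 31316) (.g (nat_lit 3457) (.e (nat_lit 1201) (nat_lit 88) (.e (nat_lit 65586) (nat_lit 7) (.e (nat_lit 319531) (nat_lit 16) (.e (nat_lit 286748) (nat_lit 9) (.e (nat_lit 335992) (nat_lit 1) (.e (nat_lit 57849) (nat_lit 252) (.e (nat_lit 57365) (nat_lit 1) (.e (nat_lit 57829) (nat_lit 250) .nil)))))))) (.g (nat_lit 7) .nil .nil))) 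
(.lf (nat_lit 31348) (.g (nat_lit 2570) (.e (nat_lit 1201) (nat_lit 88) (.e (nat_lit 65586) (nat_lit 7) (.e (nat_lit 319531) (nat_lit 16) (.e (nat_lit 286749) (nat_lit 9) (.e (nat_lit 335997) (nat_lit 1) (.e (nat_lit 57849) (nat_lit 252) (.e (nat_lit 57368) (nat_lit 1) (.e (nat_lit 57829) (nat_lit 250) .nil)))))))) (.g (nat_lit 4) .nil .nil))))) (.nd (nat_lit 4) (.nd (nat_lit 5) 
(.lf (nat_lit 31308) (.g (nat_lit 3312) (.e (nat_lit 1201) (nat_lit 88) (.e (nat_lit 65586) (nat_lit 7) (.e (nat_lit 319531) (nat_lit 16) (.e (nat_lit 286748) (nat_lit 9) (.e (nat_lit 335991) (nat_lit 1) (.e (nat_lit 57849) (nat_lit 252) (.e (nat_lit 57368) (nat_lit 1) (.e (nat_lit 57829) (nat_lit 250) .nil)))))))) (.g (nat_lit 7) .nil .nil))) 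
(.lf (nat_lit 31340) (.g (nat_lit 2382) (.e (nat_lit 1201) (nat_lit 88) (.e (nat_lit 65586) (nat_lit 7) (.e (nat_lit 319531) (nat_lit 16) (.e (nat_lit 286749) (nat_lit 9) (.e (nat_lit 335997) (nat_lit 1) .nil))))) .nil))) (.nd (nat_lit 5) 
(.lf (nat_lit 31324) (.g (nat_lit 2272) (.e (nat_lit 1201) (nat_lit 88) (.e (nat_lit 65586) (nat_lit 7) (.e (nat_lit 319531) (nat_lit 16) (.e (nat_lit 286748) (nat_lit 9) (.e (nat_lit 335997) (nat_lit 1) (.e (nat_lit 57844) (nat_lit 252) (.e (nat_lit 57364) (nat_lit 1) (.e (nat_lit 57829) (nat_lit 250) .nil)))))))) (.g (nat_lit 5) .nil .nil))) 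
(.lf (nat_lit 31356) (.g (nat_lit 2343) (.e (nat_lit 1201) (nat_lit 88) (.e (nat_lit 65586) (nat_lit 7) (.e (nat_lit 319531) (nat_lit 16) (.e (nat_lit 286750) (nat_lit 9) (.e (nat_lit 335993) (nat_lit 1) (.e (nat_lit 57847) (nat_lit 252) (.e (nat_lit 57368) (nat_lit 1) (.e (nat_lit 57829) (nat_lit 250) .nil)))))))) (.g (nat_lit 4) .nil .nil))))))) 
(.nd (nat_lit 2) (.nd (nat_lit 3) (.nd (nat_lit 4) (.nd (nat_lit 5) 
(.lf (nat_lit 31298) (.g (nat_lit 3541) (.e (nat_lit 1201) (nat_lit 88) (.e (nat_lit 65586) (nat_lit 7) (.e (nat_lit 319531) (nat_lit 16) (.e (nat_lit 286748) (nat_lit 9) (.e (nat_lit 335989) (nat_lit 1) (.e (nat_lit 57847) (nat_lit 252) (.e (nat_lit 57365) (nat_lit 1) (.e (nat_lit 57829) (nat_lit 250) .nil)))))))) (.g (nat_lit 7) .nil .nil))) 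
(.lf (nat_lit 31330) (.g (nat_lit 3521) (.e (nat_lit 1201) (nat_lit 88) (.e (nat_lit 65586) (nat_lit 7) (.e (nat_lit 319531) (nat_lit 16) (.e (nat_lit 286748) (nat_lit 9) (.e (nat_lit 335997) (nat_lit 1) (.e (nat_lit 57849) (nat_lit 252) (.e (nat_lit 57368) (nat_lit 1) (.e (nat_lit 57830) (nat_lit 250) .nil)))))))) (.g (nat_lit 6) .nil .nil)))) (.nd (nat_lit 5) 
(.lf (nat_lit 31314) (.g (nat_lit 2114) (.e (nat_lit 1201) (nat_lit 88) (.e (nat_lit 65586) (nat_lit 7) (.e (nat_lit 319531) (nat_lit 16) (.e (nat_lit 286748) (nat_lit 9) (.e (nat_lit 335992) (nat_lit 1) (.e (nat_lit 57848) (nat_lit 252) (.e (nat_lit 57365) (nat_lit 1) (.e (nat_lit 57829) (nat_lit 250) .nil)))))))) (.g (nat_lit 5) .nil .nil))) 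
(.lf (nat_lit 31346) (.g (nat_lit 2463) (.e (nat_lit 1201) (nat_lit 88) (.e (nat_lit 65586) (nat_lit 7) (.e (nat_lit 319531) (nat_lit 16) (.e (nat_lit 286749) (nat_lit 9) (.e (nat_lit 335997) (nat_lit 1) (.e (nat_lit 57847) (nat_lit 252) (.e (nat_lit 57368) (nat_lit 1) (.e (nat_lit 57829) (nat_lit 250) .nil)))))))) (.g (nat_lit 4) .nil .nil))))) (.nd (nat_lit 4) (.nd (nat_lit 5) 
(.lf (nat_lit 31306) (.g (nat_lit 1804) (.e (nat_lit 1201) (nat_lit 88) (.e (nat_lit 65586) (nat_lit 7) (.e (nat_lit 319531) (nat_lit 16) (.e (nat_lit 286748) (nat_lit 9) (.e (nat_lit 335991) (nat_lit 1) .nil))))) .nil)) 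
(.lf (nat_lit 31338) (.g (nat_lit 1807) (.e (nat_lit 1201) (nat_lit 88) (.e (nat_lit 65586) (nat_lit 7) (.e (nat_lit 319531) (nat_lit 16) (.e (nat_lit 286748) (nat_lit 9) (.e (nat_lit 343808) (nat_lit 20) (.e (nat_lit 229120) (nat_lit 1) (.e (nat_lit 57829) (nat_lit 250) .nil))))))) (.g (nat_lit 4) .nil .nil)))) (.nd (nat_lit 5) 
(.lf (nat_lit 31322) (.g (nat_lit 3016) (.e (nat_lit 1201) (nat_lit 88) (.e (nat_lit 65586) (nat_lit 7) (.e (nat_lit 319531) (nat_lit 16) (.e (nat_lit 286748) (nat_lit 9) (.e (nat_lit 335992) (nat_lit 1) (.e (nat_lit 57853) (nat_lit 252) (.e (nat_lit 57364) (nat_lit 1) (.e (nat_lit 57830) (nat_lit 250) .nil)))))))) (.g (nat_lit 6) .nil .nil))) 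
(.lf (nat_lit 31354) (.g (nat_lit 2304) (.e (nat_lit 1201) (nat_lit 88) (.e (nat_lit 65586) (nat_lit 7) (.e (nat_lit 319531) (nat_lit 16) (.e (nat_lit 286750) (nat_lit 9) (.e (nat_lit 335987) (nat_lit 1) (.e (nat_lit 57854) (nat_lit 252) (.e (nat_lit 57364) (nat_lit 1) (.e (nat_lit 57829) (nat_lit 250) .nil)))))))) (.g (nat_lit 4) .nil .nil)))))) (.nd (nat_lit 3) (.nd (nat_lit 4) (.nd (nat_lit 5) 
(.lf (nat_lit 31302) (.g (nat_lit 1927) (.e (nat_lit 1201) (nat_lit 88) (.e (nat_lit 65586) (nat_lit 7) (.e (nat_lit 319531) (nat_lit 16) (.e (nat_lit 286748) (nat_lit 9) (.e (nat_lit 335989) (nat_lit 1) (.e (nat_lit 57854) (nat_lit 252) (.e (nat_lit 57364) (nat_lit 1) (.e (nat_lit 57829) (nat_lit 250) .nil)))))))) (.g (nat_lit 4) .nil .nil))) 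
(.lf (nat_lit 31334) (.g (nat_lit 2769) (.e (nat_lit 1201) (nat_lit 88) (.e (nat_lit 65586) (nat_lit 7) (.e (nat_lit 319531) (nat_lit 16) (.e (nat_lit 286748) (nat_lit 9) (.e (nat_lit 336295) (nat_lit 15) (.e (nat_lit 3609) (nat_lit 226) (.e (nat_lit 770058) (nat_lit 5) (.e (nat_lit 1183) (nat_lit 87) (.e (nat_lit 57830) (nat_lit 250) .nil))))))))) (.g (nat_lit 5) .nil .nil)))) (.nd (nat_lit 5) 
(.lf (nat_lit 31318) (.g (nat_lit 3317) (.e (nat_lit 1201) (nat_lit 88) (.e (nat_lit 65586) (nat_lit 7) (.e (nat_lit 319531) (nat_lit 16) (.e (nat_lit 286748) (nat_lit 9) (.e (nat_lit 335992) (nat_lit 1) (.e (nat_lit 57849) (nat_lit 252) (.e (nat_lit 57368) (nat_lit 1) (.e (nat_lit 57830) (nat_lit 250) .nil)))))))) (.g (nat_lit 6) .nil .nil))) 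
(.lf (nat_lit 31350) (.g (nat_lit 4162) (.e (nat_lit 1201) (nat_lit 88) (.e (nat_lit 65586) (nat_lit 7) (.e (nat_lit 319531) (nat_lit 16) (.e (nat_lit 286749) (nat_lit 9) (.e (nat_lit 335997) (nat_lit 1) (.e (nat_lit 57854) (nat_lit 252) (.e (nat_lit 57366) (nat_lit 1) (.e (nat_lit 57830) (nat_lit 250) .nil)))))))) (.g (nat_lit 6) .nil .nil))))) (.nd (nat_lit 4) (.nd (nat_lit 5) 
(.lf (nat_lit 31310) (.g (nat_lit 2061) (.e (nat_lit 1201) (nat_lit 88) (.e (nat_lit 65586) (nat_lit 7) (.e (nat_lit 319531) (nat_lit 16) (.e (nat_lit 286748) (nat_lit 9) (.e (nat_lit 335992) (nat_lit 1) (.e (nat_lit 57844) (nat_lit 252) (.e (nat_lit 57364) (nat_lit 1) (.e (nat_lit 57830) (nat_lit 250) .nil)))))))) (.g (nat_lit 4) .nil .nil))) 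
(.lf (nat_lit 31342) (.g (nat_lit 3429) (.e (nat_lit 1201) (nat_lit 88) (.e (nat_lit 65586) (nat_lit 7) (.e (nat_lit 319531) (nat_lit 16) (.e (nat_lit 286749) (nat_lit 9) (.e (nat_lit 335997) (nat_lit 1) (.e (nat_lit 57846) (nat_lit 252) (.e (nat_lit 57365) (nat_lit 1) (.e (nat_lit 57829) (nat_lit 250) .nil)))))))) (.g (nat_lit 5) .nil .nil)))) (.nd (nat_lit 5) 
(.lf (nat_lit 31326) (.g (nat_lit 1903) (.e (nat_lit 1201) (nat_lit 88) (.e (nat_lit 65586) (nat_lit 7) (.e (nat_lit 319531) (nat_lit 16) (.e (nat_lit 286748) (nat_lit 9) (.e (nat_lit 335997) (nat_lit 1) (.e (nat_lit 57846) (nat_lit 252) (.e (nat_lit 57364) (nat_lit 1) (.e (nat_lit 57830) (nat_lit 250) .nil)))))))) (.g (nat_lit 4) .nil .nil))) 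
(.lf (nat_lit 31358) (.g (nat_lit 2883) (.e (nat_lit 1201) (nat_lit 88) (.e (nat_lit 65586) (nat_lit 7) (.e (nat_lit 319531) (nat_lit 16) (.e (nat_lit 286751) (nat_lit 10) (.e (nat_lit 344097) (nat_lit 18) (.e (nat_lit 5194) (nat_lit 294) (.e (nat_lit 57364) (nat_lit 1) (.e (nat_lit 57830) (nat_lit 250) .nil)))))))) (.g (nat_lit 5) .nil .nil)))))))) 
(.nd (nat_lit 1) (.nd (nat_lit 2) (.nd (nat_lit 3) (.nd (nat_lit 4) (.nd (nat_lit 5) 
(.lf (nat_lit 31297) (.g (nat_lit 1686) (.e (nat_lit 1201) (nat_lit 88) (.e (nat_lit 65586) (nat_lit 7) (.e (nat_lit 319531) (nat_lit 16) (.e (nat_lit 286748) (nat_lit 9) (.e (nat_lit 335989) (nat_lit 1) .nil))))) .nil)) 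
(.lf (nat_lit 31329) (.g (nat_lit 4088) (.e (nat_lit 1201) (nat_lit 88) (.e (nat_lit 65586) (nat_lit 7) (.e (nat_lit 319531) (nat_lit 16) (.e (nat_lit 286748) (nat_lit 9) (.e (nat_lit 335997) (nat_lit 1) (.e (nat_lit 57849) (nat_lit 252) (.e (nat_lit 57365) (nat_lit 1) (.e (nat_lit 57830) (nat_lit 250) .nil)))))))) (.g (nat_lit 8) .nil .nil)))) (.nd (nat_lit 5) 
(.lf (nat_lit 31313) (.g (nat_lit 3466) (.e (nat_lit 1201) (nat_lit 88) (.e (nat_lit 65586) (nat_lit 7) (.e (nat_lit 319531) (nat_lit 16) (.e (nat_lit 286748) (nat_lit 9) (.e (nat_lit 335992) (nat_lit 1) (.e (nat_lit 57847) (nat_lit 252) (.e (nat_lit 57368) (nat_lit 1) (.e (nat_lit 57830) (nat_lit 250) .nil)))))))) (.g (nat_lit 6) .nil .nil))) 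
(.lf (nat_lit 31345) (.g (nat_lit 4278) (.e (nat_lit 1201) (nat_lit 88) (.e (nat_lit 65586) (nat_lit 7) (.e (nat_lit 319531) (nat_lit 16) (.e (nat_lit 286749) (nat_lit 9) (.e (nat_lit 335997) (nat_lit 1) (.e (nat_lit 57847) (nat_lit 252) (.e (nat_lit 57365) (nat_lit 1) (.e (nat_lit 57830) (nat_lit 250) .nil)))))))) (.g (nat_lit 6) .nil .nil))))) (.nd (nat_lit 4) (.nd (nat_lit 5) 
(.lf (nat_lit 31305) (.g (nat_lit 1863) (.e (nat_lit 1201) (nat_lit 88) (.e (nat_lit 65586) (nat_lit 7) (.e (nat_lit 319531) (nat_lit 16) (.e (nat_lit 286748) (nat_lit 9) (.e (nat_lit 335990) (nat_lit 1) (.e (nat_lit 57854) (nat_lit 252) (.e (nat_lit 57364) (nat_lit 1) (.e (nat_lit 57829) (nat_lit 250) .nil)))))))) (.g (nat_lit 4) .nil .nil))) 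
(.lf (nat_lit 31337) (.g (nat_lit 1410) (.e (nat_lit 1201) (nat_lit 88) (.e (nat_lit 65586) (nat_lit 7) (.e (nat_lit 319531) (nat_lit 16) (.e (nat_lit 286748) (nat_lit 9) (.e (nat_lit 343808) (nat_lit 20) .nil))))) .nil))) (.nd (nat_lit 5) 
(.lf (nat_lit 31321) (.g (nat_lit 3906) (.e (nat_lit 1201) (nat_lit 88) (.e (nat_lit 65586) (nat_lit 7) (.e (nat_lit 319531) (nat_lit 16) (.e (nat_lit 286748) (nat_lit 9) (.e (nat_lit 335992) (nat_lit 1) (.e (nat_lit 57852) (nat_lit 252) (.e (nat_lit 57366) (nat_lit 1) (.e (nat_lit 57830) (nat_lit 250) .nil)))))))) (.g (nat_lit 7) .nil .nil))) 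
(.lf (nat_lit 31353) (.g (nat_lit 3338) (.e (nat_lit 1201) (nat_lit 88) (.e (nat_lit 65586) (nat_lit 7) (.e (nat_lit 319531) (nat_lit 16) (.e (nat_lit 286750) (nat_lit 9) (.e (nat_lit 335986) (nat_lit 1) (.e (nat_lit 57854) (nat_lit 252) (.e (nat_lit 57366) (nat_lit 1) (.e (nat_lit 57830) (nat_lit 250) .nil)))))))) (.g (nat_lit 5) .nil .nil)))))) (.nd (nat_lit 3) (.nd (nat_lit 4) (.nd (nat_lit 5) 
(.lf (nat_lit 31301) (.g (nat_lit 1899) (.e (nat_lit 1201) (nat_lit 88) (.e (nat_lit 65586) (nat_lit 7) (.e (nat_lit 319531) (nat_lit 16) (.e (nat_lit 286748) (nat_lit 9) (.e (nat_lit 335989) (nat_lit 1) (.e (nat_lit 57851) (nat_lit 252) (.e (nat_lit 57364) (nat_lit 1) (.e (nat_lit 57830) (nat_lit 250) .nil)))))))) (.g (nat_lit 4) .nil .nil))) 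
(.lf (nat_lit 31333) (.g (nat_lit 3688) (.e (nat_lit 1201) (nat_lit 88) (.e (nat_lit 65586) (nat_lit 7) (.e (nat_lit 319531) (nat_lit 16) (.e (nat_lit 286748) (nat_lit 9) (.e (nat_lit 335997) (nat_lit 1) (.e (nat_lit 57853) (nat_lit 252) (.e (nat_lit 57364) (nat_lit 1) (.e (nat_lit 57830) (nat_lit 250) .nil)))))))) (.g (nat_lit 7) .nil .nil)))) (.nd (nat_lit 5) 
(.lf (nat_lit 31317) (.g (nat_lit 3884) (.e (nat_lit 1201) (nat_lit 88) (.e (nat_lit 65586) (nat_lit 7) (.e (nat_lit 319531) (nat_lit 16) (.e (nat_lit 286748) (nat_lit 9) (.e (nat_lit 335992) (nat_lit 1) (.e (nat_lit 57849) (nat_lit 252) (.e (nat_lit 57365) (nat_lit 1) (.e (nat_lit 57830) (nat_lit 250) .nil)))))))) (.g (nat_lit 8) .nil .nil))) 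
(.lf (nat_lit 31349) (.g (nat_lit 4152) (.e (nat_lit 1201) (nat_lit 88) (.e (nat_lit 65586) (nat_lit 7) (.e (nat_lit 319531) (nat_lit 16) (.e (nat_lit 286749) (nat_lit 9) (.e (nat_lit 335997) (nat_lit 1) (.e (nat_lit 57854) (nat_lit 252) (.e (nat_lit 57364) (nat_lit 1) (.e (nat_lit 57830) (nat_lit 250) .nil)))))))) (.g (nat_lit 6) .nil .nil))))) (.nd (nat_lit 4) (.nd (nat_lit 5) 
(.lf (nat_lit 31309) (.g (nat_lit 3222) (.e (nat_lit 1201) (nat_lit 88) (.e (nat_lit 65586) (nat_lit 7) (.e (nat_lit 319531) (nat_lit 16) (.e (nat_lit 286748) (nat_lit 9) (.e (nat_lit 335991) (nat_lit 1) (.e (nat_lit 57851) (nat_lit 252) (.e (nat_lit 57364) (nat_lit 1) (.e (nat_lit 57830) (nat_lit 250) .nil)))))))) (.g (nat_lit 7) .nil .nil))) 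
(.lf (nat_lit 31341) (.g (nat_lit 3216) (.e (nat_lit 1201) (nat_lit 88) (.e (nat_lit 65586) (nat_lit 7) (.e (nat_lit 319531) (nat_lit 16) (.e (nat_lit 286749) (nat_lit 9) (.e (nat_lit 335997) (nat_lit 1) (.e (nat_lit 57844) (nat_lit 252) (.e (nat_lit 57364) (nat_lit 1) (.e (nat_lit 57829) (nat_lit 250) .nil)))))))) (.g (nat_lit 5) .nil .nil)))) (.nd (nat_lit 5) 
(.lf (nat_lit 31325) (.g (nat_lit 2523) (.e (nat_lit 1201) (nat_lit 88) (.e (nat_lit 65586) (nat_lit 7) (.e (nat_lit 319531) (nat_lit 16) (.e (nat_lit 286748) (nat_lit 9) (.e (nat_lit 335997) (nat_lit 1) (.e (nat_lit 57845) (nat_lit 252) (.e (nat_lit 57364) (nat_lit 1) (.e (nat_lit 57830) (nat_lit 250) .nil)))))))) (.g (nat_lit 5) .nil .nil))) 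
(.lf (nat_lit 31357) (.g (nat_lit 1623) (.e (nat_lit 1201) (nat_lit 88) (.e (nat_lit 65586) (nat_lit 7) (.e (nat_lit 319531) (nat_lit 16) (.e (nat_lit 286751) (nat_lit 10) .nil)))) .nil)))))) (.nd (nat_lit 2) (.nd (nat_lit 3) (.nd (nat_lit 4) (.nd (nat_lit 5) 
(.lf (nat_lit 31299) (.g (nat_lit 2789) (.e (nat_lit 1201) (nat_lit 88) (.e (nat_lit 65586) (nat_lit 7) (.e (nat_lit 319531) (nat_lit 16) (.e (nat_lit 286748) (nat_lit 9) (.e (nat_lit 335989) (nat_lit 1) (.e (nat_lit 57847) (nat_lit 252) (.e (nat_lit 57368) (nat_lit 1) (.e (nat_lit 57829) (nat_lit 250) .nil)))))))) (.g (nat_lit 6) .nil .nil))) 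
(.lf (nat_lit 31331) (.g (nat_lit 3222) (.e (nat_lit 1201) (nat_lit 88) (.e (nat_lit 65586) (nat_lit 7) (.e (nat_lit 319531) (nat_lit 16) (.e (nat_lit 286748) (nat_lit 9) (.e (nat_lit 335997) (nat_lit 1) (.e (nat_lit 57851) (nat_lit 252) (.e (nat_lit 57364) (nat_lit 1) (.e (nat_lit 57830) (nat_lit 250) .nil)))))))) (.g (nat_lit 6) .nil .nil)))) (.nd (nat_lit 5) 
(.lf (nat_lit 31315) (.g (nat_lit 2085) (.e (nat_lit 1201) (nat_lit 88) (.e (nat_lit 65586) (nat_lit 7) (.e (nat_lit 319531) (nat_lit 16) (.e (nat_lit 286748) (nat_lit 9) (.e (nat_lit 335992) (nat_lit 1) (.e (nat_lit 57848) (nat_lit 252) (.e (nat_lit 57368) (nat_lit 1) (.e (nat_lit 57829) (nat_lit 250) .nil)))))))) (.g (nat_lit 5) .nil .nil))) 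
(.lf (nat_lit 31347) (.g (nat_lit 3671) (.e (nat_lit 1201) (nat_lit 88) (.e (nat_lit 65586) (nat_lit 7) (.e (nat_lit 319531) (nat_lit 16) (.e (nat_lit 286749) (nat_lit 9) (.e (nat_lit 335997) (nat_lit 1) (.e (nat_lit 57849) (nat_lit 252) (.e (nat_lit 57365) (nat_lit 1) (.e (nat_lit 57830) (nat_lit 250) .nil)))))))) (.g (nat_lit 5) .nil .nil))))) (.nd (nat_lit 4) (.nd (nat_lit 5) 
(.lf (nat_lit 31307) (.g (nat_lit 3742) (.e (nat_lit 1201) (nat_lit 88) (.e (nat_lit 65586) (nat_lit 7) (.e (nat_lit 319531) (nat_lit 16) (.e (nat_lit 286748) (nat_lit 9) (.e (nat_lit 335991) (nat_lit 1) (.e (nat_lit 57849) (nat_lit 252) (.e (nat_lit 57365) (nat_lit 1) (.e (nat_lit 57829) (nat_lit 250) .nil)))))))) (.g (nat_lit 8) .nil .nil))) 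
(.lf (nat_lit 31339) (.g (nat_lit 1358) (.e (nat_lit 1201) (nat_lit 88) (.e (nat_lit 65586) (nat_lit 7) (.e (nat_lit 319531) (nat_lit 16) (.e (nat_lit 286749) (nat_lit 9) .nil)))) .nil))) (.nd (nat_lit 5) 
(.lf (nat_lit 31323) (.g (nat_lit 1933) (.e (nat_lit 1201) (nat_lit 88) (.e (nat_lit 65586) (nat_lit 7) (.e (nat_lit 319531) (nat_lit 16) (.e (nat_lit 286748) (nat_lit 9) (.e (nat_lit 335992) (nat_lit 1) (.e (nat_lit 57854) (nat_lit 252) (.e (nat_lit 57364) (nat_lit 1) (.e (nat_lit 57829) (nat_lit 250) .nil)))))))) (.g (nat_lit 4) .nil .nil))) 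
(.lf (nat_lit 31355) (.g (nat_lit 2169) (.e (nat_lit 1201) (nat_lit 88) (.e (nat_lit 65586) (nat_lit 7) (.e (nat_lit 319531) (nat_lit 16) (.e (nat_lit 286750) (nat_lit 9) (.e (nat_lit 335993) (nat_lit 1) .nil))))) .nil))))) (.nd (nat_lit 3) (.nd (nat_lit 4) (.nd (nat_lit 5) 
(.lf (nat_lit 31303) (.g (nat_lit 1868) (.e (nat_lit 1201) (nat_lit 88) (.e (nat_lit 65586) (nat_lit 7) (.e (nat_lit 319531) (nat_lit 16) (.e (nat_lit 286748) (nat_lit 9) (.e (nat_lit 335990) (nat_lit 1) (.e (nat_lit 57851) (nat_lit 252) (.e (nat_lit 57364) (nat_lit 1) (.e (nat_lit 57829) (nat_lit 250) .nil)))))))) (.g (nat_lit 4) .nil .nil))) 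
(.lf (nat_lit 31335) (.g (nat_lit 2107) (.e (nat_lit 1201) (nat_lit 88) (.e (nat_lit 65586) (nat_lit 7) (.e (nat_lit 319531) (nat_lit 16) (.e (nat_lit 286748) (nat_lit 9) (.e (nat_lit 336295) (nat_lit 15) (.e (nat_lit 3757) (nat_lit 229) (.e (nat_lit 802560) (nat_lit 1) (.e (nat_lit 57827) (nat_lit 250) .nil)))))))) (.g (nat_lit 5) .nil .nil)))) (.nd (nat_lit 5) 
(.lf (nat_lit 31319) (.g (nat_lit 1993) (.e (nat_lit 1201) (nat_lit 88) (.e (nat_lit 65586) (nat_lit 7) (.e (nat_lit 319531) (nat_lit 16) (.e (nat_lit 286748) (nat_lit 9) (.e (nat_lit 335992) (nat_lit 1) (.e (nat_lit 57851) (nat_lit 252) (.e (nat_lit 57364) (nat_lit 1) (.e (nat_lit 57829) (nat_lit 250) .nil)))))))) (.g (nat_lit 4) .nil .nil))) 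
(.lf (nat_lit 31351) (.g (nat_lit 1868) (.e (nat_lit 1201) (nat_lit 88) (.e (nat_lit 65586) (nat_lit 7) (.e (nat_lit 319531) (nat_lit 16) (.e (nat_lit 286750) (nat_lit 9) .nil)))) .nil)))) (.nd (nat_lit 4) (.nd (nat_lit 5) 
(.lf (nat_lit 31311) (.g (nat_lit 3012) (.e (nat_lit 1201) (nat_lit 88) (.e (nat_lit 65586) (nat_lit 7) (.e (nat_lit 319531) (nat_lit 16) (.e (nat_lit 286748) (nat_lit 9) (.e (nat_lit 335992) (nat_lit 1) (.e (nat_lit 57846) (nat_lit 252) (.e (nat_lit 57365) (nat_lit 1) (.e (nat_lit 57829) (nat_lit 250) .nil)))))))) (.g (nat_lit 6) .nil .nil))) 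
(.lf (nat_lit 31343) (.g (nat_lit 4009) (.e (nat_lit 1201) (nat_lit 88) (.e (nat_lit 65586) (nat_lit 7) (.e (nat_lit 319531) (nat_lit 16) (.e (nat_lit 286749) (nat_lit 9) (.e (nat_lit 335997) (nat_lit 1) (.e (nat_lit 57846) (nat_lit 252) (.e (nat_lit 57365) (nat_lit 1) (.e (nat_lit 57830) (nat_lit 250) .nil)))))))) (.g (nat_lit 6) .nil .nil)))) (.nd (nat_lit 5) 
(.lf (nat_lit 31327) (.g (nat_lit 3631) (.e (nat_lit 1201) (nat_lit 88) (.e (nat_lit 65586) (nat_lit 7) (.e (nat_lit 319531) (nat_lit 16) (.e (nat_lit 286748) (nat_lit 9) (.e (nat_lit 335997) (nat_lit 1) (.e (nat_lit 57846) (nat_lit 252) (.e (nat_lit 57365) (nat_lit 1) (.e (nat_lit 57829) (nat_lit 250) .nil)))))))) (.g (nat_lit 7) .nil .nil))) 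
(.lf (nat_lit 31359) (.g (nat_lit 3850) (.e (nat_lit 1201) (nat_lit 88) (.e (nat_lit 65586) (nat_lit 7) (.e (nat_lit 319531) (nat_lit 16) (.e (nat_lit 286751) (nat_lit 10) (.e (nat_lit 344097) (nat_lit 18) (.e (nat_lit 5194) (nat_lit 294) (.e (nat_lit 57365) (nat_lit 1) (.e (nat_lit 57829) (nat_lit 250) .nil)))))))) (.g (nat_lit 8) .nil .nil)))))))))

noncomputable def tv438 : DT := (.nd (nat_lit 0) (.nd (nat_lit 1) (.nd (nat_lit 2) (.nd (nat_lit 3) (.nd (nat_lit 4) (.nd (nat_lit 5) 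
(.lf (nat_lit 31360) (.g (nat_lit 3866) (.e (nat_lit 1201) (nat_lit 88) (.e (nat_lit 65586) (nat_lit 7) (.e (nat_lit 319531) (nat_lit 16) (.e (nat_lit 286751) (nat_lit 10) (.e (nat_lit 344097) (nat_lit 18) (.e (nat_lit 5194) (nat_lit 294) (.e (nat_lit 57368) (nat_lit 1) (.e (nat_lit 57829) (nat_lit 250) .nil)))))))) (.g (nat_lit 8) .nil .nil))) 
(.lf (nat_lit 31392) (.g (nat_lit 3746) (.e (nat_lit 1201) (nat_lit 88) (.e (nat_lit 65586) (nat_lit 7) (.e (nat_lit 319531) (nat_lit 16) (.e (nat_lit 286755) (nat_lit 10) (.e (nat_lit 344097) (nat_lit 18) (.e (nat_lit 5195) (nat_lit 294) (.e (nat_lit 57365) (nat_lit 1) (.e (nat_lit 57830) (nat_lit 250) .nil)))))))) (.g (nat_lit 6) .nil .nil)))) (.nd (nat_lit 5) 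
(.lf (nat_lit 31376) (.g (nat_lit 3257) (.e (nat_lit 1201) (nat_lit 88) (.e (nat_lit 65586) (nat_lit 7) (.e (nat_lit 319531) (nat_lit 16) (.e (nat_lit 286753) (nat_lit 10) (.e (nat_lit 344097) (nat_lit 18) (.e (nat_lit 5194) (nat_lit 294) (.e (nat_lit 57368) (nat_lit 1) (.e (nat_lit 57829) (nat_lit 250) .nil)))))))) (.g (nat_lit 5) .nil .nil))) 
(.lf (nat_lit 31408) (.g (nat_lit 3406) (.e (nat_lit 1201) (nat_lit 88) (.e (nat_lit 65586) (nat_lit 7) (.e (nat_lit 319531) (nat_lit 16) (.e (nat_lit 286756) (nat_lit 10) (.e (nat_lit 344098) (nat_lit 18) (.e (nat_lit 5205) (nat_lit 294) (.e (nat_lit 57366) (nat_lit 1) (.e (nat_lit 57830) (nat_lit 250) .nil)))))))) (.g (nat_lit 4) .nil .nil))))) (.nd (nat_lit 4) (.nd (nat_lit 5) 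
(.lf (nat_lit 31368) (.g (nat_lit 3322) (.e (nat_lit 1201) (nat_lit 88) (.e (nat_lit 65586) (nat_lit 7) (.e (nat_lit 319531) (nat_lit 16) (.e (nat_lit 286751) (nat_lit 10) (.e (nat_lit 344160) (nat_lit 37) (.e (nat_lit 647201) (nat_lit 12) (.e (nat_lit 57351) (nat_lit 0) (.e (nat_lit 7122) (nat_lit 382) .nil)))))))) (.g (nat_lit 6) .nil .nil))) 
(.lf (nat_lit 31400) (.g (nat_lit 3326) (.e (nat_lit 1201) (nat_lit 88) (.e (nat_lit 65586) (nat_lit 7) (.e (nat_lit 319531) (nat_lit 16) (.e (nat_lit 286756) (nat_lit 10) (.e (nat_lit 344097) (nat_lit 18) (.e (nat_lit 5194) (nat_lit 294) (.e (nat_lit 57364) (nat_lit 1) (.e (nat_lit 57830) (nat_lit 250) .nil)))))))) (.g (nat_lit 6) .nil .nil)))) (.nd (nat_lit 5) 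
(.lf (nat_lit 31384) (.g (nat_lit 2744) (.e (nat_lit 1201) (nat_lit 88) (.e (nat_lit 65586) (nat_lit 7) (.e (nat_lit 319531) (nat_lit 16) (.e (nat_lit 286753) (nat_lit 10) (.e (nat_lit 344160) (nat_lit 37) (.e (nat_lit 647200) (nat_lit 12) (.e (nat_lit 57353) (nat_lit 0) (.e (nat_lit 7125) (nat_lit 382) .nil)))))))) (.g (nat_lit 4) .nil .nil))) 
(.lf (nat_lit 31416) (.g (nat_lit 3334) (.e (nat_lit 1201) (nat_lit 88) (.e (nat_lit 65586) (nat_lit 7) (.e (nat_lit 319531) (nat_lit 16) (.e (nat_lit 286756) (nat_lit 10) (.e (nat_lit 344160) (nat_lit 37) (.e (nat_lit 647200) (nat_lit 12) (.e (nat_lit 57348) (nat_lit 0) (.e (nat_lit 7124) (nat_lit 382) .nil)))))))) (.g (nat_lit 5) .nil .nil)))))) 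
(.nd (nat_lit 3) (.nd (nat_lit 4) (.nd (nat_lit 5) 
(.lf (nat_lit 31364) (.g (nat_lit 4346) (.e (nat_lit 1201) (nat_lit 88) (.e (nat_lit 65586) (nat_lit 7) (.e (nat_lit 319531) (nat_lit 16) (.e (nat_lit 286751) (nat_lit 10) (.e (nat_lit 344097) (nat_lit 18) (.e (nat_lit 5195) (nat_lit 294) (.e (nat_lit 57365) (nat_lit 1) (.e (nat_lit 57829) (nat_lit 250) .nil)))))))) (.g (nat_lit 8) .nil .nil))) 
(.lf (nat_lit 31396) (.g (nat_lit 2367) (.e (nat_lit 1201) (nat_lit 88) (.e (nat_lit 65586) (nat_lit 7) (.e (nat_lit 319531) (nat_lit 16) (.e (nat_lit 286755) (nat_lit 10) (.e (nat_lit 344160) (nat_lit 37) (.e (nat_lit 647201) (nat_lit 12) (.e (nat_lit 57351) (nat_lit 0) (.e (nat_lit 7124) (nat_lit 382) .nil)))))))) (.g (nat_lit 4) .nil .nil)))) (.nd (nat_lit 5) 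
(.lf (nat_lit 31380) (.g (nat_lit 2552) (.e (nat_lit 1201) (nat_lit 88) (.e (nat_lit 65586) (nat_lit 7) (.e (nat_lit 319531) (nat_lit 16) (.e (nat_lit 286753) (nat_lit 10) (.e (nat_lit 344160) (nat_lit 37) .nil))))) .nil)) 
(.lf (nat_lit 31412) (.g (nat_lit 2740) (.e (nat_lit 1201) (nat_lit 88) (.e (nat_lit 65586) (nat_lit 7) (.e (nat_lit 319531) (nat_lit 16) (.e (nat_lit 286756) (nat_lit 10) (.e (nat_lit 344157) (nat_lit 36) .nil))))) .nil)))) (.nd (nat_lit 4) (.nd (nat_lit 5) 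
(.lf (nat_lit 31372) (.g (nat_lit 1828) (.e (nat_lit 1201) (nat_lit 88) (.e (nat_lit 65586) (nat_lit 7) (.e (nat_lit 319531) (nat_lit 16) (.e (nat_lit 286752) (nat_lit 10) .nil)))) .nil)) 
(.lf (nat_lit 31404) (.g (nat_lit 3291) (.e (nat_lit 1201) (nat_lit 88) (.e (nat_lit 65586) (nat_lit 7) (.e (nat_lit 319531) (nat_lit 16) (.e (nat_lit 286756) (nat_lit 10) (.e (nat_lit 344097) (nat_lit 18) (.e (nat_lit 5195) (nat_lit 294) (.e (nat_lit 57364) (nat_lit 1) (.e (nat_lit 57830) (nat_lit 250) .nil)))))))) (.g (nat_lit 5) .nil .nil)))) (.nd (nat_lit 5) 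
(.lf (nat_lit 31388) (.g (nat_lit 3044) (.e (nat_lit 1201) (nat_lit 88) (.e (nat_lit 65586) (nat_lit 7) (.e (nat_lit 319531) (nat_lit 16) (.e (nat_lit 286755) (nat_lit 10) (.e (nat_lit 344097) (nat_lit 18) (.e (nat_lit 5194) (nat_lit 294) (.e (nat_lit 57365) (nat_lit 1) (.e (nat_lit 57829) (nat_lit 250) .nil)))))))) (.g (nat_lit 6) .nil .nil))) 
(.lf (nat_lit 31420) (.g (nat_lit 3129) (.e (nat_lit 1201) (nat_lit 88) (.e (nat_lit 65586) (nat_lit 7) (.e (nat_lit 319531) (nat_lit 16) (.e (nat_lit 286756) (nat_lit 10) (.e (nat_lit 344160) (nat_lit 37) (.e (nat_lit 647200) (nat_lit 12) (.e (nat_lit 57353) (nat_lit 0) (.e (nat_lit 7124) (nat_lit 382) .nil)))))))) (.g (nat_lit 5) .nil .nil))))))) 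
(.nd (nat_lit 2) (.nd (nat_lit 3) (.nd (nat_lit 4) (.nd (nat_lit 5) 
(.lf (nat_lit 31362) (.g (nat_lit 3186) (.e (nat_lit 1201) (nat_lit 88) (.e (nat_lit 65586) (nat_lit 7) (.e (nat_lit 319531) (nat_lit 16) (.e (nat_lit 286751) (nat_lit 10) (.e (nat_lit 344097) (nat_lit 18) (.e (nat_lit 5195) (nat_lit 294) (.e (nat_lit 57363) (nat_lit 1) (.e (nat_lit 57830) (nat_lit 250) .nil)))))))) (.g (nat_lit 6) .nil .nil))) 
(.lf (nat_lit 31394) (.g (nat_lit 3285) (.e (nat_lit 1201) (nat_lit 88) (.e (nat_lit 65586) (nat_lit 7) (.e (nat_lit 319531) (nat_lit 16) (.e (nat_lit 286755) (nat_lit 10) (.e (nat_lit 344097) (nat_lit 18) (.e (nat_lit 5195) (nat_lit 294) (.e (nat_lit 57368) (nat_lit 1) (.e (nat_lit 57829) (nat_lit 250) .nil)))))))) (.g (nat_lit 6) .nil .nil)))) (.nd (nat_lit 5) 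
(.lf (nat_lit 31378) (.g (nat_lit 3800) (.e (nat_lit 1201) (nat_lit 88) (.e (nat_lit 65586) (nat_lit 7) (.e (nat_lit 319531) (nat_lit 16) (.e (nat_lit 286753) (nat_lit 10) (.e (nat_lit 344097) (nat_lit 18) (.e (nat_lit 5195) (nat_lit 294) (.e (nat_lit 57365) (nat_lit 1) (.e (nat_lit 57830) (nat_lit 250) .nil)))))))) (.g (nat_lit 6) .nil .nil))) 
(.lf (nat_lit 31410) (.g (nat_lit 2635) (.e (nat_lit 1201) (nat_lit 88) (.e (nat_lit 65586) (nat_lit 7) (.e (nat_lit 319531) (nat_lit 16) (.e (nat_lit 286756) (nat_lit 10) (.e (nat_lit 344154) (nat_lit 35) .nil))))) .nil)))) (.nd (nat_lit 4) (.nd (nat_lit 5) 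
(.lf (nat_lit 31370) (.g (nat_lit 2803) (.e (nat_lit 1201) (nat_lit 88) (.e (nat_lit 65586) (nat_lit 7) (.e (nat_lit 319531) (nat_lit 16) (.e (nat_lit 286751) (nat_lit 10) (.e (nat_lit 344161) (nat_lit 37) (.e (nat_lit 647201) (nat_lit 12) (.e (nat_lit 57351) (nat_lit 0) (.e (nat_lit 7122) (nat_lit 382) .nil)))))))) (.g (nat_lit 5) .nil .nil))) 
(.lf (nat_lit 31402) (.g (nat_lit 2913) (.e (nat_lit 1201) (nat_lit 88) (.e (nat_lit 65586) (nat_lit 7) (.e (nat_lit 319531) (nat_lit 16) (.e (nat_lit 286756) (nat_lit 10) (.e (nat_lit 344097) (nat_lit 18) (.e (nat_lit 5195) (nat_lit 294) (.e (nat_lit 57363) (nat_lit 1) (.e (nat_lit 57829) (nat_lit 250) .nil)))))))) (.g (nat_lit 5) .nil .nil)))) (.nd (nat_lit 5) 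
(.lf (nat_lit 31386) (.g (nat_lit 4230) (.e (nat_lit 1201) (nat_lit 88) (.e (nat_lit 65586) (nat_lit 7) (.e (nat_lit 319531) (nat_lit 16) (.e (nat_lit 286753) (nat_lit 10) (.e (nat_lit 344160) (nat_lit 37) (.e (nat_lit 647201) (nat_lit 12) (.e (nat_lit 57351) (nat_lit 0) (.e (nat_lit 7124) (nat_lit 382) .nil)))))))) (.g (nat_lit 6) .nil .nil))) 
(.lf (nat_lit 31418) (.g (nat_lit 3159) (.e (nat_lit 1201) (nat_lit 88) (.e (nat_lit 65586) (nat_lit 7) (.e (nat_lit 319531) (nat_lit 16) (.e (nat_lit 286756) (nat_lit 10) (.e (nat_lit 344160) (nat_lit 37) (.e (nat_lit 647200) (nat_lit 12) (.e (nat_lit 57352) (nat_lit 0) (.e (nat_lit 7122) (nat_lit 382) .nil)))))))) (.g (nat_lit 5) .nil .nil)))))) 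
(.nd (nat_lit 3) (.nd (nat_lit 4) (.nd (nat_lit 5) 
(.lf (nat_lit 31366) (.g (nat_lit 4100) (.e (nat_lit 1201) (nat_lit 88) (.e (nat_lit 65586) (nat_lit 7) (.e (nat_lit 319531) (nat_lit 16) (.e (nat_lit 286751) (nat_lit 10) (.e (nat_lit 344097) (nat_lit 18) (.e (nat_lit 5195) (nat_lit 294) (.e (nat_lit 57368) (nat_lit 1) (.e (nat_lit 57829) (nat_lit 250) .nil)))))))) (.g (nat_lit 8) .nil .nil))) 
(.lf (nat_lit 31398) (.g (nat_lit 2855) (.e (nat_lit 1201) (nat_lit 88) (.e (nat_lit 65586) (nat_lit 7) (.e (nat_lit 319531) (nat_lit 16) (.e (nat_lit 286756) (nat_lit 10) (.e (nat_lit 344087) (nat_lit 18) .nil))))) .nil))) (.nd (nat_lit 5) 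
(.lf (nat_lit 31382) (.g (nat_lit 2841) (.e (nat_lit 1201) (nat_lit 88) (.e (nat_lit 65586) (nat_lit 7) (.e (nat_lit 319531) (nat_lit 16) (.e (nat_lit 286753) (nat_lit 10) (.e (nat_lit 344160) (nat_lit 37) (.e (nat_lit 647200) (nat_lit 12) (.e (nat_lit 57348) (nat_lit 0) (.e (nat_lit 7124) (nat_lit 382) .nil)))))))) (.g (nat_lit 4) .nil .nil))) 
(.lf (nat_lit 31414) (.g (nat_lit 3938) (.e (nat_lit 1201) (nat_lit 88) (.e (nat_lit 65586) (nat_lit 7) (.e (nat_lit 319531) (nat_lit 16) (.e (nat_lit 286756) (nat_lit 10) (.e (nat_lit 344160) (nat_lit 37) (.e (nat_lit 647200) (nat_lit 12) (.e (nat_lit 57347) (nat_lit 0) (.e (nat_lit 7125) (nat_lit 382) .nil)))))))) (.g (nat_lit 6) .nil .nil))))) (.nd (nat_lit 4) (.nd (nat_lit 5) 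
(.lf (nat_lit 31374) (.g (nat_lit 3245) (.e (nat_lit 1201) (nat_lit 88) (.e (nat_lit 65586) (nat_lit 7) (.e (nat_lit 319531) (nat_lit 16) (.e (nat_lit 286753) (nat_lit 10) (.e (nat_lit 344097) (nat_lit 18) (.e (nat_lit 5194) (nat_lit 294) (.e (nat_lit 57365) (nat_lit 1) (.e (nat_lit 57829) (nat_lit 250) .nil)))))))) (.g (nat_lit 5) .nil .nil))) 
(.lf (nat_lit 31406) (.g (nat_lit 3326) (.e (nat_lit 1201) (nat_lit 88) (.e (nat_lit 65586) (nat_lit 7) (.e (nat_lit 319531) (nat_lit 16) (.e (nat_lit 286756) (nat_lit 10) (.e (nat_lit 344097) (nat_lit 18) (.e (nat_lit 5195) (nat_lit 294) (.e (nat_lit 57367) (nat_lit 1) (.e (nat_lit 57829) (nat_lit 250) .nil)))))))) (.g (nat_lit 6) .nil .nil)))) (.nd (nat_lit 5) 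
(.lf (nat_lit 31390) (.g (nat_lit 3065) (.e (nat_lit 1201) (nat_lit 88) (.e (nat_lit 65586) (nat_lit 7) (.e (nat_lit 319531) (nat_lit 16) (.e (nat_lit 286755) (nat_lit 10) (.e (nat_lit 344097) (nat_lit 18) (.e (nat_lit 5194) (nat_lit 294) (.e (nat_lit 57368) (nat_lit 1) (.e (nat_lit 57829) (nat_lit 250) .nil)))))))) (.g (nat_lit 6) .nil .nil))) 
(.lf (nat_lit 31422) (.g (nat_lit 2494) (.e (nat_lit 1201) (nat_lit 88) (.e (nat_lit 65586) (nat_lit 7) (.e (nat_lit 319531) (nat_lit 16) (.e (nat_lit 286756) (nat_lit 10) (.e (nat_lit 344160) (nat_lit 37) (.e (nat_lit 647201) (nat_lit 12) (.e (nat_lit 57352) (nat_lit 0) (.e (nat_lit 7122) (nat_lit 382) .nil)))))))) (.g (nat_lit 4) .nil .nil)))))))) 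
(.nd (nat_lit 1) (.nd (nat_lit 2) (.nd (nat_lit 3) (.nd (nat_lit 4) (.nd (nat_lit 5) 
(.lf (nat_lit 31361) (.g (nat_lit 2539) (.e (nat_lit 1201) (nat_lit 88) (.e (nat_lit 65586) (nat_lit 7) (.e (nat_lit 319531) (nat_lit 16) (.e (nat_lit 286751) (nat_lit 10) (.e (nat_lit 344097) (nat_lit 18) (.e (nat_lit 5195) (nat_lit 294) (.e (nat_lit 57363) (nat_lit 1) (.e (nat_lit 57829) (nat_lit 250) .nil)))))))) (.g (nat_lit 5) .nil .nil))) 
(.lf (nat_lit 31393) (.g (nat_lit 2285) (.e (nat_lit 1201) (nat_lit 88) (.e (nat_lit 65586) (nat_lit 7) (.e (nat_lit 319531) (nat_lit 16) (.e (nat_lit 286755) (nat_lit 10) (.e (nat_lit 344097) (nat_lit 18) (.e (nat_lit 5195) (nat_lit 294) (.e (nat_lit 57366) (nat_lit 1) (.e (nat_lit 57830) (nat_lit 250) .nil)))))))) (.g (nat_lit 4) .nil .nil)))) (.nd (nat_lit 5) 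
(.lf (nat_lit 31377) (.g (nat_lit 3591) (.e (nat_lit 1201) (nat_lit 88) (.e (nat_lit 65586) (nat_lit 7) (.e (nat_lit 319531) (nat_lit 16) (.e (nat_lit 286753) (nat_lit 10) (.e (nat_lit 344097) (nat_lit 18) (.e (nat_lit 5195) (nat_lit 294) (.e (nat_lit 57365) (nat_lit 1) (.e (nat_lit 57829) (nat_lit 250) .nil)))))))) (.g (nat_lit 6) .nil .nil))) 
(.lf (nat_lit 31409) (.g (nat_lit 3320) (.e (nat_lit 1201) (nat_lit 88) (.e (nat_lit 65586) (nat_lit 7) (.e (nat_lit 319531) (nat_lit 16) (.e (nat_lit 286756) (nat_lit 10) (.e (nat_lit 344099) (nat_lit 18) (.e (nat_lit 5205) (nat_lit 294) (.e (nat_lit 57366) (nat_lit 1) (.e (nat_lit 57830) (nat_lit 250) .nil)))))))) (.g (nat_lit 4) .nil .nil))))) (.nd (nat_lit 4) (.nd (nat_lit 5) 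
(.lf (nat_lit 31369) (.g (nat_lit 3360) (.e (nat_lit 1201) (nat_lit 88) (.e (nat_lit 65586) (nat_lit 7) (.e (nat_lit 319531) (nat_lit 16) (.e (nat_lit 286751) (nat_lit 10) (.e (nat_lit 344160) (nat_lit 37) (.e (nat_lit 647201) (nat_lit 12) (.e (nat_lit 57351) (nat_lit 0) (.e (nat_lit 7125) (nat_lit 382) .nil)))))))) (.g (nat_lit 6) .nil .nil))) 
(.lf (nat_lit 31401) (.g (nat_lit 2913) (.e (nat_lit 1201) (nat_lit 88) (.e (nat_lit 65586) (nat_lit 7) (.e (nat_lit 319531) (nat_lit 16) (.e (nat_lit 286756) (nat_lit 10) (.e (nat_lit 344097) (nat_lit 18) (.e (nat_lit 5194) (nat_lit 294) (.e (nat_lit 57366) (nat_lit 1) (.e (nat_lit 57830) (nat_lit 250) .nil)))))))) (.g (nat_lit 5) .nil .nil)))) (.nd (nat_lit 5) 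
(.lf (nat_lit 31385) (.g (nat_lit 4356) (.e (nat_lit 1201) (nat_lit 88) (.e (nat_lit 65586) (nat_lit 7) (.e (nat_lit 319531) (nat_lit 16) (.e (nat_lit 286753) (nat_lit 10) (.e (nat_lit 344160) (nat_lit 37) (.e (nat_lit 647201) (nat_lit 12) (.e (nat_lit 57351) (nat_lit 0) (.e (nat_lit 7122) (nat_lit 382) .nil)))))))) (.g (nat_lit 6) .nil .nil))) 
(.lf (nat_lit 31417) (.g (nat_lit 3586) (.e (nat_lit 1201) (nat_lit 88) (.e (nat_lit 65586) (nat_lit 7) (.e (nat_lit 319531) (nat_lit 16) (.e (nat_lit 286756) (nat_lit 10) (.e (nat_lit 344160) (nat_lit 37) (.e (nat_lit 647200) (nat_lit 12) (.e (nat_lit 57348) (nat_lit 0) (.e (nat_lit 7125) (nat_lit 382) .nil)))))))) (.g (nat_lit 6) .nil .nil)))))) 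
(.nd (nat_lit 3) (.nd (nat_lit 4) (.nd (nat_lit 5) 
(.lf (nat_lit 31365) (.g (nat_lit 2891) (.e (nat_lit 1201) (nat_lit 88) (.e (nat_lit 65586) (nat_lit 7) (.e (nat_lit 319531) (nat_lit 16) (.e (nat_lit 286751) (nat_lit 10) (.e (nat_lit 344097) (nat_lit 18) (.e (nat_lit 5195) (nat_lit 294) (.e (nat_lit 57367) (nat_lit 1) (.e (nat_lit 57830) (nat_lit 250) .nil)))))))) (.g (nat_lit 5) .nil .nil))) 
(.lf (nat_lit 31397) (.g (nat_lit 1324) (.e (nat_lit 1201) (nat_lit 88) (.e (nat_lit 65586) (nat_lit 7) (.e (nat_lit 319531) (nat_lit 16) (.e (nat_lit 286756) (nat_lit 10) .nil)))) .nil))) (.nd (nat_lit 5) 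
(.lf (nat_lit 31381) (.g (nat_lit 3242) (.e (nat_lit 1201) (nat_lit 88) (.e (nat_lit 65586) (nat_lit 7) (.e (nat_lit 319531) (nat_lit 16) (.e (nat_lit 286753) (nat_lit 10) (.e (nat_lit 344160) (nat_lit 37) (.e (nat_lit 647200) (nat_lit 12) (.e (nat_lit 57347) (nat_lit 0) (.e (nat_lit 7125) (nat_lit 382) .nil)))))))) (.g (nat_lit 5) .nil .nil))) 
(.lf (nat_lit 31413) (.g (nat_lit 2477) (.e (nat_lit 1201) (nat_lit 88) (.e (nat_lit 65586) (nat_lit 7) (.e (nat_lit 319531) (nat_lit 16) (.e (nat_lit 286756) (nat_lit 10) (.e (nat_lit 344160) (nat_lit 37) (.e (nat_lit 647200) (nat_lit 12) (.e (nat_lit 57347) (nat_lit 0) (.e (nat_lit 7124) (nat_lit 382) .nil)))))))) (.g (nat_lit 4) .nil .nil))))) (.nd (nat_lit 4) (.nd (nat_lit 5) 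
(.lf (nat_lit 31373) (.g (nat_lit 2537) (.e (nat_lit 1201) (nat_lit 88) (.e (nat_lit 65586) (nat_lit 7) (.e (nat_lit 319531) (nat_lit 16) (.e (nat_lit 286753) (nat_lit 10) (.e (nat_lit 344097) (nat_lit 18) .nil))))) .nil)) 
(.lf (nat_lit 31405) (.g (nat_lit 3560) (.e (nat_lit 1201) (nat_lit 88) (.e (nat_lit 65586) (nat_lit 7) (.e (nat_lit 319531) (nat_lit 16) (.e (nat_lit 286756) (nat_lit 10) (.e (nat_lit 344097) (nat_lit 18) (.e (nat_lit 5195) (nat_lit 294) (.e (nat_lit 57366) (nat_lit 1) (.e (nat_lit 57830) (nat_lit 250) .nil)))))))) (.g (nat_lit 6) .nil .nil)))) (.nd (nat_lit 5) 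
(.lf (nat_lit 31389) (.g (nat_lit 3291) (.e (nat_lit 1201) (nat_lit 88) (.e (nat_lit 65586) (nat_lit 7) (.e (nat_lit 319531) (nat_lit 16) (.e (nat_lit 286755) (nat_lit 10) (.e (nat_lit 344097) (nat_lit 18) (.e (nat_lit 5194) (nat_lit 294) (.e (nat_lit 57365) (nat_lit 1) (.e (nat_lit 57830) (nat_lit 250) .nil)))))))) (.g (nat_lit 6) .nil .nil))) 
(.lf (nat_lit 31421) (.g (nat_lit 3321) (.e (nat_lit 1201) (nat_lit 88) (.e (nat_lit 65586) (nat_lit 7) (.e (nat_lit 319531) (nat_lit 16) (.e (nat_lit 286756) (nat_lit 10) (.e (nat_lit 344160) (nat_lit 37) (.e (nat_lit 647200) (nat_lit 12) (.e (nat_lit 57353) (nat_lit 0) (.e (nat_lit 7125) (nat_lit 382) .nil)))))))) (.g (nat_lit 5) .nil .nil))))))) 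
(.nd (nat_lit 2) (.nd (nat_lit 3) (.nd (nat_lit 4) (.nd (nat_lit 5) 
(.lf (nat_lit 31363) (.g (nat_lit 2831) (.e (nat_lit 1201) (nat_lit 88) (.e (nat_lit 65586) (nat_lit 7) (.e (nat_lit 319531) (nat_lit 16) (.e (nat_lit 286751) (nat_lit 10) (.e (nat_lit 344097) (nat_lit 18) (.e (nat_lit 5195) (nat_lit 294) (.e (nat_lit 57364) (nat_lit 1) (.e (nat_lit 57830) (nat_lit 250) .nil)))))))) (.g (nat_lit 5) .nil .nil))) 
(.lf (nat_lit 31395) (.g (nat_lit 2493) (.e (nat_lit 1201) (nat_lit 88) (.e (nat_lit 65586) (nat_lit 7) (.e (nat_lit 319531) (nat_lit 16) (.e (nat_lit 286755) (nat_lit 10) (.e (nat_lit 344160) (nat_lit 37) (.e (nat_lit 647201) (nat_lit 12) (.e (nat_lit 57351) (nat_lit 0) (.e (nat_lit 7122) (nat_lit 382) .nil)))))))) (.g (nat_lit 4) .nil .nil)))) (.nd (nat_lit 5) 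
(.lf (nat_lit 31379) (.g (nat_lit 3372) (.e (nat_lit 1201) (nat_lit 88) (.e (nat_lit 65586) (nat_lit 7) (.e (nat_lit 319531) (nat_lit 16) (.e (nat_lit 286753) (nat_lit 10) (.e (nat_lit 344097) (nat_lit 18) (.e (nat_lit 5195) (nat_lit 294) (.e (nat_lit 57368) (nat_lit 1) (.e (nat_lit 57829) (nat_lit 250) .nil)))))))) (.g (nat_lit 6) .nil .nil))) 
(.lf (nat_lit 31411) (.g (nat_lit 3044) (.e (nat_lit 1201) (nat_lit 88) (.e (nat_lit 65586) (nat_lit 7) (.e (nat_lit 319531) (nat_lit 16) (.e (nat_lit 286756) (nat_lit 10) (.e (nat_lit 344154) (nat_lit 35) (.e (nat_lit 630812) (nat_lit 13) (.e (nat_lit 1178) (nat_lit 87) (.e (nat_lit 57830) (nat_lit 250) .nil)))))))) (.g (nat_lit 4) .nil .nil))))) (.nd (nat_lit 4) (.nd (nat_lit 5) 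
(.lf (nat_lit 31371) (.g (nat_lit 2678) (.e (nat_lit 1201) (nat_lit 88) (.e (nat_lit 65586) (nat_lit 7) (.e (nat_lit 319531) (nat_lit 16) (.e (nat_lit 286751) (nat_lit 10) (.e (nat_lit 344161) (nat_lit 37) (.e (nat_lit 647201) (nat_lit 12) (.e (nat_lit 57351) (nat_lit 0) (.e (nat_lit 7124) (nat_lit 382) .nil)))))))) (.g (nat_lit 5) .nil .nil))) 
(.lf (nat_lit 31403) (.g (nat_lit 3560) (.e (nat_lit 1201) (nat_lit 88) (.e (nat_lit 65586) (nat_lit 7) (.e (nat_lit 319531) (nat_lit 16) (.e (nat_lit 286756) (nat_lit 10) (.e (nat_lit 344097) (nat_lit 18) (.e (nat_lit 5195) (nat_lit 294) (.e (nat_lit 57363) (nat_lit 1) (.e (nat_lit 57830) (nat_lit 250) .nil)))))))) (.g (nat_lit 6) .nil .nil)))) (.nd (nat_lit 5) 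
(.lf (nat_lit 31387) (.g (nat_lit 1723) (.e (nat_lit 1201) (nat_lit 88) (.e (nat_lit 65586) (nat_lit 7) (.e (nat_lit 319531) (nat_lit 16) (.e (nat_lit 286755) (nat_lit 10) .nil)))) .nil)) 
(.lf (nat_lit 31419) (.g (nat_lit 2323) (.e (nat_lit 1201) (nat_lit 88) (.e (nat_lit 65586) (nat_lit 7) (.e (nat_lit 319531) (nat_lit 16) (.e (nat_lit 286756) (nat_lit 10) (.e (nat_lit 344160) (nat_lit 37) (.e (nat_lit 647200) (nat_lit 12) (.e (nat_lit 57353) (nat_lit 0) (.e (nat_lit 7122) (nat_lit 382) .nil)))))))) (.g (nat_lit 4) .nil .nil)))))) 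
(.nd (nat_lit 3) (.nd (nat_lit 4) (.nd (nat_lit 5) 
(.lf (nat_lit 31367) (.g (nat_lit 1897) (.e (nat_lit 1201) (nat_lit 88) (.e (nat_lit 65586) (nat_lit 7) (.e (nat_lit 319531) (nat_lit 16) (.e (nat_lit 286751) (nat_lit 10) (.e (nat_lit 344160) (nat_lit 37) .nil))))) .nil)) 
(.lf (nat_lit 31399) (.g (nat_lit 2250) (.e (nat_lit 1201) (nat_lit 88) (.e (nat_lit 65586) (nat_lit 7) (.e (nat_lit 319531) (nat_lit 16) (.e (nat_lit 286756) (nat_lit 10) (.e (nat_lit 344097) (nat_lit 18) .nil))))) .nil))) (.nd (nat_lit 5) 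
(.lf (nat_lit 31383) (.g (nat_lit 2617) (.e (nat_lit 1201) (nat_lit 88) (.e (nat_lit 65586) (nat_lit 7) (.e (nat_lit 319531) (nat_lit 16) (.e (nat_lit 286753) (nat_lit 10) (.e (nat_lit 344160) (nat_lit 37) (.e (nat_lit 647200) (nat_lit 12) (.e (nat_lit 57352) (nat_lit 0) (.e (nat_lit 7122) (nat_lit 382) .nil)))))))) (.g (nat_lit 4) .nil .nil))) 
(.lf (nat_lit 31415) (.g (nat_lit 2591) (.e (nat_lit 1201) (nat_lit 88) (.e (nat_lit 65586) (nat_lit 7) (.e (nat_lit 319531) (nat_lit 16) (.e (nat_lit 286756) (nat_lit 10) (.e (nat_lit 344160) (nat_lit 37) (.e (nat_lit 647200) (nat_lit 12) (.e (nat_lit 57348) (nat_lit 0) (.e (nat_lit 7122) (nat_lit 382) .nil)))))))) (.g (nat_lit 4) .nil .nil))))) (.nd (nat_lit 4) (.nd (nat_lit 5) 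
(.lf (nat_lit 31375) (.g (nat_lit 3492) (.e (nat_lit 1201) (nat_lit 88) (.e (nat_lit 65586) (nat_lit 7) (.e (nat_lit 319531) (nat_lit 16) (.e (nat_lit 286753) (nat_lit 10) (.e (nat_lit 344097) (nat_lit 18) (.e (nat_lit 5194) (nat_lit 294) (.e (nat_lit 57365) (nat_lit 1) (.e (nat_lit 57830) (nat_lit 250) .nil)))))))) (.g (nat_lit 6) .nil .nil))) 
(.lf (nat_lit 31407) (.g (nat_lit 3291) (.e (nat_lit 1201) (nat_lit 88) (.e (nat_lit 65586) (nat_lit 7) (.e (nat_lit 319531) (nat_lit 16) (.e (nat_lit 286756) (nat_lit 10) (.e (nat_lit 344097) (nat_lit 18) (.e (nat_lit 5195) (nat_lit 294) (.e (nat_lit 57367) (nat_lit 1) (.e (nat_lit 57830) (nat_lit 250) .nil)))))))) (.g (nat_lit 5) .nil .nil)))) (.nd (nat_lit 5) 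
(.lf (nat_lit 31391) (.g (nat_lit 3537) (.e (nat_lit 1201) (nat_lit 88) (.e (nat_lit 65586) (nat_lit 7) (.e (nat_lit 319531) (nat_lit 16) (.e (nat_lit 286755) (nat_lit 10) (.e (nat_lit 344097) (nat_lit 18) (.e (nat_lit 5195) (nat_lit 294) (.e (nat_lit 57365) (nat_lit 1) (.e (nat_lit 57829) (nat_lit 250) .nil)))))))) (.g (nat_lit 6) .nil .nil))) 
(.lf (nat_lit 31423) (.g (nat_lit 2628) (.e (nat_lit 1201) (nat_lit 88) (.e (nat_lit 65586) (nat_lit 7) (.e (nat_lit 319531) (nat_lit 16) (.e (nat_lit 286756) (nat_lit 10) (.e (nat_lit 344160) (nat_lit 37) (.e (nat_lit 647201) (nat_lit 12) (.e (nat_lit 57353) (nat_lit 0) (.e (nat_lit 7124) (nat_lit 382) .nil)))))))) (.g (nat_lit 4) .nil .nil)))))))))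

noncomputable def tv439 : DT := (.nd (nat_lit 0) (.nd (nat_lit 1) (.nd (nat_lit 2) (.nd (nat_lit 3) (.nd (nat_lit 4) (.nd (nat_lit 5) 
(.lf (nat_lit 31424) (.g (nat_lit 2909) (.e (nat_lit 1201) (nat_lit 88) (.e (nat_lit 65586) (nat_lit 7) (.e (nat_lit 319531) (nat_lit 16) (.e (nat_lit 286756) (nat_lit 10) (.e (nat_lit 344160) (nat_lit 37) (.e (nat_lit 647201) (nat_lit 12) (.e (nat_lit 57353) (nat_lit 0) (.e (nat_lit 7125) (nat_lit 382) .nil)))))))) (.g (nat_lit 5) .nil .nil))) 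
(.lf (nat_lit 31456) (.g (nat_lit 2039) (.e (nat_lit 1201) (nat_lit 88) (.e (nat_lit 65586) (nat_lit 7) (.e (nat_lit 319533) (nat_lit 16) (.e (nat_lit 286753) (nat_lit 10) (.e (nat_lit 344160) (nat_lit 37) (.e (nat_lit 647200) (nat_lit 12) (.e (nat_lit 57353) (nat_lit 0) (.e (nat_lit 7124) (nat_lit 382) .nil)))))))) (.g (nat_lit 4) .nil .nil)))) (.nd (nat_lit 5) 
(.lf (nat_lit 31440) (.g (nat_lit 4305) (.e (nat_lit 1201) (nat_lit 88) (.e (nat_lit 65586) (nat_lit 7) (.e (nat_lit 319531) (nat_lit 16) (.e (nat_lit 286767) (nat_lit 27) (.e (nat_lit 426107) (nat_lit 1) (.e (nat_lit 164325) (nat_lit 230) (.e (nat_lit 163864) (nat_lit 1) (.e (nat_lit 164383) (nat_lit 254) .nil)))))))) (.g (nat_lit 6) .nil .nil))) 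
(.lf (nat_lit 31472) (.g (nat_lit 1677) (.e (nat_lit 1201) (nat_lit 88) (.e (nat_lit 65586) (nat_lit 7) (.e (nat_lit 319534) (nat_lit 16) (.e (nat_lit 286752) (nat_lit 10) .nil)))) .nil)))) (.nd (nat_lit 4) (.nd (nat_lit 5) 
(.lf (nat_lit 31432) (.g (nat_lit 1012) (.e (nat_lit 1201) (nat_lit 88) (.e (nat_lit 65586) (nat_lit 7) (.e (nat_lit 319531) (nat_lit 16) (.e (nat_lit 286763) (nat_lit 15) .nil)))) .nil)) 
(.lf (nat_lit 31464) (.g (nat_lit 3403) (.e (nat_lit 1201) (nat_lit 88) (.e (nat_lit 65586) (nat_lit 7) (.e (nat_lit 319534) (nat_lit 16) (.e (nat_lit 286749) (nat_lit 9) (.e (nat_lit 335997) (nat_lit 1) (.e (nat_lit 57847) (nat_lit 252) (.e (nat_lit 57365) (nat_lit 1) (.e (nat_lit 57829) (nat_lit 250) .nil)))))))) (.g (nat_lit 5) .nil .nil)))) (.nd (nat_lit 5) 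
(.lf (nat_lit 31448) (.g (nat_lit 2003) (.e (nat_lit 1201) (nat_lit 88) (.e (nat_lit 65586) (nat_lit 7) (.e (nat_lit 319533) (nat_lit 16) (.e (nat_lit 286753) (nat_lit 10) (.e (nat_lit 344097) (nat_lit 18) (.e (nat_lit 5195) (nat_lit 294) (.e (nat_lit 57363) (nat_lit 1) (.e (nat_lit 57829) (nat_lit 250) .nil)))))))) (.g (nat_lit 4) .nil .nil))) 
(.lf (nat_lit 31480) (.g (nat_lit 3326) (.e (nat_lit 1201) (nat_lit 88) (.e (nat_lit 65586) (nat_lit 7) (.e (nat_lit 319534) (nat_lit 16) (.e (nat_lit 286756) (nat_lit 10) (.e (nat_lit 344097) (nat_lit 18) (.e (nat_lit 5194) (nat_lit 294) (.e (nat_lit 57364) (nat_lit 1) (.e (nat_lit 57830) (nat_lit 250) .nil)))))))) (.g (nat_lit 6) .nil .nil)))))) 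
(.nd (nat_lit 3) (.nd (nat_lit 4) (.nd (nat_lit 5) 
(.lf (nat_lit 31428) (.g (nat_lit 2630) (.e (nat_lit 1201) (nat_lit 88) (.e (nat_lit 65586) (nat_lit 7) (.e (nat_lit 319531) (nat_lit 16) (.e (nat_lit 286759) (nat_lit 12) (.e (nat_lit 385089) (nat_lit 48) (.e (nat_lit 770058) (nat_lit 5) (.e (nat_lit 1183) (nat_lit 87) (.e (nat_lit 57830) (nat_lit 250) .nil)))))))) (.g (nat_lit 4) .nil .nil))) 
(.lf (nat_lit 31460) (.g (nat_lit 2428) (.e (nat_lit 1201) (nat_lit 88) (.e (nat_lit 65586) (nat_lit 7) (.e (nat_lit 319534) (nat_lit 16) (.e (nat_lit 286747) (nat_lit 9) .nil)))) .nil))) (.nd (nat_lit 5) 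
(.lf (nat_lit 31444) (.g (nat_lit 2833) (.e (nat_lit 1201) (nat_lit 88) (.e (nat_lit 65586) (nat_lit 7) (.e (nat_lit 319531) (nat_lit 16) (.e (nat_lit 286767) (nat_lit 27) (.e (nat_lit 426108) (nat_lit 1) (.e (nat_lit 164332) (nat_lit 230) (.e (nat_lit 163862) (nat_lit 1) (.e (nat_lit 164383) (nat_lit 254) .nil)))))))) (.g (nat_lit 4) .nil .nil))) 
(.lf (nat_lit 31476) (.g (nat_lit 2279) (.e (nat_lit 1201) (nat_lit 88) (.e (nat_lit 65586) (nat_lit 7) (.e (nat_lit 319534) (nat_lit 16) (.e (nat_lit 286755) (nat_lit 10) .nil)))) .nil)))) (.nd (nat_lit 4) (.nd (nat_lit 5) 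
(.lf (nat_lit 31436) (.g (nat_lit 2951) (.e (nat_lit 1201) (nat_lit 88) (.e (nat_lit 65586) (nat_lit 7) (.e (nat_lit 319531) (nat_lit 16) (.e (nat_lit 286767) (nat_lit 27) (.e (nat_lit 426098) (nat_lit 1) (.e (nat_lit 164325) (nat_lit 230) (.e (nat_lit 163861) (nat_lit 1) (.e (nat_lit 164384) (nat_lit 254) .nil)))))))) (.g (nat_lit 4) .nil .nil))) 
(.lf (nat_lit 31468) (.g (nat_lit 2846) (.e (nat_lit 1201) (nat_lit 88) (.e (nat_lit 65586) (nat_lit 7) (.e (nat_lit 319534) (nat_lit 16) (.e (nat_lit 286749) (nat_lit 9) (.e (nat_lit 335997) (nat_lit 1) (.e (nat_lit 57851) (nat_lit 252) (.e (nat_lit 57364) (nat_lit 1) (.e (nat_lit 57830) (nat_lit 250) .nil)))))))) (.g (nat_lit 4) .nil .nil)))) (.nd (nat_lit 5) 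
(.lf (nat_lit 31452) (.g (nat_lit 1537) (.e (nat_lit 1201) (nat_lit 88) (.e (nat_lit 65586) (nat_lit 7) (.e (nat_lit 319533) (nat_lit 16) (.e (nat_lit 286753) (nat_lit 10) (.e (nat_lit 344160) (nat_lit 37) .nil))))) .nil)) 
(.lf (nat_lit 31484) (.g (nat_lit 3291) (.e (nat_lit 1201) (nat_lit 88) (.e (nat_lit 65586) (nat_lit 7) (.e (nat_lit 319534) (nat_lit 16) (.e (nat_lit 286756) (nat_lit 10) (.e (nat_lit 344097) (nat_lit 18) (.e (nat_lit 5195) (nat_lit 294) (.e (nat_lit 57364) (nat_lit 1) (.e (nat_lit 57830) (nat_lit 250) .nil)))))))) (.g (nat_lit 5) .nil .nil))))))) 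
(.nd (nat_lit 2) (.nd (nat_lit 3) (.nd (nat_lit 4) (.nd (nat_lit 5) 
(.lf (nat_lit 31426) (.g (nat_lit 3388) (.e (nat_lit 1201) (nat_lit 88) (.e (nat_lit 65586) (nat_lit 7) (.e (nat_lit 319531) (nat_lit 16) (.e (nat_lit 286757) (nat_lit 11) (.e (nat_lit 368662) (nat_lit 18) (.e (nat_lit 5195) (nat_lit 294) (.e (nat_lit 57368) (nat_lit 1) (.e (nat_lit 57829) (nat_lit 250) .nil)))))))) (.g (nat_lit 6) .nil .nil))) 
(.lf (nat_lit 31458) (.g (nat_lit 2232) (.e (nat_lit 1201) (nat_lit 88) (.e (nat_lit 65586) (nat_lit 7) (.e (nat_lit 319534) (nat_lit 16) (.e (nat_lit 286742) (nat_lit 9) .nil)))) .nil))) (.nd (nat_lit 5) 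
(.lf (nat_lit 31442) (.g (nat_lit 2845) (.e (nat_lit 1201) (nat_lit 88) (.e (nat_lit 65586) (nat_lit 7) (.e (nat_lit 319531) (nat_lit 16) (.e (nat_lit 286767) (nat_lit 27) (.e (nat_lit 426107) (nat_lit 1) (.e (nat_lit 164327) (nat_lit 230) (.e (nat_lit 163861) (nat_lit 1) (.e (nat_lit 164383) (nat_lit 254) .nil)))))))) (.g (nat_lit 4) .nil .nil))) 
(.lf (nat_lit 31474) (.g (nat_lit 2870) (.e (nat_lit 1201) (nat_lit 88) (.e (nat_lit 65586) (nat_lit 7) (.e (nat_lit 319534) (nat_lit 16) (.e (nat_lit 286753) (nat_lit 10) (.e (nat_lit 344160) (nat_lit 37) (.e (nat_lit 647201) (nat_lit 12) (.e (nat_lit 57351) (nat_lit 0) (.e (nat_lit 7122) (nat_lit 382) .nil)))))))) (.g (nat_lit 4) .nil .nil))))) (.nd (nat_lit 4) (.nd (nat_lit 5) 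
(.lf (nat_lit 31434) (.g (nat_lit 3688) (.e (nat_lit 1201) (nat_lit 88) (.e (nat_lit 65586) (nat_lit 7) (.e (nat_lit 319531) (nat_lit 16) (.e (nat_lit 286767) (nat_lit 27) (.e (nat_lit 426098) (nat_lit 1) (.e (nat_lit 164325) (nat_lit 230) (.e (nat_lit 163861) (nat_lit 1) (.e (nat_lit 164379) (nat_lit 254) .nil)))))))) (.g (nat_lit 6) .nil .nil))) 
(.lf (nat_lit 31466) (.g (nat_lit 3376) (.e (nat_lit 1201) (nat_lit 88) (.e (nat_lit 65586) (nat_lit 7) (.e (nat_lit 319534) (nat_lit 16) (.e (nat_lit 286749) (nat_lit 9) (.e (nat_lit 335997) (nat_lit 1) (.e (nat_lit 57849) (nat_lit 252) (.e (nat_lit 57365) (nat_lit 1) (.e (nat_lit 57830) (nat_lit 250) .nil)))))))) (.g (nat_lit 5) .nil .nil)))) (.nd (nat_lit 5) 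
(.lf (nat_lit 31450) (.g (nat_lit 2592) (.e (nat_lit 1201) (nat_lit 88) (.e (nat_lit 65586) (nat_lit 7) (.e (nat_lit 319533) (nat_lit 16) (.e (nat_lit 286753) (nat_lit 10) (.e (nat_lit 344097) (nat_lit 18) (.e (nat_lit 5195) (nat_lit 294) (.e (nat_lit 57366) (nat_lit 1) (.e (nat_lit 57830) (nat_lit 250) .nil)))))))) (.g (nat_lit 6) .nil .nil))) 
(.lf (nat_lit 31482) (.g (nat_lit 2913) (.e (nat_lit 1201) (nat_lit 88) (.e (nat_lit 65586) (nat_lit 7) (.e (nat_lit 319534) (nat_lit 16) (.e (nat_lit 286756) (nat_lit 10) (.e (nat_lit 344097) (nat_lit 18) (.e (nat_lit 5195) (nat_lit 294) (.e (nat_lit 57363) (nat_lit 1) (.e (nat_lit 57829) (nat_lit 250) .nil)))))))) (.g (nat_lit 5) .nil .nil)))))) 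
(.nd (nat_lit 3) (.nd (nat_lit 4) (.nd (nat_lit 5) 
(.lf (nat_lit 31430) (.g (nat_lit 3234) (.e (nat_lit 1201) (nat_lit 88) (.e (nat_lit 65586) (nat_lit 7) (.e (nat_lit 319531) (nat_lit 16) (.e (nat_lit 286759) (nat_lit 12) (.e (nat_lit 385107) (nat_lit 51) (.e (nat_lit 802560) (nat_lit 1) (.e (nat_lit 57827) (nat_lit 250) .nil))))))) (.g (nat_lit 5) .nil .nil))) 
(.lf (nat_lit 31462) (.g (nat_lit 2930) (.e (nat_lit 1201) (nat_lit 88) (.e (nat_lit 65586) (nat_lit 7) (.e (nat_lit 319534) (nat_lit 16) (.e (nat_lit 286749) (nat_lit 9) (.e (nat_lit 335997) (nat_lit 1) (.e (nat_lit 57844) (nat_lit 252) (.e (nat_lit 57364) (nat_lit 1) (.e (nat_lit 57829) (nat_lit 250) .nil)))))))) (.g (nat_lit 5) .nil .nil)))) (.nd (nat_lit 5) 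
(.lf (nat_lit 31446) (.g (nat_lit 2417) (.e (nat_lit 1201) (nat_lit 88) (.e (nat_lit 65586) (nat_lit 7) (.e (nat_lit 319533) (nat_lit 16) (.e (nat_lit 286753) (nat_lit 10) (.e (nat_lit 344097) (nat_lit 18) (.e (nat_lit 5194) (nat_lit 294) (.e (nat_lit 57364) (nat_lit 1) (.e (nat_lit 57830) (nat_lit 250) .nil)))))))) (.g (nat_lit 5) .nil .nil))) 
(.lf (nat_lit 31478) (.g (nat_lit 2523) (.e (nat_lit 1201) (nat_lit 88) (.e (nat_lit 65586) (nat_lit 7) (.e (nat_lit 319534) (nat_lit 16) (.e (nat_lit 286756) (nat_lit 10) (.e (nat_lit 344087) (nat_lit 18) .nil))))) .nil)))) (.nd (nat_lit 4) (.nd (nat_lit 5) 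
(.lf (nat_lit 31438) (.g (nat_lit 3352) (.e (nat_lit 1201) (nat_lit 88) (.e (nat_lit 65586) (nat_lit 7) (.e (nat_lit 319531) (nat_lit 16) (.e (nat_lit 286767) (nat_lit 27) (.e (nat_lit 426107) (nat_lit 1) (.e (nat_lit 164325) (nat_lit 230) (.e (nat_lit 163861) (nat_lit 1) (.e (nat_lit 164379) (nat_lit 254) .nil)))))))) (.g (nat_lit 5) .nil .nil))) 
(.lf (nat_lit 31470) (.g (nat_lit 2258) (.e (nat_lit 1201) (nat_lit 88) (.e (nat_lit 65586) (nat_lit 7) (.e (nat_lit 319534) (nat_lit 16) (.e (nat_lit 286751) (nat_lit 10) .nil)))) .nil))) (.nd (nat_lit 5) 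
(.lf (nat_lit 31454) (.g (nat_lit 2589) (.e (nat_lit 1201) (nat_lit 88) (.e (nat_lit 65586) (nat_lit 7) (.e (nat_lit 319533) (nat_lit 16) (.e (nat_lit 286753) (nat_lit 10) (.e (nat_lit 344160) (nat_lit 37) (.e (nat_lit 647200) (nat_lit 12) (.e (nat_lit 57348) (nat_lit 0) (.e (nat_lit 7125) (nat_lit 382) .nil)))))))) (.g (nat_lit 5) .nil .nil))) 
(.lf (nat_lit 31486) (.g (nat_lit 3326) (.e (nat_lit 1201) (nat_lit 88) (.e (nat_lit 65586) (nat_lit 7) (.e (nat_lit 319534) (nat_lit 16) (.e (nat_lit 286756) (nat_lit 10) (.e (nat_lit 344097) (nat_lit 18) (.e (nat_lit 5195) (nat_lit 294) (.e (nat_lit 57367) (nat_lit 1) (.e (nat_lit 57829) (nat_lit 250) .nil)))))))) (.g (nat_lit 6) .nil .nil)))))))) 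
(.nd (nat_lit 1) (.nd (nat_lit 2) (.nd (nat_lit 3) (.nd (nat_lit 4) (.nd (nat_lit 5) 
(.lf (nat_lit 31425) (.g (nat_lit 3612) (.e (nat_lit 1201) (nat_lit 88) (.e (nat_lit 65586) (nat_lit 7) (.e (nat_lit 319531) (nat_lit 16) (.e (nat_lit 286757) (nat_lit 11) (.e (nat_lit 368662) (nat_lit 18) (.e (nat_lit 5195) (nat_lit 294) (.e (nat_lit 57365) (nat_lit 1) (.e (nat_lit 57829) (nat_lit 250) .nil)))))))) (.g (nat_lit 7) .nil .nil))) 
(.lf (nat_lit 31457) (.g (nat_lit 1924) (.e (nat_lit 1201) (nat_lit 88) (.e (nat_lit 65586) (nat_lit 7) (.e (nat_lit 319533) (nat_lit 16) (.e (nat_lit 286753) (nat_lit 10) (.e (nat_lit 344160) (nat_lit 37) (.e (nat_lit 647201) (nat_lit 12) (.e (nat_lit 57353) (nat_lit 0) (.e (nat_lit 7125) (nat_lit 382) .nil)))))))) (.g (nat_lit 4) .nil .nil)))) (.nd (nat_lit 5) 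
(.lf (nat_lit 31441) (.g (nat_lit 3788) (.e (nat_lit 1201) (nat_lit 88) (.e (nat_lit 65586) (nat_lit 7) (.e (nat_lit 319531) (nat_lit 16) (.e (nat_lit 286767) (nat_lit 27) (.e (nat_lit 426107) (nat_lit 1) (.e (nat_lit 164326) (nat_lit 230) (.e (nat_lit 163864) (nat_lit 1) (.e (nat_lit 164383) (nat_lit 254) .nil)))))))) (.g (nat_lit 6) .nil .nil))) 
(.lf (nat_lit 31473) (.g (nat_lit 2174) (.e (nat_lit 1201) (nat_lit 88) (.e (nat_lit 65586) (nat_lit 7) (.e (nat_lit 319534) (nat_lit 16) (.e (nat_lit 286753) (nat_lit 10) .nil)))) .nil)))) (.nd (nat_lit 4) (.nd (nat_lit 5) 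
(.lf (nat_lit 31433) (.g (nat_lit 1590) (.e (nat_lit 1201) (nat_lit 88) (.e (nat_lit 65586) (nat_lit 7) (.e (nat_lit 319531) (nat_lit 16) (.e (nat_lit 286763) (nat_lit 15) (.e (nat_lit 7936) (nat_lit 407) .nil))))) .nil)) 
(.lf (nat_lit 31465) (.g (nat_lit 2705) (.e (nat_lit 1201) (nat_lit 88) (.e (nat_lit 65586) (nat_lit 7) (.e (nat_lit 319534) (nat_lit 16) (.e (nat_lit 286749) (nat_lit 9) (.e (nat_lit 335997) (nat_lit 1) (.e (nat_lit 57847) (nat_lit 252) (.e (nat_lit 57368) (nat_lit 1) (.e (nat_lit 57830) (nat_lit 250) .nil)))))))) (.g (nat_lit 4) .nil .nil)))) (.nd (nat_lit 5) 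
(.lf (nat_lit 31449) (.g (nat_lit 2323) (.e (nat_lit 1201) (nat_lit 88) (.e (nat_lit 65586) (nat_lit 7) (.e (nat_lit 319533) (nat_lit 16) (.e (nat_lit 286753) (nat_lit 10) (.e (nat_lit 344097) (nat_lit 18) (.e (nat_lit 5195) (nat_lit 294) (.e (nat_lit 57364) (nat_lit 1) (.e (nat_lit 57830) (nat_lit 250) .nil)))))))) (.g (nat_lit 5) .nil .nil))) 
(.lf (nat_lit 31481) (.g (nat_lit 2913) (.e (nat_lit 1201) (nat_lit 88) (.e (nat_lit 65586) (nat_lit 7) (.e (nat_lit 319534) (nat_lit 16) (.e (nat_lit 286756) (nat_lit 10) (.e (nat_lit 344097) (nat_lit 18) (.e (nat_lit 5194) (nat_lit 294) (.e (nat_lit 57366) (nat_lit 1) (.e (nat_lit 57830) (nat_lit 250) .nil)))))))) (.g (nat_lit 5) .nil .nil)))))) 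
(.nd (nat_lit 3) (.nd (nat_lit 4) (.nd (nat_lit 5) 
(.lf (nat_lit 31429) (.g (nat_lit 2239) (.e (nat_lit 1201) (nat_lit 88) (.e (nat_lit 65586) (nat_lit 7) (.e (nat_lit 319531) (nat_lit 16) (.e (nat_lit 286759) (nat_lit 12) (.e (nat_lit 385107) (nat_lit 51) (.e (nat_lit 802560) (nat_lit 1) (.e (nat_lit 57822) (nat_lit 250) .nil))))))) (.g (nat_lit 4) .nil .nil))) 
(.lf (nat_lit 31461) (.g (nat_lit 2347) (.e (nat_lit 1201) (nat_lit 88) (.e (nat_lit 65586) (nat_lit 7) (.e (nat_lit 319534) (nat_lit 16) (.e (nat_lit 286749) (nat_lit 9) (.e (nat_lit 335997) (nat_lit 1) .nil))))) .nil))) (.nd (nat_lit 5) 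
(.lf (nat_lit 31445) (.g (nat_lit 1099) (.e (nat_lit 1201) (nat_lit 88) (.e (nat_lit 65586) (nat_lit 7) (.e (nat_lit 319533) (nat_lit 16) (.e (nat_lit 286753) (nat_lit 10) .nil)))) .nil)) 
(.lf (nat_lit 31477) (.g (nat_lit 1392) (.e (nat_lit 1201) (nat_lit 88) (.e (nat_lit 65586) (nat_lit 7) (.e (nat_lit 319534) (nat_lit 16) (.e (nat_lit 286756) (nat_lit 10) .nil)))) .nil)))) (.nd (nat_lit 4) (.nd (nat_lit 5) 
(.lf (nat_lit 31437) (.g (nat_lit 4558) (.e (nat_lit 1201) (nat_lit 88) (.e (nat_lit 65586) (nat_lit 7) (.e (nat_lit 319531) (nat_lit 16) (.e (nat_lit 286767) (nat_lit 27) (.e (nat_lit 426098) (nat_lit 1) (.e (nat_lit 164325) (nat_lit 230) (.e (nat_lit 163864) (nat_lit 1) (.e (nat_lit 164383) (nat_lit 254) .nil)))))))) (.g (nat_lit 7) .nil .nil))) 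
(.lf (nat_lit 31469) (.g (nat_lit 2414) (.e (nat_lit 1201) (nat_lit 88) (.e (nat_lit 65586) (nat_lit 7) (.e (nat_lit 319534) (nat_lit 16) (.e (nat_lit 286750) (nat_lit 9) .nil)))) .nil))) (.nd (nat_lit 5) 
(.lf (nat_lit 31453) (.g (nat_lit 2328) (.e (nat_lit 1201) (nat_lit 88) (.e (nat_lit 65586) (nat_lit 7) (.e (nat_lit 319533) (nat_lit 16) (.e (nat_lit 286753) (nat_lit 10) (.e (nat_lit 344160) (nat_lit 37) (.e (nat_lit 647200) (nat_lit 12) (.e (nat_lit 57348) (nat_lit 0) (.e (nat_lit 7124) (nat_lit 382) .nil)))))))) (.g (nat_lit 5) .nil .nil))) 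
(.lf (nat_lit 31485) (.g (nat_lit 3560) (.e (nat_lit 1201) (nat_lit 88) (.e (nat_lit 65586) (nat_lit 7) (.e (nat_lit 319534) (nat_lit 16) (.e (nat_lit 286756) (nat_lit 10) (.e (nat_lit 344097) (nat_lit 18) (.e (nat_lit 5195) (nat_lit 294) (.e (nat_lit 57366) (nat_lit 1) (.e (nat_lit 57830) (nat_lit 250) .nil)))))))) (.g (nat_lit 6) .nil .nil))))))) 
(.nd (nat_lit 2) (.nd (nat_lit 3) (.nd (nat_lit 4) (.nd (nat_lit 5) 
(.lf (nat_lit 31427) (.g (nat_lit 1189) (.e (nat_lit 1201) (nat_lit 88) (.e (nat_lit 65586) (nat_lit 7) (.e (nat_lit 319531) (nat_lit 16) (.e (nat_lit 286759) (nat_lit 12) .nil)))) .nil)) 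
(.lf (nat_lit 31459) (.g (nat_lit 2419) (.e (nat_lit 1201) (nat_lit 88) (.e (nat_lit 65586) (nat_lit 7) (.e (nat_lit 319534) (nat_lit 16) (.e (nat_lit 286744) (nat_lit 9) .nil)))) .nil))) (.nd (nat_lit 5) 
(.lf (nat_lit 31443) (.g (nat_lit 3122) (.e (nat_lit 1201) (nat_lit 88) (.e (nat_lit 65586) (nat_lit 7) (.e (nat_lit 319531) (nat_lit 16) (.e (nat_lit 286767) (nat_lit 27) (.e (nat_lit 426108) (nat_lit 1) (.e (nat_lit 164332) (nat_lit 230) (.e (nat_lit 163860) (nat_lit 1) (.e (nat_lit 164383) (nat_lit 254) .nil)))))))) (.g (nat_lit 5) .nil .nil))) 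
(.lf (nat_lit 31475) (.g (nat_lit 2910) (.e (nat_lit 1201) (nat_lit 88) (.e (nat_lit 65586) (nat_lit 7) (.e (nat_lit 319534) (nat_lit 16) (.e (nat_lit 286753) (nat_lit 10) (.e (nat_lit 344160) (nat_lit 37) (.e (nat_lit 647201) (nat_lit 12) (.e (nat_lit 57351) (nat_lit 0) (.e (nat_lit 7125) (nat_lit 382) .nil)))))))) (.g (nat_lit 4) .nil .nil))))) (.nd (nat_lit 4) (.nd (nat_lit 5) 
(.lf (nat_lit 31435) (.g (nat_lit 4137) (.e (nat_lit 1201) (nat_lit 88) (.e (nat_lit 65586) (nat_lit 7) (.e (nat_lit 319531) (nat_lit 16) (.e (nat_lit 286767) (nat_lit 27) (.e (nat_lit 426098) (nat_lit 1) (.e (nat_lit 164325) (nat_lit 230) (.e (nat_lit 163861) (nat_lit 1) (.e (nat_lit 164383) (nat_lit 254) .nil)))))))) (.g (nat_lit 6) .nil .nil))) 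
(.lf (nat_lit 31467) (.g (nat_lit 2809) (.e (nat_lit 1201) (nat_lit 88) (.e (nat_lit 65586) (nat_lit 7) (.e (nat_lit 319534) (nat_lit 16) (.e (nat_lit 286749) (nat_lit 9) (.e (nat_lit 335997) (nat_lit 1) (.e (nat_lit 57849) (nat_lit 252) (.e (nat_lit 57368) (nat_lit 1) (.e (nat_lit 57830) (nat_lit 250) .nil)))))))) (.g (nat_lit 4) .nil .nil)))) (.nd (nat_lit 5) 
(.lf (nat_lit 31451) (.g (nat_lit 2369) (.e (nat_lit 1201) (nat_lit 88) (.e (nat_lit 65586) (nat_lit 7) (.e (nat_lit 319533) (nat_lit 16) (.e (nat_lit 286753) (nat_lit 10) (.e (nat_lit 344097) (nat_lit 18) (.e (nat_lit 5195) (nat_lit 294) (.e (nat_lit 57367) (nat_lit 1) (.e (nat_lit 57829) (nat_lit 250) .nil)))))))) (.g (nat_lit 5) .nil .nil))) 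
(.lf (nat_lit 31483) (.g (nat_lit 3560) (.e (nat_lit 1201) (nat_lit 88) (.e (nat_lit 65586) (nat_lit 7) (.e (nat_lit 319534) (nat_lit 16) (.e (nat_lit 286756) (nat_lit 10) (.e (nat_lit 344097) (nat_lit 18) (.e (nat_lit 5195) (nat_lit 294) (.e (nat_lit 57363) (nat_lit 1) (.e (nat_lit 57830) (nat_lit 250) .nil)))))))) (.g (nat_lit 6) .nil .nil)))))) 
(.nd (nat_lit 3) (.nd (nat_lit 4) (.nd (nat_lit 5) 
(.lf (nat_lit 31431) (.g (nat_lit 2638) (.e (nat_lit 1201) (nat_lit 88) (.e (nat_lit 65586) (nat_lit 7) (.e (nat_lit 319531) (nat_lit 16) (.e (nat_lit 286759) (nat_lit 12) (.e (nat_lit 385107) (nat_lit 51) (.e (nat_lit 802560) (nat_lit 1) (.e (nat_lit 57829) (nat_lit 250) .nil))))))) (.g (nat_lit 5) .nil .nil))) 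
(.lf (nat_lit 31463) (.g (nat_lit 3134) (.e (nat_lit 1201) (nat_lit 88) (.e (nat_lit 65586) (nat_lit 7) (.e (nat_lit 319534) (nat_lit 16) (.e (nat_lit 286749) (nat_lit 9) (.e (nat_lit 335997) (nat_lit 1) (.e (nat_lit 57846) (nat_lit 252) (.e (nat_lit 57365) (nat_lit 1) (.e (nat_lit 57829) (nat_lit 250) .nil)))))))) (.g (nat_lit 5) .nil .nil)))) (.nd (nat_lit 5) 
(.lf (nat_lit 31447) (.g (nat_lit 2004) (.e (nat_lit 1201) (nat_lit 88) (.e (nat_lit 65586) (nat_lit 7) (.e (nat_lit 319533) (nat_lit 16) (.e (nat_lit 286753) (nat_lit 10) (.e (nat_lit 344097) (nat_lit 18) (.e (nat_lit 5194) (nat_lit 294) (.e (nat_lit 57366) (nat_lit 1) (.e (nat_lit 57830) (nat_lit 250) .nil)))))))) (.g (nat_lit 4) .nil .nil))) 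
(.lf (nat_lit 31479) (.g (nat_lit 2250) (.e (nat_lit 1201) (nat_lit 88) (.e (nat_lit 65586) (nat_lit 7) (.e (nat_lit 319534) (nat_lit 16) (.e (nat_lit 286756) (nat_lit 10) (.e (nat_lit 344097) (nat_lit 18) .nil))))) .nil)))) (.nd (nat_lit 4) (.nd (nat_lit 5) 
(.lf (nat_lit 31439) (.g (nat_lit 3801) (.e (nat_lit 1201) (nat_lit 88) (.e (nat_lit 65586) (nat_lit 7) (.e (nat_lit 319531) (nat_lit 16) (.e (nat_lit 286767) (nat_lit 27) (.e (nat_lit 426107) (nat_lit 1) (.e (nat_lit 164325) (nat_lit 230) (.e (nat_lit 163861) (nat_lit 1) (.e (nat_lit 164383) (nat_lit 254) .nil)))))))) (.g (nat_lit 5) .nil .nil))) 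
(.lf (nat_lit 31471) (.g (nat_lit 3099) (.e (nat_lit 1201) (nat_lit 88) (.e (nat_lit 65586) (nat_lit 7) (.e (nat_lit 319534) (nat_lit 16) (.e (nat_lit 286751) (nat_lit 10) (.e (nat_lit 344097) (nat_lit 18) (.e (nat_lit 5195) (nat_lit 294) (.e (nat_lit 57365) (nat_lit 1) (.e (nat_lit 57830) (nat_lit 250) .nil)))))))) (.g (nat_lit 5) .nil .nil)))) (.nd (nat_lit 5) 
(.lf (nat_lit 31455) (.g (nat_lit 2060) (.e (nat_lit 1201) (nat_lit 88) (.e (nat_lit 65586) (nat_lit 7) (.e (nat_lit 319533) (nat_lit 16) (.e (nat_lit 286753) (nat_lit 10) (.e (nat_lit 344160) (nat_lit 37) (.e (nat_lit 647200) (nat_lit 12) (.e (nat_lit 57352) (nat_lit 0) (.e (nat_lit 7122) (nat_lit 382) .nil)))))))) (.g (nat_lit 4) .nil .nil))) 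
(.lf (nat_lit 31487) (.g (nat_lit 3291) (.e (nat_lit 1201) (nat_lit 88) (.e (nat_lit 65586) (nat_lit 7) (.e (nat_lit 319534) (nat_lit 16) (.e (nat_lit 286756) (nat_lit 10) (.e (nat_lit 344097) (nat_lit 18) (.e (nat_lit 5195) (nat_lit 294) (.e (nat_lit 57367) (nat_lit 1) (.e (nat_lit 57830) (nat_lit 250) .nil)))))))) (.g (nat_lit 5) .nil .nil)))))))))

noncomputable def tv440 : DT := (.nd (nat_lit 0) (.nd (nat_lit 1) (.nd (nat_lit 2) (.nd (nat_lit 3) (.nd (nat_lit 4) (.nd (nat_lit 5) 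
(.lf (nat_lit 31488) (.g (nat_lit 2219) (.e (nat_lit 1201) (nat_lit 88) (.e (nat_lit 65586) (nat_lit 7) (.e (nat_lit 319534) (nat_lit 16) (.e (nat_lit 286756) (nat_lit 10) (.e (nat_lit 344160) (nat_lit 37) .nil))))) .nil)) 
(.lf (nat_lit 31520) (.g (nat_lit 4729) (.e (nat_lit 1201) (nat_lit 88) (.e (nat_lit 65604) (nat_lit 9) (.e (nat_lit 335997) (nat_lit 1) (.e (nat_lit 57681) (nat_lit 155) (.e (nat_lit 122919) (nat_lit 15) (.e (nat_lit 360451) (nat_lit 0) (.e (nat_lit 7124) (nat_lit 382) .nil))))))) (.g (nat_lit 0) .nil .nil)))) (.nd (nat_lit 5) 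
(.lf (nat_lit 31504) (.g (nat_lit 2345) (.e (nat_lit 1201) (nat_lit 88) (.e (nat_lit 65586) (nat_lit 7) (.e (nat_lit 319534) (nat_lit 16) (.e (nat_lit 286767) (nat_lit 27) .nil)))) .nil)) 
(.lf (nat_lit 31536) (.g (nat_lit 2959) (.e (nat_lit 1201) (nat_lit 88) (.e (nat_lit 65610) (nat_lit 10) (.e (nat_lit 344090) (nat_lit 18) (.e (nat_lit 7261) (nat_lit 384) (.e (nat_lit 57427) (nat_lit 15) (.e (nat_lit 360449) (nat_lit 0) (.e (nat_lit 7125) (nat_lit 382) .nil))))))) (.g (nat_lit 6) .nil .nil))))) (.nd (nat_lit 4) (.nd (nat_lit 5) 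
(.lf (nat_lit 31496) (.g (nat_lit 2472) (.e (nat_lit 1201) (nat_lit 88) (.e (nat_lit 65586) (nat_lit 7) (.e (nat_lit 319534) (nat_lit 16) (.e (nat_lit 286756) (nat_lit 10) (.e (nat_lit 344160) (nat_lit 37) (.e (nat_lit 647201) (nat_lit 12) (.e (nat_lit 57353) (nat_lit 0) (.e (nat_lit 7124) (nat_lit 382) .nil)))))))) (.g (nat_lit 4) .nil .nil))) 
(.lf (nat_lit 31528) (.g (nat_lit 3539) (.e (nat_lit 1201) (nat_lit 88) (.e (nat_lit 65610) (nat_lit 10) (.e (nat_lit 344090) (nat_lit 18) (.e (nat_lit 7122) (nat_lit 382) (.e (nat_lit 1201) (nat_lit 88) (.e (nat_lit 65617) (nat_lit 10) (.e (nat_lit 344095) (nat_lit 18) (.e (nat_lit 7122) (nat_lit 382) .nil)))))))) (.g (nat_lit 6) .nil .nil)))) (.nd (nat_lit 5) 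
(.lf (nat_lit 31512) (.g (nat_lit 2378) (.e (nat_lit 1201) (nat_lit 88) (.e (nat_lit 65598) (nat_lit 9) (.e (nat_lit 335997) (nat_lit 1) (.e (nat_lit 57681) (nat_lit 155) (.e (nat_lit 122919) (nat_lit 15) .nil))))) .nil)) 
(.lf (nat_lit 31544) (.g (nat_lit 2928) (.e (nat_lit 1201) (nat_lit 88) (.e (nat_lit 65610) (nat_lit 10) (.e (nat_lit 344090) (nat_lit 18) (.e (nat_lit 7263) (nat_lit 384) (.e (nat_lit 57426) (nat_lit 15) (.e (nat_lit 360449) (nat_lit 0) (.e (nat_lit 7122) (nat_lit 382) .nil))))))) (.g (nat_lit 7) .nil .nil)))))) (.nd (nat_lit 3) (.nd (nat_lit 4) (.nd (nat_lit 5) 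
(.lf (nat_lit 31492) (.g (nat_lit 2989) (.e (nat_lit 1201) (nat_lit 88) (.e (nat_lit 65586) (nat_lit 7) (.e (nat_lit 319534) (nat_lit 16) (.e (nat_lit 286756) (nat_lit 10) (.e (nat_lit 344160) (nat_lit 37) (.e (nat_lit 647200) (nat_lit 12) (.e (nat_lit 57352) (nat_lit 0) (.e (nat_lit 7122) (nat_lit 382) .nil)))))))) (.g (nat_lit 5) .nil .nil))) 
(.lf (nat_lit 31524) (.g (nat_lit 3651) (.e (nat_lit 1201) (nat_lit 88) (.e (nat_lit 65610) (nat_lit 10) (.e (nat_lit 344090) (nat_lit 18) (.e (nat_lit 7122) (nat_lit 382) (.e (nat_lit 1201) (nat_lit 88) (.e (nat_lit 65610) (nat_lit 10) (.e (nat_lit 344090) (nat_lit 18) (.e (nat_lit 7124) (nat_lit 382) .nil)))))))) (.g (nat_lit 7) .nil .nil)))) (.nd (nat_lit 5) 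
(.lf (nat_lit 31508) (.g (nat_lit 2978) (.e (nat_lit 1201) (nat_lit 88) (.e (nat_lit 65592) (nat_lit 9) (.e (nat_lit 335985) (nat_lit 1) (.e (nat_lit 57681) (nat_lit 155) (.e (nat_lit 122919) (nat_lit 15) (.e (nat_lit 360451) (nat_lit 0) (.e (nat_lit 7124) (nat_lit 382) .nil))))))) (.g (nat_lit 5) .nil .nil))) 
(.lf (nat_lit 31540) (.g (nat_lit 2628) (.e (nat_lit 1201) (nat_lit 88) (.e (nat_lit 65610) (nat_lit 10) (.e (nat_lit 344090) (nat_lit 18) (.e (nat_lit 7261) (nat_lit 384) (.e (nat_lit 57428) (nat_lit 15) (.e (nat_lit 360449) (nat_lit 0) (.e (nat_lit 7125) (nat_lit 382) .nil))))))) (.g (nat_lit 5) .nil .nil))))) (.nd (nat_lit 4) (.nd (nat_lit 5) 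
(.lf (nat_lit 31500) (.g (nat_lit 3114) (.e (nat_lit 1201) (nat_lit 88) (.e (nat_lit 65586) (nat_lit 7) (.e (nat_lit 319534) (nat_lit 16) (.e (nat_lit 286762) (nat_lit 14) (.e (nat_lit 401454) (nat_lit 12) (.e (nat_lit 475155) (nat_lit 21) (.e (nat_lit 6281) (nat_lit 337) .nil))))))) (.g (nat_lit 4) .nil .nil))) 
(.lf (nat_lit 31532) (.g (nat_lit 3021) (.e (nat_lit 1201) (nat_lit 88) (.e (nat_lit 65610) (nat_lit 10) (.e (nat_lit 344090) (nat_lit 18) (.e (nat_lit 7125) (nat_lit 382) (.e (nat_lit 1201) (nat_lit 88) (.e (nat_lit 65617) (nat_lit 10) (.e (nat_lit 344095) (nat_lit 18) (.e (nat_lit 7125) (nat_lit 382) .nil)))))))) (.g (nat_lit 6) .nil .nil)))) (.nd (nat_lit 5) 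
(.lf (nat_lit 31516) (.g (nat_lit 2395) (.e (nat_lit 1201) (nat_lit 88) (.e (nat_lit 65599) (nat_lit 9) (.e (nat_lit 335992) (nat_lit 1) (.e (nat_lit 57681) (nat_lit 155) (.e (nat_lit 122919) (nat_lit 15) (.e (nat_lit 360451) (nat_lit 0) (.e (nat_lit 7125) (nat_lit 382) .nil))))))) (.g (nat_lit 4) .nil .nil))) 
(.lf (nat_lit 31548) (.g (nat_lit 2235) (.e (nat_lit 1201) (nat_lit 88) (.e (nat_lit 65610) (nat_lit 10) (.e (nat_lit 344090) (nat_lit 18) (.e (nat_lit 7263) (nat_lit 384) (.e (nat_lit 57427) (nat_lit 15) (.e (nat_lit 360449) (nat_lit 0) (.e (nat_lit 7122) (nat_lit 382) .nil))))))) (.g (nat_lit 5) .nil .nil))))))) (.nd (nat_lit 2) (.nd (nat_lit 3) (.nd (nat_lit 4) (.nd (nat_lit 5) 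
(.lf (nat_lit 31490) (.g (nat_lit 3162) (.e (nat_lit 1201) (nat_lit 88) (.e (nat_lit 65586) (nat_lit 7) (.e (nat_lit 319534) (nat_lit 16) (.e (nat_lit 286756) (nat_lit 10) (.e (nat_lit 344160) (nat_lit 37) (.e (nat_lit 647200) (nat_lit 12) (.e (nat_lit 57348) (nat_lit 0) (.e (nat_lit 7124) (nat_lit 382) .nil)))))))) (.g (nat_lit 5) .nil .nil))) 
(.lf (nat_lit 31522) (.g (nat_lit 434) (.e (nat_lit 1201) (nat_lit 88) (.e (nat_lit 65610) (nat_lit 10) (.e (nat_lit 344089) (nat_lit 18) .nil))) .nil))) (.nd (nat_lit 5) 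
(.lf (nat_lit 31506) (.g (nat_lit 2965) (.e (nat_lit 1201) (nat_lit 88) (.e (nat_lit 65589) (nat_lit 9) (.e (nat_lit 335997) (nat_lit 1) (.e (nat_lit 57681) (nat_lit 155) (.e (nat_lit 122919) (nat_lit 15) (.e (nat_lit 360451) (nat_lit 0) (.e (nat_lit 7124) (nat_lit 382) .nil))))))) (.g (nat_lit 5) .nil .nil))) 
(.lf (nat_lit 31538) (.g (nat_lit 1712) (.e (nat_lit 1201) (nat_lit 88) (.e (nat_lit 65610) (nat_lit 10) (.e (nat_lit 344090) (nat_lit 18) (.e (nat_lit 7261) (nat_lit 384) (.e (nat_lit 57427) (nat_lit 15) (.e (nat_lit 368384) (nat_lit 0) (.e (nat_lit 7124) (nat_lit 382) .nil))))))) (.g (nat_lit 4) .nil .nil))))) (.nd (nat_lit 4) (.nd (nat_lit 5) 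
(.lf (nat_lit 31498) (.g (nat_lit 2512) (.e (nat_lit 1201) (nat_lit 88) (.e (nat_lit 65586) (nat_lit 7) (.e (nat_lit 319534) (nat_lit 16) (.e (nat_lit 286757) (nat_lit 11) .nil)))) .nil)) 
(.lf (nat_lit 31530) (.g (nat_lit 4349) (.e (nat_lit 1201) (nat_lit 88) (.e (nat_lit 65610) (nat_lit 10) (.e (nat_lit 344090) (nat_lit 18) (.e (nat_lit 7125) (nat_lit 382) (.e (nat_lit 1201) (nat_lit 88) (.e (nat_lit 65617) (nat_lit 10) (.e (nat_lit 344091) (nat_lit 18) (.e (nat_lit 7122) (nat_lit 382) .nil)))))))) (.g (nat_lit 8) .nil .nil)))) (.nd (nat_lit 5) 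
(.lf (nat_lit 31514) (.g (nat_lit 3993) (.e (nat_lit 1201) (nat_lit 88) (.e (nat_lit 65598) (nat_lit 9) (.e (nat_lit 335997) (nat_lit 1) (.e (nat_lit 57681) (nat_lit 155) (.e (nat_lit 122919) (nat_lit 15) (.e (nat_lit 360451) (nat_lit 0) (.e (nat_lit 7125) (nat_lit 382) .nil))))))) (.g (nat_lit 6) .nil .nil))) 
(.lf (nat_lit 31546) (.g (nat_lit 3226) (.e (nat_lit 1201) (nat_lit 88) (.e (nat_lit 65610) (nat_lit 10) (.e (nat_lit 344090) (nat_lit 18) (.e (nat_lit 7263) (nat_lit 384) (.e (nat_lit 57426) (nat_lit 15) (.e (nat_lit 360449) (nat_lit 0) (.e (nat_lit 7125) (nat_lit 382) .nil))))))) (.g (nat_lit 7) .nil .nil)))))) (.nd (nat_lit 3) (.nd (nat_lit 4) (.nd (nat_lit 5) 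
(.lf (nat_lit 31494) (.g (nat_lit 3153) (.e (nat_lit 1201) (nat_lit 88) (.e (nat_lit 65586) (nat_lit 7) (.e (nat_lit 319534) (nat_lit 16) (.e (nat_lit 286756) (nat_lit 10) (.e (nat_lit 344160) (nat_lit 37) (.e (nat_lit 647200) (nat_lit 12) (.e (nat_lit 57353) (nat_lit 0) (.e (nat_lit 7125) (nat_lit 382) .nil)))))))) (.g (nat_lit 5) .nil .nil))) 
(.lf (nat_lit 31526) (.g (nat_lit 3743) (.e (nat_lit 1201) (nat_lit 88) (.e (nat_lit 65610) (nat_lit 10) (.e (nat_lit 344090) (nat_lit 18) (.e (nat_lit 7122) (nat_lit 382) (.e (nat_lit 1201) (nat_lit 88) (.e (nat_lit 65617) (nat_lit 10) (.e (nat_lit 344091) (nat_lit 18) (.e (nat_lit 7124) (nat_lit 382) .nil)))))))) (.g (nat_lit 7) .nil .nil)))) (.nd (nat_lit 5) 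
(.lf (nat_lit 31510) (.g (nat_lit 1550) (.e (nat_lit 1201) (nat_lit 88) (.e (nat_lit 65596) (nat_lit 9) (.e (nat_lit 336412) (nat_lit 27) (.e (nat_lit 426011) (nat_lit 0) (.e (nat_lit 7591) (nat_lit 407) (.e (nat_lit 73731) (nat_lit 0) (.e (nat_lit 7124) (nat_lit 382) .nil))))))) (.g (nat_lit 4) .nil .nil))) 
(.lf (nat_lit 31542) (.g (nat_lit 3717) (.e (nat_lit 1201) (nat_lit 88) (.e (nat_lit 65610) (nat_lit 10) (.e (nat_lit 344090) (nat_lit 18) (.e (nat_lit 7263) (nat_lit 384) (.e (nat_lit 57412) (nat_lit 12) (.e (nat_lit 336176) (nat_lit 10) (.e (nat_lit 344091) (nat_lit 18) (.e (nat_lit 7125) (nat_lit 382) .nil)))))))) (.g (nat_lit 8) .nil .nil))))) (.nd (nat_lit 4) (.nd (nat_lit 5) 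
(.lf (nat_lit 31502) (.g (nat_lit 2866) (.e (nat_lit 1201) (nat_lit 88) (.e (nat_lit 65586) (nat_lit 7) (.e (nat_lit 319534) (nat_lit 16) (.e (nat_lit 286762) (nat_lit 14) (.e (nat_lit 401454) (nat_lit 12) (.e (nat_lit 475155) (nat_lit 21) (.e (nat_lit 6288) (nat_lit 337) .nil))))))) (.g (nat_lit 4) .nil .nil))) 
(.lf (nat_lit 31534) (.g (nat_lit 2613) (.e (nat_lit 1201) (nat_lit 88) (.e (nat_lit 65610) (nat_lit 10) (.e (nat_lit 344090) (nat_lit 18) (.e (nat_lit 7261) (nat_lit 384) (.e (nat_lit 57427) (nat_lit 15) (.e (nat_lit 360449) (nat_lit 0) (.e (nat_lit 7122) (nat_lit 382) .nil))))))) (.g (nat_lit 5) .nil .nil)))) (.nd (nat_lit 5) 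
(.lf (nat_lit 31518) (.g (nat_lit 1889) (.e (nat_lit 1201) (nat_lit 88) (.e (nat_lit 65604) (nat_lit 9) (.e (nat_lit 335997) (nat_lit 1) (.e (nat_lit 57680) (nat_lit 155) (.e (nat_lit 122919) (nat_lit 15) (.e (nat_lit 360451) (nat_lit 0) (.e (nat_lit 7124) (nat_lit 382) .nil))))))) (.g (nat_lit 4) .nil .nil))) 
(.lf (nat_lit 31550) (.g (nat_lit 3806) (.e (nat_lit 1201) (nat_lit 88) (.e (nat_lit 65610) (nat_lit 10) (.e (nat_lit 344090) (nat_lit 18) (.e (nat_lit 7263) (nat_lit 384) (.e (nat_lit 57427) (nat_lit 15) (.e (nat_lit 360450) (nat_lit 0) (.e (nat_lit 7122) (nat_lit 382) .nil))))))) (.g (nat_lit 7) .nil .nil)))))))) 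
(.nd (nat_lit 1) (.nd (nat_lit 2) (.nd (nat_lit 3) (.nd (nat_lit 4) (.nd (nat_lit 5) 
(.lf (nat_lit 31489) (.g (nat_lit 2421) (.e (nat_lit 1201) (nat_lit 88) (.e (nat_lit 65586) (nat_lit 7) (.e (nat_lit 319534) (nat_lit 16) (.e (nat_lit 286756) (nat_lit 10) (.e (nat_lit 344160) (nat_lit 37) (.e (nat_lit 647200) (nat_lit 12) (.e (nat_lit 57348) (nat_lit 0) (.e (nat_lit 7122) (nat_lit 382) .nil)))))))) (.g (nat_lit 4) .nil .nil))) 
(.lf (nat_lit 31521) (.g (nat_lit 2669) (.e (nat_lit 1201) (nat_lit 88) (.e (nat_lit 65610) (nat_lit 10) (.e (nat_lit 344087) (nat_lit 18) (.e (nat_lit 7270) (nat_lit 385) (.e (nat_lit 122919) (nat_lit 15) (.e (nat_lit 360451) (nat_lit 0) (.e (nat_lit 7124) (nat_lit 382) .nil))))))) (.g (nat_lit 5) .nil .nil)))) (.nd (nat_lit 5) 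
(.lf (nat_lit 31505) (.g (nat_lit 2354) (.e (nat_lit 1201) (nat_lit 88) (.e (nat_lit 65589) (nat_lit 9) (.e (nat_lit 335992) (nat_lit 1) (.e (nat_lit 57681) (nat_lit 155) (.e (nat_lit 122919) (nat_lit 15) (.e (nat_lit 360451) (nat_lit 0) (.e (nat_lit 7124) (nat_lit 382) .nil))))))) (.g (nat_lit 4) .nil .nil))) 
(.lf (nat_lit 31537) (.g (nat_lit 3605) (.e (nat_lit 1201) (nat_lit 88) (.e (nat_lit 65610) (nat_lit 10) (.e (nat_lit 344090) (nat_lit 18) (.e (nat_lit 7261) (nat_lit 384) (.e (nat_lit 57427) (nat_lit 15) (.e (nat_lit 360450) (nat_lit 0) (.e (nat_lit 7124) (nat_lit 382) .nil))))))) (.g (nat_lit 6) .nil .nil))))) (.nd (nat_lit 4) (.nd (nat_lit 5) 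
(.lf (nat_lit 31497) (.g (nat_lit 2757) (.e (nat_lit 1201) (nat_lit 88) (.e (nat_lit 65586) (nat_lit 7) (.e (nat_lit 319534) (nat_lit 16) (.e (nat_lit 286756) (nat_lit 10) (.e (nat_lit 344160) (nat_lit 37) (.e (nat_lit 647201) (nat_lit 12) (.e (nat_lit 57353) (nat_lit 0) (.e (nat_lit 7125) (nat_lit 382) .nil)))))))) (.g (nat_lit 4) .nil .nil))) 
(.lf (nat_lit 31529) (.g (nat_lit 3905) (.e (nat_lit 1201) (nat_lit 88) (.e (nat_lit 65610) (nat_lit 10) (.e (nat_lit 344090) (nat_lit 18) (.e (nat_lit 7122) (nat_lit 382) (.e (nat_lit 1201) (nat_lit 88) (.e (nat_lit 65617) (nat_lit 10) (.e (nat_lit 344096) (nat_lit 18) (.e (nat_lit 7124) (nat_lit 382) .nil)))))))) (.g (nat_lit 7) .nil .nil)))) (.nd (nat_lit 5) 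
(.lf (nat_lit 31513) (.g (nat_lit 4717) (.e (nat_lit 1201) (nat_lit 88) (.e (nat_lit 65598) (nat_lit 9) (.e (nat_lit 335997) (nat_lit 1) (.e (nat_lit 57681) (nat_lit 155) (.e (nat_lit 122919) (nat_lit 15) (.e (nat_lit 360451) (nat_lit 0) (.e (nat_lit 7124) (nat_lit 382) .nil))))))) (.g (nat_lit 7) .nil .nil))) 
(.lf (nat_lit 31545) (.g (nat_lit 2866) (.e (nat_lit 1201) (nat_lit 88) (.e (nat_lit 65610) (nat_lit 10) (.e (nat_lit 344090) (nat_lit 18) (.e (nat_lit 7263) (nat_lit 384) (.e (nat_lit 57426) (nat_lit 15) (.e (nat_lit 360449) (nat_lit 0) (.e (nat_lit 7124) (nat_lit 382) .nil))))))) (.g (nat_lit 7) .nil .nil)))))) (.nd (nat_lit 3) (.nd (nat_lit 4) (.nd (nat_lit 5) 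
(.lf (nat_lit 31493) (.g (nat_lit 2957) (.e (nat_lit 1201) (nat_lit 88) (.e (nat_lit 65586) (nat_lit 7) (.e (nat_lit 319534) (nat_lit 16) (.e (nat_lit 286756) (nat_lit 10) (.e (nat_lit 344160) (nat_lit 37) (.e (nat_lit 647200) (nat_lit 12) (.e (nat_lit 57353) (nat_lit 0) (.e (nat_lit 7124) (nat_lit 382) .nil)))))))) (.g (nat_lit 5) .nil .nil))) 
(.lf (nat_lit 31525) (.g (nat_lit 3915) (.e (nat_lit 1201) (nat_lit 88) (.e (nat_lit 65610) (nat_lit 10) (.e (nat_lit 344090) (nat_lit 18) (.e (nat_lit 7122) (nat_lit 382) (.e (nat_lit 1201) (nat_lit 88) (.e (nat_lit 65610) (nat_lit 10) (.e (nat_lit 344090) (nat_lit 18) (.e (nat_lit 7125) (nat_lit 382) .nil)))))))) (.g (nat_lit 7) .nil .nil)))) (.nd (nat_lit 5) 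
(.lf (nat_lit 31509) (.g (nat_lit 2816) (.e (nat_lit 1201) (nat_lit 88) (.e (nat_lit 65596) (nat_lit 9) (.e (nat_lit 335992) (nat_lit 1) (.e (nat_lit 57681) (nat_lit 155) (.e (nat_lit 122919) (nat_lit 15) (.e (nat_lit 360451) (nat_lit 0) (.e (nat_lit 7124) (nat_lit 382) .nil))))))) (.g (nat_lit 5) .nil .nil))) 
(.lf (nat_lit 31541) (.g (nat_lit 3559) (.e (nat_lit 1201) (nat_lit 88) (.e (nat_lit 65610) (nat_lit 10) (.e (nat_lit 344090) (nat_lit 18) (.e (nat_lit 7263) (nat_lit 384) (.e (nat_lit 57412) (nat_lit 12) (.e (nat_lit 336176) (nat_lit 10) (.e (nat_lit 344091) (nat_lit 18) (.e (nat_lit 7124) (nat_lit 382) .nil)))))))) (.g (nat_lit 8) .nil .nil))))) (.nd (nat_lit 4) (.nd (nat_lit 5) 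
(.lf (nat_lit 31501) (.g (nat_lit 2954) (.e (nat_lit 1201) (nat_lit 88) (.e (nat_lit 65586) (nat_lit 7) (.e (nat_lit 319534) (nat_lit 16) (.e (nat_lit 286762) (nat_lit 14) (.e (nat_lit 401454) (nat_lit 12) (.e (nat_lit 475155) (nat_lit 21) (.e (nat_lit 6282) (nat_lit 337) .nil))))))) (.g (nat_lit 4) .nil .nil))) 
(.lf (nat_lit 31533) (.g (nat_lit 1905) (.e (nat_lit 1201) (nat_lit 88) (.e (nat_lit 65610) (nat_lit 10) (.e (nat_lit 344090) (nat_lit 18) (.e (nat_lit 7261) (nat_lit 384) (.e (nat_lit 57426) (nat_lit 15) (.e (nat_lit 360451) (nat_lit 0) (.e (nat_lit 7122) (nat_lit 382) .nil))))))) (.g (nat_lit 4) .nil .nil)))) (.nd (nat_lit 5) 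
(.lf (nat_lit 31517) (.g (nat_lit 1945) (.e (nat_lit 1201) (nat_lit 88) (.e (nat_lit 65599) (nat_lit 9) (.e (nat_lit 336417) (nat_lit 27) (.e (nat_lit 426187) (nat_lit 9) (.e (nat_lit 426446) (nat_lit 20) (.e (nat_lit 114710) (nat_lit 21) (.e (nat_lit 57830) (nat_lit 250) .nil))))))) (.g (nat_lit 4) .nil .nil))) 
(.lf (nat_lit 31549) (.g (nat_lit 2581) (.e (nat_lit 1201) (nat_lit 88) (.e (nat_lit 65610) (nat_lit 10) (.e (nat_lit 344090) (nat_lit 18) (.e (nat_lit 7263) (nat_lit 384) (.e (nat_lit 57427) (nat_lit 15) (.e (nat_lit 360449) (nat_lit 0) (.e (nat_lit 7125) (nat_lit 382) .nil))))))) (.g (nat_lit 5) .nil .nil))))))) (.nd (nat_lit 2) (.nd (nat_lit 3) (.nd (nat_lit 4) (.nd (nat_lit 5) 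
(.lf (nat_lit 31491) (.g (nat_lit 3418) (.e (nat_lit 1201) (nat_lit 88) (.e (nat_lit 65586) (nat_lit 7) (.e (nat_lit 319534) (nat_lit 16) (.e (nat_lit 286756) (nat_lit 10) (.e (nat_lit 344160) (nat_lit 37) (.e (nat_lit 647200) (nat_lit 12) (.e (nat_lit 57348) (nat_lit 0) (.e (nat_lit 7125) (nat_lit 382) .nil)))))))) (.g (nat_lit 5) .nil .nil))) 
(.lf (nat_lit 31523) (.g (nat_lit 3232) (.e (nat_lit 1201) (nat_lit 88) (.e (nat_lit 65610) (nat_lit 10) (.e (nat_lit 344090) (nat_lit 18) (.e (nat_lit 7122) (nat_lit 382) (.e (nat_lit 1201) (nat_lit 88) (.e (nat_lit 65610) (nat_lit 10) (.e (nat_lit 344090) (nat_lit 18) (.e (nat_lit 7122) (nat_lit 382) .nil)))))))) (.g (nat_lit 6) .nil .nil)))) (.nd (nat_lit 5) 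
(.lf (nat_lit 31507) (.g (nat_lit 2241) (.e (nat_lit 1201) (nat_lit 88) (.e (nat_lit 65589) (nat_lit 9) (.e (nat_lit 335997) (nat_lit 1) (.e (nat_lit 57681) (nat_lit 155) (.e (nat_lit 122919) (nat_lit 15) (.e (nat_lit 360451) (nat_lit 0) (.e (nat_lit 7125) (nat_lit 382) .nil))))))) (.g (nat_lit 4) .nil .nil))) 
(.lf (nat_lit 31539) (.g (nat_lit 1738) (.e (nat_lit 1201) (nat_lit 88) (.e (nat_lit 65610) (nat_lit 10) (.e (nat_lit 344090) (nat_lit 18) (.e (nat_lit 7261) (nat_lit 384) (.e (nat_lit 57427) (nat_lit 15) (.e (nat_lit 368384) (nat_lit 0) (.e (nat_lit 7125) (nat_lit 382) .nil))))))) (.g (nat_lit 4) .nil .nil))))) (.nd (nat_lit 4) (.nd (nat_lit 5) 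
(.lf (nat_lit 31499) (.g (nat_lit 2893) (.e (nat_lit 1201) (nat_lit 88) (.e (nat_lit 65586) (nat_lit 7) (.e (nat_lit 319534) (nat_lit 16) (.e (nat_lit 286762) (nat_lit 14) (.e (nat_lit 401454) (nat_lit 12) (.e (nat_lit 475155) (nat_lit 21) (.e (nat_lit 6278) (nat_lit 337) .nil))))))) (.g (nat_lit 4) .nil .nil))) 
(.lf (nat_lit 31531) (.g (nat_lit 1870) (.e (nat_lit 1201) (nat_lit 88) (.e (nat_lit 65610) (nat_lit 10) (.e (nat_lit 344090) (nat_lit 18) (.e (nat_lit 7125) (nat_lit 382) (.e (nat_lit 1201) (nat_lit 88) (.e (nat_lit 65617) (nat_lit 10) (.e (nat_lit 344095) (nat_lit 18) (.e (nat_lit 7124) (nat_lit 382) .nil)))))))) (.g (nat_lit 4) .nil .nil)))) (.nd (nat_lit 5) 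
(.lf (nat_lit 31515) (.g (nat_lit 3275) (.e (nat_lit 1201) (nat_lit 88) (.e (nat_lit 65599) (nat_lit 9) (.e (nat_lit 335992) (nat_lit 1) (.e (nat_lit 57681) (nat_lit 155) (.e (nat_lit 122919) (nat_lit 15) (.e (nat_lit 360451) (nat_lit 0) (.e (nat_lit 7124) (nat_lit 382) .nil))))))) (.g (nat_lit 5) .nil .nil))) 
(.lf (nat_lit 31547) (.g (nat_lit 3520) (.e (nat_lit 1201) (nat_lit 88) (.e (nat_lit 65610) (nat_lit 10) (.e (nat_lit 344090) (nat_lit 18) (.e (nat_lit 7263) (nat_lit 384) (.e (nat_lit 57426) (nat_lit 15) (.e (nat_lit 360451) (nat_lit 0) (.e (nat_lit 7125) (nat_lit 382) .nil))))))) (.g (nat_lit 7) .nil .nil)))))) (.nd (nat_lit 3) (.nd (nat_lit 4) (.nd (nat_lit 5) 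
(.lf (nat_lit 31495) (.g (nat_lit 2340) (.e (nat_lit 1201) (nat_lit 88) (.e (nat_lit 65586) (nat_lit 7) (.e (nat_lit 319534) (nat_lit 16) (.e (nat_lit 286756) (nat_lit 10) (.e (nat_lit 344160) (nat_lit 37) (.e (nat_lit 647201) (nat_lit 12) (.e (nat_lit 57352) (nat_lit 0) (.e (nat_lit 7122) (nat_lit 382) .nil)))))))) (.g (nat_lit 4) .nil .nil))) 
(.lf (nat_lit 31527) (.g (nat_lit 3909) (.e (nat_lit 1201) (nat_lit 88) (.e (nat_lit 65610) (nat_lit 10) (.e (nat_lit 344090) (nat_lit 18) (.e (nat_lit 7122) (nat_lit 382) (.e (nat_lit 1201) (nat_lit 88) (.e (nat_lit 65617) (nat_lit 10) (.e (nat_lit 344091) (nat_lit 18) (.e (nat_lit 7125) (nat_lit 382) .nil)))))))) (.g (nat_lit 7) .nil .nil)))) (.nd (nat_lit 5) 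
(.lf (nat_lit 31511) (.g (nat_lit 2474) (.e (nat_lit 1201) (nat_lit 88) (.e (nat_lit 65596) (nat_lit 9) (.e (nat_lit 336412) (nat_lit 27) (.e (nat_lit 426343) (nat_lit 14) (.e (nat_lit 491560) (nat_lit 10) (.e (nat_lit 344091) (nat_lit 18) (.e (nat_lit 7125) (nat_lit 382) .nil))))))) (.g (nat_lit 5) .nil .nil))) 
(.lf (nat_lit 31543) (.g (nat_lit 3572) (.e (nat_lit 1201) (nat_lit 88) (.e (nat_lit 65610) (nat_lit 10) (.e (nat_lit 344090) (nat_lit 18) (.e (nat_lit 7263) (nat_lit 384) (.e (nat_lit 57412) (nat_lit 12) (.e (nat_lit 336176) (nat_lit 10) (.e (nat_lit 344096) (nat_lit 18) (.e (nat_lit 7124) (nat_lit 382) .nil)))))))) (.g (nat_lit 8) .nil .nil))))) (.nd (nat_lit 4) (.nd (nat_lit 5) 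
(.lf (nat_lit 31503) (.g (nat_lit 3191) (.e (nat_lit 1201) (nat_lit 88) (.e (nat_lit 65586) (nat_lit 7) (.e (nat_lit 319534) (nat_lit 16) (.e (nat_lit 286762) (nat_lit 14) (.e (nat_lit 401454) (nat_lit 12) (.e (nat_lit 475155) (nat_lit 21) (.e (nat_lit 6294) (nat_lit 337) .nil))))))) (.g (nat_lit 4) .nil .nil))) 
(.lf (nat_lit 31535) (.g (nat_lit 2444) (.e (nat_lit 1201) (nat_lit 88) (.e (nat_lit 65610) (nat_lit 10) (.e (nat_lit 344090) (nat_lit 18) (.e (nat_lit 7261) (nat_lit 384) (.e (nat_lit 57427) (nat_lit 15) (.e (nat_lit 360449) (nat_lit 0) (.e (nat_lit 7124) (nat_lit 382) .nil))))))) (.g (nat_lit 5) .nil .nil)))) (.nd (nat_lit 5) 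
(.lf (nat_lit 31519) (.g (nat_lit 2229) (.e (nat_lit 1201) (nat_lit 88) (.e (nat_lit 65604) (nat_lit 9) (.e (nat_lit 335997) (nat_lit 1) (.e (nat_lit 57681) (nat_lit 155) (.e (nat_lit 122919) (nat_lit 15) (.e (nat_lit 360450) (nat_lit 0) (.e (nat_lit 7122) (nat_lit 382) .nil))))))) (.g (nat_lit 4) .nil .nil))) 
(.lf (nat_lit 31551) (.g (nat_lit 3321) (.e (nat_lit 1201) (nat_lit 88) (.e (nat_lit 65610) (nat_lit 10) (.e (nat_lit 344090) (nat_lit 18) (.e (nat_lit 7263) (nat_lit 384) (.e (nat_lit 57427) (nat_lit 15) (.e (nat_lit 360451) (nat_lit 0) (.e (nat_lit 7124) (nat_lit 382) .nil))))))) (.g (nat_lit 7) .nil .nil)))))))))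

noncomputable def tv441 : DT := (.nd (nat_lit 0) (.nd (nat_lit 1) (.nd (nat_lit 2) (.nd (nat_lit 3) (.nd (nat_lit 4) (.nd (nat_lit 5) 
(.lf (nat_lit 31552) (.g (nat_lit 3311) (.e (nat_lit 1201) (nat_lit 88) (.e (nat_lit 65610) (nat_lit 10) (.e (nat_lit 344090) (nat_lit 18) (.e (nat_lit 7265) (nat_lit 384) (.e (nat_lit 57426) (nat_lit 15) (.e (nat_lit 360451) (nat_lit 0) (.e (nat_lit 7124) (nat_lit 382) .nil))))))) (.g (nat_lit 7) .nil .nil))) 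
(.lf (nat_lit 31584) (.g (nat_lit 4791) (.e (nat_lit 1201) (nat_lit 88) (.e (nat_lit 65610) (nat_lit 10) (.e (nat_lit 344097) (nat_lit 18) (.e (nat_lit 5905) (nat_lit 320) (.e (nat_lit 1221) (nat_lit 90) (.e (nat_lit 81959) (nat_lit 24) (.e (nat_lit 123182) (nat_lit 264) .nil))))))) (.g (nat_lit 6) .nil .nil)))) (.nd (nat_lit 5) 
(.lf (nat_lit 31568) (.g (nat_lit 3286) (.e (nat_lit 1201) (nat_lit 88) (.e (nat_lit 65610) (nat_lit 10) (.e (nat_lit 344097) (nat_lit 18) (.e (nat_lit 5219) (nat_lit 296) (.e (nat_lit 163920) (nat_lit 14) (.e (nat_lit 442430) (nat_lit 24) (.e (nat_lit 229629) (nat_lit 226) .nil))))))) (.g (nat_lit 5) .nil .nil))) 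
(.lf (nat_lit 31600) (.g (nat_lit 2294) (.e (nat_lit 1201) (nat_lit 88) (.e (nat_lit 65610) (nat_lit 10) (.e (nat_lit 344097) (nat_lit 18) (.e (nat_lit 5906) (nat_lit 320) (.e (nat_lit 7936) (nat_lit 90) (.e (nat_lit 81957) (nat_lit 24) (.e (nat_lit 123183) (nat_lit 264) .nil))))))) (.g (nat_lit 4) .nil .nil))))) (.nd (nat_lit 4) (.nd (nat_lit 5) 
(.lf (nat_lit 31560) (.g (nat_lit 3983) (.e (nat_lit 1201) (nat_lit 88) (.e (nat_lit 65610) (nat_lit 10) (.e (nat_lit 344090) (nat_lit 18) (.e (nat_lit 7266) (nat_lit 384) (.e (nat_lit 57426) (nat_lit 15) (.e (nat_lit 360451) (nat_lit 0) (.e (nat_lit 7125) (nat_lit 382) .nil))))))) (.g (nat_lit 7) .nil .nil))) 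
(.lf (nat_lit 31592) (.g (nat_lit 3166) (.e (nat_lit 1201) (nat_lit 88) (.e (nat_lit 65610) (nat_lit 10) (.e (nat_lit 344097) (nat_lit 18) (.e (nat_lit 5906) (nat_lit 320) (.e (nat_lit 1219) (nat_lit 90) (.e (nat_lit 81959) (nat_lit 24) (.e (nat_lit 123185) (nat_lit 264) .nil))))))) (.g (nat_lit 6) .nil .nil)))) (.nd (nat_lit 5) 
(.lf (nat_lit 31576) (.g (nat_lit 2035) (.e (nat_lit 1201) (nat_lit 88) (.e (nat_lit 65610) (nat_lit 10) (.e (nat_lit 344097) (nat_lit 18) (.e (nat_lit 5905) (nat_lit 320) (.e (nat_lit 1220) (nat_lit 90) (.e (nat_lit 81958) (nat_lit 24) (.e (nat_lit 123183) (nat_lit 264) .nil))))))) (.g (nat_lit 4) .nil .nil))) 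
(.lf (nat_lit 31608) (.g (nat_lit 4251) (.e (nat_lit 1201) (nat_lit 88) (.e (nat_lit 65610) (nat_lit 10) (.e (nat_lit 344097) (nat_lit 18) (.e (nat_lit 5907) (nat_lit 320) (.e (nat_lit 1219) (nat_lit 90) (.e (nat_lit 81957) (nat_lit 24) (.e (nat_lit 123183) (nat_lit 264) .nil))))))) (.g (nat_lit 0) .nil .nil)))))) (.nd (nat_lit 3) (.nd (nat_lit 4) (.nd (nat_lit 5) 
(.lf (nat_lit 31556) (.g (nat_lit 2869) (.e (nat_lit 1201) (nat_lit 88) (.e (nat_lit 65610) (nat_lit 10) (.e (nat_lit 344090) (nat_lit 18) (.e (nat_lit 7265) (nat_lit 384) (.e (nat_lit 57427) (nat_lit 15) (.e (nat_lit 360449) (nat_lit 0) (.e (nat_lit 7124) (nat_lit 382) .nil))))))) (.g (nat_lit 6) .nil .nil))) 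
(.lf (nat_lit 31588) (.g (nat_lit 3796) (.e (nat_lit 1201) (nat_lit 88) (.e (nat_lit 65610) (nat_lit 10) (.e (nat_lit 344097) (nat_lit 18) (.e (nat_lit 5906) (nat_lit 320) (.e (nat_lit 1219) (nat_lit 90) (.e (nat_lit 81957) (nat_lit 24) (.e (nat_lit 123183) (nat_lit 264) .nil))))))) (.g (nat_lit 7) .nil .nil)))) (.nd (nat_lit 5) 
(.lf (nat_lit 31572) (.g (nat_lit 2148) (.e (nat_lit 1201) (nat_lit 88) (.e (nat_lit 65610) (nat_lit 10) (.e (nat_lit 344097) (nat_lit 18) (.e (nat_lit 5905) (nat_lit 320) (.e (nat_lit 1219) (nat_lit 90) (.e (nat_lit 81958) (nat_lit 24) (.e (nat_lit 123184) (nat_lit 264) .nil))))))) (.g (nat_lit 5) .nil .nil))) 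
(.lf (nat_lit 31604) (.g (nat_lit 2124) (.e (nat_lit 1201) (nat_lit 88) (.e (nat_lit 65610) (nat_lit 10) (.e (nat_lit 344097) (nat_lit 18) (.e (nat_lit 5907) (nat_lit 320) (.e (nat_lit 1218) (nat_lit 90) (.e (nat_lit 81959) (nat_lit 24) (.e (nat_lit 123184) (nat_lit 264) .nil))))))) (.g (nat_lit 4) .nil .nil))))) (.nd (nat_lit 4) (.nd (nat_lit 5) 
(.lf (nat_lit 31564) (.g (nat_lit 2155) (.e (nat_lit 1201) (nat_lit 88) (.e (nat_lit 65610) (nat_lit 10) (.e (nat_lit 344090) (nat_lit 18) (.e (nat_lit 7266) (nat_lit 384) (.e (nat_lit 57428) (nat_lit 15) (.e (nat_lit 360449) (nat_lit 0) (.e (nat_lit 7125) (nat_lit 382) .nil))))))) (.g (nat_lit 4) .nil .nil))) 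
(.lf (nat_lit 31596) (.g (nat_lit 3531) (.e (nat_lit 1201) (nat_lit 88) (.e (nat_lit 65610) (nat_lit 10) (.e (nat_lit 344097) (nat_lit 18) (.e (nat_lit 5906) (nat_lit 320) (.e (nat_lit 1221) (nat_lit 90) (.e (nat_lit 81957) (nat_lit 24) (.e (nat_lit 123185) (nat_lit 264) .nil))))))) (.g (nat_lit 6) .nil .nil)))) (.nd (nat_lit 5) 
(.lf (nat_lit 31580) (.g (nat_lit 2274) (.e (nat_lit 1201) (nat_lit 88) (.e (nat_lit 65610) (nat_lit 10) (.e (nat_lit 344097) (nat_lit 18) (.e (nat_lit 5905) (nat_lit 320) (.e (nat_lit 1221) (nat_lit 90) (.e (nat_lit 81957) (nat_lit 24) (.e (nat_lit 123185) (nat_lit 264) .nil))))))) (.g (nat_lit 4) .nil .nil))) 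
(.lf (nat_lit 31612) (.g (nat_lit 3782) (.e (nat_lit 1201) (nat_lit 88) (.e (nat_lit 65610) (nat_lit 10) (.e (nat_lit 344097) (nat_lit 18) (.e (nat_lit 5907) (nat_lit 320) (.e (nat_lit 1219) (nat_lit 90) (.e (nat_lit 81959) (nat_lit 24) (.e (nat_lit 123185) (nat_lit 264) .nil))))))) (.g (nat_lit 7) .nil .nil))))))) (.nd (nat_lit 2) (.nd (nat_lit 3) (.nd (nat_lit 4) (.nd (nat_lit 5) 
(.lf (nat_lit 31554) (.g (nat_lit 1667) (.e (nat_lit 1201) (nat_lit 88) (.e (nat_lit 65610) (nat_lit 10) (.e (nat_lit 344090) (nat_lit 18) (.e (nat_lit 7265) (nat_lit 384) (.e (nat_lit 57426) (nat_lit 15) (.e (nat_lit 368384) (nat_lit 0) (.e (nat_lit 7125) (nat_lit 382) .nil))))))) (.g (nat_lit 4) .nil .nil))) 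
(.lf (nat_lit 31586) (.g (nat_lit 4013) (.e (nat_lit 1201) (nat_lit 88) (.e (nat_lit 65610) (nat_lit 10) (.e (nat_lit 344097) (nat_lit 18) (.e (nat_lit 5905) (nat_lit 320) (.e (nat_lit 1221) (nat_lit 90) (.e (nat_lit 81959) (nat_lit 24) (.e (nat_lit 123185) (nat_lit 264) .nil))))))) (.g (nat_lit 6) .nil .nil)))) (.nd (nat_lit 5) 
(.lf (nat_lit 31570) (.g (nat_lit 1802) (.e (nat_lit 1201) (nat_lit 88) (.e (nat_lit 65610) (nat_lit 10) (.e (nat_lit 344097) (nat_lit 18) (.e (nat_lit 5905) (nat_lit 320) (.e (nat_lit 1218) (nat_lit 90) (.e (nat_lit 81959) (nat_lit 24) (.e (nat_lit 123184) (nat_lit 264) .nil))))))) (.g (nat_lit 4) .nil .nil))) 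
(.lf (nat_lit 31602) (.g (nat_lit 2148) (.e (nat_lit 1201) (nat_lit 88) (.e (nat_lit 65610) (nat_lit 10) (.e (nat_lit 344097) (nat_lit 18) (.e (nat_lit 5906) (nat_lit 320) (.e (nat_lit 7936) (nat_lit 90) (.e (nat_lit 81959) (nat_lit 24) (.e (nat_lit 123183) (nat_lit 264) .nil))))))) (.g (nat_lit 4) .nil .nil))))) (.nd (nat_lit 4) (.nd (nat_lit 5) 
(.lf (nat_lit 31562) (.g (nat_lit 3009) (.e (nat_lit 1201) (nat_lit 88) (.e (nat_lit 65610) (nat_lit 10) (.e (nat_lit 344090) (nat_lit 18) (.e (nat_lit 7266) (nat_lit 384) (.e (nat_lit 57427) (nat_lit 15) (.e (nat_lit 360449) (nat_lit 0) (.e (nat_lit 7124) (nat_lit 382) .nil))))))) (.g (nat_lit 6) .nil .nil))) 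
(.lf (nat_lit 31594) (.g (nat_lit 3538) (.e (nat_lit 1201) (nat_lit 88) (.e (nat_lit 65610) (nat_lit 10) (.e (nat_lit 344097) (nat_lit 18) (.e (nat_lit 5906) (nat_lit 320) (.e (nat_lit 1221) (nat_lit 90) (.e (nat_lit 81957) (nat_lit 24) (.e (nat_lit 123183) (nat_lit 264) .nil))))))) (.g (nat_lit 6) .nil .nil)))) (.nd (nat_lit 5) 
(.lf (nat_lit 31578) (.g (nat_lit 4334) (.e (nat_lit 1201) (nat_lit 88) (.e (nat_lit 65610) (nat_lit 10) (.e (nat_lit 344097) (nat_lit 18) (.e (nat_lit 5905) (nat_lit 320) (.e (nat_lit 1220) (nat_lit 90) (.e (nat_lit 81959) (nat_lit 24) (.e (nat_lit 123184) (nat_lit 264) .nil))))))) (.g (nat_lit 0) .nil .nil))) 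
(.lf (nat_lit 31610) (.g (nat_lit 3230) (.e (nat_lit 1201) (nat_lit 88) (.e (nat_lit 65610) (nat_lit 10) (.e (nat_lit 344097) (nat_lit 18) (.e (nat_lit 5907) (nat_lit 320) (.e (nat_lit 1219) (nat_lit 90) (.e (nat_lit 81958) (nat_lit 24) (.e (nat_lit 123183) (nat_lit 264) .nil))))))) (.g (nat_lit 6) .nil .nil)))))) (.nd (nat_lit 3) (.nd (nat_lit 4) (.nd (nat_lit 5) 
(.lf (nat_lit 31558) (.g (nat_lit 1710) (.e (nat_lit 1201) (nat_lit 88) (.e (nat_lit 65610) (nat_lit 10) (.e (nat_lit 344090) (nat_lit 18) (.e (nat_lit 7265) (nat_lit 384) (.e (nat_lit 57428) (nat_lit 15) (.e (nat_lit 360449) (nat_lit 0) (.e (nat_lit 7125) (nat_lit 382) .nil))))))) (.g (nat_lit 4) .nil .nil))) 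
(.lf (nat_lit 31590) (.g (nat_lit 4626) (.e (nat_lit 1201) (nat_lit 88) (.e (nat_lit 65610) (nat_lit 10) (.e (nat_lit 344097) (nat_lit 18) (.e (nat_lit 5906) (nat_lit 320) (.e (nat_lit 1219) (nat_lit 90) (.e (nat_lit 81959) (nat_lit 24) (.e (nat_lit 123182) (nat_lit 264) .nil))))))) (.g (nat_lit 7) .nil .nil)))) (.nd (nat_lit 5) 
(.lf (nat_lit 31574) (.g (nat_lit 3614) (.e (nat_lit 1201) (nat_lit 88) (.e (nat_lit 65610) (nat_lit 10) (.e (nat_lit 344097) (nat_lit 18) (.e (nat_lit 5905) (nat_lit 320) (.e (nat_lit 1219) (nat_lit 90) (.e (nat_lit 81959) (nat_lit 24) (.e (nat_lit 123184) (nat_lit 264) .nil))))))) (.g (nat_lit 7) .nil .nil))) 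
(.lf (nat_lit 31606) (.g (nat_lit 2012) (.e (nat_lit 1201) (nat_lit 88) (.e (nat_lit 65610) (nat_lit 10) (.e (nat_lit 344097) (nat_lit 18) (.e (nat_lit 5907) (nat_lit 320) (.e (nat_lit 1219) (nat_lit 90) (.e (nat_lit 81957) (nat_lit 24) (.e (nat_lit 123181) (nat_lit 264) .nil))))))) (.g (nat_lit 4) .nil .nil))))) (.nd (nat_lit 4) (.nd (nat_lit 5) 
(.lf (nat_lit 31566) (.g (nat_lit 715) (.e (nat_lit 1201) (nat_lit 88) (.e (nat_lit 65610) (nat_lit 10) (.e (nat_lit 344095) (nat_lit 18) (.e (nat_lit 7261) (nat_lit 384) .nil)))) .nil)) 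
(.lf (nat_lit 31598) (.g (nat_lit 2439) (.e (nat_lit 1201) (nat_lit 88) (.e (nat_lit 65610) (nat_lit 10) (.e (nat_lit 344097) (nat_lit 18) (.e (nat_lit 5906) (nat_lit 320) (.e (nat_lit 1221) (nat_lit 90) (.e (nat_lit 81958) (nat_lit 24) (.e (nat_lit 123185) (nat_lit 264) .nil))))))) (.g (nat_lit 5) .nil .nil)))) (.nd (nat_lit 5) 
(.lf (nat_lit 31582) (.g (nat_lit 2441) (.e (nat_lit 1201) (nat_lit 88) (.e (nat_lit 65610) (nat_lit 10) (.e (nat_lit 344097) (nat_lit 18) (.e (nat_lit 5905) (nat_lit 320) (.e (nat_lit 1221) (nat_lit 90) (.e (nat_lit 81958) (nat_lit 24) (.e (nat_lit 123184) (nat_lit 264) .nil))))))) (.g (nat_lit 5) .nil .nil))) 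
(.lf (nat_lit 31614) (.g (nat_lit 3657) (.e (nat_lit 1201) (nat_lit 88) (.e (nat_lit 65610) (nat_lit 10) (.e (nat_lit 344097) (nat_lit 18) (.e (nat_lit 5907) (nat_lit 320) (.e (nat_lit 1220) (nat_lit 90) (.e (nat_lit 81959) (nat_lit 24) (.e (nat_lit 123185) (nat_lit 264) .nil))))))) (.g (nat_lit 6) .nil .nil)))))))) 
(.nd (nat_lit 1) (.nd (nat_lit 2) (.nd (nat_lit 3) (.nd (nat_lit 4) (.nd (nat_lit 5) 
(.lf (nat_lit 31553) (.g (nat_lit 1641) (.e (nat_lit 1201) (nat_lit 88) (.e (nat_lit 65610) (nat_lit 10) (.e (nat_lit 344090) (nat_lit 18) (.e (nat_lit 7265) (nat_lit 384) (.e (nat_lit 57426) (nat_lit 15) (.e (nat_lit 368384) (nat_lit 0) (.e (nat_lit 7124) (nat_lit 382) .nil))))))) (.g (nat_lit 4) .nil .nil))) 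
(.lf (nat_lit 31585) (.g (nat_lit 4122) (.e (nat_lit 1201) (nat_lit 88) (.e (nat_lit 65610) (nat_lit 10) (.e (nat_lit 344097) (nat_lit 18) (.e (nat_lit 5905) (nat_lit 320) (.e (nat_lit 1221) (nat_lit 90) (.e (nat_lit 81959) (nat_lit 24) (.e (nat_lit 123184) (nat_lit 264) .nil))))))) (.g (nat_lit 6) .nil .nil)))) (.nd (nat_lit 5) 
(.lf (nat_lit 31569) (.g (nat_lit 3286) (.e (nat_lit 1201) (nat_lit 88) (.e (nat_lit 65610) (nat_lit 10) (.e (nat_lit 344097) (nat_lit 18) (.e (nat_lit 5243) (nat_lit 297) (.e (nat_lit 229412) (nat_lit 14) (.e (nat_lit 442421) (nat_lit 21) (.e (nat_lit 164297) (nat_lit 226) .nil))))))) (.g (nat_lit 5) .nil .nil))) 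
(.lf (nat_lit 31601) (.g (nat_lit 1953) (.e (nat_lit 1201) (nat_lit 88) (.e (nat_lit 65610) (nat_lit 10) (.e (nat_lit 344097) (nat_lit 18) (.e (nat_lit 5906) (nat_lit 320) (.e (nat_lit 7936) (nat_lit 90) (.e (nat_lit 81957) (nat_lit 24) (.e (nat_lit 123185) (nat_lit 264) .nil))))))) (.g (nat_lit 4) .nil .nil))))) (.nd (nat_lit 4) (.nd (nat_lit 5) 
(.lf (nat_lit 31561) (.g (nat_lit 3178) (.e (nat_lit 1201) (nat_lit 88) (.e (nat_lit 65610) (nat_lit 10) (.e (nat_lit 344090) (nat_lit 18) (.e (nat_lit 7266) (nat_lit 384) (.e (nat_lit 57427) (nat_lit 15) (.e (nat_lit 360449) (nat_lit 0) (.e (nat_lit 7122) (nat_lit 382) .nil))))))) (.g (nat_lit 6) .nil .nil))) 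
(.lf (nat_lit 31593) (.g (nat_lit 2244) (.e (nat_lit 1201) (nat_lit 88) (.e (nat_lit 65610) (nat_lit 10) (.e (nat_lit 344097) (nat_lit 18) (.e (nat_lit 5906) (nat_lit 320) (.e (nat_lit 1221) (nat_lit 90) (.e (nat_lit 81937) (nat_lit 20) (.e (nat_lit 1068) (nat_lit 81) (.e (nat_lit 5817) (nat_lit 320) .nil)))))))) (.g (nat_lit 4) .nil .nil)))) (.nd (nat_lit 5) 
(.lf (nat_lit 31577) (.g (nat_lit 2329) (.e (nat_lit 1201) (nat_lit 88) (.e (nat_lit 65610) (nat_lit 10) (.e (nat_lit 344097) (nat_lit 18) (.e (nat_lit 5905) (nat_lit 320) (.e (nat_lit 1220) (nat_lit 90) (.e (nat_lit 81958) (nat_lit 24) (.e (nat_lit 123184) (nat_lit 264) .nil))))))) (.g (nat_lit 5) .nil .nil))) 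
(.lf (nat_lit 31609) (.g (nat_lit 4721) (.e (nat_lit 1201) (nat_lit 88) (.e (nat_lit 65610) (nat_lit 10) (.e (nat_lit 344097) (nat_lit 18) (.e (nat_lit 5907) (nat_lit 320) (.e (nat_lit 1219) (nat_lit 90) (.e (nat_lit 81957) (nat_lit 24) (.e (nat_lit 123184) (nat_lit 264) .nil))))))) (.g (nat_lit 0) .nil .nil)))))) (.nd (nat_lit 3) (.nd (nat_lit 4) (.nd (nat_lit 5) 
(.lf (nat_lit 31557) (.g (nat_lit 3801) (.e (nat_lit 1201) (nat_lit 88) (.e (nat_lit 65610) (nat_lit 10) (.e (nat_lit 344090) (nat_lit 18) (.e (nat_lit 7265) (nat_lit 384) (.e (nat_lit 57427) (nat_lit 15) (.e (nat_lit 360450) (nat_lit 0) (.e (nat_lit 7124) (nat_lit 382) .nil))))))) (.g (nat_lit 6) .nil .nil))) 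
(.lf (nat_lit 31589) (.g (nat_lit 4277) (.e (nat_lit 1201) (nat_lit 88) (.e (nat_lit 65610) (nat_lit 10) (.e (nat_lit 344097) (nat_lit 18) (.e (nat_lit 5906) (nat_lit 320) (.e (nat_lit 1219) (nat_lit 90) (.e (nat_lit 81957) (nat_lit 24) (.e (nat_lit 123184) (nat_lit 264) .nil))))))) (.g (nat_lit 0) .nil .nil)))) (.nd (nat_lit 5) 
(.lf (nat_lit 31573) (.g (nat_lit 4616) (.e (nat_lit 1201) (nat_lit 88) (.e (nat_lit 65610) (nat_lit 10) (.e (nat_lit 344097) (nat_lit 18) (.e (nat_lit 5905) (nat_lit 320) (.e (nat_lit 1219) (nat_lit 90) (.e (nat_lit 81959) (nat_lit 24) (.e (nat_lit 123182) (nat_lit 264) .nil))))))) (.g (nat_lit 7) .nil .nil))) 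
(.lf (nat_lit 31605) (.g (nat_lit 1780) (.e (nat_lit 1201) (nat_lit 88) (.e (nat_lit 65610) (nat_lit 10) (.e (nat_lit 344097) (nat_lit 18) (.e (nat_lit 5907) (nat_lit 320) (.e (nat_lit 1218) (nat_lit 90) (.e (nat_lit 81959) (nat_lit 24) (.e (nat_lit 123185) (nat_lit 264) .nil))))))) (.g (nat_lit 4) .nil .nil))))) (.nd (nat_lit 4) (.nd (nat_lit 5) 
(.lf (nat_lit 31565) (.g (nat_lit 3735) (.e (nat_lit 1201) (nat_lit 88) (.e (nat_lit 65610) (nat_lit 10) (.e (nat_lit 344090) (nat_lit 18) (.e (nat_lit 7277) (nat_lit 385) (.e (nat_lit 122919) (nat_lit 15) (.e (nat_lit 360451) (nat_lit 0) (.e (nat_lit 7124) (nat_lit 382) .nil))))))) (.g (nat_lit 0) .nil .nil))) 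
(.lf (nat_lit 31597) (.g (nat_lit 3233) (.e (nat_lit 1201) (nat_lit 88) (.e (nat_lit 65610) (nat_lit 10) (.e (nat_lit 344097) (nat_lit 18) (.e (nat_lit 5906) (nat_lit 320) (.e (nat_lit 1221) (nat_lit 90) (.e (nat_lit 81958) (nat_lit 24) (.e (nat_lit 123183) (nat_lit 264) .nil))))))) (.g (nat_lit 6) .nil .nil)))) (.nd (nat_lit 5) 
(.lf (nat_lit 31581) (.g (nat_lit 2147) (.e (nat_lit 1201) (nat_lit 88) (.e (nat_lit 65610) (nat_lit 10) (.e (nat_lit 344097) (nat_lit 18) (.e (nat_lit 5905) (nat_lit 320) (.e (nat_lit 1221) (nat_lit 90) (.e (nat_lit 81958) (nat_lit 24) (.e (nat_lit 123183) (nat_lit 264) .nil))))))) (.g (nat_lit 4) .nil .nil))) 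
(.lf (nat_lit 31613) (.g (nat_lit 3915) (.e (nat_lit 1201) (nat_lit 88) (.e (nat_lit 65610) (nat_lit 10) (.e (nat_lit 344097) (nat_lit 18) (.e (nat_lit 5907) (nat_lit 320) (.e (nat_lit 1220) (nat_lit 90) (.e (nat_lit 81959) (nat_lit 24) (.e (nat_lit 123184) (nat_lit 264) .nil))))))) (.g (nat_lit 6) .nil .nil))))))) (.nd (nat_lit 2) (.nd (nat_lit 3) (.nd (nat_lit 4) (.nd (nat_lit 5) 
(.lf (nat_lit 31555) (.g (nat_lit 3038) (.e (nat_lit 1201) (nat_lit 88) (.e (nat_lit 65610) (nat_lit 10) (.e (nat_lit 344090) (nat_lit 18) (.e (nat_lit 7265) (nat_lit 384) (.e (nat_lit 57427) (nat_lit 15) (.e (nat_lit 360449) (nat_lit 0) (.e (nat_lit 7122) (nat_lit 382) .nil))))))) (.g (nat_lit 6) .nil .nil))) 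
(.lf (nat_lit 31587) (.g (nat_lit 5085) (.e (nat_lit 1201) (nat_lit 88) (.e (nat_lit 65610) (nat_lit 10) (.e (nat_lit 344097) (nat_lit 18) (.e (nat_lit 5906) (nat_lit 320) (.e (nat_lit 1219) (nat_lit 90) (.e (nat_lit 81957) (nat_lit 24) (.e (nat_lit 123182) (nat_lit 264) .nil))))))) (.g (nat_lit 0) .nil .nil)))) (.nd (nat_lit 5) 
(.lf (nat_lit 31571) (.g (nat_lit 4224) (.e (nat_lit 1201) (nat_lit 88) (.e (nat_lit 65610) (nat_lit 10) (.e (nat_lit 344097) (nat_lit 18) (.e (nat_lit 5905) (nat_lit 320) (.e (nat_lit 1219) (nat_lit 90) (.e (nat_lit 81957) (nat_lit 24) (.e (nat_lit 123184) (nat_lit 264) .nil))))))) (.g (nat_lit 0) .nil .nil))) 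
(.lf (nat_lit 31603) (.g (nat_lit 1996) (.e (nat_lit 1201) (nat_lit 88) (.e (nat_lit 65610) (nat_lit 10) (.e (nat_lit 344097) (nat_lit 18) (.e (nat_lit 5906) (nat_lit 320) (.e (nat_lit 7936) (nat_lit 90) (.e (nat_lit 81959) (nat_lit 24) (.e (nat_lit 123185) (nat_lit 264) .nil))))))) (.g (nat_lit 4) .nil .nil))))) (.nd (nat_lit 4) (.nd (nat_lit 5) 
(.lf (nat_lit 31563) (.g (nat_lit 4579) (.e (nat_lit 1201) (nat_lit 88) (.e (nat_lit 65610) (nat_lit 10) (.e (nat_lit 344090) (nat_lit 18) (.e (nat_lit 7266) (nat_lit 384) (.e (nat_lit 57427) (nat_lit 15) (.e (nat_lit 360450) (nat_lit 0) (.e (nat_lit 7122) (nat_lit 382) .nil))))))) (.g (nat_lit 0) .nil .nil))) 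
(.lf (nat_lit 31595) (.g (nat_lit 4232) (.e (nat_lit 1201) (nat_lit 88) (.e (nat_lit 65610) (nat_lit 10) (.e (nat_lit 344097) (nat_lit 18) (.e (nat_lit 5906) (nat_lit 320) (.e (nat_lit 1221) (nat_lit 90) (.e (nat_lit 81957) (nat_lit 24) (.e (nat_lit 123184) (nat_lit 264) .nil))))))) (.g (nat_lit 7) .nil .nil)))) (.nd (nat_lit 5) 
(.lf (nat_lit 31579) (.g (nat_lit 2281) (.e (nat_lit 1201) (nat_lit 88) (.e (nat_lit 65610) (nat_lit 10) (.e (nat_lit 344097) (nat_lit 18) (.e (nat_lit 5905) (nat_lit 320) (.e (nat_lit 1221) (nat_lit 90) (.e (nat_lit 81957) (nat_lit 24) (.e (nat_lit 123183) (nat_lit 264) .nil))))))) (.g (nat_lit 4) .nil .nil))) 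
(.lf (nat_lit 31611) (.g (nat_lit 2528) (.e (nat_lit 1201) (nat_lit 88) (.e (nat_lit 65610) (nat_lit 10) (.e (nat_lit 344097) (nat_lit 18) (.e (nat_lit 5907) (nat_lit 320) (.e (nat_lit 1219) (nat_lit 90) (.e (nat_lit 81958) (nat_lit 24) (.e (nat_lit 123185) (nat_lit 264) .nil))))))) (.g (nat_lit 5) .nil .nil)))))) (.nd (nat_lit 3) (.nd (nat_lit 4) (.nd (nat_lit 5) 
(.lf (nat_lit 31559) (.g (nat_lit 3180) (.e (nat_lit 1201) (nat_lit 88) (.e (nat_lit 65610) (nat_lit 10) (.e (nat_lit 344090) (nat_lit 18) (.e (nat_lit 7266) (nat_lit 384) (.e (nat_lit 57426) (nat_lit 15) (.e (nat_lit 360451) (nat_lit 0) (.e (nat_lit 7124) (nat_lit 382) .nil))))))) (.g (nat_lit 6) .nil .nil))) 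
(.lf (nat_lit 31591) (.g (nat_lit 3630) (.e (nat_lit 1201) (nat_lit 88) (.e (nat_lit 65610) (nat_lit 10) (.e (nat_lit 344097) (nat_lit 18) (.e (nat_lit 5906) (nat_lit 320) (.e (nat_lit 1219) (nat_lit 90) (.e (nat_lit 81959) (nat_lit 24) (.e (nat_lit 123184) (nat_lit 264) .nil))))))) (.g (nat_lit 7) .nil .nil)))) (.nd (nat_lit 5) 
(.lf (nat_lit 31575) (.g (nat_lit 3150) (.e (nat_lit 1201) (nat_lit 88) (.e (nat_lit 65610) (nat_lit 10) (.e (nat_lit 344097) (nat_lit 18) (.e (nat_lit 5905) (nat_lit 320) (.e (nat_lit 1219) (nat_lit 90) (.e (nat_lit 81959) (nat_lit 24) (.e (nat_lit 123185) (nat_lit 264) .nil))))))) (.g (nat_lit 6) .nil .nil))) 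
(.lf (nat_lit 31607) (.g (nat_lit 5486) (.e (nat_lit 1201) (nat_lit 88) (.e (nat_lit 65610) (nat_lit 10) (.e (nat_lit 344097) (nat_lit 18) (.e (nat_lit 5907) (nat_lit 320) (.e (nat_lit 1219) (nat_lit 90) (.e (nat_lit 81957) (nat_lit 24) (.e (nat_lit 123182) (nat_lit 264) .nil))))))) (.g (nat_lit 0) .nil .nil))))) (.nd (nat_lit 4) (.nd (nat_lit 5) 
(.lf (nat_lit 31567) (.g (nat_lit 315) (.e (nat_lit 1201) (nat_lit 88) (.e (nat_lit 65610) (nat_lit 10) (.e (nat_lit 344097) (nat_lit 18) .nil))) .nil)) 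
(.lf (nat_lit 31599) (.g (nat_lit 4522) (.e (nat_lit 1201) (nat_lit 88) (.e (nat_lit 65610) (nat_lit 10) (.e (nat_lit 344097) (nat_lit 18) (.e (nat_lit 5906) (nat_lit 320) (.e (nat_lit 1221) (nat_lit 90) (.e (nat_lit 81959) (nat_lit 24) (.e (nat_lit 123184) (nat_lit 264) .nil))))))) (.g (nat_lit 0) .nil .nil)))) (.nd (nat_lit 5) 
(.lf (nat_lit 31583) (.g (nat_lit 3442) (.e (nat_lit 1201) (nat_lit 88) (.e (nat_lit 65610) (nat_lit 10) (.e (nat_lit 344097) (nat_lit 18) (.e (nat_lit 5905) (nat_lit 320) (.e (nat_lit 1221) (nat_lit 90) (.e (nat_lit 81959) (nat_lit 24) (.e (nat_lit 123181) (nat_lit 264) .nil))))))) (.g (nat_lit 5) .nil .nil))) 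
(.lf (nat_lit 31615) (.g (nat_lit 2665) (.e (nat_lit 1201) (nat_lit 88) (.e (nat_lit 65610) (nat_lit 10) (.e (nat_lit 344097) (nat_lit 18) (.e (nat_lit 5907) (nat_lit 320) (.e (nat_lit 1221) (nat_lit 90) (.e (nat_lit 81930) (nat_lit 20) (.e (nat_lit 1049) (nat_lit 81) (.e (nat_lit 5815) (nat_lit 320) .nil)))))))) (.g (nat_lit 5) .nil .nil)))))))))

noncomputable def tv442 : DT := (.nd (nat_lit 0) (.nd (nat_lit 1) (.nd (nat_lit 2) (.nd (nat_lit 3) (.nd (nat_lit 4) (.nd (nat_lit 5) 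
(.lf (nat_lit 31616) (.g (nat_lit 2800) (.e (nat_lit 1201) (nat_lit 88) (.e (nat_lit 65610) (nat_lit 10) (.e (nat_lit 344097) (nat_lit 18) (.e (nat_lit 5907) (nat_lit 320) (.e (nat_lit 1221) (nat_lit 90) (.e (nat_lit 81930) (nat_lit 20) (.e (nat_lit 1049) (nat_lit 81) (.e (nat_lit 5820) (nat_lit 320) .nil)))))))) (.g (nat_lit 5) .nil .nil))) 
(.lf (nat_lit 31648) (.g (nat_lit 3886) (.e (nat_lit 1201) (nat_lit 88) (.e (nat_lit 65610) (nat_lit 10) (.e (nat_lit 344097) (nat_lit 18) (.e (nat_lit 7270) (nat_lit 385) (.e (nat_lit 122917) (nat_lit 15) (.e (nat_lit 360450) (nat_lit 0) (.e (nat_lit 7122) (nat_lit 382) .nil))))))) (.g (nat_lit 5) .nil .nil)))) (.nd (nat_lit 5) 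
(.lf (nat_lit 31632) (.g (nat_lit 1400) (.e (nat_lit 1201) (nat_lit 88) (.e (nat_lit 65610) (nat_lit 10) (.e (nat_lit 344097) (nat_lit 18) (.e (nat_lit 7146) (nat_lit 382) .nil)))) .nil)) 
(.lf (nat_lit 31664) (.g (nat_lit 3796) (.e (nat_lit 1201) (nat_lit 88) (.e (nat_lit 65610) (nat_lit 10) (.e (nat_lit 344097) (nat_lit 18) (.e (nat_lit 7271) (nat_lit 385) (.e (nat_lit 122917) (nat_lit 15) (.e (nat_lit 360449) (nat_lit 0) (.e (nat_lit 7124) (nat_lit 382) .nil))))))) (.g (nat_lit 7) .nil .nil))))) (.nd (nat_lit 4) (.nd (nat_lit 5) 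
(.lf (nat_lit 31624) (.g (nat_lit 4605) (.e (nat_lit 1201) (nat_lit 88) (.e (nat_lit 65610) (nat_lit 10) (.e (nat_lit 344097) (nat_lit 18) (.e (nat_lit 5907) (nat_lit 320) (.e (nat_lit 1221) (nat_lit 90) (.e (nat_lit 81957) (nat_lit 24) (.e (nat_lit 123184) (nat_lit 264) .nil))))))) (.g (nat_lit 7) .nil .nil))) 
(.lf (nat_lit 31656) (.g (nat_lit 3970) (.e (nat_lit 1201) (nat_lit 88) (.e (nat_lit 65610) (nat_lit 10) (.e (nat_lit 344097) (nat_lit 18) (.e (nat_lit 7270) (nat_lit 385) (.e (nat_lit 122918) (nat_lit 15) (.e (nat_lit 360451) (nat_lit 0) (.e (nat_lit 7124) (nat_lit 382) .nil))))))) (.g (nat_lit 6) .nil .nil)))) (.nd (nat_lit 5) 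
(.lf (nat_lit 31640) (.g (nat_lit 1708) (.e (nat_lit 1201) (nat_lit 88) (.e (nat_lit 65610) (nat_lit 10) (.e (nat_lit 344097) (nat_lit 18) (.e (nat_lit 7195) (nat_lit 382) .nil)))) .nil)) 
(.lf (nat_lit 31672) (.g (nat_lit 2977) (.e (nat_lit 1201) (nat_lit 88) (.e (nat_lit 65610) (nat_lit 10) (.e (nat_lit 344097) (nat_lit 18) (.e (nat_lit 7271) (nat_lit 385) (.e (nat_lit 122919) (nat_lit 15) (.e (nat_lit 360449) (nat_lit 0) (.e (nat_lit 7122) (nat_lit 382) .nil))))))) (.g (nat_lit 5) .nil .nil)))))) (.nd (nat_lit 3) (.nd (nat_lit 4) (.nd (nat_lit 5) 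
(.lf (nat_lit 31620) (.g (nat_lit 2296) (.e (nat_lit 1201) (nat_lit 88) (.e (nat_lit 65610) (nat_lit 10) (.e (nat_lit 344097) (nat_lit 18) (.e (nat_lit 5907) (nat_lit 320) (.e (nat_lit 1221) (nat_lit 90) (.e (nat_lit 81930) (nat_lit 20) (.e (nat_lit 1053) (nat_lit 81) (.e (nat_lit 5819) (nat_lit 320) .nil)))))))) (.g (nat_lit 4) .nil .nil))) 
(.lf (nat_lit 31652) (.g (nat_lit 2591) (.e (nat_lit 1201) (nat_lit 88) (.e (nat_lit 65610) (nat_lit 10) (.e (nat_lit 344097) (nat_lit 18) (.e (nat_lit 7270) (nat_lit 385) (.e (nat_lit 122918) (nat_lit 15) (.e (nat_lit 360449) (nat_lit 0) (.e (nat_lit 7122) (nat_lit 382) .nil))))))) (.g (nat_lit 4) .nil .nil)))) (.nd (nat_lit 5) 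
(.lf (nat_lit 31636) (.g (nat_lit 2013) (.e (nat_lit 1201) (nat_lit 88) (.e (nat_lit 65610) (nat_lit 10) (.e (nat_lit 344097) (nat_lit 18) (.e (nat_lit 7165) (nat_lit 382) (.e (nat_lit 1057) (nat_lit 81) .nil))))) .nil)) 
(.lf (nat_lit 31668) (.g (nat_lit 2294) (.e (nat_lit 1201) (nat_lit 88) (.e (nat_lit 65610) (nat_lit 10) (.e (nat_lit 344097) (nat_lit 18) (.e (nat_lit 7271) (nat_lit 385) (.e (nat_lit 122917) (nat_lit 15) (.e (nat_lit 368384) (nat_lit 0) (.e (nat_lit 7124) (nat_lit 382) .nil))))))) (.g (nat_lit 4) .nil .nil))))) (.nd (nat_lit 4) (.nd (nat_lit 5) 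
(.lf (nat_lit 31628) (.g (nat_lit 4984) (.e (nat_lit 1201) (nat_lit 88) (.e (nat_lit 65610) (nat_lit 10) (.e (nat_lit 344097) (nat_lit 18) (.e (nat_lit 5907) (nat_lit 320) (.e (nat_lit 1221) (nat_lit 90) (.e (nat_lit 81959) (nat_lit 24) (.e (nat_lit 123184) (nat_lit 264) .nil))))))) (.g (nat_lit 0) .nil .nil))) 
(.lf (nat_lit 31660) (.g (nat_lit 4772) (.e (nat_lit 1201) (nat_lit 88) (.e (nat_lit 65610) (nat_lit 10) (.e (nat_lit 344097) (nat_lit 18) (.e (nat_lit 7270) (nat_lit 385) (.e (nat_lit 122919) (nat_lit 15) (.e (nat_lit 360450) (nat_lit 0) (.e (nat_lit 7125) (nat_lit 382) .nil))))))) (.g (nat_lit 6) .nil .nil)))) (.nd (nat_lit 5) 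
(.lf (nat_lit 31644) (.g (nat_lit 4604) (.e (nat_lit 1201) (nat_lit 88) (.e (nat_lit 65610) (nat_lit 10) (.e (nat_lit 344097) (nat_lit 18) (.e (nat_lit 7267) (nat_lit 385) (.e (nat_lit 122919) (nat_lit 15) (.e (nat_lit 360451) (nat_lit 0) (.e (nat_lit 7124) (nat_lit 382) .nil))))))) (.g (nat_lit 0) .nil .nil))) 
(.lf (nat_lit 31676) (.g (nat_lit 4810) (.e (nat_lit 1201) (nat_lit 88) (.e (nat_lit 65610) (nat_lit 10) (.e (nat_lit 344097) (nat_lit 18) (.e (nat_lit 7271) (nat_lit 385) (.e (nat_lit 122919) (nat_lit 15) (.e (nat_lit 360451) (nat_lit 0) (.e (nat_lit 7124) (nat_lit 382) .nil))))))) (.g (nat_lit 0) .nil .nil))))))) (.nd (nat_lit 2) (.nd (nat_lit 3) (.nd (nat_lit 4) (.nd (nat_lit 5) 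
(.lf (nat_lit 31618) (.g (nat_lit 2059) (.e (nat_lit 1201) (nat_lit 88) (.e (nat_lit 65610) (nat_lit 10) (.e (nat_lit 344097) (nat_lit 18) (.e (nat_lit 5907) (nat_lit 320) (.e (nat_lit 1221) (nat_lit 90) (.e (nat_lit 81930) (nat_lit 20) (.e (nat_lit 1051) (nat_lit 81) (.e (nat_lit 5820) (nat_lit 320) .nil)))))))) (.g (nat_lit 4) .nil .nil))) 
(.lf (nat_lit 31650) (.g (nat_lit 3997) (.e (nat_lit 1201) (nat_lit 88) (.e (nat_lit 65610) (nat_lit 10) (.e (nat_lit 344097) (nat_lit 18) (.e (nat_lit 7270) (nat_lit 385) (.e (nat_lit 122917) (nat_lit 15) (.e (nat_lit 360451) (nat_lit 0) (.e (nat_lit 7122) (nat_lit 382) .nil))))))) (.g (nat_lit 5) .nil .nil)))) (.nd (nat_lit 5) 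
(.lf (nat_lit 31634) (.g (nat_lit 1750) (.e (nat_lit 1201) (nat_lit 88) (.e (nat_lit 65610) (nat_lit 10) (.e (nat_lit 344097) (nat_lit 18) (.e (nat_lit 7160) (nat_lit 382) .nil)))) .nil)) 
(.lf (nat_lit 31666) (.g (nat_lit 2281) (.e (nat_lit 1201) (nat_lit 88) (.e (nat_lit 65610) (nat_lit 10) (.e (nat_lit 344097) (nat_lit 18) (.e (nat_lit 7271) (nat_lit 385) (.e (nat_lit 122917) (nat_lit 15) (.e (nat_lit 360451) (nat_lit 0) (.e (nat_lit 7122) (nat_lit 382) .nil))))))) (.g (nat_lit 4) .nil .nil))))) (.nd (nat_lit 4) (.nd (nat_lit 5) 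
(.lf (nat_lit 31626) (.g (nat_lit 3737) (.e (nat_lit 1201) (nat_lit 88) (.e (nat_lit 65610) (nat_lit 10) (.e (nat_lit 344097) (nat_lit 18) (.e (nat_lit 5907) (nat_lit 320) (.e (nat_lit 1221) (nat_lit 90) (.e (nat_lit 81958) (nat_lit 24) (.e (nat_lit 123183) (nat_lit 264) .nil))))))) (.g (nat_lit 7) .nil .nil))) 
(.lf (nat_lit 31658) (.g (nat_lit 4616) (.e (nat_lit 1201) (nat_lit 88) (.e (nat_lit 65610) (nat_lit 10) (.e (nat_lit 344097) (nat_lit 18) (.e (nat_lit 7270) (nat_lit 385) (.e (nat_lit 122919) (nat_lit 15) (.e (nat_lit 360449) (nat_lit 0) (.e (nat_lit 7122) (nat_lit 382) .nil))))))) (.g (nat_lit 7) .nil .nil)))) (.nd (nat_lit 5) 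
(.lf (nat_lit 31642) (.g (nat_lit 1735) (.e (nat_lit 1201) (nat_lit 88) (.e (nat_lit 65610) (nat_lit 10) (.e (nat_lit 344097) (nat_lit 18) (.e (nat_lit 7267) (nat_lit 385) .nil)))) .nil)) 
(.lf (nat_lit 31674) (.g (nat_lit 3609) (.e (nat_lit 1201) (nat_lit 88) (.e (nat_lit 65610) (nat_lit 10) (.e (nat_lit 344097) (nat_lit 18) (.e (nat_lit 7271) (nat_lit 385) (.e (nat_lit 122919) (nat_lit 15) (.e (nat_lit 360449) (nat_lit 0) (.e (nat_lit 7125) (nat_lit 382) .nil))))))) (.g (nat_lit 6) .nil .nil)))))) (.nd (nat_lit 3) (.nd (nat_lit 4) (.nd (nat_lit 5) 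
(.lf (nat_lit 31622) (.g (nat_lit 2610) (.e (nat_lit 1201) (nat_lit 88) (.e (nat_lit 65610) (nat_lit 10) (.e (nat_lit 344097) (nat_lit 18) (.e (nat_lit 5907) (nat_lit 320) (.e (nat_lit 1221) (nat_lit 90) (.e (nat_lit 81937) (nat_lit 20) (.e (nat_lit 1063) (nat_lit 81) (.e (nat_lit 5817) (nat_lit 320) .nil)))))))) (.g (nat_lit 5) .nil .nil))) 
(.lf (nat_lit 31654) (.g (nat_lit 2772) (.e (nat_lit 1201) (nat_lit 88) (.e (nat_lit 65610) (nat_lit 10) (.e (nat_lit 344097) (nat_lit 18) (.e (nat_lit 7270) (nat_lit 385) (.e (nat_lit 122918) (nat_lit 15) (.e (nat_lit 360450) (nat_lit 0) (.e (nat_lit 7122) (nat_lit 382) .nil))))))) (.g (nat_lit 4) .nil .nil)))) (.nd (nat_lit 5) 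
(.lf (nat_lit 31638) (.g (nat_lit 1708) (.e (nat_lit 1201) (nat_lit 88) (.e (nat_lit 65610) (nat_lit 10) (.e (nat_lit 344097) (nat_lit 18) (.e (nat_lit 7193) (nat_lit 382) .nil)))) .nil)) 
(.lf (nat_lit 31670) (.g (nat_lit 2035) (.e (nat_lit 1201) (nat_lit 88) (.e (nat_lit 65610) (nat_lit 10) (.e (nat_lit 344097) (nat_lit 18) (.e (nat_lit 7271) (nat_lit 385) (.e (nat_lit 122918) (nat_lit 15) (.e (nat_lit 360450) (nat_lit 0) (.e (nat_lit 7122) (nat_lit 382) .nil))))))) (.g (nat_lit 4) .nil .nil))))) (.nd (nat_lit 4) (.nd (nat_lit 5) 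
(.lf (nat_lit 31630) (.g (nat_lit 2191) (.e (nat_lit 1201) (nat_lit 88) (.e (nat_lit 65610) (nat_lit 10) (.e (nat_lit 344097) (nat_lit 18) (.e (nat_lit 5907) (nat_lit 320) (.e (nat_lit 7936) (nat_lit 90) (.e (nat_lit 81959) (nat_lit 24) (.e (nat_lit 123185) (nat_lit 264) .nil))))))) (.g (nat_lit 4) .nil .nil))) 
(.lf (nat_lit 31662) (.g (nat_lit 5868) (.e (nat_lit 1201) (nat_lit 88) (.e (nat_lit 65610) (nat_lit 10) (.e (nat_lit 344097) (nat_lit 18) (.e (nat_lit 7270) (nat_lit 385) (.e (nat_lit 122919) (nat_lit 15) (.e (nat_lit 360451) (nat_lit 0) (.e (nat_lit 7125) (nat_lit 382) .nil))))))) (.g (nat_lit 0) .nil .nil)))) (.nd (nat_lit 5) 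
(.lf (nat_lit 31646) (.g (nat_lit 2441) (.e (nat_lit 1201) (nat_lit 88) (.e (nat_lit 65610) (nat_lit 10) (.e (nat_lit 344097) (nat_lit 18) (.e (nat_lit 7270) (nat_lit 385) (.e (nat_lit 122906) (nat_lit 12) (.e (nat_lit 336172) (nat_lit 10) (.e (nat_lit 344096) (nat_lit 18) (.e (nat_lit 7125) (nat_lit 382) .nil)))))))) (.g (nat_lit 4) .nil .nil))) 
(.lf (nat_lit 31678) (.g (nat_lit 2148) (.e (nat_lit 1201) (nat_lit 88) (.e (nat_lit 65610) (nat_lit 10) (.e (nat_lit 344097) (nat_lit 18) (.e (nat_lit 7271) (nat_lit 385) (.e (nat_lit 122919) (nat_lit 15) (.e (nat_lit 368384) (nat_lit 0) (.e (nat_lit 7124) (nat_lit 382) .nil))))))) (.g (nat_lit 4) .nil .nil)))))))) 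
(.nd (nat_lit 1) (.nd (nat_lit 2) (.nd (nat_lit 3) (.nd (nat_lit 4) (.nd (nat_lit 5) 
(.lf (nat_lit 31617) (.g (nat_lit 2069) (.e (nat_lit 1201) (nat_lit 88) (.e (nat_lit 65610) (nat_lit 10) (.e (nat_lit 344097) (nat_lit 18) (.e (nat_lit 5907) (nat_lit 320) (.e (nat_lit 1221) (nat_lit 90) (.e (nat_lit 81930) (nat_lit 20) (.e (nat_lit 1051) (nat_lit 81) (.e (nat_lit 5815) (nat_lit 320) .nil)))))))) (.g (nat_lit 4) .nil .nil))) 
(.lf (nat_lit 31649) (.g (nat_lit 2980) (.e (nat_lit 1201) (nat_lit 88) (.e (nat_lit 65610) (nat_lit 10) (.e (nat_lit 344097) (nat_lit 18) (.e (nat_lit 7270) (nat_lit 385) (.e (nat_lit 122917) (nat_lit 15) (.e (nat_lit 360450) (nat_lit 0) (.e (nat_lit 7125) (nat_lit 382) .nil))))))) (.g (nat_lit 4) .nil .nil)))) (.nd (nat_lit 5) 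
(.lf (nat_lit 31633) (.g (nat_lit 1115) (.e (nat_lit 1201) (nat_lit 88) (.e (nat_lit 65610) (nat_lit 10) (.e (nat_lit 344097) (nat_lit 18) (.e (nat_lit 7147) (nat_lit 382) .nil)))) .nil)) 
(.lf (nat_lit 31665) (.g (nat_lit 4251) (.e (nat_lit 1201) (nat_lit 88) (.e (nat_lit 65610) (nat_lit 10) (.e (nat_lit 344097) (nat_lit 18) (.e (nat_lit 7271) (nat_lit 385) (.e (nat_lit 122917) (nat_lit 15) (.e (nat_lit 360449) (nat_lit 0) (.e (nat_lit 7125) (nat_lit 382) .nil))))))) (.g (nat_lit 0) .nil .nil))))) (.nd (nat_lit 4) (.nd (nat_lit 5) 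
(.lf (nat_lit 31625) (.g (nat_lit 3904) (.e (nat_lit 1201) (nat_lit 88) (.e (nat_lit 65610) (nat_lit 10) (.e (nat_lit 344097) (nat_lit 18) (.e (nat_lit 5907) (nat_lit 320) (.e (nat_lit 1221) (nat_lit 90) (.e (nat_lit 81957) (nat_lit 24) (.e (nat_lit 123185) (nat_lit 264) .nil))))))) (.g (nat_lit 6) .nil .nil))) 
(.lf (nat_lit 31657) (.g (nat_lit 3684) (.e (nat_lit 1201) (nat_lit 88) (.e (nat_lit 65610) (nat_lit 10) (.e (nat_lit 344097) (nat_lit 18) (.e (nat_lit 7270) (nat_lit 385) (.e (nat_lit 122919) (nat_lit 15) (.e (nat_lit 360448) (nat_lit 0) (.e (nat_lit 7125) (nat_lit 382) .nil))))))) (.g (nat_lit 5) .nil .nil)))) (.nd (nat_lit 5) 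
(.lf (nat_lit 31641) (.g (nat_lit 1708) (.e (nat_lit 1201) (nat_lit 88) (.e (nat_lit 65610) (nat_lit 10) (.e (nat_lit 344097) (nat_lit 18) (.e (nat_lit 7223) (nat_lit 382) .nil)))) .nil)) 
(.lf (nat_lit 31673) (.g (nat_lit 2993) (.e (nat_lit 1201) (nat_lit 88) (.e (nat_lit 65610) (nat_lit 10) (.e (nat_lit 344097) (nat_lit 18) (.e (nat_lit 7271) (nat_lit 385) (.e (nat_lit 122919) (nat_lit 15) (.e (nat_lit 360449) (nat_lit 0) (.e (nat_lit 7124) (nat_lit 382) .nil))))))) (.g (nat_lit 5) .nil .nil)))))) (.nd (nat_lit 3) (.nd (nat_lit 4) (.nd (nat_lit 5) 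
(.lf (nat_lit 31621) (.g (nat_lit 2801) (.e (nat_lit 1201) (nat_lit 88) (.e (nat_lit 65610) (nat_lit 10) (.e (nat_lit 344097) (nat_lit 18) (.e (nat_lit 5907) (nat_lit 320) (.e (nat_lit 1221) (nat_lit 90) (.e (nat_lit 81930) (nat_lit 20) (.e (nat_lit 1103) (nat_lit 81) (.e (nat_lit 5815) (nat_lit 320) .nil)))))))) (.g (nat_lit 5) .nil .nil))) 
(.lf (nat_lit 31653) (.g (nat_lit 2629) (.e (nat_lit 1201) (nat_lit 88) (.e (nat_lit 65610) (nat_lit 10) (.e (nat_lit 344097) (nat_lit 18) (.e (nat_lit 7270) (nat_lit 385) (.e (nat_lit 122918) (nat_lit 15) (.e (nat_lit 360449) (nat_lit 0) (.e (nat_lit 7124) (nat_lit 382) .nil))))))) (.g (nat_lit 4) .nil .nil)))) (.nd (nat_lit 5) 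
(.lf (nat_lit 31637) (.g (nat_lit 1708) (.e (nat_lit 1201) (nat_lit 88) (.e (nat_lit 65610) (nat_lit 10) (.e (nat_lit 344097) (nat_lit 18) (.e (nat_lit 7172) (nat_lit 382) .nil)))) .nil)) 
(.lf (nat_lit 31669) (.g (nat_lit 1960) (.e (nat_lit 1201) (nat_lit 88) (.e (nat_lit 65610) (nat_lit 10) (.e (nat_lit 344097) (nat_lit 18) (.e (nat_lit 7271) (nat_lit 385) (.e (nat_lit 122918) (nat_lit 15) .nil))))) .nil)))) (.nd (nat_lit 4) (.nd (nat_lit 5) 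
(.lf (nat_lit 31629) (.g (nat_lit 2109) (.e (nat_lit 1201) (nat_lit 88) (.e (nat_lit 65610) (nat_lit 10) (.e (nat_lit 344097) (nat_lit 18) (.e (nat_lit 5907) (nat_lit 320) (.e (nat_lit 7936) (nat_lit 90) (.e (nat_lit 81957) (nat_lit 24) (.e (nat_lit 123185) (nat_lit 264) .nil))))))) (.g (nat_lit 4) .nil .nil))) 
(.lf (nat_lit 31661) (.g (nat_lit 4791) (.e (nat_lit 1201) (nat_lit 88) (.e (nat_lit 65610) (nat_lit 10) (.e (nat_lit 344097) (nat_lit 18) (.e (nat_lit 7270) (nat_lit 385) (.e (nat_lit 122919) (nat_lit 15) (.e (nat_lit 360451) (nat_lit 0) (.e (nat_lit 7122) (nat_lit 382) .nil))))))) (.g (nat_lit 6) .nil .nil)))) (.nd (nat_lit 5) 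
(.lf (nat_lit 31645) (.g (nat_lit 2369) (.e (nat_lit 1201) (nat_lit 88) (.e (nat_lit 65610) (nat_lit 10) (.e (nat_lit 344097) (nat_lit 18) (.e (nat_lit 7270) (nat_lit 385) (.e (nat_lit 122906) (nat_lit 12) .nil))))) .nil)) 
(.lf (nat_lit 31677) (.g (nat_lit 5188) (.e (nat_lit 1201) (nat_lit 88) (.e (nat_lit 65610) (nat_lit 10) (.e (nat_lit 344097) (nat_lit 18) (.e (nat_lit 7271) (nat_lit 385) (.e (nat_lit 122919) (nat_lit 15) (.e (nat_lit 360451) (nat_lit 0) (.e (nat_lit 7125) (nat_lit 382) .nil))))))) (.g (nat_lit 0) .nil .nil))))))) (.nd (nat_lit 2) (.nd (nat_lit 3) (.nd (nat_lit 4) (.nd (nat_lit 5) 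
(.lf (nat_lit 31619) (.g (nat_lit 2803) (.e (nat_lit 1201) (nat_lit 88) (.e (nat_lit 65610) (nat_lit 10) (.e (nat_lit 344097) (nat_lit 18) (.e (nat_lit 5907) (nat_lit 320) (.e (nat_lit 1221) (nat_lit 90) (.e (nat_lit 81930) (nat_lit 20) (.e (nat_lit 1053) (nat_lit 81) (.e (nat_lit 5815) (nat_lit 320) .nil)))))))) (.g (nat_lit 5) .nil .nil))) 
(.lf (nat_lit 31651) (.g (nat_lit 5254) (.e (nat_lit 1201) (nat_lit 88) (.e (nat_lit 65610) (nat_lit 10) (.e (nat_lit 344097) (nat_lit 18) (.e (nat_lit 7270) (nat_lit 385) (.e (nat_lit 122917) (nat_lit 15) (.e (nat_lit 360451) (nat_lit 0) (.e (nat_lit 7124) (nat_lit 382) .nil))))))) (.g (nat_lit 7) .nil .nil)))) (.nd (nat_lit 5) 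
(.lf (nat_lit 31635) (.g (nat_lit 2008) (.e (nat_lit 1201) (nat_lit 88) (.e (nat_lit 65610) (nat_lit 10) (.e (nat_lit 344097) (nat_lit 18) (.e (nat_lit 7160) (nat_lit 382) (.e (nat_lit 977) (nat_lit 81) .nil))))) .nil)) 
(.lf (nat_lit 31667) (.g (nat_lit 3538) (.e (nat_lit 1201) (nat_lit 88) (.e (nat_lit 65610) (nat_lit 10) (.e (nat_lit 344097) (nat_lit 18) (.e (nat_lit 7271) (nat_lit 385) (.e (nat_lit 122917) (nat_lit 15) (.e (nat_lit 360451) (nat_lit 0) (.e (nat_lit 7124) (nat_lit 382) .nil))))))) (.g (nat_lit 6) .nil .nil))))) (.nd (nat_lit 4) (.nd (nat_lit 5) 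
(.lf (nat_lit 31627) (.g (nat_lit 2943) (.e (nat_lit 1201) (nat_lit 88) (.e (nat_lit 65610) (nat_lit 10) (.e (nat_lit 344097) (nat_lit 18) (.e (nat_lit 5907) (nat_lit 320) (.e (nat_lit 1221) (nat_lit 90) (.e (nat_lit 81958) (nat_lit 24) (.e (nat_lit 123185) (nat_lit 264) .nil))))))) (.g (nat_lit 5) .nil .nil))) 
(.lf (nat_lit 31659) (.g (nat_lit 4626) (.e (nat_lit 1201) (nat_lit 88) (.e (nat_lit 65610) (nat_lit 10) (.e (nat_lit 344097) (nat_lit 18) (.e (nat_lit 7270) (nat_lit 385) (.e (nat_lit 122919) (nat_lit 15) (.e (nat_lit 360449) (nat_lit 0) (.e (nat_lit 7124) (nat_lit 382) .nil))))))) (.g (nat_lit 7) .nil .nil)))) (.nd (nat_lit 5) 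
(.lf (nat_lit 31643) (.g (nat_lit 2012) (.e (nat_lit 1201) (nat_lit 88) (.e (nat_lit 65610) (nat_lit 10) (.e (nat_lit 344097) (nat_lit 18) (.e (nat_lit 7267) (nat_lit 385) (.e (nat_lit 122917) (nat_lit 15) (.e (nat_lit 360449) (nat_lit 0) (.e (nat_lit 7125) (nat_lit 382) .nil))))))) (.g (nat_lit 4) .nil .nil))) 
(.lf (nat_lit 31675) (.g (nat_lit 4117) (.e (nat_lit 1201) (nat_lit 88) (.e (nat_lit 65610) (nat_lit 10) (.e (nat_lit 344097) (nat_lit 18) (.e (nat_lit 7271) (nat_lit 385) (.e (nat_lit 122919) (nat_lit 15) (.e (nat_lit 360450) (nat_lit 0) (.e (nat_lit 7122) (nat_lit 382) .nil))))))) (.g (nat_lit 6) .nil .nil)))))) (.nd (nat_lit 3) (.nd (nat_lit 4) (.nd (nat_lit 5) 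
(.lf (nat_lit 31623) (.g (nat_lit 3268) (.e (nat_lit 1201) (nat_lit 88) (.e (nat_lit 65610) (nat_lit 10) (.e (nat_lit 344097) (nat_lit 18) (.e (nat_lit 5907) (nat_lit 320) (.e (nat_lit 1221) (nat_lit 90) (.e (nat_lit 81937) (nat_lit 20) (.e (nat_lit 1068) (nat_lit 81) (.e (nat_lit 5817) (nat_lit 320) .nil)))))))) (.g (nat_lit 5) .nil .nil))) 
(.lf (nat_lit 31655) (.g (nat_lit 2884) (.e (nat_lit 1201) (nat_lit 88) (.e (nat_lit 65610) (nat_lit 10) (.e (nat_lit 344097) (nat_lit 18) (.e (nat_lit 7270) (nat_lit 385) (.e (nat_lit 122918) (nat_lit 15) (.e (nat_lit 360451) (nat_lit 0) (.e (nat_lit 7122) (nat_lit 382) .nil))))))) (.g (nat_lit 4) .nil .nil)))) (.nd (nat_lit 5) 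
(.lf (nat_lit 31639) (.g (nat_lit 1708) (.e (nat_lit 1201) (nat_lit 88) (.e (nat_lit 65610) (nat_lit 10) (.e (nat_lit 344097) (nat_lit 18) (.e (nat_lit 7194) (nat_lit 382) .nil)))) .nil)) 
(.lf (nat_lit 31671) (.g (nat_lit 2147) (.e (nat_lit 1201) (nat_lit 88) (.e (nat_lit 65610) (nat_lit 10) (.e (nat_lit 344097) (nat_lit 18) (.e (nat_lit 7271) (nat_lit 385) (.e (nat_lit 122918) (nat_lit 15) (.e (nat_lit 360451) (nat_lit 0) (.e (nat_lit 7122) (nat_lit 382) .nil))))))) (.g (nat_lit 4) .nil .nil))))) (.nd (nat_lit 4) (.nd (nat_lit 5) 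
(.lf (nat_lit 31631) (.g (nat_lit 1398) (.e (nat_lit 1201) (nat_lit 88) (.e (nat_lit 65610) (nat_lit 10) (.e (nat_lit 344097) (nat_lit 18) (.e (nat_lit 7144) (nat_lit 382) .nil)))) .nil)) 
(.lf (nat_lit 31663) (.g (nat_lit 1404) (.e (nat_lit 1201) (nat_lit 88) (.e (nat_lit 65610) (nat_lit 10) (.e (nat_lit 344097) (nat_lit 18) (.e (nat_lit 7271) (nat_lit 385) .nil)))) .nil))) (.nd (nat_lit 5) 
(.lf (nat_lit 31647) (.g (nat_lit 2460) (.e (nat_lit 1201) (nat_lit 88) (.e (nat_lit 65610) (nat_lit 10) (.e (nat_lit 344097) (nat_lit 18) (.e (nat_lit 7270) (nat_lit 385) (.e (nat_lit 122916) (nat_lit 14) (.e (nat_lit 352293) (nat_lit 20) (.e (nat_lit 1015) (nat_lit 81) (.e (nat_lit 7125) (nat_lit 382) .nil)))))))) (.g (nat_lit 4) .nil .nil))) 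
(.lf (nat_lit 31679) (.g (nat_lit 2326) (.e (nat_lit 1201) (nat_lit 88) (.e (nat_lit 65610) (nat_lit 10) (.e (nat_lit 344097) (nat_lit 18) (.e (nat_lit 7272) (nat_lit 385) (.e (nat_lit 122906) (nat_lit 12) (.e (nat_lit 336172) (nat_lit 10) (.e (nat_lit 344095) (nat_lit 18) (.e (nat_lit 7122) (nat_lit 382) .nil)))))))) (.g (nat_lit 5) .nil .nil)))))))))

noncomputable def tv443 : DT := (.nd (nat_lit 0) (.nd (nat_lit 1) (.nd (nat_lit 2) (.nd (nat_lit 3) (.nd (nat_lit 4) (.nd (nat_lit 5) 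
(.lf (nat_lit 31680) (.g (nat_lit 1819) (.e (nat_lit 1201) (nat_lit 88) (.e (nat_lit 65610) (nat_lit 10) (.e (nat_lit 344097) (nat_lit 18) (.e (nat_lit 7272) (nat_lit 385) (.e (nat_lit 122906) (nat_lit 12) (.e (nat_lit 336172) (nat_lit 10) (.e (nat_lit 344096) (nat_lit 18) (.e (nat_lit 7124) (nat_lit 382) .nil)))))))) (.g (nat_lit 4) .nil .nil))) 
(.lf (nat_lit 31712) (.g (nat_lit 1919) (.e (nat_lit 1201) (nat_lit 88) (.e (nat_lit 65610) (nat_lit 10) (.e (nat_lit 344117) (nat_lit 21) (.e (nat_lit 516116) (nat_lit 1) .nil)))) .nil))) (.nd (nat_lit 5) 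
(.lf (nat_lit 31696) (.g (nat_lit 1953) (.e (nat_lit 1201) (nat_lit 88) (.e (nat_lit 65610) (nat_lit 10) (.e (nat_lit 344097) (nat_lit 18) (.e (nat_lit 7273) (nat_lit 385) (.e (nat_lit 122917) (nat_lit 15) (.e (nat_lit 368384) (nat_lit 0) (.e (nat_lit 7124) (nat_lit 382) .nil))))))) (.g (nat_lit 4) .nil .nil))) 
(.lf (nat_lit 31728) (.g (nat_lit 3922) (.e (nat_lit 1201) (nat_lit 88) (.e (nat_lit 65610) (nat_lit 10) (.e (nat_lit 344117) (nat_lit 21) (.e (nat_lit 516185) (nat_lit 16) (.e (nat_lit 491560) (nat_lit 10) (.e (nat_lit 344088) (nat_lit 18) (.e (nat_lit 3922) (nat_lit 239) .nil))))))) (.g (nat_lit 5) .nil .nil))))) (.nd (nat_lit 4) (.nd (nat_lit 5) 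
(.lf (nat_lit 31688) (.g (nat_lit 2124) (.e (nat_lit 1201) (nat_lit 88) (.e (nat_lit 65610) (nat_lit 10) (.e (nat_lit 344097) (nat_lit 18) (.e (nat_lit 7272) (nat_lit 385) (.e (nat_lit 122919) (nat_lit 15) (.e (nat_lit 360448) (nat_lit 0) (.e (nat_lit 7125) (nat_lit 382) .nil))))))) (.g (nat_lit 4) .nil .nil))) 
(.lf (nat_lit 31720) (.g (nat_lit 5546) (.e (nat_lit 1201) (nat_lit 88) (.e (nat_lit 65610) (nat_lit 10) (.e (nat_lit 344117) (nat_lit 21) (.e (nat_lit 516183) (nat_lit 16) (.e (nat_lit 491566) (nat_lit 12) (.e (nat_lit 385045) (nat_lit 21) (.e (nat_lit 4177) (nat_lit 251) .nil))))))) (.g (nat_lit 0) .nil .nil)))) (.nd (nat_lit 5) 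
(.lf (nat_lit 31704) (.g (nat_lit 4013) (.e (nat_lit 1201) (nat_lit 88) (.e (nat_lit 65610) (nat_lit 10) (.e (nat_lit 344097) (nat_lit 18) (.e (nat_lit 7273) (nat_lit 385) (.e (nat_lit 122919) (nat_lit 15) (.e (nat_lit 360451) (nat_lit 0) (.e (nat_lit 7122) (nat_lit 382) .nil))))))) (.g (nat_lit 6) .nil .nil))) 
(.lf (nat_lit 31736) (.g (nat_lit 1976) (.e (nat_lit 1201) (nat_lit 88) (.e (nat_lit 65610) (nat_lit 10) (.e (nat_lit 344117) (nat_lit 21) (.e (nat_lit 516191) (nat_lit 17) .nil)))) .nil))))) (.nd (nat_lit 3) (.nd (nat_lit 4) (.nd (nat_lit 5) 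
(.lf (nat_lit 31684) (.g (nat_lit 2186) (.e (nat_lit 1201) (nat_lit 88) (.e (nat_lit 65610) (nat_lit 10) (.e (nat_lit 344097) (nat_lit 18) (.e (nat_lit 7272) (nat_lit 385) (.e (nat_lit 122918) (nat_lit 15) (.e (nat_lit 360449) (nat_lit 0) (.e (nat_lit 7124) (nat_lit 382) .nil))))))) (.g (nat_lit 4) .nil .nil))) 
(.lf (nat_lit 31716) (.g (nat_lit 3376) (.e (nat_lit 1201) (nat_lit 88) (.e (nat_lit 65610) (nat_lit 10) (.e (nat_lit 344117) (nat_lit 21) (.e (nat_lit 516183) (nat_lit 16) (.e (nat_lit 491566) (nat_lit 12) (.e (nat_lit 385043) (nat_lit 21) (.e (nat_lit 4186) (nat_lit 251) .nil))))))) (.g (nat_lit 4) .nil .nil)))) (.nd (nat_lit 5) 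
(.lf (nat_lit 31700) (.g (nat_lit 3150) (.e (nat_lit 1201) (nat_lit 88) (.e (nat_lit 65610) (nat_lit 10) (.e (nat_lit 344097) (nat_lit 18) (.e (nat_lit 7273) (nat_lit 385) (.e (nat_lit 122919) (nat_lit 15) (.e (nat_lit 360449) (nat_lit 0) (.e (nat_lit 7122) (nat_lit 382) .nil))))))) (.g (nat_lit 6) .nil .nil))) 
(.lf (nat_lit 31732) (.g (nat_lit 5858) (.e (nat_lit 1201) (nat_lit 88) (.e (nat_lit 65610) (nat_lit 10) (.e (nat_lit 344117) (nat_lit 21) (.e (nat_lit 516185) (nat_lit 16) (.e (nat_lit 491563) (nat_lit 12) (.e (nat_lit 385047) (nat_lit 21) (.e (nat_lit 4177) (nat_lit 251) .nil))))))) (.g (nat_lit 5) .nil .nil))))) (.nd (nat_lit 4) (.nd (nat_lit 5) 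
(.lf (nat_lit 31692) (.g (nat_lit 4122) (.e (nat_lit 1201) (nat_lit 88) (.e (nat_lit 65610) (nat_lit 10) (.e (nat_lit 344097) (nat_lit 18) (.e (nat_lit 7272) (nat_lit 385) (.e (nat_lit 122919) (nat_lit 15) (.e (nat_lit 360451) (nat_lit 0) (.e (nat_lit 7122) (nat_lit 382) .nil))))))) (.g (nat_lit 6) .nil .nil))) 
(.lf (nat_lit 31724) (.g (nat_lit 1964) (.e (nat_lit 1201) (nat_lit 88) (.e (nat_lit 65610) (nat_lit 10) (.e (nat_lit 344117) (nat_lit 21) (.e (nat_lit 516185) (nat_lit 16) .nil)))) .nil))) (.nd (nat_lit 5) 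
(.lf (nat_lit 31708) (.g (nat_lit 2516) (.e (nat_lit 1201) (nat_lit 88) (.e (nat_lit 65610) (nat_lit 10) (.e (nat_lit 344117) (nat_lit 21) (.e (nat_lit 516097) (nat_lit 0) .nil)))) .nil)) 
(.lf (nat_lit 31740) (.g (nat_lit 3976) (.e (nat_lit 1201) (nat_lit 88) (.e (nat_lit 65610) (nat_lit 10) (.e (nat_lit 344117) (nat_lit 21) (.e (nat_lit 516195) (nat_lit 26) (.e (nat_lit 335986) (nat_lit 1) (.e (nat_lit 57847) (nat_lit 252) (.e (nat_lit 57365) (nat_lit 1) (.e (nat_lit 65280) (nat_lit 209) .nil)))))))) (.g (nat_lit 6) .nil .nil))))))) 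
(.nd (nat_lit 2) (.nd (nat_lit 3) (.nd (nat_lit 4) (.nd (nat_lit 5) 
(.lf (nat_lit 31682) (.g (nat_lit 4605) (.e (nat_lit 1201) (nat_lit 88) (.e (nat_lit 65610) (nat_lit 10) (.e (nat_lit 344097) (nat_lit 18) (.e (nat_lit 7272) (nat_lit 385) (.e (nat_lit 122917) (nat_lit 15) (.e (nat_lit 360451) (nat_lit 0) (.e (nat_lit 7125) (nat_lit 382) .nil))))))) (.g (nat_lit 7) .nil .nil))) 
(.lf (nat_lit 31714) (.g (nat_lit 4814) (.e (nat_lit 1201) (nat_lit 88) (.e (nat_lit 65610) (nat_lit 10) (.e (nat_lit 344117) (nat_lit 21) (.e (nat_lit 516183) (nat_lit 16) (.e (nat_lit 491566) (nat_lit 12) (.e (nat_lit 385043) (nat_lit 21) (.e (nat_lit 4177) (nat_lit 251) .nil))))))) (.g (nat_lit 5) .nil .nil)))) (.nd (nat_lit 5) 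
(.lf (nat_lit 31698) (.g (nat_lit 2528) (.e (nat_lit 1201) (nat_lit 88) (.e (nat_lit 65610) (nat_lit 10) (.e (nat_lit 344097) (nat_lit 18) (.e (nat_lit 7273) (nat_lit 385) (.e (nat_lit 122918) (nat_lit 15) (.e (nat_lit 360449) (nat_lit 0) (.e (nat_lit 7125) (nat_lit 382) .nil))))))) (.g (nat_lit 5) .nil .nil))) 
(.lf (nat_lit 31730) (.g (nat_lit 5577) (.e (nat_lit 1201) (nat_lit 88) (.e (nat_lit 65610) (nat_lit 10) (.e (nat_lit 344117) (nat_lit 21) (.e (nat_lit 516185) (nat_lit 16) (.e (nat_lit 491563) (nat_lit 12) (.e (nat_lit 385045) (nat_lit 21) (.e (nat_lit 4177) (nat_lit 251) .nil))))))) (.g (nat_lit 5) .nil .nil))))) (.nd (nat_lit 4) (.nd (nat_lit 5) 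
(.lf (nat_lit 31690) (.g (nat_lit 3630) (.e (nat_lit 1201) (nat_lit 88) (.e (nat_lit 65610) (nat_lit 10) (.e (nat_lit 344097) (nat_lit 18) (.e (nat_lit 7272) (nat_lit 385) (.e (nat_lit 122919) (nat_lit 15) (.e (nat_lit 360449) (nat_lit 0) (.e (nat_lit 7124) (nat_lit 382) .nil))))))) (.g (nat_lit 7) .nil .nil))) 
(.lf (nat_lit 31722) (.g (nat_lit 4187) (.e (nat_lit 1201) (nat_lit 88) (.e (nat_lit 65610) (nat_lit 10) (.e (nat_lit 344117) (nat_lit 21) (.e (nat_lit 516183) (nat_lit 16) (.e (nat_lit 491566) (nat_lit 12) (.e (nat_lit 385045) (nat_lit 21) (.e (nat_lit 4185) (nat_lit 251) .nil))))))) (.g (nat_lit 5) .nil .nil)))) (.nd (nat_lit 5) 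
(.lf (nat_lit 31706) (.g (nat_lit 2191) (.e (nat_lit 1201) (nat_lit 88) (.e (nat_lit 65610) (nat_lit 10) (.e (nat_lit 344097) (nat_lit 18) (.e (nat_lit 7273) (nat_lit 385) (.e (nat_lit 122919) (nat_lit 15) (.e (nat_lit 368384) (nat_lit 0) (.e (nat_lit 7125) (nat_lit 382) .nil))))))) (.g (nat_lit 4) .nil .nil))) 
(.lf (nat_lit 31738) (.g (nat_lit 2386) (.e (nat_lit 1201) (nat_lit 88) (.e (nat_lit 65610) (nat_lit 10) (.e (nat_lit 344117) (nat_lit 21) (.e (nat_lit 516193) (nat_lit 17) .nil)))) .nil))))) (.nd (nat_lit 3) (.nd (nat_lit 4) (.nd (nat_lit 5) 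
(.lf (nat_lit 31686) (.g (nat_lit 3527) (.e (nat_lit 1201) (nat_lit 88) (.e (nat_lit 65610) (nat_lit 10) (.e (nat_lit 344097) (nat_lit 18) (.e (nat_lit 7272) (nat_lit 385) (.e (nat_lit 122918) (nat_lit 15) (.e (nat_lit 360451) (nat_lit 0) (.e (nat_lit 7124) (nat_lit 382) .nil))))))) (.g (nat_lit 7) .nil .nil))) 
(.lf (nat_lit 31718) (.g (nat_lit 4346) (.e (nat_lit 1201) (nat_lit 88) (.e (nat_lit 65610) (nat_lit 10) (.e (nat_lit 344117) (nat_lit 21) (.e (nat_lit 516183) (nat_lit 16) (.e (nat_lit 491566) (nat_lit 12) (.e (nat_lit 385044) (nat_lit 21) (.e (nat_lit 4178) (nat_lit 251) .nil))))))) (.g (nat_lit 5) .nil .nil)))) (.nd (nat_lit 5) 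
(.lf (nat_lit 31702) (.g (nat_lit 3782) (.e (nat_lit 1201) (nat_lit 88) (.e (nat_lit 65610) (nat_lit 10) (.e (nat_lit 344097) (nat_lit 18) (.e (nat_lit 7273) (nat_lit 385) (.e (nat_lit 122919) (nat_lit 15) (.e (nat_lit 360449) (nat_lit 0) (.e (nat_lit 7125) (nat_lit 382) .nil))))))) (.g (nat_lit 7) .nil .nil))) 
(.lf (nat_lit 31734) (.g (nat_lit 2788) (.e (nat_lit 1201) (nat_lit 88) (.e (nat_lit 65610) (nat_lit 10) (.e (nat_lit 344117) (nat_lit 21) (.e (nat_lit 516188) (nat_lit 17) .nil)))) .nil)))) (.nd (nat_lit 4) (.nd (nat_lit 5) 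
(.lf (nat_lit 31694) (.g (nat_lit 4221) (.e (nat_lit 1201) (nat_lit 88) (.e (nat_lit 65610) (nat_lit 10) (.e (nat_lit 344097) (nat_lit 18) (.e (nat_lit 7273) (nat_lit 385) (.e (nat_lit 122917) (nat_lit 15) (.e (nat_lit 360449) (nat_lit 0) (.e (nat_lit 7125) (nat_lit 382) .nil))))))) (.g (nat_lit 0) .nil .nil))) 
(.lf (nat_lit 31726) (.g (nat_lit 4126) (.e (nat_lit 1201) (nat_lit 88) (.e (nat_lit 65610) (nat_lit 10) (.e (nat_lit 344117) (nat_lit 21) (.e (nat_lit 516185) (nat_lit 16) (.e (nat_lit 491560) (nat_lit 10) (.e (nat_lit 344087) (nat_lit 18) (.e (nat_lit 3915) (nat_lit 239) .nil))))))) (.g (nat_lit 5) .nil .nil)))) (.nd (nat_lit 5) 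
(.lf (nat_lit 31710) (.g (nat_lit 2010) (.e (nat_lit 1201) (nat_lit 88) (.e (nat_lit 65610) (nat_lit 10) (.e (nat_lit 344117) (nat_lit 21) (.e (nat_lit 516106) (nat_lit 0) .nil)))) .nil)) 
(.lf (nat_lit 31742) (.g (nat_lit 3829) (.e (nat_lit 1201) (nat_lit 88) (.e (nat_lit 65610) (nat_lit 10) (.e (nat_lit 344117) (nat_lit 21) (.e (nat_lit 516195) (nat_lit 26) (.e (nat_lit 335995) (nat_lit 1) (.e (nat_lit 57847) (nat_lit 252) (.e (nat_lit 57365) (nat_lit 1) (.e (nat_lit 65280) (nat_lit 209) .nil)))))))) (.g (nat_lit 5) .nil .nil)))))))) 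
(.nd (nat_lit 1) (.nd (nat_lit 2) (.nd (nat_lit 3) (.nd (nat_lit 4) (.nd (nat_lit 5) 
(.lf (nat_lit 31681) (.g (nat_lit 4232) (.e (nat_lit 1201) (nat_lit 88) (.e (nat_lit 65610) (nat_lit 10) (.e (nat_lit 344097) (nat_lit 18) (.e (nat_lit 7272) (nat_lit 385) (.e (nat_lit 122917) (nat_lit 15) (.e (nat_lit 360451) (nat_lit 0) (.e (nat_lit 7124) (nat_lit 382) .nil))))))) (.g (nat_lit 7) .nil .nil))) 
(.lf (nat_lit 31713) (.g (nat_lit 3218) (.e (nat_lit 1201) (nat_lit 88) (.e (nat_lit 65610) (nat_lit 10) (.e (nat_lit 344117) (nat_lit 21) (.e (nat_lit 516183) (nat_lit 16) (.e (nat_lit 491566) (nat_lit 12) (.e (nat_lit 385043) (nat_lit 21) (.e (nat_lit 4174) (nat_lit 251) .nil))))))) (.g (nat_lit 4) .nil .nil)))) (.nd (nat_lit 5) 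
(.lf (nat_lit 31697) (.g (nat_lit 2109) (.e (nat_lit 1201) (nat_lit 88) (.e (nat_lit 65610) (nat_lit 10) (.e (nat_lit 344097) (nat_lit 18) (.e (nat_lit 7273) (nat_lit 385) (.e (nat_lit 122917) (nat_lit 15) (.e (nat_lit 368384) (nat_lit 0) (.e (nat_lit 7125) (nat_lit 382) .nil))))))) (.g (nat_lit 4) .nil .nil))) 
(.lf (nat_lit 31729) (.g (nat_lit 3797) (.e (nat_lit 1201) (nat_lit 88) (.e (nat_lit 65610) (nat_lit 10) (.e (nat_lit 344117) (nat_lit 21) (.e (nat_lit 516185) (nat_lit 16) (.e (nat_lit 491560) (nat_lit 10) (.e (nat_lit 344089) (nat_lit 18) (.e (nat_lit 3922) (nat_lit 239) .nil))))))) (.g (nat_lit 4) .nil .nil))))) (.nd (nat_lit 4) (.nd (nat_lit 5) 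
(.lf (nat_lit 31689) (.g (nat_lit 3614) (.e (nat_lit 1201) (nat_lit 88) (.e (nat_lit 65610) (nat_lit 10) (.e (nat_lit 344097) (nat_lit 18) (.e (nat_lit 7272) (nat_lit 385) (.e (nat_lit 122919) (nat_lit 15) (.e (nat_lit 360449) (nat_lit 0) (.e (nat_lit 7122) (nat_lit 382) .nil))))))) (.g (nat_lit 7) .nil .nil))) 
(.lf (nat_lit 31721) (.g (nat_lit 4217) (.e (nat_lit 1201) (nat_lit 88) (.e (nat_lit 65610) (nat_lit 10) (.e (nat_lit 344117) (nat_lit 21) (.e (nat_lit 516183) (nat_lit 16) (.e (nat_lit 491566) (nat_lit 12) (.e (nat_lit 385045) (nat_lit 21) (.e (nat_lit 4178) (nat_lit 251) .nil))))))) (.g (nat_lit 5) .nil .nil)))) (.nd (nat_lit 5) 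
(.lf (nat_lit 31705) (.g (nat_lit 1996) (.e (nat_lit 1201) (nat_lit 88) (.e (nat_lit 65610) (nat_lit 10) (.e (nat_lit 344097) (nat_lit 18) (.e (nat_lit 7273) (nat_lit 385) (.e (nat_lit 122919) (nat_lit 15) (.e (nat_lit 368384) (nat_lit 0) (.e (nat_lit 7124) (nat_lit 382) .nil))))))) (.g (nat_lit 4) .nil .nil))) 
(.lf (nat_lit 31737) (.g (nat_lit 2925) (.e (nat_lit 1201) (nat_lit 88) (.e (nat_lit 65610) (nat_lit 10) (.e (nat_lit 344117) (nat_lit 21) (.e (nat_lit 516191) (nat_lit 17) (.e (nat_lit 7936) (nat_lit 362) (.e (nat_lit 180224) (nat_lit 0) (.e (nat_lit 6740) (nat_lit 365) .nil))))))) (.g (nat_lit 4) .nil .nil)))))) (.nd (nat_lit 3) (.nd (nat_lit 4) (.nd (nat_lit 5) 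
(.lf (nat_lit 31685) (.g (nat_lit 2329) (.e (nat_lit 1201) (nat_lit 88) (.e (nat_lit 65610) (nat_lit 10) (.e (nat_lit 344097) (nat_lit 18) (.e (nat_lit 7272) (nat_lit 385) (.e (nat_lit 122918) (nat_lit 15) (.e (nat_lit 360450) (nat_lit 0) (.e (nat_lit 7122) (nat_lit 382) .nil))))))) (.g (nat_lit 5) .nil .nil))) 
(.lf (nat_lit 31717) (.g (nat_lit 4656) (.e (nat_lit 1201) (nat_lit 88) (.e (nat_lit 65610) (nat_lit 10) (.e (nat_lit 344117) (nat_lit 21) (.e (nat_lit 516183) (nat_lit 16) (.e (nat_lit 491566) (nat_lit 12) (.e (nat_lit 385044) (nat_lit 21) (.e (nat_lit 4177) (nat_lit 251) .nil))))))) (.g (nat_lit 5) .nil .nil)))) (.nd (nat_lit 5) 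
(.lf (nat_lit 31701) (.g (nat_lit 3166) (.e (nat_lit 1201) (nat_lit 88) (.e (nat_lit 65610) (nat_lit 10) (.e (nat_lit 344097) (nat_lit 18) (.e (nat_lit 7273) (nat_lit 385) (.e (nat_lit 122919) (nat_lit 15) (.e (nat_lit 360449) (nat_lit 0) (.e (nat_lit 7124) (nat_lit 382) .nil))))))) (.g (nat_lit 6) .nil .nil))) 
(.lf (nat_lit 31733) (.g (nat_lit 5656) (.e (nat_lit 1201) (nat_lit 88) (.e (nat_lit 65610) (nat_lit 10) (.e (nat_lit 344117) (nat_lit 21) (.e (nat_lit 516185) (nat_lit 16) (.e (nat_lit 491563) (nat_lit 12) (.e (nat_lit 385047) (nat_lit 21) (.e (nat_lit 4185) (nat_lit 251) .nil))))))) (.g (nat_lit 5) .nil .nil))))) (.nd (nat_lit 4) (.nd (nat_lit 5) 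
(.lf (nat_lit 31693) (.g (nat_lit 925) (.e (nat_lit 1201) (nat_lit 88) (.e (nat_lit 65610) (nat_lit 10) (.e (nat_lit 344097) (nat_lit 18) (.e (nat_lit 7273) (nat_lit 385) .nil)))) .nil)) 
(.lf (nat_lit 31725) (.g (nat_lit 2473) (.e (nat_lit 1201) (nat_lit 88) (.e (nat_lit 65610) (nat_lit 10) (.e (nat_lit 344117) (nat_lit 21) (.e (nat_lit 516185) (nat_lit 16) (.e (nat_lit 491560) (nat_lit 10) .nil))))) .nil))) (.nd (nat_lit 5) 
(.lf (nat_lit 31709) (.g (nat_lit 3166) (.e (nat_lit 1201) (nat_lit 88) (.e (nat_lit 65610) (nat_lit 10) (.e (nat_lit 344117) (nat_lit 21) (.e (nat_lit 516099) (nat_lit 0) .nil)))) .nil)) 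
(.lf (nat_lit 31741) (.g (nat_lit 3248) (.e (nat_lit 1201) (nat_lit 88) (.e (nat_lit 65610) (nat_lit 10) (.e (nat_lit 344117) (nat_lit 21) (.e (nat_lit 516195) (nat_lit 26) (.e (nat_lit 335986) (nat_lit 1) (.e (nat_lit 57847) (nat_lit 252) (.e (nat_lit 57367) (nat_lit 1) (.e (nat_lit 65280) (nat_lit 209) .nil)))))))) (.g (nat_lit 4) .nil .nil))))))) 
(.nd (nat_lit 2) (.nd (nat_lit 3) (.nd (nat_lit 4) (.nd (nat_lit 5) 
(.lf (nat_lit 31683) (.g (nat_lit 2148) (.e (nat_lit 1201) (nat_lit 88) (.e (nat_lit 65610) (nat_lit 10) (.e (nat_lit 344097) (nat_lit 18) (.e (nat_lit 7272) (nat_lit 385) (.e (nat_lit 122918) (nat_lit 15) (.e (nat_lit 360449) (nat_lit 0) (.e (nat_lit 7122) (nat_lit 382) .nil))))))) (.g (nat_lit 5) .nil .nil))) 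
(.lf (nat_lit 31715) (.g (nat_lit 4712) (.e (nat_lit 1201) (nat_lit 88) (.e (nat_lit 65610) (nat_lit 10) (.e (nat_lit 344117) (nat_lit 21) (.e (nat_lit 516183) (nat_lit 16) (.e (nat_lit 491566) (nat_lit 12) (.e (nat_lit 385043) (nat_lit 21) (.e (nat_lit 4178) (nat_lit 251) .nil))))))) (.g (nat_lit 5) .nil .nil)))) (.nd (nat_lit 5) 
(.lf (nat_lit 31699) (.g (nat_lit 1780) (.e (nat_lit 1201) (nat_lit 88) (.e (nat_lit 65610) (nat_lit 10) (.e (nat_lit 344097) (nat_lit 18) (.e (nat_lit 7273) (nat_lit 385) (.e (nat_lit 122919) (nat_lit 15) (.e (nat_lit 360448) (nat_lit 0) (.e (nat_lit 7125) (nat_lit 382) .nil))))))) (.g (nat_lit 4) .nil .nil))) 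
(.lf (nat_lit 31731) (.g (nat_lit 5353) (.e (nat_lit 1201) (nat_lit 88) (.e (nat_lit 65610) (nat_lit 10) (.e (nat_lit 344117) (nat_lit 21) (.e (nat_lit 516185) (nat_lit 16) (.e (nat_lit 491563) (nat_lit 12) (.e (nat_lit 385046) (nat_lit 21) (.e (nat_lit 4177) (nat_lit 251) .nil))))))) (.g (nat_lit 5) .nil .nil))))) (.nd (nat_lit 4) (.nd (nat_lit 5) 
(.lf (nat_lit 31691) (.g (nat_lit 3915) (.e (nat_lit 1201) (nat_lit 88) (.e (nat_lit 65610) (nat_lit 10) (.e (nat_lit 344097) (nat_lit 18) (.e (nat_lit 7272) (nat_lit 385) (.e (nat_lit 122919) (nat_lit 15) (.e (nat_lit 360450) (nat_lit 0) (.e (nat_lit 7125) (nat_lit 382) .nil))))))) (.g (nat_lit 6) .nil .nil))) 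
(.lf (nat_lit 31723) (.g (nat_lit 4284) (.e (nat_lit 1201) (nat_lit 88) (.e (nat_lit 65610) (nat_lit 10) (.e (nat_lit 344117) (nat_lit 21) (.e (nat_lit 516183) (nat_lit 16) (.e (nat_lit 491566) (nat_lit 12) (.e (nat_lit 385045) (nat_lit 21) (.e (nat_lit 4186) (nat_lit 251) .nil))))))) (.g (nat_lit 5) .nil .nil)))) (.nd (nat_lit 5) 
(.lf (nat_lit 31707) (.g (nat_lit 2981) (.e (nat_lit 1201) (nat_lit 88) (.e (nat_lit 65610) (nat_lit 10) (.e (nat_lit 344101) (nat_lit 18) (.e (nat_lit 7270) (nat_lit 385) (.e (nat_lit 122919) (nat_lit 15) (.e (nat_lit 360451) (nat_lit 0) (.e (nat_lit 7124) (nat_lit 382) .nil))))))) (.g (nat_lit 6) .nil .nil))) 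
(.lf (nat_lit 31739) (.g (nat_lit 2448) (.e (nat_lit 1201) (nat_lit 88) (.e (nat_lit 65610) (nat_lit 10) (.e (nat_lit 344117) (nat_lit 21) (.e (nat_lit 516194) (nat_lit 26) .nil)))) .nil))))) (.nd (nat_lit 3) (.nd (nat_lit 4) (.nd (nat_lit 5) 
(.lf (nat_lit 31687) (.g (nat_lit 1802) (.e (nat_lit 1201) (nat_lit 88) (.e (nat_lit 65610) (nat_lit 10) (.e (nat_lit 344097) (nat_lit 18) (.e (nat_lit 7272) (nat_lit 385) (.e (nat_lit 122919) (nat_lit 15) (.e (nat_lit 360448) (nat_lit 0) (.e (nat_lit 7122) (nat_lit 382) .nil))))))) (.g (nat_lit 4) .nil .nil))) 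
(.lf (nat_lit 31719) (.g (nat_lit 3307) (.e (nat_lit 1201) (nat_lit 88) (.e (nat_lit 65610) (nat_lit 10) (.e (nat_lit 344117) (nat_lit 21) (.e (nat_lit 516183) (nat_lit 16) (.e (nat_lit 491566) (nat_lit 12) (.e (nat_lit 385044) (nat_lit 21) (.e (nat_lit 4186) (nat_lit 251) .nil))))))) (.g (nat_lit 4) .nil .nil)))) (.nd (nat_lit 5) 
(.lf (nat_lit 31703) (.g (nat_lit 3657) (.e (nat_lit 1201) (nat_lit 88) (.e (nat_lit 65610) (nat_lit 10) (.e (nat_lit 344097) (nat_lit 18) (.e (nat_lit 7273) (nat_lit 385) (.e (nat_lit 122919) (nat_lit 15) (.e (nat_lit 360450) (nat_lit 0) (.e (nat_lit 7125) (nat_lit 382) .nil))))))) (.g (nat_lit 6) .nil .nil))) 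
(.lf (nat_lit 31735) (.g (nat_lit 2447) (.e (nat_lit 1201) (nat_lit 88) (.e (nat_lit 65610) (nat_lit 10) (.e (nat_lit 344117) (nat_lit 21) (.e (nat_lit 516190) (nat_lit 17) .nil)))) .nil)))) (.nd (nat_lit 4) (.nd (nat_lit 5) 
(.lf (nat_lit 31695) (.g (nat_lit 3531) (.e (nat_lit 1201) (nat_lit 88) (.e (nat_lit 65610) (nat_lit 10) (.e (nat_lit 344097) (nat_lit 18) (.e (nat_lit 7273) (nat_lit 385) (.e (nat_lit 122917) (nat_lit 15) (.e (nat_lit 360451) (nat_lit 0) (.e (nat_lit 7124) (nat_lit 382) .nil))))))) (.g (nat_lit 6) .nil .nil))) 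
(.lf (nat_lit 31727) (.g (nat_lit 3410) (.e (nat_lit 1201) (nat_lit 88) (.e (nat_lit 65610) (nat_lit 10) (.e (nat_lit 344117) (nat_lit 21) (.e (nat_lit 516185) (nat_lit 16) (.e (nat_lit 491560) (nat_lit 10) (.e (nat_lit 344088) (nat_lit 18) (.e (nat_lit 3915) (nat_lit 239) .nil))))))) (.g (nat_lit 4) .nil .nil)))) (.nd (nat_lit 5) 
(.lf (nat_lit 31711) (.g (nat_lit 3234) (.e (nat_lit 1201) (nat_lit 88) (.e (nat_lit 65610) (nat_lit 10) (.e (nat_lit 344117) (nat_lit 21) (.e (nat_lit 516115) (nat_lit 1) (.e (nat_lit 164144) (nat_lit 146) .nil))))) .nil)) 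
(.lf (nat_lit 31743) (.g (nat_lit 3436) (.e (nat_lit 1201) (nat_lit 88) (.e (nat_lit 65610) (nat_lit 10) (.e (nat_lit 344117) (nat_lit 21) (.e (nat_lit 516195) (nat_lit 26) (.e (nat_lit 343808) (nat_lit 20) (.e (nat_lit 221207) (nat_lit 21) (.e (nat_lit 164383) (nat_lit 254) .nil))))))) (.g (nat_lit 4) .nil .nil)))))))))

noncomputable def tv444 : DT := (.nd (nat_lit 0) (.nd (nat_lit 1) (.nd (nat_lit 2) (.nd (nat_lit 3) (.nd (nat_lit 4) (.nd (nat_lit 5) 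
(.lf (nat_lit 31744) (.g (nat_lit 3487) (.e (nat_lit 1201) (nat_lit 88) (.e (nat_lit 65610) (nat_lit 10) (.e (nat_lit 344117) (nat_lit 21) (.e (nat_lit 516195) (nat_lit 26) (.e (nat_lit 343808) (nat_lit 20) (.e (nat_lit 221208) (nat_lit 21) (.e (nat_lit 164384) (nat_lit 254) .nil))))))) (.g (nat_lit 4) .nil .nil))) 
(.lf (nat_lit 31776) (.g (nat_lit 1863) (.e (nat_lit 1201) (nat_lit 88) (.e (nat_lit 65610) (nat_lit 10) (.e (nat_lit 344157) (nat_lit 36) (.e (nat_lit 638986) (nat_lit 5) (.e (nat_lit 3022) (nat_lit 187) (.e (nat_lit 458496) (nat_lit 0) (.e (nat_lit 5071) (nat_lit 292) .nil))))))) (.g (nat_lit 4) .nil .nil)))) (.nd (nat_lit 5) 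
(.lf (nat_lit 31760) (.g (nat_lit 3168) (.e (nat_lit 1201) (nat_lit 88) (.e (nat_lit 65610) (nat_lit 10) (.e (nat_lit 344156) (nat_lit 36) (.e (nat_lit 638998) (nat_lit 8) (.e (nat_lit 172120) (nat_lit 12) (.e (nat_lit 475155) (nat_lit 21) (.e (nat_lit 6278) (nat_lit 337) .nil))))))) (.g (nat_lit 5) .nil .nil))) 
(.lf (nat_lit 31792) (.g (nat_lit 2258) (.e (nat_lit 1201) (nat_lit 88) (.e (nat_lit 65610) (nat_lit 10) (.e (nat_lit 344168) (nat_lit 40) (.e (nat_lit 671747) (nat_lit 0) (.e (nat_lit 1598) (nat_lit 111) (.e (nat_lit 360456) (nat_lit 0) (.e (nat_lit 5817) (nat_lit 320) .nil))))))) (.g (nat_lit 4) .nil .nil))))) (.nd (nat_lit 4) (.nd (nat_lit 5) 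
(.lf (nat_lit 31752) (.g (nat_lit 1348) (.e (nat_lit 1201) (nat_lit 88) (.e (nat_lit 65610) (nat_lit 10) (.e (nat_lit 344129) (nat_lit 26) (.e (nat_lit 557119) (nat_lit 18) .nil)))) .nil)) 
(.lf (nat_lit 31784) (.g (nat_lit 2432) (.e (nat_lit 1201) (nat_lit 88) (.e (nat_lit 65610) (nat_lit 10) (.e (nat_lit 344168) (nat_lit 40) (.e (nat_lit 671747) (nat_lit 0) (.e (nat_lit 1562) (nat_lit 110) (.e (nat_lit 352318) (nat_lit 24) (.e (nat_lit 123182) (nat_lit 264) .nil))))))) (.g (nat_lit 4) .nil .nil)))) (.nd (nat_lit 5) 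
(.lf (nat_lit 31768) (.g (nat_lit 2112) (.e (nat_lit 1201) (nat_lit 88) (.e (nat_lit 65610) (nat_lit 10) (.e (nat_lit 344157) (nat_lit 36) (.e (nat_lit 638985) (nat_lit 5) (.e (nat_lit 3015) (nat_lit 187) (.e (nat_lit 450560) (nat_lit 0) (.e (nat_lit 5063) (nat_lit 292) .nil))))))) (.g (nat_lit 5) .nil .nil))) 
(.lf (nat_lit 31800) (.g (nat_lit 2097) (.e (nat_lit 1201) (nat_lit 88) (.e (nat_lit 65610) (nat_lit 10) (.e (nat_lit 344168) (nat_lit 40) (.e (nat_lit 671762) (nat_lit 4) (.e (nat_lit 65598) (nat_lit 9) (.e (nat_lit 336032) (nat_lit 4) (.e (nat_lit 123183) (nat_lit 264) .nil))))))) (.g (nat_lit 4) .nil .nil)))))) (.nd (nat_lit 3) (.nd (nat_lit 4) (.nd (nat_lit 5) 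
(.lf (nat_lit 31748) (.g (nat_lit 1339) (.e (nat_lit 1201) (nat_lit 88) (.e (nat_lit 65610) (nat_lit 10) (.e (nat_lit 344129) (nat_lit 26) (.e (nat_lit 557066) (nat_lit 9) .nil)))) .nil)) 
(.lf (nat_lit 31780) (.g (nat_lit 2514) (.e (nat_lit 1201) (nat_lit 88) (.e (nat_lit 65610) (nat_lit 10) (.e (nat_lit 344160) (nat_lit 37) (.e (nat_lit 647195) (nat_lit 9) (.e (nat_lit 7936) (nat_lit 37) (.e (nat_lit 466971) (nat_lit 21) (.e (nat_lit 164297) (nat_lit 226) .nil))))))) (.g (nat_lit 4) .nil .nil)))) (.nd (nat_lit 5) 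
(.lf (nat_lit 31764) (.g (nat_lit 3466) (.e (nat_lit 1201) (nat_lit 88) (.e (nat_lit 65610) (nat_lit 10) (.e (nat_lit 344156) (nat_lit 36) (.e (nat_lit 638998) (nat_lit 8) (.e (nat_lit 172120) (nat_lit 12) (.e (nat_lit 475155) (nat_lit 21) (.e (nat_lit 6294) (nat_lit 337) .nil))))))) (.g (nat_lit 5) .nil .nil))) 
(.lf (nat_lit 31796) (.g (nat_lit 2523) (.e (nat_lit 1201) (nat_lit 88) (.e (nat_lit 65610) (nat_lit 10) (.e (nat_lit 344168) (nat_lit 40) (.e (nat_lit 671751) (nat_lit 0) (.e (nat_lit 1425) (nat_lit 108) (.e (nat_lit 336160) (nat_lit 10) (.e (nat_lit 344104) (nat_lit 18) (.e (nat_lit 5818) (nat_lit 320) .nil)))))))) (.g (nat_lit 5) .nil .nil))))) (.nd (nat_lit 4) (.nd (nat_lit 5) 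
(.lf (nat_lit 31756) (.g (nat_lit 2838) (.e (nat_lit 1201) (nat_lit 88) (.e (nat_lit 65610) (nat_lit 10) (.e (nat_lit 344138) (nat_lit 29) (.e (nat_lit 581651) (nat_lit 4) (.e (nat_lit 172113) (nat_lit 10) (.e (nat_lit 434203) (nat_lit 18) (.e (nat_lit 6740) (nat_lit 365) .nil))))))) (.g (nat_lit 6) .nil .nil))) 
(.lf (nat_lit 31788) (.g (nat_lit 3377) (.e (nat_lit 1201) (nat_lit 88) (.e (nat_lit 65610) (nat_lit 10) (.e (nat_lit 344168) (nat_lit 40) (.e (nat_lit 671747) (nat_lit 0) (.e (nat_lit 1586) (nat_lit 111) (.e (nat_lit 360456) (nat_lit 0) (.e (nat_lit 5818) (nat_lit 320) .nil))))))) (.g (nat_lit 0) .nil .nil)))) (.nd (nat_lit 5) 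
(.lf (nat_lit 31772) (.g (nat_lit 1858) (.e (nat_lit 1201) (nat_lit 88) (.e (nat_lit 65610) (nat_lit 10) (.e (nat_lit 344157) (nat_lit 36) (.e (nat_lit 638985) (nat_lit 5) (.e (nat_lit 3022) (nat_lit 187) (.e (nat_lit 458496) (nat_lit 0) (.e (nat_lit 5074) (nat_lit 292) .nil))))))) (.g (nat_lit 4) .nil .nil))) 
(.lf (nat_lit 31804) (.g (nat_lit 3673) (.e (nat_lit 1201) (nat_lit 88) (.e (nat_lit 65610) (nat_lit 10) (.e (nat_lit 344168) (nat_lit 40) (.e (nat_lit 671764) (nat_lit 6) (.e (nat_lit 81957) (nat_lit 24) (.e (nat_lit 123184) (nat_lit 264) .nil)))))) (.g (nat_lit 0) .nil .nil))))))) (.nd (nat_lit 2) (.nd (nat_lit 3) (.nd (nat_lit 4) (.nd (nat_lit 5) 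
(.lf (nat_lit 31746) (.g (nat_lit 2166) (.e (nat_lit 1201) (nat_lit 88) (.e (nat_lit 65610) (nat_lit 10) (.e (nat_lit 344117) (nat_lit 21) (.e (nat_lit 524032) (nat_lit 33) .nil)))) .nil)) 
(.lf (nat_lit 31778) (.g (nat_lit 1843) (.e (nat_lit 1201) (nat_lit 88) (.e (nat_lit 65610) (nat_lit 10) (.e (nat_lit 344160) (nat_lit 37) (.e (nat_lit 647195) (nat_lit 9) (.e (nat_lit 7936) (nat_lit 34) .nil))))) .nil))) (.nd (nat_lit 5) 
(.lf (nat_lit 31762) (.g (nat_lit 3229) (.e (nat_lit 1201) (nat_lit 88) (.e (nat_lit 65610) (nat_lit 10) (.e (nat_lit 344156) (nat_lit 36) (.e (nat_lit 638998) (nat_lit 8) (.e (nat_lit 172120) (nat_lit 12) (.e (nat_lit 475155) (nat_lit 21) (.e (nat_lit 6282) (nat_lit 337) .nil))))))) (.g (nat_lit 5) .nil .nil))) 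
(.lf (nat_lit 31794) (.g (nat_lit 2114) (.e (nat_lit 1201) (nat_lit 88) (.e (nat_lit 65610) (nat_lit 10) (.e (nat_lit 344168) (nat_lit 40) (.e (nat_lit 671747) (nat_lit 0) (.e (nat_lit 1599) (nat_lit 111) (.e (nat_lit 360456) (nat_lit 0) (.e (nat_lit 5818) (nat_lit 320) .nil))))))) (.g (nat_lit 4) .nil .nil))))) (.nd (nat_lit 4) (.nd (nat_lit 5) 
(.lf (nat_lit 31754) (.g (nat_lit 3020) (.e (nat_lit 1201) (nat_lit 88) (.e (nat_lit 65610) (nat_lit 10) (.e (nat_lit 344129) (nat_lit 26) (.e (nat_lit 557119) (nat_lit 18) (.e (nat_lit 2808) (nat_lit 180) (.e (nat_lit 303140) (nat_lit 10) (.e (nat_lit 434202) (nat_lit 18) (.e (nat_lit 6740) (nat_lit 365) .nil)))))))) (.g (nat_lit 5) .nil .nil))) 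
(.lf (nat_lit 31786) (.g (nat_lit 2443) (.e (nat_lit 1201) (nat_lit 88) (.e (nat_lit 65610) (nat_lit 10) (.e (nat_lit 344168) (nat_lit 40) (.e (nat_lit 671747) (nat_lit 0) (.e (nat_lit 1586) (nat_lit 111) (.e (nat_lit 360456) (nat_lit 0) (.e (nat_lit 5816) (nat_lit 320) .nil))))))) (.g (nat_lit 4) .nil .nil)))) (.nd (nat_lit 5) 
(.lf (nat_lit 31770) (.g (nat_lit 1821) (.e (nat_lit 1201) (nat_lit 88) (.e (nat_lit 65610) (nat_lit 10) (.e (nat_lit 344157) (nat_lit 36) (.e (nat_lit 638985) (nat_lit 5) (.e (nat_lit 3022) (nat_lit 187) (.e (nat_lit 450560) (nat_lit 0) (.e (nat_lit 5077) (nat_lit 292) .nil))))))) (.g (nat_lit 4) .nil .nil))) 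
(.lf (nat_lit 31802) (.g (nat_lit 2453) (.e (nat_lit 1201) (nat_lit 88) (.e (nat_lit 65610) (nat_lit 10) (.e (nat_lit 344168) (nat_lit 40) (.e (nat_lit 671762) (nat_lit 4) (.e (nat_lit 65605) (nat_lit 9) (.e (nat_lit 336032) (nat_lit 4) (.e (nat_lit 123184) (nat_lit 264) .nil))))))) (.g (nat_lit 4) .nil .nil)))))) (.nd (nat_lit 3) (.nd (nat_lit 4) (.nd (nat_lit 5) 
(.lf (nat_lit 31750) (.g (nat_lit 4404) (.e (nat_lit 1201) (nat_lit 88) (.e (nat_lit 65610) (nat_lit 10) (.e (nat_lit 344129) (nat_lit 26) (.e (nat_lit 557087) (nat_lit 11) (.e (nat_lit 24617) (nat_lit 7) (.e (nat_lit 319504) (nat_lit 10) (.e (nat_lit 11) (nat_lit 0) (.e (nat_lit 3828) (nat_lit 233) .nil)))))))) (.g (nat_lit 6) .nil .nil))) 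
(.lf (nat_lit 31782) (.g (nat_lit 291) (.e (nat_lit 1201) (nat_lit 88) (.e (nat_lit 65610) (nat_lit 10) (.e (nat_lit 344168) (nat_lit 40) .nil))) .nil))) (.nd (nat_lit 5) 
(.lf (nat_lit 31766) (.g (nat_lit 2571) (.e (nat_lit 1201) (nat_lit 88) (.e (nat_lit 65610) (nat_lit 10) (.e (nat_lit 344156) (nat_lit 36) (.e (nat_lit 639001) (nat_lit 10) (.e (nat_lit 188455) (nat_lit 24) (.e (nat_lit 229629) (nat_lit 226) .nil)))))) (.g (nat_lit 4) .nil .nil))) 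
(.lf (nat_lit 31798) (.g (nat_lit 2094) (.e (nat_lit 1201) (nat_lit 88) (.e (nat_lit 65610) (nat_lit 10) (.e (nat_lit 344168) (nat_lit 40) (.e (nat_lit 671751) (nat_lit 0) (.e (nat_lit 1553) (nat_lit 110) (.e (nat_lit 352318) (nat_lit 24) (.e (nat_lit 123184) (nat_lit 264) .nil))))))) (.g (nat_lit 4) .nil .nil))))) (.nd (nat_lit 4) (.nd (nat_lit 5) 
(.lf (nat_lit 31758) (.g (nat_lit 916) (.e (nat_lit 1201) (nat_lit 88) (.e (nat_lit 65610) (nat_lit 10) (.e (nat_lit 344156) (nat_lit 36) (.e (nat_lit 638985) (nat_lit 5) .nil)))) .nil)) 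
(.lf (nat_lit 31790) (.g (nat_lit 3342) (.e (nat_lit 1201) (nat_lit 88) (.e (nat_lit 65610) (nat_lit 10) (.e (nat_lit 344168) (nat_lit 40) (.e (nat_lit 671747) (nat_lit 0) (.e (nat_lit 1595) (nat_lit 111) (.e (nat_lit 360457) (nat_lit 0) (.e (nat_lit 5818) (nat_lit 320) .nil))))))) (.g (nat_lit 7) .nil .nil)))) (.nd (nat_lit 5) 
(.lf (nat_lit 31774) (.g (nat_lit 2120) (.e (nat_lit 1201) (nat_lit 88) (.e (nat_lit 65610) (nat_lit 10) (.e (nat_lit 344157) (nat_lit 36) (.e (nat_lit 638986) (nat_lit 5) (.e (nat_lit 3015) (nat_lit 187) (.e (nat_lit 450560) (nat_lit 0) (.e (nat_lit 5063) (nat_lit 292) .nil))))))) (.g (nat_lit 5) .nil .nil))) 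
(.lf (nat_lit 31806) (.g (nat_lit 3411) (.e (nat_lit 1201) (nat_lit 88) (.e (nat_lit 65610) (nat_lit 10) (.e (nat_lit 344168) (nat_lit 40) (.e (nat_lit 671764) (nat_lit 6) (.e (nat_lit 81959) (nat_lit 24) (.e (nat_lit 123184) (nat_lit 264) .nil)))))) (.g (nat_lit 0) .nil .nil)))))))) (.nd (nat_lit 1) (.nd (nat_lit 2) (.nd (nat_lit 3) (.nd (nat_lit 4) (.nd (nat_lit 5) 
(.lf (nat_lit 31745) (.g (nat_lit 2794) (.e (nat_lit 1201) (nat_lit 88) (.e (nat_lit 65610) (nat_lit 10) (.e (nat_lit 344117) (nat_lit 21) (.e (nat_lit 516196) (nat_lit 26) .nil)))) .nil)) 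
(.lf (nat_lit 31777) (.g (nat_lit 1884) (.e (nat_lit 1201) (nat_lit 88) (.e (nat_lit 65610) (nat_lit 10) (.e (nat_lit 344157) (nat_lit 36) (.e (nat_lit 638986) (nat_lit 5) (.e (nat_lit 3022) (nat_lit 187) (.e (nat_lit 458496) (nat_lit 0) (.e (nat_lit 5074) (nat_lit 292) .nil))))))) (.g (nat_lit 4) .nil .nil)))) (.nd (nat_lit 5) 
(.lf (nat_lit 31761) (.g (nat_lit 3389) (.e (nat_lit 1201) (nat_lit 88) (.e (nat_lit 65610) (nat_lit 10) (.e (nat_lit 344156) (nat_lit 36) (.e (nat_lit 638998) (nat_lit 8) (.e (nat_lit 172120) (nat_lit 12) (.e (nat_lit 475155) (nat_lit 21) (.e (nat_lit 6281) (nat_lit 337) .nil))))))) (.g (nat_lit 5) .nil .nil))) 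
(.lf (nat_lit 31793) (.g (nat_lit 2452) (.e (nat_lit 1201) (nat_lit 88) (.e (nat_lit 65610) (nat_lit 10) (.e (nat_lit 344168) (nat_lit 40) (.e (nat_lit 671747) (nat_lit 0) (.e (nat_lit 1598) (nat_lit 111) (.e (nat_lit 360456) (nat_lit 0) (.e (nat_lit 5818) (nat_lit 320) .nil))))))) (.g (nat_lit 5) .nil .nil))))) (.nd (nat_lit 4) (.nd (nat_lit 5) 
(.lf (nat_lit 31753) (.g (nat_lit 3167) (.e (nat_lit 1201) (nat_lit 88) (.e (nat_lit 65610) (nat_lit 10) (.e (nat_lit 344129) (nat_lit 26) (.e (nat_lit 557119) (nat_lit 18) (.e (nat_lit 2798) (nat_lit 180) (.e (nat_lit 303140) (nat_lit 10) (.e (nat_lit 434202) (nat_lit 18) (.e (nat_lit 6740) (nat_lit 365) .nil)))))))) (.g (nat_lit 5) .nil .nil))) 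
(.lf (nat_lit 31785) (.g (nat_lit 2045) (.e (nat_lit 1201) (nat_lit 88) (.e (nat_lit 65610) (nat_lit 10) (.e (nat_lit 344168) (nat_lit 40) (.e (nat_lit 671747) (nat_lit 0) (.e (nat_lit 1569) (nat_lit 110) (.e (nat_lit 352318) (nat_lit 24) (.e (nat_lit 123184) (nat_lit 264) .nil))))))) (.g (nat_lit 4) .nil .nil)))) (.nd (nat_lit 5) 
(.lf (nat_lit 31769) (.g (nat_lit 2774) (.e (nat_lit 1201) (nat_lit 88) (.e (nat_lit 65610) (nat_lit 10) (.e (nat_lit 344157) (nat_lit 36) (.e (nat_lit 638985) (nat_lit 5) (.e (nat_lit 3015) (nat_lit 187) (.e (nat_lit 450560) (nat_lit 0) (.e (nat_lit 5077) (nat_lit 292) .nil))))))) (.g (nat_lit 0) .nil .nil))) 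
(.lf (nat_lit 31801) (.g (nat_lit 3094) (.e (nat_lit 1201) (nat_lit 88) (.e (nat_lit 65610) (nat_lit 10) (.e (nat_lit 344168) (nat_lit 40) (.e (nat_lit 671762) (nat_lit 4) (.e (nat_lit 65599) (nat_lit 9) (.e (nat_lit 336032) (nat_lit 4) (.e (nat_lit 123184) (nat_lit 264) .nil))))))) (.g (nat_lit 5) .nil .nil)))))) (.nd (nat_lit 3) (.nd (nat_lit 4) (.nd (nat_lit 5) 
(.lf (nat_lit 31749) (.g (nat_lit 1153) (.e (nat_lit 1201) (nat_lit 88) (.e (nat_lit 65610) (nat_lit 10) (.e (nat_lit 344129) (nat_lit 26) (.e (nat_lit 557087) (nat_lit 11) .nil)))) .nil)) 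
(.lf (nat_lit 31781) (.g (nat_lit 3137) (.e (nat_lit 1201) (nat_lit 88) (.e (nat_lit 65610) (nat_lit 10) (.e (nat_lit 344160) (nat_lit 37) (.e (nat_lit 647195) (nat_lit 9) (.e (nat_lit 7936) (nat_lit 37) (.e (nat_lit 466972) (nat_lit 21) (.e (nat_lit 164297) (nat_lit 226) .nil))))))) (.g (nat_lit 4) .nil .nil)))) (.nd (nat_lit 5) 
(.lf (nat_lit 31765) (.g (nat_lit 1177) (.e (nat_lit 1201) (nat_lit 88) (.e (nat_lit 65610) (nat_lit 10) (.e (nat_lit 344156) (nat_lit 36) (.e (nat_lit 639001) (nat_lit 10) .nil)))) .nil)) 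
(.lf (nat_lit 31797) (.g (nat_lit 2693) (.e (nat_lit 1201) (nat_lit 88) (.e (nat_lit 65610) (nat_lit 10) (.e (nat_lit 344168) (nat_lit 40) (.e (nat_lit 671751) (nat_lit 0) (.e (nat_lit 1553) (nat_lit 110) (.e (nat_lit 352318) (nat_lit 24) (.e (nat_lit 123182) (nat_lit 264) .nil))))))) (.g (nat_lit 4) .nil .nil))))) (.nd (nat_lit 4) (.nd (nat_lit 5) 
(.lf (nat_lit 31757) (.g (nat_lit 3559) (.e (nat_lit 1201) (nat_lit 88) (.e (nat_lit 65610) (nat_lit 10) (.e (nat_lit 344138) (nat_lit 29) (.e (nat_lit 581651) (nat_lit 4) (.e (nat_lit 172115) (nat_lit 10) (.e (nat_lit 434202) (nat_lit 18) (.e (nat_lit 6740) (nat_lit 365) .nil))))))) (.g (nat_lit 0) .nil .nil))) 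
(.lf (nat_lit 31789) (.g (nat_lit 2851) (.e (nat_lit 1201) (nat_lit 88) (.e (nat_lit 65610) (nat_lit 10) (.e (nat_lit 344168) (nat_lit 40) (.e (nat_lit 671747) (nat_lit 0) (.e (nat_lit 1595) (nat_lit 111) (.e (nat_lit 360457) (nat_lit 0) (.e (nat_lit 5817) (nat_lit 320) .nil))))))) (.g (nat_lit 5) .nil .nil)))) (.nd (nat_lit 5) 
(.lf (nat_lit 31773) (.g (nat_lit 2581) (.e (nat_lit 1201) (nat_lit 88) (.e (nat_lit 65610) (nat_lit 10) (.e (nat_lit 344157) (nat_lit 36) (.e (nat_lit 638986) (nat_lit 5) (.e (nat_lit 3015) (nat_lit 187) (.e (nat_lit 450560) (nat_lit 0) (.e (nat_lit 5060) (nat_lit 292) .nil))))))) (.g (nat_lit 6) .nil .nil))) 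
(.lf (nat_lit 31805) (.g (nat_lit 2117) (.e (nat_lit 1201) (nat_lit 88) (.e (nat_lit 65610) (nat_lit 10) (.e (nat_lit 344168) (nat_lit 40) (.e (nat_lit 671764) (nat_lit 6) (.e (nat_lit 81958) (nat_lit 24) (.e (nat_lit 123184) (nat_lit 264) .nil)))))) (.g (nat_lit 4) .nil .nil))))))) (.nd (nat_lit 2) (.nd (nat_lit 3) (.nd (nat_lit 4) (.nd (nat_lit 5) 
(.lf (nat_lit 31747) (.g (nat_lit 177) (.e (nat_lit 1201) (nat_lit 88) (.e (nat_lit 65610) (nat_lit 10) (.e (nat_lit 344129) (nat_lit 26) .nil))) .nil)) 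
(.lf (nat_lit 31779) (.g (nat_lit 1843) (.e (nat_lit 1201) (nat_lit 88) (.e (nat_lit 65610) (nat_lit 10) (.e (nat_lit 344160) (nat_lit 37) (.e (nat_lit 647195) (nat_lit 9) (.e (nat_lit 7936) (nat_lit 35) .nil))))) .nil))) (.nd (nat_lit 5) 
(.lf (nat_lit 31763) (.g (nat_lit 3141) (.e (nat_lit 1201) (nat_lit 88) (.e (nat_lit 65610) (nat_lit 10) (.e (nat_lit 344156) (nat_lit 36) (.e (nat_lit 638998) (nat_lit 8) (.e (nat_lit 172120) (nat_lit 12) (.e (nat_lit 475155) (nat_lit 21) (.e (nat_lit 6288) (nat_lit 337) .nil))))))) (.g (nat_lit 5) .nil .nil))) 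
(.lf (nat_lit 31795) (.g (nat_lit 2287) (.e (nat_lit 1201) (nat_lit 88) (.e (nat_lit 65610) (nat_lit 10) (.e (nat_lit 344168) (nat_lit 40) (.e (nat_lit 671751) (nat_lit 0) (.e (nat_lit 1425) (nat_lit 108) (.e (nat_lit 336160) (nat_lit 10) (.e (nat_lit 344104) (nat_lit 18) (.e (nat_lit 5817) (nat_lit 320) .nil)))))))) (.g (nat_lit 4) .nil .nil))))) (.nd (nat_lit 4) (.nd (nat_lit 5) 
(.lf (nat_lit 31755) (.g (nat_lit 2373) (.e (nat_lit 1201) (nat_lit 88) (.e (nat_lit 65610) (nat_lit 10) (.e (nat_lit 344138) (nat_lit 29) (.e (nat_lit 581636) (nat_lit 0) (.e (nat_lit 3016) (nat_lit 187) (.e (nat_lit 450563) (nat_lit 0) (.e (nat_lit 6740) (nat_lit 365) .nil))))))) (.g (nat_lit 5) .nil .nil))) 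
(.lf (nat_lit 31787) (.g (nat_lit 3156) (.e (nat_lit 1201) (nat_lit 88) (.e (nat_lit 65610) (nat_lit 10) (.e (nat_lit 344168) (nat_lit 40) (.e (nat_lit 671747) (nat_lit 0) (.e (nat_lit 1586) (nat_lit 111) (.e (nat_lit 360456) (nat_lit 0) (.e (nat_lit 5817) (nat_lit 320) .nil))))))) (.g (nat_lit 6) .nil .nil)))) (.nd (nat_lit 5) 
(.lf (nat_lit 31771) (.g (nat_lit 1837) (.e (nat_lit 1201) (nat_lit 88) (.e (nat_lit 65610) (nat_lit 10) (.e (nat_lit 344157) (nat_lit 36) (.e (nat_lit 638985) (nat_lit 5) (.e (nat_lit 3022) (nat_lit 187) (.e (nat_lit 458496) (nat_lit 0) (.e (nat_lit 5071) (nat_lit 292) .nil))))))) (.g (nat_lit 4) .nil .nil))) 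
(.lf (nat_lit 31803) (.g (nat_lit 3041) (.e (nat_lit 1201) (nat_lit 88) (.e (nat_lit 65610) (nat_lit 10) (.e (nat_lit 344168) (nat_lit 40) (.e (nat_lit 671764) (nat_lit 6) (.e (nat_lit 81957) (nat_lit 24) (.e (nat_lit 123183) (nat_lit 264) .nil)))))) (.g (nat_lit 6) .nil .nil)))))) (.nd (nat_lit 3) (.nd (nat_lit 4) (.nd (nat_lit 5) 
(.lf (nat_lit 31751) (.g (nat_lit 2187) (.e (nat_lit 1201) (nat_lit 88) (.e (nat_lit 65610) (nat_lit 10) (.e (nat_lit 344129) (nat_lit 26) (.e (nat_lit 557118) (nat_lit 18) .nil)))) .nil)) 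
(.lf (nat_lit 31783) (.g (nat_lit 2615) (.e (nat_lit 1201) (nat_lit 88) (.e (nat_lit 65610) (nat_lit 10) (.e (nat_lit 344168) (nat_lit 40) (.e (nat_lit 671746) (nat_lit 0) (.e (nat_lit 1586) (nat_lit 111) (.e (nat_lit 360456) (nat_lit 0) (.e (nat_lit 5817) (nat_lit 320) .nil))))))) (.g (nat_lit 5) .nil .nil)))) (.nd (nat_lit 5) 
(.lf (nat_lit 31767) (.g (nat_lit 2573) (.e (nat_lit 1201) (nat_lit 88) (.e (nat_lit 65610) (nat_lit 10) (.e (nat_lit 344157) (nat_lit 36) (.e (nat_lit 638985) (nat_lit 5) (.e (nat_lit 3015) (nat_lit 187) (.e (nat_lit 450560) (nat_lit 0) (.e (nat_lit 5060) (nat_lit 292) .nil))))))) (.g (nat_lit 6) .nil .nil))) 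
(.lf (nat_lit 31799) (.g (nat_lit 1986) (.e (nat_lit 1201) (nat_lit 88) (.e (nat_lit 65610) (nat_lit 10) (.e (nat_lit 344168) (nat_lit 40) (.e (nat_lit 671762) (nat_lit 4) (.e (nat_lit 65595) (nat_lit 9) (.e (nat_lit 336032) (nat_lit 4) (.e (nat_lit 123184) (nat_lit 264) .nil))))))) (.g (nat_lit 4) .nil .nil))))) (.nd (nat_lit 4) (.nd (nat_lit 5) 
(.lf (nat_lit 31759) (.g (nat_lit 1005) (.e (nat_lit 1201) (nat_lit 88) (.e (nat_lit 65610) (nat_lit 10) (.e (nat_lit 344156) (nat_lit 36) (.e (nat_lit 638998) (nat_lit 8) .nil)))) .nil)) 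
(.lf (nat_lit 31791) (.g (nat_lit 2376) (.e (nat_lit 1201) (nat_lit 88) (.e (nat_lit 65610) (nat_lit 10) (.e (nat_lit 344168) (nat_lit 40) (.e (nat_lit 671747) (nat_lit 0) (.e (nat_lit 1598) (nat_lit 111) (.e (nat_lit 360455) (nat_lit 0) (.e (nat_lit 5813) (nat_lit 320) .nil))))))) (.g (nat_lit 4) .nil .nil)))) (.nd (nat_lit 5) 
(.lf (nat_lit 31775) (.g (nat_lit 1880) (.e (nat_lit 1201) (nat_lit 88) (.e (nat_lit 65610) (nat_lit 10) (.e (nat_lit 344157) (nat_lit 36) (.e (nat_lit 638986) (nat_lit 5) (.e (nat_lit 3022) (nat_lit 187) (.e (nat_lit 450560) (nat_lit 0) (.e (nat_lit 5077) (nat_lit 292) .nil))))))) (.g (nat_lit 4) .nil .nil))) 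
(.lf (nat_lit 31807) (.g (nat_lit 1895) (.e (nat_lit 1201) (nat_lit 88) (.e (nat_lit 65610) (nat_lit 10) (.e (nat_lit 344169) (nat_lit 40) (.e (nat_lit 671746) (nat_lit 0) (.e (nat_lit 1572) (nat_lit 110) (.e (nat_lit 352318) (nat_lit 24) (.e (nat_lit 123183) (nat_lit 264) .nil))))))) (.g (nat_lit 4) .nil .nil)))))))))

noncomputable def tv445 : DT := (.nd (nat_lit 0) (.nd (nat_lit 1) (.nd (nat_lit 2) (.nd (nat_lit 3) (.nd (nat_lit 4) (.nd (nat_lit 5) 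
(.lf (nat_lit 31808) (.g (nat_lit 2622) (.e (nat_lit 1201) (nat_lit 88) (.e (nat_lit 65610) (nat_lit 10) (.e (nat_lit 344169) (nat_lit 40) (.e (nat_lit 671746) (nat_lit 0) (.e (nat_lit 1586) (nat_lit 111) (.e (nat_lit 360456) (nat_lit 0) (.e (nat_lit 5817) (nat_lit 320) .nil))))))) (.g (nat_lit 5) .nil .nil))) 
(.lf (nat_lit 31840) (.g (nat_lit 2941) (.e (nat_lit 1201) (nat_lit 88) (.e (nat_lit 65610) (nat_lit 10) (.e (nat_lit 344169) (nat_lit 40) (.e (nat_lit 671748) (nat_lit 0) (.e (nat_lit 1589) (nat_lit 111) (.e (nat_lit 368384) (nat_lit 0) (.e (nat_lit 5813) (nat_lit 320) .nil))))))) (.g (nat_lit 5) .nil .nil)))) (.nd (nat_lit 5) 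
(.lf (nat_lit 31824) (.g (nat_lit 2151) (.e (nat_lit 1201) (nat_lit 88) (.e (nat_lit 65610) (nat_lit 10) (.e (nat_lit 344169) (nat_lit 40) (.e (nat_lit 671747) (nat_lit 0) (.e (nat_lit 1599) (nat_lit 111) (.e (nat_lit 360456) (nat_lit 0) (.e (nat_lit 5817) (nat_lit 320) .nil))))))) (.g (nat_lit 4) .nil .nil))) 
(.lf (nat_lit 31856) (.g (nat_lit 2497) (.e (nat_lit 1201) (nat_lit 88) (.e (nat_lit 65610) (nat_lit 10) (.e (nat_lit 344169) (nat_lit 40) (.e (nat_lit 671762) (nat_lit 4) (.e (nat_lit 65595) (nat_lit 9) (.e (nat_lit 336032) (nat_lit 4) (.e (nat_lit 123184) (nat_lit 264) .nil))))))) (.g (nat_lit 4) .nil .nil))))) (.nd (nat_lit 4) (.nd (nat_lit 5) 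
(.lf (nat_lit 31816) (.g (nat_lit 2368) (.e (nat_lit 1201) (nat_lit 88) (.e (nat_lit 65610) (nat_lit 10) (.e (nat_lit 344169) (nat_lit 40) (.e (nat_lit 671747) (nat_lit 0) (.e (nat_lit 1586) (nat_lit 111) (.e (nat_lit 368384) (nat_lit 0) (.e (nat_lit 5813) (nat_lit 320) .nil))))))) (.g (nat_lit 4) .nil .nil))) 
(.lf (nat_lit 31848) (.g (nat_lit 2726) (.e (nat_lit 1201) (nat_lit 88) (.e (nat_lit 65610) (nat_lit 10) (.e (nat_lit 344169) (nat_lit 40) (.e (nat_lit 671748) (nat_lit 0) (.e (nat_lit 1598) (nat_lit 111) (.e (nat_lit 360456) (nat_lit 0) (.e (nat_lit 5816) (nat_lit 320) .nil))))))) (.g (nat_lit 4) .nil .nil)))) (.nd (nat_lit 5) 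
(.lf (nat_lit 31832) (.g (nat_lit 3721) (.e (nat_lit 1201) (nat_lit 88) (.e (nat_lit 65610) (nat_lit 10) (.e (nat_lit 344169) (nat_lit 40) (.e (nat_lit 671748) (nat_lit 0) (.e (nat_lit 1572) (nat_lit 110) (.e (nat_lit 352318) (nat_lit 24) (.e (nat_lit 123185) (nat_lit 264) .nil))))))) (.g (nat_lit 6) .nil .nil))) 
(.lf (nat_lit 31864) (.g (nat_lit 2296) (.e (nat_lit 1201) (nat_lit 88) (.e (nat_lit 65610) (nat_lit 10) (.e (nat_lit 344169) (nat_lit 40) (.e (nat_lit 671762) (nat_lit 4) (.e (nat_lit 65602) (nat_lit 9) (.e (nat_lit 336032) (nat_lit 4) (.e (nat_lit 123184) (nat_lit 264) .nil))))))) (.g (nat_lit 4) .nil .nil)))))) (.nd (nat_lit 3) (.nd (nat_lit 4) (.nd (nat_lit 5) 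
(.lf (nat_lit 31812) (.g (nat_lit 2196) (.e (nat_lit 1201) (nat_lit 88) (.e (nat_lit 65610) (nat_lit 10) (.e (nat_lit 344169) (nat_lit 40) (.e (nat_lit 671747) (nat_lit 0) (.e (nat_lit 1569) (nat_lit 110) (.e (nat_lit 352318) (nat_lit 24) (.e (nat_lit 123184) (nat_lit 264) .nil))))))) (.g (nat_lit 4) .nil .nil))) 
(.lf (nat_lit 31844) (.g (nat_lit 2978) (.e (nat_lit 1201) (nat_lit 88) (.e (nat_lit 65610) (nat_lit 10) (.e (nat_lit 344169) (nat_lit 40) (.e (nat_lit 671748) (nat_lit 0) (.e (nat_lit 1595) (nat_lit 111) (.e (nat_lit 360457) (nat_lit 0) (.e (nat_lit 5816) (nat_lit 320) .nil))))))) (.g (nat_lit 5) .nil .nil)))) (.nd (nat_lit 5) 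
(.lf (nat_lit 31828) (.g (nat_lit 2058) (.e (nat_lit 1201) (nat_lit 88) (.e (nat_lit 65610) (nat_lit 10) (.e (nat_lit 344169) (nat_lit 40) (.e (nat_lit 671748) (nat_lit 0) (.e (nat_lit 1569) (nat_lit 110) (.e (nat_lit 352318) (nat_lit 24) (.e (nat_lit 123183) (nat_lit 264) .nil))))))) (.g (nat_lit 4) .nil .nil))) 
(.lf (nat_lit 31860) (.g (nat_lit 2457) (.e (nat_lit 1201) (nat_lit 88) (.e (nat_lit 65610) (nat_lit 10) (.e (nat_lit 344169) (nat_lit 40) (.e (nat_lit 671762) (nat_lit 4) (.e (nat_lit 65598) (nat_lit 9) (.e (nat_lit 336032) (nat_lit 4) (.e (nat_lit 123185) (nat_lit 264) .nil))))))) (.g (nat_lit 4) .nil .nil))))) (.nd (nat_lit 4) (.nd (nat_lit 5) 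
(.lf (nat_lit 31820) (.g (nat_lit 3479) (.e (nat_lit 1201) (nat_lit 88) (.e (nat_lit 65610) (nat_lit 10) (.e (nat_lit 344169) (nat_lit 40) (.e (nat_lit 671747) (nat_lit 0) (.e (nat_lit 1595) (nat_lit 111) (.e (nat_lit 360457) (nat_lit 0) (.e (nat_lit 5818) (nat_lit 320) .nil))))))) (.g (nat_lit 7) .nil .nil))) 
(.lf (nat_lit 31852) (.g (nat_lit 2587) (.e (nat_lit 1201) (nat_lit 88) (.e (nat_lit 65610) (nat_lit 10) (.e (nat_lit 344169) (nat_lit 40) (.e (nat_lit 671748) (nat_lit 0) (.e (nat_lit 1599) (nat_lit 111) (.e (nat_lit 360456) (nat_lit 0) (.e (nat_lit 5816) (nat_lit 320) .nil))))))) (.g (nat_lit 4) .nil .nil)))) (.nd (nat_lit 5) 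
(.lf (nat_lit 31836) (.g (nat_lit 2624) (.e (nat_lit 1201) (nat_lit 88) (.e (nat_lit 65610) (nat_lit 10) (.e (nat_lit 344169) (nat_lit 40) (.e (nat_lit 671748) (nat_lit 0) (.e (nat_lit 1586) (nat_lit 111) (.e (nat_lit 368384) (nat_lit 0) (.e (nat_lit 5817) (nat_lit 320) .nil))))))) (.g (nat_lit 4) .nil .nil))) 
(.lf (nat_lit 31868) (.g (nat_lit 3232) (.e (nat_lit 1201) (nat_lit 88) (.e (nat_lit 65610) (nat_lit 10) (.e (nat_lit 344169) (nat_lit 40) (.e (nat_lit 671764) (nat_lit 6) (.e (nat_lit 81957) (nat_lit 24) (.e (nat_lit 123183) (nat_lit 264) .nil)))))) (.g (nat_lit 6) .nil .nil))))))) (.nd (nat_lit 2) (.nd (nat_lit 3) (.nd (nat_lit 4) (.nd (nat_lit 5) 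
(.lf (nat_lit 31810) (.g (nat_lit 2003) (.e (nat_lit 1201) (nat_lit 88) (.e (nat_lit 65610) (nat_lit 10) (.e (nat_lit 344169) (nat_lit 40) (.e (nat_lit 671746) (nat_lit 0) (.e (nat_lit 1598) (nat_lit 111) (.e (nat_lit 360456) (nat_lit 0) (.e (nat_lit 5818) (nat_lit 320) .nil))))))) (.g (nat_lit 4) .nil .nil))) 
(.lf (nat_lit 31842) (.g (nat_lit 3261) (.e (nat_lit 1201) (nat_lit 88) (.e (nat_lit 65610) (nat_lit 10) (.e (nat_lit 344169) (nat_lit 40) (.e (nat_lit 671748) (nat_lit 0) (.e (nat_lit 1595) (nat_lit 111) (.e (nat_lit 360455) (nat_lit 0) (.e (nat_lit 5813) (nat_lit 320) .nil))))))) (.g (nat_lit 5) .nil .nil)))) (.nd (nat_lit 5) 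
(.lf (nat_lit 31826) (.g (nat_lit 3232) (.e (nat_lit 1201) (nat_lit 88) (.e (nat_lit 65610) (nat_lit 10) (.e (nat_lit 344169) (nat_lit 40) (.e (nat_lit 671748) (nat_lit 0) (.e (nat_lit 1562) (nat_lit 110) (.e (nat_lit 352318) (nat_lit 24) (.e (nat_lit 123183) (nat_lit 264) .nil))))))) (.g (nat_lit 6) .nil .nil))) 
(.lf (nat_lit 31858) (.g (nat_lit 2563) (.e (nat_lit 1201) (nat_lit 88) (.e (nat_lit 65610) (nat_lit 10) (.e (nat_lit 344169) (nat_lit 40) (.e (nat_lit 671762) (nat_lit 4) (.e (nat_lit 65598) (nat_lit 9) (.e (nat_lit 336032) (nat_lit 4) (.e (nat_lit 123183) (nat_lit 264) .nil))))))) (.g (nat_lit 4) .nil .nil))))) (.nd (nat_lit 4) (.nd (nat_lit 5) 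
(.lf (nat_lit 31818) (.g (nat_lit 2437) (.e (nat_lit 1201) (nat_lit 88) (.e (nat_lit 65610) (nat_lit 10) (.e (nat_lit 344169) (nat_lit 40) (.e (nat_lit 671747) (nat_lit 0) (.e (nat_lit 1595) (nat_lit 111) (.e (nat_lit 360457) (nat_lit 0) (.e (nat_lit 5816) (nat_lit 320) .nil))))))) (.g (nat_lit 4) .nil .nil))) 
(.lf (nat_lit 31850) (.g (nat_lit 2321) (.e (nat_lit 1201) (nat_lit 88) (.e (nat_lit 65610) (nat_lit 10) (.e (nat_lit 344169) (nat_lit 40) (.e (nat_lit 671748) (nat_lit 0) (.e (nat_lit 1598) (nat_lit 111) (.e (nat_lit 368384) (nat_lit 0) (.e (nat_lit 5817) (nat_lit 320) .nil))))))) (.g (nat_lit 4) .nil .nil)))) (.nd (nat_lit 5) 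
(.lf (nat_lit 31834) (.g (nat_lit 3010) (.e (nat_lit 1201) (nat_lit 88) (.e (nat_lit 65610) (nat_lit 10) (.e (nat_lit 344169) (nat_lit 40) (.e (nat_lit 671748) (nat_lit 0) (.e (nat_lit 1586) (nat_lit 111) (.e (nat_lit 360456) (nat_lit 0) (.e (nat_lit 5816) (nat_lit 320) .nil))))))) (.g (nat_lit 5) .nil .nil))) 
(.lf (nat_lit 31866) (.g (nat_lit 2917) (.e (nat_lit 1201) (nat_lit 88) (.e (nat_lit 65610) (nat_lit 10) (.e (nat_lit 344169) (nat_lit 40) (.e (nat_lit 671762) (nat_lit 4) (.e (nat_lit 65605) (nat_lit 9) (.e (nat_lit 336032) (nat_lit 4) (.e (nat_lit 123184) (nat_lit 264) .nil))))))) (.g (nat_lit 4) .nil .nil)))))) (.nd (nat_lit 3) (.nd (nat_lit 4) (.nd (nat_lit 5) 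
(.lf (nat_lit 31814) (.g (nat_lit 2698) (.e (nat_lit 1201) (nat_lit 88) (.e (nat_lit 65610) (nat_lit 10) (.e (nat_lit 344169) (nat_lit 40) (.e (nat_lit 671747) (nat_lit 0) (.e (nat_lit 1586) (nat_lit 111) (.e (nat_lit 360456) (nat_lit 0) (.e (nat_lit 5816) (nat_lit 320) .nil))))))) (.g (nat_lit 5) .nil .nil))) 
(.lf (nat_lit 31846) (.g (nat_lit 2799) (.e (nat_lit 1201) (nat_lit 88) (.e (nat_lit 65610) (nat_lit 10) (.e (nat_lit 344169) (nat_lit 40) (.e (nat_lit 671748) (nat_lit 0) (.e (nat_lit 1595) (nat_lit 111) (.e (nat_lit 368384) (nat_lit 0) (.e (nat_lit 5813) (nat_lit 320) .nil))))))) (.g (nat_lit 4) .nil .nil)))) (.nd (nat_lit 5) 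
(.lf (nat_lit 31830) (.g (nat_lit 2293) (.e (nat_lit 1201) (nat_lit 88) (.e (nat_lit 65610) (nat_lit 10) (.e (nat_lit 344169) (nat_lit 40) (.e (nat_lit 671748) (nat_lit 0) (.e (nat_lit 1569) (nat_lit 110) (.e (nat_lit 352318) (nat_lit 24) (.e (nat_lit 123185) (nat_lit 264) .nil))))))) (.g (nat_lit 4) .nil .nil))) 
(.lf (nat_lit 31862) (.g (nat_lit 2116) (.e (nat_lit 1201) (nat_lit 88) (.e (nat_lit 65610) (nat_lit 10) (.e (nat_lit 344169) (nat_lit 40) (.e (nat_lit 671762) (nat_lit 4) (.e (nat_lit 65599) (nat_lit 9) (.e (nat_lit 336032) (nat_lit 4) (.e (nat_lit 123183) (nat_lit 264) .nil))))))) (.g (nat_lit 4) .nil .nil))))) (.nd (nat_lit 4) (.nd (nat_lit 5) 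
(.lf (nat_lit 31822) (.g (nat_lit 2499) (.e (nat_lit 1201) (nat_lit 88) (.e (nat_lit 65610) (nat_lit 10) (.e (nat_lit 344169) (nat_lit 40) (.e (nat_lit 671747) (nat_lit 0) (.e (nat_lit 1598) (nat_lit 111) (.e (nat_lit 360456) (nat_lit 0) (.e (nat_lit 5817) (nat_lit 320) .nil))))))) (.g (nat_lit 5) .nil .nil))) 
(.lf (nat_lit 31854) (.g (nat_lit 2195) (.e (nat_lit 1201) (nat_lit 88) (.e (nat_lit 65610) (nat_lit 10) (.e (nat_lit 344169) (nat_lit 40) (.e (nat_lit 671748) (nat_lit 0) (.e (nat_lit 1599) (nat_lit 111) (.e (nat_lit 368384) (nat_lit 0) (.e (nat_lit 5817) (nat_lit 320) .nil))))))) (.g (nat_lit 4) .nil .nil)))) (.nd (nat_lit 5) 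
(.lf (nat_lit 31838) (.g (nat_lit 2832) (.e (nat_lit 1201) (nat_lit 88) (.e (nat_lit 65610) (nat_lit 10) (.e (nat_lit 344169) (nat_lit 40) (.e (nat_lit 671748) (nat_lit 0) (.e (nat_lit 1589) (nat_lit 111) (.e (nat_lit 360457) (nat_lit 0) (.e (nat_lit 5817) (nat_lit 320) .nil))))))) (.g (nat_lit 5) .nil .nil))) 
(.lf (nat_lit 31870) (.g (nat_lit 2109) (.e (nat_lit 1201) (nat_lit 88) (.e (nat_lit 65610) (nat_lit 10) (.e (nat_lit 344169) (nat_lit 40) (.e (nat_lit 671764) (nat_lit 6) (.e (nat_lit 81958) (nat_lit 24) (.e (nat_lit 123183) (nat_lit 264) .nil)))))) (.g (nat_lit 4) .nil .nil)))))))) (.nd (nat_lit 1) (.nd (nat_lit 2) (.nd (nat_lit 3) (.nd (nat_lit 4) (.nd (nat_lit 5) 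
(.lf (nat_lit 31809) (.g (nat_lit 2763) (.e (nat_lit 1201) (nat_lit 88) (.e (nat_lit 65610) (nat_lit 10) (.e (nat_lit 344169) (nat_lit 40) (.e (nat_lit 671746) (nat_lit 0) (.e (nat_lit 1586) (nat_lit 111) (.e (nat_lit 360456) (nat_lit 0) (.e (nat_lit 5818) (nat_lit 320) .nil))))))) (.g (nat_lit 6) .nil .nil))) 
(.lf (nat_lit 31841) (.g (nat_lit 2652) (.e (nat_lit 1201) (nat_lit 88) (.e (nat_lit 65610) (nat_lit 10) (.e (nat_lit 344169) (nat_lit 40) (.e (nat_lit 671748) (nat_lit 0) (.e (nat_lit 1589) (nat_lit 111) (.e (nat_lit 368384) (nat_lit 0) (.e (nat_lit 5817) (nat_lit 320) .nil))))))) (.g (nat_lit 4) .nil .nil)))) (.nd (nat_lit 5) 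
(.lf (nat_lit 31825) (.g (nat_lit 2294) (.e (nat_lit 1201) (nat_lit 88) (.e (nat_lit 65610) (nat_lit 10) (.e (nat_lit 344169) (nat_lit 40) (.e (nat_lit 671747) (nat_lit 0) (.e (nat_lit 1599) (nat_lit 111) (.e (nat_lit 360456) (nat_lit 0) (.e (nat_lit 5818) (nat_lit 320) .nil))))))) (.g (nat_lit 4) .nil .nil))) 
(.lf (nat_lit 31857) (.g (nat_lit 2047) (.e (nat_lit 1201) (nat_lit 88) (.e (nat_lit 65610) (nat_lit 10) (.e (nat_lit 344169) (nat_lit 40) (.e (nat_lit 671762) (nat_lit 4) (.e (nat_lit 65596) (nat_lit 9) (.e (nat_lit 336032) (nat_lit 4) (.e (nat_lit 123184) (nat_lit 264) .nil))))))) (.g (nat_lit 4) .nil .nil))))) (.nd (nat_lit 4) (.nd (nat_lit 5) 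
(.lf (nat_lit 31817) (.g (nat_lit 2484) (.e (nat_lit 1201) (nat_lit 88) (.e (nat_lit 65610) (nat_lit 10) (.e (nat_lit 344169) (nat_lit 40) (.e (nat_lit 671747) (nat_lit 0) (.e (nat_lit 1595) (nat_lit 111) (.e (nat_lit 360455) (nat_lit 0) (.e (nat_lit 5813) (nat_lit 320) .nil))))))) (.g (nat_lit 4) .nil .nil))) 
(.lf (nat_lit 31849) (.g (nat_lit 2610) (.e (nat_lit 1201) (nat_lit 88) (.e (nat_lit 65610) (nat_lit 10) (.e (nat_lit 344169) (nat_lit 40) (.e (nat_lit 671748) (nat_lit 0) (.e (nat_lit 1598) (nat_lit 111) (.e (nat_lit 368384) (nat_lit 0) (.e (nat_lit 5813) (nat_lit 320) .nil))))))) (.g (nat_lit 4) .nil .nil)))) (.nd (nat_lit 5) 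
(.lf (nat_lit 31833) (.g (nat_lit 2966) (.e (nat_lit 1201) (nat_lit 88) (.e (nat_lit 65610) (nat_lit 10) (.e (nat_lit 344169) (nat_lit 40) (.e (nat_lit 671748) (nat_lit 0) (.e (nat_lit 1586) (nat_lit 111) (.e (nat_lit 360455) (nat_lit 0) (.e (nat_lit 5813) (nat_lit 320) .nil))))))) (.g (nat_lit 5) .nil .nil))) 
(.lf (nat_lit 31865) (.g (nat_lit 2680) (.e (nat_lit 1201) (nat_lit 88) (.e (nat_lit 65610) (nat_lit 10) (.e (nat_lit 344169) (nat_lit 40) (.e (nat_lit 671762) (nat_lit 4) (.e (nat_lit 65605) (nat_lit 9) (.e (nat_lit 336032) (nat_lit 4) (.e (nat_lit 123182) (nat_lit 264) .nil))))))) (.g (nat_lit 4) .nil .nil)))))) (.nd (nat_lit 3) (.nd (nat_lit 4) (.nd (nat_lit 5) 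
(.lf (nat_lit 31813) (.g (nat_lit 3602) (.e (nat_lit 1201) (nat_lit 88) (.e (nat_lit 65610) (nat_lit 10) (.e (nat_lit 344169) (nat_lit 40) (.e (nat_lit 671747) (nat_lit 0) (.e (nat_lit 1572) (nat_lit 110) (.e (nat_lit 352318) (nat_lit 24) (.e (nat_lit 123184) (nat_lit 264) .nil))))))) (.g (nat_lit 7) .nil .nil))) 
(.lf (nat_lit 31845) (.g (nat_lit 3581) (.e (nat_lit 1201) (nat_lit 88) (.e (nat_lit 65610) (nat_lit 10) (.e (nat_lit 344169) (nat_lit 40) (.e (nat_lit 671748) (nat_lit 0) (.e (nat_lit 1595) (nat_lit 111) (.e (nat_lit 360457) (nat_lit 0) (.e (nat_lit 5817) (nat_lit 320) .nil))))))) (.g (nat_lit 7) .nil .nil)))) (.nd (nat_lit 5) 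
(.lf (nat_lit 31829) (.g (nat_lit 2600) (.e (nat_lit 1201) (nat_lit 88) (.e (nat_lit 65610) (nat_lit 10) (.e (nat_lit 344169) (nat_lit 40) (.e (nat_lit 671748) (nat_lit 0) (.e (nat_lit 1569) (nat_lit 110) (.e (nat_lit 352318) (nat_lit 24) (.e (nat_lit 123184) (nat_lit 264) .nil))))))) (.g (nat_lit 4) .nil .nil))) 
(.lf (nat_lit 31861) (.g (nat_lit 3336) (.e (nat_lit 1201) (nat_lit 88) (.e (nat_lit 65610) (nat_lit 10) (.e (nat_lit 344169) (nat_lit 40) (.e (nat_lit 671762) (nat_lit 4) (.e (nat_lit 65599) (nat_lit 9) (.e (nat_lit 336032) (nat_lit 4) (.e (nat_lit 123182) (nat_lit 264) .nil))))))) (.g (nat_lit 5) .nil .nil))))) (.nd (nat_lit 4) (.nd (nat_lit 5) 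
(.lf (nat_lit 31821) (.g (nat_lit 2653) (.e (nat_lit 1201) (nat_lit 88) (.e (nat_lit 65610) (nat_lit 10) (.e (nat_lit 344169) (nat_lit 40) (.e (nat_lit 671747) (nat_lit 0) (.e (nat_lit 1598) (nat_lit 111) (.e (nat_lit 360455) (nat_lit 0) (.e (nat_lit 5813) (nat_lit 320) .nil))))))) (.g (nat_lit 4) .nil .nil))) 
(.lf (nat_lit 31853) (.g (nat_lit 2484) (.e (nat_lit 1201) (nat_lit 88) (.e (nat_lit 65610) (nat_lit 10) (.e (nat_lit 344169) (nat_lit 40) (.e (nat_lit 671748) (nat_lit 0) (.e (nat_lit 1599) (nat_lit 111) (.e (nat_lit 368384) (nat_lit 0) (.e (nat_lit 5813) (nat_lit 320) .nil))))))) (.g (nat_lit 4) .nil .nil)))) (.nd (nat_lit 5) 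
(.lf (nat_lit 31837) (.g (nat_lit 2229) (.e (nat_lit 1201) (nat_lit 88) (.e (nat_lit 65610) (nat_lit 10) (.e (nat_lit 344169) (nat_lit 40) (.e (nat_lit 671748) (nat_lit 0) (.e (nat_lit 1589) (nat_lit 111) (.e (nat_lit 360457) (nat_lit 0) (.e (nat_lit 5816) (nat_lit 320) .nil))))))) (.g (nat_lit 4) .nil .nil))) 
(.lf (nat_lit 31869) (.g (nat_lit 3829) (.e (nat_lit 1201) (nat_lit 88) (.e (nat_lit 65610) (nat_lit 10) (.e (nat_lit 344169) (nat_lit 40) (.e (nat_lit 671764) (nat_lit 6) (.e (nat_lit 81957) (nat_lit 24) (.e (nat_lit 123184) (nat_lit 264) .nil)))))) (.g (nat_lit 0) .nil .nil))))))) (.nd (nat_lit 2) (.nd (nat_lit 3) (.nd (nat_lit 4) (.nd (nat_lit 5) 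
(.lf (nat_lit 31811) (.g (nat_lit 2047) (.e (nat_lit 1201) (nat_lit 88) (.e (nat_lit 65610) (nat_lit 10) (.e (nat_lit 344169) (nat_lit 40) (.e (nat_lit 671746) (nat_lit 0) (.e (nat_lit 1599) (nat_lit 111) (.e (nat_lit 360456) (nat_lit 0) (.e (nat_lit 5818) (nat_lit 320) .nil))))))) (.g (nat_lit 4) .nil .nil))) 
(.lf (nat_lit 31843) (.g (nat_lit 2159) (.e (nat_lit 1201) (nat_lit 88) (.e (nat_lit 65610) (nat_lit 10) (.e (nat_lit 344169) (nat_lit 40) (.e (nat_lit 671748) (nat_lit 0) (.e (nat_lit 1595) (nat_lit 111) (.e (nat_lit 360457) (nat_lit 0) (.e (nat_lit 5815) (nat_lit 320) .nil))))))) (.g (nat_lit 4) .nil .nil)))) (.nd (nat_lit 5) 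
(.lf (nat_lit 31827) (.g (nat_lit 3422) (.e (nat_lit 1201) (nat_lit 88) (.e (nat_lit 65610) (nat_lit 10) (.e (nat_lit 344169) (nat_lit 40) (.e (nat_lit 671748) (nat_lit 0) (.e (nat_lit 1562) (nat_lit 110) (.e (nat_lit 352318) (nat_lit 24) (.e (nat_lit 123185) (nat_lit 264) .nil))))))) (.g (nat_lit 6) .nil .nil))) 
(.lf (nat_lit 31859) (.g (nat_lit 4020) (.e (nat_lit 1201) (nat_lit 88) (.e (nat_lit 65610) (nat_lit 10) (.e (nat_lit 344169) (nat_lit 40) (.e (nat_lit 671762) (nat_lit 4) (.e (nat_lit 65598) (nat_lit 9) (.e (nat_lit 336032) (nat_lit 4) (.e (nat_lit 123184) (nat_lit 264) .nil))))))) (.g (nat_lit 7) .nil .nil))))) (.nd (nat_lit 4) (.nd (nat_lit 5) 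
(.lf (nat_lit 31819) (.g (nat_lit 3040) (.e (nat_lit 1201) (nat_lit 88) (.e (nat_lit 65610) (nat_lit 10) (.e (nat_lit 344169) (nat_lit 40) (.e (nat_lit 671747) (nat_lit 0) (.e (nat_lit 1595) (nat_lit 111) (.e (nat_lit 360457) (nat_lit 0) (.e (nat_lit 5817) (nat_lit 320) .nil))))))) (.g (nat_lit 6) .nil .nil))) 
(.lf (nat_lit 31851) (.g (nat_lit 2647) (.e (nat_lit 1201) (nat_lit 88) (.e (nat_lit 65610) (nat_lit 10) (.e (nat_lit 344169) (nat_lit 40) (.e (nat_lit 671748) (nat_lit 0) (.e (nat_lit 1599) (nat_lit 111) (.e (nat_lit 360455) (nat_lit 0) (.e (nat_lit 5813) (nat_lit 320) .nil))))))) (.g (nat_lit 4) .nil .nil)))) (.nd (nat_lit 5) 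
(.lf (nat_lit 31835) (.g (nat_lit 2913) (.e (nat_lit 1201) (nat_lit 88) (.e (nat_lit 65610) (nat_lit 10) (.e (nat_lit 344169) (nat_lit 40) (.e (nat_lit 671748) (nat_lit 0) (.e (nat_lit 1586) (nat_lit 111) (.e (nat_lit 368384) (nat_lit 0) (.e (nat_lit 5813) (nat_lit 320) .nil))))))) (.g (nat_lit 5) .nil .nil))) 
(.lf (nat_lit 31867) (.g (nat_lit 4714) (.e (nat_lit 1201) (nat_lit 88) (.e (nat_lit 65610) (nat_lit 10) (.e (nat_lit 344169) (nat_lit 40) (.e (nat_lit 671764) (nat_lit 6) (.e (nat_lit 81957) (nat_lit 24) (.e (nat_lit 123182) (nat_lit 264) .nil)))))) (.g (nat_lit 0) .nil .nil)))))) (.nd (nat_lit 3) (.nd (nat_lit 4) (.nd (nat_lit 5) 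
(.lf (nat_lit 31815) (.g (nat_lit 3538) (.e (nat_lit 1201) (nat_lit 88) (.e (nat_lit 65610) (nat_lit 10) (.e (nat_lit 344169) (nat_lit 40) (.e (nat_lit 671747) (nat_lit 0) (.e (nat_lit 1586) (nat_lit 111) (.e (nat_lit 360456) (nat_lit 0) (.e (nat_lit 5818) (nat_lit 320) .nil))))))) (.g (nat_lit 0) .nil .nil))) 
(.lf (nat_lit 31847) (.g (nat_lit 2510) (.e (nat_lit 1201) (nat_lit 88) (.e (nat_lit 65610) (nat_lit 10) (.e (nat_lit 344169) (nat_lit 40) (.e (nat_lit 671748) (nat_lit 0) (.e (nat_lit 1595) (nat_lit 111) (.e (nat_lit 368384) (nat_lit 0) (.e (nat_lit 5817) (nat_lit 320) .nil))))))) (.g (nat_lit 4) .nil .nil)))) (.nd (nat_lit 5) 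
(.lf (nat_lit 31831) (.g (nat_lit 3615) (.e (nat_lit 1201) (nat_lit 88) (.e (nat_lit 65610) (nat_lit 10) (.e (nat_lit 344169) (nat_lit 40) (.e (nat_lit 671748) (nat_lit 0) (.e (nat_lit 1572) (nat_lit 110) (.e (nat_lit 352318) (nat_lit 24) (.e (nat_lit 123183) (nat_lit 264) .nil))))))) (.g (nat_lit 6) .nil .nil))) 
(.lf (nat_lit 31863) (.g (nat_lit 3573) (.e (nat_lit 1201) (nat_lit 88) (.e (nat_lit 65610) (nat_lit 10) (.e (nat_lit 344169) (nat_lit 40) (.e (nat_lit 671762) (nat_lit 4) (.e (nat_lit 65599) (nat_lit 9) (.e (nat_lit 336032) (nat_lit 4) (.e (nat_lit 123184) (nat_lit 264) .nil))))))) (.g (nat_lit 6) .nil .nil))))) (.nd (nat_lit 4) (.nd (nat_lit 5) 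
(.lf (nat_lit 31823) (.g (nat_lit 2641) (.e (nat_lit 1201) (nat_lit 88) (.e (nat_lit 65610) (nat_lit 10) (.e (nat_lit 344169) (nat_lit 40) (.e (nat_lit 671747) (nat_lit 0) (.e (nat_lit 1598) (nat_lit 111) (.e (nat_lit 360456) (nat_lit 0) (.e (nat_lit 5818) (nat_lit 320) .nil))))))) (.g (nat_lit 5) .nil .nil))) 
(.lf (nat_lit 31855) (.g (nat_lit 2117) (.e (nat_lit 1201) (nat_lit 88) (.e (nat_lit 65610) (nat_lit 10) (.e (nat_lit 344169) (nat_lit 40) (.e (nat_lit 671762) (nat_lit 4) (.e (nat_lit 65589) (nat_lit 9) (.e (nat_lit 336032) (nat_lit 4) (.e (nat_lit 123184) (nat_lit 264) .nil))))))) (.g (nat_lit 4) .nil .nil)))) (.nd (nat_lit 5) 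
(.lf (nat_lit 31839) (.g (nat_lit 3423) (.e (nat_lit 1201) (nat_lit 88) (.e (nat_lit 65610) (nat_lit 10) (.e (nat_lit 344169) (nat_lit 40) (.e (nat_lit 671748) (nat_lit 0) (.e (nat_lit 1589) (nat_lit 111) (.e (nat_lit 360457) (nat_lit 0) (.e (nat_lit 5818) (nat_lit 320) .nil))))))) (.g (nat_lit 6) .nil .nil))) 
(.lf (nat_lit 31871) (.g (nat_lit 2251) (.e (nat_lit 1201) (nat_lit 88) (.e (nat_lit 65610) (nat_lit 10) (.e (nat_lit 344169) (nat_lit 40) (.e (nat_lit 671764) (nat_lit 6) (.e (nat_lit 81958) (nat_lit 24) (.e (nat_lit 123184) (nat_lit 264) .nil)))))) (.g (nat_lit 4) .nil .nil)))))))))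

noncomputable def tv446 : DT := (.nd (nat_lit 0) (.nd (nat_lit 1) (.nd (nat_lit 2) (.nd (nat_lit 3) (.nd (nat_lit 4) (.nd (nat_lit 5) 
(.lf (nat_lit 31872) (.g (nat_lit 4401) (.e (nat_lit 1201) (nat_lit 88) (.e (nat_lit 65610) (nat_lit 10) (.e (nat_lit 344169) (nat_lit 40) (.e (nat_lit 671764) (nat_lit 6) (.e (nat_lit 81959) (nat_lit 24) (.e (nat_lit 123182) (nat_lit 264) .nil)))))) (.g (nat_lit 0) .nil .nil))) 
(.lf (nat_lit 31904) (.g (nat_lit 3516) (.e (nat_lit 1201) (nat_lit 88) (.e (nat_lit 65610) (nat_lit 10) (.e (nat_lit 344176) (nat_lit 43) (.e (nat_lit 770071) (nat_lit 8) (.e (nat_lit 65617) (nat_lit 10) (.e (nat_lit 344091) (nat_lit 18) (.e (nat_lit 7125) (nat_lit 382) .nil))))))) (.g (nat_lit 6) .nil .nil)))) (.nd (nat_lit 5) 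
(.lf (nat_lit 31888) (.g (nat_lit 2670) (.e (nat_lit 1201) (nat_lit 88) (.e (nat_lit 65610) (nat_lit 10) (.e (nat_lit 344174) (nat_lit 42) (.e (nat_lit 761867) (nat_lit 5) (.e (nat_lit 1454) (nat_lit 108) (.e (nat_lit 336176) (nat_lit 10) (.e (nat_lit 344091) (nat_lit 18) (.e (nat_lit 7124) (nat_lit 382) .nil)))))))) (.g (nat_lit 5) .nil .nil))) 
(.lf (nat_lit 31920) (.g (nat_lit 2516) (.e (nat_lit 1201) (nat_lit 88) (.e (nat_lit 65610) (nat_lit 10) (.e (nat_lit 344177) (nat_lit 43) (.e (nat_lit 770055) (nat_lit 5) (.e (nat_lit 1589) (nat_lit 111) (.e (nat_lit 360449) (nat_lit 0) (.e (nat_lit 7124) (nat_lit 382) .nil))))))) (.g (nat_lit 6) .nil .nil))))) (.nd (nat_lit 4) (.nd (nat_lit 5) 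
(.lf (nat_lit 31880) (.g (nat_lit 3041) (.e (nat_lit 1201) (nat_lit 88) (.e (nat_lit 65610) (nat_lit 10) (.e (nat_lit 344174) (nat_lit 42) (.e (nat_lit 761866) (nat_lit 5) (.e (nat_lit 1454) (nat_lit 108) (.e (nat_lit 336176) (nat_lit 10) (.e (nat_lit 344096) (nat_lit 18) (.e (nat_lit 7125) (nat_lit 382) .nil)))))))) (.g (nat_lit 6) .nil .nil))) 
(.lf (nat_lit 31912) (.g (nat_lit 3741) (.e (nat_lit 1201) (nat_lit 88) (.e (nat_lit 65610) (nat_lit 10) (.e (nat_lit 344176) (nat_lit 43) (.e (nat_lit 770072) (nat_lit 8) (.e (nat_lit 65617) (nat_lit 10) (.e (nat_lit 344091) (nat_lit 18) (.e (nat_lit 7125) (nat_lit 382) .nil))))))) (.g (nat_lit 6) .nil .nil)))) (.nd (nat_lit 5) 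
(.lf (nat_lit 31896) (.g (nat_lit 3121) (.e (nat_lit 1201) (nat_lit 88) (.e (nat_lit 65610) (nat_lit 10) (.e (nat_lit 344174) (nat_lit 42) (.e (nat_lit 761869) (nat_lit 5) (.e (nat_lit 1597) (nat_lit 111) (.e (nat_lit 360449) (nat_lit 0) (.e (nat_lit 7122) (nat_lit 382) .nil))))))) (.g (nat_lit 7) .nil .nil))) 
(.lf (nat_lit 31928) (.g (nat_lit 3454) (.e (nat_lit 1201) (nat_lit 88) (.e (nat_lit 65610) (nat_lit 10) (.e (nat_lit 344177) (nat_lit 43) (.e (nat_lit 770057) (nat_lit 5) (.e (nat_lit 1589) (nat_lit 111) (.e (nat_lit 360449) (nat_lit 0) (.e (nat_lit 7124) (nat_lit 382) .nil))))))) (.g (nat_lit 7) .nil .nil)))))) (.nd (nat_lit 3) (.nd (nat_lit 4) (.nd (nat_lit 5) 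
(.lf (nat_lit 31876) (.g (nat_lit 2907) (.e (nat_lit 1201) (nat_lit 88) (.e (nat_lit 65610) (nat_lit 10) (.e (nat_lit 344174) (nat_lit 42) (.e (nat_lit 761866) (nat_lit 5) (.e (nat_lit 1454) (nat_lit 108) (.e (nat_lit 336176) (nat_lit 10) (.e (nat_lit 344091) (nat_lit 18) (.e (nat_lit 7124) (nat_lit 382) .nil)))))))) (.g (nat_lit 5) .nil .nil))) 
(.lf (nat_lit 31908) (.g (nat_lit 2672) (.e (nat_lit 1201) (nat_lit 88) (.e (nat_lit 65610) (nat_lit 10) (.e (nat_lit 344176) (nat_lit 43) (.e (nat_lit 770071) (nat_lit 8) (.e (nat_lit 65619) (nat_lit 10) (.e (nat_lit 344090) (nat_lit 18) (.e (nat_lit 7125) (nat_lit 382) .nil))))))) (.g (nat_lit 5) .nil .nil)))) (.nd (nat_lit 5) 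
(.lf (nat_lit 31892) (.g (nat_lit 1885) (.e (nat_lit 1201) (nat_lit 88) (.e (nat_lit 65610) (nat_lit 10) (.e (nat_lit 344174) (nat_lit 42) (.e (nat_lit 761867) (nat_lit 5) (.e (nat_lit 1591) (nat_lit 111) (.e (nat_lit 360449) (nat_lit 0) (.e (nat_lit 7125) (nat_lit 382) .nil))))))) (.g (nat_lit 4) .nil .nil))) 
(.lf (nat_lit 31924) (.g (nat_lit 2840) (.e (nat_lit 1201) (nat_lit 88) (.e (nat_lit 65610) (nat_lit 10) (.e (nat_lit 344177) (nat_lit 43) (.e (nat_lit 770055) (nat_lit 5) (.e (nat_lit 1595) (nat_lit 111) (.e (nat_lit 360449) (nat_lit 0) (.e (nat_lit 7125) (nat_lit 382) .nil))))))) (.g (nat_lit 6) .nil .nil))))) (.nd (nat_lit 4) (.nd (nat_lit 5) 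
(.lf (nat_lit 31884) (.g (nat_lit 3194) (.e (nat_lit 1201) (nat_lit 88) (.e (nat_lit 65610) (nat_lit 10) (.e (nat_lit 344174) (nat_lit 42) (.e (nat_lit 761866) (nat_lit 5) (.e (nat_lit 1597) (nat_lit 111) (.e (nat_lit 360449) (nat_lit 0) (.e (nat_lit 7122) (nat_lit 382) .nil))))))) (.g (nat_lit 7) .nil .nil))) 
(.lf (nat_lit 31916) (.g (nat_lit 3840) (.e (nat_lit 1201) (nat_lit 88) (.e (nat_lit 65610) (nat_lit 10) (.e (nat_lit 344176) (nat_lit 43) (.e (nat_lit 770072) (nat_lit 8) (.e (nat_lit 65617) (nat_lit 10) (.e (nat_lit 344096) (nat_lit 18) (.e (nat_lit 7125) (nat_lit 382) .nil))))))) (.g (nat_lit 6) .nil .nil)))) (.nd (nat_lit 5) 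
(.lf (nat_lit 31900) (.g (nat_lit 3044) (.e (nat_lit 1201) (nat_lit 88) (.e (nat_lit 65610) (nat_lit 10) (.e (nat_lit 344176) (nat_lit 43) (.e (nat_lit 770071) (nat_lit 8) (.e (nat_lit 65610) (nat_lit 10) (.e (nat_lit 344090) (nat_lit 18) (.e (nat_lit 7124) (nat_lit 382) .nil))))))) (.g (nat_lit 5) .nil .nil))) 
(.lf (nat_lit 31932) (.g (nat_lit 1894) (.e (nat_lit 1201) (nat_lit 88) (.e (nat_lit 65610) (nat_lit 10) (.e (nat_lit 344177) (nat_lit 43) (.e (nat_lit 770058) (nat_lit 5) (.e (nat_lit 1586) (nat_lit 111) (.e (nat_lit 360449) (nat_lit 0) (.e (nat_lit 7125) (nat_lit 382) .nil))))))) (.g (nat_lit 4) .nil .nil))))))) (.nd (nat_lit 2) (.nd (nat_lit 3) (.nd (nat_lit 4) (.nd (nat_lit 5) 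
(.lf (nat_lit 31874) (.g (nat_lit 3457) (.e (nat_lit 1201) (nat_lit 88) (.e (nat_lit 65610) (nat_lit 10) (.e (nat_lit 344169) (nat_lit 40) (.e (nat_lit 671764) (nat_lit 6) (.e (nat_lit 81959) (nat_lit 24) (.e (nat_lit 123184) (nat_lit 264) .nil)))))) (.g (nat_lit 0) .nil .nil))) 
(.lf (nat_lit 31906) (.g (nat_lit 3318) (.e (nat_lit 1201) (nat_lit 88) (.e (nat_lit 65610) (nat_lit 10) (.e (nat_lit 344176) (nat_lit 43) (.e (nat_lit 770071) (nat_lit 8) (.e (nat_lit 65617) (nat_lit 10) (.e (nat_lit 344096) (nat_lit 18) (.e (nat_lit 7124) (nat_lit 382) .nil))))))) (.g (nat_lit 6) .nil .nil)))) (.nd (nat_lit 5) 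
(.lf (nat_lit 31890) (.g (nat_lit 2662) (.e (nat_lit 1201) (nat_lit 88) (.e (nat_lit 65610) (nat_lit 10) (.e (nat_lit 344174) (nat_lit 42) (.e (nat_lit 761867) (nat_lit 5) (.e (nat_lit 1454) (nat_lit 108) (.e (nat_lit 336176) (nat_lit 10) (.e (nat_lit 344096) (nat_lit 18) (.e (nat_lit 7124) (nat_lit 382) .nil)))))))) (.g (nat_lit 5) .nil .nil))) 
(.lf (nat_lit 31922) (.g (nat_lit 4351) (.e (nat_lit 1201) (nat_lit 88) (.e (nat_lit 65610) (nat_lit 10) (.e (nat_lit 344177) (nat_lit 43) (.e (nat_lit 770055) (nat_lit 5) (.e (nat_lit 1589) (nat_lit 111) (.e (nat_lit 360451) (nat_lit 0) (.e (nat_lit 7125) (nat_lit 382) .nil))))))) (.g (nat_lit 0) .nil .nil))))) (.nd (nat_lit 4) (.nd (nat_lit 5) 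
(.lf (nat_lit 31882) (.g (nat_lit 3171) (.e (nat_lit 1201) (nat_lit 88) (.e (nat_lit 65610) (nat_lit 10) (.e (nat_lit 344174) (nat_lit 42) (.e (nat_lit 761866) (nat_lit 5) (.e (nat_lit 1582) (nat_lit 111) (.e (nat_lit 360451) (nat_lit 0) (.e (nat_lit 7124) (nat_lit 382) .nil))))))) (.g (nat_lit 6) .nil .nil))) 
(.lf (nat_lit 31914) (.g (nat_lit 3628) (.e (nat_lit 1201) (nat_lit 88) (.e (nat_lit 65610) (nat_lit 10) (.e (nat_lit 344176) (nat_lit 43) (.e (nat_lit 770072) (nat_lit 8) (.e (nat_lit 65617) (nat_lit 10) (.e (nat_lit 344096) (nat_lit 18) (.e (nat_lit 7122) (nat_lit 382) .nil))))))) (.g (nat_lit 6) .nil .nil)))) (.nd (nat_lit 5) 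
(.lf (nat_lit 31898) (.g (nat_lit 1976) (.e (nat_lit 1201) (nat_lit 88) (.e (nat_lit 65610) (nat_lit 10) (.e (nat_lit 344175) (nat_lit 43) (.e (nat_lit 770072) (nat_lit 8) (.e (nat_lit 65617) (nat_lit 10) (.e (nat_lit 344096) (nat_lit 18) (.e (nat_lit 7125) (nat_lit 382) .nil))))))) (.g (nat_lit 4) .nil .nil))) 
(.lf (nat_lit 31930) (.g (nat_lit 3042) (.e (nat_lit 1201) (nat_lit 88) (.e (nat_lit 65610) (nat_lit 10) (.e (nat_lit 344177) (nat_lit 43) (.e (nat_lit 770057) (nat_lit 5) (.e (nat_lit 1595) (nat_lit 111) (.e (nat_lit 360449) (nat_lit 0) (.e (nat_lit 7124) (nat_lit 382) .nil))))))) (.g (nat_lit 6) .nil .nil)))))) (.nd (nat_lit 3) (.nd (nat_lit 4) (.nd (nat_lit 5) 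
(.lf (nat_lit 31878) (.g (nat_lit 2563) (.e (nat_lit 1201) (nat_lit 88) (.e (nat_lit 65610) (nat_lit 10) (.e (nat_lit 344174) (nat_lit 42) (.e (nat_lit 761866) (nat_lit 5) (.e (nat_lit 1454) (nat_lit 108) (.e (nat_lit 336176) (nat_lit 10) (.e (nat_lit 344095) (nat_lit 18) (.e (nat_lit 7122) (nat_lit 382) .nil)))))))) (.g (nat_lit 5) .nil .nil))) 
(.lf (nat_lit 31910) (.g (nat_lit 3301) (.e (nat_lit 1201) (nat_lit 88) (.e (nat_lit 65610) (nat_lit 10) (.e (nat_lit 344176) (nat_lit 43) (.e (nat_lit 770072) (nat_lit 8) (.e (nat_lit 65610) (nat_lit 10) (.e (nat_lit 344090) (nat_lit 18) (.e (nat_lit 7124) (nat_lit 382) .nil))))))) (.g (nat_lit 6) .nil .nil)))) (.nd (nat_lit 5) 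
(.lf (nat_lit 31894) (.g (nat_lit 2958) (.e (nat_lit 1201) (nat_lit 88) (.e (nat_lit 65610) (nat_lit 10) (.e (nat_lit 344174) (nat_lit 42) (.e (nat_lit 761868) (nat_lit 5) (.e (nat_lit 1597) (nat_lit 111) (.e (nat_lit 360449) (nat_lit 0) (.e (nat_lit 7124) (nat_lit 382) .nil))))))) (.g (nat_lit 6) .nil .nil))) 
(.lf (nat_lit 31926) (.g (nat_lit 2373) (.e (nat_lit 1201) (nat_lit 88) (.e (nat_lit 65610) (nat_lit 10) (.e (nat_lit 344177) (nat_lit 43) (.e (nat_lit 770057) (nat_lit 5) (.e (nat_lit 1586) (nat_lit 111) (.e (nat_lit 360450) (nat_lit 0) (.e (nat_lit 7124) (nat_lit 382) .nil))))))) (.g (nat_lit 5) .nil .nil))))) (.nd (nat_lit 4) (.nd (nat_lit 5) 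
(.lf (nat_lit 31886) (.g (nat_lit 2026) (.e (nat_lit 1201) (nat_lit 88) (.e (nat_lit 65610) (nat_lit 10) (.e (nat_lit 344174) (nat_lit 42) (.e (nat_lit 761866) (nat_lit 5) (.e (nat_lit 1597) (nat_lit 111) (.e (nat_lit 368384) (nat_lit 0) (.e (nat_lit 7124) (nat_lit 382) .nil))))))) (.g (nat_lit 4) .nil .nil))) 
(.lf (nat_lit 31918) (.g (nat_lit 2866) (.e (nat_lit 1201) (nat_lit 88) (.e (nat_lit 65610) (nat_lit 10) (.e (nat_lit 344176) (nat_lit 43) (.e (nat_lit 770072) (nat_lit 8) (.e (nat_lit 65619) (nat_lit 10) (.e (nat_lit 344090) (nat_lit 18) (.e (nat_lit 7124) (nat_lit 382) .nil))))))) (.g (nat_lit 5) .nil .nil)))) (.nd (nat_lit 5) 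
(.lf (nat_lit 31902) (.g (nat_lit 3032) (.e (nat_lit 1201) (nat_lit 88) (.e (nat_lit 65610) (nat_lit 10) (.e (nat_lit 344176) (nat_lit 43) (.e (nat_lit 770071) (nat_lit 8) (.e (nat_lit 65617) (nat_lit 10) (.e (nat_lit 344091) (nat_lit 18) (.e (nat_lit 7122) (nat_lit 382) .nil))))))) (.g (nat_lit 5) .nil .nil))) 
(.lf (nat_lit 31934) (.g (nat_lit 3974) (.e (nat_lit 1201) (nat_lit 88) (.e (nat_lit 65610) (nat_lit 10) (.e (nat_lit 344177) (nat_lit 43) (.e (nat_lit 770058) (nat_lit 5) (.e (nat_lit 1589) (nat_lit 111) (.e (nat_lit 360449) (nat_lit 0) (.e (nat_lit 7125) (nat_lit 382) .nil))))))) (.g (nat_lit 0) .nil .nil)))))))) 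
(.nd (nat_lit 1) (.nd (nat_lit 2) (.nd (nat_lit 3) (.nd (nat_lit 4) (.nd (nat_lit 5) 
(.lf (nat_lit 31873) (.g (nat_lit 3141) (.e (nat_lit 1201) (nat_lit 88) (.e (nat_lit 65610) (nat_lit 10) (.e (nat_lit 344169) (nat_lit 40) (.e (nat_lit 671764) (nat_lit 6) (.e (nat_lit 81959) (nat_lit 24) (.e (nat_lit 123183) (nat_lit 264) .nil)))))) (.g (nat_lit 6) .nil .nil))) 
(.lf (nat_lit 31905) (.g (nat_lit 2842) (.e (nat_lit 1201) (nat_lit 88) (.e (nat_lit 65610) (nat_lit 10) (.e (nat_lit 344176) (nat_lit 43) (.e (nat_lit 770071) (nat_lit 8) (.e (nat_lit 65617) (nat_lit 10) (.e (nat_lit 344095) (nat_lit 18) (.e (nat_lit 7122) (nat_lit 382) .nil))))))) (.g (nat_lit 5) .nil .nil)))) (.nd (nat_lit 5) 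
(.lf (nat_lit 31889) (.g (nat_lit 2326) (.e (nat_lit 1201) (nat_lit 88) (.e (nat_lit 65610) (nat_lit 10) (.e (nat_lit 344174) (nat_lit 42) (.e (nat_lit 761867) (nat_lit 5) (.e (nat_lit 1454) (nat_lit 108) (.e (nat_lit 336176) (nat_lit 10) (.e (nat_lit 344095) (nat_lit 18) (.e (nat_lit 7122) (nat_lit 382) .nil)))))))) (.g (nat_lit 5) .nil .nil))) 
(.lf (nat_lit 31921) (.g (nat_lit 3638) (.e (nat_lit 1201) (nat_lit 88) (.e (nat_lit 65610) (nat_lit 10) (.e (nat_lit 344177) (nat_lit 43) (.e (nat_lit 770055) (nat_lit 5) (.e (nat_lit 1589) (nat_lit 111) (.e (nat_lit 360451) (nat_lit 0) (.e (nat_lit 7124) (nat_lit 382) .nil))))))) (.g (nat_lit 7) .nil .nil))))) (.nd (nat_lit 4) (.nd (nat_lit 5) 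
(.lf (nat_lit 31881) (.g (nat_lit 1914) (.e (nat_lit 1201) (nat_lit 88) (.e (nat_lit 65610) (nat_lit 10) (.e (nat_lit 344174) (nat_lit 42) (.e (nat_lit 761866) (nat_lit 5) (.e (nat_lit 1582) (nat_lit 111) (.e (nat_lit 360449) (nat_lit 0) (.e (nat_lit 7125) (nat_lit 382) .nil))))))) (.g (nat_lit 4) .nil .nil))) 
(.lf (nat_lit 31913) (.g (nat_lit 3117) (.e (nat_lit 1201) (nat_lit 88) (.e (nat_lit 65610) (nat_lit 10) (.e (nat_lit 344176) (nat_lit 43) (.e (nat_lit 770072) (nat_lit 8) (.e (nat_lit 65617) (nat_lit 10) (.e (nat_lit 344095) (nat_lit 18) (.e (nat_lit 7122) (nat_lit 382) .nil))))))) (.g (nat_lit 5) .nil .nil)))) (.nd (nat_lit 5) 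
(.lf (nat_lit 31897) (.g (nat_lit 1877) (.e (nat_lit 1201) (nat_lit 88) (.e (nat_lit 65610) (nat_lit 10) (.e (nat_lit 344175) (nat_lit 43) (.e (nat_lit 770072) (nat_lit 8) (.e (nat_lit 65617) (nat_lit 10) (.e (nat_lit 344091) (nat_lit 18) (.e (nat_lit 7125) (nat_lit 382) .nil))))))) (.g (nat_lit 4) .nil .nil))) 
(.lf (nat_lit 31929) (.g (nat_lit 3677) (.e (nat_lit 1201) (nat_lit 88) (.e (nat_lit 65610) (nat_lit 10) (.e (nat_lit 344177) (nat_lit 43) (.e (nat_lit 770057) (nat_lit 5) (.e (nat_lit 1589) (nat_lit 111) (.e (nat_lit 360451) (nat_lit 0) (.e (nat_lit 7124) (nat_lit 382) .nil))))))) (.g (nat_lit 7) .nil .nil)))))) (.nd (nat_lit 3) (.nd (nat_lit 4) (.nd (nat_lit 5) 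
(.lf (nat_lit 31877) (.g (nat_lit 2856) (.e (nat_lit 1201) (nat_lit 88) (.e (nat_lit 65610) (nat_lit 10) (.e (nat_lit 344174) (nat_lit 42) (.e (nat_lit 761866) (nat_lit 5) (.e (nat_lit 1454) (nat_lit 108) (.e (nat_lit 336176) (nat_lit 10) (.e (nat_lit 344091) (nat_lit 18) (.e (nat_lit 7125) (nat_lit 382) .nil)))))))) (.g (nat_lit 6) .nil .nil))) 
(.lf (nat_lit 31909) (.g (nat_lit 2795) (.e (nat_lit 1201) (nat_lit 88) (.e (nat_lit 65610) (nat_lit 10) (.e (nat_lit 344176) (nat_lit 43) (.e (nat_lit 770072) (nat_lit 8) (.e (nat_lit 65610) (nat_lit 10) (.e (nat_lit 344090) (nat_lit 18) (.e (nat_lit 7122) (nat_lit 382) .nil))))))) (.g (nat_lit 5) .nil .nil)))) (.nd (nat_lit 5) 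
(.lf (nat_lit 31893) (.g (nat_lit 2897) (.e (nat_lit 1201) (nat_lit 88) (.e (nat_lit 65610) (nat_lit 10) (.e (nat_lit 344174) (nat_lit 42) (.e (nat_lit 761867) (nat_lit 5) (.e (nat_lit 1597) (nat_lit 111) (.e (nat_lit 360449) (nat_lit 0) (.e (nat_lit 7124) (nat_lit 382) .nil))))))) (.g (nat_lit 6) .nil .nil))) 
(.lf (nat_lit 31925) (.g (nat_lit 3409) (.e (nat_lit 1201) (nat_lit 88) (.e (nat_lit 65610) (nat_lit 10) (.e (nat_lit 344177) (nat_lit 43) (.e (nat_lit 770055) (nat_lit 5) (.e (nat_lit 1598) (nat_lit 111) (.e (nat_lit 360449) (nat_lit 0) (.e (nat_lit 7125) (nat_lit 382) .nil))))))) (.g (nat_lit 0) .nil .nil))))) (.nd (nat_lit 4) (.nd (nat_lit 5) 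
(.lf (nat_lit 31885) (.g (nat_lit 3158) (.e (nat_lit 1201) (nat_lit 88) (.e (nat_lit 65610) (nat_lit 10) (.e (nat_lit 344174) (nat_lit 42) (.e (nat_lit 761866) (nat_lit 5) (.e (nat_lit 1597) (nat_lit 111) (.e (nat_lit 360449) (nat_lit 0) (.e (nat_lit 7124) (nat_lit 382) .nil))))))) (.g (nat_lit 6) .nil .nil))) 
(.lf (nat_lit 31917) (.g (nat_lit 2260) (.e (nat_lit 1201) (nat_lit 88) (.e (nat_lit 65610) (nat_lit 10) (.e (nat_lit 344176) (nat_lit 43) (.e (nat_lit 770072) (nat_lit 8) (.e (nat_lit 65619) (nat_lit 10) (.e (nat_lit 344090) (nat_lit 18) (.e (nat_lit 7122) (nat_lit 382) .nil))))))) (.g (nat_lit 4) .nil .nil)))) (.nd (nat_lit 5) 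
(.lf (nat_lit 31901) (.g (nat_lit 3358) (.e (nat_lit 1201) (nat_lit 88) (.e (nat_lit 65610) (nat_lit 10) (.e (nat_lit 344176) (nat_lit 43) (.e (nat_lit 770071) (nat_lit 8) (.e (nat_lit 65610) (nat_lit 10) (.e (nat_lit 344090) (nat_lit 18) (.e (nat_lit 7125) (nat_lit 382) .nil))))))) (.g (nat_lit 6) .nil .nil))) 
(.lf (nat_lit 31933) (.g (nat_lit 3693) (.e (nat_lit 1201) (nat_lit 88) (.e (nat_lit 65610) (nat_lit 10) (.e (nat_lit 344177) (nat_lit 43) (.e (nat_lit 770058) (nat_lit 5) (.e (nat_lit 1589) (nat_lit 111) (.e (nat_lit 360449) (nat_lit 0) (.e (nat_lit 7122) (nat_lit 382) .nil))))))) (.g (nat_lit 7) .nil .nil))))))) (.nd (nat_lit 2) (.nd (nat_lit 3) (.nd (nat_lit 4) (.nd (nat_lit 5) 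
(.lf (nat_lit 31875) (.g (nat_lit 935) (.e (nat_lit 1201) (nat_lit 88) (.e (nat_lit 65610) (nat_lit 10) (.e (nat_lit 344169) (nat_lit 40) (.e (nat_lit 679680) (nat_lit 6) .nil)))) .nil)) 
(.lf (nat_lit 31907) (.g (nat_lit 3607) (.e (nat_lit 1201) (nat_lit 88) (.e (nat_lit 65610) (nat_lit 10) (.e (nat_lit 344176) (nat_lit 43) (.e (nat_lit 770071) (nat_lit 8) (.e (nat_lit 65617) (nat_lit 10) (.e (nat_lit 344096) (nat_lit 18) (.e (nat_lit 7125) (nat_lit 382) .nil))))))) (.g (nat_lit 6) .nil .nil)))) (.nd (nat_lit 5) 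
(.lf (nat_lit 31891) (.g (nat_lit 1824) (.e (nat_lit 1201) (nat_lit 88) (.e (nat_lit 65610) (nat_lit 10) (.e (nat_lit 344174) (nat_lit 42) (.e (nat_lit 761867) (nat_lit 5) (.e (nat_lit 1582) (nat_lit 111) (.e (nat_lit 360451) (nat_lit 0) (.e (nat_lit 7125) (nat_lit 382) .nil))))))) (.g (nat_lit 4) .nil .nil))) 
(.lf (nat_lit 31923) (.g (nat_lit 2240) (.e (nat_lit 1201) (nat_lit 88) (.e (nat_lit 65610) (nat_lit 10) (.e (nat_lit 344177) (nat_lit 43) (.e (nat_lit 770055) (nat_lit 5) (.e (nat_lit 1595) (nat_lit 111) (.e (nat_lit 360449) (nat_lit 0) (.e (nat_lit 7122) (nat_lit 382) .nil))))))) (.g (nat_lit 5) .nil .nil))))) (.nd (nat_lit 4) (.nd (nat_lit 5) 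
(.lf (nat_lit 31883) (.g (nat_lit 1939) (.e (nat_lit 1201) (nat_lit 88) (.e (nat_lit 65610) (nat_lit 10) (.e (nat_lit 344174) (nat_lit 42) (.e (nat_lit 761866) (nat_lit 5) (.e (nat_lit 1591) (nat_lit 111) (.e (nat_lit 360449) (nat_lit 0) (.e (nat_lit 7125) (nat_lit 382) .nil))))))) (.g (nat_lit 4) .nil .nil))) 
(.lf (nat_lit 31915) (.g (nat_lit 3581) (.e (nat_lit 1201) (nat_lit 88) (.e (nat_lit 65610) (nat_lit 10) (.e (nat_lit 344176) (nat_lit 43) (.e (nat_lit 770072) (nat_lit 8) (.e (nat_lit 65617) (nat_lit 10) (.e (nat_lit 344096) (nat_lit 18) (.e (nat_lit 7124) (nat_lit 382) .nil))))))) (.g (nat_lit 6) .nil .nil)))) (.nd (nat_lit 5) 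
(.lf (nat_lit 31899) (.g (nat_lit 432) (.e (nat_lit 1201) (nat_lit 88) (.e (nat_lit 65610) (nat_lit 10) (.e (nat_lit 344176) (nat_lit 43) .nil))) .nil)) 
(.lf (nat_lit 31931) (.g (nat_lit 2149) (.e (nat_lit 1201) (nat_lit 88) (.e (nat_lit 65610) (nat_lit 10) (.e (nat_lit 344177) (nat_lit 43) (.e (nat_lit 770057) (nat_lit 5) (.e (nat_lit 1599) (nat_lit 111) (.e (nat_lit 360449) (nat_lit 0) (.e (nat_lit 7125) (nat_lit 382) .nil))))))) (.g (nat_lit 4) .nil .nil)))))) (.nd (nat_lit 3) (.nd (nat_lit 4) (.nd (nat_lit 5) 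
(.lf (nat_lit 31879) (.g (nat_lit 2899) (.e (nat_lit 1201) (nat_lit 88) (.e (nat_lit 65610) (nat_lit 10) (.e (nat_lit 344174) (nat_lit 42) (.e (nat_lit 761866) (nat_lit 5) (.e (nat_lit 1454) (nat_lit 108) (.e (nat_lit 336176) (nat_lit 10) (.e (nat_lit 344096) (nat_lit 18) (.e (nat_lit 7124) (nat_lit 382) .nil)))))))) (.g (nat_lit 5) .nil .nil))) 
(.lf (nat_lit 31911) (.g (nat_lit 3415) (.e (nat_lit 1201) (nat_lit 88) (.e (nat_lit 65610) (nat_lit 10) (.e (nat_lit 344176) (nat_lit 43) (.e (nat_lit 770072) (nat_lit 8) (.e (nat_lit 65617) (nat_lit 10) (.e (nat_lit 344091) (nat_lit 18) (.e (nat_lit 7124) (nat_lit 382) .nil))))))) (.g (nat_lit 6) .nil .nil)))) (.nd (nat_lit 5) 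
(.lf (nat_lit 31895) (.g (nat_lit 1918) (.e (nat_lit 1201) (nat_lit 88) (.e (nat_lit 65610) (nat_lit 10) (.e (nat_lit 344174) (nat_lit 42) (.e (nat_lit 761869) (nat_lit 5) (.e (nat_lit 1591) (nat_lit 111) (.e (nat_lit 360449) (nat_lit 0) (.e (nat_lit 7125) (nat_lit 382) .nil))))))) (.g (nat_lit 4) .nil .nil))) 
(.lf (nat_lit 31927) (.g (nat_lit 3587) (.e (nat_lit 1201) (nat_lit 88) (.e (nat_lit 65610) (nat_lit 10) (.e (nat_lit 344177) (nat_lit 43) (.e (nat_lit 770057) (nat_lit 5) (.e (nat_lit 1589) (nat_lit 111) (.e (nat_lit 360449) (nat_lit 0) (.e (nat_lit 7122) (nat_lit 382) .nil))))))) (.g (nat_lit 7) .nil .nil))))) (.nd (nat_lit 4) (.nd (nat_lit 5) 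
(.lf (nat_lit 31887) (.g (nat_lit 1786) (.e (nat_lit 1201) (nat_lit 88) (.e (nat_lit 65610) (nat_lit 10) (.e (nat_lit 344174) (nat_lit 42) (.e (nat_lit 761866) (nat_lit 5) (.e (nat_lit 1597) (nat_lit 111) (.e (nat_lit 368384) (nat_lit 0) (.e (nat_lit 7125) (nat_lit 382) .nil))))))) (.g (nat_lit 4) .nil .nil))) 
(.lf (nat_lit 31919) (.g (nat_lit 3465) (.e (nat_lit 1201) (nat_lit 88) (.e (nat_lit 65610) (nat_lit 10) (.e (nat_lit 344176) (nat_lit 43) (.e (nat_lit 770072) (nat_lit 8) (.e (nat_lit 65619) (nat_lit 10) (.e (nat_lit 344090) (nat_lit 18) (.e (nat_lit 7125) (nat_lit 382) .nil))))))) (.g (nat_lit 6) .nil .nil)))) (.nd (nat_lit 5) 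
(.lf (nat_lit 31903) (.g (nat_lit 3190) (.e (nat_lit 1201) (nat_lit 88) (.e (nat_lit 65610) (nat_lit 10) (.e (nat_lit 344176) (nat_lit 43) (.e (nat_lit 770071) (nat_lit 8) (.e (nat_lit 65617) (nat_lit 10) (.e (nat_lit 344091) (nat_lit 18) (.e (nat_lit 7124) (nat_lit 382) .nil))))))) (.g (nat_lit 5) .nil .nil))) 
(.lf (nat_lit 31935) (.g (nat_lit 3704) (.e (nat_lit 1201) (nat_lit 88) (.e (nat_lit 65610) (nat_lit 10) (.e (nat_lit 344177) (nat_lit 43) (.e (nat_lit 770058) (nat_lit 5) (.e (nat_lit 1589) (nat_lit 111) (.e (nat_lit 360451) (nat_lit 0) (.e (nat_lit 7124) (nat_lit 382) .nil))))))) (.g (nat_lit 7) .nil .nil)))))))))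

noncomputable def tv447 : DT := (.nd (nat_lit 0) (.nd (nat_lit 1) (.nd (nat_lit 2) (.nd (nat_lit 3) (.nd (nat_lit 4) 
(.lf (nat_lit 31936) (.g (nat_lit 3367) (.e (nat_lit 1201) (nat_lit 88) (.e (nat_lit 65610) (nat_lit 10) (.e (nat_lit 344177) (nat_lit 43) (.e (nat_lit 770058) (nat_lit 5) (.e (nat_lit 1595) (nat_lit 111) (.e (nat_lit 360449) (nat_lit 0) (.e (nat_lit 7122) (nat_lit 382) .nil))))))) (.g (nat_lit 6) .nil .nil))) 
(.lf (nat_lit 31952) (.g (nat_lit 2685) (.e (nat_lit 1201) (nat_lit 88) (.e (nat_lit 65610) (nat_lit 10) (.e (nat_lit 344177) (nat_lit 43) (.e (nat_lit 770072) (nat_lit 8) (.e (nat_lit 65617) (nat_lit 10) (.e (nat_lit 344095) (nat_lit 18) (.e (nat_lit 7125) (nat_lit 382) .nil))))))) (.g (nat_lit 5) .nil .nil)))) (.nd (nat_lit 4) 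
(.lf (nat_lit 31944) (.g (nat_lit 2560) (.e (nat_lit 1201) (nat_lit 88) (.e (nat_lit 65610) (nat_lit 10) (.e (nat_lit 344177) (nat_lit 43) (.e (nat_lit 770071) (nat_lit 8) (.e (nat_lit 65617) (nat_lit 10) (.e (nat_lit 344095) (nat_lit 18) (.e (nat_lit 7125) (nat_lit 382) .nil))))))) (.g (nat_lit 5) .nil .nil))) 
(.lf (nat_lit 31960) (.g (nat_lit 2044) (.e (nat_lit 1201) (nat_lit 88) (.e (nat_lit 65611) (nat_lit 10) (.e (nat_lit 344177) (nat_lit 43) (.e (nat_lit 770071) (nat_lit 8) (.e (nat_lit 65617) (nat_lit 10) (.e (nat_lit 344091) (nat_lit 18) (.e (nat_lit 7124) (nat_lit 382) .nil))))))) (.g (nat_lit 4) .nil .nil))))) (.nd (nat_lit 3) (.nd (nat_lit 4) 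
(.lf (nat_lit 31940) (.g (nat_lit 2151) (.e (nat_lit 1201) (nat_lit 88) (.e (nat_lit 65610) (nat_lit 10) (.e (nat_lit 344177) (nat_lit 43) (.e (nat_lit 770064) (nat_lit 5) (.e (nat_lit 1582) (nat_lit 111) (.e (nat_lit 360451) (nat_lit 0) (.e (nat_lit 7125) (nat_lit 382) .nil))))))) (.g (nat_lit 4) .nil .nil))) 
(.lf (nat_lit 31956) (.g (nat_lit 698) (.e (nat_lit 1201) (nat_lit 88) (.e (nat_lit 65611) (nat_lit 10) (.e (nat_lit 344169) (nat_lit 40) (.e (nat_lit 671764) (nat_lit 6) .nil)))) .nil))) (.nd (nat_lit 4) 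
(.lf (nat_lit 31948) (.g (nat_lit 2089) (.e (nat_lit 1201) (nat_lit 88) (.e (nat_lit 65610) (nat_lit 10) (.e (nat_lit 344177) (nat_lit 43) (.e (nat_lit 770072) (nat_lit 8) (.e (nat_lit 65616) (nat_lit 10) (.e (nat_lit 344096) (nat_lit 18) (.e (nat_lit 7125) (nat_lit 382) .nil))))))) (.g (nat_lit 4) .nil .nil))) 
(.lf (nat_lit 31964) (.g (nat_lit 2465) (.e (nat_lit 1201) (nat_lit 88) (.e (nat_lit 65611) (nat_lit 10) (.e (nat_lit 344177) (nat_lit 43) (.e (nat_lit 770072) (nat_lit 8) (.e (nat_lit 65617) (nat_lit 10) (.e (nat_lit 344091) (nat_lit 18) (.e (nat_lit 7125) (nat_lit 382) .nil))))))) (.g (nat_lit 5) .nil .nil)))))) (.nd (nat_lit 2) (.nd (nat_lit 3) (.nd (nat_lit 4) 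
(.lf (nat_lit 31938) (.g (nat_lit 2047) (.e (nat_lit 1201) (nat_lit 88) (.e (nat_lit 65610) (nat_lit 10) (.e (nat_lit 344177) (nat_lit 43) (.e (nat_lit 770058) (nat_lit 5) (.e (nat_lit 1599) (nat_lit 111) (.e (nat_lit 360449) (nat_lit 0) (.e (nat_lit 7125) (nat_lit 382) .nil))))))) (.g (nat_lit 4) .nil .nil))) 
(.lf (nat_lit 31954) (.g (nat_lit 3849) (.e (nat_lit 1201) (nat_lit 88) (.e (nat_lit 65610) (nat_lit 10) (.e (nat_lit 344177) (nat_lit 43) (.e (nat_lit 770072) (nat_lit 8) (.e (nat_lit 65619) (nat_lit 10) (.e (nat_lit 344090) (nat_lit 18) (.e (nat_lit 7124) (nat_lit 382) .nil))))))) (.g (nat_lit 7) .nil .nil)))) (.nd (nat_lit 4) 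
(.lf (nat_lit 31946) (.g (nat_lit 4424) (.e (nat_lit 1201) (nat_lit 88) (.e (nat_lit 65610) (nat_lit 10) (.e (nat_lit 344177) (nat_lit 43) (.e (nat_lit 770071) (nat_lit 8) (.e (nat_lit 65617) (nat_lit 10) (.e (nat_lit 344096) (nat_lit 18) (.e (nat_lit 7125) (nat_lit 382) .nil))))))) (.g (nat_lit 0) .nil .nil))) 
(.lf (nat_lit 31962) (.g (nat_lit 2139) (.e (nat_lit 1201) (nat_lit 88) (.e (nat_lit 65611) (nat_lit 10) (.e (nat_lit 344177) (nat_lit 43) (.e (nat_lit 770072) (nat_lit 8) (.e (nat_lit 65610) (nat_lit 10) (.e (nat_lit 344090) (nat_lit 18) (.e (nat_lit 7124) (nat_lit 382) .nil))))))) (.g (nat_lit 4) .nil .nil))))) (.nd (nat_lit 3) (.nd (nat_lit 4) 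
(.lf (nat_lit 31942) (.g (nat_lit 3997) (.e (nat_lit 1201) (nat_lit 88) (.e (nat_lit 65610) (nat_lit 10) (.e (nat_lit 344177) (nat_lit 43) (.e (nat_lit 770071) (nat_lit 8) (.e (nat_lit 65617) (nat_lit 10) (.e (nat_lit 344091) (nat_lit 18) (.e (nat_lit 7124) (nat_lit 382) .nil))))))) (.g (nat_lit 0) .nil .nil))) 
(.lf (nat_lit 31958) (.g (nat_lit 1880) (.e (nat_lit 1201) (nat_lit 88) (.e (nat_lit 65611) (nat_lit 10) (.e (nat_lit 344177) (nat_lit 43) (.e (nat_lit 770071) (nat_lit 8) (.e (nat_lit 65610) (nat_lit 10) (.e (nat_lit 344090) (nat_lit 18) (.e (nat_lit 7124) (nat_lit 382) .nil))))))) (.g (nat_lit 4) .nil .nil)))) (.nd (nat_lit 4) 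
(.lf (nat_lit 31950) (.g (nat_lit 4104) (.e (nat_lit 1201) (nat_lit 88) (.e (nat_lit 65610) (nat_lit 10) (.e (nat_lit 344177) (nat_lit 43) (.e (nat_lit 770072) (nat_lit 8) (.e (nat_lit 65617) (nat_lit 10) (.e (nat_lit 344091) (nat_lit 18) (.e (nat_lit 7124) (nat_lit 382) .nil))))))) (.g (nat_lit 0) .nil .nil))) 
(.lf (nat_lit 31966) (.g (nat_lit 1822) (.e (nat_lit 1201) (nat_lit 88) (.e (nat_lit 65611) (nat_lit 10) (.e (nat_lit 344177) (nat_lit 43) (.e (nat_lit 770072) (nat_lit 8) (.e (nat_lit 65619) (nat_lit 10) (.e (nat_lit 344090) (nat_lit 18) (.e (nat_lit 7124) (nat_lit 382) .nil))))))) (.g (nat_lit 4) .nil .nil))))))) (.nd (nat_lit 1) (.nd (nat_lit 2) (.nd (nat_lit 3) (.nd (nat_lit 4) 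
(.lf (nat_lit 31937) (.g (nat_lit 3132) (.e (nat_lit 1201) (nat_lit 88) (.e (nat_lit 65610) (nat_lit 10) (.e (nat_lit 344177) (nat_lit 43) (.e (nat_lit 770058) (nat_lit 5) (.e (nat_lit 1595) (nat_lit 111) (.e (nat_lit 360449) (nat_lit 0) (.e (nat_lit 7124) (nat_lit 382) .nil))))))) (.g (nat_lit 6) .nil .nil))) 
(.lf (nat_lit 31953) (.g (nat_lit 4482) (.e (nat_lit 1201) (nat_lit 88) (.e (nat_lit 65610) (nat_lit 10) (.e (nat_lit 344177) (nat_lit 43) (.e (nat_lit 770072) (nat_lit 8) (.e (nat_lit 65617) (nat_lit 10) (.e (nat_lit 344096) (nat_lit 18) (.e (nat_lit 7122) (nat_lit 382) .nil))))))) (.g (nat_lit 7) .nil .nil)))) (.nd (nat_lit 4) 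
(.lf (nat_lit 31945) (.g (nat_lit 4495) (.e (nat_lit 1201) (nat_lit 88) (.e (nat_lit 65610) (nat_lit 10) (.e (nat_lit 344177) (nat_lit 43) (.e (nat_lit 770071) (nat_lit 8) (.e (nat_lit 65617) (nat_lit 10) (.e (nat_lit 344096) (nat_lit 18) (.e (nat_lit 7122) (nat_lit 382) .nil))))))) (.g (nat_lit 7) .nil .nil))) 
(.lf (nat_lit 31961) (.g (nat_lit 2214) (.e (nat_lit 1201) (nat_lit 88) (.e (nat_lit 65611) (nat_lit 10) (.e (nat_lit 344177) (nat_lit 43) (.e (nat_lit 770071) (nat_lit 8) (.e (nat_lit 65617) (nat_lit 10) (.e (nat_lit 344096) (nat_lit 18) (.e (nat_lit 7124) (nat_lit 382) .nil))))))) (.g (nat_lit 4) .nil .nil))))) (.nd (nat_lit 3) (.nd (nat_lit 4) 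
(.lf (nat_lit 31941) (.g (nat_lit 4010) (.e (nat_lit 1201) (nat_lit 88) (.e (nat_lit 65610) (nat_lit 10) (.e (nat_lit 344177) (nat_lit 43) (.e (nat_lit 770071) (nat_lit 8) (.e (nat_lit 65617) (nat_lit 10) (.e (nat_lit 344091) (nat_lit 18) (.e (nat_lit 7122) (nat_lit 382) .nil))))))) (.g (nat_lit 7) .nil .nil))) 
(.lf (nat_lit 31957) (.g (nat_lit 1831) (.e (nat_lit 1201) (nat_lit 88) (.e (nat_lit 65611) (nat_lit 10) (.e (nat_lit 344177) (nat_lit 43) (.e (nat_lit 770058) (nat_lit 5) (.e (nat_lit 1586) (nat_lit 111) (.e (nat_lit 360451) (nat_lit 0) (.e (nat_lit 7124) (nat_lit 382) .nil))))))) (.g (nat_lit 4) .nil .nil)))) (.nd (nat_lit 4) 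
(.lf (nat_lit 31949) (.g (nat_lit 4126) (.e (nat_lit 1201) (nat_lit 88) (.e (nat_lit 65610) (nat_lit 10) (.e (nat_lit 344177) (nat_lit 43) (.e (nat_lit 770072) (nat_lit 8) (.e (nat_lit 65617) (nat_lit 10) (.e (nat_lit 344091) (nat_lit 18) (.e (nat_lit 7122) (nat_lit 382) .nil))))))) (.g (nat_lit 7) .nil .nil))) 
(.lf (nat_lit 31965) (.g (nat_lit 2319) (.e (nat_lit 1201) (nat_lit 88) (.e (nat_lit 65611) (nat_lit 10) (.e (nat_lit 344177) (nat_lit 43) (.e (nat_lit 770072) (nat_lit 8) (.e (nat_lit 65617) (nat_lit 10) (.e (nat_lit 344096) (nat_lit 18) (.e (nat_lit 7124) (nat_lit 382) .nil))))))) (.g (nat_lit 4) .nil .nil)))))) (.nd (nat_lit 2) (.nd (nat_lit 3) (.nd (nat_lit 4) 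
(.lf (nat_lit 31939) (.g (nat_lit 1294) (.e (nat_lit 1201) (nat_lit 88) (.e (nat_lit 65610) (nat_lit 10) (.e (nat_lit 344177) (nat_lit 43) (.e (nat_lit 770064) (nat_lit 5) .nil)))) .nil)) 
(.lf (nat_lit 31955) (.g (nat_lit 4427) (.e (nat_lit 1201) (nat_lit 88) (.e (nat_lit 65610) (nat_lit 10) (.e (nat_lit 344177) (nat_lit 43) (.e (nat_lit 770072) (nat_lit 8) (.e (nat_lit 65619) (nat_lit 10) (.e (nat_lit 344090) (nat_lit 18) (.e (nat_lit 7125) (nat_lit 382) .nil))))))) (.g (nat_lit 0) .nil .nil)))) (.nd (nat_lit 4) 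
(.lf (nat_lit 31947) (.g (nat_lit 3022) (.e (nat_lit 1201) (nat_lit 88) (.e (nat_lit 65610) (nat_lit 10) (.e (nat_lit 344177) (nat_lit 43) (.e (nat_lit 770071) (nat_lit 8) (.e (nat_lit 65619) (nat_lit 10) (.e (nat_lit 344090) (nat_lit 18) (.e (nat_lit 7124) (nat_lit 382) .nil))))))) (.g (nat_lit 6) .nil .nil))) 
(.lf (nat_lit 31963) (.g (nat_lit 2148) (.e (nat_lit 1201) (nat_lit 88) (.e (nat_lit 65611) (nat_lit 10) (.e (nat_lit 344177) (nat_lit 43) (.e (nat_lit 770072) (nat_lit 8) (.e (nat_lit 65617) (nat_lit 10) (.e (nat_lit 344091) (nat_lit 18) (.e (nat_lit 7124) (nat_lit 382) .nil))))))) (.g (nat_lit 4) .nil .nil))))) (.nd (nat_lit 3) (.nd (nat_lit 4) 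
(.lf (nat_lit 31943) (.g (nat_lit 4302) (.e (nat_lit 1201) (nat_lit 88) (.e (nat_lit 65610) (nat_lit 10) (.e (nat_lit 344177) (nat_lit 43) (.e (nat_lit 770071) (nat_lit 8) (.e (nat_lit 65617) (nat_lit 10) (.e (nat_lit 344091) (nat_lit 18) (.e (nat_lit 7125) (nat_lit 382) .nil))))))) (.g (nat_lit 0) .nil .nil))) 
(.lf (nat_lit 31959) (.g (nat_lit 2154) (.e (nat_lit 1201) (nat_lit 88) (.e (nat_lit 65611) (nat_lit 10) (.e (nat_lit 344177) (nat_lit 43) (.e (nat_lit 770071) (nat_lit 8) (.e (nat_lit 65610) (nat_lit 10) (.e (nat_lit 344090) (nat_lit 18) (.e (nat_lit 7125) (nat_lit 382) .nil))))))) (.g (nat_lit 4) .nil .nil)))) (.nd (nat_lit 4) 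
(.lf (nat_lit 31951) (.g (nat_lit 4409) (.e (nat_lit 1201) (nat_lit 88) (.e (nat_lit 65610) (nat_lit 10) (.e (nat_lit 344177) (nat_lit 43) (.e (nat_lit 770072) (nat_lit 8) (.e (nat_lit 65617) (nat_lit 10) (.e (nat_lit 344091) (nat_lit 18) (.e (nat_lit 7125) (nat_lit 382) .nil))))))) (.g (nat_lit 0) .nil .nil))) 
(.lf (nat_lit 31967) (.g (nat_lit 2381) (.e (nat_lit 1201) (nat_lit 88) (.e (nat_lit 65611) (nat_lit 10) (.e (nat_lit 344177) (nat_lit 43) (.e (nat_lit 770072) (nat_lit 8) (.e (nat_lit 65619) (nat_lit 10) (.e (nat_lit 344090) (nat_lit 18) (.e (nat_lit 7125) (nat_lit 382) .nil))))))) (.g (nat_lit 4) .nil .nil))))))))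

noncomputable def tv448 : DT := (.nd (nat_lit 0) (.nd (nat_lit 1) (.nd (nat_lit 2) (.nd (nat_lit 3) (.nd (nat_lit 4) 
(.lf (nat_lit 31968) (.g (nat_lit 486) (.e (nat_lit 1201) (nat_lit 88) (.e (nat_lit 65617) (nat_lit 10) (.e (nat_lit 344087) (nat_lit 18) .nil))) .nil)) 
(.lf (nat_lit 31984) (.g (nat_lit 3165) (.e (nat_lit 1201) (nat_lit 88) (.e (nat_lit 65617) (nat_lit 10) (.e (nat_lit 344091) (nat_lit 18) (.e (nat_lit 7125) (nat_lit 382) (.e (nat_lit 1201) (nat_lit 88) (.e (nat_lit 65617) (nat_lit 10) (.e (nat_lit 344095) (nat_lit 18) (.e (nat_lit 7125) (nat_lit 382) .nil)))))))) (.g (nat_lit 6) .nil .nil)))) (.nd (nat_lit 4) 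
(.lf (nat_lit 31976) (.g (nat_lit 4351) (.e (nat_lit 1201) (nat_lit 88) (.e (nat_lit 65617) (nat_lit 10) (.e (nat_lit 344091) (nat_lit 18) (.e (nat_lit 7122) (nat_lit 382) (.e (nat_lit 1201) (nat_lit 88) (.e (nat_lit 65617) (nat_lit 10) (.e (nat_lit 344091) (nat_lit 18) (.e (nat_lit 7125) (nat_lit 382) .nil)))))))) (.g (nat_lit 8) .nil .nil))) 
(.lf (nat_lit 31992) (.g (nat_lit 2670) (.e (nat_lit 1201) (nat_lit 88) (.e (nat_lit 65617) (nat_lit 10) (.e (nat_lit 344091) (nat_lit 18) (.e (nat_lit 7261) (nat_lit 384) (.e (nat_lit 57428) (nat_lit 15) (.e (nat_lit 360449) (nat_lit 0) (.e (nat_lit 7125) (nat_lit 382) .nil))))))) (.g (nat_lit 5) .nil .nil))))) (.nd (nat_lit 3) (.nd (nat_lit 4) 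
(.lf (nat_lit 31972) (.g (nat_lit 2105) (.e (nat_lit 1201) (nat_lit 88) (.e (nat_lit 65617) (nat_lit 10) (.e (nat_lit 344090) (nat_lit 18) (.e (nat_lit 7125) (nat_lit 382) (.e (nat_lit 1201) (nat_lit 88) (.e (nat_lit 65617) (nat_lit 10) (.e (nat_lit 344096) (nat_lit 18) (.e (nat_lit 7125) (nat_lit 382) .nil)))))))) (.g (nat_lit 4) .nil .nil))) 
(.lf (nat_lit 31988) (.g (nat_lit 3533) (.e (nat_lit 1201) (nat_lit 88) (.e (nat_lit 65617) (nat_lit 10) (.e (nat_lit 344091) (nat_lit 18) (.e (nat_lit 7261) (nat_lit 384) (.e (nat_lit 57427) (nat_lit 15) (.e (nat_lit 360450) (nat_lit 0) (.e (nat_lit 7124) (nat_lit 382) .nil))))))) (.g (nat_lit 6) .nil .nil)))) (.nd (nat_lit 4) 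
(.lf (nat_lit 31980) (.g (nat_lit 4279) (.e (nat_lit 1201) (nat_lit 88) (.e (nat_lit 65617) (nat_lit 10) (.e (nat_lit 344091) (nat_lit 18) (.e (nat_lit 7122) (nat_lit 382) (.e (nat_lit 1201) (nat_lit 88) (.e (nat_lit 65617) (nat_lit 10) (.e (nat_lit 344096) (nat_lit 18) (.e (nat_lit 7124) (nat_lit 382) .nil)))))))) (.g (nat_lit 7) .nil .nil))) 
(.lf (nat_lit 31996) (.g (nat_lit 4196) (.e (nat_lit 1201) (nat_lit 88) (.e (nat_lit 65617) (nat_lit 10) (.e (nat_lit 344091) (nat_lit 18) (.e (nat_lit 7265) (nat_lit 384) (.e (nat_lit 57412) (nat_lit 12) (.e (nat_lit 336176) (nat_lit 10) (.e (nat_lit 344096) (nat_lit 18) (.e (nat_lit 7122) (nat_lit 382) .nil)))))))) (.g (nat_lit 8) .nil .nil)))))) 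
(.nd (nat_lit 2) (.nd (nat_lit 3) (.nd (nat_lit 4) 
(.lf (nat_lit 31970) (.g (nat_lit 2176) (.e (nat_lit 1201) (nat_lit 88) (.e (nat_lit 65617) (nat_lit 10) (.e (nat_lit 344087) (nat_lit 18) (.e (nat_lit 7270) (nat_lit 385) (.e (nat_lit 122917) (nat_lit 15) (.e (nat_lit 360449) (nat_lit 0) (.e (nat_lit 7125) (nat_lit 382) .nil))))))) (.g (nat_lit 4) .nil .nil))) 
(.lf (nat_lit 31986) (.g (nat_lit 2587) (.e (nat_lit 1201) (nat_lit 88) (.e (nat_lit 65617) (nat_lit 10) (.e (nat_lit 344091) (nat_lit 18) (.e (nat_lit 7261) (nat_lit 384) (.e (nat_lit 57427) (nat_lit 15) (.e (nat_lit 360449) (nat_lit 0) (.e (nat_lit 7122) (nat_lit 382) .nil))))))) (.g (nat_lit 5) .nil .nil)))) (.nd (nat_lit 4) 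
(.lf (nat_lit 31978) (.g (nat_lit 2912) (.e (nat_lit 1201) (nat_lit 88) (.e (nat_lit 65617) (nat_lit 10) (.e (nat_lit 344091) (nat_lit 18) (.e (nat_lit 7122) (nat_lit 382) (.e (nat_lit 1201) (nat_lit 88) (.e (nat_lit 65617) (nat_lit 10) (.e (nat_lit 344095) (nat_lit 18) (.e (nat_lit 7125) (nat_lit 382) .nil)))))))) (.g (nat_lit 5) .nil .nil))) 
(.lf (nat_lit 31994) (.g (nat_lit 2356) (.e (nat_lit 1201) (nat_lit 88) (.e (nat_lit 65617) (nat_lit 10) (.e (nat_lit 344091) (nat_lit 18) (.e (nat_lit 7263) (nat_lit 384) (.e (nat_lit 57427) (nat_lit 15) (.e (nat_lit 360449) (nat_lit 0) (.e (nat_lit 7124) (nat_lit 382) .nil))))))) (.g (nat_lit 5) .nil .nil))))) (.nd (nat_lit 3) (.nd (nat_lit 4) 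
(.lf (nat_lit 31974) (.g (nat_lit 4104) (.e (nat_lit 1201) (nat_lit 88) (.e (nat_lit 65617) (nat_lit 10) (.e (nat_lit 344091) (nat_lit 18) (.e (nat_lit 7122) (nat_lit 382) (.e (nat_lit 1201) (nat_lit 88) (.e (nat_lit 65617) (nat_lit 10) (.e (nat_lit 344091) (nat_lit 18) (.e (nat_lit 7122) (nat_lit 382) .nil)))))))) (.g (nat_lit 7) .nil .nil))) 
(.lf (nat_lit 31990) (.g (nat_lit 1700) (.e (nat_lit 1201) (nat_lit 88) (.e (nat_lit 65617) (nat_lit 10) (.e (nat_lit 344091) (nat_lit 18) (.e (nat_lit 7261) (nat_lit 384) (.e (nat_lit 57427) (nat_lit 15) (.e (nat_lit 368384) (nat_lit 0) (.e (nat_lit 7124) (nat_lit 382) .nil))))))) (.g (nat_lit 4) .nil .nil)))) (.nd (nat_lit 4) 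
(.lf (nat_lit 31982) (.g (nat_lit 4150) (.e (nat_lit 1201) (nat_lit 88) (.e (nat_lit 65617) (nat_lit 10) (.e (nat_lit 344091) (nat_lit 18) (.e (nat_lit 7124) (nat_lit 382) (.e (nat_lit 1201) (nat_lit 88) (.e (nat_lit 65617) (nat_lit 10) (.e (nat_lit 344091) (nat_lit 18) (.e (nat_lit 7124) (nat_lit 382) .nil)))))))) (.g (nat_lit 0) .nil .nil))) 
(.lf (nat_lit 31998) (.g (nat_lit 3386) (.e (nat_lit 1201) (nat_lit 88) (.e (nat_lit 65617) (nat_lit 10) (.e (nat_lit 344091) (nat_lit 18) (.e (nat_lit 7265) (nat_lit 384) (.e (nat_lit 57426) (nat_lit 15) (.e (nat_lit 360451) (nat_lit 0) (.e (nat_lit 7124) (nat_lit 382) .nil))))))) (.g (nat_lit 7) .nil .nil))))))) (.nd (nat_lit 1) (.nd (nat_lit 2) (.nd (nat_lit 3) (.nd (nat_lit 4) 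
(.lf (nat_lit 31969) (.g (nat_lit 2462) (.e (nat_lit 1201) (nat_lit 88) (.e (nat_lit 65617) (nat_lit 10) (.e (nat_lit 344087) (nat_lit 18) (.e (nat_lit 5906) (nat_lit 320) (.e (nat_lit 1221) (nat_lit 90) (.e (nat_lit 81959) (nat_lit 24) (.e (nat_lit 123182) (nat_lit 264) .nil))))))) (.g (nat_lit 6) .nil .nil))) 
(.lf (nat_lit 31985) (.g (nat_lit 4962) (.e (nat_lit 1201) (nat_lit 88) (.e (nat_lit 65617) (nat_lit 10) (.e (nat_lit 344091) (nat_lit 18) (.e (nat_lit 7125) (nat_lit 382) (.e (nat_lit 1201) (nat_lit 88) (.e (nat_lit 65617) (nat_lit 10) (.e (nat_lit 344096) (nat_lit 18) (.e (nat_lit 7122) (nat_lit 382) .nil)))))))) (.g (nat_lit 0) .nil .nil)))) (.nd (nat_lit 4) 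
(.lf (nat_lit 31977) (.g (nat_lit 3972) (.e (nat_lit 1201) (nat_lit 88) (.e (nat_lit 65617) (nat_lit 10) (.e (nat_lit 344091) (nat_lit 18) (.e (nat_lit 7122) (nat_lit 382) (.e (nat_lit 1201) (nat_lit 88) (.e (nat_lit 65617) (nat_lit 10) (.e (nat_lit 344095) (nat_lit 18) (.e (nat_lit 7122) (nat_lit 382) .nil)))))))) (.g (nat_lit 7) .nil .nil))) 
(.lf (nat_lit 31993) (.g (nat_lit 2589) (.e (nat_lit 1201) (nat_lit 88) (.e (nat_lit 65617) (nat_lit 10) (.e (nat_lit 344091) (nat_lit 18) (.e (nat_lit 7263) (nat_lit 384) (.e (nat_lit 57427) (nat_lit 15) (.e (nat_lit 360449) (nat_lit 0) (.e (nat_lit 7122) (nat_lit 382) .nil))))))) (.g (nat_lit 5) .nil .nil))))) (.nd (nat_lit 3) (.nd (nat_lit 4) 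
(.lf (nat_lit 31973) (.g (nat_lit 4046) (.e (nat_lit 1201) (nat_lit 88) (.e (nat_lit 65617) (nat_lit 10) (.e (nat_lit 344091) (nat_lit 18) (.e (nat_lit 7122) (nat_lit 382) (.e (nat_lit 1201) (nat_lit 88) (.e (nat_lit 65610) (nat_lit 10) (.e (nat_lit 344090) (nat_lit 18) (.e (nat_lit 7124) (nat_lit 382) .nil)))))))) (.g (nat_lit 7) .nil .nil))) 
(.lf (nat_lit 31989) (.g (nat_lit 4145) (.e (nat_lit 1201) (nat_lit 88) (.e (nat_lit 65617) (nat_lit 10) (.e (nat_lit 344091) (nat_lit 18) (.e (nat_lit 7261) (nat_lit 384) (.e (nat_lit 57427) (nat_lit 15) (.e (nat_lit 360451) (nat_lit 0) (.e (nat_lit 7125) (nat_lit 382) .nil))))))) (.g (nat_lit 0) .nil .nil)))) (.nd (nat_lit 4) 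
(.lf (nat_lit 31981) (.g (nat_lit 4584) (.e (nat_lit 1201) (nat_lit 88) (.e (nat_lit 65617) (nat_lit 10) (.e (nat_lit 344091) (nat_lit 18) (.e (nat_lit 7122) (nat_lit 382) (.e (nat_lit 1201) (nat_lit 88) (.e (nat_lit 65617) (nat_lit 10) (.e (nat_lit 344096) (nat_lit 18) (.e (nat_lit 7125) (nat_lit 382) .nil)))))))) (.g (nat_lit 8) .nil .nil))) 
(.lf (nat_lit 31997) (.g (nat_lit 2492) (.e (nat_lit 1201) (nat_lit 88) (.e (nat_lit 65617) (nat_lit 10) (.e (nat_lit 344091) (nat_lit 18) (.e (nat_lit 7265) (nat_lit 384) (.e (nat_lit 57426) (nat_lit 15) (.e (nat_lit 360450) (nat_lit 0) (.e (nat_lit 7122) (nat_lit 382) .nil))))))) (.g (nat_lit 5) .nil .nil)))))) (.nd (nat_lit 2) (.nd (nat_lit 3) (.nd (nat_lit 4) 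
(.lf (nat_lit 31971) (.g (nat_lit 2208) (.e (nat_lit 1201) (nat_lit 88) (.e (nat_lit 65617) (nat_lit 10) (.e (nat_lit 344090) (nat_lit 18) (.e (nat_lit 7125) (nat_lit 382) (.e (nat_lit 1201) (nat_lit 88) (.e (nat_lit 65617) (nat_lit 10) (.e (nat_lit 344096) (nat_lit 18) (.e (nat_lit 7122) (nat_lit 382) .nil)))))))) (.g (nat_lit 4) .nil .nil))) 
(.lf (nat_lit 31987) (.g (nat_lit 2354) (.e (nat_lit 1201) (nat_lit 88) (.e (nat_lit 65617) (nat_lit 10) (.e (nat_lit 344091) (nat_lit 18) (.e (nat_lit 7261) (nat_lit 384) (.e (nat_lit 57427) (nat_lit 15) (.e (nat_lit 360449) (nat_lit 0) (.e (nat_lit 7124) (nat_lit 382) .nil))))))) (.g (nat_lit 5) .nil .nil)))) (.nd (nat_lit 4) 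
(.lf (nat_lit 31979) (.g (nat_lit 4714) (.e (nat_lit 1201) (nat_lit 88) (.e (nat_lit 65617) (nat_lit 10) (.e (nat_lit 344091) (nat_lit 18) (.e (nat_lit 7122) (nat_lit 382) (.e (nat_lit 1201) (nat_lit 88) (.e (nat_lit 65617) (nat_lit 10) (.e (nat_lit 344096) (nat_lit 18) (.e (nat_lit 7122) (nat_lit 382) .nil)))))))) (.g (nat_lit 8) .nil .nil))) 
(.lf (nat_lit 31995) (.g (nat_lit 3515) (.e (nat_lit 1201) (nat_lit 88) (.e (nat_lit 65617) (nat_lit 10) (.e (nat_lit 344091) (nat_lit 18) (.e (nat_lit 7263) (nat_lit 384) (.e (nat_lit 57427) (nat_lit 15) (.e (nat_lit 360450) (nat_lit 0) (.e (nat_lit 7124) (nat_lit 382) .nil))))))) (.g (nat_lit 6) .nil .nil))))) (.nd (nat_lit 3) (.nd (nat_lit 4) 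
(.lf (nat_lit 31975) (.g (nat_lit 4127) (.e (nat_lit 1201) (nat_lit 88) (.e (nat_lit 65617) (nat_lit 10) (.e (nat_lit 344091) (nat_lit 18) (.e (nat_lit 7122) (nat_lit 382) (.e (nat_lit 1201) (nat_lit 88) (.e (nat_lit 65617) (nat_lit 10) (.e (nat_lit 344091) (nat_lit 18) (.e (nat_lit 7124) (nat_lit 382) .nil)))))))) (.g (nat_lit 7) .nil .nil))) 
(.lf (nat_lit 31991) (.g (nat_lit 1859) (.e (nat_lit 1201) (nat_lit 88) (.e (nat_lit 65617) (nat_lit 10) (.e (nat_lit 344091) (nat_lit 18) (.e (nat_lit 7261) (nat_lit 384) (.e (nat_lit 57427) (nat_lit 15) (.e (nat_lit 368384) (nat_lit 0) (.e (nat_lit 7125) (nat_lit 382) .nil))))))) (.g (nat_lit 4) .nil .nil)))) (.nd (nat_lit 4) 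
(.lf (nat_lit 31983) (.g (nat_lit 1881) (.e (nat_lit 1201) (nat_lit 88) (.e (nat_lit 65617) (nat_lit 10) (.e (nat_lit 344091) (nat_lit 18) (.e (nat_lit 7125) (nat_lit 382) (.e (nat_lit 1201) (nat_lit 88) (.e (nat_lit 65617) (nat_lit 10) (.e (nat_lit 344095) (nat_lit 18) (.e (nat_lit 7124) (nat_lit 382) .nil)))))))) (.g (nat_lit 4) .nil .nil))) 
(.lf (nat_lit 31999) (.g (nat_lit 1786) (.e (nat_lit 1201) (nat_lit 88) (.e (nat_lit 65617) (nat_lit 10) (.e (nat_lit 344091) (nat_lit 18) (.e (nat_lit 7265) (nat_lit 384) (.e (nat_lit 57426) (nat_lit 15) (.e (nat_lit 368384) (nat_lit 0) (.e (nat_lit 7124) (nat_lit 382) .nil))))))) (.g (nat_lit 4) .nil .nil))))))))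

noncomputable def tv449 : DT := (.nd (nat_lit 0) (.nd (nat_lit 1) (.nd (nat_lit 2) (.nd (nat_lit 3) (.nd (nat_lit 4) 
(.lf (nat_lit 32000) (.g (nat_lit 1945) (.e (nat_lit 1201) (nat_lit 88) (.e (nat_lit 65617) (nat_lit 10) (.e (nat_lit 344091) (nat_lit 18) (.e (nat_lit 7265) (nat_lit 384) (.e (nat_lit 57426) (nat_lit 15) (.e (nat_lit 368384) (nat_lit 0) (.e (nat_lit 7125) (nat_lit 382) .nil))))))) (.g (nat_lit 4) .nil .nil))) 
(.lf (nat_lit 32016) (.g (nat_lit 3924) (.e (nat_lit 1201) (nat_lit 88) (.e (nat_lit 65617) (nat_lit 10) (.e (nat_lit 344095) (nat_lit 18) (.e (nat_lit 7261) (nat_lit 384) (.e (nat_lit 57412) (nat_lit 12) (.e (nat_lit 336176) (nat_lit 10) (.e (nat_lit 344096) (nat_lit 18) (.e (nat_lit 7122) (nat_lit 382) .nil)))))))) (.g (nat_lit 8) .nil .nil)))) (.nd (nat_lit 4) 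
(.lf (nat_lit 32008) (.g (nat_lit 4006) (.e (nat_lit 1201) (nat_lit 88) (.e (nat_lit 65617) (nat_lit 10) (.e (nat_lit 344091) (nat_lit 18) (.e (nat_lit 7266) (nat_lit 384) (.e (nat_lit 57426) (nat_lit 15) (.e (nat_lit 360451) (nat_lit 0) (.e (nat_lit 7125) (nat_lit 382) .nil))))))) (.g (nat_lit 7) .nil .nil))) 
(.lf (nat_lit 32024) (.g (nat_lit 2607) (.e (nat_lit 1201) (nat_lit 88) (.e (nat_lit 65617) (nat_lit 10) (.e (nat_lit 344095) (nat_lit 18) (.e (nat_lit 7266) (nat_lit 384) (.e (nat_lit 57427) (nat_lit 15) (.e (nat_lit 360451) (nat_lit 0) (.e (nat_lit 7124) (nat_lit 382) .nil))))))) (.g (nat_lit 5) .nil .nil))))) (.nd (nat_lit 3) (.nd (nat_lit 4) 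
(.lf (nat_lit 32004) (.g (nat_lit 3867) (.e (nat_lit 1201) (nat_lit 88) (.e (nat_lit 65617) (nat_lit 10) (.e (nat_lit 344091) (nat_lit 18) (.e (nat_lit 7265) (nat_lit 384) (.e (nat_lit 57427) (nat_lit 15) (.e (nat_lit 360450) (nat_lit 0) (.e (nat_lit 7124) (nat_lit 382) .nil))))))) (.g (nat_lit 6) .nil .nil))) 
(.lf (nat_lit 32020) (.g (nat_lit 2178) (.e (nat_lit 1201) (nat_lit 88) (.e (nat_lit 65617) (nat_lit 10) (.e (nat_lit 344095) (nat_lit 18) (.e (nat_lit 7266) (nat_lit 384) (.e (nat_lit 57426) (nat_lit 15) (.e (nat_lit 360449) (nat_lit 0) (.e (nat_lit 7122) (nat_lit 382) .nil))))))) (.g (nat_lit 5) .nil .nil)))) (.nd (nat_lit 4) 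
(.lf (nat_lit 32012) (.g (nat_lit 647) (.e (nat_lit 1201) (nat_lit 88) (.e (nat_lit 65617) (nat_lit 10) (.e (nat_lit 344093) (nat_lit 18) .nil))) .nil)) 
(.lf (nat_lit 32028) (.g (nat_lit 5324) (.e (nat_lit 1201) (nat_lit 88) (.e (nat_lit 65617) (nat_lit 10) (.e (nat_lit 344096) (nat_lit 18) (.e (nat_lit 7122) (nat_lit 382) (.e (nat_lit 1201) (nat_lit 88) (.e (nat_lit 65617) (nat_lit 10) (.e (nat_lit 344096) (nat_lit 18) (.e (nat_lit 7122) (nat_lit 382) .nil)))))))) (.g (nat_lit 0) .nil .nil)))))) (.nd (nat_lit 2) (.nd (nat_lit 3) (.nd (nat_lit 4) 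
(.lf (nat_lit 32002) (.g (nat_lit 2944) (.e (nat_lit 1201) (nat_lit 88) (.e (nat_lit 65617) (nat_lit 10) (.e (nat_lit 344091) (nat_lit 18) (.e (nat_lit 7265) (nat_lit 384) (.e (nat_lit 57427) (nat_lit 15) (.e (nat_lit 360449) (nat_lit 0) (.e (nat_lit 7124) (nat_lit 382) .nil))))))) (.g (nat_lit 6) .nil .nil))) 
(.lf (nat_lit 32018) (.g (nat_lit 3338) (.e (nat_lit 1201) (nat_lit 88) (.e (nat_lit 65617) (nat_lit 10) (.e (nat_lit 344095) (nat_lit 18) (.e (nat_lit 7261) (nat_lit 384) (.e (nat_lit 57427) (nat_lit 15) (.e (nat_lit 360450) (nat_lit 0) (.e (nat_lit 7124) (nat_lit 382) .nil))))))) (.g (nat_lit 6) .nil .nil)))) (.nd (nat_lit 4) 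
(.lf (nat_lit 32010) (.g (nat_lit 2920) (.e (nat_lit 1201) (nat_lit 88) (.e (nat_lit 65617) (nat_lit 10) (.e (nat_lit 344091) (nat_lit 18) (.e (nat_lit 7266) (nat_lit 384) (.e (nat_lit 57427) (nat_lit 15) (.e (nat_lit 360449) (nat_lit 0) (.e (nat_lit 7124) (nat_lit 382) .nil))))))) (.g (nat_lit 5) .nil .nil))) 
(.lf (nat_lit 32026) (.g (nat_lit 2117) (.e (nat_lit 1201) (nat_lit 88) (.e (nat_lit 65617) (nat_lit 10) (.e (nat_lit 344096) (nat_lit 18) (.e (nat_lit 7122) (nat_lit 382) (.e (nat_lit 1201) (nat_lit 88) (.e (nat_lit 65617) (nat_lit 10) (.e (nat_lit 344087) (nat_lit 18) (.e (nat_lit 7124) (nat_lit 382) .nil)))))))) (.g (nat_lit 4) .nil .nil))))) (.nd (nat_lit 3) (.nd (nat_lit 4) 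
(.lf (nat_lit 32006) (.g (nat_lit 1956) (.e (nat_lit 1201) (nat_lit 88) (.e (nat_lit 65617) (nat_lit 10) (.e (nat_lit 344091) (nat_lit 18) (.e (nat_lit 7265) (nat_lit 384) (.e (nat_lit 57428) (nat_lit 15) (.e (nat_lit 360449) (nat_lit 0) (.e (nat_lit 7125) (nat_lit 382) .nil))))))) (.g (nat_lit 4) .nil .nil))) 
(.lf (nat_lit 32022) (.g (nat_lit 2540) (.e (nat_lit 1201) (nat_lit 88) (.e (nat_lit 65617) (nat_lit 10) (.e (nat_lit 344095) (nat_lit 18) (.e (nat_lit 7266) (nat_lit 384) (.e (nat_lit 57426) (nat_lit 15) (.e (nat_lit 360449) (nat_lit 0) (.e (nat_lit 7125) (nat_lit 382) .nil))))))) (.g (nat_lit 5) .nil .nil)))) (.nd (nat_lit 4) 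
(.lf (nat_lit 32014) (.g (nat_lit 3523) (.e (nat_lit 1201) (nat_lit 88) (.e (nat_lit 65617) (nat_lit 10) (.e (nat_lit 344095) (nat_lit 18) (.e (nat_lit 7125) (nat_lit 382) (.e (nat_lit 1201) (nat_lit 88) (.e (nat_lit 65617) (nat_lit 10) (.e (nat_lit 344096) (nat_lit 18) (.e (nat_lit 7122) (nat_lit 382) .nil)))))))) (.g (nat_lit 6) .nil .nil))) 
(.lf (nat_lit 32030) (.g (nat_lit 5195) (.e (nat_lit 1201) (nat_lit 88) (.e (nat_lit 65617) (nat_lit 10) (.e (nat_lit 344096) (nat_lit 18) (.e (nat_lit 7122) (nat_lit 382) (.e (nat_lit 1201) (nat_lit 88) (.e (nat_lit 65617) (nat_lit 10) (.e (nat_lit 344096) (nat_lit 18) (.e (nat_lit 7125) (nat_lit 382) .nil)))))))) (.g (nat_lit 0) .nil .nil))))))) 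
(.nd (nat_lit 1) (.nd (nat_lit 2) (.nd (nat_lit 3) (.nd (nat_lit 4) 
(.lf (nat_lit 32001) (.g (nat_lit 3177) (.e (nat_lit 1201) (nat_lit 88) (.e (nat_lit 65617) (nat_lit 10) (.e (nat_lit 344091) (nat_lit 18) (.e (nat_lit 7265) (nat_lit 384) (.e (nat_lit 57427) (nat_lit 15) (.e (nat_lit 360449) (nat_lit 0) (.e (nat_lit 7122) (nat_lit 382) .nil))))))) (.g (nat_lit 6) .nil .nil))) 
(.lf (nat_lit 32017) (.g (nat_lit 2176) (.e (nat_lit 1201) (nat_lit 88) (.e (nat_lit 65617) (nat_lit 10) (.e (nat_lit 344095) (nat_lit 18) (.e (nat_lit 7261) (nat_lit 384) (.e (nat_lit 57427) (nat_lit 15) (.e (nat_lit 360449) (nat_lit 0) (.e (nat_lit 7124) (nat_lit 382) .nil))))))) (.g (nat_lit 5) .nil .nil)))) (.nd (nat_lit 4) 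
(.lf (nat_lit 32009) (.g (nat_lit 3153) (.e (nat_lit 1201) (nat_lit 88) (.e (nat_lit 65617) (nat_lit 10) (.e (nat_lit 344091) (nat_lit 18) (.e (nat_lit 7266) (nat_lit 384) (.e (nat_lit 57427) (nat_lit 15) (.e (nat_lit 360449) (nat_lit 0) (.e (nat_lit 7122) (nat_lit 382) .nil))))))) (.g (nat_lit 6) .nil .nil))) 
(.lf (nat_lit 32025) (.g (nat_lit 1829) (.e (nat_lit 1201) (nat_lit 88) (.e (nat_lit 65617) (nat_lit 10) (.e (nat_lit 344096) (nat_lit 18) (.e (nat_lit 7122) (nat_lit 382) (.e (nat_lit 1016) (nat_lit 81) .nil))))) .nil)))) (.nd (nat_lit 3) (.nd (nat_lit 4) 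
(.lf (nat_lit 32005) (.g (nat_lit 4525) (.e (nat_lit 1201) (nat_lit 88) (.e (nat_lit 65617) (nat_lit 10) (.e (nat_lit 344091) (nat_lit 18) (.e (nat_lit 7265) (nat_lit 384) (.e (nat_lit 57427) (nat_lit 15) (.e (nat_lit 360451) (nat_lit 0) (.e (nat_lit 7125) (nat_lit 382) .nil))))))) (.g (nat_lit 0) .nil .nil))) 
(.lf (nat_lit 32021) (.g (nat_lit 2038) (.e (nat_lit 1201) (nat_lit 88) (.e (nat_lit 65617) (nat_lit 10) (.e (nat_lit 344095) (nat_lit 18) (.e (nat_lit 7266) (nat_lit 384) (.e (nat_lit 57426) (nat_lit 15) (.e (nat_lit 360449) (nat_lit 0) (.e (nat_lit 7124) (nat_lit 382) .nil))))))) (.g (nat_lit 5) .nil .nil)))) (.nd (nat_lit 4) 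
(.lf (nat_lit 32013) (.g (nat_lit 2786) (.e (nat_lit 1201) (nat_lit 88) (.e (nat_lit 65617) (nat_lit 10) (.e (nat_lit 344095) (nat_lit 18) (.e (nat_lit 7125) (nat_lit 382) (.e (nat_lit 1201) (nat_lit 88) (.e (nat_lit 65617) (nat_lit 10) (.e (nat_lit 344095) (nat_lit 18) (.e (nat_lit 7122) (nat_lit 382) .nil)))))))) (.g (nat_lit 5) .nil .nil))) 
(.lf (nat_lit 32029) (.g (nat_lit 4873) (.e (nat_lit 1201) (nat_lit 88) (.e (nat_lit 65617) (nat_lit 10) (.e (nat_lit 344096) (nat_lit 18) (.e (nat_lit 7122) (nat_lit 382) (.e (nat_lit 1201) (nat_lit 88) (.e (nat_lit 65617) (nat_lit 10) (.e (nat_lit 344096) (nat_lit 18) (.e (nat_lit 7124) (nat_lit 382) .nil)))))))) (.g (nat_lit 0) .nil .nil)))))) (.nd (nat_lit 2) (.nd (nat_lit 3) (.nd (nat_lit 4) 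
(.lf (nat_lit 32003) (.g (nat_lit 3575) (.e (nat_lit 1201) (nat_lit 88) (.e (nat_lit 65617) (nat_lit 10) (.e (nat_lit 344091) (nat_lit 18) (.e (nat_lit 7265) (nat_lit 384) (.e (nat_lit 57427) (nat_lit 15) (.e (nat_lit 360449) (nat_lit 0) (.e (nat_lit 7125) (nat_lit 382) .nil))))))) (.g (nat_lit 7) .nil .nil))) 
(.lf (nat_lit 32019) (.g (nat_lit 3974) (.e (nat_lit 1201) (nat_lit 88) (.e (nat_lit 65617) (nat_lit 10) (.e (nat_lit 344095) (nat_lit 18) (.e (nat_lit 7261) (nat_lit 384) (.e (nat_lit 57427) (nat_lit 15) (.e (nat_lit 360451) (nat_lit 0) (.e (nat_lit 7125) (nat_lit 382) .nil))))))) (.g (nat_lit 0) .nil .nil)))) (.nd (nat_lit 4) 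
(.lf (nat_lit 32011) (.g (nat_lit 4301) (.e (nat_lit 1201) (nat_lit 88) (.e (nat_lit 65617) (nat_lit 10) (.e (nat_lit 344091) (nat_lit 18) (.e (nat_lit 7266) (nat_lit 384) (.e (nat_lit 57427) (nat_lit 15) (.e (nat_lit 360451) (nat_lit 0) (.e (nat_lit 7122) (nat_lit 382) .nil))))))) (.g (nat_lit 7) .nil .nil))) 
(.lf (nat_lit 32027) (.g (nat_lit 2222) (.e (nat_lit 1201) (nat_lit 88) (.e (nat_lit 65617) (nat_lit 10) (.e (nat_lit 344096) (nat_lit 18) (.e (nat_lit 7122) (nat_lit 382) (.e (nat_lit 1201) (nat_lit 88) (.e (nat_lit 65617) (nat_lit 10) (.e (nat_lit 344095) (nat_lit 18) (.e (nat_lit 7124) (nat_lit 382) .nil)))))))) (.g (nat_lit 4) .nil .nil))))) (.nd (nat_lit 3) (.nd (nat_lit 4) 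
(.lf (nat_lit 32007) (.g (nat_lit 3131) (.e (nat_lit 1201) (nat_lit 88) (.e (nat_lit 65617) (nat_lit 10) (.e (nat_lit 344091) (nat_lit 18) (.e (nat_lit 7266) (nat_lit 384) (.e (nat_lit 57426) (nat_lit 15) (.e (nat_lit 360451) (nat_lit 0) (.e (nat_lit 7124) (nat_lit 382) .nil))))))) (.g (nat_lit 6) .nil .nil))) 
(.lf (nat_lit 32023) (.g (nat_lit 2484) (.e (nat_lit 1201) (nat_lit 88) (.e (nat_lit 65617) (nat_lit 10) (.e (nat_lit 344095) (nat_lit 18) (.e (nat_lit 7266) (nat_lit 384) (.e (nat_lit 57427) (nat_lit 15) (.e (nat_lit 360450) (nat_lit 0) (.e (nat_lit 7124) (nat_lit 382) .nil))))))) (.g (nat_lit 5) .nil .nil)))) (.nd (nat_lit 4) 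
(.lf (nat_lit 32015) (.g (nat_lit 3399) (.e (nat_lit 1201) (nat_lit 88) (.e (nat_lit 65617) (nat_lit 10) (.e (nat_lit 344095) (nat_lit 18) (.e (nat_lit 7125) (nat_lit 382) (.e (nat_lit 1201) (nat_lit 88) (.e (nat_lit 65617) (nat_lit 10) (.e (nat_lit 344096) (nat_lit 18) (.e (nat_lit 7125) (nat_lit 382) .nil)))))))) (.g (nat_lit 6) .nil .nil))) 
(.lf (nat_lit 32031) (.g (nat_lit 1563) (.e (nat_lit 1201) (nat_lit 88) (.e (nat_lit 65617) (nat_lit 10) (.e (nat_lit 344096) (nat_lit 18) (.e (nat_lit 7125) (nat_lit 382) (.e (nat_lit 1201) (nat_lit 88) .nil))))) .nil)))))))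

noncomputable def tv450 : DT := (.nd (nat_lit 0) (.nd (nat_lit 1) (.nd (nat_lit 2) (.nd (nat_lit 3) (.nd (nat_lit 4) 
(.lf (nat_lit 32032) (.g (nat_lit 2500) (.e (nat_lit 1201) (nat_lit 88) (.e (nat_lit 65617) (nat_lit 10) (.e (nat_lit 344096) (nat_lit 18) (.e (nat_lit 7261) (nat_lit 384) (.e (nat_lit 57427) (nat_lit 15) (.e (nat_lit 360449) (nat_lit 0) (.e (nat_lit 7124) (nat_lit 382) .nil))))))) (.g (nat_lit 5) .nil .nil))) 
(.lf (nat_lit 32048) (.g (nat_lit 3553) (.e (nat_lit 1201) (nat_lit 88) (.e (nat_lit 65617) (nat_lit 10) (.e (nat_lit 344096) (nat_lit 18) (.e (nat_lit 7265) (nat_lit 384) (.e (nat_lit 57426) (nat_lit 15) (.e (nat_lit 360451) (nat_lit 0) (.e (nat_lit 7124) (nat_lit 382) .nil))))))) (.g (nat_lit 7) .nil .nil)))) (.nd (nat_lit 4) 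
(.lf (nat_lit 32040) (.g (nat_lit 2558) (.e (nat_lit 1201) (nat_lit 88) (.e (nat_lit 65617) (nat_lit 10) (.e (nat_lit 344096) (nat_lit 18) (.e (nat_lit 7263) (nat_lit 384) (.e (nat_lit 57427) (nat_lit 15) (.e (nat_lit 360449) (nat_lit 0) (.e (nat_lit 7124) (nat_lit 382) .nil))))))) (.g (nat_lit 5) .nil .nil))) 
(.lf (nat_lit 32056) (.g (nat_lit 2118) (.e (nat_lit 1201) (nat_lit 88) (.e (nat_lit 65617) (nat_lit 10) (.e (nat_lit 344096) (nat_lit 18) (.e (nat_lit 7265) (nat_lit 384) (.e (nat_lit 57428) (nat_lit 15) (.e (nat_lit 360449) (nat_lit 0) (.e (nat_lit 7125) (nat_lit 382) .nil))))))) (.g (nat_lit 4) .nil .nil))))) (.nd (nat_lit 3) (.nd (nat_lit 4) 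
(.lf (nat_lit 32036) (.g (nat_lit 2022) (.e (nat_lit 1201) (nat_lit 88) (.e (nat_lit 65617) (nat_lit 10) (.e (nat_lit 344096) (nat_lit 18) (.e (nat_lit 7261) (nat_lit 384) (.e (nat_lit 57427) (nat_lit 15) (.e (nat_lit 368384) (nat_lit 0) (.e (nat_lit 7125) (nat_lit 382) .nil))))))) (.g (nat_lit 4) .nil .nil))) 
(.lf (nat_lit 32052) (.g (nat_lit 3099) (.e (nat_lit 1201) (nat_lit 88) (.e (nat_lit 65617) (nat_lit 10) (.e (nat_lit 344096) (nat_lit 18) (.e (nat_lit 7265) (nat_lit 384) (.e (nat_lit 57427) (nat_lit 15) (.e (nat_lit 360449) (nat_lit 0) (.e (nat_lit 7124) (nat_lit 382) .nil))))))) (.g (nat_lit 6) .nil .nil)))) (.nd (nat_lit 4) 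
(.lf (nat_lit 32044) (.g (nat_lit 1818) (.e (nat_lit 1201) (nat_lit 88) (.e (nat_lit 65617) (nat_lit 10) (.e (nat_lit 344096) (nat_lit 18) (.e (nat_lit 7263) (nat_lit 384) (.e (nat_lit 57427) (nat_lit 15) (.e (nat_lit 368384) (nat_lit 0) (.e (nat_lit 7125) (nat_lit 382) .nil))))))) (.g (nat_lit 4) .nil .nil))) 
(.lf (nat_lit 32060) (.g (nat_lit 3388) (.e (nat_lit 1201) (nat_lit 88) (.e (nat_lit 65617) (nat_lit 10) (.e (nat_lit 344096) (nat_lit 18) (.e (nat_lit 7266) (nat_lit 384) (.e (nat_lit 57427) (nat_lit 15) (.e (nat_lit 360449) (nat_lit 0) (.e (nat_lit 7122) (nat_lit 382) .nil))))))) (.g (nat_lit 6) .nil .nil)))))) (.nd (nat_lit 2) (.nd (nat_lit 3) (.nd (nat_lit 4) 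
(.lf (nat_lit 32034) (.g (nat_lit 4289) (.e (nat_lit 1201) (nat_lit 88) (.e (nat_lit 65617) (nat_lit 10) (.e (nat_lit 344096) (nat_lit 18) (.e (nat_lit 7261) (nat_lit 384) (.e (nat_lit 57427) (nat_lit 15) (.e (nat_lit 360451) (nat_lit 0) (.e (nat_lit 7125) (nat_lit 382) .nil))))))) (.g (nat_lit 0) .nil .nil))) 
(.lf (nat_lit 32050) (.g (nat_lit 2117) (.e (nat_lit 1201) (nat_lit 88) (.e (nat_lit 65617) (nat_lit 10) (.e (nat_lit 344096) (nat_lit 18) (.e (nat_lit 7265) (nat_lit 384) (.e (nat_lit 57426) (nat_lit 15) (.e (nat_lit 368384) (nat_lit 0) (.e (nat_lit 7125) (nat_lit 382) .nil))))))) (.g (nat_lit 4) .nil .nil)))) (.nd (nat_lit 4) 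
(.lf (nat_lit 32042) (.g (nat_lit 3717) (.e (nat_lit 1201) (nat_lit 88) (.e (nat_lit 65617) (nat_lit 10) (.e (nat_lit 344096) (nat_lit 18) (.e (nat_lit 7263) (nat_lit 384) (.e (nat_lit 57427) (nat_lit 15) (.e (nat_lit 360450) (nat_lit 0) (.e (nat_lit 7124) (nat_lit 382) .nil))))))) (.g (nat_lit 6) .nil .nil))) 
(.lf (nat_lit 32058) (.g (nat_lit 3376) (.e (nat_lit 1201) (nat_lit 88) (.e (nat_lit 65617) (nat_lit 10) (.e (nat_lit 344096) (nat_lit 18) (.e (nat_lit 7266) (nat_lit 384) (.e (nat_lit 57426) (nat_lit 15) (.e (nat_lit 360451) (nat_lit 0) (.e (nat_lit 7124) (nat_lit 382) .nil))))))) (.g (nat_lit 6) .nil .nil))))) (.nd (nat_lit 3) (.nd (nat_lit 4) 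
(.lf (nat_lit 32038) (.g (nat_lit 4363) (.e (nat_lit 1201) (nat_lit 88) (.e (nat_lit 65617) (nat_lit 10) (.e (nat_lit 344096) (nat_lit 18) (.e (nat_lit 7263) (nat_lit 384) (.e (nat_lit 57412) (nat_lit 12) (.e (nat_lit 336176) (nat_lit 10) (.e (nat_lit 344096) (nat_lit 18) (.e (nat_lit 7122) (nat_lit 382) .nil)))))))) (.g (nat_lit 8) .nil .nil))) 
(.lf (nat_lit 32054) (.g (nat_lit 4013) (.e (nat_lit 1201) (nat_lit 88) (.e (nat_lit 65617) (nat_lit 10) (.e (nat_lit 344096) (nat_lit 18) (.e (nat_lit 7265) (nat_lit 384) (.e (nat_lit 57427) (nat_lit 15) (.e (nat_lit 360450) (nat_lit 0) (.e (nat_lit 7124) (nat_lit 382) .nil))))))) (.g (nat_lit 6) .nil .nil)))) (.nd (nat_lit 4) 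
(.lf (nat_lit 32046) (.g (nat_lit 4356) (.e (nat_lit 1201) (nat_lit 88) (.e (nat_lit 65617) (nat_lit 10) (.e (nat_lit 344096) (nat_lit 18) (.e (nat_lit 7265) (nat_lit 384) (.e (nat_lit 57412) (nat_lit 12) (.e (nat_lit 336176) (nat_lit 10) (.e (nat_lit 344096) (nat_lit 18) (.e (nat_lit 7122) (nat_lit 382) .nil)))))))) (.g (nat_lit 8) .nil .nil))) 
(.lf (nat_lit 32062) (.g (nat_lit 2344) (.e (nat_lit 1201) (nat_lit 88) (.e (nat_lit 65617) (nat_lit 10) (.e (nat_lit 344096) (nat_lit 18) (.e (nat_lit 7266) (nat_lit 384) (.e (nat_lit 57427) (nat_lit 15) (.e (nat_lit 360450) (nat_lit 0) (.e (nat_lit 7119) (nat_lit 382) .nil))))))) (.g (nat_lit 4) .nil .nil))))))) (.nd (nat_lit 1) (.nd (nat_lit 2) (.nd (nat_lit 3) (.nd (nat_lit 4) 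
(.lf (nat_lit 32033) (.g (nat_lit 3665) (.e (nat_lit 1201) (nat_lit 88) (.e (nat_lit 65617) (nat_lit 10) (.e (nat_lit 344096) (nat_lit 18) (.e (nat_lit 7261) (nat_lit 384) (.e (nat_lit 57427) (nat_lit 15) (.e (nat_lit 360450) (nat_lit 0) (.e (nat_lit 7124) (nat_lit 382) .nil))))))) (.g (nat_lit 6) .nil .nil))) 
(.lf (nat_lit 32049) (.g (nat_lit 1941) (.e (nat_lit 1201) (nat_lit 88) (.e (nat_lit 65617) (nat_lit 10) (.e (nat_lit 344096) (nat_lit 18) (.e (nat_lit 7265) (nat_lit 384) (.e (nat_lit 57426) (nat_lit 15) (.e (nat_lit 368384) (nat_lit 0) (.e (nat_lit 7124) (nat_lit 382) .nil))))))) (.g (nat_lit 4) .nil .nil)))) (.nd (nat_lit 4) 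
(.lf (nat_lit 32041) (.g (nat_lit 3206) (.e (nat_lit 1201) (nat_lit 88) (.e (nat_lit 65617) (nat_lit 10) (.e (nat_lit 344096) (nat_lit 18) (.e (nat_lit 7263) (nat_lit 384) (.e (nat_lit 57427) (nat_lit 15) (.e (nat_lit 360449) (nat_lit 0) (.e (nat_lit 7125) (nat_lit 382) .nil))))))) (.g (nat_lit 6) .nil .nil))) 
(.lf (nat_lit 32057) (.g (nat_lit 2090) (.e (nat_lit 1201) (nat_lit 88) (.e (nat_lit 65617) (nat_lit 10) (.e (nat_lit 344096) (nat_lit 18) (.e (nat_lit 7266) (nat_lit 384) (.e (nat_lit 57426) (nat_lit 15) (.e (nat_lit 360450) (nat_lit 0) (.e (nat_lit 7122) (nat_lit 382) .nil))))))) (.g (nat_lit 4) .nil .nil))))) (.nd (nat_lit 3) (.nd (nat_lit 4) 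
(.lf (nat_lit 32037) (.g (nat_lit 2838) (.e (nat_lit 1201) (nat_lit 88) (.e (nat_lit 65617) (nat_lit 10) (.e (nat_lit 344096) (nat_lit 18) (.e (nat_lit 7261) (nat_lit 384) (.e (nat_lit 57428) (nat_lit 15) (.e (nat_lit 360449) (nat_lit 0) (.e (nat_lit 7125) (nat_lit 382) .nil))))))) (.g (nat_lit 5) .nil .nil))) 
(.lf (nat_lit 32053) (.g (nat_lit 3747) (.e (nat_lit 1201) (nat_lit 88) (.e (nat_lit 65617) (nat_lit 10) (.e (nat_lit 344096) (nat_lit 18) (.e (nat_lit 7265) (nat_lit 384) (.e (nat_lit 57427) (nat_lit 15) (.e (nat_lit 360449) (nat_lit 0) (.e (nat_lit 7125) (nat_lit 382) .nil))))))) (.g (nat_lit 7) .nil .nil)))) (.nd (nat_lit 4) 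
(.lf (nat_lit 32045) (.g (nat_lit 2023) (.e (nat_lit 1201) (nat_lit 88) (.e (nat_lit 65617) (nat_lit 10) (.e (nat_lit 344096) (nat_lit 18) (.e (nat_lit 7263) (nat_lit 384) (.e (nat_lit 57428) (nat_lit 15) (.e (nat_lit 360449) (nat_lit 0) (.e (nat_lit 7125) (nat_lit 382) .nil))))))) (.g (nat_lit 4) .nil .nil))) 
(.lf (nat_lit 32061) (.g (nat_lit 3139) (.e (nat_lit 1201) (nat_lit 88) (.e (nat_lit 65617) (nat_lit 10) (.e (nat_lit 344096) (nat_lit 18) (.e (nat_lit 7266) (nat_lit 384) (.e (nat_lit 57427) (nat_lit 15) (.e (nat_lit 360449) (nat_lit 0) (.e (nat_lit 7124) (nat_lit 382) .nil))))))) (.g (nat_lit 5) .nil .nil)))))) (.nd (nat_lit 2) (.nd (nat_lit 3) (.nd (nat_lit 4) 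
(.lf (nat_lit 32035) (.g (nat_lit 1846) (.e (nat_lit 1201) (nat_lit 88) (.e (nat_lit 65617) (nat_lit 10) (.e (nat_lit 344096) (nat_lit 18) (.e (nat_lit 7261) (nat_lit 384) (.e (nat_lit 57427) (nat_lit 15) (.e (nat_lit 368384) (nat_lit 0) (.e (nat_lit 7124) (nat_lit 382) .nil))))))) (.g (nat_lit 4) .nil .nil))) 
(.lf (nat_lit 32051) (.g (nat_lit 3348) (.e (nat_lit 1201) (nat_lit 88) (.e (nat_lit 65617) (nat_lit 10) (.e (nat_lit 344096) (nat_lit 18) (.e (nat_lit 7265) (nat_lit 384) (.e (nat_lit 57427) (nat_lit 15) (.e (nat_lit 360449) (nat_lit 0) (.e (nat_lit 7122) (nat_lit 382) .nil))))))) (.g (nat_lit 6) .nil .nil)))) (.nd (nat_lit 4) 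
(.lf (nat_lit 32043) (.g (nat_lit 4281) (.e (nat_lit 1201) (nat_lit 88) (.e (nat_lit 65617) (nat_lit 10) (.e (nat_lit 344096) (nat_lit 18) (.e (nat_lit 7263) (nat_lit 384) (.e (nat_lit 57427) (nat_lit 15) (.e (nat_lit 360451) (nat_lit 0) (.e (nat_lit 7122) (nat_lit 382) .nil))))))) (.g (nat_lit 0) .nil .nil))) 
(.lf (nat_lit 32059) (.g (nat_lit 4268) (.e (nat_lit 1201) (nat_lit 88) (.e (nat_lit 65617) (nat_lit 10) (.e (nat_lit 344096) (nat_lit 18) (.e (nat_lit 7266) (nat_lit 384) (.e (nat_lit 57426) (nat_lit 15) (.e (nat_lit 360451) (nat_lit 0) (.e (nat_lit 7125) (nat_lit 382) .nil))))))) (.g (nat_lit 7) .nil .nil))))) (.nd (nat_lit 3) (.nd (nat_lit 4) 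
(.lf (nat_lit 32039) (.g (nat_lit 2807) (.e (nat_lit 1201) (nat_lit 88) (.e (nat_lit 65617) (nat_lit 10) (.e (nat_lit 344096) (nat_lit 18) (.e (nat_lit 7263) (nat_lit 384) (.e (nat_lit 57427) (nat_lit 15) (.e (nat_lit 360449) (nat_lit 0) (.e (nat_lit 7122) (nat_lit 382) .nil))))))) (.g (nat_lit 5) .nil .nil))) 
(.lf (nat_lit 32055) (.g (nat_lit 4691) (.e (nat_lit 1201) (nat_lit 88) (.e (nat_lit 65617) (nat_lit 10) (.e (nat_lit 344096) (nat_lit 18) (.e (nat_lit 7265) (nat_lit 384) (.e (nat_lit 57427) (nat_lit 15) (.e (nat_lit 360451) (nat_lit 0) (.e (nat_lit 7125) (nat_lit 382) .nil))))))) (.g (nat_lit 0) .nil .nil)))) (.nd (nat_lit 4) 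
(.lf (nat_lit 32047) (.g (nat_lit 2663) (.e (nat_lit 1201) (nat_lit 88) (.e (nat_lit 65617) (nat_lit 10) (.e (nat_lit 344096) (nat_lit 18) (.e (nat_lit 7265) (nat_lit 384) (.e (nat_lit 57426) (nat_lit 15) (.e (nat_lit 360450) (nat_lit 0) (.e (nat_lit 7122) (nat_lit 382) .nil))))))) (.g (nat_lit 5) .nil .nil))) 
(.lf (nat_lit 32063) (.g (nat_lit 4517) (.e (nat_lit 1201) (nat_lit 88) (.e (nat_lit 65617) (nat_lit 10) (.e (nat_lit 344096) (nat_lit 18) (.e (nat_lit 7266) (nat_lit 384) (.e (nat_lit 57427) (nat_lit 15) (.e (nat_lit 360451) (nat_lit 0) (.e (nat_lit 7122) (nat_lit 382) .nil))))))) (.g (nat_lit 7) .nil .nil))))))))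

noncomputable def tv451 : DT := (.nd (nat_lit 0) (.nd (nat_lit 1) (.nd (nat_lit 2) (.nd (nat_lit 3) (.nd (nat_lit 4) (.nd (nat_lit 5) 
(.lf (nat_lit 32064) (.g (nat_lit 2690) (.e (nat_lit 1201) (nat_lit 88) (.e (nat_lit 65617) (nat_lit 10) (.e (nat_lit 344096) (nat_lit 18) (.e (nat_lit 7266) (nat_lit 384) (.e (nat_lit 57428) (nat_lit 15) (.e (nat_lit 360449) (nat_lit 0) (.e (nat_lit 7125) (nat_lit 382) .nil))))))) (.g (nat_lit 5) .nil .nil))) 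
(.lf (nat_lit 32096) (.g (nat_lit 2418) (.e (nat_lit 1201) (nat_lit 88) (.e (nat_lit 65617) (nat_lit 10) (.e (nat_lit 344161) (nat_lit 37) (.e (nat_lit 647195) (nat_lit 9) (.e (nat_lit 7936) (nat_lit 37) (.e (nat_lit 466972) (nat_lit 21) (.e (nat_lit 164297) (nat_lit 226) .nil))))))) (.g (nat_lit 4) .nil .nil)))) (.nd (nat_lit 5) 
(.lf (nat_lit 32080) (.g (nat_lit 647) (.e (nat_lit 1201) (nat_lit 88) (.e (nat_lit 65617) (nat_lit 10) (.e (nat_lit 344156) (nat_lit 36) .nil))) .nil)) 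
(.lf (nat_lit 32112) (.g (nat_lit 1341) (.e (nat_lit 1201) (nat_lit 88) (.e (nat_lit 65617) (nat_lit 10) (.e (nat_lit 344169) (nat_lit 40) (.e (nat_lit 671747) (nat_lit 0) (.e (nat_lit 1569) (nat_lit 110) .nil))))) .nil)))) (.nd (nat_lit 4) (.nd (nat_lit 5) 
(.lf (nat_lit 32072) (.g (nat_lit 2791) (.e (nat_lit 1201) (nat_lit 88) (.e (nat_lit 65617) (nat_lit 10) (.e (nat_lit 344097) (nat_lit 18) (.e (nat_lit 7270) (nat_lit 385) (.e (nat_lit 122919) (nat_lit 15) (.e (nat_lit 360451) (nat_lit 0) (.e (nat_lit 7122) (nat_lit 382) .nil))))))) (.g (nat_lit 4) .nil .nil))) 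
(.lf (nat_lit 32104) (.g (nat_lit 3093) (.e (nat_lit 1201) (nat_lit 88) (.e (nat_lit 65617) (nat_lit 10) (.e (nat_lit 344168) (nat_lit 40) (.e (nat_lit 671747) (nat_lit 0) (.e (nat_lit 1586) (nat_lit 111) (.e (nat_lit 360456) (nat_lit 0) (.e (nat_lit 5818) (nat_lit 320) .nil))))))) (.g (nat_lit 0) .nil .nil)))) (.nd (nat_lit 5) 
(.lf (nat_lit 32088) (.g (nat_lit 430) (.e (nat_lit 1201) (nat_lit 88) (.e (nat_lit 65617) (nat_lit 10) (.e (nat_lit 344157) (nat_lit 36) .nil))) .nil)) 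
(.lf (nat_lit 32120) (.g (nat_lit 2636) (.e (nat_lit 1201) (nat_lit 88) (.e (nat_lit 65617) (nat_lit 10) (.e (nat_lit 344169) (nat_lit 40) (.e (nat_lit 671748) (nat_lit 0) (.e (nat_lit 1572) (nat_lit 110) (.e (nat_lit 352318) (nat_lit 24) (.e (nat_lit 123183) (nat_lit 264) .nil))))))) (.g (nat_lit 4) .nil .nil)))))) (.nd (nat_lit 3) (.nd (nat_lit 4) (.nd (nat_lit 5) 
(.lf (nat_lit 32068) (.g (nat_lit 2805) (.e (nat_lit 1201) (nat_lit 88) (.e (nat_lit 65617) (nat_lit 10) (.e (nat_lit 344097) (nat_lit 18) (.e (nat_lit 5907) (nat_lit 320) (.e (nat_lit 1220) (nat_lit 90) (.e (nat_lit 81959) (nat_lit 24) (.e (nat_lit 123182) (nat_lit 264) .nil))))))) (.g (nat_lit 4) .nil .nil))) 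
(.lf (nat_lit 32100) (.g (nat_lit 468) (.e (nat_lit 1201) (nat_lit 88) (.e (nat_lit 65617) (nat_lit 10) (.e (nat_lit 344168) (nat_lit 40) .nil))) .nil))) (.nd (nat_lit 5) 
(.lf (nat_lit 32084) (.g (nat_lit 3034) (.e (nat_lit 1201) (nat_lit 88) (.e (nat_lit 65617) (nat_lit 10) (.e (nat_lit 344156) (nat_lit 36) (.e (nat_lit 638998) (nat_lit 8) (.e (nat_lit 172120) (nat_lit 12) (.e (nat_lit 475155) (nat_lit 21) (.e (nat_lit 6281) (nat_lit 337) .nil))))))) (.g (nat_lit 5) .nil .nil))) 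
(.lf (nat_lit 32116) (.g (nat_lit 1656) (.e (nat_lit 1201) (nat_lit 88) (.e (nat_lit 65617) (nat_lit 10) (.e (nat_lit 344169) (nat_lit 40) (.e (nat_lit 671747) (nat_lit 0) (.e (nat_lit 1599) (nat_lit 111) (.e (nat_lit 360456) (nat_lit 0) (.e (nat_lit 5818) (nat_lit 320) .nil))))))) (.g (nat_lit 4) .nil .nil))))) (.nd (nat_lit 4) (.nd (nat_lit 5) 
(.lf (nat_lit 32076) (.g (nat_lit 2529) (.e (nat_lit 1201) (nat_lit 88) (.e (nat_lit 65617) (nat_lit 10) (.e (nat_lit 344130) (nat_lit 26) (.e (nat_lit 557119) (nat_lit 18) (.e (nat_lit 2808) (nat_lit 180) (.e (nat_lit 303140) (nat_lit 10) (.e (nat_lit 434202) (nat_lit 18) (.e (nat_lit 6740) (nat_lit 365) .nil)))))))) (.g (nat_lit 4) .nil .nil))) 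
(.lf (nat_lit 32108) (.g (nat_lit 972) (.e (nat_lit 1201) (nat_lit 88) (.e (nat_lit 65617) (nat_lit 10) (.e (nat_lit 344168) (nat_lit 40) (.e (nat_lit 671748) (nat_lit 0) .nil)))) .nil))) (.nd (nat_lit 5) 
(.lf (nat_lit 32092) (.g (nat_lit 1974) (.e (nat_lit 1201) (nat_lit 88) (.e (nat_lit 65617) (nat_lit 10) (.e (nat_lit 344157) (nat_lit 36) (.e (nat_lit 638986) (nat_lit 5) (.e (nat_lit 3015) (nat_lit 187) (.e (nat_lit 450560) (nat_lit 0) (.e (nat_lit 5071) (nat_lit 292) .nil))))))) (.g (nat_lit 5) .nil .nil))) 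
(.lf (nat_lit 32124) (.g (nat_lit 2694) (.e (nat_lit 1201) (nat_lit 88) (.e (nat_lit 65617) (nat_lit 10) (.e (nat_lit 344169) (nat_lit 40) (.e (nat_lit 671762) (nat_lit 4) (.e (nat_lit 65598) (nat_lit 9) (.e (nat_lit 336032) (nat_lit 4) (.e (nat_lit 123184) (nat_lit 264) .nil))))))) (.g (nat_lit 5) .nil .nil))))))) (.nd (nat_lit 2) (.nd (nat_lit 3) (.nd (nat_lit 4) (.nd (nat_lit 5) 
(.lf (nat_lit 32066) (.g (nat_lit 1407) (.e (nat_lit 1201) (nat_lit 88) (.e (nat_lit 65617) (nat_lit 10) (.e (nat_lit 344097) (nat_lit 18) (.e (nat_lit 5906) (nat_lit 320) .nil)))) .nil)) 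
(.lf (nat_lit 32098) (.g (nat_lit 1419) (.e (nat_lit 1201) (nat_lit 88) (.e (nat_lit 65617) (nat_lit 10) (.e (nat_lit 344167) (nat_lit 40) (.e (nat_lit 671748) (nat_lit 0) (.e (nat_lit 1595) (nat_lit 111) (.e (nat_lit 360457) (nat_lit 0) (.e (nat_lit 5818) (nat_lit 320) .nil))))))) (.g (nat_lit 4) .nil .nil)))) (.nd (nat_lit 5) 
(.lf (nat_lit 32082) (.g (nat_lit 1817) (.e (nat_lit 1201) (nat_lit 88) (.e (nat_lit 65617) (nat_lit 10) (.e (nat_lit 344156) (nat_lit 36) (.e (nat_lit 638998) (nat_lit 8) (.e (nat_lit 172097) (nat_lit 9) .nil))))) .nil)) 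
(.lf (nat_lit 32114) (.g (nat_lit 2836) (.e (nat_lit 1201) (nat_lit 88) (.e (nat_lit 65617) (nat_lit 10) (.e (nat_lit 344169) (nat_lit 40) (.e (nat_lit 671747) (nat_lit 0) (.e (nat_lit 1595) (nat_lit 111) (.e (nat_lit 360457) (nat_lit 0) (.e (nat_lit 5818) (nat_lit 320) .nil))))))) (.g (nat_lit 7) .nil .nil))))) (.nd (nat_lit 4) (.nd (nat_lit 5) 
(.lf (nat_lit 32074) (.g (nat_lit 1391) (.e (nat_lit 1201) (nat_lit 88) (.e (nat_lit 65617) (nat_lit 10) (.e (nat_lit 344097) (nat_lit 18) (.e (nat_lit 7273) (nat_lit 385) .nil)))) .nil)) 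
(.lf (nat_lit 32106) (.g (nat_lit 2164) (.e (nat_lit 1201) (nat_lit 88) (.e (nat_lit 65617) (nat_lit 10) (.e (nat_lit 344168) (nat_lit 40) (.e (nat_lit 671747) (nat_lit 0) (.e (nat_lit 1598) (nat_lit 111) (.e (nat_lit 360456) (nat_lit 0) (.e (nat_lit 5818) (nat_lit 320) .nil))))))) (.g (nat_lit 5) .nil .nil)))) (.nd (nat_lit 5) 
(.lf (nat_lit 32090) (.g (nat_lit 1979) (.e (nat_lit 1201) (nat_lit 88) (.e (nat_lit 65617) (nat_lit 10) (.e (nat_lit 344157) (nat_lit 36) (.e (nat_lit 638985) (nat_lit 5) (.e (nat_lit 3015) (nat_lit 187) (.e (nat_lit 450560) (nat_lit 0) (.e (nat_lit 5071) (nat_lit 292) .nil))))))) (.g (nat_lit 5) .nil .nil))) 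
(.lf (nat_lit 32122) (.g (nat_lit 2843) (.e (nat_lit 1201) (nat_lit 88) (.e (nat_lit 65617) (nat_lit 10) (.e (nat_lit 344169) (nat_lit 40) (.e (nat_lit 671748) (nat_lit 0) (.e (nat_lit 1589) (nat_lit 111) (.e (nat_lit 360457) (nat_lit 0) (.e (nat_lit 5818) (nat_lit 320) .nil))))))) (.g (nat_lit 5) .nil .nil)))))) (.nd (nat_lit 3) (.nd (nat_lit 4) (.nd (nat_lit 5) 
(.lf (nat_lit 32070) (.g (nat_lit 2417) (.e (nat_lit 1201) (nat_lit 88) (.e (nat_lit 65617) (nat_lit 10) (.e (nat_lit 344097) (nat_lit 18) (.e (nat_lit 7270) (nat_lit 385) (.e (nat_lit 122919) (nat_lit 15) .nil))))) .nil)) 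
(.lf (nat_lit 32102) (.g (nat_lit 1024) (.e (nat_lit 1201) (nat_lit 88) (.e (nat_lit 65617) (nat_lit 10) (.e (nat_lit 344168) (nat_lit 40) (.e (nat_lit 671747) (nat_lit 0) .nil)))) .nil))) (.nd (nat_lit 5) 
(.lf (nat_lit 32086) (.g (nat_lit 2786) (.e (nat_lit 1201) (nat_lit 88) (.e (nat_lit 65617) (nat_lit 10) (.e (nat_lit 344156) (nat_lit 36) (.e (nat_lit 638998) (nat_lit 8) (.e (nat_lit 172120) (nat_lit 12) (.e (nat_lit 475155) (nat_lit 21) (.e (nat_lit 6288) (nat_lit 337) .nil))))))) (.g (nat_lit 5) .nil .nil))) 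
(.lf (nat_lit 32118) (.g (nat_lit 2613) (.e (nat_lit 1201) (nat_lit 88) (.e (nat_lit 65617) (nat_lit 10) (.e (nat_lit 344169) (nat_lit 40) (.e (nat_lit 671748) (nat_lit 0) (.e (nat_lit 1562) (nat_lit 110) (.e (nat_lit 352318) (nat_lit 24) (.e (nat_lit 123184) (nat_lit 264) .nil))))))) (.g (nat_lit 5) .nil .nil))))) (.nd (nat_lit 4) (.nd (nat_lit 5) 
(.lf (nat_lit 32078) (.g (nat_lit 2443) (.e (nat_lit 1201) (nat_lit 88) (.e (nat_lit 65617) (nat_lit 10) (.e (nat_lit 344133) (nat_lit 26) (.e (nat_lit 557119) (nat_lit 18) (.e (nat_lit 2798) (nat_lit 180) (.e (nat_lit 303143) (nat_lit 12) (.e (nat_lit 475155) (nat_lit 21) (.e (nat_lit 4557) (nat_lit 269) .nil)))))))) (.g (nat_lit 4) .nil .nil))) 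
(.lf (nat_lit 32110) (.g (nat_lit 1022) (.e (nat_lit 1201) (nat_lit 88) (.e (nat_lit 65617) (nat_lit 10) (.e (nat_lit 344169) (nat_lit 40) (.e (nat_lit 671746) (nat_lit 0) .nil)))) .nil))) (.nd (nat_lit 5) 
(.lf (nat_lit 32094) (.g (nat_lit 1611) (.e (nat_lit 1201) (nat_lit 88) (.e (nat_lit 65617) (nat_lit 10) (.e (nat_lit 344161) (nat_lit 37) (.e (nat_lit 647195) (nat_lit 9) (.e (nat_lit 7936) (nat_lit 35) .nil))))) .nil)) 
(.lf (nat_lit 32126) (.g (nat_lit 2052) (.e (nat_lit 1201) (nat_lit 88) (.e (nat_lit 65617) (nat_lit 10) (.e (nat_lit 344169) (nat_lit 40) (.e (nat_lit 671764) (nat_lit 6) (.e (nat_lit 81957) (nat_lit 24) (.e (nat_lit 123183) (nat_lit 264) .nil)))))) (.g (nat_lit 4) .nil .nil)))))))) (.nd (nat_lit 1) (.nd (nat_lit 2) (.nd (nat_lit 3) (.nd (nat_lit 4) (.nd (nat_lit 5) 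
(.lf (nat_lit 32065) (.g (nat_lit 1344) (.e (nat_lit 1201) (nat_lit 88) (.e (nat_lit 65617) (nat_lit 10) (.e (nat_lit 344097) (nat_lit 18) (.e (nat_lit 5905) (nat_lit 320) .nil)))) .nil)) 
(.lf (nat_lit 32097) (.g (nat_lit 496) (.e (nat_lit 1201) (nat_lit 88) (.e (nat_lit 65617) (nat_lit 10) (.e (nat_lit 344167) (nat_lit 40) .nil))) .nil))) (.nd (nat_lit 5) 
(.lf (nat_lit 32081) (.g (nat_lit 1374) (.e (nat_lit 1201) (nat_lit 88) (.e (nat_lit 65617) (nat_lit 10) (.e (nat_lit 344156) (nat_lit 36) (.e (nat_lit 638985) (nat_lit 5) (.e (nat_lit 3015) (nat_lit 187) .nil))))) .nil)) 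
(.lf (nat_lit 32113) (.g (nat_lit 2897) (.e (nat_lit 1201) (nat_lit 88) (.e (nat_lit 65617) (nat_lit 10) (.e (nat_lit 344169) (nat_lit 40) (.e (nat_lit 671747) (nat_lit 0) (.e (nat_lit 1586) (nat_lit 111) (.e (nat_lit 360456) (nat_lit 0) (.e (nat_lit 5818) (nat_lit 320) .nil))))))) (.g (nat_lit 0) .nil .nil))))) (.nd (nat_lit 4) (.nd (nat_lit 5) 
(.lf (nat_lit 32073) (.g (nat_lit 3795) (.e (nat_lit 1201) (nat_lit 88) (.e (nat_lit 65617) (nat_lit 10) (.e (nat_lit 344097) (nat_lit 18) (.e (nat_lit 7270) (nat_lit 385) (.e (nat_lit 122919) (nat_lit 15) (.e (nat_lit 360451) (nat_lit 0) (.e (nat_lit 7124) (nat_lit 382) .nil))))))) (.g (nat_lit 6) .nil .nil))) 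
(.lf (nat_lit 32105) (.g (nat_lit 3055) (.e (nat_lit 1201) (nat_lit 88) (.e (nat_lit 65617) (nat_lit 10) (.e (nat_lit 344168) (nat_lit 40) (.e (nat_lit 671747) (nat_lit 0) (.e (nat_lit 1595) (nat_lit 111) (.e (nat_lit 360457) (nat_lit 0) (.e (nat_lit 5818) (nat_lit 320) .nil))))))) (.g (nat_lit 7) .nil .nil)))) (.nd (nat_lit 5) 
(.lf (nat_lit 32089) (.g (nat_lit 1940) (.e (nat_lit 1201) (nat_lit 88) (.e (nat_lit 65617) (nat_lit 10) (.e (nat_lit 344157) (nat_lit 36) (.e (nat_lit 638985) (nat_lit 5) (.e (nat_lit 3015) (nat_lit 187) (.e (nat_lit 450560) (nat_lit 0) (.e (nat_lit 5060) (nat_lit 292) .nil))))))) (.g (nat_lit 5) .nil .nil))) 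
(.lf (nat_lit 32121) (.g (nat_lit 1878) (.e (nat_lit 1201) (nat_lit 88) (.e (nat_lit 65617) (nat_lit 10) (.e (nat_lit 344169) (nat_lit 40) (.e (nat_lit 671748) (nat_lit 0) (.e (nat_lit 1586) (nat_lit 111) (.e (nat_lit 360456) (nat_lit 0) (.e (nat_lit 5817) (nat_lit 320) .nil))))))) (.g (nat_lit 4) .nil .nil)))))) (.nd (nat_lit 3) (.nd (nat_lit 4) (.nd (nat_lit 5) 
(.lf (nat_lit 32069) (.g (nat_lit 2234) (.e (nat_lit 1201) (nat_lit 88) (.e (nat_lit 65617) (nat_lit 10) (.e (nat_lit 344097) (nat_lit 18) (.e (nat_lit 5907) (nat_lit 320) (.e (nat_lit 1221) (nat_lit 90) .nil))))) .nil)) 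
(.lf (nat_lit 32101) (.g (nat_lit 1915) (.e (nat_lit 1201) (nat_lit 88) (.e (nat_lit 65617) (nat_lit 10) (.e (nat_lit 344168) (nat_lit 40) (.e (nat_lit 671746) (nat_lit 0) (.e (nat_lit 1586) (nat_lit 111) (.e (nat_lit 360456) (nat_lit 0) (.e (nat_lit 5818) (nat_lit 320) .nil))))))) (.g (nat_lit 5) .nil .nil)))) (.nd (nat_lit 5) 
(.lf (nat_lit 32085) (.g (nat_lit 2874) (.e (nat_lit 1201) (nat_lit 88) (.e (nat_lit 65617) (nat_lit 10) (.e (nat_lit 344156) (nat_lit 36) (.e (nat_lit 638998) (nat_lit 8) (.e (nat_lit 172120) (nat_lit 12) (.e (nat_lit 475155) (nat_lit 21) (.e (nat_lit 6282) (nat_lit 337) .nil))))))) (.g (nat_lit 5) .nil .nil))) 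
(.lf (nat_lit 32117) (.g (nat_lit 2251) (.e (nat_lit 1201) (nat_lit 88) (.e (nat_lit 65617) (nat_lit 10) (.e (nat_lit 344169) (nat_lit 40) (.e (nat_lit 671748) (nat_lit 0) (.e (nat_lit 1562) (nat_lit 110) (.e (nat_lit 352318) (nat_lit 24) (.e (nat_lit 123183) (nat_lit 264) .nil))))))) (.g (nat_lit 4) .nil .nil))))) (.nd (nat_lit 4) (.nd (nat_lit 5) 
(.lf (nat_lit 32077) (.g (nat_lit 2985) (.e (nat_lit 1201) (nat_lit 88) (.e (nat_lit 65617) (nat_lit 10) (.e (nat_lit 344133) (nat_lit 26) (.e (nat_lit 557119) (nat_lit 18) (.e (nat_lit 2798) (nat_lit 180) (.e (nat_lit 303140) (nat_lit 10) (.e (nat_lit 434202) (nat_lit 18) (.e (nat_lit 6740) (nat_lit 365) .nil)))))))) (.g (nat_lit 5) .nil .nil))) 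
(.lf (nat_lit 32109) (.g (nat_lit 905) (.e (nat_lit 1201) (nat_lit 88) (.e (nat_lit 65617) (nat_lit 10) (.e (nat_lit 344168) (nat_lit 40) (.e (nat_lit 671762) (nat_lit 4) .nil)))) .nil))) (.nd (nat_lit 5) 
(.lf (nat_lit 32093) (.g (nat_lit 1547) (.e (nat_lit 1201) (nat_lit 88) (.e (nat_lit 65617) (nat_lit 10) (.e (nat_lit 344157) (nat_lit 36) (.e (nat_lit 639001) (nat_lit 10) (.e (nat_lit 188455) (nat_lit 24) (.e (nat_lit 229629) (nat_lit 226) .nil)))))) (.g (nat_lit 4) .nil .nil))) 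
(.lf (nat_lit 32125) (.g (nat_lit 2169) (.e (nat_lit 1201) (nat_lit 88) (.e (nat_lit 65617) (nat_lit 10) (.e (nat_lit 344169) (nat_lit 40) (.e (nat_lit 671762) (nat_lit 4) (.e (nat_lit 65599) (nat_lit 9) (.e (nat_lit 336032) (nat_lit 4) (.e (nat_lit 123184) (nat_lit 264) .nil))))))) (.g (nat_lit 4) .nil .nil))))))) (.nd (nat_lit 2) (.nd (nat_lit 3) (.nd (nat_lit 4) (.nd (nat_lit 5) 
(.lf (nat_lit 32067) (.g (nat_lit 1995) (.e (nat_lit 1201) (nat_lit 88) (.e (nat_lit 65617) (nat_lit 10) (.e (nat_lit 344097) (nat_lit 18) (.e (nat_lit 5906) (nat_lit 320) (.e (nat_lit 1221) (nat_lit 90) .nil))))) .nil)) 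
(.lf (nat_lit 32099) (.g (nat_lit 1346) (.e (nat_lit 1201) (nat_lit 88) (.e (nat_lit 65617) (nat_lit 10) (.e (nat_lit 344167) (nat_lit 40) (.e (nat_lit 671764) (nat_lit 6) (.e (nat_lit 81957) (nat_lit 24) (.e (nat_lit 123185) (nat_lit 264) .nil)))))) (.g (nat_lit 4) .nil .nil)))) (.nd (nat_lit 5) 
(.lf (nat_lit 32083) (.g (nat_lit 2813) (.e (nat_lit 1201) (nat_lit 88) (.e (nat_lit 65617) (nat_lit 10) (.e (nat_lit 344156) (nat_lit 36) (.e (nat_lit 638998) (nat_lit 8) (.e (nat_lit 172120) (nat_lit 12) (.e (nat_lit 475155) (nat_lit 21) (.e (nat_lit 6278) (nat_lit 337) .nil))))))) (.g (nat_lit 5) .nil .nil))) 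
(.lf (nat_lit 32115) (.g (nat_lit 2002) (.e (nat_lit 1201) (nat_lit 88) (.e (nat_lit 65617) (nat_lit 10) (.e (nat_lit 344169) (nat_lit 40) (.e (nat_lit 671747) (nat_lit 0) (.e (nat_lit 1598) (nat_lit 111) (.e (nat_lit 360456) (nat_lit 0) (.e (nat_lit 5818) (nat_lit 320) .nil))))))) (.g (nat_lit 5) .nil .nil))))) (.nd (nat_lit 4) (.nd (nat_lit 5) 
(.lf (nat_lit 32075) (.g (nat_lit 2702) (.e (nat_lit 1201) (nat_lit 88) (.e (nat_lit 65617) (nat_lit 10) (.e (nat_lit 344130) (nat_lit 26) (.e (nat_lit 557119) (nat_lit 18) (.e (nat_lit 2798) (nat_lit 180) (.e (nat_lit 303140) (nat_lit 10) (.e (nat_lit 434202) (nat_lit 18) (.e (nat_lit 6740) (nat_lit 365) .nil)))))))) (.g (nat_lit 5) .nil .nil))) 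
(.lf (nat_lit 32107) (.g (nat_lit 1821) (.e (nat_lit 1201) (nat_lit 88) (.e (nat_lit 65617) (nat_lit 10) (.e (nat_lit 344168) (nat_lit 40) (.e (nat_lit 671747) (nat_lit 0) (.e (nat_lit 1599) (nat_lit 111) (.e (nat_lit 360456) (nat_lit 0) (.e (nat_lit 5818) (nat_lit 320) .nil))))))) (.g (nat_lit 4) .nil .nil)))) (.nd (nat_lit 5) 
(.lf (nat_lit 32091) (.g (nat_lit 1935) (.e (nat_lit 1201) (nat_lit 88) (.e (nat_lit 65617) (nat_lit 10) (.e (nat_lit 344157) (nat_lit 36) (.e (nat_lit 638986) (nat_lit 5) (.e (nat_lit 3015) (nat_lit 187) (.e (nat_lit 450560) (nat_lit 0) (.e (nat_lit 5060) (nat_lit 292) .nil))))))) (.g (nat_lit 5) .nil .nil))) 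
(.lf (nat_lit 32123) (.g (nat_lit 804) (.e (nat_lit 1201) (nat_lit 88) (.e (nat_lit 65617) (nat_lit 10) (.e (nat_lit 344169) (nat_lit 40) (.e (nat_lit 671762) (nat_lit 4) .nil)))) .nil))))) (.nd (nat_lit 3) (.nd (nat_lit 4) (.nd (nat_lit 5) 
(.lf (nat_lit 32071) (.g (nat_lit 2796) (.e (nat_lit 1201) (nat_lit 88) (.e (nat_lit 65617) (nat_lit 10) (.e (nat_lit 344097) (nat_lit 18) (.e (nat_lit 7270) (nat_lit 385) (.e (nat_lit 122919) (nat_lit 15) (.e (nat_lit 360450) (nat_lit 0) (.e (nat_lit 7125) (nat_lit 382) .nil))))))) (.g (nat_lit 4) .nil .nil))) 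
(.lf (nat_lit 32103) (.g (nat_lit 2332) (.e (nat_lit 1201) (nat_lit 88) (.e (nat_lit 65617) (nat_lit 10) (.e (nat_lit 344168) (nat_lit 40) (.e (nat_lit 671747) (nat_lit 0) (.e (nat_lit 1572) (nat_lit 110) (.e (nat_lit 352318) (nat_lit 24) (.e (nat_lit 123184) (nat_lit 264) .nil))))))) (.g (nat_lit 4) .nil .nil)))) (.nd (nat_lit 5) 
(.lf (nat_lit 32087) (.g (nat_lit 3111) (.e (nat_lit 1201) (nat_lit 88) (.e (nat_lit 65617) (nat_lit 10) (.e (nat_lit 344156) (nat_lit 36) (.e (nat_lit 638998) (nat_lit 8) (.e (nat_lit 172120) (nat_lit 12) (.e (nat_lit 475155) (nat_lit 21) (.e (nat_lit 6294) (nat_lit 337) .nil))))))) (.g (nat_lit 5) .nil .nil))) 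
(.lf (nat_lit 32119) (.g (nat_lit 1721) (.e (nat_lit 1201) (nat_lit 88) (.e (nat_lit 65617) (nat_lit 10) (.e (nat_lit 344169) (nat_lit 40) (.e (nat_lit 671748) (nat_lit 0) (.e (nat_lit 1569) (nat_lit 110) (.e (nat_lit 352318) (nat_lit 24) (.e (nat_lit 123185) (nat_lit 264) .nil))))))) (.g (nat_lit 4) .nil .nil))))) (.nd (nat_lit 4) (.nd (nat_lit 5) 
(.lf (nat_lit 32079) (.g (nat_lit 2758) (.e (nat_lit 1201) (nat_lit 88) (.e (nat_lit 65617) (nat_lit 10) (.e (nat_lit 344133) (nat_lit 26) (.e (nat_lit 557119) (nat_lit 18) (.e (nat_lit 2808) (nat_lit 180) (.e (nat_lit 303140) (nat_lit 10) (.e (nat_lit 434202) (nat_lit 18) (.e (nat_lit 6740) (nat_lit 365) .nil)))))))) (.g (nat_lit 4) .nil .nil))) 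
(.lf (nat_lit 32111) (.g (nat_lit 2405) (.e (nat_lit 1201) (nat_lit 88) (.e (nat_lit 65617) (nat_lit 10) (.e (nat_lit 344169) (nat_lit 40) (.e (nat_lit 671746) (nat_lit 0) (.e (nat_lit 1586) (nat_lit 111) (.e (nat_lit 360456) (nat_lit 0) (.e (nat_lit 5818) (nat_lit 320) .nil))))))) (.g (nat_lit 6) .nil .nil)))) (.nd (nat_lit 5) 
(.lf (nat_lit 32095) (.g (nat_lit 2386) (.e (nat_lit 1201) (nat_lit 88) (.e (nat_lit 65617) (nat_lit 10) (.e (nat_lit 344161) (nat_lit 37) (.e (nat_lit 647195) (nat_lit 9) (.e (nat_lit 7936) (nat_lit 35) (.e (nat_lit 450568) (nat_lit 0) (.e (nat_lit 5072) (nat_lit 292) .nil))))))) (.g (nat_lit 4) .nil .nil))) 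
(.lf (nat_lit 32127) (.g (nat_lit 1954) (.e (nat_lit 1201) (nat_lit 88) (.e (nat_lit 65617) (nat_lit 10) (.e (nat_lit 344169) (nat_lit 40) (.e (nat_lit 671764) (nat_lit 6) (.e (nat_lit 81959) (nat_lit 24) (.e (nat_lit 123183) (nat_lit 264) .nil)))))) (.g (nat_lit 4) .nil .nil)))))))))

noncomputable def tv452 : DT := (.nd (nat_lit 0) (.nd (nat_lit 1) (.nd (nat_lit 2) (.nd (nat_lit 3) (.nd (nat_lit 4) (.nd (nat_lit 5) 
(.lf (nat_lit 32128) (.g (nat_lit 1813) (.e (nat_lit 1201) (nat_lit 88) (.e (nat_lit 65617) (nat_lit 10) (.e (nat_lit 344173) (nat_lit 42) (.e (nat_lit 761869) (nat_lit 5) (.e (nat_lit 1582) (nat_lit 111) (.e (nat_lit 360451) (nat_lit 0) (.e (nat_lit 7124) (nat_lit 382) .nil))))))) (.g (nat_lit 4) .nil .nil))) 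
(.lf (nat_lit 32160) (.g (nat_lit 2104) (.e (nat_lit 1201) (nat_lit 88) (.e (nat_lit 65617) (nat_lit 10) (.e (nat_lit 344176) (nat_lit 43) (.e (nat_lit 770071) (nat_lit 8) (.e (nat_lit 65617) (nat_lit 10) (.e (nat_lit 344096) (nat_lit 18) (.e (nat_lit 7124) (nat_lit 382) .nil))))))) (.g (nat_lit 4) .nil .nil)))) (.nd (nat_lit 5) 
(.lf (nat_lit 32144) (.g (nat_lit 2412) (.e (nat_lit 1201) (nat_lit 88) (.e (nat_lit 65617) (nat_lit 10) (.e (nat_lit 344175) (nat_lit 43) (.e (nat_lit 770058) (nat_lit 5) (.e (nat_lit 1589) (nat_lit 111) (.e (nat_lit 360449) (nat_lit 0) (.e (nat_lit 7122) (nat_lit 382) .nil))))))) (.g (nat_lit 5) .nil .nil))) 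
(.lf (nat_lit 32176) (.g (nat_lit 3466) (.e (nat_lit 1201) (nat_lit 88) (.e (nat_lit 65617) (nat_lit 10) (.e (nat_lit 344177) (nat_lit 43) (.e (nat_lit 770057) (nat_lit 5) (.e (nat_lit 1589) (nat_lit 111) (.e (nat_lit 360449) (nat_lit 0) (.e (nat_lit 7122) (nat_lit 382) .nil))))))) (.g (nat_lit 7) .nil .nil))))) (.nd (nat_lit 4) (.nd (nat_lit 5) 
(.lf (nat_lit 32136) (.g (nat_lit 1980) (.e (nat_lit 1201) (nat_lit 88) (.e (nat_lit 65617) (nat_lit 10) (.e (nat_lit 344174) (nat_lit 42) (.e (nat_lit 761866) (nat_lit 5) (.e (nat_lit 1591) (nat_lit 111) (.e (nat_lit 360449) (nat_lit 0) (.e (nat_lit 7125) (nat_lit 382) .nil))))))) (.g (nat_lit 4) .nil .nil))) 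
(.lf (nat_lit 32168) (.g (nat_lit 2367) (.e (nat_lit 1201) (nat_lit 88) (.e (nat_lit 65617) (nat_lit 10) (.e (nat_lit 344176) (nat_lit 43) (.e (nat_lit 770072) (nat_lit 8) (.e (nat_lit 65617) (nat_lit 10) (.e (nat_lit 344096) (nat_lit 18) (.e (nat_lit 7124) (nat_lit 382) .nil))))))) (.g (nat_lit 4) .nil .nil)))) (.nd (nat_lit 5) 
(.lf (nat_lit 32152) (.g (nat_lit 3090) (.e (nat_lit 1201) (nat_lit 88) (.e (nat_lit 65617) (nat_lit 10) (.e (nat_lit 344175) (nat_lit 43) (.e (nat_lit 770072) (nat_lit 8) (.e (nat_lit 65617) (nat_lit 10) (.e (nat_lit 344091) (nat_lit 18) (.e (nat_lit 7124) (nat_lit 382) .nil))))))) (.g (nat_lit 6) .nil .nil))) 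
(.lf (nat_lit 32184) (.g (nat_lit 1948) (.e (nat_lit 1201) (nat_lit 88) (.e (nat_lit 65617) (nat_lit 10) (.e (nat_lit 344177) (nat_lit 43) (.e (nat_lit 770058) (nat_lit 5) (.e (nat_lit 1599) (nat_lit 111) (.e (nat_lit 360449) (nat_lit 0) (.e (nat_lit 7125) (nat_lit 382) .nil))))))) (.g (nat_lit 4) .nil .nil)))))) (.nd (nat_lit 3) (.nd (nat_lit 4) (.nd (nat_lit 5) 
(.lf (nat_lit 32132) (.g (nat_lit 2431) (.e (nat_lit 1201) (nat_lit 88) (.e (nat_lit 65617) (nat_lit 10) (.e (nat_lit 344174) (nat_lit 42) (.e (nat_lit 761866) (nat_lit 5) (.e (nat_lit 1454) (nat_lit 108) (.e (nat_lit 336176) (nat_lit 10) (.e (nat_lit 344095) (nat_lit 18) (.e (nat_lit 7122) (nat_lit 382) .nil)))))))) (.g (nat_lit 5) .nil .nil))) 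
(.lf (nat_lit 32164) (.g (nat_lit 2211) (.e (nat_lit 1201) (nat_lit 88) (.e (nat_lit 65617) (nat_lit 10) (.e (nat_lit 344176) (nat_lit 43) (.e (nat_lit 770072) (nat_lit 8) (.e (nat_lit 65617) (nat_lit 10) (.e (nat_lit 344091) (nat_lit 18) (.e (nat_lit 7124) (nat_lit 382) .nil))))))) (.g (nat_lit 4) .nil .nil)))) (.nd (nat_lit 5) 
(.lf (nat_lit 32148) (.g (nat_lit 2357) (.e (nat_lit 1201) (nat_lit 88) (.e (nat_lit 65617) (nat_lit 10) (.e (nat_lit 344175) (nat_lit 43) (.e (nat_lit 770071) (nat_lit 8) (.e (nat_lit 65617) (nat_lit 10) (.e (nat_lit 344091) (nat_lit 18) (.e (nat_lit 7124) (nat_lit 382) .nil))))))) (.g (nat_lit 5) .nil .nil))) 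
(.lf (nat_lit 32180) (.g (nat_lit 1979) (.e (nat_lit 1201) (nat_lit 88) (.e (nat_lit 65617) (nat_lit 10) (.e (nat_lit 344177) (nat_lit 43) (.e (nat_lit 770057) (nat_lit 5) (.e (nat_lit 1599) (nat_lit 111) (.e (nat_lit 360451) (nat_lit 0) (.e (nat_lit 7124) (nat_lit 382) .nil))))))) (.g (nat_lit 4) .nil .nil))))) (.nd (nat_lit 4) (.nd (nat_lit 5) 
(.lf (nat_lit 32140) (.g (nat_lit 2263) (.e (nat_lit 1201) (nat_lit 88) (.e (nat_lit 65617) (nat_lit 10) (.e (nat_lit 344174) (nat_lit 42) (.e (nat_lit 761867) (nat_lit 5) (.e (nat_lit 1454) (nat_lit 108) (.e (nat_lit 336176) (nat_lit 10) (.e (nat_lit 344095) (nat_lit 18) (.e (nat_lit 7122) (nat_lit 382) .nil)))))))) (.g (nat_lit 5) .nil .nil))) 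
(.lf (nat_lit 32172) (.g (nat_lit 2474) (.e (nat_lit 1201) (nat_lit 88) (.e (nat_lit 65617) (nat_lit 10) (.e (nat_lit 344177) (nat_lit 43) (.e (nat_lit 770055) (nat_lit 5) (.e (nat_lit 1589) (nat_lit 111) (.e (nat_lit 360449) (nat_lit 0) (.e (nat_lit 7124) (nat_lit 382) .nil))))))) (.g (nat_lit 6) .nil .nil)))) (.nd (nat_lit 5) 
(.lf (nat_lit 32156) (.g (nat_lit 2571) (.e (nat_lit 1201) (nat_lit 88) (.e (nat_lit 65617) (nat_lit 10) (.e (nat_lit 344175) (nat_lit 43) (.e (nat_lit 770072) (nat_lit 8) (.e (nat_lit 65619) (nat_lit 10) (.e (nat_lit 344090) (nat_lit 18) (.e (nat_lit 7124) (nat_lit 382) .nil))))))) (.g (nat_lit 5) .nil .nil))) 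
(.lf (nat_lit 32188) (.g (nat_lit 3145) (.e (nat_lit 1201) (nat_lit 88) (.e (nat_lit 65617) (nat_lit 10) (.e (nat_lit 344177) (nat_lit 43) (.e (nat_lit 770071) (nat_lit 8) (.e (nat_lit 65619) (nat_lit 10) (.e (nat_lit 344090) (nat_lit 18) (.e (nat_lit 7124) (nat_lit 382) .nil))))))) (.g (nat_lit 6) .nil .nil))))))) (.nd (nat_lit 2) (.nd (nat_lit 3) (.nd (nat_lit 4) (.nd (nat_lit 5) 
(.lf (nat_lit 32130) (.g (nat_lit 2636) (.e (nat_lit 1201) (nat_lit 88) (.e (nat_lit 65617) (nat_lit 10) (.e (nat_lit 344174) (nat_lit 42) (.e (nat_lit 761866) (nat_lit 5) (.e (nat_lit 1454) (nat_lit 108) (.e (nat_lit 336176) (nat_lit 10) (.e (nat_lit 344091) (nat_lit 18) (.e (nat_lit 7124) (nat_lit 382) .nil)))))))) (.g (nat_lit 6) .nil .nil))) 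
(.lf (nat_lit 32162) (.g (nat_lit 2108) (.e (nat_lit 1201) (nat_lit 88) (.e (nat_lit 65617) (nat_lit 10) (.e (nat_lit 344176) (nat_lit 43) (.e (nat_lit 770072) (nat_lit 8) (.e (nat_lit 65610) (nat_lit 10) (.e (nat_lit 344090) (nat_lit 18) (.e (nat_lit 7124) (nat_lit 382) .nil))))))) (.g (nat_lit 4) .nil .nil)))) (.nd (nat_lit 5) 
(.lf (nat_lit 32146) (.g (nat_lit 2468) (.e (nat_lit 1201) (nat_lit 88) (.e (nat_lit 65617) (nat_lit 10) (.e (nat_lit 344175) (nat_lit 43) (.e (nat_lit 770058) (nat_lit 5) (.e (nat_lit 1589) (nat_lit 111) (.e (nat_lit 360451) (nat_lit 0) (.e (nat_lit 7124) (nat_lit 382) .nil))))))) (.g (nat_lit 5) .nil .nil))) 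
(.lf (nat_lit 32178) (.g (nat_lit 3526) (.e (nat_lit 1201) (nat_lit 88) (.e (nat_lit 65617) (nat_lit 10) (.e (nat_lit 344177) (nat_lit 43) (.e (nat_lit 770057) (nat_lit 5) (.e (nat_lit 1589) (nat_lit 111) (.e (nat_lit 360451) (nat_lit 0) (.e (nat_lit 7124) (nat_lit 382) .nil))))))) (.g (nat_lit 7) .nil .nil))))) (.nd (nat_lit 4) (.nd (nat_lit 5) 
(.lf (nat_lit 32138) (.g (nat_lit 2863) (.e (nat_lit 1201) (nat_lit 88) (.e (nat_lit 65617) (nat_lit 10) (.e (nat_lit 344174) (nat_lit 42) (.e (nat_lit 761866) (nat_lit 5) (.e (nat_lit 1597) (nat_lit 111) (.e (nat_lit 360449) (nat_lit 0) (.e (nat_lit 7124) (nat_lit 382) .nil))))))) (.g (nat_lit 7) .nil .nil))) 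
(.lf (nat_lit 32170) (.g (nat_lit 1747) (.e (nat_lit 1201) (nat_lit 88) (.e (nat_lit 65617) (nat_lit 10) (.e (nat_lit 344176) (nat_lit 43) (.e (nat_lit 770072) (nat_lit 8) (.e (nat_lit 65619) (nat_lit 10) .nil))))) .nil))) (.nd (nat_lit 5) 
(.lf (nat_lit 32154) (.g (nat_lit 3458) (.e (nat_lit 1201) (nat_lit 88) (.e (nat_lit 65617) (nat_lit 10) (.e (nat_lit 344175) (nat_lit 43) (.e (nat_lit 770072) (nat_lit 8) (.e (nat_lit 65617) (nat_lit 10) (.e (nat_lit 344096) (nat_lit 18) (.e (nat_lit 7122) (nat_lit 382) .nil))))))) (.g (nat_lit 6) .nil .nil))) 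
(.lf (nat_lit 32186) (.g (nat_lit 4393) (.e (nat_lit 1201) (nat_lit 88) (.e (nat_lit 65617) (nat_lit 10) (.e (nat_lit 344177) (nat_lit 43) (.e (nat_lit 770071) (nat_lit 8) (.e (nat_lit 65617) (nat_lit 10) (.e (nat_lit 344096) (nat_lit 18) (.e (nat_lit 7122) (nat_lit 382) .nil))))))) (.g (nat_lit 7) .nil .nil)))))) (.nd (nat_lit 3) (.nd (nat_lit 4) (.nd (nat_lit 5) 
(.lf (nat_lit 32134) (.g (nat_lit 2992) (.e (nat_lit 1201) (nat_lit 88) (.e (nat_lit 65617) (nat_lit 10) (.e (nat_lit 344174) (nat_lit 42) (.e (nat_lit 761866) (nat_lit 5) (.e (nat_lit 1454) (nat_lit 108) (.e (nat_lit 336176) (nat_lit 10) (.e (nat_lit 344096) (nat_lit 18) (.e (nat_lit 7125) (nat_lit 382) .nil)))))))) (.g (nat_lit 6) .nil .nil))) 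
(.lf (nat_lit 32166) (.g (nat_lit 2059) (.e (nat_lit 1201) (nat_lit 88) (.e (nat_lit 65617) (nat_lit 10) (.e (nat_lit 344176) (nat_lit 43) (.e (nat_lit 770072) (nat_lit 8) (.e (nat_lit 65617) (nat_lit 10) (.e (nat_lit 344095) (nat_lit 18) (.e (nat_lit 7122) (nat_lit 382) .nil))))))) (.g (nat_lit 4) .nil .nil)))) (.nd (nat_lit 5) 
(.lf (nat_lit 32150) (.g (nat_lit 2519) (.e (nat_lit 1201) (nat_lit 88) (.e (nat_lit 65617) (nat_lit 10) (.e (nat_lit 344175) (nat_lit 43) (.e (nat_lit 770072) (nat_lit 8) (.e (nat_lit 65610) (nat_lit 10) (.e (nat_lit 344090) (nat_lit 18) (.e (nat_lit 7122) (nat_lit 382) .nil))))))) (.g (nat_lit 5) .nil .nil))) 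
(.lf (nat_lit 32182) (.g (nat_lit 3627) (.e (nat_lit 1201) (nat_lit 88) (.e (nat_lit 65617) (nat_lit 10) (.e (nat_lit 344177) (nat_lit 43) (.e (nat_lit 770058) (nat_lit 5) (.e (nat_lit 1589) (nat_lit 111) (.e (nat_lit 360451) (nat_lit 0) (.e (nat_lit 7124) (nat_lit 382) .nil))))))) (.g (nat_lit 7) .nil .nil))))) (.nd (nat_lit 4) (.nd (nat_lit 5) 
(.lf (nat_lit 32142) (.g (nat_lit 1707) (.e (nat_lit 1201) (nat_lit 88) (.e (nat_lit 65617) (nat_lit 10) (.e (nat_lit 344174) (nat_lit 42) (.e (nat_lit 761868) (nat_lit 5) (.e (nat_lit 1597) (nat_lit 111) (.e (nat_lit 368384) (nat_lit 0) (.e (nat_lit 7124) (nat_lit 382) .nil))))))) (.g (nat_lit 4) .nil .nil))) 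
(.lf (nat_lit 32174) (.g (nat_lit 2425) (.e (nat_lit 1201) (nat_lit 88) (.e (nat_lit 65617) (nat_lit 10) (.e (nat_lit 344177) (nat_lit 43) (.e (nat_lit 770055) (nat_lit 5) (.e (nat_lit 1595) (nat_lit 111) (.e (nat_lit 360449) (nat_lit 0) (.e (nat_lit 7122) (nat_lit 382) .nil))))))) (.g (nat_lit 5) .nil .nil)))) (.nd (nat_lit 5) 
(.lf (nat_lit 32158) (.g (nat_lit 1986) (.e (nat_lit 1201) (nat_lit 88) (.e (nat_lit 65617) (nat_lit 10) (.e (nat_lit 344176) (nat_lit 43) (.e (nat_lit 770071) (nat_lit 8) (.e (nat_lit 65617) (nat_lit 10) (.e (nat_lit 344091) (nat_lit 18) (.e (nat_lit 7124) (nat_lit 382) .nil))))))) (.g (nat_lit 4) .nil .nil))) 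
(.lf (nat_lit 32190) (.g (nat_lit 1848) (.e (nat_lit 1201) (nat_lit 88) (.e (nat_lit 65617) (nat_lit 10) (.e (nat_lit 344177) (nat_lit 43) (.e (nat_lit 770072) (nat_lit 8) (.e (nat_lit 65616) (nat_lit 10) (.e (nat_lit 344096) (nat_lit 18) (.e (nat_lit 7125) (nat_lit 382) .nil))))))) (.g (nat_lit 4) .nil .nil)))))))) 
(.nd (nat_lit 1) (.nd (nat_lit 2) (.nd (nat_lit 3) (.nd (nat_lit 4) (.nd (nat_lit 5) 
(.lf (nat_lit 32129) (.g (nat_lit 2444) (.e (nat_lit 1201) (nat_lit 88) (.e (nat_lit 65617) (nat_lit 10) (.e (nat_lit 344174) (nat_lit 42) (.e (nat_lit 761866) (nat_lit 5) (.e (nat_lit 1454) (nat_lit 108) (.e (nat_lit 336176) (nat_lit 10) (.e (nat_lit 344091) (nat_lit 18) (.e (nat_lit 7122) (nat_lit 382) .nil)))))))) (.g (nat_lit 5) .nil .nil))) 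
(.lf (nat_lit 32161) (.g (nat_lit 2374) (.e (nat_lit 1201) (nat_lit 88) (.e (nat_lit 65617) (nat_lit 10) (.e (nat_lit 344176) (nat_lit 43) (.e (nat_lit 770071) (nat_lit 8) (.e (nat_lit 65617) (nat_lit 10) (.e (nat_lit 344096) (nat_lit 18) (.e (nat_lit 7125) (nat_lit 382) .nil))))))) (.g (nat_lit 4) .nil .nil)))) (.nd (nat_lit 5) 
(.lf (nat_lit 32145) (.g (nat_lit 2294) (.e (nat_lit 1201) (nat_lit 88) (.e (nat_lit 65617) (nat_lit 10) (.e (nat_lit 344175) (nat_lit 43) (.e (nat_lit 770058) (nat_lit 5) (.e (nat_lit 1589) (nat_lit 111) (.e (nat_lit 360449) (nat_lit 0) (.e (nat_lit 7124) (nat_lit 382) .nil))))))) (.g (nat_lit 5) .nil .nil))) 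
(.lf (nat_lit 32177) (.g (nat_lit 3284) (.e (nat_lit 1201) (nat_lit 88) (.e (nat_lit 65617) (nat_lit 10) (.e (nat_lit 344177) (nat_lit 43) (.e (nat_lit 770057) (nat_lit 5) (.e (nat_lit 1589) (nat_lit 111) (.e (nat_lit 360449) (nat_lit 0) (.e (nat_lit 7124) (nat_lit 382) .nil))))))) (.g (nat_lit 7) .nil .nil))))) (.nd (nat_lit 4) (.nd (nat_lit 5) 
(.lf (nat_lit 32137) (.g (nat_lit 3053) (.e (nat_lit 1201) (nat_lit 88) (.e (nat_lit 65617) (nat_lit 10) (.e (nat_lit 344174) (nat_lit 42) (.e (nat_lit 761866) (nat_lit 5) (.e (nat_lit 1597) (nat_lit 111) (.e (nat_lit 360449) (nat_lit 0) (.e (nat_lit 7122) (nat_lit 382) .nil))))))) (.g (nat_lit 7) .nil .nil))) 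
(.lf (nat_lit 32169) (.g (nat_lit 2607) (.e (nat_lit 1201) (nat_lit 88) (.e (nat_lit 65617) (nat_lit 10) (.e (nat_lit 344176) (nat_lit 43) (.e (nat_lit 770072) (nat_lit 8) (.e (nat_lit 65617) (nat_lit 10) (.e (nat_lit 344096) (nat_lit 18) (.e (nat_lit 7125) (nat_lit 382) .nil))))))) (.g (nat_lit 4) .nil .nil)))) (.nd (nat_lit 5) 
(.lf (nat_lit 32153) (.g (nat_lit 2938) (.e (nat_lit 1201) (nat_lit 88) (.e (nat_lit 65617) (nat_lit 10) (.e (nat_lit 344175) (nat_lit 43) (.e (nat_lit 770072) (nat_lit 8) (.e (nat_lit 65617) (nat_lit 10) (.e (nat_lit 344095) (nat_lit 18) (.e (nat_lit 7122) (nat_lit 382) .nil))))))) (.g (nat_lit 6) .nil .nil))) 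
(.lf (nat_lit 32185) (.g (nat_lit 3902) (.e (nat_lit 1201) (nat_lit 88) (.e (nat_lit 65617) (nat_lit 10) (.e (nat_lit 344177) (nat_lit 43) (.e (nat_lit 770071) (nat_lit 8) (.e (nat_lit 65617) (nat_lit 10) (.e (nat_lit 344091) (nat_lit 18) (.e (nat_lit 7122) (nat_lit 382) .nil))))))) (.g (nat_lit 7) .nil .nil)))))) (.nd (nat_lit 3) (.nd (nat_lit 4) (.nd (nat_lit 5) 
(.lf (nat_lit 32133) (.g (nat_lit 2618) (.e (nat_lit 1201) (nat_lit 88) (.e (nat_lit 65617) (nat_lit 10) (.e (nat_lit 344174) (nat_lit 42) (.e (nat_lit 761866) (nat_lit 5) (.e (nat_lit 1454) (nat_lit 108) (.e (nat_lit 336176) (nat_lit 10) (.e (nat_lit 344096) (nat_lit 18) (.e (nat_lit 7124) (nat_lit 382) .nil)))))))) (.g (nat_lit 6) .nil .nil))) 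
(.lf (nat_lit 32165) (.g (nat_lit 2557) (.e (nat_lit 1201) (nat_lit 88) (.e (nat_lit 65617) (nat_lit 10) (.e (nat_lit 344176) (nat_lit 43) (.e (nat_lit 770072) (nat_lit 8) (.e (nat_lit 65617) (nat_lit 10) (.e (nat_lit 344091) (nat_lit 18) (.e (nat_lit 7125) (nat_lit 382) .nil))))))) (.g (nat_lit 4) .nil .nil)))) (.nd (nat_lit 5) 
(.lf (nat_lit 32149) (.g (nat_lit 2155) (.e (nat_lit 1201) (nat_lit 88) (.e (nat_lit 65617) (nat_lit 10) (.e (nat_lit 344175) (nat_lit 43) (.e (nat_lit 770071) (nat_lit 8) (.e (nat_lit 65617) (nat_lit 10) (.e (nat_lit 344095) (nat_lit 18) (.e (nat_lit 7122) (nat_lit 382) .nil))))))) (.g (nat_lit 5) .nil .nil))) 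
(.lf (nat_lit 32181) (.g (nat_lit 3646) (.e (nat_lit 1201) (nat_lit 88) (.e (nat_lit 65617) (nat_lit 10) (.e (nat_lit 344177) (nat_lit 43) (.e (nat_lit 770058) (nat_lit 5) (.e (nat_lit 1589) (nat_lit 111) (.e (nat_lit 360449) (nat_lit 0) (.e (nat_lit 7122) (nat_lit 382) .nil))))))) (.g (nat_lit 7) .nil .nil))))) (.nd (nat_lit 4) (.nd (nat_lit 5) 
(.lf (nat_lit 32141) (.g (nat_lit 1617) (.e (nat_lit 1201) (nat_lit 88) (.e (nat_lit 65617) (nat_lit 10) (.e (nat_lit 344174) (nat_lit 42) (.e (nat_lit 761867) (nat_lit 5) (.e (nat_lit 1597) (nat_lit 111) (.e (nat_lit 368384) (nat_lit 0) (.e (nat_lit 7124) (nat_lit 382) .nil))))))) (.g (nat_lit 4) .nil .nil))) 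
(.lf (nat_lit 32173) (.g (nat_lit 3615) (.e (nat_lit 1201) (nat_lit 88) (.e (nat_lit 65617) (nat_lit 10) (.e (nat_lit 344177) (nat_lit 43) (.e (nat_lit 770055) (nat_lit 5) (.e (nat_lit 1589) (nat_lit 111) (.e (nat_lit 360451) (nat_lit 0) (.e (nat_lit 7124) (nat_lit 382) .nil))))))) (.g (nat_lit 7) .nil .nil)))) (.nd (nat_lit 5) 
(.lf (nat_lit 32157) (.g (nat_lit 2166) (.e (nat_lit 1201) (nat_lit 88) (.e (nat_lit 65617) (nat_lit 10) (.e (nat_lit 344176) (nat_lit 43) (.e (nat_lit 770071) (nat_lit 8) (.e (nat_lit 65610) (nat_lit 10) (.e (nat_lit 344090) (nat_lit 18) (.e (nat_lit 7125) (nat_lit 382) .nil))))))) (.g (nat_lit 4) .nil .nil))) 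
(.lf (nat_lit 32189) (.g (nat_lit 3671) (.e (nat_lit 1201) (nat_lit 88) (.e (nat_lit 65617) (nat_lit 10) (.e (nat_lit 344177) (nat_lit 43) (.e (nat_lit 770071) (nat_lit 8) (.e (nat_lit 65619) (nat_lit 10) (.e (nat_lit 344090) (nat_lit 18) (.e (nat_lit 7125) (nat_lit 382) .nil))))))) (.g (nat_lit 7) .nil .nil))))))) (.nd (nat_lit 2) (.nd (nat_lit 3) (.nd (nat_lit 4) (.nd (nat_lit 5) 
(.lf (nat_lit 32131) (.g (nat_lit 2856) (.e (nat_lit 1201) (nat_lit 88) (.e (nat_lit 65617) (nat_lit 10) (.e (nat_lit 344174) (nat_lit 42) (.e (nat_lit 761866) (nat_lit 5) (.e (nat_lit 1454) (nat_lit 108) (.e (nat_lit 336176) (nat_lit 10) (.e (nat_lit 344091) (nat_lit 18) (.e (nat_lit 7125) (nat_lit 382) .nil)))))))) (.g (nat_lit 6) .nil .nil))) 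
(.lf (nat_lit 32163) (.g (nat_lit 2401) (.e (nat_lit 1201) (nat_lit 88) (.e (nat_lit 65617) (nat_lit 10) (.e (nat_lit 344176) (nat_lit 43) (.e (nat_lit 770072) (nat_lit 8) (.e (nat_lit 65610) (nat_lit 10) (.e (nat_lit 344090) (nat_lit 18) (.e (nat_lit 7125) (nat_lit 382) .nil))))))) (.g (nat_lit 4) .nil .nil)))) (.nd (nat_lit 5) 
(.lf (nat_lit 32147) (.g (nat_lit 2236) (.e (nat_lit 1201) (nat_lit 88) (.e (nat_lit 65617) (nat_lit 10) (.e (nat_lit 344175) (nat_lit 43) (.e (nat_lit 770071) (nat_lit 8) (.e (nat_lit 65610) (nat_lit 10) (.e (nat_lit 344090) (nat_lit 18) (.e (nat_lit 7124) (nat_lit 382) .nil))))))) (.g (nat_lit 5) .nil .nil))) 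
(.lf (nat_lit 32179) (.g (nat_lit 2785) (.e (nat_lit 1201) (nat_lit 88) (.e (nat_lit 65617) (nat_lit 10) (.e (nat_lit 344177) (nat_lit 43) (.e (nat_lit 770057) (nat_lit 5) (.e (nat_lit 1595) (nat_lit 111) (.e (nat_lit 360449) (nat_lit 0) (.e (nat_lit 7124) (nat_lit 382) .nil))))))) (.g (nat_lit 6) .nil .nil))))) (.nd (nat_lit 4) (.nd (nat_lit 5) 
(.lf (nat_lit 32139) (.g (nat_lit 1809) (.e (nat_lit 1201) (nat_lit 88) (.e (nat_lit 65617) (nat_lit 10) (.e (nat_lit 344174) (nat_lit 42) (.e (nat_lit 761866) (nat_lit 5) (.e (nat_lit 1597) (nat_lit 111) (.e (nat_lit 368384) (nat_lit 0) (.e (nat_lit 7124) (nat_lit 382) .nil))))))) (.g (nat_lit 4) .nil .nil))) 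
(.lf (nat_lit 32171) (.g (nat_lit 2273) (.e (nat_lit 1201) (nat_lit 88) (.e (nat_lit 65617) (nat_lit 10) (.e (nat_lit 344176) (nat_lit 43) (.e (nat_lit 770072) (nat_lit 8) (.e (nat_lit 65619) (nat_lit 10) (.e (nat_lit 344090) (nat_lit 18) (.e (nat_lit 7125) (nat_lit 382) .nil))))))) (.g (nat_lit 4) .nil .nil)))) (.nd (nat_lit 5) 
(.lf (nat_lit 32155) (.g (nat_lit 3246) (.e (nat_lit 1201) (nat_lit 88) (.e (nat_lit 65617) (nat_lit 10) (.e (nat_lit 344175) (nat_lit 43) (.e (nat_lit 770072) (nat_lit 8) (.e (nat_lit 65617) (nat_lit 10) (.e (nat_lit 344096) (nat_lit 18) (.e (nat_lit 7124) (nat_lit 382) .nil))))))) (.g (nat_lit 6) .nil .nil))) 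
(.lf (nat_lit 32187) (.g (nat_lit 2712) (.e (nat_lit 1201) (nat_lit 88) (.e (nat_lit 65617) (nat_lit 10) (.e (nat_lit 344177) (nat_lit 43) (.e (nat_lit 770071) (nat_lit 8) (.e (nat_lit 65619) (nat_lit 10) (.e (nat_lit 344090) (nat_lit 18) (.e (nat_lit 7122) (nat_lit 382) .nil))))))) (.g (nat_lit 5) .nil .nil)))))) (.nd (nat_lit 3) (.nd (nat_lit 4) (.nd (nat_lit 5) 
(.lf (nat_lit 32135) (.g (nat_lit 1944) (.e (nat_lit 1201) (nat_lit 88) (.e (nat_lit 65617) (nat_lit 10) (.e (nat_lit 344174) (nat_lit 42) (.e (nat_lit 761866) (nat_lit 5) (.e (nat_lit 1582) (nat_lit 111) (.e (nat_lit 360449) (nat_lit 0) (.e (nat_lit 7125) (nat_lit 382) .nil))))))) (.g (nat_lit 4) .nil .nil))) 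
(.lf (nat_lit 32167) (.g (nat_lit 2579) (.e (nat_lit 1201) (nat_lit 88) (.e (nat_lit 65617) (nat_lit 10) (.e (nat_lit 344176) (nat_lit 43) (.e (nat_lit 770072) (nat_lit 8) (.e (nat_lit 65617) (nat_lit 10) (.e (nat_lit 344096) (nat_lit 18) (.e (nat_lit 7122) (nat_lit 382) .nil))))))) (.g (nat_lit 4) .nil .nil)))) (.nd (nat_lit 5) 
(.lf (nat_lit 32151) (.g (nat_lit 2887) (.e (nat_lit 1201) (nat_lit 88) (.e (nat_lit 65617) (nat_lit 10) (.e (nat_lit 344175) (nat_lit 43) (.e (nat_lit 770072) (nat_lit 8) (.e (nat_lit 65610) (nat_lit 10) (.e (nat_lit 344090) (nat_lit 18) (.e (nat_lit 7124) (nat_lit 382) .nil))))))) (.g (nat_lit 6) .nil .nil))) 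
(.lf (nat_lit 32183) (.g (nat_lit 2960) (.e (nat_lit 1201) (nat_lit 88) (.e (nat_lit 65617) (nat_lit 10) (.e (nat_lit 344177) (nat_lit 43) (.e (nat_lit 770058) (nat_lit 5) (.e (nat_lit 1595) (nat_lit 111) (.e (nat_lit 360449) (nat_lit 0) (.e (nat_lit 7124) (nat_lit 382) .nil))))))) (.g (nat_lit 6) .nil .nil))))) (.nd (nat_lit 4) (.nd (nat_lit 5) 
(.lf (nat_lit 32143) (.g (nat_lit 1627) (.e (nat_lit 1201) (nat_lit 88) (.e (nat_lit 65617) (nat_lit 10) (.e (nat_lit 344174) (nat_lit 42) (.e (nat_lit 761869) (nat_lit 5) (.e (nat_lit 1597) (nat_lit 111) (.e (nat_lit 368384) (nat_lit 0) (.e (nat_lit 7124) (nat_lit 382) .nil))))))) (.g (nat_lit 4) .nil .nil))) 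
(.lf (nat_lit 32175) (.g (nat_lit 2135) (.e (nat_lit 1201) (nat_lit 88) (.e (nat_lit 65617) (nat_lit 10) (.e (nat_lit 344177) (nat_lit 43) (.e (nat_lit 770055) (nat_lit 5) (.e (nat_lit 1595) (nat_lit 111) (.e (nat_lit 360449) (nat_lit 0) (.e (nat_lit 7124) (nat_lit 382) .nil))))))) (.g (nat_lit 5) .nil .nil)))) (.nd (nat_lit 5) 
(.lf (nat_lit 32159) (.g (nat_lit 2332) (.e (nat_lit 1201) (nat_lit 88) (.e (nat_lit 65617) (nat_lit 10) (.e (nat_lit 344176) (nat_lit 43) (.e (nat_lit 770071) (nat_lit 8) (.e (nat_lit 65617) (nat_lit 10) (.e (nat_lit 344091) (nat_lit 18) (.e (nat_lit 7125) (nat_lit 382) .nil))))))) (.g (nat_lit 4) .nil .nil))) 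
(.lf (nat_lit 32191) (.g (nat_lit 1808) (.e (nat_lit 1201) (nat_lit 88) (.e (nat_lit 65617) (nat_lit 10) (.e (nat_lit 344177) (nat_lit 43) (.e (nat_lit 770072) (nat_lit 8) (.e (nat_lit 65617) (nat_lit 10) .nil))))) .nil))))))))

noncomputable def tv453 : DT := (.nd (nat_lit 0) (.nd (nat_lit 1) (.nd (nat_lit 2) (.nd (nat_lit 3) (.nd (nat_lit 4) (.nd (nat_lit 5) 
(.lf (nat_lit 32192) (.g (nat_lit 4039) (.e (nat_lit 1201) (nat_lit 88) (.e (nat_lit 65617) (nat_lit 10) (.e (nat_lit 344177) (nat_lit 43) (.e (nat_lit 770072) (nat_lit 8) (.e (nat_lit 65617) (nat_lit 10) (.e (nat_lit 344091) (nat_lit 18) (.e (nat_lit 7122) (nat_lit 382) .nil))))))) (.g (nat_lit 7) .nil .nil))) 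
(.lf (nat_lit 32224) (.g (nat_lit 1131) (.e (nat_lit 1201) (nat_lit 88) (.e (nat_lit 65622) (nat_lit 12) (.e (nat_lit 385106) (nat_lit 50) (.e (nat_lit 786479) (nat_lit 29) .nil)))) .nil))) (.nd (nat_lit 5) 
(.lf (nat_lit 32208) (.g (nat_lit 1763) (.e (nat_lit 1201) (nat_lit 88) (.e (nat_lit 65622) (nat_lit 12) (.e (nat_lit 385094) (nat_lit 49) (.e (nat_lit 778327) (nat_lit 6) (.e (nat_lit 81957) (nat_lit 24) (.e (nat_lit 123183) (nat_lit 264) .nil)))))) (.g (nat_lit 4) .nil .nil))) 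
(.lf (nat_lit 32240) (.g (nat_lit 3253) (.e (nat_lit 1201) (nat_lit 88) (.e (nat_lit 65624) (nat_lit 12) (.e (nat_lit 385093) (nat_lit 49) (.e (nat_lit 778326) (nat_lit 6) (.e (nat_lit 81959) (nat_lit 24) (.e (nat_lit 123184) (nat_lit 264) .nil)))))) (.g (nat_lit 0) .nil .nil))))) (.nd (nat_lit 4) (.nd (nat_lit 5) 
(.lf (nat_lit 32200) (.g (nat_lit 2124) (.e (nat_lit 1201) (nat_lit 88) (.e (nat_lit 65619) (nat_lit 10) (.e (nat_lit 344100) (nat_lit 18) (.e (nat_lit 7270) (nat_lit 385) (.e (nat_lit 122919) (nat_lit 15) (.e (nat_lit 360451) (nat_lit 0) (.e (nat_lit 7124) (nat_lit 382) .nil))))))) (.g (nat_lit 4) .nil .nil))) 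
(.lf (nat_lit 32232) (.g (nat_lit 1883) (.e (nat_lit 1201) (nat_lit 88) (.e (nat_lit 65624) (nat_lit 12) (.e (nat_lit 385092) (nat_lit 49) (.e (nat_lit 778326) (nat_lit 6) (.e (nat_lit 81958) (nat_lit 24) (.e (nat_lit 123184) (nat_lit 264) .nil)))))) (.g (nat_lit 4) .nil .nil)))) (.nd (nat_lit 5) 
(.lf (nat_lit 32216) (.g (nat_lit 3261) (.e (nat_lit 1201) (nat_lit 88) (.e (nat_lit 65622) (nat_lit 12) (.e (nat_lit 385105) (nat_lit 50) (.e (nat_lit 786480) (nat_lit 29) (.e (nat_lit 352318) (nat_lit 24) (.e (nat_lit 123184) (nat_lit 264) .nil)))))) (.g (nat_lit 6) .nil .nil))) 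
(.lf (nat_lit 32248) (.g (nat_lit 3255) (.e (nat_lit 1201) (nat_lit 88) (.e (nat_lit 65624) (nat_lit 12) (.e (nat_lit 385094) (nat_lit 49) (.e (nat_lit 778326) (nat_lit 6) (.e (nat_lit 81957) (nat_lit 24) (.e (nat_lit 123183) (nat_lit 264) .nil)))))) (.g (nat_lit 0) .nil .nil)))))) (.nd (nat_lit 3) (.nd (nat_lit 4) (.nd (nat_lit 5) 
(.lf (nat_lit 32196) (.g (nat_lit 2796) (.e (nat_lit 1201) (nat_lit 88) (.e (nat_lit 65619) (nat_lit 10) (.e (nat_lit 344097) (nat_lit 18) (.e (nat_lit 5907) (nat_lit 320) (.e (nat_lit 1220) (nat_lit 90) (.e (nat_lit 81959) (nat_lit 24) (.e (nat_lit 123182) (nat_lit 264) .nil))))))) (.g (nat_lit 4) .nil .nil))) 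
(.lf (nat_lit 32228) (.g (nat_lit 2194) (.e (nat_lit 1201) (nat_lit 88) (.e (nat_lit 65622) (nat_lit 12) (.e (nat_lit 385106) (nat_lit 50) (.e (nat_lit 786481) (nat_lit 30) (.e (nat_lit 360455) (nat_lit 0) (.e (nat_lit 5813) (nat_lit 320) .nil)))))) (.g (nat_lit 4) .nil .nil)))) (.nd (nat_lit 5) 
(.lf (nat_lit 32212) (.g (nat_lit 2888) (.e (nat_lit 1201) (nat_lit 88) (.e (nat_lit 65622) (nat_lit 12) (.e (nat_lit 385105) (nat_lit 50) (.e (nat_lit 786478) (nat_lit 29) (.e (nat_lit 352318) (nat_lit 24) (.e (nat_lit 123185) (nat_lit 264) .nil)))))) (.g (nat_lit 6) .nil .nil))) 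
(.lf (nat_lit 32244) (.g (nat_lit 1930) (.e (nat_lit 1201) (nat_lit 88) (.e (nat_lit 65624) (nat_lit 12) (.e (nat_lit 385093) (nat_lit 49) (.e (nat_lit 778327) (nat_lit 6) (.e (nat_lit 81958) (nat_lit 24) (.e (nat_lit 123184) (nat_lit 264) .nil)))))) (.g (nat_lit 4) .nil .nil))))) (.nd (nat_lit 4) (.nd (nat_lit 5) 
(.lf (nat_lit 32204) (.g (nat_lit 2056) (.e (nat_lit 1201) (nat_lit 88) (.e (nat_lit 65622) (nat_lit 12) (.e (nat_lit 385093) (nat_lit 49) (.e (nat_lit 778327) (nat_lit 6) (.e (nat_lit 81957) (nat_lit 24) (.e (nat_lit 123183) (nat_lit 264) .nil)))))) (.g (nat_lit 4) .nil .nil))) 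
(.lf (nat_lit 32236) (.g (nat_lit 4620) (.e (nat_lit 1201) (nat_lit 88) (.e (nat_lit 65624) (nat_lit 12) (.e (nat_lit 385093) (nat_lit 49) (.e (nat_lit 778326) (nat_lit 6) (.e (nat_lit 81957) (nat_lit 24) (.e (nat_lit 123182) (nat_lit 264) .nil)))))) (.g (nat_lit 0) .nil .nil)))) (.nd (nat_lit 5) 
(.lf (nat_lit 32220) (.g (nat_lit 2935) (.e (nat_lit 1201) (nat_lit 88) (.e (nat_lit 65622) (nat_lit 12) (.e (nat_lit 385105) (nat_lit 50) (.e (nat_lit 786483) (nat_lit 30) (.e (nat_lit 360457) (nat_lit 0) (.e (nat_lit 5818) (nat_lit 320) .nil)))))) (.g (nat_lit 6) .nil .nil))) 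
(.lf (nat_lit 32252) (.g (nat_lit 2398) (.e (nat_lit 1201) (nat_lit 88) (.e (nat_lit 65624) (nat_lit 12) (.e (nat_lit 385094) (nat_lit 49) (.e (nat_lit 778327) (nat_lit 6) (.e (nat_lit 81958) (nat_lit 24) (.e (nat_lit 123183) (nat_lit 264) .nil)))))) (.g (nat_lit 5) .nil .nil))))))) (.nd (nat_lit 2) (.nd (nat_lit 3) (.nd (nat_lit 4) (.nd (nat_lit 5) 
(.lf (nat_lit 32194) (.g (nat_lit 4401) (.e (nat_lit 1201) (nat_lit 88) (.e (nat_lit 65617) (nat_lit 10) (.e (nat_lit 344177) (nat_lit 43) (.e (nat_lit 770072) (nat_lit 8) (.e (nat_lit 65617) (nat_lit 10) (.e (nat_lit 344096) (nat_lit 18) (.e (nat_lit 7122) (nat_lit 382) .nil))))))) (.g (nat_lit 7) .nil .nil))) 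
(.lf (nat_lit 32226) (.g (nat_lit 2440) (.e (nat_lit 1201) (nat_lit 88) (.e (nat_lit 65622) (nat_lit 12) (.e (nat_lit 385106) (nat_lit 50) (.e (nat_lit 786480) (nat_lit 29) (.e (nat_lit 352318) (nat_lit 24) (.e (nat_lit 123183) (nat_lit 264) .nil)))))) (.g (nat_lit 5) .nil .nil)))) (.nd (nat_lit 5) 
(.lf (nat_lit 32210) (.g (nat_lit 2709) (.e (nat_lit 1201) (nat_lit 88) (.e (nat_lit 65622) (nat_lit 12) (.e (nat_lit 385105) (nat_lit 50) (.e (nat_lit 786478) (nat_lit 29) (.e (nat_lit 352318) (nat_lit 24) (.e (nat_lit 123183) (nat_lit 264) .nil)))))) (.g (nat_lit 5) .nil .nil))) 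
(.lf (nat_lit 32242) (.g (nat_lit 3081) (.e (nat_lit 1201) (nat_lit 88) (.e (nat_lit 65624) (nat_lit 12) (.e (nat_lit 385093) (nat_lit 49) (.e (nat_lit 778327) (nat_lit 6) (.e (nat_lit 81957) (nat_lit 24) (.e (nat_lit 123185) (nat_lit 264) .nil)))))) (.g (nat_lit 0) .nil .nil))))) (.nd (nat_lit 4) (.nd (nat_lit 5) 
(.lf (nat_lit 32202) (.g (nat_lit 1333) (.e (nat_lit 1201) (nat_lit 88) (.e (nat_lit 65622) (nat_lit 12) (.e (nat_lit 385093) (nat_lit 49) (.e (nat_lit 778326) (nat_lit 6) (.e (nat_lit 81958) (nat_lit 24) .nil))))) .nil)) 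
(.lf (nat_lit 32234) (.g (nat_lit 1261) (.e (nat_lit 1201) (nat_lit 88) (.e (nat_lit 65624) (nat_lit 12) (.e (nat_lit 385092) (nat_lit 49) (.e (nat_lit 778327) (nat_lit 6) (.e (nat_lit 81958) (nat_lit 24) .nil))))) .nil))) (.nd (nat_lit 5) 
(.lf (nat_lit 32218) (.g (nat_lit 2143) (.e (nat_lit 1201) (nat_lit 88) (.e (nat_lit 65622) (nat_lit 12) (.e (nat_lit 385105) (nat_lit 50) (.e (nat_lit 786481) (nat_lit 30) (.e (nat_lit 360455) (nat_lit 0) (.e (nat_lit 5813) (nat_lit 320) .nil)))))) (.g (nat_lit 4) .nil .nil))) 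
(.lf (nat_lit 32250) (.g (nat_lit 3342) (.e (nat_lit 1201) (nat_lit 88) (.e (nat_lit 65624) (nat_lit 12) (.e (nat_lit 385094) (nat_lit 49) (.e (nat_lit 778326) (nat_lit 6) (.e (nat_lit 81959) (nat_lit 24) (.e (nat_lit 123184) (nat_lit 264) .nil)))))) (.g (nat_lit 0) .nil .nil)))))) (.nd (nat_lit 3) (.nd (nat_lit 4) (.nd (nat_lit 5) 
(.lf (nat_lit 32198) (.g (nat_lit 2772) (.e (nat_lit 1201) (nat_lit 88) (.e (nat_lit 65619) (nat_lit 10) (.e (nat_lit 344097) (nat_lit 18) (.e (nat_lit 7270) (nat_lit 385) (.e (nat_lit 122917) (nat_lit 15) (.e (nat_lit 360449) (nat_lit 0) (.e (nat_lit 7122) (nat_lit 382) .nil))))))) (.g (nat_lit 4) .nil .nil))) 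
(.lf (nat_lit 32230) (.g (nat_lit 1684) (.e (nat_lit 1201) (nat_lit 88) (.e (nat_lit 65622) (nat_lit 12) (.e (nat_lit 385106) (nat_lit 50) (.e (nat_lit 786483) (nat_lit 30) (.e (nat_lit 368384) (nat_lit 0) .nil))))) .nil))) (.nd (nat_lit 5) 
(.lf (nat_lit 32214) (.g (nat_lit 2092) (.e (nat_lit 1201) (nat_lit 88) (.e (nat_lit 65622) (nat_lit 12) (.e (nat_lit 385105) (nat_lit 50) (.e (nat_lit 786480) (nat_lit 29) (.e (nat_lit 352316) (nat_lit 24) (.e (nat_lit 123185) (nat_lit 264) .nil)))))) (.g (nat_lit 4) .nil .nil))) 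
(.lf (nat_lit 32246) (.g (nat_lit 1433) (.e (nat_lit 1201) (nat_lit 88) (.e (nat_lit 65624) (nat_lit 12) (.e (nat_lit 385093) (nat_lit 49) (.e (nat_lit 786176) (nat_lit 6) .nil)))) .nil)))) (.nd (nat_lit 4) (.nd (nat_lit 5) 
(.lf (nat_lit 32206) (.g (nat_lit 2555) (.e (nat_lit 1201) (nat_lit 88) (.e (nat_lit 65622) (nat_lit 12) (.e (nat_lit 385093) (nat_lit 49) (.e (nat_lit 778327) (nat_lit 6) (.e (nat_lit 81959) (nat_lit 24) (.e (nat_lit 123184) (nat_lit 264) .nil)))))) (.g (nat_lit 5) .nil .nil))) 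
(.lf (nat_lit 32238) (.g (nat_lit 3539) (.e (nat_lit 1201) (nat_lit 88) (.e (nat_lit 65624) (nat_lit 12) (.e (nat_lit 385093) (nat_lit 49) (.e (nat_lit 778326) (nat_lit 6) (.e (nat_lit 81957) (nat_lit 24) (.e (nat_lit 123184) (nat_lit 264) .nil)))))) (.g (nat_lit 0) .nil .nil)))) (.nd (nat_lit 5) 
(.lf (nat_lit 32222) (.g (nat_lit 2684) (.e (nat_lit 1201) (nat_lit 88) (.e (nat_lit 65622) (nat_lit 12) (.e (nat_lit 385106) (nat_lit 50) (.e (nat_lit 786478) (nat_lit 29) (.e (nat_lit 352318) (nat_lit 24) (.e (nat_lit 123184) (nat_lit 264) .nil)))))) (.g (nat_lit 5) .nil .nil))) 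
(.lf (nat_lit 32254) (.g (nat_lit 1802) (.e (nat_lit 1201) (nat_lit 88) (.e (nat_lit 65624) (nat_lit 12) (.e (nat_lit 385104) (nat_lit 50) (.e (nat_lit 786480) (nat_lit 29) (.e (nat_lit 352318) (nat_lit 24) .nil))))) .nil))))))) (.nd (nat_lit 1) (.nd (nat_lit 2) (.nd (nat_lit 3) (.nd (nat_lit 4) (.nd (nat_lit 5) 
(.lf (nat_lit 32193) (.g (nat_lit 2677) (.e (nat_lit 1201) (nat_lit 88) (.e (nat_lit 65617) (nat_lit 10) (.e (nat_lit 344177) (nat_lit 43) (.e (nat_lit 770072) (nat_lit 8) (.e (nat_lit 65617) (nat_lit 10) (.e (nat_lit 344095) (nat_lit 18) (.e (nat_lit 7125) (nat_lit 382) .nil))))))) (.g (nat_lit 5) .nil .nil))) 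
(.lf (nat_lit 32225) (.g (nat_lit 1929) (.e (nat_lit 1201) (nat_lit 88) (.e (nat_lit 65622) (nat_lit 12) (.e (nat_lit 385106) (nat_lit 50) (.e (nat_lit 786480) (nat_lit 29) (.e (nat_lit 352316) (nat_lit 24) (.e (nat_lit 123185) (nat_lit 264) .nil)))))) (.g (nat_lit 4) .nil .nil)))) (.nd (nat_lit 5) 
(.lf (nat_lit 32209) (.g (nat_lit 1378) (.e (nat_lit 1201) (nat_lit 88) (.e (nat_lit 65622) (nat_lit 12) (.e (nat_lit 385094) (nat_lit 49) (.e (nat_lit 778327) (nat_lit 6) (.e (nat_lit 81958) (nat_lit 24) .nil))))) .nil)) 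
(.lf (nat_lit 32241) (.g (nat_lit 3213) (.e (nat_lit 1201) (nat_lit 88) (.e (nat_lit 65624) (nat_lit 12) (.e (nat_lit 385093) (nat_lit 49) (.e (nat_lit 778327) (nat_lit 6) (.e (nat_lit 81957) (nat_lit 24) (.e (nat_lit 123183) (nat_lit 264) .nil)))))) (.g (nat_lit 0) .nil .nil))))) (.nd (nat_lit 4) (.nd (nat_lit 5) 
(.lf (nat_lit 32201) (.g (nat_lit 2215) (.e (nat_lit 1201) (nat_lit 88) (.e (nat_lit 65619) (nat_lit 10) (.e (nat_lit 344177) (nat_lit 43) (.e (nat_lit 770072) (nat_lit 8) (.e (nat_lit 65617) (nat_lit 10) .nil))))) .nil)) 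
(.lf (nat_lit 32233) (.g (nat_lit 3048) (.e (nat_lit 1201) (nat_lit 88) (.e (nat_lit 65624) (nat_lit 12) (.e (nat_lit 385092) (nat_lit 49) (.e (nat_lit 778326) (nat_lit 6) (.e (nat_lit 81959) (nat_lit 24) (.e (nat_lit 123183) (nat_lit 264) .nil)))))) (.g (nat_lit 6) .nil .nil)))) (.nd (nat_lit 5) 
(.lf (nat_lit 32217) (.g (nat_lit 2912) (.e (nat_lit 1201) (nat_lit 88) (.e (nat_lit 65622) (nat_lit 12) (.e (nat_lit 385105) (nat_lit 50) (.e (nat_lit 786480) (nat_lit 29) (.e (nat_lit 352318) (nat_lit 24) (.e (nat_lit 123185) (nat_lit 264) .nil)))))) (.g (nat_lit 6) .nil .nil))) 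
(.lf (nat_lit 32249) (.g (nat_lit 3244) (.e (nat_lit 1201) (nat_lit 88) (.e (nat_lit 65624) (nat_lit 12) (.e (nat_lit 385094) (nat_lit 49) (.e (nat_lit 778326) (nat_lit 6) (.e (nat_lit 81959) (nat_lit 24) (.e (nat_lit 123183) (nat_lit 264) .nil)))))) (.g (nat_lit 6) .nil .nil)))))) (.nd (nat_lit 3) (.nd (nat_lit 4) (.nd (nat_lit 5) 
(.lf (nat_lit 32197) (.g (nat_lit 2275) (.e (nat_lit 1201) (nat_lit 88) (.e (nat_lit 65619) (nat_lit 10) (.e (nat_lit 344097) (nat_lit 18) (.e (nat_lit 7270) (nat_lit 385) (.e (nat_lit 122917) (nat_lit 15) .nil))))) .nil)) 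
(.lf (nat_lit 32229) (.g (nat_lit 1825) (.e (nat_lit 1201) (nat_lit 88) (.e (nat_lit 65622) (nat_lit 12) (.e (nat_lit 385106) (nat_lit 50) (.e (nat_lit 786483) (nat_lit 30) (.e (nat_lit 360457) (nat_lit 0) (.e (nat_lit 5817) (nat_lit 320) .nil)))))) (.g (nat_lit 4) .nil .nil)))) (.nd (nat_lit 5) 
(.lf (nat_lit 32213) (.g (nat_lit 1306) (.e (nat_lit 1201) (nat_lit 88) (.e (nat_lit 65622) (nat_lit 12) (.e (nat_lit 385105) (nat_lit 50) (.e (nat_lit 786479) (nat_lit 29) .nil)))) .nil)) 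
(.lf (nat_lit 32245) (.g (nat_lit 3397) (.e (nat_lit 1201) (nat_lit 88) (.e (nat_lit 65624) (nat_lit 12) (.e (nat_lit 385093) (nat_lit 49) (.e (nat_lit 778327) (nat_lit 6) (.e (nat_lit 81959) (nat_lit 24) (.e (nat_lit 123184) (nat_lit 264) .nil)))))) (.g (nat_lit 0) .nil .nil))))) (.nd (nat_lit 4) (.nd (nat_lit 5) 
(.lf (nat_lit 32205) (.g (nat_lit 2153) (.e (nat_lit 1201) (nat_lit 88) (.e (nat_lit 65622) (nat_lit 12) (.e (nat_lit 385093) (nat_lit 49) (.e (nat_lit 778327) (nat_lit 6) (.e (nat_lit 81959) (nat_lit 24) (.e (nat_lit 123183) (nat_lit 264) .nil)))))) (.g (nat_lit 4) .nil .nil))) 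
(.lf (nat_lit 32237) (.g (nat_lit 3239) (.e (nat_lit 1201) (nat_lit 88) (.e (nat_lit 65624) (nat_lit 12) (.e (nat_lit 385093) (nat_lit 49) (.e (nat_lit 778326) (nat_lit 6) (.e (nat_lit 81957) (nat_lit 24) (.e (nat_lit 123183) (nat_lit 264) .nil)))))) (.g (nat_lit 0) .nil .nil)))) (.nd (nat_lit 5) 
(.lf (nat_lit 32221) (.g (nat_lit 2126) (.e (nat_lit 1201) (nat_lit 88) (.e (nat_lit 65622) (nat_lit 12) (.e (nat_lit 385106) (nat_lit 50) (.e (nat_lit 786478) (nat_lit 29) (.e (nat_lit 352318) (nat_lit 24) (.e (nat_lit 123183) (nat_lit 264) .nil)))))) (.g (nat_lit 4) .nil .nil))) 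
(.lf (nat_lit 32253) (.g (nat_lit 2259) (.e (nat_lit 1201) (nat_lit 88) (.e (nat_lit 65624) (nat_lit 12) (.e (nat_lit 385094) (nat_lit 49) (.e (nat_lit 778327) (nat_lit 6) (.e (nat_lit 81958) (nat_lit 24) (.e (nat_lit 123184) (nat_lit 264) .nil)))))) (.g (nat_lit 5) .nil .nil))))))) (.nd (nat_lit 2) (.nd (nat_lit 3) (.nd (nat_lit 4) (.nd (nat_lit 5) 
(.lf (nat_lit 32195) (.g (nat_lit 3676) (.e (nat_lit 1201) (nat_lit 88) (.e (nat_lit 65617) (nat_lit 10) (.e (nat_lit 344177) (nat_lit 43) (.e (nat_lit 770072) (nat_lit 8) (.e (nat_lit 65619) (nat_lit 10) (.e (nat_lit 344090) (nat_lit 18) (.e (nat_lit 7124) (nat_lit 382) .nil))))))) (.g (nat_lit 7) .nil .nil))) 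
(.lf (nat_lit 32227) (.g (nat_lit 2643) (.e (nat_lit 1201) (nat_lit 88) (.e (nat_lit 65622) (nat_lit 12) (.e (nat_lit 385106) (nat_lit 50) (.e (nat_lit 786480) (nat_lit 29) (.e (nat_lit 352318) (nat_lit 24) (.e (nat_lit 123185) (nat_lit 264) .nil)))))) (.g (nat_lit 5) .nil .nil)))) (.nd (nat_lit 5) 
(.lf (nat_lit 32211) (.g (nat_lit 3226) (.e (nat_lit 1201) (nat_lit 88) (.e (nat_lit 65622) (nat_lit 12) (.e (nat_lit 385105) (nat_lit 50) (.e (nat_lit 786478) (nat_lit 29) (.e (nat_lit 352318) (nat_lit 24) (.e (nat_lit 123184) (nat_lit 264) .nil)))))) (.g (nat_lit 6) .nil .nil))) 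
(.lf (nat_lit 32243) (.g (nat_lit 2107) (.e (nat_lit 1201) (nat_lit 88) (.e (nat_lit 65624) (nat_lit 12) (.e (nat_lit 385093) (nat_lit 49) (.e (nat_lit 778327) (nat_lit 6) (.e (nat_lit 81958) (nat_lit 24) (.e (nat_lit 123183) (nat_lit 264) .nil)))))) (.g (nat_lit 4) .nil .nil))))) (.nd (nat_lit 4) (.nd (nat_lit 5) 
(.lf (nat_lit 32203) (.g (nat_lit 1004) (.e (nat_lit 1201) (nat_lit 88) (.e (nat_lit 65622) (nat_lit 12) (.e (nat_lit 385093) (nat_lit 49) (.e (nat_lit 778327) (nat_lit 6) .nil)))) .nil)) 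
(.lf (nat_lit 32235) (.g (nat_lit 2014) (.e (nat_lit 1201) (nat_lit 88) (.e (nat_lit 65624) (nat_lit 12) (.e (nat_lit 385093) (nat_lit 49) (.e (nat_lit 778253) (nat_lit 0) .nil)))) .nil))) (.nd (nat_lit 5) 
(.lf (nat_lit 32219) (.g (nat_lit 1528) (.e (nat_lit 1201) (nat_lit 88) (.e (nat_lit 65622) (nat_lit 12) (.e (nat_lit 385105) (nat_lit 50) (.e (nat_lit 786481) (nat_lit 30) (.e (nat_lit 368384) (nat_lit 0) .nil))))) .nil)) 
(.lf (nat_lit 32251) (.g (nat_lit 3062) (.e (nat_lit 1201) (nat_lit 88) (.e (nat_lit 65624) (nat_lit 12) (.e (nat_lit 385094) (nat_lit 49) (.e (nat_lit 778327) (nat_lit 6) (.e (nat_lit 81957) (nat_lit 24) (.e (nat_lit 123183) (nat_lit 264) .nil)))))) (.g (nat_lit 0) .nil .nil)))))) (.nd (nat_lit 3) (.nd (nat_lit 4) (.nd (nat_lit 5) 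
(.lf (nat_lit 32199) (.g (nat_lit 2900) (.e (nat_lit 1201) (nat_lit 88) (.e (nat_lit 65619) (nat_lit 10) (.e (nat_lit 344097) (nat_lit 18) (.e (nat_lit 7270) (nat_lit 385) (.e (nat_lit 122917) (nat_lit 15) (.e (nat_lit 360449) (nat_lit 0) (.e (nat_lit 7124) (nat_lit 382) .nil))))))) (.g (nat_lit 4) .nil .nil))) 
(.lf (nat_lit 32231) (.g (nat_lit 1205) (.e (nat_lit 1201) (nat_lit 88) (.e (nat_lit 65623) (nat_lit 12) (.e (nat_lit 385094) (nat_lit 49) (.e (nat_lit 778326) (nat_lit 6) .nil)))) .nil))) (.nd (nat_lit 5) 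
(.lf (nat_lit 32215) (.g (nat_lit 2762) (.e (nat_lit 1201) (nat_lit 88) (.e (nat_lit 65622) (nat_lit 12) (.e (nat_lit 385105) (nat_lit 50) (.e (nat_lit 786480) (nat_lit 29) (.e (nat_lit 352318) (nat_lit 24) (.e (nat_lit 123183) (nat_lit 264) .nil)))))) (.g (nat_lit 5) .nil .nil))) 
(.lf (nat_lit 32247) (.g (nat_lit 4685) (.e (nat_lit 1201) (nat_lit 88) (.e (nat_lit 65624) (nat_lit 12) (.e (nat_lit 385094) (nat_lit 49) (.e (nat_lit 778326) (nat_lit 6) (.e (nat_lit 81957) (nat_lit 24) (.e (nat_lit 123182) (nat_lit 264) .nil)))))) (.g (nat_lit 0) .nil .nil))))) (.nd (nat_lit 4) (.nd (nat_lit 5) 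
(.lf (nat_lit 32207) (.g (nat_lit 1372) (.e (nat_lit 1201) (nat_lit 88) (.e (nat_lit 65622) (nat_lit 12) (.e (nat_lit 385094) (nat_lit 49) (.e (nat_lit 778326) (nat_lit 6) (.e (nat_lit 81958) (nat_lit 24) .nil))))) .nil)) 
(.lf (nat_lit 32239) (.g (nat_lit 3270) (.e (nat_lit 1201) (nat_lit 88) (.e (nat_lit 65624) (nat_lit 12) (.e (nat_lit 385093) (nat_lit 49) (.e (nat_lit 778326) (nat_lit 6) (.e (nat_lit 81959) (nat_lit 24) (.e (nat_lit 123183) (nat_lit 264) .nil)))))) (.g (nat_lit 6) .nil .nil)))) (.nd (nat_lit 5) 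
(.lf (nat_lit 32223) (.g (nat_lit 2356) (.e (nat_lit 1201) (nat_lit 88) (.e (nat_lit 65622) (nat_lit 12) (.e (nat_lit 385106) (nat_lit 50) (.e (nat_lit 786478) (nat_lit 29) (.e (nat_lit 352318) (nat_lit 24) (.e (nat_lit 123185) (nat_lit 264) .nil)))))) (.g (nat_lit 5) .nil .nil))) 
(.lf (nat_lit 32255) (.g (nat_lit 368) (.e (nat_lit 1201) (nat_lit 88) (.e (nat_lit 65624) (nat_lit 12) (.e (nat_lit 385105) (nat_lit 50) .nil))) .nil))))))))

noncomputable def tv454 : DT := (.nd (nat_lit 0) (.nd (nat_lit 1) (.nd (nat_lit 2) (.nd (nat_lit 3) (.nd (nat_lit 4) (.nd (nat_lit 5) 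
(.lf (nat_lit 32256) (.g (nat_lit 1389) (.e (nat_lit 1201) (nat_lit 88) (.e (nat_lit 65624) (nat_lit 12) (.e (nat_lit 385105) (nat_lit 50) (.e (nat_lit 786473) (nat_lit 27) (.e (nat_lit 335872) (nat_lit 0) .nil))))) .nil)) 
(.lf (nat_lit 32288) (.g (nat_lit 1941) (.e (nat_lit 1201) (nat_lit 88) (.e (nat_lit 65624) (nat_lit 12) (.e (nat_lit 385106) (nat_lit 50) (.e (nat_lit 786480) (nat_lit 29) (.e (nat_lit 352316) (nat_lit 24) .nil))))) .nil))) (.nd (nat_lit 5) 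
(.lf (nat_lit 32272) (.g (nat_lit 2343) (.e (nat_lit 1201) (nat_lit 88) (.e (nat_lit 65624) (nat_lit 12) (.e (nat_lit 385105) (nat_lit 50) (.e (nat_lit 786481) (nat_lit 30) (.e (nat_lit 368384) (nat_lit 0) (.e (nat_lit 5813) (nat_lit 320) .nil)))))) (.g (nat_lit 4) .nil .nil))) 
(.lf (nat_lit 32304) (.g (nat_lit 2930) (.e (nat_lit 1201) (nat_lit 88) (.e (nat_lit 65624) (nat_lit 12) (.e (nat_lit 385106) (nat_lit 50) (.e (nat_lit 786483) (nat_lit 30) (.e (nat_lit 360457) (nat_lit 0) (.e (nat_lit 5816) (nat_lit 320) .nil)))))) (.g (nat_lit 5) .nil .nil))))) (.nd (nat_lit 4) (.nd (nat_lit 5) 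
(.lf (nat_lit 32264) (.g (nat_lit 2283) (.e (nat_lit 1201) (nat_lit 88) (.e (nat_lit 65624) (nat_lit 12) (.e (nat_lit 385105) (nat_lit 50) (.e (nat_lit 786480) (nat_lit 29) (.e (nat_lit 352316) (nat_lit 24) (.e (nat_lit 123185) (nat_lit 264) .nil)))))) (.g (nat_lit 4) .nil .nil))) 
(.lf (nat_lit 32296) (.g (nat_lit 2567) (.e (nat_lit 1201) (nat_lit 88) (.e (nat_lit 65624) (nat_lit 12) (.e (nat_lit 385106) (nat_lit 50) (.e (nat_lit 786481) (nat_lit 30) (.e (nat_lit 360457) (nat_lit 0) (.e (nat_lit 5817) (nat_lit 320) .nil)))))) (.g (nat_lit 5) .nil .nil)))) (.nd (nat_lit 5) 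
(.lf (nat_lit 32280) (.g (nat_lit 3203) (.e (nat_lit 1201) (nat_lit 88) (.e (nat_lit 65624) (nat_lit 12) (.e (nat_lit 385105) (nat_lit 50) (.e (nat_lit 786483) (nat_lit 30) (.e (nat_lit 360457) (nat_lit 0) (.e (nat_lit 5818) (nat_lit 320) .nil)))))) (.g (nat_lit 6) .nil .nil))) 
(.lf (nat_lit 32312) (.g (nat_lit 2757) (.e (nat_lit 1201) (nat_lit 88) (.e (nat_lit 65625) (nat_lit 13) (.e (nat_lit 393232) (nat_lit 17) (.e (nat_lit 7593) (nat_lit 407) (.e (nat_lit 73731) (nat_lit 0) (.e (nat_lit 7122) (nat_lit 382) .nil)))))) (.g (nat_lit 5) .nil .nil)))))) (.nd (nat_lit 3) (.nd (nat_lit 4) (.nd (nat_lit 5) 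
(.lf (nat_lit 32260) (.g (nat_lit 3495) (.e (nat_lit 1201) (nat_lit 88) (.e (nat_lit 65624) (nat_lit 12) (.e (nat_lit 385105) (nat_lit 50) (.e (nat_lit 786478) (nat_lit 29) (.e (nat_lit 352318) (nat_lit 24) (.e (nat_lit 123183) (nat_lit 264) .nil)))))) (.g (nat_lit 6) .nil .nil))) 
(.lf (nat_lit 32292) (.g (nat_lit 3041) (.e (nat_lit 1201) (nat_lit 88) (.e (nat_lit 65624) (nat_lit 12) (.e (nat_lit 385106) (nat_lit 50) (.e (nat_lit 786480) (nat_lit 29) (.e (nat_lit 352318) (nat_lit 24) (.e (nat_lit 123185) (nat_lit 264) .nil)))))) (.g (nat_lit 5) .nil .nil)))) (.nd (nat_lit 5) 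
(.lf (nat_lit 32276) (.g (nat_lit 3014) (.e (nat_lit 1201) (nat_lit 88) (.e (nat_lit 65624) (nat_lit 12) (.e (nat_lit 385105) (nat_lit 50) (.e (nat_lit 786483) (nat_lit 30) (.e (nat_lit 360456) (nat_lit 0) (.e (nat_lit 5818) (nat_lit 320) .nil)))))) (.g (nat_lit 0) .nil .nil))) 
(.lf (nat_lit 32308) (.g (nat_lit 2199) (.e (nat_lit 1201) (nat_lit 88) (.e (nat_lit 65625) (nat_lit 13) (.e (nat_lit 393231) (nat_lit 17) (.e (nat_lit 7593) (nat_lit 407) (.e (nat_lit 73731) (nat_lit 0) (.e (nat_lit 7124) (nat_lit 382) .nil)))))) (.g (nat_lit 5) .nil .nil))))) (.nd (nat_lit 4) (.nd (nat_lit 5) 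
(.lf (nat_lit 32268) (.g (nat_lit 2133) (.e (nat_lit 1201) (nat_lit 88) (.e (nat_lit 65624) (nat_lit 12) (.e (nat_lit 385105) (nat_lit 50) (.e (nat_lit 786481) (nat_lit 30) (.e (nat_lit 360456) (nat_lit 0) (.e (nat_lit 5816) (nat_lit 320) .nil)))))) (.g (nat_lit 4) .nil .nil))) 
(.lf (nat_lit 32300) (.g (nat_lit 2558) (.e (nat_lit 1201) (nat_lit 88) (.e (nat_lit 65624) (nat_lit 12) (.e (nat_lit 385106) (nat_lit 50) (.e (nat_lit 786483) (nat_lit 30) (.e (nat_lit 360455) (nat_lit 0) (.e (nat_lit 5813) (nat_lit 320) .nil)))))) (.g (nat_lit 4) .nil .nil)))) (.nd (nat_lit 5) 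
(.lf (nat_lit 32284) (.g (nat_lit 1193) (.e (nat_lit 1201) (nat_lit 88) (.e (nat_lit 65624) (nat_lit 12) (.e (nat_lit 385106) (nat_lit 50) (.e (nat_lit 786478) (nat_lit 29) .nil)))) .nil)) 
(.lf (nat_lit 32316) (.g (nat_lit 3116) (.e (nat_lit 1201) (nat_lit 88) (.e (nat_lit 65625) (nat_lit 13) (.e (nat_lit 393234) (nat_lit 17) (.e (nat_lit 7593) (nat_lit 407) (.e (nat_lit 73730) (nat_lit 0) (.e (nat_lit 7122) (nat_lit 382) .nil)))))) (.g (nat_lit 6) .nil .nil))))))) (.nd (nat_lit 2) (.nd (nat_lit 3) (.nd (nat_lit 4) (.nd (nat_lit 5) 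
(.lf (nat_lit 32258) (.g (nat_lit 2053) (.e (nat_lit 1201) (nat_lit 88) (.e (nat_lit 65624) (nat_lit 12) (.e (nat_lit 385105) (nat_lit 50) (.e (nat_lit 786478) (nat_lit 29) (.e (nat_lit 352317) (nat_lit 24) .nil))))) .nil)) 
(.lf (nat_lit 32290) (.g (nat_lit 3390) (.e (nat_lit 1201) (nat_lit 88) (.e (nat_lit 65624) (nat_lit 12) (.e (nat_lit 385106) (nat_lit 50) (.e (nat_lit 786480) (nat_lit 29) (.e (nat_lit 352318) (nat_lit 24) (.e (nat_lit 123183) (nat_lit 264) .nil)))))) (.g (nat_lit 6) .nil .nil)))) (.nd (nat_lit 5) 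
(.lf (nat_lit 32274) (.g (nat_lit 2232) (.e (nat_lit 1201) (nat_lit 88) (.e (nat_lit 65624) (nat_lit 12) (.e (nat_lit 385105) (nat_lit 50) (.e (nat_lit 786483) (nat_lit 30) (.e (nat_lit 360456) (nat_lit 0) (.e (nat_lit 5816) (nat_lit 320) .nil)))))) (.g (nat_lit 4) .nil .nil))) 
(.lf (nat_lit 32306) (.g (nat_lit 1870) (.e (nat_lit 1201) (nat_lit 88) (.e (nat_lit 65624) (nat_lit 12) (.e (nat_lit 385106) (nat_lit 50) (.e (nat_lit 786483) (nat_lit 30) (.e (nat_lit 368384) (nat_lit 0) .nil))))) .nil)))) (.nd (nat_lit 4) (.nd (nat_lit 5) 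
(.lf (nat_lit 32266) (.g (nat_lit 3804) (.e (nat_lit 1201) (nat_lit 88) (.e (nat_lit 65624) (nat_lit 12) (.e (nat_lit 385105) (nat_lit 50) (.e (nat_lit 786480) (nat_lit 29) (.e (nat_lit 352318) (nat_lit 24) (.e (nat_lit 123184) (nat_lit 264) .nil)))))) (.g (nat_lit 6) .nil .nil))) 
(.lf (nat_lit 32298) (.g (nat_lit 1431) (.e (nat_lit 1201) (nat_lit 88) (.e (nat_lit 65624) (nat_lit 12) (.e (nat_lit 385106) (nat_lit 50) (.e (nat_lit 786482) (nat_lit 30) .nil)))) .nil))) (.nd (nat_lit 5) 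
(.lf (nat_lit 32282) (.g (nat_lit 2380) (.e (nat_lit 1201) (nat_lit 88) (.e (nat_lit 65624) (nat_lit 12) (.e (nat_lit 385105) (nat_lit 50) (.e (nat_lit 786483) (nat_lit 30) (.e (nat_lit 368384) (nat_lit 0) (.e (nat_lit 5813) (nat_lit 320) .nil)))))) (.g (nat_lit 4) .nil .nil))) 
(.lf (nat_lit 32314) (.g (nat_lit 3310) (.e (nat_lit 1201) (nat_lit 88) (.e (nat_lit 65625) (nat_lit 13) (.e (nat_lit 393233) (nat_lit 17) (.e (nat_lit 7591) (nat_lit 407) (.e (nat_lit 73729) (nat_lit 0) (.e (nat_lit 7122) (nat_lit 382) .nil)))))) (.g (nat_lit 6) .nil .nil)))))) (.nd (nat_lit 3) (.nd (nat_lit 4) (.nd (nat_lit 5) 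
(.lf (nat_lit 32262) (.g (nat_lit 2244) (.e (nat_lit 1201) (nat_lit 88) (.e (nat_lit 65624) (nat_lit 12) (.e (nat_lit 385105) (nat_lit 50) (.e (nat_lit 786480) (nat_lit 29) (.e (nat_lit 352316) (nat_lit 24) .nil))))) .nil)) 
(.lf (nat_lit 32294) (.g (nat_lit 2598) (.e (nat_lit 1201) (nat_lit 88) (.e (nat_lit 65624) (nat_lit 12) (.e (nat_lit 385106) (nat_lit 50) (.e (nat_lit 786481) (nat_lit 30) (.e (nat_lit 360456) (nat_lit 0) (.e (nat_lit 5817) (nat_lit 320) .nil)))))) (.g (nat_lit 6) .nil .nil)))) (.nd (nat_lit 5) 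
(.lf (nat_lit 32278) (.g (nat_lit 2578) (.e (nat_lit 1201) (nat_lit 88) (.e (nat_lit 65624) (nat_lit 12) (.e (nat_lit 385105) (nat_lit 50) (.e (nat_lit 786483) (nat_lit 30) (.e (nat_lit 360457) (nat_lit 0) (.e (nat_lit 5816) (nat_lit 320) .nil)))))) (.g (nat_lit 4) .nil .nil))) 
(.lf (nat_lit 32310) (.g (nat_lit 3348) (.e (nat_lit 1201) (nat_lit 88) (.e (nat_lit 65625) (nat_lit 13) (.e (nat_lit 393232) (nat_lit 17) (.e (nat_lit 7591) (nat_lit 407) (.e (nat_lit 73729) (nat_lit 0) (.e (nat_lit 7124) (nat_lit 382) .nil)))))) (.g (nat_lit 6) .nil .nil))))) (.nd (nat_lit 4) (.nd (nat_lit 5) 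
(.lf (nat_lit 32270) (.g (nat_lit 2185) (.e (nat_lit 1201) (nat_lit 88) (.e (nat_lit 65624) (nat_lit 12) (.e (nat_lit 385105) (nat_lit 50) (.e (nat_lit 786481) (nat_lit 30) (.e (nat_lit 360457) (nat_lit 0) (.e (nat_lit 5816) (nat_lit 320) .nil)))))) (.g (nat_lit 4) .nil .nil))) 
(.lf (nat_lit 32302) (.g (nat_lit 2865) (.e (nat_lit 1201) (nat_lit 88) (.e (nat_lit 65624) (nat_lit 12) (.e (nat_lit 385106) (nat_lit 50) (.e (nat_lit 786483) (nat_lit 30) (.e (nat_lit 360456) (nat_lit 0) (.e (nat_lit 5817) (nat_lit 320) .nil)))))) (.g (nat_lit 6) .nil .nil)))) (.nd (nat_lit 5) 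
(.lf (nat_lit 32286) (.g (nat_lit 3477) (.e (nat_lit 1201) (nat_lit 88) (.e (nat_lit 65624) (nat_lit 12) (.e (nat_lit 385106) (nat_lit 50) (.e (nat_lit 786478) (nat_lit 29) (.e (nat_lit 352318) (nat_lit 24) (.e (nat_lit 123183) (nat_lit 264) .nil)))))) (.g (nat_lit 6) .nil .nil))) 
(.lf (nat_lit 32318) (.g (nat_lit 2657) (.e (nat_lit 1201) (nat_lit 88) (.e (nat_lit 65625) (nat_lit 13) (.e (nat_lit 393265) (nat_lit 22) (.e (nat_lit 417820) (nat_lit 10) (.e (nat_lit 5761) (nat_lit 315) (.e (nat_lit 163850) (nat_lit 0) (.e (nat_lit 6277) (nat_lit 337) .nil))))))) (.g (nat_lit 6) .nil .nil)))))))) 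
(.nd (nat_lit 1) (.nd (nat_lit 2) (.nd (nat_lit 3) (.nd (nat_lit 4) (.nd (nat_lit 5) 
(.lf (nat_lit 32257) (.g (nat_lit 2053) (.e (nat_lit 1201) (nat_lit 88) (.e (nat_lit 65624) (nat_lit 12) (.e (nat_lit 385105) (nat_lit 50) (.e (nat_lit 786478) (nat_lit 29) (.e (nat_lit 352316) (nat_lit 24) .nil))))) .nil)) 
(.lf (nat_lit 32289) (.g (nat_lit 2372) (.e (nat_lit 1201) (nat_lit 88) (.e (nat_lit 65624) (nat_lit 12) (.e (nat_lit 385106) (nat_lit 50) (.e (nat_lit 786480) (nat_lit 29) (.e (nat_lit 352316) (nat_lit 24) (.e (nat_lit 123185) (nat_lit 264) .nil)))))) (.g (nat_lit 4) .nil .nil)))) (.nd (nat_lit 5) 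
(.lf (nat_lit 32273) (.g (nat_lit 2612) (.e (nat_lit 1201) (nat_lit 88) (.e (nat_lit 65624) (nat_lit 12) (.e (nat_lit 385105) (nat_lit 50) (.e (nat_lit 786483) (nat_lit 30) (.e (nat_lit 360455) (nat_lit 0) (.e (nat_lit 5813) (nat_lit 320) .nil)))))) (.g (nat_lit 4) .nil .nil))) 
(.lf (nat_lit 32305) (.g (nat_lit 3153) (.e (nat_lit 1201) (nat_lit 88) (.e (nat_lit 65624) (nat_lit 12) (.e (nat_lit 385106) (nat_lit 50) (.e (nat_lit 786483) (nat_lit 30) (.e (nat_lit 360457) (nat_lit 0) (.e (nat_lit 5817) (nat_lit 320) .nil)))))) (.g (nat_lit 5) .nil .nil))))) (.nd (nat_lit 4) (.nd (nat_lit 5) 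
(.lf (nat_lit 32265) (.g (nat_lit 3542) (.e (nat_lit 1201) (nat_lit 88) (.e (nat_lit 65624) (nat_lit 12) (.e (nat_lit 385105) (nat_lit 50) (.e (nat_lit 786480) (nat_lit 29) (.e (nat_lit 352318) (nat_lit 24) (.e (nat_lit 123183) (nat_lit 264) .nil)))))) (.g (nat_lit 6) .nil .nil))) 
(.lf (nat_lit 32297) (.g (nat_lit 2300) (.e (nat_lit 1201) (nat_lit 88) (.e (nat_lit 65624) (nat_lit 12) (.e (nat_lit 385106) (nat_lit 50) (.e (nat_lit 786481) (nat_lit 30) (.e (nat_lit 368384) (nat_lit 0) (.e (nat_lit 5813) (nat_lit 320) .nil)))))) (.g (nat_lit 4) .nil .nil)))) (.nd (nat_lit 5) 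
(.lf (nat_lit 32281) (.g (nat_lit 1830) (.e (nat_lit 1201) (nat_lit 88) (.e (nat_lit 65624) (nat_lit 12) (.e (nat_lit 385105) (nat_lit 50) (.e (nat_lit 786483) (nat_lit 30) (.e (nat_lit 368384) (nat_lit 0) .nil))))) .nil)) 
(.lf (nat_lit 32313) (.g (nat_lit 2647) (.e (nat_lit 1201) (nat_lit 88) (.e (nat_lit 65625) (nat_lit 13) (.e (nat_lit 393232) (nat_lit 17) (.e (nat_lit 7593) (nat_lit 407) (.e (nat_lit 73731) (nat_lit 0) (.e (nat_lit 7124) (nat_lit 382) .nil)))))) (.g (nat_lit 5) .nil .nil)))))) (.nd (nat_lit 3) (.nd (nat_lit 4) (.nd (nat_lit 5) 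
(.lf (nat_lit 32261) (.g (nat_lit 1328) (.e (nat_lit 1201) (nat_lit 88) (.e (nat_lit 65624) (nat_lit 12) (.e (nat_lit 385105) (nat_lit 50) (.e (nat_lit 786479) (nat_lit 29) .nil)))) .nil)) 
(.lf (nat_lit 32293) (.g (nat_lit 2109) (.e (nat_lit 1201) (nat_lit 88) (.e (nat_lit 65624) (nat_lit 12) (.e (nat_lit 385106) (nat_lit 50) (.e (nat_lit 786481) (nat_lit 30) (.e (nat_lit 360456) (nat_lit 0) (.e (nat_lit 5816) (nat_lit 320) .nil)))))) (.g (nat_lit 4) .nil .nil)))) (.nd (nat_lit 5) 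
(.lf (nat_lit 32277) (.g (nat_lit 1860) (.e (nat_lit 1201) (nat_lit 88) (.e (nat_lit 65624) (nat_lit 12) (.e (nat_lit 385105) (nat_lit 50) (.e (nat_lit 786483) (nat_lit 30) (.e (nat_lit 360457) (nat_lit 0) .nil))))) .nil)) 
(.lf (nat_lit 32309) (.g (nat_lit 3392) (.e (nat_lit 1201) (nat_lit 88) (.e (nat_lit 65625) (nat_lit 13) (.e (nat_lit 393232) (nat_lit 17) (.e (nat_lit 7591) (nat_lit 407) (.e (nat_lit 73729) (nat_lit 0) (.e (nat_lit 7122) (nat_lit 382) .nil)))))) (.g (nat_lit 6) .nil .nil))))) (.nd (nat_lit 4) (.nd (nat_lit 5) 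
(.lf (nat_lit 32269) (.g (nat_lit 2594) (.e (nat_lit 1201) (nat_lit 88) (.e (nat_lit 65624) (nat_lit 12) (.e (nat_lit 385105) (nat_lit 50) (.e (nat_lit 786481) (nat_lit 30) (.e (nat_lit 360456) (nat_lit 0) (.e (nat_lit 5817) (nat_lit 320) .nil)))))) (.g (nat_lit 6) .nil .nil))) 
(.lf (nat_lit 32301) (.g (nat_lit 2376) (.e (nat_lit 1201) (nat_lit 88) (.e (nat_lit 65624) (nat_lit 12) (.e (nat_lit 385106) (nat_lit 50) (.e (nat_lit 786483) (nat_lit 30) (.e (nat_lit 360456) (nat_lit 0) (.e (nat_lit 5816) (nat_lit 320) .nil)))))) (.g (nat_lit 4) .nil .nil)))) (.nd (nat_lit 5) 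
(.lf (nat_lit 32285) (.g (nat_lit 2067) (.e (nat_lit 1201) (nat_lit 88) (.e (nat_lit 65624) (nat_lit 12) (.e (nat_lit 385106) (nat_lit 50) (.e (nat_lit 786478) (nat_lit 29) (.e (nat_lit 352317) (nat_lit 24) .nil))))) .nil)) 
(.lf (nat_lit 32317) (.g (nat_lit 1946) (.e (nat_lit 1201) (nat_lit 88) (.e (nat_lit 65625) (nat_lit 13) (.e (nat_lit 393260) (nat_lit 21) (.e (nat_lit 409649) (nat_lit 18) (.e (nat_lit 303115) (nat_lit 1) .nil))))) .nil)))))) (.nd (nat_lit 2) (.nd (nat_lit 3) (.nd (nat_lit 4) (.nd (nat_lit 5) 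
(.lf (nat_lit 32259) (.g (nat_lit 2196) (.e (nat_lit 1201) (nat_lit 88) (.e (nat_lit 65624) (nat_lit 12) (.e (nat_lit 385105) (nat_lit 50) (.e (nat_lit 786478) (nat_lit 29) (.e (nat_lit 352317) (nat_lit 24) (.e (nat_lit 123184) (nat_lit 264) .nil)))))) (.g (nat_lit 4) .nil .nil))) 
(.lf (nat_lit 32291) (.g (nat_lit 3663) (.e (nat_lit 1201) (nat_lit 88) (.e (nat_lit 65624) (nat_lit 12) (.e (nat_lit 385106) (nat_lit 50) (.e (nat_lit 786480) (nat_lit 29) (.e (nat_lit 352318) (nat_lit 24) (.e (nat_lit 123184) (nat_lit 264) .nil)))))) (.g (nat_lit 0) .nil .nil)))) (.nd (nat_lit 5) 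
(.lf (nat_lit 32275) (.g (nat_lit 2693) (.e (nat_lit 1201) (nat_lit 88) (.e (nat_lit 65624) (nat_lit 12) (.e (nat_lit 385105) (nat_lit 50) (.e (nat_lit 786483) (nat_lit 30) (.e (nat_lit 360456) (nat_lit 0) (.e (nat_lit 5817) (nat_lit 320) .nil)))))) (.g (nat_lit 5) .nil .nil))) 
(.lf (nat_lit 32307) (.g (nat_lit 2509) (.e (nat_lit 1201) (nat_lit 88) (.e (nat_lit 65624) (nat_lit 12) (.e (nat_lit 385106) (nat_lit 50) (.e (nat_lit 786483) (nat_lit 30) (.e (nat_lit 368384) (nat_lit 0) (.e (nat_lit 5813) (nat_lit 320) .nil)))))) (.g (nat_lit 4) .nil .nil))))) (.nd (nat_lit 4) (.nd (nat_lit 5) 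
(.lf (nat_lit 32267) (.g (nat_lit 2933) (.e (nat_lit 1201) (nat_lit 88) (.e (nat_lit 65624) (nat_lit 12) (.e (nat_lit 385105) (nat_lit 50) (.e (nat_lit 786480) (nat_lit 29) (.e (nat_lit 352318) (nat_lit 24) (.e (nat_lit 123185) (nat_lit 264) .nil)))))) (.g (nat_lit 5) .nil .nil))) 
(.lf (nat_lit 32299) (.g (nat_lit 2267) (.e (nat_lit 1201) (nat_lit 88) (.e (nat_lit 65624) (nat_lit 12) (.e (nat_lit 385106) (nat_lit 50) (.e (nat_lit 786483) (nat_lit 30) (.e (nat_lit 360451) (nat_lit 0) (.e (nat_lit 7936) (nat_lit 320) .nil)))))) (.g (nat_lit 4) .nil .nil)))) (.nd (nat_lit 5) 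
(.lf (nat_lit 32283) (.g (nat_lit 2564) (.e (nat_lit 1201) (nat_lit 88) (.e (nat_lit 65624) (nat_lit 12) (.e (nat_lit 385105) (nat_lit 50) (.e (nat_lit 786483) (nat_lit 30) (.e (nat_lit 368384) (nat_lit 0) (.e (nat_lit 5817) (nat_lit 320) .nil)))))) (.g (nat_lit 4) .nil .nil))) 
(.lf (nat_lit 32315) (.g (nat_lit 3615) (.e (nat_lit 1201) (nat_lit 88) (.e (nat_lit 65625) (nat_lit 13) (.e (nat_lit 393234) (nat_lit 17) (.e (nat_lit 7591) (nat_lit 407) (.e (nat_lit 73729) (nat_lit 0) (.e (nat_lit 7122) (nat_lit 382) .nil)))))) (.g (nat_lit 6) .nil .nil)))))) (.nd (nat_lit 3) (.nd (nat_lit 4) (.nd (nat_lit 5) 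
(.lf (nat_lit 32263) (.g (nat_lit 2467) (.e (nat_lit 1201) (nat_lit 88) (.e (nat_lit 65624) (nat_lit 12) (.e (nat_lit 385105) (nat_lit 50) (.e (nat_lit 786480) (nat_lit 29) (.e (nat_lit 352316) (nat_lit 24) (.e (nat_lit 123182) (nat_lit 264) .nil)))))) (.g (nat_lit 4) .nil .nil))) 
(.lf (nat_lit 32295) (.g (nat_lit 2169) (.e (nat_lit 1201) (nat_lit 88) (.e (nat_lit 65624) (nat_lit 12) (.e (nat_lit 385106) (nat_lit 50) (.e (nat_lit 786481) (nat_lit 30) (.e (nat_lit 360457) (nat_lit 0) (.e (nat_lit 5816) (nat_lit 320) .nil)))))) (.g (nat_lit 4) .nil .nil)))) (.nd (nat_lit 5) 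
(.lf (nat_lit 32279) (.g (nat_lit 2773) (.e (nat_lit 1201) (nat_lit 88) (.e (nat_lit 65624) (nat_lit 12) (.e (nat_lit 385105) (nat_lit 50) (.e (nat_lit 786483) (nat_lit 30) (.e (nat_lit 360457) (nat_lit 0) (.e (nat_lit 5817) (nat_lit 320) .nil)))))) (.g (nat_lit 5) .nil .nil))) 
(.lf (nat_lit 32311) (.g (nat_lit 2406) (.e (nat_lit 1201) (nat_lit 88) (.e (nat_lit 65625) (nat_lit 13) (.e (nat_lit 393232) (nat_lit 17) (.e (nat_lit 7593) (nat_lit 407) (.e (nat_lit 73730) (nat_lit 0) (.e (nat_lit 7125) (nat_lit 382) .nil)))))) (.g (nat_lit 4) .nil .nil))))) (.nd (nat_lit 4) (.nd (nat_lit 5) 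
(.lf (nat_lit 32271) (.g (nat_lit 2555) (.e (nat_lit 1201) (nat_lit 88) (.e (nat_lit 65624) (nat_lit 12) (.e (nat_lit 385105) (nat_lit 50) (.e (nat_lit 786481) (nat_lit 30) (.e (nat_lit 360457) (nat_lit 0) (.e (nat_lit 5817) (nat_lit 320) .nil)))))) (.g (nat_lit 5) .nil .nil))) 
(.lf (nat_lit 32303) (.g (nat_lit 2111) (.e (nat_lit 1201) (nat_lit 88) (.e (nat_lit 65624) (nat_lit 12) (.e (nat_lit 385106) (nat_lit 50) (.e (nat_lit 786483) (nat_lit 30) (.e (nat_lit 360457) (nat_lit 0) (.e (nat_lit 5815) (nat_lit 320) .nil)))))) (.g (nat_lit 4) .nil .nil)))) (.nd (nat_lit 5) 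
(.lf (nat_lit 32287) (.g (nat_lit 3155) (.e (nat_lit 1201) (nat_lit 88) (.e (nat_lit 65624) (nat_lit 12) (.e (nat_lit 385106) (nat_lit 50) (.e (nat_lit 786478) (nat_lit 29) (.e (nat_lit 352318) (nat_lit 24) (.e (nat_lit 123185) (nat_lit 264) .nil)))))) (.g (nat_lit 5) .nil .nil))) 
(.lf (nat_lit 32319) (.g (nat_lit 2369) (.e (nat_lit 1201) (nat_lit 88) (.e (nat_lit 65625) (nat_lit 13) (.e (nat_lit 393270) (nat_lit 23) (.e (nat_lit 426446) (nat_lit 20) (.e (nat_lit 114710) (nat_lit 21) (.e (nat_lit 57829) (nat_lit 250) .nil)))))) (.g (nat_lit 5) .nil .nil)))))))))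

noncomputable def tv455 : DT := (.nd (nat_lit 0) (.nd (nat_lit 1) (.nd (nat_lit 2) (.nd (nat_lit 3) (.nd (nat_lit 4) (.nd (nat_lit 5) 
(.lf (nat_lit 32320) (.g (nat_lit 1596) (.e (nat_lit 1201) (nat_lit 88) (.e (nat_lit 65625) (nat_lit 13) (.e (nat_lit 393270) (nat_lit 23) (.e (nat_lit 426446) (nat_lit 20) (.e (nat_lit 114712) (nat_lit 21) (.e (nat_lit 57829) (nat_lit 250) .nil)))))) (.g (nat_lit 4) .nil .nil))) 
(.lf (nat_lit 32352) (.g (nat_lit 4151) (.e (nat_lit 1201) (nat_lit 88) (.e (nat_lit 65625) (nat_lit 13) (.e (nat_lit 393301) (nat_lit 27) (.e (nat_lit 491558) (nat_lit 10) (.e (nat_lit 344096) (nat_lit 18) (.e (nat_lit 7125) (nat_lit 382) .nil)))))) (.g (nat_lit 0) .nil .nil)))) (.nd (nat_lit 5) 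
(.lf (nat_lit 32336) (.g (nat_lit 2795) (.e (nat_lit 1201) (nat_lit 88) (.e (nat_lit 65625) (nat_lit 13) (.e (nat_lit 393300) (nat_lit 27) (.e (nat_lit 491558) (nat_lit 10) (.e (nat_lit 344090) (nat_lit 18) (.e (nat_lit 7124) (nat_lit 382) .nil)))))) (.g (nat_lit 6) .nil .nil))) 
(.lf (nat_lit 32368) (.g (nat_lit 2632) (.e (nat_lit 1201) (nat_lit 88) (.e (nat_lit 65626) (nat_lit 13) (.e (nat_lit 393234) (nat_lit 17) (.e (nat_lit 7593) (nat_lit 407) (.e (nat_lit 73729) (nat_lit 0) (.e (nat_lit 7124) (nat_lit 382) .nil)))))) (.g (nat_lit 5) .nil .nil))))) (.nd (nat_lit 4) (.nd (nat_lit 5) 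
(.lf (nat_lit 32328) (.g (nat_lit 2505) (.e (nat_lit 1201) (nat_lit 88) (.e (nat_lit 65625) (nat_lit 13) (.e (nat_lit 393299) (nat_lit 27) (.e (nat_lit 491558) (nat_lit 10) (.e (nat_lit 344090) (nat_lit 18) (.e (nat_lit 7125) (nat_lit 382) .nil)))))) (.g (nat_lit 4) .nil .nil))) 
(.lf (nat_lit 32360) (.g (nat_lit 3575) (.e (nat_lit 1201) (nat_lit 88) (.e (nat_lit 65625) (nat_lit 13) (.e (nat_lit 393301) (nat_lit 27) (.e (nat_lit 491560) (nat_lit 10) (.e (nat_lit 344095) (nat_lit 18) (.e (nat_lit 7122) (nat_lit 382) .nil)))))) (.g (nat_lit 4) .nil .nil)))) (.nd (nat_lit 5) 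
(.lf (nat_lit 32344) (.g (nat_lit 3100) (.e (nat_lit 1201) (nat_lit 88) (.e (nat_lit 65625) (nat_lit 13) (.e (nat_lit 393300) (nat_lit 27) (.e (nat_lit 491560) (nat_lit 10) (.e (nat_lit 344096) (nat_lit 18) (.e (nat_lit 7124) (nat_lit 382) .nil)))))) (.g (nat_lit 6) .nil .nil))) 
(.lf (nat_lit 32376) (.g (nat_lit 1903) (.e (nat_lit 1201) (nat_lit 88) (.e (nat_lit 65626) (nat_lit 13) (.e (nat_lit 393293) (nat_lit 26) (.e (nat_lit 475212) (nat_lit 42) (.e (nat_lit 720930) (nat_lit 21) (.e (nat_lit 57829) (nat_lit 250) .nil)))))) (.g (nat_lit 4) .nil .nil)))))) (.nd (nat_lit 3) (.nd (nat_lit 4) (.nd (nat_lit 5) 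
(.lf (nat_lit 32324) (.g (nat_lit 1811) (.e (nat_lit 1201) (nat_lit 88) (.e (nat_lit 65625) (nat_lit 13) (.e (nat_lit 393293) (nat_lit 26) (.e (nat_lit 475214) (nat_lit 42) (.e (nat_lit 720932) (nat_lit 21) (.e (nat_lit 57830) (nat_lit 250) .nil)))))) (.g (nat_lit 4) .nil .nil))) 
(.lf (nat_lit 32356) (.g (nat_lit 3151) (.e (nat_lit 1201) (nat_lit 88) (.e (nat_lit 65625) (nat_lit 13) (.e (nat_lit 393301) (nat_lit 27) (.e (nat_lit 491560) (nat_lit 10) (.e (nat_lit 344088) (nat_lit 18) (.e (nat_lit 7125) (nat_lit 382) .nil)))))) (.g (nat_lit 4) .nil .nil)))) (.nd (nat_lit 5) 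
(.lf (nat_lit 32340) (.g (nat_lit 2946) (.e (nat_lit 1201) (nat_lit 88) (.e (nat_lit 65625) (nat_lit 13) (.e (nat_lit 393300) (nat_lit 27) (.e (nat_lit 491560) (nat_lit 10) (.e (nat_lit 344091) (nat_lit 18) (.e (nat_lit 7124) (nat_lit 382) .nil)))))) (.g (nat_lit 6) .nil .nil))) 
(.lf (nat_lit 32372) (.g (nat_lit 412) (.e (nat_lit 1201) (nat_lit 88) (.e (nat_lit 65626) (nat_lit 13) (.e (nat_lit 393270) (nat_lit 23) .nil))) .nil)))) (.nd (nat_lit 4) (.nd (nat_lit 5) 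
(.lf (nat_lit 32332) (.g (nat_lit 2327) (.e (nat_lit 1201) (nat_lit 88) (.e (nat_lit 65625) (nat_lit 13) (.e (nat_lit 393299) (nat_lit 27) (.e (nat_lit 491558) (nat_lit 10) (.e (nat_lit 344095) (nat_lit 18) (.e (nat_lit 7122) (nat_lit 382) .nil)))))) (.g (nat_lit 4) .nil .nil))) 
(.lf (nat_lit 32364) (.g (nat_lit 2636) (.e (nat_lit 1201) (nat_lit 88) (.e (nat_lit 65626) (nat_lit 13) (.e (nat_lit 393234) (nat_lit 17) (.e (nat_lit 7591) (nat_lit 407) (.e (nat_lit 73729) (nat_lit 0) (.e (nat_lit 7124) (nat_lit 382) .nil)))))) (.g (nat_lit 5) .nil .nil)))) (.nd (nat_lit 5) 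
(.lf (nat_lit 32348) (.g (nat_lit 3849) (.e (nat_lit 1201) (nat_lit 88) (.e (nat_lit 65625) (nat_lit 13) (.e (nat_lit 393301) (nat_lit 27) (.e (nat_lit 491558) (nat_lit 10) (.e (nat_lit 344091) (nat_lit 18) (.e (nat_lit 7122) (nat_lit 382) .nil)))))) (.g (nat_lit 6) .nil .nil))) 
(.lf (nat_lit 32380) (.g (nat_lit 2150) (.e (nat_lit 1201) (nat_lit 88) (.e (nat_lit 65626) (nat_lit 13) (.e (nat_lit 393293) (nat_lit 26) (.e (nat_lit 475212) (nat_lit 42) (.e (nat_lit 720934) (nat_lit 21) (.e (nat_lit 57829) (nat_lit 250) .nil)))))) (.g (nat_lit 4) .nil .nil))))))) (.nd (nat_lit 2) (.nd (nat_lit 3) (.nd (nat_lit 4) (.nd (nat_lit 5) 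
(.lf (nat_lit 32322) (.g (nat_lit 1724) (.e (nat_lit 1201) (nat_lit 88) (.e (nat_lit 65625) (nat_lit 13) (.e (nat_lit 393292) (nat_lit 26) (.e (nat_lit 475214) (nat_lit 42) (.e (nat_lit 720931) (nat_lit 21) (.e (nat_lit 57830) (nat_lit 250) .nil)))))) (.g (nat_lit 4) .nil .nil))) 
(.lf (nat_lit 32354) (.g (nat_lit 3546) (.e (nat_lit 1201) (nat_lit 88) (.e (nat_lit 65625) (nat_lit 13) (.e (nat_lit 393301) (nat_lit 27) (.e (nat_lit 491560) (nat_lit 10) (.e (nat_lit 344087) (nat_lit 18) (.e (nat_lit 7124) (nat_lit 382) .nil)))))) (.g (nat_lit 4) .nil .nil)))) (.nd (nat_lit 5) 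
(.lf (nat_lit 32338) (.g (nat_lit 3480) (.e (nat_lit 1201) (nat_lit 88) (.e (nat_lit 65625) (nat_lit 13) (.e (nat_lit 393300) (nat_lit 27) (.e (nat_lit 491558) (nat_lit 10) (.e (nat_lit 344096) (nat_lit 18) (.e (nat_lit 7122) (nat_lit 382) .nil)))))) (.g (nat_lit 6) .nil .nil))) 
(.lf (nat_lit 32370) (.g (nat_lit 1836) (.e (nat_lit 1201) (nat_lit 88) (.e (nat_lit 65626) (nat_lit 13) (.e (nat_lit 393234) (nat_lit 17) (.e (nat_lit 7593) (nat_lit 407) (.e (nat_lit 73731) (nat_lit 0) (.e (nat_lit 7124) (nat_lit 382) .nil)))))) (.g (nat_lit 4) .nil .nil))))) (.nd (nat_lit 4) (.nd (nat_lit 5) 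
(.lf (nat_lit 32330) (.g (nat_lit 2479) (.e (nat_lit 1201) (nat_lit 88) (.e (nat_lit 65625) (nat_lit 13) (.e (nat_lit 393299) (nat_lit 27) (.e (nat_lit 491558) (nat_lit 10) (.e (nat_lit 344091) (nat_lit 18) (.e (nat_lit 7124) (nat_lit 382) .nil)))))) (.g (nat_lit 4) .nil .nil))) 
(.lf (nat_lit 32362) (.g (nat_lit 3664) (.e (nat_lit 1201) (nat_lit 88) (.e (nat_lit 65625) (nat_lit 13) (.e (nat_lit 393301) (nat_lit 27) (.e (nat_lit 491560) (nat_lit 10) (.e (nat_lit 344096) (nat_lit 18) (.e (nat_lit 7124) (nat_lit 382) .nil)))))) (.g (nat_lit 5) .nil .nil)))) (.nd (nat_lit 5) 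
(.lf (nat_lit 32346) (.g (nat_lit 2917) (.e (nat_lit 1201) (nat_lit 88) (.e (nat_lit 65625) (nat_lit 13) (.e (nat_lit 393301) (nat_lit 27) (.e (nat_lit 491558) (nat_lit 10) (.e (nat_lit 344090) (nat_lit 18) (.e (nat_lit 7122) (nat_lit 382) .nil)))))) (.g (nat_lit 5) .nil .nil))) 
(.lf (nat_lit 32378) (.g (nat_lit 2149) (.e (nat_lit 1201) (nat_lit 88) (.e (nat_lit 65626) (nat_lit 13) (.e (nat_lit 393293) (nat_lit 26) (.e (nat_lit 475212) (nat_lit 42) (.e (nat_lit 720931) (nat_lit 21) (.e (nat_lit 57829) (nat_lit 250) .nil)))))) (.g (nat_lit 4) .nil .nil)))))) (.nd (nat_lit 3) (.nd (nat_lit 4) (.nd (nat_lit 5) 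
(.lf (nat_lit 32326) (.g (nat_lit 1989) (.e (nat_lit 1201) (nat_lit 88) (.e (nat_lit 65625) (nat_lit 13) (.e (nat_lit 393298) (nat_lit 27) (.e (nat_lit 491560) (nat_lit 10) (.e (nat_lit 344096) (nat_lit 18) (.e (nat_lit 7125) (nat_lit 382) .nil)))))) (.g (nat_lit 4) .nil .nil))) 
(.lf (nat_lit 32358) (.g (nat_lit 3117) (.e (nat_lit 1201) (nat_lit 88) (.e (nat_lit 65625) (nat_lit 13) (.e (nat_lit 393301) (nat_lit 27) (.e (nat_lit 491560) (nat_lit 10) (.e (nat_lit 344091) (nat_lit 18) (.e (nat_lit 7124) (nat_lit 382) .nil)))))) (.g (nat_lit 4) .nil .nil)))) (.nd (nat_lit 5) 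
(.lf (nat_lit 32342) (.g (nat_lit 2919) (.e (nat_lit 1201) (nat_lit 88) (.e (nat_lit 65625) (nat_lit 13) (.e (nat_lit 393300) (nat_lit 27) (.e (nat_lit 491560) (nat_lit 10) (.e (nat_lit 344094) (nat_lit 18) (.e (nat_lit 7124) (nat_lit 382) .nil)))))) (.g (nat_lit 6) .nil .nil))) 
(.lf (nat_lit 32374) (.g (nat_lit 1684) (.e (nat_lit 1201) (nat_lit 88) (.e (nat_lit 65626) (nat_lit 13) (.e (nat_lit 393270) (nat_lit 23) (.e (nat_lit 426448) (nat_lit 20) (.e (nat_lit 114710) (nat_lit 21) (.e (nat_lit 57829) (nat_lit 250) .nil)))))) (.g (nat_lit 4) .nil .nil))))) (.nd (nat_lit 4) (.nd (nat_lit 5) 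
(.lf (nat_lit 32334) (.g (nat_lit 2533) (.e (nat_lit 1201) (nat_lit 88) (.e (nat_lit 65625) (nat_lit 13) (.e (nat_lit 393299) (nat_lit 27) (.e (nat_lit 491558) (nat_lit 10) (.e (nat_lit 344096) (nat_lit 18) (.e (nat_lit 7124) (nat_lit 382) .nil)))))) (.g (nat_lit 4) .nil .nil))) 
(.lf (nat_lit 32366) (.g (nat_lit 2099) (.e (nat_lit 1201) (nat_lit 88) (.e (nat_lit 65626) (nat_lit 13) (.e (nat_lit 393234) (nat_lit 17) (.e (nat_lit 7591) (nat_lit 407) (.e (nat_lit 73731) (nat_lit 0) (.e (nat_lit 7124) (nat_lit 382) .nil)))))) (.g (nat_lit 4) .nil .nil)))) (.nd (nat_lit 5) 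
(.lf (nat_lit 32350) (.g (nat_lit 2432) (.e (nat_lit 1201) (nat_lit 88) (.e (nat_lit 65625) (nat_lit 13) (.e (nat_lit 393301) (nat_lit 27) (.e (nat_lit 491558) (nat_lit 10) (.e (nat_lit 344095) (nat_lit 18) (.e (nat_lit 7125) (nat_lit 382) .nil)))))) (.g (nat_lit 4) .nil .nil))) 
(.lf (nat_lit 32382) (.g (nat_lit 1951) (.e (nat_lit 1201) (nat_lit 88) (.e (nat_lit 65626) (nat_lit 13) (.e (nat_lit 393293) (nat_lit 26) (.e (nat_lit 475214) (nat_lit 42) (.e (nat_lit 720930) (nat_lit 21) (.e (nat_lit 57829) (nat_lit 250) .nil)))))) (.g (nat_lit 4) .nil .nil)))))))) (.nd (nat_lit 1) (.nd (nat_lit 2) (.nd (nat_lit 3) (.nd (nat_lit 4) (.nd (nat_lit 5) 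
(.lf (nat_lit 32321) (.g (nat_lit 1538) (.e (nat_lit 1201) (nat_lit 88) (.e (nat_lit 65625) (nat_lit 13) (.e (nat_lit 393270) (nat_lit 23) (.e (nat_lit 426448) (nat_lit 20) (.e (nat_lit 114712) (nat_lit 21) (.e (nat_lit 57829) (nat_lit 250) .nil)))))) (.g (nat_lit 4) .nil .nil))) 
(.lf (nat_lit 32353) (.g (nat_lit 2949) (.e (nat_lit 1201) (nat_lit 88) (.e (nat_lit 65625) (nat_lit 13) (.e (nat_lit 393301) (nat_lit 27) (.e (nat_lit 491560) (nat_lit 10) (.e (nat_lit 344087) (nat_lit 18) (.e (nat_lit 7122) (nat_lit 382) .nil)))))) (.g (nat_lit 4) .nil .nil)))) (.nd (nat_lit 5) 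
(.lf (nat_lit 32337) (.g (nat_lit 3348) (.e (nat_lit 1201) (nat_lit 88) (.e (nat_lit 65625) (nat_lit 13) (.e (nat_lit 393300) (nat_lit 27) (.e (nat_lit 491558) (nat_lit 10) (.e (nat_lit 344091) (nat_lit 18) (.e (nat_lit 7122) (nat_lit 382) .nil)))))) (.g (nat_lit 6) .nil .nil))) 
(.lf (nat_lit 32369) (.g (nat_lit 1880) (.e (nat_lit 1201) (nat_lit 88) (.e (nat_lit 65626) (nat_lit 13) (.e (nat_lit 393234) (nat_lit 17) (.e (nat_lit 7593) (nat_lit 407) (.e (nat_lit 73730) (nat_lit 0) .nil))))) .nil)))) (.nd (nat_lit 4) (.nd (nat_lit 5) 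
(.lf (nat_lit 32329) (.g (nat_lit 2469) (.e (nat_lit 1201) (nat_lit 88) (.e (nat_lit 65625) (nat_lit 13) (.e (nat_lit 393299) (nat_lit 27) (.e (nat_lit 491558) (nat_lit 10) (.e (nat_lit 344091) (nat_lit 18) (.e (nat_lit 7122) (nat_lit 382) .nil)))))) (.g (nat_lit 4) .nil .nil))) 
(.lf (nat_lit 32361) (.g (nat_lit 3810) (.e (nat_lit 1201) (nat_lit 88) (.e (nat_lit 65625) (nat_lit 13) (.e (nat_lit 393301) (nat_lit 27) (.e (nat_lit 491560) (nat_lit 10) (.e (nat_lit 344096) (nat_lit 18) (.e (nat_lit 7122) (nat_lit 382) .nil)))))) (.g (nat_lit 5) .nil .nil)))) (.nd (nat_lit 5) 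
(.lf (nat_lit 32345) (.g (nat_lit 2387) (.e (nat_lit 1201) (nat_lit 88) (.e (nat_lit 65625) (nat_lit 13) (.e (nat_lit 393301) (nat_lit 27) (.e (nat_lit 491558) (nat_lit 10) (.e (nat_lit 344088) (nat_lit 18) (.e (nat_lit 7125) (nat_lit 382) .nil)))))) (.g (nat_lit 4) .nil .nil))) 
(.lf (nat_lit 32377) (.g (nat_lit 1920) (.e (nat_lit 1201) (nat_lit 88) (.e (nat_lit 65626) (nat_lit 13) (.e (nat_lit 393293) (nat_lit 26) (.e (nat_lit 475212) (nat_lit 42) (.e (nat_lit 720930) (nat_lit 21) (.e (nat_lit 57830) (nat_lit 250) .nil)))))) (.g (nat_lit 4) .nil .nil)))))) (.nd (nat_lit 3) (.nd (nat_lit 4) (.nd (nat_lit 5) 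
(.lf (nat_lit 32325) (.g (nat_lit 1661) (.e (nat_lit 1201) (nat_lit 88) (.e (nat_lit 65625) (nat_lit 13) (.e (nat_lit 393293) (nat_lit 26) (.e (nat_lit 475214) (nat_lit 42) (.e (nat_lit 720934) (nat_lit 21) .nil))))) .nil)) 
(.lf (nat_lit 32357) (.g (nat_lit 3058) (.e (nat_lit 1201) (nat_lit 88) (.e (nat_lit 65625) (nat_lit 13) (.e (nat_lit 393301) (nat_lit 27) (.e (nat_lit 491560) (nat_lit 10) (.e (nat_lit 344091) (nat_lit 18) (.e (nat_lit 7122) (nat_lit 382) .nil)))))) (.g (nat_lit 4) .nil .nil)))) (.nd (nat_lit 5) 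
(.lf (nat_lit 32341) (.g (nat_lit 3147) (.e (nat_lit 1201) (nat_lit 88) (.e (nat_lit 65625) (nat_lit 13) (.e (nat_lit 393300) (nat_lit 27) (.e (nat_lit 491560) (nat_lit 10) (.e (nat_lit 344094) (nat_lit 18) (.e (nat_lit 7122) (nat_lit 382) .nil)))))) (.g (nat_lit 6) .nil .nil))) 
(.lf (nat_lit 32373) (.g (nat_lit 1499) (.e (nat_lit 1201) (nat_lit 88) (.e (nat_lit 65626) (nat_lit 13) (.e (nat_lit 393270) (nat_lit 23) (.e (nat_lit 426446) (nat_lit 20) (.e (nat_lit 114710) (nat_lit 21) .nil))))) .nil)))) (.nd (nat_lit 4) (.nd (nat_lit 5) 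
(.lf (nat_lit 32333) (.g (nat_lit 2628) (.e (nat_lit 1201) (nat_lit 88) (.e (nat_lit 65625) (nat_lit 13) (.e (nat_lit 393299) (nat_lit 27) (.e (nat_lit 491558) (nat_lit 10) (.e (nat_lit 344096) (nat_lit 18) (.e (nat_lit 7122) (nat_lit 382) .nil)))))) (.g (nat_lit 4) .nil .nil))) 
(.lf (nat_lit 32365) (.g (nat_lit 1928) (.e (nat_lit 1201) (nat_lit 88) (.e (nat_lit 65626) (nat_lit 13) (.e (nat_lit 393234) (nat_lit 17) (.e (nat_lit 7591) (nat_lit 407) (.e (nat_lit 73730) (nat_lit 0) (.e (nat_lit 7122) (nat_lit 382) .nil)))))) (.g (nat_lit 4) .nil .nil)))) (.nd (nat_lit 5) 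
(.lf (nat_lit 32349) (.g (nat_lit 3789) (.e (nat_lit 1201) (nat_lit 88) (.e (nat_lit 65625) (nat_lit 13) (.e (nat_lit 393301) (nat_lit 27) (.e (nat_lit 491558) (nat_lit 10) (.e (nat_lit 344091) (nat_lit 18) (.e (nat_lit 7124) (nat_lit 382) .nil)))))) (.g (nat_lit 0) .nil .nil))) 
(.lf (nat_lit 32381) (.g (nat_lit 1768) (.e (nat_lit 1201) (nat_lit 88) (.e (nat_lit 65626) (nat_lit 13) (.e (nat_lit 393293) (nat_lit 26) (.e (nat_lit 475212) (nat_lit 42) (.e (nat_lit 720934) (nat_lit 21) (.e (nat_lit 57830) (nat_lit 250) .nil)))))) (.g (nat_lit 4) .nil .nil))))))) (.nd (nat_lit 2) (.nd (nat_lit 3) (.nd (nat_lit 4) (.nd (nat_lit 5) 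
(.lf (nat_lit 32323) (.g (nat_lit 2534) (.e (nat_lit 1201) (nat_lit 88) (.e (nat_lit 65625) (nat_lit 13) (.e (nat_lit 393293) (nat_lit 26) (.e (nat_lit 475214) (nat_lit 42) (.e (nat_lit 720931) (nat_lit 21) (.e (nat_lit 57829) (nat_lit 250) .nil)))))) (.g (nat_lit 6) .nil .nil))) 
(.lf (nat_lit 32355) (.g (nat_lit 2888) (.e (nat_lit 1201) (nat_lit 88) (.e (nat_lit 65625) (nat_lit 13) (.e (nat_lit 393301) (nat_lit 27) (.e (nat_lit 491560) (nat_lit 10) (.e (nat_lit 344087) (nat_lit 18) (.e (nat_lit 7125) (nat_lit 382) .nil)))))) (.g (nat_lit 4) .nil .nil)))) (.nd (nat_lit 5) 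
(.lf (nat_lit 32339) (.g (nat_lit 2885) (.e (nat_lit 1201) (nat_lit 88) (.e (nat_lit 65625) (nat_lit 13) (.e (nat_lit 393300) (nat_lit 27) (.e (nat_lit 491560) (nat_lit 10) (.e (nat_lit 344091) (nat_lit 18) (.e (nat_lit 7122) (nat_lit 382) .nil)))))) (.g (nat_lit 5) .nil .nil))) 
(.lf (nat_lit 32371) (.g (nat_lit 2582) (.e (nat_lit 1201) (nat_lit 88) (.e (nat_lit 65626) (nat_lit 13) (.e (nat_lit 393234) (nat_lit 17) (.e (nat_lit 7593) (nat_lit 407) (.e (nat_lit 73731) (nat_lit 0) (.e (nat_lit 7125) (nat_lit 382) .nil)))))) (.g (nat_lit 5) .nil .nil))))) (.nd (nat_lit 4) (.nd (nat_lit 5) 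
(.lf (nat_lit 32331) (.g (nat_lit 2743) (.e (nat_lit 1201) (nat_lit 88) (.e (nat_lit 65625) (nat_lit 13) (.e (nat_lit 393299) (nat_lit 27) (.e (nat_lit 491558) (nat_lit 10) (.e (nat_lit 344091) (nat_lit 18) (.e (nat_lit 7125) (nat_lit 382) .nil)))))) (.g (nat_lit 5) .nil .nil))) 
(.lf (nat_lit 32363) (.g (nat_lit 4216) (.e (nat_lit 1201) (nat_lit 88) (.e (nat_lit 65625) (nat_lit 13) (.e (nat_lit 393301) (nat_lit 27) (.e (nat_lit 491560) (nat_lit 10) (.e (nat_lit 344096) (nat_lit 18) (.e (nat_lit 7125) (nat_lit 382) .nil)))))) (.g (nat_lit 6) .nil .nil)))) (.nd (nat_lit 5) 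
(.lf (nat_lit 32347) (.g (nat_lit 3276) (.e (nat_lit 1201) (nat_lit 88) (.e (nat_lit 65625) (nat_lit 13) (.e (nat_lit 393301) (nat_lit 27) (.e (nat_lit 491558) (nat_lit 10) (.e (nat_lit 344090) (nat_lit 18) (.e (nat_lit 7124) (nat_lit 382) .nil)))))) (.g (nat_lit 6) .nil .nil))) 
(.lf (nat_lit 32379) (.g (nat_lit 2019) (.e (nat_lit 1201) (nat_lit 88) (.e (nat_lit 65626) (nat_lit 13) (.e (nat_lit 393293) (nat_lit 26) (.e (nat_lit 475212) (nat_lit 42) (.e (nat_lit 720931) (nat_lit 21) (.e (nat_lit 57830) (nat_lit 250) .nil)))))) (.g (nat_lit 4) .nil .nil)))))) (.nd (nat_lit 3) (.nd (nat_lit 4) (.nd (nat_lit 5) 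
(.lf (nat_lit 32327) (.g (nat_lit 2021) (.e (nat_lit 1201) (nat_lit 88) (.e (nat_lit 65625) (nat_lit 13) (.e (nat_lit 393299) (nat_lit 27) (.e (nat_lit 491558) (nat_lit 10) (.e (nat_lit 344090) (nat_lit 18) (.e (nat_lit 7124) (nat_lit 382) .nil)))))) (.g (nat_lit 4) .nil .nil))) 
(.lf (nat_lit 32359) (.g (nat_lit 3466) (.e (nat_lit 1201) (nat_lit 88) (.e (nat_lit 65625) (nat_lit 13) (.e (nat_lit 393301) (nat_lit 27) (.e (nat_lit 491560) (nat_lit 10) (.e (nat_lit 344091) (nat_lit 18) (.e (nat_lit 7125) (nat_lit 382) .nil)))))) (.g (nat_lit 5) .nil .nil)))) (.nd (nat_lit 5) 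
(.lf (nat_lit 32343) (.g (nat_lit 2806) (.e (nat_lit 1201) (nat_lit 88) (.e (nat_lit 65625) (nat_lit 13) (.e (nat_lit 393300) (nat_lit 27) (.e (nat_lit 491560) (nat_lit 10) (.e (nat_lit 344095) (nat_lit 18) (.e (nat_lit 7122) (nat_lit 382) .nil)))))) (.g (nat_lit 4) .nil .nil))) 
(.lf (nat_lit 32375) (.g (nat_lit 1726) (.e (nat_lit 1201) (nat_lit 88) (.e (nat_lit 65626) (nat_lit 13) (.e (nat_lit 393270) (nat_lit 23) (.e (nat_lit 426448) (nat_lit 20) (.e (nat_lit 114710) (nat_lit 21) (.e (nat_lit 57830) (nat_lit 250) .nil)))))) (.g (nat_lit 4) .nil .nil))))) (.nd (nat_lit 4) (.nd (nat_lit 5) 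
(.lf (nat_lit 32335) (.g (nat_lit 2838) (.e (nat_lit 1201) (nat_lit 88) (.e (nat_lit 65625) (nat_lit 13) (.e (nat_lit 393299) (nat_lit 27) (.e (nat_lit 491558) (nat_lit 10) (.e (nat_lit 344096) (nat_lit 18) (.e (nat_lit 7125) (nat_lit 382) .nil)))))) (.g (nat_lit 5) .nil .nil))) 
(.lf (nat_lit 32367) (.g (nat_lit 2546) (.e (nat_lit 1201) (nat_lit 88) (.e (nat_lit 65626) (nat_lit 13) (.e (nat_lit 393234) (nat_lit 17) (.e (nat_lit 7593) (nat_lit 407) (.e (nat_lit 73729) (nat_lit 0) (.e (nat_lit 7122) (nat_lit 382) .nil)))))) (.g (nat_lit 5) .nil .nil)))) (.nd (nat_lit 5) 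
(.lf (nat_lit 32351) (.g (nat_lit 4001) (.e (nat_lit 1201) (nat_lit 88) (.e (nat_lit 65625) (nat_lit 13) (.e (nat_lit 393301) (nat_lit 27) (.e (nat_lit 491558) (nat_lit 10) (.e (nat_lit 344096) (nat_lit 18) (.e (nat_lit 7122) (nat_lit 382) .nil)))))) (.g (nat_lit 6) .nil .nil))) 
(.lf (nat_lit 32383) (.g (nat_lit 1831) (.e (nat_lit 1201) (nat_lit 88) (.e (nat_lit 65626) (nat_lit 13) (.e (nat_lit 393293) (nat_lit 26) (.e (nat_lit 475214) (nat_lit 42) (.e (nat_lit 720930) (nat_lit 21) (.e (nat_lit 57830) (nat_lit 250) .nil)))))) (.g (nat_lit 4) .nil .nil)))))))))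

noncomputable def tv456 : DT := (.nd (nat_lit 0) (.nd (nat_lit 1) (.nd (nat_lit 2) (.nd (nat_lit 3) (.nd (nat_lit 4) (.nd (nat_lit 5) 
(.lf (nat_lit 32384) (.g (nat_lit 2084) (.e (nat_lit 1201) (nat_lit 88) (.e (nat_lit 65626) (nat_lit 13) (.e (nat_lit 393293) (nat_lit 26) (.e (nat_lit 475214) (nat_lit 42) (.e (nat_lit 720931) (nat_lit 21) (.e (nat_lit 57829) (nat_lit 250) .nil)))))) (.g (nat_lit 4) .nil .nil))) 
(.lf (nat_lit 32416) (.g (nat_lit 277) (.e (nat_lit 1201) (nat_lit 88) (.e (nat_lit 65627) (nat_lit 13) (.e (nat_lit 393232) (nat_lit 17) .nil))) .nil))) (.nd (nat_lit 5) 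
(.lf (nat_lit 32400) (.g (nat_lit 2270) (.e (nat_lit 1201) (nat_lit 88) (.e (nat_lit 65626) (nat_lit 13) (.e (nat_lit 393300) (nat_lit 27) (.e (nat_lit 491560) (nat_lit 10) (.e (nat_lit 344096) (nat_lit 18) (.e (nat_lit 7124) (nat_lit 382) .nil)))))) (.g (nat_lit 4) .nil .nil))) 
(.lf (nat_lit 32432) (.g (nat_lit 3362) (.e (nat_lit 1201) (nat_lit 88) (.e (nat_lit 65627) (nat_lit 13) (.e (nat_lit 393234) (nat_lit 17) (.e (nat_lit 7591) (nat_lit 407) (.e (nat_lit 73729) (nat_lit 0) (.e (nat_lit 7122) (nat_lit 382) .nil)))))) (.g (nat_lit 6) .nil .nil))))) (.nd (nat_lit 4) (.nd (nat_lit 5) 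
(.lf (nat_lit 32392) (.g (nat_lit 2387) (.e (nat_lit 1201) (nat_lit 88) (.e (nat_lit 65626) (nat_lit 13) (.e (nat_lit 393300) (nat_lit 27) (.e (nat_lit 491558) (nat_lit 10) (.e (nat_lit 344096) (nat_lit 18) (.e (nat_lit 7122) (nat_lit 382) .nil)))))) (.g (nat_lit 4) .nil .nil))) 
(.lf (nat_lit 32424) (.g (nat_lit 3385) (.e (nat_lit 1201) (nat_lit 88) (.e (nat_lit 65627) (nat_lit 13) (.e (nat_lit 393232) (nat_lit 17) (.e (nat_lit 7593) (nat_lit 407) (.e (nat_lit 73731) (nat_lit 0) (.e (nat_lit 7125) (nat_lit 382) .nil)))))) (.g (nat_lit 0) .nil .nil)))) (.nd (nat_lit 5) 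
(.lf (nat_lit 32408) (.g (nat_lit 2986) (.e (nat_lit 1201) (nat_lit 88) (.e (nat_lit 65626) (nat_lit 13) (.e (nat_lit 393301) (nat_lit 27) (.e (nat_lit 491558) (nat_lit 10) (.e (nat_lit 344096) (nat_lit 18) (.e (nat_lit 7125) (nat_lit 382) .nil)))))) (.g (nat_lit 4) .nil .nil))) 
(.lf (nat_lit 32440) (.g (nat_lit 2025) (.e (nat_lit 1201) (nat_lit 88) (.e (nat_lit 65627) (nat_lit 13) (.e (nat_lit 393265) (nat_lit 22) (.e (nat_lit 417820) (nat_lit 10) (.e (nat_lit 5761) (nat_lit 315) (.e (nat_lit 163850) (nat_lit 0) (.e (nat_lit 6270) (nat_lit 337) .nil))))))) (.g (nat_lit 4) .nil .nil)))))) (.nd (nat_lit 3) (.nd (nat_lit 4) (.nd (nat_lit 5) 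
(.lf (nat_lit 32388) (.g (nat_lit 2259) (.e (nat_lit 1201) (nat_lit 88) (.e (nat_lit 65626) (nat_lit 13) (.e (nat_lit 393300) (nat_lit 27) (.e (nat_lit 491558) (nat_lit 10) (.e (nat_lit 344091) (nat_lit 18) (.e (nat_lit 7122) (nat_lit 382) .nil)))))) (.g (nat_lit 4) .nil .nil))) 
(.lf (nat_lit 32420) (.g (nat_lit 3541) (.e (nat_lit 1201) (nat_lit 88) (.e (nat_lit 65627) (nat_lit 13) (.e (nat_lit 393232) (nat_lit 17) (.e (nat_lit 7593) (nat_lit 407) (.e (nat_lit 73729) (nat_lit 0) (.e (nat_lit 7122) (nat_lit 382) .nil)))))) (.g (nat_lit 0) .nil .nil)))) (.nd (nat_lit 5) 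
(.lf (nat_lit 32404) (.g (nat_lit 2976) (.e (nat_lit 1201) (nat_lit 88) (.e (nat_lit 65626) (nat_lit 13) (.e (nat_lit 393301) (nat_lit 27) (.e (nat_lit 491558) (nat_lit 10) (.e (nat_lit 344091) (nat_lit 18) (.e (nat_lit 7125) (nat_lit 382) .nil)))))) (.g (nat_lit 4) .nil .nil))) 
(.lf (nat_lit 32436) (.g (nat_lit 3534) (.e (nat_lit 1201) (nat_lit 88) (.e (nat_lit 65627) (nat_lit 13) (.e (nat_lit 393234) (nat_lit 17) (.e (nat_lit 7593) (nat_lit 407) (.e (nat_lit 73729) (nat_lit 0) (.e (nat_lit 7125) (nat_lit 382) .nil)))))) (.g (nat_lit 0) .nil .nil))))) (.nd (nat_lit 4) (.nd (nat_lit 5) 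
(.lf (nat_lit 32396) (.g (nat_lit 2016) (.e (nat_lit 1201) (nat_lit 88) (.e (nat_lit 65626) (nat_lit 13) (.e (nat_lit 393300) (nat_lit 27) (.e (nat_lit 491560) (nat_lit 10) (.e (nat_lit 344091) (nat_lit 18) (.e (nat_lit 7124) (nat_lit 382) .nil)))))) (.g (nat_lit 4) .nil .nil))) 
(.lf (nat_lit 32428) (.g (nat_lit 3049) (.e (nat_lit 1201) (nat_lit 88) (.e (nat_lit 65627) (nat_lit 13) (.e (nat_lit 393233) (nat_lit 17) (.e (nat_lit 7591) (nat_lit 407) (.e (nat_lit 73731) (nat_lit 0) (.e (nat_lit 7125) (nat_lit 382) .nil)))))) (.g (nat_lit 0) .nil .nil)))) (.nd (nat_lit 5) 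
(.lf (nat_lit 32412) (.g (nat_lit 2998) (.e (nat_lit 1201) (nat_lit 88) (.e (nat_lit 65626) (nat_lit 13) (.e (nat_lit 393301) (nat_lit 27) (.e (nat_lit 491560) (nat_lit 10) (.e (nat_lit 344094) (nat_lit 18) (.e (nat_lit 7125) (nat_lit 382) .nil)))))) (.g (nat_lit 4) .nil .nil))) 
(.lf (nat_lit 32444) (.g (nat_lit 1417) (.e (nat_lit 1201) (nat_lit 88) (.e (nat_lit 65627) (nat_lit 13) (.e (nat_lit 393269) (nat_lit 23) (.e (nat_lit 426446) (nat_lit 20) (.e (nat_lit 114712) (nat_lit 21) (.e (nat_lit 57829) (nat_lit 250) .nil)))))) (.g (nat_lit 4) .nil .nil))))))) (.nd (nat_lit 2) (.nd (nat_lit 3) (.nd (nat_lit 4) (.nd (nat_lit 5) 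
(.lf (nat_lit 32386) (.g (nat_lit 2074) (.e (nat_lit 1201) (nat_lit 88) (.e (nat_lit 65626) (nat_lit 13) (.e (nat_lit 393300) (nat_lit 27) (.e (nat_lit 491558) (nat_lit 10) (.e (nat_lit 344090) (nat_lit 18) (.e (nat_lit 7124) (nat_lit 382) .nil)))))) (.g (nat_lit 4) .nil .nil))) 
(.lf (nat_lit 32418) (.g (nat_lit 3510) (.e (nat_lit 1201) (nat_lit 88) (.e (nat_lit 65627) (nat_lit 13) (.e (nat_lit 393232) (nat_lit 17) (.e (nat_lit 7591) (nat_lit 407) (.e (nat_lit 73729) (nat_lit 0) (.e (nat_lit 7125) (nat_lit 382) .nil)))))) (.g (nat_lit 0) .nil .nil)))) (.nd (nat_lit 5) 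
(.lf (nat_lit 32402) (.g (nat_lit 2898) (.e (nat_lit 1201) (nat_lit 88) (.e (nat_lit 65626) (nat_lit 13) (.e (nat_lit 393301) (nat_lit 27) (.e (nat_lit 491558) (nat_lit 10) (.e (nat_lit 344090) (nat_lit 18) .nil))))) .nil)) 
(.lf (nat_lit 32434) (.g (nat_lit 3397) (.e (nat_lit 1201) (nat_lit 88) (.e (nat_lit 65627) (nat_lit 13) (.e (nat_lit 393234) (nat_lit 17) (.e (nat_lit 7591) (nat_lit 407) (.e (nat_lit 73731) (nat_lit 0) (.e (nat_lit 7125) (nat_lit 382) .nil)))))) (.g (nat_lit 0) .nil .nil))))) (.nd (nat_lit 4) (.nd (nat_lit 5) 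
(.lf (nat_lit 32394) (.g (nat_lit 2770) (.e (nat_lit 1201) (nat_lit 88) (.e (nat_lit 65626) (nat_lit 13) (.e (nat_lit 393300) (nat_lit 27) (.e (nat_lit 491558) (nat_lit 10) (.e (nat_lit 344096) (nat_lit 18) (.e (nat_lit 7125) (nat_lit 382) .nil)))))) (.g (nat_lit 5) .nil .nil))) 
(.lf (nat_lit 32426) (.g (nat_lit 3231) (.e (nat_lit 1201) (nat_lit 88) (.e (nat_lit 65627) (nat_lit 13) (.e (nat_lit 393233) (nat_lit 17) (.e (nat_lit 7591) (nat_lit 407) (.e (nat_lit 73729) (nat_lit 0) (.e (nat_lit 7125) (nat_lit 382) .nil)))))) (.g (nat_lit 0) .nil .nil)))) (.nd (nat_lit 5) 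
(.lf (nat_lit 32410) (.g (nat_lit 3655) (.e (nat_lit 1201) (nat_lit 88) (.e (nat_lit 65626) (nat_lit 13) (.e (nat_lit 393301) (nat_lit 27) (.e (nat_lit 491560) (nat_lit 10) (.e (nat_lit 344090) (nat_lit 18) (.e (nat_lit 7125) (nat_lit 382) .nil)))))) (.g (nat_lit 4) .nil .nil))) 
(.lf (nat_lit 32442) (.g (nat_lit 2025) (.e (nat_lit 1201) (nat_lit 88) (.e (nat_lit 65627) (nat_lit 13) (.e (nat_lit 393267) (nat_lit 23) (.e (nat_lit 426446) (nat_lit 20) (.e (nat_lit 114710) (nat_lit 21) (.e (nat_lit 57830) (nat_lit 250) .nil)))))) (.g (nat_lit 5) .nil .nil)))))) (.nd (nat_lit 3) (.nd (nat_lit 4) (.nd (nat_lit 5) 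
(.lf (nat_lit 32390) (.g (nat_lit 2786) (.e (nat_lit 1201) (nat_lit 88) (.e (nat_lit 65626) (nat_lit 13) (.e (nat_lit 393300) (nat_lit 27) (.e (nat_lit 491558) (nat_lit 10) (.e (nat_lit 344091) (nat_lit 18) (.e (nat_lit 7125) (nat_lit 382) .nil)))))) (.g (nat_lit 5) .nil .nil))) 
(.lf (nat_lit 32422) (.g (nat_lit 3649) (.e (nat_lit 1201) (nat_lit 88) (.e (nat_lit 65627) (nat_lit 13) (.e (nat_lit 393232) (nat_lit 17) (.e (nat_lit 7593) (nat_lit 407) (.e (nat_lit 73729) (nat_lit 0) (.e (nat_lit 7125) (nat_lit 382) .nil)))))) (.g (nat_lit 0) .nil .nil)))) (.nd (nat_lit 5) 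
(.lf (nat_lit 32406) (.g (nat_lit 2814) (.e (nat_lit 1201) (nat_lit 88) (.e (nat_lit 65626) (nat_lit 13) (.e (nat_lit 393301) (nat_lit 27) (.e (nat_lit 491558) (nat_lit 10) (.e (nat_lit 344096) (nat_lit 18) .nil))))) .nil)) 
(.lf (nat_lit 32438) (.g (nat_lit 3262) (.e (nat_lit 1201) (nat_lit 88) (.e (nat_lit 65627) (nat_lit 13) (.e (nat_lit 393234) (nat_lit 17) (.e (nat_lit 7593) (nat_lit 407) (.e (nat_lit 73731) (nat_lit 0) (.e (nat_lit 7125) (nat_lit 382) .nil)))))) (.g (nat_lit 0) .nil .nil))))) (.nd (nat_lit 4) (.nd (nat_lit 5) 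
(.lf (nat_lit 32398) (.g (nat_lit 1952) (.e (nat_lit 1201) (nat_lit 88) (.e (nat_lit 65626) (nat_lit 13) (.e (nat_lit 393300) (nat_lit 27) (.e (nat_lit 491560) (nat_lit 10) (.e (nat_lit 344094) (nat_lit 18) .nil))))) .nil)) 
(.lf (nat_lit 32430) (.g (nat_lit 3274) (.e (nat_lit 1201) (nat_lit 88) (.e (nat_lit 65627) (nat_lit 13) (.e (nat_lit 393233) (nat_lit 17) (.e (nat_lit 7593) (nat_lit 407) (.e (nat_lit 73729) (nat_lit 0) (.e (nat_lit 7125) (nat_lit 382) .nil)))))) (.g (nat_lit 0) .nil .nil)))) (.nd (nat_lit 5) 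
(.lf (nat_lit 32414) (.g (nat_lit 2613) (.e (nat_lit 1201) (nat_lit 88) (.e (nat_lit 65627) (nat_lit 13) (.e (nat_lit 393231) (nat_lit 17) (.e (nat_lit 7593) (nat_lit 407) (.e (nat_lit 73730) (nat_lit 0) (.e (nat_lit 7122) (nat_lit 382) .nil)))))) (.g (nat_lit 0) .nil .nil))) 
(.lf (nat_lit 32446) (.g (nat_lit 2496) (.e (nat_lit 1201) (nat_lit 88) (.e (nat_lit 65627) (nat_lit 13) (.e (nat_lit 393269) (nat_lit 23) (.e (nat_lit 426448) (nat_lit 20) (.e (nat_lit 114712) (nat_lit 21) (.e (nat_lit 57830) (nat_lit 250) .nil)))))) (.g (nat_lit 0) .nil .nil)))))))) (.nd (nat_lit 1) (.nd (nat_lit 2) (.nd (nat_lit 3) (.nd (nat_lit 4) (.nd (nat_lit 5) 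
(.lf (nat_lit 32385) (.g (nat_lit 2009) (.e (nat_lit 1201) (nat_lit 88) (.e (nat_lit 65626) (nat_lit 13) (.e (nat_lit 393293) (nat_lit 26) (.e (nat_lit 475214) (nat_lit 42) (.e (nat_lit 720931) (nat_lit 21) (.e (nat_lit 57830) (nat_lit 250) .nil)))))) (.g (nat_lit 4) .nil .nil))) 
(.lf (nat_lit 32417) (.g (nat_lit 3292) (.e (nat_lit 1201) (nat_lit 88) (.e (nat_lit 65627) (nat_lit 13) (.e (nat_lit 393232) (nat_lit 17) (.e (nat_lit 7591) (nat_lit 407) (.e (nat_lit 73729) (nat_lit 0) (.e (nat_lit 7122) (nat_lit 382) .nil)))))) (.g (nat_lit 6) .nil .nil)))) (.nd (nat_lit 5) 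
(.lf (nat_lit 32401) (.g (nat_lit 2698) (.e (nat_lit 1201) (nat_lit 88) (.e (nat_lit 65626) (nat_lit 13) (.e (nat_lit 393300) (nat_lit 27) (.e (nat_lit 491560) (nat_lit 10) (.e (nat_lit 344096) (nat_lit 18) (.e (nat_lit 7125) (nat_lit 382) .nil)))))) (.g (nat_lit 4) .nil .nil))) 
(.lf (nat_lit 32433) (.g (nat_lit 3356) (.e (nat_lit 1201) (nat_lit 88) (.e (nat_lit 65627) (nat_lit 13) (.e (nat_lit 393234) (nat_lit 17) (.e (nat_lit 7591) (nat_lit 407) (.e (nat_lit 73729) (nat_lit 0) (.e (nat_lit 7124) (nat_lit 382) .nil)))))) (.g (nat_lit 0) .nil .nil))))) (.nd (nat_lit 4) (.nd (nat_lit 5) 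
(.lf (nat_lit 32393) (.g (nat_lit 2591) (.e (nat_lit 1201) (nat_lit 88) (.e (nat_lit 65626) (nat_lit 13) (.e (nat_lit 393300) (nat_lit 27) (.e (nat_lit 491558) (nat_lit 10) (.e (nat_lit 344096) (nat_lit 18) (.e (nat_lit 7124) (nat_lit 382) .nil)))))) (.g (nat_lit 4) .nil .nil))) 
(.lf (nat_lit 32425) (.g (nat_lit 3047) (.e (nat_lit 1201) (nat_lit 88) (.e (nat_lit 65627) (nat_lit 13) (.e (nat_lit 393233) (nat_lit 17) (.e (nat_lit 7591) (nat_lit 407) (.e (nat_lit 73729) (nat_lit 0) (.e (nat_lit 7122) (nat_lit 382) .nil)))))) (.g (nat_lit 6) .nil .nil)))) (.nd (nat_lit 5) 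
(.lf (nat_lit 32409) (.g (nat_lit 3473) (.e (nat_lit 1201) (nat_lit 88) (.e (nat_lit 65626) (nat_lit 13) (.e (nat_lit 393301) (nat_lit 27) (.e (nat_lit 491560) (nat_lit 10) (.e (nat_lit 344090) (nat_lit 18) (.e (nat_lit 7124) (nat_lit 382) .nil)))))) (.g (nat_lit 4) .nil .nil))) 
(.lf (nat_lit 32441) (.g (nat_lit 1451) (.e (nat_lit 1201) (nat_lit 88) (.e (nat_lit 65627) (nat_lit 13) (.e (nat_lit 393267) (nat_lit 23) (.e (nat_lit 426446) (nat_lit 20) (.e (nat_lit 114710) (nat_lit 21) (.e (nat_lit 57829) (nat_lit 250) .nil)))))) (.g (nat_lit 4) .nil .nil)))))) (.nd (nat_lit 3) (.nd (nat_lit 4) (.nd (nat_lit 5) 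
(.lf (nat_lit 32389) (.g (nat_lit 2541) (.e (nat_lit 1201) (nat_lit 88) (.e (nat_lit 65626) (nat_lit 13) (.e (nat_lit 393300) (nat_lit 27) (.e (nat_lit 491558) (nat_lit 10) (.e (nat_lit 344091) (nat_lit 18) (.e (nat_lit 7124) (nat_lit 382) .nil)))))) (.g (nat_lit 4) .nil .nil))) 
(.lf (nat_lit 32421) (.g (nat_lit 3494) (.e (nat_lit 1201) (nat_lit 88) (.e (nat_lit 65627) (nat_lit 13) (.e (nat_lit 393232) (nat_lit 17) (.e (nat_lit 7593) (nat_lit 407) (.e (nat_lit 73729) (nat_lit 0) (.e (nat_lit 7124) (nat_lit 382) .nil)))))) (.g (nat_lit 0) .nil .nil)))) (.nd (nat_lit 5) 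
(.lf (nat_lit 32405) (.g (nat_lit 2815) (.e (nat_lit 1201) (nat_lit 88) (.e (nat_lit 65626) (nat_lit 13) (.e (nat_lit 393301) (nat_lit 27) (.e (nat_lit 491558) (nat_lit 10) (.e (nat_lit 344095) (nat_lit 18) .nil))))) .nil)) 
(.lf (nat_lit 32437) (.g (nat_lit 2379) (.e (nat_lit 1201) (nat_lit 88) (.e (nat_lit 65627) (nat_lit 13) (.e (nat_lit 393234) (nat_lit 17) (.e (nat_lit 7593) (nat_lit 407) (.e (nat_lit 73730) (nat_lit 0) (.e (nat_lit 7125) (nat_lit 382) .nil)))))) (.g (nat_lit 5) .nil .nil))))) (.nd (nat_lit 4) (.nd (nat_lit 5) 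
(.lf (nat_lit 32397) (.g (nat_lit 2372) (.e (nat_lit 1201) (nat_lit 88) (.e (nat_lit 65626) (nat_lit 13) (.e (nat_lit 393300) (nat_lit 27) (.e (nat_lit 491560) (nat_lit 10) (.e (nat_lit 344091) (nat_lit 18) (.e (nat_lit 7125) (nat_lit 382) .nil)))))) (.g (nat_lit 4) .nil .nil))) 
(.lf (nat_lit 32429) (.g (nat_lit 3081) (.e (nat_lit 1201) (nat_lit 88) (.e (nat_lit 65627) (nat_lit 13) (.e (nat_lit 393233) (nat_lit 17) (.e (nat_lit 7593) (nat_lit 407) (.e (nat_lit 73729) (nat_lit 0) (.e (nat_lit 7124) (nat_lit 382) .nil)))))) (.g (nat_lit 0) .nil .nil)))) (.nd (nat_lit 5) 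
(.lf (nat_lit 32413) (.g (nat_lit 3280) (.e (nat_lit 1201) (nat_lit 88) (.e (nat_lit 65626) (nat_lit 13) (.e (nat_lit 393301) (nat_lit 27) (.e (nat_lit 491560) (nat_lit 10) (.e (nat_lit 344096) (nat_lit 18) .nil))))) .nil)) 
(.lf (nat_lit 32445) (.g (nat_lit 1373) (.e (nat_lit 1201) (nat_lit 88) (.e (nat_lit 65627) (nat_lit 13) (.e (nat_lit 393269) (nat_lit 23) (.e (nat_lit 426448) (nat_lit 20) (.e (nat_lit 114712) (nat_lit 21) (.e (nat_lit 57829) (nat_lit 250) .nil)))))) (.g (nat_lit 4) .nil .nil))))))) (.nd (nat_lit 2) (.nd (nat_lit 3) (.nd (nat_lit 4) (.nd (nat_lit 5) 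
(.lf (nat_lit 32387) (.g (nat_lit 2509) (.e (nat_lit 1201) (nat_lit 88) (.e (nat_lit 65626) (nat_lit 13) (.e (nat_lit 393300) (nat_lit 27) (.e (nat_lit 491558) (nat_lit 10) (.e (nat_lit 344090) (nat_lit 18) (.e (nat_lit 7125) (nat_lit 382) .nil)))))) (.g (nat_lit 4) .nil .nil))) 
(.lf (nat_lit 32419) (.g (nat_lit 3358) (.e (nat_lit 1201) (nat_lit 88) (.e (nat_lit 65627) (nat_lit 13) (.e (nat_lit 393232) (nat_lit 17) (.e (nat_lit 7591) (nat_lit 407) (.e (nat_lit 73731) (nat_lit 0) (.e (nat_lit 7125) (nat_lit 382) .nil)))))) (.g (nat_lit 0) .nil .nil)))) (.nd (nat_lit 5) 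
(.lf (nat_lit 32403) (.g (nat_lit 2777) (.e (nat_lit 1201) (nat_lit 88) (.e (nat_lit 65626) (nat_lit 13) (.e (nat_lit 393301) (nat_lit 27) (.e (nat_lit 491558) (nat_lit 10) (.e (nat_lit 344091) (nat_lit 18) (.e (nat_lit 7124) (nat_lit 382) .nil)))))) (.g (nat_lit 4) .nil .nil))) 
(.lf (nat_lit 32435) (.g (nat_lit 3334) (.e (nat_lit 1201) (nat_lit 88) (.e (nat_lit 65627) (nat_lit 13) (.e (nat_lit 393234) (nat_lit 17) (.e (nat_lit 7593) (nat_lit 407) (.e (nat_lit 73729) (nat_lit 0) (.e (nat_lit 7124) (nat_lit 382) .nil)))))) (.g (nat_lit 0) .nil .nil))))) (.nd (nat_lit 4) (.nd (nat_lit 5) 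
(.lf (nat_lit 32395) (.g (nat_lit 2353) (.e (nat_lit 1201) (nat_lit 88) (.e (nat_lit 65626) (nat_lit 13) (.e (nat_lit 393300) (nat_lit 27) (.e (nat_lit 491560) (nat_lit 10) (.e (nat_lit 344090) (nat_lit 18) (.e (nat_lit 7124) (nat_lit 382) .nil)))))) (.g (nat_lit 4) .nil .nil))) 
(.lf (nat_lit 32427) (.g (nat_lit 2431) (.e (nat_lit 1201) (nat_lit 88) (.e (nat_lit 65627) (nat_lit 13) (.e (nat_lit 393233) (nat_lit 17) (.e (nat_lit 7591) (nat_lit 407) (.e (nat_lit 73731) (nat_lit 0) (.e (nat_lit 7124) (nat_lit 382) .nil)))))) (.g (nat_lit 0) .nil .nil)))) (.nd (nat_lit 5) 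
(.lf (nat_lit 32411) (.g (nat_lit 2893) (.e (nat_lit 1201) (nat_lit 88) (.e (nat_lit 65626) (nat_lit 13) (.e (nat_lit 393301) (nat_lit 27) (.e (nat_lit 491560) (nat_lit 10) (.e (nat_lit 344094) (nat_lit 18) .nil))))) .nil)) 
(.lf (nat_lit 32443) (.g (nat_lit 2129) (.e (nat_lit 1201) (nat_lit 88) (.e (nat_lit 65627) (nat_lit 13) (.e (nat_lit 393269) (nat_lit 23) (.e (nat_lit 426446) (nat_lit 20) (.e (nat_lit 114710) (nat_lit 21) (.e (nat_lit 57829) (nat_lit 250) .nil)))))) (.g (nat_lit 5) .nil .nil)))))) (.nd (nat_lit 3) (.nd (nat_lit 4) (.nd (nat_lit 5) 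
(.lf (nat_lit 32391) (.g (nat_lit 2082) (.e (nat_lit 1201) (nat_lit 88) (.e (nat_lit 65626) (nat_lit 13) (.e (nat_lit 393300) (nat_lit 27) (.e (nat_lit 491558) (nat_lit 10) (.e (nat_lit 344095) (nat_lit 18) (.e (nat_lit 7122) (nat_lit 382) .nil)))))) (.g (nat_lit 4) .nil .nil))) 
(.lf (nat_lit 32423) (.g (nat_lit 2335) (.e (nat_lit 1201) (nat_lit 88) (.e (nat_lit 65627) (nat_lit 13) (.e (nat_lit 393232) (nat_lit 17) (.e (nat_lit 7593) (nat_lit 407) (.e (nat_lit 73730) (nat_lit 0) (.e (nat_lit 7125) (nat_lit 382) .nil)))))) (.g (nat_lit 4) .nil .nil)))) (.nd (nat_lit 5) 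
(.lf (nat_lit 32407) (.g (nat_lit 2850) (.e (nat_lit 1201) (nat_lit 88) (.e (nat_lit 65626) (nat_lit 13) (.e (nat_lit 393301) (nat_lit 27) (.e (nat_lit 491558) (nat_lit 10) (.e (nat_lit 344096) (nat_lit 18) (.e (nat_lit 7124) (nat_lit 382) .nil)))))) (.g (nat_lit 4) .nil .nil))) 
(.lf (nat_lit 32439) (.g (nat_lit 1766) (.e (nat_lit 1201) (nat_lit 88) (.e (nat_lit 65627) (nat_lit 13) (.e (nat_lit 393260) (nat_lit 21) (.e (nat_lit 409645) (nat_lit 18) (.e (nat_lit 303115) (nat_lit 1) .nil))))) .nil)))) (.nd (nat_lit 4) (.nd (nat_lit 5) 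
(.lf (nat_lit 32399) (.g (nat_lit 2095) (.e (nat_lit 1201) (nat_lit 88) (.e (nat_lit 65626) (nat_lit 13) (.e (nat_lit 393300) (nat_lit 27) (.e (nat_lit 491560) (nat_lit 10) (.e (nat_lit 344094) (nat_lit 18) (.e (nat_lit 7125) (nat_lit 382) .nil)))))) (.g (nat_lit 4) .nil .nil))) 
(.lf (nat_lit 32431) (.g (nat_lit 2993) (.e (nat_lit 1201) (nat_lit 88) (.e (nat_lit 65627) (nat_lit 13) (.e (nat_lit 393233) (nat_lit 17) (.e (nat_lit 7593) (nat_lit 407) (.e (nat_lit 73731) (nat_lit 0) (.e (nat_lit 7125) (nat_lit 382) .nil)))))) (.g (nat_lit 0) .nil .nil)))) (.nd (nat_lit 5) 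
(.lf (nat_lit 32415) (.g (nat_lit 2845) (.e (nat_lit 1201) (nat_lit 88) (.e (nat_lit 65627) (nat_lit 13) (.e (nat_lit 393231) (nat_lit 17) (.e (nat_lit 7593) (nat_lit 407) (.e (nat_lit 73731) (nat_lit 0) (.e (nat_lit 7125) (nat_lit 382) .nil)))))) (.g (nat_lit 0) .nil .nil))) 
(.lf (nat_lit 32447) (.g (nat_lit 2147) (.e (nat_lit 1201) (nat_lit 88) (.e (nat_lit 65627) (nat_lit 13) (.e (nat_lit 393270) (nat_lit 23) (.e (nat_lit 426446) (nat_lit 20) (.e (nat_lit 114710) (nat_lit 21) (.e (nat_lit 57829) (nat_lit 250) .nil)))))) (.g (nat_lit 5) .nil .nil)))))))))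

noncomputable def tv457 : DT := (.nd (nat_lit 0) (.nd (nat_lit 1) (.nd (nat_lit 2) (.nd (nat_lit 3) (.nd (nat_lit 4) (.nd (nat_lit 5) 
(.lf (nat_lit 32448) (.g (nat_lit 1380) (.e (nat_lit 1201) (nat_lit 88) (.e (nat_lit 65627) (nat_lit 13) (.e (nat_lit 393270) (nat_lit 23) (.e (nat_lit 426446) (nat_lit 20) (.e (nat_lit 114712) (nat_lit 21) (.e (nat_lit 57829) (nat_lit 250) .nil)))))) (.g (nat_lit 4) .nil .nil))) 
(.lf (nat_lit 32480) (.g (nat_lit 2257) (.e (nat_lit 1201) (nat_lit 88) (.e (nat_lit 65627) (nat_lit 13) (.e (nat_lit 393299) (nat_lit 27) (.e (nat_lit 491558) (nat_lit 10) (.e (nat_lit 344090) (nat_lit 18) (.e (nat_lit 7122) (nat_lit 382) .nil)))))) (.g (nat_lit 4) .nil .nil)))) (.nd (nat_lit 5) 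
(.lf (nat_lit 32464) (.g (nat_lit 2272) (.e (nat_lit 1201) (nat_lit 88) (.e (nat_lit 65627) (nat_lit 13) (.e (nat_lit 393298) (nat_lit 27) (.e (nat_lit 491558) (nat_lit 10) (.e (nat_lit 344090) (nat_lit 18) (.e (nat_lit 7125) (nat_lit 382) .nil)))))) (.g (nat_lit 4) .nil .nil))) 
(.lf (nat_lit 32496) (.g (nat_lit 2692) (.e (nat_lit 1201) (nat_lit 88) (.e (nat_lit 65627) (nat_lit 13) (.e (nat_lit 393300) (nat_lit 27) (.e (nat_lit 491558) (nat_lit 10) (.e (nat_lit 344090) (nat_lit 18) (.e (nat_lit 7124) (nat_lit 382) .nil)))))) (.g (nat_lit 6) .nil .nil))))) (.nd (nat_lit 4) (.nd (nat_lit 5) 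
(.lf (nat_lit 32456) (.g (nat_lit 2287) (.e (nat_lit 1201) (nat_lit 88) (.e (nat_lit 65627) (nat_lit 13) (.e (nat_lit 393293) (nat_lit 26) (.e (nat_lit 475212) (nat_lit 42) (.e (nat_lit 720930) (nat_lit 21) (.e (nat_lit 57830) (nat_lit 250) .nil)))))) (.g (nat_lit 0) .nil .nil))) 
(.lf (nat_lit 32488) (.g (nat_lit 3654) (.e (nat_lit 1201) (nat_lit 88) (.e (nat_lit 65627) (nat_lit 13) (.e (nat_lit 393299) (nat_lit 27) (.e (nat_lit 491558) (nat_lit 10) (.e (nat_lit 344096) (nat_lit 18) (.e (nat_lit 7125) (nat_lit 382) .nil)))))) (.g (nat_lit 0) .nil .nil)))) (.nd (nat_lit 5) 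
(.lf (nat_lit 32472) (.g (nat_lit 2458) (.e (nat_lit 1201) (nat_lit 88) (.e (nat_lit 65627) (nat_lit 13) (.e (nat_lit 393298) (nat_lit 27) (.e (nat_lit 491560) (nat_lit 10) (.e (nat_lit 344090) (nat_lit 18) (.e (nat_lit 7125) (nat_lit 382) .nil)))))) (.g (nat_lit 5) .nil .nil))) 
(.lf (nat_lit 32504) (.g (nat_lit 3369) (.e (nat_lit 1201) (nat_lit 88) (.e (nat_lit 65627) (nat_lit 13) (.e (nat_lit 393300) (nat_lit 27) (.e (nat_lit 491560) (nat_lit 10) (.e (nat_lit 344090) (nat_lit 18) (.e (nat_lit 7125) (nat_lit 382) .nil)))))) (.g (nat_lit 0) .nil .nil)))))) (.nd (nat_lit 3) (.nd (nat_lit 4) (.nd (nat_lit 5) 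
(.lf (nat_lit 32452) (.g (nat_lit 2478) (.e (nat_lit 1201) (nat_lit 88) (.e (nat_lit 65627) (nat_lit 13) (.e (nat_lit 393292) (nat_lit 26) (.e (nat_lit 475214) (nat_lit 42) (.e (nat_lit 720931) (nat_lit 21) (.e (nat_lit 57829) (nat_lit 250) .nil)))))) (.g (nat_lit 6) .nil .nil))) 
(.lf (nat_lit 32484) (.g (nat_lit 3509) (.e (nat_lit 1201) (nat_lit 88) (.e (nat_lit 65627) (nat_lit 13) (.e (nat_lit 393299) (nat_lit 27) (.e (nat_lit 491558) (nat_lit 10) (.e (nat_lit 344091) (nat_lit 18) (.e (nat_lit 7125) (nat_lit 382) .nil)))))) (.g (nat_lit 0) .nil .nil)))) (.nd (nat_lit 5) 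
(.lf (nat_lit 32468) (.g (nat_lit 2345) (.e (nat_lit 1201) (nat_lit 88) (.e (nat_lit 65627) (nat_lit 13) (.e (nat_lit 393298) (nat_lit 27) (.e (nat_lit 491558) (nat_lit 10) (.e (nat_lit 344096) (nat_lit 18) (.e (nat_lit 7122) (nat_lit 382) .nil)))))) (.g (nat_lit 4) .nil .nil))) 
(.lf (nat_lit 32500) (.g (nat_lit 1818) (.e (nat_lit 1201) (nat_lit 88) (.e (nat_lit 65627) (nat_lit 13) (.e (nat_lit 393300) (nat_lit 27) (.e (nat_lit 491558) (nat_lit 10) (.e (nat_lit 344095) (nat_lit 18) (.e (nat_lit 7125) (nat_lit 382) .nil)))))) (.g (nat_lit 4) .nil .nil))))) (.nd (nat_lit 4) (.nd (nat_lit 5) 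
(.lf (nat_lit 32460) (.g (nat_lit 2606) (.e (nat_lit 1201) (nat_lit 88) (.e (nat_lit 65627) (nat_lit 13) (.e (nat_lit 393293) (nat_lit 26) (.e (nat_lit 475214) (nat_lit 42) (.e (nat_lit 720931) (nat_lit 21) (.e (nat_lit 57830) (nat_lit 250) .nil)))))) (.g (nat_lit 0) .nil .nil))) 
(.lf (nat_lit 32492) (.g (nat_lit 2772) (.e (nat_lit 1201) (nat_lit 88) (.e (nat_lit 65627) (nat_lit 13) (.e (nat_lit 393299) (nat_lit 27) (.e (nat_lit 491560) (nat_lit 10) (.e (nat_lit 344091) (nat_lit 18) .nil))))) .nil))) (.nd (nat_lit 5) 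
(.lf (nat_lit 32476) (.g (nat_lit 1933) (.e (nat_lit 1201) (nat_lit 88) (.e (nat_lit 65627) (nat_lit 13) (.e (nat_lit 393298) (nat_lit 27) (.e (nat_lit 491560) (nat_lit 10) (.e (nat_lit 344094) (nat_lit 18) (.e (nat_lit 7124) (nat_lit 382) .nil)))))) (.g (nat_lit 4) .nil .nil))) 
(.lf (nat_lit 32508) (.g (nat_lit 2802) (.e (nat_lit 1201) (nat_lit 88) (.e (nat_lit 65627) (nat_lit 13) (.e (nat_lit 393300) (nat_lit 27) (.e (nat_lit 491560) (nat_lit 10) (.e (nat_lit 344094) (nat_lit 18) (.e (nat_lit 7124) (nat_lit 382) .nil)))))) (.g (nat_lit 6) .nil .nil))))))) (.nd (nat_lit 2) (.nd (nat_lit 3) (.nd (nat_lit 4) (.nd (nat_lit 5) 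
(.lf (nat_lit 32450) (.g (nat_lit 1321) (.e (nat_lit 1201) (nat_lit 88) (.e (nat_lit 65627) (nat_lit 13) (.e (nat_lit 393270) (nat_lit 23) (.e (nat_lit 426448) (nat_lit 20) (.e (nat_lit 114712) (nat_lit 21) (.e (nat_lit 57829) (nat_lit 250) .nil)))))) (.g (nat_lit 4) .nil .nil))) 
(.lf (nat_lit 32482) (.g (nat_lit 3206) (.e (nat_lit 1201) (nat_lit 88) (.e (nat_lit 65627) (nat_lit 13) (.e (nat_lit 393299) (nat_lit 27) (.e (nat_lit 491558) (nat_lit 10) (.e (nat_lit 344091) (nat_lit 18) (.e (nat_lit 7122) (nat_lit 382) .nil)))))) (.g (nat_lit 6) .nil .nil)))) (.nd (nat_lit 5) 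
(.lf (nat_lit 32466) (.g (nat_lit 2426) (.e (nat_lit 1201) (nat_lit 88) (.e (nat_lit 65627) (nat_lit 13) (.e (nat_lit 393298) (nat_lit 27) (.e (nat_lit 491558) (nat_lit 10) (.e (nat_lit 344091) (nat_lit 18) (.e (nat_lit 7124) (nat_lit 382) .nil)))))) (.g (nat_lit 4) .nil .nil))) 
(.lf (nat_lit 32498) (.g (nat_lit 3220) (.e (nat_lit 1201) (nat_lit 88) (.e (nat_lit 65627) (nat_lit 13) (.e (nat_lit 393300) (nat_lit 27) (.e (nat_lit 491558) (nat_lit 10) (.e (nat_lit 344091) (nat_lit 18) (.e (nat_lit 7124) (nat_lit 382) .nil)))))) (.g (nat_lit 0) .nil .nil))))) (.nd (nat_lit 4) (.nd (nat_lit 5) 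
(.lf (nat_lit 32458) (.g (nat_lit 1068) (.e (nat_lit 1201) (nat_lit 88) (.e (nat_lit 65627) (nat_lit 13) (.e (nat_lit 393293) (nat_lit 26) (.e (nat_lit 475213) (nat_lit 42) (.e (nat_lit 720931) (nat_lit 21) .nil))))) .nil)) 
(.lf (nat_lit 32490) (.g (nat_lit 2673) (.e (nat_lit 1201) (nat_lit 88) (.e (nat_lit 65627) (nat_lit 13) (.e (nat_lit 393299) (nat_lit 27) (.e (nat_lit 491560) (nat_lit 10) (.e (nat_lit 344090) (nat_lit 18) (.e (nat_lit 7124) (nat_lit 382) .nil)))))) (.g (nat_lit 4) .nil .nil)))) (.nd (nat_lit 5) 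
(.lf (nat_lit 32474) (.g (nat_lit 2106) (.e (nat_lit 1201) (nat_lit 88) (.e (nat_lit 65627) (nat_lit 13) (.e (nat_lit 393298) (nat_lit 27) (.e (nat_lit 491560) (nat_lit 10) (.e (nat_lit 344091) (nat_lit 18) (.e (nat_lit 7125) (nat_lit 382) .nil)))))) (.g (nat_lit 4) .nil .nil))) 
(.lf (nat_lit 32506) (.g (nat_lit 3190) (.e (nat_lit 1201) (nat_lit 88) (.e (nat_lit 65627) (nat_lit 13) (.e (nat_lit 393300) (nat_lit 27) (.e (nat_lit 491560) (nat_lit 10) (.e (nat_lit 344091) (nat_lit 18) (.e (nat_lit 7125) (nat_lit 382) .nil)))))) (.g (nat_lit 0) .nil .nil)))))) (.nd (nat_lit 3) (.nd (nat_lit 4) (.nd (nat_lit 5) 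
(.lf (nat_lit 32454) (.g (nat_lit 2230) (.e (nat_lit 1201) (nat_lit 88) (.e (nat_lit 65627) (nat_lit 13) (.e (nat_lit 393292) (nat_lit 26) (.e (nat_lit 475214) (nat_lit 42) (.e (nat_lit 720934) (nat_lit 21) (.e (nat_lit 57829) (nat_lit 250) .nil)))))) (.g (nat_lit 4) .nil .nil))) 
(.lf (nat_lit 32486) (.g (nat_lit 1950) (.e (nat_lit 1201) (nat_lit 88) (.e (nat_lit 65627) (nat_lit 13) (.e (nat_lit 393299) (nat_lit 27) (.e (nat_lit 491558) (nat_lit 10) (.e (nat_lit 344095) (nat_lit 18) (.e (nat_lit 7125) (nat_lit 382) .nil)))))) (.g (nat_lit 4) .nil .nil)))) (.nd (nat_lit 5) 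
(.lf (nat_lit 32470) (.g (nat_lit 2537) (.e (nat_lit 1201) (nat_lit 88) (.e (nat_lit 65627) (nat_lit 13) (.e (nat_lit 393298) (nat_lit 27) (.e (nat_lit 491558) (nat_lit 10) (.e (nat_lit 344096) (nat_lit 18) (.e (nat_lit 7125) (nat_lit 382) .nil)))))) (.g (nat_lit 4) .nil .nil))) 
(.lf (nat_lit 32502) (.g (nat_lit 3253) (.e (nat_lit 1201) (nat_lit 88) (.e (nat_lit 65627) (nat_lit 13) (.e (nat_lit 393300) (nat_lit 27) (.e (nat_lit 491558) (nat_lit 10) (.e (nat_lit 344096) (nat_lit 18) (.e (nat_lit 7124) (nat_lit 382) .nil)))))) (.g (nat_lit 0) .nil .nil))))) (.nd (nat_lit 4) (.nd (nat_lit 5) 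
(.lf (nat_lit 32462) (.g (nat_lit 1679) (.e (nat_lit 1201) (nat_lit 88) (.e (nat_lit 65627) (nat_lit 13) (.e (nat_lit 393293) (nat_lit 26) (.e (nat_lit 475214) (nat_lit 42) (.e (nat_lit 720934) (nat_lit 21) .nil))))) .nil)) 
(.lf (nat_lit 32494) (.g (nat_lit 2899) (.e (nat_lit 1201) (nat_lit 88) (.e (nat_lit 65627) (nat_lit 13) (.e (nat_lit 393299) (nat_lit 27) (.e (nat_lit 491560) (nat_lit 10) (.e (nat_lit 344096) (nat_lit 18) .nil))))) .nil))) (.nd (nat_lit 5) 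
(.lf (nat_lit 32478) (.g (nat_lit 1881) (.e (nat_lit 1201) (nat_lit 88) (.e (nat_lit 65627) (nat_lit 13) (.e (nat_lit 393298) (nat_lit 27) (.e (nat_lit 491560) (nat_lit 10) (.e (nat_lit 344096) (nat_lit 18) (.e (nat_lit 7124) (nat_lit 382) .nil)))))) (.g (nat_lit 4) .nil .nil))) 
(.lf (nat_lit 32510) (.g (nat_lit 3002) (.e (nat_lit 1201) (nat_lit 88) (.e (nat_lit 65627) (nat_lit 13) (.e (nat_lit 393300) (nat_lit 27) (.e (nat_lit 491560) (nat_lit 10) (.e (nat_lit 344096) (nat_lit 18) (.e (nat_lit 7124) (nat_lit 382) .nil)))))) (.g (nat_lit 6) .nil .nil)))))))) (.nd (nat_lit 1) (.nd (nat_lit 2) (.nd (nat_lit 3) (.nd (nat_lit 4) (.nd (nat_lit 5) 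
(.lf (nat_lit 32449) (.g (nat_lit 3018) (.e (nat_lit 1201) (nat_lit 88) (.e (nat_lit 65627) (nat_lit 13) (.e (nat_lit 393270) (nat_lit 23) (.e (nat_lit 426448) (nat_lit 20) (.e (nat_lit 114710) (nat_lit 21) (.e (nat_lit 57830) (nat_lit 250) .nil)))))) (.g (nat_lit 0) .nil .nil))) 
(.lf (nat_lit 32481) (.g (nat_lit 2754) (.e (nat_lit 1201) (nat_lit 88) (.e (nat_lit 65627) (nat_lit 13) (.e (nat_lit 393299) (nat_lit 27) (.e (nat_lit 491558) (nat_lit 10) (.e (nat_lit 344090) (nat_lit 18) (.e (nat_lit 7124) (nat_lit 382) .nil)))))) (.g (nat_lit 5) .nil .nil)))) (.nd (nat_lit 5) 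
(.lf (nat_lit 32465) (.g (nat_lit 2344) (.e (nat_lit 1201) (nat_lit 88) (.e (nat_lit 65627) (nat_lit 13) (.e (nat_lit 393298) (nat_lit 27) (.e (nat_lit 491558) (nat_lit 10) (.e (nat_lit 344091) (nat_lit 18) (.e (nat_lit 7122) (nat_lit 382) .nil)))))) (.g (nat_lit 4) .nil .nil))) 
(.lf (nat_lit 32497) (.g (nat_lit 3136) (.e (nat_lit 1201) (nat_lit 88) (.e (nat_lit 65627) (nat_lit 13) (.e (nat_lit 393300) (nat_lit 27) (.e (nat_lit 491558) (nat_lit 10) (.e (nat_lit 344090) (nat_lit 18) (.e (nat_lit 7125) (nat_lit 382) .nil)))))) (.g (nat_lit 0) .nil .nil))))) (.nd (nat_lit 4) (.nd (nat_lit 5) 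
(.lf (nat_lit 32457) (.g (nat_lit 2371) (.e (nat_lit 1201) (nat_lit 88) (.e (nat_lit 65627) (nat_lit 13) (.e (nat_lit 393293) (nat_lit 26) (.e (nat_lit 475212) (nat_lit 42) (.e (nat_lit 720931) (nat_lit 21) (.e (nat_lit 57830) (nat_lit 250) .nil)))))) (.g (nat_lit 0) .nil .nil))) 
(.lf (nat_lit 32489) (.g (nat_lit 1403) (.e (nat_lit 1201) (nat_lit 88) (.e (nat_lit 65627) (nat_lit 13) (.e (nat_lit 393299) (nat_lit 27) (.e (nat_lit 491560) (nat_lit 10) .nil)))) .nil))) (.nd (nat_lit 5) 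
(.lf (nat_lit 32473) (.g (nat_lit 1806) (.e (nat_lit 1201) (nat_lit 88) (.e (nat_lit 65627) (nat_lit 13) (.e (nat_lit 393298) (nat_lit 27) (.e (nat_lit 491560) (nat_lit 10) (.e (nat_lit 344091) (nat_lit 18) (.e (nat_lit 7124) (nat_lit 382) .nil)))))) (.g (nat_lit 4) .nil .nil))) 
(.lf (nat_lit 32505) (.g (nat_lit 2836) (.e (nat_lit 1201) (nat_lit 88) (.e (nat_lit 65627) (nat_lit 13) (.e (nat_lit 393300) (nat_lit 27) (.e (nat_lit 491560) (nat_lit 10) (.e (nat_lit 344091) (nat_lit 18) (.e (nat_lit 7124) (nat_lit 382) .nil)))))) (.g (nat_lit 6) .nil .nil)))))) (.nd (nat_lit 3) (.nd (nat_lit 4) (.nd (nat_lit 5) 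
(.lf (nat_lit 32453) (.g (nat_lit 2279) (.e (nat_lit 1201) (nat_lit 88) (.e (nat_lit 65627) (nat_lit 13) (.e (nat_lit 393292) (nat_lit 26) (.e (nat_lit 475214) (nat_lit 42) (.e (nat_lit 720932) (nat_lit 21) (.e (nat_lit 57830) (nat_lit 250) .nil)))))) (.g (nat_lit 4) .nil .nil))) 
(.lf (nat_lit 32485) (.g (nat_lit 3114) (.e (nat_lit 1201) (nat_lit 88) (.e (nat_lit 65627) (nat_lit 13) (.e (nat_lit 393299) (nat_lit 27) (.e (nat_lit 491558) (nat_lit 10) (.e (nat_lit 344095) (nat_lit 18) (.e (nat_lit 7122) (nat_lit 382) .nil)))))) (.g (nat_lit 0) .nil .nil)))) (.nd (nat_lit 5) 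
(.lf (nat_lit 32469) (.g (nat_lit 2325) (.e (nat_lit 1201) (nat_lit 88) (.e (nat_lit 65627) (nat_lit 13) (.e (nat_lit 393298) (nat_lit 27) (.e (nat_lit 491558) (nat_lit 10) (.e (nat_lit 344096) (nat_lit 18) (.e (nat_lit 7124) (nat_lit 382) .nil)))))) (.g (nat_lit 4) .nil .nil))) 
(.lf (nat_lit 32501) (.g (nat_lit 3327) (.e (nat_lit 1201) (nat_lit 88) (.e (nat_lit 65627) (nat_lit 13) (.e (nat_lit 393300) (nat_lit 27) (.e (nat_lit 491558) (nat_lit 10) (.e (nat_lit 344096) (nat_lit 18) (.e (nat_lit 7122) (nat_lit 382) .nil)))))) (.g (nat_lit 6) .nil .nil))))) (.nd (nat_lit 4) (.nd (nat_lit 5) 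
(.lf (nat_lit 32461) (.g (nat_lit 1645) (.e (nat_lit 1201) (nat_lit 88) (.e (nat_lit 65627) (nat_lit 13) (.e (nat_lit 393293) (nat_lit 26) (.e (nat_lit 475214) (nat_lit 42) (.e (nat_lit 720932) (nat_lit 21) (.e (nat_lit 57830) (nat_lit 250) .nil)))))) (.g (nat_lit 4) .nil .nil))) 
(.lf (nat_lit 32493) (.g (nat_lit 2694) (.e (nat_lit 1201) (nat_lit 88) (.e (nat_lit 65627) (nat_lit 13) (.e (nat_lit 393299) (nat_lit 27) (.e (nat_lit 491560) (nat_lit 10) (.e (nat_lit 344094) (nat_lit 18) .nil))))) .nil))) (.nd (nat_lit 5) 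
(.lf (nat_lit 32477) (.g (nat_lit 2149) (.e (nat_lit 1201) (nat_lit 88) (.e (nat_lit 65627) (nat_lit 13) (.e (nat_lit 393298) (nat_lit 27) (.e (nat_lit 491560) (nat_lit 10) (.e (nat_lit 344094) (nat_lit 18) (.e (nat_lit 7125) (nat_lit 382) .nil)))))) (.g (nat_lit 4) .nil .nil))) 
(.lf (nat_lit 32509) (.g (nat_lit 2656) (.e (nat_lit 1201) (nat_lit 88) (.e (nat_lit 65627) (nat_lit 13) (.e (nat_lit 393300) (nat_lit 27) (.e (nat_lit 491560) (nat_lit 10) (.e (nat_lit 344095) (nat_lit 18) (.e (nat_lit 7122) (nat_lit 382) .nil)))))) (.g (nat_lit 4) .nil .nil))))))) (.nd (nat_lit 2) (.nd (nat_lit 3) (.nd (nat_lit 4) (.nd (nat_lit 5) 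
(.lf (nat_lit 32451) (.g (nat_lit 2349) (.e (nat_lit 1201) (nat_lit 88) (.e (nat_lit 65627) (nat_lit 13) (.e (nat_lit 393292) (nat_lit 26) (.e (nat_lit 475212) (nat_lit 42) (.e (nat_lit 720934) (nat_lit 21) (.e (nat_lit 57829) (nat_lit 250) .nil)))))) (.g (nat_lit 0) .nil .nil))) 
(.lf (nat_lit 32483) (.g (nat_lit 3308) (.e (nat_lit 1201) (nat_lit 88) (.e (nat_lit 65627) (nat_lit 13) (.e (nat_lit 393299) (nat_lit 27) (.e (nat_lit 491558) (nat_lit 10) (.e (nat_lit 344091) (nat_lit 18) (.e (nat_lit 7124) (nat_lit 382) .nil)))))) (.g (nat_lit 0) .nil .nil)))) (.nd (nat_lit 5) 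
(.lf (nat_lit 32467) (.g (nat_lit 2204) (.e (nat_lit 1201) (nat_lit 88) (.e (nat_lit 65627) (nat_lit 13) (.e (nat_lit 393298) (nat_lit 27) (.e (nat_lit 491558) (nat_lit 10) (.e (nat_lit 344095) (nat_lit 18) (.e (nat_lit 7122) (nat_lit 382) .nil)))))) (.g (nat_lit 4) .nil .nil))) 
(.lf (nat_lit 32499) (.g (nat_lit 3463) (.e (nat_lit 1201) (nat_lit 88) (.e (nat_lit 65627) (nat_lit 13) (.e (nat_lit 393300) (nat_lit 27) (.e (nat_lit 491558) (nat_lit 10) (.e (nat_lit 344091) (nat_lit 18) (.e (nat_lit 7125) (nat_lit 382) .nil)))))) (.g (nat_lit 0) .nil .nil))))) (.nd (nat_lit 4) (.nd (nat_lit 5) 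
(.lf (nat_lit 32459) (.g (nat_lit 2402) (.e (nat_lit 1201) (nat_lit 88) (.e (nat_lit 65627) (nat_lit 13) (.e (nat_lit 393293) (nat_lit 26) (.e (nat_lit 475214) (nat_lit 42) (.e (nat_lit 720930) (nat_lit 21) (.e (nat_lit 57830) (nat_lit 250) .nil)))))) (.g (nat_lit 0) .nil .nil))) 
(.lf (nat_lit 32491) (.g (nat_lit 2810) (.e (nat_lit 1201) (nat_lit 88) (.e (nat_lit 65627) (nat_lit 13) (.e (nat_lit 393299) (nat_lit 27) (.e (nat_lit 491560) (nat_lit 10) (.e (nat_lit 344090) (nat_lit 18) (.e (nat_lit 7125) (nat_lit 382) .nil)))))) (.g (nat_lit 4) .nil .nil)))) (.nd (nat_lit 5) 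
(.lf (nat_lit 32475) (.g (nat_lit 2088) (.e (nat_lit 1201) (nat_lit 88) (.e (nat_lit 65627) (nat_lit 13) (.e (nat_lit 393298) (nat_lit 27) (.e (nat_lit 491560) (nat_lit 10) (.e (nat_lit 344094) (nat_lit 18) (.e (nat_lit 7122) (nat_lit 382) .nil)))))) (.g (nat_lit 4) .nil .nil))) 
(.lf (nat_lit 32507) (.g (nat_lit 3007) (.e (nat_lit 1201) (nat_lit 88) (.e (nat_lit 65627) (nat_lit 13) (.e (nat_lit 393300) (nat_lit 27) (.e (nat_lit 491560) (nat_lit 10) (.e (nat_lit 344094) (nat_lit 18) (.e (nat_lit 7122) (nat_lit 382) .nil)))))) (.g (nat_lit 6) .nil .nil)))))) (.nd (nat_lit 3) (.nd (nat_lit 4) (.nd (nat_lit 5) 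
(.lf (nat_lit 32455) (.g (nat_lit 2262) (.e (nat_lit 1201) (nat_lit 88) (.e (nat_lit 65627) (nat_lit 13) (.e (nat_lit 393292) (nat_lit 26) (.e (nat_lit 475214) (nat_lit 42) (.e (nat_lit 720934) (nat_lit 21) (.e (nat_lit 57830) (nat_lit 250) .nil)))))) (.g (nat_lit 4) .nil .nil))) 
(.lf (nat_lit 32487) (.g (nat_lit 3433) (.e (nat_lit 1201) (nat_lit 88) (.e (nat_lit 65627) (nat_lit 13) (.e (nat_lit 393299) (nat_lit 27) (.e (nat_lit 491558) (nat_lit 10) (.e (nat_lit 344096) (nat_lit 18) (.e (nat_lit 7122) (nat_lit 382) .nil)))))) (.g (nat_lit 6) .nil .nil)))) (.nd (nat_lit 5) 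
(.lf (nat_lit 32471) (.g (nat_lit 2262) (.e (nat_lit 1201) (nat_lit 88) (.e (nat_lit 65627) (nat_lit 13) (.e (nat_lit 393298) (nat_lit 27) (.e (nat_lit 491560) (nat_lit 10) (.e (nat_lit 344090) (nat_lit 18) (.e (nat_lit 7124) (nat_lit 382) .nil)))))) (.g (nat_lit 4) .nil .nil))) 
(.lf (nat_lit 32503) (.g (nat_lit 3513) (.e (nat_lit 1201) (nat_lit 88) (.e (nat_lit 65627) (nat_lit 13) (.e (nat_lit 393300) (nat_lit 27) (.e (nat_lit 491558) (nat_lit 10) (.e (nat_lit 344096) (nat_lit 18) (.e (nat_lit 7125) (nat_lit 382) .nil)))))) (.g (nat_lit 0) .nil .nil))))) (.nd (nat_lit 4) (.nd (nat_lit 5) 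
(.lf (nat_lit 32463) (.g (nat_lit 1177) (.e (nat_lit 1201) (nat_lit 88) (.e (nat_lit 65627) (nat_lit 13) (.e (nat_lit 393294) (nat_lit 26) (.e (nat_lit 475214) (nat_lit 42) .nil)))) .nil)) 
(.lf (nat_lit 32495) (.g (nat_lit 2911) (.e (nat_lit 1201) (nat_lit 88) (.e (nat_lit 65627) (nat_lit 13) (.e (nat_lit 393299) (nat_lit 27) (.e (nat_lit 491560) (nat_lit 10) (.e (nat_lit 344096) (nat_lit 18) (.e (nat_lit 7125) (nat_lit 382) .nil)))))) (.g (nat_lit 4) .nil .nil)))) (.nd (nat_lit 5) 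
(.lf (nat_lit 32479) (.g (nat_lit 2352) (.e (nat_lit 1201) (nat_lit 88) (.e (nat_lit 65627) (nat_lit 13) (.e (nat_lit 393298) (nat_lit 27) (.e (nat_lit 491560) (nat_lit 10) (.e (nat_lit 344096) (nat_lit 18) (.e (nat_lit 7125) (nat_lit 382) .nil)))))) (.g (nat_lit 5) .nil .nil))) 
(.lf (nat_lit 32511) (.g (nat_lit 3511) (.e (nat_lit 1201) (nat_lit 88) (.e (nat_lit 65627) (nat_lit 13) (.e (nat_lit 393300) (nat_lit 27) (.e (nat_lit 491560) (nat_lit 10) (.e (nat_lit 344096) (nat_lit 18) (.e (nat_lit 7125) (nat_lit 382) .nil)))))) (.g (nat_lit 0) .nil .nil)))))))))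

noncomputable def tv458 : DT := (.nd (nat_lit 0) (.nd (nat_lit 1) (.nd (nat_lit 2) (.nd (nat_lit 3) (.nd (nat_lit 4) (.nd (nat_lit 5) 
(.lf (nat_lit 32512) (.g (nat_lit 2178) (.e (nat_lit 1201) (nat_lit 88) (.e (nat_lit 65627) (nat_lit 13) (.e (nat_lit 393301) (nat_lit 27) (.e (nat_lit 491558) (nat_lit 10) (.e (nat_lit 344088) (nat_lit 18) .nil))))) .nil)) 
(.lf (nat_lit 32544) (.g (nat_lit 2761) (.e (nat_lit 1201) (nat_lit 88) (.e (nat_lit 65628) (nat_lit 14) (.e (nat_lit 401437) (nat_lit 9) (.e (nat_lit 426542) (nat_lit 29) (.e (nat_lit 352316) (nat_lit 24) (.e (nat_lit 123184) (nat_lit 264) .nil)))))) (.g (nat_lit 5) .nil .nil)))) (.nd (nat_lit 5) 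
(.lf (nat_lit 32528) (.g (nat_lit 3197) (.e (nat_lit 1201) (nat_lit 88) (.e (nat_lit 65627) (nat_lit 13) (.e (nat_lit 393301) (nat_lit 27) (.e (nat_lit 491560) (nat_lit 10) (.e (nat_lit 344091) (nat_lit 18) (.e (nat_lit 7125) (nat_lit 382) .nil)))))) (.g (nat_lit 5) .nil .nil))) 
(.lf (nat_lit 32560) (.g (nat_lit 1775) (.e (nat_lit 1201) (nat_lit 88) (.e (nat_lit 65628) (nat_lit 14) (.e (nat_lit 401438) (nat_lit 9) (.e (nat_lit 426542) (nat_lit 29) (.e (nat_lit 352317) (nat_lit 24) .nil))))) .nil)))) (.nd (nat_lit 4) (.nd (nat_lit 5) 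
(.lf (nat_lit 32520) (.g (nat_lit 3533) (.e (nat_lit 1201) (nat_lit 88) (.e (nat_lit 65627) (nat_lit 13) (.e (nat_lit 393301) (nat_lit 27) (.e (nat_lit 491558) (nat_lit 10) (.e (nat_lit 344096) (nat_lit 18) (.e (nat_lit 7124) (nat_lit 382) .nil)))))) (.g (nat_lit 0) .nil .nil))) 
(.lf (nat_lit 32552) (.g (nat_lit 2488) (.e (nat_lit 1201) (nat_lit 88) (.e (nat_lit 65628) (nat_lit 14) (.e (nat_lit 401437) (nat_lit 9) (.e (nat_lit 426544) (nat_lit 30) (.e (nat_lit 360456) (nat_lit 0) (.e (nat_lit 5818) (nat_lit 320) .nil)))))) (.g (nat_lit 5) .nil .nil)))) (.nd (nat_lit 5) 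
(.lf (nat_lit 32536) (.g (nat_lit 2312) (.e (nat_lit 1201) (nat_lit 88) (.e (nat_lit 65628) (nat_lit 14) (.e (nat_lit 401436) (nat_lit 9) (.e (nat_lit 426542) (nat_lit 29) (.e (nat_lit 352318) (nat_lit 24) (.e (nat_lit 123185) (nat_lit 264) .nil)))))) (.g (nat_lit 6) .nil .nil))) 
(.lf (nat_lit 32568) (.g (nat_lit 1373) (.e (nat_lit 1201) (nat_lit 88) (.e (nat_lit 65628) (nat_lit 14) (.e (nat_lit 401454) (nat_lit 12) (.e (nat_lit 483072) (nat_lit 12) .nil)))) .nil))))) (.nd (nat_lit 3) (.nd (nat_lit 4) (.nd (nat_lit 5) 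
(.lf (nat_lit 32516) (.g (nat_lit 3477) (.e (nat_lit 1201) (nat_lit 88) (.e (nat_lit 65627) (nat_lit 13) (.e (nat_lit 393301) (nat_lit 27) (.e (nat_lit 491558) (nat_lit 10) (.e (nat_lit 344091) (nat_lit 18) (.e (nat_lit 7124) (nat_lit 382) .nil)))))) (.g (nat_lit 0) .nil .nil))) 
(.lf (nat_lit 32548) (.g (nat_lit 2570) (.e (nat_lit 1201) (nat_lit 88) (.e (nat_lit 65628) (nat_lit 14) (.e (nat_lit 401437) (nat_lit 9) (.e (nat_lit 426542) (nat_lit 29) (.e (nat_lit 352318) (nat_lit 24) (.e (nat_lit 123183) (nat_lit 264) .nil)))))) (.g (nat_lit 4) .nil .nil)))) (.nd (nat_lit 5) 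
(.lf (nat_lit 32532) (.g (nat_lit 3186) (.e (nat_lit 1201) (nat_lit 88) (.e (nat_lit 65627) (nat_lit 13) (.e (nat_lit 393301) (nat_lit 27) (.e (nat_lit 491560) (nat_lit 10) (.e (nat_lit 344096) (nat_lit 18) (.e (nat_lit 7124) (nat_lit 382) .nil)))))) (.g (nat_lit 5) .nil .nil))) 
(.lf (nat_lit 32564) (.g (nat_lit 1737) (.e (nat_lit 1201) (nat_lit 88) (.e (nat_lit 65628) (nat_lit 14) (.e (nat_lit 401438) (nat_lit 9) (.e (nat_lit 426544) (nat_lit 30) (.e (nat_lit 360456) (nat_lit 0) (.e (nat_lit 5818) (nat_lit 320) .nil)))))) (.g (nat_lit 4) .nil .nil))))) (.nd (nat_lit 4) (.nd (nat_lit 5) 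
(.lf (nat_lit 32524) (.g (nat_lit 2934) (.e (nat_lit 1201) (nat_lit 88) (.e (nat_lit 65627) (nat_lit 13) (.e (nat_lit 393301) (nat_lit 27) (.e (nat_lit 491560) (nat_lit 10) (.e (nat_lit 344088) (nat_lit 18) .nil))))) .nil)) 
(.lf (nat_lit 32556) (.g (nat_lit 1239) (.e (nat_lit 1201) (nat_lit 88) (.e (nat_lit 65628) (nat_lit 14) (.e (nat_lit 401437) (nat_lit 9) (.e (nat_lit 426555) (nat_lit 32) .nil)))) .nil))) (.nd (nat_lit 5) 
(.lf (nat_lit 32540) (.g (nat_lit 2409) (.e (nat_lit 1201) (nat_lit 88) (.e (nat_lit 65628) (nat_lit 14) (.e (nat_lit 401437) (nat_lit 9) (.e (nat_lit 426538) (nat_lit 29) (.e (nat_lit 352318) (nat_lit 24) (.e (nat_lit 123185) (nat_lit 264) .nil)))))) (.g (nat_lit 5) .nil .nil))) 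
(.lf (nat_lit 32572) (.g (nat_lit 1308) (.e (nat_lit 1201) (nat_lit 88) (.e (nat_lit 65628) (nat_lit 14) (.e (nat_lit 401457) (nat_lit 13) (.e (nat_lit 483391) (nat_lit 23) .nil)))) .nil)))))) (.nd (nat_lit 2) (.nd (nat_lit 3) (.nd (nat_lit 4) (.nd (nat_lit 5) 
(.lf (nat_lit 32514) (.g (nat_lit 2958) (.e (nat_lit 1201) (nat_lit 88) (.e (nat_lit 65627) (nat_lit 13) (.e (nat_lit 393301) (nat_lit 27) (.e (nat_lit 491558) (nat_lit 10) (.e (nat_lit 344090) (nat_lit 18) (.e (nat_lit 7124) (nat_lit 382) .nil)))))) (.g (nat_lit 6) .nil .nil))) 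
(.lf (nat_lit 32546) (.g (nat_lit 2224) (.e (nat_lit 1201) (nat_lit 88) (.e (nat_lit 65628) (nat_lit 14) (.e (nat_lit 401437) (nat_lit 9) (.e (nat_lit 426542) (nat_lit 29) (.e (nat_lit 352317) (nat_lit 24) (.e (nat_lit 123183) (nat_lit 264) .nil)))))) (.g (nat_lit 4) .nil .nil)))) (.nd (nat_lit 5) 
(.lf (nat_lit 32530) (.g (nat_lit 3481) (.e (nat_lit 1201) (nat_lit 88) (.e (nat_lit 65627) (nat_lit 13) (.e (nat_lit 393301) (nat_lit 27) (.e (nat_lit 491560) (nat_lit 10) (.e (nat_lit 344095) (nat_lit 18) (.e (nat_lit 7122) (nat_lit 382) .nil)))))) (.g (nat_lit 4) .nil .nil))) 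
(.lf (nat_lit 32562) (.g (nat_lit 2324) (.e (nat_lit 1201) (nat_lit 88) (.e (nat_lit 65628) (nat_lit 14) (.e (nat_lit 401438) (nat_lit 9) (.e (nat_lit 426542) (nat_lit 29) (.e (nat_lit 352318) (nat_lit 24) (.e (nat_lit 123183) (nat_lit 264) .nil)))))) (.g (nat_lit 4) .nil .nil))))) (.nd (nat_lit 4) (.nd (nat_lit 5) 
(.lf (nat_lit 32522) (.g (nat_lit 2746) (.e (nat_lit 1201) (nat_lit 88) (.e (nat_lit 65627) (nat_lit 13) (.e (nat_lit 393301) (nat_lit 27) (.e (nat_lit 491560) (nat_lit 10) (.e (nat_lit 344087) (nat_lit 18) .nil))))) .nil)) 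
(.lf (nat_lit 32554) (.g (nat_lit 2419) (.e (nat_lit 1201) (nat_lit 88) (.e (nat_lit 65628) (nat_lit 14) (.e (nat_lit 401437) (nat_lit 9) (.e (nat_lit 426546) (nat_lit 30) (.e (nat_lit 360455) (nat_lit 0) (.e (nat_lit 5813) (nat_lit 320) .nil)))))) (.g (nat_lit 4) .nil .nil)))) (.nd (nat_lit 5) 
(.lf (nat_lit 32538) (.g (nat_lit 817) (.e (nat_lit 1201) (nat_lit 88) (.e (nat_lit 65628) (nat_lit 14) (.e (nat_lit 401436) (nat_lit 9) (.e (nat_lit 426546) (nat_lit 30) .nil)))) .nil)) 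
(.lf (nat_lit 32570) (.g (nat_lit 423) (.e (nat_lit 1201) (nat_lit 88) (.e (nat_lit 65628) (nat_lit 14) (.e (nat_lit 401457) (nat_lit 13) .nil))) .nil))))) (.nd (nat_lit 3) (.nd (nat_lit 4) (.nd (nat_lit 5) 
(.lf (nat_lit 32518) (.g (nat_lit 2101) (.e (nat_lit 1201) (nat_lit 88) (.e (nat_lit 65627) (nat_lit 13) (.e (nat_lit 393301) (nat_lit 27) (.e (nat_lit 491558) (nat_lit 10) (.e (nat_lit 344095) (nat_lit 18) (.e (nat_lit 7125) (nat_lit 382) .nil)))))) (.g (nat_lit 4) .nil .nil))) 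
(.lf (nat_lit 32550) (.g (nat_lit 1063) (.e (nat_lit 1201) (nat_lit 88) (.e (nat_lit 65628) (nat_lit 14) (.e (nat_lit 401437) (nat_lit 9) (.e (nat_lit 426544) (nat_lit 30) .nil)))) .nil))) (.nd (nat_lit 5) 
(.lf (nat_lit 32534) (.g (nat_lit 1918) (.e (nat_lit 1201) (nat_lit 88) (.e (nat_lit 65628) (nat_lit 14) (.e (nat_lit 401436) (nat_lit 9) (.e (nat_lit 426542) (nat_lit 29) (.e (nat_lit 352316) (nat_lit 24) (.e (nat_lit 123184) (nat_lit 264) .nil)))))) (.g (nat_lit 4) .nil .nil))) 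
(.lf (nat_lit 32566) (.g (nat_lit 2745) (.e (nat_lit 1201) (nat_lit 88) (.e (nat_lit 65628) (nat_lit 14) (.e (nat_lit 401454) (nat_lit 12) (.e (nat_lit 475142) (nat_lit 8) .nil)))) .nil)))) (.nd (nat_lit 4) (.nd (nat_lit 5) 
(.lf (nat_lit 32526) (.g (nat_lit 2751) (.e (nat_lit 1201) (nat_lit 88) (.e (nat_lit 65627) (nat_lit 13) (.e (nat_lit 393301) (nat_lit 27) (.e (nat_lit 491560) (nat_lit 10) (.e (nat_lit 344091) (nat_lit 18) (.e (nat_lit 7122) (nat_lit 382) .nil)))))) (.g (nat_lit 4) .nil .nil))) 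
(.lf (nat_lit 32558) (.g (nat_lit 2230) (.e (nat_lit 1201) (nat_lit 88) (.e (nat_lit 65628) (nat_lit 14) (.e (nat_lit 401438) (nat_lit 9) (.e (nat_lit 426542) (nat_lit 29) (.e (nat_lit 352316) (nat_lit 24) (.e (nat_lit 123183) (nat_lit 264) .nil)))))) (.g (nat_lit 4) .nil .nil)))) (.nd (nat_lit 5) 
(.lf (nat_lit 32542) (.g (nat_lit 2794) (.e (nat_lit 1201) (nat_lit 88) (.e (nat_lit 65628) (nat_lit 14) (.e (nat_lit 401437) (nat_lit 9) (.e (nat_lit 426540) (nat_lit 29) (.e (nat_lit 352316) (nat_lit 24) .nil))))) .nil)) 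
(.lf (nat_lit 32574) (.g (nat_lit 1058) (.e (nat_lit 1201) (nat_lit 88) (.e (nat_lit 65628) (nat_lit 14) (.e (nat_lit 401457) (nat_lit 13) (.e (nat_lit 483395) (nat_lit 24) .nil)))) .nil))))))) (.nd (nat_lit 1) (.nd (nat_lit 2) (.nd (nat_lit 3) (.nd (nat_lit 4) (.nd (nat_lit 5) 
(.lf (nat_lit 32513) (.g (nat_lit 2532) (.e (nat_lit 1201) (nat_lit 88) (.e (nat_lit 65627) (nat_lit 13) (.e (nat_lit 393301) (nat_lit 27) (.e (nat_lit 491558) (nat_lit 10) (.e (nat_lit 344090) (nat_lit 18) (.e (nat_lit 7122) (nat_lit 382) .nil)))))) (.g (nat_lit 5) .nil .nil))) 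
(.lf (nat_lit 32545) (.g (nat_lit 2217) (.e (nat_lit 1201) (nat_lit 88) (.e (nat_lit 65628) (nat_lit 14) (.e (nat_lit 401437) (nat_lit 9) (.e (nat_lit 426542) (nat_lit 29) (.e (nat_lit 352317) (nat_lit 24) .nil))))) .nil))) (.nd (nat_lit 5) 
(.lf (nat_lit 32529) (.g (nat_lit 3237) (.e (nat_lit 1201) (nat_lit 88) (.e (nat_lit 65627) (nat_lit 13) (.e (nat_lit 393301) (nat_lit 27) (.e (nat_lit 491560) (nat_lit 10) (.e (nat_lit 344094) (nat_lit 18) (.e (nat_lit 7124) (nat_lit 382) .nil)))))) (.g (nat_lit 0) .nil .nil))) 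
(.lf (nat_lit 32561) (.g (nat_lit 2077) (.e (nat_lit 1201) (nat_lit 88) (.e (nat_lit 65628) (nat_lit 14) (.e (nat_lit 401438) (nat_lit 9) (.e (nat_lit 426542) (nat_lit 29) (.e (nat_lit 352317) (nat_lit 24) (.e (nat_lit 123184) (nat_lit 264) .nil)))))) (.g (nat_lit 4) .nil .nil))))) (.nd (nat_lit 4) (.nd (nat_lit 5) 
(.lf (nat_lit 32521) (.g (nat_lit 3792) (.e (nat_lit 1201) (nat_lit 88) (.e (nat_lit 65627) (nat_lit 13) (.e (nat_lit 393301) (nat_lit 27) (.e (nat_lit 491558) (nat_lit 10) (.e (nat_lit 344096) (nat_lit 18) (.e (nat_lit 7125) (nat_lit 382) .nil)))))) (.g (nat_lit 0) .nil .nil))) 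
(.lf (nat_lit 32553) (.g (nat_lit 1135) (.e (nat_lit 1201) (nat_lit 88) (.e (nat_lit 65628) (nat_lit 14) (.e (nat_lit 401437) (nat_lit 9) (.e (nat_lit 426546) (nat_lit 30) .nil)))) .nil))) (.nd (nat_lit 5) 
(.lf (nat_lit 32537) (.g (nat_lit 2027) (.e (nat_lit 1201) (nat_lit 88) (.e (nat_lit 65628) (nat_lit 14) (.e (nat_lit 401436) (nat_lit 9) (.e (nat_lit 426544) (nat_lit 30) (.e (nat_lit 360457) (nat_lit 0) (.e (nat_lit 5818) (nat_lit 320) .nil)))))) (.g (nat_lit 5) .nil .nil))) 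
(.lf (nat_lit 32569) (.g (nat_lit 1373) (.e (nat_lit 1201) (nat_lit 88) (.e (nat_lit 65628) (nat_lit 14) (.e (nat_lit 401454) (nat_lit 12) (.e (nat_lit 483072) (nat_lit 19) .nil)))) .nil))))) (.nd (nat_lit 3) (.nd (nat_lit 4) (.nd (nat_lit 5) 
(.lf (nat_lit 32517) (.g (nat_lit 3716) (.e (nat_lit 1201) (nat_lit 88) (.e (nat_lit 65627) (nat_lit 13) (.e (nat_lit 393301) (nat_lit 27) (.e (nat_lit 491558) (nat_lit 10) (.e (nat_lit 344091) (nat_lit 18) (.e (nat_lit 7125) (nat_lit 382) .nil)))))) (.g (nat_lit 0) .nil .nil))) 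
(.lf (nat_lit 32549) (.g (nat_lit 2971) (.e (nat_lit 1201) (nat_lit 88) (.e (nat_lit 65628) (nat_lit 14) (.e (nat_lit 401437) (nat_lit 9) (.e (nat_lit 426542) (nat_lit 29) (.e (nat_lit 352318) (nat_lit 24) (.e (nat_lit 123184) (nat_lit 264) .nil)))))) (.g (nat_lit 5) .nil .nil)))) (.nd (nat_lit 5) 
(.lf (nat_lit 32533) (.g (nat_lit 3699) (.e (nat_lit 1201) (nat_lit 88) (.e (nat_lit 65627) (nat_lit 13) (.e (nat_lit 393301) (nat_lit 27) (.e (nat_lit 491560) (nat_lit 10) (.e (nat_lit 344096) (nat_lit 18) (.e (nat_lit 7125) (nat_lit 382) .nil)))))) (.g (nat_lit 6) .nil .nil))) 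
(.lf (nat_lit 32565) (.g (nat_lit 2639) (.e (nat_lit 1201) (nat_lit 88) (.e (nat_lit 65628) (nat_lit 14) (.e (nat_lit 401438) (nat_lit 9) (.e (nat_lit 426555) (nat_lit 32) (.e (nat_lit 376870) (nat_lit 24) .nil))))) .nil)))) (.nd (nat_lit 4) (.nd (nat_lit 5) 
(.lf (nat_lit 32525) (.g (nat_lit 3703) (.e (nat_lit 1201) (nat_lit 88) (.e (nat_lit 65627) (nat_lit 13) (.e (nat_lit 393301) (nat_lit 27) (.e (nat_lit 491560) (nat_lit 10) (.e (nat_lit 344090) (nat_lit 18) (.e (nat_lit 7125) (nat_lit 382) .nil)))))) (.g (nat_lit 0) .nil .nil))) 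
(.lf (nat_lit 32557) (.g (nat_lit 1545) (.e (nat_lit 1201) (nat_lit 88) (.e (nat_lit 65628) (nat_lit 14) (.e (nat_lit 401438) (nat_lit 9) (.e (nat_lit 426538) (nat_lit 29) (.e (nat_lit 352318) (nat_lit 24) .nil))))) .nil))) (.nd (nat_lit 5) 
(.lf (nat_lit 32541) (.g (nat_lit 1698) (.e (nat_lit 1201) (nat_lit 88) (.e (nat_lit 65628) (nat_lit 14) (.e (nat_lit 401437) (nat_lit 9) (.e (nat_lit 426539) (nat_lit 29) .nil)))) .nil)) 
(.lf (nat_lit 32573) (.g (nat_lit 1122) (.e (nat_lit 1201) (nat_lit 88) (.e (nat_lit 65628) (nat_lit 14) (.e (nat_lit 401457) (nat_lit 13) (.e (nat_lit 483394) (nat_lit 24) .nil)))) .nil)))))) (.nd (nat_lit 2) (.nd (nat_lit 3) (.nd (nat_lit 4) (.nd (nat_lit 5) 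
(.lf (nat_lit 32515) (.g (nat_lit 3481) (.e (nat_lit 1201) (nat_lit 88) (.e (nat_lit 65627) (nat_lit 13) (.e (nat_lit 393301) (nat_lit 27) (.e (nat_lit 491558) (nat_lit 10) (.e (nat_lit 344091) (nat_lit 18) (.e (nat_lit 7122) (nat_lit 382) .nil)))))) (.g (nat_lit 6) .nil .nil))) 
(.lf (nat_lit 32547) (.g (nat_lit 2716) (.e (nat_lit 1201) (nat_lit 88) (.e (nat_lit 65628) (nat_lit 14) (.e (nat_lit 401437) (nat_lit 9) (.e (nat_lit 426542) (nat_lit 29) (.e (nat_lit 352317) (nat_lit 24) (.e (nat_lit 123184) (nat_lit 264) .nil)))))) (.g (nat_lit 4) .nil .nil)))) (.nd (nat_lit 5) 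
(.lf (nat_lit 32531) (.g (nat_lit 3273) (.e (nat_lit 1201) (nat_lit 88) (.e (nat_lit 65627) (nat_lit 13) (.e (nat_lit 393301) (nat_lit 27) (.e (nat_lit 491560) (nat_lit 10) (.e (nat_lit 344096) (nat_lit 18) (.e (nat_lit 7122) (nat_lit 382) .nil)))))) (.g (nat_lit 5) .nil .nil))) 
(.lf (nat_lit 32563) (.g (nat_lit 2741) (.e (nat_lit 1201) (nat_lit 88) (.e (nat_lit 65628) (nat_lit 14) (.e (nat_lit 401438) (nat_lit 9) (.e (nat_lit 426542) (nat_lit 29) (.e (nat_lit 352318) (nat_lit 24) (.e (nat_lit 123184) (nat_lit 264) .nil)))))) (.g (nat_lit 5) .nil .nil))))) (.nd (nat_lit 4) (.nd (nat_lit 5) 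
(.lf (nat_lit 32523) (.g (nat_lit 3276) (.e (nat_lit 1201) (nat_lit 88) (.e (nat_lit 65627) (nat_lit 13) (.e (nat_lit 393301) (nat_lit 27) (.e (nat_lit 491560) (nat_lit 10) (.e (nat_lit 344087) (nat_lit 18) (.e (nat_lit 7124) (nat_lit 382) .nil)))))) (.g (nat_lit 4) .nil .nil))) 
(.lf (nat_lit 32555) (.g (nat_lit 1749) (.e (nat_lit 1201) (nat_lit 88) (.e (nat_lit 65628) (nat_lit 14) (.e (nat_lit 401437) (nat_lit 9) (.e (nat_lit 426553) (nat_lit 32) .nil)))) .nil))) (.nd (nat_lit 5) 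
(.lf (nat_lit 32539) (.g (nat_lit 370) (.e (nat_lit 1201) (nat_lit 88) (.e (nat_lit 65628) (nat_lit 14) (.e (nat_lit 401437) (nat_lit 9) .nil))) .nil)) 
(.lf (nat_lit 32571) (.g (nat_lit 1423) (.e (nat_lit 1201) (nat_lit 88) (.e (nat_lit 65628) (nat_lit 14) (.e (nat_lit 401457) (nat_lit 13) (.e (nat_lit 483378) (nat_lit 23) .nil)))) .nil))))) (.nd (nat_lit 3) (.nd (nat_lit 4) (.nd (nat_lit 5) 
(.lf (nat_lit 32519) (.g (nat_lit 3622) (.e (nat_lit 1201) (nat_lit 88) (.e (nat_lit 65627) (nat_lit 13) (.e (nat_lit 393301) (nat_lit 27) (.e (nat_lit 491558) (nat_lit 10) (.e (nat_lit 344096) (nat_lit 18) (.e (nat_lit 7122) (nat_lit 382) .nil)))))) (.g (nat_lit 6) .nil .nil))) 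
(.lf (nat_lit 32551) (.g (nat_lit 2159) (.e (nat_lit 1201) (nat_lit 88) (.e (nat_lit 65628) (nat_lit 14) (.e (nat_lit 401437) (nat_lit 9) (.e (nat_lit 426544) (nat_lit 30) (.e (nat_lit 360455) (nat_lit 0) (.e (nat_lit 5813) (nat_lit 320) .nil)))))) (.g (nat_lit 4) .nil .nil)))) (.nd (nat_lit 5) 
(.lf (nat_lit 32535) (.g (nat_lit 2256) (.e (nat_lit 1201) (nat_lit 88) (.e (nat_lit 65628) (nat_lit 14) (.e (nat_lit 401436) (nat_lit 9) (.e (nat_lit 426542) (nat_lit 29) (.e (nat_lit 352316) (nat_lit 24) (.e (nat_lit 123185) (nat_lit 264) .nil)))))) (.g (nat_lit 6) .nil .nil))) 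
(.lf (nat_lit 32567) (.g (nat_lit 2592) (.e (nat_lit 1201) (nat_lit 88) (.e (nat_lit 65628) (nat_lit 14) (.e (nat_lit 401454) (nat_lit 12) (.e (nat_lit 475143) (nat_lit 8) .nil)))) .nil)))) (.nd (nat_lit 4) (.nd (nat_lit 5) 
(.lf (nat_lit 32527) (.g (nat_lit 2866) (.e (nat_lit 1201) (nat_lit 88) (.e (nat_lit 65627) (nat_lit 13) (.e (nat_lit 393301) (nat_lit 27) (.e (nat_lit 491560) (nat_lit 10) (.e (nat_lit 344091) (nat_lit 18) (.e (nat_lit 7124) (nat_lit 382) .nil)))))) (.g (nat_lit 4) .nil .nil))) 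
(.lf (nat_lit 32559) (.g (nat_lit 2566) (.e (nat_lit 1201) (nat_lit 88) (.e (nat_lit 65628) (nat_lit 14) (.e (nat_lit 401438) (nat_lit 9) (.e (nat_lit 426542) (nat_lit 29) (.e (nat_lit 352316) (nat_lit 24) (.e (nat_lit 123184) (nat_lit 264) .nil)))))) (.g (nat_lit 5) .nil .nil)))) (.nd (nat_lit 5) 
(.lf (nat_lit 32543) (.g (nat_lit 2441) (.e (nat_lit 1201) (nat_lit 88) (.e (nat_lit 65628) (nat_lit 14) (.e (nat_lit 401437) (nat_lit 9) (.e (nat_lit 426542) (nat_lit 29) (.e (nat_lit 352316) (nat_lit 24) (.e (nat_lit 123183) (nat_lit 264) .nil)))))) (.g (nat_lit 4) .nil .nil))) 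
(.lf (nat_lit 32575) (.g (nat_lit 1390) (.e (nat_lit 1201) (nat_lit 88) (.e (nat_lit 65628) (nat_lit 14) (.e (nat_lit 401458) (nat_lit 13) (.e (nat_lit 483350) (nat_lit 17) .nil)))) .nil))))))))

noncomputable def tv459 : DT := (.nd (nat_lit 0) (.nd (nat_lit 1) (.nd (nat_lit 2) (.nd (nat_lit 3) (.nd (nat_lit 4) (.nd (nat_lit 5) 
(.lf (nat_lit 32576) (.g (nat_lit 2030) (.e (nat_lit 1201) (nat_lit 88) (.e (nat_lit 65628) (nat_lit 14) (.e (nat_lit 401458) (nat_lit 13) (.e (nat_lit 483378) (nat_lit 23) (.e (nat_lit 336032) (nat_lit 4) (.e (nat_lit 123184) (nat_lit 264) .nil)))))) (.g (nat_lit 4) .nil .nil))) 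
(.lf (nat_lit 32608) (.g (nat_lit 3582) (.e (nat_lit 1201) (nat_lit 88) (.e (nat_lit 65628) (nat_lit 14) (.e (nat_lit 401459) (nat_lit 13) (.e (nat_lit 483350) (nat_lit 17) (.e (nat_lit 6113) (nat_lit 332) (.e (nat_lit 2538) (nat_lit 158) (.e (nat_lit 8431) (nat_lit 138) .nil))))))) (.g (nat_lit 5) .nil .nil)))) (.nd (nat_lit 5) 
(.lf (nat_lit 32592) (.g (nat_lit 2214) (.e (nat_lit 1201) (nat_lit 88) (.e (nat_lit 65628) (nat_lit 14) (.e (nat_lit 401459) (nat_lit 13) (.e (nat_lit 483344) (nat_lit 17) (.e (nat_lit 6152) (nat_lit 332) (.e (nat_lit 2540) (nat_lit 158) (.e (nat_lit 8432) (nat_lit 138) .nil))))))) (.g (nat_lit 4) .nil .nil))) 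
(.lf (nat_lit 32624) (.g (nat_lit 3805) (.e (nat_lit 1201) (nat_lit 88) (.e (nat_lit 65628) (nat_lit 14) (.e (nat_lit 401459) (nat_lit 13) (.e (nat_lit 483372) (nat_lit 21) (.e (nat_lit 327424) (nat_lit 1) (.e (nat_lit 8433) (nat_lit 138) .nil)))))) (.g (nat_lit 4) .nil .nil))))) (.nd (nat_lit 4) (.nd (nat_lit 5) 
(.lf (nat_lit 32584) (.g (nat_lit 2331) (.e (nat_lit 1201) (nat_lit 88) (.e (nat_lit 65628) (nat_lit 14) (.e (nat_lit 401458) (nat_lit 13) (.e (nat_lit 483396) (nat_lit 24) (.e (nat_lit 344104) (nat_lit 18) (.e (nat_lit 5818) (nat_lit 320) .nil)))))) (.g (nat_lit 5) .nil .nil))) 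
(.lf (nat_lit 32616) (.g (nat_lit 3165) (.e (nat_lit 1201) (nat_lit 88) (.e (nat_lit 65628) (nat_lit 14) (.e (nat_lit 401459) (nat_lit 13) (.e (nat_lit 483372) (nat_lit 21) (.e (nat_lit 327424) (nat_lit 0) .nil))))) .nil))) (.nd (nat_lit 5) 
(.lf (nat_lit 32600) (.g (nat_lit 1889) (.e (nat_lit 1201) (nat_lit 88) (.e (nat_lit 65628) (nat_lit 14) (.e (nat_lit 401459) (nat_lit 13) (.e (nat_lit 483344) (nat_lit 17) (.e (nat_lit 6440) (nat_lit 343) .nil))))) .nil)) 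
(.lf (nat_lit 32632) (.g (nat_lit 2729) (.e (nat_lit 1201) (nat_lit 88) (.e (nat_lit 65628) (nat_lit 14) (.e (nat_lit 401459) (nat_lit 13) (.e (nat_lit 483380) (nat_lit 23) (.e (nat_lit 336036) (nat_lit 4) .nil))))) .nil))))) (.nd (nat_lit 3) (.nd (nat_lit 4) (.nd (nat_lit 5) 
(.lf (nat_lit 32580) (.g (nat_lit 1154) (.e (nat_lit 1201) (nat_lit 88) (.e (nat_lit 65628) (nat_lit 14) (.e (nat_lit 401458) (nat_lit 13) (.e (nat_lit 483394) (nat_lit 24) .nil)))) .nil)) 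
(.lf (nat_lit 32612) (.g (nat_lit 1715) (.e (nat_lit 1201) (nat_lit 88) (.e (nat_lit 65628) (nat_lit 14) (.e (nat_lit 401459) (nat_lit 13) (.e (nat_lit 483354) (nat_lit 17) .nil)))) .nil))) (.nd (nat_lit 5) 
(.lf (nat_lit 32596) (.g (nat_lit 2115) (.e (nat_lit 1201) (nat_lit 88) (.e (nat_lit 65628) (nat_lit 14) (.e (nat_lit 401459) (nat_lit 13) (.e (nat_lit 483344) (nat_lit 17) (.e (nat_lit 6155) (nat_lit 332) (.e (nat_lit 2540) (nat_lit 158) (.e (nat_lit 8433) (nat_lit 138) .nil))))))) (.g (nat_lit 4) .nil .nil))) 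
(.lf (nat_lit 32628) (.g (nat_lit 3488) (.e (nat_lit 1201) (nat_lit 88) (.e (nat_lit 65628) (nat_lit 14) (.e (nat_lit 401459) (nat_lit 13) (.e (nat_lit 483375) (nat_lit 22) (.e (nat_lit 327692) (nat_lit 1) (.e (nat_lit 8430) (nat_lit 138) .nil)))))) (.g (nat_lit 4) .nil .nil))))) (.nd (nat_lit 4) (.nd (nat_lit 5) 
(.lf (nat_lit 32588) (.g (nat_lit 2468) (.e (nat_lit 1201) (nat_lit 88) (.e (nat_lit 65628) (nat_lit 14) (.e (nat_lit 401459) (nat_lit 13) (.e (nat_lit 483344) (nat_lit 17) (.e (nat_lit 6079) (nat_lit 332) (.e (nat_lit 2542) (nat_lit 158) (.e (nat_lit 8432) (nat_lit 138) .nil))))))) (.g (nat_lit 4) .nil .nil))) 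
(.lf (nat_lit 32620) (.g (nat_lit 3636) (.e (nat_lit 1201) (nat_lit 88) (.e (nat_lit 65628) (nat_lit 14) (.e (nat_lit 401459) (nat_lit 13) (.e (nat_lit 483372) (nat_lit 21) (.e (nat_lit 327424) (nat_lit 0) (.e (nat_lit 28) (nat_lit 0) (.e (nat_lit 5820) (nat_lit 320) .nil))))))) (.g (nat_lit 4) .nil .nil)))) (.nd (nat_lit 5) 
(.lf (nat_lit 32604) (.g (nat_lit 3007) (.e (nat_lit 1201) (nat_lit 88) (.e (nat_lit 65628) (nat_lit 14) (.e (nat_lit 401459) (nat_lit 13) (.e (nat_lit 483350) (nat_lit 17) (.e (nat_lit 6097) (nat_lit 332) (.e (nat_lit 2538) (nat_lit 158) (.e (nat_lit 8431) (nat_lit 138) .nil))))))) (.g (nat_lit 4) .nil .nil))) 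
(.lf (nat_lit 32636) (.g (nat_lit 2292) (.e (nat_lit 1201) (nat_lit 88) (.e (nat_lit 65628) (nat_lit 14) (.e (nat_lit 401459) (nat_lit 13) (.e (nat_lit 483387) (nat_lit 23) (.e (nat_lit 336032) (nat_lit 4) .nil))))) .nil)))))) (.nd (nat_lit 2) (.nd (nat_lit 3) (.nd (nat_lit 4) (.nd (nat_lit 5) 
(.lf (nat_lit 32578) (.g (nat_lit 1959) (.e (nat_lit 1201) (nat_lit 88) (.e (nat_lit 65628) (nat_lit 14) (.e (nat_lit 401458) (nat_lit 13) (.e (nat_lit 483389) (nat_lit 23) (.e (nat_lit 336032) (nat_lit 4) (.e (nat_lit 123184) (nat_lit 264) .nil)))))) (.g (nat_lit 4) .nil .nil))) 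
(.lf (nat_lit 32610) (.g (nat_lit 3758) (.e (nat_lit 1201) (nat_lit 88) (.e (nat_lit 65628) (nat_lit 14) (.e (nat_lit 401459) (nat_lit 13) (.e (nat_lit 483350) (nat_lit 17) (.e (nat_lit 6113) (nat_lit 332) (.e (nat_lit 2538) (nat_lit 158) (.e (nat_lit 8433) (nat_lit 138) .nil))))))) (.g (nat_lit 5) .nil .nil)))) (.nd (nat_lit 5) 
(.lf (nat_lit 32594) (.g (nat_lit 2512) (.e (nat_lit 1201) (nat_lit 88) (.e (nat_lit 65628) (nat_lit 14) (.e (nat_lit 401459) (nat_lit 13) (.e (nat_lit 483344) (nat_lit 17) (.e (nat_lit 6153) (nat_lit 332) (.e (nat_lit 2542) (nat_lit 158) (.e (nat_lit 8432) (nat_lit 138) .nil))))))) (.g (nat_lit 4) .nil .nil))) 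
(.lf (nat_lit 32626) (.g (nat_lit 1814) (.e (nat_lit 1201) (nat_lit 88) (.e (nat_lit 65628) (nat_lit 14) (.e (nat_lit 401459) (nat_lit 13) (.e (nat_lit 483375) (nat_lit 22) .nil)))) .nil)))) (.nd (nat_lit 4) (.nd (nat_lit 5) 
(.lf (nat_lit 32586) (.g (nat_lit 1616) (.e (nat_lit 1201) (nat_lit 88) (.e (nat_lit 65628) (nat_lit 14) (.e (nat_lit 401459) (nat_lit 13) (.e (nat_lit 483343) (nat_lit 17) .nil)))) .nil)) 
(.lf (nat_lit 32618) (.g (nat_lit 3457) (.e (nat_lit 1201) (nat_lit 88) (.e (nat_lit 65628) (nat_lit 14) (.e (nat_lit 401459) (nat_lit 13) (.e (nat_lit 483372) (nat_lit 21) (.e (nat_lit 327424) (nat_lit 0) (.e (nat_lit 26) (nat_lit 0) (.e (nat_lit 5820) (nat_lit 320) .nil))))))) (.g (nat_lit 4) .nil .nil)))) (.nd (nat_lit 5) 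
(.lf (nat_lit 32602) (.g (nat_lit 1552) (.e (nat_lit 1201) (nat_lit 88) (.e (nat_lit 65628) (nat_lit 14) (.e (nat_lit 401459) (nat_lit 13) (.e (nat_lit 483350) (nat_lit 17) .nil)))) .nil)) 
(.lf (nat_lit 32634) (.g (nat_lit 2146) (.e (nat_lit 1201) (nat_lit 88) (.e (nat_lit 65628) (nat_lit 14) (.e (nat_lit 401459) (nat_lit 13) (.e (nat_lit 483383) (nat_lit 23) .nil)))) .nil))))) (.nd (nat_lit 3) (.nd (nat_lit 4) (.nd (nat_lit 5) 
(.lf (nat_lit 32582) (.g (nat_lit 1128) (.e (nat_lit 1201) (nat_lit 88) (.e (nat_lit 65628) (nat_lit 14) (.e (nat_lit 401458) (nat_lit 13) (.e (nat_lit 483396) (nat_lit 24) .nil)))) .nil)) 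
(.lf (nat_lit 32614) (.g (nat_lit 4362) (.e (nat_lit 1201) (nat_lit 88) (.e (nat_lit 65628) (nat_lit 14) (.e (nat_lit 401459) (nat_lit 13) (.e (nat_lit 483372) (nat_lit 21) (.e (nat_lit 319490) (nat_lit 0) (.e (nat_lit 75) (nat_lit 0) (.e (nat_lit 5821) (nat_lit 320) .nil))))))) (.g (nat_lit 4) .nil .nil)))) (.nd (nat_lit 5) 
(.lf (nat_lit 32598) (.g (nat_lit 2338) (.e (nat_lit 1201) (nat_lit 88) (.e (nat_lit 65628) (nat_lit 14) (.e (nat_lit 401459) (nat_lit 13) (.e (nat_lit 483344) (nat_lit 17) (.e (nat_lit 6203) (nat_lit 332) (.e (nat_lit 2540) (nat_lit 158) (.e (nat_lit 8432) (nat_lit 138) .nil))))))) (.g (nat_lit 4) .nil .nil))) 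
(.lf (nat_lit 32630) (.g (nat_lit 1944) (.e (nat_lit 1201) (nat_lit 88) (.e (nat_lit 65628) (nat_lit 14) (.e (nat_lit 401459) (nat_lit 13) (.e (nat_lit 483378) (nat_lit 23) (.e (nat_lit 336032) (nat_lit 4) .nil))))) .nil)))) (.nd (nat_lit 4) (.nd (nat_lit 5) 
(.lf (nat_lit 32590) (.g (nat_lit 2793) (.e (nat_lit 1201) (nat_lit 88) (.e (nat_lit 65628) (nat_lit 14) (.e (nat_lit 401459) (nat_lit 13) (.e (nat_lit 483344) (nat_lit 17) (.e (nat_lit 6081) (nat_lit 332) (.e (nat_lit 2542) (nat_lit 158) (.e (nat_lit 8432) (nat_lit 138) .nil))))))) (.g (nat_lit 4) .nil .nil))) 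
(.lf (nat_lit 32622) (.g (nat_lit 3392) (.e (nat_lit 1201) (nat_lit 88) (.e (nat_lit 65628) (nat_lit 14) (.e (nat_lit 401459) (nat_lit 13) (.e (nat_lit 483372) (nat_lit 21) (.e (nat_lit 327424) (nat_lit 1) (.e (nat_lit 8431) (nat_lit 138) .nil)))))) (.g (nat_lit 4) .nil .nil)))) (.nd (nat_lit 5) 
(.lf (nat_lit 32606) (.g (nat_lit 2420) (.e (nat_lit 1201) (nat_lit 88) (.e (nat_lit 65628) (nat_lit 14) (.e (nat_lit 401459) (nat_lit 13) (.e (nat_lit 483350) (nat_lit 17) (.e (nat_lit 6113) (nat_lit 332) .nil))))) .nil)) 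
(.lf (nat_lit 32638) (.g (nat_lit 2252) (.e (nat_lit 1201) (nat_lit 88) (.e (nat_lit 65628) (nat_lit 14) (.e (nat_lit 401459) (nat_lit 13) (.e (nat_lit 483388) (nat_lit 23) .nil)))) .nil))))))) (.nd (nat_lit 1) (.nd (nat_lit 2) (.nd (nat_lit 3) (.nd (nat_lit 4) (.nd (nat_lit 5) 
(.lf (nat_lit 32577) (.g (nat_lit 2264) (.e (nat_lit 1201) (nat_lit 88) (.e (nat_lit 65628) (nat_lit 14) (.e (nat_lit 401458) (nat_lit 13) (.e (nat_lit 483386) (nat_lit 23) (.e (nat_lit 336030) (nat_lit 4) (.e (nat_lit 123182) (nat_lit 264) .nil)))))) (.g (nat_lit 4) .nil .nil))) 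
(.lf (nat_lit 32609) (.g (nat_lit 3135) (.e (nat_lit 1201) (nat_lit 88) (.e (nat_lit 65628) (nat_lit 14) (.e (nat_lit 401459) (nat_lit 13) (.e (nat_lit 483350) (nat_lit 17) (.e (nat_lit 6113) (nat_lit 332) (.e (nat_lit 2538) (nat_lit 158) (.e (nat_lit 8432) (nat_lit 138) .nil))))))) (.g (nat_lit 4) .nil .nil)))) (.nd (nat_lit 5) 
(.lf (nat_lit 32593) (.g (nat_lit 2459) (.e (nat_lit 1201) (nat_lit 88) (.e (nat_lit 65628) (nat_lit 14) (.e (nat_lit 401459) (nat_lit 13) (.e (nat_lit 483344) (nat_lit 17) (.e (nat_lit 6152) (nat_lit 332) (.e (nat_lit 2542) (nat_lit 158) (.e (nat_lit 8432) (nat_lit 138) .nil))))))) (.g (nat_lit 4) .nil .nil))) 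
(.lf (nat_lit 32625) (.g (nat_lit 1896) (.e (nat_lit 1201) (nat_lit 88) (.e (nat_lit 65628) (nat_lit 14) (.e (nat_lit 401459) (nat_lit 13) (.e (nat_lit 483374) (nat_lit 22) .nil)))) .nil)))) (.nd (nat_lit 4) (.nd (nat_lit 5) 
(.lf (nat_lit 32585) (.g (nat_lit 301) (.e (nat_lit 1201) (nat_lit 88) (.e (nat_lit 65628) (nat_lit 14) (.e (nat_lit 401459) (nat_lit 13) .nil))) .nil)) 
(.lf (nat_lit 32617) (.g (nat_lit 3230) (.e (nat_lit 1201) (nat_lit 88) (.e (nat_lit 65628) (nat_lit 14) (.e (nat_lit 401459) (nat_lit 13) (.e (nat_lit 483372) (nat_lit 21) (.e (nat_lit 327424) (nat_lit 0) (.e (nat_lit 24) (nat_lit 0) (.e (nat_lit 5820) (nat_lit 320) .nil))))))) (.g (nat_lit 4) .nil .nil)))) (.nd (nat_lit 5) 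
(.lf (nat_lit 32601) (.g (nat_lit 1791) (.e (nat_lit 1201) (nat_lit 88) (.e (nat_lit 65628) (nat_lit 14) (.e (nat_lit 401459) (nat_lit 13) (.e (nat_lit 483347) (nat_lit 17) .nil)))) .nil)) 
(.lf (nat_lit 32633) (.g (nat_lit 1741) (.e (nat_lit 1201) (nat_lit 88) (.e (nat_lit 65628) (nat_lit 14) (.e (nat_lit 401459) (nat_lit 13) (.e (nat_lit 483381) (nat_lit 23) .nil)))) .nil))))) (.nd (nat_lit 3) (.nd (nat_lit 4) (.nd (nat_lit 5) 
(.lf (nat_lit 32581) (.g (nat_lit 2035) (.e (nat_lit 1201) (nat_lit 88) (.e (nat_lit 65628) (nat_lit 14) (.e (nat_lit 401458) (nat_lit 13) (.e (nat_lit 483394) (nat_lit 24) (.e (nat_lit 344104) (nat_lit 18) (.e (nat_lit 5818) (nat_lit 320) .nil)))))) (.g (nat_lit 4) .nil .nil))) 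
(.lf (nat_lit 32613) (.g (nat_lit 4420) (.e (nat_lit 1201) (nat_lit 88) (.e (nat_lit 65628) (nat_lit 14) (.e (nat_lit 401459) (nat_lit 13) (.e (nat_lit 483372) (nat_lit 21) (.e (nat_lit 319490) (nat_lit 0) (.e (nat_lit 63) (nat_lit 0) (.e (nat_lit 5817) (nat_lit 320) .nil))))))) (.g (nat_lit 4) .nil .nil)))) (.nd (nat_lit 5) 
(.lf (nat_lit 32597) (.g (nat_lit 2064) (.e (nat_lit 1201) (nat_lit 88) (.e (nat_lit 65628) (nat_lit 14) (.e (nat_lit 401459) (nat_lit 13) (.e (nat_lit 483344) (nat_lit 17) (.e (nat_lit 6203) (nat_lit 332) .nil))))) .nil)) 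
(.lf (nat_lit 32629) (.g (nat_lit 4064) (.e (nat_lit 1201) (nat_lit 88) (.e (nat_lit 65628) (nat_lit 14) (.e (nat_lit 401459) (nat_lit 13) (.e (nat_lit 483375) (nat_lit 22) (.e (nat_lit 327692) (nat_lit 1) (.e (nat_lit 8433) (nat_lit 138) .nil)))))) (.g (nat_lit 0) .nil .nil))))) (.nd (nat_lit 4) (.nd (nat_lit 5) 
(.lf (nat_lit 32589) (.g (nat_lit 2085) (.e (nat_lit 1201) (nat_lit 88) (.e (nat_lit 65628) (nat_lit 14) (.e (nat_lit 401459) (nat_lit 13) (.e (nat_lit 483344) (nat_lit 17) (.e (nat_lit 6081) (nat_lit 332) .nil))))) .nil)) 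
(.lf (nat_lit 32621) (.g (nat_lit 3165) (.e (nat_lit 1201) (nat_lit 88) (.e (nat_lit 65628) (nat_lit 14) (.e (nat_lit 401459) (nat_lit 13) (.e (nat_lit 483372) (nat_lit 21) (.e (nat_lit 327424) (nat_lit 1) .nil))))) .nil))) (.nd (nat_lit 5) 
(.lf (nat_lit 32605) (.g (nat_lit 3316) (.e (nat_lit 1201) (nat_lit 88) (.e (nat_lit 65628) (nat_lit 14) (.e (nat_lit 401459) (nat_lit 13) (.e (nat_lit 483350) (nat_lit 17) (.e (nat_lit 6097) (nat_lit 332) (.e (nat_lit 2538) (nat_lit 158) (.e (nat_lit 8433) (nat_lit 138) .nil))))))) (.g (nat_lit 4) .nil .nil))) 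
(.lf (nat_lit 32637) (.g (nat_lit 3088) (.e (nat_lit 1201) (nat_lit 88) (.e (nat_lit 65628) (nat_lit 14) (.e (nat_lit 401459) (nat_lit 13) (.e (nat_lit 483387) (nat_lit 23) (.e (nat_lit 336032) (nat_lit 4) (.e (nat_lit 123184) (nat_lit 264) .nil)))))) (.g (nat_lit 4) .nil .nil))))))) (.nd (nat_lit 2) (.nd (nat_lit 3) (.nd (nat_lit 4) (.nd (nat_lit 5) 
(.lf (nat_lit 32579) (.g (nat_lit 1191) (.e (nat_lit 1201) (nat_lit 88) (.e (nat_lit 65628) (nat_lit 14) (.e (nat_lit 401458) (nat_lit 13) (.e (nat_lit 483393) (nat_lit 23) .nil)))) .nil)) 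
(.lf (nat_lit 32611) (.g (nat_lit 2650) (.e (nat_lit 1201) (nat_lit 88) (.e (nat_lit 65628) (nat_lit 14) (.e (nat_lit 401459) (nat_lit 13) (.e (nat_lit 483350) (nat_lit 17) (.e (nat_lit 6113) (nat_lit 332) (.e (nat_lit 7936) (nat_lit 158) (.e (nat_lit 8433) (nat_lit 138) .nil))))))) (.g (nat_lit 4) .nil .nil)))) (.nd (nat_lit 5) 
(.lf (nat_lit 32595) (.g (nat_lit 2454) (.e (nat_lit 1201) (nat_lit 88) (.e (nat_lit 65628) (nat_lit 14) (.e (nat_lit 401459) (nat_lit 13) (.e (nat_lit 483344) (nat_lit 17) (.e (nat_lit 6155) (nat_lit 332) (.e (nat_lit 2540) (nat_lit 158) (.e (nat_lit 8432) (nat_lit 138) .nil))))))) (.g (nat_lit 4) .nil .nil))) 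
(.lf (nat_lit 32627) (.g (nat_lit 2855) (.e (nat_lit 1201) (nat_lit 88) (.e (nat_lit 65628) (nat_lit 14) (.e (nat_lit 401459) (nat_lit 13) (.e (nat_lit 483375) (nat_lit 22) (.e (nat_lit 327692) (nat_lit 1) (.e (nat_lit 8429) (nat_lit 138) .nil)))))) (.g (nat_lit 4) .nil .nil))))) (.nd (nat_lit 4) (.nd (nat_lit 5) 
(.lf (nat_lit 32587) (.g (nat_lit 993) (.e (nat_lit 1201) (nat_lit 88) (.e (nat_lit 65628) (nat_lit 14) (.e (nat_lit 401459) (nat_lit 13) (.e (nat_lit 483344) (nat_lit 17) .nil)))) .nil)) 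
(.lf (nat_lit 32619) (.g (nat_lit 3426) (.e (nat_lit 1201) (nat_lit 88) (.e (nat_lit 65628) (nat_lit 14) (.e (nat_lit 401459) (nat_lit 13) (.e (nat_lit 483372) (nat_lit 21) (.e (nat_lit 327424) (nat_lit 0) (.e (nat_lit 28) (nat_lit 0) (.e (nat_lit 5815) (nat_lit 320) .nil))))))) (.g (nat_lit 4) .nil .nil)))) (.nd (nat_lit 5) 
(.lf (nat_lit 32603) (.g (nat_lit 2835) (.e (nat_lit 1201) (nat_lit 88) (.e (nat_lit 65628) (nat_lit 14) (.e (nat_lit 401459) (nat_lit 13) (.e (nat_lit 483350) (nat_lit 17) (.e (nat_lit 6097) (nat_lit 332) .nil))))) .nil)) 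
(.lf (nat_lit 32635) (.g (nat_lit 2527) (.e (nat_lit 1201) (nat_lit 88) (.e (nat_lit 65628) (nat_lit 14) (.e (nat_lit 401459) (nat_lit 13) (.e (nat_lit 483386) (nat_lit 23) (.e (nat_lit 336030) (nat_lit 4) (.e (nat_lit 123184) (nat_lit 264) .nil)))))) (.g (nat_lit 4) .nil .nil)))))) (.nd (nat_lit 3) (.nd (nat_lit 4) (.nd (nat_lit 5) 
(.lf (nat_lit 32583) (.g (nat_lit 1816) (.e (nat_lit 1201) (nat_lit 88) (.e (nat_lit 65628) (nat_lit 14) (.e (nat_lit 401458) (nat_lit 13) (.e (nat_lit 483396) (nat_lit 24) (.e (nat_lit 344104) (nat_lit 18) .nil))))) .nil)) 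
(.lf (nat_lit 32615) (.g (nat_lit 4861) (.e (nat_lit 1201) (nat_lit 88) (.e (nat_lit 65628) (nat_lit 14) (.e (nat_lit 401459) (nat_lit 13) (.e (nat_lit 483372) (nat_lit 21) (.e (nat_lit 319492) (nat_lit 0) .nil))))) .nil))) (.nd (nat_lit 5) 
(.lf (nat_lit 32599) (.g (nat_lit 2185) (.e (nat_lit 1201) (nat_lit 88) (.e (nat_lit 65628) (nat_lit 14) (.e (nat_lit 401459) (nat_lit 13) (.e (nat_lit 483344) (nat_lit 17) (.e (nat_lit 6434) (nat_lit 343) (.e (nat_lit 1288) (nat_lit 95) (.e (nat_lit 123184) (nat_lit 264) .nil))))))) (.g (nat_lit 4) .nil .nil))) 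
(.lf (nat_lit 32631) (.g (nat_lit 2433) (.e (nat_lit 1201) (nat_lit 88) (.e (nat_lit 65628) (nat_lit 14) (.e (nat_lit 401459) (nat_lit 13) (.e (nat_lit 483378) (nat_lit 23) (.e (nat_lit 336032) (nat_lit 4) (.e (nat_lit 123184) (nat_lit 264) .nil)))))) (.g (nat_lit 4) .nil .nil))))) (.nd (nat_lit 4) (.nd (nat_lit 5) 
(.lf (nat_lit 32591) (.g (nat_lit 2012) (.e (nat_lit 1201) (nat_lit 88) (.e (nat_lit 65628) (nat_lit 14) (.e (nat_lit 401459) (nat_lit 13) (.e (nat_lit 483344) (nat_lit 17) (.e (nat_lit 6152) (nat_lit 332) .nil))))) .nil)) 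
(.lf (nat_lit 32623) (.g (nat_lit 3612) (.e (nat_lit 1201) (nat_lit 88) (.e (nat_lit 65628) (nat_lit 14) (.e (nat_lit 401459) (nat_lit 13) (.e (nat_lit 483372) (nat_lit 21) (.e (nat_lit 327424) (nat_lit 1) (.e (nat_lit 8432) (nat_lit 138) .nil)))))) (.g (nat_lit 4) .nil .nil)))) (.nd (nat_lit 5) 
(.lf (nat_lit 32607) (.g (nat_lit 2978) (.e (nat_lit 1201) (nat_lit 88) (.e (nat_lit 65628) (nat_lit 14) (.e (nat_lit 401459) (nat_lit 13) (.e (nat_lit 483350) (nat_lit 17) (.e (nat_lit 6113) (nat_lit 332) (.e (nat_lit 2538) (nat_lit 158) (.e (nat_lit 8430) (nat_lit 138) .nil))))))) (.g (nat_lit 4) .nil .nil))) 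
(.lf (nat_lit 32639) (.g (nat_lit 2112) (.e (nat_lit 1201) (nat_lit 88) (.e (nat_lit 65628) (nat_lit 14) (.e (nat_lit 401459) (nat_lit 13) (.e (nat_lit 483389) (nat_lit 23) .nil)))) .nil))))))))

noncomputable def tv460 : DT := (.nd (nat_lit 0) (.nd (nat_lit 1) (.nd (nat_lit 2) (.nd (nat_lit 3) (.nd (nat_lit 4) (.nd (nat_lit 5) (.nd (nat_lit 6) 
(.lf (nat_lit 32640) (.g (nat_lit 2143) (.e (nat_lit 1201) (nat_lit 88) (.e (nat_lit 65628) (nat_lit 14) (.e (nat_lit 401459) (nat_lit 13) (.e (nat_lit 483392) (nat_lit 23) .nil)))) .nil)) 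
(.lf (nat_lit 32704) (.g (nat_lit 1404) (.e (nat_lit 1201) (nat_lit 88) (.e (nat_lit 65630) (nat_lit 14) (.e (nat_lit 401435) (nat_lit 9) (.e (nat_lit 426544) (nat_lit 30) .nil)))) .nil))) (.nd (nat_lit 6) 
(.lf (nat_lit 32672) (.g (nat_lit 5139) (.e (nat_lit 1201) (nat_lit 88) (.e (nat_lit 65629) (nat_lit 14) (.e (nat_lit 401459) (nat_lit 13) (.e (nat_lit 483372) (nat_lit 21) (.e (nat_lit 327424) (nat_lit 0) .nil))))) .nil)) 
(.lf (nat_lit 32736) (.g (nat_lit 2543) (.e (nat_lit 1201) (nat_lit 88) (.e (nat_lit 65630) (nat_lit 14) (.e (nat_lit 401437) (nat_lit 9) (.e (nat_lit 426546) (nat_lit 30) (.e (nat_lit 360456) (nat_lit 0) (.e (nat_lit 5817) (nat_lit 320) .nil)))))) (.g (nat_lit 4) .nil .nil))))) (.nd (nat_lit 5) (.nd (nat_lit 6) 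
(.lf (nat_lit 32656) (.g (nat_lit 500) (.e (nat_lit 1201) (nat_lit 88) (.e (nat_lit 65629) (nat_lit 14) (.e (nat_lit 401459) (nat_lit 13) .nil))) .nil)) 
(.lf (nat_lit 32720) (.g (nat_lit 2228) (.e (nat_lit 1201) (nat_lit 88) (.e (nat_lit 65630) (nat_lit 14) (.e (nat_lit 401437) (nat_lit 9) (.e (nat_lit 426533) (nat_lit 28) (.e (nat_lit 344086) (nat_lit 17) (.e (nat_lit 229484) (nat_lit 61) (.e (nat_lit 5815) (nat_lit 320) .nil))))))) (.g (nat_lit 5) .nil .nil)))) (.nd (nat_lit 6) 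
(.lf (nat_lit 32688) (.g (nat_lit 2780) (.e (nat_lit 1201) (nat_lit 88) (.e (nat_lit 65629) (nat_lit 14) (.e (nat_lit 401459) (nat_lit 13) (.e (nat_lit 483389) (nat_lit 23) (.e (nat_lit 336032) (nat_lit 4) .nil))))) .nil)) 
(.lf (nat_lit 32752) (.g (nat_lit 2065) (.e (nat_lit 1201) (nat_lit 88) (.e (nat_lit 65630) (nat_lit 14) (.e (nat_lit 401438) (nat_lit 9) (.e (nat_lit 426546) (nat_lit 30) (.e (nat_lit 360456) (nat_lit 0) (.e (nat_lit 5817) (nat_lit 320) .nil)))))) (.g (nat_lit 4) .nil .nil)))))) (.nd (nat_lit 4) (.nd (nat_lit 5) (.nd (nat_lit 6) 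
(.lf (nat_lit 32648) (.g (nat_lit 2795) (.e (nat_lit 1201) (nat_lit 88) (.e (nat_lit 65628) (nat_lit 14) (.e (nat_lit 401459) (nat_lit 13) (.e (nat_lit 483396) (nat_lit 24) (.e (nat_lit 344104) (nat_lit 18) .nil))))) .nil)) 
(.lf (nat_lit 32712) (.g (nat_lit 2000) (.e (nat_lit 1201) (nat_lit 88) (.e (nat_lit 65630) (nat_lit 14) (.e (nat_lit 401436) (nat_lit 9) (.e (nat_lit 426544) (nat_lit 30) (.e (nat_lit 360455) (nat_lit 0) (.e (nat_lit 5813) (nat_lit 320) .nil)))))) (.g (nat_lit 4) .nil .nil)))) (.nd (nat_lit 6) 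
(.lf (nat_lit 32680) (.g (nat_lit 2098) (.e (nat_lit 1201) (nat_lit 88) (.e (nat_lit 65629) (nat_lit 14) (.e (nat_lit 401459) (nat_lit 13) (.e (nat_lit 483379) (nat_lit 23) .nil)))) .nil)) 
(.lf (nat_lit 32744) (.g (nat_lit 1797) (.e (nat_lit 1201) (nat_lit 88) (.e (nat_lit 65630) (nat_lit 14) (.e (nat_lit 401438) (nat_lit 9) (.e (nat_lit 426542) (nat_lit 29) (.e (nat_lit 352317) (nat_lit 24) (.e (nat_lit 123185) (nat_lit 264) .nil)))))) (.g (nat_lit 4) .nil .nil))))) (.nd (nat_lit 5) (.nd (nat_lit 6) 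
(.lf (nat_lit 32664) (.g (nat_lit 4395) (.e (nat_lit 1201) (nat_lit 88) (.e (nat_lit 65629) (nat_lit 14) (.e (nat_lit 401459) (nat_lit 13) (.e (nat_lit 483350) (nat_lit 17) (.e (nat_lit 6097) (nat_lit 332) .nil))))) .nil)) 
(.lf (nat_lit 32728) (.g (nat_lit 3671) (.e (nat_lit 1201) (nat_lit 88) (.e (nat_lit 65630) (nat_lit 14) (.e (nat_lit 401437) (nat_lit 9) (.e (nat_lit 426542) (nat_lit 29) (.e (nat_lit 352318) (nat_lit 24) (.e (nat_lit 123183) (nat_lit 264) .nil)))))) (.g (nat_lit 6) .nil .nil)))) (.nd (nat_lit 6) 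
(.lf (nat_lit 32696) (.g (nat_lit 3486) (.e (nat_lit 1201) (nat_lit 88) (.e (nat_lit 65630) (nat_lit 14) (.e (nat_lit 401425) (nat_lit 2) (.e (nat_lit 196666) (nat_lit 13) (.e (nat_lit 65617) (nat_lit 10) (.e (nat_lit 344087) (nat_lit 18) (.e (nat_lit 3915) (nat_lit 239) .nil))))))) (.g (nat_lit 4) .nil .nil))) 
(.lf (nat_lit 32760) (.g (nat_lit 1725) (.e (nat_lit 1201) (nat_lit 88) (.e (nat_lit 65630) (nat_lit 14) (.e (nat_lit 401457) (nat_lit 13) (.e (nat_lit 483346) (nat_lit 17) .nil)))) .nil)))))) (.nd (nat_lit 3) (.nd (nat_lit 4) (.nd (nat_lit 5) (.nd (nat_lit 6) 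
(.lf (nat_lit 32644) (.g (nat_lit 2096) (.e (nat_lit 1201) (nat_lit 88) (.e (nat_lit 65628) (nat_lit 14) (.e (nat_lit 401459) (nat_lit 13) (.e (nat_lit 483394) (nat_lit 24) (.e (nat_lit 344104) (nat_lit 18) .nil))))) .nil)) 
(.lf (nat_lit 32708) (.g (nat_lit 2406) (.e (nat_lit 1201) (nat_lit 88) (.e (nat_lit 65630) (nat_lit 14) (.e (nat_lit 401436) (nat_lit 9) (.e (nat_lit 426542) (nat_lit 29) (.e (nat_lit 352317) (nat_lit 24) (.e (nat_lit 123183) (nat_lit 264) .nil)))))) (.g (nat_lit 5) .nil .nil)))) (.nd (nat_lit 6) 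
(.lf (nat_lit 32676) (.g (nat_lit 3666) (.e (nat_lit 1201) (nat_lit 88) (.e (nat_lit 65629) (nat_lit 14) (.e (nat_lit 401459) (nat_lit 13) (.e (nat_lit 483375) (nat_lit 22) (.e (nat_lit 327692) (nat_lit 1) (.e (nat_lit 8431) (nat_lit 138) .nil)))))) (.g (nat_lit 4) .nil .nil))) 
(.lf (nat_lit 32740) (.g (nat_lit 2281) (.e (nat_lit 1201) (nat_lit 88) (.e (nat_lit 65630) (nat_lit 14) (.e (nat_lit 401438) (nat_lit 9) (.e (nat_lit 426538) (nat_lit 29) (.e (nat_lit 352318) (nat_lit 24) (.e (nat_lit 123183) (nat_lit 264) .nil)))))) (.g (nat_lit 4) .nil .nil))))) (.nd (nat_lit 5) (.nd (nat_lit 6) 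
(.lf (nat_lit 32660) (.g (nat_lit 3193) (.e (nat_lit 1201) (nat_lit 88) (.e (nat_lit 65629) (nat_lit 14) (.e (nat_lit 401459) (nat_lit 13) (.e (nat_lit 483344) (nat_lit 17) (.e (nat_lit 6440) (nat_lit 343) (.e (nat_lit 1288) (nat_lit 95) (.e (nat_lit 123182) (nat_lit 264) .nil))))))) (.g (nat_lit 4) .nil .nil))) 
(.lf (nat_lit 32724) (.g (nat_lit 3547) (.e (nat_lit 1201) (nat_lit 88) (.e (nat_lit 65630) (nat_lit 14) (.e (nat_lit 401437) (nat_lit 9) (.e (nat_lit 426542) (nat_lit 29) (.e (nat_lit 352316) (nat_lit 24) (.e (nat_lit 123183) (nat_lit 264) .nil)))))) (.g (nat_lit 6) .nil .nil)))) (.nd (nat_lit 6) 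
(.lf (nat_lit 32692) (.g (nat_lit 2172) (.e (nat_lit 1201) (nat_lit 88) (.e (nat_lit 65629) (nat_lit 14) (.e (nat_lit 401459) (nat_lit 13) (.e (nat_lit 491264) (nat_lit 23) .nil)))) .nil)) 
(.lf (nat_lit 32756) (.g (nat_lit 1673) (.e (nat_lit 1201) (nat_lit 88) (.e (nat_lit 65630) (nat_lit 14) (.e (nat_lit 401454) (nat_lit 12) (.e (nat_lit 483072) (nat_lit 13) .nil)))) .nil))))) (.nd (nat_lit 4) (.nd (nat_lit 5) (.nd (nat_lit 6) 
(.lf (nat_lit 32652) (.g (nat_lit 3002) (.e (nat_lit 1201) (nat_lit 88) (.e (nat_lit 65628) (nat_lit 14) (.e (nat_lit 401459) (nat_lit 13) (.e (nat_lit 483400) (nat_lit 25) (.e (nat_lit 368664) (nat_lit 18) (.e (nat_lit 5817) (nat_lit 320) .nil)))))) (.g (nat_lit 5) .nil .nil))) 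
(.lf (nat_lit 32716) (.g (nat_lit 2558) (.e (nat_lit 1201) (nat_lit 88) (.e (nat_lit 65630) (nat_lit 14) (.e (nat_lit 401436) (nat_lit 9) (.e (nat_lit 426555) (nat_lit 32) (.e (nat_lit 376870) (nat_lit 24) (.e (nat_lit 123184) (nat_lit 264) .nil)))))) (.g (nat_lit 4) .nil .nil)))) (.nd (nat_lit 6) 
(.lf (nat_lit 32684) (.g (nat_lit 2463) (.e (nat_lit 1201) (nat_lit 88) (.e (nat_lit 65629) (nat_lit 14) (.e (nat_lit 401459) (nat_lit 13) (.e (nat_lit 483387) (nat_lit 23) .nil)))) .nil)) 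
(.lf (nat_lit 32748) (.g (nat_lit 2222) (.e (nat_lit 1201) (nat_lit 88) (.e (nat_lit 65630) (nat_lit 14) (.e (nat_lit 401438) (nat_lit 9) (.e (nat_lit 426544) (nat_lit 30) (.e (nat_lit 360455) (nat_lit 0) (.e (nat_lit 5813) (nat_lit 320) .nil)))))) (.g (nat_lit 4) .nil .nil))))) (.nd (nat_lit 5) (.nd (nat_lit 6) 
(.lf (nat_lit 32668) (.g (nat_lit 4854) (.e (nat_lit 1201) (nat_lit 88) (.e (nat_lit 65629) (nat_lit 14) (.e (nat_lit 401459) (nat_lit 13) (.e (nat_lit 483350) (nat_lit 17) (.e (nat_lit 6113) (nat_lit 332) (.e (nat_lit 2538) (nat_lit 158) (.e (nat_lit 8433) (nat_lit 138) .nil))))))) (.g (nat_lit 4) .nil .nil))) 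
(.lf (nat_lit 32732) (.g (nat_lit 2954) (.e (nat_lit 1201) (nat_lit 88) (.e (nat_lit 65630) (nat_lit 14) (.e (nat_lit 401437) (nat_lit 9) (.e (nat_lit 426544) (nat_lit 30) (.e (nat_lit 360456) (nat_lit 0) (.e (nat_lit 5818) (nat_lit 320) .nil)))))) (.g (nat_lit 5) .nil .nil)))) (.nd (nat_lit 6) 
(.lf (nat_lit 32700) (.g (nat_lit 3398) (.e (nat_lit 1201) (nat_lit 88) (.e (nat_lit 65630) (nat_lit 14) (.e (nat_lit 401428) (nat_lit 3) (.e (nat_lit 204869) (nat_lit 29) (.e (nat_lit 360448) (nat_lit 0) (.e (nat_lit 3922) (nat_lit 239) .nil)))))) (.g (nat_lit 4) .nil .nil))) 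
(.lf (nat_lit 32764) (.g (nat_lit 3240) (.e (nat_lit 1201) (nat_lit 88) (.e (nat_lit 65630) (nat_lit 14) (.e (nat_lit 401457) (nat_lit 13) (.e (nat_lit 483346) (nat_lit 17) (.e (nat_lit 6434) (nat_lit 343) (.e (nat_lit 1288) (nat_lit 95) (.e (nat_lit 123182) (nat_lit 264) .nil))))))) (.g (nat_lit 4) .nil .nil)))))))) 
(.nd (nat_lit 2) (.nd (nat_lit 3) (.nd (nat_lit 4) (.nd (nat_lit 5) (.nd (nat_lit 6) 
(.lf (nat_lit 32642) (.g (nat_lit 3116) (.e (nat_lit 1201) (nat_lit 88) (.e (nat_lit 65628) (nat_lit 14) (.e (nat_lit 401459) (nat_lit 13) (.e (nat_lit 483393) (nat_lit 23) (.e (nat_lit 336033) (nat_lit 4) (.e (nat_lit 123182) (nat_lit 264) .nil)))))) (.g (nat_lit 4) .nil .nil))) 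
(.lf (nat_lit 32706) (.g (nat_lit 3063) (.e (nat_lit 1201) (nat_lit 88) (.e (nat_lit 65630) (nat_lit 14) (.e (nat_lit 401436) (nat_lit 9) (.e (nat_lit 426542) (nat_lit 29) (.e (nat_lit 352316) (nat_lit 24) (.e (nat_lit 123183) (nat_lit 264) .nil)))))) (.g (nat_lit 6) .nil .nil)))) (.nd (nat_lit 6) 
(.lf (nat_lit 32674) (.g (nat_lit 2405) (.e (nat_lit 1201) (nat_lit 88) (.e (nat_lit 65629) (nat_lit 14) (.e (nat_lit 401459) (nat_lit 13) (.e (nat_lit 483374) (nat_lit 22) .nil)))) .nil)) 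
(.lf (nat_lit 32738) (.g (nat_lit 2531) (.e (nat_lit 1201) (nat_lit 88) (.e (nat_lit 65630) (nat_lit 14) (.e (nat_lit 401437) (nat_lit 9) (.e (nat_lit 426555) (nat_lit 32) (.e (nat_lit 376870) (nat_lit 24) (.e (nat_lit 123184) (nat_lit 264) .nil)))))) (.g (nat_lit 4) .nil .nil))))) (.nd (nat_lit 5) (.nd (nat_lit 6) 
(.lf (nat_lit 32658) (.g (nat_lit 1820) (.e (nat_lit 1201) (nat_lit 88) (.e (nat_lit 65629) (nat_lit 14) (.e (nat_lit 401459) (nat_lit 13) (.e (nat_lit 483344) (nat_lit 17) .nil)))) .nil)) 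
(.lf (nat_lit 32722) (.g (nat_lit 2581) (.e (nat_lit 1201) (nat_lit 88) (.e (nat_lit 65630) (nat_lit 14) (.e (nat_lit 401437) (nat_lit 9) (.e (nat_lit 426538) (nat_lit 29) (.e (nat_lit 352318) (nat_lit 24) (.e (nat_lit 123185) (nat_lit 264) .nil)))))) (.g (nat_lit 5) .nil .nil)))) (.nd (nat_lit 6) 
(.lf (nat_lit 32690) (.g (nat_lit 3103) (.e (nat_lit 1201) (nat_lit 88) (.e (nat_lit 65629) (nat_lit 14) (.e (nat_lit 401459) (nat_lit 13) (.e (nat_lit 483392) (nat_lit 23) .nil)))) .nil)) 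
(.lf (nat_lit 32754) (.g (nat_lit 2676) (.e (nat_lit 1201) (nat_lit 88) (.e (nat_lit 65630) (nat_lit 14) (.e (nat_lit 401438) (nat_lit 9) (.e (nat_lit 426555) (nat_lit 32) (.e (nat_lit 376870) (nat_lit 24) .nil))))) .nil))))) (.nd (nat_lit 4) (.nd (nat_lit 5) (.nd (nat_lit 6) 
(.lf (nat_lit 32650) (.g (nat_lit 1735) (.e (nat_lit 1201) (nat_lit 88) (.e (nat_lit 65628) (nat_lit 14) (.e (nat_lit 401459) (nat_lit 13) (.e (nat_lit 483398) (nat_lit 25) .nil)))) .nil)) 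
(.lf (nat_lit 32714) (.g (nat_lit 2924) (.e (nat_lit 1201) (nat_lit 88) (.e (nat_lit 65630) (nat_lit 14) (.e (nat_lit 401436) (nat_lit 9) (.e (nat_lit 426544) (nat_lit 30) (.e (nat_lit 360457) (nat_lit 0) (.e (nat_lit 5818) (nat_lit 320) .nil)))))) (.g (nat_lit 0) .nil .nil)))) (.nd (nat_lit 6) 
(.lf (nat_lit 32682) (.g (nat_lit 3170) (.e (nat_lit 1201) (nat_lit 88) (.e (nat_lit 65629) (nat_lit 14) (.e (nat_lit 401459) (nat_lit 13) (.e (nat_lit 483380) (nat_lit 23) (.e (nat_lit 336036) (nat_lit 4) .nil))))) .nil)) 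
(.lf (nat_lit 32746) (.g (nat_lit 3550) (.e (nat_lit 1201) (nat_lit 88) (.e (nat_lit 65630) (nat_lit 14) (.e (nat_lit 401438) (nat_lit 9) (.e (nat_lit 426542) (nat_lit 29) (.e (nat_lit 352318) (nat_lit 24) (.e (nat_lit 123184) (nat_lit 264) .nil)))))) (.g (nat_lit 0) .nil .nil))))) (.nd (nat_lit 5) (.nd (nat_lit 6) 
(.lf (nat_lit 32666) (.g (nat_lit 4104) (.e (nat_lit 1201) (nat_lit 88) (.e (nat_lit 65629) (nat_lit 14) (.e (nat_lit 401459) (nat_lit 13) (.e (nat_lit 483350) (nat_lit 17) (.e (nat_lit 6113) (nat_lit 332) .nil))))) .nil)) 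
(.lf (nat_lit 32730) (.g (nat_lit 3578) (.e (nat_lit 1201) (nat_lit 88) (.e (nat_lit 65630) (nat_lit 14) (.e (nat_lit 401437) (nat_lit 9) (.e (nat_lit 426542) (nat_lit 29) (.e (nat_lit 352318) (nat_lit 24) (.e (nat_lit 123185) (nat_lit 264) .nil)))))) (.g (nat_lit 0) .nil .nil)))) (.nd (nat_lit 6) 
(.lf (nat_lit 32698) (.g (nat_lit 2465) (.e (nat_lit 1201) (nat_lit 88) (.e (nat_lit 65630) (nat_lit 14) (.e (nat_lit 401425) (nat_lit 2) (.e (nat_lit 196674) (nat_lit 15) .nil)))) .nil)) 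
(.lf (nat_lit 32762) (.g (nat_lit 3564) (.e (nat_lit 1201) (nat_lit 88) (.e (nat_lit 65630) (nat_lit 14) (.e (nat_lit 401457) (nat_lit 13) (.e (nat_lit 483346) (nat_lit 17) (.e (nat_lit 6203) (nat_lit 332) (.e (nat_lit 2540) (nat_lit 158) (.e (nat_lit 8432) (nat_lit 138) .nil))))))) (.g (nat_lit 4) .nil .nil))))))) (.nd (nat_lit 3) (.nd (nat_lit 4) (.nd (nat_lit 5) (.nd (nat_lit 6) 
(.lf (nat_lit 32646) (.g (nat_lit 1871) (.e (nat_lit 1201) (nat_lit 88) (.e (nat_lit 65628) (nat_lit 14) (.e (nat_lit 401459) (nat_lit 13) (.e (nat_lit 483395) (nat_lit 24) (.e (nat_lit 344103) (nat_lit 18) .nil))))) .nil)) 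
(.lf (nat_lit 32710) (.g (nat_lit 3338) (.e (nat_lit 1201) (nat_lit 88) (.e (nat_lit 65630) (nat_lit 14) (.e (nat_lit 401436) (nat_lit 9) (.e (nat_lit 426542) (nat_lit 29) (.e (nat_lit 352318) (nat_lit 24) (.e (nat_lit 123184) (nat_lit 264) .nil)))))) (.g (nat_lit 0) .nil .nil)))) (.nd (nat_lit 6) 
(.lf (nat_lit 32678) (.g (nat_lit 4045) (.e (nat_lit 1201) (nat_lit 88) (.e (nat_lit 65629) (nat_lit 14) (.e (nat_lit 401459) (nat_lit 13) (.e (nat_lit 483375) (nat_lit 22) (.e (nat_lit 327692) (nat_lit 1) (.e (nat_lit 8433) (nat_lit 138) .nil)))))) (.g (nat_lit 4) .nil .nil))) 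
(.lf (nat_lit 32742) (.g (nat_lit 3398) (.e (nat_lit 1201) (nat_lit 88) (.e (nat_lit 65630) (nat_lit 14) (.e (nat_lit 401438) (nat_lit 9) (.e (nat_lit 426542) (nat_lit 29) (.e (nat_lit 352316) (nat_lit 24) (.e (nat_lit 123184) (nat_lit 264) .nil)))))) (.g (nat_lit 0) .nil .nil))))) (.nd (nat_lit 5) (.nd (nat_lit 6) 
(.lf (nat_lit 32662) (.g (nat_lit 2726) (.e (nat_lit 1201) (nat_lit 88) (.e (nat_lit 65629) (nat_lit 14) (.e (nat_lit 401459) (nat_lit 13) (.e (nat_lit 483347) (nat_lit 17) (.e (nat_lit 7936) (nat_lit 343) .nil))))) .nil)) 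
(.lf (nat_lit 32726) (.g (nat_lit 3560) (.e (nat_lit 1201) (nat_lit 88) (.e (nat_lit 65630) (nat_lit 14) (.e (nat_lit 401437) (nat_lit 9) (.e (nat_lit 426542) (nat_lit 29) (.e (nat_lit 352316) (nat_lit 24) (.e (nat_lit 123185) (nat_lit 264) .nil)))))) (.g (nat_lit 0) .nil .nil)))) (.nd (nat_lit 6) 
(.lf (nat_lit 32694) (.g (nat_lit 3281) (.e (nat_lit 1201) (nat_lit 88) (.e (nat_lit 65629) (nat_lit 14) (.e (nat_lit 401459) (nat_lit 13) (.e (nat_lit 483411) (nat_lit 27) (.e (nat_lit 401414) (nat_lit 0) .nil))))) .nil)) 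
(.lf (nat_lit 32758) (.g (nat_lit 1944) (.e (nat_lit 1201) (nat_lit 88) (.e (nat_lit 65630) (nat_lit 14) (.e (nat_lit 401456) (nat_lit 13) (.e (nat_lit 483386) (nat_lit 23) .nil)))) .nil))))) (.nd (nat_lit 4) (.nd (nat_lit 5) (.nd (nat_lit 6) 
(.lf (nat_lit 32654) (.g (nat_lit 2692) (.e (nat_lit 1201) (nat_lit 88) (.e (nat_lit 65628) (nat_lit 14) (.e (nat_lit 401459) (nat_lit 13) (.e (nat_lit 483411) (nat_lit 27) (.e (nat_lit 401414) (nat_lit 0) (.e (nat_lit 2425) (nat_lit 157) (.e (nat_lit 4549) (nat_lit 269) .nil))))))) (.g (nat_lit 4) .nil .nil))) 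
(.lf (nat_lit 32718) (.g (nat_lit 2424) (.e (nat_lit 1201) (nat_lit 88) (.e (nat_lit 65630) (nat_lit 14) (.e (nat_lit 401437) (nat_lit 9) (.e (nat_lit 426482) (nat_lit 27) (.e (nat_lit 336096) (nat_lit 9) .nil))))) .nil))) (.nd (nat_lit 6) 
(.lf (nat_lit 32686) (.g (nat_lit 2788) (.e (nat_lit 1201) (nat_lit 88) (.e (nat_lit 65629) (nat_lit 14) (.e (nat_lit 401459) (nat_lit 13) (.e (nat_lit 483388) (nat_lit 23) .nil)))) .nil)) 
(.lf (nat_lit 32750) (.g (nat_lit 2118) (.e (nat_lit 1201) (nat_lit 88) (.e (nat_lit 65630) (nat_lit 14) (.e (nat_lit 401438) (nat_lit 9) (.e (nat_lit 426544) (nat_lit 30) (.e (nat_lit 360457) (nat_lit 0) (.e (nat_lit 5817) (nat_lit 320) .nil)))))) (.g (nat_lit 4) .nil .nil))))) (.nd (nat_lit 5) (.nd (nat_lit 6) 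
(.lf (nat_lit 32670) (.g (nat_lit 2586) (.e (nat_lit 1201) (nat_lit 88) (.e (nat_lit 65629) (nat_lit 14) (.e (nat_lit 401459) (nat_lit 13) (.e (nat_lit 483354) (nat_lit 17) .nil)))) .nil)) 
(.lf (nat_lit 32734) (.g (nat_lit 2408) (.e (nat_lit 1201) (nat_lit 88) (.e (nat_lit 65630) (nat_lit 14) (.e (nat_lit 401437) (nat_lit 9) (.e (nat_lit 426544) (nat_lit 30) (.e (nat_lit 360457) (nat_lit 0) (.e (nat_lit 5817) (nat_lit 320) .nil)))))) (.g (nat_lit 4) .nil .nil)))) (.nd (nat_lit 6) 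
(.lf (nat_lit 32702) (.g (nat_lit 1834) (.e (nat_lit 1201) (nat_lit 88) (.e (nat_lit 65630) (nat_lit 14) (.e (nat_lit 401435) (nat_lit 9) (.e (nat_lit 426538) (nat_lit 29) .nil)))) .nil)) 
(.lf (nat_lit 32766) (.g (nat_lit 1794) (.e (nat_lit 1201) (nat_lit 88) (.e (nat_lit 65630) (nat_lit 14) (.e (nat_lit 401457) (nat_lit 13) (.e (nat_lit 483378) (nat_lit 23) (.e (nat_lit 336032) (nat_lit 4) .nil))))) .nil)))))))) (.nd (nat_lit 1) (.nd (nat_lit 2) (.nd (nat_lit 3) (.nd (nat_lit 4) (.nd (nat_lit 5) (.nd (nat_lit 6) 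
(.lf (nat_lit 32641) (.g (nat_lit 2054) (.e (nat_lit 1201) (nat_lit 88) (.e (nat_lit 65628) (nat_lit 14) (.e (nat_lit 401459) (nat_lit 13) (.e (nat_lit 483393) (nat_lit 23) .nil)))) .nil)) 
(.lf (nat_lit 32705) (.g (nat_lit 1501) (.e (nat_lit 1201) (nat_lit 88) (.e (nat_lit 65630) (nat_lit 14) (.e (nat_lit 401435) (nat_lit 9) (.e (nat_lit 426546) (nat_lit 30) .nil)))) .nil))) (.nd (nat_lit 6) 
(.lf (nat_lit 32673) (.g (nat_lit 5139) (.e (nat_lit 1201) (nat_lit 88) (.e (nat_lit 65629) (nat_lit 14) (.e (nat_lit 401459) (nat_lit 13) (.e (nat_lit 483372) (nat_lit 21) (.e (nat_lit 327424) (nat_lit 1) .nil))))) .nil)) 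
(.lf (nat_lit 32737) (.g (nat_lit 1620) (.e (nat_lit 1201) (nat_lit 88) (.e (nat_lit 65630) (nat_lit 14) (.e (nat_lit 401437) (nat_lit 9) (.e (nat_lit 426553) (nat_lit 32) .nil)))) .nil)))) (.nd (nat_lit 5) (.nd (nat_lit 6) 
(.lf (nat_lit 32657) (.g (nat_lit 2074) (.e (nat_lit 1201) (nat_lit 88) (.e (nat_lit 65629) (nat_lit 14) (.e (nat_lit 401459) (nat_lit 13) (.e (nat_lit 483343) (nat_lit 17) .nil)))) .nil)) 
(.lf (nat_lit 32721) (.g (nat_lit 3566) (.e (nat_lit 1201) (nat_lit 88) (.e (nat_lit 65630) (nat_lit 14) (.e (nat_lit 401437) (nat_lit 9) (.e (nat_lit 426538) (nat_lit 29) (.e (nat_lit 352318) (nat_lit 24) (.e (nat_lit 123184) (nat_lit 264) .nil)))))) (.g (nat_lit 0) .nil .nil)))) (.nd (nat_lit 6) 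
(.lf (nat_lit 32689) (.g (nat_lit 2816) (.e (nat_lit 1201) (nat_lit 88) (.e (nat_lit 65629) (nat_lit 14) (.e (nat_lit 401459) (nat_lit 13) (.e (nat_lit 483391) (nat_lit 23) .nil)))) .nil)) 
(.lf (nat_lit 32753) (.g (nat_lit 1480) (.e (nat_lit 1201) (nat_lit 88) (.e (nat_lit 65630) (nat_lit 14) (.e (nat_lit 401438) (nat_lit 9) (.e (nat_lit 426553) (nat_lit 32) .nil)))) .nil))))) (.nd (nat_lit 4) (.nd (nat_lit 5) (.nd (nat_lit 6) 
(.lf (nat_lit 32649) (.g (nat_lit 2307) (.e (nat_lit 1201) (nat_lit 88) (.e (nat_lit 65628) (nat_lit 14) (.e (nat_lit 401459) (nat_lit 13) (.e (nat_lit 483397) (nat_lit 25) .nil)))) .nil)) 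
(.lf (nat_lit 32713) (.g (nat_lit 2115) (.e (nat_lit 1201) (nat_lit 88) (.e (nat_lit 65630) (nat_lit 14) (.e (nat_lit 401436) (nat_lit 9) (.e (nat_lit 426544) (nat_lit 30) (.e (nat_lit 360456) (nat_lit 0) (.e (nat_lit 5818) (nat_lit 320) .nil)))))) (.g (nat_lit 4) .nil .nil)))) (.nd (nat_lit 6) 
(.lf (nat_lit 32681) (.g (nat_lit 1984) (.e (nat_lit 1201) (nat_lit 88) (.e (nat_lit 65629) (nat_lit 14) (.e (nat_lit 401459) (nat_lit 13) (.e (nat_lit 483380) (nat_lit 23) .nil)))) .nil)) 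
(.lf (nat_lit 32745) (.g (nat_lit 3421) (.e (nat_lit 1201) (nat_lit 88) (.e (nat_lit 65630) (nat_lit 14) (.e (nat_lit 401438) (nat_lit 9) (.e (nat_lit 426542) (nat_lit 29) (.e (nat_lit 352318) (nat_lit 24) (.e (nat_lit 123183) (nat_lit 264) .nil)))))) (.g (nat_lit 6) .nil .nil))))) (.nd (nat_lit 5) (.nd (nat_lit 6) 
(.lf (nat_lit 32665) (.g (nat_lit 4425) (.e (nat_lit 1201) (nat_lit 88) (.e (nat_lit 65629) (nat_lit 14) (.e (nat_lit 401459) (nat_lit 13) (.e (nat_lit 483350) (nat_lit 17) (.e (nat_lit 6097) (nat_lit 332) (.e (nat_lit 2538) (nat_lit 158) (.e (nat_lit 8433) (nat_lit 138) .nil))))))) (.g (nat_lit 4) .nil .nil))) 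
(.lf (nat_lit 32729) (.g (nat_lit 3804) (.e (nat_lit 1201) (nat_lit 88) (.e (nat_lit 65630) (nat_lit 14) (.e (nat_lit 401437) (nat_lit 9) (.e (nat_lit 426542) (nat_lit 29) (.e (nat_lit 352318) (nat_lit 24) (.e (nat_lit 123184) (nat_lit 264) .nil)))))) (.g (nat_lit 0) .nil .nil)))) (.nd (nat_lit 6) 
(.lf (nat_lit 32697) (.g (nat_lit 3237) (.e (nat_lit 1201) (nat_lit 88) (.e (nat_lit 65630) (nat_lit 14) (.e (nat_lit 401425) (nat_lit 2) (.e (nat_lit 196666) (nat_lit 13) (.e (nat_lit 65617) (nat_lit 10) (.e (nat_lit 344088) (nat_lit 18) (.e (nat_lit 3922) (nat_lit 239) .nil))))))) (.g (nat_lit 4) .nil .nil))) 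
(.lf (nat_lit 32761) (.g (nat_lit 2866) (.e (nat_lit 1201) (nat_lit 88) (.e (nat_lit 65630) (nat_lit 14) (.e (nat_lit 401457) (nat_lit 13) (.e (nat_lit 483346) (nat_lit 17) (.e (nat_lit 6203) (nat_lit 332) .nil))))) .nil)))))) (.nd (nat_lit 3) (.nd (nat_lit 4) (.nd (nat_lit 5) (.nd (nat_lit 6) 
(.lf (nat_lit 32645) (.g (nat_lit 2647) (.e (nat_lit 1201) (nat_lit 88) (.e (nat_lit 65628) (nat_lit 14) (.e (nat_lit 401459) (nat_lit 13) (.e (nat_lit 483394) (nat_lit 24) (.e (nat_lit 344104) (nat_lit 18) (.e (nat_lit 5818) (nat_lit 320) .nil)))))) (.g (nat_lit 5) .nil .nil))) 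
(.lf (nat_lit 32709) (.g (nat_lit 3211) (.e (nat_lit 1201) (nat_lit 88) (.e (nat_lit 65630) (nat_lit 14) (.e (nat_lit 401436) (nat_lit 9) (.e (nat_lit 426542) (nat_lit 29) (.e (nat_lit 352318) (nat_lit 24) (.e (nat_lit 123183) (nat_lit 264) .nil)))))) (.g (nat_lit 6) .nil .nil)))) (.nd (nat_lit 6) 
(.lf (nat_lit 32677) (.g (nat_lit 3948) (.e (nat_lit 1201) (nat_lit 88) (.e (nat_lit 65629) (nat_lit 14) (.e (nat_lit 401459) (nat_lit 13) (.e (nat_lit 483375) (nat_lit 22) (.e (nat_lit 327692) (nat_lit 1) (.e (nat_lit 8432) (nat_lit 138) .nil)))))) (.g (nat_lit 4) .nil .nil))) 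
(.lf (nat_lit 32741) (.g (nat_lit 3347) (.e (nat_lit 1201) (nat_lit 88) (.e (nat_lit 65630) (nat_lit 14) (.e (nat_lit 401438) (nat_lit 9) (.e (nat_lit 426542) (nat_lit 29) (.e (nat_lit 352316) (nat_lit 24) (.e (nat_lit 123183) (nat_lit 264) .nil)))))) (.g (nat_lit 6) .nil .nil))))) (.nd (nat_lit 5) (.nd (nat_lit 6) 
(.lf (nat_lit 32661) (.g (nat_lit 2461) (.e (nat_lit 1201) (nat_lit 88) (.e (nat_lit 65629) (nat_lit 14) (.e (nat_lit 401459) (nat_lit 13) (.e (nat_lit 483347) (nat_lit 17) .nil)))) .nil)) 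
(.lf (nat_lit 32725) (.g (nat_lit 3602) (.e (nat_lit 1201) (nat_lit 88) (.e (nat_lit 65630) (nat_lit 14) (.e (nat_lit 401437) (nat_lit 9) (.e (nat_lit 426542) (nat_lit 29) (.e (nat_lit 352316) (nat_lit 24) (.e (nat_lit 123184) (nat_lit 264) .nil)))))) (.g (nat_lit 0) .nil .nil)))) (.nd (nat_lit 6) 
(.lf (nat_lit 32693) (.g (nat_lit 2375) (.e (nat_lit 1201) (nat_lit 88) (.e (nat_lit 65629) (nat_lit 14) (.e (nat_lit 401459) (nat_lit 13) (.e (nat_lit 483400) (nat_lit 25) .nil)))) .nil)) 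
(.lf (nat_lit 32757) (.g (nat_lit 2770) (.e (nat_lit 1201) (nat_lit 88) (.e (nat_lit 65630) (nat_lit 14) (.e (nat_lit 401454) (nat_lit 12) (.e (nat_lit 475188) (nat_lit 33) .nil)))) .nil))))) (.nd (nat_lit 4) (.nd (nat_lit 5) (.nd (nat_lit 6) 
(.lf (nat_lit 32653) (.g (nat_lit 2468) (.e (nat_lit 1201) (nat_lit 88) (.e (nat_lit 65628) (nat_lit 14) (.e (nat_lit 401459) (nat_lit 13) (.e (nat_lit 483411) (nat_lit 27) (.e (nat_lit 401414) (nat_lit 0) (.e (nat_lit 2424) (nat_lit 157) (.e (nat_lit 4549) (nat_lit 269) .nil))))))) (.g (nat_lit 4) .nil .nil))) 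
(.lf (nat_lit 32717) (.g (nat_lit 2410) (.e (nat_lit 1201) (nat_lit 88) (.e (nat_lit 65630) (nat_lit 14) (.e (nat_lit 401436) (nat_lit 9) (.e (nat_lit 426555) (nat_lit 32) (.e (nat_lit 376870) (nat_lit 24) (.e (nat_lit 123185) (nat_lit 264) .nil)))))) (.g (nat_lit 4) .nil .nil)))) (.nd (nat_lit 6) 
(.lf (nat_lit 32685) (.g (nat_lit 3343) (.e (nat_lit 1201) (nat_lit 88) (.e (nat_lit 65629) (nat_lit 14) (.e (nat_lit 401459) (nat_lit 13) (.e (nat_lit 483387) (nat_lit 23) (.e (nat_lit 336032) (nat_lit 4) (.e (nat_lit 123182) (nat_lit 264) .nil)))))) (.g (nat_lit 4) .nil .nil))) 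
(.lf (nat_lit 32749) (.g (nat_lit 2290) (.e (nat_lit 1201) (nat_lit 88) (.e (nat_lit 65630) (nat_lit 14) (.e (nat_lit 401438) (nat_lit 9) (.e (nat_lit 426544) (nat_lit 30) (.e (nat_lit 360456) (nat_lit 0) (.e (nat_lit 5818) (nat_lit 320) .nil)))))) (.g (nat_lit 5) .nil .nil))))) (.nd (nat_lit 5) (.nd (nat_lit 6) 
(.lf (nat_lit 32669) (.g (nat_lit 4299) (.e (nat_lit 1201) (nat_lit 88) (.e (nat_lit 65629) (nat_lit 14) (.e (nat_lit 401459) (nat_lit 13) (.e (nat_lit 483350) (nat_lit 17) (.e (nat_lit 7936) (nat_lit 343) .nil))))) .nil)) 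
(.lf (nat_lit 32733) (.g (nat_lit 2185) (.e (nat_lit 1201) (nat_lit 88) (.e (nat_lit 65630) (nat_lit 14) (.e (nat_lit 401437) (nat_lit 9) (.e (nat_lit 426544) (nat_lit 30) (.e (nat_lit 360457) (nat_lit 0) (.e (nat_lit 5816) (nat_lit 320) .nil)))))) (.g (nat_lit 4) .nil .nil)))) (.nd (nat_lit 6) 
(.lf (nat_lit 32701) (.g (nat_lit 3107) (.e (nat_lit 1201) (nat_lit 88) (.e (nat_lit 65630) (nat_lit 14) (.e (nat_lit 401428) (nat_lit 3) (.e (nat_lit 204869) (nat_lit 29) (.e (nat_lit 368384) (nat_lit 0) (.e (nat_lit 3915) (nat_lit 239) .nil)))))) (.g (nat_lit 4) .nil .nil))) 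
(.lf (nat_lit 32765) (.g (nat_lit 1690) (.e (nat_lit 1201) (nat_lit 88) (.e (nat_lit 65630) (nat_lit 14) (.e (nat_lit 401457) (nat_lit 13) (.e (nat_lit 483377) (nat_lit 22) .nil)))) .nil))))))) (.nd (nat_lit 2) (.nd (nat_lit 3) (.nd (nat_lit 4) (.nd (nat_lit 5) (.nd (nat_lit 6) 
(.lf (nat_lit 32643) (.g (nat_lit 1166) (.e (nat_lit 1201) (nat_lit 88) (.e (nat_lit 65628) (nat_lit 14) (.e (nat_lit 401459) (nat_lit 13) (.e (nat_lit 483394) (nat_lit 24) .nil)))) .nil)) 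
(.lf (nat_lit 32707) (.g (nat_lit 3102) (.e (nat_lit 1201) (nat_lit 88) (.e (nat_lit 65630) (nat_lit 14) (.e (nat_lit 401436) (nat_lit 9) (.e (nat_lit 426542) (nat_lit 29) (.e (nat_lit 352316) (nat_lit 24) (.e (nat_lit 123184) (nat_lit 264) .nil)))))) (.g (nat_lit 0) .nil .nil)))) (.nd (nat_lit 6) 
(.lf (nat_lit 32675) (.g (nat_lit 2395) (.e (nat_lit 1201) (nat_lit 88) (.e (nat_lit 65629) (nat_lit 14) (.e (nat_lit 401459) (nat_lit 13) (.e (nat_lit 483375) (nat_lit 22) .nil)))) .nil)) 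
(.lf (nat_lit 32739) (.g (nat_lit 2322) (.e (nat_lit 1201) (nat_lit 88) (.e (nat_lit 65630) (nat_lit 14) (.e (nat_lit 401437) (nat_lit 9) (.e (nat_lit 426555) (nat_lit 32) (.e (nat_lit 376870) (nat_lit 24) (.e (nat_lit 123185) (nat_lit 264) .nil)))))) (.g (nat_lit 4) .nil .nil))))) (.nd (nat_lit 5) (.nd (nat_lit 6) 
(.lf (nat_lit 32659) (.g (nat_lit 2868) (.e (nat_lit 1201) (nat_lit 88) (.e (nat_lit 65629) (nat_lit 14) (.e (nat_lit 401459) (nat_lit 13) (.e (nat_lit 483344) (nat_lit 17) (.e (nat_lit 6081) (nat_lit 332) .nil))))) .nil)) 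
(.lf (nat_lit 32723) (.g (nat_lit 2776) (.e (nat_lit 1201) (nat_lit 88) (.e (nat_lit 65630) (nat_lit 14) (.e (nat_lit 401437) (nat_lit 9) (.e (nat_lit 426540) (nat_lit 29) (.e (nat_lit 352316) (nat_lit 24) .nil))))) .nil))) (.nd (nat_lit 6) 
(.lf (nat_lit 32691) (.g (nat_lit 2597) (.e (nat_lit 1201) (nat_lit 88) (.e (nat_lit 65629) (nat_lit 14) (.e (nat_lit 401459) (nat_lit 13) (.e (nat_lit 483393) (nat_lit 23) .nil)))) .nil)) 
(.lf (nat_lit 32755) (.g (nat_lit 2837) (.e (nat_lit 1201) (nat_lit 88) (.e (nat_lit 65630) (nat_lit 14) (.e (nat_lit 401454) (nat_lit 12) (.e (nat_lit 475141) (nat_lit 8) .nil)))) .nil))))) (.nd (nat_lit 4) (.nd (nat_lit 5) (.nd (nat_lit 6) 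
(.lf (nat_lit 32651) (.g (nat_lit 1727) (.e (nat_lit 1201) (nat_lit 88) (.e (nat_lit 65628) (nat_lit 14) (.e (nat_lit 401459) (nat_lit 13) (.e (nat_lit 483400) (nat_lit 25) .nil)))) .nil)) 
(.lf (nat_lit 32715) (.g (nat_lit 2083) (.e (nat_lit 1201) (nat_lit 88) (.e (nat_lit 65630) (nat_lit 14) (.e (nat_lit 401436) (nat_lit 9) (.e (nat_lit 426546) (nat_lit 30) (.e (nat_lit 360455) (nat_lit 0) (.e (nat_lit 5813) (nat_lit 320) .nil)))))) (.g (nat_lit 4) .nil .nil)))) (.nd (nat_lit 6) 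
(.lf (nat_lit 32683) (.g (nat_lit 1993) (.e (nat_lit 1201) (nat_lit 88) (.e (nat_lit 65629) (nat_lit 14) (.e (nat_lit 401459) (nat_lit 13) (.e (nat_lit 483381) (nat_lit 23) .nil)))) .nil)) 
(.lf (nat_lit 32747) (.g (nat_lit 3335) (.e (nat_lit 1201) (nat_lit 88) (.e (nat_lit 65630) (nat_lit 14) (.e (nat_lit 401438) (nat_lit 9) (.e (nat_lit 426542) (nat_lit 29) (.e (nat_lit 352318) (nat_lit 24) (.e (nat_lit 123185) (nat_lit 264) .nil)))))) (.g (nat_lit 0) .nil .nil))))) (.nd (nat_lit 5) (.nd (nat_lit 6) 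
(.lf (nat_lit 32667) (.g (nat_lit 4460) (.e (nat_lit 1201) (nat_lit 88) (.e (nat_lit 65629) (nat_lit 14) (.e (nat_lit 401459) (nat_lit 13) (.e (nat_lit 483350) (nat_lit 17) (.e (nat_lit 6113) (nat_lit 332) (.e (nat_lit 2538) (nat_lit 158) (.e (nat_lit 8431) (nat_lit 138) .nil))))))) (.g (nat_lit 4) .nil .nil))) 
(.lf (nat_lit 32731) (.g (nat_lit 2295) (.e (nat_lit 1201) (nat_lit 88) (.e (nat_lit 65630) (nat_lit 14) (.e (nat_lit 401437) (nat_lit 9) (.e (nat_lit 426544) (nat_lit 30) (.e (nat_lit 360456) (nat_lit 0) (.e (nat_lit 5817) (nat_lit 320) .nil)))))) (.g (nat_lit 4) .nil .nil)))) (.nd (nat_lit 6) 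
(.lf (nat_lit 32699) (.g (nat_lit 4340) (.e (nat_lit 1201) (nat_lit 88) (.e (nat_lit 65630) (nat_lit 14) (.e (nat_lit 401428) (nat_lit 3) (.e (nat_lit 204869) (nat_lit 29) (.e (nat_lit 360448) (nat_lit 0) (.e (nat_lit 3915) (nat_lit 239) .nil)))))) (.g (nat_lit 5) .nil .nil))) 
(.lf (nat_lit 32763) (.g (nat_lit 3261) (.e (nat_lit 1201) (nat_lit 88) (.e (nat_lit 65630) (nat_lit 14) (.e (nat_lit 401457) (nat_lit 13) (.e (nat_lit 483346) (nat_lit 17) (.e (nat_lit 6203) (nat_lit 332) (.e (nat_lit 2540) (nat_lit 158) (.e (nat_lit 8433) (nat_lit 138) .nil))))))) (.g (nat_lit 4) .nil .nil))))))) (.nd (nat_lit 3) (.nd (nat_lit 4) (.nd (nat_lit 5) (.nd (nat_lit 6) 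
(.lf (nat_lit 32647) (.g (nat_lit 1915) (.e (nat_lit 1201) (nat_lit 88) (.e (nat_lit 65628) (nat_lit 14) (.e (nat_lit 401459) (nat_lit 13) (.e (nat_lit 483396) (nat_lit 24) .nil)))) .nil)) 
(.lf (nat_lit 32711) (.g (nat_lit 990) (.e (nat_lit 1201) (nat_lit 88) (.e (nat_lit 65630) (nat_lit 14) (.e (nat_lit 401436) (nat_lit 9) (.e (nat_lit 426543) (nat_lit 29) .nil)))) .nil))) (.nd (nat_lit 6) 
(.lf (nat_lit 32679) (.g (nat_lit 2102) (.e (nat_lit 1201) (nat_lit 88) (.e (nat_lit 65629) (nat_lit 14) (.e (nat_lit 401459) (nat_lit 13) (.e (nat_lit 483378) (nat_lit 23) .nil)))) .nil)) 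
(.lf (nat_lit 32743) (.g (nat_lit 3373) (.e (nat_lit 1201) (nat_lit 88) (.e (nat_lit 65630) (nat_lit 14) (.e (nat_lit 401438) (nat_lit 9) (.e (nat_lit 426542) (nat_lit 29) (.e (nat_lit 352316) (nat_lit 24) (.e (nat_lit 123185) (nat_lit 264) .nil)))))) (.g (nat_lit 0) .nil .nil))))) (.nd (nat_lit 5) (.nd (nat_lit 6) 
(.lf (nat_lit 32663) (.g (nat_lit 2931) (.e (nat_lit 1201) (nat_lit 88) (.e (nat_lit 65629) (nat_lit 14) (.e (nat_lit 401459) (nat_lit 13) (.e (nat_lit 483350) (nat_lit 17) .nil)))) .nil)) 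
(.lf (nat_lit 32727) (.g (nat_lit 2406) (.e (nat_lit 1201) (nat_lit 88) (.e (nat_lit 65630) (nat_lit 14) (.e (nat_lit 401437) (nat_lit 9) (.e (nat_lit 426542) (nat_lit 29) (.e (nat_lit 352317) (nat_lit 24) (.e (nat_lit 123185) (nat_lit 264) .nil)))))) (.g (nat_lit 4) .nil .nil)))) (.nd (nat_lit 6) 
(.lf (nat_lit 32695) (.g (nat_lit 1031) (.e (nat_lit 1201) (nat_lit 88) (.e (nat_lit 65630) (nat_lit 14) (.e (nat_lit 401425) (nat_lit 2) .nil))) .nil)) 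
(.lf (nat_lit 32759) (.g (nat_lit 459) (.e (nat_lit 1201) (nat_lit 88) (.e (nat_lit 65630) (nat_lit 14) (.e (nat_lit 401457) (nat_lit 13) .nil))) .nil))))) (.nd (nat_lit 4) (.nd (nat_lit 5) (.nd (nat_lit 6) 
(.lf (nat_lit 32655) (.g (nat_lit 2919) (.e (nat_lit 1201) (nat_lit 88) (.e (nat_lit 65629) (nat_lit 14) (.e (nat_lit 401454) (nat_lit 12) (.e (nat_lit 475141) (nat_lit 8) .nil)))) .nil)) 
(.lf (nat_lit 32719) (.g (nat_lit 796) (.e (nat_lit 1201) (nat_lit 88) (.e (nat_lit 65630) (nat_lit 14) (.e (nat_lit 401437) (nat_lit 9) (.e (nat_lit 426509) (nat_lit 27) .nil)))) .nil))) (.nd (nat_lit 6) 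
(.lf (nat_lit 32687) (.g (nat_lit 2705) (.e (nat_lit 1201) (nat_lit 88) (.e (nat_lit 65629) (nat_lit 14) (.e (nat_lit 401459) (nat_lit 13) (.e (nat_lit 483389) (nat_lit 23) .nil)))) .nil)) 
(.lf (nat_lit 32751) (.g (nat_lit 2314) (.e (nat_lit 1201) (nat_lit 88) (.e (nat_lit 65630) (nat_lit 14) (.e (nat_lit 401438) (nat_lit 9) (.e (nat_lit 426546) (nat_lit 30) (.e (nat_lit 360455) (nat_lit 0) (.e (nat_lit 5813) (nat_lit 320) .nil)))))) (.g (nat_lit 5) .nil .nil))))) (.nd (nat_lit 5) (.nd (nat_lit 6) 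
(.lf (nat_lit 32671) (.g (nat_lit 5409) (.e (nat_lit 1201) (nat_lit 88) (.e (nat_lit 65629) (nat_lit 14) (.e (nat_lit 401459) (nat_lit 13) (.e (nat_lit 483372) (nat_lit 21) (.e (nat_lit 319490) (nat_lit 0) .nil))))) .nil)) 
(.lf (nat_lit 32735) (.g (nat_lit 2229) (.e (nat_lit 1201) (nat_lit 88) (.e (nat_lit 65630) (nat_lit 14) (.e (nat_lit 401437) (nat_lit 9) (.e (nat_lit 426546) (nat_lit 30) (.e (nat_lit 360456) (nat_lit 0) (.e (nat_lit 5816) (nat_lit 320) .nil)))))) (.g (nat_lit 4) .nil .nil)))) (.nd (nat_lit 6) 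
(.lf (nat_lit 32703) (.g (nat_lit 1627) (.e (nat_lit 1201) (nat_lit 88) (.e (nat_lit 65630) (nat_lit 14) (.e (nat_lit 401435) (nat_lit 9) (.e (nat_lit 426542) (nat_lit 29) .nil)))) .nil)) 
(.lf (nat_lit 32767) (.g (nat_lit 2734) (.e (nat_lit 1201) (nat_lit 88) (.e (nat_lit 65630) (nat_lit 14) (.e (nat_lit 401457) (nat_lit 13) (.e (nat_lit 483378) (nat_lit 23) (.e (nat_lit 336032) (nat_lit 4) (.e (nat_lit 123184) (nat_lit 264) .nil)))))) (.g (nat_lit 4) .nil .nil))))))))))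

noncomputable def tv461 : DT := (.nd (nat_lit 0) (.nd (nat_lit 1) (.nd (nat_lit 2) (.nd (nat_lit 3) (.nd (nat_lit 4) (.nd (nat_lit 5) (.nd (nat_lit 6) 
(.lf (nat_lit 32768) (.g (nat_lit 1326) (.e (nat_lit 1201) (nat_lit 88) (.e (nat_lit 65630) (nat_lit 14) (.e (nat_lit 401457) (nat_lit 13) (.e (nat_lit 483389) (nat_lit 23) .nil)))) .nil)) 
(.lf (nat_lit 32832) (.g (nat_lit 3005) (.e (nat_lit 1201) (nat_lit 88) (.e (nat_lit 65630) (nat_lit 14) (.e (nat_lit 401459) (nat_lit 13) (.e (nat_lit 483350) (nat_lit 17) (.e (nat_lit 6239) (nat_lit 336) (.e (nat_lit 229482) (nat_lit 61) (.e (nat_lit 5815) (nat_lit 320) .nil))))))) (.g (nat_lit 4) .nil .nil)))) (.nd (nat_lit 6) 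
(.lf (nat_lit 32800) (.g (nat_lit 3427) (.e (nat_lit 1201) (nat_lit 88) (.e (nat_lit 65630) (nat_lit 14) (.e (nat_lit 401459) (nat_lit 13) (.e (nat_lit 483344) (nat_lit 17) (.e (nat_lit 6152) (nat_lit 332) (.e (nat_lit 2541) (nat_lit 158) (.e (nat_lit 8430) (nat_lit 138) .nil))))))) (.g (nat_lit 4) .nil .nil))) 
(.lf (nat_lit 32864) (.g (nat_lit 3047) (.e (nat_lit 1201) (nat_lit 88) (.e (nat_lit 65630) (nat_lit 14) (.e (nat_lit 401459) (nat_lit 13) (.e (nat_lit 483373) (nat_lit 22) .nil)))) .nil)))) (.nd (nat_lit 5) (.nd (nat_lit 6) 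
(.lf (nat_lit 32784) (.g (nat_lit 979) (.e (nat_lit 1201) (nat_lit 88) (.e (nat_lit 65630) (nat_lit 14) (.e (nat_lit 401458) (nat_lit 13) (.e (nat_lit 483395) (nat_lit 24) .nil)))) .nil)) 
(.lf (nat_lit 32848) (.g (nat_lit 3187) (.e (nat_lit 1201) (nat_lit 88) (.e (nat_lit 65630) (nat_lit 14) (.e (nat_lit 401459) (nat_lit 13) (.e (nat_lit 483372) (nat_lit 21) (.e (nat_lit 327424) (nat_lit 0) (.e (nat_lit 21) (nat_lit 0) (.e (nat_lit 5815) (nat_lit 320) .nil))))))) (.g (nat_lit 4) .nil .nil)))) (.nd (nat_lit 6) 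
(.lf (nat_lit 32816) (.g (nat_lit 3127) (.e (nat_lit 1201) (nat_lit 88) (.e (nat_lit 65630) (nat_lit 14) (.e (nat_lit 401459) (nat_lit 13) (.e (nat_lit 483344) (nat_lit 17) (.e (nat_lit 6436) (nat_lit 343) (.e (nat_lit 1288) (nat_lit 95) (.e (nat_lit 123182) (nat_lit 264) .nil))))))) (.g (nat_lit 4) .nil .nil))) 
(.lf (nat_lit 32880) (.g (nat_lit 2086) (.e (nat_lit 1201) (nat_lit 88) (.e (nat_lit 65630) (nat_lit 14) (.e (nat_lit 401459) (nat_lit 13) (.e (nat_lit 483380) (nat_lit 23) .nil)))) .nil))))) (.nd (nat_lit 4) (.nd (nat_lit 5) (.nd (nat_lit 6) 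
(.lf (nat_lit 32776) (.g (nat_lit 1741) (.e (nat_lit 1201) (nat_lit 88) (.e (nat_lit 65630) (nat_lit 14) (.e (nat_lit 401458) (nat_lit 13) (.e (nat_lit 483386) (nat_lit 23) (.e (nat_lit 336030) (nat_lit 4) .nil))))) .nil)) 
(.lf (nat_lit 32840) (.g (nat_lit 5360) (.e (nat_lit 1201) (nat_lit 88) (.e (nat_lit 65630) (nat_lit 14) (.e (nat_lit 401459) (nat_lit 13) (.e (nat_lit 483372) (nat_lit 21) (.e (nat_lit 319490) (nat_lit 0) (.e (nat_lit 75) (nat_lit 0) (.e (nat_lit 5815) (nat_lit 320) .nil))))))) (.g (nat_lit 5) .nil .nil)))) (.nd (nat_lit 6) 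
(.lf (nat_lit 32808) (.g (nat_lit 3933) (.e (nat_lit 1201) (nat_lit 88) (.e (nat_lit 65630) (nat_lit 14) (.e (nat_lit 401459) (nat_lit 13) (.e (nat_lit 483344) (nat_lit 17) (.e (nat_lit 6203) (nat_lit 332) (.e (nat_lit 2540) (nat_lit 158) (.e (nat_lit 8432) (nat_lit 138) .nil))))))) (.g (nat_lit 5) .nil .nil))) 
(.lf (nat_lit 32872) (.g (nat_lit 3299) (.e (nat_lit 1201) (nat_lit 88) (.e (nat_lit 65630) (nat_lit 14) (.e (nat_lit 401459) (nat_lit 13) (.e (nat_lit 483375) (nat_lit 22) (.e (nat_lit 327692) (nat_lit 1) (.e (nat_lit 8429) (nat_lit 138) .nil)))))) (.g (nat_lit 4) .nil .nil))))) (.nd (nat_lit 5) (.nd (nat_lit 6) 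
(.lf (nat_lit 32792) (.g (nat_lit 1595) (.e (nat_lit 1201) (nat_lit 88) (.e (nat_lit 65630) (nat_lit 14) (.e (nat_lit 401459) (nat_lit 13) (.e (nat_lit 483344) (nat_lit 17) .nil)))) .nil)) 
(.lf (nat_lit 32856) (.g (nat_lit 3018) (.e (nat_lit 1201) (nat_lit 88) (.e (nat_lit 65630) (nat_lit 14) (.e (nat_lit 401459) (nat_lit 13) (.e (nat_lit 483372) (nat_lit 21) (.e (nat_lit 327424) (nat_lit 0) (.e (nat_lit 30) (nat_lit 0) (.e (nat_lit 5816) (nat_lit 320) .nil))))))) (.g (nat_lit 4) .nil .nil)))) (.nd (nat_lit 6) 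
(.lf (nat_lit 32824) (.g (nat_lit 3682) (.e (nat_lit 1201) (nat_lit 88) (.e (nat_lit 65630) (nat_lit 14) (.e (nat_lit 401459) (nat_lit 13) (.e (nat_lit 483350) (nat_lit 17) (.e (nat_lit 6097) (nat_lit 332) (.e (nat_lit 2538) (nat_lit 158) (.e (nat_lit 8432) (nat_lit 138) .nil))))))) (.g (nat_lit 4) .nil .nil))) 
(.lf (nat_lit 32888) (.g (nat_lit 1637) (.e (nat_lit 1201) (nat_lit 88) (.e (nat_lit 65630) (nat_lit 14) (.e (nat_lit 401459) (nat_lit 13) (.e (nat_lit 483386) (nat_lit 23) .nil)))) .nil)))))) (.nd (nat_lit 3) (.nd (nat_lit 4) (.nd (nat_lit 5) (.nd (nat_lit 6) 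
(.lf (nat_lit 32772) (.g (nat_lit 2515) (.e (nat_lit 1201) (nat_lit 88) (.e (nat_lit 65630) (nat_lit 14) (.e (nat_lit 401458) (nat_lit 13) (.e (nat_lit 483350) (nat_lit 17) (.e (nat_lit 6097) (nat_lit 332) .nil))))) .nil)) 
(.lf (nat_lit 32836) (.g (nat_lit 2121) (.e (nat_lit 1201) (nat_lit 88) (.e (nat_lit 65630) (nat_lit 14) (.e (nat_lit 401459) (nat_lit 13) (.e (nat_lit 483371) (nat_lit 21) .nil)))) .nil))) (.nd (nat_lit 6) 
(.lf (nat_lit 32804) (.g (nat_lit 3466) (.e (nat_lit 1201) (nat_lit 88) (.e (nat_lit 65630) (nat_lit 14) (.e (nat_lit 401459) (nat_lit 13) (.e (nat_lit 483344) (nat_lit 17) (.e (nat_lit 6152) (nat_lit 332) (.e (nat_lit 2548) (nat_lit 158) (.e (nat_lit 8430) (nat_lit 138) .nil))))))) (.g (nat_lit 4) .nil .nil))) 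
(.lf (nat_lit 32868) (.g (nat_lit 3877) (.e (nat_lit 1201) (nat_lit 88) (.e (nat_lit 65630) (nat_lit 14) (.e (nat_lit 401459) (nat_lit 13) (.e (nat_lit 483374) (nat_lit 22) (.e (nat_lit 327692) (nat_lit 1) (.e (nat_lit 8431) (nat_lit 138) .nil)))))) (.g (nat_lit 6) .nil .nil))))) (.nd (nat_lit 5) (.nd (nat_lit 6) 
(.lf (nat_lit 32788) (.g (nat_lit 1953) (.e (nat_lit 1201) (nat_lit 88) (.e (nat_lit 65630) (nat_lit 14) (.e (nat_lit 401458) (nat_lit 13) (.e (nat_lit 483396) (nat_lit 24) (.e (nat_lit 344104) (nat_lit 18) (.e (nat_lit 5817) (nat_lit 320) .nil)))))) (.g (nat_lit 4) .nil .nil))) 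
(.lf (nat_lit 32852) (.g (nat_lit 3177) (.e (nat_lit 1201) (nat_lit 88) (.e (nat_lit 65630) (nat_lit 14) (.e (nat_lit 401459) (nat_lit 13) (.e (nat_lit 483372) (nat_lit 21) (.e (nat_lit 327424) (nat_lit 0) (.e (nat_lit 26) (nat_lit 0) (.e (nat_lit 5805) (nat_lit 320) .nil))))))) (.g (nat_lit 4) .nil .nil)))) (.nd (nat_lit 6) 
(.lf (nat_lit 32820) (.g (nat_lit 1641) (.e (nat_lit 1201) (nat_lit 88) (.e (nat_lit 65630) (nat_lit 14) (.e (nat_lit 401459) (nat_lit 13) (.e (nat_lit 483350) (nat_lit 17) .nil)))) .nil)) 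
(.lf (nat_lit 32884) (.g (nat_lit 3218) (.e (nat_lit 1201) (nat_lit 88) (.e (nat_lit 65630) (nat_lit 14) (.e (nat_lit 401459) (nat_lit 13) (.e (nat_lit 483380) (nat_lit 23) (.e (nat_lit 336036) (nat_lit 4) (.e (nat_lit 123185) (nat_lit 264) .nil)))))) (.g (nat_lit 4) .nil .nil)))))) (.nd (nat_lit 4) (.nd (nat_lit 5) (.nd (nat_lit 6) 
(.lf (nat_lit 32780) (.g (nat_lit 1738) (.e (nat_lit 1201) (nat_lit 88) (.e (nat_lit 65630) (nat_lit 14) (.e (nat_lit 401458) (nat_lit 13) (.e (nat_lit 483391) (nat_lit 23) (.e (nat_lit 336035) (nat_lit 4) (.e (nat_lit 123185) (nat_lit 264) .nil)))))) (.g (nat_lit 4) .nil .nil))) 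
(.lf (nat_lit 32844) (.g (nat_lit 4945) (.e (nat_lit 1201) (nat_lit 88) (.e (nat_lit 65630) (nat_lit 14) (.e (nat_lit 401459) (nat_lit 13) (.e (nat_lit 483372) (nat_lit 21) (.e (nat_lit 319492) (nat_lit 0) .nil))))) .nil))) (.nd (nat_lit 6) 
(.lf (nat_lit 32812) (.g (nat_lit 2938) (.e (nat_lit 1201) (nat_lit 88) (.e (nat_lit 65630) (nat_lit 14) (.e (nat_lit 401459) (nat_lit 13) (.e (nat_lit 483344) (nat_lit 17) (.e (nat_lit 6203) (nat_lit 332) (.e (nat_lit 2543) (nat_lit 158) (.e (nat_lit 8433) (nat_lit 138) .nil))))))) (.g (nat_lit 4) .nil .nil))) 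
(.lf (nat_lit 32876) (.g (nat_lit 4083) (.e (nat_lit 1201) (nat_lit 88) (.e (nat_lit 65630) (nat_lit 14) (.e (nat_lit 401459) (nat_lit 13) (.e (nat_lit 483375) (nat_lit 22) (.e (nat_lit 327692) (nat_lit 1) (.e (nat_lit 8433) (nat_lit 138) .nil)))))) (.g (nat_lit 0) .nil .nil))))) (.nd (nat_lit 5) (.nd (nat_lit 6) 
(.lf (nat_lit 32796) (.g (nat_lit 3376) (.e (nat_lit 1201) (nat_lit 88) (.e (nat_lit 65630) (nat_lit 14) (.e (nat_lit 401459) (nat_lit 13) (.e (nat_lit 483344) (nat_lit 17) (.e (nat_lit 6081) (nat_lit 332) (.e (nat_lit 2542) (nat_lit 158) (.e (nat_lit 8433) (nat_lit 138) .nil))))))) (.g (nat_lit 4) .nil .nil))) 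
(.lf (nat_lit 32860) (.g (nat_lit 3337) (.e (nat_lit 1201) (nat_lit 88) (.e (nat_lit 65630) (nat_lit 14) (.e (nat_lit 401459) (nat_lit 13) (.e (nat_lit 483372) (nat_lit 21) (.e (nat_lit 327424) (nat_lit 1) (.e (nat_lit 8429) (nat_lit 138) .nil)))))) (.g (nat_lit 4) .nil .nil)))) (.nd (nat_lit 6) 
(.lf (nat_lit 32828) (.g (nat_lit 4137) (.e (nat_lit 1201) (nat_lit 88) (.e (nat_lit 65630) (nat_lit 14) (.e (nat_lit 401459) (nat_lit 13) (.e (nat_lit 483350) (nat_lit 17) (.e (nat_lit 6113) (nat_lit 332) (.e (nat_lit 2538) (nat_lit 158) (.e (nat_lit 8432) (nat_lit 138) .nil))))))) (.g (nat_lit 5) .nil .nil))) 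
(.lf (nat_lit 32892) (.g (nat_lit 2707) (.e (nat_lit 1201) (nat_lit 88) (.e (nat_lit 65630) (nat_lit 14) (.e (nat_lit 401459) (nat_lit 13) (.e (nat_lit 483388) (nat_lit 23) (.e (nat_lit 336032) (nat_lit 4) .nil))))) .nil))))))) (.nd (nat_lit 2) (.nd (nat_lit 3) (.nd (nat_lit 4) (.nd (nat_lit 5) (.nd (nat_lit 6) 
(.lf (nat_lit 32770) (.g (nat_lit 2115) (.e (nat_lit 1201) (nat_lit 88) (.e (nat_lit 65630) (nat_lit 14) (.e (nat_lit 401457) (nat_lit 13) (.e (nat_lit 483393) (nat_lit 23) (.e (nat_lit 336033) (nat_lit 4) .nil))))) .nil)) 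
(.lf (nat_lit 32834) (.g (nat_lit 2870) (.e (nat_lit 1201) (nat_lit 88) (.e (nat_lit 65630) (nat_lit 14) (.e (nat_lit 401459) (nat_lit 13) (.e (nat_lit 483350) (nat_lit 17) (.e (nat_lit 7936) (nat_lit 343) (.e (nat_lit 1288) (nat_lit 95) (.e (nat_lit 123182) (nat_lit 264) .nil))))))) (.g (nat_lit 4) .nil .nil)))) (.nd (nat_lit 6) 
(.lf (nat_lit 32802) (.g (nat_lit 3021) (.e (nat_lit 1201) (nat_lit 88) (.e (nat_lit 65630) (nat_lit 14) (.e (nat_lit 401459) (nat_lit 13) (.e (nat_lit 483344) (nat_lit 17) (.e (nat_lit 6152) (nat_lit 332) (.e (nat_lit 2542) (nat_lit 158) (.e (nat_lit 8433) (nat_lit 138) .nil))))))) (.g (nat_lit 4) .nil .nil))) 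
(.lf (nat_lit 32866) (.g (nat_lit 4114) (.e (nat_lit 1201) (nat_lit 88) (.e (nat_lit 65630) (nat_lit 14) (.e (nat_lit 401459) (nat_lit 13) (.e (nat_lit 483374) (nat_lit 22) (.e (nat_lit 327684) (nat_lit 0) (.e (nat_lit 80) (nat_lit 0) (.e (nat_lit 5815) (nat_lit 320) .nil))))))) (.g (nat_lit 5) .nil .nil))))) (.nd (nat_lit 5) (.nd (nat_lit 6) 
(.lf (nat_lit 32786) (.g (nat_lit 1839) (.e (nat_lit 1201) (nat_lit 88) (.e (nat_lit 65630) (nat_lit 14) (.e (nat_lit 401458) (nat_lit 13) (.e (nat_lit 483396) (nat_lit 24) (.e (nat_lit 344103) (nat_lit 18) (.e (nat_lit 5818) (nat_lit 320) .nil)))))) (.g (nat_lit 4) .nil .nil))) 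
(.lf (nat_lit 32850) (.g (nat_lit 3540) (.e (nat_lit 1201) (nat_lit 88) (.e (nat_lit 65630) (nat_lit 14) (.e (nat_lit 401459) (nat_lit 13) (.e (nat_lit 483372) (nat_lit 21) (.e (nat_lit 327424) (nat_lit 0) (.e (nat_lit 24) (nat_lit 0) (.e (nat_lit 5815) (nat_lit 320) .nil))))))) (.g (nat_lit 4) .nil .nil)))) (.nd (nat_lit 6) 
(.lf (nat_lit 32818) (.g (nat_lit 3464) (.e (nat_lit 1201) (nat_lit 88) (.e (nat_lit 65630) (nat_lit 14) (.e (nat_lit 401459) (nat_lit 13) (.e (nat_lit 483344) (nat_lit 17) (.e (nat_lit 6440) (nat_lit 343) (.e (nat_lit 1288) (nat_lit 95) (.e (nat_lit 123184) (nat_lit 264) .nil))))))) (.g (nat_lit 5) .nil .nil))) 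
(.lf (nat_lit 32882) (.g (nat_lit 3564) (.e (nat_lit 1201) (nat_lit 88) (.e (nat_lit 65630) (nat_lit 14) (.e (nat_lit 401459) (nat_lit 13) (.e (nat_lit 483380) (nat_lit 23) (.e (nat_lit 335977) (nat_lit 0) .nil))))) .nil))))) (.nd (nat_lit 4) (.nd (nat_lit 5) (.nd (nat_lit 6) 
(.lf (nat_lit 32778) (.g (nat_lit 2076) (.e (nat_lit 1201) (nat_lit 88) (.e (nat_lit 65630) (nat_lit 14) (.e (nat_lit 401458) (nat_lit 13) (.e (nat_lit 483388) (nat_lit 23) (.e (nat_lit 336032) (nat_lit 4) (.e (nat_lit 123184) (nat_lit 264) .nil)))))) (.g (nat_lit 4) .nil .nil))) 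
(.lf (nat_lit 32842) (.g (nat_lit 4180) (.e (nat_lit 1201) (nat_lit 88) (.e (nat_lit 65630) (nat_lit 14) (.e (nat_lit 401459) (nat_lit 13) (.e (nat_lit 483372) (nat_lit 21) (.e (nat_lit 319490) (nat_lit 0) (.e (nat_lit 79) (nat_lit 0) (.e (nat_lit 5815) (nat_lit 320) .nil))))))) (.g (nat_lit 4) .nil .nil)))) (.nd (nat_lit 6) 
(.lf (nat_lit 32810) (.g (nat_lit 3039) (.e (nat_lit 1201) (nat_lit 88) (.e (nat_lit 65630) (nat_lit 14) (.e (nat_lit 401459) (nat_lit 13) (.e (nat_lit 483344) (nat_lit 17) (.e (nat_lit 6203) (nat_lit 332) (.e (nat_lit 2543) (nat_lit 158) (.e (nat_lit 8431) (nat_lit 138) .nil))))))) (.g (nat_lit 4) .nil .nil))) 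
(.lf (nat_lit 32874) (.g (nat_lit 4075) (.e (nat_lit 1201) (nat_lit 88) (.e (nat_lit 65630) (nat_lit 14) (.e (nat_lit 401459) (nat_lit 13) (.e (nat_lit 483375) (nat_lit 22) (.e (nat_lit 327692) (nat_lit 1) (.e (nat_lit 8431) (nat_lit 138) .nil)))))) (.g (nat_lit 0) .nil .nil))))) (.nd (nat_lit 5) (.nd (nat_lit 6) 
(.lf (nat_lit 32794) (.g (nat_lit 3229) (.e (nat_lit 1201) (nat_lit 88) (.e (nat_lit 65630) (nat_lit 14) (.e (nat_lit 401459) (nat_lit 13) (.e (nat_lit 483344) (nat_lit 17) (.e (nat_lit 6079) (nat_lit 332) (.e (nat_lit 2542) (nat_lit 158) (.e (nat_lit 8433) (nat_lit 138) .nil))))))) (.g (nat_lit 4) .nil .nil))) 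
(.lf (nat_lit 32858) (.g (nat_lit 3548) (.e (nat_lit 1201) (nat_lit 88) (.e (nat_lit 65630) (nat_lit 14) (.e (nat_lit 401459) (nat_lit 13) (.e (nat_lit 483372) (nat_lit 21) (.e (nat_lit 327424) (nat_lit 0) (.e (nat_lit 67) (nat_lit 0) (.e (nat_lit 5817) (nat_lit 320) .nil))))))) (.g (nat_lit 4) .nil .nil)))) (.nd (nat_lit 6) 
(.lf (nat_lit 32826) (.g (nat_lit 3085) (.e (nat_lit 1201) (nat_lit 88) (.e (nat_lit 65630) (nat_lit 14) (.e (nat_lit 401459) (nat_lit 13) (.e (nat_lit 483350) (nat_lit 17) (.e (nat_lit 6113) (nat_lit 332) (.e (nat_lit 2538) (nat_lit 158) (.e (nat_lit 8429) (nat_lit 138) .nil))))))) (.g (nat_lit 4) .nil .nil))) 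
(.lf (nat_lit 32890) (.g (nat_lit 2425) (.e (nat_lit 1201) (nat_lit 88) (.e (nat_lit 65630) (nat_lit 14) (.e (nat_lit 401459) (nat_lit 13) (.e (nat_lit 483386) (nat_lit 23) (.e (nat_lit 336034) (nat_lit 4) .nil))))) .nil)))))) (.nd (nat_lit 3) (.nd (nat_lit 4) (.nd (nat_lit 5) (.nd (nat_lit 6) 
(.lf (nat_lit 32774) (.g (nat_lit 2857) (.e (nat_lit 1201) (nat_lit 88) (.e (nat_lit 65630) (nat_lit 14) (.e (nat_lit 401458) (nat_lit 13) (.e (nat_lit 483372) (nat_lit 21) (.e (nat_lit 319490) (nat_lit 0) .nil))))) .nil)) 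
(.lf (nat_lit 32838) (.g (nat_lit 4261) (.e (nat_lit 1201) (nat_lit 88) (.e (nat_lit 65630) (nat_lit 14) (.e (nat_lit 401459) (nat_lit 13) (.e (nat_lit 483372) (nat_lit 21) (.e (nat_lit 319490) (nat_lit 0) (.e (nat_lit 63) (nat_lit 0) (.e (nat_lit 5815) (nat_lit 320) .nil))))))) (.g (nat_lit 4) .nil .nil)))) (.nd (nat_lit 6) 
(.lf (nat_lit 32806) (.g (nat_lit 3272) (.e (nat_lit 1201) (nat_lit 88) (.e (nat_lit 65630) (nat_lit 14) (.e (nat_lit 401459) (nat_lit 13) (.e (nat_lit 483344) (nat_lit 17) (.e (nat_lit 6153) (nat_lit 332) (.e (nat_lit 2542) (nat_lit 158) (.e (nat_lit 8433) (nat_lit 138) .nil))))))) (.g (nat_lit 4) .nil .nil))) 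
(.lf (nat_lit 32870) (.g (nat_lit 1721) (.e (nat_lit 1201) (nat_lit 88) (.e (nat_lit 65630) (nat_lit 14) (.e (nat_lit 401459) (nat_lit 13) (.e (nat_lit 483375) (nat_lit 22) .nil)))) .nil)))) (.nd (nat_lit 5) (.nd (nat_lit 6) 
(.lf (nat_lit 32790) (.g (nat_lit 2184) (.e (nat_lit 1201) (nat_lit 88) (.e (nat_lit 65630) (nat_lit 14) (.e (nat_lit 401459) (nat_lit 13) (.e (nat_lit 483343) (nat_lit 17) .nil)))) .nil)) 
(.lf (nat_lit 32854) (.g (nat_lit 4014) (.e (nat_lit 1201) (nat_lit 88) (.e (nat_lit 65630) (nat_lit 14) (.e (nat_lit 401459) (nat_lit 13) (.e (nat_lit 483372) (nat_lit 21) (.e (nat_lit 327424) (nat_lit 0) (.e (nat_lit 28) (nat_lit 0) (.e (nat_lit 5815) (nat_lit 320) .nil))))))) (.g (nat_lit 4) .nil .nil)))) (.nd (nat_lit 6) 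
(.lf (nat_lit 32822) (.g (nat_lit 2989) (.e (nat_lit 1201) (nat_lit 88) (.e (nat_lit 65630) (nat_lit 14) (.e (nat_lit 401459) (nat_lit 13) (.e (nat_lit 483350) (nat_lit 17) (.e (nat_lit 6094) (nat_lit 332) .nil))))) .nil)) 
(.lf (nat_lit 32886) (.g (nat_lit 2303) (.e (nat_lit 1201) (nat_lit 88) (.e (nat_lit 65630) (nat_lit 14) (.e (nat_lit 401459) (nat_lit 13) (.e (nat_lit 483381) (nat_lit 23) .nil)))) .nil))))) (.nd (nat_lit 4) (.nd (nat_lit 5) (.nd (nat_lit 6) 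
(.lf (nat_lit 32782) (.g (nat_lit 2097) (.e (nat_lit 1201) (nat_lit 88) (.e (nat_lit 65630) (nat_lit 14) (.e (nat_lit 401458) (nat_lit 13) (.e (nat_lit 483394) (nat_lit 24) (.e (nat_lit 344104) (nat_lit 18) (.e (nat_lit 5816) (nat_lit 320) .nil)))))) (.g (nat_lit 4) .nil .nil))) 
(.lf (nat_lit 32846) (.g (nat_lit 5333) (.e (nat_lit 1201) (nat_lit 88) (.e (nat_lit 65630) (nat_lit 14) (.e (nat_lit 401459) (nat_lit 13) (.e (nat_lit 483372) (nat_lit 21) (.e (nat_lit 319492) (nat_lit 0) (.e (nat_lit 63) (nat_lit 0) (.e (nat_lit 5817) (nat_lit 320) .nil))))))) (.g (nat_lit 4) .nil .nil)))) (.nd (nat_lit 6) 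
(.lf (nat_lit 32814) (.g (nat_lit 3038) (.e (nat_lit 1201) (nat_lit 88) (.e (nat_lit 65630) (nat_lit 14) (.e (nat_lit 401459) (nat_lit 13) (.e (nat_lit 483344) (nat_lit 17) (.e (nat_lit 6434) (nat_lit 343) (.e (nat_lit 1286) (nat_lit 95) (.e (nat_lit 123182) (nat_lit 264) .nil))))))) (.g (nat_lit 4) .nil .nil))) 
(.lf (nat_lit 32878) (.g (nat_lit 2363) (.e (nat_lit 1201) (nat_lit 88) (.e (nat_lit 65630) (nat_lit 14) (.e (nat_lit 401459) (nat_lit 13) (.e (nat_lit 483378) (nat_lit 23) (.e (nat_lit 336032) (nat_lit 4) (.e (nat_lit 123183) (nat_lit 264) .nil)))))) (.g (nat_lit 4) .nil .nil))))) (.nd (nat_lit 5) (.nd (nat_lit 6) 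
(.lf (nat_lit 32798) (.g (nat_lit 2955) (.e (nat_lit 1201) (nat_lit 88) (.e (nat_lit 65630) (nat_lit 14) (.e (nat_lit 401459) (nat_lit 13) (.e (nat_lit 483344) (nat_lit 17) (.e (nat_lit 6091) (nat_lit 332) (.e (nat_lit 2540) (nat_lit 158) (.e (nat_lit 8432) (nat_lit 138) .nil))))))) (.g (nat_lit 4) .nil .nil))) 
(.lf (nat_lit 32862) (.g (nat_lit 3878) (.e (nat_lit 1201) (nat_lit 88) (.e (nat_lit 65630) (nat_lit 14) (.e (nat_lit 401459) (nat_lit 13) (.e (nat_lit 483372) (nat_lit 21) (.e (nat_lit 327424) (nat_lit 1) (.e (nat_lit 8431) (nat_lit 138) .nil)))))) (.g (nat_lit 4) .nil .nil)))) (.nd (nat_lit 6) 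
(.lf (nat_lit 32830) (.g (nat_lit 3214) (.e (nat_lit 1201) (nat_lit 88) (.e (nat_lit 65630) (nat_lit 14) (.e (nat_lit 401459) (nat_lit 13) (.e (nat_lit 483350) (nat_lit 17) (.e (nat_lit 6113) (nat_lit 332) (.e (nat_lit 7936) (nat_lit 158) (.e (nat_lit 8432) (nat_lit 138) .nil))))))) (.g (nat_lit 4) .nil .nil))) 
(.lf (nat_lit 32894) (.g (nat_lit 2384) (.e (nat_lit 1201) (nat_lit 88) (.e (nat_lit 65630) (nat_lit 14) (.e (nat_lit 401459) (nat_lit 13) (.e (nat_lit 483391) (nat_lit 23) .nil)))) .nil)))))))) (.nd (nat_lit 1) (.nd (nat_lit 2) (.nd (nat_lit 3) (.nd (nat_lit 4) (.nd (nat_lit 5) (.nd (nat_lit 6) 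
(.lf (nat_lit 32769) (.g (nat_lit 1445) (.e (nat_lit 1201) (nat_lit 88) (.e (nat_lit 65630) (nat_lit 14) (.e (nat_lit 401457) (nat_lit 13) (.e (nat_lit 483393) (nat_lit 23) .nil)))) .nil)) 
(.lf (nat_lit 32833) (.g (nat_lit 2909) (.e (nat_lit 1201) (nat_lit 88) (.e (nat_lit 65630) (nat_lit 14) (.e (nat_lit 401459) (nat_lit 13) (.e (nat_lit 483350) (nat_lit 17) (.e (nat_lit 6240) (nat_lit 336) .nil))))) .nil))) (.nd (nat_lit 6) 
(.lf (nat_lit 32801) (.g (nat_lit 2895) (.e (nat_lit 1201) (nat_lit 88) (.e (nat_lit 65630) (nat_lit 14) (.e (nat_lit 401459) (nat_lit 13) (.e (nat_lit 483344) (nat_lit 17) (.e (nat_lit 6152) (nat_lit 332) (.e (nat_lit 2541) (nat_lit 158) (.e (nat_lit 8433) (nat_lit 138) .nil))))))) (.g (nat_lit 4) .nil .nil))) 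
(.lf (nat_lit 32865) (.g (nat_lit 2389) (.e (nat_lit 1201) (nat_lit 88) (.e (nat_lit 65630) (nat_lit 14) (.e (nat_lit 401459) (nat_lit 13) (.e (nat_lit 483374) (nat_lit 22) .nil)))) .nil)))) (.nd (nat_lit 5) (.nd (nat_lit 6) 
(.lf (nat_lit 32785) (.g (nat_lit 1641) (.e (nat_lit 1201) (nat_lit 88) (.e (nat_lit 65630) (nat_lit 14) (.e (nat_lit 401458) (nat_lit 13) (.e (nat_lit 483396) (nat_lit 24) (.e (nat_lit 344089) (nat_lit 18) .nil))))) .nil)) 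
(.lf (nat_lit 32849) (.g (nat_lit 3696) (.e (nat_lit 1201) (nat_lit 88) (.e (nat_lit 65630) (nat_lit 14) (.e (nat_lit 401459) (nat_lit 13) (.e (nat_lit 483372) (nat_lit 21) (.e (nat_lit 327424) (nat_lit 0) (.e (nat_lit 21) (nat_lit 0) (.e (nat_lit 5820) (nat_lit 320) .nil))))))) (.g (nat_lit 4) .nil .nil)))) (.nd (nat_lit 6) 
(.lf (nat_lit 32817) (.g (nat_lit 3121) (.e (nat_lit 1201) (nat_lit 88) (.e (nat_lit 65630) (nat_lit 14) (.e (nat_lit 401459) (nat_lit 13) (.e (nat_lit 483344) (nat_lit 17) (.e (nat_lit 6439) (nat_lit 343) (.e (nat_lit 1286) (nat_lit 95) (.e (nat_lit 123182) (nat_lit 264) .nil))))))) (.g (nat_lit 4) .nil .nil))) 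
(.lf (nat_lit 32881) (.g (nat_lit 3564) (.e (nat_lit 1201) (nat_lit 88) (.e (nat_lit 65630) (nat_lit 14) (.e (nat_lit 401459) (nat_lit 13) (.e (nat_lit 483380) (nat_lit 23) (.e (nat_lit 335875) (nat_lit 0) .nil))))) .nil))))) (.nd (nat_lit 4) (.nd (nat_lit 5) (.nd (nat_lit 6) 
(.lf (nat_lit 32777) (.g (nat_lit 2927) (.e (nat_lit 1201) (nat_lit 88) (.e (nat_lit 65630) (nat_lit 14) (.e (nat_lit 401458) (nat_lit 13) (.e (nat_lit 483387) (nat_lit 23) (.e (nat_lit 336032) (nat_lit 4) (.e (nat_lit 123184) (nat_lit 264) .nil)))))) (.g (nat_lit 0) .nil .nil))) 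
(.lf (nat_lit 32841) (.g (nat_lit 4874) (.e (nat_lit 1201) (nat_lit 88) (.e (nat_lit 65630) (nat_lit 14) (.e (nat_lit 401459) (nat_lit 13) (.e (nat_lit 483372) (nat_lit 21) (.e (nat_lit 319490) (nat_lit 0) (.e (nat_lit 75) (nat_lit 0) (.e (nat_lit 5821) (nat_lit 320) .nil))))))) (.g (nat_lit 4) .nil .nil)))) (.nd (nat_lit 6) 
(.lf (nat_lit 32809) (.g (nat_lit 3434) (.e (nat_lit 1201) (nat_lit 88) (.e (nat_lit 65630) (nat_lit 14) (.e (nat_lit 401459) (nat_lit 13) (.e (nat_lit 483344) (nat_lit 17) (.e (nat_lit 6203) (nat_lit 332) (.e (nat_lit 2543) (nat_lit 158) (.e (nat_lit 8430) (nat_lit 138) .nil))))))) (.g (nat_lit 4) .nil .nil))) 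
(.lf (nat_lit 32873) (.g (nat_lit 3781) (.e (nat_lit 1201) (nat_lit 88) (.e (nat_lit 65630) (nat_lit 14) (.e (nat_lit 401459) (nat_lit 13) (.e (nat_lit 483375) (nat_lit 22) (.e (nat_lit 327692) (nat_lit 1) (.e (nat_lit 8430) (nat_lit 138) .nil)))))) (.g (nat_lit 5) .nil .nil))))) (.nd (nat_lit 5) (.nd (nat_lit 6) 
(.lf (nat_lit 32793) (.g (nat_lit 2909) (.e (nat_lit 1201) (nat_lit 88) (.e (nat_lit 65630) (nat_lit 14) (.e (nat_lit 401459) (nat_lit 13) (.e (nat_lit 483344) (nat_lit 17) (.e (nat_lit 6079) (nat_lit 332) (.e (nat_lit 2540) (nat_lit 158) (.e (nat_lit 8432) (nat_lit 138) .nil))))))) (.g (nat_lit 4) .nil .nil))) 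
(.lf (nat_lit 32857) (.g (nat_lit 3160) (.e (nat_lit 1201) (nat_lit 88) (.e (nat_lit 65630) (nat_lit 14) (.e (nat_lit 401459) (nat_lit 13) (.e (nat_lit 483372) (nat_lit 21) (.e (nat_lit 327424) (nat_lit 0) (.e (nat_lit 67) (nat_lit 0) (.e (nat_lit 5815) (nat_lit 320) .nil))))))) (.g (nat_lit 4) .nil .nil)))) (.nd (nat_lit 6) 
(.lf (nat_lit 32825) (.g (nat_lit 2390) (.e (nat_lit 1201) (nat_lit 88) (.e (nat_lit 65630) (nat_lit 14) (.e (nat_lit 401459) (nat_lit 13) (.e (nat_lit 483350) (nat_lit 17) (.e (nat_lit 6113) (nat_lit 332) .nil))))) .nil)) 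
(.lf (nat_lit 32889) (.g (nat_lit 2868) (.e (nat_lit 1201) (nat_lit 88) (.e (nat_lit 65630) (nat_lit 14) (.e (nat_lit 401459) (nat_lit 13) (.e (nat_lit 483386) (nat_lit 23) (.e (nat_lit 336030) (nat_lit 4) (.e (nat_lit 123183) (nat_lit 264) .nil)))))) (.g (nat_lit 4) .nil .nil))))))) (.nd (nat_lit 3) (.nd (nat_lit 4) (.nd (nat_lit 5) (.nd (nat_lit 6) 
(.lf (nat_lit 32773) (.g (nat_lit 1340) (.e (nat_lit 1201) (nat_lit 88) (.e (nat_lit 65630) (nat_lit 14) (.e (nat_lit 401458) (nat_lit 13) (.e (nat_lit 483372) (nat_lit 21) .nil)))) .nil)) 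
(.lf (nat_lit 32837) (.g (nat_lit 3987) (.e (nat_lit 1201) (nat_lit 88) (.e (nat_lit 65630) (nat_lit 14) (.e (nat_lit 401459) (nat_lit 13) (.e (nat_lit 483372) (nat_lit 21) (.e (nat_lit 319490) (nat_lit 0) .nil))))) .nil))) (.nd (nat_lit 6) 
(.lf (nat_lit 32805) (.g (nat_lit 3027) (.e (nat_lit 1201) (nat_lit 88) (.e (nat_lit 65630) (nat_lit 14) (.e (nat_lit 401459) (nat_lit 13) (.e (nat_lit 483344) (nat_lit 17) (.e (nat_lit 6153) (nat_lit 332) (.e (nat_lit 2541) (nat_lit 158) (.e (nat_lit 8432) (nat_lit 138) .nil))))))) (.g (nat_lit 4) .nil .nil))) 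
(.lf (nat_lit 32869) (.g (nat_lit 3913) (.e (nat_lit 1201) (nat_lit 88) (.e (nat_lit 65630) (nat_lit 14) (.e (nat_lit 401459) (nat_lit 13) (.e (nat_lit 483374) (nat_lit 22) (.e (nat_lit 327692) (nat_lit 1) (.e (nat_lit 8433) (nat_lit 138) .nil)))))) (.g (nat_lit 6) .nil .nil))))) (.nd (nat_lit 5) (.nd (nat_lit 6) 
(.lf (nat_lit 32789) (.g (nat_lit 2669) (.e (nat_lit 1201) (nat_lit 88) (.e (nat_lit 65630) (nat_lit 14) (.e (nat_lit 401459) (nat_lit 13) (.e (nat_lit 483342) (nat_lit 17) .nil)))) .nil)) 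
(.lf (nat_lit 32853) (.g (nat_lit 3578) (.e (nat_lit 1201) (nat_lit 88) (.e (nat_lit 65630) (nat_lit 14) (.e (nat_lit 401459) (nat_lit 13) (.e (nat_lit 483372) (nat_lit 21) (.e (nat_lit 327424) (nat_lit 0) (.e (nat_lit 26) (nat_lit 0) (.e (nat_lit 5815) (nat_lit 320) .nil))))))) (.g (nat_lit 4) .nil .nil)))) (.nd (nat_lit 6) 
(.lf (nat_lit 32821) (.g (nat_lit 2892) (.e (nat_lit 1201) (nat_lit 88) (.e (nat_lit 65630) (nat_lit 14) (.e (nat_lit 401459) (nat_lit 13) (.e (nat_lit 483350) (nat_lit 17) (.e (nat_lit 6093) (nat_lit 332) .nil))))) .nil)) 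
(.lf (nat_lit 32885) (.g (nat_lit 2544) (.e (nat_lit 1201) (nat_lit 88) (.e (nat_lit 65630) (nat_lit 14) (.e (nat_lit 401459) (nat_lit 13) (.e (nat_lit 483380) (nat_lit 23) (.e (nat_lit 343808) (nat_lit 4) .nil))))) .nil))))) (.nd (nat_lit 4) (.nd (nat_lit 5) (.nd (nat_lit 6) 
(.lf (nat_lit 32781) (.g (nat_lit 923) (.e (nat_lit 1201) (nat_lit 88) (.e (nat_lit 65630) (nat_lit 14) (.e (nat_lit 401458) (nat_lit 13) (.e (nat_lit 483393) (nat_lit 23) .nil)))) .nil)) 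
(.lf (nat_lit 32845) (.g (nat_lit 4965) (.e (nat_lit 1201) (nat_lit 88) (.e (nat_lit 65630) (nat_lit 14) (.e (nat_lit 401459) (nat_lit 13) (.e (nat_lit 483372) (nat_lit 21) (.e (nat_lit 319492) (nat_lit 0) (.e (nat_lit 63) (nat_lit 0) (.e (nat_lit 5815) (nat_lit 320) .nil))))))) (.g (nat_lit 4) .nil .nil)))) (.nd (nat_lit 6) 
(.lf (nat_lit 32813) (.g (nat_lit 2426) (.e (nat_lit 1201) (nat_lit 88) (.e (nat_lit 65630) (nat_lit 14) (.e (nat_lit 401459) (nat_lit 13) (.e (nat_lit 483344) (nat_lit 17) (.e (nat_lit 6235) (nat_lit 335) .nil))))) .nil)) 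
(.lf (nat_lit 32877) (.g (nat_lit 1254) (.e (nat_lit 1201) (nat_lit 88) (.e (nat_lit 65630) (nat_lit 14) (.e (nat_lit 401459) (nat_lit 13) (.e (nat_lit 483378) (nat_lit 23) .nil)))) .nil)))) (.nd (nat_lit 5) (.nd (nat_lit 6) 
(.lf (nat_lit 32797) (.g (nat_lit 2945) (.e (nat_lit 1201) (nat_lit 88) (.e (nat_lit 65630) (nat_lit 14) (.e (nat_lit 401459) (nat_lit 13) (.e (nat_lit 483344) (nat_lit 17) (.e (nat_lit 6081) (nat_lit 332) (.e (nat_lit 2547) (nat_lit 158) (.e (nat_lit 8432) (nat_lit 138) .nil))))))) (.g (nat_lit 4) .nil .nil))) 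
(.lf (nat_lit 32861) (.g (nat_lit 3670) (.e (nat_lit 1201) (nat_lit 88) (.e (nat_lit 65630) (nat_lit 14) (.e (nat_lit 401459) (nat_lit 13) (.e (nat_lit 483372) (nat_lit 21) (.e (nat_lit 327424) (nat_lit 1) (.e (nat_lit 8430) (nat_lit 138) .nil)))))) (.g (nat_lit 4) .nil .nil)))) (.nd (nat_lit 6) 
(.lf (nat_lit 32829) (.g (nat_lit 3061) (.e (nat_lit 1201) (nat_lit 88) (.e (nat_lit 65630) (nat_lit 14) (.e (nat_lit 401459) (nat_lit 13) (.e (nat_lit 483350) (nat_lit 17) (.e (nat_lit 6113) (nat_lit 332) (.e (nat_lit 7936) (nat_lit 158) (.e (nat_lit 8431) (nat_lit 138) .nil))))))) (.g (nat_lit 4) .nil .nil))) 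
(.lf (nat_lit 32893) (.g (nat_lit 2461) (.e (nat_lit 1201) (nat_lit 88) (.e (nat_lit 65630) (nat_lit 14) (.e (nat_lit 401459) (nat_lit 13) (.e (nat_lit 483389) (nat_lit 23) .nil)))) .nil))))))) (.nd (nat_lit 2) (.nd (nat_lit 3) (.nd (nat_lit 4) (.nd (nat_lit 5) (.nd (nat_lit 6) 
(.lf (nat_lit 32771) (.g (nat_lit 1731) (.e (nat_lit 1201) (nat_lit 88) (.e (nat_lit 65630) (nat_lit 14) (.e (nat_lit 401457) (nat_lit 13) (.e (nat_lit 483413) (nat_lit 27) .nil)))) .nil)) 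
(.lf (nat_lit 32835) (.g (nat_lit 2381) (.e (nat_lit 1201) (nat_lit 88) (.e (nat_lit 65630) (nat_lit 14) (.e (nat_lit 401459) (nat_lit 13) (.e (nat_lit 483354) (nat_lit 17) .nil)))) .nil))) (.nd (nat_lit 6) 
(.lf (nat_lit 32803) (.g (nat_lit 3311) (.e (nat_lit 1201) (nat_lit 88) (.e (nat_lit 65630) (nat_lit 14) (.e (nat_lit 401459) (nat_lit 13) (.e (nat_lit 483344) (nat_lit 17) (.e (nat_lit 6152) (nat_lit 332) (.e (nat_lit 2546) (nat_lit 158) (.e (nat_lit 8430) (nat_lit 138) .nil))))))) (.g (nat_lit 4) .nil .nil))) 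
(.lf (nat_lit 32867) (.g (nat_lit 3583) (.e (nat_lit 1201) (nat_lit 88) (.e (nat_lit 65630) (nat_lit 14) (.e (nat_lit 401459) (nat_lit 13) (.e (nat_lit 483374) (nat_lit 22) (.e (nat_lit 327692) (nat_lit 1) (.e (nat_lit 8430) (nat_lit 138) .nil)))))) (.g (nat_lit 4) .nil .nil))))) (.nd (nat_lit 5) (.nd (nat_lit 6) 
(.lf (nat_lit 32787) (.g (nat_lit 2222) (.e (nat_lit 1201) (nat_lit 88) (.e (nat_lit 65630) (nat_lit 14) (.e (nat_lit 401458) (nat_lit 13) (.e (nat_lit 483396) (nat_lit 24) (.e (nat_lit 344104) (nat_lit 18) (.e (nat_lit 5816) (nat_lit 320) .nil)))))) (.g (nat_lit 4) .nil .nil))) 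
(.lf (nat_lit 32851) (.g (nat_lit 3897) (.e (nat_lit 1201) (nat_lit 88) (.e (nat_lit 65630) (nat_lit 14) (.e (nat_lit 401459) (nat_lit 13) (.e (nat_lit 483372) (nat_lit 21) (.e (nat_lit 327424) (nat_lit 0) (.e (nat_lit 24) (nat_lit 0) (.e (nat_lit 5820) (nat_lit 320) .nil))))))) (.g (nat_lit 4) .nil .nil)))) (.nd (nat_lit 6) 
(.lf (nat_lit 32819) (.g (nat_lit 2266) (.e (nat_lit 1201) (nat_lit 88) (.e (nat_lit 65630) (nat_lit 14) (.e (nat_lit 401459) (nat_lit 13) (.e (nat_lit 483347) (nat_lit 17) .nil)))) .nil)) 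
(.lf (nat_lit 32883) (.g (nat_lit 3082) (.e (nat_lit 1201) (nat_lit 88) (.e (nat_lit 65630) (nat_lit 14) (.e (nat_lit 401459) (nat_lit 13) (.e (nat_lit 483380) (nat_lit 23) (.e (nat_lit 336036) (nat_lit 4) (.e (nat_lit 123184) (nat_lit 264) .nil)))))) (.g (nat_lit 4) .nil .nil)))))) (.nd (nat_lit 4) (.nd (nat_lit 5) (.nd (nat_lit 6) 
(.lf (nat_lit 32779) (.g (nat_lit 911) (.e (nat_lit 1201) (nat_lit 88) (.e (nat_lit 65630) (nat_lit 14) (.e (nat_lit 401458) (nat_lit 13) (.e (nat_lit 483389) (nat_lit 23) .nil)))) .nil)) 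
(.lf (nat_lit 32843) (.g (nat_lit 4770) (.e (nat_lit 1201) (nat_lit 88) (.e (nat_lit 65630) (nat_lit 14) (.e (nat_lit 401459) (nat_lit 13) (.e (nat_lit 483372) (nat_lit 21) (.e (nat_lit 319491) (nat_lit 0) .nil))))) .nil))) (.nd (nat_lit 6) 
(.lf (nat_lit 32811) (.g (nat_lit 3274) (.e (nat_lit 1201) (nat_lit 88) (.e (nat_lit 65630) (nat_lit 14) (.e (nat_lit 401459) (nat_lit 13) (.e (nat_lit 483344) (nat_lit 17) (.e (nat_lit 6203) (nat_lit 332) (.e (nat_lit 2543) (nat_lit 158) (.e (nat_lit 8432) (nat_lit 138) .nil))))))) (.g (nat_lit 4) .nil .nil))) 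
(.lf (nat_lit 32875) (.g (nat_lit 4151) (.e (nat_lit 1201) (nat_lit 88) (.e (nat_lit 65630) (nat_lit 14) (.e (nat_lit 401459) (nat_lit 13) (.e (nat_lit 483375) (nat_lit 22) (.e (nat_lit 327692) (nat_lit 1) (.e (nat_lit 8432) (nat_lit 138) .nil)))))) (.g (nat_lit 0) .nil .nil))))) (.nd (nat_lit 5) (.nd (nat_lit 6) 
(.lf (nat_lit 32795) (.g (nat_lit 2999) (.e (nat_lit 1201) (nat_lit 88) (.e (nat_lit 65630) (nat_lit 14) (.e (nat_lit 401459) (nat_lit 13) (.e (nat_lit 483344) (nat_lit 17) (.e (nat_lit 6081) (nat_lit 332) (.e (nat_lit 2541) (nat_lit 158) (.e (nat_lit 8432) (nat_lit 138) .nil))))))) (.g (nat_lit 4) .nil .nil))) 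
(.lf (nat_lit 32859) (.g (nat_lit 3170) (.e (nat_lit 1201) (nat_lit 88) (.e (nat_lit 65630) (nat_lit 14) (.e (nat_lit 401459) (nat_lit 13) (.e (nat_lit 483372) (nat_lit 21) (.e (nat_lit 327424) (nat_lit 0) (.e (nat_lit 69) (nat_lit 0) (.e (nat_lit 5817) (nat_lit 320) .nil))))))) (.g (nat_lit 4) .nil .nil)))) (.nd (nat_lit 6) 
(.lf (nat_lit 32827) (.g (nat_lit 4143) (.e (nat_lit 1201) (nat_lit 88) (.e (nat_lit 65630) (nat_lit 14) (.e (nat_lit 401459) (nat_lit 13) (.e (nat_lit 483350) (nat_lit 17) (.e (nat_lit 6113) (nat_lit 332) (.e (nat_lit 2538) (nat_lit 158) (.e (nat_lit 8430) (nat_lit 138) .nil))))))) (.g (nat_lit 5) .nil .nil))) 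
(.lf (nat_lit 32891) (.g (nat_lit 2572) (.e (nat_lit 1201) (nat_lit 88) (.e (nat_lit 65630) (nat_lit 14) (.e (nat_lit 401459) (nat_lit 13) (.e (nat_lit 483388) (nat_lit 23) .nil)))) .nil)))))) (.nd (nat_lit 3) (.nd (nat_lit 4) (.nd (nat_lit 5) (.nd (nat_lit 6) 
(.lf (nat_lit 32775) (.g (nat_lit 2741) (.e (nat_lit 1201) (nat_lit 88) (.e (nat_lit 65630) (nat_lit 14) (.e (nat_lit 401458) (nat_lit 13) (.e (nat_lit 483378) (nat_lit 23) (.e (nat_lit 336032) (nat_lit 4) (.e (nat_lit 123184) (nat_lit 264) .nil)))))) (.g (nat_lit 6) .nil .nil))) 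
(.lf (nat_lit 32839) (.g (nat_lit 4619) (.e (nat_lit 1201) (nat_lit 88) (.e (nat_lit 65630) (nat_lit 14) (.e (nat_lit 401459) (nat_lit 13) (.e (nat_lit 483372) (nat_lit 21) (.e (nat_lit 319490) (nat_lit 0) (.e (nat_lit 63) (nat_lit 0) (.e (nat_lit 5817) (nat_lit 320) .nil))))))) (.g (nat_lit 4) .nil .nil)))) (.nd (nat_lit 6) 
(.lf (nat_lit 32807) (.g (nat_lit 3114) (.e (nat_lit 1201) (nat_lit 88) (.e (nat_lit 65630) (nat_lit 14) (.e (nat_lit 401459) (nat_lit 13) (.e (nat_lit 483344) (nat_lit 17) (.e (nat_lit 6154) (nat_lit 332) (.e (nat_lit 2540) (nat_lit 158) (.e (nat_lit 8432) (nat_lit 138) .nil))))))) (.g (nat_lit 4) .nil .nil))) 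
(.lf (nat_lit 32871) (.g (nat_lit 2573) (.e (nat_lit 1201) (nat_lit 88) (.e (nat_lit 65630) (nat_lit 14) (.e (nat_lit 401459) (nat_lit 13) (.e (nat_lit 483375) (nat_lit 22) (.e (nat_lit 327688) (nat_lit 0) .nil))))) .nil)))) (.nd (nat_lit 5) (.nd (nat_lit 6) 
(.lf (nat_lit 32791) (.g (nat_lit 2412) (.e (nat_lit 1201) (nat_lit 88) (.e (nat_lit 65630) (nat_lit 14) (.e (nat_lit 401459) (nat_lit 13) (.e (nat_lit 483343) (nat_lit 17) (.e (nat_lit 6081) (nat_lit 332) .nil))))) .nil)) 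
(.lf (nat_lit 32855) (.g (nat_lit 3216) (.e (nat_lit 1201) (nat_lit 88) (.e (nat_lit 65630) (nat_lit 14) (.e (nat_lit 401459) (nat_lit 13) (.e (nat_lit 483372) (nat_lit 21) (.e (nat_lit 327424) (nat_lit 0) (.e (nat_lit 28) (nat_lit 0) (.e (nat_lit 5819) (nat_lit 320) .nil))))))) (.g (nat_lit 4) .nil .nil)))) (.nd (nat_lit 6) 
(.lf (nat_lit 32823) (.g (nat_lit 3688) (.e (nat_lit 1201) (nat_lit 88) (.e (nat_lit 65630) (nat_lit 14) (.e (nat_lit 401459) (nat_lit 13) (.e (nat_lit 483350) (nat_lit 17) (.e (nat_lit 6097) (nat_lit 332) (.e (nat_lit 2538) (nat_lit 158) (.e (nat_lit 8430) (nat_lit 138) .nil))))))) (.g (nat_lit 4) .nil .nil))) 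
(.lf (nat_lit 32887) (.g (nat_lit 2646) (.e (nat_lit 1201) (nat_lit 88) (.e (nat_lit 65630) (nat_lit 14) (.e (nat_lit 401459) (nat_lit 13) (.e (nat_lit 483383) (nat_lit 23) .nil)))) .nil))))) (.nd (nat_lit 4) (.nd (nat_lit 5) (.nd (nat_lit 6) 
(.lf (nat_lit 32783) (.g (nat_lit 2370) (.e (nat_lit 1201) (nat_lit 88) (.e (nat_lit 65630) (nat_lit 14) (.e (nat_lit 401458) (nat_lit 13) (.e (nat_lit 483394) (nat_lit 24) (.e (nat_lit 344104) (nat_lit 18) (.e (nat_lit 5818) (nat_lit 320) .nil)))))) (.g (nat_lit 5) .nil .nil))) 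
(.lf (nat_lit 32847) (.g (nat_lit 3014) (.e (nat_lit 1201) (nat_lit 88) (.e (nat_lit 65630) (nat_lit 14) (.e (nat_lit 401459) (nat_lit 13) (.e (nat_lit 483372) (nat_lit 21) (.e (nat_lit 327424) (nat_lit 0) .nil))))) .nil))) (.nd (nat_lit 6) 
(.lf (nat_lit 32815) (.g (nat_lit 3960) (.e (nat_lit 1201) (nat_lit 88) (.e (nat_lit 65630) (nat_lit 14) (.e (nat_lit 401459) (nat_lit 13) (.e (nat_lit 483344) (nat_lit 17) (.e (nat_lit 6434) (nat_lit 343) (.e (nat_lit 1288) (nat_lit 95) (.e (nat_lit 123184) (nat_lit 264) .nil))))))) (.g (nat_lit 6) .nil .nil))) 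
(.lf (nat_lit 32879) (.g (nat_lit 2287) (.e (nat_lit 1201) (nat_lit 88) (.e (nat_lit 65630) (nat_lit 14) (.e (nat_lit 401459) (nat_lit 13) (.e (nat_lit 483379) (nat_lit 23) .nil)))) .nil)))) (.nd (nat_lit 5) (.nd (nat_lit 6) 
(.lf (nat_lit 32799) (.g (nat_lit 3377) (.e (nat_lit 1201) (nat_lit 88) (.e (nat_lit 65630) (nat_lit 14) (.e (nat_lit 401459) (nat_lit 13) (.e (nat_lit 483344) (nat_lit 17) (.e (nat_lit 6152) (nat_lit 332) (.e (nat_lit 2540) (nat_lit 158) (.e (nat_lit 8433) (nat_lit 138) .nil))))))) (.g (nat_lit 4) .nil .nil))) 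
(.lf (nat_lit 32863) (.g (nat_lit 4576) (.e (nat_lit 1201) (nat_lit 88) (.e (nat_lit 65630) (nat_lit 14) (.e (nat_lit 401459) (nat_lit 13) (.e (nat_lit 483372) (nat_lit 21) (.e (nat_lit 319504) (nat_lit 10) .nil))))) .nil))) (.nd (nat_lit 6) 
(.lf (nat_lit 32831) (.g (nat_lit 2949) (.e (nat_lit 1201) (nat_lit 88) (.e (nat_lit 65630) (nat_lit 14) (.e (nat_lit 401459) (nat_lit 13) (.e (nat_lit 483350) (nat_lit 17) (.e (nat_lit 6239) (nat_lit 336) .nil))))) .nil)) 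
(.lf (nat_lit 32895) (.g (nat_lit 3226) (.e (nat_lit 1201) (nat_lit 88) (.e (nat_lit 65630) (nat_lit 14) (.e (nat_lit 401459) (nat_lit 13) (.e (nat_lit 483391) (nat_lit 23) (.e (nat_lit 336035) (nat_lit 4) (.e (nat_lit 123185) (nat_lit 264) .nil)))))) (.g (nat_lit 4) .nil .nil))))))))))

noncomputable def tv462 : DT := (.nd (nat_lit 0) (.nd (nat_lit 1) (.nd (nat_lit 2) (.nd (nat_lit 3) (.nd (nat_lit 4) (.nd (nat_lit 5) (.nd (nat_lit 6) 
(.lf (nat_lit 32896) (.g (nat_lit 2809) (.e (nat_lit 1201) (nat_lit 88) (.e (nat_lit 65630) (nat_lit 14) (.e (nat_lit 401459) (nat_lit 13) (.e (nat_lit 483392) (nat_lit 23) .nil)))) .nil)) 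
(.lf (nat_lit 32960) (.g (nat_lit 2176) (.e (nat_lit 1202) (nat_lit 88) (.e (nat_lit 65627) (nat_lit 13) (.e (nat_lit 393301) (nat_lit 27) (.e (nat_lit 491546) (nat_lit 9) (.e (nat_lit 335997) (nat_lit 1) (.e (nat_lit 57660) (nat_lit 152) .nil)))))) (.g (nat_lit 4) .nil .nil)))) (.nd (nat_lit 6) 
(.lf (nat_lit 32928) (.g (nat_lit 3646) (.e (nat_lit 1201) (nat_lit 88) (.e (nat_lit 65630) (nat_lit 14) (.e (nat_lit 401459) (nat_lit 13) (.e (nat_lit 483411) (nat_lit 27) (.e (nat_lit 401414) (nat_lit 0) (.e (nat_lit 2438) (nat_lit 157) (.e (nat_lit 4555) (nat_lit 269) .nil))))))) (.g (nat_lit 4) .nil .nil))) 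
(.lf (nat_lit 32992) (.g (nat_lit 2228) (.e (nat_lit 1203) (nat_lit 88) (.e (nat_lit 65571) (nat_lit 3) (.e (nat_lit 98359) (nat_lit 26) (.e (nat_lit 426286) (nat_lit 10) (.e (nat_lit 434245) (nat_lit 28) (.e (nat_lit 573474) (nat_lit 12) (.e (nat_lit 57356) (nat_lit 0) (.e (nat_lit 7147) (nat_lit 382) .nil)))))))) (.g (nat_lit 4) .nil .nil))))) (.nd (nat_lit 5) (.nd (nat_lit 6) 
(.lf (nat_lit 32912) (.g (nat_lit 2227) (.e (nat_lit 1201) (nat_lit 88) (.e (nat_lit 65630) (nat_lit 14) (.e (nat_lit 401459) (nat_lit 13) (.e (nat_lit 483395) (nat_lit 24) (.e (nat_lit 344103) (nat_lit 18) (.e (nat_lit 5817) (nat_lit 320) .nil)))))) (.g (nat_lit 4) .nil .nil))) 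
(.lf (nat_lit 32976) (.g (nat_lit 2928) (.e (nat_lit 1202) (nat_lit 88) (.e (nat_lit 65630) (nat_lit 14) (.e (nat_lit 401459) (nat_lit 13) (.e (nat_lit 483393) (nat_lit 23) .nil)))) .nil))) (.nd (nat_lit 6) 
(.lf (nat_lit 32944) (.g (nat_lit 2485) (.e (nat_lit 1202) (nat_lit 88) (.e (nat_lit 65571) (nat_lit 3) (.e (nat_lit 98372) (nat_lit 29) (.e (nat_lit 450579) (nat_lit 5) (.e (nat_lit 532484) (nat_lit 0) .nil))))) .nil)) 
(.lf (nat_lit 33008) (.g (nat_lit 1773) (.e (nat_lit 1203) (nat_lit 88) (.e (nat_lit 65626) (nat_lit 13) (.e (nat_lit 393260) (nat_lit 21) (.e (nat_lit 409623) (nat_lit 10) (.e (nat_lit 5293) (nat_lit 298) (.e (nat_lit 1176) (nat_lit 87) (.e (nat_lit 57655) (nat_lit 152) .nil))))))) (.g (nat_lit 5) .nil .nil)))))) (.nd (nat_lit 4) (.nd (nat_lit 5) (.nd (nat_lit 6) 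
(.lf (nat_lit 32904) (.g (nat_lit 2247) (.e (nat_lit 1201) (nat_lit 88) (.e (nat_lit 65630) (nat_lit 14) (.e (nat_lit 401459) (nat_lit 13) (.e (nat_lit 483394) (nat_lit 24) (.e (nat_lit 344089) (nat_lit 18) .nil))))) .nil)) 
(.lf (nat_lit 32968) (.g (nat_lit 2347) (.e (nat_lit 1202) (nat_lit 88) (.e (nat_lit 65630) (nat_lit 14) (.e (nat_lit 401428) (nat_lit 3) (.e (nat_lit 204866) (nat_lit 28) (.e (nat_lit 352318) (nat_lit 24) .nil))))) .nil))) (.nd (nat_lit 6) 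
(.lf (nat_lit 32936) (.g (nat_lit 2387) (.e (nat_lit 1201) (nat_lit 88) (.e (nat_lit 65651) (nat_lit 27) (.e (nat_lit 426500) (nat_lit 27) (.e (nat_lit 336184) (nat_lit 11) (.e (nat_lit 368676) (nat_lit 21) (.e (nat_lit 516117) (nat_lit 1) (.e (nat_lit 164159) (nat_lit 152) .nil))))))) (.g (nat_lit 6) .nil .nil))) 
(.lf (nat_lit 33000) (.g (nat_lit 2270) (.e (nat_lit 1203) (nat_lit 88) (.e (nat_lit 65571) (nat_lit 3) (.e (nat_lit 98373) (nat_lit 29) (.e (nat_lit 450587) (nat_lit 10) (.e (nat_lit 573478) (nat_lit 12) .nil))))) .nil)))) (.nd (nat_lit 5) (.nd (nat_lit 6) 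
(.lf (nat_lit 32920) (.g (nat_lit 2369) (.e (nat_lit 1201) (nat_lit 88) (.e (nat_lit 65630) (nat_lit 14) (.e (nat_lit 401459) (nat_lit 13) (.e (nat_lit 483399) (nat_lit 25) .nil)))) .nil)) 
(.lf (nat_lit 32984) (.g (nat_lit 2331) (.e (nat_lit 1203) (nat_lit 88) (.e (nat_lit 65568) (nat_lit 2) (.e (nat_lit 90170) (nat_lit 13) (.e (nat_lit 172113) (nat_lit 10) (.e (nat_lit 434245) (nat_lit 28) .nil))))) .nil))) (.nd (nat_lit 6) 
(.lf (nat_lit 32952) (.g (nat_lit 2335) (.e (nat_lit 1202) (nat_lit 88) (.e (nat_lit 65586) (nat_lit 7) (.e (nat_lit 319531) (nat_lit 16) (.e (nat_lit 286759) (nat_lit 12) (.e (nat_lit 385092) (nat_lit 49) (.e (nat_lit 778336) (nat_lit 9) (.e (nat_lit 2612) (nat_lit 163) (.e (nat_lit 164221) (nat_lit 181) .nil)))))))) (.g (nat_lit 4) .nil .nil))) 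
(.lf (nat_lit 33016) (.g (nat_lit 2904) (.e (nat_lit 1203) (nat_lit 88) (.e (nat_lit 65629) (nat_lit 14) (.e (nat_lit 401454) (nat_lit 12) (.e (nat_lit 475214) (nat_lit 42) .nil)))) .nil)))))) (.nd (nat_lit 3) (.nd (nat_lit 4) (.nd (nat_lit 5) (.nd (nat_lit 6) 
(.lf (nat_lit 32900) (.g (nat_lit 3338) (.e (nat_lit 1201) (nat_lit 88) (.e (nat_lit 65630) (nat_lit 14) (.e (nat_lit 401459) (nat_lit 13) (.e (nat_lit 483393) (nat_lit 23) (.e (nat_lit 336030) (nat_lit 4) (.e (nat_lit 123182) (nat_lit 264) .nil)))))) (.g (nat_lit 4) .nil .nil))) 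
(.lf (nat_lit 32964) (.g (nat_lit 2897) (.e (nat_lit 1202) (nat_lit 88) (.e (nat_lit 65628) (nat_lit 14) (.e (nat_lit 401454) (nat_lit 12) (.e (nat_lit 475214) (nat_lit 42) .nil)))) .nil))) (.nd (nat_lit 6) 
(.lf (nat_lit 32932) (.g (nat_lit 1496) (.e (nat_lit 1201) (nat_lit 88) (.e (nat_lit 65649) (nat_lit 27) (.e (nat_lit 426523) (nat_lit 27) (.e (nat_lit 336194) (nat_lit 12) (.e (nat_lit 385066) (nat_lit 26) (.e (nat_lit 532501) (nat_lit 1) (.e (nat_lit 57830) (nat_lit 250) .nil))))))) (.g (nat_lit 4) .nil .nil))) 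
(.lf (nat_lit 32996) (.g (nat_lit 1459) (.e (nat_lit 1203) (nat_lit 88) (.e (nat_lit 65571) (nat_lit 3) (.e (nat_lit 98372) (nat_lit 29) (.e (nat_lit 450586) (nat_lit 10) .nil)))) .nil)))) (.nd (nat_lit 5) (.nd (nat_lit 6) 
(.lf (nat_lit 32916) (.g (nat_lit 3092) (.e (nat_lit 1201) (nat_lit 88) (.e (nat_lit 65630) (nat_lit 14) (.e (nat_lit 401459) (nat_lit 13) (.e (nat_lit 483396) (nat_lit 24) (.e (nat_lit 344104) (nat_lit 18) .nil))))) .nil)) 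
(.lf (nat_lit 32980) (.g (nat_lit 2988) (.e (nat_lit 1202) (nat_lit 88) (.e (nat_lit 65653) (nat_lit 27) (.e (nat_lit 426500) (nat_lit 27) (.e (nat_lit 336087) (nat_lit 9) (.e (nat_lit 336019) (nat_lit 3) (.e (nat_lit 98333) (nat_lit 18) (.e (nat_lit 164156) (nat_lit 152) .nil))))))) (.g (nat_lit 0) .nil .nil)))) (.nd (nat_lit 6) 
(.lf (nat_lit 32948) (.g (nat_lit 2635) (.e (nat_lit 1202) (nat_lit 88) (.e (nat_lit 65571) (nat_lit 3) (.e (nat_lit 98373) (nat_lit 29) (.e (nat_lit 450588) (nat_lit 10) (.e (nat_lit 573473) (nat_lit 12) .nil))))) .nil)) 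
(.lf (nat_lit 33012) (.g (nat_lit 2794) (.e (nat_lit 1203) (nat_lit 88) (.e (nat_lit 65627) (nat_lit 13) (.e (nat_lit 393301) (nat_lit 27) (.e (nat_lit 491560) (nat_lit 10) (.e (nat_lit 344097) (nat_lit 18) (.e (nat_lit 7147) (nat_lit 382) .nil)))))) (.g (nat_lit 5) .nil .nil)))))) (.nd (nat_lit 4) (.nd (nat_lit 5) (.nd (nat_lit 6) 
(.lf (nat_lit 32908) (.g (nat_lit 2817) (.e (nat_lit 1201) (nat_lit 88) (.e (nat_lit 65630) (nat_lit 14) (.e (nat_lit 401459) (nat_lit 13) (.e (nat_lit 483394) (nat_lit 24) (.e (nat_lit 344104) (nat_lit 18) (.e (nat_lit 5817) (nat_lit 320) .nil)))))) (.g (nat_lit 4) .nil .nil))) 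
(.lf (nat_lit 32972) (.g (nat_lit 3209) (.e (nat_lit 1202) (nat_lit 88) (.e (nat_lit 65630) (nat_lit 14) (.e (nat_lit 401454) (nat_lit 12) (.e (nat_lit 475213) (nat_lit 42) .nil)))) .nil))) (.nd (nat_lit 6) 
(.lf (nat_lit 32940) (.g (nat_lit 826) (.e (nat_lit 1202) (nat_lit 88) (.e (nat_lit 65571) (nat_lit 3) (.e (nat_lit 98369) (nat_lit 28) .nil))) .nil)) 
(.lf (nat_lit 33004) (.g (nat_lit 2080) (.e (nat_lit 1203) (nat_lit 88) (.e (nat_lit 65610) (nat_lit 10) (.e (nat_lit 344097) (nat_lit 18) (.e (nat_lit 7270) (nat_lit 385) .nil)))) .nil)))) (.nd (nat_lit 5) (.nd (nat_lit 6) 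
(.lf (nat_lit 32924) (.g (nat_lit 3244) (.e (nat_lit 1201) (nat_lit 88) (.e (nat_lit 65630) (nat_lit 14) (.e (nat_lit 401459) (nat_lit 13) (.e (nat_lit 483411) (nat_lit 27) (.e (nat_lit 401408) (nat_lit 0) .nil))))) .nil)) 
(.lf (nat_lit 32988) (.g (nat_lit 4235) (.e (nat_lit 1203) (nat_lit 88) (.e (nat_lit 65570) (nat_lit 3) (.e (nat_lit 98373) (nat_lit 29) (.e (nat_lit 450588) (nat_lit 10) (.e (nat_lit 573473) (nat_lit 12) (.e (nat_lit 57354) (nat_lit 0) (.e (nat_lit 7147) (nat_lit 382) .nil))))))) (.g (nat_lit 6) .nil .nil)))) (.nd (nat_lit 6) 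
(.lf (nat_lit 32956) (.g (nat_lit 2627) (.e (nat_lit 1202) (nat_lit 88) (.e (nat_lit 65624) (nat_lit 12) (.e (nat_lit 385106) (nat_lit 50) (.e (nat_lit 786483) (nat_lit 30) (.e (nat_lit 360451) (nat_lit 0) .nil))))) .nil)) 
(.lf (nat_lit 33020) (.g (nat_lit 3576) (.e (nat_lit 1203) (nat_lit 88) (.e (nat_lit 65630) (nat_lit 14) (.e (nat_lit 401425) (nat_lit 2) (.e (nat_lit 196672) (nat_lit 15) (.e (nat_lit 81957) (nat_lit 24) .nil))))) .nil))))))) (.nd (nat_lit 2) (.nd (nat_lit 3) (.nd (nat_lit 4) (.nd (nat_lit 5) (.nd (nat_lit 6) 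
(.lf (nat_lit 32898) (.g (nat_lit 3228) (.e (nat_lit 1201) (nat_lit 88) (.e (nat_lit 65630) (nat_lit 14) (.e (nat_lit 401459) (nat_lit 13) (.e (nat_lit 483393) (nat_lit 23) (.e (nat_lit 335893) (nat_lit 0) .nil))))) .nil)) 
(.lf (nat_lit 32962) (.g (nat_lit 2263) (.e (nat_lit 1202) (nat_lit 88) (.e (nat_lit 65628) (nat_lit 14) (.e (nat_lit 401454) (nat_lit 12) (.e (nat_lit 475212) (nat_lit 42) .nil)))) .nil))) (.nd (nat_lit 6) 
(.lf (nat_lit 32930) (.g (nat_lit 2400) (.e (nat_lit 1201) (nat_lit 88) (.e (nat_lit 65642) (nat_lit 15) (.e (nat_lit 3632) (nat_lit 227) (.e (nat_lit 778323) (nat_lit 5) (.e (nat_lit 81664) (nat_lit 37) (.e (nat_lit 180225) (nat_lit 0) (.e (nat_lit 5982) (nat_lit 326) .nil))))))) (.g (nat_lit 4) .nil .nil))) 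
(.lf (nat_lit 32994) (.g (nat_lit 2081) (.e (nat_lit 1203) (nat_lit 88) (.e (nat_lit 65571) (nat_lit 3) (.e (nat_lit 98359) (nat_lit 26) (.e (nat_lit 426286) (nat_lit 10) (.e (nat_lit 434248) (nat_lit 28) (.e (nat_lit 573475) (nat_lit 12) (.e (nat_lit 57356) (nat_lit 0) (.e (nat_lit 7147) (nat_lit 382) .nil)))))))) (.g (nat_lit 4) .nil .nil))))) (.nd (nat_lit 5) (.nd (nat_lit 6) 
(.lf (nat_lit 32914) (.g (nat_lit 2269) (.e (nat_lit 1201) (nat_lit 88) (.e (nat_lit 65630) (nat_lit 14) (.e (nat_lit 401459) (nat_lit 13) (.e (nat_lit 483396) (nat_lit 24) .nil)))) .nil)) 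
(.lf (nat_lit 32978) (.g (nat_lit 2880) (.e (nat_lit 1202) (nat_lit 88) (.e (nat_lit 65630) (nat_lit 14) (.e (nat_lit 401459) (nat_lit 13) (.e (nat_lit 483396) (nat_lit 24) .nil)))) .nil))) (.nd (nat_lit 6) 
(.lf (nat_lit 32946) (.g (nat_lit 1636) (.e (nat_lit 1202) (nat_lit 88) (.e (nat_lit 65571) (nat_lit 3) (.e (nat_lit 98372) (nat_lit 29) (.e (nat_lit 450586) (nat_lit 10) .nil)))) .nil)) 
(.lf (nat_lit 33010) (.g (nat_lit 1871) (.e (nat_lit 1203) (nat_lit 88) (.e (nat_lit 65627) (nat_lit 13) (.e (nat_lit 393301) (nat_lit 27) (.e (nat_lit 491558) (nat_lit 10) (.e (nat_lit 344097) (nat_lit 18) .nil))))) .nil))))) (.nd (nat_lit 4) (.nd (nat_lit 5) (.nd (nat_lit 6) 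
(.lf (nat_lit 32906) (.g (nat_lit 2602) (.e (nat_lit 1201) (nat_lit 88) (.e (nat_lit 65630) (nat_lit 14) (.e (nat_lit 401459) (nat_lit 13) (.e (nat_lit 483394) (nat_lit 24) (.e (nat_lit 344104) (nat_lit 18) (.e (nat_lit 5815) (nat_lit 320) .nil)))))) (.g (nat_lit 4) .nil .nil))) 
(.lf (nat_lit 32970) (.g (nat_lit 2447) (.e (nat_lit 1202) (nat_lit 88) (.e (nat_lit 65630) (nat_lit 14) (.e (nat_lit 401454) (nat_lit 12) (.e (nat_lit 475212) (nat_lit 42) .nil)))) .nil))) (.nd (nat_lit 6) 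
(.lf (nat_lit 32938) (.g (nat_lit 2909) (.e (nat_lit 1202) (nat_lit 88) (.e (nat_lit 65570) (nat_lit 3) (.e (nat_lit 98373) (nat_lit 29) (.e (nat_lit 450588) (nat_lit 10) (.e (nat_lit 573473) (nat_lit 12) .nil))))) .nil)) 
(.lf (nat_lit 33002) (.g (nat_lit 2445) (.e (nat_lit 1203) (nat_lit 88) (.e (nat_lit 65586) (nat_lit 7) (.e (nat_lit 319531) (nat_lit 16) (.e (nat_lit 286756) (nat_lit 10) (.e (nat_lit 344160) (nat_lit 37) .nil))))) .nil)))) (.nd (nat_lit 5) (.nd (nat_lit 6) 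
(.lf (nat_lit 32922) (.g (nat_lit 1936) (.e (nat_lit 1201) (nat_lit 88) (.e (nat_lit 65630) (nat_lit 14) (.e (nat_lit 401459) (nat_lit 13) (.e (nat_lit 483410) (nat_lit 27) .nil)))) .nil)) 
(.lf (nat_lit 32986) (.g (nat_lit 2817) (.e (nat_lit 1203) (nat_lit 88) (.e (nat_lit 65569) (nat_lit 3) (.e (nat_lit 98373) (nat_lit 29) (.e (nat_lit 450588) (nat_lit 10) (.e (nat_lit 573475) (nat_lit 12) (.e (nat_lit 57354) (nat_lit 0) (.e (nat_lit 7147) (nat_lit 382) .nil))))))) (.g (nat_lit 4) .nil .nil)))) (.nd (nat_lit 6) 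
(.lf (nat_lit 32954) (.g (nat_lit 3805) (.e (nat_lit 1202) (nat_lit 88) (.e (nat_lit 65586) (nat_lit 7) (.e (nat_lit 319531) (nat_lit 16) (.e (nat_lit 286759) (nat_lit 12) (.e (nat_lit 385094) (nat_lit 49) (.e (nat_lit 778317) (nat_lit 3) (.e (nat_lit 57354) (nat_lit 0) (.e (nat_lit 6286) (nat_lit 337) .nil)))))))) (.g (nat_lit 6) .nil .nil))) 
(.lf (nat_lit 33018) (.g (nat_lit 2026) (.e (nat_lit 1203) (nat_lit 88) (.e (nat_lit 65630) (nat_lit 14) (.e (nat_lit 401425) (nat_lit 2) (.e (nat_lit 196666) (nat_lit 13) (.e (nat_lit 65617) (nat_lit 10) (.e (nat_lit 344091) (nat_lit 18) (.e (nat_lit 3928) (nat_lit 239) .nil))))))) (.g (nat_lit 4) .nil .nil))))))) (.nd (nat_lit 3) (.nd (nat_lit 4) (.nd (nat_lit 5) (.nd (nat_lit 6) 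
(.lf (nat_lit 32902) (.g (nat_lit 1998) (.e (nat_lit 1201) (nat_lit 88) (.e (nat_lit 65630) (nat_lit 14) (.e (nat_lit 401459) (nat_lit 13) (.e (nat_lit 491264) (nat_lit 23) .nil)))) .nil)) 
(.lf (nat_lit 32966) (.g (nat_lit 2278) (.e (nat_lit 1202) (nat_lit 88) (.e (nat_lit 65630) (nat_lit 14) (.e (nat_lit 401425) (nat_lit 2) (.e (nat_lit 196666) (nat_lit 13) (.e (nat_lit 65617) (nat_lit 10) .nil))))) .nil))) (.nd (nat_lit 6) 
(.lf (nat_lit 32934) (.g (nat_lit 1685) (.e (nat_lit 1201) (nat_lit 88) (.e (nat_lit 65651) (nat_lit 27) (.e (nat_lit 426497) (nat_lit 27) (.e (nat_lit 336076) (nat_lit 9) (.e (nat_lit 336324) (nat_lit 18) (.e (nat_lit 204830) (nat_lit 18) (.e (nat_lit 57830) (nat_lit 250) .nil))))))) (.g (nat_lit 4) .nil .nil))) 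
(.lf (nat_lit 32998) (.g (nat_lit 3242) (.e (nat_lit 1203) (nat_lit 88) (.e (nat_lit 65571) (nat_lit 3) (.e (nat_lit 98372) (nat_lit 29) (.e (nat_lit 450588) (nat_lit 10) (.e (nat_lit 573475) (nat_lit 12) .nil))))) .nil)))) (.nd (nat_lit 5) (.nd (nat_lit 6) 
(.lf (nat_lit 32918) (.g (nat_lit 2775) (.e (nat_lit 1201) (nat_lit 88) (.e (nat_lit 65630) (nat_lit 14) (.e (nat_lit 401459) (nat_lit 13) (.e (nat_lit 483397) (nat_lit 25) .nil)))) .nil)) 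
(.lf (nat_lit 32982) (.g (nat_lit 3065) (.e (nat_lit 1203) (nat_lit 88) (.e (nat_lit 65567) (nat_lit 2) (.e (nat_lit 90170) (nat_lit 13) (.e (nat_lit 172113) (nat_lit 10) (.e (nat_lit 434245) (nat_lit 28) (.e (nat_lit 573474) (nat_lit 12) (.e (nat_lit 57354) (nat_lit 0) (.e (nat_lit 7147) (nat_lit 382) .nil)))))))) (.g (nat_lit 5) .nil .nil)))) (.nd (nat_lit 6) 
(.lf (nat_lit 32950) (.g (nat_lit 2671) (.e (nat_lit 1202) (nat_lit 88) (.e (nat_lit 65571) (nat_lit 3) (.e (nat_lit 98373) (nat_lit 29) (.e (nat_lit 450588) (nat_lit 10) (.e (nat_lit 573475) (nat_lit 12) .nil))))) .nil)) 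
(.lf (nat_lit 33014) (.g (nat_lit 2897) (.e (nat_lit 1203) (nat_lit 88) (.e (nat_lit 65628) (nat_lit 14) (.e (nat_lit 401454) (nat_lit 12) (.e (nat_lit 475214) (nat_lit 42) .nil)))) .nil))))) (.nd (nat_lit 4) (.nd (nat_lit 5) (.nd (nat_lit 6) 
(.lf (nat_lit 32910) (.g (nat_lit 2547) (.e (nat_lit 1201) (nat_lit 88) (.e (nat_lit 65630) (nat_lit 14) (.e (nat_lit 401459) (nat_lit 13) (.e (nat_lit 483395) (nat_lit 24) (.e (nat_lit 344089) (nat_lit 18) (.e (nat_lit 5858) (nat_lit 320) .nil)))))) (.g (nat_lit 4) .nil .nil))) 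
(.lf (nat_lit 32974) (.g (nat_lit 3650) (.e (nat_lit 1202) (nat_lit 88) (.e (nat_lit 65630) (nat_lit 14) (.e (nat_lit 401454) (nat_lit 12) (.e (nat_lit 475214) (nat_lit 42) (.e (nat_lit 720956) (nat_lit 25) .nil))))) .nil))) (.nd (nat_lit 6) 
(.lf (nat_lit 32942) (.g (nat_lit 2247) (.e (nat_lit 1202) (nat_lit 88) (.e (nat_lit 65571) (nat_lit 3) (.e (nat_lit 98370) (nat_lit 28) (.e (nat_lit 450304) (nat_lit 3) (.e (nat_lit 98333) (nat_lit 18) (.e (nat_lit 164220) (nat_lit 181) .nil)))))) (.g (nat_lit 5) .nil .nil))) 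
(.lf (nat_lit 33006) (.g (nat_lit 2203) (.e (nat_lit 1203) (nat_lit 88) (.e (nat_lit 65625) (nat_lit 13) (.e (nat_lit 393301) (nat_lit 27) (.e (nat_lit 491560) (nat_lit 10) (.e (nat_lit 344097) (nat_lit 18) .nil))))) .nil)))) (.nd (nat_lit 5) (.nd (nat_lit 6) 
(.lf (nat_lit 32926) (.g (nat_lit 3795) (.e (nat_lit 1201) (nat_lit 88) (.e (nat_lit 65630) (nat_lit 14) (.e (nat_lit 401459) (nat_lit 13) (.e (nat_lit 483411) (nat_lit 27) (.e (nat_lit 401414) (nat_lit 0) (.e (nat_lit 2424) (nat_lit 157) (.e (nat_lit 4556) (nat_lit 269) .nil))))))) (.g (nat_lit 4) .nil .nil))) 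
(.lf (nat_lit 32990) (.g (nat_lit 3719) (.e (nat_lit 1203) (nat_lit 88) (.e (nat_lit 65570) (nat_lit 3) (.e (nat_lit 98373) (nat_lit 29) (.e (nat_lit 450588) (nat_lit 10) (.e (nat_lit 573475) (nat_lit 12) (.e (nat_lit 57356) (nat_lit 0) (.e (nat_lit 7147) (nat_lit 382) .nil))))))) (.g (nat_lit 6) .nil .nil)))) (.nd (nat_lit 6) 
(.lf (nat_lit 32958) (.g (nat_lit 1526) (.e (nat_lit 1202) (nat_lit 88) (.e (nat_lit 65627) (nat_lit 13) (.e (nat_lit 393299) (nat_lit 27) (.e (nat_lit 491546) (nat_lit 9) .nil)))) .nil)) 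
(.lf (nat_lit 33022) (.g (nat_lit 2417) (.e (nat_lit 1203) (nat_lit 88) (.e (nat_lit 65630) (nat_lit 14) (.e (nat_lit 401425) (nat_lit 2) (.e (nat_lit 196674) (nat_lit 15) .nil)))) .nil)))))))) (.nd (nat_lit 1) (.nd (nat_lit 2) (.nd (nat_lit 3) (.nd (nat_lit 4) (.nd (nat_lit 5) (.nd (nat_lit 6) 
(.lf (nat_lit 32897) (.g (nat_lit 2320) (.e (nat_lit 1201) (nat_lit 88) (.e (nat_lit 65630) (nat_lit 14) (.e (nat_lit 401459) (nat_lit 13) (.e (nat_lit 483393) (nat_lit 23) .nil)))) .nil)) 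
(.lf (nat_lit 32961) (.g (nat_lit 2271) (.e (nat_lit 1202) (nat_lit 88) (.e (nat_lit 65628) (nat_lit 14) (.e (nat_lit 401454) (nat_lit 12) (.e (nat_lit 475193) (nat_lit 38) .nil)))) .nil))) (.nd (nat_lit 6) 
(.lf (nat_lit 32929) (.g (nat_lit 2427) (.e (nat_lit 1201) (nat_lit 88) (.e (nat_lit 65642) (nat_lit 15) (.e (nat_lit 3253) (nat_lit 197) (.e (nat_lit 532533) (nat_lit 9) (.e (nat_lit 336211) (nat_lit 13) (.e (nat_lit 393252) (nat_lit 18) (.e (nat_lit 164159) (nat_lit 152) .nil))))))) (.g (nat_lit 5) .nil .nil))) 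
(.lf (nat_lit 32993) (.g (nat_lit 2048) (.e (nat_lit 1203) (nat_lit 88) (.e (nat_lit 65571) (nat_lit 3) (.e (nat_lit 98359) (nat_lit 26) (.e (nat_lit 426286) (nat_lit 10) (.e (nat_lit 434247) (nat_lit 28) .nil))))) .nil)))) (.nd (nat_lit 5) (.nd (nat_lit 6) 
(.lf (nat_lit 32913) (.g (nat_lit 2794) (.e (nat_lit 1201) (nat_lit 88) (.e (nat_lit 65630) (nat_lit 14) (.e (nat_lit 401459) (nat_lit 13) (.e (nat_lit 483395) (nat_lit 24) (.e (nat_lit 344103) (nat_lit 18) (.e (nat_lit 5818) (nat_lit 320) .nil)))))) (.g (nat_lit 5) .nil .nil))) 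
(.lf (nat_lit 32977) (.g (nat_lit 3493) (.e (nat_lit 1202) (nat_lit 88) (.e (nat_lit 65630) (nat_lit 14) (.e (nat_lit 401459) (nat_lit 13) (.e (nat_lit 483393) (nat_lit 23) (.e (nat_lit 335988) (nat_lit 1) .nil))))) .nil))) (.nd (nat_lit 6) 
(.lf (nat_lit 32945) (.g (nat_lit 2491) (.e (nat_lit 1202) (nat_lit 88) (.e (nat_lit 65571) (nat_lit 3) (.e (nat_lit 98372) (nat_lit 29) (.e (nat_lit 450579) (nat_lit 5) (.e (nat_lit 532499) (nat_lit 1) (.e (nat_lit 65280) (nat_lit 221) .nil)))))) (.g (nat_lit 4) .nil .nil))) 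
(.lf (nat_lit 33009) (.g (nat_lit 1019) (.e (nat_lit 1203) (nat_lit 88) (.e (nat_lit 65626) (nat_lit 13) (.e (nat_lit 393300) (nat_lit 27) (.e (nat_lit 491558) (nat_lit 10) .nil)))) .nil))))) (.nd (nat_lit 4) (.nd (nat_lit 5) (.nd (nat_lit 6) 
(.lf (nat_lit 32905) (.g (nat_lit 2203) (.e (nat_lit 1201) (nat_lit 88) (.e (nat_lit 65630) (nat_lit 14) (.e (nat_lit 401459) (nat_lit 13) (.e (nat_lit 483394) (nat_lit 24) (.e (nat_lit 344103) (nat_lit 18) .nil))))) .nil)) 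
(.lf (nat_lit 32969) (.g (nat_lit 2191) (.e (nat_lit 1202) (nat_lit 88) (.e (nat_lit 65630) (nat_lit 14) (.e (nat_lit 401454) (nat_lit 12) (.e (nat_lit 475193) (nat_lit 38) .nil)))) .nil))) (.nd (nat_lit 6) 
(.lf (nat_lit 32937) (.g (nat_lit 2409) (.e (nat_lit 1201) (nat_lit 88) (.e (nat_lit 65651) (nat_lit 27) (.e (nat_lit 426521) (nat_lit 27) (.e (nat_lit 336088) (nat_lit 9) (.e (nat_lit 336019) (nat_lit 3) (.e (nat_lit 98334) (nat_lit 18) (.e (nat_lit 164159) (nat_lit 152) .nil))))))) (.g (nat_lit 5) .nil .nil))) 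
(.lf (nat_lit 33001) (.g (nat_lit 2805) (.e (nat_lit 1203) (nat_lit 88) (.e (nat_lit 65571) (nat_lit 3) (.e (nat_lit 98373) (nat_lit 29) (.e (nat_lit 450588) (nat_lit 10) (.e (nat_lit 573449) (nat_lit 9) .nil))))) .nil)))) (.nd (nat_lit 5) (.nd (nat_lit 6) 
(.lf (nat_lit 32921) (.g (nat_lit 2094) (.e (nat_lit 1201) (nat_lit 88) (.e (nat_lit 65630) (nat_lit 14) (.e (nat_lit 401459) (nat_lit 13) (.e (nat_lit 483400) (nat_lit 25) .nil)))) .nil)) 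
(.lf (nat_lit 32985) (.g (nat_lit 2313) (.e (nat_lit 1203) (nat_lit 88) (.e (nat_lit 65568) (nat_lit 2) (.e (nat_lit 90170) (nat_lit 13) (.e (nat_lit 172113) (nat_lit 10) (.e (nat_lit 434248) (nat_lit 28) .nil))))) .nil))) (.nd (nat_lit 6) 
(.lf (nat_lit 32953) (.g (nat_lit 1794) (.e (nat_lit 1202) (nat_lit 88) (.e (nat_lit 65586) (nat_lit 7) (.e (nat_lit 319531) (nat_lit 16) (.e (nat_lit 286759) (nat_lit 12) (.e (nat_lit 385094) (nat_lit 49) .nil))))) .nil)) 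
(.lf (nat_lit 33017) (.g (nat_lit 1450) (.e (nat_lit 1203) (nat_lit 88) (.e (nat_lit 65630) (nat_lit 14) (.e (nat_lit 401412) (nat_lit 0) (.e (nat_lit 3454) (nat_lit 216) .nil)))) .nil)))))) (.nd (nat_lit 3) (.nd (nat_lit 4) (.nd (nat_lit 5) (.nd (nat_lit 6) 
(.lf (nat_lit 32901) (.g (nat_lit 3197) (.e (nat_lit 1201) (nat_lit 88) (.e (nat_lit 65630) (nat_lit 14) (.e (nat_lit 401459) (nat_lit 13) (.e (nat_lit 483393) (nat_lit 23) (.e (nat_lit 336033) (nat_lit 4) .nil))))) .nil)) 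
(.lf (nat_lit 32965) (.g (nat_lit 958) (.e (nat_lit 1202) (nat_lit 88) (.e (nat_lit 65630) (nat_lit 14) (.e (nat_lit 401425) (nat_lit 2) .nil))) .nil))) (.nd (nat_lit 6) 
(.lf (nat_lit 32933) (.g (nat_lit 1485) (.e (nat_lit 1201) (nat_lit 88) (.e (nat_lit 65649) (nat_lit 27) (.e (nat_lit 426523) (nat_lit 27) (.e (nat_lit 336194) (nat_lit 12) (.e (nat_lit 385066) (nat_lit 26) (.e (nat_lit 532504) (nat_lit 1) (.e (nat_lit 57830) (nat_lit 250) .nil))))))) (.g (nat_lit 4) .nil .nil))) 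
(.lf (nat_lit 32997) (.g (nat_lit 2029) (.e (nat_lit 1203) (nat_lit 88) (.e (nat_lit 65571) (nat_lit 3) (.e (nat_lit 98372) (nat_lit 29) (.e (nat_lit 450586) (nat_lit 10) (.e (nat_lit 573478) (nat_lit 12) .nil))))) .nil)))) (.nd (nat_lit 5) (.nd (nat_lit 6) 
(.lf (nat_lit 32917) (.g (nat_lit 3514) (.e (nat_lit 1201) (nat_lit 88) (.e (nat_lit 65630) (nat_lit 14) (.e (nat_lit 401459) (nat_lit 13) (.e (nat_lit 483396) (nat_lit 24) (.e (nat_lit 344104) (nat_lit 18) (.e (nat_lit 5818) (nat_lit 320) .nil)))))) (.g (nat_lit 4) .nil .nil))) 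
(.lf (nat_lit 32981) (.g (nat_lit 3419) (.e (nat_lit 1202) (nat_lit 88) (.e (nat_lit 65653) (nat_lit 27) (.e (nat_lit 426500) (nat_lit 27) (.e (nat_lit 336088) (nat_lit 9) (.e (nat_lit 336019) (nat_lit 3) (.e (nat_lit 98333) (nat_lit 18) (.e (nat_lit 164156) (nat_lit 152) .nil))))))) (.g (nat_lit 0) .nil .nil)))) (.nd (nat_lit 6) 
(.lf (nat_lit 32949) (.g (nat_lit 2671) (.e (nat_lit 1202) (nat_lit 88) (.e (nat_lit 65571) (nat_lit 3) (.e (nat_lit 98373) (nat_lit 29) (.e (nat_lit 450588) (nat_lit 10) (.e (nat_lit 573473) (nat_lit 12) (.e (nat_lit 57350) (nat_lit 0) (.e (nat_lit 7159) (nat_lit 382) .nil))))))) (.g (nat_lit 4) .nil .nil))) 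
(.lf (nat_lit 33013) (.g (nat_lit 2263) (.e (nat_lit 1203) (nat_lit 88) (.e (nat_lit 65628) (nat_lit 14) (.e (nat_lit 401454) (nat_lit 12) (.e (nat_lit 475212) (nat_lit 42) .nil)))) .nil))))) (.nd (nat_lit 4) (.nd (nat_lit 5) (.nd (nat_lit 6) 
(.lf (nat_lit 32909) (.g (nat_lit 1261) (.e (nat_lit 1201) (nat_lit 88) (.e (nat_lit 65630) (nat_lit 14) (.e (nat_lit 401459) (nat_lit 13) (.e (nat_lit 483395) (nat_lit 24) .nil)))) .nil)) 
(.lf (nat_lit 32973) (.g (nat_lit 3989) (.e (nat_lit 1202) (nat_lit 88) (.e (nat_lit 65630) (nat_lit 14) (.e (nat_lit 401454) (nat_lit 12) (.e (nat_lit 475214) (nat_lit 42) (.e (nat_lit 720955) (nat_lit 25) .nil))))) .nil))) (.nd (nat_lit 6) 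
(.lf (nat_lit 32941) (.g (nat_lit 1509) (.e (nat_lit 1202) (nat_lit 88) (.e (nat_lit 65571) (nat_lit 3) (.e (nat_lit 98370) (nat_lit 28) (.e (nat_lit 450304) (nat_lit 3) .nil)))) .nil)) 
(.lf (nat_lit 33005) (.g (nat_lit 2629) (.e (nat_lit 1203) (nat_lit 88) (.e (nat_lit 65619) (nat_lit 10) (.e (nat_lit 344097) (nat_lit 18) (.e (nat_lit 7270) (nat_lit 385) (.e (nat_lit 122916) (nat_lit 14) .nil))))) .nil)))) (.nd (nat_lit 5) (.nd (nat_lit 6) 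
(.lf (nat_lit 32925) (.g (nat_lit 3304) (.e (nat_lit 1201) (nat_lit 88) (.e (nat_lit 65630) (nat_lit 14) (.e (nat_lit 401459) (nat_lit 13) (.e (nat_lit 483411) (nat_lit 27) (.e (nat_lit 401414) (nat_lit 0) .nil))))) .nil)) 
(.lf (nat_lit 32989) (.g (nat_lit 4972) (.e (nat_lit 1203) (nat_lit 88) (.e (nat_lit 65570) (nat_lit 3) (.e (nat_lit 98373) (nat_lit 29) (.e (nat_lit 450588) (nat_lit 10) (.e (nat_lit 573475) (nat_lit 12) (.e (nat_lit 57354) (nat_lit 0) (.e (nat_lit 7147) (nat_lit 382) .nil))))))) (.g (nat_lit 7) .nil .nil)))) (.nd (nat_lit 6) 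
(.lf (nat_lit 32957) (.g (nat_lit 1178) (.e (nat_lit 1202) (nat_lit 88) (.e (nat_lit 65626) (nat_lit 13) (.e (nat_lit 393300) (nat_lit 27) (.e (nat_lit 491546) (nat_lit 9) .nil)))) .nil)) 
(.lf (nat_lit 33021) (.g (nat_lit 2906) (.e (nat_lit 1203) (nat_lit 88) (.e (nat_lit 65630) (nat_lit 14) (.e (nat_lit 401425) (nat_lit 2) (.e (nat_lit 196673) (nat_lit 15) .nil)))) .nil))))))) (.nd (nat_lit 2) (.nd (nat_lit 3) (.nd (nat_lit 4) (.nd (nat_lit 5) (.nd (nat_lit 6) 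
(.lf (nat_lit 32899) (.g (nat_lit 3007) (.e (nat_lit 1201) (nat_lit 88) (.e (nat_lit 65630) (nat_lit 14) (.e (nat_lit 401459) (nat_lit 13) (.e (nat_lit 483393) (nat_lit 23) (.e (nat_lit 335988) (nat_lit 1) .nil))))) .nil)) 
(.lf (nat_lit 32963) (.g (nat_lit 3010) (.e (nat_lit 1202) (nat_lit 88) (.e (nat_lit 65628) (nat_lit 14) (.e (nat_lit 401454) (nat_lit 12) (.e (nat_lit 475213) (nat_lit 42) .nil)))) .nil))) (.nd (nat_lit 6) 
(.lf (nat_lit 32931) (.g (nat_lit 1947) (.e (nat_lit 1201) (nat_lit 88) (.e (nat_lit 65642) (nat_lit 15) (.e (nat_lit 3632) (nat_lit 227) (.e (nat_lit 778323) (nat_lit 5) (.e (nat_lit 81664) (nat_lit 37) (.e (nat_lit 180226) (nat_lit 0) (.e (nat_lit 5982) (nat_lit 326) .nil))))))) (.g (nat_lit 4) .nil .nil))) 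
(.lf (nat_lit 32995) (.g (nat_lit 1583) (.e (nat_lit 1203) (nat_lit 88) (.e (nat_lit 65571) (nat_lit 3) (.e (nat_lit 98370) (nat_lit 28) (.e (nat_lit 450304) (nat_lit 3) .nil)))) .nil)))) (.nd (nat_lit 5) (.nd (nat_lit 6) 
(.lf (nat_lit 32915) (.g (nat_lit 3140) (.e (nat_lit 1201) (nat_lit 88) (.e (nat_lit 65630) (nat_lit 14) (.e (nat_lit 401459) (nat_lit 13) (.e (nat_lit 483396) (nat_lit 24) (.e (nat_lit 344089) (nat_lit 18) .nil))))) .nil)) 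
(.lf (nat_lit 32979) (.g (nat_lit 2982) (.e (nat_lit 1202) (nat_lit 88) (.e (nat_lit 65630) (nat_lit 14) (.e (nat_lit 401459) (nat_lit 13) (.e (nat_lit 483411) (nat_lit 27) .nil)))) .nil))) (.nd (nat_lit 6) 
(.lf (nat_lit 32947) (.g (nat_lit 2254) (.e (nat_lit 1202) (nat_lit 88) (.e (nat_lit 65571) (nat_lit 3) (.e (nat_lit 98372) (nat_lit 29) (.e (nat_lit 450586) (nat_lit 10) (.e (nat_lit 573473) (nat_lit 12) (.e (nat_lit 57350) (nat_lit 0) (.e (nat_lit 7159) (nat_lit 382) .nil))))))) (.g (nat_lit 4) .nil .nil))) 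
(.lf (nat_lit 33011) (.g (nat_lit 2227) (.e (nat_lit 1203) (nat_lit 88) (.e (nat_lit 65627) (nat_lit 13) (.e (nat_lit 393301) (nat_lit 27) (.e (nat_lit 491560) (nat_lit 10) (.e (nat_lit 344097) (nat_lit 18) (.e (nat_lit 7146) (nat_lit 382) .nil)))))) (.g (nat_lit 4) .nil .nil)))))) (.nd (nat_lit 4) (.nd (nat_lit 5) (.nd (nat_lit 6) 
(.lf (nat_lit 32907) (.g (nat_lit 3121) (.e (nat_lit 1201) (nat_lit 88) (.e (nat_lit 65630) (nat_lit 14) (.e (nat_lit 401459) (nat_lit 13) (.e (nat_lit 483394) (nat_lit 24) (.e (nat_lit 344104) (nat_lit 18) (.e (nat_lit 5816) (nat_lit 320) .nil)))))) (.g (nat_lit 5) .nil .nil))) 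
(.lf (nat_lit 32971) (.g (nat_lit 3023) (.e (nat_lit 1202) (nat_lit 88) (.e (nat_lit 65630) (nat_lit 14) (.e (nat_lit 401454) (nat_lit 12) (.e (nat_lit 475212) (nat_lit 42) (.e (nat_lit 720956) (nat_lit 25) .nil))))) .nil))) (.nd (nat_lit 6) 
(.lf (nat_lit 32939) (.g (nat_lit 2920) (.e (nat_lit 1202) (nat_lit 88) (.e (nat_lit 65570) (nat_lit 3) (.e (nat_lit 98373) (nat_lit 29) (.e (nat_lit 450588) (nat_lit 10) (.e (nat_lit 573475) (nat_lit 12) .nil))))) .nil)) 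
(.lf (nat_lit 33003) (.g (nat_lit 2750) (.e (nat_lit 1203) (nat_lit 88) (.e (nat_lit 65586) (nat_lit 7) (.e (nat_lit 319534) (nat_lit 16) (.e (nat_lit 286756) (nat_lit 10) (.e (nat_lit 344160) (nat_lit 37) .nil))))) .nil)))) (.nd (nat_lit 5) (.nd (nat_lit 6) 
(.lf (nat_lit 32923) (.g (nat_lit 3193) (.e (nat_lit 1201) (nat_lit 88) (.e (nat_lit 65630) (nat_lit 14) (.e (nat_lit 401459) (nat_lit 13) (.e (nat_lit 483410) (nat_lit 27) (.e (nat_lit 401414) (nat_lit 0) (.e (nat_lit 2425) (nat_lit 157) (.e (nat_lit 4549) (nat_lit 269) .nil))))))) (.g (nat_lit 4) .nil .nil))) 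
(.lf (nat_lit 32987) (.g (nat_lit 1835) (.e (nat_lit 1203) (nat_lit 88) (.e (nat_lit 65570) (nat_lit 3) (.e (nat_lit 98373) (nat_lit 29) (.e (nat_lit 450587) (nat_lit 10) (.e (nat_lit 573478) (nat_lit 12) .nil))))) .nil))) (.nd (nat_lit 6) 
(.lf (nat_lit 32955) (.g (nat_lit 1967) (.e (nat_lit 1202) (nat_lit 88) (.e (nat_lit 65586) (nat_lit 7) (.e (nat_lit 319531) (nat_lit 16) (.e (nat_lit 286759) (nat_lit 12) (.e (nat_lit 385115) (nat_lit 53) (.e (nat_lit 811034) (nat_lit 11) (.e (nat_lit 59) (nat_lit 0) (.e (nat_lit 7160) (nat_lit 382) .nil)))))))) (.g (nat_lit 4) .nil .nil))) 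
(.lf (nat_lit 33019) (.g (nat_lit 2895) (.e (nat_lit 1203) (nat_lit 88) (.e (nat_lit 65630) (nat_lit 14) (.e (nat_lit 401425) (nat_lit 2) (.e (nat_lit 196671) (nat_lit 15) .nil)))) .nil)))))) (.nd (nat_lit 3) (.nd (nat_lit 4) (.nd (nat_lit 5) (.nd (nat_lit 6) 
(.lf (nat_lit 32903) (.g (nat_lit 1267) (.e (nat_lit 1201) (nat_lit 88) (.e (nat_lit 65630) (nat_lit 14) (.e (nat_lit 401459) (nat_lit 13) (.e (nat_lit 483394) (nat_lit 24) .nil)))) .nil)) 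
(.lf (nat_lit 32967) (.g (nat_lit 712) (.e (nat_lit 1202) (nat_lit 88) (.e (nat_lit 65630) (nat_lit 14) (.e (nat_lit 401428) (nat_lit 3) .nil))) .nil))) (.nd (nat_lit 6) 
(.lf (nat_lit 32935) (.g (nat_lit 2896) (.e (nat_lit 1201) (nat_lit 88) (.e (nat_lit 65651) (nat_lit 27) (.e (nat_lit 426500) (nat_lit 27) (.e (nat_lit 336087) (nat_lit 9) (.e (nat_lit 336019) (nat_lit 3) (.e (nat_lit 98334) (nat_lit 18) (.e (nat_lit 164159) (nat_lit 152) .nil))))))) (.g (nat_lit 7) .nil .nil))) 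
(.lf (nat_lit 32999) (.g (nat_lit 2315) (.e (nat_lit 1203) (nat_lit 88) (.e (nat_lit 65571) (nat_lit 3) (.e (nat_lit 98373) (nat_lit 29) (.e (nat_lit 450587) (nat_lit 10) (.e (nat_lit 573477) (nat_lit 12) .nil))))) .nil)))) (.nd (nat_lit 5) (.nd (nat_lit 6) 
(.lf (nat_lit 32919) (.g (nat_lit 2339) (.e (nat_lit 1201) (nat_lit 88) (.e (nat_lit 65630) (nat_lit 14) (.e (nat_lit 401459) (nat_lit 13) (.e (nat_lit 483398) (nat_lit 25) .nil)))) .nil)) 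
(.lf (nat_lit 32983) (.g (nat_lit 1541) (.e (nat_lit 1203) (nat_lit 88) (.e (nat_lit 65568) (nat_lit 2) (.e (nat_lit 90170) (nat_lit 13) (.e (nat_lit 172106) (nat_lit 10) (.e (nat_lit 434244) (nat_lit 28) .nil))))) .nil))) (.nd (nat_lit 6) 
(.lf (nat_lit 32951) (.g (nat_lit 1270) (.e (nat_lit 1202) (nat_lit 88) (.e (nat_lit 65586) (nat_lit 7) (.e (nat_lit 319531) (nat_lit 16) (.e (nat_lit 286748) (nat_lit 9) .nil)))) .nil)) 
(.lf (nat_lit 33015) (.g (nat_lit 2375) (.e (nat_lit 1203) (nat_lit 88) (.e (nat_lit 65629) (nat_lit 14) (.e (nat_lit 401454) (nat_lit 12) (.e (nat_lit 475212) (nat_lit 42) .nil)))) .nil))))) (.nd (nat_lit 4) (.nd (nat_lit 5) (.nd (nat_lit 6) 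
(.lf (nat_lit 32911) (.g (nat_lit 3051) (.e (nat_lit 1201) (nat_lit 88) (.e (nat_lit 65630) (nat_lit 14) (.e (nat_lit 401459) (nat_lit 13) (.e (nat_lit 483395) (nat_lit 24) (.e (nat_lit 344102) (nat_lit 18) (.e (nat_lit 5813) (nat_lit 320) .nil)))))) (.g (nat_lit 4) .nil .nil))) 
(.lf (nat_lit 32975) (.g (nat_lit 691) (.e (nat_lit 1202) (nat_lit 88) (.e (nat_lit 65630) (nat_lit 14) (.e (nat_lit 401459) (nat_lit 13) .nil))) .nil))) (.nd (nat_lit 6) 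
(.lf (nat_lit 32943) (.g (nat_lit 2316) (.e (nat_lit 1202) (nat_lit 88) (.e (nat_lit 65571) (nat_lit 3) (.e (nat_lit 98370) (nat_lit 28) (.e (nat_lit 450304) (nat_lit 3) (.e (nat_lit 98333) (nat_lit 18) (.e (nat_lit 164221) (nat_lit 181) .nil)))))) (.g (nat_lit 5) .nil .nil))) 
(.lf (nat_lit 33007) (.g (nat_lit 2802) (.e (nat_lit 1203) (nat_lit 88) (.e (nat_lit 65626) (nat_lit 13) (.e (nat_lit 393238) (nat_lit 17) (.e (nat_lit 6989) (nat_lit 377) (.e (nat_lit 2777) (nat_lit 178) (.e (nat_lit 286731) (nat_lit 1) (.e (nat_lit 57655) (nat_lit 152) .nil))))))) (.g (nat_lit 6) .nil .nil))))) (.nd (nat_lit 5) (.nd (nat_lit 6) 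
(.lf (nat_lit 32927) (.g (nat_lit 4162) (.e (nat_lit 1201) (nat_lit 88) (.e (nat_lit 65630) (nat_lit 14) (.e (nat_lit 401459) (nat_lit 13) (.e (nat_lit 483411) (nat_lit 27) (.e (nat_lit 401414) (nat_lit 0) (.e (nat_lit 2425) (nat_lit 157) (.e (nat_lit 4556) (nat_lit 269) .nil))))))) (.g (nat_lit 4) .nil .nil))) 
(.lf (nat_lit 32991) (.g (nat_lit 1997) (.e (nat_lit 1203) (nat_lit 88) (.e (nat_lit 65571) (nat_lit 3) (.e (nat_lit 98359) (nat_lit 26) (.e (nat_lit 426286) (nat_lit 10) (.e (nat_lit 434242) (nat_lit 28) .nil))))) .nil))) (.nd (nat_lit 6) 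
(.lf (nat_lit 32959) (.g (nat_lit 2069) (.e (nat_lit 1202) (nat_lit 88) (.e (nat_lit 65627) (nat_lit 13) (.e (nat_lit 393300) (nat_lit 27) (.e (nat_lit 491546) (nat_lit 9) (.e (nat_lit 335997) (nat_lit 1) .nil))))) .nil)) 
(.lf (nat_lit 33023) (.g (nat_lit 736) (.e (nat_lit 1203) (nat_lit 88) (.e (nat_lit 65630) (nat_lit 14) (.e (nat_lit 401428) (nat_lit 3) .nil))) .nil)))))))))

noncomputable def tv463 : DT := (.nd (nat_lit 0) (.nd (nat_lit 1) (.nd (nat_lit 2) (.nd (nat_lit 3) (.nd (nat_lit 4) (.nd (nat_lit 5) 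
(.lf (nat_lit 33024) (.g (nat_lit 1846) (.e (nat_lit 1203) (nat_lit 88) (.e (nat_lit 65630) (nat_lit 14) (.e (nat_lit 401438) (nat_lit 9) (.e (nat_lit 426555) (nat_lit 32) .nil)))) .nil)) 
(.lf (nat_lit 33056) (.g (nat_lit 2551) (.e (nat_lit 1203) (nat_lit 88) (.e (nat_lit 65630) (nat_lit 14) (.e (nat_lit 401459) (nat_lit 13) (.e (nat_lit 483411) (nat_lit 27) .nil)))) .nil))) (.nd (nat_lit 5) 
(.lf (nat_lit 33040) (.g (nat_lit 4073) (.e (nat_lit 1203) (nat_lit 88) (.e (nat_lit 65630) (nat_lit 14) (.e (nat_lit 401454) (nat_lit 12) (.e (nat_lit 475213) (nat_lit 42) (.e (nat_lit 720956) (nat_lit 25) (.e (nat_lit 114711) (nat_lit 21) (.e (nat_lit 57651) (nat_lit 152) .nil))))))) (.g (nat_lit 6) .nil .nil))) 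
(.lf (nat_lit 33072) (.g (nat_lit 2335) (.e (nat_lit 1204) (nat_lit 88) (.e (nat_lit 65586) (nat_lit 7) (.e (nat_lit 319531) (nat_lit 16) (.e (nat_lit 286756) (nat_lit 10) (.e (nat_lit 344160) (nat_lit 37) .nil))))) .nil)))) (.nd (nat_lit 4) (.nd (nat_lit 5) 
(.lf (nat_lit 33032) (.g (nat_lit 3834) (.e (nat_lit 1203) (nat_lit 88) (.e (nat_lit 65630) (nat_lit 14) (.e (nat_lit 401454) (nat_lit 12) (.e (nat_lit 475212) (nat_lit 42) (.e (nat_lit 720954) (nat_lit 25) (.e (nat_lit 114710) (nat_lit 21) (.e (nat_lit 57655) (nat_lit 152) .nil))))))) (.g (nat_lit 6) .nil .nil))) 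
(.lf (nat_lit 33064) (.g (nat_lit 4359) (.e (nat_lit 1204) (nat_lit 88) (.e (nat_lit 65570) (nat_lit 3) (.e (nat_lit 98373) (nat_lit 29) (.e (nat_lit 450588) (nat_lit 10) (.e (nat_lit 573473) (nat_lit 12) (.e (nat_lit 57354) (nat_lit 0) (.e (nat_lit 7147) (nat_lit 382) .nil))))))) (.g (nat_lit 6) .nil .nil)))) (.nd (nat_lit 5) 
(.lf (nat_lit 33048) (.g (nat_lit 3265) (.e (nat_lit 1203) (nat_lit 88) (.e (nat_lit 65630) (nat_lit 14) (.e (nat_lit 401454) (nat_lit 12) (.e (nat_lit 475214) (nat_lit 42) (.e (nat_lit 720956) (nat_lit 25) .nil))))) .nil)) 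
(.lf (nat_lit 33080) (.g (nat_lit 1631) (.e (nat_lit 1204) (nat_lit 88) (.e (nat_lit 65625) (nat_lit 13) (.e (nat_lit 393233) (nat_lit 17) (.e (nat_lit 7593) (nat_lit 407) (.e (nat_lit 73732) (nat_lit 0) (.e (nat_lit 7147) (nat_lit 382) .nil)))))) (.g (nat_lit 5) .nil .nil)))))) (.nd (nat_lit 3) (.nd (nat_lit 4) (.nd (nat_lit 5) 
(.lf (nat_lit 33028) (.g (nat_lit 3105) (.e (nat_lit 1203) (nat_lit 88) (.e (nat_lit 65630) (nat_lit 14) (.e (nat_lit 401453) (nat_lit 12) (.e (nat_lit 475214) (nat_lit 42) (.e (nat_lit 720956) (nat_lit 25) .nil))))) .nil)) 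
(.lf (nat_lit 33060) (.g (nat_lit 3087) (.e (nat_lit 1204) (nat_lit 88) (.e (nat_lit 65566) (nat_lit 2) (.e (nat_lit 90170) (nat_lit 13) (.e (nat_lit 172113) (nat_lit 10) (.e (nat_lit 434248) (nat_lit 28) (.e (nat_lit 573475) (nat_lit 12) (.e (nat_lit 57354) (nat_lit 0) (.e (nat_lit 7147) (nat_lit 382) .nil)))))))) (.g (nat_lit 5) .nil .nil)))) (.nd (nat_lit 5) 
(.lf (nat_lit 33044) (.g (nat_lit 3601) (.e (nat_lit 1203) (nat_lit 88) (.e (nat_lit 65630) (nat_lit 14) (.e (nat_lit 401454) (nat_lit 12) (.e (nat_lit 475214) (nat_lit 42) (.e (nat_lit 720954) (nat_lit 25) .nil))))) .nil)) 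
(.lf (nat_lit 33076) (.g (nat_lit 2463) (.e (nat_lit 1204) (nat_lit 88) (.e (nat_lit 65586) (nat_lit 7) (.e (nat_lit 319534) (nat_lit 16) (.e (nat_lit 286756) (nat_lit 10) (.e (nat_lit 344160) (nat_lit 37) .nil))))) .nil)))) (.nd (nat_lit 4) (.nd (nat_lit 5) 
(.lf (nat_lit 33036) (.g (nat_lit 4006) (.e (nat_lit 1203) (nat_lit 88) (.e (nat_lit 65630) (nat_lit 14) (.e (nat_lit 401454) (nat_lit 12) (.e (nat_lit 475212) (nat_lit 42) (.e (nat_lit 720956) (nat_lit 25) (.e (nat_lit 114711) (nat_lit 21) (.e (nat_lit 57653) (nat_lit 152) .nil))))))) (.g (nat_lit 7) .nil .nil))) 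
(.lf (nat_lit 33068) (.g (nat_lit 1412) (.e (nat_lit 1204) (nat_lit 88) (.e (nat_lit 65586) (nat_lit 7) (.e (nat_lit 319531) (nat_lit 16) (.e (nat_lit 286748) (nat_lit 9) (.e (nat_lit 336295) (nat_lit 15) (.e (nat_lit 3757) (nat_lit 229) (.e (nat_lit 794658) (nat_lit 21) (.e (nat_lit 164220) (nat_lit 181) .nil)))))))) (.g (nat_lit 4) .nil .nil)))) (.nd (nat_lit 5) 
(.lf (nat_lit 33052) (.g (nat_lit 4273) (.e (nat_lit 1203) (nat_lit 88) (.e (nat_lit 65630) (nat_lit 14) (.e (nat_lit 401454) (nat_lit 12) (.e (nat_lit 475214) (nat_lit 42) (.e (nat_lit 720956) (nat_lit 25) (.e (nat_lit 114712) (nat_lit 21) (.e (nat_lit 57651) (nat_lit 152) .nil))))))) (.g (nat_lit 7) .nil .nil))) 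
(.lf (nat_lit 33084) (.g (nat_lit 2288) (.e (nat_lit 1204) (nat_lit 88) (.e (nat_lit 65625) (nat_lit 13) (.e (nat_lit 393301) (nat_lit 27) (.e (nat_lit 491546) (nat_lit 9) (.e (nat_lit 335997) (nat_lit 1) .nil))))) .nil)))))) (.nd (nat_lit 2) (.nd (nat_lit 3) (.nd (nat_lit 4) (.nd (nat_lit 5) 
(.lf (nat_lit 33026) (.g (nat_lit 2745) (.e (nat_lit 1203) (nat_lit 88) (.e (nat_lit 65630) (nat_lit 14) (.e (nat_lit 401452) (nat_lit 12) (.e (nat_lit 475214) (nat_lit 42) (.e (nat_lit 720956) (nat_lit 25) .nil))))) .nil)) 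
(.lf (nat_lit 33058) (.g (nat_lit 3577) (.e (nat_lit 1203) (nat_lit 88) (.e (nat_lit 65653) (nat_lit 27) (.e (nat_lit 426500) (nat_lit 27) (.e (nat_lit 336088) (nat_lit 9) (.e (nat_lit 336019) (nat_lit 3) (.e (nat_lit 98333) (nat_lit 18) (.e (nat_lit 164151) (nat_lit 152) .nil))))))) (.g (nat_lit 7) .nil .nil)))) (.nd (nat_lit 5) 
(.lf (nat_lit 33042) (.g (nat_lit 4565) (.e (nat_lit 1203) (nat_lit 88) (.e (nat_lit 65630) (nat_lit 14) (.e (nat_lit 401454) (nat_lit 12) (.e (nat_lit 475213) (nat_lit 42) (.e (nat_lit 720956) (nat_lit 25) (.e (nat_lit 114711) (nat_lit 21) (.e (nat_lit 57655) (nat_lit 152) .nil))))))) (.g (nat_lit 0) .nil .nil))) 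
(.lf (nat_lit 33074) (.g (nat_lit 2323) (.e (nat_lit 1204) (nat_lit 88) (.e (nat_lit 65586) (nat_lit 7) (.e (nat_lit 319534) (nat_lit 16) (.e (nat_lit 286751) (nat_lit 10) .nil)))) .nil)))) (.nd (nat_lit 4) (.nd (nat_lit 5) 
(.lf (nat_lit 33034) (.g (nat_lit 3197) (.e (nat_lit 1203) (nat_lit 88) (.e (nat_lit 65630) (nat_lit 14) (.e (nat_lit 401454) (nat_lit 12) (.e (nat_lit 475212) (nat_lit 42) (.e (nat_lit 720955) (nat_lit 25) (.e (nat_lit 114712) (nat_lit 21) (.e (nat_lit 57651) (nat_lit 152) .nil))))))) (.g (nat_lit 6) .nil .nil))) 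
(.lf (nat_lit 33066) (.g (nat_lit 5095) (.e (nat_lit 1204) (nat_lit 88) (.e (nat_lit 65570) (nat_lit 3) (.e (nat_lit 98373) (nat_lit 29) (.e (nat_lit 450588) (nat_lit 10) (.e (nat_lit 573475) (nat_lit 12) (.e (nat_lit 57354) (nat_lit 0) (.e (nat_lit 7147) (nat_lit 382) .nil))))))) (.g (nat_lit 0) .nil .nil)))) (.nd (nat_lit 5) 
(.lf (nat_lit 33050) (.g (nat_lit 4714) (.e (nat_lit 1203) (nat_lit 88) (.e (nat_lit 65630) (nat_lit 14) (.e (nat_lit 401454) (nat_lit 12) (.e (nat_lit 475214) (nat_lit 42) (.e (nat_lit 720956) (nat_lit 25) (.e (nat_lit 114711) (nat_lit 21) (.e (nat_lit 57653) (nat_lit 152) .nil))))))) (.g (nat_lit 0) .nil .nil))) 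
(.lf (nat_lit 33082) (.g (nat_lit 1333) (.e (nat_lit 1204) (nat_lit 88) (.e (nat_lit 65625) (nat_lit 13) (.e (nat_lit 393265) (nat_lit 22) (.e (nat_lit 417820) (nat_lit 10) (.e (nat_lit 5761) (nat_lit 315) (.e (nat_lit 163850) (nat_lit 0) (.e (nat_lit 6272) (nat_lit 337) .nil))))))) (.g (nat_lit 4) .nil .nil)))))) (.nd (nat_lit 3) (.nd (nat_lit 4) (.nd (nat_lit 5) 
(.lf (nat_lit 33030) (.g (nat_lit 3226) (.e (nat_lit 1203) (nat_lit 88) (.e (nat_lit 65630) (nat_lit 14) (.e (nat_lit 401454) (nat_lit 12) (.e (nat_lit 475193) (nat_lit 38) (.e (nat_lit 688181) (nat_lit 17) (.e (nat_lit 73731) (nat_lit 0) (.e (nat_lit 4452) (nat_lit 263) .nil))))))) (.g (nat_lit 6) .nil .nil))) 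
(.lf (nat_lit 33062) (.g (nat_lit 1905) (.e (nat_lit 1204) (nat_lit 88) (.e (nat_lit 65570) (nat_lit 3) (.e (nat_lit 98372) (nat_lit 29) (.e (nat_lit 450586) (nat_lit 10) (.e (nat_lit 573475) (nat_lit 12) .nil))))) .nil))) (.nd (nat_lit 5) 
(.lf (nat_lit 33046) (.g (nat_lit 3604) (.e (nat_lit 1203) (nat_lit 88) (.e (nat_lit 65630) (nat_lit 14) (.e (nat_lit 401454) (nat_lit 12) (.e (nat_lit 475214) (nat_lit 42) (.e (nat_lit 720955) (nat_lit 25) .nil))))) .nil)) 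
(.lf (nat_lit 33078) (.g (nat_lit 1563) (.e (nat_lit 1204) (nat_lit 88) (.e (nat_lit 65625) (nat_lit 13) (.e (nat_lit 393232) (nat_lit 17) (.e (nat_lit 7593) (nat_lit 407) (.e (nat_lit 73732) (nat_lit 0) (.e (nat_lit 7147) (nat_lit 382) .nil)))))) (.g (nat_lit 4) .nil .nil))))) (.nd (nat_lit 4) (.nd (nat_lit 5) 
(.lf (nat_lit 33038) (.g (nat_lit 3669) (.e (nat_lit 1203) (nat_lit 88) (.e (nat_lit 65630) (nat_lit 14) (.e (nat_lit 401454) (nat_lit 12) (.e (nat_lit 475212) (nat_lit 42) (.e (nat_lit 720956) (nat_lit 25) (.e (nat_lit 114712) (nat_lit 21) (.e (nat_lit 57651) (nat_lit 152) .nil))))))) (.g (nat_lit 7) .nil .nil))) 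
(.lf (nat_lit 33070) (.g (nat_lit 2053) (.e (nat_lit 1204) (nat_lit 88) (.e (nat_lit 65586) (nat_lit 7) (.e (nat_lit 319531) (nat_lit 16) (.e (nat_lit 286753) (nat_lit 10) .nil)))) .nil))) (.nd (nat_lit 5) 
(.lf (nat_lit 33054) (.g (nat_lit 1966) (.e (nat_lit 1203) (nat_lit 88) (.e (nat_lit 65630) (nat_lit 14) (.e (nat_lit 401458) (nat_lit 13) (.e (nat_lit 483393) (nat_lit 23) (.e (nat_lit 335988) (nat_lit 1) .nil))))) .nil)) 
(.lf (nat_lit 33086) (.g (nat_lit 2647) (.e (nat_lit 1204) (nat_lit 88) (.e (nat_lit 65625) (nat_lit 13) (.e (nat_lit 393301) (nat_lit 27) (.e (nat_lit 491558) (nat_lit 10) (.e (nat_lit 344097) (nat_lit 18) (.e (nat_lit 7147) (nat_lit 382) .nil)))))) (.g (nat_lit 5) .nil .nil)))))))) (.nd (nat_lit 1) (.nd (nat_lit 2) (.nd (nat_lit 3) (.nd (nat_lit 4) (.nd (nat_lit 5) 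
(.lf (nat_lit 33025) (.g (nat_lit 3193) (.e (nat_lit 1203) (nat_lit 88) (.e (nat_lit 65630) (nat_lit 14) (.e (nat_lit 401452) (nat_lit 12) (.e (nat_lit 475214) (nat_lit 42) (.e (nat_lit 720954) (nat_lit 25) .nil))))) .nil)) 
(.lf (nat_lit 33057) (.g (nat_lit 3138) (.e (nat_lit 1203) (nat_lit 88) (.e (nat_lit 65653) (nat_lit 27) (.e (nat_lit 426500) (nat_lit 27) (.e (nat_lit 336087) (nat_lit 9) (.e (nat_lit 336019) (nat_lit 3) (.e (nat_lit 98333) (nat_lit 18) (.e (nat_lit 164151) (nat_lit 152) .nil))))))) (.g (nat_lit 7) .nil .nil)))) (.nd (nat_lit 5) 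
(.lf (nat_lit 33041) (.g (nat_lit 4363) (.e (nat_lit 1203) (nat_lit 88) (.e (nat_lit 65630) (nat_lit 14) (.e (nat_lit 401454) (nat_lit 12) (.e (nat_lit 475213) (nat_lit 42) (.e (nat_lit 720956) (nat_lit 25) (.e (nat_lit 114711) (nat_lit 21) (.e (nat_lit 57653) (nat_lit 152) .nil))))))) (.g (nat_lit 0) .nil .nil))) 
(.lf (nat_lit 33073) (.g (nat_lit 2443) (.e (nat_lit 1204) (nat_lit 88) (.e (nat_lit 65586) (nat_lit 7) (.e (nat_lit 319533) (nat_lit 16) (.e (nat_lit 286753) (nat_lit 10) (.e (nat_lit 344160) (nat_lit 37) (.e (nat_lit 647195) (nat_lit 9) (.e (nat_lit 1181) (nat_lit 87) (.e (nat_lit 57653) (nat_lit 152) .nil)))))))) (.g (nat_lit 5) .nil .nil))))) (.nd (nat_lit 4) (.nd (nat_lit 5) 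
(.lf (nat_lit 33033) (.g (nat_lit 2668) (.e (nat_lit 1203) (nat_lit 88) (.e (nat_lit 65630) (nat_lit 14) (.e (nat_lit 401454) (nat_lit 12) (.e (nat_lit 475212) (nat_lit 42) (.e (nat_lit 720955) (nat_lit 25) .nil))))) .nil)) 
(.lf (nat_lit 33065) (.g (nat_lit 2847) (.e (nat_lit 1204) (nat_lit 88) (.e (nat_lit 65570) (nat_lit 3) (.e (nat_lit 98373) (nat_lit 29) (.e (nat_lit 450588) (nat_lit 10) (.e (nat_lit 573475) (nat_lit 12) .nil))))) .nil))) (.nd (nat_lit 5) 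
(.lf (nat_lit 33049) (.g (nat_lit 4423) (.e (nat_lit 1203) (nat_lit 88) (.e (nat_lit 65630) (nat_lit 14) (.e (nat_lit 401454) (nat_lit 12) (.e (nat_lit 475214) (nat_lit 42) (.e (nat_lit 720956) (nat_lit 25) (.e (nat_lit 114711) (nat_lit 21) (.e (nat_lit 57651) (nat_lit 152) .nil))))))) (.g (nat_lit 6) .nil .nil))) 
(.lf (nat_lit 33081) (.g (nat_lit 1778) (.e (nat_lit 1204) (nat_lit 88) (.e (nat_lit 65625) (nat_lit 13) (.e (nat_lit 393234) (nat_lit 17) (.e (nat_lit 7593) (nat_lit 407) (.e (nat_lit 73732) (nat_lit 0) (.e (nat_lit 7147) (nat_lit 382) .nil)))))) (.g (nat_lit 4) .nil .nil)))))) (.nd (nat_lit 3) (.nd (nat_lit 4) (.nd (nat_lit 5) 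
(.lf (nat_lit 33029) (.g (nat_lit 1950) (.e (nat_lit 1203) (nat_lit 88) (.e (nat_lit 65630) (nat_lit 14) (.e (nat_lit 401454) (nat_lit 12) (.e (nat_lit 475193) (nat_lit 38) .nil)))) .nil)) 
(.lf (nat_lit 33061) (.g (nat_lit 2785) (.e (nat_lit 1204) (nat_lit 88) (.e (nat_lit 65569) (nat_lit 3) (.e (nat_lit 98373) (nat_lit 29) (.e (nat_lit 450588) (nat_lit 10) (.e (nat_lit 573475) (nat_lit 12) (.e (nat_lit 57354) (nat_lit 0) (.e (nat_lit 7147) (nat_lit 382) .nil))))))) (.g (nat_lit 4) .nil .nil)))) (.nd (nat_lit 5) 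
(.lf (nat_lit 33045) (.g (nat_lit 5069) (.e (nat_lit 1203) (nat_lit 88) (.e (nat_lit 65630) (nat_lit 14) (.e (nat_lit 401454) (nat_lit 12) (.e (nat_lit 475214) (nat_lit 42) (.e (nat_lit 720954) (nat_lit 25) (.e (nat_lit 114710) (nat_lit 21) (.e (nat_lit 57655) (nat_lit 152) .nil))))))) (.g (nat_lit 7) .nil .nil))) 
(.lf (nat_lit 33077) (.g (nat_lit 1648) (.e (nat_lit 1204) (nat_lit 88) (.e (nat_lit 65625) (nat_lit 13) (.e (nat_lit 393232) (nat_lit 17) (.e (nat_lit 7591) (nat_lit 407) (.e (nat_lit 73733) (nat_lit 0) (.e (nat_lit 7147) (nat_lit 382) .nil)))))) (.g (nat_lit 4) .nil .nil))))) (.nd (nat_lit 4) (.nd (nat_lit 5) 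
(.lf (nat_lit 33037) (.g (nat_lit 4214) (.e (nat_lit 1203) (nat_lit 88) (.e (nat_lit 65630) (nat_lit 14) (.e (nat_lit 401454) (nat_lit 12) (.e (nat_lit 475212) (nat_lit 42) (.e (nat_lit 720956) (nat_lit 25) (.e (nat_lit 114711) (nat_lit 21) (.e (nat_lit 57655) (nat_lit 152) .nil))))))) (.g (nat_lit 7) .nil .nil))) 
(.lf (nat_lit 33069) (.g (nat_lit 1804) (.e (nat_lit 1204) (nat_lit 88) (.e (nat_lit 65586) (nat_lit 7) (.e (nat_lit 319531) (nat_lit 16) (.e (nat_lit 286751) (nat_lit 10) .nil)))) .nil))) (.nd (nat_lit 5) 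
(.lf (nat_lit 33053) (.g (nat_lit 1993) (.e (nat_lit 1203) (nat_lit 88) (.e (nat_lit 65630) (nat_lit 14) (.e (nat_lit 401457) (nat_lit 13) (.e (nat_lit 483393) (nat_lit 23) .nil)))) .nil)) 
(.lf (nat_lit 33085) (.g (nat_lit 2096) (.e (nat_lit 1204) (nat_lit 88) (.e (nat_lit 65625) (nat_lit 13) (.e (nat_lit 393301) (nat_lit 27) (.e (nat_lit 491558) (nat_lit 10) (.e (nat_lit 344097) (nat_lit 18) .nil))))) .nil)))))) (.nd (nat_lit 2) (.nd (nat_lit 3) (.nd (nat_lit 4) (.nd (nat_lit 5) 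
(.lf (nat_lit 33027) (.g (nat_lit 3364) (.e (nat_lit 1203) (nat_lit 88) (.e (nat_lit 65630) (nat_lit 14) (.e (nat_lit 401453) (nat_lit 12) (.e (nat_lit 475214) (nat_lit 42) (.e (nat_lit 720954) (nat_lit 25) .nil))))) .nil)) 
(.lf (nat_lit 33059) (.g (nat_lit 2202) (.e (nat_lit 1204) (nat_lit 88) (.e (nat_lit 65566) (nat_lit 2) (.e (nat_lit 90170) (nat_lit 13) (.e (nat_lit 172113) (nat_lit 10) (.e (nat_lit 434248) (nat_lit 28) .nil))))) .nil))) (.nd (nat_lit 5) 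
(.lf (nat_lit 33043) (.g (nat_lit 3960) (.e (nat_lit 1203) (nat_lit 88) (.e (nat_lit 65630) (nat_lit 14) (.e (nat_lit 401454) (nat_lit 12) (.e (nat_lit 475213) (nat_lit 42) (.e (nat_lit 720956) (nat_lit 25) (.e (nat_lit 114712) (nat_lit 21) (.e (nat_lit 57651) (nat_lit 152) .nil))))))) (.g (nat_lit 7) .nil .nil))) 
(.lf (nat_lit 33075) (.g (nat_lit 2187) (.e (nat_lit 1204) (nat_lit 88) (.e (nat_lit 65586) (nat_lit 7) (.e (nat_lit 319534) (nat_lit 16) (.e (nat_lit 286753) (nat_lit 10) .nil)))) .nil)))) (.nd (nat_lit 4) (.nd (nat_lit 5) 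
(.lf (nat_lit 33035) (.g (nat_lit 2668) (.e (nat_lit 1203) (nat_lit 88) (.e (nat_lit 65630) (nat_lit 14) (.e (nat_lit 401454) (nat_lit 12) (.e (nat_lit 475212) (nat_lit 42) (.e (nat_lit 720956) (nat_lit 25) .nil))))) .nil)) 
(.lf (nat_lit 33067) (.g (nat_lit 1270) (.e (nat_lit 1204) (nat_lit 88) (.e (nat_lit 65586) (nat_lit 7) (.e (nat_lit 319531) (nat_lit 16) (.e (nat_lit 286748) (nat_lit 9) .nil)))) .nil))) (.nd (nat_lit 5) 
(.lf (nat_lit 33051) (.g (nat_lit 4916) (.e (nat_lit 1203) (nat_lit 88) (.e (nat_lit 65630) (nat_lit 14) (.e (nat_lit 401454) (nat_lit 12) (.e (nat_lit 475214) (nat_lit 42) (.e (nat_lit 720956) (nat_lit 25) (.e (nat_lit 114711) (nat_lit 21) (.e (nat_lit 57655) (nat_lit 152) .nil))))))) (.g (nat_lit 0) .nil .nil))) 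
(.lf (nat_lit 33083) (.g (nat_lit 2370) (.e (nat_lit 1204) (nat_lit 88) (.e (nat_lit 65625) (nat_lit 13) (.e (nat_lit 393300) (nat_lit 27) (.e (nat_lit 491560) (nat_lit 10) (.e (nat_lit 344097) (nat_lit 18) (.e (nat_lit 7147) (nat_lit 382) .nil)))))) (.g (nat_lit 5) .nil .nil)))))) (.nd (nat_lit 3) (.nd (nat_lit 4) (.nd (nat_lit 5) 
(.lf (nat_lit 33031) (.g (nat_lit 2093) (.e (nat_lit 1203) (nat_lit 88) (.e (nat_lit 65630) (nat_lit 14) (.e (nat_lit 401454) (nat_lit 12) (.e (nat_lit 475212) (nat_lit 42) .nil)))) .nil)) 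
(.lf (nat_lit 33063) (.g (nat_lit 1852) (.e (nat_lit 1204) (nat_lit 88) (.e (nat_lit 65570) (nat_lit 3) (.e (nat_lit 98373) (nat_lit 29) (.e (nat_lit 450587) (nat_lit 10) (.e (nat_lit 573478) (nat_lit 12) .nil))))) .nil))) (.nd (nat_lit 5) 
(.lf (nat_lit 33047) (.g (nat_lit 3811) (.e (nat_lit 1203) (nat_lit 88) (.e (nat_lit 65630) (nat_lit 14) (.e (nat_lit 401454) (nat_lit 12) (.e (nat_lit 475214) (nat_lit 42) (.e (nat_lit 720955) (nat_lit 25) (.e (nat_lit 114711) (nat_lit 21) (.e (nat_lit 57655) (nat_lit 152) .nil))))))) (.g (nat_lit 5) .nil .nil))) 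
(.lf (nat_lit 33079) (.g (nat_lit 1696) (.e (nat_lit 1204) (nat_lit 88) (.e (nat_lit 65625) (nat_lit 13) (.e (nat_lit 393233) (nat_lit 17) (.e (nat_lit 7591) (nat_lit 407) (.e (nat_lit 73733) (nat_lit 0) (.e (nat_lit 7147) (nat_lit 382) .nil)))))) (.g (nat_lit 5) .nil .nil))))) (.nd (nat_lit 4) (.nd (nat_lit 5) 
(.lf (nat_lit 33039) (.g (nat_lit 2841) (.e (nat_lit 1203) (nat_lit 88) (.e (nat_lit 65630) (nat_lit 14) (.e (nat_lit 401454) (nat_lit 12) (.e (nat_lit 475213) (nat_lit 42) .nil)))) .nil)) 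
(.lf (nat_lit 33071) (.g (nat_lit 1904) (.e (nat_lit 1204) (nat_lit 88) (.e (nat_lit 65586) (nat_lit 7) (.e (nat_lit 319531) (nat_lit 16) (.e (nat_lit 286755) (nat_lit 10) .nil)))) .nil))) (.nd (nat_lit 5) 
(.lf (nat_lit 33055) (.g (nat_lit 2669) (.e (nat_lit 1203) (nat_lit 88) (.e (nat_lit 65630) (nat_lit 14) (.e (nat_lit 401459) (nat_lit 13) (.e (nat_lit 483393) (nat_lit 23) .nil)))) .nil)) 
(.lf (nat_lit 33087) (.g (nat_lit 2489) (.e (nat_lit 1204) (nat_lit 88) (.e (nat_lit 65625) (nat_lit 13) (.e (nat_lit 393301) (nat_lit 27) (.e (nat_lit 491558) (nat_lit 10) (.e (nat_lit 344100) (nat_lit 18) .nil))))) .nil))))))))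

noncomputable def tv464 : DT := (.nd (nat_lit 0) (.nd (nat_lit 1) (.nd (nat_lit 2) (.nd (nat_lit 3) (.nd (nat_lit 4) (.nd (nat_lit 5) 
(.lf (nat_lit 33088) (.g (nat_lit 3121) (.e (nat_lit 1204) (nat_lit 88) (.e (nat_lit 65625) (nat_lit 13) (.e (nat_lit 393301) (nat_lit 27) (.e (nat_lit 491560) (nat_lit 10) (.e (nat_lit 344097) (nat_lit 18) (.e (nat_lit 7145) (nat_lit 382) .nil)))))) (.g (nat_lit 5) .nil .nil))) 
(.lf (nat_lit 33120) (.g (nat_lit 1598) (.e (nat_lit 1204) (nat_lit 88) (.e (nat_lit 65653) (nat_lit 27) (.e (nat_lit 433920) (nat_lit 30) (.e (nat_lit 360466) (nat_lit 3) (.e (nat_lit 516120) (nat_lit 1) (.e (nat_lit 164147) (nat_lit 152) .nil)))))) (.g (nat_lit 5) .nil .nil)))) (.nd (nat_lit 5) 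
(.lf (nat_lit 33104) (.g (nat_lit 2935) (.e (nat_lit 1204) (nat_lit 88) (.e (nat_lit 65628) (nat_lit 14) (.e (nat_lit 401454) (nat_lit 12) (.e (nat_lit 475213) (nat_lit 42) .nil)))) .nil)) 
(.lf (nat_lit 33136) (.g (nat_lit 2671) (.e (nat_lit 7936) (nat_lit 88) (.e (nat_lit 65628) (nat_lit 14) (.e (nat_lit 401454) (nat_lit 12) (.e (nat_lit 475214) (nat_lit 42) .nil)))) .nil)))) (.nd (nat_lit 4) (.nd (nat_lit 5) 
(.lf (nat_lit 33096) (.g (nat_lit 2121) (.e (nat_lit 1204) (nat_lit 88) (.e (nat_lit 65626) (nat_lit 13) (.e (nat_lit 393300) (nat_lit 27) (.e (nat_lit 491558) (nat_lit 10) (.e (nat_lit 344100) (nat_lit 18) .nil))))) .nil)) 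
(.lf (nat_lit 33128) (.g (nat_lit 2464) (.e (nat_lit 7936) (nat_lit 88) (.e (nat_lit 65624) (nat_lit 12) (.e (nat_lit 385106) (nat_lit 50) (.e (nat_lit 786483) (nat_lit 30) (.e (nat_lit 360450) (nat_lit 0) .nil))))) .nil))) (.nd (nat_lit 5) 
(.lf (nat_lit 33112) (.g (nat_lit 3063) (.e (nat_lit 1204) (nat_lit 88) (.e (nat_lit 65653) (nat_lit 27) (.e (nat_lit 426500) (nat_lit 27) (.e (nat_lit 336087) (nat_lit 9) (.e (nat_lit 336019) (nat_lit 3) (.e (nat_lit 98333) (nat_lit 18) (.e (nat_lit 164151) (nat_lit 152) .nil))))))) (.g (nat_lit 0) .nil .nil))) 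
(.lf (nat_lit 33144) (.g (nat_lit 1977) (.e (nat_lit 7936) (nat_lit 88) (.e (nat_lit 65630) (nat_lit 14) (.e (nat_lit 401428) (nat_lit 3) (.e (nat_lit 204869) (nat_lit 29) (.e (nat_lit 360451) (nat_lit 0) .nil))))) .nil))))) (.nd (nat_lit 3) (.nd (nat_lit 4) (.nd (nat_lit 5) 
(.lf (nat_lit 33092) (.g (nat_lit 1513) (.e (nat_lit 1204) (nat_lit 88) (.e (nat_lit 65626) (nat_lit 13) (.e (nat_lit 393233) (nat_lit 17) (.e (nat_lit 7593) (nat_lit 407) (.e (nat_lit 73732) (nat_lit 0) .nil))))) .nil)) 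
(.lf (nat_lit 33124) (.g (nat_lit 2811) (.e (nat_lit 7936) (nat_lit 88) (.e (nat_lit 65586) (nat_lit 7) (.e (nat_lit 319534) (nat_lit 16) (.e (nat_lit 286756) (nat_lit 10) (.e (nat_lit 344160) (nat_lit 37) .nil))))) .nil))) (.nd (nat_lit 5) 
(.lf (nat_lit 33108) (.g (nat_lit 2434) (.e (nat_lit 1204) (nat_lit 88) (.e (nat_lit 65628) (nat_lit 14) (.e (nat_lit 401459) (nat_lit 13) (.e (nat_lit 483393) (nat_lit 23) .nil)))) .nil)) 
(.lf (nat_lit 33140) (.g (nat_lit 984) (.e (nat_lit 7936) (nat_lit 88) (.e (nat_lit 65628) (nat_lit 14) (.e (nat_lit 401459) (nat_lit 13) (.e (nat_lit 483395) (nat_lit 24) .nil)))) .nil)))) (.nd (nat_lit 4) (.nd (nat_lit 5) 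
(.lf (nat_lit 33100) (.g (nat_lit 2539) (.e (nat_lit 1204) (nat_lit 88) (.e (nat_lit 65626) (nat_lit 13) (.e (nat_lit 393301) (nat_lit 27) (.e (nat_lit 491560) (nat_lit 10) (.e (nat_lit 344099) (nat_lit 18) .nil))))) .nil)) 
(.lf (nat_lit 33132) (.g (nat_lit 2047) (.e (nat_lit 7936) (nat_lit 88) (.e (nat_lit 65628) (nat_lit 14) (.e (nat_lit 401454) (nat_lit 12) (.e (nat_lit 475193) (nat_lit 38) .nil)))) .nil))) (.nd (nat_lit 5) 
(.lf (nat_lit 33116) (.g (nat_lit 2567) (.e (nat_lit 1204) (nat_lit 88) (.e (nat_lit 65653) (nat_lit 27) (.e (nat_lit 426500) (nat_lit 27) (.e (nat_lit 336184) (nat_lit 11) (.e (nat_lit 368676) (nat_lit 21) (.e (nat_lit 516115) (nat_lit 1) (.e (nat_lit 164150) (nat_lit 152) .nil))))))) (.g (nat_lit 6) .nil .nil))) 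
(.lf (nat_lit 33148) (.g (nat_lit 2750) (.e (nat_lit 7936) (nat_lit 88) (.e (nat_lit 65630) (nat_lit 14) (.e (nat_lit 401437) (nat_lit 9) (.e (nat_lit 426544) (nat_lit 30) (.e (nat_lit 360455) (nat_lit 0) .nil))))) .nil)))))) (.nd (nat_lit 2) (.nd (nat_lit 3) (.nd (nat_lit 4) (.nd (nat_lit 5) 
(.lf (nat_lit 33090) (.g (nat_lit 2592) (.e (nat_lit 1204) (nat_lit 88) (.e (nat_lit 65625) (nat_lit 13) (.e (nat_lit 393301) (nat_lit 27) (.e (nat_lit 491560) (nat_lit 10) (.e (nat_lit 344099) (nat_lit 18) (.e (nat_lit 7147) (nat_lit 382) .nil)))))) (.g (nat_lit 4) .nil .nil))) 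
(.lf (nat_lit 33122) (.g (nat_lit 1211) (.e (nat_lit 7936) (nat_lit 88) (.e (nat_lit 65571) (nat_lit 3) (.e (nat_lit 98372) (nat_lit 29) (.e (nat_lit 450579) (nat_lit 5) .nil)))) .nil))) (.nd (nat_lit 5) 
(.lf (nat_lit 33106) (.g (nat_lit 4110) (.e (nat_lit 1204) (nat_lit 88) (.e (nat_lit 65628) (nat_lit 14) (.e (nat_lit 401454) (nat_lit 12) (.e (nat_lit 475214) (nat_lit 42) (.e (nat_lit 720955) (nat_lit 25) .nil))))) .nil)) 
(.lf (nat_lit 33138) (.g (nat_lit 3619) (.e (nat_lit 7936) (nat_lit 88) (.e (nat_lit 65628) (nat_lit 14) (.e (nat_lit 401454) (nat_lit 12) (.e (nat_lit 475214) (nat_lit 42) (.e (nat_lit 720956) (nat_lit 25) .nil))))) .nil)))) (.nd (nat_lit 4) (.nd (nat_lit 5) 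
(.lf (nat_lit 33098) (.g (nat_lit 2795) (.e (nat_lit 1204) (nat_lit 88) (.e (nat_lit 65626) (nat_lit 13) (.e (nat_lit 393301) (nat_lit 27) (.e (nat_lit 491558) (nat_lit 10) (.e (nat_lit 344097) (nat_lit 18) .nil))))) .nil)) 
(.lf (nat_lit 33130) (.g (nat_lit 2492) (.e (nat_lit 7936) (nat_lit 88) (.e (nat_lit 65628) (nat_lit 14) (.e (nat_lit 401437) (nat_lit 9) (.e (nat_lit 426544) (nat_lit 30) (.e (nat_lit 360455) (nat_lit 0) .nil))))) .nil))) (.nd (nat_lit 5) 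
(.lf (nat_lit 33114) (.g (nat_lit 3716) (.e (nat_lit 1204) (nat_lit 88) (.e (nat_lit 65653) (nat_lit 27) (.e (nat_lit 426500) (nat_lit 27) (.e (nat_lit 336088) (nat_lit 9) (.e (nat_lit 336019) (nat_lit 3) (.e (nat_lit 98333) (nat_lit 18) (.e (nat_lit 164150) (nat_lit 152) .nil))))))) (.g (nat_lit 7) .nil .nil))) 
(.lf (nat_lit 33146) (.g (nat_lit 400) (.e (nat_lit 7936) (nat_lit 88) (.e (nat_lit 65630) (nat_lit 14) (.e (nat_lit 401436) (nat_lit 9) .nil))) .nil))))) (.nd (nat_lit 3) (.nd (nat_lit 4) (.nd (nat_lit 5) 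
(.lf (nat_lit 33094) (.g (nat_lit 1816) (.e (nat_lit 1204) (nat_lit 88) (.e (nat_lit 65626) (nat_lit 13) (.e (nat_lit 393300) (nat_lit 27) (.e (nat_lit 491558) (nat_lit 10) (.e (nat_lit 344097) (nat_lit 18) .nil))))) .nil)) 
(.lf (nat_lit 33126) (.g (nat_lit 2132) (.e (nat_lit 7936) (nat_lit 88) (.e (nat_lit 65624) (nat_lit 12) (.e (nat_lit 385105) (nat_lit 50) (.e (nat_lit 786483) (nat_lit 30) (.e (nat_lit 360450) (nat_lit 0) .nil))))) .nil))) (.nd (nat_lit 5) 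
(.lf (nat_lit 33110) (.g (nat_lit 3119) (.e (nat_lit 1204) (nat_lit 88) (.e (nat_lit 65653) (nat_lit 27) (.e (nat_lit 426500) (nat_lit 27) (.e (nat_lit 336087) (nat_lit 9) (.e (nat_lit 336019) (nat_lit 3) (.e (nat_lit 98333) (nat_lit 18) (.e (nat_lit 164148) (nat_lit 152) .nil))))))) (.g (nat_lit 6) .nil .nil))) 
(.lf (nat_lit 33142) (.g (nat_lit 584) (.e (nat_lit 7936) (nat_lit 88) (.e (nat_lit 65630) (nat_lit 14) (.e (nat_lit 401428) (nat_lit 3) .nil))) .nil)))) (.nd (nat_lit 4) (.nd (nat_lit 5) 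
(.lf (nat_lit 33102) (.g (nat_lit 2188) (.e (nat_lit 1204) (nat_lit 88) (.e (nat_lit 65628) (nat_lit 14) (.e (nat_lit 401454) (nat_lit 12) (.e (nat_lit 475212) (nat_lit 42) .nil)))) .nil)) 
(.lf (nat_lit 33134) (.g (nat_lit 2681) (.e (nat_lit 7936) (nat_lit 88) (.e (nat_lit 65628) (nat_lit 14) (.e (nat_lit 401454) (nat_lit 12) (.e (nat_lit 475212) (nat_lit 42) (.e (nat_lit 720956) (nat_lit 25) .nil))))) .nil))) (.nd (nat_lit 5) 
(.lf (nat_lit 33118) (.g (nat_lit 2456) (.e (nat_lit 1204) (nat_lit 88) (.e (nat_lit 65653) (nat_lit 27) (.e (nat_lit 426500) (nat_lit 27) (.e (nat_lit 336186) (nat_lit 11) (.e (nat_lit 368676) (nat_lit 21) (.e (nat_lit 516115) (nat_lit 1) (.e (nat_lit 164151) (nat_lit 152) .nil))))))) (.g (nat_lit 7) .nil .nil))) 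
(.lf (nat_lit 33150) (.g (nat_lit 2753) (.e (nat_lit 7936) (nat_lit 88) (.e (nat_lit 65630) (nat_lit 14) (.e (nat_lit 401437) (nat_lit 9) (.e (nat_lit 426546) (nat_lit 30) (.e (nat_lit 360455) (nat_lit 0) .nil))))) .nil))))))) (.nd (nat_lit 1) (.nd (nat_lit 2) (.nd (nat_lit 3) (.nd (nat_lit 4) (.nd (nat_lit 5) 
(.lf (nat_lit 33089) (.g (nat_lit 3421) (.e (nat_lit 1204) (nat_lit 88) (.e (nat_lit 65625) (nat_lit 13) (.e (nat_lit 393301) (nat_lit 27) (.e (nat_lit 491560) (nat_lit 10) (.e (nat_lit 344097) (nat_lit 18) (.e (nat_lit 7147) (nat_lit 382) .nil)))))) (.g (nat_lit 6) .nil .nil))) 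
(.lf (nat_lit 33121) (.g (nat_lit 2306) (.e (nat_lit 1204) (nat_lit 88) (.e (nat_lit 65655) (nat_lit 35) (.e (nat_lit 491566) (nat_lit 12) (.e (nat_lit 385093) (nat_lit 49) (.e (nat_lit 778323) (nat_lit 5) .nil))))) .nil))) (.nd (nat_lit 5) 
(.lf (nat_lit 33105) (.g (nat_lit 2819) (.e (nat_lit 1204) (nat_lit 88) (.e (nat_lit 65628) (nat_lit 14) (.e (nat_lit 401454) (nat_lit 12) (.e (nat_lit 475214) (nat_lit 42) .nil)))) .nil)) 
(.lf (nat_lit 33137) (.g (nat_lit 3961) (.e (nat_lit 7936) (nat_lit 88) (.e (nat_lit 65628) (nat_lit 14) (.e (nat_lit 401454) (nat_lit 12) (.e (nat_lit 475214) (nat_lit 42) (.e (nat_lit 720955) (nat_lit 25) .nil))))) .nil)))) (.nd (nat_lit 4) (.nd (nat_lit 5) 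
(.lf (nat_lit 33097) (.g (nat_lit 1909) (.e (nat_lit 1204) (nat_lit 88) (.e (nat_lit 65626) (nat_lit 13) (.e (nat_lit 393301) (nat_lit 27) (.e (nat_lit 491546) (nat_lit 9) .nil)))) .nil)) 
(.lf (nat_lit 33129) (.g (nat_lit 2379) (.e (nat_lit 7936) (nat_lit 88) (.e (nat_lit 65624) (nat_lit 12) (.e (nat_lit 385106) (nat_lit 50) (.e (nat_lit 786483) (nat_lit 30) (.e (nat_lit 360451) (nat_lit 0) .nil))))) .nil))) (.nd (nat_lit 5) 
(.lf (nat_lit 33113) (.g (nat_lit 3516) (.e (nat_lit 1204) (nat_lit 88) (.e (nat_lit 65653) (nat_lit 27) (.e (nat_lit 426500) (nat_lit 27) (.e (nat_lit 336088) (nat_lit 9) (.e (nat_lit 336019) (nat_lit 3) (.e (nat_lit 98333) (nat_lit 18) (.e (nat_lit 164148) (nat_lit 152) .nil))))))) (.g (nat_lit 6) .nil .nil))) 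
(.lf (nat_lit 33145) (.g (nat_lit 789) (.e (nat_lit 7936) (nat_lit 88) (.e (nat_lit 65630) (nat_lit 14) (.e (nat_lit 401435) (nat_lit 9) (.e (nat_lit 426544) (nat_lit 30) .nil)))) .nil))))) (.nd (nat_lit 3) (.nd (nat_lit 4) (.nd (nat_lit 5) 
(.lf (nat_lit 33093) (.g (nat_lit 1223) (.e (nat_lit 1204) (nat_lit 88) (.e (nat_lit 65626) (nat_lit 13) (.e (nat_lit 393260) (nat_lit 21) (.e (nat_lit 409644) (nat_lit 18) .nil)))) .nil)) 
(.lf (nat_lit 33125) (.g (nat_lit 1490) (.e (nat_lit 7936) (nat_lit 88) (.e (nat_lit 65619) (nat_lit 10) (.e (nat_lit 344160) (nat_lit 37) (.e (nat_lit 647195) (nat_lit 9) (.e (nat_lit 7936) (nat_lit 37) .nil))))) .nil))) (.nd (nat_lit 5) 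
(.lf (nat_lit 33109) (.g (nat_lit 2323) (.e (nat_lit 1204) (nat_lit 88) (.e (nat_lit 65637) (nat_lit 15) (.e (nat_lit 3253) (nat_lit 197) (.e (nat_lit 532533) (nat_lit 9) (.e (nat_lit 336211) (nat_lit 13) (.e (nat_lit 393253) (nat_lit 18) (.e (nat_lit 164150) (nat_lit 152) .nil))))))) (.g (nat_lit 6) .nil .nil))) 
(.lf (nat_lit 33141) (.g (nat_lit 1675) (.e (nat_lit 7936) (nat_lit 88) (.e (nat_lit 65630) (nat_lit 14) (.e (nat_lit 401425) (nat_lit 2) (.e (nat_lit 196666) (nat_lit 13) (.e (nat_lit 65617) (nat_lit 10) .nil))))) .nil)))) (.nd (nat_lit 4) (.nd (nat_lit 5) 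
(.lf (nat_lit 33101) (.g (nat_lit 2195) (.e (nat_lit 1204) (nat_lit 88) (.e (nat_lit 65628) (nat_lit 14) (.e (nat_lit 401454) (nat_lit 12) (.e (nat_lit 475193) (nat_lit 38) .nil)))) .nil)) 
(.lf (nat_lit 33133) (.g (nat_lit 2028) (.e (nat_lit 7936) (nat_lit 88) (.e (nat_lit 65628) (nat_lit 14) (.e (nat_lit 401454) (nat_lit 12) (.e (nat_lit 475212) (nat_lit 42) .nil)))) .nil))) (.nd (nat_lit 5) 
(.lf (nat_lit 33117) (.g (nat_lit 2707) (.e (nat_lit 1204) (nat_lit 88) (.e (nat_lit 65653) (nat_lit 27) (.e (nat_lit 426500) (nat_lit 27) (.e (nat_lit 336186) (nat_lit 11) (.e (nat_lit 368676) (nat_lit 21) (.e (nat_lit 516115) (nat_lit 1) (.e (nat_lit 164150) (nat_lit 152) .nil))))))) (.g (nat_lit 6) .nil .nil))) 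
(.lf (nat_lit 33149) (.g (nat_lit 1695) (.e (nat_lit 7936) (nat_lit 88) (.e (nat_lit 65630) (nat_lit 14) (.e (nat_lit 401437) (nat_lit 9) (.e (nat_lit 426546) (nat_lit 30) .nil)))) .nil)))))) (.nd (nat_lit 2) (.nd (nat_lit 3) (.nd (nat_lit 4) (.nd (nat_lit 5) 
(.lf (nat_lit 33091) (.g (nat_lit 1564) (.e (nat_lit 1204) (nat_lit 88) (.e (nat_lit 65626) (nat_lit 13) (.e (nat_lit 393233) (nat_lit 17) (.e (nat_lit 7591) (nat_lit 407) (.e (nat_lit 73733) (nat_lit 0) .nil))))) .nil)) 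
(.lf (nat_lit 33123) (.g (nat_lit 2488) (.e (nat_lit 7936) (nat_lit 88) (.e (nat_lit 65581) (nat_lit 7) (.e (nat_lit 319531) (nat_lit 16) (.e (nat_lit 286756) (nat_lit 10) (.e (nat_lit 344160) (nat_lit 37) .nil))))) .nil))) (.nd (nat_lit 5) 
(.lf (nat_lit 33107) (.g (nat_lit 3768) (.e (nat_lit 1204) (nat_lit 88) (.e (nat_lit 65628) (nat_lit 14) (.e (nat_lit 401454) (nat_lit 12) (.e (nat_lit 475214) (nat_lit 42) (.e (nat_lit 720956) (nat_lit 25) .nil))))) .nil)) 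
(.lf (nat_lit 33139) (.g (nat_lit 1991) (.e (nat_lit 7936) (nat_lit 88) (.e (nat_lit 65628) (nat_lit 14) (.e (nat_lit 401459) (nat_lit 13) (.e (nat_lit 483394) (nat_lit 24) (.e (nat_lit 344090) (nat_lit 18) .nil))))) .nil)))) (.nd (nat_lit 4) (.nd (nat_lit 5) 
(.lf (nat_lit 33099) (.g (nat_lit 3092) (.e (nat_lit 1204) (nat_lit 88) (.e (nat_lit 65626) (nat_lit 13) (.e (nat_lit 393301) (nat_lit 27) (.e (nat_lit 491560) (nat_lit 10) (.e (nat_lit 344097) (nat_lit 18) .nil))))) .nil)) 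
(.lf (nat_lit 33131) (.g (nat_lit 2549) (.e (nat_lit 7936) (nat_lit 88) (.e (nat_lit 65628) (nat_lit 14) (.e (nat_lit 401437) (nat_lit 9) (.e (nat_lit 426546) (nat_lit 30) (.e (nat_lit 360455) (nat_lit 0) .nil))))) .nil))) (.nd (nat_lit 5) 
(.lf (nat_lit 33115) (.g (nat_lit 3469) (.e (nat_lit 1204) (nat_lit 88) (.e (nat_lit 65653) (nat_lit 27) (.e (nat_lit 426500) (nat_lit 27) (.e (nat_lit 336088) (nat_lit 9) (.e (nat_lit 336019) (nat_lit 3) (.e (nat_lit 98333) (nat_lit 18) (.e (nat_lit 164151) (nat_lit 152) .nil))))))) (.g (nat_lit 0) .nil .nil))) 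
(.lf (nat_lit 33147) (.g (nat_lit 1635) (.e (nat_lit 7936) (nat_lit 88) (.e (nat_lit 65630) (nat_lit 14) (.e (nat_lit 401437) (nat_lit 9) (.e (nat_lit 426544) (nat_lit 30) .nil)))) .nil))))) (.nd (nat_lit 3) (.nd (nat_lit 4) (.nd (nat_lit 5) 
(.lf (nat_lit 33095) (.g (nat_lit 2331) (.e (nat_lit 1204) (nat_lit 88) (.e (nat_lit 65626) (nat_lit 13) (.e (nat_lit 393300) (nat_lit 27) (.e (nat_lit 491558) (nat_lit 10) (.e (nat_lit 344097) (nat_lit 18) (.e (nat_lit 7147) (nat_lit 382) .nil)))))) (.g (nat_lit 5) .nil .nil))) 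
(.lf (nat_lit 33127) (.g (nat_lit 2112) (.e (nat_lit 7936) (nat_lit 88) (.e (nat_lit 65624) (nat_lit 12) (.e (nat_lit 385105) (nat_lit 50) (.e (nat_lit 786483) (nat_lit 30) (.e (nat_lit 360451) (nat_lit 0) .nil))))) .nil))) (.nd (nat_lit 5) 
(.lf (nat_lit 33111) (.g (nat_lit 3288) (.e (nat_lit 1204) (nat_lit 88) (.e (nat_lit 65653) (nat_lit 27) (.e (nat_lit 426500) (nat_lit 27) (.e (nat_lit 336087) (nat_lit 9) (.e (nat_lit 336019) (nat_lit 3) (.e (nat_lit 98333) (nat_lit 18) (.e (nat_lit 164150) (nat_lit 152) .nil))))))) (.g (nat_lit 7) .nil .nil))) 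
(.lf (nat_lit 33143) (.g (nat_lit 1198) (.e (nat_lit 7936) (nat_lit 88) (.e (nat_lit 65630) (nat_lit 14) (.e (nat_lit 401428) (nat_lit 3) (.e (nat_lit 204868) (nat_lit 29) .nil)))) .nil)))) (.nd (nat_lit 4) (.nd (nat_lit 5) 
(.lf (nat_lit 33103) (.g (nat_lit 2840) (.e (nat_lit 1204) (nat_lit 88) (.e (nat_lit 65628) (nat_lit 14) (.e (nat_lit 401454) (nat_lit 12) (.e (nat_lit 475212) (nat_lit 42) (.e (nat_lit 720956) (nat_lit 25) .nil))))) .nil)) 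
(.lf (nat_lit 33135) (.g (nat_lit 2787) (.e (nat_lit 7936) (nat_lit 88) (.e (nat_lit 65628) (nat_lit 14) (.e (nat_lit 401454) (nat_lit 12) (.e (nat_lit 475213) (nat_lit 42) .nil)))) .nil))) (.nd (nat_lit 5) 
(.lf (nat_lit 33119) (.g (nat_lit 702) (.e (nat_lit 1204) (nat_lit 88) (.e (nat_lit 65653) (nat_lit 27) (.e (nat_lit 433920) (nat_lit 30) (.e (nat_lit 360466) (nat_lit 3) (.e (nat_lit 516119) (nat_lit 1) .nil))))) .nil)) 
(.lf (nat_lit 33151) (.g (nat_lit 1295) (.e (nat_lit 7936) (nat_lit 88) (.e (nat_lit 65630) (nat_lit 14) (.e (nat_lit 401438) (nat_lit 9) (.e (nat_lit 426544) (nat_lit 30) .nil)))) .nil))))))))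

noncomputable def tv465 : DT := (.nd (nat_lit 0) (.nd (nat_lit 1) (.nd (nat_lit 2) (.nd (nat_lit 3) (.nd (nat_lit 4) (.nd (nat_lit 5) (.nd (nat_lit 6) 
(.lf (nat_lit 33152) (.g (nat_lit 1294) (.e (nat_lit 7936) (nat_lit 88) (.e (nat_lit 65630) (nat_lit 14) (.e (nat_lit 401438) (nat_lit 9) (.e (nat_lit 426546) (nat_lit 30) .nil)))) .nil)) 
(.lf (nat_lit 33216) (.g (nat_lit 2254) (.e (nat_lit 1206) (nat_lit 89) (.e (nat_lit 73755) (nat_lit 8) (.e (nat_lit 557104) (nat_lit 14) (.e (nat_lit 180265) (nat_lit 21) .nil)))) .nil))) (.nd (nat_lit 6) 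
(.lf (nat_lit 33184) (.g (nat_lit 3090) (.e (nat_lit 1206) (nat_lit 89) (.e (nat_lit 73747) (nat_lit 3) (.e (nat_lit 516166) (nat_lit 12) (.e (nat_lit 450587) (nat_lit 10) (.e (nat_lit 573477) (nat_lit 12) .nil))))) .nil)) 
(.lf (nat_lit 33248) (.g (nat_lit 2046) (.e (nat_lit 1207) (nat_lit 89) (.e (nat_lit 73746) (nat_lit 3) (.e (nat_lit 516165) (nat_lit 12) (.e (nat_lit 450587) (nat_lit 10) (.e (nat_lit 573477) (nat_lit 12) .nil))))) .nil)))) (.nd (nat_lit 5) (.nd (nat_lit 6) 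
(.lf (nat_lit 33168) (.g (nat_lit 1975) (.e (nat_lit 7936) (nat_lit 88) (.e (nat_lit 65630) (nat_lit 14) (.e (nat_lit 401459) (nat_lit 13) (.e (nat_lit 483395) (nat_lit 24) .nil)))) .nil)) 
(.lf (nat_lit 33232) (.g (nat_lit 2277) (.e (nat_lit 1207) (nat_lit 89) (.e (nat_lit 73746) (nat_lit 3) (.e (nat_lit 516146) (nat_lit 9) (.e (nat_lit 426320) (nat_lit 12) (.e (nat_lit 475179) (nat_lit 24) (.e (nat_lit 516117) (nat_lit 1) (.e (nat_lit 164220) (nat_lit 181) .nil))))))) (.g (nat_lit 4) .nil .nil)))) (.nd (nat_lit 6) 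
(.lf (nat_lit 33200) (.g (nat_lit 2370) (.e (nat_lit 1206) (nat_lit 89) (.e (nat_lit 73753) (nat_lit 8) (.e (nat_lit 557105) (nat_lit 14) (.e (nat_lit 180265) (nat_lit 21) (.e (nat_lit 663555) (nat_lit 0) .nil))))) .nil)) 
(.lf (nat_lit 33264) (.g (nat_lit 1329) (.e (nat_lit 1207) (nat_lit 89) (.e (nat_lit 73746) (nat_lit 3) (.e (nat_lit 516176) (nat_lit 14) (.e (nat_lit 466978) (nat_lit 23) .nil)))) .nil))))) (.nd (nat_lit 4) (.nd (nat_lit 5) (.nd (nat_lit 6) 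
(.lf (nat_lit 33160) (.g (nat_lit 3142) (.e (nat_lit 7936) (nat_lit 88) (.e (nat_lit 65630) (nat_lit 14) (.e (nat_lit 401454) (nat_lit 12) (.e (nat_lit 475214) (nat_lit 42) (.e (nat_lit 720956) (nat_lit 25) .nil))))) .nil)) 
(.lf (nat_lit 33224) (.g (nat_lit 606) (.e (nat_lit 1206) (nat_lit 89) (.e (nat_lit 73782) (nat_lit 32) (.e (nat_lit 3067) (nat_lit 190) .nil))) .nil))) (.nd (nat_lit 6) 
(.lf (nat_lit 33192) (.g (nat_lit 1376) (.e (nat_lit 1206) (nat_lit 89) (.e (nat_lit 73753) (nat_lit 8) (.e (nat_lit 557093) (nat_lit 12) (.e (nat_lit 164239) (nat_lit 187) .nil)))) .nil)) 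
(.lf (nat_lit 33256) (.g (nat_lit 3353) (.e (nat_lit 1207) (nat_lit 89) (.e (nat_lit 73746) (nat_lit 3) (.e (nat_lit 516166) (nat_lit 12) (.e (nat_lit 450587) (nat_lit 10) (.e (nat_lit 573478) (nat_lit 12) (.e (nat_lit 57356) (nat_lit 0) (.e (nat_lit 7147) (nat_lit 382) .nil))))))) (.g (nat_lit 4) .nil .nil))))) (.nd (nat_lit 5) (.nd (nat_lit 6) 
(.lf (nat_lit 33176) (.g (nat_lit 1557) (.e (nat_lit 1205) (nat_lit 89) (.e (nat_lit 73746) (nat_lit 3) (.e (nat_lit 516165) (nat_lit 12) (.e (nat_lit 450579) (nat_lit 5) .nil)))) .nil)) 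
(.lf (nat_lit 33240) (.g (nat_lit 3147) (.e (nat_lit 1207) (nat_lit 89) (.e (nat_lit 73746) (nat_lit 3) (.e (nat_lit 516165) (nat_lit 12) (.e (nat_lit 450579) (nat_lit 5) (.e (nat_lit 532504) (nat_lit 1) (.e (nat_lit 65280) (nat_lit 221) .nil)))))) (.g (nat_lit 5) .nil .nil)))) (.nd (nat_lit 6) 
(.lf (nat_lit 33208) (.g (nat_lit 3471) (.e (nat_lit 1206) (nat_lit 89) (.e (nat_lit 73755) (nat_lit 8) (.e (nat_lit 557067) (nat_lit 9) (.e (nat_lit 2828) (nat_lit 182) (.e (nat_lit 409646) (nat_lit 18) (.e (nat_lit 303151) (nat_lit 27) (.e (nat_lit 335995) (nat_lit 1) (.e (nat_lit 57655) (nat_lit 152) .nil)))))))) (.g (nat_lit 4) .nil .nil))) 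
(.lf (nat_lit 33272) (.g (nat_lit 3027) (.e (nat_lit 1207) (nat_lit 89) (.e (nat_lit 73753) (nat_lit 8) (.e (nat_lit 557091) (nat_lit 12) (.e (nat_lit 164238) (nat_lit 187) (.e (nat_lit 1658) (nat_lit 115) (.e (nat_lit 393253) (nat_lit 18) (.e (nat_lit 164150) (nat_lit 152) .nil))))))) (.g (nat_lit 6) .nil .nil))))))) (.nd (nat_lit 3) (.nd (nat_lit 4) (.nd (nat_lit 5) (.nd (nat_lit 6) 
(.lf (nat_lit 33156) (.g (nat_lit 2522) (.e (nat_lit 7936) (nat_lit 88) (.e (nat_lit 65630) (nat_lit 14) (.e (nat_lit 401454) (nat_lit 12) (.e (nat_lit 475212) (nat_lit 42) (.e (nat_lit 720956) (nat_lit 25) .nil))))) .nil)) 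
(.lf (nat_lit 33220) (.g (nat_lit 1648) (.e (nat_lit 1206) (nat_lit 89) (.e (nat_lit 73755) (nat_lit 8) (.e (nat_lit 557105) (nat_lit 14) (.e (nat_lit 180265) (nat_lit 21) (.e (nat_lit 663566) (nat_lit 4) .nil))))) .nil))) (.nd (nat_lit 6) 
(.lf (nat_lit 33188) (.g (nat_lit 2202) (.e (nat_lit 1206) (nat_lit 89) (.e (nat_lit 73753) (nat_lit 8) (.e (nat_lit 557067) (nat_lit 9) (.e (nat_lit 2828) (nat_lit 182) .nil)))) .nil)) 
(.lf (nat_lit 33252) (.g (nat_lit 4712) (.e (nat_lit 1207) (nat_lit 89) (.e (nat_lit 73746) (nat_lit 3) (.e (nat_lit 516165) (nat_lit 12) (.e (nat_lit 450588) (nat_lit 10) (.e (nat_lit 573473) (nat_lit 12) (.e (nat_lit 57354) (nat_lit 0) (.e (nat_lit 7147) (nat_lit 382) .nil))))))) (.g (nat_lit 6) .nil .nil))))) (.nd (nat_lit 5) (.nd (nat_lit 6) 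
(.lf (nat_lit 33172) (.g (nat_lit 2680) (.e (nat_lit 7936) (nat_lit 88) (.e (nat_lit 65630) (nat_lit 14) (.e (nat_lit 401459) (nat_lit 13) (.e (nat_lit 483397) (nat_lit 25) .nil)))) .nil)) 
(.lf (nat_lit 33236) (.g (nat_lit 2294) (.e (nat_lit 1207) (nat_lit 89) (.e (nat_lit 73746) (nat_lit 3) (.e (nat_lit 516163) (nat_lit 11) (.e (nat_lit 442427) (nat_lit 23) (.e (nat_lit 212736) (nat_lit 1) .nil))))) .nil))) (.nd (nat_lit 6) 
(.lf (nat_lit 33204) (.g (nat_lit 1742) (.e (nat_lit 1206) (nat_lit 89) (.e (nat_lit 73754) (nat_lit 8) (.e (nat_lit 557105) (nat_lit 14) (.e (nat_lit 180265) (nat_lit 21) .nil)))) .nil)) 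
(.lf (nat_lit 33268) (.g (nat_lit 1430) (.e (nat_lit 1207) (nat_lit 89) (.e (nat_lit 73753) (nat_lit 8) (.e (nat_lit 557068) (nat_lit 9) (.e (nat_lit 3104) (nat_lit 192) .nil)))) .nil))))) (.nd (nat_lit 4) (.nd (nat_lit 5) (.nd (nat_lit 6) 
(.lf (nat_lit 33164) (.g (nat_lit 2178) (.e (nat_lit 7936) (nat_lit 88) (.e (nat_lit 65630) (nat_lit 14) (.e (nat_lit 401459) (nat_lit 13) (.e (nat_lit 483372) (nat_lit 21) .nil)))) .nil)) 
(.lf (nat_lit 33228) (.g (nat_lit 1763) (.e (nat_lit 1207) (nat_lit 89) (.e (nat_lit 73746) (nat_lit 3) (.e (nat_lit 516117) (nat_lit 1) (.e (nat_lit 164232) (nat_lit 185) .nil)))) .nil))) (.nd (nat_lit 6) 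
(.lf (nat_lit 33196) (.g (nat_lit 1785) (.e (nat_lit 1206) (nat_lit 89) (.e (nat_lit 73753) (nat_lit 8) (.e (nat_lit 557103) (nat_lit 14) (.e (nat_lit 180263) (nat_lit 21) .nil)))) .nil)) 
(.lf (nat_lit 33260) (.g (nat_lit 1024) (.e (nat_lit 1207) (nat_lit 89) (.e (nat_lit 73746) (nat_lit 3) (.e (nat_lit 516174) (nat_lit 14) (.e (nat_lit 466980) (nat_lit 23) .nil)))) .nil)))) (.nd (nat_lit 5) (.nd (nat_lit 6) 
(.lf (nat_lit 33180) (.g (nat_lit 528) (.e (nat_lit 1206) (nat_lit 89) (.e (nat_lit 73746) (nat_lit 3) (.e (nat_lit 516176) (nat_lit 14) .nil))) .nil)) 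
(.lf (nat_lit 33244) (.g (nat_lit 2342) (.e (nat_lit 1207) (nat_lit 89) (.e (nat_lit 73746) (nat_lit 3) (.e (nat_lit 516165) (nat_lit 12) (.e (nat_lit 450586) (nat_lit 10) (.e (nat_lit 573477) (nat_lit 12) (.e (nat_lit 57357) (nat_lit 0) (.e (nat_lit 7147) (nat_lit 382) .nil))))))) (.g (nat_lit 4) .nil .nil)))) (.nd (nat_lit 6) 
(.lf (nat_lit 33212) (.g (nat_lit 846) (.e (nat_lit 1206) (nat_lit 89) (.e (nat_lit 73755) (nat_lit 8) (.e (nat_lit 557103) (nat_lit 14) .nil))) .nil)) 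
(.lf (nat_lit 33276) (.g (nat_lit 3846) (.e (nat_lit 1207) (nat_lit 89) (.e (nat_lit 73753) (nat_lit 8) (.e (nat_lit 557091) (nat_lit 12) (.e (nat_lit 164238) (nat_lit 187) (.e (nat_lit 1661) (nat_lit 115) (.e (nat_lit 393253) (nat_lit 18) (.e (nat_lit 164150) (nat_lit 152) .nil))))))) (.g (nat_lit 6) .nil .nil)))))))) 
(.nd (nat_lit 2) (.nd (nat_lit 3) (.nd (nat_lit 4) (.nd (nat_lit 5) (.nd (nat_lit 6) 
(.lf (nat_lit 33154) (.g (nat_lit 1662) (.e (nat_lit 7936) (nat_lit 88) (.e (nat_lit 65630) (nat_lit 14) (.e (nat_lit 401454) (nat_lit 12) (.e (nat_lit 475193) (nat_lit 38) .nil)))) .nil)) 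
(.lf (nat_lit 33218) (.g (nat_lit 2020) (.e (nat_lit 1206) (nat_lit 89) (.e (nat_lit 73755) (nat_lit 8) (.e (nat_lit 557105) (nat_lit 14) (.e (nat_lit 180264) (nat_lit 21) .nil)))) .nil))) (.nd (nat_lit 6) 
(.lf (nat_lit 33186) (.g (nat_lit 5268) (.e (nat_lit 1206) (nat_lit 89) (.e (nat_lit 73747) (nat_lit 3) (.e (nat_lit 516166) (nat_lit 12) (.e (nat_lit 450588) (nat_lit 10) (.e (nat_lit 573475) (nat_lit 12) (.e (nat_lit 57354) (nat_lit 0) (.e (nat_lit 7147) (nat_lit 382) .nil))))))) (.g (nat_lit 7) .nil .nil))) 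
(.lf (nat_lit 33250) (.g (nat_lit 3076) (.e (nat_lit 1207) (nat_lit 89) (.e (nat_lit 73746) (nat_lit 3) (.e (nat_lit 516165) (nat_lit 12) (.e (nat_lit 450588) (nat_lit 10) (.e (nat_lit 573449) (nat_lit 9) .nil))))) .nil)))) (.nd (nat_lit 5) (.nd (nat_lit 6) 
(.lf (nat_lit 33170) (.g (nat_lit 2426) (.e (nat_lit 7936) (nat_lit 88) (.e (nat_lit 65630) (nat_lit 14) (.e (nat_lit 401459) (nat_lit 13) (.e (nat_lit 483395) (nat_lit 24) (.e (nat_lit 344096) (nat_lit 18) .nil))))) .nil)) 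
(.lf (nat_lit 33234) (.g (nat_lit 1613) (.e (nat_lit 1207) (nat_lit 89) (.e (nat_lit 73746) (nat_lit 3) (.e (nat_lit 516150) (nat_lit 9) (.e (nat_lit 426294) (nat_lit 11) (.e (nat_lit 466688) (nat_lit 21) .nil))))) .nil))) (.nd (nat_lit 6) 
(.lf (nat_lit 33202) (.g (nat_lit 2291) (.e (nat_lit 1206) (nat_lit 89) (.e (nat_lit 73754) (nat_lit 8) (.e (nat_lit 557105) (nat_lit 14) (.e (nat_lit 180262) (nat_lit 21) .nil)))) .nil)) 
(.lf (nat_lit 33266) (.g (nat_lit 2133) (.e (nat_lit 1207) (nat_lit 89) (.e (nat_lit 73746) (nat_lit 3) (.e (nat_lit 516176) (nat_lit 14) (.e (nat_lit 466981) (nat_lit 23) (.e (nat_lit 204801) (nat_lit 0) .nil))))) .nil))))) (.nd (nat_lit 4) (.nd (nat_lit 5) (.nd (nat_lit 6) 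
(.lf (nat_lit 33162) (.g (nat_lit 1798) (.e (nat_lit 7936) (nat_lit 88) (.e (nat_lit 65630) (nat_lit 14) (.e (nat_lit 401459) (nat_lit 13) (.e (nat_lit 483344) (nat_lit 17) .nil)))) .nil)) 
(.lf (nat_lit 33226) (.g (nat_lit 5167) (.e (nat_lit 1207) (nat_lit 89) (.e (nat_lit 73729) (nat_lit 0) (.e (nat_lit 7454) (nat_lit 396) (.e (nat_lit 1221) (nat_lit 90) (.e (nat_lit 81956) (nat_lit 23) (.e (nat_lit 98333) (nat_lit 18) (.e (nat_lit 164151) (nat_lit 152) .nil))))))) (.g (nat_lit 6) .nil .nil)))) (.nd (nat_lit 6) 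
(.lf (nat_lit 33194) (.g (nat_lit 731) (.e (nat_lit 1206) (nat_lit 89) (.e (nat_lit 73753) (nat_lit 8) (.e (nat_lit 557103) (nat_lit 14) .nil))) .nil)) 
(.lf (nat_lit 33258) (.g (nat_lit 492) (.e (nat_lit 1207) (nat_lit 89) (.e (nat_lit 73746) (nat_lit 3) (.e (nat_lit 516174) (nat_lit 14) .nil))) .nil)))) (.nd (nat_lit 5) (.nd (nat_lit 6) 
(.lf (nat_lit 33178) (.g (nat_lit 3166) (.e (nat_lit 1205) (nat_lit 89) (.e (nat_lit 73754) (nat_lit 8) (.e (nat_lit 557091) (nat_lit 12) (.e (nat_lit 164238) (nat_lit 187) (.e (nat_lit 1661) (nat_lit 115) .nil))))) .nil)) 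
(.lf (nat_lit 33242) (.g (nat_lit 3831) (.e (nat_lit 1207) (nat_lit 89) (.e (nat_lit 73746) (nat_lit 3) (.e (nat_lit 516165) (nat_lit 12) (.e (nat_lit 450586) (nat_lit 10) (.e (nat_lit 573473) (nat_lit 12) (.e (nat_lit 57354) (nat_lit 0) (.e (nat_lit 7147) (nat_lit 382) .nil))))))) (.g (nat_lit 6) .nil .nil)))) (.nd (nat_lit 6) 
(.lf (nat_lit 33210) (.g (nat_lit 2813) (.e (nat_lit 1206) (nat_lit 89) (.e (nat_lit 73755) (nat_lit 8) (.e (nat_lit 557091) (nat_lit 12) (.e (nat_lit 164238) (nat_lit 187) (.e (nat_lit 1661) (nat_lit 115) (.e (nat_lit 393251) (nat_lit 18) (.e (nat_lit 164148) (nat_lit 152) .nil))))))) (.g (nat_lit 5) .nil .nil))) 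
(.lf (nat_lit 33274) (.g (nat_lit 2095) (.e (nat_lit 1207) (nat_lit 89) (.e (nat_lit 73753) (nat_lit 8) (.e (nat_lit 557091) (nat_lit 12) (.e (nat_lit 164238) (nat_lit 187) (.e (nat_lit 1660) (nat_lit 115) (.e (nat_lit 393253) (nat_lit 18) (.e (nat_lit 164149) (nat_lit 152) .nil))))))) (.g (nat_lit 4) .nil .nil))))))) (.nd (nat_lit 3) (.nd (nat_lit 4) (.nd (nat_lit 5) (.nd (nat_lit 6) 
(.lf (nat_lit 33158) (.g (nat_lit 2317) (.e (nat_lit 7936) (nat_lit 88) (.e (nat_lit 65630) (nat_lit 14) (.e (nat_lit 401454) (nat_lit 12) (.e (nat_lit 475214) (nat_lit 42) .nil)))) .nil)) 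
(.lf (nat_lit 33222) (.g (nat_lit 980) (.e (nat_lit 1206) (nat_lit 89) (.e (nat_lit 73782) (nat_lit 32) (.e (nat_lit 2608) (nat_lit 163) (.e (nat_lit 164177) (nat_lit 154) .nil)))) .nil))) (.nd (nat_lit 6) 
(.lf (nat_lit 33190) (.g (nat_lit 2110) (.e (nat_lit 1206) (nat_lit 89) (.e (nat_lit 73753) (nat_lit 8) (.e (nat_lit 557091) (nat_lit 12) (.e (nat_lit 164238) (nat_lit 187) (.e (nat_lit 1660) (nat_lit 115) .nil))))) .nil)) 
(.lf (nat_lit 33254) (.g (nat_lit 4942) (.e (nat_lit 1207) (nat_lit 89) (.e (nat_lit 73746) (nat_lit 3) (.e (nat_lit 516166) (nat_lit 12) (.e (nat_lit 450587) (nat_lit 10) (.e (nat_lit 573473) (nat_lit 12) .nil))))) .nil)))) (.nd (nat_lit 5) (.nd (nat_lit 6) 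
(.lf (nat_lit 33174) (.g (nat_lit 2273) (.e (nat_lit 7936) (nat_lit 88) (.e (nat_lit 65630) (nat_lit 14) (.e (nat_lit 401459) (nat_lit 13) (.e (nat_lit 483399) (nat_lit 25) .nil)))) .nil)) 
(.lf (nat_lit 33238) (.g (nat_lit 2558) (.e (nat_lit 1207) (nat_lit 89) (.e (nat_lit 73746) (nat_lit 3) (.e (nat_lit 516165) (nat_lit 12) (.e (nat_lit 450579) (nat_lit 5) (.e (nat_lit 532499) (nat_lit 1) (.e (nat_lit 65280) (nat_lit 221) .nil)))))) (.g (nat_lit 5) .nil .nil)))) (.nd (nat_lit 6) 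
(.lf (nat_lit 33206) (.g (nat_lit 2247) (.e (nat_lit 1206) (nat_lit 89) (.e (nat_lit 73754) (nat_lit 8) (.e (nat_lit 557105) (nat_lit 14) (.e (nat_lit 180266) (nat_lit 22) (.e (nat_lit 671762) (nat_lit 4) .nil))))) .nil)) 
(.lf (nat_lit 33270) (.g (nat_lit 3371) (.e (nat_lit 1207) (nat_lit 89) (.e (nat_lit 73753) (nat_lit 8) (.e (nat_lit 557090) (nat_lit 12) (.e (nat_lit 164238) (nat_lit 187) (.e (nat_lit 1661) (nat_lit 115) .nil))))) .nil))))) (.nd (nat_lit 4) (.nd (nat_lit 5) (.nd (nat_lit 6) 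
(.lf (nat_lit 33166) (.g (nat_lit 2536) (.e (nat_lit 7936) (nat_lit 88) (.e (nat_lit 65630) (nat_lit 14) (.e (nat_lit 401459) (nat_lit 13) (.e (nat_lit 483393) (nat_lit 23) .nil)))) .nil)) 
(.lf (nat_lit 33230) (.g (nat_lit 522) (.e (nat_lit 1207) (nat_lit 89) (.e (nat_lit 73746) (nat_lit 3) (.e (nat_lit 516146) (nat_lit 9) .nil))) .nil))) (.nd (nat_lit 6) 
(.lf (nat_lit 33198) (.g (nat_lit 638) (.e (nat_lit 1206) (nat_lit 89) (.e (nat_lit 73753) (nat_lit 8) (.e (nat_lit 557105) (nat_lit 14) .nil))) .nil)) 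
(.lf (nat_lit 33262) (.g (nat_lit 1296) (.e (nat_lit 1207) (nat_lit 89) (.e (nat_lit 73746) (nat_lit 3) (.e (nat_lit 516176) (nat_lit 14) (.e (nat_lit 466976) (nat_lit 22) .nil)))) .nil)))) (.nd (nat_lit 5) (.nd (nat_lit 6) 
(.lf (nat_lit 33182) (.g (nat_lit 783) (.e (nat_lit 1206) (nat_lit 89) (.e (nat_lit 73747) (nat_lit 3) (.e (nat_lit 516163) (nat_lit 11) .nil))) .nil)) 
(.lf (nat_lit 33246) (.g (nat_lit 2618) (.e (nat_lit 1207) (nat_lit 89) (.e (nat_lit 73746) (nat_lit 3) (.e (nat_lit 516165) (nat_lit 12) (.e (nat_lit 450586) (nat_lit 10) (.e (nat_lit 573478) (nat_lit 12) (.e (nat_lit 57356) (nat_lit 0) (.e (nat_lit 7147) (nat_lit 382) .nil))))))) (.g (nat_lit 4) .nil .nil)))) (.nd (nat_lit 6) 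
(.lf (nat_lit 33214) (.g (nat_lit 1792) (.e (nat_lit 1206) (nat_lit 89) (.e (nat_lit 73755) (nat_lit 8) (.e (nat_lit 557104) (nat_lit 14) (.e (nat_lit 180229) (nat_lit 0) .nil)))) .nil)) 
(.lf (nat_lit 33278) (.g (nat_lit 2923) (.e (nat_lit 1207) (nat_lit 89) (.e (nat_lit 73753) (nat_lit 8) (.e (nat_lit 557093) (nat_lit 12) (.e (nat_lit 164238) (nat_lit 187) (.e (nat_lit 1661) (nat_lit 115) (.e (nat_lit 393251) (nat_lit 18) (.e (nat_lit 164148) (nat_lit 152) .nil))))))) (.g (nat_lit 5) .nil .nil))))))))) 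
(.nd (nat_lit 1) (.nd (nat_lit 2) (.nd (nat_lit 3) (.nd (nat_lit 4) (.nd (nat_lit 5) 
(.nd (nat_lit 6) 
(.lf (nat_lit 33153) (.g (nat_lit 2540) (.e (nat_lit 7936) (nat_lit 88) (.e (nat_lit 65630) (nat_lit 14) (.e (nat_lit 401452) (nat_lit 12) (.e (nat_lit 475214) (nat_lit 42) (.e (nat_lit 720956) (nat_lit 25) .nil))))) .nil)) 
(.lf (nat_lit 33217) (.g (nat_lit 535) (.e (nat_lit 1206) (nat_lit 89) (.e (nat_lit 73755) (nat_lit 8) (.e (nat_lit 557105) (nat_lit 14) .nil))) .nil))) (.nd (nat_lit 6) 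
(.lf (nat_lit 33185) (.g (nat_lit 3029) (.e (nat_lit 1206) (nat_lit 89) (.e (nat_lit 73747) (nat_lit 3) (.e (nat_lit 516166) (nat_lit 12) (.e (nat_lit 450587) (nat_lit 10) (.e (nat_lit 573478) (nat_lit 12) .nil))))) .nil)) 
(.lf (nat_lit 33249) (.g (nat_lit 2104) (.e (nat_lit 1207) (nat_lit 89) (.e (nat_lit 73746) (nat_lit 3) (.e (nat_lit 516165) (nat_lit 12) (.e (nat_lit 450587) (nat_lit 10) (.e (nat_lit 573478) (nat_lit 12) (.e (nat_lit 57356) (nat_lit 0) (.e (nat_lit 7147) (nat_lit 382) .nil))))))) (.g (nat_lit 4) .nil .nil))))) (.nd (nat_lit 5) (.nd (nat_lit 6) 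
(.lf (nat_lit 33169) (.g (nat_lit 2646) (.e (nat_lit 7936) (nat_lit 88) (.e (nat_lit 65630) (nat_lit 14) (.e (nat_lit 401459) (nat_lit 13) (.e (nat_lit 483395) (nat_lit 24) (.e (nat_lit 344088) (nat_lit 18) .nil))))) .nil)) 
(.lf (nat_lit 33233) (.g (nat_lit 1696) (.e (nat_lit 1207) (nat_lit 89) (.e (nat_lit 73746) (nat_lit 3) (.e (nat_lit 516146) (nat_lit 9) (.e (nat_lit 426462) (nat_lit 23) .nil)))) .nil))) (.nd (nat_lit 6) 
(.lf (nat_lit 33201) (.g (nat_lit 1788) (.e (nat_lit 1206) (nat_lit 89) (.e (nat_lit 73754) (nat_lit 8) (.e (nat_lit 557105) (nat_lit 14) (.e (nat_lit 180227) (nat_lit 0) .nil)))) .nil)) 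
(.lf (nat_lit 33265) (.g (nat_lit 1118) (.e (nat_lit 1207) (nat_lit 89) (.e (nat_lit 73746) (nat_lit 3) (.e (nat_lit 516176) (nat_lit 14) (.e (nat_lit 466980) (nat_lit 23) .nil)))) .nil))))) (.nd (nat_lit 4) (.nd (nat_lit 5) (.nd (nat_lit 6) 
(.lf (nat_lit 33161) (.g (nat_lit 1507) (.e (nat_lit 7936) (nat_lit 88) (.e (nat_lit 65630) (nat_lit 14) (.e (nat_lit 401458) (nat_lit 13) (.e (nat_lit 483383) (nat_lit 23) (.e (nat_lit 335878) (nat_lit 0) .nil))))) .nil)) 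
(.lf (nat_lit 33225) (.g (nat_lit 1847) (.e (nat_lit 1206) (nat_lit 89) (.e (nat_lit 81664) (nat_lit 32) (.e (nat_lit 2685) (nat_lit 168) (.e (nat_lit 204866) (nat_lit 28) (.e (nat_lit 352318) (nat_lit 24) (.e (nat_lit 130816) (nat_lit 140) .nil)))))) (.g (nat_lit 5) .nil .nil)))) (.nd (nat_lit 6) 
(.lf (nat_lit 33193) (.g (nat_lit 668) (.e (nat_lit 1206) (nat_lit 89) (.e (nat_lit 73753) (nat_lit 8) (.e (nat_lit 557094) (nat_lit 12) .nil))) .nil)) 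
(.lf (nat_lit 33257) (.g (nat_lit 4869) (.e (nat_lit 1207) (nat_lit 89) (.e (nat_lit 73746) (nat_lit 3) (.e (nat_lit 516166) (nat_lit 12) (.e (nat_lit 450588) (nat_lit 10) (.e (nat_lit 573475) (nat_lit 12) (.e (nat_lit 57354) (nat_lit 0) (.e (nat_lit 7147) (nat_lit 382) .nil))))))) (.g (nat_lit 6) .nil .nil))))) (.nd (nat_lit 5) (.nd (nat_lit 6) 
(.lf (nat_lit 33177) (.g (nat_lit 2535) (.e (nat_lit 1205) (nat_lit 89) (.e (nat_lit 73753) (nat_lit 8) (.e (nat_lit 557093) (nat_lit 12) (.e (nat_lit 164239) (nat_lit 187) (.e (nat_lit 1661) (nat_lit 115) (.e (nat_lit 393251) (nat_lit 18) (.e (nat_lit 164156) (nat_lit 152) .nil))))))) (.g (nat_lit 5) .nil .nil))) 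
(.lf (nat_lit 33241) (.g (nat_lit 2294) (.e (nat_lit 1207) (nat_lit 89) (.e (nat_lit 73746) (nat_lit 3) (.e (nat_lit 516165) (nat_lit 12) (.e (nat_lit 450586) (nat_lit 10) (.e (nat_lit 573473) (nat_lit 12) .nil))))) .nil))) (.nd (nat_lit 6) 
(.lf (nat_lit 33209) (.g (nat_lit 1996) (.e (nat_lit 1206) (nat_lit 89) (.e (nat_lit 73755) (nat_lit 8) (.e (nat_lit 557091) (nat_lit 12) (.e (nat_lit 164238) (nat_lit 187) (.e (nat_lit 1660) (nat_lit 115) (.e (nat_lit 393253) (nat_lit 18) (.e (nat_lit 164150) (nat_lit 152) .nil))))))) (.g (nat_lit 4) .nil .nil))) 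
(.lf (nat_lit 33273) (.g (nat_lit 3831) (.e (nat_lit 1207) (nat_lit 89) (.e (nat_lit 73753) (nat_lit 8) (.e (nat_lit 557091) (nat_lit 12) (.e (nat_lit 164238) (nat_lit 187) (.e (nat_lit 1659) (nat_lit 115) (.e (nat_lit 393253) (nat_lit 18) (.e (nat_lit 164150) (nat_lit 152) .nil))))))) (.g (nat_lit 6) .nil .nil))))))) (.nd (nat_lit 3) (.nd (nat_lit 4) (.nd (nat_lit 5) (.nd (nat_lit 6) 
(.lf (nat_lit 33157) (.g (nat_lit 2718) (.e (nat_lit 7936) (nat_lit 88) (.e (nat_lit 65630) (nat_lit 14) (.e (nat_lit 401454) (nat_lit 12) (.e (nat_lit 475213) (nat_lit 42) .nil)))) .nil)) 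
(.lf (nat_lit 33221) (.g (nat_lit 4337) (.e (nat_lit 1206) (nat_lit 89) (.e (nat_lit 73781) (nat_lit 32) (.e (nat_lit 2682) (nat_lit 168) (.e (nat_lit 204869) (nat_lit 29) (.e (nat_lit 360451) (nat_lit 0) (.e (nat_lit 3928) (nat_lit 239) .nil)))))) (.g (nat_lit 5) .nil .nil)))) (.nd (nat_lit 6) 
(.lf (nat_lit 33189) (.g (nat_lit 1540) (.e (nat_lit 1206) (nat_lit 89) (.e (nat_lit 73753) (nat_lit 8) (.e (nat_lit 557091) (nat_lit 12) (.e (nat_lit 164213) (nat_lit 176) .nil)))) .nil)) 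
(.lf (nat_lit 33253) (.g (nat_lit 3007) (.e (nat_lit 1207) (nat_lit 89) (.e (nat_lit 73746) (nat_lit 3) (.e (nat_lit 516166) (nat_lit 12) (.e (nat_lit 450585) (nat_lit 10) (.e (nat_lit 573474) (nat_lit 12) .nil))))) .nil)))) (.nd (nat_lit 5) (.nd (nat_lit 6) 
(.lf (nat_lit 33173) (.g (nat_lit 2238) (.e (nat_lit 7936) (nat_lit 88) (.e (nat_lit 65630) (nat_lit 14) (.e (nat_lit 401459) (nat_lit 13) (.e (nat_lit 483398) (nat_lit 25) .nil)))) .nil)) 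
(.lf (nat_lit 33237) (.g (nat_lit 1307) (.e (nat_lit 1207) (nat_lit 89) (.e (nat_lit 73746) (nat_lit 3) (.e (nat_lit 516165) (nat_lit 12) (.e (nat_lit 458496) (nat_lit 3) .nil)))) .nil))) (.nd (nat_lit 6) 
(.lf (nat_lit 33205) (.g (nat_lit 2555) (.e (nat_lit 1206) (nat_lit 89) (.e (nat_lit 73754) (nat_lit 8) (.e (nat_lit 557105) (nat_lit 14) (.e (nat_lit 180265) (nat_lit 21) (.e (nat_lit 663566) (nat_lit 4) .nil))))) .nil)) 
(.lf (nat_lit 33269) (.g (nat_lit 2523) (.e (nat_lit 1207) (nat_lit 89) (.e (nat_lit 73753) (nat_lit 8) (.e (nat_lit 557090) (nat_lit 12) (.e (nat_lit 164238) (nat_lit 187) .nil)))) .nil))))) (.nd (nat_lit 4) (.nd (nat_lit 5) (.nd (nat_lit 6) 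
(.lf (nat_lit 33165) (.g (nat_lit 2116) (.e (nat_lit 7936) (nat_lit 88) (.e (nat_lit 65630) (nat_lit 14) (.e (nat_lit 401459) (nat_lit 13) (.e (nat_lit 483375) (nat_lit 22) .nil)))) .nil)) 
(.lf (nat_lit 33229) (.g (nat_lit 819) (.e (nat_lit 1207) (nat_lit 89) (.e (nat_lit 73746) (nat_lit 3) (.e (nat_lit 516131) (nat_lit 3) (.e (nat_lit 221219) (nat_lit 24) .nil)))) .nil))) (.nd (nat_lit 6) 
(.lf (nat_lit 33197) (.g (nat_lit 2523) (.e (nat_lit 1206) (nat_lit 89) (.e (nat_lit 73753) (nat_lit 8) (.e (nat_lit 557103) (nat_lit 14) (.e (nat_lit 180266) (nat_lit 22) .nil)))) .nil)) 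
(.lf (nat_lit 33261) (.g (nat_lit 1695) (.e (nat_lit 1207) (nat_lit 89) (.e (nat_lit 73746) (nat_lit 3) (.e (nat_lit 516176) (nat_lit 14) (.e (nat_lit 466975) (nat_lit 22) (.e (nat_lit 196661) (nat_lit 12) (.e (nat_lit 57353) (nat_lit 0) (.e (nat_lit 4452) (nat_lit 263) .nil))))))) (.g (nat_lit 5) .nil .nil))))) (.nd (nat_lit 5) (.nd (nat_lit 6) 
(.lf (nat_lit 33181) (.g (nat_lit 1414) (.e (nat_lit 1206) (nat_lit 89) (.e (nat_lit 73746) (nat_lit 3) (.e (nat_lit 516176) (nat_lit 14) (.e (nat_lit 466976) (nat_lit 22) .nil)))) .nil)) 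
(.lf (nat_lit 33245) (.g (nat_lit 2458) (.e (nat_lit 1207) (nat_lit 89) (.e (nat_lit 73746) (nat_lit 3) (.e (nat_lit 516165) (nat_lit 12) (.e (nat_lit 450586) (nat_lit 10) (.e (nat_lit 573478) (nat_lit 12) .nil))))) .nil))) (.nd (nat_lit 6) 
(.lf (nat_lit 33213) (.g (nat_lit 768) (.e (nat_lit 1206) (nat_lit 89) (.e (nat_lit 73755) (nat_lit 8) (.e (nat_lit 557104) (nat_lit 14) .nil))) .nil)) 
(.lf (nat_lit 33277) (.g (nat_lit 1993) (.e (nat_lit 1207) (nat_lit 89) (.e (nat_lit 73753) (nat_lit 8) (.e (nat_lit 557093) (nat_lit 12) (.e (nat_lit 164238) (nat_lit 187) (.e (nat_lit 1658) (nat_lit 115) .nil))))) .nil))))))) (.nd (nat_lit 2) (.nd (nat_lit 3) (.nd (nat_lit 4) (.nd (nat_lit 5) (.nd (nat_lit 6) 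
(.lf (nat_lit 33155) (.g (nat_lit 1938) (.e (nat_lit 7936) (nat_lit 88) (.e (nat_lit 65630) (nat_lit 14) (.e (nat_lit 401454) (nat_lit 12) (.e (nat_lit 475212) (nat_lit 42) .nil)))) .nil)) 
(.lf (nat_lit 33219) (.g (nat_lit 1282) (.e (nat_lit 1206) (nat_lit 89) (.e (nat_lit 73755) (nat_lit 8) (.e (nat_lit 557105) (nat_lit 14) (.e (nat_lit 180265) (nat_lit 21) .nil)))) .nil))) (.nd (nat_lit 6) 
(.lf (nat_lit 33187) (.g (nat_lit 1588) (.e (nat_lit 1206) (nat_lit 89) (.e (nat_lit 73747) (nat_lit 3) (.e (nat_lit 516176) (nat_lit 14) (.e (nat_lit 466976) (nat_lit 22) .nil)))) .nil)) 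
(.lf (nat_lit 33251) (.g (nat_lit 2578) (.e (nat_lit 1207) (nat_lit 89) (.e (nat_lit 73746) (nat_lit 3) (.e (nat_lit 516165) (nat_lit 12) (.e (nat_lit 450588) (nat_lit 10) (.e (nat_lit 573473) (nat_lit 12) .nil))))) .nil)))) (.nd (nat_lit 5) (.nd (nat_lit 6) 
(.lf (nat_lit 33171) (.g (nat_lit 2316) (.e (nat_lit 7936) (nat_lit 88) (.e (nat_lit 65630) (nat_lit 14) (.e (nat_lit 401459) (nat_lit 13) (.e (nat_lit 483396) (nat_lit 24) .nil)))) .nil)) 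
(.lf (nat_lit 33235) (.g (nat_lit 1445) (.e (nat_lit 1207) (nat_lit 89) (.e (nat_lit 73746) (nat_lit 3) (.e (nat_lit 516150) (nat_lit 9) (.e (nat_lit 426320) (nat_lit 12) .nil)))) .nil))) (.nd (nat_lit 6) 
(.lf (nat_lit 33203) (.g (nat_lit 1805) (.e (nat_lit 1206) (nat_lit 89) (.e (nat_lit 73754) (nat_lit 8) (.e (nat_lit 557105) (nat_lit 14) (.e (nat_lit 180264) (nat_lit 21) .nil)))) .nil)) 
(.lf (nat_lit 33267) (.g (nat_lit 1973) (.e (nat_lit 1207) (nat_lit 89) (.e (nat_lit 73746) (nat_lit 3) (.e (nat_lit 516176) (nat_lit 14) (.e (nat_lit 466981) (nat_lit 23) (.e (nat_lit 212736) (nat_lit 1) .nil))))) .nil))))) (.nd (nat_lit 4) (.nd (nat_lit 5) (.nd (nat_lit 6) 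
(.lf (nat_lit 33163) (.g (nat_lit 2009) (.e (nat_lit 7936) (nat_lit 88) (.e (nat_lit 65630) (nat_lit 14) (.e (nat_lit 401459) (nat_lit 13) (.e (nat_lit 483350) (nat_lit 17) .nil)))) .nil)) 
(.lf (nat_lit 33227) (.g (nat_lit 1338) (.e (nat_lit 1207) (nat_lit 89) (.e (nat_lit 73746) (nat_lit 3) (.e (nat_lit 516117) (nat_lit 1) (.e (nat_lit 164226) (nat_lit 181) .nil)))) .nil))) (.nd (nat_lit 6) 
(.lf (nat_lit 33195) (.g (nat_lit 2502) (.e (nat_lit 1206) (nat_lit 89) (.e (nat_lit 73753) (nat_lit 8) (.e (nat_lit 557103) (nat_lit 14) (.e (nat_lit 180262) (nat_lit 21) .nil)))) .nil)) 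
(.lf (nat_lit 33259) (.g (nat_lit 1700) (.e (nat_lit 1207) (nat_lit 89) (.e (nat_lit 73746) (nat_lit 3) (.e (nat_lit 516174) (nat_lit 14) (.e (nat_lit 466975) (nat_lit 22) (.e (nat_lit 196661) (nat_lit 12) (.e (nat_lit 57353) (nat_lit 0) (.e (nat_lit 4452) (nat_lit 263) .nil))))))) (.g (nat_lit 5) .nil .nil))))) (.nd (nat_lit 5) (.nd (nat_lit 6) 
(.lf (nat_lit 33179) (.g (nat_lit 2725) (.e (nat_lit 1205) (nat_lit 89) (.e (nat_lit 73755) (nat_lit 8) (.e (nat_lit 557091) (nat_lit 12) (.e (nat_lit 164238) (nat_lit 187) (.e (nat_lit 1661) (nat_lit 115) (.e (nat_lit 393251) (nat_lit 18) (.e (nat_lit 164156) (nat_lit 152) .nil))))))) (.g (nat_lit 5) .nil .nil))) 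
(.lf (nat_lit 33243) (.g (nat_lit 2315) (.e (nat_lit 1207) (nat_lit 89) (.e (nat_lit 73746) (nat_lit 3) (.e (nat_lit 516165) (nat_lit 12) (.e (nat_lit 450586) (nat_lit 10) (.e (nat_lit 573477) (nat_lit 12) .nil))))) .nil))) (.nd (nat_lit 6) 
(.lf (nat_lit 33211) (.g (nat_lit 2138) (.e (nat_lit 1206) (nat_lit 89) (.e (nat_lit 73755) (nat_lit 8) (.e (nat_lit 557098) (nat_lit 13) (.e (nat_lit 172059) (nat_lit 1) .nil)))) .nil)) 
(.lf (nat_lit 33275) (.g (nat_lit 2597) (.e (nat_lit 1207) (nat_lit 89) (.e (nat_lit 73753) (nat_lit 8) (.e (nat_lit 557091) (nat_lit 12) (.e (nat_lit 164238) (nat_lit 187) (.e (nat_lit 1660) (nat_lit 115) (.e (nat_lit 393253) (nat_lit 18) (.e (nat_lit 164151) (nat_lit 152) .nil))))))) (.g (nat_lit 5) .nil .nil))))))) (.nd (nat_lit 3) (.nd (nat_lit 4) (.nd (nat_lit 5) (.nd (nat_lit 6) 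
(.lf (nat_lit 33159) (.g (nat_lit 3481) (.e (nat_lit 7936) (nat_lit 88) (.e (nat_lit 65630) (nat_lit 14) (.e (nat_lit 401454) (nat_lit 12) (.e (nat_lit 475214) (nat_lit 42) (.e (nat_lit 720955) (nat_lit 25) .nil))))) .nil)) 
(.lf (nat_lit 33223) (.g (nat_lit 4718) (.e (nat_lit 1206) (nat_lit 89) (.e (nat_lit 73782) (nat_lit 32) (.e (nat_lit 2682) (nat_lit 168) (.e (nat_lit 204869) (nat_lit 29) (.e (nat_lit 360451) (nat_lit 0) (.e (nat_lit 3928) (nat_lit 239) .nil)))))) (.g (nat_lit 6) .nil .nil)))) (.nd (nat_lit 6) 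
(.lf (nat_lit 33191) (.g (nat_lit 2103) (.e (nat_lit 1206) (nat_lit 89) (.e (nat_lit 73753) (nat_lit 8) (.e (nat_lit 557091) (nat_lit 12) (.e (nat_lit 164238) (nat_lit 187) (.e (nat_lit 1661) (nat_lit 115) .nil))))) .nil)) 
(.lf (nat_lit 33255) (.g (nat_lit 3596) (.e (nat_lit 1207) (nat_lit 89) (.e (nat_lit 73746) (nat_lit 3) (.e (nat_lit 516166) (nat_lit 12) (.e (nat_lit 450587) (nat_lit 10) (.e (nat_lit 573477) (nat_lit 12) (.e (nat_lit 57357) (nat_lit 0) (.e (nat_lit 7147) (nat_lit 382) .nil))))))) (.g (nat_lit 4) .nil .nil))))) (.nd (nat_lit 5) (.nd (nat_lit 6) 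
(.lf (nat_lit 33175) (.g (nat_lit 2424) (.e (nat_lit 7936) (nat_lit 88) (.e (nat_lit 65630) (nat_lit 14) (.e (nat_lit 401459) (nat_lit 13) (.e (nat_lit 483400) (nat_lit 25) .nil)))) .nil)) 
(.lf (nat_lit 33239) (.g (nat_lit 3131) (.e (nat_lit 1207) (nat_lit 89) (.e (nat_lit 73746) (nat_lit 3) (.e (nat_lit 516165) (nat_lit 12) (.e (nat_lit 450579) (nat_lit 5) (.e (nat_lit 532501) (nat_lit 1) (.e (nat_lit 65280) (nat_lit 221) .nil)))))) (.g (nat_lit 5) .nil .nil)))) (.nd (nat_lit 6) 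
(.lf (nat_lit 33207) (.g (nat_lit 808) (.e (nat_lit 1206) (nat_lit 89) (.e (nat_lit 73755) (nat_lit 8) (.e (nat_lit 557067) (nat_lit 9) .nil))) .nil)) 
(.lf (nat_lit 33271) (.g (nat_lit 1512) (.e (nat_lit 1207) (nat_lit 89) (.e (nat_lit 73753) (nat_lit 8) (.e (nat_lit 557091) (nat_lit 12) (.e (nat_lit 164213) (nat_lit 176) .nil)))) .nil))))) (.nd (nat_lit 4) (.nd (nat_lit 5) (.nd (nat_lit 6) 
(.lf (nat_lit 33167) (.g (nat_lit 2027) (.e (nat_lit 7936) (nat_lit 88) (.e (nat_lit 65630) (nat_lit 14) (.e (nat_lit 401459) (nat_lit 13) (.e (nat_lit 483394) (nat_lit 24) .nil)))) .nil)) 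
(.lf (nat_lit 33231) (.g (nat_lit 1920) (.e (nat_lit 1207) (nat_lit 89) (.e (nat_lit 73746) (nat_lit 3) (.e (nat_lit 516146) (nat_lit 9) (.e (nat_lit 426294) (nat_lit 11) (.e (nat_lit 466688) (nat_lit 21) .nil))))) .nil))) (.nd (nat_lit 6) 
(.lf (nat_lit 33199) (.g (nat_lit 1628) (.e (nat_lit 1206) (nat_lit 89) (.e (nat_lit 73753) (nat_lit 8) (.e (nat_lit 557105) (nat_lit 14) (.e (nat_lit 180265) (nat_lit 21) .nil)))) .nil)) 
(.lf (nat_lit 33263) (.g (nat_lit 2466) (.e (nat_lit 1207) (nat_lit 89) (.e (nat_lit 73746) (nat_lit 3) (.e (nat_lit 516176) (nat_lit 14) (.e (nat_lit 466976) (nat_lit 22) (.e (nat_lit 196661) (nat_lit 12) (.e (nat_lit 57353) (nat_lit 0) (.e (nat_lit 4452) (nat_lit 263) .nil))))))) (.g (nat_lit 5) .nil .nil))))) (.nd (nat_lit 5) (.nd (nat_lit 6) 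
(.lf (nat_lit 33183) (.g (nat_lit 5065) (.e (nat_lit 1206) (nat_lit 89) (.e (nat_lit 73747) (nat_lit 3) (.e (nat_lit 516166) (nat_lit 12) (.e (nat_lit 450587) (nat_lit 10) (.e (nat_lit 573475) (nat_lit 12) .nil))))) .nil)) 
(.lf (nat_lit 33247) (.g (nat_lit 3348) (.e (nat_lit 1207) (nat_lit 89) (.e (nat_lit 73746) (nat_lit 3) (.e (nat_lit 516165) (nat_lit 12) (.e (nat_lit 450587) (nat_lit 10) (.e (nat_lit 573475) (nat_lit 12) .nil))))) .nil))) (.nd (nat_lit 6) 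
(.lf (nat_lit 33215) (.g (nat_lit 2204) (.e (nat_lit 1206) (nat_lit 89) (.e (nat_lit 73755) (nat_lit 8) (.e (nat_lit 557104) (nat_lit 14) (.e (nat_lit 180262) (nat_lit 21) .nil)))) .nil)) 
(.lf (nat_lit 33279) (.g (nat_lit 2998) (.e (nat_lit 1207) (nat_lit 89) (.e (nat_lit 73753) (nat_lit 8) (.e (nat_lit 557093) (nat_lit 12) (.e (nat_lit 164238) (nat_lit 187) (.e (nat_lit 1661) (nat_lit 115) (.e (nat_lit 393251) (nat_lit 18) (.e (nat_lit 164151) (nat_lit 152) .nil))))))) (.g (nat_lit 5) .nil .nil))))))))))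

noncomputable def tv466 : DT := (.nd (nat_lit 0) (.nd (nat_lit 1) (.nd (nat_lit 2) (.nd (nat_lit 3) (.nd (nat_lit 4) (.nd (nat_lit 5) 
(.lf (nat_lit 33280) (.g (nat_lit 1332) (.e (nat_lit 1207) (nat_lit 89) (.e (nat_lit 73753) (nat_lit 8) (.e (nat_lit 557093) (nat_lit 12) (.e (nat_lit 164239) (nat_lit 187) .nil)))) .nil)) 
(.lf (nat_lit 33312) (.g (nat_lit 2482) (.e (nat_lit 1207) (nat_lit 89) (.e (nat_lit 73754) (nat_lit 8) (.e (nat_lit 557091) (nat_lit 12) (.e (nat_lit 164238) (nat_lit 187) (.e (nat_lit 1659) (nat_lit 115) .nil))))) .nil))) (.nd (nat_lit 5) 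
(.lf (nat_lit 33296) (.g (nat_lit 1667) (.e (nat_lit 1207) (nat_lit 89) (.e (nat_lit 73753) (nat_lit 8) (.e (nat_lit 557103) (nat_lit 14) (.e (nat_lit 180263) (nat_lit 21) .nil)))) .nil)) 
(.lf (nat_lit 33328) (.g (nat_lit 2245) (.e (nat_lit 1207) (nat_lit 89) (.e (nat_lit 73754) (nat_lit 8) (.e (nat_lit 557093) (nat_lit 12) (.e (nat_lit 164239) (nat_lit 187) (.e (nat_lit 1660) (nat_lit 115) (.e (nat_lit 393253) (nat_lit 18) (.e (nat_lit 164149) (nat_lit 152) .nil))))))) (.g (nat_lit 5) .nil .nil))))) (.nd (nat_lit 4) (.nd (nat_lit 5) 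
(.lf (nat_lit 33288) (.g (nat_lit 2404) (.e (nat_lit 1207) (nat_lit 89) (.e (nat_lit 73753) (nat_lit 8) (.e (nat_lit 557096) (nat_lit 13) (.e (nat_lit 172133) (nat_lit 15) (.e (nat_lit 2175) (nat_lit 143) (.e (nat_lit 712747) (nat_lit 28) (.e (nat_lit 434209) (nat_lit 18) (.e (nat_lit 6272) (nat_lit 337) .nil)))))))) (.g (nat_lit 5) .nil .nil))) 
(.lf (nat_lit 33320) (.g (nat_lit 3001) (.e (nat_lit 1207) (nat_lit 89) (.e (nat_lit 73754) (nat_lit 8) (.e (nat_lit 557093) (nat_lit 12) (.e (nat_lit 164238) (nat_lit 187) (.e (nat_lit 1658) (nat_lit 115) (.e (nat_lit 393253) (nat_lit 18) (.e (nat_lit 164150) (nat_lit 152) .nil))))))) (.g (nat_lit 6) .nil .nil)))) (.nd (nat_lit 5) 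
(.lf (nat_lit 33304) (.g (nat_lit 4725) (.e (nat_lit 1207) (nat_lit 89) (.e (nat_lit 73754) (nat_lit 8) (.e (nat_lit 557072) (nat_lit 9) (.e (nat_lit 3098) (nat_lit 192) (.e (nat_lit 491571) (nat_lit 13) (.e (nat_lit 393251) (nat_lit 18) (.e (nat_lit 164148) (nat_lit 152) .nil))))))) (.g (nat_lit 7) .nil .nil))) 
(.lf (nat_lit 33336) (.g (nat_lit 1357) (.e (nat_lit 1207) (nat_lit 89) (.e (nat_lit 73754) (nat_lit 8) (.e (nat_lit 557094) (nat_lit 12) (.e (nat_lit 164213) (nat_lit 176) (.e (nat_lit 2788) (nat_lit 179) (.e (nat_lit 294973) (nat_lit 28) (.e (nat_lit 434212) (nat_lit 18) (.e (nat_lit 6273) (nat_lit 337) .nil)))))))) (.g (nat_lit 4) .nil .nil)))))) 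
(.nd (nat_lit 3) (.nd (nat_lit 4) (.nd (nat_lit 5) 
(.lf (nat_lit 33284) (.g (nat_lit 624) (.e (nat_lit 1207) (nat_lit 89) (.e (nat_lit 73753) (nat_lit 8) (.e (nat_lit 557094) (nat_lit 12) .nil))) .nil)) 
(.lf (nat_lit 33316) (.g (nat_lit 2526) (.e (nat_lit 1207) (nat_lit 89) (.e (nat_lit 73754) (nat_lit 8) (.e (nat_lit 557091) (nat_lit 12) (.e (nat_lit 164238) (nat_lit 187) (.e (nat_lit 1661) (nat_lit 115) .nil))))) .nil))) (.nd (nat_lit 5) 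
(.lf (nat_lit 33300) (.g (nat_lit 2778) (.e (nat_lit 1207) (nat_lit 89) (.e (nat_lit 73753) (nat_lit 8) (.e (nat_lit 557105) (nat_lit 14) (.e (nat_lit 180261) (nat_lit 20) (.e (nat_lit 655364) (nat_lit 0) (.e (nat_lit 2964) (nat_lit 185) (.e (nat_lit 434209) (nat_lit 18) (.e (nat_lit 6272) (nat_lit 337) .nil)))))))) (.g (nat_lit 4) .nil .nil))) 
(.lf (nat_lit 33332) (.g (nat_lit 3961) (.e (nat_lit 1207) (nat_lit 89) (.e (nat_lit 73754) (nat_lit 8) (.e (nat_lit 557093) (nat_lit 12) (.e (nat_lit 164239) (nat_lit 187) (.e (nat_lit 1661) (nat_lit 115) (.e (nat_lit 393251) (nat_lit 18) (.e (nat_lit 164151) (nat_lit 152) .nil))))))) (.g (nat_lit 0) .nil .nil))))) (.nd (nat_lit 4) (.nd (nat_lit 5) 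
(.lf (nat_lit 33292) (.g (nat_lit 1444) (.e (nat_lit 1207) (nat_lit 89) (.e (nat_lit 73753) (nat_lit 8) (.e (nat_lit 557101) (nat_lit 13) (.e (nat_lit 172070) (nat_lit 4) .nil)))) .nil)) 
(.lf (nat_lit 33324) (.g (nat_lit 4167) (.e (nat_lit 1207) (nat_lit 89) (.e (nat_lit 73754) (nat_lit 8) (.e (nat_lit 557093) (nat_lit 12) (.e (nat_lit 164238) (nat_lit 187) (.e (nat_lit 1661) (nat_lit 115) (.e (nat_lit 393251) (nat_lit 18) (.e (nat_lit 164148) (nat_lit 152) .nil))))))) (.g (nat_lit 0) .nil .nil)))) (.nd (nat_lit 5) 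
(.lf (nat_lit 33308) (.g (nat_lit 1697) (.e (nat_lit 1207) (nat_lit 89) (.e (nat_lit 73754) (nat_lit 8) (.e (nat_lit 557091) (nat_lit 12) (.e (nat_lit 164213) (nat_lit 176) .nil)))) .nil)) 
(.lf (nat_lit 33340) (.g (nat_lit 1862) (.e (nat_lit 1207) (nat_lit 89) (.e (nat_lit 73754) (nat_lit 8) (.e (nat_lit 557094) (nat_lit 12) (.e (nat_lit 164238) (nat_lit 187) (.e (nat_lit 1658) (nat_lit 115) (.e (nat_lit 393253) (nat_lit 18) (.e (nat_lit 164151) (nat_lit 152) .nil))))))) (.g (nat_lit 4) .nil .nil))))))) (.nd (nat_lit 2) (.nd (nat_lit 3) (.nd (nat_lit 4) (.nd (nat_lit 5) 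
(.lf (nat_lit 33282) (.g (nat_lit 2729) (.e (nat_lit 1207) (nat_lit 89) (.e (nat_lit 73753) (nat_lit 8) (.e (nat_lit 557093) (nat_lit 12) (.e (nat_lit 164239) (nat_lit 187) (.e (nat_lit 1661) (nat_lit 115) (.e (nat_lit 393251) (nat_lit 18) (.e (nat_lit 164148) (nat_lit 152) .nil))))))) (.g (nat_lit 5) .nil .nil))) 
(.lf (nat_lit 33314) (.g (nat_lit 2526) (.e (nat_lit 1207) (nat_lit 89) (.e (nat_lit 73754) (nat_lit 8) (.e (nat_lit 557091) (nat_lit 12) (.e (nat_lit 164238) (nat_lit 187) (.e (nat_lit 1660) (nat_lit 115) .nil))))) .nil))) (.nd (nat_lit 5) 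
(.lf (nat_lit 33298) (.g (nat_lit 2042) (.e (nat_lit 1207) (nat_lit 89) (.e (nat_lit 73753) (nat_lit 8) (.e (nat_lit 557105) (nat_lit 14) (.e (nat_lit 180261) (nat_lit 20) .nil)))) .nil)) 
(.lf (nat_lit 33330) (.g (nat_lit 1331) (.e (nat_lit 1207) (nat_lit 89) (.e (nat_lit 73754) (nat_lit 8) (.e (nat_lit 557093) (nat_lit 12) (.e (nat_lit 164239) (nat_lit 187) (.e (nat_lit 1661) (nat_lit 115) .nil))))) .nil)))) (.nd (nat_lit 4) (.nd (nat_lit 5) 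
(.lf (nat_lit 33290) (.g (nat_lit 2818) (.e (nat_lit 1207) (nat_lit 89) (.e (nat_lit 73753) (nat_lit 8) (.e (nat_lit 557098) (nat_lit 13) (.e (nat_lit 172133) (nat_lit 15) (.e (nat_lit 2175) (nat_lit 143) (.e (nat_lit 712747) (nat_lit 28) (.e (nat_lit 434209) (nat_lit 18) (.e (nat_lit 6272) (nat_lit 337) .nil)))))))) (.g (nat_lit 5) .nil .nil))) 
(.lf (nat_lit 33322) (.g (nat_lit 3587) (.e (nat_lit 1207) (nat_lit 89) (.e (nat_lit 73754) (nat_lit 8) (.e (nat_lit 557093) (nat_lit 12) (.e (nat_lit 164238) (nat_lit 187) (.e (nat_lit 1660) (nat_lit 115) (.e (nat_lit 393253) (nat_lit 18) (.e (nat_lit 164150) (nat_lit 152) .nil))))))) (.g (nat_lit 7) .nil .nil)))) (.nd (nat_lit 5) 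
(.lf (nat_lit 33306) (.g (nat_lit 4699) (.e (nat_lit 1207) (nat_lit 89) (.e (nat_lit 73754) (nat_lit 8) (.e (nat_lit 557072) (nat_lit 9) (.e (nat_lit 3098) (nat_lit 192) (.e (nat_lit 491571) (nat_lit 13) (.e (nat_lit 393251) (nat_lit 18) (.e (nat_lit 164151) (nat_lit 152) .nil))))))) (.g (nat_lit 7) .nil .nil))) 
(.lf (nat_lit 33338) (.g (nat_lit 1515) (.e (nat_lit 1207) (nat_lit 89) (.e (nat_lit 73754) (nat_lit 8) (.e (nat_lit 557094) (nat_lit 12) (.e (nat_lit 164238) (nat_lit 187) (.e (nat_lit 1658) (nat_lit 115) .nil))))) .nil))))) (.nd (nat_lit 3) (.nd (nat_lit 4) (.nd (nat_lit 5) 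
(.lf (nat_lit 33286) (.g (nat_lit 1868) (.e (nat_lit 1207) (nat_lit 89) (.e (nat_lit 73753) (nat_lit 8) (.e (nat_lit 557094) (nat_lit 12) (.e (nat_lit 164238) (nat_lit 187) (.e (nat_lit 1660) (nat_lit 115) (.e (nat_lit 393253) (nat_lit 18) (.e (nat_lit 164151) (nat_lit 152) .nil))))))) (.g (nat_lit 4) .nil .nil))) 
(.lf (nat_lit 33318) (.g (nat_lit 4666) (.e (nat_lit 1207) (nat_lit 89) (.e (nat_lit 73754) (nat_lit 8) (.e (nat_lit 557091) (nat_lit 12) (.e (nat_lit 164238) (nat_lit 187) (.e (nat_lit 1661) (nat_lit 115) (.e (nat_lit 393251) (nat_lit 18) (.e (nat_lit 164151) (nat_lit 152) .nil))))))) (.g (nat_lit 7) .nil .nil)))) (.nd (nat_lit 5) 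
(.lf (nat_lit 33302) (.g (nat_lit 2118) (.e (nat_lit 1207) (nat_lit 89) (.e (nat_lit 73753) (nat_lit 8) (.e (nat_lit 557105) (nat_lit 14) (.e (nat_lit 180265) (nat_lit 21) (.e (nat_lit 663555) (nat_lit 0) .nil))))) .nil)) 
(.lf (nat_lit 33334) (.g (nat_lit 471) (.e (nat_lit 1207) (nat_lit 89) (.e (nat_lit 73754) (nat_lit 8) (.e (nat_lit 557094) (nat_lit 12) .nil))) .nil)))) (.nd (nat_lit 4) (.nd (nat_lit 5) 
(.lf (nat_lit 33294) (.g (nat_lit 1955) (.e (nat_lit 1207) (nat_lit 89) (.e (nat_lit 73753) (nat_lit 8) (.e (nat_lit 557103) (nat_lit 14) (.e (nat_lit 180229) (nat_lit 0) .nil)))) .nil)) 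
(.lf (nat_lit 33326) (.g (nat_lit 4342) (.e (nat_lit 1207) (nat_lit 89) (.e (nat_lit 73754) (nat_lit 8) (.e (nat_lit 557093) (nat_lit 12) (.e (nat_lit 164238) (nat_lit 187) (.e (nat_lit 1661) (nat_lit 115) (.e (nat_lit 393253) (nat_lit 18) (.e (nat_lit 164150) (nat_lit 152) .nil))))))) (.g (nat_lit 7) .nil .nil)))) (.nd (nat_lit 5) 
(.lf (nat_lit 33310) (.g (nat_lit 4028) (.e (nat_lit 1207) (nat_lit 89) (.e (nat_lit 73754) (nat_lit 8) (.e (nat_lit 557091) (nat_lit 12) (.e (nat_lit 164238) (nat_lit 187) (.e (nat_lit 1427) (nat_lit 108) (.e (nat_lit 336421) (nat_lit 28) (.e (nat_lit 434212) (nat_lit 18) (.e (nat_lit 6273) (nat_lit 337) .nil)))))))) (.g (nat_lit 5) .nil .nil))) 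
(.lf (nat_lit 33342) (.g (nat_lit 3619) (.e (nat_lit 1207) (nat_lit 89) (.e (nat_lit 73754) (nat_lit 8) (.e (nat_lit 557094) (nat_lit 12) (.e (nat_lit 164238) (nat_lit 187) (.e (nat_lit 1660) (nat_lit 115) (.e (nat_lit 393253) (nat_lit 18) (.e (nat_lit 164150) (nat_lit 152) .nil))))))) (.g (nat_lit 0) .nil .nil)))))))) 
(.nd (nat_lit 1) (.nd (nat_lit 2) (.nd (nat_lit 3) (.nd (nat_lit 4) (.nd (nat_lit 5) 
(.lf (nat_lit 33281) (.g (nat_lit 2443) (.e (nat_lit 1207) (nat_lit 89) (.e (nat_lit 73753) (nat_lit 8) (.e (nat_lit 557093) (nat_lit 12) (.e (nat_lit 164239) (nat_lit 187) (.e (nat_lit 1660) (nat_lit 115) (.e (nat_lit 393253) (nat_lit 18) (.e (nat_lit 164150) (nat_lit 152) .nil))))))) (.g (nat_lit 5) .nil .nil))) 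
(.lf (nat_lit 33313) (.g (nat_lit 4785) (.e (nat_lit 1207) (nat_lit 89) (.e (nat_lit 73754) (nat_lit 8) (.e (nat_lit 557091) (nat_lit 12) (.e (nat_lit 164238) (nat_lit 187) (.e (nat_lit 1659) (nat_lit 115) (.e (nat_lit 393253) (nat_lit 18) (.e (nat_lit 164150) (nat_lit 152) .nil))))))) (.g (nat_lit 7) .nil .nil)))) (.nd (nat_lit 5) 
(.lf (nat_lit 33297) (.g (nat_lit 504) (.e (nat_lit 1207) (nat_lit 89) (.e (nat_lit 73753) (nat_lit 8) (.e (nat_lit 557105) (nat_lit 14) .nil))) .nil)) 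
(.lf (nat_lit 33329) (.g (nat_lit 3553) (.e (nat_lit 1207) (nat_lit 89) (.e (nat_lit 73754) (nat_lit 8) (.e (nat_lit 557093) (nat_lit 12) (.e (nat_lit 164239) (nat_lit 187) (.e (nat_lit 1660) (nat_lit 115) (.e (nat_lit 393253) (nat_lit 18) (.e (nat_lit 164150) (nat_lit 152) .nil))))))) (.g (nat_lit 0) .nil .nil))))) (.nd (nat_lit 4) (.nd (nat_lit 5) 
(.lf (nat_lit 33289) (.g (nat_lit 543) (.e (nat_lit 1207) (nat_lit 89) (.e (nat_lit 73753) (nat_lit 8) (.e (nat_lit 557098) (nat_lit 13) .nil))) .nil)) 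
(.lf (nat_lit 33321) (.g (nat_lit 3805) (.e (nat_lit 1207) (nat_lit 89) (.e (nat_lit 73754) (nat_lit 8) (.e (nat_lit 557093) (nat_lit 12) (.e (nat_lit 164238) (nat_lit 187) (.e (nat_lit 1659) (nat_lit 115) (.e (nat_lit 393253) (nat_lit 18) (.e (nat_lit 164150) (nat_lit 152) .nil))))))) (.g (nat_lit 6) .nil .nil)))) (.nd (nat_lit 5) 
(.lf (nat_lit 33305) (.g (nat_lit 4467) (.e (nat_lit 1207) (nat_lit 89) (.e (nat_lit 73754) (nat_lit 8) (.e (nat_lit 557072) (nat_lit 9) (.e (nat_lit 3098) (nat_lit 192) (.e (nat_lit 491571) (nat_lit 13) (.e (nat_lit 393251) (nat_lit 18) (.e (nat_lit 164150) (nat_lit 152) .nil))))))) (.g (nat_lit 7) .nil .nil))) 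
(.lf (nat_lit 33337) (.g (nat_lit 2020) (.e (nat_lit 1207) (nat_lit 89) (.e (nat_lit 73754) (nat_lit 8) (.e (nat_lit 557094) (nat_lit 12) (.e (nat_lit 164213) (nat_lit 176) (.e (nat_lit 2789) (nat_lit 179) (.e (nat_lit 294973) (nat_lit 28) (.e (nat_lit 434212) (nat_lit 18) (.e (nat_lit 6272) (nat_lit 337) .nil)))))))) (.g (nat_lit 6) .nil .nil)))))) 
(.nd (nat_lit 3) (.nd (nat_lit 4) (.nd (nat_lit 5) 
(.lf (nat_lit 33285) (.g (nat_lit 1188) (.e (nat_lit 1207) (nat_lit 89) (.e (nat_lit 73753) (nat_lit 8) (.e (nat_lit 557094) (nat_lit 12) (.e (nat_lit 164213) (nat_lit 176) (.e (nat_lit 2789) (nat_lit 179) .nil))))) .nil)) 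
(.lf (nat_lit 33317) (.g (nat_lit 4622) (.e (nat_lit 1207) (nat_lit 89) (.e (nat_lit 73754) (nat_lit 8) (.e (nat_lit 557091) (nat_lit 12) (.e (nat_lit 164238) (nat_lit 187) (.e (nat_lit 1661) (nat_lit 115) (.e (nat_lit 393251) (nat_lit 18) (.e (nat_lit 164148) (nat_lit 152) .nil))))))) (.g (nat_lit 6) .nil .nil)))) (.nd (nat_lit 5) 
(.lf (nat_lit 33301) (.g (nat_lit 1376) (.e (nat_lit 1207) (nat_lit 89) (.e (nat_lit 73753) (nat_lit 8) (.e (nat_lit 557105) (nat_lit 14) (.e (nat_lit 180265) (nat_lit 21) .nil)))) .nil)) 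
(.lf (nat_lit 33333) (.g (nat_lit 3493) (.e (nat_lit 1207) (nat_lit 89) (.e (nat_lit 73754) (nat_lit 8) (.e (nat_lit 557093) (nat_lit 12) (.e (nat_lit 164239) (nat_lit 187) (.e (nat_lit 1661) (nat_lit 115) (.e (nat_lit 393253) (nat_lit 18) (.e (nat_lit 164150) (nat_lit 152) .nil))))))) (.g (nat_lit 6) .nil .nil))))) (.nd (nat_lit 4) (.nd (nat_lit 5) 
(.lf (nat_lit 33293) (.g (nat_lit 581) (.e (nat_lit 1207) (nat_lit 89) (.e (nat_lit 73753) (nat_lit 8) (.e (nat_lit 557103) (nat_lit 14) .nil))) .nil)) 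
(.lf (nat_lit 33325) (.g (nat_lit 4215) (.e (nat_lit 1207) (nat_lit 89) (.e (nat_lit 73754) (nat_lit 8) (.e (nat_lit 557093) (nat_lit 12) (.e (nat_lit 164238) (nat_lit 187) (.e (nat_lit 1661) (nat_lit 115) (.e (nat_lit 393251) (nat_lit 18) (.e (nat_lit 164151) (nat_lit 152) .nil))))))) (.g (nat_lit 0) .nil .nil)))) (.nd (nat_lit 5) 
(.lf (nat_lit 33309) (.g (nat_lit 1706) (.e (nat_lit 1207) (nat_lit 89) (.e (nat_lit 73754) (nat_lit 8) (.e (nat_lit 557091) (nat_lit 12) (.e (nat_lit 164238) (nat_lit 187) .nil)))) .nil)) 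
(.lf (nat_lit 33341) (.g (nat_lit 2345) (.e (nat_lit 1207) (nat_lit 89) (.e (nat_lit 73754) (nat_lit 8) (.e (nat_lit 557094) (nat_lit 12) (.e (nat_lit 164238) (nat_lit 187) (.e (nat_lit 1660) (nat_lit 115) (.e (nat_lit 393253) (nat_lit 18) (.e (nat_lit 164149) (nat_lit 152) .nil))))))) (.g (nat_lit 5) .nil .nil))))))) (.nd (nat_lit 2) (.nd (nat_lit 3) (.nd (nat_lit 4) (.nd (nat_lit 5) 
(.lf (nat_lit 33283) (.g (nat_lit 2446) (.e (nat_lit 1207) (nat_lit 89) (.e (nat_lit 73753) (nat_lit 8) (.e (nat_lit 557093) (nat_lit 12) (.e (nat_lit 164239) (nat_lit 187) (.e (nat_lit 1661) (nat_lit 115) (.e (nat_lit 393251) (nat_lit 18) (.e (nat_lit 164150) (nat_lit 152) .nil))))))) (.g (nat_lit 5) .nil .nil))) 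
(.lf (nat_lit 33315) (.g (nat_lit 3175) (.e (nat_lit 1207) (nat_lit 89) (.e (nat_lit 73754) (nat_lit 8) (.e (nat_lit 557091) (nat_lit 12) (.e (nat_lit 164238) (nat_lit 187) (.e (nat_lit 1660) (nat_lit 115) (.e (nat_lit 393253) (nat_lit 18) (.e (nat_lit 164149) (nat_lit 152) .nil))))))) (.g (nat_lit 5) .nil .nil)))) (.nd (nat_lit 5) 
(.lf (nat_lit 33299) (.g (nat_lit 2616) (.e (nat_lit 1207) (nat_lit 89) (.e (nat_lit 73753) (nat_lit 8) (.e (nat_lit 557105) (nat_lit 14) (.e (nat_lit 180261) (nat_lit 20) (.e (nat_lit 655364) (nat_lit 0) .nil))))) .nil)) 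
(.lf (nat_lit 33331) (.g (nat_lit 3917) (.e (nat_lit 1207) (nat_lit 89) (.e (nat_lit 73754) (nat_lit 8) (.e (nat_lit 557093) (nat_lit 12) (.e (nat_lit 164239) (nat_lit 187) (.e (nat_lit 1661) (nat_lit 115) (.e (nat_lit 393251) (nat_lit 18) (.e (nat_lit 164148) (nat_lit 152) .nil))))))) (.g (nat_lit 0) .nil .nil))))) (.nd (nat_lit 4) (.nd (nat_lit 5) 
(.lf (nat_lit 33291) (.g (nat_lit 2224) (.e (nat_lit 1207) (nat_lit 89) (.e (nat_lit 73753) (nat_lit 8) (.e (nat_lit 557100) (nat_lit 13) (.e (nat_lit 172138) (nat_lit 15) .nil)))) .nil)) 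
(.lf (nat_lit 33323) (.g (nat_lit 2690) (.e (nat_lit 1207) (nat_lit 89) (.e (nat_lit 73754) (nat_lit 8) (.e (nat_lit 557093) (nat_lit 12) (.e (nat_lit 164238) (nat_lit 187) (.e (nat_lit 1660) (nat_lit 115) (.e (nat_lit 393253) (nat_lit 18) (.e (nat_lit 164151) (nat_lit 152) .nil))))))) (.g (nat_lit 5) .nil .nil)))) (.nd (nat_lit 5) 
(.lf (nat_lit 33307) (.g (nat_lit 3694) (.e (nat_lit 1207) (nat_lit 89) (.e (nat_lit 73754) (nat_lit 8) (.e (nat_lit 557072) (nat_lit 9) (.e (nat_lit 3098) (nat_lit 192) (.e (nat_lit 491571) (nat_lit 13) (.e (nat_lit 393253) (nat_lit 18) (.e (nat_lit 164150) (nat_lit 152) .nil))))))) (.g (nat_lit 5) .nil .nil))) 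
(.lf (nat_lit 33339) (.g (nat_lit 3292) (.e (nat_lit 1207) (nat_lit 89) (.e (nat_lit 73754) (nat_lit 8) (.e (nat_lit 557094) (nat_lit 12) (.e (nat_lit 164238) (nat_lit 187) (.e (nat_lit 1658) (nat_lit 115) (.e (nat_lit 393253) (nat_lit 18) (.e (nat_lit 164150) (nat_lit 152) .nil))))))) (.g (nat_lit 7) .nil .nil)))))) (.nd (nat_lit 3) (.nd (nat_lit 4) (.nd (nat_lit 5) 
(.lf (nat_lit 33287) (.g (nat_lit 2197) (.e (nat_lit 1207) (nat_lit 89) (.e (nat_lit 73753) (nat_lit 8) (.e (nat_lit 557096) (nat_lit 13) (.e (nat_lit 172133) (nat_lit 15) (.e (nat_lit 2175) (nat_lit 143) (.e (nat_lit 712747) (nat_lit 28) (.e (nat_lit 434209) (nat_lit 18) (.e (nat_lit 6270) (nat_lit 337) .nil)))))))) (.g (nat_lit 4) .nil .nil))) 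
(.lf (nat_lit 33319) (.g (nat_lit 471) (.e (nat_lit 1207) (nat_lit 89) (.e (nat_lit 73754) (nat_lit 8) (.e (nat_lit 557093) (nat_lit 12) .nil))) .nil))) (.nd (nat_lit 5) 
(.lf (nat_lit 33303) (.g (nat_lit 2956) (.e (nat_lit 1207) (nat_lit 89) (.e (nat_lit 73754) (nat_lit 8) (.e (nat_lit 557072) (nat_lit 9) (.e (nat_lit 3098) (nat_lit 192) (.e (nat_lit 491570) (nat_lit 13) (.e (nat_lit 393253) (nat_lit 18) (.e (nat_lit 164150) (nat_lit 152) .nil))))))) (.g (nat_lit 5) .nil .nil))) 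
(.lf (nat_lit 33335) (.g (nat_lit 852) (.e (nat_lit 1207) (nat_lit 89) (.e (nat_lit 73754) (nat_lit 8) (.e (nat_lit 557094) (nat_lit 12) (.e (nat_lit 164213) (nat_lit 176) .nil)))) .nil)))) (.nd (nat_lit 4) (.nd (nat_lit 5) 
(.lf (nat_lit 33295) (.g (nat_lit 2479) (.e (nat_lit 1207) (nat_lit 89) (.e (nat_lit 73753) (nat_lit 8) (.e (nat_lit 557103) (nat_lit 14) (.e (nat_lit 180229) (nat_lit 0) (.e (nat_lit 5548) (nat_lit 306) .nil))))) .nil)) 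
(.lf (nat_lit 33327) (.g (nat_lit 1375) (.e (nat_lit 1207) (nat_lit 89) (.e (nat_lit 73754) (nat_lit 8) (.e (nat_lit 557093) (nat_lit 12) (.e (nat_lit 164239) (nat_lit 187) (.e (nat_lit 1660) (nat_lit 115) .nil))))) .nil))) (.nd (nat_lit 5) 
(.lf (nat_lit 33311) (.g (nat_lit 2565) (.e (nat_lit 1207) (nat_lit 89) (.e (nat_lit 73754) (nat_lit 8) (.e (nat_lit 557091) (nat_lit 12) (.e (nat_lit 164238) (nat_lit 187) (.e (nat_lit 1658) (nat_lit 115) .nil))))) .nil)) 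
(.lf (nat_lit 33343) (.g (nat_lit 4100) (.e (nat_lit 1207) (nat_lit 89) (.e (nat_lit 73754) (nat_lit 8) (.e (nat_lit 557094) (nat_lit 12) (.e (nat_lit 164238) (nat_lit 187) (.e (nat_lit 1661) (nat_lit 115) (.e (nat_lit 393251) (nat_lit 18) (.e (nat_lit 164148) (nat_lit 152) .nil))))))) (.g (nat_lit 0) .nil .nil)))))))))

noncomputable def tv467 : DT := (.nd (nat_lit 0) (.nd (nat_lit 1) (.nd (nat_lit 2) (.nd (nat_lit 3) (.nd (nat_lit 4) (.nd (nat_lit 5) 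
(.lf (nat_lit 33344) (.g (nat_lit 3427) (.e (nat_lit 1207) (nat_lit 89) (.e (nat_lit 73754) (nat_lit 8) (.e (nat_lit 557094) (nat_lit 12) (.e (nat_lit 164238) (nat_lit 187) (.e (nat_lit 1661) (nat_lit 115) (.e (nat_lit 393251) (nat_lit 18) (.e (nat_lit 164149) (nat_lit 152) .nil))))))) (.g (nat_lit 6) .nil .nil))) 
(.lf (nat_lit 33376) (.g (nat_lit 1773) (.e (nat_lit 1207) (nat_lit 89) (.e (nat_lit 73754) (nat_lit 8) (.e (nat_lit 557101) (nat_lit 13) (.e (nat_lit 172070) (nat_lit 4) (.e (nat_lit 229666) (nat_lit 240) (.e (nat_lit 2643) (nat_lit 165) (.e (nat_lit 180228) (nat_lit 0) (.e (nat_lit 6270) (nat_lit 337) .nil)))))))) (.g (nat_lit 4) .nil .nil)))) (.nd (nat_lit 5) 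
(.lf (nat_lit 33360) (.g (nat_lit 2935) (.e (nat_lit 1207) (nat_lit 89) (.e (nat_lit 73754) (nat_lit 8) (.e (nat_lit 557100) (nat_lit 13) (.e (nat_lit 172138) (nat_lit 15) (.e (nat_lit 2175) (nat_lit 143) (.e (nat_lit 712745) (nat_lit 27) (.e (nat_lit 426110) (nat_lit 1) (.e (nat_lit 164150) (nat_lit 152) .nil)))))))) (.g (nat_lit 4) .nil .nil))) 
(.lf (nat_lit 33392) (.g (nat_lit 2745) (.e (nat_lit 1207) (nat_lit 89) (.e (nat_lit 73754) (nat_lit 8) (.e (nat_lit 557105) (nat_lit 14) (.e (nat_lit 180227) (nat_lit 0) (.e (nat_lit 5814) (nat_lit 320) (.e (nat_lit 1214) (nat_lit 89) (.e (nat_lit 73732) (nat_lit 0) (.e (nat_lit 7147) (nat_lit 382) .nil)))))))) (.g (nat_lit 6) .nil .nil))))) (.nd (nat_lit 4) (.nd (nat_lit 5) 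
(.lf (nat_lit 33352) (.g (nat_lit 2376) (.e (nat_lit 1207) (nat_lit 89) (.e (nat_lit 73754) (nat_lit 8) (.e (nat_lit 557100) (nat_lit 13) (.e (nat_lit 172061) (nat_lit 1) (.e (nat_lit 164327) (nat_lit 230) (.e (nat_lit 163886) (nat_lit 5) (.e (nat_lit 221207) (nat_lit 21) (.e (nat_lit 164297) (nat_lit 226) .nil)))))))) (.g (nat_lit 4) .nil .nil))) 
(.lf (nat_lit 33384) (.g (nat_lit 1893) (.e (nat_lit 1207) (nat_lit 89) (.e (nat_lit 73754) (nat_lit 8) (.e (nat_lit 557101) (nat_lit 13) (.e (nat_lit 172070) (nat_lit 4) (.e (nat_lit 229681) (nat_lit 244) (.e (nat_lit 163927) (nat_lit 16) (.e (nat_lit 458774) (nat_lit 18) (.e (nat_lit 6272) (nat_lit 337) .nil)))))))) (.g (nat_lit 4) .nil .nil)))) (.nd (nat_lit 5) 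
(.lf (nat_lit 33368) (.g (nat_lit 1892) (.e (nat_lit 1207) (nat_lit 89) (.e (nat_lit 73754) (nat_lit 8) (.e (nat_lit 557101) (nat_lit 13) (.e (nat_lit 172068) (nat_lit 4) (.e (nat_lit 229680) (nat_lit 244) (.e (nat_lit 163926) (nat_lit 16) (.e (nat_lit 458774) (nat_lit 18) (.e (nat_lit 6272) (nat_lit 337) .nil)))))))) (.g (nat_lit 4) .nil .nil))) 
(.lf (nat_lit 33400) (.g (nat_lit 2537) (.e (nat_lit 1207) (nat_lit 89) (.e (nat_lit 73754) (nat_lit 8) (.e (nat_lit 557105) (nat_lit 14) (.e (nat_lit 180227) (nat_lit 0) (.e (nat_lit 5945) (nat_lit 322) (.e (nat_lit 57430) (nat_lit 16) (.e (nat_lit 368662) (nat_lit 18) (.e (nat_lit 7147) (nat_lit 382) .nil)))))))) (.g (nat_lit 6) .nil .nil)))))) (.nd (nat_lit 3) (.nd (nat_lit 4) (.nd (nat_lit 5) 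
(.lf (nat_lit 33348) (.g (nat_lit 2146) (.e (nat_lit 1207) (nat_lit 89) (.e (nat_lit 73754) (nat_lit 8) (.e (nat_lit 557100) (nat_lit 13) (.e (nat_lit 172059) (nat_lit 1) .nil)))) .nil)) 
(.lf (nat_lit 33380) (.g (nat_lit 1435) (.e (nat_lit 1207) (nat_lit 89) (.e (nat_lit 73754) (nat_lit 8) (.e (nat_lit 557101) (nat_lit 13) (.e (nat_lit 172070) (nat_lit 4) (.e (nat_lit 229681) (nat_lit 244) .nil))))) .nil))) (.nd (nat_lit 5) 
(.lf (nat_lit 33364) (.g (nat_lit 1273) (.e (nat_lit 1207) (nat_lit 89) (.e (nat_lit 73754) (nat_lit 8) (.e (nat_lit 557101) (nat_lit 13) (.e (nat_lit 172061) (nat_lit 1) .nil)))) .nil)) 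
(.lf (nat_lit 33396) (.g (nat_lit 1994) (.e (nat_lit 1207) (nat_lit 89) (.e (nat_lit 73754) (nat_lit 8) (.e (nat_lit 557105) (nat_lit 14) (.e (nat_lit 180227) (nat_lit 0) (.e (nat_lit 5934) (nat_lit 322) (.e (nat_lit 57431) (nat_lit 16) (.e (nat_lit 368662) (nat_lit 18) (.e (nat_lit 7147) (nat_lit 382) .nil)))))))) (.g (nat_lit 4) .nil .nil))))) (.nd (nat_lit 4) (.nd (nat_lit 5) 
(.lf (nat_lit 33356) (.g (nat_lit 2019) (.e (nat_lit 1207) (nat_lit 89) (.e (nat_lit 73754) (nat_lit 8) (.e (nat_lit 557100) (nat_lit 13) (.e (nat_lit 172138) (nat_lit 15) .nil)))) .nil)) 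
(.lf (nat_lit 33388) (.g (nat_lit 1265) (.e (nat_lit 1207) (nat_lit 89) (.e (nat_lit 73754) (nat_lit 8) (.e (nat_lit 557105) (nat_lit 14) (.e (nat_lit 180226) (nat_lit 0) .nil)))) .nil))) (.nd (nat_lit 5) 
(.lf (nat_lit 33372) (.g (nat_lit 1729) (.e (nat_lit 1207) (nat_lit 89) (.e (nat_lit 73754) (nat_lit 8) (.e (nat_lit 557101) (nat_lit 13) (.e (nat_lit 172070) (nat_lit 4) (.e (nat_lit 229665) (nat_lit 240) (.e (nat_lit 2641) (nat_lit 165) (.e (nat_lit 180228) (nat_lit 0) (.e (nat_lit 6270) (nat_lit 337) .nil)))))))) (.g (nat_lit 4) .nil .nil))) 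
(.lf (nat_lit 33404) (.g (nat_lit 1986) (.e (nat_lit 1207) (nat_lit 89) (.e (nat_lit 73754) (nat_lit 8) (.e (nat_lit 557105) (nat_lit 14) (.e (nat_lit 180233) (nat_lit 0) (.e (nat_lit 5448) (nat_lit 306) .nil))))) .nil)))))) (.nd (nat_lit 2) (.nd (nat_lit 3) (.nd (nat_lit 4) (.nd (nat_lit 5) 
(.lf (nat_lit 33346) (.g (nat_lit 4240) (.e (nat_lit 1207) (nat_lit 89) (.e (nat_lit 73754) (nat_lit 8) (.e (nat_lit 557094) (nat_lit 12) (.e (nat_lit 164238) (nat_lit 187) (.e (nat_lit 1661) (nat_lit 115) (.e (nat_lit 393253) (nat_lit 18) (.e (nat_lit 164150) (nat_lit 152) .nil))))))) (.g (nat_lit 0) .nil .nil))) 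
(.lf (nat_lit 33378) (.g (nat_lit 2354) (.e (nat_lit 1207) (nat_lit 89) (.e (nat_lit 73754) (nat_lit 8) (.e (nat_lit 557101) (nat_lit 13) (.e (nat_lit 172070) (nat_lit 4) (.e (nat_lit 229680) (nat_lit 244) (.e (nat_lit 163916) (nat_lit 13) (.e (nat_lit 434209) (nat_lit 18) (.e (nat_lit 6272) (nat_lit 337) .nil)))))))) (.g (nat_lit 5) .nil .nil)))) (.nd (nat_lit 5) 
(.lf (nat_lit 33362) (.g (nat_lit 1896) (.e (nat_lit 1207) (nat_lit 89) (.e (nat_lit 73754) (nat_lit 8) (.e (nat_lit 557100) (nat_lit 13) (.e (nat_lit 179968) (nat_lit 20) .nil)))) .nil)) 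
(.lf (nat_lit 33394) (.g (nat_lit 1929) (.e (nat_lit 1207) (nat_lit 89) (.e (nat_lit 73754) (nat_lit 8) (.e (nat_lit 557105) (nat_lit 14) (.e (nat_lit 180227) (nat_lit 0) (.e (nat_lit 5814) (nat_lit 320) (.e (nat_lit 1296) (nat_lit 96) (.e (nat_lit 131088) (nat_lit 1) (.e (nat_lit 57655) (nat_lit 152) .nil)))))))) (.g (nat_lit 4) .nil .nil))))) (.nd (nat_lit 4) (.nd (nat_lit 5) 
(.lf (nat_lit 33354) (.g (nat_lit 2289) (.e (nat_lit 1207) (nat_lit 89) (.e (nat_lit 73754) (nat_lit 8) (.e (nat_lit 557100) (nat_lit 13) (.e (nat_lit 172070) (nat_lit 4) .nil)))) .nil)) 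
(.lf (nat_lit 33386) (.g (nat_lit 2199) (.e (nat_lit 1207) (nat_lit 89) (.e (nat_lit 73754) (nat_lit 8) (.e (nat_lit 557101) (nat_lit 13) (.e (nat_lit 172136) (nat_lit 15) (.e (nat_lit 2058) (nat_lit 142) (.e (nat_lit 704595) (nat_lit 5) (.e (nat_lit 180229) (nat_lit 0) (.e (nat_lit 6270) (nat_lit 337) .nil)))))))) (.g (nat_lit 5) .nil .nil)))) (.nd (nat_lit 5) 
(.lf (nat_lit 33370) (.g (nat_lit 2234) (.e (nat_lit 1207) (nat_lit 89) (.e (nat_lit 73754) (nat_lit 8) (.e (nat_lit 557101) (nat_lit 13) (.e (nat_lit 172070) (nat_lit 4) (.e (nat_lit 229663) (nat_lit 240) (.e (nat_lit 2641) (nat_lit 165) (.e (nat_lit 180229) (nat_lit 0) (.e (nat_lit 6270) (nat_lit 337) .nil)))))))) (.g (nat_lit 5) .nil .nil))) 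
(.lf (nat_lit 33402) (.g (nat_lit 2047) (.e (nat_lit 1207) (nat_lit 89) (.e (nat_lit 73754) (nat_lit 8) (.e (nat_lit 557105) (nat_lit 14) (.e (nat_lit 180232) (nat_lit 0) (.e (nat_lit 5599) (nat_lit 310) .nil))))) .nil))))) (.nd (nat_lit 3) (.nd (nat_lit 4) (.nd (nat_lit 5) 
(.lf (nat_lit 33350) (.g (nat_lit 2759) (.e (nat_lit 1207) (nat_lit 89) (.e (nat_lit 73754) (nat_lit 8) (.e (nat_lit 557100) (nat_lit 13) (.e (nat_lit 172059) (nat_lit 1) (.e (nat_lit 164399) (nat_lit 256) (.e (nat_lit 57430) (nat_lit 16) (.e (nat_lit 368662) (nat_lit 18) (.e (nat_lit 7147) (nat_lit 382) .nil)))))))) (.g (nat_lit 4) .nil .nil))) 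
(.lf (nat_lit 33382) (.g (nat_lit 2212) (.e (nat_lit 1207) (nat_lit 89) (.e (nat_lit 73754) (nat_lit 8) (.e (nat_lit 557101) (nat_lit 13) (.e (nat_lit 172070) (nat_lit 4) (.e (nat_lit 229681) (nat_lit 244) (.e (nat_lit 163926) (nat_lit 16) (.e (nat_lit 458774) (nat_lit 18) (.e (nat_lit 6272) (nat_lit 337) .nil)))))))) (.g (nat_lit 5) .nil .nil)))) (.nd (nat_lit 5) 
(.lf (nat_lit 33366) (.g (nat_lit 1273) (.e (nat_lit 1207) (nat_lit 89) (.e (nat_lit 73754) (nat_lit 8) (.e (nat_lit 557101) (nat_lit 13) (.e (nat_lit 172068) (nat_lit 4) .nil)))) .nil)) 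
(.lf (nat_lit 33398) (.g (nat_lit 1777) (.e (nat_lit 1207) (nat_lit 89) (.e (nat_lit 73754) (nat_lit 8) (.e (nat_lit 557105) (nat_lit 14) (.e (nat_lit 180227) (nat_lit 0) (.e (nat_lit 5945) (nat_lit 322) .nil))))) .nil)))) (.nd (nat_lit 4) (.nd (nat_lit 5) 
(.lf (nat_lit 33358) (.g (nat_lit 2594) (.e (nat_lit 1207) (nat_lit 89) (.e (nat_lit 73754) (nat_lit 8) (.e (nat_lit 557100) (nat_lit 13) (.e (nat_lit 172138) (nat_lit 15) (.e (nat_lit 2059) (nat_lit 142) .nil))))) .nil)) 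
(.lf (nat_lit 33390) (.g (nat_lit 2031) (.e (nat_lit 1207) (nat_lit 89) (.e (nat_lit 73754) (nat_lit 8) (.e (nat_lit 557105) (nat_lit 14) (.e (nat_lit 180227) (nat_lit 0) (.e (nat_lit 5814) (nat_lit 320) (.e (nat_lit 1201) (nat_lit 88) (.e (nat_lit 65563) (nat_lit 1) (.e (nat_lit 57655) (nat_lit 152) .nil)))))))) (.g (nat_lit 4) .nil .nil)))) (.nd (nat_lit 5) 
(.lf (nat_lit 33374) (.g (nat_lit 1820) (.e (nat_lit 1207) (nat_lit 89) (.e (nat_lit 73754) (nat_lit 8) (.e (nat_lit 557101) (nat_lit 13) (.e (nat_lit 172070) (nat_lit 4) (.e (nat_lit 229665) (nat_lit 240) (.e (nat_lit 2641) (nat_lit 165) (.e (nat_lit 180229) (nat_lit 0) (.e (nat_lit 6272) (nat_lit 337) .nil)))))))) (.g (nat_lit 4) .nil .nil))) 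
(.lf (nat_lit 33406) (.g (nat_lit 2062) (.e (nat_lit 1207) (nat_lit 89) (.e (nat_lit 73754) (nat_lit 8) (.e (nat_lit 557105) (nat_lit 14) (.e (nat_lit 180233) (nat_lit 0) (.e (nat_lit 5815) (nat_lit 320) .nil))))) .nil))))))) (.nd (nat_lit 1) (.nd (nat_lit 2) (.nd (nat_lit 3) (.nd (nat_lit 4) (.nd (nat_lit 5) 
(.lf (nat_lit 33345) (.g (nat_lit 4124) (.e (nat_lit 1207) (nat_lit 89) (.e (nat_lit 73754) (nat_lit 8) (.e (nat_lit 557094) (nat_lit 12) (.e (nat_lit 164238) (nat_lit 187) (.e (nat_lit 1661) (nat_lit 115) (.e (nat_lit 393251) (nat_lit 18) (.e (nat_lit 164151) (nat_lit 152) .nil))))))) (.g (nat_lit 0) .nil .nil))) 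
(.lf (nat_lit 33377) (.g (nat_lit 1433) (.e (nat_lit 1207) (nat_lit 89) (.e (nat_lit 73754) (nat_lit 8) (.e (nat_lit 557101) (nat_lit 13) (.e (nat_lit 172070) (nat_lit 4) (.e (nat_lit 229680) (nat_lit 244) .nil))))) .nil))) (.nd (nat_lit 5) 
(.lf (nat_lit 33361) (.g (nat_lit 3681) (.e (nat_lit 1207) (nat_lit 89) (.e (nat_lit 73754) (nat_lit 8) (.e (nat_lit 557100) (nat_lit 13) (.e (nat_lit 172138) (nat_lit 15) (.e (nat_lit 2175) (nat_lit 143) (.e (nat_lit 712747) (nat_lit 28) (.e (nat_lit 434209) (nat_lit 18) (.e (nat_lit 6270) (nat_lit 337) .nil)))))))) (.g (nat_lit 6) .nil .nil))) 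
(.lf (nat_lit 33393) (.g (nat_lit 2097) (.e (nat_lit 1207) (nat_lit 89) (.e (nat_lit 73754) (nat_lit 8) (.e (nat_lit 557105) (nat_lit 14) (.e (nat_lit 180227) (nat_lit 0) (.e (nat_lit 5814) (nat_lit 320) (.e (nat_lit 1296) (nat_lit 96) (.e (nat_lit 131086) (nat_lit 1) (.e (nat_lit 57655) (nat_lit 152) .nil)))))))) (.g (nat_lit 4) .nil .nil))))) (.nd (nat_lit 4) (.nd (nat_lit 5) 
(.lf (nat_lit 33353) (.g (nat_lit 2298) (.e (nat_lit 1207) (nat_lit 89) (.e (nat_lit 73754) (nat_lit 8) (.e (nat_lit 557100) (nat_lit 13) (.e (nat_lit 172068) (nat_lit 4) .nil)))) .nil)) 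
(.lf (nat_lit 33385) (.g (nat_lit 1159) (.e (nat_lit 1207) (nat_lit 89) (.e (nat_lit 73754) (nat_lit 8) (.e (nat_lit 557101) (nat_lit 13) (.e (nat_lit 172136) (nat_lit 15) .nil)))) .nil))) (.nd (nat_lit 5) 
(.lf (nat_lit 33369) (.g (nat_lit 1070) (.e (nat_lit 1207) (nat_lit 89) (.e (nat_lit 73754) (nat_lit 8) (.e (nat_lit 557101) (nat_lit 13) (.e (nat_lit 172070) (nat_lit 4) .nil)))) .nil)) 
(.lf (nat_lit 33401) (.g (nat_lit 1557) (.e (nat_lit 1207) (nat_lit 89) (.e (nat_lit 73754) (nat_lit 8) (.e (nat_lit 557105) (nat_lit 14) (.e (nat_lit 180230) (nat_lit 0) .nil)))) .nil))))) (.nd (nat_lit 3) (.nd (nat_lit 4) (.nd (nat_lit 5) 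
(.lf (nat_lit 33349) (.g (nat_lit 2665) (.e (nat_lit 1207) (nat_lit 89) (.e (nat_lit 73754) (nat_lit 8) (.e (nat_lit 557100) (nat_lit 13) (.e (nat_lit 172059) (nat_lit 1) (.e (nat_lit 164327) (nat_lit 230) .nil))))) .nil)) 
(.lf (nat_lit 33381) (.g (nat_lit 1718) (.e (nat_lit 1207) (nat_lit 89) (.e (nat_lit 73754) (nat_lit 8) (.e (nat_lit 557101) (nat_lit 13) (.e (nat_lit 172070) (nat_lit 4) (.e (nat_lit 229681) (nat_lit 244) (.e (nat_lit 163916) (nat_lit 13) (.e (nat_lit 434209) (nat_lit 18) (.e (nat_lit 6272) (nat_lit 337) .nil)))))))) (.g (nat_lit 4) .nil .nil)))) (.nd (nat_lit 5) 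
(.lf (nat_lit 33365) (.g (nat_lit 1791) (.e (nat_lit 1207) (nat_lit 89) (.e (nat_lit 73754) (nat_lit 8) (.e (nat_lit 557101) (nat_lit 13) (.e (nat_lit 172061) (nat_lit 1) (.e (nat_lit 164326) (nat_lit 230) .nil))))) .nil)) 
(.lf (nat_lit 33397) (.g (nat_lit 2212) (.e (nat_lit 1207) (nat_lit 89) (.e (nat_lit 73754) (nat_lit 8) (.e (nat_lit 557105) (nat_lit 14) (.e (nat_lit 180227) (nat_lit 0) (.e (nat_lit 5934) (nat_lit 322) (.e (nat_lit 57432) (nat_lit 16) (.e (nat_lit 368662) (nat_lit 18) (.e (nat_lit 7147) (nat_lit 382) .nil)))))))) (.g (nat_lit 5) .nil .nil))))) (.nd (nat_lit 4) (.nd (nat_lit 5) 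
(.lf (nat_lit 33357) (.g (nat_lit 2730) (.e (nat_lit 1207) (nat_lit 89) (.e (nat_lit 73754) (nat_lit 8) (.e (nat_lit 557100) (nat_lit 13) (.e (nat_lit 172138) (nat_lit 15) (.e (nat_lit 2058) (nat_lit 142) .nil))))) .nil)) 
(.lf (nat_lit 33389) (.g (nat_lit 1847) (.e (nat_lit 1207) (nat_lit 89) (.e (nat_lit 73754) (nat_lit 8) (.e (nat_lit 557105) (nat_lit 14) (.e (nat_lit 180227) (nat_lit 0) (.e (nat_lit 5814) (nat_lit 320) .nil))))) .nil))) (.nd (nat_lit 5) 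
(.lf (nat_lit 33373) (.g (nat_lit 2401) (.e (nat_lit 1207) (nat_lit 89) (.e (nat_lit 73754) (nat_lit 8) (.e (nat_lit 557101) (nat_lit 13) (.e (nat_lit 172070) (nat_lit 4) (.e (nat_lit 229665) (nat_lit 240) (.e (nat_lit 2641) (nat_lit 165) (.e (nat_lit 180229) (nat_lit 0) (.e (nat_lit 6270) (nat_lit 337) .nil)))))))) (.g (nat_lit 5) .nil .nil))) 
(.lf (nat_lit 33405) (.g (nat_lit 2086) (.e (nat_lit 1207) (nat_lit 89) (.e (nat_lit 73754) (nat_lit 8) (.e (nat_lit 557105) (nat_lit 14) (.e (nat_lit 180233) (nat_lit 0) (.e (nat_lit 5599) (nat_lit 310) (.e (nat_lit 163905) (nat_lit 12) (.e (nat_lit 426112) (nat_lit 1) (.e (nat_lit 164150) (nat_lit 152) .nil)))))))) (.g (nat_lit 4) .nil .nil))))))) 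
(.nd (nat_lit 2) (.nd (nat_lit 3) (.nd (nat_lit 4) (.nd (nat_lit 5) 
(.lf (nat_lit 33347) (.g (nat_lit 2493) (.e (nat_lit 1207) (nat_lit 89) (.e (nat_lit 73754) (nat_lit 8) (.e (nat_lit 557100) (nat_lit 13) (.e (nat_lit 172049) (nat_lit 0) (.e (nat_lit 3437) (nat_lit 214) .nil))))) .nil)) 
(.lf (nat_lit 33379) (.g (nat_lit 1926) (.e (nat_lit 1207) (nat_lit 89) (.e (nat_lit 73754) (nat_lit 8) (.e (nat_lit 557101) (nat_lit 13) (.e (nat_lit 172070) (nat_lit 4) (.e (nat_lit 229680) (nat_lit 244) (.e (nat_lit 163927) (nat_lit 16) (.e (nat_lit 458774) (nat_lit 18) (.e (nat_lit 6272) (nat_lit 337) .nil)))))))) (.g (nat_lit 4) .nil .nil)))) (.nd (nat_lit 5) 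
(.lf (nat_lit 33363) (.g (nat_lit 493) (.e (nat_lit 1207) (nat_lit 89) (.e (nat_lit 73754) (nat_lit 8) (.e (nat_lit 557101) (nat_lit 13) .nil))) .nil)) 
(.lf (nat_lit 33395) (.g (nat_lit 2185) (.e (nat_lit 1207) (nat_lit 89) (.e (nat_lit 73754) (nat_lit 8) (.e (nat_lit 557105) (nat_lit 14) (.e (nat_lit 180227) (nat_lit 0) (.e (nat_lit 5934) (nat_lit 322) (.e (nat_lit 57430) (nat_lit 16) (.e (nat_lit 368662) (nat_lit 18) (.e (nat_lit 7147) (nat_lit 382) .nil)))))))) (.g (nat_lit 5) .nil .nil))))) (.nd (nat_lit 4) (.nd (nat_lit 5) 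
(.lf (nat_lit 33355) (.g (nat_lit 2289) (.e (nat_lit 1207) (nat_lit 89) (.e (nat_lit 73754) (nat_lit 8) (.e (nat_lit 557100) (nat_lit 13) (.e (nat_lit 172137) (nat_lit 15) .nil)))) .nil)) 
(.lf (nat_lit 33387) (.g (nat_lit 3214) (.e (nat_lit 1207) (nat_lit 89) (.e (nat_lit 73754) (nat_lit 8) (.e (nat_lit 557101) (nat_lit 13) (.e (nat_lit 172136) (nat_lit 15) (.e (nat_lit 2174) (nat_lit 143) (.e (nat_lit 712745) (nat_lit 27) (.e (nat_lit 426110) (nat_lit 1) (.e (nat_lit 164150) (nat_lit 152) .nil)))))))) (.g (nat_lit 6) .nil .nil)))) (.nd (nat_lit 5) 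
(.lf (nat_lit 33371) (.g (nat_lit 1801) (.e (nat_lit 1207) (nat_lit 89) (.e (nat_lit 73754) (nat_lit 8) (.e (nat_lit 557101) (nat_lit 13) (.e (nat_lit 172070) (nat_lit 4) (.e (nat_lit 229664) (nat_lit 240) (.e (nat_lit 2641) (nat_lit 165) (.e (nat_lit 180229) (nat_lit 0) (.e (nat_lit 6270) (nat_lit 337) .nil)))))))) (.g (nat_lit 4) .nil .nil))) 
(.lf (nat_lit 33403) (.g (nat_lit 1449) (.e (nat_lit 1207) (nat_lit 89) (.e (nat_lit 73754) (nat_lit 8) (.e (nat_lit 557105) (nat_lit 14) (.e (nat_lit 180233) (nat_lit 0) .nil)))) .nil))))) (.nd (nat_lit 3) (.nd (nat_lit 4) (.nd (nat_lit 5) 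
(.lf (nat_lit 33351) (.g (nat_lit 1670) (.e (nat_lit 1207) (nat_lit 89) (.e (nat_lit 73754) (nat_lit 8) (.e (nat_lit 557100) (nat_lit 13) (.e (nat_lit 172061) (nat_lit 1) .nil)))) .nil)) 
(.lf (nat_lit 33383) (.g (nat_lit 1653) (.e (nat_lit 1207) (nat_lit 89) (.e (nat_lit 73754) (nat_lit 8) (.e (nat_lit 557101) (nat_lit 13) (.e (nat_lit 172070) (nat_lit 4) (.e (nat_lit 229681) (nat_lit 244) (.e (nat_lit 163926) (nat_lit 16) (.e (nat_lit 458774) (nat_lit 18) (.e (nat_lit 6273) (nat_lit 337) .nil)))))))) (.g (nat_lit 4) .nil .nil)))) (.nd (nat_lit 5) 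
(.lf (nat_lit 33367) (.g (nat_lit 1418) (.e (nat_lit 1207) (nat_lit 89) (.e (nat_lit 73754) (nat_lit 8) (.e (nat_lit 557101) (nat_lit 13) (.e (nat_lit 172068) (nat_lit 4) (.e (nat_lit 229680) (nat_lit 244) .nil))))) .nil)) 
(.lf (nat_lit 33399) (.g (nat_lit 1953) (.e (nat_lit 1207) (nat_lit 89) (.e (nat_lit 73754) (nat_lit 8) (.e (nat_lit 557105) (nat_lit 14) (.e (nat_lit 180227) (nat_lit 0) (.e (nat_lit 5945) (nat_lit 322) (.e (nat_lit 57421) (nat_lit 13) (.e (nat_lit 344097) (nat_lit 18) (.e (nat_lit 7147) (nat_lit 382) .nil)))))))) (.g (nat_lit 4) .nil .nil))))) (.nd (nat_lit 4) (.nd (nat_lit 5) 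
(.lf (nat_lit 33359) (.g (nat_lit 2638) (.e (nat_lit 1207) (nat_lit 89) (.e (nat_lit 73754) (nat_lit 8) (.e (nat_lit 557100) (nat_lit 13) (.e (nat_lit 172138) (nat_lit 15) (.e (nat_lit 2175) (nat_lit 143) .nil))))) .nil)) 
(.lf (nat_lit 33391) (.g (nat_lit 2717) (.e (nat_lit 1207) (nat_lit 89) (.e (nat_lit 73754) (nat_lit 8) (.e (nat_lit 557105) (nat_lit 14) (.e (nat_lit 180227) (nat_lit 0) (.e (nat_lit 5814) (nat_lit 320) (.e (nat_lit 1212) (nat_lit 89) (.e (nat_lit 73733) (nat_lit 0) (.e (nat_lit 7147) (nat_lit 382) .nil)))))))) (.g (nat_lit 6) .nil .nil)))) (.nd (nat_lit 5) 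
(.lf (nat_lit 33375) (.g (nat_lit 2743) (.e (nat_lit 1207) (nat_lit 89) (.e (nat_lit 73754) (nat_lit 8) (.e (nat_lit 557101) (nat_lit 13) (.e (nat_lit 172070) (nat_lit 4) (.e (nat_lit 229665) (nat_lit 240) (.e (nat_lit 2643) (nat_lit 165) (.e (nat_lit 180228) (nat_lit 0) (.e (nat_lit 6270) (nat_lit 337) .nil)))))))) (.g (nat_lit 6) .nil .nil))) 
(.lf (nat_lit 33407) (.g (nat_lit 1991) (.e (nat_lit 1207) (nat_lit 89) (.e (nat_lit 73754) (nat_lit 8) (.e (nat_lit 557105) (nat_lit 14) (.e (nat_lit 180233) (nat_lit 0) (.e (nat_lit 5948) (nat_lit 322) (.e (nat_lit 57419) (nat_lit 12) (.e (nat_lit 335986) (nat_lit 1) (.e (nat_lit 57655) (nat_lit 152) .nil)))))))) (.g (nat_lit 4) .nil .nil)))))))))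

noncomputable def tv468 : DT := (.nd (nat_lit 0) (.nd (nat_lit 1) (.nd (nat_lit 2) (.nd (nat_lit 3) (.nd (nat_lit 4) (.nd (nat_lit 5) (.nd (nat_lit 6) 
(.lf (nat_lit 33408) (.g (nat_lit 4460) (.e (nat_lit 1207) (nat_lit 89) (.e (nat_lit 73754) (nat_lit 8) (.e (nat_lit 557105) (nat_lit 14) (.e (nat_lit 180261) (nat_lit 20) (.e (nat_lit 655364) (nat_lit 0) (.e (nat_lit 2964) (nat_lit 185) (.e (nat_lit 434209) (nat_lit 18) (.e (nat_lit 6270) (nat_lit 337) .nil)))))))) (.g (nat_lit 8) .nil .nil))) 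
(.lf (nat_lit 33472) (.g (nat_lit 1449) (.e (nat_lit 1207) (nat_lit 89) (.e (nat_lit 73755) (nat_lit 8) (.e (nat_lit 557104) (nat_lit 14) (.e (nat_lit 180233) (nat_lit 0) .nil)))) .nil))) (.nd (nat_lit 6) 
(.lf (nat_lit 33440) (.g (nat_lit 3161) (.e (nat_lit 1207) (nat_lit 89) (.e (nat_lit 73755) (nat_lit 8) (.e (nat_lit 557090) (nat_lit 12) (.e (nat_lit 164238) (nat_lit 187) (.e (nat_lit 1660) (nat_lit 115) .nil))))) .nil)) 
(.lf (nat_lit 33504) (.g (nat_lit 2433) (.e (nat_lit 1208) (nat_lit 89) (.e (nat_lit 73746) (nat_lit 3) (.e (nat_lit 516165) (nat_lit 12) (.e (nat_lit 450579) (nat_lit 5) (.e (nat_lit 532501) (nat_lit 1) .nil))))) .nil)))) (.nd (nat_lit 5) (.nd (nat_lit 6) 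
(.lf (nat_lit 33424) (.g (nat_lit 2173) (.e (nat_lit 1207) (nat_lit 89) (.e (nat_lit 73754) (nat_lit 8) (.e (nat_lit 557105) (nat_lit 14) (.e (nat_lit 180265) (nat_lit 21) (.e (nat_lit 663566) (nat_lit 4) (.e (nat_lit 65563) (nat_lit 1) (.e (nat_lit 57655) (nat_lit 152) .nil))))))) (.g (nat_lit 4) .nil .nil))) 
(.lf (nat_lit 33488) (.g (nat_lit 1674) (.e (nat_lit 1207) (nat_lit 89) (.e (nat_lit 81664) (nat_lit 27) (.e (nat_lit 786481) (nat_lit 30) (.e (nat_lit 360466) (nat_lit 3) (.e (nat_lit 516117) (nat_lit 1) (.e (nat_lit 164147) (nat_lit 152) .nil)))))) (.g (nat_lit 5) .nil .nil)))) (.nd (nat_lit 6) 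
(.lf (nat_lit 33456) (.g (nat_lit 603) (.e (nat_lit 1207) (nat_lit 89) (.e (nat_lit 73755) (nat_lit 8) (.e (nat_lit 557098) (nat_lit 13) .nil))) .nil)) 
(.lf (nat_lit 33520) (.g (nat_lit 3405) (.e (nat_lit 1208) (nat_lit 89) (.e (nat_lit 73747) (nat_lit 3) (.e (nat_lit 516166) (nat_lit 12) (.e (nat_lit 450588) (nat_lit 10) (.e (nat_lit 573475) (nat_lit 12) .nil))))) .nil))))) (.nd (nat_lit 4) (.nd (nat_lit 5) (.nd (nat_lit 6) 
(.lf (nat_lit 33416) (.g (nat_lit 1725) (.e (nat_lit 1207) (nat_lit 89) (.e (nat_lit 73754) (nat_lit 8) (.e (nat_lit 557105) (nat_lit 14) (.e (nat_lit 180264) (nat_lit 21) (.e (nat_lit 663566) (nat_lit 4) (.e (nat_lit 65565) (nat_lit 1) (.e (nat_lit 57654) (nat_lit 152) .nil))))))) (.g (nat_lit 4) .nil .nil))) 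
(.lf (nat_lit 33480) (.g (nat_lit 545) (.e (nat_lit 1207) (nat_lit 89) (.e (nat_lit 73755) (nat_lit 8) (.e (nat_lit 557105) (nat_lit 14) .nil))) .nil))) (.nd (nat_lit 6) 
(.lf (nat_lit 33448) (.g (nat_lit 2616) (.e (nat_lit 1207) (nat_lit 89) (.e (nat_lit 73755) (nat_lit 8) (.e (nat_lit 557091) (nat_lit 12) (.e (nat_lit 164238) (nat_lit 187) (.e (nat_lit 1660) (nat_lit 115) (.e (nat_lit 393253) (nat_lit 18) (.e (nat_lit 164151) (nat_lit 152) .nil))))))) (.g (nat_lit 5) .nil .nil))) 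
(.lf (nat_lit 33512) (.g (nat_lit 2108) (.e (nat_lit 1208) (nat_lit 89) (.e (nat_lit 73747) (nat_lit 3) (.e (nat_lit 516146) (nat_lit 9) (.e (nat_lit 426294) (nat_lit 11) (.e (nat_lit 466688) (nat_lit 21) .nil))))) .nil)))) (.nd (nat_lit 5) (.nd (nat_lit 6) 
(.lf (nat_lit 33432) (.g (nat_lit 808) (.e (nat_lit 1207) (nat_lit 89) (.e (nat_lit 73755) (nat_lit 8) (.e (nat_lit 557067) (nat_lit 9) .nil))) .nil)) 
(.lf (nat_lit 33496) (.g (nat_lit 1023) (.e (nat_lit 1208) (nat_lit 89) (.e (nat_lit 73732) (nat_lit 0) (.e (nat_lit 7147) (nat_lit 382) (.e (nat_lit 1207) (nat_lit 89) .nil)))) .nil))) (.nd (nat_lit 6) 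
(.lf (nat_lit 33464) (.g (nat_lit 1698) (.e (nat_lit 1207) (nat_lit 89) (.e (nat_lit 73755) (nat_lit 8) (.e (nat_lit 557098) (nat_lit 13) (.e (nat_lit 172136) (nat_lit 15) .nil)))) .nil)) 
(.lf (nat_lit 33528) (.g (nat_lit 2103) (.e (nat_lit 1208) (nat_lit 89) (.e (nat_lit 73753) (nat_lit 8) (.e (nat_lit 557091) (nat_lit 12) (.e (nat_lit 164238) (nat_lit 187) (.e (nat_lit 1661) (nat_lit 115) .nil))))) .nil)))))) (.nd (nat_lit 3) (.nd (nat_lit 4) (.nd (nat_lit 5) (.nd (nat_lit 6) 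
(.lf (nat_lit 33412) (.g (nat_lit 1061) (.e (nat_lit 1207) (nat_lit 89) (.e (nat_lit 73754) (nat_lit 8) (.e (nat_lit 557105) (nat_lit 14) (.e (nat_lit 180264) (nat_lit 21) .nil)))) .nil)) 
(.lf (nat_lit 33476) (.g (nat_lit 2912) (.e (nat_lit 1207) (nat_lit 89) (.e (nat_lit 73755) (nat_lit 8) (.e (nat_lit 557104) (nat_lit 14) (.e (nat_lit 180261) (nat_lit 20) (.e (nat_lit 655364) (nat_lit 0) (.e (nat_lit 2964) (nat_lit 185) (.e (nat_lit 434209) (nat_lit 18) (.e (nat_lit 6270) (nat_lit 337) .nil)))))))) (.g (nat_lit 5) .nil .nil)))) (.nd (nat_lit 6) 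
(.lf (nat_lit 33444) (.g (nat_lit 3063) (.e (nat_lit 1207) (nat_lit 89) (.e (nat_lit 73755) (nat_lit 8) (.e (nat_lit 557091) (nat_lit 12) (.e (nat_lit 164238) (nat_lit 187) (.e (nat_lit 1658) (nat_lit 115) (.e (nat_lit 393253) (nat_lit 18) (.e (nat_lit 164150) (nat_lit 152) .nil))))))) (.g (nat_lit 6) .nil .nil))) 
(.lf (nat_lit 33508) (.g (nat_lit 1257) (.e (nat_lit 1208) (nat_lit 89) (.e (nat_lit 73746) (nat_lit 3) (.e (nat_lit 516176) (nat_lit 14) (.e (nat_lit 466975) (nat_lit 22) .nil)))) .nil)))) (.nd (nat_lit 5) (.nd (nat_lit 6) 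
(.lf (nat_lit 33428) (.g (nat_lit 2024) (.e (nat_lit 1207) (nat_lit 89) (.e (nat_lit 73754) (nat_lit 8) (.e (nat_lit 557105) (nat_lit 14) (.e (nat_lit 180265) (nat_lit 21) (.e (nat_lit 663568) (nat_lit 5) (.e (nat_lit 73733) (nat_lit 0) (.e (nat_lit 7146) (nat_lit 382) .nil))))))) (.g (nat_lit 4) .nil .nil))) 
(.lf (nat_lit 33492) (.g (nat_lit 1975) (.e (nat_lit 1207) (nat_lit 89) (.e (nat_lit 81664) (nat_lit 32) (.e (nat_lit 2685) (nat_lit 168) (.e (nat_lit 204866) (nat_lit 28) (.e (nat_lit 352318) (nat_lit 24) (.e (nat_lit 130816) (nat_lit 140) .nil)))))) (.g (nat_lit 5) .nil .nil)))) (.nd (nat_lit 6) 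
(.lf (nat_lit 33460) (.g (nat_lit 2708) (.e (nat_lit 1207) (nat_lit 89) (.e (nat_lit 73755) (nat_lit 8) (.e (nat_lit 557098) (nat_lit 13) (.e (nat_lit 172133) (nat_lit 15) (.e (nat_lit 2059) (nat_lit 142) (.e (nat_lit 704595) (nat_lit 5) (.e (nat_lit 180228) (nat_lit 0) (.e (nat_lit 6270) (nat_lit 337) .nil)))))))) (.g (nat_lit 4) .nil .nil))) 
(.lf (nat_lit 33524) (.g (nat_lit 2201) (.e (nat_lit 1208) (nat_lit 89) (.e (nat_lit 73747) (nat_lit 3) (.e (nat_lit 516176) (nat_lit 14) (.e (nat_lit 466977) (nat_lit 22) (.e (nat_lit 196658) (nat_lit 12) .nil))))) .nil))))) (.nd (nat_lit 4) (.nd (nat_lit 5) (.nd (nat_lit 6) 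
(.lf (nat_lit 33420) (.g (nat_lit 1868) (.e (nat_lit 1207) (nat_lit 89) (.e (nat_lit 73754) (nat_lit 8) (.e (nat_lit 557105) (nat_lit 14) (.e (nat_lit 180265) (nat_lit 21) (.e (nat_lit 663555) (nat_lit 0) .nil))))) .nil)) 
(.lf (nat_lit 33484) (.g (nat_lit 1610) (.e (nat_lit 1207) (nat_lit 89) (.e (nat_lit 73755) (nat_lit 8) (.e (nat_lit 557105) (nat_lit 14) (.e (nat_lit 180265) (nat_lit 21) (.e (nat_lit 663555) (nat_lit 0) .nil))))) .nil))) (.nd (nat_lit 6) 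
(.lf (nat_lit 33452) (.g (nat_lit 3669) (.e (nat_lit 1207) (nat_lit 89) (.e (nat_lit 73755) (nat_lit 8) (.e (nat_lit 557091) (nat_lit 12) (.e (nat_lit 164238) (nat_lit 187) (.e (nat_lit 1661) (nat_lit 115) (.e (nat_lit 393251) (nat_lit 18) (.e (nat_lit 164151) (nat_lit 152) .nil))))))) (.g (nat_lit 6) .nil .nil))) 
(.lf (nat_lit 33516) (.g (nat_lit 2630) (.e (nat_lit 1208) (nat_lit 89) (.e (nat_lit 73747) (nat_lit 3) (.e (nat_lit 516165) (nat_lit 12) (.e (nat_lit 450579) (nat_lit 5) (.e (nat_lit 532501) (nat_lit 1) .nil))))) .nil)))) (.nd (nat_lit 5) (.nd (nat_lit 6) 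
(.lf (nat_lit 33436) (.g (nat_lit 2024) (.e (nat_lit 1207) (nat_lit 89) (.e (nat_lit 73755) (nat_lit 8) (.e (nat_lit 557068) (nat_lit 9) (.e (nat_lit 2828) (nat_lit 182) (.e (nat_lit 409646) (nat_lit 18) (.e (nat_lit 303154) (nat_lit 28) (.e (nat_lit 344100) (nat_lit 18) (.e (nat_lit 7147) (nat_lit 382) .nil)))))))) (.g (nat_lit 4) .nil .nil))) 
(.lf (nat_lit 33500) (.g (nat_lit 1432) (.e (nat_lit 1208) (nat_lit 89) (.e (nat_lit 73746) (nat_lit 3) (.e (nat_lit 516150) (nat_lit 9) (.e (nat_lit 426294) (nat_lit 11) .nil)))) .nil))) (.nd (nat_lit 6) 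
(.lf (nat_lit 33468) (.g (nat_lit 2506) (.e (nat_lit 1207) (nat_lit 89) (.e (nat_lit 73755) (nat_lit 8) (.e (nat_lit 557103) (nat_lit 14) (.e (nat_lit 180261) (nat_lit 20) (.e (nat_lit 655364) (nat_lit 0) .nil))))) .nil)) 
(.lf (nat_lit 33532) (.g (nat_lit 3019) (.e (nat_lit 1208) (nat_lit 89) (.e (nat_lit 73753) (nat_lit 8) (.e (nat_lit 557091) (nat_lit 12) (.e (nat_lit 164238) (nat_lit 187) (.e (nat_lit 1661) (nat_lit 115) (.e (nat_lit 393252) (nat_lit 18) (.e (nat_lit 164167) (nat_lit 152) .nil))))))) (.g (nat_lit 5) .nil .nil)))))))) 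
(.nd (nat_lit 2) (.nd (nat_lit 3) (.nd (nat_lit 4) (.nd (nat_lit 5) (.nd (nat_lit 6) 
(.lf (nat_lit 33410) (.g (nat_lit 2861) (.e (nat_lit 1207) (nat_lit 89) (.e (nat_lit 73754) (nat_lit 8) (.e (nat_lit 557105) (nat_lit 14) (.e (nat_lit 180261) (nat_lit 20) (.e (nat_lit 655364) (nat_lit 0) (.e (nat_lit 2964) (nat_lit 185) (.e (nat_lit 434209) (nat_lit 18) (.e (nat_lit 6273) (nat_lit 337) .nil)))))))) (.g (nat_lit 5) .nil .nil))) 
(.lf (nat_lit 33474) (.g (nat_lit 2086) (.e (nat_lit 1207) (nat_lit 89) (.e (nat_lit 73755) (nat_lit 8) (.e (nat_lit 557104) (nat_lit 14) (.e (nat_lit 180233) (nat_lit 0) (.e (nat_lit 5948) (nat_lit 322) (.e (nat_lit 57419) (nat_lit 12) (.e (nat_lit 335986) (nat_lit 1) (.e (nat_lit 57655) (nat_lit 152) .nil)))))))) (.g (nat_lit 4) .nil .nil)))) (.nd (nat_lit 6) 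
(.lf (nat_lit 33442) (.g (nat_lit 2849) (.e (nat_lit 1207) (nat_lit 89) (.e (nat_lit 73755) (nat_lit 8) (.e (nat_lit 557090) (nat_lit 12) (.e (nat_lit 164238) (nat_lit 187) (.e (nat_lit 1661) (nat_lit 115) (.e (nat_lit 393253) (nat_lit 18) (.e (nat_lit 164150) (nat_lit 152) .nil))))))) (.g (nat_lit 4) .nil .nil))) 
(.lf (nat_lit 33506) (.g (nat_lit 2508) (.e (nat_lit 1208) (nat_lit 89) (.e (nat_lit 73746) (nat_lit 3) (.e (nat_lit 516165) (nat_lit 12) (.e (nat_lit 450579) (nat_lit 5) (.e (nat_lit 532504) (nat_lit 1) .nil))))) .nil)))) (.nd (nat_lit 5) (.nd (nat_lit 6) 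
(.lf (nat_lit 33426) (.g (nat_lit 1844) (.e (nat_lit 1207) (nat_lit 89) (.e (nat_lit 73754) (nat_lit 8) (.e (nat_lit 557105) (nat_lit 14) (.e (nat_lit 180265) (nat_lit 21) (.e (nat_lit 663568) (nat_lit 5) .nil))))) .nil)) 
(.lf (nat_lit 33490) (.g (nat_lit 4793) (.e (nat_lit 1207) (nat_lit 89) (.e (nat_lit 73781) (nat_lit 32) (.e (nat_lit 2682) (nat_lit 168) (.e (nat_lit 204869) (nat_lit 29) (.e (nat_lit 360451) (nat_lit 0) (.e (nat_lit 3928) (nat_lit 239) .nil)))))) (.g (nat_lit 6) .nil .nil)))) (.nd (nat_lit 6) 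
(.lf (nat_lit 33458) (.g (nat_lit 2104) (.e (nat_lit 1207) (nat_lit 89) (.e (nat_lit 73755) (nat_lit 8) (.e (nat_lit 557098) (nat_lit 13) (.e (nat_lit 172059) (nat_lit 1) .nil)))) .nil)) 
(.lf (nat_lit 33522) (.g (nat_lit 1587) (.e (nat_lit 1208) (nat_lit 89) (.e (nat_lit 73747) (nat_lit 3) (.e (nat_lit 516176) (nat_lit 14) (.e (nat_lit 466976) (nat_lit 22) .nil)))) .nil))))) (.nd (nat_lit 4) (.nd (nat_lit 5) (.nd (nat_lit 6) 
(.lf (nat_lit 33418) (.g (nat_lit 1581) (.e (nat_lit 1207) (nat_lit 89) (.e (nat_lit 73754) (nat_lit 8) (.e (nat_lit 557105) (nat_lit 14) (.e (nat_lit 180264) (nat_lit 21) (.e (nat_lit 663571) (nat_lit 8) .nil))))) .nil)) 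
(.lf (nat_lit 33482) (.g (nat_lit 2014) (.e (nat_lit 1207) (nat_lit 89) (.e (nat_lit 73755) (nat_lit 8) (.e (nat_lit 557105) (nat_lit 14) (.e (nat_lit 180264) (nat_lit 21) .nil)))) .nil))) (.nd (nat_lit 6) 
(.lf (nat_lit 33450) (.g (nat_lit 2816) (.e (nat_lit 1207) (nat_lit 89) (.e (nat_lit 73755) (nat_lit 8) (.e (nat_lit 557091) (nat_lit 12) (.e (nat_lit 164238) (nat_lit 187) (.e (nat_lit 1661) (nat_lit 115) (.e (nat_lit 393251) (nat_lit 18) (.e (nat_lit 164149) (nat_lit 152) .nil))))))) (.g (nat_lit 5) .nil .nil))) 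
(.lf (nat_lit 33514) (.g (nat_lit 1553) (.e (nat_lit 1208) (nat_lit 89) (.e (nat_lit 73747) (nat_lit 3) (.e (nat_lit 516150) (nat_lit 9) (.e (nat_lit 426294) (nat_lit 11) .nil)))) .nil)))) (.nd (nat_lit 5) (.nd (nat_lit 6) 
(.lf (nat_lit 33434) (.g (nat_lit 3338) (.e (nat_lit 1207) (nat_lit 89) (.e (nat_lit 73755) (nat_lit 8) (.e (nat_lit 557067) (nat_lit 9) (.e (nat_lit 2828) (nat_lit 182) (.e (nat_lit 409649) (nat_lit 18) (.e (nat_lit 303151) (nat_lit 27) (.e (nat_lit 335995) (nat_lit 1) (.e (nat_lit 57655) (nat_lit 152) .nil)))))))) (.g (nat_lit 4) .nil .nil))) 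
(.lf (nat_lit 33498) (.g (nat_lit 772) (.e (nat_lit 1208) (nat_lit 89) (.e (nat_lit 73746) (nat_lit 3) (.e (nat_lit 516149) (nat_lit 9) .nil))) .nil))) (.nd (nat_lit 6) 
(.lf (nat_lit 33466) (.g (nat_lit 2097) (.e (nat_lit 1207) (nat_lit 89) (.e (nat_lit 73755) (nat_lit 8) (.e (nat_lit 557103) (nat_lit 14) (.e (nat_lit 180229) (nat_lit 0) .nil)))) .nil)) 
(.lf (nat_lit 33530) (.g (nat_lit 3111) (.e (nat_lit 1208) (nat_lit 89) (.e (nat_lit 73753) (nat_lit 8) (.e (nat_lit 557091) (nat_lit 12) (.e (nat_lit 164238) (nat_lit 187) (.e (nat_lit 1661) (nat_lit 115) (.e (nat_lit 393252) (nat_lit 18) (.e (nat_lit 164159) (nat_lit 152) .nil))))))) (.g (nat_lit 5) .nil .nil))))))) (.nd (nat_lit 3) (.nd (nat_lit 4) (.nd (nat_lit 5) (.nd (nat_lit 6) 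
(.lf (nat_lit 33414) (.g (nat_lit 1581) (.e (nat_lit 1207) (nat_lit 89) (.e (nat_lit 73754) (nat_lit 8) (.e (nat_lit 557105) (nat_lit 14) (.e (nat_lit 180264) (nat_lit 21) (.e (nat_lit 663556) (nat_lit 0) .nil))))) .nil)) 
(.lf (nat_lit 33478) (.g (nat_lit 2335) (.e (nat_lit 1207) (nat_lit 89) (.e (nat_lit 73755) (nat_lit 8) (.e (nat_lit 557104) (nat_lit 14) (.e (nat_lit 180261) (nat_lit 20) (.e (nat_lit 655378) (nat_lit 4) (.e (nat_lit 172061) (nat_lit 1) (.e (nat_lit 164150) (nat_lit 152) .nil))))))) (.g (nat_lit 4) .nil .nil)))) (.nd (nat_lit 6) 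
(.lf (nat_lit 33446) (.g (nat_lit 2114) (.e (nat_lit 1207) (nat_lit 89) (.e (nat_lit 73755) (nat_lit 8) (.e (nat_lit 557091) (nat_lit 12) (.e (nat_lit 164238) (nat_lit 187) (.e (nat_lit 1660) (nat_lit 115) (.e (nat_lit 393253) (nat_lit 18) (.e (nat_lit 164149) (nat_lit 152) .nil))))))) (.g (nat_lit 4) .nil .nil))) 
(.lf (nat_lit 33510) (.g (nat_lit 1254) (.e (nat_lit 1208) (nat_lit 89) (.e (nat_lit 73746) (nat_lit 3) (.e (nat_lit 516176) (nat_lit 14) (.e (nat_lit 466977) (nat_lit 22) .nil)))) .nil)))) (.nd (nat_lit 5) (.nd (nat_lit 6) 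
(.lf (nat_lit 33430) (.g (nat_lit 3027) (.e (nat_lit 1207) (nat_lit 89) (.e (nat_lit 73754) (nat_lit 8) (.e (nat_lit 557105) (nat_lit 14) (.e (nat_lit 180266) (nat_lit 22) (.e (nat_lit 671762) (nat_lit 4) (.e (nat_lit 65565) (nat_lit 1) (.e (nat_lit 57655) (nat_lit 152) .nil))))))) (.g (nat_lit 6) .nil .nil))) 
(.lf (nat_lit 33494) (.g (nat_lit 161) (.e (nat_lit 1207) (nat_lit 89) (.e (nat_lit 73792) (nat_lit 45) (.e (nat_lit 1343) (nat_lit 101) .nil))) .nil))) (.nd (nat_lit 6) 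
(.lf (nat_lit 33462) (.g (nat_lit 2739) (.e (nat_lit 1207) (nat_lit 89) (.e (nat_lit 73755) (nat_lit 8) (.e (nat_lit 557098) (nat_lit 13) (.e (nat_lit 172133) (nat_lit 15) (.e (nat_lit 2175) (nat_lit 143) (.e (nat_lit 712747) (nat_lit 28) (.e (nat_lit 434209) (nat_lit 18) (.e (nat_lit 6270) (nat_lit 337) .nil)))))))) (.g (nat_lit 4) .nil .nil))) 
(.lf (nat_lit 33526) (.g (nat_lit 2523) (.e (nat_lit 1208) (nat_lit 89) (.e (nat_lit 73753) (nat_lit 8) (.e (nat_lit 557090) (nat_lit 12) (.e (nat_lit 164238) (nat_lit 187) .nil)))) .nil))))) (.nd (nat_lit 4) (.nd (nat_lit 5) (.nd (nat_lit 6) 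
(.lf (nat_lit 33422) (.g (nat_lit 1900) (.e (nat_lit 1207) (nat_lit 89) (.e (nat_lit 73754) (nat_lit 8) (.e (nat_lit 557105) (nat_lit 14) (.e (nat_lit 180265) (nat_lit 21) (.e (nat_lit 663555) (nat_lit 0) (.e (nat_lit 1536) (nat_lit 109) (.e (nat_lit 344097) (nat_lit 18) (.e (nat_lit 7147) (nat_lit 382) .nil)))))))) (.g (nat_lit 4) .nil .nil))) 
(.lf (nat_lit 33486) (.g (nat_lit 1643) (.e (nat_lit 1207) (nat_lit 89) (.e (nat_lit 73755) (nat_lit 8) (.e (nat_lit 557105) (nat_lit 14) (.e (nat_lit 180265) (nat_lit 21) (.e (nat_lit 663568) (nat_lit 5) .nil))))) .nil))) (.nd (nat_lit 6) 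
(.lf (nat_lit 33454) (.g (nat_lit 1891) (.e (nat_lit 1207) (nat_lit 89) (.e (nat_lit 73755) (nat_lit 8) (.e (nat_lit 557097) (nat_lit 13) (.e (nat_lit 172133) (nat_lit 15) (.e (nat_lit 2175) (nat_lit 143) .nil))))) .nil)) 
(.lf (nat_lit 33518) (.g (nat_lit 1944) (.e (nat_lit 1208) (nat_lit 89) (.e (nat_lit 73747) (nat_lit 3) (.e (nat_lit 516166) (nat_lit 12) (.e (nat_lit 458496) (nat_lit 3) .nil)))) .nil)))) (.nd (nat_lit 5) (.nd (nat_lit 6) 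
(.lf (nat_lit 33438) (.g (nat_lit 2345) (.e (nat_lit 1207) (nat_lit 89) (.e (nat_lit 73755) (nat_lit 8) (.e (nat_lit 557090) (nat_lit 12) (.e (nat_lit 164238) (nat_lit 187) .nil)))) .nil)) 
(.lf (nat_lit 33502) (.g (nat_lit 1537) (.e (nat_lit 1208) (nat_lit 89) (.e (nat_lit 73746) (nat_lit 3) (.e (nat_lit 516165) (nat_lit 12) (.e (nat_lit 458496) (nat_lit 3) .nil)))) .nil))) (.nd (nat_lit 6) 
(.lf (nat_lit 33470) (.g (nat_lit 1714) (.e (nat_lit 1207) (nat_lit 89) (.e (nat_lit 73755) (nat_lit 8) (.e (nat_lit 557104) (nat_lit 14) (.e (nat_lit 180229) (nat_lit 0) .nil)))) .nil)) 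
(.lf (nat_lit 33534) (.g (nat_lit 1332) (.e (nat_lit 1208) (nat_lit 89) (.e (nat_lit 73753) (nat_lit 8) (.e (nat_lit 557093) (nat_lit 12) (.e (nat_lit 164239) (nat_lit 187) .nil)))) .nil)))))))) (.nd (nat_lit 1) (.nd (nat_lit 2) (.nd (nat_lit 3) (.nd (nat_lit 4) (.nd (nat_lit 5) (.nd (nat_lit 6) 
(.lf (nat_lit 33409) (.g (nat_lit 4661) (.e (nat_lit 1207) (nat_lit 89) (.e (nat_lit 73754) (nat_lit 8) (.e (nat_lit 557105) (nat_lit 14) (.e (nat_lit 180261) (nat_lit 20) (.e (nat_lit 655364) (nat_lit 0) (.e (nat_lit 2964) (nat_lit 185) (.e (nat_lit 434209) (nat_lit 18) (.e (nat_lit 6272) (nat_lit 337) .nil)))))))) (.g (nat_lit 8) .nil .nil))) 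
(.lf (nat_lit 33473) (.g (nat_lit 1991) (.e (nat_lit 1207) (nat_lit 89) (.e (nat_lit 73755) (nat_lit 8) (.e (nat_lit 557104) (nat_lit 14) (.e (nat_lit 180233) (nat_lit 0) (.e (nat_lit 5599) (nat_lit 310) (.e (nat_lit 163905) (nat_lit 12) (.e (nat_lit 426112) (nat_lit 1) (.e (nat_lit 164150) (nat_lit 152) .nil)))))))) (.g (nat_lit 4) .nil .nil)))) (.nd (nat_lit 6) 
(.lf (nat_lit 33441) (.g (nat_lit 2810) (.e (nat_lit 1207) (nat_lit 89) (.e (nat_lit 73755) (nat_lit 8) (.e (nat_lit 557090) (nat_lit 12) (.e (nat_lit 164238) (nat_lit 187) (.e (nat_lit 1661) (nat_lit 115) .nil))))) .nil)) 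
(.lf (nat_lit 33505) (.g (nat_lit 2181) (.e (nat_lit 1208) (nat_lit 89) (.e (nat_lit 73746) (nat_lit 3) (.e (nat_lit 516165) (nat_lit 12) (.e (nat_lit 450579) (nat_lit 5) (.e (nat_lit 532503) (nat_lit 1) .nil))))) .nil)))) (.nd (nat_lit 5) (.nd (nat_lit 6) 
(.lf (nat_lit 33425) (.g (nat_lit 2199) (.e (nat_lit 1207) (nat_lit 89) (.e (nat_lit 73754) (nat_lit 8) (.e (nat_lit 557105) (nat_lit 14) (.e (nat_lit 180265) (nat_lit 21) (.e (nat_lit 663566) (nat_lit 4) (.e (nat_lit 65565) (nat_lit 1) (.e (nat_lit 57654) (nat_lit 152) .nil))))))) (.g (nat_lit 5) .nil .nil))) 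
(.lf (nat_lit 33489) (.g (nat_lit 1931) (.e (nat_lit 1207) (nat_lit 89) (.e (nat_lit 73781) (nat_lit 32) (.e (nat_lit 2664) (nat_lit 167) (.e (nat_lit 196666) (nat_lit 13) (.e (nat_lit 65617) (nat_lit 10) (.e (nat_lit 344096) (nat_lit 18) (.e (nat_lit 3928) (nat_lit 239) .nil))))))) (.g (nat_lit 5) .nil .nil)))) (.nd (nat_lit 6) 
(.lf (nat_lit 33457) (.g (nat_lit 1683) (.e (nat_lit 1207) (nat_lit 89) (.e (nat_lit 73755) (nat_lit 8) (.e (nat_lit 557098) (nat_lit 13) (.e (nat_lit 172051) (nat_lit 0) .nil)))) .nil)) 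
(.lf (nat_lit 33521) (.g (nat_lit 786) (.e (nat_lit 1208) (nat_lit 89) (.e (nat_lit 73747) (nat_lit 3) (.e (nat_lit 516167) (nat_lit 12) .nil))) .nil))))) (.nd (nat_lit 4) (.nd (nat_lit 5) (.nd (nat_lit 6) 
(.lf (nat_lit 33417) (.g (nat_lit 2772) (.e (nat_lit 1207) (nat_lit 89) (.e (nat_lit 73754) (nat_lit 8) (.e (nat_lit 557105) (nat_lit 14) (.e (nat_lit 180264) (nat_lit 21) (.e (nat_lit 663566) (nat_lit 4) (.e (nat_lit 65565) (nat_lit 1) (.e (nat_lit 57655) (nat_lit 152) .nil))))))) (.g (nat_lit 7) .nil .nil))) 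
(.lf (nat_lit 33481) (.g (nat_lit 2390) (.e (nat_lit 1207) (nat_lit 89) (.e (nat_lit 73755) (nat_lit 8) (.e (nat_lit 557105) (nat_lit 14) (.e (nat_lit 180261) (nat_lit 20) (.e (nat_lit 655364) (nat_lit 0) .nil))))) .nil))) (.nd (nat_lit 6) 
(.lf (nat_lit 33449) (.g (nat_lit 3594) (.e (nat_lit 1207) (nat_lit 89) (.e (nat_lit 73755) (nat_lit 8) (.e (nat_lit 557091) (nat_lit 12) (.e (nat_lit 164238) (nat_lit 187) (.e (nat_lit 1661) (nat_lit 115) (.e (nat_lit 393251) (nat_lit 18) (.e (nat_lit 164148) (nat_lit 152) .nil))))))) (.g (nat_lit 6) .nil .nil))) 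
(.lf (nat_lit 33513) (.g (nat_lit 2364) (.e (nat_lit 1208) (nat_lit 89) (.e (nat_lit 73747) (nat_lit 3) (.e (nat_lit 516146) (nat_lit 9) (.e (nat_lit 426320) (nat_lit 12) (.e (nat_lit 475179) (nat_lit 24) (.e (nat_lit 516102) (nat_lit 0) (.e (nat_lit 2400) (nat_lit 157) (.e (nat_lit 7236) (nat_lit 382) .nil)))))))) (.g (nat_lit 4) .nil .nil))))) (.nd (nat_lit 5) (.nd (nat_lit 6) 
(.lf (nat_lit 33433) (.g (nat_lit 3092) (.e (nat_lit 1207) (nat_lit 89) (.e (nat_lit 73755) (nat_lit 8) (.e (nat_lit 557067) (nat_lit 9) (.e (nat_lit 2828) (nat_lit 182) (.e (nat_lit 409646) (nat_lit 18) .nil))))) .nil)) 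
(.lf (nat_lit 33497) (.g (nat_lit 2134) (.e (nat_lit 1208) (nat_lit 89) (.e (nat_lit 73746) (nat_lit 3) (.e (nat_lit 516146) (nat_lit 9) (.e (nat_lit 426294) (nat_lit 11) (.e (nat_lit 466688) (nat_lit 21) .nil))))) .nil))) (.nd (nat_lit 6) 
(.lf (nat_lit 33465) (.g (nat_lit 814) (.e (nat_lit 1207) (nat_lit 89) (.e (nat_lit 73755) (nat_lit 8) (.e (nat_lit 557103) (nat_lit 14) .nil))) .nil)) 
(.lf (nat_lit 33529) (.g (nat_lit 2216) (.e (nat_lit 1208) (nat_lit 89) (.e (nat_lit 73753) (nat_lit 8) (.e (nat_lit 557091) (nat_lit 12) (.e (nat_lit 164238) (nat_lit 187) (.e (nat_lit 1661) (nat_lit 115) (.e (nat_lit 393251) (nat_lit 18) (.e (nat_lit 164152) (nat_lit 152) .nil))))))) (.g (nat_lit 4) .nil .nil))))))) (.nd (nat_lit 3) (.nd (nat_lit 4) (.nd (nat_lit 5) (.nd (nat_lit 6) 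
(.lf (nat_lit 33413) (.g (nat_lit 1909) (.e (nat_lit 1207) (nat_lit 89) (.e (nat_lit 73754) (nat_lit 8) (.e (nat_lit 557105) (nat_lit 14) (.e (nat_lit 180264) (nat_lit 21) (.e (nat_lit 663555) (nat_lit 0) (.e (nat_lit 1524) (nat_lit 108) (.e (nat_lit 335986) (nat_lit 1) (.e (nat_lit 57655) (nat_lit 152) .nil)))))))) (.g (nat_lit 4) .nil .nil))) 
(.lf (nat_lit 33477) (.g (nat_lit 3113) (.e (nat_lit 1207) (nat_lit 89) (.e (nat_lit 73755) (nat_lit 8) (.e (nat_lit 557104) (nat_lit 14) (.e (nat_lit 180261) (nat_lit 20) (.e (nat_lit 655364) (nat_lit 0) (.e (nat_lit 2964) (nat_lit 185) (.e (nat_lit 434209) (nat_lit 18) (.e (nat_lit 6272) (nat_lit 337) .nil)))))))) (.g (nat_lit 5) .nil .nil)))) (.nd (nat_lit 6) 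
(.lf (nat_lit 33445) (.g (nat_lit 3875) (.e (nat_lit 1207) (nat_lit 89) (.e (nat_lit 73755) (nat_lit 8) (.e (nat_lit 557091) (nat_lit 12) (.e (nat_lit 164238) (nat_lit 187) (.e (nat_lit 1659) (nat_lit 115) (.e (nat_lit 393253) (nat_lit 18) (.e (nat_lit 164150) (nat_lit 152) .nil))))))) (.g (nat_lit 7) .nil .nil))) 
(.lf (nat_lit 33509) (.g (nat_lit 1412) (.e (nat_lit 1208) (nat_lit 89) (.e (nat_lit 73746) (nat_lit 3) (.e (nat_lit 516176) (nat_lit 14) (.e (nat_lit 466976) (nat_lit 22) .nil)))) .nil)))) (.nd (nat_lit 5) (.nd (nat_lit 6) 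
(.lf (nat_lit 33429) (.g (nat_lit 1504) (.e (nat_lit 1207) (nat_lit 89) (.e (nat_lit 73754) (nat_lit 8) (.e (nat_lit 557105) (nat_lit 14) (.e (nat_lit 180266) (nat_lit 22) (.e (nat_lit 671762) (nat_lit 4) .nil))))) .nil)) 
(.lf (nat_lit 33493) (.g (nat_lit 159) (.e (nat_lit 1207) (nat_lit 89) (.e (nat_lit 73792) (nat_lit 45) (.e (nat_lit 1342) (nat_lit 101) .nil))) .nil))) (.nd (nat_lit 6) 
(.lf (nat_lit 33461) (.g (nat_lit 3889) (.e (nat_lit 1207) (nat_lit 89) (.e (nat_lit 73755) (nat_lit 8) (.e (nat_lit 557098) (nat_lit 13) (.e (nat_lit 172133) (nat_lit 15) (.e (nat_lit 2059) (nat_lit 142) (.e (nat_lit 704595) (nat_lit 5) (.e (nat_lit 180229) (nat_lit 0) (.e (nat_lit 6270) (nat_lit 337) .nil)))))))) (.g (nat_lit 5) .nil .nil))) 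
(.lf (nat_lit 33525) (.g (nat_lit 1337) (.e (nat_lit 1208) (nat_lit 89) (.e (nat_lit 73751) (nat_lit 7) (.e (nat_lit 548874) (nat_lit 5) (.e (nat_lit 1598) (nat_lit 111) (.e (nat_lit 360466) (nat_lit 3) .nil))))) .nil))))) (.nd (nat_lit 4) (.nd (nat_lit 5) (.nd (nat_lit 6) 
(.lf (nat_lit 33421) (.g (nat_lit 4151) (.e (nat_lit 1207) (nat_lit 89) (.e (nat_lit 73754) (nat_lit 8) (.e (nat_lit 557105) (nat_lit 14) (.e (nat_lit 180265) (nat_lit 21) (.e (nat_lit 663555) (nat_lit 0) (.e (nat_lit 1524) (nat_lit 108) (.e (nat_lit 335986) (nat_lit 1) (.e (nat_lit 57655) (nat_lit 152) .nil)))))))) (.g (nat_lit 0) .nil .nil))) 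
(.lf (nat_lit 33485) (.g (nat_lit 1642) (.e (nat_lit 1207) (nat_lit 89) (.e (nat_lit 73755) (nat_lit 8) (.e (nat_lit 557105) (nat_lit 14) (.e (nat_lit 180265) (nat_lit 21) (.e (nat_lit 663566) (nat_lit 4) .nil))))) .nil))) (.nd (nat_lit 6) 
(.lf (nat_lit 33453) (.g (nat_lit 1888) (.e (nat_lit 1207) (nat_lit 89) (.e (nat_lit 73755) (nat_lit 8) (.e (nat_lit 557096) (nat_lit 13) (.e (nat_lit 172133) (nat_lit 15) (.e (nat_lit 2175) (nat_lit 143) .nil))))) .nil)) 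
(.lf (nat_lit 33517) (.g (nat_lit 2562) (.e (nat_lit 1208) (nat_lit 89) (.e (nat_lit 73747) (nat_lit 3) (.e (nat_lit 516165) (nat_lit 12) (.e (nat_lit 450579) (nat_lit 5) (.e (nat_lit 532504) (nat_lit 1) .nil))))) .nil)))) (.nd (nat_lit 5) (.nd (nat_lit 6) 
(.lf (nat_lit 33437) (.g (nat_lit 2634) (.e (nat_lit 1207) (nat_lit 89) (.e (nat_lit 73755) (nat_lit 8) (.e (nat_lit 557090) (nat_lit 12) (.e (nat_lit 163987) (nat_lit 33) .nil)))) .nil)) 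
(.lf (nat_lit 33501) (.g (nat_lit 572) (.e (nat_lit 1208) (nat_lit 89) (.e (nat_lit 73746) (nat_lit 3) (.e (nat_lit 516165) (nat_lit 12) .nil))) .nil))) (.nd (nat_lit 6) 
(.lf (nat_lit 33469) (.g (nat_lit 769) (.e (nat_lit 1207) (nat_lit 89) (.e (nat_lit 73755) (nat_lit 8) (.e (nat_lit 557104) (nat_lit 14) .nil))) .nil)) 
(.lf (nat_lit 33533) (.g (nat_lit 2763) (.e (nat_lit 1208) (nat_lit 89) (.e (nat_lit 73753) (nat_lit 8) (.e (nat_lit 557093) (nat_lit 12) (.e (nat_lit 164238) (nat_lit 187) (.e (nat_lit 1661) (nat_lit 115) (.e (nat_lit 393251) (nat_lit 18) (.e (nat_lit 164161) (nat_lit 152) .nil))))))) (.g (nat_lit 5) .nil .nil)))))))) 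
(.nd (nat_lit 2) (.nd (nat_lit 3) (.nd (nat_lit 4) (.nd (nat_lit 5) (.nd (nat_lit 6) 
(.lf (nat_lit 33411) (.g (nat_lit 1919) (.e (nat_lit 1207) (nat_lit 89) (.e (nat_lit 73754) (nat_lit 8) (.e (nat_lit 557105) (nat_lit 14) (.e (nat_lit 180262) (nat_lit 21) (.e (nat_lit 663567) (nat_lit 4) (.e (nat_lit 65563) (nat_lit 1) (.e (nat_lit 57655) (nat_lit 152) .nil))))))) (.g (nat_lit 4) .nil .nil))) 
(.lf (nat_lit 33475) (.g (nat_lit 1805) (.e (nat_lit 1207) (nat_lit 89) (.e (nat_lit 73755) (nat_lit 8) (.e (nat_lit 557104) (nat_lit 14) (.e (nat_lit 180261) (nat_lit 20) .nil)))) .nil))) (.nd (nat_lit 6) 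
(.lf (nat_lit 33443) (.g (nat_lit 1215) (.e (nat_lit 1207) (nat_lit 89) (.e (nat_lit 73755) (nat_lit 8) (.e (nat_lit 557091) (nat_lit 12) (.e (nat_lit 164213) (nat_lit 176) .nil)))) .nil)) 
(.lf (nat_lit 33507) (.g (nat_lit 497) (.e (nat_lit 1208) (nat_lit 89) (.e (nat_lit 73746) (nat_lit 3) (.e (nat_lit 516174) (nat_lit 14) .nil))) .nil)))) (.nd (nat_lit 5) (.nd (nat_lit 6) 
(.lf (nat_lit 33427) (.g (nat_lit 3664) (.e (nat_lit 1207) (nat_lit 89) (.e (nat_lit 73754) (nat_lit 8) (.e (nat_lit 557105) (nat_lit 14) (.e (nat_lit 180265) (nat_lit 21) (.e (nat_lit 663568) (nat_lit 5) (.e (nat_lit 73732) (nat_lit 0) (.e (nat_lit 7147) (nat_lit 382) .nil))))))) (.g (nat_lit 0) .nil .nil))) 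
(.lf (nat_lit 33491) (.g (nat_lit 1552) (.e (nat_lit 1207) (nat_lit 89) (.e (nat_lit 73781) (nat_lit 32) (.e (nat_lit 3089) (nat_lit 191) (.e (nat_lit 483393) (nat_lit 23) (.e (nat_lit 335988) (nat_lit 1) .nil))))) .nil))) (.nd (nat_lit 6) 
(.lf (nat_lit 33459) (.g (nat_lit 1737) (.e (nat_lit 1207) (nat_lit 89) (.e (nat_lit 73755) (nat_lit 8) (.e (nat_lit 557098) (nat_lit 13) (.e (nat_lit 172133) (nat_lit 15) .nil)))) .nil)) 
(.lf (nat_lit 33523) (.g (nat_lit 1605) (.e (nat_lit 1208) (nat_lit 89) (.e (nat_lit 73747) (nat_lit 3) (.e (nat_lit 516176) (nat_lit 14) (.e (nat_lit 466977) (nat_lit 22) .nil)))) .nil))))) (.nd (nat_lit 4) (.nd (nat_lit 5) (.nd (nat_lit 6) 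
(.lf (nat_lit 33419) (.g (nat_lit 996) (.e (nat_lit 1207) (nat_lit 89) (.e (nat_lit 73754) (nat_lit 8) (.e (nat_lit 557105) (nat_lit 14) (.e (nat_lit 180265) (nat_lit 21) .nil)))) .nil)) 
(.lf (nat_lit 33483) (.g (nat_lit 1276) (.e (nat_lit 1207) (nat_lit 89) (.e (nat_lit 73755) (nat_lit 8) (.e (nat_lit 557105) (nat_lit 14) (.e (nat_lit 180265) (nat_lit 21) .nil)))) .nil))) (.nd (nat_lit 6) 
(.lf (nat_lit 33451) (.g (nat_lit 3392) (.e (nat_lit 1207) (nat_lit 89) (.e (nat_lit 73755) (nat_lit 8) (.e (nat_lit 557091) (nat_lit 12) (.e (nat_lit 164238) (nat_lit 187) (.e (nat_lit 1661) (nat_lit 115) (.e (nat_lit 393251) (nat_lit 18) (.e (nat_lit 164150) (nat_lit 152) .nil))))))) (.g (nat_lit 6) .nil .nil))) 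
(.lf (nat_lit 33515) (.g (nat_lit 1384) (.e (nat_lit 1208) (nat_lit 89) (.e (nat_lit 73747) (nat_lit 3) (.e (nat_lit 516165) (nat_lit 12) (.e (nat_lit 450579) (nat_lit 5) .nil)))) .nil)))) (.nd (nat_lit 5) (.nd (nat_lit 6) 
(.lf (nat_lit 33435) (.g (nat_lit 2417) (.e (nat_lit 1207) (nat_lit 89) (.e (nat_lit 73755) (nat_lit 8) (.e (nat_lit 557067) (nat_lit 9) (.e (nat_lit 3096) (nat_lit 192) .nil)))) .nil)) 
(.lf (nat_lit 33499) (.g (nat_lit 1737) (.e (nat_lit 1208) (nat_lit 89) (.e (nat_lit 73746) (nat_lit 3) (.e (nat_lit 516150) (nat_lit 9) (.e (nat_lit 426227) (nat_lit 9) .nil)))) .nil))) (.nd (nat_lit 6) 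
(.lf (nat_lit 33467) (.g (nat_lit 2198) (.e (nat_lit 1207) (nat_lit 89) (.e (nat_lit 73755) (nat_lit 8) (.e (nat_lit 557103) (nat_lit 14) (.e (nat_lit 180261) (nat_lit 20) .nil)))) .nil)) 
(.lf (nat_lit 33531) (.g (nat_lit 3074) (.e (nat_lit 1208) (nat_lit 89) (.e (nat_lit 73753) (nat_lit 8) (.e (nat_lit 557091) (nat_lit 12) (.e (nat_lit 164238) (nat_lit 187) (.e (nat_lit 1661) (nat_lit 115) (.e (nat_lit 393252) (nat_lit 18) (.e (nat_lit 164165) (nat_lit 152) .nil))))))) (.g (nat_lit 5) .nil .nil))))))) (.nd (nat_lit 3) (.nd (nat_lit 4) (.nd (nat_lit 5) (.nd (nat_lit 6) 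
(.lf (nat_lit 33415) (.g (nat_lit 1699) (.e (nat_lit 1207) (nat_lit 89) (.e (nat_lit 73754) (nat_lit 8) (.e (nat_lit 557105) (nat_lit 14) (.e (nat_lit 180264) (nat_lit 21) (.e (nat_lit 663566) (nat_lit 4) (.e (nat_lit 65563) (nat_lit 1) (.e (nat_lit 57655) (nat_lit 152) .nil))))))) (.g (nat_lit 4) .nil .nil))) 
(.lf (nat_lit 33479) (.g (nat_lit 1861) (.e (nat_lit 1207) (nat_lit 89) (.e (nat_lit 73755) (nat_lit 8) (.e (nat_lit 557104) (nat_lit 14) (.e (nat_lit 180266) (nat_lit 22) .nil)))) .nil))) (.nd (nat_lit 6) 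
(.lf (nat_lit 33447) (.g (nat_lit 3574) (.e (nat_lit 1207) (nat_lit 89) (.e (nat_lit 73755) (nat_lit 8) (.e (nat_lit 557091) (nat_lit 12) (.e (nat_lit 164238) (nat_lit 187) (.e (nat_lit 1660) (nat_lit 115) (.e (nat_lit 393253) (nat_lit 18) (.e (nat_lit 164150) (nat_lit 152) .nil))))))) (.g (nat_lit 7) .nil .nil))) 
(.lf (nat_lit 33511) (.g (nat_lit 1917) (.e (nat_lit 1208) (nat_lit 89) (.e (nat_lit 73746) (nat_lit 3) (.e (nat_lit 516176) (nat_lit 14) (.e (nat_lit 466977) (nat_lit 22) (.e (nat_lit 196658) (nat_lit 12) .nil))))) .nil)))) (.nd (nat_lit 5) (.nd (nat_lit 6) 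
(.lf (nat_lit 33431) (.g (nat_lit 2283) (.e (nat_lit 1207) (nat_lit 89) (.e (nat_lit 73755) (nat_lit 8) (.e (nat_lit 557065) (nat_lit 9) (.e (nat_lit 3098) (nat_lit 192) (.e (nat_lit 491571) (nat_lit 13) .nil))))) .nil)) 
(.lf (nat_lit 33495) (.g (nat_lit 978) (.e (nat_lit 1207) (nat_lit 89) (.e (nat_lit 73792) (nat_lit 45) (.e (nat_lit 1386) (nat_lit 105) (.e (nat_lit 319232) (nat_lit 30) .nil)))) .nil))) (.nd (nat_lit 6) 
(.lf (nat_lit 33463) (.g (nat_lit 2946) (.e (nat_lit 1207) (nat_lit 89) (.e (nat_lit 73755) (nat_lit 8) (.e (nat_lit 557098) (nat_lit 13) (.e (nat_lit 172133) (nat_lit 15) (.e (nat_lit 2175) (nat_lit 143) (.e (nat_lit 712747) (nat_lit 28) (.e (nat_lit 434209) (nat_lit 18) (.e (nat_lit 6272) (nat_lit 337) .nil)))))))) (.g (nat_lit 5) .nil .nil))) 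
(.lf (nat_lit 33527) (.g (nat_lit 2110) (.e (nat_lit 1208) (nat_lit 89) (.e (nat_lit 73753) (nat_lit 8) (.e (nat_lit 557091) (nat_lit 12) (.e (nat_lit 164238) (nat_lit 187) (.e (nat_lit 1660) (nat_lit 115) .nil))))) .nil))))) (.nd (nat_lit 4) (.nd (nat_lit 5) (.nd (nat_lit 6) 
(.lf (nat_lit 33423) (.g (nat_lit 1775) (.e (nat_lit 1207) (nat_lit 89) (.e (nat_lit 73754) (nat_lit 8) (.e (nat_lit 557105) (nat_lit 14) (.e (nat_lit 180265) (nat_lit 21) (.e (nat_lit 663556) (nat_lit 0) .nil))))) .nil)) 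
(.lf (nat_lit 33487) (.g (nat_lit 1671) (.e (nat_lit 1207) (nat_lit 89) (.e (nat_lit 73755) (nat_lit 8) (.e (nat_lit 557105) (nat_lit 14) (.e (nat_lit 180265) (nat_lit 21) (.e (nat_lit 663568) (nat_lit 5) (.e (nat_lit 73732) (nat_lit 0) (.e (nat_lit 7147) (nat_lit 382) .nil))))))) (.g (nat_lit 4) .nil .nil)))) (.nd (nat_lit 6) 
(.lf (nat_lit 33455) (.g (nat_lit 2070) (.e (nat_lit 1207) (nat_lit 89) (.e (nat_lit 73755) (nat_lit 8) (.e (nat_lit 557097) (nat_lit 13) (.e (nat_lit 172133) (nat_lit 15) (.e (nat_lit 2175) (nat_lit 143) (.e (nat_lit 712747) (nat_lit 28) (.e (nat_lit 434209) (nat_lit 18) (.e (nat_lit 6272) (nat_lit 337) .nil)))))))) (.g (nat_lit 4) .nil .nil))) 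
(.lf (nat_lit 33519) (.g (nat_lit 3573) (.e (nat_lit 1208) (nat_lit 89) (.e (nat_lit 73747) (nat_lit 3) (.e (nat_lit 516166) (nat_lit 12) (.e (nat_lit 450588) (nat_lit 10) (.e (nat_lit 573473) (nat_lit 12) .nil))))) .nil)))) (.nd (nat_lit 5) (.nd (nat_lit 6) 
(.lf (nat_lit 33439) (.g (nat_lit 3183) (.e (nat_lit 1207) (nat_lit 89) (.e (nat_lit 73755) (nat_lit 8) (.e (nat_lit 557090) (nat_lit 12) (.e (nat_lit 164238) (nat_lit 187) (.e (nat_lit 1659) (nat_lit 115) .nil))))) .nil)) 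
(.lf (nat_lit 33503) (.g (nat_lit 2354) (.e (nat_lit 1208) (nat_lit 89) (.e (nat_lit 73746) (nat_lit 3) (.e (nat_lit 516165) (nat_lit 12) (.e (nat_lit 450579) (nat_lit 5) (.e (nat_lit 532499) (nat_lit 1) .nil))))) .nil))) (.nd (nat_lit 6) 
(.lf (nat_lit 33471) (.g (nat_lit 2912) (.e (nat_lit 1207) (nat_lit 89) (.e (nat_lit 73755) (nat_lit 8) (.e (nat_lit 557104) (nat_lit 14) (.e (nat_lit 180229) (nat_lit 0) (.e (nat_lit 5548) (nat_lit 306) (.e (nat_lit 2640) (nat_lit 165) (.e (nat_lit 180227) (nat_lit 0) (.e (nat_lit 6250) (nat_lit 337) .nil)))))))) (.g (nat_lit 4) .nil .nil))) 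
(.lf (nat_lit 33535) (.g (nat_lit 1671) (.e (nat_lit 1208) (nat_lit 89) (.e (nat_lit 73753) (nat_lit 8) (.e (nat_lit 557094) (nat_lit 12) (.e (nat_lit 164238) (nat_lit 187) (.e (nat_lit 1661) (nat_lit 115) .nil))))) .nil)))))))))

noncomputable def tv469 : DT := (.nd (nat_lit 0) (.nd (nat_lit 1) (.nd (nat_lit 2) (.nd (nat_lit 3) (.nd (nat_lit 4) (.nd (nat_lit 5) (.nd (nat_lit 6) 
(.lf (nat_lit 33536) (.g (nat_lit 2596) (.e (nat_lit 1208) (nat_lit 89) (.e (nat_lit 73753) (nat_lit 8) (.e (nat_lit 557103) (nat_lit 14) (.e (nat_lit 180229) (nat_lit 0) (.e (nat_lit 5548) (nat_lit 306) .nil))))) .nil)) 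
(.lf (nat_lit 33600) (.g (nat_lit 566) (.e (nat_lit 1208) (nat_lit 89) (.e (nat_lit 73781) (nat_lit 32) (.e (nat_lit 3089) (nat_lit 191) .nil))) .nil))) (.nd (nat_lit 6) 
(.lf (nat_lit 33568) (.g (nat_lit 1804) (.e (nat_lit 1208) (nat_lit 89) (.e (nat_lit 73755) (nat_lit 8) (.e (nat_lit 557091) (nat_lit 12) (.e (nat_lit 164238) (nat_lit 187) (.e (nat_lit 1660) (nat_lit 115) (.e (nat_lit 393252) (nat_lit 18) (.e (nat_lit 164161) (nat_lit 152) .nil))))))) (.g (nat_lit 4) .nil .nil))) 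
(.lf (nat_lit 33632) (.g (nat_lit 1370) (.e (nat_lit 1209) (nat_lit 89) (.e (nat_lit 73746) (nat_lit 3) (.e (nat_lit 516176) (nat_lit 14) (.e (nat_lit 466947) (nat_lit 0) .nil)))) .nil)))) (.nd (nat_lit 5) (.nd (nat_lit 6) 
(.lf (nat_lit 33552) (.g (nat_lit 582) (.e (nat_lit 1208) (nat_lit 89) (.e (nat_lit 73754) (nat_lit 8) (.e (nat_lit 557100) (nat_lit 13) .nil))) .nil)) 
(.lf (nat_lit 33616) (.g (nat_lit 984) (.e (nat_lit 1208) (nat_lit 89) (.e (nat_lit 73792) (nat_lit 45) (.e (nat_lit 1386) (nat_lit 105) (.e (nat_lit 319232) (nat_lit 30) .nil)))) .nil))) (.nd (nat_lit 6) 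
(.lf (nat_lit 33584) (.g (nat_lit 2132) (.e (nat_lit 1208) (nat_lit 89) (.e (nat_lit 73755) (nat_lit 8) (.e (nat_lit 557103) (nat_lit 14) (.e (nat_lit 180244) (nat_lit 5) (.e (nat_lit 532579) (nat_lit 26) (.e (nat_lit 426107) (nat_lit 1) (.e (nat_lit 164116) (nat_lit 122) .nil))))))) (.g (nat_lit 4) .nil .nil))) 
(.lf (nat_lit 33648) (.g (nat_lit 783) (.e (nat_lit 1209) (nat_lit 89) (.e (nat_lit 73747) (nat_lit 3) (.e (nat_lit 516158) (nat_lit 9) .nil))) .nil))))) (.nd (nat_lit 4) (.nd (nat_lit 5) (.nd (nat_lit 6) 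
(.lf (nat_lit 33544) (.g (nat_lit 3631) (.e (nat_lit 1208) (nat_lit 89) (.e (nat_lit 73754) (nat_lit 8) (.e (nat_lit 557093) (nat_lit 12) (.e (nat_lit 164238) (nat_lit 187) (.e (nat_lit 1661) (nat_lit 115) (.e (nat_lit 393252) (nat_lit 18) (.e (nat_lit 164161) (nat_lit 152) .nil))))))) (.g (nat_lit 6) .nil .nil))) 
(.lf (nat_lit 33608) (.g (nat_lit 1434) (.e (nat_lit 1208) (nat_lit 89) (.e (nat_lit 73782) (nat_lit 32) (.e (nat_lit 2856) (nat_lit 184) (.e (nat_lit 426544) (nat_lit 30) .nil)))) .nil))) (.nd (nat_lit 6) 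
(.lf (nat_lit 33576) (.g (nat_lit 611) (.e (nat_lit 1208) (nat_lit 89) (.e (nat_lit 73755) (nat_lit 8) (.e (nat_lit 557098) (nat_lit 13) .nil))) .nil)) 
(.lf (nat_lit 33640) (.g (nat_lit 2109) (.e (nat_lit 1209) (nat_lit 89) (.e (nat_lit 73747) (nat_lit 3) (.e (nat_lit 516146) (nat_lit 9) (.e (nat_lit 426294) (nat_lit 11) (.e (nat_lit 466688) (nat_lit 21) .nil))))) .nil)))) (.nd (nat_lit 5) (.nd (nat_lit 6) 
(.lf (nat_lit 33560) (.g (nat_lit 2090) (.e (nat_lit 1208) (nat_lit 89) (.e (nat_lit 73755) (nat_lit 8) (.e (nat_lit 557090) (nat_lit 12) (.e (nat_lit 164238) (nat_lit 187) .nil)))) .nil)) 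
(.lf (nat_lit 33624) (.g (nat_lit 2277) (.e (nat_lit 1209) (nat_lit 89) (.e (nat_lit 73746) (nat_lit 3) (.e (nat_lit 516163) (nat_lit 11) (.e (nat_lit 442427) (nat_lit 23) (.e (nat_lit 204821) (nat_lit 17) .nil))))) .nil))) (.nd (nat_lit 6) 
(.lf (nat_lit 33592) (.g (nat_lit 2964) (.e (nat_lit 1208) (nat_lit 89) (.e (nat_lit 73775) (nat_lit 26) (.e (nat_lit 778362) (nat_lit 9) (.e (nat_lit 297) (nat_lit 22) (.e (nat_lit 344131) (nat_lit 26) .nil))))) .nil)) 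
(.lf (nat_lit 33656) (.g (nat_lit 5378) (.e (nat_lit 1209) (nat_lit 89) (.e (nat_lit 73747) (nat_lit 3) (.e (nat_lit 516166) (nat_lit 12) (.e (nat_lit 450587) (nat_lit 10) (.e (nat_lit 573475) (nat_lit 12) .nil))))) .nil)))))) (.nd (nat_lit 3) (.nd (nat_lit 4) (.nd (nat_lit 5) (.nd (nat_lit 6) 
(.lf (nat_lit 33540) (.g (nat_lit 3005) (.e (nat_lit 1208) (nat_lit 89) (.e (nat_lit 73754) (nat_lit 8) (.e (nat_lit 557091) (nat_lit 12) (.e (nat_lit 164238) (nat_lit 187) (.e (nat_lit 1661) (nat_lit 115) .nil))))) .nil)) 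
(.lf (nat_lit 33604) (.g (nat_lit 4859) (.e (nat_lit 1208) (nat_lit 89) (.e (nat_lit 73782) (nat_lit 32) (.e (nat_lit 2682) (nat_lit 168) (.e (nat_lit 204869) (nat_lit 29) (.e (nat_lit 360450) (nat_lit 0) (.e (nat_lit 3950) (nat_lit 239) .nil)))))) (.g (nat_lit 0) .nil .nil)))) (.nd (nat_lit 6) 
(.lf (nat_lit 33572) (.g (nat_lit 3747) (.e (nat_lit 1208) (nat_lit 89) (.e (nat_lit 73755) (nat_lit 8) (.e (nat_lit 557091) (nat_lit 12) (.e (nat_lit 164238) (nat_lit 187) (.e (nat_lit 1661) (nat_lit 115) (.e (nat_lit 393251) (nat_lit 18) (.e (nat_lit 164153) (nat_lit 152) .nil))))))) (.g (nat_lit 7) .nil .nil))) 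
(.lf (nat_lit 33636) (.g (nat_lit 2073) (.e (nat_lit 1209) (nat_lit 89) (.e (nat_lit 73746) (nat_lit 3) (.e (nat_lit 516176) (nat_lit 14) (.e (nat_lit 466976) (nat_lit 22) (.e (nat_lit 196628) (nat_lit 9) (.e (nat_lit 1291) (nat_lit 95) (.e (nat_lit 123116) (nat_lit 221) .nil))))))) (.g (nat_lit 4) .nil .nil))))) (.nd (nat_lit 5) (.nd (nat_lit 6) 
(.lf (nat_lit 33556) (.g (nat_lit 2554) (.e (nat_lit 1208) (nat_lit 89) (.e (nat_lit 73755) (nat_lit 8) (.e (nat_lit 557067) (nat_lit 9) (.e (nat_lit 3096) (nat_lit 192) (.e (nat_lit 491571) (nat_lit 13) .nil))))) .nil)) 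
(.lf (nat_lit 33620) (.g (nat_lit 4330) (.e (nat_lit 1209) (nat_lit 89) (.e (nat_lit 73729) (nat_lit 0) (.e (nat_lit 7454) (nat_lit 396) (.e (nat_lit 1221) (nat_lit 90) (.e (nat_lit 81956) (nat_lit 23) (.e (nat_lit 98334) (nat_lit 18) (.e (nat_lit 164147) (nat_lit 152) .nil))))))) (.g (nat_lit 6) .nil .nil)))) (.nd (nat_lit 6) 
(.lf (nat_lit 33588) (.g (nat_lit 2331) (.e (nat_lit 1208) (nat_lit 89) (.e (nat_lit 73755) (nat_lit 8) (.e (nat_lit 557104) (nat_lit 14) (.e (nat_lit 180229) (nat_lit 0) (.e (nat_lit 5547) (nat_lit 306) .nil))))) .nil)) 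
(.lf (nat_lit 33652) (.g (nat_lit 3509) (.e (nat_lit 1209) (nat_lit 89) (.e (nat_lit 73747) (nat_lit 3) (.e (nat_lit 516165) (nat_lit 12) (.e (nat_lit 450579) (nat_lit 5) (.e (nat_lit 532499) (nat_lit 1) (.e (nat_lit 65280) (nat_lit 221) .nil)))))) (.g (nat_lit 5) .nil .nil)))))) (.nd (nat_lit 4) (.nd (nat_lit 5) (.nd (nat_lit 6) 
(.lf (nat_lit 33548) (.g (nat_lit 2249) (.e (nat_lit 1208) (nat_lit 89) (.e (nat_lit 73754) (nat_lit 8) (.e (nat_lit 557093) (nat_lit 12) (.e (nat_lit 164239) (nat_lit 187) (.e (nat_lit 1661) (nat_lit 115) (.e (nat_lit 393252) (nat_lit 18) (.e (nat_lit 164164) (nat_lit 152) .nil))))))) (.g (nat_lit 5) .nil .nil))) 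
(.lf (nat_lit 33612) (.g (nat_lit 451) (.e (nat_lit 1208) (nat_lit 89) (.e (nat_lit 73782) (nat_lit 32) (.e (nat_lit 3089) (nat_lit 191) .nil))) .nil))) (.nd (nat_lit 6) 
(.lf (nat_lit 33580) (.g (nat_lit 2319) (.e (nat_lit 1208) (nat_lit 89) (.e (nat_lit 73755) (nat_lit 8) (.e (nat_lit 557103) (nat_lit 14) (.e (nat_lit 180228) (nat_lit 0) .nil)))) .nil)) 
(.lf (nat_lit 33644) (.g (nat_lit 5710) (.e (nat_lit 1209) (nat_lit 89) (.e (nat_lit 73747) (nat_lit 3) (.e (nat_lit 516151) (nat_lit 9) (.e (nat_lit 426211) (nat_lit 9) (.e (nat_lit 426125) (nat_lit 2) (.e (nat_lit 196686) (nat_lit 18) (.e (nat_lit 1117) (nat_lit 82) (.e (nat_lit 8418) (nat_lit 132) .nil)))))))) (.g (nat_lit 5) .nil .nil))))) (.nd (nat_lit 5) (.nd (nat_lit 6) 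
(.lf (nat_lit 33564) (.g (nat_lit 2771) (.e (nat_lit 1208) (nat_lit 89) (.e (nat_lit 73755) (nat_lit 8) (.e (nat_lit 557090) (nat_lit 12) (.e (nat_lit 164238) (nat_lit 187) (.e (nat_lit 1661) (nat_lit 115) (.e (nat_lit 393252) (nat_lit 18) (.e (nat_lit 164167) (nat_lit 152) .nil))))))) (.g (nat_lit 4) .nil .nil))) 
(.lf (nat_lit 33628) (.g (nat_lit 3426) (.e (nat_lit 1209) (nat_lit 89) (.e (nat_lit 73746) (nat_lit 3) (.e (nat_lit 516165) (nat_lit 12) (.e (nat_lit 450579) (nat_lit 5) (.e (nat_lit 532503) (nat_lit 1) (.e (nat_lit 65280) (nat_lit 221) .nil)))))) (.g (nat_lit 5) .nil .nil)))) (.nd (nat_lit 6) 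
(.lf (nat_lit 33596) (.g (nat_lit 1687) (.e (nat_lit 1208) (nat_lit 89) (.e (nat_lit 73781) (nat_lit 32) (.e (nat_lit 2856) (nat_lit 184) (.e (nat_lit 426542) (nat_lit 29) .nil)))) .nil)) 
(.lf (nat_lit 33660) (.g (nat_lit 4171) (.e (nat_lit 1209) (nat_lit 89) (.e (nat_lit 73747) (nat_lit 3) (.e (nat_lit 516166) (nat_lit 12) (.e (nat_lit 450588) (nat_lit 10) (.e (nat_lit 573473) (nat_lit 12) (.e (nat_lit 57348) (nat_lit 0) (.e (nat_lit 7236) (nat_lit 382) .nil))))))) (.g (nat_lit 4) .nil .nil)))))))) 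
(.nd (nat_lit 2) (.nd (nat_lit 3) (.nd (nat_lit 4) (.nd (nat_lit 5) (.nd (nat_lit 6) 
(.lf (nat_lit 33538) (.g (nat_lit 2966) (.e (nat_lit 1208) (nat_lit 89) (.e (nat_lit 73754) (nat_lit 8) (.e (nat_lit 557072) (nat_lit 9) (.e (nat_lit 3098) (nat_lit 192) (.e (nat_lit 491571) (nat_lit 13) (.e (nat_lit 393252) (nat_lit 18) (.e (nat_lit 164159) (nat_lit 152) .nil))))))) (.g (nat_lit 5) .nil .nil))) 
(.lf (nat_lit 33602) (.g (nat_lit 2689) (.e (nat_lit 1208) (nat_lit 89) (.e (nat_lit 73781) (nat_lit 32) (.e (nat_lit 3090) (nat_lit 191) (.e (nat_lit 483372) (nat_lit 21) (.e (nat_lit 319516) (nat_lit 11) .nil))))) .nil))) (.nd (nat_lit 6) 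
(.lf (nat_lit 33570) (.g (nat_lit 1919) (.e (nat_lit 1208) (nat_lit 89) (.e (nat_lit 73755) (nat_lit 8) (.e (nat_lit 557091) (nat_lit 12) (.e (nat_lit 164238) (nat_lit 187) (.e (nat_lit 1660) (nat_lit 115) (.e (nat_lit 393253) (nat_lit 18) (.e (nat_lit 164153) (nat_lit 152) .nil))))))) (.g (nat_lit 4) .nil .nil))) 
(.lf (nat_lit 33634) (.g (nat_lit 1376) (.e (nat_lit 1209) (nat_lit 89) (.e (nat_lit 73746) (nat_lit 3) (.e (nat_lit 516176) (nat_lit 14) (.e (nat_lit 466976) (nat_lit 22) .nil)))) .nil)))) (.nd (nat_lit 5) (.nd (nat_lit 6) 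
(.lf (nat_lit 33554) (.g (nat_lit 1417) (.e (nat_lit 1208) (nat_lit 89) (.e (nat_lit 73754) (nat_lit 8) (.e (nat_lit 557101) (nat_lit 13) (.e (nat_lit 172061) (nat_lit 1) .nil)))) .nil)) 
(.lf (nat_lit 33618) (.g (nat_lit 2564) (.e (nat_lit 1209) (nat_lit 89) (.e (nat_lit 73729) (nat_lit 0) (.e (nat_lit 7454) (nat_lit 396) (.e (nat_lit 1219) (nat_lit 90) (.e (nat_lit 81954) (nat_lit 23) (.e (nat_lit 98334) (nat_lit 18) (.e (nat_lit 164147) (nat_lit 152) .nil))))))) (.g (nat_lit 5) .nil .nil)))) (.nd (nat_lit 6) 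
(.lf (nat_lit 33586) (.g (nat_lit 1599) (.e (nat_lit 1208) (nat_lit 89) (.e (nat_lit 73755) (nat_lit 8) (.e (nat_lit 557104) (nat_lit 14) (.e (nat_lit 180229) (nat_lit 0) .nil)))) .nil)) 
(.lf (nat_lit 33650) (.g (nat_lit 1832) (.e (nat_lit 1209) (nat_lit 89) (.e (nat_lit 73747) (nat_lit 3) (.e (nat_lit 516164) (nat_lit 11) (.e (nat_lit 442427) (nat_lit 23) (.e (nat_lit 204821) (nat_lit 17) .nil))))) .nil))))) (.nd (nat_lit 4) (.nd (nat_lit 5) (.nd (nat_lit 6) 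
(.lf (nat_lit 33546) (.g (nat_lit 1222) (.e (nat_lit 1208) (nat_lit 89) (.e (nat_lit 73754) (nat_lit 8) (.e (nat_lit 557093) (nat_lit 12) (.e (nat_lit 164239) (nat_lit 187) .nil)))) .nil)) 
(.lf (nat_lit 33610) (.g (nat_lit 440) (.e (nat_lit 1208) (nat_lit 89) (.e (nat_lit 73782) (nat_lit 32) (.e (nat_lit 2857) (nat_lit 184) .nil))) .nil))) (.nd (nat_lit 6) 
(.lf (nat_lit 33578) (.g (nat_lit 2133) (.e (nat_lit 1208) (nat_lit 89) (.e (nat_lit 73755) (nat_lit 8) (.e (nat_lit 557098) (nat_lit 13) (.e (nat_lit 172061) (nat_lit 1) .nil)))) .nil)) 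
(.lf (nat_lit 33642) (.g (nat_lit 731) (.e (nat_lit 1209) (nat_lit 89) (.e (nat_lit 73747) (nat_lit 3) (.e (nat_lit 516150) (nat_lit 9) .nil))) .nil)))) (.nd (nat_lit 5) (.nd (nat_lit 6) 
(.lf (nat_lit 33562) (.g (nat_lit 2563) (.e (nat_lit 1208) (nat_lit 89) (.e (nat_lit 73755) (nat_lit 8) (.e (nat_lit 557090) (nat_lit 12) (.e (nat_lit 164238) (nat_lit 187) (.e (nat_lit 1661) (nat_lit 115) (.e (nat_lit 393251) (nat_lit 18) (.e (nat_lit 164148) (nat_lit 152) .nil))))))) (.g (nat_lit 4) .nil .nil))) 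
(.lf (nat_lit 33626) (.g (nat_lit 3322) (.e (nat_lit 1209) (nat_lit 89) (.e (nat_lit 73746) (nat_lit 3) (.e (nat_lit 516165) (nat_lit 12) (.e (nat_lit 450579) (nat_lit 5) (.e (nat_lit 532499) (nat_lit 1) (.e (nat_lit 65280) (nat_lit 221) .nil)))))) (.g (nat_lit 5) .nil .nil)))) (.nd (nat_lit 6) 
(.lf (nat_lit 33594) (.g (nat_lit 2687) (.e (nat_lit 1208) (nat_lit 89) (.e (nat_lit 73775) (nat_lit 26) (.e (nat_lit 778362) (nat_lit 9) (.e (nat_lit 297) (nat_lit 22) (.e (nat_lit 344133) (nat_lit 26) .nil))))) .nil)) 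
(.lf (nat_lit 33658) (.g (nat_lit 1427) (.e (nat_lit 1209) (nat_lit 89) (.e (nat_lit 73747) (nat_lit 3) (.e (nat_lit 516166) (nat_lit 12) (.e (nat_lit 450588) (nat_lit 10) .nil)))) .nil)))))) (.nd (nat_lit 3) (.nd (nat_lit 4) (.nd (nat_lit 5) (.nd (nat_lit 6) 
(.lf (nat_lit 33542) (.g (nat_lit 2790) (.e (nat_lit 1208) (nat_lit 89) (.e (nat_lit 73754) (nat_lit 8) (.e (nat_lit 557093) (nat_lit 12) (.e (nat_lit 164238) (nat_lit 187) (.e (nat_lit 1661) (nat_lit 115) (.e (nat_lit 393251) (nat_lit 18) (.e (nat_lit 164160) (nat_lit 152) .nil))))))) (.g (nat_lit 5) .nil .nil))) 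
(.lf (nat_lit 33606) (.g (nat_lit 1956) (.e (nat_lit 1208) (nat_lit 89) (.e (nat_lit 73782) (nat_lit 32) (.e (nat_lit 2682) (nat_lit 168) (.e (nat_lit 204869) (nat_lit 29) (.e (nat_lit 368384) (nat_lit 0) .nil))))) .nil))) (.nd (nat_lit 6) 
(.lf (nat_lit 33574) (.g (nat_lit 3585) (.e (nat_lit 1208) (nat_lit 89) (.e (nat_lit 73755) (nat_lit 8) (.e (nat_lit 557091) (nat_lit 12) (.e (nat_lit 164238) (nat_lit 187) (.e (nat_lit 1661) (nat_lit 115) (.e (nat_lit 393252) (nat_lit 18) (.e (nat_lit 164159) (nat_lit 152) .nil))))))) (.g (nat_lit 6) .nil .nil))) 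
(.lf (nat_lit 33638) (.g (nat_lit 1334) (.e (nat_lit 1209) (nat_lit 89) (.e (nat_lit 73746) (nat_lit 3) (.e (nat_lit 516176) (nat_lit 14) (.e (nat_lit 466981) (nat_lit 23) .nil)))) .nil)))) (.nd (nat_lit 5) (.nd (nat_lit 6) 
(.lf (nat_lit 33558) (.g (nat_lit 1367) (.e (nat_lit 1208) (nat_lit 89) (.e (nat_lit 73755) (nat_lit 8) (.e (nat_lit 557068) (nat_lit 9) (.e (nat_lit 3104) (nat_lit 192) .nil)))) .nil)) 
(.lf (nat_lit 33622) (.g (nat_lit 1451) (.e (nat_lit 1209) (nat_lit 89) (.e (nat_lit 73746) (nat_lit 3) (.e (nat_lit 516150) (nat_lit 9) (.e (nat_lit 426294) (nat_lit 11) .nil)))) .nil))) (.nd (nat_lit 6) 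
(.lf (nat_lit 33590) (.g (nat_lit 1690) (.e (nat_lit 1208) (nat_lit 89) (.e (nat_lit 73755) (nat_lit 8) (.e (nat_lit 557104) (nat_lit 14) (.e (nat_lit 180261) (nat_lit 20) .nil)))) .nil)) 
(.lf (nat_lit 33654) (.g (nat_lit 3613) (.e (nat_lit 1209) (nat_lit 89) (.e (nat_lit 73747) (nat_lit 3) (.e (nat_lit 516165) (nat_lit 12) (.e (nat_lit 450579) (nat_lit 5) (.e (nat_lit 532503) (nat_lit 1) (.e (nat_lit 65280) (nat_lit 221) .nil)))))) (.g (nat_lit 5) .nil .nil)))))) (.nd (nat_lit 4) (.nd (nat_lit 5) (.nd (nat_lit 6) 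
(.lf (nat_lit 33550) (.g (nat_lit 1600) (.e (nat_lit 1208) (nat_lit 89) (.e (nat_lit 73754) (nat_lit 8) (.e (nat_lit 557094) (nat_lit 12) (.e (nat_lit 164238) (nat_lit 187) (.e (nat_lit 1660) (nat_lit 115) .nil))))) .nil)) 
(.lf (nat_lit 33614) (.g (nat_lit 1732) (.e (nat_lit 1208) (nat_lit 89) (.e (nat_lit 73782) (nat_lit 32) (.e (nat_lit 3090) (nat_lit 191) (.e (nat_lit 483396) (nat_lit 24) (.e (nat_lit 344093) (nat_lit 18) .nil))))) .nil))) (.nd (nat_lit 6) 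
(.lf (nat_lit 33582) (.g (nat_lit 2693) (.e (nat_lit 1208) (nat_lit 89) (.e (nat_lit 73755) (nat_lit 8) (.e (nat_lit 557103) (nat_lit 14) (.e (nat_lit 180229) (nat_lit 0) (.e (nat_lit 5548) (nat_lit 306) (.e (nat_lit 2640) (nat_lit 165) (.e (nat_lit 180227) (nat_lit 0) (.e (nat_lit 6262) (nat_lit 337) .nil)))))))) (.g (nat_lit 4) .nil .nil))) 
(.lf (nat_lit 33646) (.g (nat_lit 4274) (.e (nat_lit 1209) (nat_lit 89) (.e (nat_lit 73747) (nat_lit 3) (.e (nat_lit 516151) (nat_lit 9) (.e (nat_lit 426211) (nat_lit 9) (.e (nat_lit 426125) (nat_lit 2) (.e (nat_lit 204544) (nat_lit 19) (.e (nat_lit 57585) (nat_lit 61) (.e (nat_lit 5152) (nat_lit 292) .nil)))))))) (.g (nat_lit 4) .nil .nil))))) (.nd (nat_lit 5) (.nd (nat_lit 6) 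
(.lf (nat_lit 33566) (.g (nat_lit 1712) (.e (nat_lit 1208) (nat_lit 89) (.e (nat_lit 73755) (nat_lit 8) (.e (nat_lit 557091) (nat_lit 12) (.e (nat_lit 164238) (nat_lit 187) (.e (nat_lit 1659) (nat_lit 115) .nil))))) .nil)) 
(.lf (nat_lit 33630) (.g (nat_lit 1430) (.e (nat_lit 1209) (nat_lit 89) (.e (nat_lit 73746) (nat_lit 3) (.e (nat_lit 516174) (nat_lit 14) (.e (nat_lit 466947) (nat_lit 0) .nil)))) .nil))) (.nd (nat_lit 6) 
(.lf (nat_lit 33598) (.g (nat_lit 1614) (.e (nat_lit 1208) (nat_lit 89) (.e (nat_lit 73781) (nat_lit 32) (.e (nat_lit 2856) (nat_lit 184) (.e (nat_lit 426546) (nat_lit 30) .nil)))) .nil)) 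
(.lf (nat_lit 33662) (.g (nat_lit 3732) (.e (nat_lit 1209) (nat_lit 89) (.e (nat_lit 73747) (nat_lit 3) (.e (nat_lit 516166) (nat_lit 12) (.e (nat_lit 450588) (nat_lit 10) (.e (nat_lit 573475) (nat_lit 12) (.e (nat_lit 57347) (nat_lit 0) (.e (nat_lit 7236) (nat_lit 382) .nil))))))) (.g (nat_lit 4) .nil .nil))))))))) 
(.nd (nat_lit 1) (.nd (nat_lit 2) (.nd (nat_lit 3) (.nd (nat_lit 4) (.nd (nat_lit 5) 
(.nd (nat_lit 6) 
(.lf (nat_lit 33537) (.g (nat_lit 1769) (.e (nat_lit 1208) (nat_lit 89) (.e (nat_lit 73753) (nat_lit 8) (.e (nat_lit 557103) (nat_lit 14) (.e (nat_lit 180244) (nat_lit 5) .nil)))) .nil)) 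
(.lf (nat_lit 33601) (.g (nat_lit 459) (.e (nat_lit 1208) (nat_lit 89) (.e (nat_lit 73781) (nat_lit 32) (.e (nat_lit 3090) (nat_lit 191) .nil))) .nil))) (.nd (nat_lit 6) 
(.lf (nat_lit 33569) (.g (nat_lit 1871) (.e (nat_lit 1208) (nat_lit 89) (.e (nat_lit 73755) (nat_lit 8) (.e (nat_lit 557091) (nat_lit 12) (.e (nat_lit 164238) (nat_lit 187) (.e (nat_lit 1660) (nat_lit 115) (.e (nat_lit 393253) (nat_lit 18) (.e (nat_lit 164152) (nat_lit 152) .nil))))))) (.g (nat_lit 4) .nil .nil))) 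
(.lf (nat_lit 33633) (.g (nat_lit 1322) (.e (nat_lit 1209) (nat_lit 89) (.e (nat_lit 73746) (nat_lit 3) (.e (nat_lit 516176) (nat_lit 14) (.e (nat_lit 474880) (nat_lit 3) .nil)))) .nil)))) (.nd (nat_lit 5) (.nd (nat_lit 6) 
(.lf (nat_lit 33553) (.g (nat_lit 1690) (.e (nat_lit 1208) (nat_lit 89) (.e (nat_lit 73754) (nat_lit 8) (.e (nat_lit 557100) (nat_lit 13) (.e (nat_lit 172061) (nat_lit 1) .nil)))) .nil)) 
(.lf (nat_lit 33617) (.g (nat_lit 1769) (.e (nat_lit 1209) (nat_lit 89) (.e (nat_lit 73729) (nat_lit 0) (.e (nat_lit 7125) (nat_lit 382) (.e (nat_lit 1214) (nat_lit 89) .nil)))) .nil))) (.nd (nat_lit 6) 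
(.lf (nat_lit 33585) (.g (nat_lit 671) (.e (nat_lit 1208) (nat_lit 89) (.e (nat_lit 73755) (nat_lit 8) (.e (nat_lit 557104) (nat_lit 14) .nil))) .nil)) 
(.lf (nat_lit 33649) (.g (nat_lit 780) (.e (nat_lit 1209) (nat_lit 89) (.e (nat_lit 73747) (nat_lit 3) (.e (nat_lit 516163) (nat_lit 11) .nil))) .nil))))) (.nd (nat_lit 4) (.nd (nat_lit 5) (.nd (nat_lit 6) 
(.lf (nat_lit 33545) (.g (nat_lit 2725) (.e (nat_lit 1208) (nat_lit 89) (.e (nat_lit 73754) (nat_lit 8) (.e (nat_lit 557093) (nat_lit 12) (.e (nat_lit 164238) (nat_lit 187) (.e (nat_lit 1661) (nat_lit 115) (.e (nat_lit 393252) (nat_lit 18) (.e (nat_lit 164164) (nat_lit 152) .nil))))))) (.g (nat_lit 5) .nil .nil))) 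
(.lf (nat_lit 33609) (.g (nat_lit 1490) (.e (nat_lit 1208) (nat_lit 89) (.e (nat_lit 73782) (nat_lit 32) (.e (nat_lit 2856) (nat_lit 184) (.e (nat_lit 426546) (nat_lit 30) .nil)))) .nil))) (.nd (nat_lit 6) 
(.lf (nat_lit 33577) (.g (nat_lit 2161) (.e (nat_lit 1208) (nat_lit 89) (.e (nat_lit 73755) (nat_lit 8) (.e (nat_lit 557098) (nat_lit 13) (.e (nat_lit 172060) (nat_lit 1) .nil)))) .nil)) 
(.lf (nat_lit 33641) (.g (nat_lit 3101) (.e (nat_lit 1209) (nat_lit 89) (.e (nat_lit 73747) (nat_lit 3) (.e (nat_lit 516146) (nat_lit 9) (.e (nat_lit 426320) (nat_lit 12) (.e (nat_lit 475179) (nat_lit 24) (.e (nat_lit 516102) (nat_lit 0) (.e (nat_lit 2397) (nat_lit 157) (.e (nat_lit 7236) (nat_lit 382) .nil)))))))) (.g (nat_lit 4) .nil .nil))))) (.nd (nat_lit 5) (.nd (nat_lit 6) 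
(.lf (nat_lit 33561) (.g (nat_lit 2555) (.e (nat_lit 1208) (nat_lit 89) (.e (nat_lit 73755) (nat_lit 8) (.e (nat_lit 557090) (nat_lit 12) (.e (nat_lit 164238) (nat_lit 187) (.e (nat_lit 1661) (nat_lit 115) .nil))))) .nil)) 
(.lf (nat_lit 33625) (.g (nat_lit 2585) (.e (nat_lit 1209) (nat_lit 89) (.e (nat_lit 73746) (nat_lit 3) (.e (nat_lit 516165) (nat_lit 12) (.e (nat_lit 450579) (nat_lit 5) (.e (nat_lit 532484) (nat_lit 0) .nil))))) .nil))) (.nd (nat_lit 6) 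
(.lf (nat_lit 33593) (.g (nat_lit 2770) (.e (nat_lit 1208) (nat_lit 89) (.e (nat_lit 73775) (nat_lit 26) (.e (nat_lit 778362) (nat_lit 9) (.e (nat_lit 297) (nat_lit 22) (.e (nat_lit 344132) (nat_lit 26) .nil))))) .nil)) 
(.lf (nat_lit 33657) (.g (nat_lit 3342) (.e (nat_lit 1209) (nat_lit 89) (.e (nat_lit 73747) (nat_lit 3) (.e (nat_lit 516166) (nat_lit 12) (.e (nat_lit 450587) (nat_lit 10) (.e (nat_lit 573478) (nat_lit 12) .nil))))) .nil)))))) (.nd (nat_lit 3) (.nd (nat_lit 4) (.nd (nat_lit 5) (.nd (nat_lit 6) 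
(.lf (nat_lit 33541) (.g (nat_lit 3006) (.e (nat_lit 1208) (nat_lit 89) (.e (nat_lit 73754) (nat_lit 8) (.e (nat_lit 557091) (nat_lit 12) (.e (nat_lit 164238) (nat_lit 187) (.e (nat_lit 1661) (nat_lit 115) (.e (nat_lit 393251) (nat_lit 18) (.e (nat_lit 164160) (nat_lit 152) .nil))))))) (.g (nat_lit 4) .nil .nil))) 
(.lf (nat_lit 33605) (.g (nat_lit 4867) (.e (nat_lit 1208) (nat_lit 89) (.e (nat_lit 73782) (nat_lit 32) (.e (nat_lit 2682) (nat_lit 168) (.e (nat_lit 204869) (nat_lit 29) (.e (nat_lit 360451) (nat_lit 0) (.e (nat_lit 3950) (nat_lit 239) .nil)))))) (.g (nat_lit 6) .nil .nil)))) (.nd (nat_lit 6) 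
(.lf (nat_lit 33573) (.g (nat_lit 3927) (.e (nat_lit 1208) (nat_lit 89) (.e (nat_lit 73755) (nat_lit 8) (.e (nat_lit 557091) (nat_lit 12) (.e (nat_lit 164238) (nat_lit 187) (.e (nat_lit 1661) (nat_lit 115) (.e (nat_lit 393251) (nat_lit 18) (.e (nat_lit 164161) (nat_lit 152) .nil))))))) (.g (nat_lit 7) .nil .nil))) 
(.lf (nat_lit 33637) (.g (nat_lit 1218) (.e (nat_lit 1209) (nat_lit 89) (.e (nat_lit 73746) (nat_lit 3) (.e (nat_lit 516176) (nat_lit 14) (.e (nat_lit 466977) (nat_lit 22) .nil)))) .nil)))) (.nd (nat_lit 5) (.nd (nat_lit 6) 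
(.lf (nat_lit 33557) (.g (nat_lit 1360) (.e (nat_lit 1208) (nat_lit 89) (.e (nat_lit 73755) (nat_lit 8) (.e (nat_lit 557068) (nat_lit 9) (.e (nat_lit 3096) (nat_lit 192) .nil)))) .nil)) 
(.lf (nat_lit 33621) (.g (nat_lit 1743) (.e (nat_lit 1209) (nat_lit 89) (.e (nat_lit 73746) (nat_lit 3) (.e (nat_lit 516146) (nat_lit 9) (.e (nat_lit 426294) (nat_lit 11) .nil)))) .nil))) (.nd (nat_lit 6) 
(.lf (nat_lit 33589) (.g (nat_lit 2473) (.e (nat_lit 1208) (nat_lit 89) (.e (nat_lit 73755) (nat_lit 8) (.e (nat_lit 557104) (nat_lit 14) (.e (nat_lit 180229) (nat_lit 0) (.e (nat_lit 5548) (nat_lit 306) (.e (nat_lit 2640) (nat_lit 165) (.e (nat_lit 180227) (nat_lit 0) (.e (nat_lit 6250) (nat_lit 337) .nil)))))))) (.g (nat_lit 4) .nil .nil))) 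
(.lf (nat_lit 33653) (.g (nat_lit 4253) (.e (nat_lit 1209) (nat_lit 89) (.e (nat_lit 73747) (nat_lit 3) (.e (nat_lit 516165) (nat_lit 12) (.e (nat_lit 450579) (nat_lit 5) (.e (nat_lit 532501) (nat_lit 1) (.e (nat_lit 65280) (nat_lit 221) .nil)))))) (.g (nat_lit 5) .nil .nil)))))) (.nd (nat_lit 4) (.nd (nat_lit 5) (.nd (nat_lit 6) 
(.lf (nat_lit 33549) (.g (nat_lit 1602) (.e (nat_lit 1208) (nat_lit 89) (.e (nat_lit 73754) (nat_lit 8) (.e (nat_lit 557093) (nat_lit 12) (.e (nat_lit 164239) (nat_lit 187) (.e (nat_lit 1661) (nat_lit 115) (.e (nat_lit 393252) (nat_lit 18) (.e (nat_lit 164166) (nat_lit 152) .nil))))))) (.g (nat_lit 4) .nil .nil))) 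
(.lf (nat_lit 33613) (.g (nat_lit 449) (.e (nat_lit 1208) (nat_lit 89) (.e (nat_lit 73782) (nat_lit 32) (.e (nat_lit 3090) (nat_lit 191) .nil))) .nil))) (.nd (nat_lit 6) 
(.lf (nat_lit 33581) (.g (nat_lit 1847) (.e (nat_lit 1208) (nat_lit 89) (.e (nat_lit 73755) (nat_lit 8) (.e (nat_lit 557103) (nat_lit 14) (.e (nat_lit 180229) (nat_lit 0) .nil)))) .nil)) 
(.lf (nat_lit 33645) (.g (nat_lit 5738) (.e (nat_lit 1209) (nat_lit 89) (.e (nat_lit 73747) (nat_lit 3) (.e (nat_lit 516151) (nat_lit 9) (.e (nat_lit 426211) (nat_lit 9) (.e (nat_lit 426125) (nat_lit 2) (.e (nat_lit 196686) (nat_lit 18) (.e (nat_lit 1118) (nat_lit 82) (.e (nat_lit 8418) (nat_lit 132) .nil)))))))) (.g (nat_lit 5) .nil .nil))))) (.nd (nat_lit 5) (.nd (nat_lit 6) 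
(.lf (nat_lit 33565) (.g (nat_lit 1121) (.e (nat_lit 1208) (nat_lit 89) (.e (nat_lit 73755) (nat_lit 8) (.e (nat_lit 557091) (nat_lit 12) (.e (nat_lit 164238) (nat_lit 187) .nil)))) .nil)) 
(.lf (nat_lit 33629) (.g (nat_lit 4023) (.e (nat_lit 1209) (nat_lit 89) (.e (nat_lit 73746) (nat_lit 3) (.e (nat_lit 516165) (nat_lit 12) (.e (nat_lit 450579) (nat_lit 5) (.e (nat_lit 532504) (nat_lit 1) (.e (nat_lit 65280) (nat_lit 221) .nil)))))) (.g (nat_lit 5) .nil .nil)))) (.nd (nat_lit 6) 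
(.lf (nat_lit 33597) (.g (nat_lit 1559) (.e (nat_lit 1208) (nat_lit 89) (.e (nat_lit 73781) (nat_lit 32) (.e (nat_lit 2856) (nat_lit 184) (.e (nat_lit 426544) (nat_lit 30) .nil)))) .nil)) 
(.lf (nat_lit 33661) (.g (nat_lit 3409) (.e (nat_lit 1209) (nat_lit 89) (.e (nat_lit 73747) (nat_lit 3) (.e (nat_lit 516166) (nat_lit 12) (.e (nat_lit 450588) (nat_lit 10) (.e (nat_lit 573475) (nat_lit 12) .nil))))) .nil))))))) (.nd (nat_lit 2) (.nd (nat_lit 3) (.nd (nat_lit 4) (.nd (nat_lit 5) (.nd (nat_lit 6) 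
(.lf (nat_lit 33539) (.g (nat_lit 2186) (.e (nat_lit 1208) (nat_lit 89) (.e (nat_lit 73754) (nat_lit 8) (.e (nat_lit 557091) (nat_lit 12) (.e (nat_lit 164238) (nat_lit 187) .nil)))) .nil)) 
(.lf (nat_lit 33603) (.g (nat_lit 532) (.e (nat_lit 1208) (nat_lit 89) (.e (nat_lit 73782) (nat_lit 32) (.e (nat_lit 2663) (nat_lit 167) .nil))) .nil))) (.nd (nat_lit 6) 
(.lf (nat_lit 33571) (.g (nat_lit 1807) (.e (nat_lit 1208) (nat_lit 89) (.e (nat_lit 73755) (nat_lit 8) (.e (nat_lit 557091) (nat_lit 12) (.e (nat_lit 164238) (nat_lit 187) (.e (nat_lit 1661) (nat_lit 115) .nil))))) .nil)) 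
(.lf (nat_lit 33635) (.g (nat_lit 1879) (.e (nat_lit 1209) (nat_lit 89) (.e (nat_lit 73746) (nat_lit 3) (.e (nat_lit 516176) (nat_lit 14) (.e (nat_lit 466976) (nat_lit 22) (.e (nat_lit 196628) (nat_lit 9) .nil))))) .nil)))) (.nd (nat_lit 5) (.nd (nat_lit 6) 
(.lf (nat_lit 33555) (.g (nat_lit 2173) (.e (nat_lit 1208) (nat_lit 89) (.e (nat_lit 73755) (nat_lit 8) (.e (nat_lit 557065) (nat_lit 9) (.e (nat_lit 3098) (nat_lit 192) (.e (nat_lit 491571) (nat_lit 13) .nil))))) .nil)) 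
(.lf (nat_lit 33619) (.g (nat_lit 4264) (.e (nat_lit 1209) (nat_lit 89) (.e (nat_lit 73729) (nat_lit 0) (.e (nat_lit 7454) (nat_lit 396) (.e (nat_lit 1220) (nat_lit 90) (.e (nat_lit 81956) (nat_lit 23) (.e (nat_lit 98334) (nat_lit 18) (.e (nat_lit 164147) (nat_lit 152) .nil))))))) (.g (nat_lit 6) .nil .nil)))) (.nd (nat_lit 6) 
(.lf (nat_lit 33587) (.g (nat_lit 2595) (.e (nat_lit 1208) (nat_lit 89) (.e (nat_lit 73755) (nat_lit 8) (.e (nat_lit 557104) (nat_lit 14) (.e (nat_lit 180229) (nat_lit 0) (.e (nat_lit 5546) (nat_lit 306) (.e (nat_lit 2640) (nat_lit 165) (.e (nat_lit 180227) (nat_lit 0) (.e (nat_lit 6262) (nat_lit 337) .nil)))))))) (.g (nat_lit 4) .nil .nil))) 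
(.lf (nat_lit 33651) (.g (nat_lit 2785) (.e (nat_lit 1209) (nat_lit 89) (.e (nat_lit 73747) (nat_lit 3) (.e (nat_lit 516165) (nat_lit 12) (.e (nat_lit 450579) (nat_lit 5) (.e (nat_lit 532484) (nat_lit 0) .nil))))) .nil))))) (.nd (nat_lit 4) (.nd (nat_lit 5) (.nd (nat_lit 6) 
(.lf (nat_lit 33547) (.g (nat_lit 3268) (.e (nat_lit 1208) (nat_lit 89) (.e (nat_lit 73754) (nat_lit 8) (.e (nat_lit 557093) (nat_lit 12) (.e (nat_lit 164239) (nat_lit 187) (.e (nat_lit 1661) (nat_lit 115) (.e (nat_lit 393251) (nat_lit 18) (.e (nat_lit 164161) (nat_lit 152) .nil))))))) (.g (nat_lit 6) .nil .nil))) 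
(.lf (nat_lit 33611) (.g (nat_lit 2211) (.e (nat_lit 1208) (nat_lit 89) (.e (nat_lit 73782) (nat_lit 32) (.e (nat_lit 3088) (nat_lit 191) (.e (nat_lit 483413) (nat_lit 27) (.e (nat_lit 401420) (nat_lit 1) .nil))))) .nil))) (.nd (nat_lit 6) 
(.lf (nat_lit 33579) (.g (nat_lit 2524) (.e (nat_lit 1208) (nat_lit 89) (.e (nat_lit 73755) (nat_lit 8) (.e (nat_lit 557098) (nat_lit 13) (.e (nat_lit 172061) (nat_lit 1) (.e (nat_lit 164327) (nat_lit 230) .nil))))) .nil)) 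
(.lf (nat_lit 33643) (.g (nat_lit 3935) (.e (nat_lit 1209) (nat_lit 89) (.e (nat_lit 73747) (nat_lit 3) (.e (nat_lit 516151) (nat_lit 9) (.e (nat_lit 426211) (nat_lit 9) (.e (nat_lit 426125) (nat_lit 2) .nil))))) .nil)))) (.nd (nat_lit 5) (.nd (nat_lit 6) 
(.lf (nat_lit 33563) (.g (nat_lit 2826) (.e (nat_lit 1208) (nat_lit 89) (.e (nat_lit 73755) (nat_lit 8) (.e (nat_lit 557090) (nat_lit 12) (.e (nat_lit 164238) (nat_lit 187) (.e (nat_lit 1661) (nat_lit 115) (.e (nat_lit 393252) (nat_lit 18) (.e (nat_lit 164165) (nat_lit 152) .nil))))))) (.g (nat_lit 4) .nil .nil))) 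
(.lf (nat_lit 33627) (.g (nat_lit 4025) (.e (nat_lit 1209) (nat_lit 89) (.e (nat_lit 73746) (nat_lit 3) (.e (nat_lit 516165) (nat_lit 12) (.e (nat_lit 450579) (nat_lit 5) (.e (nat_lit 532501) (nat_lit 1) (.e (nat_lit 65280) (nat_lit 221) .nil)))))) (.g (nat_lit 5) .nil .nil)))) (.nd (nat_lit 6) 
(.lf (nat_lit 33595) (.g (nat_lit 1896) (.e (nat_lit 1208) (nat_lit 89) (.e (nat_lit 73781) (nat_lit 32) (.e (nat_lit 2682) (nat_lit 168) (.e (nat_lit 204869) (nat_lit 29) (.e (nat_lit 368384) (nat_lit 0) .nil))))) .nil)) 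
(.lf (nat_lit 33659) (.g (nat_lit 3577) (.e (nat_lit 1209) (nat_lit 89) (.e (nat_lit 73747) (nat_lit 3) (.e (nat_lit 516166) (nat_lit 12) (.e (nat_lit 450588) (nat_lit 10) (.e (nat_lit 573473) (nat_lit 12) .nil))))) .nil)))))) (.nd (nat_lit 3) (.nd (nat_lit 4) (.nd (nat_lit 5) (.nd (nat_lit 6) 
(.lf (nat_lit 33543) (.g (nat_lit 3501) (.e (nat_lit 1208) (nat_lit 89) (.e (nat_lit 73754) (nat_lit 8) (.e (nat_lit 557093) (nat_lit 12) (.e (nat_lit 164238) (nat_lit 187) (.e (nat_lit 1661) (nat_lit 115) (.e (nat_lit 393251) (nat_lit 18) (.e (nat_lit 164161) (nat_lit 152) .nil))))))) (.g (nat_lit 6) .nil .nil))) 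
(.lf (nat_lit 33607) (.g (nat_lit 442) (.e (nat_lit 1208) (nat_lit 89) (.e (nat_lit 73782) (nat_lit 32) (.e (nat_lit 2856) (nat_lit 184) .nil))) .nil))) (.nd (nat_lit 6) 
(.lf (nat_lit 33575) (.g (nat_lit 4036) (.e (nat_lit 1208) (nat_lit 89) (.e (nat_lit 73755) (nat_lit 8) (.e (nat_lit 557091) (nat_lit 12) (.e (nat_lit 164238) (nat_lit 187) (.e (nat_lit 1661) (nat_lit 115) (.e (nat_lit 393252) (nat_lit 18) (.e (nat_lit 164161) (nat_lit 152) .nil))))))) (.g (nat_lit 7) .nil .nil))) 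
(.lf (nat_lit 33639) (.g (nat_lit 2252) (.e (nat_lit 1209) (nat_lit 89) (.e (nat_lit 73746) (nat_lit 3) (.e (nat_lit 516176) (nat_lit 14) (.e (nat_lit 466981) (nat_lit 23) (.e (nat_lit 204814) (nat_lit 17) .nil))))) .nil)))) (.nd (nat_lit 5) (.nd (nat_lit 6) 
(.lf (nat_lit 33559) (.g (nat_lit 1424) (.e (nat_lit 1208) (nat_lit 89) (.e (nat_lit 73755) (nat_lit 8) (.e (nat_lit 557089) (nat_lit 12) (.e (nat_lit 171776) (nat_lit 194) .nil)))) .nil)) 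
(.lf (nat_lit 33623) (.g (nat_lit 2244) (.e (nat_lit 1209) (nat_lit 89) (.e (nat_lit 73746) (nat_lit 3) (.e (nat_lit 516150) (nat_lit 9) (.e (nat_lit 426320) (nat_lit 12) (.e (nat_lit 475179) (nat_lit 24) .nil))))) .nil))) (.nd (nat_lit 6) 
(.lf (nat_lit 33591) (.g (nat_lit 2402) (.e (nat_lit 1208) (nat_lit 89) (.e (nat_lit 73774) (nat_lit 26) (.e (nat_lit 778325) (nat_lit 6) (.e (nat_lit 81956) (nat_lit 23) (.e (nat_lit 98334) (nat_lit 18) (.e (nat_lit 164159) (nat_lit 152) .nil)))))) (.g (nat_lit 0) .nil .nil))) 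
(.lf (nat_lit 33655) (.g (nat_lit 4218) (.e (nat_lit 1209) (nat_lit 89) (.e (nat_lit 73747) (nat_lit 3) (.e (nat_lit 516165) (nat_lit 12) (.e (nat_lit 450579) (nat_lit 5) (.e (nat_lit 532504) (nat_lit 1) (.e (nat_lit 65280) (nat_lit 221) .nil)))))) (.g (nat_lit 5) .nil .nil)))))) (.nd (nat_lit 4) (.nd (nat_lit 5) (.nd (nat_lit 6) 
(.lf (nat_lit 33551) (.g (nat_lit 3366) (.e (nat_lit 1208) (nat_lit 89) (.e (nat_lit 73754) (nat_lit 8) (.e (nat_lit 557094) (nat_lit 12) (.e (nat_lit 164238) (nat_lit 187) (.e (nat_lit 1661) (nat_lit 115) (.e (nat_lit 393251) (nat_lit 18) (.e (nat_lit 164153) (nat_lit 152) .nil))))))) (.g (nat_lit 6) .nil .nil))) 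
(.lf (nat_lit 33615) (.g (nat_lit 92) (.e (nat_lit 1208) (nat_lit 89) (.e (nat_lit 73791) (nat_lit 45) (.e (nat_lit 1343) (nat_lit 101) .nil))) .nil))) (.nd (nat_lit 6) 
(.lf (nat_lit 33583) (.g (nat_lit 1544) (.e (nat_lit 1208) (nat_lit 89) (.e (nat_lit 73755) (nat_lit 8) (.e (nat_lit 557103) (nat_lit 14) (.e (nat_lit 180244) (nat_lit 5) .nil)))) .nil)) 
(.lf (nat_lit 33647) (.g (nat_lit 4511) (.e (nat_lit 1209) (nat_lit 89) (.e (nat_lit 73747) (nat_lit 3) (.e (nat_lit 516151) (nat_lit 9) (.e (nat_lit 426211) (nat_lit 9) (.e (nat_lit 426140) (nat_lit 3) (.e (nat_lit 204821) (nat_lit 17) (.e (nat_lit 991) (nat_lit 81) (.e (nat_lit 4500) (nat_lit 263) .nil)))))))) (.g (nat_lit 4) .nil .nil))))) (.nd (nat_lit 5) (.nd (nat_lit 6) 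
(.lf (nat_lit 33567) (.g (nat_lit 1799) (.e (nat_lit 1208) (nat_lit 89) (.e (nat_lit 73755) (nat_lit 8) (.e (nat_lit 557091) (nat_lit 12) (.e (nat_lit 164238) (nat_lit 187) (.e (nat_lit 1660) (nat_lit 115) .nil))))) .nil)) 
(.lf (nat_lit 33631) (.g (nat_lit 1390) (.e (nat_lit 1209) (nat_lit 89) (.e (nat_lit 73746) (nat_lit 3) (.e (nat_lit 516174) (nat_lit 14) (.e (nat_lit 474880) (nat_lit 3) .nil)))) .nil))) (.nd (nat_lit 6) 
(.lf (nat_lit 33599) (.g (nat_lit 2241) (.e (nat_lit 1208) (nat_lit 89) (.e (nat_lit 73781) (nat_lit 32) (.e (nat_lit 3088) (nat_lit 191) (.e (nat_lit 483413) (nat_lit 27) (.e (nat_lit 401420) (nat_lit 1) .nil))))) .nil)) 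
(.lf (nat_lit 33663) (.g (nat_lit 3631) (.e (nat_lit 1209) (nat_lit 89) (.e (nat_lit 73747) (nat_lit 3) (.e (nat_lit 516166) (nat_lit 12) (.e (nat_lit 450588) (nat_lit 10) (.e (nat_lit 573475) (nat_lit 12) (.e (nat_lit 57348) (nat_lit 0) (.e (nat_lit 7236) (nat_lit 382) .nil))))))) (.g (nat_lit 4) .nil .nil))))))))))

noncomputable def tv470 : DT := (.nd (nat_lit 0) (.nd (nat_lit 1) (.nd (nat_lit 2) (.nd (nat_lit 3) (.nd (nat_lit 4) (.nd (nat_lit 5) (.nd (nat_lit 6) 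
(.lf (nat_lit 33664) (.g (nat_lit 555) (.e (nat_lit 1209) (nat_lit 89) (.e (nat_lit 73747) (nat_lit 3) (.e (nat_lit 516174) (nat_lit 14) .nil))) .nil)) 
(.lf (nat_lit 33728) (.g (nat_lit 3968) (.e (nat_lit 1209) (nat_lit 89) (.e (nat_lit 73753) (nat_lit 8) (.e (nat_lit 557098) (nat_lit 13) (.e (nat_lit 172133) (nat_lit 15) (.e (nat_lit 2059) (nat_lit 142) (.e (nat_lit 704595) (nat_lit 5) (.e (nat_lit 180229) (nat_lit 0) (.e (nat_lit 6306) (nat_lit 337) .nil)))))))) (.g (nat_lit 5) .nil .nil)))) (.nd (nat_lit 6) 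
(.lf (nat_lit 33696) (.g (nat_lit 2971) (.e (nat_lit 1209) (nat_lit 89) (.e (nat_lit 73753) (nat_lit 8) (.e (nat_lit 557093) (nat_lit 12) (.e (nat_lit 164238) (nat_lit 187) (.e (nat_lit 1428) (nat_lit 108) (.e (nat_lit 336369) (nat_lit 27) (.e (nat_lit 426109) (nat_lit 1) (.e (nat_lit 164163) (nat_lit 152) .nil)))))))) (.g (nat_lit 5) .nil .nil))) 
(.lf (nat_lit 33760) (.g (nat_lit 2490) (.e (nat_lit 1209) (nat_lit 89) (.e (nat_lit 73753) (nat_lit 8) (.e (nat_lit 557103) (nat_lit 14) (.e (nat_lit 180244) (nat_lit 5) (.e (nat_lit 532579) (nat_lit 26) (.e (nat_lit 426098) (nat_lit 1) (.e (nat_lit 171776) (nat_lit 122) .nil))))))) (.g (nat_lit 4) .nil .nil))))) (.nd (nat_lit 5) (.nd (nat_lit 6) 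
(.lf (nat_lit 33680) (.g (nat_lit 3733) (.e (nat_lit 1209) (nat_lit 89) (.e (nat_lit 73747) (nat_lit 3) (.e (nat_lit 516176) (nat_lit 14) (.e (nat_lit 466981) (nat_lit 23) (.e (nat_lit 204830) (nat_lit 18) (.e (nat_lit 65280) (nat_lit 221) .nil)))))) (.g (nat_lit 5) .nil .nil))) 
(.lf (nat_lit 33744) (.g (nat_lit 1756) (.e (nat_lit 1209) (nat_lit 89) (.e (nat_lit 73753) (nat_lit 8) (.e (nat_lit 557100) (nat_lit 13) (.e (nat_lit 172067) (nat_lit 3) .nil)))) .nil))) (.nd (nat_lit 6) 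
(.lf (nat_lit 33712) (.g (nat_lit 2011) (.e (nat_lit 1209) (nat_lit 89) (.e (nat_lit 73753) (nat_lit 8) (.e (nat_lit 557094) (nat_lit 12) (.e (nat_lit 164238) (nat_lit 187) (.e (nat_lit 1661) (nat_lit 115) (.e (nat_lit 393252) (nat_lit 18) (.e (nat_lit 164147) (nat_lit 152) .nil))))))) (.g (nat_lit 4) .nil .nil))) 
(.lf (nat_lit 33776) (.g (nat_lit 2964) (.e (nat_lit 1209) (nat_lit 89) (.e (nat_lit 73775) (nat_lit 26) (.e (nat_lit 778362) (nat_lit 9) (.e (nat_lit 297) (nat_lit 22) (.e (nat_lit 344131) (nat_lit 26) .nil))))) .nil))))) (.nd (nat_lit 4) (.nd (nat_lit 5) (.nd (nat_lit 6) 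
(.lf (nat_lit 33672) (.g (nat_lit 2039) (.e (nat_lit 1209) (nat_lit 89) (.e (nat_lit 73747) (nat_lit 3) (.e (nat_lit 516176) (nat_lit 14) (.e (nat_lit 466976) (nat_lit 22) (.e (nat_lit 196661) (nat_lit 12) .nil))))) .nil)) 
(.lf (nat_lit 33736) (.g (nat_lit 2063) (.e (nat_lit 1209) (nat_lit 89) (.e (nat_lit 73753) (nat_lit 8) (.e (nat_lit 557098) (nat_lit 13) (.e (nat_lit 172140) (nat_lit 22) (.e (nat_lit 139280) (nat_lit 4) .nil))))) .nil))) (.nd (nat_lit 6) 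
(.lf (nat_lit 33704) (.g (nat_lit 2272) (.e (nat_lit 1209) (nat_lit 89) (.e (nat_lit 73753) (nat_lit 8) (.e (nat_lit 557093) (nat_lit 12) (.e (nat_lit 164239) (nat_lit 187) (.e (nat_lit 1661) (nat_lit 115) (.e (nat_lit 393251) (nat_lit 18) (.e (nat_lit 164163) (nat_lit 152) .nil))))))) (.g (nat_lit 4) .nil .nil))) 
(.lf (nat_lit 33768) (.g (nat_lit 1959) (.e (nat_lit 1209) (nat_lit 89) (.e (nat_lit 73753) (nat_lit 8) (.e (nat_lit 557105) (nat_lit 14) (.e (nat_lit 180248) (nat_lit 9) .nil)))) .nil)))) (.nd (nat_lit 5) (.nd (nat_lit 6) 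
(.lf (nat_lit 33688) (.g (nat_lit 4231) (.e (nat_lit 1209) (nat_lit 89) (.e (nat_lit 73753) (nat_lit 8) (.e (nat_lit 557091) (nat_lit 12) (.e (nat_lit 164238) (nat_lit 187) (.e (nat_lit 1659) (nat_lit 115) (.e (nat_lit 393253) (nat_lit 18) (.e (nat_lit 164162) (nat_lit 152) .nil))))))) (.g (nat_lit 6) .nil .nil))) 
(.lf (nat_lit 33752) (.g (nat_lit 1457) (.e (nat_lit 1209) (nat_lit 89) (.e (nat_lit 73753) (nat_lit 8) (.e (nat_lit 557101) (nat_lit 13) (.e (nat_lit 172064) (nat_lit 2) .nil)))) .nil))) (.nd (nat_lit 6) 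
(.lf (nat_lit 33720) (.g (nat_lit 1383) (.e (nat_lit 1209) (nat_lit 89) (.e (nat_lit 73753) (nat_lit 8) (.e (nat_lit 557096) (nat_lit 13) (.e (nat_lit 172140) (nat_lit 22) .nil)))) .nil)) 
(.lf (nat_lit 33784) (.g (nat_lit 2356) (.e (nat_lit 1209) (nat_lit 89) (.e (nat_lit 73776) (nat_lit 26) (.e (nat_lit 778362) (nat_lit 9) (.e (nat_lit 297) (nat_lit 22) (.e (nat_lit 344132) (nat_lit 26) (.e (nat_lit 557100) (nat_lit 13) (.e (nat_lit 172061) (nat_lit 1) (.e (nat_lit 164391) (nat_lit 254) .nil)))))))) (.g (nat_lit 4) .nil .nil))))))) 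
(.nd (nat_lit 3) (.nd (nat_lit 4) (.nd (nat_lit 5) (.nd (nat_lit 6) 
(.lf (nat_lit 33668) (.g (nat_lit 1558) (.e (nat_lit 1209) (nat_lit 89) (.e (nat_lit 73747) (nat_lit 3) (.e (nat_lit 516176) (nat_lit 14) (.e (nat_lit 466947) (nat_lit 0) .nil)))) .nil)) 
(.lf (nat_lit 33732) (.g (nat_lit 3192) (.e (nat_lit 1209) (nat_lit 89) (.e (nat_lit 73753) (nat_lit 8) (.e (nat_lit 557098) (nat_lit 13) (.e (nat_lit 172133) (nat_lit 15) (.e (nat_lit 2175) (nat_lit 143) (.e (nat_lit 712749) (nat_lit 28) (.e (nat_lit 434201) (nat_lit 18) (.e (nat_lit 6362) (nat_lit 337) .nil)))))))) (.g (nat_lit 5) .nil .nil)))) (.nd (nat_lit 6) 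
(.lf (nat_lit 33700) (.g (nat_lit 2473) (.e (nat_lit 1209) (nat_lit 89) (.e (nat_lit 73753) (nat_lit 8) (.e (nat_lit 557093) (nat_lit 12) (.e (nat_lit 164238) (nat_lit 187) (.e (nat_lit 1661) (nat_lit 115) (.e (nat_lit 393251) (nat_lit 18) (.e (nat_lit 164163) (nat_lit 152) .nil))))))) (.g (nat_lit 4) .nil .nil))) 
(.lf (nat_lit 33764) (.g (nat_lit 2142) (.e (nat_lit 1209) (nat_lit 89) (.e (nat_lit 73753) (nat_lit 8) (.e (nat_lit 557103) (nat_lit 14) (.e (nat_lit 180248) (nat_lit 9) .nil)))) .nil)))) (.nd (nat_lit 5) (.nd (nat_lit 6) 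
(.lf (nat_lit 33684) (.g (nat_lit 1687) (.e (nat_lit 1209) (nat_lit 89) (.e (nat_lit 73753) (nat_lit 8) (.e (nat_lit 557087) (nat_lit 11) (.e (nat_lit 24625) (nat_lit 9) .nil)))) .nil)) 
(.lf (nat_lit 33748) (.g (nat_lit 3341) (.e (nat_lit 1209) (nat_lit 89) (.e (nat_lit 73753) (nat_lit 8) (.e (nat_lit 557100) (nat_lit 13) (.e (nat_lit 179968) (nat_lit 20) (.e (nat_lit 114711) (nat_lit 21) (.e (nat_lit 57847) (nat_lit 252) (.e (nat_lit 57365) (nat_lit 1) (.e (nat_lit 57729) (nat_lit 181) .nil)))))))) (.g (nat_lit 5) .nil .nil)))) (.nd (nat_lit 6) 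
(.lf (nat_lit 33716) (.g (nat_lit 2452) (.e (nat_lit 1209) (nat_lit 89) (.e (nat_lit 73753) (nat_lit 8) (.e (nat_lit 557096) (nat_lit 13) (.e (nat_lit 172133) (nat_lit 15) (.e (nat_lit 2059) (nat_lit 142) (.e (nat_lit 704596) (nat_lit 5) (.e (nat_lit 180228) (nat_lit 0) (.e (nat_lit 6306) (nat_lit 337) .nil)))))))) (.g (nat_lit 4) .nil .nil))) 
(.lf (nat_lit 33780) (.g (nat_lit 2687) (.e (nat_lit 1209) (nat_lit 89) (.e (nat_lit 73775) (nat_lit 26) (.e (nat_lit 778362) (nat_lit 9) (.e (nat_lit 297) (nat_lit 22) (.e (nat_lit 344133) (nat_lit 26) .nil))))) .nil))))) (.nd (nat_lit 4) (.nd (nat_lit 5) (.nd (nat_lit 6) 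
(.lf (nat_lit 33676) (.g (nat_lit 2514) (.e (nat_lit 1209) (nat_lit 89) (.e (nat_lit 73747) (nat_lit 3) (.e (nat_lit 516176) (nat_lit 14) (.e (nat_lit 466981) (nat_lit 23) (.e (nat_lit 204814) (nat_lit 17) .nil))))) .nil)) 
(.lf (nat_lit 33740) (.g (nat_lit 1670) (.e (nat_lit 1209) (nat_lit 89) (.e (nat_lit 73753) (nat_lit 8) (.e (nat_lit 557098) (nat_lit 13) (.e (nat_lit 179968) (nat_lit 22) .nil)))) .nil))) (.nd (nat_lit 6) 
(.lf (nat_lit 33708) (.g (nat_lit 2031) (.e (nat_lit 1209) (nat_lit 89) (.e (nat_lit 73753) (nat_lit 8) (.e (nat_lit 557094) (nat_lit 12) (.e (nat_lit 164238) (nat_lit 187) (.e (nat_lit 1660) (nat_lit 115) (.e (nat_lit 393253) (nat_lit 18) (.e (nat_lit 164163) (nat_lit 152) .nil))))))) (.g (nat_lit 4) .nil .nil))) 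
(.lf (nat_lit 33772) (.g (nat_lit 568) (.e (nat_lit 1209) (nat_lit 89) (.e (nat_lit 73754) (nat_lit 8) (.e (nat_lit 557101) (nat_lit 13) .nil))) .nil)))) (.nd (nat_lit 5) (.nd (nat_lit 6) 
(.lf (nat_lit 33692) (.g (nat_lit 4508) (.e (nat_lit 1209) (nat_lit 89) (.e (nat_lit 73753) (nat_lit 8) (.e (nat_lit 557091) (nat_lit 12) (.e (nat_lit 164238) (nat_lit 187) (.e (nat_lit 1661) (nat_lit 115) (.e (nat_lit 393251) (nat_lit 18) (.e (nat_lit 164162) (nat_lit 152) .nil))))))) (.g (nat_lit 6) .nil .nil))) 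
(.lf (nat_lit 33756) (.g (nat_lit 1835) (.e (nat_lit 1209) (nat_lit 89) (.e (nat_lit 73753) (nat_lit 8) (.e (nat_lit 557103) (nat_lit 14) (.e (nat_lit 180229) (nat_lit 0) .nil)))) .nil))) (.nd (nat_lit 6) 
(.lf (nat_lit 33724) (.g (nat_lit 2957) (.e (nat_lit 1209) (nat_lit 89) (.e (nat_lit 73753) (nat_lit 8) (.e (nat_lit 557098) (nat_lit 13) (.e (nat_lit 172064) (nat_lit 2) (.e (nat_lit 204544) (nat_lit 2) (.e (nat_lit 24580) (nat_lit 0) (.e (nat_lit 976) (nat_lit 81) (.e (nat_lit 4211) (nat_lit 251) .nil)))))))) (.g (nat_lit 4) .nil .nil))) 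
(.lf (nat_lit 33788) (.g (nat_lit 2344) (.e (nat_lit 1209) (nat_lit 89) (.e (nat_lit 73780) (nat_lit 32) (.e (nat_lit 2936) (nat_lit 184) (.e (nat_lit 426541) (nat_lit 29) (.e (nat_lit 352307) (nat_lit 21) (.e (nat_lit 57873) (nat_lit 264) .nil)))))) (.g (nat_lit 0) .nil .nil)))))))) (.nd (nat_lit 2) (.nd (nat_lit 3) (.nd (nat_lit 4) (.nd (nat_lit 5) (.nd (nat_lit 6) 
(.lf (nat_lit 33666) (.g (nat_lit 1703) (.e (nat_lit 1209) (nat_lit 89) (.e (nat_lit 73747) (nat_lit 3) (.e (nat_lit 516174) (nat_lit 14) (.e (nat_lit 474880) (nat_lit 0) .nil)))) .nil)) 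
(.lf (nat_lit 33730) (.g (nat_lit 2280) (.e (nat_lit 1209) (nat_lit 89) (.e (nat_lit 73753) (nat_lit 8) (.e (nat_lit 557098) (nat_lit 13) (.e (nat_lit 172133) (nat_lit 15) (.e (nat_lit 2175) (nat_lit 143) .nil))))) .nil))) (.nd (nat_lit 6) 
(.lf (nat_lit 33698) (.g (nat_lit 1864) (.e (nat_lit 1209) (nat_lit 89) (.e (nat_lit 73753) (nat_lit 8) (.e (nat_lit 557093) (nat_lit 12) (.e (nat_lit 164238) (nat_lit 187) (.e (nat_lit 1661) (nat_lit 115) .nil))))) .nil)) 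
(.lf (nat_lit 33762) (.g (nat_lit 4102) (.e (nat_lit 1209) (nat_lit 89) (.e (nat_lit 73753) (nat_lit 8) (.e (nat_lit 557103) (nat_lit 14) (.e (nat_lit 180244) (nat_lit 5) (.e (nat_lit 532579) (nat_lit 26) (.e (nat_lit 426107) (nat_lit 1) (.e (nat_lit 171776) (nat_lit 122) .nil))))))) (.g (nat_lit 6) .nil .nil))))) (.nd (nat_lit 5) (.nd (nat_lit 6) 
(.lf (nat_lit 33682) (.g (nat_lit 4359) (.e (nat_lit 1209) (nat_lit 89) (.e (nat_lit 73753) (nat_lit 8) (.e (nat_lit 557087) (nat_lit 11) (.e (nat_lit 24617) (nat_lit 7) (.e (nat_lit 319505) (nat_lit 10) .nil))))) .nil)) 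
(.lf (nat_lit 33746) (.g (nat_lit 2281) (.e (nat_lit 1209) (nat_lit 89) (.e (nat_lit 73753) (nat_lit 8) (.e (nat_lit 557100) (nat_lit 13) (.e (nat_lit 179968) (nat_lit 20) .nil)))) .nil))) (.nd (nat_lit 6) 
(.lf (nat_lit 33714) (.g (nat_lit 1386) (.e (nat_lit 1209) (nat_lit 89) (.e (nat_lit 73753) (nat_lit 8) (.e (nat_lit 557096) (nat_lit 13) (.e (nat_lit 172064) (nat_lit 2) .nil)))) .nil)) 
(.lf (nat_lit 33778) (.g (nat_lit 3500) (.e (nat_lit 1209) (nat_lit 89) (.e (nat_lit 73775) (nat_lit 26) (.e (nat_lit 778362) (nat_lit 9) (.e (nat_lit 297) (nat_lit 22) (.e (nat_lit 344132) (nat_lit 26) (.e (nat_lit 557101) (nat_lit 13) (.e (nat_lit 172061) (nat_lit 1) (.e (nat_lit 164391) (nat_lit 254) .nil)))))))) (.g (nat_lit 4) .nil .nil)))))) 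
(.nd (nat_lit 4) (.nd (nat_lit 5) (.nd (nat_lit 6) 
(.lf (nat_lit 33674) (.g (nat_lit 2070) (.e (nat_lit 1209) (nat_lit 89) (.e (nat_lit 73747) (nat_lit 3) (.e (nat_lit 516176) (nat_lit 14) (.e (nat_lit 466977) (nat_lit 22) (.e (nat_lit 196677) (nat_lit 16) .nil))))) .nil)) 
(.lf (nat_lit 33738) (.g (nat_lit 3361) (.e (nat_lit 1209) (nat_lit 89) (.e (nat_lit 73753) (nat_lit 8) (.e (nat_lit 557098) (nat_lit 13) (.e (nat_lit 172140) (nat_lit 22) (.e (nat_lit 139280) (nat_lit 4) (.e (nat_lit 65574) (nat_lit 4) (.e (nat_lit 123019) (nat_lit 122) .nil))))))) (.g (nat_lit 6) .nil .nil)))) (.nd (nat_lit 6) 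
(.lf (nat_lit 33706) (.g (nat_lit 3650) (.e (nat_lit 1209) (nat_lit 89) (.e (nat_lit 73753) (nat_lit 8) (.e (nat_lit 557094) (nat_lit 12) (.e (nat_lit 164238) (nat_lit 187) (.e (nat_lit 1428) (nat_lit 108) (.e (nat_lit 336369) (nat_lit 27) (.e (nat_lit 426109) (nat_lit 1) (.e (nat_lit 164163) (nat_lit 152) .nil)))))))) (.g (nat_lit 6) .nil .nil))) 
(.lf (nat_lit 33770) (.g (nat_lit 2483) (.e (nat_lit 1209) (nat_lit 89) (.e (nat_lit 73754) (nat_lit 8) (.e (nat_lit 557091) (nat_lit 12) (.e (nat_lit 164238) (nat_lit 187) .nil)))) .nil)))) (.nd (nat_lit 5) (.nd (nat_lit 6) 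
(.lf (nat_lit 33690) (.g (nat_lit 2700) (.e (nat_lit 1209) (nat_lit 89) (.e (nat_lit 73753) (nat_lit 8) (.e (nat_lit 557091) (nat_lit 12) (.e (nat_lit 164238) (nat_lit 187) (.e (nat_lit 1660) (nat_lit 115) (.e (nat_lit 393253) (nat_lit 18) (.e (nat_lit 164163) (nat_lit 152) .nil))))))) (.g (nat_lit 4) .nil .nil))) 
(.lf (nat_lit 33754) (.g (nat_lit 1413) (.e (nat_lit 1209) (nat_lit 89) (.e (nat_lit 73753) (nat_lit 8) (.e (nat_lit 557101) (nat_lit 13) (.e (nat_lit 179968) (nat_lit 20) .nil)))) .nil))) (.nd (nat_lit 6) 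
(.lf (nat_lit 33722) (.g (nat_lit 1364) (.e (nat_lit 1209) (nat_lit 89) (.e (nat_lit 73753) (nat_lit 8) (.e (nat_lit 557098) (nat_lit 13) (.e (nat_lit 172062) (nat_lit 2) .nil)))) .nil)) 
(.lf (nat_lit 33786) (.g (nat_lit 3283) (.e (nat_lit 1209) (nat_lit 89) (.e (nat_lit 73776) (nat_lit 26) (.e (nat_lit 778362) (nat_lit 9) (.e (nat_lit 297) (nat_lit 22) (.e (nat_lit 344133) (nat_lit 26) (.e (nat_lit 557098) (nat_lit 13) (.e (nat_lit 172061) (nat_lit 1) (.e (nat_lit 164391) (nat_lit 254) .nil)))))))) (.g (nat_lit 5) .nil .nil))))))) 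
(.nd (nat_lit 3) (.nd (nat_lit 4) (.nd (nat_lit 5) (.nd (nat_lit 6) 
(.lf (nat_lit 33670) (.g (nat_lit 2106) (.e (nat_lit 1209) (nat_lit 89) (.e (nat_lit 73747) (nat_lit 3) (.e (nat_lit 516176) (nat_lit 14) (.e (nat_lit 466976) (nat_lit 22) (.e (nat_lit 196628) (nat_lit 9) .nil))))) .nil)) 
(.lf (nat_lit 33734) (.g (nat_lit 2671) (.e (nat_lit 1209) (nat_lit 89) (.e (nat_lit 73753) (nat_lit 8) (.e (nat_lit 557098) (nat_lit 13) (.e (nat_lit 179968) (nat_lit 20) (.e (nat_lit 114710) (nat_lit 21) (.e (nat_lit 57847) (nat_lit 252) (.e (nat_lit 57365) (nat_lit 1) (.e (nat_lit 57730) (nat_lit 181) .nil)))))))) (.g (nat_lit 5) .nil .nil)))) (.nd (nat_lit 6) 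
(.lf (nat_lit 33702) (.g (nat_lit 1403) (.e (nat_lit 1209) (nat_lit 89) (.e (nat_lit 73753) (nat_lit 8) (.e (nat_lit 557093) (nat_lit 12) (.e (nat_lit 164239) (nat_lit 187) .nil)))) .nil)) 
(.lf (nat_lit 33766) (.g (nat_lit 2946) (.e (nat_lit 1209) (nat_lit 89) (.e (nat_lit 73753) (nat_lit 8) (.e (nat_lit 557103) (nat_lit 14) (.e (nat_lit 180261) (nat_lit 20) (.e (nat_lit 655364) (nat_lit 0) (.e (nat_lit 2964) (nat_lit 185) (.e (nat_lit 434209) (nat_lit 18) (.e (nat_lit 6306) (nat_lit 337) .nil)))))))) (.g (nat_lit 4) .nil .nil))))) (.nd (nat_lit 5) (.nd (nat_lit 6) 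
(.lf (nat_lit 33686) (.g (nat_lit 4415) (.e (nat_lit 1209) (nat_lit 89) (.e (nat_lit 73753) (nat_lit 8) (.e (nat_lit 557091) (nat_lit 12) (.e (nat_lit 164238) (nat_lit 187) (.e (nat_lit 1427) (nat_lit 108) (.e (nat_lit 336369) (nat_lit 27) (.e (nat_lit 426109) (nat_lit 1) (.e (nat_lit 164163) (nat_lit 152) .nil)))))))) (.g (nat_lit 6) .nil .nil))) 
(.lf (nat_lit 33750) (.g (nat_lit 2281) (.e (nat_lit 1209) (nat_lit 89) (.e (nat_lit 73753) (nat_lit 8) (.e (nat_lit 557100) (nat_lit 13) (.e (nat_lit 179968) (nat_lit 22) .nil)))) .nil))) (.nd (nat_lit 6) 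
(.lf (nat_lit 33718) (.g (nat_lit 2809) (.e (nat_lit 1209) (nat_lit 89) (.e (nat_lit 73753) (nat_lit 8) (.e (nat_lit 557096) (nat_lit 13) (.e (nat_lit 172133) (nat_lit 15) (.e (nat_lit 2175) (nat_lit 143) (.e (nat_lit 712749) (nat_lit 28) (.e (nat_lit 434201) (nat_lit 18) (.e (nat_lit 6362) (nat_lit 337) .nil)))))))) (.g (nat_lit 5) .nil .nil))) 
(.lf (nat_lit 33782) (.g (nat_lit 2755) (.e (nat_lit 1209) (nat_lit 89) (.e (nat_lit 73775) (nat_lit 26) (.e (nat_lit 778362) (nat_lit 9) (.e (nat_lit 297) (nat_lit 22) (.e (nat_lit 344133) (nat_lit 26) (.e (nat_lit 557098) (nat_lit 13) (.e (nat_lit 172139) (nat_lit 21) (.e (nat_lit 123109) (nat_lit 209) .nil)))))))) (.g (nat_lit 4) .nil .nil)))))) 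
(.nd (nat_lit 4) (.nd (nat_lit 5) (.nd (nat_lit 6) 
(.lf (nat_lit 33678) (.g (nat_lit 2490) (.e (nat_lit 1209) (nat_lit 89) (.e (nat_lit 73747) (nat_lit 3) (.e (nat_lit 516176) (nat_lit 14) (.e (nat_lit 466981) (nat_lit 23) (.e (nat_lit 204821) (nat_lit 17) .nil))))) .nil)) 
(.lf (nat_lit 33742) (.g (nat_lit 2358) (.e (nat_lit 1209) (nat_lit 89) (.e (nat_lit 73753) (nat_lit 8) (.e (nat_lit 557100) (nat_lit 13) (.e (nat_lit 172064) (nat_lit 2) (.e (nat_lit 204544) (nat_lit 2) .nil))))) .nil))) (.nd (nat_lit 6) 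
(.lf (nat_lit 33710) (.g (nat_lit 4188) (.e (nat_lit 1209) (nat_lit 89) (.e (nat_lit 73753) (nat_lit 8) (.e (nat_lit 557094) (nat_lit 12) (.e (nat_lit 164238) (nat_lit 187) (.e (nat_lit 1661) (nat_lit 115) (.e (nat_lit 393251) (nat_lit 18) (.e (nat_lit 164162) (nat_lit 152) .nil))))))) (.g (nat_lit 6) .nil .nil))) 
(.lf (nat_lit 33774) (.g (nat_lit 604) (.e (nat_lit 1209) (nat_lit 89) (.e (nat_lit 73755) (nat_lit 8) (.e (nat_lit 557098) (nat_lit 13) .nil))) .nil)))) (.nd (nat_lit 5) (.nd (nat_lit 6) 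
(.lf (nat_lit 33694) (.g (nat_lit 2339) (.e (nat_lit 1209) (nat_lit 89) (.e (nat_lit 73753) (nat_lit 8) (.e (nat_lit 557091) (nat_lit 12) (.e (nat_lit 164238) (nat_lit 187) (.e (nat_lit 1661) (nat_lit 115) (.e (nat_lit 393252) (nat_lit 18) (.e (nat_lit 164147) (nat_lit 152) .nil))))))) (.g (nat_lit 4) .nil .nil))) 
(.lf (nat_lit 33758) (.g (nat_lit 1559) (.e (nat_lit 1209) (nat_lit 89) (.e (nat_lit 73753) (nat_lit 8) (.e (nat_lit 557103) (nat_lit 14) (.e (nat_lit 180244) (nat_lit 5) .nil)))) .nil))) (.nd (nat_lit 6) 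
(.lf (nat_lit 33726) (.g (nat_lit 1303) (.e (nat_lit 1209) (nat_lit 89) (.e (nat_lit 73753) (nat_lit 8) (.e (nat_lit 557098) (nat_lit 13) (.e (nat_lit 172065) (nat_lit 3) .nil)))) .nil)) 
(.lf (nat_lit 33790) (.g (nat_lit 2270) (.e (nat_lit 1209) (nat_lit 89) (.e (nat_lit 73781) (nat_lit 32) (.e (nat_lit 2681) (nat_lit 168) (.e (nat_lit 204869) (nat_lit 29) (.e (nat_lit 360448) (nat_lit 0) (.e (nat_lit 3972) (nat_lit 239) .nil)))))) (.g (nat_lit 4) .nil .nil))))))))) (.nd (nat_lit 1) (.nd (nat_lit 2) (.nd (nat_lit 3) (.nd (nat_lit 4) (.nd (nat_lit 5) (.nd (nat_lit 6) 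
(.lf (nat_lit 33665) (.g (nat_lit 1712) (.e (nat_lit 1209) (nat_lit 89) (.e (nat_lit 73747) (nat_lit 3) (.e (nat_lit 516174) (nat_lit 14) (.e (nat_lit 466947) (nat_lit 0) .nil)))) .nil)) 
(.lf (nat_lit 33729) (.g (nat_lit 2875) (.e (nat_lit 1209) (nat_lit 89) (.e (nat_lit 73753) (nat_lit 8) (.e (nat_lit 557098) (nat_lit 13) (.e (nat_lit 172133) (nat_lit 15) (.e (nat_lit 2059) (nat_lit 142) (.e (nat_lit 704596) (nat_lit 5) (.e (nat_lit 180228) (nat_lit 0) (.e (nat_lit 6306) (nat_lit 337) .nil)))))))) (.g (nat_lit 4) .nil .nil)))) (.nd (nat_lit 6) 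
(.lf (nat_lit 33697) (.g (nat_lit 3330) (.e (nat_lit 1209) (nat_lit 89) (.e (nat_lit 73753) (nat_lit 8) (.e (nat_lit 557093) (nat_lit 12) (.e (nat_lit 164238) (nat_lit 187) (.e (nat_lit 1660) (nat_lit 115) (.e (nat_lit 393253) (nat_lit 18) (.e (nat_lit 164162) (nat_lit 152) .nil))))))) (.g (nat_lit 5) .nil .nil))) 
(.lf (nat_lit 33761) (.g (nat_lit 2423) (.e (nat_lit 1209) (nat_lit 89) (.e (nat_lit 73753) (nat_lit 8) (.e (nat_lit 557103) (nat_lit 14) (.e (nat_lit 180244) (nat_lit 5) (.e (nat_lit 532579) (nat_lit 26) (.e (nat_lit 426100) (nat_lit 1) (.e (nat_lit 171776) (nat_lit 122) .nil))))))) (.g (nat_lit 4) .nil .nil))))) (.nd (nat_lit 5) (.nd (nat_lit 6) 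
(.lf (nat_lit 33681) (.g (nat_lit 3718) (.e (nat_lit 1209) (nat_lit 89) (.e (nat_lit 73753) (nat_lit 8) (.e (nat_lit 557087) (nat_lit 11) (.e (nat_lit 24617) (nat_lit 7) (.e (nat_lit 319504) (nat_lit 10) .nil))))) .nil)) 
(.lf (nat_lit 33745) (.g (nat_lit 2262) (.e (nat_lit 1209) (nat_lit 89) (.e (nat_lit 73753) (nat_lit 8) (.e (nat_lit 557100) (nat_lit 13) (.e (nat_lit 172138) (nat_lit 15) .nil)))) .nil))) (.nd (nat_lit 6) 
(.lf (nat_lit 33713) (.g (nat_lit 539) (.e (nat_lit 1209) (nat_lit 89) (.e (nat_lit 73753) (nat_lit 8) (.e (nat_lit 557096) (nat_lit 13) .nil))) .nil)) 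
(.lf (nat_lit 33777) (.g (nat_lit 2770) (.e (nat_lit 1209) (nat_lit 89) (.e (nat_lit 73775) (nat_lit 26) (.e (nat_lit 778362) (nat_lit 9) (.e (nat_lit 297) (nat_lit 22) (.e (nat_lit 344132) (nat_lit 26) .nil))))) .nil))))) (.nd (nat_lit 4) (.nd (nat_lit 5) (.nd (nat_lit 6) 
(.lf (nat_lit 33673) (.g (nat_lit 1601) (.e (nat_lit 1209) (nat_lit 89) (.e (nat_lit 73747) (nat_lit 3) (.e (nat_lit 516176) (nat_lit 14) (.e (nat_lit 466977) (nat_lit 22) .nil)))) .nil)) 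
(.lf (nat_lit 33737) (.g (nat_lit 2837) (.e (nat_lit 1209) (nat_lit 89) (.e (nat_lit 73753) (nat_lit 8) (.e (nat_lit 557098) (nat_lit 13) (.e (nat_lit 172140) (nat_lit 22) (.e (nat_lit 139280) (nat_lit 4) (.e (nat_lit 65572) (nat_lit 4) (.e (nat_lit 123019) (nat_lit 122) .nil))))))) (.g (nat_lit 4) .nil .nil)))) (.nd (nat_lit 6) 
(.lf (nat_lit 33705) (.g (nat_lit 3950) (.e (nat_lit 1209) (nat_lit 89) (.e (nat_lit 73753) (nat_lit 8) (.e (nat_lit 557094) (nat_lit 12) (.e (nat_lit 164238) (nat_lit 187) (.e (nat_lit 1427) (nat_lit 108) (.e (nat_lit 336369) (nat_lit 27) (.e (nat_lit 426109) (nat_lit 1) (.e (nat_lit 164163) (nat_lit 152) .nil)))))))) (.g (nat_lit 6) .nil .nil))) 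
(.lf (nat_lit 33769) (.g (nat_lit 2072) (.e (nat_lit 1209) (nat_lit 89) (.e (nat_lit 73753) (nat_lit 8) (.e (nat_lit 557105) (nat_lit 14) (.e (nat_lit 180261) (nat_lit 20) .nil)))) .nil)))) (.nd (nat_lit 5) (.nd (nat_lit 6) 
(.lf (nat_lit 33689) (.g (nat_lit 2649) (.e (nat_lit 1209) (nat_lit 89) (.e (nat_lit 73753) (nat_lit 8) (.e (nat_lit 557091) (nat_lit 12) (.e (nat_lit 164238) (nat_lit 187) (.e (nat_lit 1659) (nat_lit 115) (.e (nat_lit 393253) (nat_lit 18) (.e (nat_lit 164163) (nat_lit 152) .nil))))))) (.g (nat_lit 4) .nil .nil))) 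
(.lf (nat_lit 33753) (.g (nat_lit 1469) (.e (nat_lit 1209) (nat_lit 89) (.e (nat_lit 73753) (nat_lit 8) (.e (nat_lit 557101) (nat_lit 13) (.e (nat_lit 172070) (nat_lit 4) .nil)))) .nil))) (.nd (nat_lit 6) 
(.lf (nat_lit 33721) (.g (nat_lit 446) (.e (nat_lit 1209) (nat_lit 89) (.e (nat_lit 73753) (nat_lit 8) (.e (nat_lit 557098) (nat_lit 13) .nil))) .nil)) 
(.lf (nat_lit 33785) (.g (nat_lit 2267) (.e (nat_lit 1209) (nat_lit 89) (.e (nat_lit 73776) (nat_lit 26) (.e (nat_lit 778362) (nat_lit 9) (.e (nat_lit 297) (nat_lit 22) (.e (nat_lit 344132) (nat_lit 26) (.e (nat_lit 557101) (nat_lit 13) (.e (nat_lit 172061) (nat_lit 1) (.e (nat_lit 164391) (nat_lit 254) .nil)))))))) (.g (nat_lit 4) .nil .nil))))))) 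
(.nd (nat_lit 3) (.nd (nat_lit 4) (.nd (nat_lit 5) (.nd (nat_lit 6) 
(.lf (nat_lit 33669) (.g (nat_lit 1628) (.e (nat_lit 1209) (nat_lit 89) (.e (nat_lit 73747) (nat_lit 3) (.e (nat_lit 516176) (nat_lit 14) (.e (nat_lit 466967) (nat_lit 20) .nil)))) .nil)) 
(.lf (nat_lit 33733) (.g (nat_lit 1670) (.e (nat_lit 1209) (nat_lit 89) (.e (nat_lit 73753) (nat_lit 8) (.e (nat_lit 557098) (nat_lit 13) (.e (nat_lit 179968) (nat_lit 20) .nil)))) .nil))) (.nd (nat_lit 6) 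
(.lf (nat_lit 33701) (.g (nat_lit 3546) (.e (nat_lit 1209) (nat_lit 89) (.e (nat_lit 73753) (nat_lit 8) (.e (nat_lit 557093) (nat_lit 12) (.e (nat_lit 164238) (nat_lit 187) (.e (nat_lit 1661) (nat_lit 115) (.e (nat_lit 393253) (nat_lit 18) (.e (nat_lit 164162) (nat_lit 152) .nil))))))) (.g (nat_lit 5) .nil .nil))) 
(.lf (nat_lit 33765) (.g (nat_lit 1997) (.e (nat_lit 1209) (nat_lit 89) (.e (nat_lit 73753) (nat_lit 8) (.e (nat_lit 557103) (nat_lit 14) (.e (nat_lit 180261) (nat_lit 20) .nil)))) .nil)))) (.nd (nat_lit 5) (.nd (nat_lit 6) 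
(.lf (nat_lit 33685) (.g (nat_lit 1568) (.e (nat_lit 1209) (nat_lit 89) (.e (nat_lit 73753) (nat_lit 8) (.e (nat_lit 557091) (nat_lit 12) (.e (nat_lit 164213) (nat_lit 176) .nil)))) .nil)) 
(.lf (nat_lit 33749) (.g (nat_lit 4297) (.e (nat_lit 1209) (nat_lit 89) (.e (nat_lit 73753) (nat_lit 8) (.e (nat_lit 557100) (nat_lit 13) (.e (nat_lit 179968) (nat_lit 20) (.e (nat_lit 114711) (nat_lit 21) (.e (nat_lit 57847) (nat_lit 252) (.e (nat_lit 57365) (nat_lit 1) (.e (nat_lit 57730) (nat_lit 181) .nil)))))))) (.g (nat_lit 7) .nil .nil)))) (.nd (nat_lit 6) 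
(.lf (nat_lit 33717) (.g (nat_lit 2402) (.e (nat_lit 1209) (nat_lit 89) (.e (nat_lit 73753) (nat_lit 8) (.e (nat_lit 557096) (nat_lit 13) (.e (nat_lit 172133) (nat_lit 15) (.e (nat_lit 2175) (nat_lit 143) (.e (nat_lit 712747) (nat_lit 28) (.e (nat_lit 434209) (nat_lit 18) (.e (nat_lit 6306) (nat_lit 337) .nil)))))))) (.g (nat_lit 4) .nil .nil))) 
(.lf (nat_lit 33781) (.g (nat_lit 3708) (.e (nat_lit 1209) (nat_lit 89) (.e (nat_lit 73775) (nat_lit 26) (.e (nat_lit 778362) (nat_lit 9) (.e (nat_lit 297) (nat_lit 22) (.e (nat_lit 344133) (nat_lit 26) (.e (nat_lit 557098) (nat_lit 13) (.e (nat_lit 179968) (nat_lit 4) (.e (nat_lit 229704) (nat_lit 254) .nil)))))))) (.g (nat_lit 5) .nil .nil)))))) 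
(.nd (nat_lit 4) (.nd (nat_lit 5) (.nd (nat_lit 6) 
(.lf (nat_lit 33677) (.g (nat_lit 2403) (.e (nat_lit 1209) (nat_lit 89) (.e (nat_lit 73747) (nat_lit 3) (.e (nat_lit 516176) (nat_lit 14) (.e (nat_lit 466981) (nat_lit 23) (.e (nat_lit 204815) (nat_lit 17) .nil))))) .nil)) 
(.lf (nat_lit 33741) (.g (nat_lit 2264) (.e (nat_lit 1209) (nat_lit 89) (.e (nat_lit 73753) (nat_lit 8) (.e (nat_lit 557100) (nat_lit 13) (.e (nat_lit 172062) (nat_lit 2) .nil)))) .nil))) (.nd (nat_lit 6) 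
(.lf (nat_lit 33709) (.g (nat_lit 1749) (.e (nat_lit 1209) (nat_lit 89) (.e (nat_lit 73753) (nat_lit 8) (.e (nat_lit 557094) (nat_lit 12) (.e (nat_lit 164238) (nat_lit 187) (.e (nat_lit 1661) (nat_lit 115) .nil))))) .nil)) 
(.lf (nat_lit 33773) (.g (nat_lit 3576) (.e (nat_lit 1209) (nat_lit 89) (.e (nat_lit 73755) (nat_lit 8) (.e (nat_lit 557087) (nat_lit 11) (.e (nat_lit 24617) (nat_lit 7) (.e (nat_lit 319505) (nat_lit 10) .nil))))) .nil)))) (.nd (nat_lit 5) (.nd (nat_lit 6) 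
(.lf (nat_lit 33693) (.g (nat_lit 3097) (.e (nat_lit 1209) (nat_lit 89) (.e (nat_lit 73753) (nat_lit 8) (.e (nat_lit 557091) (nat_lit 12) (.e (nat_lit 164238) (nat_lit 187) (.e (nat_lit 1661) (nat_lit 115) (.e (nat_lit 393251) (nat_lit 18) (.e (nat_lit 164163) (nat_lit 152) .nil))))))) (.g (nat_lit 5) .nil .nil))) 
(.lf (nat_lit 33757) (.g (nat_lit 1918) (.e (nat_lit 1209) (nat_lit 89) (.e (nat_lit 73753) (nat_lit 8) (.e (nat_lit 557103) (nat_lit 14) (.e (nat_lit 180243) (nat_lit 5) .nil)))) .nil))) (.nd (nat_lit 6) 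
(.lf (nat_lit 33725) (.g (nat_lit 2948) (.e (nat_lit 1209) (nat_lit 89) (.e (nat_lit 73753) (nat_lit 8) (.e (nat_lit 557098) (nat_lit 13) (.e (nat_lit 172064) (nat_lit 2) (.e (nat_lit 204544) (nat_lit 2) (.e (nat_lit 24611) (nat_lit 4) (.e (nat_lit 123019) (nat_lit 122) .nil))))))) (.g (nat_lit 4) .nil .nil))) 
(.lf (nat_lit 33789) (.g (nat_lit 2304) (.e (nat_lit 1209) (nat_lit 89) (.e (nat_lit 73780) (nat_lit 32) (.e (nat_lit 2940) (nat_lit 184) (.e (nat_lit 426541) (nat_lit 29) (.e (nat_lit 352307) (nat_lit 21) (.e (nat_lit 57873) (nat_lit 264) .nil)))))) (.g (nat_lit 0) .nil .nil)))))))) (.nd (nat_lit 2) (.nd (nat_lit 3) (.nd (nat_lit 4) (.nd (nat_lit 5) (.nd (nat_lit 6) 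
(.lf (nat_lit 33667) (.g (nat_lit 523) (.e (nat_lit 1209) (nat_lit 89) (.e (nat_lit 73747) (nat_lit 3) (.e (nat_lit 516176) (nat_lit 14) .nil))) .nil)) 
(.lf (nat_lit 33731) (.g (nat_lit 2792) (.e (nat_lit 1209) (nat_lit 89) (.e (nat_lit 73753) (nat_lit 8) (.e (nat_lit 557098) (nat_lit 13) (.e (nat_lit 172133) (nat_lit 15) (.e (nat_lit 2175) (nat_lit 143) (.e (nat_lit 712747) (nat_lit 28) (.e (nat_lit 434209) (nat_lit 18) (.e (nat_lit 6306) (nat_lit 337) .nil)))))))) (.g (nat_lit 4) .nil .nil)))) (.nd (nat_lit 6) 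
(.lf (nat_lit 33699) (.g (nat_lit 3883) (.e (nat_lit 1209) (nat_lit 89) (.e (nat_lit 73753) (nat_lit 8) (.e (nat_lit 557093) (nat_lit 12) (.e (nat_lit 164238) (nat_lit 187) (.e (nat_lit 1661) (nat_lit 115) (.e (nat_lit 393251) (nat_lit 18) (.e (nat_lit 164162) (nat_lit 152) .nil))))))) (.g (nat_lit 6) .nil .nil))) 
(.lf (nat_lit 33763) (.g (nat_lit 3720) (.e (nat_lit 1209) (nat_lit 89) (.e (nat_lit 73753) (nat_lit 8) (.e (nat_lit 557103) (nat_lit 14) (.e (nat_lit 180244) (nat_lit 5) (.e (nat_lit 532579) (nat_lit 26) (.e (nat_lit 426108) (nat_lit 1) (.e (nat_lit 171776) (nat_lit 122) .nil))))))) (.g (nat_lit 6) .nil .nil))))) (.nd (nat_lit 5) (.nd (nat_lit 6) 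
(.lf (nat_lit 33683) (.g (nat_lit 4900) (.e (nat_lit 1209) (nat_lit 89) (.e (nat_lit 73753) (nat_lit 8) (.e (nat_lit 557087) (nat_lit 11) (.e (nat_lit 24617) (nat_lit 7) (.e (nat_lit 319505) (nat_lit 10) (.e (nat_lit 584) (nat_lit 43) (.e (nat_lit 516115) (nat_lit 1) (.e (nat_lit 164258) (nat_lit 215) .nil)))))))) (.g (nat_lit 4) .nil .nil))) 
(.lf (nat_lit 33747) (.g (nat_lit 3998) (.e (nat_lit 1209) (nat_lit 89) (.e (nat_lit 73753) (nat_lit 8) (.e (nat_lit 557100) (nat_lit 13) (.e (nat_lit 179968) (nat_lit 20) (.e (nat_lit 114710) (nat_lit 21) (.e (nat_lit 57847) (nat_lit 252) (.e (nat_lit 57365) (nat_lit 1) (.e (nat_lit 57730) (nat_lit 181) .nil)))))))) (.g (nat_lit 7) .nil .nil)))) (.nd (nat_lit 6) 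
(.lf (nat_lit 33715) (.g (nat_lit 1428) (.e (nat_lit 1209) (nat_lit 89) (.e (nat_lit 73753) (nat_lit 8) (.e (nat_lit 557096) (nat_lit 13) (.e (nat_lit 172133) (nat_lit 15) .nil)))) .nil)) 
(.lf (nat_lit 33779) (.g (nat_lit 3073) (.e (nat_lit 1209) (nat_lit 89) (.e (nat_lit 73775) (nat_lit 26) (.e (nat_lit 778362) (nat_lit 9) (.e (nat_lit 297) (nat_lit 22) (.e (nat_lit 344132) (nat_lit 26) (.e (nat_lit 557101) (nat_lit 13) (.e (nat_lit 172070) (nat_lit 4) (.e (nat_lit 229704) (nat_lit 254) .nil)))))))) (.g (nat_lit 4) .nil .nil)))))) 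
(.nd (nat_lit 4) (.nd (nat_lit 5) (.nd (nat_lit 6) 
(.lf (nat_lit 33675) (.g (nat_lit 1621) (.e (nat_lit 1209) (nat_lit 89) (.e (nat_lit 73747) (nat_lit 3) (.e (nat_lit 516176) (nat_lit 14) (.e (nat_lit 466981) (nat_lit 23) .nil)))) .nil)) 
(.lf (nat_lit 33739) (.g (nat_lit 2739) (.e (nat_lit 1209) (nat_lit 89) (.e (nat_lit 73753) (nat_lit 8) (.e (nat_lit 557098) (nat_lit 13) (.e (nat_lit 172140) (nat_lit 22) (.e (nat_lit 139281) (nat_lit 5) (.e (nat_lit 73736) (nat_lit 0) (.e (nat_lit 4215) (nat_lit 251) .nil))))))) (.g (nat_lit 5) .nil .nil)))) (.nd (nat_lit 6) 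
(.lf (nat_lit 33707) (.g (nat_lit 3761) (.e (nat_lit 1209) (nat_lit 89) (.e (nat_lit 73753) (nat_lit 8) (.e (nat_lit 557094) (nat_lit 12) (.e (nat_lit 164238) (nat_lit 187) (.e (nat_lit 1660) (nat_lit 115) (.e (nat_lit 393253) (nat_lit 18) (.e (nat_lit 164162) (nat_lit 152) .nil))))))) (.g (nat_lit 6) .nil .nil))) 
(.lf (nat_lit 33771) (.g (nat_lit 2132) (.e (nat_lit 1209) (nat_lit 89) (.e (nat_lit 73754) (nat_lit 8) (.e (nat_lit 557100) (nat_lit 13) (.e (nat_lit 179968) (nat_lit 20) .nil)))) .nil)))) (.nd (nat_lit 5) (.nd (nat_lit 6) 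
(.lf (nat_lit 33691) (.g (nat_lit 2494) (.e (nat_lit 1209) (nat_lit 89) (.e (nat_lit 73753) (nat_lit 8) (.e (nat_lit 557091) (nat_lit 12) (.e (nat_lit 164238) (nat_lit 187) (.e (nat_lit 1661) (nat_lit 115) (.e (nat_lit 393250) (nat_lit 18) (.e (nat_lit 164162) (nat_lit 152) .nil))))))) (.g (nat_lit 4) .nil .nil))) 
(.lf (nat_lit 33755) (.g (nat_lit 2388) (.e (nat_lit 1209) (nat_lit 89) (.e (nat_lit 73753) (nat_lit 8) (.e (nat_lit 557101) (nat_lit 13) (.e (nat_lit 179968) (nat_lit 20) (.e (nat_lit 114710) (nat_lit 21) (.e (nat_lit 57847) (nat_lit 252) (.e (nat_lit 57365) (nat_lit 1) (.e (nat_lit 57729) (nat_lit 181) .nil)))))))) (.g (nat_lit 5) .nil .nil)))) (.nd (nat_lit 6) 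
(.lf (nat_lit 33723) (.g (nat_lit 2610) (.e (nat_lit 1209) (nat_lit 89) (.e (nat_lit 73753) (nat_lit 8) (.e (nat_lit 557098) (nat_lit 13) (.e (nat_lit 172064) (nat_lit 2) (.e (nat_lit 204544) (nat_lit 2) .nil))))) .nil)) 
(.lf (nat_lit 33787) (.g (nat_lit 2502) (.e (nat_lit 1209) (nat_lit 89) (.e (nat_lit 73776) (nat_lit 26) (.e (nat_lit 778362) (nat_lit 9) (.e (nat_lit 297) (nat_lit 22) (.e (nat_lit 344133) (nat_lit 26) (.e (nat_lit 557098) (nat_lit 13) (.e (nat_lit 179968) (nat_lit 4) (.e (nat_lit 229704) (nat_lit 254) .nil)))))))) (.g (nat_lit 4) .nil .nil))))))) 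
(.nd (nat_lit 3) (.nd (nat_lit 4) (.nd (nat_lit 5) (.nd (nat_lit 6) 
(.lf (nat_lit 33671) (.g (nat_lit 2633) (.e (nat_lit 1209) (nat_lit 89) (.e (nat_lit 73747) (nat_lit 3) (.e (nat_lit 516176) (nat_lit 14) (.e (nat_lit 466976) (nat_lit 22) (.e (nat_lit 196628) (nat_lit 9) (.e (nat_lit 1291) (nat_lit 95) (.e (nat_lit 123116) (nat_lit 221) .nil))))))) (.g (nat_lit 4) .nil .nil))) 
(.lf (nat_lit 33735) (.g (nat_lit 1624) (.e (nat_lit 1209) (nat_lit 89) (.e (nat_lit 73753) (nat_lit 8) (.e (nat_lit 557098) (nat_lit 13) (.e (nat_lit 172140) (nat_lit 22) .nil)))) .nil))) (.nd (nat_lit 6) 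
(.lf (nat_lit 33703) (.g (nat_lit 1717) (.e (nat_lit 1209) (nat_lit 89) (.e (nat_lit 73753) (nat_lit 8) (.e (nat_lit 557093) (nat_lit 12) (.e (nat_lit 164239) (nat_lit 187) (.e (nat_lit 1660) (nat_lit 115) .nil))))) .nil)) 
(.lf (nat_lit 33767) (.g (nat_lit 2277) (.e (nat_lit 1209) (nat_lit 89) (.e (nat_lit 73753) (nat_lit 8) (.e (nat_lit 557103) (nat_lit 14) (.e (nat_lit 180261) (nat_lit 20) (.e (nat_lit 655378) (nat_lit 4) .nil))))) .nil)))) (.nd (nat_lit 5) (.nd (nat_lit 6) 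
(.lf (nat_lit 33687) (.g (nat_lit 4075) (.e (nat_lit 1209) (nat_lit 89) (.e (nat_lit 73753) (nat_lit 8) (.e (nat_lit 557091) (nat_lit 12) (.e (nat_lit 164238) (nat_lit 187) (.e (nat_lit 1428) (nat_lit 108) (.e (nat_lit 336369) (nat_lit 27) (.e (nat_lit 426109) (nat_lit 1) (.e (nat_lit 164163) (nat_lit 152) .nil)))))))) (.g (nat_lit 6) .nil .nil))) 
(.lf (nat_lit 33751) (.g (nat_lit 638) (.e (nat_lit 1209) (nat_lit 89) (.e (nat_lit 73753) (nat_lit 8) (.e (nat_lit 557101) (nat_lit 13) .nil))) .nil))) (.nd (nat_lit 6) 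
(.lf (nat_lit 33719) (.g (nat_lit 1375) (.e (nat_lit 1209) (nat_lit 89) (.e (nat_lit 73753) (nat_lit 8) (.e (nat_lit 557096) (nat_lit 13) (.e (nat_lit 179968) (nat_lit 20) .nil)))) .nil)) 
(.lf (nat_lit 33783) (.g (nat_lit 2714) (.e (nat_lit 1209) (nat_lit 89) (.e (nat_lit 73775) (nat_lit 26) (.e (nat_lit 778465) (nat_lit 11) (.e (nat_lit 24665) (nat_lit 14) (.e (nat_lit 401472) (nat_lit 28) .nil))))) .nil))))) (.nd (nat_lit 4) (.nd (nat_lit 5) (.nd (nat_lit 6) 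
(.lf (nat_lit 33679) (.g (nat_lit 3020) (.e (nat_lit 1209) (nat_lit 89) (.e (nat_lit 73747) (nat_lit 3) (.e (nat_lit 516176) (nat_lit 14) (.e (nat_lit 466981) (nat_lit 23) (.e (nat_lit 204829) (nat_lit 18) (.e (nat_lit 65280) (nat_lit 221) .nil)))))) (.g (nat_lit 4) .nil .nil))) 
(.lf (nat_lit 33743) (.g (nat_lit 2109) (.e (nat_lit 1209) (nat_lit 89) (.e (nat_lit 73753) (nat_lit 8) (.e (nat_lit 557100) (nat_lit 13) (.e (nat_lit 172065) (nat_lit 3) .nil)))) .nil))) (.nd (nat_lit 6) 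
(.lf (nat_lit 33711) (.g (nat_lit 2777) (.e (nat_lit 1209) (nat_lit 89) (.e (nat_lit 73753) (nat_lit 8) (.e (nat_lit 557094) (nat_lit 12) (.e (nat_lit 164238) (nat_lit 187) (.e (nat_lit 1661) (nat_lit 115) (.e (nat_lit 393251) (nat_lit 18) (.e (nat_lit 164163) (nat_lit 152) .nil))))))) (.g (nat_lit 5) .nil .nil))) 
(.lf (nat_lit 33775) (.g (nat_lit 842) (.e (nat_lit 1209) (nat_lit 89) (.e (nat_lit 73755) (nat_lit 8) (.e (nat_lit 557103) (nat_lit 14) .nil))) .nil)))) (.nd (nat_lit 5) (.nd (nat_lit 6) 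
(.lf (nat_lit 33695) (.g (nat_lit 2602) (.e (nat_lit 1209) (nat_lit 89) (.e (nat_lit 73753) (nat_lit 8) (.e (nat_lit 557091) (nat_lit 12) (.e (nat_lit 164238) (nat_lit 187) (.e (nat_lit 1661) (nat_lit 115) (.e (nat_lit 393253) (nat_lit 18) (.e (nat_lit 164163) (nat_lit 152) .nil))))))) (.g (nat_lit 4) .nil .nil))) 
(.lf (nat_lit 33759) (.g (nat_lit 2432) (.e (nat_lit 1209) (nat_lit 89) (.e (nat_lit 73753) (nat_lit 8) (.e (nat_lit 557103) (nat_lit 14) (.e (nat_lit 180244) (nat_lit 5) (.e (nat_lit 532575) (nat_lit 17) .nil))))) .nil))) (.nd (nat_lit 6) 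
(.lf (nat_lit 33727) (.g (nat_lit 1738) (.e (nat_lit 1209) (nat_lit 89) (.e (nat_lit 73753) (nat_lit 8) (.e (nat_lit 557098) (nat_lit 13) (.e (nat_lit 172067) (nat_lit 3) .nil)))) .nil)) 
(.lf (nat_lit 33791) (.g (nat_lit 2480) (.e (nat_lit 1209) (nat_lit 89) (.e (nat_lit 73781) (nat_lit 32) (.e (nat_lit 2681) (nat_lit 168) (.e (nat_lit 204869) (nat_lit 29) (.e (nat_lit 360448) (nat_lit 0) (.e (nat_lit 3975) (nat_lit 239) .nil)))))) (.g (nat_lit 4) .nil .nil))))))))))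

noncomputable def tv471 : DT := (.nd (nat_lit 0) (.nd (nat_lit 1) (.nd (nat_lit 2) (.nd (nat_lit 3) (.nd (nat_lit 4) (.nd (nat_lit 5) 
(.lf (nat_lit 33792) (.g (nat_lit 1923) (.e (nat_lit 1209) (nat_lit 89) (.e (nat_lit 73781) (nat_lit 32) (.e (nat_lit 2682) (nat_lit 168) (.e (nat_lit 204838) (nat_lit 20) (.e (nat_lit 114702) (nat_lit 20) .nil))))) .nil)) 
(.lf (nat_lit 33824) (.g (nat_lit 1648) (.e (nat_lit 1209) (nat_lit 89) (.e (nat_lit 73781) (nat_lit 32) (.e (nat_lit 2857) (nat_lit 184) (.e (nat_lit 426546) (nat_lit 30) (.e (nat_lit 368384) (nat_lit 0) (.e (nat_lit 5902) (nat_lit 320) .nil)))))) (.g (nat_lit 4) .nil .nil)))) (.nd (nat_lit 5) 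
(.lf (nat_lit 33808) (.g (nat_lit 3352) (.e (nat_lit 1209) (nat_lit 89) (.e (nat_lit 73781) (nat_lit 32) (.e (nat_lit 2856) (nat_lit 184) (.e (nat_lit 426542) (nat_lit 29) (.e (nat_lit 352309) (nat_lit 21) (.e (nat_lit 57871) (nat_lit 264) .nil)))))) (.g (nat_lit 6) .nil .nil))) 
(.lf (nat_lit 33840) (.g (nat_lit 2715) (.e (nat_lit 1209) (nat_lit 89) (.e (nat_lit 73781) (nat_lit 32) (.e (nat_lit 3088) (nat_lit 191) (.e (nat_lit 483393) (nat_lit 23) (.e (nat_lit 335995) (nat_lit 1) (.e (nat_lit 57870) (nat_lit 264) .nil)))))) (.g (nat_lit 5) .nil .nil))))) (.nd (nat_lit 4) (.nd (nat_lit 5) 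
(.lf (nat_lit 33800) (.g (nat_lit 1102) (.e (nat_lit 1209) (nat_lit 89) (.e (nat_lit 73781) (nat_lit 32) (.e (nat_lit 2856) (nat_lit 184) (.e (nat_lit 426533) (nat_lit 28) .nil)))) .nil)) 
(.lf (nat_lit 33832) (.g (nat_lit 326) (.e (nat_lit 1209) (nat_lit 89) (.e (nat_lit 73781) (nat_lit 32) (.e (nat_lit 3088) (nat_lit 191) .nil))) .nil))) (.nd (nat_lit 5) 
(.lf (nat_lit 33816) (.g (nat_lit 3552) (.e (nat_lit 1209) (nat_lit 89) (.e (nat_lit 73781) (nat_lit 32) (.e (nat_lit 2856) (nat_lit 184) (.e (nat_lit 426555) (nat_lit 32) (.e (nat_lit 376859) (nat_lit 21) (.e (nat_lit 57872) (nat_lit 264) .nil)))))) (.g (nat_lit 6) .nil .nil))) 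
(.lf (nat_lit 33848) (.g (nat_lit 2402) (.e (nat_lit 1209) (nat_lit 89) (.e (nat_lit 73781) (nat_lit 32) (.e (nat_lit 3089) (nat_lit 191) (.e (nat_lit 483383) (nat_lit 23) (.e (nat_lit 336000) (nat_lit 1) (.e (nat_lit 57871) (nat_lit 264) .nil)))))) (.g (nat_lit 5) .nil .nil)))))) (.nd (nat_lit 3) (.nd (nat_lit 4) (.nd (nat_lit 5) 
(.lf (nat_lit 33796) (.g (nat_lit 2197) (.e (nat_lit 1209) (nat_lit 89) (.e (nat_lit 73781) (nat_lit 32) (.e (nat_lit 2682) (nat_lit 168) (.e (nat_lit 204869) (nat_lit 29) (.e (nat_lit 368384) (nat_lit 0) (.e (nat_lit 3971) (nat_lit 239) .nil)))))) (.g (nat_lit 4) .nil .nil))) 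
(.lf (nat_lit 33828) (.g (nat_lit 2403) (.e (nat_lit 1209) (nat_lit 89) (.e (nat_lit 73781) (nat_lit 32) (.e (nat_lit 2857) (nat_lit 184) (.e (nat_lit 426555) (nat_lit 32) (.e (nat_lit 376860) (nat_lit 21) (.e (nat_lit 57870) (nat_lit 264) .nil)))))) (.g (nat_lit 4) .nil .nil)))) (.nd (nat_lit 5) 
(.lf (nat_lit 33812) (.g (nat_lit 1903) (.e (nat_lit 1209) (nat_lit 89) (.e (nat_lit 73781) (nat_lit 32) (.e (nat_lit 2856) (nat_lit 184) (.e (nat_lit 426546) (nat_lit 30) (.e (nat_lit 368384) (nat_lit 0) (.e (nat_lit 5902) (nat_lit 320) .nil)))))) (.g (nat_lit 4) .nil .nil))) 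
(.lf (nat_lit 33844) (.g (nat_lit 2165) (.e (nat_lit 1209) (nat_lit 89) (.e (nat_lit 73781) (nat_lit 32) (.e (nat_lit 3088) (nat_lit 191) (.e (nat_lit 483413) (nat_lit 27) (.e (nat_lit 401420) (nat_lit 1) (.e (nat_lit 164422) (nat_lit 272) .nil)))))) (.g (nat_lit 4) .nil .nil))))) (.nd (nat_lit 4) (.nd (nat_lit 5) 
(.lf (nat_lit 33804) (.g (nat_lit 1988) (.e (nat_lit 1209) (nat_lit 89) (.e (nat_lit 73781) (nat_lit 32) (.e (nat_lit 2856) (nat_lit 184) (.e (nat_lit 426542) (nat_lit 29) (.e (nat_lit 352290) (nat_lit 20) .nil))))) .nil)) 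
(.lf (nat_lit 33836) (.g (nat_lit 2538) (.e (nat_lit 1209) (nat_lit 89) (.e (nat_lit 73781) (nat_lit 32) (.e (nat_lit 3088) (nat_lit 191) (.e (nat_lit 483383) (nat_lit 23) (.e (nat_lit 336000) (nat_lit 1) (.e (nat_lit 57873) (nat_lit 264) .nil)))))) (.g (nat_lit 5) .nil .nil)))) (.nd (nat_lit 5) 
(.lf (nat_lit 33820) (.g (nat_lit 2917) (.e (nat_lit 1209) (nat_lit 89) (.e (nat_lit 73781) (nat_lit 32) (.e (nat_lit 2857) (nat_lit 184) (.e (nat_lit 426542) (nat_lit 29) (.e (nat_lit 352307) (nat_lit 21) (.e (nat_lit 57871) (nat_lit 264) .nil)))))) (.g (nat_lit 6) .nil .nil))) 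
(.lf (nat_lit 33852) (.g (nat_lit 2846) (.e (nat_lit 1209) (nat_lit 89) (.e (nat_lit 73781) (nat_lit 32) (.e (nat_lit 3089) (nat_lit 191) (.e (nat_lit 483393) (nat_lit 23) (.e (nat_lit 335988) (nat_lit 1) (.e (nat_lit 57870) (nat_lit 264) .nil)))))) (.g (nat_lit 6) .nil .nil))))))) (.nd (nat_lit 2) (.nd (nat_lit 3) (.nd (nat_lit 4) (.nd (nat_lit 5) 
(.lf (nat_lit 33794) (.g (nat_lit 4381) (.e (nat_lit 1209) (nat_lit 89) (.e (nat_lit 73781) (nat_lit 32) (.e (nat_lit 2682) (nat_lit 168) (.e (nat_lit 204869) (nat_lit 29) (.e (nat_lit 360456) (nat_lit 0) (.e (nat_lit 3962) (nat_lit 239) .nil)))))) (.g (nat_lit 5) .nil .nil))) 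
(.lf (nat_lit 33826) (.g (nat_lit 2633) (.e (nat_lit 1209) (nat_lit 89) (.e (nat_lit 73781) (nat_lit 32) (.e (nat_lit 2857) (nat_lit 184) (.e (nat_lit 426555) (nat_lit 32) (.e (nat_lit 376859) (nat_lit 21) (.e (nat_lit 57870) (nat_lit 264) .nil)))))) (.g (nat_lit 5) .nil .nil)))) (.nd (nat_lit 5) 
(.lf (nat_lit 33810) (.g (nat_lit 1882) (.e (nat_lit 1209) (nat_lit 89) (.e (nat_lit 73781) (nat_lit 32) (.e (nat_lit 2856) (nat_lit 184) (.e (nat_lit 426544) (nat_lit 30) (.e (nat_lit 368384) (nat_lit 0) (.e (nat_lit 5902) (nat_lit 320) .nil)))))) (.g (nat_lit 4) .nil .nil))) 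
(.lf (nat_lit 33842) (.g (nat_lit 1909) (.e (nat_lit 1209) (nat_lit 89) (.e (nat_lit 73781) (nat_lit 32) (.e (nat_lit 3088) (nat_lit 191) (.e (nat_lit 483413) (nat_lit 27) (.e (nat_lit 401414) (nat_lit 0) (.e (nat_lit 2425) (nat_lit 157) (.e (nat_lit 4616) (nat_lit 269) .nil))))))) (.g (nat_lit 4) .nil .nil))))) (.nd (nat_lit 4) (.nd (nat_lit 5) 
(.lf (nat_lit 33802) (.g (nat_lit 1896) (.e (nat_lit 1209) (nat_lit 89) (.e (nat_lit 73781) (nat_lit 32) (.e (nat_lit 2856) (nat_lit 184) (.e (nat_lit 426533) (nat_lit 28) (.e (nat_lit 344074) (nat_lit 13) .nil))))) .nil)) 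
(.lf (nat_lit 33834) (.g (nat_lit 2388) (.e (nat_lit 1209) (nat_lit 89) (.e (nat_lit 73781) (nat_lit 32) (.e (nat_lit 3088) (nat_lit 191) (.e (nat_lit 483378) (nat_lit 23) (.e (nat_lit 335997) (nat_lit 1) (.e (nat_lit 57871) (nat_lit 264) .nil)))))) (.g (nat_lit 6) .nil .nil)))) (.nd (nat_lit 5) 
(.lf (nat_lit 33818) (.g (nat_lit 1715) (.e (nat_lit 1209) (nat_lit 89) (.e (nat_lit 73781) (nat_lit 32) (.e (nat_lit 2856) (nat_lit 184) (.e (nat_lit 426556) (nat_lit 32) (.e (nat_lit 376859) (nat_lit 21) .nil))))) .nil)) 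
(.lf (nat_lit 33850) (.g (nat_lit 924) (.e (nat_lit 1209) (nat_lit 89) (.e (nat_lit 73781) (nat_lit 32) (.e (nat_lit 3089) (nat_lit 191) (.e (nat_lit 483393) (nat_lit 23) .nil)))) .nil))))) (.nd (nat_lit 3) (.nd (nat_lit 4) (.nd (nat_lit 5) 
(.lf (nat_lit 33798) (.g (nat_lit 2277) (.e (nat_lit 1209) (nat_lit 89) (.e (nat_lit 73781) (nat_lit 32) (.e (nat_lit 2682) (nat_lit 168) (.e (nat_lit 204869) (nat_lit 29) (.e (nat_lit 368384) (nat_lit 0) (.e (nat_lit 3975) (nat_lit 239) .nil)))))) (.g (nat_lit 4) .nil .nil))) 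
(.lf (nat_lit 33830) (.g (nat_lit 1916) (.e (nat_lit 1209) (nat_lit 89) (.e (nat_lit 73781) (nat_lit 32) (.e (nat_lit 3087) (nat_lit 191) (.e (nat_lit 483378) (nat_lit 23) (.e (nat_lit 335997) (nat_lit 1) (.e (nat_lit 57871) (nat_lit 264) .nil)))))) (.g (nat_lit 5) .nil .nil)))) (.nd (nat_lit 5) 
(.lf (nat_lit 33814) (.g (nat_lit 3464) (.e (nat_lit 1209) (nat_lit 89) (.e (nat_lit 73781) (nat_lit 32) (.e (nat_lit 2856) (nat_lit 184) (.e (nat_lit 426555) (nat_lit 32) (.e (nat_lit 376857) (nat_lit 21) (.e (nat_lit 57872) (nat_lit 264) .nil)))))) (.g (nat_lit 6) .nil .nil))) 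
(.lf (nat_lit 33846) (.g (nat_lit 333) (.e (nat_lit 1209) (nat_lit 89) (.e (nat_lit 73781) (nat_lit 32) (.e (nat_lit 3089) (nat_lit 191) .nil))) .nil)))) (.nd (nat_lit 4) (.nd (nat_lit 5) 
(.lf (nat_lit 33806) (.g (nat_lit 3455) (.e (nat_lit 1209) (nat_lit 89) (.e (nat_lit 73781) (nat_lit 32) (.e (nat_lit 2856) (nat_lit 184) (.e (nat_lit 426542) (nat_lit 29) (.e (nat_lit 352307) (nat_lit 21) (.e (nat_lit 57871) (nat_lit 264) .nil)))))) (.g (nat_lit 6) .nil .nil))) 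
(.lf (nat_lit 33838) (.g (nat_lit 2362) (.e (nat_lit 1209) (nat_lit 89) (.e (nat_lit 73781) (nat_lit 32) (.e (nat_lit 3088) (nat_lit 191) (.e (nat_lit 483393) (nat_lit 23) (.e (nat_lit 335986) (nat_lit 1) (.e (nat_lit 57872) (nat_lit 264) .nil)))))) (.g (nat_lit 5) .nil .nil)))) (.nd (nat_lit 5) 
(.lf (nat_lit 33822) (.g (nat_lit 2830) (.e (nat_lit 1209) (nat_lit 89) (.e (nat_lit 73781) (nat_lit 32) (.e (nat_lit 2857) (nat_lit 184) (.e (nat_lit 426542) (nat_lit 29) (.e (nat_lit 352309) (nat_lit 21) (.e (nat_lit 57871) (nat_lit 264) .nil)))))) (.g (nat_lit 6) .nil .nil))) 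
(.lf (nat_lit 33854) (.g (nat_lit 3232) (.e (nat_lit 1209) (nat_lit 89) (.e (nat_lit 73781) (nat_lit 32) (.e (nat_lit 3089) (nat_lit 191) (.e (nat_lit 483393) (nat_lit 23) (.e (nat_lit 335995) (nat_lit 1) (.e (nat_lit 57872) (nat_lit 264) .nil)))))) (.g (nat_lit 6) .nil .nil)))))))) (.nd (nat_lit 1) (.nd (nat_lit 2) (.nd (nat_lit 3) (.nd (nat_lit 4) (.nd (nat_lit 5) 
(.lf (nat_lit 33793) (.g (nat_lit 4027) (.e (nat_lit 1209) (nat_lit 89) (.e (nat_lit 73781) (nat_lit 32) (.e (nat_lit 2682) (nat_lit 168) (.e (nat_lit 204869) (nat_lit 29) (.e (nat_lit 360448) (nat_lit 0) (.e (nat_lit 3972) (nat_lit 239) .nil)))))) (.g (nat_lit 5) .nil .nil))) 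
(.lf (nat_lit 33825) (.g (nat_lit 3202) (.e (nat_lit 1209) (nat_lit 89) (.e (nat_lit 73781) (nat_lit 32) (.e (nat_lit 2857) (nat_lit 184) (.e (nat_lit 426555) (nat_lit 32) (.e (nat_lit 376857) (nat_lit 21) (.e (nat_lit 57873) (nat_lit 264) .nil)))))) (.g (nat_lit 6) .nil .nil)))) (.nd (nat_lit 5) 
(.lf (nat_lit 33809) (.g (nat_lit 1101) (.e (nat_lit 1209) (nat_lit 89) (.e (nat_lit 73781) (nat_lit 32) (.e (nat_lit 2856) (nat_lit 184) (.e (nat_lit 426544) (nat_lit 30) .nil)))) .nil)) 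
(.lf (nat_lit 33841) (.g (nat_lit 3231) (.e (nat_lit 1209) (nat_lit 89) (.e (nat_lit 73781) (nat_lit 32) (.e (nat_lit 3088) (nat_lit 191) (.e (nat_lit 483393) (nat_lit 23) (.e (nat_lit 335996) (nat_lit 1) (.e (nat_lit 57870) (nat_lit 264) .nil)))))) (.g (nat_lit 6) .nil .nil))))) (.nd (nat_lit 4) (.nd (nat_lit 5) 
(.lf (nat_lit 33801) (.g (nat_lit 1625) (.e (nat_lit 1209) (nat_lit 89) (.e (nat_lit 73781) (nat_lit 32) (.e (nat_lit 2856) (nat_lit 184) (.e (nat_lit 426533) (nat_lit 28) (.e (nat_lit 352000) (nat_lit 8) .nil))))) .nil)) 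
(.lf (nat_lit 33833) (.g (nat_lit 2426) (.e (nat_lit 1209) (nat_lit 89) (.e (nat_lit 73781) (nat_lit 32) (.e (nat_lit 3088) (nat_lit 191) (.e (nat_lit 483378) (nat_lit 23) (.e (nat_lit 335997) (nat_lit 1) (.e (nat_lit 57870) (nat_lit 264) .nil)))))) (.g (nat_lit 6) .nil .nil)))) (.nd (nat_lit 5) 
(.lf (nat_lit 33817) (.g (nat_lit 3265) (.e (nat_lit 1209) (nat_lit 89) (.e (nat_lit 73781) (nat_lit 32) (.e (nat_lit 2856) (nat_lit 184) (.e (nat_lit 426555) (nat_lit 32) (.e (nat_lit 376860) (nat_lit 21) (.e (nat_lit 57870) (nat_lit 264) .nil)))))) (.g (nat_lit 6) .nil .nil))) 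
(.lf (nat_lit 33849) (.g (nat_lit 2270) (.e (nat_lit 1209) (nat_lit 89) (.e (nat_lit 73781) (nat_lit 32) (.e (nat_lit 3089) (nat_lit 191) (.e (nat_lit 483387) (nat_lit 23) (.e (nat_lit 335997) (nat_lit 1) (.e (nat_lit 57872) (nat_lit 264) .nil)))))) (.g (nat_lit 5) .nil .nil)))))) (.nd (nat_lit 3) (.nd (nat_lit 4) (.nd (nat_lit 5) 
(.lf (nat_lit 33797) (.g (nat_lit 2472) (.e (nat_lit 1209) (nat_lit 89) (.e (nat_lit 73781) (nat_lit 32) (.e (nat_lit 2682) (nat_lit 168) (.e (nat_lit 204869) (nat_lit 29) (.e (nat_lit 368384) (nat_lit 0) (.e (nat_lit 3972) (nat_lit 239) .nil)))))) (.g (nat_lit 4) .nil .nil))) 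
(.lf (nat_lit 33829) (.g (nat_lit 1923) (.e (nat_lit 1209) (nat_lit 89) (.e (nat_lit 73781) (nat_lit 32) (.e (nat_lit 3087) (nat_lit 191) (.e (nat_lit 483378) (nat_lit 23) (.e (nat_lit 335997) (nat_lit 1) (.e (nat_lit 57870) (nat_lit 264) .nil)))))) (.g (nat_lit 5) .nil .nil)))) (.nd (nat_lit 5) 
(.lf (nat_lit 33813) (.g (nat_lit 3362) (.e (nat_lit 1209) (nat_lit 89) (.e (nat_lit 73781) (nat_lit 32) (.e (nat_lit 2856) (nat_lit 184) (.e (nat_lit 426555) (nat_lit 32) (.e (nat_lit 376857) (nat_lit 21) (.e (nat_lit 57870) (nat_lit 264) .nil)))))) (.g (nat_lit 6) .nil .nil))) 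
(.lf (nat_lit 33845) (.g (nat_lit 2078) (.e (nat_lit 1209) (nat_lit 89) (.e (nat_lit 73781) (nat_lit 32) (.e (nat_lit 3088) (nat_lit 191) (.e (nat_lit 483413) (nat_lit 27) (.e (nat_lit 401421) (nat_lit 1) .nil))))) .nil)))) (.nd (nat_lit 4) (.nd (nat_lit 5) 
(.lf (nat_lit 33805) (.g (nat_lit 3252) (.e (nat_lit 1209) (nat_lit 89) (.e (nat_lit 73781) (nat_lit 32) (.e (nat_lit 2856) (nat_lit 184) (.e (nat_lit 426542) (nat_lit 29) (.e (nat_lit 352307) (nat_lit 21) (.e (nat_lit 57870) (nat_lit 264) .nil)))))) (.g (nat_lit 6) .nil .nil))) 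
(.lf (nat_lit 33837) (.g (nat_lit 1879) (.e (nat_lit 1209) (nat_lit 89) (.e (nat_lit 73781) (nat_lit 32) (.e (nat_lit 3088) (nat_lit 191) (.e (nat_lit 483393) (nat_lit 23) (.e (nat_lit 335986) (nat_lit 1) (.e (nat_lit 57870) (nat_lit 264) .nil)))))) (.g (nat_lit 4) .nil .nil)))) (.nd (nat_lit 5) 
(.lf (nat_lit 33821) (.g (nat_lit 2682) (.e (nat_lit 1209) (nat_lit 89) (.e (nat_lit 73781) (nat_lit 32) (.e (nat_lit 2857) (nat_lit 184) (.e (nat_lit 426542) (nat_lit 29) (.e (nat_lit 352309) (nat_lit 21) (.e (nat_lit 57870) (nat_lit 264) .nil)))))) (.g (nat_lit 6) .nil .nil))) 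
(.lf (nat_lit 33853) (.g (nat_lit 2581) (.e (nat_lit 1209) (nat_lit 89) (.e (nat_lit 73781) (nat_lit 32) (.e (nat_lit 3089) (nat_lit 191) (.e (nat_lit 483393) (nat_lit 23) (.e (nat_lit 335995) (nat_lit 1) (.e (nat_lit 57870) (nat_lit 264) .nil)))))) (.g (nat_lit 5) .nil .nil))))))) (.nd (nat_lit 2) (.nd (nat_lit 3) (.nd (nat_lit 4) (.nd (nat_lit 5) 
(.lf (nat_lit 33795) (.g (nat_lit 2212) (.e (nat_lit 1209) (nat_lit 89) (.e (nat_lit 73781) (nat_lit 32) (.e (nat_lit 2682) (nat_lit 168) (.e (nat_lit 204869) (nat_lit 29) (.e (nat_lit 368384) (nat_lit 0) (.e (nat_lit 3962) (nat_lit 239) .nil)))))) (.g (nat_lit 4) .nil .nil))) 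
(.lf (nat_lit 33827) (.g (nat_lit 3041) (.e (nat_lit 1209) (nat_lit 89) (.e (nat_lit 73781) (nat_lit 32) (.e (nat_lit 2857) (nat_lit 184) (.e (nat_lit 426555) (nat_lit 32) (.e (nat_lit 376859) (nat_lit 21) (.e (nat_lit 57873) (nat_lit 264) .nil)))))) (.g (nat_lit 6) .nil .nil)))) (.nd (nat_lit 5) 
(.lf (nat_lit 33811) (.g (nat_lit 1143) (.e (nat_lit 1209) (nat_lit 89) (.e (nat_lit 73781) (nat_lit 32) (.e (nat_lit 2856) (nat_lit 184) (.e (nat_lit 426546) (nat_lit 30) .nil)))) .nil)) 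
(.lf (nat_lit 33843) (.g (nat_lit 2318) (.e (nat_lit 1209) (nat_lit 89) (.e (nat_lit 73781) (nat_lit 32) (.e (nat_lit 3088) (nat_lit 191) (.e (nat_lit 483413) (nat_lit 27) (.e (nat_lit 401420) (nat_lit 1) (.e (nat_lit 164421) (nat_lit 272) .nil)))))) (.g (nat_lit 4) .nil .nil))))) (.nd (nat_lit 4) (.nd (nat_lit 5) 
(.lf (nat_lit 33803) (.g (nat_lit 974) (.e (nat_lit 1209) (nat_lit 89) (.e (nat_lit 73781) (nat_lit 32) (.e (nat_lit 2856) (nat_lit 184) (.e (nat_lit 426542) (nat_lit 29) .nil)))) .nil)) 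
(.lf (nat_lit 33835) (.g (nat_lit 2101) (.e (nat_lit 1209) (nat_lit 89) (.e (nat_lit 73781) (nat_lit 32) (.e (nat_lit 3088) (nat_lit 191) (.e (nat_lit 483383) (nat_lit 23) (.e (nat_lit 336000) (nat_lit 1) (.e (nat_lit 57872) (nat_lit 264) .nil)))))) (.g (nat_lit 4) .nil .nil)))) (.nd (nat_lit 5) 
(.lf (nat_lit 33819) (.g (nat_lit 2717) (.e (nat_lit 1209) (nat_lit 89) (.e (nat_lit 73781) (nat_lit 32) (.e (nat_lit 2857) (nat_lit 184) (.e (nat_lit 426542) (nat_lit 29) (.e (nat_lit 352307) (nat_lit 21) (.e (nat_lit 57870) (nat_lit 264) .nil)))))) (.g (nat_lit 6) .nil .nil))) 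
(.lf (nat_lit 33851) (.g (nat_lit 1724) (.e (nat_lit 1209) (nat_lit 89) (.e (nat_lit 73781) (nat_lit 32) (.e (nat_lit 3089) (nat_lit 191) (.e (nat_lit 483393) (nat_lit 23) (.e (nat_lit 335986) (nat_lit 1) (.e (nat_lit 57870) (nat_lit 264) .nil)))))) (.g (nat_lit 4) .nil .nil)))))) (.nd (nat_lit 3) (.nd (nat_lit 4) (.nd (nat_lit 5) 
(.lf (nat_lit 33799) (.g (nat_lit 2274) (.e (nat_lit 1209) (nat_lit 89) (.e (nat_lit 73781) (nat_lit 32) (.e (nat_lit 2854) (nat_lit 184) (.e (nat_lit 426555) (nat_lit 32) (.e (nat_lit 376859) (nat_lit 21) (.e (nat_lit 57870) (nat_lit 264) .nil)))))) (.g (nat_lit 5) .nil .nil))) 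
(.lf (nat_lit 33831) (.g (nat_lit 1620) (.e (nat_lit 1209) (nat_lit 89) (.e (nat_lit 73781) (nat_lit 32) (.e (nat_lit 3087) (nat_lit 191) (.e (nat_lit 483393) (nat_lit 23) (.e (nat_lit 335988) (nat_lit 1) (.e (nat_lit 57870) (nat_lit 264) .nil)))))) (.g (nat_lit 4) .nil .nil)))) (.nd (nat_lit 5) 
(.lf (nat_lit 33815) (.g (nat_lit 3220) (.e (nat_lit 1209) (nat_lit 89) (.e (nat_lit 73781) (nat_lit 32) (.e (nat_lit 2856) (nat_lit 184) (.e (nat_lit 426555) (nat_lit 32) (.e (nat_lit 376859) (nat_lit 21) (.e (nat_lit 57870) (nat_lit 264) .nil)))))) (.g (nat_lit 6) .nil .nil))) 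
(.lf (nat_lit 33847) (.g (nat_lit 1691) (.e (nat_lit 1209) (nat_lit 89) (.e (nat_lit 73781) (nat_lit 32) (.e (nat_lit 3089) (nat_lit 191) (.e (nat_lit 483383) (nat_lit 23) (.e (nat_lit 336000) (nat_lit 1) (.e (nat_lit 57870) (nat_lit 264) .nil)))))) (.g (nat_lit 4) .nil .nil))))) (.nd (nat_lit 4) (.nd (nat_lit 5) 
(.lf (nat_lit 33807) (.g (nat_lit 3204) (.e (nat_lit 1209) (nat_lit 89) (.e (nat_lit 73781) (nat_lit 32) (.e (nat_lit 2856) (nat_lit 184) (.e (nat_lit 426542) (nat_lit 29) (.e (nat_lit 352309) (nat_lit 21) (.e (nat_lit 57870) (nat_lit 264) .nil)))))) (.g (nat_lit 6) .nil .nil))) 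
(.lf (nat_lit 33839) (.g (nat_lit 2933) (.e (nat_lit 1209) (nat_lit 89) (.e (nat_lit 73781) (nat_lit 32) (.e (nat_lit 3088) (nat_lit 191) (.e (nat_lit 483393) (nat_lit 23) (.e (nat_lit 335988) (nat_lit 1) (.e (nat_lit 57870) (nat_lit 264) .nil)))))) (.g (nat_lit 6) .nil .nil)))) (.nd (nat_lit 5) 
(.lf (nat_lit 33823) (.g (nat_lit 1660) (.e (nat_lit 1209) (nat_lit 89) (.e (nat_lit 73781) (nat_lit 32) (.e (nat_lit 2857) (nat_lit 184) (.e (nat_lit 426544) (nat_lit 30) (.e (nat_lit 368384) (nat_lit 0) (.e (nat_lit 5902) (nat_lit 320) .nil)))))) (.g (nat_lit 4) .nil .nil))) 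
(.lf (nat_lit 33855) (.g (nat_lit 339) (.e (nat_lit 1209) (nat_lit 89) (.e (nat_lit 73781) (nat_lit 32) (.e (nat_lit 3090) (nat_lit 191) .nil))) .nil))))))))

noncomputable def tv472 : DT := (.nd (nat_lit 0) (.nd (nat_lit 1) (.nd (nat_lit 2) (.nd (nat_lit 3) (.nd (nat_lit 4) (.nd (nat_lit 5) 
(.lf (nat_lit 33856) (.g (nat_lit 1294) (.e (nat_lit 1209) (nat_lit 89) (.e (nat_lit 73781) (nat_lit 32) (.e (nat_lit 3090) (nat_lit 191) (.e (nat_lit 483347) (nat_lit 17) .nil)))) .nil)) 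
(.lf (nat_lit 33888) (.g (nat_lit 1956) (.e (nat_lit 1209) (nat_lit 89) (.e (nat_lit 73782) (nat_lit 32) (.e (nat_lit 2681) (nat_lit 168) (.e (nat_lit 204866) (nat_lit 28) (.e (nat_lit 352318) (nat_lit 24) (.e (nat_lit 123040) (nat_lit 140) .nil)))))) (.g (nat_lit 4) .nil .nil)))) (.nd (nat_lit 5) 
(.lf (nat_lit 33872) (.g (nat_lit 2518) (.e (nat_lit 1209) (nat_lit 89) (.e (nat_lit 73781) (nat_lit 32) (.e (nat_lit 3090) (nat_lit 191) (.e (nat_lit 483372) (nat_lit 21) (.e (nat_lit 319516) (nat_lit 11) .nil))))) .nil)) 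
(.lf (nat_lit 33904) (.g (nat_lit 1571) (.e (nat_lit 1209) (nat_lit 89) (.e (nat_lit 73782) (nat_lit 32) (.e (nat_lit 2855) (nat_lit 184) (.e (nat_lit 426544) (nat_lit 30) (.e (nat_lit 368384) (nat_lit 0) (.e (nat_lit 5906) (nat_lit 320) .nil)))))) (.g (nat_lit 4) .nil .nil))))) (.nd (nat_lit 4) (.nd (nat_lit 5) 
(.lf (nat_lit 33864) (.g (nat_lit 3461) (.e (nat_lit 1209) (nat_lit 89) (.e (nat_lit 73781) (nat_lit 32) (.e (nat_lit 3090) (nat_lit 191) (.e (nat_lit 483372) (nat_lit 21) (.e (nat_lit 319504) (nat_lit 10) (.e (nat_lit 16) (nat_lit 0) (.e (nat_lit 4602) (nat_lit 269) .nil))))))) (.g (nat_lit 5) .nil .nil))) 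
(.lf (nat_lit 33896) (.g (nat_lit 2247) (.e (nat_lit 1209) (nat_lit 89) (.e (nat_lit 73782) (nat_lit 32) (.e (nat_lit 2682) (nat_lit 168) (.e (nat_lit 204869) (nat_lit 29) (.e (nat_lit 368384) (nat_lit 0) (.e (nat_lit 3971) (nat_lit 239) .nil)))))) (.g (nat_lit 4) .nil .nil)))) (.nd (nat_lit 5) 
(.lf (nat_lit 33880) (.g (nat_lit 1988) (.e (nat_lit 1209) (nat_lit 89) (.e (nat_lit 73781) (nat_lit 32) (.e (nat_lit 3090) (nat_lit 191) (.e (nat_lit 483393) (nat_lit 23) (.e (nat_lit 335986) (nat_lit 1) (.e (nat_lit 57870) (nat_lit 264) .nil)))))) (.g (nat_lit 4) .nil .nil))) 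
(.lf (nat_lit 33912) (.g (nat_lit 2410) (.e (nat_lit 1209) (nat_lit 89) (.e (nat_lit 73782) (nat_lit 32) (.e (nat_lit 2856) (nat_lit 184) (.e (nat_lit 426530) (nat_lit 27) (.e (nat_lit 336131) (nat_lit 9) (.e (nat_lit 335995) (nat_lit 1) (.e (nat_lit 57872) (nat_lit 264) .nil))))))) (.g (nat_lit 4) .nil .nil)))))) (.nd (nat_lit 3) (.nd (nat_lit 4) (.nd (nat_lit 5) 
(.lf (nat_lit 33860) (.g (nat_lit 3192) (.e (nat_lit 1209) (nat_lit 89) (.e (nat_lit 73781) (nat_lit 32) (.e (nat_lit 3090) (nat_lit 191) (.e (nat_lit 483372) (nat_lit 21) (.e (nat_lit 319491) (nat_lit 0) .nil))))) .nil)) 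
(.lf (nat_lit 33892) (.g (nat_lit 1917) (.e (nat_lit 1209) (nat_lit 89) (.e (nat_lit 73782) (nat_lit 32) (.e (nat_lit 2682) (nat_lit 168) (.e (nat_lit 204838) (nat_lit 20) (.e (nat_lit 114702) (nat_lit 20) (.e (nat_lit 2200) (nat_lit 144) (.e (nat_lit 720933) (nat_lit 21) (.e (nat_lit 57870) (nat_lit 264) .nil)))))))) (.g (nat_lit 4) .nil .nil)))) (.nd (nat_lit 5) 
(.lf (nat_lit 33876) (.g (nat_lit 1310) (.e (nat_lit 1209) (nat_lit 89) (.e (nat_lit 73781) (nat_lit 32) (.e (nat_lit 3090) (nat_lit 191) (.e (nat_lit 483386) (nat_lit 23) .nil)))) .nil)) 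
(.lf (nat_lit 33908) (.g (nat_lit 2111) (.e (nat_lit 1209) (nat_lit 89) (.e (nat_lit 73782) (nat_lit 32) (.e (nat_lit 2856) (nat_lit 184) (.e (nat_lit 426489) (nat_lit 27) (.e (nat_lit 336157) (nat_lit 9) .nil))))) .nil)))) (.nd (nat_lit 4) (.nd (nat_lit 5) 
(.lf (nat_lit 33868) (.g (nat_lit 1460) (.e (nat_lit 1209) (nat_lit 89) (.e (nat_lit 73781) (nat_lit 32) (.e (nat_lit 3090) (nat_lit 191) (.e (nat_lit 483372) (nat_lit 21) (.e (nat_lit 319505) (nat_lit 10) .nil))))) .nil)) 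
(.lf (nat_lit 33900) (.g (nat_lit 3049) (.e (nat_lit 1209) (nat_lit 89) (.e (nat_lit 73782) (nat_lit 32) (.e (nat_lit 2854) (nat_lit 184) (.e (nat_lit 426542) (nat_lit 29) (.e (nat_lit 352309) (nat_lit 21) (.e (nat_lit 57873) (nat_lit 264) .nil)))))) (.g (nat_lit 0) .nil .nil)))) (.nd (nat_lit 5) 
(.lf (nat_lit 33884) (.g (nat_lit 3240) (.e (nat_lit 1209) (nat_lit 89) (.e (nat_lit 73781) (nat_lit 32) (.e (nat_lit 3090) (nat_lit 191) (.e (nat_lit 483393) (nat_lit 23) (.e (nat_lit 335996) (nat_lit 1) (.e (nat_lit 57870) (nat_lit 264) .nil)))))) (.g (nat_lit 5) .nil .nil))) 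
(.lf (nat_lit 33916) (.g (nat_lit 2020) (.e (nat_lit 1209) (nat_lit 89) (.e (nat_lit 73782) (nat_lit 32) (.e (nat_lit 2856) (nat_lit 184) (.e (nat_lit 426542) (nat_lit 29) (.e (nat_lit 352290) (nat_lit 20) .nil))))) .nil)))))) (.nd (nat_lit 2) (.nd (nat_lit 3) (.nd (nat_lit 4) (.nd (nat_lit 5) 
(.lf (nat_lit 33858) (.g (nat_lit 1756) (.e (nat_lit 1209) (nat_lit 89) (.e (nat_lit 73781) (nat_lit 32) (.e (nat_lit 3090) (nat_lit 191) (.e (nat_lit 483350) (nat_lit 17) (.e (nat_lit 6113) (nat_lit 332) .nil))))) .nil)) 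
(.lf (nat_lit 33890) (.g (nat_lit 2594) (.e (nat_lit 1209) (nat_lit 89) (.e (nat_lit 73782) (nat_lit 32) (.e (nat_lit 2681) (nat_lit 168) (.e (nat_lit 204869) (nat_lit 29) (.e (nat_lit 360448) (nat_lit 0) (.e (nat_lit 3975) (nat_lit 239) .nil)))))) (.g (nat_lit 4) .nil .nil)))) (.nd (nat_lit 5) 
(.lf (nat_lit 33874) (.g (nat_lit 2746) (.e (nat_lit 1209) (nat_lit 89) (.e (nat_lit 73781) (nat_lit 32) (.e (nat_lit 3090) (nat_lit 191) (.e (nat_lit 483380) (nat_lit 23) (.e (nat_lit 335973) (nat_lit 0) .nil))))) .nil)) 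
(.lf (nat_lit 33906) (.g (nat_lit 1840) (.e (nat_lit 1209) (nat_lit 89) (.e (nat_lit 73782) (nat_lit 32) (.e (nat_lit 2856) (nat_lit 184) (.e (nat_lit 426487) (nat_lit 27) .nil)))) .nil)))) (.nd (nat_lit 4) (.nd (nat_lit 5) 
(.lf (nat_lit 33866) (.g (nat_lit 3427) (.e (nat_lit 1209) (nat_lit 89) (.e (nat_lit 73781) (nat_lit 32) (.e (nat_lit 3090) (nat_lit 191) (.e (nat_lit 483372) (nat_lit 21) (.e (nat_lit 319504) (nat_lit 10) (.e (nat_lit 52) (nat_lit 0) (.e (nat_lit 4602) (nat_lit 269) .nil))))))) (.g (nat_lit 5) .nil .nil))) 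
(.lf (nat_lit 33898) (.g (nat_lit 2291) (.e (nat_lit 1209) (nat_lit 89) (.e (nat_lit 73782) (nat_lit 32) (.e (nat_lit 2682) (nat_lit 168) (.e (nat_lit 204869) (nat_lit 29) (.e (nat_lit 368384) (nat_lit 0) (.e (nat_lit 3975) (nat_lit 239) .nil)))))) (.g (nat_lit 4) .nil .nil)))) (.nd (nat_lit 5) 
(.lf (nat_lit 33882) (.g (nat_lit 2360) (.e (nat_lit 1209) (nat_lit 89) (.e (nat_lit 73781) (nat_lit 32) (.e (nat_lit 3090) (nat_lit 191) (.e (nat_lit 483393) (nat_lit 23) (.e (nat_lit 335987) (nat_lit 1) (.e (nat_lit 57870) (nat_lit 264) .nil)))))) (.g (nat_lit 4) .nil .nil))) 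
(.lf (nat_lit 33914) (.g (nat_lit 1714) (.e (nat_lit 1209) (nat_lit 89) (.e (nat_lit 73782) (nat_lit 32) (.e (nat_lit 2856) (nat_lit 184) (.e (nat_lit 426533) (nat_lit 28) (.e (nat_lit 344074) (nat_lit 13) .nil))))) .nil))))) (.nd (nat_lit 3) (.nd (nat_lit 4) (.nd (nat_lit 5) 
(.lf (nat_lit 33862) (.g (nat_lit 2069) (.e (nat_lit 1209) (nat_lit 89) (.e (nat_lit 73781) (nat_lit 32) (.e (nat_lit 3090) (nat_lit 191) (.e (nat_lit 483372) (nat_lit 21) (.e (nat_lit 327424) (nat_lit 1) (.e (nat_lit 8439) (nat_lit 138) .nil)))))) (.g (nat_lit 4) .nil .nil))) 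
(.lf (nat_lit 33894) (.g (nat_lit 4455) (.e (nat_lit 1209) (nat_lit 89) (.e (nat_lit 73782) (nat_lit 32) (.e (nat_lit 2682) (nat_lit 168) (.e (nat_lit 204869) (nat_lit 29) (.e (nat_lit 360456) (nat_lit 0) (.e (nat_lit 3962) (nat_lit 239) .nil)))))) (.g (nat_lit 6) .nil .nil)))) (.nd (nat_lit 5) 
(.lf (nat_lit 33878) (.g (nat_lit 1991) (.e (nat_lit 1209) (nat_lit 89) (.e (nat_lit 73781) (nat_lit 32) (.e (nat_lit 3090) (nat_lit 191) (.e (nat_lit 483386) (nat_lit 23) (.e (nat_lit 335985) (nat_lit 1) (.e (nat_lit 57871) (nat_lit 264) .nil)))))) (.g (nat_lit 4) .nil .nil))) 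
(.lf (nat_lit 33910) (.g (nat_lit 2087) (.e (nat_lit 1209) (nat_lit 89) (.e (nat_lit 73782) (nat_lit 32) (.e (nat_lit 2856) (nat_lit 184) (.e (nat_lit 426491) (nat_lit 27) (.e (nat_lit 336159) (nat_lit 9) .nil))))) .nil)))) (.nd (nat_lit 4) (.nd (nat_lit 5) 
(.lf (nat_lit 33870) (.g (nat_lit 2799) (.e (nat_lit 1209) (nat_lit 89) (.e (nat_lit 73781) (nat_lit 32) (.e (nat_lit 3090) (nat_lit 191) (.e (nat_lit 483372) (nat_lit 21) (.e (nat_lit 319505) (nat_lit 10) (.e (nat_lit 34) (nat_lit 0) (.e (nat_lit 4602) (nat_lit 269) .nil))))))) (.g (nat_lit 5) .nil .nil))) 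
(.lf (nat_lit 33902) (.g (nat_lit 3210) (.e (nat_lit 1209) (nat_lit 89) (.e (nat_lit 73782) (nat_lit 32) (.e (nat_lit 2855) (nat_lit 184) (.e (nat_lit 426542) (nat_lit 29) (.e (nat_lit 352309) (nat_lit 21) (.e (nat_lit 57873) (nat_lit 264) .nil)))))) (.g (nat_lit 0) .nil .nil)))) (.nd (nat_lit 5) 
(.lf (nat_lit 33886) (.g (nat_lit 1306) (.e (nat_lit 1209) (nat_lit 89) (.e (nat_lit 73781) (nat_lit 32) (.e (nat_lit 3090) (nat_lit 191) (.e (nat_lit 483398) (nat_lit 25) .nil)))) .nil)) 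
(.lf (nat_lit 33918) (.g (nat_lit 1178) (.e (nat_lit 1209) (nat_lit 89) (.e (nat_lit 73782) (nat_lit 32) (.e (nat_lit 2856) (nat_lit 184) (.e (nat_lit 426546) (nat_lit 30) .nil)))) .nil))))))) (.nd (nat_lit 1) (.nd (nat_lit 2) (.nd (nat_lit 3) (.nd (nat_lit 4) (.nd (nat_lit 5) 
(.lf (nat_lit 33857) (.g (nat_lit 1719) (.e (nat_lit 1209) (nat_lit 89) (.e (nat_lit 73781) (nat_lit 32) (.e (nat_lit 3090) (nat_lit 191) (.e (nat_lit 483350) (nat_lit 17) (.e (nat_lit 6097) (nat_lit 332) .nil))))) .nil)) 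
(.lf (nat_lit 33889) (.g (nat_lit 2418) (.e (nat_lit 1209) (nat_lit 89) (.e (nat_lit 73782) (nat_lit 32) (.e (nat_lit 2681) (nat_lit 168) (.e (nat_lit 204869) (nat_lit 29) (.e (nat_lit 360448) (nat_lit 0) (.e (nat_lit 3972) (nat_lit 239) .nil)))))) (.g (nat_lit 4) .nil .nil)))) (.nd (nat_lit 5) 
(.lf (nat_lit 33873) (.g (nat_lit 1224) (.e (nat_lit 1209) (nat_lit 89) (.e (nat_lit 73781) (nat_lit 32) (.e (nat_lit 3090) (nat_lit 191) (.e (nat_lit 483380) (nat_lit 23) .nil)))) .nil)) 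
(.lf (nat_lit 33905) (.g (nat_lit 1834) (.e (nat_lit 1209) (nat_lit 89) (.e (nat_lit 73782) (nat_lit 32) (.e (nat_lit 2856) (nat_lit 184) (.e (nat_lit 426486) (nat_lit 27) .nil)))) .nil)))) (.nd (nat_lit 4) (.nd (nat_lit 5) 
(.lf (nat_lit 33865) (.g (nat_lit 3633) (.e (nat_lit 1209) (nat_lit 89) (.e (nat_lit 73781) (nat_lit 32) (.e (nat_lit 3090) (nat_lit 191) (.e (nat_lit 483372) (nat_lit 21) (.e (nat_lit 319504) (nat_lit 10) (.e (nat_lit 34) (nat_lit 0) (.e (nat_lit 4602) (nat_lit 269) .nil))))))) (.g (nat_lit 5) .nil .nil))) 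
(.lf (nat_lit 33897) (.g (nat_lit 2515) (.e (nat_lit 1209) (nat_lit 89) (.e (nat_lit 73782) (nat_lit 32) (.e (nat_lit 2682) (nat_lit 168) (.e (nat_lit 204869) (nat_lit 29) (.e (nat_lit 368384) (nat_lit 0) (.e (nat_lit 3972) (nat_lit 239) .nil)))))) (.g (nat_lit 4) .nil .nil)))) (.nd (nat_lit 5) 
(.lf (nat_lit 33881) (.g (nat_lit 2801) (.e (nat_lit 1209) (nat_lit 89) (.e (nat_lit 73781) (nat_lit 32) (.e (nat_lit 3090) (nat_lit 191) (.e (nat_lit 483393) (nat_lit 23) (.e (nat_lit 335986) (nat_lit 1) (.e (nat_lit 57871) (nat_lit 264) .nil)))))) (.g (nat_lit 5) .nil .nil))) 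
(.lf (nat_lit 33913) (.g (nat_lit 915) (.e (nat_lit 1209) (nat_lit 89) (.e (nat_lit 73782) (nat_lit 32) (.e (nat_lit 2856) (nat_lit 184) (.e (nat_lit 426533) (nat_lit 28) .nil)))) .nil))))) (.nd (nat_lit 3) (.nd (nat_lit 4) (.nd (nat_lit 5) 
(.lf (nat_lit 33861) (.g (nat_lit 2544) (.e (nat_lit 1209) (nat_lit 89) (.e (nat_lit 73781) (nat_lit 32) (.e (nat_lit 3090) (nat_lit 191) (.e (nat_lit 483372) (nat_lit 21) (.e (nat_lit 319494) (nat_lit 0) .nil))))) .nil)) 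
(.lf (nat_lit 33893) (.g (nat_lit 4065) (.e (nat_lit 1209) (nat_lit 89) (.e (nat_lit 73782) (nat_lit 32) (.e (nat_lit 2682) (nat_lit 168) (.e (nat_lit 204869) (nat_lit 29) (.e (nat_lit 360448) (nat_lit 0) (.e (nat_lit 3972) (nat_lit 239) .nil)))))) (.g (nat_lit 6) .nil .nil)))) (.nd (nat_lit 5) 
(.lf (nat_lit 33877) (.g (nat_lit 2079) (.e (nat_lit 1209) (nat_lit 89) (.e (nat_lit 73781) (nat_lit 32) (.e (nat_lit 3090) (nat_lit 191) (.e (nat_lit 483386) (nat_lit 23) (.e (nat_lit 335985) (nat_lit 1) (.e (nat_lit 57870) (nat_lit 264) .nil)))))) (.g (nat_lit 4) .nil .nil))) 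
(.lf (nat_lit 33909) (.g (nat_lit 1840) (.e (nat_lit 1209) (nat_lit 89) (.e (nat_lit 73782) (nat_lit 32) (.e (nat_lit 2856) (nat_lit 184) (.e (nat_lit 426491) (nat_lit 27) .nil)))) .nil)))) (.nd (nat_lit 4) (.nd (nat_lit 5) 
(.lf (nat_lit 33869) (.g (nat_lit 3056) (.e (nat_lit 1209) (nat_lit 89) (.e (nat_lit 73781) (nat_lit 32) (.e (nat_lit 3090) (nat_lit 191) (.e (nat_lit 483372) (nat_lit 21) (.e (nat_lit 319505) (nat_lit 10) (.e (nat_lit 16) (nat_lit 0) (.e (nat_lit 4602) (nat_lit 269) .nil))))))) (.g (nat_lit 5) .nil .nil))) 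
(.lf (nat_lit 33901) (.g (nat_lit 1350) (.e (nat_lit 1209) (nat_lit 89) (.e (nat_lit 73782) (nat_lit 32) (.e (nat_lit 2854) (nat_lit 184) (.e (nat_lit 426544) (nat_lit 30) (.e (nat_lit 368384) (nat_lit 0) (.e (nat_lit 5902) (nat_lit 320) .nil)))))) (.g (nat_lit 4) .nil .nil)))) (.nd (nat_lit 5) 
(.lf (nat_lit 33885) (.g (nat_lit 1168) (.e (nat_lit 1209) (nat_lit 89) (.e (nat_lit 73781) (nat_lit 32) (.e (nat_lit 3090) (nat_lit 191) (.e (nat_lit 483396) (nat_lit 24) .nil)))) .nil)) 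
(.lf (nat_lit 33917) (.g (nat_lit 4080) (.e (nat_lit 1209) (nat_lit 89) (.e (nat_lit 73782) (nat_lit 32) (.e (nat_lit 2856) (nat_lit 184) (.e (nat_lit 426542) (nat_lit 29) (.e (nat_lit 352309) (nat_lit 21) (.e (nat_lit 57873) (nat_lit 264) .nil)))))) (.g (nat_lit 0) .nil .nil))))))) (.nd (nat_lit 2) (.nd (nat_lit 3) (.nd (nat_lit 4) (.nd (nat_lit 5) 
(.lf (nat_lit 33859) (.g (nat_lit 1693) (.e (nat_lit 1209) (nat_lit 89) (.e (nat_lit 73781) (nat_lit 32) (.e (nat_lit 3090) (nat_lit 191) (.e (nat_lit 483350) (nat_lit 17) (.e (nat_lit 7936) (nat_lit 346) .nil))))) .nil)) 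
(.lf (nat_lit 33891) (.g (nat_lit 1922) (.e (nat_lit 1209) (nat_lit 89) (.e (nat_lit 73782) (nat_lit 32) (.e (nat_lit 2682) (nat_lit 168) (.e (nat_lit 204838) (nat_lit 20) (.e (nat_lit 114702) (nat_lit 20) (.e (nat_lit 2198) (nat_lit 144) (.e (nat_lit 720933) (nat_lit 21) (.e (nat_lit 57870) (nat_lit 264) .nil)))))))) (.g (nat_lit 4) .nil .nil)))) (.nd (nat_lit 5) 
(.lf (nat_lit 33875) (.g (nat_lit 2098) (.e (nat_lit 1209) (nat_lit 89) (.e (nat_lit 73781) (nat_lit 32) (.e (nat_lit 3090) (nat_lit 191) (.e (nat_lit 483383) (nat_lit 23) (.e (nat_lit 336000) (nat_lit 1) .nil))))) .nil)) 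
(.lf (nat_lit 33907) (.g (nat_lit 1738) (.e (nat_lit 1209) (nat_lit 89) (.e (nat_lit 73782) (nat_lit 32) (.e (nat_lit 2856) (nat_lit 184) (.e (nat_lit 426489) (nat_lit 27) .nil)))) .nil)))) (.nd (nat_lit 4) (.nd (nat_lit 5) 
(.lf (nat_lit 33867) (.g (nat_lit 2536) (.e (nat_lit 1209) (nat_lit 89) (.e (nat_lit 73781) (nat_lit 32) (.e (nat_lit 3090) (nat_lit 191) (.e (nat_lit 483372) (nat_lit 21) (.e (nat_lit 319504) (nat_lit 10) (.e (nat_lit 59) (nat_lit 0) (.e (nat_lit 4602) (nat_lit 269) .nil))))))) (.g (nat_lit 4) .nil .nil))) 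
(.lf (nat_lit 33899) (.g (nat_lit 717) (.e (nat_lit 1209) (nat_lit 89) (.e (nat_lit 73782) (nat_lit 32) (.e (nat_lit 2842) (nat_lit 184) (.e (nat_lit 426556) (nat_lit 32) .nil)))) .nil))) (.nd (nat_lit 5) 
(.lf (nat_lit 33883) (.g (nat_lit 2836) (.e (nat_lit 1209) (nat_lit 89) (.e (nat_lit 73781) (nat_lit 32) (.e (nat_lit 3090) (nat_lit 191) (.e (nat_lit 483393) (nat_lit 23) (.e (nat_lit 335988) (nat_lit 1) (.e (nat_lit 57870) (nat_lit 264) .nil)))))) (.g (nat_lit 5) .nil .nil))) 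
(.lf (nat_lit 33915) (.g (nat_lit 1003) (.e (nat_lit 1209) (nat_lit 89) (.e (nat_lit 73782) (nat_lit 32) (.e (nat_lit 2856) (nat_lit 184) (.e (nat_lit 426542) (nat_lit 29) .nil)))) .nil))))) (.nd (nat_lit 3) (.nd (nat_lit 4) (.nd (nat_lit 5) 
(.lf (nat_lit 33863) (.g (nat_lit 2992) (.e (nat_lit 1209) (nat_lit 89) (.e (nat_lit 73781) (nat_lit 32) (.e (nat_lit 3090) (nat_lit 191) (.e (nat_lit 483372) (nat_lit 21) (.e (nat_lit 319504) (nat_lit 10) (.e (nat_lit 11) (nat_lit 0) (.e (nat_lit 4616) (nat_lit 269) .nil))))))) (.g (nat_lit 5) .nil .nil))) 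
(.lf (nat_lit 33895) (.g (nat_lit 2262) (.e (nat_lit 1209) (nat_lit 89) (.e (nat_lit 73782) (nat_lit 32) (.e (nat_lit 2682) (nat_lit 168) (.e (nat_lit 204869) (nat_lit 29) (.e (nat_lit 368384) (nat_lit 0) (.e (nat_lit 3962) (nat_lit 239) .nil)))))) (.g (nat_lit 4) .nil .nil)))) (.nd (nat_lit 5) 
(.lf (nat_lit 33879) (.g (nat_lit 2112) (.e (nat_lit 1209) (nat_lit 89) (.e (nat_lit 73781) (nat_lit 32) (.e (nat_lit 3090) (nat_lit 191) (.e (nat_lit 483386) (nat_lit 23) (.e (nat_lit 335992) (nat_lit 1) (.e (nat_lit 57870) (nat_lit 264) .nil)))))) (.g (nat_lit 4) .nil .nil))) 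
(.lf (nat_lit 33911) (.g (nat_lit 1428) (.e (nat_lit 1209) (nat_lit 89) (.e (nat_lit 73782) (nat_lit 32) (.e (nat_lit 2856) (nat_lit 184) (.e (nat_lit 426509) (nat_lit 27) (.e (nat_lit 336110) (nat_lit 9) .nil))))) .nil)))) (.nd (nat_lit 4) (.nd (nat_lit 5) 
(.lf (nat_lit 33871) (.g (nat_lit 3165) (.e (nat_lit 1209) (nat_lit 89) (.e (nat_lit 73781) (nat_lit 32) (.e (nat_lit 3090) (nat_lit 191) (.e (nat_lit 483372) (nat_lit 21) (.e (nat_lit 319505) (nat_lit 10) (.e (nat_lit 52) (nat_lit 0) (.e (nat_lit 4602) (nat_lit 269) .nil))))))) (.g (nat_lit 5) .nil .nil))) 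
(.lf (nat_lit 33903) (.g (nat_lit 1335) (.e (nat_lit 1209) (nat_lit 89) (.e (nat_lit 73782) (nat_lit 32) (.e (nat_lit 2855) (nat_lit 184) (.e (nat_lit 426544) (nat_lit 30) (.e (nat_lit 368384) (nat_lit 0) (.e (nat_lit 5902) (nat_lit 320) .nil)))))) (.g (nat_lit 4) .nil .nil)))) (.nd (nat_lit 5) 
(.lf (nat_lit 33887) (.g (nat_lit 1343) (.e (nat_lit 1209) (nat_lit 89) (.e (nat_lit 73781) (nat_lit 32) (.e (nat_lit 3090) (nat_lit 191) (.e (nat_lit 483399) (nat_lit 25) .nil)))) .nil)) 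
(.lf (nat_lit 33919) (.g (nat_lit 1517) (.e (nat_lit 1209) (nat_lit 89) (.e (nat_lit 73782) (nat_lit 32) (.e (nat_lit 2856) (nat_lit 184) (.e (nat_lit 426556) (nat_lit 32) .nil)))) .nil))))))))

noncomputable def tv473 : DT := (.nd (nat_lit 0) (.nd (nat_lit 1) (.nd (nat_lit 2) (.nd (nat_lit 3) (.nd (nat_lit 4) (.nd (nat_lit 5) 
(.lf (nat_lit 33920) (.g (nat_lit 2041) (.e (nat_lit 1209) (nat_lit 89) (.e (nat_lit 73782) (nat_lit 32) (.e (nat_lit 2857) (nat_lit 184) (.e (nat_lit 426482) (nat_lit 27) (.e (nat_lit 336140) (nat_lit 9) .nil))))) .nil)) 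
(.lf (nat_lit 33952) (.g (nat_lit 1860) (.e (nat_lit 1209) (nat_lit 89) (.e (nat_lit 73782) (nat_lit 32) (.e (nat_lit 3089) (nat_lit 191) (.e (nat_lit 483383) (nat_lit 23) (.e (nat_lit 335999) (nat_lit 1) .nil))))) .nil))) (.nd (nat_lit 5) 
(.lf (nat_lit 33936) (.g (nat_lit 434) (.e (nat_lit 1209) (nat_lit 89) (.e (nat_lit 73782) (nat_lit 32) (.e (nat_lit 3088) (nat_lit 191) .nil))) .nil)) 
(.lf (nat_lit 33968) (.g (nat_lit 1905) (.e (nat_lit 1209) (nat_lit 89) (.e (nat_lit 73782) (nat_lit 32) (.e (nat_lit 3090) (nat_lit 191) (.e (nat_lit 483372) (nat_lit 21) (.e (nat_lit 327424) (nat_lit 1) (.e (nat_lit 8439) (nat_lit 138) .nil)))))) (.g (nat_lit 4) .nil .nil))))) (.nd (nat_lit 4) (.nd (nat_lit 5) 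
(.lf (nat_lit 33928) (.g (nat_lit 3315) (.e (nat_lit 1209) (nat_lit 89) (.e (nat_lit 73782) (nat_lit 32) (.e (nat_lit 2857) (nat_lit 184) (.e (nat_lit 426555) (nat_lit 32) (.e (nat_lit 376859) (nat_lit 21) (.e (nat_lit 57872) (nat_lit 264) .nil)))))) (.g (nat_lit 6) .nil .nil))) 
(.lf (nat_lit 33960) (.g (nat_lit 2488) (.e (nat_lit 1209) (nat_lit 89) (.e (nat_lit 73782) (nat_lit 32) (.e (nat_lit 3089) (nat_lit 191) (.e (nat_lit 483392) (nat_lit 23) (.e (nat_lit 335995) (nat_lit 1) (.e (nat_lit 57872) (nat_lit 264) .nil)))))) (.g (nat_lit 5) .nil .nil)))) (.nd (nat_lit 5) 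
(.lf (nat_lit 33944) (.g (nat_lit 2200) (.e (nat_lit 1209) (nat_lit 89) (.e (nat_lit 73782) (nat_lit 32) (.e (nat_lit 3088) (nat_lit 191) (.e (nat_lit 483393) (nat_lit 23) (.e (nat_lit 335986) (nat_lit 1) (.e (nat_lit 57870) (nat_lit 264) .nil)))))) (.g (nat_lit 5) .nil .nil))) 
(.lf (nat_lit 33976) (.g (nat_lit 2374) (.e (nat_lit 1209) (nat_lit 89) (.e (nat_lit 73782) (nat_lit 32) (.e (nat_lit 3090) (nat_lit 191) (.e (nat_lit 483372) (nat_lit 21) (.e (nat_lit 319516) (nat_lit 11) .nil))))) .nil))))) (.nd (nat_lit 3) (.nd (nat_lit 4) (.nd (nat_lit 5) 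
(.lf (nat_lit 33924) (.g (nat_lit 3295) (.e (nat_lit 1209) (nat_lit 89) (.e (nat_lit 73782) (nat_lit 32) (.e (nat_lit 2857) (nat_lit 184) (.e (nat_lit 426555) (nat_lit 32) (.e (nat_lit 376857) (nat_lit 21) (.e (nat_lit 57872) (nat_lit 264) .nil)))))) (.g (nat_lit 6) .nil .nil))) 
(.lf (nat_lit 33956) (.g (nat_lit 2354) (.e (nat_lit 1209) (nat_lit 89) (.e (nat_lit 73782) (nat_lit 32) (.e (nat_lit 3089) (nat_lit 191) (.e (nat_lit 483387) (nat_lit 23) (.e (nat_lit 335997) (nat_lit 1) (.e (nat_lit 57871) (nat_lit 264) .nil)))))) (.g (nat_lit 5) .nil .nil)))) (.nd (nat_lit 5) 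
(.lf (nat_lit 33940) (.g (nat_lit 2630) (.e (nat_lit 1209) (nat_lit 89) (.e (nat_lit 73782) (nat_lit 32) (.e (nat_lit 3088) (nat_lit 191) (.e (nat_lit 483383) (nat_lit 23) (.e (nat_lit 336000) (nat_lit 1) (.e (nat_lit 57873) (nat_lit 264) .nil)))))) (.g (nat_lit 5) .nil .nil))) 
(.lf (nat_lit 33972) (.g (nat_lit 3358) (.e (nat_lit 1209) (nat_lit 89) (.e (nat_lit 73782) (nat_lit 32) (.e (nat_lit 3090) (nat_lit 191) (.e (nat_lit 483372) (nat_lit 21) (.e (nat_lit 319504) (nat_lit 10) (.e (nat_lit 52) (nat_lit 0) (.e (nat_lit 4602) (nat_lit 269) .nil))))))) (.g (nat_lit 5) .nil .nil))))) (.nd (nat_lit 4) (.nd (nat_lit 5) 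
(.lf (nat_lit 33932) (.g (nat_lit 404) (.e (nat_lit 1209) (nat_lit 89) (.e (nat_lit 73782) (nat_lit 32) (.e (nat_lit 3087) (nat_lit 191) .nil))) .nil)) 
(.lf (nat_lit 33964) (.g (nat_lit 400) (.e (nat_lit 1209) (nat_lit 89) (.e (nat_lit 73782) (nat_lit 32) (.e (nat_lit 3090) (nat_lit 191) .nil))) .nil))) (.nd (nat_lit 5) 
(.lf (nat_lit 33948) (.g (nat_lit 2676) (.e (nat_lit 1209) (nat_lit 89) (.e (nat_lit 73782) (nat_lit 32) (.e (nat_lit 3088) (nat_lit 191) (.e (nat_lit 483413) (nat_lit 27) (.e (nat_lit 401420) (nat_lit 1) (.e (nat_lit 164421) (nat_lit 272) .nil)))))) (.g (nat_lit 4) .nil .nil))) 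
(.lf (nat_lit 33980) (.g (nat_lit 2455) (.e (nat_lit 1209) (nat_lit 89) (.e (nat_lit 73782) (nat_lit 32) (.e (nat_lit 3090) (nat_lit 191) (.e (nat_lit 483380) (nat_lit 23) (.e (nat_lit 335973) (nat_lit 0) .nil))))) .nil)))))) (.nd (nat_lit 2) (.nd (nat_lit 3) (.nd (nat_lit 4) (.nd (nat_lit 5) 
(.lf (nat_lit 33922) (.g (nat_lit 3650) (.e (nat_lit 1209) (nat_lit 89) (.e (nat_lit 73782) (nat_lit 32) (.e (nat_lit 2857) (nat_lit 184) (.e (nat_lit 426542) (nat_lit 29) (.e (nat_lit 352309) (nat_lit 21) (.e (nat_lit 57873) (nat_lit 264) .nil)))))) (.g (nat_lit 0) .nil .nil))) 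
(.lf (nat_lit 33954) (.g (nat_lit 3265) (.e (nat_lit 1209) (nat_lit 89) (.e (nat_lit 73782) (nat_lit 32) (.e (nat_lit 3089) (nat_lit 191) (.e (nat_lit 483383) (nat_lit 23) (.e (nat_lit 336000) (nat_lit 1) (.e (nat_lit 57873) (nat_lit 264) .nil)))))) (.g (nat_lit 0) .nil .nil)))) (.nd (nat_lit 5) 
(.lf (nat_lit 33938) (.g (nat_lit 1991) (.e (nat_lit 1209) (nat_lit 89) (.e (nat_lit 73782) (nat_lit 32) (.e (nat_lit 3088) (nat_lit 191) (.e (nat_lit 483383) (nat_lit 23) (.e (nat_lit 336000) (nat_lit 1) (.e (nat_lit 57871) (nat_lit 264) .nil)))))) (.g (nat_lit 4) .nil .nil))) 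
(.lf (nat_lit 33970) (.g (nat_lit 3392) (.e (nat_lit 1209) (nat_lit 89) (.e (nat_lit 73782) (nat_lit 32) (.e (nat_lit 3090) (nat_lit 191) (.e (nat_lit 483372) (nat_lit 21) (.e (nat_lit 319504) (nat_lit 10) (.e (nat_lit 16) (nat_lit 0) (.e (nat_lit 4602) (nat_lit 269) .nil))))))) (.g (nat_lit 5) .nil .nil))))) (.nd (nat_lit 4) (.nd (nat_lit 5) 
(.lf (nat_lit 33930) (.g (nat_lit 2825) (.e (nat_lit 1209) (nat_lit 89) (.e (nat_lit 73782) (nat_lit 32) (.e (nat_lit 2857) (nat_lit 184) (.e (nat_lit 426555) (nat_lit 32) (.e (nat_lit 376860) (nat_lit 21) (.e (nat_lit 57870) (nat_lit 264) .nil)))))) (.g (nat_lit 5) .nil .nil))) 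
(.lf (nat_lit 33962) (.g (nat_lit 3147) (.e (nat_lit 1209) (nat_lit 89) (.e (nat_lit 73782) (nat_lit 32) (.e (nat_lit 3089) (nat_lit 191) (.e (nat_lit 483393) (nat_lit 23) (.e (nat_lit 335986) (nat_lit 1) (.e (nat_lit 57873) (nat_lit 264) .nil)))))) (.g (nat_lit 0) .nil .nil)))) (.nd (nat_lit 5) 
(.lf (nat_lit 33946) (.g (nat_lit 1762) (.e (nat_lit 1209) (nat_lit 89) (.e (nat_lit 73782) (nat_lit 32) (.e (nat_lit 3088) (nat_lit 191) (.e (nat_lit 483393) (nat_lit 23) (.e (nat_lit 335994) (nat_lit 1) .nil))))) .nil)) 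
(.lf (nat_lit 33978) (.g (nat_lit 2437) (.e (nat_lit 1209) (nat_lit 89) (.e (nat_lit 73782) (nat_lit 32) (.e (nat_lit 3090) (nat_lit 191) (.e (nat_lit 483380) (nat_lit 23) (.e (nat_lit 335883) (nat_lit 0) .nil))))) .nil))))) (.nd (nat_lit 3) (.nd (nat_lit 4) (.nd (nat_lit 5) 
(.lf (nat_lit 33926) (.g (nat_lit 3076) (.e (nat_lit 1209) (nat_lit 89) (.e (nat_lit 73782) (nat_lit 32) (.e (nat_lit 2857) (nat_lit 184) (.e (nat_lit 426555) (nat_lit 32) (.e (nat_lit 376859) (nat_lit 21) (.e (nat_lit 57870) (nat_lit 264) .nil)))))) (.g (nat_lit 5) .nil .nil))) 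
(.lf (nat_lit 33958) (.g (nat_lit 1960) (.e (nat_lit 1209) (nat_lit 89) (.e (nat_lit 73782) (nat_lit 32) (.e (nat_lit 3089) (nat_lit 191) (.e (nat_lit 483389) (nat_lit 23) (.e (nat_lit 335997) (nat_lit 1) (.e (nat_lit 57871) (nat_lit 264) .nil)))))) (.g (nat_lit 5) .nil .nil)))) (.nd (nat_lit 5) 
(.lf (nat_lit 33942) (.g (nat_lit 1743) (.e (nat_lit 1209) (nat_lit 89) (.e (nat_lit 73782) (nat_lit 32) (.e (nat_lit 3088) (nat_lit 191) (.e (nat_lit 483390) (nat_lit 23) (.e (nat_lit 335997) (nat_lit 1) (.e (nat_lit 57870) (nat_lit 264) .nil)))))) (.g (nat_lit 4) .nil .nil))) 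
(.lf (nat_lit 33974) (.g (nat_lit 2642) (.e (nat_lit 1209) (nat_lit 89) (.e (nat_lit 73782) (nat_lit 32) (.e (nat_lit 3090) (nat_lit 191) (.e (nat_lit 483372) (nat_lit 21) (.e (nat_lit 319505) (nat_lit 10) (.e (nat_lit 34) (nat_lit 0) (.e (nat_lit 4602) (nat_lit 269) .nil))))))) (.g (nat_lit 5) .nil .nil))))) (.nd (nat_lit 4) (.nd (nat_lit 5) 
(.lf (nat_lit 33934) (.g (nat_lit 1322) (.e (nat_lit 1209) (nat_lit 89) (.e (nat_lit 73782) (nat_lit 32) (.e (nat_lit 3087) (nat_lit 191) (.e (nat_lit 483387) (nat_lit 23) (.e (nat_lit 335997) (nat_lit 1) (.e (nat_lit 57871) (nat_lit 264) .nil)))))) (.g (nat_lit 4) .nil .nil))) 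
(.lf (nat_lit 33966) (.g (nat_lit 3029) (.e (nat_lit 1209) (nat_lit 89) (.e (nat_lit 73782) (nat_lit 32) (.e (nat_lit 3090) (nat_lit 191) (.e (nat_lit 483372) (nat_lit 21) (.e (nat_lit 319491) (nat_lit 0) .nil))))) .nil))) (.nd (nat_lit 5) 
(.lf (nat_lit 33950) (.g (nat_lit 2156) (.e (nat_lit 1209) (nat_lit 89) (.e (nat_lit 73782) (nat_lit 32) (.e (nat_lit 3088) (nat_lit 191) (.e (nat_lit 483413) (nat_lit 27) (.e (nat_lit 401421) (nat_lit 1) (.e (nat_lit 164421) (nat_lit 272) .nil)))))) (.g (nat_lit 4) .nil .nil))) 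
(.lf (nat_lit 33982) (.g (nat_lit 1920) (.e (nat_lit 1209) (nat_lit 89) (.e (nat_lit 73782) (nat_lit 32) (.e (nat_lit 3090) (nat_lit 191) (.e (nat_lit 483380) (nat_lit 23) (.e (nat_lit 343808) (nat_lit 1) (.e (nat_lit 57871) (nat_lit 264) .nil)))))) (.g (nat_lit 4) .nil .nil)))))))) (.nd (nat_lit 1) (.nd (nat_lit 2) (.nd (nat_lit 3) (.nd (nat_lit 4) (.nd (nat_lit 5) 
(.lf (nat_lit 33921) (.g (nat_lit 1581) (.e (nat_lit 1209) (nat_lit 89) (.e (nat_lit 73782) (nat_lit 32) (.e (nat_lit 2857) (nat_lit 184) (.e (nat_lit 426542) (nat_lit 29) (.e (nat_lit 352290) (nat_lit 20) .nil))))) .nil)) 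
(.lf (nat_lit 33953) (.g (nat_lit 2740) (.e (nat_lit 1209) (nat_lit 89) (.e (nat_lit 73782) (nat_lit 32) (.e (nat_lit 3089) (nat_lit 191) (.e (nat_lit 483383) (nat_lit 23) (.e (nat_lit 336000) (nat_lit 1) (.e (nat_lit 57871) (nat_lit 264) .nil)))))) (.g (nat_lit 6) .nil .nil)))) (.nd (nat_lit 5) 
(.lf (nat_lit 33937) (.g (nat_lit 1651) (.e (nat_lit 1209) (nat_lit 89) (.e (nat_lit 73782) (nat_lit 32) (.e (nat_lit 3088) (nat_lit 191) (.e (nat_lit 483346) (nat_lit 17) (.e (nat_lit 6203) (nat_lit 332) .nil))))) .nil)) 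
(.lf (nat_lit 33969) (.g (nat_lit 2923) (.e (nat_lit 1209) (nat_lit 89) (.e (nat_lit 73782) (nat_lit 32) (.e (nat_lit 3090) (nat_lit 191) (.e (nat_lit 483372) (nat_lit 21) (.e (nat_lit 319504) (nat_lit 10) (.e (nat_lit 11) (nat_lit 0) (.e (nat_lit 4616) (nat_lit 269) .nil))))))) (.g (nat_lit 5) .nil .nil))))) (.nd (nat_lit 4) (.nd (nat_lit 5) 
(.lf (nat_lit 33929) (.g (nat_lit 3259) (.e (nat_lit 1209) (nat_lit 89) (.e (nat_lit 73782) (nat_lit 32) (.e (nat_lit 2857) (nat_lit 184) (.e (nat_lit 426555) (nat_lit 32) (.e (nat_lit 376859) (nat_lit 21) (.e (nat_lit 57873) (nat_lit 264) .nil)))))) (.g (nat_lit 6) .nil .nil))) 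
(.lf (nat_lit 33961) (.g (nat_lit 1990) (.e (nat_lit 1209) (nat_lit 89) (.e (nat_lit 73782) (nat_lit 32) (.e (nat_lit 3089) (nat_lit 191) (.e (nat_lit 483393) (nat_lit 23) (.e (nat_lit 335986) (nat_lit 1) (.e (nat_lit 57870) (nat_lit 264) .nil)))))) (.g (nat_lit 5) .nil .nil)))) (.nd (nat_lit 5) 
(.lf (nat_lit 33945) (.g (nat_lit 2650) (.e (nat_lit 1209) (nat_lit 89) (.e (nat_lit 73782) (nat_lit 32) (.e (nat_lit 3088) (nat_lit 191) (.e (nat_lit 483393) (nat_lit 23) (.e (nat_lit 335986) (nat_lit 1) (.e (nat_lit 57872) (nat_lit 264) .nil)))))) (.g (nat_lit 6) .nil .nil))) 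
(.lf (nat_lit 33977) (.g (nat_lit 2437) (.e (nat_lit 1209) (nat_lit 89) (.e (nat_lit 73782) (nat_lit 32) (.e (nat_lit 3090) (nat_lit 191) (.e (nat_lit 483380) (nat_lit 23) (.e (nat_lit 335880) (nat_lit 0) .nil))))) .nil))))) (.nd (nat_lit 3) (.nd (nat_lit 4) (.nd (nat_lit 5) 
(.lf (nat_lit 33925) (.g (nat_lit 3409) (.e (nat_lit 1209) (nat_lit 89) (.e (nat_lit 73782) (nat_lit 32) (.e (nat_lit 2857) (nat_lit 184) (.e (nat_lit 426555) (nat_lit 32) (.e (nat_lit 376857) (nat_lit 21) (.e (nat_lit 57873) (nat_lit 264) .nil)))))) (.g (nat_lit 6) .nil .nil))) 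
(.lf (nat_lit 33957) (.g (nat_lit 2322) (.e (nat_lit 1209) (nat_lit 89) (.e (nat_lit 73782) (nat_lit 32) (.e (nat_lit 3089) (nat_lit 191) (.e (nat_lit 483389) (nat_lit 23) (.e (nat_lit 335991) (nat_lit 1) (.e (nat_lit 57873) (nat_lit 264) .nil)))))) (.g (nat_lit 0) .nil .nil)))) (.nd (nat_lit 5) 
(.lf (nat_lit 33941) (.g (nat_lit 1351) (.e (nat_lit 1209) (nat_lit 89) (.e (nat_lit 73782) (nat_lit 32) (.e (nat_lit 3088) (nat_lit 191) (.e (nat_lit 483387) (nat_lit 23) (.e (nat_lit 335997) (nat_lit 1) .nil))))) .nil)) 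
(.lf (nat_lit 33973) (.g (nat_lit 2899) (.e (nat_lit 1209) (nat_lit 89) (.e (nat_lit 73782) (nat_lit 32) (.e (nat_lit 3090) (nat_lit 191) (.e (nat_lit 483372) (nat_lit 21) (.e (nat_lit 319505) (nat_lit 10) (.e (nat_lit 16) (nat_lit 0) (.e (nat_lit 4602) (nat_lit 269) .nil))))))) (.g (nat_lit 5) .nil .nil))))) (.nd (nat_lit 4) (.nd (nat_lit 5) 
(.lf (nat_lit 33933) (.g (nat_lit 1887) (.e (nat_lit 1209) (nat_lit 89) (.e (nat_lit 73782) (nat_lit 32) (.e (nat_lit 3087) (nat_lit 191) (.e (nat_lit 483383) (nat_lit 23) (.e (nat_lit 336000) (nat_lit 1) (.e (nat_lit 57873) (nat_lit 264) .nil)))))) (.g (nat_lit 4) .nil .nil))) 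
(.lf (nat_lit 33965) (.g (nat_lit 1646) (.e (nat_lit 1209) (nat_lit 89) (.e (nat_lit 73782) (nat_lit 32) (.e (nat_lit 3090) (nat_lit 191) (.e (nat_lit 483350) (nat_lit 17) (.e (nat_lit 7936) (nat_lit 346) .nil))))) .nil))) (.nd (nat_lit 5) 
(.lf (nat_lit 33949) (.g (nat_lit 2523) (.e (nat_lit 1209) (nat_lit 89) (.e (nat_lit 73782) (nat_lit 32) (.e (nat_lit 3088) (nat_lit 191) (.e (nat_lit 483413) (nat_lit 27) (.e (nat_lit 401420) (nat_lit 1) (.e (nat_lit 164422) (nat_lit 272) .nil)))))) (.g (nat_lit 4) .nil .nil))) 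
(.lf (nat_lit 33981) (.g (nat_lit 2199) (.e (nat_lit 1209) (nat_lit 89) (.e (nat_lit 73782) (nat_lit 32) (.e (nat_lit 3090) (nat_lit 191) (.e (nat_lit 483380) (nat_lit 23) (.e (nat_lit 336000) (nat_lit 1) .nil))))) .nil)))))) (.nd (nat_lit 2) (.nd (nat_lit 3) (.nd (nat_lit 4) (.nd (nat_lit 5) 
(.lf (nat_lit 33923) (.g (nat_lit 3195) (.e (nat_lit 1209) (nat_lit 89) (.e (nat_lit 73782) (nat_lit 32) (.e (nat_lit 2857) (nat_lit 184) (.e (nat_lit 426555) (nat_lit 32) (.e (nat_lit 376857) (nat_lit 21) (.e (nat_lit 57870) (nat_lit 264) .nil)))))) (.g (nat_lit 5) .nil .nil))) 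
(.lf (nat_lit 33955) (.g (nat_lit 2288) (.e (nat_lit 1209) (nat_lit 89) (.e (nat_lit 73782) (nat_lit 32) (.e (nat_lit 3089) (nat_lit 191) (.e (nat_lit 483387) (nat_lit 23) (.e (nat_lit 335997) (nat_lit 1) (.e (nat_lit 57870) (nat_lit 264) .nil)))))) (.g (nat_lit 5) .nil .nil)))) (.nd (nat_lit 5) 
(.lf (nat_lit 33939) (.g (nat_lit 2411) (.e (nat_lit 1209) (nat_lit 89) (.e (nat_lit 73782) (nat_lit 32) (.e (nat_lit 3088) (nat_lit 191) (.e (nat_lit 483383) (nat_lit 23) (.e (nat_lit 336000) (nat_lit 1) (.e (nat_lit 57872) (nat_lit 264) .nil)))))) (.g (nat_lit 5) .nil .nil))) 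
(.lf (nat_lit 33971) (.g (nat_lit 3564) (.e (nat_lit 1209) (nat_lit 89) (.e (nat_lit 73782) (nat_lit 32) (.e (nat_lit 3090) (nat_lit 191) (.e (nat_lit 483372) (nat_lit 21) (.e (nat_lit 319504) (nat_lit 10) (.e (nat_lit 34) (nat_lit 0) (.e (nat_lit 4602) (nat_lit 269) .nil))))))) (.g (nat_lit 5) .nil .nil))))) (.nd (nat_lit 4) (.nd (nat_lit 5) 
(.lf (nat_lit 33931) (.g (nat_lit 1784) (.e (nat_lit 1209) (nat_lit 89) (.e (nat_lit 73782) (nat_lit 32) (.e (nat_lit 2857) (nat_lit 184) (.e (nat_lit 426556) (nat_lit 32) (.e (nat_lit 376859) (nat_lit 21) (.e (nat_lit 57872) (nat_lit 264) .nil)))))) (.g (nat_lit 4) .nil .nil))) 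
(.lf (nat_lit 33963) (.g (nat_lit 1501) (.e (nat_lit 1209) (nat_lit 89) (.e (nat_lit 73782) (nat_lit 32) (.e (nat_lit 3089) (nat_lit 191) (.e (nat_lit 483393) (nat_lit 23) (.e (nat_lit 335994) (nat_lit 1) .nil))))) .nil))) (.nd (nat_lit 5) 
(.lf (nat_lit 33947) (.g (nat_lit 2136) (.e (nat_lit 1209) (nat_lit 89) (.e (nat_lit 73782) (nat_lit 32) (.e (nat_lit 3088) (nat_lit 191) (.e (nat_lit 483413) (nat_lit 27) (.e (nat_lit 401414) (nat_lit 0) (.e (nat_lit 2424) (nat_lit 157) (.e (nat_lit 4616) (nat_lit 269) .nil))))))) (.g (nat_lit 4) .nil .nil))) 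
(.lf (nat_lit 33979) (.g (nat_lit 2437) (.e (nat_lit 1209) (nat_lit 89) (.e (nat_lit 73782) (nat_lit 32) (.e (nat_lit 3090) (nat_lit 191) (.e (nat_lit 483380) (nat_lit 23) (.e (nat_lit 335969) (nat_lit 0) .nil))))) .nil))))) (.nd (nat_lit 3) (.nd (nat_lit 4) (.nd (nat_lit 5) 
(.lf (nat_lit 33927) (.g (nat_lit 2397) (.e (nat_lit 1209) (nat_lit 89) (.e (nat_lit 73782) (nat_lit 32) (.e (nat_lit 2857) (nat_lit 184) (.e (nat_lit 426555) (nat_lit 32) (.e (nat_lit 376859) (nat_lit 21) (.e (nat_lit 57871) (nat_lit 264) .nil)))))) (.g (nat_lit 4) .nil .nil))) 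
(.lf (nat_lit 33959) (.g (nat_lit 3065) (.e (nat_lit 1209) (nat_lit 89) (.e (nat_lit 73782) (nat_lit 32) (.e (nat_lit 3089) (nat_lit 191) (.e (nat_lit 483391) (nat_lit 23) (.e (nat_lit 335998) (nat_lit 1) (.e (nat_lit 57873) (nat_lit 264) .nil)))))) (.g (nat_lit 0) .nil .nil)))) (.nd (nat_lit 5) 
(.lf (nat_lit 33943) (.g (nat_lit 1834) (.e (nat_lit 1209) (nat_lit 89) (.e (nat_lit 73782) (nat_lit 32) (.e (nat_lit 3088) (nat_lit 191) (.e (nat_lit 483392) (nat_lit 23) (.e (nat_lit 335995) (nat_lit 1) (.e (nat_lit 57872) (nat_lit 264) .nil)))))) (.g (nat_lit 4) .nil .nil))) 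
(.lf (nat_lit 33975) (.g (nat_lit 3008) (.e (nat_lit 1209) (nat_lit 89) (.e (nat_lit 73782) (nat_lit 32) (.e (nat_lit 3090) (nat_lit 191) (.e (nat_lit 483372) (nat_lit 21) (.e (nat_lit 319505) (nat_lit 10) (.e (nat_lit 52) (nat_lit 0) (.e (nat_lit 4602) (nat_lit 269) .nil))))))) (.g (nat_lit 5) .nil .nil))))) (.nd (nat_lit 4) (.nd (nat_lit 5) 
(.lf (nat_lit 33935) (.g (nat_lit 1442) (.e (nat_lit 1209) (nat_lit 89) (.e (nat_lit 73782) (nat_lit 32) (.e (nat_lit 3087) (nat_lit 191) (.e (nat_lit 483393) (nat_lit 23) (.e (nat_lit 335987) (nat_lit 1) (.e (nat_lit 57870) (nat_lit 264) .nil)))))) (.g (nat_lit 4) .nil .nil))) 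
(.lf (nat_lit 33967) (.g (nat_lit 2381) (.e (nat_lit 1209) (nat_lit 89) (.e (nat_lit 73782) (nat_lit 32) (.e (nat_lit 3090) (nat_lit 191) (.e (nat_lit 483372) (nat_lit 21) (.e (nat_lit 319494) (nat_lit 0) .nil))))) .nil))) (.nd (nat_lit 5) 
(.lf (nat_lit 33951) (.g (nat_lit 406) (.e (nat_lit 1209) (nat_lit 89) (.e (nat_lit 73782) (nat_lit 32) (.e (nat_lit 3089) (nat_lit 191) .nil))) .nil)) 
(.lf (nat_lit 33983) (.g (nat_lit 2069) (.e (nat_lit 1209) (nat_lit 89) (.e (nat_lit 73782) (nat_lit 32) (.e (nat_lit 3090) (nat_lit 191) (.e (nat_lit 483383) (nat_lit 23) (.e (nat_lit 336000) (nat_lit 1) .nil))))) .nil))))))))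

noncomputable def tv474 : DT := (.nd (nat_lit 0) (.nd (nat_lit 1) (.nd (nat_lit 2) (.nd (nat_lit 3) (.nd (nat_lit 4) (.nd (nat_lit 5) 
(.lf (nat_lit 33984) (.g (nat_lit 2238) (.e (nat_lit 1209) (nat_lit 89) (.e (nat_lit 73782) (nat_lit 32) (.e (nat_lit 3090) (nat_lit 191) (.e (nat_lit 483383) (nat_lit 23) (.e (nat_lit 336000) (nat_lit 1) (.e (nat_lit 57873) (nat_lit 264) .nil)))))) (.g (nat_lit 4) .nil .nil))) 
(.lf (nat_lit 34016) (.g (nat_lit 2440) (.e (nat_lit 1209) (nat_lit 89) (.e (nat_lit 73787) (nat_lit 45) (.e (nat_lit 1374) (nat_lit 104) (.e (nat_lit 303155) (nat_lit 29) (.e (nat_lit 352307) (nat_lit 21) (.e (nat_lit 57872) (nat_lit 264) .nil)))))) (.g (nat_lit 0) .nil .nil)))) (.nd (nat_lit 5) 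
(.lf (nat_lit 34000) (.g (nat_lit 3338) (.e (nat_lit 1209) (nat_lit 89) (.e (nat_lit 73782) (nat_lit 32) (.e (nat_lit 3090) (nat_lit 191) (.e (nat_lit 483393) (nat_lit 23) (.e (nat_lit 335996) (nat_lit 1) (.e (nat_lit 57870) (nat_lit 264) .nil)))))) (.g (nat_lit 6) .nil .nil))) 
(.lf (nat_lit 34032) (.g (nat_lit 665) (.e (nat_lit 1209) (nat_lit 89) (.e (nat_lit 73792) (nat_lit 45) (.e (nat_lit 1385) (nat_lit 105) (.e (nat_lit 319232) (nat_lit 30) .nil)))) .nil)))) (.nd (nat_lit 4) (.nd (nat_lit 5) 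
(.lf (nat_lit 33992) (.g (nat_lit 1295) (.e (nat_lit 1209) (nat_lit 89) (.e (nat_lit 73782) (nat_lit 32) (.e (nat_lit 3090) (nat_lit 191) (.e (nat_lit 483393) (nat_lit 23) .nil)))) .nil)) 
(.lf (nat_lit 34024) (.g (nat_lit 2021) (.e (nat_lit 1209) (nat_lit 89) (.e (nat_lit 73787) (nat_lit 45) (.e (nat_lit 1379) (nat_lit 104) (.e (nat_lit 303155) (nat_lit 29) (.e (nat_lit 352307) (nat_lit 21) (.e (nat_lit 57872) (nat_lit 264) .nil)))))) (.g (nat_lit 0) .nil .nil)))) (.nd (nat_lit 5) 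
(.lf (nat_lit 34008) (.g (nat_lit 1371) (.e (nat_lit 1209) (nat_lit 89) (.e (nat_lit 81664) (nat_lit 32) (.e (nat_lit 2685) (nat_lit 168) (.e (nat_lit 204866) (nat_lit 28) (.e (nat_lit 352268) (nat_lit 6) (.e (nat_lit 229524) (nat_lit 128) .nil)))))) (.g (nat_lit 4) .nil .nil))) 
(.lf (nat_lit 34040) (.g (nat_lit 1981) (.e (nat_lit 1209) (nat_lit 89) (.e (nat_lit 73794) (nat_lit 46) (.e (nat_lit 57864) (nat_lit 256) (.e (nat_lit 317) (nat_lit 23) (.e (nat_lit 352307) (nat_lit 21) (.e (nat_lit 57872) (nat_lit 264) .nil)))))) (.g (nat_lit 0) .nil .nil)))))) (.nd (nat_lit 3) (.nd (nat_lit 4) (.nd (nat_lit 5) 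
(.lf (nat_lit 33988) (.g (nat_lit 1530) (.e (nat_lit 1209) (nat_lit 89) (.e (nat_lit 73782) (nat_lit 32) (.e (nat_lit 3090) (nat_lit 191) (.e (nat_lit 483386) (nat_lit 23) (.e (nat_lit 335992) (nat_lit 1) (.e (nat_lit 57872) (nat_lit 264) .nil)))))) (.g (nat_lit 4) .nil .nil))) 
(.lf (nat_lit 34020) (.g (nat_lit 2056) (.e (nat_lit 1209) (nat_lit 89) (.e (nat_lit 73787) (nat_lit 45) (.e (nat_lit 1378) (nat_lit 104) (.e (nat_lit 303155) (nat_lit 29) (.e (nat_lit 352307) (nat_lit 21) (.e (nat_lit 57872) (nat_lit 264) .nil)))))) (.g (nat_lit 0) .nil .nil)))) (.nd (nat_lit 5) 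
(.lf (nat_lit 34004) (.g (nat_lit 2546) (.e (nat_lit 1209) (nat_lit 89) (.e (nat_lit 73782) (nat_lit 32) (.e (nat_lit 3090) (nat_lit 191) (.e (nat_lit 483396) (nat_lit 24) (.e (nat_lit 344097) (nat_lit 18) (.e (nat_lit 5905) (nat_lit 320) .nil)))))) (.g (nat_lit 5) .nil .nil))) 
(.lf (nat_lit 34036) (.g (nat_lit 1034) (.e (nat_lit 1209) (nat_lit 89) (.e (nat_lit 73792) (nat_lit 45) (.e (nat_lit 1386) (nat_lit 105) (.e (nat_lit 319232) (nat_lit 30) .nil)))) .nil)))) (.nd (nat_lit 4) (.nd (nat_lit 5) 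
(.lf (nat_lit 33996) (.g (nat_lit 2452) (.e (nat_lit 1209) (nat_lit 89) (.e (nat_lit 73782) (nat_lit 32) (.e (nat_lit 3090) (nat_lit 191) (.e (nat_lit 483393) (nat_lit 23) (.e (nat_lit 335987) (nat_lit 1) (.e (nat_lit 57870) (nat_lit 264) .nil)))))) (.g (nat_lit 5) .nil .nil))) 
(.lf (nat_lit 34028) (.g (nat_lit 2538) (.e (nat_lit 1209) (nat_lit 89) (.e (nat_lit 73789) (nat_lit 45) (.e (nat_lit 1383) (nat_lit 105) (.e (nat_lit 311358) (nat_lit 29) (.e (nat_lit 352307) (nat_lit 21) (.e (nat_lit 57872) (nat_lit 264) .nil)))))) (.g (nat_lit 0) .nil .nil)))) (.nd (nat_lit 5) 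
(.lf (nat_lit 34012) (.g (nat_lit 1461) (.e (nat_lit 1209) (nat_lit 89) (.e (nat_lit 81664) (nat_lit 35) (.e (nat_lit 163962) (nat_lit 25) (.e (nat_lit 532550) (nat_lit 12) (.e (nat_lit 360448) (nat_lit 0) (.e (nat_lit 3972) (nat_lit 239) .nil)))))) (.g (nat_lit 4) .nil .nil))) 
(.lf (nat_lit 34044) (.g (nat_lit 1396) (.e (nat_lit 1210) (nat_lit 89) (.e (nat_lit 73753) (nat_lit 8) (.e (nat_lit 557091) (nat_lit 12) (.e (nat_lit 164238) (nat_lit 187) .nil)))) .nil)))))) (.nd (nat_lit 2) (.nd (nat_lit 3) (.nd (nat_lit 4) (.nd (nat_lit 5) 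
(.lf (nat_lit 33986) (.g (nat_lit 1466) (.e (nat_lit 1209) (nat_lit 89) (.e (nat_lit 73782) (nat_lit 32) (.e (nat_lit 3090) (nat_lit 191) (.e (nat_lit 483386) (nat_lit 23) (.e (nat_lit 335921) (nat_lit 0) .nil))))) .nil)) 
(.lf (nat_lit 34018) (.g (nat_lit 1977) (.e (nat_lit 1209) (nat_lit 89) (.e (nat_lit 73787) (nat_lit 45) (.e (nat_lit 1376) (nat_lit 104) (.e (nat_lit 303155) (nat_lit 29) (.e (nat_lit 352307) (nat_lit 21) (.e (nat_lit 57871) (nat_lit 264) .nil)))))) (.g (nat_lit 0) .nil .nil)))) (.nd (nat_lit 5) 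
(.lf (nat_lit 34002) (.g (nat_lit 1862) (.e (nat_lit 1209) (nat_lit 89) (.e (nat_lit 73782) (nat_lit 32) (.e (nat_lit 3090) (nat_lit 191) (.e (nat_lit 483396) (nat_lit 24) (.e (nat_lit 344093) (nat_lit 18) (.e (nat_lit 5861) (nat_lit 320) .nil)))))) (.g (nat_lit 4) .nil .nil))) 
(.lf (nat_lit 34034) (.g (nat_lit 2580) (.e (nat_lit 1209) (nat_lit 89) (.e (nat_lit 73792) (nat_lit 45) (.e (nat_lit 1386) (nat_lit 105) (.e (nat_lit 311358) (nat_lit 29) (.e (nat_lit 352309) (nat_lit 21) (.e (nat_lit 57871) (nat_lit 264) .nil)))))) (.g (nat_lit 5) .nil .nil))))) (.nd (nat_lit 4) (.nd (nat_lit 5) 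
(.lf (nat_lit 33994) (.g (nat_lit 2956) (.e (nat_lit 1209) (nat_lit 89) (.e (nat_lit 73782) (nat_lit 32) (.e (nat_lit 3090) (nat_lit 191) (.e (nat_lit 483393) (nat_lit 23) (.e (nat_lit 335986) (nat_lit 1) (.e (nat_lit 57871) (nat_lit 264) .nil)))))) (.g (nat_lit 6) .nil .nil))) 
(.lf (nat_lit 34026) (.g (nat_lit 1684) (.e (nat_lit 1209) (nat_lit 89) (.e (nat_lit 73789) (nat_lit 45) (.e (nat_lit 1340) (nat_lit 101) (.e (nat_lit 278529) (nat_lit 0) (.e (nat_lit 5779) (nat_lit 317) (.e (nat_lit 188160) (nat_lit 0) (.e (nat_lit 5112) (nat_lit 292) .nil))))))) (.g (nat_lit 5) .nil .nil)))) (.nd (nat_lit 5) 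
(.lf (nat_lit 34010) (.g (nat_lit 2319) (.e (nat_lit 1209) (nat_lit 89) (.e (nat_lit 81664) (nat_lit 32) (.e (nat_lit 2685) (nat_lit 168) (.e (nat_lit 204869) (nat_lit 29) (.e (nat_lit 360448) (nat_lit 0) (.e (nat_lit 3975) (nat_lit 239) .nil)))))) (.g (nat_lit 5) .nil .nil))) 
(.lf (nat_lit 34042) (.g (nat_lit 1999) (.e (nat_lit 1209) (nat_lit 89) (.e (nat_lit 73795) (nat_lit 47) (.e (nat_lit 123165) (nat_lit 256) (.e (nat_lit 318) (nat_lit 23) (.e (nat_lit 352307) (nat_lit 21) (.e (nat_lit 57872) (nat_lit 264) .nil)))))) (.g (nat_lit 0) .nil .nil)))))) (.nd (nat_lit 3) (.nd (nat_lit 4) (.nd (nat_lit 5) 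
(.lf (nat_lit 33990) (.g (nat_lit 1833) (.e (nat_lit 1209) (nat_lit 89) (.e (nat_lit 73782) (nat_lit 32) (.e (nat_lit 3090) (nat_lit 191) (.e (nat_lit 483389) (nat_lit 23) (.e (nat_lit 335997) (nat_lit 1) (.e (nat_lit 57870) (nat_lit 264) .nil)))))) (.g (nat_lit 4) .nil .nil))) 
(.lf (nat_lit 34022) (.g (nat_lit 1622) (.e (nat_lit 1209) (nat_lit 89) (.e (nat_lit 73787) (nat_lit 45) (.e (nat_lit 1379) (nat_lit 104) (.e (nat_lit 303155) (nat_lit 29) (.e (nat_lit 352307) (nat_lit 21) (.e (nat_lit 57870) (nat_lit 264) .nil)))))) (.g (nat_lit 0) .nil .nil)))) (.nd (nat_lit 5) 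
(.lf (nat_lit 34006) (.g (nat_lit 1082) (.e (nat_lit 1209) (nat_lit 89) (.e (nat_lit 73782) (nat_lit 32) (.e (nat_lit 3090) (nat_lit 191) (.e (nat_lit 483398) (nat_lit 25) .nil)))) .nil)) 
(.lf (nat_lit 34038) (.g (nat_lit 1982) (.e (nat_lit 1209) (nat_lit 89) (.e (nat_lit 73794) (nat_lit 46) (.e (nat_lit 57862) (nat_lit 256) (.e (nat_lit 317) (nat_lit 23) (.e (nat_lit 352307) (nat_lit 21) (.e (nat_lit 57872) (nat_lit 264) .nil)))))) (.g (nat_lit 0) .nil .nil))))) (.nd (nat_lit 4) (.nd (nat_lit 5) 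
(.lf (nat_lit 33998) (.g (nat_lit 2877) (.e (nat_lit 1209) (nat_lit 89) (.e (nat_lit 73782) (nat_lit 32) (.e (nat_lit 3090) (nat_lit 191) (.e (nat_lit 483393) (nat_lit 23) (.e (nat_lit 335995) (nat_lit 1) (.e (nat_lit 57870) (nat_lit 264) .nil)))))) (.g (nat_lit 5) .nil .nil))) 
(.lf (nat_lit 34030) (.g (nat_lit 2880) (.e (nat_lit 1209) (nat_lit 89) (.e (nat_lit 73789) (nat_lit 45) (.e (nat_lit 1385) (nat_lit 105) (.e (nat_lit 311358) (nat_lit 29) (.e (nat_lit 352309) (nat_lit 21) (.e (nat_lit 57871) (nat_lit 264) .nil)))))) (.g (nat_lit 0) .nil .nil)))) (.nd (nat_lit 5) 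
(.lf (nat_lit 34014) (.g (nat_lit 2985) (.e (nat_lit 1209) (nat_lit 89) (.e (nat_lit 81664) (nat_lit 37) (.e (nat_lit 180271) (nat_lit 26) (.e (nat_lit 704629) (nat_lit 9) (.e (nat_lit 442) (nat_lit 33) (.e (nat_lit 434212) (nat_lit 18) (.e (nat_lit 4602) (nat_lit 269) .nil))))))) (.g (nat_lit 5) .nil .nil))) 
(.lf (nat_lit 34046) (.g (nat_lit 631) (.e (nat_lit 1210) (nat_lit 89) (.e (nat_lit 73753) (nat_lit 8) (.e (nat_lit 557101) (nat_lit 13) .nil))) .nil))))))) (.nd (nat_lit 1) (.nd (nat_lit 2) (.nd (nat_lit 3) (.nd (nat_lit 4) (.nd (nat_lit 5) 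
(.lf (nat_lit 33985) (.g (nat_lit 976) (.e (nat_lit 1209) (nat_lit 89) (.e (nat_lit 73782) (nat_lit 32) (.e (nat_lit 3090) (nat_lit 191) (.e (nat_lit 483386) (nat_lit 23) .nil)))) .nil)) 
(.lf (nat_lit 34017) (.g (nat_lit 2683) (.e (nat_lit 1209) (nat_lit 89) (.e (nat_lit 73787) (nat_lit 45) (.e (nat_lit 1374) (nat_lit 104) (.e (nat_lit 303155) (nat_lit 29) (.e (nat_lit 352307) (nat_lit 21) (.e (nat_lit 57873) (nat_lit 264) .nil)))))) (.g (nat_lit 0) .nil .nil)))) (.nd (nat_lit 5) 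
(.lf (nat_lit 34001) (.g (nat_lit 1027) (.e (nat_lit 1209) (nat_lit 89) (.e (nat_lit 73782) (nat_lit 32) (.e (nat_lit 3090) (nat_lit 191) (.e (nat_lit 483395) (nat_lit 24) .nil)))) .nil)) 
(.lf (nat_lit 34033) (.g (nat_lit 1468) (.e (nat_lit 1209) (nat_lit 89) (.e (nat_lit 73792) (nat_lit 45) (.e (nat_lit 1386) (nat_lit 105) (.e (nat_lit 311358) (nat_lit 29) (.e (nat_lit 352308) (nat_lit 21) (.e (nat_lit 57870) (nat_lit 264) .nil)))))) (.g (nat_lit 4) .nil .nil))))) (.nd (nat_lit 4) (.nd (nat_lit 5) 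
(.lf (nat_lit 33993) (.g (nat_lit 2081) (.e (nat_lit 1209) (nat_lit 89) (.e (nat_lit 73782) (nat_lit 32) (.e (nat_lit 3090) (nat_lit 191) (.e (nat_lit 483393) (nat_lit 23) (.e (nat_lit 335986) (nat_lit 1) (.e (nat_lit 57870) (nat_lit 264) .nil)))))) (.g (nat_lit 4) .nil .nil))) 
(.lf (nat_lit 34025) (.g (nat_lit 2266) (.e (nat_lit 1209) (nat_lit 89) (.e (nat_lit 73787) (nat_lit 45) (.e (nat_lit 1379) (nat_lit 104) (.e (nat_lit 303155) (nat_lit 29) (.e (nat_lit 352307) (nat_lit 21) (.e (nat_lit 57873) (nat_lit 264) .nil)))))) (.g (nat_lit 0) .nil .nil)))) (.nd (nat_lit 5) 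
(.lf (nat_lit 34009) (.g (nat_lit 2109) (.e (nat_lit 1209) (nat_lit 89) (.e (nat_lit 81664) (nat_lit 32) (.e (nat_lit 2685) (nat_lit 168) (.e (nat_lit 204869) (nat_lit 29) (.e (nat_lit 360448) (nat_lit 0) (.e (nat_lit 3972) (nat_lit 239) .nil)))))) (.g (nat_lit 4) .nil .nil))) 
(.lf (nat_lit 34041) (.g (nat_lit 2206) (.e (nat_lit 1209) (nat_lit 89) (.e (nat_lit 73794) (nat_lit 46) (.e (nat_lit 57864) (nat_lit 256) (.e (nat_lit 317) (nat_lit 23) (.e (nat_lit 352307) (nat_lit 21) (.e (nat_lit 57873) (nat_lit 264) .nil)))))) (.g (nat_lit 0) .nil .nil)))))) (.nd (nat_lit 3) (.nd (nat_lit 4) (.nd (nat_lit 5) 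
(.lf (nat_lit 33989) (.g (nat_lit 1735) (.e (nat_lit 1209) (nat_lit 89) (.e (nat_lit 73782) (nat_lit 32) (.e (nat_lit 3090) (nat_lit 191) (.e (nat_lit 483389) (nat_lit 23) (.e (nat_lit 335991) (nat_lit 1) (.e (nat_lit 57872) (nat_lit 264) .nil)))))) (.g (nat_lit 4) .nil .nil))) 
(.lf (nat_lit 34021) (.g (nat_lit 2298) (.e (nat_lit 1209) (nat_lit 89) (.e (nat_lit 73787) (nat_lit 45) (.e (nat_lit 1378) (nat_lit 104) (.e (nat_lit 303155) (nat_lit 29) (.e (nat_lit 352307) (nat_lit 21) (.e (nat_lit 57873) (nat_lit 264) .nil)))))) (.g (nat_lit 0) .nil .nil)))) (.nd (nat_lit 5) 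
(.lf (nat_lit 34005) (.g (nat_lit 2632) (.e (nat_lit 1209) (nat_lit 89) (.e (nat_lit 73782) (nat_lit 32) (.e (nat_lit 3090) (nat_lit 191) (.e (nat_lit 483396) (nat_lit 24) (.e (nat_lit 344097) (nat_lit 18) (.e (nat_lit 5906) (nat_lit 320) .nil)))))) (.g (nat_lit 5) .nil .nil))) 
(.lf (nat_lit 34037) (.g (nat_lit 1034) (.e (nat_lit 1209) (nat_lit 89) (.e (nat_lit 73792) (nat_lit 45) (.e (nat_lit 1386) (nat_lit 105) (.e (nat_lit 319232) (nat_lit 32) .nil)))) .nil)))) (.nd (nat_lit 4) (.nd (nat_lit 5) 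
(.lf (nat_lit 33997) (.g (nat_lit 2929) (.e (nat_lit 1209) (nat_lit 89) (.e (nat_lit 73782) (nat_lit 32) (.e (nat_lit 3090) (nat_lit 191) (.e (nat_lit 483393) (nat_lit 23) (.e (nat_lit 335988) (nat_lit 1) (.e (nat_lit 57870) (nat_lit 264) .nil)))))) (.g (nat_lit 5) .nil .nil))) 
(.lf (nat_lit 34029) (.g (nat_lit 2900) (.e (nat_lit 1209) (nat_lit 89) (.e (nat_lit 73789) (nat_lit 45) (.e (nat_lit 1385) (nat_lit 105) (.e (nat_lit 311358) (nat_lit 29) (.e (nat_lit 352307) (nat_lit 21) (.e (nat_lit 57872) (nat_lit 264) .nil)))))) (.g (nat_lit 0) .nil .nil)))) (.nd (nat_lit 5) 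
(.lf (nat_lit 34013) (.g (nat_lit 1733) (.e (nat_lit 1209) (nat_lit 89) (.e (nat_lit 81664) (nat_lit 35) (.e (nat_lit 163962) (nat_lit 25) (.e (nat_lit 532550) (nat_lit 12) (.e (nat_lit 360448) (nat_lit 0) (.e (nat_lit 3975) (nat_lit 239) .nil)))))) (.g (nat_lit 5) .nil .nil))) 
(.lf (nat_lit 34045) (.g (nat_lit 2243) (.e (nat_lit 1210) (nat_lit 89) (.e (nat_lit 73753) (nat_lit 8) (.e (nat_lit 557100) (nat_lit 13) (.e (nat_lit 179968) (nat_lit 20) .nil)))) .nil)))))) (.nd (nat_lit 2) (.nd (nat_lit 3) (.nd (nat_lit 4) (.nd (nat_lit 5) 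
(.lf (nat_lit 33987) (.g (nat_lit 1466) (.e (nat_lit 1209) (nat_lit 89) (.e (nat_lit 73782) (nat_lit 32) (.e (nat_lit 3090) (nat_lit 191) (.e (nat_lit 483386) (nat_lit 23) (.e (nat_lit 335923) (nat_lit 0) .nil))))) .nil)) 
(.lf (nat_lit 34019) (.g (nat_lit 2320) (.e (nat_lit 1209) (nat_lit 89) (.e (nat_lit 73787) (nat_lit 45) (.e (nat_lit 1376) (nat_lit 104) (.e (nat_lit 303155) (nat_lit 29) (.e (nat_lit 352307) (nat_lit 21) (.e (nat_lit 57873) (nat_lit 264) .nil)))))) (.g (nat_lit 0) .nil .nil)))) (.nd (nat_lit 5) 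
(.lf (nat_lit 34003) (.g (nat_lit 2523) (.e (nat_lit 1209) (nat_lit 89) (.e (nat_lit 73782) (nat_lit 32) (.e (nat_lit 3090) (nat_lit 191) (.e (nat_lit 483396) (nat_lit 24) (.e (nat_lit 344093) (nat_lit 18) (.e (nat_lit 5904) (nat_lit 320) .nil)))))) (.g (nat_lit 6) .nil .nil))) 
(.lf (nat_lit 34035) (.g (nat_lit 1034) (.e (nat_lit 1209) (nat_lit 89) (.e (nat_lit 73792) (nat_lit 45) (.e (nat_lit 1386) (nat_lit 105) (.e (nat_lit 319232) (nat_lit 29) .nil)))) .nil)))) (.nd (nat_lit 4) (.nd (nat_lit 5) 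
(.lf (nat_lit 33995) (.g (nat_lit 2534) (.e (nat_lit 1209) (nat_lit 89) (.e (nat_lit 73782) (nat_lit 32) (.e (nat_lit 3090) (nat_lit 191) (.e (nat_lit 483393) (nat_lit 23) (.e (nat_lit 335986) (nat_lit 1) (.e (nat_lit 57872) (nat_lit 264) .nil)))))) (.g (nat_lit 5) .nil .nil))) 
(.lf (nat_lit 34027) (.g (nat_lit 2078) (.e (nat_lit 1209) (nat_lit 89) (.e (nat_lit 73789) (nat_lit 45) (.e (nat_lit 1383) (nat_lit 105) (.e (nat_lit 311358) (nat_lit 29) (.e (nat_lit 352307) (nat_lit 21) (.e (nat_lit 57870) (nat_lit 264) .nil)))))) (.g (nat_lit 0) .nil .nil)))) (.nd (nat_lit 5) 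
(.lf (nat_lit 34011) (.g (nat_lit 1206) (.e (nat_lit 1209) (nat_lit 89) (.e (nat_lit 81664) (nat_lit 32) (.e (nat_lit 3085) (nat_lit 191) (.e (nat_lit 483401) (nat_lit 25) (.e (nat_lit 376576) (nat_lit 18) (.e (nat_lit 5906) (nat_lit 320) .nil)))))) (.g (nat_lit 4) .nil .nil))) 
(.lf (nat_lit 34043) (.g (nat_lit 2226) (.e (nat_lit 1209) (nat_lit 89) (.e (nat_lit 73795) (nat_lit 47) (.e (nat_lit 123165) (nat_lit 256) (.e (nat_lit 318) (nat_lit 23) (.e (nat_lit 352307) (nat_lit 21) (.e (nat_lit 57873) (nat_lit 264) .nil)))))) (.g (nat_lit 0) .nil .nil)))))) (.nd (nat_lit 3) (.nd (nat_lit 4) (.nd (nat_lit 5) 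
(.lf (nat_lit 33991) (.g (nat_lit 2700) (.e (nat_lit 1209) (nat_lit 89) (.e (nat_lit 73782) (nat_lit 32) (.e (nat_lit 3090) (nat_lit 191) (.e (nat_lit 483392) (nat_lit 23) (.e (nat_lit 335995) (nat_lit 1) (.e (nat_lit 57872) (nat_lit 264) .nil)))))) (.g (nat_lit 5) .nil .nil))) 
(.lf (nat_lit 34023) (.g (nat_lit 1906) (.e (nat_lit 1209) (nat_lit 89) (.e (nat_lit 73787) (nat_lit 45) (.e (nat_lit 1379) (nat_lit 104) (.e (nat_lit 303155) (nat_lit 29) (.e (nat_lit 352307) (nat_lit 21) (.e (nat_lit 57871) (nat_lit 264) .nil)))))) (.g (nat_lit 0) .nil .nil)))) (.nd (nat_lit 5) 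
(.lf (nat_lit 34007) (.g (nat_lit 1161) (.e (nat_lit 1209) (nat_lit 89) (.e (nat_lit 73782) (nat_lit 32) (.e (nat_lit 3090) (nat_lit 191) (.e (nat_lit 483399) (nat_lit 25) .nil)))) .nil)) 
(.lf (nat_lit 34039) (.g (nat_lit 2202) (.e (nat_lit 1209) (nat_lit 89) (.e (nat_lit 73794) (nat_lit 46) (.e (nat_lit 57862) (nat_lit 256) (.e (nat_lit 317) (nat_lit 23) (.e (nat_lit 352307) (nat_lit 21) (.e (nat_lit 57873) (nat_lit 264) .nil)))))) (.g (nat_lit 0) .nil .nil))))) (.nd (nat_lit 4) (.nd (nat_lit 5) 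
(.lf (nat_lit 33999) (.g (nat_lit 3563) (.e (nat_lit 1209) (nat_lit 89) (.e (nat_lit 73782) (nat_lit 32) (.e (nat_lit 3090) (nat_lit 191) (.e (nat_lit 483393) (nat_lit 23) (.e (nat_lit 335995) (nat_lit 1) (.e (nat_lit 57872) (nat_lit 264) .nil)))))) (.g (nat_lit 6) .nil .nil))) 
(.lf (nat_lit 34031) (.g (nat_lit 2797) (.e (nat_lit 1209) (nat_lit 89) (.e (nat_lit 73789) (nat_lit 45) (.e (nat_lit 1386) (nat_lit 105) (.e (nat_lit 311358) (nat_lit 29) (.e (nat_lit 352309) (nat_lit 21) (.e (nat_lit 57871) (nat_lit 264) .nil)))))) (.g (nat_lit 0) .nil .nil)))) (.nd (nat_lit 5) 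
(.lf (nat_lit 34015) (.g (nat_lit 2324) (.e (nat_lit 1209) (nat_lit 89) (.e (nat_lit 73787) (nat_lit 45) (.e (nat_lit 1374) (nat_lit 104) (.e (nat_lit 303155) (nat_lit 29) (.e (nat_lit 352307) (nat_lit 21) (.e (nat_lit 57871) (nat_lit 264) .nil)))))) (.g (nat_lit 0) .nil .nil))) 
(.lf (nat_lit 34047) (.g (nat_lit 2483) (.e (nat_lit 1210) (nat_lit 89) (.e (nat_lit 73754) (nat_lit 8) (.e (nat_lit 557091) (nat_lit 12) (.e (nat_lit 164238) (nat_lit 187) .nil)))) .nil))))))))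

noncomputable def tv475 : DT := (.nd (nat_lit 0) (.nd (nat_lit 1) (.nd (nat_lit 2) (.nd (nat_lit 3) (.nd (nat_lit 4) (.nd (nat_lit 5) 
(.lf (nat_lit 34048) (.g (nat_lit 3340) (.e (nat_lit 1210) (nat_lit 89) (.e (nat_lit 73754) (nat_lit 8) (.e (nat_lit 557091) (nat_lit 12) (.e (nat_lit 164238) (nat_lit 187) (.e (nat_lit 1428) (nat_lit 108) .nil))))) .nil)) 
(.lf (nat_lit 34080) (.g (nat_lit 1916) (.e (nat_lit 1210) (nat_lit 89) (.e (nat_lit 73755) (nat_lit 8) (.e (nat_lit 557098) (nat_lit 13) (.e (nat_lit 179968) (nat_lit 20) .nil)))) .nil))) (.nd (nat_lit 5) 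
(.lf (nat_lit 34064) (.g (nat_lit 618) (.e (nat_lit 1210) (nat_lit 89) (.e (nat_lit 73755) (nat_lit 8) (.e (nat_lit 557087) (nat_lit 11) .nil))) .nil)) 
(.lf (nat_lit 34096) (.g (nat_lit 1920) (.e (nat_lit 1210) (nat_lit 89) (.e (nat_lit 73781) (nat_lit 32) (.e (nat_lit 2854) (nat_lit 184) (.e (nat_lit 426542) (nat_lit 29) (.e (nat_lit 352307) (nat_lit 21) (.e (nat_lit 57870) (nat_lit 264) .nil)))))) (.g (nat_lit 0) .nil .nil))))) (.nd (nat_lit 4) (.nd (nat_lit 5) 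
(.lf (nat_lit 34056) (.g (nat_lit 2414) (.e (nat_lit 1210) (nat_lit 89) (.e (nat_lit 73754) (nat_lit 8) (.e (nat_lit 557100) (nat_lit 13) (.e (nat_lit 179968) (nat_lit 20) (.e (nat_lit 114711) (nat_lit 21) (.e (nat_lit 57847) (nat_lit 252) (.e (nat_lit 57365) (nat_lit 1) (.e (nat_lit 57730) (nat_lit 181) .nil)))))))) (.g (nat_lit 5) .nil .nil))) 
(.lf (nat_lit 34088) (.g (nat_lit 2040) (.e (nat_lit 1210) (nat_lit 89) (.e (nat_lit 73755) (nat_lit 8) (.e (nat_lit 557105) (nat_lit 14) (.e (nat_lit 180252) (nat_lit 10) (.e (nat_lit 573474) (nat_lit 12) .nil))))) .nil))) (.nd (nat_lit 5) 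
(.lf (nat_lit 34072) (.g (nat_lit 1918) (.e (nat_lit 1210) (nat_lit 89) (.e (nat_lit 73755) (nat_lit 8) (.e (nat_lit 557091) (nat_lit 12) (.e (nat_lit 164238) (nat_lit 187) (.e (nat_lit 1660) (nat_lit 115) (.e (nat_lit 393253) (nat_lit 18) (.e (nat_lit 164147) (nat_lit 152) .nil))))))) (.g (nat_lit 4) .nil .nil))) 
(.lf (nat_lit 34104) (.g (nat_lit 2309) (.e (nat_lit 1210) (nat_lit 89) (.e (nat_lit 73781) (nat_lit 32) (.e (nat_lit 2855) (nat_lit 184) (.e (nat_lit 426555) (nat_lit 32) (.e (nat_lit 376859) (nat_lit 21) (.e (nat_lit 57870) (nat_lit 264) .nil)))))) (.g (nat_lit 6) .nil .nil)))))) (.nd (nat_lit 3) (.nd (nat_lit 4) (.nd (nat_lit 5) 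
(.lf (nat_lit 34052) (.g (nat_lit 2122) (.e (nat_lit 1210) (nat_lit 89) (.e (nat_lit 73754) (nat_lit 8) (.e (nat_lit 557093) (nat_lit 12) (.e (nat_lit 164239) (nat_lit 187) (.e (nat_lit 1660) (nat_lit 115) (.e (nat_lit 393253) (nat_lit 18) (.e (nat_lit 164162) (nat_lit 152) .nil))))))) (.g (nat_lit 5) .nil .nil))) 
(.lf (nat_lit 34084) (.g (nat_lit 1265) (.e (nat_lit 1210) (nat_lit 89) (.e (nat_lit 73755) (nat_lit 8) (.e (nat_lit 557104) (nat_lit 14) (.e (nat_lit 180233) (nat_lit 0) .nil)))) .nil))) (.nd (nat_lit 5) 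
(.lf (nat_lit 34068) (.g (nat_lit 2836) (.e (nat_lit 1210) (nat_lit 89) (.e (nat_lit 73755) (nat_lit 8) (.e (nat_lit 557090) (nat_lit 12) (.e (nat_lit 164238) (nat_lit 187) (.e (nat_lit 1660) (nat_lit 115) .nil))))) .nil)) 
(.lf (nat_lit 34100) (.g (nat_lit 794) (.e (nat_lit 1210) (nat_lit 89) (.e (nat_lit 73781) (nat_lit 32) (.e (nat_lit 2854) (nat_lit 184) (.e (nat_lit 426544) (nat_lit 30) (.e (nat_lit 368384) (nat_lit 0) .nil))))) .nil)))) (.nd (nat_lit 4) (.nd (nat_lit 5) 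
(.lf (nat_lit 34060) (.g (nat_lit 1520) (.e (nat_lit 1210) (nat_lit 89) (.e (nat_lit 73754) (nat_lit 8) (.e (nat_lit 557101) (nat_lit 13) (.e (nat_lit 179968) (nat_lit 20) (.e (nat_lit 114710) (nat_lit 21) (.e (nat_lit 57847) (nat_lit 252) (.e (nat_lit 57365) (nat_lit 1) (.e (nat_lit 57730) (nat_lit 181) .nil)))))))) (.g (nat_lit 5) .nil .nil))) 
(.lf (nat_lit 34092) (.g (nat_lit 1351) (.e (nat_lit 1210) (nat_lit 89) (.e (nat_lit 73779) (nat_lit 32) (.e (nat_lit 2936) (nat_lit 184) (.e (nat_lit 426541) (nat_lit 29) (.e (nat_lit 352309) (nat_lit 21) (.e (nat_lit 57871) (nat_lit 264) .nil)))))) (.g (nat_lit 6) .nil .nil)))) (.nd (nat_lit 5) 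
(.lf (nat_lit 34076) (.g (nat_lit 611) (.e (nat_lit 1210) (nat_lit 89) (.e (nat_lit 73755) (nat_lit 8) (.e (nat_lit 557098) (nat_lit 13) .nil))) .nil)) 
(.lf (nat_lit 34108) (.g (nat_lit 1867) (.e (nat_lit 1210) (nat_lit 89) (.e (nat_lit 73781) (nat_lit 32) (.e (nat_lit 2856) (nat_lit 184) (.e (nat_lit 426533) (nat_lit 28) (.e (nat_lit 352000) (nat_lit 11) .nil))))) .nil)))))) (.nd (nat_lit 2) (.nd (nat_lit 3) (.nd (nat_lit 4) (.nd (nat_lit 5) 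
(.lf (nat_lit 34050) (.g (nat_lit 3303) (.e (nat_lit 1210) (nat_lit 89) (.e (nat_lit 73754) (nat_lit 8) (.e (nat_lit 557091) (nat_lit 12) (.e (nat_lit 164238) (nat_lit 187) (.e (nat_lit 1661) (nat_lit 115) .nil))))) .nil)) 
(.lf (nat_lit 34082) (.g (nat_lit 2246) (.e (nat_lit 1210) (nat_lit 89) (.e (nat_lit 73755) (nat_lit 8) (.e (nat_lit 557103) (nat_lit 14) (.e (nat_lit 180244) (nat_lit 5) (.e (nat_lit 532579) (nat_lit 26) .nil))))) .nil))) (.nd (nat_lit 5) 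
(.lf (nat_lit 34066) (.g (nat_lit 1588) (.e (nat_lit 1210) (nat_lit 89) (.e (nat_lit 73755) (nat_lit 8) (.e (nat_lit 557089) (nat_lit 12) (.e (nat_lit 171776) (nat_lit 194) .nil)))) .nil)) 
(.lf (nat_lit 34098) (.g (nat_lit 1847) (.e (nat_lit 1210) (nat_lit 89) (.e (nat_lit 73781) (nat_lit 32) (.e (nat_lit 2854) (nat_lit 184) (.e (nat_lit 426542) (nat_lit 29) (.e (nat_lit 352309) (nat_lit 21) (.e (nat_lit 57870) (nat_lit 264) .nil)))))) (.g (nat_lit 0) .nil .nil))))) (.nd (nat_lit 4) (.nd (nat_lit 5) 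
(.lf (nat_lit 34058) (.g (nat_lit 1142) (.e (nat_lit 1210) (nat_lit 89) (.e (nat_lit 73754) (nat_lit 8) (.e (nat_lit 557101) (nat_lit 13) (.e (nat_lit 179968) (nat_lit 20) .nil)))) .nil)) 
(.lf (nat_lit 34090) (.g (nat_lit 2687) (.e (nat_lit 1210) (nat_lit 89) (.e (nat_lit 73775) (nat_lit 26) (.e (nat_lit 778362) (nat_lit 9) (.e (nat_lit 297) (nat_lit 22) (.e (nat_lit 344133) (nat_lit 26) .nil))))) .nil))) (.nd (nat_lit 5) 
(.lf (nat_lit 34074) (.g (nat_lit 1405) (.e (nat_lit 1210) (nat_lit 89) (.e (nat_lit 73755) (nat_lit 8) (.e (nat_lit 557096) (nat_lit 13) (.e (nat_lit 172133) (nat_lit 15) .nil)))) .nil)) 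
(.lf (nat_lit 34106) (.g (nat_lit 1344) (.e (nat_lit 1210) (nat_lit 89) (.e (nat_lit 73781) (nat_lit 32) (.e (nat_lit 2856) (nat_lit 184) (.e (nat_lit 426533) (nat_lit 28) .nil)))) .nil))))) (.nd (nat_lit 3) (.nd (nat_lit 4) (.nd (nat_lit 5) 
(.lf (nat_lit 34054) (.g (nat_lit 2026) (.e (nat_lit 1210) (nat_lit 89) (.e (nat_lit 73754) (nat_lit 8) (.e (nat_lit 557100) (nat_lit 13) (.e (nat_lit 179968) (nat_lit 20) .nil)))) .nil)) 
(.lf (nat_lit 34086) (.g (nat_lit 1904) (.e (nat_lit 1210) (nat_lit 89) (.e (nat_lit 73755) (nat_lit 8) (.e (nat_lit 557104) (nat_lit 14) (.e (nat_lit 180261) (nat_lit 20) (.e (nat_lit 655378) (nat_lit 4) .nil))))) .nil))) (.nd (nat_lit 5) 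
(.lf (nat_lit 34070) (.g (nat_lit 1385) (.e (nat_lit 1210) (nat_lit 89) (.e (nat_lit 73755) (nat_lit 8) (.e (nat_lit 557091) (nat_lit 12) (.e (nat_lit 164213) (nat_lit 176) .nil)))) .nil)) 
(.lf (nat_lit 34102) (.g (nat_lit 2117) (.e (nat_lit 1210) (nat_lit 89) (.e (nat_lit 73781) (nat_lit 32) (.e (nat_lit 2854) (nat_lit 184) (.e (nat_lit 426555) (nat_lit 32) (.e (nat_lit 376859) (nat_lit 21) (.e (nat_lit 57870) (nat_lit 264) .nil)))))) (.g (nat_lit 6) .nil .nil))))) (.nd (nat_lit 4) (.nd (nat_lit 5) 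
(.lf (nat_lit 34062) (.g (nat_lit 2201) (.e (nat_lit 1210) (nat_lit 89) (.e (nat_lit 73755) (nat_lit 8) (.e (nat_lit 557067) (nat_lit 9) (.e (nat_lit 3096) (nat_lit 192) .nil)))) .nil)) 
(.lf (nat_lit 34094) (.g (nat_lit 357) (.e (nat_lit 1210) (nat_lit 89) (.e (nat_lit 73781) (nat_lit 32) (.e (nat_lit 2681) (nat_lit 168) .nil))) .nil))) (.nd (nat_lit 5) 
(.lf (nat_lit 34078) (.g (nat_lit 1826) (.e (nat_lit 1210) (nat_lit 89) (.e (nat_lit 73755) (nat_lit 8) (.e (nat_lit 557098) (nat_lit 13) (.e (nat_lit 172133) (nat_lit 15) .nil)))) .nil)) 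
(.lf (nat_lit 34110) (.g (nat_lit 2944) (.e (nat_lit 1210) (nat_lit 89) (.e (nat_lit 73781) (nat_lit 32) (.e (nat_lit 2856) (nat_lit 184) (.e (nat_lit 426542) (nat_lit 29) (.e (nat_lit 352307) (nat_lit 21) (.e (nat_lit 57870) (nat_lit 264) .nil)))))) (.g (nat_lit 0) .nil .nil)))))))) (.nd (nat_lit 1) (.nd (nat_lit 2) (.nd (nat_lit 3) (.nd (nat_lit 4) (.nd (nat_lit 5) 
(.lf (nat_lit 34049) (.g (nat_lit 3303) (.e (nat_lit 1210) (nat_lit 89) (.e (nat_lit 73754) (nat_lit 8) (.e (nat_lit 557091) (nat_lit 12) (.e (nat_lit 164238) (nat_lit 187) (.e (nat_lit 1660) (nat_lit 115) .nil))))) .nil)) 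
(.lf (nat_lit 34081) (.g (nat_lit 1882) (.e (nat_lit 1210) (nat_lit 89) (.e (nat_lit 73755) (nat_lit 8) (.e (nat_lit 557098) (nat_lit 13) (.e (nat_lit 172140) (nat_lit 22) .nil)))) .nil))) (.nd (nat_lit 5) 
(.lf (nat_lit 34065) (.g (nat_lit 3567) (.e (nat_lit 1210) (nat_lit 89) (.e (nat_lit 73755) (nat_lit 8) (.e (nat_lit 557087) (nat_lit 11) (.e (nat_lit 24617) (nat_lit 7) (.e (nat_lit 319505) (nat_lit 10) .nil))))) .nil)) 
(.lf (nat_lit 34097) (.g (nat_lit 2232) (.e (nat_lit 1210) (nat_lit 89) (.e (nat_lit 73781) (nat_lit 32) (.e (nat_lit 2854) (nat_lit 184) (.e (nat_lit 426542) (nat_lit 29) (.e (nat_lit 352307) (nat_lit 21) (.e (nat_lit 57871) (nat_lit 264) .nil)))))) (.g (nat_lit 0) .nil .nil))))) (.nd (nat_lit 4) (.nd (nat_lit 5) 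
(.lf (nat_lit 34057) (.g (nat_lit 2911) (.e (nat_lit 1210) (nat_lit 89) (.e (nat_lit 73754) (nat_lit 8) (.e (nat_lit 557100) (nat_lit 13) (.e (nat_lit 179968) (nat_lit 20) (.e (nat_lit 114711) (nat_lit 21) (.e (nat_lit 57847) (nat_lit 252) (.e (nat_lit 57365) (nat_lit 1) (.e (nat_lit 57731) (nat_lit 181) .nil)))))))) (.g (nat_lit 6) .nil .nil))) 
(.lf (nat_lit 34089) (.g (nat_lit 2770) (.e (nat_lit 1210) (nat_lit 89) (.e (nat_lit 73775) (nat_lit 26) (.e (nat_lit 778362) (nat_lit 9) (.e (nat_lit 297) (nat_lit 22) (.e (nat_lit 344132) (nat_lit 26) .nil))))) .nil))) (.nd (nat_lit 5) 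
(.lf (nat_lit 34073) (.g (nat_lit 2702) (.e (nat_lit 1210) (nat_lit 89) (.e (nat_lit 73755) (nat_lit 8) (.e (nat_lit 557091) (nat_lit 12) (.e (nat_lit 164238) (nat_lit 187) (.e (nat_lit 1661) (nat_lit 115) (.e (nat_lit 393251) (nat_lit 18) (.e (nat_lit 164163) (nat_lit 152) .nil))))))) (.g (nat_lit 5) .nil .nil))) 
(.lf (nat_lit 34105) (.g (nat_lit 288) (.e (nat_lit 1210) (nat_lit 89) (.e (nat_lit 73781) (nat_lit 32) (.e (nat_lit 2856) (nat_lit 184) .nil))) .nil))))) (.nd (nat_lit 3) (.nd (nat_lit 4) (.nd (nat_lit 5) 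
(.lf (nat_lit 34053) (.g (nat_lit 2149) (.e (nat_lit 1210) (nat_lit 89) (.e (nat_lit 73754) (nat_lit 8) (.e (nat_lit 557100) (nat_lit 13) (.e (nat_lit 172138) (nat_lit 15) .nil)))) .nil)) 
(.lf (nat_lit 34085) (.g (nat_lit 1599) (.e (nat_lit 1210) (nat_lit 89) (.e (nat_lit 73755) (nat_lit 8) (.e (nat_lit 557104) (nat_lit 14) (.e (nat_lit 180244) (nat_lit 5) .nil)))) .nil))) (.nd (nat_lit 5) 
(.lf (nat_lit 34069) (.g (nat_lit 2486) (.e (nat_lit 1210) (nat_lit 89) (.e (nat_lit 73755) (nat_lit 8) (.e (nat_lit 557090) (nat_lit 12) (.e (nat_lit 164238) (nat_lit 187) (.e (nat_lit 1661) (nat_lit 115) .nil))))) .nil)) 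
(.lf (nat_lit 34101) (.g (nat_lit 2289) (.e (nat_lit 1210) (nat_lit 89) (.e (nat_lit 73781) (nat_lit 32) (.e (nat_lit 2854) (nat_lit 184) (.e (nat_lit 426555) (nat_lit 32) (.e (nat_lit 376857) (nat_lit 21) (.e (nat_lit 57870) (nat_lit 264) .nil)))))) (.g (nat_lit 6) .nil .nil))))) (.nd (nat_lit 4) (.nd (nat_lit 5) 
(.lf (nat_lit 34061) (.g (nat_lit 1953) (.e (nat_lit 1210) (nat_lit 89) (.e (nat_lit 73754) (nat_lit 8) (.e (nat_lit 557101) (nat_lit 13) (.e (nat_lit 179968) (nat_lit 20) (.e (nat_lit 114711) (nat_lit 21) (.e (nat_lit 57847) (nat_lit 252) (.e (nat_lit 57365) (nat_lit 1) (.e (nat_lit 57729) (nat_lit 181) .nil)))))))) (.g (nat_lit 6) .nil .nil))) 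
(.lf (nat_lit 34093) (.g (nat_lit 1147) (.e (nat_lit 1210) (nat_lit 89) (.e (nat_lit 73779) (nat_lit 32) (.e (nat_lit 2939) (nat_lit 184) (.e (nat_lit 426541) (nat_lit 29) (.e (nat_lit 352307) (nat_lit 21) (.e (nat_lit 57870) (nat_lit 264) .nil)))))) (.g (nat_lit 6) .nil .nil)))) (.nd (nat_lit 5) 
(.lf (nat_lit 34077) (.g (nat_lit 1889) (.e (nat_lit 1210) (nat_lit 89) (.e (nat_lit 73755) (nat_lit 8) (.e (nat_lit 557098) (nat_lit 13) (.e (nat_lit 172064) (nat_lit 2) .nil)))) .nil)) 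
(.lf (nat_lit 34109) (.g (nat_lit 1926) (.e (nat_lit 1210) (nat_lit 89) (.e (nat_lit 73781) (nat_lit 32) (.e (nat_lit 2856) (nat_lit 184) (.e (nat_lit 426542) (nat_lit 29) (.e (nat_lit 352307) (nat_lit 21) .nil))))) .nil)))))) (.nd (nat_lit 2) (.nd (nat_lit 3) (.nd (nat_lit 4) (.nd (nat_lit 5) 
(.lf (nat_lit 34051) (.g (nat_lit 1150) (.e (nat_lit 1210) (nat_lit 89) (.e (nat_lit 73754) (nat_lit 8) (.e (nat_lit 557093) (nat_lit 12) (.e (nat_lit 164239) (nat_lit 187) .nil)))) .nil)) 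
(.lf (nat_lit 34083) (.g (nat_lit 613) (.e (nat_lit 1210) (nat_lit 89) (.e (nat_lit 73755) (nat_lit 8) (.e (nat_lit 557104) (nat_lit 14) .nil))) .nil))) (.nd (nat_lit 5) 
(.lf (nat_lit 34067) (.g (nat_lit 2928) (.e (nat_lit 1210) (nat_lit 89) (.e (nat_lit 73755) (nat_lit 8) (.e (nat_lit 557090) (nat_lit 12) (.e (nat_lit 164238) (nat_lit 187) (.e (nat_lit 1428) (nat_lit 108) .nil))))) .nil)) 
(.lf (nat_lit 34099) (.g (nat_lit 2031) (.e (nat_lit 1210) (nat_lit 89) (.e (nat_lit 73781) (nat_lit 32) (.e (nat_lit 2854) (nat_lit 184) (.e (nat_lit 426542) (nat_lit 29) (.e (nat_lit 352309) (nat_lit 21) (.e (nat_lit 57871) (nat_lit 264) .nil)))))) (.g (nat_lit 0) .nil .nil))))) (.nd (nat_lit 4) (.nd (nat_lit 5) 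
(.lf (nat_lit 34059) (.g (nat_lit 2257) (.e (nat_lit 1210) (nat_lit 89) (.e (nat_lit 73754) (nat_lit 8) (.e (nat_lit 557101) (nat_lit 13) (.e (nat_lit 179968) (nat_lit 20) (.e (nat_lit 114710) (nat_lit 21) (.e (nat_lit 57847) (nat_lit 252) (.e (nat_lit 57365) (nat_lit 1) (.e (nat_lit 57729) (nat_lit 181) .nil)))))))) (.g (nat_lit 7) .nil .nil))) 
(.lf (nat_lit 34091) (.g (nat_lit 2141) (.e (nat_lit 1210) (nat_lit 89) (.e (nat_lit 73776) (nat_lit 26) (.e (nat_lit 778362) (nat_lit 9) (.e (nat_lit 297) (nat_lit 22) (.e (nat_lit 344133) (nat_lit 26) .nil))))) .nil))) (.nd (nat_lit 5) 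
(.lf (nat_lit 34075) (.g (nat_lit 1827) (.e (nat_lit 1210) (nat_lit 89) (.e (nat_lit 73755) (nat_lit 8) (.e (nat_lit 557097) (nat_lit 13) (.e (nat_lit 172133) (nat_lit 15) (.e (nat_lit 2175) (nat_lit 143) .nil))))) .nil)) 
(.lf (nat_lit 34107) (.g (nat_lit 1867) (.e (nat_lit 1210) (nat_lit 89) (.e (nat_lit 73781) (nat_lit 32) (.e (nat_lit 2856) (nat_lit 184) (.e (nat_lit 426533) (nat_lit 28) (.e (nat_lit 352000) (nat_lit 8) .nil))))) .nil))))) (.nd (nat_lit 3) (.nd (nat_lit 4) (.nd (nat_lit 5) 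
(.lf (nat_lit 34055) (.g (nat_lit 2618) (.e (nat_lit 1210) (nat_lit 89) (.e (nat_lit 73754) (nat_lit 8) (.e (nat_lit 557100) (nat_lit 13) (.e (nat_lit 179968) (nat_lit 20) (.e (nat_lit 114710) (nat_lit 21) (.e (nat_lit 57847) (nat_lit 252) (.e (nat_lit 57365) (nat_lit 1) (.e (nat_lit 57731) (nat_lit 181) .nil)))))))) (.g (nat_lit 6) .nil .nil))) 
(.lf (nat_lit 34087) (.g (nat_lit 2130) (.e (nat_lit 1210) (nat_lit 89) (.e (nat_lit 73755) (nat_lit 8) (.e (nat_lit 557105) (nat_lit 14) (.e (nat_lit 180252) (nat_lit 10) (.e (nat_lit 581376) (nat_lit 5) (.e (nat_lit 188160) (nat_lit 0) (.e (nat_lit 4120) (nat_lit 245) .nil))))))) (.g (nat_lit 4) .nil .nil)))) (.nd (nat_lit 5) 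
(.lf (nat_lit 34071) (.g (nat_lit 1899) (.e (nat_lit 1210) (nat_lit 89) (.e (nat_lit 73755) (nat_lit 8) (.e (nat_lit 557091) (nat_lit 12) (.e (nat_lit 164238) (nat_lit 187) (.e (nat_lit 1658) (nat_lit 115) .nil))))) .nil)) 
(.lf (nat_lit 34103) (.g (nat_lit 906) (.e (nat_lit 1210) (nat_lit 89) (.e (nat_lit 73781) (nat_lit 32) (.e (nat_lit 2855) (nat_lit 184) (.e (nat_lit 426544) (nat_lit 30) (.e (nat_lit 368384) (nat_lit 0) .nil))))) .nil)))) (.nd (nat_lit 4) (.nd (nat_lit 5) 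
(.lf (nat_lit 34063) (.g (nat_lit 1372) (.e (nat_lit 1210) (nat_lit 89) (.e (nat_lit 73755) (nat_lit 8) (.e (nat_lit 557068) (nat_lit 9) (.e (nat_lit 3104) (nat_lit 192) .nil)))) .nil)) 
(.lf (nat_lit 34095) (.g (nat_lit 3311) (.e (nat_lit 1210) (nat_lit 89) (.e (nat_lit 73781) (nat_lit 32) (.e (nat_lit 2682) (nat_lit 168) (.e (nat_lit 204869) (nat_lit 29) (.e (nat_lit 360448) (nat_lit 0) (.e (nat_lit 3975) (nat_lit 239) .nil)))))) (.g (nat_lit 5) .nil .nil)))) (.nd (nat_lit 5) 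
(.lf (nat_lit 34079) (.g (nat_lit 1750) (.e (nat_lit 1210) (nat_lit 89) (.e (nat_lit 73755) (nat_lit 8) (.e (nat_lit 557098) (nat_lit 13) (.e (nat_lit 172136) (nat_lit 15) .nil)))) .nil)) 
(.lf (nat_lit 34111) (.g (nat_lit 3260) (.e (nat_lit 1210) (nat_lit 89) (.e (nat_lit 73781) (nat_lit 32) (.e (nat_lit 2856) (nat_lit 184) (.e (nat_lit 426542) (nat_lit 29) (.e (nat_lit 352307) (nat_lit 21) (.e (nat_lit 57871) (nat_lit 264) .nil)))))) (.g (nat_lit 0) .nil .nil)))))))))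

noncomputable def tv476 : DT := (.nd (nat_lit 0) (.nd (nat_lit 1) (.nd (nat_lit 2) (.nd (nat_lit 3) (.nd (nat_lit 4) (.nd (nat_lit 5) 
(.lf (nat_lit 34112) (.g (nat_lit 1975) (.e (nat_lit 1210) (nat_lit 89) (.e (nat_lit 73781) (nat_lit 32) (.e (nat_lit 2856) (nat_lit 184) (.e (nat_lit 426542) (nat_lit 29) (.e (nat_lit 352309) (nat_lit 21) .nil))))) .nil)) 
(.lf (nat_lit 34144) (.g (nat_lit 1053) (.e (nat_lit 1210) (nat_lit 89) (.e (nat_lit 73781) (nat_lit 32) (.e (nat_lit 3089) (nat_lit 191) (.e (nat_lit 491264) (nat_lit 23) .nil)))) .nil))) (.nd (nat_lit 5) 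
(.lf (nat_lit 34128) (.g (nat_lit 2147) (.e (nat_lit 1210) (nat_lit 89) (.e (nat_lit 73781) (nat_lit 32) (.e (nat_lit 3088) (nat_lit 191) (.e (nat_lit 483378) (nat_lit 23) (.e (nat_lit 335997) (nat_lit 1) (.e (nat_lit 57870) (nat_lit 264) .nil)))))) (.g (nat_lit 0) .nil .nil))) 
(.lf (nat_lit 34160) (.g (nat_lit 2419) (.e (nat_lit 1210) (nat_lit 89) (.e (nat_lit 73781) (nat_lit 32) (.e (nat_lit 3090) (nat_lit 191) (.e (nat_lit 483393) (nat_lit 23) (.e (nat_lit 335986) (nat_lit 1) (.e (nat_lit 57873) (nat_lit 264) .nil)))))) (.g (nat_lit 5) .nil .nil))))) (.nd (nat_lit 4) (.nd (nat_lit 5) 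
(.lf (nat_lit 34120) (.g (nat_lit 2774) (.e (nat_lit 1210) (nat_lit 89) (.e (nat_lit 73781) (nat_lit 32) (.e (nat_lit 2857) (nat_lit 184) (.e (nat_lit 426542) (nat_lit 29) (.e (nat_lit 352307) (nat_lit 21) (.e (nat_lit 57871) (nat_lit 264) .nil)))))) (.g (nat_lit 0) .nil .nil))) 
(.lf (nat_lit 34152) (.g (nat_lit 1626) (.e (nat_lit 1210) (nat_lit 89) (.e (nat_lit 73781) (nat_lit 32) (.e (nat_lit 3090) (nat_lit 191) (.e (nat_lit 483380) (nat_lit 23) (.e (nat_lit 343808) (nat_lit 1) .nil))))) .nil))) (.nd (nat_lit 5) 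
(.lf (nat_lit 34136) (.g (nat_lit 2199) (.e (nat_lit 1210) (nat_lit 89) (.e (nat_lit 73781) (nat_lit 32) (.e (nat_lit 3088) (nat_lit 191) (.e (nat_lit 483413) (nat_lit 27) (.e (nat_lit 401420) (nat_lit 1) (.e (nat_lit 164421) (nat_lit 272) .nil)))))) (.g (nat_lit 5) .nil .nil))) 
(.lf (nat_lit 34168) (.g (nat_lit 1277) (.e (nat_lit 1210) (nat_lit 89) (.e (nat_lit 73781) (nat_lit 32) (.e (nat_lit 3090) (nat_lit 191) (.e (nat_lit 483399) (nat_lit 25) .nil)))) .nil))))) (.nd (nat_lit 3) (.nd (nat_lit 4) (.nd (nat_lit 5) 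
(.lf (nat_lit 34116) (.g (nat_lit 1538) (.e (nat_lit 1210) (nat_lit 89) (.e (nat_lit 73781) (nat_lit 32) (.e (nat_lit 2856) (nat_lit 184) (.e (nat_lit 426544) (nat_lit 30) (.e (nat_lit 368384) (nat_lit 0) (.e (nat_lit 5902) (nat_lit 320) .nil)))))) (.g (nat_lit 4) .nil .nil))) 
(.lf (nat_lit 34148) (.g (nat_lit 2963) (.e (nat_lit 1210) (nat_lit 89) (.e (nat_lit 73781) (nat_lit 32) (.e (nat_lit 3090) (nat_lit 191) (.e (nat_lit 483372) (nat_lit 21) (.e (nat_lit 319505) (nat_lit 10) (.e (nat_lit 52) (nat_lit 0) (.e (nat_lit 4602) (nat_lit 269) .nil))))))) (.g (nat_lit 6) .nil .nil)))) (.nd (nat_lit 5) 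
(.lf (nat_lit 34132) (.g (nat_lit 2375) (.e (nat_lit 1210) (nat_lit 89) (.e (nat_lit 73781) (nat_lit 32) (.e (nat_lit 3088) (nat_lit 191) (.e (nat_lit 483393) (nat_lit 23) (.e (nat_lit 335986) (nat_lit 1) (.e (nat_lit 57871) (nat_lit 264) .nil)))))) (.g (nat_lit 6) .nil .nil))) 
(.lf (nat_lit 34164) (.g (nat_lit 1178) (.e (nat_lit 1210) (nat_lit 89) (.e (nat_lit 73781) (nat_lit 32) (.e (nat_lit 3090) (nat_lit 191) (.e (nat_lit 483395) (nat_lit 24) .nil)))) .nil)))) (.nd (nat_lit 4) (.nd (nat_lit 5) 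
(.lf (nat_lit 34124) (.g (nat_lit 339) (.e (nat_lit 1210) (nat_lit 89) (.e (nat_lit 73781) (nat_lit 32) (.e (nat_lit 3087) (nat_lit 191) .nil))) .nil)) 
(.lf (nat_lit 34156) (.g (nat_lit 1339) (.e (nat_lit 1210) (nat_lit 89) (.e (nat_lit 73781) (nat_lit 32) (.e (nat_lit 3090) (nat_lit 191) (.e (nat_lit 483389) (nat_lit 23) .nil)))) .nil))) (.nd (nat_lit 5) 
(.lf (nat_lit 34140) (.g (nat_lit 1420) (.e (nat_lit 1210) (nat_lit 89) (.e (nat_lit 73781) (nat_lit 32) (.e (nat_lit 3089) (nat_lit 191) (.e (nat_lit 483383) (nat_lit 23) (.e (nat_lit 335878) (nat_lit 0) .nil))))) .nil)) 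
(.lf (nat_lit 34172) (.g (nat_lit 1901) (.e (nat_lit 1210) (nat_lit 89) (.e (nat_lit 73782) (nat_lit 32) (.e (nat_lit 2854) (nat_lit 184) (.e (nat_lit 426542) (nat_lit 29) (.e (nat_lit 352309) (nat_lit 21) (.e (nat_lit 57870) (nat_lit 264) .nil)))))) (.g (nat_lit 6) .nil .nil))))))) (.nd (nat_lit 2) (.nd (nat_lit 3) (.nd (nat_lit 4) (.nd (nat_lit 5) 
(.lf (nat_lit 34114) (.g (nat_lit 3067) (.e (nat_lit 1210) (nat_lit 89) (.e (nat_lit 73781) (nat_lit 32) (.e (nat_lit 2856) (nat_lit 184) (.e (nat_lit 426542) (nat_lit 29) (.e (nat_lit 352309) (nat_lit 21) (.e (nat_lit 57871) (nat_lit 264) .nil)))))) (.g (nat_lit 0) .nil .nil))) 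
(.lf (nat_lit 34146) (.g (nat_lit 1682) (.e (nat_lit 1210) (nat_lit 89) (.e (nat_lit 73781) (nat_lit 32) (.e (nat_lit 3090) (nat_lit 191) (.e (nat_lit 483350) (nat_lit 17) (.e (nat_lit 7936) (nat_lit 343) .nil))))) .nil))) (.nd (nat_lit 5) 
(.lf (nat_lit 34130) (.g (nat_lit 1075) (.e (nat_lit 1210) (nat_lit 89) (.e (nat_lit 73781) (nat_lit 32) (.e (nat_lit 3088) (nat_lit 191) (.e (nat_lit 483389) (nat_lit 23) .nil)))) .nil)) 
(.lf (nat_lit 34162) (.g (nat_lit 1129) (.e (nat_lit 1210) (nat_lit 89) (.e (nat_lit 73781) (nat_lit 32) (.e (nat_lit 3090) (nat_lit 191) (.e (nat_lit 483394) (nat_lit 24) .nil)))) .nil)))) (.nd (nat_lit 4) (.nd (nat_lit 5) 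
(.lf (nat_lit 34122) (.g (nat_lit 1296) (.e (nat_lit 1210) (nat_lit 89) (.e (nat_lit 73781) (nat_lit 32) (.e (nat_lit 2857) (nat_lit 184) (.e (nat_lit 426544) (nat_lit 30) (.e (nat_lit 368384) (nat_lit 0) .nil))))) .nil)) 
(.lf (nat_lit 34154) (.g (nat_lit 1063) (.e (nat_lit 1210) (nat_lit 89) (.e (nat_lit 73781) (nat_lit 32) (.e (nat_lit 3090) (nat_lit 191) (.e (nat_lit 483386) (nat_lit 23) .nil)))) .nil))) (.nd (nat_lit 5) 
(.lf (nat_lit 34138) (.g (nat_lit 2057) (.e (nat_lit 1210) (nat_lit 89) (.e (nat_lit 73781) (nat_lit 32) (.e (nat_lit 3088) (nat_lit 191) (.e (nat_lit 483413) (nat_lit 27) (.e (nat_lit 401421) (nat_lit 1) .nil))))) .nil)) 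
(.lf (nat_lit 34170) (.g (nat_lit 1212) (.e (nat_lit 1210) (nat_lit 89) (.e (nat_lit 73781) (nat_lit 32) (.e (nat_lit 3090) (nat_lit 191) (.e (nat_lit 483400) (nat_lit 25) .nil)))) .nil))))) (.nd (nat_lit 3) (.nd (nat_lit 4) (.nd (nat_lit 5) 
(.lf (nat_lit 34118) (.g (nat_lit 1397) (.e (nat_lit 1210) (nat_lit 89) (.e (nat_lit 73781) (nat_lit 32) (.e (nat_lit 2856) (nat_lit 184) (.e (nat_lit 426546) (nat_lit 30) (.e (nat_lit 368384) (nat_lit 0) (.e (nat_lit 5902) (nat_lit 320) .nil)))))) (.g (nat_lit 4) .nil .nil))) 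
(.lf (nat_lit 34150) (.g (nat_lit 2359) (.e (nat_lit 1210) (nat_lit 89) (.e (nat_lit 73781) (nat_lit 32) (.e (nat_lit 3090) (nat_lit 191) (.e (nat_lit 483378) (nat_lit 23) (.e (nat_lit 335997) (nat_lit 1) (.e (nat_lit 57871) (nat_lit 264) .nil)))))) (.g (nat_lit 0) .nil .nil)))) (.nd (nat_lit 5) 
(.lf (nat_lit 34134) (.g (nat_lit 2880) (.e (nat_lit 1210) (nat_lit 89) (.e (nat_lit 73781) (nat_lit 32) (.e (nat_lit 3088) (nat_lit 191) (.e (nat_lit 483393) (nat_lit 23) (.e (nat_lit 335996) (nat_lit 1) (.e (nat_lit 57870) (nat_lit 264) .nil)))))) (.g (nat_lit 6) .nil .nil))) 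
(.lf (nat_lit 34166) (.g (nat_lit 1147) (.e (nat_lit 1210) (nat_lit 89) (.e (nat_lit 73781) (nat_lit 32) (.e (nat_lit 3090) (nat_lit 191) (.e (nat_lit 483396) (nat_lit 24) .nil)))) .nil)))) (.nd (nat_lit 4) (.nd (nat_lit 5) 
(.lf (nat_lit 34126) (.g (nat_lit 625) (.e (nat_lit 1210) (nat_lit 89) (.e (nat_lit 73781) (nat_lit 32) (.e (nat_lit 3087) (nat_lit 191) (.e (nat_lit 483389) (nat_lit 23) (.e (nat_lit 335997) (nat_lit 1) .nil))))) .nil)) 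
(.lf (nat_lit 34158) (.g (nat_lit 1796) (.e (nat_lit 1210) (nat_lit 89) (.e (nat_lit 73781) (nat_lit 32) (.e (nat_lit 3090) (nat_lit 191) (.e (nat_lit 483393) (nat_lit 23) (.e (nat_lit 335986) (nat_lit 1) .nil))))) .nil))) (.nd (nat_lit 5) 
(.lf (nat_lit 34142) (.g (nat_lit 1526) (.e (nat_lit 1210) (nat_lit 89) (.e (nat_lit 73781) (nat_lit 32) (.e (nat_lit 3089) (nat_lit 191) (.e (nat_lit 483389) (nat_lit 23) (.e (nat_lit 335997) (nat_lit 1) (.e (nat_lit 57870) (nat_lit 264) .nil)))))) (.g (nat_lit 5) .nil .nil))) 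
(.lf (nat_lit 34174) (.g (nat_lit 2154) (.e (nat_lit 1210) (nat_lit 89) (.e (nat_lit 73782) (nat_lit 32) (.e (nat_lit 2855) (nat_lit 184) (.e (nat_lit 426542) (nat_lit 29) (.e (nat_lit 352307) (nat_lit 21) (.e (nat_lit 57870) (nat_lit 264) .nil)))))) (.g (nat_lit 6) .nil .nil)))))))) (.nd (nat_lit 1) (.nd (nat_lit 2) (.nd (nat_lit 3) (.nd (nat_lit 4) (.nd (nat_lit 5) 
(.lf (nat_lit 34113) (.g (nat_lit 2880) (.e (nat_lit 1210) (nat_lit 89) (.e (nat_lit 73781) (nat_lit 32) (.e (nat_lit 2856) (nat_lit 184) (.e (nat_lit 426542) (nat_lit 29) (.e (nat_lit 352309) (nat_lit 21) (.e (nat_lit 57870) (nat_lit 264) .nil)))))) (.g (nat_lit 0) .nil .nil))) 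
(.lf (nat_lit 34145) (.g (nat_lit 315) (.e (nat_lit 1210) (nat_lit 89) (.e (nat_lit 73781) (nat_lit 32) (.e (nat_lit 3090) (nat_lit 191) .nil))) .nil))) (.nd (nat_lit 5) 
(.lf (nat_lit 34129) (.g (nat_lit 2141) (.e (nat_lit 1210) (nat_lit 89) (.e (nat_lit 73781) (nat_lit 32) (.e (nat_lit 3088) (nat_lit 191) (.e (nat_lit 483378) (nat_lit 23) (.e (nat_lit 335997) (nat_lit 1) (.e (nat_lit 57871) (nat_lit 264) .nil)))))) (.g (nat_lit 0) .nil .nil))) 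
(.lf (nat_lit 34161) (.g (nat_lit 2855) (.e (nat_lit 1210) (nat_lit 89) (.e (nat_lit 73781) (nat_lit 32) (.e (nat_lit 3090) (nat_lit 191) (.e (nat_lit 483393) (nat_lit 23) (.e (nat_lit 335996) (nat_lit 1) (.e (nat_lit 57870) (nat_lit 264) .nil)))))) (.g (nat_lit 5) .nil .nil))))) (.nd (nat_lit 4) (.nd (nat_lit 5) 
(.lf (nat_lit 34121) (.g (nat_lit 2597) (.e (nat_lit 1210) (nat_lit 89) (.e (nat_lit 73781) (nat_lit 32) (.e (nat_lit 2857) (nat_lit 184) (.e (nat_lit 426542) (nat_lit 29) (.e (nat_lit 352309) (nat_lit 21) (.e (nat_lit 57871) (nat_lit 264) .nil)))))) (.g (nat_lit 0) .nil .nil))) 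
(.lf (nat_lit 34153) (.g (nat_lit 2068) (.e (nat_lit 1210) (nat_lit 89) (.e (nat_lit 73781) (nat_lit 32) (.e (nat_lit 3090) (nat_lit 191) (.e (nat_lit 483383) (nat_lit 23) (.e (nat_lit 336000) (nat_lit 1) .nil))))) .nil))) (.nd (nat_lit 5) 
(.lf (nat_lit 34137) (.g (nat_lit 2100) (.e (nat_lit 1210) (nat_lit 89) (.e (nat_lit 73781) (nat_lit 32) (.e (nat_lit 3088) (nat_lit 191) (.e (nat_lit 483413) (nat_lit 27) (.e (nat_lit 401420) (nat_lit 1) (.e (nat_lit 164422) (nat_lit 272) .nil)))))) (.g (nat_lit 4) .nil .nil))) 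
(.lf (nat_lit 34169) (.g (nat_lit 2033) (.e (nat_lit 1210) (nat_lit 89) (.e (nat_lit 73781) (nat_lit 32) (.e (nat_lit 3090) (nat_lit 191) (.e (nat_lit 483399) (nat_lit 25) (.e (nat_lit 368662) (nat_lit 18) (.e (nat_lit 5907) (nat_lit 320) .nil)))))) (.g (nat_lit 5) .nil .nil)))))) (.nd (nat_lit 3) (.nd (nat_lit 4) (.nd (nat_lit 5) 
(.lf (nat_lit 34117) (.g (nat_lit 2574) (.e (nat_lit 1210) (nat_lit 89) (.e (nat_lit 73781) (nat_lit 32) (.e (nat_lit 2856) (nat_lit 184) (.e (nat_lit 426546) (nat_lit 30) (.e (nat_lit 360452) (nat_lit 0) (.e (nat_lit 5905) (nat_lit 320) .nil)))))) (.g (nat_lit 0) .nil .nil))) 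
(.lf (nat_lit 34149) (.g (nat_lit 2554) (.e (nat_lit 1210) (nat_lit 89) (.e (nat_lit 73781) (nat_lit 32) (.e (nat_lit 3090) (nat_lit 191) (.e (nat_lit 483372) (nat_lit 21) (.e (nat_lit 319516) (nat_lit 11) (.e (nat_lit 8484) (nat_lit 168) .nil)))))) (.g (nat_lit 4) .nil .nil)))) (.nd (nat_lit 5) 
(.lf (nat_lit 34133) (.g (nat_lit 2601) (.e (nat_lit 1210) (nat_lit 89) (.e (nat_lit 73781) (nat_lit 32) (.e (nat_lit 3088) (nat_lit 191) (.e (nat_lit 483393) (nat_lit 23) (.e (nat_lit 335988) (nat_lit 1) (.e (nat_lit 57870) (nat_lit 264) .nil)))))) (.g (nat_lit 6) .nil .nil))) 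
(.lf (nat_lit 34165) (.g (nat_lit 2887) (.e (nat_lit 1210) (nat_lit 89) (.e (nat_lit 73781) (nat_lit 32) (.e (nat_lit 3090) (nat_lit 191) (.e (nat_lit 483395) (nat_lit 24) (.e (nat_lit 344097) (nat_lit 18) (.e (nat_lit 5905) (nat_lit 320) .nil)))))) (.g (nat_lit 0) .nil .nil))))) (.nd (nat_lit 4) (.nd (nat_lit 5) 
(.lf (nat_lit 34125) (.g (nat_lit 769) (.e (nat_lit 1210) (nat_lit 89) (.e (nat_lit 73781) (nat_lit 32) (.e (nat_lit 3087) (nat_lit 191) (.e (nat_lit 483387) (nat_lit 23) (.e (nat_lit 335997) (nat_lit 1) .nil))))) .nil)) 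
(.lf (nat_lit 34157) (.g (nat_lit 1463) (.e (nat_lit 1210) (nat_lit 89) (.e (nat_lit 73781) (nat_lit 32) (.e (nat_lit 3090) (nat_lit 191) (.e (nat_lit 483392) (nat_lit 23) .nil)))) .nil))) (.nd (nat_lit 5) 
(.lf (nat_lit 34141) (.g (nat_lit 1408) (.e (nat_lit 1210) (nat_lit 89) (.e (nat_lit 73781) (nat_lit 32) (.e (nat_lit 3089) (nat_lit 191) (.e (nat_lit 483383) (nat_lit 23) (.e (nat_lit 336000) (nat_lit 1) (.e (nat_lit 57870) (nat_lit 264) .nil)))))) (.g (nat_lit 4) .nil .nil))) 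
(.lf (nat_lit 34173) (.g (nat_lit 525) (.e (nat_lit 1210) (nat_lit 89) (.e (nat_lit 73782) (nat_lit 32) (.e (nat_lit 2855) (nat_lit 184) .nil))) .nil)))))) (.nd (nat_lit 2) (.nd (nat_lit 3) (.nd (nat_lit 4) (.nd (nat_lit 5) 
(.lf (nat_lit 34115) (.g (nat_lit 1825) (.e (nat_lit 1210) (nat_lit 89) (.e (nat_lit 73781) (nat_lit 32) (.e (nat_lit 2856) (nat_lit 184) (.e (nat_lit 426544) (nat_lit 30) (.e (nat_lit 360452) (nat_lit 0) .nil))))) .nil)) 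
(.lf (nat_lit 34147) (.g (nat_lit 2597) (.e (nat_lit 1210) (nat_lit 89) (.e (nat_lit 73781) (nat_lit 32) (.e (nat_lit 3090) (nat_lit 191) (.e (nat_lit 483372) (nat_lit 21) (.e (nat_lit 319505) (nat_lit 10) (.e (nat_lit 34) (nat_lit 0) (.e (nat_lit 4602) (nat_lit 269) .nil))))))) (.g (nat_lit 5) .nil .nil)))) (.nd (nat_lit 5) 
(.lf (nat_lit 34131) (.g (nat_lit 1161) (.e (nat_lit 1210) (nat_lit 89) (.e (nat_lit 73781) (nat_lit 32) (.e (nat_lit 3088) (nat_lit 191) (.e (nat_lit 483390) (nat_lit 23) (.e (nat_lit 335997) (nat_lit 1) .nil))))) .nil)) 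
(.lf (nat_lit 34163) (.g (nat_lit 3020) (.e (nat_lit 1210) (nat_lit 89) (.e (nat_lit 73781) (nat_lit 32) (.e (nat_lit 3090) (nat_lit 191) (.e (nat_lit 483394) (nat_lit 24) (.e (nat_lit 344097) (nat_lit 18) (.e (nat_lit 5905) (nat_lit 320) .nil)))))) (.g (nat_lit 0) .nil .nil))))) (.nd (nat_lit 4) (.nd (nat_lit 5) 
(.lf (nat_lit 34123) (.g (nat_lit 1179) (.e (nat_lit 1210) (nat_lit 89) (.e (nat_lit 73781) (nat_lit 32) (.e (nat_lit 2857) (nat_lit 184) (.e (nat_lit 426546) (nat_lit 30) (.e (nat_lit 368384) (nat_lit 0) (.e (nat_lit 5902) (nat_lit 320) .nil)))))) (.g (nat_lit 4) .nil .nil))) 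
(.lf (nat_lit 34155) (.g (nat_lit 1893) (.e (nat_lit 1210) (nat_lit 89) (.e (nat_lit 73781) (nat_lit 32) (.e (nat_lit 3090) (nat_lit 191) (.e (nat_lit 483386) (nat_lit 23) (.e (nat_lit 335992) (nat_lit 1) (.e (nat_lit 57870) (nat_lit 264) .nil)))))) (.g (nat_lit 6) .nil .nil)))) (.nd (nat_lit 5) 
(.lf (nat_lit 34139) (.g (nat_lit 321) (.e (nat_lit 1210) (nat_lit 89) (.e (nat_lit 73781) (nat_lit 32) (.e (nat_lit 3089) (nat_lit 191) .nil))) .nil)) 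
(.lf (nat_lit 34171) (.g (nat_lit 539) (.e (nat_lit 1210) (nat_lit 89) (.e (nat_lit 73782) (nat_lit 32) (.e (nat_lit 2854) (nat_lit 184) .nil))) .nil))))) (.nd (nat_lit 3) (.nd (nat_lit 4) (.nd (nat_lit 5) 
(.lf (nat_lit 34119) (.g (nat_lit 2974) (.e (nat_lit 1210) (nat_lit 89) (.e (nat_lit 73781) (nat_lit 32) (.e (nat_lit 2856) (nat_lit 184) (.e (nat_lit 426555) (nat_lit 32) (.e (nat_lit 376860) (nat_lit 21) (.e (nat_lit 57870) (nat_lit 264) .nil)))))) (.g (nat_lit 6) .nil .nil))) 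
(.lf (nat_lit 34151) (.g (nat_lit 1066) (.e (nat_lit 1210) (nat_lit 89) (.e (nat_lit 73781) (nat_lit 32) (.e (nat_lit 3090) (nat_lit 191) (.e (nat_lit 483380) (nat_lit 23) .nil)))) .nil))) (.nd (nat_lit 5) 
(.lf (nat_lit 34135) (.g (nat_lit 2868) (.e (nat_lit 1210) (nat_lit 89) (.e (nat_lit 73781) (nat_lit 32) (.e (nat_lit 3088) (nat_lit 191) (.e (nat_lit 483395) (nat_lit 24) (.e (nat_lit 344097) (nat_lit 18) (.e (nat_lit 5905) (nat_lit 320) .nil)))))) (.g (nat_lit 0) .nil .nil))) 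
(.lf (nat_lit 34167) (.g (nat_lit 1714) (.e (nat_lit 1210) (nat_lit 89) (.e (nat_lit 73781) (nat_lit 32) (.e (nat_lit 3090) (nat_lit 191) (.e (nat_lit 483396) (nat_lit 24) (.e (nat_lit 344093) (nat_lit 18) .nil))))) .nil)))) (.nd (nat_lit 4) (.nd (nat_lit 5) 
(.lf (nat_lit 34127) (.g (nat_lit 358) (.e (nat_lit 1210) (nat_lit 89) (.e (nat_lit 73781) (nat_lit 32) (.e (nat_lit 3088) (nat_lit 191) .nil))) .nil)) 
(.lf (nat_lit 34159) (.g (nat_lit 2486) (.e (nat_lit 1210) (nat_lit 89) (.e (nat_lit 73781) (nat_lit 32) (.e (nat_lit 3090) (nat_lit 191) (.e (nat_lit 483393) (nat_lit 23) (.e (nat_lit 335986) (nat_lit 1) (.e (nat_lit 57871) (nat_lit 264) .nil)))))) (.g (nat_lit 5) .nil .nil)))) (.nd (nat_lit 5) 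
(.lf (nat_lit 34143) (.g (nat_lit 2264) (.e (nat_lit 1210) (nat_lit 89) (.e (nat_lit 73781) (nat_lit 32) (.e (nat_lit 3089) (nat_lit 191) (.e (nat_lit 483393) (nat_lit 23) (.e (nat_lit 335995) (nat_lit 1) (.e (nat_lit 57870) (nat_lit 264) .nil)))))) (.g (nat_lit 5) .nil .nil))) 
(.lf (nat_lit 34175) (.g (nat_lit 2465) (.e (nat_lit 1210) (nat_lit 89) (.e (nat_lit 73782) (nat_lit 32) (.e (nat_lit 2855) (nat_lit 184) (.e (nat_lit 426542) (nat_lit 29) (.e (nat_lit 352307) (nat_lit 21) (.e (nat_lit 57871) (nat_lit 264) .nil)))))) (.g (nat_lit 6) .nil .nil)))))))))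

noncomputable def tv477 : DT := (.nd (nat_lit 0) (.nd (nat_lit 1) (.nd (nat_lit 2) (.nd (nat_lit 3) (.nd (nat_lit 4) (.nd (nat_lit 5) (.nd (nat_lit 6) 
(.lf (nat_lit 34176) (.g (nat_lit 2089) (.e (nat_lit 1210) (nat_lit 89) (.e (nat_lit 73782) (nat_lit 32) (.e (nat_lit 2855) (nat_lit 184) (.e (nat_lit 426542) (nat_lit 29) (.e (nat_lit 352309) (nat_lit 21) (.e (nat_lit 57870) (nat_lit 264) .nil)))))) (.g (nat_lit 6) .nil .nil))) 
(.lf (nat_lit 34240) (.g (nat_lit 1865) (.e (nat_lit 1210) (nat_lit 89) (.e (nat_lit 73782) (nat_lit 32) (.e (nat_lit 3090) (nat_lit 191) (.e (nat_lit 483396) (nat_lit 24) (.e (nat_lit 344093) (nat_lit 18) .nil))))) .nil))) (.nd (nat_lit 6) 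
(.lf (nat_lit 34208) (.g (nat_lit 2341) (.e (nat_lit 1210) (nat_lit 89) (.e (nat_lit 73782) (nat_lit 32) (.e (nat_lit 3088) (nat_lit 191) (.e (nat_lit 483413) (nat_lit 27) (.e (nat_lit 401420) (nat_lit 1) .nil))))) .nil)) 
(.lf (nat_lit 34272) (.g (nat_lit 4432) (.e (nat_lit 1211) (nat_lit 89) (.e (nat_lit 73754) (nat_lit 8) (.e (nat_lit 557091) (nat_lit 12) (.e (nat_lit 164238) (nat_lit 187) (.e (nat_lit 1427) (nat_lit 108) (.e (nat_lit 336369) (nat_lit 27) (.e (nat_lit 426109) (nat_lit 1) (.e (nat_lit 164163) (nat_lit 152) .nil)))))))) (.g (nat_lit 5) .nil .nil))))) (.nd (nat_lit 5) (.nd (nat_lit 6) 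
(.lf (nat_lit 34192) (.g (nat_lit 1231) (.e (nat_lit 1210) (nat_lit 89) (.e (nat_lit 73782) (nat_lit 32) (.e (nat_lit 2857) (nat_lit 184) (.e (nat_lit 426546) (nat_lit 30) .nil)))) .nil)) 
(.lf (nat_lit 34256) (.g (nat_lit 1261) (.e (nat_lit 1211) (nat_lit 89) (.e (nat_lit 73731) (nat_lit 0) (.e (nat_lit 7266) (nat_lit 384) (.e (nat_lit 57421) (nat_lit 13) .nil)))) .nil))) (.nd (nat_lit 6) 
(.lf (nat_lit 34224) (.g (nat_lit 2578) (.e (nat_lit 1210) (nat_lit 89) (.e (nat_lit 73782) (nat_lit 32) (.e (nat_lit 3090) (nat_lit 191) (.e (nat_lit 483372) (nat_lit 21) (.e (nat_lit 319516) (nat_lit 11) .nil))))) .nil)) 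
(.lf (nat_lit 34288) (.g (nat_lit 1060) (.e (nat_lit 1211) (nat_lit 89) (.e (nat_lit 73754) (nat_lit 8) (.e (nat_lit 557095) (nat_lit 13) (.e (nat_lit 179968) (nat_lit 20) .nil)))) .nil))))) (.nd (nat_lit 4) (.nd (nat_lit 5) (.nd (nat_lit 6) 
(.lf (nat_lit 34184) (.g (nat_lit 1941) (.e (nat_lit 1210) (nat_lit 89) (.e (nat_lit 73782) (nat_lit 32) (.e (nat_lit 2856) (nat_lit 184) (.e (nat_lit 426544) (nat_lit 30) (.e (nat_lit 368384) (nat_lit 0) (.e (nat_lit 5905) (nat_lit 320) .nil)))))) (.g (nat_lit 4) .nil .nil))) 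
(.lf (nat_lit 34248) (.g (nat_lit 1224) (.e (nat_lit 1211) (nat_lit 89) (.e (nat_lit 73731) (nat_lit 0) (.e (nat_lit 7125) (nat_lit 382) (.e (nat_lit 1212) (nat_lit 89) .nil)))) .nil))) (.nd (nat_lit 6) 
(.lf (nat_lit 34216) (.g (nat_lit 2552) (.e (nat_lit 1210) (nat_lit 89) (.e (nat_lit 73782) (nat_lit 32) (.e (nat_lit 3089) (nat_lit 191) (.e (nat_lit 483393) (nat_lit 23) (.e (nat_lit 335988) (nat_lit 1) (.e (nat_lit 57870) (nat_lit 264) .nil)))))) (.g (nat_lit 6) .nil .nil))) 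
(.lf (nat_lit 34280) (.g (nat_lit 474) (.e (nat_lit 1211) (nat_lit 89) (.e (nat_lit 73754) (nat_lit 8) (.e (nat_lit 557094) (nat_lit 12) .nil))) .nil)))) (.nd (nat_lit 5) (.nd (nat_lit 6) 
(.lf (nat_lit 34200) (.g (nat_lit 1325) (.e (nat_lit 1210) (nat_lit 89) (.e (nat_lit 73782) (nat_lit 32) (.e (nat_lit 3088) (nat_lit 191) (.e (nat_lit 483389) (nat_lit 23) .nil)))) .nil)) 
(.lf (nat_lit 34264) (.g (nat_lit 1867) (.e (nat_lit 1211) (nat_lit 89) (.e (nat_lit 73748) (nat_lit 3) (.e (nat_lit 516176) (nat_lit 14) (.e (nat_lit 466981) (nat_lit 23) (.e (nat_lit 204821) (nat_lit 17) (.e (nat_lit 991) (nat_lit 81) (.e (nat_lit 4500) (nat_lit 263) .nil))))))) (.g (nat_lit 4) .nil .nil)))) (.nd (nat_lit 6) 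
(.lf (nat_lit 34232) (.g (nat_lit 1459) (.e (nat_lit 1210) (nat_lit 89) (.e (nat_lit 73782) (nat_lit 32) (.e (nat_lit 3090) (nat_lit 191) (.e (nat_lit 483389) (nat_lit 23) .nil)))) .nil)) 
(.lf (nat_lit 34296) (.g (nat_lit 1224) (.e (nat_lit 1211) (nat_lit 89) (.e (nat_lit 73754) (nat_lit 8) (.e (nat_lit 557101) (nat_lit 13) (.e (nat_lit 172070) (nat_lit 4) .nil)))) .nil)))))) (.nd (nat_lit 3) (.nd (nat_lit 4) (.nd (nat_lit 5) (.nd (nat_lit 6) 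
(.lf (nat_lit 34180) (.g (nat_lit 471) (.e (nat_lit 1210) (nat_lit 89) (.e (nat_lit 73782) (nat_lit 32) (.e (nat_lit 2856) (nat_lit 184) .nil))) .nil)) 
(.lf (nat_lit 34244) (.g (nat_lit 1332) (.e (nat_lit 1210) (nat_lit 89) (.e (nat_lit 73782) (nat_lit 32) (.e (nat_lit 3090) (nat_lit 191) (.e (nat_lit 483400) (nat_lit 25) .nil)))) .nil))) (.nd (nat_lit 6) 
(.lf (nat_lit 34212) (.g (nat_lit 2128) (.e (nat_lit 1210) (nat_lit 89) (.e (nat_lit 73782) (nat_lit 32) (.e (nat_lit 3089) (nat_lit 191) (.e (nat_lit 483383) (nat_lit 23) (.e (nat_lit 336000) (nat_lit 1) (.e (nat_lit 57871) (nat_lit 264) .nil)))))) (.g (nat_lit 5) .nil .nil))) 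
(.lf (nat_lit 34276) (.g (nat_lit 2131) (.e (nat_lit 1211) (nat_lit 89) (.e (nat_lit 73754) (nat_lit 8) (.e (nat_lit 557093) (nat_lit 12) (.e (nat_lit 164238) (nat_lit 187) (.e (nat_lit 1660) (nat_lit 115) (.e (nat_lit 393253) (nat_lit 18) (.e (nat_lit 164163) (nat_lit 152) .nil))))))) (.g (nat_lit 4) .nil .nil))))) (.nd (nat_lit 5) (.nd (nat_lit 6) 
(.lf (nat_lit 34196) (.g (nat_lit 1051) (.e (nat_lit 1210) (nat_lit 89) (.e (nat_lit 73782) (nat_lit 32) (.e (nat_lit 3087) (nat_lit 191) (.e (nat_lit 483387) (nat_lit 23) (.e (nat_lit 335997) (nat_lit 1) .nil))))) .nil)) 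
(.lf (nat_lit 34260) (.g (nat_lit 1536) (.e (nat_lit 1211) (nat_lit 89) (.e (nat_lit 73746) (nat_lit 3) (.e (nat_lit 516165) (nat_lit 12) (.e (nat_lit 450579) (nat_lit 5) .nil)))) .nil))) (.nd (nat_lit 6) 
(.lf (nat_lit 34228) (.g (nat_lit 1758) (.e (nat_lit 1210) (nat_lit 89) (.e (nat_lit 73782) (nat_lit 32) (.e (nat_lit 3090) (nat_lit 191) (.e (nat_lit 483380) (nat_lit 23) (.e (nat_lit 343808) (nat_lit 1) .nil))))) .nil)) 
(.lf (nat_lit 34292) (.g (nat_lit 3476) (.e (nat_lit 1211) (nat_lit 89) (.e (nat_lit 73754) (nat_lit 8) (.e (nat_lit 557100) (nat_lit 13) (.e (nat_lit 179968) (nat_lit 20) (.e (nat_lit 114711) (nat_lit 21) (.e (nat_lit 57847) (nat_lit 252) (.e (nat_lit 57365) (nat_lit 1) (.e (nat_lit 57729) (nat_lit 181) .nil)))))))) (.g (nat_lit 7) .nil .nil)))))) 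
(.nd (nat_lit 4) (.nd (nat_lit 5) (.nd (nat_lit 6) 
(.lf (nat_lit 34188) (.g (nat_lit 1749) (.e (nat_lit 1210) (nat_lit 89) (.e (nat_lit 73782) (nat_lit 32) (.e (nat_lit 2857) (nat_lit 184) (.e (nat_lit 426542) (nat_lit 29) (.e (nat_lit 352309) (nat_lit 21) .nil))))) .nil)) 
(.lf (nat_lit 34252) (.g (nat_lit 1844) (.e (nat_lit 1211) (nat_lit 89) (.e (nat_lit 73731) (nat_lit 0) (.e (nat_lit 7125) (nat_lit 382) (.e (nat_lit 1214) (nat_lit 89) (.e (nat_lit 73753) (nat_lit 8) .nil))))) .nil))) (.nd (nat_lit 6) 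
(.lf (nat_lit 34220) (.g (nat_lit 2638) (.e (nat_lit 1210) (nat_lit 89) (.e (nat_lit 73782) (nat_lit 32) (.e (nat_lit 3089) (nat_lit 191) (.e (nat_lit 483395) (nat_lit 24) (.e (nat_lit 344097) (nat_lit 18) (.e (nat_lit 5905) (nat_lit 320) .nil)))))) (.g (nat_lit 6) .nil .nil))) 
(.lf (nat_lit 34284) (.g (nat_lit 1821) (.e (nat_lit 1211) (nat_lit 89) (.e (nat_lit 73754) (nat_lit 8) (.e (nat_lit 557094) (nat_lit 12) (.e (nat_lit 164238) (nat_lit 187) (.e (nat_lit 1660) (nat_lit 115) (.e (nat_lit 393253) (nat_lit 18) (.e (nat_lit 164147) (nat_lit 152) .nil))))))) (.g (nat_lit 4) .nil .nil))))) (.nd (nat_lit 5) (.nd (nat_lit 6) 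
(.lf (nat_lit 34204) (.g (nat_lit 2350) (.e (nat_lit 1210) (nat_lit 89) (.e (nat_lit 73782) (nat_lit 32) (.e (nat_lit 3088) (nat_lit 191) (.e (nat_lit 483393) (nat_lit 23) (.e (nat_lit 335986) (nat_lit 1) (.e (nat_lit 57871) (nat_lit 264) .nil)))))) (.g (nat_lit 5) .nil .nil))) 
(.lf (nat_lit 34268) (.g (nat_lit 631) (.e (nat_lit 1211) (nat_lit 89) (.e (nat_lit 73753) (nat_lit 8) (.e (nat_lit 557101) (nat_lit 13) .nil))) .nil))) (.nd (nat_lit 6) 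
(.lf (nat_lit 34236) (.g (nat_lit 1325) (.e (nat_lit 1210) (nat_lit 89) (.e (nat_lit 73782) (nat_lit 32) (.e (nat_lit 3090) (nat_lit 191) (.e (nat_lit 483395) (nat_lit 24) .nil)))) .nil)) 
(.lf (nat_lit 34300) (.g (nat_lit 1939) (.e (nat_lit 1211) (nat_lit 89) (.e (nat_lit 73754) (nat_lit 8) (.e (nat_lit 557105) (nat_lit 14) (.e (nat_lit 180248) (nat_lit 9) .nil)))) .nil))))))) (.nd (nat_lit 2) (.nd (nat_lit 3) (.nd (nat_lit 4) (.nd (nat_lit 5) (.nd (nat_lit 6) 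
(.lf (nat_lit 34178) (.g (nat_lit 790) (.e (nat_lit 1210) (nat_lit 89) (.e (nat_lit 73782) (nat_lit 32) (.e (nat_lit 2855) (nat_lit 184) (.e (nat_lit 426546) (nat_lit 30) .nil)))) .nil)) 
(.lf (nat_lit 34242) (.g (nat_lit 1407) (.e (nat_lit 1210) (nat_lit 89) (.e (nat_lit 73782) (nat_lit 32) (.e (nat_lit 3090) (nat_lit 191) (.e (nat_lit 483399) (nat_lit 25) .nil)))) .nil))) (.nd (nat_lit 6) 
(.lf (nat_lit 34210) (.g (nat_lit 2148) (.e (nat_lit 1210) (nat_lit 89) (.e (nat_lit 73782) (nat_lit 32) (.e (nat_lit 3089) (nat_lit 191) (.e (nat_lit 483378) (nat_lit 23) (.e (nat_lit 335997) (nat_lit 1) (.e (nat_lit 57871) (nat_lit 264) .nil)))))) (.g (nat_lit 6) .nil .nil))) 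
(.lf (nat_lit 34274) (.g (nat_lit 3277) (.e (nat_lit 1211) (nat_lit 89) (.e (nat_lit 73754) (nat_lit 8) (.e (nat_lit 557091) (nat_lit 12) (.e (nat_lit 164238) (nat_lit 187) (.e (nat_lit 1661) (nat_lit 115) .nil))))) .nil)))) (.nd (nat_lit 5) (.nd (nat_lit 6) 
(.lf (nat_lit 34194) (.g (nat_lit 633) (.e (nat_lit 1210) (nat_lit 89) (.e (nat_lit 73782) (nat_lit 32) (.e (nat_lit 3087) (nat_lit 191) .nil))) .nil)) 
(.lf (nat_lit 34258) (.g (nat_lit 1876) (.e (nat_lit 1211) (nat_lit 89) (.e (nat_lit 73731) (nat_lit 0) (.e (nat_lit 7695) (nat_lit 412) (.e (nat_lit 57389) (nat_lit 5) (.e (nat_lit 114714) (nat_lit 22) .nil))))) .nil))) (.nd (nat_lit 6) 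
(.lf (nat_lit 34226) (.g (nat_lit 2383) (.e (nat_lit 1210) (nat_lit 89) (.e (nat_lit 73782) (nat_lit 32) (.e (nat_lit 3090) (nat_lit 191) (.e (nat_lit 483378) (nat_lit 23) (.e (nat_lit 335997) (nat_lit 1) (.e (nat_lit 57871) (nat_lit 264) .nil)))))) (.g (nat_lit 6) .nil .nil))) 
(.lf (nat_lit 34290) (.g (nat_lit 2250) (.e (nat_lit 1211) (nat_lit 89) (.e (nat_lit 73754) (nat_lit 8) (.e (nat_lit 557100) (nat_lit 13) (.e (nat_lit 172138) (nat_lit 15) .nil)))) .nil))))) (.nd (nat_lit 4) (.nd (nat_lit 5) (.nd (nat_lit 6) 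
(.lf (nat_lit 34186) (.g (nat_lit 2595) (.e (nat_lit 1210) (nat_lit 89) (.e (nat_lit 73782) (nat_lit 32) (.e (nat_lit 2857) (nat_lit 184) (.e (nat_lit 426542) (nat_lit 29) (.e (nat_lit 352307) (nat_lit 21) (.e (nat_lit 57870) (nat_lit 264) .nil)))))) (.g (nat_lit 6) .nil .nil))) 
(.lf (nat_lit 34250) (.g (nat_lit 1212) (.e (nat_lit 1211) (nat_lit 89) (.e (nat_lit 73731) (nat_lit 0) (.e (nat_lit 7125) (nat_lit 382) (.e (nat_lit 1214) (nat_lit 89) .nil)))) .nil))) (.nd (nat_lit 6) 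
(.lf (nat_lit 34218) (.g (nat_lit 1235) (.e (nat_lit 1210) (nat_lit 89) (.e (nat_lit 73782) (nat_lit 32) (.e (nat_lit 3089) (nat_lit 191) (.e (nat_lit 491264) (nat_lit 23) .nil)))) .nil)) 
(.lf (nat_lit 34282) (.g (nat_lit 4265) (.e (nat_lit 1211) (nat_lit 89) (.e (nat_lit 73754) (nat_lit 8) (.e (nat_lit 557094) (nat_lit 12) (.e (nat_lit 164238) (nat_lit 187) (.e (nat_lit 1427) (nat_lit 108) (.e (nat_lit 336369) (nat_lit 27) (.e (nat_lit 426109) (nat_lit 1) (.e (nat_lit 164163) (nat_lit 152) .nil)))))))) (.g (nat_lit 7) .nil .nil))))) (.nd (nat_lit 5) (.nd (nat_lit 6) 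
(.lf (nat_lit 34202) (.g (nat_lit 1232) (.e (nat_lit 1210) (nat_lit 89) (.e (nat_lit 73782) (nat_lit 32) (.e (nat_lit 3088) (nat_lit 191) (.e (nat_lit 483393) (nat_lit 23) .nil)))) .nil)) 
(.lf (nat_lit 34266) (.g (nat_lit 2156) (.e (nat_lit 1211) (nat_lit 89) (.e (nat_lit 73753) (nat_lit 8) (.e (nat_lit 557091) (nat_lit 12) (.e (nat_lit 164238) (nat_lit 187) (.e (nat_lit 1428) (nat_lit 108) (.e (nat_lit 336369) (nat_lit 27) (.e (nat_lit 426109) (nat_lit 1) (.e (nat_lit 164163) (nat_lit 152) .nil)))))))) (.g (nat_lit 4) .nil .nil)))) (.nd (nat_lit 6) 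
(.lf (nat_lit 34234) (.g (nat_lit 1321) (.e (nat_lit 1210) (nat_lit 89) (.e (nat_lit 73782) (nat_lit 32) (.e (nat_lit 3090) (nat_lit 191) (.e (nat_lit 483394) (nat_lit 24) .nil)))) .nil)) 
(.lf (nat_lit 34298) (.g (nat_lit 1944) (.e (nat_lit 1211) (nat_lit 89) (.e (nat_lit 73754) (nat_lit 8) (.e (nat_lit 557101) (nat_lit 13) (.e (nat_lit 179968) (nat_lit 20) (.e (nat_lit 114711) (nat_lit 21) (.e (nat_lit 57847) (nat_lit 252) (.e (nat_lit 57365) (nat_lit 1) (.e (nat_lit 57729) (nat_lit 181) .nil)))))))) (.g (nat_lit 5) .nil .nil))))))) 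
(.nd (nat_lit 3) (.nd (nat_lit 4) (.nd (nat_lit 5) (.nd (nat_lit 6) 
(.lf (nat_lit 34182) (.g (nat_lit 1581) (.e (nat_lit 1210) (nat_lit 89) (.e (nat_lit 73782) (nat_lit 32) (.e (nat_lit 2856) (nat_lit 184) (.e (nat_lit 426542) (nat_lit 29) .nil)))) .nil)) 
(.lf (nat_lit 34246) (.g (nat_lit 1145) (.e (nat_lit 1211) (nat_lit 89) (.e (nat_lit 73731) (nat_lit 0) (.e (nat_lit 7122) (nat_lit 382) (.e (nat_lit 1214) (nat_lit 89) .nil)))) .nil))) (.nd (nat_lit 6) 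
(.lf (nat_lit 34214) (.g (nat_lit 1569) (.e (nat_lit 1210) (nat_lit 89) (.e (nat_lit 73782) (nat_lit 32) (.e (nat_lit 3089) (nat_lit 191) (.e (nat_lit 483393) (nat_lit 23) (.e (nat_lit 335986) (nat_lit 1) (.e (nat_lit 57870) (nat_lit 264) .nil)))))) (.g (nat_lit 4) .nil .nil))) 
(.lf (nat_lit 34278) (.g (nat_lit 1165) (.e (nat_lit 1211) (nat_lit 89) (.e (nat_lit 73754) (nat_lit 8) (.e (nat_lit 557093) (nat_lit 12) (.e (nat_lit 164239) (nat_lit 187) .nil)))) .nil)))) (.nd (nat_lit 5) (.nd (nat_lit 6) 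
(.lf (nat_lit 34198) (.g (nat_lit 2132) (.e (nat_lit 1210) (nat_lit 89) (.e (nat_lit 73782) (nat_lit 32) (.e (nat_lit 3088) (nat_lit 191) (.e (nat_lit 483378) (nat_lit 23) (.e (nat_lit 335997) (nat_lit 1) (.e (nat_lit 57871) (nat_lit 264) .nil)))))) (.g (nat_lit 5) .nil .nil))) 
(.lf (nat_lit 34262) (.g (nat_lit 783) (.e (nat_lit 1211) (nat_lit 89) (.e (nat_lit 73747) (nat_lit 3) (.e (nat_lit 516163) (nat_lit 11) .nil))) .nil))) (.nd (nat_lit 6) 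
(.lf (nat_lit 34230) (.g (nat_lit 1519) (.e (nat_lit 1210) (nat_lit 89) (.e (nat_lit 73782) (nat_lit 32) (.e (nat_lit 3090) (nat_lit 191) (.e (nat_lit 483386) (nat_lit 23) (.e (nat_lit 335985) (nat_lit 1) .nil))))) .nil)) 
(.lf (nat_lit 34294) (.g (nat_lit 501) (.e (nat_lit 1211) (nat_lit 89) (.e (nat_lit 73754) (nat_lit 8) (.e (nat_lit 557101) (nat_lit 13) .nil))) .nil))))) (.nd (nat_lit 4) (.nd (nat_lit 5) (.nd (nat_lit 6) 
(.lf (nat_lit 34190) (.g (nat_lit 2722) (.e (nat_lit 1210) (nat_lit 89) (.e (nat_lit 73782) (nat_lit 32) (.e (nat_lit 2857) (nat_lit 184) (.e (nat_lit 426542) (nat_lit 29) (.e (nat_lit 352309) (nat_lit 21) (.e (nat_lit 57871) (nat_lit 264) .nil)))))) (.g (nat_lit 6) .nil .nil))) 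
(.lf (nat_lit 34254) (.g (nat_lit 1997) (.e (nat_lit 1211) (nat_lit 89) (.e (nat_lit 73731) (nat_lit 0) (.e (nat_lit 7125) (nat_lit 382) (.e (nat_lit 1214) (nat_lit 89) (.e (nat_lit 73754) (nat_lit 8) .nil))))) .nil))) (.nd (nat_lit 6) 
(.lf (nat_lit 34222) (.g (nat_lit 1752) (.e (nat_lit 1210) (nat_lit 89) (.e (nat_lit 73782) (nat_lit 32) (.e (nat_lit 3090) (nat_lit 191) (.e (nat_lit 483350) (nat_lit 17) (.e (nat_lit 6490) (nat_lit 343) .nil))))) .nil)) 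
(.lf (nat_lit 34286) (.g (nat_lit 2585) (.e (nat_lit 1211) (nat_lit 89) (.e (nat_lit 73754) (nat_lit 8) (.e (nat_lit 557094) (nat_lit 12) (.e (nat_lit 164238) (nat_lit 187) (.e (nat_lit 1661) (nat_lit 115) (.e (nat_lit 393252) (nat_lit 18) (.e (nat_lit 164147) (nat_lit 152) .nil))))))) (.g (nat_lit 5) .nil .nil))))) (.nd (nat_lit 5) (.nd (nat_lit 6) 
(.lf (nat_lit 34206) (.g (nat_lit 2602) (.e (nat_lit 1210) (nat_lit 89) (.e (nat_lit 73782) (nat_lit 32) (.e (nat_lit 3088) (nat_lit 191) (.e (nat_lit 483393) (nat_lit 23) (.e (nat_lit 335988) (nat_lit 1) (.e (nat_lit 57870) (nat_lit 264) .nil)))))) (.g (nat_lit 5) .nil .nil))) 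
(.lf (nat_lit 34270) (.g (nat_lit 835) (.e (nat_lit 1211) (nat_lit 89) (.e (nat_lit 73754) (nat_lit 8) (.e (nat_lit 557087) (nat_lit 11) .nil))) .nil))) (.nd (nat_lit 6) 
(.lf (nat_lit 34238) (.g (nat_lit 2379) (.e (nat_lit 1210) (nat_lit 89) (.e (nat_lit 73782) (nat_lit 32) (.e (nat_lit 3090) (nat_lit 191) (.e (nat_lit 483395) (nat_lit 24) (.e (nat_lit 344097) (nat_lit 18) (.e (nat_lit 5907) (nat_lit 320) .nil)))))) (.g (nat_lit 5) .nil .nil))) 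
(.lf (nat_lit 34302) (.g (nat_lit 2885) (.e (nat_lit 1211) (nat_lit 89) (.e (nat_lit 73754) (nat_lit 8) (.e (nat_lit 557105) (nat_lit 14) (.e (nat_lit 180261) (nat_lit 20) (.e (nat_lit 655364) (nat_lit 0) (.e (nat_lit 2964) (nat_lit 185) (.e (nat_lit 434209) (nat_lit 18) (.e (nat_lit 6306) (nat_lit 337) .nil)))))))) (.g (nat_lit 4) .nil .nil))))))))) 
(.nd (nat_lit 1) (.nd (nat_lit 2) (.nd (nat_lit 3) (.nd (nat_lit 4) (.nd (nat_lit 5) 
(.nd (nat_lit 6) 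
(.lf (nat_lit 34177) (.g (nat_lit 2264) (.e (nat_lit 1210) (nat_lit 89) (.e (nat_lit 73782) (nat_lit 32) (.e (nat_lit 2855) (nat_lit 184) (.e (nat_lit 426542) (nat_lit 29) (.e (nat_lit 352309) (nat_lit 21) (.e (nat_lit 57871) (nat_lit 264) .nil)))))) (.g (nat_lit 6) .nil .nil))) 
(.lf (nat_lit 34241) (.g (nat_lit 1880) (.e (nat_lit 1210) (nat_lit 89) (.e (nat_lit 73782) (nat_lit 32) (.e (nat_lit 3090) (nat_lit 191) (.e (nat_lit 483396) (nat_lit 24) (.e (nat_lit 344097) (nat_lit 18) .nil))))) .nil))) (.nd (nat_lit 6) 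
(.lf (nat_lit 34209) (.g (nat_lit 484) (.e (nat_lit 1210) (nat_lit 89) (.e (nat_lit 73782) (nat_lit 32) (.e (nat_lit 3089) (nat_lit 191) .nil))) .nil)) 
(.lf (nat_lit 34273) (.g (nat_lit 4092) (.e (nat_lit 1211) (nat_lit 89) (.e (nat_lit 73754) (nat_lit 8) (.e (nat_lit 557091) (nat_lit 12) (.e (nat_lit 164238) (nat_lit 187) (.e (nat_lit 1428) (nat_lit 108) (.e (nat_lit 336369) (nat_lit 27) (.e (nat_lit 426109) (nat_lit 1) (.e (nat_lit 164163) (nat_lit 152) .nil)))))))) (.g (nat_lit 5) .nil .nil))))) (.nd (nat_lit 5) (.nd (nat_lit 6) 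
(.lf (nat_lit 34193) (.g (nat_lit 2195) (.e (nat_lit 1210) (nat_lit 89) (.e (nat_lit 73782) (nat_lit 32) (.e (nat_lit 2857) (nat_lit 184) (.e (nat_lit 426555) (nat_lit 32) (.e (nat_lit 376860) (nat_lit 21) (.e (nat_lit 57870) (nat_lit 264) .nil)))))) (.g (nat_lit 4) .nil .nil))) 
(.lf (nat_lit 34257) (.g (nat_lit 1887) (.e (nat_lit 1211) (nat_lit 89) (.e (nat_lit 73731) (nat_lit 0) (.e (nat_lit 7695) (nat_lit 412) (.e (nat_lit 57388) (nat_lit 5) (.e (nat_lit 114714) (nat_lit 22) (.e (nat_lit 90172) (nat_lit 14) (.e (nat_lit 188160) (nat_lit 0) (.e (nat_lit 5906) (nat_lit 320) .nil)))))))) (.g (nat_lit 4) .nil .nil)))) (.nd (nat_lit 6) 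
(.lf (nat_lit 34225) (.g (nat_lit 2396) (.e (nat_lit 1210) (nat_lit 89) (.e (nat_lit 73782) (nat_lit 32) (.e (nat_lit 3090) (nat_lit 191) (.e (nat_lit 483378) (nat_lit 23) (.e (nat_lit 335997) (nat_lit 1) (.e (nat_lit 57870) (nat_lit 264) .nil)))))) (.g (nat_lit 6) .nil .nil))) 
(.lf (nat_lit 34289) (.g (nat_lit 1665) (.e (nat_lit 1211) (nat_lit 89) (.e (nat_lit 73754) (nat_lit 8) (.e (nat_lit 557100) (nat_lit 13) (.e (nat_lit 172064) (nat_lit 2) .nil)))) .nil))))) (.nd (nat_lit 4) (.nd (nat_lit 5) (.nd (nat_lit 6) 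
(.lf (nat_lit 34185) (.g (nat_lit 1742) (.e (nat_lit 1210) (nat_lit 89) (.e (nat_lit 73782) (nat_lit 32) (.e (nat_lit 2856) (nat_lit 184) (.e (nat_lit 426556) (nat_lit 32) .nil)))) .nil)) 
(.lf (nat_lit 34249) (.g (nat_lit 1208) (.e (nat_lit 1211) (nat_lit 89) (.e (nat_lit 73731) (nat_lit 0) (.e (nat_lit 7125) (nat_lit 382) (.e (nat_lit 1213) (nat_lit 89) .nil)))) .nil))) (.nd (nat_lit 6) 
(.lf (nat_lit 34217) (.g (nat_lit 2845) (.e (nat_lit 1210) (nat_lit 89) (.e (nat_lit 73782) (nat_lit 32) (.e (nat_lit 3089) (nat_lit 191) (.e (nat_lit 483393) (nat_lit 23) (.e (nat_lit 335996) (nat_lit 1) (.e (nat_lit 57870) (nat_lit 264) .nil)))))) (.g (nat_lit 6) .nil .nil))) 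
(.lf (nat_lit 34281) (.g (nat_lit 952) (.e (nat_lit 1211) (nat_lit 89) (.e (nat_lit 73754) (nat_lit 8) (.e (nat_lit 557094) (nat_lit 12) (.e (nat_lit 164213) (nat_lit 176) .nil)))) .nil)))) (.nd (nat_lit 5) (.nd (nat_lit 6) 
(.lf (nat_lit 34201) (.g (nat_lit 1301) (.e (nat_lit 1210) (nat_lit 89) (.e (nat_lit 73782) (nat_lit 32) (.e (nat_lit 3088) (nat_lit 191) (.e (nat_lit 483390) (nat_lit 23) .nil)))) .nil)) 
(.lf (nat_lit 34265) (.g (nat_lit 4366) (.e (nat_lit 1211) (nat_lit 89) (.e (nat_lit 73753) (nat_lit 8) (.e (nat_lit 557087) (nat_lit 11) (.e (nat_lit 24617) (nat_lit 7) (.e (nat_lit 319505) (nat_lit 10) .nil))))) .nil))) (.nd (nat_lit 6) 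
(.lf (nat_lit 34233) (.g (nat_lit 2026) (.e (nat_lit 1210) (nat_lit 89) (.e (nat_lit 73782) (nat_lit 32) (.e (nat_lit 3090) (nat_lit 191) (.e (nat_lit 483393) (nat_lit 23) (.e (nat_lit 335987) (nat_lit 1) .nil))))) .nil)) 
(.lf (nat_lit 34297) (.g (nat_lit 1197) (.e (nat_lit 1211) (nat_lit 89) (.e (nat_lit 73754) (nat_lit 8) (.e (nat_lit 557101) (nat_lit 13) (.e (nat_lit 179968) (nat_lit 20) .nil)))) .nil)))))) (.nd (nat_lit 3) (.nd (nat_lit 4) (.nd (nat_lit 5) (.nd (nat_lit 6) 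
(.lf (nat_lit 34181) (.g (nat_lit 1269) (.e (nat_lit 1210) (nat_lit 89) (.e (nat_lit 73782) (nat_lit 32) (.e (nat_lit 2856) (nat_lit 184) (.e (nat_lit 426533) (nat_lit 28) .nil)))) .nil)) 
(.lf (nat_lit 34245) (.g (nat_lit 1145) (.e (nat_lit 1211) (nat_lit 89) (.e (nat_lit 73731) (nat_lit 0) (.e (nat_lit 7122) (nat_lit 382) (.e (nat_lit 1212) (nat_lit 89) .nil)))) .nil))) (.nd (nat_lit 6) 
(.lf (nat_lit 34213) (.g (nat_lit 1092) (.e (nat_lit 1210) (nat_lit 89) (.e (nat_lit 73782) (nat_lit 32) (.e (nat_lit 3089) (nat_lit 191) (.e (nat_lit 483389) (nat_lit 23) .nil)))) .nil)) 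
(.lf (nat_lit 34277) (.g (nat_lit 2929) (.e (nat_lit 1211) (nat_lit 89) (.e (nat_lit 73754) (nat_lit 8) (.e (nat_lit 557093) (nat_lit 12) (.e (nat_lit 164238) (nat_lit 187) (.e (nat_lit 1661) (nat_lit 115) (.e (nat_lit 393251) (nat_lit 18) (.e (nat_lit 164163) (nat_lit 152) .nil))))))) (.g (nat_lit 5) .nil .nil))))) (.nd (nat_lit 5) (.nd (nat_lit 6) 
(.lf (nat_lit 34197) (.g (nat_lit 1337) (.e (nat_lit 1210) (nat_lit 89) (.e (nat_lit 73782) (nat_lit 32) (.e (nat_lit 3087) (nat_lit 191) (.e (nat_lit 483393) (nat_lit 23) (.e (nat_lit 335987) (nat_lit 1) .nil))))) .nil)) 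
(.lf (nat_lit 34261) (.g (nat_lit 1363) (.e (nat_lit 1211) (nat_lit 89) (.e (nat_lit 73746) (nat_lit 3) (.e (nat_lit 516176) (nat_lit 14) (.e (nat_lit 466981) (nat_lit 23) .nil)))) .nil))) (.nd (nat_lit 6) 
(.lf (nat_lit 34229) (.g (nat_lit 1287) (.e (nat_lit 1210) (nat_lit 89) (.e (nat_lit 73782) (nat_lit 32) (.e (nat_lit 3090) (nat_lit 191) (.e (nat_lit 483386) (nat_lit 23) .nil)))) .nil)) 
(.lf (nat_lit 34293) (.g (nat_lit 2125) (.e (nat_lit 1211) (nat_lit 89) (.e (nat_lit 73754) (nat_lit 8) (.e (nat_lit 557100) (nat_lit 13) (.e (nat_lit 179968) (nat_lit 22) .nil)))) .nil))))) (.nd (nat_lit 4) (.nd (nat_lit 5) (.nd (nat_lit 6) 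
(.lf (nat_lit 34189) (.g (nat_lit 2549) (.e (nat_lit 1210) (nat_lit 89) (.e (nat_lit 73782) (nat_lit 32) (.e (nat_lit 2857) (nat_lit 184) (.e (nat_lit 426542) (nat_lit 29) (.e (nat_lit 352309) (nat_lit 21) (.e (nat_lit 57870) (nat_lit 264) .nil)))))) (.g (nat_lit 6) .nil .nil))) 
(.lf (nat_lit 34253) (.g (nat_lit 2245) (.e (nat_lit 1211) (nat_lit 89) (.e (nat_lit 73731) (nat_lit 0) (.e (nat_lit 7125) (nat_lit 382) (.e (nat_lit 1214) (nat_lit 89) (.e (nat_lit 73753) (nat_lit 8) (.e (nat_lit 557103) (nat_lit 14) (.e (nat_lit 188160) (nat_lit 0) (.e (nat_lit 5905) (nat_lit 320) .nil)))))))) (.g (nat_lit 4) .nil .nil)))) (.nd (nat_lit 6) 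
(.lf (nat_lit 34221) (.g (nat_lit 534) (.e (nat_lit 1210) (nat_lit 89) (.e (nat_lit 73782) (nat_lit 32) (.e (nat_lit 3090) (nat_lit 191) .nil))) .nil)) 
(.lf (nat_lit 34285) (.g (nat_lit 2360) (.e (nat_lit 1211) (nat_lit 89) (.e (nat_lit 73754) (nat_lit 8) (.e (nat_lit 557094) (nat_lit 12) (.e (nat_lit 164238) (nat_lit 187) (.e (nat_lit 1660) (nat_lit 115) (.e (nat_lit 393253) (nat_lit 18) (.e (nat_lit 164163) (nat_lit 152) .nil))))))) (.g (nat_lit 5) .nil .nil))))) (.nd (nat_lit 5) (.nd (nat_lit 6) 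
(.lf (nat_lit 34205) (.g (nat_lit 2096) (.e (nat_lit 1210) (nat_lit 89) (.e (nat_lit 73782) (nat_lit 32) (.e (nat_lit 3088) (nat_lit 191) (.e (nat_lit 483393) (nat_lit 23) (.e (nat_lit 335987) (nat_lit 1) (.e (nat_lit 57870) (nat_lit 264) .nil)))))) (.g (nat_lit 5) .nil .nil))) 
(.lf (nat_lit 34269) (.g (nat_lit 3086) (.e (nat_lit 1211) (nat_lit 89) (.e (nat_lit 73754) (nat_lit 8) (.e (nat_lit 557072) (nat_lit 9) (.e (nat_lit 3098) (nat_lit 192) (.e (nat_lit 491571) (nat_lit 13) (.e (nat_lit 393251) (nat_lit 18) (.e (nat_lit 164163) (nat_lit 152) .nil))))))) (.g (nat_lit 5) .nil .nil)))) (.nd (nat_lit 6) 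
(.lf (nat_lit 34237) (.g (nat_lit 2888) (.e (nat_lit 1210) (nat_lit 89) (.e (nat_lit 73782) (nat_lit 32) (.e (nat_lit 3090) (nat_lit 191) (.e (nat_lit 483395) (nat_lit 24) (.e (nat_lit 344097) (nat_lit 18) (.e (nat_lit 5905) (nat_lit 320) .nil)))))) (.g (nat_lit 6) .nil .nil))) 
(.lf (nat_lit 34301) (.g (nat_lit 1993) (.e (nat_lit 1211) (nat_lit 89) (.e (nat_lit 73754) (nat_lit 8) (.e (nat_lit 557105) (nat_lit 14) (.e (nat_lit 180261) (nat_lit 20) .nil)))) .nil))))))) (.nd (nat_lit 2) (.nd (nat_lit 3) (.nd (nat_lit 4) (.nd (nat_lit 5) (.nd (nat_lit 6) 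
(.lf (nat_lit 34179) (.g (nat_lit 2367) (.e (nat_lit 1210) (nat_lit 89) (.e (nat_lit 73782) (nat_lit 32) (.e (nat_lit 2855) (nat_lit 184) (.e (nat_lit 426555) (nat_lit 32) (.e (nat_lit 376860) (nat_lit 21) (.e (nat_lit 57870) (nat_lit 264) .nil)))))) (.g (nat_lit 5) .nil .nil))) 
(.lf (nat_lit 34243) (.g (nat_lit 1738) (.e (nat_lit 1210) (nat_lit 89) (.e (nat_lit 73782) (nat_lit 32) (.e (nat_lit 3090) (nat_lit 191) (.e (nat_lit 483399) (nat_lit 25) (.e (nat_lit 368662) (nat_lit 18) (.e (nat_lit 5905) (nat_lit 320) .nil)))))) (.g (nat_lit 4) .nil .nil)))) (.nd (nat_lit 6) 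
(.lf (nat_lit 34211) (.g (nat_lit 1624) (.e (nat_lit 1210) (nat_lit 89) (.e (nat_lit 73782) (nat_lit 32) (.e (nat_lit 3089) (nat_lit 191) (.e (nat_lit 483383) (nat_lit 23) (.e (nat_lit 335878) (nat_lit 0) .nil))))) .nil)) 
(.lf (nat_lit 34275) (.g (nat_lit 3477) (.e (nat_lit 1211) (nat_lit 89) (.e (nat_lit 73754) (nat_lit 8) (.e (nat_lit 557093) (nat_lit 12) (.e (nat_lit 164238) (nat_lit 187) (.e (nat_lit 1428) (nat_lit 108) (.e (nat_lit 336369) (nat_lit 27) (.e (nat_lit 426109) (nat_lit 1) (.e (nat_lit 164163) (nat_lit 152) .nil)))))))) (.g (nat_lit 6) .nil .nil))))) (.nd (nat_lit 5) (.nd (nat_lit 6) 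
(.lf (nat_lit 34195) (.g (nat_lit 2056) (.e (nat_lit 1210) (nat_lit 89) (.e (nat_lit 73782) (nat_lit 32) (.e (nat_lit 3087) (nat_lit 191) (.e (nat_lit 483378) (nat_lit 23) (.e (nat_lit 335997) (nat_lit 1) (.e (nat_lit 57870) (nat_lit 264) .nil)))))) (.g (nat_lit 0) .nil .nil))) 
(.lf (nat_lit 34259) (.g (nat_lit 3038) (.e (nat_lit 1211) (nat_lit 89) (.e (nat_lit 73745) (nat_lit 3) (.e (nat_lit 516151) (nat_lit 9) (.e (nat_lit 426211) (nat_lit 9) (.e (nat_lit 426125) (nat_lit 2) .nil))))) .nil))) (.nd (nat_lit 6) 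
(.lf (nat_lit 34227) (.g (nat_lit 1228) (.e (nat_lit 1210) (nat_lit 89) (.e (nat_lit 73782) (nat_lit 32) (.e (nat_lit 3090) (nat_lit 191) (.e (nat_lit 483380) (nat_lit 23) .nil)))) .nil)) 
(.lf (nat_lit 34291) (.g (nat_lit 2125) (.e (nat_lit 1211) (nat_lit 89) (.e (nat_lit 73754) (nat_lit 8) (.e (nat_lit 557100) (nat_lit 13) (.e (nat_lit 179968) (nat_lit 20) .nil)))) .nil))))) (.nd (nat_lit 4) (.nd (nat_lit 5) (.nd (nat_lit 6) 
(.lf (nat_lit 34187) (.g (nat_lit 2903) (.e (nat_lit 1210) (nat_lit 89) (.e (nat_lit 73782) (nat_lit 32) (.e (nat_lit 2857) (nat_lit 184) (.e (nat_lit 426542) (nat_lit 29) (.e (nat_lit 352307) (nat_lit 21) (.e (nat_lit 57871) (nat_lit 264) .nil)))))) (.g (nat_lit 6) .nil .nil))) 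
(.lf (nat_lit 34251) (.g (nat_lit 3526) (.e (nat_lit 1211) (nat_lit 89) (.e (nat_lit 73731) (nat_lit 0) (.e (nat_lit 7125) (nat_lit 382) (.e (nat_lit 1214) (nat_lit 89) (.e (nat_lit 73746) (nat_lit 3) (.e (nat_lit 516129) (nat_lit 3) (.e (nat_lit 229120) (nat_lit 1) (.e (nat_lit 57873) (nat_lit 264) .nil)))))))) (.g (nat_lit 6) .nil .nil)))) (.nd (nat_lit 6) 
(.lf (nat_lit 34219) (.g (nat_lit 2864) (.e (nat_lit 1210) (nat_lit 89) (.e (nat_lit 73782) (nat_lit 32) (.e (nat_lit 3089) (nat_lit 191) (.e (nat_lit 483394) (nat_lit 24) (.e (nat_lit 344097) (nat_lit 18) (.e (nat_lit 5905) (nat_lit 320) .nil)))))) (.g (nat_lit 6) .nil .nil))) 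
(.lf (nat_lit 34283) (.g (nat_lit 3965) (.e (nat_lit 1211) (nat_lit 89) (.e (nat_lit 73754) (nat_lit 8) (.e (nat_lit 557094) (nat_lit 12) (.e (nat_lit 164238) (nat_lit 187) (.e (nat_lit 1428) (nat_lit 108) (.e (nat_lit 336369) (nat_lit 27) (.e (nat_lit 426109) (nat_lit 1) (.e (nat_lit 164163) (nat_lit 152) .nil)))))))) (.g (nat_lit 7) .nil .nil))))) (.nd (nat_lit 5) (.nd (nat_lit 6) 
(.lf (nat_lit 34203) (.g (nat_lit 1682) (.e (nat_lit 1210) (nat_lit 89) (.e (nat_lit 73782) (nat_lit 32) (.e (nat_lit 3088) (nat_lit 191) (.e (nat_lit 483393) (nat_lit 23) (.e (nat_lit 335986) (nat_lit 1) .nil))))) .nil)) 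
(.lf (nat_lit 34267) (.g (nat_lit 2243) (.e (nat_lit 1211) (nat_lit 89) (.e (nat_lit 73753) (nat_lit 8) (.e (nat_lit 557100) (nat_lit 13) (.e (nat_lit 179968) (nat_lit 20) .nil)))) .nil))) (.nd (nat_lit 6) 
(.lf (nat_lit 34235) (.g (nat_lit 3116) (.e (nat_lit 1210) (nat_lit 89) (.e (nat_lit 73782) (nat_lit 32) (.e (nat_lit 3090) (nat_lit 191) (.e (nat_lit 483394) (nat_lit 24) (.e (nat_lit 344097) (nat_lit 18) (.e (nat_lit 5905) (nat_lit 320) .nil)))))) (.g (nat_lit 6) .nil .nil))) 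
(.lf (nat_lit 34299) (.g (nat_lit 1897) (.e (nat_lit 1211) (nat_lit 89) (.e (nat_lit 73754) (nat_lit 8) (.e (nat_lit 557101) (nat_lit 13) (.e (nat_lit 179968) (nat_lit 20) (.e (nat_lit 114711) (nat_lit 21) (.e (nat_lit 57847) (nat_lit 252) (.e (nat_lit 57365) (nat_lit 1) (.e (nat_lit 57730) (nat_lit 181) .nil)))))))) (.g (nat_lit 5) .nil .nil))))))) 
(.nd (nat_lit 3) (.nd (nat_lit 4) (.nd (nat_lit 5) (.nd (nat_lit 6) 
(.lf (nat_lit 34183) (.g (nat_lit 1512) (.e (nat_lit 1210) (nat_lit 89) (.e (nat_lit 73782) (nat_lit 32) (.e (nat_lit 2856) (nat_lit 184) (.e (nat_lit 426544) (nat_lit 30) .nil)))) .nil)) 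
(.lf (nat_lit 34247) (.g (nat_lit 1904) (.e (nat_lit 1211) (nat_lit 89) (.e (nat_lit 73731) (nat_lit 0) (.e (nat_lit 7122) (nat_lit 382) (.e (nat_lit 1214) (nat_lit 89) (.e (nat_lit 73754) (nat_lit 8) .nil))))) .nil))) (.nd (nat_lit 6) 
(.lf (nat_lit 34215) (.g (nat_lit 2071) (.e (nat_lit 1210) (nat_lit 89) (.e (nat_lit 73782) (nat_lit 32) (.e (nat_lit 3089) (nat_lit 191) (.e (nat_lit 483393) (nat_lit 23) (.e (nat_lit 335987) (nat_lit 1) (.e (nat_lit 57870) (nat_lit 264) .nil)))))) (.g (nat_lit 6) .nil .nil))) 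
(.lf (nat_lit 34279) (.g (nat_lit 2103) (.e (nat_lit 1211) (nat_lit 89) (.e (nat_lit 73754) (nat_lit 8) (.e (nat_lit 557093) (nat_lit 12) (.e (nat_lit 164239) (nat_lit 187) (.e (nat_lit 1660) (nat_lit 115) (.e (nat_lit 393253) (nat_lit 18) (.e (nat_lit 164163) (nat_lit 152) .nil))))))) (.g (nat_lit 5) .nil .nil))))) (.nd (nat_lit 5) (.nd (nat_lit 6) 
(.lf (nat_lit 34199) (.g (nat_lit 1320) (.e (nat_lit 1210) (nat_lit 89) (.e (nat_lit 73782) (nat_lit 32) (.e (nat_lit 3088) (nat_lit 191) (.e (nat_lit 483387) (nat_lit 23) .nil)))) .nil)) 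
(.lf (nat_lit 34263) (.g (nat_lit 3274) (.e (nat_lit 1211) (nat_lit 89) (.e (nat_lit 73748) (nat_lit 3) (.e (nat_lit 516151) (nat_lit 9) (.e (nat_lit 426211) (nat_lit 9) (.e (nat_lit 426125) (nat_lit 2) .nil))))) .nil))) (.nd (nat_lit 6) 
(.lf (nat_lit 34231) (.g (nat_lit 1764) (.e (nat_lit 1210) (nat_lit 89) (.e (nat_lit 73782) (nat_lit 32) (.e (nat_lit 3090) (nat_lit 191) (.e (nat_lit 483386) (nat_lit 23) (.e (nat_lit 335985) (nat_lit 1) (.e (nat_lit 57871) (nat_lit 264) .nil)))))) (.g (nat_lit 5) .nil .nil))) 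
(.lf (nat_lit 34295) (.g (nat_lit 1905) (.e (nat_lit 1211) (nat_lit 89) (.e (nat_lit 73754) (nat_lit 8) (.e (nat_lit 557101) (nat_lit 13) (.e (nat_lit 172064) (nat_lit 2) (.e (nat_lit 204544) (nat_lit 2) .nil))))) .nil))))) (.nd (nat_lit 4) (.nd (nat_lit 5) (.nd (nat_lit 6) 
(.lf (nat_lit 34191) (.g (nat_lit 1593) (.e (nat_lit 1210) (nat_lit 89) (.e (nat_lit 73782) (nat_lit 32) (.e (nat_lit 2857) (nat_lit 184) (.e (nat_lit 426544) (nat_lit 30) (.e (nat_lit 368384) (nat_lit 0) .nil))))) .nil)) 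
(.lf (nat_lit 34255) (.g (nat_lit 2382) (.e (nat_lit 1211) (nat_lit 89) (.e (nat_lit 73731) (nat_lit 0) (.e (nat_lit 7125) (nat_lit 382) (.e (nat_lit 1214) (nat_lit 89) (.e (nat_lit 73754) (nat_lit 8) (.e (nat_lit 557105) (nat_lit 14) (.e (nat_lit 188160) (nat_lit 0) (.e (nat_lit 5905) (nat_lit 320) .nil)))))))) (.g (nat_lit 4) .nil .nil)))) (.nd (nat_lit 6) 
(.lf (nat_lit 34223) (.g (nat_lit 1860) (.e (nat_lit 1210) (nat_lit 89) (.e (nat_lit 73782) (nat_lit 32) (.e (nat_lit 3090) (nat_lit 191) (.e (nat_lit 483350) (nat_lit 17) (.e (nat_lit 7936) (nat_lit 343) (.e (nat_lit 1183) (nat_lit 87) (.e (nat_lit 57871) (nat_lit 264) .nil))))))) (.g (nat_lit 4) .nil .nil))) 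
(.lf (nat_lit 34287) (.g (nat_lit 986) (.e (nat_lit 1211) (nat_lit 89) (.e (nat_lit 73754) (nat_lit 8) (.e (nat_lit 557094) (nat_lit 12) (.e (nat_lit 171776) (nat_lit 194) .nil)))) .nil)))) (.nd (nat_lit 5) (.nd (nat_lit 6) 
(.lf (nat_lit 34207) (.g (nat_lit 1142) (.e (nat_lit 1210) (nat_lit 89) (.e (nat_lit 73782) (nat_lit 32) (.e (nat_lit 3088) (nat_lit 191) (.e (nat_lit 491264) (nat_lit 23) .nil)))) .nil)) 
(.lf (nat_lit 34271) (.g (nat_lit 2458) (.e (nat_lit 1211) (nat_lit 89) (.e (nat_lit 73754) (nat_lit 8) (.e (nat_lit 557091) (nat_lit 12) (.e (nat_lit 164238) (nat_lit 187) .nil)))) .nil))) (.nd (nat_lit 6) 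
(.lf (nat_lit 34239) (.g (nat_lit 1283) (.e (nat_lit 1210) (nat_lit 89) (.e (nat_lit 73782) (nat_lit 32) (.e (nat_lit 3090) (nat_lit 191) (.e (nat_lit 483396) (nat_lit 24) .nil)))) .nil)) 
(.lf (nat_lit 34303) (.g (nat_lit 2889) (.e (nat_lit 1211) (nat_lit 89) (.e (nat_lit 73754) (nat_lit 8) (.e (nat_lit 557105) (nat_lit 14) (.e (nat_lit 180261) (nat_lit 20) (.e (nat_lit 655378) (nat_lit 4) (.e (nat_lit 172070) (nat_lit 4) (.e (nat_lit 229544) (nat_lit 152) .nil))))))) (.g (nat_lit 4) .nil .nil))))))))))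

noncomputable def tv478 : DT := (.nd (nat_lit 0) (.nd (nat_lit 1) (.nd (nat_lit 2) (.nd (nat_lit 3) (.nd (nat_lit 4) (.nd (nat_lit 5) 
(.lf (nat_lit 34304) (.g (nat_lit 2816) (.e (nat_lit 1211) (nat_lit 89) (.e (nat_lit 73755) (nat_lit 8) (.e (nat_lit 557066) (nat_lit 9) (.e (nat_lit 232) (nat_lit 21) (.e (nat_lit 336060) (nat_lit 7) .nil))))) .nil)) 
(.lf (nat_lit 34336) (.g (nat_lit 5012) (.e (nat_lit 1211) (nat_lit 89) (.e (nat_lit 73755) (nat_lit 8) (.e (nat_lit 557091) (nat_lit 12) (.e (nat_lit 164238) (nat_lit 187) (.e (nat_lit 1428) (nat_lit 108) (.e (nat_lit 336369) (nat_lit 27) (.e (nat_lit 426109) (nat_lit 1) (.e (nat_lit 164163) (nat_lit 152) .nil)))))))) (.g (nat_lit 0) .nil .nil)))) (.nd (nat_lit 5) 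
(.lf (nat_lit 34320) (.g (nat_lit 4550) (.e (nat_lit 1211) (nat_lit 89) (.e (nat_lit 73755) (nat_lit 8) (.e (nat_lit 557090) (nat_lit 12) (.e (nat_lit 164238) (nat_lit 187) (.e (nat_lit 1428) (nat_lit 108) (.e (nat_lit 336369) (nat_lit 27) (.e (nat_lit 426109) (nat_lit 1) (.e (nat_lit 164163) (nat_lit 152) .nil)))))))) (.g (nat_lit 6) .nil .nil))) 
(.lf (nat_lit 34352) (.g (nat_lit 2393) (.e (nat_lit 1211) (nat_lit 89) (.e (nat_lit 73755) (nat_lit 8) (.e (nat_lit 557096) (nat_lit 13) (.e (nat_lit 172133) (nat_lit 15) (.e (nat_lit 2175) (nat_lit 143) (.e (nat_lit 712747) (nat_lit 28) (.e (nat_lit 434209) (nat_lit 18) (.e (nat_lit 6306) (nat_lit 337) .nil)))))))) (.g (nat_lit 5) .nil .nil))))) (.nd (nat_lit 4) (.nd (nat_lit 5) 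
(.lf (nat_lit 34312) (.g (nat_lit 3606) (.e (nat_lit 1211) (nat_lit 89) (.e (nat_lit 73755) (nat_lit 8) (.e (nat_lit 557087) (nat_lit 11) (.e (nat_lit 24617) (nat_lit 7) (.e (nat_lit 319505) (nat_lit 10) (.e (nat_lit 584) (nat_lit 43) (.e (nat_lit 516119) (nat_lit 1) (.e (nat_lit 164256) (nat_lit 215) .nil)))))))) (.g (nat_lit 4) .nil .nil))) 
(.lf (nat_lit 34344) (.g (nat_lit 3656) (.e (nat_lit 1211) (nat_lit 89) (.e (nat_lit 73755) (nat_lit 8) (.e (nat_lit 557091) (nat_lit 12) (.e (nat_lit 164238) (nat_lit 187) (.e (nat_lit 1661) (nat_lit 115) (.e (nat_lit 393252) (nat_lit 18) (.e (nat_lit 164147) (nat_lit 152) .nil))))))) (.g (nat_lit 6) .nil .nil)))) (.nd (nat_lit 5) 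
(.lf (nat_lit 34328) (.g (nat_lit 2817) (.e (nat_lit 1211) (nat_lit 89) (.e (nat_lit 73755) (nat_lit 8) (.e (nat_lit 557090) (nat_lit 12) (.e (nat_lit 164238) (nat_lit 187) (.e (nat_lit 1661) (nat_lit 115) (.e (nat_lit 393253) (nat_lit 18) (.e (nat_lit 164147) (nat_lit 152) .nil))))))) (.g (nat_lit 4) .nil .nil))) 
(.lf (nat_lit 34360) (.g (nat_lit 2117) (.e (nat_lit 1211) (nat_lit 89) (.e (nat_lit 73755) (nat_lit 8) (.e (nat_lit 557097) (nat_lit 13) (.e (nat_lit 179968) (nat_lit 20) (.e (nat_lit 114711) (nat_lit 21) (.e (nat_lit 57847) (nat_lit 252) (.e (nat_lit 57365) (nat_lit 1) (.e (nat_lit 57729) (nat_lit 181) .nil)))))))) (.g (nat_lit 5) .nil .nil)))))) 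
(.nd (nat_lit 3) (.nd (nat_lit 4) (.nd (nat_lit 5) 
(.lf (nat_lit 34308) (.g (nat_lit 2701) (.e (nat_lit 1211) (nat_lit 89) (.e (nat_lit 73755) (nat_lit 8) (.e (nat_lit 557067) (nat_lit 9) (.e (nat_lit 3096) (nat_lit 192) (.e (nat_lit 491571) (nat_lit 13) (.e (nat_lit 393252) (nat_lit 18) (.e (nat_lit 164147) (nat_lit 152) .nil))))))) (.g (nat_lit 4) .nil .nil))) 
(.lf (nat_lit 34340) (.g (nat_lit 3651) (.e (nat_lit 1211) (nat_lit 89) (.e (nat_lit 73755) (nat_lit 8) (.e (nat_lit 557091) (nat_lit 12) (.e (nat_lit 164238) (nat_lit 187) (.e (nat_lit 1660) (nat_lit 115) (.e (nat_lit 393253) (nat_lit 18) (.e (nat_lit 164163) (nat_lit 152) .nil))))))) (.g (nat_lit 7) .nil .nil)))) (.nd (nat_lit 5) 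
(.lf (nat_lit 34324) (.g (nat_lit 2750) (.e (nat_lit 1211) (nat_lit 89) (.e (nat_lit 73755) (nat_lit 8) (.e (nat_lit 557090) (nat_lit 12) (.e (nat_lit 164238) (nat_lit 187) (.e (nat_lit 1660) (nat_lit 115) (.e (nat_lit 393253) (nat_lit 18) (.e (nat_lit 164147) (nat_lit 152) .nil))))))) (.g (nat_lit 4) .nil .nil))) 
(.lf (nat_lit 34356) (.g (nat_lit 2286) (.e (nat_lit 1211) (nat_lit 89) (.e (nat_lit 73755) (nat_lit 8) (.e (nat_lit 557097) (nat_lit 13) (.e (nat_lit 172064) (nat_lit 2) (.e (nat_lit 204544) (nat_lit 2) (.e (nat_lit 24611) (nat_lit 4) (.e (nat_lit 123019) (nat_lit 122) .nil))))))) (.g (nat_lit 4) .nil .nil))))) (.nd (nat_lit 4) (.nd (nat_lit 5) 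
(.lf (nat_lit 34316) (.g (nat_lit 2061) (.e (nat_lit 1211) (nat_lit 89) (.e (nat_lit 73755) (nat_lit 8) (.e (nat_lit 557090) (nat_lit 12) (.e (nat_lit 164213) (nat_lit 176) .nil)))) .nil)) 
(.lf (nat_lit 34348) (.g (nat_lit 556) (.e (nat_lit 1211) (nat_lit 89) (.e (nat_lit 73755) (nat_lit 8) (.e (nat_lit 557096) (nat_lit 13) .nil))) .nil))) (.nd (nat_lit 5) 
(.lf (nat_lit 34332) (.g (nat_lit 1077) (.e (nat_lit 1211) (nat_lit 89) (.e (nat_lit 73755) (nat_lit 8) (.e (nat_lit 557091) (nat_lit 12) (.e (nat_lit 164238) (nat_lit 187) .nil)))) .nil)) 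
(.lf (nat_lit 34364) (.g (nat_lit 1591) (.e (nat_lit 1211) (nat_lit 89) (.e (nat_lit 73755) (nat_lit 8) (.e (nat_lit 557098) (nat_lit 13) (.e (nat_lit 172051) (nat_lit 0) .nil)))) .nil)))))) (.nd (nat_lit 2) (.nd (nat_lit 3) (.nd (nat_lit 4) (.nd (nat_lit 5) 
(.lf (nat_lit 34306) (.g (nat_lit 1563) (.e (nat_lit 1211) (nat_lit 89) (.e (nat_lit 73755) (nat_lit 8) (.e (nat_lit 557067) (nat_lit 9) (.e (nat_lit 2878) (nat_lit 184) .nil)))) .nil)) 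
(.lf (nat_lit 34338) (.g (nat_lit 3646) (.e (nat_lit 1211) (nat_lit 89) (.e (nat_lit 73755) (nat_lit 8) (.e (nat_lit 557091) (nat_lit 12) (.e (nat_lit 164238) (nat_lit 187) (.e (nat_lit 1659) (nat_lit 115) (.e (nat_lit 393253) (nat_lit 18) (.e (nat_lit 164163) (nat_lit 152) .nil))))))) (.g (nat_lit 6) .nil .nil)))) (.nd (nat_lit 5) 
(.lf (nat_lit 34322) (.g (nat_lit 2820) (.e (nat_lit 1211) (nat_lit 89) (.e (nat_lit 73755) (nat_lit 8) (.e (nat_lit 557090) (nat_lit 12) (.e (nat_lit 164238) (nat_lit 187) (.e (nat_lit 1659) (nat_lit 115) (.e (nat_lit 393253) (nat_lit 18) (.e (nat_lit 164147) (nat_lit 152) .nil))))))) (.g (nat_lit 4) .nil .nil))) 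
(.lf (nat_lit 34354) (.g (nat_lit 1062) (.e (nat_lit 1211) (nat_lit 89) (.e (nat_lit 73755) (nat_lit 8) (.e (nat_lit 557096) (nat_lit 13) (.e (nat_lit 172140) (nat_lit 22) .nil)))) .nil)))) (.nd (nat_lit 4) (.nd (nat_lit 5) 
(.lf (nat_lit 34314) (.g (nat_lit 1204) (.e (nat_lit 1211) (nat_lit 89) (.e (nat_lit 73755) (nat_lit 8) (.e (nat_lit 557089) (nat_lit 12) (.e (nat_lit 171776) (nat_lit 192) .nil)))) .nil)) 
(.lf (nat_lit 34346) (.g (nat_lit 2437) (.e (nat_lit 1211) (nat_lit 89) (.e (nat_lit 73755) (nat_lit 8) (.e (nat_lit 557091) (nat_lit 12) (.e (nat_lit 164238) (nat_lit 187) (.e (nat_lit 1661) (nat_lit 115) (.e (nat_lit 393256) (nat_lit 19) (.e (nat_lit 229544) (nat_lit 152) .nil))))))) (.g (nat_lit 4) .nil .nil)))) (.nd (nat_lit 5) 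
(.lf (nat_lit 34330) (.g (nat_lit 1298) (.e (nat_lit 1211) (nat_lit 89) (.e (nat_lit 73755) (nat_lit 8) (.e (nat_lit 557091) (nat_lit 12) (.e (nat_lit 164213) (nat_lit 176) .nil)))) .nil)) 
(.lf (nat_lit 34362) (.g (nat_lit 419) (.e (nat_lit 1211) (nat_lit 89) (.e (nat_lit 73755) (nat_lit 8) (.e (nat_lit 557098) (nat_lit 13) .nil))) .nil))))) (.nd (nat_lit 3) (.nd (nat_lit 4) (.nd (nat_lit 5) 
(.lf (nat_lit 34310) (.g (nat_lit 3353) (.e (nat_lit 1211) (nat_lit 89) (.e (nat_lit 73755) (nat_lit 8) (.e (nat_lit 557087) (nat_lit 11) (.e (nat_lit 24617) (nat_lit 7) (.e (nat_lit 319505) (nat_lit 10) .nil))))) .nil)) 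
(.lf (nat_lit 34342) (.g (nat_lit 3486) (.e (nat_lit 1211) (nat_lit 89) (.e (nat_lit 73755) (nat_lit 8) (.e (nat_lit 557091) (nat_lit 12) (.e (nat_lit 164238) (nat_lit 187) (.e (nat_lit 1661) (nat_lit 115) (.e (nat_lit 393251) (nat_lit 18) (.e (nat_lit 164147) (nat_lit 152) .nil))))))) (.g (nat_lit 6) .nil .nil)))) (.nd (nat_lit 5) 
(.lf (nat_lit 34326) (.g (nat_lit 3524) (.e (nat_lit 1211) (nat_lit 89) (.e (nat_lit 73755) (nat_lit 8) (.e (nat_lit 557090) (nat_lit 12) (.e (nat_lit 164238) (nat_lit 187) (.e (nat_lit 1661) (nat_lit 115) (.e (nat_lit 393251) (nat_lit 18) (.e (nat_lit 164163) (nat_lit 152) .nil))))))) (.g (nat_lit 5) .nil .nil))) 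
(.lf (nat_lit 34358) (.g (nat_lit 2500) (.e (nat_lit 1211) (nat_lit 89) (.e (nat_lit 73755) (nat_lit 8) (.e (nat_lit 557097) (nat_lit 13) (.e (nat_lit 172133) (nat_lit 15) (.e (nat_lit 2175) (nat_lit 143) (.e (nat_lit 712739) (nat_lit 27) (.e (nat_lit 426109) (nat_lit 1) (.e (nat_lit 164163) (nat_lit 152) .nil)))))))) (.g (nat_lit 5) .nil .nil))))) (.nd (nat_lit 4) (.nd (nat_lit 5) 
(.lf (nat_lit 34318) (.g (nat_lit 1794) (.e (nat_lit 1211) (nat_lit 89) (.e (nat_lit 73755) (nat_lit 8) (.e (nat_lit 557090) (nat_lit 12) (.e (nat_lit 164238) (nat_lit 187) .nil)))) .nil)) 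
(.lf (nat_lit 34350) (.g (nat_lit 1164) (.e (nat_lit 1211) (nat_lit 89) (.e (nat_lit 73755) (nat_lit 8) (.e (nat_lit 557096) (nat_lit 13) (.e (nat_lit 172133) (nat_lit 15) .nil)))) .nil))) (.nd (nat_lit 5) 
(.lf (nat_lit 34334) (.g (nat_lit 3174) (.e (nat_lit 1211) (nat_lit 89) (.e (nat_lit 73755) (nat_lit 8) (.e (nat_lit 557091) (nat_lit 12) (.e (nat_lit 164238) (nat_lit 187) (.e (nat_lit 1427) (nat_lit 108) (.e (nat_lit 336421) (nat_lit 28) (.e (nat_lit 434212) (nat_lit 18) (.e (nat_lit 6264) (nat_lit 337) .nil)))))))) (.g (nat_lit 5) .nil .nil))) 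
(.lf (nat_lit 34366) (.g (nat_lit 2566) (.e (nat_lit 1211) (nat_lit 89) (.e (nat_lit 73755) (nat_lit 8) (.e (nat_lit 557098) (nat_lit 13) (.e (nat_lit 172064) (nat_lit 2) (.e (nat_lit 204544) (nat_lit 2) .nil))))) .nil))))))) (.nd (nat_lit 1) (.nd (nat_lit 2) (.nd (nat_lit 3) (.nd (nat_lit 4) (.nd (nat_lit 5) 
(.lf (nat_lit 34305) (.g (nat_lit 3622) (.e (nat_lit 1211) (nat_lit 89) (.e (nat_lit 73755) (nat_lit 8) (.e (nat_lit 557066) (nat_lit 9) (.e (nat_lit 232) (nat_lit 21) (.e (nat_lit 336060) (nat_lit 7) (.e (nat_lit 319505) (nat_lit 10) (.e (nat_lit 584) (nat_lit 43) (.e (nat_lit 516117) (nat_lit 1) (.e (nat_lit 164258) (nat_lit 215) .nil))))))))) (.g (nat_lit 5) .nil .nil))) 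
(.lf (nat_lit 34337) (.g (nat_lit 2501) (.e (nat_lit 1211) (nat_lit 89) (.e (nat_lit 73755) (nat_lit 8) (.e (nat_lit 557091) (nat_lit 12) (.e (nat_lit 164238) (nat_lit 187) (.e (nat_lit 1658) (nat_lit 115) (.e (nat_lit 393253) (nat_lit 18) (.e (nat_lit 164147) (nat_lit 152) .nil))))))) (.g (nat_lit 5) .nil .nil)))) (.nd (nat_lit 5) 
(.lf (nat_lit 34321) (.g (nat_lit 2672) (.e (nat_lit 1211) (nat_lit 89) (.e (nat_lit 73755) (nat_lit 8) (.e (nat_lit 557090) (nat_lit 12) (.e (nat_lit 164238) (nat_lit 187) (.e (nat_lit 1658) (nat_lit 115) .nil))))) .nil)) 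
(.lf (nat_lit 34353) (.g (nat_lit 2164) (.e (nat_lit 1211) (nat_lit 89) (.e (nat_lit 73755) (nat_lit 8) (.e (nat_lit 557096) (nat_lit 13) (.e (nat_lit 172133) (nat_lit 15) (.e (nat_lit 2175) (nat_lit 143) (.e (nat_lit 712749) (nat_lit 28) (.e (nat_lit 434201) (nat_lit 18) (.e (nat_lit 6362) (nat_lit 337) .nil)))))))) (.g (nat_lit 4) .nil .nil))))) (.nd (nat_lit 4) (.nd (nat_lit 5) 
(.lf (nat_lit 34313) (.g (nat_lit 1846) (.e (nat_lit 1211) (nat_lit 89) (.e (nat_lit 73755) (nat_lit 8) (.e (nat_lit 557087) (nat_lit 11) (.e (nat_lit 24625) (nat_lit 9) (.e (nat_lit 336326) (nat_lit 18) .nil))))) .nil)) 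
(.lf (nat_lit 34345) (.g (nat_lit 3280) (.e (nat_lit 1211) (nat_lit 89) (.e (nat_lit 73755) (nat_lit 8) (.e (nat_lit 557091) (nat_lit 12) (.e (nat_lit 164238) (nat_lit 187) (.e (nat_lit 1661) (nat_lit 115) (.e (nat_lit 393253) (nat_lit 18) (.e (nat_lit 164147) (nat_lit 152) .nil))))))) (.g (nat_lit 5) .nil .nil)))) (.nd (nat_lit 5) 
(.lf (nat_lit 34329) (.g (nat_lit 1802) (.e (nat_lit 1211) (nat_lit 89) (.e (nat_lit 73755) (nat_lit 8) (.e (nat_lit 557090) (nat_lit 12) (.e (nat_lit 171776) (nat_lit 194) .nil)))) .nil)) 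
(.lf (nat_lit 34361) (.g (nat_lit 2070) (.e (nat_lit 1211) (nat_lit 89) (.e (nat_lit 73755) (nat_lit 8) (.e (nat_lit 557097) (nat_lit 13) (.e (nat_lit 179968) (nat_lit 20) (.e (nat_lit 114711) (nat_lit 21) (.e (nat_lit 57847) (nat_lit 252) (.e (nat_lit 57365) (nat_lit 1) (.e (nat_lit 57730) (nat_lit 181) .nil)))))))) (.g (nat_lit 5) .nil .nil)))))) 
(.nd (nat_lit 3) (.nd (nat_lit 4) (.nd (nat_lit 5) 
(.lf (nat_lit 34309) (.g (nat_lit 3625) (.e (nat_lit 1211) (nat_lit 89) (.e (nat_lit 73755) (nat_lit 8) (.e (nat_lit 557087) (nat_lit 11) (.e (nat_lit 24617) (nat_lit 7) (.e (nat_lit 319504) (nat_lit 10) (.e (nat_lit 584) (nat_lit 43) (.e (nat_lit 516115) (nat_lit 1) (.e (nat_lit 164258) (nat_lit 215) .nil)))))))) (.g (nat_lit 5) .nil .nil))) 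
(.lf (nat_lit 34341) (.g (nat_lit 3105) (.e (nat_lit 1211) (nat_lit 89) (.e (nat_lit 73755) (nat_lit 8) (.e (nat_lit 557091) (nat_lit 12) (.e (nat_lit 164238) (nat_lit 187) (.e (nat_lit 1661) (nat_lit 115) (.e (nat_lit 393250) (nat_lit 18) (.e (nat_lit 164163) (nat_lit 152) .nil))))))) (.g (nat_lit 5) .nil .nil)))) (.nd (nat_lit 5) 
(.lf (nat_lit 34325) (.g (nat_lit 3164) (.e (nat_lit 1211) (nat_lit 89) (.e (nat_lit 73755) (nat_lit 8) (.e (nat_lit 557090) (nat_lit 12) (.e (nat_lit 164238) (nat_lit 187) (.e (nat_lit 1660) (nat_lit 115) (.e (nat_lit 393253) (nat_lit 18) (.e (nat_lit 164163) (nat_lit 152) .nil))))))) (.g (nat_lit 4) .nil .nil))) 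
(.lf (nat_lit 34357) (.g (nat_lit 1626) (.e (nat_lit 1211) (nat_lit 89) (.e (nat_lit 73755) (nat_lit 8) (.e (nat_lit 557097) (nat_lit 13) (.e (nat_lit 172133) (nat_lit 15) (.e (nat_lit 2175) (nat_lit 143) .nil))))) .nil)))) (.nd (nat_lit 4) (.nd (nat_lit 5) 
(.lf (nat_lit 34317) (.g (nat_lit 2104) (.e (nat_lit 1211) (nat_lit 89) (.e (nat_lit 73755) (nat_lit 8) (.e (nat_lit 557090) (nat_lit 12) (.e (nat_lit 164235) (nat_lit 187) .nil)))) .nil)) 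
(.lf (nat_lit 34349) (.g (nat_lit 1118) (.e (nat_lit 1211) (nat_lit 89) (.e (nat_lit 73755) (nat_lit 8) (.e (nat_lit 557096) (nat_lit 13) (.e (nat_lit 172064) (nat_lit 2) .nil)))) .nil))) (.nd (nat_lit 5) 
(.lf (nat_lit 34333) (.g (nat_lit 5393) (.e (nat_lit 1211) (nat_lit 89) (.e (nat_lit 73755) (nat_lit 8) (.e (nat_lit 557091) (nat_lit 12) (.e (nat_lit 164238) (nat_lit 187) (.e (nat_lit 1427) (nat_lit 108) (.e (nat_lit 336369) (nat_lit 27) (.e (nat_lit 426109) (nat_lit 1) (.e (nat_lit 164163) (nat_lit 152) .nil)))))))) (.g (nat_lit 0) .nil .nil))) 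
(.lf (nat_lit 34365) (.g (nat_lit 1692) (.e (nat_lit 1211) (nat_lit 89) (.e (nat_lit 73755) (nat_lit 8) (.e (nat_lit 557098) (nat_lit 13) (.e (nat_lit 172062) (nat_lit 2) .nil)))) .nil)))))) (.nd (nat_lit 2) (.nd (nat_lit 3) (.nd (nat_lit 4) (.nd (nat_lit 5) 
(.lf (nat_lit 34307) (.g (nat_lit 1984) (.e (nat_lit 1211) (nat_lit 89) (.e (nat_lit 73755) (nat_lit 8) (.e (nat_lit 557067) (nat_lit 9) (.e (nat_lit 3096) (nat_lit 192) .nil)))) .nil)) 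
(.lf (nat_lit 34339) (.g (nat_lit 3247) (.e (nat_lit 1211) (nat_lit 89) (.e (nat_lit 73755) (nat_lit 8) (.e (nat_lit 557091) (nat_lit 12) (.e (nat_lit 164238) (nat_lit 187) (.e (nat_lit 1660) (nat_lit 115) (.e (nat_lit 393253) (nat_lit 18) (.e (nat_lit 164147) (nat_lit 152) .nil))))))) (.g (nat_lit 6) .nil .nil)))) (.nd (nat_lit 5) 
(.lf (nat_lit 34323) (.g (nat_lit 3123) (.e (nat_lit 1211) (nat_lit 89) (.e (nat_lit 73755) (nat_lit 8) (.e (nat_lit 557090) (nat_lit 12) (.e (nat_lit 164238) (nat_lit 187) (.e (nat_lit 1659) (nat_lit 115) (.e (nat_lit 393253) (nat_lit 18) (.e (nat_lit 164163) (nat_lit 152) .nil))))))) (.g (nat_lit 4) .nil .nil))) 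
(.lf (nat_lit 34355) (.g (nat_lit 490) (.e (nat_lit 1211) (nat_lit 89) (.e (nat_lit 73755) (nat_lit 8) (.e (nat_lit 557097) (nat_lit 13) .nil))) .nil)))) (.nd (nat_lit 4) (.nd (nat_lit 5) 
(.lf (nat_lit 34315) (.g (nat_lit 427) (.e (nat_lit 1211) (nat_lit 89) (.e (nat_lit 73755) (nat_lit 8) (.e (nat_lit 557090) (nat_lit 12) .nil))) .nil)) 
(.lf (nat_lit 34347) (.g (nat_lit 1168) (.e (nat_lit 1211) (nat_lit 89) (.e (nat_lit 73755) (nat_lit 8) (.e (nat_lit 557091) (nat_lit 12) (.e (nat_lit 171776) (nat_lit 194) .nil)))) .nil))) (.nd (nat_lit 5) 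
(.lf (nat_lit 34331) (.g (nat_lit 1802) (.e (nat_lit 1211) (nat_lit 89) (.e (nat_lit 73755) (nat_lit 8) (.e (nat_lit 557091) (nat_lit 12) (.e (nat_lit 164235) (nat_lit 187) .nil)))) .nil)) 
(.lf (nat_lit 34363) (.g (nat_lit 2033) (.e (nat_lit 1211) (nat_lit 89) (.e (nat_lit 73755) (nat_lit 8) (.e (nat_lit 557098) (nat_lit 13) (.e (nat_lit 172047) (nat_lit 0) .nil)))) .nil))))) (.nd (nat_lit 3) (.nd (nat_lit 4) (.nd (nat_lit 5) 
(.lf (nat_lit 34311) (.g (nat_lit 3637) (.e (nat_lit 1211) (nat_lit 89) (.e (nat_lit 73755) (nat_lit 8) (.e (nat_lit 557087) (nat_lit 11) (.e (nat_lit 24617) (nat_lit 7) (.e (nat_lit 319505) (nat_lit 10) (.e (nat_lit 584) (nat_lit 43) (.e (nat_lit 516117) (nat_lit 1) (.e (nat_lit 164256) (nat_lit 215) .nil)))))))) (.g (nat_lit 4) .nil .nil))) 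
(.lf (nat_lit 34343) (.g (nat_lit 3963) (.e (nat_lit 1211) (nat_lit 89) (.e (nat_lit 73755) (nat_lit 8) (.e (nat_lit 557091) (nat_lit 12) (.e (nat_lit 164238) (nat_lit 187) (.e (nat_lit 1661) (nat_lit 115) (.e (nat_lit 393251) (nat_lit 18) (.e (nat_lit 164163) (nat_lit 152) .nil))))))) (.g (nat_lit 6) .nil .nil)))) (.nd (nat_lit 5) 
(.lf (nat_lit 34327) (.g (nat_lit 3239) (.e (nat_lit 1211) (nat_lit 89) (.e (nat_lit 73755) (nat_lit 8) (.e (nat_lit 557090) (nat_lit 12) (.e (nat_lit 164238) (nat_lit 187) (.e (nat_lit 1661) (nat_lit 115) (.e (nat_lit 393252) (nat_lit 18) (.e (nat_lit 164147) (nat_lit 152) .nil))))))) (.g (nat_lit 5) .nil .nil))) 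
(.lf (nat_lit 34359) (.g (nat_lit 2687) (.e (nat_lit 1211) (nat_lit 89) (.e (nat_lit 73755) (nat_lit 8) (.e (nat_lit 557097) (nat_lit 13) (.e (nat_lit 172133) (nat_lit 15) (.e (nat_lit 2175) (nat_lit 143) (.e (nat_lit 712749) (nat_lit 28) (.e (nat_lit 434201) (nat_lit 18) (.e (nat_lit 6362) (nat_lit 337) .nil)))))))) (.g (nat_lit 5) .nil .nil))))) (.nd (nat_lit 4) (.nd (nat_lit 5) 
(.lf (nat_lit 34319) (.g (nat_lit 4818) (.e (nat_lit 1211) (nat_lit 89) (.e (nat_lit 73755) (nat_lit 8) (.e (nat_lit 557090) (nat_lit 12) (.e (nat_lit 164238) (nat_lit 187) (.e (nat_lit 1427) (nat_lit 108) (.e (nat_lit 336369) (nat_lit 27) (.e (nat_lit 426109) (nat_lit 1) (.e (nat_lit 164163) (nat_lit 152) .nil)))))))) (.g (nat_lit 6) .nil .nil))) 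
(.lf (nat_lit 34351) (.g (nat_lit 1951) (.e (nat_lit 1211) (nat_lit 89) (.e (nat_lit 73755) (nat_lit 8) (.e (nat_lit 557096) (nat_lit 13) (.e (nat_lit 172133) (nat_lit 15) (.e (nat_lit 2175) (nat_lit 143) (.e (nat_lit 712739) (nat_lit 27) (.e (nat_lit 426109) (nat_lit 1) (.e (nat_lit 164163) (nat_lit 152) .nil)))))))) (.g (nat_lit 4) .nil .nil)))) (.nd (nat_lit 5) 
(.lf (nat_lit 34335) (.g (nat_lit 3340) (.e (nat_lit 1211) (nat_lit 89) (.e (nat_lit 73755) (nat_lit 8) (.e (nat_lit 557091) (nat_lit 12) (.e (nat_lit 164238) (nat_lit 187) (.e (nat_lit 1427) (nat_lit 108) (.e (nat_lit 336421) (nat_lit 28) (.e (nat_lit 434212) (nat_lit 18) (.e (nat_lit 6306) (nat_lit 337) .nil)))))))) (.g (nat_lit 5) .nil .nil))) 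
(.lf (nat_lit 34367) (.g (nat_lit 2834) (.e (nat_lit 1211) (nat_lit 89) (.e (nat_lit 73755) (nat_lit 8) (.e (nat_lit 557098) (nat_lit 13) (.e (nat_lit 172064) (nat_lit 2) (.e (nat_lit 204544) (nat_lit 2) (.e (nat_lit 24580) (nat_lit 0) (.e (nat_lit 976) (nat_lit 81) (.e (nat_lit 4211) (nat_lit 251) .nil)))))))) (.g (nat_lit 4) .nil .nil)))))))))

noncomputable def tv479 : DT := (.nd (nat_lit 0) (.nd (nat_lit 1) (.nd (nat_lit 2) (.nd (nat_lit 3) (.nd (nat_lit 4) (.nd (nat_lit 5) 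
(.lf (nat_lit 34368) (.g (nat_lit 2785) (.e (nat_lit 1211) (nat_lit 89) (.e (nat_lit 73755) (nat_lit 8) (.e (nat_lit 557098) (nat_lit 13) (.e (nat_lit 172064) (nat_lit 2) (.e (nat_lit 204544) (nat_lit 2) (.e (nat_lit 24611) (nat_lit 4) (.e (nat_lit 123015) (nat_lit 122) .nil))))))) (.g (nat_lit 4) .nil .nil))) 
(.lf (nat_lit 34400) (.g (nat_lit 3767) (.e (nat_lit 1211) (nat_lit 89) (.e (nat_lit 73755) (nat_lit 8) (.e (nat_lit 557103) (nat_lit 14) (.e (nat_lit 180244) (nat_lit 5) (.e (nat_lit 532579) (nat_lit 26) (.e (nat_lit 426107) (nat_lit 1) (.e (nat_lit 171776) (nat_lit 122) .nil))))))) (.g (nat_lit 6) .nil .nil)))) (.nd (nat_lit 5) 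
(.lf (nat_lit 34384) (.g (nat_lit 1716) (.e (nat_lit 1211) (nat_lit 89) (.e (nat_lit 73755) (nat_lit 8) (.e (nat_lit 557098) (nat_lit 13) (.e (nat_lit 179968) (nat_lit 20) .nil)))) .nil)) 
(.lf (nat_lit 34416) (.g (nat_lit 2916) (.e (nat_lit 1211) (nat_lit 89) (.e (nat_lit 73755) (nat_lit 8) (.e (nat_lit 557104) (nat_lit 14) (.e (nat_lit 180229) (nat_lit 0) (.e (nat_lit 5548) (nat_lit 306) (.e (nat_lit 2640) (nat_lit 165) (.e (nat_lit 180230) (nat_lit 0) (.e (nat_lit 6306) (nat_lit 337) .nil)))))))) (.g (nat_lit 5) .nil .nil))))) (.nd (nat_lit 4) (.nd (nat_lit 5) 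
(.lf (nat_lit 34376) (.g (nat_lit 2814) (.e (nat_lit 1211) (nat_lit 89) (.e (nat_lit 73755) (nat_lit 8) (.e (nat_lit 557098) (nat_lit 13) (.e (nat_lit 172133) (nat_lit 15) (.e (nat_lit 2059) (nat_lit 142) (.e (nat_lit 704595) (nat_lit 5) (.e (nat_lit 180228) (nat_lit 0) (.e (nat_lit 6306) (nat_lit 337) .nil)))))))) (.g (nat_lit 4) .nil .nil))) 
(.lf (nat_lit 34408) (.g (nat_lit 2037) (.e (nat_lit 1211) (nat_lit 89) (.e (nat_lit 73755) (nat_lit 8) (.e (nat_lit 557104) (nat_lit 14) (.e (nat_lit 180229) (nat_lit 0) (.e (nat_lit 5548) (nat_lit 306) .nil))))) .nil))) (.nd (nat_lit 5) 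
(.lf (nat_lit 34392) (.g (nat_lit 2761) (.e (nat_lit 1211) (nat_lit 89) (.e (nat_lit 73755) (nat_lit 8) (.e (nat_lit 557098) (nat_lit 13) (.e (nat_lit 172140) (nat_lit 22) (.e (nat_lit 139281) (nat_lit 5) (.e (nat_lit 73736) (nat_lit 0) (.e (nat_lit 4215) (nat_lit 251) .nil))))))) (.g (nat_lit 6) .nil .nil))) 
(.lf (nat_lit 34424) (.g (nat_lit 2599) (.e (nat_lit 1211) (nat_lit 89) (.e (nat_lit 73755) (nat_lit 8) (.e (nat_lit 557104) (nat_lit 14) (.e (nat_lit 180233) (nat_lit 0) (.e (nat_lit 5448) (nat_lit 306) (.e (nat_lit 2725) (nat_lit 172) (.e (nat_lit 237584) (nat_lit 1) (.e (nat_lit 164163) (nat_lit 152) .nil)))))))) (.g (nat_lit 6) .nil .nil)))))) 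
(.nd (nat_lit 3) (.nd (nat_lit 4) (.nd (nat_lit 5) 
(.lf (nat_lit 34372) (.g (nat_lit 2739) (.e (nat_lit 1211) (nat_lit 89) (.e (nat_lit 73755) (nat_lit 8) (.e (nat_lit 557098) (nat_lit 13) (.e (nat_lit 172133) (nat_lit 15) (.e (nat_lit 2059) (nat_lit 142) (.e (nat_lit 704595) (nat_lit 5) (.e (nat_lit 180224) (nat_lit 0) (.e (nat_lit 6264) (nat_lit 337) .nil)))))))) (.g (nat_lit 4) .nil .nil))) 
(.lf (nat_lit 34404) (.g (nat_lit 2658) (.e (nat_lit 1211) (nat_lit 89) (.e (nat_lit 73755) (nat_lit 8) (.e (nat_lit 557103) (nat_lit 14) (.e (nat_lit 180261) (nat_lit 20) (.e (nat_lit 655364) (nat_lit 0) (.e (nat_lit 2964) (nat_lit 185) (.e (nat_lit 434209) (nat_lit 18) (.e (nat_lit 6306) (nat_lit 337) .nil)))))))) (.g (nat_lit 4) .nil .nil)))) (.nd (nat_lit 5) 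
(.lf (nat_lit 34388) (.g (nat_lit 3579) (.e (nat_lit 1211) (nat_lit 89) (.e (nat_lit 73755) (nat_lit 8) (.e (nat_lit 557098) (nat_lit 13) (.e (nat_lit 179968) (nat_lit 20) (.e (nat_lit 114711) (nat_lit 21) (.e (nat_lit 57847) (nat_lit 252) (.e (nat_lit 57365) (nat_lit 1) (.e (nat_lit 57731) (nat_lit 181) .nil)))))))) (.g (nat_lit 7) .nil .nil))) 
(.lf (nat_lit 34420) (.g (nat_lit 2717) (.e (nat_lit 1211) (nat_lit 89) (.e (nat_lit 73755) (nat_lit 8) (.e (nat_lit 557104) (nat_lit 14) (.e (nat_lit 180233) (nat_lit 0) (.e (nat_lit 5448) (nat_lit 306) (.e (nat_lit 2643) (nat_lit 165) (.e (nat_lit 180228) (nat_lit 0) (.e (nat_lit 6306) (nat_lit 337) .nil)))))))) (.g (nat_lit 6) .nil .nil))))) (.nd (nat_lit 4) (.nd (nat_lit 5) 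
(.lf (nat_lit 34380) (.g (nat_lit 2629) (.e (nat_lit 1211) (nat_lit 89) (.e (nat_lit 73755) (nat_lit 8) (.e (nat_lit 557098) (nat_lit 13) (.e (nat_lit 172133) (nat_lit 15) (.e (nat_lit 2175) (nat_lit 143) (.e (nat_lit 712739) (nat_lit 27) (.e (nat_lit 426109) (nat_lit 1) (.e (nat_lit 164163) (nat_lit 152) .nil)))))))) (.g (nat_lit 4) .nil .nil))) 
(.lf (nat_lit 34412) (.g (nat_lit 2526) (.e (nat_lit 1211) (nat_lit 89) (.e (nat_lit 73755) (nat_lit 8) (.e (nat_lit 557104) (nat_lit 14) (.e (nat_lit 180229) (nat_lit 0) (.e (nat_lit 5548) (nat_lit 306) (.e (nat_lit 2640) (nat_lit 165) (.e (nat_lit 180224) (nat_lit 0) (.e (nat_lit 6306) (nat_lit 337) .nil)))))))) (.g (nat_lit 4) .nil .nil)))) (.nd (nat_lit 5) 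
(.lf (nat_lit 34396) (.g (nat_lit 1532) (.e (nat_lit 1211) (nat_lit 89) (.e (nat_lit 73755) (nat_lit 8) (.e (nat_lit 557103) (nat_lit 14) (.e (nat_lit 180229) (nat_lit 0) .nil)))) .nil)) 
(.lf (nat_lit 34428) (.g (nat_lit 1929) (.e (nat_lit 1211) (nat_lit 89) (.e (nat_lit 73755) (nat_lit 8) (.e (nat_lit 557104) (nat_lit 14) (.e (nat_lit 180233) (nat_lit 0) (.e (nat_lit 5599) (nat_lit 310) (.e (nat_lit 163927) (nat_lit 16) (.e (nat_lit 458774) (nat_lit 18) (.e (nat_lit 6306) (nat_lit 337) .nil)))))))) (.g (nat_lit 4) .nil .nil))))))) 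
(.nd (nat_lit 2) (.nd (nat_lit 3) (.nd (nat_lit 4) (.nd (nat_lit 5) 
(.lf (nat_lit 34370) (.g (nat_lit 3204) (.e (nat_lit 1211) (nat_lit 89) (.e (nat_lit 73755) (nat_lit 8) (.e (nat_lit 557098) (nat_lit 13) (.e (nat_lit 172064) (nat_lit 2) (.e (nat_lit 204544) (nat_lit 2) (.e (nat_lit 24611) (nat_lit 4) (.e (nat_lit 123019) (nat_lit 122) .nil))))))) (.g (nat_lit 4) .nil .nil))) 
(.lf (nat_lit 34402) (.g (nat_lit 1603) (.e (nat_lit 1211) (nat_lit 89) (.e (nat_lit 73755) (nat_lit 8) (.e (nat_lit 557103) (nat_lit 14) (.e (nat_lit 180248) (nat_lit 9) .nil)))) .nil))) (.nd (nat_lit 5) 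
(.lf (nat_lit 34386) (.g (nat_lit 2993) (.e (nat_lit 1211) (nat_lit 89) (.e (nat_lit 73755) (nat_lit 8) (.e (nat_lit 557098) (nat_lit 13) (.e (nat_lit 179968) (nat_lit 20) (.e (nat_lit 114711) (nat_lit 21) (.e (nat_lit 57847) (nat_lit 252) (.e (nat_lit 57365) (nat_lit 1) (.e (nat_lit 57729) (nat_lit 181) .nil)))))))) (.g (nat_lit 6) .nil .nil))) 
(.lf (nat_lit 34418) (.g (nat_lit 1953) (.e (nat_lit 1211) (nat_lit 89) (.e (nat_lit 73755) (nat_lit 8) (.e (nat_lit 557104) (nat_lit 14) (.e (nat_lit 180233) (nat_lit 0) (.e (nat_lit 5448) (nat_lit 306) (.e (nat_lit 2630) (nat_lit 164) (.e (nat_lit 172061) (nat_lit 1) (.e (nat_lit 164163) (nat_lit 152) .nil)))))))) (.g (nat_lit 4) .nil .nil))))) (.nd (nat_lit 4) (.nd (nat_lit 5) 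
(.lf (nat_lit 34378) (.g (nat_lit 3203) (.e (nat_lit 1211) (nat_lit 89) (.e (nat_lit 73755) (nat_lit 8) (.e (nat_lit 557098) (nat_lit 13) (.e (nat_lit 172133) (nat_lit 15) (.e (nat_lit 2059) (nat_lit 142) (.e (nat_lit 704596) (nat_lit 5) (.e (nat_lit 180228) (nat_lit 0) (.e (nat_lit 6306) (nat_lit 337) .nil)))))))) (.g (nat_lit 5) .nil .nil))) 
(.lf (nat_lit 34410) (.g (nat_lit 2460) (.e (nat_lit 1211) (nat_lit 89) (.e (nat_lit 73755) (nat_lit 8) (.e (nat_lit 557104) (nat_lit 14) (.e (nat_lit 180229) (nat_lit 0) (.e (nat_lit 5548) (nat_lit 306) (.e (nat_lit 2640) (nat_lit 165) (.e (nat_lit 180224) (nat_lit 0) (.e (nat_lit 6264) (nat_lit 337) .nil)))))))) (.g (nat_lit 4) .nil .nil)))) (.nd (nat_lit 5) 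
(.lf (nat_lit 34394) (.g (nat_lit 1716) (.e (nat_lit 1211) (nat_lit 89) (.e (nat_lit 73755) (nat_lit 8) (.e (nat_lit 557098) (nat_lit 13) (.e (nat_lit 179968) (nat_lit 22) .nil)))) .nil)) 
(.lf (nat_lit 34426) (.g (nat_lit 2031) (.e (nat_lit 1211) (nat_lit 89) (.e (nat_lit 73755) (nat_lit 8) (.e (nat_lit 557104) (nat_lit 14) (.e (nat_lit 180233) (nat_lit 0) (.e (nat_lit 5599) (nat_lit 310) (.e (nat_lit 163916) (nat_lit 13) (.e (nat_lit 434209) (nat_lit 18) (.e (nat_lit 6306) (nat_lit 337) .nil)))))))) (.g (nat_lit 4) .nil .nil)))))) 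
(.nd (nat_lit 3) (.nd (nat_lit 4) (.nd (nat_lit 5) 
(.lf (nat_lit 34374) (.g (nat_lit 2805) (.e (nat_lit 1211) (nat_lit 89) (.e (nat_lit 73755) (nat_lit 8) (.e (nat_lit 557098) (nat_lit 13) (.e (nat_lit 172133) (nat_lit 15) (.e (nat_lit 2059) (nat_lit 142) (.e (nat_lit 704595) (nat_lit 5) (.e (nat_lit 180224) (nat_lit 0) (.e (nat_lit 6306) (nat_lit 337) .nil)))))))) (.g (nat_lit 4) .nil .nil))) 
(.lf (nat_lit 34406) (.g (nat_lit 423) (.e (nat_lit 1211) (nat_lit 89) (.e (nat_lit 73755) (nat_lit 8) (.e (nat_lit 557104) (nat_lit 14) .nil))) .nil))) (.nd (nat_lit 5) 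
(.lf (nat_lit 34390) (.g (nat_lit 2936) (.e (nat_lit 1211) (nat_lit 89) (.e (nat_lit 73755) (nat_lit 8) (.e (nat_lit 557098) (nat_lit 13) (.e (nat_lit 172140) (nat_lit 22) (.e (nat_lit 139280) (nat_lit 4) (.e (nat_lit 65574) (nat_lit 4) (.e (nat_lit 123018) (nat_lit 122) .nil))))))) (.g (nat_lit 5) .nil .nil))) 
(.lf (nat_lit 34422) (.g (nat_lit 2537) (.e (nat_lit 1211) (nat_lit 89) (.e (nat_lit 73755) (nat_lit 8) (.e (nat_lit 557104) (nat_lit 14) (.e (nat_lit 180233) (nat_lit 0) (.e (nat_lit 5448) (nat_lit 306) (.e (nat_lit 2725) (nat_lit 172) (.e (nat_lit 237582) (nat_lit 1) (.e (nat_lit 164163) (nat_lit 152) .nil)))))))) (.g (nat_lit 6) .nil .nil))))) (.nd (nat_lit 4) (.nd (nat_lit 5) 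
(.lf (nat_lit 34382) (.g (nat_lit 2859) (.e (nat_lit 1211) (nat_lit 89) (.e (nat_lit 73755) (nat_lit 8) (.e (nat_lit 557098) (nat_lit 13) (.e (nat_lit 172133) (nat_lit 15) (.e (nat_lit 2175) (nat_lit 143) (.e (nat_lit 712749) (nat_lit 28) (.e (nat_lit 434201) (nat_lit 18) (.e (nat_lit 6362) (nat_lit 337) .nil)))))))) (.g (nat_lit 4) .nil .nil))) 
(.lf (nat_lit 34414) (.g (nat_lit 2220) (.e (nat_lit 1211) (nat_lit 89) (.e (nat_lit 73755) (nat_lit 8) (.e (nat_lit 557104) (nat_lit 14) (.e (nat_lit 180229) (nat_lit 0) (.e (nat_lit 5548) (nat_lit 306) (.e (nat_lit 2640) (nat_lit 165) (.e (nat_lit 180228) (nat_lit 0) (.e (nat_lit 6306) (nat_lit 337) .nil)))))))) (.g (nat_lit 4) .nil .nil)))) (.nd (nat_lit 5) 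
(.lf (nat_lit 34398) (.g (nat_lit 2153) (.e (nat_lit 1211) (nat_lit 89) (.e (nat_lit 73755) (nat_lit 8) (.e (nat_lit 557103) (nat_lit 14) (.e (nat_lit 180244) (nat_lit 5) (.e (nat_lit 532579) (nat_lit 26) (.e (nat_lit 426098) (nat_lit 1) (.e (nat_lit 171776) (nat_lit 122) .nil))))))) (.g (nat_lit 4) .nil .nil))) 
(.lf (nat_lit 34430) (.g (nat_lit 3595) (.e (nat_lit 1211) (nat_lit 89) (.e (nat_lit 73755) (nat_lit 8) (.e (nat_lit 557104) (nat_lit 14) (.e (nat_lit 180244) (nat_lit 5) (.e (nat_lit 532579) (nat_lit 26) (.e (nat_lit 426107) (nat_lit 1) (.e (nat_lit 171776) (nat_lit 122) .nil))))))) (.g (nat_lit 6) .nil .nil)))))))) 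
(.nd (nat_lit 1) (.nd (nat_lit 2) (.nd (nat_lit 3) (.nd (nat_lit 4) (.nd (nat_lit 5) 
(.lf (nat_lit 34369) (.g (nat_lit 2669) (.e (nat_lit 1211) (nat_lit 89) (.e (nat_lit 73755) (nat_lit 8) (.e (nat_lit 557098) (nat_lit 13) (.e (nat_lit 172064) (nat_lit 2) (.e (nat_lit 204544) (nat_lit 2) (.e (nat_lit 24611) (nat_lit 4) (.e (nat_lit 123018) (nat_lit 122) .nil))))))) (.g (nat_lit 4) .nil .nil))) 
(.lf (nat_lit 34401) (.g (nat_lit 3383) (.e (nat_lit 1211) (nat_lit 89) (.e (nat_lit 73755) (nat_lit 8) (.e (nat_lit 557103) (nat_lit 14) (.e (nat_lit 180244) (nat_lit 5) (.e (nat_lit 532579) (nat_lit 26) (.e (nat_lit 426108) (nat_lit 1) (.e (nat_lit 171776) (nat_lit 122) .nil))))))) (.g (nat_lit 6) .nil .nil)))) (.nd (nat_lit 5) 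
(.lf (nat_lit 34385) (.g (nat_lit 3600) (.e (nat_lit 1211) (nat_lit 89) (.e (nat_lit 73755) (nat_lit 8) (.e (nat_lit 557098) (nat_lit 13) (.e (nat_lit 179968) (nat_lit 20) (.e (nat_lit 114711) (nat_lit 21) (.e (nat_lit 57847) (nat_lit 252) (.e (nat_lit 57365) (nat_lit 1) (.e (nat_lit 57724) (nat_lit 181) .nil)))))))) (.g (nat_lit 7) .nil .nil))) 
(.lf (nat_lit 34417) (.g (nat_lit 1788) (.e (nat_lit 1211) (nat_lit 89) (.e (nat_lit 73755) (nat_lit 8) (.e (nat_lit 557104) (nat_lit 14) (.e (nat_lit 180232) (nat_lit 0) .nil)))) .nil)))) (.nd (nat_lit 4) (.nd (nat_lit 5) 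
(.lf (nat_lit 34377) (.g (nat_lit 2730) (.e (nat_lit 1211) (nat_lit 89) (.e (nat_lit 73755) (nat_lit 8) (.e (nat_lit 557098) (nat_lit 13) (.e (nat_lit 172133) (nat_lit 15) (.e (nat_lit 2059) (nat_lit 142) (.e (nat_lit 704595) (nat_lit 5) (.e (nat_lit 180229) (nat_lit 0) (.e (nat_lit 6264) (nat_lit 337) .nil)))))))) (.g (nat_lit 4) .nil .nil))) 
(.lf (nat_lit 34409) (.g (nat_lit 2604) (.e (nat_lit 1211) (nat_lit 89) (.e (nat_lit 73755) (nat_lit 8) (.e (nat_lit 557104) (nat_lit 14) (.e (nat_lit 180229) (nat_lit 0) (.e (nat_lit 5548) (nat_lit 306) (.e (nat_lit 2638) (nat_lit 165) (.e (nat_lit 180229) (nat_lit 0) (.e (nat_lit 6306) (nat_lit 337) .nil)))))))) (.g (nat_lit 4) .nil .nil)))) (.nd (nat_lit 5) 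
(.lf (nat_lit 34393) (.g (nat_lit 3027) (.e (nat_lit 1211) (nat_lit 89) (.e (nat_lit 73755) (nat_lit 8) (.e (nat_lit 557098) (nat_lit 13) (.e (nat_lit 172140) (nat_lit 22) (.e (nat_lit 139281) (nat_lit 5) (.e (nat_lit 73737) (nat_lit 0) (.e (nat_lit 4215) (nat_lit 251) .nil))))))) (.g (nat_lit 7) .nil .nil))) 
(.lf (nat_lit 34425) (.g (nat_lit 2212) (.e (nat_lit 1211) (nat_lit 89) (.e (nat_lit 73755) (nat_lit 8) (.e (nat_lit 557104) (nat_lit 14) (.e (nat_lit 180233) (nat_lit 0) (.e (nat_lit 5448) (nat_lit 306) (.e (nat_lit 2725) (nat_lit 172) (.e (nat_lit 237585) (nat_lit 1) (.e (nat_lit 164147) (nat_lit 152) .nil)))))))) (.g (nat_lit 5) .nil .nil)))))) 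
(.nd (nat_lit 3) (.nd (nat_lit 4) (.nd (nat_lit 5) 
(.lf (nat_lit 34373) (.g (nat_lit 2916) (.e (nat_lit 1211) (nat_lit 89) (.e (nat_lit 73755) (nat_lit 8) (.e (nat_lit 557098) (nat_lit 13) (.e (nat_lit 172133) (nat_lit 15) (.e (nat_lit 2059) (nat_lit 142) (.e (nat_lit 704595) (nat_lit 5) (.e (nat_lit 180224) (nat_lit 0) (.e (nat_lit 6305) (nat_lit 337) .nil)))))))) (.g (nat_lit 4) .nil .nil))) 
(.lf (nat_lit 34405) (.g (nat_lit 2557) (.e (nat_lit 1211) (nat_lit 89) (.e (nat_lit 73755) (nat_lit 8) (.e (nat_lit 557103) (nat_lit 14) (.e (nat_lit 180261) (nat_lit 20) (.e (nat_lit 655378) (nat_lit 4) (.e (nat_lit 172061) (nat_lit 1) (.e (nat_lit 164163) (nat_lit 152) .nil))))))) (.g (nat_lit 4) .nil .nil)))) (.nd (nat_lit 5) 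
(.lf (nat_lit 34389) (.g (nat_lit 1633) (.e (nat_lit 1211) (nat_lit 89) (.e (nat_lit 73755) (nat_lit 8) (.e (nat_lit 557098) (nat_lit 13) (.e (nat_lit 172140) (nat_lit 22) .nil)))) .nil)) 
(.lf (nat_lit 34421) (.g (nat_lit 2185) (.e (nat_lit 1211) (nat_lit 89) (.e (nat_lit 73755) (nat_lit 8) (.e (nat_lit 557104) (nat_lit 14) (.e (nat_lit 180233) (nat_lit 0) (.e (nat_lit 5448) (nat_lit 306) (.e (nat_lit 2725) (nat_lit 172) (.e (nat_lit 237582) (nat_lit 1) (.e (nat_lit 164147) (nat_lit 152) .nil)))))))) (.g (nat_lit 5) .nil .nil))))) (.nd (nat_lit 4) (.nd (nat_lit 5) 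
(.lf (nat_lit 34381) (.g (nat_lit 3095) (.e (nat_lit 1211) (nat_lit 89) (.e (nat_lit 73755) (nat_lit 8) (.e (nat_lit 557098) (nat_lit 13) (.e (nat_lit 172133) (nat_lit 15) (.e (nat_lit 2175) (nat_lit 143) (.e (nat_lit 712747) (nat_lit 28) (.e (nat_lit 434209) (nat_lit 18) (.e (nat_lit 6306) (nat_lit 337) .nil)))))))) (.g (nat_lit 5) .nil .nil))) 
(.lf (nat_lit 34413) (.g (nat_lit 2602) (.e (nat_lit 1211) (nat_lit 89) (.e (nat_lit 73755) (nat_lit 8) (.e (nat_lit 557104) (nat_lit 14) (.e (nat_lit 180229) (nat_lit 0) (.e (nat_lit 5548) (nat_lit 306) (.e (nat_lit 2640) (nat_lit 165) (.e (nat_lit 180224) (nat_lit 0) (.e (nat_lit 6307) (nat_lit 337) .nil)))))))) (.g (nat_lit 4) .nil .nil)))) (.nd (nat_lit 5) 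
(.lf (nat_lit 34397) (.g (nat_lit 1347) (.e (nat_lit 1211) (nat_lit 89) (.e (nat_lit 73755) (nat_lit 8) (.e (nat_lit 557103) (nat_lit 14) (.e (nat_lit 188160) (nat_lit 3) .nil)))) .nil)) 
(.lf (nat_lit 34429) (.g (nat_lit 1569) (.e (nat_lit 1211) (nat_lit 89) (.e (nat_lit 73755) (nat_lit 8) (.e (nat_lit 557104) (nat_lit 14) (.e (nat_lit 188160) (nat_lit 3) .nil)))) .nil)))))) (.nd (nat_lit 2) (.nd (nat_lit 3) (.nd (nat_lit 4) (.nd (nat_lit 5) 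
(.lf (nat_lit 34371) (.g (nat_lit 1639) (.e (nat_lit 1211) (nat_lit 89) (.e (nat_lit 73755) (nat_lit 8) (.e (nat_lit 557098) (nat_lit 13) (.e (nat_lit 172133) (nat_lit 15) .nil)))) .nil)) 
(.lf (nat_lit 34403) (.g (nat_lit 1633) (.e (nat_lit 1211) (nat_lit 89) (.e (nat_lit 73755) (nat_lit 8) (.e (nat_lit 557103) (nat_lit 14) (.e (nat_lit 180261) (nat_lit 20) .nil)))) .nil))) (.nd (nat_lit 5) 
(.lf (nat_lit 34387) (.g (nat_lit 2946) (.e (nat_lit 1211) (nat_lit 89) (.e (nat_lit 73755) (nat_lit 8) (.e (nat_lit 557098) (nat_lit 13) (.e (nat_lit 179968) (nat_lit 20) (.e (nat_lit 114711) (nat_lit 21) (.e (nat_lit 57847) (nat_lit 252) (.e (nat_lit 57365) (nat_lit 1) (.e (nat_lit 57730) (nat_lit 181) .nil)))))))) (.g (nat_lit 6) .nil .nil))) 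
(.lf (nat_lit 34419) (.g (nat_lit 2745) (.e (nat_lit 1211) (nat_lit 89) (.e (nat_lit 73755) (nat_lit 8) (.e (nat_lit 557104) (nat_lit 14) (.e (nat_lit 180233) (nat_lit 0) (.e (nat_lit 5448) (nat_lit 306) (.e (nat_lit 2641) (nat_lit 165) (.e (nat_lit 180229) (nat_lit 0) (.e (nat_lit 6306) (nat_lit 337) .nil)))))))) (.g (nat_lit 6) .nil .nil))))) (.nd (nat_lit 4) (.nd (nat_lit 5) 
(.lf (nat_lit 34379) (.g (nat_lit 2084) (.e (nat_lit 1211) (nat_lit 89) (.e (nat_lit 73755) (nat_lit 8) (.e (nat_lit 557098) (nat_lit 13) (.e (nat_lit 172133) (nat_lit 15) (.e (nat_lit 2175) (nat_lit 143) .nil))))) .nil)) 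
(.lf (nat_lit 34411) (.g (nat_lit 2637) (.e (nat_lit 1211) (nat_lit 89) (.e (nat_lit 73755) (nat_lit 8) (.e (nat_lit 557104) (nat_lit 14) (.e (nat_lit 180229) (nat_lit 0) (.e (nat_lit 5548) (nat_lit 306) (.e (nat_lit 2640) (nat_lit 165) (.e (nat_lit 180224) (nat_lit 0) (.e (nat_lit 6305) (nat_lit 337) .nil)))))))) (.g (nat_lit 4) .nil .nil)))) (.nd (nat_lit 5) 
(.lf (nat_lit 34395) (.g (nat_lit 1795) (.e (nat_lit 1211) (nat_lit 89) (.e (nat_lit 73755) (nat_lit 8) (.e (nat_lit 557100) (nat_lit 13) (.e (nat_lit 179968) (nat_lit 20) .nil)))) .nil)) 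
(.lf (nat_lit 34427) (.g (nat_lit 2097) (.e (nat_lit 1211) (nat_lit 89) (.e (nat_lit 73755) (nat_lit 8) (.e (nat_lit 557104) (nat_lit 14) (.e (nat_lit 180233) (nat_lit 0) (.e (nat_lit 5599) (nat_lit 310) (.e (nat_lit 163926) (nat_lit 16) (.e (nat_lit 458774) (nat_lit 18) (.e (nat_lit 6306) (nat_lit 337) .nil)))))))) (.g (nat_lit 4) .nil .nil)))))) 
(.nd (nat_lit 3) (.nd (nat_lit 4) (.nd (nat_lit 5) 
(.lf (nat_lit 34375) (.g (nat_lit 2881) (.e (nat_lit 1211) (nat_lit 89) (.e (nat_lit 73755) (nat_lit 8) (.e (nat_lit 557098) (nat_lit 13) (.e (nat_lit 172133) (nat_lit 15) (.e (nat_lit 2059) (nat_lit 142) (.e (nat_lit 704595) (nat_lit 5) (.e (nat_lit 180224) (nat_lit 0) (.e (nat_lit 6307) (nat_lit 337) .nil)))))))) (.g (nat_lit 4) .nil .nil))) 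
(.lf (nat_lit 34407) (.g (nat_lit 1310) (.e (nat_lit 1211) (nat_lit 89) (.e (nat_lit 73755) (nat_lit 8) (.e (nat_lit 557104) (nat_lit 14) (.e (nat_lit 180229) (nat_lit 0) .nil)))) .nil))) (.nd (nat_lit 5) 
(.lf (nat_lit 34391) (.g (nat_lit 2733) (.e (nat_lit 1211) (nat_lit 89) (.e (nat_lit 73755) (nat_lit 8) (.e (nat_lit 557098) (nat_lit 13) (.e (nat_lit 172140) (nat_lit 22) (.e (nat_lit 139280) (nat_lit 4) (.e (nat_lit 65574) (nat_lit 4) (.e (nat_lit 123019) (nat_lit 122) .nil))))))) (.g (nat_lit 4) .nil .nil))) 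
(.lf (nat_lit 34423) (.g (nat_lit 1994) (.e (nat_lit 1211) (nat_lit 89) (.e (nat_lit 73755) (nat_lit 8) (.e (nat_lit 557104) (nat_lit 14) (.e (nat_lit 180233) (nat_lit 0) (.e (nat_lit 5448) (nat_lit 306) (.e (nat_lit 2725) (nat_lit 172) (.e (nat_lit 237584) (nat_lit 1) (.e (nat_lit 164147) (nat_lit 152) .nil)))))))) (.g (nat_lit 4) .nil .nil))))) (.nd (nat_lit 4) (.nd (nat_lit 5) 
(.lf (nat_lit 34383) (.g (nat_lit 1605) (.e (nat_lit 1211) (nat_lit 89) (.e (nat_lit 73755) (nat_lit 8) (.e (nat_lit 557098) (nat_lit 13) (.e (nat_lit 172136) (nat_lit 15) .nil)))) .nil)) 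
(.lf (nat_lit 34415) (.g (nat_lit 3060) (.e (nat_lit 1211) (nat_lit 89) (.e (nat_lit 73755) (nat_lit 8) (.e (nat_lit 557104) (nat_lit 14) (.e (nat_lit 180229) (nat_lit 0) (.e (nat_lit 5548) (nat_lit 306) (.e (nat_lit 2640) (nat_lit 165) (.e (nat_lit 180230) (nat_lit 0) (.e (nat_lit 6264) (nat_lit 337) .nil)))))))) (.g (nat_lit 5) .nil .nil)))) (.nd (nat_lit 5) 
(.lf (nat_lit 34399) (.g (nat_lit 2086) (.e (nat_lit 1211) (nat_lit 89) (.e (nat_lit 73755) (nat_lit 8) (.e (nat_lit 557103) (nat_lit 14) (.e (nat_lit 180244) (nat_lit 5) (.e (nat_lit 532579) (nat_lit 26) (.e (nat_lit 426100) (nat_lit 1) (.e (nat_lit 171776) (nat_lit 122) .nil))))))) (.g (nat_lit 4) .nil .nil))) 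
(.lf (nat_lit 34431) (.g (nat_lit 3211) (.e (nat_lit 1211) (nat_lit 89) (.e (nat_lit 73755) (nat_lit 8) (.e (nat_lit 557104) (nat_lit 14) (.e (nat_lit 180244) (nat_lit 5) (.e (nat_lit 532579) (nat_lit 26) (.e (nat_lit 426108) (nat_lit 1) (.e (nat_lit 171776) (nat_lit 122) .nil))))))) (.g (nat_lit 5) .nil .nil)))))))))

noncomputable def tv480 : DT := (.nd (nat_lit 0) (.nd (nat_lit 1) (.nd (nat_lit 2) (.nd (nat_lit 3) (.nd (nat_lit 4) (.nd (nat_lit 5) 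
(.lf (nat_lit 34432) (.g (nat_lit 1495) (.e (nat_lit 1211) (nat_lit 89) (.e (nat_lit 73755) (nat_lit 8) (.e (nat_lit 557104) (nat_lit 14) (.e (nat_lit 180248) (nat_lit 9) .nil)))) .nil)) 
(.lf (nat_lit 34464) (.g (nat_lit 2141) (.e (nat_lit 1211) (nat_lit 89) (.e (nat_lit 73776) (nat_lit 26) (.e (nat_lit 778362) (nat_lit 9) (.e (nat_lit 297) (nat_lit 22) (.e (nat_lit 344133) (nat_lit 26) .nil))))) .nil))) (.nd (nat_lit 5) 
(.lf (nat_lit 34448) (.g (nat_lit 3109) (.e (nat_lit 1211) (nat_lit 89) (.e (nat_lit 73755) (nat_lit 8) (.e (nat_lit 557105) (nat_lit 14) (.e (nat_lit 180261) (nat_lit 20) (.e (nat_lit 655378) (nat_lit 4) (.e (nat_lit 172061) (nat_lit 1) (.e (nat_lit 164163) (nat_lit 152) .nil))))))) (.g (nat_lit 6) .nil .nil))) 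
(.lf (nat_lit 34480) (.g (nat_lit 1786) (.e (nat_lit 1211) (nat_lit 89) (.e (nat_lit 73781) (nat_lit 32) (.e (nat_lit 2856) (nat_lit 184) (.e (nat_lit 426533) (nat_lit 28) (.e (nat_lit 352000) (nat_lit 11) .nil))))) .nil)))) (.nd (nat_lit 4) (.nd (nat_lit 5) 
(.lf (nat_lit 34440) (.g (nat_lit 1278) (.e (nat_lit 1211) (nat_lit 89) (.e (nat_lit 73755) (nat_lit 8) (.e (nat_lit 557105) (nat_lit 14) (.e (nat_lit 180227) (nat_lit 0) .nil)))) .nil)) 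
(.lf (nat_lit 34472) (.g (nat_lit 2045) (.e (nat_lit 1211) (nat_lit 89) (.e (nat_lit 73781) (nat_lit 32) (.e (nat_lit 2855) (nat_lit 184) (.e (nat_lit 426546) (nat_lit 30) (.e (nat_lit 360452) (nat_lit 0) (.e (nat_lit 5905) (nat_lit 320) .nil)))))) (.g (nat_lit 6) .nil .nil)))) (.nd (nat_lit 5) 
(.lf (nat_lit 34456) (.g (nat_lit 605) (.e (nat_lit 1211) (nat_lit 89) (.e (nat_lit 73775) (nat_lit 26) (.e (nat_lit 786176) (nat_lit 0) .nil))) .nil)) 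
(.lf (nat_lit 34488) (.g (nat_lit 3010) (.e (nat_lit 1211) (nat_lit 89) (.e (nat_lit 73781) (nat_lit 32) (.e (nat_lit 2856) (nat_lit 184) (.e (nat_lit 426555) (nat_lit 32) (.e (nat_lit 376860) (nat_lit 21) (.e (nat_lit 57870) (nat_lit 264) .nil)))))) (.g (nat_lit 6) .nil .nil)))))) (.nd (nat_lit 3) (.nd (nat_lit 4) (.nd (nat_lit 5) 
(.lf (nat_lit 34436) (.g (nat_lit 3906) (.e (nat_lit 1211) (nat_lit 89) (.e (nat_lit 73755) (nat_lit 8) (.e (nat_lit 557104) (nat_lit 14) (.e (nat_lit 180261) (nat_lit 20) (.e (nat_lit 655364) (nat_lit 0) (.e (nat_lit 2964) (nat_lit 185) (.e (nat_lit 434209) (nat_lit 18) (.e (nat_lit 6306) (nat_lit 337) .nil)))))))) (.g (nat_lit 7) .nil .nil))) 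
(.lf (nat_lit 34468) (.g (nat_lit 802) (.e (nat_lit 1211) (nat_lit 89) (.e (nat_lit 73781) (nat_lit 32) (.e (nat_lit 2854) (nat_lit 184) (.e (nat_lit 426544) (nat_lit 30) (.e (nat_lit 368384) (nat_lit 0) (.e (nat_lit 5906) (nat_lit 320) .nil)))))) (.g (nat_lit 4) .nil .nil)))) (.nd (nat_lit 5) 
(.lf (nat_lit 34452) (.g (nat_lit 3100) (.e (nat_lit 1211) (nat_lit 89) (.e (nat_lit 73768) (nat_lit 19) (.e (nat_lit 647199) (nat_lit 11) (.e (nat_lit 16473) (nat_lit 14) (.e (nat_lit 491560) (nat_lit 10) (.e (nat_lit 344103) (nat_lit 18) (.e (nat_lit 4803) (nat_lit 281) .nil))))))) (.g (nat_lit 5) .nil .nil))) 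
(.lf (nat_lit 34484) (.g (nat_lit 1715) (.e (nat_lit 1211) (nat_lit 89) (.e (nat_lit 73781) (nat_lit 32) (.e (nat_lit 2856) (nat_lit 184) (.e (nat_lit 426546) (nat_lit 30) (.e (nat_lit 360452) (nat_lit 0) (.e (nat_lit 5906) (nat_lit 320) .nil)))))) (.g (nat_lit 5) .nil .nil))))) (.nd (nat_lit 4) (.nd (nat_lit 5) 
(.lf (nat_lit 34444) (.g (nat_lit 2081) (.e (nat_lit 1211) (nat_lit 89) (.e (nat_lit 73755) (nat_lit 8) (.e (nat_lit 557105) (nat_lit 14) (.e (nat_lit 180252) (nat_lit 10) (.e (nat_lit 573503) (nat_lit 18) .nil))))) .nil)) 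
(.lf (nat_lit 34476) (.g (nat_lit 301) (.e (nat_lit 1211) (nat_lit 89) (.e (nat_lit 73781) (nat_lit 32) (.e (nat_lit 2856) (nat_lit 184) .nil))) .nil))) (.nd (nat_lit 5) 
(.lf (nat_lit 34460) (.g (nat_lit 2794) (.e (nat_lit 1211) (nat_lit 89) (.e (nat_lit 73775) (nat_lit 26) (.e (nat_lit 778362) (nat_lit 9) (.e (nat_lit 297) (nat_lit 22) (.e (nat_lit 344132) (nat_lit 26) (.e (nat_lit 557101) (nat_lit 13) (.e (nat_lit 172070) (nat_lit 4) (.e (nat_lit 229704) (nat_lit 254) .nil)))))))) (.g (nat_lit 4) .nil .nil))) 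
(.lf (nat_lit 34492) (.g (nat_lit 2771) (.e (nat_lit 1211) (nat_lit 89) (.e (nat_lit 73781) (nat_lit 32) (.e (nat_lit 2857) (nat_lit 184) (.e (nat_lit 426542) (nat_lit 29) (.e (nat_lit 352309) (nat_lit 21) (.e (nat_lit 57872) (nat_lit 264) .nil)))))) (.g (nat_lit 0) .nil .nil))))))) (.nd (nat_lit 2) (.nd (nat_lit 3) (.nd (nat_lit 4) (.nd (nat_lit 5) 
(.lf (nat_lit 34434) (.g (nat_lit 2408) (.e (nat_lit 1211) (nat_lit 89) (.e (nat_lit 73755) (nat_lit 8) (.e (nat_lit 557104) (nat_lit 14) (.e (nat_lit 180261) (nat_lit 20) (.e (nat_lit 655364) (nat_lit 0) (.e (nat_lit 2884) (nat_lit 184) (.e (nat_lit 426109) (nat_lit 1) (.e (nat_lit 164163) (nat_lit 152) .nil)))))))) (.g (nat_lit 4) .nil .nil))) 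
(.lf (nat_lit 34466) (.g (nat_lit 1965) (.e (nat_lit 1211) (nat_lit 89) (.e (nat_lit 73781) (nat_lit 32) (.e (nat_lit 2854) (nat_lit 184) (.e (nat_lit 426542) (nat_lit 29) (.e (nat_lit 352307) (nat_lit 21) (.e (nat_lit 57870) (nat_lit 264) .nil)))))) (.g (nat_lit 0) .nil .nil)))) (.nd (nat_lit 5) 
(.lf (nat_lit 34450) (.g (nat_lit 3024) (.e (nat_lit 1211) (nat_lit 89) (.e (nat_lit 73755) (nat_lit 8) (.e (nat_lit 557119) (nat_lit 18) (.e (nat_lit 2798) (nat_lit 180) (.e (nat_lit 303133) (nat_lit 9) (.e (nat_lit 426499) (nat_lit 27) (.e (nat_lit 335986) (nat_lit 1) (.e (nat_lit 65280) (nat_lit 146) .nil)))))))) (.g (nat_lit 5) .nil .nil))) 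
(.lf (nat_lit 34482) (.g (nat_lit 1971) (.e (nat_lit 1211) (nat_lit 89) (.e (nat_lit 73781) (nat_lit 32) (.e (nat_lit 2856) (nat_lit 184) (.e (nat_lit 426542) (nat_lit 29) (.e (nat_lit 352309) (nat_lit 21) .nil))))) .nil)))) (.nd (nat_lit 4) (.nd (nat_lit 5) 
(.lf (nat_lit 34442) (.g (nat_lit 1728) (.e (nat_lit 1211) (nat_lit 89) (.e (nat_lit 73755) (nat_lit 8) (.e (nat_lit 557105) (nat_lit 14) (.e (nat_lit 180244) (nat_lit 5) .nil)))) .nil)) 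
(.lf (nat_lit 34474) (.g (nat_lit 2514) (.e (nat_lit 1211) (nat_lit 89) (.e (nat_lit 73781) (nat_lit 32) (.e (nat_lit 2855) (nat_lit 184) (.e (nat_lit 426555) (nat_lit 32) (.e (nat_lit 376857) (nat_lit 21) (.e (nat_lit 57870) (nat_lit 264) .nil)))))) (.g (nat_lit 6) .nil .nil)))) (.nd (nat_lit 5) 
(.lf (nat_lit 34458) (.g (nat_lit 2964) (.e (nat_lit 1211) (nat_lit 89) (.e (nat_lit 73775) (nat_lit 26) (.e (nat_lit 778362) (nat_lit 9) (.e (nat_lit 297) (nat_lit 22) (.e (nat_lit 344131) (nat_lit 26) .nil))))) .nil)) 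
(.lf (nat_lit 34490) (.g (nat_lit 1507) (.e (nat_lit 1211) (nat_lit 89) (.e (nat_lit 73781) (nat_lit 32) (.e (nat_lit 2857) (nat_lit 184) (.e (nat_lit 426542) (nat_lit 29) (.e (nat_lit 352309) (nat_lit 21) .nil))))) .nil))))) (.nd (nat_lit 3) (.nd (nat_lit 4) (.nd (nat_lit 5) 
(.lf (nat_lit 34438) (.g (nat_lit 3889) (.e (nat_lit 1211) (nat_lit 89) (.e (nat_lit 73755) (nat_lit 8) (.e (nat_lit 557104) (nat_lit 14) (.e (nat_lit 180261) (nat_lit 20) (.e (nat_lit 655378) (nat_lit 4) (.e (nat_lit 172070) (nat_lit 4) (.e (nat_lit 229544) (nat_lit 152) .nil))))))) (.g (nat_lit 7) .nil .nil))) 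
(.lf (nat_lit 34470) (.g (nat_lit 2205) (.e (nat_lit 1211) (nat_lit 89) (.e (nat_lit 73781) (nat_lit 32) (.e (nat_lit 2854) (nat_lit 184) (.e (nat_lit 426555) (nat_lit 32) (.e (nat_lit 376859) (nat_lit 21) (.e (nat_lit 57870) (nat_lit 264) .nil)))))) (.g (nat_lit 6) .nil .nil)))) (.nd (nat_lit 5) 
(.lf (nat_lit 34454) (.g (nat_lit 1723) (.e (nat_lit 1211) (nat_lit 89) (.e (nat_lit 73775) (nat_lit 26) (.e (nat_lit 778277) (nat_lit 0) (.e (nat_lit 1597) (nat_lit 111) (.e (nat_lit 360466) (nat_lit 3) (.e (nat_lit 516117) (nat_lit 1) (.e (nat_lit 164147) (nat_lit 152) .nil))))))) (.g (nat_lit 5) .nil .nil))) 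
(.lf (nat_lit 34486) (.g (nat_lit 3063) (.e (nat_lit 1211) (nat_lit 89) (.e (nat_lit 73781) (nat_lit 32) (.e (nat_lit 2856) (nat_lit 184) (.e (nat_lit 426555) (nat_lit 32) (.e (nat_lit 376857) (nat_lit 21) (.e (nat_lit 57870) (nat_lit 264) .nil)))))) (.g (nat_lit 6) .nil .nil))))) (.nd (nat_lit 4) (.nd (nat_lit 5) 
(.lf (nat_lit 34446) (.g (nat_lit 1477) (.e (nat_lit 1211) (nat_lit 89) (.e (nat_lit 73755) (nat_lit 8) (.e (nat_lit 557105) (nat_lit 14) (.e (nat_lit 180261) (nat_lit 20) .nil)))) .nil)) 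
(.lf (nat_lit 34478) (.g (nat_lit 1263) (.e (nat_lit 1211) (nat_lit 89) (.e (nat_lit 73781) (nat_lit 32) (.e (nat_lit 2856) (nat_lit 184) (.e (nat_lit 426533) (nat_lit 28) .nil)))) .nil))) (.nd (nat_lit 5) 
(.lf (nat_lit 34462) (.g (nat_lit 2974) (.e (nat_lit 1211) (nat_lit 89) (.e (nat_lit 73775) (nat_lit 26) (.e (nat_lit 778362) (nat_lit 9) (.e (nat_lit 297) (nat_lit 22) (.e (nat_lit 344133) (nat_lit 26) (.e (nat_lit 557103) (nat_lit 14) (.e (nat_lit 188160) (nat_lit 0) (.e (nat_lit 5906) (nat_lit 320) .nil)))))))) (.g (nat_lit 4) .nil .nil))) 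
(.lf (nat_lit 34494) (.g (nat_lit 1493) (.e (nat_lit 1211) (nat_lit 89) (.e (nat_lit 73781) (nat_lit 32) (.e (nat_lit 2857) (nat_lit 184) (.e (nat_lit 426546) (nat_lit 30) (.e (nat_lit 360452) (nat_lit 0) (.e (nat_lit 5906) (nat_lit 320) .nil)))))) (.g (nat_lit 5) .nil .nil)))))))) (.nd (nat_lit 1) (.nd (nat_lit 2) (.nd (nat_lit 3) (.nd (nat_lit 4) (.nd (nat_lit 5) 
(.lf (nat_lit 34433) (.g (nat_lit 1400) (.e (nat_lit 1211) (nat_lit 89) (.e (nat_lit 73755) (nat_lit 8) (.e (nat_lit 557104) (nat_lit 14) (.e (nat_lit 180261) (nat_lit 20) .nil)))) .nil)) 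
(.lf (nat_lit 34465) (.g (nat_lit 1903) (.e (nat_lit 1211) (nat_lit 89) (.e (nat_lit 73781) (nat_lit 32) (.e (nat_lit 2682) (nat_lit 168) (.e (nat_lit 204838) (nat_lit 20) (.e (nat_lit 114702) (nat_lit 20) .nil))))) .nil))) (.nd (nat_lit 5) 
(.lf (nat_lit 34449) (.g (nat_lit 3229) (.e (nat_lit 1211) (nat_lit 89) (.e (nat_lit 73755) (nat_lit 8) (.e (nat_lit 557105) (nat_lit 14) (.e (nat_lit 180261) (nat_lit 20) (.e (nat_lit 655378) (nat_lit 4) (.e (nat_lit 172070) (nat_lit 4) (.e (nat_lit 229544) (nat_lit 152) .nil))))))) (.g (nat_lit 6) .nil .nil))) 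
(.lf (nat_lit 34481) (.g (nat_lit 2999) (.e (nat_lit 1211) (nat_lit 89) (.e (nat_lit 73781) (nat_lit 32) (.e (nat_lit 2856) (nat_lit 184) (.e (nat_lit 426542) (nat_lit 29) (.e (nat_lit 352307) (nat_lit 21) (.e (nat_lit 57870) (nat_lit 264) .nil)))))) (.g (nat_lit 0) .nil .nil))))) (.nd (nat_lit 4) (.nd (nat_lit 5) 
(.lf (nat_lit 34441) (.g (nat_lit 1522) (.e (nat_lit 1211) (nat_lit 89) (.e (nat_lit 73755) (nat_lit 8) (.e (nat_lit 557105) (nat_lit 14) (.e (nat_lit 188160) (nat_lit 3) .nil)))) .nil)) 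
(.lf (nat_lit 34473) (.g (nat_lit 804) (.e (nat_lit 1211) (nat_lit 89) (.e (nat_lit 73781) (nat_lit 32) (.e (nat_lit 2855) (nat_lit 184) (.e (nat_lit 426546) (nat_lit 30) (.e (nat_lit 368384) (nat_lit 0) (.e (nat_lit 5906) (nat_lit 320) .nil)))))) (.g (nat_lit 4) .nil .nil)))) (.nd (nat_lit 5) 
(.lf (nat_lit 34457) (.g (nat_lit 3042) (.e (nat_lit 1211) (nat_lit 89) (.e (nat_lit 73775) (nat_lit 26) (.e (nat_lit 778362) (nat_lit 9) (.e (nat_lit 297) (nat_lit 22) (.e (nat_lit 344127) (nat_lit 26) .nil))))) .nil)) 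
(.lf (nat_lit 34489) (.g (nat_lit 2525) (.e (nat_lit 1211) (nat_lit 89) (.e (nat_lit 73781) (nat_lit 32) (.e (nat_lit 2857) (nat_lit 184) (.e (nat_lit 426542) (nat_lit 29) (.e (nat_lit 352307) (nat_lit 21) (.e (nat_lit 57870) (nat_lit 264) .nil)))))) (.g (nat_lit 0) .nil .nil)))))) (.nd (nat_lit 3) (.nd (nat_lit 4) (.nd (nat_lit 5) 
(.lf (nat_lit 34437) (.g (nat_lit 3779) (.e (nat_lit 1211) (nat_lit 89) (.e (nat_lit 73755) (nat_lit 8) (.e (nat_lit 557104) (nat_lit 14) (.e (nat_lit 180261) (nat_lit 20) (.e (nat_lit 655378) (nat_lit 4) (.e (nat_lit 172061) (nat_lit 1) (.e (nat_lit 164163) (nat_lit 152) .nil))))))) (.g (nat_lit 7) .nil .nil))) 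
(.lf (nat_lit 34469) (.g (nat_lit 2311) (.e (nat_lit 1211) (nat_lit 89) (.e (nat_lit 73781) (nat_lit 32) (.e (nat_lit 2854) (nat_lit 184) (.e (nat_lit 426555) (nat_lit 32) (.e (nat_lit 376857) (nat_lit 21) (.e (nat_lit 57870) (nat_lit 264) .nil)))))) (.g (nat_lit 6) .nil .nil)))) (.nd (nat_lit 5) 
(.lf (nat_lit 34453) (.g (nat_lit 640) (.e (nat_lit 1211) (nat_lit 89) (.e (nat_lit 73775) (nat_lit 26) (.e (nat_lit 778265) (nat_lit 0) .nil))) .nil)) 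
(.lf (nat_lit 34485) (.g (nat_lit 2750) (.e (nat_lit 1211) (nat_lit 89) (.e (nat_lit 73781) (nat_lit 32) (.e (nat_lit 2856) (nat_lit 184) (.e (nat_lit 426555) (nat_lit 32) (.e (nat_lit 376856) (nat_lit 21) .nil))))) .nil)))) (.nd (nat_lit 4) (.nd (nat_lit 5) 
(.lf (nat_lit 34445) (.g (nat_lit 2407) (.e (nat_lit 1211) (nat_lit 89) (.e (nat_lit 73755) (nat_lit 8) (.e (nat_lit 557105) (nat_lit 14) (.e (nat_lit 180252) (nat_lit 10) (.e (nat_lit 573503) (nat_lit 18) (.e (nat_lit 1349) (nat_lit 102) (.e (nat_lit 286728) (nat_lit 0) (.e (nat_lit 990) (nat_lit 81) (.e (nat_lit 4255) (nat_lit 251) .nil))))))))) (.g (nat_lit 4) .nil .nil))) 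
(.lf (nat_lit 34477) (.g (nat_lit 1550) (.e (nat_lit 1211) (nat_lit 89) (.e (nat_lit 73781) (nat_lit 32) (.e (nat_lit 2856) (nat_lit 184) (.e (nat_lit 426509) (nat_lit 27) (.e (nat_lit 336177) (nat_lit 10) (.e (nat_lit 344097) (nat_lit 18) (.e (nat_lit 5906) (nat_lit 320) .nil))))))) (.g (nat_lit 4) .nil .nil)))) (.nd (nat_lit 5) 
(.lf (nat_lit 34461) (.g (nat_lit 2687) (.e (nat_lit 1211) (nat_lit 89) (.e (nat_lit 73775) (nat_lit 26) (.e (nat_lit 778362) (nat_lit 9) (.e (nat_lit 297) (nat_lit 22) (.e (nat_lit 344133) (nat_lit 26) .nil))))) .nil)) 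
(.lf (nat_lit 34493) (.g (nat_lit 1575) (.e (nat_lit 1211) (nat_lit 89) (.e (nat_lit 73781) (nat_lit 32) (.e (nat_lit 2857) (nat_lit 184) (.e (nat_lit 426544) (nat_lit 30) (.e (nat_lit 368384) (nat_lit 0) (.e (nat_lit 5905) (nat_lit 320) .nil)))))) (.g (nat_lit 4) .nil .nil))))))) (.nd (nat_lit 2) (.nd (nat_lit 3) (.nd (nat_lit 4) (.nd (nat_lit 5) 
(.lf (nat_lit 34435) (.g (nat_lit 2854) (.e (nat_lit 1211) (nat_lit 89) (.e (nat_lit 73755) (nat_lit 8) (.e (nat_lit 557104) (nat_lit 14) (.e (nat_lit 180261) (nat_lit 20) (.e (nat_lit 655364) (nat_lit 0) (.e (nat_lit 2964) (nat_lit 185) (.e (nat_lit 434209) (nat_lit 18) (.e (nat_lit 6264) (nat_lit 337) .nil)))))))) (.g (nat_lit 5) .nil .nil))) 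
(.lf (nat_lit 34467) (.g (nat_lit 1895) (.e (nat_lit 1211) (nat_lit 89) (.e (nat_lit 73781) (nat_lit 32) (.e (nat_lit 2854) (nat_lit 184) (.e (nat_lit 426542) (nat_lit 29) (.e (nat_lit 352309) (nat_lit 21) (.e (nat_lit 57870) (nat_lit 264) .nil)))))) (.g (nat_lit 0) .nil .nil)))) (.nd (nat_lit 5) 
(.lf (nat_lit 34451) (.g (nat_lit 3226) (.e (nat_lit 1211) (nat_lit 89) (.e (nat_lit 73767) (nat_lit 19) (.e (nat_lit 647199) (nat_lit 11) (.e (nat_lit 16473) (nat_lit 14) (.e (nat_lit 491560) (nat_lit 10) (.e (nat_lit 344103) (nat_lit 18) (.e (nat_lit 4803) (nat_lit 281) .nil))))))) (.g (nat_lit 6) .nil .nil))) 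
(.lf (nat_lit 34483) (.g (nat_lit 2938) (.e (nat_lit 1211) (nat_lit 89) (.e (nat_lit 73781) (nat_lit 32) (.e (nat_lit 2856) (nat_lit 184) (.e (nat_lit 426542) (nat_lit 29) (.e (nat_lit 352309) (nat_lit 21) (.e (nat_lit 57870) (nat_lit 264) .nil)))))) (.g (nat_lit 0) .nil .nil))))) (.nd (nat_lit 4) (.nd (nat_lit 5) 
(.lf (nat_lit 34443) (.g (nat_lit 1704) (.e (nat_lit 1211) (nat_lit 89) (.e (nat_lit 73755) (nat_lit 8) (.e (nat_lit 557105) (nat_lit 14) (.e (nat_lit 180248) (nat_lit 9) .nil)))) .nil)) 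
(.lf (nat_lit 34475) (.g (nat_lit 2419) (.e (nat_lit 1211) (nat_lit 89) (.e (nat_lit 73781) (nat_lit 32) (.e (nat_lit 2855) (nat_lit 184) (.e (nat_lit 426555) (nat_lit 32) (.e (nat_lit 376859) (nat_lit 21) (.e (nat_lit 57870) (nat_lit 264) .nil)))))) (.g (nat_lit 6) .nil .nil)))) (.nd (nat_lit 5) 
(.lf (nat_lit 34459) (.g (nat_lit 2770) (.e (nat_lit 1211) (nat_lit 89) (.e (nat_lit 73775) (nat_lit 26) (.e (nat_lit 778362) (nat_lit 9) (.e (nat_lit 297) (nat_lit 22) (.e (nat_lit 344132) (nat_lit 26) .nil))))) .nil)) 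
(.lf (nat_lit 34491) (.g (nat_lit 2477) (.e (nat_lit 1211) (nat_lit 89) (.e (nat_lit 73781) (nat_lit 32) (.e (nat_lit 2857) (nat_lit 184) (.e (nat_lit 426542) (nat_lit 29) (.e (nat_lit 352309) (nat_lit 21) (.e (nat_lit 57870) (nat_lit 264) .nil)))))) (.g (nat_lit 0) .nil .nil)))))) (.nd (nat_lit 3) (.nd (nat_lit 4) (.nd (nat_lit 5) 
(.lf (nat_lit 34439) (.g (nat_lit 324) (.e (nat_lit 1211) (nat_lit 89) (.e (nat_lit 73755) (nat_lit 8) (.e (nat_lit 557105) (nat_lit 14) .nil))) .nil)) 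
(.lf (nat_lit 34471) (.g (nat_lit 906) (.e (nat_lit 1211) (nat_lit 89) (.e (nat_lit 73781) (nat_lit 32) (.e (nat_lit 2855) (nat_lit 184) (.e (nat_lit 426544) (nat_lit 30) (.e (nat_lit 368384) (nat_lit 0) .nil))))) .nil))) (.nd (nat_lit 5) 
(.lf (nat_lit 34455) (.g (nat_lit 1843) (.e (nat_lit 1211) (nat_lit 89) (.e (nat_lit 73775) (nat_lit 26) (.e (nat_lit 778277) (nat_lit 0) (.e (nat_lit 1597) (nat_lit 111) (.e (nat_lit 360466) (nat_lit 3) (.e (nat_lit 516120) (nat_lit 1) (.e (nat_lit 164147) (nat_lit 152) .nil))))))) (.g (nat_lit 5) .nil .nil))) 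
(.lf (nat_lit 34487) (.g (nat_lit 2929) (.e (nat_lit 1211) (nat_lit 89) (.e (nat_lit 73781) (nat_lit 32) (.e (nat_lit 2856) (nat_lit 184) (.e (nat_lit 426555) (nat_lit 32) (.e (nat_lit 376859) (nat_lit 21) (.e (nat_lit 57870) (nat_lit 264) .nil)))))) (.g (nat_lit 0) .nil .nil))))) (.nd (nat_lit 4) (.nd (nat_lit 5) 
(.lf (nat_lit 34447) (.g (nat_lit 1929) (.e (nat_lit 1211) (nat_lit 89) (.e (nat_lit 73755) (nat_lit 8) (.e (nat_lit 557105) (nat_lit 14) (.e (nat_lit 180261) (nat_lit 20) (.e (nat_lit 655364) (nat_lit 0) .nil))))) .nil)) 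
(.lf (nat_lit 34479) (.g (nat_lit 1786) (.e (nat_lit 1211) (nat_lit 89) (.e (nat_lit 73781) (nat_lit 32) (.e (nat_lit 2856) (nat_lit 184) (.e (nat_lit 426533) (nat_lit 28) (.e (nat_lit 352000) (nat_lit 8) .nil))))) .nil))) (.nd (nat_lit 5) 
(.lf (nat_lit 34463) (.g (nat_lit 2950) (.e (nat_lit 1211) (nat_lit 89) (.e (nat_lit 73775) (nat_lit 26) (.e (nat_lit 778362) (nat_lit 9) (.e (nat_lit 297) (nat_lit 22) (.e (nat_lit 344133) (nat_lit 26) (.e (nat_lit 557105) (nat_lit 14) (.e (nat_lit 180224) (nat_lit 0) (.e (nat_lit 5909) (nat_lit 320) .nil)))))))) (.g (nat_lit 4) .nil .nil))) 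
(.lf (nat_lit 34495) (.g (nat_lit 329) (.e (nat_lit 1211) (nat_lit 89) (.e (nat_lit 73781) (nat_lit 32) (.e (nat_lit 3087) (nat_lit 191) .nil))) .nil))))))))

noncomputable def tv481 : DT := (.nd (nat_lit 0) (.nd (nat_lit 1) (.nd (nat_lit 2) (.nd (nat_lit 3) (.nd (nat_lit 4) (.nd (nat_lit 5) 
(.lf (nat_lit 34496) (.g (nat_lit 1766) (.e (nat_lit 1211) (nat_lit 89) (.e (nat_lit 73781) (nat_lit 32) (.e (nat_lit 3087) (nat_lit 191) (.e (nat_lit 483378) (nat_lit 23) (.e (nat_lit 335997) (nat_lit 1) (.e (nat_lit 57870) (nat_lit 264) .nil)))))) (.g (nat_lit 0) .nil .nil))) 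
(.lf (nat_lit 34528) (.g (nat_lit 1648) (.e (nat_lit 1211) (nat_lit 89) (.e (nat_lit 73781) (nat_lit 32) (.e (nat_lit 3090) (nat_lit 191) (.e (nat_lit 483350) (nat_lit 17) (.e (nat_lit 7936) (nat_lit 346) .nil))))) .nil))) (.nd (nat_lit 5) 
(.lf (nat_lit 34512) (.g (nat_lit 325) (.e (nat_lit 1211) (nat_lit 89) (.e (nat_lit 73781) (nat_lit 32) (.e (nat_lit 3089) (nat_lit 191) .nil))) .nil)) 
(.lf (nat_lit 34544) (.g (nat_lit 1907) (.e (nat_lit 1211) (nat_lit 89) (.e (nat_lit 73781) (nat_lit 32) (.e (nat_lit 3090) (nat_lit 191) (.e (nat_lit 483394) (nat_lit 24) (.e (nat_lit 344100) (nat_lit 18) (.e (nat_lit 5907) (nat_lit 320) .nil)))))) (.g (nat_lit 4) .nil .nil))))) (.nd (nat_lit 4) (.nd (nat_lit 5) 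
(.lf (nat_lit 34504) (.g (nat_lit 1071) (.e (nat_lit 1211) (nat_lit 89) (.e (nat_lit 73781) (nat_lit 32) (.e (nat_lit 3088) (nat_lit 191) (.e (nat_lit 483390) (nat_lit 23) .nil)))) .nil)) 
(.lf (nat_lit 34536) (.g (nat_lit 2064) (.e (nat_lit 1211) (nat_lit 89) (.e (nat_lit 73781) (nat_lit 32) (.e (nat_lit 3090) (nat_lit 191) (.e (nat_lit 483383) (nat_lit 23) (.e (nat_lit 336000) (nat_lit 1) (.e (nat_lit 57873) (nat_lit 264) .nil)))))) (.g (nat_lit 4) .nil .nil)))) (.nd (nat_lit 5) 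
(.lf (nat_lit 34520) (.g (nat_lit 2304) (.e (nat_lit 1211) (nat_lit 89) (.e (nat_lit 73781) (nat_lit 32) (.e (nat_lit 3089) (nat_lit 191) (.e (nat_lit 483393) (nat_lit 23) (.e (nat_lit 335995) (nat_lit 1) (.e (nat_lit 57870) (nat_lit 264) .nil)))))) (.g (nat_lit 5) .nil .nil))) 
(.lf (nat_lit 34552) (.g (nat_lit 896) (.e (nat_lit 1211) (nat_lit 89) (.e (nat_lit 73782) (nat_lit 32) (.e (nat_lit 2855) (nat_lit 184) (.e (nat_lit 426546) (nat_lit 30) (.e (nat_lit 368384) (nat_lit 0) .nil))))) .nil))))) (.nd (nat_lit 3) (.nd (nat_lit 4) (.nd (nat_lit 5) 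
(.lf (nat_lit 34500) (.g (nat_lit 2184) (.e (nat_lit 1211) (nat_lit 89) (.e (nat_lit 73781) (nat_lit 32) (.e (nat_lit 3088) (nat_lit 191) (.e (nat_lit 483378) (nat_lit 23) (.e (nat_lit 335997) (nat_lit 1) (.e (nat_lit 57870) (nat_lit 264) .nil)))))) (.g (nat_lit 6) .nil .nil))) 
(.lf (nat_lit 34532) (.g (nat_lit 1179) (.e (nat_lit 1211) (nat_lit 89) (.e (nat_lit 73781) (nat_lit 32) (.e (nat_lit 3090) (nat_lit 191) (.e (nat_lit 483378) (nat_lit 23) .nil)))) .nil))) (.nd (nat_lit 5) 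
(.lf (nat_lit 34516) (.g (nat_lit 1513) (.e (nat_lit 1211) (nat_lit 89) (.e (nat_lit 73781) (nat_lit 32) (.e (nat_lit 3089) (nat_lit 191) (.e (nat_lit 483389) (nat_lit 23) (.e (nat_lit 335997) (nat_lit 1) (.e (nat_lit 57870) (nat_lit 264) .nil)))))) (.g (nat_lit 5) .nil .nil))) 
(.lf (nat_lit 34548) (.g (nat_lit 1599) (.e (nat_lit 1211) (nat_lit 89) (.e (nat_lit 73782) (nat_lit 32) (.e (nat_lit 2854) (nat_lit 184) (.e (nat_lit 426542) (nat_lit 29) (.e (nat_lit 352307) (nat_lit 21) (.e (nat_lit 57870) (nat_lit 264) .nil)))))) (.g (nat_lit 5) .nil .nil))))) (.nd (nat_lit 4) (.nd (nat_lit 5) 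
(.lf (nat_lit 34508) (.g (nat_lit 2957) (.e (nat_lit 1211) (nat_lit 89) (.e (nat_lit 73781) (nat_lit 32) (.e (nat_lit 3088) (nat_lit 191) (.e (nat_lit 483393) (nat_lit 23) (.e (nat_lit 335996) (nat_lit 1) (.e (nat_lit 57870) (nat_lit 264) .nil)))))) (.g (nat_lit 6) .nil .nil))) 
(.lf (nat_lit 34540) (.g (nat_lit 1486) (.e (nat_lit 1211) (nat_lit 89) (.e (nat_lit 73781) (nat_lit 32) (.e (nat_lit 3090) (nat_lit 191) (.e (nat_lit 483389) (nat_lit 23) (.e (nat_lit 335997) (nat_lit 1) (.e (nat_lit 57870) (nat_lit 264) .nil)))))) (.g (nat_lit 4) .nil .nil)))) (.nd (nat_lit 5) 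
(.lf (nat_lit 34524) (.g (nat_lit 1785) (.e (nat_lit 1211) (nat_lit 89) (.e (nat_lit 73781) (nat_lit 32) (.e (nat_lit 3089) (nat_lit 191) (.e (nat_lit 483396) (nat_lit 24) (.e (nat_lit 344100) (nat_lit 18) (.e (nat_lit 5907) (nat_lit 320) .nil)))))) (.g (nat_lit 4) .nil .nil))) 
(.lf (nat_lit 34556) (.g (nat_lit 1185) (.e (nat_lit 1211) (nat_lit 89) (.e (nat_lit 73782) (nat_lit 32) (.e (nat_lit 2856) (nat_lit 184) (.e (nat_lit 426533) (nat_lit 28) .nil)))) .nil)))))) (.nd (nat_lit 2) (.nd (nat_lit 3) (.nd (nat_lit 4) (.nd (nat_lit 5) 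
(.lf (nat_lit 34498) (.g (nat_lit 368) (.e (nat_lit 1211) (nat_lit 89) (.e (nat_lit 73781) (nat_lit 32) (.e (nat_lit 3088) (nat_lit 191) .nil))) .nil)) 
(.lf (nat_lit 34530) (.g (nat_lit 2780) (.e (nat_lit 1211) (nat_lit 89) (.e (nat_lit 73781) (nat_lit 32) (.e (nat_lit 3090) (nat_lit 191) (.e (nat_lit 483372) (nat_lit 21) (.e (nat_lit 319504) (nat_lit 10) (.e (nat_lit 11) (nat_lit 0) (.e (nat_lit 4553) (nat_lit 269) .nil))))))) (.g (nat_lit 5) .nil .nil)))) (.nd (nat_lit 5) 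
(.lf (nat_lit 34514) (.g (nat_lit 1406) (.e (nat_lit 1211) (nat_lit 89) (.e (nat_lit 73781) (nat_lit 32) (.e (nat_lit 3089) (nat_lit 191) (.e (nat_lit 483383) (nat_lit 23) (.e (nat_lit 336000) (nat_lit 1) (.e (nat_lit 57870) (nat_lit 264) .nil)))))) (.g (nat_lit 4) .nil .nil))) 
(.lf (nat_lit 34546) (.g (nat_lit 1223) (.e (nat_lit 1211) (nat_lit 89) (.e (nat_lit 73781) (nat_lit 32) (.e (nat_lit 3090) (nat_lit 191) (.e (nat_lit 483399) (nat_lit 25) .nil)))) .nil)))) (.nd (nat_lit 4) (.nd (nat_lit 5) 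
(.lf (nat_lit 34506) (.g (nat_lit 2673) (.e (nat_lit 1211) (nat_lit 89) (.e (nat_lit 73781) (nat_lit 32) (.e (nat_lit 3088) (nat_lit 191) (.e (nat_lit 483393) (nat_lit 23) (.e (nat_lit 335988) (nat_lit 1) (.e (nat_lit 57870) (nat_lit 264) .nil)))))) (.g (nat_lit 6) .nil .nil))) 
(.lf (nat_lit 34538) (.g (nat_lit 1122) (.e (nat_lit 1211) (nat_lit 89) (.e (nat_lit 73781) (nat_lit 32) (.e (nat_lit 3090) (nat_lit 191) (.e (nat_lit 483387) (nat_lit 23) .nil)))) .nil))) (.nd (nat_lit 5) 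
(.lf (nat_lit 34522) (.g (nat_lit 1056) (.e (nat_lit 1211) (nat_lit 89) (.e (nat_lit 73781) (nat_lit 32) (.e (nat_lit 3089) (nat_lit 191) (.e (nat_lit 491264) (nat_lit 23) .nil)))) .nil)) 
(.lf (nat_lit 34554) (.g (nat_lit 1988) (.e (nat_lit 1211) (nat_lit 89) (.e (nat_lit 73782) (nat_lit 32) (.e (nat_lit 2856) (nat_lit 184) (.e (nat_lit 426491) (nat_lit 27) .nil)))) .nil))))) (.nd (nat_lit 3) (.nd (nat_lit 4) (.nd (nat_lit 5) 
(.lf (nat_lit 34502) (.g (nat_lit 1079) (.e (nat_lit 1211) (nat_lit 89) (.e (nat_lit 73781) (nat_lit 32) (.e (nat_lit 3088) (nat_lit 191) (.e (nat_lit 483389) (nat_lit 23) .nil)))) .nil)) 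
(.lf (nat_lit 34534) (.g (nat_lit 1087) (.e (nat_lit 1211) (nat_lit 89) (.e (nat_lit 73781) (nat_lit 32) (.e (nat_lit 3090) (nat_lit 191) (.e (nat_lit 483380) (nat_lit 23) .nil)))) .nil))) (.nd (nat_lit 5) 
(.lf (nat_lit 34518) (.g (nat_lit 2029) (.e (nat_lit 1211) (nat_lit 89) (.e (nat_lit 73781) (nat_lit 32) (.e (nat_lit 3089) (nat_lit 191) (.e (nat_lit 483393) (nat_lit 23) (.e (nat_lit 335987) (nat_lit 1) (.e (nat_lit 57870) (nat_lit 264) .nil)))))) (.g (nat_lit 6) .nil .nil))) 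
(.lf (nat_lit 34550) (.g (nat_lit 1744) (.e (nat_lit 1211) (nat_lit 89) (.e (nat_lit 73782) (nat_lit 32) (.e (nat_lit 2855) (nat_lit 184) (.e (nat_lit 426542) (nat_lit 29) (.e (nat_lit 352307) (nat_lit 21) (.e (nat_lit 57870) (nat_lit 264) .nil)))))) (.g (nat_lit 5) .nil .nil))))) (.nd (nat_lit 4) (.nd (nat_lit 5) 
(.lf (nat_lit 34510) (.g (nat_lit 2779) (.e (nat_lit 1211) (nat_lit 89) (.e (nat_lit 73781) (nat_lit 32) (.e (nat_lit 3088) (nat_lit 191) (.e (nat_lit 483395) (nat_lit 24) (.e (nat_lit 344097) (nat_lit 18) (.e (nat_lit 5906) (nat_lit 320) .nil)))))) (.g (nat_lit 6) .nil .nil))) 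
(.lf (nat_lit 34542) (.g (nat_lit 1782) (.e (nat_lit 1211) (nat_lit 89) (.e (nat_lit 73781) (nat_lit 32) (.e (nat_lit 3090) (nat_lit 191) (.e (nat_lit 483393) (nat_lit 23) (.e (nat_lit 335986) (nat_lit 1) .nil))))) .nil))) (.nd (nat_lit 5) 
(.lf (nat_lit 34526) (.g (nat_lit 1674) (.e (nat_lit 1211) (nat_lit 89) (.e (nat_lit 73781) (nat_lit 32) (.e (nat_lit 3090) (nat_lit 191) (.e (nat_lit 483350) (nat_lit 17) (.e (nat_lit 6097) (nat_lit 332) .nil))))) .nil)) 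
(.lf (nat_lit 34558) (.g (nat_lit 2489) (.e (nat_lit 1211) (nat_lit 89) (.e (nat_lit 73782) (nat_lit 32) (.e (nat_lit 2856) (nat_lit 184) (.e (nat_lit 426542) (nat_lit 29) (.e (nat_lit 352309) (nat_lit 21) (.e (nat_lit 57870) (nat_lit 264) .nil)))))) (.g (nat_lit 5) .nil .nil)))))))) (.nd (nat_lit 1) (.nd (nat_lit 2) (.nd (nat_lit 3) (.nd (nat_lit 4) (.nd (nat_lit 5) 
(.lf (nat_lit 34497) (.g (nat_lit 2298) (.e (nat_lit 1211) (nat_lit 89) (.e (nat_lit 73781) (nat_lit 32) (.e (nat_lit 3087) (nat_lit 191) (.e (nat_lit 483394) (nat_lit 24) (.e (nat_lit 344097) (nat_lit 18) (.e (nat_lit 5906) (nat_lit 320) .nil)))))) (.g (nat_lit 0) .nil .nil))) 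
(.lf (nat_lit 34529) (.g (nat_lit 2392) (.e (nat_lit 1211) (nat_lit 89) (.e (nat_lit 73781) (nat_lit 32) (.e (nat_lit 3090) (nat_lit 191) (.e (nat_lit 483372) (nat_lit 21) (.e (nat_lit 319494) (nat_lit 0) .nil))))) .nil))) (.nd (nat_lit 5) 
(.lf (nat_lit 34513) (.g (nat_lit 2105) (.e (nat_lit 1211) (nat_lit 89) (.e (nat_lit 73781) (nat_lit 32) (.e (nat_lit 3089) (nat_lit 191) (.e (nat_lit 483378) (nat_lit 23) (.e (nat_lit 335997) (nat_lit 1) (.e (nat_lit 57870) (nat_lit 264) .nil)))))) (.g (nat_lit 0) .nil .nil))) 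
(.lf (nat_lit 34545) (.g (nat_lit 2760) (.e (nat_lit 1211) (nat_lit 89) (.e (nat_lit 73781) (nat_lit 32) (.e (nat_lit 3090) (nat_lit 191) (.e (nat_lit 483396) (nat_lit 24) (.e (nat_lit 344100) (nat_lit 18) (.e (nat_lit 5907) (nat_lit 320) .nil)))))) (.g (nat_lit 6) .nil .nil))))) (.nd (nat_lit 4) (.nd (nat_lit 5) 
(.lf (nat_lit 34505) (.g (nat_lit 2121) (.e (nat_lit 1211) (nat_lit 89) (.e (nat_lit 73781) (nat_lit 32) (.e (nat_lit 3088) (nat_lit 191) (.e (nat_lit 483393) (nat_lit 23) (.e (nat_lit 335987) (nat_lit 1) (.e (nat_lit 57870) (nat_lit 264) .nil)))))) (.g (nat_lit 6) .nil .nil))) 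
(.lf (nat_lit 34537) (.g (nat_lit 1074) (.e (nat_lit 1211) (nat_lit 89) (.e (nat_lit 73781) (nat_lit 32) (.e (nat_lit 3090) (nat_lit 191) (.e (nat_lit 483386) (nat_lit 23) .nil)))) .nil))) (.nd (nat_lit 5) 
(.lf (nat_lit 34521) (.g (nat_lit 2861) (.e (nat_lit 1211) (nat_lit 89) (.e (nat_lit 73781) (nat_lit 32) (.e (nat_lit 3089) (nat_lit 191) (.e (nat_lit 483393) (nat_lit 23) (.e (nat_lit 335996) (nat_lit 1) (.e (nat_lit 57870) (nat_lit 264) .nil)))))) (.g (nat_lit 0) .nil .nil))) 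
(.lf (nat_lit 34553) (.g (nat_lit 392) (.e (nat_lit 1211) (nat_lit 89) (.e (nat_lit 73782) (nat_lit 32) (.e (nat_lit 2856) (nat_lit 184) .nil))) .nil))))) (.nd (nat_lit 3) (.nd (nat_lit 4) (.nd (nat_lit 5) 
(.lf (nat_lit 34501) (.g (nat_lit 2219) (.e (nat_lit 1211) (nat_lit 89) (.e (nat_lit 73781) (nat_lit 32) (.e (nat_lit 3088) (nat_lit 191) (.e (nat_lit 483378) (nat_lit 23) (.e (nat_lit 335997) (nat_lit 1) (.e (nat_lit 57872) (nat_lit 264) .nil)))))) (.g (nat_lit 6) .nil .nil))) 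
(.lf (nat_lit 34533) (.g (nat_lit 2408) (.e (nat_lit 1211) (nat_lit 89) (.e (nat_lit 73781) (nat_lit 32) (.e (nat_lit 3090) (nat_lit 191) (.e (nat_lit 483378) (nat_lit 23) (.e (nat_lit 335997) (nat_lit 1) (.e (nat_lit 57870) (nat_lit 264) .nil)))))) (.g (nat_lit 0) .nil .nil)))) (.nd (nat_lit 5) 
(.lf (nat_lit 34517) (.g (nat_lit 895) (.e (nat_lit 1211) (nat_lit 89) (.e (nat_lit 73781) (nat_lit 32) (.e (nat_lit 3089) (nat_lit 191) (.e (nat_lit 483393) (nat_lit 23) .nil)))) .nil)) 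
(.lf (nat_lit 34549) (.g (nat_lit 445) (.e (nat_lit 1211) (nat_lit 89) (.e (nat_lit 73782) (nat_lit 32) (.e (nat_lit 2855) (nat_lit 184) .nil))) .nil)))) (.nd (nat_lit 4) (.nd (nat_lit 5) 
(.lf (nat_lit 34509) (.g (nat_lit 2799) (.e (nat_lit 1211) (nat_lit 89) (.e (nat_lit 73781) (nat_lit 32) (.e (nat_lit 3088) (nat_lit 191) (.e (nat_lit 483394) (nat_lit 24) (.e (nat_lit 344097) (nat_lit 18) (.e (nat_lit 5906) (nat_lit 320) .nil)))))) (.g (nat_lit 6) .nil .nil))) 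
(.lf (nat_lit 34541) (.g (nat_lit 1458) (.e (nat_lit 1211) (nat_lit 89) (.e (nat_lit 73781) (nat_lit 32) (.e (nat_lit 3090) (nat_lit 191) (.e (nat_lit 483392) (nat_lit 23) .nil)))) .nil))) (.nd (nat_lit 5) 
(.lf (nat_lit 34525) (.g (nat_lit 313) (.e (nat_lit 1211) (nat_lit 89) (.e (nat_lit 73781) (nat_lit 32) (.e (nat_lit 3090) (nat_lit 191) .nil))) .nil)) 
(.lf (nat_lit 34557) (.g (nat_lit 2559) (.e (nat_lit 1211) (nat_lit 89) (.e (nat_lit 73782) (nat_lit 32) (.e (nat_lit 2856) (nat_lit 184) (.e (nat_lit 426542) (nat_lit 29) (.e (nat_lit 352307) (nat_lit 21) (.e (nat_lit 57870) (nat_lit 264) .nil)))))) (.g (nat_lit 5) .nil .nil))))))) (.nd (nat_lit 2) (.nd (nat_lit 3) (.nd (nat_lit 4) (.nd (nat_lit 5) 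
(.lf (nat_lit 34499) (.g (nat_lit 994) (.e (nat_lit 1211) (nat_lit 89) (.e (nat_lit 73781) (nat_lit 32) (.e (nat_lit 3088) (nat_lit 191) (.e (nat_lit 483378) (nat_lit 23) .nil)))) .nil)) 
(.lf (nat_lit 34531) (.g (nat_lit 2366) (.e (nat_lit 1211) (nat_lit 89) (.e (nat_lit 73781) (nat_lit 32) (.e (nat_lit 3090) (nat_lit 191) (.e (nat_lit 483372) (nat_lit 21) (.e (nat_lit 319516) (nat_lit 11) .nil))))) .nil))) (.nd (nat_lit 5) 
(.lf (nat_lit 34515) (.g (nat_lit 1813) (.e (nat_lit 1211) (nat_lit 89) (.e (nat_lit 73781) (nat_lit 32) (.e (nat_lit 3089) (nat_lit 191) (.e (nat_lit 483387) (nat_lit 23) (.e (nat_lit 335997) (nat_lit 1) (.e (nat_lit 57872) (nat_lit 264) .nil)))))) (.g (nat_lit 5) .nil .nil))) 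
(.lf (nat_lit 34547) (.g (nat_lit 463) (.e (nat_lit 1211) (nat_lit 89) (.e (nat_lit 73782) (nat_lit 32) (.e (nat_lit 2854) (nat_lit 184) .nil))) .nil)))) (.nd (nat_lit 4) (.nd (nat_lit 5) 
(.lf (nat_lit 34507) (.g (nat_lit 2453) (.e (nat_lit 1211) (nat_lit 89) (.e (nat_lit 73781) (nat_lit 32) (.e (nat_lit 3088) (nat_lit 191) (.e (nat_lit 483393) (nat_lit 23) (.e (nat_lit 335995) (nat_lit 1) (.e (nat_lit 57870) (nat_lit 264) .nil)))))) (.g (nat_lit 5) .nil .nil))) 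
(.lf (nat_lit 34539) (.g (nat_lit 2356) (.e (nat_lit 1211) (nat_lit 89) (.e (nat_lit 73781) (nat_lit 32) (.e (nat_lit 3090) (nat_lit 191) (.e (nat_lit 483387) (nat_lit 23) (.e (nat_lit 335997) (nat_lit 1) (.e (nat_lit 57870) (nat_lit 264) .nil)))))) (.g (nat_lit 6) .nil .nil)))) (.nd (nat_lit 5) 
(.lf (nat_lit 34523) (.g (nat_lit 2621) (.e (nat_lit 1211) (nat_lit 89) (.e (nat_lit 73781) (nat_lit 32) (.e (nat_lit 3089) (nat_lit 191) (.e (nat_lit 483394) (nat_lit 24) (.e (nat_lit 344097) (nat_lit 18) (.e (nat_lit 5906) (nat_lit 320) .nil)))))) (.g (nat_lit 0) .nil .nil))) 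
(.lf (nat_lit 34555) (.g (nat_lit 898) (.e (nat_lit 1211) (nat_lit 89) (.e (nat_lit 73782) (nat_lit 32) (.e (nat_lit 2856) (nat_lit 184) (.e (nat_lit 426530) (nat_lit 27) .nil)))) .nil))))) (.nd (nat_lit 3) (.nd (nat_lit 4) (.nd (nat_lit 5) 
(.lf (nat_lit 34503) (.g (nat_lit 1235) (.e (nat_lit 1211) (nat_lit 89) (.e (nat_lit 73781) (nat_lit 32) (.e (nat_lit 3088) (nat_lit 191) (.e (nat_lit 483389) (nat_lit 23) (.e (nat_lit 335997) (nat_lit 1) (.e (nat_lit 57872) (nat_lit 264) .nil)))))) (.g (nat_lit 4) .nil .nil))) 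
(.lf (nat_lit 34535) (.g (nat_lit 1145) (.e (nat_lit 1211) (nat_lit 89) (.e (nat_lit 73781) (nat_lit 32) (.e (nat_lit 3090) (nat_lit 191) (.e (nat_lit 483381) (nat_lit 23) .nil)))) .nil))) (.nd (nat_lit 5) 
(.lf (nat_lit 34519) (.g (nat_lit 2571) (.e (nat_lit 1211) (nat_lit 89) (.e (nat_lit 73781) (nat_lit 32) (.e (nat_lit 3089) (nat_lit 191) (.e (nat_lit 483393) (nat_lit 23) (.e (nat_lit 335988) (nat_lit 1) (.e (nat_lit 57870) (nat_lit 264) .nil)))))) (.g (nat_lit 0) .nil .nil))) 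
(.lf (nat_lit 34551) (.g (nat_lit 1679) (.e (nat_lit 1211) (nat_lit 89) (.e (nat_lit 73782) (nat_lit 32) (.e (nat_lit 2855) (nat_lit 184) (.e (nat_lit 426542) (nat_lit 29) (.e (nat_lit 352309) (nat_lit 21) (.e (nat_lit 57870) (nat_lit 264) .nil)))))) (.g (nat_lit 5) .nil .nil))))) (.nd (nat_lit 4) (.nd (nat_lit 5) 
(.lf (nat_lit 34511) (.g (nat_lit 2005) (.e (nat_lit 1211) (nat_lit 89) (.e (nat_lit 73781) (nat_lit 32) (.e (nat_lit 3088) (nat_lit 191) (.e (nat_lit 483413) (nat_lit 27) (.e (nat_lit 401420) (nat_lit 1) .nil))))) .nil)) 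
(.lf (nat_lit 34543) (.g (nat_lit 2071) (.e (nat_lit 1211) (nat_lit 89) (.e (nat_lit 73781) (nat_lit 32) (.e (nat_lit 3090) (nat_lit 191) (.e (nat_lit 483393) (nat_lit 23) (.e (nat_lit 335987) (nat_lit 1) (.e (nat_lit 57870) (nat_lit 264) .nil)))))) (.g (nat_lit 5) .nil .nil)))) (.nd (nat_lit 5) 
(.lf (nat_lit 34527) (.g (nat_lit 1648) (.e (nat_lit 1211) (nat_lit 89) (.e (nat_lit 73781) (nat_lit 32) (.e (nat_lit 3090) (nat_lit 191) (.e (nat_lit 483350) (nat_lit 17) (.e (nat_lit 7936) (nat_lit 343) .nil))))) .nil)) 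
(.lf (nat_lit 34559) (.g (nat_lit 2624) (.e (nat_lit 1211) (nat_lit 89) (.e (nat_lit 73782) (nat_lit 32) (.e (nat_lit 2856) (nat_lit 184) (.e (nat_lit 426555) (nat_lit 32) (.e (nat_lit 376857) (nat_lit 21) (.e (nat_lit 57870) (nat_lit 264) .nil)))))) (.g (nat_lit 5) .nil .nil)))))))))

noncomputable def tv482 : DT := (.nd (nat_lit 0) (.nd (nat_lit 1) (.nd (nat_lit 2) (.nd (nat_lit 3) (.nd (nat_lit 4) (.nd (nat_lit 5) 
(.lf (nat_lit 34560) (.g (nat_lit 2486) (.e (nat_lit 1211) (nat_lit 89) (.e (nat_lit 73782) (nat_lit 32) (.e (nat_lit 2856) (nat_lit 184) (.e (nat_lit 426555) (nat_lit 32) (.e (nat_lit 376859) (nat_lit 21) (.e (nat_lit 57870) (nat_lit 264) .nil)))))) (.g (nat_lit 5) .nil .nil))) 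
(.lf (nat_lit 34592) (.g (nat_lit 2037) (.e (nat_lit 1211) (nat_lit 89) (.e (nat_lit 73782) (nat_lit 32) (.e (nat_lit 3089) (nat_lit 191) (.e (nat_lit 483383) (nat_lit 23) (.e (nat_lit 336000) (nat_lit 1) (.e (nat_lit 57872) (nat_lit 264) .nil)))))) (.g (nat_lit 5) .nil .nil)))) (.nd (nat_lit 5) 
(.lf (nat_lit 34576) (.g (nat_lit 2970) (.e (nat_lit 1211) (nat_lit 89) (.e (nat_lit 73782) (nat_lit 32) (.e (nat_lit 3087) (nat_lit 191) (.e (nat_lit 483394) (nat_lit 24) (.e (nat_lit 344097) (nat_lit 18) (.e (nat_lit 5907) (nat_lit 320) .nil)))))) (.g (nat_lit 0) .nil .nil))) 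
(.lf (nat_lit 34608) (.g (nat_lit 1325) (.e (nat_lit 1211) (nat_lit 89) (.e (nat_lit 73782) (nat_lit 32) (.e (nat_lit 3090) (nat_lit 191) (.e (nat_lit 483389) (nat_lit 23) .nil)))) .nil)))) (.nd (nat_lit 4) (.nd (nat_lit 5) 
(.lf (nat_lit 34568) (.g (nat_lit 1285) (.e (nat_lit 1211) (nat_lit 89) (.e (nat_lit 73782) (nat_lit 32) (.e (nat_lit 2857) (nat_lit 184) (.e (nat_lit 426546) (nat_lit 30) (.e (nat_lit 368384) (nat_lit 0) .nil))))) .nil)) 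
(.lf (nat_lit 34600) (.g (nat_lit 434) (.e (nat_lit 1211) (nat_lit 89) (.e (nat_lit 73782) (nat_lit 32) (.e (nat_lit 3090) (nat_lit 191) .nil))) .nil))) (.nd (nat_lit 5) 
(.lf (nat_lit 34584) (.g (nat_lit 2653) (.e (nat_lit 1211) (nat_lit 89) (.e (nat_lit 73782) (nat_lit 32) (.e (nat_lit 3088) (nat_lit 191) (.e (nat_lit 483393) (nat_lit 23) (.e (nat_lit 335995) (nat_lit 1) (.e (nat_lit 57872) (nat_lit 264) .nil)))))) (.g (nat_lit 5) .nil .nil))) 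
(.lf (nat_lit 34616) (.g (nat_lit 1407) (.e (nat_lit 1211) (nat_lit 89) (.e (nat_lit 73782) (nat_lit 32) (.e (nat_lit 3090) (nat_lit 191) (.e (nat_lit 483397) (nat_lit 25) .nil)))) .nil))))) (.nd (nat_lit 3) (.nd (nat_lit 4) (.nd (nat_lit 5) 
(.lf (nat_lit 34564) (.g (nat_lit 2086) (.e (nat_lit 1211) (nat_lit 89) (.e (nat_lit 73782) (nat_lit 32) (.e (nat_lit 2857) (nat_lit 184) (.e (nat_lit 426542) (nat_lit 29) (.e (nat_lit 352309) (nat_lit 21) (.e (nat_lit 57870) (nat_lit 264) .nil)))))) (.g (nat_lit 5) .nil .nil))) 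
(.lf (nat_lit 34596) (.g (nat_lit 2068) (.e (nat_lit 1211) (nat_lit 89) (.e (nat_lit 73782) (nat_lit 32) (.e (nat_lit 3089) (nat_lit 191) (.e (nat_lit 483393) (nat_lit 23) (.e (nat_lit 335988) (nat_lit 1) (.e (nat_lit 57870) (nat_lit 264) .nil)))))) (.g (nat_lit 5) .nil .nil)))) (.nd (nat_lit 5) 
(.lf (nat_lit 34580) (.g (nat_lit 1146) (.e (nat_lit 1211) (nat_lit 89) (.e (nat_lit 73782) (nat_lit 32) (.e (nat_lit 3088) (nat_lit 191) (.e (nat_lit 483390) (nat_lit 23) .nil)))) .nil)) 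
(.lf (nat_lit 34612) (.g (nat_lit 1849) (.e (nat_lit 1211) (nat_lit 89) (.e (nat_lit 73782) (nat_lit 32) (.e (nat_lit 3090) (nat_lit 191) (.e (nat_lit 483394) (nat_lit 24) (.e (nat_lit 344100) (nat_lit 18) (.e (nat_lit 5907) (nat_lit 320) .nil)))))) (.g (nat_lit 4) .nil .nil))))) (.nd (nat_lit 4) (.nd (nat_lit 5) 
(.lf (nat_lit 34572) (.g (nat_lit 2144) (.e (nat_lit 1211) (nat_lit 89) (.e (nat_lit 73782) (nat_lit 32) (.e (nat_lit 2857) (nat_lit 184) (.e (nat_lit 426555) (nat_lit 32) (.e (nat_lit 376859) (nat_lit 21) (.e (nat_lit 57872) (nat_lit 264) .nil)))))) (.g (nat_lit 4) .nil .nil))) 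
(.lf (nat_lit 34604) (.g (nat_lit 1109) (.e (nat_lit 1211) (nat_lit 89) (.e (nat_lit 73782) (nat_lit 32) (.e (nat_lit 3090) (nat_lit 191) (.e (nat_lit 483380) (nat_lit 23) .nil)))) .nil))) (.nd (nat_lit 5) 
(.lf (nat_lit 34588) (.g (nat_lit 2202) (.e (nat_lit 1211) (nat_lit 89) (.e (nat_lit 73782) (nat_lit 32) (.e (nat_lit 3088) (nat_lit 191) (.e (nat_lit 483413) (nat_lit 27) (.e (nat_lit 401420) (nat_lit 1) .nil))))) .nil)) 
(.lf (nat_lit 34620) (.g (nat_lit 2334) (.e (nat_lit 1211) (nat_lit 89) (.e (nat_lit 73786) (nat_lit 45) (.e (nat_lit 1376) (nat_lit 104) (.e (nat_lit 303155) (nat_lit 29) (.e (nat_lit 352307) (nat_lit 21) (.e (nat_lit 57873) (nat_lit 264) .nil)))))) (.g (nat_lit 0) .nil .nil))))))) (.nd (nat_lit 2) (.nd (nat_lit 3) (.nd (nat_lit 4) (.nd (nat_lit 5) 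
(.lf (nat_lit 34562) (.g (nat_lit 2132) (.e (nat_lit 1211) (nat_lit 89) (.e (nat_lit 73782) (nat_lit 32) (.e (nat_lit 2857) (nat_lit 184) (.e (nat_lit 426542) (nat_lit 29) (.e (nat_lit 352307) (nat_lit 21) (.e (nat_lit 57870) (nat_lit 264) .nil)))))) (.g (nat_lit 5) .nil .nil))) 
(.lf (nat_lit 34594) (.g (nat_lit 1382) (.e (nat_lit 1211) (nat_lit 89) (.e (nat_lit 73782) (nat_lit 32) (.e (nat_lit 3089) (nat_lit 191) (.e (nat_lit 483393) (nat_lit 23) (.e (nat_lit 335986) (nat_lit 1) (.e (nat_lit 57872) (nat_lit 264) .nil)))))) (.g (nat_lit 4) .nil .nil)))) (.nd (nat_lit 5) 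
(.lf (nat_lit 34578) (.g (nat_lit 1945) (.e (nat_lit 1211) (nat_lit 89) (.e (nat_lit 73782) (nat_lit 32) (.e (nat_lit 3088) (nat_lit 191) (.e (nat_lit 483378) (nat_lit 23) (.e (nat_lit 335997) (nat_lit 1) (.e (nat_lit 57872) (nat_lit 264) .nil)))))) (.g (nat_lit 5) .nil .nil))) 
(.lf (nat_lit 34610) (.g (nat_lit 1898) (.e (nat_lit 1211) (nat_lit 89) (.e (nat_lit 73782) (nat_lit 32) (.e (nat_lit 3090) (nat_lit 191) (.e (nat_lit 483393) (nat_lit 23) (.e (nat_lit 335988) (nat_lit 1) (.e (nat_lit 57870) (nat_lit 264) .nil)))))) (.g (nat_lit 4) .nil .nil))))) (.nd (nat_lit 4) (.nd (nat_lit 5) 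
(.lf (nat_lit 34570) (.g (nat_lit 2142) (.e (nat_lit 1211) (nat_lit 89) (.e (nat_lit 73782) (nat_lit 32) (.e (nat_lit 2857) (nat_lit 184) (.e (nat_lit 426555) (nat_lit 32) (.e (nat_lit 376857) (nat_lit 21) (.e (nat_lit 57872) (nat_lit 264) .nil)))))) (.g (nat_lit 4) .nil .nil))) 
(.lf (nat_lit 34602) (.g (nat_lit 1724) (.e (nat_lit 1211) (nat_lit 89) (.e (nat_lit 73782) (nat_lit 32) (.e (nat_lit 3090) (nat_lit 191) (.e (nat_lit 483350) (nat_lit 17) (.e (nat_lit 7936) (nat_lit 343) .nil))))) .nil))) (.nd (nat_lit 5) 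
(.lf (nat_lit 34586) (.g (nat_lit 2757) (.e (nat_lit 1211) (nat_lit 89) (.e (nat_lit 73782) (nat_lit 32) (.e (nat_lit 3088) (nat_lit 191) (.e (nat_lit 483394) (nat_lit 24) (.e (nat_lit 344097) (nat_lit 18) (.e (nat_lit 5905) (nat_lit 320) .nil)))))) (.g (nat_lit 5) .nil .nil))) 
(.lf (nat_lit 34618) (.g (nat_lit 1430) (.e (nat_lit 1211) (nat_lit 89) (.e (nat_lit 81664) (nat_lit 33) (.e (nat_lit 8320) (nat_lit 64) (.e (nat_lit 516176) (nat_lit 14) (.e (nat_lit 466967) (nat_lit 20) (.e (nat_lit 2443) (nat_lit 157) (.e (nat_lit 6806) (nat_lit 365) .nil))))))) (.g (nat_lit 5) .nil .nil)))))) (.nd (nat_lit 3) (.nd (nat_lit 4) (.nd (nat_lit 5) 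
(.lf (nat_lit 34566) (.g (nat_lit 2662) (.e (nat_lit 1211) (nat_lit 89) (.e (nat_lit 73782) (nat_lit 32) (.e (nat_lit 2857) (nat_lit 184) (.e (nat_lit 426546) (nat_lit 30) (.e (nat_lit 360452) (nat_lit 0) (.e (nat_lit 5905) (nat_lit 320) .nil)))))) (.g (nat_lit 6) .nil .nil))) 
(.lf (nat_lit 34598) (.g (nat_lit 2365) (.e (nat_lit 1211) (nat_lit 89) (.e (nat_lit 73782) (nat_lit 32) (.e (nat_lit 3089) (nat_lit 191) (.e (nat_lit 483393) (nat_lit 23) (.e (nat_lit 335996) (nat_lit 1) (.e (nat_lit 57870) (nat_lit 264) .nil)))))) (.g (nat_lit 5) .nil .nil)))) (.nd (nat_lit 5) 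
(.lf (nat_lit 34582) (.g (nat_lit 3003) (.e (nat_lit 1211) (nat_lit 89) (.e (nat_lit 73782) (nat_lit 32) (.e (nat_lit 3088) (nat_lit 191) (.e (nat_lit 483393) (nat_lit 23) (.e (nat_lit 335986) (nat_lit 1) (.e (nat_lit 57873) (nat_lit 264) .nil)))))) (.g (nat_lit 0) .nil .nil))) 
(.lf (nat_lit 34614) (.g (nat_lit 2582) (.e (nat_lit 1211) (nat_lit 89) (.e (nat_lit 73782) (nat_lit 32) (.e (nat_lit 3090) (nat_lit 191) (.e (nat_lit 483396) (nat_lit 24) (.e (nat_lit 344097) (nat_lit 18) (.e (nat_lit 5907) (nat_lit 320) .nil)))))) (.g (nat_lit 5) .nil .nil))))) (.nd (nat_lit 4) (.nd (nat_lit 5) 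
(.lf (nat_lit 34574) (.g (nat_lit 1614) (.e (nat_lit 1211) (nat_lit 89) (.e (nat_lit 73782) (nat_lit 32) (.e (nat_lit 3087) (nat_lit 191) (.e (nat_lit 483378) (nat_lit 23) (.e (nat_lit 335997) (nat_lit 1) (.e (nat_lit 57872) (nat_lit 264) .nil)))))) (.g (nat_lit 5) .nil .nil))) 
(.lf (nat_lit 34606) (.g (nat_lit 1409) (.e (nat_lit 1211) (nat_lit 89) (.e (nat_lit 73782) (nat_lit 32) (.e (nat_lit 3090) (nat_lit 191) (.e (nat_lit 483386) (nat_lit 23) (.e (nat_lit 335985) (nat_lit 1) (.e (nat_lit 57872) (nat_lit 264) .nil)))))) (.g (nat_lit 4) .nil .nil)))) (.nd (nat_lit 5) 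
(.lf (nat_lit 34590) (.g (nat_lit 1713) (.e (nat_lit 1211) (nat_lit 89) (.e (nat_lit 73782) (nat_lit 32) (.e (nat_lit 3089) (nat_lit 191) (.e (nat_lit 483378) (nat_lit 23) (.e (nat_lit 335997) (nat_lit 1) (.e (nat_lit 57870) (nat_lit 264) .nil)))))) (.g (nat_lit 5) .nil .nil))) 
(.lf (nat_lit 34622) (.g (nat_lit 2188) (.e (nat_lit 1211) (nat_lit 89) (.e (nat_lit 73792) (nat_lit 45) (.e (nat_lit 1385) (nat_lit 105) (.e (nat_lit 311358) (nat_lit 29) (.e (nat_lit 352307) (nat_lit 21) (.e (nat_lit 57873) (nat_lit 264) .nil)))))) (.g (nat_lit 0) .nil .nil)))))))) (.nd (nat_lit 1) (.nd (nat_lit 2) (.nd (nat_lit 3) (.nd (nat_lit 4) (.nd (nat_lit 5) 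
(.lf (nat_lit 34561) (.g (nat_lit 1666) (.e (nat_lit 1211) (nat_lit 89) (.e (nat_lit 73782) (nat_lit 32) (.e (nat_lit 2856) (nat_lit 184) (.e (nat_lit 426556) (nat_lit 32) .nil)))) .nil)) 
(.lf (nat_lit 34593) (.g (nat_lit 1529) (.e (nat_lit 1211) (nat_lit 89) (.e (nat_lit 73782) (nat_lit 32) (.e (nat_lit 3089) (nat_lit 191) (.e (nat_lit 483387) (nat_lit 23) (.e (nat_lit 335997) (nat_lit 1) (.e (nat_lit 57872) (nat_lit 264) .nil)))))) (.g (nat_lit 4) .nil .nil)))) (.nd (nat_lit 5) 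
(.lf (nat_lit 34577) (.g (nat_lit 442) (.e (nat_lit 1211) (nat_lit 89) (.e (nat_lit 73782) (nat_lit 32) (.e (nat_lit 3088) (nat_lit 191) .nil))) .nil)) 
(.lf (nat_lit 34609) (.g (nat_lit 2932) (.e (nat_lit 1211) (nat_lit 89) (.e (nat_lit 73782) (nat_lit 32) (.e (nat_lit 3090) (nat_lit 191) (.e (nat_lit 483393) (nat_lit 23) (.e (nat_lit 335986) (nat_lit 1) (.e (nat_lit 57873) (nat_lit 264) .nil)))))) (.g (nat_lit 6) .nil .nil))))) (.nd (nat_lit 4) (.nd (nat_lit 5) 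
(.lf (nat_lit 34569) (.g (nat_lit 2170) (.e (nat_lit 1211) (nat_lit 89) (.e (nat_lit 73782) (nat_lit 32) (.e (nat_lit 2857) (nat_lit 184) (.e (nat_lit 426555) (nat_lit 32) (.e (nat_lit 376857) (nat_lit 21) (.e (nat_lit 57870) (nat_lit 264) .nil)))))) (.g (nat_lit 4) .nil .nil))) 
(.lf (nat_lit 34601) (.g (nat_lit 1626) (.e (nat_lit 1211) (nat_lit 89) (.e (nat_lit 73782) (nat_lit 32) (.e (nat_lit 3090) (nat_lit 191) (.e (nat_lit 483350) (nat_lit 17) (.e (nat_lit 6490) (nat_lit 343) .nil))))) .nil))) (.nd (nat_lit 5) 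
(.lf (nat_lit 34585) (.g (nat_lit 2550) (.e (nat_lit 1211) (nat_lit 89) (.e (nat_lit 73782) (nat_lit 32) (.e (nat_lit 3088) (nat_lit 191) (.e (nat_lit 483393) (nat_lit 23) (.e (nat_lit 335996) (nat_lit 1) (.e (nat_lit 57870) (nat_lit 264) .nil)))))) (.g (nat_lit 5) .nil .nil))) 
(.lf (nat_lit 34617) (.g (nat_lit 1737) (.e (nat_lit 1211) (nat_lit 89) (.e (nat_lit 73782) (nat_lit 32) (.e (nat_lit 3090) (nat_lit 191) (.e (nat_lit 483399) (nat_lit 25) (.e (nat_lit 368662) (nat_lit 18) (.e (nat_lit 5905) (nat_lit 320) .nil)))))) (.g (nat_lit 4) .nil .nil)))))) (.nd (nat_lit 3) (.nd (nat_lit 4) (.nd (nat_lit 5) 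
(.lf (nat_lit 34565) (.g (nat_lit 1603) (.e (nat_lit 1211) (nat_lit 89) (.e (nat_lit 73782) (nat_lit 32) (.e (nat_lit 2857) (nat_lit 184) (.e (nat_lit 426544) (nat_lit 30) (.e (nat_lit 368384) (nat_lit 0) (.e (nat_lit 5905) (nat_lit 320) .nil)))))) (.g (nat_lit 4) .nil .nil))) 
(.lf (nat_lit 34597) (.g (nat_lit 2370) (.e (nat_lit 1211) (nat_lit 89) (.e (nat_lit 73782) (nat_lit 32) (.e (nat_lit 3089) (nat_lit 191) (.e (nat_lit 483393) (nat_lit 23) (.e (nat_lit 335995) (nat_lit 1) (.e (nat_lit 57872) (nat_lit 264) .nil)))))) (.g (nat_lit 5) .nil .nil)))) (.nd (nat_lit 5) 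
(.lf (nat_lit 34581) (.g (nat_lit 1623) (.e (nat_lit 1211) (nat_lit 89) (.e (nat_lit 73782) (nat_lit 32) (.e (nat_lit 3088) (nat_lit 191) (.e (nat_lit 483393) (nat_lit 23) (.e (nat_lit 335986) (nat_lit 1) (.e (nat_lit 57872) (nat_lit 264) .nil)))))) (.g (nat_lit 4) .nil .nil))) 
(.lf (nat_lit 34613) (.g (nat_lit 1836) (.e (nat_lit 1211) (nat_lit 89) (.e (nat_lit 73782) (nat_lit 32) (.e (nat_lit 3090) (nat_lit 191) (.e (nat_lit 483396) (nat_lit 24) (.e (nat_lit 344097) (nat_lit 18) (.e (nat_lit 5906) (nat_lit 320) .nil)))))) (.g (nat_lit 4) .nil .nil))))) (.nd (nat_lit 4) (.nd (nat_lit 5) 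
(.lf (nat_lit 34573) (.g (nat_lit 436) (.e (nat_lit 1211) (nat_lit 89) (.e (nat_lit 73782) (nat_lit 32) (.e (nat_lit 3087) (nat_lit 191) .nil))) .nil)) 
(.lf (nat_lit 34605) (.g (nat_lit 1118) (.e (nat_lit 1211) (nat_lit 89) (.e (nat_lit 73782) (nat_lit 32) (.e (nat_lit 3090) (nat_lit 191) (.e (nat_lit 483386) (nat_lit 23) .nil)))) .nil))) (.nd (nat_lit 5) 
(.lf (nat_lit 34589) (.g (nat_lit 421) (.e (nat_lit 1211) (nat_lit 89) (.e (nat_lit 73782) (nat_lit 32) (.e (nat_lit 3089) (nat_lit 191) .nil))) .nil)) 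
(.lf (nat_lit 34621) (.g (nat_lit 2247) (.e (nat_lit 1211) (nat_lit 89) (.e (nat_lit 73787) (nat_lit 45) (.e (nat_lit 1376) (nat_lit 104) (.e (nat_lit 303155) (nat_lit 29) (.e (nat_lit 352307) (nat_lit 21) (.e (nat_lit 57873) (nat_lit 264) .nil)))))) (.g (nat_lit 0) .nil .nil))))))) (.nd (nat_lit 2) (.nd (nat_lit 3) (.nd (nat_lit 4) (.nd (nat_lit 5) 
(.lf (nat_lit 34563) (.g (nat_lit 1732) (.e (nat_lit 1211) (nat_lit 89) (.e (nat_lit 73782) (nat_lit 32) (.e (nat_lit 2857) (nat_lit 184) (.e (nat_lit 426542) (nat_lit 29) (.e (nat_lit 352307) (nat_lit 21) (.e (nat_lit 57871) (nat_lit 264) .nil)))))) (.g (nat_lit 4) .nil .nil))) 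
(.lf (nat_lit 34595) (.g (nat_lit 1536) (.e (nat_lit 1211) (nat_lit 89) (.e (nat_lit 73782) (nat_lit 32) (.e (nat_lit 3089) (nat_lit 191) (.e (nat_lit 483393) (nat_lit 23) (.e (nat_lit 335987) (nat_lit 1) (.e (nat_lit 57870) (nat_lit 264) .nil)))))) (.g (nat_lit 4) .nil .nil)))) (.nd (nat_lit 5) 
(.lf (nat_lit 34579) (.g (nat_lit 1170) (.e (nat_lit 1211) (nat_lit 89) (.e (nat_lit 73782) (nat_lit 32) (.e (nat_lit 3088) (nat_lit 191) (.e (nat_lit 483389) (nat_lit 23) .nil)))) .nil)) 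
(.lf (nat_lit 34611) (.g (nat_lit 3436) (.e (nat_lit 1211) (nat_lit 89) (.e (nat_lit 73782) (nat_lit 32) (.e (nat_lit 3090) (nat_lit 191) (.e (nat_lit 483394) (nat_lit 24) (.e (nat_lit 344097) (nat_lit 18) (.e (nat_lit 5907) (nat_lit 320) .nil)))))) (.g (nat_lit 0) .nil .nil))))) (.nd (nat_lit 4) (.nd (nat_lit 5) 
(.lf (nat_lit 34571) (.g (nat_lit 2065) (.e (nat_lit 1211) (nat_lit 89) (.e (nat_lit 73782) (nat_lit 32) (.e (nat_lit 2857) (nat_lit 184) (.e (nat_lit 426555) (nat_lit 32) (.e (nat_lit 376859) (nat_lit 21) (.e (nat_lit 57870) (nat_lit 264) .nil)))))) (.g (nat_lit 4) .nil .nil))) 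
(.lf (nat_lit 34603) (.g (nat_lit 2034) (.e (nat_lit 1211) (nat_lit 89) (.e (nat_lit 73782) (nat_lit 32) (.e (nat_lit 3090) (nat_lit 191) (.e (nat_lit 483378) (nat_lit 23) (.e (nat_lit 335997) (nat_lit 1) (.e (nat_lit 57872) (nat_lit 264) .nil)))))) (.g (nat_lit 5) .nil .nil)))) (.nd (nat_lit 5) 
(.lf (nat_lit 34587) (.g (nat_lit 2647) (.e (nat_lit 1211) (nat_lit 89) (.e (nat_lit 73782) (nat_lit 32) (.e (nat_lit 3088) (nat_lit 191) (.e (nat_lit 483394) (nat_lit 24) (.e (nat_lit 344097) (nat_lit 18) (.e (nat_lit 5906) (nat_lit 320) .nil)))))) (.g (nat_lit 5) .nil .nil))) 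
(.lf (nat_lit 34619) (.g (nat_lit 2189) (.e (nat_lit 1211) (nat_lit 89) (.e (nat_lit 81664) (nat_lit 37) (.e (nat_lit 180271) (nat_lit 26) (.e (nat_lit 704738) (nat_lit 11) (.e (nat_lit 16406) (nat_lit 1) (.e (nat_lit 164421) (nat_lit 272) .nil)))))) (.g (nat_lit 5) .nil .nil)))))) (.nd (nat_lit 3) (.nd (nat_lit 4) (.nd (nat_lit 5) 
(.lf (nat_lit 34567) (.g (nat_lit 1387) (.e (nat_lit 1211) (nat_lit 89) (.e (nat_lit 73782) (nat_lit 32) (.e (nat_lit 2857) (nat_lit 184) (.e (nat_lit 426546) (nat_lit 30) (.e (nat_lit 360452) (nat_lit 0) (.e (nat_lit 5906) (nat_lit 320) .nil)))))) (.g (nat_lit 4) .nil .nil))) 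
(.lf (nat_lit 34599) (.g (nat_lit 1760) (.e (nat_lit 1211) (nat_lit 89) (.e (nat_lit 73782) (nat_lit 32) (.e (nat_lit 3089) (nat_lit 191) (.e (nat_lit 483396) (nat_lit 24) (.e (nat_lit 344100) (nat_lit 18) (.e (nat_lit 5907) (nat_lit 320) .nil)))))) (.g (nat_lit 4) .nil .nil)))) (.nd (nat_lit 5) 
(.lf (nat_lit 34583) (.g (nat_lit 1703) (.e (nat_lit 1211) (nat_lit 89) (.e (nat_lit 73782) (nat_lit 32) (.e (nat_lit 3088) (nat_lit 191) (.e (nat_lit 483393) (nat_lit 23) (.e (nat_lit 335987) (nat_lit 1) (.e (nat_lit 57870) (nat_lit 264) .nil)))))) (.g (nat_lit 4) .nil .nil))) 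
(.lf (nat_lit 34615) (.g (nat_lit 1745) (.e (nat_lit 1211) (nat_lit 89) (.e (nat_lit 73782) (nat_lit 32) (.e (nat_lit 3090) (nat_lit 191) (.e (nat_lit 483396) (nat_lit 24) (.e (nat_lit 344100) (nat_lit 18) .nil))))) .nil)))) (.nd (nat_lit 4) (.nd (nat_lit 5) 
(.lf (nat_lit 34575) (.g (nat_lit 2199) (.e (nat_lit 1211) (nat_lit 89) (.e (nat_lit 73782) (nat_lit 32) (.e (nat_lit 3087) (nat_lit 191) (.e (nat_lit 483394) (nat_lit 24) (.e (nat_lit 344097) (nat_lit 18) (.e (nat_lit 5906) (nat_lit 320) .nil)))))) (.g (nat_lit 5) .nil .nil))) 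
(.lf (nat_lit 34607) (.g (nat_lit 1959) (.e (nat_lit 1211) (nat_lit 89) (.e (nat_lit 73782) (nat_lit 32) (.e (nat_lit 3090) (nat_lit 191) (.e (nat_lit 483387) (nat_lit 23) (.e (nat_lit 335997) (nat_lit 1) (.e (nat_lit 57872) (nat_lit 264) .nil)))))) (.g (nat_lit 5) .nil .nil)))) (.nd (nat_lit 5) 
(.lf (nat_lit 34591) (.g (nat_lit 1887) (.e (nat_lit 1211) (nat_lit 89) (.e (nat_lit 73782) (nat_lit 32) (.e (nat_lit 3089) (nat_lit 191) (.e (nat_lit 483378) (nat_lit 23) (.e (nat_lit 335997) (nat_lit 1) (.e (nat_lit 57872) (nat_lit 264) .nil)))))) (.g (nat_lit 5) .nil .nil))) 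
(.lf (nat_lit 34623) (.g (nat_lit 2226) (.e (nat_lit 1211) (nat_lit 89) (.e (nat_lit 73792) (nat_lit 45) (.e (nat_lit 1385) (nat_lit 105) (.e (nat_lit 311358) (nat_lit 29) (.e (nat_lit 352309) (nat_lit 21) (.e (nat_lit 57873) (nat_lit 264) .nil)))))) (.g (nat_lit 0) .nil .nil)))))))))

noncomputable def tv483 : DT := (.nd (nat_lit 0) (.nd (nat_lit 1) (.nd (nat_lit 2) (.nd (nat_lit 3) (.nd (nat_lit 4) (.nd (nat_lit 5) 
(.lf (nat_lit 34624) (.g (nat_lit 2480) (.e (nat_lit 1211) (nat_lit 89) (.e (nat_lit 73792) (nat_lit 45) (.e (nat_lit 1386) (nat_lit 105) (.e (nat_lit 311358) (nat_lit 29) (.e (nat_lit 352307) (nat_lit 21) (.e (nat_lit 57873) (nat_lit 264) .nil)))))) (.g (nat_lit 0) .nil .nil))) 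
(.lf (nat_lit 34656) (.g (nat_lit 2411) (.e (nat_lit 1212) (nat_lit 89) (.e (nat_lit 73747) (nat_lit 3) (.e (nat_lit 516165) (nat_lit 12) (.e (nat_lit 450586) (nat_lit 10) (.e (nat_lit 573473) (nat_lit 12) (.e (nat_lit 57348) (nat_lit 0) (.e (nat_lit 7122) (nat_lit 382) .nil))))))) (.g (nat_lit 4) .nil .nil)))) (.nd (nat_lit 5) 
(.lf (nat_lit 34640) (.g (nat_lit 1979) (.e (nat_lit 1212) (nat_lit 89) (.e (nat_lit 73747) (nat_lit 3) (.e (nat_lit 516146) (nat_lit 9) (.e (nat_lit 426294) (nat_lit 11) (.e (nat_lit 466688) (nat_lit 21) .nil))))) .nil)) 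
(.lf (nat_lit 34672) (.g (nat_lit 4014) (.e (nat_lit 1212) (nat_lit 89) (.e (nat_lit 73747) (nat_lit 3) (.e (nat_lit 516166) (nat_lit 12) (.e (nat_lit 450587) (nat_lit 10) (.e (nat_lit 573477) (nat_lit 12) (.e (nat_lit 57351) (nat_lit 0) (.e (nat_lit 7125) (nat_lit 382) .nil))))))) (.g (nat_lit 5) .nil .nil))))) (.nd (nat_lit 4) (.nd (nat_lit 5) 
(.lf (nat_lit 34632) (.g (nat_lit 1886) (.e (nat_lit 1212) (nat_lit 89) (.e (nat_lit 73733) (nat_lit 0) (.e (nat_lit 7270) (nat_lit 385) (.e (nat_lit 122913) (nat_lit 13) (.e (nat_lit 344130) (nat_lit 26) .nil))))) .nil)) 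
(.lf (nat_lit 34664) (.g (nat_lit 2427) (.e (nat_lit 1212) (nat_lit 89) (.e (nat_lit 73747) (nat_lit 3) (.e (nat_lit 516165) (nat_lit 12) (.e (nat_lit 450586) (nat_lit 10) (.e (nat_lit 573478) (nat_lit 12) .nil))))) .nil))) (.nd (nat_lit 5) 
(.lf (nat_lit 34648) (.g (nat_lit 5366) (.e (nat_lit 1212) (nat_lit 89) (.e (nat_lit 73747) (nat_lit 3) (.e (nat_lit 516151) (nat_lit 9) (.e (nat_lit 426211) (nat_lit 9) (.e (nat_lit 426125) (nat_lit 2) (.e (nat_lit 196686) (nat_lit 18) (.e (nat_lit 1116) (nat_lit 82) (.e (nat_lit 8415) (nat_lit 132) .nil)))))))) (.g (nat_lit 5) .nil .nil))) 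
(.lf (nat_lit 34680) (.g (nat_lit 3323) (.e (nat_lit 1212) (nat_lit 89) (.e (nat_lit 73747) (nat_lit 3) (.e (nat_lit 516166) (nat_lit 12) (.e (nat_lit 450587) (nat_lit 10) (.e (nat_lit 573478) (nat_lit 12) (.e (nat_lit 57351) (nat_lit 0) (.e (nat_lit 7119) (nat_lit 382) .nil))))))) (.g (nat_lit 4) .nil .nil)))))) (.nd (nat_lit 3) (.nd (nat_lit 4) (.nd (nat_lit 5) 
(.lf (nat_lit 34628) (.g (nat_lit 1729) (.e (nat_lit 1212) (nat_lit 89) (.e (nat_lit 73732) (nat_lit 0) (.e (nat_lit 7272) (nat_lit 385) (.e (nat_lit 122913) (nat_lit 13) (.e (nat_lit 344130) (nat_lit 26) (.e (nat_lit 557104) (nat_lit 14) (.e (nat_lit 180233) (nat_lit 0) (.e (nat_lit 5815) (nat_lit 320) .nil)))))))) (.g (nat_lit 4) .nil .nil))) 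
(.lf (nat_lit 34660) (.g (nat_lit 2927) (.e (nat_lit 1212) (nat_lit 89) (.e (nat_lit 73747) (nat_lit 3) (.e (nat_lit 516165) (nat_lit 12) (.e (nat_lit 450586) (nat_lit 10) (.e (nat_lit 573475) (nat_lit 12) (.e (nat_lit 57351) (nat_lit 0) (.e (nat_lit 7122) (nat_lit 382) .nil))))))) (.g (nat_lit 4) .nil .nil)))) (.nd (nat_lit 5) 
(.lf (nat_lit 34644) (.g (nat_lit 4462) (.e (nat_lit 1212) (nat_lit 89) (.e (nat_lit 73747) (nat_lit 3) (.e (nat_lit 516146) (nat_lit 9) (.e (nat_lit 426422) (nat_lit 16) (.e (nat_lit 57692) (nat_lit 156) (.e (nat_lit 163874) (nat_lit 3) (.e (nat_lit 204830) (nat_lit 18) (.e (nat_lit 57830) (nat_lit 250) .nil)))))))) (.g (nat_lit 6) .nil .nil))) 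
(.lf (nat_lit 34676) (.g (nat_lit 4348) (.e (nat_lit 1212) (nat_lit 89) (.e (nat_lit 73747) (nat_lit 3) (.e (nat_lit 516166) (nat_lit 12) (.e (nat_lit 450587) (nat_lit 10) (.e (nat_lit 573477) (nat_lit 12) (.e (nat_lit 57353) (nat_lit 0) (.e (nat_lit 7122) (nat_lit 382) .nil))))))) (.g (nat_lit 6) .nil .nil))))) (.nd (nat_lit 4) (.nd (nat_lit 5) 
(.lf (nat_lit 34636) (.g (nat_lit 1773) (.e (nat_lit 1212) (nat_lit 89) (.e (nat_lit 73733) (nat_lit 0) (.e (nat_lit 7273) (nat_lit 385) (.e (nat_lit 122913) (nat_lit 13) (.e (nat_lit 344130) (nat_lit 26) (.e (nat_lit 557104) (nat_lit 14) (.e (nat_lit 180233) (nat_lit 0) (.e (nat_lit 5815) (nat_lit 320) .nil)))))))) (.g (nat_lit 4) .nil .nil))) 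
(.lf (nat_lit 34668) (.g (nat_lit 4995) (.e (nat_lit 1212) (nat_lit 89) (.e (nat_lit 73747) (nat_lit 3) (.e (nat_lit 516166) (nat_lit 12) (.e (nat_lit 450587) (nat_lit 10) (.e (nat_lit 573473) (nat_lit 12) .nil))))) .nil))) (.nd (nat_lit 5) 
(.lf (nat_lit 34652) (.g (nat_lit 3883) (.e (nat_lit 1212) (nat_lit 89) (.e (nat_lit 73747) (nat_lit 3) (.e (nat_lit 516165) (nat_lit 12) (.e (nat_lit 450579) (nat_lit 5) (.e (nat_lit 532501) (nat_lit 1) (.e (nat_lit 65280) (nat_lit 221) .nil)))))) (.g (nat_lit 5) .nil .nil))) 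
(.lf (nat_lit 34684) (.g (nat_lit 3840) (.e (nat_lit 1212) (nat_lit 89) (.e (nat_lit 73747) (nat_lit 3) (.e (nat_lit 516166) (nat_lit 12) (.e (nat_lit 450588) (nat_lit 10) (.e (nat_lit 573473) (nat_lit 12) (.e (nat_lit 57347) (nat_lit 0) (.e (nat_lit 7122) (nat_lit 382) .nil))))))) (.g (nat_lit 4) .nil .nil))))))) (.nd (nat_lit 2) (.nd (nat_lit 3) (.nd (nat_lit 4) (.nd (nat_lit 5) 
(.lf (nat_lit 34626) (.g (nat_lit 4520) (.e (nat_lit 1212) (nat_lit 89) (.e (nat_lit 73729) (nat_lit 0) (.e (nat_lit 7454) (nat_lit 396) (.e (nat_lit 1220) (nat_lit 90) (.e (nat_lit 81956) (nat_lit 23) (.e (nat_lit 98333) (nat_lit 18) (.e (nat_lit 164155) (nat_lit 152) .nil))))))) (.g (nat_lit 5) .nil .nil))) 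
(.lf (nat_lit 34658) (.g (nat_lit 2778) (.e (nat_lit 1212) (nat_lit 89) (.e (nat_lit 73747) (nat_lit 3) (.e (nat_lit 516165) (nat_lit 12) (.e (nat_lit 450586) (nat_lit 10) (.e (nat_lit 573473) (nat_lit 12) (.e (nat_lit 57352) (nat_lit 0) (.e (nat_lit 7122) (nat_lit 382) .nil))))))) (.g (nat_lit 4) .nil .nil)))) (.nd (nat_lit 5) 
(.lf (nat_lit 34642) (.g (nat_lit 2595) (.e (nat_lit 1212) (nat_lit 89) (.e (nat_lit 73747) (nat_lit 3) (.e (nat_lit 516146) (nat_lit 9) (.e (nat_lit 426422) (nat_lit 16) (.e (nat_lit 57688) (nat_lit 156) (.e (nat_lit 163873) (nat_lit 3) (.e (nat_lit 204830) (nat_lit 18) (.e (nat_lit 57830) (nat_lit 250) .nil)))))))) (.g (nat_lit 4) .nil .nil))) 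
(.lf (nat_lit 34674) (.g (nat_lit 5052) (.e (nat_lit 1212) (nat_lit 89) (.e (nat_lit 73747) (nat_lit 3) (.e (nat_lit 516166) (nat_lit 12) (.e (nat_lit 450587) (nat_lit 10) (.e (nat_lit 573477) (nat_lit 12) (.e (nat_lit 57352) (nat_lit 0) (.e (nat_lit 7122) (nat_lit 382) .nil))))))) (.g (nat_lit 0) .nil .nil))))) (.nd (nat_lit 4) (.nd (nat_lit 5) 
(.lf (nat_lit 34634) (.g (nat_lit 2289) (.e (nat_lit 1212) (nat_lit 89) (.e (nat_lit 73733) (nat_lit 0) (.e (nat_lit 7270) (nat_lit 385) (.e (nat_lit 122913) (nat_lit 13) (.e (nat_lit 344130) (nat_lit 26) (.e (nat_lit 557104) (nat_lit 14) (.e (nat_lit 180229) (nat_lit 0) (.e (nat_lit 5820) (nat_lit 320) .nil)))))))) (.g (nat_lit 4) .nil .nil))) 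
(.lf (nat_lit 34666) (.g (nat_lit 1840) (.e (nat_lit 1212) (nat_lit 89) (.e (nat_lit 73747) (nat_lit 3) (.e (nat_lit 516166) (nat_lit 12) (.e (nat_lit 450579) (nat_lit 5) .nil)))) .nil))) (.nd (nat_lit 5) 
(.lf (nat_lit 34650) (.g (nat_lit 5386) (.e (nat_lit 1212) (nat_lit 89) (.e (nat_lit 73747) (nat_lit 3) (.e (nat_lit 516151) (nat_lit 9) (.e (nat_lit 426211) (nat_lit 9) (.e (nat_lit 426125) (nat_lit 2) (.e (nat_lit 196686) (nat_lit 18) (.e (nat_lit 1118) (nat_lit 82) (.e (nat_lit 8415) (nat_lit 132) .nil)))))))) (.g (nat_lit 5) .nil .nil))) 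
(.lf (nat_lit 34682) (.g (nat_lit 3859) (.e (nat_lit 1212) (nat_lit 89) (.e (nat_lit 73747) (nat_lit 3) (.e (nat_lit 516166) (nat_lit 12) (.e (nat_lit 450587) (nat_lit 10) (.e (nat_lit 573478) (nat_lit 12) (.e (nat_lit 57353) (nat_lit 0) (.e (nat_lit 7124) (nat_lit 382) .nil))))))) (.g (nat_lit 5) .nil .nil)))))) (.nd (nat_lit 3) (.nd (nat_lit 4) (.nd (nat_lit 5) 
(.lf (nat_lit 34630) (.g (nat_lit 2600) (.e (nat_lit 1212) (nat_lit 89) (.e (nat_lit 73733) (nat_lit 0) (.e (nat_lit 7147) (nat_lit 382) (.e (nat_lit 1207) (nat_lit 89) (.e (nat_lit 73754) (nat_lit 8) (.e (nat_lit 557101) (nat_lit 13) (.e (nat_lit 172070) (nat_lit 4) (.e (nat_lit 229699) (nat_lit 254) .nil)))))))) (.g (nat_lit 5) .nil .nil))) 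
(.lf (nat_lit 34662) (.g (nat_lit 2446) (.e (nat_lit 1212) (nat_lit 89) (.e (nat_lit 73747) (nat_lit 3) (.e (nat_lit 516165) (nat_lit 12) (.e (nat_lit 450586) (nat_lit 10) (.e (nat_lit 573477) (nat_lit 12) .nil))))) .nil))) (.nd (nat_lit 5) 
(.lf (nat_lit 34646) (.g (nat_lit 5770) (.e (nat_lit 1212) (nat_lit 89) (.e (nat_lit 73747) (nat_lit 3) (.e (nat_lit 516151) (nat_lit 9) (.e (nat_lit 426211) (nat_lit 9) (.e (nat_lit 426125) (nat_lit 2) (.e (nat_lit 196686) (nat_lit 18) (.e (nat_lit 1112) (nat_lit 82) (.e (nat_lit 8415) (nat_lit 132) .nil)))))))) (.g (nat_lit 5) .nil .nil))) 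
(.lf (nat_lit 34678) (.g (nat_lit 2970) (.e (nat_lit 1212) (nat_lit 89) (.e (nat_lit 73747) (nat_lit 3) (.e (nat_lit 516166) (nat_lit 12) (.e (nat_lit 450587) (nat_lit 10) (.e (nat_lit 573478) (nat_lit 12) .nil))))) .nil)))) (.nd (nat_lit 4) (.nd (nat_lit 5) 
(.lf (nat_lit 34638) (.g (nat_lit 4473) (.e (nat_lit 1212) (nat_lit 89) (.e (nat_lit 73745) (nat_lit 3) (.e (nat_lit 516166) (nat_lit 12) (.e (nat_lit 450588) (nat_lit 10) (.e (nat_lit 573473) (nat_lit 12) (.e (nat_lit 57352) (nat_lit 0) (.e (nat_lit 7122) (nat_lit 382) .nil))))))) (.g (nat_lit 5) .nil .nil))) 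
(.lf (nat_lit 34670) (.g (nat_lit 4216) (.e (nat_lit 1212) (nat_lit 89) (.e (nat_lit 73747) (nat_lit 3) (.e (nat_lit 516166) (nat_lit 12) (.e (nat_lit 450587) (nat_lit 10) (.e (nat_lit 573477) (nat_lit 12) (.e (nat_lit 57351) (nat_lit 0) (.e (nat_lit 7122) (nat_lit 382) .nil))))))) (.g (nat_lit 5) .nil .nil)))) (.nd (nat_lit 5) 
(.lf (nat_lit 34654) (.g (nat_lit 3851) (.e (nat_lit 1212) (nat_lit 89) (.e (nat_lit 73747) (nat_lit 3) (.e (nat_lit 516165) (nat_lit 12) (.e (nat_lit 450579) (nat_lit 5) (.e (nat_lit 532504) (nat_lit 1) (.e (nat_lit 65280) (nat_lit 221) .nil)))))) (.g (nat_lit 5) .nil .nil))) 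
(.lf (nat_lit 34686) (.g (nat_lit 4747) (.e (nat_lit 1212) (nat_lit 89) (.e (nat_lit 73747) (nat_lit 3) (.e (nat_lit 516166) (nat_lit 12) (.e (nat_lit 450588) (nat_lit 10) (.e (nat_lit 573473) (nat_lit 12) (.e (nat_lit 57348) (nat_lit 0) (.e (nat_lit 7119) (nat_lit 382) .nil))))))) (.g (nat_lit 6) .nil .nil)))))))) 
(.nd (nat_lit 1) (.nd (nat_lit 2) (.nd (nat_lit 3) (.nd (nat_lit 4) (.nd (nat_lit 5) 
(.lf (nat_lit 34625) (.g (nat_lit 2542) (.e (nat_lit 1211) (nat_lit 89) (.e (nat_lit 73792) (nat_lit 45) (.e (nat_lit 1386) (nat_lit 105) (.e (nat_lit 311358) (nat_lit 29) (.e (nat_lit 352309) (nat_lit 21) (.e (nat_lit 57873) (nat_lit 264) .nil)))))) (.g (nat_lit 0) .nil .nil))) 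
(.lf (nat_lit 34657) (.g (nat_lit 2839) (.e (nat_lit 1212) (nat_lit 89) (.e (nat_lit 73747) (nat_lit 3) (.e (nat_lit 516165) (nat_lit 12) (.e (nat_lit 450586) (nat_lit 10) (.e (nat_lit 573473) (nat_lit 12) (.e (nat_lit 57348) (nat_lit 0) (.e (nat_lit 7125) (nat_lit 382) .nil))))))) (.g (nat_lit 4) .nil .nil)))) (.nd (nat_lit 5) 
(.lf (nat_lit 34641) (.g (nat_lit 3780) (.e (nat_lit 1212) (nat_lit 89) (.e (nat_lit 73747) (nat_lit 3) (.e (nat_lit 516146) (nat_lit 9) (.e (nat_lit 426422) (nat_lit 16) (.e (nat_lit 57686) (nat_lit 156) (.e (nat_lit 163875) (nat_lit 3) (.e (nat_lit 204830) (nat_lit 18) (.e (nat_lit 57830) (nat_lit 250) .nil)))))))) (.g (nat_lit 6) .nil .nil))) 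
(.lf (nat_lit 34673) (.g (nat_lit 3250) (.e (nat_lit 1212) (nat_lit 89) (.e (nat_lit 73747) (nat_lit 3) (.e (nat_lit 516166) (nat_lit 12) (.e (nat_lit 450587) (nat_lit 10) (.e (nat_lit 573477) (nat_lit 12) (.e (nat_lit 57352) (nat_lit 0) (.e (nat_lit 7119) (nat_lit 382) .nil))))))) (.g (nat_lit 4) .nil .nil))))) (.nd (nat_lit 4) (.nd (nat_lit 5) 
(.lf (nat_lit 34633) (.g (nat_lit 2514) (.e (nat_lit 1212) (nat_lit 89) (.e (nat_lit 73733) (nat_lit 0) (.e (nat_lit 7270) (nat_lit 385) (.e (nat_lit 122913) (nat_lit 13) (.e (nat_lit 344130) (nat_lit 26) (.e (nat_lit 557104) (nat_lit 14) (.e (nat_lit 180229) (nat_lit 0) (.e (nat_lit 5815) (nat_lit 320) .nil)))))))) (.g (nat_lit 4) .nil .nil))) 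
(.lf (nat_lit 34665) (.g (nat_lit 1293) (.e (nat_lit 1212) (nat_lit 89) (.e (nat_lit 73747) (nat_lit 3) (.e (nat_lit 516165) (nat_lit 12) (.e (nat_lit 450587) (nat_lit 10) .nil)))) .nil))) (.nd (nat_lit 5) 
(.lf (nat_lit 34649) (.g (nat_lit 5450) (.e (nat_lit 1212) (nat_lit 89) (.e (nat_lit 73747) (nat_lit 3) (.e (nat_lit 516151) (nat_lit 9) (.e (nat_lit 426211) (nat_lit 9) (.e (nat_lit 426125) (nat_lit 2) (.e (nat_lit 196686) (nat_lit 18) (.e (nat_lit 1117) (nat_lit 82) (.e (nat_lit 8415) (nat_lit 132) .nil)))))))) (.g (nat_lit 5) .nil .nil))) 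
(.lf (nat_lit 34681) (.g (nat_lit 3853) (.e (nat_lit 1212) (nat_lit 89) (.e (nat_lit 73747) (nat_lit 3) (.e (nat_lit 516166) (nat_lit 12) (.e (nat_lit 450587) (nat_lit 10) (.e (nat_lit 573478) (nat_lit 12) (.e (nat_lit 57353) (nat_lit 0) (.e (nat_lit 7122) (nat_lit 382) .nil))))))) (.g (nat_lit 5) .nil .nil)))))) (.nd (nat_lit 3) (.nd (nat_lit 4) (.nd (nat_lit 5) 
(.lf (nat_lit 34629) (.g (nat_lit 923) (.e (nat_lit 1212) (nat_lit 89) (.e (nat_lit 73733) (nat_lit 0) (.e (nat_lit 7147) (nat_lit 382) (.e (nat_lit 1206) (nat_lit 89) .nil)))) .nil)) 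
(.lf (nat_lit 34661) (.g (nat_lit 2655) (.e (nat_lit 1212) (nat_lit 89) (.e (nat_lit 73747) (nat_lit 3) (.e (nat_lit 516165) (nat_lit 12) (.e (nat_lit 450586) (nat_lit 10) (.e (nat_lit 573475) (nat_lit 12) (.e (nat_lit 57351) (nat_lit 0) (.e (nat_lit 7125) (nat_lit 382) .nil))))))) (.g (nat_lit 4) .nil .nil)))) (.nd (nat_lit 5) 
(.lf (nat_lit 34645) (.g (nat_lit 638) (.e (nat_lit 1212) (nat_lit 89) (.e (nat_lit 73747) (nat_lit 3) (.e (nat_lit 516150) (nat_lit 9) .nil))) .nil)) 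
(.lf (nat_lit 34677) (.g (nat_lit 4920) (.e (nat_lit 1212) (nat_lit 89) (.e (nat_lit 73747) (nat_lit 3) (.e (nat_lit 516166) (nat_lit 12) (.e (nat_lit 450587) (nat_lit 10) (.e (nat_lit 573477) (nat_lit 12) (.e (nat_lit 57353) (nat_lit 0) (.e (nat_lit 7125) (nat_lit 382) .nil))))))) (.g (nat_lit 7) .nil .nil))))) (.nd (nat_lit 4) (.nd (nat_lit 5) 
(.lf (nat_lit 34637) (.g (nat_lit 4651) (.e (nat_lit 1212) (nat_lit 89) (.e (nat_lit 73745) (nat_lit 3) (.e (nat_lit 516166) (nat_lit 12) (.e (nat_lit 450588) (nat_lit 10) (.e (nat_lit 573473) (nat_lit 12) (.e (nat_lit 57348) (nat_lit 0) (.e (nat_lit 7125) (nat_lit 382) .nil))))))) (.g (nat_lit 5) .nil .nil))) 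
(.lf (nat_lit 34669) (.g (nat_lit 3032) (.e (nat_lit 1212) (nat_lit 89) (.e (nat_lit 73747) (nat_lit 3) (.e (nat_lit 516166) (nat_lit 12) (.e (nat_lit 450587) (nat_lit 10) (.e (nat_lit 573477) (nat_lit 12) .nil))))) .nil))) (.nd (nat_lit 5) 
(.lf (nat_lit 34653) (.g (nat_lit 3232) (.e (nat_lit 1212) (nat_lit 89) (.e (nat_lit 73747) (nat_lit 3) (.e (nat_lit 516165) (nat_lit 12) (.e (nat_lit 450579) (nat_lit 5) (.e (nat_lit 532503) (nat_lit 1) (.e (nat_lit 65280) (nat_lit 221) .nil)))))) (.g (nat_lit 5) .nil .nil))) 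
(.lf (nat_lit 34685) (.g (nat_lit 4398) (.e (nat_lit 1212) (nat_lit 89) (.e (nat_lit 73747) (nat_lit 3) (.e (nat_lit 516166) (nat_lit 12) (.e (nat_lit 450588) (nat_lit 10) (.e (nat_lit 573473) (nat_lit 12) (.e (nat_lit 57347) (nat_lit 0) (.e (nat_lit 7124) (nat_lit 382) .nil))))))) (.g (nat_lit 5) .nil .nil))))))) (.nd (nat_lit 2) (.nd (nat_lit 3) (.nd (nat_lit 4) (.nd (nat_lit 5) 
(.lf (nat_lit 34627) (.g (nat_lit 2220) (.e (nat_lit 1212) (nat_lit 89) (.e (nat_lit 73731) (nat_lit 0) (.e (nat_lit 7125) (nat_lit 382) (.e (nat_lit 1214) (nat_lit 89) (.e (nat_lit 73754) (nat_lit 8) (.e (nat_lit 557105) (nat_lit 14) (.e (nat_lit 180227) (nat_lit 0) (.e (nat_lit 5814) (nat_lit 320) .nil)))))))) (.g (nat_lit 4) .nil .nil))) 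
(.lf (nat_lit 34659) (.g (nat_lit 2695) (.e (nat_lit 1212) (nat_lit 89) (.e (nat_lit 73747) (nat_lit 3) (.e (nat_lit 516165) (nat_lit 12) (.e (nat_lit 450586) (nat_lit 10) (.e (nat_lit 573473) (nat_lit 12) (.e (nat_lit 57353) (nat_lit 0) (.e (nat_lit 7125) (nat_lit 382) .nil))))))) (.g (nat_lit 4) .nil .nil)))) (.nd (nat_lit 5) 
(.lf (nat_lit 34643) (.g (nat_lit 3728) (.e (nat_lit 1212) (nat_lit 89) (.e (nat_lit 73747) (nat_lit 3) (.e (nat_lit 516146) (nat_lit 9) (.e (nat_lit 426422) (nat_lit 16) (.e (nat_lit 57688) (nat_lit 156) (.e (nat_lit 163874) (nat_lit 3) (.e (nat_lit 204830) (nat_lit 18) (.e (nat_lit 57830) (nat_lit 250) .nil)))))))) (.g (nat_lit 5) .nil .nil))) 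
(.lf (nat_lit 34675) (.g (nat_lit 3434) (.e (nat_lit 1212) (nat_lit 89) (.e (nat_lit 73747) (nat_lit 3) (.e (nat_lit 516166) (nat_lit 12) (.e (nat_lit 450587) (nat_lit 10) (.e (nat_lit 573477) (nat_lit 12) (.e (nat_lit 57353) (nat_lit 0) (.e (nat_lit 7119) (nat_lit 382) .nil))))))) (.g (nat_lit 4) .nil .nil))))) (.nd (nat_lit 4) (.nd (nat_lit 5) 
(.lf (nat_lit 34635) (.g (nat_lit 2743) (.e (nat_lit 1212) (nat_lit 89) (.e (nat_lit 73733) (nat_lit 0) (.e (nat_lit 7272) (nat_lit 385) (.e (nat_lit 122913) (nat_lit 13) (.e (nat_lit 344130) (nat_lit 26) (.e (nat_lit 557104) (nat_lit 14) (.e (nat_lit 180233) (nat_lit 0) (.e (nat_lit 5815) (nat_lit 320) .nil)))))))) (.g (nat_lit 6) .nil .nil))) 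
(.lf (nat_lit 34667) (.g (nat_lit 3074) (.e (nat_lit 1212) (nat_lit 89) (.e (nat_lit 73747) (nat_lit 3) (.e (nat_lit 516166) (nat_lit 12) (.e (nat_lit 450585) (nat_lit 10) (.e (nat_lit 573474) (nat_lit 12) .nil))))) .nil))) (.nd (nat_lit 5) 
(.lf (nat_lit 34651) (.g (nat_lit 3128) (.e (nat_lit 1212) (nat_lit 89) (.e (nat_lit 73747) (nat_lit 3) (.e (nat_lit 516165) (nat_lit 12) (.e (nat_lit 450579) (nat_lit 5) (.e (nat_lit 532499) (nat_lit 1) (.e (nat_lit 65280) (nat_lit 221) .nil)))))) (.g (nat_lit 4) .nil .nil))) 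
(.lf (nat_lit 34683) (.g (nat_lit 3288) (.e (nat_lit 1212) (nat_lit 89) (.e (nat_lit 73747) (nat_lit 3) (.e (nat_lit 516166) (nat_lit 12) (.e (nat_lit 450588) (nat_lit 10) (.e (nat_lit 573473) (nat_lit 12) .nil))))) .nil))))) (.nd (nat_lit 3) (.nd (nat_lit 4) (.nd (nat_lit 5) 
(.lf (nat_lit 34631) (.g (nat_lit 1372) (.e (nat_lit 1212) (nat_lit 89) (.e (nat_lit 73733) (nat_lit 0) (.e (nat_lit 7270) (nat_lit 385) (.e (nat_lit 122913) (nat_lit 13) .nil)))) .nil)) 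
(.lf (nat_lit 34663) (.g (nat_lit 2473) (.e (nat_lit 1212) (nat_lit 89) (.e (nat_lit 73747) (nat_lit 3) (.e (nat_lit 516165) (nat_lit 12) (.e (nat_lit 450586) (nat_lit 10) (.e (nat_lit 573477) (nat_lit 12) (.e (nat_lit 57352) (nat_lit 0) (.e (nat_lit 7122) (nat_lit 382) .nil))))))) (.g (nat_lit 4) .nil .nil)))) (.nd (nat_lit 5) 
(.lf (nat_lit 34647) (.g (nat_lit 5442) (.e (nat_lit 1212) (nat_lit 89) (.e (nat_lit 73747) (nat_lit 3) (.e (nat_lit 516151) (nat_lit 9) (.e (nat_lit 426211) (nat_lit 9) (.e (nat_lit 426125) (nat_lit 2) (.e (nat_lit 196686) (nat_lit 18) (.e (nat_lit 1115) (nat_lit 82) (.e (nat_lit 8415) (nat_lit 132) .nil)))))))) (.g (nat_lit 5) .nil .nil))) 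
(.lf (nat_lit 34679) (.g (nat_lit 3096) (.e (nat_lit 1212) (nat_lit 89) (.e (nat_lit 73747) (nat_lit 3) (.e (nat_lit 516166) (nat_lit 12) (.e (nat_lit 450587) (nat_lit 10) (.e (nat_lit 573478) (nat_lit 12) (.e (nat_lit 57344) (nat_lit 0) (.e (nat_lit 7122) (nat_lit 382) .nil))))))) (.g (nat_lit 4) .nil .nil))))) (.nd (nat_lit 4) (.nd (nat_lit 5) 
(.lf (nat_lit 34639) (.g (nat_lit 2106) (.e (nat_lit 1212) (nat_lit 89) (.e (nat_lit 73746) (nat_lit 3) (.e (nat_lit 516146) (nat_lit 9) (.e (nat_lit 426422) (nat_lit 16) (.e (nat_lit 57692) (nat_lit 156) .nil))))) .nil)) 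
(.lf (nat_lit 34671) (.g (nat_lit 3403) (.e (nat_lit 1212) (nat_lit 89) (.e (nat_lit 73747) (nat_lit 3) (.e (nat_lit 516166) (nat_lit 12) (.e (nat_lit 450587) (nat_lit 10) (.e (nat_lit 573477) (nat_lit 12) (.e (nat_lit 57351) (nat_lit 0) (.e (nat_lit 7124) (nat_lit 382) .nil))))))) (.g (nat_lit 4) .nil .nil)))) (.nd (nat_lit 5) 
(.lf (nat_lit 34655) (.g (nat_lit 2594) (.e (nat_lit 1212) (nat_lit 89) (.e (nat_lit 73747) (nat_lit 3) (.e (nat_lit 516165) (nat_lit 12) (.e (nat_lit 450586) (nat_lit 10) (.e (nat_lit 573473) (nat_lit 12) (.e (nat_lit 57347) (nat_lit 0) (.e (nat_lit 7125) (nat_lit 382) .nil))))))) (.g (nat_lit 4) .nil .nil))) 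
(.lf (nat_lit 34687) (.g (nat_lit 5593) (.e (nat_lit 1212) (nat_lit 89) (.e (nat_lit 73747) (nat_lit 3) (.e (nat_lit 516166) (nat_lit 12) (.e (nat_lit 450588) (nat_lit 10) (.e (nat_lit 573473) (nat_lit 12) (.e (nat_lit 57348) (nat_lit 0) (.e (nat_lit 7125) (nat_lit 382) .nil))))))) (.g (nat_lit 0) .nil .nil)))))))))

noncomputable def tv484 : DT := (.nd (nat_lit 0) (.nd (nat_lit 1) (.nd (nat_lit 2) (.nd (nat_lit 3) (.nd (nat_lit 4) (.nd (nat_lit 5) 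
(.lf (nat_lit 34688) (.g (nat_lit 3828) (.e (nat_lit 1212) (nat_lit 89) (.e (nat_lit 73747) (nat_lit 3) (.e (nat_lit 516166) (nat_lit 12) (.e (nat_lit 450588) (nat_lit 10) (.e (nat_lit 573473) (nat_lit 12) (.e (nat_lit 57352) (nat_lit 0) (.e (nat_lit 7119) (nat_lit 382) .nil))))))) (.g (nat_lit 4) .nil .nil))) 
(.lf (nat_lit 34720) (.g (nat_lit 2486) (.e (nat_lit 1212) (nat_lit 89) (.e (nat_lit 73753) (nat_lit 8) (.e (nat_lit 557093) (nat_lit 12) (.e (nat_lit 164239) (nat_lit 187) (.e (nat_lit 1661) (nat_lit 115) (.e (nat_lit 393251) (nat_lit 18) (.e (nat_lit 164155) (nat_lit 152) .nil))))))) (.g (nat_lit 5) .nil .nil)))) (.nd (nat_lit 5) 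
(.lf (nat_lit 34704) (.g (nat_lit 1440) (.e (nat_lit 1212) (nat_lit 89) (.e (nat_lit 73747) (nat_lit 3) (.e (nat_lit 516176) (nat_lit 14) (.e (nat_lit 466967) (nat_lit 20) .nil)))) .nil)) 
(.lf (nat_lit 34736) (.g (nat_lit 2160) (.e (nat_lit 1212) (nat_lit 89) (.e (nat_lit 73754) (nat_lit 8) (.e (nat_lit 557093) (nat_lit 12) (.e (nat_lit 164238) (nat_lit 187) (.e (nat_lit 1661) (nat_lit 115) (.e (nat_lit 393251) (nat_lit 18) (.e (nat_lit 164153) (nat_lit 152) .nil))))))) (.g (nat_lit 4) .nil .nil))))) (.nd (nat_lit 4) (.nd (nat_lit 5) 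
(.lf (nat_lit 34696) (.g (nat_lit 6063) (.e (nat_lit 1212) (nat_lit 89) (.e (nat_lit 73747) (nat_lit 3) (.e (nat_lit 516166) (nat_lit 12) (.e (nat_lit 450588) (nat_lit 10) (.e (nat_lit 573475) (nat_lit 12) (.e (nat_lit 57347) (nat_lit 0) (.e (nat_lit 7125) (nat_lit 382) .nil))))))) (.g (nat_lit 0) .nil .nil))) 
(.lf (nat_lit 34728) (.g (nat_lit 631) (.e (nat_lit 1212) (nat_lit 89) (.e (nat_lit 73753) (nat_lit 8) (.e (nat_lit 557101) (nat_lit 13) .nil))) .nil))) (.nd (nat_lit 5) 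
(.lf (nat_lit 34712) (.g (nat_lit 3872) (.e (nat_lit 1212) (nat_lit 89) (.e (nat_lit 73753) (nat_lit 8) (.e (nat_lit 557091) (nat_lit 12) (.e (nat_lit 164238) (nat_lit 187) (.e (nat_lit 1661) (nat_lit 115) (.e (nat_lit 393251) (nat_lit 18) (.e (nat_lit 164153) (nat_lit 152) .nil))))))) (.g (nat_lit 6) .nil .nil))) 
(.lf (nat_lit 34744) (.g (nat_lit 2770) (.e (nat_lit 1212) (nat_lit 89) (.e (nat_lit 73775) (nat_lit 26) (.e (nat_lit 778362) (nat_lit 9) (.e (nat_lit 297) (nat_lit 22) (.e (nat_lit 344132) (nat_lit 26) .nil))))) .nil))))) (.nd (nat_lit 3) (.nd (nat_lit 4) (.nd (nat_lit 5) 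
(.lf (nat_lit 34692) (.g (nat_lit 3120) (.e (nat_lit 1212) (nat_lit 89) (.e (nat_lit 73747) (nat_lit 3) (.e (nat_lit 516166) (nat_lit 12) (.e (nat_lit 450588) (nat_lit 10) (.e (nat_lit 573475) (nat_lit 12) .nil))))) .nil)) 
(.lf (nat_lit 34724) (.g (nat_lit 2016) (.e (nat_lit 1212) (nat_lit 89) (.e (nat_lit 73753) (nat_lit 8) (.e (nat_lit 557096) (nat_lit 13) (.e (nat_lit 172133) (nat_lit 15) (.e (nat_lit 2175) (nat_lit 143) .nil))))) .nil))) (.nd (nat_lit 5) 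
(.lf (nat_lit 34708) (.g (nat_lit 2110) (.e (nat_lit 1212) (nat_lit 89) (.e (nat_lit 73753) (nat_lit 8) (.e (nat_lit 557091) (nat_lit 12) (.e (nat_lit 164238) (nat_lit 187) (.e (nat_lit 1660) (nat_lit 115) .nil))))) .nil)) 
(.lf (nat_lit 34740) (.g (nat_lit 2244) (.e (nat_lit 1212) (nat_lit 89) (.e (nat_lit 73755) (nat_lit 8) (.e (nat_lit 557091) (nat_lit 12) (.e (nat_lit 164238) (nat_lit 187) (.e (nat_lit 1661) (nat_lit 115) (.e (nat_lit 393251) (nat_lit 18) (.e (nat_lit 164155) (nat_lit 152) .nil))))))) (.g (nat_lit 4) .nil .nil))))) (.nd (nat_lit 4) (.nd (nat_lit 5) 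
(.lf (nat_lit 34700) (.g (nat_lit 3652) (.e (nat_lit 1212) (nat_lit 89) (.e (nat_lit 73747) (nat_lit 3) (.e (nat_lit 516166) (nat_lit 12) (.e (nat_lit 450588) (nat_lit 10) (.e (nat_lit 573475) (nat_lit 12) (.e (nat_lit 57351) (nat_lit 0) (.e (nat_lit 7119) (nat_lit 382) .nil))))))) (.g (nat_lit 4) .nil .nil))) 
(.lf (nat_lit 34732) (.g (nat_lit 1927) (.e (nat_lit 1212) (nat_lit 89) (.e (nat_lit 73753) (nat_lit 8) (.e (nat_lit 557103) (nat_lit 14) (.e (nat_lit 188160) (nat_lit 0) .nil)))) .nil))) (.nd (nat_lit 5) 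
(.lf (nat_lit 34716) (.g (nat_lit 2936) (.e (nat_lit 1212) (nat_lit 89) (.e (nat_lit 73753) (nat_lit 8) (.e (nat_lit 557093) (nat_lit 12) (.e (nat_lit 164238) (nat_lit 187) (.e (nat_lit 1661) (nat_lit 115) (.e (nat_lit 393251) (nat_lit 18) (.e (nat_lit 164155) (nat_lit 152) .nil))))))) (.g (nat_lit 5) .nil .nil))) 
(.lf (nat_lit 34748) (.g (nat_lit 3652) (.e (nat_lit 1212) (nat_lit 89) (.e (nat_lit 73775) (nat_lit 26) (.e (nat_lit 778362) (nat_lit 9) (.e (nat_lit 297) (nat_lit 22) (.e (nat_lit 344133) (nat_lit 26) (.e (nat_lit 557098) (nat_lit 13) (.e (nat_lit 172070) (nat_lit 4) (.e (nat_lit 229699) (nat_lit 254) .nil)))))))) (.g (nat_lit 5) .nil .nil))))))) 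
(.nd (nat_lit 2) (.nd (nat_lit 3) (.nd (nat_lit 4) (.nd (nat_lit 5) 
(.lf (nat_lit 34690) (.g (nat_lit 4065) (.e (nat_lit 1212) (nat_lit 89) (.e (nat_lit 73747) (nat_lit 3) (.e (nat_lit 516166) (nat_lit 12) (.e (nat_lit 450588) (nat_lit 10) (.e (nat_lit 573473) (nat_lit 12) (.e (nat_lit 57353) (nat_lit 0) (.e (nat_lit 7119) (nat_lit 382) .nil))))))) (.g (nat_lit 5) .nil .nil))) 
(.lf (nat_lit 34722) (.g (nat_lit 3539) (.e (nat_lit 1212) (nat_lit 89) (.e (nat_lit 73753) (nat_lit 8) (.e (nat_lit 557094) (nat_lit 12) (.e (nat_lit 164238) (nat_lit 187) (.e (nat_lit 1661) (nat_lit 115) (.e (nat_lit 393251) (nat_lit 18) (.e (nat_lit 164153) (nat_lit 152) .nil))))))) (.g (nat_lit 6) .nil .nil)))) (.nd (nat_lit 5) 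
(.lf (nat_lit 34706) (.g (nat_lit 3503) (.e (nat_lit 1212) (nat_lit 89) (.e (nat_lit 73753) (nat_lit 8) (.e (nat_lit 557072) (nat_lit 9) (.e (nat_lit 3098) (nat_lit 192) (.e (nat_lit 491571) (nat_lit 13) (.e (nat_lit 393251) (nat_lit 18) (.e (nat_lit 164148) (nat_lit 152) .nil))))))) (.g (nat_lit 5) .nil .nil))) 
(.lf (nat_lit 34738) (.g (nat_lit 2145) (.e (nat_lit 1212) (nat_lit 89) (.e (nat_lit 73755) (nat_lit 8) (.e (nat_lit 557091) (nat_lit 12) (.e (nat_lit 164238) (nat_lit 187) (.e (nat_lit 1661) (nat_lit 115) (.e (nat_lit 393251) (nat_lit 18) (.e (nat_lit 164148) (nat_lit 152) .nil))))))) (.g (nat_lit 4) .nil .nil))))) (.nd (nat_lit 4) (.nd (nat_lit 5) 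
(.lf (nat_lit 34698) (.g (nat_lit 4612) (.e (nat_lit 1212) (nat_lit 89) (.e (nat_lit 73747) (nat_lit 3) (.e (nat_lit 516166) (nat_lit 12) (.e (nat_lit 450588) (nat_lit 10) (.e (nat_lit 573475) (nat_lit 12) (.e (nat_lit 57348) (nat_lit 0) (.e (nat_lit 7122) (nat_lit 382) .nil))))))) (.g (nat_lit 5) .nil .nil))) 
(.lf (nat_lit 34730) (.g (nat_lit 2503) (.e (nat_lit 1212) (nat_lit 89) (.e (nat_lit 73753) (nat_lit 8) (.e (nat_lit 557103) (nat_lit 14) (.e (nat_lit 180228) (nat_lit 0) .nil)))) .nil))) (.nd (nat_lit 5) 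
(.lf (nat_lit 34714) (.g (nat_lit 2837) (.e (nat_lit 1212) (nat_lit 89) (.e (nat_lit 73753) (nat_lit 8) (.e (nat_lit 557093) (nat_lit 12) (.e (nat_lit 164238) (nat_lit 187) (.e (nat_lit 1661) (nat_lit 115) (.e (nat_lit 393251) (nat_lit 18) (.e (nat_lit 164148) (nat_lit 152) .nil))))))) (.g (nat_lit 5) .nil .nil))) 
(.lf (nat_lit 34746) (.g (nat_lit 2687) (.e (nat_lit 1212) (nat_lit 89) (.e (nat_lit 73775) (nat_lit 26) (.e (nat_lit 778362) (nat_lit 9) (.e (nat_lit 297) (nat_lit 22) (.e (nat_lit 344133) (nat_lit 26) .nil))))) .nil))))) (.nd (nat_lit 3) (.nd (nat_lit 4) (.nd (nat_lit 5) 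
(.lf (nat_lit 34694) (.g (nat_lit 5092) (.e (nat_lit 1212) (nat_lit 89) (.e (nat_lit 73747) (nat_lit 3) (.e (nat_lit 516166) (nat_lit 12) (.e (nat_lit 450588) (nat_lit 10) (.e (nat_lit 573475) (nat_lit 12) (.e (nat_lit 57347) (nat_lit 0) (.e (nat_lit 7122) (nat_lit 382) .nil))))))) (.g (nat_lit 6) .nil .nil))) 
(.lf (nat_lit 34726) (.g (nat_lit 2400) (.e (nat_lit 1212) (nat_lit 89) (.e (nat_lit 73753) (nat_lit 8) (.e (nat_lit 557098) (nat_lit 13) (.e (nat_lit 172133) (nat_lit 15) (.e (nat_lit 2059) (nat_lit 142) (.e (nat_lit 704596) (nat_lit 5) (.e (nat_lit 180228) (nat_lit 0) (.e (nat_lit 6270) (nat_lit 337) .nil)))))))) (.g (nat_lit 4) .nil .nil)))) (.nd (nat_lit 5) 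
(.lf (nat_lit 34710) (.g (nat_lit 3459) (.e (nat_lit 1212) (nat_lit 89) (.e (nat_lit 73753) (nat_lit 8) (.e (nat_lit 557091) (nat_lit 12) (.e (nat_lit 164238) (nat_lit 187) (.e (nat_lit 1661) (nat_lit 115) (.e (nat_lit 393251) (nat_lit 18) (.e (nat_lit 164148) (nat_lit 152) .nil))))))) (.g (nat_lit 5) .nil .nil))) 
(.lf (nat_lit 34742) (.g (nat_lit 3042) (.e (nat_lit 1212) (nat_lit 89) (.e (nat_lit 73775) (nat_lit 26) (.e (nat_lit 778362) (nat_lit 9) (.e (nat_lit 297) (nat_lit 22) (.e (nat_lit 344127) (nat_lit 26) .nil))))) .nil)))) (.nd (nat_lit 4) (.nd (nat_lit 5) 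
(.lf (nat_lit 34702) (.g (nat_lit 4424) (.e (nat_lit 1212) (nat_lit 89) (.e (nat_lit 73747) (nat_lit 3) (.e (nat_lit 516166) (nat_lit 12) (.e (nat_lit 450588) (nat_lit 10) (.e (nat_lit 573475) (nat_lit 12) (.e (nat_lit 57353) (nat_lit 0) (.e (nat_lit 7125) (nat_lit 382) .nil))))))) (.g (nat_lit 5) .nil .nil))) 
(.lf (nat_lit 34734) (.g (nat_lit 713) (.e (nat_lit 1212) (nat_lit 89) (.e (nat_lit 73753) (nat_lit 8) (.e (nat_lit 557105) (nat_lit 14) .nil))) .nil))) (.nd (nat_lit 5) 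
(.lf (nat_lit 34718) (.g (nat_lit 2643) (.e (nat_lit 1212) (nat_lit 89) (.e (nat_lit 73753) (nat_lit 8) (.e (nat_lit 557093) (nat_lit 12) (.e (nat_lit 164239) (nat_lit 187) (.e (nat_lit 1661) (nat_lit 115) (.e (nat_lit 393251) (nat_lit 18) (.e (nat_lit 164148) (nat_lit 152) .nil))))))) (.g (nat_lit 5) .nil .nil))) 
(.lf (nat_lit 34750) (.g (nat_lit 2831) (.e (nat_lit 1212) (nat_lit 89) (.e (nat_lit 73775) (nat_lit 26) (.e (nat_lit 778362) (nat_lit 9) (.e (nat_lit 297) (nat_lit 22) (.e (nat_lit 344133) (nat_lit 26) (.e (nat_lit 557103) (nat_lit 14) (.e (nat_lit 180229) (nat_lit 0) (.e (nat_lit 5820) (nat_lit 320) .nil)))))))) (.g (nat_lit 4) .nil .nil)))))))) 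
(.nd (nat_lit 1) (.nd (nat_lit 2) (.nd (nat_lit 3) (.nd (nat_lit 4) (.nd (nat_lit 5) 
(.lf (nat_lit 34689) (.g (nat_lit 3543) (.e (nat_lit 1212) (nat_lit 89) (.e (nat_lit 73747) (nat_lit 3) (.e (nat_lit 516166) (nat_lit 12) (.e (nat_lit 450588) (nat_lit 10) (.e (nat_lit 573473) (nat_lit 12) (.e (nat_lit 57352) (nat_lit 0) (.e (nat_lit 7125) (nat_lit 382) .nil))))))) (.g (nat_lit 4) .nil .nil))) 
(.lf (nat_lit 34721) (.g (nat_lit 3126) (.e (nat_lit 1212) (nat_lit 89) (.e (nat_lit 73753) (nat_lit 8) (.e (nat_lit 557094) (nat_lit 12) (.e (nat_lit 164238) (nat_lit 187) (.e (nat_lit 1661) (nat_lit 115) (.e (nat_lit 393251) (nat_lit 18) (.e (nat_lit 164148) (nat_lit 152) .nil))))))) (.g (nat_lit 5) .nil .nil)))) (.nd (nat_lit 5) 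
(.lf (nat_lit 34705) (.g (nat_lit 1187) (.e (nat_lit 1212) (nat_lit 89) (.e (nat_lit 73747) (nat_lit 3) (.e (nat_lit 516195) (nat_lit 26) (.e (nat_lit 335995) (nat_lit 1) .nil)))) .nil)) 
(.lf (nat_lit 34737) (.g (nat_lit 2282) (.e (nat_lit 1212) (nat_lit 89) (.e (nat_lit 73754) (nat_lit 8) (.e (nat_lit 557094) (nat_lit 12) (.e (nat_lit 164238) (nat_lit 187) (.e (nat_lit 1661) (nat_lit 115) (.e (nat_lit 393251) (nat_lit 18) (.e (nat_lit 164153) (nat_lit 152) .nil))))))) (.g (nat_lit 4) .nil .nil))))) (.nd (nat_lit 4) (.nd (nat_lit 5) 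
(.lf (nat_lit 34697) (.g (nat_lit 4188) (.e (nat_lit 1212) (nat_lit 89) (.e (nat_lit 73747) (nat_lit 3) (.e (nat_lit 516166) (nat_lit 12) (.e (nat_lit 450588) (nat_lit 10) (.e (nat_lit 573475) (nat_lit 12) (.e (nat_lit 57348) (nat_lit 0) (.e (nat_lit 7119) (nat_lit 382) .nil))))))) (.g (nat_lit 5) .nil .nil))) 
(.lf (nat_lit 34729) (.g (nat_lit 731) (.e (nat_lit 1212) (nat_lit 89) (.e (nat_lit 73753) (nat_lit 8) (.e (nat_lit 557103) (nat_lit 14) .nil))) .nil))) (.nd (nat_lit 5) 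
(.lf (nat_lit 34713) (.g (nat_lit 3558) (.e (nat_lit 1212) (nat_lit 89) (.e (nat_lit 73753) (nat_lit 8) (.e (nat_lit 557091) (nat_lit 12) (.e (nat_lit 164238) (nat_lit 187) (.e (nat_lit 1661) (nat_lit 115) (.e (nat_lit 393251) (nat_lit 18) (.e (nat_lit 164155) (nat_lit 152) .nil))))))) (.g (nat_lit 5) .nil .nil))) 
(.lf (nat_lit 34745) (.g (nat_lit 4437) (.e (nat_lit 1212) (nat_lit 89) (.e (nat_lit 73775) (nat_lit 26) (.e (nat_lit 778362) (nat_lit 9) (.e (nat_lit 297) (nat_lit 22) (.e (nat_lit 344132) (nat_lit 26) (.e (nat_lit 557101) (nat_lit 13) (.e (nat_lit 172070) (nat_lit 4) (.e (nat_lit 229699) (nat_lit 254) .nil)))))))) (.g (nat_lit 6) .nil .nil)))))) 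
(.nd (nat_lit 3) (.nd (nat_lit 4) (.nd (nat_lit 5) 
(.lf (nat_lit 34693) (.g (nat_lit 3666) (.e (nat_lit 1212) (nat_lit 89) (.e (nat_lit 73747) (nat_lit 3) (.e (nat_lit 516166) (nat_lit 12) (.e (nat_lit 450588) (nat_lit 10) (.e (nat_lit 573475) (nat_lit 12) (.e (nat_lit 57345) (nat_lit 0) (.e (nat_lit 7122) (nat_lit 382) .nil))))))) (.g (nat_lit 4) .nil .nil))) 
(.lf (nat_lit 34725) (.g (nat_lit 2063) (.e (nat_lit 1212) (nat_lit 89) (.e (nat_lit 73753) (nat_lit 8) (.e (nat_lit 557098) (nat_lit 13) (.e (nat_lit 172061) (nat_lit 1) .nil)))) .nil))) (.nd (nat_lit 5) 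
(.lf (nat_lit 34709) (.g (nat_lit 2330) (.e (nat_lit 1212) (nat_lit 89) (.e (nat_lit 73753) (nat_lit 8) (.e (nat_lit 557091) (nat_lit 12) (.e (nat_lit 164238) (nat_lit 187) (.e (nat_lit 1660) (nat_lit 115) (.e (nat_lit 393253) (nat_lit 18) (.e (nat_lit 164155) (nat_lit 152) .nil))))))) (.g (nat_lit 4) .nil .nil))) 
(.lf (nat_lit 34741) (.g (nat_lit 709) (.e (nat_lit 1212) (nat_lit 89) (.e (nat_lit 73755) (nat_lit 8) (.e (nat_lit 557105) (nat_lit 14) .nil))) .nil)))) (.nd (nat_lit 4) (.nd (nat_lit 5) 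
(.lf (nat_lit 34701) (.g (nat_lit 4419) (.e (nat_lit 1212) (nat_lit 89) (.e (nat_lit 73747) (nat_lit 3) (.e (nat_lit 516166) (nat_lit 12) (.e (nat_lit 450588) (nat_lit 10) (.e (nat_lit 573475) (nat_lit 12) (.e (nat_lit 57351) (nat_lit 0) (.e (nat_lit 7124) (nat_lit 382) .nil))))))) (.g (nat_lit 6) .nil .nil))) 
(.lf (nat_lit 34733) (.g (nat_lit 2542) (.e (nat_lit 1212) (nat_lit 89) (.e (nat_lit 73753) (nat_lit 8) (.e (nat_lit 557103) (nat_lit 14) (.e (nat_lit 180261) (nat_lit 20) (.e (nat_lit 655364) (nat_lit 0) .nil))))) .nil))) (.nd (nat_lit 5) 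
(.lf (nat_lit 34717) (.g (nat_lit 1376) (.e (nat_lit 1212) (nat_lit 89) (.e (nat_lit 73753) (nat_lit 8) (.e (nat_lit 557093) (nat_lit 12) (.e (nat_lit 164239) (nat_lit 187) .nil)))) .nil)) 
(.lf (nat_lit 34749) (.g (nat_lit 3056) (.e (nat_lit 1212) (nat_lit 89) (.e (nat_lit 73775) (nat_lit 26) (.e (nat_lit 778362) (nat_lit 9) (.e (nat_lit 297) (nat_lit 22) (.e (nat_lit 344133) (nat_lit 26) (.e (nat_lit 557103) (nat_lit 14) (.e (nat_lit 180229) (nat_lit 0) (.e (nat_lit 5815) (nat_lit 320) .nil)))))))) (.g (nat_lit 4) .nil .nil))))))) 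
(.nd (nat_lit 2) (.nd (nat_lit 3) (.nd (nat_lit 4) (.nd (nat_lit 5) 
(.lf (nat_lit 34691) (.g (nat_lit 5429) (.e (nat_lit 1212) (nat_lit 89) (.e (nat_lit 73747) (nat_lit 3) (.e (nat_lit 516166) (nat_lit 12) (.e (nat_lit 450588) (nat_lit 10) (.e (nat_lit 573473) (nat_lit 12) (.e (nat_lit 57353) (nat_lit 0) (.e (nat_lit 7125) (nat_lit 382) .nil))))))) (.g (nat_lit 7) .nil .nil))) 
(.lf (nat_lit 34723) (.g (nat_lit 3225) (.e (nat_lit 1212) (nat_lit 89) (.e (nat_lit 73753) (nat_lit 8) (.e (nat_lit 557094) (nat_lit 12) (.e (nat_lit 164238) (nat_lit 187) (.e (nat_lit 1661) (nat_lit 115) (.e (nat_lit 393251) (nat_lit 18) (.e (nat_lit 164155) (nat_lit 152) .nil))))))) (.g (nat_lit 5) .nil .nil)))) (.nd (nat_lit 5) 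
(.lf (nat_lit 34707) (.g (nat_lit 1540) (.e (nat_lit 1212) (nat_lit 89) (.e (nat_lit 73753) (nat_lit 8) (.e (nat_lit 557089) (nat_lit 12) (.e (nat_lit 171776) (nat_lit 194) .nil)))) .nil)) 
(.lf (nat_lit 34739) (.g (nat_lit 2565) (.e (nat_lit 1212) (nat_lit 89) (.e (nat_lit 73755) (nat_lit 8) (.e (nat_lit 557091) (nat_lit 12) (.e (nat_lit 164238) (nat_lit 187) (.e (nat_lit 1661) (nat_lit 115) (.e (nat_lit 393251) (nat_lit 18) (.e (nat_lit 164153) (nat_lit 152) .nil))))))) (.g (nat_lit 4) .nil .nil))))) (.nd (nat_lit 4) (.nd (nat_lit 5) 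
(.lf (nat_lit 34699) (.g (nat_lit 4538) (.e (nat_lit 1212) (nat_lit 89) (.e (nat_lit 73747) (nat_lit 3) (.e (nat_lit 516166) (nat_lit 12) (.e (nat_lit 450588) (nat_lit 10) (.e (nat_lit 573475) (nat_lit 12) (.e (nat_lit 57348) (nat_lit 0) (.e (nat_lit 7124) (nat_lit 382) .nil))))))) (.g (nat_lit 5) .nil .nil))) 
(.lf (nat_lit 34731) (.g (nat_lit 2072) (.e (nat_lit 1212) (nat_lit 89) (.e (nat_lit 73753) (nat_lit 8) (.e (nat_lit 557103) (nat_lit 14) (.e (nat_lit 180229) (nat_lit 0) .nil)))) .nil))) (.nd (nat_lit 5) 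
(.lf (nat_lit 34715) (.g (nat_lit 3250) (.e (nat_lit 1212) (nat_lit 89) (.e (nat_lit 73753) (nat_lit 8) (.e (nat_lit 557093) (nat_lit 12) (.e (nat_lit 164238) (nat_lit 187) (.e (nat_lit 1661) (nat_lit 115) (.e (nat_lit 393251) (nat_lit 18) (.e (nat_lit 164153) (nat_lit 152) .nil))))))) (.g (nat_lit 5) .nil .nil))) 
(.lf (nat_lit 34747) (.g (nat_lit 2988) (.e (nat_lit 1212) (nat_lit 89) (.e (nat_lit 73775) (nat_lit 26) (.e (nat_lit 778362) (nat_lit 9) (.e (nat_lit 297) (nat_lit 22) (.e (nat_lit 344133) (nat_lit 26) (.e (nat_lit 557098) (nat_lit 13) (.e (nat_lit 172068) (nat_lit 4) (.e (nat_lit 229699) (nat_lit 254) .nil)))))))) (.g (nat_lit 4) .nil .nil)))))) 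
(.nd (nat_lit 3) (.nd (nat_lit 4) (.nd (nat_lit 5) 
(.lf (nat_lit 34695) (.g (nat_lit 5237) (.e (nat_lit 1212) (nat_lit 89) (.e (nat_lit 73747) (nat_lit 3) (.e (nat_lit 516166) (nat_lit 12) (.e (nat_lit 450588) (nat_lit 10) (.e (nat_lit 573475) (nat_lit 12) (.e (nat_lit 57347) (nat_lit 0) (.e (nat_lit 7124) (nat_lit 382) .nil))))))) (.g (nat_lit 6) .nil .nil))) 
(.lf (nat_lit 34727) (.g (nat_lit 2294) (.e (nat_lit 1212) (nat_lit 89) (.e (nat_lit 73753) (nat_lit 8) (.e (nat_lit 557098) (nat_lit 13) (.e (nat_lit 172133) (nat_lit 15) (.e (nat_lit 2175) (nat_lit 143) .nil))))) .nil))) (.nd (nat_lit 5) 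
(.lf (nat_lit 34711) (.g (nat_lit 2518) (.e (nat_lit 1212) (nat_lit 89) (.e (nat_lit 73753) (nat_lit 8) (.e (nat_lit 557091) (nat_lit 12) (.e (nat_lit 164238) (nat_lit 187) (.e (nat_lit 1661) (nat_lit 115) (.e (nat_lit 393251) (nat_lit 18) (.e (nat_lit 164152) (nat_lit 152) .nil))))))) (.g (nat_lit 4) .nil .nil))) 
(.lf (nat_lit 34743) (.g (nat_lit 2964) (.e (nat_lit 1212) (nat_lit 89) (.e (nat_lit 73775) (nat_lit 26) (.e (nat_lit 778362) (nat_lit 9) (.e (nat_lit 297) (nat_lit 22) (.e (nat_lit 344131) (nat_lit 26) .nil))))) .nil)))) (.nd (nat_lit 4) (.nd (nat_lit 5) 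
(.lf (nat_lit 34703) (.g (nat_lit 642) (.e (nat_lit 1212) (nat_lit 89) (.e (nat_lit 73747) (nat_lit 3) (.e (nat_lit 516167) (nat_lit 12) .nil))) .nil)) 
(.lf (nat_lit 34735) (.g (nat_lit 2319) (.e (nat_lit 1212) (nat_lit 89) (.e (nat_lit 73753) (nat_lit 8) (.e (nat_lit 557105) (nat_lit 14) (.e (nat_lit 180224) (nat_lit 0) .nil)))) .nil))) (.nd (nat_lit 5) 
(.lf (nat_lit 34719) (.g (nat_lit 3061) (.e (nat_lit 1212) (nat_lit 89) (.e (nat_lit 73753) (nat_lit 8) (.e (nat_lit 557093) (nat_lit 12) (.e (nat_lit 164239) (nat_lit 187) (.e (nat_lit 1661) (nat_lit 115) (.e (nat_lit 393251) (nat_lit 18) (.e (nat_lit 164153) (nat_lit 152) .nil))))))) (.g (nat_lit 5) .nil .nil))) 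
(.lf (nat_lit 34751) (.g (nat_lit 2496) (.e (nat_lit 1212) (nat_lit 89) (.e (nat_lit 73776) (nat_lit 26) (.e (nat_lit 778362) (nat_lit 9) (.e (nat_lit 297) (nat_lit 22) (.e (nat_lit 344127) (nat_lit 26) .nil))))) .nil))))))))

noncomputable def tv485 : DT := (.nd (nat_lit 0) (.nd (nat_lit 1) (.nd (nat_lit 2) (.nd (nat_lit 3) (.nd (nat_lit 4) (.nd (nat_lit 5) 
(.lf (nat_lit 34752) (.g (nat_lit 2681) (.e (nat_lit 1212) (nat_lit 89) (.e (nat_lit 73776) (nat_lit 26) (.e (nat_lit 778362) (nat_lit 9) (.e (nat_lit 297) (nat_lit 22) (.e (nat_lit 344127) (nat_lit 26) (.e (nat_lit 557104) (nat_lit 14) (.e (nat_lit 180229) (nat_lit 0) (.e (nat_lit 5815) (nat_lit 320) .nil)))))))) (.g (nat_lit 4) .nil .nil))) 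
(.lf (nat_lit 34784) (.g (nat_lit 2580) (.e (nat_lit 1212) (nat_lit 89) (.e (nat_lit 73781) (nat_lit 32) (.e (nat_lit 2856) (nat_lit 184) (.e (nat_lit 426542) (nat_lit 29) (.e (nat_lit 352316) (nat_lit 24) (.e (nat_lit 123183) (nat_lit 264) .nil)))))) (.g (nat_lit 4) .nil .nil)))) (.nd (nat_lit 5) 
(.lf (nat_lit 34768) (.g (nat_lit 2651) (.e (nat_lit 1212) (nat_lit 89) (.e (nat_lit 73776) (nat_lit 26) (.e (nat_lit 778362) (nat_lit 9) (.e (nat_lit 297) (nat_lit 22) (.e (nat_lit 344133) (nat_lit 26) (.e (nat_lit 557105) (nat_lit 14) (.e (nat_lit 180230) (nat_lit 0) (.e (nat_lit 5815) (nat_lit 320) .nil)))))))) (.g (nat_lit 4) .nil .nil))) 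
(.lf (nat_lit 34800) (.g (nat_lit 602) (.e (nat_lit 1212) (nat_lit 89) (.e (nat_lit 73781) (nat_lit 32) (.e (nat_lit 3089) (nat_lit 191) .nil))) .nil)))) (.nd (nat_lit 4) (.nd (nat_lit 5) 
(.lf (nat_lit 34760) (.g (nat_lit 2866) (.e (nat_lit 1212) (nat_lit 89) (.e (nat_lit 73776) (nat_lit 26) (.e (nat_lit 778362) (nat_lit 9) (.e (nat_lit 297) (nat_lit 22) (.e (nat_lit 344132) (nat_lit 26) (.e (nat_lit 557105) (nat_lit 14) (.e (nat_lit 180227) (nat_lit 0) (.e (nat_lit 5814) (nat_lit 320) .nil)))))))) (.g (nat_lit 4) .nil .nil))) 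
(.lf (nat_lit 34792) (.g (nat_lit 1251) (.e (nat_lit 1212) (nat_lit 89) (.e (nat_lit 73781) (nat_lit 32) (.e (nat_lit 2857) (nat_lit 184) (.e (nat_lit 426538) (nat_lit 29) .nil)))) .nil))) (.nd (nat_lit 5) 
(.lf (nat_lit 34776) (.g (nat_lit 506) (.e (nat_lit 1212) (nat_lit 89) (.e (nat_lit 73781) (nat_lit 32) (.e (nat_lit 2855) (nat_lit 184) .nil))) .nil)) 
(.lf (nat_lit 34808) (.g (nat_lit 617) (.e (nat_lit 1212) (nat_lit 89) (.e (nat_lit 73782) (nat_lit 32) (.e (nat_lit 2842) (nat_lit 184) .nil))) .nil))))) (.nd (nat_lit 3) (.nd (nat_lit 4) (.nd (nat_lit 5) 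
(.lf (nat_lit 34756) (.g (nat_lit 2773) (.e (nat_lit 1212) (nat_lit 89) (.e (nat_lit 73776) (nat_lit 26) (.e (nat_lit 778362) (nat_lit 9) (.e (nat_lit 297) (nat_lit 22) (.e (nat_lit 344131) (nat_lit 26) (.e (nat_lit 557103) (nat_lit 14) (.e (nat_lit 180229) (nat_lit 0) (.e (nat_lit 5820) (nat_lit 320) .nil)))))))) (.g (nat_lit 4) .nil .nil))) 
(.lf (nat_lit 34788) (.g (nat_lit 2772) (.e (nat_lit 1212) (nat_lit 89) (.e (nat_lit 73781) (nat_lit 32) (.e (nat_lit 2856) (nat_lit 184) (.e (nat_lit 426542) (nat_lit 29) (.e (nat_lit 352318) (nat_lit 24) (.e (nat_lit 123184) (nat_lit 264) .nil)))))) (.g (nat_lit 5) .nil .nil)))) (.nd (nat_lit 5) 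
(.lf (nat_lit 34772) (.g (nat_lit 1279) (.e (nat_lit 1212) (nat_lit 89) (.e (nat_lit 73780) (nat_lit 32) (.e (nat_lit 2936) (nat_lit 184) (.e (nat_lit 426541) (nat_lit 29) (.e (nat_lit 352316) (nat_lit 24) (.e (nat_lit 123185) (nat_lit 264) .nil)))))) (.g (nat_lit 0) .nil .nil))) 
(.lf (nat_lit 34804) (.g (nat_lit 2700) (.e (nat_lit 1212) (nat_lit 89) (.e (nat_lit 73782) (nat_lit 32) (.e (nat_lit 2681) (nat_lit 168) (.e (nat_lit 204866) (nat_lit 28) (.e (nat_lit 352318) (nat_lit 24) (.e (nat_lit 130816) (nat_lit 140) .nil)))))) (.g (nat_lit 5) .nil .nil))))) (.nd (nat_lit 4) (.nd (nat_lit 5) 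
(.lf (nat_lit 34764) (.g (nat_lit 3445) (.e (nat_lit 1212) (nat_lit 89) (.e (nat_lit 73776) (nat_lit 26) (.e (nat_lit 778362) (nat_lit 9) (.e (nat_lit 297) (nat_lit 22) (.e (nat_lit 344133) (nat_lit 26) (.e (nat_lit 557103) (nat_lit 14) (.e (nat_lit 180229) (nat_lit 0) (.e (nat_lit 5815) (nat_lit 320) .nil)))))))) (.g (nat_lit 5) .nil .nil))) 
(.lf (nat_lit 34796) (.g (nat_lit 1908) (.e (nat_lit 1212) (nat_lit 89) (.e (nat_lit 73781) (nat_lit 32) (.e (nat_lit 2857) (nat_lit 184) (.e (nat_lit 426542) (nat_lit 29) (.e (nat_lit 352317) (nat_lit 24) .nil))))) .nil))) (.nd (nat_lit 5) 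
(.lf (nat_lit 34780) (.g (nat_lit 1699) (.e (nat_lit 1212) (nat_lit 89) (.e (nat_lit 73781) (nat_lit 32) (.e (nat_lit 2855) (nat_lit 184) (.e (nat_lit 426542) (nat_lit 29) (.e (nat_lit 352318) (nat_lit 24) (.e (nat_lit 123184) (nat_lit 264) .nil)))))) (.g (nat_lit 4) .nil .nil))) 
(.lf (nat_lit 34812) (.g (nat_lit 2702) (.e (nat_lit 1212) (nat_lit 89) (.e (nat_lit 73782) (nat_lit 32) (.e (nat_lit 2854) (nat_lit 184) (.e (nat_lit 426542) (nat_lit 29) (.e (nat_lit 352318) (nat_lit 24) (.e (nat_lit 123184) (nat_lit 264) .nil)))))) (.g (nat_lit 0) .nil .nil))))))) (.nd (nat_lit 2) (.nd (nat_lit 3) (.nd (nat_lit 4) (.nd (nat_lit 5) 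
(.lf (nat_lit 34754) (.g (nat_lit 2988) (.e (nat_lit 1212) (nat_lit 89) (.e (nat_lit 73776) (nat_lit 26) (.e (nat_lit 778362) (nat_lit 9) (.e (nat_lit 297) (nat_lit 22) (.e (nat_lit 344131) (nat_lit 26) (.e (nat_lit 557101) (nat_lit 13) (.e (nat_lit 172070) (nat_lit 4) (.e (nat_lit 229699) (nat_lit 254) .nil)))))))) (.g (nat_lit 4) .nil .nil))) 
(.lf (nat_lit 34786) (.g (nat_lit 2902) (.e (nat_lit 1212) (nat_lit 89) (.e (nat_lit 73781) (nat_lit 32) (.e (nat_lit 2856) (nat_lit 184) (.e (nat_lit 426542) (nat_lit 29) (.e (nat_lit 352317) (nat_lit 24) .nil))))) .nil))) (.nd (nat_lit 5) 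
(.lf (nat_lit 34770) (.g (nat_lit 1390) (.e (nat_lit 1212) (nat_lit 89) (.e (nat_lit 73776) (nat_lit 26) (.e (nat_lit 778362) (nat_lit 9) (.e (nat_lit 304) (nat_lit 22) .nil)))) .nil)) 
(.lf (nat_lit 34802) (.g (nat_lit 1574) (.e (nat_lit 1212) (nat_lit 89) (.e (nat_lit 73781) (nat_lit 32) (.e (nat_lit 3090) (nat_lit 191) (.e (nat_lit 483386) (nat_lit 23) .nil)))) .nil)))) (.nd (nat_lit 4) (.nd (nat_lit 5) 
(.lf (nat_lit 34762) (.g (nat_lit 2232) (.e (nat_lit 1212) (nat_lit 89) (.e (nat_lit 73776) (nat_lit 26) (.e (nat_lit 778362) (nat_lit 9) (.e (nat_lit 297) (nat_lit 22) (.e (nat_lit 344133) (nat_lit 26) (.e (nat_lit 557096) (nat_lit 13) (.e (nat_lit 172070) (nat_lit 4) (.e (nat_lit 229699) (nat_lit 254) .nil)))))))) (.g (nat_lit 4) .nil .nil))) 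
(.lf (nat_lit 34794) (.g (nat_lit 1636) (.e (nat_lit 1212) (nat_lit 89) (.e (nat_lit 73781) (nat_lit 32) (.e (nat_lit 2857) (nat_lit 184) (.e (nat_lit 426542) (nat_lit 29) (.e (nat_lit 352316) (nat_lit 24) .nil))))) .nil))) (.nd (nat_lit 5) 
(.lf (nat_lit 34778) (.g (nat_lit 1476) (.e (nat_lit 1212) (nat_lit 89) (.e (nat_lit 73781) (nat_lit 32) (.e (nat_lit 2855) (nat_lit 184) (.e (nat_lit 426542) (nat_lit 29) (.e (nat_lit 352316) (nat_lit 24) (.e (nat_lit 123183) (nat_lit 264) .nil)))))) (.g (nat_lit 4) .nil .nil))) 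
(.lf (nat_lit 34810) (.g (nat_lit 2067) (.e (nat_lit 1212) (nat_lit 89) (.e (nat_lit 73782) (nat_lit 32) (.e (nat_lit 2854) (nat_lit 184) (.e (nat_lit 426542) (nat_lit 29) (.e (nat_lit 352316) (nat_lit 24) (.e (nat_lit 123185) (nat_lit 264) .nil)))))) (.g (nat_lit 0) .nil .nil)))))) (.nd (nat_lit 3) (.nd (nat_lit 4) (.nd (nat_lit 5) 
(.lf (nat_lit 34758) (.g (nat_lit 2443) (.e (nat_lit 1212) (nat_lit 89) (.e (nat_lit 73776) (nat_lit 26) (.e (nat_lit 778362) (nat_lit 9) (.e (nat_lit 297) (nat_lit 22) (.e (nat_lit 344131) (nat_lit 26) (.e (nat_lit 557105) (nat_lit 14) (.e (nat_lit 180227) (nat_lit 0) (.e (nat_lit 5814) (nat_lit 320) .nil)))))))) (.g (nat_lit 4) .nil .nil))) 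
(.lf (nat_lit 34790) (.g (nat_lit 1577) (.e (nat_lit 1212) (nat_lit 89) (.e (nat_lit 73781) (nat_lit 32) (.e (nat_lit 2856) (nat_lit 184) (.e (nat_lit 426546) (nat_lit 30) .nil)))) .nil))) (.nd (nat_lit 5) 
(.lf (nat_lit 34774) (.g (nat_lit 1243) (.e (nat_lit 1212) (nat_lit 89) (.e (nat_lit 73780) (nat_lit 32) (.e (nat_lit 2940) (nat_lit 184) (.e (nat_lit 426541) (nat_lit 29) (.e (nat_lit 352316) (nat_lit 24) (.e (nat_lit 123185) (nat_lit 264) .nil)))))) (.g (nat_lit 0) .nil .nil))) 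
(.lf (nat_lit 34806) (.g (nat_lit 2171) (.e (nat_lit 1212) (nat_lit 89) (.e (nat_lit 73782) (nat_lit 32) (.e (nat_lit 2682) (nat_lit 168) (.e (nat_lit 204869) (nat_lit 29) (.e (nat_lit 368384) (nat_lit 0) (.e (nat_lit 3913) (nat_lit 239) .nil)))))) (.g (nat_lit 4) .nil .nil))))) (.nd (nat_lit 4) (.nd (nat_lit 5) 
(.lf (nat_lit 34766) (.g (nat_lit 2691) (.e (nat_lit 1212) (nat_lit 89) (.e (nat_lit 73776) (nat_lit 26) (.e (nat_lit 778362) (nat_lit 9) (.e (nat_lit 297) (nat_lit 22) (.e (nat_lit 344133) (nat_lit 26) (.e (nat_lit 557103) (nat_lit 14) (.e (nat_lit 180229) (nat_lit 0) (.e (nat_lit 5821) (nat_lit 320) .nil)))))))) (.g (nat_lit 4) .nil .nil))) 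
(.lf (nat_lit 34798) (.g (nat_lit 1792) (.e (nat_lit 1212) (nat_lit 89) (.e (nat_lit 73781) (nat_lit 32) (.e (nat_lit 2857) (nat_lit 184) (.e (nat_lit 426542) (nat_lit 29) (.e (nat_lit 352318) (nat_lit 24) (.e (nat_lit 123183) (nat_lit 264) .nil)))))) (.g (nat_lit 4) .nil .nil)))) (.nd (nat_lit 5) 
(.lf (nat_lit 34782) (.g (nat_lit 2123) (.e (nat_lit 1212) (nat_lit 89) (.e (nat_lit 73781) (nat_lit 32) (.e (nat_lit 2856) (nat_lit 184) (.e (nat_lit 426538) (nat_lit 29) (.e (nat_lit 352318) (nat_lit 24) (.e (nat_lit 123184) (nat_lit 264) .nil)))))) (.g (nat_lit 4) .nil .nil))) 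
(.lf (nat_lit 34814) (.g (nat_lit 1847) (.e (nat_lit 1212) (nat_lit 89) (.e (nat_lit 73782) (nat_lit 32) (.e (nat_lit 2854) (nat_lit 184) (.e (nat_lit 426555) (nat_lit 32) (.e (nat_lit 376870) (nat_lit 24) .nil))))) .nil))))))) (.nd (nat_lit 1) (.nd (nat_lit 2) (.nd (nat_lit 3) (.nd (nat_lit 4) (.nd (nat_lit 5) 
(.lf (nat_lit 34753) (.g (nat_lit 2421) (.e (nat_lit 1212) (nat_lit 89) (.e (nat_lit 73776) (nat_lit 26) (.e (nat_lit 778362) (nat_lit 9) (.e (nat_lit 297) (nat_lit 22) (.e (nat_lit 344131) (nat_lit 26) .nil))))) .nil)) 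
(.lf (nat_lit 34785) (.g (nat_lit 2526) (.e (nat_lit 1212) (nat_lit 89) (.e (nat_lit 73781) (nat_lit 32) (.e (nat_lit 2856) (nat_lit 184) (.e (nat_lit 426542) (nat_lit 29) (.e (nat_lit 352316) (nat_lit 24) (.e (nat_lit 123184) (nat_lit 264) .nil)))))) (.g (nat_lit 4) .nil .nil)))) (.nd (nat_lit 5) 
(.lf (nat_lit 34769) (.g (nat_lit 2415) (.e (nat_lit 1212) (nat_lit 89) (.e (nat_lit 73776) (nat_lit 26) (.e (nat_lit 778362) (nat_lit 9) (.e (nat_lit 297) (nat_lit 22) (.e (nat_lit 344133) (nat_lit 26) (.e (nat_lit 557105) (nat_lit 14) (.e (nat_lit 180230) (nat_lit 0) (.e (nat_lit 5820) (nat_lit 320) .nil)))))))) (.g (nat_lit 4) .nil .nil))) 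
(.lf (nat_lit 34801) (.g (nat_lit 1369) (.e (nat_lit 1212) (nat_lit 89) (.e (nat_lit 73781) (nat_lit 32) (.e (nat_lit 3090) (nat_lit 191) (.e (nat_lit 483378) (nat_lit 23) .nil)))) .nil)))) (.nd (nat_lit 4) (.nd (nat_lit 5) 
(.lf (nat_lit 34761) (.g (nat_lit 2181) (.e (nat_lit 1212) (nat_lit 89) (.e (nat_lit 73776) (nat_lit 26) (.e (nat_lit 778362) (nat_lit 9) (.e (nat_lit 297) (nat_lit 22) (.e (nat_lit 344133) (nat_lit 26) .nil))))) .nil)) 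
(.lf (nat_lit 34793) (.g (nat_lit 1074) (.e (nat_lit 1212) (nat_lit 89) (.e (nat_lit 73781) (nat_lit 32) (.e (nat_lit 2857) (nat_lit 184) (.e (nat_lit 426542) (nat_lit 29) .nil)))) .nil))) (.nd (nat_lit 5) 
(.lf (nat_lit 34777) (.g (nat_lit 1575) (.e (nat_lit 1212) (nat_lit 89) (.e (nat_lit 73781) (nat_lit 32) (.e (nat_lit 2855) (nat_lit 184) (.e (nat_lit 426542) (nat_lit 29) (.e (nat_lit 352316) (nat_lit 24) (.e (nat_lit 123182) (nat_lit 264) .nil)))))) (.g (nat_lit 4) .nil .nil))) 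
(.lf (nat_lit 34809) (.g (nat_lit 2429) (.e (nat_lit 1212) (nat_lit 89) (.e (nat_lit 73782) (nat_lit 32) (.e (nat_lit 2854) (nat_lit 184) (.e (nat_lit 426542) (nat_lit 29) (.e (nat_lit 352316) (nat_lit 24) (.e (nat_lit 123184) (nat_lit 264) .nil)))))) (.g (nat_lit 0) .nil .nil)))))) (.nd (nat_lit 3) (.nd (nat_lit 4) (.nd (nat_lit 5) 
(.lf (nat_lit 34757) (.g (nat_lit 2497) (.e (nat_lit 1212) (nat_lit 89) (.e (nat_lit 73776) (nat_lit 26) (.e (nat_lit 778362) (nat_lit 9) (.e (nat_lit 297) (nat_lit 22) (.e (nat_lit 344131) (nat_lit 26) (.e (nat_lit 557103) (nat_lit 14) (.e (nat_lit 180233) (nat_lit 0) (.e (nat_lit 5815) (nat_lit 320) .nil)))))))) (.g (nat_lit 4) .nil .nil))) 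
(.lf (nat_lit 34789) (.g (nat_lit 1520) (.e (nat_lit 1212) (nat_lit 89) (.e (nat_lit 73781) (nat_lit 32) (.e (nat_lit 2856) (nat_lit 184) (.e (nat_lit 426544) (nat_lit 30) .nil)))) .nil))) (.nd (nat_lit 5) 
(.lf (nat_lit 34773) (.g (nat_lit 1231) (.e (nat_lit 1212) (nat_lit 89) (.e (nat_lit 73780) (nat_lit 32) (.e (nat_lit 2939) (nat_lit 184) (.e (nat_lit 426541) (nat_lit 29) (.e (nat_lit 352316) (nat_lit 24) (.e (nat_lit 123185) (nat_lit 264) .nil)))))) (.g (nat_lit 0) .nil .nil))) 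
(.lf (nat_lit 34805) (.g (nat_lit 2937) (.e (nat_lit 1212) (nat_lit 89) (.e (nat_lit 73782) (nat_lit 32) (.e (nat_lit 2682) (nat_lit 168) (.e (nat_lit 204866) (nat_lit 28) (.e (nat_lit 352318) (nat_lit 24) (.e (nat_lit 130816) (nat_lit 140) .nil)))))) (.g (nat_lit 5) .nil .nil))))) (.nd (nat_lit 4) (.nd (nat_lit 5) 
(.lf (nat_lit 34765) (.g (nat_lit 3220) (.e (nat_lit 1212) (nat_lit 89) (.e (nat_lit 73776) (nat_lit 26) (.e (nat_lit 778362) (nat_lit 9) (.e (nat_lit 297) (nat_lit 22) (.e (nat_lit 344133) (nat_lit 26) (.e (nat_lit 557103) (nat_lit 14) (.e (nat_lit 180229) (nat_lit 0) (.e (nat_lit 5820) (nat_lit 320) .nil)))))))) (.g (nat_lit 5) .nil .nil))) 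
(.lf (nat_lit 34797) (.g (nat_lit 1894) (.e (nat_lit 1212) (nat_lit 89) (.e (nat_lit 73781) (nat_lit 32) (.e (nat_lit 2857) (nat_lit 184) (.e (nat_lit 426542) (nat_lit 29) (.e (nat_lit 352318) (nat_lit 24) (.e (nat_lit 123182) (nat_lit 264) .nil)))))) (.g (nat_lit 4) .nil .nil)))) (.nd (nat_lit 5) 
(.lf (nat_lit 34781) (.g (nat_lit 2027) (.e (nat_lit 1212) (nat_lit 89) (.e (nat_lit 73781) (nat_lit 32) (.e (nat_lit 2856) (nat_lit 184) (.e (nat_lit 426538) (nat_lit 29) (.e (nat_lit 352318) (nat_lit 24) (.e (nat_lit 123183) (nat_lit 264) .nil)))))) (.g (nat_lit 4) .nil .nil))) 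
(.lf (nat_lit 34813) (.g (nat_lit 2122) (.e (nat_lit 1212) (nat_lit 89) (.e (nat_lit 73782) (nat_lit 32) (.e (nat_lit 2854) (nat_lit 184) (.e (nat_lit 426542) (nat_lit 29) (.e (nat_lit 352318) (nat_lit 24) (.e (nat_lit 123185) (nat_lit 264) .nil)))))) (.g (nat_lit 0) .nil .nil))))))) (.nd (nat_lit 2) (.nd (nat_lit 3) (.nd (nat_lit 4) (.nd (nat_lit 5) 
(.lf (nat_lit 34755) (.g (nat_lit 2998) (.e (nat_lit 1212) (nat_lit 89) (.e (nat_lit 73776) (nat_lit 26) (.e (nat_lit 778362) (nat_lit 9) (.e (nat_lit 297) (nat_lit 22) (.e (nat_lit 344131) (nat_lit 26) (.e (nat_lit 557103) (nat_lit 14) (.e (nat_lit 180229) (nat_lit 0) (.e (nat_lit 5815) (nat_lit 320) .nil)))))))) (.g (nat_lit 4) .nil .nil))) 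
(.lf (nat_lit 34787) (.g (nat_lit 2855) (.e (nat_lit 1212) (nat_lit 89) (.e (nat_lit 73781) (nat_lit 32) (.e (nat_lit 2856) (nat_lit 184) (.e (nat_lit 426542) (nat_lit 29) (.e (nat_lit 352318) (nat_lit 24) (.e (nat_lit 123182) (nat_lit 264) .nil)))))) (.g (nat_lit 5) .nil .nil)))) (.nd (nat_lit 5) 
(.lf (nat_lit 34771) (.g (nat_lit 1576) (.e (nat_lit 1212) (nat_lit 89) (.e (nat_lit 73776) (nat_lit 26) (.e (nat_lit 778362) (nat_lit 9) (.e (nat_lit 304) (nat_lit 22) (.e (nat_lit 344130) (nat_lit 26) .nil))))) .nil)) 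
(.lf (nat_lit 34803) (.g (nat_lit 1353) (.e (nat_lit 1212) (nat_lit 89) (.e (nat_lit 73781) (nat_lit 32) (.e (nat_lit 3090) (nat_lit 191) (.e (nat_lit 483387) (nat_lit 23) .nil)))) .nil)))) (.nd (nat_lit 4) (.nd (nat_lit 5) 
(.lf (nat_lit 34763) (.g (nat_lit 3377) (.e (nat_lit 1212) (nat_lit 89) (.e (nat_lit 73776) (nat_lit 26) (.e (nat_lit 778362) (nat_lit 9) (.e (nat_lit 297) (nat_lit 22) (.e (nat_lit 344133) (nat_lit 26) (.e (nat_lit 557098) (nat_lit 13) (.e (nat_lit 172068) (nat_lit 4) (.e (nat_lit 229699) (nat_lit 254) .nil)))))))) (.g (nat_lit 5) .nil .nil))) 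
(.lf (nat_lit 34795) (.g (nat_lit 1716) (.e (nat_lit 1212) (nat_lit 89) (.e (nat_lit 73781) (nat_lit 32) (.e (nat_lit 2857) (nat_lit 184) (.e (nat_lit 426542) (nat_lit 29) (.e (nat_lit 352316) (nat_lit 24) (.e (nat_lit 123182) (nat_lit 264) .nil)))))) (.g (nat_lit 4) .nil .nil)))) (.nd (nat_lit 5) 
(.lf (nat_lit 34779) (.g (nat_lit 1660) (.e (nat_lit 1212) (nat_lit 89) (.e (nat_lit 73781) (nat_lit 32) (.e (nat_lit 2855) (nat_lit 184) (.e (nat_lit 426542) (nat_lit 29) (.e (nat_lit 352318) (nat_lit 24) (.e (nat_lit 123183) (nat_lit 264) .nil)))))) (.g (nat_lit 4) .nil .nil))) 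
(.lf (nat_lit 34811) (.g (nat_lit 1659) (.e (nat_lit 1212) (nat_lit 89) (.e (nat_lit 73782) (nat_lit 32) (.e (nat_lit 2854) (nat_lit 184) (.e (nat_lit 426542) (nat_lit 29) (.e (nat_lit 352317) (nat_lit 24) (.e (nat_lit 123182) (nat_lit 264) .nil)))))) (.g (nat_lit 4) .nil .nil)))))) (.nd (nat_lit 3) (.nd (nat_lit 4) (.nd (nat_lit 5) 
(.lf (nat_lit 34759) (.g (nat_lit 2236) (.e (nat_lit 1212) (nat_lit 89) (.e (nat_lit 73776) (nat_lit 26) (.e (nat_lit 778362) (nat_lit 9) (.e (nat_lit 297) (nat_lit 22) (.e (nat_lit 344132) (nat_lit 26) .nil))))) .nil)) 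
(.lf (nat_lit 34791) (.g (nat_lit 2626) (.e (nat_lit 1212) (nat_lit 89) (.e (nat_lit 73781) (nat_lit 32) (.e (nat_lit 2856) (nat_lit 184) (.e (nat_lit 426555) (nat_lit 32) (.e (nat_lit 376870) (nat_lit 24) .nil))))) .nil))) (.nd (nat_lit 5) 
(.lf (nat_lit 34775) (.g (nat_lit 1198) (.e (nat_lit 1212) (nat_lit 89) (.e (nat_lit 73780) (nat_lit 32) (.e (nat_lit 2941) (nat_lit 184) (.e (nat_lit 426541) (nat_lit 29) (.e (nat_lit 352316) (nat_lit 24) (.e (nat_lit 123185) (nat_lit 264) .nil)))))) (.g (nat_lit 0) .nil .nil))) 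
(.lf (nat_lit 34807) (.g (nat_lit 2314) (.e (nat_lit 1212) (nat_lit 89) (.e (nat_lit 73782) (nat_lit 32) (.e (nat_lit 2682) (nat_lit 168) (.e (nat_lit 204869) (nat_lit 29) (.e (nat_lit 368384) (nat_lit 0) (.e (nat_lit 3915) (nat_lit 239) .nil)))))) (.g (nat_lit 4) .nil .nil))))) (.nd (nat_lit 4) (.nd (nat_lit 5) 
(.lf (nat_lit 34767) (.g (nat_lit 3203) (.e (nat_lit 1212) (nat_lit 89) (.e (nat_lit 73776) (nat_lit 26) (.e (nat_lit 778362) (nat_lit 9) (.e (nat_lit 297) (nat_lit 22) (.e (nat_lit 344133) (nat_lit 26) (.e (nat_lit 557105) (nat_lit 14) (.e (nat_lit 180227) (nat_lit 0) (.e (nat_lit 5814) (nat_lit 320) .nil)))))))) (.g (nat_lit 5) .nil .nil))) 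
(.lf (nat_lit 34799) (.g (nat_lit 1826) (.e (nat_lit 1212) (nat_lit 89) (.e (nat_lit 73781) (nat_lit 32) (.e (nat_lit 2857) (nat_lit 184) (.e (nat_lit 426542) (nat_lit 29) (.e (nat_lit 352318) (nat_lit 24) (.e (nat_lit 123184) (nat_lit 264) .nil)))))) (.g (nat_lit 4) .nil .nil)))) (.nd (nat_lit 5) 
(.lf (nat_lit 34783) (.g (nat_lit 2680) (.e (nat_lit 1212) (nat_lit 89) (.e (nat_lit 73781) (nat_lit 32) (.e (nat_lit 2856) (nat_lit 184) (.e (nat_lit 426542) (nat_lit 29) (.e (nat_lit 352316) (nat_lit 24) (.e (nat_lit 123182) (nat_lit 264) .nil)))))) (.g (nat_lit 4) .nil .nil))) 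
(.lf (nat_lit 34815) (.g (nat_lit 1941) (.e (nat_lit 1212) (nat_lit 89) (.e (nat_lit 73782) (nat_lit 32) (.e (nat_lit 2854) (nat_lit 184) (.e (nat_lit 426555) (nat_lit 32) (.e (nat_lit 376870) (nat_lit 24) (.e (nat_lit 123182) (nat_lit 264) .nil)))))) (.g (nat_lit 4) .nil .nil)))))))))

noncomputable def tv486 : DT := (.nd (nat_lit 0) (.nd (nat_lit 1) (.nd (nat_lit 2) (.nd (nat_lit 3) (.nd (nat_lit 4) (.nd (nat_lit 5) 
(.lf (nat_lit 34816) (.g (nat_lit 2224) (.e (nat_lit 1212) (nat_lit 89) (.e (nat_lit 73782) (nat_lit 32) (.e (nat_lit 2855) (nat_lit 184) (.e (nat_lit 426542) (nat_lit 29) (.e (nat_lit 352316) (nat_lit 24) (.e (nat_lit 123185) (nat_lit 264) .nil)))))) (.g (nat_lit 0) .nil .nil))) 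
(.lf (nat_lit 34848) (.g (nat_lit 1558) (.e (nat_lit 1212) (nat_lit 89) (.e (nat_lit 73782) (nat_lit 32) (.e (nat_lit 3088) (nat_lit 191) (.e (nat_lit 483393) (nat_lit 23) (.e (nat_lit 335987) (nat_lit 1) .nil))))) .nil))) (.nd (nat_lit 5) 
(.lf (nat_lit 34832) (.g (nat_lit 2192) (.e (nat_lit 1212) (nat_lit 89) (.e (nat_lit 73782) (nat_lit 32) (.e (nat_lit 2856) (nat_lit 184) (.e (nat_lit 426555) (nat_lit 32) (.e (nat_lit 376870) (nat_lit 24) .nil))))) .nil)) 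
(.lf (nat_lit 34864) (.g (nat_lit 1693) (.e (nat_lit 1212) (nat_lit 89) (.e (nat_lit 73782) (nat_lit 32) (.e (nat_lit 3090) (nat_lit 191) (.e (nat_lit 483372) (nat_lit 21) (.e (nat_lit 327424) (nat_lit 1) .nil))))) .nil)))) (.nd (nat_lit 4) (.nd (nat_lit 5) 
(.lf (nat_lit 34824) (.g (nat_lit 1665) (.e (nat_lit 1212) (nat_lit 89) (.e (nat_lit 73782) (nat_lit 32) (.e (nat_lit 2856) (nat_lit 184) (.e (nat_lit 426509) (nat_lit 27) (.e (nat_lit 336110) (nat_lit 9) (.e (nat_lit 336032) (nat_lit 4) (.e (nat_lit 123184) (nat_lit 264) .nil))))))) (.g (nat_lit 4) .nil .nil))) 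
(.lf (nat_lit 34856) (.g (nat_lit 2415) (.e (nat_lit 1212) (nat_lit 89) (.e (nat_lit 73782) (nat_lit 32) (.e (nat_lit 3089) (nat_lit 191) (.e (nat_lit 483393) (nat_lit 23) (.e (nat_lit 335988) (nat_lit 1) (.e (nat_lit 65280) (nat_lit 264) .nil)))))) (.g (nat_lit 5) .nil .nil)))) (.nd (nat_lit 5) 
(.lf (nat_lit 34840) (.g (nat_lit 1603) (.e (nat_lit 1212) (nat_lit 89) (.e (nat_lit 73782) (nat_lit 32) (.e (nat_lit 2857) (nat_lit 184) (.e (nat_lit 426544) (nat_lit 30) (.e (nat_lit 360456) (nat_lit 0) (.e (nat_lit 5818) (nat_lit 320) .nil)))))) (.g (nat_lit 4) .nil .nil))) 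
(.lf (nat_lit 34872) (.g (nat_lit 1278) (.e (nat_lit 1212) (nat_lit 89) (.e (nat_lit 73782) (nat_lit 32) (.e (nat_lit 3090) (nat_lit 191) (.e (nat_lit 483389) (nat_lit 23) .nil)))) .nil))))) (.nd (nat_lit 3) (.nd (nat_lit 4) (.nd (nat_lit 5) 
(.lf (nat_lit 34820) (.g (nat_lit 1584) (.e (nat_lit 1212) (nat_lit 89) (.e (nat_lit 73782) (nat_lit 32) (.e (nat_lit 2855) (nat_lit 184) (.e (nat_lit 426546) (nat_lit 30) (.e (nat_lit 360456) (nat_lit 0) (.e (nat_lit 5818) (nat_lit 320) .nil)))))) (.g (nat_lit 6) .nil .nil))) 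
(.lf (nat_lit 34852) (.g (nat_lit 1516) (.e (nat_lit 1212) (nat_lit 89) (.e (nat_lit 73782) (nat_lit 32) (.e (nat_lit 3089) (nat_lit 191) (.e (nat_lit 483378) (nat_lit 23) (.e (nat_lit 336032) (nat_lit 4) (.e (nat_lit 123183) (nat_lit 264) .nil)))))) (.g (nat_lit 4) .nil .nil)))) (.nd (nat_lit 5) 
(.lf (nat_lit 34836) (.g (nat_lit 2667) (.e (nat_lit 1212) (nat_lit 89) (.e (nat_lit 73782) (nat_lit 32) (.e (nat_lit 2857) (nat_lit 184) (.e (nat_lit 426542) (nat_lit 29) (.e (nat_lit 352316) (nat_lit 24) (.e (nat_lit 123185) (nat_lit 264) .nil)))))) (.g (nat_lit 0) .nil .nil))) 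
(.lf (nat_lit 34868) (.g (nat_lit 2380) (.e (nat_lit 1212) (nat_lit 89) (.e (nat_lit 73782) (nat_lit 32) (.e (nat_lit 3090) (nat_lit 191) (.e (nat_lit 483386) (nat_lit 23) (.e (nat_lit 336030) (nat_lit 4) (.e (nat_lit 123184) (nat_lit 264) .nil)))))) (.g (nat_lit 0) .nil .nil))))) (.nd (nat_lit 4) (.nd (nat_lit 5) 
(.lf (nat_lit 34828) (.g (nat_lit 2548) (.e (nat_lit 1212) (nat_lit 89) (.e (nat_lit 73782) (nat_lit 32) (.e (nat_lit 2856) (nat_lit 184) (.e (nat_lit 426544) (nat_lit 30) (.e (nat_lit 360457) (nat_lit 0) (.e (nat_lit 5818) (nat_lit 320) .nil)))))) (.g (nat_lit 0) .nil .nil))) 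
(.lf (nat_lit 34860) (.g (nat_lit 412) (.e (nat_lit 1212) (nat_lit 89) (.e (nat_lit 73782) (nat_lit 32) (.e (nat_lit 3090) (nat_lit 191) .nil))) .nil))) (.nd (nat_lit 5) 
(.lf (nat_lit 34844) (.g (nat_lit 495) (.e (nat_lit 1212) (nat_lit 89) (.e (nat_lit 73782) (nat_lit 32) (.e (nat_lit 3087) (nat_lit 191) .nil))) .nil)) 
(.lf (nat_lit 34876) (.g (nat_lit 1059) (.e (nat_lit 1212) (nat_lit 89) (.e (nat_lit 73782) (nat_lit 32) (.e (nat_lit 3090) (nat_lit 191) (.e (nat_lit 483395) (nat_lit 24) .nil)))) .nil)))))) (.nd (nat_lit 2) (.nd (nat_lit 3) (.nd (nat_lit 4) (.nd (nat_lit 5) 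
(.lf (nat_lit 34818) (.g (nat_lit 2865) (.e (nat_lit 1212) (nat_lit 89) (.e (nat_lit 73782) (nat_lit 32) (.e (nat_lit 2855) (nat_lit 184) (.e (nat_lit 426542) (nat_lit 29) (.e (nat_lit 352318) (nat_lit 24) (.e (nat_lit 123184) (nat_lit 264) .nil)))))) (.g (nat_lit 0) .nil .nil))) 
(.lf (nat_lit 34850) (.g (nat_lit 1676) (.e (nat_lit 1212) (nat_lit 89) (.e (nat_lit 73782) (nat_lit 32) (.e (nat_lit 3088) (nat_lit 191) (.e (nat_lit 483393) (nat_lit 23) (.e (nat_lit 336033) (nat_lit 4) .nil))))) .nil))) (.nd (nat_lit 5) 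
(.lf (nat_lit 34834) (.g (nat_lit 2371) (.e (nat_lit 1212) (nat_lit 89) (.e (nat_lit 73782) (nat_lit 32) (.e (nat_lit 2857) (nat_lit 184) (.e (nat_lit 426538) (nat_lit 29) (.e (nat_lit 352318) (nat_lit 24) (.e (nat_lit 123183) (nat_lit 264) .nil)))))) (.g (nat_lit 5) .nil .nil))) 
(.lf (nat_lit 34866) (.g (nat_lit 1720) (.e (nat_lit 1212) (nat_lit 89) (.e (nat_lit 73782) (nat_lit 32) (.e (nat_lit 3090) (nat_lit 191) (.e (nat_lit 483378) (nat_lit 23) (.e (nat_lit 336032) (nat_lit 4) (.e (nat_lit 123183) (nat_lit 264) .nil)))))) (.g (nat_lit 4) .nil .nil))))) (.nd (nat_lit 4) (.nd (nat_lit 5) 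
(.lf (nat_lit 34826) (.g (nat_lit 1820) (.e (nat_lit 1212) (nat_lit 89) (.e (nat_lit 73782) (nat_lit 32) (.e (nat_lit 2856) (nat_lit 184) (.e (nat_lit 426533) (nat_lit 28) (.e (nat_lit 344074) (nat_lit 13) .nil))))) .nil)) 
(.lf (nat_lit 34858) (.g (nat_lit 1631) (.e (nat_lit 1212) (nat_lit 89) (.e (nat_lit 73782) (nat_lit 32) (.e (nat_lit 3089) (nat_lit 191) (.e (nat_lit 483394) (nat_lit 24) (.e (nat_lit 344104) (nat_lit 18) (.e (nat_lit 5818) (nat_lit 320) .nil)))))) (.g (nat_lit 5) .nil .nil)))) (.nd (nat_lit 5) 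
(.lf (nat_lit 34842) (.g (nat_lit 2061) (.e (nat_lit 1212) (nat_lit 89) (.e (nat_lit 73782) (nat_lit 32) (.e (nat_lit 2857) (nat_lit 184) (.e (nat_lit 426546) (nat_lit 30) (.e (nat_lit 360456) (nat_lit 0) (.e (nat_lit 5818) (nat_lit 320) .nil)))))) (.g (nat_lit 0) .nil .nil))) 
(.lf (nat_lit 34874) (.g (nat_lit 2050) (.e (nat_lit 1212) (nat_lit 89) (.e (nat_lit 73782) (nat_lit 32) (.e (nat_lit 3090) (nat_lit 191) (.e (nat_lit 483393) (nat_lit 23) (.e (nat_lit 335988) (nat_lit 1) (.e (nat_lit 65280) (nat_lit 264) .nil)))))) (.g (nat_lit 4) .nil .nil)))))) (.nd (nat_lit 3) (.nd (nat_lit 4) (.nd (nat_lit 5) 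
(.lf (nat_lit 34822) (.g (nat_lit 2059) (.e (nat_lit 1212) (nat_lit 89) (.e (nat_lit 73782) (nat_lit 32) (.e (nat_lit 2855) (nat_lit 184) (.e (nat_lit 426555) (nat_lit 32) (.e (nat_lit 376870) (nat_lit 24) (.e (nat_lit 123182) (nat_lit 264) .nil)))))) (.g (nat_lit 4) .nil .nil))) 
(.lf (nat_lit 34854) (.g (nat_lit 1409) (.e (nat_lit 1212) (nat_lit 89) (.e (nat_lit 73782) (nat_lit 32) (.e (nat_lit 3089) (nat_lit 191) (.e (nat_lit 483389) (nat_lit 23) (.e (nat_lit 336032) (nat_lit 4) (.e (nat_lit 123183) (nat_lit 264) .nil)))))) (.g (nat_lit 4) .nil .nil)))) (.nd (nat_lit 5) 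
(.lf (nat_lit 34838) (.g (nat_lit 3269) (.e (nat_lit 1212) (nat_lit 89) (.e (nat_lit 73782) (nat_lit 32) (.e (nat_lit 2857) (nat_lit 184) (.e (nat_lit 426542) (nat_lit 29) (.e (nat_lit 352318) (nat_lit 24) (.e (nat_lit 123184) (nat_lit 264) .nil)))))) (.g (nat_lit 0) .nil .nil))) 
(.lf (nat_lit 34870) (.g (nat_lit 1046) (.e (nat_lit 1212) (nat_lit 89) (.e (nat_lit 73782) (nat_lit 32) (.e (nat_lit 3090) (nat_lit 191) (.e (nat_lit 483387) (nat_lit 23) .nil)))) .nil)))) (.nd (nat_lit 4) (.nd (nat_lit 5) 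
(.lf (nat_lit 34830) (.g (nat_lit 1651) (.e (nat_lit 1212) (nat_lit 89) (.e (nat_lit 73782) (nat_lit 32) (.e (nat_lit 2856) (nat_lit 184) (.e (nat_lit 426553) (nat_lit 32) .nil)))) .nil)) 
(.lf (nat_lit 34862) (.g (nat_lit 1870) (.e (nat_lit 1212) (nat_lit 89) (.e (nat_lit 73782) (nat_lit 32) (.e (nat_lit 3090) (nat_lit 191) (.e (nat_lit 483350) (nat_lit 17) (.e (nat_lit 6097) (nat_lit 332) (.e (nat_lit 2538) (nat_lit 158) (.e (nat_lit 8433) (nat_lit 138) .nil))))))) (.g (nat_lit 4) .nil .nil)))) (.nd (nat_lit 5) 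
(.lf (nat_lit 34846) (.g (nat_lit 1487) (.e (nat_lit 1212) (nat_lit 89) (.e (nat_lit 73782) (nat_lit 32) (.e (nat_lit 3087) (nat_lit 191) (.e (nat_lit 483394) (nat_lit 24) (.e (nat_lit 344104) (nat_lit 18) (.e (nat_lit 5818) (nat_lit 320) .nil)))))) (.g (nat_lit 4) .nil .nil))) 
(.lf (nat_lit 34878) (.g (nat_lit 1851) (.e (nat_lit 1212) (nat_lit 89) (.e (nat_lit 81664) (nat_lit 32) (.e (nat_lit 2685) (nat_lit 168) (.e (nat_lit 204866) (nat_lit 28) (.e (nat_lit 352318) (nat_lit 24) (.e (nat_lit 130816) (nat_lit 140) .nil)))))) (.g (nat_lit 5) .nil .nil)))))))) (.nd (nat_lit 1) (.nd (nat_lit 2) (.nd (nat_lit 3) (.nd (nat_lit 4) (.nd (nat_lit 5) 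
(.lf (nat_lit 34817) (.g (nat_lit 1763) (.e (nat_lit 1212) (nat_lit 89) (.e (nat_lit 73782) (nat_lit 32) (.e (nat_lit 2855) (nat_lit 184) (.e (nat_lit 426542) (nat_lit 29) (.e (nat_lit 352317) (nat_lit 24) (.e (nat_lit 123182) (nat_lit 264) .nil)))))) (.g (nat_lit 4) .nil .nil))) 
(.lf (nat_lit 34849) (.g (nat_lit 2462) (.e (nat_lit 1212) (nat_lit 89) (.e (nat_lit 73782) (nat_lit 32) (.e (nat_lit 3088) (nat_lit 191) (.e (nat_lit 483393) (nat_lit 23) (.e (nat_lit 335988) (nat_lit 1) (.e (nat_lit 65280) (nat_lit 264) .nil)))))) (.g (nat_lit 5) .nil .nil)))) (.nd (nat_lit 5) 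
(.lf (nat_lit 34833) (.g (nat_lit 2600) (.e (nat_lit 1212) (nat_lit 89) (.e (nat_lit 73782) (nat_lit 32) (.e (nat_lit 2856) (nat_lit 184) (.e (nat_lit 426555) (nat_lit 32) (.e (nat_lit 376870) (nat_lit 24) (.e (nat_lit 123184) (nat_lit 264) .nil)))))) (.g (nat_lit 4) .nil .nil))) 
(.lf (nat_lit 34865) (.g (nat_lit 1666) (.e (nat_lit 1212) (nat_lit 89) (.e (nat_lit 73782) (nat_lit 32) (.e (nat_lit 3090) (nat_lit 191) (.e (nat_lit 483378) (nat_lit 23) (.e (nat_lit 336032) (nat_lit 4) (.e (nat_lit 123182) (nat_lit 264) .nil)))))) (.g (nat_lit 4) .nil .nil))))) (.nd (nat_lit 4) (.nd (nat_lit 5) 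
(.lf (nat_lit 34825) (.g (nat_lit 1110) (.e (nat_lit 1212) (nat_lit 89) (.e (nat_lit 73782) (nat_lit 32) (.e (nat_lit 2856) (nat_lit 184) (.e (nat_lit 426530) (nat_lit 27) (.e (nat_lit 335874) (nat_lit 0) .nil))))) .nil)) 
(.lf (nat_lit 34857) (.g (nat_lit 1371) (.e (nat_lit 1212) (nat_lit 89) (.e (nat_lit 73782) (nat_lit 32) (.e (nat_lit 3089) (nat_lit 191) (.e (nat_lit 483393) (nat_lit 23) (.e (nat_lit 336033) (nat_lit 4) .nil))))) .nil))) (.nd (nat_lit 5) 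
(.lf (nat_lit 34841) (.g (nat_lit 2390) (.e (nat_lit 1212) (nat_lit 89) (.e (nat_lit 73782) (nat_lit 32) (.e (nat_lit 2857) (nat_lit 184) (.e (nat_lit 426544) (nat_lit 30) (.e (nat_lit 360457) (nat_lit 0) (.e (nat_lit 5818) (nat_lit 320) .nil)))))) (.g (nat_lit 0) .nil .nil))) 
(.lf (nat_lit 34873) (.g (nat_lit 1319) (.e (nat_lit 1212) (nat_lit 89) (.e (nat_lit 73782) (nat_lit 32) (.e (nat_lit 3090) (nat_lit 191) (.e (nat_lit 483393) (nat_lit 23) .nil)))) .nil))))) (.nd (nat_lit 3) (.nd (nat_lit 4) (.nd (nat_lit 5) 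
(.lf (nat_lit 34821) (.g (nat_lit 2028) (.e (nat_lit 1212) (nat_lit 89) (.e (nat_lit 73782) (nat_lit 32) (.e (nat_lit 2855) (nat_lit 184) (.e (nat_lit 426555) (nat_lit 32) (.e (nat_lit 376870) (nat_lit 24) .nil))))) .nil)) 
(.lf (nat_lit 34853) (.g (nat_lit 1566) (.e (nat_lit 1212) (nat_lit 89) (.e (nat_lit 73782) (nat_lit 32) (.e (nat_lit 3089) (nat_lit 191) (.e (nat_lit 483386) (nat_lit 23) (.e (nat_lit 336030) (nat_lit 4) .nil))))) .nil))) (.nd (nat_lit 5) 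
(.lf (nat_lit 34837) (.g (nat_lit 2243) (.e (nat_lit 1212) (nat_lit 89) (.e (nat_lit 73782) (nat_lit 32) (.e (nat_lit 2857) (nat_lit 184) (.e (nat_lit 426542) (nat_lit 29) (.e (nat_lit 352317) (nat_lit 24) (.e (nat_lit 123182) (nat_lit 264) .nil)))))) (.g (nat_lit 5) .nil .nil))) 
(.lf (nat_lit 34869) (.g (nat_lit 1842) (.e (nat_lit 1212) (nat_lit 89) (.e (nat_lit 73782) (nat_lit 32) (.e (nat_lit 3090) (nat_lit 191) (.e (nat_lit 483386) (nat_lit 23) (.e (nat_lit 336030) (nat_lit 4) (.e (nat_lit 123185) (nat_lit 264) .nil)))))) (.g (nat_lit 0) .nil .nil))))) (.nd (nat_lit 4) (.nd (nat_lit 5) 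
(.lf (nat_lit 34829) (.g (nat_lit 2248) (.e (nat_lit 1212) (nat_lit 89) (.e (nat_lit 73782) (nat_lit 32) (.e (nat_lit 2856) (nat_lit 184) (.e (nat_lit 426546) (nat_lit 30) (.e (nat_lit 360456) (nat_lit 0) (.e (nat_lit 5818) (nat_lit 320) .nil)))))) (.g (nat_lit 0) .nil .nil))) 
(.lf (nat_lit 34861) (.g (nat_lit 1698) (.e (nat_lit 1212) (nat_lit 89) (.e (nat_lit 73782) (nat_lit 32) (.e (nat_lit 3090) (nat_lit 191) (.e (nat_lit 483350) (nat_lit 17) (.e (nat_lit 6097) (nat_lit 332) .nil))))) .nil))) (.nd (nat_lit 5) 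
(.lf (nat_lit 34845) (.g (nat_lit 1443) (.e (nat_lit 1212) (nat_lit 89) (.e (nat_lit 73782) (nat_lit 32) (.e (nat_lit 3087) (nat_lit 191) (.e (nat_lit 483393) (nat_lit 23) (.e (nat_lit 335988) (nat_lit 1) (.e (nat_lit 65280) (nat_lit 264) .nil)))))) (.g (nat_lit 4) .nil .nil))) 
(.lf (nat_lit 34877) (.g (nat_lit 1068) (.e (nat_lit 1212) (nat_lit 89) (.e (nat_lit 73782) (nat_lit 32) (.e (nat_lit 3090) (nat_lit 191) (.e (nat_lit 483396) (nat_lit 24) .nil)))) .nil)))))) (.nd (nat_lit 2) (.nd (nat_lit 3) (.nd (nat_lit 4) (.nd (nat_lit 5) 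
(.lf (nat_lit 34819) (.g (nat_lit 2286) (.e (nat_lit 1212) (nat_lit 89) (.e (nat_lit 73782) (nat_lit 32) (.e (nat_lit 2855) (nat_lit 184) (.e (nat_lit 426542) (nat_lit 29) (.e (nat_lit 352318) (nat_lit 24) (.e (nat_lit 123185) (nat_lit 264) .nil)))))) (.g (nat_lit 0) .nil .nil))) 
(.lf (nat_lit 34851) (.g (nat_lit 1563) (.e (nat_lit 1212) (nat_lit 89) (.e (nat_lit 73782) (nat_lit 32) (.e (nat_lit 3088) (nat_lit 191) (.e (nat_lit 483394) (nat_lit 24) (.e (nat_lit 344104) (nat_lit 18) (.e (nat_lit 5818) (nat_lit 320) .nil)))))) (.g (nat_lit 4) .nil .nil)))) (.nd (nat_lit 5) 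
(.lf (nat_lit 34835) (.g (nat_lit 3030) (.e (nat_lit 1212) (nat_lit 89) (.e (nat_lit 73782) (nat_lit 32) (.e (nat_lit 2857) (nat_lit 184) (.e (nat_lit 426542) (nat_lit 29) (.e (nat_lit 352316) (nat_lit 24) (.e (nat_lit 123184) (nat_lit 264) .nil)))))) (.g (nat_lit 0) .nil .nil))) 
(.lf (nat_lit 34867) (.g (nat_lit 2059) (.e (nat_lit 1212) (nat_lit 89) (.e (nat_lit 73782) (nat_lit 32) (.e (nat_lit 3090) (nat_lit 191) (.e (nat_lit 483380) (nat_lit 23) (.e (nat_lit 336036) (nat_lit 4) .nil))))) .nil)))) (.nd (nat_lit 4) (.nd (nat_lit 5) 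
(.lf (nat_lit 34827) (.g (nat_lit 2116) (.e (nat_lit 1212) (nat_lit 89) (.e (nat_lit 73782) (nat_lit 32) (.e (nat_lit 2856) (nat_lit 184) (.e (nat_lit 426544) (nat_lit 30) (.e (nat_lit 360456) (nat_lit 0) (.e (nat_lit 5818) (nat_lit 320) .nil)))))) (.g (nat_lit 5) .nil .nil))) 
(.lf (nat_lit 34859) (.g (nat_lit 1513) (.e (nat_lit 1212) (nat_lit 89) (.e (nat_lit 73782) (nat_lit 32) (.e (nat_lit 3089) (nat_lit 191) (.e (nat_lit 483396) (nat_lit 24) (.e (nat_lit 344104) (nat_lit 18) .nil))))) .nil))) (.nd (nat_lit 5) 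
(.lf (nat_lit 34843) (.g (nat_lit 1160) (.e (nat_lit 1212) (nat_lit 89) (.e (nat_lit 73782) (nat_lit 32) (.e (nat_lit 3067) (nat_lit 190) (.e (nat_lit 483072) (nat_lit 12) .nil)))) .nil)) 
(.lf (nat_lit 34875) (.g (nat_lit 1778) (.e (nat_lit 1212) (nat_lit 89) (.e (nat_lit 73782) (nat_lit 32) (.e (nat_lit 3090) (nat_lit 191) (.e (nat_lit 483394) (nat_lit 24) (.e (nat_lit 344104) (nat_lit 18) (.e (nat_lit 5818) (nat_lit 320) .nil)))))) (.g (nat_lit 4) .nil .nil)))))) (.nd (nat_lit 3) (.nd (nat_lit 4) (.nd (nat_lit 5) 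
(.lf (nat_lit 34823) (.g (nat_lit 336) (.e (nat_lit 1212) (nat_lit 89) (.e (nat_lit 73782) (nat_lit 32) (.e (nat_lit 2856) (nat_lit 184) .nil))) .nil)) 
(.lf (nat_lit 34855) (.g (nat_lit 1223) (.e (nat_lit 1212) (nat_lit 89) (.e (nat_lit 73782) (nat_lit 32) (.e (nat_lit 3089) (nat_lit 191) (.e (nat_lit 483393) (nat_lit 23) (.e (nat_lit 335987) (nat_lit 1) .nil))))) .nil))) (.nd (nat_lit 5) 
(.lf (nat_lit 34839) (.g (nat_lit 2692) (.e (nat_lit 1212) (nat_lit 89) (.e (nat_lit 73782) (nat_lit 32) (.e (nat_lit 2857) (nat_lit 184) (.e (nat_lit 426542) (nat_lit 29) (.e (nat_lit 352318) (nat_lit 24) (.e (nat_lit 123185) (nat_lit 264) .nil)))))) (.g (nat_lit 0) .nil .nil))) 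
(.lf (nat_lit 34871) (.g (nat_lit 1572) (.e (nat_lit 1212) (nat_lit 89) (.e (nat_lit 73782) (nat_lit 32) (.e (nat_lit 3090) (nat_lit 191) (.e (nat_lit 483388) (nat_lit 23) (.e (nat_lit 336032) (nat_lit 4) .nil))))) .nil)))) (.nd (nat_lit 4) (.nd (nat_lit 5) 
(.lf (nat_lit 34831) (.g (nat_lit 1714) (.e (nat_lit 1212) (nat_lit 89) (.e (nat_lit 73782) (nat_lit 32) (.e (nat_lit 2856) (nat_lit 184) (.e (nat_lit 426555) (nat_lit 32) (.e (nat_lit 376860) (nat_lit 21) .nil))))) .nil)) 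
(.lf (nat_lit 34863) (.g (nat_lit 1735) (.e (nat_lit 1212) (nat_lit 89) (.e (nat_lit 73782) (nat_lit 32) (.e (nat_lit 3090) (nat_lit 191) (.e (nat_lit 483350) (nat_lit 17) (.e (nat_lit 6113) (nat_lit 332) .nil))))) .nil))) (.nd (nat_lit 5) 
(.lf (nat_lit 34847) (.g (nat_lit 1129) (.e (nat_lit 1212) (nat_lit 89) (.e (nat_lit 73782) (nat_lit 32) (.e (nat_lit 3088) (nat_lit 191) (.e (nat_lit 483377) (nat_lit 22) .nil)))) .nil)) 
(.lf (nat_lit 34879) (.g (nat_lit 1830) (.e (nat_lit 1212) (nat_lit 89) (.e (nat_lit 81664) (nat_lit 35) (.e (nat_lit 163962) (nat_lit 25) (.e (nat_lit 532547) (nat_lit 11) (.e (nat_lit 352318) (nat_lit 24) (.e (nat_lit 130816) (nat_lit 140) .nil)))))) (.g (nat_lit 5) .nil .nil)))))))))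

noncomputable def tv487 : DT := (.nd (nat_lit 0) (.nd (nat_lit 1) (.nd (nat_lit 2) (.nd (nat_lit 3) (.nd (nat_lit 4) (.nd (nat_lit 5) 
(.lf (nat_lit 34880) (.g (nat_lit 1023) (.e (nat_lit 1212) (nat_lit 89) (.e (nat_lit 81664) (nat_lit 36) (.e (nat_lit 172150) (nat_lit 27) (.e (nat_lit 336070) (nat_lit 8) (.e (nat_lit 327692) (nat_lit 1) (.e (nat_lit 8432) (nat_lit 138) .nil)))))) (.g (nat_lit 4) .nil .nil))) 
(.lf (nat_lit 34912) (.g (nat_lit 2568) (.e (nat_lit 1212) (nat_lit 89) (.e (nat_lit 73789) (nat_lit 45) (.e (nat_lit 1386) (nat_lit 105) (.e (nat_lit 311358) (nat_lit 29) (.e (nat_lit 352318) (nat_lit 24) (.e (nat_lit 123183) (nat_lit 264) .nil)))))) (.g (nat_lit 0) .nil .nil)))) (.nd (nat_lit 5) 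
(.lf (nat_lit 34896) (.g (nat_lit 1310) (.e (nat_lit 1212) (nat_lit 89) (.e (nat_lit 73789) (nat_lit 45) (.e (nat_lit 1340) (nat_lit 101) (.e (nat_lit 278529) (nat_lit 0) (.e (nat_lit 5770) (nat_lit 316) (.e (nat_lit 172070) (nat_lit 4) (.e (nat_lit 229629) (nat_lit 226) .nil))))))) (.g (nat_lit 4) .nil .nil))) 
(.lf (nat_lit 34928) (.g (nat_lit 2000) (.e (nat_lit 1213) (nat_lit 89) (.e (nat_lit 73755) (nat_lit 8) (.e (nat_lit 557097) (nat_lit 13) (.e (nat_lit 172133) (nat_lit 15) (.e (nat_lit 2175) (nat_lit 143) .nil))))) .nil)))) (.nd (nat_lit 4) (.nd (nat_lit 5) 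
(.lf (nat_lit 34888) (.g (nat_lit 1644) (.e (nat_lit 1212) (nat_lit 89) (.e (nat_lit 73787) (nat_lit 45) (.e (nat_lit 1378) (nat_lit 104) (.e (nat_lit 303155) (nat_lit 29) (.e (nat_lit 352316) (nat_lit 24) (.e (nat_lit 123183) (nat_lit 264) .nil)))))) (.g (nat_lit 0) .nil .nil))) 
(.lf (nat_lit 34920) (.g (nat_lit 1215) (.e (nat_lit 1212) (nat_lit 89) (.e (nat_lit 73795) (nat_lit 47) (.e (nat_lit 123165) (nat_lit 256) (.e (nat_lit 318) (nat_lit 23) (.e (nat_lit 352316) (nat_lit 24) (.e (nat_lit 123185) (nat_lit 264) .nil)))))) (.g (nat_lit 0) .nil .nil)))) (.nd (nat_lit 5) 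
(.lf (nat_lit 34904) (.g (nat_lit 1422) (.e (nat_lit 1212) (nat_lit 89) (.e (nat_lit 73789) (nat_lit 45) (.e (nat_lit 1383) (nat_lit 105) (.e (nat_lit 311358) (nat_lit 29) (.e (nat_lit 352317) (nat_lit 24) (.e (nat_lit 123183) (nat_lit 264) .nil)))))) (.g (nat_lit 0) .nil .nil))) 
(.lf (nat_lit 34936) (.g (nat_lit 1823) (.e (nat_lit 1213) (nat_lit 89) (.e (nat_lit 73755) (nat_lit 8) (.e (nat_lit 557104) (nat_lit 14) (.e (nat_lit 180229) (nat_lit 0) .nil)))) .nil))))) (.nd (nat_lit 3) (.nd (nat_lit 4) (.nd (nat_lit 5) 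
(.lf (nat_lit 34884) (.g (nat_lit 1961) (.e (nat_lit 1212) (nat_lit 89) (.e (nat_lit 73787) (nat_lit 45) (.e (nat_lit 1374) (nat_lit 104) (.e (nat_lit 303155) (nat_lit 29) (.e (nat_lit 352316) (nat_lit 24) (.e (nat_lit 123184) (nat_lit 264) .nil)))))) (.g (nat_lit 0) .nil .nil))) 
(.lf (nat_lit 34916) (.g (nat_lit 1567) (.e (nat_lit 1212) (nat_lit 89) (.e (nat_lit 73794) (nat_lit 46) (.e (nat_lit 57864) (nat_lit 256) (.e (nat_lit 317) (nat_lit 23) (.e (nat_lit 352316) (nat_lit 24) (.e (nat_lit 123184) (nat_lit 264) .nil)))))) (.g (nat_lit 0) .nil .nil)))) (.nd (nat_lit 5) 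
(.lf (nat_lit 34900) (.g (nat_lit 337) (.e (nat_lit 1212) (nat_lit 89) (.e (nat_lit 73789) (nat_lit 45) (.e (nat_lit 7936) (nat_lit 104) .nil))) .nil)) 
(.lf (nat_lit 34932) (.g (nat_lit 2292) (.e (nat_lit 1213) (nat_lit 89) (.e (nat_lit 73755) (nat_lit 8) (.e (nat_lit 557098) (nat_lit 13) (.e (nat_lit 172133) (nat_lit 15) (.e (nat_lit 2059) (nat_lit 142) .nil))))) .nil)))) (.nd (nat_lit 4) (.nd (nat_lit 5) 
(.lf (nat_lit 34892) (.g (nat_lit 1211) (.e (nat_lit 1212) (nat_lit 89) (.e (nat_lit 73787) (nat_lit 45) (.e (nat_lit 1379) (nat_lit 104) (.e (nat_lit 303155) (nat_lit 29) (.e (nat_lit 352316) (nat_lit 24) (.e (nat_lit 123185) (nat_lit 264) .nil)))))) (.g (nat_lit 0) .nil .nil))) 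
(.lf (nat_lit 34924) (.g (nat_lit 2526) (.e (nat_lit 1213) (nat_lit 89) (.e (nat_lit 73755) (nat_lit 8) (.e (nat_lit 557067) (nat_lit 9) (.e (nat_lit 3096) (nat_lit 192) .nil)))) .nil))) (.nd (nat_lit 5) 
(.lf (nat_lit 34908) (.g (nat_lit 2433) (.e (nat_lit 1212) (nat_lit 89) (.e (nat_lit 73789) (nat_lit 45) (.e (nat_lit 1385) (nat_lit 105) (.e (nat_lit 311358) (nat_lit 29) (.e (nat_lit 352316) (nat_lit 24) (.e (nat_lit 123183) (nat_lit 264) .nil)))))) (.g (nat_lit 0) .nil .nil))) 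
(.lf (nat_lit 34940) (.g (nat_lit 1914) (.e (nat_lit 1213) (nat_lit 89) (.e (nat_lit 73755) (nat_lit 8) (.e (nat_lit 557104) (nat_lit 14) (.e (nat_lit 180261) (nat_lit 20) .nil)))) .nil)))))) (.nd (nat_lit 2) (.nd (nat_lit 3) (.nd (nat_lit 4) (.nd (nat_lit 5) 
(.lf (nat_lit 34882) (.g (nat_lit 1197) (.e (nat_lit 1212) (nat_lit 89) (.e (nat_lit 73786) (nat_lit 45) (.e (nat_lit 1374) (nat_lit 104) (.e (nat_lit 303155) (nat_lit 29) (.e (nat_lit 352316) (nat_lit 24) (.e (nat_lit 123185) (nat_lit 264) .nil)))))) (.g (nat_lit 4) .nil .nil))) 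
(.lf (nat_lit 34914) (.g (nat_lit 1562) (.e (nat_lit 1212) (nat_lit 89) (.e (nat_lit 73794) (nat_lit 46) (.e (nat_lit 57862) (nat_lit 256) (.e (nat_lit 317) (nat_lit 23) (.e (nat_lit 352316) (nat_lit 24) (.e (nat_lit 123184) (nat_lit 264) .nil)))))) (.g (nat_lit 0) .nil .nil)))) (.nd (nat_lit 5) 
(.lf (nat_lit 34898) (.g (nat_lit 200) (.e (nat_lit 1212) (nat_lit 89) (.e (nat_lit 73789) (nat_lit 45) (.e (nat_lit 1342) (nat_lit 101) .nil))) .nil)) 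
(.lf (nat_lit 34930) (.g (nat_lit 2142) (.e (nat_lit 1213) (nat_lit 89) (.e (nat_lit 73755) (nat_lit 8) (.e (nat_lit 557098) (nat_lit 13) (.e (nat_lit 172061) (nat_lit 1) .nil)))) .nil)))) (.nd (nat_lit 4) (.nd (nat_lit 5) 
(.lf (nat_lit 34890) (.g (nat_lit 1243) (.e (nat_lit 1212) (nat_lit 89) (.e (nat_lit 73787) (nat_lit 45) (.e (nat_lit 1378) (nat_lit 104) (.e (nat_lit 303155) (nat_lit 29) (.e (nat_lit 352316) (nat_lit 24) (.e (nat_lit 123185) (nat_lit 264) .nil)))))) (.g (nat_lit 0) .nil .nil))) 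
(.lf (nat_lit 34922) (.g (nat_lit 2586) (.e (nat_lit 1213) (nat_lit 89) (.e (nat_lit 73754) (nat_lit 8) (.e (nat_lit 557094) (nat_lit 12) (.e (nat_lit 164238) (nat_lit 187) (.e (nat_lit 1661) (nat_lit 115) (.e (nat_lit 393251) (nat_lit 18) (.e (nat_lit 164148) (nat_lit 152) .nil))))))) (.g (nat_lit 5) .nil .nil)))) (.nd (nat_lit 5) 
(.lf (nat_lit 34906) (.g (nat_lit 2043) (.e (nat_lit 1212) (nat_lit 89) (.e (nat_lit 73789) (nat_lit 45) (.e (nat_lit 1384) (nat_lit 105) (.e (nat_lit 311358) (nat_lit 29) (.e (nat_lit 352316) (nat_lit 24) (.e (nat_lit 123183) (nat_lit 264) .nil)))))) (.g (nat_lit 0) .nil .nil))) 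
(.lf (nat_lit 34938) (.g (nat_lit 2614) (.e (nat_lit 1213) (nat_lit 89) (.e (nat_lit 73755) (nat_lit 8) (.e (nat_lit 557104) (nat_lit 14) (.e (nat_lit 180229) (nat_lit 0) (.e (nat_lit 5548) (nat_lit 306) (.e (nat_lit 2640) (nat_lit 165) (.e (nat_lit 180227) (nat_lit 0) (.e (nat_lit 6250) (nat_lit 337) .nil)))))))) (.g (nat_lit 4) .nil .nil)))))) (.nd (nat_lit 3) (.nd (nat_lit 4) (.nd (nat_lit 5) 
(.lf (nat_lit 34886) (.g (nat_lit 1669) (.e (nat_lit 1212) (nat_lit 89) (.e (nat_lit 73787) (nat_lit 45) (.e (nat_lit 1376) (nat_lit 104) (.e (nat_lit 303155) (nat_lit 29) (.e (nat_lit 352316) (nat_lit 24) (.e (nat_lit 123183) (nat_lit 264) .nil)))))) (.g (nat_lit 0) .nil .nil))) 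
(.lf (nat_lit 34918) (.g (nat_lit 1513) (.e (nat_lit 1212) (nat_lit 89) (.e (nat_lit 73795) (nat_lit 47) (.e (nat_lit 123163) (nat_lit 256) (.e (nat_lit 318) (nat_lit 23) (.e (nat_lit 352316) (nat_lit 24) (.e (nat_lit 123184) (nat_lit 264) .nil)))))) (.g (nat_lit 0) .nil .nil)))) (.nd (nat_lit 5) 
(.lf (nat_lit 34902) (.g (nat_lit 2039) (.e (nat_lit 1212) (nat_lit 89) (.e (nat_lit 73789) (nat_lit 45) (.e (nat_lit 1383) (nat_lit 105) (.e (nat_lit 311358) (nat_lit 29) (.e (nat_lit 352316) (nat_lit 24) (.e (nat_lit 123183) (nat_lit 264) .nil)))))) (.g (nat_lit 0) .nil .nil))) 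
(.lf (nat_lit 34934) (.g (nat_lit 2203) (.e (nat_lit 1213) (nat_lit 89) (.e (nat_lit 73755) (nat_lit 8) (.e (nat_lit 557103) (nat_lit 14) (.e (nat_lit 180261) (nat_lit 20) .nil)))) .nil)))) (.nd (nat_lit 4) (.nd (nat_lit 5) 
(.lf (nat_lit 34894) (.g (nat_lit 1038) (.e (nat_lit 1212) (nat_lit 89) (.e (nat_lit 73788) (nat_lit 45) (.e (nat_lit 1386) (nat_lit 105) (.e (nat_lit 311358) (nat_lit 29) (.e (nat_lit 352318) (nat_lit 24) (.e (nat_lit 123185) (nat_lit 264) .nil)))))) (.g (nat_lit 4) .nil .nil))) 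
(.lf (nat_lit 34926) (.g (nat_lit 2825) (.e (nat_lit 1213) (nat_lit 89) (.e (nat_lit 73755) (nat_lit 8) (.e (nat_lit 557090) (nat_lit 12) (.e (nat_lit 164238) (nat_lit 187) (.e (nat_lit 1661) (nat_lit 115) .nil))))) .nil))) (.nd (nat_lit 5) 
(.lf (nat_lit 34910) (.g (nat_lit 2631) (.e (nat_lit 1212) (nat_lit 89) (.e (nat_lit 73789) (nat_lit 45) (.e (nat_lit 1385) (nat_lit 105) (.e (nat_lit 311358) (nat_lit 29) (.e (nat_lit 352318) (nat_lit 24) (.e (nat_lit 123183) (nat_lit 264) .nil)))))) (.g (nat_lit 0) .nil .nil))) 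
(.lf (nat_lit 34942) (.g (nat_lit 1296) (.e (nat_lit 1213) (nat_lit 89) (.e (nat_lit 73755) (nat_lit 8) (.e (nat_lit 557105) (nat_lit 14) (.e (nat_lit 180265) (nat_lit 21) .nil)))) .nil))))))) (.nd (nat_lit 1) (.nd (nat_lit 2) (.nd (nat_lit 3) (.nd (nat_lit 4) (.nd (nat_lit 5) 
(.lf (nat_lit 34881) (.g (nat_lit 1185) (.e (nat_lit 1212) (nat_lit 89) (.e (nat_lit 81664) (nat_lit 36) (.e (nat_lit 172150) (nat_lit 27) (.e (nat_lit 336070) (nat_lit 8) (.e (nat_lit 327692) (nat_lit 1) (.e (nat_lit 8433) (nat_lit 138) .nil)))))) (.g (nat_lit 4) .nil .nil))) 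
(.lf (nat_lit 34913) (.g (nat_lit 985) (.e (nat_lit 1212) (nat_lit 89) (.e (nat_lit 73792) (nat_lit 45) (.e (nat_lit 1386) (nat_lit 105) (.e (nat_lit 319232) (nat_lit 30) .nil)))) .nil))) (.nd (nat_lit 5) 
(.lf (nat_lit 34897) (.g (nat_lit 1275) (.e (nat_lit 1212) (nat_lit 89) (.e (nat_lit 73789) (nat_lit 45) (.e (nat_lit 1340) (nat_lit 101) (.e (nat_lit 278531) (nat_lit 0) (.e (nat_lit 5779) (nat_lit 317) (.e (nat_lit 188160) (nat_lit 0) (.e (nat_lit 5057) (nat_lit 292) .nil))))))) (.g (nat_lit 5) .nil .nil))) 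
(.lf (nat_lit 34929) (.g (nat_lit 615) (.e (nat_lit 1213) (nat_lit 89) (.e (nat_lit 73755) (nat_lit 8) (.e (nat_lit 557098) (nat_lit 13) .nil))) .nil)))) (.nd (nat_lit 4) (.nd (nat_lit 5) 
(.lf (nat_lit 34889) (.g (nat_lit 1581) (.e (nat_lit 1212) (nat_lit 89) (.e (nat_lit 73787) (nat_lit 45) (.e (nat_lit 1378) (nat_lit 104) (.e (nat_lit 303155) (nat_lit 29) (.e (nat_lit 352316) (nat_lit 24) (.e (nat_lit 123184) (nat_lit 264) .nil)))))) (.g (nat_lit 0) .nil .nil))) 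
(.lf (nat_lit 34921) (.g (nat_lit 1117) (.e (nat_lit 1212) (nat_lit 89) (.e (nat_lit 73795) (nat_lit 47) (.e (nat_lit 123165) (nat_lit 256) (.e (nat_lit 323) (nat_lit 24) (.e (nat_lit 360456) (nat_lit 0) (.e (nat_lit 5818) (nat_lit 320) .nil)))))) (.g (nat_lit 0) .nil .nil)))) (.nd (nat_lit 5) 
(.lf (nat_lit 34905) (.g (nat_lit 2279) (.e (nat_lit 1212) (nat_lit 89) (.e (nat_lit 73789) (nat_lit 45) (.e (nat_lit 1383) (nat_lit 105) (.e (nat_lit 311358) (nat_lit 29) (.e (nat_lit 352318) (nat_lit 24) (.e (nat_lit 123183) (nat_lit 264) .nil)))))) (.g (nat_lit 0) .nil .nil))) 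
(.lf (nat_lit 34937) (.g (nat_lit 2414) (.e (nat_lit 1213) (nat_lit 89) (.e (nat_lit 73755) (nat_lit 8) (.e (nat_lit 557104) (nat_lit 14) (.e (nat_lit 180229) (nat_lit 0) (.e (nat_lit 5224) (nat_lit 296) .nil))))) .nil))))) (.nd (nat_lit 3) (.nd (nat_lit 4) (.nd (nat_lit 5) 
(.lf (nat_lit 34885) (.g (nat_lit 1623) (.e (nat_lit 1212) (nat_lit 89) (.e (nat_lit 73787) (nat_lit 45) (.e (nat_lit 1374) (nat_lit 104) (.e (nat_lit 303155) (nat_lit 29) (.e (nat_lit 352316) (nat_lit 24) (.e (nat_lit 123185) (nat_lit 264) .nil)))))) (.g (nat_lit 0) .nil .nil))) 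
(.lf (nat_lit 34917) (.g (nat_lit 1223) (.e (nat_lit 1212) (nat_lit 89) (.e (nat_lit 73794) (nat_lit 46) (.e (nat_lit 57864) (nat_lit 256) (.e (nat_lit 317) (nat_lit 23) (.e (nat_lit 352316) (nat_lit 24) (.e (nat_lit 123185) (nat_lit 264) .nil)))))) (.g (nat_lit 0) .nil .nil)))) (.nd (nat_lit 5) 
(.lf (nat_lit 34901) (.g (nat_lit 2143) (.e (nat_lit 1212) (nat_lit 89) (.e (nat_lit 73789) (nat_lit 45) (.e (nat_lit 1383) (nat_lit 105) (.e (nat_lit 311358) (nat_lit 29) (.e (nat_lit 352316) (nat_lit 24) (.e (nat_lit 123182) (nat_lit 264) .nil)))))) (.g (nat_lit 0) .nil .nil))) 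
(.lf (nat_lit 34933) (.g (nat_lit 2424) (.e (nat_lit 1213) (nat_lit 89) (.e (nat_lit 73755) (nat_lit 8) (.e (nat_lit 557098) (nat_lit 13) (.e (nat_lit 172133) (nat_lit 15) (.e (nat_lit 2175) (nat_lit 143) .nil))))) .nil)))) (.nd (nat_lit 4) (.nd (nat_lit 5) 
(.lf (nat_lit 34893) (.g (nat_lit 901) (.e (nat_lit 1212) (nat_lit 89) (.e (nat_lit 73788) (nat_lit 45) (.e (nat_lit 1386) (nat_lit 105) (.e (nat_lit 311358) (nat_lit 29) (.e (nat_lit 352316) (nat_lit 24) (.e (nat_lit 123185) (nat_lit 264) .nil)))))) (.g (nat_lit 4) .nil .nil))) 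
(.lf (nat_lit 34925) (.g (nat_lit 2360) (.e (nat_lit 1213) (nat_lit 89) (.e (nat_lit 73755) (nat_lit 8) (.e (nat_lit 557090) (nat_lit 12) (.e (nat_lit 164238) (nat_lit 187) .nil)))) .nil))) (.nd (nat_lit 5) 
(.lf (nat_lit 34909) (.g (nat_lit 2361) (.e (nat_lit 1212) (nat_lit 89) (.e (nat_lit 73789) (nat_lit 45) (.e (nat_lit 1385) (nat_lit 105) (.e (nat_lit 311358) (nat_lit 29) (.e (nat_lit 352316) (nat_lit 24) (.e (nat_lit 123184) (nat_lit 264) .nil)))))) (.g (nat_lit 0) .nil .nil))) 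
(.lf (nat_lit 34941) (.g (nat_lit 2375) (.e (nat_lit 1213) (nat_lit 89) (.e (nat_lit 73755) (nat_lit 8) (.e (nat_lit 557105) (nat_lit 14) (.e (nat_lit 180261) (nat_lit 20) (.e (nat_lit 655364) (nat_lit 0) .nil))))) .nil)))))) (.nd (nat_lit 2) (.nd (nat_lit 3) (.nd (nat_lit 4) (.nd (nat_lit 5) 
(.lf (nat_lit 34883) (.g (nat_lit 2023) (.e (nat_lit 1212) (nat_lit 89) (.e (nat_lit 73787) (nat_lit 45) (.e (nat_lit 1374) (nat_lit 104) (.e (nat_lit 303155) (nat_lit 29) (.e (nat_lit 352316) (nat_lit 24) (.e (nat_lit 123183) (nat_lit 264) .nil)))))) (.g (nat_lit 0) .nil .nil))) 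
(.lf (nat_lit 34915) (.g (nat_lit 1221) (.e (nat_lit 1212) (nat_lit 89) (.e (nat_lit 73794) (nat_lit 46) (.e (nat_lit 57862) (nat_lit 256) (.e (nat_lit 317) (nat_lit 23) (.e (nat_lit 352316) (nat_lit 24) (.e (nat_lit 123185) (nat_lit 264) .nil)))))) (.g (nat_lit 0) .nil .nil)))) (.nd (nat_lit 5) 
(.lf (nat_lit 34899) (.g (nat_lit 1341) (.e (nat_lit 1212) (nat_lit 89) (.e (nat_lit 73789) (nat_lit 45) (.e (nat_lit 1342) (nat_lit 101) (.e (nat_lit 278529) (nat_lit 0) (.e (nat_lit 5779) (nat_lit 317) (.e (nat_lit 188160) (nat_lit 0) (.e (nat_lit 5057) (nat_lit 292) .nil))))))) (.g (nat_lit 5) .nil .nil))) 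
(.lf (nat_lit 34931) (.g (nat_lit 2533) (.e (nat_lit 1213) (nat_lit 89) (.e (nat_lit 73755) (nat_lit 8) (.e (nat_lit 557098) (nat_lit 13) (.e (nat_lit 172061) (nat_lit 1) (.e (nat_lit 164327) (nat_lit 230) .nil))))) .nil)))) (.nd (nat_lit 4) (.nd (nat_lit 5) 
(.lf (nat_lit 34891) (.g (nat_lit 1612) (.e (nat_lit 1212) (nat_lit 89) (.e (nat_lit 73787) (nat_lit 45) (.e (nat_lit 1379) (nat_lit 104) (.e (nat_lit 303155) (nat_lit 29) (.e (nat_lit 352316) (nat_lit 24) (.e (nat_lit 123183) (nat_lit 264) .nil)))))) (.g (nat_lit 0) .nil .nil))) 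
(.lf (nat_lit 34923) (.g (nat_lit 2007) (.e (nat_lit 1213) (nat_lit 89) (.e (nat_lit 73754) (nat_lit 8) (.e (nat_lit 557105) (nat_lit 14) (.e (nat_lit 180261) (nat_lit 20) .nil)))) .nil))) (.nd (nat_lit 5) 
(.lf (nat_lit 34907) (.g (nat_lit 189) (.e (nat_lit 1212) (nat_lit 89) (.e (nat_lit 73789) (nat_lit 45) (.e (nat_lit 1385) (nat_lit 105) .nil))) .nil)) 
(.lf (nat_lit 34939) (.g (nat_lit 1557) (.e (nat_lit 1213) (nat_lit 89) (.e (nat_lit 73755) (nat_lit 8) (.e (nat_lit 557104) (nat_lit 14) (.e (nat_lit 180233) (nat_lit 0) .nil)))) .nil))))) (.nd (nat_lit 3) (.nd (nat_lit 4) (.nd (nat_lit 5) 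
(.lf (nat_lit 34887) (.g (nat_lit 1254) (.e (nat_lit 1212) (nat_lit 89) (.e (nat_lit 73787) (nat_lit 45) (.e (nat_lit 1376) (nat_lit 104) (.e (nat_lit 303155) (nat_lit 29) (.e (nat_lit 352316) (nat_lit 24) (.e (nat_lit 123185) (nat_lit 264) .nil)))))) (.g (nat_lit 0) .nil .nil))) 
(.lf (nat_lit 34919) (.g (nat_lit 1568) (.e (nat_lit 1212) (nat_lit 89) (.e (nat_lit 73795) (nat_lit 47) (.e (nat_lit 123165) (nat_lit 256) (.e (nat_lit 318) (nat_lit 23) (.e (nat_lit 352316) (nat_lit 24) (.e (nat_lit 123184) (nat_lit 264) .nil)))))) (.g (nat_lit 0) .nil .nil)))) (.nd (nat_lit 5) 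
(.lf (nat_lit 34903) (.g (nat_lit 1996) (.e (nat_lit 1212) (nat_lit 89) (.e (nat_lit 73789) (nat_lit 45) (.e (nat_lit 1383) (nat_lit 105) (.e (nat_lit 311358) (nat_lit 29) (.e (nat_lit 352316) (nat_lit 24) (.e (nat_lit 123184) (nat_lit 264) .nil)))))) (.g (nat_lit 0) .nil .nil))) 
(.lf (nat_lit 34935) (.g (nat_lit 761) (.e (nat_lit 1213) (nat_lit 89) (.e (nat_lit 73755) (nat_lit 8) (.e (nat_lit 557104) (nat_lit 14) .nil))) .nil)))) (.nd (nat_lit 4) (.nd (nat_lit 5) 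
(.lf (nat_lit 34895) (.g (nat_lit 203) (.e (nat_lit 1212) (nat_lit 89) (.e (nat_lit 73789) (nat_lit 45) (.e (nat_lit 1340) (nat_lit 101) .nil))) .nil)) 
(.lf (nat_lit 34927) (.g (nat_lit 1837) (.e (nat_lit 1213) (nat_lit 89) (.e (nat_lit 73755) (nat_lit 8) (.e (nat_lit 557091) (nat_lit 12) (.e (nat_lit 164238) (nat_lit 187) (.e (nat_lit 1660) (nat_lit 115) .nil))))) .nil))) (.nd (nat_lit 5) 
(.lf (nat_lit 34911) (.g (nat_lit 2374) (.e (nat_lit 1212) (nat_lit 89) (.e (nat_lit 73789) (nat_lit 45) (.e (nat_lit 1386) (nat_lit 105) (.e (nat_lit 311358) (nat_lit 29) (.e (nat_lit 352316) (nat_lit 24) (.e (nat_lit 123183) (nat_lit 264) .nil)))))) (.g (nat_lit 0) .nil .nil))) 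
(.lf (nat_lit 34943) (.g (nat_lit 2770) (.e (nat_lit 1213) (nat_lit 89) (.e (nat_lit 73775) (nat_lit 26) (.e (nat_lit 778362) (nat_lit 9) (.e (nat_lit 297) (nat_lit 22) (.e (nat_lit 344132) (nat_lit 26) .nil))))) .nil))))))))

noncomputable def tv488 : DT := (.nd (nat_lit 0) (.nd (nat_lit 1) (.nd (nat_lit 2) (.nd (nat_lit 3) (.nd (nat_lit 4) (.nd (nat_lit 5) 
(.lf (nat_lit 34944) (.g (nat_lit 2687) (.e (nat_lit 1213) (nat_lit 89) (.e (nat_lit 73775) (nat_lit 26) (.e (nat_lit 778362) (nat_lit 9) (.e (nat_lit 297) (nat_lit 22) (.e (nat_lit 344133) (nat_lit 26) .nil))))) .nil)) 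
(.lf (nat_lit 34976) (.g (nat_lit 3715) (.e (nat_lit 1214) (nat_lit 89) (.e (nat_lit 73745) (nat_lit 3) (.e (nat_lit 516166) (nat_lit 12) (.e (nat_lit 450588) (nat_lit 10) (.e (nat_lit 573473) (nat_lit 12) .nil))))) .nil))) (.nd (nat_lit 5) 
(.lf (nat_lit 34960) (.g (nat_lit 2604) (.e (nat_lit 1214) (nat_lit 89) (.e (nat_lit 73729) (nat_lit 0) (.e (nat_lit 7125) (nat_lit 382) (.e (nat_lit 1214) (nat_lit 89) (.e (nat_lit 73754) (nat_lit 8) (.e (nat_lit 557105) (nat_lit 14) (.e (nat_lit 180227) (nat_lit 0) (.e (nat_lit 5814) (nat_lit 320) .nil)))))))) (.g (nat_lit 4) .nil .nil))) 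
(.lf (nat_lit 34992) (.g (nat_lit 2029) (.e (nat_lit 1214) (nat_lit 89) (.e (nat_lit 73746) (nat_lit 3) (.e (nat_lit 516146) (nat_lit 9) (.e (nat_lit 426273) (nat_lit 10) (.e (nat_lit 434247) (nat_lit 28) .nil))))) .nil)))) (.nd (nat_lit 4) (.nd (nat_lit 5) 
(.lf (nat_lit 34952) (.g (nat_lit 1657) (.e (nat_lit 1213) (nat_lit 89) (.e (nat_lit 73781) (nat_lit 32) (.e (nat_lit 2856) (nat_lit 184) (.e (nat_lit 426546) (nat_lit 30) .nil)))) .nil)) 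
(.lf (nat_lit 34984) (.g (nat_lit 2670) (.e (nat_lit 1214) (nat_lit 89) (.e (nat_lit 73746) (nat_lit 3) (.e (nat_lit 516129) (nat_lit 3) (.e (nat_lit 221204) (nat_lit 20) (.e (nat_lit 3631) (nat_lit 227) (.e (nat_lit 778323) (nat_lit 5) (.e (nat_lit 73731) (nat_lit 0) (.e (nat_lit 7125) (nat_lit 382) .nil)))))))) (.g (nat_lit 5) .nil .nil)))) (.nd (nat_lit 5) 
(.lf (nat_lit 34968) (.g (nat_lit 2921) (.e (nat_lit 1214) (nat_lit 89) (.e (nat_lit 73729) (nat_lit 0) (.e (nat_lit 7695) (nat_lit 412) (.e (nat_lit 57389) (nat_lit 5) (.e (nat_lit 114719) (nat_lit 23) (.e (nat_lit 98365) (nat_lit 26) (.e (nat_lit 426100) (nat_lit 1) (.e (nat_lit 164380) (nat_lit 254) .nil)))))))) (.g (nat_lit 4) .nil .nil))) 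
(.lf (nat_lit 35000) (.g (nat_lit 5652) (.e (nat_lit 1214) (nat_lit 89) (.e (nat_lit 73746) (nat_lit 3) (.e (nat_lit 516146) (nat_lit 9) (.e (nat_lit 426422) (nat_lit 16) (.e (nat_lit 57692) (nat_lit 156) (.e (nat_lit 163875) (nat_lit 3) (.e (nat_lit 204830) (nat_lit 18) (.e (nat_lit 57830) (nat_lit 250) .nil)))))))) (.g (nat_lit 0) .nil .nil)))))) 
(.nd (nat_lit 3) (.nd (nat_lit 4) (.nd (nat_lit 5) 
(.lf (nat_lit 34948) (.g (nat_lit 2422) (.e (nat_lit 1213) (nat_lit 89) (.e (nat_lit 73781) (nat_lit 32) (.e (nat_lit 2856) (nat_lit 184) (.e (nat_lit 426542) (nat_lit 29) (.e (nat_lit 352316) (nat_lit 24) .nil))))) .nil)) 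
(.lf (nat_lit 34980) (.g (nat_lit 1336) (.e (nat_lit 1214) (nat_lit 89) (.e (nat_lit 73746) (nat_lit 3) (.e (nat_lit 516129) (nat_lit 3) (.e (nat_lit 229120) (nat_lit 1) .nil)))) .nil))) (.nd (nat_lit 5) 
(.lf (nat_lit 34964) (.g (nat_lit 4702) (.e (nat_lit 1214) (nat_lit 89) (.e (nat_lit 73729) (nat_lit 0) (.e (nat_lit 7454) (nat_lit 396) (.e (nat_lit 1221) (nat_lit 90) (.e (nat_lit 81956) (nat_lit 23) (.e (nat_lit 98333) (nat_lit 18) (.e (nat_lit 164155) (nat_lit 152) .nil))))))) (.g (nat_lit 5) .nil .nil))) 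
(.lf (nat_lit 34996) (.g (nat_lit 1566) (.e (nat_lit 1214) (nat_lit 89) (.e (nat_lit 73746) (nat_lit 3) (.e (nat_lit 516146) (nat_lit 9) (.e (nat_lit 426422) (nat_lit 16) .nil)))) .nil)))) (.nd (nat_lit 4) (.nd (nat_lit 5) 
(.lf (nat_lit 34956) (.g (nat_lit 467) (.e (nat_lit 1213) (nat_lit 89) (.e (nat_lit 73782) (nat_lit 32) (.e (nat_lit 2856) (nat_lit 184) .nil))) .nil)) 
(.lf (nat_lit 34988) (.g (nat_lit 1172) (.e (nat_lit 1214) (nat_lit 89) (.e (nat_lit 73746) (nat_lit 3) (.e (nat_lit 516129) (nat_lit 3) (.e (nat_lit 221217) (nat_lit 24) .nil)))) .nil))) (.nd (nat_lit 5) 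
(.lf (nat_lit 34972) (.g (nat_lit 2407) (.e (nat_lit 1214) (nat_lit 89) (.e (nat_lit 73729) (nat_lit 0) (.e (nat_lit 7697) (nat_lit 412) (.e (nat_lit 57389) (nat_lit 5) (.e (nat_lit 114719) (nat_lit 23) (.e (nat_lit 98365) (nat_lit 26) (.e (nat_lit 426100) (nat_lit 1) (.e (nat_lit 164381) (nat_lit 254) .nil)))))))) (.g (nat_lit 4) .nil .nil))) 
(.lf (nat_lit 35004) (.g (nat_lit 3787) (.e (nat_lit 1214) (nat_lit 89) (.e (nat_lit 73746) (nat_lit 3) (.e (nat_lit 516151) (nat_lit 9) (.e (nat_lit 426211) (nat_lit 9) (.e (nat_lit 426125) (nat_lit 2) .nil))))) .nil)))))) (.nd (nat_lit 2) (.nd (nat_lit 3) (.nd (nat_lit 4) (.nd (nat_lit 5) 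
(.lf (nat_lit 34946) (.g (nat_lit 506) (.e (nat_lit 1213) (nat_lit 89) (.e (nat_lit 73781) (nat_lit 32) (.e (nat_lit 2855) (nat_lit 184) .nil))) .nil)) 
(.lf (nat_lit 34978) (.g (nat_lit 503) (.e (nat_lit 1214) (nat_lit 89) (.e (nat_lit 73746) (nat_lit 3) (.e (nat_lit 516127) (nat_lit 2) .nil))) .nil))) (.nd (nat_lit 5) 
(.lf (nat_lit 34962) (.g (nat_lit 4640) (.e (nat_lit 1214) (nat_lit 89) (.e (nat_lit 73729) (nat_lit 0) (.e (nat_lit 7454) (nat_lit 396) (.e (nat_lit 1220) (nat_lit 90) (.e (nat_lit 81956) (nat_lit 23) (.e (nat_lit 98333) (nat_lit 18) (.e (nat_lit 164153) (nat_lit 152) .nil))))))) (.g (nat_lit 5) .nil .nil))) 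
(.lf (nat_lit 34994) (.g (nat_lit 1609) (.e (nat_lit 1214) (nat_lit 89) (.e (nat_lit 73746) (nat_lit 3) (.e (nat_lit 516146) (nat_lit 9) (.e (nat_lit 426294) (nat_lit 11) .nil)))) .nil)))) (.nd (nat_lit 4) (.nd (nat_lit 5) 
(.lf (nat_lit 34954) (.g (nat_lit 1177) (.e (nat_lit 1213) (nat_lit 89) (.e (nat_lit 73781) (nat_lit 32) (.e (nat_lit 2857) (nat_lit 184) (.e (nat_lit 426542) (nat_lit 29) .nil)))) .nil)) 
(.lf (nat_lit 34986) (.g (nat_lit 2154) (.e (nat_lit 1214) (nat_lit 89) (.e (nat_lit 73746) (nat_lit 3) (.e (nat_lit 516129) (nat_lit 3) (.e (nat_lit 221206) (nat_lit 21) (.e (nat_lit 164242) (nat_lit 195) .nil))))) .nil))) (.nd (nat_lit 5) 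
(.lf (nat_lit 34970) (.g (nat_lit 2263) (.e (nat_lit 1214) (nat_lit 89) (.e (nat_lit 73729) (nat_lit 0) (.e (nat_lit 7695) (nat_lit 412) (.e (nat_lit 57390) (nat_lit 5) (.e (nat_lit 114719) (nat_lit 23) (.e (nat_lit 98365) (nat_lit 26) (.e (nat_lit 426100) (nat_lit 1) (.e (nat_lit 164381) (nat_lit 254) .nil)))))))) (.g (nat_lit 4) .nil .nil))) 
(.lf (nat_lit 35002) (.g (nat_lit 1333) (.e (nat_lit 1214) (nat_lit 89) (.e (nat_lit 73746) (nat_lit 3) (.e (nat_lit 516150) (nat_lit 9) (.e (nat_lit 426294) (nat_lit 11) .nil)))) .nil))))) (.nd (nat_lit 3) (.nd (nat_lit 4) (.nd (nat_lit 5) 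
(.lf (nat_lit 34950) (.g (nat_lit 2424) (.e (nat_lit 1213) (nat_lit 89) (.e (nat_lit 73781) (nat_lit 32) (.e (nat_lit 2856) (nat_lit 184) (.e (nat_lit 426542) (nat_lit 29) (.e (nat_lit 352318) (nat_lit 24) .nil))))) .nil)) 
(.lf (nat_lit 34982) (.g (nat_lit 1453) (.e (nat_lit 1214) (nat_lit 89) (.e (nat_lit 73746) (nat_lit 3) (.e (nat_lit 516129) (nat_lit 3) (.e (nat_lit 221203) (nat_lit 20) .nil)))) .nil))) (.nd (nat_lit 5) 
(.lf (nat_lit 34966) (.g (nat_lit 744) (.e (nat_lit 1214) (nat_lit 89) (.e (nat_lit 73729) (nat_lit 0) (.e (nat_lit 7695) (nat_lit 412) .nil))) .nil)) 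
(.lf (nat_lit 34998) (.g (nat_lit 4219) (.e (nat_lit 1214) (nat_lit 89) (.e (nat_lit 73746) (nat_lit 3) (.e (nat_lit 516146) (nat_lit 9) (.e (nat_lit 426422) (nat_lit 16) (.e (nat_lit 57688) (nat_lit 156) (.e (nat_lit 163875) (nat_lit 3) (.e (nat_lit 204830) (nat_lit 18) (.e (nat_lit 57830) (nat_lit 250) .nil)))))))) (.g (nat_lit 6) .nil .nil))))) (.nd (nat_lit 4) (.nd (nat_lit 5) 
(.lf (nat_lit 34958) (.g (nat_lit 1209) (.e (nat_lit 1213) (nat_lit 89) (.e (nat_lit 73786) (nat_lit 45) (.e (nat_lit 1374) (nat_lit 104) (.e (nat_lit 303155) (nat_lit 29) (.e (nat_lit 352316) (nat_lit 24) (.e (nat_lit 123185) (nat_lit 264) .nil)))))) (.g (nat_lit 5) .nil .nil))) 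
(.lf (nat_lit 34990) (.g (nat_lit 451) (.e (nat_lit 1214) (nat_lit 89) (.e (nat_lit 73746) (nat_lit 3) (.e (nat_lit 516131) (nat_lit 3) .nil))) .nil))) (.nd (nat_lit 5) 
(.lf (nat_lit 34974) (.g (nat_lit 1801) (.e (nat_lit 1214) (nat_lit 89) (.e (nat_lit 73732) (nat_lit 0) (.e (nat_lit 7271) (nat_lit 385) (.e (nat_lit 122913) (nat_lit 13) (.e (nat_lit 344130) (nat_lit 26) (.e (nat_lit 557104) (nat_lit 14) (.e (nat_lit 180233) (nat_lit 0) (.e (nat_lit 5815) (nat_lit 320) .nil)))))))) (.g (nat_lit 4) .nil .nil))) 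
(.lf (nat_lit 35006) (.g (nat_lit 616) (.e (nat_lit 1214) (nat_lit 89) (.e (nat_lit 73746) (nat_lit 3) (.e (nat_lit 516163) (nat_lit 11) .nil))) .nil))))))) (.nd (nat_lit 1) (.nd (nat_lit 2) (.nd (nat_lit 3) (.nd (nat_lit 4) (.nd (nat_lit 5) 
(.lf (nat_lit 34945) (.g (nat_lit 507) (.e (nat_lit 1213) (nat_lit 89) (.e (nat_lit 73781) (nat_lit 32) (.e (nat_lit 2854) (nat_lit 184) .nil))) .nil)) 
(.lf (nat_lit 34977) (.g (nat_lit 944) (.e (nat_lit 1214) (nat_lit 89) (.e (nat_lit 73746) (nat_lit 3) (.e (nat_lit 516124) (nat_lit 2) (.e (nat_lit 213035) (nat_lit 12) .nil)))) .nil))) (.nd (nat_lit 5) 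
(.lf (nat_lit 34961) (.g (nat_lit 649) (.e (nat_lit 1214) (nat_lit 89) (.e (nat_lit 73729) (nat_lit 0) (.e (nat_lit 7454) (nat_lit 396) .nil))) .nil)) 
(.lf (nat_lit 34993) (.g (nat_lit 1741) (.e (nat_lit 1214) (nat_lit 89) (.e (nat_lit 73746) (nat_lit 3) (.e (nat_lit 516146) (nat_lit 9) (.e (nat_lit 426274) (nat_lit 10) .nil)))) .nil)))) (.nd (nat_lit 4) (.nd (nat_lit 5) 
(.lf (nat_lit 34953) (.g (nat_lit 1677) (.e (nat_lit 1213) (nat_lit 89) (.e (nat_lit 73781) (nat_lit 32) (.e (nat_lit 2856) (nat_lit 184) (.e (nat_lit 426555) (nat_lit 32) .nil)))) .nil)) 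
(.lf (nat_lit 34985) (.g (nat_lit 1437) (.e (nat_lit 1214) (nat_lit 89) (.e (nat_lit 73746) (nat_lit 3) (.e (nat_lit 516129) (nat_lit 3) (.e (nat_lit 221206) (nat_lit 21) .nil)))) .nil))) (.nd (nat_lit 5) 
(.lf (nat_lit 34969) (.g (nat_lit 2497) (.e (nat_lit 1214) (nat_lit 89) (.e (nat_lit 73729) (nat_lit 0) (.e (nat_lit 7695) (nat_lit 412) (.e (nat_lit 57389) (nat_lit 5) (.e (nat_lit 114719) (nat_lit 23) (.e (nat_lit 98365) (nat_lit 26) (.e (nat_lit 426100) (nat_lit 1) (.e (nat_lit 164381) (nat_lit 254) .nil)))))))) (.g (nat_lit 4) .nil .nil))) 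
(.lf (nat_lit 35001) (.g (nat_lit 616) (.e (nat_lit 1214) (nat_lit 89) (.e (nat_lit 73746) (nat_lit 3) (.e (nat_lit 516149) (nat_lit 9) .nil))) .nil))))) (.nd (nat_lit 3) (.nd (nat_lit 4) (.nd (nat_lit 5) 
(.lf (nat_lit 34949) (.g (nat_lit 3055) (.e (nat_lit 1213) (nat_lit 89) (.e (nat_lit 73781) (nat_lit 32) (.e (nat_lit 2856) (nat_lit 184) (.e (nat_lit 426542) (nat_lit 29) (.e (nat_lit 352317) (nat_lit 24) .nil))))) .nil)) 
(.lf (nat_lit 34981) (.g (nat_lit 2359) (.e (nat_lit 1214) (nat_lit 89) (.e (nat_lit 73746) (nat_lit 3) (.e (nat_lit 516129) (nat_lit 3) (.e (nat_lit 229120) (nat_lit 1) (.e (nat_lit 57849) (nat_lit 252) (.e (nat_lit 57390) (nat_lit 5) (.e (nat_lit 114712) (nat_lit 21) (.e (nat_lit 57829) (nat_lit 250) .nil)))))))) (.g (nat_lit 5) .nil .nil)))) (.nd (nat_lit 5) 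
(.lf (nat_lit 34965) (.g (nat_lit 3461) (.e (nat_lit 1214) (nat_lit 89) (.e (nat_lit 73729) (nat_lit 0) (.e (nat_lit 7454) (nat_lit 396) (.e (nat_lit 1221) (nat_lit 90) (.e (nat_lit 81956) (nat_lit 23) (.e (nat_lit 98334) (nat_lit 18) (.e (nat_lit 164147) (nat_lit 152) .nil))))))) (.g (nat_lit 5) .nil .nil))) 
(.lf (nat_lit 34997) (.g (nat_lit 4732) (.e (nat_lit 1214) (nat_lit 89) (.e (nat_lit 73746) (nat_lit 3) (.e (nat_lit 516146) (nat_lit 9) (.e (nat_lit 426422) (nat_lit 16) (.e (nat_lit 57688) (nat_lit 156) (.e (nat_lit 163874) (nat_lit 3) (.e (nat_lit 204830) (nat_lit 18) (.e (nat_lit 57830) (nat_lit 250) .nil)))))))) (.g (nat_lit 6) .nil .nil))))) (.nd (nat_lit 4) (.nd (nat_lit 5) 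
(.lf (nat_lit 34957) (.g (nat_lit 1596) (.e (nat_lit 1213) (nat_lit 89) (.e (nat_lit 73782) (nat_lit 32) (.e (nat_lit 2856) (nat_lit 184) (.e (nat_lit 426542) (nat_lit 29) .nil)))) .nil)) 
(.lf (nat_lit 34989) (.g (nat_lit 1453) (.e (nat_lit 1214) (nat_lit 89) (.e (nat_lit 73746) (nat_lit 3) (.e (nat_lit 516129) (nat_lit 3) (.e (nat_lit 221220) (nat_lit 25) .nil)))) .nil))) (.nd (nat_lit 5) 
(.lf (nat_lit 34973) (.g (nat_lit 2234) (.e (nat_lit 1214) (nat_lit 89) (.e (nat_lit 73732) (nat_lit 0) (.e (nat_lit 7270) (nat_lit 385) (.e (nat_lit 122913) (nat_lit 13) (.e (nat_lit 344130) (nat_lit 26) (.e (nat_lit 557104) (nat_lit 14) (.e (nat_lit 180233) (nat_lit 0) (.e (nat_lit 5815) (nat_lit 320) .nil)))))))) (.g (nat_lit 5) .nil .nil))) 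
(.lf (nat_lit 35005) (.g (nat_lit 4617) (.e (nat_lit 1214) (nat_lit 89) (.e (nat_lit 73746) (nat_lit 3) (.e (nat_lit 516151) (nat_lit 9) (.e (nat_lit 426286) (nat_lit 10) (.e (nat_lit 434248) (nat_lit 28) (.e (nat_lit 573475) (nat_lit 12) (.e (nat_lit 57347) (nat_lit 0) (.e (nat_lit 7125) (nat_lit 382) .nil)))))))) (.g (nat_lit 4) .nil .nil))))))) 
(.nd (nat_lit 2) (.nd (nat_lit 3) (.nd (nat_lit 4) (.nd (nat_lit 5) 
(.lf (nat_lit 34947) (.g (nat_lit 1635) (.e (nat_lit 1213) (nat_lit 89) (.e (nat_lit 73781) (nat_lit 32) (.e (nat_lit 2856) (nat_lit 184) (.e (nat_lit 426538) (nat_lit 29) .nil)))) .nil)) 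
(.lf (nat_lit 34979) (.g (nat_lit 428) (.e (nat_lit 1214) (nat_lit 89) (.e (nat_lit 73746) (nat_lit 3) (.e (nat_lit 516129) (nat_lit 3) .nil))) .nil))) (.nd (nat_lit 5) 
(.lf (nat_lit 34963) (.g (nat_lit 3393) (.e (nat_lit 1214) (nat_lit 89) (.e (nat_lit 73729) (nat_lit 0) (.e (nat_lit 7454) (nat_lit 396) (.e (nat_lit 1220) (nat_lit 90) (.e (nat_lit 81956) (nat_lit 23) (.e (nat_lit 98334) (nat_lit 18) (.e (nat_lit 164147) (nat_lit 152) .nil))))))) (.g (nat_lit 5) .nil .nil))) 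
(.lf (nat_lit 34995) (.g (nat_lit 2878) (.e (nat_lit 1214) (nat_lit 89) (.e (nat_lit 73746) (nat_lit 3) (.e (nat_lit 516146) (nat_lit 9) (.e (nat_lit 426294) (nat_lit 11) (.e (nat_lit 466688) (nat_lit 21) (.e (nat_lit 516106) (nat_lit 0) (.e (nat_lit 2478) (nat_lit 157) (.e (nat_lit 5045) (nat_lit 292) .nil)))))))) (.g (nat_lit 6) .nil .nil))))) (.nd (nat_lit 4) (.nd (nat_lit 5) 
(.lf (nat_lit 34955) (.g (nat_lit 1605) (.e (nat_lit 1213) (nat_lit 89) (.e (nat_lit 73781) (nat_lit 32) (.e (nat_lit 3090) (nat_lit 191) (.e (nat_lit 483386) (nat_lit 23) .nil)))) .nil)) 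
(.lf (nat_lit 34987) (.g (nat_lit 2154) (.e (nat_lit 1214) (nat_lit 89) (.e (nat_lit 73746) (nat_lit 3) (.e (nat_lit 516129) (nat_lit 3) (.e (nat_lit 221206) (nat_lit 21) (.e (nat_lit 164243) (nat_lit 195) .nil))))) .nil))) (.nd (nat_lit 5) 
(.lf (nat_lit 34971) (.g (nat_lit 2055) (.e (nat_lit 1214) (nat_lit 89) (.e (nat_lit 73729) (nat_lit 0) (.e (nat_lit 7697) (nat_lit 412) (.e (nat_lit 57388) (nat_lit 5) (.e (nat_lit 114719) (nat_lit 23) .nil))))) .nil)) 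
(.lf (nat_lit 35003) (.g (nat_lit 2670) (.e (nat_lit 1214) (nat_lit 89) (.e (nat_lit 73746) (nat_lit 3) (.e (nat_lit 516150) (nat_lit 9) (.e (nat_lit 426294) (nat_lit 11) (.e (nat_lit 466688) (nat_lit 21) (.e (nat_lit 516106) (nat_lit 0) (.e (nat_lit 2478) (nat_lit 157) (.e (nat_lit 5045) (nat_lit 292) .nil)))))))) (.g (nat_lit 6) .nil .nil)))))) (.nd (nat_lit 3) (.nd (nat_lit 4) (.nd (nat_lit 5) 
(.lf (nat_lit 34951) (.g (nat_lit 1603) (.e (nat_lit 1213) (nat_lit 89) (.e (nat_lit 73781) (nat_lit 32) (.e (nat_lit 2856) (nat_lit 184) (.e (nat_lit 426544) (nat_lit 30) .nil)))) .nil)) 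
(.lf (nat_lit 34983) (.g (nat_lit 1404) (.e (nat_lit 1214) (nat_lit 89) (.e (nat_lit 73746) (nat_lit 3) (.e (nat_lit 516129) (nat_lit 3) (.e (nat_lit 221204) (nat_lit 20) .nil)))) .nil))) (.nd (nat_lit 5) 
(.lf (nat_lit 34967) (.g (nat_lit 1356) (.e (nat_lit 1214) (nat_lit 89) (.e (nat_lit 73729) (nat_lit 0) (.e (nat_lit 7695) (nat_lit 412) (.e (nat_lit 57389) (nat_lit 5) .nil)))) .nil)) 
(.lf (nat_lit 34999) (.g (nat_lit 5002) (.e (nat_lit 1214) (nat_lit 89) (.e (nat_lit 73746) (nat_lit 3) (.e (nat_lit 516146) (nat_lit 9) (.e (nat_lit 426422) (nat_lit 16) (.e (nat_lit 57691) (nat_lit 156) (.e (nat_lit 163875) (nat_lit 3) (.e (nat_lit 204830) (nat_lit 18) (.e (nat_lit 57830) (nat_lit 250) .nil)))))))) (.g (nat_lit 7) .nil .nil))))) (.nd (nat_lit 4) (.nd (nat_lit 5) 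
(.lf (nat_lit 34959) (.g (nat_lit 830) (.e (nat_lit 1213) (nat_lit 89) (.e (nat_lit 73792) (nat_lit 45) (.e (nat_lit 1386) (nat_lit 105) (.e (nat_lit 311358) (nat_lit 29) .nil)))) .nil)) 
(.lf (nat_lit 34991) (.g (nat_lit 1731) (.e (nat_lit 1214) (nat_lit 89) (.e (nat_lit 73746) (nat_lit 3) (.e (nat_lit 516146) (nat_lit 9) (.e (nat_lit 426273) (nat_lit 10) .nil)))) .nil))) (.nd (nat_lit 5) 
(.lf (nat_lit 34975) (.g (nat_lit 1820) (.e (nat_lit 1214) (nat_lit 89) (.e (nat_lit 73732) (nat_lit 0) (.e (nat_lit 7272) (nat_lit 385) (.e (nat_lit 122913) (nat_lit 13) (.e (nat_lit 344130) (nat_lit 26) (.e (nat_lit 557104) (nat_lit 14) (.e (nat_lit 180233) (nat_lit 0) (.e (nat_lit 5817) (nat_lit 320) .nil)))))))) (.g (nat_lit 4) .nil .nil))) 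
(.lf (nat_lit 35007) (.g (nat_lit 2067) (.e (nat_lit 1214) (nat_lit 89) (.e (nat_lit 73746) (nat_lit 3) (.e (nat_lit 516165) (nat_lit 12) (.e (nat_lit 458496) (nat_lit 3) (.e (nat_lit 516119) (nat_lit 1) (.e (nat_lit 164297) (nat_lit 226) .nil)))))) (.g (nat_lit 5) .nil .nil)))))))))

noncomputable def tv489 : DT := (.nd (nat_lit 0) (.nd (nat_lit 1) (.nd (nat_lit 2) (.nd (nat_lit 3) (.nd (nat_lit 4) (.nd (nat_lit 5) 
(.lf (nat_lit 35008) (.g (nat_lit 1407) (.e (nat_lit 1214) (nat_lit 89) (.e (nat_lit 73746) (nat_lit 3) (.e (nat_lit 516165) (nat_lit 12) (.e (nat_lit 450579) (nat_lit 5) .nil)))) .nil)) 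
(.lf (nat_lit 35040) (.g (nat_lit 2230) (.e (nat_lit 1214) (nat_lit 89) (.e (nat_lit 73746) (nat_lit 3) (.e (nat_lit 516165) (nat_lit 12) (.e (nat_lit 450587) (nat_lit 10) (.e (nat_lit 573477) (nat_lit 12) (.e (nat_lit 57353) (nat_lit 0) (.e (nat_lit 7124) (nat_lit 382) .nil))))))) (.g (nat_lit 4) .nil .nil)))) (.nd (nat_lit 5) 
(.lf (nat_lit 35024) (.g (nat_lit 4474) (.e (nat_lit 1214) (nat_lit 89) (.e (nat_lit 73746) (nat_lit 3) (.e (nat_lit 516165) (nat_lit 12) (.e (nat_lit 450586) (nat_lit 10) (.e (nat_lit 573473) (nat_lit 12) (.e (nat_lit 57353) (nat_lit 0) (.e (nat_lit 7125) (nat_lit 382) .nil))))))) (.g (nat_lit 7) .nil .nil))) 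
(.lf (nat_lit 35056) (.g (nat_lit 4953) (.e (nat_lit 1214) (nat_lit 89) (.e (nat_lit 73746) (nat_lit 3) (.e (nat_lit 516165) (nat_lit 12) (.e (nat_lit 450588) (nat_lit 10) (.e (nat_lit 573475) (nat_lit 12) (.e (nat_lit 57348) (nat_lit 0) (.e (nat_lit 7125) (nat_lit 382) .nil))))))) (.g (nat_lit 6) .nil .nil))))) (.nd (nat_lit 4) (.nd (nat_lit 5) 
(.lf (nat_lit 35016) (.g (nat_lit 4399) (.e (nat_lit 1214) (nat_lit 89) (.e (nat_lit 73746) (nat_lit 3) (.e (nat_lit 516165) (nat_lit 12) (.e (nat_lit 450586) (nat_lit 10) (.e (nat_lit 573473) (nat_lit 12) (.e (nat_lit 57347) (nat_lit 0) (.e (nat_lit 7125) (nat_lit 382) .nil))))))) (.g (nat_lit 6) .nil .nil))) 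
(.lf (nat_lit 35048) (.g (nat_lit 5343) (.e (nat_lit 1214) (nat_lit 89) (.e (nat_lit 73746) (nat_lit 3) (.e (nat_lit 516165) (nat_lit 12) (.e (nat_lit 450588) (nat_lit 10) (.e (nat_lit 573473) (nat_lit 12) (.e (nat_lit 57348) (nat_lit 0) (.e (nat_lit 7125) (nat_lit 382) .nil))))))) (.g (nat_lit 7) .nil .nil)))) (.nd (nat_lit 5) 
(.lf (nat_lit 35032) (.g (nat_lit 2773) (.e (nat_lit 1214) (nat_lit 89) (.e (nat_lit 73746) (nat_lit 3) (.e (nat_lit 516165) (nat_lit 12) (.e (nat_lit 450586) (nat_lit 10) (.e (nat_lit 573477) (nat_lit 12) (.e (nat_lit 57353) (nat_lit 0) (.e (nat_lit 7122) (nat_lit 382) .nil))))))) (.g (nat_lit 4) .nil .nil))) 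
(.lf (nat_lit 35064) (.g (nat_lit 3903) (.e (nat_lit 1214) (nat_lit 89) (.e (nat_lit 73746) (nat_lit 3) (.e (nat_lit 516166) (nat_lit 12) (.e (nat_lit 450587) (nat_lit 10) (.e (nat_lit 573478) (nat_lit 12) (.e (nat_lit 57351) (nat_lit 0) (.e (nat_lit 7122) (nat_lit 382) .nil))))))) (.g (nat_lit 5) .nil .nil)))))) (.nd (nat_lit 3) (.nd (nat_lit 4) (.nd (nat_lit 5) 
(.lf (nat_lit 35012) (.g (nat_lit 3788) (.e (nat_lit 1214) (nat_lit 89) (.e (nat_lit 73746) (nat_lit 3) (.e (nat_lit 516165) (nat_lit 12) (.e (nat_lit 450579) (nat_lit 5) (.e (nat_lit 532504) (nat_lit 1) (.e (nat_lit 65280) (nat_lit 221) .nil)))))) (.g (nat_lit 5) .nil .nil))) 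
(.lf (nat_lit 35044) (.g (nat_lit 2781) (.e (nat_lit 1214) (nat_lit 89) (.e (nat_lit 73746) (nat_lit 3) (.e (nat_lit 516165) (nat_lit 12) (.e (nat_lit 450588) (nat_lit 10) (.e (nat_lit 573473) (nat_lit 12) .nil))))) .nil))) (.nd (nat_lit 5) 
(.lf (nat_lit 35028) (.g (nat_lit 3654) (.e (nat_lit 1214) (nat_lit 89) (.e (nat_lit 73746) (nat_lit 3) (.e (nat_lit 516165) (nat_lit 12) (.e (nat_lit 450586) (nat_lit 10) (.e (nat_lit 573475) (nat_lit 12) (.e (nat_lit 57351) (nat_lit 0) (.e (nat_lit 7122) (nat_lit 382) .nil))))))) (.g (nat_lit 5) .nil .nil))) 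
(.lf (nat_lit 35060) (.g (nat_lit 4689) (.e (nat_lit 1214) (nat_lit 89) (.e (nat_lit 73746) (nat_lit 3) (.e (nat_lit 516166) (nat_lit 12) (.e (nat_lit 450587) (nat_lit 10) (.e (nat_lit 573477) (nat_lit 12) (.e (nat_lit 57351) (nat_lit 0) (.e (nat_lit 7125) (nat_lit 382) .nil))))))) (.g (nat_lit 5) .nil .nil))))) (.nd (nat_lit 4) (.nd (nat_lit 5) 
(.lf (nat_lit 35020) (.g (nat_lit 3699) (.e (nat_lit 1214) (nat_lit 89) (.e (nat_lit 73746) (nat_lit 3) (.e (nat_lit 516165) (nat_lit 12) (.e (nat_lit 450586) (nat_lit 10) (.e (nat_lit 573473) (nat_lit 12) (.e (nat_lit 57352) (nat_lit 0) (.e (nat_lit 7122) (nat_lit 382) .nil))))))) (.g (nat_lit 5) .nil .nil))) 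
(.lf (nat_lit 35052) (.g (nat_lit 4137) (.e (nat_lit 1214) (nat_lit 89) (.e (nat_lit 73746) (nat_lit 3) (.e (nat_lit 516165) (nat_lit 12) (.e (nat_lit 450588) (nat_lit 10) (.e (nat_lit 573474) (nat_lit 12) .nil))))) .nil))) (.nd (nat_lit 5) 
(.lf (nat_lit 35036) (.g (nat_lit 2757) (.e (nat_lit 1214) (nat_lit 89) (.e (nat_lit 73746) (nat_lit 3) (.e (nat_lit 516165) (nat_lit 12) (.e (nat_lit 450586) (nat_lit 10) (.e (nat_lit 573478) (nat_lit 12) (.e (nat_lit 57352) (nat_lit 0) (.e (nat_lit 7122) (nat_lit 382) .nil))))))) (.g (nat_lit 4) .nil .nil))) 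
(.lf (nat_lit 35068) (.g (nat_lit 4999) (.e (nat_lit 1214) (nat_lit 89) (.e (nat_lit 73746) (nat_lit 3) (.e (nat_lit 516166) (nat_lit 12) (.e (nat_lit 450588) (nat_lit 10) (.e (nat_lit 573473) (nat_lit 12) (.e (nat_lit 57347) (nat_lit 0) (.e (nat_lit 7125) (nat_lit 382) .nil))))))) (.g (nat_lit 6) .nil .nil))))))) (.nd (nat_lit 2) (.nd (nat_lit 3) (.nd (nat_lit 4) (.nd (nat_lit 5) 
(.lf (nat_lit 35010) (.g (nat_lit 3772) (.e (nat_lit 1214) (nat_lit 89) (.e (nat_lit 73746) (nat_lit 3) (.e (nat_lit 516165) (nat_lit 12) (.e (nat_lit 450579) (nat_lit 5) (.e (nat_lit 532501) (nat_lit 1) (.e (nat_lit 65280) (nat_lit 221) .nil)))))) (.g (nat_lit 5) .nil .nil))) 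
(.lf (nat_lit 35042) (.g (nat_lit 2509) (.e (nat_lit 1214) (nat_lit 89) (.e (nat_lit 73746) (nat_lit 3) (.e (nat_lit 516165) (nat_lit 12) (.e (nat_lit 450587) (nat_lit 10) (.e (nat_lit 573478) (nat_lit 12) (.e (nat_lit 57351) (nat_lit 0) (.e (nat_lit 7122) (nat_lit 382) .nil))))))) (.g (nat_lit 4) .nil .nil)))) (.nd (nat_lit 5) 
(.lf (nat_lit 35026) (.g (nat_lit 2735) (.e (nat_lit 1214) (nat_lit 89) (.e (nat_lit 73746) (nat_lit 3) (.e (nat_lit 516165) (nat_lit 12) (.e (nat_lit 450586) (nat_lit 10) (.e (nat_lit 573475) (nat_lit 12) (.e (nat_lit 57347) (nat_lit 0) (.e (nat_lit 7119) (nat_lit 382) .nil))))))) (.g (nat_lit 4) .nil .nil))) 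
(.lf (nat_lit 35058) (.g (nat_lit 1930) (.e (nat_lit 1214) (nat_lit 89) (.e (nat_lit 73746) (nat_lit 3) (.e (nat_lit 516166) (nat_lit 12) (.e (nat_lit 458496) (nat_lit 3) .nil)))) .nil)))) (.nd (nat_lit 4) (.nd (nat_lit 5) 
(.lf (nat_lit 35018) (.g (nat_lit 3415) (.e (nat_lit 1214) (nat_lit 89) (.e (nat_lit 73746) (nat_lit 3) (.e (nat_lit 516165) (nat_lit 12) (.e (nat_lit 450586) (nat_lit 10) (.e (nat_lit 573473) (nat_lit 12) (.e (nat_lit 57348) (nat_lit 0) (.e (nat_lit 7124) (nat_lit 382) .nil))))))) (.g (nat_lit 5) .nil .nil))) 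
(.lf (nat_lit 35050) (.g (nat_lit 3279) (.e (nat_lit 1214) (nat_lit 89) (.e (nat_lit 73746) (nat_lit 3) (.e (nat_lit 516165) (nat_lit 12) (.e (nat_lit 450588) (nat_lit 10) (.e (nat_lit 573473) (nat_lit 12) (.e (nat_lit 57353) (nat_lit 0) (.e (nat_lit 7119) (nat_lit 382) .nil))))))) (.g (nat_lit 4) .nil .nil)))) (.nd (nat_lit 5) 
(.lf (nat_lit 35034) (.g (nat_lit 2598) (.e (nat_lit 1214) (nat_lit 89) (.e (nat_lit 73746) (nat_lit 3) (.e (nat_lit 516165) (nat_lit 12) (.e (nat_lit 450586) (nat_lit 10) (.e (nat_lit 573478) (nat_lit 12) .nil))))) .nil)) 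
(.lf (nat_lit 35066) (.g (nat_lit 3456) (.e (nat_lit 1214) (nat_lit 89) (.e (nat_lit 73746) (nat_lit 3) (.e (nat_lit 516166) (nat_lit 12) (.e (nat_lit 450587) (nat_lit 10) (.e (nat_lit 573478) (nat_lit 12) (.e (nat_lit 57352) (nat_lit 0) (.e (nat_lit 7122) (nat_lit 382) .nil))))))) (.g (nat_lit 4) .nil .nil)))))) (.nd (nat_lit 3) (.nd (nat_lit 4) (.nd (nat_lit 5) 
(.lf (nat_lit 35014) (.g (nat_lit 2435) (.e (nat_lit 1214) (nat_lit 89) (.e (nat_lit 73746) (nat_lit 3) (.e (nat_lit 516165) (nat_lit 12) (.e (nat_lit 450586) (nat_lit 10) (.e (nat_lit 573473) (nat_lit 12) .nil))))) .nil)) 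
(.lf (nat_lit 35046) (.g (nat_lit 4118) (.e (nat_lit 1214) (nat_lit 89) (.e (nat_lit 73746) (nat_lit 3) (.e (nat_lit 516165) (nat_lit 12) (.e (nat_lit 450588) (nat_lit 10) (.e (nat_lit 573473) (nat_lit 12) (.e (nat_lit 57348) (nat_lit 0) (.e (nat_lit 7122) (nat_lit 382) .nil))))))) (.g (nat_lit 5) .nil .nil)))) (.nd (nat_lit 5) 
(.lf (nat_lit 35030) (.g (nat_lit 2539) (.e (nat_lit 1214) (nat_lit 89) (.e (nat_lit 73746) (nat_lit 3) (.e (nat_lit 516165) (nat_lit 12) (.e (nat_lit 450586) (nat_lit 10) (.e (nat_lit 573477) (nat_lit 12) (.e (nat_lit 57351) (nat_lit 0) (.e (nat_lit 7122) (nat_lit 382) .nil))))))) (.g (nat_lit 4) .nil .nil))) 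
(.lf (nat_lit 35062) (.g (nat_lit 4328) (.e (nat_lit 1214) (nat_lit 89) (.e (nat_lit 73746) (nat_lit 3) (.e (nat_lit 516166) (nat_lit 12) (.e (nat_lit 450587) (nat_lit 10) (.e (nat_lit 573477) (nat_lit 12) (.e (nat_lit 57353) (nat_lit 0) (.e (nat_lit 7124) (nat_lit 382) .nil))))))) (.g (nat_lit 5) .nil .nil))))) (.nd (nat_lit 4) (.nd (nat_lit 5) 
(.lf (nat_lit 35022) (.g (nat_lit 2471) (.e (nat_lit 1214) (nat_lit 89) (.e (nat_lit 73746) (nat_lit 3) (.e (nat_lit 516165) (nat_lit 12) (.e (nat_lit 450586) (nat_lit 10) (.e (nat_lit 573473) (nat_lit 12) (.e (nat_lit 57353) (nat_lit 0) (.e (nat_lit 7119) (nat_lit 382) .nil))))))) (.g (nat_lit 4) .nil .nil))) 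
(.lf (nat_lit 35054) (.g (nat_lit 4380) (.e (nat_lit 1214) (nat_lit 89) (.e (nat_lit 73746) (nat_lit 3) (.e (nat_lit 516165) (nat_lit 12) (.e (nat_lit 450588) (nat_lit 10) (.e (nat_lit 573475) (nat_lit 12) (.e (nat_lit 57347) (nat_lit 0) (.e (nat_lit 7124) (nat_lit 382) .nil))))))) (.g (nat_lit 5) .nil .nil)))) (.nd (nat_lit 5) 
(.lf (nat_lit 35038) (.g (nat_lit 2589) (.e (nat_lit 1214) (nat_lit 89) (.e (nat_lit 73746) (nat_lit 3) (.e (nat_lit 516165) (nat_lit 12) (.e (nat_lit 450587) (nat_lit 10) (.e (nat_lit 573477) (nat_lit 12) (.e (nat_lit 57351) (nat_lit 0) (.e (nat_lit 7125) (nat_lit 382) .nil))))))) (.g (nat_lit 4) .nil .nil))) 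
(.lf (nat_lit 35070) (.g (nat_lit 3911) (.e (nat_lit 1214) (nat_lit 89) (.e (nat_lit 73746) (nat_lit 3) (.e (nat_lit 516166) (nat_lit 12) (.e (nat_lit 450588) (nat_lit 10) (.e (nat_lit 573473) (nat_lit 12) (.e (nat_lit 57348) (nat_lit 0) (.e (nat_lit 7122) (nat_lit 382) .nil))))))) (.g (nat_lit 5) .nil .nil)))))))) 
(.nd (nat_lit 1) (.nd (nat_lit 2) (.nd (nat_lit 3) (.nd (nat_lit 4) (.nd (nat_lit 5) 
(.lf (nat_lit 35009) (.g (nat_lit 3156) (.e (nat_lit 1214) (nat_lit 89) (.e (nat_lit 73746) (nat_lit 3) (.e (nat_lit 516165) (nat_lit 12) (.e (nat_lit 450579) (nat_lit 5) (.e (nat_lit 532499) (nat_lit 1) (.e (nat_lit 65280) (nat_lit 221) .nil)))))) (.g (nat_lit 5) .nil .nil))) 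
(.lf (nat_lit 35041) (.g (nat_lit 2154) (.e (nat_lit 1214) (nat_lit 89) (.e (nat_lit 73746) (nat_lit 3) (.e (nat_lit 516165) (nat_lit 12) (.e (nat_lit 450587) (nat_lit 10) (.e (nat_lit 573478) (nat_lit 12) .nil))))) .nil))) (.nd (nat_lit 5) 
(.lf (nat_lit 35025) (.g (nat_lit 2269) (.e (nat_lit 1214) (nat_lit 89) (.e (nat_lit 73746) (nat_lit 3) (.e (nat_lit 516165) (nat_lit 12) (.e (nat_lit 450586) (nat_lit 10) (.e (nat_lit 573475) (nat_lit 12) .nil))))) .nil)) 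
(.lf (nat_lit 35057) (.g (nat_lit 4264) (.e (nat_lit 1214) (nat_lit 89) (.e (nat_lit 73746) (nat_lit 3) (.e (nat_lit 516165) (nat_lit 12) (.e (nat_lit 450588) (nat_lit 10) (.e (nat_lit 573475) (nat_lit 12) (.e (nat_lit 57351) (nat_lit 0) (.e (nat_lit 7122) (nat_lit 382) .nil))))))) (.g (nat_lit 5) .nil .nil))))) (.nd (nat_lit 4) (.nd (nat_lit 5) 
(.lf (nat_lit 35017) (.g (nat_lit 3332) (.e (nat_lit 1214) (nat_lit 89) (.e (nat_lit 73746) (nat_lit 3) (.e (nat_lit 516165) (nat_lit 12) (.e (nat_lit 450586) (nat_lit 10) (.e (nat_lit 573473) (nat_lit 12) (.e (nat_lit 57348) (nat_lit 0) (.e (nat_lit 7122) (nat_lit 382) .nil))))))) (.g (nat_lit 5) .nil .nil))) 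
(.lf (nat_lit 35049) (.g (nat_lit 4502) (.e (nat_lit 1214) (nat_lit 89) (.e (nat_lit 73746) (nat_lit 3) (.e (nat_lit 516165) (nat_lit 12) (.e (nat_lit 450588) (nat_lit 10) (.e (nat_lit 573473) (nat_lit 12) (.e (nat_lit 57352) (nat_lit 0) (.e (nat_lit 7122) (nat_lit 382) .nil))))))) (.g (nat_lit 5) .nil .nil)))) (.nd (nat_lit 5) 
(.lf (nat_lit 35033) (.g (nat_lit 2996) (.e (nat_lit 1214) (nat_lit 89) (.e (nat_lit 73746) (nat_lit 3) (.e (nat_lit 516165) (nat_lit 12) (.e (nat_lit 450586) (nat_lit 10) (.e (nat_lit 573477) (nat_lit 12) (.e (nat_lit 57353) (nat_lit 0) (.e (nat_lit 7124) (nat_lit 382) .nil))))))) (.g (nat_lit 5) .nil .nil))) 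
(.lf (nat_lit 35065) (.g (nat_lit 3346) (.e (nat_lit 1214) (nat_lit 89) (.e (nat_lit 73746) (nat_lit 3) (.e (nat_lit 516166) (nat_lit 12) (.e (nat_lit 450587) (nat_lit 10) (.e (nat_lit 573478) (nat_lit 12) (.e (nat_lit 57351) (nat_lit 0) (.e (nat_lit 7124) (nat_lit 382) .nil))))))) (.g (nat_lit 4) .nil .nil)))))) (.nd (nat_lit 3) (.nd (nat_lit 4) (.nd (nat_lit 5) 
(.lf (nat_lit 35013) (.g (nat_lit 1441) (.e (nat_lit 1214) (nat_lit 89) (.e (nat_lit 73746) (nat_lit 3) (.e (nat_lit 516165) (nat_lit 12) (.e (nat_lit 450585) (nat_lit 10) .nil)))) .nil)) 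
(.lf (nat_lit 35045) (.g (nat_lit 5221) (.e (nat_lit 1214) (nat_lit 89) (.e (nat_lit 73746) (nat_lit 3) (.e (nat_lit 516165) (nat_lit 12) (.e (nat_lit 450588) (nat_lit 10) (.e (nat_lit 573473) (nat_lit 12) (.e (nat_lit 57347) (nat_lit 0) (.e (nat_lit 7125) (nat_lit 382) .nil))))))) (.g (nat_lit 6) .nil .nil)))) (.nd (nat_lit 5) 
(.lf (nat_lit 35029) (.g (nat_lit 2455) (.e (nat_lit 1214) (nat_lit 89) (.e (nat_lit 73746) (nat_lit 3) (.e (nat_lit 516165) (nat_lit 12) (.e (nat_lit 450586) (nat_lit 10) (.e (nat_lit 573477) (nat_lit 12) .nil))))) .nil)) 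
(.lf (nat_lit 35061) (.g (nat_lit 4112) (.e (nat_lit 1214) (nat_lit 89) (.e (nat_lit 73746) (nat_lit 3) (.e (nat_lit 516166) (nat_lit 12) (.e (nat_lit 450587) (nat_lit 10) (.e (nat_lit 573477) (nat_lit 12) (.e (nat_lit 57353) (nat_lit 0) (.e (nat_lit 7122) (nat_lit 382) .nil))))))) (.g (nat_lit 4) .nil .nil))))) (.nd (nat_lit 4) (.nd (nat_lit 5) 
(.lf (nat_lit 35021) (.g (nat_lit 2568) (.e (nat_lit 1214) (nat_lit 89) (.e (nat_lit 73746) (nat_lit 3) (.e (nat_lit 516165) (nat_lit 12) (.e (nat_lit 450586) (nat_lit 10) (.e (nat_lit 573473) (nat_lit 12) (.e (nat_lit 57352) (nat_lit 0) (.e (nat_lit 7125) (nat_lit 382) .nil))))))) (.g (nat_lit 4) .nil .nil))) 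
(.lf (nat_lit 35053) (.g (nat_lit 2630) (.e (nat_lit 1214) (nat_lit 89) (.e (nat_lit 73746) (nat_lit 3) (.e (nat_lit 516165) (nat_lit 12) (.e (nat_lit 450588) (nat_lit 10) (.e (nat_lit 573475) (nat_lit 12) .nil))))) .nil))) (.nd (nat_lit 5) 
(.lf (nat_lit 35037) (.g (nat_lit 2166) (.e (nat_lit 1214) (nat_lit 89) (.e (nat_lit 73746) (nat_lit 3) (.e (nat_lit 516165) (nat_lit 12) (.e (nat_lit 450587) (nat_lit 10) (.e (nat_lit 573477) (nat_lit 12) .nil))))) .nil)) 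
(.lf (nat_lit 35069) (.g (nat_lit 3730) (.e (nat_lit 1214) (nat_lit 89) (.e (nat_lit 73746) (nat_lit 3) (.e (nat_lit 516166) (nat_lit 12) (.e (nat_lit 450588) (nat_lit 10) (.e (nat_lit 573473) (nat_lit 12) (.e (nat_lit 57348) (nat_lit 0) (.e (nat_lit 7119) (nat_lit 382) .nil))))))) (.g (nat_lit 4) .nil .nil))))))) (.nd (nat_lit 2) (.nd (nat_lit 3) (.nd (nat_lit 4) (.nd (nat_lit 5) 
(.lf (nat_lit 35011) (.g (nat_lit 3260) (.e (nat_lit 1214) (nat_lit 89) (.e (nat_lit 73746) (nat_lit 3) (.e (nat_lit 516165) (nat_lit 12) (.e (nat_lit 450579) (nat_lit 5) (.e (nat_lit 532503) (nat_lit 1) (.e (nat_lit 65280) (nat_lit 221) .nil)))))) (.g (nat_lit 5) .nil .nil))) 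
(.lf (nat_lit 35043) (.g (nat_lit 3030) (.e (nat_lit 1214) (nat_lit 89) (.e (nat_lit 73746) (nat_lit 3) (.e (nat_lit 516165) (nat_lit 12) (.e (nat_lit 450587) (nat_lit 10) (.e (nat_lit 573478) (nat_lit 12) (.e (nat_lit 57353) (nat_lit 0) (.e (nat_lit 7125) (nat_lit 382) .nil))))))) (.g (nat_lit 5) .nil .nil)))) (.nd (nat_lit 5) 
(.lf (nat_lit 35027) (.g (nat_lit 4028) (.e (nat_lit 1214) (nat_lit 89) (.e (nat_lit 73746) (nat_lit 3) (.e (nat_lit 516165) (nat_lit 12) (.e (nat_lit 450586) (nat_lit 10) (.e (nat_lit 573475) (nat_lit 12) (.e (nat_lit 57348) (nat_lit 0) (.e (nat_lit 7125) (nat_lit 382) .nil))))))) (.g (nat_lit 5) .nil .nil))) 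
(.lf (nat_lit 35059) (.g (nat_lit 3980) (.e (nat_lit 1214) (nat_lit 89) (.e (nat_lit 73746) (nat_lit 3) (.e (nat_lit 516166) (nat_lit 12) (.e (nat_lit 450587) (nat_lit 10) (.e (nat_lit 573477) (nat_lit 12) (.e (nat_lit 57351) (nat_lit 0) (.e (nat_lit 7122) (nat_lit 382) .nil))))))) (.g (nat_lit 4) .nil .nil))))) (.nd (nat_lit 4) (.nd (nat_lit 5) 
(.lf (nat_lit 35019) (.g (nat_lit 4557) (.e (nat_lit 1214) (nat_lit 89) (.e (nat_lit 73746) (nat_lit 3) (.e (nat_lit 516165) (nat_lit 12) (.e (nat_lit 450586) (nat_lit 10) (.e (nat_lit 573473) (nat_lit 12) (.e (nat_lit 57348) (nat_lit 0) (.e (nat_lit 7125) (nat_lit 382) .nil))))))) (.g (nat_lit 7) .nil .nil))) 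
(.lf (nat_lit 35051) (.g (nat_lit 4096) (.e (nat_lit 1214) (nat_lit 89) (.e (nat_lit 73746) (nat_lit 3) (.e (nat_lit 516165) (nat_lit 12) (.e (nat_lit 450588) (nat_lit 10) (.e (nat_lit 573473) (nat_lit 12) (.e (nat_lit 57353) (nat_lit 0) (.e (nat_lit 7124) (nat_lit 382) .nil))))))) (.g (nat_lit 5) .nil .nil)))) (.nd (nat_lit 5) 
(.lf (nat_lit 35035) (.g (nat_lit 3093) (.e (nat_lit 1214) (nat_lit 89) (.e (nat_lit 73746) (nat_lit 3) (.e (nat_lit 516165) (nat_lit 12) (.e (nat_lit 450586) (nat_lit 10) (.e (nat_lit 573478) (nat_lit 12) (.e (nat_lit 57351) (nat_lit 0) (.e (nat_lit 7122) (nat_lit 382) .nil))))))) (.g (nat_lit 4) .nil .nil))) 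
(.lf (nat_lit 35067) (.g (nat_lit 3360) (.e (nat_lit 1214) (nat_lit 89) (.e (nat_lit 73746) (nat_lit 3) (.e (nat_lit 516166) (nat_lit 12) (.e (nat_lit 450588) (nat_lit 10) (.e (nat_lit 573473) (nat_lit 12) (.e (nat_lit 57347) (nat_lit 0) (.e (nat_lit 7124) (nat_lit 382) .nil))))))) (.g (nat_lit 4) .nil .nil)))))) (.nd (nat_lit 3) (.nd (nat_lit 4) (.nd (nat_lit 5) 
(.lf (nat_lit 35015) (.g (nat_lit 2750) (.e (nat_lit 1214) (nat_lit 89) (.e (nat_lit 73746) (nat_lit 3) (.e (nat_lit 516165) (nat_lit 12) (.e (nat_lit 450586) (nat_lit 10) (.e (nat_lit 573473) (nat_lit 12) (.e (nat_lit 57347) (nat_lit 0) (.e (nat_lit 7124) (nat_lit 382) .nil))))))) (.g (nat_lit 4) .nil .nil))) 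
(.lf (nat_lit 35047) (.g (nat_lit 4202) (.e (nat_lit 1214) (nat_lit 89) (.e (nat_lit 73746) (nat_lit 3) (.e (nat_lit 516165) (nat_lit 12) (.e (nat_lit 450588) (nat_lit 10) (.e (nat_lit 573473) (nat_lit 12) (.e (nat_lit 57348) (nat_lit 0) (.e (nat_lit 7124) (nat_lit 382) .nil))))))) (.g (nat_lit 5) .nil .nil)))) (.nd (nat_lit 5) 
(.lf (nat_lit 35031) (.g (nat_lit 3258) (.e (nat_lit 1214) (nat_lit 89) (.e (nat_lit 73746) (nat_lit 3) (.e (nat_lit 516165) (nat_lit 12) (.e (nat_lit 450586) (nat_lit 10) (.e (nat_lit 573477) (nat_lit 12) (.e (nat_lit 57351) (nat_lit 0) (.e (nat_lit 7125) (nat_lit 382) .nil))))))) (.g (nat_lit 5) .nil .nil))) 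
(.lf (nat_lit 35063) (.g (nat_lit 5536) (.e (nat_lit 1214) (nat_lit 89) (.e (nat_lit 73746) (nat_lit 3) (.e (nat_lit 516166) (nat_lit 12) (.e (nat_lit 450587) (nat_lit 10) (.e (nat_lit 573477) (nat_lit 12) (.e (nat_lit 57353) (nat_lit 0) (.e (nat_lit 7125) (nat_lit 382) .nil))))))) (.g (nat_lit 0) .nil .nil))))) (.nd (nat_lit 4) (.nd (nat_lit 5) 
(.lf (nat_lit 35023) (.g (nat_lit 3286) (.e (nat_lit 1214) (nat_lit 89) (.e (nat_lit 73746) (nat_lit 3) (.e (nat_lit 516165) (nat_lit 12) (.e (nat_lit 450586) (nat_lit 10) (.e (nat_lit 573473) (nat_lit 12) (.e (nat_lit 57353) (nat_lit 0) (.e (nat_lit 7124) (nat_lit 382) .nil))))))) (.g (nat_lit 5) .nil .nil))) 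
(.lf (nat_lit 35055) (.g (nat_lit 5890) (.e (nat_lit 1214) (nat_lit 89) (.e (nat_lit 73746) (nat_lit 3) (.e (nat_lit 516165) (nat_lit 12) (.e (nat_lit 450588) (nat_lit 10) (.e (nat_lit 573475) (nat_lit 12) (.e (nat_lit 57347) (nat_lit 0) (.e (nat_lit 7125) (nat_lit 382) .nil))))))) (.g (nat_lit 7) .nil .nil)))) (.nd (nat_lit 5) 
(.lf (nat_lit 35039) (.g (nat_lit 2727) (.e (nat_lit 1214) (nat_lit 89) (.e (nat_lit 73746) (nat_lit 3) (.e (nat_lit 516165) (nat_lit 12) (.e (nat_lit 450587) (nat_lit 10) (.e (nat_lit 573477) (nat_lit 12) (.e (nat_lit 57352) (nat_lit 0) (.e (nat_lit 7122) (nat_lit 382) .nil))))))) (.g (nat_lit 5) .nil .nil))) 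
(.lf (nat_lit 35071) (.g (nat_lit 3995) (.e (nat_lit 1214) (nat_lit 89) (.e (nat_lit 73746) (nat_lit 3) (.e (nat_lit 516166) (nat_lit 12) (.e (nat_lit 450588) (nat_lit 10) (.e (nat_lit 573473) (nat_lit 12) (.e (nat_lit 57348) (nat_lit 0) (.e (nat_lit 7124) (nat_lit 382) .nil))))))) (.g (nat_lit 5) .nil .nil)))))))))

noncomputable def tv490 : DT := (.nd (nat_lit 0) (.nd (nat_lit 1) (.nd (nat_lit 2) (.nd (nat_lit 3) (.nd (nat_lit 4) (.nd (nat_lit 5) 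
(.lf (nat_lit 35072) (.g (nat_lit 5126) (.e (nat_lit 1214) (nat_lit 89) (.e (nat_lit 73746) (nat_lit 3) (.e (nat_lit 516166) (nat_lit 12) (.e (nat_lit 450588) (nat_lit 10) (.e (nat_lit 573473) (nat_lit 12) (.e (nat_lit 57348) (nat_lit 0) (.e (nat_lit 7125) (nat_lit 382) .nil))))))) (.g (nat_lit 7) .nil .nil))) 
(.lf (nat_lit 35104) (.g (nat_lit 4065) (.e (nat_lit 1214) (nat_lit 89) (.e (nat_lit 73749) (nat_lit 4) (.e (nat_lit 524322) (nat_lit 12) (.e (nat_lit 450588) (nat_lit 10) (.e (nat_lit 573473) (nat_lit 12) (.e (nat_lit 57347) (nat_lit 0) (.e (nat_lit 7125) (nat_lit 382) .nil))))))) (.g (nat_lit 5) .nil .nil)))) (.nd (nat_lit 5) 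
(.lf (nat_lit 35088) (.g (nat_lit 440) (.e (nat_lit 1214) (nat_lit 89) (.e (nat_lit 73746) (nat_lit 3) (.e (nat_lit 516176) (nat_lit 14) .nil))) .nil)) 
(.lf (nat_lit 35120) (.g (nat_lit 4260) (.e (nat_lit 1214) (nat_lit 89) (.e (nat_lit 73753) (nat_lit 8) (.e (nat_lit 557091) (nat_lit 12) (.e (nat_lit 164238) (nat_lit 187) (.e (nat_lit 1661) (nat_lit 115) (.e (nat_lit 393251) (nat_lit 18) (.e (nat_lit 164153) (nat_lit 152) .nil))))))) (.g (nat_lit 6) .nil .nil))))) (.nd (nat_lit 4) (.nd (nat_lit 5) 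
(.lf (nat_lit 35080) (.g (nat_lit 3704) (.e (nat_lit 1214) (nat_lit 89) (.e (nat_lit 73746) (nat_lit 3) (.e (nat_lit 516166) (nat_lit 12) (.e (nat_lit 450588) (nat_lit 10) (.e (nat_lit 573475) (nat_lit 12) (.e (nat_lit 57348) (nat_lit 0) (.e (nat_lit 7124) (nat_lit 382) .nil))))))) (.g (nat_lit 4) .nil .nil))) 
(.lf (nat_lit 35112) (.g (nat_lit 3398) (.e (nat_lit 1214) (nat_lit 89) (.e (nat_lit 73753) (nat_lit 8) (.e (nat_lit 557090) (nat_lit 12) (.e (nat_lit 164238) (nat_lit 187) (.e (nat_lit 1661) (nat_lit 115) .nil))))) .nil))) (.nd (nat_lit 5) 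
(.lf (nat_lit 35096) (.g (nat_lit 1821) (.e (nat_lit 1214) (nat_lit 89) (.e (nat_lit 73746) (nat_lit 3) (.e (nat_lit 516176) (nat_lit 14) (.e (nat_lit 466977) (nat_lit 22) (.e (nat_lit 196651) (nat_lit 10) (.e (nat_lit 8197) (nat_lit 0) (.e (nat_lit 6270) (nat_lit 337) .nil))))))) (.g (nat_lit 4) .nil .nil))) 
(.lf (nat_lit 35128) (.g (nat_lit 624) (.e (nat_lit 1214) (nat_lit 89) (.e (nat_lit 73753) (nat_lit 8) (.e (nat_lit 557094) (nat_lit 12) .nil))) .nil))))) (.nd (nat_lit 3) (.nd (nat_lit 4) (.nd (nat_lit 5) 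
(.lf (nat_lit 35076) (.g (nat_lit 3676) (.e (nat_lit 1214) (nat_lit 89) (.e (nat_lit 73746) (nat_lit 3) (.e (nat_lit 516166) (nat_lit 12) (.e (nat_lit 450588) (nat_lit 10) (.e (nat_lit 573475) (nat_lit 12) (.e (nat_lit 57347) (nat_lit 0) (.e (nat_lit 7119) (nat_lit 382) .nil))))))) (.g (nat_lit 4) .nil .nil))) 
(.lf (nat_lit 35108) (.g (nat_lit 4067) (.e (nat_lit 1214) (nat_lit 89) (.e (nat_lit 73749) (nat_lit 4) (.e (nat_lit 524322) (nat_lit 12) (.e (nat_lit 450588) (nat_lit 10) (.e (nat_lit 573475) (nat_lit 12) (.e (nat_lit 57348) (nat_lit 0) (.e (nat_lit 7125) (nat_lit 382) .nil))))))) (.g (nat_lit 5) .nil .nil)))) (.nd (nat_lit 5) 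
(.lf (nat_lit 35092) (.g (nat_lit 2856) (.e (nat_lit 1214) (nat_lit 89) (.e (nat_lit 73746) (nat_lit 3) (.e (nat_lit 516176) (nat_lit 14) (.e (nat_lit 466967) (nat_lit 20) (.e (nat_lit 3305) (nat_lit 202) (.e (nat_lit 573477) (nat_lit 12) (.e (nat_lit 57353) (nat_lit 0) (.e (nat_lit 7125) (nat_lit 382) .nil)))))))) (.g (nat_lit 5) .nil .nil))) 
(.lf (nat_lit 35124) (.g (nat_lit 3283) (.e (nat_lit 1214) (nat_lit 89) (.e (nat_lit 73753) (nat_lit 8) (.e (nat_lit 557093) (nat_lit 12) (.e (nat_lit 164238) (nat_lit 187) (.e (nat_lit 1661) (nat_lit 115) (.e (nat_lit 393251) (nat_lit 18) (.e (nat_lit 164148) (nat_lit 152) .nil))))))) (.g (nat_lit 5) .nil .nil))))) (.nd (nat_lit 4) (.nd (nat_lit 5) 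
(.lf (nat_lit 35084) (.g (nat_lit 598) (.e (nat_lit 1214) (nat_lit 89) (.e (nat_lit 73746) (nat_lit 3) (.e (nat_lit 516167) (nat_lit 12) .nil))) .nil)) 
(.lf (nat_lit 35116) (.g (nat_lit 2110) (.e (nat_lit 1214) (nat_lit 89) (.e (nat_lit 73753) (nat_lit 8) (.e (nat_lit 557091) (nat_lit 12) (.e (nat_lit 164238) (nat_lit 187) (.e (nat_lit 1660) (nat_lit 115) .nil))))) .nil))) (.nd (nat_lit 5) 
(.lf (nat_lit 35100) (.g (nat_lit 2346) (.e (nat_lit 1214) (nat_lit 89) (.e (nat_lit 73746) (nat_lit 3) (.e (nat_lit 516176) (nat_lit 14) (.e (nat_lit 466977) (nat_lit 22) (.e (nat_lit 196651) (nat_lit 10) (.e (nat_lit 8199) (nat_lit 0) (.e (nat_lit 6274) (nat_lit 337) .nil))))))) (.g (nat_lit 5) .nil .nil))) 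
(.lf (nat_lit 35132) (.g (nat_lit 1713) (.e (nat_lit 1214) (nat_lit 89) (.e (nat_lit 73753) (nat_lit 8) (.e (nat_lit 557094) (nat_lit 12) (.e (nat_lit 164238) (nat_lit 187) (.e (nat_lit 1660) (nat_lit 115) (.e (nat_lit 393253) (nat_lit 18) (.e (nat_lit 164153) (nat_lit 152) .nil))))))) (.g (nat_lit 4) .nil .nil))))))) (.nd (nat_lit 2) (.nd (nat_lit 3) (.nd (nat_lit 4) (.nd (nat_lit 5) 
(.lf (nat_lit 35074) (.g (nat_lit 3724) (.e (nat_lit 1214) (nat_lit 89) (.e (nat_lit 73746) (nat_lit 3) (.e (nat_lit 516166) (nat_lit 12) (.e (nat_lit 450588) (nat_lit 10) (.e (nat_lit 573473) (nat_lit 12) (.e (nat_lit 57353) (nat_lit 0) (.e (nat_lit 7122) (nat_lit 382) .nil))))))) (.g (nat_lit 4) .nil .nil))) 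
(.lf (nat_lit 35106) (.g (nat_lit 3099) (.e (nat_lit 1214) (nat_lit 89) (.e (nat_lit 73749) (nat_lit 4) (.e (nat_lit 524322) (nat_lit 12) (.e (nat_lit 450588) (nat_lit 10) (.e (nat_lit 573473) (nat_lit 12) (.e (nat_lit 57352) (nat_lit 0) (.e (nat_lit 7122) (nat_lit 382) .nil))))))) (.g (nat_lit 4) .nil .nil)))) (.nd (nat_lit 5) 
(.lf (nat_lit 35090) (.g (nat_lit 1404) (.e (nat_lit 1214) (nat_lit 89) (.e (nat_lit 73746) (nat_lit 3) (.e (nat_lit 516176) (nat_lit 14) (.e (nat_lit 466967) (nat_lit 20) .nil)))) .nil)) 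
(.lf (nat_lit 35122) (.g (nat_lit 2554) (.e (nat_lit 1214) (nat_lit 89) (.e (nat_lit 73753) (nat_lit 8) (.e (nat_lit 557091) (nat_lit 12) (.e (nat_lit 164238) (nat_lit 187) (.e (nat_lit 1661) (nat_lit 115) (.e (nat_lit 393253) (nat_lit 18) (.e (nat_lit 164155) (nat_lit 152) .nil))))))) (.g (nat_lit 4) .nil .nil))))) (.nd (nat_lit 4) (.nd (nat_lit 5) 
(.lf (nat_lit 35082) (.g (nat_lit 4169) (.e (nat_lit 1214) (nat_lit 89) (.e (nat_lit 73746) (nat_lit 3) (.e (nat_lit 516166) (nat_lit 12) (.e (nat_lit 450588) (nat_lit 10) (.e (nat_lit 573475) (nat_lit 12) (.e (nat_lit 57351) (nat_lit 0) (.e (nat_lit 7122) (nat_lit 382) .nil))))))) (.g (nat_lit 5) .nil .nil))) 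
(.lf (nat_lit 35114) (.g (nat_lit 2249) (.e (nat_lit 1214) (nat_lit 89) (.e (nat_lit 73753) (nat_lit 8) (.e (nat_lit 557091) (nat_lit 12) (.e (nat_lit 164238) (nat_lit 187) (.e (nat_lit 1659) (nat_lit 115) (.e (nat_lit 393253) (nat_lit 18) (.e (nat_lit 164153) (nat_lit 152) .nil))))))) (.g (nat_lit 4) .nil .nil)))) (.nd (nat_lit 5) 
(.lf (nat_lit 35098) (.g (nat_lit 1806) (.e (nat_lit 1214) (nat_lit 89) (.e (nat_lit 73746) (nat_lit 3) (.e (nat_lit 516176) (nat_lit 14) (.e (nat_lit 466977) (nat_lit 22) (.e (nat_lit 196651) (nat_lit 10) (.e (nat_lit 8197) (nat_lit 0) (.e (nat_lit 6276) (nat_lit 337) .nil))))))) (.g (nat_lit 4) .nil .nil))) 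
(.lf (nat_lit 35130) (.g (nat_lit 2070) (.e (nat_lit 1214) (nat_lit 89) (.e (nat_lit 73753) (nat_lit 8) (.e (nat_lit 557094) (nat_lit 12) (.e (nat_lit 164238) (nat_lit 187) (.e (nat_lit 1659) (nat_lit 115) (.e (nat_lit 393253) (nat_lit 18) (.e (nat_lit 164155) (nat_lit 152) .nil))))))) (.g (nat_lit 4) .nil .nil)))))) (.nd (nat_lit 3) (.nd (nat_lit 4) (.nd (nat_lit 5) 
(.lf (nat_lit 35078) (.g (nat_lit 5903) (.e (nat_lit 1214) (nat_lit 89) (.e (nat_lit 73746) (nat_lit 3) (.e (nat_lit 516166) (nat_lit 12) (.e (nat_lit 450588) (nat_lit 10) (.e (nat_lit 573475) (nat_lit 12) (.e (nat_lit 57347) (nat_lit 0) (.e (nat_lit 7125) (nat_lit 382) .nil))))))) (.g (nat_lit 7) .nil .nil))) 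
(.lf (nat_lit 35110) (.g (nat_lit 4239) (.e (nat_lit 1214) (nat_lit 89) (.e (nat_lit 73753) (nat_lit 8) (.e (nat_lit 557072) (nat_lit 9) (.e (nat_lit 3098) (nat_lit 192) (.e (nat_lit 491571) (nat_lit 13) (.e (nat_lit 393251) (nat_lit 18) (.e (nat_lit 164153) (nat_lit 152) .nil))))))) (.g (nat_lit 6) .nil .nil)))) (.nd (nat_lit 5) 
(.lf (nat_lit 35094) (.g (nat_lit 1690) (.e (nat_lit 1214) (nat_lit 89) (.e (nat_lit 73746) (nat_lit 3) (.e (nat_lit 516176) (nat_lit 14) (.e (nat_lit 466977) (nat_lit 22) (.e (nat_lit 196651) (nat_lit 10) .nil))))) .nil)) 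
(.lf (nat_lit 35126) (.g (nat_lit 3410) (.e (nat_lit 1214) (nat_lit 89) (.e (nat_lit 73753) (nat_lit 8) (.e (nat_lit 557093) (nat_lit 12) (.e (nat_lit 164239) (nat_lit 187) (.e (nat_lit 1661) (nat_lit 115) (.e (nat_lit 393251) (nat_lit 18) (.e (nat_lit 164153) (nat_lit 152) .nil))))))) (.g (nat_lit 6) .nil .nil))))) (.nd (nat_lit 4) (.nd (nat_lit 5) 
(.lf (nat_lit 35086) (.g (nat_lit 1500) (.e (nat_lit 1214) (nat_lit 89) (.e (nat_lit 73746) (nat_lit 3) (.e (nat_lit 516174) (nat_lit 14) (.e (nat_lit 466967) (nat_lit 20) .nil)))) .nil)) 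
(.lf (nat_lit 35118) (.g (nat_lit 2793) (.e (nat_lit 1214) (nat_lit 89) (.e (nat_lit 73753) (nat_lit 8) (.e (nat_lit 557091) (nat_lit 12) (.e (nat_lit 164238) (nat_lit 187) (.e (nat_lit 1660) (nat_lit 115) (.e (nat_lit 393253) (nat_lit 18) (.e (nat_lit 164155) (nat_lit 152) .nil))))))) (.g (nat_lit 5) .nil .nil)))) (.nd (nat_lit 5) 
(.lf (nat_lit 35102) (.g (nat_lit 1242) (.e (nat_lit 1214) (nat_lit 89) (.e (nat_lit 73746) (nat_lit 3) (.e (nat_lit 516176) (nat_lit 14) (.e (nat_lit 466981) (nat_lit 23) .nil)))) .nil)) 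
(.lf (nat_lit 35134) (.g (nat_lit 3557) (.e (nat_lit 1214) (nat_lit 89) (.e (nat_lit 73753) (nat_lit 8) (.e (nat_lit 557094) (nat_lit 12) (.e (nat_lit 164238) (nat_lit 187) (.e (nat_lit 1661) (nat_lit 115) (.e (nat_lit 393251) (nat_lit 18) (.e (nat_lit 164148) (nat_lit 152) .nil))))))) (.g (nat_lit 6) .nil .nil)))))))) 
(.nd (nat_lit 1) (.nd (nat_lit 2) (.nd (nat_lit 3) (.nd (nat_lit 4) (.nd (nat_lit 5) 
(.lf (nat_lit 35073) (.g (nat_lit 4283) (.e (nat_lit 1214) (nat_lit 89) (.e (nat_lit 73746) (nat_lit 3) (.e (nat_lit 516166) (nat_lit 12) (.e (nat_lit 450588) (nat_lit 10) (.e (nat_lit 573473) (nat_lit 12) (.e (nat_lit 57352) (nat_lit 0) (.e (nat_lit 7122) (nat_lit 382) .nil))))))) (.g (nat_lit 5) .nil .nil))) 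
(.lf (nat_lit 35105) (.g (nat_lit 3947) (.e (nat_lit 1214) (nat_lit 89) (.e (nat_lit 73749) (nat_lit 4) (.e (nat_lit 524322) (nat_lit 12) (.e (nat_lit 450588) (nat_lit 10) (.e (nat_lit 573473) (nat_lit 12) (.e (nat_lit 57348) (nat_lit 0) (.e (nat_lit 7125) (nat_lit 382) .nil))))))) (.g (nat_lit 5) .nil .nil)))) (.nd (nat_lit 5) 
(.lf (nat_lit 35089) (.g (nat_lit 1607) (.e (nat_lit 1214) (nat_lit 89) (.e (nat_lit 73746) (nat_lit 3) (.e (nat_lit 516176) (nat_lit 14) (.e (nat_lit 466963) (nat_lit 20) .nil)))) .nil)) 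
(.lf (nat_lit 35121) (.g (nat_lit 3962) (.e (nat_lit 1214) (nat_lit 89) (.e (nat_lit 73753) (nat_lit 8) (.e (nat_lit 557091) (nat_lit 12) (.e (nat_lit 164238) (nat_lit 187) (.e (nat_lit 1661) (nat_lit 115) (.e (nat_lit 393251) (nat_lit 18) (.e (nat_lit 164155) (nat_lit 152) .nil))))))) (.g (nat_lit 6) .nil .nil))))) (.nd (nat_lit 4) (.nd (nat_lit 5) 
(.lf (nat_lit 35081) (.g (nat_lit 4894) (.e (nat_lit 1214) (nat_lit 89) (.e (nat_lit 73746) (nat_lit 3) (.e (nat_lit 516166) (nat_lit 12) (.e (nat_lit 450588) (nat_lit 10) (.e (nat_lit 573475) (nat_lit 12) (.e (nat_lit 57348) (nat_lit 0) (.e (nat_lit 7125) (nat_lit 382) .nil))))))) (.g (nat_lit 6) .nil .nil))) 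
(.lf (nat_lit 35113) (.g (nat_lit 1540) (.e (nat_lit 1214) (nat_lit 89) (.e (nat_lit 73753) (nat_lit 8) (.e (nat_lit 557091) (nat_lit 12) (.e (nat_lit 164213) (nat_lit 176) .nil)))) .nil))) (.nd (nat_lit 5) 
(.lf (nat_lit 35097) (.g (nat_lit 2563) (.e (nat_lit 1214) (nat_lit 89) (.e (nat_lit 73746) (nat_lit 3) (.e (nat_lit 516176) (nat_lit 14) (.e (nat_lit 466977) (nat_lit 22) (.e (nat_lit 196651) (nat_lit 10) (.e (nat_lit 8197) (nat_lit 0) (.e (nat_lit 6274) (nat_lit 337) .nil))))))) (.g (nat_lit 7) .nil .nil))) 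
(.lf (nat_lit 35129) (.g (nat_lit 1701) (.e (nat_lit 1214) (nat_lit 89) (.e (nat_lit 73753) (nat_lit 8) (.e (nat_lit 557094) (nat_lit 12) (.e (nat_lit 164238) (nat_lit 187) (.e (nat_lit 1659) (nat_lit 115) .nil))))) .nil))))) (.nd (nat_lit 3) (.nd (nat_lit 4) (.nd (nat_lit 5) 
(.lf (nat_lit 35077) (.g (nat_lit 4403) (.e (nat_lit 1214) (nat_lit 89) (.e (nat_lit 73746) (nat_lit 3) (.e (nat_lit 516166) (nat_lit 12) (.e (nat_lit 450588) (nat_lit 10) (.e (nat_lit 573475) (nat_lit 12) (.e (nat_lit 57347) (nat_lit 0) (.e (nat_lit 7124) (nat_lit 382) .nil))))))) (.g (nat_lit 5) .nil .nil))) 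
(.lf (nat_lit 35109) (.g (nat_lit 3825) (.e (nat_lit 1214) (nat_lit 89) (.e (nat_lit 73749) (nat_lit 4) (.e (nat_lit 524322) (nat_lit 12) (.e (nat_lit 450588) (nat_lit 10) (.e (nat_lit 573475) (nat_lit 12) (.e (nat_lit 57351) (nat_lit 0) (.e (nat_lit 7125) (nat_lit 382) .nil))))))) (.g (nat_lit 5) .nil .nil)))) (.nd (nat_lit 5) 
(.lf (nat_lit 35093) (.g (nat_lit 1190) (.e (nat_lit 1214) (nat_lit 89) (.e (nat_lit 73746) (nat_lit 3) (.e (nat_lit 516176) (nat_lit 14) (.e (nat_lit 466977) (nat_lit 22) .nil)))) .nil)) 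
(.lf (nat_lit 35125) (.g (nat_lit 3599) (.e (nat_lit 1214) (nat_lit 89) (.e (nat_lit 73753) (nat_lit 8) (.e (nat_lit 557093) (nat_lit 12) (.e (nat_lit 164238) (nat_lit 187) (.e (nat_lit 1661) (nat_lit 115) (.e (nat_lit 393251) (nat_lit 18) (.e (nat_lit 164153) (nat_lit 152) .nil))))))) (.g (nat_lit 6) .nil .nil))))) (.nd (nat_lit 4) (.nd (nat_lit 5) 
(.lf (nat_lit 35085) (.g (nat_lit 473) (.e (nat_lit 1214) (nat_lit 89) (.e (nat_lit 73746) (nat_lit 3) (.e (nat_lit 516174) (nat_lit 14) .nil))) .nil)) 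
(.lf (nat_lit 35117) (.g (nat_lit 2452) (.e (nat_lit 1214) (nat_lit 89) (.e (nat_lit 73753) (nat_lit 8) (.e (nat_lit 557091) (nat_lit 12) (.e (nat_lit 164238) (nat_lit 187) (.e (nat_lit 1660) (nat_lit 115) (.e (nat_lit 393253) (nat_lit 18) (.e (nat_lit 164153) (nat_lit 152) .nil))))))) (.g (nat_lit 4) .nil .nil)))) (.nd (nat_lit 5) 
(.lf (nat_lit 35101) (.g (nat_lit 1076) (.e (nat_lit 1214) (nat_lit 89) (.e (nat_lit 73746) (nat_lit 3) (.e (nat_lit 516176) (nat_lit 14) (.e (nat_lit 466980) (nat_lit 23) .nil)))) .nil)) 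
(.lf (nat_lit 35133) (.g (nat_lit 2096) (.e (nat_lit 1214) (nat_lit 89) (.e (nat_lit 73753) (nat_lit 8) (.e (nat_lit 557094) (nat_lit 12) (.e (nat_lit 164238) (nat_lit 187) (.e (nat_lit 1660) (nat_lit 115) (.e (nat_lit 393253) (nat_lit 18) (.e (nat_lit 164155) (nat_lit 152) .nil))))))) (.g (nat_lit 4) .nil .nil))))))) (.nd (nat_lit 2) (.nd (nat_lit 3) (.nd (nat_lit 4) (.nd (nat_lit 5) 
(.lf (nat_lit 35075) (.g (nat_lit 3189) (.e (nat_lit 1214) (nat_lit 89) (.e (nat_lit 73746) (nat_lit 3) (.e (nat_lit 516166) (nat_lit 12) (.e (nat_lit 450588) (nat_lit 10) (.e (nat_lit 573475) (nat_lit 12) .nil))))) .nil)) 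
(.lf (nat_lit 35107) (.g (nat_lit 3866) (.e (nat_lit 1214) (nat_lit 89) (.e (nat_lit 73749) (nat_lit 4) (.e (nat_lit 524322) (nat_lit 12) (.e (nat_lit 450588) (nat_lit 10) (.e (nat_lit 573473) (nat_lit 12) (.e (nat_lit 57353) (nat_lit 0) (.e (nat_lit 7125) (nat_lit 382) .nil))))))) (.g (nat_lit 5) .nil .nil)))) (.nd (nat_lit 5) 
(.lf (nat_lit 35091) (.g (nat_lit 1657) (.e (nat_lit 1214) (nat_lit 89) (.e (nat_lit 73746) (nat_lit 3) (.e (nat_lit 516176) (nat_lit 14) (.e (nat_lit 466967) (nat_lit 20) (.e (nat_lit 3305) (nat_lit 202) .nil))))) .nil)) 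
(.lf (nat_lit 35123) (.g (nat_lit 1943) (.e (nat_lit 1214) (nat_lit 89) (.e (nat_lit 73753) (nat_lit 8) (.e (nat_lit 557093) (nat_lit 12) (.e (nat_lit 164238) (nat_lit 187) (.e (nat_lit 1660) (nat_lit 115) .nil))))) .nil)))) (.nd (nat_lit 4) (.nd (nat_lit 5) 
(.lf (nat_lit 35083) (.g (nat_lit 3585) (.e (nat_lit 1214) (nat_lit 89) (.e (nat_lit 73746) (nat_lit 3) (.e (nat_lit 516166) (nat_lit 12) (.e (nat_lit 450588) (nat_lit 10) (.e (nat_lit 573475) (nat_lit 12) (.e (nat_lit 57351) (nat_lit 0) (.e (nat_lit 7124) (nat_lit 382) .nil))))))) (.g (nat_lit 4) .nil .nil))) 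
(.lf (nat_lit 35115) (.g (nat_lit 2590) (.e (nat_lit 1214) (nat_lit 89) (.e (nat_lit 73753) (nat_lit 8) (.e (nat_lit 557091) (nat_lit 12) (.e (nat_lit 164238) (nat_lit 187) (.e (nat_lit 1659) (nat_lit 115) (.e (nat_lit 393253) (nat_lit 18) (.e (nat_lit 164155) (nat_lit 152) .nil))))))) (.g (nat_lit 4) .nil .nil)))) (.nd (nat_lit 5) 
(.lf (nat_lit 35099) (.g (nat_lit 2014) (.e (nat_lit 1214) (nat_lit 89) (.e (nat_lit 73746) (nat_lit 3) (.e (nat_lit 516176) (nat_lit 14) (.e (nat_lit 466977) (nat_lit 22) (.e (nat_lit 196651) (nat_lit 10) (.e (nat_lit 8198) (nat_lit 0) (.e (nat_lit 6274) (nat_lit 337) .nil))))))) (.g (nat_lit 4) .nil .nil))) 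
(.lf (nat_lit 35131) (.g (nat_lit 1708) (.e (nat_lit 1214) (nat_lit 89) (.e (nat_lit 73753) (nat_lit 8) (.e (nat_lit 557094) (nat_lit 12) (.e (nat_lit 164238) (nat_lit 187) (.e (nat_lit 1660) (nat_lit 115) .nil))))) .nil))))) (.nd (nat_lit 3) (.nd (nat_lit 4) (.nd (nat_lit 5) 
(.lf (nat_lit 35079) (.g (nat_lit 3558) (.e (nat_lit 1214) (nat_lit 89) (.e (nat_lit 73746) (nat_lit 3) (.e (nat_lit 516166) (nat_lit 12) (.e (nat_lit 450588) (nat_lit 10) (.e (nat_lit 573475) (nat_lit 12) (.e (nat_lit 57348) (nat_lit 0) (.e (nat_lit 7122) (nat_lit 382) .nil))))))) (.g (nat_lit 4) .nil .nil))) 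
(.lf (nat_lit 35111) (.g (nat_lit 3556) (.e (nat_lit 1214) (nat_lit 89) (.e (nat_lit 73753) (nat_lit 8) (.e (nat_lit 557072) (nat_lit 9) (.e (nat_lit 3098) (nat_lit 192) (.e (nat_lit 491571) (nat_lit 13) (.e (nat_lit 393251) (nat_lit 18) (.e (nat_lit 164155) (nat_lit 152) .nil))))))) (.g (nat_lit 5) .nil .nil)))) (.nd (nat_lit 5) 
(.lf (nat_lit 35095) (.g (nat_lit 1820) (.e (nat_lit 1214) (nat_lit 89) (.e (nat_lit 73746) (nat_lit 3) (.e (nat_lit 516176) (nat_lit 14) (.e (nat_lit 466977) (nat_lit 22) (.e (nat_lit 196651) (nat_lit 10) (.e (nat_lit 8192) (nat_lit 0) (.e (nat_lit 6274) (nat_lit 337) .nil))))))) (.g (nat_lit 4) .nil .nil))) 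
(.lf (nat_lit 35127) (.g (nat_lit 2884) (.e (nat_lit 1214) (nat_lit 89) (.e (nat_lit 73753) (nat_lit 8) (.e (nat_lit 557093) (nat_lit 12) (.e (nat_lit 164239) (nat_lit 187) (.e (nat_lit 1661) (nat_lit 115) (.e (nat_lit 393251) (nat_lit 18) (.e (nat_lit 164155) (nat_lit 152) .nil))))))) (.g (nat_lit 5) .nil .nil))))) (.nd (nat_lit 4) (.nd (nat_lit 5) 
(.lf (nat_lit 35087) (.g (nat_lit 2050) (.e (nat_lit 1214) (nat_lit 89) (.e (nat_lit 73746) (nat_lit 3) (.e (nat_lit 516174) (nat_lit 14) (.e (nat_lit 466967) (nat_lit 20) (.e (nat_lit 3304) (nat_lit 202) (.e (nat_lit 573477) (nat_lit 12) (.e (nat_lit 57353) (nat_lit 0) (.e (nat_lit 7125) (nat_lit 382) .nil)))))))) (.g (nat_lit 4) .nil .nil))) 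
(.lf (nat_lit 35119) (.g (nat_lit 3905) (.e (nat_lit 1214) (nat_lit 89) (.e (nat_lit 73753) (nat_lit 8) (.e (nat_lit 557091) (nat_lit 12) (.e (nat_lit 164238) (nat_lit 187) (.e (nat_lit 1661) (nat_lit 115) (.e (nat_lit 393251) (nat_lit 18) (.e (nat_lit 164148) (nat_lit 152) .nil))))))) (.g (nat_lit 6) .nil .nil)))) (.nd (nat_lit 5) 
(.lf (nat_lit 35103) (.g (nat_lit 2590) (.e (nat_lit 1214) (nat_lit 89) (.e (nat_lit 73746) (nat_lit 3) (.e (nat_lit 516176) (nat_lit 14) (.e (nat_lit 466981) (nat_lit 23) (.e (nat_lit 204830) (nat_lit 18) (.e (nat_lit 65280) (nat_lit 221) .nil)))))) (.g (nat_lit 4) .nil .nil))) 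
(.lf (nat_lit 35135) (.g (nat_lit 3870) (.e (nat_lit 1214) (nat_lit 89) (.e (nat_lit 73753) (nat_lit 8) (.e (nat_lit 557094) (nat_lit 12) (.e (nat_lit 164238) (nat_lit 187) (.e (nat_lit 1661) (nat_lit 115) (.e (nat_lit 393251) (nat_lit 18) (.e (nat_lit 164153) (nat_lit 152) .nil))))))) (.g (nat_lit 6) .nil .nil)))))))))

noncomputable def tv491 : DT := (.nd (nat_lit 0) (.nd (nat_lit 1) (.nd (nat_lit 2) (.nd (nat_lit 3) (.nd (nat_lit 4) (.nd (nat_lit 5) 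
(.lf (nat_lit 35136) (.g (nat_lit 3614) (.e (nat_lit 1214) (nat_lit 89) (.e (nat_lit 73753) (nat_lit 8) (.e (nat_lit 557094) (nat_lit 12) (.e (nat_lit 164238) (nat_lit 187) (.e (nat_lit 1661) (nat_lit 115) (.e (nat_lit 393251) (nat_lit 18) (.e (nat_lit 164155) (nat_lit 152) .nil))))))) (.g (nat_lit 6) .nil .nil))) 
(.lf (nat_lit 35168) (.g (nat_lit 393) (.e (nat_lit 1214) (nat_lit 89) (.e (nat_lit 73753) (nat_lit 8) (.e (nat_lit 557105) (nat_lit 14) .nil))) .nil))) (.nd (nat_lit 5) 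
(.lf (nat_lit 35152) (.g (nat_lit 1449) (.e (nat_lit 1214) (nat_lit 89) (.e (nat_lit 73753) (nat_lit 8) (.e (nat_lit 557101) (nat_lit 13) (.e (nat_lit 172061) (nat_lit 1) .nil)))) .nil)) 
(.lf (nat_lit 35184) (.g (nat_lit 2934) (.e (nat_lit 1214) (nat_lit 89) (.e (nat_lit 73754) (nat_lit 8) (.e (nat_lit 557091) (nat_lit 12) (.e (nat_lit 164238) (nat_lit 187) (.e (nat_lit 1661) (nat_lit 115) .nil))))) .nil)))) (.nd (nat_lit 4) (.nd (nat_lit 5) 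
(.lf (nat_lit 35144) (.g (nat_lit 3220) (.e (nat_lit 1214) (nat_lit 89) (.e (nat_lit 73753) (nat_lit 8) (.e (nat_lit 557098) (nat_lit 13) (.e (nat_lit 172133) (nat_lit 15) (.e (nat_lit 2059) (nat_lit 142) (.e (nat_lit 704596) (nat_lit 5) (.e (nat_lit 180228) (nat_lit 0) (.e (nat_lit 6277) (nat_lit 337) .nil)))))))) (.g (nat_lit 5) .nil .nil))) 
(.lf (nat_lit 35176) (.g (nat_lit 2007) (.e (nat_lit 1214) (nat_lit 89) (.e (nat_lit 73753) (nat_lit 8) (.e (nat_lit 557105) (nat_lit 14) (.e (nat_lit 180265) (nat_lit 21) (.e (nat_lit 663568) (nat_lit 5) (.e (nat_lit 73731) (nat_lit 0) (.e (nat_lit 7125) (nat_lit 382) .nil))))))) (.g (nat_lit 4) .nil .nil)))) (.nd (nat_lit 5) 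
(.lf (nat_lit 35160) (.g (nat_lit 1754) (.e (nat_lit 1214) (nat_lit 89) (.e (nat_lit 73753) (nat_lit 8) (.e (nat_lit 557103) (nat_lit 14) (.e (nat_lit 180229) (nat_lit 0) .nil)))) .nil)) 
(.lf (nat_lit 35192) (.g (nat_lit 4395) (.e (nat_lit 1214) (nat_lit 89) (.e (nat_lit 73754) (nat_lit 8) (.e (nat_lit 557093) (nat_lit 12) (.e (nat_lit 164238) (nat_lit 187) (.e (nat_lit 1661) (nat_lit 115) (.e (nat_lit 393251) (nat_lit 18) (.e (nat_lit 164153) (nat_lit 152) .nil))))))) (.g (nat_lit 7) .nil .nil)))))) (.nd (nat_lit 3) (.nd (nat_lit 4) (.nd (nat_lit 5) 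
(.lf (nat_lit 35140) (.g (nat_lit 2662) (.e (nat_lit 1214) (nat_lit 89) (.e (nat_lit 73753) (nat_lit 8) (.e (nat_lit 557098) (nat_lit 13) (.e (nat_lit 172061) (nat_lit 1) (.e (nat_lit 164319) (nat_lit 228) (.e (nat_lit 57389) (nat_lit 5) (.e (nat_lit 114712) (nat_lit 21) (.e (nat_lit 57830) (nat_lit 250) .nil)))))))) (.g (nat_lit 4) .nil .nil))) 
(.lf (nat_lit 35172) (.g (nat_lit 2660) (.e (nat_lit 1214) (nat_lit 89) (.e (nat_lit 73753) (nat_lit 8) (.e (nat_lit 557105) (nat_lit 14) (.e (nat_lit 180261) (nat_lit 20) (.e (nat_lit 655364) (nat_lit 0) .nil))))) .nil))) (.nd (nat_lit 5) 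
(.lf (nat_lit 35156) (.g (nat_lit 469) (.e (nat_lit 1214) (nat_lit 89) (.e (nat_lit 73753) (nat_lit 8) (.e (nat_lit 557103) (nat_lit 14) .nil))) .nil)) 
(.lf (nat_lit 35188) (.g (nat_lit 1937) (.e (nat_lit 1214) (nat_lit 89) (.e (nat_lit 73754) (nat_lit 8) (.e (nat_lit 557093) (nat_lit 12) (.e (nat_lit 164238) (nat_lit 187) (.e (nat_lit 1660) (nat_lit 115) .nil))))) .nil)))) (.nd (nat_lit 4) (.nd (nat_lit 5) 
(.lf (nat_lit 35148) (.g (nat_lit 1583) (.e (nat_lit 1214) (nat_lit 89) (.e (nat_lit 73753) (nat_lit 8) (.e (nat_lit 557098) (nat_lit 13) (.e (nat_lit 172136) (nat_lit 15) .nil)))) .nil)) 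
(.lf (nat_lit 35180) (.g (nat_lit 2105) (.e (nat_lit 1214) (nat_lit 89) (.e (nat_lit 73754) (nat_lit 8) (.e (nat_lit 557091) (nat_lit 12) (.e (nat_lit 164213) (nat_lit 176) .nil)))) .nil))) (.nd (nat_lit 5) 
(.lf (nat_lit 35164) (.g (nat_lit 1608) (.e (nat_lit 1214) (nat_lit 89) (.e (nat_lit 73753) (nat_lit 8) (.e (nat_lit 557103) (nat_lit 14) (.e (nat_lit 188160) (nat_lit 0) .nil)))) .nil)) 
(.lf (nat_lit 35196) (.g (nat_lit 2397) (.e (nat_lit 1214) (nat_lit 89) (.e (nat_lit 73754) (nat_lit 8) (.e (nat_lit 557093) (nat_lit 12) (.e (nat_lit 164239) (nat_lit 187) (.e (nat_lit 1660) (nat_lit 115) (.e (nat_lit 393253) (nat_lit 18) (.e (nat_lit 164155) (nat_lit 152) .nil))))))) (.g (nat_lit 4) .nil .nil))))))) (.nd (nat_lit 2) (.nd (nat_lit 3) (.nd (nat_lit 4) (.nd (nat_lit 5) 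
(.lf (nat_lit 35138) (.g (nat_lit 2698) (.e (nat_lit 1214) (nat_lit 89) (.e (nat_lit 73753) (nat_lit 8) (.e (nat_lit 557096) (nat_lit 13) (.e (nat_lit 172133) (nat_lit 15) (.e (nat_lit 2175) (nat_lit 143) (.e (nat_lit 712747) (nat_lit 28) (.e (nat_lit 434209) (nat_lit 18) (.e (nat_lit 6270) (nat_lit 337) .nil)))))))) (.g (nat_lit 5) .nil .nil))) 
(.lf (nat_lit 35170) (.g (nat_lit 1532) (.e (nat_lit 1214) (nat_lit 89) (.e (nat_lit 73753) (nat_lit 8) (.e (nat_lit 557105) (nat_lit 14) (.e (nat_lit 180227) (nat_lit 0) .nil)))) .nil))) (.nd (nat_lit 5) 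
(.lf (nat_lit 35154) (.g (nat_lit 1388) (.e (nat_lit 1214) (nat_lit 89) (.e (nat_lit 73753) (nat_lit 8) (.e (nat_lit 557101) (nat_lit 13) (.e (nat_lit 172070) (nat_lit 4) .nil)))) .nil)) 
(.lf (nat_lit 35186) (.g (nat_lit 4310) (.e (nat_lit 1214) (nat_lit 89) (.e (nat_lit 73754) (nat_lit 8) (.e (nat_lit 557091) (nat_lit 12) (.e (nat_lit 164238) (nat_lit 187) (.e (nat_lit 1661) (nat_lit 115) (.e (nat_lit 393251) (nat_lit 18) (.e (nat_lit 164153) (nat_lit 152) .nil))))))) (.g (nat_lit 5) .nil .nil))))) (.nd (nat_lit 4) (.nd (nat_lit 5) 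
(.lf (nat_lit 35146) (.g (nat_lit 3112) (.e (nat_lit 1214) (nat_lit 89) (.e (nat_lit 73753) (nat_lit 8) (.e (nat_lit 557098) (nat_lit 13) (.e (nat_lit 172133) (nat_lit 15) (.e (nat_lit 2175) (nat_lit 143) (.e (nat_lit 712747) (nat_lit 28) (.e (nat_lit 434209) (nat_lit 18) (.e (nat_lit 6270) (nat_lit 337) .nil)))))))) (.g (nat_lit 5) .nil .nil))) 
(.lf (nat_lit 35178) (.g (nat_lit 2654) (.e (nat_lit 1214) (nat_lit 89) (.e (nat_lit 73754) (nat_lit 8) (.e (nat_lit 557072) (nat_lit 9) (.e (nat_lit 3098) (nat_lit 192) (.e (nat_lit 491571) (nat_lit 13) (.e (nat_lit 393251) (nat_lit 18) (.e (nat_lit 164152) (nat_lit 152) .nil))))))) (.g (nat_lit 4) .nil .nil)))) (.nd (nat_lit 5) 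
(.lf (nat_lit 35162) (.g (nat_lit 1955) (.e (nat_lit 1214) (nat_lit 89) (.e (nat_lit 73753) (nat_lit 8) (.e (nat_lit 557103) (nat_lit 14) (.e (nat_lit 180233) (nat_lit 0) .nil)))) .nil)) 
(.lf (nat_lit 35194) (.g (nat_lit 4081) (.e (nat_lit 1214) (nat_lit 89) (.e (nat_lit 73754) (nat_lit 8) (.e (nat_lit 557093) (nat_lit 12) (.e (nat_lit 164238) (nat_lit 187) (.e (nat_lit 1661) (nat_lit 115) (.e (nat_lit 393251) (nat_lit 18) (.e (nat_lit 164155) (nat_lit 152) .nil))))))) (.g (nat_lit 6) .nil .nil)))))) (.nd (nat_lit 3) (.nd (nat_lit 4) (.nd (nat_lit 5) 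
(.lf (nat_lit 35142) (.g (nat_lit 3445) (.e (nat_lit 1214) (nat_lit 89) (.e (nat_lit 73753) (nat_lit 8) (.e (nat_lit 557098) (nat_lit 13) (.e (nat_lit 172133) (nat_lit 15) (.e (nat_lit 2059) (nat_lit 142) (.e (nat_lit 704596) (nat_lit 5) (.e (nat_lit 180228) (nat_lit 0) (.e (nat_lit 6270) (nat_lit 337) .nil)))))))) (.g (nat_lit 5) .nil .nil))) 
(.lf (nat_lit 35174) (.g (nat_lit 3483) (.e (nat_lit 1214) (nat_lit 89) (.e (nat_lit 73753) (nat_lit 8) (.e (nat_lit 557105) (nat_lit 14) (.e (nat_lit 180261) (nat_lit 20) (.e (nat_lit 655364) (nat_lit 0) (.e (nat_lit 2964) (nat_lit 185) (.e (nat_lit 434209) (nat_lit 18) (.e (nat_lit 6277) (nat_lit 337) .nil)))))))) (.g (nat_lit 5) .nil .nil)))) (.nd (nat_lit 5) 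
(.lf (nat_lit 35158) (.g (nat_lit 2072) (.e (nat_lit 1214) (nat_lit 89) (.e (nat_lit 73753) (nat_lit 8) (.e (nat_lit 557103) (nat_lit 14) (.e (nat_lit 180228) (nat_lit 0) .nil)))) .nil)) 
(.lf (nat_lit 35190) (.g (nat_lit 4024) (.e (nat_lit 1214) (nat_lit 89) (.e (nat_lit 73754) (nat_lit 8) (.e (nat_lit 557093) (nat_lit 12) (.e (nat_lit 164238) (nat_lit 187) (.e (nat_lit 1661) (nat_lit 115) (.e (nat_lit 393251) (nat_lit 18) (.e (nat_lit 164148) (nat_lit 152) .nil))))))) (.g (nat_lit 6) .nil .nil))))) (.nd (nat_lit 4) (.nd (nat_lit 5) 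
(.lf (nat_lit 35150) (.g (nat_lit 2732) (.e (nat_lit 1214) (nat_lit 89) (.e (nat_lit 73753) (nat_lit 8) (.e (nat_lit 557100) (nat_lit 13) (.e (nat_lit 172138) (nat_lit 15) (.e (nat_lit 2175) (nat_lit 143) .nil))))) .nil)) 
(.lf (nat_lit 35182) (.g (nat_lit 2887) (.e (nat_lit 1214) (nat_lit 89) (.e (nat_lit 73754) (nat_lit 8) (.e (nat_lit 557091) (nat_lit 12) (.e (nat_lit 164238) (nat_lit 187) (.e (nat_lit 1659) (nat_lit 115) .nil))))) .nil))) (.nd (nat_lit 5) 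
(.lf (nat_lit 35166) (.g (nat_lit 1466) (.e (nat_lit 1214) (nat_lit 89) (.e (nat_lit 73753) (nat_lit 8) (.e (nat_lit 557103) (nat_lit 14) (.e (nat_lit 180263) (nat_lit 21) .nil)))) .nil)) 
(.lf (nat_lit 35198) (.g (nat_lit 2452) (.e (nat_lit 1214) (nat_lit 89) (.e (nat_lit 73754) (nat_lit 8) (.e (nat_lit 557093) (nat_lit 12) (.e (nat_lit 164239) (nat_lit 187) (.e (nat_lit 1661) (nat_lit 115) (.e (nat_lit 393251) (nat_lit 18) (.e (nat_lit 164152) (nat_lit 152) .nil))))))) (.g (nat_lit 5) .nil .nil)))))))) 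
(.nd (nat_lit 1) (.nd (nat_lit 2) (.nd (nat_lit 3) (.nd (nat_lit 4) (.nd (nat_lit 5) 
(.lf (nat_lit 35137) (.g (nat_lit 1825) (.e (nat_lit 1214) (nat_lit 89) (.e (nat_lit 73753) (nat_lit 8) (.e (nat_lit 557096) (nat_lit 13) (.e (nat_lit 172133) (nat_lit 15) (.e (nat_lit 2175) (nat_lit 143) .nil))))) .nil)) 
(.lf (nat_lit 35169) (.g (nat_lit 1847) (.e (nat_lit 1214) (nat_lit 89) (.e (nat_lit 73753) (nat_lit 8) (.e (nat_lit 557105) (nat_lit 14) (.e (nat_lit 180224) (nat_lit 0) .nil)))) .nil))) (.nd (nat_lit 5) 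
(.lf (nat_lit 35153) (.g (nat_lit 2012) (.e (nat_lit 1214) (nat_lit 89) (.e (nat_lit 73753) (nat_lit 8) (.e (nat_lit 557101) (nat_lit 13) (.e (nat_lit 172061) (nat_lit 1) (.e (nat_lit 164319) (nat_lit 228) (.e (nat_lit 57389) (nat_lit 5) (.e (nat_lit 114712) (nat_lit 21) (.e (nat_lit 57830) (nat_lit 250) .nil)))))))) (.g (nat_lit 4) .nil .nil))) 
(.lf (nat_lit 35185) (.g (nat_lit 3939) (.e (nat_lit 1214) (nat_lit 89) (.e (nat_lit 73754) (nat_lit 8) (.e (nat_lit 557091) (nat_lit 12) (.e (nat_lit 164238) (nat_lit 187) (.e (nat_lit 1661) (nat_lit 115) (.e (nat_lit 393251) (nat_lit 18) (.e (nat_lit 164148) (nat_lit 152) .nil))))))) (.g (nat_lit 5) .nil .nil))))) (.nd (nat_lit 4) (.nd (nat_lit 5) 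
(.lf (nat_lit 35145) (.g (nat_lit 2251) (.e (nat_lit 1214) (nat_lit 89) (.e (nat_lit 73753) (nat_lit 8) (.e (nat_lit 557098) (nat_lit 13) (.e (nat_lit 172133) (nat_lit 15) (.e (nat_lit 2175) (nat_lit 143) .nil))))) .nil)) 
(.lf (nat_lit 35177) (.g (nat_lit 4293) (.e (nat_lit 1214) (nat_lit 89) (.e (nat_lit 73754) (nat_lit 8) (.e (nat_lit 557072) (nat_lit 9) (.e (nat_lit 3098) (nat_lit 192) (.e (nat_lit 491571) (nat_lit 13) (.e (nat_lit 393251) (nat_lit 18) (.e (nat_lit 164148) (nat_lit 152) .nil))))))) (.g (nat_lit 6) .nil .nil)))) (.nd (nat_lit 5) 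
(.lf (nat_lit 35161) (.g (nat_lit 2694) (.e (nat_lit 1214) (nat_lit 89) (.e (nat_lit 73753) (nat_lit 8) (.e (nat_lit 557103) (nat_lit 14) (.e (nat_lit 180229) (nat_lit 0) (.e (nat_lit 5548) (nat_lit 306) (.e (nat_lit 2640) (nat_lit 165) (.e (nat_lit 180227) (nat_lit 0) (.e (nat_lit 6250) (nat_lit 337) .nil)))))))) (.g (nat_lit 4) .nil .nil))) 
(.lf (nat_lit 35193) (.g (nat_lit 2952) (.e (nat_lit 1214) (nat_lit 89) (.e (nat_lit 73754) (nat_lit 8) (.e (nat_lit 557093) (nat_lit 12) (.e (nat_lit 164238) (nat_lit 187) (.e (nat_lit 1661) (nat_lit 115) (.e (nat_lit 393251) (nat_lit 18) (.e (nat_lit 164154) (nat_lit 152) .nil))))))) (.g (nat_lit 5) .nil .nil)))))) (.nd (nat_lit 3) (.nd (nat_lit 4) (.nd (nat_lit 5) 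
(.lf (nat_lit 35141) (.g (nat_lit 4636) (.e (nat_lit 1214) (nat_lit 89) (.e (nat_lit 73753) (nat_lit 8) (.e (nat_lit 557098) (nat_lit 13) (.e (nat_lit 172133) (nat_lit 15) (.e (nat_lit 2059) (nat_lit 142) (.e (nat_lit 704595) (nat_lit 5) (.e (nat_lit 180229) (nat_lit 0) (.e (nat_lit 6277) (nat_lit 337) .nil)))))))) (.g (nat_lit 6) .nil .nil))) 
(.lf (nat_lit 35173) (.g (nat_lit 3130) (.e (nat_lit 1214) (nat_lit 89) (.e (nat_lit 73753) (nat_lit 8) (.e (nat_lit 557105) (nat_lit 14) (.e (nat_lit 180261) (nat_lit 20) (.e (nat_lit 655364) (nat_lit 0) (.e (nat_lit 2964) (nat_lit 185) (.e (nat_lit 434209) (nat_lit 18) (.e (nat_lit 6270) (nat_lit 337) .nil)))))))) (.g (nat_lit 4) .nil .nil)))) (.nd (nat_lit 5) 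
(.lf (nat_lit 35157) (.g (nat_lit 1835) (.e (nat_lit 1214) (nat_lit 89) (.e (nat_lit 73753) (nat_lit 8) (.e (nat_lit 557103) (nat_lit 14) (.e (nat_lit 180225) (nat_lit 0) .nil)))) .nil)) 
(.lf (nat_lit 35189) (.g (nat_lit 2436) (.e (nat_lit 1214) (nat_lit 89) (.e (nat_lit 73754) (nat_lit 8) (.e (nat_lit 557093) (nat_lit 12) (.e (nat_lit 164238) (nat_lit 187) (.e (nat_lit 1660) (nat_lit 115) (.e (nat_lit 393253) (nat_lit 18) (.e (nat_lit 164155) (nat_lit 152) .nil))))))) (.g (nat_lit 4) .nil .nil))))) (.nd (nat_lit 4) (.nd (nat_lit 5) 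
(.lf (nat_lit 35149) (.g (nat_lit 2168) (.e (nat_lit 1214) (nat_lit 89) (.e (nat_lit 73753) (nat_lit 8) (.e (nat_lit 557100) (nat_lit 13) (.e (nat_lit 172138) (nat_lit 15) .nil)))) .nil)) 
(.lf (nat_lit 35181) (.g (nat_lit 2114) (.e (nat_lit 1214) (nat_lit 89) (.e (nat_lit 73754) (nat_lit 8) (.e (nat_lit 557091) (nat_lit 12) (.e (nat_lit 164238) (nat_lit 187) .nil)))) .nil))) (.nd (nat_lit 5) 
(.lf (nat_lit 35165) (.g (nat_lit 3291) (.e (nat_lit 1214) (nat_lit 89) (.e (nat_lit 73753) (nat_lit 8) (.e (nat_lit 557103) (nat_lit 14) (.e (nat_lit 180261) (nat_lit 20) (.e (nat_lit 655364) (nat_lit 0) (.e (nat_lit 2964) (nat_lit 185) (.e (nat_lit 434209) (nat_lit 18) (.e (nat_lit 6270) (nat_lit 337) .nil)))))))) (.g (nat_lit 5) .nil .nil))) 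
(.lf (nat_lit 35197) (.g (nat_lit 3777) (.e (nat_lit 1214) (nat_lit 89) (.e (nat_lit 73754) (nat_lit 8) (.e (nat_lit 557093) (nat_lit 12) (.e (nat_lit 164239) (nat_lit 187) (.e (nat_lit 1661) (nat_lit 115) (.e (nat_lit 393251) (nat_lit 18) (.e (nat_lit 164148) (nat_lit 152) .nil))))))) (.g (nat_lit 6) .nil .nil))))))) (.nd (nat_lit 2) (.nd (nat_lit 3) (.nd (nat_lit 4) (.nd (nat_lit 5) 
(.lf (nat_lit 35139) (.g (nat_lit 449) (.e (nat_lit 1214) (nat_lit 89) (.e (nat_lit 73753) (nat_lit 8) (.e (nat_lit 557098) (nat_lit 13) .nil))) .nil)) 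
(.lf (nat_lit 35171) (.g (nat_lit 2097) (.e (nat_lit 1214) (nat_lit 89) (.e (nat_lit 73753) (nat_lit 8) (.e (nat_lit 557105) (nat_lit 14) (.e (nat_lit 180233) (nat_lit 0) .nil)))) .nil))) (.nd (nat_lit 5) 
(.lf (nat_lit 35155) (.g (nat_lit 1686) (.e (nat_lit 1214) (nat_lit 89) (.e (nat_lit 73753) (nat_lit 8) (.e (nat_lit 557101) (nat_lit 13) (.e (nat_lit 172070) (nat_lit 4) (.e (nat_lit 229665) (nat_lit 240) .nil))))) .nil)) 
(.lf (nat_lit 35187) (.g (nat_lit 3996) (.e (nat_lit 1214) (nat_lit 89) (.e (nat_lit 73754) (nat_lit 8) (.e (nat_lit 557091) (nat_lit 12) (.e (nat_lit 164238) (nat_lit 187) (.e (nat_lit 1661) (nat_lit 115) (.e (nat_lit 393251) (nat_lit 18) (.e (nat_lit 164155) (nat_lit 152) .nil))))))) (.g (nat_lit 5) .nil .nil))))) (.nd (nat_lit 4) (.nd (nat_lit 5) 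
(.lf (nat_lit 35147) (.g (nat_lit 3470) (.e (nat_lit 1214) (nat_lit 89) (.e (nat_lit 73753) (nat_lit 8) (.e (nat_lit 557098) (nat_lit 13) (.e (nat_lit 172133) (nat_lit 15) (.e (nat_lit 2175) (nat_lit 143) (.e (nat_lit 712747) (nat_lit 28) (.e (nat_lit 434209) (nat_lit 18) (.e (nat_lit 6277) (nat_lit 337) .nil)))))))) (.g (nat_lit 6) .nil .nil))) 
(.lf (nat_lit 35179) (.g (nat_lit 4569) (.e (nat_lit 1214) (nat_lit 89) (.e (nat_lit 73754) (nat_lit 8) (.e (nat_lit 557072) (nat_lit 9) (.e (nat_lit 3098) (nat_lit 192) (.e (nat_lit 491571) (nat_lit 13) (.e (nat_lit 393251) (nat_lit 18) (.e (nat_lit 164153) (nat_lit 152) .nil))))))) (.g (nat_lit 6) .nil .nil)))) (.nd (nat_lit 5) 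
(.lf (nat_lit 35163) (.g (nat_lit 2257) (.e (nat_lit 1214) (nat_lit 89) (.e (nat_lit 73753) (nat_lit 8) (.e (nat_lit 557103) (nat_lit 14) (.e (nat_lit 180233) (nat_lit 0) (.e (nat_lit 5902) (nat_lit 320) .nil))))) .nil)) 
(.lf (nat_lit 35195) (.g (nat_lit 1284) (.e (nat_lit 1214) (nat_lit 89) (.e (nat_lit 73754) (nat_lit 8) (.e (nat_lit 557093) (nat_lit 12) (.e (nat_lit 164239) (nat_lit 187) .nil)))) .nil))))) (.nd (nat_lit 3) (.nd (nat_lit 4) (.nd (nat_lit 5) 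
(.lf (nat_lit 35143) (.g (nat_lit 2306) (.e (nat_lit 1214) (nat_lit 89) (.e (nat_lit 73753) (nat_lit 8) (.e (nat_lit 557098) (nat_lit 13) (.e (nat_lit 172133) (nat_lit 15) (.e (nat_lit 2059) (nat_lit 142) (.e (nat_lit 704596) (nat_lit 5) (.e (nat_lit 180228) (nat_lit 0) (.e (nat_lit 6276) (nat_lit 337) .nil)))))))) (.g (nat_lit 4) .nil .nil))) 
(.lf (nat_lit 35175) (.g (nat_lit 1231) (.e (nat_lit 1214) (nat_lit 89) (.e (nat_lit 73753) (nat_lit 8) (.e (nat_lit 557105) (nat_lit 14) (.e (nat_lit 180265) (nat_lit 21) .nil)))) .nil))) (.nd (nat_lit 5) 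
(.lf (nat_lit 35159) (.g (nat_lit 2746) (.e (nat_lit 1214) (nat_lit 89) (.e (nat_lit 73753) (nat_lit 8) (.e (nat_lit 557103) (nat_lit 14) (.e (nat_lit 180228) (nat_lit 0) (.e (nat_lit 5902) (nat_lit 320) .nil))))) .nil)) 
(.lf (nat_lit 35191) (.g (nat_lit 3017) (.e (nat_lit 1214) (nat_lit 89) (.e (nat_lit 73754) (nat_lit 8) (.e (nat_lit 557093) (nat_lit 12) (.e (nat_lit 164238) (nat_lit 187) (.e (nat_lit 1661) (nat_lit 115) (.e (nat_lit 393251) (nat_lit 18) (.e (nat_lit 164152) (nat_lit 152) .nil))))))) (.g (nat_lit 5) .nil .nil))))) (.nd (nat_lit 4) (.nd (nat_lit 5) 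
(.lf (nat_lit 35151) (.g (nat_lit 588) (.e (nat_lit 1214) (nat_lit 89) (.e (nat_lit 73753) (nat_lit 8) (.e (nat_lit 557101) (nat_lit 13) .nil))) .nil)) 
(.lf (nat_lit 35183) (.g (nat_lit 2934) (.e (nat_lit 1214) (nat_lit 89) (.e (nat_lit 73754) (nat_lit 8) (.e (nat_lit 557091) (nat_lit 12) (.e (nat_lit 164238) (nat_lit 187) (.e (nat_lit 1660) (nat_lit 115) .nil))))) .nil))) (.nd (nat_lit 5) 
(.lf (nat_lit 35167) (.g (nat_lit 617) (.e (nat_lit 1214) (nat_lit 89) (.e (nat_lit 73753) (nat_lit 8) (.e (nat_lit 557104) (nat_lit 14) .nil))) .nil)) 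
(.lf (nat_lit 35199) (.g (nat_lit 4153) (.e (nat_lit 1214) (nat_lit 89) (.e (nat_lit 73754) (nat_lit 8) (.e (nat_lit 557093) (nat_lit 12) (.e (nat_lit 164239) (nat_lit 187) (.e (nat_lit 1661) (nat_lit 115) (.e (nat_lit 393251) (nat_lit 18) (.e (nat_lit 164153) (nat_lit 152) .nil))))))) (.g (nat_lit 7) .nil .nil)))))))))

noncomputable def tv492 : DT := (.nd (nat_lit 0) (.nd (nat_lit 1) (.nd (nat_lit 2) (.nd (nat_lit 3) (.nd (nat_lit 4) (.nd (nat_lit 5) 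
(.lf (nat_lit 35200) (.g (nat_lit 2380) (.e (nat_lit 1214) (nat_lit 89) (.e (nat_lit 73754) (nat_lit 8) (.e (nat_lit 557093) (nat_lit 12) (.e (nat_lit 164239) (nat_lit 187) (.e (nat_lit 1661) (nat_lit 115) (.e (nat_lit 393251) (nat_lit 18) (.e (nat_lit 164154) (nat_lit 152) .nil))))))) (.g (nat_lit 5) .nil .nil))) 
(.lf (nat_lit 35232) (.g (nat_lit 1530) (.e (nat_lit 1214) (nat_lit 89) (.e (nat_lit 73754) (nat_lit 8) (.e (nat_lit 557105) (nat_lit 14) (.e (nat_lit 180226) (nat_lit 0) .nil)))) .nil))) (.nd (nat_lit 5) 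
(.lf (nat_lit 35216) (.g (nat_lit 2430) (.e (nat_lit 1214) (nat_lit 89) (.e (nat_lit 73754) (nat_lit 8) (.e (nat_lit 557094) (nat_lit 12) (.e (nat_lit 164238) (nat_lit 187) (.e (nat_lit 1661) (nat_lit 115) (.e (nat_lit 393253) (nat_lit 18) (.e (nat_lit 164153) (nat_lit 152) .nil))))))) (.g (nat_lit 4) .nil .nil))) 
(.lf (nat_lit 35248) (.g (nat_lit 2526) (.e (nat_lit 1214) (nat_lit 89) (.e (nat_lit 73754) (nat_lit 8) (.e (nat_lit 557105) (nat_lit 14) (.e (nat_lit 180265) (nat_lit 21) (.e (nat_lit 663568) (nat_lit 5) (.e (nat_lit 73729) (nat_lit 0) (.e (nat_lit 7124) (nat_lit 382) .nil))))))) (.g (nat_lit 4) .nil .nil))))) (.nd (nat_lit 4) (.nd (nat_lit 5) 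
(.lf (nat_lit 35208) (.g (nat_lit 1940) (.e (nat_lit 1214) (nat_lit 89) (.e (nat_lit 73754) (nat_lit 8) (.e (nat_lit 557094) (nat_lit 12) (.e (nat_lit 164238) (nat_lit 187) (.e (nat_lit 1660) (nat_lit 115) (.e (nat_lit 393253) (nat_lit 18) (.e (nat_lit 164152) (nat_lit 152) .nil))))))) (.g (nat_lit 4) .nil .nil))) 
(.lf (nat_lit 35240) (.g (nat_lit 3094) (.e (nat_lit 1214) (nat_lit 89) (.e (nat_lit 73754) (nat_lit 8) (.e (nat_lit 557105) (nat_lit 14) (.e (nat_lit 180261) (nat_lit 20) (.e (nat_lit 655364) (nat_lit 0) (.e (nat_lit 2964) (nat_lit 185) (.e (nat_lit 434209) (nat_lit 18) (.e (nat_lit 6276) (nat_lit 337) .nil)))))))) (.g (nat_lit 5) .nil .nil)))) (.nd (nat_lit 5) 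
(.lf (nat_lit 35224) (.g (nat_lit 3178) (.e (nat_lit 1214) (nat_lit 89) (.e (nat_lit 73754) (nat_lit 8) (.e (nat_lit 557100) (nat_lit 13) (.e (nat_lit 172138) (nat_lit 15) (.e (nat_lit 2175) (nat_lit 143) (.e (nat_lit 712747) (nat_lit 28) (.e (nat_lit 434209) (nat_lit 18) (.e (nat_lit 6270) (nat_lit 337) .nil)))))))) (.g (nat_lit 4) .nil .nil))) 
(.lf (nat_lit 35256) (.g (nat_lit 1227) (.e (nat_lit 1214) (nat_lit 89) (.e (nat_lit 73775) (nat_lit 26) (.e (nat_lit 778361) (nat_lit 9) (.e (nat_lit 304) (nat_lit 22) .nil)))) .nil))))) (.nd (nat_lit 3) (.nd (nat_lit 4) (.nd (nat_lit 5) 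
(.lf (nat_lit 35204) (.g (nat_lit 1693) (.e (nat_lit 1214) (nat_lit 89) (.e (nat_lit 73754) (nat_lit 8) (.e (nat_lit 557094) (nat_lit 12) (.e (nat_lit 164238) (nat_lit 187) (.e (nat_lit 1658) (nat_lit 115) .nil))))) .nil)) 
(.lf (nat_lit 35236) (.g (nat_lit 1792) (.e (nat_lit 1214) (nat_lit 89) (.e (nat_lit 73754) (nat_lit 8) (.e (nat_lit 557105) (nat_lit 14) (.e (nat_lit 180232) (nat_lit 0) .nil)))) .nil))) (.nd (nat_lit 5) 
(.lf (nat_lit 35220) (.g (nat_lit 2669) (.e (nat_lit 1214) (nat_lit 89) (.e (nat_lit 73754) (nat_lit 8) (.e (nat_lit 557095) (nat_lit 13) (.e (nat_lit 172133) (nat_lit 15) (.e (nat_lit 2175) (nat_lit 143) (.e (nat_lit 712747) (nat_lit 28) (.e (nat_lit 434209) (nat_lit 18) (.e (nat_lit 6277) (nat_lit 337) .nil)))))))) (.g (nat_lit 5) .nil .nil))) 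
(.lf (nat_lit 35252) (.g (nat_lit 2007) (.e (nat_lit 1214) (nat_lit 89) (.e (nat_lit 73754) (nat_lit 8) (.e (nat_lit 557105) (nat_lit 14) (.e (nat_lit 180265) (nat_lit 21) (.e (nat_lit 663573) (nat_lit 9) .nil))))) .nil)))) (.nd (nat_lit 4) (.nd (nat_lit 5) 
(.lf (nat_lit 35212) (.g (nat_lit 3139) (.e (nat_lit 1214) (nat_lit 89) (.e (nat_lit 73754) (nat_lit 8) (.e (nat_lit 557094) (nat_lit 12) (.e (nat_lit 164238) (nat_lit 187) (.e (nat_lit 1661) (nat_lit 115) (.e (nat_lit 393251) (nat_lit 18) (.e (nat_lit 164152) (nat_lit 152) .nil))))))) (.g (nat_lit 5) .nil .nil))) 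
(.lf (nat_lit 35244) (.g (nat_lit 2101) (.e (nat_lit 1214) (nat_lit 89) (.e (nat_lit 73754) (nat_lit 8) (.e (nat_lit 557105) (nat_lit 14) (.e (nat_lit 180265) (nat_lit 21) (.e (nat_lit 663555) (nat_lit 0) .nil))))) .nil))) (.nd (nat_lit 5) 
(.lf (nat_lit 35228) (.g (nat_lit 2289) (.e (nat_lit 1214) (nat_lit 89) (.e (nat_lit 73754) (nat_lit 8) (.e (nat_lit 557101) (nat_lit 13) (.e (nat_lit 172070) (nat_lit 4) (.e (nat_lit 229663) (nat_lit 240) (.e (nat_lit 2643) (nat_lit 165) (.e (nat_lit 180228) (nat_lit 0) (.e (nat_lit 6277) (nat_lit 337) .nil)))))))) (.g (nat_lit 4) .nil .nil))) 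
(.lf (nat_lit 35260) (.g (nat_lit 3280) (.e (nat_lit 1214) (nat_lit 89) (.e (nat_lit 73775) (nat_lit 26) (.e (nat_lit 778362) (nat_lit 9) (.e (nat_lit 297) (nat_lit 22) (.e (nat_lit 344127) (nat_lit 26) (.e (nat_lit 557104) (nat_lit 14) (.e (nat_lit 180229) (nat_lit 0) (.e (nat_lit 5821) (nat_lit 320) .nil)))))))) (.g (nat_lit 4) .nil .nil))))))) 
(.nd (nat_lit 2) (.nd (nat_lit 3) (.nd (nat_lit 4) (.nd (nat_lit 5) 
(.lf (nat_lit 35202) (.g (nat_lit 576) (.e (nat_lit 1214) (nat_lit 89) (.e (nat_lit 73754) (nat_lit 8) (.e (nat_lit 557094) (nat_lit 12) .nil))) .nil)) 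
(.lf (nat_lit 35234) (.g (nat_lit 2169) (.e (nat_lit 1214) (nat_lit 89) (.e (nat_lit 73754) (nat_lit 8) (.e (nat_lit 557105) (nat_lit 14) (.e (nat_lit 180227) (nat_lit 0) (.e (nat_lit 5945) (nat_lit 322) (.e (nat_lit 57421) (nat_lit 13) (.e (nat_lit 344096) (nat_lit 18) (.e (nat_lit 7125) (nat_lit 382) .nil)))))))) (.g (nat_lit 4) .nil .nil)))) (.nd (nat_lit 5) 
(.lf (nat_lit 35218) (.g (nat_lit 1622) (.e (nat_lit 1214) (nat_lit 89) (.e (nat_lit 73754) (nat_lit 8) (.e (nat_lit 557095) (nat_lit 13) (.e (nat_lit 172133) (nat_lit 15) (.e (nat_lit 2175) (nat_lit 143) .nil))))) .nil)) 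
(.lf (nat_lit 35250) (.g (nat_lit 2412) (.e (nat_lit 1214) (nat_lit 89) (.e (nat_lit 73754) (nat_lit 8) (.e (nat_lit 557105) (nat_lit 14) (.e (nat_lit 180265) (nat_lit 21) (.e (nat_lit 671488) (nat_lit 5) (.e (nat_lit 73729) (nat_lit 0) (.e (nat_lit 7125) (nat_lit 382) .nil))))))) (.g (nat_lit 4) .nil .nil))))) (.nd (nat_lit 4) (.nd (nat_lit 5) 
(.lf (nat_lit 35210) (.g (nat_lit 2671) (.e (nat_lit 1214) (nat_lit 89) (.e (nat_lit 73754) (nat_lit 8) (.e (nat_lit 557094) (nat_lit 12) (.e (nat_lit 164238) (nat_lit 187) (.e (nat_lit 1660) (nat_lit 115) (.e (nat_lit 393253) (nat_lit 18) (.e (nat_lit 164155) (nat_lit 152) .nil))))))) (.g (nat_lit 5) .nil .nil))) 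
(.lf (nat_lit 35242) (.g (nat_lit 1327) (.e (nat_lit 1214) (nat_lit 89) (.e (nat_lit 73754) (nat_lit 8) (.e (nat_lit 557105) (nat_lit 14) (.e (nat_lit 180264) (nat_lit 21) .nil)))) .nil))) (.nd (nat_lit 5) 
(.lf (nat_lit 35226) (.g (nat_lit 582) (.e (nat_lit 1214) (nat_lit 89) (.e (nat_lit 73754) (nat_lit 8) (.e (nat_lit 557101) (nat_lit 13) .nil))) .nil)) 
(.lf (nat_lit 35258) (.g (nat_lit 3520) (.e (nat_lit 1214) (nat_lit 89) (.e (nat_lit 73775) (nat_lit 26) (.e (nat_lit 778362) (nat_lit 9) (.e (nat_lit 297) (nat_lit 22) (.e (nat_lit 344127) (nat_lit 26) (.e (nat_lit 557104) (nat_lit 14) (.e (nat_lit 180229) (nat_lit 0) (.e (nat_lit 5815) (nat_lit 320) .nil)))))))) (.g (nat_lit 4) .nil .nil)))))) (.nd (nat_lit 3) (.nd (nat_lit 4) (.nd (nat_lit 5) 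
(.lf (nat_lit 35206) (.g (nat_lit 2655) (.e (nat_lit 1214) (nat_lit 89) (.e (nat_lit 73754) (nat_lit 8) (.e (nat_lit 557094) (nat_lit 12) (.e (nat_lit 164238) (nat_lit 187) (.e (nat_lit 1659) (nat_lit 115) (.e (nat_lit 393253) (nat_lit 18) (.e (nat_lit 164155) (nat_lit 152) .nil))))))) (.g (nat_lit 5) .nil .nil))) 
(.lf (nat_lit 35238) (.g (nat_lit 1538) (.e (nat_lit 1214) (nat_lit 89) (.e (nat_lit 73754) (nat_lit 8) (.e (nat_lit 557105) (nat_lit 14) (.e (nat_lit 188160) (nat_lit 0) .nil)))) .nil))) (.nd (nat_lit 5) 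
(.lf (nat_lit 35222) (.g (nat_lit 2225) (.e (nat_lit 1214) (nat_lit 89) (.e (nat_lit 73754) (nat_lit 8) (.e (nat_lit 557100) (nat_lit 13) (.e (nat_lit 172138) (nat_lit 15) .nil)))) .nil)) 
(.lf (nat_lit 35254) (.g (nat_lit 1928) (.e (nat_lit 1214) (nat_lit 89) (.e (nat_lit 73755) (nat_lit 8) (.e (nat_lit 557091) (nat_lit 12) (.e (nat_lit 164238) (nat_lit 187) (.e (nat_lit 1661) (nat_lit 115) .nil))))) .nil)))) (.nd (nat_lit 4) (.nd (nat_lit 5) 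
(.lf (nat_lit 35214) (.g (nat_lit 3074) (.e (nat_lit 1214) (nat_lit 89) (.e (nat_lit 73754) (nat_lit 8) (.e (nat_lit 557094) (nat_lit 12) (.e (nat_lit 164238) (nat_lit 187) (.e (nat_lit 1661) (nat_lit 115) (.e (nat_lit 393251) (nat_lit 18) (.e (nat_lit 164154) (nat_lit 152) .nil))))))) (.g (nat_lit 5) .nil .nil))) 
(.lf (nat_lit 35246) (.g (nat_lit 2789) (.e (nat_lit 1214) (nat_lit 89) (.e (nat_lit 73754) (nat_lit 8) (.e (nat_lit 557105) (nat_lit 14) (.e (nat_lit 180265) (nat_lit 21) (.e (nat_lit 663555) (nat_lit 0) (.e (nat_lit 1536) (nat_lit 109) (.e (nat_lit 344096) (nat_lit 18) (.e (nat_lit 7125) (nat_lit 382) .nil)))))))) (.g (nat_lit 4) .nil .nil)))) (.nd (nat_lit 5) 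
(.lf (nat_lit 35230) (.g (nat_lit 2105) (.e (nat_lit 1214) (nat_lit 89) (.e (nat_lit 73754) (nat_lit 8) (.e (nat_lit 557101) (nat_lit 13) (.e (nat_lit 172136) (nat_lit 15) (.e (nat_lit 2058) (nat_lit 142) (.e (nat_lit 704595) (nat_lit 5) (.e (nat_lit 180229) (nat_lit 0) (.e (nat_lit 6277) (nat_lit 337) .nil)))))))) (.g (nat_lit 4) .nil .nil))) 
(.lf (nat_lit 35262) (.g (nat_lit 3442) (.e (nat_lit 1214) (nat_lit 89) (.e (nat_lit 73775) (nat_lit 26) (.e (nat_lit 778362) (nat_lit 9) (.e (nat_lit 297) (nat_lit 22) (.e (nat_lit 344127) (nat_lit 26) (.e (nat_lit 557104) (nat_lit 14) (.e (nat_lit 180233) (nat_lit 0) (.e (nat_lit 5817) (nat_lit 320) .nil)))))))) (.g (nat_lit 4) .nil .nil)))))))) 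
(.nd (nat_lit 1) (.nd (nat_lit 2) (.nd (nat_lit 3) (.nd (nat_lit 4) (.nd (nat_lit 5) 
(.lf (nat_lit 35201) (.g (nat_lit 3578) (.e (nat_lit 1214) (nat_lit 89) (.e (nat_lit 73754) (nat_lit 8) (.e (nat_lit 557093) (nat_lit 12) (.e (nat_lit 164239) (nat_lit 187) (.e (nat_lit 1661) (nat_lit 115) (.e (nat_lit 393251) (nat_lit 18) (.e (nat_lit 164155) (nat_lit 152) .nil))))))) (.g (nat_lit 6) .nil .nil))) 
(.lf (nat_lit 35233) (.g (nat_lit 1310) (.e (nat_lit 1214) (nat_lit 89) (.e (nat_lit 73754) (nat_lit 8) (.e (nat_lit 557105) (nat_lit 14) (.e (nat_lit 180227) (nat_lit 0) .nil)))) .nil))) (.nd (nat_lit 5) 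
(.lf (nat_lit 35217) (.g (nat_lit 2762) (.e (nat_lit 1214) (nat_lit 89) (.e (nat_lit 73754) (nat_lit 8) (.e (nat_lit 557094) (nat_lit 12) (.e (nat_lit 164238) (nat_lit 187) (.e (nat_lit 1661) (nat_lit 115) (.e (nat_lit 393253) (nat_lit 18) (.e (nat_lit 164155) (nat_lit 152) .nil))))))) (.g (nat_lit 5) .nil .nil))) 
(.lf (nat_lit 35249) (.g (nat_lit 2309) (.e (nat_lit 1214) (nat_lit 89) (.e (nat_lit 73754) (nat_lit 8) (.e (nat_lit 557105) (nat_lit 14) (.e (nat_lit 180265) (nat_lit 21) (.e (nat_lit 663568) (nat_lit 5) (.e (nat_lit 73731) (nat_lit 0) (.e (nat_lit 7122) (nat_lit 382) .nil))))))) (.g (nat_lit 4) .nil .nil))))) (.nd (nat_lit 4) (.nd (nat_lit 5) 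
(.lf (nat_lit 35209) (.g (nat_lit 2339) (.e (nat_lit 1214) (nat_lit 89) (.e (nat_lit 73754) (nat_lit 8) (.e (nat_lit 557094) (nat_lit 12) (.e (nat_lit 164238) (nat_lit 187) (.e (nat_lit 1660) (nat_lit 115) (.e (nat_lit 393253) (nat_lit 18) (.e (nat_lit 164153) (nat_lit 152) .nil))))))) (.g (nat_lit 4) .nil .nil))) 
(.lf (nat_lit 35241) (.g (nat_lit 4407) (.e (nat_lit 1214) (nat_lit 89) (.e (nat_lit 73754) (nat_lit 8) (.e (nat_lit 557105) (nat_lit 14) (.e (nat_lit 180261) (nat_lit 20) (.e (nat_lit 655364) (nat_lit 0) (.e (nat_lit 2964) (nat_lit 185) (.e (nat_lit 434209) (nat_lit 18) (.e (nat_lit 6277) (nat_lit 337) .nil)))))))) (.g (nat_lit 7) .nil .nil)))) (.nd (nat_lit 5) 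
(.lf (nat_lit 35225) (.g (nat_lit 3536) (.e (nat_lit 1214) (nat_lit 89) (.e (nat_lit 73754) (nat_lit 8) (.e (nat_lit 557100) (nat_lit 13) (.e (nat_lit 172138) (nat_lit 15) (.e (nat_lit 2175) (nat_lit 143) (.e (nat_lit 712747) (nat_lit 28) (.e (nat_lit 434209) (nat_lit 18) (.e (nat_lit 6277) (nat_lit 337) .nil)))))))) (.g (nat_lit 4) .nil .nil))) 
(.lf (nat_lit 35257) (.g (nat_lit 3042) (.e (nat_lit 1214) (nat_lit 89) (.e (nat_lit 73775) (nat_lit 26) (.e (nat_lit 778362) (nat_lit 9) (.e (nat_lit 297) (nat_lit 22) (.e (nat_lit 344127) (nat_lit 26) .nil))))) .nil))))) (.nd (nat_lit 3) (.nd (nat_lit 4) (.nd (nat_lit 5) 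
(.lf (nat_lit 35205) (.g (nat_lit 2323) (.e (nat_lit 1214) (nat_lit 89) (.e (nat_lit 73754) (nat_lit 8) (.e (nat_lit 557094) (nat_lit 12) (.e (nat_lit 164238) (nat_lit 187) (.e (nat_lit 1659) (nat_lit 115) (.e (nat_lit 393253) (nat_lit 18) (.e (nat_lit 164153) (nat_lit 152) .nil))))))) (.g (nat_lit 4) .nil .nil))) 
(.lf (nat_lit 35237) (.g (nat_lit 1714) (.e (nat_lit 1214) (nat_lit 89) (.e (nat_lit 73754) (nat_lit 8) (.e (nat_lit 557105) (nat_lit 14) (.e (nat_lit 180233) (nat_lit 0) .nil)))) .nil))) (.nd (nat_lit 5) 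
(.lf (nat_lit 35221) (.g (nat_lit 583) (.e (nat_lit 1214) (nat_lit 89) (.e (nat_lit 73754) (nat_lit 8) (.e (nat_lit 557100) (nat_lit 13) .nil))) .nil)) 
(.lf (nat_lit 35253) (.g (nat_lit 1403) (.e (nat_lit 1214) (nat_lit 89) (.e (nat_lit 73754) (nat_lit 8) (.e (nat_lit 557105) (nat_lit 14) (.e (nat_lit 180266) (nat_lit 22) .nil)))) .nil)))) (.nd (nat_lit 4) (.nd (nat_lit 5) 
(.lf (nat_lit 35213) (.g (nat_lit 4517) (.e (nat_lit 1214) (nat_lit 89) (.e (nat_lit 73754) (nat_lit 8) (.e (nat_lit 557094) (nat_lit 12) (.e (nat_lit 164238) (nat_lit 187) (.e (nat_lit 1661) (nat_lit 115) (.e (nat_lit 393251) (nat_lit 18) (.e (nat_lit 164153) (nat_lit 152) .nil))))))) (.g (nat_lit 0) .nil .nil))) 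
(.lf (nat_lit 35245) (.g (nat_lit 2172) (.e (nat_lit 1214) (nat_lit 89) (.e (nat_lit 73754) (nat_lit 8) (.e (nat_lit 557105) (nat_lit 14) (.e (nat_lit 180265) (nat_lit 21) (.e (nat_lit 663555) (nat_lit 0) (.e (nat_lit 1536) (nat_lit 109) (.e (nat_lit 344090) (nat_lit 18) (.e (nat_lit 7125) (nat_lit 382) .nil)))))))) (.g (nat_lit 4) .nil .nil)))) (.nd (nat_lit 5) 
(.lf (nat_lit 35229) (.g (nat_lit 2307) (.e (nat_lit 1214) (nat_lit 89) (.e (nat_lit 73754) (nat_lit 8) (.e (nat_lit 557101) (nat_lit 13) (.e (nat_lit 172070) (nat_lit 4) (.e (nat_lit 229665) (nat_lit 240) (.e (nat_lit 2641) (nat_lit 165) (.e (nat_lit 180229) (nat_lit 0) (.e (nat_lit 6277) (nat_lit 337) .nil)))))))) (.g (nat_lit 4) .nil .nil))) 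
(.lf (nat_lit 35261) (.g (nat_lit 4023) (.e (nat_lit 1214) (nat_lit 89) (.e (nat_lit 73775) (nat_lit 26) (.e (nat_lit 778362) (nat_lit 9) (.e (nat_lit 297) (nat_lit 22) (.e (nat_lit 344127) (nat_lit 26) (.e (nat_lit 557104) (nat_lit 14) (.e (nat_lit 180233) (nat_lit 0) (.e (nat_lit 5815) (nat_lit 320) .nil)))))))) (.g (nat_lit 5) .nil .nil))))))) 
(.nd (nat_lit 2) (.nd (nat_lit 3) (.nd (nat_lit 4) (.nd (nat_lit 5) 
(.lf (nat_lit 35203) (.g (nat_lit 1063) (.e (nat_lit 1214) (nat_lit 89) (.e (nat_lit 73754) (nat_lit 8) (.e (nat_lit 557094) (nat_lit 12) (.e (nat_lit 164213) (nat_lit 176) .nil)))) .nil)) 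
(.lf (nat_lit 35235) (.g (nat_lit 1823) (.e (nat_lit 1214) (nat_lit 89) (.e (nat_lit 73754) (nat_lit 8) (.e (nat_lit 557105) (nat_lit 14) (.e (nat_lit 180230) (nat_lit 0) .nil)))) .nil))) (.nd (nat_lit 5) 
(.lf (nat_lit 35219) (.g (nat_lit 2311) (.e (nat_lit 1214) (nat_lit 89) (.e (nat_lit 73754) (nat_lit 8) (.e (nat_lit 557095) (nat_lit 13) (.e (nat_lit 172133) (nat_lit 15) (.e (nat_lit 2175) (nat_lit 143) (.e (nat_lit 712747) (nat_lit 28) (.e (nat_lit 434209) (nat_lit 18) (.e (nat_lit 6270) (nat_lit 337) .nil)))))))) (.g (nat_lit 4) .nil .nil))) 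
(.lf (nat_lit 35251) (.g (nat_lit 2006) (.e (nat_lit 1214) (nat_lit 89) (.e (nat_lit 73754) (nat_lit 8) (.e (nat_lit 557105) (nat_lit 14) (.e (nat_lit 180265) (nat_lit 21) (.e (nat_lit 663572) (nat_lit 9) .nil))))) .nil)))) (.nd (nat_lit 4) (.nd (nat_lit 5) 
(.lf (nat_lit 35211) (.g (nat_lit 4146) (.e (nat_lit 1214) (nat_lit 89) (.e (nat_lit 73754) (nat_lit 8) (.e (nat_lit 557094) (nat_lit 12) (.e (nat_lit 164238) (nat_lit 187) (.e (nat_lit 1661) (nat_lit 115) (.e (nat_lit 393251) (nat_lit 18) (.e (nat_lit 164148) (nat_lit 152) .nil))))))) (.g (nat_lit 6) .nil .nil))) 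
(.lf (nat_lit 35243) (.g (nat_lit 1264) (.e (nat_lit 1214) (nat_lit 89) (.e (nat_lit 73754) (nat_lit 8) (.e (nat_lit 557105) (nat_lit 14) (.e (nat_lit 180265) (nat_lit 21) .nil)))) .nil))) (.nd (nat_lit 5) 
(.lf (nat_lit 35227) (.g (nat_lit 1281) (.e (nat_lit 1214) (nat_lit 89) (.e (nat_lit 73754) (nat_lit 8) (.e (nat_lit 557101) (nat_lit 13) (.e (nat_lit 172070) (nat_lit 4) .nil)))) .nil)) 
(.lf (nat_lit 35259) (.g (nat_lit 3919) (.e (nat_lit 1214) (nat_lit 89) (.e (nat_lit 73775) (nat_lit 26) (.e (nat_lit 778362) (nat_lit 9) (.e (nat_lit 297) (nat_lit 22) (.e (nat_lit 344127) (nat_lit 26) (.e (nat_lit 557104) (nat_lit 14) (.e (nat_lit 180229) (nat_lit 0) (.e (nat_lit 5820) (nat_lit 320) .nil)))))))) (.g (nat_lit 5) .nil .nil)))))) (.nd (nat_lit 3) (.nd (nat_lit 4) (.nd (nat_lit 5) 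
(.lf (nat_lit 35207) (.g (nat_lit 1657) (.e (nat_lit 1214) (nat_lit 89) (.e (nat_lit 73754) (nat_lit 8) (.e (nat_lit 557094) (nat_lit 12) (.e (nat_lit 164238) (nat_lit 187) (.e (nat_lit 1660) (nat_lit 115) .nil))))) .nil)) 
(.lf (nat_lit 35239) (.g (nat_lit 3073) (.e (nat_lit 1214) (nat_lit 89) (.e (nat_lit 73754) (nat_lit 8) (.e (nat_lit 557105) (nat_lit 14) (.e (nat_lit 180261) (nat_lit 20) (.e (nat_lit 655364) (nat_lit 0) (.e (nat_lit 2964) (nat_lit 185) (.e (nat_lit 434209) (nat_lit 18) (.e (nat_lit 6274) (nat_lit 337) .nil)))))))) (.g (nat_lit 5) .nil .nil)))) (.nd (nat_lit 5) 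
(.lf (nat_lit 35223) (.g (nat_lit 2683) (.e (nat_lit 1214) (nat_lit 89) (.e (nat_lit 73754) (nat_lit 8) (.e (nat_lit 557100) (nat_lit 13) (.e (nat_lit 172138) (nat_lit 15) (.e (nat_lit 2059) (nat_lit 142) .nil))))) .nil)) 
(.lf (nat_lit 35255) (.g (nat_lit 1501) (.e (nat_lit 1214) (nat_lit 89) (.e (nat_lit 73755) (nat_lit 8) (.e (nat_lit 557105) (nat_lit 14) (.e (nat_lit 180265) (nat_lit 21) .nil)))) .nil)))) (.nd (nat_lit 4) (.nd (nat_lit 5) 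
(.lf (nat_lit 35215) (.g (nat_lit 4203) (.e (nat_lit 1214) (nat_lit 89) (.e (nat_lit 73754) (nat_lit 8) (.e (nat_lit 557094) (nat_lit 12) (.e (nat_lit 164238) (nat_lit 187) (.e (nat_lit 1661) (nat_lit 115) (.e (nat_lit 393251) (nat_lit 18) (.e (nat_lit 164155) (nat_lit 152) .nil))))))) (.g (nat_lit 6) .nil .nil))) 
(.lf (nat_lit 35247) (.g (nat_lit 2077) (.e (nat_lit 1214) (nat_lit 89) (.e (nat_lit 73754) (nat_lit 8) (.e (nat_lit 557105) (nat_lit 14) (.e (nat_lit 180265) (nat_lit 21) (.e (nat_lit 663568) (nat_lit 5) .nil))))) .nil))) (.nd (nat_lit 5) 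
(.lf (nat_lit 35231) (.g (nat_lit 1886) (.e (nat_lit 1214) (nat_lit 89) (.e (nat_lit 73754) (nat_lit 8) (.e (nat_lit 557105) (nat_lit 14) (.e (nat_lit 180224) (nat_lit 0) (.e (nat_lit 5196) (nat_lit 294) .nil))))) .nil)) 
(.lf (nat_lit 35263) (.g (nat_lit 2964) (.e (nat_lit 1214) (nat_lit 89) (.e (nat_lit 73775) (nat_lit 26) (.e (nat_lit 778362) (nat_lit 9) (.e (nat_lit 297) (nat_lit 22) (.e (nat_lit 344131) (nat_lit 26) .nil))))) .nil))))))))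

noncomputable def tv493 : DT := (.nd (nat_lit 0) (.nd (nat_lit 1) (.nd (nat_lit 2) (.nd (nat_lit 3) (.nd (nat_lit 4) (.nd (nat_lit 5) 
(.lf (nat_lit 35264) (.g (nat_lit 3578) (.e (nat_lit 1214) (nat_lit 89) (.e (nat_lit 73775) (nat_lit 26) (.e (nat_lit 778362) (nat_lit 9) (.e (nat_lit 297) (nat_lit 22) (.e (nat_lit 344131) (nat_lit 26) (.e (nat_lit 557103) (nat_lit 14) (.e (nat_lit 180225) (nat_lit 0) (.e (nat_lit 5814) (nat_lit 320) .nil)))))))) (.g (nat_lit 4) .nil .nil))) 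
(.lf (nat_lit 35296) (.g (nat_lit 1450) (.e (nat_lit 1214) (nat_lit 89) (.e (nat_lit 73779) (nat_lit 32) (.e (nat_lit 2940) (nat_lit 184) (.e (nat_lit 426541) (nat_lit 29) (.e (nat_lit 352316) (nat_lit 24) (.e (nat_lit 123185) (nat_lit 264) .nil)))))) (.g (nat_lit 0) .nil .nil)))) (.nd (nat_lit 5) 
(.lf (nat_lit 35280) (.g (nat_lit 3192) (.e (nat_lit 1214) (nat_lit 89) (.e (nat_lit 73775) (nat_lit 26) (.e (nat_lit 778362) (nat_lit 9) (.e (nat_lit 297) (nat_lit 22) (.e (nat_lit 344133) (nat_lit 26) (.e (nat_lit 557103) (nat_lit 14) (.e (nat_lit 180228) (nat_lit 0) (.e (nat_lit 5815) (nat_lit 320) .nil)))))))) (.g (nat_lit 4) .nil .nil))) 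
(.lf (nat_lit 35312) (.g (nat_lit 2310) (.e (nat_lit 1214) (nat_lit 89) (.e (nat_lit 73781) (nat_lit 32) (.e (nat_lit 2855) (nat_lit 184) (.e (nat_lit 426542) (nat_lit 29) (.e (nat_lit 352318) (nat_lit 24) (.e (nat_lit 123185) (nat_lit 264) .nil)))))) (.g (nat_lit 0) .nil .nil))))) (.nd (nat_lit 4) (.nd (nat_lit 5) 
(.lf (nat_lit 35272) (.g (nat_lit 2795) (.e (nat_lit 1214) (nat_lit 89) (.e (nat_lit 73775) (nat_lit 26) (.e (nat_lit 778362) (nat_lit 9) (.e (nat_lit 297) (nat_lit 22) (.e (nat_lit 344132) (nat_lit 26) (.e (nat_lit 557101) (nat_lit 13) (.e (nat_lit 172068) (nat_lit 4) (.e (nat_lit 229699) (nat_lit 254) .nil)))))))) (.g (nat_lit 4) .nil .nil))) 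
(.lf (nat_lit 35304) (.g (nat_lit 1315) (.e (nat_lit 1214) (nat_lit 89) (.e (nat_lit 73781) (nat_lit 32) (.e (nat_lit 2854) (nat_lit 184) (.e (nat_lit 426546) (nat_lit 30) (.e (nat_lit 360456) (nat_lit 0) (.e (nat_lit 5818) (nat_lit 320) .nil)))))) (.g (nat_lit 5) .nil .nil)))) (.nd (nat_lit 5) 
(.lf (nat_lit 35288) (.g (nat_lit 2971) (.e (nat_lit 1214) (nat_lit 89) (.e (nat_lit 73775) (nat_lit 26) (.e (nat_lit 778362) (nat_lit 9) (.e (nat_lit 297) (nat_lit 22) (.e (nat_lit 344133) (nat_lit 26) (.e (nat_lit 557105) (nat_lit 14) (.e (nat_lit 180226) (nat_lit 0) (.e (nat_lit 5814) (nat_lit 320) .nil)))))))) (.g (nat_lit 4) .nil .nil))) 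
(.lf (nat_lit 35320) (.g (nat_lit 2477) (.e (nat_lit 1214) (nat_lit 89) (.e (nat_lit 73781) (nat_lit 32) (.e (nat_lit 2856) (nat_lit 184) (.e (nat_lit 426542) (nat_lit 29) (.e (nat_lit 352316) (nat_lit 24) (.e (nat_lit 123183) (nat_lit 264) .nil)))))) (.g (nat_lit 4) .nil .nil)))))) (.nd (nat_lit 3) (.nd (nat_lit 4) (.nd (nat_lit 5) 
(.lf (nat_lit 35268) (.g (nat_lit 3322) (.e (nat_lit 1214) (nat_lit 89) (.e (nat_lit 73775) (nat_lit 26) (.e (nat_lit 778362) (nat_lit 9) (.e (nat_lit 297) (nat_lit 22) (.e (nat_lit 344131) (nat_lit 26) (.e (nat_lit 557103) (nat_lit 14) (.e (nat_lit 180233) (nat_lit 0) (.e (nat_lit 5815) (nat_lit 320) .nil)))))))) (.g (nat_lit 4) .nil .nil))) 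
(.lf (nat_lit 35300) (.g (nat_lit 1964) (.e (nat_lit 1214) (nat_lit 89) (.e (nat_lit 73781) (nat_lit 32) (.e (nat_lit 2682) (nat_lit 168) (.e (nat_lit 204869) (nat_lit 29) (.e (nat_lit 368384) (nat_lit 0) (.e (nat_lit 3919) (nat_lit 239) .nil)))))) (.g (nat_lit 4) .nil .nil)))) (.nd (nat_lit 5) 
(.lf (nat_lit 35284) (.g (nat_lit 3997) (.e (nat_lit 1214) (nat_lit 89) (.e (nat_lit 73775) (nat_lit 26) (.e (nat_lit 778362) (nat_lit 9) (.e (nat_lit 297) (nat_lit 22) (.e (nat_lit 344133) (nat_lit 26) (.e (nat_lit 557103) (nat_lit 14) (.e (nat_lit 180229) (nat_lit 0) (.e (nat_lit 5821) (nat_lit 320) .nil)))))))) (.g (nat_lit 5) .nil .nil))) 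
(.lf (nat_lit 35316) (.g (nat_lit 1411) (.e (nat_lit 1214) (nat_lit 89) (.e (nat_lit 73781) (nat_lit 32) (.e (nat_lit 2856) (nat_lit 184) (.e (nat_lit 426509) (nat_lit 27) (.e (nat_lit 336110) (nat_lit 9) (.e (nat_lit 336032) (nat_lit 4) (.e (nat_lit 123184) (nat_lit 264) .nil))))))) (.g (nat_lit 4) .nil .nil))))) (.nd (nat_lit 4) (.nd (nat_lit 5) 
(.lf (nat_lit 35276) (.g (nat_lit 2687) (.e (nat_lit 1214) (nat_lit 89) (.e (nat_lit 73775) (nat_lit 26) (.e (nat_lit 778362) (nat_lit 9) (.e (nat_lit 297) (nat_lit 22) (.e (nat_lit 344133) (nat_lit 26) .nil))))) .nil)) 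
(.lf (nat_lit 35308) (.g (nat_lit 2296) (.e (nat_lit 1214) (nat_lit 89) (.e (nat_lit 73781) (nat_lit 32) (.e (nat_lit 2855) (nat_lit 184) (.e (nat_lit 426542) (nat_lit 29) (.e (nat_lit 352316) (nat_lit 24) (.e (nat_lit 123184) (nat_lit 264) .nil)))))) (.g (nat_lit 6) .nil .nil)))) (.nd (nat_lit 5) 
(.lf (nat_lit 35292) (.g (nat_lit 1589) (.e (nat_lit 1214) (nat_lit 89) (.e (nat_lit 73775) (nat_lit 26) (.e (nat_lit 778362) (nat_lit 9) (.e (nat_lit 304) (nat_lit 22) .nil)))) .nil)) 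
(.lf (nat_lit 35324) (.g (nat_lit 3498) (.e (nat_lit 1214) (nat_lit 89) (.e (nat_lit 73781) (nat_lit 32) (.e (nat_lit 2856) (nat_lit 184) (.e (nat_lit 426542) (nat_lit 29) (.e (nat_lit 352318) (nat_lit 24) (.e (nat_lit 123184) (nat_lit 264) .nil)))))) (.g (nat_lit 6) .nil .nil))))))) (.nd (nat_lit 2) (.nd (nat_lit 3) (.nd (nat_lit 4) (.nd (nat_lit 5) 
(.lf (nat_lit 35266) (.g (nat_lit 3823) (.e (nat_lit 1214) (nat_lit 89) (.e (nat_lit 73775) (nat_lit 26) (.e (nat_lit 778362) (nat_lit 9) (.e (nat_lit 297) (nat_lit 22) (.e (nat_lit 344131) (nat_lit 26) (.e (nat_lit 557103) (nat_lit 14) (.e (nat_lit 180229) (nat_lit 0) (.e (nat_lit 5815) (nat_lit 320) .nil)))))))) (.g (nat_lit 5) .nil .nil))) 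
(.lf (nat_lit 35298) (.g (nat_lit 1790) (.e (nat_lit 1214) (nat_lit 89) (.e (nat_lit 73781) (nat_lit 32) (.e (nat_lit 2682) (nat_lit 168) (.e (nat_lit 204869) (nat_lit 29) (.e (nat_lit 368384) (nat_lit 0) .nil))))) .nil))) (.nd (nat_lit 5) 
(.lf (nat_lit 35282) (.g (nat_lit 3190) (.e (nat_lit 1214) (nat_lit 89) (.e (nat_lit 73775) (nat_lit 26) (.e (nat_lit 778362) (nat_lit 9) (.e (nat_lit 297) (nat_lit 22) (.e (nat_lit 344133) (nat_lit 26) (.e (nat_lit 557103) (nat_lit 14) (.e (nat_lit 180229) (nat_lit 0) (.e (nat_lit 5819) (nat_lit 320) .nil)))))))) (.g (nat_lit 4) .nil .nil))) 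
(.lf (nat_lit 35314) (.g (nat_lit 2316) (.e (nat_lit 1214) (nat_lit 89) (.e (nat_lit 73781) (nat_lit 32) (.e (nat_lit 2855) (nat_lit 184) (.e (nat_lit 426555) (nat_lit 32) (.e (nat_lit 376870) (nat_lit 24) (.e (nat_lit 123182) (nat_lit 264) .nil)))))) (.g (nat_lit 4) .nil .nil))))) (.nd (nat_lit 4) (.nd (nat_lit 5) 
(.lf (nat_lit 35274) (.g (nat_lit 2779) (.e (nat_lit 1214) (nat_lit 89) (.e (nat_lit 73775) (nat_lit 26) (.e (nat_lit 778362) (nat_lit 9) (.e (nat_lit 297) (nat_lit 22) (.e (nat_lit 344132) (nat_lit 26) (.e (nat_lit 557105) (nat_lit 14) (.e (nat_lit 180230) (nat_lit 0) (.e (nat_lit 5820) (nat_lit 320) .nil)))))))) (.g (nat_lit 4) .nil .nil))) 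
(.lf (nat_lit 35306) (.g (nat_lit 593) (.e (nat_lit 1214) (nat_lit 89) (.e (nat_lit 73781) (nat_lit 32) (.e (nat_lit 2855) (nat_lit 184) (.e (nat_lit 426538) (nat_lit 29) .nil)))) .nil))) (.nd (nat_lit 5) 
(.lf (nat_lit 35290) (.g (nat_lit 3831) (.e (nat_lit 1214) (nat_lit 89) (.e (nat_lit 73775) (nat_lit 26) (.e (nat_lit 778362) (nat_lit 9) (.e (nat_lit 297) (nat_lit 22) (.e (nat_lit 344133) (nat_lit 26) (.e (nat_lit 557105) (nat_lit 14) (.e (nat_lit 180230) (nat_lit 0) (.e (nat_lit 5820) (nat_lit 320) .nil)))))))) (.g (nat_lit 5) .nil .nil))) 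
(.lf (nat_lit 35322) (.g (nat_lit 2383) (.e (nat_lit 1214) (nat_lit 89) (.e (nat_lit 73781) (nat_lit 32) (.e (nat_lit 2856) (nat_lit 184) (.e (nat_lit 426542) (nat_lit 29) (.e (nat_lit 352317) (nat_lit 24) (.e (nat_lit 123183) (nat_lit 264) .nil)))))) (.g (nat_lit 4) .nil .nil)))))) (.nd (nat_lit 3) (.nd (nat_lit 4) (.nd (nat_lit 5) 
(.lf (nat_lit 35270) (.g (nat_lit 2770) (.e (nat_lit 1214) (nat_lit 89) (.e (nat_lit 73775) (nat_lit 26) (.e (nat_lit 778362) (nat_lit 9) (.e (nat_lit 297) (nat_lit 22) (.e (nat_lit 344132) (nat_lit 26) .nil))))) .nil)) 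
(.lf (nat_lit 35302) (.g (nat_lit 1525) (.e (nat_lit 1214) (nat_lit 89) (.e (nat_lit 73781) (nat_lit 32) (.e (nat_lit 2854) (nat_lit 184) (.e (nat_lit 426542) (nat_lit 29) (.e (nat_lit 352317) (nat_lit 24) (.e (nat_lit 123184) (nat_lit 264) .nil)))))) (.g (nat_lit 4) .nil .nil)))) (.nd (nat_lit 5) 
(.lf (nat_lit 35286) (.g (nat_lit 3736) (.e (nat_lit 1214) (nat_lit 89) (.e (nat_lit 73775) (nat_lit 26) (.e (nat_lit 778362) (nat_lit 9) (.e (nat_lit 297) (nat_lit 22) (.e (nat_lit 344133) (nat_lit 26) (.e (nat_lit 557103) (nat_lit 14) (.e (nat_lit 180233) (nat_lit 0) (.e (nat_lit 5815) (nat_lit 320) .nil)))))))) (.g (nat_lit 5) .nil .nil))) 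
(.lf (nat_lit 35318) (.g (nat_lit 3259) (.e (nat_lit 1214) (nat_lit 89) (.e (nat_lit 73781) (nat_lit 32) (.e (nat_lit 2856) (nat_lit 184) (.e (nat_lit 426538) (nat_lit 29) (.e (nat_lit 352318) (nat_lit 24) (.e (nat_lit 123182) (nat_lit 264) .nil)))))) (.g (nat_lit 6) .nil .nil))))) (.nd (nat_lit 4) (.nd (nat_lit 5) 
(.lf (nat_lit 35278) (.g (nat_lit 3866) (.e (nat_lit 1214) (nat_lit 89) (.e (nat_lit 73775) (nat_lit 26) (.e (nat_lit 778362) (nat_lit 9) (.e (nat_lit 297) (nat_lit 22) (.e (nat_lit 344133) (nat_lit 26) (.e (nat_lit 557098) (nat_lit 13) (.e (nat_lit 172070) (nat_lit 4) (.e (nat_lit 229699) (nat_lit 254) .nil)))))))) (.g (nat_lit 5) .nil .nil))) 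
(.lf (nat_lit 35310) (.g (nat_lit 1740) (.e (nat_lit 1214) (nat_lit 89) (.e (nat_lit 73781) (nat_lit 32) (.e (nat_lit 2855) (nat_lit 184) (.e (nat_lit 426542) (nat_lit 29) (.e (nat_lit 352317) (nat_lit 24) (.e (nat_lit 123184) (nat_lit 264) .nil)))))) (.g (nat_lit 4) .nil .nil)))) (.nd (nat_lit 5) 
(.lf (nat_lit 35294) (.g (nat_lit 1821) (.e (nat_lit 1214) (nat_lit 89) (.e (nat_lit 81664) (nat_lit 27) (.e (nat_lit 786481) (nat_lit 30) (.e (nat_lit 360466) (nat_lit 3) (.e (nat_lit 516120) (nat_lit 1) (.e (nat_lit 164147) (nat_lit 152) .nil)))))) (.g (nat_lit 5) .nil .nil))) 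
(.lf (nat_lit 35326) (.g (nat_lit 2183) (.e (nat_lit 1214) (nat_lit 89) (.e (nat_lit 73781) (nat_lit 32) (.e (nat_lit 2856) (nat_lit 184) (.e (nat_lit 426544) (nat_lit 30) (.e (nat_lit 360456) (nat_lit 0) (.e (nat_lit 5818) (nat_lit 320) .nil)))))) (.g (nat_lit 5) .nil .nil)))))))) (.nd (nat_lit 1) (.nd (nat_lit 2) (.nd (nat_lit 3) (.nd (nat_lit 4) (.nd (nat_lit 5) 
(.lf (nat_lit 35265) (.g (nat_lit 3004) (.e (nat_lit 1214) (nat_lit 89) (.e (nat_lit 73775) (nat_lit 26) (.e (nat_lit 778362) (nat_lit 9) (.e (nat_lit 297) (nat_lit 22) (.e (nat_lit 344131) (nat_lit 26) (.e (nat_lit 557103) (nat_lit 14) (.e (nat_lit 180225) (nat_lit 0) (.e (nat_lit 5823) (nat_lit 320) .nil)))))))) (.g (nat_lit 4) .nil .nil))) 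
(.lf (nat_lit 35297) (.g (nat_lit 1471) (.e (nat_lit 1214) (nat_lit 89) (.e (nat_lit 73779) (nat_lit 32) (.e (nat_lit 2941) (nat_lit 184) (.e (nat_lit 426541) (nat_lit 29) (.e (nat_lit 352316) (nat_lit 24) (.e (nat_lit 123185) (nat_lit 264) .nil)))))) (.g (nat_lit 0) .nil .nil)))) (.nd (nat_lit 5) 
(.lf (nat_lit 35281) (.g (nat_lit 3102) (.e (nat_lit 1214) (nat_lit 89) (.e (nat_lit 73775) (nat_lit 26) (.e (nat_lit 778362) (nat_lit 9) (.e (nat_lit 297) (nat_lit 22) (.e (nat_lit 344133) (nat_lit 26) (.e (nat_lit 557103) (nat_lit 14) (.e (nat_lit 180228) (nat_lit 0) (.e (nat_lit 5820) (nat_lit 320) .nil)))))))) (.g (nat_lit 4) .nil .nil))) 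
(.lf (nat_lit 35313) (.g (nat_lit 1548) (.e (nat_lit 1214) (nat_lit 89) (.e (nat_lit 73781) (nat_lit 32) (.e (nat_lit 2855) (nat_lit 184) (.e (nat_lit 426546) (nat_lit 30) (.e (nat_lit 360456) (nat_lit 0) (.e (nat_lit 5818) (nat_lit 320) .nil)))))) (.g (nat_lit 6) .nil .nil))))) (.nd (nat_lit 4) (.nd (nat_lit 5) 
(.lf (nat_lit 35273) (.g (nat_lit 4651) (.e (nat_lit 1214) (nat_lit 89) (.e (nat_lit 73775) (nat_lit 26) (.e (nat_lit 778362) (nat_lit 9) (.e (nat_lit 297) (nat_lit 22) (.e (nat_lit 344132) (nat_lit 26) (.e (nat_lit 557101) (nat_lit 13) (.e (nat_lit 172070) (nat_lit 4) (.e (nat_lit 229699) (nat_lit 254) .nil)))))))) (.g (nat_lit 6) .nil .nil))) 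
(.lf (nat_lit 35305) (.g (nat_lit 2033) (.e (nat_lit 1214) (nat_lit 89) (.e (nat_lit 73781) (nat_lit 32) (.e (nat_lit 2854) (nat_lit 184) (.e (nat_lit 426555) (nat_lit 32) (.e (nat_lit 376870) (nat_lit 24) (.e (nat_lit 123182) (nat_lit 264) .nil)))))) (.g (nat_lit 4) .nil .nil)))) (.nd (nat_lit 5) 
(.lf (nat_lit 35289) (.g (nat_lit 2748) (.e (nat_lit 1214) (nat_lit 89) (.e (nat_lit 73775) (nat_lit 26) (.e (nat_lit 778362) (nat_lit 9) (.e (nat_lit 297) (nat_lit 22) (.e (nat_lit 344133) (nat_lit 26) (.e (nat_lit 557105) (nat_lit 14) (.e (nat_lit 180226) (nat_lit 0) (.e (nat_lit 5823) (nat_lit 320) .nil)))))))) (.g (nat_lit 4) .nil .nil))) 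
(.lf (nat_lit 35321) (.g (nat_lit 2313) (.e (nat_lit 1214) (nat_lit 89) (.e (nat_lit 73781) (nat_lit 32) (.e (nat_lit 2856) (nat_lit 184) (.e (nat_lit 426542) (nat_lit 29) (.e (nat_lit 352317) (nat_lit 24) .nil))))) .nil))))) (.nd (nat_lit 3) (.nd (nat_lit 4) (.nd (nat_lit 5) 
(.lf (nat_lit 35269) (.g (nat_lit 3569) (.e (nat_lit 1214) (nat_lit 89) (.e (nat_lit 73775) (nat_lit 26) (.e (nat_lit 778362) (nat_lit 9) (.e (nat_lit 297) (nat_lit 22) (.e (nat_lit 344131) (nat_lit 26) (.e (nat_lit 557105) (nat_lit 14) (.e (nat_lit 180227) (nat_lit 0) (.e (nat_lit 5814) (nat_lit 320) .nil)))))))) (.g (nat_lit 4) .nil .nil))) 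
(.lf (nat_lit 35301) (.g (nat_lit 1952) (.e (nat_lit 1214) (nat_lit 89) (.e (nat_lit 73781) (nat_lit 32) (.e (nat_lit 2854) (nat_lit 184) (.e (nat_lit 426542) (nat_lit 29) (.e (nat_lit 352316) (nat_lit 24) (.e (nat_lit 123185) (nat_lit 264) .nil)))))) (.g (nat_lit 6) .nil .nil)))) (.nd (nat_lit 5) 
(.lf (nat_lit 35285) (.g (nat_lit 3292) (.e (nat_lit 1214) (nat_lit 89) (.e (nat_lit 73775) (nat_lit 26) (.e (nat_lit 778362) (nat_lit 9) (.e (nat_lit 297) (nat_lit 22) (.e (nat_lit 344133) (nat_lit 26) (.e (nat_lit 557103) (nat_lit 14) (.e (nat_lit 180229) (nat_lit 0) (.e (nat_lit 5822) (nat_lit 320) .nil)))))))) (.g (nat_lit 4) .nil .nil))) 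
(.lf (nat_lit 35317) (.g (nat_lit 1146) (.e (nat_lit 1214) (nat_lit 89) (.e (nat_lit 73781) (nat_lit 32) (.e (nat_lit 2856) (nat_lit 184) (.e (nat_lit 426533) (nat_lit 28) .nil)))) .nil)))) (.nd (nat_lit 4) (.nd (nat_lit 5) 
(.lf (nat_lit 35277) (.g (nat_lit 3202) (.e (nat_lit 1214) (nat_lit 89) (.e (nat_lit 73775) (nat_lit 26) (.e (nat_lit 778362) (nat_lit 9) (.e (nat_lit 297) (nat_lit 22) (.e (nat_lit 344133) (nat_lit 26) (.e (nat_lit 557098) (nat_lit 13) (.e (nat_lit 172068) (nat_lit 4) (.e (nat_lit 229699) (nat_lit 254) .nil)))))))) (.g (nat_lit 4) .nil .nil))) 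
(.lf (nat_lit 35309) (.g (nat_lit 2238) (.e (nat_lit 1214) (nat_lit 89) (.e (nat_lit 73781) (nat_lit 32) (.e (nat_lit 2855) (nat_lit 184) (.e (nat_lit 426542) (nat_lit 29) (.e (nat_lit 352316) (nat_lit 24) (.e (nat_lit 123185) (nat_lit 264) .nil)))))) (.g (nat_lit 0) .nil .nil)))) (.nd (nat_lit 5) 
(.lf (nat_lit 35293) (.g (nat_lit 1724) (.e (nat_lit 1214) (nat_lit 89) (.e (nat_lit 81664) (nat_lit 27) (.e (nat_lit 786481) (nat_lit 30) (.e (nat_lit 360466) (nat_lit 3) (.e (nat_lit 516117) (nat_lit 1) (.e (nat_lit 164147) (nat_lit 152) .nil)))))) (.g (nat_lit 5) .nil .nil))) 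
(.lf (nat_lit 35325) (.g (nat_lit 3212) (.e (nat_lit 1214) (nat_lit 89) (.e (nat_lit 73781) (nat_lit 32) (.e (nat_lit 2856) (nat_lit 184) (.e (nat_lit 426542) (nat_lit 29) (.e (nat_lit 352318) (nat_lit 24) (.e (nat_lit 123185) (nat_lit 264) .nil)))))) (.g (nat_lit 0) .nil .nil))))))) (.nd (nat_lit 2) (.nd (nat_lit 3) (.nd (nat_lit 4) (.nd (nat_lit 5) 
(.lf (nat_lit 35267) (.g (nat_lit 3583) (.e (nat_lit 1214) (nat_lit 89) (.e (nat_lit 73775) (nat_lit 26) (.e (nat_lit 778362) (nat_lit 9) (.e (nat_lit 297) (nat_lit 22) (.e (nat_lit 344131) (nat_lit 26) (.e (nat_lit 557103) (nat_lit 14) (.e (nat_lit 180229) (nat_lit 0) (.e (nat_lit 5821) (nat_lit 320) .nil)))))))) (.g (nat_lit 4) .nil .nil))) 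
(.lf (nat_lit 35299) (.g (nat_lit 1899) (.e (nat_lit 1214) (nat_lit 89) (.e (nat_lit 73781) (nat_lit 32) (.e (nat_lit 2682) (nat_lit 168) (.e (nat_lit 204869) (nat_lit 29) (.e (nat_lit 368384) (nat_lit 0) (.e (nat_lit 3915) (nat_lit 239) .nil)))))) (.g (nat_lit 4) .nil .nil)))) (.nd (nat_lit 5) 
(.lf (nat_lit 35283) (.g (nat_lit 4636) (.e (nat_lit 1214) (nat_lit 89) (.e (nat_lit 73775) (nat_lit 26) (.e (nat_lit 778362) (nat_lit 9) (.e (nat_lit 297) (nat_lit 22) (.e (nat_lit 344133) (nat_lit 26) (.e (nat_lit 557103) (nat_lit 14) (.e (nat_lit 180229) (nat_lit 0) (.e (nat_lit 5820) (nat_lit 320) .nil)))))))) (.g (nat_lit 6) .nil .nil))) 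
(.lf (nat_lit 35315) (.g (nat_lit 287) (.e (nat_lit 1214) (nat_lit 89) (.e (nat_lit 73781) (nat_lit 32) (.e (nat_lit 2856) (nat_lit 184) .nil))) .nil)))) (.nd (nat_lit 4) (.nd (nat_lit 5) 
(.lf (nat_lit 35275) (.g (nat_lit 2856) (.e (nat_lit 1214) (nat_lit 89) (.e (nat_lit 73775) (nat_lit 26) (.e (nat_lit 778362) (nat_lit 9) (.e (nat_lit 297) (nat_lit 22) (.e (nat_lit 344132) (nat_lit 26) (.e (nat_lit 557105) (nat_lit 14) (.e (nat_lit 180233) (nat_lit 0) (.e (nat_lit 5815) (nat_lit 320) .nil)))))))) (.g (nat_lit 4) .nil .nil))) 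
(.lf (nat_lit 35307) (.g (nat_lit 1564) (.e (nat_lit 1214) (nat_lit 89) (.e (nat_lit 73781) (nat_lit 32) (.e (nat_lit 2855) (nat_lit 184) (.e (nat_lit 426542) (nat_lit 29) (.e (nat_lit 352316) (nat_lit 24) (.e (nat_lit 123183) (nat_lit 264) .nil)))))) (.g (nat_lit 4) .nil .nil)))) (.nd (nat_lit 5) 
(.lf (nat_lit 35291) (.g (nat_lit 3308) (.e (nat_lit 1214) (nat_lit 89) (.e (nat_lit 73775) (nat_lit 26) (.e (nat_lit 778362) (nat_lit 9) (.e (nat_lit 297) (nat_lit 22) (.e (nat_lit 344133) (nat_lit 26) (.e (nat_lit 557105) (nat_lit 14) (.e (nat_lit 180233) (nat_lit 0) (.e (nat_lit 5817) (nat_lit 320) .nil)))))))) (.g (nat_lit 4) .nil .nil))) 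
(.lf (nat_lit 35323) (.g (nat_lit 2590) (.e (nat_lit 1214) (nat_lit 89) (.e (nat_lit 73781) (nat_lit 32) (.e (nat_lit 2856) (nat_lit 184) (.e (nat_lit 426542) (nat_lit 29) (.e (nat_lit 352318) (nat_lit 24) (.e (nat_lit 123183) (nat_lit 264) .nil)))))) (.g (nat_lit 5) .nil .nil)))))) (.nd (nat_lit 3) (.nd (nat_lit 4) (.nd (nat_lit 5) 
(.lf (nat_lit 35271) (.g (nat_lit 2928) (.e (nat_lit 1214) (nat_lit 89) (.e (nat_lit 73775) (nat_lit 26) (.e (nat_lit 778362) (nat_lit 9) (.e (nat_lit 297) (nat_lit 22) (.e (nat_lit 344132) (nat_lit 26) (.e (nat_lit 557100) (nat_lit 13) (.e (nat_lit 172070) (nat_lit 4) (.e (nat_lit 229699) (nat_lit 254) .nil)))))))) (.g (nat_lit 4) .nil .nil))) 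
(.lf (nat_lit 35303) (.g (nat_lit 1997) (.e (nat_lit 1214) (nat_lit 89) (.e (nat_lit 73781) (nat_lit 32) (.e (nat_lit 2854) (nat_lit 184) (.e (nat_lit 426542) (nat_lit 29) (.e (nat_lit 352318) (nat_lit 24) (.e (nat_lit 123185) (nat_lit 264) .nil)))))) (.g (nat_lit 6) .nil .nil)))) (.nd (nat_lit 5) 
(.lf (nat_lit 35287) (.g (nat_lit 3155) (.e (nat_lit 1214) (nat_lit 89) (.e (nat_lit 73775) (nat_lit 26) (.e (nat_lit 778362) (nat_lit 9) (.e (nat_lit 297) (nat_lit 22) (.e (nat_lit 344133) (nat_lit 26) (.e (nat_lit 557103) (nat_lit 14) (.e (nat_lit 180233) (nat_lit 0) (.e (nat_lit 5817) (nat_lit 320) .nil)))))))) (.g (nat_lit 4) .nil .nil))) 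
(.lf (nat_lit 35319) (.g (nat_lit 2259) (.e (nat_lit 1214) (nat_lit 89) (.e (nat_lit 73781) (nat_lit 32) (.e (nat_lit 2856) (nat_lit 184) (.e (nat_lit 426538) (nat_lit 29) (.e (nat_lit 352318) (nat_lit 24) (.e (nat_lit 123183) (nat_lit 264) .nil)))))) (.g (nat_lit 4) .nil .nil))))) (.nd (nat_lit 4) (.nd (nat_lit 5) 
(.lf (nat_lit 35279) (.g (nat_lit 3968) (.e (nat_lit 1214) (nat_lit 89) (.e (nat_lit 73775) (nat_lit 26) (.e (nat_lit 778362) (nat_lit 9) (.e (nat_lit 297) (nat_lit 22) (.e (nat_lit 344133) (nat_lit 26) (.e (nat_lit 557103) (nat_lit 14) (.e (nat_lit 180225) (nat_lit 0) (.e (nat_lit 5814) (nat_lit 320) .nil)))))))) (.g (nat_lit 5) .nil .nil))) 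
(.lf (nat_lit 35311) (.g (nat_lit 2619) (.e (nat_lit 1214) (nat_lit 89) (.e (nat_lit 73781) (nat_lit 32) (.e (nat_lit 2855) (nat_lit 184) (.e (nat_lit 426542) (nat_lit 29) (.e (nat_lit 352318) (nat_lit 24) (.e (nat_lit 123184) (nat_lit 264) .nil)))))) (.g (nat_lit 6) .nil .nil)))) (.nd (nat_lit 5) 
(.lf (nat_lit 35295) (.g (nat_lit 1563) (.e (nat_lit 1214) (nat_lit 89) (.e (nat_lit 73779) (nat_lit 32) (.e (nat_lit 2936) (nat_lit 184) (.e (nat_lit 426541) (nat_lit 29) (.e (nat_lit 352316) (nat_lit 24) (.e (nat_lit 123185) (nat_lit 264) .nil)))))) (.g (nat_lit 0) .nil .nil))) 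
(.lf (nat_lit 35327) (.g (nat_lit 2605) (.e (nat_lit 1214) (nat_lit 89) (.e (nat_lit 73781) (nat_lit 32) (.e (nat_lit 2856) (nat_lit 184) (.e (nat_lit 426544) (nat_lit 30) (.e (nat_lit 360457) (nat_lit 0) (.e (nat_lit 5818) (nat_lit 320) .nil)))))) (.g (nat_lit 0) .nil .nil)))))))))

noncomputable def tv494 : DT := (.nd (nat_lit 0) (.nd (nat_lit 1) (.nd (nat_lit 2) (.nd (nat_lit 3) (.nd (nat_lit 4) (.nd (nat_lit 5) (.nd (nat_lit 6) 
(.lf (nat_lit 35328) (.g (nat_lit 2216) (.e (nat_lit 1214) (nat_lit 89) (.e (nat_lit 73781) (nat_lit 32) (.e (nat_lit 2856) (nat_lit 184) (.e (nat_lit 426555) (nat_lit 32) (.e (nat_lit 376870) (nat_lit 24) .nil))))) .nil)) 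
(.lf (nat_lit 35392) (.g (nat_lit 1136) (.e (nat_lit 7936) (nat_lit 89) (.e (nat_lit 73746) (nat_lit 3) (.e (nat_lit 516171) (nat_lit 13) (.e (nat_lit 458774) (nat_lit 18) .nil)))) .nil))) (.nd (nat_lit 6) 
(.lf (nat_lit 35360) (.g (nat_lit 1106) (.e (nat_lit 1214) (nat_lit 89) (.e (nat_lit 73781) (nat_lit 32) (.e (nat_lit 3090) (nat_lit 191) (.e (nat_lit 483387) (nat_lit 23) .nil)))) .nil)) 
(.lf (nat_lit 35424) (.g (nat_lit 2118) (.e (nat_lit 7936) (nat_lit 89) (.e (nat_lit 73753) (nat_lit 8) (.e (nat_lit 557103) (nat_lit 14) (.e (nat_lit 180229) (nat_lit 0) (.e (nat_lit 5546) (nat_lit 306) .nil))))) .nil)))) (.nd (nat_lit 5) (.nd (nat_lit 6) 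
(.lf (nat_lit 35344) (.g (nat_lit 894) (.e (nat_lit 1214) (nat_lit 89) (.e (nat_lit 73781) (nat_lit 32) (.e (nat_lit 3089) (nat_lit 191) (.e (nat_lit 483391) (nat_lit 23) .nil)))) .nil)) 
(.lf (nat_lit 35408) (.g (nat_lit 1055) (.e (nat_lit 7936) (nat_lit 89) (.e (nat_lit 73747) (nat_lit 3) (.e (nat_lit 516167) (nat_lit 12) (.e (nat_lit 458496) (nat_lit 3) .nil)))) .nil))) (.nd (nat_lit 6) 
(.lf (nat_lit 35376) (.g (nat_lit 2283) (.e (nat_lit 1214) (nat_lit 89) (.e (nat_lit 73792) (nat_lit 45) (.e (nat_lit 1385) (nat_lit 105) (.e (nat_lit 311358) (nat_lit 29) (.e (nat_lit 352318) (nat_lit 24) (.e (nat_lit 123184) (nat_lit 264) .nil)))))) (.g (nat_lit 0) .nil .nil))) 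
(.lf (nat_lit 35440) (.g (nat_lit 2009) (.e (nat_lit 7936) (nat_lit 89) (.e (nat_lit 73755) (nat_lit 8) (.e (nat_lit 557098) (nat_lit 13) (.e (nat_lit 172059) (nat_lit 1) (.e (nat_lit 164327) (nat_lit 230) .nil))))) .nil))))) (.nd (nat_lit 4) (.nd (nat_lit 5) (.nd (nat_lit 6) 
(.lf (nat_lit 35336) (.g (nat_lit 2388) (.e (nat_lit 1214) (nat_lit 89) (.e (nat_lit 73781) (nat_lit 32) (.e (nat_lit 2857) (nat_lit 184) (.e (nat_lit 426544) (nat_lit 30) (.e (nat_lit 360457) (nat_lit 0) (.e (nat_lit 5818) (nat_lit 320) .nil)))))) (.g (nat_lit 0) .nil .nil))) 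
(.lf (nat_lit 35400) (.g (nat_lit 1455) (.e (nat_lit 7936) (nat_lit 89) (.e (nat_lit 73746) (nat_lit 3) (.e (nat_lit 516176) (nat_lit 14) (.e (nat_lit 466960) (nat_lit 20) (.e (nat_lit 7936) (nat_lit 195) .nil))))) .nil))) (.nd (nat_lit 6) 
(.lf (nat_lit 35368) (.g (nat_lit 1621) (.e (nat_lit 1214) (nat_lit 89) (.e (nat_lit 73791) (nat_lit 45) (.e (nat_lit 1385) (nat_lit 105) (.e (nat_lit 311358) (nat_lit 29) (.e (nat_lit 352318) (nat_lit 24) (.e (nat_lit 123185) (nat_lit 264) .nil)))))) (.g (nat_lit 0) .nil .nil))) 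
(.lf (nat_lit 35432) (.g (nat_lit 1929) (.e (nat_lit 7936) (nat_lit 89) (.e (nat_lit 73754) (nat_lit 8) (.e (nat_lit 557100) (nat_lit 13) (.e (nat_lit 172138) (nat_lit 15) .nil)))) .nil)))) (.nd (nat_lit 5) (.nd (nat_lit 6) 
(.lf (nat_lit 35352) (.g (nat_lit 2270) (.e (nat_lit 1214) (nat_lit 89) (.e (nat_lit 73781) (nat_lit 32) (.e (nat_lit 3090) (nat_lit 191) (.e (nat_lit 483350) (nat_lit 17) (.e (nat_lit 6113) (nat_lit 332) (.e (nat_lit 2538) (nat_lit 158) (.e (nat_lit 8433) (nat_lit 138) .nil))))))) (.g (nat_lit 4) .nil .nil))) 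
(.lf (nat_lit 35416) (.g (nat_lit 2386) (.e (nat_lit 7936) (nat_lit 89) (.e (nat_lit 73753) (nat_lit 8) (.e (nat_lit 557100) (nat_lit 13) (.e (nat_lit 172059) (nat_lit 1) (.e (nat_lit 164332) (nat_lit 230) .nil))))) .nil))) (.nd (nat_lit 6) 
(.lf (nat_lit 35384) (.g (nat_lit 706) (.e (nat_lit 7936) (nat_lit 89) (.e (nat_lit 73746) (nat_lit 3) (.e (nat_lit 516149) (nat_lit 9) .nil))) .nil)) 
(.lf (nat_lit 35448) (.g (nat_lit 1651) (.e (nat_lit 7936) (nat_lit 89) (.e (nat_lit 73781) (nat_lit 32) (.e (nat_lit 2682) (nat_lit 168) (.e (nat_lit 204869) (nat_lit 29) (.e (nat_lit 360450) (nat_lit 0) .nil))))) .nil)))))) (.nd (nat_lit 3) (.nd (nat_lit 4) (.nd (nat_lit 5) (.nd (nat_lit 6) 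
(.lf (nat_lit 35332) (.g (nat_lit 1702) (.e (nat_lit 1214) (nat_lit 89) (.e (nat_lit 73781) (nat_lit 32) (.e (nat_lit 2857) (nat_lit 184) (.e (nat_lit 426542) (nat_lit 29) (.e (nat_lit 352317) (nat_lit 24) .nil))))) .nil)) 
(.lf (nat_lit 35396) (.g (nat_lit 1256) (.e (nat_lit 7936) (nat_lit 89) (.e (nat_lit 73746) (nat_lit 3) (.e (nat_lit 516174) (nat_lit 14) (.e (nat_lit 466967) (nat_lit 20) .nil)))) .nil))) (.nd (nat_lit 6) 
(.lf (nat_lit 35364) (.g (nat_lit 1149) (.e (nat_lit 1214) (nat_lit 89) (.e (nat_lit 73781) (nat_lit 32) (.e (nat_lit 3090) (nat_lit 191) (.e (nat_lit 483395) (nat_lit 24) .nil)))) .nil)) 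
(.lf (nat_lit 35428) (.g (nat_lit 2302) (.e (nat_lit 7936) (nat_lit 89) (.e (nat_lit 73754) (nat_lit 8) (.e (nat_lit 557100) (nat_lit 13) (.e (nat_lit 172059) (nat_lit 1) (.e (nat_lit 164332) (nat_lit 230) .nil))))) .nil)))) (.nd (nat_lit 5) (.nd (nat_lit 6) 
(.lf (nat_lit 35348) (.g (nat_lit 1564) (.e (nat_lit 1214) (nat_lit 89) (.e (nat_lit 73781) (nat_lit 32) (.e (nat_lit 3089) (nat_lit 191) (.e (nat_lit 483396) (nat_lit 24) (.e (nat_lit 344104) (nat_lit 18) .nil))))) .nil)) 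
(.lf (nat_lit 35412) (.g (nat_lit 2207) (.e (nat_lit 7936) (nat_lit 89) (.e (nat_lit 73753) (nat_lit 8) (.e (nat_lit 557098) (nat_lit 13) (.e (nat_lit 172061) (nat_lit 1) (.e (nat_lit 164326) (nat_lit 230) .nil))))) .nil))) (.nd (nat_lit 6) 
(.lf (nat_lit 35380) (.g (nat_lit 2586) (.e (nat_lit 1214) (nat_lit 89) (.e (nat_lit 73792) (nat_lit 45) (.e (nat_lit 1386) (nat_lit 105) (.e (nat_lit 311358) (nat_lit 29) (.e (nat_lit 352318) (nat_lit 24) (.e (nat_lit 123184) (nat_lit 264) .nil)))))) (.g (nat_lit 0) .nil .nil))) 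
(.lf (nat_lit 35444) (.g (nat_lit 1538) (.e (nat_lit 7936) (nat_lit 89) (.e (nat_lit 73755) (nat_lit 8) (.e (nat_lit 557104) (nat_lit 14) (.e (nat_lit 180229) (nat_lit 0) .nil)))) .nil))))) (.nd (nat_lit 4) (.nd (nat_lit 5) (.nd (nat_lit 6) 
(.lf (nat_lit 35340) (.g (nat_lit 1728) (.e (nat_lit 1214) (nat_lit 89) (.e (nat_lit 73781) (nat_lit 32) (.e (nat_lit 3088) (nat_lit 191) (.e (nat_lit 483378) (nat_lit 23) (.e (nat_lit 336032) (nat_lit 4) (.e (nat_lit 123182) (nat_lit 264) .nil)))))) (.g (nat_lit 4) .nil .nil))) 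
(.lf (nat_lit 35404) (.g (nat_lit 1586) (.e (nat_lit 7936) (nat_lit 89) (.e (nat_lit 73746) (nat_lit 3) (.e (nat_lit 516176) (nat_lit 14) (.e (nat_lit 466977) (nat_lit 22) (.e (nat_lit 196658) (nat_lit 12) .nil))))) .nil))) (.nd (nat_lit 6) 
(.lf (nat_lit 35372) (.g (nat_lit 1508) (.e (nat_lit 1214) (nat_lit 89) (.e (nat_lit 73792) (nat_lit 45) (.e (nat_lit 1342) (nat_lit 101) (.e (nat_lit 278531) (nat_lit 0) (.e (nat_lit 5779) (nat_lit 317) (.e (nat_lit 188160) (nat_lit 0) (.e (nat_lit 5057) (nat_lit 292) .nil))))))) (.g (nat_lit 5) .nil .nil))) 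
(.lf (nat_lit 35436) (.g (nat_lit 1610) (.e (nat_lit 7936) (nat_lit 89) (.e (nat_lit 73754) (nat_lit 8) (.e (nat_lit 557101) (nat_lit 13) (.e (nat_lit 172061) (nat_lit 1) (.e (nat_lit 164332) (nat_lit 230) .nil))))) .nil)))) (.nd (nat_lit 5) (.nd (nat_lit 6) 
(.lf (nat_lit 35356) (.g (nat_lit 1872) (.e (nat_lit 1214) (nat_lit 89) (.e (nat_lit 73781) (nat_lit 32) (.e (nat_lit 3090) (nat_lit 191) (.e (nat_lit 483372) (nat_lit 21) (.e (nat_lit 319505) (nat_lit 10) (.e (nat_lit 11) (nat_lit 0) (.e (nat_lit 4553) (nat_lit 269) .nil))))))) (.g (nat_lit 4) .nil .nil))) 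
(.lf (nat_lit 35420) (.g (nat_lit 1794) (.e (nat_lit 7936) (nat_lit 89) (.e (nat_lit 73753) (nat_lit 8) (.e (nat_lit 557101) (nat_lit 13) (.e (nat_lit 172061) (nat_lit 1) (.e (nat_lit 164326) (nat_lit 230) .nil))))) .nil))) (.nd (nat_lit 6) 
(.lf (nat_lit 35388) (.g (nat_lit 1080) (.e (nat_lit 7936) (nat_lit 89) (.e (nat_lit 73746) (nat_lit 3) (.e (nat_lit 516165) (nat_lit 12) (.e (nat_lit 458496) (nat_lit 3) .nil)))) .nil)) 
(.lf (nat_lit 35452) (.g (nat_lit 1044) (.e (nat_lit 7936) (nat_lit 89) (.e (nat_lit 73781) (nat_lit 32) (.e (nat_lit 2856) (nat_lit 184) (.e (nat_lit 426555) (nat_lit 32) .nil)))) .nil))))))) (.nd (nat_lit 2) (.nd (nat_lit 3) (.nd (nat_lit 4) (.nd (nat_lit 5) (.nd (nat_lit 6) 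
(.lf (nat_lit 35330) (.g (nat_lit 1350) (.e (nat_lit 1214) (nat_lit 89) (.e (nat_lit 73781) (nat_lit 32) (.e (nat_lit 2857) (nat_lit 184) (.e (nat_lit 426538) (nat_lit 29) (.e (nat_lit 352318) (nat_lit 24) .nil))))) .nil)) 
(.lf (nat_lit 35394) (.g (nat_lit 1105) (.e (nat_lit 7936) (nat_lit 89) (.e (nat_lit 73746) (nat_lit 3) (.e (nat_lit 516174) (nat_lit 14) (.e (nat_lit 466947) (nat_lit 0) .nil)))) .nil))) (.nd (nat_lit 6) 
(.lf (nat_lit 35362) (.g (nat_lit 2012) (.e (nat_lit 1214) (nat_lit 89) (.e (nat_lit 73781) (nat_lit 32) (.e (nat_lit 3090) (nat_lit 191) (.e (nat_lit 483393) (nat_lit 23) (.e (nat_lit 336033) (nat_lit 4) .nil))))) .nil)) 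
(.lf (nat_lit 35426) (.g (nat_lit 2985) (.e (nat_lit 7936) (nat_lit 89) (.e (nat_lit 73754) (nat_lit 8) (.e (nat_lit 557091) (nat_lit 12) (.e (nat_lit 164238) (nat_lit 187) (.e (nat_lit 1661) (nat_lit 115) .nil))))) .nil)))) (.nd (nat_lit 5) (.nd (nat_lit 6) 
(.lf (nat_lit 35346) (.g (nat_lit 1729) (.e (nat_lit 1214) (nat_lit 89) (.e (nat_lit 73781) (nat_lit 32) (.e (nat_lit 3089) (nat_lit 191) (.e (nat_lit 483393) (nat_lit 23) (.e (nat_lit 336033) (nat_lit 4) (.e (nat_lit 123182) (nat_lit 264) .nil)))))) (.g (nat_lit 4) .nil .nil))) 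
(.lf (nat_lit 35410) (.g (nat_lit 1935) (.e (nat_lit 7936) (nat_lit 89) (.e (nat_lit 73753) (nat_lit 8) (.e (nat_lit 557091) (nat_lit 12) (.e (nat_lit 164238) (nat_lit 187) (.e (nat_lit 1660) (nat_lit 115) .nil))))) .nil))) (.nd (nat_lit 6) 
(.lf (nat_lit 35378) (.g (nat_lit 2461) (.e (nat_lit 1214) (nat_lit 89) (.e (nat_lit 73792) (nat_lit 45) (.e (nat_lit 1386) (nat_lit 105) (.e (nat_lit 311358) (nat_lit 29) (.e (nat_lit 352316) (nat_lit 24) (.e (nat_lit 123184) (nat_lit 264) .nil)))))) (.g (nat_lit 0) .nil .nil))) 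
(.lf (nat_lit 35442) (.g (nat_lit 1719) (.e (nat_lit 7936) (nat_lit 89) (.e (nat_lit 73755) (nat_lit 8) (.e (nat_lit 557098) (nat_lit 13) (.e (nat_lit 172060) (nat_lit 1) .nil)))) .nil))))) (.nd (nat_lit 4) (.nd (nat_lit 5) (.nd (nat_lit 6) 
(.lf (nat_lit 35338) (.g (nat_lit 1216) (.e (nat_lit 1214) (nat_lit 89) (.e (nat_lit 73781) (nat_lit 32) (.e (nat_lit 3067) (nat_lit 190) (.e (nat_lit 483072) (nat_lit 12) .nil)))) .nil)) 
(.lf (nat_lit 35402) (.g (nat_lit 1128) (.e (nat_lit 7936) (nat_lit 89) (.e (nat_lit 73746) (nat_lit 3) (.e (nat_lit 516176) (nat_lit 14) (.e (nat_lit 466976) (nat_lit 22) .nil)))) .nil))) (.nd (nat_lit 6) 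
(.lf (nat_lit 35370) (.g (nat_lit 1775) (.e (nat_lit 1214) (nat_lit 89) (.e (nat_lit 73791) (nat_lit 45) (.e (nat_lit 1386) (nat_lit 105) (.e (nat_lit 311358) (nat_lit 29) (.e (nat_lit 352318) (nat_lit 24) (.e (nat_lit 123185) (nat_lit 264) .nil)))))) (.g (nat_lit 0) .nil .nil))) 
(.lf (nat_lit 35434) (.g (nat_lit 1610) (.e (nat_lit 7936) (nat_lit 89) (.e (nat_lit 73754) (nat_lit 8) (.e (nat_lit 557101) (nat_lit 13) (.e (nat_lit 172061) (nat_lit 1) (.e (nat_lit 164324) (nat_lit 230) .nil))))) .nil)))) (.nd (nat_lit 5) (.nd (nat_lit 6) 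
(.lf (nat_lit 35354) (.g (nat_lit 2551) (.e (nat_lit 1214) (nat_lit 89) (.e (nat_lit 73781) (nat_lit 32) (.e (nat_lit 3090) (nat_lit 191) (.e (nat_lit 483372) (nat_lit 21) (.e (nat_lit 319490) (nat_lit 0) (.e (nat_lit 75) (nat_lit 0) (.e (nat_lit 5802) (nat_lit 320) .nil))))))) (.g (nat_lit 4) .nil .nil))) 
(.lf (nat_lit 35418) (.g (nat_lit 1737) (.e (nat_lit 7936) (nat_lit 89) (.e (nat_lit 73753) (nat_lit 8) (.e (nat_lit 557100) (nat_lit 13) (.e (nat_lit 172061) (nat_lit 1) (.e (nat_lit 164327) (nat_lit 230) .nil))))) .nil))) (.nd (nat_lit 6) 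
(.lf (nat_lit 35386) (.g (nat_lit 1341) (.e (nat_lit 7936) (nat_lit 89) (.e (nat_lit 73746) (nat_lit 3) (.e (nat_lit 516150) (nat_lit 9) (.e (nat_lit 426320) (nat_lit 12) .nil)))) .nil)) 
(.lf (nat_lit 35450) (.g (nat_lit 1910) (.e (nat_lit 7936) (nat_lit 89) (.e (nat_lit 73781) (nat_lit 32) (.e (nat_lit 2856) (nat_lit 184) (.e (nat_lit 426544) (nat_lit 30) (.e (nat_lit 360455) (nat_lit 0) .nil))))) .nil)))))) (.nd (nat_lit 3) (.nd (nat_lit 4) (.nd (nat_lit 5) (.nd (nat_lit 6) 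
(.lf (nat_lit 35334) (.g (nat_lit 2712) (.e (nat_lit 1214) (nat_lit 89) (.e (nat_lit 73781) (nat_lit 32) (.e (nat_lit 2857) (nat_lit 184) (.e (nat_lit 426542) (nat_lit 29) (.e (nat_lit 352318) (nat_lit 24) (.e (nat_lit 123185) (nat_lit 264) .nil)))))) (.g (nat_lit 0) .nil .nil))) 
(.lf (nat_lit 35398) (.g (nat_lit 1031) (.e (nat_lit 7936) (nat_lit 89) (.e (nat_lit 73746) (nat_lit 3) (.e (nat_lit 516176) (nat_lit 14) (.e (nat_lit 466947) (nat_lit 0) .nil)))) .nil))) (.nd (nat_lit 6) 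
(.lf (nat_lit 35366) (.g (nat_lit 1093) (.e (nat_lit 1214) (nat_lit 89) (.e (nat_lit 81664) (nat_lit 36) (.e (nat_lit 172150) (nat_lit 27) (.e (nat_lit 336070) (nat_lit 8) (.e (nat_lit 327692) (nat_lit 1) (.e (nat_lit 8433) (nat_lit 138) .nil)))))) (.g (nat_lit 4) .nil .nil))) 
(.lf (nat_lit 35430) (.g (nat_lit 1778) (.e (nat_lit 7936) (nat_lit 89) (.e (nat_lit 73754) (nat_lit 8) (.e (nat_lit 557100) (nat_lit 13) (.e (nat_lit 172061) (nat_lit 1) (.e (nat_lit 164326) (nat_lit 230) .nil))))) .nil)))) (.nd (nat_lit 5) (.nd (nat_lit 6) 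
(.lf (nat_lit 35350) (.g (nat_lit 1735) (.e (nat_lit 1214) (nat_lit 89) (.e (nat_lit 73781) (nat_lit 32) (.e (nat_lit 3090) (nat_lit 191) (.e (nat_lit 483350) (nat_lit 17) (.e (nat_lit 6097) (nat_lit 332) .nil))))) .nil)) 
(.lf (nat_lit 35414) (.g (nat_lit 1400) (.e (nat_lit 7936) (nat_lit 89) (.e (nat_lit 73753) (nat_lit 8) (.e (nat_lit 557098) (nat_lit 13) (.e (nat_lit 172133) (nat_lit 15) .nil)))) .nil))) (.nd (nat_lit 6) 
(.lf (nat_lit 35382) (.g (nat_lit 1985) (.e (nat_lit 7936) (nat_lit 89) (.e (nat_lit 73746) (nat_lit 3) (.e (nat_lit 516146) (nat_lit 9) (.e (nat_lit 426294) (nat_lit 11) (.e (nat_lit 466688) (nat_lit 21) .nil))))) .nil)) 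
(.lf (nat_lit 35446) (.g (nat_lit 2269) (.e (nat_lit 7936) (nat_lit 89) (.e (nat_lit 73755) (nat_lit 8) (.e (nat_lit 557104) (nat_lit 14) (.e (nat_lit 180229) (nat_lit 0) (.e (nat_lit 5546) (nat_lit 306) .nil))))) .nil))))) (.nd (nat_lit 4) (.nd (nat_lit 5) (.nd (nat_lit 6) 
(.lf (nat_lit 35342) (.g (nat_lit 1648) (.e (nat_lit 1214) (nat_lit 89) (.e (nat_lit 73781) (nat_lit 32) (.e (nat_lit 3088) (nat_lit 191) (.e (nat_lit 483394) (nat_lit 24) (.e (nat_lit 344104) (nat_lit 18) (.e (nat_lit 5818) (nat_lit 320) .nil)))))) (.g (nat_lit 4) .nil .nil))) 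
(.lf (nat_lit 35406) (.g (nat_lit 1456) (.e (nat_lit 7936) (nat_lit 89) (.e (nat_lit 73747) (nat_lit 3) (.e (nat_lit 516150) (nat_lit 9) (.e (nat_lit 426294) (nat_lit 11) .nil)))) .nil))) (.nd (nat_lit 6) 
(.lf (nat_lit 35374) (.g (nat_lit 2570) (.e (nat_lit 1214) (nat_lit 89) (.e (nat_lit 73792) (nat_lit 45) (.e (nat_lit 1385) (nat_lit 105) (.e (nat_lit 311358) (nat_lit 29) (.e (nat_lit 352316) (nat_lit 24) (.e (nat_lit 123182) (nat_lit 264) .nil)))))) (.g (nat_lit 6) .nil .nil))) 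
(.lf (nat_lit 35438) (.g (nat_lit 1260) (.e (nat_lit 7936) (nat_lit 89) (.e (nat_lit 73755) (nat_lit 8) (.e (nat_lit 557087) (nat_lit 11) (.e (nat_lit 24597) (nat_lit 1) .nil)))) .nil)))) (.nd (nat_lit 5) (.nd (nat_lit 6) 
(.lf (nat_lit 35358) (.g (nat_lit 2381) (.e (nat_lit 1214) (nat_lit 89) (.e (nat_lit 73781) (nat_lit 32) (.e (nat_lit 3090) (nat_lit 191) (.e (nat_lit 483380) (nat_lit 23) (.e (nat_lit 336036) (nat_lit 4) .nil))))) .nil)) 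
(.lf (nat_lit 35422) (.g (nat_lit 1608) (.e (nat_lit 7936) (nat_lit 89) (.e (nat_lit 73753) (nat_lit 8) (.e (nat_lit 557103) (nat_lit 14) (.e (nat_lit 180229) (nat_lit 0) .nil)))) .nil))) (.nd (nat_lit 6) 
(.lf (nat_lit 35390) (.g (nat_lit 1845) (.e (nat_lit 7936) (nat_lit 89) (.e (nat_lit 73746) (nat_lit 3) (.e (nat_lit 516166) (nat_lit 12) (.e (nat_lit 458496) (nat_lit 3) .nil)))) .nil)) 
(.lf (nat_lit 35454) (.g (nat_lit 309) (.e (nat_lit 7936) (nat_lit 89) (.e (nat_lit 73781) (nat_lit 32) (.e (nat_lit 3090) (nat_lit 191) .nil))) .nil)))))))) (.nd (nat_lit 1) (.nd (nat_lit 2) (.nd (nat_lit 3) (.nd (nat_lit 4) (.nd (nat_lit 5) (.nd (nat_lit 6) 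
(.lf (nat_lit 35329) (.g (nat_lit 2314) (.e (nat_lit 1214) (nat_lit 89) (.e (nat_lit 73781) (nat_lit 32) (.e (nat_lit 2856) (nat_lit 184) (.e (nat_lit 426555) (nat_lit 32) (.e (nat_lit 376870) (nat_lit 24) (.e (nat_lit 123184) (nat_lit 264) .nil)))))) (.g (nat_lit 4) .nil .nil))) 
(.lf (nat_lit 35393) (.g (nat_lit 342) (.e (nat_lit 7936) (nat_lit 89) (.e (nat_lit 73746) (nat_lit 3) (.e (nat_lit 516174) (nat_lit 14) .nil))) .nil))) (.nd (nat_lit 6) 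
(.lf (nat_lit 35361) (.g (nat_lit 1810) (.e (nat_lit 1214) (nat_lit 89) (.e (nat_lit 73781) (nat_lit 32) (.e (nat_lit 3090) (nat_lit 191) (.e (nat_lit 483388) (nat_lit 23) (.e (nat_lit 336032) (nat_lit 4) (.e (nat_lit 123184) (nat_lit 264) .nil)))))) (.g (nat_lit 4) .nil .nil))) 
(.lf (nat_lit 35425) (.g (nat_lit 1371) (.e (nat_lit 7936) (nat_lit 89) (.e (nat_lit 73753) (nat_lit 8) (.e (nat_lit 557103) (nat_lit 14) (.e (nat_lit 180244) (nat_lit 5) .nil)))) .nil)))) (.nd (nat_lit 5) (.nd (nat_lit 6) 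
(.lf (nat_lit 35345) (.g (nat_lit 1443) (.e (nat_lit 1214) (nat_lit 89) (.e (nat_lit 73781) (nat_lit 32) (.e (nat_lit 3089) (nat_lit 191) (.e (nat_lit 483393) (nat_lit 23) (.e (nat_lit 336033) (nat_lit 4) .nil))))) .nil)) 
(.lf (nat_lit 35409) (.g (nat_lit 2387) (.e (nat_lit 7936) (nat_lit 89) (.e (nat_lit 73753) (nat_lit 8) (.e (nat_lit 557090) (nat_lit 12) (.e (nat_lit 164238) (nat_lit 187) .nil)))) .nil))) (.nd (nat_lit 6) 
(.lf (nat_lit 35377) (.g (nat_lit 2897) (.e (nat_lit 1214) (nat_lit 89) (.e (nat_lit 73792) (nat_lit 45) (.e (nat_lit 1386) (nat_lit 105) (.e (nat_lit 311358) (nat_lit 29) (.e (nat_lit 352316) (nat_lit 24) (.e (nat_lit 123182) (nat_lit 264) .nil)))))) (.g (nat_lit 6) .nil .nil))) 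
(.lf (nat_lit 35441) (.g (nat_lit 1955) (.e (nat_lit 7936) (nat_lit 89) (.e (nat_lit 73755) (nat_lit 8) (.e (nat_lit 557098) (nat_lit 13) (.e (nat_lit 172059) (nat_lit 1) (.e (nat_lit 164332) (nat_lit 230) .nil))))) .nil))))) (.nd (nat_lit 4) (.nd (nat_lit 5) (.nd (nat_lit 6) 
(.lf (nat_lit 35337) (.g (nat_lit 514) (.e (nat_lit 1214) (nat_lit 89) (.e (nat_lit 73781) (nat_lit 32) (.e (nat_lit 3067) (nat_lit 190) .nil))) .nil)) 
(.lf (nat_lit 35401) (.g (nat_lit 1672) (.e (nat_lit 7936) (nat_lit 89) (.e (nat_lit 73746) (nat_lit 3) (.e (nat_lit 516176) (nat_lit 14) (.e (nat_lit 466967) (nat_lit 20) (.e (nat_lit 7936) (nat_lit 195) .nil))))) .nil))) (.nd (nat_lit 6) 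
(.lf (nat_lit 35369) (.g (nat_lit 1637) (.e (nat_lit 1214) (nat_lit 89) (.e (nat_lit 73791) (nat_lit 45) (.e (nat_lit 1386) (nat_lit 105) (.e (nat_lit 311358) (nat_lit 29) (.e (nat_lit 352316) (nat_lit 24) (.e (nat_lit 123185) (nat_lit 264) .nil)))))) (.g (nat_lit 0) .nil .nil))) 
(.lf (nat_lit 35433) (.g (nat_lit 1118) (.e (nat_lit 7936) (nat_lit 89) (.e (nat_lit 73754) (nat_lit 8) (.e (nat_lit 557101) (nat_lit 13) (.e (nat_lit 172061) (nat_lit 1) .nil)))) .nil)))) (.nd (nat_lit 5) (.nd (nat_lit 6) 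
(.lf (nat_lit 35353) (.g (nat_lit 2445) (.e (nat_lit 1214) (nat_lit 89) (.e (nat_lit 73781) (nat_lit 32) (.e (nat_lit 3090) (nat_lit 191) (.e (nat_lit 483372) (nat_lit 21) (.e (nat_lit 319490) (nat_lit 0) (.e (nat_lit 75) (nat_lit 0) (.e (nat_lit 5801) (nat_lit 320) .nil))))))) (.g (nat_lit 4) .nil .nil))) 
(.lf (nat_lit 35417) (.g (nat_lit 1321) (.e (nat_lit 7936) (nat_lit 89) (.e (nat_lit 73753) (nat_lit 8) (.e (nat_lit 557100) (nat_lit 13) (.e (nat_lit 172061) (nat_lit 1) .nil)))) .nil))) (.nd (nat_lit 6) 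
(.lf (nat_lit 35385) (.g (nat_lit 1706) (.e (nat_lit 7936) (nat_lit 89) (.e (nat_lit 73746) (nat_lit 3) (.e (nat_lit 516150) (nat_lit 9) (.e (nat_lit 426294) (nat_lit 11) (.e (nat_lit 466688) (nat_lit 21) .nil))))) .nil)) 
(.lf (nat_lit 35449) (.g (nat_lit 310) (.e (nat_lit 7936) (nat_lit 89) (.e (nat_lit 73781) (nat_lit 32) (.e (nat_lit 2856) (nat_lit 184) .nil))) .nil)))))) (.nd (nat_lit 3) (.nd (nat_lit 4) (.nd (nat_lit 5) (.nd (nat_lit 6) 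
(.lf (nat_lit 35333) (.g (nat_lit 2995) (.e (nat_lit 1214) (nat_lit 89) (.e (nat_lit 73781) (nat_lit 32) (.e (nat_lit 2857) (nat_lit 184) (.e (nat_lit 426542) (nat_lit 29) (.e (nat_lit 352318) (nat_lit 24) (.e (nat_lit 123184) (nat_lit 264) .nil)))))) (.g (nat_lit 6) .nil .nil))) 
(.lf (nat_lit 35397) (.g (nat_lit 356) (.e (nat_lit 7936) (nat_lit 89) (.e (nat_lit 73746) (nat_lit 3) (.e (nat_lit 516176) (nat_lit 14) .nil))) .nil))) (.nd (nat_lit 6) 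
(.lf (nat_lit 35365) (.g (nat_lit 1141) (.e (nat_lit 1214) (nat_lit 89) (.e (nat_lit 81664) (nat_lit 36) (.e (nat_lit 172150) (nat_lit 27) (.e (nat_lit 336070) (nat_lit 8) (.e (nat_lit 327692) (nat_lit 1) (.e (nat_lit 8432) (nat_lit 138) .nil)))))) (.g (nat_lit 4) .nil .nil))) 
(.lf (nat_lit 35429) (.g (nat_lit 1338) (.e (nat_lit 7936) (nat_lit 89) (.e (nat_lit 73754) (nat_lit 8) (.e (nat_lit 557100) (nat_lit 13) (.e (nat_lit 172061) (nat_lit 1) .nil)))) .nil)))) (.nd (nat_lit 5) (.nd (nat_lit 6) 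
(.lf (nat_lit 35349) (.g (nat_lit 332) (.e (nat_lit 1214) (nat_lit 89) (.e (nat_lit 73781) (nat_lit 32) (.e (nat_lit 3090) (nat_lit 191) .nil))) .nil)) 
(.lf (nat_lit 35413) (.g (nat_lit 2171) (.e (nat_lit 7936) (nat_lit 89) (.e (nat_lit 73753) (nat_lit 8) (.e (nat_lit 557098) (nat_lit 13) (.e (nat_lit 172061) (nat_lit 1) (.e (nat_lit 164332) (nat_lit 230) .nil))))) .nil))) (.nd (nat_lit 6) 
(.lf (nat_lit 35381) (.g (nat_lit 1166) (.e (nat_lit 7936) (nat_lit 89) (.e (nat_lit 73746) (nat_lit 3) (.e (nat_lit 516129) (nat_lit 3) (.e (nat_lit 221206) (nat_lit 21) .nil)))) .nil)) 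
(.lf (nat_lit 35445) (.g (nat_lit 2129) (.e (nat_lit 7936) (nat_lit 89) (.e (nat_lit 73755) (nat_lit 8) (.e (nat_lit 557104) (nat_lit 14) (.e (nat_lit 180229) (nat_lit 0) (.e (nat_lit 5224) (nat_lit 296) .nil))))) .nil))))) (.nd (nat_lit 4) (.nd (nat_lit 5) (.nd (nat_lit 6) 
(.lf (nat_lit 35341) (.g (nat_lit 1619) (.e (nat_lit 1214) (nat_lit 89) (.e (nat_lit 73781) (nat_lit 32) (.e (nat_lit 3088) (nat_lit 191) (.e (nat_lit 483393) (nat_lit 23) (.e (nat_lit 336033) (nat_lit 4) .nil))))) .nil)) 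
(.lf (nat_lit 35405) (.g (nat_lit 1677) (.e (nat_lit 7936) (nat_lit 89) (.e (nat_lit 73747) (nat_lit 3) (.e (nat_lit 516146) (nat_lit 9) (.e (nat_lit 426294) (nat_lit 11) .nil)))) .nil))) (.nd (nat_lit 6) 
(.lf (nat_lit 35373) (.g (nat_lit 1472) (.e (nat_lit 1214) (nat_lit 89) (.e (nat_lit 73792) (nat_lit 45) (.e (nat_lit 1343) (nat_lit 101) (.e (nat_lit 278532) (nat_lit 0) (.e (nat_lit 5779) (nat_lit 317) (.e (nat_lit 188160) (nat_lit 0) (.e (nat_lit 5057) (nat_lit 292) .nil))))))) (.g (nat_lit 5) .nil .nil))) 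
(.lf (nat_lit 35437) (.g (nat_lit 1585) (.e (nat_lit 7936) (nat_lit 89) (.e (nat_lit 73754) (nat_lit 8) (.e (nat_lit 557105) (nat_lit 14) (.e (nat_lit 180264) (nat_lit 21) .nil)))) .nil)))) (.nd (nat_lit 5) (.nd (nat_lit 6) 
(.lf (nat_lit 35357) (.g (nat_lit 1286) (.e (nat_lit 1214) (nat_lit 89) (.e (nat_lit 73781) (nat_lit 32) (.e (nat_lit 3090) (nat_lit 191) (.e (nat_lit 483375) (nat_lit 22) .nil)))) .nil)) 
(.lf (nat_lit 35421) (.g (nat_lit 1927) (.e (nat_lit 7936) (nat_lit 89) (.e (nat_lit 73753) (nat_lit 8) (.e (nat_lit 557103) (nat_lit 14) (.e (nat_lit 180228) (nat_lit 0) .nil)))) .nil))) (.nd (nat_lit 6) 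
(.lf (nat_lit 35389) (.g (nat_lit 949) (.e (nat_lit 7936) (nat_lit 89) (.e (nat_lit 73746) (nat_lit 3) (.e (nat_lit 516165) (nat_lit 12) (.e (nat_lit 450579) (nat_lit 5) .nil)))) .nil)) 
(.lf (nat_lit 35453) (.g (nat_lit 830) (.e (nat_lit 7936) (nat_lit 89) (.e (nat_lit 73781) (nat_lit 32) (.e (nat_lit 2857) (nat_lit 184) (.e (nat_lit 426546) (nat_lit 30) .nil)))) .nil))))))) (.nd (nat_lit 2) (.nd (nat_lit 3) (.nd (nat_lit 4) (.nd (nat_lit 5) (.nd (nat_lit 6) 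
(.lf (nat_lit 35331) (.g (nat_lit 1952) (.e (nat_lit 1214) (nat_lit 89) (.e (nat_lit 73781) (nat_lit 32) (.e (nat_lit 2857) (nat_lit 184) (.e (nat_lit 426542) (nat_lit 29) (.e (nat_lit 352316) (nat_lit 24) (.e (nat_lit 123183) (nat_lit 264) .nil)))))) (.g (nat_lit 4) .nil .nil))) 
(.lf (nat_lit 35395) (.g (nat_lit 1069) (.e (nat_lit 7936) (nat_lit 89) (.e (nat_lit 73746) (nat_lit 3) (.e (nat_lit 516174) (nat_lit 14) (.e (nat_lit 474880) (nat_lit 3) .nil)))) .nil))) (.nd (nat_lit 6) 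
(.lf (nat_lit 35363) (.g (nat_lit 1869) (.e (nat_lit 1214) (nat_lit 89) (.e (nat_lit 73781) (nat_lit 32) (.e (nat_lit 3090) (nat_lit 191) (.e (nat_lit 483394) (nat_lit 24) (.e (nat_lit 344104) (nat_lit 18) (.e (nat_lit 5818) (nat_lit 320) .nil)))))) (.g (nat_lit 4) .nil .nil))) 
(.lf (nat_lit 35427) (.g (nat_lit 2333) (.e (nat_lit 7936) (nat_lit 89) (.e (nat_lit 73754) (nat_lit 8) (.e (nat_lit 557100) (nat_lit 13) (.e (nat_lit 172059) (nat_lit 1) (.e (nat_lit 164327) (nat_lit 230) .nil))))) .nil)))) (.nd (nat_lit 5) (.nd (nat_lit 6) 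
(.lf (nat_lit 35347) (.g (nat_lit 1696) (.e (nat_lit 1214) (nat_lit 89) (.e (nat_lit 73781) (nat_lit 32) (.e (nat_lit 3089) (nat_lit 191) (.e (nat_lit 483394) (nat_lit 24) (.e (nat_lit 344104) (nat_lit 18) (.e (nat_lit 5818) (nat_lit 320) .nil)))))) (.g (nat_lit 5) .nil .nil))) 
(.lf (nat_lit 35411) (.g (nat_lit 1668) (.e (nat_lit 7936) (nat_lit 89) (.e (nat_lit 73753) (nat_lit 8) (.e (nat_lit 557098) (nat_lit 13) (.e (nat_lit 172061) (nat_lit 1) .nil)))) .nil))) (.nd (nat_lit 6) 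
(.lf (nat_lit 35379) (.g (nat_lit 2879) (.e (nat_lit 1214) (nat_lit 89) (.e (nat_lit 73792) (nat_lit 45) (.e (nat_lit 1386) (nat_lit 105) (.e (nat_lit 311358) (nat_lit 29) (.e (nat_lit 352318) (nat_lit 24) (.e (nat_lit 123182) (nat_lit 264) .nil)))))) (.g (nat_lit 6) .nil .nil))) 
(.lf (nat_lit 35443) (.g (nat_lit 1691) (.e (nat_lit 7936) (nat_lit 89) (.e (nat_lit 73755) (nat_lit 8) (.e (nat_lit 557098) (nat_lit 13) (.e (nat_lit 172061) (nat_lit 1) .nil)))) .nil))))) (.nd (nat_lit 4) (.nd (nat_lit 5) (.nd (nat_lit 6) 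
(.lf (nat_lit 35339) (.g (nat_lit 1061) (.e (nat_lit 1214) (nat_lit 89) (.e (nat_lit 73781) (nat_lit 32) (.e (nat_lit 3088) (nat_lit 191) (.e (nat_lit 483377) (nat_lit 22) .nil)))) .nil)) 
(.lf (nat_lit 35403) (.g (nat_lit 1423) (.e (nat_lit 7936) (nat_lit 89) (.e (nat_lit 73746) (nat_lit 3) (.e (nat_lit 516176) (nat_lit 14) (.e (nat_lit 466977) (nat_lit 22) (.e (nat_lit 196651) (nat_lit 10) .nil))))) .nil))) (.nd (nat_lit 6) 
(.lf (nat_lit 35371) (.g (nat_lit 1482) (.e (nat_lit 1214) (nat_lit 89) (.e (nat_lit 73792) (nat_lit 45) (.e (nat_lit 1342) (nat_lit 101) (.e (nat_lit 278529) (nat_lit 0) (.e (nat_lit 5779) (nat_lit 317) (.e (nat_lit 188160) (nat_lit 0) (.e (nat_lit 5057) (nat_lit 292) .nil))))))) (.g (nat_lit 4) .nil .nil))) 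
(.lf (nat_lit 35435) (.g (nat_lit 1647) (.e (nat_lit 7936) (nat_lit 89) (.e (nat_lit 73754) (nat_lit 8) (.e (nat_lit 557101) (nat_lit 13) (.e (nat_lit 172061) (nat_lit 1) (.e (nat_lit 164326) (nat_lit 230) .nil))))) .nil)))) (.nd (nat_lit 5) (.nd (nat_lit 6) 
(.lf (nat_lit 35355) (.g (nat_lit 1760) (.e (nat_lit 1214) (nat_lit 89) (.e (nat_lit 73781) (nat_lit 32) (.e (nat_lit 3090) (nat_lit 191) (.e (nat_lit 483372) (nat_lit 21) (.e (nat_lit 327424) (nat_lit 1) .nil))))) .nil)) 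
(.lf (nat_lit 35419) (.g (nat_lit 1273) (.e (nat_lit 7936) (nat_lit 89) (.e (nat_lit 73753) (nat_lit 8) (.e (nat_lit 557101) (nat_lit 13) (.e (nat_lit 172061) (nat_lit 1) .nil)))) .nil))) (.nd (nat_lit 6) 
(.lf (nat_lit 35387) (.g (nat_lit 3887) (.e (nat_lit 7936) (nat_lit 89) (.e (nat_lit 73746) (nat_lit 3) (.e (nat_lit 516151) (nat_lit 9) (.e (nat_lit 426211) (nat_lit 9) (.e (nat_lit 426125) (nat_lit 2) .nil))))) .nil)) 
(.lf (nat_lit 35451) (.g (nat_lit 1915) (.e (nat_lit 7936) (nat_lit 89) (.e (nat_lit 73781) (nat_lit 32) (.e (nat_lit 2856) (nat_lit 184) (.e (nat_lit 426546) (nat_lit 30) (.e (nat_lit 360455) (nat_lit 0) .nil))))) .nil)))))) (.nd (nat_lit 3) (.nd (nat_lit 4) (.nd (nat_lit 5) (.nd (nat_lit 6) 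
(.lf (nat_lit 35335) (.g (nat_lit 1615) (.e (nat_lit 1214) (nat_lit 89) (.e (nat_lit 73781) (nat_lit 32) (.e (nat_lit 2857) (nat_lit 184) (.e (nat_lit 426544) (nat_lit 30) (.e (nat_lit 360456) (nat_lit 0) (.e (nat_lit 5818) (nat_lit 320) .nil)))))) (.g (nat_lit 4) .nil .nil))) 
(.lf (nat_lit 35399) (.g (nat_lit 1059) (.e (nat_lit 7936) (nat_lit 89) (.e (nat_lit 73746) (nat_lit 3) (.e (nat_lit 516176) (nat_lit 14) (.e (nat_lit 474880) (nat_lit 3) .nil)))) .nil))) (.nd (nat_lit 6) 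
(.lf (nat_lit 35367) (.g (nat_lit 1495) (.e (nat_lit 1214) (nat_lit 89) (.e (nat_lit 73791) (nat_lit 45) (.e (nat_lit 1385) (nat_lit 105) (.e (nat_lit 311358) (nat_lit 29) (.e (nat_lit 352316) (nat_lit 24) (.e (nat_lit 123185) (nat_lit 264) .nil)))))) (.g (nat_lit 0) .nil .nil))) 
(.lf (nat_lit 35431) (.g (nat_lit 1741) (.e (nat_lit 7936) (nat_lit 89) (.e (nat_lit 73754) (nat_lit 8) (.e (nat_lit 557100) (nat_lit 13) (.e (nat_lit 172061) (nat_lit 1) (.e (nat_lit 164332) (nat_lit 230) .nil))))) .nil)))) (.nd (nat_lit 5) (.nd (nat_lit 6) 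
(.lf (nat_lit 35351) (.g (nat_lit 1771) (.e (nat_lit 1214) (nat_lit 89) (.e (nat_lit 73781) (nat_lit 32) (.e (nat_lit 3090) (nat_lit 191) (.e (nat_lit 483350) (nat_lit 17) (.e (nat_lit 6113) (nat_lit 332) .nil))))) .nil)) 
(.lf (nat_lit 35415) (.g (nat_lit 2417) (.e (nat_lit 7936) (nat_lit 89) (.e (nat_lit 73753) (nat_lit 8) (.e (nat_lit 557100) (nat_lit 13) (.e (nat_lit 172059) (nat_lit 1) (.e (nat_lit 164327) (nat_lit 230) .nil))))) .nil))) (.nd (nat_lit 6) 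
(.lf (nat_lit 35383) (.g (nat_lit 2024) (.e (nat_lit 7936) (nat_lit 89) (.e (nat_lit 73746) (nat_lit 3) (.e (nat_lit 516146) (nat_lit 9) (.e (nat_lit 426320) (nat_lit 12) (.e (nat_lit 475179) (nat_lit 24) .nil))))) .nil)) 
(.lf (nat_lit 35447) (.g (nat_lit 1858) (.e (nat_lit 7936) (nat_lit 89) (.e (nat_lit 73781) (nat_lit 32) (.e (nat_lit 2681) (nat_lit 168) (.e (nat_lit 204869) (nat_lit 29) (.e (nat_lit 360451) (nat_lit 0) .nil))))) .nil))))) (.nd (nat_lit 4) (.nd (nat_lit 5) (.nd (nat_lit 6) 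
(.lf (nat_lit 35343) (.g (nat_lit 993) (.e (nat_lit 1214) (nat_lit 89) (.e (nat_lit 73781) (nat_lit 32) (.e (nat_lit 3089) (nat_lit 191) (.e (nat_lit 483386) (nat_lit 23) .nil)))) .nil)) 
(.lf (nat_lit 35407) (.g (nat_lit 1603) (.e (nat_lit 7936) (nat_lit 89) (.e (nat_lit 73747) (nat_lit 3) (.e (nat_lit 516166) (nat_lit 12) (.e (nat_lit 458496) (nat_lit 3) .nil)))) .nil))) (.nd (nat_lit 6) 
(.lf (nat_lit 35375) (.g (nat_lit 2143) (.e (nat_lit 1214) (nat_lit 89) (.e (nat_lit 73792) (nat_lit 45) (.e (nat_lit 1385) (nat_lit 105) (.e (nat_lit 311358) (nat_lit 29) (.e (nat_lit 352316) (nat_lit 24) (.e (nat_lit 123184) (nat_lit 264) .nil)))))) (.g (nat_lit 0) .nil .nil))) 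
(.lf (nat_lit 35439) (.g (nat_lit 1377) (.e (nat_lit 7936) (nat_lit 89) (.e (nat_lit 73755) (nat_lit 8) (.e (nat_lit 557091) (nat_lit 12) (.e (nat_lit 164238) (nat_lit 187) (.e (nat_lit 1660) (nat_lit 115) .nil))))) .nil)))) (.nd (nat_lit 5) (.nd (nat_lit 6) 
(.lf (nat_lit 35359) (.g (nat_lit 1315) (.e (nat_lit 1214) (nat_lit 89) (.e (nat_lit 73781) (nat_lit 32) (.e (nat_lit 3090) (nat_lit 191) (.e (nat_lit 483386) (nat_lit 23) .nil)))) .nil)) 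
(.lf (nat_lit 35423) (.g (nat_lit 2118) (.e (nat_lit 7936) (nat_lit 89) (.e (nat_lit 73753) (nat_lit 8) (.e (nat_lit 557103) (nat_lit 14) (.e (nat_lit 180229) (nat_lit 0) (.e (nat_lit 5224) (nat_lit 296) .nil))))) .nil))) (.nd (nat_lit 6) 
(.lf (nat_lit 35391) (.g (nat_lit 1122) (.e (nat_lit 7936) (nat_lit 89) (.e (nat_lit 73746) (nat_lit 3) (.e (nat_lit 516167) (nat_lit 12) (.e (nat_lit 458496) (nat_lit 3) .nil)))) .nil)) 
(.lf (nat_lit 35455) (.g (nat_lit 1059) (.e (nat_lit 7936) (nat_lit 89) (.e (nat_lit 73781) (nat_lit 32) (.e (nat_lit 3090) (nat_lit 191) (.e (nat_lit 483394) (nat_lit 24) .nil)))) .nil)))))))))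

noncomputable def tv495 : DT := (.nd (nat_lit 0) (.nd (nat_lit 1) (.nd (nat_lit 2) (.nd (nat_lit 3) (.nd (nat_lit 4) (.nd (nat_lit 5) (.nd (nat_lit 6) 
(.lf (nat_lit 35456) (.g (nat_lit 1099) (.e (nat_lit 7936) (nat_lit 89) (.e (nat_lit 73781) (nat_lit 32) (.e (nat_lit 3090) (nat_lit 191) (.e (nat_lit 483395) (nat_lit 24) .nil)))) .nil)) 
(.lf (nat_lit 35520) (.g (nat_lit 1254) (.e (nat_lit 1215) (nat_lit 90) (.e (nat_lit 81950) (nat_lit 21) (.e (nat_lit 57666) (nat_lit 152) (.e (nat_lit 1078) (nat_lit 81) .nil)))) .nil))) (.nd (nat_lit 6) 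
(.lf (nat_lit 35488) (.g (nat_lit 1036) (.e (nat_lit 1215) (nat_lit 90) (.e (nat_lit 81928) (nat_lit 20) (.e (nat_lit 2270) (nat_lit 149) (.e (nat_lit 761868) (nat_lit 5) (.e (nat_lit 1585) (nat_lit 111) (.e (nat_lit 368384) (nat_lit 0) (.e (nat_lit 7160) (nat_lit 382) .nil))))))) (.g (nat_lit 5) .nil .nil))) 
(.lf (nat_lit 35552) (.g (nat_lit 3642) (.e (nat_lit 1215) (nat_lit 90) (.e (nat_lit 81956) (nat_lit 23) (.e (nat_lit 98388) (nat_lit 33) (.e (nat_lit 491566) (nat_lit 12) (.e (nat_lit 385043) (nat_lit 21) (.e (nat_lit 4181) (nat_lit 251) .nil)))))) (.g (nat_lit 4) .nil .nil))))) (.nd (nat_lit 5) (.nd (nat_lit 6) 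
(.lf (nat_lit 35472) (.g (nat_lit 785) (.e (nat_lit 7936) (nat_lit 89) (.e (nat_lit 73792) (nat_lit 45) (.e (nat_lit 1386) (nat_lit 105) (.e (nat_lit 319232) (nat_lit 30) .nil)))) .nil)) 
(.lf (nat_lit 35536) (.g (nat_lit 1585) (.e (nat_lit 1215) (nat_lit 90) (.e (nat_lit 81956) (nat_lit 23) (.e (nat_lit 98319) (nat_lit 17) (.e (nat_lit 7593) (nat_lit 407) .nil)))) .nil))) (.nd (nat_lit 6) 
(.lf (nat_lit 35504) (.g (nat_lit 1358) (.e (nat_lit 1215) (nat_lit 90) (.e (nat_lit 81946) (nat_lit 20) (.e (nat_lit 2281) (nat_lit 150) (.e (nat_lit 770057) (nat_lit 5) (.e (nat_lit 1589) (nat_lit 111) .nil))))) .nil)) 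
(.lf (nat_lit 35568) (.g (nat_lit 3743) (.e (nat_lit 1215) (nat_lit 90) (.e (nat_lit 81956) (nat_lit 23) (.e (nat_lit 98389) (nat_lit 33) (.e (nat_lit 491560) (nat_lit 10) (.e (nat_lit 344094) (nat_lit 18) (.e (nat_lit 3928) (nat_lit 239) .nil)))))) (.g (nat_lit 6) .nil .nil)))))) (.nd (nat_lit 4) (.nd (nat_lit 5) (.nd (nat_lit 6) 
(.lf (nat_lit 35464) (.g (nat_lit 377) (.e (nat_lit 7936) (nat_lit 89) (.e (nat_lit 73782) (nat_lit 32) (.e (nat_lit 3090) (nat_lit 191) .nil))) .nil)) 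
(.lf (nat_lit 35528) (.g (nat_lit 2649) (.e (nat_lit 1215) (nat_lit 90) (.e (nat_lit 81950) (nat_lit 21) (.e (nat_lit 57684) (nat_lit 155) (.e (nat_lit 122916) (nat_lit 14) (.e (nat_lit 352309) (nat_lit 21) (.e (nat_lit 57660) (nat_lit 152) .nil)))))) (.g (nat_lit 5) .nil .nil)))) (.nd (nat_lit 6) 
(.lf (nat_lit 35496) (.g (nat_lit 300) (.e (nat_lit 1215) (nat_lit 90) (.e (nat_lit 81943) (nat_lit 20) (.e (nat_lit 2280) (nat_lit 150) .nil))) .nil)) 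
(.lf (nat_lit 35560) (.g (nat_lit 3678) (.e (nat_lit 1215) (nat_lit 90) (.e (nat_lit 81956) (nat_lit 23) (.e (nat_lit 98389) (nat_lit 33) (.e (nat_lit 491558) (nat_lit 10) (.e (nat_lit 344091) (nat_lit 18) (.e (nat_lit 3928) (nat_lit 239) .nil)))))) (.g (nat_lit 5) .nil .nil))))) (.nd (nat_lit 5) (.nd (nat_lit 6) 
(.lf (nat_lit 35480) (.g (nat_lit 1915) (.e (nat_lit 1215) (nat_lit 90) (.e (nat_lit 81927) (nat_lit 11) (.e (nat_lit 426011) (nat_lit 0) (.e (nat_lit 7591) (nat_lit 407) (.e (nat_lit 81664) (nat_lit 0) .nil))))) .nil)) 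
(.lf (nat_lit 35544) (.g (nat_lit 3636) (.e (nat_lit 1215) (nat_lit 90) (.e (nat_lit 81956) (nat_lit 23) (.e (nat_lit 98384) (nat_lit 32) (.e (nat_lit 475214) (nat_lit 42) (.e (nat_lit 720929) (nat_lit 21) .nil))))) .nil))) (.nd (nat_lit 6) 
(.lf (nat_lit 35512) (.g (nat_lit 1637) (.e (nat_lit 1215) (nat_lit 90) (.e (nat_lit 81948) (nat_lit 21) (.e (nat_lit 57681) (nat_lit 155) (.e (nat_lit 122917) (nat_lit 15) .nil)))) .nil)) 
(.lf (nat_lit 35576) (.g (nat_lit 4398) (.e (nat_lit 1215) (nat_lit 90) (.e (nat_lit 81956) (nat_lit 23) (.e (nat_lit 98389) (nat_lit 33) (.e (nat_lit 491563) (nat_lit 12) (.e (nat_lit 385044) (nat_lit 21) .nil))))) .nil)))))) (.nd (nat_lit 3) (.nd (nat_lit 4) (.nd (nat_lit 5) (.nd (nat_lit 6) 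
(.lf (nat_lit 35460) (.g (nat_lit 1954) (.e (nat_lit 7936) (nat_lit 89) (.e (nat_lit 73782) (nat_lit 32) (.e (nat_lit 2856) (nat_lit 184) (.e (nat_lit 426544) (nat_lit 30) (.e (nat_lit 360455) (nat_lit 0) .nil))))) .nil)) 
(.lf (nat_lit 35524) (.g (nat_lit 2215) (.e (nat_lit 1215) (nat_lit 90) (.e (nat_lit 81950) (nat_lit 21) (.e (nat_lit 57681) (nat_lit 155) (.e (nat_lit 122918) (nat_lit 15) .nil)))) .nil))) (.nd (nat_lit 6) 
(.lf (nat_lit 35492) (.g (nat_lit 528) (.e (nat_lit 1215) (nat_lit 90) (.e (nat_lit 81938) (nat_lit 20) (.e (nat_lit 2281) (nat_lit 150) .nil))) .nil)) 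
(.lf (nat_lit 35556) (.g (nat_lit 3376) (.e (nat_lit 1215) (nat_lit 90) (.e (nat_lit 81956) (nat_lit 23) (.e (nat_lit 98388) (nat_lit 33) (.e (nat_lit 491566) (nat_lit 12) (.e (nat_lit 385046) (nat_lit 21) (.e (nat_lit 4181) (nat_lit 251) .nil)))))) (.g (nat_lit 4) .nil .nil))))) (.nd (nat_lit 5) (.nd (nat_lit 6) 
(.lf (nat_lit 35476) (.g (nat_lit 2492) (.e (nat_lit 1215) (nat_lit 90) (.e (nat_lit 81925) (nat_lit 11) (.e (nat_lit 426343) (nat_lit 14) (.e (nat_lit 491558) (nat_lit 10) (.e (nat_lit 352000) (nat_lit 18) .nil))))) .nil)) 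
(.lf (nat_lit 35540) (.g (nat_lit 4463) (.e (nat_lit 1215) (nat_lit 90) (.e (nat_lit 81956) (nat_lit 23) (.e (nat_lit 98320) (nat_lit 17) (.e (nat_lit 7593) (nat_lit 407) (.e (nat_lit 73729) (nat_lit 0) (.e (nat_lit 3928) (nat_lit 239) .nil)))))) (.g (nat_lit 6) .nil .nil)))) (.nd (nat_lit 6) 
(.lf (nat_lit 35508) (.g (nat_lit 1419) (.e (nat_lit 1215) (nat_lit 90) (.e (nat_lit 81946) (nat_lit 20) (.e (nat_lit 2281) (nat_lit 150) (.e (nat_lit 770058) (nat_lit 5) (.e (nat_lit 1589) (nat_lit 111) .nil))))) .nil)) 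
(.lf (nat_lit 35572) (.g (nat_lit 4012) (.e (nat_lit 1215) (nat_lit 90) (.e (nat_lit 81956) (nat_lit 23) (.e (nat_lit 98389) (nat_lit 33) (.e (nat_lit 491562) (nat_lit 12) (.e (nat_lit 385047) (nat_lit 21) (.e (nat_lit 4171) (nat_lit 251) .nil)))))) (.g (nat_lit 4) .nil .nil)))))) (.nd (nat_lit 4) (.nd (nat_lit 5) (.nd (nat_lit 6) 
(.lf (nat_lit 35468) (.g (nat_lit 606) (.e (nat_lit 7936) (nat_lit 89) (.e (nat_lit 73789) (nat_lit 45) (.e (nat_lit 1385) (nat_lit 105) (.e (nat_lit 319232) (nat_lit 30) .nil)))) .nil)) 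
(.lf (nat_lit 35532) (.g (nat_lit 3692) (.e (nat_lit 1215) (nat_lit 90) (.e (nat_lit 81951) (nat_lit 22) (.e (nat_lit 90134) (nat_lit 9) (.e (nat_lit 3098) (nat_lit 192) (.e (nat_lit 491566) (nat_lit 12) (.e (nat_lit 385046) (nat_lit 21) (.e (nat_lit 4181) (nat_lit 251) .nil))))))) (.g (nat_lit 5) .nil .nil)))) (.nd (nat_lit 6) 
(.lf (nat_lit 35500) (.g (nat_lit 1499) (.e (nat_lit 1215) (nat_lit 90) (.e (nat_lit 81946) (nat_lit 20) (.e (nat_lit 2270) (nat_lit 149) (.e (nat_lit 761868) (nat_lit 5) (.e (nat_lit 1582) (nat_lit 111) .nil))))) .nil)) 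
(.lf (nat_lit 35564) (.g (nat_lit 2929) (.e (nat_lit 1215) (nat_lit 90) (.e (nat_lit 81956) (nat_lit 23) (.e (nat_lit 98389) (nat_lit 33) (.e (nat_lit 491560) (nat_lit 10) (.e (nat_lit 344088) (nat_lit 18) (.e (nat_lit 3929) (nat_lit 239) .nil)))))) (.g (nat_lit 4) .nil .nil))))) (.nd (nat_lit 5) (.nd (nat_lit 6) 
(.lf (nat_lit 35484) (.g (nat_lit 2549) (.e (nat_lit 1215) (nat_lit 90) (.e (nat_lit 81927) (nat_lit 11) (.e (nat_lit 426343) (nat_lit 14) (.e (nat_lit 491558) (nat_lit 10) (.e (nat_lit 352000) (nat_lit 18) .nil))))) .nil)) 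
(.lf (nat_lit 35548) (.g (nat_lit 2757) (.e (nat_lit 1215) (nat_lit 90) (.e (nat_lit 81956) (nat_lit 23) (.e (nat_lit 98387) (nat_lit 33) (.e (nat_lit 491566) (nat_lit 12) (.e (nat_lit 385043) (nat_lit 21) .nil))))) .nil))) (.nd (nat_lit 6) 
(.lf (nat_lit 35516) (.g (nat_lit 1270) (.e (nat_lit 1215) (nat_lit 90) (.e (nat_lit 81948) (nat_lit 21) (.e (nat_lit 57684) (nat_lit 155) (.e (nat_lit 122919) (nat_lit 15) (.e (nat_lit 368384) (nat_lit 0) .nil))))) .nil)) 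
(.lf (nat_lit 35580) (.g (nat_lit 4139) (.e (nat_lit 1215) (nat_lit 90) (.e (nat_lit 81956) (nat_lit 23) (.e (nat_lit 98389) (nat_lit 33) (.e (nat_lit 491563) (nat_lit 12) (.e (nat_lit 385047) (nat_lit 21) .nil))))) .nil))))))) (.nd (nat_lit 2) (.nd (nat_lit 3) (.nd (nat_lit 4) (.nd (nat_lit 5) (.nd (nat_lit 6) 
(.lf (nat_lit 35458) (.g (nat_lit 1850) (.e (nat_lit 7936) (nat_lit 89) (.e (nat_lit 73782) (nat_lit 32) (.e (nat_lit 2681) (nat_lit 168) (.e (nat_lit 204869) (nat_lit 29) (.e (nat_lit 360451) (nat_lit 0) .nil))))) .nil)) 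
(.lf (nat_lit 35522) (.g (nat_lit 2107) (.e (nat_lit 1215) (nat_lit 90) (.e (nat_lit 81950) (nat_lit 21) (.e (nat_lit 57681) (nat_lit 155) (.e (nat_lit 122916) (nat_lit 14) .nil)))) .nil))) (.nd (nat_lit 6) 
(.lf (nat_lit 35490) (.g (nat_lit 598) (.e (nat_lit 1215) (nat_lit 90) (.e (nat_lit 81935) (nat_lit 20) (.e (nat_lit 2370) (nat_lit 154) .nil))) .nil)) 
(.lf (nat_lit 35554) (.g (nat_lit 3445) (.e (nat_lit 1215) (nat_lit 90) (.e (nat_lit 81956) (nat_lit 23) (.e (nat_lit 98388) (nat_lit 33) (.e (nat_lit 491566) (nat_lit 12) (.e (nat_lit 385045) (nat_lit 21) (.e (nat_lit 4173) (nat_lit 251) .nil)))))) (.g (nat_lit 4) .nil .nil))))) (.nd (nat_lit 5) (.nd (nat_lit 6) 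
(.lf (nat_lit 35474) (.g (nat_lit 1954) (.e (nat_lit 1215) (nat_lit 90) (.e (nat_lit 81925) (nat_lit 11) (.e (nat_lit 426011) (nat_lit 0) (.e (nat_lit 7593) (nat_lit 407) (.e (nat_lit 81664) (nat_lit 0) .nil))))) .nil)) 
(.lf (nat_lit 35538) (.g (nat_lit 4389) (.e (nat_lit 1215) (nat_lit 90) (.e (nat_lit 81956) (nat_lit 23) (.e (nat_lit 98320) (nat_lit 17) (.e (nat_lit 7591) (nat_lit 407) (.e (nat_lit 73729) (nat_lit 0) (.e (nat_lit 3928) (nat_lit 239) .nil)))))) (.g (nat_lit 6) .nil .nil)))) (.nd (nat_lit 6) 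
(.lf (nat_lit 35506) (.g (nat_lit 1053) (.e (nat_lit 1215) (nat_lit 90) (.e (nat_lit 81946) (nat_lit 20) (.e (nat_lit 2281) (nat_lit 150) (.e (nat_lit 770058) (nat_lit 5) .nil)))) .nil)) 
(.lf (nat_lit 35570) (.g (nat_lit 4402) (.e (nat_lit 1215) (nat_lit 90) (.e (nat_lit 81956) (nat_lit 23) (.e (nat_lit 98389) (nat_lit 33) (.e (nat_lit 491560) (nat_lit 10) (.e (nat_lit 344096) (nat_lit 18) (.e (nat_lit 3928) (nat_lit 239) .nil)))))) (.g (nat_lit 6) .nil .nil)))))) (.nd (nat_lit 4) (.nd (nat_lit 5) (.nd (nat_lit 6) 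
(.lf (nat_lit 35466) (.g (nat_lit 1018) (.e (nat_lit 7936) (nat_lit 89) (.e (nat_lit 73782) (nat_lit 32) (.e (nat_lit 3090) (nat_lit 191) (.e (nat_lit 483395) (nat_lit 24) .nil)))) .nil)) 
(.lf (nat_lit 35530) (.g (nat_lit 1524) (.e (nat_lit 1215) (nat_lit 90) (.e (nat_lit 81950) (nat_lit 21) (.e (nat_lit 57684) (nat_lit 155) (.e (nat_lit 122919) (nat_lit 15) (.e (nat_lit 368384) (nat_lit 0) .nil))))) .nil))) (.nd (nat_lit 6) 
(.lf (nat_lit 35498) (.g (nat_lit 1267) (.e (nat_lit 1215) (nat_lit 90) (.e (nat_lit 81946) (nat_lit 20) (.e (nat_lit 2270) (nat_lit 149) (.e (nat_lit 761867) (nat_lit 5) .nil)))) .nil)) 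
(.lf (nat_lit 35562) (.g (nat_lit 3645) (.e (nat_lit 1215) (nat_lit 90) (.e (nat_lit 81956) (nat_lit 23) (.e (nat_lit 98389) (nat_lit 33) (.e (nat_lit 491560) (nat_lit 10) (.e (nat_lit 344088) (nat_lit 18) (.e (nat_lit 3920) (nat_lit 239) .nil)))))) (.g (nat_lit 5) .nil .nil))))) (.nd (nat_lit 5) (.nd (nat_lit 6) 
(.lf (nat_lit 35482) (.g (nat_lit 187) (.e (nat_lit 1215) (nat_lit 90) (.e (nat_lit 81927) (nat_lit 11) (.e (nat_lit 426341) (nat_lit 14) .nil))) .nil)) 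
(.lf (nat_lit 35546) (.g (nat_lit 3532) (.e (nat_lit 1215) (nat_lit 90) (.e (nat_lit 81956) (nat_lit 23) (.e (nat_lit 98384) (nat_lit 32) (.e (nat_lit 475214) (nat_lit 42) (.e (nat_lit 720930) (nat_lit 21) .nil))))) .nil))) (.nd (nat_lit 6) 
(.lf (nat_lit 35514) (.g (nat_lit 2752) (.e (nat_lit 1215) (nat_lit 90) (.e (nat_lit 81948) (nat_lit 21) (.e (nat_lit 57683) (nat_lit 155) (.e (nat_lit 122916) (nat_lit 14) (.e (nat_lit 352309) (nat_lit 21) (.e (nat_lit 57660) (nat_lit 152) .nil)))))) (.g (nat_lit 0) .nil .nil))) 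
(.lf (nat_lit 35578) (.g (nat_lit 4003) (.e (nat_lit 1215) (nat_lit 90) (.e (nat_lit 81956) (nat_lit 23) (.e (nat_lit 98389) (nat_lit 33) (.e (nat_lit 491563) (nat_lit 12) (.e (nat_lit 385045) (nat_lit 21) (.e (nat_lit 4181) (nat_lit 251) .nil)))))) (.g (nat_lit 4) .nil .nil))))))) (.nd (nat_lit 3) (.nd (nat_lit 4) (.nd (nat_lit 5) (.nd (nat_lit 6) 
(.lf (nat_lit 35462) (.g (nat_lit 1119) (.e (nat_lit 7936) (nat_lit 89) (.e (nat_lit 73782) (nat_lit 32) (.e (nat_lit 2856) (nat_lit 184) (.e (nat_lit 426555) (nat_lit 32) .nil)))) .nil)) 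
(.lf (nat_lit 35526) (.g (nat_lit 2829) (.e (nat_lit 1215) (nat_lit 90) (.e (nat_lit 81950) (nat_lit 21) (.e (nat_lit 57683) (nat_lit 155) (.e (nat_lit 122916) (nat_lit 14) (.e (nat_lit 352309) (nat_lit 21) (.e (nat_lit 57660) (nat_lit 152) .nil)))))) (.g (nat_lit 0) .nil .nil)))) (.nd (nat_lit 6) 
(.lf (nat_lit 35494) (.g (nat_lit 2385) (.e (nat_lit 1215) (nat_lit 90) (.e (nat_lit 81943) (nat_lit 20) (.e (nat_lit 1960) (nat_lit 134) (.e (nat_lit 638998) (nat_lit 8) (.e (nat_lit 172120) (nat_lit 12) (.e (nat_lit 475155) (nat_lit 21) (.e (nat_lit 6285) (nat_lit 337) .nil))))))) (.g (nat_lit 5) .nil .nil))) 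
(.lf (nat_lit 35558) (.g (nat_lit 2779) (.e (nat_lit 1215) (nat_lit 90) (.e (nat_lit 81956) (nat_lit 23) (.e (nat_lit 98389) (nat_lit 33) (.e (nat_lit 491552) (nat_lit 9) (.e (nat_lit 336282) (nat_lit 15) (.e (nat_lit 2445) (nat_lit 157) (.e (nat_lit 4181) (nat_lit 251) .nil))))))) (.g (nat_lit 4) .nil .nil))))) (.nd (nat_lit 5) (.nd (nat_lit 6) 
(.lf (nat_lit 35478) (.g (nat_lit 763) (.e (nat_lit 1215) (nat_lit 90) (.e (nat_lit 81925) (nat_lit 11) (.e (nat_lit 426344) (nat_lit 14) (.e (nat_lit 491560) (nat_lit 10) .nil)))) .nil)) 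
(.lf (nat_lit 35542) (.g (nat_lit 1087) (.e (nat_lit 1215) (nat_lit 90) (.e (nat_lit 81956) (nat_lit 23) (.e (nat_lit 98350) (nat_lit 24) .nil))) .nil))) (.nd (nat_lit 6) 
(.lf (nat_lit 35510) (.g (nat_lit 1486) (.e (nat_lit 1215) (nat_lit 90) (.e (nat_lit 81947) (nat_lit 20) (.e (nat_lit 2270) (nat_lit 149) (.e (nat_lit 761868) (nat_lit 5) .nil)))) .nil)) 
(.lf (nat_lit 35574) (.g (nat_lit 3411) (.e (nat_lit 1215) (nat_lit 90) (.e (nat_lit 81956) (nat_lit 23) (.e (nat_lit 98389) (nat_lit 33) (.e (nat_lit 491562) (nat_lit 12) (.e (nat_lit 385047) (nat_lit 21) (.e (nat_lit 4181) (nat_lit 251) .nil)))))) (.g (nat_lit 4) .nil .nil)))))) (.nd (nat_lit 4) (.nd (nat_lit 5) (.nd (nat_lit 6) 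
(.lf (nat_lit 35470) (.g (nat_lit 754) (.e (nat_lit 7936) (nat_lit 89) (.e (nat_lit 73792) (nat_lit 45) (.e (nat_lit 1385) (nat_lit 105) (.e (nat_lit 311358) (nat_lit 29) (.e (nat_lit 352296) (nat_lit 20) .nil))))) .nil)) 
(.lf (nat_lit 35534) (.g (nat_lit 3001) (.e (nat_lit 1215) (nat_lit 90) (.e (nat_lit 81954) (nat_lit 23) (.e (nat_lit 98384) (nat_lit 32) (.e (nat_lit 475214) (nat_lit 42) (.e (nat_lit 720930) (nat_lit 21) .nil))))) .nil))) (.nd (nat_lit 6) 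
(.lf (nat_lit 35502) (.g (nat_lit 1097) (.e (nat_lit 1215) (nat_lit 90) (.e (nat_lit 81946) (nat_lit 20) (.e (nat_lit 2281) (nat_lit 150) (.e (nat_lit 770056) (nat_lit 5) .nil)))) .nil)) 
(.lf (nat_lit 35566) (.g (nat_lit 4222) (.e (nat_lit 1215) (nat_lit 90) (.e (nat_lit 81956) (nat_lit 23) (.e (nat_lit 98389) (nat_lit 33) (.e (nat_lit 491560) (nat_lit 10) (.e (nat_lit 344090) (nat_lit 18) (.e (nat_lit 3928) (nat_lit 239) .nil)))))) (.g (nat_lit 6) .nil .nil))))) (.nd (nat_lit 5) (.nd (nat_lit 6) 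
(.lf (nat_lit 35486) (.g (nat_lit 2753) (.e (nat_lit 1215) (nat_lit 90) (.e (nat_lit 81927) (nat_lit 11) (.e (nat_lit 426343) (nat_lit 14) (.e (nat_lit 491560) (nat_lit 10) (.e (nat_lit 352000) (nat_lit 18) .nil))))) .nil)) 
(.lf (nat_lit 35550) (.g (nat_lit 2754) (.e (nat_lit 1215) (nat_lit 90) (.e (nat_lit 81956) (nat_lit 23) (.e (nat_lit 98388) (nat_lit 33) (.e (nat_lit 491562) (nat_lit 12) (.e (nat_lit 385047) (nat_lit 21) .nil))))) .nil))) (.nd (nat_lit 6) 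
(.lf (nat_lit 35518) (.g (nat_lit 1681) (.e (nat_lit 1215) (nat_lit 90) (.e (nat_lit 81950) (nat_lit 21) (.e (nat_lit 57666) (nat_lit 152) (.e (nat_lit 1077) (nat_lit 81) (.e (nat_lit 1582) (nat_lit 111) .nil))))) .nil)) 
(.lf (nat_lit 35582) (.g (nat_lit 4417) (.e (nat_lit 1215) (nat_lit 90) (.e (nat_lit 81956) (nat_lit 23) (.e (nat_lit 98389) (nat_lit 33) (.e (nat_lit 491563) (nat_lit 12) (.e (nat_lit 385049) (nat_lit 21) .nil))))) .nil)))))))) (.nd (nat_lit 1) (.nd (nat_lit 2) (.nd (nat_lit 3) (.nd (nat_lit 4) (.nd (nat_lit 5) (.nd (nat_lit 6) 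
(.lf (nat_lit 35457) (.g (nat_lit 1662) (.e (nat_lit 7936) (nat_lit 89) (.e (nat_lit 73781) (nat_lit 32) (.e (nat_lit 3090) (nat_lit 191) (.e (nat_lit 483395) (nat_lit 24) (.e (nat_lit 344096) (nat_lit 18) .nil))))) .nil)) 
(.lf (nat_lit 35521) (.g (nat_lit 1251) (.e (nat_lit 1215) (nat_lit 90) (.e (nat_lit 81950) (nat_lit 21) (.e (nat_lit 57666) (nat_lit 152) (.e (nat_lit 1079) (nat_lit 81) .nil)))) .nil))) (.nd (nat_lit 6) 
(.lf (nat_lit 35489) (.g (nat_lit 129) (.e (nat_lit 1215) (nat_lit 90) (.e (nat_lit 81928) (nat_lit 20) (.e (nat_lit 2271) (nat_lit 149) .nil))) .nil)) 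
(.lf (nat_lit 35553) (.g (nat_lit 3581) (.e (nat_lit 1215) (nat_lit 90) (.e (nat_lit 81956) (nat_lit 23) (.e (nat_lit 98388) (nat_lit 33) (.e (nat_lit 491566) (nat_lit 12) (.e (nat_lit 385044) (nat_lit 21) .nil))))) .nil)))) (.nd (nat_lit 5) (.nd (nat_lit 6) 
(.lf (nat_lit 35473) (.g (nat_lit 1910) (.e (nat_lit 1215) (nat_lit 90) (.e (nat_lit 81925) (nat_lit 11) (.e (nat_lit 426011) (nat_lit 0) (.e (nat_lit 7591) (nat_lit 407) (.e (nat_lit 81664) (nat_lit 0) .nil))))) .nil)) 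
(.lf (nat_lit 35537) (.g (nat_lit 951) (.e (nat_lit 1215) (nat_lit 90) (.e (nat_lit 81956) (nat_lit 23) (.e (nat_lit 98320) (nat_lit 17) .nil))) .nil))) (.nd (nat_lit 6) 
(.lf (nat_lit 35505) (.g (nat_lit 1271) (.e (nat_lit 1215) (nat_lit 90) (.e (nat_lit 81946) (nat_lit 20) (.e (nat_lit 2281) (nat_lit 150) (.e (nat_lit 770057) (nat_lit 5) (.e (nat_lit 1595) (nat_lit 111) .nil))))) .nil)) 
(.lf (nat_lit 35569) (.g (nat_lit 2826) (.e (nat_lit 1215) (nat_lit 90) (.e (nat_lit 81956) (nat_lit 23) (.e (nat_lit 98389) (nat_lit 33) (.e (nat_lit 491560) (nat_lit 10) (.e (nat_lit 344095) (nat_lit 18) (.e (nat_lit 3928) (nat_lit 239) .nil)))))) (.g (nat_lit 4) .nil .nil)))))) (.nd (nat_lit 4) (.nd (nat_lit 5) (.nd (nat_lit 6) 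
(.lf (nat_lit 35465) (.g (nat_lit 1003) (.e (nat_lit 7936) (nat_lit 89) (.e (nat_lit 73782) (nat_lit 32) (.e (nat_lit 3090) (nat_lit 191) (.e (nat_lit 483394) (nat_lit 24) .nil)))) .nil)) 
(.lf (nat_lit 35529) (.g (nat_lit 1485) (.e (nat_lit 1215) (nat_lit 90) (.e (nat_lit 81950) (nat_lit 21) (.e (nat_lit 57684) (nat_lit 155) (.e (nat_lit 122917) (nat_lit 15) (.e (nat_lit 368384) (nat_lit 0) .nil))))) .nil))) (.nd (nat_lit 6) 
(.lf (nat_lit 35497) (.g (nat_lit 761) (.e (nat_lit 1215) (nat_lit 90) (.e (nat_lit 81943) (nat_lit 20) (.e (nat_lit 2280) (nat_lit 150) (.e (nat_lit 770057) (nat_lit 5) .nil)))) .nil)) 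
(.lf (nat_lit 35561) (.g (nat_lit 3251) (.e (nat_lit 1215) (nat_lit 90) (.e (nat_lit 81956) (nat_lit 23) (.e (nat_lit 98389) (nat_lit 33) (.e (nat_lit 491558) (nat_lit 10) (.e (nat_lit 344096) (nat_lit 18) (.e (nat_lit 3928) (nat_lit 239) .nil)))))) (.g (nat_lit 4) .nil .nil))))) (.nd (nat_lit 5) (.nd (nat_lit 6) 
(.lf (nat_lit 35481) (.g (nat_lit 1958) (.e (nat_lit 1215) (nat_lit 90) (.e (nat_lit 81927) (nat_lit 11) (.e (nat_lit 426011) (nat_lit 0) (.e (nat_lit 7593) (nat_lit 407) (.e (nat_lit 81664) (nat_lit 0) .nil))))) .nil)) 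
(.lf (nat_lit 35545) (.g (nat_lit 3671) (.e (nat_lit 1215) (nat_lit 90) (.e (nat_lit 81956) (nat_lit 23) (.e (nat_lit 98384) (nat_lit 32) (.e (nat_lit 475214) (nat_lit 42) (.e (nat_lit 720929) (nat_lit 21) (.e (nat_lit 57622) (nat_lit 128) .nil)))))) (.g (nat_lit 4) .nil .nil)))) (.nd (nat_lit 6) 
(.lf (nat_lit 35513) (.g (nat_lit 1446) (.e (nat_lit 1215) (nat_lit 90) (.e (nat_lit 81948) (nat_lit 21) (.e (nat_lit 57681) (nat_lit 155) (.e (nat_lit 122919) (nat_lit 15) .nil)))) .nil)) 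
(.lf (nat_lit 35577) (.g (nat_lit 4086) (.e (nat_lit 1215) (nat_lit 90) (.e (nat_lit 81956) (nat_lit 23) (.e (nat_lit 98389) (nat_lit 33) (.e (nat_lit 491563) (nat_lit 12) (.e (nat_lit 385045) (nat_lit 21) (.e (nat_lit 4173) (nat_lit 251) .nil)))))) (.g (nat_lit 4) .nil .nil))))))) (.nd (nat_lit 3) (.nd (nat_lit 4) (.nd (nat_lit 5) (.nd (nat_lit 6) 
(.lf (nat_lit 35461) (.g (nat_lit 1958) (.e (nat_lit 7936) (nat_lit 89) (.e (nat_lit 73782) (nat_lit 32) (.e (nat_lit 2856) (nat_lit 184) (.e (nat_lit 426546) (nat_lit 30) (.e (nat_lit 360455) (nat_lit 0) .nil))))) .nil)) 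
(.lf (nat_lit 35525) (.g (nat_lit 2936) (.e (nat_lit 1215) (nat_lit 90) (.e (nat_lit 81950) (nat_lit 21) (.e (nat_lit 57681) (nat_lit 155) (.e (nat_lit 122919) (nat_lit 15) (.e (nat_lit 368384) (nat_lit 0) .nil))))) .nil))) (.nd (nat_lit 6) 
(.lf (nat_lit 35493) (.g (nat_lit 1018) (.e (nat_lit 1215) (nat_lit 90) (.e (nat_lit 81938) (nat_lit 20) (.e (nat_lit 2281) (nat_lit 150) (.e (nat_lit 770057) (nat_lit 5) .nil)))) .nil)) 
(.lf (nat_lit 35557) (.g (nat_lit 550) (.e (nat_lit 1215) (nat_lit 90) (.e (nat_lit 81956) (nat_lit 23) (.e (nat_lit 98389) (nat_lit 33) .nil))) .nil)))) (.nd (nat_lit 5) (.nd (nat_lit 6) 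
(.lf (nat_lit 35477) (.g (nat_lit 2750) (.e (nat_lit 1215) (nat_lit 90) (.e (nat_lit 81925) (nat_lit 11) (.e (nat_lit 426343) (nat_lit 14) (.e (nat_lit 491560) (nat_lit 10) (.e (nat_lit 352000) (nat_lit 18) .nil))))) .nil)) 
(.lf (nat_lit 35541) (.g (nat_lit 1424) (.e (nat_lit 1215) (nat_lit 90) (.e (nat_lit 81956) (nat_lit 23) (.e (nat_lit 98325) (nat_lit 17) (.e (nat_lit 7936) (nat_lit 407) .nil)))) .nil))) (.nd (nat_lit 6) 
(.lf (nat_lit 35509) (.g (nat_lit 1393) (.e (nat_lit 1215) (nat_lit 90) (.e (nat_lit 81946) (nat_lit 20) (.e (nat_lit 2281) (nat_lit 150) (.e (nat_lit 770058) (nat_lit 5) (.e (nat_lit 1595) (nat_lit 111) .nil))))) .nil)) 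
(.lf (nat_lit 35573) (.g (nat_lit 4297) (.e (nat_lit 1215) (nat_lit 90) (.e (nat_lit 81956) (nat_lit 23) (.e (nat_lit 98389) (nat_lit 33) (.e (nat_lit 491562) (nat_lit 12) (.e (nat_lit 385047) (nat_lit 21) (.e (nat_lit 4173) (nat_lit 251) .nil)))))) (.g (nat_lit 5) .nil .nil)))))) (.nd (nat_lit 4) (.nd (nat_lit 5) (.nd (nat_lit 6) 
(.lf (nat_lit 35469) (.g (nat_lit 600) (.e (nat_lit 7936) (nat_lit 89) (.e (nat_lit 73789) (nat_lit 45) (.e (nat_lit 1386) (nat_lit 105) (.e (nat_lit 319232) (nat_lit 30) .nil)))) .nil)) 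
(.lf (nat_lit 35533) (.g (nat_lit 636) (.e (nat_lit 1215) (nat_lit 90) (.e (nat_lit 81954) (nat_lit 23) (.e (nat_lit 98384) (nat_lit 32) .nil))) .nil))) (.nd (nat_lit 6) 
(.lf (nat_lit 35501) (.g (nat_lit 540) (.e (nat_lit 1215) (nat_lit 90) (.e (nat_lit 81946) (nat_lit 20) (.e (nat_lit 2280) (nat_lit 150) .nil))) .nil)) 
(.lf (nat_lit 35565) (.g (nat_lit 3681) (.e (nat_lit 1215) (nat_lit 90) (.e (nat_lit 81956) (nat_lit 23) (.e (nat_lit 98389) (nat_lit 33) (.e (nat_lit 491560) (nat_lit 10) (.e (nat_lit 344089) (nat_lit 18) (.e (nat_lit 3920) (nat_lit 239) .nil)))))) (.g (nat_lit 5) .nil .nil))))) (.nd (nat_lit 5) (.nd (nat_lit 6) 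
(.lf (nat_lit 35485) (.g (nat_lit 2603) (.e (nat_lit 1215) (nat_lit 90) (.e (nat_lit 81927) (nat_lit 11) (.e (nat_lit 426343) (nat_lit 14) (.e (nat_lit 491560) (nat_lit 10) (.e (nat_lit 344099) (nat_lit 18) .nil))))) .nil)) 
(.lf (nat_lit 35549) (.g (nat_lit 787) (.e (nat_lit 1215) (nat_lit 90) (.e (nat_lit 81956) (nat_lit 23) (.e (nat_lit 98388) (nat_lit 33) .nil))) .nil))) (.nd (nat_lit 6) 
(.lf (nat_lit 35517) (.g (nat_lit 1237) (.e (nat_lit 1215) (nat_lit 90) (.e (nat_lit 81950) (nat_lit 21) (.e (nat_lit 57666) (nat_lit 152) (.e (nat_lit 1077) (nat_lit 81) .nil)))) .nil)) 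
(.lf (nat_lit 35581) (.g (nat_lit 4387) (.e (nat_lit 1215) (nat_lit 90) (.e (nat_lit 81956) (nat_lit 23) (.e (nat_lit 98389) (nat_lit 33) (.e (nat_lit 491563) (nat_lit 12) (.e (nat_lit 385048) (nat_lit 21) .nil))))) .nil))))))) (.nd (nat_lit 2) (.nd (nat_lit 3) (.nd (nat_lit 4) (.nd (nat_lit 5) (.nd (nat_lit 6) 
(.lf (nat_lit 35459) (.g (nat_lit 381) (.e (nat_lit 7936) (nat_lit 89) (.e (nat_lit 73782) (nat_lit 32) (.e (nat_lit 2856) (nat_lit 184) .nil))) .nil)) 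
(.lf (nat_lit 35523) (.g (nat_lit 2326) (.e (nat_lit 1215) (nat_lit 90) (.e (nat_lit 81950) (nat_lit 21) (.e (nat_lit 57681) (nat_lit 155) (.e (nat_lit 122917) (nat_lit 15) .nil)))) .nil))) (.nd (nat_lit 6) 
(.lf (nat_lit 35491) (.g (nat_lit 388) (.e (nat_lit 1215) (nat_lit 90) (.e (nat_lit 81935) (nat_lit 20) (.e (nat_lit 2375) (nat_lit 154) .nil))) .nil)) 
(.lf (nat_lit 35555) (.g (nat_lit 3583) (.e (nat_lit 1215) (nat_lit 90) (.e (nat_lit 81956) (nat_lit 23) (.e (nat_lit 98388) (nat_lit 33) (.e (nat_lit 491566) (nat_lit 12) (.e (nat_lit 385045) (nat_lit 21) (.e (nat_lit 4181) (nat_lit 251) .nil)))))) (.g (nat_lit 4) .nil .nil))))) (.nd (nat_lit 5) (.nd (nat_lit 6) 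
(.lf (nat_lit 35475) (.g (nat_lit 2159) (.e (nat_lit 1215) (nat_lit 90) (.e (nat_lit 81925) (nat_lit 11) (.e (nat_lit 426343) (nat_lit 14) (.e (nat_lit 491558) (nat_lit 10) (.e (nat_lit 344097) (nat_lit 18) (.e (nat_lit 7160) (nat_lit 382) .nil)))))) (.g (nat_lit 4) .nil .nil))) 
(.lf (nat_lit 35539) (.g (nat_lit 3197) (.e (nat_lit 1215) (nat_lit 90) (.e (nat_lit 81956) (nat_lit 23) (.e (nat_lit 98320) (nat_lit 17) (.e (nat_lit 7591) (nat_lit 407) (.e (nat_lit 73730) (nat_lit 0) (.e (nat_lit 3928) (nat_lit 239) .nil)))))) (.g (nat_lit 4) .nil .nil)))) (.nd (nat_lit 6) 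
(.lf (nat_lit 35507) (.g (nat_lit 1316) (.e (nat_lit 1215) (nat_lit 90) (.e (nat_lit 81946) (nat_lit 20) (.e (nat_lit 2281) (nat_lit 150) (.e (nat_lit 770058) (nat_lit 5) (.e (nat_lit 1586) (nat_lit 111) .nil))))) .nil)) 
(.lf (nat_lit 35571) (.g (nat_lit 2744) (.e (nat_lit 1215) (nat_lit 90) (.e (nat_lit 81956) (nat_lit 23) (.e (nat_lit 98389) (nat_lit 33) (.e (nat_lit 491562) (nat_lit 12) (.e (nat_lit 385047) (nat_lit 21) .nil))))) .nil))))) (.nd (nat_lit 4) (.nd (nat_lit 5) (.nd (nat_lit 6) 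
(.lf (nat_lit 35467) (.g (nat_lit 946) (.e (nat_lit 7936) (nat_lit 89) (.e (nat_lit 73789) (nat_lit 45) (.e (nat_lit 1385) (nat_lit 105) (.e (nat_lit 311358) (nat_lit 29) (.e (nat_lit 352296) (nat_lit 20) .nil))))) .nil)) 
(.lf (nat_lit 35531) (.g (nat_lit 1549) (.e (nat_lit 1215) (nat_lit 90) (.e (nat_lit 81950) (nat_lit 21) (.e (nat_lit 57684) (nat_lit 155) (.e (nat_lit 122919) (nat_lit 15) (.e (nat_lit 368384) (nat_lit 0) (.e (nat_lit 7161) (nat_lit 382) .nil)))))) (.g (nat_lit 4) .nil .nil)))) (.nd (nat_lit 6) 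
(.lf (nat_lit 35499) (.g (nat_lit 1212) (.e (nat_lit 1215) (nat_lit 90) (.e (nat_lit 81946) (nat_lit 20) (.e (nat_lit 2270) (nat_lit 149) (.e (nat_lit 761868) (nat_lit 5) .nil)))) .nil)) 
(.lf (nat_lit 35563) (.g (nat_lit 3491) (.e (nat_lit 1215) (nat_lit 90) (.e (nat_lit 81956) (nat_lit 23) (.e (nat_lit 98389) (nat_lit 33) (.e (nat_lit 491560) (nat_lit 10) (.e (nat_lit 344088) (nat_lit 18) (.e (nat_lit 3928) (nat_lit 239) .nil)))))) (.g (nat_lit 5) .nil .nil))))) (.nd (nat_lit 5) (.nd (nat_lit 6) 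
(.lf (nat_lit 35483) (.g (nat_lit 1330) (.e (nat_lit 1215) (nat_lit 90) (.e (nat_lit 81927) (nat_lit 11) (.e (nat_lit 426343) (nat_lit 14) (.e (nat_lit 491558) (nat_lit 10) .nil)))) .nil)) 
(.lf (nat_lit 35547) (.g (nat_lit 1154) (.e (nat_lit 1215) (nat_lit 90) (.e (nat_lit 81956) (nat_lit 23) (.e (nat_lit 98385) (nat_lit 32) .nil))) .nil))) (.nd (nat_lit 6) 
(.lf (nat_lit 35515) (.g (nat_lit 1265) (.e (nat_lit 1215) (nat_lit 90) (.e (nat_lit 81948) (nat_lit 21) (.e (nat_lit 57684) (nat_lit 155) (.e (nat_lit 122917) (nat_lit 15) (.e (nat_lit 368384) (nat_lit 0) .nil))))) .nil)) 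
(.lf (nat_lit 35579) (.g (nat_lit 4386) (.e (nat_lit 1215) (nat_lit 90) (.e (nat_lit 81956) (nat_lit 23) (.e (nat_lit 98389) (nat_lit 33) (.e (nat_lit 491563) (nat_lit 12) (.e (nat_lit 385046) (nat_lit 21) (.e (nat_lit 4181) (nat_lit 251) .nil)))))) (.g (nat_lit 4) .nil .nil))))))) (.nd (nat_lit 3) (.nd (nat_lit 4) (.nd (nat_lit 5) (.nd (nat_lit 6) 
(.lf (nat_lit 35463) (.g (nat_lit 902) (.e (nat_lit 7936) (nat_lit 89) (.e (nat_lit 73782) (nat_lit 32) (.e (nat_lit 2857) (nat_lit 184) (.e (nat_lit 426546) (nat_lit 30) .nil)))) .nil)) 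
(.lf (nat_lit 35527) (.g (nat_lit 1697) (.e (nat_lit 1215) (nat_lit 90) (.e (nat_lit 81950) (nat_lit 21) (.e (nat_lit 57683) (nat_lit 155) (.e (nat_lit 122919) (nat_lit 15) (.e (nat_lit 368384) (nat_lit 0) (.e (nat_lit 7160) (nat_lit 382) .nil)))))) (.g (nat_lit 4) .nil .nil)))) (.nd (nat_lit 6) 
(.lf (nat_lit 35495) (.g (nat_lit 1189) (.e (nat_lit 1215) (nat_lit 90) (.e (nat_lit 81943) (nat_lit 20) (.e (nat_lit 2270) (nat_lit 149) (.e (nat_lit 761868) (nat_lit 5) (.e (nat_lit 1585) (nat_lit 111) .nil))))) .nil)) 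
(.lf (nat_lit 35559) (.g (nat_lit 2963) (.e (nat_lit 1215) (nat_lit 90) (.e (nat_lit 81956) (nat_lit 23) (.e (nat_lit 98389) (nat_lit 33) (.e (nat_lit 491558) (nat_lit 10) (.e (nat_lit 344090) (nat_lit 18) (.e (nat_lit 3928) (nat_lit 239) .nil)))))) (.g (nat_lit 4) .nil .nil))))) (.nd (nat_lit 5) (.nd (nat_lit 6) 
(.lf (nat_lit 35479) (.g (nat_lit 187) (.e (nat_lit 1215) (nat_lit 90) (.e (nat_lit 81927) (nat_lit 11) (.e (nat_lit 426010) (nat_lit 0) .nil))) .nil)) 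
(.lf (nat_lit 35543) (.g (nat_lit 1801) (.e (nat_lit 1215) (nat_lit 90) (.e (nat_lit 81956) (nat_lit 23) (.e (nat_lit 98384) (nat_lit 32) (.e (nat_lit 475214) (nat_lit 42) .nil)))) .nil))) (.nd (nat_lit 6) 
(.lf (nat_lit 35511) (.g (nat_lit 1728) (.e (nat_lit 1215) (nat_lit 90) (.e (nat_lit 81947) (nat_lit 20) (.e (nat_lit 2270) (nat_lit 149) (.e (nat_lit 761868) (nat_lit 5) (.e (nat_lit 1597) (nat_lit 111) .nil))))) .nil)) 
(.lf (nat_lit 35575) (.g (nat_lit 4342) (.e (nat_lit 1215) (nat_lit 90) (.e (nat_lit 81956) (nat_lit 23) (.e (nat_lit 98389) (nat_lit 33) (.e (nat_lit 491563) (nat_lit 12) (.e (nat_lit 385043) (nat_lit 21) .nil))))) .nil))))) (.nd (nat_lit 4) (.nd (nat_lit 5) (.nd (nat_lit 6) 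
(.lf (nat_lit 35471) (.g (nat_lit 1067) (.e (nat_lit 7936) (nat_lit 89) (.e (nat_lit 73792) (nat_lit 45) (.e (nat_lit 1386) (nat_lit 105) (.e (nat_lit 311358) (nat_lit 29) (.e (nat_lit 352296) (nat_lit 20) .nil))))) .nil)) 
(.lf (nat_lit 35535) (.g (nat_lit 1768) (.e (nat_lit 1215) (nat_lit 90) (.e (nat_lit 81956) (nat_lit 23) (.e (nat_lit 98313) (nat_lit 9) (.e (nat_lit 335995) (nat_lit 1) .nil)))) .nil))) (.nd (nat_lit 6) 
(.lf (nat_lit 35503) (.g (nat_lit 1055) (.e (nat_lit 1215) (nat_lit 90) (.e (nat_lit 81946) (nat_lit 20) (.e (nat_lit 2281) (nat_lit 150) (.e (nat_lit 770057) (nat_lit 5) .nil)))) .nil)) 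
(.lf (nat_lit 35567) (.g (nat_lit 3828) (.e (nat_lit 1215) (nat_lit 90) (.e (nat_lit 81956) (nat_lit 23) (.e (nat_lit 98389) (nat_lit 33) (.e (nat_lit 491560) (nat_lit 10) (.e (nat_lit 344091) (nat_lit 18) (.e (nat_lit 3928) (nat_lit 239) .nil)))))) (.g (nat_lit 5) .nil .nil))))) (.nd (nat_lit 5) (.nd (nat_lit 6) 
(.lf (nat_lit 35487) (.g (nat_lit 2314) (.e (nat_lit 1215) (nat_lit 90) (.e (nat_lit 81927) (nat_lit 11) (.e (nat_lit 426344) (nat_lit 14) (.e (nat_lit 491560) (nat_lit 10) (.e (nat_lit 344097) (nat_lit 18) (.e (nat_lit 7160) (nat_lit 382) .nil)))))) (.g (nat_lit 5) .nil .nil))) 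
(.lf (nat_lit 35551) (.g (nat_lit 3212) (.e (nat_lit 1215) (nat_lit 90) (.e (nat_lit 81956) (nat_lit 23) (.e (nat_lit 98388) (nat_lit 33) (.e (nat_lit 491566) (nat_lit 12) (.e (nat_lit 385043) (nat_lit 21) .nil))))) .nil))) (.nd (nat_lit 6) 
(.lf (nat_lit 35519) (.g (nat_lit 1715) (.e (nat_lit 1215) (nat_lit 90) (.e (nat_lit 81950) (nat_lit 21) (.e (nat_lit 57666) (nat_lit 152) (.e (nat_lit 1077) (nat_lit 81) (.e (nat_lit 1597) (nat_lit 111) .nil))))) .nil)) 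
(.lf (nat_lit 35583) (.g (nat_lit 1975) (.e (nat_lit 1215) (nat_lit 90) (.e (nat_lit 81959) (nat_lit 24) (.e (nat_lit 123195) (nat_lit 266) (.e (nat_lit 57427) (nat_lit 15) .nil)))) .nil)))))))))

noncomputable def tv496 : DT := (.nd (nat_lit 0) (.nd (nat_lit 1) (.nd (nat_lit 2) (.nd (nat_lit 3) (.nd (nat_lit 4) (.nd (nat_lit 5) 
(.lf (nat_lit 35584) (.g (nat_lit 2397) (.e (nat_lit 1215) (nat_lit 90) (.e (nat_lit 81959) (nat_lit 24) (.e (nat_lit 123195) (nat_lit 266) (.e (nat_lit 57427) (nat_lit 15) (.e (nat_lit 360450) (nat_lit 0) .nil))))) .nil)) 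
(.lf (nat_lit 35616) (.g (nat_lit 2547) (.e (nat_lit 1216) (nat_lit 90) (.e (nat_lit 81925) (nat_lit 11) (.e (nat_lit 426343) (nat_lit 14) (.e (nat_lit 491546) (nat_lit 9) (.e (nat_lit 335997) (nat_lit 1) (.e (nat_lit 57651) (nat_lit 152) .nil)))))) (.g (nat_lit 4) .nil .nil)))) (.nd (nat_lit 5) 
(.lf (nat_lit 35600) (.g (nat_lit 2435) (.e (nat_lit 1215) (nat_lit 90) (.e (nat_lit 81965) (nat_lit 26) (.e (nat_lit 147495) (nat_lit 11) (.e (nat_lit 24623) (nat_lit 9) (.e (nat_lit 335997) (nat_lit 1) .nil))))) .nil)) 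
(.lf (nat_lit 35632) (.g (nat_lit 1179) (.e (nat_lit 1216) (nat_lit 90) (.e (nat_lit 81927) (nat_lit 11) (.e (nat_lit 426343) (nat_lit 14) (.e (nat_lit 491546) (nat_lit 9) .nil)))) .nil)))) (.nd (nat_lit 4) (.nd (nat_lit 5) 
(.lf (nat_lit 35592) (.g (nat_lit 2340) (.e (nat_lit 1215) (nat_lit 90) (.e (nat_lit 81963) (nat_lit 26) (.e (nat_lit 147496) (nat_lit 11) (.e (nat_lit 24640) (nat_lit 10) (.e (nat_lit 344101) (nat_lit 18) .nil))))) .nil)) 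
(.lf (nat_lit 35624) (.g (nat_lit 1315) (.e (nat_lit 1216) (nat_lit 90) (.e (nat_lit 81927) (nat_lit 11) (.e (nat_lit 426009) (nat_lit 0) (.e (nat_lit 7591) (nat_lit 407) (.e (nat_lit 73733) (nat_lit 0) (.e (nat_lit 7147) (nat_lit 382) .nil)))))) (.g (nat_lit 5) .nil .nil)))) (.nd (nat_lit 5) 
(.lf (nat_lit 35608) (.g (nat_lit 1008) (.e (nat_lit 1216) (nat_lit 90) (.e (nat_lit 89856) (nat_lit 7) (.e (nat_lit 245778) (nat_lit 6) (.e (nat_lit 188453) (nat_lit 24) (.e (nat_lit 237312) (nat_lit 158) .nil))))) (.g (nat_lit 4) .nil .nil))) 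
(.lf (nat_lit 35640) (.g (nat_lit 440) (.e (nat_lit 1216) (nat_lit 90) (.e (nat_lit 81938) (nat_lit 20) (.e (nat_lit 1963) (nat_lit 134) .nil))) .nil))))) (.nd (nat_lit 3) (.nd (nat_lit 4) (.nd (nat_lit 5) 
(.lf (nat_lit 35588) (.g (nat_lit 2887) (.e (nat_lit 1215) (nat_lit 90) (.e (nat_lit 81963) (nat_lit 26) (.e (nat_lit 147496) (nat_lit 11) (.e (nat_lit 24584) (nat_lit 0) (.e (nat_lit 6113) (nat_lit 332) (.e (nat_lit 2507) (nat_lit 157) (.e (nat_lit 59) (nat_lit 0) (.e (nat_lit 7160) (nat_lit 382) .nil)))))))) (.g (nat_lit 6) .nil .nil))) 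
(.lf (nat_lit 35620) (.g (nat_lit 2551) (.e (nat_lit 1216) (nat_lit 90) (.e (nat_lit 81925) (nat_lit 11) (.e (nat_lit 426343) (nat_lit 14) (.e (nat_lit 491560) (nat_lit 10) (.e (nat_lit 344099) (nat_lit 18) .nil))))) .nil))) (.nd (nat_lit 5) 
(.lf (nat_lit 35604) (.g (nat_lit 1665) (.e (nat_lit 1215) (nat_lit 90) (.e (nat_lit 81965) (nat_lit 26) (.e (nat_lit 147496) (nat_lit 11) (.e (nat_lit 24623) (nat_lit 9) .nil)))) .nil)) 
(.lf (nat_lit 35636) (.g (nat_lit 1941) (.e (nat_lit 1216) (nat_lit 90) (.e (nat_lit 81927) (nat_lit 11) (.e (nat_lit 426343) (nat_lit 14) (.e (nat_lit 491552) (nat_lit 9) (.e (nat_lit 335991) (nat_lit 1) .nil))))) .nil)))) (.nd (nat_lit 4) (.nd (nat_lit 5) 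
(.lf (nat_lit 35596) (.g (nat_lit 1480) (.e (nat_lit 1215) (nat_lit 90) (.e (nat_lit 81965) (nat_lit 26) (.e (nat_lit 147466) (nat_lit 9) (.e (nat_lit 324) (nat_lit 24) .nil)))) .nil)) 
(.lf (nat_lit 35628) (.g (nat_lit 2267) (.e (nat_lit 1216) (nat_lit 90) (.e (nat_lit 81927) (nat_lit 11) (.e (nat_lit 426172) (nat_lit 7) (.e (nat_lit 409646) (nat_lit 18) (.e (nat_lit 303115) (nat_lit 1) (.e (nat_lit 164151) (nat_lit 152) .nil)))))) (.g (nat_lit 5) .nil .nil)))) (.nd (nat_lit 5) 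
(.lf (nat_lit 35612) (.g (nat_lit 2886) (.e (nat_lit 1216) (nat_lit 90) (.e (nat_lit 81925) (nat_lit 11) (.e (nat_lit 426024) (nat_lit 0) (.e (nat_lit 6989) (nat_lit 377) (.e (nat_lit 2777) (nat_lit 178) (.e (nat_lit 286731) (nat_lit 1) (.e (nat_lit 57655) (nat_lit 152) .nil))))))) (.g (nat_lit 6) .nil .nil))) 
(.lf (nat_lit 35644) (.g (nat_lit 431) (.e (nat_lit 1216) (nat_lit 90) (.e (nat_lit 81938) (nat_lit 20) (.e (nat_lit 2279) (nat_lit 150) .nil))) .nil)))))) (.nd (nat_lit 2) (.nd (nat_lit 3) (.nd (nat_lit 4) (.nd (nat_lit 5) 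
(.lf (nat_lit 35586) (.g (nat_lit 2835) (.e (nat_lit 1215) (nat_lit 90) (.e (nat_lit 81963) (nat_lit 26) (.e (nat_lit 147495) (nat_lit 11) (.e (nat_lit 24623) (nat_lit 9) (.e (nat_lit 335997) (nat_lit 1) (.e (nat_lit 57660) (nat_lit 152) .nil)))))) (.g (nat_lit 5) .nil .nil))) 
(.lf (nat_lit 35618) (.g (nat_lit 2769) (.e (nat_lit 1216) (nat_lit 90) (.e (nat_lit 81925) (nat_lit 11) (.e (nat_lit 426343) (nat_lit 14) (.e (nat_lit 491558) (nat_lit 10) (.e (nat_lit 344100) (nat_lit 18) (.e (nat_lit 7147) (nat_lit 382) .nil)))))) (.g (nat_lit 4) .nil .nil)))) (.nd (nat_lit 5) 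
(.lf (nat_lit 35602) (.g (nat_lit 1396) (.e (nat_lit 1215) (nat_lit 90) (.e (nat_lit 81965) (nat_lit 26) (.e (nat_lit 147496) (nat_lit 11) (.e (nat_lit 24617) (nat_lit 7) .nil)))) .nil)) 
(.lf (nat_lit 35634) (.g (nat_lit 2436) (.e (nat_lit 1216) (nat_lit 90) (.e (nat_lit 81927) (nat_lit 11) (.e (nat_lit 426343) (nat_lit 14) (.e (nat_lit 491546) (nat_lit 9) (.e (nat_lit 335997) (nat_lit 1) (.e (nat_lit 57652) (nat_lit 152) .nil)))))) (.g (nat_lit 4) .nil .nil))))) (.nd (nat_lit 4) (.nd (nat_lit 5) 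
(.lf (nat_lit 35594) (.g (nat_lit 626) (.e (nat_lit 1215) (nat_lit 90) (.e (nat_lit 81965) (nat_lit 26) (.e (nat_lit 147463) (nat_lit 9) .nil))) .nil)) 
(.lf (nat_lit 35626) (.g (nat_lit 164) (.e (nat_lit 1216) (nat_lit 90) (.e (nat_lit 81927) (nat_lit 11) (.e (nat_lit 426172) (nat_lit 7) .nil))) .nil))) (.nd (nat_lit 5) 
(.lf (nat_lit 35610) (.g (nat_lit 2183) (.e (nat_lit 1216) (nat_lit 90) (.e (nat_lit 81925) (nat_lit 11) (.e (nat_lit 426011) (nat_lit 0) (.e (nat_lit 7591) (nat_lit 407) (.e (nat_lit 73733) (nat_lit 0) (.e (nat_lit 7147) (nat_lit 382) .nil)))))) (.g (nat_lit 5) .nil .nil))) 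
(.lf (nat_lit 35642) (.g (nat_lit 1056) (.e (nat_lit 1216) (nat_lit 90) (.e (nat_lit 81938) (nat_lit 20) (.e (nat_lit 2270) (nat_lit 149) (.e (nat_lit 761868) (nat_lit 5) .nil)))) .nil))))) (.nd (nat_lit 3) (.nd (nat_lit 4) (.nd (nat_lit 5) 
(.lf (nat_lit 35590) (.g (nat_lit 2477) (.e (nat_lit 1215) (nat_lit 90) (.e (nat_lit 81963) (nat_lit 26) (.e (nat_lit 147496) (nat_lit 11) (.e (nat_lit 24617) (nat_lit 7) (.e (nat_lit 319494) (nat_lit 0) .nil))))) .nil)) 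
(.lf (nat_lit 35622) (.g (nat_lit 1820) (.e (nat_lit 1216) (nat_lit 90) (.e (nat_lit 81925) (nat_lit 11) (.e (nat_lit 426344) (nat_lit 14) (.e (nat_lit 491560) (nat_lit 10) (.e (nat_lit 344099) (nat_lit 18) .nil))))) .nil))) (.nd (nat_lit 5) 
(.lf (nat_lit 35606) (.g (nat_lit 2035) (.e (nat_lit 1216) (nat_lit 90) (.e (nat_lit 81922) (nat_lit 0) (.e (nat_lit 3305) (nat_lit 202) (.e (nat_lit 573493) (nat_lit 15) (.e (nat_lit 81959) (nat_lit 24) .nil))))) .nil)) 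
(.lf (nat_lit 35638) (.g (nat_lit 2088) (.e (nat_lit 1216) (nat_lit 90) (.e (nat_lit 81927) (nat_lit 11) (.e (nat_lit 426343) (nat_lit 14) (.e (nat_lit 491561) (nat_lit 11) (.e (nat_lit 368662) (nat_lit 18) (.e (nat_lit 7147) (nat_lit 382) .nil)))))) (.g (nat_lit 5) .nil .nil))))) (.nd (nat_lit 4) (.nd (nat_lit 5) 
(.lf (nat_lit 35598) (.g (nat_lit 1435) (.e (nat_lit 1215) (nat_lit 90) (.e (nat_lit 81965) (nat_lit 26) (.e (nat_lit 147467) (nat_lit 9) (.e (nat_lit 324) (nat_lit 24) .nil)))) .nil)) 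
(.lf (nat_lit 35630) (.g (nat_lit 434) (.e (nat_lit 1216) (nat_lit 90) (.e (nat_lit 81927) (nat_lit 11) (.e (nat_lit 426181) (nat_lit 8) (.e (nat_lit 425728) (nat_lit 16) .nil)))) .nil))) (.nd (nat_lit 5) 
(.lf (nat_lit 35614) (.g (nat_lit 1577) (.e (nat_lit 1216) (nat_lit 90) (.e (nat_lit 81925) (nat_lit 11) (.e (nat_lit 426182) (nat_lit 8) (.e (nat_lit 417820) (nat_lit 10) (.e (nat_lit 5761) (nat_lit 315) (.e (nat_lit 163850) (nat_lit 0) (.e (nat_lit 6273) (nat_lit 337) .nil))))))) (.g (nat_lit 4) .nil .nil))) 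
(.lf (nat_lit 35646) (.g (nat_lit 2405) (.e (nat_lit 1216) (nat_lit 90) (.e (nat_lit 81938) (nat_lit 20) (.e (nat_lit 2279) (nat_lit 150) (.e (nat_lit 770072) (nat_lit 8) (.e (nat_lit 65619) (nat_lit 10) (.e (nat_lit 344097) (nat_lit 18) (.e (nat_lit 7147) (nat_lit 382) .nil))))))) (.g (nat_lit 6) .nil .nil)))))))) 
(.nd (nat_lit 1) (.nd (nat_lit 2) (.nd (nat_lit 3) (.nd (nat_lit 4) (.nd (nat_lit 5) 
(.lf (nat_lit 35585) (.g (nat_lit 369) (.e (nat_lit 1215) (nat_lit 90) (.e (nat_lit 81963) (nat_lit 26) (.e (nat_lit 147463) (nat_lit 9) .nil))) .nil)) 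
(.lf (nat_lit 35617) (.g (nat_lit 2488) (.e (nat_lit 1216) (nat_lit 90) (.e (nat_lit 81925) (nat_lit 11) (.e (nat_lit 426343) (nat_lit 14) (.e (nat_lit 491558) (nat_lit 10) (.e (nat_lit 344097) (nat_lit 18) (.e (nat_lit 7147) (nat_lit 382) .nil)))))) (.g (nat_lit 5) .nil .nil)))) (.nd (nat_lit 5) 
(.lf (nat_lit 35601) (.g (nat_lit 609) (.e (nat_lit 1215) (nat_lit 90) (.e (nat_lit 81965) (nat_lit 26) (.e (nat_lit 147496) (nat_lit 11) .nil))) .nil)) 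
(.lf (nat_lit 35633) (.g (nat_lit 3259) (.e (nat_lit 1216) (nat_lit 90) (.e (nat_lit 81927) (nat_lit 11) (.e (nat_lit 426343) (nat_lit 14) (.e (nat_lit 491546) (nat_lit 9) (.e (nat_lit 335997) (nat_lit 1) (.e (nat_lit 57651) (nat_lit 152) .nil)))))) (.g (nat_lit 5) .nil .nil))))) (.nd (nat_lit 4) (.nd (nat_lit 5) 
(.lf (nat_lit 35593) (.g (nat_lit 1233) (.e (nat_lit 1215) (nat_lit 90) (.e (nat_lit 81963) (nat_lit 26) (.e (nat_lit 147496) (nat_lit 11) (.e (nat_lit 24644) (nat_lit 11) .nil)))) .nil)) 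
(.lf (nat_lit 35625) (.g (nat_lit 1548) (.e (nat_lit 1216) (nat_lit 90) (.e (nat_lit 81927) (nat_lit 11) (.e (nat_lit 426010) (nat_lit 0) (.e (nat_lit 7591) (nat_lit 407) (.e (nat_lit 73733) (nat_lit 0) (.e (nat_lit 7147) (nat_lit 382) .nil)))))) (.g (nat_lit 6) .nil .nil)))) (.nd (nat_lit 5) 
(.lf (nat_lit 35609) (.g (nat_lit 930) (.e (nat_lit 1216) (nat_lit 90) (.e (nat_lit 89856) (nat_lit 7) (.e (nat_lit 245778) (nat_lit 6) (.e (nat_lit 188455) (nat_lit 24) (.e (nat_lit 237312) (nat_lit 158) .nil))))) (.g (nat_lit 4) .nil .nil))) 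
(.lf (nat_lit 35641) (.g (nat_lit 1121) (.e (nat_lit 1216) (nat_lit 90) (.e (nat_lit 81938) (nat_lit 20) (.e (nat_lit 2270) (nat_lit 149) (.e (nat_lit 761867) (nat_lit 5) .nil)))) .nil))))) (.nd (nat_lit 3) (.nd (nat_lit 4) (.nd (nat_lit 5) 
(.lf (nat_lit 35589) (.g (nat_lit 1229) (.e (nat_lit 1215) (nat_lit 90) (.e (nat_lit 81963) (nat_lit 26) (.e (nat_lit 147496) (nat_lit 11) (.e (nat_lit 24617) (nat_lit 7) .nil)))) .nil)) 
(.lf (nat_lit 35621) (.g (nat_lit 2290) (.e (nat_lit 1216) (nat_lit 90) (.e (nat_lit 81925) (nat_lit 11) (.e (nat_lit 426344) (nat_lit 14) (.e (nat_lit 491560) (nat_lit 10) (.e (nat_lit 344097) (nat_lit 18) (.e (nat_lit 7147) (nat_lit 382) .nil)))))) (.g (nat_lit 5) .nil .nil)))) (.nd (nat_lit 5) 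
(.lf (nat_lit 35605) (.g (nat_lit 1605) (.e (nat_lit 1215) (nat_lit 90) (.e (nat_lit 81965) (nat_lit 26) (.e (nat_lit 147496) (nat_lit 11) (.e (nat_lit 24639) (nat_lit 10) .nil)))) .nil)) 
(.lf (nat_lit 35637) (.g (nat_lit 3098) (.e (nat_lit 1216) (nat_lit 90) (.e (nat_lit 81927) (nat_lit 11) (.e (nat_lit 426343) (nat_lit 14) (.e (nat_lit 491558) (nat_lit 10) (.e (nat_lit 344100) (nat_lit 18) (.e (nat_lit 7147) (nat_lit 382) .nil)))))) (.g (nat_lit 6) .nil .nil))))) (.nd (nat_lit 4) (.nd (nat_lit 5) 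
(.lf (nat_lit 35597) (.g (nat_lit 1421) (.e (nat_lit 1215) (nat_lit 90) (.e (nat_lit 81965) (nat_lit 26) (.e (nat_lit 147467) (nat_lit 9) (.e (nat_lit 321) (nat_lit 24) .nil)))) .nil)) 
(.lf (nat_lit 35629) (.g (nat_lit 1428) (.e (nat_lit 1216) (nat_lit 90) (.e (nat_lit 81927) (nat_lit 11) (.e (nat_lit 426172) (nat_lit 7) (.e (nat_lit 409647) (nat_lit 18) (.e (nat_lit 303115) (nat_lit 1) (.e (nat_lit 164151) (nat_lit 152) .nil)))))) (.g (nat_lit 4) .nil .nil)))) (.nd (nat_lit 5) 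
(.lf (nat_lit 35613) (.g (nat_lit 1442) (.e (nat_lit 1216) (nat_lit 90) (.e (nat_lit 81925) (nat_lit 11) (.e (nat_lit 426172) (nat_lit 7) (.e (nat_lit 409648) (nat_lit 18) (.e (nat_lit 303115) (nat_lit 1) .nil))))) .nil)) 
(.lf (nat_lit 35645) (.g (nat_lit 2763) (.e (nat_lit 1216) (nat_lit 90) (.e (nat_lit 81938) (nat_lit 20) (.e (nat_lit 2279) (nat_lit 150) (.e (nat_lit 770072) (nat_lit 8) (.e (nat_lit 65610) (nat_lit 10) (.e (nat_lit 344097) (nat_lit 18) (.e (nat_lit 7147) (nat_lit 382) .nil))))))) (.g (nat_lit 6) .nil .nil))))))) (.nd (nat_lit 2) (.nd (nat_lit 3) (.nd (nat_lit 4) (.nd (nat_lit 5) 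
(.lf (nat_lit 35587) (.g (nat_lit 2276) (.e (nat_lit 1215) (nat_lit 90) (.e (nat_lit 81963) (nat_lit 26) (.e (nat_lit 147495) (nat_lit 11) (.e (nat_lit 24640) (nat_lit 10) (.e (nat_lit 344101) (nat_lit 18) .nil))))) .nil)) 
(.lf (nat_lit 35619) (.g (nat_lit 2954) (.e (nat_lit 1216) (nat_lit 90) (.e (nat_lit 81925) (nat_lit 11) (.e (nat_lit 426343) (nat_lit 14) (.e (nat_lit 491560) (nat_lit 10) (.e (nat_lit 344097) (nat_lit 18) (.e (nat_lit 7147) (nat_lit 382) .nil)))))) (.g (nat_lit 5) .nil .nil)))) (.nd (nat_lit 5) 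
(.lf (nat_lit 35603) (.g (nat_lit 2756) (.e (nat_lit 1215) (nat_lit 90) (.e (nat_lit 81965) (nat_lit 26) (.e (nat_lit 147496) (nat_lit 11) (.e (nat_lit 24617) (nat_lit 7) (.e (nat_lit 319494) (nat_lit 0) .nil))))) .nil)) 
(.lf (nat_lit 35635) (.g (nat_lit 2091) (.e (nat_lit 1216) (nat_lit 90) (.e (nat_lit 81927) (nat_lit 11) (.e (nat_lit 426343) (nat_lit 14) (.e (nat_lit 491552) (nat_lit 9) (.e (nat_lit 335985) (nat_lit 1) .nil))))) .nil)))) (.nd (nat_lit 4) (.nd (nat_lit 5) 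
(.lf (nat_lit 35595) (.g (nat_lit 1842) (.e (nat_lit 1215) (nat_lit 90) (.e (nat_lit 81965) (nat_lit 26) (.e (nat_lit 147466) (nat_lit 9) (.e (nat_lit 321) (nat_lit 24) (.e (nat_lit 368384) (nat_lit 0) .nil))))) .nil)) 
(.lf (nat_lit 35627) (.g (nat_lit 1516) (.e (nat_lit 1216) (nat_lit 90) (.e (nat_lit 81927) (nat_lit 11) (.e (nat_lit 426172) (nat_lit 7) (.e (nat_lit 409644) (nat_lit 18) (.e (nat_lit 303115) (nat_lit 1) (.e (nat_lit 164151) (nat_lit 152) .nil)))))) (.g (nat_lit 4) .nil .nil)))) (.nd (nat_lit 5) 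
(.lf (nat_lit 35611) (.g (nat_lit 2116) (.e (nat_lit 1216) (nat_lit 90) (.e (nat_lit 81925) (nat_lit 11) (.e (nat_lit 426011) (nat_lit 0) (.e (nat_lit 7593) (nat_lit 407) (.e (nat_lit 73732) (nat_lit 0) (.e (nat_lit 7147) (nat_lit 382) .nil)))))) (.g (nat_lit 5) .nil .nil))) 
(.lf (nat_lit 35643) (.g (nat_lit 2383) (.e (nat_lit 1216) (nat_lit 90) (.e (nat_lit 81938) (nat_lit 20) (.e (nat_lit 2270) (nat_lit 149) (.e (nat_lit 761868) (nat_lit 5) (.e (nat_lit 1597) (nat_lit 111) (.e (nat_lit 360452) (nat_lit 0) (.e (nat_lit 7147) (nat_lit 382) .nil))))))) (.g (nat_lit 6) .nil .nil)))))) (.nd (nat_lit 3) (.nd (nat_lit 4) (.nd (nat_lit 5) 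
(.lf (nat_lit 35591) (.g (nat_lit 2117) (.e (nat_lit 1215) (nat_lit 90) (.e (nat_lit 81963) (nat_lit 26) (.e (nat_lit 147496) (nat_lit 11) (.e (nat_lit 24617) (nat_lit 7) (.e (nat_lit 319511) (nat_lit 10) .nil))))) .nil)) 
(.lf (nat_lit 35623) (.g (nat_lit 1208) (.e (nat_lit 1216) (nat_lit 90) (.e (nat_lit 81926) (nat_lit 11) (.e (nat_lit 426172) (nat_lit 7) (.e (nat_lit 409646) (nat_lit 18) (.e (nat_lit 303115) (nat_lit 1) .nil))))) .nil))) (.nd (nat_lit 5) 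
(.lf (nat_lit 35607) (.g (nat_lit 1844) (.e (nat_lit 1216) (nat_lit 90) (.e (nat_lit 81924) (nat_lit 0) (.e (nat_lit 3748) (nat_lit 228) (.e (nat_lit 786483) (nat_lit 30) (.e (nat_lit 360451) (nat_lit 0) (.e (nat_lit 7936) (nat_lit 320) .nil)))))) (.g (nat_lit 5) .nil .nil))) 
(.lf (nat_lit 35639) (.g (nat_lit 1611) (.e (nat_lit 1216) (nat_lit 90) (.e (nat_lit 81931) (nat_lit 20) (.e (nat_lit 2375) (nat_lit 154) (.e (nat_lit 802828) (nat_lit 13) (.e (nat_lit 352307) (nat_lit 21) (.e (nat_lit 57655) (nat_lit 152) .nil)))))) (.g (nat_lit 0) .nil .nil))))) (.nd (nat_lit 4) (.nd (nat_lit 5) 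
(.lf (nat_lit 35599) (.g (nat_lit 1295) (.e (nat_lit 1215) (nat_lit 90) (.e (nat_lit 81965) (nat_lit 26) (.e (nat_lit 147492) (nat_lit 11) (.e (nat_lit 24646) (nat_lit 11) (.e (nat_lit 368662) (nat_lit 18) (.e (nat_lit 7160) (nat_lit 382) .nil)))))) (.g (nat_lit 4) .nil .nil))) 
(.lf (nat_lit 35631) (.g (nat_lit 1388) (.e (nat_lit 1216) (nat_lit 90) (.e (nat_lit 81927) (nat_lit 11) (.e (nat_lit 426342) (nat_lit 14) (.e (nat_lit 491560) (nat_lit 10) (.e (nat_lit 344099) (nat_lit 18) .nil))))) .nil))) (.nd (nat_lit 5) 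
(.lf (nat_lit 35615) (.g (nat_lit 2464) (.e (nat_lit 1216) (nat_lit 90) (.e (nat_lit 81925) (nat_lit 11) (.e (nat_lit 426343) (nat_lit 14) (.e (nat_lit 491546) (nat_lit 9) (.e (nat_lit 335997) (nat_lit 1) .nil))))) .nil)) 
(.lf (nat_lit 35647) (.g (nat_lit 2408) (.e (nat_lit 1216) (nat_lit 90) (.e (nat_lit 81938) (nat_lit 20) (.e (nat_lit 2280) (nat_lit 150) (.e (nat_lit 770057) (nat_lit 5) (.e (nat_lit 1589) (nat_lit 111) (.e (nat_lit 360453) (nat_lit 0) (.e (nat_lit 7147) (nat_lit 382) .nil))))))) (.g (nat_lit 7) .nil .nil)))))))))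

noncomputable def tv497 : DT := (.nd (nat_lit 0) (.nd (nat_lit 1) (.nd (nat_lit 2) (.nd (nat_lit 3) (.nd (nat_lit 4) (.nd (nat_lit 5) 
(.lf (nat_lit 35648) (.g (nat_lit 2462) (.e (nat_lit 1216) (nat_lit 90) (.e (nat_lit 81938) (nat_lit 20) (.e (nat_lit 2280) (nat_lit 150) (.e (nat_lit 770057) (nat_lit 5) (.e (nat_lit 1595) (nat_lit 111) (.e (nat_lit 360453) (nat_lit 0) (.e (nat_lit 7147) (nat_lit 382) .nil))))))) (.g (nat_lit 7) .nil .nil))) 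
(.lf (nat_lit 35680) (.g (nat_lit 1206) (.e (nat_lit 1216) (nat_lit 90) (.e (nat_lit 81948) (nat_lit 21) (.e (nat_lit 57683) (nat_lit 155) (.e (nat_lit 122917) (nat_lit 15) (.e (nat_lit 368384) (nat_lit 0) .nil))))) .nil))) (.nd (nat_lit 5) 
(.lf (nat_lit 35664) (.g (nat_lit 2329) (.e (nat_lit 1216) (nat_lit 90) (.e (nat_lit 81938) (nat_lit 20) (.e (nat_lit 2281) (nat_lit 150) (.e (nat_lit 770074) (nat_lit 10) (.e (nat_lit 81950) (nat_lit 21) (.e (nat_lit 57654) (nat_lit 152) .nil)))))) (.g (nat_lit 5) .nil .nil))) 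
(.lf (nat_lit 35696) (.g (nat_lit 1809) (.e (nat_lit 1216) (nat_lit 90) (.e (nat_lit 81950) (nat_lit 21) (.e (nat_lit 57681) (nat_lit 155) (.e (nat_lit 122919) (nat_lit 15) .nil)))) .nil)))) (.nd (nat_lit 4) (.nd (nat_lit 5) 
(.lf (nat_lit 35656) (.g (nat_lit 2011) (.e (nat_lit 1216) (nat_lit 90) (.e (nat_lit 81938) (nat_lit 20) (.e (nat_lit 2280) (nat_lit 150) (.e (nat_lit 770074) (nat_lit 10) (.e (nat_lit 81950) (nat_lit 21) (.e (nat_lit 57655) (nat_lit 152) .nil)))))) (.g (nat_lit 5) .nil .nil))) 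
(.lf (nat_lit 35688) (.g (nat_lit 664) (.e (nat_lit 1216) (nat_lit 90) (.e (nat_lit 81950) (nat_lit 21) (.e (nat_lit 57660) (nat_lit 152) .nil))) .nil))) (.nd (nat_lit 5) 
(.lf (nat_lit 35672) (.g (nat_lit 2590) (.e (nat_lit 1216) (nat_lit 90) (.e (nat_lit 81943) (nat_lit 20) (.e (nat_lit 2281) (nat_lit 150) (.e (nat_lit 770074) (nat_lit 10) (.e (nat_lit 81959) (nat_lit 24) (.e (nat_lit 123048) (nat_lit 152) .nil)))))) (.g (nat_lit 6) .nil .nil))) 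
(.lf (nat_lit 35704) (.g (nat_lit 902) (.e (nat_lit 1216) (nat_lit 90) (.e (nat_lit 81950) (nat_lit 21) (.e (nat_lit 57683) (nat_lit 155) (.e (nat_lit 122919) (nat_lit 15) .nil)))) .nil))))) (.nd (nat_lit 3) (.nd (nat_lit 4) (.nd (nat_lit 5) 
(.lf (nat_lit 35652) (.g (nat_lit 3093) (.e (nat_lit 1216) (nat_lit 90) (.e (nat_lit 81938) (nat_lit 20) (.e (nat_lit 2280) (nat_lit 150) (.e (nat_lit 770071) (nat_lit 8) (.e (nat_lit 65619) (nat_lit 10) (.e (nat_lit 344097) (nat_lit 18) (.e (nat_lit 7147) (nat_lit 382) .nil))))))) (.g (nat_lit 0) .nil .nil))) 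
(.lf (nat_lit 35684) (.g (nat_lit 1655) (.e (nat_lit 1216) (nat_lit 90) (.e (nat_lit 81948) (nat_lit 21) (.e (nat_lit 57684) (nat_lit 155) (.e (nat_lit 122919) (nat_lit 15) (.e (nat_lit 360453) (nat_lit 0) (.e (nat_lit 7147) (nat_lit 382) .nil)))))) (.g (nat_lit 5) .nil .nil)))) (.nd (nat_lit 5) 
(.lf (nat_lit 35668) (.g (nat_lit 2369) (.e (nat_lit 1216) (nat_lit 90) (.e (nat_lit 81939) (nat_lit 20) (.e (nat_lit 2281) (nat_lit 150) (.e (nat_lit 770057) (nat_lit 5) (.e (nat_lit 1598) (nat_lit 111) (.e (nat_lit 360452) (nat_lit 0) (.e (nat_lit 7147) (nat_lit 382) .nil))))))) (.g (nat_lit 7) .nil .nil))) 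
(.lf (nat_lit 35700) (.g (nat_lit 2925) (.e (nat_lit 1216) (nat_lit 90) (.e (nat_lit 81950) (nat_lit 21) (.e (nat_lit 57683) (nat_lit 155) (.e (nat_lit 122916) (nat_lit 14) (.e (nat_lit 352309) (nat_lit 21) (.e (nat_lit 57651) (nat_lit 152) .nil)))))) (.g (nat_lit 5) .nil .nil))))) (.nd (nat_lit 4) (.nd (nat_lit 5) 
(.lf (nat_lit 35660) (.g (nat_lit 1871) (.e (nat_lit 1216) (nat_lit 90) (.e (nat_lit 81938) (nat_lit 20) (.e (nat_lit 2281) (nat_lit 150) (.e (nat_lit 770072) (nat_lit 8) (.e (nat_lit 65583) (nat_lit 7) (.e (nat_lit 319516) (nat_lit 11) (.e (nat_lit 8544) (nat_lit 230) .nil))))))) (.g (nat_lit 4) .nil .nil))) 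
(.lf (nat_lit 35692) (.g (nat_lit 2797) (.e (nat_lit 1216) (nat_lit 90) (.e (nat_lit 81950) (nat_lit 21) (.e (nat_lit 57681) (nat_lit 155) (.e (nat_lit 122916) (nat_lit 14) (.e (nat_lit 352309) (nat_lit 21) (.e (nat_lit 57654) (nat_lit 152) .nil)))))) (.g (nat_lit 4) .nil .nil)))) (.nd (nat_lit 5) 
(.lf (nat_lit 35676) (.g (nat_lit 1850) (.e (nat_lit 1216) (nat_lit 90) (.e (nat_lit 81948) (nat_lit 21) (.e (nat_lit 57683) (nat_lit 155) (.e (nat_lit 122916) (nat_lit 14) (.e (nat_lit 352308) (nat_lit 21) .nil))))) .nil)) 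
(.lf (nat_lit 35708) (.g (nat_lit 1658) (.e (nat_lit 1216) (nat_lit 90) (.e (nat_lit 81950) (nat_lit 21) (.e (nat_lit 57684) (nat_lit 155) (.e (nat_lit 122919) (nat_lit 15) (.e (nat_lit 360452) (nat_lit 0) (.e (nat_lit 7147) (nat_lit 382) .nil)))))) (.g (nat_lit 4) .nil .nil))))))) (.nd (nat_lit 2) (.nd (nat_lit 3) (.nd (nat_lit 4) (.nd (nat_lit 5) 
(.lf (nat_lit 35650) (.g (nat_lit 3156) (.e (nat_lit 1216) (nat_lit 90) (.e (nat_lit 81938) (nat_lit 20) (.e (nat_lit 2280) (nat_lit 150) (.e (nat_lit 770071) (nat_lit 8) (.e (nat_lit 65610) (nat_lit 10) (.e (nat_lit 344097) (nat_lit 18) (.e (nat_lit 7146) (nat_lit 382) .nil))))))) (.g (nat_lit 6) .nil .nil))) 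
(.lf (nat_lit 35682) (.g (nat_lit 2316) (.e (nat_lit 1216) (nat_lit 90) (.e (nat_lit 81948) (nat_lit 21) (.e (nat_lit 57683) (nat_lit 155) (.e (nat_lit 122919) (nat_lit 15) (.e (nat_lit 360454) (nat_lit 0) (.e (nat_lit 7147) (nat_lit 382) .nil)))))) (.g (nat_lit 0) .nil .nil)))) (.nd (nat_lit 5) 
(.lf (nat_lit 35666) (.g (nat_lit 2364) (.e (nat_lit 1216) (nat_lit 90) (.e (nat_lit 81939) (nat_lit 20) (.e (nat_lit 2281) (nat_lit 150) (.e (nat_lit 770056) (nat_lit 5) (.e (nat_lit 1598) (nat_lit 111) (.e (nat_lit 360452) (nat_lit 0) (.e (nat_lit 7147) (nat_lit 382) .nil))))))) (.g (nat_lit 7) .nil .nil))) 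
(.lf (nat_lit 35698) (.g (nat_lit 3303) (.e (nat_lit 1216) (nat_lit 90) (.e (nat_lit 81950) (nat_lit 21) (.e (nat_lit 57681) (nat_lit 155) (.e (nat_lit 122919) (nat_lit 15) (.e (nat_lit 360454) (nat_lit 0) (.e (nat_lit 7147) (nat_lit 382) .nil)))))) (.g (nat_lit 4) .nil .nil))))) (.nd (nat_lit 4) (.nd (nat_lit 5) 
(.lf (nat_lit 35658) (.g (nat_lit 2894) (.e (nat_lit 1216) (nat_lit 90) (.e (nat_lit 81938) (nat_lit 20) (.e (nat_lit 2281) (nat_lit 150) (.e (nat_lit 770058) (nat_lit 5) (.e (nat_lit 1589) (nat_lit 111) (.e (nat_lit 360453) (nat_lit 0) (.e (nat_lit 7147) (nat_lit 382) .nil))))))) (.g (nat_lit 0) .nil .nil))) 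
(.lf (nat_lit 35690) (.g (nat_lit 2011) (.e (nat_lit 1216) (nat_lit 90) (.e (nat_lit 81950) (nat_lit 21) (.e (nat_lit 57681) (nat_lit 155) (.e (nat_lit 122916) (nat_lit 14) .nil)))) .nil))) (.nd (nat_lit 5) 
(.lf (nat_lit 35674) (.g (nat_lit 2103) (.e (nat_lit 1216) (nat_lit 90) (.e (nat_lit 81948) (nat_lit 21) (.e (nat_lit 57655) (nat_lit 152) (.e (nat_lit 1217) (nat_lit 90) (.e (nat_lit 81949) (nat_lit 21) (.e (nat_lit 57655) (nat_lit 152) .nil)))))) (.g (nat_lit 6) .nil .nil))) 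
(.lf (nat_lit 35706) (.g (nat_lit 2822) (.e (nat_lit 1216) (nat_lit 90) (.e (nat_lit 81950) (nat_lit 21) (.e (nat_lit 57684) (nat_lit 155) (.e (nat_lit 122916) (nat_lit 14) (.e (nat_lit 352309) (nat_lit 21) (.e (nat_lit 57653) (nat_lit 152) .nil)))))) (.g (nat_lit 5) .nil .nil)))))) (.nd (nat_lit 3) (.nd (nat_lit 4) (.nd (nat_lit 5) 
(.lf (nat_lit 35654) (.g (nat_lit 3538) (.e (nat_lit 1216) (nat_lit 90) (.e (nat_lit 81938) (nat_lit 20) (.e (nat_lit 2280) (nat_lit 150) (.e (nat_lit 770072) (nat_lit 8) (.e (nat_lit 65610) (nat_lit 10) (.e (nat_lit 344097) (nat_lit 18) (.e (nat_lit 7147) (nat_lit 382) .nil))))))) (.g (nat_lit 0) .nil .nil))) 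
(.lf (nat_lit 35686) (.g (nat_lit 592) (.e (nat_lit 1216) (nat_lit 90) (.e (nat_lit 81950) (nat_lit 21) (.e (nat_lit 57654) (nat_lit 152) .nil))) .nil))) (.nd (nat_lit 5) 
(.lf (nat_lit 35670) (.g (nat_lit 3397) (.e (nat_lit 1216) (nat_lit 90) (.e (nat_lit 81943) (nat_lit 20) (.e (nat_lit 2281) (nat_lit 150) (.e (nat_lit 770072) (nat_lit 8) (.e (nat_lit 65610) (nat_lit 10) (.e (nat_lit 344097) (nat_lit 18) (.e (nat_lit 7146) (nat_lit 382) .nil))))))) (.g (nat_lit 7) .nil .nil))) 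
(.lf (nat_lit 35702) (.g (nat_lit 3235) (.e (nat_lit 1216) (nat_lit 90) (.e (nat_lit 81950) (nat_lit 21) (.e (nat_lit 57683) (nat_lit 155) (.e (nat_lit 122916) (nat_lit 14) (.e (nat_lit 352309) (nat_lit 21) (.e (nat_lit 57654) (nat_lit 152) .nil)))))) (.g (nat_lit 0) .nil .nil))))) (.nd (nat_lit 4) (.nd (nat_lit 5) 
(.lf (nat_lit 35662) (.g (nat_lit 3810) (.e (nat_lit 1216) (nat_lit 90) (.e (nat_lit 81938) (nat_lit 20) (.e (nat_lit 2281) (nat_lit 150) (.e (nat_lit 770072) (nat_lit 8) (.e (nat_lit 65610) (nat_lit 10) (.e (nat_lit 344097) (nat_lit 18) (.e (nat_lit 7147) (nat_lit 382) .nil))))))) (.g (nat_lit 0) .nil .nil))) 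
(.lf (nat_lit 35694) (.g (nat_lit 3182) (.e (nat_lit 1216) (nat_lit 90) (.e (nat_lit 81950) (nat_lit 21) (.e (nat_lit 57681) (nat_lit 155) (.e (nat_lit 122917) (nat_lit 15) (.e (nat_lit 360452) (nat_lit 0) (.e (nat_lit 7147) (nat_lit 382) .nil)))))) (.g (nat_lit 4) .nil .nil)))) (.nd (nat_lit 5) 
(.lf (nat_lit 35678) (.g (nat_lit 3181) (.e (nat_lit 1216) (nat_lit 90) (.e (nat_lit 81948) (nat_lit 21) (.e (nat_lit 57683) (nat_lit 155) (.e (nat_lit 122916) (nat_lit 14) (.e (nat_lit 352309) (nat_lit 21) (.e (nat_lit 57653) (nat_lit 152) .nil)))))) (.g (nat_lit 0) .nil .nil))) 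
(.lf (nat_lit 35710) (.g (nat_lit 2042) (.e (nat_lit 1216) (nat_lit 90) (.e (nat_lit 81950) (nat_lit 21) (.e (nat_lit 57684) (nat_lit 155) (.e (nat_lit 122919) (nat_lit 15) (.e (nat_lit 360454) (nat_lit 0) (.e (nat_lit 7147) (nat_lit 382) .nil)))))) (.g (nat_lit 6) .nil .nil)))))))) (.nd (nat_lit 1) (.nd (nat_lit 2) (.nd (nat_lit 3) (.nd (nat_lit 4) (.nd (nat_lit 5) 
(.lf (nat_lit 35649) (.g (nat_lit 2624) (.e (nat_lit 1216) (nat_lit 90) (.e (nat_lit 81938) (nat_lit 20) (.e (nat_lit 2280) (nat_lit 150) (.e (nat_lit 770057) (nat_lit 5) (.e (nat_lit 1598) (nat_lit 111) (.e (nat_lit 360452) (nat_lit 0) (.e (nat_lit 7147) (nat_lit 382) .nil))))))) (.g (nat_lit 7) .nil .nil))) 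
(.lf (nat_lit 35681) (.g (nat_lit 762) (.e (nat_lit 1216) (nat_lit 90) (.e (nat_lit 81948) (nat_lit 21) (.e (nat_lit 57683) (nat_lit 155) (.e (nat_lit 122919) (nat_lit 15) .nil)))) .nil))) (.nd (nat_lit 5) 
(.lf (nat_lit 35665) (.g (nat_lit 2839) (.e (nat_lit 1216) (nat_lit 90) (.e (nat_lit 81938) (nat_lit 20) (.e (nat_lit 2281) (nat_lit 150) (.e (nat_lit 770074) (nat_lit 10) (.e (nat_lit 81959) (nat_lit 24) (.e (nat_lit 123048) (nat_lit 152) .nil)))))) (.g (nat_lit 6) .nil .nil))) 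
(.lf (nat_lit 35697) (.g (nat_lit 3406) (.e (nat_lit 1216) (nat_lit 90) (.e (nat_lit 81950) (nat_lit 21) (.e (nat_lit 57681) (nat_lit 155) (.e (nat_lit 122919) (nat_lit 15) (.e (nat_lit 360452) (nat_lit 0) .nil))))) .nil)))) (.nd (nat_lit 4) (.nd (nat_lit 5) 
(.lf (nat_lit 35657) (.g (nat_lit 749) (.e (nat_lit 1216) (nat_lit 90) (.e (nat_lit 81938) (nat_lit 20) (.e (nat_lit 2281) (nat_lit 150) (.e (nat_lit 770057) (nat_lit 5) .nil)))) .nil)) 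
(.lf (nat_lit 35689) (.g (nat_lit 452) (.e (nat_lit 1216) (nat_lit 90) (.e (nat_lit 81950) (nat_lit 21) (.e (nat_lit 57681) (nat_lit 155) .nil))) .nil))) (.nd (nat_lit 5) 
(.lf (nat_lit 35673) (.g (nat_lit 477) (.e (nat_lit 1216) (nat_lit 90) (.e (nat_lit 81948) (nat_lit 21) (.e (nat_lit 57654) (nat_lit 152) .nil))) .nil)) 
(.lf (nat_lit 35705) (.g (nat_lit 2429) (.e (nat_lit 1216) (nat_lit 90) (.e (nat_lit 81950) (nat_lit 21) (.e (nat_lit 57683) (nat_lit 155) (.e (nat_lit 122919) (nat_lit 15) (.e (nat_lit 360453) (nat_lit 0) (.e (nat_lit 7147) (nat_lit 382) .nil)))))) (.g (nat_lit 0) .nil .nil)))))) (.nd (nat_lit 3) (.nd (nat_lit 4) (.nd (nat_lit 5) 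
(.lf (nat_lit 35653) (.g (nat_lit 3369) (.e (nat_lit 1216) (nat_lit 90) (.e (nat_lit 81938) (nat_lit 20) (.e (nat_lit 2280) (nat_lit 150) (.e (nat_lit 770072) (nat_lit 8) (.e (nat_lit 65610) (nat_lit 10) (.e (nat_lit 344097) (nat_lit 18) (.e (nat_lit 7146) (nat_lit 382) .nil))))))) (.g (nat_lit 7) .nil .nil))) 
(.lf (nat_lit 35685) (.g (nat_lit 2088) (.e (nat_lit 1216) (nat_lit 90) (.e (nat_lit 81948) (nat_lit 21) (.e (nat_lit 57847) (nat_lit 252) (.e (nat_lit 57365) (nat_lit 1) (.e (nat_lit 57854) (nat_lit 252) .nil))))) .nil))) (.nd (nat_lit 5) 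
(.lf (nat_lit 35669) (.g (nat_lit 2391) (.e (nat_lit 1216) (nat_lit 90) (.e (nat_lit 81939) (nat_lit 20) (.e (nat_lit 2281) (nat_lit 150) (.e (nat_lit 770058) (nat_lit 5) (.e (nat_lit 1589) (nat_lit 111) (.e (nat_lit 360453) (nat_lit 0) (.e (nat_lit 7147) (nat_lit 382) .nil))))))) (.g (nat_lit 7) .nil .nil))) 
(.lf (nat_lit 35701) (.g (nat_lit 3167) (.e (nat_lit 1216) (nat_lit 90) (.e (nat_lit 81950) (nat_lit 21) (.e (nat_lit 57683) (nat_lit 155) (.e (nat_lit 122916) (nat_lit 14) (.e (nat_lit 352309) (nat_lit 21) (.e (nat_lit 57653) (nat_lit 152) .nil)))))) (.g (nat_lit 0) .nil .nil))))) (.nd (nat_lit 4) (.nd (nat_lit 5) 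
(.lf (nat_lit 35661) (.g (nat_lit 3681) (.e (nat_lit 1216) (nat_lit 90) (.e (nat_lit 81938) (nat_lit 20) (.e (nat_lit 2281) (nat_lit 150) (.e (nat_lit 770072) (nat_lit 8) (.e (nat_lit 65610) (nat_lit 10) (.e (nat_lit 344097) (nat_lit 18) (.e (nat_lit 7146) (nat_lit 382) .nil))))))) (.g (nat_lit 0) .nil .nil))) 
(.lf (nat_lit 35693) (.g (nat_lit 2230) (.e (nat_lit 1216) (nat_lit 90) (.e (nat_lit 81950) (nat_lit 21) (.e (nat_lit 57681) (nat_lit 155) (.e (nat_lit 122917) (nat_lit 15) .nil)))) .nil))) (.nd (nat_lit 5) 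
(.lf (nat_lit 35677) (.g (nat_lit 3037) (.e (nat_lit 1216) (nat_lit 90) (.e (nat_lit 81948) (nat_lit 21) (.e (nat_lit 57683) (nat_lit 155) (.e (nat_lit 122916) (nat_lit 14) (.e (nat_lit 352309) (nat_lit 21) (.e (nat_lit 57651) (nat_lit 152) .nil)))))) (.g (nat_lit 5) .nil .nil))) 
(.lf (nat_lit 35709) (.g (nat_lit 1888) (.e (nat_lit 1216) (nat_lit 90) (.e (nat_lit 81950) (nat_lit 21) (.e (nat_lit 57684) (nat_lit 155) (.e (nat_lit 122919) (nat_lit 15) (.e (nat_lit 360453) (nat_lit 0) (.e (nat_lit 7147) (nat_lit 382) .nil)))))) (.g (nat_lit 5) .nil .nil))))))) (.nd (nat_lit 2) (.nd (nat_lit 3) (.nd (nat_lit 4) (.nd (nat_lit 5) 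
(.lf (nat_lit 35651) (.g (nat_lit 3377) (.e (nat_lit 1216) (nat_lit 90) (.e (nat_lit 81938) (nat_lit 20) (.e (nat_lit 2280) (nat_lit 150) (.e (nat_lit 770071) (nat_lit 8) (.e (nat_lit 65610) (nat_lit 10) (.e (nat_lit 344097) (nat_lit 18) (.e (nat_lit 7147) (nat_lit 382) .nil))))))) (.g (nat_lit 0) .nil .nil))) 
(.lf (nat_lit 35683) (.g (nat_lit 2493) (.e (nat_lit 1216) (nat_lit 90) (.e (nat_lit 81948) (nat_lit 21) (.e (nat_lit 57684) (nat_lit 155) (.e (nat_lit 122916) (nat_lit 14) (.e (nat_lit 352309) (nat_lit 21) (.e (nat_lit 57653) (nat_lit 152) .nil)))))) (.g (nat_lit 5) .nil .nil)))) (.nd (nat_lit 5) 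
(.lf (nat_lit 35667) (.g (nat_lit 2237) (.e (nat_lit 1216) (nat_lit 90) (.e (nat_lit 81939) (nat_lit 20) (.e (nat_lit 2281) (nat_lit 150) (.e (nat_lit 770057) (nat_lit 5) (.e (nat_lit 1595) (nat_lit 111) (.e (nat_lit 360453) (nat_lit 0) (.e (nat_lit 7147) (nat_lit 382) .nil))))))) (.g (nat_lit 7) .nil .nil))) 
(.lf (nat_lit 35699) (.g (nat_lit 1847) (.e (nat_lit 1216) (nat_lit 90) (.e (nat_lit 81950) (nat_lit 21) (.e (nat_lit 57683) (nat_lit 155) (.e (nat_lit 122916) (nat_lit 14) (.e (nat_lit 352308) (nat_lit 21) .nil))))) .nil)))) (.nd (nat_lit 4) (.nd (nat_lit 5) 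
(.lf (nat_lit 35659) (.g (nat_lit 1288) (.e (nat_lit 1216) (nat_lit 90) (.e (nat_lit 81938) (nat_lit 20) (.e (nat_lit 2281) (nat_lit 150) (.e (nat_lit 770058) (nat_lit 5) (.e (nat_lit 1599) (nat_lit 111) .nil))))) .nil)) 
(.lf (nat_lit 35691) (.g (nat_lit 2770) (.e (nat_lit 1216) (nat_lit 90) (.e (nat_lit 81950) (nat_lit 21) (.e (nat_lit 57681) (nat_lit 155) (.e (nat_lit 122916) (nat_lit 14) (.e (nat_lit 352309) (nat_lit 21) .nil))))) .nil))) (.nd (nat_lit 5) 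
(.lf (nat_lit 35675) (.g (nat_lit 2266) (.e (nat_lit 1216) (nat_lit 90) (.e (nat_lit 81948) (nat_lit 21) (.e (nat_lit 57681) (nat_lit 155) (.e (nat_lit 122917) (nat_lit 15) (.e (nat_lit 360453) (nat_lit 0) .nil))))) .nil)) 
(.lf (nat_lit 35707) (.g (nat_lit 2969) (.e (nat_lit 1216) (nat_lit 90) (.e (nat_lit 81950) (nat_lit 21) (.e (nat_lit 57684) (nat_lit 155) (.e (nat_lit 122916) (nat_lit 14) (.e (nat_lit 352309) (nat_lit 21) (.e (nat_lit 57654) (nat_lit 152) .nil)))))) (.g (nat_lit 6) .nil .nil)))))) (.nd (nat_lit 3) (.nd (nat_lit 4) (.nd (nat_lit 5) 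
(.lf (nat_lit 35655) (.g (nat_lit 2897) (.e (nat_lit 1216) (nat_lit 90) (.e (nat_lit 81938) (nat_lit 20) (.e (nat_lit 2280) (nat_lit 150) (.e (nat_lit 770072) (nat_lit 8) (.e (nat_lit 65619) (nat_lit 10) (.e (nat_lit 344097) (nat_lit 18) (.e (nat_lit 7147) (nat_lit 382) .nil))))))) (.g (nat_lit 0) .nil .nil))) 
(.lf (nat_lit 35687) (.g (nat_lit 2282) (.e (nat_lit 1216) (nat_lit 90) (.e (nat_lit 81950) (nat_lit 21) (.e (nat_lit 57655) (nat_lit 152) (.e (nat_lit 1217) (nat_lit 90) (.e (nat_lit 81949) (nat_lit 21) (.e (nat_lit 57655) (nat_lit 152) .nil)))))) (.g (nat_lit 6) .nil .nil)))) (.nd (nat_lit 5) 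
(.lf (nat_lit 35671) (.g (nat_lit 2066) (.e (nat_lit 1216) (nat_lit 90) (.e (nat_lit 81943) (nat_lit 20) (.e (nat_lit 2281) (nat_lit 150) (.e (nat_lit 770074) (nat_lit 10) (.e (nat_lit 81950) (nat_lit 21) (.e (nat_lit 57654) (nat_lit 152) .nil)))))) (.g (nat_lit 5) .nil .nil))) 
(.lf (nat_lit 35703) (.g (nat_lit 1362) (.e (nat_lit 1216) (nat_lit 90) (.e (nat_lit 81950) (nat_lit 21) (.e (nat_lit 57683) (nat_lit 155) (.e (nat_lit 122917) (nat_lit 15) (.e (nat_lit 368384) (nat_lit 0) .nil))))) .nil)))) (.nd (nat_lit 4) (.nd (nat_lit 5) 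
(.lf (nat_lit 35663) (.g (nat_lit 3242) (.e (nat_lit 1216) (nat_lit 90) (.e (nat_lit 81938) (nat_lit 20) (.e (nat_lit 2281) (nat_lit 150) (.e (nat_lit 770072) (nat_lit 8) (.e (nat_lit 65619) (nat_lit 10) (.e (nat_lit 344097) (nat_lit 18) (.e (nat_lit 7147) (nat_lit 382) .nil))))))) (.g (nat_lit 0) .nil .nil))) 
(.lf (nat_lit 35695) (.g (nat_lit 3557) (.e (nat_lit 1216) (nat_lit 90) (.e (nat_lit 81950) (nat_lit 21) (.e (nat_lit 57681) (nat_lit 155) (.e (nat_lit 122917) (nat_lit 15) (.e (nat_lit 360453) (nat_lit 0) (.e (nat_lit 7147) (nat_lit 382) .nil)))))) (.g (nat_lit 5) .nil .nil)))) (.nd (nat_lit 5) 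
(.lf (nat_lit 35679) (.g (nat_lit 3241) (.e (nat_lit 1216) (nat_lit 90) (.e (nat_lit 81948) (nat_lit 21) (.e (nat_lit 57683) (nat_lit 155) (.e (nat_lit 122916) (nat_lit 14) (.e (nat_lit 352309) (nat_lit 21) (.e (nat_lit 57654) (nat_lit 152) .nil)))))) (.g (nat_lit 0) .nil .nil))) 
(.lf (nat_lit 35711) (.g (nat_lit 1756) (.e (nat_lit 1216) (nat_lit 90) (.e (nat_lit 81950) (nat_lit 21) (.e (nat_lit 57872) (nat_lit 264) (.e (nat_lit 1221) (nat_lit 90) (.e (nat_lit 81959) (nat_lit 24) .nil))))) .nil))))))))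


end

end Pool.Agent.Lib.MP_5854e1_co.Cz
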