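import Pool.Agent.Lib.MP_5854e1_co.DtD

/-!
# Windows and cells of the rings
-/

set_option autoImplicit false
set_option maxRecDepth 100000
set_option deprecated.oldSectionVars true

namespace Pool.Agent.Lib.MP_5854e1_co.Cz

open Pool.Agent.Lib.MP_5854e1_co

noncomputable section

noncomputable def tv498 : DT := (.nd (nat_lit 0) (.nd (nat_lit 1) (.nd (nat_lit 2) (.nd (nat_lit 3) (.nd (nat_lit 4) (.nd (nat_lit 5) 
(.lf (nat_lit 35712) (.g (nat_lit 2515) (.e (nat_lit 1216) (nat_lit 90) (.e (nat_lit 81954) (nat_lit 23) (.e (nat_lit 98313) (nat_lit 9) (.e (nat_lit 335986) (nat_lit 1) (.e (nat_lit 57847) (nat_lit 252) (.e (nat_lit 57365) (nat_lit 1) (.e (nat_lit 65280) (nat_lit 209) .nil))))))) (.g (nat_lit 5) .nil .nil))) 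
(.lf (nat_lit 35744) (.g (nat_lit 4455) (.e (nat_lit 1216) (nat_lit 90) (.e (nat_lit 81956) (nat_lit 23) (.e (nat_lit 98320) (nat_lit 17) (.e (nat_lit 7593) (nat_lit 407) (.e (nat_lit 73729) (nat_lit 0) (.e (nat_lit 3928) (nat_lit 239) .nil)))))) (.g (nat_lit 6) .nil .nil)))) (.nd (nat_lit 5) 
(.lf (nat_lit 35728) (.g (nat_lit 2217) (.e (nat_lit 1216) (nat_lit 90) (.e (nat_lit 81954) (nat_lit 23) (.e (nat_lit 98389) (nat_lit 33) (.e (nat_lit 491560) (nat_lit 10) (.e (nat_lit 344089) (nat_lit 18) .nil))))) .nil)) 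
(.lf (nat_lit 35760) (.g (nat_lit 4507) (.e (nat_lit 1216) (nat_lit 90) (.e (nat_lit 81956) (nat_lit 23) (.e (nat_lit 98389) (nat_lit 33) (.e (nat_lit 491560) (nat_lit 10) (.e (nat_lit 344096) (nat_lit 18) (.e (nat_lit 3928) (nat_lit 239) .nil)))))) (.g (nat_lit 5) .nil .nil))))) (.nd (nat_lit 4) (.nd (nat_lit 5) 
(.lf (nat_lit 35720) (.g (nat_lit 670) (.e (nat_lit 1216) (nat_lit 90) (.e (nat_lit 81954) (nat_lit 23) (.e (nat_lit 98319) (nat_lit 17) .nil))) .nil)) 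
(.lf (nat_lit 35752) (.g (nat_lit 3157) (.e (nat_lit 1216) (nat_lit 90) (.e (nat_lit 81956) (nat_lit 23) (.e (nat_lit 98389) (nat_lit 33) (.e (nat_lit 491558) (nat_lit 10) (.e (nat_lit 344096) (nat_lit 18) (.e (nat_lit 3928) (nat_lit 239) .nil)))))) (.g (nat_lit 4) .nil .nil)))) (.nd (nat_lit 5) 
(.lf (nat_lit 35736) (.g (nat_lit 2795) (.e (nat_lit 1216) (nat_lit 90) (.e (nat_lit 81956) (nat_lit 23) (.e (nat_lit 98313) (nat_lit 9) (.e (nat_lit 335995) (nat_lit 1) (.e (nat_lit 57847) (nat_lit 252) (.e (nat_lit 57368) (nat_lit 1) (.e (nat_lit 65280) (nat_lit 209) .nil))))))) (.g (nat_lit 4) .nil .nil))) 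
(.lf (nat_lit 35768) (.g (nat_lit 2340) (.e (nat_lit 1216) (nat_lit 90) (.e (nat_lit 81959) (nat_lit 24) (.e (nat_lit 123056) (nat_lit 155) (.e (nat_lit 122916) (nat_lit 14) (.e (nat_lit 352309) (nat_lit 21) (.e (nat_lit 57654) (nat_lit 152) .nil)))))) (.g (nat_lit 4) .nil .nil)))))) (.nd (nat_lit 3) (.nd (nat_lit 4) (.nd (nat_lit 5) 
(.lf (nat_lit 35716) (.g (nat_lit 2596) (.e (nat_lit 1216) (nat_lit 90) (.e (nat_lit 81954) (nat_lit 23) (.e (nat_lit 98313) (nat_lit 9) (.e (nat_lit 335995) (nat_lit 1) (.e (nat_lit 57848) (nat_lit 252) (.e (nat_lit 57367) (nat_lit 1) (.e (nat_lit 65280) (nat_lit 209) .nil))))))) (.g (nat_lit 6) .nil .nil))) 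
(.lf (nat_lit 35748) (.g (nat_lit 3361) (.e (nat_lit 1216) (nat_lit 90) (.e (nat_lit 81956) (nat_lit 23) (.e (nat_lit 98384) (nat_lit 32) (.e (nat_lit 475214) (nat_lit 42) (.e (nat_lit 720930) (nat_lit 21) .nil))))) .nil))) (.nd (nat_lit 5) 
(.lf (nat_lit 35732) (.g (nat_lit 3319) (.e (nat_lit 1216) (nat_lit 90) (.e (nat_lit 81956) (nat_lit 23) (.e (nat_lit 98313) (nat_lit 9) (.e (nat_lit 335986) (nat_lit 1) (.e (nat_lit 57847) (nat_lit 252) (.e (nat_lit 57365) (nat_lit 1) (.e (nat_lit 65280) (nat_lit 209) .nil))))))) (.g (nat_lit 5) .nil .nil))) 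
(.lf (nat_lit 35764) (.g (nat_lit 3085) (.e (nat_lit 1216) (nat_lit 90) (.e (nat_lit 81957) (nat_lit 24) (.e (nat_lit 123195) (nat_lit 266) (.e (nat_lit 57427) (nat_lit 15) (.e (nat_lit 360451) (nat_lit 0) (.e (nat_lit 7936) (nat_lit 320) .nil)))))) (.g (nat_lit 5) .nil .nil))))) (.nd (nat_lit 4) (.nd (nat_lit 5) 
(.lf (nat_lit 35724) (.g (nat_lit 3246) (.e (nat_lit 1216) (nat_lit 90) (.e (nat_lit 81954) (nat_lit 23) (.e (nat_lit 98384) (nat_lit 32) (.e (nat_lit 475214) (nat_lit 42) (.e (nat_lit 720929) (nat_lit 21) .nil))))) .nil)) 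
(.lf (nat_lit 35756) (.g (nat_lit 4318) (.e (nat_lit 1216) (nat_lit 90) (.e (nat_lit 81956) (nat_lit 23) (.e (nat_lit 98389) (nat_lit 33) (.e (nat_lit 491560) (nat_lit 10) (.e (nat_lit 344090) (nat_lit 18) (.e (nat_lit 3928) (nat_lit 239) .nil)))))) (.g (nat_lit 5) .nil .nil)))) (.nd (nat_lit 5) 
(.lf (nat_lit 35740) (.g (nat_lit 3183) (.e (nat_lit 1216) (nat_lit 90) (.e (nat_lit 81956) (nat_lit 23) (.e (nat_lit 98313) (nat_lit 9) (.e (nat_lit 335995) (nat_lit 1) (.e (nat_lit 57849) (nat_lit 252) (.e (nat_lit 57367) (nat_lit 1) (.e (nat_lit 65280) (nat_lit 209) .nil))))))) (.g (nat_lit 4) .nil .nil))) 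
(.lf (nat_lit 35772) (.g (nat_lit 3494) (.e (nat_lit 1216) (nat_lit 90) (.e (nat_lit 81959) (nat_lit 24) (.e (nat_lit 123195) (nat_lit 266) (.e (nat_lit 57427) (nat_lit 15) (.e (nat_lit 360451) (nat_lit 0) (.e (nat_lit 7936) (nat_lit 320) .nil)))))) (.g (nat_lit 5) .nil .nil))))))) (.nd (nat_lit 2) (.nd (nat_lit 3) (.nd (nat_lit 4) (.nd (nat_lit 5) 
(.lf (nat_lit 35714) (.g (nat_lit 2209) (.e (nat_lit 1216) (nat_lit 90) (.e (nat_lit 81954) (nat_lit 23) (.e (nat_lit 98313) (nat_lit 9) (.e (nat_lit 335995) (nat_lit 1) (.e (nat_lit 57847) (nat_lit 252) (.e (nat_lit 57367) (nat_lit 1) (.e (nat_lit 65280) (nat_lit 209) .nil))))))) (.g (nat_lit 4) .nil .nil))) 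
(.lf (nat_lit 35746) (.g (nat_lit 708) (.e (nat_lit 1216) (nat_lit 90) (.e (nat_lit 81956) (nat_lit 23) (.e (nat_lit 98356) (nat_lit 26) .nil))) .nil))) (.nd (nat_lit 5) 
(.lf (nat_lit 35730) (.g (nat_lit 1906) (.e (nat_lit 1216) (nat_lit 90) (.e (nat_lit 81954) (nat_lit 23) (.e (nat_lit 98389) (nat_lit 33) (.e (nat_lit 491560) (nat_lit 10) (.e (nat_lit 344094) (nat_lit 18) .nil))))) .nil)) 
(.lf (nat_lit 35762) (.g (nat_lit 3932) (.e (nat_lit 1216) (nat_lit 90) (.e (nat_lit 81956) (nat_lit 23) (.e (nat_lit 98389) (nat_lit 33) (.e (nat_lit 491563) (nat_lit 12) (.e (nat_lit 385045) (nat_lit 21) .nil))))) .nil)))) (.nd (nat_lit 4) (.nd (nat_lit 5) 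
(.lf (nat_lit 35722) (.g (nat_lit 3705) (.e (nat_lit 1216) (nat_lit 90) (.e (nat_lit 81954) (nat_lit 23) (.e (nat_lit 98356) (nat_lit 26) (.e (nat_lit 426448) (nat_lit 20) (.e (nat_lit 114710) (nat_lit 21) .nil))))) .nil)) 
(.lf (nat_lit 35754) (.g (nat_lit 3607) (.e (nat_lit 1216) (nat_lit 90) (.e (nat_lit 81956) (nat_lit 23) (.e (nat_lit 98389) (nat_lit 33) (.e (nat_lit 491560) (nat_lit 10) (.e (nat_lit 344088) (nat_lit 18) (.e (nat_lit 3928) (nat_lit 239) .nil)))))) (.g (nat_lit 4) .nil .nil)))) (.nd (nat_lit 5) 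
(.lf (nat_lit 35738) (.g (nat_lit 3450) (.e (nat_lit 1216) (nat_lit 90) (.e (nat_lit 81956) (nat_lit 23) (.e (nat_lit 98313) (nat_lit 9) (.e (nat_lit 335995) (nat_lit 1) (.e (nat_lit 57848) (nat_lit 252) (.e (nat_lit 57367) (nat_lit 1) (.e (nat_lit 65280) (nat_lit 209) .nil))))))) (.g (nat_lit 6) .nil .nil))) 
(.lf (nat_lit 35770) (.g (nat_lit 477) (.e (nat_lit 1216) (nat_lit 90) (.e (nat_lit 81959) (nat_lit 24) (.e (nat_lit 123182) (nat_lit 264) .nil))) .nil))))) (.nd (nat_lit 3) (.nd (nat_lit 4) (.nd (nat_lit 5) 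
(.lf (nat_lit 35718) (.g (nat_lit 3332) (.e (nat_lit 1216) (nat_lit 90) (.e (nat_lit 81954) (nat_lit 23) (.e (nat_lit 98317) (nat_lit 9) (.e (nat_lit 335986) (nat_lit 1) (.e (nat_lit 57847) (nat_lit 252) (.e (nat_lit 57365) (nat_lit 1) (.e (nat_lit 65280) (nat_lit 209) .nil))))))) (.g (nat_lit 4) .nil .nil))) 
(.lf (nat_lit 35750) (.g (nat_lit 3610) (.e (nat_lit 1216) (nat_lit 90) (.e (nat_lit 81956) (nat_lit 23) (.e (nat_lit 98389) (nat_lit 33) (.e (nat_lit 491546) (nat_lit 9) (.e (nat_lit 335997) (nat_lit 1) (.e (nat_lit 65280) (nat_lit 140) .nil)))))) (.g (nat_lit 5) .nil .nil)))) (.nd (nat_lit 5) 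
(.lf (nat_lit 35734) (.g (nat_lit 3922) (.e (nat_lit 1216) (nat_lit 90) (.e (nat_lit 81956) (nat_lit 23) (.e (nat_lit 98313) (nat_lit 9) (.e (nat_lit 335995) (nat_lit 1) (.e (nat_lit 57847) (nat_lit 252) (.e (nat_lit 57365) (nat_lit 1) (.e (nat_lit 65280) (nat_lit 209) .nil))))))) (.g (nat_lit 6) .nil .nil))) 
(.lf (nat_lit 35766) (.g (nat_lit 1983) (.e (nat_lit 1216) (nat_lit 90) (.e (nat_lit 81957) (nat_lit 24) (.e (nat_lit 123197) (nat_lit 266) (.e (nat_lit 57436) (nat_lit 17) (.e (nat_lit 376860) (nat_lit 21) .nil))))) .nil)))) (.nd (nat_lit 4) (.nd (nat_lit 5) 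
(.lf (nat_lit 35726) (.g (nat_lit 1580) (.e (nat_lit 1216) (nat_lit 90) (.e (nat_lit 81954) (nat_lit 23) (.e (nat_lit 98389) (nat_lit 33) (.e (nat_lit 491546) (nat_lit 9) (.e (nat_lit 335997) (nat_lit 1) (.e (nat_lit 65280) (nat_lit 140) .nil)))))) (.g (nat_lit 4) .nil .nil))) 
(.lf (nat_lit 35758) (.g (nat_lit 3859) (.e (nat_lit 1216) (nat_lit 90) (.e (nat_lit 81956) (nat_lit 23) (.e (nat_lit 98389) (nat_lit 33) (.e (nat_lit 491560) (nat_lit 10) (.e (nat_lit 344094) (nat_lit 18) (.e (nat_lit 3928) (nat_lit 239) .nil)))))) (.g (nat_lit 5) .nil .nil)))) (.nd (nat_lit 5) 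
(.lf (nat_lit 35742) (.g (nat_lit 4381) (.e (nat_lit 1216) (nat_lit 90) (.e (nat_lit 81956) (nat_lit 23) (.e (nat_lit 98320) (nat_lit 17) (.e (nat_lit 7591) (nat_lit 407) (.e (nat_lit 73729) (nat_lit 0) (.e (nat_lit 3928) (nat_lit 239) .nil)))))) (.g (nat_lit 5) .nil .nil))) 
(.lf (nat_lit 35774) (.g (nat_lit 1378) (.e (nat_lit 1216) (nat_lit 90) (.e (nat_lit 81963) (nat_lit 26) (.e (nat_lit 147492) (nat_lit 11) (.e (nat_lit 24643) (nat_lit 11) (.e (nat_lit 368662) (nat_lit 18) (.e (nat_lit 7147) (nat_lit 382) .nil)))))) (.g (nat_lit 5) .nil .nil)))))))) (.nd (nat_lit 1) (.nd (nat_lit 2) (.nd (nat_lit 3) (.nd (nat_lit 4) (.nd (nat_lit 5) 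
(.lf (nat_lit 35713) (.g (nat_lit 1962) (.e (nat_lit 1216) (nat_lit 90) (.e (nat_lit 81954) (nat_lit 23) (.e (nat_lit 98313) (nat_lit 9) (.e (nat_lit 335995) (nat_lit 1) (.e (nat_lit 57847) (nat_lit 252) .nil))))) .nil)) 
(.lf (nat_lit 35745) (.g (nat_lit 1269) (.e (nat_lit 1216) (nat_lit 90) (.e (nat_lit 81956) (nat_lit 23) (.e (nat_lit 98350) (nat_lit 24) .nil))) .nil))) (.nd (nat_lit 5) 
(.lf (nat_lit 35729) (.g (nat_lit 2489) (.e (nat_lit 1216) (nat_lit 90) (.e (nat_lit 81954) (nat_lit 23) (.e (nat_lit 98389) (nat_lit 33) (.e (nat_lit 491560) (nat_lit 10) (.e (nat_lit 344090) (nat_lit 18) (.e (nat_lit 3928) (nat_lit 239) .nil)))))) (.g (nat_lit 4) .nil .nil))) 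
(.lf (nat_lit 35761) (.g (nat_lit 2253) (.e (nat_lit 1216) (nat_lit 90) (.e (nat_lit 81956) (nat_lit 23) (.e (nat_lit 98389) (nat_lit 33) (.e (nat_lit 491560) (nat_lit 10) (.e (nat_lit 344099) (nat_lit 18) .nil))))) .nil)))) (.nd (nat_lit 4) (.nd (nat_lit 5) 
(.lf (nat_lit 35721) (.g (nat_lit 1529) (.e (nat_lit 1216) (nat_lit 90) (.e (nat_lit 81954) (nat_lit 23) (.e (nat_lit 98356) (nat_lit 26) (.e (nat_lit 426448) (nat_lit 20) .nil)))) .nil)) 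
(.lf (nat_lit 35753) (.g (nat_lit 3963) (.e (nat_lit 1216) (nat_lit 90) (.e (nat_lit 81956) (nat_lit 23) (.e (nat_lit 98389) (nat_lit 33) (.e (nat_lit 491560) (nat_lit 10) (.e (nat_lit 344088) (nat_lit 18) (.e (nat_lit 3920) (nat_lit 239) .nil)))))) (.g (nat_lit 5) .nil .nil)))) (.nd (nat_lit 5) 
(.lf (nat_lit 35737) (.g (nat_lit 2635) (.e (nat_lit 1216) (nat_lit 90) (.e (nat_lit 81956) (nat_lit 23) (.e (nat_lit 98313) (nat_lit 9) (.e (nat_lit 335995) (nat_lit 1) (.e (nat_lit 57848) (nat_lit 252) (.e (nat_lit 57365) (nat_lit 1) (.e (nat_lit 65280) (nat_lit 209) .nil))))))) (.g (nat_lit 4) .nil .nil))) 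
(.lf (nat_lit 35769) (.g (nat_lit 607) (.e (nat_lit 1216) (nat_lit 90) (.e (nat_lit 81959) (nat_lit 24) (.e (nat_lit 123161) (nat_lit 255) .nil))) .nil))))) (.nd (nat_lit 3) (.nd (nat_lit 4) (.nd (nat_lit 5) 
(.lf (nat_lit 35717) (.g (nat_lit 2358) (.e (nat_lit 1216) (nat_lit 90) (.e (nat_lit 81954) (nat_lit 23) (.e (nat_lit 98313) (nat_lit 9) (.e (nat_lit 335995) (nat_lit 1) (.e (nat_lit 57849) (nat_lit 252) .nil))))) .nil)) 
(.lf (nat_lit 35749) (.g (nat_lit 3083) (.e (nat_lit 1216) (nat_lit 90) (.e (nat_lit 81956) (nat_lit 23) (.e (nat_lit 98388) (nat_lit 33) (.e (nat_lit 491566) (nat_lit 12) (.e (nat_lit 385045) (nat_lit 21) .nil))))) .nil))) (.nd (nat_lit 5) 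
(.lf (nat_lit 35733) (.g (nat_lit 2579) (.e (nat_lit 1216) (nat_lit 90) (.e (nat_lit 81956) (nat_lit 23) (.e (nat_lit 98313) (nat_lit 9) (.e (nat_lit 335986) (nat_lit 1) (.e (nat_lit 57847) (nat_lit 252) (.e (nat_lit 57367) (nat_lit 1) (.e (nat_lit 65280) (nat_lit 209) .nil))))))) (.g (nat_lit 4) .nil .nil))) 
(.lf (nat_lit 35765) (.g (nat_lit 1414) (.e (nat_lit 1216) (nat_lit 90) (.e (nat_lit 81957) (nat_lit 24) (.e (nat_lit 123197) (nat_lit 266) (.e (nat_lit 57427) (nat_lit 15) .nil)))) .nil)))) (.nd (nat_lit 4) (.nd (nat_lit 5) 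
(.lf (nat_lit 35725) (.g (nat_lit 3121) (.e (nat_lit 1216) (nat_lit 90) (.e (nat_lit 81954) (nat_lit 23) (.e (nat_lit 98384) (nat_lit 32) (.e (nat_lit 475214) (nat_lit 42) (.e (nat_lit 720930) (nat_lit 21) .nil))))) .nil)) 
(.lf (nat_lit 35757) (.g (nat_lit 3944) (.e (nat_lit 1216) (nat_lit 90) (.e (nat_lit 81956) (nat_lit 23) (.e (nat_lit 98389) (nat_lit 33) (.e (nat_lit 491560) (nat_lit 10) (.e (nat_lit 344091) (nat_lit 18) (.e (nat_lit 3928) (nat_lit 239) .nil)))))) (.g (nat_lit 5) .nil .nil)))) (.nd (nat_lit 5) 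
(.lf (nat_lit 35741) (.g (nat_lit 868) (.e (nat_lit 1216) (nat_lit 90) (.e (nat_lit 81956) (nat_lit 23) (.e (nat_lit 98320) (nat_lit 17) .nil))) .nil)) 
(.lf (nat_lit 35773) (.g (nat_lit 1355) (.e (nat_lit 1216) (nat_lit 90) (.e (nat_lit 81963) (nat_lit 26) (.e (nat_lit 147492) (nat_lit 11) (.e (nat_lit 24628) (nat_lit 9) (.e (nat_lit 336000) (nat_lit 1) (.e (nat_lit 57654) (nat_lit 152) .nil)))))) (.g (nat_lit 4) .nil .nil))))))) (.nd (nat_lit 2) (.nd (nat_lit 3) (.nd (nat_lit 4) (.nd (nat_lit 5) 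
(.lf (nat_lit 35715) (.g (nat_lit 1781) (.e (nat_lit 1216) (nat_lit 90) (.e (nat_lit 81954) (nat_lit 23) (.e (nat_lit 98313) (nat_lit 9) (.e (nat_lit 335995) (nat_lit 1) (.e (nat_lit 57848) (nat_lit 252) (.e (nat_lit 57365) (nat_lit 1) (.e (nat_lit 65280) (nat_lit 209) .nil))))))) (.g (nat_lit 4) .nil .nil))) 
(.lf (nat_lit 35747) (.g (nat_lit 3465) (.e (nat_lit 1216) (nat_lit 90) (.e (nat_lit 81956) (nat_lit 23) (.e (nat_lit 98384) (nat_lit 32) (.e (nat_lit 475214) (nat_lit 42) (.e (nat_lit 720929) (nat_lit 21) .nil))))) .nil))) (.nd (nat_lit 5) 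
(.lf (nat_lit 35731) (.g (nat_lit 975) (.e (nat_lit 1216) (nat_lit 90) (.e (nat_lit 81956) (nat_lit 23) (.e (nat_lit 98309) (nat_lit 0) .nil))) .nil)) 
(.lf (nat_lit 35763) (.g (nat_lit 3933) (.e (nat_lit 1216) (nat_lit 90) (.e (nat_lit 81957) (nat_lit 24) (.e (nat_lit 123195) (nat_lit 266) (.e (nat_lit 57427) (nat_lit 15) (.e (nat_lit 360450) (nat_lit 0) (.e (nat_lit 7936) (nat_lit 320) .nil)))))) (.g (nat_lit 5) .nil .nil))))) (.nd (nat_lit 4) (.nd (nat_lit 5) 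
(.lf (nat_lit 35723) (.g (nat_lit 3748) (.e (nat_lit 1216) (nat_lit 90) (.e (nat_lit 81954) (nat_lit 23) (.e (nat_lit 98356) (nat_lit 26) (.e (nat_lit 426448) (nat_lit 20) (.e (nat_lit 114711) (nat_lit 21) .nil))))) .nil)) 
(.lf (nat_lit 35755) (.g (nat_lit 4002) (.e (nat_lit 1216) (nat_lit 90) (.e (nat_lit 81956) (nat_lit 23) (.e (nat_lit 98389) (nat_lit 33) (.e (nat_lit 491560) (nat_lit 10) (.e (nat_lit 344089) (nat_lit 18) (.e (nat_lit 3920) (nat_lit 239) .nil)))))) (.g (nat_lit 5) .nil .nil)))) (.nd (nat_lit 5) 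
(.lf (nat_lit 35739) (.g (nat_lit 2857) (.e (nat_lit 1216) (nat_lit 90) (.e (nat_lit 81956) (nat_lit 23) (.e (nat_lit 98313) (nat_lit 9) (.e (nat_lit 335995) (nat_lit 1) (.e (nat_lit 57849) (nat_lit 252) (.e (nat_lit 57365) (nat_lit 1) (.e (nat_lit 65280) (nat_lit 209) .nil))))))) (.g (nat_lit 4) .nil .nil))) 
(.lf (nat_lit 35771) (.g (nat_lit 4344) (.e (nat_lit 1216) (nat_lit 90) (.e (nat_lit 81959) (nat_lit 24) (.e (nat_lit 123195) (nat_lit 266) (.e (nat_lit 57427) (nat_lit 15) (.e (nat_lit 360450) (nat_lit 0) (.e (nat_lit 7936) (nat_lit 320) .nil)))))) (.g (nat_lit 5) .nil .nil)))))) (.nd (nat_lit 3) (.nd (nat_lit 4) (.nd (nat_lit 5) 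
(.lf (nat_lit 35719) (.g (nat_lit 2863) (.e (nat_lit 1216) (nat_lit 90) (.e (nat_lit 81954) (nat_lit 23) (.e (nat_lit 98317) (nat_lit 9) (.e (nat_lit 335995) (nat_lit 1) (.e (nat_lit 57847) (nat_lit 252) .nil))))) .nil)) 
(.lf (nat_lit 35751) (.g (nat_lit 3593) (.e (nat_lit 1216) (nat_lit 90) (.e (nat_lit 81956) (nat_lit 23) (.e (nat_lit 98389) (nat_lit 33) (.e (nat_lit 491558) (nat_lit 10) (.e (nat_lit 344091) (nat_lit 18) (.e (nat_lit 3928) (nat_lit 239) .nil)))))) (.g (nat_lit 4) .nil .nil)))) (.nd (nat_lit 5) 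
(.lf (nat_lit 35735) (.g (nat_lit 3052) (.e (nat_lit 1216) (nat_lit 90) (.e (nat_lit 81956) (nat_lit 23) (.e (nat_lit 98313) (nat_lit 9) (.e (nat_lit 335995) (nat_lit 1) (.e (nat_lit 57847) (nat_lit 252) (.e (nat_lit 57367) (nat_lit 1) (.e (nat_lit 65280) (nat_lit 209) .nil))))))) (.g (nat_lit 4) .nil .nil))) 
(.lf (nat_lit 35767) (.g (nat_lit 519) (.e (nat_lit 1216) (nat_lit 90) (.e (nat_lit 81959) (nat_lit 24) (.e (nat_lit 123056) (nat_lit 155) .nil))) .nil)))) (.nd (nat_lit 4) (.nd (nat_lit 5) 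
(.lf (nat_lit 35727) (.g (nat_lit 2018) (.e (nat_lit 1216) (nat_lit 90) (.e (nat_lit 81954) (nat_lit 23) (.e (nat_lit 98389) (nat_lit 33) (.e (nat_lit 491560) (nat_lit 10) (.e (nat_lit 344088) (nat_lit 18) .nil))))) .nil)) 
(.lf (nat_lit 35759) (.g (nat_lit 2942) (.e (nat_lit 1216) (nat_lit 90) (.e (nat_lit 81956) (nat_lit 23) (.e (nat_lit 98389) (nat_lit 33) (.e (nat_lit 491560) (nat_lit 10) (.e (nat_lit 344095) (nat_lit 18) (.e (nat_lit 3928) (nat_lit 239) .nil)))))) (.g (nat_lit 4) .nil .nil)))) (.nd (nat_lit 5) 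
(.lf (nat_lit 35743) (.g (nat_lit 1632) (.e (nat_lit 1216) (nat_lit 90) (.e (nat_lit 81956) (nat_lit 23) (.e (nat_lit 98320) (nat_lit 17) (.e (nat_lit 7593) (nat_lit 407) .nil)))) .nil)) 
(.lf (nat_lit 35775) (.g (nat_lit 1136) (.e (nat_lit 1216) (nat_lit 90) (.e (nat_lit 81963) (nat_lit 26) (.e (nat_lit 147492) (nat_lit 11) (.e (nat_lit 24644) (nat_lit 11) (.e (nat_lit 368662) (nat_lit 18) (.e (nat_lit 7147) (nat_lit 382) .nil)))))) (.g (nat_lit 4) .nil .nil)))))))))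

noncomputable def tv499 : DT := (.nd (nat_lit 0) (.nd (nat_lit 1) (.nd (nat_lit 2) (.nd (nat_lit 3) (.nd (nat_lit 4) (.nd (nat_lit 5) 
(.lf (nat_lit 35776) (.g (nat_lit 1843) (.e (nat_lit 1216) (nat_lit 90) (.e (nat_lit 81963) (nat_lit 26) (.e (nat_lit 147492) (nat_lit 11) (.e (nat_lit 24646) (nat_lit 11) (.e (nat_lit 368662) (nat_lit 18) (.e (nat_lit 7147) (nat_lit 382) .nil)))))) (.g (nat_lit 0) .nil .nil))) 
(.lf (nat_lit 35808) (.g (nat_lit 1441) (.e (nat_lit 1216) (nat_lit 90) (.e (nat_lit 81965) (nat_lit 26) (.e (nat_lit 147492) (nat_lit 11) (.e (nat_lit 24627) (nat_lit 9) (.e (nat_lit 336000) (nat_lit 1) (.e (nat_lit 57654) (nat_lit 152) .nil)))))) (.g (nat_lit 4) .nil .nil)))) (.nd (nat_lit 5) 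
(.lf (nat_lit 35792) (.g (nat_lit 1231) (.e (nat_lit 1216) (nat_lit 90) (.e (nat_lit 81963) (nat_lit 26) (.e (nat_lit 147496) (nat_lit 11) (.e (nat_lit 24636) (nat_lit 9) (.e (nat_lit 335998) (nat_lit 1) (.e (nat_lit 57654) (nat_lit 152) .nil)))))) (.g (nat_lit 4) .nil .nil))) 
(.lf (nat_lit 35824) (.g (nat_lit 1949) (.e (nat_lit 1216) (nat_lit 90) (.e (nat_lit 81965) (nat_lit 26) (.e (nat_lit 147495) (nat_lit 11) (.e (nat_lit 24665) (nat_lit 14) (.e (nat_lit 401420) (nat_lit 1) .nil))))) .nil)))) (.nd (nat_lit 4) (.nd (nat_lit 5) 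
(.lf (nat_lit 35784) (.g (nat_lit 2999) (.e (nat_lit 1216) (nat_lit 90) (.e (nat_lit 81963) (nat_lit 26) (.e (nat_lit 147495) (nat_lit 11) (.e (nat_lit 24638) (nat_lit 9) (.e (nat_lit 335986) (nat_lit 1) (.e (nat_lit 57655) (nat_lit 152) .nil)))))) (.g (nat_lit 0) .nil .nil))) 
(.lf (nat_lit 35816) (.g (nat_lit 2489) (.e (nat_lit 1216) (nat_lit 90) (.e (nat_lit 81965) (nat_lit 26) (.e (nat_lit 147495) (nat_lit 11) (.e (nat_lit 24628) (nat_lit 9) (.e (nat_lit 336000) (nat_lit 1) (.e (nat_lit 57654) (nat_lit 152) .nil)))))) (.g (nat_lit 5) .nil .nil)))) (.nd (nat_lit 5) 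
(.lf (nat_lit 35800) (.g (nat_lit 1046) (.e (nat_lit 1216) (nat_lit 90) (.e (nat_lit 81965) (nat_lit 26) (.e (nat_lit 147463) (nat_lit 9) (.e (nat_lit 336) (nat_lit 26) .nil)))) .nil)) 
(.lf (nat_lit 35832) (.g (nat_lit 2060) (.e (nat_lit 1217) (nat_lit 90) (.e (nat_lit 81922) (nat_lit 0) (.e (nat_lit 3747) (nat_lit 228) (.e (nat_lit 786483) (nat_lit 30) (.e (nat_lit 360451) (nat_lit 0) (.e (nat_lit 7936) (nat_lit 320) .nil)))))) (.g (nat_lit 5) .nil .nil)))))) (.nd (nat_lit 3) (.nd (nat_lit 4) (.nd (nat_lit 5) 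
(.lf (nat_lit 35780) (.g (nat_lit 3199) (.e (nat_lit 1216) (nat_lit 90) (.e (nat_lit 81963) (nat_lit 26) (.e (nat_lit 147495) (nat_lit 11) (.e (nat_lit 24623) (nat_lit 9) (.e (nat_lit 335997) (nat_lit 1) (.e (nat_lit 57655) (nat_lit 152) .nil)))))) (.g (nat_lit 6) .nil .nil))) 
(.lf (nat_lit 35812) (.g (nat_lit 2025) (.e (nat_lit 1216) (nat_lit 90) (.e (nat_lit 81965) (nat_lit 26) (.e (nat_lit 147492) (nat_lit 11) (.e (nat_lit 24646) (nat_lit 11) (.e (nat_lit 368662) (nat_lit 18) (.e (nat_lit 7147) (nat_lit 382) .nil)))))) (.g (nat_lit 0) .nil .nil)))) (.nd (nat_lit 5) 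
(.lf (nat_lit 35796) (.g (nat_lit 553) (.e (nat_lit 1216) (nat_lit 90) (.e (nat_lit 81965) (nat_lit 26) (.e (nat_lit 147463) (nat_lit 9) .nil))) .nil)) 
(.lf (nat_lit 35828) (.g (nat_lit 2307) (.e (nat_lit 1216) (nat_lit 90) (.e (nat_lit 81965) (nat_lit 26) (.e (nat_lit 147496) (nat_lit 11) (.e (nat_lit 24631) (nat_lit 9) (.e (nat_lit 335985) (nat_lit 1) (.e (nat_lit 57655) (nat_lit 152) .nil)))))) (.g (nat_lit 5) .nil .nil))))) (.nd (nat_lit 4) (.nd (nat_lit 5) 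
(.lf (nat_lit 35788) (.g (nat_lit 2262) (.e (nat_lit 1216) (nat_lit 90) (.e (nat_lit 81963) (nat_lit 26) (.e (nat_lit 147495) (nat_lit 11) (.e (nat_lit 24644) (nat_lit 11) (.e (nat_lit 368662) (nat_lit 18) (.e (nat_lit 7147) (nat_lit 382) .nil)))))) (.g (nat_lit 6) .nil .nil))) 
(.lf (nat_lit 35820) (.g (nat_lit 3014) (.e (nat_lit 1216) (nat_lit 90) (.e (nat_lit 81965) (nat_lit 26) (.e (nat_lit 147495) (nat_lit 11) (.e (nat_lit 24640) (nat_lit 10) (.e (nat_lit 344097) (nat_lit 18) (.e (nat_lit 7147) (nat_lit 382) .nil)))))) (.g (nat_lit 0) .nil .nil)))) (.nd (nat_lit 5) 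
(.lf (nat_lit 35804) (.g (nat_lit 3036) (.e (nat_lit 1216) (nat_lit 90) (.e (nat_lit 81965) (nat_lit 26) (.e (nat_lit 147467) (nat_lit 9) (.e (nat_lit 314) (nat_lit 23) (.e (nat_lit 352307) (nat_lit 21) (.e (nat_lit 57655) (nat_lit 152) .nil)))))) (.g (nat_lit 0) .nil .nil))) 
(.lf (nat_lit 35836) (.g (nat_lit 1708) (.e (nat_lit 1217) (nat_lit 90) (.e (nat_lit 81925) (nat_lit 11) (.e (nat_lit 426024) (nat_lit 0) (.e (nat_lit 6989) (nat_lit 377) (.e (nat_lit 2810) (nat_lit 180) (.e (nat_lit 303115) (nat_lit 1) (.e (nat_lit 164149) (nat_lit 152) .nil))))))) (.g (nat_lit 6) .nil .nil))))))) (.nd (nat_lit 2) (.nd (nat_lit 3) (.nd (nat_lit 4) (.nd (nat_lit 5) 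
(.lf (nat_lit 35778) (.g (nat_lit 1902) (.e (nat_lit 1216) (nat_lit 90) (.e (nat_lit 81963) (nat_lit 26) (.e (nat_lit 147495) (nat_lit 11) (.e (nat_lit 24623) (nat_lit 9) (.e (nat_lit 335997) (nat_lit 1) .nil))))) .nil)) 
(.lf (nat_lit 35810) (.g (nat_lit 2229) (.e (nat_lit 1216) (nat_lit 90) (.e (nat_lit 81965) (nat_lit 26) (.e (nat_lit 147492) (nat_lit 11) (.e (nat_lit 24636) (nat_lit 9) (.e (nat_lit 335998) (nat_lit 1) (.e (nat_lit 57655) (nat_lit 152) .nil)))))) (.g (nat_lit 6) .nil .nil)))) (.nd (nat_lit 5) 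
(.lf (nat_lit 35794) (.g (nat_lit 2598) (.e (nat_lit 1216) (nat_lit 90) (.e (nat_lit 81963) (nat_lit 26) (.e (nat_lit 147496) (nat_lit 11) (.e (nat_lit 24640) (nat_lit 10) (.e (nat_lit 344097) (nat_lit 18) (.e (nat_lit 7146) (nat_lit 382) .nil)))))) (.g (nat_lit 6) .nil .nil))) 
(.lf (nat_lit 35826) (.g (nat_lit 1879) (.e (nat_lit 1216) (nat_lit 90) (.e (nat_lit 81965) (nat_lit 26) (.e (nat_lit 147496) (nat_lit 11) (.e (nat_lit 24623) (nat_lit 9) (.e (nat_lit 335997) (nat_lit 1) .nil))))) .nil)))) (.nd (nat_lit 4) (.nd (nat_lit 5) 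
(.lf (nat_lit 35786) (.g (nat_lit 2065) (.e (nat_lit 1216) (nat_lit 90) (.e (nat_lit 81963) (nat_lit 26) (.e (nat_lit 147495) (nat_lit 11) (.e (nat_lit 24640) (nat_lit 10) (.e (nat_lit 344101) (nat_lit 18) .nil))))) .nil)) 
(.lf (nat_lit 35818) (.g (nat_lit 1522) (.e (nat_lit 1216) (nat_lit 90) (.e (nat_lit 81965) (nat_lit 26) (.e (nat_lit 147495) (nat_lit 11) (.e (nat_lit 24636) (nat_lit 9) (.e (nat_lit 335998) (nat_lit 1) (.e (nat_lit 57654) (nat_lit 152) .nil)))))) (.g (nat_lit 4) .nil .nil)))) (.nd (nat_lit 5) 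
(.lf (nat_lit 35802) (.g (nat_lit 995) (.e (nat_lit 1216) (nat_lit 90) (.e (nat_lit 81965) (nat_lit 26) (.e (nat_lit 147465) (nat_lit 9) (.e (nat_lit 334) (nat_lit 26) .nil)))) .nil)) 
(.lf (nat_lit 35834) (.g (nat_lit 1844) (.e (nat_lit 1217) (nat_lit 90) (.e (nat_lit 89856) (nat_lit 10) (.e (nat_lit 417811) (nat_lit 6) (.e (nat_lit 286753) (nat_lit 10) (.e (nat_lit 344097) (nat_lit 18) (.e (nat_lit 7146) (nat_lit 382) .nil)))))) (.g (nat_lit 5) .nil .nil)))))) (.nd (nat_lit 3) (.nd (nat_lit 4) (.nd (nat_lit 5) 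
(.lf (nat_lit 35782) (.g (nat_lit 1683) (.e (nat_lit 1216) (nat_lit 90) (.e (nat_lit 81963) (nat_lit 26) (.e (nat_lit 147495) (nat_lit 11) (.e (nat_lit 24631) (nat_lit 9) (.e (nat_lit 335985) (nat_lit 1) .nil))))) .nil)) 
(.lf (nat_lit 35814) (.g (nat_lit 1632) (.e (nat_lit 1216) (nat_lit 90) (.e (nat_lit 81965) (nat_lit 26) (.e (nat_lit 147493) (nat_lit 11) (.e (nat_lit 24628) (nat_lit 9) (.e (nat_lit 336000) (nat_lit 1) (.e (nat_lit 57655) (nat_lit 152) .nil)))))) (.g (nat_lit 4) .nil .nil)))) (.nd (nat_lit 5) 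
(.lf (nat_lit 35798) (.g (nat_lit 2377) (.e (nat_lit 1216) (nat_lit 90) (.e (nat_lit 81965) (nat_lit 26) (.e (nat_lit 147463) (nat_lit 9) (.e (nat_lit 314) (nat_lit 23) (.e (nat_lit 352307) (nat_lit 21) (.e (nat_lit 57655) (nat_lit 152) .nil)))))) (.g (nat_lit 5) .nil .nil))) 
(.lf (nat_lit 35830) (.g (nat_lit 2865) (.e (nat_lit 1216) (nat_lit 90) (.e (nat_lit 81965) (nat_lit 26) (.e (nat_lit 147496) (nat_lit 11) (.e (nat_lit 24640) (nat_lit 10) (.e (nat_lit 344097) (nat_lit 18) (.e (nat_lit 7146) (nat_lit 382) .nil)))))) (.g (nat_lit 6) .nil .nil))))) (.nd (nat_lit 4) (.nd (nat_lit 5) 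
(.lf (nat_lit 35790) (.g (nat_lit 1910) (.e (nat_lit 1216) (nat_lit 90) (.e (nat_lit 81963) (nat_lit 26) (.e (nat_lit 147496) (nat_lit 11) (.e (nat_lit 24623) (nat_lit 9) (.e (nat_lit 335997) (nat_lit 1) .nil))))) .nil)) 
(.lf (nat_lit 35822) (.g (nat_lit 1303) (.e (nat_lit 1216) (nat_lit 90) (.e (nat_lit 81965) (nat_lit 26) (.e (nat_lit 147495) (nat_lit 11) (.e (nat_lit 24642) (nat_lit 11) (.e (nat_lit 368662) (nat_lit 18) (.e (nat_lit 7147) (nat_lit 382) .nil)))))) (.g (nat_lit 4) .nil .nil)))) (.nd (nat_lit 5) 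
(.lf (nat_lit 35806) (.g (nat_lit 963) (.e (nat_lit 1216) (nat_lit 90) (.e (nat_lit 81965) (nat_lit 26) (.e (nat_lit 147467) (nat_lit 9) (.e (nat_lit 321) (nat_lit 24) .nil)))) .nil)) 
(.lf (nat_lit 35838) (.g (nat_lit 2128) (.e (nat_lit 1217) (nat_lit 90) (.e (nat_lit 81925) (nat_lit 11) (.e (nat_lit 426166) (nat_lit 7) (.e (nat_lit 409645) (nat_lit 18) (.e (nat_lit 303115) (nat_lit 1) (.e (nat_lit 164148) (nat_lit 152) .nil)))))) (.g (nat_lit 5) .nil .nil)))))))) (.nd (nat_lit 1) (.nd (nat_lit 2) (.nd (nat_lit 3) (.nd (nat_lit 4) (.nd (nat_lit 5) 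
(.lf (nat_lit 35777) (.g (nat_lit 2606) (.e (nat_lit 1216) (nat_lit 90) (.e (nat_lit 81963) (nat_lit 26) (.e (nat_lit 147494) (nat_lit 11) (.e (nat_lit 24638) (nat_lit 9) (.e (nat_lit 335986) (nat_lit 1) (.e (nat_lit 57655) (nat_lit 152) .nil)))))) (.g (nat_lit 0) .nil .nil))) 
(.lf (nat_lit 35809) (.g (nat_lit 1812) (.e (nat_lit 1216) (nat_lit 90) (.e (nat_lit 81965) (nat_lit 26) (.e (nat_lit 147492) (nat_lit 11) (.e (nat_lit 24628) (nat_lit 9) (.e (nat_lit 336000) (nat_lit 1) (.e (nat_lit 57654) (nat_lit 152) .nil)))))) (.g (nat_lit 4) .nil .nil)))) (.nd (nat_lit 5) 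
(.lf (nat_lit 35793) (.g (nat_lit 1623) (.e (nat_lit 1216) (nat_lit 90) (.e (nat_lit 81963) (nat_lit 26) (.e (nat_lit 147496) (nat_lit 11) (.e (nat_lit 24637) (nat_lit 9) (.e (nat_lit 335986) (nat_lit 1) (.e (nat_lit 57655) (nat_lit 152) .nil)))))) (.g (nat_lit 4) .nil .nil))) 
(.lf (nat_lit 35825) (.g (nat_lit 289) (.e (nat_lit 1216) (nat_lit 90) (.e (nat_lit 81965) (nat_lit 26) (.e (nat_lit 147496) (nat_lit 11) .nil))) .nil)))) (.nd (nat_lit 4) (.nd (nat_lit 5) 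
(.lf (nat_lit 35785) (.g (nat_lit 2594) (.e (nat_lit 1216) (nat_lit 90) (.e (nat_lit 81963) (nat_lit 26) (.e (nat_lit 147495) (nat_lit 11) (.e (nat_lit 24640) (nat_lit 10) (.e (nat_lit 344097) (nat_lit 18) (.e (nat_lit 7146) (nat_lit 382) .nil)))))) (.g (nat_lit 6) .nil .nil))) 
(.lf (nat_lit 35817) (.g (nat_lit 1739) (.e (nat_lit 1216) (nat_lit 90) (.e (nat_lit 81965) (nat_lit 26) (.e (nat_lit 147495) (nat_lit 11) (.e (nat_lit 24631) (nat_lit 9) (.e (nat_lit 335985) (nat_lit 1) .nil))))) .nil))) (.nd (nat_lit 5) 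
(.lf (nat_lit 35801) (.g (nat_lit 469) (.e (nat_lit 1216) (nat_lit 90) (.e (nat_lit 81965) (nat_lit 26) (.e (nat_lit 147464) (nat_lit 9) .nil))) .nil)) 
(.lf (nat_lit 35833) (.g (nat_lit 1930) (.e (nat_lit 1217) (nat_lit 90) (.e (nat_lit 81922) (nat_lit 0) (.e (nat_lit 3748) (nat_lit 228) (.e (nat_lit 786483) (nat_lit 30) (.e (nat_lit 360451) (nat_lit 0) (.e (nat_lit 7936) (nat_lit 320) .nil)))))) (.g (nat_lit 5) .nil .nil)))))) (.nd (nat_lit 3) (.nd (nat_lit 4) (.nd (nat_lit 5) 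
(.lf (nat_lit 35781) (.g (nat_lit 2116) (.e (nat_lit 1216) (nat_lit 90) (.e (nat_lit 81963) (nat_lit 26) (.e (nat_lit 147495) (nat_lit 11) (.e (nat_lit 24628) (nat_lit 9) (.e (nat_lit 336000) (nat_lit 1) (.e (nat_lit 57654) (nat_lit 152) .nil)))))) (.g (nat_lit 4) .nil .nil))) 
(.lf (nat_lit 35813) (.g (nat_lit 498) (.e (nat_lit 1216) (nat_lit 90) (.e (nat_lit 81965) (nat_lit 26) (.e (nat_lit 147493) (nat_lit 11) .nil))) .nil))) (.nd (nat_lit 5) 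
(.lf (nat_lit 35797) (.g (nat_lit 1143) (.e (nat_lit 1216) (nat_lit 90) (.e (nat_lit 81965) (nat_lit 26) (.e (nat_lit 147463) (nat_lit 9) (.e (nat_lit 249) (nat_lit 21) (.e (nat_lit 336187) (nat_lit 11) .nil))))) .nil)) 
(.lf (nat_lit 35829) (.g (nat_lit 1549) (.e (nat_lit 1216) (nat_lit 90) (.e (nat_lit 81965) (nat_lit 26) (.e (nat_lit 147496) (nat_lit 11) (.e (nat_lit 24636) (nat_lit 9) (.e (nat_lit 335998) (nat_lit 1) (.e (nat_lit 57654) (nat_lit 152) .nil)))))) (.g (nat_lit 4) .nil .nil))))) (.nd (nat_lit 4) (.nd (nat_lit 5) 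
(.lf (nat_lit 35789) (.g (nat_lit 1875) (.e (nat_lit 1216) (nat_lit 90) (.e (nat_lit 81963) (nat_lit 26) (.e (nat_lit 147495) (nat_lit 11) (.e (nat_lit 24665) (nat_lit 14) (.e (nat_lit 401420) (nat_lit 1) .nil))))) .nil)) 
(.lf (nat_lit 35821) (.g (nat_lit 2259) (.e (nat_lit 1216) (nat_lit 90) (.e (nat_lit 81965) (nat_lit 26) (.e (nat_lit 147495) (nat_lit 11) (.e (nat_lit 24640) (nat_lit 10) (.e (nat_lit 344101) (nat_lit 18) .nil))))) .nil))) (.nd (nat_lit 5) 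
(.lf (nat_lit 35805) (.g (nat_lit 3164) (.e (nat_lit 1216) (nat_lit 90) (.e (nat_lit 81965) (nat_lit 26) (.e (nat_lit 147467) (nat_lit 9) (.e (nat_lit 314) (nat_lit 23) (.e (nat_lit 352309) (nat_lit 21) (.e (nat_lit 57655) (nat_lit 152) .nil)))))) (.g (nat_lit 0) .nil .nil))) 
(.lf (nat_lit 35837) (.g (nat_lit 1990) (.e (nat_lit 1217) (nat_lit 90) (.e (nat_lit 81925) (nat_lit 11) (.e (nat_lit 426024) (nat_lit 0) (.e (nat_lit 6989) (nat_lit 377) (.e (nat_lit 2810) (nat_lit 180) (.e (nat_lit 303115) (nat_lit 1) (.e (nat_lit 164150) (nat_lit 152) .nil))))))) (.g (nat_lit 7) .nil .nil))))))) (.nd (nat_lit 2) (.nd (nat_lit 3) (.nd (nat_lit 4) (.nd (nat_lit 5) 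
(.lf (nat_lit 35779) (.g (nat_lit 2239) (.e (nat_lit 1216) (nat_lit 90) (.e (nat_lit 81963) (nat_lit 26) (.e (nat_lit 147495) (nat_lit 11) (.e (nat_lit 24623) (nat_lit 9) (.e (nat_lit 335997) (nat_lit 1) (.e (nat_lit 57651) (nat_lit 152) .nil)))))) (.g (nat_lit 4) .nil .nil))) 
(.lf (nat_lit 35811) (.g (nat_lit 1904) (.e (nat_lit 1216) (nat_lit 90) (.e (nat_lit 81965) (nat_lit 26) (.e (nat_lit 147492) (nat_lit 11) (.e (nat_lit 24645) (nat_lit 11) (.e (nat_lit 368662) (nat_lit 18) (.e (nat_lit 7147) (nat_lit 382) .nil)))))) (.g (nat_lit 6) .nil .nil)))) (.nd (nat_lit 5) 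
(.lf (nat_lit 35795) (.g (nat_lit 2152) (.e (nat_lit 1216) (nat_lit 90) (.e (nat_lit 81963) (nat_lit 26) (.e (nat_lit 147496) (nat_lit 11) (.e (nat_lit 24640) (nat_lit 10) (.e (nat_lit 344101) (nat_lit 18) (.e (nat_lit 7147) (nat_lit 382) .nil)))))) (.g (nat_lit 4) .nil .nil))) 
(.lf (nat_lit 35827) (.g (nat_lit 2114) (.e (nat_lit 1216) (nat_lit 90) (.e (nat_lit 81965) (nat_lit 26) (.e (nat_lit 147496) (nat_lit 11) (.e (nat_lit 24628) (nat_lit 9) (.e (nat_lit 336000) (nat_lit 1) (.e (nat_lit 57654) (nat_lit 152) .nil)))))) (.g (nat_lit 5) .nil .nil))))) (.nd (nat_lit 4) (.nd (nat_lit 5) 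
(.lf (nat_lit 35787) (.g (nat_lit 1243) (.e (nat_lit 1216) (nat_lit 90) (.e (nat_lit 81963) (nat_lit 26) (.e (nat_lit 147495) (nat_lit 11) (.e (nat_lit 24642) (nat_lit 11) (.e (nat_lit 368662) (nat_lit 18) (.e (nat_lit 7147) (nat_lit 382) .nil)))))) (.g (nat_lit 4) .nil .nil))) 
(.lf (nat_lit 35819) (.g (nat_lit 2693) (.e (nat_lit 1216) (nat_lit 90) (.e (nat_lit 81965) (nat_lit 26) (.e (nat_lit 147495) (nat_lit 11) (.e (nat_lit 24640) (nat_lit 10) (.e (nat_lit 344097) (nat_lit 18) (.e (nat_lit 7146) (nat_lit 382) .nil)))))) (.g (nat_lit 5) .nil .nil)))) (.nd (nat_lit 5) 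
(.lf (nat_lit 35803) (.g (nat_lit 2472) (.e (nat_lit 1216) (nat_lit 90) (.e (nat_lit 81965) (nat_lit 26) (.e (nat_lit 147467) (nat_lit 9) (.e (nat_lit 314) (nat_lit 23) (.e (nat_lit 352307) (nat_lit 21) (.e (nat_lit 57654) (nat_lit 152) .nil)))))) (.g (nat_lit 5) .nil .nil))) 
(.lf (nat_lit 35835) (.g (nat_lit 1368) (.e (nat_lit 1217) (nat_lit 90) (.e (nat_lit 81925) (nat_lit 11) (.e (nat_lit 426024) (nat_lit 0) (.e (nat_lit 6989) (nat_lit 377) (.e (nat_lit 2810) (nat_lit 180) (.e (nat_lit 303115) (nat_lit 1) (.e (nat_lit 164148) (nat_lit 152) .nil))))))) (.g (nat_lit 5) .nil .nil)))))) (.nd (nat_lit 3) (.nd (nat_lit 4) (.nd (nat_lit 5) 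
(.lf (nat_lit 35783) (.g (nat_lit 1182) (.e (nat_lit 1216) (nat_lit 90) (.e (nat_lit 81963) (nat_lit 26) (.e (nat_lit 147495) (nat_lit 11) (.e (nat_lit 24636) (nat_lit 9) (.e (nat_lit 335998) (nat_lit 1) (.e (nat_lit 57654) (nat_lit 152) .nil)))))) (.g (nat_lit 4) .nil .nil))) 
(.lf (nat_lit 35815) (.g (nat_lit 3185) (.e (nat_lit 1216) (nat_lit 90) (.e (nat_lit 81965) (nat_lit 26) (.e (nat_lit 147495) (nat_lit 11) (.e (nat_lit 24623) (nat_lit 9) (.e (nat_lit 335997) (nat_lit 1) (.e (nat_lit 57655) (nat_lit 152) .nil)))))) (.g (nat_lit 6) .nil .nil)))) (.nd (nat_lit 5) 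
(.lf (nat_lit 35799) (.g (nat_lit 1383) (.e (nat_lit 1216) (nat_lit 90) (.e (nat_lit 81965) (nat_lit 26) (.e (nat_lit 147463) (nat_lit 9) (.e (nat_lit 321) (nat_lit 24) (.e (nat_lit 360453) (nat_lit 0) .nil))))) .nil)) 
(.lf (nat_lit 35831) (.g (nat_lit 2500) (.e (nat_lit 1216) (nat_lit 90) (.e (nat_lit 81965) (nat_lit 26) (.e (nat_lit 147496) (nat_lit 11) (.e (nat_lit 24640) (nat_lit 10) (.e (nat_lit 344101) (nat_lit 18) (.e (nat_lit 7147) (nat_lit 382) .nil)))))) (.g (nat_lit 4) .nil .nil))))) (.nd (nat_lit 4) (.nd (nat_lit 5) 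
(.lf (nat_lit 35791) (.g (nat_lit 1774) (.e (nat_lit 1216) (nat_lit 90) (.e (nat_lit 81963) (nat_lit 26) (.e (nat_lit 147496) (nat_lit 11) (.e (nat_lit 24628) (nat_lit 9) (.e (nat_lit 336000) (nat_lit 1) (.e (nat_lit 57654) (nat_lit 152) .nil)))))) (.g (nat_lit 4) .nil .nil))) 
(.lf (nat_lit 35823) (.g (nat_lit 2322) (.e (nat_lit 1216) (nat_lit 90) (.e (nat_lit 81965) (nat_lit 26) (.e (nat_lit 147495) (nat_lit 11) (.e (nat_lit 24644) (nat_lit 11) (.e (nat_lit 368662) (nat_lit 18) (.e (nat_lit 7147) (nat_lit 382) .nil)))))) (.g (nat_lit 6) .nil .nil)))) (.nd (nat_lit 5) 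
(.lf (nat_lit 35807) (.g (nat_lit 394) (.e (nat_lit 1216) (nat_lit 90) (.e (nat_lit 81965) (nat_lit 26) (.e (nat_lit 147492) (nat_lit 11) .nil))) .nil)) 
(.lf (nat_lit 35839) (.g (nat_lit 2491) (.e (nat_lit 1217) (nat_lit 90) (.e (nat_lit 81925) (nat_lit 11) (.e (nat_lit 426166) (nat_lit 7) (.e (nat_lit 409645) (nat_lit 18) (.e (nat_lit 303115) (nat_lit 1) (.e (nat_lit 164149) (nat_lit 152) .nil)))))) (.g (nat_lit 6) .nil .nil)))))))))

noncomputable def tv500 : DT := (.nd (nat_lit 0) (.nd (nat_lit 1) (.nd (nat_lit 2) (.nd (nat_lit 3) (.nd (nat_lit 4) (.nd (nat_lit 5) 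
(.lf (nat_lit 35840) (.g (nat_lit 2446) (.e (nat_lit 1217) (nat_lit 90) (.e (nat_lit 81925) (nat_lit 11) (.e (nat_lit 426166) (nat_lit 7) (.e (nat_lit 409646) (nat_lit 18) (.e (nat_lit 303115) (nat_lit 1) (.e (nat_lit 164150) (nat_lit 152) .nil)))))) (.g (nat_lit 5) .nil .nil))) 
(.lf (nat_lit 35872) (.g (nat_lit 2904) (.e (nat_lit 1217) (nat_lit 90) (.e (nat_lit 81925) (nat_lit 11) (.e (nat_lit 426182) (nat_lit 8) (.e (nat_lit 417820) (nat_lit 10) (.e (nat_lit 5761) (nat_lit 315) (.e (nat_lit 163850) (nat_lit 0) (.e (nat_lit 6272) (nat_lit 337) .nil))))))) (.g (nat_lit 7) .nil .nil)))) (.nd (nat_lit 5) 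
(.lf (nat_lit 35856) (.g (nat_lit 1779) (.e (nat_lit 1217) (nat_lit 90) (.e (nat_lit 81925) (nat_lit 11) (.e (nat_lit 426172) (nat_lit 7) (.e (nat_lit 409647) (nat_lit 18) (.e (nat_lit 303115) (nat_lit 1) (.e (nat_lit 164148) (nat_lit 152) .nil)))))) (.g (nat_lit 5) .nil .nil))) 
(.lf (nat_lit 35888) (.g (nat_lit 1670) (.e (nat_lit 1217) (nat_lit 90) (.e (nat_lit 81925) (nat_lit 11) (.e (nat_lit 426344) (nat_lit 14) (.e (nat_lit 491546) (nat_lit 9) (.e (nat_lit 335997) (nat_lit 1) .nil))))) .nil)))) (.nd (nat_lit 4) (.nd (nat_lit 5) 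
(.lf (nat_lit 35848) (.g (nat_lit 3006) (.e (nat_lit 1217) (nat_lit 90) (.e (nat_lit 81925) (nat_lit 11) (.e (nat_lit 426172) (nat_lit 7) (.e (nat_lit 409645) (nat_lit 18) (.e (nat_lit 303115) (nat_lit 1) (.e (nat_lit 164149) (nat_lit 152) .nil)))))) (.g (nat_lit 6) .nil .nil))) 
(.lf (nat_lit 35880) (.g (nat_lit 3326) (.e (nat_lit 1217) (nat_lit 90) (.e (nat_lit 81925) (nat_lit 11) (.e (nat_lit 426343) (nat_lit 14) (.e (nat_lit 491546) (nat_lit 9) (.e (nat_lit 335997) (nat_lit 1) (.e (nat_lit 57651) (nat_lit 152) .nil)))))) (.g (nat_lit 6) .nil .nil)))) (.nd (nat_lit 5) 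
(.lf (nat_lit 35864) (.g (nat_lit 2086) (.e (nat_lit 1217) (nat_lit 90) (.e (nat_lit 81925) (nat_lit 11) (.e (nat_lit 426172) (nat_lit 7) (.e (nat_lit 409649) (nat_lit 18) (.e (nat_lit 303114) (nat_lit 1) (.e (nat_lit 164150) (nat_lit 152) .nil)))))) (.g (nat_lit 6) .nil .nil))) 
(.lf (nat_lit 35896) (.g (nat_lit 1377) (.e (nat_lit 1217) (nat_lit 90) (.e (nat_lit 81926) (nat_lit 11) (.e (nat_lit 426172) (nat_lit 7) (.e (nat_lit 409649) (nat_lit 18) (.e (nat_lit 303114) (nat_lit 1) (.e (nat_lit 164149) (nat_lit 152) .nil)))))) (.g (nat_lit 4) .nil .nil)))))) (.nd (nat_lit 3) (.nd (nat_lit 4) (.nd (nat_lit 5) 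
(.lf (nat_lit 35844) (.g (nat_lit 2230) (.e (nat_lit 1217) (nat_lit 90) (.e (nat_lit 81925) (nat_lit 11) (.e (nat_lit 426172) (nat_lit 7) (.e (nat_lit 409643) (nat_lit 18) (.e (nat_lit 303115) (nat_lit 1) (.e (nat_lit 164150) (nat_lit 152) .nil)))))) (.g (nat_lit 0) .nil .nil))) 
(.lf (nat_lit 35876) (.g (nat_lit 1655) (.e (nat_lit 1217) (nat_lit 90) (.e (nat_lit 81925) (nat_lit 11) (.e (nat_lit 426342) (nat_lit 14) (.e (nat_lit 491558) (nat_lit 10) (.e (nat_lit 344100) (nat_lit 18) (.e (nat_lit 7147) (nat_lit 382) .nil)))))) (.g (nat_lit 4) .nil .nil)))) (.nd (nat_lit 5) 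
(.lf (nat_lit 35860) (.g (nat_lit 1941) (.e (nat_lit 1217) (nat_lit 90) (.e (nat_lit 81925) (nat_lit 11) (.e (nat_lit 426172) (nat_lit 7) (.e (nat_lit 409648) (nat_lit 18) (.e (nat_lit 303115) (nat_lit 1) (.e (nat_lit 164148) (nat_lit 152) .nil)))))) (.g (nat_lit 5) .nil .nil))) 
(.lf (nat_lit 35892) (.g (nat_lit 1609) (.e (nat_lit 1217) (nat_lit 90) (.e (nat_lit 81926) (nat_lit 11) (.e (nat_lit 426172) (nat_lit 7) (.e (nat_lit 409647) (nat_lit 18) (.e (nat_lit 303115) (nat_lit 1) (.e (nat_lit 164150) (nat_lit 152) .nil)))))) (.g (nat_lit 5) .nil .nil))))) (.nd (nat_lit 4) (.nd (nat_lit 5) 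
(.lf (nat_lit 35852) (.g (nat_lit 2877) (.e (nat_lit 1217) (nat_lit 90) (.e (nat_lit 81925) (nat_lit 11) (.e (nat_lit 426172) (nat_lit 7) (.e (nat_lit 409646) (nat_lit 18) (.e (nat_lit 303115) (nat_lit 1) (.e (nat_lit 164149) (nat_lit 152) .nil)))))) (.g (nat_lit 0) .nil .nil))) 
(.lf (nat_lit 35884) (.g (nat_lit 1461) (.e (nat_lit 1217) (nat_lit 90) (.e (nat_lit 81925) (nat_lit 11) (.e (nat_lit 426343) (nat_lit 14) (.e (nat_lit 491552) (nat_lit 9) .nil)))) .nil))) (.nd (nat_lit 5) 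
(.lf (nat_lit 35868) (.g (nat_lit 1330) (.e (nat_lit 1217) (nat_lit 90) (.e (nat_lit 81925) (nat_lit 11) (.e (nat_lit 426172) (nat_lit 7) (.e (nat_lit 417536) (nat_lit 18) (.e (nat_lit 303115) (nat_lit 1) (.e (nat_lit 164149) (nat_lit 152) .nil)))))) (.g (nat_lit 5) .nil .nil))) 
(.lf (nat_lit 35900) (.g (nat_lit 505) (.e (nat_lit 1217) (nat_lit 90) (.e (nat_lit 81946) (nat_lit 20) (.e (nat_lit 1960) (nat_lit 134) .nil))) .nil)))))) (.nd (nat_lit 2) (.nd (nat_lit 3) (.nd (nat_lit 4) (.nd (nat_lit 5) 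
(.lf (nat_lit 35842) (.g (nat_lit 1911) (.e (nat_lit 1217) (nat_lit 90) (.e (nat_lit 81925) (nat_lit 11) (.e (nat_lit 426172) (nat_lit 7) (.e (nat_lit 409643) (nat_lit 18) (.e (nat_lit 303115) (nat_lit 1) (.e (nat_lit 164148) (nat_lit 152) .nil)))))) (.g (nat_lit 5) .nil .nil))) 
(.lf (nat_lit 35874) (.g (nat_lit 1618) (.e (nat_lit 1217) (nat_lit 90) (.e (nat_lit 81925) (nat_lit 11) (.e (nat_lit 426341) (nat_lit 14) (.e (nat_lit 491560) (nat_lit 10) (.e (nat_lit 344099) (nat_lit 18) .nil))))) .nil))) (.nd (nat_lit 5) 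
(.lf (nat_lit 35858) (.g (nat_lit 2362) (.e (nat_lit 1217) (nat_lit 90) (.e (nat_lit 81925) (nat_lit 11) (.e (nat_lit 426172) (nat_lit 7) (.e (nat_lit 409647) (nat_lit 18) (.e (nat_lit 303115) (nat_lit 1) (.e (nat_lit 164150) (nat_lit 152) .nil)))))) (.g (nat_lit 0) .nil .nil))) 
(.lf (nat_lit 35890) (.g (nat_lit 2349) (.e (nat_lit 1217) (nat_lit 90) (.e (nat_lit 81926) (nat_lit 11) (.e (nat_lit 426172) (nat_lit 7) (.e (nat_lit 409645) (nat_lit 18) (.e (nat_lit 303115) (nat_lit 1) (.e (nat_lit 164150) (nat_lit 152) .nil)))))) (.g (nat_lit 5) .nil .nil))))) (.nd (nat_lit 4) (.nd (nat_lit 5) 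
(.lf (nat_lit 35850) (.g (nat_lit 1831) (.e (nat_lit 1217) (nat_lit 90) (.e (nat_lit 81925) (nat_lit 11) (.e (nat_lit 426172) (nat_lit 7) (.e (nat_lit 409646) (nat_lit 18) (.e (nat_lit 303114) (nat_lit 1) .nil))))) .nil)) 
(.lf (nat_lit 35882) (.g (nat_lit 3493) (.e (nat_lit 1217) (nat_lit 90) (.e (nat_lit 81925) (nat_lit 11) (.e (nat_lit 426343) (nat_lit 14) (.e (nat_lit 491546) (nat_lit 9) (.e (nat_lit 335997) (nat_lit 1) (.e (nat_lit 57653) (nat_lit 152) .nil)))))) (.g (nat_lit 0) .nil .nil)))) (.nd (nat_lit 5) 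
(.lf (nat_lit 35866) (.g (nat_lit 2337) (.e (nat_lit 1217) (nat_lit 90) (.e (nat_lit 81925) (nat_lit 11) (.e (nat_lit 426172) (nat_lit 7) (.e (nat_lit 409649) (nat_lit 18) (.e (nat_lit 303115) (nat_lit 1) (.e (nat_lit 164149) (nat_lit 152) .nil)))))) (.g (nat_lit 6) .nil .nil))) 
(.lf (nat_lit 35898) (.g (nat_lit 1685) (.e (nat_lit 1217) (nat_lit 90) (.e (nat_lit 81946) (nat_lit 20) (.e (nat_lit 1841) (nat_lit 123) (.e (nat_lit 548891) (nat_lit 11) (.e (nat_lit 81959) (nat_lit 24) (.e (nat_lit 130816) (nat_lit 140) .nil)))))) (.g (nat_lit 4) .nil .nil)))))) (.nd (nat_lit 3) (.nd (nat_lit 4) (.nd (nat_lit 5) 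
(.lf (nat_lit 35846) (.g (nat_lit 2300) (.e (nat_lit 1217) (nat_lit 90) (.e (nat_lit 81925) (nat_lit 11) (.e (nat_lit 426172) (nat_lit 7) (.e (nat_lit 409644) (nat_lit 18) (.e (nat_lit 303115) (nat_lit 1) (.e (nat_lit 164150) (nat_lit 152) .nil)))))) (.g (nat_lit 6) .nil .nil))) 
(.lf (nat_lit 35878) (.g (nat_lit 1811) (.e (nat_lit 1217) (nat_lit 90) (.e (nat_lit 81925) (nat_lit 11) (.e (nat_lit 426342) (nat_lit 14) (.e (nat_lit 491560) (nat_lit 10) (.e (nat_lit 344099) (nat_lit 18) (.e (nat_lit 7147) (nat_lit 382) .nil)))))) (.g (nat_lit 4) .nil .nil)))) (.nd (nat_lit 5) 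
(.lf (nat_lit 35862) (.g (nat_lit 2527) (.e (nat_lit 1217) (nat_lit 90) (.e (nat_lit 81925) (nat_lit 11) (.e (nat_lit 426172) (nat_lit 7) (.e (nat_lit 409648) (nat_lit 18) (.e (nat_lit 303115) (nat_lit 1) (.e (nat_lit 164150) (nat_lit 152) .nil)))))) (.g (nat_lit 0) .nil .nil))) 
(.lf (nat_lit 35894) (.g (nat_lit 1289) (.e (nat_lit 1217) (nat_lit 90) (.e (nat_lit 81926) (nat_lit 11) (.e (nat_lit 426172) (nat_lit 7) (.e (nat_lit 409648) (nat_lit 18) (.e (nat_lit 303114) (nat_lit 1) (.e (nat_lit 164149) (nat_lit 152) .nil)))))) (.g (nat_lit 4) .nil .nil))))) (.nd (nat_lit 4) (.nd (nat_lit 5) 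
(.lf (nat_lit 35854) (.g (nat_lit 2655) (.e (nat_lit 1217) (nat_lit 90) (.e (nat_lit 81925) (nat_lit 11) (.e (nat_lit 426172) (nat_lit 7) (.e (nat_lit 409646) (nat_lit 18) (.e (nat_lit 303115) (nat_lit 1) (.e (nat_lit 164151) (nat_lit 152) .nil)))))) (.g (nat_lit 0) .nil .nil))) 
(.lf (nat_lit 35886) (.g (nat_lit 3244) (.e (nat_lit 1217) (nat_lit 90) (.e (nat_lit 81925) (nat_lit 11) (.e (nat_lit 426343) (nat_lit 14) (.e (nat_lit 491558) (nat_lit 10) (.e (nat_lit 344100) (nat_lit 18) (.e (nat_lit 7147) (nat_lit 382) .nil)))))) (.g (nat_lit 6) .nil .nil)))) (.nd (nat_lit 5) 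
(.lf (nat_lit 35870) (.g (nat_lit 2911) (.e (nat_lit 1217) (nat_lit 90) (.e (nat_lit 81925) (nat_lit 11) (.e (nat_lit 426182) (nat_lit 8) (.e (nat_lit 417820) (nat_lit 10) (.e (nat_lit 5761) (nat_lit 315) (.e (nat_lit 163850) (nat_lit 0) (.e (nat_lit 6270) (nat_lit 337) .nil))))))) (.g (nat_lit 0) .nil .nil))) 
(.lf (nat_lit 35902) (.g (nat_lit 1230) (.e (nat_lit 1217) (nat_lit 90) (.e (nat_lit 81946) (nat_lit 20) (.e (nat_lit 1962) (nat_lit 134) (.e (nat_lit 638985) (nat_lit 5) (.e (nat_lit 3015) (nat_lit 187) (.e (nat_lit 450560) (nat_lit 0) (.e (nat_lit 5060) (nat_lit 292) .nil))))))) (.g (nat_lit 5) .nil .nil)))))))) 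
(.nd (nat_lit 1) (.nd (nat_lit 2) (.nd (nat_lit 3) (.nd (nat_lit 4) (.nd (nat_lit 5) 
(.lf (nat_lit 35841) (.g (nat_lit 2424) (.e (nat_lit 1217) (nat_lit 90) (.e (nat_lit 81925) (nat_lit 11) (.e (nat_lit 426166) (nat_lit 7) (.e (nat_lit 409646) (nat_lit 18) (.e (nat_lit 303115) (nat_lit 1) (.e (nat_lit 164151) (nat_lit 152) .nil)))))) (.g (nat_lit 5) .nil .nil))) 
(.lf (nat_lit 35873) (.g (nat_lit 2962) (.e (nat_lit 1217) (nat_lit 90) (.e (nat_lit 81925) (nat_lit 11) (.e (nat_lit 426182) (nat_lit 8) (.e (nat_lit 417820) (nat_lit 10) (.e (nat_lit 5761) (nat_lit 315) (.e (nat_lit 163850) (nat_lit 0) (.e (nat_lit 6273) (nat_lit 337) .nil))))))) (.g (nat_lit 7) .nil .nil)))) (.nd (nat_lit 5) 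
(.lf (nat_lit 35857) (.g (nat_lit 2112) (.e (nat_lit 1217) (nat_lit 90) (.e (nat_lit 81925) (nat_lit 11) (.e (nat_lit 426172) (nat_lit 7) (.e (nat_lit 409647) (nat_lit 18) (.e (nat_lit 303115) (nat_lit 1) (.e (nat_lit 164149) (nat_lit 152) .nil)))))) (.g (nat_lit 5) .nil .nil))) 
(.lf (nat_lit 35889) (.g (nat_lit 1487) (.e (nat_lit 1217) (nat_lit 90) (.e (nat_lit 81926) (nat_lit 11) (.e (nat_lit 426172) (nat_lit 7) (.e (nat_lit 409643) (nat_lit 18) (.e (nat_lit 303115) (nat_lit 1) (.e (nat_lit 164150) (nat_lit 152) .nil)))))) (.g (nat_lit 5) .nil .nil))))) (.nd (nat_lit 4) (.nd (nat_lit 5) 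
(.lf (nat_lit 35849) (.g (nat_lit 2992) (.e (nat_lit 1217) (nat_lit 90) (.e (nat_lit 81925) (nat_lit 11) (.e (nat_lit 426172) (nat_lit 7) (.e (nat_lit 409645) (nat_lit 18) (.e (nat_lit 303115) (nat_lit 1) (.e (nat_lit 164150) (nat_lit 152) .nil)))))) (.g (nat_lit 0) .nil .nil))) 
(.lf (nat_lit 35881) (.g (nat_lit 3363) (.e (nat_lit 1217) (nat_lit 90) (.e (nat_lit 81925) (nat_lit 11) (.e (nat_lit 426343) (nat_lit 14) (.e (nat_lit 491546) (nat_lit 9) (.e (nat_lit 335997) (nat_lit 1) (.e (nat_lit 57652) (nat_lit 152) .nil)))))) (.g (nat_lit 6) .nil .nil)))) (.nd (nat_lit 5) 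
(.lf (nat_lit 35865) (.g (nat_lit 2004) (.e (nat_lit 1217) (nat_lit 90) (.e (nat_lit 81925) (nat_lit 11) (.e (nat_lit 426172) (nat_lit 7) (.e (nat_lit 409649) (nat_lit 18) (.e (nat_lit 303115) (nat_lit 1) (.e (nat_lit 164148) (nat_lit 152) .nil)))))) (.g (nat_lit 5) .nil .nil))) 
(.lf (nat_lit 35897) (.g (nat_lit 1648) (.e (nat_lit 1217) (nat_lit 90) (.e (nat_lit 81926) (nat_lit 11) (.e (nat_lit 426172) (nat_lit 7) (.e (nat_lit 409649) (nat_lit 18) (.e (nat_lit 303115) (nat_lit 1) (.e (nat_lit 164150) (nat_lit 152) .nil)))))) (.g (nat_lit 5) .nil .nil)))))) (.nd (nat_lit 3) (.nd (nat_lit 4) (.nd (nat_lit 5) 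
(.lf (nat_lit 35845) (.g (nat_lit 2061) (.e (nat_lit 1217) (nat_lit 90) (.e (nat_lit 81925) (nat_lit 11) (.e (nat_lit 426172) (nat_lit 7) (.e (nat_lit 409644) (nat_lit 18) (.e (nat_lit 303115) (nat_lit 1) (.e (nat_lit 164149) (nat_lit 152) .nil)))))) (.g (nat_lit 5) .nil .nil))) 
(.lf (nat_lit 35877) (.g (nat_lit 1912) (.e (nat_lit 1217) (nat_lit 90) (.e (nat_lit 81925) (nat_lit 11) (.e (nat_lit 426342) (nat_lit 14) (.e (nat_lit 491560) (nat_lit 10) (.e (nat_lit 344089) (nat_lit 18) .nil))))) .nil))) (.nd (nat_lit 5) 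
(.lf (nat_lit 35861) (.g (nat_lit 2274) (.e (nat_lit 1217) (nat_lit 90) (.e (nat_lit 81925) (nat_lit 11) (.e (nat_lit 426172) (nat_lit 7) (.e (nat_lit 409648) (nat_lit 18) (.e (nat_lit 303115) (nat_lit 1) (.e (nat_lit 164149) (nat_lit 152) .nil)))))) (.g (nat_lit 5) .nil .nil))) 
(.lf (nat_lit 35893) (.g (nat_lit 1248) (.e (nat_lit 1217) (nat_lit 90) (.e (nat_lit 81926) (nat_lit 11) (.e (nat_lit 426172) (nat_lit 7) (.e (nat_lit 409648) (nat_lit 18) (.e (nat_lit 303114) (nat_lit 1) .nil))))) .nil)))) (.nd (nat_lit 4) (.nd (nat_lit 5) 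
(.lf (nat_lit 35853) (.g (nat_lit 2806) (.e (nat_lit 1217) (nat_lit 90) (.e (nat_lit 81925) (nat_lit 11) (.e (nat_lit 426172) (nat_lit 7) (.e (nat_lit 409646) (nat_lit 18) (.e (nat_lit 303115) (nat_lit 1) (.e (nat_lit 164150) (nat_lit 152) .nil)))))) (.g (nat_lit 0) .nil .nil))) 
(.lf (nat_lit 35885) (.g (nat_lit 2652) (.e (nat_lit 1217) (nat_lit 90) (.e (nat_lit 81925) (nat_lit 11) (.e (nat_lit 426343) (nat_lit 14) (.e (nat_lit 491556) (nat_lit 9) (.e (nat_lit 335998) (nat_lit 1) .nil))))) .nil))) (.nd (nat_lit 5) 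
(.lf (nat_lit 35869) (.g (nat_lit 3583) (.e (nat_lit 1217) (nat_lit 90) (.e (nat_lit 81925) (nat_lit 11) (.e (nat_lit 426182) (nat_lit 8) (.e (nat_lit 417820) (nat_lit 10) (.e (nat_lit 5626) (nat_lit 312) (.e (nat_lit 2612) (nat_lit 163) (.e (nat_lit 164148) (nat_lit 152) .nil))))))) (.g (nat_lit 6) .nil .nil))) 
(.lf (nat_lit 35901) (.g (nat_lit 372) (.e (nat_lit 1217) (nat_lit 90) (.e (nat_lit 81946) (nat_lit 20) (.e (nat_lit 1962) (nat_lit 134) .nil))) .nil)))))) (.nd (nat_lit 2) (.nd (nat_lit 3) (.nd (nat_lit 4) (.nd (nat_lit 5) 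
(.lf (nat_lit 35843) (.g (nat_lit 2243) (.e (nat_lit 1217) (nat_lit 90) (.e (nat_lit 81925) (nat_lit 11) (.e (nat_lit 426172) (nat_lit 7) (.e (nat_lit 409643) (nat_lit 18) (.e (nat_lit 303115) (nat_lit 1) (.e (nat_lit 164149) (nat_lit 152) .nil)))))) (.g (nat_lit 6) .nil .nil))) 
(.lf (nat_lit 35875) (.g (nat_lit 2027) (.e (nat_lit 1217) (nat_lit 90) (.e (nat_lit 81925) (nat_lit 11) (.e (nat_lit 426342) (nat_lit 14) (.e (nat_lit 491558) (nat_lit 10) (.e (nat_lit 344097) (nat_lit 18) (.e (nat_lit 7147) (nat_lit 382) .nil)))))) (.g (nat_lit 5) .nil .nil)))) (.nd (nat_lit 5) 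
(.lf (nat_lit 35859) (.g (nat_lit 2068) (.e (nat_lit 1217) (nat_lit 90) (.e (nat_lit 81925) (nat_lit 11) (.e (nat_lit 426172) (nat_lit 7) (.e (nat_lit 409648) (nat_lit 18) (.e (nat_lit 303114) (nat_lit 1) (.e (nat_lit 164150) (nat_lit 152) .nil)))))) (.g (nat_lit 0) .nil .nil))) 
(.lf (nat_lit 35891) (.g (nat_lit 2061) (.e (nat_lit 1217) (nat_lit 90) (.e (nat_lit 81926) (nat_lit 11) (.e (nat_lit 426172) (nat_lit 7) (.e (nat_lit 409646) (nat_lit 18) (.e (nat_lit 303115) (nat_lit 1) (.e (nat_lit 164150) (nat_lit 152) .nil)))))) (.g (nat_lit 5) .nil .nil))))) (.nd (nat_lit 4) (.nd (nat_lit 5) 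
(.lf (nat_lit 35851) (.g (nat_lit 2604) (.e (nat_lit 1217) (nat_lit 90) (.e (nat_lit 81925) (nat_lit 11) (.e (nat_lit 426172) (nat_lit 7) (.e (nat_lit 409646) (nat_lit 18) (.e (nat_lit 303115) (nat_lit 1) (.e (nat_lit 164148) (nat_lit 152) .nil)))))) (.g (nat_lit 0) .nil .nil))) 
(.lf (nat_lit 35883) (.g (nat_lit 3207) (.e (nat_lit 1217) (nat_lit 90) (.e (nat_lit 81925) (nat_lit 11) (.e (nat_lit 426343) (nat_lit 14) (.e (nat_lit 491546) (nat_lit 9) (.e (nat_lit 335997) (nat_lit 1) (.e (nat_lit 57654) (nat_lit 152) .nil)))))) (.g (nat_lit 5) .nil .nil)))) (.nd (nat_lit 5) 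
(.lf (nat_lit 35867) (.g (nat_lit 2375) (.e (nat_lit 1217) (nat_lit 90) (.e (nat_lit 81925) (nat_lit 11) (.e (nat_lit 426172) (nat_lit 7) (.e (nat_lit 409649) (nat_lit 18) (.e (nat_lit 303115) (nat_lit 1) (.e (nat_lit 164150) (nat_lit 152) .nil)))))) (.g (nat_lit 0) .nil .nil))) 
(.lf (nat_lit 35899) (.g (nat_lit 2158) (.e (nat_lit 1217) (nat_lit 90) (.e (nat_lit 81946) (nat_lit 20) (.e (nat_lit 1842) (nat_lit 123) (.e (nat_lit 548891) (nat_lit 11) (.e (nat_lit 81959) (nat_lit 24) (.e (nat_lit 130816) (nat_lit 140) .nil)))))) (.g (nat_lit 4) .nil .nil)))))) (.nd (nat_lit 3) (.nd (nat_lit 4) (.nd (nat_lit 5) 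
(.lf (nat_lit 35847) (.g (nat_lit 2670) (.e (nat_lit 1217) (nat_lit 90) (.e (nat_lit 81925) (nat_lit 11) (.e (nat_lit 426172) (nat_lit 7) (.e (nat_lit 409645) (nat_lit 18) (.e (nat_lit 303115) (nat_lit 1) (.e (nat_lit 164148) (nat_lit 152) .nil)))))) (.g (nat_lit 5) .nil .nil))) 
(.lf (nat_lit 35879) (.g (nat_lit 1256) (.e (nat_lit 1217) (nat_lit 90) (.e (nat_lit 81925) (nat_lit 11) (.e (nat_lit 426343) (nat_lit 14) (.e (nat_lit 491546) (nat_lit 9) .nil)))) .nil))) (.nd (nat_lit 5) 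
(.lf (nat_lit 35863) (.g (nat_lit 2197) (.e (nat_lit 1217) (nat_lit 90) (.e (nat_lit 81925) (nat_lit 11) (.e (nat_lit 426172) (nat_lit 7) (.e (nat_lit 409649) (nat_lit 18) (.e (nat_lit 303114) (nat_lit 1) (.e (nat_lit 164149) (nat_lit 152) .nil)))))) (.g (nat_lit 6) .nil .nil))) 
(.lf (nat_lit 35895) (.g (nat_lit 1300) (.e (nat_lit 1217) (nat_lit 90) (.e (nat_lit 81926) (nat_lit 11) (.e (nat_lit 426172) (nat_lit 7) (.e (nat_lit 409649) (nat_lit 18) (.e (nat_lit 303114) (nat_lit 1) .nil))))) .nil)))) (.nd (nat_lit 4) (.nd (nat_lit 5) 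
(.lf (nat_lit 35855) (.g (nat_lit 1263) (.e (nat_lit 1217) (nat_lit 90) (.e (nat_lit 81925) (nat_lit 11) (.e (nat_lit 426172) (nat_lit 7) (.e (nat_lit 409647) (nat_lit 18) (.e (nat_lit 303114) (nat_lit 1) .nil))))) .nil)) 
(.lf (nat_lit 35887) (.g (nat_lit 2482) (.e (nat_lit 1217) (nat_lit 90) (.e (nat_lit 81925) (nat_lit 11) (.e (nat_lit 426343) (nat_lit 14) (.e (nat_lit 491560) (nat_lit 10) (.e (nat_lit 344089) (nat_lit 18) .nil))))) .nil))) (.nd (nat_lit 5) 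
(.lf (nat_lit 35871) (.g (nat_lit 2288) (.e (nat_lit 1217) (nat_lit 90) (.e (nat_lit 81925) (nat_lit 11) (.e (nat_lit 426182) (nat_lit 8) (.e (nat_lit 417820) (nat_lit 10) (.e (nat_lit 5761) (nat_lit 315) (.e (nat_lit 163850) (nat_lit 0) (.e (nat_lit 6271) (nat_lit 337) .nil))))))) (.g (nat_lit 6) .nil .nil))) 
(.lf (nat_lit 35903) (.g (nat_lit 3528) (.e (nat_lit 1217) (nat_lit 90) (.e (nat_lit 81946) (nat_lit 20) (.e (nat_lit 1962) (nat_lit 134) (.e (nat_lit 638998) (nat_lit 8) (.e (nat_lit 172120) (nat_lit 12) (.e (nat_lit 475155) (nat_lit 21) (.e (nat_lit 6279) (nat_lit 337) .nil))))))) (.g (nat_lit 7) .nil .nil)))))))))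

noncomputable def tv501 : DT := (.nd (nat_lit 0) (.nd (nat_lit 1) (.nd (nat_lit 2) (.nd (nat_lit 3) (.nd (nat_lit 4) (.nd (nat_lit 5) 
(.lf (nat_lit 35904) (.g (nat_lit 383) (.e (nat_lit 1217) (nat_lit 90) (.e (nat_lit 81946) (nat_lit 20) (.e (nat_lit 1963) (nat_lit 134) .nil))) .nil)) 
(.lf (nat_lit 35936) (.g (nat_lit 2495) (.e (nat_lit 1217) (nat_lit 90) (.e (nat_lit 81947) (nat_lit 20) (.e (nat_lit 2281) (nat_lit 150) (.e (nat_lit 770058) (nat_lit 5) (.e (nat_lit 1598) (nat_lit 111) (.e (nat_lit 360452) (nat_lit 0) (.e (nat_lit 7147) (nat_lit 382) .nil))))))) (.g (nat_lit 6) .nil .nil)))) (.nd (nat_lit 5) 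
(.lf (nat_lit 35920) (.g (nat_lit 1767) (.e (nat_lit 1217) (nat_lit 90) (.e (nat_lit 81946) (nat_lit 20) (.e (nat_lit 2280) (nat_lit 150) (.e (nat_lit 770074) (nat_lit 10) (.e (nat_lit 81959) (nat_lit 24) (.e (nat_lit 123048) (nat_lit 152) .nil)))))) (.g (nat_lit 4) .nil .nil))) 
(.lf (nat_lit 35952) (.g (nat_lit 1807) (.e (nat_lit 1217) (nat_lit 90) (.e (nat_lit 81949) (nat_lit 21) (.e (nat_lit 57683) (nat_lit 155) (.e (nat_lit 122917) (nat_lit 15) (.e (nat_lit 360453) (nat_lit 0) .nil))))) .nil)))) (.nd (nat_lit 4) (.nd (nat_lit 5) 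
(.lf (nat_lit 35912) (.g (nat_lit 857) (.e (nat_lit 1217) (nat_lit 90) (.e (nat_lit 81946) (nat_lit 20) (.e (nat_lit 2280) (nat_lit 150) (.e (nat_lit 770058) (nat_lit 5) .nil)))) .nil)) 
(.lf (nat_lit 35944) (.g (nat_lit 1310) (.e (nat_lit 1217) (nat_lit 90) (.e (nat_lit 81948) (nat_lit 21) (.e (nat_lit 57655) (nat_lit 152) (.e (nat_lit 1216) (nat_lit 90) (.e (nat_lit 81950) (nat_lit 21) .nil))))) .nil))) (.nd (nat_lit 5) 
(.lf (nat_lit 35928) (.g (nat_lit 2937) (.e (nat_lit 1217) (nat_lit 90) (.e (nat_lit 81946) (nat_lit 20) (.e (nat_lit 2281) (nat_lit 150) (.e (nat_lit 770074) (nat_lit 10) (.e (nat_lit 81959) (nat_lit 24) (.e (nat_lit 123048) (nat_lit 152) .nil)))))) (.g (nat_lit 6) .nil .nil))) 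
(.lf (nat_lit 35960) (.g (nat_lit 688) (.e (nat_lit 1217) (nat_lit 90) (.e (nat_lit 81950) (nat_lit 21) (.e (nat_lit 57654) (nat_lit 152) .nil))) .nil))))) (.nd (nat_lit 3) (.nd (nat_lit 4) (.nd (nat_lit 5) 
(.lf (nat_lit 35908) (.g (nat_lit 1690) (.e (nat_lit 1217) (nat_lit 90) (.e (nat_lit 81946) (nat_lit 20) (.e (nat_lit 2280) (nat_lit 150) (.e (nat_lit 770055) (nat_lit 5) (.e (nat_lit 1595) (nat_lit 111) (.e (nat_lit 360453) (nat_lit 0) (.e (nat_lit 7147) (nat_lit 382) .nil))))))) (.g (nat_lit 4) .nil .nil))) 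
(.lf (nat_lit 35940) (.g (nat_lit 2304) (.e (nat_lit 1217) (nat_lit 90) (.e (nat_lit 81947) (nat_lit 20) (.e (nat_lit 2281) (nat_lit 150) (.e (nat_lit 770072) (nat_lit 8) (.e (nat_lit 65630) (nat_lit 14) (.e (nat_lit 401422) (nat_lit 1) (.e (nat_lit 164149) (nat_lit 152) .nil))))))) (.g (nat_lit 4) .nil .nil)))) (.nd (nat_lit 5) 
(.lf (nat_lit 35924) (.g (nat_lit 3581) (.e (nat_lit 1217) (nat_lit 90) (.e (nat_lit 81946) (nat_lit 20) (.e (nat_lit 2281) (nat_lit 150) (.e (nat_lit 770072) (nat_lit 8) (.e (nat_lit 65610) (nat_lit 10) (.e (nat_lit 344097) (nat_lit 18) (.e (nat_lit 7146) (nat_lit 382) .nil))))))) (.g (nat_lit 7) .nil .nil))) 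
(.lf (nat_lit 35956) (.g (nat_lit 2525) (.e (nat_lit 1217) (nat_lit 90) (.e (nat_lit 81949) (nat_lit 21) (.e (nat_lit 57684) (nat_lit 155) (.e (nat_lit 122916) (nat_lit 14) (.e (nat_lit 352309) (nat_lit 21) (.e (nat_lit 57655) (nat_lit 152) .nil)))))) (.g (nat_lit 5) .nil .nil))))) (.nd (nat_lit 4) (.nd (nat_lit 5) 
(.lf (nat_lit 35916) (.g (nat_lit 3040) (.e (nat_lit 1217) (nat_lit 90) (.e (nat_lit 81946) (nat_lit 20) (.e (nat_lit 2280) (nat_lit 150) (.e (nat_lit 770072) (nat_lit 8) (.e (nat_lit 65610) (nat_lit 10) (.e (nat_lit 344097) (nat_lit 18) (.e (nat_lit 7146) (nat_lit 382) .nil))))))) (.g (nat_lit 6) .nil .nil))) 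
(.lf (nat_lit 35948) (.g (nat_lit 2040) (.e (nat_lit 1217) (nat_lit 90) (.e (nat_lit 81949) (nat_lit 21) (.e (nat_lit 57655) (nat_lit 152) (.e (nat_lit 1217) (nat_lit 90) (.e (nat_lit 81949) (nat_lit 21) (.e (nat_lit 57655) (nat_lit 152) .nil)))))) (.g (nat_lit 5) .nil .nil)))) (.nd (nat_lit 5) 
(.lf (nat_lit 35932) (.g (nat_lit 1355) (.e (nat_lit 1217) (nat_lit 90) (.e (nat_lit 81947) (nat_lit 20) (.e (nat_lit 2270) (nat_lit 149) (.e (nat_lit 761868) (nat_lit 5) .nil)))) .nil)) 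
(.lf (nat_lit 35964) (.g (nat_lit 694) (.e (nat_lit 1217) (nat_lit 90) (.e (nat_lit 81950) (nat_lit 21) (.e (nat_lit 57680) (nat_lit 155) .nil))) .nil)))))) (.nd (nat_lit 2) (.nd (nat_lit 3) (.nd (nat_lit 4) (.nd (nat_lit 5) 
(.lf (nat_lit 35906) (.g (nat_lit 429) (.e (nat_lit 1217) (nat_lit 90) (.e (nat_lit 81946) (nat_lit 20) (.e (nat_lit 2280) (nat_lit 150) .nil))) .nil)) 
(.lf (nat_lit 35938) (.g (nat_lit 2229) (.e (nat_lit 1217) (nat_lit 90) (.e (nat_lit 81947) (nat_lit 20) (.e (nat_lit 2281) (nat_lit 150) (.e (nat_lit 770072) (nat_lit 8) (.e (nat_lit 65610) (nat_lit 10) (.e (nat_lit 344097) (nat_lit 18) (.e (nat_lit 7145) (nat_lit 382) .nil))))))) (.g (nat_lit 4) .nil .nil)))) (.nd (nat_lit 5) 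
(.lf (nat_lit 35922) (.g (nat_lit 864) (.e (nat_lit 1217) (nat_lit 90) (.e (nat_lit 81946) (nat_lit 20) (.e (nat_lit 2281) (nat_lit 150) (.e (nat_lit 770058) (nat_lit 5) .nil)))) .nil)) 
(.lf (nat_lit 35954) (.g (nat_lit 1629) (.e (nat_lit 1217) (nat_lit 90) (.e (nat_lit 81949) (nat_lit 21) (.e (nat_lit 57683) (nat_lit 155) (.e (nat_lit 122919) (nat_lit 15) (.e (nat_lit 360454) (nat_lit 0) .nil))))) .nil)))) (.nd (nat_lit 4) (.nd (nat_lit 5) 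
(.lf (nat_lit 35914) (.g (nat_lit 3055) (.e (nat_lit 1217) (nat_lit 90) (.e (nat_lit 81946) (nat_lit 20) (.e (nat_lit 2280) (nat_lit 150) (.e (nat_lit 770071) (nat_lit 8) (.e (nat_lit 65619) (nat_lit 10) (.e (nat_lit 344097) (nat_lit 18) (.e (nat_lit 7147) (nat_lit 382) .nil))))))) (.g (nat_lit 7) .nil .nil))) 
(.lf (nat_lit 35946) (.g (nat_lit 1675) (.e (nat_lit 1217) (nat_lit 90) (.e (nat_lit 81948) (nat_lit 21) (.e (nat_lit 57683) (nat_lit 155) (.e (nat_lit 122917) (nat_lit 15) (.e (nat_lit 360452) (nat_lit 0) .nil))))) .nil))) (.nd (nat_lit 5) 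
(.lf (nat_lit 35930) (.g (nat_lit 645) (.e (nat_lit 1217) (nat_lit 90) (.e (nat_lit 81947) (nat_lit 20) (.e (nat_lit 1842) (nat_lit 123) .nil))) .nil)) 
(.lf (nat_lit 35962) (.g (nat_lit 1514) (.e (nat_lit 1217) (nat_lit 90) (.e (nat_lit 81950) (nat_lit 21) (.e (nat_lit 57654) (nat_lit 152) (.e (nat_lit 1217) (nat_lit 90) (.e (nat_lit 81949) (nat_lit 21) .nil))))) .nil))))) (.nd (nat_lit 3) (.nd (nat_lit 4) (.nd (nat_lit 5) 
(.lf (nat_lit 35910) (.g (nat_lit 2300) (.e (nat_lit 1217) (nat_lit 90) (.e (nat_lit 81946) (nat_lit 20) (.e (nat_lit 2280) (nat_lit 150) (.e (nat_lit 770057) (nat_lit 5) (.e (nat_lit 1589) (nat_lit 111) (.e (nat_lit 360453) (nat_lit 0) (.e (nat_lit 7147) (nat_lit 382) .nil))))))) (.g (nat_lit 6) .nil .nil))) 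
(.lf (nat_lit 35942) (.g (nat_lit 1994) (.e (nat_lit 1217) (nat_lit 90) (.e (nat_lit 81947) (nat_lit 20) (.e (nat_lit 2281) (nat_lit 150) (.e (nat_lit 770074) (nat_lit 10) (.e (nat_lit 81949) (nat_lit 21) (.e (nat_lit 57655) (nat_lit 152) .nil)))))) (.g (nat_lit 5) .nil .nil)))) (.nd (nat_lit 5) 
(.lf (nat_lit 35926) (.g (nat_lit 2402) (.e (nat_lit 1217) (nat_lit 90) (.e (nat_lit 81946) (nat_lit 20) (.e (nat_lit 2281) (nat_lit 150) (.e (nat_lit 770074) (nat_lit 10) (.e (nat_lit 81948) (nat_lit 21) (.e (nat_lit 57654) (nat_lit 152) .nil)))))) (.g (nat_lit 6) .nil .nil))) 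
(.lf (nat_lit 35958) (.g (nat_lit 1446) (.e (nat_lit 1217) (nat_lit 90) (.e (nat_lit 81949) (nat_lit 21) (.e (nat_lit 57684) (nat_lit 155) (.e (nat_lit 122919) (nat_lit 15) (.e (nat_lit 360453) (nat_lit 0) .nil))))) .nil)))) (.nd (nat_lit 4) (.nd (nat_lit 5) 
(.lf (nat_lit 35918) (.g (nat_lit 2836) (.e (nat_lit 1217) (nat_lit 90) (.e (nat_lit 81946) (nat_lit 20) (.e (nat_lit 2280) (nat_lit 150) (.e (nat_lit 770072) (nat_lit 8) (.e (nat_lit 65619) (nat_lit 10) (.e (nat_lit 344097) (nat_lit 18) (.e (nat_lit 7147) (nat_lit 382) .nil))))))) (.g (nat_lit 7) .nil .nil))) 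
(.lf (nat_lit 35950) (.g (nat_lit 1897) (.e (nat_lit 1217) (nat_lit 90) (.e (nat_lit 81949) (nat_lit 21) (.e (nat_lit 57683) (nat_lit 155) (.e (nat_lit 122916) (nat_lit 14) (.e (nat_lit 352309) (nat_lit 21) .nil))))) .nil))) (.nd (nat_lit 5) 
(.lf (nat_lit 35934) (.g (nat_lit 1568) (.e (nat_lit 1217) (nat_lit 90) (.e (nat_lit 81947) (nat_lit 20) (.e (nat_lit 2280) (nat_lit 150) (.e (nat_lit 770071) (nat_lit 8) (.e (nat_lit 65610) (nat_lit 10) .nil))))) .nil)) 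
(.lf (nat_lit 35966) (.g (nat_lit 2345) (.e (nat_lit 1217) (nat_lit 90) (.e (nat_lit 81950) (nat_lit 21) (.e (nat_lit 57681) (nat_lit 155) (.e (nat_lit 122916) (nat_lit 14) .nil)))) .nil))))))) (.nd (nat_lit 1) (.nd (nat_lit 2) (.nd (nat_lit 3) (.nd (nat_lit 4) (.nd (nat_lit 5) 
(.lf (nat_lit 35905) (.g (nat_lit 1394) (.e (nat_lit 1217) (nat_lit 90) (.e (nat_lit 81946) (nat_lit 20) (.e (nat_lit 1963) (nat_lit 134) (.e (nat_lit 638986) (nat_lit 5) (.e (nat_lit 3015) (nat_lit 187) (.e (nat_lit 450560) (nat_lit 0) (.e (nat_lit 5060) (nat_lit 292) .nil))))))) (.g (nat_lit 5) .nil .nil))) 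
(.lf (nat_lit 35937) (.g (nat_lit 2254) (.e (nat_lit 1217) (nat_lit 90) (.e (nat_lit 81947) (nat_lit 20) (.e (nat_lit 2281) (nat_lit 150) (.e (nat_lit 770072) (nat_lit 8) (.e (nat_lit 65583) (nat_lit 7) (.e (nat_lit 319516) (nat_lit 11) (.e (nat_lit 8544) (nat_lit 230) .nil))))))) (.g (nat_lit 4) .nil .nil)))) (.nd (nat_lit 5) 
(.lf (nat_lit 35921) (.g (nat_lit 1495) (.e (nat_lit 1217) (nat_lit 90) (.e (nat_lit 81946) (nat_lit 20) (.e (nat_lit 2281) (nat_lit 150) (.e (nat_lit 770054) (nat_lit 5) (.e (nat_lit 1615) (nat_lit 113) (.e (nat_lit 376859) (nat_lit 21) (.e (nat_lit 57655) (nat_lit 152) .nil))))))) (.g (nat_lit 5) .nil .nil))) 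
(.lf (nat_lit 35953) (.g (nat_lit 1599) (.e (nat_lit 1217) (nat_lit 90) (.e (nat_lit 81949) (nat_lit 21) (.e (nat_lit 57683) (nat_lit 155) (.e (nat_lit 122919) (nat_lit 15) (.e (nat_lit 360453) (nat_lit 0) .nil))))) .nil)))) (.nd (nat_lit 4) (.nd (nat_lit 5) 
(.lf (nat_lit 35913) (.g (nat_lit 3342) (.e (nat_lit 1217) (nat_lit 90) (.e (nat_lit 81946) (nat_lit 20) (.e (nat_lit 2280) (nat_lit 150) (.e (nat_lit 770071) (nat_lit 8) (.e (nat_lit 65610) (nat_lit 10) (.e (nat_lit 344097) (nat_lit 18) (.e (nat_lit 7147) (nat_lit 382) .nil))))))) (.g (nat_lit 7) .nil .nil))) 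
(.lf (nat_lit 35945) (.g (nat_lit 2789) (.e (nat_lit 1217) (nat_lit 90) (.e (nat_lit 81948) (nat_lit 21) (.e (nat_lit 57683) (nat_lit 155) (.e (nat_lit 122916) (nat_lit 14) (.e (nat_lit 352309) (nat_lit 21) (.e (nat_lit 57654) (nat_lit 152) .nil)))))) (.g (nat_lit 5) .nil .nil)))) (.nd (nat_lit 5) 
(.lf (nat_lit 35929) (.g (nat_lit 2492) (.e (nat_lit 1217) (nat_lit 90) (.e (nat_lit 81946) (nat_lit 20) (.e (nat_lit 2281) (nat_lit 150) (.e (nat_lit 770076) (nat_lit 12) (.e (nat_lit 131116) (nat_lit 9) (.e (nat_lit 335986) (nat_lit 1) (.e (nat_lit 57655) (nat_lit 152) .nil))))))) (.g (nat_lit 6) .nil .nil))) 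
(.lf (nat_lit 35961) (.g (nat_lit 1077) (.e (nat_lit 1217) (nat_lit 90) (.e (nat_lit 81950) (nat_lit 21) (.e (nat_lit 57654) (nat_lit 152) (.e (nat_lit 1216) (nat_lit 90) .nil)))) .nil))))) (.nd (nat_lit 3) (.nd (nat_lit 4) (.nd (nat_lit 5) 
(.lf (nat_lit 35909) (.g (nat_lit 2682) (.e (nat_lit 1217) (nat_lit 90) (.e (nat_lit 81946) (nat_lit 20) (.e (nat_lit 2280) (nat_lit 150) (.e (nat_lit 770055) (nat_lit 5) (.e (nat_lit 1598) (nat_lit 111) (.e (nat_lit 360452) (nat_lit 0) (.e (nat_lit 7147) (nat_lit 382) .nil))))))) (.g (nat_lit 6) .nil .nil))) 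
(.lf (nat_lit 35941) (.g (nat_lit 1606) (.e (nat_lit 1217) (nat_lit 90) (.e (nat_lit 81947) (nat_lit 20) (.e (nat_lit 2281) (nat_lit 150) (.e (nat_lit 770074) (nat_lit 10) (.e (nat_lit 81948) (nat_lit 21) (.e (nat_lit 57654) (nat_lit 152) .nil)))))) (.g (nat_lit 4) .nil .nil)))) (.nd (nat_lit 5) 
(.lf (nat_lit 35925) (.g (nat_lit 3068) (.e (nat_lit 1217) (nat_lit 90) (.e (nat_lit 81946) (nat_lit 20) (.e (nat_lit 2281) (nat_lit 150) (.e (nat_lit 770072) (nat_lit 8) (.e (nat_lit 65630) (nat_lit 14) (.e (nat_lit 401422) (nat_lit 1) (.e (nat_lit 164149) (nat_lit 152) .nil))))))) (.g (nat_lit 6) .nil .nil))) 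
(.lf (nat_lit 35957) (.g (nat_lit 1897) (.e (nat_lit 1217) (nat_lit 90) (.e (nat_lit 81949) (nat_lit 21) (.e (nat_lit 57684) (nat_lit 155) (.e (nat_lit 122917) (nat_lit 15) (.e (nat_lit 360452) (nat_lit 0) (.e (nat_lit 7147) (nat_lit 382) .nil)))))) (.g (nat_lit 5) .nil .nil))))) (.nd (nat_lit 4) (.nd (nat_lit 5) 
(.lf (nat_lit 35917) (.g (nat_lit 3479) (.e (nat_lit 1217) (nat_lit 90) (.e (nat_lit 81946) (nat_lit 20) (.e (nat_lit 2280) (nat_lit 150) (.e (nat_lit 770072) (nat_lit 8) (.e (nat_lit 65610) (nat_lit 10) (.e (nat_lit 344097) (nat_lit 18) (.e (nat_lit 7147) (nat_lit 382) .nil))))))) (.g (nat_lit 7) .nil .nil))) 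
(.lf (nat_lit 35949) (.g (nat_lit 2246) (.e (nat_lit 1217) (nat_lit 90) (.e (nat_lit 81949) (nat_lit 21) (.e (nat_lit 57681) (nat_lit 155) (.e (nat_lit 122917) (nat_lit 15) (.e (nat_lit 360453) (nat_lit 0) .nil))))) .nil))) (.nd (nat_lit 5) 
(.lf (nat_lit 35933) (.g (nat_lit 2744) (.e (nat_lit 1217) (nat_lit 90) (.e (nat_lit 81947) (nat_lit 20) (.e (nat_lit 2270) (nat_lit 149) (.e (nat_lit 761868) (nat_lit 5) (.e (nat_lit 1597) (nat_lit 111) (.e (nat_lit 360452) (nat_lit 0) (.e (nat_lit 7147) (nat_lit 382) .nil))))))) (.g (nat_lit 6) .nil .nil))) 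
(.lf (nat_lit 35965) (.g (nat_lit 712) (.e (nat_lit 1217) (nat_lit 90) (.e (nat_lit 81950) (nat_lit 21) (.e (nat_lit 57681) (nat_lit 155) .nil))) .nil)))))) (.nd (nat_lit 2) (.nd (nat_lit 3) (.nd (nat_lit 4) (.nd (nat_lit 5) 
(.lf (nat_lit 35907) (.g (nat_lit 1737) (.e (nat_lit 1217) (nat_lit 90) (.e (nat_lit 81946) (nat_lit 20) (.e (nat_lit 2280) (nat_lit 150) (.e (nat_lit 770055) (nat_lit 5) (.e (nat_lit 1589) (nat_lit 111) (.e (nat_lit 360453) (nat_lit 0) (.e (nat_lit 7147) (nat_lit 382) .nil))))))) (.g (nat_lit 4) .nil .nil))) 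
(.lf (nat_lit 35939) (.g (nat_lit 3423) (.e (nat_lit 1217) (nat_lit 90) (.e (nat_lit 81947) (nat_lit 20) (.e (nat_lit 2281) (nat_lit 150) (.e (nat_lit 770072) (nat_lit 8) (.e (nat_lit 65610) (nat_lit 10) (.e (nat_lit 344097) (nat_lit 18) (.e (nat_lit 7147) (nat_lit 382) .nil))))))) (.g (nat_lit 6) .nil .nil)))) (.nd (nat_lit 5) 
(.lf (nat_lit 35923) (.g (nat_lit 3018) (.e (nat_lit 1217) (nat_lit 90) (.e (nat_lit 81946) (nat_lit 20) (.e (nat_lit 2281) (nat_lit 150) (.e (nat_lit 770072) (nat_lit 8) (.e (nat_lit 65583) (nat_lit 7) (.e (nat_lit 319516) (nat_lit 11) (.e (nat_lit 8544) (nat_lit 230) .nil))))))) (.g (nat_lit 0) .nil .nil))) 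
(.lf (nat_lit 35955) (.g (nat_lit 3027) (.e (nat_lit 1217) (nat_lit 90) (.e (nat_lit 81949) (nat_lit 21) (.e (nat_lit 57684) (nat_lit 155) (.e (nat_lit 122916) (nat_lit 14) (.e (nat_lit 352309) (nat_lit 21) (.e (nat_lit 57654) (nat_lit 152) .nil)))))) (.g (nat_lit 6) .nil .nil))))) (.nd (nat_lit 4) (.nd (nat_lit 5) 
(.lf (nat_lit 35915) (.g (nat_lit 2667) (.e (nat_lit 1217) (nat_lit 90) (.e (nat_lit 81946) (nat_lit 20) (.e (nat_lit 2280) (nat_lit 150) (.e (nat_lit 770071) (nat_lit 8) (.e (nat_lit 65630) (nat_lit 14) (.e (nat_lit 401422) (nat_lit 1) (.e (nat_lit 164149) (nat_lit 152) .nil))))))) (.g (nat_lit 6) .nil .nil))) 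
(.lf (nat_lit 35947) (.g (nat_lit 1687) (.e (nat_lit 1217) (nat_lit 90) (.e (nat_lit 81948) (nat_lit 21) (.e (nat_lit 57683) (nat_lit 155) (.e (nat_lit 122917) (nat_lit 15) (.e (nat_lit 360453) (nat_lit 0) .nil))))) .nil))) (.nd (nat_lit 5) 
(.lf (nat_lit 35931) (.g (nat_lit 1575) (.e (nat_lit 1217) (nat_lit 90) (.e (nat_lit 81947) (nat_lit 20) (.e (nat_lit 2270) (nat_lit 149) (.e (nat_lit 761867) (nat_lit 5) .nil)))) .nil)) 
(.lf (nat_lit 35963) (.g (nat_lit 1526) (.e (nat_lit 1217) (nat_lit 90) (.e (nat_lit 81950) (nat_lit 21) (.e (nat_lit 57654) (nat_lit 152) (.e (nat_lit 1217) (nat_lit 90) (.e (nat_lit 81950) (nat_lit 21) .nil))))) .nil))))) (.nd (nat_lit 3) (.nd (nat_lit 4) (.nd (nat_lit 5) 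
(.lf (nat_lit 35911) (.g (nat_lit 2356) (.e (nat_lit 1217) (nat_lit 90) (.e (nat_lit 81946) (nat_lit 20) (.e (nat_lit 2280) (nat_lit 150) (.e (nat_lit 770057) (nat_lit 5) (.e (nat_lit 1595) (nat_lit 111) (.e (nat_lit 360453) (nat_lit 0) (.e (nat_lit 7147) (nat_lit 382) .nil))))))) (.g (nat_lit 6) .nil .nil))) 
(.lf (nat_lit 35943) (.g (nat_lit 1812) (.e (nat_lit 1217) (nat_lit 90) (.e (nat_lit 81947) (nat_lit 20) (.e (nat_lit 2281) (nat_lit 150) (.e (nat_lit 770076) (nat_lit 12) (.e (nat_lit 131116) (nat_lit 9) .nil))))) .nil))) (.nd (nat_lit 5) 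
(.lf (nat_lit 35927) (.g (nat_lit 2981) (.e (nat_lit 1217) (nat_lit 90) (.e (nat_lit 81946) (nat_lit 20) (.e (nat_lit 2281) (nat_lit 150) (.e (nat_lit 770074) (nat_lit 10) (.e (nat_lit 81950) (nat_lit 21) (.e (nat_lit 57654) (nat_lit 152) .nil)))))) (.g (nat_lit 0) .nil .nil))) 
(.lf (nat_lit 35959) (.g (nat_lit 1566) (.e (nat_lit 1217) (nat_lit 90) (.e (nat_lit 81949) (nat_lit 21) (.e (nat_lit 57684) (nat_lit 155) (.e (nat_lit 122919) (nat_lit 15) (.e (nat_lit 360454) (nat_lit 0) (.e (nat_lit 7147) (nat_lit 382) .nil)))))) (.g (nat_lit 4) .nil .nil))))) (.nd (nat_lit 4) (.nd (nat_lit 5) 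
(.lf (nat_lit 35919) (.g (nat_lit 2634) (.e (nat_lit 1217) (nat_lit 90) (.e (nat_lit 81946) (nat_lit 20) (.e (nat_lit 2280) (nat_lit 150) (.e (nat_lit 770072) (nat_lit 8) (.e (nat_lit 65630) (nat_lit 14) (.e (nat_lit 401422) (nat_lit 1) (.e (nat_lit 164149) (nat_lit 152) .nil))))))) (.g (nat_lit 5) .nil .nil))) 
(.lf (nat_lit 35951) (.g (nat_lit 1808) (.e (nat_lit 1217) (nat_lit 90) (.e (nat_lit 81949) (nat_lit 21) (.e (nat_lit 57683) (nat_lit 155) (.e (nat_lit 122917) (nat_lit 15) (.e (nat_lit 360452) (nat_lit 0) .nil))))) .nil))) (.nd (nat_lit 5) 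
(.lf (nat_lit 35935) (.g (nat_lit 520) (.e (nat_lit 1217) (nat_lit 90) (.e (nat_lit 81947) (nat_lit 20) (.e (nat_lit 2281) (nat_lit 150) .nil))) .nil)) 
(.lf (nat_lit 35967) (.g (nat_lit 3105) (.e (nat_lit 1217) (nat_lit 90) (.e (nat_lit 81950) (nat_lit 21) (.e (nat_lit 57681) (nat_lit 155) (.e (nat_lit 122916) (nat_lit 14) (.e (nat_lit 352309) (nat_lit 21) .nil))))) .nil))))))))

noncomputable def tv502 : DT := (.nd (nat_lit 0) (.nd (nat_lit 1) (.nd (nat_lit 2) (.nd (nat_lit 3) (.nd (nat_lit 4) (.nd (nat_lit 5) 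
(.lf (nat_lit 35968) (.g (nat_lit 3194) (.e (nat_lit 1217) (nat_lit 90) (.e (nat_lit 81950) (nat_lit 21) (.e (nat_lit 57681) (nat_lit 155) (.e (nat_lit 122916) (nat_lit 14) (.e (nat_lit 352309) (nat_lit 21) (.e (nat_lit 57655) (nat_lit 152) .nil)))))) (.g (nat_lit 4) .nil .nil))) 
(.lf (nat_lit 36000) (.g (nat_lit 3272) (.e (nat_lit 1217) (nat_lit 90) (.e (nat_lit 81956) (nat_lit 23) (.e (nat_lit 98313) (nat_lit 9) (.e (nat_lit 335995) (nat_lit 1) (.e (nat_lit 57847) (nat_lit 252) (.e (nat_lit 57365) (nat_lit 1) (.e (nat_lit 65280) (nat_lit 209) .nil))))))) (.g (nat_lit 4) .nil .nil)))) (.nd (nat_lit 5) 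
(.lf (nat_lit 35984) (.g (nat_lit 565) (.e (nat_lit 1217) (nat_lit 90) (.e (nat_lit 81950) (nat_lit 21) (.e (nat_lit 57684) (nat_lit 155) .nil))) .nil)) 
(.lf (nat_lit 36016) (.g (nat_lit 3703) (.e (nat_lit 1217) (nat_lit 90) (.e (nat_lit 81956) (nat_lit 23) (.e (nat_lit 98389) (nat_lit 33) (.e (nat_lit 491560) (nat_lit 10) (.e (nat_lit 344096) (nat_lit 18) (.e (nat_lit 3928) (nat_lit 239) .nil)))))) (.g (nat_lit 4) .nil .nil))))) (.nd (nat_lit 4) (.nd (nat_lit 5) 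
(.lf (nat_lit 35976) (.g (nat_lit 1232) (.e (nat_lit 1217) (nat_lit 90) (.e (nat_lit 81950) (nat_lit 21) (.e (nat_lit 57683) (nat_lit 155) (.e (nat_lit 122915) (nat_lit 14) .nil)))) .nil)) 
(.lf (nat_lit 36008) (.g (nat_lit 3698) (.e (nat_lit 1217) (nat_lit 90) (.e (nat_lit 81956) (nat_lit 23) (.e (nat_lit 98384) (nat_lit 32) (.e (nat_lit 475214) (nat_lit 42) (.e (nat_lit 720929) (nat_lit 21) .nil))))) .nil))) (.nd (nat_lit 5) 
(.lf (nat_lit 35992) (.g (nat_lit 3392) (.e (nat_lit 1217) (nat_lit 90) (.e (nat_lit 81951) (nat_lit 22) (.e (nat_lit 90134) (nat_lit 9) (.e (nat_lit 3098) (nat_lit 192) (.e (nat_lit 491566) (nat_lit 12) (.e (nat_lit 385045) (nat_lit 21) (.e (nat_lit 4175) (nat_lit 251) .nil))))))) (.g (nat_lit 5) .nil .nil))) 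
(.lf (nat_lit 36024) (.g (nat_lit 1994) (.e (nat_lit 1217) (nat_lit 90) (.e (nat_lit 81957) (nat_lit 24) (.e (nat_lit 123197) (nat_lit 266) (.e (nat_lit 57436) (nat_lit 17) (.e (nat_lit 376860) (nat_lit 21) .nil))))) .nil))))) (.nd (nat_lit 3) (.nd (nat_lit 4) (.nd (nat_lit 5) 
(.lf (nat_lit 35972) (.g (nat_lit 1985) (.e (nat_lit 1217) (nat_lit 90) (.e (nat_lit 81950) (nat_lit 21) (.e (nat_lit 57681) (nat_lit 155) (.e (nat_lit 122919) (nat_lit 15) .nil)))) .nil)) 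
(.lf (nat_lit 36004) (.g (nat_lit 3713) (.e (nat_lit 1217) (nat_lit 90) (.e (nat_lit 81956) (nat_lit 23) (.e (nat_lit 98320) (nat_lit 17) (.e (nat_lit 7591) (nat_lit 407) (.e (nat_lit 73729) (nat_lit 0) (.e (nat_lit 3928) (nat_lit 239) .nil)))))) (.g (nat_lit 4) .nil .nil)))) (.nd (nat_lit 5) 
(.lf (nat_lit 35988) (.g (nat_lit 1757) (.e (nat_lit 1217) (nat_lit 90) (.e (nat_lit 81950) (nat_lit 21) (.e (nat_lit 57684) (nat_lit 155) (.e (nat_lit 122919) (nat_lit 15) (.e (nat_lit 360452) (nat_lit 0) (.e (nat_lit 7147) (nat_lit 382) .nil)))))) (.g (nat_lit 4) .nil .nil))) 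
(.lf (nat_lit 36020) (.g (nat_lit 2113) (.e (nat_lit 1217) (nat_lit 90) (.e (nat_lit 81957) (nat_lit 24) (.e (nat_lit 123182) (nat_lit 264) (.e (nat_lit 1224) (nat_lit 90) .nil)))) .nil)))) (.nd (nat_lit 4) (.nd (nat_lit 5) 
(.lf (nat_lit 35980) (.g (nat_lit 2396) (.e (nat_lit 1217) (nat_lit 90) (.e (nat_lit 81950) (nat_lit 21) (.e (nat_lit 57683) (nat_lit 155) (.e (nat_lit 122917) (nat_lit 15) (.e (nat_lit 360453) (nat_lit 0) (.e (nat_lit 7147) (nat_lit 382) .nil)))))) (.g (nat_lit 5) .nil .nil))) 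
(.lf (nat_lit 36012) (.g (nat_lit 2534) (.e (nat_lit 1217) (nat_lit 90) (.e (nat_lit 81956) (nat_lit 23) (.e (nat_lit 98389) (nat_lit 33) (.e (nat_lit 491558) (nat_lit 10) (.e (nat_lit 344089) (nat_lit 18) .nil))))) .nil))) (.nd (nat_lit 5) 
(.lf (nat_lit 35996) (.g (nat_lit 4094) (.e (nat_lit 1217) (nat_lit 90) (.e (nat_lit 81953) (nat_lit 22) (.e (nat_lit 90134) (nat_lit 9) (.e (nat_lit 3098) (nat_lit 192) (.e (nat_lit 491566) (nat_lit 12) (.e (nat_lit 385045) (nat_lit 21) (.e (nat_lit 4175) (nat_lit 251) .nil))))))) (.g (nat_lit 7) .nil .nil))) 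
(.lf (nat_lit 36028) (.g (nat_lit 2384) (.e (nat_lit 1217) (nat_lit 90) (.e (nat_lit 81959) (nat_lit 24) (.e (nat_lit 123056) (nat_lit 155) (.e (nat_lit 122916) (nat_lit 14) (.e (nat_lit 352309) (nat_lit 21) (.e (nat_lit 57655) (nat_lit 152) .nil)))))) (.g (nat_lit 4) .nil .nil))))))) (.nd (nat_lit 2) (.nd (nat_lit 3) (.nd (nat_lit 4) (.nd (nat_lit 5) 
(.lf (nat_lit 35970) (.g (nat_lit 3483) (.e (nat_lit 1217) (nat_lit 90) (.e (nat_lit 81950) (nat_lit 21) (.e (nat_lit 57681) (nat_lit 155) (.e (nat_lit 122917) (nat_lit 15) (.e (nat_lit 360452) (nat_lit 0) .nil))))) .nil)) 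
(.lf (nat_lit 36002) (.g (nat_lit 1871) (.e (nat_lit 1217) (nat_lit 90) (.e (nat_lit 81956) (nat_lit 23) (.e (nat_lit 98320) (nat_lit 17) (.e (nat_lit 7587) (nat_lit 406) .nil)))) .nil))) (.nd (nat_lit 5) 
(.lf (nat_lit 35986) (.g (nat_lit 3218) (.e (nat_lit 1217) (nat_lit 90) (.e (nat_lit 81950) (nat_lit 21) (.e (nat_lit 57684) (nat_lit 155) (.e (nat_lit 122916) (nat_lit 14) (.e (nat_lit 352309) (nat_lit 21) (.e (nat_lit 57653) (nat_lit 152) .nil)))))) (.g (nat_lit 5) .nil .nil))) 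
(.lf (nat_lit 36018) (.g (nat_lit 3900) (.e (nat_lit 1217) (nat_lit 90) (.e (nat_lit 81956) (nat_lit 23) (.e (nat_lit 98389) (nat_lit 33) (.e (nat_lit 491563) (nat_lit 12) (.e (nat_lit 385045) (nat_lit 21) .nil))))) .nil)))) (.nd (nat_lit 4) (.nd (nat_lit 5) 
(.lf (nat_lit 35978) (.g (nat_lit 3600) (.e (nat_lit 1217) (nat_lit 90) (.e (nat_lit 81950) (nat_lit 21) (.e (nat_lit 57683) (nat_lit 155) (.e (nat_lit 122916) (nat_lit 14) (.e (nat_lit 352309) (nat_lit 21) (.e (nat_lit 57654) (nat_lit 152) .nil)))))) (.g (nat_lit 0) .nil .nil))) 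
(.lf (nat_lit 36010) (.g (nat_lit 2890) (.e (nat_lit 1217) (nat_lit 90) (.e (nat_lit 81956) (nat_lit 23) (.e (nat_lit 98388) (nat_lit 33) (.e (nat_lit 491566) (nat_lit 12) (.e (nat_lit 385045) (nat_lit 21) (.e (nat_lit 4175) (nat_lit 251) .nil)))))) (.g (nat_lit 4) .nil .nil)))) (.nd (nat_lit 5) 
(.lf (nat_lit 35994) (.g (nat_lit 3324) (.e (nat_lit 1217) (nat_lit 90) (.e (nat_lit 81952) (nat_lit 22) (.e (nat_lit 90160) (nat_lit 11) (.e (nat_lit 24599) (nat_lit 1) (.e (nat_lit 57847) (nat_lit 252) (.e (nat_lit 57365) (nat_lit 1) (.e (nat_lit 65280) (nat_lit 209) .nil))))))) (.g (nat_lit 6) .nil .nil))) 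
(.lf (nat_lit 36026) (.g (nat_lit 503) (.e (nat_lit 1217) (nat_lit 90) (.e (nat_lit 81959) (nat_lit 24) (.e (nat_lit 123056) (nat_lit 155) .nil))) .nil))))) (.nd (nat_lit 3) (.nd (nat_lit 4) (.nd (nat_lit 5) 
(.lf (nat_lit 35974) (.g (nat_lit 3403) (.e (nat_lit 1217) (nat_lit 90) (.e (nat_lit 81950) (nat_lit 21) (.e (nat_lit 57681) (nat_lit 155) (.e (nat_lit 122919) (nat_lit 15) (.e (nat_lit 360453) (nat_lit 0) .nil))))) .nil)) 
(.lf (nat_lit 36006) (.g (nat_lit 1034) (.e (nat_lit 1217) (nat_lit 90) (.e (nat_lit 81956) (nat_lit 23) (.e (nat_lit 98325) (nat_lit 17) .nil))) .nil))) (.nd (nat_lit 5) 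
(.lf (nat_lit 35990) (.g (nat_lit 2134) (.e (nat_lit 1217) (nat_lit 90) (.e (nat_lit 81950) (nat_lit 21) (.e (nat_lit 57684) (nat_lit 155) (.e (nat_lit 122919) (nat_lit 15) (.e (nat_lit 360454) (nat_lit 0) (.e (nat_lit 7147) (nat_lit 382) .nil)))))) (.g (nat_lit 5) .nil .nil))) 
(.lf (nat_lit 36022) (.g (nat_lit 3303) (.e (nat_lit 1217) (nat_lit 90) (.e (nat_lit 81957) (nat_lit 24) (.e (nat_lit 123195) (nat_lit 266) (.e (nat_lit 57427) (nat_lit 15) (.e (nat_lit 360451) (nat_lit 0) (.e (nat_lit 7936) (nat_lit 320) .nil)))))) (.g (nat_lit 5) .nil .nil))))) (.nd (nat_lit 4) (.nd (nat_lit 5) 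
(.lf (nat_lit 35982) (.g (nat_lit 2254) (.e (nat_lit 1217) (nat_lit 90) (.e (nat_lit 81950) (nat_lit 21) (.e (nat_lit 57683) (nat_lit 155) (.e (nat_lit 122919) (nat_lit 15) (.e (nat_lit 360453) (nat_lit 0) (.e (nat_lit 7147) (nat_lit 382) .nil)))))) (.g (nat_lit 5) .nil .nil))) 
(.lf (nat_lit 36014) (.g (nat_lit 3129) (.e (nat_lit 1217) (nat_lit 90) (.e (nat_lit 81956) (nat_lit 23) (.e (nat_lit 98389) (nat_lit 33) (.e (nat_lit 491560) (nat_lit 10) (.e (nat_lit 344091) (nat_lit 18) (.e (nat_lit 3928) (nat_lit 239) .nil)))))) (.g (nat_lit 4) .nil .nil)))) (.nd (nat_lit 5) 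
(.lf (nat_lit 35998) (.g (nat_lit 1006) (.e (nat_lit 1217) (nat_lit 90) (.e (nat_lit 81953) (nat_lit 22) (.e (nat_lit 90187) (nat_lit 18) .nil))) .nil)) 
(.lf (nat_lit 36030) (.g (nat_lit 2095) (.e (nat_lit 1217) (nat_lit 90) (.e (nat_lit 81959) (nat_lit 24) (.e (nat_lit 123195) (nat_lit 266) (.e (nat_lit 57424) (nat_lit 14) .nil)))) .nil))))))) (.nd (nat_lit 1) (.nd (nat_lit 2) (.nd (nat_lit 3) (.nd (nat_lit 4) (.nd (nat_lit 5) 
(.lf (nat_lit 35969) (.g (nat_lit 2564) (.e (nat_lit 1217) (nat_lit 90) (.e (nat_lit 81950) (nat_lit 21) (.e (nat_lit 57681) (nat_lit 155) (.e (nat_lit 122917) (nat_lit 15) .nil)))) .nil)) 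
(.lf (nat_lit 36001) (.g (nat_lit 2860) (.e (nat_lit 1217) (nat_lit 90) (.e (nat_lit 81956) (nat_lit 23) (.e (nat_lit 98313) (nat_lit 9) (.e (nat_lit 335995) (nat_lit 1) (.e (nat_lit 57848) (nat_lit 252) (.e (nat_lit 57367) (nat_lit 1) (.e (nat_lit 65280) (nat_lit 209) .nil))))))) (.g (nat_lit 4) .nil .nil)))) (.nd (nat_lit 5) 
(.lf (nat_lit 35985) (.g (nat_lit 2023) (.e (nat_lit 1217) (nat_lit 90) (.e (nat_lit 81950) (nat_lit 21) (.e (nat_lit 57684) (nat_lit 155) (.e (nat_lit 122916) (nat_lit 14) (.e (nat_lit 352307) (nat_lit 21) (.e (nat_lit 57655) (nat_lit 152) .nil)))))) (.g (nat_lit 4) .nil .nil))) 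
(.lf (nat_lit 36017) (.g (nat_lit 2795) (.e (nat_lit 1217) (nat_lit 90) (.e (nat_lit 81956) (nat_lit 23) (.e (nat_lit 98389) (nat_lit 33) (.e (nat_lit 491562) (nat_lit 12) (.e (nat_lit 385047) (nat_lit 21) .nil))))) .nil)))) (.nd (nat_lit 4) (.nd (nat_lit 5) 
(.lf (nat_lit 35977) (.g (nat_lit 3394) (.e (nat_lit 1217) (nat_lit 90) (.e (nat_lit 81950) (nat_lit 21) (.e (nat_lit 57683) (nat_lit 155) (.e (nat_lit 122916) (nat_lit 14) (.e (nat_lit 352309) (nat_lit 21) (.e (nat_lit 57653) (nat_lit 152) .nil)))))) (.g (nat_lit 6) .nil .nil))) 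
(.lf (nat_lit 36009) (.g (nat_lit 3594) (.e (nat_lit 1217) (nat_lit 90) (.e (nat_lit 81956) (nat_lit 23) (.e (nat_lit 98384) (nat_lit 32) (.e (nat_lit 475214) (nat_lit 42) (.e (nat_lit 720930) (nat_lit 21) .nil))))) .nil))) (.nd (nat_lit 5) 
(.lf (nat_lit 35993) (.g (nat_lit 1213) (.e (nat_lit 1217) (nat_lit 90) (.e (nat_lit 81952) (nat_lit 22) (.e (nat_lit 90160) (nat_lit 11) (.e (nat_lit 24598) (nat_lit 1) .nil)))) .nil)) 
(.lf (nat_lit 36025) (.g (nat_lit 1684) (.e (nat_lit 1217) (nat_lit 90) (.e (nat_lit 81957) (nat_lit 24) (.e (nat_lit 123198) (nat_lit 266) (.e (nat_lit 57436) (nat_lit 17) (.e (nat_lit 376860) (nat_lit 21) (.e (nat_lit 65280) (nat_lit 264) .nil)))))) (.g (nat_lit 4) .nil .nil)))))) (.nd (nat_lit 3) (.nd (nat_lit 4) (.nd (nat_lit 5) 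
(.lf (nat_lit 35973) (.g (nat_lit 3655) (.e (nat_lit 1217) (nat_lit 90) (.e (nat_lit 81950) (nat_lit 21) (.e (nat_lit 57681) (nat_lit 155) (.e (nat_lit 122919) (nat_lit 15) (.e (nat_lit 360452) (nat_lit 0) .nil))))) .nil)) 
(.lf (nat_lit 36005) (.g (nat_lit 3787) (.e (nat_lit 1217) (nat_lit 90) (.e (nat_lit 81956) (nat_lit 23) (.e (nat_lit 98320) (nat_lit 17) (.e (nat_lit 7593) (nat_lit 407) (.e (nat_lit 73729) (nat_lit 0) (.e (nat_lit 3928) (nat_lit 239) .nil)))))) (.g (nat_lit 4) .nil .nil)))) (.nd (nat_lit 5) 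
(.lf (nat_lit 35989) (.g (nat_lit 1957) (.e (nat_lit 1217) (nat_lit 90) (.e (nat_lit 81950) (nat_lit 21) (.e (nat_lit 57684) (nat_lit 155) (.e (nat_lit 122919) (nat_lit 15) (.e (nat_lit 360453) (nat_lit 0) (.e (nat_lit 7147) (nat_lit 382) .nil)))))) (.g (nat_lit 5) .nil .nil))) 
(.lf (nat_lit 36021) (.g (nat_lit 4154) (.e (nat_lit 1217) (nat_lit 90) (.e (nat_lit 81957) (nat_lit 24) (.e (nat_lit 123195) (nat_lit 266) (.e (nat_lit 57427) (nat_lit 15) (.e (nat_lit 360450) (nat_lit 0) (.e (nat_lit 7936) (nat_lit 320) .nil)))))) (.g (nat_lit 5) .nil .nil))))) (.nd (nat_lit 4) (.nd (nat_lit 5) 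
(.lf (nat_lit 35981) (.g (nat_lit 1783) (.e (nat_lit 1217) (nat_lit 90) (.e (nat_lit 81950) (nat_lit 21) (.e (nat_lit 57683) (nat_lit 155) (.e (nat_lit 122919) (nat_lit 15) (.e (nat_lit 360452) (nat_lit 0) (.e (nat_lit 7147) (nat_lit 382) .nil)))))) (.g (nat_lit 4) .nil .nil))) 
(.lf (nat_lit 36013) (.g (nat_lit 3523) (.e (nat_lit 1217) (nat_lit 90) (.e (nat_lit 81956) (nat_lit 23) (.e (nat_lit 98389) (nat_lit 33) (.e (nat_lit 491560) (nat_lit 10) (.e (nat_lit 344090) (nat_lit 18) (.e (nat_lit 3928) (nat_lit 239) .nil)))))) (.g (nat_lit 4) .nil .nil)))) (.nd (nat_lit 5) 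
(.lf (nat_lit 35997) (.g (nat_lit 4262) (.e (nat_lit 1217) (nat_lit 90) (.e (nat_lit 81953) (nat_lit 22) (.e (nat_lit 90134) (nat_lit 9) (.e (nat_lit 3098) (nat_lit 192) (.e (nat_lit 491566) (nat_lit 12) (.e (nat_lit 385046) (nat_lit 21) (.e (nat_lit 4175) (nat_lit 251) .nil))))))) (.g (nat_lit 7) .nil .nil))) 
(.lf (nat_lit 36029) (.g (nat_lit 2985) (.e (nat_lit 1217) (nat_lit 90) (.e (nat_lit 81959) (nat_lit 24) (.e (nat_lit 123182) (nat_lit 264) (.e (nat_lit 1222) (nat_lit 90) (.e (nat_lit 81957) (nat_lit 24) .nil))))) .nil)))))) (.nd (nat_lit 2) (.nd (nat_lit 3) (.nd (nat_lit 4) (.nd (nat_lit 5) 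
(.lf (nat_lit 35971) (.g (nat_lit 3669) (.e (nat_lit 1217) (nat_lit 90) (.e (nat_lit 81950) (nat_lit 21) (.e (nat_lit 57681) (nat_lit 155) (.e (nat_lit 122917) (nat_lit 15) (.e (nat_lit 360453) (nat_lit 0) (.e (nat_lit 7147) (nat_lit 382) .nil)))))) (.g (nat_lit 4) .nil .nil))) 
(.lf (nat_lit 36003) (.g (nat_lit 1831) (.e (nat_lit 1217) (nat_lit 90) (.e (nat_lit 81956) (nat_lit 23) (.e (nat_lit 98320) (nat_lit 17) (.e (nat_lit 7589) (nat_lit 406) .nil)))) .nil))) (.nd (nat_lit 5) 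
(.lf (nat_lit 35987) (.g (nat_lit 3516) (.e (nat_lit 1217) (nat_lit 90) (.e (nat_lit 81950) (nat_lit 21) (.e (nat_lit 57684) (nat_lit 155) (.e (nat_lit 122916) (nat_lit 14) (.e (nat_lit 352309) (nat_lit 21) (.e (nat_lit 57654) (nat_lit 152) .nil)))))) (.g (nat_lit 6) .nil .nil))) 
(.lf (nat_lit 36019) (.g (nat_lit 2287) (.e (nat_lit 1217) (nat_lit 90) (.e (nat_lit 81957) (nat_lit 24) (.e (nat_lit 130816) (nat_lit 154) (.e (nat_lit 57437) (nat_lit 17) (.e (nat_lit 376859) (nat_lit 21) (.e (nat_lit 57655) (nat_lit 152) .nil)))))) (.g (nat_lit 5) .nil .nil))))) (.nd (nat_lit 4) (.nd (nat_lit 5) 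
(.lf (nat_lit 35979) (.g (nat_lit 2662) (.e (nat_lit 1217) (nat_lit 90) (.e (nat_lit 81950) (nat_lit 21) (.e (nat_lit 57683) (nat_lit 155) (.e (nat_lit 122917) (nat_lit 15) (.e (nat_lit 360452) (nat_lit 0) (.e (nat_lit 7147) (nat_lit 382) .nil)))))) (.g (nat_lit 5) .nil .nil))) 
(.lf (nat_lit 36011) (.g (nat_lit 2721) (.e (nat_lit 1217) (nat_lit 90) (.e (nat_lit 81956) (nat_lit 23) (.e (nat_lit 98389) (nat_lit 33) (.e (nat_lit 491558) (nat_lit 10) (.e (nat_lit 344088) (nat_lit 18) (.e (nat_lit 3920) (nat_lit 239) .nil)))))) (.g (nat_lit 4) .nil .nil)))) (.nd (nat_lit 5) 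
(.lf (nat_lit 35995) (.g (nat_lit 3731) (.e (nat_lit 1217) (nat_lit 90) (.e (nat_lit 81953) (nat_lit 22) (.e (nat_lit 90134) (nat_lit 9) (.e (nat_lit 3098) (nat_lit 192) (.e (nat_lit 491566) (nat_lit 12) (.e (nat_lit 385043) (nat_lit 21) (.e (nat_lit 4175) (nat_lit 251) .nil))))))) (.g (nat_lit 5) .nil .nil))) 
(.lf (nat_lit 36027) (.g (nat_lit 2463) (.e (nat_lit 1217) (nat_lit 90) (.e (nat_lit 81959) (nat_lit 24) (.e (nat_lit 123056) (nat_lit 155) (.e (nat_lit 122916) (nat_lit 14) (.e (nat_lit 352309) (nat_lit 21) (.e (nat_lit 57653) (nat_lit 152) .nil)))))) (.g (nat_lit 4) .nil .nil)))))) (.nd (nat_lit 3) (.nd (nat_lit 4) (.nd (nat_lit 5) 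
(.lf (nat_lit 35975) (.g (nat_lit 3447) (.e (nat_lit 1217) (nat_lit 90) (.e (nat_lit 81950) (nat_lit 21) (.e (nat_lit 57681) (nat_lit 155) (.e (nat_lit 122919) (nat_lit 15) (.e (nat_lit 360454) (nat_lit 0) .nil))))) .nil)) 
(.lf (nat_lit 36007) (.g (nat_lit 951) (.e (nat_lit 1217) (nat_lit 90) (.e (nat_lit 81956) (nat_lit 23) (.e (nat_lit 98356) (nat_lit 26) .nil))) .nil))) (.nd (nat_lit 5) 
(.lf (nat_lit 35991) (.g (nat_lit 2936) (.e (nat_lit 1217) (nat_lit 90) (.e (nat_lit 81950) (nat_lit 21) (.e (nat_lit 57872) (nat_lit 264) (.e (nat_lit 1221) (nat_lit 90) (.e (nat_lit 81959) (nat_lit 24) (.e (nat_lit 123181) (nat_lit 264) .nil)))))) (.g (nat_lit 6) .nil .nil))) 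
(.lf (nat_lit 36023) (.g (nat_lit 1425) (.e (nat_lit 1217) (nat_lit 90) (.e (nat_lit 81957) (nat_lit 24) (.e (nat_lit 123197) (nat_lit 266) (.e (nat_lit 57427) (nat_lit 15) .nil)))) .nil)))) (.nd (nat_lit 4) (.nd (nat_lit 5) 
(.lf (nat_lit 35983) (.g (nat_lit 2294) (.e (nat_lit 1217) (nat_lit 90) (.e (nat_lit 81950) (nat_lit 21) (.e (nat_lit 57683) (nat_lit 155) (.e (nat_lit 122919) (nat_lit 15) (.e (nat_lit 360454) (nat_lit 0) (.e (nat_lit 7147) (nat_lit 382) .nil)))))) (.g (nat_lit 5) .nil .nil))) 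
(.lf (nat_lit 36015) (.g (nat_lit 3044) (.e (nat_lit 1217) (nat_lit 90) (.e (nat_lit 81956) (nat_lit 23) (.e (nat_lit 98389) (nat_lit 33) (.e (nat_lit 491560) (nat_lit 10) (.e (nat_lit 344094) (nat_lit 18) (.e (nat_lit 3928) (nat_lit 239) .nil)))))) (.g (nat_lit 4) .nil .nil)))) (.nd (nat_lit 5) 
(.lf (nat_lit 35999) (.g (nat_lit 1923) (.e (nat_lit 1217) (nat_lit 90) (.e (nat_lit 81955) (nat_lit 23) (.e (nat_lit 98313) (nat_lit 9) (.e (nat_lit 335995) (nat_lit 1) (.e (nat_lit 57848) (nat_lit 252) (.e (nat_lit 57367) (nat_lit 1) (.e (nat_lit 65280) (nat_lit 209) .nil))))))) (.g (nat_lit 5) .nil .nil))) 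
(.lf (nat_lit 36031) (.g (nat_lit 4412) (.e (nat_lit 1217) (nat_lit 90) (.e (nat_lit 81959) (nat_lit 24) (.e (nat_lit 123195) (nat_lit 266) (.e (nat_lit 57427) (nat_lit 15) (.e (nat_lit 360450) (nat_lit 0) (.e (nat_lit 7936) (nat_lit 320) .nil)))))) (.g (nat_lit 5) .nil .nil)))))))))

noncomputable def tv503 : DT := (.nd (nat_lit 0) (.nd (nat_lit 1) (.nd (nat_lit 2) (.nd (nat_lit 3) (.nd (nat_lit 4) (.nd (nat_lit 5) 
(.lf (nat_lit 36032) (.g (nat_lit 3559) (.e (nat_lit 1217) (nat_lit 90) (.e (nat_lit 81959) (nat_lit 24) (.e (nat_lit 123195) (nat_lit 266) (.e (nat_lit 57427) (nat_lit 15) (.e (nat_lit 360451) (nat_lit 0) (.e (nat_lit 7936) (nat_lit 320) .nil)))))) (.g (nat_lit 5) .nil .nil))) 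
(.lf (nat_lit 36064) (.g (nat_lit 3187) (.e (nat_lit 1217) (nat_lit 90) (.e (nat_lit 81963) (nat_lit 26) (.e (nat_lit 147495) (nat_lit 11) (.e (nat_lit 24665) (nat_lit 14) (.e (nat_lit 401421) (nat_lit 1) (.e (nat_lit 164149) (nat_lit 152) .nil)))))) (.g (nat_lit 6) .nil .nil)))) (.nd (nat_lit 5) 
(.lf (nat_lit 36048) (.g (nat_lit 1671) (.e (nat_lit 1217) (nat_lit 90) (.e (nat_lit 81963) (nat_lit 26) (.e (nat_lit 147494) (nat_lit 11) (.e (nat_lit 24665) (nat_lit 14) (.e (nat_lit 401421) (nat_lit 1) .nil))))) .nil)) 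
(.lf (nat_lit 36080) (.g (nat_lit 2254) (.e (nat_lit 1217) (nat_lit 90) (.e (nat_lit 81965) (nat_lit 26) (.e (nat_lit 147492) (nat_lit 11) (.e (nat_lit 24627) (nat_lit 9) (.e (nat_lit 336000) (nat_lit 1) (.e (nat_lit 57654) (nat_lit 152) .nil)))))) (.g (nat_lit 5) .nil .nil))))) (.nd (nat_lit 4) (.nd (nat_lit 5) 
(.lf (nat_lit 36040) (.g (nat_lit 2003) (.e (nat_lit 1217) (nat_lit 90) (.e (nat_lit 81963) (nat_lit 26) (.e (nat_lit 147492) (nat_lit 11) (.e (nat_lit 24636) (nat_lit 9) (.e (nat_lit 335998) (nat_lit 1) (.e (nat_lit 57655) (nat_lit 152) .nil)))))) (.g (nat_lit 6) .nil .nil))) 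
(.lf (nat_lit 36072) (.g (nat_lit 1852) (.e (nat_lit 1217) (nat_lit 90) (.e (nat_lit 81963) (nat_lit 26) (.e (nat_lit 147496) (nat_lit 11) (.e (nat_lit 24642) (nat_lit 11) (.e (nat_lit 368662) (nat_lit 18) (.e (nat_lit 7147) (nat_lit 382) .nil)))))) (.g (nat_lit 4) .nil .nil)))) (.nd (nat_lit 5) 
(.lf (nat_lit 36056) (.g (nat_lit 2920) (.e (nat_lit 1217) (nat_lit 90) (.e (nat_lit 81963) (nat_lit 26) (.e (nat_lit 147495) (nat_lit 11) (.e (nat_lit 24638) (nat_lit 9) (.e (nat_lit 335986) (nat_lit 1) (.e (nat_lit 57655) (nat_lit 152) .nil)))))) (.g (nat_lit 6) .nil .nil))) 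
(.lf (nat_lit 36088) (.g (nat_lit 1813) (.e (nat_lit 1217) (nat_lit 90) (.e (nat_lit 81965) (nat_lit 26) (.e (nat_lit 147492) (nat_lit 11) (.e (nat_lit 24644) (nat_lit 11) (.e (nat_lit 368662) (nat_lit 18) (.e (nat_lit 7147) (nat_lit 382) .nil)))))) (.g (nat_lit 4) .nil .nil)))))) (.nd (nat_lit 3) (.nd (nat_lit 4) (.nd (nat_lit 5) 
(.lf (nat_lit 36036) (.g (nat_lit 306) (.e (nat_lit 1217) (nat_lit 90) (.e (nat_lit 81963) (nat_lit 26) (.e (nat_lit 147464) (nat_lit 9) .nil))) .nil)) 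
(.lf (nat_lit 36068) (.g (nat_lit 1277) (.e (nat_lit 1217) (nat_lit 90) (.e (nat_lit 81963) (nat_lit 26) (.e (nat_lit 147496) (nat_lit 11) (.e (nat_lit 24631) (nat_lit 9) .nil)))) .nil))) (.nd (nat_lit 5) 
(.lf (nat_lit 36052) (.g (nat_lit 2398) (.e (nat_lit 1217) (nat_lit 90) (.e (nat_lit 81963) (nat_lit 26) (.e (nat_lit 147495) (nat_lit 11) (.e (nat_lit 24623) (nat_lit 9) (.e (nat_lit 335997) (nat_lit 1) (.e (nat_lit 57654) (nat_lit 152) .nil)))))) (.g (nat_lit 4) .nil .nil))) 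
(.lf (nat_lit 36084) (.g (nat_lit 1912) (.e (nat_lit 1217) (nat_lit 90) (.e (nat_lit 81965) (nat_lit 26) (.e (nat_lit 147492) (nat_lit 11) (.e (nat_lit 24636) (nat_lit 9) (.e (nat_lit 335998) (nat_lit 1) (.e (nat_lit 57654) (nat_lit 152) .nil)))))) (.g (nat_lit 5) .nil .nil))))) (.nd (nat_lit 4) (.nd (nat_lit 5) 
(.lf (nat_lit 36044) (.g (nat_lit 1693) (.e (nat_lit 1217) (nat_lit 90) (.e (nat_lit 81963) (nat_lit 26) (.e (nat_lit 147493) (nat_lit 11) (.e (nat_lit 24628) (nat_lit 9) (.e (nat_lit 336000) (nat_lit 1) (.e (nat_lit 57655) (nat_lit 152) .nil)))))) (.g (nat_lit 5) .nil .nil))) 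
(.lf (nat_lit 36076) (.g (nat_lit 1297) (.e (nat_lit 1217) (nat_lit 90) (.e (nat_lit 81965) (nat_lit 26) (.e (nat_lit 147466) (nat_lit 9) (.e (nat_lit 314) (nat_lit 23) .nil)))) .nil))) (.nd (nat_lit 5) 
(.lf (nat_lit 36060) (.g (nat_lit 2010) (.e (nat_lit 1217) (nat_lit 90) (.e (nat_lit 81963) (nat_lit 26) (.e (nat_lit 147495) (nat_lit 11) (.e (nat_lit 24665) (nat_lit 14) (.e (nat_lit 401420) (nat_lit 1) .nil))))) .nil)) 
(.lf (nat_lit 36092) (.g (nat_lit 1987) (.e (nat_lit 1217) (nat_lit 90) (.e (nat_lit 81965) (nat_lit 26) (.e (nat_lit 147492) (nat_lit 11) (.e (nat_lit 24665) (nat_lit 14) (.e (nat_lit 401421) (nat_lit 1) (.e (nat_lit 164149) (nat_lit 152) .nil)))))) (.g (nat_lit 4) .nil .nil))))))) (.nd (nat_lit 2) (.nd (nat_lit 3) (.nd (nat_lit 4) (.nd (nat_lit 5) 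
(.lf (nat_lit 36034) (.g (nat_lit 367) (.e (nat_lit 1217) (nat_lit 90) (.e (nat_lit 81963) (nat_lit 26) (.e (nat_lit 147463) (nat_lit 9) .nil))) .nil)) 
(.lf (nat_lit 36066) (.g (nat_lit 943) (.e (nat_lit 1217) (nat_lit 90) (.e (nat_lit 81963) (nat_lit 26) (.e (nat_lit 147496) (nat_lit 11) (.e (nat_lit 24628) (nat_lit 9) .nil)))) .nil))) (.nd (nat_lit 5) 
(.lf (nat_lit 36050) (.g (nat_lit 2517) (.e (nat_lit 1217) (nat_lit 90) (.e (nat_lit 81963) (nat_lit 26) (.e (nat_lit 147495) (nat_lit 11) (.e (nat_lit 24623) (nat_lit 9) (.e (nat_lit 335997) (nat_lit 1) (.e (nat_lit 57651) (nat_lit 152) .nil)))))) (.g (nat_lit 4) .nil .nil))) 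
(.lf (nat_lit 36082) (.g (nat_lit 2600) (.e (nat_lit 1217) (nat_lit 90) (.e (nat_lit 81965) (nat_lit 26) (.e (nat_lit 147492) (nat_lit 11) (.e (nat_lit 24628) (nat_lit 9) (.e (nat_lit 336000) (nat_lit 1) (.e (nat_lit 57654) (nat_lit 152) .nil)))))) (.g (nat_lit 6) .nil .nil))))) (.nd (nat_lit 4) (.nd (nat_lit 5) 
(.lf (nat_lit 36042) (.g (nat_lit 1342) (.e (nat_lit 1217) (nat_lit 90) (.e (nat_lit 81963) (nat_lit 26) (.e (nat_lit 147492) (nat_lit 11) (.e (nat_lit 24644) (nat_lit 11) (.e (nat_lit 368662) (nat_lit 18) (.e (nat_lit 7147) (nat_lit 382) .nil)))))) (.g (nat_lit 4) .nil .nil))) 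
(.lf (nat_lit 36074) (.g (nat_lit 526) (.e (nat_lit 1217) (nat_lit 90) (.e (nat_lit 81965) (nat_lit 26) (.e (nat_lit 147463) (nat_lit 9) .nil))) .nil))) (.nd (nat_lit 5) 
(.lf (nat_lit 36058) (.g (nat_lit 2327) (.e (nat_lit 1217) (nat_lit 90) (.e (nat_lit 81963) (nat_lit 26) (.e (nat_lit 147495) (nat_lit 11) (.e (nat_lit 24640) (nat_lit 10) (.e (nat_lit 344101) (nat_lit 18) (.e (nat_lit 7147) (nat_lit 382) .nil)))))) (.g (nat_lit 4) .nil .nil))) 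
(.lf (nat_lit 36090) (.g (nat_lit 1680) (.e (nat_lit 1217) (nat_lit 90) (.e (nat_lit 81965) (nat_lit 26) (.e (nat_lit 147492) (nat_lit 11) (.e (nat_lit 24665) (nat_lit 14) (.e (nat_lit 401420) (nat_lit 1) .nil))))) .nil))))) (.nd (nat_lit 3) (.nd (nat_lit 4) (.nd (nat_lit 5) 
(.lf (nat_lit 36038) (.g (nat_lit 1580) (.e (nat_lit 1217) (nat_lit 90) (.e (nat_lit 81963) (nat_lit 26) (.e (nat_lit 147492) (nat_lit 11) (.e (nat_lit 24627) (nat_lit 9) (.e (nat_lit 336000) (nat_lit 1) (.e (nat_lit 57654) (nat_lit 152) .nil)))))) (.g (nat_lit 4) .nil .nil))) 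
(.lf (nat_lit 36070) (.g (nat_lit 2567) (.e (nat_lit 1217) (nat_lit 90) (.e (nat_lit 81963) (nat_lit 26) (.e (nat_lit 147496) (nat_lit 11) (.e (nat_lit 24640) (nat_lit 10) (.e (nat_lit 344097) (nat_lit 18) (.e (nat_lit 7146) (nat_lit 382) .nil)))))) (.g (nat_lit 5) .nil .nil)))) (.nd (nat_lit 5) 
(.lf (nat_lit 36054) (.g (nat_lit 1869) (.e (nat_lit 1217) (nat_lit 90) (.e (nat_lit 81963) (nat_lit 26) (.e (nat_lit 147495) (nat_lit 11) (.e (nat_lit 24631) (nat_lit 9) (.e (nat_lit 335985) (nat_lit 1) .nil))))) .nil)) 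
(.lf (nat_lit 36086) (.g (nat_lit 2685) (.e (nat_lit 1217) (nat_lit 90) (.e (nat_lit 81965) (nat_lit 26) (.e (nat_lit 147492) (nat_lit 11) (.e (nat_lit 24638) (nat_lit 9) (.e (nat_lit 335986) (nat_lit 1) (.e (nat_lit 57655) (nat_lit 152) .nil)))))) (.g (nat_lit 5) .nil .nil))))) (.nd (nat_lit 4) (.nd (nat_lit 5) 
(.lf (nat_lit 36046) (.g (nat_lit 1963) (.e (nat_lit 1217) (nat_lit 90) (.e (nat_lit 81963) (nat_lit 26) (.e (nat_lit 147493) (nat_lit 11) (.e (nat_lit 24665) (nat_lit 14) (.e (nat_lit 401420) (nat_lit 1) .nil))))) .nil)) 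
(.lf (nat_lit 36078) (.g (nat_lit 3466) (.e (nat_lit 1217) (nat_lit 90) (.e (nat_lit 81965) (nat_lit 26) (.e (nat_lit 147467) (nat_lit 9) (.e (nat_lit 314) (nat_lit 23) (.e (nat_lit 352309) (nat_lit 21) (.e (nat_lit 57654) (nat_lit 152) .nil)))))) (.g (nat_lit 6) .nil .nil)))) (.nd (nat_lit 5) 
(.lf (nat_lit 36062) (.g (nat_lit 2582) (.e (nat_lit 1217) (nat_lit 90) (.e (nat_lit 81963) (nat_lit 26) (.e (nat_lit 147495) (nat_lit 11) (.e (nat_lit 24665) (nat_lit 14) (.e (nat_lit 401420) (nat_lit 1) (.e (nat_lit 164150) (nat_lit 152) .nil)))))) (.g (nat_lit 5) .nil .nil))) 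
(.lf (nat_lit 36094) (.g (nat_lit 1998) (.e (nat_lit 1217) (nat_lit 90) (.e (nat_lit 81965) (nat_lit 26) (.e (nat_lit 147493) (nat_lit 11) (.e (nat_lit 24628) (nat_lit 9) (.e (nat_lit 336000) (nat_lit 1) (.e (nat_lit 57655) (nat_lit 152) .nil)))))) (.g (nat_lit 4) .nil .nil)))))))) (.nd (nat_lit 1) (.nd (nat_lit 2) (.nd (nat_lit 3) (.nd (nat_lit 4) (.nd (nat_lit 5) 
(.lf (nat_lit 36033) (.g (nat_lit 1662) (.e (nat_lit 1217) (nat_lit 90) (.e (nat_lit 81959) (nat_lit 24) (.e (nat_lit 123198) (nat_lit 266) (.e (nat_lit 57436) (nat_lit 17) (.e (nat_lit 376860) (nat_lit 21) (.e (nat_lit 65280) (nat_lit 264) .nil)))))) (.g (nat_lit 4) .nil .nil))) 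
(.lf (nat_lit 36065) (.g (nat_lit 1931) (.e (nat_lit 1217) (nat_lit 90) (.e (nat_lit 81963) (nat_lit 26) (.e (nat_lit 147496) (nat_lit 11) (.e (nat_lit 24623) (nat_lit 9) (.e (nat_lit 335997) (nat_lit 1) .nil))))) .nil))) (.nd (nat_lit 5) 
(.lf (nat_lit 36049) (.g (nat_lit 1135) (.e (nat_lit 1217) (nat_lit 90) (.e (nat_lit 81963) (nat_lit 26) (.e (nat_lit 147495) (nat_lit 11) (.e (nat_lit 24623) (nat_lit 9) .nil)))) .nil)) 
(.lf (nat_lit 36081) (.g (nat_lit 2393) (.e (nat_lit 1217) (nat_lit 90) (.e (nat_lit 81965) (nat_lit 26) (.e (nat_lit 147492) (nat_lit 11) (.e (nat_lit 24627) (nat_lit 9) (.e (nat_lit 336000) (nat_lit 1) (.e (nat_lit 57655) (nat_lit 152) .nil)))))) (.g (nat_lit 6) .nil .nil))))) (.nd (nat_lit 4) (.nd (nat_lit 5) 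
(.lf (nat_lit 36041) (.g (nat_lit 1587) (.e (nat_lit 1217) (nat_lit 90) (.e (nat_lit 81963) (nat_lit 26) (.e (nat_lit 147492) (nat_lit 11) (.e (nat_lit 24643) (nat_lit 11) (.e (nat_lit 368662) (nat_lit 18) (.e (nat_lit 7147) (nat_lit 382) .nil)))))) (.g (nat_lit 5) .nil .nil))) 
(.lf (nat_lit 36073) (.g (nat_lit 744) (.e (nat_lit 1217) (nat_lit 90) (.e (nat_lit 81964) (nat_lit 26) (.e (nat_lit 147467) (nat_lit 9) (.e (nat_lit 314) (nat_lit 23) .nil)))) .nil))) (.nd (nat_lit 5) 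
(.lf (nat_lit 36057) (.g (nat_lit 2555) (.e (nat_lit 1217) (nat_lit 90) (.e (nat_lit 81963) (nat_lit 26) (.e (nat_lit 147495) (nat_lit 11) (.e (nat_lit 24640) (nat_lit 10) (.e (nat_lit 344097) (nat_lit 18) (.e (nat_lit 7146) (nat_lit 382) .nil)))))) (.g (nat_lit 5) .nil .nil))) 
(.lf (nat_lit 36089) (.g (nat_lit 3407) (.e (nat_lit 1217) (nat_lit 90) (.e (nat_lit 81965) (nat_lit 26) (.e (nat_lit 147492) (nat_lit 11) (.e (nat_lit 24662) (nat_lit 14) (.e (nat_lit 401422) (nat_lit 1) (.e (nat_lit 164149) (nat_lit 152) .nil)))))) (.g (nat_lit 5) .nil .nil)))))) (.nd (nat_lit 3) (.nd (nat_lit 4) (.nd (nat_lit 5) 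
(.lf (nat_lit 36037) (.g (nat_lit 393) (.e (nat_lit 1217) (nat_lit 90) (.e (nat_lit 81963) (nat_lit 26) (.e (nat_lit 147492) (nat_lit 11) .nil))) .nil)) 
(.lf (nat_lit 36069) (.g (nat_lit 2283) (.e (nat_lit 1217) (nat_lit 90) (.e (nat_lit 81963) (nat_lit 26) (.e (nat_lit 147496) (nat_lit 11) (.e (nat_lit 24631) (nat_lit 9) (.e (nat_lit 335985) (nat_lit 1) (.e (nat_lit 57655) (nat_lit 152) .nil)))))) (.g (nat_lit 5) .nil .nil)))) (.nd (nat_lit 5) 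
(.lf (nat_lit 36053) (.g (nat_lit 2714) (.e (nat_lit 1217) (nat_lit 90) (.e (nat_lit 81963) (nat_lit 26) (.e (nat_lit 147495) (nat_lit 11) (.e (nat_lit 24628) (nat_lit 9) (.e (nat_lit 336000) (nat_lit 1) (.e (nat_lit 57654) (nat_lit 152) .nil)))))) (.g (nat_lit 5) .nil .nil))) 
(.lf (nat_lit 36085) (.g (nat_lit 2311) (.e (nat_lit 1217) (nat_lit 90) (.e (nat_lit 81965) (nat_lit 26) (.e (nat_lit 147492) (nat_lit 11) (.e (nat_lit 24636) (nat_lit 9) (.e (nat_lit 335998) (nat_lit 1) (.e (nat_lit 57655) (nat_lit 152) .nil)))))) (.g (nat_lit 5) .nil .nil))))) (.nd (nat_lit 4) (.nd (nat_lit 5) 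
(.lf (nat_lit 36045) (.g (nat_lit 2630) (.e (nat_lit 1217) (nat_lit 90) (.e (nat_lit 81963) (nat_lit 26) (.e (nat_lit 147493) (nat_lit 11) (.e (nat_lit 24638) (nat_lit 9) (.e (nat_lit 335986) (nat_lit 1) (.e (nat_lit 57655) (nat_lit 152) .nil)))))) (.g (nat_lit 6) .nil .nil))) 
(.lf (nat_lit 36077) (.g (nat_lit 928) (.e (nat_lit 1217) (nat_lit 90) (.e (nat_lit 81965) (nat_lit 26) (.e (nat_lit 147467) (nat_lit 9) (.e (nat_lit 297) (nat_lit 22) .nil)))) .nil))) (.nd (nat_lit 5) 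
(.lf (nat_lit 36061) (.g (nat_lit 2895) (.e (nat_lit 1217) (nat_lit 90) (.e (nat_lit 81963) (nat_lit 26) (.e (nat_lit 147495) (nat_lit 11) (.e (nat_lit 24665) (nat_lit 14) (.e (nat_lit 401420) (nat_lit 1) (.e (nat_lit 164149) (nat_lit 152) .nil)))))) (.g (nat_lit 6) .nil .nil))) 
(.lf (nat_lit 36093) (.g (nat_lit 1956) (.e (nat_lit 1217) (nat_lit 90) (.e (nat_lit 81965) (nat_lit 26) (.e (nat_lit 147493) (nat_lit 11) (.e (nat_lit 24628) (nat_lit 9) (.e (nat_lit 336000) (nat_lit 1) (.e (nat_lit 57654) (nat_lit 152) .nil)))))) (.g (nat_lit 4) .nil .nil))))))) (.nd (nat_lit 2) (.nd (nat_lit 3) (.nd (nat_lit 4) (.nd (nat_lit 5) 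
(.lf (nat_lit 36035) (.g (nat_lit 2237) (.e (nat_lit 1217) (nat_lit 90) (.e (nat_lit 81963) (nat_lit 26) (.e (nat_lit 147463) (nat_lit 9) (.e (nat_lit 249) (nat_lit 21) (.e (nat_lit 336186) (nat_lit 11) (.e (nat_lit 368662) (nat_lit 18) (.e (nat_lit 7147) (nat_lit 382) .nil))))))) (.g (nat_lit 6) .nil .nil))) 
(.lf (nat_lit 36067) (.g (nat_lit 2372) (.e (nat_lit 1217) (nat_lit 90) (.e (nat_lit 81963) (nat_lit 26) (.e (nat_lit 147496) (nat_lit 11) (.e (nat_lit 24628) (nat_lit 9) (.e (nat_lit 336000) (nat_lit 1) (.e (nat_lit 57654) (nat_lit 152) .nil)))))) (.g (nat_lit 5) .nil .nil)))) (.nd (nat_lit 5) 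
(.lf (nat_lit 36051) (.g (nat_lit 2554) (.e (nat_lit 1217) (nat_lit 90) (.e (nat_lit 81963) (nat_lit 26) (.e (nat_lit 147495) (nat_lit 11) (.e (nat_lit 24623) (nat_lit 9) (.e (nat_lit 335997) (nat_lit 1) (.e (nat_lit 57652) (nat_lit 152) .nil)))))) (.g (nat_lit 4) .nil .nil))) 
(.lf (nat_lit 36083) (.g (nat_lit 2534) (.e (nat_lit 1217) (nat_lit 90) (.e (nat_lit 81965) (nat_lit 26) (.e (nat_lit 147492) (nat_lit 11) (.e (nat_lit 24628) (nat_lit 9) (.e (nat_lit 336000) (nat_lit 1) (.e (nat_lit 57655) (nat_lit 152) .nil)))))) (.g (nat_lit 5) .nil .nil))))) (.nd (nat_lit 4) (.nd (nat_lit 5) 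
(.lf (nat_lit 36043) (.g (nat_lit 1315) (.e (nat_lit 1217) (nat_lit 90) (.e (nat_lit 81963) (nat_lit 26) (.e (nat_lit 147493) (nat_lit 11) (.e (nat_lit 24628) (nat_lit 9) (.e (nat_lit 336000) (nat_lit 1) (.e (nat_lit 57654) (nat_lit 152) .nil)))))) (.g (nat_lit 4) .nil .nil))) 
(.lf (nat_lit 36075) (.g (nat_lit 2420) (.e (nat_lit 1217) (nat_lit 90) (.e (nat_lit 81965) (nat_lit 26) (.e (nat_lit 147463) (nat_lit 9) (.e (nat_lit 314) (nat_lit 23) (.e (nat_lit 352307) (nat_lit 21) (.e (nat_lit 57655) (nat_lit 152) .nil)))))) (.g (nat_lit 4) .nil .nil)))) (.nd (nat_lit 5) 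
(.lf (nat_lit 36059) (.g (nat_lit 1505) (.e (nat_lit 1217) (nat_lit 90) (.e (nat_lit 81963) (nat_lit 26) (.e (nat_lit 147495) (nat_lit 11) (.e (nat_lit 24642) (nat_lit 11) (.e (nat_lit 368662) (nat_lit 18) (.e (nat_lit 7147) (nat_lit 382) .nil)))))) (.g (nat_lit 4) .nil .nil))) 
(.lf (nat_lit 36091) (.g (nat_lit 1693) (.e (nat_lit 1217) (nat_lit 90) (.e (nat_lit 81965) (nat_lit 26) (.e (nat_lit 147492) (nat_lit 11) (.e (nat_lit 24665) (nat_lit 14) (.e (nat_lit 401420) (nat_lit 1) (.e (nat_lit 164149) (nat_lit 152) .nil)))))) (.g (nat_lit 4) .nil .nil)))))) (.nd (nat_lit 3) (.nd (nat_lit 4) (.nd (nat_lit 5) 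
(.lf (nat_lit 36039) (.g (nat_lit 1950) (.e (nat_lit 1217) (nat_lit 90) (.e (nat_lit 81963) (nat_lit 26) (.e (nat_lit 147492) (nat_lit 11) (.e (nat_lit 24628) (nat_lit 9) (.e (nat_lit 336000) (nat_lit 1) (.e (nat_lit 57654) (nat_lit 152) .nil)))))) (.g (nat_lit 5) .nil .nil))) 
(.lf (nat_lit 36071) (.g (nat_lit 1374) (.e (nat_lit 1217) (nat_lit 90) (.e (nat_lit 81963) (nat_lit 26) (.e (nat_lit 147496) (nat_lit 11) (.e (nat_lit 24641) (nat_lit 10) .nil)))) .nil))) (.nd (nat_lit 5) 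
(.lf (nat_lit 36055) (.g (nat_lit 1788) (.e (nat_lit 1217) (nat_lit 90) (.e (nat_lit 81963) (nat_lit 26) (.e (nat_lit 147495) (nat_lit 11) (.e (nat_lit 24636) (nat_lit 9) (.e (nat_lit 335998) (nat_lit 1) (.e (nat_lit 57654) (nat_lit 152) .nil)))))) (.g (nat_lit 4) .nil .nil))) 
(.lf (nat_lit 36087) (.g (nat_lit 2009) (.e (nat_lit 1217) (nat_lit 90) (.e (nat_lit 81965) (nat_lit 26) (.e (nat_lit 147492) (nat_lit 11) (.e (nat_lit 24643) (nat_lit 11) (.e (nat_lit 368662) (nat_lit 18) (.e (nat_lit 7147) (nat_lit 382) .nil)))))) (.g (nat_lit 5) .nil .nil))))) (.nd (nat_lit 4) (.nd (nat_lit 5) 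
(.lf (nat_lit 36047) (.g (nat_lit 1647) (.e (nat_lit 1217) (nat_lit 90) (.e (nat_lit 81963) (nat_lit 26) (.e (nat_lit 147494) (nat_lit 11) (.e (nat_lit 24665) (nat_lit 14) (.e (nat_lit 401420) (nat_lit 1) .nil))))) .nil)) 
(.lf (nat_lit 36079) (.g (nat_lit 408) (.e (nat_lit 1217) (nat_lit 90) (.e (nat_lit 81965) (nat_lit 26) (.e (nat_lit 147492) (nat_lit 11) .nil))) .nil))) (.nd (nat_lit 5) 
(.lf (nat_lit 36063) (.g (nat_lit 2721) (.e (nat_lit 1217) (nat_lit 90) (.e (nat_lit 81963) (nat_lit 26) (.e (nat_lit 147495) (nat_lit 11) (.e (nat_lit 24665) (nat_lit 14) (.e (nat_lit 401420) (nat_lit 1) (.e (nat_lit 164151) (nat_lit 152) .nil)))))) (.g (nat_lit 5) .nil .nil))) 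
(.lf (nat_lit 36095) (.g (nat_lit 2707) (.e (nat_lit 1217) (nat_lit 90) (.e (nat_lit 81965) (nat_lit 26) (.e (nat_lit 147493) (nat_lit 11) (.e (nat_lit 24665) (nat_lit 14) (.e (nat_lit 401420) (nat_lit 1) (.e (nat_lit 164149) (nat_lit 152) .nil)))))) (.g (nat_lit 4) .nil .nil)))))))))

noncomputable def tv504 : DT := (.nd (nat_lit 0) (.nd (nat_lit 1) (.nd (nat_lit 2) (.nd (nat_lit 3) (.nd (nat_lit 4) (.nd (nat_lit 5) (.nd (nat_lit 6) 
(.lf (nat_lit 36096) (.g (nat_lit 2361) (.e (nat_lit 1217) (nat_lit 90) (.e (nat_lit 81965) (nat_lit 26) (.e (nat_lit 147493) (nat_lit 11) (.e (nat_lit 24665) (nat_lit 14) (.e (nat_lit 401420) (nat_lit 1) (.e (nat_lit 164150) (nat_lit 152) .nil)))))) (.g (nat_lit 4) .nil .nil))) 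
(.lf (nat_lit 36160) (.g (nat_lit 473) (.e (nat_lit 1218) (nat_lit 90) (.e (nat_lit 81938) (nat_lit 20) (.e (nat_lit 1962) (nat_lit 134) .nil))) .nil))) (.nd (nat_lit 6) 
(.lf (nat_lit 36128) (.g (nat_lit 2489) (.e (nat_lit 1217) (nat_lit 90) (.e (nat_lit 81965) (nat_lit 26) (.e (nat_lit 147495) (nat_lit 11) (.e (nat_lit 24665) (nat_lit 14) (.e (nat_lit 401421) (nat_lit 1) .nil))))) .nil)) 
(.lf (nat_lit 36192) (.g (nat_lit 3356) (.e (nat_lit 1218) (nat_lit 90) (.e (nat_lit 81950) (nat_lit 21) (.e (nat_lit 57681) (nat_lit 155) (.e (nat_lit 122919) (nat_lit 15) (.e (nat_lit 360451) (nat_lit 0) (.e (nat_lit 7223) (nat_lit 382) .nil)))))) (.g (nat_lit 5) .nil .nil))))) (.nd (nat_lit 5) (.nd (nat_lit 6) 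
(.lf (nat_lit 36112) (.g (nat_lit 3210) (.e (nat_lit 1217) (nat_lit 90) (.e (nat_lit 81965) (nat_lit 26) (.e (nat_lit 147495) (nat_lit 11) (.e (nat_lit 24628) (nat_lit 9) (.e (nat_lit 336000) (nat_lit 1) (.e (nat_lit 57655) (nat_lit 152) .nil)))))) (.g (nat_lit 6) .nil .nil))) 
(.lf (nat_lit 36176) (.g (nat_lit 1096) (.e (nat_lit 1218) (nat_lit 90) (.e (nat_lit 81938) (nat_lit 20) (.e (nat_lit 2281) (nat_lit 150) (.e (nat_lit 770058) (nat_lit 5) .nil)))) .nil))) (.nd (nat_lit 6) 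
(.lf (nat_lit 36144) (.g (nat_lit 2862) (.e (nat_lit 1217) (nat_lit 90) (.e (nat_lit 81965) (nat_lit 26) (.e (nat_lit 147496) (nat_lit 11) (.e (nat_lit 24640) (nat_lit 10) (.e (nat_lit 344101) (nat_lit 18) (.e (nat_lit 7147) (nat_lit 382) .nil)))))) (.g (nat_lit 4) .nil .nil))) 
(.lf (nat_lit 36208) (.g (nat_lit 1109) (.e (nat_lit 1218) (nat_lit 90) (.e (nat_lit 81956) (nat_lit 23) (.e (nat_lit 98309) (nat_lit 0) .nil))) .nil))))) (.nd (nat_lit 4) (.nd (nat_lit 5) (.nd (nat_lit 6) 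
(.lf (nat_lit 36104) (.g (nat_lit 2428) (.e (nat_lit 1217) (nat_lit 90) (.e (nat_lit 81965) (nat_lit 26) (.e (nat_lit 147494) (nat_lit 11) (.e (nat_lit 24665) (nat_lit 14) (.e (nat_lit 401420) (nat_lit 1) (.e (nat_lit 164151) (nat_lit 152) .nil)))))) (.g (nat_lit 4) .nil .nil))) 
(.lf (nat_lit 36168) (.g (nat_lit 773) (.e (nat_lit 1218) (nat_lit 90) (.e (nat_lit 81938) (nat_lit 20) (.e (nat_lit 1962) (nat_lit 134) (.e (nat_lit 638999) (nat_lit 8) (.e (nat_lit 172107) (nat_lit 10) .nil))))) .nil))) (.nd (nat_lit 6) 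
(.lf (nat_lit 36136) (.g (nat_lit 1424) (.e (nat_lit 1217) (nat_lit 90) (.e (nat_lit 81965) (nat_lit 26) (.e (nat_lit 147496) (nat_lit 11) (.e (nat_lit 24631) (nat_lit 9) .nil)))) .nil)) 
(.lf (nat_lit 36200) (.g (nat_lit 1397) (.e (nat_lit 1218) (nat_lit 90) (.e (nat_lit 81953) (nat_lit 22) (.e (nat_lit 90156) (nat_lit 11) .nil))) .nil)))) (.nd (nat_lit 5) (.nd (nat_lit 6) 
(.lf (nat_lit 36120) (.g (nat_lit 3203) (.e (nat_lit 1217) (nat_lit 90) (.e (nat_lit 81965) (nat_lit 26) (.e (nat_lit 147495) (nat_lit 11) (.e (nat_lit 24640) (nat_lit 10) (.e (nat_lit 344097) (nat_lit 18) (.e (nat_lit 7147) (nat_lit 382) .nil)))))) (.g (nat_lit 6) .nil .nil))) 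
(.lf (nat_lit 36184) (.g (nat_lit 3423) (.e (nat_lit 1218) (nat_lit 90) (.e (nat_lit 81950) (nat_lit 21) (.e (nat_lit 57681) (nat_lit 155) (.e (nat_lit 122919) (nat_lit 15) (.e (nat_lit 360450) (nat_lit 0) (.e (nat_lit 7128) (nat_lit 382) .nil)))))) (.g (nat_lit 5) .nil .nil)))) (.nd (nat_lit 6) 
(.lf (nat_lit 36152) (.g (nat_lit 2264) (.e (nat_lit 1218) (nat_lit 90) (.e (nat_lit 81925) (nat_lit 11) (.e (nat_lit 426344) (nat_lit 14) (.e (nat_lit 491560) (nat_lit 10) (.e (nat_lit 344089) (nat_lit 18) .nil))))) .nil)) 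
(.lf (nat_lit 36216) (.g (nat_lit 3267) (.e (nat_lit 1218) (nat_lit 90) (.e (nat_lit 81956) (nat_lit 23) (.e (nat_lit 98313) (nat_lit 9) (.e (nat_lit 335995) (nat_lit 1) (.e (nat_lit 57847) (nat_lit 252) (.e (nat_lit 57365) (nat_lit 1) (.e (nat_lit 57752) (nat_lit 209) .nil))))))) (.g (nat_lit 5) .nil .nil))))))) (.nd (nat_lit 3) (.nd (nat_lit 4) (.nd (nat_lit 5) (.nd (nat_lit 6) 
(.lf (nat_lit 36100) (.g (nat_lit 1223) (.e (nat_lit 1217) (nat_lit 90) (.e (nat_lit 81965) (nat_lit 26) (.e (nat_lit 147494) (nat_lit 11) (.e (nat_lit 24628) (nat_lit 9) .nil)))) .nil)) 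
(.lf (nat_lit 36164) (.g (nat_lit 747) (.e (nat_lit 1218) (nat_lit 90) (.e (nat_lit 81938) (nat_lit 20) (.e (nat_lit 1962) (nat_lit 134) (.e (nat_lit 638985) (nat_lit 5) (.e (nat_lit 3022) (nat_lit 187) .nil))))) .nil))) (.nd (nat_lit 6) 
(.lf (nat_lit 36132) (.g (nat_lit 2266) (.e (nat_lit 1217) (nat_lit 90) (.e (nat_lit 81965) (nat_lit 26) (.e (nat_lit 147496) (nat_lit 11) (.e (nat_lit 24623) (nat_lit 9) (.e (nat_lit 335997) (nat_lit 1) (.e (nat_lit 57651) (nat_lit 152) .nil)))))) (.g (nat_lit 4) .nil .nil))) 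
(.lf (nat_lit 36196) (.g (nat_lit 1610) (.e (nat_lit 1218) (nat_lit 90) (.e (nat_lit 81950) (nat_lit 21) (.e (nat_lit 57872) (nat_lit 264) (.e (nat_lit 1221) (nat_lit 90) (.e (nat_lit 81959) (nat_lit 24) .nil))))) .nil)))) (.nd (nat_lit 5) (.nd (nat_lit 6) 
(.lf (nat_lit 36116) (.g (nat_lit 1136) (.e (nat_lit 1217) (nat_lit 90) (.e (nat_lit 81965) (nat_lit 26) (.e (nat_lit 147495) (nat_lit 11) (.e (nat_lit 24639) (nat_lit 10) .nil)))) .nil)) 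
(.lf (nat_lit 36180) (.g (nat_lit 497) (.e (nat_lit 1218) (nat_lit 90) (.e (nat_lit 81946) (nat_lit 20) (.e (nat_lit 1963) (nat_lit 134) .nil))) .nil))) (.nd (nat_lit 6) 
(.lf (nat_lit 36148) (.g (nat_lit 2475) (.e (nat_lit 1217) (nat_lit 90) (.e (nat_lit 81965) (nat_lit 26) (.e (nat_lit 147499) (nat_lit 12) (.e (nat_lit 164020) (nat_lit 45) (.e (nat_lit 696344) (nat_lit 8) (.e (nat_lit 172061) (nat_lit 1) (.e (nat_lit 164150) (nat_lit 152) .nil))))))) (.g (nat_lit 4) .nil .nil))) 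
(.lf (nat_lit 36212) (.g (nat_lit 2498) (.e (nat_lit 1218) (nat_lit 90) (.e (nat_lit 81956) (nat_lit 23) (.e (nat_lit 98313) (nat_lit 9) (.e (nat_lit 335986) (nat_lit 1) (.e (nat_lit 57847) (nat_lit 252) (.e (nat_lit 57365) (nat_lit 1) (.e (nat_lit 57753) (nat_lit 209) .nil))))))) (.g (nat_lit 4) .nil .nil)))))) (.nd (nat_lit 4) (.nd (nat_lit 5) (.nd (nat_lit 6) 
(.lf (nat_lit 36108) (.g (nat_lit 3199) (.e (nat_lit 1217) (nat_lit 90) (.e (nat_lit 81965) (nat_lit 26) (.e (nat_lit 147495) (nat_lit 11) (.e (nat_lit 24623) (nat_lit 9) (.e (nat_lit 335997) (nat_lit 1) (.e (nat_lit 57652) (nat_lit 152) .nil)))))) (.g (nat_lit 5) .nil .nil))) 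
(.lf (nat_lit 36172) (.g (nat_lit 2782) (.e (nat_lit 1218) (nat_lit 90) (.e (nat_lit 81938) (nat_lit 20) (.e (nat_lit 1963) (nat_lit 134) (.e (nat_lit 638999) (nat_lit 8) (.e (nat_lit 172106) (nat_lit 10) (.e (nat_lit 434209) (nat_lit 18) (.e (nat_lit 5079) (nat_lit 292) .nil))))))) (.g (nat_lit 7) .nil .nil)))) (.nd (nat_lit 6) 
(.lf (nat_lit 36140) (.g (nat_lit 1825) (.e (nat_lit 1217) (nat_lit 90) (.e (nat_lit 81965) (nat_lit 26) (.e (nat_lit 147496) (nat_lit 11) (.e (nat_lit 24639) (nat_lit 10) (.e (nat_lit 344097) (nat_lit 18) (.e (nat_lit 7146) (nat_lit 382) .nil)))))) (.g (nat_lit 4) .nil .nil))) 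
(.lf (nat_lit 36204) (.g (nat_lit 1078) (.e (nat_lit 1218) (nat_lit 90) (.e (nat_lit 81953) (nat_lit 22) (.e (nat_lit 90165) (nat_lit 12) (.e (nat_lit 171776) (nat_lit 192) .nil)))) .nil)))) (.nd (nat_lit 5) (.nd (nat_lit 6) 
(.lf (nat_lit 36124) (.g (nat_lit 2382) (.e (nat_lit 1217) (nat_lit 90) (.e (nat_lit 81965) (nat_lit 26) (.e (nat_lit 147495) (nat_lit 11) (.e (nat_lit 24665) (nat_lit 14) (.e (nat_lit 401420) (nat_lit 1) (.e (nat_lit 164148) (nat_lit 152) .nil)))))) (.g (nat_lit 4) .nil .nil))) 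
(.lf (nat_lit 36188) (.g (nat_lit 3331) (.e (nat_lit 1218) (nat_lit 90) (.e (nat_lit 81950) (nat_lit 21) (.e (nat_lit 57681) (nat_lit 155) (.e (nat_lit 122919) (nat_lit 15) (.e (nat_lit 360451) (nat_lit 0) (.e (nat_lit 7126) (nat_lit 382) .nil)))))) (.g (nat_lit 5) .nil .nil)))) (.nd (nat_lit 6) 
(.lf (nat_lit 36156) (.g (nat_lit 1402) (.e (nat_lit 1218) (nat_lit 90) (.e (nat_lit 81927) (nat_lit 11) (.e (nat_lit 426343) (nat_lit 14) (.e (nat_lit 491560) (nat_lit 10) .nil)))) .nil)) 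
(.lf (nat_lit 36220) (.g (nat_lit 2732) (.e (nat_lit 1218) (nat_lit 90) (.e (nat_lit 81956) (nat_lit 23) (.e (nat_lit 98313) (nat_lit 9) (.e (nat_lit 335995) (nat_lit 1) (.e (nat_lit 57849) (nat_lit 252) .nil))))) .nil))))))) (.nd (nat_lit 2) (.nd (nat_lit 3) (.nd (nat_lit 4) (.nd (nat_lit 5) (.nd (nat_lit 6) 
(.lf (nat_lit 36098) (.g (nat_lit 2548) (.e (nat_lit 1217) (nat_lit 90) (.e (nat_lit 81965) (nat_lit 26) (.e (nat_lit 147493) (nat_lit 11) (.e (nat_lit 24665) (nat_lit 14) (.e (nat_lit 401421) (nat_lit 1) (.e (nat_lit 164149) (nat_lit 152) .nil)))))) (.g (nat_lit 4) .nil .nil))) 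
(.lf (nat_lit 36162) (.g (nat_lit 941) (.e (nat_lit 1218) (nat_lit 90) (.e (nat_lit 81938) (nat_lit 20) (.e (nat_lit 1962) (nat_lit 134) (.e (nat_lit 638985) (nat_lit 5) (.e (nat_lit 3015) (nat_lit 187) (.e (nat_lit 450560) (nat_lit 0) (.e (nat_lit 5060) (nat_lit 292) .nil))))))) (.g (nat_lit 4) .nil .nil)))) (.nd (nat_lit 6) 
(.lf (nat_lit 36130) (.g (nat_lit 379) (.e (nat_lit 1217) (nat_lit 90) (.e (nat_lit 81965) (nat_lit 26) (.e (nat_lit 147496) (nat_lit 11) .nil))) .nil)) 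
(.lf (nat_lit 36194) (.g (nat_lit 651) (.e (nat_lit 1218) (nat_lit 90) (.e (nat_lit 81950) (nat_lit 21) (.e (nat_lit 57857) (nat_lit 254) .nil))) .nil)))) (.nd (nat_lit 5) (.nd (nat_lit 6) 
(.lf (nat_lit 36114) (.g (nat_lit 2692) (.e (nat_lit 1217) (nat_lit 90) (.e (nat_lit 81965) (nat_lit 26) (.e (nat_lit 147495) (nat_lit 11) (.e (nat_lit 24636) (nat_lit 9) (.e (nat_lit 335998) (nat_lit 1) (.e (nat_lit 57655) (nat_lit 152) .nil)))))) (.g (nat_lit 5) .nil .nil))) 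
(.lf (nat_lit 36178) (.g (nat_lit 1898) (.e (nat_lit 1218) (nat_lit 90) (.e (nat_lit 81938) (nat_lit 20) (.e (nat_lit 2281) (nat_lit 150) (.e (nat_lit 770072) (nat_lit 8) (.e (nat_lit 65583) (nat_lit 7) .nil))))) .nil))) (.nd (nat_lit 6) 
(.lf (nat_lit 36146) (.g (nat_lit 2384) (.e (nat_lit 1217) (nat_lit 90) (.e (nat_lit 81965) (nat_lit 26) (.e (nat_lit 147496) (nat_lit 11) (.e (nat_lit 24645) (nat_lit 11) (.e (nat_lit 368662) (nat_lit 18) (.e (nat_lit 7147) (nat_lit 382) .nil)))))) (.g (nat_lit 5) .nil .nil))) 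
(.lf (nat_lit 36210) (.g (nat_lit 1774) (.e (nat_lit 1218) (nat_lit 90) (.e (nat_lit 81956) (nat_lit 23) (.e (nat_lit 98313) (nat_lit 9) (.e (nat_lit 335986) (nat_lit 1) .nil)))) .nil))))) (.nd (nat_lit 4) (.nd (nat_lit 5) (.nd (nat_lit 6) 
(.lf (nat_lit 36106) (.g (nat_lit 411) (.e (nat_lit 1217) (nat_lit 90) (.e (nat_lit 81965) (nat_lit 26) (.e (nat_lit 147495) (nat_lit 11) .nil))) .nil)) 
(.lf (nat_lit 36170) (.g (nat_lit 630) (.e (nat_lit 1218) (nat_lit 90) (.e (nat_lit 81938) (nat_lit 20) (.e (nat_lit 1963) (nat_lit 134) (.e (nat_lit 638986) (nat_lit 5) .nil)))) .nil))) (.nd (nat_lit 6) 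
(.lf (nat_lit 36138) (.g (nat_lit 1426) (.e (nat_lit 1217) (nat_lit 90) (.e (nat_lit 81965) (nat_lit 26) (.e (nat_lit 147496) (nat_lit 11) (.e (nat_lit 24632) (nat_lit 9) .nil)))) .nil)) 
(.lf (nat_lit 36202) (.g (nat_lit 990) (.e (nat_lit 1218) (nat_lit 90) (.e (nat_lit 81953) (nat_lit 22) (.e (nat_lit 90160) (nat_lit 11) .nil))) .nil)))) (.nd (nat_lit 5) (.nd (nat_lit 6) 
(.lf (nat_lit 36122) (.g (nat_lit 2616) (.e (nat_lit 1217) (nat_lit 90) (.e (nat_lit 81965) (nat_lit 26) (.e (nat_lit 147495) (nat_lit 11) (.e (nat_lit 24643) (nat_lit 11) (.e (nat_lit 368662) (nat_lit 18) (.e (nat_lit 7147) (nat_lit 382) .nil)))))) (.g (nat_lit 6) .nil .nil))) 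
(.lf (nat_lit 36186) (.g (nat_lit 3551) (.e (nat_lit 1218) (nat_lit 90) (.e (nat_lit 81950) (nat_lit 21) (.e (nat_lit 57681) (nat_lit 155) (.e (nat_lit 122919) (nat_lit 15) (.e (nat_lit 360450) (nat_lit 0) (.e (nat_lit 7220) (nat_lit 382) .nil)))))) (.g (nat_lit 5) .nil .nil)))) (.nd (nat_lit 6) 
(.lf (nat_lit 36154) (.g (nat_lit 1414) (.e (nat_lit 1218) (nat_lit 90) (.e (nat_lit 81927) (nat_lit 11) (.e (nat_lit 426343) (nat_lit 14) (.e (nat_lit 491558) (nat_lit 10) .nil)))) .nil)) 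
(.lf (nat_lit 36218) (.g (nat_lit 3529) (.e (nat_lit 1218) (nat_lit 90) (.e (nat_lit 81956) (nat_lit 23) (.e (nat_lit 98313) (nat_lit 9) (.e (nat_lit 335995) (nat_lit 1) (.e (nat_lit 57847) (nat_lit 252) (.e (nat_lit 57365) (nat_lit 1) (.e (nat_lit 57754) (nat_lit 209) .nil))))))) (.g (nat_lit 5) .nil .nil))))))) (.nd (nat_lit 3) (.nd (nat_lit 4) (.nd (nat_lit 5) (.nd (nat_lit 6) 
(.lf (nat_lit 36102) (.g (nat_lit 2341) (.e (nat_lit 1217) (nat_lit 90) (.e (nat_lit 81965) (nat_lit 26) (.e (nat_lit 147494) (nat_lit 11) (.e (nat_lit 24665) (nat_lit 14) (.e (nat_lit 401420) (nat_lit 1) .nil))))) .nil)) 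
(.lf (nat_lit 36166) (.g (nat_lit 2774) (.e (nat_lit 1218) (nat_lit 90) (.e (nat_lit 81938) (nat_lit 20) (.e (nat_lit 1962) (nat_lit 134) (.e (nat_lit 638999) (nat_lit 8) (.e (nat_lit 172106) (nat_lit 10) (.e (nat_lit 434209) (nat_lit 18) (.e (nat_lit 5079) (nat_lit 292) .nil))))))) (.g (nat_lit 0) .nil .nil)))) (.nd (nat_lit 6) 
(.lf (nat_lit 36134) (.g (nat_lit 2417) (.e (nat_lit 1217) (nat_lit 90) (.e (nat_lit 81965) (nat_lit 26) (.e (nat_lit 147496) (nat_lit 11) (.e (nat_lit 24623) (nat_lit 9) (.e (nat_lit 335997) (nat_lit 1) (.e (nat_lit 57653) (nat_lit 152) .nil)))))) (.g (nat_lit 4) .nil .nil))) 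
(.lf (nat_lit 36198) (.g (nat_lit 1433) (.e (nat_lit 1218) (nat_lit 90) (.e (nat_lit 81950) (nat_lit 21) (.e (nat_lit 57873) (nat_lit 264) (.e (nat_lit 1221) (nat_lit 90) (.e (nat_lit 81959) (nat_lit 24) .nil))))) .nil)))) (.nd (nat_lit 5) (.nd (nat_lit 6) 
(.lf (nat_lit 36118) (.g (nat_lit 2578) (.e (nat_lit 1217) (nat_lit 90) (.e (nat_lit 81965) (nat_lit 26) (.e (nat_lit 147495) (nat_lit 11) (.e (nat_lit 24640) (nat_lit 10) (.e (nat_lit 344097) (nat_lit 18) (.e (nat_lit 7145) (nat_lit 382) .nil)))))) (.g (nat_lit 4) .nil .nil))) 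
(.lf (nat_lit 36182) (.g (nat_lit 2226) (.e (nat_lit 1218) (nat_lit 90) (.e (nat_lit 81950) (nat_lit 21) (.e (nat_lit 57681) (nat_lit 155) (.e (nat_lit 122917) (nat_lit 15) .nil)))) .nil))) (.nd (nat_lit 6) 
(.lf (nat_lit 36150) (.g (nat_lit 1328) (.e (nat_lit 1218) (nat_lit 90) (.e (nat_lit 81925) (nat_lit 11) (.e (nat_lit 426343) (nat_lit 14) (.e (nat_lit 491558) (nat_lit 10) .nil)))) .nil)) 
(.lf (nat_lit 36214) (.g (nat_lit 1802) (.e (nat_lit 1218) (nat_lit 90) (.e (nat_lit 81956) (nat_lit 23) (.e (nat_lit 98313) (nat_lit 9) (.e (nat_lit 335988) (nat_lit 1) .nil)))) .nil))))) (.nd (nat_lit 4) (.nd (nat_lit 5) (.nd (nat_lit 6) 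
(.lf (nat_lit 36110) (.g (nat_lit 3317) (.e (nat_lit 1217) (nat_lit 90) (.e (nat_lit 81965) (nat_lit 26) (.e (nat_lit 147495) (nat_lit 11) (.e (nat_lit 24623) (nat_lit 9) (.e (nat_lit 335997) (nat_lit 1) (.e (nat_lit 57655) (nat_lit 152) .nil)))))) (.g (nat_lit 5) .nil .nil))) 
(.lf (nat_lit 36174) (.g (nat_lit 731) (.e (nat_lit 1218) (nat_lit 90) (.e (nat_lit 81938) (nat_lit 20) (.e (nat_lit 1963) (nat_lit 134) (.e (nat_lit 638999) (nat_lit 8) (.e (nat_lit 172107) (nat_lit 10) .nil))))) .nil))) (.nd (nat_lit 6) 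
(.lf (nat_lit 36142) (.g (nat_lit 2930) (.e (nat_lit 1217) (nat_lit 90) (.e (nat_lit 81965) (nat_lit 26) (.e (nat_lit 147496) (nat_lit 11) (.e (nat_lit 24640) (nat_lit 10) (.e (nat_lit 344097) (nat_lit 18) (.e (nat_lit 7145) (nat_lit 382) .nil)))))) (.g (nat_lit 5) .nil .nil))) 
(.lf (nat_lit 36206) (.g (nat_lit 697) (.e (nat_lit 1218) (nat_lit 90) (.e (nat_lit 81954) (nat_lit 23) (.e (nat_lit 98313) (nat_lit 9) .nil))) .nil)))) (.nd (nat_lit 5) (.nd (nat_lit 6) 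
(.lf (nat_lit 36126) (.g (nat_lit 2999) (.e (nat_lit 1217) (nat_lit 90) (.e (nat_lit 81965) (nat_lit 26) (.e (nat_lit 147495) (nat_lit 11) (.e (nat_lit 24665) (nat_lit 14) (.e (nat_lit 401420) (nat_lit 1) (.e (nat_lit 164150) (nat_lit 152) .nil)))))) (.g (nat_lit 5) .nil .nil))) 
(.lf (nat_lit 36190) (.g (nat_lit 3580) (.e (nat_lit 1218) (nat_lit 90) (.e (nat_lit 81950) (nat_lit 21) (.e (nat_lit 57681) (nat_lit 155) (.e (nat_lit 122919) (nat_lit 15) (.e (nat_lit 360451) (nat_lit 0) (.e (nat_lit 7132) (nat_lit 382) .nil)))))) (.g (nat_lit 6) .nil .nil)))) (.nd (nat_lit 6) 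
(.lf (nat_lit 36158) (.g (nat_lit 2290) (.e (nat_lit 1218) (nat_lit 90) (.e (nat_lit 81927) (nat_lit 11) (.e (nat_lit 426343) (nat_lit 14) (.e (nat_lit 491560) (nat_lit 10) (.e (nat_lit 344091) (nat_lit 18) .nil))))) .nil)) 
(.lf (nat_lit 36222) (.g (nat_lit 2795) (.e (nat_lit 1218) (nat_lit 90) (.e (nat_lit 81956) (nat_lit 23) (.e (nat_lit 98313) (nat_lit 9) (.e (nat_lit 335995) (nat_lit 1) (.e (nat_lit 57849) (nat_lit 252) (.e (nat_lit 57365) (nat_lit 1) (.e (nat_lit 57754) (nat_lit 209) .nil))))))) (.g (nat_lit 4) .nil .nil))))))))) 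
(.nd (nat_lit 1) (.nd (nat_lit 2) (.nd (nat_lit 3) (.nd (nat_lit 4) (.nd (nat_lit 5) 
(.nd (nat_lit 6) 
(.lf (nat_lit 36097) (.g (nat_lit 2486) (.e (nat_lit 1217) (nat_lit 90) (.e (nat_lit 81965) (nat_lit 26) (.e (nat_lit 147493) (nat_lit 11) (.e (nat_lit 24665) (nat_lit 14) (.e (nat_lit 401420) (nat_lit 1) (.e (nat_lit 164151) (nat_lit 152) .nil)))))) (.g (nat_lit 4) .nil .nil))) 
(.lf (nat_lit 36161) (.g (nat_lit 618) (.e (nat_lit 1218) (nat_lit 90) (.e (nat_lit 81938) (nat_lit 20) (.e (nat_lit 1962) (nat_lit 134) (.e (nat_lit 638985) (nat_lit 5) .nil)))) .nil))) (.nd (nat_lit 6) 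
(.lf (nat_lit 36129) (.g (nat_lit 3581) (.e (nat_lit 1217) (nat_lit 90) (.e (nat_lit 81965) (nat_lit 26) (.e (nat_lit 147495) (nat_lit 11) (.e (nat_lit 24665) (nat_lit 14) (.e (nat_lit 401421) (nat_lit 1) (.e (nat_lit 164149) (nat_lit 152) .nil)))))) (.g (nat_lit 6) .nil .nil))) 
(.lf (nat_lit 36193) (.g (nat_lit 1682) (.e (nat_lit 1218) (nat_lit 90) (.e (nat_lit 81950) (nat_lit 21) (.e (nat_lit 57683) (nat_lit 155) (.e (nat_lit 122919) (nat_lit 15) (.e (nat_lit 360450) (nat_lit 0) .nil))))) .nil)))) (.nd (nat_lit 5) (.nd (nat_lit 6) 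
(.lf (nat_lit 36113) (.g (nat_lit 2279) (.e (nat_lit 1217) (nat_lit 90) (.e (nat_lit 81965) (nat_lit 26) (.e (nat_lit 147495) (nat_lit 11) (.e (nat_lit 24636) (nat_lit 9) (.e (nat_lit 335998) (nat_lit 1) (.e (nat_lit 57654) (nat_lit 152) .nil)))))) (.g (nat_lit 5) .nil .nil))) 
(.lf (nat_lit 36177) (.g (nat_lit 1014) (.e (nat_lit 1218) (nat_lit 90) (.e (nat_lit 81938) (nat_lit 20) (.e (nat_lit 2281) (nat_lit 150) (.e (nat_lit 770072) (nat_lit 8) .nil)))) .nil))) (.nd (nat_lit 6) 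
(.lf (nat_lit 36145) (.g (nat_lit 2041) (.e (nat_lit 1217) (nat_lit 90) (.e (nat_lit 81965) (nat_lit 26) (.e (nat_lit 147496) (nat_lit 11) (.e (nat_lit 24641) (nat_lit 10) (.e (nat_lit 344100) (nat_lit 18) .nil))))) .nil)) 
(.lf (nat_lit 36209) (.g (nat_lit 1799) (.e (nat_lit 1218) (nat_lit 90) (.e (nat_lit 81956) (nat_lit 23) (.e (nat_lit 98309) (nat_lit 0) (.e (nat_lit 7936) (nat_lit 362) .nil)))) .nil))))) (.nd (nat_lit 4) (.nd (nat_lit 5) (.nd (nat_lit 6) 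
(.lf (nat_lit 36105) (.g (nat_lit 2849) (.e (nat_lit 1217) (nat_lit 90) (.e (nat_lit 81965) (nat_lit 26) (.e (nat_lit 147494) (nat_lit 11) (.e (nat_lit 24665) (nat_lit 14) (.e (nat_lit 401421) (nat_lit 1) (.e (nat_lit 164149) (nat_lit 152) .nil)))))) (.g (nat_lit 4) .nil .nil))) 
(.lf (nat_lit 36169) (.g (nat_lit 469) (.e (nat_lit 1218) (nat_lit 90) (.e (nat_lit 81938) (nat_lit 20) (.e (nat_lit 1963) (nat_lit 134) .nil))) .nil))) (.nd (nat_lit 6) 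
(.lf (nat_lit 36137) (.g (nat_lit 2435) (.e (nat_lit 1217) (nat_lit 90) (.e (nat_lit 81965) (nat_lit 26) (.e (nat_lit 147496) (nat_lit 11) (.e (nat_lit 24631) (nat_lit 9) (.e (nat_lit 335985) (nat_lit 1) (.e (nat_lit 57655) (nat_lit 152) .nil)))))) (.g (nat_lit 4) .nil .nil))) 
(.lf (nat_lit 36201) (.g (nat_lit 1562) (.e (nat_lit 1218) (nat_lit 90) (.e (nat_lit 81953) (nat_lit 22) (.e (nat_lit 90157) (nat_lit 11) (.e (nat_lit 32512) (nat_lit 20) .nil)))) .nil)))) (.nd (nat_lit 5) (.nd (nat_lit 6) 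
(.lf (nat_lit 36121) (.g (nat_lit 2408) (.e (nat_lit 1217) (nat_lit 90) (.e (nat_lit 81965) (nat_lit 26) (.e (nat_lit 147495) (nat_lit 11) (.e (nat_lit 24640) (nat_lit 10) (.e (nat_lit 344101) (nat_lit 18) .nil))))) .nil)) 
(.lf (nat_lit 36185) (.g (nat_lit 2195) (.e (nat_lit 1218) (nat_lit 90) (.e (nat_lit 81950) (nat_lit 21) (.e (nat_lit 57681) (nat_lit 155) (.e (nat_lit 122919) (nat_lit 15) (.e (nat_lit 360450) (nat_lit 0) (.e (nat_lit 7219) (nat_lit 382) .nil)))))) (.g (nat_lit 4) .nil .nil)))) (.nd (nat_lit 6) 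
(.lf (nat_lit 36153) (.g (nat_lit 2677) (.e (nat_lit 1218) (nat_lit 90) (.e (nat_lit 81927) (nat_lit 11) (.e (nat_lit 426338) (nat_lit 14) (.e (nat_lit 491566) (nat_lit 12) (.e (nat_lit 385045) (nat_lit 21) (.e (nat_lit 4439) (nat_lit 263) .nil)))))) (.g (nat_lit 4) .nil .nil))) 
(.lf (nat_lit 36217) (.g (nat_lit 3092) (.e (nat_lit 1218) (nat_lit 90) (.e (nat_lit 81956) (nat_lit 23) (.e (nat_lit 98313) (nat_lit 9) (.e (nat_lit 335995) (nat_lit 1) (.e (nat_lit 57847) (nat_lit 252) (.e (nat_lit 57365) (nat_lit 1) (.e (nat_lit 57753) (nat_lit 209) .nil))))))) (.g (nat_lit 5) .nil .nil))))))) (.nd (nat_lit 3) (.nd (nat_lit 4) (.nd (nat_lit 5) (.nd (nat_lit 6) 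
(.lf (nat_lit 36101) (.g (nat_lit 1160) (.e (nat_lit 1217) (nat_lit 90) (.e (nat_lit 81965) (nat_lit 26) (.e (nat_lit 147494) (nat_lit 11) (.e (nat_lit 24643) (nat_lit 11) .nil)))) .nil)) 
(.lf (nat_lit 36165) (.g (nat_lit 1230) (.e (nat_lit 1218) (nat_lit 90) (.e (nat_lit 81938) (nat_lit 20) (.e (nat_lit 1962) (nat_lit 134) (.e (nat_lit 638985) (nat_lit 5) (.e (nat_lit 3022) (nat_lit 187) (.e (nat_lit 450569) (nat_lit 0) (.e (nat_lit 5095) (nat_lit 292) .nil))))))) (.g (nat_lit 5) .nil .nil)))) (.nd (nat_lit 6) 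
(.lf (nat_lit 36133) (.g (nat_lit 2548) (.e (nat_lit 1217) (nat_lit 90) (.e (nat_lit 81965) (nat_lit 26) (.e (nat_lit 147496) (nat_lit 11) (.e (nat_lit 24623) (nat_lit 9) (.e (nat_lit 335997) (nat_lit 1) (.e (nat_lit 57652) (nat_lit 152) .nil)))))) (.g (nat_lit 4) .nil .nil))) 
(.lf (nat_lit 36197) (.g (nat_lit 3269) (.e (nat_lit 1218) (nat_lit 90) (.e (nat_lit 81950) (nat_lit 21) (.e (nat_lit 57872) (nat_lit 264) (.e (nat_lit 1221) (nat_lit 90) (.e (nat_lit 81959) (nat_lit 24) (.e (nat_lit 123182) (nat_lit 264) .nil)))))) (.g (nat_lit 6) .nil .nil))))) (.nd (nat_lit 5) (.nd (nat_lit 6) 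
(.lf (nat_lit 36117) (.g (nat_lit 2935) (.e (nat_lit 1217) (nat_lit 90) (.e (nat_lit 81965) (nat_lit 26) (.e (nat_lit 147495) (nat_lit 11) (.e (nat_lit 24639) (nat_lit 10) (.e (nat_lit 344097) (nat_lit 18) (.e (nat_lit 7147) (nat_lit 382) .nil)))))) (.g (nat_lit 6) .nil .nil))) 
(.lf (nat_lit 36181) (.g (nat_lit 1731) (.e (nat_lit 1218) (nat_lit 90) (.e (nat_lit 81948) (nat_lit 21) (.e (nat_lit 57872) (nat_lit 264) (.e (nat_lit 1221) (nat_lit 90) (.e (nat_lit 81959) (nat_lit 24) .nil))))) .nil))) (.nd (nat_lit 6) 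
(.lf (nat_lit 36149) (.g (nat_lit 221) (.e (nat_lit 1218) (nat_lit 90) (.e (nat_lit 81924) (nat_lit 0) (.e (nat_lit 7936) (nat_lit 195) .nil))) .nil)) 
(.lf (nat_lit 36213) (.g (nat_lit 2882) (.e (nat_lit 1218) (nat_lit 90) (.e (nat_lit 81956) (nat_lit 23) (.e (nat_lit 98313) (nat_lit 9) (.e (nat_lit 335986) (nat_lit 1) (.e (nat_lit 57847) (nat_lit 252) (.e (nat_lit 57365) (nat_lit 1) (.e (nat_lit 57754) (nat_lit 209) .nil))))))) (.g (nat_lit 5) .nil .nil)))))) (.nd (nat_lit 4) (.nd (nat_lit 5) (.nd (nat_lit 6) 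
(.lf (nat_lit 36109) (.g (nat_lit 2776) (.e (nat_lit 1217) (nat_lit 90) (.e (nat_lit 81965) (nat_lit 26) (.e (nat_lit 147495) (nat_lit 11) (.e (nat_lit 24623) (nat_lit 9) (.e (nat_lit 335997) (nat_lit 1) (.e (nat_lit 57654) (nat_lit 152) .nil)))))) (.g (nat_lit 4) .nil .nil))) 
(.lf (nat_lit 36173) (.g (nat_lit 2581) (.e (nat_lit 1218) (nat_lit 90) (.e (nat_lit 81938) (nat_lit 20) (.e (nat_lit 1963) (nat_lit 134) (.e (nat_lit 638999) (nat_lit 8) (.e (nat_lit 172106) (nat_lit 10) (.e (nat_lit 434209) (nat_lit 18) (.e (nat_lit 5095) (nat_lit 292) .nil))))))) (.g (nat_lit 6) .nil .nil)))) (.nd (nat_lit 6) 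
(.lf (nat_lit 36141) (.g (nat_lit 2111) (.e (nat_lit 1217) (nat_lit 90) (.e (nat_lit 81965) (nat_lit 26) (.e (nat_lit 147496) (nat_lit 11) (.e (nat_lit 24640) (nat_lit 10) (.e (nat_lit 344097) (nat_lit 18) (.e (nat_lit 7144) (nat_lit 382) .nil)))))) (.g (nat_lit 4) .nil .nil))) 
(.lf (nat_lit 36205) (.g (nat_lit 1733) (.e (nat_lit 1218) (nat_lit 90) (.e (nat_lit 81953) (nat_lit 22) (.e (nat_lit 90165) (nat_lit 12) (.e (nat_lit 171776) (nat_lit 192) (.e (nat_lit 73729) (nat_lit 0) (.e (nat_lit 3950) (nat_lit 239) .nil)))))) (.g (nat_lit 5) .nil .nil))))) (.nd (nat_lit 5) (.nd (nat_lit 6) 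
(.lf (nat_lit 36125) (.g (nat_lit 3309) (.e (nat_lit 1217) (nat_lit 90) (.e (nat_lit 81965) (nat_lit 26) (.e (nat_lit 147495) (nat_lit 11) (.e (nat_lit 24665) (nat_lit 14) (.e (nat_lit 401420) (nat_lit 1) (.e (nat_lit 164149) (nat_lit 152) .nil)))))) (.g (nat_lit 0) .nil .nil))) 
(.lf (nat_lit 36189) (.g (nat_lit 3142) (.e (nat_lit 1218) (nat_lit 90) (.e (nat_lit 81950) (nat_lit 21) (.e (nat_lit 57681) (nat_lit 155) (.e (nat_lit 122919) (nat_lit 15) (.e (nat_lit 360451) (nat_lit 0) (.e (nat_lit 7130) (nat_lit 382) .nil)))))) (.g (nat_lit 5) .nil .nil)))) (.nd (nat_lit 6) 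
(.lf (nat_lit 36157) (.g (nat_lit 2994) (.e (nat_lit 1218) (nat_lit 90) (.e (nat_lit 81927) (nat_lit 11) (.e (nat_lit 426343) (nat_lit 14) (.e (nat_lit 491560) (nat_lit 10) (.e (nat_lit 344089) (nat_lit 18) .nil))))) .nil)) 
(.lf (nat_lit 36221) (.g (nat_lit 3032) (.e (nat_lit 1218) (nat_lit 90) (.e (nat_lit 81956) (nat_lit 23) (.e (nat_lit 98313) (nat_lit 9) (.e (nat_lit 335995) (nat_lit 1) (.e (nat_lit 57849) (nat_lit 252) (.e (nat_lit 57363) (nat_lit 1) (.e (nat_lit 57754) (nat_lit 209) .nil))))))) (.g (nat_lit 4) .nil .nil)))))))) 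
(.nd (nat_lit 2) (.nd (nat_lit 3) (.nd (nat_lit 4) (.nd (nat_lit 5) (.nd (nat_lit 6) 
(.lf (nat_lit 36099) (.g (nat_lit 406) (.e (nat_lit 1217) (nat_lit 90) (.e (nat_lit 81965) (nat_lit 26) (.e (nat_lit 147494) (nat_lit 11) .nil))) .nil)) 
(.lf (nat_lit 36163) (.g (nat_lit 941) (.e (nat_lit 1218) (nat_lit 90) (.e (nat_lit 81938) (nat_lit 20) (.e (nat_lit 1962) (nat_lit 134) (.e (nat_lit 638985) (nat_lit 5) (.e (nat_lit 3015) (nat_lit 187) (.e (nat_lit 450560) (nat_lit 0) (.e (nat_lit 5095) (nat_lit 292) .nil))))))) (.g (nat_lit 4) .nil .nil)))) (.nd (nat_lit 6) 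
(.lf (nat_lit 36131) (.g (nat_lit 2161) (.e (nat_lit 1217) (nat_lit 90) (.e (nat_lit 81965) (nat_lit 26) (.e (nat_lit 147496) (nat_lit 11) (.e (nat_lit 24623) (nat_lit 9) (.e (nat_lit 335997) (nat_lit 1) .nil))))) .nil)) 
(.lf (nat_lit 36195) (.g (nat_lit 2279) (.e (nat_lit 1218) (nat_lit 90) (.e (nat_lit 81950) (nat_lit 21) (.e (nat_lit 57857) (nat_lit 254) (.e (nat_lit 163920) (nat_lit 14) (.e (nat_lit 442430) (nat_lit 24) (.e (nat_lit 229627) (nat_lit 226) .nil)))))) (.g (nat_lit 5) .nil .nil))))) (.nd (nat_lit 5) (.nd (nat_lit 6) 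
(.lf (nat_lit 36115) (.g (nat_lit 3098) (.e (nat_lit 1217) (nat_lit 90) (.e (nat_lit 81965) (nat_lit 26) (.e (nat_lit 147495) (nat_lit 11) (.e (nat_lit 24638) (nat_lit 9) (.e (nat_lit 335986) (nat_lit 1) (.e (nat_lit 57655) (nat_lit 152) .nil)))))) (.g (nat_lit 5) .nil .nil))) 
(.lf (nat_lit 36179) (.g (nat_lit 1830) (.e (nat_lit 1218) (nat_lit 90) (.e (nat_lit 81938) (nat_lit 20) (.e (nat_lit 2281) (nat_lit 150) (.e (nat_lit 770072) (nat_lit 8) (.e (nat_lit 65617) (nat_lit 10) .nil))))) .nil))) (.nd (nat_lit 6) 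
(.lf (nat_lit 36147) (.g (nat_lit 1566) (.e (nat_lit 1217) (nat_lit 90) (.e (nat_lit 81965) (nat_lit 26) (.e (nat_lit 147496) (nat_lit 11) (.e (nat_lit 24661) (nat_lit 14) .nil)))) .nil)) 
(.lf (nat_lit 36211) (.g (nat_lit 2492) (.e (nat_lit 1218) (nat_lit 90) (.e (nat_lit 81956) (nat_lit 23) (.e (nat_lit 98313) (nat_lit 9) (.e (nat_lit 335986) (nat_lit 1) (.e (nat_lit 57847) (nat_lit 252) (.e (nat_lit 57363) (nat_lit 1) (.e (nat_lit 57754) (nat_lit 209) .nil))))))) (.g (nat_lit 4) .nil .nil)))))) (.nd (nat_lit 4) (.nd (nat_lit 5) (.nd (nat_lit 6) 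
(.lf (nat_lit 36107) (.g (nat_lit 2917) (.e (nat_lit 1217) (nat_lit 90) (.e (nat_lit 81965) (nat_lit 26) (.e (nat_lit 147495) (nat_lit 11) (.e (nat_lit 24623) (nat_lit 9) (.e (nat_lit 335997) (nat_lit 1) (.e (nat_lit 57651) (nat_lit 152) .nil)))))) (.g (nat_lit 4) .nil .nil))) 
(.lf (nat_lit 36171) (.g (nat_lit 1394) (.e (nat_lit 1218) (nat_lit 90) (.e (nat_lit 81938) (nat_lit 20) (.e (nat_lit 1963) (nat_lit 134) (.e (nat_lit 638986) (nat_lit 5) (.e (nat_lit 3022) (nat_lit 187) (.e (nat_lit 450569) (nat_lit 0) (.e (nat_lit 5095) (nat_lit 292) .nil))))))) (.g (nat_lit 5) .nil .nil)))) (.nd (nat_lit 6) 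
(.lf (nat_lit 36139) (.g (nat_lit 2462) (.e (nat_lit 1217) (nat_lit 90) (.e (nat_lit 81965) (nat_lit 26) (.e (nat_lit 147496) (nat_lit 11) (.e (nat_lit 24636) (nat_lit 9) (.e (nat_lit 335998) (nat_lit 1) (.e (nat_lit 57654) (nat_lit 152) .nil)))))) (.g (nat_lit 5) .nil .nil))) 
(.lf (nat_lit 36203) (.g (nat_lit 1938) (.e (nat_lit 1218) (nat_lit 90) (.e (nat_lit 81953) (nat_lit 22) (.e (nat_lit 90160) (nat_lit 11) (.e (nat_lit 32512) (nat_lit 20) .nil)))) .nil)))) (.nd (nat_lit 5) (.nd (nat_lit 6) 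
(.lf (nat_lit 36123) (.g (nat_lit 2685) (.e (nat_lit 1217) (nat_lit 90) (.e (nat_lit 81965) (nat_lit 26) (.e (nat_lit 147495) (nat_lit 11) (.e (nat_lit 24644) (nat_lit 11) (.e (nat_lit 368662) (nat_lit 18) (.e (nat_lit 7147) (nat_lit 382) .nil)))))) (.g (nat_lit 5) .nil .nil))) 
(.lf (nat_lit 36187) (.g (nat_lit 3908) (.e (nat_lit 1218) (nat_lit 90) (.e (nat_lit 81950) (nat_lit 21) (.e (nat_lit 57681) (nat_lit 155) (.e (nat_lit 122919) (nat_lit 15) (.e (nat_lit 360451) (nat_lit 0) (.e (nat_lit 7119) (nat_lit 382) .nil)))))) (.g (nat_lit 6) .nil .nil)))) (.nd (nat_lit 6) 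
(.lf (nat_lit 36155) (.g (nat_lit 2302) (.e (nat_lit 1218) (nat_lit 90) (.e (nat_lit 81927) (nat_lit 11) (.e (nat_lit 426343) (nat_lit 14) (.e (nat_lit 491558) (nat_lit 10) (.e (nat_lit 344091) (nat_lit 18) .nil))))) .nil)) 
(.lf (nat_lit 36219) (.g (nat_lit 2906) (.e (nat_lit 1218) (nat_lit 90) (.e (nat_lit 81956) (nat_lit 23) (.e (nat_lit 98313) (nat_lit 9) (.e (nat_lit 335995) (nat_lit 1) (.e (nat_lit 57847) (nat_lit 252) (.e (nat_lit 57368) (nat_lit 1) (.e (nat_lit 57754) (nat_lit 209) .nil))))))) (.g (nat_lit 4) .nil .nil))))))) (.nd (nat_lit 3) (.nd (nat_lit 4) (.nd (nat_lit 5) (.nd (nat_lit 6) 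
(.lf (nat_lit 36103) (.g (nat_lit 2649) (.e (nat_lit 1217) (nat_lit 90) (.e (nat_lit 81965) (nat_lit 26) (.e (nat_lit 147494) (nat_lit 11) (.e (nat_lit 24665) (nat_lit 14) (.e (nat_lit 401420) (nat_lit 1) (.e (nat_lit 164149) (nat_lit 152) .nil)))))) (.g (nat_lit 4) .nil .nil))) 
(.lf (nat_lit 36167) (.g (nat_lit 2573) (.e (nat_lit 1218) (nat_lit 90) (.e (nat_lit 81938) (nat_lit 20) (.e (nat_lit 1962) (nat_lit 134) (.e (nat_lit 638999) (nat_lit 8) (.e (nat_lit 172106) (nat_lit 10) (.e (nat_lit 434209) (nat_lit 18) (.e (nat_lit 5095) (nat_lit 292) .nil))))))) (.g (nat_lit 6) .nil .nil)))) (.nd (nat_lit 6) 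
(.lf (nat_lit 36135) (.g (nat_lit 3012) (.e (nat_lit 1217) (nat_lit 90) (.e (nat_lit 81965) (nat_lit 26) (.e (nat_lit 147496) (nat_lit 11) (.e (nat_lit 24628) (nat_lit 9) (.e (nat_lit 336000) (nat_lit 1) (.e (nat_lit 57654) (nat_lit 152) .nil)))))) (.g (nat_lit 0) .nil .nil))) 
(.lf (nat_lit 36199) (.g (nat_lit 1268) (.e (nat_lit 1218) (nat_lit 90) (.e (nat_lit 81953) (nat_lit 22) (.e (nat_lit 90155) (nat_lit 10) .nil))) .nil)))) (.nd (nat_lit 5) (.nd (nat_lit 6) 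
(.lf (nat_lit 36119) (.g (nat_lit 2773) (.e (nat_lit 1217) (nat_lit 90) (.e (nat_lit 81965) (nat_lit 26) (.e (nat_lit 147495) (nat_lit 11) (.e (nat_lit 24640) (nat_lit 10) (.e (nat_lit 344097) (nat_lit 18) (.e (nat_lit 7146) (nat_lit 382) .nil)))))) (.g (nat_lit 5) .nil .nil))) 
(.lf (nat_lit 36183) (.g (nat_lit 1572) (.e (nat_lit 1218) (nat_lit 90) (.e (nat_lit 81950) (nat_lit 21) (.e (nat_lit 57681) (nat_lit 155) (.e (nat_lit 122919) (nat_lit 15) .nil)))) .nil))) (.nd (nat_lit 6) 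
(.lf (nat_lit 36151) (.g (nat_lit 2926) (.e (nat_lit 1218) (nat_lit 90) (.e (nat_lit 81925) (nat_lit 11) (.e (nat_lit 426343) (nat_lit 14) (.e (nat_lit 491560) (nat_lit 10) (.e (nat_lit 344089) (nat_lit 18) .nil))))) .nil)) 
(.lf (nat_lit 36215) (.g (nat_lit 1701) (.e (nat_lit 1218) (nat_lit 90) (.e (nat_lit 81956) (nat_lit 23) (.e (nat_lit 98313) (nat_lit 9) (.e (nat_lit 335995) (nat_lit 1) .nil)))) .nil))))) (.nd (nat_lit 4) (.nd (nat_lit 5) (.nd (nat_lit 6) 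
(.lf (nat_lit 36111) (.g (nat_lit 3265) (.e (nat_lit 1217) (nat_lit 90) (.e (nat_lit 81965) (nat_lit 26) (.e (nat_lit 147495) (nat_lit 11) (.e (nat_lit 24628) (nat_lit 9) (.e (nat_lit 336000) (nat_lit 1) (.e (nat_lit 57654) (nat_lit 152) .nil)))))) (.g (nat_lit 6) .nil .nil))) 
(.lf (nat_lit 36175) (.g (nat_lit 997) (.e (nat_lit 1218) (nat_lit 90) (.e (nat_lit 81938) (nat_lit 20) (.e (nat_lit 2281) (nat_lit 150) (.e (nat_lit 770057) (nat_lit 5) .nil)))) .nil))) (.nd (nat_lit 6) 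
(.lf (nat_lit 36143) (.g (nat_lit 3153) (.e (nat_lit 1217) (nat_lit 90) (.e (nat_lit 81965) (nat_lit 26) (.e (nat_lit 147496) (nat_lit 11) (.e (nat_lit 24640) (nat_lit 10) (.e (nat_lit 344097) (nat_lit 18) (.e (nat_lit 7146) (nat_lit 382) .nil)))))) (.g (nat_lit 5) .nil .nil))) 
(.lf (nat_lit 36207) (.g (nat_lit 1123) (.e (nat_lit 1218) (nat_lit 90) (.e (nat_lit 81954) (nat_lit 23) (.e (nat_lit 98389) (nat_lit 33) (.e (nat_lit 491560) (nat_lit 10) .nil)))) .nil)))) (.nd (nat_lit 5) (.nd (nat_lit 6) 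
(.lf (nat_lit 36127) (.g (nat_lit 3124) (.e (nat_lit 1217) (nat_lit 90) (.e (nat_lit 81965) (nat_lit 26) (.e (nat_lit 147495) (nat_lit 11) (.e (nat_lit 24665) (nat_lit 14) (.e (nat_lit 401420) (nat_lit 1) (.e (nat_lit 164151) (nat_lit 152) .nil)))))) (.g (nat_lit 5) .nil .nil))) 
(.lf (nat_lit 36191) (.g (nat_lit 3272) (.e (nat_lit 1218) (nat_lit 90) (.e (nat_lit 81950) (nat_lit 21) (.e (nat_lit 57681) (nat_lit 155) (.e (nat_lit 122919) (nat_lit 15) (.e (nat_lit 360451) (nat_lit 0) (.e (nat_lit 7222) (nat_lit 382) .nil)))))) (.g (nat_lit 5) .nil .nil)))) (.nd (nat_lit 6) 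
(.lf (nat_lit 36159) (.g (nat_lit 2152) (.e (nat_lit 1218) (nat_lit 90) (.e (nat_lit 81927) (nat_lit 11) (.e (nat_lit 426344) (nat_lit 14) (.e (nat_lit 491560) (nat_lit 10) (.e (nat_lit 344089) (nat_lit 18) .nil))))) .nil)) 
(.lf (nat_lit 36223) (.g (nat_lit 1749) (.e (nat_lit 1218) (nat_lit 90) (.e (nat_lit 81956) (nat_lit 23) (.e (nat_lit 98313) (nat_lit 9) (.e (nat_lit 335996) (nat_lit 1) .nil)))) .nil)))))))))

noncomputable def tv505 : DT := (.nd (nat_lit 0) (.nd (nat_lit 1) (.nd (nat_lit 2) (.nd (nat_lit 3) (.nd (nat_lit 4) (.nd (nat_lit 5) (.nd (nat_lit 6) 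
(.lf (nat_lit 36224) (.g (nat_lit 2898) (.e (nat_lit 1218) (nat_lit 90) (.e (nat_lit 81956) (nat_lit 23) (.e (nat_lit 98313) (nat_lit 9) (.e (nat_lit 335996) (nat_lit 1) (.e (nat_lit 57854) (nat_lit 252) (.e (nat_lit 57364) (nat_lit 1) (.e (nat_lit 57754) (nat_lit 209) .nil))))))) (.g (nat_lit 5) .nil .nil))) 
(.lf (nat_lit 36288) (.g (nat_lit 2186) (.e (nat_lit 1218) (nat_lit 90) (.e (nat_lit 81956) (nat_lit 23) (.e (nat_lit 98389) (nat_lit 33) (.e (nat_lit 491560) (nat_lit 10) (.e (nat_lit 344088) (nat_lit 18) .nil))))) .nil))) (.nd (nat_lit 6) 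
(.lf (nat_lit 36256) (.g (nat_lit 3175) (.e (nat_lit 1218) (nat_lit 90) (.e (nat_lit 81956) (nat_lit 23) (.e (nat_lit 98350) (nat_lit 24) (.e (nat_lit 409636) (nat_lit 14) .nil)))) .nil)) 
(.lf (nat_lit 36320) (.g (nat_lit 3275) (.e (nat_lit 1218) (nat_lit 90) (.e (nat_lit 81956) (nat_lit 23) (.e (nat_lit 98389) (nat_lit 33) (.e (nat_lit 491560) (nat_lit 10) (.e (nat_lit 344090) (nat_lit 18) (.e (nat_lit 3959) (nat_lit 239) .nil)))))) (.g (nat_lit 4) .nil .nil))))) (.nd (nat_lit 5) (.nd (nat_lit 6) 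
(.lf (nat_lit 36240) (.g (nat_lit 3311) (.e (nat_lit 1218) (nat_lit 90) (.e (nat_lit 81956) (nat_lit 23) (.e (nat_lit 98320) (nat_lit 17) (.e (nat_lit 7591) (nat_lit 407) (.e (nat_lit 73730) (nat_lit 0) (.e (nat_lit 3950) (nat_lit 239) .nil)))))) (.g (nat_lit 5) .nil .nil))) 
(.lf (nat_lit 36304) (.g (nat_lit 2922) (.e (nat_lit 1218) (nat_lit 90) (.e (nat_lit 81956) (nat_lit 23) (.e (nat_lit 98389) (nat_lit 33) (.e (nat_lit 491560) (nat_lit 10) (.e (nat_lit 344088) (nat_lit 18) (.e (nat_lit 3986) (nat_lit 239) .nil)))))) (.g (nat_lit 4) .nil .nil)))) (.nd (nat_lit 6) 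
(.lf (nat_lit 36272) (.g (nat_lit 855) (.e (nat_lit 1218) (nat_lit 90) (.e (nat_lit 81956) (nat_lit 23) (.e (nat_lit 98388) (nat_lit 33) .nil))) .nil)) 
(.lf (nat_lit 36336) (.g (nat_lit 4263) (.e (nat_lit 1218) (nat_lit 90) (.e (nat_lit 81956) (nat_lit 23) (.e (nat_lit 98389) (nat_lit 33) (.e (nat_lit 491560) (nat_lit 10) (.e (nat_lit 344096) (nat_lit 18) (.e (nat_lit 3950) (nat_lit 239) .nil)))))) (.g (nat_lit 6) .nil .nil)))))) (.nd (nat_lit 4) (.nd (nat_lit 5) (.nd (nat_lit 6) 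
(.lf (nat_lit 36232) (.g (nat_lit 1705) (.e (nat_lit 1218) (nat_lit 90) (.e (nat_lit 81956) (nat_lit 23) (.e (nat_lit 98319) (nat_lit 17) (.e (nat_lit 7591) (nat_lit 407) .nil)))) .nil)) 
(.lf (nat_lit 36296) (.g (nat_lit 3168) (.e (nat_lit 1218) (nat_lit 90) (.e (nat_lit 81956) (nat_lit 23) (.e (nat_lit 98389) (nat_lit 33) (.e (nat_lit 491560) (nat_lit 10) (.e (nat_lit 344088) (nat_lit 18) (.e (nat_lit 3939) (nat_lit 239) .nil)))))) (.g (nat_lit 4) .nil .nil)))) (.nd (nat_lit 6) 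
(.lf (nat_lit 36264) (.g (nat_lit 2704) (.e (nat_lit 1218) (nat_lit 90) (.e (nat_lit 81956) (nat_lit 23) (.e (nat_lit 98350) (nat_lit 24) (.e (nat_lit 409649) (nat_lit 18) (.e (nat_lit 303111) (nat_lit 0) (.e (nat_lit 2429) (nat_lit 157) (.e (nat_lit 3884) (nat_lit 233) .nil))))))) (.g (nat_lit 4) .nil .nil))) 
(.lf (nat_lit 36328) (.g (nat_lit 2804) (.e (nat_lit 1218) (nat_lit 90) (.e (nat_lit 81956) (nat_lit 23) (.e (nat_lit 98389) (nat_lit 33) (.e (nat_lit 491560) (nat_lit 10) (.e (nat_lit 344092) (nat_lit 18) (.e (nat_lit 3985) (nat_lit 239) .nil)))))) (.g (nat_lit 4) .nil .nil))))) (.nd (nat_lit 5) (.nd (nat_lit 6) 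
(.lf (nat_lit 36248) (.g (nat_lit 3187) (.e (nat_lit 1218) (nat_lit 90) (.e (nat_lit 81956) (nat_lit 23) (.e (nat_lit 98320) (nat_lit 17) (.e (nat_lit 7593) (nat_lit 407) (.e (nat_lit 73730) (nat_lit 0) (.e (nat_lit 3950) (nat_lit 239) .nil)))))) (.g (nat_lit 4) .nil .nil))) 
(.lf (nat_lit 36312) (.g (nat_lit 3122) (.e (nat_lit 1218) (nat_lit 90) (.e (nat_lit 81956) (nat_lit 23) (.e (nat_lit 98389) (nat_lit 33) (.e (nat_lit 491560) (nat_lit 10) (.e (nat_lit 344089) (nat_lit 18) (.e (nat_lit 3925) (nat_lit 239) .nil)))))) (.g (nat_lit 4) .nil .nil)))) (.nd (nat_lit 6) 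
(.lf (nat_lit 36280) (.g (nat_lit 2477) (.e (nat_lit 1218) (nat_lit 90) (.e (nat_lit 81956) (nat_lit 23) (.e (nat_lit 98389) (nat_lit 33) (.e (nat_lit 491558) (nat_lit 10) (.e (nat_lit 344090) (nat_lit 18) .nil))))) .nil)) 
(.lf (nat_lit 36344) (.g (nat_lit 2702) (.e (nat_lit 1218) (nat_lit 90) (.e (nat_lit 81956) (nat_lit 23) (.e (nat_lit 98389) (nat_lit 33) (.e (nat_lit 491562) (nat_lit 12) (.e (nat_lit 385047) (nat_lit 21) .nil))))) .nil)))))) (.nd (nat_lit 3) (.nd (nat_lit 4) (.nd (nat_lit 5) (.nd (nat_lit 6) 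
(.lf (nat_lit 36228) (.g (nat_lit 1885) (.e (nat_lit 1218) (nat_lit 90) (.e (nat_lit 81956) (nat_lit 23) (.e (nat_lit 106240) (nat_lit 16) (.e (nat_lit 401454) (nat_lit 12) (.e (nat_lit 475155) (nat_lit 21) .nil))))) .nil)) 
(.lf (nat_lit 36292) (.g (nat_lit 3291) (.e (nat_lit 1218) (nat_lit 90) (.e (nat_lit 81956) (nat_lit 23) (.e (nat_lit 98389) (nat_lit 33) (.e (nat_lit 491560) (nat_lit 10) (.e (nat_lit 344088) (nat_lit 18) (.e (nat_lit 3922) (nat_lit 239) .nil)))))) (.g (nat_lit 4) .nil .nil)))) (.nd (nat_lit 6) 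
(.lf (nat_lit 36260) (.g (nat_lit 1578) (.e (nat_lit 1218) (nat_lit 90) (.e (nat_lit 81956) (nat_lit 23) (.e (nat_lit 98350) (nat_lit 24) (.e (nat_lit 409649) (nat_lit 18) .nil)))) .nil)) 
(.lf (nat_lit 36324) (.g (nat_lit 2669) (.e (nat_lit 1218) (nat_lit 90) (.e (nat_lit 81956) (nat_lit 23) (.e (nat_lit 98389) (nat_lit 33) (.e (nat_lit 491560) (nat_lit 10) (.e (nat_lit 344091) (nat_lit 18) (.e (nat_lit 3959) (nat_lit 239) .nil)))))) (.g (nat_lit 4) .nil .nil))))) (.nd (nat_lit 5) (.nd (nat_lit 6) 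
(.lf (nat_lit 36244) (.g (nat_lit 1508) (.e (nat_lit 1218) (nat_lit 90) (.e (nat_lit 81956) (nat_lit 23) (.e (nat_lit 98320) (nat_lit 17) (.e (nat_lit 7593) (nat_lit 407) .nil)))) .nil)) 
(.lf (nat_lit 36308) (.g (nat_lit 3355) (.e (nat_lit 1218) (nat_lit 90) (.e (nat_lit 81956) (nat_lit 23) (.e (nat_lit 98389) (nat_lit 33) (.e (nat_lit 491560) (nat_lit 10) (.e (nat_lit 344089) (nat_lit 18) (.e (nat_lit 3918) (nat_lit 239) .nil)))))) (.g (nat_lit 4) .nil .nil)))) (.nd (nat_lit 6) 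
(.lf (nat_lit 36276) (.g (nat_lit 473) (.e (nat_lit 1218) (nat_lit 90) (.e (nat_lit 81956) (nat_lit 23) (.e (nat_lit 98389) (nat_lit 33) .nil))) .nil)) 
(.lf (nat_lit 36340) (.g (nat_lit 2824) (.e (nat_lit 1218) (nat_lit 90) (.e (nat_lit 81956) (nat_lit 23) (.e (nat_lit 98389) (nat_lit 33) (.e (nat_lit 491560) (nat_lit 10) (.e (nat_lit 344098) (nat_lit 18) (.e (nat_lit 3984) (nat_lit 239) .nil)))))) (.g (nat_lit 4) .nil .nil)))))) (.nd (nat_lit 4) (.nd (nat_lit 5) (.nd (nat_lit 6) 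
(.lf (nat_lit 36236) (.g (nat_lit 1502) (.e (nat_lit 1218) (nat_lit 90) (.e (nat_lit 81956) (nat_lit 23) (.e (nat_lit 98320) (nat_lit 17) (.e (nat_lit 7591) (nat_lit 407) .nil)))) .nil)) 
(.lf (nat_lit 36300) (.g (nat_lit 3147) (.e (nat_lit 1218) (nat_lit 90) (.e (nat_lit 81956) (nat_lit 23) (.e (nat_lit 98389) (nat_lit 33) (.e (nat_lit 491560) (nat_lit 10) (.e (nat_lit 344088) (nat_lit 18) (.e (nat_lit 3959) (nat_lit 239) .nil)))))) (.g (nat_lit 4) .nil .nil)))) (.nd (nat_lit 6) 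
(.lf (nat_lit 36268) (.g (nat_lit 967) (.e (nat_lit 1218) (nat_lit 90) (.e (nat_lit 81956) (nat_lit 23) (.e (nat_lit 98384) (nat_lit 32) .nil))) .nil)) 
(.lf (nat_lit 36332) (.g (nat_lit 3270) (.e (nat_lit 1218) (nat_lit 90) (.e (nat_lit 81956) (nat_lit 23) (.e (nat_lit 98389) (nat_lit 33) (.e (nat_lit 491560) (nat_lit 10) (.e (nat_lit 344094) (nat_lit 18) (.e (nat_lit 3957) (nat_lit 239) .nil)))))) (.g (nat_lit 4) .nil .nil))))) (.nd (nat_lit 5) (.nd (nat_lit 6) 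
(.lf (nat_lit 36252) (.g (nat_lit 1775) (.e (nat_lit 1218) (nat_lit 90) (.e (nat_lit 81956) (nat_lit 23) (.e (nat_lit 98325) (nat_lit 17) (.e (nat_lit 7936) (nat_lit 407) .nil)))) .nil)) 
(.lf (nat_lit 36316) (.g (nat_lit 2711) (.e (nat_lit 1218) (nat_lit 90) (.e (nat_lit 81956) (nat_lit 23) (.e (nat_lit 98389) (nat_lit 33) (.e (nat_lit 491560) (nat_lit 10) (.e (nat_lit 344089) (nat_lit 18) (.e (nat_lit 3972) (nat_lit 239) .nil)))))) (.g (nat_lit 4) .nil .nil)))) (.nd (nat_lit 6) 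
(.lf (nat_lit 36284) (.g (nat_lit 2402) (.e (nat_lit 1218) (nat_lit 90) (.e (nat_lit 81956) (nat_lit 23) (.e (nat_lit 98389) (nat_lit 33) (.e (nat_lit 491558) (nat_lit 10) (.e (nat_lit 344093) (nat_lit 18) .nil))))) .nil)) 
(.lf (nat_lit 36348) (.g (nat_lit 640) (.e (nat_lit 1218) (nat_lit 90) (.e (nat_lit 81957) (nat_lit 24) (.e (nat_lit 123184) (nat_lit 264) .nil))) .nil))))))) (.nd (nat_lit 2) (.nd (nat_lit 3) (.nd (nat_lit 4) (.nd (nat_lit 5) (.nd (nat_lit 6) 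
(.lf (nat_lit 36226) (.g (nat_lit 1002) (.e (nat_lit 1218) (nat_lit 90) (.e (nat_lit 81956) (nat_lit 23) (.e (nat_lit 106240) (nat_lit 15) .nil))) .nil)) 
(.lf (nat_lit 36290) (.g (nat_lit 3431) (.e (nat_lit 1218) (nat_lit 90) (.e (nat_lit 81956) (nat_lit 23) (.e (nat_lit 98389) (nat_lit 33) (.e (nat_lit 491560) (nat_lit 10) (.e (nat_lit 344088) (nat_lit 18) (.e (nat_lit 3917) (nat_lit 239) .nil)))))) (.g (nat_lit 4) .nil .nil)))) (.nd (nat_lit 6) 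
(.lf (nat_lit 36258) (.g (nat_lit 2705) (.e (nat_lit 1218) (nat_lit 90) (.e (nat_lit 81956) (nat_lit 23) (.e (nat_lit 98350) (nat_lit 24) (.e (nat_lit 409646) (nat_lit 18) .nil)))) .nil)) 
(.lf (nat_lit 36322) (.g (nat_lit 3007) (.e (nat_lit 1218) (nat_lit 90) (.e (nat_lit 81956) (nat_lit 23) (.e (nat_lit 98389) (nat_lit 33) (.e (nat_lit 491560) (nat_lit 10) (.e (nat_lit 344090) (nat_lit 18) (.e (nat_lit 3986) (nat_lit 239) .nil)))))) (.g (nat_lit 4) .nil .nil))))) (.nd (nat_lit 5) (.nd (nat_lit 6) 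
(.lf (nat_lit 36242) (.g (nat_lit 2893) (.e (nat_lit 1218) (nat_lit 90) (.e (nat_lit 81956) (nat_lit 23) (.e (nat_lit 98320) (nat_lit 17) (.e (nat_lit 7591) (nat_lit 407) (.e (nat_lit 73731) (nat_lit 0) (.e (nat_lit 3959) (nat_lit 239) .nil)))))) (.g (nat_lit 4) .nil .nil))) 
(.lf (nat_lit 36306) (.g (nat_lit 3406) (.e (nat_lit 1218) (nat_lit 90) (.e (nat_lit 81956) (nat_lit 23) (.e (nat_lit 98389) (nat_lit 33) (.e (nat_lit 491560) (nat_lit 10) (.e (nat_lit 344089) (nat_lit 18) (.e (nat_lit 3916) (nat_lit 239) .nil)))))) (.g (nat_lit 4) .nil .nil)))) (.nd (nat_lit 6) 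
(.lf (nat_lit 36274) (.g (nat_lit 3939) (.e (nat_lit 1218) (nat_lit 90) (.e (nat_lit 81956) (nat_lit 23) (.e (nat_lit 98388) (nat_lit 33) (.e (nat_lit 491566) (nat_lit 12) (.e (nat_lit 385049) (nat_lit 21) .nil))))) .nil)) 
(.lf (nat_lit 36338) (.g (nat_lit 4340) (.e (nat_lit 1218) (nat_lit 90) (.e (nat_lit 81956) (nat_lit 23) (.e (nat_lit 98389) (nat_lit 33) (.e (nat_lit 491560) (nat_lit 10) (.e (nat_lit 344097) (nat_lit 18) (.e (nat_lit 3946) (nat_lit 239) .nil)))))) (.g (nat_lit 5) .nil .nil)))))) (.nd (nat_lit 4) (.nd (nat_lit 5) (.nd (nat_lit 6) 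
(.lf (nat_lit 36234) (.g (nat_lit 1687) (.e (nat_lit 1218) (nat_lit 90) (.e (nat_lit 81956) (nat_lit 23) (.e (nat_lit 98319) (nat_lit 17) (.e (nat_lit 7593) (nat_lit 407) .nil)))) .nil)) 
(.lf (nat_lit 36298) (.g (nat_lit 2915) (.e (nat_lit 1218) (nat_lit 90) (.e (nat_lit 81956) (nat_lit 23) (.e (nat_lit 98389) (nat_lit 33) (.e (nat_lit 491560) (nat_lit 10) (.e (nat_lit 344088) (nat_lit 18) (.e (nat_lit 3954) (nat_lit 239) .nil)))))) (.g (nat_lit 4) .nil .nil)))) (.nd (nat_lit 6) 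
(.lf (nat_lit 36266) (.g (nat_lit 3459) (.e (nat_lit 1218) (nat_lit 90) (.e (nat_lit 81956) (nat_lit 23) (.e (nat_lit 98350) (nat_lit 24) (.e (nat_lit 409649) (nat_lit 18) (.e (nat_lit 303115) (nat_lit 1) .nil))))) .nil)) 
(.lf (nat_lit 36330) (.g (nat_lit 3243) (.e (nat_lit 1218) (nat_lit 90) (.e (nat_lit 81956) (nat_lit 23) (.e (nat_lit 98389) (nat_lit 33) (.e (nat_lit 491560) (nat_lit 10) (.e (nat_lit 344093) (nat_lit 18) (.e (nat_lit 3945) (nat_lit 239) .nil)))))) (.g (nat_lit 4) .nil .nil))))) (.nd (nat_lit 5) (.nd (nat_lit 6) 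
(.lf (nat_lit 36250) (.g (nat_lit 3208) (.e (nat_lit 1218) (nat_lit 90) (.e (nat_lit 81956) (nat_lit 23) (.e (nat_lit 98320) (nat_lit 17) (.e (nat_lit 7593) (nat_lit 407) (.e (nat_lit 73732) (nat_lit 0) (.e (nat_lit 3942) (nat_lit 239) .nil)))))) (.g (nat_lit 4) .nil .nil))) 
(.lf (nat_lit 36314) (.g (nat_lit 2920) (.e (nat_lit 1218) (nat_lit 90) (.e (nat_lit 81956) (nat_lit 23) (.e (nat_lit 98389) (nat_lit 33) (.e (nat_lit 491560) (nat_lit 10) (.e (nat_lit 344089) (nat_lit 18) (.e (nat_lit 3939) (nat_lit 239) .nil)))))) (.g (nat_lit 4) .nil .nil)))) (.nd (nat_lit 6) 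
(.lf (nat_lit 36282) (.g (nat_lit 3565) (.e (nat_lit 1218) (nat_lit 90) (.e (nat_lit 81956) (nat_lit 23) (.e (nat_lit 98389) (nat_lit 33) (.e (nat_lit 491558) (nat_lit 10) (.e (nat_lit 344091) (nat_lit 18) (.e (nat_lit 3950) (nat_lit 239) .nil)))))) (.g (nat_lit 5) .nil .nil))) 
(.lf (nat_lit 36346) (.g (nat_lit 2604) (.e (nat_lit 1218) (nat_lit 90) (.e (nat_lit 81957) (nat_lit 24) (.e (nat_lit 123182) (nat_lit 264) (.e (nat_lit 1201) (nat_lit 88) (.e (nat_lit 65610) (nat_lit 10) .nil))))) .nil)))))) (.nd (nat_lit 3) (.nd (nat_lit 4) (.nd (nat_lit 5) (.nd (nat_lit 6) 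
(.lf (nat_lit 36230) (.g (nat_lit 2328) (.e (nat_lit 1218) (nat_lit 90) (.e (nat_lit 81956) (nat_lit 23) (.e (nat_lit 106240) (nat_lit 16) (.e (nat_lit 401454) (nat_lit 12) (.e (nat_lit 475162) (nat_lit 21) .nil))))) .nil)) 
(.lf (nat_lit 36294) (.g (nat_lit 2697) (.e (nat_lit 1218) (nat_lit 90) (.e (nat_lit 81956) (nat_lit 23) (.e (nat_lit 98389) (nat_lit 33) (.e (nat_lit 491560) (nat_lit 10) (.e (nat_lit 344088) (nat_lit 18) (.e (nat_lit 3925) (nat_lit 239) .nil)))))) (.g (nat_lit 4) .nil .nil)))) (.nd (nat_lit 6) 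
(.lf (nat_lit 36262) (.g (nat_lit 3265) (.e (nat_lit 1218) (nat_lit 90) (.e (nat_lit 81956) (nat_lit 23) (.e (nat_lit 98350) (nat_lit 24) (.e (nat_lit 409649) (nat_lit 18) (.e (nat_lit 303111) (nat_lit 0) (.e (nat_lit 2424) (nat_lit 157) (.e (nat_lit 3893) (nat_lit 233) .nil))))))) (.g (nat_lit 5) .nil .nil))) 
(.lf (nat_lit 36326) (.g (nat_lit 2692) (.e (nat_lit 1218) (nat_lit 90) (.e (nat_lit 81956) (nat_lit 23) (.e (nat_lit 98389) (nat_lit 33) (.e (nat_lit 491560) (nat_lit 10) (.e (nat_lit 344091) (nat_lit 18) (.e (nat_lit 3986) (nat_lit 239) .nil)))))) (.g (nat_lit 4) .nil .nil))))) (.nd (nat_lit 5) (.nd (nat_lit 6) 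
(.lf (nat_lit 36246) (.g (nat_lit 2983) (.e (nat_lit 1218) (nat_lit 90) (.e (nat_lit 81956) (nat_lit 23) (.e (nat_lit 98320) (nat_lit 17) (.e (nat_lit 7593) (nat_lit 407) (.e (nat_lit 73729) (nat_lit 0) (.e (nat_lit 3957) (nat_lit 239) .nil)))))) (.g (nat_lit 4) .nil .nil))) 
(.lf (nat_lit 36310) (.g (nat_lit 2840) (.e (nat_lit 1218) (nat_lit 90) (.e (nat_lit 81956) (nat_lit 23) (.e (nat_lit 98389) (nat_lit 33) (.e (nat_lit 491560) (nat_lit 10) (.e (nat_lit 344089) (nat_lit 18) (.e (nat_lit 3922) (nat_lit 239) .nil)))))) (.g (nat_lit 4) .nil .nil)))) (.nd (nat_lit 6) 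
(.lf (nat_lit 36278) (.g (nat_lit 2436) (.e (nat_lit 1218) (nat_lit 90) (.e (nat_lit 81956) (nat_lit 23) (.e (nat_lit 98389) (nat_lit 33) (.e (nat_lit 491558) (nat_lit 10) (.e (nat_lit 344088) (nat_lit 18) .nil))))) .nil)) 
(.lf (nat_lit 36342) (.g (nat_lit 3429) (.e (nat_lit 1218) (nat_lit 90) (.e (nat_lit 81956) (nat_lit 23) (.e (nat_lit 98389) (nat_lit 33) (.e (nat_lit 491560) (nat_lit 10) (.e (nat_lit 344099) (nat_lit 18) (.e (nat_lit 3946) (nat_lit 239) .nil)))))) (.g (nat_lit 4) .nil .nil)))))) (.nd (nat_lit 4) (.nd (nat_lit 5) (.nd (nat_lit 6) 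
(.lf (nat_lit 36238) (.g (nat_lit 2938) (.e (nat_lit 1218) (nat_lit 90) (.e (nat_lit 81956) (nat_lit 23) (.e (nat_lit 98320) (nat_lit 17) (.e (nat_lit 7591) (nat_lit 407) (.e (nat_lit 73729) (nat_lit 0) (.e (nat_lit 3957) (nat_lit 239) .nil)))))) (.g (nat_lit 4) .nil .nil))) 
(.lf (nat_lit 36302) (.g (nat_lit 3054) (.e (nat_lit 1218) (nat_lit 90) (.e (nat_lit 81956) (nat_lit 23) (.e (nat_lit 98389) (nat_lit 33) (.e (nat_lit 491560) (nat_lit 10) (.e (nat_lit 344088) (nat_lit 18) (.e (nat_lit 3983) (nat_lit 239) .nil)))))) (.g (nat_lit 4) .nil .nil)))) (.nd (nat_lit 6) 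
(.lf (nat_lit 36270) (.g (nat_lit 3611) (.e (nat_lit 1218) (nat_lit 90) (.e (nat_lit 81956) (nat_lit 23) (.e (nat_lit 98384) (nat_lit 32) (.e (nat_lit 475214) (nat_lit 42) (.e (nat_lit 720930) (nat_lit 21) .nil))))) .nil)) 
(.lf (nat_lit 36334) (.g (nat_lit 2919) (.e (nat_lit 1218) (nat_lit 90) (.e (nat_lit 81956) (nat_lit 23) (.e (nat_lit 98389) (nat_lit 33) (.e (nat_lit 491560) (nat_lit 10) (.e (nat_lit 344095) (nat_lit 18) (.e (nat_lit 3950) (nat_lit 239) .nil)))))) (.g (nat_lit 4) .nil .nil))))) (.nd (nat_lit 5) (.nd (nat_lit 6) 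
(.lf (nat_lit 36254) (.g (nat_lit 1184) (.e (nat_lit 1218) (nat_lit 90) (.e (nat_lit 81956) (nat_lit 23) (.e (nat_lit 98333) (nat_lit 18) .nil))) .nil)) 
(.lf (nat_lit 36318) (.g (nat_lit 3572) (.e (nat_lit 1218) (nat_lit 90) (.e (nat_lit 81956) (nat_lit 23) (.e (nat_lit 98389) (nat_lit 33) (.e (nat_lit 491560) (nat_lit 10) (.e (nat_lit 344090) (nat_lit 18) (.e (nat_lit 3950) (nat_lit 239) .nil)))))) (.g (nat_lit 5) .nil .nil)))) (.nd (nat_lit 6) 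
(.lf (nat_lit 36286) (.g (nat_lit 1296) (.e (nat_lit 1218) (nat_lit 90) (.e (nat_lit 81956) (nat_lit 23) (.e (nat_lit 98389) (nat_lit 33) (.e (nat_lit 491560) (nat_lit 10) .nil)))) .nil)) 
(.lf (nat_lit 36350) (.g (nat_lit 569) (.e (nat_lit 1218) (nat_lit 90) (.e (nat_lit 81957) (nat_lit 24) (.e (nat_lit 123195) (nat_lit 266) .nil))) .nil)))))))) (.nd (nat_lit 1) (.nd (nat_lit 2) (.nd (nat_lit 3) (.nd (nat_lit 4) (.nd (nat_lit 5) (.nd (nat_lit 6) 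
(.lf (nat_lit 36225) (.g (nat_lit 1860) (.e (nat_lit 1218) (nat_lit 90) (.e (nat_lit 81956) (nat_lit 23) (.e (nat_lit 98313) (nat_lit 9) (.e (nat_lit 343808) (nat_lit 20) .nil)))) .nil)) 
(.lf (nat_lit 36289) (.g (nat_lit 3450) (.e (nat_lit 1218) (nat_lit 90) (.e (nat_lit 81956) (nat_lit 23) (.e (nat_lit 98389) (nat_lit 33) (.e (nat_lit 491560) (nat_lit 10) (.e (nat_lit 344088) (nat_lit 18) (.e (nat_lit 3916) (nat_lit 239) .nil)))))) (.g (nat_lit 4) .nil .nil)))) (.nd (nat_lit 6) 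
(.lf (nat_lit 36257) (.g (nat_lit 3196) (.e (nat_lit 1218) (nat_lit 90) (.e (nat_lit 81956) (nat_lit 23) (.e (nat_lit 98350) (nat_lit 24) (.e (nat_lit 409645) (nat_lit 18) .nil)))) .nil)) 
(.lf (nat_lit 36321) (.g (nat_lit 2827) (.e (nat_lit 1218) (nat_lit 90) (.e (nat_lit 81956) (nat_lit 23) (.e (nat_lit 98389) (nat_lit 33) (.e (nat_lit 491560) (nat_lit 10) (.e (nat_lit 344090) (nat_lit 18) (.e (nat_lit 3985) (nat_lit 239) .nil)))))) (.g (nat_lit 4) .nil .nil))))) (.nd (nat_lit 5) (.nd (nat_lit 6) 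
(.lf (nat_lit 36241) (.g (nat_lit 3237) (.e (nat_lit 1218) (nat_lit 90) (.e (nat_lit 81956) (nat_lit 23) (.e (nat_lit 98320) (nat_lit 17) (.e (nat_lit 7591) (nat_lit 407) (.e (nat_lit 73731) (nat_lit 0) (.e (nat_lit 3950) (nat_lit 239) .nil)))))) (.g (nat_lit 4) .nil .nil))) 
(.lf (nat_lit 36305) (.g (nat_lit 2275) (.e (nat_lit 1218) (nat_lit 90) (.e (nat_lit 81956) (nat_lit 23) (.e (nat_lit 98389) (nat_lit 33) (.e (nat_lit 491560) (nat_lit 10) (.e (nat_lit 344089) (nat_lit 18) .nil))))) .nil))) (.nd (nat_lit 6) 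
(.lf (nat_lit 36273) (.g (nat_lit 3325) (.e (nat_lit 1218) (nat_lit 90) (.e (nat_lit 81956) (nat_lit 23) (.e (nat_lit 98388) (nat_lit 33) (.e (nat_lit 491566) (nat_lit 12) (.e (nat_lit 385043) (nat_lit 21) .nil))))) .nil)) 
(.lf (nat_lit 36337) (.g (nat_lit 3272) (.e (nat_lit 1218) (nat_lit 90) (.e (nat_lit 81956) (nat_lit 23) (.e (nat_lit 98389) (nat_lit 33) (.e (nat_lit 491560) (nat_lit 10) (.e (nat_lit 344096) (nat_lit 18) (.e (nat_lit 3959) (nat_lit 239) .nil)))))) (.g (nat_lit 4) .nil .nil)))))) (.nd (nat_lit 4) (.nd (nat_lit 5) (.nd (nat_lit 6) 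
(.lf (nat_lit 36233) (.g (nat_lit 2270) (.e (nat_lit 1218) (nat_lit 90) (.e (nat_lit 81956) (nat_lit 23) (.e (nat_lit 98319) (nat_lit 17) (.e (nat_lit 7591) (nat_lit 407) (.e (nat_lit 73729) (nat_lit 0) (.e (nat_lit 3959) (nat_lit 239) .nil)))))) (.g (nat_lit 4) .nil .nil))) 
(.lf (nat_lit 36297) (.g (nat_lit 2983) (.e (nat_lit 1218) (nat_lit 90) (.e (nat_lit 81956) (nat_lit 23) (.e (nat_lit 98389) (nat_lit 33) (.e (nat_lit 491560) (nat_lit 10) (.e (nat_lit 344088) (nat_lit 18) (.e (nat_lit 3950) (nat_lit 239) .nil)))))) (.g (nat_lit 4) .nil .nil)))) (.nd (nat_lit 6) 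
(.lf (nat_lit 36265) (.g (nat_lit 2813) (.e (nat_lit 1218) (nat_lit 90) (.e (nat_lit 81956) (nat_lit 23) (.e (nat_lit 98350) (nat_lit 24) (.e (nat_lit 409649) (nat_lit 18) (.e (nat_lit 303111) (nat_lit 0) (.e (nat_lit 2429) (nat_lit 157) (.e (nat_lit 3885) (nat_lit 233) .nil))))))) (.g (nat_lit 4) .nil .nil))) 
(.lf (nat_lit 36329) (.g (nat_lit 3124) (.e (nat_lit 1218) (nat_lit 90) (.e (nat_lit 81956) (nat_lit 23) (.e (nat_lit 98389) (nat_lit 33) (.e (nat_lit 491560) (nat_lit 10) (.e (nat_lit 344093) (nat_lit 18) (.e (nat_lit 3943) (nat_lit 239) .nil)))))) (.g (nat_lit 4) .nil .nil))))) (.nd (nat_lit 5) (.nd (nat_lit 6) 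
(.lf (nat_lit 36249) (.g (nat_lit 3145) (.e (nat_lit 1218) (nat_lit 90) (.e (nat_lit 81956) (nat_lit 23) (.e (nat_lit 98320) (nat_lit 17) (.e (nat_lit 7593) (nat_lit 407) (.e (nat_lit 73731) (nat_lit 0) (.e (nat_lit 3950) (nat_lit 239) .nil)))))) (.g (nat_lit 4) .nil .nil))) 
(.lf (nat_lit 36313) (.g (nat_lit 3033) (.e (nat_lit 1218) (nat_lit 90) (.e (nat_lit 81956) (nat_lit 23) (.e (nat_lit 98389) (nat_lit 33) (.e (nat_lit 491560) (nat_lit 10) (.e (nat_lit 344089) (nat_lit 18) (.e (nat_lit 3927) (nat_lit 239) .nil)))))) (.g (nat_lit 4) .nil .nil)))) (.nd (nat_lit 6) 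
(.lf (nat_lit 36281) (.g (nat_lit 2173) (.e (nat_lit 1218) (nat_lit 90) (.e (nat_lit 81956) (nat_lit 23) (.e (nat_lit 98389) (nat_lit 33) (.e (nat_lit 491558) (nat_lit 10) (.e (nat_lit 344091) (nat_lit 18) .nil))))) .nil)) 
(.lf (nat_lit 36345) (.g (nat_lit 4575) (.e (nat_lit 1218) (nat_lit 90) (.e (nat_lit 81956) (nat_lit 23) (.e (nat_lit 98389) (nat_lit 33) (.e (nat_lit 491563) (nat_lit 12) (.e (nat_lit 385049) (nat_lit 21) .nil))))) .nil)))))) (.nd (nat_lit 3) (.nd (nat_lit 4) (.nd (nat_lit 5) (.nd (nat_lit 6) 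
(.lf (nat_lit 36229) (.g (nat_lit 1887) (.e (nat_lit 1218) (nat_lit 90) (.e (nat_lit 81956) (nat_lit 23) (.e (nat_lit 106240) (nat_lit 16) (.e (nat_lit 401454) (nat_lit 12) (.e (nat_lit 475155) (nat_lit 21) (.e (nat_lit 4618) (nat_lit 269) .nil)))))) (.g (nat_lit 4) .nil .nil))) 
(.lf (nat_lit 36293) (.g (nat_lit 2676) (.e (nat_lit 1218) (nat_lit 90) (.e (nat_lit 81956) (nat_lit 23) (.e (nat_lit 98389) (nat_lit 33) (.e (nat_lit 491560) (nat_lit 10) (.e (nat_lit 344088) (nat_lit 18) (.e (nat_lit 3923) (nat_lit 239) .nil)))))) (.g (nat_lit 4) .nil .nil)))) (.nd (nat_lit 6) 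
(.lf (nat_lit 36261) (.g (nat_lit 1975) (.e (nat_lit 1218) (nat_lit 90) (.e (nat_lit 81956) (nat_lit 23) (.e (nat_lit 98350) (nat_lit 24) (.e (nat_lit 409649) (nat_lit 18) (.e (nat_lit 303111) (nat_lit 0) .nil))))) .nil)) 
(.lf (nat_lit 36325) (.g (nat_lit 3051) (.e (nat_lit 1218) (nat_lit 90) (.e (nat_lit 81956) (nat_lit 23) (.e (nat_lit 98389) (nat_lit 33) (.e (nat_lit 491560) (nat_lit 10) (.e (nat_lit 344091) (nat_lit 18) (.e (nat_lit 3985) (nat_lit 239) .nil)))))) (.g (nat_lit 4) .nil .nil))))) (.nd (nat_lit 5) (.nd (nat_lit 6) 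
(.lf (nat_lit 36245) (.g (nat_lit 4242) (.e (nat_lit 1218) (nat_lit 90) (.e (nat_lit 81956) (nat_lit 23) (.e (nat_lit 98320) (nat_lit 17) (.e (nat_lit 7593) (nat_lit 407) (.e (nat_lit 73729) (nat_lit 0) (.e (nat_lit 3950) (nat_lit 239) .nil)))))) (.g (nat_lit 6) .nil .nil))) 
(.lf (nat_lit 36309) (.g (nat_lit 2683) (.e (nat_lit 1218) (nat_lit 90) (.e (nat_lit 81956) (nat_lit 23) (.e (nat_lit 98389) (nat_lit 33) (.e (nat_lit 491560) (nat_lit 10) (.e (nat_lit 344089) (nat_lit 18) (.e (nat_lit 3920) (nat_lit 239) .nil)))))) (.g (nat_lit 4) .nil .nil)))) (.nd (nat_lit 6) 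
(.lf (nat_lit 36277) (.g (nat_lit 1314) (.e (nat_lit 1218) (nat_lit 90) (.e (nat_lit 81956) (nat_lit 23) (.e (nat_lit 98389) (nat_lit 33) (.e (nat_lit 491558) (nat_lit 10) .nil)))) .nil)) 
(.lf (nat_lit 36341) (.g (nat_lit 2712) (.e (nat_lit 1218) (nat_lit 90) (.e (nat_lit 81956) (nat_lit 23) (.e (nat_lit 98389) (nat_lit 33) (.e (nat_lit 491560) (nat_lit 10) (.e (nat_lit 344099) (nat_lit 18) (.e (nat_lit 3942) (nat_lit 239) .nil)))))) (.g (nat_lit 4) .nil .nil)))))) (.nd (nat_lit 4) (.nd (nat_lit 5) (.nd (nat_lit 6) 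
(.lf (nat_lit 36237) (.g (nat_lit 4237) (.e (nat_lit 1218) (nat_lit 90) (.e (nat_lit 81956) (nat_lit 23) (.e (nat_lit 98320) (nat_lit 17) (.e (nat_lit 7591) (nat_lit 407) (.e (nat_lit 73729) (nat_lit 0) (.e (nat_lit 3950) (nat_lit 239) .nil)))))) (.g (nat_lit 6) .nil .nil))) 
(.lf (nat_lit 36301) (.g (nat_lit 3021) (.e (nat_lit 1218) (nat_lit 90) (.e (nat_lit 81956) (nat_lit 23) (.e (nat_lit 98389) (nat_lit 33) (.e (nat_lit 491560) (nat_lit 10) (.e (nat_lit 344088) (nat_lit 18) (.e (nat_lit 3977) (nat_lit 239) .nil)))))) (.g (nat_lit 4) .nil .nil)))) (.nd (nat_lit 6) 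
(.lf (nat_lit 36269) (.g (nat_lit 3715) (.e (nat_lit 1218) (nat_lit 90) (.e (nat_lit 81956) (nat_lit 23) (.e (nat_lit 98384) (nat_lit 32) (.e (nat_lit 475214) (nat_lit 42) (.e (nat_lit 720929) (nat_lit 21) .nil))))) .nil)) 
(.lf (nat_lit 36333) (.g (nat_lit 3572) (.e (nat_lit 1218) (nat_lit 90) (.e (nat_lit 81956) (nat_lit 23) (.e (nat_lit 98389) (nat_lit 33) (.e (nat_lit 491560) (nat_lit 10) (.e (nat_lit 344094) (nat_lit 18) (.e (nat_lit 3959) (nat_lit 239) .nil)))))) (.g (nat_lit 5) .nil .nil))))) (.nd (nat_lit 5) (.nd (nat_lit 6) 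
(.lf (nat_lit 36253) (.g (nat_lit 2319) (.e (nat_lit 1218) (nat_lit 90) (.e (nat_lit 81956) (nat_lit 23) (.e (nat_lit 98325) (nat_lit 17) (.e (nat_lit 7936) (nat_lit 407) (.e (nat_lit 73729) (nat_lit 0) (.e (nat_lit 3950) (nat_lit 239) .nil)))))) (.g (nat_lit 5) .nil .nil))) 
(.lf (nat_lit 36317) (.g (nat_lit 2697) (.e (nat_lit 1218) (nat_lit 90) (.e (nat_lit 81956) (nat_lit 23) (.e (nat_lit 98389) (nat_lit 33) (.e (nat_lit 491560) (nat_lit 10) (.e (nat_lit 344089) (nat_lit 18) (.e (nat_lit 3977) (nat_lit 239) .nil)))))) (.g (nat_lit 4) .nil .nil)))) (.nd (nat_lit 6) 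
(.lf (nat_lit 36285) (.g (nat_lit 3011) (.e (nat_lit 1218) (nat_lit 90) (.e (nat_lit 81956) (nat_lit 23) (.e (nat_lit 98389) (nat_lit 33) (.e (nat_lit 491558) (nat_lit 10) (.e (nat_lit 344096) (nat_lit 18) (.e (nat_lit 3950) (nat_lit 239) .nil)))))) (.g (nat_lit 4) .nil .nil))) 
(.lf (nat_lit 36349) (.g (nat_lit 940) (.e (nat_lit 1218) (nat_lit 90) (.e (nat_lit 81957) (nat_lit 24) (.e (nat_lit 123185) (nat_lit 264) (.e (nat_lit 1223) (nat_lit 90) .nil)))) .nil))))))) (.nd (nat_lit 2) (.nd (nat_lit 3) (.nd (nat_lit 4) (.nd (nat_lit 5) (.nd (nat_lit 6) 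
(.lf (nat_lit 36227) (.g (nat_lit 1002) (.e (nat_lit 1218) (nat_lit 90) (.e (nat_lit 81956) (nat_lit 23) (.e (nat_lit 106240) (nat_lit 16) .nil))) .nil)) 
(.lf (nat_lit 36291) (.g (nat_lit 3430) (.e (nat_lit 1218) (nat_lit 90) (.e (nat_lit 81956) (nat_lit 23) (.e (nat_lit 98389) (nat_lit 33) (.e (nat_lit 491560) (nat_lit 10) (.e (nat_lit 344088) (nat_lit 18) (.e (nat_lit 3918) (nat_lit 239) .nil)))))) (.g (nat_lit 4) .nil .nil)))) (.nd (nat_lit 6) 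
(.lf (nat_lit 36259) (.g (nat_lit 1705) (.e (nat_lit 1218) (nat_lit 90) (.e (nat_lit 81956) (nat_lit 23) (.e (nat_lit 98350) (nat_lit 24) (.e (nat_lit 409648) (nat_lit 18) .nil)))) .nil)) 
(.lf (nat_lit 36323) (.g (nat_lit 3889) (.e (nat_lit 1218) (nat_lit 90) (.e (nat_lit 81956) (nat_lit 23) (.e (nat_lit 98389) (nat_lit 33) (.e (nat_lit 491560) (nat_lit 10) (.e (nat_lit 344091) (nat_lit 18) (.e (nat_lit 3950) (nat_lit 239) .nil)))))) (.g (nat_lit 5) .nil .nil))))) (.nd (nat_lit 5) (.nd (nat_lit 6) 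
(.lf (nat_lit 36243) (.g (nat_lit 3060) (.e (nat_lit 1218) (nat_lit 90) (.e (nat_lit 81956) (nat_lit 23) (.e (nat_lit 98320) (nat_lit 17) (.e (nat_lit 7591) (nat_lit 407) (.e (nat_lit 73733) (nat_lit 0) (.e (nat_lit 3982) (nat_lit 239) .nil)))))) (.g (nat_lit 4) .nil .nil))) 
(.lf (nat_lit 36307) (.g (nat_lit 3349) (.e (nat_lit 1218) (nat_lit 90) (.e (nat_lit 81956) (nat_lit 23) (.e (nat_lit 98389) (nat_lit 33) (.e (nat_lit 491560) (nat_lit 10) (.e (nat_lit 344089) (nat_lit 18) (.e (nat_lit 3917) (nat_lit 239) .nil)))))) (.g (nat_lit 4) .nil .nil)))) (.nd (nat_lit 6) 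
(.lf (nat_lit 36275) (.g (nat_lit 3537) (.e (nat_lit 1218) (nat_lit 90) (.e (nat_lit 81956) (nat_lit 23) (.e (nat_lit 98388) (nat_lit 33) (.e (nat_lit 491566) (nat_lit 12) (.e (nat_lit 385051) (nat_lit 21) .nil))))) .nil)) 
(.lf (nat_lit 36339) (.g (nat_lit 3398) (.e (nat_lit 1218) (nat_lit 90) (.e (nat_lit 81956) (nat_lit 23) (.e (nat_lit 98389) (nat_lit 33) (.e (nat_lit 491560) (nat_lit 10) (.e (nat_lit 344097) (nat_lit 18) (.e (nat_lit 3984) (nat_lit 239) .nil)))))) (.g (nat_lit 4) .nil .nil)))))) (.nd (nat_lit 4) (.nd (nat_lit 5) (.nd (nat_lit 6) 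
(.lf (nat_lit 36235) (.g (nat_lit 750) (.e (nat_lit 1218) (nat_lit 90) (.e (nat_lit 81956) (nat_lit 23) (.e (nat_lit 98320) (nat_lit 17) .nil))) .nil)) 
(.lf (nat_lit 36299) (.g (nat_lit 2911) (.e (nat_lit 1218) (nat_lit 90) (.e (nat_lit 81956) (nat_lit 23) (.e (nat_lit 98389) (nat_lit 33) (.e (nat_lit 491560) (nat_lit 10) (.e (nat_lit 344088) (nat_lit 18) (.e (nat_lit 3957) (nat_lit 239) .nil)))))) (.g (nat_lit 4) .nil .nil)))) (.nd (nat_lit 6) 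
(.lf (nat_lit 36267) (.g (nat_lit 1823) (.e (nat_lit 1218) (nat_lit 90) (.e (nat_lit 81956) (nat_lit 23) (.e (nat_lit 98356) (nat_lit 26) (.e (nat_lit 426448) (nat_lit 20) .nil)))) .nil)) 
(.lf (nat_lit 36331) (.g (nat_lit 3804) (.e (nat_lit 1218) (nat_lit 90) (.e (nat_lit 81956) (nat_lit 23) (.e (nat_lit 98389) (nat_lit 33) (.e (nat_lit 491560) (nat_lit 10) (.e (nat_lit 344094) (nat_lit 18) (.e (nat_lit 3950) (nat_lit 239) .nil)))))) (.g (nat_lit 6) .nil .nil))))) (.nd (nat_lit 5) (.nd (nat_lit 6) 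
(.lf (nat_lit 36251) (.g (nat_lit 3240) (.e (nat_lit 1218) (nat_lit 90) (.e (nat_lit 81956) (nat_lit 23) (.e (nat_lit 98320) (nat_lit 17) (.e (nat_lit 7593) (nat_lit 407) (.e (nat_lit 73732) (nat_lit 0) (.e (nat_lit 3982) (nat_lit 239) .nil)))))) (.g (nat_lit 4) .nil .nil))) 
(.lf (nat_lit 36315) (.g (nat_lit 2892) (.e (nat_lit 1218) (nat_lit 90) (.e (nat_lit 81956) (nat_lit 23) (.e (nat_lit 98389) (nat_lit 33) (.e (nat_lit 491560) (nat_lit 10) (.e (nat_lit 344089) (nat_lit 18) (.e (nat_lit 3954) (nat_lit 239) .nil)))))) (.g (nat_lit 4) .nil .nil)))) (.nd (nat_lit 6) 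
(.lf (nat_lit 36283) (.g (nat_lit 2728) (.e (nat_lit 1218) (nat_lit 90) (.e (nat_lit 81956) (nat_lit 23) (.e (nat_lit 98389) (nat_lit 33) (.e (nat_lit 491558) (nat_lit 10) (.e (nat_lit 344091) (nat_lit 18) (.e (nat_lit 3985) (nat_lit 239) .nil)))))) (.g (nat_lit 4) .nil .nil))) 
(.lf (nat_lit 36347) (.g (nat_lit 2095) (.e (nat_lit 1218) (nat_lit 90) (.e (nat_lit 81957) (nat_lit 24) (.e (nat_lit 123182) (nat_lit 264) (.e (nat_lit 1224) (nat_lit 90) .nil)))) .nil)))))) (.nd (nat_lit 3) (.nd (nat_lit 4) (.nd (nat_lit 5) (.nd (nat_lit 6) 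
(.lf (nat_lit 36231) (.g (nat_lit 2091) (.e (nat_lit 1218) (nat_lit 90) (.e (nat_lit 81956) (nat_lit 23) (.e (nat_lit 106240) (nat_lit 16) (.e (nat_lit 401454) (nat_lit 12) (.e (nat_lit 475163) (nat_lit 21) .nil))))) .nil)) 
(.lf (nat_lit 36295) (.g (nat_lit 3347) (.e (nat_lit 1218) (nat_lit 90) (.e (nat_lit 81956) (nat_lit 23) (.e (nat_lit 98389) (nat_lit 33) (.e (nat_lit 491560) (nat_lit 10) (.e (nat_lit 344088) (nat_lit 18) (.e (nat_lit 3927) (nat_lit 239) .nil)))))) (.g (nat_lit 4) .nil .nil)))) (.nd (nat_lit 6) 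
(.lf (nat_lit 36263) (.g (nat_lit 3365) (.e (nat_lit 1218) (nat_lit 90) (.e (nat_lit 81956) (nat_lit 23) (.e (nat_lit 98350) (nat_lit 24) (.e (nat_lit 409649) (nat_lit 18) (.e (nat_lit 303111) (nat_lit 0) (.e (nat_lit 2425) (nat_lit 157) (.e (nat_lit 3843) (nat_lit 233) .nil))))))) (.g (nat_lit 5) .nil .nil))) 
(.lf (nat_lit 36327) (.g (nat_lit 2425) (.e (nat_lit 1218) (nat_lit 90) (.e (nat_lit 81956) (nat_lit 23) (.e (nat_lit 98389) (nat_lit 33) (.e (nat_lit 491560) (nat_lit 10) (.e (nat_lit 344092) (nat_lit 18) .nil))))) .nil)))) (.nd (nat_lit 5) (.nd (nat_lit 6) 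
(.lf (nat_lit 36247) (.g (nat_lit 4065) (.e (nat_lit 1218) (nat_lit 90) (.e (nat_lit 81956) (nat_lit 23) (.e (nat_lit 98320) (nat_lit 17) (.e (nat_lit 7593) (nat_lit 407) (.e (nat_lit 73729) (nat_lit 0) (.e (nat_lit 3959) (nat_lit 239) .nil)))))) (.g (nat_lit 6) .nil .nil))) 
(.lf (nat_lit 36311) (.g (nat_lit 2787) (.e (nat_lit 1218) (nat_lit 90) (.e (nat_lit 81956) (nat_lit 23) (.e (nat_lit 98389) (nat_lit 33) (.e (nat_lit 491560) (nat_lit 10) (.e (nat_lit 344089) (nat_lit 18) (.e (nat_lit 3923) (nat_lit 239) .nil)))))) (.g (nat_lit 4) .nil .nil)))) (.nd (nat_lit 6) 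
(.lf (nat_lit 36279) (.g (nat_lit 2458) (.e (nat_lit 1218) (nat_lit 90) (.e (nat_lit 81956) (nat_lit 23) (.e (nat_lit 98389) (nat_lit 33) (.e (nat_lit 491558) (nat_lit 10) (.e (nat_lit 344089) (nat_lit 18) .nil))))) .nil)) 
(.lf (nat_lit 36343) (.g (nat_lit 3401) (.e (nat_lit 1218) (nat_lit 90) (.e (nat_lit 81956) (nat_lit 23) (.e (nat_lit 98389) (nat_lit 33) (.e (nat_lit 491560) (nat_lit 10) (.e (nat_lit 344099) (nat_lit 18) (.e (nat_lit 3982) (nat_lit 239) .nil)))))) (.g (nat_lit 4) .nil .nil)))))) (.nd (nat_lit 4) (.nd (nat_lit 5) (.nd (nat_lit 6) 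
(.lf (nat_lit 36239) (.g (nat_lit 4027) (.e (nat_lit 1218) (nat_lit 90) (.e (nat_lit 81956) (nat_lit 23) (.e (nat_lit 98320) (nat_lit 17) (.e (nat_lit 7591) (nat_lit 407) (.e (nat_lit 73729) (nat_lit 0) (.e (nat_lit 3959) (nat_lit 239) .nil)))))) (.g (nat_lit 5) .nil .nil))) 
(.lf (nat_lit 36303) (.g (nat_lit 2848) (.e (nat_lit 1218) (nat_lit 90) (.e (nat_lit 81956) (nat_lit 23) (.e (nat_lit 98389) (nat_lit 33) (.e (nat_lit 491560) (nat_lit 10) (.e (nat_lit 344088) (nat_lit 18) (.e (nat_lit 3985) (nat_lit 239) .nil)))))) (.g (nat_lit 4) .nil .nil)))) (.nd (nat_lit 6) 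
(.lf (nat_lit 36271) (.g (nat_lit 1700) (.e (nat_lit 1218) (nat_lit 90) (.e (nat_lit 81956) (nat_lit 23) (.e (nat_lit 98387) (nat_lit 33) (.e (nat_lit 491566) (nat_lit 12) .nil)))) .nil)) 
(.lf (nat_lit 36335) (.g (nat_lit 2865) (.e (nat_lit 1218) (nat_lit 90) (.e (nat_lit 81956) (nat_lit 23) (.e (nat_lit 98389) (nat_lit 33) (.e (nat_lit 491560) (nat_lit 10) (.e (nat_lit 344095) (nat_lit 18) (.e (nat_lit 3959) (nat_lit 239) .nil)))))) (.g (nat_lit 4) .nil .nil))))) (.nd (nat_lit 5) (.nd (nat_lit 6) 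
(.lf (nat_lit 36255) (.g (nat_lit 2578) (.e (nat_lit 1218) (nat_lit 90) (.e (nat_lit 81956) (nat_lit 23) (.e (nat_lit 98333) (nat_lit 18) (.e (nat_lit 164182) (nat_lit 154) .nil)))) .nil)) 
(.lf (nat_lit 36319) (.g (nat_lit 3026) (.e (nat_lit 1218) (nat_lit 90) (.e (nat_lit 81956) (nat_lit 23) (.e (nat_lit 98389) (nat_lit 33) (.e (nat_lit 491560) (nat_lit 10) (.e (nat_lit 344090) (nat_lit 18) (.e (nat_lit 3957) (nat_lit 239) .nil)))))) (.g (nat_lit 4) .nil .nil)))) (.nd (nat_lit 6) 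
(.lf (nat_lit 36287) (.g (nat_lit 2289) (.e (nat_lit 1218) (nat_lit 90) (.e (nat_lit 81956) (nat_lit 23) (.e (nat_lit 98389) (nat_lit 33) (.e (nat_lit 491560) (nat_lit 10) (.e (nat_lit 344087) (nat_lit 18) .nil))))) .nil)) 
(.lf (nat_lit 36351) (.g (nat_lit 2126) (.e (nat_lit 1218) (nat_lit 90) (.e (nat_lit 81959) (nat_lit 24) (.e (nat_lit 123025) (nat_lit 127) (.e (nat_lit 229415) (nat_lit 15) (.e (nat_lit 450563) (nat_lit 0) .nil))))) .nil)))))))))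

noncomputable def tv506 : DT := (.nd (nat_lit 0) (.nd (nat_lit 1) (.nd (nat_lit 2) (.nd (nat_lit 3) (.nd (nat_lit 4) (.nd (nat_lit 5) 
(.lf (nat_lit 36352) (.g (nat_lit 2773) (.e (nat_lit 1218) (nat_lit 90) (.e (nat_lit 81959) (nat_lit 24) (.e (nat_lit 123182) (nat_lit 264) (.e (nat_lit 1201) (nat_lit 88) (.e (nat_lit 65610) (nat_lit 10) .nil))))) .nil)) 
(.lf (nat_lit 36384) (.g (nat_lit 1358) (.e (nat_lit 1218) (nat_lit 90) (.e (nat_lit 81965) (nat_lit 26) (.e (nat_lit 147495) (nat_lit 11) (.e (nat_lit 24640) (nat_lit 10) .nil)))) .nil))) (.nd (nat_lit 5) 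
(.lf (nat_lit 36368) (.g (nat_lit 2283) (.e (nat_lit 1218) (nat_lit 90) (.e (nat_lit 81959) (nat_lit 24) (.e (nat_lit 123195) (nat_lit 266) (.e (nat_lit 57427) (nat_lit 15) (.e (nat_lit 360451) (nat_lit 0) (.e (nat_lit 5920) (nat_lit 320) .nil)))))) (.g (nat_lit 4) .nil .nil))) 
(.lf (nat_lit 36400) (.g (nat_lit 1419) (.e (nat_lit 1219) (nat_lit 90) (.e (nat_lit 81921) (nat_lit 0) (.e (nat_lit 3711) (nat_lit 227) (.e (nat_lit 778325) (nat_lit 6) (.e (nat_lit 81948) (nat_lit 21) (.e (nat_lit 57871) (nat_lit 264) .nil)))))) (.g (nat_lit 0) .nil .nil))))) (.nd (nat_lit 4) (.nd (nat_lit 5) 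
(.lf (nat_lit 36360) (.g (nat_lit 554) (.e (nat_lit 1218) (nat_lit 90) (.e (nat_lit 81959) (nat_lit 24) (.e (nat_lit 123185) (nat_lit 264) .nil))) .nil)) 
(.lf (nat_lit 36392) (.g (nat_lit 1369) (.e (nat_lit 1218) (nat_lit 90) (.e (nat_lit 81965) (nat_lit 26) (.e (nat_lit 147496) (nat_lit 11) (.e (nat_lit 24617) (nat_lit 7) .nil)))) .nil))) (.nd (nat_lit 5) 
(.lf (nat_lit 36376) (.g (nat_lit 1901) (.e (nat_lit 1218) (nat_lit 90) (.e (nat_lit 81965) (nat_lit 26) (.e (nat_lit 147492) (nat_lit 11) (.e (nat_lit 24665) (nat_lit 14) (.e (nat_lit 401421) (nat_lit 1) .nil))))) .nil)) 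
(.lf (nat_lit 36408) (.g (nat_lit 1176) (.e (nat_lit 1219) (nat_lit 90) (.e (nat_lit 81921) (nat_lit 0) (.e (nat_lit 3716) (nat_lit 227) (.e (nat_lit 778325) (nat_lit 6) (.e (nat_lit 81948) (nat_lit 21) (.e (nat_lit 57871) (nat_lit 264) .nil)))))) (.g (nat_lit 0) .nil .nil)))))) (.nd (nat_lit 3) (.nd (nat_lit 4) (.nd (nat_lit 5) 
(.lf (nat_lit 36356) (.g (nat_lit 2504) (.e (nat_lit 1218) (nat_lit 90) (.e (nat_lit 81959) (nat_lit 24) (.e (nat_lit 123182) (nat_lit 264) (.e (nat_lit 1222) (nat_lit 90) (.e (nat_lit 81948) (nat_lit 21) (.e (nat_lit 57873) (nat_lit 264) .nil)))))) (.g (nat_lit 4) .nil .nil))) 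
(.lf (nat_lit 36388) (.g (nat_lit 2987) (.e (nat_lit 1218) (nat_lit 90) (.e (nat_lit 81965) (nat_lit 26) (.e (nat_lit 147495) (nat_lit 11) (.e (nat_lit 24665) (nat_lit 14) (.e (nat_lit 401420) (nat_lit 1) (.e (nat_lit 164161) (nat_lit 152) .nil)))))) (.g (nat_lit 6) .nil .nil)))) (.nd (nat_lit 5) 
(.lf (nat_lit 36372) (.g (nat_lit 1258) (.e (nat_lit 1218) (nat_lit 90) (.e (nat_lit 81965) (nat_lit 26) (.e (nat_lit 147466) (nat_lit 9) (.e (nat_lit 324) (nat_lit 24) .nil)))) .nil)) 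
(.lf (nat_lit 36404) (.g (nat_lit 1401) (.e (nat_lit 1219) (nat_lit 90) (.e (nat_lit 81921) (nat_lit 0) (.e (nat_lit 3715) (nat_lit 227) (.e (nat_lit 778325) (nat_lit 6) (.e (nat_lit 81948) (nat_lit 21) (.e (nat_lit 57871) (nat_lit 264) .nil)))))) (.g (nat_lit 0) .nil .nil))))) (.nd (nat_lit 4) (.nd (nat_lit 5) 
(.lf (nat_lit 36364) (.g (nat_lit 2101) (.e (nat_lit 1218) (nat_lit 90) (.e (nat_lit 81959) (nat_lit 24) (.e (nat_lit 123195) (nat_lit 266) (.e (nat_lit 57427) (nat_lit 15) (.e (nat_lit 360450) (nat_lit 0) (.e (nat_lit 5896) (nat_lit 320) .nil)))))) (.g (nat_lit 4) .nil .nil))) 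
(.lf (nat_lit 36396) (.g (nat_lit 2886) (.e (nat_lit 1218) (nat_lit 90) (.e (nat_lit 81965) (nat_lit 26) (.e (nat_lit 147496) (nat_lit 11) (.e (nat_lit 24640) (nat_lit 10) (.e (nat_lit 344092) (nat_lit 18) .nil))))) .nil))) (.nd (nat_lit 5) 
(.lf (nat_lit 36380) (.g (nat_lit 2603) (.e (nat_lit 1218) (nat_lit 90) (.e (nat_lit 81965) (nat_lit 26) (.e (nat_lit 147494) (nat_lit 11) (.e (nat_lit 24665) (nat_lit 14) (.e (nat_lit 401420) (nat_lit 1) (.e (nat_lit 164161) (nat_lit 152) .nil)))))) (.g (nat_lit 4) .nil .nil))) 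
(.lf (nat_lit 36412) (.g (nat_lit 1592) (.e (nat_lit 1219) (nat_lit 90) (.e (nat_lit 81922) (nat_lit 0) (.e (nat_lit 3631) (nat_lit 227) (.e (nat_lit 778326) (nat_lit 6) (.e (nat_lit 81950) (nat_lit 21) (.e (nat_lit 57870) (nat_lit 264) .nil)))))) (.g (nat_lit 5) .nil .nil))))))) (.nd (nat_lit 2) (.nd (nat_lit 3) (.nd (nat_lit 4) (.nd (nat_lit 5) 
(.lf (nat_lit 36354) (.g (nat_lit 2335) (.e (nat_lit 1218) (nat_lit 90) (.e (nat_lit 81959) (nat_lit 24) (.e (nat_lit 123182) (nat_lit 264) (.e (nat_lit 1218) (nat_lit 90) .nil)))) .nil)) 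
(.lf (nat_lit 36386) (.g (nat_lit 2628) (.e (nat_lit 1218) (nat_lit 90) (.e (nat_lit 81965) (nat_lit 26) (.e (nat_lit 147495) (nat_lit 11) (.e (nat_lit 24640) (nat_lit 10) (.e (nat_lit 344092) (nat_lit 18) .nil))))) .nil))) (.nd (nat_lit 5) 
(.lf (nat_lit 36370) (.g (nat_lit 1182) (.e (nat_lit 1218) (nat_lit 90) (.e (nat_lit 81959) (nat_lit 24) (.e (nat_lit 123198) (nat_lit 266) (.e (nat_lit 57426) (nat_lit 15) (.e (nat_lit 360452) (nat_lit 0) .nil))))) .nil)) 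
(.lf (nat_lit 36402) (.g (nat_lit 1319) (.e (nat_lit 1219) (nat_lit 90) (.e (nat_lit 81921) (nat_lit 0) (.e (nat_lit 3714) (nat_lit 227) (.e (nat_lit 778325) (nat_lit 6) (.e (nat_lit 81948) (nat_lit 21) (.e (nat_lit 57871) (nat_lit 264) .nil)))))) (.g (nat_lit 0) .nil .nil))))) (.nd (nat_lit 4) (.nd (nat_lit 5) 
(.lf (nat_lit 36362) (.g (nat_lit 1942) (.e (nat_lit 1218) (nat_lit 90) (.e (nat_lit 81959) (nat_lit 24) (.e (nat_lit 123195) (nat_lit 266) (.e (nat_lit 57427) (nat_lit 15) .nil)))) .nil)) 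
(.lf (nat_lit 36394) (.g (nat_lit 1599) (.e (nat_lit 1218) (nat_lit 90) (.e (nat_lit 81965) (nat_lit 26) (.e (nat_lit 147496) (nat_lit 11) (.e (nat_lit 24640) (nat_lit 10) .nil)))) .nil))) (.nd (nat_lit 5) 
(.lf (nat_lit 36378) (.g (nat_lit 583) (.e (nat_lit 1218) (nat_lit 90) (.e (nat_lit 81965) (nat_lit 26) (.e (nat_lit 147494) (nat_lit 11) .nil))) .nil)) 
(.lf (nat_lit 36410) (.g (nat_lit 1456) (.e (nat_lit 1219) (nat_lit 90) (.e (nat_lit 81922) (nat_lit 0) (.e (nat_lit 3631) (nat_lit 227) (.e (nat_lit 778326) (nat_lit 6) (.e (nat_lit 81948) (nat_lit 21) (.e (nat_lit 57870) (nat_lit 264) .nil)))))) (.g (nat_lit 5) .nil .nil)))))) (.nd (nat_lit 3) (.nd (nat_lit 4) (.nd (nat_lit 5) 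
(.lf (nat_lit 36358) (.g (nat_lit 2355) (.e (nat_lit 1218) (nat_lit 90) (.e (nat_lit 81959) (nat_lit 24) (.e (nat_lit 123182) (nat_lit 264) (.e (nat_lit 7936) (nat_lit 90) .nil)))) .nil)) 
(.lf (nat_lit 36390) (.g (nat_lit 3115) (.e (nat_lit 1218) (nat_lit 90) (.e (nat_lit 81965) (nat_lit 26) (.e (nat_lit 147495) (nat_lit 11) (.e (nat_lit 24665) (nat_lit 14) (.e (nat_lit 401421) (nat_lit 1) (.e (nat_lit 164161) (nat_lit 152) .nil)))))) (.g (nat_lit 5) .nil .nil)))) (.nd (nat_lit 5) 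
(.lf (nat_lit 36374) (.g (nat_lit 540) (.e (nat_lit 1218) (nat_lit 90) (.e (nat_lit 81965) (nat_lit 26) (.e (nat_lit 147492) (nat_lit 11) .nil))) .nil)) 
(.lf (nat_lit 36406) (.g (nat_lit 2536) (.e (nat_lit 1219) (nat_lit 90) (.e (nat_lit 81921) (nat_lit 0) (.e (nat_lit 3715) (nat_lit 227) (.e (nat_lit 778325) (nat_lit 6) (.e (nat_lit 81950) (nat_lit 21) (.e (nat_lit 57872) (nat_lit 264) .nil)))))) (.g (nat_lit 0) .nil .nil))))) (.nd (nat_lit 4) (.nd (nat_lit 5) 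
(.lf (nat_lit 36366) (.g (nat_lit 3857) (.e (nat_lit 1218) (nat_lit 90) (.e (nat_lit 81959) (nat_lit 24) (.e (nat_lit 123195) (nat_lit 266) (.e (nat_lit 57427) (nat_lit 15) (.e (nat_lit 360451) (nat_lit 0) (.e (nat_lit 5872) (nat_lit 320) .nil)))))) (.g (nat_lit 6) .nil .nil))) 
(.lf (nat_lit 36398) (.g (nat_lit 2366) (.e (nat_lit 1219) (nat_lit 90) (.e (nat_lit 81920) (nat_lit 0) (.e (nat_lit 3715) (nat_lit 227) (.e (nat_lit 778325) (nat_lit 6) (.e (nat_lit 81950) (nat_lit 21) (.e (nat_lit 57873) (nat_lit 264) .nil)))))) (.g (nat_lit 0) .nil .nil)))) (.nd (nat_lit 5) 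
(.lf (nat_lit 36382) (.g (nat_lit 602) (.e (nat_lit 1218) (nat_lit 90) (.e (nat_lit 81965) (nat_lit 26) (.e (nat_lit 147495) (nat_lit 11) .nil))) .nil)) 
(.lf (nat_lit 36414) (.g (nat_lit 1518) (.e (nat_lit 1219) (nat_lit 90) (.e (nat_lit 81922) (nat_lit 0) (.e (nat_lit 3632) (nat_lit 227) (.e (nat_lit 778326) (nat_lit 6) (.e (nat_lit 81948) (nat_lit 21) (.e (nat_lit 57870) (nat_lit 264) .nil)))))) (.g (nat_lit 5) .nil .nil)))))))) (.nd (nat_lit 1) (.nd (nat_lit 2) (.nd (nat_lit 3) (.nd (nat_lit 4) (.nd (nat_lit 5) 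
(.lf (nat_lit 36353) (.g (nat_lit 3320) (.e (nat_lit 1218) (nat_lit 90) (.e (nat_lit 81959) (nat_lit 24) (.e (nat_lit 123182) (nat_lit 264) (.e (nat_lit 1201) (nat_lit 88) (.e (nat_lit 65617) (nat_lit 10) .nil))))) .nil)) 
(.lf (nat_lit 36385) (.g (nat_lit 2250) (.e (nat_lit 1218) (nat_lit 90) (.e (nat_lit 81965) (nat_lit 26) (.e (nat_lit 147495) (nat_lit 11) (.e (nat_lit 24640) (nat_lit 10) (.e (nat_lit 344088) (nat_lit 18) .nil))))) .nil))) (.nd (nat_lit 5) 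
(.lf (nat_lit 36369) (.g (nat_lit 471) (.e (nat_lit 1218) (nat_lit 90) (.e (nat_lit 81959) (nat_lit 24) (.e (nat_lit 123197) (nat_lit 266) .nil))) .nil)) 
(.lf (nat_lit 36401) (.g (nat_lit 1965) (.e (nat_lit 1219) (nat_lit 90) (.e (nat_lit 81921) (nat_lit 0) (.e (nat_lit 3711) (nat_lit 227) (.e (nat_lit 778325) (nat_lit 6) (.e (nat_lit 81948) (nat_lit 21) (.e (nat_lit 57873) (nat_lit 264) .nil)))))) (.g (nat_lit 0) .nil .nil))))) (.nd (nat_lit 4) (.nd (nat_lit 5) 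
(.lf (nat_lit 36361) (.g (nat_lit 1997) (.e (nat_lit 1218) (nat_lit 90) (.e (nat_lit 81959) (nat_lit 24) (.e (nat_lit 123195) (nat_lit 266) (.e (nat_lit 57424) (nat_lit 14) .nil)))) .nil)) 
(.lf (nat_lit 36393) (.g (nat_lit 1580) (.e (nat_lit 1218) (nat_lit 90) (.e (nat_lit 81965) (nat_lit 26) (.e (nat_lit 147496) (nat_lit 11) (.e (nat_lit 24639) (nat_lit 10) .nil)))) .nil))) (.nd (nat_lit 5) 
(.lf (nat_lit 36377) (.g (nat_lit 2222) (.e (nat_lit 1218) (nat_lit 90) (.e (nat_lit 81965) (nat_lit 26) (.e (nat_lit 147493) (nat_lit 11) (.e (nat_lit 24665) (nat_lit 14) (.e (nat_lit 401420) (nat_lit 1) (.e (nat_lit 164161) (nat_lit 152) .nil)))))) (.g (nat_lit 4) .nil .nil))) 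
(.lf (nat_lit 36409) (.g (nat_lit 1715) (.e (nat_lit 1219) (nat_lit 90) (.e (nat_lit 81921) (nat_lit 0) (.e (nat_lit 3716) (nat_lit 227) (.e (nat_lit 778325) (nat_lit 6) (.e (nat_lit 81948) (nat_lit 21) (.e (nat_lit 57873) (nat_lit 264) .nil)))))) (.g (nat_lit 0) .nil .nil)))))) (.nd (nat_lit 3) (.nd (nat_lit 4) (.nd (nat_lit 5) 
(.lf (nat_lit 36357) (.g (nat_lit 1728) (.e (nat_lit 1218) (nat_lit 90) (.e (nat_lit 81959) (nat_lit 24) (.e (nat_lit 123182) (nat_lit 264) (.e (nat_lit 1224) (nat_lit 90) .nil)))) .nil)) 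
(.lf (nat_lit 36389) (.g (nat_lit 2490) (.e (nat_lit 1218) (nat_lit 90) (.e (nat_lit 81965) (nat_lit 26) (.e (nat_lit 147495) (nat_lit 11) (.e (nat_lit 24665) (nat_lit 14) (.e (nat_lit 401421) (nat_lit 1) .nil))))) .nil))) (.nd (nat_lit 5) 
(.lf (nat_lit 36373) (.g (nat_lit 1409) (.e (nat_lit 1218) (nat_lit 90) (.e (nat_lit 81965) (nat_lit 26) (.e (nat_lit 147467) (nat_lit 9) (.e (nat_lit 324) (nat_lit 24) .nil)))) .nil)) 
(.lf (nat_lit 36405) (.g (nat_lit 1946) (.e (nat_lit 1219) (nat_lit 90) (.e (nat_lit 81921) (nat_lit 0) (.e (nat_lit 3715) (nat_lit 227) (.e (nat_lit 778325) (nat_lit 6) (.e (nat_lit 81948) (nat_lit 21) (.e (nat_lit 57873) (nat_lit 264) .nil)))))) (.g (nat_lit 0) .nil .nil))))) (.nd (nat_lit 4) (.nd (nat_lit 5) 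
(.lf (nat_lit 36365) (.g (nat_lit 5063) (.e (nat_lit 1218) (nat_lit 90) (.e (nat_lit 81959) (nat_lit 24) (.e (nat_lit 123195) (nat_lit 266) (.e (nat_lit 57427) (nat_lit 15) (.e (nat_lit 360450) (nat_lit 0) (.e (nat_lit 5898) (nat_lit 320) .nil)))))) (.g (nat_lit 6) .nil .nil))) 
(.lf (nat_lit 36397) (.g (nat_lit 1438) (.e (nat_lit 1218) (nat_lit 90) (.e (nat_lit 81965) (nat_lit 26) (.e (nat_lit 147496) (nat_lit 11) (.e (nat_lit 24641) (nat_lit 10) .nil)))) .nil))) (.nd (nat_lit 5) 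
(.lf (nat_lit 36381) (.g (nat_lit 2695) (.e (nat_lit 1218) (nat_lit 90) (.e (nat_lit 81965) (nat_lit 26) (.e (nat_lit 147494) (nat_lit 11) (.e (nat_lit 24665) (nat_lit 14) (.e (nat_lit 401421) (nat_lit 1) (.e (nat_lit 164161) (nat_lit 152) .nil)))))) (.g (nat_lit 4) .nil .nil))) 
(.lf (nat_lit 36413) (.g (nat_lit 1560) (.e (nat_lit 1219) (nat_lit 90) (.e (nat_lit 81922) (nat_lit 0) (.e (nat_lit 3631) (nat_lit 227) (.e (nat_lit 778326) (nat_lit 6) (.e (nat_lit 81950) (nat_lit 21) (.e (nat_lit 57871) (nat_lit 264) .nil)))))) (.g (nat_lit 5) .nil .nil))))))) (.nd (nat_lit 2) (.nd (nat_lit 3) (.nd (nat_lit 4) (.nd (nat_lit 5) 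
(.lf (nat_lit 36355) (.g (nat_lit 1891) (.e (nat_lit 1218) (nat_lit 90) (.e (nat_lit 81959) (nat_lit 24) (.e (nat_lit 123182) (nat_lit 264) (.e (nat_lit 1222) (nat_lit 90) .nil)))) .nil)) 
(.lf (nat_lit 36387) (.g (nat_lit 2308) (.e (nat_lit 1218) (nat_lit 90) (.e (nat_lit 81965) (nat_lit 26) (.e (nat_lit 147495) (nat_lit 11) (.e (nat_lit 24665) (nat_lit 14) (.e (nat_lit 401420) (nat_lit 1) .nil))))) .nil))) (.nd (nat_lit 5) 
(.lf (nat_lit 36371) (.g (nat_lit 654) (.e (nat_lit 1218) (nat_lit 90) (.e (nat_lit 81965) (nat_lit 26) (.e (nat_lit 147466) (nat_lit 9) .nil))) .nil)) 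
(.lf (nat_lit 36403) (.g (nat_lit 1868) (.e (nat_lit 1219) (nat_lit 90) (.e (nat_lit 81921) (nat_lit 0) (.e (nat_lit 3714) (nat_lit 227) (.e (nat_lit 778325) (nat_lit 6) (.e (nat_lit 81948) (nat_lit 21) (.e (nat_lit 57873) (nat_lit 264) .nil)))))) (.g (nat_lit 0) .nil .nil))))) (.nd (nat_lit 4) (.nd (nat_lit 5) 
(.lf (nat_lit 36363) (.g (nat_lit 2306) (.e (nat_lit 1218) (nat_lit 90) (.e (nat_lit 81959) (nat_lit 24) (.e (nat_lit 123195) (nat_lit 266) (.e (nat_lit 57427) (nat_lit 15) (.e (nat_lit 360450) (nat_lit 0) (.e (nat_lit 5876) (nat_lit 320) .nil)))))) (.g (nat_lit 4) .nil .nil))) 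
(.lf (nat_lit 36395) (.g (nat_lit 2360) (.e (nat_lit 1218) (nat_lit 90) (.e (nat_lit 81965) (nat_lit 26) (.e (nat_lit 147496) (nat_lit 11) (.e (nat_lit 24640) (nat_lit 10) (.e (nat_lit 344088) (nat_lit 18) .nil))))) .nil))) (.nd (nat_lit 5) 
(.lf (nat_lit 36379) (.g (nat_lit 2556) (.e (nat_lit 1218) (nat_lit 90) (.e (nat_lit 81965) (nat_lit 26) (.e (nat_lit 147494) (nat_lit 11) (.e (nat_lit 24665) (nat_lit 14) (.e (nat_lit 401420) (nat_lit 1) .nil))))) .nil)) 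
(.lf (nat_lit 36411) (.g (nat_lit 1370) (.e (nat_lit 1219) (nat_lit 90) (.e (nat_lit 81922) (nat_lit 0) (.e (nat_lit 3631) (nat_lit 227) (.e (nat_lit 778326) (nat_lit 6) (.e (nat_lit 81948) (nat_lit 21) (.e (nat_lit 57871) (nat_lit 264) .nil)))))) (.g (nat_lit 5) .nil .nil)))))) (.nd (nat_lit 3) (.nd (nat_lit 4) (.nd (nat_lit 5) 
(.lf (nat_lit 36359) (.g (nat_lit 1231) (.e (nat_lit 1218) (nat_lit 90) (.e (nat_lit 81959) (nat_lit 24) (.e (nat_lit 123183) (nat_lit 264) (.e (nat_lit 1222) (nat_lit 90) .nil)))) .nil)) 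
(.lf (nat_lit 36391) (.g (nat_lit 1394) (.e (nat_lit 1218) (nat_lit 90) (.e (nat_lit 81965) (nat_lit 26) (.e (nat_lit 147496) (nat_lit 11) (.e (nat_lit 24584) (nat_lit 0) .nil)))) .nil))) (.nd (nat_lit 5) 
(.lf (nat_lit 36375) (.g (nat_lit 1691) (.e (nat_lit 1218) (nat_lit 90) (.e (nat_lit 81965) (nat_lit 26) (.e (nat_lit 147492) (nat_lit 11) (.e (nat_lit 24665) (nat_lit 14) (.e (nat_lit 401420) (nat_lit 1) .nil))))) .nil)) 
(.lf (nat_lit 36407) (.g (nat_lit 1247) (.e (nat_lit 1219) (nat_lit 90) (.e (nat_lit 81921) (nat_lit 0) (.e (nat_lit 3716) (nat_lit 227) (.e (nat_lit 778325) (nat_lit 6) (.e (nat_lit 81948) (nat_lit 21) (.e (nat_lit 57870) (nat_lit 264) .nil)))))) (.g (nat_lit 0) .nil .nil))))) (.nd (nat_lit 4) (.nd (nat_lit 5) 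
(.lf (nat_lit 36367) (.g (nat_lit 4326) (.e (nat_lit 1218) (nat_lit 90) (.e (nat_lit 81959) (nat_lit 24) (.e (nat_lit 123195) (nat_lit 266) (.e (nat_lit 57427) (nat_lit 15) (.e (nat_lit 360451) (nat_lit 0) (.e (nat_lit 5898) (nat_lit 320) .nil)))))) (.g (nat_lit 6) .nil .nil))) 
(.lf (nat_lit 36399) (.g (nat_lit 1499) (.e (nat_lit 1219) (nat_lit 90) (.e (nat_lit 81921) (nat_lit 0) (.e (nat_lit 3711) (nat_lit 227) (.e (nat_lit 778325) (nat_lit 6) (.e (nat_lit 81948) (nat_lit 21) (.e (nat_lit 57870) (nat_lit 264) .nil)))))) (.g (nat_lit 0) .nil .nil)))) (.nd (nat_lit 5) 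
(.lf (nat_lit 36383) (.g (nat_lit 1328) (.e (nat_lit 1218) (nat_lit 90) (.e (nat_lit 81965) (nat_lit 26) (.e (nat_lit 147495) (nat_lit 11) (.e (nat_lit 24639) (nat_lit 10) .nil)))) .nil)) 
(.lf (nat_lit 36415) (.g (nat_lit 1435) (.e (nat_lit 1219) (nat_lit 90) (.e (nat_lit 81922) (nat_lit 0) (.e (nat_lit 3632) (nat_lit 227) (.e (nat_lit 778326) (nat_lit 6) (.e (nat_lit 81948) (nat_lit 21) (.e (nat_lit 57871) (nat_lit 264) .nil)))))) (.g (nat_lit 5) .nil .nil)))))))))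

noncomputable def tv507 : DT := (.nd (nat_lit 0) (.nd (nat_lit 1) (.nd (nat_lit 2) (.nd (nat_lit 3) (.nd (nat_lit 4) (.nd (nat_lit 5) 
(.lf (nat_lit 36416) (.g (nat_lit 1619) (.e (nat_lit 1219) (nat_lit 90) (.e (nat_lit 81922) (nat_lit 0) (.e (nat_lit 3632) (nat_lit 227) (.e (nat_lit 778326) (nat_lit 6) (.e (nat_lit 81950) (nat_lit 21) (.e (nat_lit 57870) (nat_lit 264) .nil)))))) (.g (nat_lit 5) .nil .nil))) 
(.lf (nat_lit 36448) (.g (nat_lit 2708) (.e (nat_lit 1219) (nat_lit 90) (.e (nat_lit 81924) (nat_lit 0) (.e (nat_lit 3747) (nat_lit 228) (.e (nat_lit 786481) (nat_lit 30) (.e (nat_lit 360452) (nat_lit 0) (.e (nat_lit 5905) (nat_lit 320) .nil)))))) (.g (nat_lit 6) .nil .nil)))) (.nd (nat_lit 5) 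
(.lf (nat_lit 36432) (.g (nat_lit 1503) (.e (nat_lit 1219) (nat_lit 90) (.e (nat_lit 81924) (nat_lit 0) (.e (nat_lit 3629) (nat_lit 227) (.e (nat_lit 778326) (nat_lit 6) (.e (nat_lit 81950) (nat_lit 21) (.e (nat_lit 57871) (nat_lit 264) .nil)))))) (.g (nat_lit 0) .nil .nil))) 
(.lf (nat_lit 36464) (.g (nat_lit 1034) (.e (nat_lit 1219) (nat_lit 90) (.e (nat_lit 81925) (nat_lit 11) (.e (nat_lit 426011) (nat_lit 0) (.e (nat_lit 7593) (nat_lit 407) .nil)))) .nil)))) (.nd (nat_lit 4) (.nd (nat_lit 5) 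
(.lf (nat_lit 36424) (.g (nat_lit 1846) (.e (nat_lit 1219) (nat_lit 90) (.e (nat_lit 81922) (nat_lit 0) (.e (nat_lit 3747) (nat_lit 228) (.e (nat_lit 786483) (nat_lit 30) (.e (nat_lit 368384) (nat_lit 0) (.e (nat_lit 5902) (nat_lit 320) .nil)))))) (.g (nat_lit 4) .nil .nil))) 
(.lf (nat_lit 36456) (.g (nat_lit 2689) (.e (nat_lit 1219) (nat_lit 90) (.e (nat_lit 81924) (nat_lit 0) (.e (nat_lit 3748) (nat_lit 228) (.e (nat_lit 786481) (nat_lit 30) (.e (nat_lit 360452) (nat_lit 0) (.e (nat_lit 5907) (nat_lit 320) .nil)))))) (.g (nat_lit 0) .nil .nil)))) (.nd (nat_lit 5) 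
(.lf (nat_lit 36440) (.g (nat_lit 2018) (.e (nat_lit 1219) (nat_lit 90) (.e (nat_lit 81924) (nat_lit 0) (.e (nat_lit 3632) (nat_lit 227) (.e (nat_lit 778326) (nat_lit 6) (.e (nat_lit 81948) (nat_lit 21) (.e (nat_lit 57870) (nat_lit 264) .nil)))))) (.g (nat_lit 0) .nil .nil))) 
(.lf (nat_lit 36472) (.g (nat_lit 2263) (.e (nat_lit 1219) (nat_lit 90) (.e (nat_lit 81925) (nat_lit 11) (.e (nat_lit 426344) (nat_lit 14) (.e (nat_lit 491560) (nat_lit 10) (.e (nat_lit 344089) (nat_lit 18) .nil))))) .nil))))) (.nd (nat_lit 3) (.nd (nat_lit 4) (.nd (nat_lit 5) 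
(.lf (nat_lit 36420) (.g (nat_lit 2618) (.e (nat_lit 1219) (nat_lit 90) (.e (nat_lit 81922) (nat_lit 0) (.e (nat_lit 3747) (nat_lit 228) (.e (nat_lit 786480) (nat_lit 29) (.e (nat_lit 352309) (nat_lit 21) (.e (nat_lit 57871) (nat_lit 264) .nil)))))) (.g (nat_lit 5) .nil .nil))) 
(.lf (nat_lit 36452) (.g (nat_lit 1449) (.e (nat_lit 1219) (nat_lit 90) (.e (nat_lit 81924) (nat_lit 0) (.e (nat_lit 3747) (nat_lit 228) (.e (nat_lit 786483) (nat_lit 30) (.e (nat_lit 368384) (nat_lit 0) .nil))))) .nil))) (.nd (nat_lit 5) 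
(.lf (nat_lit 36436) (.g (nat_lit 1820) (.e (nat_lit 1219) (nat_lit 90) (.e (nat_lit 81924) (nat_lit 0) (.e (nat_lit 3631) (nat_lit 227) (.e (nat_lit 778326) (nat_lit 6) (.e (nat_lit 81948) (nat_lit 21) (.e (nat_lit 57871) (nat_lit 264) .nil)))))) (.g (nat_lit 0) .nil .nil))) 
(.lf (nat_lit 36468) (.g (nat_lit 2179) (.e (nat_lit 1219) (nat_lit 90) (.e (nat_lit 81925) (nat_lit 11) (.e (nat_lit 426343) (nat_lit 14) (.e (nat_lit 491558) (nat_lit 10) (.e (nat_lit 344096) (nat_lit 18) .nil))))) .nil)))) (.nd (nat_lit 4) (.nd (nat_lit 5) 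
(.lf (nat_lit 36428) (.g (nat_lit 1792) (.e (nat_lit 1219) (nat_lit 90) (.e (nat_lit 81922) (nat_lit 0) (.e (nat_lit 3748) (nat_lit 228) (.e (nat_lit 786483) (nat_lit 30) (.e (nat_lit 368384) (nat_lit 0) (.e (nat_lit 5902) (nat_lit 320) .nil)))))) (.g (nat_lit 4) .nil .nil))) 
(.lf (nat_lit 36460) (.g (nat_lit 738) (.e (nat_lit 1219) (nat_lit 90) (.e (nat_lit 89856) (nat_lit 8) (.e (nat_lit 262145) (nat_lit 0) (.e (nat_lit 1597) (nat_lit 111) (.e (nat_lit 368384) (nat_lit 0) (.e (nat_lit 5902) (nat_lit 320) .nil)))))) (.g (nat_lit 4) .nil .nil)))) (.nd (nat_lit 5) 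
(.lf (nat_lit 36444) (.g (nat_lit 1540) (.e (nat_lit 1219) (nat_lit 90) (.e (nat_lit 81924) (nat_lit 0) (.e (nat_lit 3632) (nat_lit 227) (.e (nat_lit 778327) (nat_lit 6) (.e (nat_lit 81950) (nat_lit 21) (.e (nat_lit 57870) (nat_lit 264) .nil)))))) (.g (nat_lit 5) .nil .nil))) 
(.lf (nat_lit 36476) (.g (nat_lit 2222) (.e (nat_lit 1219) (nat_lit 90) (.e (nat_lit 81927) (nat_lit 11) (.e (nat_lit 426343) (nat_lit 14) (.e (nat_lit 491558) (nat_lit 10) (.e (nat_lit 344090) (nat_lit 18) .nil))))) .nil)))))) (.nd (nat_lit 2) (.nd (nat_lit 3) (.nd (nat_lit 4) (.nd (nat_lit 5) 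
(.lf (nat_lit 36418) (.g (nat_lit 1526) (.e (nat_lit 1219) (nat_lit 90) (.e (nat_lit 81922) (nat_lit 0) (.e (nat_lit 3733) (nat_lit 228) (.e (nat_lit 786483) (nat_lit 30) (.e (nat_lit 360454) (nat_lit 0) (.e (nat_lit 5907) (nat_lit 320) .nil)))))) (.g (nat_lit 4) .nil .nil))) 
(.lf (nat_lit 36450) (.g (nat_lit 1414) (.e (nat_lit 1219) (nat_lit 90) (.e (nat_lit 81924) (nat_lit 0) (.e (nat_lit 3747) (nat_lit 228) (.e (nat_lit 786483) (nat_lit 30) (.e (nat_lit 360454) (nat_lit 0) .nil))))) .nil))) (.nd (nat_lit 5) 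
(.lf (nat_lit 36434) (.g (nat_lit 1546) (.e (nat_lit 1219) (nat_lit 90) (.e (nat_lit 81924) (nat_lit 0) (.e (nat_lit 3630) (nat_lit 227) (.e (nat_lit 778326) (nat_lit 6) (.e (nat_lit 81950) (nat_lit 21) (.e (nat_lit 57871) (nat_lit 264) .nil)))))) (.g (nat_lit 0) .nil .nil))) 
(.lf (nat_lit 36466) (.g (nat_lit 2130) (.e (nat_lit 1219) (nat_lit 90) (.e (nat_lit 81925) (nat_lit 11) (.e (nat_lit 426343) (nat_lit 14) (.e (nat_lit 491558) (nat_lit 10) (.e (nat_lit 344090) (nat_lit 18) .nil))))) .nil)))) (.nd (nat_lit 4) (.nd (nat_lit 5) 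
(.lf (nat_lit 36426) (.g (nat_lit 1270) (.e (nat_lit 1219) (nat_lit 90) (.e (nat_lit 81922) (nat_lit 0) (.e (nat_lit 3748) (nat_lit 228) (.e (nat_lit 786481) (nat_lit 30) (.e (nat_lit 368384) (nat_lit 0) (.e (nat_lit 5902) (nat_lit 320) .nil)))))) (.g (nat_lit 4) .nil .nil))) 
(.lf (nat_lit 36458) (.g (nat_lit 1582) (.e (nat_lit 1219) (nat_lit 90) (.e (nat_lit 89856) (nat_lit 5) (.e (nat_lit 221206) (nat_lit 21) (.e (nat_lit 164325) (nat_lit 230) (.e (nat_lit 163939) (nat_lit 18) (.e (nat_lit 475157) (nat_lit 21) (.e (nat_lit 7454) (nat_lit 396) .nil))))))) (.g (nat_lit 5) .nil .nil)))) (.nd (nat_lit 5) 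
(.lf (nat_lit 36442) (.g (nat_lit 2799) (.e (nat_lit 1219) (nat_lit 90) (.e (nat_lit 81924) (nat_lit 0) (.e (nat_lit 3632) (nat_lit 227) (.e (nat_lit 778326) (nat_lit 6) (.e (nat_lit 81948) (nat_lit 21) (.e (nat_lit 57872) (nat_lit 264) .nil)))))) (.g (nat_lit 0) .nil .nil))) 
(.lf (nat_lit 36474) (.g (nat_lit 1032) (.e (nat_lit 1219) (nat_lit 90) (.e (nat_lit 81927) (nat_lit 11) (.e (nat_lit 426011) (nat_lit 0) (.e (nat_lit 7593) (nat_lit 407) .nil)))) .nil))))) (.nd (nat_lit 3) (.nd (nat_lit 4) (.nd (nat_lit 5) 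
(.lf (nat_lit 36422) (.g (nat_lit 1512) (.e (nat_lit 1219) (nat_lit 90) (.e (nat_lit 81922) (nat_lit 0) (.e (nat_lit 3747) (nat_lit 228) (.e (nat_lit 786481) (nat_lit 30) (.e (nat_lit 368384) (nat_lit 0) (.e (nat_lit 5906) (nat_lit 320) .nil)))))) (.g (nat_lit 4) .nil .nil))) 
(.lf (nat_lit 36454) (.g (nat_lit 2838) (.e (nat_lit 1219) (nat_lit 90) (.e (nat_lit 81924) (nat_lit 0) (.e (nat_lit 3748) (nat_lit 228) (.e (nat_lit 786480) (nat_lit 29) (.e (nat_lit 352309) (nat_lit 21) (.e (nat_lit 57871) (nat_lit 264) .nil)))))) (.g (nat_lit 0) .nil .nil)))) (.nd (nat_lit 5) 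
(.lf (nat_lit 36438) (.g (nat_lit 2008) (.e (nat_lit 1219) (nat_lit 90) (.e (nat_lit 81924) (nat_lit 0) (.e (nat_lit 3631) (nat_lit 227) (.e (nat_lit 778326) (nat_lit 6) (.e (nat_lit 81950) (nat_lit 21) (.e (nat_lit 57871) (nat_lit 264) .nil)))))) (.g (nat_lit 0) .nil .nil))) 
(.lf (nat_lit 36470) (.g (nat_lit 2310) (.e (nat_lit 1219) (nat_lit 90) (.e (nat_lit 81925) (nat_lit 11) (.e (nat_lit 426343) (nat_lit 14) (.e (nat_lit 491560) (nat_lit 10) (.e (nat_lit 344090) (nat_lit 18) (.e (nat_lit 7236) (nat_lit 382) .nil)))))) (.g (nat_lit 4) .nil .nil))))) (.nd (nat_lit 4) (.nd (nat_lit 5) 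
(.lf (nat_lit 36430) (.g (nat_lit 1358) (.e (nat_lit 1219) (nat_lit 90) (.e (nat_lit 81924) (nat_lit 0) (.e (nat_lit 3629) (nat_lit 227) (.e (nat_lit 778326) (nat_lit 6) (.e (nat_lit 81948) (nat_lit 21) (.e (nat_lit 57871) (nat_lit 264) .nil)))))) (.g (nat_lit 0) .nil .nil))) 
(.lf (nat_lit 36462) (.g (nat_lit 672) (.e (nat_lit 1219) (nat_lit 90) (.e (nat_lit 89856) (nat_lit 8) (.e (nat_lit 262147) (nat_lit 0) (.e (nat_lit 1582) (nat_lit 111) (.e (nat_lit 368384) (nat_lit 0) (.e (nat_lit 5902) (nat_lit 320) .nil)))))) (.g (nat_lit 4) .nil .nil)))) (.nd (nat_lit 5) 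
(.lf (nat_lit 36446) (.g (nat_lit 2993) (.e (nat_lit 1219) (nat_lit 90) (.e (nat_lit 81924) (nat_lit 0) (.e (nat_lit 3747) (nat_lit 228) (.e (nat_lit 786480) (nat_lit 29) (.e (nat_lit 352309) (nat_lit 21) (.e (nat_lit 57871) (nat_lit 264) .nil)))))) (.g (nat_lit 6) .nil .nil))) 
(.lf (nat_lit 36478) (.g (nat_lit 2339) (.e (nat_lit 1219) (nat_lit 90) (.e (nat_lit 81927) (nat_lit 11) (.e (nat_lit 426343) (nat_lit 14) (.e (nat_lit 491558) (nat_lit 10) (.e (nat_lit 344096) (nat_lit 18) .nil))))) .nil))))))) (.nd (nat_lit 1) (.nd (nat_lit 2) (.nd (nat_lit 3) (.nd (nat_lit 4) (.nd (nat_lit 5) 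
(.lf (nat_lit 36417) (.g (nat_lit 1567) (.e (nat_lit 1219) (nat_lit 90) (.e (nat_lit 81922) (nat_lit 0) (.e (nat_lit 3632) (nat_lit 227) (.e (nat_lit 778326) (nat_lit 6) (.e (nat_lit 81950) (nat_lit 21) (.e (nat_lit 57871) (nat_lit 264) .nil)))))) (.g (nat_lit 5) .nil .nil))) 
(.lf (nat_lit 36449) (.g (nat_lit 2949) (.e (nat_lit 1219) (nat_lit 90) (.e (nat_lit 81924) (nat_lit 0) (.e (nat_lit 3747) (nat_lit 228) (.e (nat_lit 786481) (nat_lit 30) (.e (nat_lit 360452) (nat_lit 0) (.e (nat_lit 5907) (nat_lit 320) .nil)))))) (.g (nat_lit 0) .nil .nil)))) (.nd (nat_lit 5) 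
(.lf (nat_lit 36433) (.g (nat_lit 1386) (.e (nat_lit 1219) (nat_lit 90) (.e (nat_lit 81924) (nat_lit 0) (.e (nat_lit 3630) (nat_lit 227) (.e (nat_lit 778326) (nat_lit 6) (.e (nat_lit 81948) (nat_lit 21) (.e (nat_lit 57871) (nat_lit 264) .nil)))))) (.g (nat_lit 0) .nil .nil))) 
(.lf (nat_lit 36465) (.g (nat_lit 1329) (.e (nat_lit 1219) (nat_lit 90) (.e (nat_lit 81925) (nat_lit 11) (.e (nat_lit 426343) (nat_lit 14) (.e (nat_lit 491558) (nat_lit 10) .nil)))) .nil)))) (.nd (nat_lit 4) (.nd (nat_lit 5) 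
(.lf (nat_lit 36425) (.g (nat_lit 1747) (.e (nat_lit 1219) (nat_lit 90) (.e (nat_lit 81922) (nat_lit 0) (.e (nat_lit 3747) (nat_lit 228) (.e (nat_lit 786483) (nat_lit 30) (.e (nat_lit 368384) (nat_lit 0) (.e (nat_lit 5906) (nat_lit 320) .nil)))))) (.g (nat_lit 4) .nil .nil))) 
(.lf (nat_lit 36457) (.g (nat_lit 1372) (.e (nat_lit 1219) (nat_lit 90) (.e (nat_lit 81924) (nat_lit 0) (.e (nat_lit 3748) (nat_lit 228) (.e (nat_lit 786483) (nat_lit 30) (.e (nat_lit 368384) (nat_lit 0) .nil))))) .nil))) (.nd (nat_lit 5) 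
(.lf (nat_lit 36441) (.g (nat_lit 1956) (.e (nat_lit 1219) (nat_lit 90) (.e (nat_lit 81924) (nat_lit 0) (.e (nat_lit 3632) (nat_lit 227) (.e (nat_lit 778326) (nat_lit 6) (.e (nat_lit 81948) (nat_lit 21) (.e (nat_lit 57871) (nat_lit 264) .nil)))))) (.g (nat_lit 0) .nil .nil))) 
(.lf (nat_lit 36473) (.g (nat_lit 1020) (.e (nat_lit 1219) (nat_lit 90) (.e (nat_lit 81927) (nat_lit 11) (.e (nat_lit 426011) (nat_lit 0) (.e (nat_lit 7591) (nat_lit 407) .nil)))) .nil))))) (.nd (nat_lit 3) (.nd (nat_lit 4) (.nd (nat_lit 5) 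
(.lf (nat_lit 36421) (.g (nat_lit 1478) (.e (nat_lit 1219) (nat_lit 90) (.e (nat_lit 81922) (nat_lit 0) (.e (nat_lit 3747) (nat_lit 228) (.e (nat_lit 786481) (nat_lit 30) (.e (nat_lit 368384) (nat_lit 0) (.e (nat_lit 5902) (nat_lit 320) .nil)))))) (.g (nat_lit 4) .nil .nil))) 
(.lf (nat_lit 36453) (.g (nat_lit 2676) (.e (nat_lit 1219) (nat_lit 90) (.e (nat_lit 81924) (nat_lit 0) (.e (nat_lit 3748) (nat_lit 228) (.e (nat_lit 786480) (nat_lit 29) (.e (nat_lit 352309) (nat_lit 21) (.e (nat_lit 57870) (nat_lit 264) .nil)))))) (.g (nat_lit 0) .nil .nil)))) (.nd (nat_lit 5) 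
(.lf (nat_lit 36437) (.g (nat_lit 2668) (.e (nat_lit 1219) (nat_lit 90) (.e (nat_lit 81924) (nat_lit 0) (.e (nat_lit 3631) (nat_lit 227) (.e (nat_lit 778326) (nat_lit 6) (.e (nat_lit 81948) (nat_lit 21) (.e (nat_lit 57872) (nat_lit 264) .nil)))))) (.g (nat_lit 0) .nil .nil))) 
(.lf (nat_lit 36469) (.g (nat_lit 2926) (.e (nat_lit 1219) (nat_lit 90) (.e (nat_lit 81925) (nat_lit 11) (.e (nat_lit 426343) (nat_lit 14) (.e (nat_lit 491560) (nat_lit 10) (.e (nat_lit 344089) (nat_lit 18) .nil))))) .nil)))) (.nd (nat_lit 4) (.nd (nat_lit 5) 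
(.lf (nat_lit 36429) (.g (nat_lit 1420) (.e (nat_lit 1219) (nat_lit 90) (.e (nat_lit 81924) (nat_lit 0) (.e (nat_lit 3629) (nat_lit 227) (.e (nat_lit 778326) (nat_lit 6) (.e (nat_lit 81948) (nat_lit 21) (.e (nat_lit 57870) (nat_lit 264) .nil)))))) (.g (nat_lit 0) .nil .nil))) 
(.lf (nat_lit 36461) (.g (nat_lit 685) (.e (nat_lit 1219) (nat_lit 90) (.e (nat_lit 89856) (nat_lit 8) (.e (nat_lit 262146) (nat_lit 0) (.e (nat_lit 1582) (nat_lit 111) (.e (nat_lit 368384) (nat_lit 0) (.e (nat_lit 5902) (nat_lit 320) .nil)))))) (.g (nat_lit 4) .nil .nil)))) (.nd (nat_lit 5) 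
(.lf (nat_lit 36445) (.g (nat_lit 1439) (.e (nat_lit 1219) (nat_lit 90) (.e (nat_lit 81924) (nat_lit 0) (.e (nat_lit 3632) (nat_lit 227) (.e (nat_lit 778327) (nat_lit 6) (.e (nat_lit 81950) (nat_lit 21) (.e (nat_lit 57871) (nat_lit 264) .nil)))))) (.g (nat_lit 5) .nil .nil))) 
(.lf (nat_lit 36477) (.g (nat_lit 2558) (.e (nat_lit 1219) (nat_lit 90) (.e (nat_lit 81927) (nat_lit 11) (.e (nat_lit 426343) (nat_lit 14) (.e (nat_lit 491558) (nat_lit 10) (.e (nat_lit 344091) (nat_lit 18) (.e (nat_lit 7236) (nat_lit 382) .nil)))))) (.g (nat_lit 4) .nil .nil))))))) (.nd (nat_lit 2) (.nd (nat_lit 3) (.nd (nat_lit 4) (.nd (nat_lit 5) 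
(.lf (nat_lit 36419) (.g (nat_lit 2432) (.e (nat_lit 1219) (nat_lit 90) (.e (nat_lit 81922) (nat_lit 0) (.e (nat_lit 3747) (nat_lit 228) (.e (nat_lit 786480) (nat_lit 29) (.e (nat_lit 352309) (nat_lit 21) (.e (nat_lit 57870) (nat_lit 264) .nil)))))) (.g (nat_lit 5) .nil .nil))) 
(.lf (nat_lit 36451) (.g (nat_lit 2803) (.e (nat_lit 1219) (nat_lit 90) (.e (nat_lit 81924) (nat_lit 0) (.e (nat_lit 3747) (nat_lit 228) (.e (nat_lit 786483) (nat_lit 30) (.e (nat_lit 360454) (nat_lit 0) (.e (nat_lit 5907) (nat_lit 320) .nil)))))) (.g (nat_lit 0) .nil .nil)))) (.nd (nat_lit 5) 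
(.lf (nat_lit 36435) (.g (nat_lit 1887) (.e (nat_lit 1219) (nat_lit 90) (.e (nat_lit 81924) (nat_lit 0) (.e (nat_lit 3631) (nat_lit 227) (.e (nat_lit 778326) (nat_lit 6) (.e (nat_lit 81948) (nat_lit 21) (.e (nat_lit 57870) (nat_lit 264) .nil)))))) (.g (nat_lit 0) .nil .nil))) 
(.lf (nat_lit 36467) (.g (nat_lit 2406) (.e (nat_lit 1219) (nat_lit 90) (.e (nat_lit 81925) (nat_lit 11) (.e (nat_lit 426343) (nat_lit 14) (.e (nat_lit 491558) (nat_lit 10) (.e (nat_lit 344091) (nat_lit 18) (.e (nat_lit 7236) (nat_lit 382) .nil)))))) (.g (nat_lit 4) .nil .nil))))) (.nd (nat_lit 4) (.nd (nat_lit 5) 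
(.lf (nat_lit 36427) (.g (nat_lit 1350) (.e (nat_lit 1219) (nat_lit 90) (.e (nat_lit 81922) (nat_lit 0) (.e (nat_lit 3748) (nat_lit 228) (.e (nat_lit 786483) (nat_lit 30) (.e (nat_lit 368384) (nat_lit 0) .nil))))) .nil)) 
(.lf (nat_lit 36459) (.g (nat_lit 1917) (.e (nat_lit 1219) (nat_lit 90) (.e (nat_lit 89856) (nat_lit 5) (.e (nat_lit 221207) (nat_lit 21) (.e (nat_lit 164325) (nat_lit 230) (.e (nat_lit 163939) (nat_lit 18) (.e (nat_lit 475157) (nat_lit 21) (.e (nat_lit 7454) (nat_lit 396) .nil))))))) (.g (nat_lit 5) .nil .nil)))) (.nd (nat_lit 5) 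
(.lf (nat_lit 36443) (.g (nat_lit 2091) (.e (nat_lit 1219) (nat_lit 90) (.e (nat_lit 81924) (nat_lit 0) (.e (nat_lit 3632) (nat_lit 227) (.e (nat_lit 778326) (nat_lit 6) (.e (nat_lit 81950) (nat_lit 21) (.e (nat_lit 57871) (nat_lit 264) .nil)))))) (.g (nat_lit 0) .nil .nil))) 
(.lf (nat_lit 36475) (.g (nat_lit 1414) (.e (nat_lit 1219) (nat_lit 90) (.e (nat_lit 81927) (nat_lit 11) (.e (nat_lit 426343) (nat_lit 14) (.e (nat_lit 491558) (nat_lit 10) .nil)))) .nil))))) (.nd (nat_lit 3) (.nd (nat_lit 4) (.nd (nat_lit 5) 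
(.lf (nat_lit 36423) (.g (nat_lit 1501) (.e (nat_lit 1219) (nat_lit 90) (.e (nat_lit 81922) (nat_lit 0) (.e (nat_lit 3747) (nat_lit 228) (.e (nat_lit 786483) (nat_lit 30) (.e (nat_lit 368384) (nat_lit 0) .nil))))) .nil)) 
(.lf (nat_lit 36455) (.g (nat_lit 2439) (.e (nat_lit 1219) (nat_lit 90) (.e (nat_lit 81924) (nat_lit 0) (.e (nat_lit 3748) (nat_lit 228) (.e (nat_lit 786481) (nat_lit 30) (.e (nat_lit 360452) (nat_lit 0) (.e (nat_lit 5905) (nat_lit 320) .nil)))))) (.g (nat_lit 6) .nil .nil)))) (.nd (nat_lit 5) 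
(.lf (nat_lit 36439) (.g (nat_lit 1201) (.e (nat_lit 1219) (nat_lit 90) (.e (nat_lit 81924) (nat_lit 0) (.e (nat_lit 3631) (nat_lit 227) (.e (nat_lit 778327) (nat_lit 6) (.e (nat_lit 81950) (nat_lit 21) (.e (nat_lit 57871) (nat_lit 264) .nil)))))) (.g (nat_lit 4) .nil .nil))) 
(.lf (nat_lit 36471) (.g (nat_lit 2203) (.e (nat_lit 1219) (nat_lit 90) (.e (nat_lit 81925) (nat_lit 11) (.e (nat_lit 426343) (nat_lit 14) (.e (nat_lit 491560) (nat_lit 10) (.e (nat_lit 344091) (nat_lit 18) .nil))))) .nil)))) (.nd (nat_lit 4) (.nd (nat_lit 5) 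
(.lf (nat_lit 36431) (.g (nat_lit 2199) (.e (nat_lit 1219) (nat_lit 90) (.e (nat_lit 81924) (nat_lit 0) (.e (nat_lit 3629) (nat_lit 227) (.e (nat_lit 778326) (nat_lit 6) (.e (nat_lit 81948) (nat_lit 21) (.e (nat_lit 57872) (nat_lit 264) .nil)))))) (.g (nat_lit 0) .nil .nil))) 
(.lf (nat_lit 36463) (.g (nat_lit 1025) (.e (nat_lit 1219) (nat_lit 90) (.e (nat_lit 81925) (nat_lit 11) (.e (nat_lit 426011) (nat_lit 0) (.e (nat_lit 7591) (nat_lit 407) .nil)))) .nil))) (.nd (nat_lit 5) 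
(.lf (nat_lit 36447) (.g (nat_lit 3615) (.e (nat_lit 1219) (nat_lit 90) (.e (nat_lit 81924) (nat_lit 0) (.e (nat_lit 3747) (nat_lit 228) (.e (nat_lit 786480) (nat_lit 29) (.e (nat_lit 352309) (nat_lit 21) (.e (nat_lit 57872) (nat_lit 264) .nil)))))) (.g (nat_lit 0) .nil .nil))) 
(.lf (nat_lit 36479) (.g (nat_lit 3024) (.e (nat_lit 1219) (nat_lit 90) (.e (nat_lit 81927) (nat_lit 11) (.e (nat_lit 426343) (nat_lit 14) (.e (nat_lit 491560) (nat_lit 10) (.e (nat_lit 344089) (nat_lit 18) .nil))))) .nil))))))))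

noncomputable def tv508 : DT := (.nd (nat_lit 0) (.nd (nat_lit 1) (.nd (nat_lit 2) (.nd (nat_lit 3) (.nd (nat_lit 4) (.nd (nat_lit 5) 
(.lf (nat_lit 36480) (.g (nat_lit 2468) (.e (nat_lit 1219) (nat_lit 90) (.e (nat_lit 81927) (nat_lit 11) (.e (nat_lit 426343) (nat_lit 14) (.e (nat_lit 491560) (nat_lit 10) (.e (nat_lit 344090) (nat_lit 18) (.e (nat_lit 7236) (nat_lit 382) .nil)))))) (.g (nat_lit 4) .nil .nil))) 
(.lf (nat_lit 36512) (.g (nat_lit 1439) (.e (nat_lit 1219) (nat_lit 90) (.e (nat_lit 81935) (nat_lit 20) (.e (nat_lit 1998) (nat_lit 137) (.e (nat_lit 663554) (nat_lit 0) (.e (nat_lit 1586) (nat_lit 111) (.e (nat_lit 368384) (nat_lit 0) (.e (nat_lit 5906) (nat_lit 320) .nil))))))) (.g (nat_lit 4) .nil .nil)))) (.nd (nat_lit 5) 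
(.lf (nat_lit 36496) (.g (nat_lit 1903) (.e (nat_lit 1219) (nat_lit 90) (.e (nat_lit 81935) (nat_lit 20) (.e (nat_lit 1994) (nat_lit 137) (.e (nat_lit 663569) (nat_lit 6) (.e (nat_lit 81948) (nat_lit 21) (.e (nat_lit 57871) (nat_lit 264) .nil)))))) (.g (nat_lit 0) .nil .nil))) 
(.lf (nat_lit 36528) (.g (nat_lit 3368) (.e (nat_lit 1219) (nat_lit 90) (.e (nat_lit 81935) (nat_lit 20) (.e (nat_lit 1999) (nat_lit 137) (.e (nat_lit 663567) (nat_lit 4) (.e (nat_lit 65610) (nat_lit 10) (.e (nat_lit 344097) (nat_lit 18) (.e (nat_lit 5907) (nat_lit 320) .nil))))))) (.g (nat_lit 0) .nil .nil))))) (.nd (nat_lit 4) (.nd (nat_lit 5) 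
(.lf (nat_lit 36488) (.g (nat_lit 331) (.e (nat_lit 1219) (nat_lit 90) (.e (nat_lit 81935) (nat_lit 20) (.e (nat_lit 1994) (nat_lit 137) .nil))) .nil)) 
(.lf (nat_lit 36520) (.g (nat_lit 2958) (.e (nat_lit 1219) (nat_lit 90) (.e (nat_lit 81935) (nat_lit 20) (.e (nat_lit 1998) (nat_lit 137) (.e (nat_lit 663567) (nat_lit 4) (.e (nat_lit 65610) (nat_lit 10) (.e (nat_lit 344097) (nat_lit 18) (.e (nat_lit 5906) (nat_lit 320) .nil))))))) (.g (nat_lit 6) .nil .nil)))) (.nd (nat_lit 5) 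
(.lf (nat_lit 36504) (.g (nat_lit 3175) (.e (nat_lit 1219) (nat_lit 90) (.e (nat_lit 81935) (nat_lit 20) (.e (nat_lit 1996) (nat_lit 137) (.e (nat_lit 663567) (nat_lit 4) (.e (nat_lit 65610) (nat_lit 10) (.e (nat_lit 344097) (nat_lit 18) (.e (nat_lit 5907) (nat_lit 320) .nil))))))) (.g (nat_lit 7) .nil .nil))) 
(.lf (nat_lit 36536) (.g (nat_lit 2638) (.e (nat_lit 1219) (nat_lit 90) (.e (nat_lit 81943) (nat_lit 20) (.e (nat_lit 1962) (nat_lit 134) (.e (nat_lit 638998) (nat_lit 8) (.e (nat_lit 172120) (nat_lit 12) (.e (nat_lit 475155) (nat_lit 21) (.e (nat_lit 6308) (nat_lit 337) .nil))))))) (.g (nat_lit 5) .nil .nil)))))) (.nd (nat_lit 3) (.nd (nat_lit 4) (.nd (nat_lit 5) 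
(.lf (nat_lit 36484) (.g (nat_lit 1814) (.e (nat_lit 1219) (nat_lit 90) (.e (nat_lit 81933) (nat_lit 20) (.e (nat_lit 1998) (nat_lit 137) (.e (nat_lit 663554) (nat_lit 0) (.e (nat_lit 1589) (nat_lit 111) (.e (nat_lit 368384) (nat_lit 0) (.e (nat_lit 5905) (nat_lit 320) .nil))))))) (.g (nat_lit 5) .nil .nil))) 
(.lf (nat_lit 36516) (.g (nat_lit 2144) (.e (nat_lit 1219) (nat_lit 90) (.e (nat_lit 81935) (nat_lit 20) (.e (nat_lit 1998) (nat_lit 137) (.e (nat_lit 663554) (nat_lit 0) (.e (nat_lit 1595) (nat_lit 111) (.e (nat_lit 368384) (nat_lit 0) (.e (nat_lit 5905) (nat_lit 320) .nil))))))) (.g (nat_lit 5) .nil .nil)))) (.nd (nat_lit 5) 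
(.lf (nat_lit 36500) (.g (nat_lit 2498) (.e (nat_lit 1219) (nat_lit 90) (.e (nat_lit 81935) (nat_lit 20) (.e (nat_lit 1996) (nat_lit 137) (.e (nat_lit 663567) (nat_lit 4) (.e (nat_lit 65598) (nat_lit 9) (.e (nat_lit 335997) (nat_lit 1) (.e (nat_lit 57871) (nat_lit 264) .nil))))))) (.g (nat_lit 6) .nil .nil))) 
(.lf (nat_lit 36532) (.g (nat_lit 1645) (.e (nat_lit 1219) (nat_lit 90) (.e (nat_lit 81935) (nat_lit 20) (.e (nat_lit 1999) (nat_lit 137) (.e (nat_lit 663569) (nat_lit 6) (.e (nat_lit 81950) (nat_lit 21) (.e (nat_lit 57870) (nat_lit 264) .nil)))))) (.g (nat_lit 5) .nil .nil))))) (.nd (nat_lit 4) (.nd (nat_lit 5) 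
(.lf (nat_lit 36492) (.g (nat_lit 3194) (.e (nat_lit 1219) (nat_lit 90) (.e (nat_lit 81935) (nat_lit 20) (.e (nat_lit 1994) (nat_lit 137) (.e (nat_lit 663567) (nat_lit 4) (.e (nat_lit 65610) (nat_lit 10) (.e (nat_lit 344097) (nat_lit 18) (.e (nat_lit 5905) (nat_lit 320) .nil))))))) (.g (nat_lit 7) .nil .nil))) 
(.lf (nat_lit 36524) (.g (nat_lit 1666) (.e (nat_lit 1219) (nat_lit 90) (.e (nat_lit 81935) (nat_lit 20) (.e (nat_lit 1998) (nat_lit 137) (.e (nat_lit 663569) (nat_lit 6) (.e (nat_lit 81950) (nat_lit 21) (.e (nat_lit 57870) (nat_lit 264) .nil)))))) (.g (nat_lit 5) .nil .nil)))) (.nd (nat_lit 5) 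
(.lf (nat_lit 36508) (.g (nat_lit 1091) (.e (nat_lit 1219) (nat_lit 90) (.e (nat_lit 81935) (nat_lit 20) (.e (nat_lit 1998) (nat_lit 137) (.e (nat_lit 663554) (nat_lit 0) (.e (nat_lit 1566) (nat_lit 110) .nil))))) .nil)) 
(.lf (nat_lit 36540) (.g (nat_lit 2532) (.e (nat_lit 1219) (nat_lit 90) (.e (nat_lit 81943) (nat_lit 20) (.e (nat_lit 2003) (nat_lit 138) (.e (nat_lit 671762) (nat_lit 4) (.e (nat_lit 65598) (nat_lit 9) (.e (nat_lit 335997) (nat_lit 1) (.e (nat_lit 57870) (nat_lit 264) .nil))))))) (.g (nat_lit 6) .nil .nil))))))) (.nd (nat_lit 2) (.nd (nat_lit 3) (.nd (nat_lit 4) (.nd (nat_lit 5) 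
(.lf (nat_lit 36482) (.g (nat_lit 1063) (.e (nat_lit 1219) (nat_lit 90) (.e (nat_lit 89856) (nat_lit 19) (.e (nat_lit 491585) (nat_lit 29) (.e (nat_lit 442421) (nat_lit 21) (.e (nat_lit 171776) (nat_lit 122) .nil))))) (.g (nat_lit 4) .nil .nil))) 
(.lf (nat_lit 36514) (.g (nat_lit 1300) (.e (nat_lit 1219) (nat_lit 90) (.e (nat_lit 81935) (nat_lit 20) (.e (nat_lit 1998) (nat_lit 137) (.e (nat_lit 663554) (nat_lit 0) (.e (nat_lit 1592) (nat_lit 111) (.e (nat_lit 368384) (nat_lit 0) (.e (nat_lit 5906) (nat_lit 320) .nil))))))) (.g (nat_lit 4) .nil .nil)))) (.nd (nat_lit 5) 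
(.lf (nat_lit 36498) (.g (nat_lit 336) (.e (nat_lit 1219) (nat_lit 90) (.e (nat_lit 81935) (nat_lit 20) (.e (nat_lit 1996) (nat_lit 137) .nil))) .nil)) 
(.lf (nat_lit 36530) (.g (nat_lit 1953) (.e (nat_lit 1219) (nat_lit 90) (.e (nat_lit 81935) (nat_lit 20) (.e (nat_lit 1999) (nat_lit 137) (.e (nat_lit 663569) (nat_lit 6) (.e (nat_lit 81948) (nat_lit 21) (.e (nat_lit 57871) (nat_lit 264) .nil)))))) (.g (nat_lit 0) .nil .nil))))) (.nd (nat_lit 4) (.nd (nat_lit 5) 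
(.lf (nat_lit 36490) (.g (nat_lit 2744) (.e (nat_lit 1219) (nat_lit 90) (.e (nat_lit 81935) (nat_lit 20) (.e (nat_lit 1994) (nat_lit 137) (.e (nat_lit 663567) (nat_lit 4) (.e (nat_lit 65598) (nat_lit 9) (.e (nat_lit 335997) (nat_lit 1) (.e (nat_lit 57871) (nat_lit 264) .nil))))))) (.g (nat_lit 6) .nil .nil))) 
(.lf (nat_lit 36522) (.g (nat_lit 1933) (.e (nat_lit 1219) (nat_lit 90) (.e (nat_lit 81935) (nat_lit 20) (.e (nat_lit 1998) (nat_lit 137) (.e (nat_lit 663569) (nat_lit 6) (.e (nat_lit 81948) (nat_lit 21) (.e (nat_lit 57871) (nat_lit 264) .nil)))))) (.g (nat_lit 0) .nil .nil)))) (.nd (nat_lit 5) 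
(.lf (nat_lit 36506) (.g (nat_lit 2372) (.e (nat_lit 1219) (nat_lit 90) (.e (nat_lit 81935) (nat_lit 20) (.e (nat_lit 1996) (nat_lit 137) (.e (nat_lit 663569) (nat_lit 6) (.e (nat_lit 81948) (nat_lit 21) (.e (nat_lit 57873) (nat_lit 264) .nil)))))) (.g (nat_lit 0) .nil .nil))) 
(.lf (nat_lit 36538) (.g (nat_lit 1571) (.e (nat_lit 1219) (nat_lit 90) (.e (nat_lit 81943) (nat_lit 20) (.e (nat_lit 2003) (nat_lit 138) (.e (nat_lit 671747) (nat_lit 0) (.e (nat_lit 1592) (nat_lit 111) (.e (nat_lit 368384) (nat_lit 0) (.e (nat_lit 5906) (nat_lit 320) .nil))))))) (.g (nat_lit 5) .nil .nil)))))) (.nd (nat_lit 3) (.nd (nat_lit 4) (.nd (nat_lit 5) 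
(.lf (nat_lit 36486) (.g (nat_lit 445) (.e (nat_lit 1219) (nat_lit 90) (.e (nat_lit 81935) (nat_lit 20) (.e (nat_lit 1878) (nat_lit 126) .nil))) .nil)) 
(.lf (nat_lit 36518) (.g (nat_lit 1469) (.e (nat_lit 1219) (nat_lit 90) (.e (nat_lit 81935) (nat_lit 20) (.e (nat_lit 1998) (nat_lit 137) (.e (nat_lit 663554) (nat_lit 0) (.e (nat_lit 1599) (nat_lit 111) (.e (nat_lit 368384) (nat_lit 0) (.e (nat_lit 5905) (nat_lit 320) .nil))))))) (.g (nat_lit 4) .nil .nil)))) (.nd (nat_lit 5) 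
(.lf (nat_lit 36502) (.g (nat_lit 2520) (.e (nat_lit 1219) (nat_lit 90) (.e (nat_lit 81935) (nat_lit 20) (.e (nat_lit 1996) (nat_lit 137) (.e (nat_lit 663567) (nat_lit 4) (.e (nat_lit 65604) (nat_lit 9) (.e (nat_lit 335997) (nat_lit 1) (.e (nat_lit 57871) (nat_lit 264) .nil))))))) (.g (nat_lit 7) .nil .nil))) 
(.lf (nat_lit 36534) (.g (nat_lit 156) (.e (nat_lit 1219) (nat_lit 90) (.e (nat_lit 81943) (nat_lit 20) (.e (nat_lit 1886) (nat_lit 127) .nil))) .nil)))) (.nd (nat_lit 4) (.nd (nat_lit 5) 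
(.lf (nat_lit 36494) (.g (nat_lit 3053) (.e (nat_lit 1219) (nat_lit 90) (.e (nat_lit 81935) (nat_lit 20) (.e (nat_lit 1994) (nat_lit 137) (.e (nat_lit 663567) (nat_lit 4) (.e (nat_lit 65619) (nat_lit 10) (.e (nat_lit 344097) (nat_lit 18) (.e (nat_lit 5905) (nat_lit 320) .nil))))))) (.g (nat_lit 7) .nil .nil))) 
(.lf (nat_lit 36526) (.g (nat_lit 2601) (.e (nat_lit 1219) (nat_lit 90) (.e (nat_lit 81935) (nat_lit 20) (.e (nat_lit 1999) (nat_lit 137) (.e (nat_lit 663567) (nat_lit 4) (.e (nat_lit 65598) (nat_lit 9) (.e (nat_lit 335997) (nat_lit 1) (.e (nat_lit 57871) (nat_lit 264) .nil))))))) (.g (nat_lit 7) .nil .nil)))) (.nd (nat_lit 5) 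
(.lf (nat_lit 36510) (.g (nat_lit 1462) (.e (nat_lit 1219) (nat_lit 90) (.e (nat_lit 81935) (nat_lit 20) (.e (nat_lit 1998) (nat_lit 137) (.e (nat_lit 663554) (nat_lit 0) (.e (nat_lit 1586) (nat_lit 111) (.e (nat_lit 368384) (nat_lit 0) (.e (nat_lit 5902) (nat_lit 320) .nil))))))) (.g (nat_lit 4) .nil .nil))) 
(.lf (nat_lit 36542) (.g (nat_lit 2555) (.e (nat_lit 1219) (nat_lit 90) (.e (nat_lit 81943) (nat_lit 20) (.e (nat_lit 2003) (nat_lit 138) (.e (nat_lit 671762) (nat_lit 4) (.e (nat_lit 65604) (nat_lit 9) (.e (nat_lit 335997) (nat_lit 1) (.e (nat_lit 57870) (nat_lit 264) .nil))))))) (.g (nat_lit 0) .nil .nil)))))))) 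
(.nd (nat_lit 1) (.nd (nat_lit 2) (.nd (nat_lit 3) (.nd (nat_lit 4) (.nd (nat_lit 5) 
(.lf (nat_lit 36481) (.g (nat_lit 2320) (.e (nat_lit 1219) (nat_lit 90) (.e (nat_lit 81927) (nat_lit 11) (.e (nat_lit 426343) (nat_lit 14) (.e (nat_lit 491560) (nat_lit 10) (.e (nat_lit 344091) (nat_lit 18) .nil))))) .nil)) 
(.lf (nat_lit 36513) (.g (nat_lit 1179) (.e (nat_lit 1219) (nat_lit 90) (.e (nat_lit 81935) (nat_lit 20) (.e (nat_lit 1998) (nat_lit 137) (.e (nat_lit 663554) (nat_lit 0) (.e (nat_lit 1590) (nat_lit 111) .nil))))) .nil))) (.nd (nat_lit 5) 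
(.lf (nat_lit 36497) (.g (nat_lit 2479) (.e (nat_lit 1219) (nat_lit 90) (.e (nat_lit 81935) (nat_lit 20) (.e (nat_lit 1994) (nat_lit 137) (.e (nat_lit 663569) (nat_lit 6) (.e (nat_lit 81948) (nat_lit 21) (.e (nat_lit 57873) (nat_lit 264) .nil)))))) (.g (nat_lit 0) .nil .nil))) 
(.lf (nat_lit 36529) (.g (nat_lit 3322) (.e (nat_lit 1219) (nat_lit 90) (.e (nat_lit 81935) (nat_lit 20) (.e (nat_lit 1999) (nat_lit 137) (.e (nat_lit 663567) (nat_lit 4) (.e (nat_lit 65619) (nat_lit 10) (.e (nat_lit 344097) (nat_lit 18) (.e (nat_lit 5907) (nat_lit 320) .nil))))))) (.g (nat_lit 0) .nil .nil))))) (.nd (nat_lit 4) (.nd (nat_lit 5) 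
(.lf (nat_lit 36489) (.g (nat_lit 2796) (.e (nat_lit 1219) (nat_lit 90) (.e (nat_lit 81935) (nat_lit 20) (.e (nat_lit 1994) (nat_lit 137) (.e (nat_lit 663567) (nat_lit 4) (.e (nat_lit 65598) (nat_lit 9) (.e (nat_lit 335997) (nat_lit 1) (.e (nat_lit 57870) (nat_lit 264) .nil))))))) (.g (nat_lit 6) .nil .nil))) 
(.lf (nat_lit 36521) (.g (nat_lit 2031) (.e (nat_lit 1219) (nat_lit 90) (.e (nat_lit 81935) (nat_lit 20) (.e (nat_lit 1998) (nat_lit 137) (.e (nat_lit 663569) (nat_lit 6) (.e (nat_lit 81948) (nat_lit 21) (.e (nat_lit 57870) (nat_lit 264) .nil)))))) (.g (nat_lit 0) .nil .nil)))) (.nd (nat_lit 5) 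
(.lf (nat_lit 36505) (.g (nat_lit 1792) (.e (nat_lit 1219) (nat_lit 90) (.e (nat_lit 81935) (nat_lit 20) (.e (nat_lit 1996) (nat_lit 137) (.e (nat_lit 663569) (nat_lit 6) (.e (nat_lit 81948) (nat_lit 21) (.e (nat_lit 57871) (nat_lit 264) .nil)))))) (.g (nat_lit 0) .nil .nil))) 
(.lf (nat_lit 36537) (.g (nat_lit 162) (.e (nat_lit 1219) (nat_lit 90) (.e (nat_lit 81943) (nat_lit 20) (.e (nat_lit 1963) (nat_lit 134) .nil))) .nil))))) (.nd (nat_lit 3) (.nd (nat_lit 4) (.nd (nat_lit 5) 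
(.lf (nat_lit 36485) (.g (nat_lit 1102) (.e (nat_lit 1219) (nat_lit 90) (.e (nat_lit 81933) (nat_lit 20) (.e (nat_lit 1998) (nat_lit 137) (.e (nat_lit 663554) (nat_lit 0) (.e (nat_lit 1596) (nat_lit 111) (.e (nat_lit 368384) (nat_lit 0) (.e (nat_lit 5906) (nat_lit 320) .nil))))))) (.g (nat_lit 4) .nil .nil))) 
(.lf (nat_lit 36517) (.g (nat_lit 1187) (.e (nat_lit 1219) (nat_lit 90) (.e (nat_lit 81935) (nat_lit 20) (.e (nat_lit 1998) (nat_lit 137) (.e (nat_lit 663554) (nat_lit 0) (.e (nat_lit 1596) (nat_lit 111) .nil))))) .nil))) (.nd (nat_lit 5) 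
(.lf (nat_lit 36501) (.g (nat_lit 2551) (.e (nat_lit 1219) (nat_lit 90) (.e (nat_lit 81935) (nat_lit 20) (.e (nat_lit 1996) (nat_lit 137) (.e (nat_lit 663567) (nat_lit 4) (.e (nat_lit 65604) (nat_lit 9) (.e (nat_lit 335997) (nat_lit 1) (.e (nat_lit 57870) (nat_lit 264) .nil))))))) (.g (nat_lit 7) .nil .nil))) 
(.lf (nat_lit 36533) (.g (nat_lit 1590) (.e (nat_lit 1219) (nat_lit 90) (.e (nat_lit 81935) (nat_lit 20) (.e (nat_lit 1999) (nat_lit 137) (.e (nat_lit 663569) (nat_lit 6) (.e (nat_lit 81950) (nat_lit 21) (.e (nat_lit 57871) (nat_lit 264) .nil)))))) (.g (nat_lit 5) .nil .nil))))) (.nd (nat_lit 4) (.nd (nat_lit 5) 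
(.lf (nat_lit 36493) (.g (nat_lit 3158) (.e (nat_lit 1219) (nat_lit 90) (.e (nat_lit 81935) (nat_lit 20) (.e (nat_lit 1994) (nat_lit 137) (.e (nat_lit 663567) (nat_lit 4) (.e (nat_lit 65610) (nat_lit 10) (.e (nat_lit 344097) (nat_lit 18) (.e (nat_lit 5906) (nat_lit 320) .nil))))))) (.g (nat_lit 6) .nil .nil))) 
(.lf (nat_lit 36525) (.g (nat_lit 1610) (.e (nat_lit 1219) (nat_lit 90) (.e (nat_lit 81935) (nat_lit 20) (.e (nat_lit 1998) (nat_lit 137) (.e (nat_lit 663569) (nat_lit 6) (.e (nat_lit 81950) (nat_lit 21) (.e (nat_lit 57871) (nat_lit 264) .nil)))))) (.g (nat_lit 5) .nil .nil)))) (.nd (nat_lit 5) 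
(.lf (nat_lit 36509) (.g (nat_lit 1276) (.e (nat_lit 1219) (nat_lit 90) (.e (nat_lit 81935) (nat_lit 20) (.e (nat_lit 1998) (nat_lit 137) (.e (nat_lit 663554) (nat_lit 0) (.e (nat_lit 1580) (nat_lit 111) (.e (nat_lit 368384) (nat_lit 0) (.e (nat_lit 5902) (nat_lit 320) .nil))))))) (.g (nat_lit 4) .nil .nil))) 
(.lf (nat_lit 36541) (.g (nat_lit 2458) (.e (nat_lit 1219) (nat_lit 90) (.e (nat_lit 81943) (nat_lit 20) (.e (nat_lit 2003) (nat_lit 138) (.e (nat_lit 671762) (nat_lit 4) (.e (nat_lit 65598) (nat_lit 9) (.e (nat_lit 335997) (nat_lit 1) (.e (nat_lit 57871) (nat_lit 264) .nil))))))) (.g (nat_lit 6) .nil .nil))))))) (.nd (nat_lit 2) (.nd (nat_lit 3) (.nd (nat_lit 4) (.nd (nat_lit 5) 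
(.lf (nat_lit 36483) (.g (nat_lit 1272) (.e (nat_lit 1219) (nat_lit 90) (.e (nat_lit 81933) (nat_lit 20) (.e (nat_lit 1998) (nat_lit 137) (.e (nat_lit 663554) (nat_lit 0) (.e (nat_lit 1580) (nat_lit 111) (.e (nat_lit 368384) (nat_lit 0) (.e (nat_lit 5906) (nat_lit 320) .nil))))))) (.g (nat_lit 5) .nil .nil))) 
(.lf (nat_lit 36515) (.g (nat_lit 1459) (.e (nat_lit 1219) (nat_lit 90) (.e (nat_lit 81935) (nat_lit 20) (.e (nat_lit 1998) (nat_lit 137) (.e (nat_lit 663554) (nat_lit 0) (.e (nat_lit 1595) (nat_lit 111) (.e (nat_lit 368384) (nat_lit 0) (.e (nat_lit 5902) (nat_lit 320) .nil))))))) (.g (nat_lit 4) .nil .nil)))) (.nd (nat_lit 5) 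
(.lf (nat_lit 36499) (.g (nat_lit 2551) (.e (nat_lit 1219) (nat_lit 90) (.e (nat_lit 81935) (nat_lit 20) (.e (nat_lit 1996) (nat_lit 137) (.e (nat_lit 663567) (nat_lit 4) (.e (nat_lit 65598) (nat_lit 9) (.e (nat_lit 335997) (nat_lit 1) (.e (nat_lit 57870) (nat_lit 264) .nil))))))) (.g (nat_lit 6) .nil .nil))) 
(.lf (nat_lit 36531) (.g (nat_lit 2530) (.e (nat_lit 1219) (nat_lit 90) (.e (nat_lit 81935) (nat_lit 20) (.e (nat_lit 1999) (nat_lit 137) (.e (nat_lit 663569) (nat_lit 6) (.e (nat_lit 81948) (nat_lit 21) (.e (nat_lit 57873) (nat_lit 264) .nil)))))) (.g (nat_lit 0) .nil .nil))))) (.nd (nat_lit 4) (.nd (nat_lit 5) 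
(.lf (nat_lit 36491) (.g (nat_lit 2746) (.e (nat_lit 1219) (nat_lit 90) (.e (nat_lit 81935) (nat_lit 20) (.e (nat_lit 1994) (nat_lit 137) (.e (nat_lit 663567) (nat_lit 4) (.e (nat_lit 65604) (nat_lit 9) (.e (nat_lit 335997) (nat_lit 1) (.e (nat_lit 57871) (nat_lit 264) .nil))))))) (.g (nat_lit 7) .nil .nil))) 
(.lf (nat_lit 36523) (.g (nat_lit 2512) (.e (nat_lit 1219) (nat_lit 90) (.e (nat_lit 81935) (nat_lit 20) (.e (nat_lit 1998) (nat_lit 137) (.e (nat_lit 663569) (nat_lit 6) (.e (nat_lit 81948) (nat_lit 21) (.e (nat_lit 57873) (nat_lit 264) .nil)))))) (.g (nat_lit 0) .nil .nil)))) (.nd (nat_lit 5) 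
(.lf (nat_lit 36507) (.g (nat_lit 326) (.e (nat_lit 1219) (nat_lit 90) (.e (nat_lit 81935) (nat_lit 20) (.e (nat_lit 1998) (nat_lit 137) .nil))) .nil)) 
(.lf (nat_lit 36539) (.g (nat_lit 1815) (.e (nat_lit 1219) (nat_lit 90) (.e (nat_lit 81943) (nat_lit 20) (.e (nat_lit 2003) (nat_lit 138) (.e (nat_lit 671747) (nat_lit 0) (.e (nat_lit 1595) (nat_lit 111) (.e (nat_lit 368384) (nat_lit 0) (.e (nat_lit 5905) (nat_lit 320) .nil))))))) (.g (nat_lit 5) .nil .nil)))))) (.nd (nat_lit 3) (.nd (nat_lit 4) (.nd (nat_lit 5) 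
(.lf (nat_lit 36487) (.g (nat_lit 443) (.e (nat_lit 1219) (nat_lit 90) (.e (nat_lit 81935) (nat_lit 20) (.e (nat_lit 1879) (nat_lit 126) .nil))) .nil)) 
(.lf (nat_lit 36519) (.g (nat_lit 2624) (.e (nat_lit 1219) (nat_lit 90) (.e (nat_lit 81935) (nat_lit 20) (.e (nat_lit 1998) (nat_lit 137) (.e (nat_lit 663567) (nat_lit 4) (.e (nat_lit 65598) (nat_lit 9) (.e (nat_lit 335997) (nat_lit 1) (.e (nat_lit 57871) (nat_lit 264) .nil))))))) (.g (nat_lit 7) .nil .nil)))) (.nd (nat_lit 5) 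
(.lf (nat_lit 36503) (.g (nat_lit 2897) (.e (nat_lit 1219) (nat_lit 90) (.e (nat_lit 81935) (nat_lit 20) (.e (nat_lit 1996) (nat_lit 137) (.e (nat_lit 663567) (nat_lit 4) (.e (nat_lit 65610) (nat_lit 10) (.e (nat_lit 344097) (nat_lit 18) (.e (nat_lit 5906) (nat_lit 320) .nil))))))) (.g (nat_lit 6) .nil .nil))) 
(.lf (nat_lit 36535) (.g (nat_lit 1872) (.e (nat_lit 1219) (nat_lit 90) (.e (nat_lit 81943) (nat_lit 20) (.e (nat_lit 1886) (nat_lit 127) (.e (nat_lit 581636) (nat_lit 0) (.e (nat_lit 3027) (nat_lit 187) (.e (nat_lit 450564) (nat_lit 0) (.e (nat_lit 6792) (nat_lit 365) .nil))))))) (.g (nat_lit 6) .nil .nil))))) (.nd (nat_lit 4) (.nd (nat_lit 5) 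
(.lf (nat_lit 36495) (.g (nat_lit 2863) (.e (nat_lit 1219) (nat_lit 90) (.e (nat_lit 81935) (nat_lit 20) (.e (nat_lit 1994) (nat_lit 137) (.e (nat_lit 663567) (nat_lit 4) (.e (nat_lit 65619) (nat_lit 10) (.e (nat_lit 344097) (nat_lit 18) (.e (nat_lit 5906) (nat_lit 320) .nil))))))) (.g (nat_lit 7) .nil .nil))) 
(.lf (nat_lit 36527) (.g (nat_lit 3121) (.e (nat_lit 1219) (nat_lit 90) (.e (nat_lit 81935) (nat_lit 20) (.e (nat_lit 1999) (nat_lit 137) (.e (nat_lit 663567) (nat_lit 4) (.e (nat_lit 65610) (nat_lit 10) (.e (nat_lit 344097) (nat_lit 18) (.e (nat_lit 5905) (nat_lit 320) .nil))))))) (.g (nat_lit 7) .nil .nil)))) (.nd (nat_lit 5) 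
(.lf (nat_lit 36511) (.g (nat_lit 2097) (.e (nat_lit 1219) (nat_lit 90) (.e (nat_lit 81935) (nat_lit 20) (.e (nat_lit 1998) (nat_lit 137) (.e (nat_lit 663554) (nat_lit 0) (.e (nat_lit 1586) (nat_lit 111) (.e (nat_lit 368384) (nat_lit 0) (.e (nat_lit 5905) (nat_lit 320) .nil))))))) (.g (nat_lit 5) .nil .nil))) 
(.lf (nat_lit 36543) (.g (nat_lit 2518) (.e (nat_lit 1219) (nat_lit 90) (.e (nat_lit 81943) (nat_lit 20) (.e (nat_lit 2003) (nat_lit 138) (.e (nat_lit 671762) (nat_lit 4) (.e (nat_lit 65604) (nat_lit 9) (.e (nat_lit 335997) (nat_lit 1) (.e (nat_lit 57871) (nat_lit 264) .nil))))))) (.g (nat_lit 0) .nil .nil)))))))))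

noncomputable def tv509 : DT := (.nd (nat_lit 0) (.nd (nat_lit 1) (.nd (nat_lit 2) (.nd (nat_lit 3) (.nd (nat_lit 4) (.nd (nat_lit 5) 
(.lf (nat_lit 36544) (.g (nat_lit 3086) (.e (nat_lit 1219) (nat_lit 90) (.e (nat_lit 81943) (nat_lit 20) (.e (nat_lit 2003) (nat_lit 138) (.e (nat_lit 671762) (nat_lit 4) (.e (nat_lit 65610) (nat_lit 10) (.e (nat_lit 344097) (nat_lit 18) (.e (nat_lit 5905) (nat_lit 320) .nil))))))) (.g (nat_lit 0) .nil .nil))) 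
(.lf (nat_lit 36576) (.g (nat_lit 3109) (.e (nat_lit 1219) (nat_lit 90) (.e (nat_lit 81943) (nat_lit 20) (.e (nat_lit 2005) (nat_lit 138) (.e (nat_lit 671748) (nat_lit 0) (.e (nat_lit 1595) (nat_lit 111) (.e (nat_lit 360453) (nat_lit 0) (.e (nat_lit 5907) (nat_lit 320) .nil))))))) (.g (nat_lit 0) .nil .nil)))) (.nd (nat_lit 5) 
(.lf (nat_lit 36560) (.g (nat_lit 1278) (.e (nat_lit 1219) (nat_lit 90) (.e (nat_lit 81943) (nat_lit 20) (.e (nat_lit 2004) (nat_lit 138) (.e (nat_lit 671748) (nat_lit 0) (.e (nat_lit 1599) (nat_lit 111) (.e (nat_lit 368384) (nat_lit 0) (.e (nat_lit 5902) (nat_lit 320) .nil))))))) (.g (nat_lit 4) .nil .nil))) 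
(.lf (nat_lit 36592) (.g (nat_lit 1770) (.e (nat_lit 1219) (nat_lit 90) (.e (nat_lit 81943) (nat_lit 20) (.e (nat_lit 2005) (nat_lit 138) (.e (nat_lit 671764) (nat_lit 6) (.e (nat_lit 81950) (nat_lit 21) (.e (nat_lit 57870) (nat_lit 264) .nil)))))) (.g (nat_lit 0) .nil .nil))))) (.nd (nat_lit 4) (.nd (nat_lit 5) 
(.lf (nat_lit 36552) (.g (nat_lit 1090) (.e (nat_lit 1219) (nat_lit 90) (.e (nat_lit 81943) (nat_lit 20) (.e (nat_lit 2004) (nat_lit 138) (.e (nat_lit 671747) (nat_lit 0) (.e (nat_lit 1592) (nat_lit 111) (.e (nat_lit 368384) (nat_lit 0) (.e (nat_lit 5906) (nat_lit 320) .nil))))))) (.g (nat_lit 5) .nil .nil))) 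
(.lf (nat_lit 36584) (.g (nat_lit 2594) (.e (nat_lit 1219) (nat_lit 90) (.e (nat_lit 81943) (nat_lit 20) (.e (nat_lit 2005) (nat_lit 138) (.e (nat_lit 671762) (nat_lit 4) (.e (nat_lit 65598) (nat_lit 9) (.e (nat_lit 335997) (nat_lit 1) (.e (nat_lit 57871) (nat_lit 264) .nil))))))) (.g (nat_lit 6) .nil .nil)))) (.nd (nat_lit 5) 
(.lf (nat_lit 36568) (.g (nat_lit 3312) (.e (nat_lit 1219) (nat_lit 90) (.e (nat_lit 81943) (nat_lit 20) (.e (nat_lit 2004) (nat_lit 138) (.e (nat_lit 671762) (nat_lit 4) (.e (nat_lit 65619) (nat_lit 10) (.e (nat_lit 344097) (nat_lit 18) (.e (nat_lit 5907) (nat_lit 320) .nil))))))) (.g (nat_lit 0) .nil .nil))) 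
(.lf (nat_lit 36600) (.g (nat_lit 1831) (.e (nat_lit 1219) (nat_lit 90) (.e (nat_lit 81943) (nat_lit 20) (.e (nat_lit 2006) (nat_lit 138) (.e (nat_lit 671748) (nat_lit 0) (.e (nat_lit 1595) (nat_lit 111) (.e (nat_lit 368384) (nat_lit 0) (.e (nat_lit 5902) (nat_lit 320) .nil))))))) (.g (nat_lit 5) .nil .nil)))))) (.nd (nat_lit 3) (.nd (nat_lit 4) (.nd (nat_lit 5) 
(.lf (nat_lit 36548) (.g (nat_lit 1657) (.e (nat_lit 1219) (nat_lit 90) (.e (nat_lit 81943) (nat_lit 20) (.e (nat_lit 2003) (nat_lit 138) (.e (nat_lit 671764) (nat_lit 6) (.e (nat_lit 81948) (nat_lit 21) (.e (nat_lit 57870) (nat_lit 264) .nil)))))) (.g (nat_lit 0) .nil .nil))) 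
(.lf (nat_lit 36580) (.g (nat_lit 1262) (.e (nat_lit 1219) (nat_lit 90) (.e (nat_lit 81943) (nat_lit 20) (.e (nat_lit 2005) (nat_lit 138) (.e (nat_lit 671748) (nat_lit 0) (.e (nat_lit 1598) (nat_lit 111) (.e (nat_lit 368384) (nat_lit 0) (.e (nat_lit 5906) (nat_lit 320) .nil))))))) (.g (nat_lit 5) .nil .nil)))) (.nd (nat_lit 5) 
(.lf (nat_lit 36564) (.g (nat_lit 2525) (.e (nat_lit 1219) (nat_lit 90) (.e (nat_lit 81943) (nat_lit 20) (.e (nat_lit 2004) (nat_lit 138) (.e (nat_lit 671762) (nat_lit 4) (.e (nat_lit 65604) (nat_lit 9) (.e (nat_lit 335997) (nat_lit 1) (.e (nat_lit 57871) (nat_lit 264) .nil))))))) (.g (nat_lit 0) .nil .nil))) 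
(.lf (nat_lit 36596) (.g (nat_lit 1987) (.e (nat_lit 1219) (nat_lit 90) (.e (nat_lit 81943) (nat_lit 20) (.e (nat_lit 2006) (nat_lit 138) (.e (nat_lit 671748) (nat_lit 0) (.e (nat_lit 1589) (nat_lit 111) (.e (nat_lit 368384) (nat_lit 0) (.e (nat_lit 5902) (nat_lit 320) .nil))))))) (.g (nat_lit 5) .nil .nil))))) (.nd (nat_lit 4) (.nd (nat_lit 5) 
(.lf (nat_lit 36556) (.g (nat_lit 1656) (.e (nat_lit 1219) (nat_lit 90) (.e (nat_lit 81943) (nat_lit 20) (.e (nat_lit 2004) (nat_lit 138) (.e (nat_lit 671748) (nat_lit 0) (.e (nat_lit 1589) (nat_lit 111) (.e (nat_lit 368384) (nat_lit 0) (.e (nat_lit 5906) (nat_lit 320) .nil))))))) (.g (nat_lit 5) .nil .nil))) 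
(.lf (nat_lit 36588) (.g (nat_lit 3050) (.e (nat_lit 1219) (nat_lit 90) (.e (nat_lit 81943) (nat_lit 20) (.e (nat_lit 2005) (nat_lit 138) (.e (nat_lit 671762) (nat_lit 4) (.e (nat_lit 65619) (nat_lit 10) (.e (nat_lit 344097) (nat_lit 18) (.e (nat_lit 5905) (nat_lit 320) .nil))))))) (.g (nat_lit 0) .nil .nil)))) (.nd (nat_lit 5) 
(.lf (nat_lit 36572) (.g (nat_lit 1622) (.e (nat_lit 1219) (nat_lit 90) (.e (nat_lit 81943) (nat_lit 20) (.e (nat_lit 2005) (nat_lit 138) (.e (nat_lit 671747) (nat_lit 0) (.e (nat_lit 1595) (nat_lit 111) (.e (nat_lit 368384) (nat_lit 0) (.e (nat_lit 5905) (nat_lit 320) .nil))))))) (.g (nat_lit 5) .nil .nil))) 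
(.lf (nat_lit 36604) (.g (nat_lit 1531) (.e (nat_lit 1219) (nat_lit 90) (.e (nat_lit 81943) (nat_lit 20) (.e (nat_lit 2006) (nat_lit 138) (.e (nat_lit 671748) (nat_lit 0) (.e (nat_lit 1599) (nat_lit 111) (.e (nat_lit 368384) (nat_lit 0) (.e (nat_lit 5902) (nat_lit 320) .nil))))))) (.g (nat_lit 5) .nil .nil))))))) (.nd (nat_lit 2) (.nd (nat_lit 3) (.nd (nat_lit 4) (.nd (nat_lit 5) 
(.lf (nat_lit 36546) (.g (nat_lit 2997) (.e (nat_lit 1219) (nat_lit 90) (.e (nat_lit 81943) (nat_lit 20) (.e (nat_lit 2003) (nat_lit 138) (.e (nat_lit 671762) (nat_lit 4) (.e (nat_lit 65619) (nat_lit 10) (.e (nat_lit 344097) (nat_lit 18) (.e (nat_lit 5905) (nat_lit 320) .nil))))))) (.g (nat_lit 0) .nil .nil))) 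
(.lf (nat_lit 36578) (.g (nat_lit 1432) (.e (nat_lit 1219) (nat_lit 90) (.e (nat_lit 81943) (nat_lit 20) (.e (nat_lit 2005) (nat_lit 138) (.e (nat_lit 671748) (nat_lit 0) (.e (nat_lit 1595) (nat_lit 111) (.e (nat_lit 368384) (nat_lit 0) (.e (nat_lit 5906) (nat_lit 320) .nil))))))) (.g (nat_lit 5) .nil .nil)))) (.nd (nat_lit 5) 
(.lf (nat_lit 36562) (.g (nat_lit 2593) (.e (nat_lit 1219) (nat_lit 90) (.e (nat_lit 81943) (nat_lit 20) (.e (nat_lit 2004) (nat_lit 138) (.e (nat_lit 671762) (nat_lit 4) (.e (nat_lit 65598) (nat_lit 9) (.e (nat_lit 335997) (nat_lit 1) (.e (nat_lit 57870) (nat_lit 264) .nil))))))) (.g (nat_lit 6) .nil .nil))) 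
(.lf (nat_lit 36594) (.g (nat_lit 2106) (.e (nat_lit 1219) (nat_lit 90) (.e (nat_lit 81943) (nat_lit 20) (.e (nat_lit 2006) (nat_lit 138) (.e (nat_lit 671748) (nat_lit 0) (.e (nat_lit 1586) (nat_lit 111) (.e (nat_lit 368384) (nat_lit 0) (.e (nat_lit 5902) (nat_lit 320) .nil))))))) (.g (nat_lit 5) .nil .nil))))) (.nd (nat_lit 4) (.nd (nat_lit 5) 
(.lf (nat_lit 36554) (.g (nat_lit 1700) (.e (nat_lit 1219) (nat_lit 90) (.e (nat_lit 81943) (nat_lit 20) (.e (nat_lit 2004) (nat_lit 138) (.e (nat_lit 671748) (nat_lit 0) (.e (nat_lit 1586) (nat_lit 111) (.e (nat_lit 368384) (nat_lit 0) (.e (nat_lit 5906) (nat_lit 320) .nil))))))) (.g (nat_lit 5) .nil .nil))) 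
(.lf (nat_lit 36586) (.g (nat_lit 3245) (.e (nat_lit 1219) (nat_lit 90) (.e (nat_lit 81943) (nat_lit 20) (.e (nat_lit 2005) (nat_lit 138) (.e (nat_lit 671762) (nat_lit 4) (.e (nat_lit 65610) (nat_lit 10) (.e (nat_lit 344097) (nat_lit 18) (.e (nat_lit 5905) (nat_lit 320) .nil))))))) (.g (nat_lit 0) .nil .nil)))) (.nd (nat_lit 5) 
(.lf (nat_lit 36570) (.g (nat_lit 1655) (.e (nat_lit 1219) (nat_lit 90) (.e (nat_lit 81943) (nat_lit 20) (.e (nat_lit 2004) (nat_lit 138) (.e (nat_lit 671764) (nat_lit 6) (.e (nat_lit 81950) (nat_lit 21) (.e (nat_lit 57871) (nat_lit 264) .nil)))))) (.g (nat_lit 0) .nil .nil))) 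
(.lf (nat_lit 36602) (.g (nat_lit 1655) (.e (nat_lit 1219) (nat_lit 90) (.e (nat_lit 81943) (nat_lit 20) (.e (nat_lit 2006) (nat_lit 138) (.e (nat_lit 671748) (nat_lit 0) (.e (nat_lit 1598) (nat_lit 111) (.e (nat_lit 368384) (nat_lit 0) (.e (nat_lit 5902) (nat_lit 320) .nil))))))) (.g (nat_lit 5) .nil .nil)))))) (.nd (nat_lit 3) (.nd (nat_lit 4) (.nd (nat_lit 5) 
(.lf (nat_lit 36550) (.g (nat_lit 1716) (.e (nat_lit 1219) (nat_lit 90) (.e (nat_lit 81943) (nat_lit 20) (.e (nat_lit 2003) (nat_lit 138) (.e (nat_lit 671764) (nat_lit 6) (.e (nat_lit 81950) (nat_lit 21) (.e (nat_lit 57871) (nat_lit 264) .nil)))))) (.g (nat_lit 0) .nil .nil))) 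
(.lf (nat_lit 36582) (.g (nat_lit 1168) (.e (nat_lit 1219) (nat_lit 90) (.e (nat_lit 81943) (nat_lit 20) (.e (nat_lit 2005) (nat_lit 138) (.e (nat_lit 671748) (nat_lit 0) (.e (nat_lit 1599) (nat_lit 111) (.e (nat_lit 368384) (nat_lit 0) (.e (nat_lit 5906) (nat_lit 320) .nil))))))) (.g (nat_lit 5) .nil .nil)))) (.nd (nat_lit 5) 
(.lf (nat_lit 36566) (.g (nat_lit 3425) (.e (nat_lit 1219) (nat_lit 90) (.e (nat_lit 81943) (nat_lit 20) (.e (nat_lit 2004) (nat_lit 138) (.e (nat_lit 671762) (nat_lit 4) (.e (nat_lit 65610) (nat_lit 10) (.e (nat_lit 344097) (nat_lit 18) (.e (nat_lit 5907) (nat_lit 320) .nil))))))) (.g (nat_lit 0) .nil .nil))) 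
(.lf (nat_lit 36598) (.g (nat_lit 1084) (.e (nat_lit 1219) (nat_lit 90) (.e (nat_lit 81943) (nat_lit 20) (.e (nat_lit 2006) (nat_lit 138) (.e (nat_lit 671748) (nat_lit 0) (.e (nat_lit 1592) (nat_lit 111) .nil))))) .nil)))) (.nd (nat_lit 4) (.nd (nat_lit 5) 
(.lf (nat_lit 36558) (.g (nat_lit 3294) (.e (nat_lit 1219) (nat_lit 90) (.e (nat_lit 81943) (nat_lit 20) (.e (nat_lit 2004) (nat_lit 138) (.e (nat_lit 671748) (nat_lit 0) (.e (nat_lit 1598) (nat_lit 111) (.e (nat_lit 360452) (nat_lit 0) (.e (nat_lit 5907) (nat_lit 320) .nil))))))) (.g (nat_lit 0) .nil .nil))) 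
(.lf (nat_lit 36590) (.g (nat_lit 1650) (.e (nat_lit 1219) (nat_lit 90) (.e (nat_lit 81943) (nat_lit 20) (.e (nat_lit 2005) (nat_lit 138) (.e (nat_lit 671764) (nat_lit 6) (.e (nat_lit 81948) (nat_lit 21) (.e (nat_lit 57870) (nat_lit 264) .nil)))))) (.g (nat_lit 0) .nil .nil)))) (.nd (nat_lit 5) 
(.lf (nat_lit 36574) (.g (nat_lit 1729) (.e (nat_lit 1219) (nat_lit 90) (.e (nat_lit 81943) (nat_lit 20) (.e (nat_lit 2005) (nat_lit 138) (.e (nat_lit 671748) (nat_lit 0) (.e (nat_lit 1589) (nat_lit 111) (.e (nat_lit 368384) (nat_lit 0) (.e (nat_lit 5902) (nat_lit 320) .nil))))))) (.g (nat_lit 5) .nil .nil))) 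
(.lf (nat_lit 36606) (.g (nat_lit 2838) (.e (nat_lit 1219) (nat_lit 90) (.e (nat_lit 81943) (nat_lit 20) (.e (nat_lit 2006) (nat_lit 138) (.e (nat_lit 671762) (nat_lit 4) (.e (nat_lit 65598) (nat_lit 9) (.e (nat_lit 335997) (nat_lit 1) (.e (nat_lit 57871) (nat_lit 264) .nil))))))) (.g (nat_lit 6) .nil .nil)))))))) 
(.nd (nat_lit 1) (.nd (nat_lit 2) (.nd (nat_lit 3) (.nd (nat_lit 4) (.nd (nat_lit 5) 
(.lf (nat_lit 36545) (.g (nat_lit 3409) (.e (nat_lit 1219) (nat_lit 90) (.e (nat_lit 81943) (nat_lit 20) (.e (nat_lit 2003) (nat_lit 138) (.e (nat_lit 671762) (nat_lit 4) (.e (nat_lit 65610) (nat_lit 10) (.e (nat_lit 344097) (nat_lit 18) (.e (nat_lit 5907) (nat_lit 320) .nil))))))) (.g (nat_lit 0) .nil .nil))) 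
(.lf (nat_lit 36577) (.g (nat_lit 1583) (.e (nat_lit 1219) (nat_lit 90) (.e (nat_lit 81943) (nat_lit 20) (.e (nat_lit 2005) (nat_lit 138) (.e (nat_lit 671748) (nat_lit 0) (.e (nat_lit 1595) (nat_lit 111) (.e (nat_lit 368384) (nat_lit 0) (.e (nat_lit 5902) (nat_lit 320) .nil))))))) (.g (nat_lit 5) .nil .nil)))) (.nd (nat_lit 5) 
(.lf (nat_lit 36561) (.g (nat_lit 1175) (.e (nat_lit 1219) (nat_lit 90) (.e (nat_lit 81943) (nat_lit 20) (.e (nat_lit 2004) (nat_lit 138) (.e (nat_lit 671748) (nat_lit 0) (.e (nat_lit 1599) (nat_lit 111) (.e (nat_lit 368384) (nat_lit 0) (.e (nat_lit 5906) (nat_lit 320) .nil))))))) (.g (nat_lit 4) .nil .nil))) 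
(.lf (nat_lit 36593) (.g (nat_lit 1689) (.e (nat_lit 1219) (nat_lit 90) (.e (nat_lit 81943) (nat_lit 20) (.e (nat_lit 2005) (nat_lit 138) (.e (nat_lit 671764) (nat_lit 6) (.e (nat_lit 81950) (nat_lit 21) (.e (nat_lit 57871) (nat_lit 264) .nil)))))) (.g (nat_lit 0) .nil .nil))))) (.nd (nat_lit 4) (.nd (nat_lit 5) 
(.lf (nat_lit 36553) (.g (nat_lit 1737) (.e (nat_lit 1219) (nat_lit 90) (.e (nat_lit 81943) (nat_lit 20) (.e (nat_lit 2004) (nat_lit 138) (.e (nat_lit 671748) (nat_lit 0) (.e (nat_lit 1586) (nat_lit 111) (.e (nat_lit 368384) (nat_lit 0) (.e (nat_lit 5902) (nat_lit 320) .nil))))))) (.g (nat_lit 5) .nil .nil))) 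
(.lf (nat_lit 36585) (.g (nat_lit 2588) (.e (nat_lit 1219) (nat_lit 90) (.e (nat_lit 81943) (nat_lit 20) (.e (nat_lit 2005) (nat_lit 138) (.e (nat_lit 671762) (nat_lit 4) (.e (nat_lit 65604) (nat_lit 9) (.e (nat_lit 335997) (nat_lit 1) (.e (nat_lit 57871) (nat_lit 264) .nil))))))) (.g (nat_lit 0) .nil .nil)))) (.nd (nat_lit 5) 
(.lf (nat_lit 36569) (.g (nat_lit 1502) (.e (nat_lit 1219) (nat_lit 90) (.e (nat_lit 81943) (nat_lit 20) (.e (nat_lit 2004) (nat_lit 138) (.e (nat_lit 671764) (nat_lit 6) (.e (nat_lit 81948) (nat_lit 21) (.e (nat_lit 57871) (nat_lit 264) .nil)))))) (.g (nat_lit 0) .nil .nil))) 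
(.lf (nat_lit 36601) (.g (nat_lit 1668) (.e (nat_lit 1219) (nat_lit 90) (.e (nat_lit 81943) (nat_lit 20) (.e (nat_lit 2006) (nat_lit 138) (.e (nat_lit 671748) (nat_lit 0) (.e (nat_lit 1595) (nat_lit 111) (.e (nat_lit 368384) (nat_lit 0) (.e (nat_lit 5906) (nat_lit 320) .nil))))))) (.g (nat_lit 5) .nil .nil)))))) (.nd (nat_lit 3) (.nd (nat_lit 4) (.nd (nat_lit 5) 
(.lf (nat_lit 36549) (.g (nat_lit 1561) (.e (nat_lit 1219) (nat_lit 90) (.e (nat_lit 81943) (nat_lit 20) (.e (nat_lit 2003) (nat_lit 138) (.e (nat_lit 671764) (nat_lit 6) (.e (nat_lit 81948) (nat_lit 21) (.e (nat_lit 57871) (nat_lit 264) .nil)))))) (.g (nat_lit 0) .nil .nil))) 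
(.lf (nat_lit 36581) (.g (nat_lit 1271) (.e (nat_lit 1219) (nat_lit 90) (.e (nat_lit 81943) (nat_lit 20) (.e (nat_lit 2005) (nat_lit 138) (.e (nat_lit 671748) (nat_lit 0) (.e (nat_lit 1599) (nat_lit 111) (.e (nat_lit 368384) (nat_lit 0) (.e (nat_lit 5902) (nat_lit 320) .nil))))))) (.g (nat_lit 5) .nil .nil)))) (.nd (nat_lit 5) 
(.lf (nat_lit 36565) (.g (nat_lit 3105) (.e (nat_lit 1219) (nat_lit 90) (.e (nat_lit 81943) (nat_lit 20) (.e (nat_lit 2004) (nat_lit 138) (.e (nat_lit 671762) (nat_lit 4) (.e (nat_lit 65610) (nat_lit 10) (.e (nat_lit 344097) (nat_lit 18) (.e (nat_lit 5905) (nat_lit 320) .nil))))))) (.g (nat_lit 0) .nil .nil))) 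
(.lf (nat_lit 36597) (.g (nat_lit 1874) (.e (nat_lit 1219) (nat_lit 90) (.e (nat_lit 81943) (nat_lit 20) (.e (nat_lit 2006) (nat_lit 138) (.e (nat_lit 671748) (nat_lit 0) (.e (nat_lit 1589) (nat_lit 111) (.e (nat_lit 368384) (nat_lit 0) (.e (nat_lit 5906) (nat_lit 320) .nil))))))) (.g (nat_lit 5) .nil .nil))))) (.nd (nat_lit 4) (.nd (nat_lit 5) 
(.lf (nat_lit 36557) (.g (nat_lit 1568) (.e (nat_lit 1219) (nat_lit 90) (.e (nat_lit 81943) (nat_lit 20) (.e (nat_lit 2004) (nat_lit 138) (.e (nat_lit 671748) (nat_lit 0) (.e (nat_lit 1595) (nat_lit 111) (.e (nat_lit 368384) (nat_lit 0) (.e (nat_lit 5902) (nat_lit 320) .nil))))))) (.g (nat_lit 5) .nil .nil))) 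
(.lf (nat_lit 36589) (.g (nat_lit 3371) (.e (nat_lit 1219) (nat_lit 90) (.e (nat_lit 81943) (nat_lit 20) (.e (nat_lit 2005) (nat_lit 138) (.e (nat_lit 671762) (nat_lit 4) (.e (nat_lit 65619) (nat_lit 10) (.e (nat_lit 344097) (nat_lit 18) (.e (nat_lit 5907) (nat_lit 320) .nil))))))) (.g (nat_lit 0) .nil .nil)))) (.nd (nat_lit 5) 
(.lf (nat_lit 36573) (.g (nat_lit 1762) (.e (nat_lit 1219) (nat_lit 90) (.e (nat_lit 81943) (nat_lit 20) (.e (nat_lit 2005) (nat_lit 138) (.e (nat_lit 671748) (nat_lit 0) (.e (nat_lit 1586) (nat_lit 111) (.e (nat_lit 368384) (nat_lit 0) (.e (nat_lit 5902) (nat_lit 320) .nil))))))) (.g (nat_lit 5) .nil .nil))) 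
(.lf (nat_lit 36605) (.g (nat_lit 1416) (.e (nat_lit 1219) (nat_lit 90) (.e (nat_lit 81943) (nat_lit 20) (.e (nat_lit 2006) (nat_lit 138) (.e (nat_lit 671748) (nat_lit 0) (.e (nat_lit 1599) (nat_lit 111) (.e (nat_lit 368384) (nat_lit 0) (.e (nat_lit 5906) (nat_lit 320) .nil))))))) (.g (nat_lit 5) .nil .nil))))))) (.nd (nat_lit 2) (.nd (nat_lit 3) (.nd (nat_lit 4) (.nd (nat_lit 5) 
(.lf (nat_lit 36547) (.g (nat_lit 3309) (.e (nat_lit 1219) (nat_lit 90) (.e (nat_lit 81943) (nat_lit 20) (.e (nat_lit 2003) (nat_lit 138) (.e (nat_lit 671762) (nat_lit 4) (.e (nat_lit 65619) (nat_lit 10) (.e (nat_lit 344097) (nat_lit 18) (.e (nat_lit 5907) (nat_lit 320) .nil))))))) (.g (nat_lit 0) .nil .nil))) 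
(.lf (nat_lit 36579) (.g (nat_lit 1406) (.e (nat_lit 1219) (nat_lit 90) (.e (nat_lit 81943) (nat_lit 20) (.e (nat_lit 2005) (nat_lit 138) (.e (nat_lit 671748) (nat_lit 0) (.e (nat_lit 1598) (nat_lit 111) (.e (nat_lit 368384) (nat_lit 0) (.e (nat_lit 5902) (nat_lit 320) .nil))))))) (.g (nat_lit 5) .nil .nil)))) (.nd (nat_lit 5) 
(.lf (nat_lit 36563) (.g (nat_lit 2519) (.e (nat_lit 1219) (nat_lit 90) (.e (nat_lit 81943) (nat_lit 20) (.e (nat_lit 2004) (nat_lit 138) (.e (nat_lit 671762) (nat_lit 4) (.e (nat_lit 65598) (nat_lit 9) (.e (nat_lit 335997) (nat_lit 1) (.e (nat_lit 57871) (nat_lit 264) .nil))))))) (.g (nat_lit 6) .nil .nil))) 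
(.lf (nat_lit 36595) (.g (nat_lit 3274) (.e (nat_lit 1219) (nat_lit 90) (.e (nat_lit 81943) (nat_lit 20) (.e (nat_lit 2006) (nat_lit 138) (.e (nat_lit 671748) (nat_lit 0) (.e (nat_lit 1589) (nat_lit 111) (.e (nat_lit 360453) (nat_lit 0) (.e (nat_lit 5907) (nat_lit 320) .nil))))))) (.g (nat_lit 0) .nil .nil))))) (.nd (nat_lit 4) (.nd (nat_lit 5) 
(.lf (nat_lit 36555) (.g (nat_lit 1757) (.e (nat_lit 1219) (nat_lit 90) (.e (nat_lit 81943) (nat_lit 20) (.e (nat_lit 2004) (nat_lit 138) (.e (nat_lit 671748) (nat_lit 0) (.e (nat_lit 1589) (nat_lit 111) (.e (nat_lit 368384) (nat_lit 0) (.e (nat_lit 5902) (nat_lit 320) .nil))))))) (.g (nat_lit 5) .nil .nil))) 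
(.lf (nat_lit 36587) (.g (nat_lit 3577) (.e (nat_lit 1219) (nat_lit 90) (.e (nat_lit 81943) (nat_lit 20) (.e (nat_lit 2005) (nat_lit 138) (.e (nat_lit 671762) (nat_lit 4) (.e (nat_lit 65610) (nat_lit 10) (.e (nat_lit 344097) (nat_lit 18) (.e (nat_lit 5907) (nat_lit 320) .nil))))))) (.g (nat_lit 0) .nil .nil)))) (.nd (nat_lit 5) 
(.lf (nat_lit 36571) (.g (nat_lit 1244) (.e (nat_lit 1219) (nat_lit 90) (.e (nat_lit 81943) (nat_lit 20) (.e (nat_lit 2005) (nat_lit 138) (.e (nat_lit 671747) (nat_lit 0) (.e (nat_lit 1586) (nat_lit 111) (.e (nat_lit 368384) (nat_lit 0) (.e (nat_lit 5902) (nat_lit 320) .nil))))))) (.g (nat_lit 4) .nil .nil))) 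
(.lf (nat_lit 36603) (.g (nat_lit 1499) (.e (nat_lit 1219) (nat_lit 90) (.e (nat_lit 81943) (nat_lit 20) (.e (nat_lit 2006) (nat_lit 138) (.e (nat_lit 671748) (nat_lit 0) (.e (nat_lit 1598) (nat_lit 111) (.e (nat_lit 368384) (nat_lit 0) (.e (nat_lit 5906) (nat_lit 320) .nil))))))) (.g (nat_lit 5) .nil .nil)))))) (.nd (nat_lit 3) (.nd (nat_lit 4) (.nd (nat_lit 5) 
(.lf (nat_lit 36551) (.g (nat_lit 1524) (.e (nat_lit 1219) (nat_lit 90) (.e (nat_lit 81943) (nat_lit 20) (.e (nat_lit 2004) (nat_lit 138) (.e (nat_lit 671747) (nat_lit 0) (.e (nat_lit 1586) (nat_lit 111) (.e (nat_lit 368384) (nat_lit 0) (.e (nat_lit 5905) (nat_lit 320) .nil))))))) (.g (nat_lit 5) .nil .nil))) 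
(.lf (nat_lit 36583) (.g (nat_lit 2668) (.e (nat_lit 1219) (nat_lit 90) (.e (nat_lit 81943) (nat_lit 20) (.e (nat_lit 2005) (nat_lit 138) (.e (nat_lit 671762) (nat_lit 4) (.e (nat_lit 65598) (nat_lit 9) (.e (nat_lit 335997) (nat_lit 1) (.e (nat_lit 57870) (nat_lit 264) .nil))))))) (.g (nat_lit 6) .nil .nil)))) (.nd (nat_lit 5) 
(.lf (nat_lit 36567) (.g (nat_lit 3003) (.e (nat_lit 1219) (nat_lit 90) (.e (nat_lit 81943) (nat_lit 20) (.e (nat_lit 2004) (nat_lit 138) (.e (nat_lit 671762) (nat_lit 4) (.e (nat_lit 65619) (nat_lit 10) (.e (nat_lit 344097) (nat_lit 18) (.e (nat_lit 5905) (nat_lit 320) .nil))))))) (.g (nat_lit 0) .nil .nil))) 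
(.lf (nat_lit 36599) (.g (nat_lit 3397) (.e (nat_lit 1219) (nat_lit 90) (.e (nat_lit 81943) (nat_lit 20) (.e (nat_lit 2006) (nat_lit 138) (.e (nat_lit 671748) (nat_lit 0) (.e (nat_lit 1595) (nat_lit 111) (.e (nat_lit 360453) (nat_lit 0) (.e (nat_lit 5907) (nat_lit 320) .nil))))))) (.g (nat_lit 0) .nil .nil))))) (.nd (nat_lit 4) (.nd (nat_lit 5) 
(.lf (nat_lit 36559) (.g (nat_lit 1361) (.e (nat_lit 1219) (nat_lit 90) (.e (nat_lit 81943) (nat_lit 20) (.e (nat_lit 2004) (nat_lit 138) (.e (nat_lit 671748) (nat_lit 0) (.e (nat_lit 1598) (nat_lit 111) (.e (nat_lit 368384) (nat_lit 0) (.e (nat_lit 5902) (nat_lit 320) .nil))))))) (.g (nat_lit 5) .nil .nil))) 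
(.lf (nat_lit 36591) (.g (nat_lit 1547) (.e (nat_lit 1219) (nat_lit 90) (.e (nat_lit 81943) (nat_lit 20) (.e (nat_lit 2005) (nat_lit 138) (.e (nat_lit 671764) (nat_lit 6) (.e (nat_lit 81948) (nat_lit 21) (.e (nat_lit 57871) (nat_lit 264) .nil)))))) (.g (nat_lit 0) .nil .nil)))) (.nd (nat_lit 5) 
(.lf (nat_lit 36575) (.g (nat_lit 1628) (.e (nat_lit 1219) (nat_lit 90) (.e (nat_lit 81943) (nat_lit 20) (.e (nat_lit 2005) (nat_lit 138) (.e (nat_lit 671748) (nat_lit 0) (.e (nat_lit 1589) (nat_lit 111) (.e (nat_lit 368384) (nat_lit 0) (.e (nat_lit 5906) (nat_lit 320) .nil))))))) (.g (nat_lit 5) .nil .nil))) 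
(.lf (nat_lit 36607) (.g (nat_lit 2858) (.e (nat_lit 1219) (nat_lit 90) (.e (nat_lit 81943) (nat_lit 20) (.e (nat_lit 2006) (nat_lit 138) (.e (nat_lit 671762) (nat_lit 4) (.e (nat_lit 65604) (nat_lit 9) (.e (nat_lit 335997) (nat_lit 1) (.e (nat_lit 57871) (nat_lit 264) .nil))))))) (.g (nat_lit 0) .nil .nil)))))))))

noncomputable def tv510 : DT := (.nd (nat_lit 0) (.nd (nat_lit 1) (.nd (nat_lit 2) (.nd (nat_lit 3) (.nd (nat_lit 4) (.nd (nat_lit 5) 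
(.lf (nat_lit 36608) (.g (nat_lit 3385) (.e (nat_lit 1219) (nat_lit 90) (.e (nat_lit 81943) (nat_lit 20) (.e (nat_lit 2006) (nat_lit 138) (.e (nat_lit 671762) (nat_lit 4) (.e (nat_lit 65610) (nat_lit 10) (.e (nat_lit 344097) (nat_lit 18) (.e (nat_lit 5905) (nat_lit 320) .nil))))))) (.g (nat_lit 0) .nil .nil))) 
(.lf (nat_lit 36640) (.g (nat_lit 1928) (.e (nat_lit 1219) (nat_lit 90) (.e (nat_lit 81946) (nat_lit 20) (.e (nat_lit 2006) (nat_lit 138) (.e (nat_lit 671748) (nat_lit 0) (.e (nat_lit 1586) (nat_lit 111) (.e (nat_lit 368384) (nat_lit 0) (.e (nat_lit 5902) (nat_lit 320) .nil))))))) (.g (nat_lit 4) .nil .nil)))) (.nd (nat_lit 5) 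
(.lf (nat_lit 36624) (.g (nat_lit 1209) (.e (nat_lit 1219) (nat_lit 90) (.e (nat_lit 81946) (nat_lit 20) (.e (nat_lit 2003) (nat_lit 138) (.e (nat_lit 671764) (nat_lit 6) (.e (nat_lit 81949) (nat_lit 21) .nil))))) .nil)) 
(.lf (nat_lit 36656) (.g (nat_lit 3132) (.e (nat_lit 1219) (nat_lit 90) (.e (nat_lit 81946) (nat_lit 20) (.e (nat_lit 2006) (nat_lit 138) (.e (nat_lit 671762) (nat_lit 4) (.e (nat_lit 65610) (nat_lit 10) (.e (nat_lit 344097) (nat_lit 18) (.e (nat_lit 5906) (nat_lit 320) .nil))))))) (.g (nat_lit 6) .nil .nil))))) (.nd (nat_lit 4) (.nd (nat_lit 5) 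
(.lf (nat_lit 36616) (.g (nat_lit 1584) (.e (nat_lit 1219) (nat_lit 90) (.e (nat_lit 81946) (nat_lit 20) (.e (nat_lit 2003) (nat_lit 138) (.e (nat_lit 671762) (nat_lit 4) (.e (nat_lit 65604) (nat_lit 9) (.e (nat_lit 335997) (nat_lit 1) (.e (nat_lit 57870) (nat_lit 264) .nil))))))) (.g (nat_lit 4) .nil .nil))) 
(.lf (nat_lit 36648) (.g (nat_lit 1500) (.e (nat_lit 1219) (nat_lit 90) (.e (nat_lit 81946) (nat_lit 20) (.e (nat_lit 2006) (nat_lit 138) (.e (nat_lit 671748) (nat_lit 0) (.e (nat_lit 1598) (nat_lit 111) (.e (nat_lit 368384) (nat_lit 0) (.e (nat_lit 5902) (nat_lit 320) .nil))))))) (.g (nat_lit 4) .nil .nil)))) (.nd (nat_lit 5) 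
(.lf (nat_lit 36632) (.g (nat_lit 1264) (.e (nat_lit 1219) (nat_lit 90) (.e (nat_lit 81946) (nat_lit 20) (.e (nat_lit 2005) (nat_lit 138) (.e (nat_lit 671748) (nat_lit 0) (.e (nat_lit 1598) (nat_lit 111) (.e (nat_lit 368384) (nat_lit 0) (.e (nat_lit 5902) (nat_lit 320) .nil))))))) (.g (nat_lit 4) .nil .nil))) 
(.lf (nat_lit 36664) (.g (nat_lit 1835) (.e (nat_lit 1219) (nat_lit 90) (.e (nat_lit 81947) (nat_lit 20) (.e (nat_lit 2003) (nat_lit 138) (.e (nat_lit 671747) (nat_lit 0) (.e (nat_lit 1598) (nat_lit 111) (.e (nat_lit 360452) (nat_lit 0) (.e (nat_lit 5907) (nat_lit 320) .nil))))))) (.g (nat_lit 4) .nil .nil)))))) (.nd (nat_lit 3) (.nd (nat_lit 4) (.nd (nat_lit 5) 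
(.lf (nat_lit 36612) (.g (nat_lit 1818) (.e (nat_lit 1219) (nat_lit 90) (.e (nat_lit 81943) (nat_lit 20) (.e (nat_lit 2006) (nat_lit 138) (.e (nat_lit 671764) (nat_lit 6) (.e (nat_lit 81948) (nat_lit 21) (.e (nat_lit 57871) (nat_lit 264) .nil)))))) (.g (nat_lit 0) .nil .nil))) 
(.lf (nat_lit 36644) (.g (nat_lit 1492) (.e (nat_lit 1219) (nat_lit 90) (.e (nat_lit 81946) (nat_lit 20) (.e (nat_lit 2006) (nat_lit 138) (.e (nat_lit 671748) (nat_lit 0) (.e (nat_lit 1592) (nat_lit 111) (.e (nat_lit 368384) (nat_lit 0) (.e (nat_lit 5906) (nat_lit 320) .nil))))))) (.g (nat_lit 4) .nil .nil)))) (.nd (nat_lit 5) 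
(.lf (nat_lit 36628) (.g (nat_lit 1587) (.e (nat_lit 1219) (nat_lit 90) (.e (nat_lit 81946) (nat_lit 20) (.e (nat_lit 2005) (nat_lit 138) (.e (nat_lit 671748) (nat_lit 0) (.e (nat_lit 1589) (nat_lit 111) (.e (nat_lit 368384) (nat_lit 0) (.e (nat_lit 5902) (nat_lit 320) .nil))))))) (.g (nat_lit 4) .nil .nil))) 
(.lf (nat_lit 36660) (.g (nat_lit 1802) (.e (nat_lit 1219) (nat_lit 90) (.e (nat_lit 81946) (nat_lit 20) (.e (nat_lit 2006) (nat_lit 138) (.e (nat_lit 671764) (nat_lit 6) (.e (nat_lit 81950) (nat_lit 21) (.e (nat_lit 57870) (nat_lit 264) .nil)))))) (.g (nat_lit 5) .nil .nil))))) (.nd (nat_lit 4) (.nd (nat_lit 5) 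
(.lf (nat_lit 36620) (.g (nat_lit 2840) (.e (nat_lit 1219) (nat_lit 90) (.e (nat_lit 81946) (nat_lit 20) (.e (nat_lit 2003) (nat_lit 138) (.e (nat_lit 671762) (nat_lit 4) (.e (nat_lit 65610) (nat_lit 10) (.e (nat_lit 344097) (nat_lit 18) (.e (nat_lit 5907) (nat_lit 320) .nil))))))) (.g (nat_lit 6) .nil .nil))) 
(.lf (nat_lit 36652) (.g (nat_lit 3258) (.e (nat_lit 1219) (nat_lit 90) (.e (nat_lit 81946) (nat_lit 20) (.e (nat_lit 2006) (nat_lit 138) (.e (nat_lit 671762) (nat_lit 4) (.e (nat_lit 65598) (nat_lit 9) (.e (nat_lit 335997) (nat_lit 1) (.e (nat_lit 57872) (nat_lit 264) .nil))))))) (.g (nat_lit 6) .nil .nil)))) (.nd (nat_lit 5) 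
(.lf (nat_lit 36636) (.g (nat_lit 2445) (.e (nat_lit 1219) (nat_lit 90) (.e (nat_lit 81946) (nat_lit 20) (.e (nat_lit 2005) (nat_lit 138) (.e (nat_lit 671762) (nat_lit 4) (.e (nat_lit 65604) (nat_lit 9) (.e (nat_lit 335997) (nat_lit 1) (.e (nat_lit 57871) (nat_lit 264) .nil))))))) (.g (nat_lit 6) .nil .nil))) 
(.lf (nat_lit 36668) (.g (nat_lit 2516) (.e (nat_lit 1219) (nat_lit 90) (.e (nat_lit 81947) (nat_lit 20) (.e (nat_lit 2003) (nat_lit 138) (.e (nat_lit 671762) (nat_lit 4) (.e (nat_lit 65610) (nat_lit 10) (.e (nat_lit 344097) (nat_lit 18) (.e (nat_lit 5906) (nat_lit 320) .nil))))))) (.g (nat_lit 6) .nil .nil))))))) (.nd (nat_lit 2) (.nd (nat_lit 3) (.nd (nat_lit 4) (.nd (nat_lit 5) 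
(.lf (nat_lit 36610) (.g (nat_lit 3282) (.e (nat_lit 1219) (nat_lit 90) (.e (nat_lit 81943) (nat_lit 20) (.e (nat_lit 2006) (nat_lit 138) (.e (nat_lit 671762) (nat_lit 4) (.e (nat_lit 65619) (nat_lit 10) (.e (nat_lit 344097) (nat_lit 18) (.e (nat_lit 5905) (nat_lit 320) .nil))))))) (.g (nat_lit 0) .nil .nil))) 
(.lf (nat_lit 36642) (.g (nat_lit 1811) (.e (nat_lit 1219) (nat_lit 90) (.e (nat_lit 81946) (nat_lit 20) (.e (nat_lit 2006) (nat_lit 138) (.e (nat_lit 671748) (nat_lit 0) (.e (nat_lit 1589) (nat_lit 111) (.e (nat_lit 368384) (nat_lit 0) (.e (nat_lit 5902) (nat_lit 320) .nil))))))) (.g (nat_lit 4) .nil .nil)))) (.nd (nat_lit 5) 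
(.lf (nat_lit 36626) (.g (nat_lit 1463) (.e (nat_lit 1219) (nat_lit 90) (.e (nat_lit 81946) (nat_lit 20) (.e (nat_lit 2005) (nat_lit 138) (.e (nat_lit 671744) (nat_lit 0) (.e (nat_lit 1615) (nat_lit 113) (.e (nat_lit 376859) (nat_lit 21) (.e (nat_lit 57870) (nat_lit 264) .nil))))))) (.g (nat_lit 4) .nil .nil))) 
(.lf (nat_lit 36658) (.g (nat_lit 1722) (.e (nat_lit 1219) (nat_lit 90) (.e (nat_lit 81946) (nat_lit 20) (.e (nat_lit 2006) (nat_lit 138) (.e (nat_lit 671764) (nat_lit 6) (.e (nat_lit 81948) (nat_lit 21) (.e (nat_lit 57870) (nat_lit 264) .nil)))))) (.g (nat_lit 5) .nil .nil))))) (.nd (nat_lit 4) (.nd (nat_lit 5) 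
(.lf (nat_lit 36618) (.g (nat_lit 2087) (.e (nat_lit 1219) (nat_lit 90) (.e (nat_lit 81946) (nat_lit 20) (.e (nat_lit 2003) (nat_lit 138) (.e (nat_lit 671762) (nat_lit 4) (.e (nat_lit 65604) (nat_lit 9) (.e (nat_lit 335997) (nat_lit 1) (.e (nat_lit 57872) (nat_lit 264) .nil))))))) (.g (nat_lit 5) .nil .nil))) 
(.lf (nat_lit 36650) (.g (nat_lit 1359) (.e (nat_lit 1219) (nat_lit 90) (.e (nat_lit 81946) (nat_lit 20) (.e (nat_lit 2006) (nat_lit 138) (.e (nat_lit 671748) (nat_lit 0) (.e (nat_lit 1599) (nat_lit 111) (.e (nat_lit 368384) (nat_lit 0) (.e (nat_lit 5902) (nat_lit 320) .nil))))))) (.g (nat_lit 4) .nil .nil)))) (.nd (nat_lit 5) 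
(.lf (nat_lit 36634) (.g (nat_lit 3069) (.e (nat_lit 1219) (nat_lit 90) (.e (nat_lit 81946) (nat_lit 20) (.e (nat_lit 2005) (nat_lit 138) (.e (nat_lit 671762) (nat_lit 4) (.e (nat_lit 65598) (nat_lit 9) (.e (nat_lit 335997) (nat_lit 1) (.e (nat_lit 57872) (nat_lit 264) .nil))))))) (.g (nat_lit 6) .nil .nil))) 
(.lf (nat_lit 36666) (.g (nat_lit 2001) (.e (nat_lit 1219) (nat_lit 90) (.e (nat_lit 81947) (nat_lit 20) (.e (nat_lit 2003) (nat_lit 138) (.e (nat_lit 671762) (nat_lit 4) (.e (nat_lit 65604) (nat_lit 9) (.e (nat_lit 335997) (nat_lit 1) (.e (nat_lit 57871) (nat_lit 264) .nil))))))) (.g (nat_lit 5) .nil .nil)))))) (.nd (nat_lit 3) (.nd (nat_lit 4) (.nd (nat_lit 5) 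
(.lf (nat_lit 36614) (.g (nat_lit 458) (.e (nat_lit 1219) (nat_lit 90) (.e (nat_lit 81946) (nat_lit 20) (.e (nat_lit 2003) (nat_lit 138) .nil))) .nil)) 
(.lf (nat_lit 36646) (.g (nat_lit 2376) (.e (nat_lit 1219) (nat_lit 90) (.e (nat_lit 81946) (nat_lit 20) (.e (nat_lit 2006) (nat_lit 138) (.e (nat_lit 671748) (nat_lit 0) (.e (nat_lit 1595) (nat_lit 111) (.e (nat_lit 368384) (nat_lit 0) (.e (nat_lit 5905) (nat_lit 320) .nil))))))) (.g (nat_lit 5) .nil .nil)))) (.nd (nat_lit 5) 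
(.lf (nat_lit 36630) (.g (nat_lit 1441) (.e (nat_lit 1219) (nat_lit 90) (.e (nat_lit 81946) (nat_lit 20) (.e (nat_lit 2005) (nat_lit 138) (.e (nat_lit 671748) (nat_lit 0) (.e (nat_lit 1595) (nat_lit 111) (.e (nat_lit 368384) (nat_lit 0) (.e (nat_lit 5902) (nat_lit 320) .nil))))))) (.g (nat_lit 4) .nil .nil))) 
(.lf (nat_lit 36662) (.g (nat_lit 431) (.e (nat_lit 1219) (nat_lit 90) (.e (nat_lit 81947) (nat_lit 20) (.e (nat_lit 2003) (nat_lit 138) .nil))) .nil)))) (.nd (nat_lit 4) (.nd (nat_lit 5) 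
(.lf (nat_lit 36622) (.g (nat_lit 2135) (.e (nat_lit 1219) (nat_lit 90) (.e (nat_lit 81946) (nat_lit 20) (.e (nat_lit 2003) (nat_lit 138) (.e (nat_lit 671762) (nat_lit 4) (.e (nat_lit 65619) (nat_lit 10) (.e (nat_lit 344097) (nat_lit 18) (.e (nat_lit 5906) (nat_lit 320) .nil))))))) (.g (nat_lit 5) .nil .nil))) 
(.lf (nat_lit 36654) (.g (nat_lit 2656) (.e (nat_lit 1219) (nat_lit 90) (.e (nat_lit 81946) (nat_lit 20) (.e (nat_lit 2006) (nat_lit 138) (.e (nat_lit 671762) (nat_lit 4) (.e (nat_lit 65604) (nat_lit 9) (.e (nat_lit 335997) (nat_lit 1) (.e (nat_lit 57871) (nat_lit 264) .nil))))))) (.g (nat_lit 6) .nil .nil)))) (.nd (nat_lit 5) 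
(.lf (nat_lit 36638) (.g (nat_lit 2785) (.e (nat_lit 1219) (nat_lit 90) (.e (nat_lit 81946) (nat_lit 20) (.e (nat_lit 2005) (nat_lit 138) (.e (nat_lit 671762) (nat_lit 4) (.e (nat_lit 65619) (nat_lit 10) (.e (nat_lit 344097) (nat_lit 18) (.e (nat_lit 5906) (nat_lit 320) .nil))))))) (.g (nat_lit 6) .nil .nil))) 
(.lf (nat_lit 36670) (.g (nat_lit 375) (.e (nat_lit 1219) (nat_lit 90) (.e (nat_lit 81947) (nat_lit 20) (.e (nat_lit 2005) (nat_lit 138) .nil))) .nil))))))) (.nd (nat_lit 1) (.nd (nat_lit 2) (.nd (nat_lit 3) (.nd (nat_lit 4) (.nd (nat_lit 5) 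
(.lf (nat_lit 36609) (.g (nat_lit 3742) (.e (nat_lit 1219) (nat_lit 90) (.e (nat_lit 81943) (nat_lit 20) (.e (nat_lit 2006) (nat_lit 138) (.e (nat_lit 671762) (nat_lit 4) (.e (nat_lit 65610) (nat_lit 10) (.e (nat_lit 344097) (nat_lit 18) (.e (nat_lit 5907) (nat_lit 320) .nil))))))) (.g (nat_lit 0) .nil .nil))) 
(.lf (nat_lit 36641) (.g (nat_lit 1832) (.e (nat_lit 1219) (nat_lit 90) (.e (nat_lit 81946) (nat_lit 20) (.e (nat_lit 2006) (nat_lit 138) (.e (nat_lit 671748) (nat_lit 0) (.e (nat_lit 1586) (nat_lit 111) (.e (nat_lit 368384) (nat_lit 0) (.e (nat_lit 5906) (nat_lit 320) .nil))))))) (.g (nat_lit 4) .nil .nil)))) (.nd (nat_lit 5) 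
(.lf (nat_lit 36625) (.g (nat_lit 392) (.e (nat_lit 1219) (nat_lit 90) (.e (nat_lit 81946) (nat_lit 20) (.e (nat_lit 2005) (nat_lit 138) .nil))) .nil)) 
(.lf (nat_lit 36657) (.g (nat_lit 2960) (.e (nat_lit 1219) (nat_lit 90) (.e (nat_lit 81946) (nat_lit 20) (.e (nat_lit 2006) (nat_lit 138) (.e (nat_lit 671762) (nat_lit 4) (.e (nat_lit 65619) (nat_lit 10) (.e (nat_lit 344097) (nat_lit 18) (.e (nat_lit 5906) (nat_lit 320) .nil))))))) (.g (nat_lit 6) .nil .nil))))) (.nd (nat_lit 4) (.nd (nat_lit 5) 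
(.lf (nat_lit 36617) (.g (nat_lit 1546) (.e (nat_lit 1219) (nat_lit 90) (.e (nat_lit 81946) (nat_lit 20) (.e (nat_lit 2003) (nat_lit 138) (.e (nat_lit 671762) (nat_lit 4) (.e (nat_lit 65604) (nat_lit 9) (.e (nat_lit 335997) (nat_lit 1) (.e (nat_lit 57871) (nat_lit 264) .nil))))))) (.g (nat_lit 4) .nil .nil))) 
(.lf (nat_lit 36649) (.g (nat_lit 2189) (.e (nat_lit 1219) (nat_lit 90) (.e (nat_lit 81946) (nat_lit 20) (.e (nat_lit 2006) (nat_lit 138) (.e (nat_lit 671748) (nat_lit 0) (.e (nat_lit 1598) (nat_lit 111) (.e (nat_lit 368384) (nat_lit 0) (.e (nat_lit 5905) (nat_lit 320) .nil))))))) (.g (nat_lit 5) .nil .nil)))) (.nd (nat_lit 5) 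
(.lf (nat_lit 36633) (.g (nat_lit 2508) (.e (nat_lit 1219) (nat_lit 90) (.e (nat_lit 81946) (nat_lit 20) (.e (nat_lit 2005) (nat_lit 138) (.e (nat_lit 671762) (nat_lit 4) (.e (nat_lit 65598) (nat_lit 9) (.e (nat_lit 335997) (nat_lit 1) (.e (nat_lit 57871) (nat_lit 264) .nil))))))) (.g (nat_lit 5) .nil .nil))) 
(.lf (nat_lit 36665) (.g (nat_lit 2009) (.e (nat_lit 1219) (nat_lit 90) (.e (nat_lit 81947) (nat_lit 20) (.e (nat_lit 2003) (nat_lit 138) (.e (nat_lit 671762) (nat_lit 4) (.e (nat_lit 65604) (nat_lit 9) (.e (nat_lit 335997) (nat_lit 1) (.e (nat_lit 57870) (nat_lit 264) .nil))))))) (.g (nat_lit 5) .nil .nil)))))) (.nd (nat_lit 3) (.nd (nat_lit 4) (.nd (nat_lit 5) 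
(.lf (nat_lit 36613) (.g (nat_lit 1921) (.e (nat_lit 1219) (nat_lit 90) (.e (nat_lit 81943) (nat_lit 20) (.e (nat_lit 2006) (nat_lit 138) (.e (nat_lit 671764) (nat_lit 6) (.e (nat_lit 81950) (nat_lit 21) (.e (nat_lit 57871) (nat_lit 264) .nil)))))) (.g (nat_lit 0) .nil .nil))) 
(.lf (nat_lit 36645) (.g (nat_lit 1677) (.e (nat_lit 1219) (nat_lit 90) (.e (nat_lit 81946) (nat_lit 20) (.e (nat_lit 2006) (nat_lit 138) (.e (nat_lit 671748) (nat_lit 0) (.e (nat_lit 1595) (nat_lit 111) (.e (nat_lit 368384) (nat_lit 0) (.e (nat_lit 5902) (nat_lit 320) .nil))))))) (.g (nat_lit 4) .nil .nil)))) (.nd (nat_lit 5) 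
(.lf (nat_lit 36629) (.g (nat_lit 1427) (.e (nat_lit 1219) (nat_lit 90) (.e (nat_lit 81946) (nat_lit 20) (.e (nat_lit 2005) (nat_lit 138) (.e (nat_lit 671748) (nat_lit 0) (.e (nat_lit 1589) (nat_lit 111) (.e (nat_lit 368384) (nat_lit 0) (.e (nat_lit 5906) (nat_lit 320) .nil))))))) (.g (nat_lit 4) .nil .nil))) 
(.lf (nat_lit 36661) (.g (nat_lit 1725) (.e (nat_lit 1219) (nat_lit 90) (.e (nat_lit 81946) (nat_lit 20) (.e (nat_lit 2006) (nat_lit 138) (.e (nat_lit 671764) (nat_lit 6) (.e (nat_lit 81950) (nat_lit 21) (.e (nat_lit 57871) (nat_lit 264) .nil)))))) (.g (nat_lit 5) .nil .nil))))) (.nd (nat_lit 4) (.nd (nat_lit 5) 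
(.lf (nat_lit 36621) (.g (nat_lit 2425) (.e (nat_lit 1219) (nat_lit 90) (.e (nat_lit 81946) (nat_lit 20) (.e (nat_lit 2003) (nat_lit 138) (.e (nat_lit 671762) (nat_lit 4) (.e (nat_lit 65619) (nat_lit 10) (.e (nat_lit 344097) (nat_lit 18) (.e (nat_lit 5905) (nat_lit 320) .nil))))))) (.g (nat_lit 5) .nil .nil))) 
(.lf (nat_lit 36653) (.g (nat_lit 2693) (.e (nat_lit 1219) (nat_lit 90) (.e (nat_lit 81946) (nat_lit 20) (.e (nat_lit 2006) (nat_lit 138) (.e (nat_lit 671762) (nat_lit 4) (.e (nat_lit 65604) (nat_lit 9) (.e (nat_lit 335997) (nat_lit 1) (.e (nat_lit 57870) (nat_lit 264) .nil))))))) (.g (nat_lit 6) .nil .nil)))) (.nd (nat_lit 5) 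
(.lf (nat_lit 36637) (.g (nat_lit 3042) (.e (nat_lit 1219) (nat_lit 90) (.e (nat_lit 81946) (nat_lit 20) (.e (nat_lit 2005) (nat_lit 138) (.e (nat_lit 671762) (nat_lit 4) (.e (nat_lit 65610) (nat_lit 10) (.e (nat_lit 344097) (nat_lit 18) (.e (nat_lit 5906) (nat_lit 320) .nil))))))) (.g (nat_lit 6) .nil .nil))) 
(.lf (nat_lit 36669) (.g (nat_lit 2474) (.e (nat_lit 1219) (nat_lit 90) (.e (nat_lit 81947) (nat_lit 20) (.e (nat_lit 2003) (nat_lit 138) (.e (nat_lit 671762) (nat_lit 4) (.e (nat_lit 65619) (nat_lit 10) (.e (nat_lit 344097) (nat_lit 18) (.e (nat_lit 5906) (nat_lit 320) .nil))))))) (.g (nat_lit 6) .nil .nil))))))) (.nd (nat_lit 2) (.nd (nat_lit 3) (.nd (nat_lit 4) (.nd (nat_lit 5) 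
(.lf (nat_lit 36611) (.g (nat_lit 3628) (.e (nat_lit 1219) (nat_lit 90) (.e (nat_lit 81943) (nat_lit 20) (.e (nat_lit 2006) (nat_lit 138) (.e (nat_lit 671762) (nat_lit 4) (.e (nat_lit 65619) (nat_lit 10) (.e (nat_lit 344097) (nat_lit 18) (.e (nat_lit 5907) (nat_lit 320) .nil))))))) (.g (nat_lit 0) .nil .nil))) 
(.lf (nat_lit 36643) (.g (nat_lit 1651) (.e (nat_lit 1219) (nat_lit 90) (.e (nat_lit 81946) (nat_lit 20) (.e (nat_lit 2006) (nat_lit 138) (.e (nat_lit 671748) (nat_lit 0) (.e (nat_lit 1589) (nat_lit 111) (.e (nat_lit 368384) (nat_lit 0) (.e (nat_lit 5906) (nat_lit 320) .nil))))))) (.g (nat_lit 4) .nil .nil)))) (.nd (nat_lit 5) 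
(.lf (nat_lit 36627) (.g (nat_lit 1534) (.e (nat_lit 1219) (nat_lit 90) (.e (nat_lit 81946) (nat_lit 20) (.e (nat_lit 2005) (nat_lit 138) (.e (nat_lit 671748) (nat_lit 0) (.e (nat_lit 1586) (nat_lit 111) (.e (nat_lit 368384) (nat_lit 0) (.e (nat_lit 5906) (nat_lit 320) .nil))))))) (.g (nat_lit 4) .nil .nil))) 
(.lf (nat_lit 36659) (.g (nat_lit 1632) (.e (nat_lit 1219) (nat_lit 90) (.e (nat_lit 81946) (nat_lit 20) (.e (nat_lit 2006) (nat_lit 138) (.e (nat_lit 671764) (nat_lit 6) (.e (nat_lit 81948) (nat_lit 21) (.e (nat_lit 57871) (nat_lit 264) .nil)))))) (.g (nat_lit 4) .nil .nil))))) (.nd (nat_lit 4) (.nd (nat_lit 5) 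
(.lf (nat_lit 36619) (.g (nat_lit 2240) (.e (nat_lit 1219) (nat_lit 90) (.e (nat_lit 81946) (nat_lit 20) (.e (nat_lit 2003) (nat_lit 138) (.e (nat_lit 671762) (nat_lit 4) (.e (nat_lit 65610) (nat_lit 10) (.e (nat_lit 344097) (nat_lit 18) (.e (nat_lit 5905) (nat_lit 320) .nil))))))) (.g (nat_lit 5) .nil .nil))) 
(.lf (nat_lit 36651) (.g (nat_lit 2699) (.e (nat_lit 1219) (nat_lit 90) (.e (nat_lit 81946) (nat_lit 20) (.e (nat_lit 2006) (nat_lit 138) (.e (nat_lit 671762) (nat_lit 4) (.e (nat_lit 65598) (nat_lit 9) (.e (nat_lit 335997) (nat_lit 1) (.e (nat_lit 57871) (nat_lit 264) .nil))))))) (.g (nat_lit 5) .nil .nil)))) (.nd (nat_lit 5) 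
(.lf (nat_lit 36635) (.g (nat_lit 2483) (.e (nat_lit 1219) (nat_lit 90) (.e (nat_lit 81946) (nat_lit 20) (.e (nat_lit 2005) (nat_lit 138) (.e (nat_lit 671762) (nat_lit 4) (.e (nat_lit 65604) (nat_lit 9) (.e (nat_lit 335997) (nat_lit 1) (.e (nat_lit 57870) (nat_lit 264) .nil))))))) (.g (nat_lit 6) .nil .nil))) 
(.lf (nat_lit 36667) (.g (nat_lit 2542) (.e (nat_lit 1219) (nat_lit 90) (.e (nat_lit 81947) (nat_lit 20) (.e (nat_lit 2003) (nat_lit 138) (.e (nat_lit 671762) (nat_lit 4) (.e (nat_lit 65604) (nat_lit 9) (.e (nat_lit 335997) (nat_lit 1) (.e (nat_lit 57872) (nat_lit 264) .nil))))))) (.g (nat_lit 6) .nil .nil)))))) (.nd (nat_lit 3) (.nd (nat_lit 4) (.nd (nat_lit 5) 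
(.lf (nat_lit 36615) (.g (nat_lit 2235) (.e (nat_lit 1219) (nat_lit 90) (.e (nat_lit 81946) (nat_lit 20) (.e (nat_lit 2003) (nat_lit 138) (.e (nat_lit 671747) (nat_lit 0) (.e (nat_lit 1595) (nat_lit 111) (.e (nat_lit 360453) (nat_lit 0) (.e (nat_lit 5907) (nat_lit 320) .nil))))))) (.g (nat_lit 5) .nil .nil))) 
(.lf (nat_lit 36647) (.g (nat_lit 1467) (.e (nat_lit 1219) (nat_lit 90) (.e (nat_lit 81946) (nat_lit 20) (.e (nat_lit 2006) (nat_lit 138) (.e (nat_lit 671748) (nat_lit 0) (.e (nat_lit 1595) (nat_lit 111) (.e (nat_lit 368384) (nat_lit 0) (.e (nat_lit 5906) (nat_lit 320) .nil))))))) (.g (nat_lit 4) .nil .nil)))) (.nd (nat_lit 5) 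
(.lf (nat_lit 36631) (.g (nat_lit 2146) (.e (nat_lit 1219) (nat_lit 90) (.e (nat_lit 81946) (nat_lit 20) (.e (nat_lit 2005) (nat_lit 138) (.e (nat_lit 671748) (nat_lit 0) (.e (nat_lit 1595) (nat_lit 111) (.e (nat_lit 368384) (nat_lit 0) (.e (nat_lit 5905) (nat_lit 320) .nil))))))) (.g (nat_lit 5) .nil .nil))) 
(.lf (nat_lit 36663) (.g (nat_lit 2351) (.e (nat_lit 1219) (nat_lit 90) (.e (nat_lit 81947) (nat_lit 20) (.e (nat_lit 2003) (nat_lit 138) (.e (nat_lit 671747) (nat_lit 0) (.e (nat_lit 1595) (nat_lit 111) (.e (nat_lit 360453) (nat_lit 0) (.e (nat_lit 5907) (nat_lit 320) .nil))))))) (.g (nat_lit 5) .nil .nil))))) (.nd (nat_lit 4) (.nd (nat_lit 5) 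
(.lf (nat_lit 36623) (.g (nat_lit 723) (.e (nat_lit 1219) (nat_lit 90) (.e (nat_lit 81946) (nat_lit 20) (.e (nat_lit 2003) (nat_lit 138) (.e (nat_lit 671764) (nat_lit 6) .nil)))) .nil)) 
(.lf (nat_lit 36655) (.g (nat_lit 3367) (.e (nat_lit 1219) (nat_lit 90) (.e (nat_lit 81946) (nat_lit 20) (.e (nat_lit 2006) (nat_lit 138) (.e (nat_lit 671762) (nat_lit 4) (.e (nat_lit 65610) (nat_lit 10) (.e (nat_lit 344097) (nat_lit 18) (.e (nat_lit 5905) (nat_lit 320) .nil))))))) (.g (nat_lit 6) .nil .nil)))) (.nd (nat_lit 5) 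
(.lf (nat_lit 36639) (.g (nat_lit 1370) (.e (nat_lit 1219) (nat_lit 90) (.e (nat_lit 81946) (nat_lit 20) (.e (nat_lit 2005) (nat_lit 138) (.e (nat_lit 671764) (nat_lit 6) (.e (nat_lit 81948) (nat_lit 21) (.e (nat_lit 57871) (nat_lit 264) .nil)))))) (.g (nat_lit 4) .nil .nil))) 
(.lf (nat_lit 36671) (.g (nat_lit 1343) (.e (nat_lit 1219) (nat_lit 90) (.e (nat_lit 81947) (nat_lit 20) (.e (nat_lit 2005) (nat_lit 138) (.e (nat_lit 671747) (nat_lit 0) (.e (nat_lit 1586) (nat_lit 111) (.e (nat_lit 368384) (nat_lit 0) (.e (nat_lit 5906) (nat_lit 320) .nil))))))) (.g (nat_lit 4) .nil .nil)))))))))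

noncomputable def tv511 : DT := (.nd (nat_lit 0) (.nd (nat_lit 1) (.nd (nat_lit 2) (.nd (nat_lit 3) (.nd (nat_lit 4) (.nd (nat_lit 5) 
(.lf (nat_lit 36672) (.g (nat_lit 1514) (.e (nat_lit 1219) (nat_lit 90) (.e (nat_lit 81947) (nat_lit 20) (.e (nat_lit 2005) (nat_lit 138) (.e (nat_lit 671747) (nat_lit 0) (.e (nat_lit 1592) (nat_lit 111) (.e (nat_lit 368384) (nat_lit 0) (.e (nat_lit 5906) (nat_lit 320) .nil))))))) (.g (nat_lit 5) .nil .nil))) 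
(.lf (nat_lit 36704) (.g (nat_lit 2136) (.e (nat_lit 1219) (nat_lit 90) (.e (nat_lit 81947) (nat_lit 20) (.e (nat_lit 2006) (nat_lit 138) (.e (nat_lit 671748) (nat_lit 0) (.e (nat_lit 1589) (nat_lit 111) (.e (nat_lit 368384) (nat_lit 0) (.e (nat_lit 5906) (nat_lit 320) .nil))))))) (.g (nat_lit 5) .nil .nil)))) (.nd (nat_lit 5) 
(.lf (nat_lit 36688) (.g (nat_lit 2763) (.e (nat_lit 1219) (nat_lit 90) (.e (nat_lit 81947) (nat_lit 20) (.e (nat_lit 2005) (nat_lit 138) (.e (nat_lit 671762) (nat_lit 4) (.e (nat_lit 65604) (nat_lit 9) (.e (nat_lit 335997) (nat_lit 1) (.e (nat_lit 57871) (nat_lit 264) .nil))))))) (.g (nat_lit 6) .nil .nil))) 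
(.lf (nat_lit 36720) (.g (nat_lit 2393) (.e (nat_lit 1219) (nat_lit 90) (.e (nat_lit 81947) (nat_lit 20) (.e (nat_lit 2006) (nat_lit 138) (.e (nat_lit 671764) (nat_lit 6) (.e (nat_lit 81949) (nat_lit 21) (.e (nat_lit 57870) (nat_lit 264) .nil)))))) (.g (nat_lit 6) .nil .nil))))) (.nd (nat_lit 4) (.nd (nat_lit 5) 
(.lf (nat_lit 36680) (.g (nat_lit 3429) (.e (nat_lit 1219) (nat_lit 90) (.e (nat_lit 81947) (nat_lit 20) (.e (nat_lit 2005) (nat_lit 138) (.e (nat_lit 671748) (nat_lit 0) (.e (nat_lit 1598) (nat_lit 111) (.e (nat_lit 360452) (nat_lit 0) (.e (nat_lit 5905) (nat_lit 320) .nil))))))) (.g (nat_lit 7) .nil .nil))) 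
(.lf (nat_lit 36712) (.g (nat_lit 3067) (.e (nat_lit 1219) (nat_lit 90) (.e (nat_lit 81947) (nat_lit 20) (.e (nat_lit 2006) (nat_lit 138) (.e (nat_lit 671762) (nat_lit 4) (.e (nat_lit 65598) (nat_lit 9) (.e (nat_lit 335997) (nat_lit 1) (.e (nat_lit 57870) (nat_lit 264) .nil))))))) (.g (nat_lit 6) .nil .nil)))) (.nd (nat_lit 5) 
(.lf (nat_lit 36696) (.g (nat_lit 1973) (.e (nat_lit 1219) (nat_lit 90) (.e (nat_lit 81947) (nat_lit 20) (.e (nat_lit 2005) (nat_lit 138) (.e (nat_lit 671764) (nat_lit 6) (.e (nat_lit 81950) (nat_lit 21) (.e (nat_lit 57871) (nat_lit 264) .nil)))))) (.g (nat_lit 6) .nil .nil))) 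
(.lf (nat_lit 36728) (.g (nat_lit 1904) (.e (nat_lit 1219) (nat_lit 90) (.e (nat_lit 81948) (nat_lit 21) (.e (nat_lit 57870) (nat_lit 264) (.e (nat_lit 1219) (nat_lit 90) (.e (nat_lit 81948) (nat_lit 21) (.e (nat_lit 57871) (nat_lit 264) .nil)))))) (.g (nat_lit 0) .nil .nil)))))) (.nd (nat_lit 3) (.nd (nat_lit 4) (.nd (nat_lit 5) 
(.lf (nat_lit 36676) (.g (nat_lit 2013) (.e (nat_lit 1219) (nat_lit 90) (.e (nat_lit 81947) (nat_lit 20) (.e (nat_lit 2005) (nat_lit 138) (.e (nat_lit 671748) (nat_lit 0) (.e (nat_lit 1589) (nat_lit 111) (.e (nat_lit 368384) (nat_lit 0) (.e (nat_lit 5902) (nat_lit 320) .nil))))))) (.g (nat_lit 5) .nil .nil))) 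
(.lf (nat_lit 36708) (.g (nat_lit 1887) (.e (nat_lit 1219) (nat_lit 90) (.e (nat_lit 81947) (nat_lit 20) (.e (nat_lit 2006) (nat_lit 138) (.e (nat_lit 671748) (nat_lit 0) (.e (nat_lit 1598) (nat_lit 111) (.e (nat_lit 368384) (nat_lit 0) (.e (nat_lit 5902) (nat_lit 320) .nil))))))) (.g (nat_lit 4) .nil .nil)))) (.nd (nat_lit 5) 
(.lf (nat_lit 36692) (.g (nat_lit 3284) (.e (nat_lit 1219) (nat_lit 90) (.e (nat_lit 81947) (nat_lit 20) (.e (nat_lit 2005) (nat_lit 138) (.e (nat_lit 671762) (nat_lit 4) (.e (nat_lit 65619) (nat_lit 10) (.e (nat_lit 344097) (nat_lit 18) (.e (nat_lit 5906) (nat_lit 320) .nil))))))) (.g (nat_lit 7) .nil .nil))) 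
(.lf (nat_lit 36724) (.g (nat_lit 1349) (.e (nat_lit 1219) (nat_lit 90) (.e (nat_lit 81947) (nat_lit 20) (.e (nat_lit 2270) (nat_lit 149) (.e (nat_lit 761868) (nat_lit 5) .nil)))) .nil)))) (.nd (nat_lit 4) (.nd (nat_lit 5) 
(.lf (nat_lit 36684) (.g (nat_lit 1489) (.e (nat_lit 1219) (nat_lit 90) (.e (nat_lit 81947) (nat_lit 20) (.e (nat_lit 2005) (nat_lit 138) (.e (nat_lit 671748) (nat_lit 0) (.e (nat_lit 1599) (nat_lit 111) (.e (nat_lit 368384) (nat_lit 0) (.e (nat_lit 5906) (nat_lit 320) .nil))))))) (.g (nat_lit 4) .nil .nil))) 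
(.lf (nat_lit 36716) (.g (nat_lit 3693) (.e (nat_lit 1219) (nat_lit 90) (.e (nat_lit 81947) (nat_lit 20) (.e (nat_lit 2006) (nat_lit 138) (.e (nat_lit 671762) (nat_lit 4) (.e (nat_lit 65610) (nat_lit 10) (.e (nat_lit 344097) (nat_lit 18) (.e (nat_lit 5905) (nat_lit 320) .nil))))))) (.g (nat_lit 7) .nil .nil)))) (.nd (nat_lit 5) 
(.lf (nat_lit 36700) (.g (nat_lit 897) (.e (nat_lit 1219) (nat_lit 90) (.e (nat_lit 81947) (nat_lit 20) (.e (nat_lit 2006) (nat_lit 138) (.e (nat_lit 671748) (nat_lit 0) .nil)))) .nil)) 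
(.lf (nat_lit 36732) (.g (nat_lit 2419) (.e (nat_lit 1219) (nat_lit 90) (.e (nat_lit 81948) (nat_lit 21) (.e (nat_lit 57870) (nat_lit 264) (.e (nat_lit 1221) (nat_lit 90) (.e (nat_lit 81950) (nat_lit 21) (.e (nat_lit 57871) (nat_lit 264) .nil)))))) (.g (nat_lit 0) .nil .nil))))))) (.nd (nat_lit 2) (.nd (nat_lit 3) (.nd (nat_lit 4) (.nd (nat_lit 5) 
(.lf (nat_lit 36674) (.g (nat_lit 2052) (.e (nat_lit 1219) (nat_lit 90) (.e (nat_lit 81947) (nat_lit 20) (.e (nat_lit 2005) (nat_lit 138) (.e (nat_lit 671748) (nat_lit 0) (.e (nat_lit 1586) (nat_lit 111) (.e (nat_lit 368384) (nat_lit 0) (.e (nat_lit 5902) (nat_lit 320) .nil))))))) (.g (nat_lit 5) .nil .nil))) 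
(.lf (nat_lit 36706) (.g (nat_lit 2059) (.e (nat_lit 1219) (nat_lit 90) (.e (nat_lit 81947) (nat_lit 20) (.e (nat_lit 2006) (nat_lit 138) (.e (nat_lit 671748) (nat_lit 0) (.e (nat_lit 1595) (nat_lit 111) (.e (nat_lit 368384) (nat_lit 0) (.e (nat_lit 5902) (nat_lit 320) .nil))))))) (.g (nat_lit 5) .nil .nil)))) (.nd (nat_lit 5) 
(.lf (nat_lit 36690) (.g (nat_lit 3454) (.e (nat_lit 1219) (nat_lit 90) (.e (nat_lit 81947) (nat_lit 20) (.e (nat_lit 2005) (nat_lit 138) (.e (nat_lit 671762) (nat_lit 4) (.e (nat_lit 65610) (nat_lit 10) (.e (nat_lit 344097) (nat_lit 18) (.e (nat_lit 5906) (nat_lit 320) .nil))))))) (.g (nat_lit 7) .nil .nil))) 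
(.lf (nat_lit 36722) (.g (nat_lit 2192) (.e (nat_lit 1219) (nat_lit 90) (.e (nat_lit 81947) (nat_lit 20) (.e (nat_lit 2006) (nat_lit 138) (.e (nat_lit 671764) (nat_lit 6) (.e (nat_lit 81950) (nat_lit 21) (.e (nat_lit 57870) (nat_lit 264) .nil)))))) (.g (nat_lit 6) .nil .nil))))) (.nd (nat_lit 4) (.nd (nat_lit 5) 
(.lf (nat_lit 36682) (.g (nat_lit 1585) (.e (nat_lit 1219) (nat_lit 90) (.e (nat_lit 81947) (nat_lit 20) (.e (nat_lit 2005) (nat_lit 138) (.e (nat_lit 671748) (nat_lit 0) (.e (nat_lit 1598) (nat_lit 111) (.e (nat_lit 368384) (nat_lit 0) (.e (nat_lit 5906) (nat_lit 320) .nil))))))) (.g (nat_lit 4) .nil .nil))) 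
(.lf (nat_lit 36714) (.g (nat_lit 3108) (.e (nat_lit 1219) (nat_lit 90) (.e (nat_lit 81947) (nat_lit 20) (.e (nat_lit 2006) (nat_lit 138) (.e (nat_lit 671762) (nat_lit 4) (.e (nat_lit 65604) (nat_lit 9) (.e (nat_lit 335997) (nat_lit 1) (.e (nat_lit 57870) (nat_lit 264) .nil))))))) (.g (nat_lit 7) .nil .nil)))) (.nd (nat_lit 5) 
(.lf (nat_lit 36698) (.g (nat_lit 1257) (.e (nat_lit 1219) (nat_lit 90) (.e (nat_lit 81947) (nat_lit 20) (.e (nat_lit 2006) (nat_lit 138) (.e (nat_lit 671744) (nat_lit 0) (.e (nat_lit 1615) (nat_lit 113) .nil))))) .nil)) 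
(.lf (nat_lit 36730) (.g (nat_lit 1343) (.e (nat_lit 1219) (nat_lit 90) (.e (nat_lit 81948) (nat_lit 21) (.e (nat_lit 57870) (nat_lit 264) (.e (nat_lit 1221) (nat_lit 90) (.e (nat_lit 81948) (nat_lit 21) (.e (nat_lit 57870) (nat_lit 264) .nil)))))) (.g (nat_lit 4) .nil .nil)))))) (.nd (nat_lit 3) (.nd (nat_lit 4) (.nd (nat_lit 5) 
(.lf (nat_lit 36678) (.g (nat_lit 1814) (.e (nat_lit 1219) (nat_lit 90) (.e (nat_lit 81947) (nat_lit 20) (.e (nat_lit 2005) (nat_lit 138) (.e (nat_lit 671748) (nat_lit 0) (.e (nat_lit 1592) (nat_lit 111) (.e (nat_lit 368384) (nat_lit 0) (.e (nat_lit 5906) (nat_lit 320) .nil))))))) (.g (nat_lit 5) .nil .nil))) 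
(.lf (nat_lit 36710) (.g (nat_lit 1738) (.e (nat_lit 1219) (nat_lit 90) (.e (nat_lit 81947) (nat_lit 20) (.e (nat_lit 2006) (nat_lit 138) (.e (nat_lit 671748) (nat_lit 0) (.e (nat_lit 1599) (nat_lit 111) (.e (nat_lit 368384) (nat_lit 0) (.e (nat_lit 5902) (nat_lit 320) .nil))))))) (.g (nat_lit 4) .nil .nil)))) (.nd (nat_lit 5) 
(.lf (nat_lit 36694) (.g (nat_lit 2225) (.e (nat_lit 1219) (nat_lit 90) (.e (nat_lit 81947) (nat_lit 20) (.e (nat_lit 2005) (nat_lit 138) (.e (nat_lit 671764) (nat_lit 6) (.e (nat_lit 81949) (nat_lit 21) (.e (nat_lit 57870) (nat_lit 264) .nil)))))) (.g (nat_lit 6) .nil .nil))) 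
(.lf (nat_lit 36726) (.g (nat_lit 2861) (.e (nat_lit 1219) (nat_lit 90) (.e (nat_lit 81948) (nat_lit 21) (.e (nat_lit 57870) (nat_lit 264) (.e (nat_lit 1189) (nat_lit 88) (.e (nat_lit 65604) (nat_lit 9) (.e (nat_lit 335997) (nat_lit 1) (.e (nat_lit 57872) (nat_lit 264) .nil))))))) (.g (nat_lit 0) .nil .nil))))) (.nd (nat_lit 4) (.nd (nat_lit 5) 
(.lf (nat_lit 36686) (.g (nat_lit 3336) (.e (nat_lit 1219) (nat_lit 90) (.e (nat_lit 81947) (nat_lit 20) (.e (nat_lit 2005) (nat_lit 138) (.e (nat_lit 671762) (nat_lit 4) (.e (nat_lit 65598) (nat_lit 9) (.e (nat_lit 335997) (nat_lit 1) (.e (nat_lit 57872) (nat_lit 264) .nil))))))) (.g (nat_lit 7) .nil .nil))) 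
(.lf (nat_lit 36718) (.g (nat_lit 2089) (.e (nat_lit 1219) (nat_lit 90) (.e (nat_lit 81947) (nat_lit 20) (.e (nat_lit 2006) (nat_lit 138) (.e (nat_lit 671764) (nat_lit 6) (.e (nat_lit 81948) (nat_lit 21) (.e (nat_lit 57870) (nat_lit 264) .nil)))))) (.g (nat_lit 6) .nil .nil)))) (.nd (nat_lit 5) 
(.lf (nat_lit 36702) (.g (nat_lit 2269) (.e (nat_lit 1219) (nat_lit 90) (.e (nat_lit 81947) (nat_lit 20) (.e (nat_lit 2006) (nat_lit 138) (.e (nat_lit 671748) (nat_lit 0) (.e (nat_lit 1586) (nat_lit 111) (.e (nat_lit 368384) (nat_lit 0) (.e (nat_lit 5906) (nat_lit 320) .nil))))))) (.g (nat_lit 5) .nil .nil))) 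
(.lf (nat_lit 36734) (.g (nat_lit 1167) (.e (nat_lit 1219) (nat_lit 90) (.e (nat_lit 81948) (nat_lit 21) (.e (nat_lit 57871) (nat_lit 264) (.e (nat_lit 1219) (nat_lit 90) (.e (nat_lit 81950) (nat_lit 21) .nil))))) .nil))))))) (.nd (nat_lit 1) (.nd (nat_lit 2) (.nd (nat_lit 3) (.nd (nat_lit 4) (.nd (nat_lit 5) 
(.lf (nat_lit 36673) (.g (nat_lit 1113) (.e (nat_lit 1219) (nat_lit 90) (.e (nat_lit 81947) (nat_lit 20) (.e (nat_lit 2005) (nat_lit 138) (.e (nat_lit 671747) (nat_lit 0) (.e (nat_lit 1595) (nat_lit 111) .nil))))) .nil)) 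
(.lf (nat_lit 36705) (.g (nat_lit 1466) (.e (nat_lit 1219) (nat_lit 90) (.e (nat_lit 81947) (nat_lit 20) (.e (nat_lit 2006) (nat_lit 138) (.e (nat_lit 671748) (nat_lit 0) (.e (nat_lit 1592) (nat_lit 111) .nil))))) .nil))) (.nd (nat_lit 5) 
(.lf (nat_lit 36689) (.g (nat_lit 3587) (.e (nat_lit 1219) (nat_lit 90) (.e (nat_lit 81947) (nat_lit 20) (.e (nat_lit 2005) (nat_lit 138) (.e (nat_lit 671762) (nat_lit 4) (.e (nat_lit 65610) (nat_lit 10) (.e (nat_lit 344097) (nat_lit 18) (.e (nat_lit 5905) (nat_lit 320) .nil))))))) (.g (nat_lit 7) .nil .nil))) 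
(.lf (nat_lit 36721) (.g (nat_lit 1524) (.e (nat_lit 1219) (nat_lit 90) (.e (nat_lit 81947) (nat_lit 20) (.e (nat_lit 2006) (nat_lit 138) (.e (nat_lit 671764) (nat_lit 6) (.e (nat_lit 81949) (nat_lit 21) (.e (nat_lit 57871) (nat_lit 264) .nil)))))) (.g (nat_lit 4) .nil .nil))))) (.nd (nat_lit 4) (.nd (nat_lit 5) 
(.lf (nat_lit 36681) (.g (nat_lit 1692) (.e (nat_lit 1219) (nat_lit 90) (.e (nat_lit 81947) (nat_lit 20) (.e (nat_lit 2005) (nat_lit 138) (.e (nat_lit 671748) (nat_lit 0) (.e (nat_lit 1598) (nat_lit 111) (.e (nat_lit 368384) (nat_lit 0) (.e (nat_lit 5902) (nat_lit 320) .nil))))))) (.g (nat_lit 4) .nil .nil))) 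
(.lf (nat_lit 36713) (.g (nat_lit 3022) (.e (nat_lit 1219) (nat_lit 90) (.e (nat_lit 81947) (nat_lit 20) (.e (nat_lit 2006) (nat_lit 138) (.e (nat_lit 671762) (nat_lit 4) (.e (nat_lit 65598) (nat_lit 9) (.e (nat_lit 335997) (nat_lit 1) (.e (nat_lit 57871) (nat_lit 264) .nil))))))) (.g (nat_lit 6) .nil .nil)))) (.nd (nat_lit 5) 
(.lf (nat_lit 36697) (.g (nat_lit 392) (.e (nat_lit 1219) (nat_lit 90) (.e (nat_lit 81947) (nat_lit 20) (.e (nat_lit 2006) (nat_lit 138) .nil))) .nil)) 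
(.lf (nat_lit 36729) (.g (nat_lit 2707) (.e (nat_lit 1219) (nat_lit 90) (.e (nat_lit 81948) (nat_lit 21) (.e (nat_lit 57870) (nat_lit 264) (.e (nat_lit 1220) (nat_lit 90) (.e (nat_lit 81950) (nat_lit 21) (.e (nat_lit 57871) (nat_lit 264) .nil)))))) (.g (nat_lit 0) .nil .nil)))))) (.nd (nat_lit 3) (.nd (nat_lit 4) (.nd (nat_lit 5) 
(.lf (nat_lit 36677) (.g (nat_lit 1949) (.e (nat_lit 1219) (nat_lit 90) (.e (nat_lit 81947) (nat_lit 20) (.e (nat_lit 2005) (nat_lit 138) (.e (nat_lit 671748) (nat_lit 0) (.e (nat_lit 1589) (nat_lit 111) (.e (nat_lit 368384) (nat_lit 0) (.e (nat_lit 5906) (nat_lit 320) .nil))))))) (.g (nat_lit 5) .nil .nil))) 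
(.lf (nat_lit 36709) (.g (nat_lit 1776) (.e (nat_lit 1219) (nat_lit 90) (.e (nat_lit 81947) (nat_lit 20) (.e (nat_lit 2006) (nat_lit 138) (.e (nat_lit 671748) (nat_lit 0) (.e (nat_lit 1598) (nat_lit 111) (.e (nat_lit 368384) (nat_lit 0) (.e (nat_lit 5906) (nat_lit 320) .nil))))))) (.g (nat_lit 4) .nil .nil)))) (.nd (nat_lit 5) 
(.lf (nat_lit 36693) (.g (nat_lit 1927) (.e (nat_lit 1219) (nat_lit 90) (.e (nat_lit 81947) (nat_lit 20) (.e (nat_lit 2005) (nat_lit 138) (.e (nat_lit 671764) (nat_lit 6) (.e (nat_lit 81948) (nat_lit 21) (.e (nat_lit 57870) (nat_lit 264) .nil)))))) (.g (nat_lit 6) .nil .nil))) 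
(.lf (nat_lit 36725) (.g (nat_lit 2479) (.e (nat_lit 1219) (nat_lit 90) (.e (nat_lit 81948) (nat_lit 21) (.e (nat_lit 57870) (nat_lit 264) (.e (nat_lit 1189) (nat_lit 88) (.e (nat_lit 65604) (nat_lit 9) (.e (nat_lit 335997) (nat_lit 1) (.e (nat_lit 57870) (nat_lit 264) .nil))))))) (.g (nat_lit 0) .nil .nil))))) (.nd (nat_lit 4) (.nd (nat_lit 5) 
(.lf (nat_lit 36685) (.g (nat_lit 2820) (.e (nat_lit 1219) (nat_lit 90) (.e (nat_lit 81947) (nat_lit 20) (.e (nat_lit 2005) (nat_lit 138) (.e (nat_lit 671762) (nat_lit 4) (.e (nat_lit 65598) (nat_lit 9) (.e (nat_lit 335997) (nat_lit 1) (.e (nat_lit 57870) (nat_lit 264) .nil))))))) (.g (nat_lit 6) .nil .nil))) 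
(.lf (nat_lit 36717) (.g (nat_lit 3646) (.e (nat_lit 1219) (nat_lit 90) (.e (nat_lit 81947) (nat_lit 20) (.e (nat_lit 2006) (nat_lit 138) (.e (nat_lit 671762) (nat_lit 4) (.e (nat_lit 65619) (nat_lit 10) (.e (nat_lit 344097) (nat_lit 18) (.e (nat_lit 5905) (nat_lit 320) .nil))))))) (.g (nat_lit 7) .nil .nil)))) (.nd (nat_lit 5) 
(.lf (nat_lit 36701) (.g (nat_lit 2273) (.e (nat_lit 1219) (nat_lit 90) (.e (nat_lit 81947) (nat_lit 20) (.e (nat_lit 2006) (nat_lit 138) (.e (nat_lit 671748) (nat_lit 0) (.e (nat_lit 1586) (nat_lit 111) (.e (nat_lit 368384) (nat_lit 0) (.e (nat_lit 5902) (nat_lit 320) .nil))))))) (.g (nat_lit 5) .nil .nil))) 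
(.lf (nat_lit 36733) (.g (nat_lit 1810) (.e (nat_lit 1219) (nat_lit 90) (.e (nat_lit 81948) (nat_lit 21) (.e (nat_lit 57871) (nat_lit 264) (.e (nat_lit 1219) (nat_lit 90) (.e (nat_lit 81948) (nat_lit 21) (.e (nat_lit 57871) (nat_lit 264) .nil)))))) (.g (nat_lit 0) .nil .nil))))))) (.nd (nat_lit 2) (.nd (nat_lit 3) (.nd (nat_lit 4) (.nd (nat_lit 5) 
(.lf (nat_lit 36675) (.g (nat_lit 2052) (.e (nat_lit 1219) (nat_lit 90) (.e (nat_lit 81947) (nat_lit 20) (.e (nat_lit 2005) (nat_lit 138) (.e (nat_lit 671748) (nat_lit 0) (.e (nat_lit 1586) (nat_lit 111) (.e (nat_lit 368384) (nat_lit 0) (.e (nat_lit 5906) (nat_lit 320) .nil))))))) (.g (nat_lit 5) .nil .nil))) 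
(.lf (nat_lit 36707) (.g (nat_lit 3573) (.e (nat_lit 1219) (nat_lit 90) (.e (nat_lit 81947) (nat_lit 20) (.e (nat_lit 2006) (nat_lit 138) (.e (nat_lit 671748) (nat_lit 0) (.e (nat_lit 1598) (nat_lit 111) (.e (nat_lit 360452) (nat_lit 0) (.e (nat_lit 5905) (nat_lit 320) .nil))))))) (.g (nat_lit 7) .nil .nil)))) (.nd (nat_lit 5) 
(.lf (nat_lit 36691) (.g (nat_lit 3466) (.e (nat_lit 1219) (nat_lit 90) (.e (nat_lit 81947) (nat_lit 20) (.e (nat_lit 2005) (nat_lit 138) (.e (nat_lit 671762) (nat_lit 4) (.e (nat_lit 65619) (nat_lit 10) (.e (nat_lit 344097) (nat_lit 18) (.e (nat_lit 5905) (nat_lit 320) .nil))))))) (.g (nat_lit 7) .nil .nil))) 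
(.lf (nat_lit 36723) (.g (nat_lit 2142) (.e (nat_lit 1219) (nat_lit 90) (.e (nat_lit 81947) (nat_lit 20) (.e (nat_lit 2006) (nat_lit 138) (.e (nat_lit 671764) (nat_lit 6) (.e (nat_lit 81950) (nat_lit 21) (.e (nat_lit 57871) (nat_lit 264) .nil)))))) (.g (nat_lit 6) .nil .nil))))) (.nd (nat_lit 4) (.nd (nat_lit 5) 
(.lf (nat_lit 36683) (.g (nat_lit 1555) (.e (nat_lit 1219) (nat_lit 90) (.e (nat_lit 81947) (nat_lit 20) (.e (nat_lit 2005) (nat_lit 138) (.e (nat_lit 671748) (nat_lit 0) (.e (nat_lit 1599) (nat_lit 111) (.e (nat_lit 368384) (nat_lit 0) (.e (nat_lit 5902) (nat_lit 320) .nil))))))) (.g (nat_lit 4) .nil .nil))) 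
(.lf (nat_lit 36715) (.g (nat_lit 3100) (.e (nat_lit 1219) (nat_lit 90) (.e (nat_lit 81947) (nat_lit 20) (.e (nat_lit 2006) (nat_lit 138) (.e (nat_lit 671762) (nat_lit 4) (.e (nat_lit 65604) (nat_lit 9) (.e (nat_lit 335997) (nat_lit 1) (.e (nat_lit 57871) (nat_lit 264) .nil))))))) (.g (nat_lit 7) .nil .nil)))) (.nd (nat_lit 5) 
(.lf (nat_lit 36699) (.g (nat_lit 1589) (.e (nat_lit 1219) (nat_lit 90) (.e (nat_lit 81947) (nat_lit 20) (.e (nat_lit 2006) (nat_lit 138) (.e (nat_lit 671747) (nat_lit 0) (.e (nat_lit 1595) (nat_lit 111) (.e (nat_lit 360453) (nat_lit 0) (.e (nat_lit 5907) (nat_lit 320) .nil))))))) (.g (nat_lit 4) .nil .nil))) 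
(.lf (nat_lit 36731) (.g (nat_lit 2490) (.e (nat_lit 1219) (nat_lit 90) (.e (nat_lit 81948) (nat_lit 21) (.e (nat_lit 57870) (nat_lit 264) (.e (nat_lit 1221) (nat_lit 90) (.e (nat_lit 81950) (nat_lit 21) (.e (nat_lit 57870) (nat_lit 264) .nil)))))) (.g (nat_lit 0) .nil .nil)))))) (.nd (nat_lit 3) (.nd (nat_lit 4) (.nd (nat_lit 5) 
(.lf (nat_lit 36679) (.g (nat_lit 1868) (.e (nat_lit 1219) (nat_lit 90) (.e (nat_lit 81947) (nat_lit 20) (.e (nat_lit 2005) (nat_lit 138) (.e (nat_lit 671748) (nat_lit 0) (.e (nat_lit 1595) (nat_lit 111) (.e (nat_lit 368384) (nat_lit 0) (.e (nat_lit 5902) (nat_lit 320) .nil))))))) (.g (nat_lit 5) .nil .nil))) 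
(.lf (nat_lit 36711) (.g (nat_lit 1668) (.e (nat_lit 1219) (nat_lit 90) (.e (nat_lit 81947) (nat_lit 20) (.e (nat_lit 2006) (nat_lit 138) (.e (nat_lit 671748) (nat_lit 0) (.e (nat_lit 1599) (nat_lit 111) (.e (nat_lit 368384) (nat_lit 0) (.e (nat_lit 5906) (nat_lit 320) .nil))))))) (.g (nat_lit 4) .nil .nil)))) (.nd (nat_lit 5) 
(.lf (nat_lit 36695) (.g (nat_lit 2023) (.e (nat_lit 1219) (nat_lit 90) (.e (nat_lit 81947) (nat_lit 20) (.e (nat_lit 2005) (nat_lit 138) (.e (nat_lit 671764) (nat_lit 6) (.e (nat_lit 81950) (nat_lit 21) (.e (nat_lit 57870) (nat_lit 264) .nil)))))) (.g (nat_lit 6) .nil .nil))) 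
(.lf (nat_lit 36727) (.g (nat_lit 1998) (.e (nat_lit 1219) (nat_lit 90) (.e (nat_lit 81948) (nat_lit 21) (.e (nat_lit 57870) (nat_lit 264) (.e (nat_lit 1219) (nat_lit 90) (.e (nat_lit 81948) (nat_lit 21) (.e (nat_lit 57870) (nat_lit 264) .nil)))))) (.g (nat_lit 0) .nil .nil))))) (.nd (nat_lit 4) (.nd (nat_lit 5) 
(.lf (nat_lit 36687) (.g (nat_lit 2771) (.e (nat_lit 1219) (nat_lit 90) (.e (nat_lit 81947) (nat_lit 20) (.e (nat_lit 2005) (nat_lit 138) (.e (nat_lit 671762) (nat_lit 4) (.e (nat_lit 65604) (nat_lit 9) (.e (nat_lit 335997) (nat_lit 1) (.e (nat_lit 57870) (nat_lit 264) .nil))))))) (.g (nat_lit 6) .nil .nil))) 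
(.lf (nat_lit 36719) (.g (nat_lit 2029) (.e (nat_lit 1219) (nat_lit 90) (.e (nat_lit 81947) (nat_lit 20) (.e (nat_lit 2006) (nat_lit 138) (.e (nat_lit 671764) (nat_lit 6) (.e (nat_lit 81948) (nat_lit 21) (.e (nat_lit 57871) (nat_lit 264) .nil)))))) (.g (nat_lit 6) .nil .nil)))) (.nd (nat_lit 5) 
(.lf (nat_lit 36703) (.g (nat_lit 2204) (.e (nat_lit 1219) (nat_lit 90) (.e (nat_lit 81947) (nat_lit 20) (.e (nat_lit 2006) (nat_lit 138) (.e (nat_lit 671748) (nat_lit 0) (.e (nat_lit 1589) (nat_lit 111) (.e (nat_lit 368384) (nat_lit 0) (.e (nat_lit 5902) (nat_lit 320) .nil))))))) (.g (nat_lit 5) .nil .nil))) 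
(.lf (nat_lit 36735) (.g (nat_lit 2632) (.e (nat_lit 1219) (nat_lit 90) (.e (nat_lit 81948) (nat_lit 21) (.e (nat_lit 57871) (nat_lit 264) (.e (nat_lit 1220) (nat_lit 90) (.e (nat_lit 81950) (nat_lit 21) (.e (nat_lit 57871) (nat_lit 264) .nil)))))) (.g (nat_lit 0) .nil .nil)))))))))

noncomputable def tv512 : DT := (.nd (nat_lit 0) (.nd (nat_lit 1) (.nd (nat_lit 2) (.nd (nat_lit 3) (.nd (nat_lit 4) (.nd (nat_lit 5) 
(.lf (nat_lit 36736) (.g (nat_lit 2461) (.e (nat_lit 1219) (nat_lit 90) (.e (nat_lit 81948) (nat_lit 21) (.e (nat_lit 57871) (nat_lit 264) (.e (nat_lit 1221) (nat_lit 90) (.e (nat_lit 81950) (nat_lit 21) (.e (nat_lit 57871) (nat_lit 264) .nil)))))) (.g (nat_lit 0) .nil .nil))) 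
(.lf (nat_lit 36768) (.g (nat_lit 1498) (.e (nat_lit 1219) (nat_lit 90) (.e (nat_lit 81950) (nat_lit 21) (.e (nat_lit 57870) (nat_lit 264) (.e (nat_lit 1221) (nat_lit 90) (.e (nat_lit 81948) (nat_lit 21) .nil))))) .nil))) (.nd (nat_lit 5) 
(.lf (nat_lit 36752) (.g (nat_lit 2822) (.e (nat_lit 1219) (nat_lit 90) (.e (nat_lit 81948) (nat_lit 21) (.e (nat_lit 57873) (nat_lit 264) (.e (nat_lit 1221) (nat_lit 90) (.e (nat_lit 81950) (nat_lit 21) (.e (nat_lit 57871) (nat_lit 264) .nil)))))) (.g (nat_lit 0) .nil .nil))) 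
(.lf (nat_lit 36784) (.g (nat_lit 2483) (.e (nat_lit 1219) (nat_lit 90) (.e (nat_lit 81950) (nat_lit 21) (.e (nat_lit 57872) (nat_lit 264) (.e (nat_lit 1219) (nat_lit 90) (.e (nat_lit 81950) (nat_lit 21) (.e (nat_lit 57873) (nat_lit 264) .nil)))))) (.g (nat_lit 4) .nil .nil))))) (.nd (nat_lit 4) (.nd (nat_lit 5) 
(.lf (nat_lit 36744) (.g (nat_lit 3061) (.e (nat_lit 1219) (nat_lit 90) (.e (nat_lit 81948) (nat_lit 21) (.e (nat_lit 57872) (nat_lit 264) (.e (nat_lit 1221) (nat_lit 90) (.e (nat_lit 81950) (nat_lit 21) (.e (nat_lit 57870) (nat_lit 264) .nil)))))) (.g (nat_lit 0) .nil .nil))) 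
(.lf (nat_lit 36776) (.g (nat_lit 2593) (.e (nat_lit 1219) (nat_lit 90) (.e (nat_lit 81950) (nat_lit 21) (.e (nat_lit 57872) (nat_lit 264) (.e (nat_lit 1190) (nat_lit 88) (.e (nat_lit 65604) (nat_lit 9) (.e (nat_lit 335997) (nat_lit 1) (.e (nat_lit 57870) (nat_lit 264) .nil))))))) (.g (nat_lit 5) .nil .nil)))) (.nd (nat_lit 5) 
(.lf (nat_lit 36760) (.g (nat_lit 1779) (.e (nat_lit 1219) (nat_lit 90) (.e (nat_lit 81949) (nat_lit 21) (.e (nat_lit 57870) (nat_lit 264) (.e (nat_lit 1221) (nat_lit 90) (.e (nat_lit 81950) (nat_lit 21) (.e (nat_lit 57872) (nat_lit 264) .nil)))))) (.g (nat_lit 4) .nil .nil))) 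
(.lf (nat_lit 36792) (.g (nat_lit 2761) (.e (nat_lit 1219) (nat_lit 90) (.e (nat_lit 81950) (nat_lit 21) (.e (nat_lit 57873) (nat_lit 264) (.e (nat_lit 1190) (nat_lit 88) (.e (nat_lit 65604) (nat_lit 9) (.e (nat_lit 335997) (nat_lit 1) (.e (nat_lit 57871) (nat_lit 264) .nil))))))) (.g (nat_lit 5) .nil .nil)))))) (.nd (nat_lit 3) (.nd (nat_lit 4) (.nd (nat_lit 5) 
(.lf (nat_lit 36740) (.g (nat_lit 3276) (.e (nat_lit 1219) (nat_lit 90) (.e (nat_lit 81948) (nat_lit 21) (.e (nat_lit 57872) (nat_lit 264) (.e (nat_lit 1220) (nat_lit 90) (.e (nat_lit 81950) (nat_lit 21) (.e (nat_lit 57872) (nat_lit 264) .nil)))))) (.g (nat_lit 6) .nil .nil))) 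
(.lf (nat_lit 36772) (.g (nat_lit 1745) (.e (nat_lit 1219) (nat_lit 90) (.e (nat_lit 81950) (nat_lit 21) (.e (nat_lit 57871) (nat_lit 264) (.e (nat_lit 1190) (nat_lit 88) (.e (nat_lit 65604) (nat_lit 9) (.e (nat_lit 335997) (nat_lit 1) (.e (nat_lit 57870) (nat_lit 264) .nil))))))) (.g (nat_lit 4) .nil .nil)))) (.nd (nat_lit 5) 
(.lf (nat_lit 36756) (.g (nat_lit 1486) (.e (nat_lit 1219) (nat_lit 90) (.e (nat_lit 81949) (nat_lit 21) (.e (nat_lit 57870) (nat_lit 264) (.e (nat_lit 1199) (nat_lit 88) (.e (nat_lit 65610) (nat_lit 10) .nil))))) .nil)) 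
(.lf (nat_lit 36788) (.g (nat_lit 2738) (.e (nat_lit 1219) (nat_lit 90) (.e (nat_lit 81950) (nat_lit 21) (.e (nat_lit 57872) (nat_lit 264) (.e (nat_lit 1221) (nat_lit 90) (.e (nat_lit 81948) (nat_lit 21) (.e (nat_lit 57872) (nat_lit 264) .nil)))))) (.g (nat_lit 5) .nil .nil))))) (.nd (nat_lit 4) (.nd (nat_lit 5) 
(.lf (nat_lit 36748) (.g (nat_lit 3405) (.e (nat_lit 1219) (nat_lit 90) (.e (nat_lit 81948) (nat_lit 21) (.e (nat_lit 57873) (nat_lit 264) (.e (nat_lit 1220) (nat_lit 90) (.e (nat_lit 81950) (nat_lit 21) (.e (nat_lit 57872) (nat_lit 264) .nil)))))) (.g (nat_lit 6) .nil .nil))) 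
(.lf (nat_lit 36780) (.g (nat_lit 2016) (.e (nat_lit 1219) (nat_lit 90) (.e (nat_lit 81950) (nat_lit 21) (.e (nat_lit 57872) (nat_lit 264) (.e (nat_lit 1219) (nat_lit 90) (.e (nat_lit 81948) (nat_lit 21) (.e (nat_lit 57870) (nat_lit 264) .nil)))))) (.g (nat_lit 4) .nil .nil)))) (.nd (nat_lit 5) 
(.lf (nat_lit 36764) (.g (nat_lit 1247) (.e (nat_lit 1219) (nat_lit 90) (.e (nat_lit 81949) (nat_lit 21) (.e (nat_lit 57873) (nat_lit 264) (.e (nat_lit 1200) (nat_lit 88) .nil)))) .nil)) 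
(.lf (nat_lit 36796) (.g (nat_lit 2247) (.e (nat_lit 1219) (nat_lit 90) (.e (nat_lit 81950) (nat_lit 21) (.e (nat_lit 57873) (nat_lit 264) (.e (nat_lit 1220) (nat_lit 90) (.e (nat_lit 81950) (nat_lit 21) (.e (nat_lit 57871) (nat_lit 264) .nil)))))) (.g (nat_lit 4) .nil .nil))))))) (.nd (nat_lit 2) (.nd (nat_lit 3) (.nd (nat_lit 4) (.nd (nat_lit 5) 
(.lf (nat_lit 36738) (.g (nat_lit 2075) (.e (nat_lit 1219) (nat_lit 90) (.e (nat_lit 81948) (nat_lit 21) (.e (nat_lit 57872) (nat_lit 264) (.e (nat_lit 1219) (nat_lit 90) (.e (nat_lit 81950) (nat_lit 21) (.e (nat_lit 57870) (nat_lit 264) .nil)))))) (.g (nat_lit 5) .nil .nil))) 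
(.lf (nat_lit 36770) (.g (nat_lit 1696) (.e (nat_lit 1219) (nat_lit 90) (.e (nat_lit 81950) (nat_lit 21) (.e (nat_lit 57870) (nat_lit 264) (.e (nat_lit 1221) (nat_lit 90) (.e (nat_lit 81950) (nat_lit 21) (.e (nat_lit 57871) (nat_lit 264) .nil)))))) (.g (nat_lit 4) .nil .nil)))) (.nd (nat_lit 5) 
(.lf (nat_lit 36754) (.g (nat_lit 324) (.e (nat_lit 1219) (nat_lit 90) (.e (nat_lit 81948) (nat_lit 21) (.e (nat_lit 65280) (nat_lit 266) .nil))) .nil)) 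
(.lf (nat_lit 36786) (.g (nat_lit 1817) (.e (nat_lit 1219) (nat_lit 90) (.e (nat_lit 81950) (nat_lit 21) (.e (nat_lit 57872) (nat_lit 264) (.e (nat_lit 1220) (nat_lit 90) (.e (nat_lit 81950) (nat_lit 21) (.e (nat_lit 57871) (nat_lit 264) .nil)))))) (.g (nat_lit 4) .nil .nil))))) (.nd (nat_lit 4) (.nd (nat_lit 5) 
(.lf (nat_lit 36746) (.g (nat_lit 3404) (.e (nat_lit 1219) (nat_lit 90) (.e (nat_lit 81948) (nat_lit 21) (.e (nat_lit 57873) (nat_lit 264) (.e (nat_lit 1200) (nat_lit 88) (.e (nat_lit 65604) (nat_lit 9) (.e (nat_lit 335997) (nat_lit 1) (.e (nat_lit 57872) (nat_lit 264) .nil))))))) (.g (nat_lit 0) .nil .nil))) 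
(.lf (nat_lit 36778) (.g (nat_lit 2530) (.e (nat_lit 1219) (nat_lit 90) (.e (nat_lit 81950) (nat_lit 21) (.e (nat_lit 57872) (nat_lit 264) (.e (nat_lit 1200) (nat_lit 88) (.e (nat_lit 65604) (nat_lit 9) (.e (nat_lit 335997) (nat_lit 1) (.e (nat_lit 57870) (nat_lit 264) .nil))))))) (.g (nat_lit 5) .nil .nil)))) (.nd (nat_lit 5) 
(.lf (nat_lit 36762) (.g (nat_lit 346) (.e (nat_lit 1219) (nat_lit 90) (.e (nat_lit 81949) (nat_lit 21) (.e (nat_lit 57872) (nat_lit 264) .nil))) .nil)) 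
(.lf (nat_lit 36794) (.g (nat_lit 1960) (.e (nat_lit 1219) (nat_lit 90) (.e (nat_lit 81950) (nat_lit 21) (.e (nat_lit 57873) (nat_lit 264) (.e (nat_lit 1219) (nat_lit 90) (.e (nat_lit 81950) (nat_lit 21) .nil))))) .nil))))) (.nd (nat_lit 3) (.nd (nat_lit 4) (.nd (nat_lit 5) 
(.lf (nat_lit 36742) (.g (nat_lit 2547) (.e (nat_lit 1219) (nat_lit 90) (.e (nat_lit 81948) (nat_lit 21) (.e (nat_lit 57872) (nat_lit 264) (.e (nat_lit 1221) (nat_lit 90) (.e (nat_lit 81948) (nat_lit 21) (.e (nat_lit 57871) (nat_lit 264) .nil)))))) (.g (nat_lit 6) .nil .nil))) 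
(.lf (nat_lit 36774) (.g (nat_lit 1718) (.e (nat_lit 1219) (nat_lit 90) (.e (nat_lit 81950) (nat_lit 21) (.e (nat_lit 57871) (nat_lit 264) (.e (nat_lit 1221) (nat_lit 90) (.e (nat_lit 81950) (nat_lit 21) (.e (nat_lit 57870) (nat_lit 264) .nil)))))) (.g (nat_lit 4) .nil .nil)))) (.nd (nat_lit 5) 
(.lf (nat_lit 36758) (.g (nat_lit 1667) (.e (nat_lit 1219) (nat_lit 90) (.e (nat_lit 81949) (nat_lit 21) (.e (nat_lit 57870) (nat_lit 264) (.e (nat_lit 1220) (nat_lit 90) (.e (nat_lit 81950) (nat_lit 21) .nil))))) .nil)) 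
(.lf (nat_lit 36790) (.g (nat_lit 2020) (.e (nat_lit 1219) (nat_lit 90) (.e (nat_lit 81950) (nat_lit 21) (.e (nat_lit 57872) (nat_lit 264) (.e (nat_lit 1221) (nat_lit 90) (.e (nat_lit 81959) (nat_lit 24) (.e (nat_lit 123191) (nat_lit 264) .nil)))))) (.g (nat_lit 4) .nil .nil))))) (.nd (nat_lit 4) (.nd (nat_lit 5) 
(.lf (nat_lit 36750) (.g (nat_lit 3037) (.e (nat_lit 1219) (nat_lit 90) (.e (nat_lit 81948) (nat_lit 21) (.e (nat_lit 57873) (nat_lit 264) (.e (nat_lit 1221) (nat_lit 90) (.e (nat_lit 81948) (nat_lit 21) (.e (nat_lit 57873) (nat_lit 264) .nil)))))) (.g (nat_lit 6) .nil .nil))) 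
(.lf (nat_lit 36782) (.g (nat_lit 2160) (.e (nat_lit 1219) (nat_lit 90) (.e (nat_lit 81950) (nat_lit 21) (.e (nat_lit 57872) (nat_lit 264) (.e (nat_lit 1219) (nat_lit 90) (.e (nat_lit 81950) (nat_lit 21) .nil))))) .nil))) (.nd (nat_lit 5) 
(.lf (nat_lit 36766) (.g (nat_lit 1407) (.e (nat_lit 1219) (nat_lit 90) (.e (nat_lit 81950) (nat_lit 21) (.e (nat_lit 57681) (nat_lit 155) .nil))) .nil)) 
(.lf (nat_lit 36798) (.g (nat_lit 2155) (.e (nat_lit 1219) (nat_lit 90) (.e (nat_lit 81950) (nat_lit 21) (.e (nat_lit 57873) (nat_lit 264) (.e (nat_lit 1221) (nat_lit 90) (.e (nat_lit 81948) (nat_lit 21) (.e (nat_lit 57870) (nat_lit 264) .nil)))))) (.g (nat_lit 4) .nil .nil)))))))) (.nd (nat_lit 1) (.nd (nat_lit 2) (.nd (nat_lit 3) (.nd (nat_lit 4) (.nd (nat_lit 5) 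
(.lf (nat_lit 36737) (.g (nat_lit 3462) (.e (nat_lit 1219) (nat_lit 90) (.e (nat_lit 81948) (nat_lit 21) (.e (nat_lit 57872) (nat_lit 264) (.e (nat_lit 1200) (nat_lit 88) (.e (nat_lit 65604) (nat_lit 9) (.e (nat_lit 335997) (nat_lit 1) (.e (nat_lit 57872) (nat_lit 264) .nil))))))) (.g (nat_lit 0) .nil .nil))) 
(.lf (nat_lit 36769) (.g (nat_lit 1709) (.e (nat_lit 1219) (nat_lit 90) (.e (nat_lit 81950) (nat_lit 21) (.e (nat_lit 57870) (nat_lit 264) (.e (nat_lit 1221) (nat_lit 90) (.e (nat_lit 81950) (nat_lit 21) (.e (nat_lit 57870) (nat_lit 264) .nil)))))) (.g (nat_lit 4) .nil .nil)))) (.nd (nat_lit 5) 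
(.lf (nat_lit 36753) (.g (nat_lit 1117) (.e (nat_lit 1219) (nat_lit 90) (.e (nat_lit 81948) (nat_lit 21) (.e (nat_lit 57873) (nat_lit 264) (.e (nat_lit 7936) (nat_lit 90) .nil)))) .nil)) 
(.lf (nat_lit 36785) (.g (nat_lit 1899) (.e (nat_lit 1219) (nat_lit 90) (.e (nat_lit 81950) (nat_lit 21) (.e (nat_lit 57872) (nat_lit 264) (.e (nat_lit 1220) (nat_lit 90) (.e (nat_lit 81950) (nat_lit 21) (.e (nat_lit 57870) (nat_lit 264) .nil)))))) (.g (nat_lit 4) .nil .nil))))) (.nd (nat_lit 4) (.nd (nat_lit 5) 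
(.lf (nat_lit 36745) (.g (nat_lit 2990) (.e (nat_lit 1219) (nat_lit 90) (.e (nat_lit 81948) (nat_lit 21) (.e (nat_lit 57872) (nat_lit 264) (.e (nat_lit 1221) (nat_lit 90) (.e (nat_lit 81950) (nat_lit 21) (.e (nat_lit 57871) (nat_lit 264) .nil)))))) (.g (nat_lit 0) .nil .nil))) 
(.lf (nat_lit 36777) (.g (nat_lit 2614) (.e (nat_lit 1219) (nat_lit 90) (.e (nat_lit 81950) (nat_lit 21) (.e (nat_lit 57872) (nat_lit 264) (.e (nat_lit 1190) (nat_lit 88) (.e (nat_lit 65604) (nat_lit 9) (.e (nat_lit 335997) (nat_lit 1) (.e (nat_lit 57871) (nat_lit 264) .nil))))))) (.g (nat_lit 5) .nil .nil)))) (.nd (nat_lit 5) 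
(.lf (nat_lit 36761) (.g (nat_lit 357) (.e (nat_lit 1219) (nat_lit 90) (.e (nat_lit 81949) (nat_lit 21) (.e (nat_lit 57871) (nat_lit 264) .nil))) .nil)) 
(.lf (nat_lit 36793) (.g (nat_lit 2546) (.e (nat_lit 1219) (nat_lit 90) (.e (nat_lit 81950) (nat_lit 21) (.e (nat_lit 57873) (nat_lit 264) (.e (nat_lit 1200) (nat_lit 88) (.e (nat_lit 65604) (nat_lit 9) (.e (nat_lit 335997) (nat_lit 1) (.e (nat_lit 57871) (nat_lit 264) .nil))))))) (.g (nat_lit 5) .nil .nil)))))) (.nd (nat_lit 3) (.nd (nat_lit 4) (.nd (nat_lit 5) 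
(.lf (nat_lit 36741) (.g (nat_lit 2649) (.e (nat_lit 1219) (nat_lit 90) (.e (nat_lit 81948) (nat_lit 21) (.e (nat_lit 57872) (nat_lit 264) (.e (nat_lit 1221) (nat_lit 90) (.e (nat_lit 81948) (nat_lit 21) (.e (nat_lit 57870) (nat_lit 264) .nil)))))) (.g (nat_lit 6) .nil .nil))) 
(.lf (nat_lit 36773) (.g (nat_lit 1766) (.e (nat_lit 1219) (nat_lit 90) (.e (nat_lit 81950) (nat_lit 21) (.e (nat_lit 57871) (nat_lit 264) (.e (nat_lit 1190) (nat_lit 88) (.e (nat_lit 65604) (nat_lit 9) (.e (nat_lit 335997) (nat_lit 1) (.e (nat_lit 57871) (nat_lit 264) .nil))))))) (.g (nat_lit 4) .nil .nil)))) (.nd (nat_lit 5) 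
(.lf (nat_lit 36757) (.g (nat_lit 980) (.e (nat_lit 1219) (nat_lit 90) (.e (nat_lit 81949) (nat_lit 21) (.e (nat_lit 57870) (nat_lit 264) (.e (nat_lit 1200) (nat_lit 88) .nil)))) .nil)) 
(.lf (nat_lit 36789) (.g (nat_lit 3169) (.e (nat_lit 1219) (nat_lit 90) (.e (nat_lit 81950) (nat_lit 21) (.e (nat_lit 57872) (nat_lit 264) (.e (nat_lit 1221) (nat_lit 90) (.e (nat_lit 81950) (nat_lit 21) (.e (nat_lit 57873) (nat_lit 264) .nil)))))) (.g (nat_lit 6) .nil .nil))))) (.nd (nat_lit 4) (.nd (nat_lit 5) 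
(.lf (nat_lit 36749) (.g (nat_lit 2550) (.e (nat_lit 1219) (nat_lit 90) (.e (nat_lit 81948) (nat_lit 21) (.e (nat_lit 57873) (nat_lit 264) (.e (nat_lit 1221) (nat_lit 90) (.e (nat_lit 81948) (nat_lit 21) (.e (nat_lit 57871) (nat_lit 264) .nil)))))) (.g (nat_lit 6) .nil .nil))) 
(.lf (nat_lit 36781) (.g (nat_lit 1974) (.e (nat_lit 1219) (nat_lit 90) (.e (nat_lit 81950) (nat_lit 21) (.e (nat_lit 57872) (nat_lit 264) (.e (nat_lit 1219) (nat_lit 90) (.e (nat_lit 81948) (nat_lit 21) (.e (nat_lit 57871) (nat_lit 264) .nil)))))) (.g (nat_lit 4) .nil .nil)))) (.nd (nat_lit 5) 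
(.lf (nat_lit 36765) (.g (nat_lit 2078) (.e (nat_lit 1219) (nat_lit 90) (.e (nat_lit 81949) (nat_lit 21) (.e (nat_lit 57873) (nat_lit 264) (.e (nat_lit 1221) (nat_lit 90) (.e (nat_lit 81950) (nat_lit 21) (.e (nat_lit 57873) (nat_lit 264) .nil)))))) (.g (nat_lit 4) .nil .nil))) 
(.lf (nat_lit 36797) (.g (nat_lit 3217) (.e (nat_lit 1219) (nat_lit 90) (.e (nat_lit 81950) (nat_lit 21) (.e (nat_lit 57873) (nat_lit 264) (.e (nat_lit 1220) (nat_lit 90) (.e (nat_lit 81950) (nat_lit 21) (.e (nat_lit 57873) (nat_lit 264) .nil)))))) (.g (nat_lit 6) .nil .nil))))))) (.nd (nat_lit 2) (.nd (nat_lit 3) (.nd (nat_lit 4) (.nd (nat_lit 5) 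
(.lf (nat_lit 36739) (.g (nat_lit 2657) (.e (nat_lit 1219) (nat_lit 90) (.e (nat_lit 81948) (nat_lit 21) (.e (nat_lit 57872) (nat_lit 264) (.e (nat_lit 1220) (nat_lit 90) (.e (nat_lit 81950) (nat_lit 21) (.e (nat_lit 57870) (nat_lit 264) .nil)))))) (.g (nat_lit 5) .nil .nil))) 
(.lf (nat_lit 36771) (.g (nat_lit 465) (.e (nat_lit 1219) (nat_lit 90) (.e (nat_lit 81950) (nat_lit 21) (.e (nat_lit 57871) (nat_lit 264) .nil))) .nil))) (.nd (nat_lit 5) 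
(.lf (nat_lit 36755) (.g (nat_lit 985) (.e (nat_lit 1219) (nat_lit 90) (.e (nat_lit 81949) (nat_lit 21) (.e (nat_lit 57870) (nat_lit 264) (.e (nat_lit 1190) (nat_lit 88) .nil)))) .nil)) 
(.lf (nat_lit 36787) (.g (nat_lit 2138) (.e (nat_lit 1219) (nat_lit 90) (.e (nat_lit 81950) (nat_lit 21) (.e (nat_lit 57872) (nat_lit 264) (.e (nat_lit 1221) (nat_lit 90) (.e (nat_lit 81948) (nat_lit 21) .nil))))) .nil)))) (.nd (nat_lit 4) (.nd (nat_lit 5) 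
(.lf (nat_lit 36747) (.g (nat_lit 2802) (.e (nat_lit 1219) (nat_lit 90) (.e (nat_lit 81948) (nat_lit 21) (.e (nat_lit 57873) (nat_lit 264) (.e (nat_lit 1219) (nat_lit 90) (.e (nat_lit 81950) (nat_lit 21) (.e (nat_lit 57872) (nat_lit 264) .nil)))))) (.g (nat_lit 6) .nil .nil))) 
(.lf (nat_lit 36779) (.g (nat_lit 2554) (.e (nat_lit 1219) (nat_lit 90) (.e (nat_lit 81950) (nat_lit 21) (.e (nat_lit 57872) (nat_lit 264) (.e (nat_lit 1200) (nat_lit 88) (.e (nat_lit 65604) (nat_lit 9) (.e (nat_lit 335997) (nat_lit 1) (.e (nat_lit 57871) (nat_lit 264) .nil))))))) (.g (nat_lit 5) .nil .nil)))) (.nd (nat_lit 5) 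
(.lf (nat_lit 36763) (.g (nat_lit 1343) (.e (nat_lit 1219) (nat_lit 90) (.e (nat_lit 81949) (nat_lit 21) (.e (nat_lit 57873) (nat_lit 264) (.e (nat_lit 1190) (nat_lit 88) .nil)))) .nil)) 
(.lf (nat_lit 36795) (.g (nat_lit 2324) (.e (nat_lit 1219) (nat_lit 90) (.e (nat_lit 81950) (nat_lit 21) (.e (nat_lit 57873) (nat_lit 264) (.e (nat_lit 1220) (nat_lit 90) (.e (nat_lit 81950) (nat_lit 21) (.e (nat_lit 57870) (nat_lit 264) .nil)))))) (.g (nat_lit 4) .nil .nil)))))) (.nd (nat_lit 3) (.nd (nat_lit 4) (.nd (nat_lit 5) 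
(.lf (nat_lit 36743) (.g (nat_lit 3019) (.e (nat_lit 1219) (nat_lit 90) (.e (nat_lit 81948) (nat_lit 21) (.e (nat_lit 57872) (nat_lit 264) (.e (nat_lit 1221) (nat_lit 90) (.e (nat_lit 81948) (nat_lit 21) (.e (nat_lit 57873) (nat_lit 264) .nil)))))) (.g (nat_lit 6) .nil .nil))) 
(.lf (nat_lit 36775) (.g (nat_lit 1732) (.e (nat_lit 1219) (nat_lit 90) (.e (nat_lit 81950) (nat_lit 21) (.e (nat_lit 57871) (nat_lit 264) (.e (nat_lit 1221) (nat_lit 90) (.e (nat_lit 81950) (nat_lit 21) (.e (nat_lit 57871) (nat_lit 264) .nil)))))) (.g (nat_lit 4) .nil .nil)))) (.nd (nat_lit 5) 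
(.lf (nat_lit 36759) (.g (nat_lit 1945) (.e (nat_lit 1219) (nat_lit 90) (.e (nat_lit 81949) (nat_lit 21) (.e (nat_lit 57870) (nat_lit 264) (.e (nat_lit 1220) (nat_lit 90) (.e (nat_lit 81950) (nat_lit 21) (.e (nat_lit 57872) (nat_lit 264) .nil)))))) (.g (nat_lit 4) .nil .nil))) 
(.lf (nat_lit 36791) (.g (nat_lit 1489) (.e (nat_lit 1219) (nat_lit 90) (.e (nat_lit 81950) (nat_lit 21) (.e (nat_lit 57873) (nat_lit 264) (.e (nat_lit 1189) (nat_lit 88) .nil)))) .nil)))) (.nd (nat_lit 4) (.nd (nat_lit 5) 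
(.lf (nat_lit 36751) (.g (nat_lit 2892) (.e (nat_lit 1219) (nat_lit 90) (.e (nat_lit 81948) (nat_lit 21) (.e (nat_lit 57873) (nat_lit 264) (.e (nat_lit 1221) (nat_lit 90) (.e (nat_lit 81950) (nat_lit 21) (.e (nat_lit 57870) (nat_lit 264) .nil)))))) (.g (nat_lit 0) .nil .nil))) 
(.lf (nat_lit 36783) (.g (nat_lit 2394) (.e (nat_lit 1219) (nat_lit 90) (.e (nat_lit 81950) (nat_lit 21) (.e (nat_lit 57872) (nat_lit 264) (.e (nat_lit 1219) (nat_lit 90) (.e (nat_lit 81950) (nat_lit 21) (.e (nat_lit 57872) (nat_lit 264) .nil)))))) (.g (nat_lit 4) .nil .nil)))) (.nd (nat_lit 5) 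
(.lf (nat_lit 36767) (.g (nat_lit 3135) (.e (nat_lit 1219) (nat_lit 90) (.e (nat_lit 81950) (nat_lit 21) (.e (nat_lit 57681) (nat_lit 155) (.e (nat_lit 122919) (nat_lit 15) .nil)))) .nil)) 
(.lf (nat_lit 36799) (.g (nat_lit 2093) (.e (nat_lit 1219) (nat_lit 90) (.e (nat_lit 81950) (nat_lit 21) (.e (nat_lit 57873) (nat_lit 264) (.e (nat_lit 1221) (nat_lit 90) (.e (nat_lit 81948) (nat_lit 21) (.e (nat_lit 57871) (nat_lit 264) .nil)))))) (.g (nat_lit 4) .nil .nil)))))))))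

noncomputable def tv513 : DT := (.nd (nat_lit 0) (.nd (nat_lit 1) (.nd (nat_lit 2) (.nd (nat_lit 3) (.nd (nat_lit 4) (.nd (nat_lit 5) 
(.lf (nat_lit 36800) (.g (nat_lit 2762) (.e (nat_lit 1219) (nat_lit 90) (.e (nat_lit 81950) (nat_lit 21) (.e (nat_lit 57873) (nat_lit 264) (.e (nat_lit 1221) (nat_lit 90) (.e (nat_lit 81948) (nat_lit 21) (.e (nat_lit 57873) (nat_lit 264) .nil)))))) (.g (nat_lit 5) .nil .nil))) 
(.lf (nat_lit 36832) (.g (nat_lit 1485) (.e (nat_lit 1219) (nat_lit 90) (.e (nat_lit 81956) (nat_lit 23) (.e (nat_lit 98321) (nat_lit 17) (.e (nat_lit 7936) (nat_lit 220) .nil)))) .nil))) (.nd (nat_lit 5) 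
(.lf (nat_lit 36816) (.g (nat_lit 652) (.e (nat_lit 1219) (nat_lit 90) (.e (nat_lit 81954) (nat_lit 23) (.e (nat_lit 98317) (nat_lit 9) .nil))) .nil)) 
(.lf (nat_lit 36848) (.g (nat_lit 1572) (.e (nat_lit 1219) (nat_lit 90) (.e (nat_lit 81957) (nat_lit 24) (.e (nat_lit 123182) (nat_lit 264) (.e (nat_lit 1218) (nat_lit 90) .nil)))) .nil)))) (.nd (nat_lit 4) (.nd (nat_lit 5) 
(.lf (nat_lit 36808) (.g (nat_lit 1259) (.e (nat_lit 1219) (nat_lit 90) (.e (nat_lit 81953) (nat_lit 22) (.e (nat_lit 90155) (nat_lit 10) .nil))) .nil)) 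
(.lf (nat_lit 36840) (.g (nat_lit 2116) (.e (nat_lit 1219) (nat_lit 90) (.e (nat_lit 81956) (nat_lit 23) (.e (nat_lit 98356) (nat_lit 26) (.e (nat_lit 426448) (nat_lit 20) .nil)))) .nil))) (.nd (nat_lit 5) 
(.lf (nat_lit 36824) (.g (nat_lit 4036) (.e (nat_lit 1219) (nat_lit 90) (.e (nat_lit 81954) (nat_lit 23) (.e (nat_lit 98333) (nat_lit 18) (.e (nat_lit 164182) (nat_lit 154) (.e (nat_lit 57411) (nat_lit 12) (.e (nat_lit 335878) (nat_lit 0) (.e (nat_lit 1016) (nat_lit 81) (.e (nat_lit 7454) (nat_lit 396) .nil)))))))) (.g (nat_lit 5) .nil .nil))) 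
(.lf (nat_lit 36856) (.g (nat_lit 2325) (.e (nat_lit 1219) (nat_lit 90) (.e (nat_lit 81957) (nat_lit 24) (.e (nat_lit 123195) (nat_lit 266) (.e (nat_lit 57406) (nat_lit 12) (.e (nat_lit 336129) (nat_lit 9) .nil))))) .nil))))) (.nd (nat_lit 3) (.nd (nat_lit 4) (.nd (nat_lit 5) 
(.lf (nat_lit 36804) (.g (nat_lit 1440) (.e (nat_lit 1219) (nat_lit 90) (.e (nat_lit 81953) (nat_lit 22) (.e (nat_lit 90113) (nat_lit 0) .nil))) .nil)) 
(.lf (nat_lit 36836) (.g (nat_lit 2132) (.e (nat_lit 1219) (nat_lit 90) (.e (nat_lit 81956) (nat_lit 23) (.e (nat_lit 98334) (nat_lit 18) (.e (nat_lit 164161) (nat_lit 152) .nil)))) .nil))) (.nd (nat_lit 5) 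
(.lf (nat_lit 36820) (.g (nat_lit 1776) (.e (nat_lit 1219) (nat_lit 90) (.e (nat_lit 81954) (nat_lit 23) (.e (nat_lit 98333) (nat_lit 18) (.e (nat_lit 164148) (nat_lit 152) .nil)))) .nil)) 
(.lf (nat_lit 36852) (.g (nat_lit 2090) (.e (nat_lit 1219) (nat_lit 90) (.e (nat_lit 81957) (nat_lit 24) (.e (nat_lit 123183) (nat_lit 264) (.e (nat_lit 1222) (nat_lit 90) (.e (nat_lit 81950) (nat_lit 21) (.e (nat_lit 57872) (nat_lit 264) .nil)))))) (.g (nat_lit 4) .nil .nil))))) (.nd (nat_lit 4) (.nd (nat_lit 5) 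
(.lf (nat_lit 36812) (.g (nat_lit 2426) (.e (nat_lit 1219) (nat_lit 90) (.e (nat_lit 81954) (nat_lit 23) (.e (nat_lit 98313) (nat_lit 9) (.e (nat_lit 335995) (nat_lit 1) (.e (nat_lit 57847) (nat_lit 252) (.e (nat_lit 57363) (nat_lit 1) (.e (nat_lit 57754) (nat_lit 209) .nil))))))) (.g (nat_lit 4) .nil .nil))) 
(.lf (nat_lit 36844) (.g (nat_lit 2772) (.e (nat_lit 1219) (nat_lit 90) (.e (nat_lit 81957) (nat_lit 24) (.e (nat_lit 123182) (nat_lit 264) (.e (nat_lit 1201) (nat_lit 88) (.e (nat_lit 65617) (nat_lit 10) (.e (nat_lit 344097) (nat_lit 18) (.e (nat_lit 5905) (nat_lit 320) .nil))))))) (.g (nat_lit 4) .nil .nil)))) (.nd (nat_lit 5) 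
(.lf (nat_lit 36828) (.g (nat_lit 980) (.e (nat_lit 1219) (nat_lit 90) (.e (nat_lit 81956) (nat_lit 23) (.e (nat_lit 98313) (nat_lit 9) .nil))) .nil)) 
(.lf (nat_lit 36860) (.g (nat_lit 2831) (.e (nat_lit 1219) (nat_lit 90) (.e (nat_lit 81957) (nat_lit 24) (.e (nat_lit 123195) (nat_lit 266) (.e (nat_lit 57426) (nat_lit 15) (.e (nat_lit 360452) (nat_lit 0) (.e (nat_lit 5906) (nat_lit 320) .nil)))))) (.g (nat_lit 5) .nil .nil))))))) (.nd (nat_lit 2) (.nd (nat_lit 3) (.nd (nat_lit 4) (.nd (nat_lit 5) 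
(.lf (nat_lit 36802) (.g (nat_lit 3230) (.e (nat_lit 1219) (nat_lit 90) (.e (nat_lit 81950) (nat_lit 21) (.e (nat_lit 57873) (nat_lit 264) (.e (nat_lit 1221) (nat_lit 90) (.e (nat_lit 81950) (nat_lit 21) (.e (nat_lit 57873) (nat_lit 264) .nil)))))) (.g (nat_lit 6) .nil .nil))) 
(.lf (nat_lit 36834) (.g (nat_lit 4824) (.e (nat_lit 1219) (nat_lit 90) (.e (nat_lit 81956) (nat_lit 23) (.e (nat_lit 98333) (nat_lit 18) (.e (nat_lit 164182) (nat_lit 154) (.e (nat_lit 57411) (nat_lit 12) (.e (nat_lit 335878) (nat_lit 0) (.e (nat_lit 1016) (nat_lit 81) (.e (nat_lit 7454) (nat_lit 396) .nil)))))))) (.g (nat_lit 5) .nil .nil)))) (.nd (nat_lit 5) 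
(.lf (nat_lit 36818) (.g (nat_lit 2837) (.e (nat_lit 1219) (nat_lit 90) (.e (nat_lit 81954) (nat_lit 23) (.e (nat_lit 98317) (nat_lit 9) (.e (nat_lit 335995) (nat_lit 1) (.e (nat_lit 57847) (nat_lit 252) .nil))))) .nil)) 
(.lf (nat_lit 36850) (.g (nat_lit 2999) (.e (nat_lit 1219) (nat_lit 90) (.e (nat_lit 81957) (nat_lit 24) (.e (nat_lit 123182) (nat_lit 264) (.e (nat_lit 1222) (nat_lit 90) (.e (nat_lit 81950) (nat_lit 21) (.e (nat_lit 57872) (nat_lit 264) .nil)))))) (.g (nat_lit 4) .nil .nil))))) (.nd (nat_lit 4) (.nd (nat_lit 5) 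
(.lf (nat_lit 36810) (.g (nat_lit 679) (.e (nat_lit 1219) (nat_lit 90) (.e (nat_lit 81954) (nat_lit 23) (.e (nat_lit 98313) (nat_lit 9) .nil))) .nil)) 
(.lf (nat_lit 36842) (.g (nat_lit 1514) (.e (nat_lit 1219) (nat_lit 90) (.e (nat_lit 81956) (nat_lit 23) (.e (nat_lit 98389) (nat_lit 33) (.e (nat_lit 491558) (nat_lit 10) .nil)))) .nil))) (.nd (nat_lit 5) 
(.lf (nat_lit 36826) (.g (nat_lit 1947) (.e (nat_lit 1219) (nat_lit 90) (.e (nat_lit 81954) (nat_lit 23) (.e (nat_lit 98356) (nat_lit 26) (.e (nat_lit 426448) (nat_lit 20) (.e (nat_lit 122624) (nat_lit 1) .nil))))) .nil)) 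
(.lf (nat_lit 36858) (.g (nat_lit 2356) (.e (nat_lit 1219) (nat_lit 90) (.e (nat_lit 81957) (nat_lit 24) (.e (nat_lit 123195) (nat_lit 266) (.e (nat_lit 57406) (nat_lit 12) (.e (nat_lit 336142) (nat_lit 9) .nil))))) .nil))))) (.nd (nat_lit 3) (.nd (nat_lit 4) (.nd (nat_lit 5) 
(.lf (nat_lit 36806) (.g (nat_lit 1436) (.e (nat_lit 1219) (nat_lit 90) (.e (nat_lit 81953) (nat_lit 22) (.e (nat_lit 90118) (nat_lit 0) .nil))) .nil)) 
(.lf (nat_lit 36838) (.g (nat_lit 1462) (.e (nat_lit 1219) (nat_lit 90) (.e (nat_lit 81956) (nat_lit 23) (.e (nat_lit 98345) (nat_lit 22) .nil))) .nil))) (.nd (nat_lit 5) 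
(.lf (nat_lit 36822) (.g (nat_lit 1506) (.e (nat_lit 1219) (nat_lit 90) (.e (nat_lit 81954) (nat_lit 23) (.e (nat_lit 98333) (nat_lit 18) (.e (nat_lit 164151) (nat_lit 152) .nil)))) .nil)) 
(.lf (nat_lit 36854) (.g (nat_lit 1408) (.e (nat_lit 1219) (nat_lit 90) (.e (nat_lit 81957) (nat_lit 24) (.e (nat_lit 123185) (nat_lit 264) (.e (nat_lit 1223) (nat_lit 90) (.e (nat_lit 81950) (nat_lit 21) (.e (nat_lit 57870) (nat_lit 264) .nil)))))) (.g (nat_lit 4) .nil .nil))))) (.nd (nat_lit 4) (.nd (nat_lit 5) 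
(.lf (nat_lit 36814) (.g (nat_lit 2285) (.e (nat_lit 1219) (nat_lit 90) (.e (nat_lit 81954) (nat_lit 23) (.e (nat_lit 98313) (nat_lit 9) (.e (nat_lit 335995) (nat_lit 1) (.e (nat_lit 57847) (nat_lit 252) (.e (nat_lit 57368) (nat_lit 1) (.e (nat_lit 57754) (nat_lit 209) .nil))))))) (.g (nat_lit 4) .nil .nil))) 
(.lf (nat_lit 36846) (.g (nat_lit 3156) (.e (nat_lit 1219) (nat_lit 90) (.e (nat_lit 81957) (nat_lit 24) (.e (nat_lit 123182) (nat_lit 264) (.e (nat_lit 1201) (nat_lit 88) (.e (nat_lit 65617) (nat_lit 10) (.e (nat_lit 344097) (nat_lit 18) (.e (nat_lit 5907) (nat_lit 320) .nil))))))) (.g (nat_lit 4) .nil .nil)))) (.nd (nat_lit 5) 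
(.lf (nat_lit 36830) (.g (nat_lit 1239) (.e (nat_lit 1219) (nat_lit 90) (.e (nat_lit 81956) (nat_lit 23) (.e (nat_lit 106240) (nat_lit 10) .nil))) .nil)) 
(.lf (nat_lit 36862) (.g (nat_lit 2109) (.e (nat_lit 1219) (nat_lit 90) (.e (nat_lit 81957) (nat_lit 24) (.e (nat_lit 123195) (nat_lit 266) (.e (nat_lit 57426) (nat_lit 15) (.e (nat_lit 368384) (nat_lit 0) (.e (nat_lit 5906) (nat_lit 320) .nil)))))) (.g (nat_lit 4) .nil .nil)))))))) (.nd (nat_lit 1) (.nd (nat_lit 2) (.nd (nat_lit 3) (.nd (nat_lit 4) (.nd (nat_lit 5) 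
(.lf (nat_lit 36801) (.g (nat_lit 3248) (.e (nat_lit 1219) (nat_lit 90) (.e (nat_lit 81950) (nat_lit 21) (.e (nat_lit 57873) (nat_lit 264) (.e (nat_lit 1221) (nat_lit 90) (.e (nat_lit 81950) (nat_lit 21) (.e (nat_lit 57872) (nat_lit 264) .nil)))))) (.g (nat_lit 6) .nil .nil))) 
(.lf (nat_lit 36833) (.g (nat_lit 2806) (.e (nat_lit 1219) (nat_lit 90) (.e (nat_lit 81956) (nat_lit 23) (.e (nat_lit 98333) (nat_lit 18) (.e (nat_lit 164153) (nat_lit 152) (.e (nat_lit 1214) (nat_lit 89) .nil))))) .nil))) (.nd (nat_lit 5) 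
(.lf (nat_lit 36817) (.g (nat_lit 3062) (.e (nat_lit 1219) (nat_lit 90) (.e (nat_lit 81954) (nat_lit 23) (.e (nat_lit 98317) (nat_lit 9) (.e (nat_lit 335986) (nat_lit 1) (.e (nat_lit 57847) (nat_lit 252) .nil))))) .nil)) 
(.lf (nat_lit 36849) (.g (nat_lit 2652) (.e (nat_lit 1219) (nat_lit 90) (.e (nat_lit 81957) (nat_lit 24) (.e (nat_lit 123182) (nat_lit 264) (.e (nat_lit 1222) (nat_lit 90) (.e (nat_lit 81950) (nat_lit 21) .nil))))) .nil)))) (.nd (nat_lit 4) (.nd (nat_lit 5) 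
(.lf (nat_lit 36809) (.g (nat_lit 646) (.e (nat_lit 1219) (nat_lit 90) (.e (nat_lit 81954) (nat_lit 23) (.e (nat_lit 98309) (nat_lit 0) .nil))) .nil)) 
(.lf (nat_lit 36841) (.g (nat_lit 709) (.e (nat_lit 1219) (nat_lit 90) (.e (nat_lit 81956) (nat_lit 23) (.e (nat_lit 98389) (nat_lit 33) .nil))) .nil))) (.nd (nat_lit 5) 
(.lf (nat_lit 36825) (.g (nat_lit 3114) (.e (nat_lit 1219) (nat_lit 90) (.e (nat_lit 81954) (nat_lit 23) (.e (nat_lit 98333) (nat_lit 18) (.e (nat_lit 164183) (nat_lit 154) (.e (nat_lit 57411) (nat_lit 12) (.e (nat_lit 335878) (nat_lit 0) (.e (nat_lit 1016) (nat_lit 81) (.e (nat_lit 7454) (nat_lit 396) .nil)))))))) (.g (nat_lit 4) .nil .nil))) 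
(.lf (nat_lit 36857) (.g (nat_lit 2263) (.e (nat_lit 1219) (nat_lit 90) (.e (nat_lit 81957) (nat_lit 24) (.e (nat_lit 123195) (nat_lit 266) (.e (nat_lit 57406) (nat_lit 12) (.e (nat_lit 336130) (nat_lit 9) .nil))))) .nil))))) (.nd (nat_lit 3) (.nd (nat_lit 4) (.nd (nat_lit 5) 
(.lf (nat_lit 36805) (.g (nat_lit 1520) (.e (nat_lit 1219) (nat_lit 90) (.e (nat_lit 81953) (nat_lit 22) (.e (nat_lit 90117) (nat_lit 0) (.e (nat_lit 461) (nat_lit 34) .nil)))) .nil)) 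
(.lf (nat_lit 36837) (.g (nat_lit 3120) (.e (nat_lit 1219) (nat_lit 90) (.e (nat_lit 81956) (nat_lit 23) (.e (nat_lit 98334) (nat_lit 18) (.e (nat_lit 164182) (nat_lit 154) (.e (nat_lit 57411) (nat_lit 12) .nil))))) .nil))) (.nd (nat_lit 5) 
(.lf (nat_lit 36821) (.g (nat_lit 1774) (.e (nat_lit 1219) (nat_lit 90) (.e (nat_lit 81954) (nat_lit 23) (.e (nat_lit 98333) (nat_lit 18) (.e (nat_lit 164150) (nat_lit 152) .nil)))) .nil)) 
(.lf (nat_lit 36853) (.g (nat_lit 1120) (.e (nat_lit 1219) (nat_lit 90) (.e (nat_lit 81957) (nat_lit 24) (.e (nat_lit 123184) (nat_lit 264) (.e (nat_lit 7936) (nat_lit 90) .nil)))) .nil)))) (.nd (nat_lit 4) (.nd (nat_lit 5) 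
(.lf (nat_lit 36813) (.g (nat_lit 2813) (.e (nat_lit 1219) (nat_lit 90) (.e (nat_lit 81954) (nat_lit 23) (.e (nat_lit 98313) (nat_lit 9) (.e (nat_lit 335995) (nat_lit 1) (.e (nat_lit 57847) (nat_lit 252) (.e (nat_lit 57365) (nat_lit 1) (.e (nat_lit 57754) (nat_lit 209) .nil))))))) (.g (nat_lit 5) .nil .nil))) 
(.lf (nat_lit 36845) (.g (nat_lit 2900) (.e (nat_lit 1219) (nat_lit 90) (.e (nat_lit 81957) (nat_lit 24) (.e (nat_lit 123182) (nat_lit 264) (.e (nat_lit 1201) (nat_lit 88) (.e (nat_lit 65617) (nat_lit 10) (.e (nat_lit 344097) (nat_lit 18) (.e (nat_lit 5906) (nat_lit 320) .nil))))))) (.g (nat_lit 4) .nil .nil)))) (.nd (nat_lit 5) 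
(.lf (nat_lit 36829) (.g (nat_lit 3167) (.e (nat_lit 1219) (nat_lit 90) (.e (nat_lit 81956) (nat_lit 23) (.e (nat_lit 98313) (nat_lit 9) (.e (nat_lit 335995) (nat_lit 1) (.e (nat_lit 57847) (nat_lit 252) (.e (nat_lit 57365) (nat_lit 1) (.e (nat_lit 57754) (nat_lit 209) .nil))))))) (.g (nat_lit 4) .nil .nil))) 
(.lf (nat_lit 36861) (.g (nat_lit 2208) (.e (nat_lit 1219) (nat_lit 90) (.e (nat_lit 81957) (nat_lit 24) (.e (nat_lit 123195) (nat_lit 266) (.e (nat_lit 57426) (nat_lit 15) (.e (nat_lit 368384) (nat_lit 0) (.e (nat_lit 5902) (nat_lit 320) .nil)))))) (.g (nat_lit 4) .nil .nil))))))) (.nd (nat_lit 2) (.nd (nat_lit 3) (.nd (nat_lit 4) (.nd (nat_lit 5) 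
(.lf (nat_lit 36803) (.g (nat_lit 1597) (.e (nat_lit 1219) (nat_lit 90) (.e (nat_lit 81951) (nat_lit 22) (.e (nat_lit 90160) (nat_lit 11) (.e (nat_lit 24599) (nat_lit 1) .nil)))) .nil)) 
(.lf (nat_lit 36835) (.g (nat_lit 1929) (.e (nat_lit 1219) (nat_lit 90) (.e (nat_lit 81956) (nat_lit 23) (.e (nat_lit 98334) (nat_lit 18) (.e (nat_lit 164159) (nat_lit 152) .nil)))) .nil))) (.nd (nat_lit 5) 
(.lf (nat_lit 36819) (.g (nat_lit 2841) (.e (nat_lit 1219) (nat_lit 90) (.e (nat_lit 81954) (nat_lit 23) (.e (nat_lit 98317) (nat_lit 9) (.e (nat_lit 335995) (nat_lit 1) (.e (nat_lit 57849) (nat_lit 252) .nil))))) .nil)) 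
(.lf (nat_lit 36851) (.g (nat_lit 1507) (.e (nat_lit 1219) (nat_lit 90) (.e (nat_lit 81957) (nat_lit 24) (.e (nat_lit 123182) (nat_lit 264) (.e (nat_lit 1223) (nat_lit 90) .nil)))) .nil)))) (.nd (nat_lit 4) (.nd (nat_lit 5) 
(.lf (nat_lit 36811) (.g (nat_lit 2205) (.e (nat_lit 1219) (nat_lit 90) (.e (nat_lit 81954) (nat_lit 23) (.e (nat_lit 98313) (nat_lit 9) (.e (nat_lit 335986) (nat_lit 1) (.e (nat_lit 57847) (nat_lit 252) (.e (nat_lit 57365) (nat_lit 1) (.e (nat_lit 57754) (nat_lit 209) .nil))))))) (.g (nat_lit 4) .nil .nil))) 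
(.lf (nat_lit 36843) (.g (nat_lit 1553) (.e (nat_lit 1219) (nat_lit 90) (.e (nat_lit 81956) (nat_lit 23) (.e (nat_lit 98389) (nat_lit 33) (.e (nat_lit 491562) (nat_lit 12) .nil)))) .nil))) (.nd (nat_lit 5) 
(.lf (nat_lit 36827) (.g (nat_lit 1042) (.e (nat_lit 1219) (nat_lit 90) (.e (nat_lit 81956) (nat_lit 23) (.e (nat_lit 98309) (nat_lit 0) .nil))) .nil)) 
(.lf (nat_lit 36859) (.g (nat_lit 4025) (.e (nat_lit 1219) (nat_lit 90) (.e (nat_lit 81957) (nat_lit 24) (.e (nat_lit 123195) (nat_lit 266) (.e (nat_lit 57426) (nat_lit 15) (.e (nat_lit 360452) (nat_lit 0) (.e (nat_lit 5905) (nat_lit 320) .nil)))))) (.g (nat_lit 0) .nil .nil)))))) (.nd (nat_lit 3) (.nd (nat_lit 4) (.nd (nat_lit 5) 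
(.lf (nat_lit 36807) (.g (nat_lit 693) (.e (nat_lit 1219) (nat_lit 90) (.e (nat_lit 81953) (nat_lit 22) (.e (nat_lit 98048) (nat_lit 0) .nil))) .nil)) 
(.lf (nat_lit 36839) (.g (nat_lit 1033) (.e (nat_lit 1219) (nat_lit 90) (.e (nat_lit 81956) (nat_lit 23) (.e (nat_lit 98350) (nat_lit 24) .nil))) .nil))) (.nd (nat_lit 5) 
(.lf (nat_lit 36823) (.g (nat_lit 2176) (.e (nat_lit 1219) (nat_lit 90) (.e (nat_lit 81954) (nat_lit 23) (.e (nat_lit 98333) (nat_lit 18) (.e (nat_lit 164151) (nat_lit 152) (.e (nat_lit 1206) (nat_lit 89) .nil))))) .nil)) 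
(.lf (nat_lit 36855) (.g (nat_lit 619) (.e (nat_lit 1219) (nat_lit 90) (.e (nat_lit 81957) (nat_lit 24) (.e (nat_lit 123194) (nat_lit 266) .nil))) .nil)))) (.nd (nat_lit 4) (.nd (nat_lit 5) 
(.lf (nat_lit 36815) (.g (nat_lit 2358) (.e (nat_lit 1219) (nat_lit 90) (.e (nat_lit 81954) (nat_lit 23) (.e (nat_lit 98313) (nat_lit 9) (.e (nat_lit 335995) (nat_lit 1) (.e (nat_lit 57849) (nat_lit 252) .nil))))) .nil)) 
(.lf (nat_lit 36847) (.g (nat_lit 3186) (.e (nat_lit 1219) (nat_lit 90) (.e (nat_lit 81957) (nat_lit 24) (.e (nat_lit 123182) (nat_lit 264) (.e (nat_lit 1201) (nat_lit 88) (.e (nat_lit 65619) (nat_lit 10) .nil))))) .nil))) (.nd (nat_lit 5) 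
(.lf (nat_lit 36831) (.g (nat_lit 935) (.e (nat_lit 1219) (nat_lit 90) (.e (nat_lit 81956) (nat_lit 23) (.e (nat_lit 98320) (nat_lit 17) .nil))) .nil)) 
(.lf (nat_lit 36863) (.g (nat_lit 2697) (.e (nat_lit 1219) (nat_lit 90) (.e (nat_lit 81957) (nat_lit 24) (.e (nat_lit 123195) (nat_lit 266) (.e (nat_lit 57427) (nat_lit 15) (.e (nat_lit 360451) (nat_lit 0) (.e (nat_lit 5896) (nat_lit 320) .nil)))))) (.g (nat_lit 5) .nil .nil)))))))))

noncomputable def tv514 : DT := (.nd (nat_lit 0) (.nd (nat_lit 1) (.nd (nat_lit 2) (.nd (nat_lit 3) (.nd (nat_lit 4) (.nd (nat_lit 5) 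
(.lf (nat_lit 36864) (.g (nat_lit 2978) (.e (nat_lit 1219) (nat_lit 90) (.e (nat_lit 81957) (nat_lit 24) (.e (nat_lit 123195) (nat_lit 266) (.e (nat_lit 57427) (nat_lit 15) (.e (nat_lit 360454) (nat_lit 0) (.e (nat_lit 5907) (nat_lit 320) .nil)))))) (.g (nat_lit 4) .nil .nil))) 
(.lf (nat_lit 36896) (.g (nat_lit 2525) (.e (nat_lit 1219) (nat_lit 90) (.e (nat_lit 81959) (nat_lit 24) (.e (nat_lit 123183) (nat_lit 264) (.e (nat_lit 1222) (nat_lit 90) (.e (nat_lit 81948) (nat_lit 21) (.e (nat_lit 57871) (nat_lit 264) .nil)))))) (.g (nat_lit 5) .nil .nil)))) (.nd (nat_lit 5) 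
(.lf (nat_lit 36880) (.g (nat_lit 2380) (.e (nat_lit 1219) (nat_lit 90) (.e (nat_lit 81959) (nat_lit 24) (.e (nat_lit 123182) (nat_lit 264) (.e (nat_lit 997) (nat_lit 81) .nil)))) .nil)) 
(.lf (nat_lit 36912) (.g (nat_lit 876) (.e (nat_lit 1219) (nat_lit 90) (.e (nat_lit 81963) (nat_lit 26) (.e (nat_lit 147466) (nat_lit 9) (.e (nat_lit 324) (nat_lit 24) .nil)))) .nil)))) (.nd (nat_lit 4) (.nd (nat_lit 5) 
(.lf (nat_lit 36872) (.g (nat_lit 3008) (.e (nat_lit 1219) (nat_lit 90) (.e (nat_lit 81957) (nat_lit 24) (.e (nat_lit 123197) (nat_lit 266) (.e (nat_lit 57436) (nat_lit 17) (.e (nat_lit 376860) (nat_lit 21) (.e (nat_lit 57870) (nat_lit 264) .nil)))))) (.g (nat_lit 5) .nil .nil))) 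
(.lf (nat_lit 36904) (.g (nat_lit 2369) (.e (nat_lit 1219) (nat_lit 90) (.e (nat_lit 81959) (nat_lit 24) (.e (nat_lit 123195) (nat_lit 266) (.e (nat_lit 57426) (nat_lit 15) (.e (nat_lit 360452) (nat_lit 0) (.e (nat_lit 5905) (nat_lit 320) .nil)))))) (.g (nat_lit 4) .nil .nil)))) (.nd (nat_lit 5) 
(.lf (nat_lit 36888) (.g (nat_lit 2331) (.e (nat_lit 1219) (nat_lit 90) (.e (nat_lit 81959) (nat_lit 24) (.e (nat_lit 123182) (nat_lit 264) (.e (nat_lit 1218) (nat_lit 90) .nil)))) .nil)) 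
(.lf (nat_lit 36920) (.g (nat_lit 1086) (.e (nat_lit 1219) (nat_lit 90) (.e (nat_lit 81963) (nat_lit 26) (.e (nat_lit 147495) (nat_lit 11) (.e (nat_lit 24639) (nat_lit 10) .nil)))) .nil))))) (.nd (nat_lit 3) (.nd (nat_lit 4) (.nd (nat_lit 5) 
(.lf (nat_lit 36868) (.g (nat_lit 1792) (.e (nat_lit 1219) (nat_lit 90) (.e (nat_lit 81957) (nat_lit 24) (.e (nat_lit 123197) (nat_lit 266) (.e (nat_lit 57426) (nat_lit 15) (.e (nat_lit 368384) (nat_lit 0) (.e (nat_lit 5902) (nat_lit 320) .nil)))))) (.g (nat_lit 4) .nil .nil))) 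
(.lf (nat_lit 36900) (.g (nat_lit 2045) (.e (nat_lit 1219) (nat_lit 90) (.e (nat_lit 81959) (nat_lit 24) (.e (nat_lit 123185) (nat_lit 264) (.e (nat_lit 1222) (nat_lit 90) (.e (nat_lit 81948) (nat_lit 21) (.e (nat_lit 57871) (nat_lit 264) .nil)))))) (.g (nat_lit 5) .nil .nil)))) (.nd (nat_lit 5) 
(.lf (nat_lit 36884) (.g (nat_lit 2363) (.e (nat_lit 1219) (nat_lit 90) (.e (nat_lit 81959) (nat_lit 24) (.e (nat_lit 123182) (nat_lit 264) (.e (nat_lit 1192) (nat_lit 88) .nil)))) .nil)) 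
(.lf (nat_lit 36916) (.g (nat_lit 454) (.e (nat_lit 1219) (nat_lit 90) (.e (nat_lit 81963) (nat_lit 26) (.e (nat_lit 147493) (nat_lit 11) .nil))) .nil)))) (.nd (nat_lit 4) (.nd (nat_lit 5) 
(.lf (nat_lit 36876) (.g (nat_lit 2576) (.e (nat_lit 1219) (nat_lit 90) (.e (nat_lit 81958) (nat_lit 24) (.e (nat_lit 123182) (nat_lit 264) (.e (nat_lit 1222) (nat_lit 90) (.e (nat_lit 81948) (nat_lit 21) (.e (nat_lit 57873) (nat_lit 264) .nil)))))) (.g (nat_lit 5) .nil .nil))) 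
(.lf (nat_lit 36908) (.g (nat_lit 1642) (.e (nat_lit 1219) (nat_lit 90) (.e (nat_lit 81959) (nat_lit 24) (.e (nat_lit 123197) (nat_lit 266) (.e (nat_lit 57427) (nat_lit 15) (.e (nat_lit 368384) (nat_lit 0) .nil))))) .nil))) (.nd (nat_lit 5) 
(.lf (nat_lit 36892) (.g (nat_lit 2274) (.e (nat_lit 1219) (nat_lit 90) (.e (nat_lit 81959) (nat_lit 24) (.e (nat_lit 123182) (nat_lit 264) (.e (nat_lit 1223) (nat_lit 90) .nil)))) .nil)) 
(.lf (nat_lit 36924) (.g (nat_lit 1783) (.e (nat_lit 1219) (nat_lit 90) (.e (nat_lit 81963) (nat_lit 26) (.e (nat_lit 147495) (nat_lit 11) (.e (nat_lit 24640) (nat_lit 10) (.e (nat_lit 344088) (nat_lit 18) .nil))))) .nil)))))) (.nd (nat_lit 2) (.nd (nat_lit 3) (.nd (nat_lit 4) (.nd (nat_lit 5) 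
(.lf (nat_lit 36866) (.g (nat_lit 338) (.e (nat_lit 1219) (nat_lit 90) (.e (nat_lit 81957) (nat_lit 24) (.e (nat_lit 123197) (nat_lit 266) .nil))) .nil)) 
(.lf (nat_lit 36898) (.g (nat_lit 2786) (.e (nat_lit 1219) (nat_lit 90) (.e (nat_lit 81959) (nat_lit 24) (.e (nat_lit 123184) (nat_lit 264) (.e (nat_lit 1222) (nat_lit 90) (.e (nat_lit 81948) (nat_lit 21) (.e (nat_lit 57871) (nat_lit 264) .nil)))))) (.g (nat_lit 5) .nil .nil)))) (.nd (nat_lit 5) 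
(.lf (nat_lit 36882) (.g (nat_lit 2307) (.e (nat_lit 1219) (nat_lit 90) (.e (nat_lit 81959) (nat_lit 24) (.e (nat_lit 123182) (nat_lit 264) (.e (nat_lit 1187) (nat_lit 88) .nil)))) .nil)) 
(.lf (nat_lit 36914) (.g (nat_lit 439) (.e (nat_lit 1219) (nat_lit 90) (.e (nat_lit 81963) (nat_lit 26) (.e (nat_lit 147477) (nat_lit 9) .nil))) .nil)))) (.nd (nat_lit 4) (.nd (nat_lit 5) 
(.lf (nat_lit 36874) (.g (nat_lit 2992) (.e (nat_lit 1219) (nat_lit 90) (.e (nat_lit 81957) (nat_lit 24) (.e (nat_lit 123198) (nat_lit 266) (.e (nat_lit 57426) (nat_lit 15) (.e (nat_lit 360452) (nat_lit 0) (.e (nat_lit 5905) (nat_lit 320) .nil)))))) (.g (nat_lit 0) .nil .nil))) 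
(.lf (nat_lit 36906) (.g (nat_lit 2998) (.e (nat_lit 1219) (nat_lit 90) (.e (nat_lit 81959) (nat_lit 24) (.e (nat_lit 123197) (nat_lit 266) (.e (nat_lit 57426) (nat_lit 15) (.e (nat_lit 360452) (nat_lit 0) (.e (nat_lit 5905) (nat_lit 320) .nil)))))) (.g (nat_lit 6) .nil .nil)))) (.nd (nat_lit 5) 
(.lf (nat_lit 36890) (.g (nat_lit 3040) (.e (nat_lit 1219) (nat_lit 90) (.e (nat_lit 81959) (nat_lit 24) (.e (nat_lit 123182) (nat_lit 264) (.e (nat_lit 1222) (nat_lit 90) (.e (nat_lit 81948) (nat_lit 21) (.e (nat_lit 57871) (nat_lit 264) .nil)))))) (.g (nat_lit 5) .nil .nil))) 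
(.lf (nat_lit 36922) (.g (nat_lit 2966) (.e (nat_lit 1219) (nat_lit 90) (.e (nat_lit 81963) (nat_lit 26) (.e (nat_lit 147495) (nat_lit 11) (.e (nat_lit 24639) (nat_lit 10) (.e (nat_lit 344091) (nat_lit 18) (.e (nat_lit 7236) (nat_lit 382) .nil)))))) (.g (nat_lit 6) .nil .nil)))))) (.nd (nat_lit 3) (.nd (nat_lit 4) (.nd (nat_lit 5) 
(.lf (nat_lit 36870) (.g (nat_lit 2357) (.e (nat_lit 1219) (nat_lit 90) (.e (nat_lit 81957) (nat_lit 24) (.e (nat_lit 123197) (nat_lit 266) (.e (nat_lit 57427) (nat_lit 15) (.e (nat_lit 368384) (nat_lit 0) (.e (nat_lit 5905) (nat_lit 320) .nil)))))) (.g (nat_lit 4) .nil .nil))) 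
(.lf (nat_lit 36902) (.g (nat_lit 2368) (.e (nat_lit 1219) (nat_lit 90) (.e (nat_lit 81959) (nat_lit 24) (.e (nat_lit 123195) (nat_lit 266) (.e (nat_lit 57406) (nat_lit 12) .nil)))) .nil))) (.nd (nat_lit 5) 
(.lf (nat_lit 36886) (.g (nat_lit 3267) (.e (nat_lit 1219) (nat_lit 90) (.e (nat_lit 81959) (nat_lit 24) (.e (nat_lit 123182) (nat_lit 264) (.e (nat_lit 1201) (nat_lit 88) (.e (nat_lit 65617) (nat_lit 10) .nil))))) .nil)) 
(.lf (nat_lit 36918) (.g (nat_lit 2019) (.e (nat_lit 1219) (nat_lit 90) (.e (nat_lit 81963) (nat_lit 26) (.e (nat_lit 147495) (nat_lit 11) (.e (nat_lit 24628) (nat_lit 9) (.e (nat_lit 335878) (nat_lit 0) .nil))))) .nil)))) (.nd (nat_lit 4) (.nd (nat_lit 5) 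
(.lf (nat_lit 36878) (.g (nat_lit 1340) (.e (nat_lit 1219) (nat_lit 90) (.e (nat_lit 81958) (nat_lit 24) (.e (nat_lit 123183) (nat_lit 264) (.e (nat_lit 1222) (nat_lit 90) (.e (nat_lit 81948) (nat_lit 21) (.e (nat_lit 57871) (nat_lit 264) .nil)))))) (.g (nat_lit 4) .nil .nil))) 
(.lf (nat_lit 36910) (.g (nat_lit 1774) (.e (nat_lit 1219) (nat_lit 90) (.e (nat_lit 81959) (nat_lit 24) (.e (nat_lit 123198) (nat_lit 266) (.e (nat_lit 57436) (nat_lit 17) (.e (nat_lit 376859) (nat_lit 21) (.e (nat_lit 57872) (nat_lit 264) .nil)))))) (.g (nat_lit 4) .nil .nil)))) (.nd (nat_lit 5) 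
(.lf (nat_lit 36894) (.g (nat_lit 2993) (.e (nat_lit 1219) (nat_lit 90) (.e (nat_lit 81959) (nat_lit 24) (.e (nat_lit 123183) (nat_lit 264) (.e (nat_lit 1201) (nat_lit 88) (.e (nat_lit 65610) (nat_lit 10) (.e (nat_lit 344097) (nat_lit 18) (.e (nat_lit 5906) (nat_lit 320) .nil))))))) (.g (nat_lit 5) .nil .nil))) 
(.lf (nat_lit 36926) (.g (nat_lit 2060) (.e (nat_lit 1219) (nat_lit 90) (.e (nat_lit 81963) (nat_lit 26) (.e (nat_lit 147495) (nat_lit 11) (.e (nat_lit 24640) (nat_lit 10) (.e (nat_lit 344088) (nat_lit 18) (.e (nat_lit 7137) (nat_lit 382) .nil)))))) (.g (nat_lit 4) .nil .nil)))))))) (.nd (nat_lit 1) (.nd (nat_lit 2) (.nd (nat_lit 3) (.nd (nat_lit 4) (.nd (nat_lit 5) 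
(.lf (nat_lit 36865) (.g (nat_lit 2897) (.e (nat_lit 1219) (nat_lit 90) (.e (nat_lit 81957) (nat_lit 24) (.e (nat_lit 123195) (nat_lit 266) (.e (nat_lit 57427) (nat_lit 15) (.e (nat_lit 368384) (nat_lit 0) (.e (nat_lit 5905) (nat_lit 320) .nil)))))) (.g (nat_lit 4) .nil .nil))) 
(.lf (nat_lit 36897) (.g (nat_lit 2800) (.e (nat_lit 1219) (nat_lit 90) (.e (nat_lit 81959) (nat_lit 24) (.e (nat_lit 123184) (nat_lit 264) (.e (nat_lit 1222) (nat_lit 90) (.e (nat_lit 81948) (nat_lit 21) (.e (nat_lit 57870) (nat_lit 264) .nil)))))) (.g (nat_lit 5) .nil .nil)))) (.nd (nat_lit 5) 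
(.lf (nat_lit 36881) (.g (nat_lit 2235) (.e (nat_lit 1219) (nat_lit 90) (.e (nat_lit 81959) (nat_lit 24) (.e (nat_lit 123182) (nat_lit 264) (.e (nat_lit 1028) (nat_lit 81) .nil)))) .nil)) 
(.lf (nat_lit 36913) (.g (nat_lit 959) (.e (nat_lit 1219) (nat_lit 90) (.e (nat_lit 81963) (nat_lit 26) (.e (nat_lit 147467) (nat_lit 9) (.e (nat_lit 314) (nat_lit 23) .nil)))) .nil)))) (.nd (nat_lit 4) (.nd (nat_lit 5) 
(.lf (nat_lit 36873) (.g (nat_lit 309) (.e (nat_lit 1219) (nat_lit 90) (.e (nat_lit 81957) (nat_lit 24) (.e (nat_lit 123198) (nat_lit 266) .nil))) .nil)) 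
(.lf (nat_lit 36905) (.g (nat_lit 1983) (.e (nat_lit 1219) (nat_lit 90) (.e (nat_lit 81959) (nat_lit 24) (.e (nat_lit 123195) (nat_lit 266) (.e (nat_lit 57427) (nat_lit 15) .nil)))) .nil))) (.nd (nat_lit 5) 
(.lf (nat_lit 36889) (.g (nat_lit 3045) (.e (nat_lit 1219) (nat_lit 90) (.e (nat_lit 81959) (nat_lit 24) (.e (nat_lit 123182) (nat_lit 264) (.e (nat_lit 1222) (nat_lit 90) (.e (nat_lit 81948) (nat_lit 21) (.e (nat_lit 57870) (nat_lit 264) .nil)))))) (.g (nat_lit 5) .nil .nil))) 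
(.lf (nat_lit 36921) (.g (nat_lit 3757) (.e (nat_lit 1219) (nat_lit 90) (.e (nat_lit 81963) (nat_lit 26) (.e (nat_lit 147495) (nat_lit 11) (.e (nat_lit 24639) (nat_lit 10) (.e (nat_lit 344090) (nat_lit 18) (.e (nat_lit 7236) (nat_lit 382) .nil)))))) (.g (nat_lit 0) .nil .nil)))))) (.nd (nat_lit 3) (.nd (nat_lit 4) (.nd (nat_lit 5) 
(.lf (nat_lit 36869) (.g (nat_lit 1763) (.e (nat_lit 1219) (nat_lit 90) (.e (nat_lit 81957) (nat_lit 24) (.e (nat_lit 123197) (nat_lit 266) (.e (nat_lit 57427) (nat_lit 15) (.e (nat_lit 360454) (nat_lit 0) (.e (nat_lit 5907) (nat_lit 320) .nil)))))) (.g (nat_lit 4) .nil .nil))) 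
(.lf (nat_lit 36901) (.g (nat_lit 1030) (.e (nat_lit 1219) (nat_lit 90) (.e (nat_lit 81959) (nat_lit 24) (.e (nat_lit 123185) (nat_lit 264) (.e (nat_lit 1223) (nat_lit 90) .nil)))) .nil))) (.nd (nat_lit 5) 
(.lf (nat_lit 36885) (.g (nat_lit 2351) (.e (nat_lit 1219) (nat_lit 90) (.e (nat_lit 81959) (nat_lit 24) (.e (nat_lit 123182) (nat_lit 264) (.e (nat_lit 1193) (nat_lit 88) .nil)))) .nil)) 
(.lf (nat_lit 36917) (.g (nat_lit 1500) (.e (nat_lit 1219) (nat_lit 90) (.e (nat_lit 81963) (nat_lit 26) (.e (nat_lit 147494) (nat_lit 11) (.e (nat_lit 24638) (nat_lit 9) (.e (nat_lit 335892) (nat_lit 0) .nil))))) .nil)))) (.nd (nat_lit 4) (.nd (nat_lit 5) 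
(.lf (nat_lit 36877) (.g (nat_lit 1414) (.e (nat_lit 1219) (nat_lit 90) (.e (nat_lit 81958) (nat_lit 24) (.e (nat_lit 123183) (nat_lit 264) (.e (nat_lit 1222) (nat_lit 90) (.e (nat_lit 81948) (nat_lit 21) (.e (nat_lit 57870) (nat_lit 264) .nil)))))) (.g (nat_lit 4) .nil .nil))) 
(.lf (nat_lit 36909) (.g (nat_lit 1925) (.e (nat_lit 1219) (nat_lit 90) (.e (nat_lit 81959) (nat_lit 24) (.e (nat_lit 123197) (nat_lit 266) (.e (nat_lit 57436) (nat_lit 17) (.e (nat_lit 376859) (nat_lit 21) (.e (nat_lit 57872) (nat_lit 264) .nil)))))) (.g (nat_lit 4) .nil .nil)))) (.nd (nat_lit 5) 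
(.lf (nat_lit 36893) (.g (nat_lit 2486) (.e (nat_lit 1219) (nat_lit 90) (.e (nat_lit 81959) (nat_lit 24) (.e (nat_lit 123182) (nat_lit 264) (.e (nat_lit 1224) (nat_lit 90) .nil)))) .nil)) 
(.lf (nat_lit 36925) (.g (nat_lit 2398) (.e (nat_lit 1219) (nat_lit 90) (.e (nat_lit 81963) (nat_lit 26) (.e (nat_lit 147495) (nat_lit 11) (.e (nat_lit 24640) (nat_lit 10) (.e (nat_lit 344088) (nat_lit 18) (.e (nat_lit 7135) (nat_lit 382) .nil)))))) (.g (nat_lit 5) .nil .nil))))))) (.nd (nat_lit 2) (.nd (nat_lit 3) (.nd (nat_lit 4) (.nd (nat_lit 5) 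
(.lf (nat_lit 36867) (.g (nat_lit 3562) (.e (nat_lit 1219) (nat_lit 90) (.e (nat_lit 81957) (nat_lit 24) (.e (nat_lit 123197) (nat_lit 266) (.e (nat_lit 57426) (nat_lit 15) (.e (nat_lit 360452) (nat_lit 0) (.e (nat_lit 5905) (nat_lit 320) .nil)))))) (.g (nat_lit 0) .nil .nil))) 
(.lf (nat_lit 36899) (.g (nat_lit 2053) (.e (nat_lit 1219) (nat_lit 90) (.e (nat_lit 81959) (nat_lit 24) (.e (nat_lit 123185) (nat_lit 264) (.e (nat_lit 1222) (nat_lit 90) (.e (nat_lit 81948) (nat_lit 21) (.e (nat_lit 57870) (nat_lit 264) .nil)))))) (.g (nat_lit 5) .nil .nil)))) (.nd (nat_lit 5) 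
(.lf (nat_lit 36883) (.g (nat_lit 2711) (.e (nat_lit 1219) (nat_lit 90) (.e (nat_lit 81959) (nat_lit 24) (.e (nat_lit 123182) (nat_lit 264) (.e (nat_lit 1187) (nat_lit 88) (.e (nat_lit 65619) (nat_lit 10) .nil))))) .nil)) 
(.lf (nat_lit 36915) (.g (nat_lit 439) (.e (nat_lit 1219) (nat_lit 90) (.e (nat_lit 81963) (nat_lit 26) (.e (nat_lit 147481) (nat_lit 9) .nil))) .nil)))) (.nd (nat_lit 4) (.nd (nat_lit 5) 
(.lf (nat_lit 36875) (.g (nat_lit 1780) (.e (nat_lit 1219) (nat_lit 90) (.e (nat_lit 81958) (nat_lit 24) (.e (nat_lit 123182) (nat_lit 264) (.e (nat_lit 1222) (nat_lit 90) (.e (nat_lit 81948) (nat_lit 21) (.e (nat_lit 57872) (nat_lit 264) .nil)))))) (.g (nat_lit 4) .nil .nil))) 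
(.lf (nat_lit 36907) (.g (nat_lit 1803) (.e (nat_lit 1219) (nat_lit 90) (.e (nat_lit 81959) (nat_lit 24) (.e (nat_lit 123197) (nat_lit 266) (.e (nat_lit 57426) (nat_lit 15) (.e (nat_lit 368384) (nat_lit 0) (.e (nat_lit 5905) (nat_lit 320) .nil)))))) (.g (nat_lit 4) .nil .nil)))) (.nd (nat_lit 5) 
(.lf (nat_lit 36891) (.g (nat_lit 2940) (.e (nat_lit 1219) (nat_lit 90) (.e (nat_lit 81959) (nat_lit 24) (.e (nat_lit 123182) (nat_lit 264) (.e (nat_lit 1222) (nat_lit 90) (.e (nat_lit 81950) (nat_lit 21) .nil))))) .nil)) 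
(.lf (nat_lit 36923) (.g (nat_lit 3208) (.e (nat_lit 1219) (nat_lit 90) (.e (nat_lit 81963) (nat_lit 26) (.e (nat_lit 147495) (nat_lit 11) (.e (nat_lit 24639) (nat_lit 10) (.e (nat_lit 344096) (nat_lit 18) (.e (nat_lit 7236) (nat_lit 382) .nil)))))) (.g (nat_lit 6) .nil .nil)))))) (.nd (nat_lit 3) (.nd (nat_lit 4) (.nd (nat_lit 5) 
(.lf (nat_lit 36871) (.g (nat_lit 1930) (.e (nat_lit 1219) (nat_lit 90) (.e (nat_lit 81957) (nat_lit 24) (.e (nat_lit 123197) (nat_lit 266) (.e (nat_lit 57436) (nat_lit 17) (.e (nat_lit 376859) (nat_lit 21) (.e (nat_lit 57870) (nat_lit 264) .nil)))))) (.g (nat_lit 4) .nil .nil))) 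
(.lf (nat_lit 36903) (.g (nat_lit 1847) (.e (nat_lit 1219) (nat_lit 90) (.e (nat_lit 81959) (nat_lit 24) (.e (nat_lit 123195) (nat_lit 266) (.e (nat_lit 57426) (nat_lit 15) .nil)))) .nil))) (.nd (nat_lit 5) 
(.lf (nat_lit 36887) (.g (nat_lit 3616) (.e (nat_lit 1219) (nat_lit 90) (.e (nat_lit 81959) (nat_lit 24) (.e (nat_lit 123182) (nat_lit 264) (.e (nat_lit 1201) (nat_lit 88) (.e (nat_lit 65619) (nat_lit 10) .nil))))) .nil)) 
(.lf (nat_lit 36919) (.g (nat_lit 1876) (.e (nat_lit 1219) (nat_lit 90) (.e (nat_lit 81963) (nat_lit 26) (.e (nat_lit 147495) (nat_lit 11) (.e (nat_lit 24631) (nat_lit 9) (.e (nat_lit 335907) (nat_lit 0) .nil))))) .nil)))) (.nd (nat_lit 4) (.nd (nat_lit 5) 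
(.lf (nat_lit 36879) (.g (nat_lit 2869) (.e (nat_lit 1219) (nat_lit 90) (.e (nat_lit 81958) (nat_lit 24) (.e (nat_lit 123183) (nat_lit 264) (.e (nat_lit 1222) (nat_lit 90) (.e (nat_lit 81948) (nat_lit 21) (.e (nat_lit 57873) (nat_lit 264) .nil)))))) (.g (nat_lit 0) .nil .nil))) 
(.lf (nat_lit 36911) (.g (nat_lit 442) (.e (nat_lit 1219) (nat_lit 90) (.e (nat_lit 81963) (nat_lit 26) (.e (nat_lit 147465) (nat_lit 9) .nil))) .nil))) (.nd (nat_lit 5) 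
(.lf (nat_lit 36895) (.g (nat_lit 2533) (.e (nat_lit 1219) (nat_lit 90) (.e (nat_lit 81959) (nat_lit 24) (.e (nat_lit 123183) (nat_lit 264) (.e (nat_lit 1222) (nat_lit 90) (.e (nat_lit 81948) (nat_lit 21) (.e (nat_lit 57870) (nat_lit 264) .nil)))))) (.g (nat_lit 5) .nil .nil))) 
(.lf (nat_lit 36927) (.g (nat_lit 1943) (.e (nat_lit 1219) (nat_lit 90) (.e (nat_lit 81963) (nat_lit 26) (.e (nat_lit 147495) (nat_lit 11) (.e (nat_lit 24640) (nat_lit 10) (.e (nat_lit 344088) (nat_lit 18) (.e (nat_lit 7230) (nat_lit 382) .nil)))))) (.g (nat_lit 4) .nil .nil)))))))))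

noncomputable def tv515 : DT := (.nd (nat_lit 0) (.nd (nat_lit 1) (.nd (nat_lit 2) (.nd (nat_lit 3) (.nd (nat_lit 4) (.nd (nat_lit 5) 
(.lf (nat_lit 36928) (.g (nat_lit 2816) (.e (nat_lit 1219) (nat_lit 90) (.e (nat_lit 81963) (nat_lit 26) (.e (nat_lit 147495) (nat_lit 11) (.e (nat_lit 24640) (nat_lit 10) (.e (nat_lit 344088) (nat_lit 18) (.e (nat_lit 7233) (nat_lit 382) .nil)))))) (.g (nat_lit 0) .nil .nil))) 
(.lf (nat_lit 36960) (.g (nat_lit 2292) (.e (nat_lit 1219) (nat_lit 90) (.e (nat_lit 81963) (nat_lit 26) (.e (nat_lit 147496) (nat_lit 11) (.e (nat_lit 24640) (nat_lit 10) (.e (nat_lit 344089) (nat_lit 18) (.e (nat_lit 7133) (nat_lit 382) .nil)))))) (.g (nat_lit 4) .nil .nil)))) (.nd (nat_lit 5) 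
(.lf (nat_lit 36944) (.g (nat_lit 2127) (.e (nat_lit 1219) (nat_lit 90) (.e (nat_lit 81963) (nat_lit 26) (.e (nat_lit 147496) (nat_lit 11) (.e (nat_lit 24628) (nat_lit 9) (.e (nat_lit 335878) (nat_lit 0) .nil))))) .nil)) 
(.lf (nat_lit 36976) (.g (nat_lit 1647) (.e (nat_lit 1220) (nat_lit 90) (.e (nat_lit 81931) (nat_lit 20) (.e (nat_lit 1998) (nat_lit 137) (.e (nat_lit 663554) (nat_lit 0) (.e (nat_lit 1589) (nat_lit 111) (.e (nat_lit 368384) (nat_lit 0) (.e (nat_lit 5902) (nat_lit 320) .nil))))))) (.g (nat_lit 4) .nil .nil))))) (.nd (nat_lit 4) (.nd (nat_lit 5) 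
(.lf (nat_lit 36936) (.g (nat_lit 2117) (.e (nat_lit 1219) (nat_lit 90) (.e (nat_lit 81963) (nat_lit 26) (.e (nat_lit 147495) (nat_lit 11) (.e (nat_lit 24641) (nat_lit 10) (.e (nat_lit 344091) (nat_lit 18) (.e (nat_lit 7236) (nat_lit 382) .nil)))))) (.g (nat_lit 4) .nil .nil))) 
(.lf (nat_lit 36968) (.g (nat_lit 593) (.e (nat_lit 1219) (nat_lit 90) (.e (nat_lit 81965) (nat_lit 26) (.e (nat_lit 147496) (nat_lit 11) .nil))) .nil))) (.nd (nat_lit 5) 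
(.lf (nat_lit 36952) (.g (nat_lit 1999) (.e (nat_lit 1219) (nat_lit 90) (.e (nat_lit 81963) (nat_lit 26) (.e (nat_lit 147496) (nat_lit 11) (.e (nat_lit 24640) (nat_lit 10) (.e (nat_lit 344088) (nat_lit 18) .nil))))) .nil)) 
(.lf (nat_lit 36984) (.g (nat_lit 1883) (.e (nat_lit 1220) (nat_lit 90) (.e (nat_lit 81938) (nat_lit 20) (.e (nat_lit 1841) (nat_lit 123) (.e (nat_lit 548874) (nat_lit 5) (.e (nat_lit 1575) (nat_lit 110) (.e (nat_lit 360192) (nat_lit 1) (.e (nat_lit 164119) (nat_lit 128) .nil))))))) (.g (nat_lit 5) .nil .nil)))))) (.nd (nat_lit 3) (.nd (nat_lit 4) (.nd (nat_lit 5) 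
(.lf (nat_lit 36932) (.g (nat_lit 2129) (.e (nat_lit 1219) (nat_lit 90) (.e (nat_lit 81963) (nat_lit 26) (.e (nat_lit 147495) (nat_lit 11) (.e (nat_lit 24640) (nat_lit 10) (.e (nat_lit 344089) (nat_lit 18) (.e (nat_lit 7133) (nat_lit 382) .nil)))))) (.g (nat_lit 4) .nil .nil))) 
(.lf (nat_lit 36964) (.g (nat_lit 1309) (.e (nat_lit 1219) (nat_lit 90) (.e (nat_lit 81963) (nat_lit 26) (.e (nat_lit 147496) (nat_lit 11) (.e (nat_lit 24641) (nat_lit 10) .nil)))) .nil))) (.nd (nat_lit 5) 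
(.lf (nat_lit 36948) (.g (nat_lit 3760) (.e (nat_lit 1219) (nat_lit 90) (.e (nat_lit 81963) (nat_lit 26) (.e (nat_lit 147496) (nat_lit 11) (.e (nat_lit 24639) (nat_lit 10) (.e (nat_lit 344090) (nat_lit 18) (.e (nat_lit 7236) (nat_lit 382) .nil)))))) (.g (nat_lit 0) .nil .nil))) 
(.lf (nat_lit 36980) (.g (nat_lit 925) (.e (nat_lit 1220) (nat_lit 90) (.e (nat_lit 81931) (nat_lit 20) (.e (nat_lit 1999) (nat_lit 137) (.e (nat_lit 663569) (nat_lit 6) (.e (nat_lit 81948) (nat_lit 21) .nil))))) .nil)))) (.nd (nat_lit 4) (.nd (nat_lit 5) 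
(.lf (nat_lit 36940) (.g (nat_lit 1230) (.e (nat_lit 1219) (nat_lit 90) (.e (nat_lit 81963) (nat_lit 26) (.e (nat_lit 147496) (nat_lit 11) (.e (nat_lit 24584) (nat_lit 0) .nil)))) .nil)) 
(.lf (nat_lit 36972) (.g (nat_lit 2436) (.e (nat_lit 1220) (nat_lit 90) (.e (nat_lit 81931) (nat_lit 20) (.e (nat_lit 1994) (nat_lit 137) (.e (nat_lit 663567) (nat_lit 4) (.e (nat_lit 65604) (nat_lit 9) (.e (nat_lit 335997) (nat_lit 1) (.e (nat_lit 57870) (nat_lit 264) .nil))))))) (.g (nat_lit 6) .nil .nil)))) (.nd (nat_lit 5) 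
(.lf (nat_lit 36956) (.g (nat_lit 3060) (.e (nat_lit 1219) (nat_lit 90) (.e (nat_lit 81963) (nat_lit 26) (.e (nat_lit 147496) (nat_lit 11) (.e (nat_lit 24640) (nat_lit 10) (.e (nat_lit 344088) (nat_lit 18) (.e (nat_lit 7233) (nat_lit 382) .nil)))))) (.g (nat_lit 0) .nil .nil))) 
(.lf (nat_lit 36988) (.g (nat_lit 1795) (.e (nat_lit 1220) (nat_lit 90) (.e (nat_lit 81938) (nat_lit 20) (.e (nat_lit 1842) (nat_lit 123) (.e (nat_lit 548874) (nat_lit 5) (.e (nat_lit 1562) (nat_lit 110) (.e (nat_lit 352268) (nat_lit 6) (.e (nat_lit 229524) (nat_lit 128) .nil))))))) (.g (nat_lit 4) .nil .nil))))))) (.nd (nat_lit 2) (.nd (nat_lit 3) (.nd (nat_lit 4) (.nd (nat_lit 5) 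
(.lf (nat_lit 36930) (.g (nat_lit 2242) (.e (nat_lit 1219) (nat_lit 90) (.e (nat_lit 81963) (nat_lit 26) (.e (nat_lit 147495) (nat_lit 11) (.e (nat_lit 24640) (nat_lit 10) (.e (nat_lit 344088) (nat_lit 18) (.e (nat_lit 7237) (nat_lit 382) .nil)))))) (.g (nat_lit 4) .nil .nil))) 
(.lf (nat_lit 36962) (.g (nat_lit 3630) (.e (nat_lit 1219) (nat_lit 90) (.e (nat_lit 81963) (nat_lit 26) (.e (nat_lit 147496) (nat_lit 11) (.e (nat_lit 24640) (nat_lit 10) (.e (nat_lit 344091) (nat_lit 18) (.e (nat_lit 7236) (nat_lit 382) .nil)))))) (.g (nat_lit 6) .nil .nil)))) (.nd (nat_lit 5) 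
(.lf (nat_lit 36946) (.g (nat_lit 2191) (.e (nat_lit 1219) (nat_lit 90) (.e (nat_lit 81963) (nat_lit 26) (.e (nat_lit 147496) (nat_lit 11) (.e (nat_lit 24638) (nat_lit 9) (.e (nat_lit 335892) (nat_lit 0) .nil))))) .nil)) 
(.lf (nat_lit 36978) (.g (nat_lit 2541) (.e (nat_lit 1220) (nat_lit 90) (.e (nat_lit 81931) (nat_lit 20) (.e (nat_lit 1999) (nat_lit 137) (.e (nat_lit 663567) (nat_lit 4) (.e (nat_lit 65604) (nat_lit 9) (.e (nat_lit 335997) (nat_lit 1) (.e (nat_lit 57870) (nat_lit 264) .nil))))))) (.g (nat_lit 6) .nil .nil))))) (.nd (nat_lit 4) (.nd (nat_lit 5) 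
(.lf (nat_lit 36938) (.g (nat_lit 2042) (.e (nat_lit 1219) (nat_lit 90) (.e (nat_lit 81963) (nat_lit 26) (.e (nat_lit 147495) (nat_lit 11) (.e (nat_lit 24665) (nat_lit 14) (.e (nat_lit 401420) (nat_lit 1) .nil))))) .nil)) 
(.lf (nat_lit 36970) (.g (nat_lit 974) (.e (nat_lit 1220) (nat_lit 90) (.e (nat_lit 81924) (nat_lit 0) (.e (nat_lit 3631) (nat_lit 227) (.e (nat_lit 778326) (nat_lit 6) .nil)))) .nil))) (.nd (nat_lit 5) 
(.lf (nat_lit 36954) (.g (nat_lit 2328) (.e (nat_lit 1219) (nat_lit 90) (.e (nat_lit 81963) (nat_lit 26) (.e (nat_lit 147496) (nat_lit 11) (.e (nat_lit 24640) (nat_lit 10) (.e (nat_lit 344088) (nat_lit 18) (.e (nat_lit 7137) (nat_lit 382) .nil)))))) (.g (nat_lit 4) .nil .nil))) 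
(.lf (nat_lit 36986) (.g (nat_lit 1849) (.e (nat_lit 1220) (nat_lit 90) (.e (nat_lit 81938) (nat_lit 20) (.e (nat_lit 1842) (nat_lit 123) (.e (nat_lit 548872) (nat_lit 5) (.e (nat_lit 1575) (nat_lit 110) (.e (nat_lit 360192) (nat_lit 1) (.e (nat_lit 164119) (nat_lit 128) .nil))))))) (.g (nat_lit 5) .nil .nil)))))) (.nd (nat_lit 3) (.nd (nat_lit 4) (.nd (nat_lit 5) 
(.lf (nat_lit 36934) (.g (nat_lit 3395) (.e (nat_lit 1219) (nat_lit 90) (.e (nat_lit 81963) (nat_lit 26) (.e (nat_lit 147495) (nat_lit 11) (.e (nat_lit 24640) (nat_lit 10) (.e (nat_lit 344091) (nat_lit 18) (.e (nat_lit 7236) (nat_lit 382) .nil)))))) (.g (nat_lit 6) .nil .nil))) 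
(.lf (nat_lit 36966) (.g (nat_lit 2729) (.e (nat_lit 1219) (nat_lit 90) (.e (nat_lit 81963) (nat_lit 26) (.e (nat_lit 147496) (nat_lit 11) (.e (nat_lit 24641) (nat_lit 10) (.e (nat_lit 344096) (nat_lit 18) (.e (nat_lit 7236) (nat_lit 382) .nil)))))) (.g (nat_lit 5) .nil .nil)))) (.nd (nat_lit 5) 
(.lf (nat_lit 36950) (.g (nat_lit 3286) (.e (nat_lit 1219) (nat_lit 90) (.e (nat_lit 81963) (nat_lit 26) (.e (nat_lit 147496) (nat_lit 11) (.e (nat_lit 24639) (nat_lit 10) (.e (nat_lit 344096) (nat_lit 18) (.e (nat_lit 7236) (nat_lit 382) .nil)))))) (.g (nat_lit 6) .nil .nil))) 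
(.lf (nat_lit 36982) (.g (nat_lit 1542) (.e (nat_lit 1220) (nat_lit 90) (.e (nat_lit 81931) (nat_lit 20) (.e (nat_lit 1999) (nat_lit 137) (.e (nat_lit 663569) (nat_lit 6) (.e (nat_lit 81950) (nat_lit 21) (.e (nat_lit 57870) (nat_lit 264) .nil)))))) (.g (nat_lit 4) .nil .nil))))) (.nd (nat_lit 4) (.nd (nat_lit 5) 
(.lf (nat_lit 36942) (.g (nat_lit 1075) (.e (nat_lit 1219) (nat_lit 90) (.e (nat_lit 81963) (nat_lit 26) (.e (nat_lit 147496) (nat_lit 11) (.e (nat_lit 24617) (nat_lit 7) .nil)))) .nil)) 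
(.lf (nat_lit 36974) (.g (nat_lit 1689) (.e (nat_lit 1220) (nat_lit 90) (.e (nat_lit 81931) (nat_lit 20) (.e (nat_lit 1994) (nat_lit 137) (.e (nat_lit 663569) (nat_lit 6) (.e (nat_lit 81948) (nat_lit 21) (.e (nat_lit 57870) (nat_lit 264) .nil)))))) (.g (nat_lit 5) .nil .nil)))) (.nd (nat_lit 5) 
(.lf (nat_lit 36958) (.g (nat_lit 2472) (.e (nat_lit 1219) (nat_lit 90) (.e (nat_lit 81963) (nat_lit 26) (.e (nat_lit 147496) (nat_lit 11) (.e (nat_lit 24640) (nat_lit 10) (.e (nat_lit 344088) (nat_lit 18) (.e (nat_lit 7237) (nat_lit 382) .nil)))))) (.g (nat_lit 4) .nil .nil))) 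
(.lf (nat_lit 36990) (.g (nat_lit 2211) (.e (nat_lit 1220) (nat_lit 90) (.e (nat_lit 81938) (nat_lit 20) (.e (nat_lit 1842) (nat_lit 123) (.e (nat_lit 548874) (nat_lit 5) (.e (nat_lit 1575) (nat_lit 110) (.e (nat_lit 360192) (nat_lit 1) (.e (nat_lit 164119) (nat_lit 128) .nil))))))) (.g (nat_lit 5) .nil .nil)))))))) 
(.nd (nat_lit 1) (.nd (nat_lit 2) (.nd (nat_lit 3) (.nd (nat_lit 4) (.nd (nat_lit 5) 
(.lf (nat_lit 36929) (.g (nat_lit 3539) (.e (nat_lit 1219) (nat_lit 90) (.e (nat_lit 81963) (nat_lit 26) (.e (nat_lit 147495) (nat_lit 11) (.e (nat_lit 24640) (nat_lit 10) (.e (nat_lit 344088) (nat_lit 18) (.e (nat_lit 7236) (nat_lit 382) .nil)))))) (.g (nat_lit 0) .nil .nil))) 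
(.lf (nat_lit 36961) (.g (nat_lit 4130) (.e (nat_lit 1219) (nat_lit 90) (.e (nat_lit 81963) (nat_lit 26) (.e (nat_lit 147496) (nat_lit 11) (.e (nat_lit 24640) (nat_lit 10) (.e (nat_lit 344090) (nat_lit 18) (.e (nat_lit 7236) (nat_lit 382) .nil)))))) (.g (nat_lit 0) .nil .nil)))) (.nd (nat_lit 5) 
(.lf (nat_lit 36945) (.g (nat_lit 2313) (.e (nat_lit 1219) (nat_lit 90) (.e (nat_lit 81963) (nat_lit 26) (.e (nat_lit 147496) (nat_lit 11) (.e (nat_lit 24631) (nat_lit 9) (.e (nat_lit 335907) (nat_lit 0) (.e (nat_lit 970) (nat_lit 81) (.e (nat_lit 7232) (nat_lit 382) .nil))))))) (.g (nat_lit 4) .nil .nil))) 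
(.lf (nat_lit 36977) (.g (nat_lit 1957) (.e (nat_lit 1220) (nat_lit 90) (.e (nat_lit 81931) (nat_lit 20) (.e (nat_lit 1998) (nat_lit 137) (.e (nat_lit 663554) (nat_lit 0) (.e (nat_lit 1589) (nat_lit 111) (.e (nat_lit 368384) (nat_lit 0) (.e (nat_lit 5905) (nat_lit 320) .nil))))))) (.g (nat_lit 5) .nil .nil))))) (.nd (nat_lit 4) (.nd (nat_lit 5) 
(.lf (nat_lit 36937) (.g (nat_lit 1806) (.e (nat_lit 1219) (nat_lit 90) (.e (nat_lit 81963) (nat_lit 26) (.e (nat_lit 147495) (nat_lit 11) (.e (nat_lit 24641) (nat_lit 10) (.e (nat_lit 344096) (nat_lit 18) .nil))))) .nil)) 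
(.lf (nat_lit 36969) (.g (nat_lit 1598) (.e (nat_lit 1219) (nat_lit 90) (.e (nat_lit 81965) (nat_lit 26) (.e (nat_lit 147496) (nat_lit 11) (.e (nat_lit 24640) (nat_lit 10) .nil)))) .nil))) (.nd (nat_lit 5) 
(.lf (nat_lit 36953) (.g (nat_lit 2666) (.e (nat_lit 1219) (nat_lit 90) (.e (nat_lit 81963) (nat_lit 26) (.e (nat_lit 147496) (nat_lit 11) (.e (nat_lit 24640) (nat_lit 10) (.e (nat_lit 344088) (nat_lit 18) (.e (nat_lit 7135) (nat_lit 382) .nil)))))) (.g (nat_lit 5) .nil .nil))) 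
(.lf (nat_lit 36985) (.g (nat_lit 1632) (.e (nat_lit 1220) (nat_lit 90) (.e (nat_lit 81938) (nat_lit 20) (.e (nat_lit 1841) (nat_lit 123) (.e (nat_lit 548891) (nat_lit 11) (.e (nat_lit 89856) (nat_lit 6) (.e (nat_lit 229524) (nat_lit 128) .nil)))))) (.g (nat_lit 4) .nil .nil)))))) (.nd (nat_lit 3) (.nd (nat_lit 4) (.nd (nat_lit 5) 
(.lf (nat_lit 36933) (.g (nat_lit 3813) (.e (nat_lit 1219) (nat_lit 90) (.e (nat_lit 81963) (nat_lit 26) (.e (nat_lit 147495) (nat_lit 11) (.e (nat_lit 24640) (nat_lit 10) (.e (nat_lit 344090) (nat_lit 18) (.e (nat_lit 7236) (nat_lit 382) .nil)))))) (.g (nat_lit 0) .nil .nil))) 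
(.lf (nat_lit 36965) (.g (nat_lit 2922) (.e (nat_lit 1219) (nat_lit 90) (.e (nat_lit 81963) (nat_lit 26) (.e (nat_lit 147496) (nat_lit 11) (.e (nat_lit 24641) (nat_lit 10) (.e (nat_lit 344091) (nat_lit 18) (.e (nat_lit 7236) (nat_lit 382) .nil)))))) (.g (nat_lit 5) .nil .nil)))) (.nd (nat_lit 5) 
(.lf (nat_lit 36949) (.g (nat_lit 2937) (.e (nat_lit 1219) (nat_lit 90) (.e (nat_lit 81963) (nat_lit 26) (.e (nat_lit 147496) (nat_lit 11) (.e (nat_lit 24639) (nat_lit 10) (.e (nat_lit 344091) (nat_lit 18) (.e (nat_lit 7236) (nat_lit 382) .nil)))))) (.g (nat_lit 5) .nil .nil))) 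
(.lf (nat_lit 36981) (.g (nat_lit 1982) (.e (nat_lit 1220) (nat_lit 90) (.e (nat_lit 81931) (nat_lit 20) (.e (nat_lit 1999) (nat_lit 137) (.e (nat_lit 663569) (nat_lit 6) (.e (nat_lit 81948) (nat_lit 21) (.e (nat_lit 57870) (nat_lit 264) .nil)))))) (.g (nat_lit 6) .nil .nil))))) (.nd (nat_lit 4) (.nd (nat_lit 5) 
(.lf (nat_lit 36941) (.g (nat_lit 1385) (.e (nat_lit 1219) (nat_lit 90) (.e (nat_lit 81963) (nat_lit 26) (.e (nat_lit 147496) (nat_lit 11) (.e (nat_lit 24616) (nat_lit 7) .nil)))) .nil)) 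
(.lf (nat_lit 36973) (.g (nat_lit 2411) (.e (nat_lit 1220) (nat_lit 90) (.e (nat_lit 81931) (nat_lit 20) (.e (nat_lit 1994) (nat_lit 137) (.e (nat_lit 663567) (nat_lit 4) (.e (nat_lit 65604) (nat_lit 9) (.e (nat_lit 335997) (nat_lit 1) (.e (nat_lit 57871) (nat_lit 264) .nil))))))) (.g (nat_lit 6) .nil .nil)))) (.nd (nat_lit 5) 
(.lf (nat_lit 36957) (.g (nat_lit 3735) (.e (nat_lit 1219) (nat_lit 90) (.e (nat_lit 81963) (nat_lit 26) (.e (nat_lit 147496) (nat_lit 11) (.e (nat_lit 24640) (nat_lit 10) (.e (nat_lit 344088) (nat_lit 18) (.e (nat_lit 7236) (nat_lit 382) .nil)))))) (.g (nat_lit 0) .nil .nil))) 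
(.lf (nat_lit 36989) (.g (nat_lit 1626) (.e (nat_lit 1220) (nat_lit 90) (.e (nat_lit 81938) (nat_lit 20) (.e (nat_lit 1842) (nat_lit 123) (.e (nat_lit 548874) (nat_lit 5) (.e (nat_lit 1569) (nat_lit 110) (.e (nat_lit 360192) (nat_lit 1) (.e (nat_lit 164119) (nat_lit 128) .nil))))))) (.g (nat_lit 4) .nil .nil))))))) (.nd (nat_lit 2) (.nd (nat_lit 3) (.nd (nat_lit 4) (.nd (nat_lit 5) 
(.lf (nat_lit 36931) (.g (nat_lit 1837) (.e (nat_lit 1219) (nat_lit 90) (.e (nat_lit 81963) (nat_lit 26) (.e (nat_lit 147495) (nat_lit 11) (.e (nat_lit 24640) (nat_lit 10) (.e (nat_lit 344089) (nat_lit 18) .nil))))) .nil)) 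
(.lf (nat_lit 36963) (.g (nat_lit 4012) (.e (nat_lit 1219) (nat_lit 90) (.e (nat_lit 81963) (nat_lit 26) (.e (nat_lit 147496) (nat_lit 11) (.e (nat_lit 24640) (nat_lit 10) (.e (nat_lit 344096) (nat_lit 18) (.e (nat_lit 7236) (nat_lit 382) .nil)))))) (.g (nat_lit 6) .nil .nil)))) (.nd (nat_lit 5) 
(.lf (nat_lit 36947) (.g (nat_lit 1310) (.e (nat_lit 1219) (nat_lit 90) (.e (nat_lit 81963) (nat_lit 26) (.e (nat_lit 147496) (nat_lit 11) (.e (nat_lit 24639) (nat_lit 10) .nil)))) .nil)) 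
(.lf (nat_lit 36979) (.g (nat_lit 2517) (.e (nat_lit 1220) (nat_lit 90) (.e (nat_lit 81931) (nat_lit 20) (.e (nat_lit 1999) (nat_lit 137) (.e (nat_lit 663567) (nat_lit 4) (.e (nat_lit 65604) (nat_lit 9) (.e (nat_lit 335997) (nat_lit 1) (.e (nat_lit 57871) (nat_lit 264) .nil))))))) (.g (nat_lit 6) .nil .nil))))) (.nd (nat_lit 4) (.nd (nat_lit 5) 
(.lf (nat_lit 36939) (.g (nat_lit 2275) (.e (nat_lit 1219) (nat_lit 90) (.e (nat_lit 81963) (nat_lit 26) (.e (nat_lit 147495) (nat_lit 11) (.e (nat_lit 24665) (nat_lit 14) (.e (nat_lit 401421) (nat_lit 1) .nil))))) .nil)) 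
(.lf (nat_lit 36971) (.g (nat_lit 894) (.e (nat_lit 1220) (nat_lit 90) (.e (nat_lit 81924) (nat_lit 0) (.e (nat_lit 3632) (nat_lit 227) (.e (nat_lit 778326) (nat_lit 6) .nil)))) .nil))) (.nd (nat_lit 5) 
(.lf (nat_lit 36955) (.g (nat_lit 2211) (.e (nat_lit 1219) (nat_lit 90) (.e (nat_lit 81963) (nat_lit 26) (.e (nat_lit 147496) (nat_lit 11) (.e (nat_lit 24640) (nat_lit 10) (.e (nat_lit 344088) (nat_lit 18) (.e (nat_lit 7230) (nat_lit 382) .nil)))))) (.g (nat_lit 4) .nil .nil))) 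
(.lf (nat_lit 36987) (.g (nat_lit 1526) (.e (nat_lit 1220) (nat_lit 90) (.e (nat_lit 81938) (nat_lit 20) (.e (nat_lit 1842) (nat_lit 123) (.e (nat_lit 548874) (nat_lit 5) (.e (nat_lit 1562) (nat_lit 110) (.e (nat_lit 360192) (nat_lit 1) (.e (nat_lit 164119) (nat_lit 128) .nil))))))) (.g (nat_lit 4) .nil .nil)))))) (.nd (nat_lit 3) (.nd (nat_lit 4) (.nd (nat_lit 5) 
(.lf (nat_lit 36935) (.g (nat_lit 3637) (.e (nat_lit 1219) (nat_lit 90) (.e (nat_lit 81963) (nat_lit 26) (.e (nat_lit 147495) (nat_lit 11) (.e (nat_lit 24640) (nat_lit 10) (.e (nat_lit 344096) (nat_lit 18) (.e (nat_lit 7236) (nat_lit 382) .nil)))))) (.g (nat_lit 6) .nil .nil))) 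
(.lf (nat_lit 36967) (.g (nat_lit 1513) (.e (nat_lit 1219) (nat_lit 90) (.e (nat_lit 81965) (nat_lit 26) (.e (nat_lit 147495) (nat_lit 11) (.e (nat_lit 24640) (nat_lit 10) .nil)))) .nil))) (.nd (nat_lit 5) 
(.lf (nat_lit 36951) (.g (nat_lit 1283) (.e (nat_lit 1219) (nat_lit 90) (.e (nat_lit 81963) (nat_lit 26) (.e (nat_lit 147496) (nat_lit 11) (.e (nat_lit 24640) (nat_lit 10) .nil)))) .nil)) 
(.lf (nat_lit 36983) (.g (nat_lit 1531) (.e (nat_lit 1220) (nat_lit 90) (.e (nat_lit 81931) (nat_lit 20) (.e (nat_lit 1999) (nat_lit 137) (.e (nat_lit 663569) (nat_lit 6) (.e (nat_lit 81950) (nat_lit 21) (.e (nat_lit 57871) (nat_lit 264) .nil)))))) (.g (nat_lit 4) .nil .nil))))) (.nd (nat_lit 4) (.nd (nat_lit 5) 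
(.lf (nat_lit 36943) (.g (nat_lit 2531) (.e (nat_lit 1219) (nat_lit 90) (.e (nat_lit 81963) (nat_lit 26) (.e (nat_lit 147496) (nat_lit 11) (.e (nat_lit 24617) (nat_lit 7) (.e (nat_lit 319516) (nat_lit 11) .nil))))) .nil)) 
(.lf (nat_lit 36975) (.g (nat_lit 1639) (.e (nat_lit 1220) (nat_lit 90) (.e (nat_lit 81931) (nat_lit 20) (.e (nat_lit 1994) (nat_lit 137) (.e (nat_lit 663569) (nat_lit 6) (.e (nat_lit 81948) (nat_lit 21) (.e (nat_lit 57871) (nat_lit 264) .nil)))))) (.g (nat_lit 5) .nil .nil)))) (.nd (nat_lit 5) 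
(.lf (nat_lit 36959) (.g (nat_lit 2127) (.e (nat_lit 1219) (nat_lit 90) (.e (nat_lit 81963) (nat_lit 26) (.e (nat_lit 147496) (nat_lit 11) (.e (nat_lit 24640) (nat_lit 10) (.e (nat_lit 344089) (nat_lit 18) .nil))))) .nil)) 
(.lf (nat_lit 36991) (.g (nat_lit 1776) (.e (nat_lit 1220) (nat_lit 90) (.e (nat_lit 81938) (nat_lit 20) (.e (nat_lit 1842) (nat_lit 123) (.e (nat_lit 548891) (nat_lit 11) (.e (nat_lit 89856) (nat_lit 1) .nil))))) .nil))))))))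

noncomputable def tv516 : DT := (.nd (nat_lit 0) (.nd (nat_lit 1) (.nd (nat_lit 2) (.nd (nat_lit 3) (.nd (nat_lit 4) (.nd (nat_lit 5) 
(.lf (nat_lit 36992) (.g (nat_lit 1959) (.e (nat_lit 1220) (nat_lit 90) (.e (nat_lit 81938) (nat_lit 20) (.e (nat_lit 1842) (nat_lit 123) (.e (nat_lit 548891) (nat_lit 11) (.e (nat_lit 89856) (nat_lit 6) (.e (nat_lit 229524) (nat_lit 128) .nil)))))) (.g (nat_lit 4) .nil .nil))) 
(.lf (nat_lit 37024) (.g (nat_lit 3407) (.e (nat_lit 1220) (nat_lit 90) (.e (nat_lit 81938) (nat_lit 20) (.e (nat_lit 1962) (nat_lit 134) (.e (nat_lit 638998) (nat_lit 8) (.e (nat_lit 172120) (nat_lit 12) (.e (nat_lit 475161) (nat_lit 21) (.e (nat_lit 6320) (nat_lit 337) .nil))))))) (.g (nat_lit 5) .nil .nil)))) (.nd (nat_lit 5) 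
(.lf (nat_lit 37008) (.g (nat_lit 500) (.e (nat_lit 1220) (nat_lit 90) (.e (nat_lit 81938) (nat_lit 20) (.e (nat_lit 1961) (nat_lit 134) .nil))) .nil)) 
(.lf (nat_lit 37040) (.g (nat_lit 2251) (.e (nat_lit 1220) (nat_lit 90) (.e (nat_lit 81938) (nat_lit 20) (.e (nat_lit 2003) (nat_lit 138) (.e (nat_lit 671747) (nat_lit 0) (.e (nat_lit 1586) (nat_lit 111) (.e (nat_lit 368384) (nat_lit 0) (.e (nat_lit 5902) (nat_lit 320) .nil))))))) (.g (nat_lit 5) .nil .nil))))) (.nd (nat_lit 4) (.nd (nat_lit 5) 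
(.lf (nat_lit 37000) (.g (nat_lit 3190) (.e (nat_lit 1220) (nat_lit 90) (.e (nat_lit 81938) (nat_lit 20) (.e (nat_lit 1960) (nat_lit 134) (.e (nat_lit 638998) (nat_lit 8) (.e (nat_lit 172120) (nat_lit 12) (.e (nat_lit 475161) (nat_lit 21) (.e (nat_lit 6298) (nat_lit 337) .nil))))))) (.g (nat_lit 5) .nil .nil))) 
(.lf (nat_lit 37032) (.g (nat_lit 1950) (.e (nat_lit 1220) (nat_lit 90) (.e (nat_lit 81938) (nat_lit 20) (.e (nat_lit 1963) (nat_lit 134) (.e (nat_lit 638986) (nat_lit 5) (.e (nat_lit 3015) (nat_lit 187) (.e (nat_lit 458496) (nat_lit 0) (.e (nat_lit 5154) (nat_lit 292) .nil))))))) (.g (nat_lit 5) .nil .nil)))) (.nd (nat_lit 5) 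
(.lf (nat_lit 37016) (.g (nat_lit 3656) (.e (nat_lit 1220) (nat_lit 90) (.e (nat_lit 81938) (nat_lit 20) (.e (nat_lit 1962) (nat_lit 134) (.e (nat_lit 638998) (nat_lit 8) (.e (nat_lit 172120) (nat_lit 12) (.e (nat_lit 475155) (nat_lit 21) (.e (nat_lit 6298) (nat_lit 337) .nil))))))) (.g (nat_lit 5) .nil .nil))) 
(.lf (nat_lit 37048) (.g (nat_lit 3143) (.e (nat_lit 1220) (nat_lit 90) (.e (nat_lit 81938) (nat_lit 20) (.e (nat_lit 2003) (nat_lit 138) (.e (nat_lit 671762) (nat_lit 4) (.e (nat_lit 65604) (nat_lit 9) (.e (nat_lit 335997) (nat_lit 1) (.e (nat_lit 57871) (nat_lit 264) .nil))))))) (.g (nat_lit 0) .nil .nil)))))) (.nd (nat_lit 3) (.nd (nat_lit 4) (.nd (nat_lit 5) 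
(.lf (nat_lit 36996) (.g (nat_lit 3238) (.e (nat_lit 1220) (nat_lit 90) (.e (nat_lit 81938) (nat_lit 20) (.e (nat_lit 1960) (nat_lit 134) (.e (nat_lit 638998) (nat_lit 8) (.e (nat_lit 172120) (nat_lit 12) (.e (nat_lit 475155) (nat_lit 21) (.e (nat_lit 6320) (nat_lit 337) .nil))))))) (.g (nat_lit 5) .nil .nil))) 
(.lf (nat_lit 37028) (.g (nat_lit 2874) (.e (nat_lit 1220) (nat_lit 90) (.e (nat_lit 81938) (nat_lit 20) (.e (nat_lit 1962) (nat_lit 134) (.e (nat_lit 638998) (nat_lit 8) (.e (nat_lit 172120) (nat_lit 12) (.e (nat_lit 475163) (nat_lit 21) (.e (nat_lit 6264) (nat_lit 337) .nil))))))) (.g (nat_lit 5) .nil .nil)))) (.nd (nat_lit 5) 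
(.lf (nat_lit 37012) (.g (nat_lit 2165) (.e (nat_lit 1220) (nat_lit 90) (.e (nat_lit 81938) (nat_lit 20) (.e (nat_lit 1962) (nat_lit 134) (.e (nat_lit 638985) (nat_lit 5) (.e (nat_lit 3022) (nat_lit 187) (.e (nat_lit 458496) (nat_lit 0) (.e (nat_lit 5112) (nat_lit 292) .nil))))))) (.g (nat_lit 5) .nil .nil))) 
(.lf (nat_lit 37044) (.g (nat_lit 2164) (.e (nat_lit 1220) (nat_lit 90) (.e (nat_lit 81938) (nat_lit 20) (.e (nat_lit 2003) (nat_lit 138) (.e (nat_lit 671747) (nat_lit 0) (.e (nat_lit 1598) (nat_lit 111) (.e (nat_lit 360452) (nat_lit 0) (.e (nat_lit 5907) (nat_lit 320) .nil))))))) (.g (nat_lit 4) .nil .nil))))) (.nd (nat_lit 4) (.nd (nat_lit 5) 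
(.lf (nat_lit 37004) (.g (nat_lit 1992) (.e (nat_lit 1220) (nat_lit 90) (.e (nat_lit 81938) (nat_lit 20) (.e (nat_lit 1960) (nat_lit 134) (.e (nat_lit 638998) (nat_lit 8) (.e (nat_lit 172120) (nat_lit 12) (.e (nat_lit 475162) (nat_lit 21) (.e (nat_lit 6319) (nat_lit 337) .nil))))))) (.g (nat_lit 4) .nil .nil))) 
(.lf (nat_lit 37036) (.g (nat_lit 2070) (.e (nat_lit 1220) (nat_lit 90) (.e (nat_lit 81938) (nat_lit 20) (.e (nat_lit 1963) (nat_lit 134) (.e (nat_lit 639001) (nat_lit 10) (.e (nat_lit 188431) (nat_lit 20) (.e (nat_lit 2402) (nat_lit 157) (.e (nat_lit 5154) (nat_lit 292) .nil))))))) (.g (nat_lit 5) .nil .nil)))) (.nd (nat_lit 5) 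
(.lf (nat_lit 37020) (.g (nat_lit 3612) (.e (nat_lit 1220) (nat_lit 90) (.e (nat_lit 81938) (nat_lit 20) (.e (nat_lit 1962) (nat_lit 134) (.e (nat_lit 638998) (nat_lit 8) (.e (nat_lit 172120) (nat_lit 12) (.e (nat_lit 475160) (nat_lit 21) (.e (nat_lit 6298) (nat_lit 337) .nil))))))) (.g (nat_lit 5) .nil .nil))) 
(.lf (nat_lit 37052) (.g (nat_lit 2168) (.e (nat_lit 1220) (nat_lit 90) (.e (nat_lit 81938) (nat_lit 20) (.e (nat_lit 2003) (nat_lit 138) (.e (nat_lit 671762) (nat_lit 4) (.e (nat_lit 65619) (nat_lit 10) (.e (nat_lit 344097) (nat_lit 18) (.e (nat_lit 5906) (nat_lit 320) .nil))))))) (.g (nat_lit 4) .nil .nil))))))) (.nd (nat_lit 2) (.nd (nat_lit 3) (.nd (nat_lit 4) (.nd (nat_lit 5) 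
(.lf (nat_lit 36994) (.g (nat_lit 2223) (.e (nat_lit 1220) (nat_lit 90) (.e (nat_lit 81938) (nat_lit 20) (.e (nat_lit 1886) (nat_lit 127) (.e (nat_lit 581653) (nat_lit 6) (.e (nat_lit 188455) (nat_lit 24) (.e (nat_lit 237312) (nat_lit 158) .nil)))))) (.g (nat_lit 5) .nil .nil))) 
(.lf (nat_lit 37026) (.g (nat_lit 3889) (.e (nat_lit 1220) (nat_lit 90) (.e (nat_lit 81938) (nat_lit 20) (.e (nat_lit 1962) (nat_lit 134) (.e (nat_lit 638998) (nat_lit 8) (.e (nat_lit 172120) (nat_lit 12) (.e (nat_lit 475162) (nat_lit 21) (.e (nat_lit 6298) (nat_lit 337) .nil))))))) (.g (nat_lit 6) .nil .nil)))) (.nd (nat_lit 5) 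
(.lf (nat_lit 37010) (.g (nat_lit 2222) (.e (nat_lit 1220) (nat_lit 90) (.e (nat_lit 81938) (nat_lit 20) (.e (nat_lit 1962) (nat_lit 134) (.e (nat_lit 638985) (nat_lit 5) (.e (nat_lit 3015) (nat_lit 187) (.e (nat_lit 458496) (nat_lit 0) (.e (nat_lit 5112) (nat_lit 292) .nil))))))) (.g (nat_lit 5) .nil .nil))) 
(.lf (nat_lit 37042) (.g (nat_lit 2042) (.e (nat_lit 1220) (nat_lit 90) (.e (nat_lit 81938) (nat_lit 20) (.e (nat_lit 2003) (nat_lit 138) (.e (nat_lit 671747) (nat_lit 0) (.e (nat_lit 1595) (nat_lit 111) (.e (nat_lit 368384) (nat_lit 0) (.e (nat_lit 5902) (nat_lit 320) .nil))))))) (.g (nat_lit 4) .nil .nil))))) (.nd (nat_lit 4) (.nd (nat_lit 5) 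
(.lf (nat_lit 37002) (.g (nat_lit 2006) (.e (nat_lit 1220) (nat_lit 90) (.e (nat_lit 81938) (nat_lit 20) (.e (nat_lit 1960) (nat_lit 134) (.e (nat_lit 638998) (nat_lit 8) (.e (nat_lit 172120) (nat_lit 12) (.e (nat_lit 475162) (nat_lit 21) (.e (nat_lit 6264) (nat_lit 337) .nil))))))) (.g (nat_lit 4) .nil .nil))) 
(.lf (nat_lit 37034) (.g (nat_lit 1893) (.e (nat_lit 1220) (nat_lit 90) (.e (nat_lit 81938) (nat_lit 20) (.e (nat_lit 1963) (nat_lit 134) (.e (nat_lit 638986) (nat_lit 5) (.e (nat_lit 3022) (nat_lit 187) (.e (nat_lit 458496) (nat_lit 0) (.e (nat_lit 5154) (nat_lit 292) .nil))))))) (.g (nat_lit 5) .nil .nil)))) (.nd (nat_lit 5) 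
(.lf (nat_lit 37018) (.g (nat_lit 3027) (.e (nat_lit 1220) (nat_lit 90) (.e (nat_lit 81938) (nat_lit 20) (.e (nat_lit 1962) (nat_lit 134) (.e (nat_lit 638998) (nat_lit 8) (.e (nat_lit 172120) (nat_lit 12) (.e (nat_lit 475155) (nat_lit 21) (.e (nat_lit 6319) (nat_lit 337) .nil))))))) (.g (nat_lit 5) .nil .nil))) 
(.lf (nat_lit 37050) (.g (nat_lit 2267) (.e (nat_lit 1220) (nat_lit 90) (.e (nat_lit 81938) (nat_lit 20) (.e (nat_lit 2003) (nat_lit 138) (.e (nat_lit 671762) (nat_lit 4) (.e (nat_lit 65610) (nat_lit 10) (.e (nat_lit 344097) (nat_lit 18) (.e (nat_lit 5906) (nat_lit 320) .nil))))))) (.g (nat_lit 4) .nil .nil)))))) (.nd (nat_lit 3) (.nd (nat_lit 4) (.nd (nat_lit 5) 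
(.lf (nat_lit 36998) (.g (nat_lit 2921) (.e (nat_lit 1220) (nat_lit 90) (.e (nat_lit 81938) (nat_lit 20) (.e (nat_lit 1960) (nat_lit 134) (.e (nat_lit 638998) (nat_lit 8) (.e (nat_lit 172120) (nat_lit 12) (.e (nat_lit 475160) (nat_lit 21) (.e (nat_lit 6298) (nat_lit 337) .nil))))))) (.g (nat_lit 5) .nil .nil))) 
(.lf (nat_lit 37030) (.g (nat_lit 3276) (.e (nat_lit 1220) (nat_lit 90) (.e (nat_lit 81938) (nat_lit 20) (.e (nat_lit 1962) (nat_lit 134) (.e (nat_lit 638998) (nat_lit 8) (.e (nat_lit 172120) (nat_lit 12) (.e (nat_lit 475163) (nat_lit 21) (.e (nat_lit 6319) (nat_lit 337) .nil))))))) (.g (nat_lit 5) .nil .nil)))) (.nd (nat_lit 5) 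
(.lf (nat_lit 37014) (.g (nat_lit 1910) (.e (nat_lit 1220) (nat_lit 90) (.e (nat_lit 81938) (nat_lit 20) (.e (nat_lit 1962) (nat_lit 134) (.e (nat_lit 638985) (nat_lit 5) (.e (nat_lit 3027) (nat_lit 187) (.e (nat_lit 458496) (nat_lit 0) (.e (nat_lit 5154) (nat_lit 292) .nil))))))) (.g (nat_lit 5) .nil .nil))) 
(.lf (nat_lit 37046) (.g (nat_lit 3123) (.e (nat_lit 1220) (nat_lit 90) (.e (nat_lit 81938) (nat_lit 20) (.e (nat_lit 2003) (nat_lit 138) (.e (nat_lit 671762) (nat_lit 4) (.e (nat_lit 65598) (nat_lit 9) (.e (nat_lit 335997) (nat_lit 1) (.e (nat_lit 57871) (nat_lit 264) .nil))))))) (.g (nat_lit 7) .nil .nil))))) (.nd (nat_lit 4) (.nd (nat_lit 5) 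
(.lf (nat_lit 37006) (.g (nat_lit 2511) (.e (nat_lit 1220) (nat_lit 90) (.e (nat_lit 81938) (nat_lit 20) (.e (nat_lit 1960) (nat_lit 134) (.e (nat_lit 638998) (nat_lit 8) (.e (nat_lit 172120) (nat_lit 12) (.e (nat_lit 475163) (nat_lit 21) (.e (nat_lit 6319) (nat_lit 337) .nil))))))) (.g (nat_lit 5) .nil .nil))) 
(.lf (nat_lit 37038) (.g (nat_lit 2166) (.e (nat_lit 1220) (nat_lit 90) (.e (nat_lit 81938) (nat_lit 20) (.e (nat_lit 1963) (nat_lit 134) (.e (nat_lit 639001) (nat_lit 10) (.e (nat_lit 188431) (nat_lit 20) (.e (nat_lit 2403) (nat_lit 157) (.e (nat_lit 5154) (nat_lit 292) .nil))))))) (.g (nat_lit 5) .nil .nil)))) (.nd (nat_lit 5) 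
(.lf (nat_lit 37022) (.g (nat_lit 3501) (.e (nat_lit 1220) (nat_lit 90) (.e (nat_lit 81938) (nat_lit 20) (.e (nat_lit 1962) (nat_lit 134) (.e (nat_lit 638998) (nat_lit 8) (.e (nat_lit 172120) (nat_lit 12) (.e (nat_lit 475160) (nat_lit 21) (.e (nat_lit 6320) (nat_lit 337) .nil))))))) (.g (nat_lit 5) .nil .nil))) 
(.lf (nat_lit 37054) (.g (nat_lit 2204) (.e (nat_lit 1220) (nat_lit 90) (.e (nat_lit 81938) (nat_lit 20) (.e (nat_lit 2003) (nat_lit 138) (.e (nat_lit 671764) (nat_lit 6) (.e (nat_lit 81948) (nat_lit 21) (.e (nat_lit 57871) (nat_lit 264) .nil)))))) (.g (nat_lit 0) .nil .nil)))))))) (.nd (nat_lit 1) (.nd (nat_lit 2) (.nd (nat_lit 3) (.nd (nat_lit 4) (.nd (nat_lit 5) 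
(.lf (nat_lit 36993) (.g (nat_lit 479) (.e (nat_lit 1220) (nat_lit 90) (.e (nat_lit 81938) (nat_lit 20) (.e (nat_lit 1885) (nat_lit 127) .nil))) .nil)) 
(.lf (nat_lit 37025) (.g (nat_lit 2784) (.e (nat_lit 1220) (nat_lit 90) (.e (nat_lit 81938) (nat_lit 20) (.e (nat_lit 1962) (nat_lit 134) (.e (nat_lit 638998) (nat_lit 8) (.e (nat_lit 172120) (nat_lit 12) (.e (nat_lit 475162) (nat_lit 21) (.e (nat_lit 6264) (nat_lit 337) .nil))))))) (.g (nat_lit 5) .nil .nil)))) (.nd (nat_lit 5) 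
(.lf (nat_lit 37009) (.g (nat_lit 433) (.e (nat_lit 1220) (nat_lit 90) (.e (nat_lit 81938) (nat_lit 20) (.e (nat_lit 1962) (nat_lit 134) .nil))) .nil)) 
(.lf (nat_lit 37041) (.g (nat_lit 1573) (.e (nat_lit 1220) (nat_lit 90) (.e (nat_lit 81938) (nat_lit 20) (.e (nat_lit 2003) (nat_lit 138) (.e (nat_lit 671747) (nat_lit 0) (.e (nat_lit 1592) (nat_lit 111) (.e (nat_lit 368384) (nat_lit 0) (.e (nat_lit 5902) (nat_lit 320) .nil))))))) (.g (nat_lit 4) .nil .nil))))) (.nd (nat_lit 4) (.nd (nat_lit 5) 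
(.lf (nat_lit 37001) (.g (nat_lit 2815) (.e (nat_lit 1220) (nat_lit 90) (.e (nat_lit 81938) (nat_lit 20) (.e (nat_lit 1960) (nat_lit 134) (.e (nat_lit 638998) (nat_lit 8) (.e (nat_lit 172120) (nat_lit 12) (.e (nat_lit 475161) (nat_lit 21) (.e (nat_lit 6320) (nat_lit 337) .nil))))))) (.g (nat_lit 5) .nil .nil))) 
(.lf (nat_lit 37033) (.g (nat_lit 1580) (.e (nat_lit 1220) (nat_lit 90) (.e (nat_lit 81938) (nat_lit 20) (.e (nat_lit 1963) (nat_lit 134) (.e (nat_lit 638986) (nat_lit 5) (.e (nat_lit 3016) (nat_lit 187) (.e (nat_lit 458496) (nat_lit 0) (.e (nat_lit 5112) (nat_lit 292) .nil))))))) (.g (nat_lit 4) .nil .nil)))) (.nd (nat_lit 5) 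
(.lf (nat_lit 37017) (.g (nat_lit 2653) (.e (nat_lit 1220) (nat_lit 90) (.e (nat_lit 81938) (nat_lit 20) (.e (nat_lit 1962) (nat_lit 134) (.e (nat_lit 638998) (nat_lit 8) (.e (nat_lit 172120) (nat_lit 12) (.e (nat_lit 475155) (nat_lit 21) (.e (nat_lit 6308) (nat_lit 337) .nil))))))) (.g (nat_lit 5) .nil .nil))) 
(.lf (nat_lit 37049) (.g (nat_lit 3754) (.e (nat_lit 1220) (nat_lit 90) (.e (nat_lit 81938) (nat_lit 20) (.e (nat_lit 2003) (nat_lit 138) (.e (nat_lit 671762) (nat_lit 4) (.e (nat_lit 65610) (nat_lit 10) (.e (nat_lit 344097) (nat_lit 18) (.e (nat_lit 5905) (nat_lit 320) .nil))))))) (.g (nat_lit 0) .nil .nil)))))) (.nd (nat_lit 3) (.nd (nat_lit 4) (.nd (nat_lit 5) 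
(.lf (nat_lit 36997) (.g (nat_lit 1889) (.e (nat_lit 1220) (nat_lit 90) (.e (nat_lit 81938) (nat_lit 20) (.e (nat_lit 1960) (nat_lit 134) (.e (nat_lit 638998) (nat_lit 8) (.e (nat_lit 172120) (nat_lit 12) (.e (nat_lit 475160) (nat_lit 21) (.e (nat_lit 6264) (nat_lit 337) .nil))))))) (.g (nat_lit 4) .nil .nil))) 
(.lf (nat_lit 37029) (.g (nat_lit 3797) (.e (nat_lit 1220) (nat_lit 90) (.e (nat_lit 81938) (nat_lit 20) (.e (nat_lit 1962) (nat_lit 134) (.e (nat_lit 638998) (nat_lit 8) (.e (nat_lit 172120) (nat_lit 12) (.e (nat_lit 475163) (nat_lit 21) (.e (nat_lit 6298) (nat_lit 337) .nil))))))) (.g (nat_lit 6) .nil .nil)))) (.nd (nat_lit 5) 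
(.lf (nat_lit 37013) (.g (nat_lit 1913) (.e (nat_lit 1220) (nat_lit 90) (.e (nat_lit 81938) (nat_lit 20) (.e (nat_lit 1962) (nat_lit 134) (.e (nat_lit 638985) (nat_lit 5) (.e (nat_lit 3022) (nat_lit 187) (.e (nat_lit 458496) (nat_lit 0) (.e (nat_lit 5154) (nat_lit 292) .nil))))))) (.g (nat_lit 5) .nil .nil))) 
(.lf (nat_lit 37045) (.g (nat_lit 1708) (.e (nat_lit 1220) (nat_lit 90) (.e (nat_lit 81938) (nat_lit 20) (.e (nat_lit 2003) (nat_lit 138) (.e (nat_lit 671747) (nat_lit 0) (.e (nat_lit 1598) (nat_lit 111) (.e (nat_lit 368384) (nat_lit 0) (.e (nat_lit 5905) (nat_lit 320) .nil))))))) (.g (nat_lit 4) .nil .nil))))) (.nd (nat_lit 4) (.nd (nat_lit 5) 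
(.lf (nat_lit 37005) (.g (nat_lit 3086) (.e (nat_lit 1220) (nat_lit 90) (.e (nat_lit 81938) (nat_lit 20) (.e (nat_lit 1960) (nat_lit 134) (.e (nat_lit 638998) (nat_lit 8) (.e (nat_lit 172120) (nat_lit 12) (.e (nat_lit 475163) (nat_lit 21) (.e (nat_lit 6298) (nat_lit 337) .nil))))))) (.g (nat_lit 5) .nil .nil))) 
(.lf (nat_lit 37037) (.g (nat_lit 2339) (.e (nat_lit 1220) (nat_lit 90) (.e (nat_lit 81938) (nat_lit 20) (.e (nat_lit 1963) (nat_lit 134) (.e (nat_lit 639001) (nat_lit 10) (.e (nat_lit 188431) (nat_lit 20) (.e (nat_lit 2403) (nat_lit 157) (.e (nat_lit 5112) (nat_lit 292) .nil))))))) (.g (nat_lit 5) .nil .nil)))) (.nd (nat_lit 5) 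
(.lf (nat_lit 37021) (.g (nat_lit 2765) (.e (nat_lit 1220) (nat_lit 90) (.e (nat_lit 81938) (nat_lit 20) (.e (nat_lit 1962) (nat_lit 134) (.e (nat_lit 638998) (nat_lit 8) (.e (nat_lit 172120) (nat_lit 12) (.e (nat_lit 475160) (nat_lit 21) (.e (nat_lit 6319) (nat_lit 337) .nil))))))) (.g (nat_lit 5) .nil .nil))) 
(.lf (nat_lit 37053) (.g (nat_lit 2263) (.e (nat_lit 1220) (nat_lit 90) (.e (nat_lit 81938) (nat_lit 20) (.e (nat_lit 2003) (nat_lit 138) (.e (nat_lit 671764) (nat_lit 6) (.e (nat_lit 81948) (nat_lit 21) (.e (nat_lit 57870) (nat_lit 264) .nil)))))) (.g (nat_lit 0) .nil .nil))))))) (.nd (nat_lit 2) (.nd (nat_lit 3) (.nd (nat_lit 4) (.nd (nat_lit 5) 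
(.lf (nat_lit 36995) (.g (nat_lit 3124) (.e (nat_lit 1220) (nat_lit 90) (.e (nat_lit 81938) (nat_lit 20) (.e (nat_lit 1960) (nat_lit 134) (.e (nat_lit 638998) (nat_lit 8) (.e (nat_lit 172120) (nat_lit 12) (.e (nat_lit 475155) (nat_lit 21) (.e (nat_lit 6298) (nat_lit 337) .nil))))))) (.g (nat_lit 5) .nil .nil))) 
(.lf (nat_lit 37027) (.g (nat_lit 2770) (.e (nat_lit 1220) (nat_lit 90) (.e (nat_lit 81938) (nat_lit 20) (.e (nat_lit 1962) (nat_lit 134) (.e (nat_lit 638998) (nat_lit 8) (.e (nat_lit 172120) (nat_lit 12) (.e (nat_lit 475162) (nat_lit 21) (.e (nat_lit 6319) (nat_lit 337) .nil))))))) (.g (nat_lit 5) .nil .nil)))) (.nd (nat_lit 5) 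
(.lf (nat_lit 37011) (.g (nat_lit 1970) (.e (nat_lit 1220) (nat_lit 90) (.e (nat_lit 81938) (nat_lit 20) (.e (nat_lit 1962) (nat_lit 134) (.e (nat_lit 638985) (nat_lit 5) (.e (nat_lit 3015) (nat_lit 187) (.e (nat_lit 458496) (nat_lit 0) (.e (nat_lit 5154) (nat_lit 292) .nil))))))) (.g (nat_lit 5) .nil .nil))) 
(.lf (nat_lit 37043) (.g (nat_lit 2338) (.e (nat_lit 1220) (nat_lit 90) (.e (nat_lit 81938) (nat_lit 20) (.e (nat_lit 2003) (nat_lit 138) (.e (nat_lit 671747) (nat_lit 0) (.e (nat_lit 1595) (nat_lit 111) (.e (nat_lit 368384) (nat_lit 0) (.e (nat_lit 5905) (nat_lit 320) .nil))))))) (.g (nat_lit 5) .nil .nil))))) (.nd (nat_lit 4) (.nd (nat_lit 5) 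
(.lf (nat_lit 37003) (.g (nat_lit 3165) (.e (nat_lit 1220) (nat_lit 90) (.e (nat_lit 81938) (nat_lit 20) (.e (nat_lit 1960) (nat_lit 134) (.e (nat_lit 638998) (nat_lit 8) (.e (nat_lit 172120) (nat_lit 12) (.e (nat_lit 475162) (nat_lit 21) (.e (nat_lit 6298) (nat_lit 337) .nil))))))) (.g (nat_lit 5) .nil .nil))) 
(.lf (nat_lit 37035) (.g (nat_lit 1839) (.e (nat_lit 1220) (nat_lit 90) (.e (nat_lit 81938) (nat_lit 20) (.e (nat_lit 1963) (nat_lit 134) (.e (nat_lit 638986) (nat_lit 5) (.e (nat_lit 3027) (nat_lit 187) (.e (nat_lit 458496) (nat_lit 0) (.e (nat_lit 5154) (nat_lit 292) .nil))))))) (.g (nat_lit 5) .nil .nil)))) (.nd (nat_lit 5) 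
(.lf (nat_lit 37019) (.g (nat_lit 3824) (.e (nat_lit 1220) (nat_lit 90) (.e (nat_lit 81938) (nat_lit 20) (.e (nat_lit 1962) (nat_lit 134) (.e (nat_lit 638998) (nat_lit 8) (.e (nat_lit 172120) (nat_lit 12) (.e (nat_lit 475155) (nat_lit 21) (.e (nat_lit 6320) (nat_lit 337) .nil))))))) (.g (nat_lit 6) .nil .nil))) 
(.lf (nat_lit 37051) (.g (nat_lit 3666) (.e (nat_lit 1220) (nat_lit 90) (.e (nat_lit 81938) (nat_lit 20) (.e (nat_lit 2003) (nat_lit 138) (.e (nat_lit 671762) (nat_lit 4) (.e (nat_lit 65619) (nat_lit 10) (.e (nat_lit 344097) (nat_lit 18) (.e (nat_lit 5905) (nat_lit 320) .nil))))))) (.g (nat_lit 0) .nil .nil)))))) (.nd (nat_lit 3) (.nd (nat_lit 4) (.nd (nat_lit 5) 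
(.lf (nat_lit 36999) (.g (nat_lit 2756) (.e (nat_lit 1220) (nat_lit 90) (.e (nat_lit 81938) (nat_lit 20) (.e (nat_lit 1960) (nat_lit 134) (.e (nat_lit 638998) (nat_lit 8) (.e (nat_lit 172120) (nat_lit 12) (.e (nat_lit 475160) (nat_lit 21) (.e (nat_lit 6320) (nat_lit 337) .nil))))))) (.g (nat_lit 5) .nil .nil))) 
(.lf (nat_lit 37031) (.g (nat_lit 345) (.e (nat_lit 1220) (nat_lit 90) (.e (nat_lit 81938) (nat_lit 20) (.e (nat_lit 1963) (nat_lit 134) .nil))) .nil))) (.nd (nat_lit 5) 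
(.lf (nat_lit 37015) (.g (nat_lit 2869) (.e (nat_lit 1220) (nat_lit 90) (.e (nat_lit 81938) (nat_lit 20) (.e (nat_lit 1962) (nat_lit 134) (.e (nat_lit 638998) (nat_lit 8) (.e (nat_lit 172120) (nat_lit 12) (.e (nat_lit 475155) (nat_lit 21) (.e (nat_lit 6264) (nat_lit 337) .nil))))))) (.g (nat_lit 5) .nil .nil))) 
(.lf (nat_lit 37047) (.g (nat_lit 3151) (.e (nat_lit 1220) (nat_lit 90) (.e (nat_lit 81938) (nat_lit 20) (.e (nat_lit 2003) (nat_lit 138) (.e (nat_lit 671762) (nat_lit 4) (.e (nat_lit 65604) (nat_lit 9) (.e (nat_lit 335997) (nat_lit 1) (.e (nat_lit 57870) (nat_lit 264) .nil))))))) (.g (nat_lit 0) .nil .nil))))) (.nd (nat_lit 4) (.nd (nat_lit 5) 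
(.lf (nat_lit 37007) (.g (nat_lit 873) (.e (nat_lit 1220) (nat_lit 90) (.e (nat_lit 81938) (nat_lit 20) (.e (nat_lit 1960) (nat_lit 134) (.e (nat_lit 639001) (nat_lit 10) (.e (nat_lit 188427) (nat_lit 20) .nil))))) .nil)) 
(.lf (nat_lit 37039) (.g (nat_lit 436) (.e (nat_lit 1220) (nat_lit 90) (.e (nat_lit 81938) (nat_lit 20) (.e (nat_lit 2003) (nat_lit 138) .nil))) .nil))) (.nd (nat_lit 5) 
(.lf (nat_lit 37023) (.g (nat_lit 3728) (.e (nat_lit 1220) (nat_lit 90) (.e (nat_lit 81938) (nat_lit 20) (.e (nat_lit 1962) (nat_lit 134) (.e (nat_lit 638998) (nat_lit 8) (.e (nat_lit 172120) (nat_lit 12) (.e (nat_lit 475161) (nat_lit 21) (.e (nat_lit 6298) (nat_lit 337) .nil))))))) (.g (nat_lit 6) .nil .nil))) 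
(.lf (nat_lit 37055) (.g (nat_lit 2377) (.e (nat_lit 1220) (nat_lit 90) (.e (nat_lit 81938) (nat_lit 20) (.e (nat_lit 2003) (nat_lit 138) (.e (nat_lit 671764) (nat_lit 6) (.e (nat_lit 81950) (nat_lit 21) (.e (nat_lit 57871) (nat_lit 264) .nil)))))) (.g (nat_lit 0) .nil .nil)))))))))

noncomputable def tv517 : DT := (.nd (nat_lit 0) (.nd (nat_lit 1) (.nd (nat_lit 2) (.nd (nat_lit 3) (.nd (nat_lit 4) (.nd (nat_lit 5) 
(.lf (nat_lit 37056) (.g (nat_lit 414) (.e (nat_lit 1220) (nat_lit 90) (.e (nat_lit 81938) (nat_lit 20) (.e (nat_lit 2005) (nat_lit 138) .nil))) .nil)) 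
(.lf (nat_lit 37088) (.g (nat_lit 2042) (.e (nat_lit 1220) (nat_lit 90) (.e (nat_lit 81938) (nat_lit 20) (.e (nat_lit 2281) (nat_lit 150) (.e (nat_lit 770057) (nat_lit 5) (.e (nat_lit 1598) (nat_lit 111) (.e (nat_lit 368384) (nat_lit 0) (.e (nat_lit 7237) (nat_lit 382) .nil))))))) (.g (nat_lit 5) .nil .nil)))) (.nd (nat_lit 5) 
(.lf (nat_lit 37072) (.g (nat_lit 1541) (.e (nat_lit 1220) (nat_lit 90) (.e (nat_lit 81938) (nat_lit 20) (.e (nat_lit 2006) (nat_lit 138) (.e (nat_lit 671748) (nat_lit 0) (.e (nat_lit 1592) (nat_lit 111) (.e (nat_lit 368384) (nat_lit 0) (.e (nat_lit 5902) (nat_lit 320) .nil))))))) (.g (nat_lit 4) .nil .nil))) 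
(.lf (nat_lit 37104) (.g (nat_lit 1276) (.e (nat_lit 1220) (nat_lit 90) (.e (nat_lit 81950) (nat_lit 21) (.e (nat_lit 57681) (nat_lit 155) (.e (nat_lit 122916) (nat_lit 14) .nil)))) .nil)))) (.nd (nat_lit 4) (.nd (nat_lit 5) 
(.lf (nat_lit 37064) (.g (nat_lit 3858) (.e (nat_lit 1220) (nat_lit 90) (.e (nat_lit 81938) (nat_lit 20) (.e (nat_lit 2005) (nat_lit 138) (.e (nat_lit 671762) (nat_lit 4) (.e (nat_lit 65610) (nat_lit 10) (.e (nat_lit 344097) (nat_lit 18) (.e (nat_lit 5905) (nat_lit 320) .nil))))))) (.g (nat_lit 0) .nil .nil))) 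
(.lf (nat_lit 37096) (.g (nat_lit 609) (.e (nat_lit 1220) (nat_lit 90) (.e (nat_lit 81947) (nat_lit 20) (.e (nat_lit 2006) (nat_lit 138) .nil))) .nil))) (.nd (nat_lit 5) 
(.lf (nat_lit 37080) (.g (nat_lit 2229) (.e (nat_lit 1220) (nat_lit 90) (.e (nat_lit 81938) (nat_lit 20) (.e (nat_lit 2006) (nat_lit 138) (.e (nat_lit 671764) (nat_lit 6) (.e (nat_lit 81948) (nat_lit 21) (.e (nat_lit 57870) (nat_lit 264) .nil)))))) (.g (nat_lit 0) .nil .nil))) 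
(.lf (nat_lit 37112) (.g (nat_lit 3110) (.e (nat_lit 1220) (nat_lit 90) (.e (nat_lit 81950) (nat_lit 21) (.e (nat_lit 57681) (nat_lit 155) (.e (nat_lit 122919) (nat_lit 15) (.e (nat_lit 360448) (nat_lit 0) (.e (nat_lit 7135) (nat_lit 382) .nil)))))) (.g (nat_lit 4) .nil .nil)))))) (.nd (nat_lit 3) (.nd (nat_lit 4) (.nd (nat_lit 5) 
(.lf (nat_lit 37060) (.g (nat_lit 3265) (.e (nat_lit 1220) (nat_lit 90) (.e (nat_lit 81938) (nat_lit 20) (.e (nat_lit 2005) (nat_lit 138) (.e (nat_lit 671762) (nat_lit 4) (.e (nat_lit 65598) (nat_lit 9) (.e (nat_lit 335997) (nat_lit 1) (.e (nat_lit 57870) (nat_lit 264) .nil))))))) (.g (nat_lit 7) .nil .nil))) 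
(.lf (nat_lit 37092) (.g (nat_lit 2110) (.e (nat_lit 1220) (nat_lit 90) (.e (nat_lit 81938) (nat_lit 20) (.e (nat_lit 2281) (nat_lit 150) (.e (nat_lit 770072) (nat_lit 8) (.e (nat_lit 65624) (nat_lit 12) .nil))))) .nil))) (.nd (nat_lit 5) 
(.lf (nat_lit 37076) (.g (nat_lit 3178) (.e (nat_lit 1220) (nat_lit 90) (.e (nat_lit 81938) (nat_lit 20) (.e (nat_lit 2006) (nat_lit 138) (.e (nat_lit 671762) (nat_lit 4) (.e (nat_lit 65604) (nat_lit 9) (.e (nat_lit 335997) (nat_lit 1) (.e (nat_lit 57871) (nat_lit 264) .nil))))))) (.g (nat_lit 0) .nil .nil))) 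
(.lf (nat_lit 37108) (.g (nat_lit 3933) (.e (nat_lit 1220) (nat_lit 90) (.e (nat_lit 81950) (nat_lit 21) (.e (nat_lit 57681) (nat_lit 155) (.e (nat_lit 122917) (nat_lit 15) (.e (nat_lit 360456) (nat_lit 0) (.e (nat_lit 7936) (nat_lit 382) .nil)))))) (.g (nat_lit 5) .nil .nil))))) (.nd (nat_lit 4) (.nd (nat_lit 5) 
(.lf (nat_lit 37068) (.g (nat_lit 2195) (.e (nat_lit 1220) (nat_lit 90) (.e (nat_lit 81938) (nat_lit 20) (.e (nat_lit 2005) (nat_lit 138) (.e (nat_lit 671764) (nat_lit 6) (.e (nat_lit 81948) (nat_lit 21) (.e (nat_lit 57870) (nat_lit 264) .nil)))))) (.g (nat_lit 0) .nil .nil))) 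
(.lf (nat_lit 37100) (.g (nat_lit 1771) (.e (nat_lit 1220) (nat_lit 90) (.e (nat_lit 81948) (nat_lit 21) (.e (nat_lit 57873) (nat_lit 264) (.e (nat_lit 1190) (nat_lit 88) (.e (nat_lit 65604) (nat_lit 9) .nil))))) .nil))) (.nd (nat_lit 5) 
(.lf (nat_lit 37084) (.g (nat_lit 2112) (.e (nat_lit 1220) (nat_lit 90) (.e (nat_lit 81938) (nat_lit 20) (.e (nat_lit 2270) (nat_lit 149) (.e (nat_lit 761868) (nat_lit 5) (.e (nat_lit 1597) (nat_lit 111) (.e (nat_lit 368384) (nat_lit 0) (.e (nat_lit 7237) (nat_lit 382) .nil))))))) (.g (nat_lit 5) .nil .nil))) 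
(.lf (nat_lit 37116) (.g (nat_lit 3970) (.e (nat_lit 1220) (nat_lit 90) (.e (nat_lit 81950) (nat_lit 21) (.e (nat_lit 57681) (nat_lit 155) (.e (nat_lit 122919) (nat_lit 15) (.e (nat_lit 360450) (nat_lit 0) (.e (nat_lit 7936) (nat_lit 382) .nil)))))) (.g (nat_lit 5) .nil .nil))))))) (.nd (nat_lit 2) (.nd (nat_lit 3) (.nd (nat_lit 4) (.nd (nat_lit 5) 
(.lf (nat_lit 37058) (.g (nat_lit 1797) (.e (nat_lit 1220) (nat_lit 90) (.e (nat_lit 81938) (nat_lit 20) (.e (nat_lit 2005) (nat_lit 138) (.e (nat_lit 671747) (nat_lit 0) (.e (nat_lit 1595) (nat_lit 111) (.e (nat_lit 368384) (nat_lit 0) (.e (nat_lit 5902) (nat_lit 320) .nil))))))) (.g (nat_lit 5) .nil .nil))) 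
(.lf (nat_lit 37090) (.g (nat_lit 2493) (.e (nat_lit 1220) (nat_lit 90) (.e (nat_lit 81938) (nat_lit 20) (.e (nat_lit 2281) (nat_lit 150) (.e (nat_lit 770058) (nat_lit 5) (.e (nat_lit 1595) (nat_lit 111) (.e (nat_lit 368384) (nat_lit 0) (.e (nat_lit 7237) (nat_lit 382) .nil))))))) (.g (nat_lit 5) .nil .nil)))) (.nd (nat_lit 5) 
(.lf (nat_lit 37074) (.g (nat_lit 3211) (.e (nat_lit 1220) (nat_lit 90) (.e (nat_lit 81938) (nat_lit 20) (.e (nat_lit 2006) (nat_lit 138) (.e (nat_lit 671762) (nat_lit 4) (.e (nat_lit 65598) (nat_lit 9) (.e (nat_lit 335997) (nat_lit 1) (.e (nat_lit 57871) (nat_lit 264) .nil))))))) (.g (nat_lit 7) .nil .nil))) 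
(.lf (nat_lit 37106) (.g (nat_lit 2815) (.e (nat_lit 1220) (nat_lit 90) (.e (nat_lit 81950) (nat_lit 21) (.e (nat_lit 57681) (nat_lit 155) (.e (nat_lit 122917) (nat_lit 15) (.e (nat_lit 360448) (nat_lit 0) (.e (nat_lit 7237) (nat_lit 382) .nil)))))) (.g (nat_lit 4) .nil .nil))))) (.nd (nat_lit 4) (.nd (nat_lit 5) 
(.lf (nat_lit 37066) (.g (nat_lit 3669) (.e (nat_lit 1220) (nat_lit 90) (.e (nat_lit 81938) (nat_lit 20) (.e (nat_lit 2005) (nat_lit 138) (.e (nat_lit 671762) (nat_lit 4) (.e (nat_lit 65619) (nat_lit 10) (.e (nat_lit 344097) (nat_lit 18) (.e (nat_lit 5905) (nat_lit 320) .nil))))))) (.g (nat_lit 0) .nil .nil))) 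
(.lf (nat_lit 37098) (.g (nat_lit 1499) (.e (nat_lit 1220) (nat_lit 90) (.e (nat_lit 81948) (nat_lit 21) (.e (nat_lit 57872) (nat_lit 264) (.e (nat_lit 1220) (nat_lit 90) (.e (nat_lit 81950) (nat_lit 21) .nil))))) .nil))) (.nd (nat_lit 5) 
(.lf (nat_lit 37082) (.g (nat_lit 2302) (.e (nat_lit 1220) (nat_lit 90) (.e (nat_lit 81938) (nat_lit 20) (.e (nat_lit 2006) (nat_lit 138) (.e (nat_lit 671764) (nat_lit 6) (.e (nat_lit 81950) (nat_lit 21) (.e (nat_lit 57871) (nat_lit 264) .nil)))))) (.g (nat_lit 0) .nil .nil))) 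
(.lf (nat_lit 37114) (.g (nat_lit 2563) (.e (nat_lit 1220) (nat_lit 90) (.e (nat_lit 81950) (nat_lit 21) (.e (nat_lit 57681) (nat_lit 155) (.e (nat_lit 122919) (nat_lit 15) (.e (nat_lit 360448) (nat_lit 0) (.e (nat_lit 7230) (nat_lit 382) .nil)))))) (.g (nat_lit 4) .nil .nil)))))) (.nd (nat_lit 3) (.nd (nat_lit 4) (.nd (nat_lit 5) 
(.lf (nat_lit 37062) (.g (nat_lit 3149) (.e (nat_lit 1220) (nat_lit 90) (.e (nat_lit 81938) (nat_lit 20) (.e (nat_lit 2005) (nat_lit 138) (.e (nat_lit 671762) (nat_lit 4) (.e (nat_lit 65604) (nat_lit 9) (.e (nat_lit 335997) (nat_lit 1) (.e (nat_lit 57870) (nat_lit 264) .nil))))))) (.g (nat_lit 0) .nil .nil))) 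
(.lf (nat_lit 37094) (.g (nat_lit 2265) (.e (nat_lit 1220) (nat_lit 90) (.e (nat_lit 81938) (nat_lit 20) (.e (nat_lit 2391) (nat_lit 156) (.e (nat_lit 819219) (nat_lit 4) (.e (nat_lit 172079) (nat_lit 7) (.e (nat_lit 409628) (nat_lit 11) (.e (nat_lit 8388) (nat_lit 114) .nil))))))) (.g (nat_lit 4) .nil .nil)))) (.nd (nat_lit 5) 
(.lf (nat_lit 37078) (.g (nat_lit 3670) (.e (nat_lit 1220) (nat_lit 90) (.e (nat_lit 81938) (nat_lit 20) (.e (nat_lit 2006) (nat_lit 138) (.e (nat_lit 671762) (nat_lit 4) (.e (nat_lit 65619) (nat_lit 10) (.e (nat_lit 344097) (nat_lit 18) (.e (nat_lit 5905) (nat_lit 320) .nil))))))) (.g (nat_lit 0) .nil .nil))) 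
(.lf (nat_lit 37110) (.g (nat_lit 2466) (.e (nat_lit 1220) (nat_lit 90) (.e (nat_lit 81950) (nat_lit 21) (.e (nat_lit 57681) (nat_lit 155) (.e (nat_lit 122917) (nat_lit 15) (.e (nat_lit 368384) (nat_lit 0) (.e (nat_lit 7236) (nat_lit 382) .nil)))))) (.g (nat_lit 4) .nil .nil))))) (.nd (nat_lit 4) (.nd (nat_lit 5) 
(.lf (nat_lit 37070) (.g (nat_lit 2297) (.e (nat_lit 1220) (nat_lit 90) (.e (nat_lit 81938) (nat_lit 20) (.e (nat_lit 2005) (nat_lit 138) (.e (nat_lit 671764) (nat_lit 6) (.e (nat_lit 81950) (nat_lit 21) (.e (nat_lit 57871) (nat_lit 264) .nil)))))) (.g (nat_lit 0) .nil .nil))) 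
(.lf (nat_lit 37102) (.g (nat_lit 1210) (.e (nat_lit 1220) (nat_lit 90) (.e (nat_lit 81948) (nat_lit 21) (.e (nat_lit 57873) (nat_lit 264) (.e (nat_lit 1221) (nat_lit 90) .nil)))) .nil))) (.nd (nat_lit 5) 
(.lf (nat_lit 37086) (.g (nat_lit 2121) (.e (nat_lit 1220) (nat_lit 90) (.e (nat_lit 81938) (nat_lit 20) (.e (nat_lit 2281) (nat_lit 150) (.e (nat_lit 770057) (nat_lit 5) (.e (nat_lit 1586) (nat_lit 111) (.e (nat_lit 368384) (nat_lit 0) (.e (nat_lit 7237) (nat_lit 382) .nil))))))) (.g (nat_lit 5) .nil .nil))) 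
(.lf (nat_lit 37118) (.g (nat_lit 3210) (.e (nat_lit 1220) (nat_lit 90) (.e (nat_lit 81950) (nat_lit 21) (.e (nat_lit 57681) (nat_lit 155) (.e (nat_lit 122919) (nat_lit 15) (.e (nat_lit 360453) (nat_lit 0) (.e (nat_lit 7936) (nat_lit 382) .nil)))))) (.g (nat_lit 4) .nil .nil)))))))) (.nd (nat_lit 1) (.nd (nat_lit 2) (.nd (nat_lit 3) (.nd (nat_lit 4) (.nd (nat_lit 5) 
(.lf (nat_lit 37057) (.g (nat_lit 2034) (.e (nat_lit 1220) (nat_lit 90) (.e (nat_lit 81938) (nat_lit 20) (.e (nat_lit 2005) (nat_lit 138) (.e (nat_lit 671747) (nat_lit 0) (.e (nat_lit 1586) (nat_lit 111) (.e (nat_lit 368384) (nat_lit 0) (.e (nat_lit 5902) (nat_lit 320) .nil))))))) (.g (nat_lit 5) .nil .nil))) 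
(.lf (nat_lit 37089) (.g (nat_lit 1047) (.e (nat_lit 1220) (nat_lit 90) (.e (nat_lit 81938) (nat_lit 20) (.e (nat_lit 2281) (nat_lit 150) (.e (nat_lit 770058) (nat_lit 5) .nil)))) .nil))) (.nd (nat_lit 5) 
(.lf (nat_lit 37073) (.g (nat_lit 3249) (.e (nat_lit 1220) (nat_lit 90) (.e (nat_lit 81938) (nat_lit 20) (.e (nat_lit 2006) (nat_lit 138) (.e (nat_lit 671762) (nat_lit 4) (.e (nat_lit 65598) (nat_lit 9) (.e (nat_lit 335997) (nat_lit 1) (.e (nat_lit 57870) (nat_lit 264) .nil))))))) (.g (nat_lit 7) .nil .nil))) 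
(.lf (nat_lit 37105) (.g (nat_lit 4006) (.e (nat_lit 1220) (nat_lit 90) (.e (nat_lit 81950) (nat_lit 21) (.e (nat_lit 57681) (nat_lit 155) (.e (nat_lit 122916) (nat_lit 14) (.e (nat_lit 352309) (nat_lit 21) (.e (nat_lit 65280) (nat_lit 152) .nil)))))) (.g (nat_lit 5) .nil .nil))))) (.nd (nat_lit 4) (.nd (nat_lit 5) 
(.lf (nat_lit 37065) (.g (nat_lit 2373) (.e (nat_lit 1220) (nat_lit 90) (.e (nat_lit 81938) (nat_lit 20) (.e (nat_lit 2005) (nat_lit 138) (.e (nat_lit 671762) (nat_lit 4) (.e (nat_lit 65610) (nat_lit 10) (.e (nat_lit 344097) (nat_lit 18) (.e (nat_lit 5906) (nat_lit 320) .nil))))))) (.g (nat_lit 5) .nil .nil))) 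
(.lf (nat_lit 37097) (.g (nat_lit 1717) (.e (nat_lit 1220) (nat_lit 90) (.e (nat_lit 81948) (nat_lit 21) (.e (nat_lit 57872) (nat_lit 264) (.e (nat_lit 1219) (nat_lit 90) (.e (nat_lit 81948) (nat_lit 21) .nil))))) .nil))) (.nd (nat_lit 5) 
(.lf (nat_lit 37081) (.g (nat_lit 2177) (.e (nat_lit 1220) (nat_lit 90) (.e (nat_lit 81938) (nat_lit 20) (.e (nat_lit 2006) (nat_lit 138) (.e (nat_lit 671764) (nat_lit 6) (.e (nat_lit 81948) (nat_lit 21) (.e (nat_lit 57871) (nat_lit 264) .nil)))))) (.g (nat_lit 0) .nil .nil))) 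
(.lf (nat_lit 37113) (.g (nat_lit 2306) (.e (nat_lit 1220) (nat_lit 90) (.e (nat_lit 81950) (nat_lit 21) (.e (nat_lit 57681) (nat_lit 155) (.e (nat_lit 122919) (nat_lit 15) (.e (nat_lit 360448) (nat_lit 0) (.e (nat_lit 7137) (nat_lit 382) .nil)))))) (.g (nat_lit 4) .nil .nil)))))) (.nd (nat_lit 3) (.nd (nat_lit 4) (.nd (nat_lit 5) 
(.lf (nat_lit 37061) (.g (nat_lit 3229) (.e (nat_lit 1220) (nat_lit 90) (.e (nat_lit 81938) (nat_lit 20) (.e (nat_lit 2005) (nat_lit 138) (.e (nat_lit 671762) (nat_lit 4) (.e (nat_lit 65598) (nat_lit 9) (.e (nat_lit 335997) (nat_lit 1) (.e (nat_lit 57871) (nat_lit 264) .nil))))))) (.g (nat_lit 7) .nil .nil))) 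
(.lf (nat_lit 37093) (.g (nat_lit 2826) (.e (nat_lit 1220) (nat_lit 90) (.e (nat_lit 81938) (nat_lit 20) (.e (nat_lit 2281) (nat_lit 150) (.e (nat_lit 770074) (nat_lit 10) (.e (nat_lit 81959) (nat_lit 24) (.e (nat_lit 130816) (nat_lit 152) .nil)))))) (.g (nat_lit 5) .nil .nil)))) (.nd (nat_lit 5) 
(.lf (nat_lit 37077) (.g (nat_lit 3756) (.e (nat_lit 1220) (nat_lit 90) (.e (nat_lit 81938) (nat_lit 20) (.e (nat_lit 2006) (nat_lit 138) (.e (nat_lit 671762) (nat_lit 4) (.e (nat_lit 65610) (nat_lit 10) (.e (nat_lit 344097) (nat_lit 18) (.e (nat_lit 5905) (nat_lit 320) .nil))))))) (.g (nat_lit 0) .nil .nil))) 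
(.lf (nat_lit 37109) (.g (nat_lit 4154) (.e (nat_lit 1220) (nat_lit 90) (.e (nat_lit 81950) (nat_lit 21) (.e (nat_lit 57681) (nat_lit 155) (.e (nat_lit 122917) (nat_lit 15) (.e (nat_lit 360457) (nat_lit 0) (.e (nat_lit 7936) (nat_lit 382) .nil)))))) (.g (nat_lit 5) .nil .nil))))) (.nd (nat_lit 4) (.nd (nat_lit 5) 
(.lf (nat_lit 37069) (.g (nat_lit 2130) (.e (nat_lit 1220) (nat_lit 90) (.e (nat_lit 81938) (nat_lit 20) (.e (nat_lit 2005) (nat_lit 138) (.e (nat_lit 671764) (nat_lit 6) (.e (nat_lit 81948) (nat_lit 21) (.e (nat_lit 57871) (nat_lit 264) .nil)))))) (.g (nat_lit 0) .nil .nil))) 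
(.lf (nat_lit 37101) (.g (nat_lit 1320) (.e (nat_lit 1220) (nat_lit 90) (.e (nat_lit 81948) (nat_lit 21) (.e (nat_lit 57873) (nat_lit 264) (.e (nat_lit 1220) (nat_lit 90) .nil)))) .nil))) (.nd (nat_lit 5) 
(.lf (nat_lit 37085) (.g (nat_lit 466) (.e (nat_lit 1220) (nat_lit 90) (.e (nat_lit 81938) (nat_lit 20) (.e (nat_lit 2280) (nat_lit 150) .nil))) .nil)) 
(.lf (nat_lit 37117) (.g (nat_lit 4368) (.e (nat_lit 1220) (nat_lit 90) (.e (nat_lit 81950) (nat_lit 21) (.e (nat_lit 57681) (nat_lit 155) (.e (nat_lit 122919) (nat_lit 15) (.e (nat_lit 360451) (nat_lit 0) (.e (nat_lit 7936) (nat_lit 382) .nil)))))) (.g (nat_lit 5) .nil .nil))))))) (.nd (nat_lit 2) (.nd (nat_lit 3) (.nd (nat_lit 4) (.nd (nat_lit 5) 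
(.lf (nat_lit 37059) (.g (nat_lit 1509) (.e (nat_lit 1220) (nat_lit 90) (.e (nat_lit 81938) (nat_lit 20) (.e (nat_lit 2005) (nat_lit 138) (.e (nat_lit 671748) (nat_lit 0) (.e (nat_lit 1592) (nat_lit 111) (.e (nat_lit 368384) (nat_lit 0) (.e (nat_lit 5902) (nat_lit 320) .nil))))))) (.g (nat_lit 4) .nil .nil))) 
(.lf (nat_lit 37091) (.g (nat_lit 2301) (.e (nat_lit 1220) (nat_lit 90) (.e (nat_lit 81938) (nat_lit 20) (.e (nat_lit 2281) (nat_lit 150) (.e (nat_lit 770058) (nat_lit 5) (.e (nat_lit 1598) (nat_lit 111) (.e (nat_lit 368384) (nat_lit 0) (.e (nat_lit 7237) (nat_lit 382) .nil))))))) (.g (nat_lit 5) .nil .nil)))) (.nd (nat_lit 5) 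
(.lf (nat_lit 37075) (.g (nat_lit 3187) (.e (nat_lit 1220) (nat_lit 90) (.e (nat_lit 81938) (nat_lit 20) (.e (nat_lit 2006) (nat_lit 138) (.e (nat_lit 671762) (nat_lit 4) (.e (nat_lit 65604) (nat_lit 9) (.e (nat_lit 335997) (nat_lit 1) (.e (nat_lit 57870) (nat_lit 264) .nil))))))) (.g (nat_lit 0) .nil .nil))) 
(.lf (nat_lit 37107) (.g (nat_lit 2065) (.e (nat_lit 1220) (nat_lit 90) (.e (nat_lit 81950) (nat_lit 21) (.e (nat_lit 57681) (nat_lit 155) (.e (nat_lit 122917) (nat_lit 15) (.e (nat_lit 360449) (nat_lit 0) (.e (nat_lit 7236) (nat_lit 382) .nil)))))) (.g (nat_lit 4) .nil .nil))))) (.nd (nat_lit 4) (.nd (nat_lit 5) 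
(.lf (nat_lit 37067) (.g (nat_lit 2173) (.e (nat_lit 1220) (nat_lit 90) (.e (nat_lit 81938) (nat_lit 20) (.e (nat_lit 2005) (nat_lit 138) (.e (nat_lit 671762) (nat_lit 4) (.e (nat_lit 65619) (nat_lit 10) (.e (nat_lit 344097) (nat_lit 18) (.e (nat_lit 5906) (nat_lit 320) .nil))))))) (.g (nat_lit 4) .nil .nil))) 
(.lf (nat_lit 37099) (.g (nat_lit 1757) (.e (nat_lit 1220) (nat_lit 90) (.e (nat_lit 81948) (nat_lit 21) (.e (nat_lit 57872) (nat_lit 264) (.e (nat_lit 1221) (nat_lit 90) (.e (nat_lit 81950) (nat_lit 21) (.e (nat_lit 57870) (nat_lit 264) .nil)))))) (.g (nat_lit 4) .nil .nil)))) (.nd (nat_lit 5) 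
(.lf (nat_lit 37083) (.g (nat_lit 1816) (.e (nat_lit 1220) (nat_lit 90) (.e (nat_lit 81938) (nat_lit 20) (.e (nat_lit 2270) (nat_lit 149) (.e (nat_lit 761868) (nat_lit 5) (.e (nat_lit 1585) (nat_lit 111) (.e (nat_lit 368384) (nat_lit 0) (.e (nat_lit 7237) (nat_lit 382) .nil))))))) (.g (nat_lit 4) .nil .nil))) 
(.lf (nat_lit 37115) (.g (nat_lit 2101) (.e (nat_lit 1220) (nat_lit 90) (.e (nat_lit 81950) (nat_lit 21) (.e (nat_lit 57681) (nat_lit 155) (.e (nat_lit 122919) (nat_lit 15) (.e (nat_lit 360448) (nat_lit 0) (.e (nat_lit 7236) (nat_lit 382) .nil)))))) (.g (nat_lit 4) .nil .nil)))))) (.nd (nat_lit 3) (.nd (nat_lit 4) (.nd (nat_lit 5) 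
(.lf (nat_lit 37063) (.g (nat_lit 3142) (.e (nat_lit 1220) (nat_lit 90) (.e (nat_lit 81938) (nat_lit 20) (.e (nat_lit 2005) (nat_lit 138) (.e (nat_lit 671762) (nat_lit 4) (.e (nat_lit 65604) (nat_lit 9) (.e (nat_lit 335997) (nat_lit 1) (.e (nat_lit 57871) (nat_lit 264) .nil))))))) (.g (nat_lit 0) .nil .nil))) 
(.lf (nat_lit 37095) (.g (nat_lit 603) (.e (nat_lit 1220) (nat_lit 90) (.e (nat_lit 81947) (nat_lit 20) (.e (nat_lit 2005) (nat_lit 138) .nil))) .nil))) (.nd (nat_lit 5) 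
(.lf (nat_lit 37079) (.g (nat_lit 2172) (.e (nat_lit 1220) (nat_lit 90) (.e (nat_lit 81938) (nat_lit 20) (.e (nat_lit 2006) (nat_lit 138) (.e (nat_lit 671762) (nat_lit 4) (.e (nat_lit 65619) (nat_lit 10) (.e (nat_lit 344097) (nat_lit 18) (.e (nat_lit 5906) (nat_lit 320) .nil))))))) (.g (nat_lit 4) .nil .nil))) 
(.lf (nat_lit 37111) (.g (nat_lit 3352) (.e (nat_lit 1220) (nat_lit 90) (.e (nat_lit 81950) (nat_lit 21) (.e (nat_lit 57681) (nat_lit 155) (.e (nat_lit 122919) (nat_lit 15) (.e (nat_lit 360448) (nat_lit 0) (.e (nat_lit 7133) (nat_lit 382) .nil)))))) (.g (nat_lit 4) .nil .nil))))) (.nd (nat_lit 4) (.nd (nat_lit 5) 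
(.lf (nat_lit 37071) (.g (nat_lit 386) (.e (nat_lit 1220) (nat_lit 90) (.e (nat_lit 81938) (nat_lit 20) (.e (nat_lit 2006) (nat_lit 138) .nil))) .nil)) 
(.lf (nat_lit 37103) (.g (nat_lit 2253) (.e (nat_lit 1220) (nat_lit 90) (.e (nat_lit 81950) (nat_lit 21) (.e (nat_lit 57666) (nat_lit 152) (.e (nat_lit 1077) (nat_lit 81) (.e (nat_lit 1597) (nat_lit 111) (.e (nat_lit 368384) (nat_lit 0) (.e (nat_lit 7237) (nat_lit 382) .nil))))))) (.g (nat_lit 4) .nil .nil)))) (.nd (nat_lit 5) 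
(.lf (nat_lit 37087) (.g (nat_lit 2324) (.e (nat_lit 1220) (nat_lit 90) (.e (nat_lit 81938) (nat_lit 20) (.e (nat_lit 2281) (nat_lit 150) (.e (nat_lit 770057) (nat_lit 5) (.e (nat_lit 1595) (nat_lit 111) (.e (nat_lit 368384) (nat_lit 0) (.e (nat_lit 7237) (nat_lit 382) .nil))))))) (.g (nat_lit 5) .nil .nil))) 
(.lf (nat_lit 37119) (.g (nat_lit 2397) (.e (nat_lit 1220) (nat_lit 90) (.e (nat_lit 81950) (nat_lit 21) (.e (nat_lit 57681) (nat_lit 155) (.e (nat_lit 122919) (nat_lit 15) (.e (nat_lit 360455) (nat_lit 0) .nil))))) .nil))))))))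

noncomputable def tv518 : DT := (.nd (nat_lit 0) (.nd (nat_lit 1) (.nd (nat_lit 2) (.nd (nat_lit 3) (.nd (nat_lit 4) (.nd (nat_lit 5) 
(.lf (nat_lit 37120) (.g (nat_lit 4344) (.e (nat_lit 1220) (nat_lit 90) (.e (nat_lit 81950) (nat_lit 21) (.e (nat_lit 57681) (nat_lit 155) (.e (nat_lit 122919) (nat_lit 15) (.e (nat_lit 360456) (nat_lit 0) (.e (nat_lit 7936) (nat_lit 382) .nil)))))) (.g (nat_lit 5) .nil .nil))) 
(.lf (nat_lit 37152) (.g (nat_lit 3784) (.e (nat_lit 1220) (nat_lit 90) (.e (nat_lit 81950) (nat_lit 21) (.e (nat_lit 57872) (nat_lit 264) (.e (nat_lit 1221) (nat_lit 90) (.e (nat_lit 81950) (nat_lit 21) (.e (nat_lit 57870) (nat_lit 264) .nil)))))) (.g (nat_lit 0) .nil .nil)))) (.nd (nat_lit 5) 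
(.lf (nat_lit 37136) (.g (nat_lit 1898) (.e (nat_lit 1220) (nat_lit 90) (.e (nat_lit 81950) (nat_lit 21) (.e (nat_lit 57870) (nat_lit 264) (.e (nat_lit 1221) (nat_lit 90) (.e (nat_lit 81948) (nat_lit 21) (.e (nat_lit 57872) (nat_lit 264) .nil)))))) (.g (nat_lit 4) .nil .nil))) 
(.lf (nat_lit 37168) (.g (nat_lit 3399) (.e (nat_lit 1220) (nat_lit 90) (.e (nat_lit 81950) (nat_lit 21) (.e (nat_lit 57873) (nat_lit 264) (.e (nat_lit 1221) (nat_lit 90) (.e (nat_lit 81950) (nat_lit 21) (.e (nat_lit 57872) (nat_lit 264) .nil)))))) (.g (nat_lit 0) .nil .nil))))) (.nd (nat_lit 4) (.nd (nat_lit 5) 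
(.lf (nat_lit 37128) (.g (nat_lit 2736) (.e (nat_lit 1220) (nat_lit 90) (.e (nat_lit 81950) (nat_lit 21) (.e (nat_lit 57848) (nat_lit 252) (.e (nat_lit 57388) (nat_lit 5) (.e (nat_lit 122624) (nat_lit 12) (.e (nat_lit 434202) (nat_lit 18) (.e (nat_lit 4598) (nat_lit 269) .nil))))))) (.g (nat_lit 4) .nil .nil))) 
(.lf (nat_lit 37160) (.g (nat_lit 3829) (.e (nat_lit 1220) (nat_lit 90) (.e (nat_lit 81950) (nat_lit 21) (.e (nat_lit 57873) (nat_lit 264) (.e (nat_lit 1200) (nat_lit 88) (.e (nat_lit 65619) (nat_lit 10) (.e (nat_lit 344097) (nat_lit 18) (.e (nat_lit 5906) (nat_lit 320) .nil))))))) (.g (nat_lit 7) .nil .nil)))) (.nd (nat_lit 5) 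
(.lf (nat_lit 37144) (.g (nat_lit 4013) (.e (nat_lit 1220) (nat_lit 90) (.e (nat_lit 81950) (nat_lit 21) (.e (nat_lit 57872) (nat_lit 264) (.e (nat_lit 1190) (nat_lit 88) (.e (nat_lit 65619) (nat_lit 10) (.e (nat_lit 344097) (nat_lit 18) (.e (nat_lit 5906) (nat_lit 320) .nil))))))) (.g (nat_lit 6) .nil .nil))) 
(.lf (nat_lit 37176) (.g (nat_lit 1030) (.e (nat_lit 1220) (nat_lit 90) (.e (nat_lit 81953) (nat_lit 22) (.e (nat_lit 90120) (nat_lit 0) .nil))) .nil))))) (.nd (nat_lit 3) (.nd (nat_lit 4) (.nd (nat_lit 5) 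
(.lf (nat_lit 37124) (.g (nat_lit 2950) (.e (nat_lit 1220) (nat_lit 90) (.e (nat_lit 81950) (nat_lit 21) (.e (nat_lit 57681) (nat_lit 155) (.e (nat_lit 122919) (nat_lit 15) (.e (nat_lit 368384) (nat_lit 0) (.e (nat_lit 7236) (nat_lit 382) .nil)))))) (.g (nat_lit 4) .nil .nil))) 
(.lf (nat_lit 37156) (.g (nat_lit 235) (.e (nat_lit 1220) (nat_lit 90) (.e (nat_lit 81950) (nat_lit 21) (.e (nat_lit 57873) (nat_lit 264) .nil))) .nil))) (.nd (nat_lit 5) 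
(.lf (nat_lit 37140) (.g (nat_lit 3264) (.e (nat_lit 1220) (nat_lit 90) (.e (nat_lit 81950) (nat_lit 21) (.e (nat_lit 57871) (nat_lit 264) (.e (nat_lit 1221) (nat_lit 90) (.e (nat_lit 81950) (nat_lit 21) (.e (nat_lit 57870) (nat_lit 264) .nil)))))) (.g (nat_lit 0) .nil .nil))) 
(.lf (nat_lit 37172) (.g (nat_lit 1244) (.e (nat_lit 1220) (nat_lit 90) (.e (nat_lit 81953) (nat_lit 22) (.e (nat_lit 90113) (nat_lit 0) .nil))) .nil)))) (.nd (nat_lit 4) (.nd (nat_lit 5) 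
(.lf (nat_lit 37132) (.g (nat_lit 380) (.e (nat_lit 1220) (nat_lit 90) (.e (nat_lit 81950) (nat_lit 21) (.e (nat_lit 57870) (nat_lit 264) .nil))) .nil)) 
(.lf (nat_lit 37164) (.g (nat_lit 795) (.e (nat_lit 1220) (nat_lit 90) (.e (nat_lit 81950) (nat_lit 21) (.e (nat_lit 57873) (nat_lit 264) (.e (nat_lit 1221) (nat_lit 90) .nil)))) .nil))) (.nd (nat_lit 5) 
(.lf (nat_lit 37148) (.g (nat_lit 3062) (.e (nat_lit 1220) (nat_lit 90) (.e (nat_lit 81950) (nat_lit 21) (.e (nat_lit 57872) (nat_lit 264) (.e (nat_lit 1220) (nat_lit 90) (.e (nat_lit 81950) (nat_lit 21) (.e (nat_lit 57872) (nat_lit 264) .nil)))))) (.g (nat_lit 5) .nil .nil))) 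
(.lf (nat_lit 37180) (.g (nat_lit 874) (.e (nat_lit 1220) (nat_lit 90) (.e (nat_lit 81953) (nat_lit 22) (.e (nat_lit 90133) (nat_lit 9) .nil))) .nil)))))) (.nd (nat_lit 2) (.nd (nat_lit 3) (.nd (nat_lit 4) (.nd (nat_lit 5) 
(.lf (nat_lit 37122) (.g (nat_lit 2194) (.e (nat_lit 1220) (nat_lit 90) (.e (nat_lit 81950) (nat_lit 21) (.e (nat_lit 57681) (nat_lit 155) (.e (nat_lit 122919) (nat_lit 15) (.e (nat_lit 368384) (nat_lit 0) .nil))))) .nil)) 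
(.lf (nat_lit 37154) (.g (nat_lit 3804) (.e (nat_lit 1220) (nat_lit 90) (.e (nat_lit 81950) (nat_lit 21) (.e (nat_lit 57872) (nat_lit 264) (.e (nat_lit 1221) (nat_lit 90) (.e (nat_lit 81950) (nat_lit 21) (.e (nat_lit 57873) (nat_lit 264) .nil)))))) (.g (nat_lit 6) .nil .nil)))) (.nd (nat_lit 5) 
(.lf (nat_lit 37138) (.g (nat_lit 2872) (.e (nat_lit 1220) (nat_lit 90) (.e (nat_lit 81950) (nat_lit 21) (.e (nat_lit 57870) (nat_lit 264) (.e (nat_lit 1221) (nat_lit 90) (.e (nat_lit 81959) (nat_lit 24) (.e (nat_lit 123191) (nat_lit 264) .nil)))))) (.g (nat_lit 5) .nil .nil))) 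
(.lf (nat_lit 37170) (.g (nat_lit 628) (.e (nat_lit 1220) (nat_lit 90) (.e (nat_lit 81950) (nat_lit 21) (.e (nat_lit 57931) (nat_lit 282) .nil))) .nil)))) (.nd (nat_lit 4) (.nd (nat_lit 5) 
(.lf (nat_lit 37130) (.g (nat_lit 3052) (.e (nat_lit 1220) (nat_lit 90) (.e (nat_lit 81950) (nat_lit 21) (.e (nat_lit 57849) (nat_lit 252) (.e (nat_lit 57390) (nat_lit 5) (.e (nat_lit 122624) (nat_lit 12) (.e (nat_lit 434202) (nat_lit 18) (.e (nat_lit 4598) (nat_lit 269) .nil))))))) (.g (nat_lit 4) .nil .nil))) 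
(.lf (nat_lit 37162) (.g (nat_lit 3604) (.e (nat_lit 1220) (nat_lit 90) (.e (nat_lit 81950) (nat_lit 21) (.e (nat_lit 57873) (nat_lit 264) (.e (nat_lit 1220) (nat_lit 90) (.e (nat_lit 81950) (nat_lit 21) (.e (nat_lit 57871) (nat_lit 264) .nil)))))) (.g (nat_lit 5) .nil .nil)))) (.nd (nat_lit 5) 
(.lf (nat_lit 37146) (.g (nat_lit 3349) (.e (nat_lit 1220) (nat_lit 90) (.e (nat_lit 81950) (nat_lit 21) (.e (nat_lit 57872) (nat_lit 264) (.e (nat_lit 1220) (nat_lit 90) (.e (nat_lit 81950) (nat_lit 21) (.e (nat_lit 57870) (nat_lit 264) .nil)))))) (.g (nat_lit 5) .nil .nil))) 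
(.lf (nat_lit 37178) (.g (nat_lit 2557) (.e (nat_lit 1220) (nat_lit 90) (.e (nat_lit 81953) (nat_lit 22) (.e (nat_lit 98048) (nat_lit 2) (.e (nat_lit 16473) (nat_lit 14) (.e (nat_lit 491526) (nat_lit 0) (.e (nat_lit 988) (nat_lit 81) (.e (nat_lit 7454) (nat_lit 396) .nil))))))) (.g (nat_lit 5) .nil .nil)))))) (.nd (nat_lit 3) (.nd (nat_lit 4) (.nd (nat_lit 5) 
(.lf (nat_lit 37126) (.g (nat_lit 893) (.e (nat_lit 1220) (nat_lit 90) (.e (nat_lit 81950) (nat_lit 21) (.e (nat_lit 57683) (nat_lit 155) (.e (nat_lit 122919) (nat_lit 15) .nil)))) .nil)) 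
(.lf (nat_lit 37158) (.g (nat_lit 3994) (.e (nat_lit 1220) (nat_lit 90) (.e (nat_lit 81950) (nat_lit 21) (.e (nat_lit 57873) (nat_lit 264) (.e (nat_lit 1190) (nat_lit 88) (.e (nat_lit 65619) (nat_lit 10) (.e (nat_lit 344097) (nat_lit 18) (.e (nat_lit 5906) (nat_lit 320) .nil))))))) (.g (nat_lit 7) .nil .nil)))) (.nd (nat_lit 5) 
(.lf (nat_lit 37142) (.g (nat_lit 3264) (.e (nat_lit 1220) (nat_lit 90) (.e (nat_lit 81950) (nat_lit 21) (.e (nat_lit 57871) (nat_lit 264) (.e (nat_lit 1221) (nat_lit 90) (.e (nat_lit 81950) (nat_lit 21) (.e (nat_lit 57873) (nat_lit 264) .nil)))))) (.g (nat_lit 5) .nil .nil))) 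
(.lf (nat_lit 37174) (.g (nat_lit 1299) (.e (nat_lit 1220) (nat_lit 90) (.e (nat_lit 81953) (nat_lit 22) (.e (nat_lit 90116) (nat_lit 0) (.e (nat_lit 7936) (nat_lit 35) .nil)))) .nil)))) (.nd (nat_lit 4) (.nd (nat_lit 5) 
(.lf (nat_lit 37134) (.g (nat_lit 2135) (.e (nat_lit 1220) (nat_lit 90) (.e (nat_lit 81950) (nat_lit 21) (.e (nat_lit 57870) (nat_lit 264) (.e (nat_lit 1221) (nat_lit 90) (.e (nat_lit 81948) (nat_lit 21) (.e (nat_lit 57870) (nat_lit 264) .nil)))))) (.g (nat_lit 4) .nil .nil))) 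
(.lf (nat_lit 37166) (.g (nat_lit 3169) (.e (nat_lit 1220) (nat_lit 90) (.e (nat_lit 81950) (nat_lit 21) (.e (nat_lit 57873) (nat_lit 264) (.e (nat_lit 1221) (nat_lit 90) (.e (nat_lit 81948) (nat_lit 21) (.e (nat_lit 57872) (nat_lit 264) .nil)))))) (.g (nat_lit 6) .nil .nil)))) (.nd (nat_lit 5) 
(.lf (nat_lit 37150) (.g (nat_lit 3154) (.e (nat_lit 1220) (nat_lit 90) (.e (nat_lit 81950) (nat_lit 21) (.e (nat_lit 57872) (nat_lit 264) (.e (nat_lit 1221) (nat_lit 90) (.e (nat_lit 81948) (nat_lit 21) (.e (nat_lit 57872) (nat_lit 264) .nil)))))) (.g (nat_lit 5) .nil .nil))) 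
(.lf (nat_lit 37182) (.g (nat_lit 1573) (.e (nat_lit 1220) (nat_lit 90) (.e (nat_lit 81953) (nat_lit 22) (.e (nat_lit 90134) (nat_lit 9) (.e (nat_lit 3098) (nat_lit 192) .nil)))) .nil))))))) (.nd (nat_lit 1) (.nd (nat_lit 2) (.nd (nat_lit 3) (.nd (nat_lit 4) (.nd (nat_lit 5) 
(.lf (nat_lit 37121) (.g (nat_lit 4412) (.e (nat_lit 1220) (nat_lit 90) (.e (nat_lit 81950) (nat_lit 21) (.e (nat_lit 57681) (nat_lit 155) (.e (nat_lit 122919) (nat_lit 15) (.e (nat_lit 360457) (nat_lit 0) (.e (nat_lit 7936) (nat_lit 382) .nil)))))) (.g (nat_lit 5) .nil .nil))) 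
(.lf (nat_lit 37153) (.g (nat_lit 3484) (.e (nat_lit 1220) (nat_lit 90) (.e (nat_lit 81950) (nat_lit 21) (.e (nat_lit 57872) (nat_lit 264) (.e (nat_lit 1221) (nat_lit 90) (.e (nat_lit 81950) (nat_lit 21) (.e (nat_lit 57872) (nat_lit 264) .nil)))))) (.g (nat_lit 6) .nil .nil)))) (.nd (nat_lit 5) 
(.lf (nat_lit 37137) (.g (nat_lit 3266) (.e (nat_lit 1220) (nat_lit 90) (.e (nat_lit 81950) (nat_lit 21) (.e (nat_lit 57870) (nat_lit 264) (.e (nat_lit 1221) (nat_lit 90) (.e (nat_lit 81950) (nat_lit 21) (.e (nat_lit 57870) (nat_lit 264) .nil)))))) (.g (nat_lit 0) .nil .nil))) 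
(.lf (nat_lit 37169) (.g (nat_lit 3155) (.e (nat_lit 1220) (nat_lit 90) (.e (nat_lit 81950) (nat_lit 21) (.e (nat_lit 57873) (nat_lit 264) (.e (nat_lit 1221) (nat_lit 90) (.e (nat_lit 81959) (nat_lit 24) (.e (nat_lit 123191) (nat_lit 264) .nil)))))) (.g (nat_lit 5) .nil .nil))))) (.nd (nat_lit 4) (.nd (nat_lit 5) 
(.lf (nat_lit 37129) (.g (nat_lit 3070) (.e (nat_lit 1220) (nat_lit 90) (.e (nat_lit 81950) (nat_lit 21) (.e (nat_lit 57849) (nat_lit 252) (.e (nat_lit 57388) (nat_lit 5) (.e (nat_lit 122624) (nat_lit 12) (.e (nat_lit 434202) (nat_lit 18) (.e (nat_lit 4598) (nat_lit 269) .nil))))))) (.g (nat_lit 4) .nil .nil))) 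
(.lf (nat_lit 37161) (.g (nat_lit 3704) (.e (nat_lit 1220) (nat_lit 90) (.e (nat_lit 81950) (nat_lit 21) (.e (nat_lit 57873) (nat_lit 264) (.e (nat_lit 1220) (nat_lit 90) (.e (nat_lit 81950) (nat_lit 21) (.e (nat_lit 57870) (nat_lit 264) .nil)))))) (.g (nat_lit 5) .nil .nil)))) (.nd (nat_lit 5) 
(.lf (nat_lit 37145) (.g (nat_lit 3867) (.e (nat_lit 1220) (nat_lit 90) (.e (nat_lit 81950) (nat_lit 21) (.e (nat_lit 57872) (nat_lit 264) (.e (nat_lit 1200) (nat_lit 88) (.e (nat_lit 65619) (nat_lit 10) (.e (nat_lit 344097) (nat_lit 18) (.e (nat_lit 5906) (nat_lit 320) .nil))))))) (.g (nat_lit 6) .nil .nil))) 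
(.lf (nat_lit 37177) (.g (nat_lit 2769) (.e (nat_lit 1220) (nat_lit 90) (.e (nat_lit 81953) (nat_lit 22) (.e (nat_lit 98048) (nat_lit 2) (.e (nat_lit 16446) (nat_lit 9) (.e (nat_lit 426098) (nat_lit 1) (.e (nat_lit 164196) (nat_lit 158) .nil)))))) (.g (nat_lit 5) .nil .nil)))))) (.nd (nat_lit 3) (.nd (nat_lit 4) (.nd (nat_lit 5) 
(.lf (nat_lit 37125) (.g (nat_lit 2668) (.e (nat_lit 1220) (nat_lit 90) (.e (nat_lit 81950) (nat_lit 21) (.e (nat_lit 57683) (nat_lit 155) (.e (nat_lit 122916) (nat_lit 14) (.e (nat_lit 352309) (nat_lit 21) (.e (nat_lit 65280) (nat_lit 152) .nil)))))) (.g (nat_lit 5) .nil .nil))) 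
(.lf (nat_lit 37157) (.g (nat_lit 1025) (.e (nat_lit 1220) (nat_lit 90) (.e (nat_lit 81950) (nat_lit 21) (.e (nat_lit 57873) (nat_lit 264) (.e (nat_lit 993) (nat_lit 81) .nil)))) .nil))) (.nd (nat_lit 5) 
(.lf (nat_lit 37141) (.g (nat_lit 2967) (.e (nat_lit 1220) (nat_lit 90) (.e (nat_lit 81950) (nat_lit 21) (.e (nat_lit 57871) (nat_lit 264) (.e (nat_lit 1221) (nat_lit 90) (.e (nat_lit 81950) (nat_lit 21) (.e (nat_lit 57872) (nat_lit 264) .nil)))))) (.g (nat_lit 5) .nil .nil))) 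
(.lf (nat_lit 37173) (.g (nat_lit 986) (.e (nat_lit 1220) (nat_lit 90) (.e (nat_lit 81953) (nat_lit 22) (.e (nat_lit 90116) (nat_lit 0) .nil))) .nil)))) (.nd (nat_lit 4) (.nd (nat_lit 5) 
(.lf (nat_lit 37133) (.g (nat_lit 3514) (.e (nat_lit 1220) (nat_lit 90) (.e (nat_lit 81950) (nat_lit 21) (.e (nat_lit 57870) (nat_lit 264) (.e (nat_lit 1220) (nat_lit 90) (.e (nat_lit 81950) (nat_lit 21) (.e (nat_lit 57870) (nat_lit 264) .nil)))))) (.g (nat_lit 0) .nil .nil))) 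
(.lf (nat_lit 37165) (.g (nat_lit 2020) (.e (nat_lit 1220) (nat_lit 90) (.e (nat_lit 81950) (nat_lit 21) (.e (nat_lit 57873) (nat_lit 264) (.e (nat_lit 1221) (nat_lit 90) (.e (nat_lit 81938) (nat_lit 20) (.e (nat_lit 1003) (nat_lit 81) (.e (nat_lit 5904) (nat_lit 320) .nil))))))) (.g (nat_lit 4) .nil .nil)))) (.nd (nat_lit 5) 
(.lf (nat_lit 37149) (.g (nat_lit 1610) (.e (nat_lit 1220) (nat_lit 90) (.e (nat_lit 81950) (nat_lit 21) (.e (nat_lit 57872) (nat_lit 264) (.e (nat_lit 1221) (nat_lit 90) (.e (nat_lit 81938) (nat_lit 20) .nil))))) .nil)) 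
(.lf (nat_lit 37181) (.g (nat_lit 1432) (.e (nat_lit 1220) (nat_lit 90) (.e (nat_lit 81953) (nat_lit 22) (.e (nat_lit 90133) (nat_lit 9) (.e (nat_lit 3105) (nat_lit 192) .nil)))) .nil)))))) (.nd (nat_lit 2) (.nd (nat_lit 3) (.nd (nat_lit 4) (.nd (nat_lit 5) 
(.lf (nat_lit 37123) (.g (nat_lit 2213) (.e (nat_lit 1220) (nat_lit 90) (.e (nat_lit 81950) (nat_lit 21) (.e (nat_lit 57681) (nat_lit 155) (.e (nat_lit 122919) (nat_lit 15) (.e (nat_lit 368384) (nat_lit 0) (.e (nat_lit 7232) (nat_lit 382) .nil)))))) (.g (nat_lit 4) .nil .nil))) 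
(.lf (nat_lit 37155) (.g (nat_lit 2072) (.e (nat_lit 1220) (nat_lit 90) (.e (nat_lit 81950) (nat_lit 21) (.e (nat_lit 57872) (nat_lit 264) (.e (nat_lit 1221) (nat_lit 90) (.e (nat_lit 81959) (nat_lit 24) (.e (nat_lit 130816) (nat_lit 264) .nil)))))) (.g (nat_lit 5) .nil .nil)))) (.nd (nat_lit 5) 
(.lf (nat_lit 37139) (.g (nat_lit 376) (.e (nat_lit 1220) (nat_lit 90) (.e (nat_lit 81950) (nat_lit 21) (.e (nat_lit 57871) (nat_lit 264) .nil))) .nil)) 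
(.lf (nat_lit 37171) (.g (nat_lit 473) (.e (nat_lit 1220) (nat_lit 90) (.e (nat_lit 81951) (nat_lit 22) (.e (nat_lit 90165) (nat_lit 12) .nil))) .nil)))) (.nd (nat_lit 4) (.nd (nat_lit 5) 
(.lf (nat_lit 37131) (.g (nat_lit 2818) (.e (nat_lit 1220) (nat_lit 90) (.e (nat_lit 81950) (nat_lit 21) (.e (nat_lit 57857) (nat_lit 254) (.e (nat_lit 163920) (nat_lit 14) (.e (nat_lit 442430) (nat_lit 24) (.e (nat_lit 229632) (nat_lit 226) .nil)))))) (.g (nat_lit 5) .nil .nil))) 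
(.lf (nat_lit 37163) (.g (nat_lit 3354) (.e (nat_lit 1220) (nat_lit 90) (.e (nat_lit 81950) (nat_lit 21) (.e (nat_lit 57873) (nat_lit 264) (.e (nat_lit 1220) (nat_lit 90) (.e (nat_lit 81950) (nat_lit 21) (.e (nat_lit 57872) (nat_lit 264) .nil)))))) (.g (nat_lit 5) .nil .nil)))) (.nd (nat_lit 5) 
(.lf (nat_lit 37147) (.g (nat_lit 3243) (.e (nat_lit 1220) (nat_lit 90) (.e (nat_lit 81950) (nat_lit 21) (.e (nat_lit 57872) (nat_lit 264) (.e (nat_lit 1220) (nat_lit 90) (.e (nat_lit 81950) (nat_lit 21) (.e (nat_lit 57871) (nat_lit 264) .nil)))))) (.g (nat_lit 5) .nil .nil))) 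
(.lf (nat_lit 37179) (.g (nat_lit 1162) (.e (nat_lit 1220) (nat_lit 90) (.e (nat_lit 81953) (nat_lit 22) (.e (nat_lit 90125) (nat_lit 9) .nil))) .nil))))) (.nd (nat_lit 3) (.nd (nat_lit 4) (.nd (nat_lit 5) 
(.lf (nat_lit 37127) (.g (nat_lit 628) (.e (nat_lit 1220) (nat_lit 90) (.e (nat_lit 81950) (nat_lit 21) (.e (nat_lit 57848) (nat_lit 252) .nil))) .nil)) 
(.lf (nat_lit 37159) (.g (nat_lit 3868) (.e (nat_lit 1220) (nat_lit 90) (.e (nat_lit 81950) (nat_lit 21) (.e (nat_lit 57873) (nat_lit 264) (.e (nat_lit 1199) (nat_lit 88) (.e (nat_lit 65610) (nat_lit 10) (.e (nat_lit 344097) (nat_lit 18) (.e (nat_lit 5906) (nat_lit 320) .nil))))))) (.g (nat_lit 7) .nil .nil)))) (.nd (nat_lit 5) 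
(.lf (nat_lit 37143) (.g (nat_lit 2229) (.e (nat_lit 1220) (nat_lit 90) (.e (nat_lit 81950) (nat_lit 21) (.e (nat_lit 57871) (nat_lit 264) (.e (nat_lit 1221) (nat_lit 90) (.e (nat_lit 81959) (nat_lit 24) (.e (nat_lit 123191) (nat_lit 264) .nil)))))) (.g (nat_lit 4) .nil .nil))) 
(.lf (nat_lit 37175) (.g (nat_lit 778) (.e (nat_lit 1220) (nat_lit 90) (.e (nat_lit 81953) (nat_lit 22) (.e (nat_lit 90119) (nat_lit 0) .nil))) .nil)))) (.nd (nat_lit 4) (.nd (nat_lit 5) 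
(.lf (nat_lit 37135) (.g (nat_lit 2072) (.e (nat_lit 1220) (nat_lit 90) (.e (nat_lit 81950) (nat_lit 21) (.e (nat_lit 57870) (nat_lit 264) (.e (nat_lit 1221) (nat_lit 90) (.e (nat_lit 81948) (nat_lit 21) (.e (nat_lit 57871) (nat_lit 264) .nil)))))) (.g (nat_lit 4) .nil .nil))) 
(.lf (nat_lit 37167) (.g (nat_lit 3421) (.e (nat_lit 1220) (nat_lit 90) (.e (nat_lit 81950) (nat_lit 21) (.e (nat_lit 57873) (nat_lit 264) (.e (nat_lit 1221) (nat_lit 90) (.e (nat_lit 81948) (nat_lit 21) (.e (nat_lit 57873) (nat_lit 264) .nil)))))) (.g (nat_lit 6) .nil .nil)))) (.nd (nat_lit 5) 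
(.lf (nat_lit 37151) (.g (nat_lit 3294) (.e (nat_lit 1220) (nat_lit 90) (.e (nat_lit 81950) (nat_lit 21) (.e (nat_lit 57872) (nat_lit 264) (.e (nat_lit 1221) (nat_lit 90) (.e (nat_lit 81948) (nat_lit 21) (.e (nat_lit 57873) (nat_lit 264) .nil)))))) (.g (nat_lit 5) .nil .nil))) 
(.lf (nat_lit 37183) (.g (nat_lit 4220) (.e (nat_lit 1220) (nat_lit 90) (.e (nat_lit 81953) (nat_lit 22) (.e (nat_lit 90134) (nat_lit 9) (.e (nat_lit 3098) (nat_lit 192) (.e (nat_lit 491566) (nat_lit 12) (.e (nat_lit 385043) (nat_lit 21) (.e (nat_lit 4194) (nat_lit 251) .nil))))))) (.g (nat_lit 5) .nil .nil)))))))))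

noncomputable def tv519 : DT := (.nd (nat_lit 0) (.nd (nat_lit 1) (.nd (nat_lit 2) (.nd (nat_lit 3) (.nd (nat_lit 4) (.nd (nat_lit 5) 
(.lf (nat_lit 37184) (.g (nat_lit 3181) (.e (nat_lit 1220) (nat_lit 90) (.e (nat_lit 81953) (nat_lit 22) (.e (nat_lit 90134) (nat_lit 9) (.e (nat_lit 3098) (nat_lit 192) (.e (nat_lit 491566) (nat_lit 12) (.e (nat_lit 385043) (nat_lit 21) (.e (nat_lit 4195) (nat_lit 251) .nil))))))) (.g (nat_lit 4) .nil .nil))) 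
(.lf (nat_lit 37216) (.g (nat_lit 2560) (.e (nat_lit 1220) (nat_lit 90) (.e (nat_lit 81953) (nat_lit 22) (.e (nat_lit 98048) (nat_lit 18) (.e (nat_lit 1348) (nat_lit 102) (.e (nat_lit 286759) (nat_lit 12) (.e (nat_lit 385047) (nat_lit 21) (.e (nat_lit 4168) (nat_lit 251) .nil))))))) (.g (nat_lit 5) .nil .nil)))) (.nd (nat_lit 5) 
(.lf (nat_lit 37200) (.g (nat_lit 5032) (.e (nat_lit 1220) (nat_lit 90) (.e (nat_lit 81953) (nat_lit 22) (.e (nat_lit 90134) (nat_lit 9) (.e (nat_lit 3098) (nat_lit 192) (.e (nat_lit 491566) (nat_lit 12) (.e (nat_lit 385050) (nat_lit 21) (.e (nat_lit 4214) (nat_lit 251) .nil))))))) (.g (nat_lit 5) .nil .nil))) 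
(.lf (nat_lit 37232) (.g (nat_lit 4824) (.e (nat_lit 1220) (nat_lit 90) (.e (nat_lit 81956) (nat_lit 23) (.e (nat_lit 98313) (nat_lit 9) (.e (nat_lit 335995) (nat_lit 1) (.e (nat_lit 57847) (nat_lit 252) (.e (nat_lit 57363) (nat_lit 1) (.e (nat_lit 57755) (nat_lit 209) .nil))))))) (.g (nat_lit 5) .nil .nil))))) (.nd (nat_lit 4) (.nd (nat_lit 5) 
(.lf (nat_lit 37192) (.g (nat_lit 3111) (.e (nat_lit 1220) (nat_lit 90) (.e (nat_lit 81953) (nat_lit 22) (.e (nat_lit 90134) (nat_lit 9) (.e (nat_lit 3098) (nat_lit 192) (.e (nat_lit 491566) (nat_lit 12) (.e (nat_lit 385044) (nat_lit 21) (.e (nat_lit 4212) (nat_lit 251) .nil))))))) (.g (nat_lit 4) .nil .nil))) 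
(.lf (nat_lit 37224) (.g (nat_lit 4352) (.e (nat_lit 1220) (nat_lit 90) (.e (nat_lit 81956) (nat_lit 23) (.e (nat_lit 98313) (nat_lit 9) (.e (nat_lit 335986) (nat_lit 1) (.e (nat_lit 57847) (nat_lit 252) (.e (nat_lit 57363) (nat_lit 1) (.e (nat_lit 57754) (nat_lit 209) .nil))))))) (.g (nat_lit 5) .nil .nil)))) (.nd (nat_lit 5) 
(.lf (nat_lit 37208) (.g (nat_lit 1244) (.e (nat_lit 1220) (nat_lit 90) (.e (nat_lit 81953) (nat_lit 22) (.e (nat_lit 90153) (nat_lit 10) .nil))) .nil)) 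
(.lf (nat_lit 37240) (.g (nat_lit 4008) (.e (nat_lit 1220) (nat_lit 90) (.e (nat_lit 81956) (nat_lit 23) (.e (nat_lit 98313) (nat_lit 9) (.e (nat_lit 335995) (nat_lit 1) (.e (nat_lit 57848) (nat_lit 252) (.e (nat_lit 57363) (nat_lit 1) (.e (nat_lit 57754) (nat_lit 209) .nil))))))) (.g (nat_lit 5) .nil .nil)))))) (.nd (nat_lit 3) (.nd (nat_lit 4) (.nd (nat_lit 5) 
(.lf (nat_lit 37188) (.g (nat_lit 4181) (.e (nat_lit 1220) (nat_lit 90) (.e (nat_lit 81953) (nat_lit 22) (.e (nat_lit 90134) (nat_lit 9) (.e (nat_lit 3098) (nat_lit 192) (.e (nat_lit 491566) (nat_lit 12) (.e (nat_lit 385043) (nat_lit 21) (.e (nat_lit 4214) (nat_lit 251) .nil))))))) (.g (nat_lit 5) .nil .nil))) 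
(.lf (nat_lit 37220) (.g (nat_lit 757) (.e (nat_lit 1220) (nat_lit 90) (.e (nat_lit 81956) (nat_lit 23) (.e (nat_lit 98309) (nat_lit 0) .nil))) .nil))) (.nd (nat_lit 5) 
(.lf (nat_lit 37204) (.g (nat_lit 4299) (.e (nat_lit 1220) (nat_lit 90) (.e (nat_lit 81953) (nat_lit 22) (.e (nat_lit 90134) (nat_lit 9) (.e (nat_lit 3098) (nat_lit 192) (.e (nat_lit 491566) (nat_lit 12) (.e (nat_lit 385051) (nat_lit 21) (.e (nat_lit 4216) (nat_lit 251) .nil))))))) (.g (nat_lit 5) .nil .nil))) 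
(.lf (nat_lit 37236) (.g (nat_lit 4213) (.e (nat_lit 1220) (nat_lit 90) (.e (nat_lit 81956) (nat_lit 23) (.e (nat_lit 98313) (nat_lit 9) (.e (nat_lit 335995) (nat_lit 1) (.e (nat_lit 57847) (nat_lit 252) (.e (nat_lit 57367) (nat_lit 1) (.e (nat_lit 57755) (nat_lit 209) .nil))))))) (.g (nat_lit 5) .nil .nil))))) (.nd (nat_lit 4) (.nd (nat_lit 5) 
(.lf (nat_lit 37196) (.g (nat_lit 3051) (.e (nat_lit 1220) (nat_lit 90) (.e (nat_lit 81953) (nat_lit 22) (.e (nat_lit 90134) (nat_lit 9) (.e (nat_lit 3098) (nat_lit 192) (.e (nat_lit 491566) (nat_lit 12) (.e (nat_lit 385046) (nat_lit 21) (.e (nat_lit 4198) (nat_lit 251) .nil))))))) (.g (nat_lit 4) .nil .nil))) 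
(.lf (nat_lit 37228) (.g (nat_lit 3598) (.e (nat_lit 1220) (nat_lit 90) (.e (nat_lit 81956) (nat_lit 23) (.e (nat_lit 98313) (nat_lit 9) (.e (nat_lit 335986) (nat_lit 1) (.e (nat_lit 57847) (nat_lit 252) (.e (nat_lit 57367) (nat_lit 1) (.e (nat_lit 57754) (nat_lit 209) .nil))))))) (.g (nat_lit 4) .nil .nil)))) (.nd (nat_lit 5) 
(.lf (nat_lit 37212) (.g (nat_lit 854) (.e (nat_lit 1220) (nat_lit 90) (.e (nat_lit 81953) (nat_lit 22) (.e (nat_lit 90160) (nat_lit 11) .nil))) .nil)) 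
(.lf (nat_lit 37244) (.g (nat_lit 3739) (.e (nat_lit 1220) (nat_lit 90) (.e (nat_lit 81956) (nat_lit 23) (.e (nat_lit 98313) (nat_lit 9) (.e (nat_lit 335995) (nat_lit 1) (.e (nat_lit 57848) (nat_lit 252) (.e (nat_lit 57367) (nat_lit 1) (.e (nat_lit 65280) (nat_lit 209) .nil))))))) (.g (nat_lit 5) .nil .nil))))))) (.nd (nat_lit 2) (.nd (nat_lit 3) (.nd (nat_lit 4) (.nd (nat_lit 5) 
(.lf (nat_lit 37186) (.g (nat_lit 4053) (.e (nat_lit 1220) (nat_lit 90) (.e (nat_lit 81953) (nat_lit 22) (.e (nat_lit 90134) (nat_lit 9) (.e (nat_lit 3098) (nat_lit 192) (.e (nat_lit 491566) (nat_lit 12) (.e (nat_lit 385043) (nat_lit 21) (.e (nat_lit 4204) (nat_lit 251) .nil))))))) (.g (nat_lit 5) .nil .nil))) 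
(.lf (nat_lit 37218) (.g (nat_lit 697) (.e (nat_lit 1220) (nat_lit 90) (.e (nat_lit 81954) (nat_lit 23) (.e (nat_lit 98313) (nat_lit 9) .nil))) .nil))) (.nd (nat_lit 5) 
(.lf (nat_lit 37202) (.g (nat_lit 4446) (.e (nat_lit 1220) (nat_lit 90) (.e (nat_lit 81953) (nat_lit 22) (.e (nat_lit 90134) (nat_lit 9) (.e (nat_lit 3098) (nat_lit 192) (.e (nat_lit 491566) (nat_lit 12) (.e (nat_lit 385051) (nat_lit 21) (.e (nat_lit 4213) (nat_lit 251) .nil))))))) (.g (nat_lit 5) .nil .nil))) 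
(.lf (nat_lit 37234) (.g (nat_lit 4211) (.e (nat_lit 1220) (nat_lit 90) (.e (nat_lit 81956) (nat_lit 23) (.e (nat_lit 98313) (nat_lit 9) (.e (nat_lit 335995) (nat_lit 1) (.e (nat_lit 57847) (nat_lit 252) (.e (nat_lit 57365) (nat_lit 1) (.e (nat_lit 65280) (nat_lit 209) .nil))))))) (.g (nat_lit 5) .nil .nil))))) (.nd (nat_lit 4) (.nd (nat_lit 5) 
(.lf (nat_lit 37194) (.g (nat_lit 4480) (.e (nat_lit 1220) (nat_lit 90) (.e (nat_lit 81953) (nat_lit 22) (.e (nat_lit 90134) (nat_lit 9) (.e (nat_lit 3098) (nat_lit 192) (.e (nat_lit 491566) (nat_lit 12) (.e (nat_lit 385046) (nat_lit 21) (.e (nat_lit 4168) (nat_lit 251) .nil))))))) (.g (nat_lit 5) .nil .nil))) 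
(.lf (nat_lit 37226) (.g (nat_lit 4720) (.e (nat_lit 1220) (nat_lit 90) (.e (nat_lit 81956) (nat_lit 23) (.e (nat_lit 98313) (nat_lit 9) (.e (nat_lit 335986) (nat_lit 1) (.e (nat_lit 57847) (nat_lit 252) (.e (nat_lit 57365) (nat_lit 1) (.e (nat_lit 57754) (nat_lit 209) .nil))))))) (.g (nat_lit 6) .nil .nil)))) (.nd (nat_lit 5) 
(.lf (nat_lit 37210) (.g (nat_lit 1244) (.e (nat_lit 1220) (nat_lit 90) (.e (nat_lit 81953) (nat_lit 22) (.e (nat_lit 90156) (nat_lit 11) .nil))) .nil)) 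
(.lf (nat_lit 37242) (.g (nat_lit 4410) (.e (nat_lit 1220) (nat_lit 90) (.e (nat_lit 81956) (nat_lit 23) (.e (nat_lit 98313) (nat_lit 9) (.e (nat_lit 335995) (nat_lit 1) (.e (nat_lit 57848) (nat_lit 252) (.e (nat_lit 57365) (nat_lit 1) (.e (nat_lit 57754) (nat_lit 209) .nil))))))) (.g (nat_lit 6) .nil .nil)))))) (.nd (nat_lit 3) (.nd (nat_lit 4) (.nd (nat_lit 5) 
(.lf (nat_lit 37190) (.g (nat_lit 3844) (.e (nat_lit 1220) (nat_lit 90) (.e (nat_lit 81953) (nat_lit 22) (.e (nat_lit 90134) (nat_lit 9) (.e (nat_lit 3098) (nat_lit 192) (.e (nat_lit 491566) (nat_lit 12) (.e (nat_lit 385043) (nat_lit 21) (.e (nat_lit 4217) (nat_lit 251) .nil))))))) (.g (nat_lit 5) .nil .nil))) 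
(.lf (nat_lit 37222) (.g (nat_lit 790) (.e (nat_lit 1220) (nat_lit 90) (.e (nat_lit 81956) (nat_lit 23) (.e (nat_lit 98312) (nat_lit 9) .nil))) .nil))) (.nd (nat_lit 5) 
(.lf (nat_lit 37206) (.g (nat_lit 4589) (.e (nat_lit 1220) (nat_lit 90) (.e (nat_lit 81953) (nat_lit 22) (.e (nat_lit 90134) (nat_lit 9) (.e (nat_lit 3098) (nat_lit 192) (.e (nat_lit 491566) (nat_lit 12) (.e (nat_lit 385053) (nat_lit 21) (.e (nat_lit 4211) (nat_lit 251) .nil))))))) (.g (nat_lit 5) .nil .nil))) 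
(.lf (nat_lit 37238) (.g (nat_lit 4846) (.e (nat_lit 1220) (nat_lit 90) (.e (nat_lit 81956) (nat_lit 23) (.e (nat_lit 98313) (nat_lit 9) (.e (nat_lit 335995) (nat_lit 1) (.e (nat_lit 57847) (nat_lit 252) (.e (nat_lit 57368) (nat_lit 1) (.e (nat_lit 57754) (nat_lit 209) .nil))))))) (.g (nat_lit 6) .nil .nil))))) (.nd (nat_lit 4) (.nd (nat_lit 5) 
(.lf (nat_lit 37198) (.g (nat_lit 5080) (.e (nat_lit 1220) (nat_lit 90) (.e (nat_lit 81953) (nat_lit 22) (.e (nat_lit 90134) (nat_lit 9) (.e (nat_lit 3098) (nat_lit 192) (.e (nat_lit 491566) (nat_lit 12) (.e (nat_lit 385048) (nat_lit 21) (.e (nat_lit 4194) (nat_lit 251) .nil))))))) (.g (nat_lit 5) .nil .nil))) 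
(.lf (nat_lit 37230) (.g (nat_lit 4203) (.e (nat_lit 1220) (nat_lit 90) (.e (nat_lit 81956) (nat_lit 23) (.e (nat_lit 98313) (nat_lit 9) (.e (nat_lit 335986) (nat_lit 1) (.e (nat_lit 57847) (nat_lit 252) (.e (nat_lit 57368) (nat_lit 1) (.e (nat_lit 57754) (nat_lit 209) .nil))))))) (.g (nat_lit 5) .nil .nil)))) (.nd (nat_lit 5) 
(.lf (nat_lit 37214) (.g (nat_lit 2304) (.e (nat_lit 1220) (nat_lit 90) (.e (nat_lit 81953) (nat_lit 22) (.e (nat_lit 90165) (nat_lit 12) (.e (nat_lit 164236) (nat_lit 187) (.e (nat_lit 1515) (nat_lit 108) (.e (nat_lit 336311) (nat_lit 16) (.e (nat_lit 164119) (nat_lit 128) .nil))))))) (.g (nat_lit 4) .nil .nil))) 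
(.lf (nat_lit 37246) (.g (nat_lit 4841) (.e (nat_lit 1220) (nat_lit 90) (.e (nat_lit 81956) (nat_lit 23) (.e (nat_lit 98313) (nat_lit 9) (.e (nat_lit 335995) (nat_lit 1) (.e (nat_lit 57849) (nat_lit 252) (.e (nat_lit 57363) (nat_lit 1) (.e (nat_lit 57755) (nat_lit 209) .nil))))))) (.g (nat_lit 5) .nil .nil)))))))) 
(.nd (nat_lit 1) (.nd (nat_lit 2) (.nd (nat_lit 3) (.nd (nat_lit 4) (.nd (nat_lit 5) 
(.lf (nat_lit 37185) (.g (nat_lit 3112) (.e (nat_lit 1220) (nat_lit 90) (.e (nat_lit 81953) (nat_lit 22) (.e (nat_lit 90134) (nat_lit 9) (.e (nat_lit 3098) (nat_lit 192) (.e (nat_lit 491566) (nat_lit 12) (.e (nat_lit 385043) (nat_lit 21) (.e (nat_lit 4202) (nat_lit 251) .nil))))))) (.g (nat_lit 4) .nil .nil))) 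
(.lf (nat_lit 37217) (.g (nat_lit 2170) (.e (nat_lit 1220) (nat_lit 90) (.e (nat_lit 81953) (nat_lit 22) (.e (nat_lit 98048) (nat_lit 18) (.e (nat_lit 1349) (nat_lit 102) (.e (nat_lit 286759) (nat_lit 12) (.e (nat_lit 385047) (nat_lit 21) (.e (nat_lit 4168) (nat_lit 251) .nil))))))) (.g (nat_lit 5) .nil .nil)))) (.nd (nat_lit 5) 
(.lf (nat_lit 37201) (.g (nat_lit 4230) (.e (nat_lit 1220) (nat_lit 90) (.e (nat_lit 81953) (nat_lit 22) (.e (nat_lit 90134) (nat_lit 9) (.e (nat_lit 3098) (nat_lit 192) (.e (nat_lit 491566) (nat_lit 12) (.e (nat_lit 385051) (nat_lit 21) (.e (nat_lit 4168) (nat_lit 251) .nil))))))) (.g (nat_lit 5) .nil .nil))) 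
(.lf (nat_lit 37233) (.g (nat_lit 5367) (.e (nat_lit 1220) (nat_lit 90) (.e (nat_lit 81956) (nat_lit 23) (.e (nat_lit 98313) (nat_lit 9) (.e (nat_lit 335995) (nat_lit 1) (.e (nat_lit 57847) (nat_lit 252) (.e (nat_lit 57365) (nat_lit 1) (.e (nat_lit 57754) (nat_lit 209) .nil))))))) (.g (nat_lit 6) .nil .nil))))) (.nd (nat_lit 4) (.nd (nat_lit 5) 
(.lf (nat_lit 37193) (.g (nat_lit 4016) (.e (nat_lit 1220) (nat_lit 90) (.e (nat_lit 81953) (nat_lit 22) (.e (nat_lit 90134) (nat_lit 9) (.e (nat_lit 3098) (nat_lit 192) (.e (nat_lit 491566) (nat_lit 12) (.e (nat_lit 385045) (nat_lit 21) (.e (nat_lit 4168) (nat_lit 251) .nil))))))) (.g (nat_lit 5) .nil .nil))) 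
(.lf (nat_lit 37225) (.g (nat_lit 4231) (.e (nat_lit 1220) (nat_lit 90) (.e (nat_lit 81956) (nat_lit 23) (.e (nat_lit 98313) (nat_lit 9) (.e (nat_lit 335986) (nat_lit 1) (.e (nat_lit 57847) (nat_lit 252) (.e (nat_lit 57363) (nat_lit 1) (.e (nat_lit 57755) (nat_lit 209) .nil))))))) (.g (nat_lit 5) .nil .nil)))) (.nd (nat_lit 5) 
(.lf (nat_lit 37209) (.g (nat_lit 1246) (.e (nat_lit 1220) (nat_lit 90) (.e (nat_lit 81953) (nat_lit 22) (.e (nat_lit 90155) (nat_lit 10) .nil))) .nil)) 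
(.lf (nat_lit 37241) (.g (nat_lit 3957) (.e (nat_lit 1220) (nat_lit 90) (.e (nat_lit 81956) (nat_lit 23) (.e (nat_lit 98313) (nat_lit 9) (.e (nat_lit 335995) (nat_lit 1) (.e (nat_lit 57848) (nat_lit 252) (.e (nat_lit 57363) (nat_lit 1) (.e (nat_lit 57755) (nat_lit 209) .nil))))))) (.g (nat_lit 5) .nil .nil)))))) (.nd (nat_lit 3) (.nd (nat_lit 4) (.nd (nat_lit 5) 
(.lf (nat_lit 37189) (.g (nat_lit 3997) (.e (nat_lit 1220) (nat_lit 90) (.e (nat_lit 81953) (nat_lit 22) (.e (nat_lit 90134) (nat_lit 9) (.e (nat_lit 3098) (nat_lit 192) (.e (nat_lit 491566) (nat_lit 12) (.e (nat_lit 385043) (nat_lit 21) (.e (nat_lit 4216) (nat_lit 251) .nil))))))) (.g (nat_lit 5) .nil .nil))) 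
(.lf (nat_lit 37221) (.g (nat_lit 835) (.e (nat_lit 1220) (nat_lit 90) (.e (nat_lit 81956) (nat_lit 23) (.e (nat_lit 98311) (nat_lit 0) .nil))) .nil))) (.nd (nat_lit 5) 
(.lf (nat_lit 37205) (.g (nat_lit 4986) (.e (nat_lit 1220) (nat_lit 90) (.e (nat_lit 81953) (nat_lit 22) (.e (nat_lit 90134) (nat_lit 9) (.e (nat_lit 3098) (nat_lit 192) (.e (nat_lit 491566) (nat_lit 12) (.e (nat_lit 385053) (nat_lit 21) (.e (nat_lit 4189) (nat_lit 251) .nil))))))) (.g (nat_lit 5) .nil .nil))) 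
(.lf (nat_lit 37237) (.g (nat_lit 3341) (.e (nat_lit 1220) (nat_lit 90) (.e (nat_lit 81956) (nat_lit 23) (.e (nat_lit 98313) (nat_lit 9) (.e (nat_lit 335995) (nat_lit 1) (.e (nat_lit 57847) (nat_lit 252) (.e (nat_lit 57367) (nat_lit 1) (.e (nat_lit 65280) (nat_lit 209) .nil))))))) (.g (nat_lit 4) .nil .nil))))) (.nd (nat_lit 4) (.nd (nat_lit 5) 
(.lf (nat_lit 37197) (.g (nat_lit 3011) (.e (nat_lit 1220) (nat_lit 90) (.e (nat_lit 81953) (nat_lit 22) (.e (nat_lit 90134) (nat_lit 9) (.e (nat_lit 3098) (nat_lit 192) (.e (nat_lit 491566) (nat_lit 12) (.e (nat_lit 385046) (nat_lit 21) (.e (nat_lit 4218) (nat_lit 251) .nil))))))) (.g (nat_lit 4) .nil .nil))) 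
(.lf (nat_lit 37229) (.g (nat_lit 3740) (.e (nat_lit 1220) (nat_lit 90) (.e (nat_lit 81956) (nat_lit 23) (.e (nat_lit 98313) (nat_lit 9) (.e (nat_lit 335986) (nat_lit 1) (.e (nat_lit 57847) (nat_lit 252) (.e (nat_lit 57367) (nat_lit 1) (.e (nat_lit 57755) (nat_lit 209) .nil))))))) (.g (nat_lit 5) .nil .nil)))) (.nd (nat_lit 5) 
(.lf (nat_lit 37213) (.g (nat_lit 519) (.e (nat_lit 1220) (nat_lit 90) (.e (nat_lit 81953) (nat_lit 22) (.e (nat_lit 90165) (nat_lit 12) .nil))) .nil)) 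
(.lf (nat_lit 37245) (.g (nat_lit 4892) (.e (nat_lit 1220) (nat_lit 90) (.e (nat_lit 81956) (nat_lit 23) (.e (nat_lit 98313) (nat_lit 9) (.e (nat_lit 335995) (nat_lit 1) (.e (nat_lit 57849) (nat_lit 252) (.e (nat_lit 57363) (nat_lit 1) (.e (nat_lit 57754) (nat_lit 209) .nil))))))) (.g (nat_lit 5) .nil .nil))))))) (.nd (nat_lit 2) (.nd (nat_lit 3) (.nd (nat_lit 4) (.nd (nat_lit 5) 
(.lf (nat_lit 37187) (.g (nat_lit 3897) (.e (nat_lit 1220) (nat_lit 90) (.e (nat_lit 81953) (nat_lit 22) (.e (nat_lit 90134) (nat_lit 9) (.e (nat_lit 3098) (nat_lit 192) (.e (nat_lit 491566) (nat_lit 12) (.e (nat_lit 385043) (nat_lit 21) (.e (nat_lit 4213) (nat_lit 251) .nil))))))) (.g (nat_lit 5) .nil .nil))) 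
(.lf (nat_lit 37219) (.g (nat_lit 667) (.e (nat_lit 1220) (nat_lit 90) (.e (nat_lit 81954) (nat_lit 23) (.e (nat_lit 98334) (nat_lit 18) .nil))) .nil))) (.nd (nat_lit 5) 
(.lf (nat_lit 37203) (.g (nat_lit 5263) (.e (nat_lit 1220) (nat_lit 90) (.e (nat_lit 81953) (nat_lit 22) (.e (nat_lit 90134) (nat_lit 9) (.e (nat_lit 3098) (nat_lit 192) (.e (nat_lit 491566) (nat_lit 12) (.e (nat_lit 385051) (nat_lit 21) (.e (nat_lit 4214) (nat_lit 251) .nil))))))) (.g (nat_lit 5) .nil .nil))) 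
(.lf (nat_lit 37235) (.g (nat_lit 4071) (.e (nat_lit 1220) (nat_lit 90) (.e (nat_lit 81956) (nat_lit 23) (.e (nat_lit 98313) (nat_lit 9) (.e (nat_lit 335995) (nat_lit 1) (.e (nat_lit 57847) (nat_lit 252) (.e (nat_lit 57367) (nat_lit 1) (.e (nat_lit 57754) (nat_lit 209) .nil))))))) (.g (nat_lit 5) .nil .nil))))) (.nd (nat_lit 4) (.nd (nat_lit 5) 
(.lf (nat_lit 37195) (.g (nat_lit 3042) (.e (nat_lit 1220) (nat_lit 90) (.e (nat_lit 81953) (nat_lit 22) (.e (nat_lit 90134) (nat_lit 9) (.e (nat_lit 3098) (nat_lit 192) (.e (nat_lit 491566) (nat_lit 12) (.e (nat_lit 385046) (nat_lit 21) (.e (nat_lit 4197) (nat_lit 251) .nil))))))) (.g (nat_lit 4) .nil .nil))) 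
(.lf (nat_lit 37227) (.g (nat_lit 3608) (.e (nat_lit 1220) (nat_lit 90) (.e (nat_lit 81956) (nat_lit 23) (.e (nat_lit 98313) (nat_lit 9) (.e (nat_lit 335986) (nat_lit 1) (.e (nat_lit 57847) (nat_lit 252) (.e (nat_lit 57365) (nat_lit 1) (.e (nat_lit 65280) (nat_lit 209) .nil))))))) (.g (nat_lit 5) .nil .nil)))) (.nd (nat_lit 5) 
(.lf (nat_lit 37211) (.g (nat_lit 1244) (.e (nat_lit 1220) (nat_lit 90) (.e (nat_lit 81953) (nat_lit 22) (.e (nat_lit 90159) (nat_lit 11) .nil))) .nil)) 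
(.lf (nat_lit 37243) (.g (nat_lit 4617) (.e (nat_lit 1220) (nat_lit 90) (.e (nat_lit 81956) (nat_lit 23) (.e (nat_lit 98313) (nat_lit 9) (.e (nat_lit 335995) (nat_lit 1) (.e (nat_lit 57848) (nat_lit 252) (.e (nat_lit 57367) (nat_lit 1) (.e (nat_lit 57755) (nat_lit 209) .nil))))))) (.g (nat_lit 7) .nil .nil)))))) (.nd (nat_lit 3) (.nd (nat_lit 4) (.nd (nat_lit 5) 
(.lf (nat_lit 37191) (.g (nat_lit 4454) (.e (nat_lit 1220) (nat_lit 90) (.e (nat_lit 81953) (nat_lit 22) (.e (nat_lit 90134) (nat_lit 9) (.e (nat_lit 3098) (nat_lit 192) (.e (nat_lit 491566) (nat_lit 12) (.e (nat_lit 385043) (nat_lit 21) (.e (nat_lit 4255) (nat_lit 251) .nil))))))) (.g (nat_lit 5) .nil .nil))) 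
(.lf (nat_lit 37223) (.g (nat_lit 547) (.e (nat_lit 1220) (nat_lit 90) (.e (nat_lit 81956) (nat_lit 23) (.e (nat_lit 98313) (nat_lit 9) .nil))) .nil))) (.nd (nat_lit 5) 
(.lf (nat_lit 37207) (.g (nat_lit 1151) (.e (nat_lit 1220) (nat_lit 90) (.e (nat_lit 81953) (nat_lit 22) (.e (nat_lit 90152) (nat_lit 10) .nil))) .nil)) 
(.lf (nat_lit 37239) (.g (nat_lit 3084) (.e (nat_lit 1220) (nat_lit 90) (.e (nat_lit 81956) (nat_lit 23) (.e (nat_lit 98313) (nat_lit 9) (.e (nat_lit 335995) (nat_lit 1) (.e (nat_lit 57847) (nat_lit 252) (.e (nat_lit 57368) (nat_lit 1) (.e (nat_lit 65280) (nat_lit 209) .nil))))))) (.g (nat_lit 4) .nil .nil))))) (.nd (nat_lit 4) (.nd (nat_lit 5) 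
(.lf (nat_lit 37199) (.g (nat_lit 4824) (.e (nat_lit 1220) (nat_lit 90) (.e (nat_lit 81953) (nat_lit 22) (.e (nat_lit 90134) (nat_lit 9) (.e (nat_lit 3098) (nat_lit 192) (.e (nat_lit 491566) (nat_lit 12) (.e (nat_lit 385048) (nat_lit 21) (.e (nat_lit 4214) (nat_lit 251) .nil))))))) (.g (nat_lit 5) .nil .nil))) 
(.lf (nat_lit 37231) (.g (nat_lit 4939) (.e (nat_lit 1220) (nat_lit 90) (.e (nat_lit 81956) (nat_lit 23) (.e (nat_lit 98313) (nat_lit 9) (.e (nat_lit 335995) (nat_lit 1) (.e (nat_lit 57847) (nat_lit 252) (.e (nat_lit 57363) (nat_lit 1) (.e (nat_lit 57754) (nat_lit 209) .nil))))))) (.g (nat_lit 6) .nil .nil)))) (.nd (nat_lit 5) 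
(.lf (nat_lit 37215) (.g (nat_lit 2187) (.e (nat_lit 1220) (nat_lit 90) (.e (nat_lit 81953) (nat_lit 22) (.e (nat_lit 90165) (nat_lit 12) (.e (nat_lit 164237) (nat_lit 187) (.e (nat_lit 1515) (nat_lit 108) (.e (nat_lit 336311) (nat_lit 16) (.e (nat_lit 164119) (nat_lit 128) .nil))))))) (.g (nat_lit 4) .nil .nil))) 
(.lf (nat_lit 37247) (.g (nat_lit 4640) (.e (nat_lit 1220) (nat_lit 90) (.e (nat_lit 81956) (nat_lit 23) (.e (nat_lit 98313) (nat_lit 9) (.e (nat_lit 335995) (nat_lit 1) (.e (nat_lit 57849) (nat_lit 252) (.e (nat_lit 57365) (nat_lit 1) (.e (nat_lit 57754) (nat_lit 209) .nil))))))) (.g (nat_lit 5) .nil .nil)))))))))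

noncomputable def tv520 : DT := (.nd (nat_lit 0) (.nd (nat_lit 1) (.nd (nat_lit 2) (.nd (nat_lit 3) (.nd (nat_lit 4) (.nd (nat_lit 5) (.nd (nat_lit 6) 
(.lf (nat_lit 37248) (.g (nat_lit 3146) (.e (nat_lit 1220) (nat_lit 90) (.e (nat_lit 81956) (nat_lit 23) (.e (nat_lit 98313) (nat_lit 9) (.e (nat_lit 335995) (nat_lit 1) (.e (nat_lit 57849) (nat_lit 252) (.e (nat_lit 57365) (nat_lit 1) (.e (nat_lit 65280) (nat_lit 209) .nil))))))) (.g (nat_lit 4) .nil .nil))) 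
(.lf (nat_lit 37312) (.g (nat_lit 2542) (.e (nat_lit 1220) (nat_lit 90) (.e (nat_lit 81956) (nat_lit 23) (.e (nat_lit 98350) (nat_lit 24) (.e (nat_lit 409648) (nat_lit 18) (.e (nat_lit 303108) (nat_lit 0) (.e (nat_lit 2422) (nat_lit 157) (.e (nat_lit 3875) (nat_lit 233) .nil))))))) (.g (nat_lit 4) .nil .nil)))) (.nd (nat_lit 6) 
(.lf (nat_lit 37280) (.g (nat_lit 4929) (.e (nat_lit 1220) (nat_lit 90) (.e (nat_lit 81956) (nat_lit 23) (.e (nat_lit 98333) (nat_lit 18) (.e (nat_lit 164182) (nat_lit 154) (.e (nat_lit 57411) (nat_lit 12) (.e (nat_lit 336310) (nat_lit 16) (.e (nat_lit 164422) (nat_lit 272) .nil))))))) (.g (nat_lit 4) .nil .nil))) 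
(.lf (nat_lit 37344) (.g (nat_lit 2599) (.e (nat_lit 1220) (nat_lit 90) (.e (nat_lit 81956) (nat_lit 23) (.e (nat_lit 98387) (nat_lit 33) (.e (nat_lit 491566) (nat_lit 12) (.e (nat_lit 385043) (nat_lit 21) .nil))))) .nil)))) (.nd (nat_lit 5) (.nd (nat_lit 6) 
(.lf (nat_lit 37264) (.g (nat_lit 2980) (.e (nat_lit 1220) (nat_lit 90) (.e (nat_lit 81956) (nat_lit 23) (.e (nat_lit 106240) (nat_lit 16) (.e (nat_lit 401454) (nat_lit 12) (.e (nat_lit 475163) (nat_lit 21) (.e (nat_lit 4602) (nat_lit 269) .nil)))))) (.g (nat_lit 4) .nil .nil))) 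
(.lf (nat_lit 37328) (.g (nat_lit 2547) (.e (nat_lit 1220) (nat_lit 90) (.e (nat_lit 81956) (nat_lit 23) (.e (nat_lit 98350) (nat_lit 24) (.e (nat_lit 409649) (nat_lit 18) (.e (nat_lit 303120) (nat_lit 4) (.e (nat_lit 237312) (nat_lit 140) .nil)))))) (.g (nat_lit 4) .nil .nil)))) (.nd (nat_lit 6) 
(.lf (nat_lit 37296) (.g (nat_lit 2744) (.e (nat_lit 1220) (nat_lit 90) (.e (nat_lit 81956) (nat_lit 23) (.e (nat_lit 98350) (nat_lit 24) (.e (nat_lit 409616) (nat_lit 10) (.e (nat_lit 4979) (nat_lit 287) (.e (nat_lit 2544) (nat_lit 158) (.e (nat_lit 8379) (nat_lit 102) .nil))))))) (.g (nat_lit 4) .nil .nil))) 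
(.lf (nat_lit 37360) (.g (nat_lit 3238) (.e (nat_lit 1220) (nat_lit 90) (.e (nat_lit 81956) (nat_lit 23) (.e (nat_lit 98389) (nat_lit 33) (.e (nat_lit 491547) (nat_lit 9) (.e (nat_lit 336314) (nat_lit 16) (.e (nat_lit 164119) (nat_lit 128) .nil)))))) (.g (nat_lit 4) .nil .nil)))))) (.nd (nat_lit 4) (.nd (nat_lit 5) (.nd (nat_lit 6) 
(.lf (nat_lit 37256) (.g (nat_lit 4770) (.e (nat_lit 1220) (nat_lit 90) (.e (nat_lit 81956) (nat_lit 23) (.e (nat_lit 98313) (nat_lit 9) (.e (nat_lit 335996) (nat_lit 1) (.e (nat_lit 57854) (nat_lit 252) (.e (nat_lit 57364) (nat_lit 1) (.e (nat_lit 57754) (nat_lit 209) .nil))))))) (.g (nat_lit 6) .nil .nil))) 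
(.lf (nat_lit 37320) (.g (nat_lit 2887) (.e (nat_lit 1220) (nat_lit 90) (.e (nat_lit 81956) (nat_lit 23) (.e (nat_lit 98350) (nat_lit 24) (.e (nat_lit 409649) (nat_lit 18) (.e (nat_lit 303111) (nat_lit 0) (.e (nat_lit 2423) (nat_lit 157) (.e (nat_lit 3875) (nat_lit 233) .nil))))))) (.g (nat_lit 5) .nil .nil)))) (.nd (nat_lit 6) 
(.lf (nat_lit 37288) (.g (nat_lit 1988) (.e (nat_lit 1220) (nat_lit 90) (.e (nat_lit 81956) (nat_lit 23) (.e (nat_lit 98350) (nat_lit 24) (.e (nat_lit 409616) (nat_lit 10) (.e (nat_lit 4931) (nat_lit 287) .nil))))) .nil)) 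
(.lf (nat_lit 37352) (.g (nat_lit 3340) (.e (nat_lit 1220) (nat_lit 90) (.e (nat_lit 81956) (nat_lit 23) (.e (nat_lit 98387) (nat_lit 33) (.e (nat_lit 491566) (nat_lit 12) (.e (nat_lit 385053) (nat_lit 21) .nil))))) .nil)))) (.nd (nat_lit 5) (.nd (nat_lit 6) 
(.lf (nat_lit 37272) (.g (nat_lit 1170) (.e (nat_lit 1220) (nat_lit 90) (.e (nat_lit 81956) (nat_lit 23) (.e (nat_lit 98320) (nat_lit 17) (.e (nat_lit 7593) (nat_lit 407) .nil)))) .nil)) 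
(.lf (nat_lit 37336) (.g (nat_lit 1813) (.e (nat_lit 1220) (nat_lit 90) (.e (nat_lit 81956) (nat_lit 23) (.e (nat_lit 98367) (nat_lit 27) (.e (nat_lit 434275) (nat_lit 39) .nil)))) .nil))) (.nd (nat_lit 6) 
(.lf (nat_lit 37304) (.g (nat_lit 2638) (.e (nat_lit 1220) (nat_lit 90) (.e (nat_lit 81956) (nat_lit 23) (.e (nat_lit 98350) (nat_lit 24) (.e (nat_lit 409623) (nat_lit 10) (.e (nat_lit 5259) (nat_lit 298) .nil))))) .nil)) 
(.lf (nat_lit 37368) (.g (nat_lit 3856) (.e (nat_lit 1220) (nat_lit 90) (.e (nat_lit 81956) (nat_lit 23) (.e (nat_lit 98389) (nat_lit 33) (.e (nat_lit 491560) (nat_lit 10) (.e (nat_lit 344088) (nat_lit 18) (.e (nat_lit 3923) (nat_lit 239) .nil)))))) (.g (nat_lit 4) .nil .nil))))))) (.nd (nat_lit 3) (.nd (nat_lit 4) (.nd (nat_lit 5) (.nd (nat_lit 6) 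
(.lf (nat_lit 37252) (.g (nat_lit 3700) (.e (nat_lit 1220) (nat_lit 90) (.e (nat_lit 81956) (nat_lit 23) (.e (nat_lit 98313) (nat_lit 9) (.e (nat_lit 335995) (nat_lit 1) (.e (nat_lit 57849) (nat_lit 252) (.e (nat_lit 57368) (nat_lit 1) (.e (nat_lit 57754) (nat_lit 209) .nil))))))) (.g (nat_lit 4) .nil .nil))) 
(.lf (nat_lit 37316) (.g (nat_lit 3963) (.e (nat_lit 1220) (nat_lit 90) (.e (nat_lit 81956) (nat_lit 23) (.e (nat_lit 98350) (nat_lit 24) (.e (nat_lit 409648) (nat_lit 18) (.e (nat_lit 303115) (nat_lit 1) (.e (nat_lit 171776) (nat_lit 140) .nil)))))) (.g (nat_lit 5) .nil .nil)))) (.nd (nat_lit 6) 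
(.lf (nat_lit 37284) (.g (nat_lit 2954) (.e (nat_lit 1220) (nat_lit 90) (.e (nat_lit 81956) (nat_lit 23) (.e (nat_lit 98346) (nat_lit 22) (.e (nat_lit 253961) (nat_lit 9) (.e (nat_lit 1277) (nat_lit 94) (.e (nat_lit 114711) (nat_lit 21) (.e (nat_lit 57870) (nat_lit 264) .nil))))))) (.g (nat_lit 4) .nil .nil))) 
(.lf (nat_lit 37348) (.g (nat_lit 2905) (.e (nat_lit 1220) (nat_lit 90) (.e (nat_lit 81956) (nat_lit 23) (.e (nat_lit 98387) (nat_lit 33) (.e (nat_lit 491566) (nat_lit 12) (.e (nat_lit 385051) (nat_lit 21) .nil))))) .nil)))) (.nd (nat_lit 5) (.nd (nat_lit 6) 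
(.lf (nat_lit 37268) (.g (nat_lit 1271) (.e (nat_lit 1220) (nat_lit 90) (.e (nat_lit 81956) (nat_lit 23) (.e (nat_lit 98320) (nat_lit 17) (.e (nat_lit 7587) (nat_lit 406) .nil)))) .nil)) 
(.lf (nat_lit 37332) (.g (nat_lit 3909) (.e (nat_lit 1220) (nat_lit 90) (.e (nat_lit 81956) (nat_lit 23) (.e (nat_lit 98356) (nat_lit 26) (.e (nat_lit 426448) (nat_lit 20) (.e (nat_lit 114710) (nat_lit 21) (.e (nat_lit 65280) (nat_lit 128) .nil)))))) (.g (nat_lit 4) .nil .nil)))) (.nd (nat_lit 6) 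
(.lf (nat_lit 37300) (.g (nat_lit 1876) (.e (nat_lit 1220) (nat_lit 90) (.e (nat_lit 81956) (nat_lit 23) (.e (nat_lit 98350) (nat_lit 24) (.e (nat_lit 409616) (nat_lit 10) (.e (nat_lit 7936) (nat_lit 299) (.e (nat_lit 8197) (nat_lit 0) (.e (nat_lit 4204) (nat_lit 251) .nil))))))) (.g (nat_lit 4) .nil .nil))) 
(.lf (nat_lit 37364) (.g (nat_lit 3811) (.e (nat_lit 1220) (nat_lit 90) (.e (nat_lit 81956) (nat_lit 23) (.e (nat_lit 98389) (nat_lit 33) (.e (nat_lit 491558) (nat_lit 10) (.e (nat_lit 344088) (nat_lit 18) (.e (nat_lit 3975) (nat_lit 239) .nil)))))) (.g (nat_lit 4) .nil .nil)))))) (.nd (nat_lit 4) (.nd (nat_lit 5) (.nd (nat_lit 6) 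
(.lf (nat_lit 37260) (.g (nat_lit 790) (.e (nat_lit 1220) (nat_lit 90) (.e (nat_lit 81956) (nat_lit 23) (.e (nat_lit 98317) (nat_lit 9) .nil))) .nil)) 
(.lf (nat_lit 37324) (.g (nat_lit 2567) (.e (nat_lit 1220) (nat_lit 90) (.e (nat_lit 81956) (nat_lit 23) (.e (nat_lit 98350) (nat_lit 24) (.e (nat_lit 409649) (nat_lit 18) (.e (nat_lit 303111) (nat_lit 0) (.e (nat_lit 2425) (nat_lit 157) (.e (nat_lit 3834) (nat_lit 233) .nil))))))) (.g (nat_lit 5) .nil .nil)))) (.nd (nat_lit 6) 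
(.lf (nat_lit 37292) (.g (nat_lit 2105) (.e (nat_lit 1220) (nat_lit 90) (.e (nat_lit 81956) (nat_lit 23) (.e (nat_lit 98350) (nat_lit 24) (.e (nat_lit 409616) (nat_lit 10) (.e (nat_lit 4978) (nat_lit 287) (.e (nat_lit 2543) (nat_lit 158) (.e (nat_lit 8379) (nat_lit 102) .nil))))))) (.g (nat_lit 4) .nil .nil))) 
(.lf (nat_lit 37356) (.g (nat_lit 4513) (.e (nat_lit 1220) (nat_lit 90) (.e (nat_lit 81956) (nat_lit 23) (.e (nat_lit 98388) (nat_lit 33) (.e (nat_lit 491566) (nat_lit 12) (.e (nat_lit 385049) (nat_lit 21) (.e (nat_lit 4194) (nat_lit 251) .nil)))))) (.g (nat_lit 4) .nil .nil))))) (.nd (nat_lit 5) (.nd (nat_lit 6) 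
(.lf (nat_lit 37276) (.g (nat_lit 1011) (.e (nat_lit 1220) (nat_lit 90) (.e (nat_lit 81956) (nat_lit 23) (.e (nat_lit 98325) (nat_lit 17) (.e (nat_lit 7936) (nat_lit 407) .nil)))) .nil)) 
(.lf (nat_lit 37340) (.g (nat_lit 3150) (.e (nat_lit 1220) (nat_lit 90) (.e (nat_lit 81956) (nat_lit 23) (.e (nat_lit 98384) (nat_lit 32) (.e (nat_lit 475214) (nat_lit 42) (.e (nat_lit 720931) (nat_lit 21) (.e (nat_lit 65280) (nat_lit 128) .nil)))))) (.g (nat_lit 4) .nil .nil)))) (.nd (nat_lit 6) 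
(.lf (nat_lit 37308) (.g (nat_lit 4167) (.e (nat_lit 1220) (nat_lit 90) (.e (nat_lit 81956) (nat_lit 23) (.e (nat_lit 98350) (nat_lit 24) (.e (nat_lit 409645) (nat_lit 18) (.e (nat_lit 303115) (nat_lit 1) (.e (nat_lit 171776) (nat_lit 140) .nil)))))) (.g (nat_lit 4) .nil .nil))) 
(.lf (nat_lit 37372) (.g (nat_lit 4470) (.e (nat_lit 1220) (nat_lit 90) (.e (nat_lit 81956) (nat_lit 23) (.e (nat_lit 98389) (nat_lit 33) (.e (nat_lit 491560) (nat_lit 10) (.e (nat_lit 344093) (nat_lit 18) (.e (nat_lit 3971) (nat_lit 239) .nil)))))) (.g (nat_lit 4) .nil .nil)))))))) (.nd (nat_lit 2) (.nd (nat_lit 3) (.nd (nat_lit 4) (.nd (nat_lit 5) (.nd (nat_lit 6) 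
(.lf (nat_lit 37250) (.g (nat_lit 4344) (.e (nat_lit 1220) (nat_lit 90) (.e (nat_lit 81956) (nat_lit 23) (.e (nat_lit 98313) (nat_lit 9) (.e (nat_lit 335995) (nat_lit 1) (.e (nat_lit 57849) (nat_lit 252) (.e (nat_lit 57367) (nat_lit 1) (.e (nat_lit 57755) (nat_lit 209) .nil))))))) (.g (nat_lit 4) .nil .nil))) 
(.lf (nat_lit 37314) (.g (nat_lit 2365) (.e (nat_lit 1220) (nat_lit 90) (.e (nat_lit 81956) (nat_lit 23) (.e (nat_lit 98350) (nat_lit 24) (.e (nat_lit 409648) (nat_lit 18) (.e (nat_lit 303108) (nat_lit 0) (.e (nat_lit 2424) (nat_lit 157) (.e (nat_lit 3881) (nat_lit 233) .nil))))))) (.g (nat_lit 4) .nil .nil)))) (.nd (nat_lit 6) 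
(.lf (nat_lit 37282) (.g (nat_lit 4920) (.e (nat_lit 1220) (nat_lit 90) (.e (nat_lit 81956) (nat_lit 23) (.e (nat_lit 98334) (nat_lit 18) (.e (nat_lit 164182) (nat_lit 154) (.e (nat_lit 57411) (nat_lit 12) (.e (nat_lit 335878) (nat_lit 0) (.e (nat_lit 1016) (nat_lit 81) (.e (nat_lit 7454) (nat_lit 396) .nil)))))))) (.g (nat_lit 5) .nil .nil))) 
(.lf (nat_lit 37346) (.g (nat_lit 4310) (.e (nat_lit 1220) (nat_lit 90) (.e (nat_lit 81956) (nat_lit 23) (.e (nat_lit 98387) (nat_lit 33) (.e (nat_lit 491566) (nat_lit 12) (.e (nat_lit 385049) (nat_lit 21) (.e (nat_lit 4194) (nat_lit 251) .nil)))))) (.g (nat_lit 4) .nil .nil))))) (.nd (nat_lit 5) (.nd (nat_lit 6) 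
(.lf (nat_lit 37266) (.g (nat_lit 1182) (.e (nat_lit 1220) (nat_lit 90) (.e (nat_lit 81956) (nat_lit 23) (.e (nat_lit 98319) (nat_lit 17) (.e (nat_lit 7593) (nat_lit 407) .nil)))) .nil)) 
(.lf (nat_lit 37330) (.g (nat_lit 854) (.e (nat_lit 1220) (nat_lit 90) (.e (nat_lit 81956) (nat_lit 23) (.e (nat_lit 98352) (nat_lit 25) .nil))) .nil))) (.nd (nat_lit 6) 
(.lf (nat_lit 37298) (.g (nat_lit 2081) (.e (nat_lit 1220) (nat_lit 90) (.e (nat_lit 81956) (nat_lit 23) (.e (nat_lit 98350) (nat_lit 24) (.e (nat_lit 409616) (nat_lit 10) (.e (nat_lit 7936) (nat_lit 298) (.e (nat_lit 154) (nat_lit 10) (.e (nat_lit 164122) (nat_lit 128) .nil))))))) (.g (nat_lit 4) .nil .nil))) 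
(.lf (nat_lit 37362) (.g (nat_lit 4030) (.e (nat_lit 1220) (nat_lit 90) (.e (nat_lit 81956) (nat_lit 23) (.e (nat_lit 98389) (nat_lit 33) (.e (nat_lit 491556) (nat_lit 9) (.e (nat_lit 336311) (nat_lit 16) (.e (nat_lit 164119) (nat_lit 128) .nil)))))) (.g (nat_lit 4) .nil .nil)))))) (.nd (nat_lit 4) (.nd (nat_lit 5) (.nd (nat_lit 6) 
(.lf (nat_lit 37258) (.g (nat_lit 790) (.e (nat_lit 1220) (nat_lit 90) (.e (nat_lit 81956) (nat_lit 23) (.e (nat_lit 98314) (nat_lit 9) .nil))) .nil)) 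
(.lf (nat_lit 37322) (.g (nat_lit 2809) (.e (nat_lit 1220) (nat_lit 90) (.e (nat_lit 81956) (nat_lit 23) (.e (nat_lit 98350) (nat_lit 24) (.e (nat_lit 409649) (nat_lit 18) (.e (nat_lit 303111) (nat_lit 0) (.e (nat_lit 2424) (nat_lit 157) (.e (nat_lit 3836) (nat_lit 233) .nil))))))) (.g (nat_lit 5) .nil .nil)))) (.nd (nat_lit 6) 
(.lf (nat_lit 37290) (.g (nat_lit 2263) (.e (nat_lit 1220) (nat_lit 90) (.e (nat_lit 81956) (nat_lit 23) (.e (nat_lit 98350) (nat_lit 24) (.e (nat_lit 409616) (nat_lit 10) (.e (nat_lit 4931) (nat_lit 287) (.e (nat_lit 2546) (nat_lit 158) (.e (nat_lit 8379) (nat_lit 102) .nil))))))) (.g (nat_lit 4) .nil .nil))) 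
(.lf (nat_lit 37354) (.g (nat_lit 2818) (.e (nat_lit 1220) (nat_lit 90) (.e (nat_lit 81956) (nat_lit 23) (.e (nat_lit 98388) (nat_lit 33) (.e (nat_lit 491566) (nat_lit 12) (.e (nat_lit 385043) (nat_lit 21) .nil))))) .nil)))) (.nd (nat_lit 5) (.nd (nat_lit 6) 
(.lf (nat_lit 37274) (.g (nat_lit 4859) (.e (nat_lit 1220) (nat_lit 90) (.e (nat_lit 81956) (nat_lit 23) (.e (nat_lit 98320) (nat_lit 17) (.e (nat_lit 7593) (nat_lit 407) (.e (nat_lit 73728) (nat_lit 0) (.e (nat_lit 3975) (nat_lit 239) .nil)))))) (.g (nat_lit 0) .nil .nil))) 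
(.lf (nat_lit 37338) (.g (nat_lit 4940) (.e (nat_lit 1220) (nat_lit 90) (.e (nat_lit 81956) (nat_lit 23) (.e (nat_lit 98384) (nat_lit 32) (.e (nat_lit 475214) (nat_lit 42) (.e (nat_lit 720929) (nat_lit 21) (.e (nat_lit 65280) (nat_lit 128) .nil)))))) (.g (nat_lit 5) .nil .nil)))) (.nd (nat_lit 6) 
(.lf (nat_lit 37306) (.g (nat_lit 2477) (.e (nat_lit 1220) (nat_lit 90) (.e (nat_lit 81956) (nat_lit 23) (.e (nat_lit 98350) (nat_lit 24) (.e (nat_lit 409638) (nat_lit 15) .nil)))) .nil)) 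
(.lf (nat_lit 37370) (.g (nat_lit 3967) (.e (nat_lit 1220) (nat_lit 90) (.e (nat_lit 81956) (nat_lit 23) (.e (nat_lit 98389) (nat_lit 33) (.e (nat_lit 491560) (nat_lit 10) (.e (nat_lit 344089) (nat_lit 18) (.e (nat_lit 3923) (nat_lit 239) .nil)))))) (.g (nat_lit 4) .nil .nil))))))) (.nd (nat_lit 3) (.nd (nat_lit 4) (.nd (nat_lit 5) (.nd (nat_lit 6) 
(.lf (nat_lit 37254) (.g (nat_lit 4080) (.e (nat_lit 1220) (nat_lit 90) (.e (nat_lit 81956) (nat_lit 23) (.e (nat_lit 98313) (nat_lit 9) (.e (nat_lit 335996) (nat_lit 1) (.e (nat_lit 57854) (nat_lit 252) (.e (nat_lit 57363) (nat_lit 1) (.e (nat_lit 57754) (nat_lit 209) .nil))))))) (.g (nat_lit 5) .nil .nil))) 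
(.lf (nat_lit 37318) (.g (nat_lit 895) (.e (nat_lit 1220) (nat_lit 90) (.e (nat_lit 81956) (nat_lit 23) (.e (nat_lit 98350) (nat_lit 24) (.e (nat_lit 409649) (nat_lit 18) .nil)))) .nil))) (.nd (nat_lit 6) 
(.lf (nat_lit 37286) (.g (nat_lit 656) (.e (nat_lit 1220) (nat_lit 90) (.e (nat_lit 81956) (nat_lit 23) (.e (nat_lit 98350) (nat_lit 24) (.e (nat_lit 409616) (nat_lit 10) .nil)))) .nil)) 
(.lf (nat_lit 37350) (.g (nat_lit 3689) (.e (nat_lit 1220) (nat_lit 90) (.e (nat_lit 81956) (nat_lit 23) (.e (nat_lit 98387) (nat_lit 33) (.e (nat_lit 491566) (nat_lit 12) (.e (nat_lit 385051) (nat_lit 21) (.e (nat_lit 4214) (nat_lit 251) .nil)))))) (.g (nat_lit 4) .nil .nil))))) (.nd (nat_lit 5) (.nd (nat_lit 6) 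
(.lf (nat_lit 37270) (.g (nat_lit 4202) (.e (nat_lit 1220) (nat_lit 90) (.e (nat_lit 81956) (nat_lit 23) (.e (nat_lit 98320) (nat_lit 17) (.e (nat_lit 7591) (nat_lit 407) (.e (nat_lit 73728) (nat_lit 0) (.e (nat_lit 3971) (nat_lit 239) .nil)))))) (.g (nat_lit 4) .nil .nil))) 
(.lf (nat_lit 37334) (.g (nat_lit 1250) (.e (nat_lit 1220) (nat_lit 90) (.e (nat_lit 81956) (nat_lit 23) (.e (nat_lit 98357) (nat_lit 26) (.e (nat_lit 426448) (nat_lit 20) .nil)))) .nil))) (.nd (nat_lit 6) 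
(.lf (nat_lit 37302) (.g (nat_lit 2445) (.e (nat_lit 1220) (nat_lit 90) (.e (nat_lit 81956) (nat_lit 23) (.e (nat_lit 98350) (nat_lit 24) (.e (nat_lit 409617) (nat_lit 10) (.e (nat_lit 4934) (nat_lit 287) (.e (nat_lit 2544) (nat_lit 158) (.e (nat_lit 8379) (nat_lit 102) .nil))))))) (.g (nat_lit 4) .nil .nil))) 
(.lf (nat_lit 37366) (.g (nat_lit 4839) (.e (nat_lit 1220) (nat_lit 90) (.e (nat_lit 81956) (nat_lit 23) (.e (nat_lit 98389) (nat_lit 33) (.e (nat_lit 491560) (nat_lit 10) (.e (nat_lit 344087) (nat_lit 18) (.e (nat_lit 3975) (nat_lit 239) .nil)))))) (.g (nat_lit 0) .nil .nil)))))) (.nd (nat_lit 4) (.nd (nat_lit 5) (.nd (nat_lit 6) 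
(.lf (nat_lit 37262) (.g (nat_lit 3508) (.e (nat_lit 1220) (nat_lit 90) (.e (nat_lit 81956) (nat_lit 23) (.e (nat_lit 106240) (nat_lit 16) (.e (nat_lit 401454) (nat_lit 12) (.e (nat_lit 475155) (nat_lit 21) (.e (nat_lit 4561) (nat_lit 269) .nil)))))) (.g (nat_lit 4) .nil .nil))) 
(.lf (nat_lit 37326) (.g (nat_lit 3693) (.e (nat_lit 1220) (nat_lit 90) (.e (nat_lit 81956) (nat_lit 23) (.e (nat_lit 98350) (nat_lit 24) (.e (nat_lit 409649) (nat_lit 18) (.e (nat_lit 303114) (nat_lit 1) (.e (nat_lit 171776) (nat_lit 140) .nil)))))) (.g (nat_lit 5) .nil .nil)))) (.nd (nat_lit 6) 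
(.lf (nat_lit 37294) (.g (nat_lit 2802) (.e (nat_lit 1220) (nat_lit 90) (.e (nat_lit 81956) (nat_lit 23) (.e (nat_lit 98350) (nat_lit 24) (.e (nat_lit 409616) (nat_lit 10) (.e (nat_lit 4979) (nat_lit 287) (.e (nat_lit 2540) (nat_lit 158) (.e (nat_lit 8379) (nat_lit 102) .nil))))))) (.g (nat_lit 4) .nil .nil))) 
(.lf (nat_lit 37358) (.g (nat_lit 371) (.e (nat_lit 1220) (nat_lit 90) (.e (nat_lit 81956) (nat_lit 23) (.e (nat_lit 98389) (nat_lit 33) .nil))) .nil)))) (.nd (nat_lit 5) (.nd (nat_lit 6) 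
(.lf (nat_lit 37278) (.g (nat_lit 661) (.e (nat_lit 1220) (nat_lit 90) (.e (nat_lit 81956) (nat_lit 23) (.e (nat_lit 98333) (nat_lit 18) .nil))) .nil)) 
(.lf (nat_lit 37342) (.g (nat_lit 3514) (.e (nat_lit 1220) (nat_lit 90) (.e (nat_lit 81956) (nat_lit 23) (.e (nat_lit 98384) (nat_lit 32) (.e (nat_lit 475214) (nat_lit 42) (.e (nat_lit 720958) (nat_lit 26) .nil))))) .nil))) (.nd (nat_lit 6) 
(.lf (nat_lit 37310) (.g (nat_lit 3588) (.e (nat_lit 1220) (nat_lit 90) (.e (nat_lit 81956) (nat_lit 23) (.e (nat_lit 98350) (nat_lit 24) (.e (nat_lit 409646) (nat_lit 18) (.e (nat_lit 303115) (nat_lit 1) (.e (nat_lit 171776) (nat_lit 140) .nil)))))) (.g (nat_lit 4) .nil .nil))) 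
(.lf (nat_lit 37374) (.g (nat_lit 3138) (.e (nat_lit 1220) (nat_lit 90) (.e (nat_lit 81956) (nat_lit 23) (.e (nat_lit 98389) (nat_lit 33) (.e (nat_lit 491560) (nat_lit 10) (.e (nat_lit 344103) (nat_lit 18) (.e (nat_lit 7936) (nat_lit 239) .nil)))))) (.g (nat_lit 4) .nil .nil))))))))) (.nd (nat_lit 1) (.nd (nat_lit 2) (.nd (nat_lit 3) (.nd (nat_lit 4) (.nd (nat_lit 5) (.nd (nat_lit 6) 
(.lf (nat_lit 37249) (.g (nat_lit 4202) (.e (nat_lit 1220) (nat_lit 90) (.e (nat_lit 81956) (nat_lit 23) (.e (nat_lit 98313) (nat_lit 9) (.e (nat_lit 335995) (nat_lit 1) (.e (nat_lit 57849) (nat_lit 252) (.e (nat_lit 57367) (nat_lit 1) (.e (nat_lit 57754) (nat_lit 209) .nil))))))) (.g (nat_lit 4) .nil .nil))) 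
(.lf (nat_lit 37313) (.g (nat_lit 2306) (.e (nat_lit 1220) (nat_lit 90) (.e (nat_lit 81956) (nat_lit 23) (.e (nat_lit 98350) (nat_lit 24) (.e (nat_lit 409648) (nat_lit 18) (.e (nat_lit 303108) (nat_lit 0) (.e (nat_lit 2424) (nat_lit 157) (.e (nat_lit 3875) (nat_lit 233) .nil))))))) (.g (nat_lit 4) .nil .nil)))) (.nd (nat_lit 6) 
(.lf (nat_lit 37281) (.g (nat_lit 5119) (.e (nat_lit 1220) (nat_lit 90) (.e (nat_lit 81956) (nat_lit 23) (.e (nat_lit 98333) (nat_lit 18) (.e (nat_lit 164183) (nat_lit 154) (.e (nat_lit 57411) (nat_lit 12) (.e (nat_lit 335878) (nat_lit 0) (.e (nat_lit 1016) (nat_lit 81) (.e (nat_lit 7454) (nat_lit 396) .nil)))))))) (.g (nat_lit 5) .nil .nil))) 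
(.lf (nat_lit 37345) (.g (nat_lit 3356) (.e (nat_lit 1220) (nat_lit 90) (.e (nat_lit 81956) (nat_lit 23) (.e (nat_lit 98387) (nat_lit 33) (.e (nat_lit 491566) (nat_lit 12) (.e (nat_lit 385048) (nat_lit 21) .nil))))) .nil)))) (.nd (nat_lit 5) (.nd (nat_lit 6) 
(.lf (nat_lit 37265) (.g (nat_lit 1200) (.e (nat_lit 1220) (nat_lit 90) (.e (nat_lit 81956) (nat_lit 23) (.e (nat_lit 98319) (nat_lit 17) (.e (nat_lit 7591) (nat_lit 407) .nil)))) .nil)) 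
(.lf (nat_lit 37329) (.g (nat_lit 2555) (.e (nat_lit 1220) (nat_lit 90) (.e (nat_lit 81956) (nat_lit 23) (.e (nat_lit 98350) (nat_lit 24) (.e (nat_lit 409649) (nat_lit 18) (.e (nat_lit 303149) (nat_lit 15) (.e (nat_lit 1077) (nat_lit 81) (.e (nat_lit 4211) (nat_lit 251) .nil))))))) (.g (nat_lit 4) .nil .nil)))) (.nd (nat_lit 6) 
(.lf (nat_lit 37297) (.g (nat_lit 1987) (.e (nat_lit 1220) (nat_lit 90) (.e (nat_lit 81956) (nat_lit 23) (.e (nat_lit 98350) (nat_lit 24) (.e (nat_lit 409616) (nat_lit 10) (.e (nat_lit 4981) (nat_lit 287) .nil))))) .nil)) 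
(.lf (nat_lit 37361) (.g (nat_lit 942) (.e (nat_lit 1220) (nat_lit 90) (.e (nat_lit 81956) (nat_lit 23) (.e (nat_lit 98389) (nat_lit 33) (.e (nat_lit 491556) (nat_lit 9) .nil)))) .nil))))) (.nd (nat_lit 4) (.nd (nat_lit 5) (.nd (nat_lit 6) 
(.lf (nat_lit 37257) (.g (nat_lit 3553) (.e (nat_lit 1220) (nat_lit 90) (.e (nat_lit 81956) (nat_lit 23) (.e (nat_lit 98313) (nat_lit 9) (.e (nat_lit 335996) (nat_lit 1) (.e (nat_lit 57854) (nat_lit 252) (.e (nat_lit 57366) (nat_lit 1) (.e (nat_lit 57755) (nat_lit 209) .nil))))))) (.g (nat_lit 4) .nil .nil))) 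
(.lf (nat_lit 37321) (.g (nat_lit 2920) (.e (nat_lit 1220) (nat_lit 90) (.e (nat_lit 81956) (nat_lit 23) (.e (nat_lit 98350) (nat_lit 24) (.e (nat_lit 409649) (nat_lit 18) (.e (nat_lit 303111) (nat_lit 0) (.e (nat_lit 2423) (nat_lit 157) (.e (nat_lit 3881) (nat_lit 233) .nil))))))) (.g (nat_lit 5) .nil .nil)))) (.nd (nat_lit 6) 
(.lf (nat_lit 37289) (.g (nat_lit 2097) (.e (nat_lit 1220) (nat_lit 90) (.e (nat_lit 81956) (nat_lit 23) (.e (nat_lit 98350) (nat_lit 24) (.e (nat_lit 409616) (nat_lit 10) (.e (nat_lit 4931) (nat_lit 287) (.e (nat_lit 2545) (nat_lit 158) (.e (nat_lit 8379) (nat_lit 102) .nil))))))) (.g (nat_lit 4) .nil .nil))) 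
(.lf (nat_lit 37353) (.g (nat_lit 2577) (.e (nat_lit 1220) (nat_lit 90) (.e (nat_lit 81956) (nat_lit 23) (.e (nat_lit 98388) (nat_lit 33) (.e (nat_lit 491560) (nat_lit 10) (.e (nat_lit 344089) (nat_lit 18) .nil))))) .nil)))) (.nd (nat_lit 5) (.nd (nat_lit 6) 
(.lf (nat_lit 37273) (.g (nat_lit 4378) (.e (nat_lit 1220) (nat_lit 90) (.e (nat_lit 81956) (nat_lit 23) (.e (nat_lit 98320) (nat_lit 17) (.e (nat_lit 7593) (nat_lit 407) (.e (nat_lit 73728) (nat_lit 0) (.e (nat_lit 3971) (nat_lit 239) .nil)))))) (.g (nat_lit 4) .nil .nil))) 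
(.lf (nat_lit 37337) (.g (nat_lit 1653) (.e (nat_lit 1220) (nat_lit 90) (.e (nat_lit 81956) (nat_lit 23) (.e (nat_lit 98384) (nat_lit 32) (.e (nat_lit 475212) (nat_lit 42) .nil)))) .nil))) (.nd (nat_lit 6) 
(.lf (nat_lit 37305) (.g (nat_lit 2150) (.e (nat_lit 1220) (nat_lit 90) (.e (nat_lit 81956) (nat_lit 23) (.e (nat_lit 98350) (nat_lit 24) (.e (nat_lit 417536) (nat_lit 10) .nil)))) .nil)) 
(.lf (nat_lit 37369) (.g (nat_lit 4001) (.e (nat_lit 1220) (nat_lit 90) (.e (nat_lit 81956) (nat_lit 23) (.e (nat_lit 98389) (nat_lit 33) (.e (nat_lit 491560) (nat_lit 10) (.e (nat_lit 344089) (nat_lit 18) (.e (nat_lit 3920) (nat_lit 239) .nil)))))) (.g (nat_lit 4) .nil .nil))))))) (.nd (nat_lit 3) (.nd (nat_lit 4) (.nd (nat_lit 5) (.nd (nat_lit 6) 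
(.lf (nat_lit 37253) (.g (nat_lit 4049) (.e (nat_lit 1220) (nat_lit 90) (.e (nat_lit 81956) (nat_lit 23) (.e (nat_lit 98313) (nat_lit 9) (.e (nat_lit 335996) (nat_lit 1) (.e (nat_lit 57851) (nat_lit 252) (.e (nat_lit 57364) (nat_lit 1) (.e (nat_lit 57754) (nat_lit 209) .nil))))))) (.g (nat_lit 5) .nil .nil))) 
(.lf (nat_lit 37317) (.g (nat_lit 2754) (.e (nat_lit 1220) (nat_lit 90) (.e (nat_lit 81956) (nat_lit 23) (.e (nat_lit 98350) (nat_lit 24) (.e (nat_lit 409648) (nat_lit 18) (.e (nat_lit 303120) (nat_lit 4) (.e (nat_lit 237312) (nat_lit 140) .nil)))))) (.g (nat_lit 4) .nil .nil)))) (.nd (nat_lit 6) 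
(.lf (nat_lit 37285) (.g (nat_lit 220) (.e (nat_lit 1220) (nat_lit 90) (.e (nat_lit 81956) (nat_lit 23) (.e (nat_lit 98350) (nat_lit 24) .nil))) .nil)) 
(.lf (nat_lit 37349) (.g (nat_lit 3074) (.e (nat_lit 1220) (nat_lit 90) (.e (nat_lit 81956) (nat_lit 23) (.e (nat_lit 98387) (nat_lit 33) (.e (nat_lit 491566) (nat_lit 12) (.e (nat_lit 385051) (nat_lit 21) (.e (nat_lit 4213) (nat_lit 251) .nil)))))) (.g (nat_lit 4) .nil .nil))))) (.nd (nat_lit 5) (.nd (nat_lit 6) 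
(.lf (nat_lit 37269) (.g (nat_lit 1159) (.e (nat_lit 1220) (nat_lit 90) (.e (nat_lit 81956) (nat_lit 23) (.e (nat_lit 98320) (nat_lit 17) (.e (nat_lit 7591) (nat_lit 407) .nil)))) .nil)) 
(.lf (nat_lit 37333) (.g (nat_lit 4235) (.e (nat_lit 1220) (nat_lit 90) (.e (nat_lit 81956) (nat_lit 23) (.e (nat_lit 98356) (nat_lit 26) (.e (nat_lit 426448) (nat_lit 20) (.e (nat_lit 114711) (nat_lit 21) (.e (nat_lit 65280) (nat_lit 128) .nil)))))) (.g (nat_lit 4) .nil .nil)))) (.nd (nat_lit 6) 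
(.lf (nat_lit 37301) (.g (nat_lit 1817) (.e (nat_lit 1220) (nat_lit 90) (.e (nat_lit 81956) (nat_lit 23) (.e (nat_lit 98350) (nat_lit 24) (.e (nat_lit 409616) (nat_lit 10) (.e (nat_lit 7936) (nat_lit 318) (.e (nat_lit 229376) (nat_lit 0) (.e (nat_lit 3877) (nat_lit 233) .nil))))))) (.g (nat_lit 4) .nil .nil))) 
(.lf (nat_lit 37365) (.g (nat_lit 3515) (.e (nat_lit 1220) (nat_lit 90) (.e (nat_lit 81956) (nat_lit 23) (.e (nat_lit 98389) (nat_lit 33) (.e (nat_lit 491558) (nat_lit 10) (.e (nat_lit 344089) (nat_lit 18) (.e (nat_lit 3975) (nat_lit 239) .nil)))))) (.g (nat_lit 4) .nil .nil)))))) (.nd (nat_lit 4) (.nd (nat_lit 5) (.nd (nat_lit 6) 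
(.lf (nat_lit 37261) (.g (nat_lit 542) (.e (nat_lit 1220) (nat_lit 90) (.e (nat_lit 81956) (nat_lit 23) (.e (nat_lit 106240) (nat_lit 10) .nil))) .nil)) 
(.lf (nat_lit 37325) (.g (nat_lit 2699) (.e (nat_lit 1220) (nat_lit 90) (.e (nat_lit 81956) (nat_lit 23) (.e (nat_lit 98350) (nat_lit 24) (.e (nat_lit 409649) (nat_lit 18) (.e (nat_lit 303111) (nat_lit 0) (.e (nat_lit 2425) (nat_lit 157) (.e (nat_lit 3836) (nat_lit 233) .nil))))))) (.g (nat_lit 5) .nil .nil)))) (.nd (nat_lit 6) 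
(.lf (nat_lit 37293) (.g (nat_lit 2336) (.e (nat_lit 1220) (nat_lit 90) (.e (nat_lit 81956) (nat_lit 23) (.e (nat_lit 98350) (nat_lit 24) (.e (nat_lit 409616) (nat_lit 10) (.e (nat_lit 4978) (nat_lit 287) (.e (nat_lit 2544) (nat_lit 158) (.e (nat_lit 8379) (nat_lit 102) .nil))))))) (.g (nat_lit 4) .nil .nil))) 
(.lf (nat_lit 37357) (.g (nat_lit 4172) (.e (nat_lit 1220) (nat_lit 90) (.e (nat_lit 81956) (nat_lit 23) (.e (nat_lit 98388) (nat_lit 33) (.e (nat_lit 491566) (nat_lit 12) (.e (nat_lit 385051) (nat_lit 21) (.e (nat_lit 4214) (nat_lit 251) .nil)))))) (.g (nat_lit 4) .nil .nil))))) (.nd (nat_lit 5) (.nd (nat_lit 6) 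
(.lf (nat_lit 37277) (.g (nat_lit 542) (.e (nat_lit 1220) (nat_lit 90) (.e (nat_lit 81956) (nat_lit 23) (.e (nat_lit 106240) (nat_lit 17) .nil))) .nil)) 
(.lf (nat_lit 37341) (.g (nat_lit 3780) (.e (nat_lit 1220) (nat_lit 90) (.e (nat_lit 81956) (nat_lit 23) (.e (nat_lit 98384) (nat_lit 32) (.e (nat_lit 475214) (nat_lit 42) (.e (nat_lit 720933) (nat_lit 21) .nil))))) .nil))) (.nd (nat_lit 6) 
(.lf (nat_lit 37309) (.g (nat_lit 1922) (.e (nat_lit 1220) (nat_lit 90) (.e (nat_lit 81956) (nat_lit 23) (.e (nat_lit 98350) (nat_lit 24) (.e (nat_lit 409646) (nat_lit 18) .nil)))) .nil)) 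
(.lf (nat_lit 37373) (.g (nat_lit 3175) (.e (nat_lit 1220) (nat_lit 90) (.e (nat_lit 81956) (nat_lit 23) (.e (nat_lit 98389) (nat_lit 33) (.e (nat_lit 491560) (nat_lit 10) (.e (nat_lit 344099) (nat_lit 18) (.e (nat_lit 7936) (nat_lit 239) .nil)))))) (.g (nat_lit 4) .nil .nil)))))))) (.nd (nat_lit 2) (.nd (nat_lit 3) (.nd (nat_lit 4) (.nd (nat_lit 5) (.nd (nat_lit 6) 
(.lf (nat_lit 37251) (.g (nat_lit 3472) (.e (nat_lit 1220) (nat_lit 90) (.e (nat_lit 81956) (nat_lit 23) (.e (nat_lit 98313) (nat_lit 9) (.e (nat_lit 335995) (nat_lit 1) (.e (nat_lit 57849) (nat_lit 252) (.e (nat_lit 57367) (nat_lit 1) (.e (nat_lit 65280) (nat_lit 209) .nil))))))) (.g (nat_lit 4) .nil .nil))) 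
(.lf (nat_lit 37315) (.g (nat_lit 3086) (.e (nat_lit 1220) (nat_lit 90) (.e (nat_lit 81956) (nat_lit 23) (.e (nat_lit 98350) (nat_lit 24) (.e (nat_lit 409648) (nat_lit 18) (.e (nat_lit 303114) (nat_lit 1) (.e (nat_lit 171776) (nat_lit 140) .nil)))))) (.g (nat_lit 5) .nil .nil)))) (.nd (nat_lit 6) 
(.lf (nat_lit 37283) (.g (nat_lit 790) (.e (nat_lit 1220) (nat_lit 90) (.e (nat_lit 81956) (nat_lit 23) (.e (nat_lit 98335) (nat_lit 18) .nil))) .nil)) 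
(.lf (nat_lit 37347) (.g (nat_lit 3139) (.e (nat_lit 1220) (nat_lit 90) (.e (nat_lit 81956) (nat_lit 23) (.e (nat_lit 98387) (nat_lit 33) (.e (nat_lit 491566) (nat_lit 12) (.e (nat_lit 385050) (nat_lit 21) .nil))))) .nil)))) (.nd (nat_lit 5) (.nd (nat_lit 6) 
(.lf (nat_lit 37267) (.g (nat_lit 454) (.e (nat_lit 1220) (nat_lit 90) (.e (nat_lit 81956) (nat_lit 23) (.e (nat_lit 98320) (nat_lit 17) .nil))) .nil)) 
(.lf (nat_lit 37331) (.g (nat_lit 3646) (.e (nat_lit 1220) (nat_lit 90) (.e (nat_lit 81956) (nat_lit 23) (.e (nat_lit 98356) (nat_lit 26) (.e (nat_lit 426448) (nat_lit 20) (.e (nat_lit 122624) (nat_lit 1) (.e (nat_lit 164132) (nat_lit 134) .nil)))))) (.g (nat_lit 4) .nil .nil)))) (.nd (nat_lit 6) 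
(.lf (nat_lit 37299) (.g (nat_lit 1008) (.e (nat_lit 1220) (nat_lit 90) (.e (nat_lit 81956) (nat_lit 23) (.e (nat_lit 98350) (nat_lit 24) (.e (nat_lit 409616) (nat_lit 10) (.e (nat_lit 7936) (nat_lit 299) .nil))))) .nil)) 
(.lf (nat_lit 37363) (.g (nat_lit 3903) (.e (nat_lit 1220) (nat_lit 90) (.e (nat_lit 81956) (nat_lit 23) (.e (nat_lit 98389) (nat_lit 33) (.e (nat_lit 491556) (nat_lit 9) (.e (nat_lit 343808) (nat_lit 16) (.e (nat_lit 164119) (nat_lit 128) .nil)))))) (.g (nat_lit 4) .nil .nil)))))) (.nd (nat_lit 4) (.nd (nat_lit 5) (.nd (nat_lit 6) 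
(.lf (nat_lit 37259) (.g (nat_lit 1046) (.e (nat_lit 1220) (nat_lit 90) (.e (nat_lit 81956) (nat_lit 23) (.e (nat_lit 98314) (nat_lit 9) (.e (nat_lit 336335) (nat_lit 20) .nil)))) .nil)) 
(.lf (nat_lit 37323) (.g (nat_lit 2355) (.e (nat_lit 1220) (nat_lit 90) (.e (nat_lit 81956) (nat_lit 23) (.e (nat_lit 98350) (nat_lit 24) (.e (nat_lit 409649) (nat_lit 18) (.e (nat_lit 303111) (nat_lit 0) (.e (nat_lit 2425) (nat_lit 157) (.e (nat_lit 3832) (nat_lit 233) .nil))))))) (.g (nat_lit 4) .nil .nil)))) (.nd (nat_lit 6) 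
(.lf (nat_lit 37291) (.g (nat_lit 2398) (.e (nat_lit 1220) (nat_lit 90) (.e (nat_lit 81956) (nat_lit 23) (.e (nat_lit 98350) (nat_lit 24) (.e (nat_lit 409616) (nat_lit 10) (.e (nat_lit 4978) (nat_lit 287) (.e (nat_lit 2540) (nat_lit 158) (.e (nat_lit 8379) (nat_lit 102) .nil))))))) (.g (nat_lit 4) .nil .nil))) 
(.lf (nat_lit 37355) (.g (nat_lit 3971) (.e (nat_lit 1220) (nat_lit 90) (.e (nat_lit 81956) (nat_lit 23) (.e (nat_lit 98388) (nat_lit 33) (.e (nat_lit 491566) (nat_lit 12) (.e (nat_lit 385048) (nat_lit 21) (.e (nat_lit 4194) (nat_lit 251) .nil)))))) (.g (nat_lit 4) .nil .nil))))) (.nd (nat_lit 5) (.nd (nat_lit 6) 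
(.lf (nat_lit 37275) (.g (nat_lit 464) (.e (nat_lit 1220) (nat_lit 90) (.e (nat_lit 81956) (nat_lit 23) (.e (nat_lit 98325) (nat_lit 17) .nil))) .nil)) 
(.lf (nat_lit 37339) (.g (nat_lit 4833) (.e (nat_lit 1220) (nat_lit 90) (.e (nat_lit 81956) (nat_lit 23) (.e (nat_lit 98384) (nat_lit 32) (.e (nat_lit 475214) (nat_lit 42) (.e (nat_lit 720930) (nat_lit 21) (.e (nat_lit 65280) (nat_lit 128) .nil)))))) (.g (nat_lit 5) .nil .nil)))) (.nd (nat_lit 6) 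
(.lf (nat_lit 37307) (.g (nat_lit 2517) (.e (nat_lit 1220) (nat_lit 90) (.e (nat_lit 81956) (nat_lit 23) (.e (nat_lit 98350) (nat_lit 24) (.e (nat_lit 409639) (nat_lit 15) .nil)))) .nil)) 
(.lf (nat_lit 37371) (.g (nat_lit 4306) (.e (nat_lit 1220) (nat_lit 90) (.e (nat_lit 81956) (nat_lit 23) (.e (nat_lit 98389) (nat_lit 33) (.e (nat_lit 491560) (nat_lit 10) (.e (nat_lit 344089) (nat_lit 18) (.e (nat_lit 3972) (nat_lit 239) .nil)))))) (.g (nat_lit 4) .nil .nil))))))) (.nd (nat_lit 3) (.nd (nat_lit 4) (.nd (nat_lit 5) (.nd (nat_lit 6) 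
(.lf (nat_lit 37255) (.g (nat_lit 4026) (.e (nat_lit 1220) (nat_lit 90) (.e (nat_lit 81956) (nat_lit 23) (.e (nat_lit 98313) (nat_lit 9) (.e (nat_lit 335996) (nat_lit 1) (.e (nat_lit 57854) (nat_lit 252) (.e (nat_lit 57363) (nat_lit 1) (.e (nat_lit 57755) (nat_lit 209) .nil))))))) (.g (nat_lit 5) .nil .nil))) 
(.lf (nat_lit 37319) (.g (nat_lit 1292) (.e (nat_lit 1220) (nat_lit 90) (.e (nat_lit 81956) (nat_lit 23) (.e (nat_lit 98350) (nat_lit 24) (.e (nat_lit 409649) (nat_lit 18) (.e (nat_lit 303111) (nat_lit 0) .nil))))) .nil))) (.nd (nat_lit 6) 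
(.lf (nat_lit 37287) (.g (nat_lit 2300) (.e (nat_lit 1220) (nat_lit 90) (.e (nat_lit 81956) (nat_lit 23) (.e (nat_lit 98350) (nat_lit 24) (.e (nat_lit 409616) (nat_lit 10) (.e (nat_lit 4926) (nat_lit 287) (.e (nat_lit 2546) (nat_lit 158) (.e (nat_lit 8379) (nat_lit 102) .nil))))))) (.g (nat_lit 4) .nil .nil))) 
(.lf (nat_lit 37351) (.g (nat_lit 2958) (.e (nat_lit 1220) (nat_lit 90) (.e (nat_lit 81956) (nat_lit 23) (.e (nat_lit 98387) (nat_lit 33) (.e (nat_lit 491566) (nat_lit 12) (.e (nat_lit 385051) (nat_lit 21) (.e (nat_lit 4216) (nat_lit 251) .nil)))))) (.g (nat_lit 4) .nil .nil))))) (.nd (nat_lit 5) (.nd (nat_lit 6) 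
(.lf (nat_lit 37271) (.g (nat_lit 1651) (.e (nat_lit 1220) (nat_lit 90) (.e (nat_lit 81956) (nat_lit 23) (.e (nat_lit 98320) (nat_lit 17) (.e (nat_lit 7591) (nat_lit 407) (.e (nat_lit 81664) (nat_lit 0) .nil))))) .nil)) 
(.lf (nat_lit 37335) (.g (nat_lit 685) (.e (nat_lit 1220) (nat_lit 90) (.e (nat_lit 81956) (nat_lit 23) (.e (nat_lit 98366) (nat_lit 27) .nil))) .nil))) (.nd (nat_lit 6) 
(.lf (nat_lit 37303) (.g (nat_lit 2322) (.e (nat_lit 1220) (nat_lit 90) (.e (nat_lit 81956) (nat_lit 23) (.e (nat_lit 98350) (nat_lit 24) (.e (nat_lit 409617) (nat_lit 10) (.e (nat_lit 4934) (nat_lit 287) (.e (nat_lit 2546) (nat_lit 158) (.e (nat_lit 8379) (nat_lit 102) .nil))))))) (.g (nat_lit 4) .nil .nil))) 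
(.lf (nat_lit 37367) (.g (nat_lit 3965) (.e (nat_lit 1220) (nat_lit 90) (.e (nat_lit 81956) (nat_lit 23) (.e (nat_lit 98389) (nat_lit 33) (.e (nat_lit 491560) (nat_lit 10) (.e (nat_lit 344088) (nat_lit 18) (.e (nat_lit 3920) (nat_lit 239) .nil)))))) (.g (nat_lit 4) .nil .nil)))))) (.nd (nat_lit 4) (.nd (nat_lit 5) (.nd (nat_lit 6) 
(.lf (nat_lit 37263) (.g (nat_lit 3093) (.e (nat_lit 1220) (nat_lit 90) (.e (nat_lit 81956) (nat_lit 23) (.e (nat_lit 106240) (nat_lit 16) (.e (nat_lit 401454) (nat_lit 12) (.e (nat_lit 475162) (nat_lit 21) (.e (nat_lit 4602) (nat_lit 269) .nil)))))) (.g (nat_lit 4) .nil .nil))) 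
(.lf (nat_lit 37327) (.g (nat_lit 4628) (.e (nat_lit 1220) (nat_lit 90) (.e (nat_lit 81956) (nat_lit 23) (.e (nat_lit 98350) (nat_lit 24) (.e (nat_lit 409649) (nat_lit 18) (.e (nat_lit 303115) (nat_lit 1) (.e (nat_lit 171776) (nat_lit 140) .nil)))))) (.g (nat_lit 5) .nil .nil)))) (.nd (nat_lit 6) 
(.lf (nat_lit 37295) (.g (nat_lit 2352) (.e (nat_lit 1220) (nat_lit 90) (.e (nat_lit 81956) (nat_lit 23) (.e (nat_lit 98350) (nat_lit 24) (.e (nat_lit 409616) (nat_lit 10) (.e (nat_lit 4979) (nat_lit 287) (.e (nat_lit 2543) (nat_lit 158) (.e (nat_lit 8379) (nat_lit 102) .nil))))))) (.g (nat_lit 4) .nil .nil))) 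
(.lf (nat_lit 37359) (.g (nat_lit 4049) (.e (nat_lit 1220) (nat_lit 90) (.e (nat_lit 81956) (nat_lit 23) (.e (nat_lit 98389) (nat_lit 33) (.e (nat_lit 491546) (nat_lit 9) (.e (nat_lit 335997) (nat_lit 1) (.e (nat_lit 65280) (nat_lit 140) .nil)))))) (.g (nat_lit 5) .nil .nil))))) (.nd (nat_lit 5) (.nd (nat_lit 6) 
(.lf (nat_lit 37279) (.g (nat_lit 4296) (.e (nat_lit 1220) (nat_lit 90) (.e (nat_lit 81956) (nat_lit 23) (.e (nat_lit 98333) (nat_lit 18) (.e (nat_lit 164151) (nat_lit 152) (.e (nat_lit 1206) (nat_lit 89) (.e (nat_lit 73729) (nat_lit 0) (.e (nat_lit 7454) (nat_lit 396) .nil))))))) (.g (nat_lit 4) .nil .nil))) 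
(.lf (nat_lit 37343) (.g (nat_lit 3375) (.e (nat_lit 1220) (nat_lit 90) (.e (nat_lit 81956) (nat_lit 23) (.e (nat_lit 98384) (nat_lit 32) (.e (nat_lit 475219) (nat_lit 44) (.e (nat_lit 737292) (nat_lit 1) .nil))))) .nil))) (.nd (nat_lit 6) 
(.lf (nat_lit 37311) (.g (nat_lit 967) (.e (nat_lit 1220) (nat_lit 90) (.e (nat_lit 81956) (nat_lit 23) (.e (nat_lit 98350) (nat_lit 24) (.e (nat_lit 409648) (nat_lit 18) .nil)))) .nil)) 
(.lf (nat_lit 37375) (.g (nat_lit 3929) (.e (nat_lit 1220) (nat_lit 90) (.e (nat_lit 81956) (nat_lit 23) (.e (nat_lit 98389) (nat_lit 33) (.e (nat_lit 491560) (nat_lit 10) (.e (nat_lit 352000) (nat_lit 18) (.e (nat_lit 3975) (nat_lit 239) .nil)))))) (.g (nat_lit 4) .nil .nil))))))))))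

noncomputable def tv521 : DT := (.nd (nat_lit 0) (.nd (nat_lit 1) (.nd (nat_lit 2) (.nd (nat_lit 3) (.nd (nat_lit 4) (.nd (nat_lit 5) (.nd (nat_lit 6) 
(.lf (nat_lit 37376) (.g (nat_lit 2566) (.e (nat_lit 1220) (nat_lit 90) (.e (nat_lit 81956) (nat_lit 23) (.e (nat_lit 98389) (nat_lit 33) (.e (nat_lit 491562) (nat_lit 12) (.e (nat_lit 385047) (nat_lit 21) .nil))))) .nil)) 
(.lf (nat_lit 37440) (.g (nat_lit 1866) (.e (nat_lit 1220) (nat_lit 90) (.e (nat_lit 81959) (nat_lit 24) (.e (nat_lit 123197) (nat_lit 266) (.e (nat_lit 57424) (nat_lit 14) (.e (nat_lit 352309) (nat_lit 21) .nil))))) .nil))) (.nd (nat_lit 6) 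
(.lf (nat_lit 37408) (.g (nat_lit 3196) (.e (nat_lit 1220) (nat_lit 90) (.e (nat_lit 81959) (nat_lit 24) (.e (nat_lit 123182) (nat_lit 264) (.e (nat_lit 1222) (nat_lit 90) (.e (nat_lit 81948) (nat_lit 21) (.e (nat_lit 57873) (nat_lit 264) .nil)))))) (.g (nat_lit 5) .nil .nil))) 
(.lf (nat_lit 37472) (.g (nat_lit 1689) (.e (nat_lit 1220) (nat_lit 90) (.e (nat_lit 81965) (nat_lit 26) (.e (nat_lit 147492) (nat_lit 11) (.e (nat_lit 24653) (nat_lit 12) (.e (nat_lit 385044) (nat_lit 21) (.e (nat_lit 4492) (nat_lit 263) .nil)))))) (.g (nat_lit 4) .nil .nil))))) (.nd (nat_lit 5) (.nd (nat_lit 6) 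
(.lf (nat_lit 37392) (.g (nat_lit 643) (.e (nat_lit 1220) (nat_lit 90) (.e (nat_lit 81957) (nat_lit 24) (.e (nat_lit 123197) (nat_lit 266) .nil))) .nil)) 
(.lf (nat_lit 37456) (.g (nat_lit 1200) (.e (nat_lit 1220) (nat_lit 90) (.e (nat_lit 81965) (nat_lit 26) (.e (nat_lit 147467) (nat_lit 9) (.e (nat_lit 297) (nat_lit 22) .nil)))) .nil))) (.nd (nat_lit 6) 
(.lf (nat_lit 37424) (.g (nat_lit 374) (.e (nat_lit 1220) (nat_lit 90) (.e (nat_lit 81959) (nat_lit 24) (.e (nat_lit 123194) (nat_lit 266) .nil))) .nil)) 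
(.lf (nat_lit 37488) (.g (nat_lit 2484) (.e (nat_lit 1220) (nat_lit 90) (.e (nat_lit 81965) (nat_lit 26) (.e (nat_lit 147494) (nat_lit 11) (.e (nat_lit 24665) (nat_lit 14) (.e (nat_lit 401429) (nat_lit 4) .nil))))) .nil))))) (.nd (nat_lit 4) (.nd (nat_lit 5) (.nd (nat_lit 6) 
(.lf (nat_lit 37384) (.g (nat_lit 4342) (.e (nat_lit 1220) (nat_lit 90) (.e (nat_lit 81956) (nat_lit 23) (.e (nat_lit 98389) (nat_lit 33) (.e (nat_lit 491563) (nat_lit 12) (.e (nat_lit 385051) (nat_lit 21) .nil))))) .nil)) 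
(.lf (nat_lit 37448) (.g (nat_lit 3340) (.e (nat_lit 1220) (nat_lit 90) (.e (nat_lit 81959) (nat_lit 24) (.e (nat_lit 123198) (nat_lit 266) (.e (nat_lit 57436) (nat_lit 17) (.e (nat_lit 376860) (nat_lit 21) (.e (nat_lit 57870) (nat_lit 264) .nil)))))) (.g (nat_lit 6) .nil .nil)))) (.nd (nat_lit 6) 
(.lf (nat_lit 37416) (.g (nat_lit 1040) (.e (nat_lit 1220) (nat_lit 90) (.e (nat_lit 81959) (nat_lit 24) (.e (nat_lit 123183) (nat_lit 264) (.e (nat_lit 7936) (nat_lit 90) .nil)))) .nil)) 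
(.lf (nat_lit 37480) (.g (nat_lit 2017) (.e (nat_lit 1220) (nat_lit 90) (.e (nat_lit 81965) (nat_lit 26) (.e (nat_lit 147492) (nat_lit 11) (.e (nat_lit 24665) (nat_lit 14) (.e (nat_lit 401429) (nat_lit 4) .nil))))) .nil)))) (.nd (nat_lit 5) (.nd (nat_lit 6) 
(.lf (nat_lit 37400) (.g (nat_lit 1634) (.e (nat_lit 1220) (nat_lit 90) (.e (nat_lit 81959) (nat_lit 24) (.e (nat_lit 123182) (nat_lit 264) (.e (nat_lit 1028) (nat_lit 81) .nil)))) .nil)) 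
(.lf (nat_lit 37464) (.g (nat_lit 2150) (.e (nat_lit 1220) (nat_lit 90) (.e (nat_lit 81965) (nat_lit 26) (.e (nat_lit 147492) (nat_lit 11) (.e (nat_lit 24638) (nat_lit 9) (.e (nat_lit 335988) (nat_lit 1) (.e (nat_lit 65280) (nat_lit 152) .nil)))))) (.g (nat_lit 5) .nil .nil)))) (.nd (nat_lit 6) 
(.lf (nat_lit 37432) (.g (nat_lit 2195) (.e (nat_lit 1220) (nat_lit 90) (.e (nat_lit 81959) (nat_lit 24) (.e (nat_lit 123195) (nat_lit 266) (.e (nat_lit 57427) (nat_lit 15) (.e (nat_lit 360448) (nat_lit 0) (.e (nat_lit 5859) (nat_lit 320) .nil)))))) (.g (nat_lit 4) .nil .nil))) 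
(.lf (nat_lit 37496) (.g (nat_lit 2568) (.e (nat_lit 1220) (nat_lit 90) (.e (nat_lit 81965) (nat_lit 26) (.e (nat_lit 147495) (nat_lit 11) (.e (nat_lit 24640) (nat_lit 10) (.e (nat_lit 344087) (nat_lit 18) (.e (nat_lit 7237) (nat_lit 382) .nil)))))) (.g (nat_lit 4) .nil .nil))))))) (.nd (nat_lit 3) (.nd (nat_lit 4) (.nd (nat_lit 5) (.nd (nat_lit 6) 
(.lf (nat_lit 37380) (.g (nat_lit 4290) (.e (nat_lit 1220) (nat_lit 90) (.e (nat_lit 81956) (nat_lit 23) (.e (nat_lit 98389) (nat_lit 33) (.e (nat_lit 491563) (nat_lit 12) (.e (nat_lit 385048) (nat_lit 21) (.e (nat_lit 4194) (nat_lit 251) .nil)))))) (.g (nat_lit 4) .nil .nil))) 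
(.lf (nat_lit 37444) (.g (nat_lit 2254) (.e (nat_lit 1220) (nat_lit 90) (.e (nat_lit 81959) (nat_lit 24) (.e (nat_lit 123197) (nat_lit 266) (.e (nat_lit 57436) (nat_lit 17) (.e (nat_lit 376859) (nat_lit 21) (.e (nat_lit 57870) (nat_lit 264) .nil)))))) (.g (nat_lit 4) .nil .nil)))) (.nd (nat_lit 6) 
(.lf (nat_lit 37412) (.g (nat_lit 1628) (.e (nat_lit 1220) (nat_lit 90) (.e (nat_lit 81959) (nat_lit 24) (.e (nat_lit 123182) (nat_lit 264) (.e (nat_lit 1224) (nat_lit 90) (.e (nat_lit 81946) (nat_lit 20) .nil))))) .nil)) 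
(.lf (nat_lit 37476) (.g (nat_lit 1862) (.e (nat_lit 1220) (nat_lit 90) (.e (nat_lit 81965) (nat_lit 26) (.e (nat_lit 147492) (nat_lit 11) (.e (nat_lit 24664) (nat_lit 14) (.e (nat_lit 401420) (nat_lit 1) (.e (nat_lit 164163) (nat_lit 152) .nil)))))) (.g (nat_lit 4) .nil .nil))))) (.nd (nat_lit 5) (.nd (nat_lit 6) 
(.lf (nat_lit 37396) (.g (nat_lit 1493) (.e (nat_lit 1220) (nat_lit 90) (.e (nat_lit 81958) (nat_lit 24) (.e (nat_lit 123182) (nat_lit 264) (.e (nat_lit 1222) (nat_lit 90) (.e (nat_lit 81948) (nat_lit 21) .nil))))) .nil)) 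
(.lf (nat_lit 37460) (.g (nat_lit 1825) (.e (nat_lit 1220) (nat_lit 90) (.e (nat_lit 81965) (nat_lit 26) (.e (nat_lit 147467) (nat_lit 9) (.e (nat_lit 334) (nat_lit 26) (.e (nat_lit 376860) (nat_lit 21) (.e (nat_lit 65280) (nat_lit 152) .nil)))))) (.g (nat_lit 4) .nil .nil)))) (.nd (nat_lit 6) 
(.lf (nat_lit 37428) (.g (nat_lit 1649) (.e (nat_lit 1220) (nat_lit 90) (.e (nat_lit 81959) (nat_lit 24) (.e (nat_lit 123195) (nat_lit 266) (.e (nat_lit 57424) (nat_lit 14) (.e (nat_lit 352309) (nat_lit 21) .nil))))) .nil)) 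
(.lf (nat_lit 37492) (.g (nat_lit 1131) (.e (nat_lit 1220) (nat_lit 90) (.e (nat_lit 81965) (nat_lit 26) (.e (nat_lit 147495) (nat_lit 11) (.e (nat_lit 24639) (nat_lit 10) .nil)))) .nil))))) (.nd (nat_lit 4) (.nd (nat_lit 5) (.nd (nat_lit 6) 
(.lf (nat_lit 37388) (.g (nat_lit 2434) (.e (nat_lit 1220) (nat_lit 90) (.e (nat_lit 81957) (nat_lit 24) (.e (nat_lit 123182) (nat_lit 264) (.e (nat_lit 1222) (nat_lit 90) (.e (nat_lit 81948) (nat_lit 21) (.e (nat_lit 57870) (nat_lit 264) .nil)))))) (.g (nat_lit 4) .nil .nil))) 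
(.lf (nat_lit 37452) (.g (nat_lit 2074) (.e (nat_lit 1220) (nat_lit 90) (.e (nat_lit 81965) (nat_lit 26) (.e (nat_lit 147463) (nat_lit 9) (.e (nat_lit 334) (nat_lit 26) (.e (nat_lit 376860) (nat_lit 21) (.e (nat_lit 65280) (nat_lit 152) .nil)))))) (.g (nat_lit 5) .nil .nil)))) (.nd (nat_lit 6) 
(.lf (nat_lit 37420) (.g (nat_lit 1228) (.e (nat_lit 1220) (nat_lit 90) (.e (nat_lit 81959) (nat_lit 24) (.e (nat_lit 123184) (nat_lit 264) (.e (nat_lit 7936) (nat_lit 90) .nil)))) .nil)) 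
(.lf (nat_lit 37484) (.g (nat_lit 2608) (.e (nat_lit 1220) (nat_lit 90) (.e (nat_lit 81965) (nat_lit 26) (.e (nat_lit 147493) (nat_lit 11) (.e (nat_lit 24665) (nat_lit 14) (.e (nat_lit 401421) (nat_lit 1) (.e (nat_lit 164163) (nat_lit 152) .nil)))))) (.g (nat_lit 4) .nil .nil))))) (.nd (nat_lit 5) (.nd (nat_lit 6) 
(.lf (nat_lit 37404) (.g (nat_lit 3371) (.e (nat_lit 1220) (nat_lit 90) (.e (nat_lit 81959) (nat_lit 24) (.e (nat_lit 123182) (nat_lit 264) (.e (nat_lit 1201) (nat_lit 88) (.e (nat_lit 65619) (nat_lit 10) (.e (nat_lit 344097) (nat_lit 18) (.e (nat_lit 5905) (nat_lit 320) .nil))))))) (.g (nat_lit 4) .nil .nil))) 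
(.lf (nat_lit 37468) (.g (nat_lit 1979) (.e (nat_lit 1220) (nat_lit 90) (.e (nat_lit 81965) (nat_lit 26) (.e (nat_lit 147492) (nat_lit 11) (.e (nat_lit 24650) (nat_lit 12) (.e (nat_lit 385044) (nat_lit 21) (.e (nat_lit 4447) (nat_lit 263) .nil)))))) (.g (nat_lit 5) .nil .nil)))) (.nd (nat_lit 6) 
(.lf (nat_lit 37436) (.g (nat_lit 3099) (.e (nat_lit 1220) (nat_lit 90) (.e (nat_lit 81959) (nat_lit 24) (.e (nat_lit 123195) (nat_lit 266) (.e (nat_lit 57427) (nat_lit 15) (.e (nat_lit 360451) (nat_lit 0) (.e (nat_lit 7936) (nat_lit 320) .nil)))))) (.g (nat_lit 5) .nil .nil))) 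
(.lf (nat_lit 37500) (.g (nat_lit 3112) (.e (nat_lit 1220) (nat_lit 90) (.e (nat_lit 81965) (nat_lit 26) (.e (nat_lit 147495) (nat_lit 11) (.e (nat_lit 24640) (nat_lit 10) (.e (nat_lit 344090) (nat_lit 18) (.e (nat_lit 7236) (nat_lit 382) .nil)))))) (.g (nat_lit 5) .nil .nil)))))))) (.nd (nat_lit 2) (.nd (nat_lit 3) (.nd (nat_lit 4) (.nd (nat_lit 5) (.nd (nat_lit 6) 
(.lf (nat_lit 37378) (.g (nat_lit 3937) (.e (nat_lit 1220) (nat_lit 90) (.e (nat_lit 81956) (nat_lit 23) (.e (nat_lit 98389) (nat_lit 33) (.e (nat_lit 491563) (nat_lit 12) (.e (nat_lit 385045) (nat_lit 21) (.e (nat_lit 4168) (nat_lit 251) .nil)))))) (.g (nat_lit 4) .nil .nil))) 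
(.lf (nat_lit 37442) (.g (nat_lit 2423) (.e (nat_lit 1220) (nat_lit 90) (.e (nat_lit 81959) (nat_lit 24) (.e (nat_lit 123197) (nat_lit 266) (.e (nat_lit 57426) (nat_lit 15) (.e (nat_lit 368384) (nat_lit 0) (.e (nat_lit 5902) (nat_lit 320) .nil)))))) (.g (nat_lit 4) .nil .nil)))) (.nd (nat_lit 6) 
(.lf (nat_lit 37410) (.g (nat_lit 2124) (.e (nat_lit 1220) (nat_lit 90) (.e (nat_lit 81959) (nat_lit 24) (.e (nat_lit 123182) (nat_lit 264) (.e (nat_lit 1223) (nat_lit 90) (.e (nat_lit 81950) (nat_lit 21) (.e (nat_lit 57871) (nat_lit 264) .nil)))))) (.g (nat_lit 4) .nil .nil))) 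
(.lf (nat_lit 37474) (.g (nat_lit 3132) (.e (nat_lit 1220) (nat_lit 90) (.e (nat_lit 81965) (nat_lit 26) (.e (nat_lit 147492) (nat_lit 11) (.e (nat_lit 24662) (nat_lit 14) (.e (nat_lit 401422) (nat_lit 1) (.e (nat_lit 164162) (nat_lit 152) .nil)))))) (.g (nat_lit 5) .nil .nil))))) (.nd (nat_lit 5) (.nd (nat_lit 6) 
(.lf (nat_lit 37394) (.g (nat_lit 635) (.e (nat_lit 1220) (nat_lit 90) (.e (nat_lit 81957) (nat_lit 24) (.e (nat_lit 123198) (nat_lit 266) .nil))) .nil)) 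
(.lf (nat_lit 37458) (.g (nat_lit 1091) (.e (nat_lit 1220) (nat_lit 90) (.e (nat_lit 81965) (nat_lit 26) (.e (nat_lit 147467) (nat_lit 9) (.e (nat_lit 321) (nat_lit 24) .nil)))) .nil))) (.nd (nat_lit 6) 
(.lf (nat_lit 37426) (.g (nat_lit 1027) (.e (nat_lit 1220) (nat_lit 90) (.e (nat_lit 81959) (nat_lit 24) (.e (nat_lit 123195) (nat_lit 266) (.e (nat_lit 57419) (nat_lit 12) (.e (nat_lit 336186) (nat_lit 11) .nil))))) .nil)) 
(.lf (nat_lit 37490) (.g (nat_lit 1217) (.e (nat_lit 1220) (nat_lit 90) (.e (nat_lit 81965) (nat_lit 26) (.e (nat_lit 147495) (nat_lit 11) (.e (nat_lit 24580) (nat_lit 0) .nil)))) .nil))))) (.nd (nat_lit 4) (.nd (nat_lit 5) (.nd (nat_lit 6) 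
(.lf (nat_lit 37386) (.g (nat_lit 4150) (.e (nat_lit 1220) (nat_lit 90) (.e (nat_lit 81956) (nat_lit 23) (.e (nat_lit 98389) (nat_lit 33) (.e (nat_lit 491563) (nat_lit 12) (.e (nat_lit 385053) (nat_lit 21) (.e (nat_lit 4189) (nat_lit 251) .nil)))))) (.g (nat_lit 4) .nil .nil))) 
(.lf (nat_lit 37450) (.g (nat_lit 1598) (.e (nat_lit 1220) (nat_lit 90) (.e (nat_lit 81965) (nat_lit 26) (.e (nat_lit 147463) (nat_lit 9) (.e (nat_lit 249) (nat_lit 21) (.e (nat_lit 336196) (nat_lit 12) (.e (nat_lit 385044) (nat_lit 21) (.e (nat_lit 4447) (nat_lit 263) .nil))))))) (.g (nat_lit 4) .nil .nil)))) (.nd (nat_lit 6) 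
(.lf (nat_lit 37418) (.g (nat_lit 2846) (.e (nat_lit 1220) (nat_lit 90) (.e (nat_lit 81959) (nat_lit 24) (.e (nat_lit 123184) (nat_lit 264) (.e (nat_lit 1222) (nat_lit 90) (.e (nat_lit 81948) (nat_lit 21) (.e (nat_lit 57872) (nat_lit 264) .nil)))))) (.g (nat_lit 4) .nil .nil))) 
(.lf (nat_lit 37482) (.g (nat_lit 674) (.e (nat_lit 1220) (nat_lit 90) (.e (nat_lit 81965) (nat_lit 26) (.e (nat_lit 147493) (nat_lit 11) (.e (nat_lit 24653) (nat_lit 12) .nil)))) .nil)))) (.nd (nat_lit 5) (.nd (nat_lit 6) 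
(.lf (nat_lit 37402) (.g (nat_lit 1727) (.e (nat_lit 1220) (nat_lit 90) (.e (nat_lit 81959) (nat_lit 24) (.e (nat_lit 123182) (nat_lit 264) (.e (nat_lit 1187) (nat_lit 88) .nil)))) .nil)) 
(.lf (nat_lit 37466) (.g (nat_lit 2034) (.e (nat_lit 1220) (nat_lit 90) (.e (nat_lit 81965) (nat_lit 26) (.e (nat_lit 147492) (nat_lit 11) (.e (nat_lit 24650) (nat_lit 12) (.e (nat_lit 385043) (nat_lit 21) (.e (nat_lit 4447) (nat_lit 263) .nil)))))) (.g (nat_lit 5) .nil .nil)))) (.nd (nat_lit 6) 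
(.lf (nat_lit 37434) (.g (nat_lit 3423) (.e (nat_lit 1220) (nat_lit 90) (.e (nat_lit 81959) (nat_lit 24) (.e (nat_lit 123195) (nat_lit 266) (.e (nat_lit 57427) (nat_lit 15) (.e (nat_lit 360448) (nat_lit 0) (.e (nat_lit 5904) (nat_lit 320) .nil)))))) (.g (nat_lit 5) .nil .nil))) 
(.lf (nat_lit 37498) (.g (nat_lit 2832) (.e (nat_lit 1220) (nat_lit 90) (.e (nat_lit 81965) (nat_lit 26) (.e (nat_lit 147495) (nat_lit 11) (.e (nat_lit 24640) (nat_lit 10) (.e (nat_lit 344088) (nat_lit 18) (.e (nat_lit 7236) (nat_lit 382) .nil)))))) (.g (nat_lit 4) .nil .nil))))))) (.nd (nat_lit 3) (.nd (nat_lit 4) (.nd (nat_lit 5) (.nd (nat_lit 6) 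
(.lf (nat_lit 37382) (.g (nat_lit 4280) (.e (nat_lit 1220) (nat_lit 90) (.e (nat_lit 81956) (nat_lit 23) (.e (nat_lit 98389) (nat_lit 33) (.e (nat_lit 491563) (nat_lit 12) (.e (nat_lit 385050) (nat_lit 21) .nil))))) .nil)) 
(.lf (nat_lit 37446) (.g (nat_lit 2066) (.e (nat_lit 1220) (nat_lit 90) (.e (nat_lit 81959) (nat_lit 24) (.e (nat_lit 123198) (nat_lit 266) (.e (nat_lit 57426) (nat_lit 15) (.e (nat_lit 368384) (nat_lit 0) (.e (nat_lit 5902) (nat_lit 320) .nil)))))) (.g (nat_lit 4) .nil .nil)))) (.nd (nat_lit 6) 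
(.lf (nat_lit 37414) (.g (nat_lit 2108) (.e (nat_lit 1220) (nat_lit 90) (.e (nat_lit 81959) (nat_lit 24) (.e (nat_lit 123182) (nat_lit 264) (.e (nat_lit 1224) (nat_lit 90) (.e (nat_lit 81949) (nat_lit 21) (.e (nat_lit 57870) (nat_lit 264) .nil)))))) (.g (nat_lit 4) .nil .nil))) 
(.lf (nat_lit 37478) (.g (nat_lit 2421) (.e (nat_lit 1220) (nat_lit 90) (.e (nat_lit 81965) (nat_lit 26) (.e (nat_lit 147492) (nat_lit 11) (.e (nat_lit 24665) (nat_lit 14) (.e (nat_lit 401421) (nat_lit 1) (.e (nat_lit 164162) (nat_lit 152) .nil)))))) (.g (nat_lit 4) .nil .nil))))) (.nd (nat_lit 5) (.nd (nat_lit 6) 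
(.lf (nat_lit 37398) (.g (nat_lit 1664) (.e (nat_lit 1220) (nat_lit 90) (.e (nat_lit 81959) (nat_lit 24) (.e (nat_lit 123182) (nat_lit 264) (.e (nat_lit 982) (nat_lit 81) .nil)))) .nil)) 
(.lf (nat_lit 37462) (.g (nat_lit 2510) (.e (nat_lit 1220) (nat_lit 90) (.e (nat_lit 81965) (nat_lit 26) (.e (nat_lit 147492) (nat_lit 11) (.e (nat_lit 24580) (nat_lit 0) (.e (nat_lit 6619) (nat_lit 357) (.e (nat_lit 2612) (nat_lit 163) (.e (nat_lit 164163) (nat_lit 152) .nil))))))) (.g (nat_lit 5) .nil .nil)))) (.nd (nat_lit 6) 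
(.lf (nat_lit 37430) (.g (nat_lit 3400) (.e (nat_lit 1220) (nat_lit 90) (.e (nat_lit 81959) (nat_lit 24) (.e (nat_lit 123195) (nat_lit 266) (.e (nat_lit 57426) (nat_lit 15) (.e (nat_lit 360452) (nat_lit 0) (.e (nat_lit 5905) (nat_lit 320) .nil)))))) (.g (nat_lit 6) .nil .nil))) 
(.lf (nat_lit 37494) (.g (nat_lit 2419) (.e (nat_lit 1220) (nat_lit 90) (.e (nat_lit 81965) (nat_lit 26) (.e (nat_lit 147495) (nat_lit 11) (.e (nat_lit 24639) (nat_lit 10) (.e (nat_lit 344096) (nat_lit 18) (.e (nat_lit 7236) (nat_lit 382) .nil)))))) (.g (nat_lit 4) .nil .nil)))))) (.nd (nat_lit 4) (.nd (nat_lit 5) (.nd (nat_lit 6) 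
(.lf (nat_lit 37390) (.g (nat_lit 1515) (.e (nat_lit 1220) (nat_lit 90) (.e (nat_lit 81957) (nat_lit 24) (.e (nat_lit 123183) (nat_lit 264) (.e (nat_lit 1222) (nat_lit 90) (.e (nat_lit 81948) (nat_lit 21) .nil))))) .nil)) 
(.lf (nat_lit 37454) (.g (nat_lit 2634) (.e (nat_lit 1220) (nat_lit 90) (.e (nat_lit 81965) (nat_lit 26) (.e (nat_lit 147465) (nat_lit 9) (.e (nat_lit 334) (nat_lit 26) (.e (nat_lit 376860) (nat_lit 21) (.e (nat_lit 65280) (nat_lit 152) .nil)))))) (.g (nat_lit 5) .nil .nil)))) (.nd (nat_lit 6) 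
(.lf (nat_lit 37422) (.g (nat_lit 2295) (.e (nat_lit 1220) (nat_lit 90) (.e (nat_lit 81959) (nat_lit 24) (.e (nat_lit 123185) (nat_lit 264) (.e (nat_lit 1222) (nat_lit 90) (.e (nat_lit 81948) (nat_lit 21) (.e (nat_lit 57872) (nat_lit 264) .nil)))))) (.g (nat_lit 4) .nil .nil))) 
(.lf (nat_lit 37486) (.g (nat_lit 2625) (.e (nat_lit 1220) (nat_lit 90) (.e (nat_lit 81965) (nat_lit 26) (.e (nat_lit 147494) (nat_lit 11) (.e (nat_lit 24665) (nat_lit 14) (.e (nat_lit 401421) (nat_lit 1) (.e (nat_lit 164162) (nat_lit 152) .nil)))))) (.g (nat_lit 4) .nil .nil))))) (.nd (nat_lit 5) (.nd (nat_lit 6) 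
(.lf (nat_lit 37406) (.g (nat_lit 3666) (.e (nat_lit 1220) (nat_lit 90) (.e (nat_lit 81959) (nat_lit 24) (.e (nat_lit 123182) (nat_lit 264) (.e (nat_lit 1222) (nat_lit 90) (.e (nat_lit 81948) (nat_lit 21) (.e (nat_lit 57871) (nat_lit 264) .nil)))))) (.g (nat_lit 0) .nil .nil))) 
(.lf (nat_lit 37470) (.g (nat_lit 2091) (.e (nat_lit 1220) (nat_lit 90) (.e (nat_lit 81965) (nat_lit 26) (.e (nat_lit 147492) (nat_lit 11) (.e (nat_lit 24650) (nat_lit 12) (.e (nat_lit 385049) (nat_lit 21) (.e (nat_lit 4490) (nat_lit 263) .nil)))))) (.g (nat_lit 5) .nil .nil)))) (.nd (nat_lit 6) 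
(.lf (nat_lit 37438) (.g (nat_lit 1597) (.e (nat_lit 1220) (nat_lit 90) (.e (nat_lit 81959) (nat_lit 24) (.e (nat_lit 123195) (nat_lit 266) (.e (nat_lit 57427) (nat_lit 15) (.e (nat_lit 360454) (nat_lit 0) .nil))))) .nil)) 
(.lf (nat_lit 37502) (.g (nat_lit 2384) (.e (nat_lit 1220) (nat_lit 90) (.e (nat_lit 81965) (nat_lit 26) (.e (nat_lit 147495) (nat_lit 11) (.e (nat_lit 24640) (nat_lit 10) (.e (nat_lit 344093) (nat_lit 18) .nil))))) .nil)))))))) (.nd (nat_lit 1) (.nd (nat_lit 2) (.nd (nat_lit 3) (.nd (nat_lit 4) (.nd (nat_lit 5) (.nd (nat_lit 6) 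
(.lf (nat_lit 37377) (.g (nat_lit 4138) (.e (nat_lit 1220) (nat_lit 90) (.e (nat_lit 81956) (nat_lit 23) (.e (nat_lit 98389) (nat_lit 33) (.e (nat_lit 491563) (nat_lit 12) (.e (nat_lit 385043) (nat_lit 21) .nil))))) .nil)) 
(.lf (nat_lit 37441) (.g (nat_lit 3823) (.e (nat_lit 1220) (nat_lit 90) (.e (nat_lit 81959) (nat_lit 24) (.e (nat_lit 123197) (nat_lit 266) (.e (nat_lit 57426) (nat_lit 15) (.e (nat_lit 360452) (nat_lit 0) (.e (nat_lit 5905) (nat_lit 320) .nil)))))) (.g (nat_lit 0) .nil .nil)))) (.nd (nat_lit 6) 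
(.lf (nat_lit 37409) (.g (nat_lit 2667) (.e (nat_lit 1220) (nat_lit 90) (.e (nat_lit 81959) (nat_lit 24) (.e (nat_lit 123182) (nat_lit 264) (.e (nat_lit 1222) (nat_lit 90) (.e (nat_lit 81950) (nat_lit 21) .nil))))) .nil)) 
(.lf (nat_lit 37473) (.g (nat_lit 1636) (.e (nat_lit 1220) (nat_lit 90) (.e (nat_lit 81965) (nat_lit 26) (.e (nat_lit 147492) (nat_lit 11) (.e (nat_lit 24653) (nat_lit 12) (.e (nat_lit 385045) (nat_lit 21) (.e (nat_lit 4447) (nat_lit 263) .nil)))))) (.g (nat_lit 4) .nil .nil))))) (.nd (nat_lit 5) (.nd (nat_lit 6) 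
(.lf (nat_lit 37393) (.g (nat_lit 1363) (.e (nat_lit 1220) (nat_lit 90) (.e (nat_lit 81957) (nat_lit 24) (.e (nat_lit 123197) (nat_lit 266) (.e (nat_lit 57426) (nat_lit 15) .nil)))) .nil)) 
(.lf (nat_lit 37457) (.g (nat_lit 1945) (.e (nat_lit 1220) (nat_lit 90) (.e (nat_lit 81965) (nat_lit 26) (.e (nat_lit 147467) (nat_lit 9) (.e (nat_lit 314) (nat_lit 23) (.e (nat_lit 352309) (nat_lit 21) .nil))))) .nil))) (.nd (nat_lit 6) 
(.lf (nat_lit 37425) (.g (nat_lit 1067) (.e (nat_lit 1220) (nat_lit 90) (.e (nat_lit 81959) (nat_lit 24) (.e (nat_lit 123195) (nat_lit 266) (.e (nat_lit 57413) (nat_lit 12) .nil)))) .nil)) 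
(.lf (nat_lit 37489) (.g (nat_lit 444) (.e (nat_lit 1220) (nat_lit 90) (.e (nat_lit 81965) (nat_lit 26) (.e (nat_lit 147495) (nat_lit 11) .nil))) .nil))))) (.nd (nat_lit 4) (.nd (nat_lit 5) (.nd (nat_lit 6) 
(.lf (nat_lit 37385) (.g (nat_lit 4443) (.e (nat_lit 1220) (nat_lit 90) (.e (nat_lit 81956) (nat_lit 23) (.e (nat_lit 98389) (nat_lit 33) (.e (nat_lit 491563) (nat_lit 12) (.e (nat_lit 385052) (nat_lit 21) .nil))))) .nil)) 
(.lf (nat_lit 37449) (.g (nat_lit 524) (.e (nat_lit 1220) (nat_lit 90) (.e (nat_lit 81959) (nat_lit 24) (.e (nat_lit 123199) (nat_lit 267) .nil))) .nil))) (.nd (nat_lit 6) 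
(.lf (nat_lit 37417) (.g (nat_lit 3489) (.e (nat_lit 1220) (nat_lit 90) (.e (nat_lit 81959) (nat_lit 24) (.e (nat_lit 123184) (nat_lit 264) (.e (nat_lit 1201) (nat_lit 88) (.e (nat_lit 65610) (nat_lit 10) (.e (nat_lit 344097) (nat_lit 18) (.e (nat_lit 5906) (nat_lit 320) .nil))))))) (.g (nat_lit 5) .nil .nil))) 
(.lf (nat_lit 37481) (.g (nat_lit 666) (.e (nat_lit 1220) (nat_lit 90) (.e (nat_lit 81965) (nat_lit 26) (.e (nat_lit 147493) (nat_lit 11) (.e (nat_lit 24638) (nat_lit 9) .nil)))) .nil)))) (.nd (nat_lit 5) (.nd (nat_lit 6) 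
(.lf (nat_lit 37401) (.g (nat_lit 1691) (.e (nat_lit 1220) (nat_lit 90) (.e (nat_lit 81959) (nat_lit 24) (.e (nat_lit 123182) (nat_lit 264) (.e (nat_lit 1028) (nat_lit 81) (.e (nat_lit 1580) (nat_lit 111) .nil))))) .nil)) 
(.lf (nat_lit 37465) (.g (nat_lit 1733) (.e (nat_lit 1220) (nat_lit 90) (.e (nat_lit 81965) (nat_lit 26) (.e (nat_lit 147492) (nat_lit 11) (.e (nat_lit 24648) (nat_lit 12) (.e (nat_lit 385045) (nat_lit 21) (.e (nat_lit 4447) (nat_lit 263) .nil)))))) (.g (nat_lit 4) .nil .nil)))) (.nd (nat_lit 6) 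
(.lf (nat_lit 37433) (.g (nat_lit 3551) (.e (nat_lit 1220) (nat_lit 90) (.e (nat_lit 81959) (nat_lit 24) (.e (nat_lit 123195) (nat_lit 266) (.e (nat_lit 57427) (nat_lit 15) (.e (nat_lit 360448) (nat_lit 0) (.e (nat_lit 5861) (nat_lit 320) .nil)))))) (.g (nat_lit 5) .nil .nil))) 
(.lf (nat_lit 37497) (.g (nat_lit 1990) (.e (nat_lit 1220) (nat_lit 90) (.e (nat_lit 81965) (nat_lit 26) (.e (nat_lit 147495) (nat_lit 11) (.e (nat_lit 24640) (nat_lit 10) (.e (nat_lit 344088) (nat_lit 18) .nil))))) .nil)))))) (.nd (nat_lit 3) (.nd (nat_lit 4) (.nd (nat_lit 5) (.nd (nat_lit 6) 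
(.lf (nat_lit 37381) (.g (nat_lit 5292) (.e (nat_lit 1220) (nat_lit 90) (.e (nat_lit 81956) (nat_lit 23) (.e (nat_lit 98389) (nat_lit 33) (.e (nat_lit 491563) (nat_lit 12) (.e (nat_lit 385049) (nat_lit 21) (.e (nat_lit 4194) (nat_lit 251) .nil)))))) (.g (nat_lit 4) .nil .nil))) 
(.lf (nat_lit 37445) (.g (nat_lit 3354) (.e (nat_lit 1220) (nat_lit 90) (.e (nat_lit 81959) (nat_lit 24) (.e (nat_lit 123197) (nat_lit 266) (.e (nat_lit 57436) (nat_lit 17) (.e (nat_lit 376860) (nat_lit 21) (.e (nat_lit 57870) (nat_lit 264) .nil)))))) (.g (nat_lit 6) .nil .nil)))) (.nd (nat_lit 6) 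
(.lf (nat_lit 37413) (.g (nat_lit 1616) (.e (nat_lit 1220) (nat_lit 90) (.e (nat_lit 81959) (nat_lit 24) (.e (nat_lit 123182) (nat_lit 264) (.e (nat_lit 1224) (nat_lit 90) (.e (nat_lit 81947) (nat_lit 20) .nil))))) .nil)) 
(.lf (nat_lit 37477) (.g (nat_lit 2403) (.e (nat_lit 1220) (nat_lit 90) (.e (nat_lit 81965) (nat_lit 26) (.e (nat_lit 147492) (nat_lit 11) (.e (nat_lit 24665) (nat_lit 14) (.e (nat_lit 401420) (nat_lit 1) (.e (nat_lit 164163) (nat_lit 152) .nil)))))) (.g (nat_lit 4) .nil .nil))))) (.nd (nat_lit 5) (.nd (nat_lit 6) 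
(.lf (nat_lit 37397) (.g (nat_lit 777) (.e (nat_lit 1220) (nat_lit 90) (.e (nat_lit 81959) (nat_lit 24) (.e (nat_lit 123025) (nat_lit 127) .nil))) .nil)) 
(.lf (nat_lit 37461) (.g (nat_lit 362) (.e (nat_lit 1220) (nat_lit 90) (.e (nat_lit 81965) (nat_lit 26) (.e (nat_lit 147492) (nat_lit 11) .nil))) .nil))) (.nd (nat_lit 6) 
(.lf (nat_lit 37429) (.g (nat_lit 1040) (.e (nat_lit 1220) (nat_lit 90) (.e (nat_lit 81959) (nat_lit 24) (.e (nat_lit 123195) (nat_lit 266) (.e (nat_lit 57425) (nat_lit 14) (.e (nat_lit 352309) (nat_lit 21) .nil))))) .nil)) 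
(.lf (nat_lit 37493) (.g (nat_lit 2912) (.e (nat_lit 1220) (nat_lit 90) (.e (nat_lit 81965) (nat_lit 26) (.e (nat_lit 147495) (nat_lit 11) (.e (nat_lit 24639) (nat_lit 10) (.e (nat_lit 344090) (nat_lit 18) (.e (nat_lit 7236) (nat_lit 382) .nil)))))) (.g (nat_lit 5) .nil .nil)))))) (.nd (nat_lit 4) (.nd (nat_lit 5) (.nd (nat_lit 6) 
(.lf (nat_lit 37389) (.g (nat_lit 2390) (.e (nat_lit 1220) (nat_lit 90) (.e (nat_lit 81957) (nat_lit 24) (.e (nat_lit 123182) (nat_lit 264) (.e (nat_lit 1222) (nat_lit 90) (.e (nat_lit 81948) (nat_lit 21) (.e (nat_lit 57871) (nat_lit 264) .nil)))))) (.g (nat_lit 4) .nil .nil))) 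
(.lf (nat_lit 37453) (.g (nat_lit 2057) (.e (nat_lit 1220) (nat_lit 90) (.e (nat_lit 81965) (nat_lit 26) (.e (nat_lit 147465) (nat_lit 9) (.e (nat_lit 334) (nat_lit 26) (.e (nat_lit 376857) (nat_lit 21) (.e (nat_lit 65280) (nat_lit 152) .nil)))))) (.g (nat_lit 5) .nil .nil)))) (.nd (nat_lit 6) 
(.lf (nat_lit 37421) (.g (nat_lit 3079) (.e (nat_lit 1220) (nat_lit 90) (.e (nat_lit 81959) (nat_lit 24) (.e (nat_lit 123185) (nat_lit 264) (.e (nat_lit 1222) (nat_lit 90) (.e (nat_lit 81948) (nat_lit 21) (.e (nat_lit 57870) (nat_lit 264) .nil)))))) (.g (nat_lit 0) .nil .nil))) 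
(.lf (nat_lit 37485) (.g (nat_lit 2830) (.e (nat_lit 1220) (nat_lit 90) (.e (nat_lit 81965) (nat_lit 26) (.e (nat_lit 147494) (nat_lit 11) (.e (nat_lit 24665) (nat_lit 14) (.e (nat_lit 401420) (nat_lit 1) (.e (nat_lit 164163) (nat_lit 152) .nil)))))) (.g (nat_lit 4) .nil .nil))))) (.nd (nat_lit 5) (.nd (nat_lit 6) 
(.lf (nat_lit 37405) (.g (nat_lit 1733) (.e (nat_lit 1220) (nat_lit 90) (.e (nat_lit 81959) (nat_lit 24) (.e (nat_lit 123182) (nat_lit 264) (.e (nat_lit 1218) (nat_lit 90) (.e (nat_lit 81950) (nat_lit 21) .nil))))) .nil)) 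
(.lf (nat_lit 37469) (.g (nat_lit 1646) (.e (nat_lit 1220) (nat_lit 90) (.e (nat_lit 81965) (nat_lit 26) (.e (nat_lit 147492) (nat_lit 11) (.e (nat_lit 24650) (nat_lit 12) (.e (nat_lit 385045) (nat_lit 21) (.e (nat_lit 4447) (nat_lit 263) .nil)))))) (.g (nat_lit 4) .nil .nil)))) (.nd (nat_lit 6) 
(.lf (nat_lit 37437) (.g (nat_lit 2419) (.e (nat_lit 1220) (nat_lit 90) (.e (nat_lit 81959) (nat_lit 24) (.e (nat_lit 123195) (nat_lit 266) (.e (nat_lit 57427) (nat_lit 15) (.e (nat_lit 360452) (nat_lit 0) (.e (nat_lit 5907) (nat_lit 320) .nil)))))) (.g (nat_lit 4) .nil .nil))) 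
(.lf (nat_lit 37501) (.g (nat_lit 2762) (.e (nat_lit 1220) (nat_lit 90) (.e (nat_lit 81965) (nat_lit 26) (.e (nat_lit 147495) (nat_lit 11) (.e (nat_lit 24640) (nat_lit 10) (.e (nat_lit 344091) (nat_lit 18) (.e (nat_lit 7236) (nat_lit 382) .nil)))))) (.g (nat_lit 4) .nil .nil)))))))) (.nd (nat_lit 2) (.nd (nat_lit 3) (.nd (nat_lit 4) (.nd (nat_lit 5) (.nd (nat_lit 6) 
(.lf (nat_lit 37379) (.g (nat_lit 4183) (.e (nat_lit 1220) (nat_lit 90) (.e (nat_lit 81956) (nat_lit 23) (.e (nat_lit 98389) (nat_lit 33) (.e (nat_lit 491563) (nat_lit 12) (.e (nat_lit 385048) (nat_lit 21) .nil))))) .nil)) 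
(.lf (nat_lit 37443) (.g (nat_lit 1682) (.e (nat_lit 1220) (nat_lit 90) (.e (nat_lit 81959) (nat_lit 24) (.e (nat_lit 123197) (nat_lit 266) (.e (nat_lit 57427) (nat_lit 15) (.e (nat_lit 360448) (nat_lit 0) .nil))))) .nil))) (.nd (nat_lit 6) 
(.lf (nat_lit 37411) (.g (nat_lit 1053) (.e (nat_lit 1220) (nat_lit 90) (.e (nat_lit 81959) (nat_lit 24) (.e (nat_lit 123182) (nat_lit 264) (.e (nat_lit 1224) (nat_lit 90) .nil)))) .nil)) 
(.lf (nat_lit 37475) (.g (nat_lit 3316) (.e (nat_lit 1220) (nat_lit 90) (.e (nat_lit 81965) (nat_lit 26) (.e (nat_lit 147492) (nat_lit 11) (.e (nat_lit 24662) (nat_lit 14) (.e (nat_lit 401422) (nat_lit 1) (.e (nat_lit 164163) (nat_lit 152) .nil)))))) (.g (nat_lit 5) .nil .nil))))) (.nd (nat_lit 5) (.nd (nat_lit 6) 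
(.lf (nat_lit 37395) (.g (nat_lit 2041) (.e (nat_lit 1220) (nat_lit 90) (.e (nat_lit 81958) (nat_lit 24) (.e (nat_lit 123182) (nat_lit 264) (.e (nat_lit 1201) (nat_lit 88) (.e (nat_lit 65610) (nat_lit 10) .nil))))) .nil)) 
(.lf (nat_lit 37459) (.g (nat_lit 1086) (.e (nat_lit 1220) (nat_lit 90) (.e (nat_lit 81965) (nat_lit 26) (.e (nat_lit 147467) (nat_lit 9) (.e (nat_lit 324) (nat_lit 24) .nil)))) .nil))) (.nd (nat_lit 6) 
(.lf (nat_lit 37427) (.g (nat_lit 2064) (.e (nat_lit 1220) (nat_lit 90) (.e (nat_lit 81959) (nat_lit 24) (.e (nat_lit 123195) (nat_lit 266) (.e (nat_lit 57423) (nat_lit 14) (.e (nat_lit 352309) (nat_lit 21) .nil))))) .nil)) 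
(.lf (nat_lit 37491) (.g (nat_lit 3498) (.e (nat_lit 1220) (nat_lit 90) (.e (nat_lit 81965) (nat_lit 26) (.e (nat_lit 147495) (nat_lit 11) (.e (nat_lit 24623) (nat_lit 9) (.e (nat_lit 335997) (nat_lit 1) (.e (nat_lit 65280) (nat_lit 152) .nil)))))) (.g (nat_lit 5) .nil .nil)))))) (.nd (nat_lit 4) (.nd (nat_lit 5) (.nd (nat_lit 6) 
(.lf (nat_lit 37387) (.g (nat_lit 1616) (.e (nat_lit 1220) (nat_lit 90) (.e (nat_lit 81957) (nat_lit 24) (.e (nat_lit 123182) (nat_lit 264) (.e (nat_lit 1222) (nat_lit 90) .nil)))) .nil)) 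
(.lf (nat_lit 37451) (.g (nat_lit 1729) (.e (nat_lit 1220) (nat_lit 90) (.e (nat_lit 81965) (nat_lit 26) (.e (nat_lit 147463) (nat_lit 9) (.e (nat_lit 312) (nat_lit 23) (.e (nat_lit 352261) (nat_lit 0) (.e (nat_lit 2440) (nat_lit 157) (.e (nat_lit 4447) (nat_lit 263) .nil))))))) (.g (nat_lit 4) .nil .nil)))) (.nd (nat_lit 6) 
(.lf (nat_lit 37419) (.g (nat_lit 3109) (.e (nat_lit 1220) (nat_lit 90) (.e (nat_lit 81959) (nat_lit 24) (.e (nat_lit 123184) (nat_lit 264) (.e (nat_lit 1222) (nat_lit 90) (.e (nat_lit 81948) (nat_lit 21) (.e (nat_lit 57873) (nat_lit 264) .nil)))))) (.g (nat_lit 5) .nil .nil))) 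
(.lf (nat_lit 37483) (.g (nat_lit 3054) (.e (nat_lit 1220) (nat_lit 90) (.e (nat_lit 81965) (nat_lit 26) (.e (nat_lit 147493) (nat_lit 11) (.e (nat_lit 24665) (nat_lit 14) (.e (nat_lit 401420) (nat_lit 1) (.e (nat_lit 164163) (nat_lit 152) .nil)))))) (.g (nat_lit 4) .nil .nil))))) (.nd (nat_lit 5) (.nd (nat_lit 6) 
(.lf (nat_lit 37403) (.g (nat_lit 4346) (.e (nat_lit 1220) (nat_lit 90) (.e (nat_lit 81959) (nat_lit 24) (.e (nat_lit 123182) (nat_lit 264) (.e (nat_lit 1201) (nat_lit 88) (.e (nat_lit 65610) (nat_lit 10) (.e (nat_lit 344097) (nat_lit 18) (.e (nat_lit 5906) (nat_lit 320) .nil))))))) (.g (nat_lit 5) .nil .nil))) 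
(.lf (nat_lit 37467) (.g (nat_lit 2319) (.e (nat_lit 1220) (nat_lit 90) (.e (nat_lit 81965) (nat_lit 26) (.e (nat_lit 147492) (nat_lit 11) (.e (nat_lit 24650) (nat_lit 12) (.e (nat_lit 385043) (nat_lit 21) (.e (nat_lit 4492) (nat_lit 263) .nil)))))) (.g (nat_lit 0) .nil .nil)))) (.nd (nat_lit 6) 
(.lf (nat_lit 37435) (.g (nat_lit 3970) (.e (nat_lit 1220) (nat_lit 90) (.e (nat_lit 81959) (nat_lit 24) (.e (nat_lit 123195) (nat_lit 266) (.e (nat_lit 57427) (nat_lit 15) (.e (nat_lit 360450) (nat_lit 0) (.e (nat_lit 7936) (nat_lit 320) .nil)))))) (.g (nat_lit 5) .nil .nil))) 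
(.lf (nat_lit 37499) (.g (nat_lit 2013) (.e (nat_lit 1220) (nat_lit 90) (.e (nat_lit 81965) (nat_lit 26) (.e (nat_lit 147495) (nat_lit 11) (.e (nat_lit 24640) (nat_lit 10) (.e (nat_lit 344089) (nat_lit 18) .nil))))) .nil)))))) (.nd (nat_lit 3) (.nd (nat_lit 4) (.nd (nat_lit 5) (.nd (nat_lit 6) 
(.lf (nat_lit 37383) (.g (nat_lit 4283) (.e (nat_lit 1220) (nat_lit 90) (.e (nat_lit 81956) (nat_lit 23) (.e (nat_lit 98389) (nat_lit 33) (.e (nat_lit 491563) (nat_lit 12) (.e (nat_lit 385050) (nat_lit 21) (.e (nat_lit 4214) (nat_lit 251) .nil)))))) (.g (nat_lit 4) .nil .nil))) 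
(.lf (nat_lit 37447) (.g (nat_lit 2162) (.e (nat_lit 1220) (nat_lit 90) (.e (nat_lit 81959) (nat_lit 24) (.e (nat_lit 123198) (nat_lit 266) (.e (nat_lit 57436) (nat_lit 17) (.e (nat_lit 376859) (nat_lit 21) (.e (nat_lit 57870) (nat_lit 264) .nil)))))) (.g (nat_lit 5) .nil .nil)))) (.nd (nat_lit 6) 
(.lf (nat_lit 37415) (.g (nat_lit 2509) (.e (nat_lit 1220) (nat_lit 90) (.e (nat_lit 81959) (nat_lit 24) (.e (nat_lit 123183) (nat_lit 264) (.e (nat_lit 1222) (nat_lit 90) (.e (nat_lit 81948) (nat_lit 21) (.e (nat_lit 57872) (nat_lit 264) .nil)))))) (.g (nat_lit 4) .nil .nil))) 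
(.lf (nat_lit 37479) (.g (nat_lit 2539) (.e (nat_lit 1220) (nat_lit 90) (.e (nat_lit 81965) (nat_lit 26) (.e (nat_lit 147492) (nat_lit 11) (.e (nat_lit 24665) (nat_lit 14) (.e (nat_lit 401421) (nat_lit 1) (.e (nat_lit 164163) (nat_lit 152) .nil)))))) (.g (nat_lit 4) .nil .nil))))) (.nd (nat_lit 5) (.nd (nat_lit 6) 
(.lf (nat_lit 37399) (.g (nat_lit 1419) (.e (nat_lit 1220) (nat_lit 90) (.e (nat_lit 81959) (nat_lit 24) (.e (nat_lit 123182) (nat_lit 264) (.e (nat_lit 1016) (nat_lit 81) .nil)))) .nil)) 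
(.lf (nat_lit 37463) (.g (nat_lit 1227) (.e (nat_lit 1220) (nat_lit 90) (.e (nat_lit 81965) (nat_lit 26) (.e (nat_lit 147492) (nat_lit 11) (.e (nat_lit 24638) (nat_lit 9) (.e (nat_lit 335892) (nat_lit 0) .nil))))) .nil))) (.nd (nat_lit 6) 
(.lf (nat_lit 37431) (.g (nat_lit 3263) (.e (nat_lit 1220) (nat_lit 90) (.e (nat_lit 81959) (nat_lit 24) (.e (nat_lit 123195) (nat_lit 266) (.e (nat_lit 57426) (nat_lit 15) (.e (nat_lit 360452) (nat_lit 0) (.e (nat_lit 5907) (nat_lit 320) .nil)))))) (.g (nat_lit 5) .nil .nil))) 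
(.lf (nat_lit 37495) (.g (nat_lit 1096) (.e (nat_lit 1220) (nat_lit 90) (.e (nat_lit 81965) (nat_lit 26) (.e (nat_lit 147495) (nat_lit 11) (.e (nat_lit 24640) (nat_lit 10) .nil)))) .nil))))) (.nd (nat_lit 4) (.nd (nat_lit 5) (.nd (nat_lit 6) 
(.lf (nat_lit 37391) (.g (nat_lit 2103) (.e (nat_lit 1220) (nat_lit 90) (.e (nat_lit 81957) (nat_lit 24) (.e (nat_lit 123184) (nat_lit 264) (.e (nat_lit 1222) (nat_lit 90) (.e (nat_lit 81948) (nat_lit 21) .nil))))) .nil)) 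
(.lf (nat_lit 37455) (.g (nat_lit 1091) (.e (nat_lit 1220) (nat_lit 90) (.e (nat_lit 81965) (nat_lit 26) (.e (nat_lit 147466) (nat_lit 9) (.e (nat_lit 321) (nat_lit 24) .nil)))) .nil))) (.nd (nat_lit 6) 
(.lf (nat_lit 37423) (.g (nat_lit 1623) (.e (nat_lit 1220) (nat_lit 90) (.e (nat_lit 81959) (nat_lit 24) (.e (nat_lit 123185) (nat_lit 264) (.e (nat_lit 1223) (nat_lit 90) (.e (nat_lit 81950) (nat_lit 21) (.e (nat_lit 57870) (nat_lit 264) .nil)))))) (.g (nat_lit 4) .nil .nil))) 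
(.lf (nat_lit 37487) (.g (nat_lit 2743) (.e (nat_lit 1220) (nat_lit 90) (.e (nat_lit 81965) (nat_lit 26) (.e (nat_lit 147494) (nat_lit 11) (.e (nat_lit 24665) (nat_lit 14) (.e (nat_lit 401421) (nat_lit 1) (.e (nat_lit 164163) (nat_lit 152) .nil)))))) (.g (nat_lit 4) .nil .nil))))) (.nd (nat_lit 5) (.nd (nat_lit 6) 
(.lf (nat_lit 37407) (.g (nat_lit 2912) (.e (nat_lit 1220) (nat_lit 90) (.e (nat_lit 81959) (nat_lit 24) (.e (nat_lit 123182) (nat_lit 264) (.e (nat_lit 1222) (nat_lit 90) (.e (nat_lit 81948) (nat_lit 21) (.e (nat_lit 57872) (nat_lit 264) .nil)))))) (.g (nat_lit 4) .nil .nil))) 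
(.lf (nat_lit 37471) (.g (nat_lit 1543) (.e (nat_lit 1220) (nat_lit 90) (.e (nat_lit 81965) (nat_lit 26) (.e (nat_lit 147492) (nat_lit 11) (.e (nat_lit 24651) (nat_lit 12) (.e (nat_lit 385047) (nat_lit 21) .nil))))) .nil))) (.nd (nat_lit 6) 
(.lf (nat_lit 37439) (.g (nat_lit 1862) (.e (nat_lit 1220) (nat_lit 90) (.e (nat_lit 81959) (nat_lit 24) (.e (nat_lit 123195) (nat_lit 266) (.e (nat_lit 57427) (nat_lit 15) (.e (nat_lit 368384) (nat_lit 0) (.e (nat_lit 5905) (nat_lit 320) .nil)))))) (.g (nat_lit 4) .nil .nil))) 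
(.lf (nat_lit 37503) (.g (nat_lit 3038) (.e (nat_lit 1220) (nat_lit 90) (.e (nat_lit 81965) (nat_lit 26) (.e (nat_lit 147495) (nat_lit 11) (.e (nat_lit 24640) (nat_lit 10) (.e (nat_lit 344096) (nat_lit 18) (.e (nat_lit 7236) (nat_lit 382) .nil)))))) (.g (nat_lit 5) .nil .nil))))))))))

noncomputable def tv522 : DT := (.nd (nat_lit 0) (.nd (nat_lit 1) (.nd (nat_lit 2) (.nd (nat_lit 3) (.nd (nat_lit 4) (.nd (nat_lit 5) 
(.lf (nat_lit 37504) (.g (nat_lit 2132) (.e (nat_lit 1220) (nat_lit 90) (.e (nat_lit 81965) (nat_lit 26) (.e (nat_lit 147495) (nat_lit 11) (.e (nat_lit 24640) (nat_lit 10) (.e (nat_lit 352000) (nat_lit 18) .nil))))) .nil)) 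
(.lf (nat_lit 37536) (.g (nat_lit 2304) (.e (nat_lit 1220) (nat_lit 90) (.e (nat_lit 81965) (nat_lit 26) (.e (nat_lit 147496) (nat_lit 11) (.e (nat_lit 24641) (nat_lit 10) (.e (nat_lit 344096) (nat_lit 18) (.e (nat_lit 7236) (nat_lit 382) .nil)))))) (.g (nat_lit 4) .nil .nil)))) (.nd (nat_lit 5) 
(.lf (nat_lit 37520) (.g (nat_lit 1340) (.e (nat_lit 1220) (nat_lit 90) (.e (nat_lit 81965) (nat_lit 26) (.e (nat_lit 147496) (nat_lit 11) (.e (nat_lit 24638) (nat_lit 9) .nil)))) .nil)) 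
(.lf (nat_lit 37552) (.g (nat_lit 1441) (.e (nat_lit 1221) (nat_lit 90) (.e (nat_lit 81926) (nat_lit 11) (.e (nat_lit 426172) (nat_lit 7) (.e (nat_lit 409649) (nat_lit 18) (.e (nat_lit 303114) (nat_lit 1) (.e (nat_lit 164163) (nat_lit 152) .nil)))))) (.g (nat_lit 4) .nil .nil))))) (.nd (nat_lit 4) (.nd (nat_lit 5) 
(.lf (nat_lit 37512) (.g (nat_lit 1127) (.e (nat_lit 1220) (nat_lit 90) (.e (nat_lit 81965) (nat_lit 26) (.e (nat_lit 147496) (nat_lit 11) (.e (nat_lit 24584) (nat_lit 0) .nil)))) .nil)) 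
(.lf (nat_lit 37544) (.g (nat_lit 1869) (.e (nat_lit 1221) (nat_lit 90) (.e (nat_lit 89856) (nat_lit 5) (.e (nat_lit 221206) (nat_lit 21) (.e (nat_lit 164330) (nat_lit 230) (.e (nat_lit 163896) (nat_lit 10) (.e (nat_lit 409628) (nat_lit 11) (.e (nat_lit 8439) (nat_lit 138) .nil))))))) (.g (nat_lit 5) .nil .nil)))) (.nd (nat_lit 5) 
(.lf (nat_lit 37528) (.g (nat_lit 4084) (.e (nat_lit 1220) (nat_lit 90) (.e (nat_lit 81965) (nat_lit 26) (.e (nat_lit 147496) (nat_lit 11) (.e (nat_lit 24640) (nat_lit 10) (.e (nat_lit 344088) (nat_lit 18) (.e (nat_lit 7237) (nat_lit 382) .nil)))))) (.g (nat_lit 0) .nil .nil))) 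
(.lf (nat_lit 37560) (.g (nat_lit 3171) (.e (nat_lit 1221) (nat_lit 90) (.e (nat_lit 81931) (nat_lit 20) (.e (nat_lit 1994) (nat_lit 137) (.e (nat_lit 663567) (nat_lit 4) (.e (nat_lit 65610) (nat_lit 10) (.e (nat_lit 344097) (nat_lit 18) (.e (nat_lit 5906) (nat_lit 320) .nil))))))) (.g (nat_lit 6) .nil .nil)))))) (.nd (nat_lit 3) (.nd (nat_lit 4) (.nd (nat_lit 5) 
(.lf (nat_lit 37508) (.g (nat_lit 3212) (.e (nat_lit 1220) (nat_lit 90) (.e (nat_lit 81965) (nat_lit 26) (.e (nat_lit 147495) (nat_lit 11) (.e (nat_lit 24665) (nat_lit 14) (.e (nat_lit 401420) (nat_lit 1) (.e (nat_lit 164163) (nat_lit 152) .nil)))))) (.g (nat_lit 5) .nil .nil))) 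
(.lf (nat_lit 37540) (.g (nat_lit 2652) (.e (nat_lit 1220) (nat_lit 90) (.e (nat_lit 81965) (nat_lit 26) (.e (nat_lit 147496) (nat_lit 11) (.e (nat_lit 24651) (nat_lit 12) (.e (nat_lit 385047) (nat_lit 21) (.e (nat_lit 4492) (nat_lit 263) .nil)))))) (.g (nat_lit 4) .nil .nil)))) (.nd (nat_lit 5) 
(.lf (nat_lit 37524) (.g (nat_lit 2801) (.e (nat_lit 1220) (nat_lit 90) (.e (nat_lit 81965) (nat_lit 26) (.e (nat_lit 147496) (nat_lit 11) (.e (nat_lit 24639) (nat_lit 10) (.e (nat_lit 344096) (nat_lit 18) (.e (nat_lit 7236) (nat_lit 382) .nil)))))) (.g (nat_lit 4) .nil .nil))) 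
(.lf (nat_lit 37556) (.g (nat_lit 2835) (.e (nat_lit 1221) (nat_lit 90) (.e (nat_lit 81931) (nat_lit 20) (.e (nat_lit 1994) (nat_lit 137) (.e (nat_lit 663567) (nat_lit 4) (.e (nat_lit 65598) (nat_lit 9) (.e (nat_lit 335997) (nat_lit 1) (.e (nat_lit 57870) (nat_lit 264) .nil))))))) (.g (nat_lit 6) .nil .nil))))) (.nd (nat_lit 4) (.nd (nat_lit 5) 
(.lf (nat_lit 37516) (.g (nat_lit 1045) (.e (nat_lit 1220) (nat_lit 90) (.e (nat_lit 81965) (nat_lit 26) (.e (nat_lit 147496) (nat_lit 11) (.e (nat_lit 24617) (nat_lit 7) .nil)))) .nil)) 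
(.lf (nat_lit 37548) (.g (nat_lit 689) (.e (nat_lit 1221) (nat_lit 90) (.e (nat_lit 89856) (nat_lit 8) (.e (nat_lit 262148) (nat_lit 0) (.e (nat_lit 1597) (nat_lit 111) (.e (nat_lit 368384) (nat_lit 0) (.e (nat_lit 5902) (nat_lit 320) .nil)))))) (.g (nat_lit 4) .nil .nil)))) (.nd (nat_lit 5) 
(.lf (nat_lit 37532) (.g (nat_lit 2711) (.e (nat_lit 1220) (nat_lit 90) (.e (nat_lit 81965) (nat_lit 26) (.e (nat_lit 147496) (nat_lit 11) (.e (nat_lit 24640) (nat_lit 10) (.e (nat_lit 344093) (nat_lit 18) .nil))))) .nil)) 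
(.lf (nat_lit 37564) (.g (nat_lit 1954) (.e (nat_lit 1221) (nat_lit 90) (.e (nat_lit 81931) (nat_lit 20) (.e (nat_lit 1998) (nat_lit 137) (.e (nat_lit 663554) (nat_lit 0) (.e (nat_lit 1595) (nat_lit 111) (.e (nat_lit 368384) (nat_lit 0) (.e (nat_lit 5905) (nat_lit 320) .nil))))))) (.g (nat_lit 5) .nil .nil))))))) (.nd (nat_lit 2) (.nd (nat_lit 3) (.nd (nat_lit 4) (.nd (nat_lit 5) 
(.lf (nat_lit 37506) (.g (nat_lit 2166) (.e (nat_lit 1220) (nat_lit 90) (.e (nat_lit 81965) (nat_lit 26) (.e (nat_lit 147495) (nat_lit 11) (.e (nat_lit 24651) (nat_lit 12) (.e (nat_lit 385047) (nat_lit 21) .nil))))) .nil)) 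
(.lf (nat_lit 37538) (.g (nat_lit 1551) (.e (nat_lit 1220) (nat_lit 90) (.e (nat_lit 81965) (nat_lit 26) (.e (nat_lit 147496) (nat_lit 11) (.e (nat_lit 24651) (nat_lit 12) .nil)))) .nil))) (.nd (nat_lit 5) 
(.lf (nat_lit 37522) (.g (nat_lit 1397) (.e (nat_lit 1220) (nat_lit 90) (.e (nat_lit 81965) (nat_lit 26) (.e (nat_lit 147496) (nat_lit 11) (.e (nat_lit 24639) (nat_lit 10) .nil)))) .nil)) 
(.lf (nat_lit 37554) (.g (nat_lit 2619) (.e (nat_lit 1221) (nat_lit 90) (.e (nat_lit 81926) (nat_lit 11) (.e (nat_lit 426338) (nat_lit 14) (.e (nat_lit 491566) (nat_lit 12) (.e (nat_lit 385045) (nat_lit 21) (.e (nat_lit 4439) (nat_lit 263) .nil)))))) (.g (nat_lit 4) .nil .nil))))) (.nd (nat_lit 4) (.nd (nat_lit 5) 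
(.lf (nat_lit 37514) (.g (nat_lit 2404) (.e (nat_lit 1220) (nat_lit 90) (.e (nat_lit 81965) (nat_lit 26) (.e (nat_lit 147496) (nat_lit 11) (.e (nat_lit 24584) (nat_lit 0) (.e (nat_lit 6212) (nat_lit 333) (.e (nat_lit 57584) (nat_lit 61) (.e (nat_lit 6298) (nat_lit 337) .nil))))))) (.g (nat_lit 4) .nil .nil))) 
(.lf (nat_lit 37546) (.g (nat_lit 680) (.e (nat_lit 1221) (nat_lit 90) (.e (nat_lit 89856) (nat_lit 8) (.e (nat_lit 262145) (nat_lit 0) (.e (nat_lit 1597) (nat_lit 111) (.e (nat_lit 368384) (nat_lit 0) (.e (nat_lit 5909) (nat_lit 320) .nil)))))) (.g (nat_lit 4) .nil .nil)))) (.nd (nat_lit 5) 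
(.lf (nat_lit 37530) (.g (nat_lit 3562) (.e (nat_lit 1220) (nat_lit 90) (.e (nat_lit 81965) (nat_lit 26) (.e (nat_lit 147496) (nat_lit 11) (.e (nat_lit 24640) (nat_lit 10) (.e (nat_lit 344090) (nat_lit 18) (.e (nat_lit 7236) (nat_lit 382) .nil)))))) (.g (nat_lit 5) .nil .nil))) 
(.lf (nat_lit 37562) (.g (nat_lit 2234) (.e (nat_lit 1221) (nat_lit 90) (.e (nat_lit 81931) (nat_lit 20) (.e (nat_lit 1998) (nat_lit 137) (.e (nat_lit 663554) (nat_lit 0) (.e (nat_lit 1589) (nat_lit 111) (.e (nat_lit 368384) (nat_lit 0) (.e (nat_lit 5905) (nat_lit 320) .nil))))))) (.g (nat_lit 5) .nil .nil)))))) (.nd (nat_lit 3) (.nd (nat_lit 4) (.nd (nat_lit 5) 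
(.lf (nat_lit 37510) (.g (nat_lit 3162) (.e (nat_lit 1220) (nat_lit 90) (.e (nat_lit 81965) (nat_lit 26) (.e (nat_lit 147495) (nat_lit 11) (.e (nat_lit 24665) (nat_lit 14) (.e (nat_lit 401421) (nat_lit 1) (.e (nat_lit 164163) (nat_lit 152) .nil)))))) (.g (nat_lit 4) .nil .nil))) 
(.lf (nat_lit 37542) (.g (nat_lit 2166) (.e (nat_lit 1220) (nat_lit 90) (.e (nat_lit 81965) (nat_lit 26) (.e (nat_lit 147500) (nat_lit 12) (.e (nat_lit 164020) (nat_lit 45) (.e (nat_lit 696344) (nat_lit 8) (.e (nat_lit 172061) (nat_lit 1) (.e (nat_lit 164163) (nat_lit 152) .nil))))))) (.g (nat_lit 4) .nil .nil)))) (.nd (nat_lit 5) 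
(.lf (nat_lit 37526) (.g (nat_lit 2152) (.e (nat_lit 1220) (nat_lit 90) (.e (nat_lit 81965) (nat_lit 26) (.e (nat_lit 147496) (nat_lit 11) (.e (nat_lit 24640) (nat_lit 10) (.e (nat_lit 344088) (nat_lit 18) .nil))))) .nil)) 
(.lf (nat_lit 37558) (.g (nat_lit 2807) (.e (nat_lit 1221) (nat_lit 90) (.e (nat_lit 81931) (nat_lit 20) (.e (nat_lit 1994) (nat_lit 137) (.e (nat_lit 663567) (nat_lit 4) (.e (nat_lit 65604) (nat_lit 9) (.e (nat_lit 335997) (nat_lit 1) (.e (nat_lit 57870) (nat_lit 264) .nil))))))) (.g (nat_lit 7) .nil .nil))))) (.nd (nat_lit 4) (.nd (nat_lit 5) 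
(.lf (nat_lit 37518) (.g (nat_lit 2108) (.e (nat_lit 1220) (nat_lit 90) (.e (nat_lit 81965) (nat_lit 26) (.e (nat_lit 147496) (nat_lit 11) (.e (nat_lit 24617) (nat_lit 7) (.e (nat_lit 319515) (nat_lit 11) (.e (nat_lit 8544) (nat_lit 230) .nil)))))) (.g (nat_lit 4) .nil .nil))) 
(.lf (nat_lit 37550) (.g (nat_lit 2112) (.e (nat_lit 1221) (nat_lit 90) (.e (nat_lit 89856) (nat_lit 9) (.e (nat_lit 409603) (nat_lit 0) (.e (nat_lit 5293) (nat_lit 298) (.e (nat_lit 1633) (nat_lit 114) (.e (nat_lit 385047) (nat_lit 21) (.e (nat_lit 4491) (nat_lit 263) .nil))))))) (.g (nat_lit 5) .nil .nil)))) (.nd (nat_lit 5) 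
(.lf (nat_lit 37534) (.g (nat_lit 2464) (.e (nat_lit 1220) (nat_lit 90) (.e (nat_lit 81965) (nat_lit 26) (.e (nat_lit 147496) (nat_lit 11) (.e (nat_lit 24640) (nat_lit 10) (.e (nat_lit 352000) (nat_lit 18) .nil))))) .nil)) 
(.lf (nat_lit 37566) (.g (nat_lit 3618) (.e (nat_lit 1221) (nat_lit 90) (.e (nat_lit 81931) (nat_lit 20) (.e (nat_lit 1999) (nat_lit 137) (.e (nat_lit 663567) (nat_lit 4) (.e (nat_lit 65619) (nat_lit 10) (.e (nat_lit 344097) (nat_lit 18) (.e (nat_lit 5907) (nat_lit 320) .nil))))))) (.g (nat_lit 0) .nil .nil)))))))) 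
(.nd (nat_lit 1) (.nd (nat_lit 2) (.nd (nat_lit 3) (.nd (nat_lit 4) (.nd (nat_lit 5) 
(.lf (nat_lit 37505) (.g (nat_lit 2458) (.e (nat_lit 1220) (nat_lit 90) (.e (nat_lit 81965) (nat_lit 26) (.e (nat_lit 147495) (nat_lit 11) (.e (nat_lit 24647) (nat_lit 12) (.e (nat_lit 385046) (nat_lit 21) (.e (nat_lit 4492) (nat_lit 263) .nil)))))) (.g (nat_lit 5) .nil .nil))) 
(.lf (nat_lit 37537) (.g (nat_lit 1512) (.e (nat_lit 1220) (nat_lit 90) (.e (nat_lit 81965) (nat_lit 26) (.e (nat_lit 147496) (nat_lit 11) (.e (nat_lit 24648) (nat_lit 12) .nil)))) .nil))) (.nd (nat_lit 5) 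
(.lf (nat_lit 37521) (.g (nat_lit 2202) (.e (nat_lit 1220) (nat_lit 90) (.e (nat_lit 81965) (nat_lit 26) (.e (nat_lit 147496) (nat_lit 11) (.e (nat_lit 24638) (nat_lit 9) (.e (nat_lit 335988) (nat_lit 1) (.e (nat_lit 65280) (nat_lit 152) .nil)))))) (.g (nat_lit 4) .nil .nil))) 
(.lf (nat_lit 37553) (.g (nat_lit 1876) (.e (nat_lit 1221) (nat_lit 90) (.e (nat_lit 81926) (nat_lit 11) (.e (nat_lit 426172) (nat_lit 7) (.e (nat_lit 409649) (nat_lit 18) (.e (nat_lit 303120) (nat_lit 4) (.e (nat_lit 229544) (nat_lit 152) .nil)))))) (.g (nat_lit 4) .nil .nil))))) (.nd (nat_lit 4) (.nd (nat_lit 5) 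
(.lf (nat_lit 37513) (.g (nat_lit 2449) (.e (nat_lit 1220) (nat_lit 90) (.e (nat_lit 81965) (nat_lit 26) (.e (nat_lit 147496) (nat_lit 11) (.e (nat_lit 24584) (nat_lit 0) (.e (nat_lit 6113) (nat_lit 332) (.e (nat_lit 1109) (nat_lit 82) (.e (nat_lit 8544) (nat_lit 230) .nil))))))) (.g (nat_lit 4) .nil .nil))) 
(.lf (nat_lit 37545) (.g (nat_lit 1853) (.e (nat_lit 1221) (nat_lit 90) (.e (nat_lit 89856) (nat_lit 5) (.e (nat_lit 221208) (nat_lit 21) (.e (nat_lit 164330) (nat_lit 230) (.e (nat_lit 163896) (nat_lit 10) (.e (nat_lit 409628) (nat_lit 11) (.e (nat_lit 8439) (nat_lit 138) .nil))))))) (.g (nat_lit 5) .nil .nil)))) (.nd (nat_lit 5) 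
(.lf (nat_lit 37529) (.g (nat_lit 2214) (.e (nat_lit 1220) (nat_lit 90) (.e (nat_lit 81965) (nat_lit 26) (.e (nat_lit 147496) (nat_lit 11) (.e (nat_lit 24640) (nat_lit 10) (.e (nat_lit 344089) (nat_lit 18) .nil))))) .nil)) 
(.lf (nat_lit 37561) (.g (nat_lit 3729) (.e (nat_lit 1221) (nat_lit 90) (.e (nat_lit 81931) (nat_lit 20) (.e (nat_lit 1994) (nat_lit 137) (.e (nat_lit 663567) (nat_lit 4) (.e (nat_lit 65619) (nat_lit 10) (.e (nat_lit 344097) (nat_lit 18) (.e (nat_lit 5907) (nat_lit 320) .nil))))))) (.g (nat_lit 0) .nil .nil)))))) (.nd (nat_lit 3) (.nd (nat_lit 4) (.nd (nat_lit 5) 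
(.lf (nat_lit 37509) (.g (nat_lit 3044) (.e (nat_lit 1220) (nat_lit 90) (.e (nat_lit 81965) (nat_lit 26) (.e (nat_lit 147495) (nat_lit 11) (.e (nat_lit 24665) (nat_lit 14) (.e (nat_lit 401421) (nat_lit 1) (.e (nat_lit 164162) (nat_lit 152) .nil)))))) (.g (nat_lit 4) .nil .nil))) 
(.lf (nat_lit 37541) (.g (nat_lit 3888) (.e (nat_lit 1220) (nat_lit 90) (.e (nat_lit 81965) (nat_lit 26) (.e (nat_lit 147499) (nat_lit 12) (.e (nat_lit 164020) (nat_lit 45) (.e (nat_lit 696344) (nat_lit 8) (.e (nat_lit 172061) (nat_lit 1) (.e (nat_lit 164163) (nat_lit 152) .nil))))))) (.g (nat_lit 5) .nil .nil)))) (.nd (nat_lit 5) 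
(.lf (nat_lit 37525) (.g (nat_lit 3330) (.e (nat_lit 1220) (nat_lit 90) (.e (nat_lit 81965) (nat_lit 26) (.e (nat_lit 147496) (nat_lit 11) (.e (nat_lit 24640) (nat_lit 10) (.e (nat_lit 344087) (nat_lit 18) (.e (nat_lit 7237) (nat_lit 382) .nil)))))) (.g (nat_lit 4) .nil .nil))) 
(.lf (nat_lit 37557) (.g (nat_lit 1751) (.e (nat_lit 1221) (nat_lit 90) (.e (nat_lit 81931) (nat_lit 20) (.e (nat_lit 1994) (nat_lit 137) (.e (nat_lit 663567) (nat_lit 4) (.e (nat_lit 65598) (nat_lit 9) (.e (nat_lit 335997) (nat_lit 1) (.e (nat_lit 57871) (nat_lit 264) .nil))))))) (.g (nat_lit 4) .nil .nil))))) (.nd (nat_lit 4) (.nd (nat_lit 5) 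
(.lf (nat_lit 37517) (.g (nat_lit 2254) (.e (nat_lit 1220) (nat_lit 90) (.e (nat_lit 81965) (nat_lit 26) (.e (nat_lit 147496) (nat_lit 11) (.e (nat_lit 24617) (nat_lit 7) (.e (nat_lit 319514) (nat_lit 11) (.e (nat_lit 8544) (nat_lit 230) .nil)))))) (.g (nat_lit 4) .nil .nil))) 
(.lf (nat_lit 37549) (.g (nat_lit 762) (.e (nat_lit 1221) (nat_lit 90) (.e (nat_lit 89856) (nat_lit 8) (.e (nat_lit 262148) (nat_lit 0) (.e (nat_lit 1597) (nat_lit 111) (.e (nat_lit 368384) (nat_lit 0) (.e (nat_lit 5909) (nat_lit 320) .nil)))))) (.g (nat_lit 4) .nil .nil)))) (.nd (nat_lit 5) 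
(.lf (nat_lit 37533) (.g (nat_lit 3483) (.e (nat_lit 1220) (nat_lit 90) (.e (nat_lit 81965) (nat_lit 26) (.e (nat_lit 147496) (nat_lit 11) (.e (nat_lit 24640) (nat_lit 10) (.e (nat_lit 344096) (nat_lit 18) (.e (nat_lit 7236) (nat_lit 382) .nil)))))) (.g (nat_lit 5) .nil .nil))) 
(.lf (nat_lit 37565) (.g (nat_lit 3515) (.e (nat_lit 1221) (nat_lit 90) (.e (nat_lit 81931) (nat_lit 20) (.e (nat_lit 1998) (nat_lit 137) (.e (nat_lit 663567) (nat_lit 4) (.e (nat_lit 65619) (nat_lit 10) (.e (nat_lit 344097) (nat_lit 18) (.e (nat_lit 5907) (nat_lit 320) .nil))))))) (.g (nat_lit 0) .nil .nil))))))) (.nd (nat_lit 2) (.nd (nat_lit 3) (.nd (nat_lit 4) (.nd (nat_lit 5) 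
(.lf (nat_lit 37507) (.g (nat_lit 2448) (.e (nat_lit 1220) (nat_lit 90) (.e (nat_lit 81965) (nat_lit 26) (.e (nat_lit 147495) (nat_lit 11) (.e (nat_lit 24665) (nat_lit 14) (.e (nat_lit 401420) (nat_lit 1) (.e (nat_lit 164162) (nat_lit 152) .nil)))))) (.g (nat_lit 4) .nil .nil))) 
(.lf (nat_lit 37539) (.g (nat_lit 2612) (.e (nat_lit 1220) (nat_lit 90) (.e (nat_lit 81965) (nat_lit 26) (.e (nat_lit 147496) (nat_lit 11) (.e (nat_lit 24651) (nat_lit 12) (.e (nat_lit 385045) (nat_lit 21) .nil))))) .nil))) (.nd (nat_lit 5) 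
(.lf (nat_lit 37523) (.g (nat_lit 3170) (.e (nat_lit 1220) (nat_lit 90) (.e (nat_lit 81965) (nat_lit 26) (.e (nat_lit 147496) (nat_lit 11) (.e (nat_lit 24639) (nat_lit 10) (.e (nat_lit 344090) (nat_lit 18) (.e (nat_lit 7236) (nat_lit 382) .nil)))))) (.g (nat_lit 5) .nil .nil))) 
(.lf (nat_lit 37555) (.g (nat_lit 1122) (.e (nat_lit 1221) (nat_lit 90) (.e (nat_lit 89856) (nat_lit 19) (.e (nat_lit 491585) (nat_lit 29) (.e (nat_lit 442421) (nat_lit 21) (.e (nat_lit 171776) (nat_lit 122) .nil))))) (.g (nat_lit 4) .nil .nil))))) (.nd (nat_lit 4) (.nd (nat_lit 5) 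
(.lf (nat_lit 37515) (.g (nat_lit 2398) (.e (nat_lit 1220) (nat_lit 90) (.e (nat_lit 81965) (nat_lit 26) (.e (nat_lit 147496) (nat_lit 11) (.e (nat_lit 24584) (nat_lit 0) (.e (nat_lit 6212) (nat_lit 333) (.e (nat_lit 57584) (nat_lit 61) (.e (nat_lit 6320) (nat_lit 337) .nil))))))) (.g (nat_lit 4) .nil .nil))) 
(.lf (nat_lit 37547) (.g (nat_lit 840) (.e (nat_lit 1221) (nat_lit 90) (.e (nat_lit 89856) (nat_lit 8) (.e (nat_lit 262146) (nat_lit 0) (.e (nat_lit 1582) (nat_lit 111) (.e (nat_lit 368384) (nat_lit 0) (.e (nat_lit 5902) (nat_lit 320) .nil)))))) (.g (nat_lit 4) .nil .nil)))) (.nd (nat_lit 5) 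
(.lf (nat_lit 37531) (.g (nat_lit 3044) (.e (nat_lit 1220) (nat_lit 90) (.e (nat_lit 81965) (nat_lit 26) (.e (nat_lit 147496) (nat_lit 11) (.e (nat_lit 24640) (nat_lit 10) (.e (nat_lit 344091) (nat_lit 18) (.e (nat_lit 7236) (nat_lit 382) .nil)))))) (.g (nat_lit 4) .nil .nil))) 
(.lf (nat_lit 37563) (.g (nat_lit 1869) (.e (nat_lit 1221) (nat_lit 90) (.e (nat_lit 81931) (nat_lit 20) (.e (nat_lit 1998) (nat_lit 137) (.e (nat_lit 663554) (nat_lit 0) (.e (nat_lit 1589) (nat_lit 111) (.e (nat_lit 368384) (nat_lit 0) (.e (nat_lit 5906) (nat_lit 320) .nil))))))) (.g (nat_lit 5) .nil .nil)))))) (.nd (nat_lit 3) (.nd (nat_lit 4) (.nd (nat_lit 5) 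
(.lf (nat_lit 37511) (.g (nat_lit 456) (.e (nat_lit 1220) (nat_lit 90) (.e (nat_lit 81965) (nat_lit 26) (.e (nat_lit 147496) (nat_lit 11) .nil))) .nil)) 
(.lf (nat_lit 37543) (.g (nat_lit 2039) (.e (nat_lit 1221) (nat_lit 90) (.e (nat_lit 81922) (nat_lit 0) (.e (nat_lit 3748) (nat_lit 228) (.e (nat_lit 786483) (nat_lit 30) (.e (nat_lit 360454) (nat_lit 0) (.e (nat_lit 5907) (nat_lit 320) .nil)))))) (.g (nat_lit 4) .nil .nil)))) (.nd (nat_lit 5) 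
(.lf (nat_lit 37527) (.g (nat_lit 3135) (.e (nat_lit 1220) (nat_lit 90) (.e (nat_lit 81965) (nat_lit 26) (.e (nat_lit 147496) (nat_lit 11) (.e (nat_lit 24640) (nat_lit 10) (.e (nat_lit 344088) (nat_lit 18) (.e (nat_lit 7236) (nat_lit 382) .nil)))))) (.g (nat_lit 4) .nil .nil))) 
(.lf (nat_lit 37559) (.g (nat_lit 1758) (.e (nat_lit 1221) (nat_lit 90) (.e (nat_lit 81931) (nat_lit 20) (.e (nat_lit 1994) (nat_lit 137) (.e (nat_lit 663567) (nat_lit 4) (.e (nat_lit 65604) (nat_lit 9) (.e (nat_lit 335997) (nat_lit 1) (.e (nat_lit 57871) (nat_lit 264) .nil))))))) (.g (nat_lit 4) .nil .nil))))) (.nd (nat_lit 4) (.nd (nat_lit 5) 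
(.lf (nat_lit 37519) (.g (nat_lit 2646) (.e (nat_lit 1220) (nat_lit 90) (.e (nat_lit 81965) (nat_lit 26) (.e (nat_lit 147496) (nat_lit 11) (.e (nat_lit 24617) (nat_lit 7) (.e (nat_lit 319516) (nat_lit 11) (.e (nat_lit 8544) (nat_lit 230) .nil)))))) (.g (nat_lit 4) .nil .nil))) 
(.lf (nat_lit 37551) (.g (nat_lit 1366) (.e (nat_lit 1221) (nat_lit 90) (.e (nat_lit 81926) (nat_lit 11) (.e (nat_lit 426172) (nat_lit 7) (.e (nat_lit 409648) (nat_lit 18) (.e (nat_lit 303114) (nat_lit 1) (.e (nat_lit 164163) (nat_lit 152) .nil)))))) (.g (nat_lit 4) .nil .nil)))) (.nd (nat_lit 5) 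
(.lf (nat_lit 37535) (.g (nat_lit 2485) (.e (nat_lit 1220) (nat_lit 90) (.e (nat_lit 81965) (nat_lit 26) (.e (nat_lit 147496) (nat_lit 11) (.e (nat_lit 24641) (nat_lit 10) (.e (nat_lit 344091) (nat_lit 18) (.e (nat_lit 7236) (nat_lit 382) .nil)))))) (.g (nat_lit 4) .nil .nil))) 
(.lf (nat_lit 37567) (.g (nat_lit 289) (.e (nat_lit 1221) (nat_lit 90) (.e (nat_lit 81937) (nat_lit 20) (.e (nat_lit 1832) (nat_lit 122) .nil))) .nil))))))))

noncomputable def tv523 : DT := (.nd (nat_lit 0) (.nd (nat_lit 1) (.nd (nat_lit 2) (.nd (nat_lit 3) (.nd (nat_lit 4) (.nd (nat_lit 5) 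
(.lf (nat_lit 37568) (.g (nat_lit 500) (.e (nat_lit 1221) (nat_lit 90) (.e (nat_lit 81938) (nat_lit 20) (.e (nat_lit 991) (nat_lit 81) .nil))) .nil)) 
(.lf (nat_lit 37600) (.g (nat_lit 1452) (.e (nat_lit 1221) (nat_lit 90) (.e (nat_lit 81938) (nat_lit 20) (.e (nat_lit 2003) (nat_lit 138) (.e (nat_lit 671747) (nat_lit 0) (.e (nat_lit 1592) (nat_lit 111) .nil))))) .nil))) (.nd (nat_lit 5) 
(.lf (nat_lit 37584) (.g (nat_lit 1747) (.e (nat_lit 1221) (nat_lit 90) (.e (nat_lit 81938) (nat_lit 20) (.e (nat_lit 1962) (nat_lit 134) (.e (nat_lit 638985) (nat_lit 5) (.e (nat_lit 3022) (nat_lit 187) (.e (nat_lit 458496) (nat_lit 0) (.e (nat_lit 5116) (nat_lit 292) .nil))))))) (.g (nat_lit 5) .nil .nil))) 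
(.lf (nat_lit 37616) (.g (nat_lit 1424) (.e (nat_lit 1221) (nat_lit 90) (.e (nat_lit 81938) (nat_lit 20) (.e (nat_lit 2005) (nat_lit 138) (.e (nat_lit 671747) (nat_lit 0) (.e (nat_lit 1595) (nat_lit 111) (.e (nat_lit 368384) (nat_lit 0) (.e (nat_lit 5902) (nat_lit 320) .nil))))))) (.g (nat_lit 4) .nil .nil))))) (.nd (nat_lit 4) (.nd (nat_lit 5) 
(.lf (nat_lit 37576) (.g (nat_lit 1815) (.e (nat_lit 1221) (nat_lit 90) (.e (nat_lit 81938) (nat_lit 20) (.e (nat_lit 1886) (nat_lit 127) (.e (nat_lit 581653) (nat_lit 6) (.e (nat_lit 188455) (nat_lit 24) (.e (nat_lit 237312) (nat_lit 158) .nil)))))) (.g (nat_lit 4) .nil .nil))) 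
(.lf (nat_lit 37608) (.g (nat_lit 3547) (.e (nat_lit 1221) (nat_lit 90) (.e (nat_lit 81938) (nat_lit 20) (.e (nat_lit 2003) (nat_lit 138) (.e (nat_lit 671762) (nat_lit 4) (.e (nat_lit 65604) (nat_lit 9) (.e (nat_lit 335997) (nat_lit 1) (.e (nat_lit 57872) (nat_lit 264) .nil))))))) (.g (nat_lit 0) .nil .nil)))) (.nd (nat_lit 5) 
(.lf (nat_lit 37592) (.g (nat_lit 1997) (.e (nat_lit 1221) (nat_lit 90) (.e (nat_lit 81938) (nat_lit 20) (.e (nat_lit 1963) (nat_lit 134) (.e (nat_lit 638986) (nat_lit 5) (.e (nat_lit 3015) (nat_lit 187) (.e (nat_lit 458496) (nat_lit 0) (.e (nat_lit 5116) (nat_lit 292) .nil))))))) (.g (nat_lit 5) .nil .nil))) 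
(.lf (nat_lit 37624) (.g (nat_lit 3396) (.e (nat_lit 1221) (nat_lit 90) (.e (nat_lit 81938) (nat_lit 20) (.e (nat_lit 2005) (nat_lit 138) (.e (nat_lit 671762) (nat_lit 4) (.e (nat_lit 65598) (nat_lit 9) (.e (nat_lit 335997) (nat_lit 1) (.e (nat_lit 57870) (nat_lit 264) .nil))))))) (.g (nat_lit 7) .nil .nil)))))) (.nd (nat_lit 3) (.nd (nat_lit 4) (.nd (nat_lit 5) 
(.lf (nat_lit 37572) (.g (nat_lit 2052) (.e (nat_lit 1221) (nat_lit 90) (.e (nat_lit 81938) (nat_lit 20) (.e (nat_lit 1885) (nat_lit 127) (.e (nat_lit 581636) (nat_lit 0) (.e (nat_lit 3015) (nat_lit 187) (.e (nat_lit 458496) (nat_lit 0) (.e (nat_lit 6807) (nat_lit 365) .nil))))))) (.g (nat_lit 5) .nil .nil))) 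
(.lf (nat_lit 37604) (.g (nat_lit 2169) (.e (nat_lit 1221) (nat_lit 90) (.e (nat_lit 81938) (nat_lit 20) (.e (nat_lit 2003) (nat_lit 138) (.e (nat_lit 671762) (nat_lit 4) (.e (nat_lit 65598) (nat_lit 9) (.e (nat_lit 335997) (nat_lit 1) (.e (nat_lit 57871) (nat_lit 264) .nil))))))) (.g (nat_lit 4) .nil .nil)))) (.nd (nat_lit 5) 
(.lf (nat_lit 37588) (.g (nat_lit 2911) (.e (nat_lit 1221) (nat_lit 90) (.e (nat_lit 81938) (nat_lit 20) (.e (nat_lit 1962) (nat_lit 134) (.e (nat_lit 638998) (nat_lit 8) (.e (nat_lit 172120) (nat_lit 12) (.e (nat_lit 475161) (nat_lit 21) (.e (nat_lit 6264) (nat_lit 337) .nil))))))) (.g (nat_lit 5) .nil .nil))) 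
(.lf (nat_lit 37620) (.g (nat_lit 1954) (.e (nat_lit 1221) (nat_lit 90) (.e (nat_lit 81938) (nat_lit 20) (.e (nat_lit 2005) (nat_lit 138) (.e (nat_lit 671748) (nat_lit 0) (.e (nat_lit 1595) (nat_lit 111) (.e (nat_lit 368384) (nat_lit 0) (.e (nat_lit 5902) (nat_lit 320) .nil))))))) (.g (nat_lit 5) .nil .nil))))) (.nd (nat_lit 4) (.nd (nat_lit 5) 
(.lf (nat_lit 37580) (.g (nat_lit 2583) (.e (nat_lit 1221) (nat_lit 90) (.e (nat_lit 81938) (nat_lit 20) (.e (nat_lit 1960) (nat_lit 134) (.e (nat_lit 638998) (nat_lit 8) (.e (nat_lit 172120) (nat_lit 12) (.e (nat_lit 475162) (nat_lit 21) (.e (nat_lit 6264) (nat_lit 337) .nil))))))) (.g (nat_lit 5) .nil .nil))) 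
(.lf (nat_lit 37612) (.g (nat_lit 2398) (.e (nat_lit 1221) (nat_lit 90) (.e (nat_lit 81938) (nat_lit 20) (.e (nat_lit 2003) (nat_lit 138) (.e (nat_lit 671764) (nat_lit 6) (.e (nat_lit 81948) (nat_lit 21) (.e (nat_lit 57870) (nat_lit 264) .nil)))))) (.g (nat_lit 0) .nil .nil)))) (.nd (nat_lit 5) 
(.lf (nat_lit 37596) (.g (nat_lit 1573) (.e (nat_lit 1221) (nat_lit 90) (.e (nat_lit 81938) (nat_lit 20) (.e (nat_lit 1963) (nat_lit 134) (.e (nat_lit 638986) (nat_lit 5) (.e (nat_lit 3027) (nat_lit 187) (.e (nat_lit 458496) (nat_lit 0) (.e (nat_lit 5156) (nat_lit 292) .nil))))))) (.g (nat_lit 4) .nil .nil))) 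
(.lf (nat_lit 37628) (.g (nat_lit 3531) (.e (nat_lit 1221) (nat_lit 90) (.e (nat_lit 81938) (nat_lit 20) (.e (nat_lit 2005) (nat_lit 138) (.e (nat_lit 671762) (nat_lit 4) (.e (nat_lit 65604) (nat_lit 9) (.e (nat_lit 335997) (nat_lit 1) (.e (nat_lit 57872) (nat_lit 264) .nil))))))) (.g (nat_lit 0) .nil .nil))))))) (.nd (nat_lit 2) (.nd (nat_lit 3) (.nd (nat_lit 4) (.nd (nat_lit 5) 
(.lf (nat_lit 37570) (.g (nat_lit 500) (.e (nat_lit 1221) (nat_lit 90) (.e (nat_lit 81938) (nat_lit 20) (.e (nat_lit 1039) (nat_lit 81) .nil))) .nil)) 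
(.lf (nat_lit 37602) (.g (nat_lit 1904) (.e (nat_lit 1221) (nat_lit 90) (.e (nat_lit 81938) (nat_lit 20) (.e (nat_lit 2003) (nat_lit 138) (.e (nat_lit 671747) (nat_lit 0) (.e (nat_lit 1595) (nat_lit 111) (.e (nat_lit 368384) (nat_lit 0) (.e (nat_lit 5906) (nat_lit 320) .nil))))))) (.g (nat_lit 4) .nil .nil)))) (.nd (nat_lit 5) 
(.lf (nat_lit 37586) (.g (nat_lit 3299) (.e (nat_lit 1221) (nat_lit 90) (.e (nat_lit 81938) (nat_lit 20) (.e (nat_lit 1962) (nat_lit 134) (.e (nat_lit 638998) (nat_lit 8) (.e (nat_lit 172120) (nat_lit 12) (.e (nat_lit 475155) (nat_lit 21) (.e (nat_lit 6264) (nat_lit 337) .nil))))))) (.g (nat_lit 5) .nil .nil))) 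
(.lf (nat_lit 37618) (.g (nat_lit 1608) (.e (nat_lit 1221) (nat_lit 90) (.e (nat_lit 81938) (nat_lit 20) (.e (nat_lit 2005) (nat_lit 138) (.e (nat_lit 671748) (nat_lit 0) (.e (nat_lit 1586) (nat_lit 111) (.e (nat_lit 368384) (nat_lit 0) (.e (nat_lit 5909) (nat_lit 320) .nil))))))) (.g (nat_lit 4) .nil .nil))))) (.nd (nat_lit 4) (.nd (nat_lit 5) 
(.lf (nat_lit 37578) (.g (nat_lit 2466) (.e (nat_lit 1221) (nat_lit 90) (.e (nat_lit 81938) (nat_lit 20) (.e (nat_lit 1960) (nat_lit 134) (.e (nat_lit 638998) (nat_lit 8) (.e (nat_lit 172120) (nat_lit 12) (.e (nat_lit 475160) (nat_lit 21) (.e (nat_lit 6264) (nat_lit 337) .nil))))))) (.g (nat_lit 5) .nil .nil))) 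
(.lf (nat_lit 37610) (.g (nat_lit 3499) (.e (nat_lit 1221) (nat_lit 90) (.e (nat_lit 81938) (nat_lit 20) (.e (nat_lit 2003) (nat_lit 138) (.e (nat_lit 671762) (nat_lit 4) (.e (nat_lit 65619) (nat_lit 10) (.e (nat_lit 344097) (nat_lit 18) (.e (nat_lit 5906) (nat_lit 320) .nil))))))) (.g (nat_lit 0) .nil .nil)))) (.nd (nat_lit 5) 
(.lf (nat_lit 37594) (.g (nat_lit 1701) (.e (nat_lit 1221) (nat_lit 90) (.e (nat_lit 81938) (nat_lit 20) (.e (nat_lit 1963) (nat_lit 134) (.e (nat_lit 638986) (nat_lit 5) (.e (nat_lit 3027) (nat_lit 187) (.e (nat_lit 450567) (nat_lit 0) (.e (nat_lit 5152) (nat_lit 292) .nil))))))) (.g (nat_lit 4) .nil .nil))) 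
(.lf (nat_lit 37626) (.g (nat_lit 3280) (.e (nat_lit 1221) (nat_lit 90) (.e (nat_lit 81938) (nat_lit 20) (.e (nat_lit 2005) (nat_lit 138) (.e (nat_lit 671762) (nat_lit 4) (.e (nat_lit 65604) (nat_lit 9) (.e (nat_lit 335997) (nat_lit 1) (.e (nat_lit 57870) (nat_lit 264) .nil))))))) (.g (nat_lit 0) .nil .nil)))))) (.nd (nat_lit 3) (.nd (nat_lit 4) (.nd (nat_lit 5) 
(.lf (nat_lit 37574) (.g (nat_lit 453) (.e (nat_lit 1221) (nat_lit 90) (.e (nat_lit 81938) (nat_lit 20) (.e (nat_lit 1886) (nat_lit 127) .nil))) .nil)) 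
(.lf (nat_lit 37606) (.g (nat_lit 3306) (.e (nat_lit 1221) (nat_lit 90) (.e (nat_lit 81938) (nat_lit 20) (.e (nat_lit 2003) (nat_lit 138) (.e (nat_lit 671762) (nat_lit 4) (.e (nat_lit 65604) (nat_lit 9) (.e (nat_lit 335997) (nat_lit 1) (.e (nat_lit 57870) (nat_lit 264) .nil))))))) (.g (nat_lit 0) .nil .nil)))) (.nd (nat_lit 5) 
(.lf (nat_lit 37590) (.g (nat_lit 3304) (.e (nat_lit 1221) (nat_lit 90) (.e (nat_lit 81938) (nat_lit 20) (.e (nat_lit 1962) (nat_lit 134) (.e (nat_lit 638998) (nat_lit 8) (.e (nat_lit 172120) (nat_lit 12) (.e (nat_lit 475163) (nat_lit 21) (.e (nat_lit 6264) (nat_lit 337) .nil))))))) (.g (nat_lit 5) .nil .nil))) 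
(.lf (nat_lit 37622) (.g (nat_lit 1784) (.e (nat_lit 1221) (nat_lit 90) (.e (nat_lit 81938) (nat_lit 20) (.e (nat_lit 2005) (nat_lit 138) (.e (nat_lit 671748) (nat_lit 0) (.e (nat_lit 1598) (nat_lit 111) (.e (nat_lit 368384) (nat_lit 0) (.e (nat_lit 5902) (nat_lit 320) .nil))))))) (.g (nat_lit 5) .nil .nil))))) (.nd (nat_lit 4) (.nd (nat_lit 5) 
(.lf (nat_lit 37582) (.g (nat_lit 2051) (.e (nat_lit 1221) (nat_lit 90) (.e (nat_lit 81938) (nat_lit 20) (.e (nat_lit 1960) (nat_lit 134) (.e (nat_lit 638998) (nat_lit 8) (.e (nat_lit 172120) (nat_lit 12) (.e (nat_lit 475163) (nat_lit 21) (.e (nat_lit 6322) (nat_lit 337) .nil))))))) (.g (nat_lit 4) .nil .nil))) 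
(.lf (nat_lit 37614) (.g (nat_lit 1661) (.e (nat_lit 1221) (nat_lit 90) (.e (nat_lit 81938) (nat_lit 20) (.e (nat_lit 2005) (nat_lit 138) (.e (nat_lit 671747) (nat_lit 0) (.e (nat_lit 1586) (nat_lit 111) (.e (nat_lit 368384) (nat_lit 0) (.e (nat_lit 5902) (nat_lit 320) .nil))))))) (.g (nat_lit 4) .nil .nil)))) (.nd (nat_lit 5) 
(.lf (nat_lit 37598) (.g (nat_lit 2497) (.e (nat_lit 1221) (nat_lit 90) (.e (nat_lit 81938) (nat_lit 20) (.e (nat_lit 2003) (nat_lit 138) (.e (nat_lit 671747) (nat_lit 0) (.e (nat_lit 1586) (nat_lit 111) (.e (nat_lit 368384) (nat_lit 0) (.e (nat_lit 5905) (nat_lit 320) .nil))))))) (.g (nat_lit 5) .nil .nil))) 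
(.lf (nat_lit 37630) (.g (nat_lit 3482) (.e (nat_lit 1221) (nat_lit 90) (.e (nat_lit 81938) (nat_lit 20) (.e (nat_lit 2005) (nat_lit 138) (.e (nat_lit 671762) (nat_lit 4) (.e (nat_lit 65619) (nat_lit 10) (.e (nat_lit 344097) (nat_lit 18) (.e (nat_lit 5906) (nat_lit 320) .nil))))))) (.g (nat_lit 0) .nil .nil)))))))) 
(.nd (nat_lit 1) (.nd (nat_lit 2) (.nd (nat_lit 3) (.nd (nat_lit 4) (.nd (nat_lit 5) 
(.lf (nat_lit 37569) (.g (nat_lit 500) (.e (nat_lit 1221) (nat_lit 90) (.e (nat_lit 81938) (nat_lit 20) (.e (nat_lit 1023) (nat_lit 81) .nil))) .nil)) 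
(.lf (nat_lit 37601) (.g (nat_lit 1670) (.e (nat_lit 1221) (nat_lit 90) (.e (nat_lit 81938) (nat_lit 20) (.e (nat_lit 2003) (nat_lit 138) (.e (nat_lit 671747) (nat_lit 0) (.e (nat_lit 1595) (nat_lit 111) (.e (nat_lit 368384) (nat_lit 0) (.e (nat_lit 5902) (nat_lit 320) .nil))))))) (.g (nat_lit 4) .nil .nil)))) (.nd (nat_lit 5) 
(.lf (nat_lit 37585) (.g (nat_lit 1870) (.e (nat_lit 1221) (nat_lit 90) (.e (nat_lit 81938) (nat_lit 20) (.e (nat_lit 1962) (nat_lit 134) (.e (nat_lit 638985) (nat_lit 5) (.e (nat_lit 3027) (nat_lit 187) (.e (nat_lit 458496) (nat_lit 0) (.e (nat_lit 5116) (nat_lit 292) .nil))))))) (.g (nat_lit 5) .nil .nil))) 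
(.lf (nat_lit 37617) (.g (nat_lit 2152) (.e (nat_lit 1221) (nat_lit 90) (.e (nat_lit 81938) (nat_lit 20) (.e (nat_lit 2005) (nat_lit 138) (.e (nat_lit 671748) (nat_lit 0) (.e (nat_lit 1586) (nat_lit 111) (.e (nat_lit 368384) (nat_lit 0) (.e (nat_lit 5902) (nat_lit 320) .nil))))))) (.g (nat_lit 5) .nil .nil))))) (.nd (nat_lit 4) (.nd (nat_lit 5) 
(.lf (nat_lit 37577) (.g (nat_lit 2860) (.e (nat_lit 1221) (nat_lit 90) (.e (nat_lit 81938) (nat_lit 20) (.e (nat_lit 1960) (nat_lit 134) (.e (nat_lit 638998) (nat_lit 8) (.e (nat_lit 172120) (nat_lit 12) (.e (nat_lit 475155) (nat_lit 21) (.e (nat_lit 6264) (nat_lit 337) .nil))))))) (.g (nat_lit 5) .nil .nil))) 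
(.lf (nat_lit 37609) (.g (nat_lit 3622) (.e (nat_lit 1221) (nat_lit 90) (.e (nat_lit 81938) (nat_lit 20) (.e (nat_lit 2003) (nat_lit 138) (.e (nat_lit 671762) (nat_lit 4) (.e (nat_lit 65610) (nat_lit 10) (.e (nat_lit 344097) (nat_lit 18) (.e (nat_lit 5906) (nat_lit 320) .nil))))))) (.g (nat_lit 0) .nil .nil)))) (.nd (nat_lit 5) 
(.lf (nat_lit 37593) (.g (nat_lit 1940) (.e (nat_lit 1221) (nat_lit 90) (.e (nat_lit 81938) (nat_lit 20) (.e (nat_lit 1963) (nat_lit 134) (.e (nat_lit 638986) (nat_lit 5) (.e (nat_lit 3022) (nat_lit 187) (.e (nat_lit 458496) (nat_lit 0) (.e (nat_lit 5116) (nat_lit 292) .nil))))))) (.g (nat_lit 5) .nil .nil))) 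
(.lf (nat_lit 37625) (.g (nat_lit 2266) (.e (nat_lit 1221) (nat_lit 90) (.e (nat_lit 81938) (nat_lit 20) (.e (nat_lit 2005) (nat_lit 138) (.e (nat_lit 671762) (nat_lit 4) (.e (nat_lit 65598) (nat_lit 9) (.e (nat_lit 335997) (nat_lit 1) (.e (nat_lit 57871) (nat_lit 264) .nil))))))) (.g (nat_lit 4) .nil .nil)))))) (.nd (nat_lit 3) (.nd (nat_lit 4) (.nd (nat_lit 5) 
(.lf (nat_lit 37573) (.g (nat_lit 1921) (.e (nat_lit 1221) (nat_lit 90) (.e (nat_lit 81938) (nat_lit 20) (.e (nat_lit 1885) (nat_lit 127) (.e (nat_lit 581636) (nat_lit 0) (.e (nat_lit 3016) (nat_lit 187) (.e (nat_lit 458496) (nat_lit 0) (.e (nat_lit 6807) (nat_lit 365) .nil))))))) (.g (nat_lit 5) .nil .nil))) 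
(.lf (nat_lit 37605) (.g (nat_lit 3490) (.e (nat_lit 1221) (nat_lit 90) (.e (nat_lit 81938) (nat_lit 20) (.e (nat_lit 2003) (nat_lit 138) (.e (nat_lit 671762) (nat_lit 4) (.e (nat_lit 65598) (nat_lit 9) (.e (nat_lit 335997) (nat_lit 1) (.e (nat_lit 57872) (nat_lit 264) .nil))))))) (.g (nat_lit 7) .nil .nil)))) (.nd (nat_lit 5) 
(.lf (nat_lit 37589) (.g (nat_lit 3214) (.e (nat_lit 1221) (nat_lit 90) (.e (nat_lit 81938) (nat_lit 20) (.e (nat_lit 1962) (nat_lit 134) (.e (nat_lit 638998) (nat_lit 8) (.e (nat_lit 172120) (nat_lit 12) (.e (nat_lit 475162) (nat_lit 21) (.e (nat_lit 6264) (nat_lit 337) .nil))))))) (.g (nat_lit 5) .nil .nil))) 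
(.lf (nat_lit 37621) (.g (nat_lit 3429) (.e (nat_lit 1221) (nat_lit 90) (.e (nat_lit 81938) (nat_lit 20) (.e (nat_lit 2005) (nat_lit 138) (.e (nat_lit 671748) (nat_lit 0) (.e (nat_lit 1598) (nat_lit 111) (.e (nat_lit 360452) (nat_lit 0) (.e (nat_lit 5905) (nat_lit 320) .nil))))))) (.g (nat_lit 0) .nil .nil))))) (.nd (nat_lit 4) (.nd (nat_lit 5) 
(.lf (nat_lit 37581) (.g (nat_lit 2686) (.e (nat_lit 1221) (nat_lit 90) (.e (nat_lit 81938) (nat_lit 20) (.e (nat_lit 1960) (nat_lit 134) (.e (nat_lit 638998) (nat_lit 8) (.e (nat_lit 172120) (nat_lit 12) (.e (nat_lit 475163) (nat_lit 21) (.e (nat_lit 6264) (nat_lit 337) .nil))))))) (.g (nat_lit 5) .nil .nil))) 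
(.lf (nat_lit 37613) (.g (nat_lit 2569) (.e (nat_lit 1221) (nat_lit 90) (.e (nat_lit 81938) (nat_lit 20) (.e (nat_lit 2003) (nat_lit 138) (.e (nat_lit 671764) (nat_lit 6) (.e (nat_lit 81950) (nat_lit 21) (.e (nat_lit 57870) (nat_lit 264) .nil)))))) (.g (nat_lit 0) .nil .nil)))) (.nd (nat_lit 5) 
(.lf (nat_lit 37597) (.g (nat_lit 1879) (.e (nat_lit 1221) (nat_lit 90) (.e (nat_lit 81938) (nat_lit 20) (.e (nat_lit 2003) (nat_lit 138) (.e (nat_lit 671747) (nat_lit 0) (.e (nat_lit 1586) (nat_lit 111) (.e (nat_lit 368384) (nat_lit 0) (.e (nat_lit 5902) (nat_lit 320) .nil))))))) (.g (nat_lit 4) .nil .nil))) 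
(.lf (nat_lit 37629) (.g (nat_lit 3706) (.e (nat_lit 1221) (nat_lit 90) (.e (nat_lit 81938) (nat_lit 20) (.e (nat_lit 2005) (nat_lit 138) (.e (nat_lit 671762) (nat_lit 4) (.e (nat_lit 65610) (nat_lit 10) (.e (nat_lit 344097) (nat_lit 18) (.e (nat_lit 5906) (nat_lit 320) .nil))))))) (.g (nat_lit 0) .nil .nil))))))) (.nd (nat_lit 2) (.nd (nat_lit 3) (.nd (nat_lit 4) (.nd (nat_lit 5) 
(.lf (nat_lit 37571) (.g (nat_lit 452) (.e (nat_lit 1221) (nat_lit 90) (.e (nat_lit 81938) (nat_lit 20) (.e (nat_lit 1885) (nat_lit 127) .nil))) .nil)) 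
(.lf (nat_lit 37603) (.g (nat_lit 2033) (.e (nat_lit 1221) (nat_lit 90) (.e (nat_lit 81938) (nat_lit 20) (.e (nat_lit 2003) (nat_lit 138) (.e (nat_lit 671747) (nat_lit 0) (.e (nat_lit 1598) (nat_lit 111) (.e (nat_lit 360452) (nat_lit 0) (.e (nat_lit 5906) (nat_lit 320) .nil))))))) (.g (nat_lit 5) .nil .nil)))) (.nd (nat_lit 5) 
(.lf (nat_lit 37587) (.g (nat_lit 3064) (.e (nat_lit 1221) (nat_lit 90) (.e (nat_lit 81938) (nat_lit 20) (.e (nat_lit 1962) (nat_lit 134) (.e (nat_lit 638998) (nat_lit 8) (.e (nat_lit 172120) (nat_lit 12) (.e (nat_lit 475160) (nat_lit 21) (.e (nat_lit 6264) (nat_lit 337) .nil))))))) (.g (nat_lit 5) .nil .nil))) 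
(.lf (nat_lit 37619) (.g (nat_lit 2103) (.e (nat_lit 1221) (nat_lit 90) (.e (nat_lit 81938) (nat_lit 20) (.e (nat_lit 2005) (nat_lit 138) (.e (nat_lit 671748) (nat_lit 0) (.e (nat_lit 1589) (nat_lit 111) (.e (nat_lit 368384) (nat_lit 0) (.e (nat_lit 5902) (nat_lit 320) .nil))))))) (.g (nat_lit 5) .nil .nil))))) (.nd (nat_lit 4) (.nd (nat_lit 5) 
(.lf (nat_lit 37579) (.g (nat_lit 2466) (.e (nat_lit 1221) (nat_lit 90) (.e (nat_lit 81938) (nat_lit 20) (.e (nat_lit 1960) (nat_lit 134) (.e (nat_lit 638998) (nat_lit 8) (.e (nat_lit 172120) (nat_lit 12) (.e (nat_lit 475161) (nat_lit 21) (.e (nat_lit 6264) (nat_lit 337) .nil))))))) (.g (nat_lit 5) .nil .nil))) 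
(.lf (nat_lit 37611) (.g (nat_lit 4092) (.e (nat_lit 1221) (nat_lit 90) (.e (nat_lit 81938) (nat_lit 20) (.e (nat_lit 2003) (nat_lit 138) (.e (nat_lit 671762) (nat_lit 4) (.e (nat_lit 65619) (nat_lit 10) (.e (nat_lit 344097) (nat_lit 18) (.e (nat_lit 5907) (nat_lit 320) .nil))))))) (.g (nat_lit 0) .nil .nil)))) (.nd (nat_lit 5) 
(.lf (nat_lit 37595) (.g (nat_lit 2012) (.e (nat_lit 1221) (nat_lit 90) (.e (nat_lit 81938) (nat_lit 20) (.e (nat_lit 1963) (nat_lit 134) (.e (nat_lit 638986) (nat_lit 5) (.e (nat_lit 3027) (nat_lit 187) (.e (nat_lit 458496) (nat_lit 0) (.e (nat_lit 5116) (nat_lit 292) .nil))))))) (.g (nat_lit 5) .nil .nil))) 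
(.lf (nat_lit 37627) (.g (nat_lit 2200) (.e (nat_lit 1221) (nat_lit 90) (.e (nat_lit 81938) (nat_lit 20) (.e (nat_lit 2005) (nat_lit 138) (.e (nat_lit 671762) (nat_lit 4) (.e (nat_lit 65604) (nat_lit 9) (.e (nat_lit 335997) (nat_lit 1) (.e (nat_lit 57871) (nat_lit 264) .nil))))))) (.g (nat_lit 5) .nil .nil)))))) (.nd (nat_lit 3) (.nd (nat_lit 4) (.nd (nat_lit 5) 
(.lf (nat_lit 37575) (.g (nat_lit 2104) (.e (nat_lit 1221) (nat_lit 90) (.e (nat_lit 81938) (nat_lit 20) (.e (nat_lit 1886) (nat_lit 127) (.e (nat_lit 581636) (nat_lit 0) (.e (nat_lit 3022) (nat_lit 187) (.e (nat_lit 458496) (nat_lit 0) (.e (nat_lit 6807) (nat_lit 365) .nil))))))) (.g (nat_lit 5) .nil .nil))) 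
(.lf (nat_lit 37607) (.g (nat_lit 2210) (.e (nat_lit 1221) (nat_lit 90) (.e (nat_lit 81938) (nat_lit 20) (.e (nat_lit 2003) (nat_lit 138) (.e (nat_lit 671762) (nat_lit 4) (.e (nat_lit 65604) (nat_lit 9) (.e (nat_lit 335997) (nat_lit 1) (.e (nat_lit 57871) (nat_lit 264) .nil))))))) (.g (nat_lit 4) .nil .nil)))) (.nd (nat_lit 5) 
(.lf (nat_lit 37591) (.g (nat_lit 412) (.e (nat_lit 1221) (nat_lit 90) (.e (nat_lit 81938) (nat_lit 20) (.e (nat_lit 1963) (nat_lit 134) .nil))) .nil)) 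
(.lf (nat_lit 37623) (.g (nat_lit 1648) (.e (nat_lit 1221) (nat_lit 90) (.e (nat_lit 81938) (nat_lit 20) (.e (nat_lit 2005) (nat_lit 138) (.e (nat_lit 671748) (nat_lit 0) (.e (nat_lit 1599) (nat_lit 111) (.e (nat_lit 368384) (nat_lit 0) (.e (nat_lit 5902) (nat_lit 320) .nil))))))) (.g (nat_lit 4) .nil .nil))))) (.nd (nat_lit 4) (.nd (nat_lit 5) 
(.lf (nat_lit 37583) (.g (nat_lit 1804) (.e (nat_lit 1221) (nat_lit 90) (.e (nat_lit 81938) (nat_lit 20) (.e (nat_lit 1962) (nat_lit 134) (.e (nat_lit 638985) (nat_lit 5) (.e (nat_lit 3015) (nat_lit 187) (.e (nat_lit 458496) (nat_lit 0) (.e (nat_lit 5116) (nat_lit 292) .nil))))))) (.g (nat_lit 5) .nil .nil))) 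
(.lf (nat_lit 37615) (.g (nat_lit 1998) (.e (nat_lit 1221) (nat_lit 90) (.e (nat_lit 81938) (nat_lit 20) (.e (nat_lit 2005) (nat_lit 138) (.e (nat_lit 671747) (nat_lit 0) (.e (nat_lit 1586) (nat_lit 111) (.e (nat_lit 368384) (nat_lit 0) (.e (nat_lit 5906) (nat_lit 320) .nil))))))) (.g (nat_lit 5) .nil .nil)))) (.nd (nat_lit 5) 
(.lf (nat_lit 37599) (.g (nat_lit 2227) (.e (nat_lit 1221) (nat_lit 90) (.e (nat_lit 81938) (nat_lit 20) (.e (nat_lit 2003) (nat_lit 138) (.e (nat_lit 671747) (nat_lit 0) (.e (nat_lit 1586) (nat_lit 111) (.e (nat_lit 368384) (nat_lit 0) (.e (nat_lit 5906) (nat_lit 320) .nil))))))) (.g (nat_lit 5) .nil .nil))) 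
(.lf (nat_lit 37631) (.g (nat_lit 2321) (.e (nat_lit 1221) (nat_lit 90) (.e (nat_lit 81938) (nat_lit 20) (.e (nat_lit 2005) (nat_lit 138) (.e (nat_lit 671764) (nat_lit 6) (.e (nat_lit 81948) (nat_lit 21) (.e (nat_lit 57870) (nat_lit 264) .nil)))))) (.g (nat_lit 0) .nil .nil)))))))))

noncomputable def tv524 : DT := (.nd (nat_lit 0) (.nd (nat_lit 1) (.nd (nat_lit 2) (.nd (nat_lit 3) (.nd (nat_lit 4) (.nd (nat_lit 5) 
(.lf (nat_lit 37632) (.g (nat_lit 2490) (.e (nat_lit 1221) (nat_lit 90) (.e (nat_lit 81938) (nat_lit 20) (.e (nat_lit 2005) (nat_lit 138) (.e (nat_lit 671764) (nat_lit 6) (.e (nat_lit 81950) (nat_lit 21) (.e (nat_lit 57870) (nat_lit 264) .nil)))))) (.g (nat_lit 0) .nil .nil))) 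
(.lf (nat_lit 37664) (.g (nat_lit 1736) (.e (nat_lit 1221) (nat_lit 90) (.e (nat_lit 81947) (nat_lit 20) (.e (nat_lit 1885) (nat_lit 127) (.e (nat_lit 581636) (nat_lit 0) (.e (nat_lit 3027) (nat_lit 187) (.e (nat_lit 450564) (nat_lit 0) (.e (nat_lit 6792) (nat_lit 365) .nil))))))) (.g (nat_lit 4) .nil .nil)))) (.nd (nat_lit 5) 
(.lf (nat_lit 37648) (.g (nat_lit 3760) (.e (nat_lit 1221) (nat_lit 90) (.e (nat_lit 81938) (nat_lit 20) (.e (nat_lit 2006) (nat_lit 138) (.e (nat_lit 671762) (nat_lit 4) (.e (nat_lit 65610) (nat_lit 10) (.e (nat_lit 344097) (nat_lit 18) (.e (nat_lit 5906) (nat_lit 320) .nil))))))) (.g (nat_lit 0) .nil .nil))) 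
(.lf (nat_lit 37680) (.g (nat_lit 2106) (.e (nat_lit 1221) (nat_lit 90) (.e (nat_lit 81947) (nat_lit 20) (.e (nat_lit 2005) (nat_lit 138) (.e (nat_lit 671748) (nat_lit 0) (.e (nat_lit 1592) (nat_lit 111) (.e (nat_lit 368384) (nat_lit 0) (.e (nat_lit 5906) (nat_lit 320) .nil))))))) (.g (nat_lit 4) .nil .nil))))) (.nd (nat_lit 4) (.nd (nat_lit 5) 
(.lf (nat_lit 37640) (.g (nat_lit 3605) (.e (nat_lit 1221) (nat_lit 90) (.e (nat_lit 81938) (nat_lit 20) (.e (nat_lit 2006) (nat_lit 138) (.e (nat_lit 671748) (nat_lit 0) (.e (nat_lit 1598) (nat_lit 111) (.e (nat_lit 360452) (nat_lit 0) (.e (nat_lit 5905) (nat_lit 320) .nil))))))) (.g (nat_lit 0) .nil .nil))) 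
(.lf (nat_lit 37672) (.g (nat_lit 3184) (.e (nat_lit 1221) (nat_lit 90) (.e (nat_lit 81947) (nat_lit 20) (.e (nat_lit 2003) (nat_lit 138) (.e (nat_lit 671747) (nat_lit 0) (.e (nat_lit 1598) (nat_lit 111) (.e (nat_lit 360452) (nat_lit 0) (.e (nat_lit 5907) (nat_lit 320) .nil))))))) (.g (nat_lit 6) .nil .nil)))) (.nd (nat_lit 5) 
(.lf (nat_lit 37656) (.g (nat_lit 2333) (.e (nat_lit 1221) (nat_lit 90) (.e (nat_lit 81938) (nat_lit 20) (.e (nat_lit 2281) (nat_lit 150) (.e (nat_lit 770072) (nat_lit 8) (.e (nat_lit 65610) (nat_lit 10) (.e (nat_lit 344090) (nat_lit 18) (.e (nat_lit 7236) (nat_lit 382) .nil))))))) (.g (nat_lit 5) .nil .nil))) 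
(.lf (nat_lit 37688) (.g (nat_lit 3526) (.e (nat_lit 1221) (nat_lit 90) (.e (nat_lit 81947) (nat_lit 20) (.e (nat_lit 2005) (nat_lit 138) (.e (nat_lit 671762) (nat_lit 4) (.e (nat_lit 65619) (nat_lit 10) (.e (nat_lit 344097) (nat_lit 18) (.e (nat_lit 5906) (nat_lit 320) .nil))))))) (.g (nat_lit 7) .nil .nil)))))) (.nd (nat_lit 3) (.nd (nat_lit 4) (.nd (nat_lit 5) 
(.lf (nat_lit 37636) (.g (nat_lit 2325) (.e (nat_lit 1221) (nat_lit 90) (.e (nat_lit 81938) (nat_lit 20) (.e (nat_lit 2006) (nat_lit 138) (.e (nat_lit 671748) (nat_lit 0) (.e (nat_lit 1589) (nat_lit 111) (.e (nat_lit 368384) (nat_lit 0) (.e (nat_lit 5902) (nat_lit 320) .nil))))))) (.g (nat_lit 5) .nil .nil))) 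
(.lf (nat_lit 37668) (.g (nat_lit 567) (.e (nat_lit 1221) (nat_lit 90) (.e (nat_lit 81947) (nat_lit 20) (.e (nat_lit 2003) (nat_lit 138) .nil))) .nil))) (.nd (nat_lit 5) 
(.lf (nat_lit 37652) (.g (nat_lit 1642) (.e (nat_lit 1221) (nat_lit 90) (.e (nat_lit 81938) (nat_lit 20) (.e (nat_lit 2281) (nat_lit 150) (.e (nat_lit 770057) (nat_lit 5) (.e (nat_lit 1589) (nat_lit 111) (.e (nat_lit 368384) (nat_lit 0) (.e (nat_lit 7237) (nat_lit 382) .nil))))))) (.g (nat_lit 4) .nil .nil))) 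
(.lf (nat_lit 37684) (.g (nat_lit 2418) (.e (nat_lit 1221) (nat_lit 90) (.e (nat_lit 81947) (nat_lit 20) (.e (nat_lit 2005) (nat_lit 138) (.e (nat_lit 671762) (nat_lit 4) (.e (nat_lit 65598) (nat_lit 9) (.e (nat_lit 335997) (nat_lit 1) (.e (nat_lit 57870) (nat_lit 264) .nil))))))) (.g (nat_lit 4) .nil .nil))))) (.nd (nat_lit 4) (.nd (nat_lit 5) 
(.lf (nat_lit 37644) (.g (nat_lit 2383) (.e (nat_lit 1221) (nat_lit 90) (.e (nat_lit 81938) (nat_lit 20) (.e (nat_lit 2006) (nat_lit 138) (.e (nat_lit 671762) (nat_lit 4) (.e (nat_lit 65598) (nat_lit 9) (.e (nat_lit 335997) (nat_lit 1) (.e (nat_lit 57871) (nat_lit 264) .nil))))))) (.g (nat_lit 4) .nil .nil))) 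
(.lf (nat_lit 37676) (.g (nat_lit 3638) (.e (nat_lit 1221) (nat_lit 90) (.e (nat_lit 81947) (nat_lit 20) (.e (nat_lit 2003) (nat_lit 138) (.e (nat_lit 671762) (nat_lit 4) (.e (nat_lit 65610) (nat_lit 10) (.e (nat_lit 344097) (nat_lit 18) (.e (nat_lit 5906) (nat_lit 320) .nil))))))) (.g (nat_lit 7) .nil .nil)))) (.nd (nat_lit 5) 
(.lf (nat_lit 37660) (.g (nat_lit 2465) (.e (nat_lit 1221) (nat_lit 90) (.e (nat_lit 81938) (nat_lit 20) (.e (nat_lit 2281) (nat_lit 150) (.e (nat_lit 770074) (nat_lit 10) (.e (nat_lit 81959) (nat_lit 24) (.e (nat_lit 130816) (nat_lit 152) .nil)))))) (.g (nat_lit 5) .nil .nil))) 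
(.lf (nat_lit 37692) (.g (nat_lit 2516) (.e (nat_lit 1221) (nat_lit 90) (.e (nat_lit 81947) (nat_lit 20) (.e (nat_lit 2006) (nat_lit 138) (.e (nat_lit 671748) (nat_lit 0) (.e (nat_lit 1586) (nat_lit 111) (.e (nat_lit 368384) (nat_lit 0) (.e (nat_lit 5906) (nat_lit 320) .nil))))))) (.g (nat_lit 5) .nil .nil))))))) (.nd (nat_lit 2) (.nd (nat_lit 3) (.nd (nat_lit 4) (.nd (nat_lit 5) 
(.lf (nat_lit 37634) (.g (nat_lit 2454) (.e (nat_lit 1221) (nat_lit 90) (.e (nat_lit 81938) (nat_lit 20) (.e (nat_lit 2006) (nat_lit 138) (.e (nat_lit 671748) (nat_lit 0) (.e (nat_lit 1586) (nat_lit 111) (.e (nat_lit 368384) (nat_lit 0) (.e (nat_lit 5902) (nat_lit 320) .nil))))))) (.g (nat_lit 5) .nil .nil))) 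
(.lf (nat_lit 37666) (.g (nat_lit 2373) (.e (nat_lit 1221) (nat_lit 90) (.e (nat_lit 81947) (nat_lit 20) (.e (nat_lit 1886) (nat_lit 127) (.e (nat_lit 581651) (nat_lit 4) (.e (nat_lit 172106) (nat_lit 10) (.e (nat_lit 434209) (nat_lit 18) (.e (nat_lit 6792) (nat_lit 365) .nil))))))) (.g (nat_lit 5) .nil .nil)))) (.nd (nat_lit 5) 
(.lf (nat_lit 37650) (.g (nat_lit 2495) (.e (nat_lit 1221) (nat_lit 90) (.e (nat_lit 81938) (nat_lit 20) (.e (nat_lit 2006) (nat_lit 138) (.e (nat_lit 671764) (nat_lit 6) (.e (nat_lit 81948) (nat_lit 21) (.e (nat_lit 57870) (nat_lit 264) .nil)))))) (.g (nat_lit 0) .nil .nil))) 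
(.lf (nat_lit 37682) (.g (nat_lit 2813) (.e (nat_lit 1221) (nat_lit 90) (.e (nat_lit 81947) (nat_lit 20) (.e (nat_lit 2005) (nat_lit 138) (.e (nat_lit 671748) (nat_lit 0) (.e (nat_lit 1598) (nat_lit 111) (.e (nat_lit 360452) (nat_lit 0) (.e (nat_lit 5905) (nat_lit 320) .nil))))))) (.g (nat_lit 6) .nil .nil))))) (.nd (nat_lit 4) (.nd (nat_lit 5) 
(.lf (nat_lit 37642) (.g (nat_lit 1810) (.e (nat_lit 1221) (nat_lit 90) (.e (nat_lit 81938) (nat_lit 20) (.e (nat_lit 2006) (nat_lit 138) (.e (nat_lit 671748) (nat_lit 0) (.e (nat_lit 1599) (nat_lit 111) (.e (nat_lit 368384) (nat_lit 0) (.e (nat_lit 5902) (nat_lit 320) .nil))))))) (.g (nat_lit 4) .nil .nil))) 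
(.lf (nat_lit 37674) (.g (nat_lit 3461) (.e (nat_lit 1221) (nat_lit 90) (.e (nat_lit 81947) (nat_lit 20) (.e (nat_lit 2003) (nat_lit 138) (.e (nat_lit 671762) (nat_lit 4) (.e (nat_lit 65598) (nat_lit 9) (.e (nat_lit 335997) (nat_lit 1) (.e (nat_lit 57872) (nat_lit 264) .nil))))))) (.g (nat_lit 6) .nil .nil)))) (.nd (nat_lit 5) 
(.lf (nat_lit 37658) (.g (nat_lit 1782) (.e (nat_lit 1221) (nat_lit 90) (.e (nat_lit 81938) (nat_lit 20) (.e (nat_lit 2281) (nat_lit 150) (.e (nat_lit 770072) (nat_lit 8) (.e (nat_lit 65617) (nat_lit 10) (.e (nat_lit 344096) (nat_lit 18) (.e (nat_lit 7236) (nat_lit 382) .nil))))))) (.g (nat_lit 4) .nil .nil))) 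
(.lf (nat_lit 37690) (.g (nat_lit 1949) (.e (nat_lit 1221) (nat_lit 90) (.e (nat_lit 81947) (nat_lit 20) (.e (nat_lit 2006) (nat_lit 138) (.e (nat_lit 671747) (nat_lit 0) (.e (nat_lit 1595) (nat_lit 111) (.e (nat_lit 360453) (nat_lit 0) (.e (nat_lit 5907) (nat_lit 320) .nil))))))) (.g (nat_lit 4) .nil .nil)))))) (.nd (nat_lit 3) (.nd (nat_lit 4) (.nd (nat_lit 5) 
(.lf (nat_lit 37638) (.g (nat_lit 1280) (.e (nat_lit 1221) (nat_lit 90) (.e (nat_lit 81938) (nat_lit 20) (.e (nat_lit 2006) (nat_lit 138) (.e (nat_lit 671748) (nat_lit 0) (.e (nat_lit 1592) (nat_lit 111) .nil))))) .nil)) 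
(.lf (nat_lit 37670) (.g (nat_lit 2089) (.e (nat_lit 1221) (nat_lit 90) (.e (nat_lit 81947) (nat_lit 20) (.e (nat_lit 2003) (nat_lit 138) (.e (nat_lit 671747) (nat_lit 0) (.e (nat_lit 1592) (nat_lit 111) (.e (nat_lit 368384) (nat_lit 0) (.e (nat_lit 5906) (nat_lit 320) .nil))))))) (.g (nat_lit 4) .nil .nil)))) (.nd (nat_lit 5) 
(.lf (nat_lit 37654) (.g (nat_lit 1465) (.e (nat_lit 1221) (nat_lit 90) (.e (nat_lit 81938) (nat_lit 20) (.e (nat_lit 2281) (nat_lit 150) (.e (nat_lit 770058) (nat_lit 5) (.e (nat_lit 1589) (nat_lit 111) (.e (nat_lit 368384) (nat_lit 0) (.e (nat_lit 7236) (nat_lit 382) .nil))))))) (.g (nat_lit 4) .nil .nil))) 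
(.lf (nat_lit 37686) (.g (nat_lit 2359) (.e (nat_lit 1221) (nat_lit 90) (.e (nat_lit 81947) (nat_lit 20) (.e (nat_lit 2005) (nat_lit 138) (.e (nat_lit 671762) (nat_lit 4) (.e (nat_lit 65604) (nat_lit 9) (.e (nat_lit 335997) (nat_lit 1) (.e (nat_lit 57870) (nat_lit 264) .nil))))))) (.g (nat_lit 4) .nil .nil))))) (.nd (nat_lit 4) (.nd (nat_lit 5) 
(.lf (nat_lit 37646) (.g (nat_lit 2371) (.e (nat_lit 1221) (nat_lit 90) (.e (nat_lit 81938) (nat_lit 20) (.e (nat_lit 2006) (nat_lit 138) (.e (nat_lit 671762) (nat_lit 4) (.e (nat_lit 65604) (nat_lit 9) (.e (nat_lit 335997) (nat_lit 1) (.e (nat_lit 57871) (nat_lit 264) .nil))))))) (.g (nat_lit 5) .nil .nil))) 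
(.lf (nat_lit 37678) (.g (nat_lit 3615) (.e (nat_lit 1221) (nat_lit 90) (.e (nat_lit 81947) (nat_lit 20) (.e (nat_lit 2003) (nat_lit 138) (.e (nat_lit 671762) (nat_lit 4) (.e (nat_lit 65619) (nat_lit 10) (.e (nat_lit 344097) (nat_lit 18) (.e (nat_lit 5906) (nat_lit 320) .nil))))))) (.g (nat_lit 7) .nil .nil)))) (.nd (nat_lit 5) 
(.lf (nat_lit 37662) (.g (nat_lit 403) (.e (nat_lit 1221) (nat_lit 90) (.e (nat_lit 81947) (nat_lit 20) (.e (nat_lit 1830) (nat_lit 122) .nil))) .nil)) 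
(.lf (nat_lit 37694) (.g (nat_lit 2188) (.e (nat_lit 1221) (nat_lit 90) (.e (nat_lit 81947) (nat_lit 20) (.e (nat_lit 2006) (nat_lit 138) (.e (nat_lit 671748) (nat_lit 0) (.e (nat_lit 1595) (nat_lit 111) (.e (nat_lit 368384) (nat_lit 0) (.e (nat_lit 5906) (nat_lit 320) .nil))))))) (.g (nat_lit 4) .nil .nil)))))))) 
(.nd (nat_lit 1) (.nd (nat_lit 2) (.nd (nat_lit 3) (.nd (nat_lit 4) (.nd (nat_lit 5) 
(.lf (nat_lit 37633) (.g (nat_lit 445) (.e (nat_lit 1221) (nat_lit 90) (.e (nat_lit 81938) (nat_lit 20) (.e (nat_lit 2006) (nat_lit 138) .nil))) .nil)) 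
(.lf (nat_lit 37665) (.g (nat_lit 554) (.e (nat_lit 1221) (nat_lit 90) (.e (nat_lit 81947) (nat_lit 20) (.e (nat_lit 1886) (nat_lit 127) .nil))) .nil))) (.nd (nat_lit 5) 
(.lf (nat_lit 37649) (.g (nat_lit 3639) (.e (nat_lit 1221) (nat_lit 90) (.e (nat_lit 81938) (nat_lit 20) (.e (nat_lit 2006) (nat_lit 138) (.e (nat_lit 671762) (nat_lit 4) (.e (nat_lit 65619) (nat_lit 10) (.e (nat_lit 344097) (nat_lit 18) (.e (nat_lit 5906) (nat_lit 320) .nil))))))) (.g (nat_lit 0) .nil .nil))) 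
(.lf (nat_lit 37681) (.g (nat_lit 2046) (.e (nat_lit 1221) (nat_lit 90) (.e (nat_lit 81947) (nat_lit 20) (.e (nat_lit 2005) (nat_lit 138) (.e (nat_lit 671748) (nat_lit 0) (.e (nat_lit 1595) (nat_lit 111) (.e (nat_lit 368384) (nat_lit 0) (.e (nat_lit 5906) (nat_lit 320) .nil))))))) (.g (nat_lit 4) .nil .nil))))) (.nd (nat_lit 4) (.nd (nat_lit 5) 
(.lf (nat_lit 37641) (.g (nat_lit 1998) (.e (nat_lit 1221) (nat_lit 90) (.e (nat_lit 81938) (nat_lit 20) (.e (nat_lit 2006) (nat_lit 138) (.e (nat_lit 671748) (nat_lit 0) (.e (nat_lit 1598) (nat_lit 111) (.e (nat_lit 368384) (nat_lit 0) (.e (nat_lit 5902) (nat_lit 320) .nil))))))) (.g (nat_lit 5) .nil .nil))) 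
(.lf (nat_lit 37673) (.g (nat_lit 2459) (.e (nat_lit 1221) (nat_lit 90) (.e (nat_lit 81947) (nat_lit 20) (.e (nat_lit 2003) (nat_lit 138) (.e (nat_lit 671762) (nat_lit 4) (.e (nat_lit 65598) (nat_lit 9) (.e (nat_lit 335997) (nat_lit 1) (.e (nat_lit 57870) (nat_lit 264) .nil))))))) (.g (nat_lit 5) .nil .nil)))) (.nd (nat_lit 5) 
(.lf (nat_lit 37657) (.g (nat_lit 2128) (.e (nat_lit 1221) (nat_lit 90) (.e (nat_lit 81938) (nat_lit 20) (.e (nat_lit 2281) (nat_lit 150) (.e (nat_lit 770072) (nat_lit 8) (.e (nat_lit 65617) (nat_lit 10) (.e (nat_lit 344091) (nat_lit 18) (.e (nat_lit 7236) (nat_lit 382) .nil))))))) (.g (nat_lit 4) .nil .nil))) 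
(.lf (nat_lit 37689) (.g (nat_lit 448) (.e (nat_lit 1221) (nat_lit 90) (.e (nat_lit 81947) (nat_lit 20) (.e (nat_lit 2006) (nat_lit 138) .nil))) .nil))))) (.nd (nat_lit 3) (.nd (nat_lit 4) (.nd (nat_lit 5) 
(.lf (nat_lit 37637) (.g (nat_lit 1799) (.e (nat_lit 1221) (nat_lit 90) (.e (nat_lit 81938) (nat_lit 20) (.e (nat_lit 2006) (nat_lit 138) (.e (nat_lit 671748) (nat_lit 0) (.e (nat_lit 1589) (nat_lit 111) (.e (nat_lit 368384) (nat_lit 0) (.e (nat_lit 5909) (nat_lit 320) .nil))))))) (.g (nat_lit 4) .nil .nil))) 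
(.lf (nat_lit 37669) (.g (nat_lit 2341) (.e (nat_lit 1221) (nat_lit 90) (.e (nat_lit 81947) (nat_lit 20) (.e (nat_lit 2003) (nat_lit 138) (.e (nat_lit 671747) (nat_lit 0) (.e (nat_lit 1589) (nat_lit 111) (.e (nat_lit 360453) (nat_lit 0) (.e (nat_lit 5907) (nat_lit 320) .nil))))))) (.g (nat_lit 4) .nil .nil)))) (.nd (nat_lit 5) 
(.lf (nat_lit 37653) (.g (nat_lit 1539) (.e (nat_lit 1221) (nat_lit 90) (.e (nat_lit 81938) (nat_lit 20) (.e (nat_lit 2281) (nat_lit 150) (.e (nat_lit 770058) (nat_lit 5) (.e (nat_lit 1586) (nat_lit 111) (.e (nat_lit 368384) (nat_lit 0) (.e (nat_lit 7236) (nat_lit 382) .nil))))))) (.g (nat_lit 4) .nil .nil))) 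
(.lf (nat_lit 37685) (.g (nat_lit 3420) (.e (nat_lit 1221) (nat_lit 90) (.e (nat_lit 81947) (nat_lit 20) (.e (nat_lit 2005) (nat_lit 138) (.e (nat_lit 671762) (nat_lit 4) (.e (nat_lit 65598) (nat_lit 9) (.e (nat_lit 335997) (nat_lit 1) (.e (nat_lit 57872) (nat_lit 264) .nil))))))) (.g (nat_lit 6) .nil .nil))))) (.nd (nat_lit 4) (.nd (nat_lit 5) 
(.lf (nat_lit 37645) (.g (nat_lit 3470) (.e (nat_lit 1221) (nat_lit 90) (.e (nat_lit 81938) (nat_lit 20) (.e (nat_lit 2006) (nat_lit 138) (.e (nat_lit 671762) (nat_lit 4) (.e (nat_lit 65604) (nat_lit 9) (.e (nat_lit 335997) (nat_lit 1) (.e (nat_lit 57870) (nat_lit 264) .nil))))))) (.g (nat_lit 0) .nil .nil))) 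
(.lf (nat_lit 37677) (.g (nat_lit 4351) (.e (nat_lit 1221) (nat_lit 90) (.e (nat_lit 81947) (nat_lit 20) (.e (nat_lit 2003) (nat_lit 138) (.e (nat_lit 671762) (nat_lit 4) (.e (nat_lit 65610) (nat_lit 10) (.e (nat_lit 344097) (nat_lit 18) (.e (nat_lit 5907) (nat_lit 320) .nil))))))) (.g (nat_lit 0) .nil .nil)))) (.nd (nat_lit 5) 
(.lf (nat_lit 37661) (.g (nat_lit 1128) (.e (nat_lit 1221) (nat_lit 90) (.e (nat_lit 81938) (nat_lit 20) (.e (nat_lit 2391) (nat_lit 156) (.e (nat_lit 819220) (nat_lit 5) .nil)))) .nil)) 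
(.lf (nat_lit 37693) (.g (nat_lit 2212) (.e (nat_lit 1221) (nat_lit 90) (.e (nat_lit 81947) (nat_lit 20) (.e (nat_lit 2006) (nat_lit 138) (.e (nat_lit 671748) (nat_lit 0) (.e (nat_lit 1592) (nat_lit 111) (.e (nat_lit 368384) (nat_lit 0) (.e (nat_lit 5906) (nat_lit 320) .nil))))))) (.g (nat_lit 4) .nil .nil))))))) (.nd (nat_lit 2) (.nd (nat_lit 3) (.nd (nat_lit 4) (.nd (nat_lit 5) 
(.lf (nat_lit 37635) (.g (nat_lit 1910) (.e (nat_lit 1221) (nat_lit 90) (.e (nat_lit 81938) (nat_lit 20) (.e (nat_lit 2006) (nat_lit 138) (.e (nat_lit 671748) (nat_lit 0) (.e (nat_lit 1586) (nat_lit 111) (.e (nat_lit 368384) (nat_lit 0) (.e (nat_lit 5909) (nat_lit 320) .nil))))))) (.g (nat_lit 4) .nil .nil))) 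
(.lf (nat_lit 37667) (.g (nat_lit 563) (.e (nat_lit 1221) (nat_lit 90) (.e (nat_lit 81947) (nat_lit 20) (.e (nat_lit 1963) (nat_lit 134) .nil))) .nil))) (.nd (nat_lit 5) 
(.lf (nat_lit 37651) (.g (nat_lit 2637) (.e (nat_lit 1221) (nat_lit 90) (.e (nat_lit 81938) (nat_lit 20) (.e (nat_lit 2006) (nat_lit 138) (.e (nat_lit 671764) (nat_lit 6) (.e (nat_lit 81950) (nat_lit 21) (.e (nat_lit 57870) (nat_lit 264) .nil)))))) (.g (nat_lit 0) .nil .nil))) 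
(.lf (nat_lit 37683) (.g (nat_lit 1877) (.e (nat_lit 1221) (nat_lit 90) (.e (nat_lit 81947) (nat_lit 20) (.e (nat_lit 2005) (nat_lit 138) (.e (nat_lit 671748) (nat_lit 0) (.e (nat_lit 1598) (nat_lit 111) (.e (nat_lit 368384) (nat_lit 0) (.e (nat_lit 5906) (nat_lit 320) .nil))))))) (.g (nat_lit 4) .nil .nil))))) (.nd (nat_lit 4) (.nd (nat_lit 5) 
(.lf (nat_lit 37643) (.g (nat_lit 3532) (.e (nat_lit 1221) (nat_lit 90) (.e (nat_lit 81938) (nat_lit 20) (.e (nat_lit 2006) (nat_lit 138) (.e (nat_lit 671762) (nat_lit 4) (.e (nat_lit 65598) (nat_lit 9) (.e (nat_lit 335997) (nat_lit 1) (.e (nat_lit 57870) (nat_lit 264) .nil))))))) (.g (nat_lit 7) .nil .nil))) 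
(.lf (nat_lit 37675) (.g (nat_lit 2496) (.e (nat_lit 1221) (nat_lit 90) (.e (nat_lit 81947) (nat_lit 20) (.e (nat_lit 2003) (nat_lit 138) (.e (nat_lit 671762) (nat_lit 4) (.e (nat_lit 65604) (nat_lit 9) (.e (nat_lit 335997) (nat_lit 1) (.e (nat_lit 57870) (nat_lit 264) .nil))))))) (.g (nat_lit 5) .nil .nil)))) (.nd (nat_lit 5) 
(.lf (nat_lit 37659) (.g (nat_lit 1795) (.e (nat_lit 1221) (nat_lit 90) (.e (nat_lit 81938) (nat_lit 20) (.e (nat_lit 2281) (nat_lit 150) (.e (nat_lit 770072) (nat_lit 8) (.e (nat_lit 65619) (nat_lit 10) (.e (nat_lit 344090) (nat_lit 18) (.e (nat_lit 7236) (nat_lit 382) .nil))))))) (.g (nat_lit 4) .nil .nil))) 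
(.lf (nat_lit 37691) (.g (nat_lit 2073) (.e (nat_lit 1221) (nat_lit 90) (.e (nat_lit 81947) (nat_lit 20) (.e (nat_lit 2006) (nat_lit 138) (.e (nat_lit 671748) (nat_lit 0) (.e (nat_lit 1586) (nat_lit 111) (.e (nat_lit 368384) (nat_lit 0) (.e (nat_lit 5905) (nat_lit 320) .nil))))))) (.g (nat_lit 4) .nil .nil)))))) (.nd (nat_lit 3) (.nd (nat_lit 4) (.nd (nat_lit 5) 
(.lf (nat_lit 37639) (.g (nat_lit 2085) (.e (nat_lit 1221) (nat_lit 90) (.e (nat_lit 81938) (nat_lit 20) (.e (nat_lit 2006) (nat_lit 138) (.e (nat_lit 671748) (nat_lit 0) (.e (nat_lit 1595) (nat_lit 111) (.e (nat_lit 368384) (nat_lit 0) (.e (nat_lit 5902) (nat_lit 320) .nil))))))) (.g (nat_lit 5) .nil .nil))) 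
(.lf (nat_lit 37671) (.g (nat_lit 1918) (.e (nat_lit 1221) (nat_lit 90) (.e (nat_lit 81947) (nat_lit 20) (.e (nat_lit 2003) (nat_lit 138) (.e (nat_lit 671747) (nat_lit 0) (.e (nat_lit 1598) (nat_lit 111) (.e (nat_lit 360452) (nat_lit 0) (.e (nat_lit 5905) (nat_lit 320) .nil))))))) (.g (nat_lit 4) .nil .nil)))) (.nd (nat_lit 5) 
(.lf (nat_lit 37655) (.g (nat_lit 1703) (.e (nat_lit 1221) (nat_lit 90) (.e (nat_lit 81938) (nat_lit 20) (.e (nat_lit 2281) (nat_lit 150) (.e (nat_lit 770058) (nat_lit 5) (.e (nat_lit 1595) (nat_lit 111) (.e (nat_lit 368384) (nat_lit 0) (.e (nat_lit 7237) (nat_lit 382) .nil))))))) (.g (nat_lit 4) .nil .nil))) 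
(.lf (nat_lit 37687) (.g (nat_lit 3677) (.e (nat_lit 1221) (nat_lit 90) (.e (nat_lit 81947) (nat_lit 20) (.e (nat_lit 2005) (nat_lit 138) (.e (nat_lit 671762) (nat_lit 4) (.e (nat_lit 65610) (nat_lit 10) (.e (nat_lit 344097) (nat_lit 18) (.e (nat_lit 5906) (nat_lit 320) .nil))))))) (.g (nat_lit 7) .nil .nil))))) (.nd (nat_lit 4) (.nd (nat_lit 5) 
(.lf (nat_lit 37647) (.g (nat_lit 3719) (.e (nat_lit 1221) (nat_lit 90) (.e (nat_lit 81938) (nat_lit 20) (.e (nat_lit 2006) (nat_lit 138) (.e (nat_lit 671762) (nat_lit 4) (.e (nat_lit 65604) (nat_lit 9) (.e (nat_lit 335997) (nat_lit 1) (.e (nat_lit 57872) (nat_lit 264) .nil))))))) (.g (nat_lit 0) .nil .nil))) 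
(.lf (nat_lit 37679) (.g (nat_lit 1654) (.e (nat_lit 1221) (nat_lit 90) (.e (nat_lit 81947) (nat_lit 20) (.e (nat_lit 2005) (nat_lit 138) (.e (nat_lit 671747) (nat_lit 0) (.e (nat_lit 1598) (nat_lit 111) (.e (nat_lit 360452) (nat_lit 0) (.e (nat_lit 5905) (nat_lit 320) .nil))))))) (.g (nat_lit 4) .nil .nil)))) (.nd (nat_lit 5) 
(.lf (nat_lit 37663) (.g (nat_lit 608) (.e (nat_lit 1221) (nat_lit 90) (.e (nat_lit 81947) (nat_lit 20) (.e (nat_lit 1885) (nat_lit 127) .nil))) .nil)) 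
(.lf (nat_lit 37695) (.g (nat_lit 2917) (.e (nat_lit 1221) (nat_lit 90) (.e (nat_lit 81947) (nat_lit 20) (.e (nat_lit 2006) (nat_lit 138) (.e (nat_lit 671748) (nat_lit 0) (.e (nat_lit 1598) (nat_lit 111) (.e (nat_lit 360452) (nat_lit 0) (.e (nat_lit 5905) (nat_lit 320) .nil))))))) (.g (nat_lit 6) .nil .nil)))))))))

noncomputable def tv525 : DT := (.nd (nat_lit 0) (.nd (nat_lit 1) (.nd (nat_lit 2) (.nd (nat_lit 3) (.nd (nat_lit 4) (.nd (nat_lit 5) 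
(.lf (nat_lit 37696) (.g (nat_lit 2023) (.e (nat_lit 1221) (nat_lit 90) (.e (nat_lit 81947) (nat_lit 20) (.e (nat_lit 2006) (nat_lit 138) (.e (nat_lit 671748) (nat_lit 0) (.e (nat_lit 1598) (nat_lit 111) (.e (nat_lit 368384) (nat_lit 0) (.e (nat_lit 5906) (nat_lit 320) .nil))))))) (.g (nat_lit 4) .nil .nil))) 
(.lf (nat_lit 37728) (.g (nat_lit 2339) (.e (nat_lit 1221) (nat_lit 90) (.e (nat_lit 81950) (nat_lit 21) (.e (nat_lit 57681) (nat_lit 155) (.e (nat_lit 122919) (nat_lit 15) (.e (nat_lit 360453) (nat_lit 0) (.e (nat_lit 7936) (nat_lit 382) .nil)))))) (.g (nat_lit 4) .nil .nil)))) (.nd (nat_lit 5) 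
(.lf (nat_lit 37712) (.g (nat_lit 2008) (.e (nat_lit 1221) (nat_lit 90) (.e (nat_lit 81948) (nat_lit 21) (.e (nat_lit 57872) (nat_lit 264) (.e (nat_lit 1221) (nat_lit 90) (.e (nat_lit 81948) (nat_lit 21) .nil))))) .nil)) 
(.lf (nat_lit 37744) (.g (nat_lit 3032) (.e (nat_lit 1221) (nat_lit 90) (.e (nat_lit 81950) (nat_lit 21) (.e (nat_lit 57854) (nat_lit 252) (.e (nat_lit 57389) (nat_lit 5) (.e (nat_lit 122624) (nat_lit 12) (.e (nat_lit 434202) (nat_lit 18) (.e (nat_lit 4598) (nat_lit 269) .nil))))))) (.g (nat_lit 4) .nil .nil))))) (.nd (nat_lit 4) (.nd (nat_lit 5) 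
(.lf (nat_lit 37704) (.g (nat_lit 2124) (.e (nat_lit 1221) (nat_lit 90) (.e (nat_lit 81947) (nat_lit 20) (.e (nat_lit 2006) (nat_lit 138) (.e (nat_lit 671762) (nat_lit 4) (.e (nat_lit 65619) (nat_lit 10) (.e (nat_lit 344097) (nat_lit 18) (.e (nat_lit 5905) (nat_lit 320) .nil))))))) (.g (nat_lit 4) .nil .nil))) 
(.lf (nat_lit 37736) (.g (nat_lit 2876) (.e (nat_lit 1221) (nat_lit 90) (.e (nat_lit 81950) (nat_lit 21) (.e (nat_lit 57848) (nat_lit 252) (.e (nat_lit 57388) (nat_lit 5) (.e (nat_lit 122624) (nat_lit 12) (.e (nat_lit 434207) (nat_lit 18) (.e (nat_lit 4598) (nat_lit 269) .nil))))))) (.g (nat_lit 4) .nil .nil)))) (.nd (nat_lit 5) 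
(.lf (nat_lit 37720) (.g (nat_lit 3085) (.e (nat_lit 1221) (nat_lit 90) (.e (nat_lit 81950) (nat_lit 21) (.e (nat_lit 57681) (nat_lit 155) (.e (nat_lit 122917) (nat_lit 15) (.e (nat_lit 360456) (nat_lit 0) (.e (nat_lit 7936) (nat_lit 382) .nil)))))) (.g (nat_lit 5) .nil .nil))) 
(.lf (nat_lit 37752) (.g (nat_lit 3254) (.e (nat_lit 1221) (nat_lit 90) (.e (nat_lit 81950) (nat_lit 21) (.e (nat_lit 57871) (nat_lit 264) (.e (nat_lit 1220) (nat_lit 90) (.e (nat_lit 81950) (nat_lit 21) (.e (nat_lit 57871) (nat_lit 264) .nil)))))) (.g (nat_lit 0) .nil .nil)))))) (.nd (nat_lit 3) (.nd (nat_lit 4) (.nd (nat_lit 5) 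
(.lf (nat_lit 37700) (.g (nat_lit 3579) (.e (nat_lit 1221) (nat_lit 90) (.e (nat_lit 81947) (nat_lit 20) (.e (nat_lit 2006) (nat_lit 138) (.e (nat_lit 671762) (nat_lit 4) (.e (nat_lit 65598) (nat_lit 9) (.e (nat_lit 335997) (nat_lit 1) (.e (nat_lit 57872) (nat_lit 264) .nil))))))) (.g (nat_lit 6) .nil .nil))) 
(.lf (nat_lit 37732) (.g (nat_lit 2788) (.e (nat_lit 1221) (nat_lit 90) (.e (nat_lit 81950) (nat_lit 21) (.e (nat_lit 57844) (nat_lit 252) (.e (nat_lit 57388) (nat_lit 5) (.e (nat_lit 122624) (nat_lit 12) (.e (nat_lit 434202) (nat_lit 18) (.e (nat_lit 4598) (nat_lit 269) .nil))))))) (.g (nat_lit 4) .nil .nil)))) (.nd (nat_lit 5) 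
(.lf (nat_lit 37716) (.g (nat_lit 1308) (.e (nat_lit 1221) (nat_lit 90) (.e (nat_lit 81948) (nat_lit 21) (.e (nat_lit 57873) (nat_lit 264) (.e (nat_lit 7936) (nat_lit 90) .nil)))) .nil)) 
(.lf (nat_lit 37748) (.g (nat_lit 1853) (.e (nat_lit 1221) (nat_lit 90) (.e (nat_lit 81950) (nat_lit 21) (.e (nat_lit 57870) (nat_lit 264) (.e (nat_lit 1221) (nat_lit 90) (.e (nat_lit 81948) (nat_lit 21) (.e (nat_lit 57870) (nat_lit 264) .nil)))))) (.g (nat_lit 4) .nil .nil))))) (.nd (nat_lit 4) (.nd (nat_lit 5) 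
(.lf (nat_lit 37708) (.g (nat_lit 1842) (.e (nat_lit 1221) (nat_lit 90) (.e (nat_lit 81947) (nat_lit 20) (.e (nat_lit 2270) (nat_lit 149) (.e (nat_lit 761868) (nat_lit 5) (.e (nat_lit 1597) (nat_lit 111) (.e (nat_lit 368384) (nat_lit 0) (.e (nat_lit 7237) (nat_lit 382) .nil))))))) (.g (nat_lit 5) .nil .nil))) 
(.lf (nat_lit 37740) (.g (nat_lit 3025) (.e (nat_lit 1221) (nat_lit 90) (.e (nat_lit 81950) (nat_lit 21) (.e (nat_lit 57849) (nat_lit 252) (.e (nat_lit 57388) (nat_lit 5) (.e (nat_lit 122624) (nat_lit 12) (.e (nat_lit 434208) (nat_lit 18) (.e (nat_lit 4598) (nat_lit 269) .nil))))))) (.g (nat_lit 4) .nil .nil)))) (.nd (nat_lit 5) 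
(.lf (nat_lit 37724) (.g (nat_lit 2283) (.e (nat_lit 1221) (nat_lit 90) (.e (nat_lit 81950) (nat_lit 21) (.e (nat_lit 57681) (nat_lit 155) (.e (nat_lit 122919) (nat_lit 15) (.e (nat_lit 360448) (nat_lit 0) (.e (nat_lit 7233) (nat_lit 382) .nil)))))) (.g (nat_lit 4) .nil .nil))) 
(.lf (nat_lit 37756) (.g (nat_lit 3027) (.e (nat_lit 1221) (nat_lit 90) (.e (nat_lit 81950) (nat_lit 21) (.e (nat_lit 57872) (nat_lit 264) (.e (nat_lit 1220) (nat_lit 90) (.e (nat_lit 81950) (nat_lit 21) (.e (nat_lit 57870) (nat_lit 264) .nil)))))) (.g (nat_lit 5) .nil .nil))))))) (.nd (nat_lit 2) (.nd (nat_lit 3) (.nd (nat_lit 4) (.nd (nat_lit 5) 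
(.lf (nat_lit 37698) (.g (nat_lit 2468) (.e (nat_lit 1221) (nat_lit 90) (.e (nat_lit 81947) (nat_lit 20) (.e (nat_lit 2006) (nat_lit 138) (.e (nat_lit 671760) (nat_lit 4) (.e (nat_lit 65619) (nat_lit 10) (.e (nat_lit 344097) (nat_lit 18) (.e (nat_lit 5906) (nat_lit 320) .nil))))))) (.g (nat_lit 5) .nil .nil))) 
(.lf (nat_lit 37730) (.g (nat_lit 3559) (.e (nat_lit 1221) (nat_lit 90) (.e (nat_lit 81950) (nat_lit 21) (.e (nat_lit 57681) (nat_lit 155) (.e (nat_lit 122919) (nat_lit 15) (.e (nat_lit 360457) (nat_lit 0) (.e (nat_lit 7936) (nat_lit 382) .nil)))))) (.g (nat_lit 5) .nil .nil)))) (.nd (nat_lit 5) 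
(.lf (nat_lit 37714) (.g (nat_lit 1301) (.e (nat_lit 1221) (nat_lit 90) (.e (nat_lit 81948) (nat_lit 21) (.e (nat_lit 57873) (nat_lit 264) (.e (nat_lit 993) (nat_lit 81) .nil)))) .nil)) 
(.lf (nat_lit 37746) (.g (nat_lit 3172) (.e (nat_lit 1221) (nat_lit 90) (.e (nat_lit 81950) (nat_lit 21) (.e (nat_lit 57857) (nat_lit 254) (.e (nat_lit 163920) (nat_lit 14) (.e (nat_lit 442430) (nat_lit 24) (.e (nat_lit 229632) (nat_lit 226) .nil)))))) (.g (nat_lit 5) .nil .nil))))) (.nd (nat_lit 4) (.nd (nat_lit 5) 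
(.lf (nat_lit 37706) (.g (nat_lit 1816) (.e (nat_lit 1221) (nat_lit 90) (.e (nat_lit 81947) (nat_lit 20) (.e (nat_lit 2006) (nat_lit 138) (.e (nat_lit 671764) (nat_lit 6) (.e (nat_lit 81949) (nat_lit 21) (.e (nat_lit 57870) (nat_lit 264) .nil)))))) (.g (nat_lit 4) .nil .nil))) 
(.lf (nat_lit 37738) (.g (nat_lit 525) (.e (nat_lit 1221) (nat_lit 90) (.e (nat_lit 81950) (nat_lit 21) (.e (nat_lit 57849) (nat_lit 252) .nil))) .nil))) (.nd (nat_lit 5) 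
(.lf (nat_lit 37722) (.g (nat_lit 1710) (.e (nat_lit 1221) (nat_lit 90) (.e (nat_lit 81950) (nat_lit 21) (.e (nat_lit 57681) (nat_lit 155) (.e (nat_lit 122917) (nat_lit 15) (.e (nat_lit 368384) (nat_lit 0) .nil))))) .nil)) 
(.lf (nat_lit 37754) (.g (nat_lit 3197) (.e (nat_lit 1221) (nat_lit 90) (.e (nat_lit 81950) (nat_lit 21) (.e (nat_lit 57872) (nat_lit 264) (.e (nat_lit 1219) (nat_lit 90) (.e (nat_lit 81948) (nat_lit 21) (.e (nat_lit 57871) (nat_lit 264) .nil)))))) (.g (nat_lit 0) .nil .nil)))))) (.nd (nat_lit 3) (.nd (nat_lit 4) (.nd (nat_lit 5) 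
(.lf (nat_lit 37702) (.g (nat_lit 3676) (.e (nat_lit 1221) (nat_lit 90) (.e (nat_lit 81947) (nat_lit 20) (.e (nat_lit 2006) (nat_lit 138) (.e (nat_lit 671762) (nat_lit 4) (.e (nat_lit 65604) (nat_lit 9) (.e (nat_lit 335997) (nat_lit 1) (.e (nat_lit 57872) (nat_lit 264) .nil))))))) (.g (nat_lit 7) .nil .nil))) 
(.lf (nat_lit 37734) (.g (nat_lit 635) (.e (nat_lit 1221) (nat_lit 90) (.e (nat_lit 81950) (nat_lit 21) (.e (nat_lit 57848) (nat_lit 252) .nil))) .nil))) (.nd (nat_lit 5) 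
(.lf (nat_lit 37718) (.g (nat_lit 2080) (.e (nat_lit 1221) (nat_lit 90) (.e (nat_lit 81950) (nat_lit 21) (.e (nat_lit 57681) (nat_lit 155) (.e (nat_lit 122917) (nat_lit 15) (.e (nat_lit 360448) (nat_lit 0) (.e (nat_lit 7237) (nat_lit 382) .nil)))))) (.g (nat_lit 4) .nil .nil))) 
(.lf (nat_lit 37750) (.g (nat_lit 3012) (.e (nat_lit 1221) (nat_lit 90) (.e (nat_lit 81950) (nat_lit 21) (.e (nat_lit 57870) (nat_lit 264) (.e (nat_lit 1221) (nat_lit 90) (.e (nat_lit 81950) (nat_lit 21) (.e (nat_lit 57871) (nat_lit 264) .nil)))))) (.g (nat_lit 0) .nil .nil))))) (.nd (nat_lit 4) (.nd (nat_lit 5) 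
(.lf (nat_lit 37710) (.g (nat_lit 2496) (.e (nat_lit 1221) (nat_lit 90) (.e (nat_lit 81948) (nat_lit 21) (.e (nat_lit 57872) (nat_lit 264) (.e (nat_lit 1190) (nat_lit 88) (.e (nat_lit 65604) (nat_lit 9) (.e (nat_lit 335997) (nat_lit 1) (.e (nat_lit 57870) (nat_lit 264) .nil))))))) (.g (nat_lit 5) .nil .nil))) 
(.lf (nat_lit 37742) (.g (nat_lit 3024) (.e (nat_lit 1221) (nat_lit 90) (.e (nat_lit 81950) (nat_lit 21) (.e (nat_lit 57849) (nat_lit 252) (.e (nat_lit 57390) (nat_lit 5) (.e (nat_lit 122624) (nat_lit 12) (.e (nat_lit 434208) (nat_lit 18) (.e (nat_lit 4598) (nat_lit 269) .nil))))))) (.g (nat_lit 4) .nil .nil)))) (.nd (nat_lit 5) 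
(.lf (nat_lit 37726) (.g (nat_lit 3099) (.e (nat_lit 1221) (nat_lit 90) (.e (nat_lit 81950) (nat_lit 21) (.e (nat_lit 57681) (nat_lit 155) (.e (nat_lit 122919) (nat_lit 15) (.e (nat_lit 360450) (nat_lit 0) (.e (nat_lit 7936) (nat_lit 382) .nil)))))) (.g (nat_lit 5) .nil .nil))) 
(.lf (nat_lit 37758) (.g (nat_lit 3541) (.e (nat_lit 1221) (nat_lit 90) (.e (nat_lit 81950) (nat_lit 21) (.e (nat_lit 57872) (nat_lit 264) (.e (nat_lit 1221) (nat_lit 90) (.e (nat_lit 81950) (nat_lit 21) (.e (nat_lit 57871) (nat_lit 264) .nil)))))) (.g (nat_lit 0) .nil .nil)))))))) (.nd (nat_lit 1) (.nd (nat_lit 2) (.nd (nat_lit 3) (.nd (nat_lit 4) (.nd (nat_lit 5) 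
(.lf (nat_lit 37697) (.g (nat_lit 1915) (.e (nat_lit 1221) (nat_lit 90) (.e (nat_lit 81947) (nat_lit 20) (.e (nat_lit 2006) (nat_lit 138) (.e (nat_lit 671748) (nat_lit 0) (.e (nat_lit 1599) (nat_lit 111) (.e (nat_lit 368384) (nat_lit 0) (.e (nat_lit 5906) (nat_lit 320) .nil))))))) (.g (nat_lit 4) .nil .nil))) 
(.lf (nat_lit 37729) (.g (nat_lit 3494) (.e (nat_lit 1221) (nat_lit 90) (.e (nat_lit 81950) (nat_lit 21) (.e (nat_lit 57681) (nat_lit 155) (.e (nat_lit 122919) (nat_lit 15) (.e (nat_lit 360456) (nat_lit 0) (.e (nat_lit 7936) (nat_lit 382) .nil)))))) (.g (nat_lit 5) .nil .nil)))) (.nd (nat_lit 5) 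
(.lf (nat_lit 37713) (.g (nat_lit 2321) (.e (nat_lit 1221) (nat_lit 90) (.e (nat_lit 81948) (nat_lit 21) (.e (nat_lit 57872) (nat_lit 264) (.e (nat_lit 1221) (nat_lit 90) (.e (nat_lit 81950) (nat_lit 21) (.e (nat_lit 57870) (nat_lit 264) .nil)))))) (.g (nat_lit 5) .nil .nil))) 
(.lf (nat_lit 37745) (.g (nat_lit 635) (.e (nat_lit 1221) (nat_lit 90) (.e (nat_lit 81950) (nat_lit 21) (.e (nat_lit 57857) (nat_lit 254) .nil))) .nil)))) (.nd (nat_lit 4) (.nd (nat_lit 5) 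
(.lf (nat_lit 37705) (.g (nat_lit 3627) (.e (nat_lit 1221) (nat_lit 90) (.e (nat_lit 81947) (nat_lit 20) (.e (nat_lit 2006) (nat_lit 138) (.e (nat_lit 671762) (nat_lit 4) (.e (nat_lit 65619) (nat_lit 10) (.e (nat_lit 344097) (nat_lit 18) (.e (nat_lit 5906) (nat_lit 320) .nil))))))) (.g (nat_lit 7) .nil .nil))) 
(.lf (nat_lit 37737) (.g (nat_lit 2824) (.e (nat_lit 1221) (nat_lit 90) (.e (nat_lit 81950) (nat_lit 21) (.e (nat_lit 57848) (nat_lit 252) (.e (nat_lit 57388) (nat_lit 5) (.e (nat_lit 122624) (nat_lit 12) (.e (nat_lit 434208) (nat_lit 18) (.e (nat_lit 4598) (nat_lit 269) .nil))))))) (.g (nat_lit 4) .nil .nil)))) (.nd (nat_lit 5) 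
(.lf (nat_lit 37721) (.g (nat_lit 3303) (.e (nat_lit 1221) (nat_lit 90) (.e (nat_lit 81950) (nat_lit 21) (.e (nat_lit 57681) (nat_lit 155) (.e (nat_lit 122917) (nat_lit 15) (.e (nat_lit 360457) (nat_lit 0) (.e (nat_lit 7936) (nat_lit 382) .nil)))))) (.g (nat_lit 5) .nil .nil))) 
(.lf (nat_lit 37753) (.g (nat_lit 3060) (.e (nat_lit 1221) (nat_lit 90) (.e (nat_lit 81950) (nat_lit 21) (.e (nat_lit 57871) (nat_lit 264) (.e (nat_lit 1221) (nat_lit 90) (.e (nat_lit 81950) (nat_lit 21) (.e (nat_lit 57871) (nat_lit 264) .nil)))))) (.g (nat_lit 0) .nil .nil)))))) (.nd (nat_lit 3) (.nd (nat_lit 4) (.nd (nat_lit 5) 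
(.lf (nat_lit 37701) (.g (nat_lit 2608) (.e (nat_lit 1221) (nat_lit 90) (.e (nat_lit 81947) (nat_lit 20) (.e (nat_lit 2006) (nat_lit 138) (.e (nat_lit 671762) (nat_lit 4) (.e (nat_lit 65604) (nat_lit 9) (.e (nat_lit 335997) (nat_lit 1) (.e (nat_lit 57870) (nat_lit 264) .nil))))))) (.g (nat_lit 5) .nil .nil))) 
(.lf (nat_lit 37733) (.g (nat_lit 2984) (.e (nat_lit 1221) (nat_lit 90) (.e (nat_lit 81950) (nat_lit 21) (.e (nat_lit 57844) (nat_lit 252) (.e (nat_lit 57389) (nat_lit 5) (.e (nat_lit 122624) (nat_lit 12) (.e (nat_lit 434202) (nat_lit 18) (.e (nat_lit 4598) (nat_lit 269) .nil))))))) (.g (nat_lit 4) .nil .nil)))) (.nd (nat_lit 5) 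
(.lf (nat_lit 37717) (.g (nat_lit 510) (.e (nat_lit 1221) (nat_lit 90) (.e (nat_lit 81950) (nat_lit 21) (.e (nat_lit 57655) (nat_lit 152) .nil))) .nil)) 
(.lf (nat_lit 37749) (.g (nat_lit 1838) (.e (nat_lit 1221) (nat_lit 90) (.e (nat_lit 81950) (nat_lit 21) (.e (nat_lit 57870) (nat_lit 264) (.e (nat_lit 1221) (nat_lit 90) (.e (nat_lit 81948) (nat_lit 21) (.e (nat_lit 57871) (nat_lit 264) .nil)))))) (.g (nat_lit 4) .nil .nil))))) (.nd (nat_lit 4) (.nd (nat_lit 5) 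
(.lf (nat_lit 37709) (.g (nat_lit 3156) (.e (nat_lit 1221) (nat_lit 90) (.e (nat_lit 81948) (nat_lit 21) (.e (nat_lit 57871) (nat_lit 264) (.e (nat_lit 1221) (nat_lit 90) (.e (nat_lit 81950) (nat_lit 21) (.e (nat_lit 57873) (nat_lit 264) .nil)))))) (.g (nat_lit 6) .nil .nil))) 
(.lf (nat_lit 37741) (.g (nat_lit 3076) (.e (nat_lit 1221) (nat_lit 90) (.e (nat_lit 81950) (nat_lit 21) (.e (nat_lit 57849) (nat_lit 252) (.e (nat_lit 57390) (nat_lit 5) (.e (nat_lit 122624) (nat_lit 12) (.e (nat_lit 434207) (nat_lit 18) (.e (nat_lit 4598) (nat_lit 269) .nil))))))) (.g (nat_lit 4) .nil .nil)))) (.nd (nat_lit 5) 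
(.lf (nat_lit 37725) (.g (nat_lit 2731) (.e (nat_lit 1221) (nat_lit 90) (.e (nat_lit 81950) (nat_lit 21) (.e (nat_lit 57681) (nat_lit 155) (.e (nat_lit 122919) (nat_lit 15) (.e (nat_lit 360448) (nat_lit 0) (.e (nat_lit 7236) (nat_lit 382) .nil)))))) (.g (nat_lit 4) .nil .nil))) 
(.lf (nat_lit 37757) (.g (nat_lit 3166) (.e (nat_lit 1221) (nat_lit 90) (.e (nat_lit 81950) (nat_lit 21) (.e (nat_lit 57872) (nat_lit 264) (.e (nat_lit 1221) (nat_lit 90) (.e (nat_lit 81948) (nat_lit 21) (.e (nat_lit 57871) (nat_lit 264) .nil)))))) (.g (nat_lit 5) .nil .nil))))))) (.nd (nat_lit 2) (.nd (nat_lit 3) (.nd (nat_lit 4) (.nd (nat_lit 5) 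
(.lf (nat_lit 37699) (.g (nat_lit 2577) (.e (nat_lit 1221) (nat_lit 90) (.e (nat_lit 81947) (nat_lit 20) (.e (nat_lit 2006) (nat_lit 138) (.e (nat_lit 671762) (nat_lit 4) (.e (nat_lit 65598) (nat_lit 9) (.e (nat_lit 335997) (nat_lit 1) (.e (nat_lit 57870) (nat_lit 264) .nil))))))) (.g (nat_lit 4) .nil .nil))) 
(.lf (nat_lit 37731) (.g (nat_lit 2194) (.e (nat_lit 1221) (nat_lit 90) (.e (nat_lit 81950) (nat_lit 21) (.e (nat_lit 57681) (nat_lit 155) (.e (nat_lit 122919) (nat_lit 15) (.e (nat_lit 368384) (nat_lit 0) .nil))))) .nil))) (.nd (nat_lit 5) 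
(.lf (nat_lit 37715) (.g (nat_lit 2082) (.e (nat_lit 1221) (nat_lit 90) (.e (nat_lit 81948) (nat_lit 21) (.e (nat_lit 57873) (nat_lit 264) (.e (nat_lit 1221) (nat_lit 90) (.e (nat_lit 81950) (nat_lit 21) (.e (nat_lit 57870) (nat_lit 264) .nil)))))) (.g (nat_lit 4) .nil .nil))) 
(.lf (nat_lit 37747) (.g (nat_lit 1326) (.e (nat_lit 1221) (nat_lit 90) (.e (nat_lit 81950) (nat_lit 21) (.e (nat_lit 57870) (nat_lit 264) (.e (nat_lit 1220) (nat_lit 90) (.e (nat_lit 81948) (nat_lit 21) .nil))))) .nil)))) (.nd (nat_lit 4) (.nd (nat_lit 5) 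
(.lf (nat_lit 37707) (.g (nat_lit 2042) (.e (nat_lit 1221) (nat_lit 90) (.e (nat_lit 81947) (nat_lit 20) (.e (nat_lit 2006) (nat_lit 138) (.e (nat_lit 671764) (nat_lit 6) (.e (nat_lit 81949) (nat_lit 21) (.e (nat_lit 57872) (nat_lit 264) .nil)))))) (.g (nat_lit 4) .nil .nil))) 
(.lf (nat_lit 37739) (.g (nat_lit 3077) (.e (nat_lit 1221) (nat_lit 90) (.e (nat_lit 81950) (nat_lit 21) (.e (nat_lit 57849) (nat_lit 252) (.e (nat_lit 57388) (nat_lit 5) (.e (nat_lit 122624) (nat_lit 12) (.e (nat_lit 434207) (nat_lit 18) (.e (nat_lit 4598) (nat_lit 269) .nil))))))) (.g (nat_lit 4) .nil .nil)))) (.nd (nat_lit 5) 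
(.lf (nat_lit 37723) (.g (nat_lit 2478) (.e (nat_lit 1221) (nat_lit 90) (.e (nat_lit 81950) (nat_lit 21) (.e (nat_lit 57681) (nat_lit 155) (.e (nat_lit 122918) (nat_lit 15) (.e (nat_lit 368384) (nat_lit 0) (.e (nat_lit 7236) (nat_lit 382) .nil)))))) (.g (nat_lit 4) .nil .nil))) 
(.lf (nat_lit 37755) (.g (nat_lit 2590) (.e (nat_lit 1221) (nat_lit 90) (.e (nat_lit 81950) (nat_lit 21) (.e (nat_lit 57872) (nat_lit 264) (.e (nat_lit 1219) (nat_lit 90) (.e (nat_lit 81950) (nat_lit 21) (.e (nat_lit 57871) (nat_lit 264) .nil)))))) (.g (nat_lit 4) .nil .nil)))))) (.nd (nat_lit 3) (.nd (nat_lit 4) (.nd (nat_lit 5) 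
(.lf (nat_lit 37703) (.g (nat_lit 3704) (.e (nat_lit 1221) (nat_lit 90) (.e (nat_lit 81947) (nat_lit 20) (.e (nat_lit 2006) (nat_lit 138) (.e (nat_lit 671762) (nat_lit 4) (.e (nat_lit 65610) (nat_lit 10) (.e (nat_lit 344097) (nat_lit 18) (.e (nat_lit 5906) (nat_lit 320) .nil))))))) (.g (nat_lit 7) .nil .nil))) 
(.lf (nat_lit 37735) (.g (nat_lit 3543) (.e (nat_lit 1221) (nat_lit 90) (.e (nat_lit 81950) (nat_lit 21) (.e (nat_lit 57848) (nat_lit 252) (.e (nat_lit 57388) (nat_lit 5) (.e (nat_lit 114698) (nat_lit 11) (.e (nat_lit 426107) (nat_lit 1) (.e (nat_lit 164421) (nat_lit 272) .nil))))))) (.g (nat_lit 5) .nil .nil)))) (.nd (nat_lit 5) 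
(.lf (nat_lit 37719) (.g (nat_lit 2697) (.e (nat_lit 1221) (nat_lit 90) (.e (nat_lit 81950) (nat_lit 21) (.e (nat_lit 57681) (nat_lit 155) (.e (nat_lit 122917) (nat_lit 15) (.e (nat_lit 360449) (nat_lit 0) (.e (nat_lit 7236) (nat_lit 382) .nil)))))) (.g (nat_lit 5) .nil .nil))) 
(.lf (nat_lit 37751) (.g (nat_lit 2400) (.e (nat_lit 1221) (nat_lit 90) (.e (nat_lit 81950) (nat_lit 21) (.e (nat_lit 57870) (nat_lit 264) (.e (nat_lit 1221) (nat_lit 90) (.e (nat_lit 81959) (nat_lit 24) (.e (nat_lit 123191) (nat_lit 264) .nil)))))) (.g (nat_lit 5) .nil .nil))))) (.nd (nat_lit 4) (.nd (nat_lit 5) 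
(.lf (nat_lit 37711) (.g (nat_lit 2429) (.e (nat_lit 1221) (nat_lit 90) (.e (nat_lit 81948) (nat_lit 21) (.e (nat_lit 57872) (nat_lit 264) (.e (nat_lit 1200) (nat_lit 88) (.e (nat_lit 65604) (nat_lit 9) (.e (nat_lit 335997) (nat_lit 1) (.e (nat_lit 57870) (nat_lit 264) .nil))))))) (.g (nat_lit 5) .nil .nil))) 
(.lf (nat_lit 37743) (.g (nat_lit 2740) (.e (nat_lit 1221) (nat_lit 90) (.e (nat_lit 81950) (nat_lit 21) (.e (nat_lit 57854) (nat_lit 252) (.e (nat_lit 57388) (nat_lit 5) (.e (nat_lit 122624) (nat_lit 12) (.e (nat_lit 434202) (nat_lit 18) (.e (nat_lit 4598) (nat_lit 269) .nil))))))) (.g (nat_lit 4) .nil .nil)))) (.nd (nat_lit 5) 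
(.lf (nat_lit 37727) (.g (nat_lit 3622) (.e (nat_lit 1221) (nat_lit 90) (.e (nat_lit 81950) (nat_lit 21) (.e (nat_lit 57681) (nat_lit 155) (.e (nat_lit 122919) (nat_lit 15) (.e (nat_lit 360451) (nat_lit 0) (.e (nat_lit 7936) (nat_lit 382) .nil)))))) (.g (nat_lit 5) .nil .nil))) 
(.lf (nat_lit 37759) (.g (nat_lit 3138) (.e (nat_lit 1221) (nat_lit 90) (.e (nat_lit 81950) (nat_lit 21) (.e (nat_lit 57872) (nat_lit 264) (.e (nat_lit 1221) (nat_lit 90) (.e (nat_lit 81959) (nat_lit 24) (.e (nat_lit 123191) (nat_lit 264) .nil)))))) (.g (nat_lit 0) .nil .nil)))))))))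

noncomputable def tv526 : DT := (.nd (nat_lit 0) (.nd (nat_lit 1) (.nd (nat_lit 2) (.nd (nat_lit 3) (.nd (nat_lit 4) (.nd (nat_lit 5) (.nd (nat_lit 6) 
(.lf (nat_lit 37760) (.g (nat_lit 412) (.e (nat_lit 1221) (nat_lit 90) (.e (nat_lit 81950) (nat_lit 21) (.e (nat_lit 57873) (nat_lit 264) .nil))) .nil)) 
(.lf (nat_lit 37824) (.g (nat_lit 4073) (.e (nat_lit 1221) (nat_lit 90) (.e (nat_lit 81953) (nat_lit 22) (.e (nat_lit 90160) (nat_lit 11) (.e (nat_lit 24599) (nat_lit 1) (.e (nat_lit 57854) (nat_lit 252) (.e (nat_lit 57363) (nat_lit 1) (.e (nat_lit 57754) (nat_lit 209) .nil))))))) (.g (nat_lit 4) .nil .nil)))) (.nd (nat_lit 6) 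
(.lf (nat_lit 37792) (.g (nat_lit 4210) (.e (nat_lit 1221) (nat_lit 90) (.e (nat_lit 81953) (nat_lit 22) (.e (nat_lit 90134) (nat_lit 9) (.e (nat_lit 3098) (nat_lit 192) (.e (nat_lit 491566) (nat_lit 12) (.e (nat_lit 385043) (nat_lit 21) (.e (nat_lit 4210) (nat_lit 251) .nil))))))) (.g (nat_lit 5) .nil .nil))) 
(.lf (nat_lit 37856) (.g (nat_lit 3736) (.e (nat_lit 1221) (nat_lit 90) (.e (nat_lit 81956) (nat_lit 23) (.e (nat_lit 98313) (nat_lit 9) (.e (nat_lit 335986) (nat_lit 1) (.e (nat_lit 57847) (nat_lit 252) (.e (nat_lit 57367) (nat_lit 1) (.e (nat_lit 57755) (nat_lit 209) .nil))))))) (.g (nat_lit 5) .nil .nil))))) (.nd (nat_lit 5) (.nd (nat_lit 6) 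
(.lf (nat_lit 37776) (.g (nat_lit 2827) (.e (nat_lit 1221) (nat_lit 90) (.e (nat_lit 81953) (nat_lit 22) (.e (nat_lit 98048) (nat_lit 2) (.e (nat_lit 16446) (nat_lit 9) (.e (nat_lit 426098) (nat_lit 1) (.e (nat_lit 164195) (nat_lit 158) .nil)))))) (.g (nat_lit 5) .nil .nil))) 
(.lf (nat_lit 37840) (.g (nat_lit 1941) (.e (nat_lit 1221) (nat_lit 90) (.e (nat_lit 81953) (nat_lit 22) (.e (nat_lit 90170) (nat_lit 13) (.e (nat_lit 179968) (nat_lit 20) .nil)))) .nil))) (.nd (nat_lit 6) 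
(.lf (nat_lit 37808) (.g (nat_lit 4244) (.e (nat_lit 1221) (nat_lit 90) (.e (nat_lit 81953) (nat_lit 22) (.e (nat_lit 90134) (nat_lit 9) (.e (nat_lit 3098) (nat_lit 192) (.e (nat_lit 491566) (nat_lit 12) (.e (nat_lit 385051) (nat_lit 21) (.e (nat_lit 4214) (nat_lit 251) .nil))))))) (.g (nat_lit 5) .nil .nil))) 
(.lf (nat_lit 37872) (.g (nat_lit 4706) (.e (nat_lit 1221) (nat_lit 90) (.e (nat_lit 81956) (nat_lit 23) (.e (nat_lit 98313) (nat_lit 9) (.e (nat_lit 335995) (nat_lit 1) (.e (nat_lit 57849) (nat_lit 252) (.e (nat_lit 57363) (nat_lit 1) (.e (nat_lit 57755) (nat_lit 209) .nil))))))) (.g (nat_lit 5) .nil .nil)))))) (.nd (nat_lit 4) (.nd (nat_lit 5) (.nd (nat_lit 6) 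
(.lf (nat_lit 37768) (.g (nat_lit 473) (.e (nat_lit 1221) (nat_lit 90) (.e (nat_lit 81951) (nat_lit 22) (.e (nat_lit 90165) (nat_lit 12) .nil))) .nil)) 
(.lf (nat_lit 37832) (.g (nat_lit 2233) (.e (nat_lit 1221) (nat_lit 90) (.e (nat_lit 81953) (nat_lit 22) (.e (nat_lit 90165) (nat_lit 12) (.e (nat_lit 164023) (nat_lit 46) (.e (nat_lit 704660) (nat_lit 9) .nil))))) .nil))) (.nd (nat_lit 6) 
(.lf (nat_lit 37800) (.g (nat_lit 2554) (.e (nat_lit 1221) (nat_lit 90) (.e (nat_lit 81953) (nat_lit 22) (.e (nat_lit 90134) (nat_lit 9) (.e (nat_lit 3098) (nat_lit 192) (.e (nat_lit 491566) (nat_lit 12) (.e (nat_lit 385045) (nat_lit 21) (.e (nat_lit 4196) (nat_lit 251) .nil))))))) (.g (nat_lit 4) .nil .nil))) 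
(.lf (nat_lit 37864) (.g (nat_lit 4150) (.e (nat_lit 1221) (nat_lit 90) (.e (nat_lit 81956) (nat_lit 23) (.e (nat_lit 98313) (nat_lit 9) (.e (nat_lit 335995) (nat_lit 1) (.e (nat_lit 57847) (nat_lit 252) (.e (nat_lit 57392) (nat_lit 6) (.e (nat_lit 123109) (nat_lit 209) .nil))))))) (.g (nat_lit 4) .nil .nil))))) (.nd (nat_lit 5) (.nd (nat_lit 6) 
(.lf (nat_lit 37784) (.g (nat_lit 2134) (.e (nat_lit 1221) (nat_lit 90) (.e (nat_lit 81953) (nat_lit 22) (.e (nat_lit 90133) (nat_lit 9) (.e (nat_lit 2744) (nat_lit 174) (.e (nat_lit 253962) (nat_lit 9) (.e (nat_lit 1277) (nat_lit 94) (.e (nat_lit 114710) (nat_lit 21) (.e (nat_lit 57870) (nat_lit 264) .nil)))))))) (.g (nat_lit 4) .nil .nil))) 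
(.lf (nat_lit 37848) (.g (nat_lit 553) (.e (nat_lit 1221) (nat_lit 90) (.e (nat_lit 81956) (nat_lit 23) (.e (nat_lit 98309) (nat_lit 0) .nil))) .nil))) (.nd (nat_lit 6) 
(.lf (nat_lit 37816) (.g (nat_lit 1189) (.e (nat_lit 1221) (nat_lit 90) (.e (nat_lit 81953) (nat_lit 22) (.e (nat_lit 90156) (nat_lit 11) .nil))) .nil)) 
(.lf (nat_lit 37880) (.g (nat_lit 4668) (.e (nat_lit 1221) (nat_lit 90) (.e (nat_lit 81956) (nat_lit 23) (.e (nat_lit 98313) (nat_lit 9) (.e (nat_lit 335996) (nat_lit 1) (.e (nat_lit 57854) (nat_lit 252) (.e (nat_lit 57364) (nat_lit 1) (.e (nat_lit 57754) (nat_lit 209) .nil))))))) (.g (nat_lit 6) .nil .nil))))))) (.nd (nat_lit 3) (.nd (nat_lit 4) (.nd (nat_lit 5) (.nd (nat_lit 6) 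
(.lf (nat_lit 37764) (.g (nat_lit 2547) (.e (nat_lit 1221) (nat_lit 90) (.e (nat_lit 81950) (nat_lit 21) (.e (nat_lit 57873) (nat_lit 264) (.e (nat_lit 1221) (nat_lit 90) (.e (nat_lit 81959) (nat_lit 24) (.e (nat_lit 123191) (nat_lit 264) .nil)))))) (.g (nat_lit 4) .nil .nil))) 
(.lf (nat_lit 37828) (.g (nat_lit 2215) (.e (nat_lit 1221) (nat_lit 90) (.e (nat_lit 81953) (nat_lit 22) (.e (nat_lit 90165) (nat_lit 12) (.e (nat_lit 164022) (nat_lit 46) (.e (nat_lit 704628) (nat_lit 9) (.e (nat_lit 1277) (nat_lit 94) (.e (nat_lit 114711) (nat_lit 21) (.e (nat_lit 57872) (nat_lit 264) .nil)))))))) (.g (nat_lit 4) .nil .nil)))) (.nd (nat_lit 6) 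
(.lf (nat_lit 37796) (.g (nat_lit 4540) (.e (nat_lit 1221) (nat_lit 90) (.e (nat_lit 81953) (nat_lit 22) (.e (nat_lit 90134) (nat_lit 9) (.e (nat_lit 3098) (nat_lit 192) (.e (nat_lit 491566) (nat_lit 12) (.e (nat_lit 385044) (nat_lit 21) (.e (nat_lit 4197) (nat_lit 251) .nil))))))) (.g (nat_lit 5) .nil .nil))) 
(.lf (nat_lit 37860) (.g (nat_lit 5279) (.e (nat_lit 1221) (nat_lit 90) (.e (nat_lit 81956) (nat_lit 23) (.e (nat_lit 98313) (nat_lit 9) (.e (nat_lit 335995) (nat_lit 1) (.e (nat_lit 57847) (nat_lit 252) (.e (nat_lit 57365) (nat_lit 1) (.e (nat_lit 57754) (nat_lit 209) .nil))))))) (.g (nat_lit 6) .nil .nil))))) (.nd (nat_lit 5) (.nd (nat_lit 6) 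
(.lf (nat_lit 37780) (.g (nat_lit 800) (.e (nat_lit 1221) (nat_lit 90) (.e (nat_lit 81953) (nat_lit 22) (.e (nat_lit 90133) (nat_lit 9) .nil))) .nil)) 
(.lf (nat_lit 37844) (.g (nat_lit 2309) (.e (nat_lit 1221) (nat_lit 90) (.e (nat_lit 81953) (nat_lit 22) (.e (nat_lit 98048) (nat_lit 18) (.e (nat_lit 1349) (nat_lit 102) (.e (nat_lit 286759) (nat_lit 12) (.e (nat_lit 385047) (nat_lit 21) (.e (nat_lit 4203) (nat_lit 251) .nil))))))) (.g (nat_lit 5) .nil .nil)))) (.nd (nat_lit 6) 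
(.lf (nat_lit 37812) (.g (nat_lit 1189) (.e (nat_lit 1221) (nat_lit 90) (.e (nat_lit 81953) (nat_lit 22) (.e (nat_lit 90151) (nat_lit 10) .nil))) .nil)) 
(.lf (nat_lit 37876) (.g (nat_lit 3572) (.e (nat_lit 1221) (nat_lit 90) (.e (nat_lit 81956) (nat_lit 23) (.e (nat_lit 98313) (nat_lit 9) (.e (nat_lit 335995) (nat_lit 1) (.e (nat_lit 57849) (nat_lit 252) (.e (nat_lit 57368) (nat_lit 1) (.e (nat_lit 57754) (nat_lit 209) .nil))))))) (.g (nat_lit 4) .nil .nil)))))) (.nd (nat_lit 4) (.nd (nat_lit 5) (.nd (nat_lit 6) 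
(.lf (nat_lit 37772) (.g (nat_lit 1096) (.e (nat_lit 1221) (nat_lit 90) (.e (nat_lit 81953) (nat_lit 22) (.e (nat_lit 90116) (nat_lit 0) (.e (nat_lit 7936) (nat_lit 37) .nil)))) .nil)) 
(.lf (nat_lit 37836) (.g (nat_lit 2205) (.e (nat_lit 1221) (nat_lit 90) (.e (nat_lit 81953) (nat_lit 22) (.e (nat_lit 90165) (nat_lit 12) (.e (nat_lit 164023) (nat_lit 46) (.e (nat_lit 704746) (nat_lit 12) (.e (nat_lit 57550) (nat_lit 48) (.e (nat_lit 720933) (nat_lit 21) (.e (nat_lit 57872) (nat_lit 264) .nil)))))))) (.g (nat_lit 4) .nil .nil)))) (.nd (nat_lit 6) 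
(.lf (nat_lit 37804) (.g (nat_lit 4291) (.e (nat_lit 1221) (nat_lit 90) (.e (nat_lit 81953) (nat_lit 22) (.e (nat_lit 90134) (nat_lit 9) (.e (nat_lit 3098) (nat_lit 192) (.e (nat_lit 491566) (nat_lit 12) (.e (nat_lit 385046) (nat_lit 21) (.e (nat_lit 4212) (nat_lit 251) .nil))))))) (.g (nat_lit 5) .nil .nil))) 
(.lf (nat_lit 37868) (.g (nat_lit 4382) (.e (nat_lit 1221) (nat_lit 90) (.e (nat_lit 81956) (nat_lit 23) (.e (nat_lit 98313) (nat_lit 9) (.e (nat_lit 335995) (nat_lit 1) (.e (nat_lit 57848) (nat_lit 252) (.e (nat_lit 57367) (nat_lit 1) (.e (nat_lit 57754) (nat_lit 209) .nil))))))) (.g (nat_lit 6) .nil .nil))))) (.nd (nat_lit 5) (.nd (nat_lit 6) 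
(.lf (nat_lit 37788) (.g (nat_lit 1838) (.e (nat_lit 1221) (nat_lit 90) (.e (nat_lit 81953) (nat_lit 22) (.e (nat_lit 90134) (nat_lit 9) (.e (nat_lit 2741) (nat_lit 174) .nil)))) .nil)) 
(.lf (nat_lit 37852) (.g (nat_lit 4261) (.e (nat_lit 1221) (nat_lit 90) (.e (nat_lit 81956) (nat_lit 23) (.e (nat_lit 98313) (nat_lit 9) (.e (nat_lit 335986) (nat_lit 1) (.e (nat_lit 57847) (nat_lit 252) (.e (nat_lit 57363) (nat_lit 1) (.e (nat_lit 57754) (nat_lit 209) .nil))))))) (.g (nat_lit 5) .nil .nil)))) (.nd (nat_lit 6) 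
(.lf (nat_lit 37820) (.g (nat_lit 1833) (.e (nat_lit 1221) (nat_lit 90) (.e (nat_lit 81953) (nat_lit 22) (.e (nat_lit 90159) (nat_lit 11) (.e (nat_lit 24580) (nat_lit 0) .nil)))) .nil)) 
(.lf (nat_lit 37884) (.g (nat_lit 802) (.e (nat_lit 1221) (nat_lit 90) (.e (nat_lit 81956) (nat_lit 23) (.e (nat_lit 98317) (nat_lit 9) .nil))) .nil))))))) (.nd (nat_lit 2) (.nd (nat_lit 3) (.nd (nat_lit 4) (.nd (nat_lit 5) (.nd (nat_lit 6) 
(.lf (nat_lit 37762) (.g (nat_lit 3338) (.e (nat_lit 1221) (nat_lit 90) (.e (nat_lit 81950) (nat_lit 21) (.e (nat_lit 57873) (nat_lit 264) (.e (nat_lit 1220) (nat_lit 90) (.e (nat_lit 81950) (nat_lit 21) (.e (nat_lit 57870) (nat_lit 264) .nil)))))) (.g (nat_lit 5) .nil .nil))) 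
(.lf (nat_lit 37826) (.g (nat_lit 4086) (.e (nat_lit 1221) (nat_lit 90) (.e (nat_lit 81953) (nat_lit 22) (.e (nat_lit 90160) (nat_lit 11) (.e (nat_lit 24599) (nat_lit 1) (.e (nat_lit 57854) (nat_lit 252) (.e (nat_lit 57364) (nat_lit 1) (.e (nat_lit 57754) (nat_lit 209) .nil))))))) (.g (nat_lit 4) .nil .nil)))) (.nd (nat_lit 6) 
(.lf (nat_lit 37794) (.g (nat_lit 4107) (.e (nat_lit 1221) (nat_lit 90) (.e (nat_lit 81953) (nat_lit 22) (.e (nat_lit 90134) (nat_lit 9) (.e (nat_lit 3098) (nat_lit 192) (.e (nat_lit 491566) (nat_lit 12) (.e (nat_lit 385043) (nat_lit 21) (.e (nat_lit 4217) (nat_lit 251) .nil))))))) (.g (nat_lit 5) .nil .nil))) 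
(.lf (nat_lit 37858) (.g (nat_lit 4848) (.e (nat_lit 1221) (nat_lit 90) (.e (nat_lit 81956) (nat_lit 23) (.e (nat_lit 98313) (nat_lit 9) (.e (nat_lit 335995) (nat_lit 1) (.e (nat_lit 57847) (nat_lit 252) (.e (nat_lit 57363) (nat_lit 1) (.e (nat_lit 57754) (nat_lit 209) .nil))))))) (.g (nat_lit 5) .nil .nil))))) (.nd (nat_lit 5) (.nd (nat_lit 6) 
(.lf (nat_lit 37778) (.g (nat_lit 1144) (.e (nat_lit 1221) (nat_lit 90) (.e (nat_lit 81953) (nat_lit 22) (.e (nat_lit 90125) (nat_lit 9) .nil))) .nil)) 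
(.lf (nat_lit 37842) (.g (nat_lit 2699) (.e (nat_lit 1221) (nat_lit 90) (.e (nat_lit 81953) (nat_lit 22) (.e (nat_lit 98048) (nat_lit 18) (.e (nat_lit 1348) (nat_lit 102) (.e (nat_lit 286759) (nat_lit 12) (.e (nat_lit 385047) (nat_lit 21) (.e (nat_lit 4203) (nat_lit 251) .nil))))))) (.g (nat_lit 5) .nil .nil)))) (.nd (nat_lit 6) 
(.lf (nat_lit 37810) (.g (nat_lit 4287) (.e (nat_lit 1221) (nat_lit 90) (.e (nat_lit 81953) (nat_lit 22) (.e (nat_lit 90134) (nat_lit 9) (.e (nat_lit 3098) (nat_lit 192) (.e (nat_lit 491566) (nat_lit 12) (.e (nat_lit 385051) (nat_lit 21) (.e (nat_lit 4217) (nat_lit 251) .nil))))))) (.g (nat_lit 5) .nil .nil))) 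
(.lf (nat_lit 37874) (.g (nat_lit 4109) (.e (nat_lit 1221) (nat_lit 90) (.e (nat_lit 81956) (nat_lit 23) (.e (nat_lit 98313) (nat_lit 9) (.e (nat_lit 335995) (nat_lit 1) (.e (nat_lit 57849) (nat_lit 252) (.e (nat_lit 57367) (nat_lit 1) (.e (nat_lit 57754) (nat_lit 209) .nil))))))) (.g (nat_lit 4) .nil .nil)))))) (.nd (nat_lit 4) (.nd (nat_lit 5) (.nd (nat_lit 6) 
(.lf (nat_lit 37770) (.g (nat_lit 1189) (.e (nat_lit 1221) (nat_lit 90) (.e (nat_lit 81953) (nat_lit 22) (.e (nat_lit 90115) (nat_lit 0) .nil))) .nil)) 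
(.lf (nat_lit 37834) (.g (nat_lit 2719) (.e (nat_lit 1221) (nat_lit 90) (.e (nat_lit 81953) (nat_lit 22) (.e (nat_lit 90165) (nat_lit 12) (.e (nat_lit 164023) (nat_lit 46) (.e (nat_lit 704744) (nat_lit 12) (.e (nat_lit 57550) (nat_lit 48) (.e (nat_lit 720933) (nat_lit 21) (.e (nat_lit 57872) (nat_lit 264) .nil)))))))) (.g (nat_lit 4) .nil .nil)))) (.nd (nat_lit 6) 
(.lf (nat_lit 37802) (.g (nat_lit 4777) (.e (nat_lit 1221) (nat_lit 90) (.e (nat_lit 81953) (nat_lit 22) (.e (nat_lit 90134) (nat_lit 9) (.e (nat_lit 3098) (nat_lit 192) (.e (nat_lit 491566) (nat_lit 12) (.e (nat_lit 385046) (nat_lit 21) (.e (nat_lit 4202) (nat_lit 251) .nil))))))) (.g (nat_lit 6) .nil .nil))) 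
(.lf (nat_lit 37866) (.g (nat_lit 3822) (.e (nat_lit 1221) (nat_lit 90) (.e (nat_lit 81956) (nat_lit 23) (.e (nat_lit 98313) (nat_lit 9) (.e (nat_lit 335995) (nat_lit 1) (.e (nat_lit 57848) (nat_lit 252) (.e (nat_lit 57363) (nat_lit 1) (.e (nat_lit 57755) (nat_lit 209) .nil))))))) (.g (nat_lit 5) .nil .nil))))) (.nd (nat_lit 5) (.nd (nat_lit 6) 
(.lf (nat_lit 37786) (.g (nat_lit 3283) (.e (nat_lit 1221) (nat_lit 90) (.e (nat_lit 81953) (nat_lit 22) (.e (nat_lit 90133) (nat_lit 9) (.e (nat_lit 2744) (nat_lit 174) (.e (nat_lit 253962) (nat_lit 9) (.e (nat_lit 1277) (nat_lit 94) (.e (nat_lit 114711) (nat_lit 21) (.e (nat_lit 57870) (nat_lit 264) .nil)))))))) (.g (nat_lit 5) .nil .nil))) 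
(.lf (nat_lit 37850) (.g (nat_lit 848) (.e (nat_lit 1221) (nat_lit 90) (.e (nat_lit 81956) (nat_lit 23) (.e (nat_lit 98311) (nat_lit 0) .nil))) .nil))) (.nd (nat_lit 6) 
(.lf (nat_lit 37818) (.g (nat_lit 1189) (.e (nat_lit 1221) (nat_lit 90) (.e (nat_lit 81953) (nat_lit 22) (.e (nat_lit 90158) (nat_lit 11) .nil))) .nil)) 
(.lf (nat_lit 37882) (.g (nat_lit 802) (.e (nat_lit 1221) (nat_lit 90) (.e (nat_lit 81956) (nat_lit 23) (.e (nat_lit 98314) (nat_lit 9) .nil))) .nil)))))) (.nd (nat_lit 3) (.nd (nat_lit 4) (.nd (nat_lit 5) (.nd (nat_lit 6) 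
(.lf (nat_lit 37766) (.g (nat_lit 1087) (.e (nat_lit 1221) (nat_lit 90) (.e (nat_lit 81950) (nat_lit 21) (.e (nat_lit 65280) (nat_lit 267) (.e (nat_lit 122917) (nat_lit 15) (.e (nat_lit 368384) (nat_lit 0) .nil))))) .nil)) 
(.lf (nat_lit 37830) (.g (nat_lit 2546) (.e (nat_lit 1221) (nat_lit 90) (.e (nat_lit 81953) (nat_lit 22) (.e (nat_lit 90165) (nat_lit 12) (.e (nat_lit 164022) (nat_lit 46) (.e (nat_lit 704744) (nat_lit 12) (.e (nat_lit 57550) (nat_lit 48) (.e (nat_lit 720933) (nat_lit 21) (.e (nat_lit 57872) (nat_lit 264) .nil)))))))) (.g (nat_lit 4) .nil .nil)))) (.nd (nat_lit 6) 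
(.lf (nat_lit 37798) (.g (nat_lit 4330) (.e (nat_lit 1221) (nat_lit 90) (.e (nat_lit 81953) (nat_lit 22) (.e (nat_lit 90134) (nat_lit 9) (.e (nat_lit 3098) (nat_lit 192) (.e (nat_lit 491566) (nat_lit 12) (.e (nat_lit 385044) (nat_lit 21) (.e (nat_lit 4203) (nat_lit 251) .nil))))))) (.g (nat_lit 5) .nil .nil))) 
(.lf (nat_lit 37862) (.g (nat_lit 4209) (.e (nat_lit 1221) (nat_lit 90) (.e (nat_lit 81956) (nat_lit 23) (.e (nat_lit 98313) (nat_lit 9) (.e (nat_lit 335995) (nat_lit 1) (.e (nat_lit 57847) (nat_lit 252) (.e (nat_lit 57367) (nat_lit 1) (.e (nat_lit 57755) (nat_lit 209) .nil))))))) (.g (nat_lit 5) .nil .nil))))) (.nd (nat_lit 5) (.nd (nat_lit 6) 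
(.lf (nat_lit 37782) (.g (nat_lit 1362) (.e (nat_lit 1221) (nat_lit 90) (.e (nat_lit 81953) (nat_lit 22) (.e (nat_lit 90133) (nat_lit 9) (.e (nat_lit 2400) (nat_lit 157) .nil)))) .nil)) 
(.lf (nat_lit 37846) (.g (nat_lit 1034) (.e (nat_lit 1221) (nat_lit 90) (.e (nat_lit 81954) (nat_lit 23) (.e (nat_lit 98321) (nat_lit 17) (.e (nat_lit 7936) (nat_lit 220) .nil)))) .nil))) (.nd (nat_lit 6) 
(.lf (nat_lit 37814) (.g (nat_lit 1189) (.e (nat_lit 1221) (nat_lit 90) (.e (nat_lit 81953) (nat_lit 22) (.e (nat_lit 90154) (nat_lit 10) .nil))) .nil)) 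
(.lf (nat_lit 37878) (.g (nat_lit 3985) (.e (nat_lit 1221) (nat_lit 90) (.e (nat_lit 81956) (nat_lit 23) (.e (nat_lit 98313) (nat_lit 9) (.e (nat_lit 335996) (nat_lit 1) (.e (nat_lit 57854) (nat_lit 252) (.e (nat_lit 57363) (nat_lit 1) (.e (nat_lit 57754) (nat_lit 209) .nil))))))) (.g (nat_lit 5) .nil .nil)))))) (.nd (nat_lit 4) (.nd (nat_lit 5) (.nd (nat_lit 6) 
(.lf (nat_lit 37774) (.g (nat_lit 1189) (.e (nat_lit 1221) (nat_lit 90) (.e (nat_lit 81953) (nat_lit 22) (.e (nat_lit 90118) (nat_lit 0) .nil))) .nil)) 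
(.lf (nat_lit 37838) (.g (nat_lit 3781) (.e (nat_lit 1221) (nat_lit 90) (.e (nat_lit 81953) (nat_lit 22) (.e (nat_lit 90170) (nat_lit 13) (.e (nat_lit 172059) (nat_lit 1) (.e (nat_lit 164325) (nat_lit 230) (.e (nat_lit 163861) (nat_lit 1) (.e (nat_lit 164133) (nat_lit 134) .nil))))))) (.g (nat_lit 5) .nil .nil)))) (.nd (nat_lit 6) 
(.lf (nat_lit 37806) (.g (nat_lit 4609) (.e (nat_lit 1221) (nat_lit 90) (.e (nat_lit 81953) (nat_lit 22) (.e (nat_lit 90134) (nat_lit 9) (.e (nat_lit 3098) (nat_lit 192) (.e (nat_lit 491566) (nat_lit 12) (.e (nat_lit 385051) (nat_lit 21) (.e (nat_lit 4168) (nat_lit 251) .nil))))))) (.g (nat_lit 5) .nil .nil))) 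
(.lf (nat_lit 37870) (.g (nat_lit 4302) (.e (nat_lit 1221) (nat_lit 90) (.e (nat_lit 81956) (nat_lit 23) (.e (nat_lit 98313) (nat_lit 9) (.e (nat_lit 335995) (nat_lit 1) (.e (nat_lit 57848) (nat_lit 252) (.e (nat_lit 57368) (nat_lit 1) (.e (nat_lit 57754) (nat_lit 209) .nil))))))) (.g (nat_lit 6) .nil .nil))))) (.nd (nat_lit 5) (.nd (nat_lit 6) 
(.lf (nat_lit 37790) (.g (nat_lit 4373) (.e (nat_lit 1221) (nat_lit 90) (.e (nat_lit 81953) (nat_lit 22) (.e (nat_lit 90134) (nat_lit 9) (.e (nat_lit 3098) (nat_lit 192) (.e (nat_lit 491566) (nat_lit 12) (.e (nat_lit 385043) (nat_lit 21) (.e (nat_lit 4202) (nat_lit 251) .nil))))))) (.g (nat_lit 5) .nil .nil))) 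
(.lf (nat_lit 37854) (.g (nat_lit 4632) (.e (nat_lit 1221) (nat_lit 90) (.e (nat_lit 81956) (nat_lit 23) (.e (nat_lit 98313) (nat_lit 9) (.e (nat_lit 335986) (nat_lit 1) (.e (nat_lit 57847) (nat_lit 252) (.e (nat_lit 57365) (nat_lit 1) (.e (nat_lit 57754) (nat_lit 209) .nil))))))) (.g (nat_lit 6) .nil .nil)))) (.nd (nat_lit 6) 
(.lf (nat_lit 37822) (.g (nat_lit 1993) (.e (nat_lit 1221) (nat_lit 90) (.e (nat_lit 81953) (nat_lit 22) (.e (nat_lit 90160) (nat_lit 11) (.e (nat_lit 24598) (nat_lit 1) .nil)))) .nil)) 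
(.lf (nat_lit 37886) (.g (nat_lit 3155) (.e (nat_lit 1221) (nat_lit 90) (.e (nat_lit 81956) (nat_lit 23) (.e (nat_lit 106240) (nat_lit 16) (.e (nat_lit 401454) (nat_lit 12) (.e (nat_lit 475155) (nat_lit 21) (.e (nat_lit 4616) (nat_lit 269) .nil)))))) (.g (nat_lit 4) .nil .nil))))))))) (.nd (nat_lit 1) (.nd (nat_lit 2) (.nd (nat_lit 3) (.nd (nat_lit 4) (.nd (nat_lit 5) (.nd (nat_lit 6) 
(.lf (nat_lit 37761) (.g (nat_lit 2551) (.e (nat_lit 1221) (nat_lit 90) (.e (nat_lit 81950) (nat_lit 21) (.e (nat_lit 57873) (nat_lit 264) (.e (nat_lit 1219) (nat_lit 90) (.e (nat_lit 81950) (nat_lit 21) (.e (nat_lit 57871) (nat_lit 264) .nil)))))) (.g (nat_lit 4) .nil .nil))) 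
(.lf (nat_lit 37825) (.g (nat_lit 3987) (.e (nat_lit 1221) (nat_lit 90) (.e (nat_lit 81953) (nat_lit 22) (.e (nat_lit 90160) (nat_lit 11) (.e (nat_lit 24599) (nat_lit 1) (.e (nat_lit 57854) (nat_lit 252) (.e (nat_lit 57363) (nat_lit 1) (.e (nat_lit 57755) (nat_lit 209) .nil))))))) (.g (nat_lit 4) .nil .nil)))) (.nd (nat_lit 6) 
(.lf (nat_lit 37793) (.g (nat_lit 4255) (.e (nat_lit 1221) (nat_lit 90) (.e (nat_lit 81953) (nat_lit 22) (.e (nat_lit 90134) (nat_lit 9) (.e (nat_lit 3098) (nat_lit 192) (.e (nat_lit 491566) (nat_lit 12) (.e (nat_lit 385043) (nat_lit 21) (.e (nat_lit 4216) (nat_lit 251) .nil))))))) (.g (nat_lit 5) .nil .nil))) 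
(.lf (nat_lit 37857) (.g (nat_lit 4075) (.e (nat_lit 1221) (nat_lit 90) (.e (nat_lit 81956) (nat_lit 23) (.e (nat_lit 98313) (nat_lit 9) (.e (nat_lit 335986) (nat_lit 1) (.e (nat_lit 57847) (nat_lit 252) (.e (nat_lit 57368) (nat_lit 1) (.e (nat_lit 57754) (nat_lit 209) .nil))))))) (.g (nat_lit 5) .nil .nil))))) (.nd (nat_lit 5) (.nd (nat_lit 6) 
(.lf (nat_lit 37777) (.g (nat_lit 2242) (.e (nat_lit 1221) (nat_lit 90) (.e (nat_lit 81953) (nat_lit 22) (.e (nat_lit 98048) (nat_lit 2) (.e (nat_lit 16473) (nat_lit 14) (.e (nat_lit 491526) (nat_lit 0) (.e (nat_lit 988) (nat_lit 81) (.e (nat_lit 7454) (nat_lit 396) .nil))))))) (.g (nat_lit 5) .nil .nil))) 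
(.lf (nat_lit 37841) (.g (nat_lit 1176) (.e (nat_lit 1221) (nat_lit 90) (.e (nat_lit 81953) (nat_lit 22) (.e (nat_lit 90185) (nat_lit 17) .nil))) .nil))) (.nd (nat_lit 6) 
(.lf (nat_lit 37809) (.g (nat_lit 4557) (.e (nat_lit 1221) (nat_lit 90) (.e (nat_lit 81953) (nat_lit 22) (.e (nat_lit 90134) (nat_lit 9) (.e (nat_lit 3098) (nat_lit 192) (.e (nat_lit 491566) (nat_lit 12) (.e (nat_lit 385051) (nat_lit 21) (.e (nat_lit 4216) (nat_lit 251) .nil))))))) (.g (nat_lit 5) .nil .nil))) 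
(.lf (nat_lit 37873) (.g (nat_lit 4552) (.e (nat_lit 1221) (nat_lit 90) (.e (nat_lit 81956) (nat_lit 23) (.e (nat_lit 98313) (nat_lit 9) (.e (nat_lit 335995) (nat_lit 1) (.e (nat_lit 57849) (nat_lit 252) (.e (nat_lit 57365) (nat_lit 1) (.e (nat_lit 57754) (nat_lit 209) .nil))))))) (.g (nat_lit 5) .nil .nil)))))) (.nd (nat_lit 4) (.nd (nat_lit 5) (.nd (nat_lit 6) 
(.lf (nat_lit 37769) (.g (nat_lit 1189) (.e (nat_lit 1221) (nat_lit 90) (.e (nat_lit 81953) (nat_lit 22) (.e (nat_lit 90113) (nat_lit 0) .nil))) .nil)) 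
(.lf (nat_lit 37833) (.g (nat_lit 2447) (.e (nat_lit 1221) (nat_lit 90) (.e (nat_lit 81953) (nat_lit 22) (.e (nat_lit 90165) (nat_lit 12) (.e (nat_lit 164023) (nat_lit 46) (.e (nat_lit 704744) (nat_lit 12) (.e (nat_lit 57550) (nat_lit 48) (.e (nat_lit 720933) (nat_lit 21) (.e (nat_lit 57870) (nat_lit 264) .nil)))))))) (.g (nat_lit 4) .nil .nil)))) (.nd (nat_lit 6) 
(.lf (nat_lit 37801) (.g (nat_lit 3738) (.e (nat_lit 1221) (nat_lit 90) (.e (nat_lit 81953) (nat_lit 22) (.e (nat_lit 90134) (nat_lit 9) (.e (nat_lit 3098) (nat_lit 192) (.e (nat_lit 491566) (nat_lit 12) (.e (nat_lit 385045) (nat_lit 21) (.e (nat_lit 4203) (nat_lit 251) .nil))))))) (.g (nat_lit 5) .nil .nil))) 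
(.lf (nat_lit 37865) (.g (nat_lit 3917) (.e (nat_lit 1221) (nat_lit 90) (.e (nat_lit 81956) (nat_lit 23) (.e (nat_lit 98313) (nat_lit 9) (.e (nat_lit 335995) (nat_lit 1) (.e (nat_lit 57848) (nat_lit 252) (.e (nat_lit 57363) (nat_lit 1) (.e (nat_lit 57754) (nat_lit 209) .nil))))))) (.g (nat_lit 5) .nil .nil))))) (.nd (nat_lit 5) (.nd (nat_lit 6) 
(.lf (nat_lit 37785) (.g (nat_lit 3140) (.e (nat_lit 1221) (nat_lit 90) (.e (nat_lit 81953) (nat_lit 22) (.e (nat_lit 90133) (nat_lit 9) (.e (nat_lit 2744) (nat_lit 174) (.e (nat_lit 253962) (nat_lit 9) (.e (nat_lit 1277) (nat_lit 94) (.e (nat_lit 114710) (nat_lit 21) (.e (nat_lit 57872) (nat_lit 264) .nil)))))))) (.g (nat_lit 5) .nil .nil))) 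
(.lf (nat_lit 37849) (.g (nat_lit 986) (.e (nat_lit 1221) (nat_lit 90) (.e (nat_lit 81956) (nat_lit 23) (.e (nat_lit 98309) (nat_lit 0) (.e (nat_lit 6217) (nat_lit 333) .nil)))) .nil))) (.nd (nat_lit 6) 
(.lf (nat_lit 37817) (.g (nat_lit 1006) (.e (nat_lit 1221) (nat_lit 90) (.e (nat_lit 81953) (nat_lit 22) (.e (nat_lit 90157) (nat_lit 11) .nil))) .nil)) 
(.lf (nat_lit 37881) (.g (nat_lit 3495) (.e (nat_lit 1221) (nat_lit 90) (.e (nat_lit 81956) (nat_lit 23) (.e (nat_lit 98313) (nat_lit 9) (.e (nat_lit 335996) (nat_lit 1) (.e (nat_lit 57854) (nat_lit 252) (.e (nat_lit 57366) (nat_lit 1) (.e (nat_lit 57755) (nat_lit 209) .nil))))))) (.g (nat_lit 4) .nil .nil))))))) (.nd (nat_lit 3) (.nd (nat_lit 4) (.nd (nat_lit 5) (.nd (nat_lit 6) 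
(.lf (nat_lit 37765) (.g (nat_lit 2412) (.e (nat_lit 1221) (nat_lit 90) (.e (nat_lit 81950) (nat_lit 21) (.e (nat_lit 65280) (nat_lit 267) (.e (nat_lit 122916) (nat_lit 14) (.e (nat_lit 352309) (nat_lit 21) (.e (nat_lit 57872) (nat_lit 264) .nil)))))) (.g (nat_lit 5) .nil .nil))) 
(.lf (nat_lit 37829) (.g (nat_lit 2274) (.e (nat_lit 1221) (nat_lit 90) (.e (nat_lit 81953) (nat_lit 22) (.e (nat_lit 90165) (nat_lit 12) (.e (nat_lit 164022) (nat_lit 46) (.e (nat_lit 704744) (nat_lit 12) (.e (nat_lit 57550) (nat_lit 48) (.e (nat_lit 720933) (nat_lit 21) (.e (nat_lit 57870) (nat_lit 264) .nil)))))))) (.g (nat_lit 4) .nil .nil)))) (.nd (nat_lit 6) 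
(.lf (nat_lit 37797) (.g (nat_lit 4454) (.e (nat_lit 1221) (nat_lit 90) (.e (nat_lit 81953) (nat_lit 22) (.e (nat_lit 90134) (nat_lit 9) (.e (nat_lit 3098) (nat_lit 192) (.e (nat_lit 491566) (nat_lit 12) (.e (nat_lit 385044) (nat_lit 21) (.e (nat_lit 4202) (nat_lit 251) .nil))))))) (.g (nat_lit 5) .nil .nil))) 
(.lf (nat_lit 37861) (.g (nat_lit 3978) (.e (nat_lit 1221) (nat_lit 90) (.e (nat_lit 81956) (nat_lit 23) (.e (nat_lit 98313) (nat_lit 9) (.e (nat_lit 335995) (nat_lit 1) (.e (nat_lit 57847) (nat_lit 252) (.e (nat_lit 57367) (nat_lit 1) (.e (nat_lit 57754) (nat_lit 209) .nil))))))) (.g (nat_lit 4) .nil .nil))))) (.nd (nat_lit 5) (.nd (nat_lit 6) 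
(.lf (nat_lit 37781) (.g (nat_lit 1340) (.e (nat_lit 1221) (nat_lit 90) (.e (nat_lit 81953) (nat_lit 22) (.e (nat_lit 90133) (nat_lit 9) (.e (nat_lit 2397) (nat_lit 157) .nil)))) .nil)) 
(.lf (nat_lit 37845) (.g (nat_lit 675) (.e (nat_lit 1221) (nat_lit 90) (.e (nat_lit 81954) (nat_lit 23) (.e (nat_lit 98309) (nat_lit 0) .nil))) .nil))) (.nd (nat_lit 6) 
(.lf (nat_lit 37813) (.g (nat_lit 1133) (.e (nat_lit 1221) (nat_lit 90) (.e (nat_lit 81953) (nat_lit 22) (.e (nat_lit 90152) (nat_lit 10) .nil))) .nil)) 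
(.lf (nat_lit 37877) (.g (nat_lit 3947) (.e (nat_lit 1221) (nat_lit 90) (.e (nat_lit 81956) (nat_lit 23) (.e (nat_lit 98313) (nat_lit 9) (.e (nat_lit 335996) (nat_lit 1) (.e (nat_lit 57851) (nat_lit 252) (.e (nat_lit 57364) (nat_lit 1) (.e (nat_lit 57754) (nat_lit 209) .nil))))))) (.g (nat_lit 5) .nil .nil)))))) (.nd (nat_lit 4) (.nd (nat_lit 5) (.nd (nat_lit 6) 
(.lf (nat_lit 37773) (.g (nat_lit 1189) (.e (nat_lit 1221) (nat_lit 90) (.e (nat_lit 81953) (nat_lit 22) (.e (nat_lit 90117) (nat_lit 0) .nil))) .nil)) 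
(.lf (nat_lit 37837) (.g (nat_lit 673) (.e (nat_lit 1221) (nat_lit 90) (.e (nat_lit 81953) (nat_lit 22) (.e (nat_lit 90170) (nat_lit 13) .nil))) .nil))) (.nd (nat_lit 6) 
(.lf (nat_lit 37805) (.g (nat_lit 3972) (.e (nat_lit 1221) (nat_lit 90) (.e (nat_lit 81953) (nat_lit 22) (.e (nat_lit 90134) (nat_lit 9) (.e (nat_lit 3098) (nat_lit 192) (.e (nat_lit 491566) (nat_lit 12) (.e (nat_lit 385046) (nat_lit 21) (.e (nat_lit 4218) (nat_lit 251) .nil))))))) (.g (nat_lit 5) .nil .nil))) 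
(.lf (nat_lit 37869) (.g (nat_lit 4613) (.e (nat_lit 1221) (nat_lit 90) (.e (nat_lit 81956) (nat_lit 23) (.e (nat_lit 98313) (nat_lit 9) (.e (nat_lit 335995) (nat_lit 1) (.e (nat_lit 57848) (nat_lit 252) (.e (nat_lit 57367) (nat_lit 1) (.e (nat_lit 57755) (nat_lit 209) .nil))))))) (.g (nat_lit 7) .nil .nil))))) (.nd (nat_lit 5) (.nd (nat_lit 6) 
(.lf (nat_lit 37789) (.g (nat_lit 4363) (.e (nat_lit 1221) (nat_lit 90) (.e (nat_lit 81953) (nat_lit 22) (.e (nat_lit 90134) (nat_lit 9) (.e (nat_lit 3098) (nat_lit 192) (.e (nat_lit 491566) (nat_lit 12) (.e (nat_lit 385043) (nat_lit 21) (.e (nat_lit 4197) (nat_lit 251) .nil))))))) (.g (nat_lit 5) .nil .nil))) 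
(.lf (nat_lit 37853) (.g (nat_lit 4098) (.e (nat_lit 1221) (nat_lit 90) (.e (nat_lit 81956) (nat_lit 23) (.e (nat_lit 98313) (nat_lit 9) (.e (nat_lit 335986) (nat_lit 1) (.e (nat_lit 57847) (nat_lit 252) (.e (nat_lit 57363) (nat_lit 1) (.e (nat_lit 57755) (nat_lit 209) .nil))))))) (.g (nat_lit 5) .nil .nil)))) (.nd (nat_lit 6) 
(.lf (nat_lit 37821) (.g (nat_lit 821) (.e (nat_lit 1221) (nat_lit 90) (.e (nat_lit 81953) (nat_lit 22) (.e (nat_lit 90160) (nat_lit 11) .nil))) .nil)) 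
(.lf (nat_lit 37885) (.g (nat_lit 563) (.e (nat_lit 1221) (nat_lit 90) (.e (nat_lit 81956) (nat_lit 23) (.e (nat_lit 106240) (nat_lit 10) .nil))) .nil))))))) (.nd (nat_lit 2) (.nd (nat_lit 3) (.nd (nat_lit 4) (.nd (nat_lit 5) (.nd (nat_lit 6) 
(.lf (nat_lit 37763) (.g (nat_lit 1030) (.e (nat_lit 1221) (nat_lit 90) (.e (nat_lit 81950) (nat_lit 21) (.e (nat_lit 57873) (nat_lit 264) (.e (nat_lit 1221) (nat_lit 90) .nil)))) .nil)) 
(.lf (nat_lit 37827) (.g (nat_lit 482) (.e (nat_lit 1221) (nat_lit 90) (.e (nat_lit 81953) (nat_lit 22) (.e (nat_lit 90165) (nat_lit 12) .nil))) .nil))) (.nd (nat_lit 6) 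
(.lf (nat_lit 37795) (.g (nat_lit 4117) (.e (nat_lit 1221) (nat_lit 90) (.e (nat_lit 81953) (nat_lit 22) (.e (nat_lit 90134) (nat_lit 9) (.e (nat_lit 3098) (nat_lit 192) (.e (nat_lit 491566) (nat_lit 12) (.e (nat_lit 385043) (nat_lit 21) (.e (nat_lit 4255) (nat_lit 251) .nil))))))) (.g (nat_lit 5) .nil .nil))) 
(.lf (nat_lit 37859) (.g (nat_lit 4691) (.e (nat_lit 1221) (nat_lit 90) (.e (nat_lit 81956) (nat_lit 23) (.e (nat_lit 98313) (nat_lit 9) (.e (nat_lit 335995) (nat_lit 1) (.e (nat_lit 57847) (nat_lit 252) (.e (nat_lit 57363) (nat_lit 1) (.e (nat_lit 57755) (nat_lit 209) .nil))))))) (.g (nat_lit 5) .nil .nil))))) (.nd (nat_lit 5) (.nd (nat_lit 6) 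
(.lf (nat_lit 37779) (.g (nat_lit 1506) (.e (nat_lit 1221) (nat_lit 90) (.e (nat_lit 81953) (nat_lit 22) (.e (nat_lit 90130) (nat_lit 9) (.e (nat_lit 3098) (nat_lit 192) .nil)))) .nil)) 
(.lf (nat_lit 37843) (.g (nat_lit 2923) (.e (nat_lit 1221) (nat_lit 90) (.e (nat_lit 81953) (nat_lit 22) (.e (nat_lit 98048) (nat_lit 18) (.e (nat_lit 1349) (nat_lit 102) (.e (nat_lit 286759) (nat_lit 12) (.e (nat_lit 385047) (nat_lit 21) (.e (nat_lit 4168) (nat_lit 251) .nil))))))) (.g (nat_lit 6) .nil .nil)))) (.nd (nat_lit 6) 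
(.lf (nat_lit 37811) (.g (nat_lit 2643) (.e (nat_lit 1221) (nat_lit 90) (.e (nat_lit 81953) (nat_lit 22) (.e (nat_lit 90134) (nat_lit 9) (.e (nat_lit 3098) (nat_lit 192) (.e (nat_lit 491566) (nat_lit 12) (.e (nat_lit 392960) (nat_lit 21) (.e (nat_lit 4215) (nat_lit 251) .nil))))))) (.g (nat_lit 4) .nil .nil))) 
(.lf (nat_lit 37875) (.g (nat_lit 4340) (.e (nat_lit 1221) (nat_lit 90) (.e (nat_lit 81956) (nat_lit 23) (.e (nat_lit 98313) (nat_lit 9) (.e (nat_lit 335995) (nat_lit 1) (.e (nat_lit 57849) (nat_lit 252) (.e (nat_lit 57367) (nat_lit 1) (.e (nat_lit 57755) (nat_lit 209) .nil))))))) (.g (nat_lit 4) .nil .nil)))))) (.nd (nat_lit 4) (.nd (nat_lit 5) (.nd (nat_lit 6) 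
(.lf (nat_lit 37771) (.g (nat_lit 823) (.e (nat_lit 1221) (nat_lit 90) (.e (nat_lit 81953) (nat_lit 22) (.e (nat_lit 90116) (nat_lit 0) .nil))) .nil)) 
(.lf (nat_lit 37835) (.g (nat_lit 2196) (.e (nat_lit 1221) (nat_lit 90) (.e (nat_lit 81953) (nat_lit 22) (.e (nat_lit 90165) (nat_lit 12) (.e (nat_lit 164023) (nat_lit 46) (.e (nat_lit 704746) (nat_lit 12) .nil))))) .nil))) (.nd (nat_lit 6) 
(.lf (nat_lit 37803) (.g (nat_lit 4560) (.e (nat_lit 1221) (nat_lit 90) (.e (nat_lit 81953) (nat_lit 22) (.e (nat_lit 90134) (nat_lit 9) (.e (nat_lit 3098) (nat_lit 192) (.e (nat_lit 491566) (nat_lit 12) (.e (nat_lit 385046) (nat_lit 21) (.e (nat_lit 4203) (nat_lit 251) .nil))))))) (.g (nat_lit 5) .nil .nil))) 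
(.lf (nat_lit 37867) (.g (nat_lit 4322) (.e (nat_lit 1221) (nat_lit 90) (.e (nat_lit 81956) (nat_lit 23) (.e (nat_lit 98313) (nat_lit 9) (.e (nat_lit 335995) (nat_lit 1) (.e (nat_lit 57848) (nat_lit 252) (.e (nat_lit 57365) (nat_lit 1) (.e (nat_lit 57754) (nat_lit 209) .nil))))))) (.g (nat_lit 6) .nil .nil))))) (.nd (nat_lit 5) (.nd (nat_lit 6) 
(.lf (nat_lit 37787) (.g (nat_lit 2392) (.e (nat_lit 1221) (nat_lit 90) (.e (nat_lit 81953) (nat_lit 22) (.e (nat_lit 90133) (nat_lit 9) (.e (nat_lit 2744) (nat_lit 174) (.e (nat_lit 253995) (nat_lit 12) (.e (nat_lit 57550) (nat_lit 48) (.e (nat_lit 720933) (nat_lit 21) (.e (nat_lit 57870) (nat_lit 264) .nil)))))))) (.g (nat_lit 4) .nil .nil))) 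
(.lf (nat_lit 37851) (.g (nat_lit 802) (.e (nat_lit 1221) (nat_lit 90) (.e (nat_lit 81956) (nat_lit 23) (.e (nat_lit 98312) (nat_lit 9) .nil))) .nil))) (.nd (nat_lit 6) 
(.lf (nat_lit 37819) (.g (nat_lit 1189) (.e (nat_lit 1221) (nat_lit 90) (.e (nat_lit 81953) (nat_lit 22) (.e (nat_lit 90159) (nat_lit 11) .nil))) .nil)) 
(.lf (nat_lit 37883) (.g (nat_lit 802) (.e (nat_lit 1221) (nat_lit 90) (.e (nat_lit 81956) (nat_lit 23) (.e (nat_lit 98316) (nat_lit 9) .nil))) .nil)))))) (.nd (nat_lit 3) (.nd (nat_lit 4) (.nd (nat_lit 5) (.nd (nat_lit 6) 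
(.lf (nat_lit 37767) (.g (nat_lit 635) (.e (nat_lit 1221) (nat_lit 90) (.e (nat_lit 81950) (nat_lit 21) (.e (nat_lit 57931) (nat_lit 282) .nil))) .nil)) 
(.lf (nat_lit 37831) (.g (nat_lit 2387) (.e (nat_lit 1221) (nat_lit 90) (.e (nat_lit 81953) (nat_lit 22) (.e (nat_lit 90165) (nat_lit 12) (.e (nat_lit 164023) (nat_lit 46) (.e (nat_lit 704626) (nat_lit 9) (.e (nat_lit 1277) (nat_lit 94) (.e (nat_lit 114711) (nat_lit 21) (.e (nat_lit 57872) (nat_lit 264) .nil)))))))) (.g (nat_lit 4) .nil .nil)))) (.nd (nat_lit 6) 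
(.lf (nat_lit 37799) (.g (nat_lit 4395) (.e (nat_lit 1221) (nat_lit 90) (.e (nat_lit 81953) (nat_lit 22) (.e (nat_lit 90134) (nat_lit 9) (.e (nat_lit 3098) (nat_lit 192) (.e (nat_lit 491566) (nat_lit 12) (.e (nat_lit 385045) (nat_lit 21) (.e (nat_lit 4168) (nat_lit 251) .nil))))))) (.g (nat_lit 5) .nil .nil))) 
(.lf (nat_lit 37863) (.g (nat_lit 4718) (.e (nat_lit 1221) (nat_lit 90) (.e (nat_lit 81956) (nat_lit 23) (.e (nat_lit 98313) (nat_lit 9) (.e (nat_lit 335995) (nat_lit 1) (.e (nat_lit 57847) (nat_lit 252) (.e (nat_lit 57368) (nat_lit 1) (.e (nat_lit 57754) (nat_lit 209) .nil))))))) (.g (nat_lit 5) .nil .nil))))) (.nd (nat_lit 5) (.nd (nat_lit 6) 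
(.lf (nat_lit 37783) (.g (nat_lit 1573) (.e (nat_lit 1221) (nat_lit 90) (.e (nat_lit 81953) (nat_lit 22) (.e (nat_lit 90133) (nat_lit 9) (.e (nat_lit 2744) (nat_lit 174) .nil)))) .nil)) 
(.lf (nat_lit 37847) (.g (nat_lit 678) (.e (nat_lit 1221) (nat_lit 90) (.e (nat_lit 81954) (nat_lit 23) (.e (nat_lit 98345) (nat_lit 22) .nil))) .nil))) (.nd (nat_lit 6) 
(.lf (nat_lit 37815) (.g (nat_lit 1190) (.e (nat_lit 1221) (nat_lit 90) (.e (nat_lit 81953) (nat_lit 22) (.e (nat_lit 90155) (nat_lit 10) .nil))) .nil)) 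
(.lf (nat_lit 37879) (.g (nat_lit 3883) (.e (nat_lit 1221) (nat_lit 90) (.e (nat_lit 81956) (nat_lit 23) (.e (nat_lit 98313) (nat_lit 9) (.e (nat_lit 335996) (nat_lit 1) (.e (nat_lit 57854) (nat_lit 252) (.e (nat_lit 57363) (nat_lit 1) (.e (nat_lit 57755) (nat_lit 209) .nil))))))) (.g (nat_lit 5) .nil .nil)))))) (.nd (nat_lit 4) (.nd (nat_lit 5) (.nd (nat_lit 6) 
(.lf (nat_lit 37775) (.g (nat_lit 975) (.e (nat_lit 1221) (nat_lit 90) (.e (nat_lit 81953) (nat_lit 22) (.e (nat_lit 90120) (nat_lit 0) .nil))) .nil)) 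
(.lf (nat_lit 37839) (.g (nat_lit 2204) (.e (nat_lit 1221) (nat_lit 90) (.e (nat_lit 81953) (nat_lit 22) (.e (nat_lit 90170) (nat_lit 13) (.e (nat_lit 172059) (nat_lit 1) (.e (nat_lit 164327) (nat_lit 230) .nil))))) .nil))) (.nd (nat_lit 6) 
(.lf (nat_lit 37807) (.g (nat_lit 4163) (.e (nat_lit 1221) (nat_lit 90) (.e (nat_lit 81953) (nat_lit 22) (.e (nat_lit 90134) (nat_lit 9) (.e (nat_lit 3098) (nat_lit 192) (.e (nat_lit 491566) (nat_lit 12) (.e (nat_lit 385051) (nat_lit 21) (.e (nat_lit 4213) (nat_lit 251) .nil))))))) (.g (nat_lit 5) .nil .nil))) 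
(.lf (nat_lit 37871) (.g (nat_lit 4801) (.e (nat_lit 1221) (nat_lit 90) (.e (nat_lit 81956) (nat_lit 23) (.e (nat_lit 98313) (nat_lit 9) (.e (nat_lit 335995) (nat_lit 1) (.e (nat_lit 57849) (nat_lit 252) (.e (nat_lit 57363) (nat_lit 1) (.e (nat_lit 57754) (nat_lit 209) .nil))))))) (.g (nat_lit 5) .nil .nil))))) (.nd (nat_lit 5) (.nd (nat_lit 6) 
(.lf (nat_lit 37791) (.g (nat_lit 4313) (.e (nat_lit 1221) (nat_lit 90) (.e (nat_lit 81953) (nat_lit 22) (.e (nat_lit 90134) (nat_lit 9) (.e (nat_lit 3098) (nat_lit 192) (.e (nat_lit 491566) (nat_lit 12) (.e (nat_lit 385043) (nat_lit 21) (.e (nat_lit 4203) (nat_lit 251) .nil))))))) (.g (nat_lit 5) .nil .nil))) 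
(.lf (nat_lit 37855) (.g (nat_lit 3505) (.e (nat_lit 1221) (nat_lit 90) (.e (nat_lit 81956) (nat_lit 23) (.e (nat_lit 98313) (nat_lit 9) (.e (nat_lit 335986) (nat_lit 1) (.e (nat_lit 57847) (nat_lit 252) (.e (nat_lit 57367) (nat_lit 1) (.e (nat_lit 57754) (nat_lit 209) .nil))))))) (.g (nat_lit 4) .nil .nil)))) (.nd (nat_lit 6) 
(.lf (nat_lit 37823) (.g (nat_lit 4144) (.e (nat_lit 1221) (nat_lit 90) (.e (nat_lit 81953) (nat_lit 22) (.e (nat_lit 90160) (nat_lit 11) (.e (nat_lit 24599) (nat_lit 1) (.e (nat_lit 57847) (nat_lit 252) (.e (nat_lit 57365) (nat_lit 1) (.e (nat_lit 57754) (nat_lit 209) .nil))))))) (.g (nat_lit 4) .nil .nil))) 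
(.lf (nat_lit 37887) (.g (nat_lit 773) (.e (nat_lit 1221) (nat_lit 90) (.e (nat_lit 81956) (nat_lit 23) (.e (nat_lit 98319) (nat_lit 17) .nil))) .nil)))))))))

noncomputable def tv527 : DT := (.nd (nat_lit 0) (.nd (nat_lit 1) (.nd (nat_lit 2) (.nd (nat_lit 3) (.nd (nat_lit 4) (.nd (nat_lit 5) (.nd (nat_lit 6) 
(.lf (nat_lit 37888) (.g (nat_lit 3092) (.e (nat_lit 1221) (nat_lit 90) (.e (nat_lit 81956) (nat_lit 23) (.e (nat_lit 98319) (nat_lit 17) (.e (nat_lit 3455) (nat_lit 216) (.e (nat_lit 688180) (nat_lit 17) (.e (nat_lit 73729) (nat_lit 0) (.e (nat_lit 7454) (nat_lit 396) .nil))))))) (.g (nat_lit 4) .nil .nil))) 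
(.lf (nat_lit 37952) (.g (nat_lit 3455) (.e (nat_lit 1221) (nat_lit 90) (.e (nat_lit 81956) (nat_lit 23) (.e (nat_lit 98350) (nat_lit 24) (.e (nat_lit 409648) (nat_lit 18) (.e (nat_lit 303115) (nat_lit 1) (.e (nat_lit 171776) (nat_lit 140) .nil)))))) (.g (nat_lit 5) .nil .nil)))) (.nd (nat_lit 6) 
(.lf (nat_lit 37920) (.g (nat_lit 2128) (.e (nat_lit 1221) (nat_lit 90) (.e (nat_lit 81956) (nat_lit 23) (.e (nat_lit 98350) (nat_lit 24) (.e (nat_lit 409616) (nat_lit 10) (.e (nat_lit 4931) (nat_lit 287) (.e (nat_lit 2545) (nat_lit 158) (.e (nat_lit 8379) (nat_lit 102) .nil))))))) (.g (nat_lit 4) .nil .nil))) 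
(.lf (nat_lit 37984) (.g (nat_lit 2306) (.e (nat_lit 1221) (nat_lit 90) (.e (nat_lit 81956) (nat_lit 23) (.e (nat_lit 98389) (nat_lit 33) (.e (nat_lit 491556) (nat_lit 9) (.e (nat_lit 336311) (nat_lit 16) .nil))))) .nil)))) (.nd (nat_lit 5) (.nd (nat_lit 6) 
(.lf (nat_lit 37904) (.g (nat_lit 1195) (.e (nat_lit 1221) (nat_lit 90) (.e (nat_lit 81956) (nat_lit 23) (.e (nat_lit 98325) (nat_lit 17) (.e (nat_lit 7936) (nat_lit 407) .nil)))) .nil)) 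
(.lf (nat_lit 37968) (.g (nat_lit 3712) (.e (nat_lit 1221) (nat_lit 90) (.e (nat_lit 81956) (nat_lit 23) (.e (nat_lit 98384) (nat_lit 32) (.e (nat_lit 475214) (nat_lit 42) (.e (nat_lit 720930) (nat_lit 21) (.e (nat_lit 65280) (nat_lit 128) .nil)))))) (.g (nat_lit 4) .nil .nil)))) (.nd (nat_lit 6) 
(.lf (nat_lit 37936) (.g (nat_lit 2175) (.e (nat_lit 1221) (nat_lit 90) (.e (nat_lit 81956) (nat_lit 23) (.e (nat_lit 98350) (nat_lit 24) (.e (nat_lit 409616) (nat_lit 10) (.e (nat_lit 7936) (nat_lit 318) (.e (nat_lit 229376) (nat_lit 0) (.e (nat_lit 3877) (nat_lit 233) .nil))))))) (.g (nat_lit 4) .nil .nil))) 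
(.lf (nat_lit 38000) (.g (nat_lit 4186) (.e (nat_lit 1221) (nat_lit 90) (.e (nat_lit 81956) (nat_lit 23) (.e (nat_lit 98389) (nat_lit 33) (.e (nat_lit 491560) (nat_lit 10) (.e (nat_lit 352000) (nat_lit 18) (.e (nat_lit 3975) (nat_lit 239) .nil)))))) (.g (nat_lit 4) .nil .nil)))))) (.nd (nat_lit 4) (.nd (nat_lit 5) (.nd (nat_lit 6) 
(.lf (nat_lit 37896) (.g (nat_lit 3984) (.e (nat_lit 1221) (nat_lit 90) (.e (nat_lit 81956) (nat_lit 23) (.e (nat_lit 98320) (nat_lit 17) (.e (nat_lit 3556) (nat_lit 220) (.e (nat_lit 720956) (nat_lit 25) (.e (nat_lit 114711) (nat_lit 21) (.e (nat_lit 57872) (nat_lit 264) .nil))))))) (.g (nat_lit 4) .nil .nil))) 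
(.lf (nat_lit 37960) (.g (nat_lit 3546) (.e (nat_lit 1221) (nat_lit 90) (.e (nat_lit 81956) (nat_lit 23) (.e (nat_lit 98350) (nat_lit 24) (.e (nat_lit 409649) (nat_lit 18) (.e (nat_lit 303111) (nat_lit 0) (.e (nat_lit 2424) (nat_lit 157) (.e (nat_lit 3836) (nat_lit 233) .nil))))))) (.g (nat_lit 6) .nil .nil)))) (.nd (nat_lit 6) 
(.lf (nat_lit 37928) (.g (nat_lit 1899) (.e (nat_lit 1221) (nat_lit 90) (.e (nat_lit 81956) (nat_lit 23) (.e (nat_lit 98350) (nat_lit 24) (.e (nat_lit 409616) (nat_lit 10) (.e (nat_lit 4981) (nat_lit 287) (.e (nat_lit 2544) (nat_lit 158) (.e (nat_lit 8379) (nat_lit 102) .nil))))))) (.g (nat_lit 4) .nil .nil))) 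
(.lf (nat_lit 37992) (.g (nat_lit 3994) (.e (nat_lit 1221) (nat_lit 90) (.e (nat_lit 81956) (nat_lit 23) (.e (nat_lit 98389) (nat_lit 33) (.e (nat_lit 491560) (nat_lit 10) (.e (nat_lit 344089) (nat_lit 18) (.e (nat_lit 3927) (nat_lit 239) .nil)))))) (.g (nat_lit 4) .nil .nil))))) (.nd (nat_lit 5) (.nd (nat_lit 6) 
(.lf (nat_lit 37912) (.g (nat_lit 802) (.e (nat_lit 1221) (nat_lit 90) (.e (nat_lit 81956) (nat_lit 23) (.e (nat_lit 98335) (nat_lit 18) .nil))) .nil)) 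
(.lf (nat_lit 37976) (.g (nat_lit 3099) (.e (nat_lit 1221) (nat_lit 90) (.e (nat_lit 81956) (nat_lit 23) (.e (nat_lit 98387) (nat_lit 33) (.e (nat_lit 491566) (nat_lit 12) (.e (nat_lit 385051) (nat_lit 21) (.e (nat_lit 4217) (nat_lit 251) .nil)))))) (.g (nat_lit 4) .nil .nil)))) (.nd (nat_lit 6) 
(.lf (nat_lit 37944) (.g (nat_lit 1748) (.e (nat_lit 1221) (nat_lit 90) (.e (nat_lit 81956) (nat_lit 23) (.e (nat_lit 98350) (nat_lit 24) (.e (nat_lit 409646) (nat_lit 18) .nil)))) .nil)) 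
(.lf (nat_lit 38008) (.g (nat_lit 3652) (.e (nat_lit 1221) (nat_lit 90) (.e (nat_lit 81956) (nat_lit 23) (.e (nat_lit 98389) (nat_lit 33) (.e (nat_lit 491563) (nat_lit 12) (.e (nat_lit 385045) (nat_lit 21) .nil))))) .nil)))))) (.nd (nat_lit 3) (.nd (nat_lit 4) (.nd (nat_lit 5) (.nd (nat_lit 6) 
(.lf (nat_lit 37892) (.g (nat_lit 3048) (.e (nat_lit 1221) (nat_lit 90) (.e (nat_lit 81956) (nat_lit 23) (.e (nat_lit 98319) (nat_lit 17) (.e (nat_lit 7593) (nat_lit 407) (.e (nat_lit 73728) (nat_lit 0) (.e (nat_lit 3975) (nat_lit 239) .nil)))))) (.g (nat_lit 4) .nil .nil))) 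
(.lf (nat_lit 37956) (.g (nat_lit 2216) (.e (nat_lit 1221) (nat_lit 90) (.e (nat_lit 81956) (nat_lit 23) (.e (nat_lit 98350) (nat_lit 24) (.e (nat_lit 409648) (nat_lit 18) (.e (nat_lit 311040) (nat_lit 21) (.e (nat_lit 123015) (nat_lit 122) .nil)))))) (.g (nat_lit 4) .nil .nil)))) (.nd (nat_lit 6) 
(.lf (nat_lit 37924) (.g (nat_lit 2367) (.e (nat_lit 1221) (nat_lit 90) (.e (nat_lit 81956) (nat_lit 23) (.e (nat_lit 98350) (nat_lit 24) (.e (nat_lit 409616) (nat_lit 10) (.e (nat_lit 4978) (nat_lit 287) (.e (nat_lit 2544) (nat_lit 158) (.e (nat_lit 8379) (nat_lit 102) .nil))))))) (.g (nat_lit 4) .nil .nil))) 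
(.lf (nat_lit 37988) (.g (nat_lit 5118) (.e (nat_lit 1221) (nat_lit 90) (.e (nat_lit 81956) (nat_lit 23) (.e (nat_lit 98389) (nat_lit 33) (.e (nat_lit 491560) (nat_lit 10) (.e (nat_lit 344087) (nat_lit 18) (.e (nat_lit 3975) (nat_lit 239) .nil)))))) (.g (nat_lit 0) .nil .nil))))) (.nd (nat_lit 5) (.nd (nat_lit 6) 
(.lf (nat_lit 37908) (.g (nat_lit 5091) (.e (nat_lit 1221) (nat_lit 90) (.e (nat_lit 81956) (nat_lit 23) (.e (nat_lit 98333) (nat_lit 18) (.e (nat_lit 164182) (nat_lit 154) (.e (nat_lit 57411) (nat_lit 12) (.e (nat_lit 336310) (nat_lit 16) (.e (nat_lit 164422) (nat_lit 272) .nil))))))) (.g (nat_lit 5) .nil .nil))) 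
(.lf (nat_lit 37972) (.g (nat_lit 3179) (.e (nat_lit 1221) (nat_lit 90) (.e (nat_lit 81956) (nat_lit 23) (.e (nat_lit 98387) (nat_lit 33) (.e (nat_lit 491566) (nat_lit 12) (.e (nat_lit 385051) (nat_lit 21) (.e (nat_lit 4168) (nat_lit 251) .nil)))))) (.g (nat_lit 4) .nil .nil)))) (.nd (nat_lit 6) 
(.lf (nat_lit 37940) (.g (nat_lit 2326) (.e (nat_lit 1221) (nat_lit 90) (.e (nat_lit 81956) (nat_lit 23) (.e (nat_lit 98350) (nat_lit 24) (.e (nat_lit 409636) (nat_lit 14) .nil)))) .nil)) 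
(.lf (nat_lit 38004) (.g (nat_lit 4374) (.e (nat_lit 1221) (nat_lit 90) (.e (nat_lit 81956) (nat_lit 23) (.e (nat_lit 98389) (nat_lit 33) (.e (nat_lit 491563) (nat_lit 12) (.e (nat_lit 385043) (nat_lit 21) (.e (nat_lit 4202) (nat_lit 251) .nil)))))) (.g (nat_lit 4) .nil .nil)))))) (.nd (nat_lit 4) (.nd (nat_lit 5) (.nd (nat_lit 6) 
(.lf (nat_lit 37900) (.g (nat_lit 4337) (.e (nat_lit 1221) (nat_lit 90) (.e (nat_lit 81956) (nat_lit 23) (.e (nat_lit 98320) (nat_lit 17) (.e (nat_lit 7591) (nat_lit 407) (.e (nat_lit 73736) (nat_lit 0) (.e (nat_lit 3962) (nat_lit 239) .nil)))))) (.g (nat_lit 5) .nil .nil))) 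
(.lf (nat_lit 37964) (.g (nat_lit 3575) (.e (nat_lit 1221) (nat_lit 90) (.e (nat_lit 81956) (nat_lit 23) (.e (nat_lit 98356) (nat_lit 26) (.e (nat_lit 426448) (nat_lit 20) (.e (nat_lit 114711) (nat_lit 21) .nil))))) .nil))) (.nd (nat_lit 6) 
(.lf (nat_lit 37932) (.g (nat_lit 1715) (.e (nat_lit 1221) (nat_lit 90) (.e (nat_lit 81956) (nat_lit 23) (.e (nat_lit 98350) (nat_lit 24) (.e (nat_lit 409616) (nat_lit 10) (.e (nat_lit 7936) (nat_lit 299) (.e (nat_lit 8195) (nat_lit 0) (.e (nat_lit 4202) (nat_lit 251) .nil))))))) (.g (nat_lit 4) .nil .nil))) 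
(.lf (nat_lit 37996) (.g (nat_lit 4554) (.e (nat_lit 1221) (nat_lit 90) (.e (nat_lit 81956) (nat_lit 23) (.e (nat_lit 98389) (nat_lit 33) (.e (nat_lit 491560) (nat_lit 10) (.e (nat_lit 344103) (nat_lit 18) (.e (nat_lit 3962) (nat_lit 239) .nil)))))) (.g (nat_lit 4) .nil .nil))))) (.nd (nat_lit 5) (.nd (nat_lit 6) 
(.lf (nat_lit 37916) (.g (nat_lit 2331) (.e (nat_lit 1221) (nat_lit 90) (.e (nat_lit 81956) (nat_lit 23) (.e (nat_lit 98350) (nat_lit 24) (.e (nat_lit 409616) (nat_lit 10) (.e (nat_lit 4926) (nat_lit 287) (.e (nat_lit 2546) (nat_lit 158) (.e (nat_lit 8379) (nat_lit 102) .nil))))))) (.g (nat_lit 4) .nil .nil))) 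
(.lf (nat_lit 37980) (.g (nat_lit 3972) (.e (nat_lit 1221) (nat_lit 90) (.e (nat_lit 81956) (nat_lit 23) (.e (nat_lit 98388) (nat_lit 33) (.e (nat_lit 491566) (nat_lit 12) (.e (nat_lit 385043) (nat_lit 21) (.e (nat_lit 4202) (nat_lit 251) .nil)))))) (.g (nat_lit 4) .nil .nil)))) (.nd (nat_lit 6) 
(.lf (nat_lit 37948) (.g (nat_lit 2390) (.e (nat_lit 1221) (nat_lit 90) (.e (nat_lit 81956) (nat_lit 23) (.e (nat_lit 98350) (nat_lit 24) (.e (nat_lit 409648) (nat_lit 18) (.e (nat_lit 303108) (nat_lit 0) (.e (nat_lit 2424) (nat_lit 157) (.e (nat_lit 3881) (nat_lit 233) .nil))))))) (.g (nat_lit 4) .nil .nil))) 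
(.lf (nat_lit 38012) (.g (nat_lit 4032) (.e (nat_lit 1221) (nat_lit 90) (.e (nat_lit 81956) (nat_lit 23) (.e (nat_lit 98389) (nat_lit 33) (.e (nat_lit 491563) (nat_lit 12) (.e (nat_lit 385046) (nat_lit 21) .nil))))) .nil))))))) (.nd (nat_lit 2) (.nd (nat_lit 3) (.nd (nat_lit 4) (.nd (nat_lit 5) (.nd (nat_lit 6) 
(.lf (nat_lit 37890) (.g (nat_lit 1858) (.e (nat_lit 1221) (nat_lit 90) (.e (nat_lit 81956) (nat_lit 23) (.e (nat_lit 98319) (nat_lit 17) (.e (nat_lit 7591) (nat_lit 407) (.e (nat_lit 81664) (nat_lit 0) .nil))))) .nil)) 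
(.lf (nat_lit 37954) (.g (nat_lit 2054) (.e (nat_lit 1221) (nat_lit 90) (.e (nat_lit 81956) (nat_lit 23) (.e (nat_lit 98350) (nat_lit 24) (.e (nat_lit 409648) (nat_lit 18) (.e (nat_lit 303147) (nat_lit 15) .nil))))) .nil))) (.nd (nat_lit 6) 
(.lf (nat_lit 37922) (.g (nat_lit 2429) (.e (nat_lit 1221) (nat_lit 90) (.e (nat_lit 81956) (nat_lit 23) (.e (nat_lit 98350) (nat_lit 24) (.e (nat_lit 409616) (nat_lit 10) (.e (nat_lit 4978) (nat_lit 287) (.e (nat_lit 2540) (nat_lit 158) (.e (nat_lit 8379) (nat_lit 102) .nil))))))) (.g (nat_lit 4) .nil .nil))) 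
(.lf (nat_lit 37986) (.g (nat_lit 4074) (.e (nat_lit 1221) (nat_lit 90) (.e (nat_lit 81956) (nat_lit 23) (.e (nat_lit 98389) (nat_lit 33) (.e (nat_lit 491558) (nat_lit 10) (.e (nat_lit 344088) (nat_lit 18) (.e (nat_lit 3975) (nat_lit 239) .nil)))))) (.g (nat_lit 4) .nil .nil))))) (.nd (nat_lit 5) (.nd (nat_lit 6) 
(.lf (nat_lit 37906) (.g (nat_lit 4453) (.e (nat_lit 1221) (nat_lit 90) (.e (nat_lit 81956) (nat_lit 23) (.e (nat_lit 98333) (nat_lit 18) (.e (nat_lit 164153) (nat_lit 152) (.e (nat_lit 1214) (nat_lit 89) (.e (nat_lit 73729) (nat_lit 0) (.e (nat_lit 7454) (nat_lit 396) .nil))))))) (.g (nat_lit 4) .nil .nil))) 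
(.lf (nat_lit 37970) (.g (nat_lit 3072) (.e (nat_lit 1221) (nat_lit 90) (.e (nat_lit 81956) (nat_lit 23) (.e (nat_lit 98387) (nat_lit 33) (.e (nat_lit 491566) (nat_lit 12) (.e (nat_lit 385044) (nat_lit 21) .nil))))) .nil))) (.nd (nat_lit 6) 
(.lf (nat_lit 37938) (.g (nat_lit 2183) (.e (nat_lit 1221) (nat_lit 90) (.e (nat_lit 81956) (nat_lit 23) (.e (nat_lit 98350) (nat_lit 24) (.e (nat_lit 409623) (nat_lit 10) .nil)))) .nil)) 
(.lf (nat_lit 38002) (.g (nat_lit 4482) (.e (nat_lit 1221) (nat_lit 90) (.e (nat_lit 81956) (nat_lit 23) (.e (nat_lit 98389) (nat_lit 33) (.e (nat_lit 491562) (nat_lit 12) (.e (nat_lit 385047) (nat_lit 21) (.e (nat_lit 4203) (nat_lit 251) .nil)))))) (.g (nat_lit 4) .nil .nil)))))) (.nd (nat_lit 4) (.nd (nat_lit 5) (.nd (nat_lit 6) 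
(.lf (nat_lit 37898) (.g (nat_lit 1523) (.e (nat_lit 1221) (nat_lit 90) (.e (nat_lit 81956) (nat_lit 23) (.e (nat_lit 98320) (nat_lit 17) (.e (nat_lit 7589) (nat_lit 406) (.e (nat_lit 65637) (nat_lit 15) .nil))))) .nil)) 
(.lf (nat_lit 37962) (.g (nat_lit 4172) (.e (nat_lit 1221) (nat_lit 90) (.e (nat_lit 81956) (nat_lit 23) (.e (nat_lit 98350) (nat_lit 24) (.e (nat_lit 409649) (nat_lit 18) (.e (nat_lit 303115) (nat_lit 1) (.e (nat_lit 171776) (nat_lit 140) .nil)))))) (.g (nat_lit 5) .nil .nil)))) (.nd (nat_lit 6) 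
(.lf (nat_lit 37930) (.g (nat_lit 1820) (.e (nat_lit 1221) (nat_lit 90) (.e (nat_lit 81956) (nat_lit 23) (.e (nat_lit 98350) (nat_lit 24) (.e (nat_lit 409616) (nat_lit 10) (.e (nat_lit 7936) (nat_lit 299) (.e (nat_lit 8192) (nat_lit 0) (.e (nat_lit 4214) (nat_lit 251) .nil))))))) (.g (nat_lit 4) .nil .nil))) 
(.lf (nat_lit 37994) (.g (nat_lit 4643) (.e (nat_lit 1221) (nat_lit 90) (.e (nat_lit 81956) (nat_lit 23) (.e (nat_lit 98389) (nat_lit 33) (.e (nat_lit 491560) (nat_lit 10) (.e (nat_lit 344093) (nat_lit 18) (.e (nat_lit 3971) (nat_lit 239) .nil)))))) (.g (nat_lit 4) .nil .nil))))) (.nd (nat_lit 5) (.nd (nat_lit 6) 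
(.lf (nat_lit 37914) (.g (nat_lit 172) (.e (nat_lit 1221) (nat_lit 90) (.e (nat_lit 81956) (nat_lit 23) (.e (nat_lit 98350) (nat_lit 24) .nil))) .nil)) 
(.lf (nat_lit 37978) (.g (nat_lit 3813) (.e (nat_lit 1221) (nat_lit 90) (.e (nat_lit 81956) (nat_lit 23) (.e (nat_lit 98387) (nat_lit 33) (.e (nat_lit 491566) (nat_lit 12) (.e (nat_lit 385054) (nat_lit 21) (.e (nat_lit 4215) (nat_lit 251) .nil)))))) (.g (nat_lit 4) .nil .nil)))) (.nd (nat_lit 6) 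
(.lf (nat_lit 37946) (.g (nat_lit 2281) (.e (nat_lit 1221) (nat_lit 90) (.e (nat_lit 81956) (nat_lit 23) (.e (nat_lit 98350) (nat_lit 24) (.e (nat_lit 409648) (nat_lit 18) (.e (nat_lit 303108) (nat_lit 0) (.e (nat_lit 2422) (nat_lit 157) (.e (nat_lit 3875) (nat_lit 233) .nil))))))) (.g (nat_lit 4) .nil .nil))) 
(.lf (nat_lit 38010) (.g (nat_lit 3916) (.e (nat_lit 1221) (nat_lit 90) (.e (nat_lit 81956) (nat_lit 23) (.e (nat_lit 98389) (nat_lit 33) (.e (nat_lit 491563) (nat_lit 12) (.e (nat_lit 385045) (nat_lit 21) (.e (nat_lit 4202) (nat_lit 251) .nil)))))) (.g (nat_lit 4) .nil .nil))))))) (.nd (nat_lit 3) (.nd (nat_lit 4) (.nd (nat_lit 5) (.nd (nat_lit 6) 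
(.lf (nat_lit 37894) (.g (nat_lit 1850) (.e (nat_lit 1221) (nat_lit 90) (.e (nat_lit 81956) (nat_lit 23) (.e (nat_lit 98319) (nat_lit 17) (.e (nat_lit 7593) (nat_lit 407) (.e (nat_lit 81664) (nat_lit 0) .nil))))) .nil)) 
(.lf (nat_lit 37958) (.g (nat_lit 2678) (.e (nat_lit 1221) (nat_lit 90) (.e (nat_lit 81956) (nat_lit 23) (.e (nat_lit 98350) (nat_lit 24) (.e (nat_lit 409649) (nat_lit 18) (.e (nat_lit 303111) (nat_lit 0) (.e (nat_lit 2423) (nat_lit 157) (.e (nat_lit 3875) (nat_lit 233) .nil))))))) (.g (nat_lit 5) .nil .nil)))) (.nd (nat_lit 6) 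
(.lf (nat_lit 37926) (.g (nat_lit 1794) (.e (nat_lit 1221) (nat_lit 90) (.e (nat_lit 81956) (nat_lit 23) (.e (nat_lit 98350) (nat_lit 24) (.e (nat_lit 409616) (nat_lit 10) (.e (nat_lit 4981) (nat_lit 287) .nil))))) .nil)) 
(.lf (nat_lit 37990) (.g (nat_lit 4308) (.e (nat_lit 1221) (nat_lit 90) (.e (nat_lit 81956) (nat_lit 23) (.e (nat_lit 98389) (nat_lit 33) (.e (nat_lit 491560) (nat_lit 10) (.e (nat_lit 344088) (nat_lit 18) (.e (nat_lit 3927) (nat_lit 239) .nil)))))) (.g (nat_lit 4) .nil .nil))))) (.nd (nat_lit 5) (.nd (nat_lit 6) 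
(.lf (nat_lit 37910) (.g (nat_lit 4880) (.e (nat_lit 1221) (nat_lit 90) (.e (nat_lit 81956) (nat_lit 23) (.e (nat_lit 98334) (nat_lit 18) (.e (nat_lit 164182) (nat_lit 154) (.e (nat_lit 57411) (nat_lit 12) (.e (nat_lit 335878) (nat_lit 0) (.e (nat_lit 1016) (nat_lit 81) (.e (nat_lit 7454) (nat_lit 396) .nil)))))))) (.g (nat_lit 5) .nil .nil))) 
(.lf (nat_lit 37974) (.g (nat_lit 3093) (.e (nat_lit 1221) (nat_lit 90) (.e (nat_lit 81956) (nat_lit 23) (.e (nat_lit 98387) (nat_lit 33) (.e (nat_lit 491566) (nat_lit 12) (.e (nat_lit 385051) (nat_lit 21) (.e (nat_lit 4214) (nat_lit 251) .nil)))))) (.g (nat_lit 4) .nil .nil)))) (.nd (nat_lit 6) 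
(.lf (nat_lit 37942) (.g (nat_lit 2459) (.e (nat_lit 1221) (nat_lit 90) (.e (nat_lit 81956) (nat_lit 23) (.e (nat_lit 98350) (nat_lit 24) (.e (nat_lit 409639) (nat_lit 15) .nil)))) .nil)) 
(.lf (nat_lit 38006) (.g (nat_lit 4244) (.e (nat_lit 1221) (nat_lit 90) (.e (nat_lit 81956) (nat_lit 23) (.e (nat_lit 98389) (nat_lit 33) (.e (nat_lit 491563) (nat_lit 12) (.e (nat_lit 385044) (nat_lit 21) .nil))))) .nil))))) (.nd (nat_lit 4) (.nd (nat_lit 5) (.nd (nat_lit 6) 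
(.lf (nat_lit 37902) (.g (nat_lit 422) (.e (nat_lit 1221) (nat_lit 90) (.e (nat_lit 81956) (nat_lit 23) (.e (nat_lit 98321) (nat_lit 17) .nil))) .nil)) 
(.lf (nat_lit 37966) (.g (nat_lit 3620) (.e (nat_lit 1221) (nat_lit 90) (.e (nat_lit 81956) (nat_lit 23) (.e (nat_lit 98384) (nat_lit 32) (.e (nat_lit 475214) (nat_lit 42) (.e (nat_lit 720896) (nat_lit 0) .nil))))) .nil))) (.nd (nat_lit 6) 
(.lf (nat_lit 37934) (.g (nat_lit 1605) (.e (nat_lit 1221) (nat_lit 90) (.e (nat_lit 81956) (nat_lit 23) (.e (nat_lit 98350) (nat_lit 24) (.e (nat_lit 409616) (nat_lit 10) (.e (nat_lit 7936) (nat_lit 299) (.e (nat_lit 8200) (nat_lit 0) (.e (nat_lit 4217) (nat_lit 251) .nil))))))) (.g (nat_lit 4) .nil .nil))) 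
(.lf (nat_lit 37998) (.g (nat_lit 4749) (.e (nat_lit 1221) (nat_lit 90) (.e (nat_lit 81956) (nat_lit 23) (.e (nat_lit 98389) (nat_lit 33) (.e (nat_lit 491560) (nat_lit 10) (.e (nat_lit 352000) (nat_lit 18) (.e (nat_lit 3963) (nat_lit 239) .nil)))))) (.g (nat_lit 4) .nil .nil))))) (.nd (nat_lit 5) (.nd (nat_lit 6) 
(.lf (nat_lit 37918) (.g (nat_lit 1794) (.e (nat_lit 1221) (nat_lit 90) (.e (nat_lit 81956) (nat_lit 23) (.e (nat_lit 98350) (nat_lit 24) (.e (nat_lit 409616) (nat_lit 10) (.e (nat_lit 4931) (nat_lit 287) .nil))))) .nil)) 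
(.lf (nat_lit 37982) (.g (nat_lit 4533) (.e (nat_lit 1221) (nat_lit 90) (.e (nat_lit 81956) (nat_lit 23) (.e (nat_lit 98388) (nat_lit 33) (.e (nat_lit 491566) (nat_lit 12) (.e (nat_lit 385054) (nat_lit 21) (.e (nat_lit 4215) (nat_lit 251) .nil)))))) (.g (nat_lit 4) .nil .nil)))) (.nd (nat_lit 6) 
(.lf (nat_lit 37950) (.g (nat_lit 2555) (.e (nat_lit 1221) (nat_lit 90) (.e (nat_lit 81956) (nat_lit 23) (.e (nat_lit 98350) (nat_lit 24) (.e (nat_lit 409648) (nat_lit 18) (.e (nat_lit 303108) (nat_lit 0) (.e (nat_lit 2425) (nat_lit 157) (.e (nat_lit 3836) (nat_lit 233) .nil))))))) (.g (nat_lit 4) .nil .nil))) 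
(.lf (nat_lit 38014) (.g (nat_lit 4446) (.e (nat_lit 1221) (nat_lit 90) (.e (nat_lit 81956) (nat_lit 23) (.e (nat_lit 98389) (nat_lit 33) (.e (nat_lit 491563) (nat_lit 12) (.e (nat_lit 385046) (nat_lit 21) (.e (nat_lit 4197) (nat_lit 251) .nil)))))) (.g (nat_lit 4) .nil .nil))))))))) (.nd (nat_lit 1) (.nd (nat_lit 2) (.nd (nat_lit 3) (.nd (nat_lit 4) (.nd (nat_lit 5) (.nd (nat_lit 6) 
(.lf (nat_lit 37889) (.g (nat_lit 3280) (.e (nat_lit 1221) (nat_lit 90) (.e (nat_lit 81956) (nat_lit 23) (.e (nat_lit 98319) (nat_lit 17) (.e (nat_lit 7591) (nat_lit 407) (.e (nat_lit 73737) (nat_lit 0) (.e (nat_lit 3962) (nat_lit 239) .nil)))))) (.g (nat_lit 4) .nil .nil))) 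
(.lf (nat_lit 37953) (.g (nat_lit 2622) (.e (nat_lit 1221) (nat_lit 90) (.e (nat_lit 81956) (nat_lit 23) (.e (nat_lit 98350) (nat_lit 24) (.e (nat_lit 409648) (nat_lit 18) (.e (nat_lit 303120) (nat_lit 4) .nil))))) .nil))) (.nd (nat_lit 6) 
(.lf (nat_lit 37921) (.g (nat_lit 2294) (.e (nat_lit 1221) (nat_lit 90) (.e (nat_lit 81956) (nat_lit 23) (.e (nat_lit 98350) (nat_lit 24) (.e (nat_lit 409616) (nat_lit 10) (.e (nat_lit 4931) (nat_lit 287) (.e (nat_lit 2546) (nat_lit 158) (.e (nat_lit 8379) (nat_lit 102) .nil))))))) (.g (nat_lit 4) .nil .nil))) 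
(.lf (nat_lit 37985) (.g (nat_lit 3884) (.e (nat_lit 1221) (nat_lit 90) (.e (nat_lit 81956) (nat_lit 23) (.e (nat_lit 98389) (nat_lit 33) (.e (nat_lit 491558) (nat_lit 10) (.e (nat_lit 344088) (nat_lit 18) (.e (nat_lit 3920) (nat_lit 239) .nil)))))) (.g (nat_lit 4) .nil .nil))))) (.nd (nat_lit 5) (.nd (nat_lit 6) 
(.lf (nat_lit 37905) (.g (nat_lit 706) (.e (nat_lit 1221) (nat_lit 90) (.e (nat_lit 81956) (nat_lit 23) (.e (nat_lit 98333) (nat_lit 18) .nil))) .nil)) 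
(.lf (nat_lit 37969) (.g (nat_lit 2603) (.e (nat_lit 1221) (nat_lit 90) (.e (nat_lit 81956) (nat_lit 23) (.e (nat_lit 98387) (nat_lit 33) (.e (nat_lit 491566) (nat_lit 12) (.e (nat_lit 385043) (nat_lit 21) .nil))))) .nil))) (.nd (nat_lit 6) 
(.lf (nat_lit 37937) (.g (nat_lit 2291) (.e (nat_lit 1221) (nat_lit 90) (.e (nat_lit 81956) (nat_lit 23) (.e (nat_lit 98350) (nat_lit 24) (.e (nat_lit 409617) (nat_lit 10) (.e (nat_lit 4934) (nat_lit 287) (.e (nat_lit 2546) (nat_lit 158) (.e (nat_lit 8379) (nat_lit 102) .nil))))))) (.g (nat_lit 4) .nil .nil))) 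
(.lf (nat_lit 38001) (.g (nat_lit 4517) (.e (nat_lit 1221) (nat_lit 90) (.e (nat_lit 81956) (nat_lit 23) (.e (nat_lit 98389) (nat_lit 33) (.e (nat_lit 491562) (nat_lit 12) (.e (nat_lit 385047) (nat_lit 21) (.e (nat_lit 4168) (nat_lit 251) .nil)))))) (.g (nat_lit 4) .nil .nil)))))) (.nd (nat_lit 4) (.nd (nat_lit 5) (.nd (nat_lit 6) 
(.lf (nat_lit 37897) (.g (nat_lit 1301) (.e (nat_lit 1221) (nat_lit 90) (.e (nat_lit 81956) (nat_lit 23) (.e (nat_lit 98320) (nat_lit 17) (.e (nat_lit 7587) (nat_lit 406) .nil)))) .nil)) 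
(.lf (nat_lit 37961) (.g (nat_lit 3088) (.e (nat_lit 1221) (nat_lit 90) (.e (nat_lit 81956) (nat_lit 23) (.e (nat_lit 98350) (nat_lit 24) (.e (nat_lit 409649) (nat_lit 18) (.e (nat_lit 303114) (nat_lit 1) (.e (nat_lit 171776) (nat_lit 140) .nil)))))) (.g (nat_lit 4) .nil .nil)))) (.nd (nat_lit 6) 
(.lf (nat_lit 37929) (.g (nat_lit 815) (.e (nat_lit 1221) (nat_lit 90) (.e (nat_lit 81956) (nat_lit 23) (.e (nat_lit 98350) (nat_lit 24) (.e (nat_lit 409616) (nat_lit 10) (.e (nat_lit 7936) (nat_lit 299) .nil))))) .nil)) 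
(.lf (nat_lit 37993) (.g (nat_lit 4594) (.e (nat_lit 1221) (nat_lit 90) (.e (nat_lit 81956) (nat_lit 23) (.e (nat_lit 98389) (nat_lit 33) (.e (nat_lit 491560) (nat_lit 10) (.e (nat_lit 344089) (nat_lit 18) (.e (nat_lit 3972) (nat_lit 239) .nil)))))) (.g (nat_lit 4) .nil .nil))))) (.nd (nat_lit 5) (.nd (nat_lit 6) 
(.lf (nat_lit 37913) (.g (nat_lit 3114) (.e (nat_lit 1221) (nat_lit 90) (.e (nat_lit 81956) (nat_lit 23) (.e (nat_lit 98346) (nat_lit 22) (.e (nat_lit 253961) (nat_lit 9) (.e (nat_lit 1277) (nat_lit 94) (.e (nat_lit 114711) (nat_lit 21) (.e (nat_lit 57870) (nat_lit 264) .nil))))))) (.g (nat_lit 4) .nil .nil))) 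
(.lf (nat_lit 37977) (.g (nat_lit 3912) (.e (nat_lit 1221) (nat_lit 90) (.e (nat_lit 81956) (nat_lit 23) (.e (nat_lit 98387) (nat_lit 33) (.e (nat_lit 491566) (nat_lit 12) (.e (nat_lit 385053) (nat_lit 21) (.e (nat_lit 4211) (nat_lit 251) .nil)))))) (.g (nat_lit 4) .nil .nil)))) (.nd (nat_lit 6) 
(.lf (nat_lit 37945) (.g (nat_lit 2911) (.e (nat_lit 1221) (nat_lit 90) (.e (nat_lit 81956) (nat_lit 23) (.e (nat_lit 98350) (nat_lit 24) (.e (nat_lit 409646) (nat_lit 18) (.e (nat_lit 303115) (nat_lit 1) .nil))))) .nil)) 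
(.lf (nat_lit 38009) (.g (nat_lit 4379) (.e (nat_lit 1221) (nat_lit 90) (.e (nat_lit 81956) (nat_lit 23) (.e (nat_lit 98389) (nat_lit 33) (.e (nat_lit 491563) (nat_lit 12) (.e (nat_lit 385045) (nat_lit 21) (.e (nat_lit 4168) (nat_lit 251) .nil)))))) (.g (nat_lit 4) .nil .nil))))))) (.nd (nat_lit 3) (.nd (nat_lit 4) (.nd (nat_lit 5) (.nd (nat_lit 6) 
(.lf (nat_lit 37893) (.g (nat_lit 3302) (.e (nat_lit 1221) (nat_lit 90) (.e (nat_lit 81956) (nat_lit 23) (.e (nat_lit 98319) (nat_lit 17) (.e (nat_lit 7593) (nat_lit 407) (.e (nat_lit 73736) (nat_lit 0) (.e (nat_lit 3962) (nat_lit 239) .nil)))))) (.g (nat_lit 4) .nil .nil))) 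
(.lf (nat_lit 37957) (.g (nat_lit 905) (.e (nat_lit 1221) (nat_lit 90) (.e (nat_lit 81956) (nat_lit 23) (.e (nat_lit 98350) (nat_lit 24) (.e (nat_lit 409649) (nat_lit 18) .nil)))) .nil))) (.nd (nat_lit 6) 
(.lf (nat_lit 37925) (.g (nat_lit 2383) (.e (nat_lit 1221) (nat_lit 90) (.e (nat_lit 81956) (nat_lit 23) (.e (nat_lit 98350) (nat_lit 24) (.e (nat_lit 409616) (nat_lit 10) (.e (nat_lit 4979) (nat_lit 287) (.e (nat_lit 2543) (nat_lit 158) (.e (nat_lit 8379) (nat_lit 102) .nil))))))) (.g (nat_lit 4) .nil .nil))) 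
(.lf (nat_lit 37989) (.g (nat_lit 4861) (.e (nat_lit 1221) (nat_lit 90) (.e (nat_lit 81956) (nat_lit 23) (.e (nat_lit 98389) (nat_lit 33) (.e (nat_lit 491560) (nat_lit 10) (.e (nat_lit 344088) (nat_lit 18) (.e (nat_lit 3920) (nat_lit 239) .nil)))))) (.g (nat_lit 5) .nil .nil))))) (.nd (nat_lit 5) (.nd (nat_lit 6) 
(.lf (nat_lit 37909) (.g (nat_lit 4935) (.e (nat_lit 1221) (nat_lit 90) (.e (nat_lit 81956) (nat_lit 23) (.e (nat_lit 98333) (nat_lit 18) (.e (nat_lit 164183) (nat_lit 154) (.e (nat_lit 57411) (nat_lit 12) (.e (nat_lit 335878) (nat_lit 0) (.e (nat_lit 1016) (nat_lit 81) (.e (nat_lit 7454) (nat_lit 396) .nil)))))))) (.g (nat_lit 5) .nil .nil))) 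
(.lf (nat_lit 37973) (.g (nat_lit 3090) (.e (nat_lit 1221) (nat_lit 90) (.e (nat_lit 81956) (nat_lit 23) (.e (nat_lit 98387) (nat_lit 33) (.e (nat_lit 491566) (nat_lit 12) (.e (nat_lit 385051) (nat_lit 21) (.e (nat_lit 4213) (nat_lit 251) .nil)))))) (.g (nat_lit 4) .nil .nil)))) (.nd (nat_lit 6) 
(.lf (nat_lit 37941) (.g (nat_lit 2419) (.e (nat_lit 1221) (nat_lit 90) (.e (nat_lit 81956) (nat_lit 23) (.e (nat_lit 98350) (nat_lit 24) (.e (nat_lit 409638) (nat_lit 15) .nil)))) .nil)) 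
(.lf (nat_lit 38005) (.g (nat_lit 4289) (.e (nat_lit 1221) (nat_lit 90) (.e (nat_lit 81956) (nat_lit 23) (.e (nat_lit 98389) (nat_lit 33) (.e (nat_lit 491563) (nat_lit 12) (.e (nat_lit 385043) (nat_lit 21) (.e (nat_lit 4203) (nat_lit 251) .nil)))))) (.g (nat_lit 4) .nil .nil)))))) (.nd (nat_lit 4) (.nd (nat_lit 5) (.nd (nat_lit 6) 
(.lf (nat_lit 37901) (.g (nat_lit 4307) (.e (nat_lit 1221) (nat_lit 90) (.e (nat_lit 81956) (nat_lit 23) (.e (nat_lit 98320) (nat_lit 17) (.e (nat_lit 7593) (nat_lit 407) (.e (nat_lit 73728) (nat_lit 0) (.e (nat_lit 3971) (nat_lit 239) .nil)))))) (.g (nat_lit 4) .nil .nil))) 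
(.lf (nat_lit 37965) (.g (nat_lit 614) (.e (nat_lit 1221) (nat_lit 90) (.e (nat_lit 81956) (nat_lit 23) (.e (nat_lit 98367) (nat_lit 27) .nil))) .nil))) (.nd (nat_lit 6) 
(.lf (nat_lit 37933) (.g (nat_lit 1726) (.e (nat_lit 1221) (nat_lit 90) (.e (nat_lit 81956) (nat_lit 23) (.e (nat_lit 98350) (nat_lit 24) (.e (nat_lit 409616) (nat_lit 10) (.e (nat_lit 7936) (nat_lit 299) (.e (nat_lit 8199) (nat_lit 0) (.e (nat_lit 4217) (nat_lit 251) .nil))))))) (.g (nat_lit 4) .nil .nil))) 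
(.lf (nat_lit 37997) (.g (nat_lit 1977) (.e (nat_lit 1221) (nat_lit 90) (.e (nat_lit 81956) (nat_lit 23) (.e (nat_lit 98389) (nat_lit 33) (.e (nat_lit 491560) (nat_lit 10) (.e (nat_lit 352000) (nat_lit 18) .nil))))) .nil)))) (.nd (nat_lit 5) (.nd (nat_lit 6) 
(.lf (nat_lit 37917) (.g (nat_lit 1794) (.e (nat_lit 1221) (nat_lit 90) (.e (nat_lit 81956) (nat_lit 23) (.e (nat_lit 98350) (nat_lit 24) (.e (nat_lit 409616) (nat_lit 10) (.e (nat_lit 4929) (nat_lit 287) .nil))))) .nil)) 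
(.lf (nat_lit 37981) (.g (nat_lit 4486) (.e (nat_lit 1221) (nat_lit 90) (.e (nat_lit 81956) (nat_lit 23) (.e (nat_lit 98388) (nat_lit 33) (.e (nat_lit 491566) (nat_lit 12) (.e (nat_lit 385053) (nat_lit 21) (.e (nat_lit 4211) (nat_lit 251) .nil)))))) (.g (nat_lit 4) .nil .nil)))) (.nd (nat_lit 6) 
(.lf (nat_lit 37949) (.g (nat_lit 2546) (.e (nat_lit 1221) (nat_lit 90) (.e (nat_lit 81956) (nat_lit 23) (.e (nat_lit 98350) (nat_lit 24) (.e (nat_lit 409648) (nat_lit 18) (.e (nat_lit 303108) (nat_lit 0) (.e (nat_lit 2425) (nat_lit 157) (.e (nat_lit 3832) (nat_lit 233) .nil))))))) (.g (nat_lit 4) .nil .nil))) 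
(.lf (nat_lit 38013) (.g (nat_lit 4065) (.e (nat_lit 1221) (nat_lit 90) (.e (nat_lit 81956) (nat_lit 23) (.e (nat_lit 98389) (nat_lit 33) (.e (nat_lit 491563) (nat_lit 12) (.e (nat_lit 385046) (nat_lit 21) (.e (nat_lit 4168) (nat_lit 251) .nil)))))) (.g (nat_lit 4) .nil .nil)))))))) (.nd (nat_lit 2) (.nd (nat_lit 3) (.nd (nat_lit 4) (.nd (nat_lit 5) (.nd (nat_lit 6) 
(.lf (nat_lit 37891) (.g (nat_lit 1397) (.e (nat_lit 1221) (nat_lit 90) (.e (nat_lit 81956) (nat_lit 23) (.e (nat_lit 98319) (nat_lit 17) (.e (nat_lit 7593) (nat_lit 407) .nil)))) .nil)) 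
(.lf (nat_lit 37955) (.g (nat_lit 3032) (.e (nat_lit 1221) (nat_lit 90) (.e (nat_lit 81956) (nat_lit 23) (.e (nat_lit 98350) (nat_lit 24) (.e (nat_lit 409648) (nat_lit 18) (.e (nat_lit 303149) (nat_lit 15) (.e (nat_lit 1077) (nat_lit 81) (.e (nat_lit 4211) (nat_lit 251) .nil))))))) (.g (nat_lit 5) .nil .nil)))) (.nd (nat_lit 6) 
(.lf (nat_lit 37923) (.g (nat_lit 2136) (.e (nat_lit 1221) (nat_lit 90) (.e (nat_lit 81956) (nat_lit 23) (.e (nat_lit 98350) (nat_lit 24) (.e (nat_lit 409616) (nat_lit 10) (.e (nat_lit 4978) (nat_lit 287) (.e (nat_lit 2543) (nat_lit 158) (.e (nat_lit 8379) (nat_lit 102) .nil))))))) (.g (nat_lit 4) .nil .nil))) 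
(.lf (nat_lit 37987) (.g (nat_lit 3778) (.e (nat_lit 1221) (nat_lit 90) (.e (nat_lit 81956) (nat_lit 23) (.e (nat_lit 98389) (nat_lit 33) (.e (nat_lit 491558) (nat_lit 10) (.e (nat_lit 344089) (nat_lit 18) (.e (nat_lit 3975) (nat_lit 239) .nil)))))) (.g (nat_lit 4) .nil .nil))))) (.nd (nat_lit 5) (.nd (nat_lit 6) 
(.lf (nat_lit 37907) (.g (nat_lit 1865) (.e (nat_lit 1221) (nat_lit 90) (.e (nat_lit 81956) (nat_lit 23) (.e (nat_lit 98333) (nat_lit 18) (.e (nat_lit 164182) (nat_lit 154) .nil)))) .nil)) 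
(.lf (nat_lit 37971) (.g (nat_lit 3143) (.e (nat_lit 1221) (nat_lit 90) (.e (nat_lit 81956) (nat_lit 23) (.e (nat_lit 98387) (nat_lit 33) (.e (nat_lit 491566) (nat_lit 12) (.e (nat_lit 385050) (nat_lit 21) .nil))))) .nil))) (.nd (nat_lit 6) 
(.lf (nat_lit 37939) (.g (nat_lit 2093) (.e (nat_lit 1221) (nat_lit 90) (.e (nat_lit 81956) (nat_lit 23) (.e (nat_lit 98350) (nat_lit 24) (.e (nat_lit 417536) (nat_lit 10) .nil)))) .nil)) 
(.lf (nat_lit 38003) (.g (nat_lit 4188) (.e (nat_lit 1221) (nat_lit 90) (.e (nat_lit 81956) (nat_lit 23) (.e (nat_lit 98389) (nat_lit 33) (.e (nat_lit 491563) (nat_lit 12) (.e (nat_lit 385043) (nat_lit 21) .nil))))) .nil))))) (.nd (nat_lit 4) (.nd (nat_lit 5) (.nd (nat_lit 6) 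
(.lf (nat_lit 37899) (.g (nat_lit 4134) (.e (nat_lit 1221) (nat_lit 90) (.e (nat_lit 81956) (nat_lit 23) (.e (nat_lit 98320) (nat_lit 17) (.e (nat_lit 7591) (nat_lit 407) (.e (nat_lit 73728) (nat_lit 0) (.e (nat_lit 3971) (nat_lit 239) .nil)))))) (.g (nat_lit 4) .nil .nil))) 
(.lf (nat_lit 37963) (.g (nat_lit 2273) (.e (nat_lit 1221) (nat_lit 90) (.e (nat_lit 81956) (nat_lit 23) (.e (nat_lit 98350) (nat_lit 24) (.e (nat_lit 409649) (nat_lit 18) (.e (nat_lit 303120) (nat_lit 4) .nil))))) .nil))) (.nd (nat_lit 6) 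
(.lf (nat_lit 37931) (.g (nat_lit 1545) (.e (nat_lit 1221) (nat_lit 90) (.e (nat_lit 81956) (nat_lit 23) (.e (nat_lit 98350) (nat_lit 24) (.e (nat_lit 409616) (nat_lit 10) (.e (nat_lit 7936) (nat_lit 299) (.e (nat_lit 8195) (nat_lit 0) (.e (nat_lit 4197) (nat_lit 251) .nil))))))) (.g (nat_lit 4) .nil .nil))) 
(.lf (nat_lit 37995) (.g (nat_lit 4420) (.e (nat_lit 1221) (nat_lit 90) (.e (nat_lit 81956) (nat_lit 23) (.e (nat_lit 98389) (nat_lit 33) (.e (nat_lit 491560) (nat_lit 10) (.e (nat_lit 344102) (nat_lit 18) (.e (nat_lit 3962) (nat_lit 239) .nil)))))) (.g (nat_lit 4) .nil .nil))))) (.nd (nat_lit 5) (.nd (nat_lit 6) 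
(.lf (nat_lit 37915) (.g (nat_lit 1731) (.e (nat_lit 1221) (nat_lit 90) (.e (nat_lit 81956) (nat_lit 23) (.e (nat_lit 98350) (nat_lit 24) (.e (nat_lit 409616) (nat_lit 10) (.e (nat_lit 4926) (nat_lit 287) .nil))))) .nil)) 
(.lf (nat_lit 37979) (.g (nat_lit 2604) (.e (nat_lit 1221) (nat_lit 90) (.e (nat_lit 81956) (nat_lit 23) (.e (nat_lit 98388) (nat_lit 33) (.e (nat_lit 491560) (nat_lit 10) (.e (nat_lit 344089) (nat_lit 18) .nil))))) .nil))) (.nd (nat_lit 6) 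
(.lf (nat_lit 37947) (.g (nat_lit 2056) (.e (nat_lit 1221) (nat_lit 90) (.e (nat_lit 81956) (nat_lit 23) (.e (nat_lit 98350) (nat_lit 24) (.e (nat_lit 409648) (nat_lit 18) (.e (nat_lit 303108) (nat_lit 0) (.e (nat_lit 2424) (nat_lit 157) (.e (nat_lit 3875) (nat_lit 233) .nil))))))) (.g (nat_lit 4) .nil .nil))) 
(.lf (nat_lit 38011) (.g (nat_lit 4301) (.e (nat_lit 1221) (nat_lit 90) (.e (nat_lit 81956) (nat_lit 23) (.e (nat_lit 98389) (nat_lit 33) (.e (nat_lit 491563) (nat_lit 12) (.e (nat_lit 385045) (nat_lit 21) (.e (nat_lit 4203) (nat_lit 251) .nil)))))) (.g (nat_lit 4) .nil .nil))))))) (.nd (nat_lit 3) (.nd (nat_lit 4) (.nd (nat_lit 5) (.nd (nat_lit 6) 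
(.lf (nat_lit 37895) (.g (nat_lit 462) (.e (nat_lit 1221) (nat_lit 90) (.e (nat_lit 81956) (nat_lit 23) (.e (nat_lit 98320) (nat_lit 17) .nil))) .nil)) 
(.lf (nat_lit 37959) (.g (nat_lit 2971) (.e (nat_lit 1221) (nat_lit 90) (.e (nat_lit 81956) (nat_lit 23) (.e (nat_lit 98350) (nat_lit 24) (.e (nat_lit 409649) (nat_lit 18) (.e (nat_lit 303111) (nat_lit 0) (.e (nat_lit 2423) (nat_lit 157) (.e (nat_lit 3881) (nat_lit 233) .nil))))))) (.g (nat_lit 5) .nil .nil)))) (.nd (nat_lit 6) 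
(.lf (nat_lit 37927) (.g (nat_lit 1988) (.e (nat_lit 1221) (nat_lit 90) (.e (nat_lit 81956) (nat_lit 23) (.e (nat_lit 98350) (nat_lit 24) (.e (nat_lit 409616) (nat_lit 10) (.e (nat_lit 4981) (nat_lit 287) (.e (nat_lit 2540) (nat_lit 158) (.e (nat_lit 8379) (nat_lit 102) .nil))))))) (.g (nat_lit 4) .nil .nil))) 
(.lf (nat_lit 37991) (.g (nat_lit 4897) (.e (nat_lit 1221) (nat_lit 90) (.e (nat_lit 81956) (nat_lit 23) (.e (nat_lit 98389) (nat_lit 33) (.e (nat_lit 491560) (nat_lit 10) (.e (nat_lit 344089) (nat_lit 18) (.e (nat_lit 3920) (nat_lit 239) .nil)))))) (.g (nat_lit 5) .nil .nil))))) (.nd (nat_lit 5) (.nd (nat_lit 6) 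
(.lf (nat_lit 37911) (.g (nat_lit 1480) (.e (nat_lit 1221) (nat_lit 90) (.e (nat_lit 81956) (nat_lit 23) (.e (nat_lit 98334) (nat_lit 18) (.e (nat_lit 171776) (nat_lit 166) .nil)))) .nil)) 
(.lf (nat_lit 37975) (.g (nat_lit 3320) (.e (nat_lit 1221) (nat_lit 90) (.e (nat_lit 81956) (nat_lit 23) (.e (nat_lit 98387) (nat_lit 33) (.e (nat_lit 491566) (nat_lit 12) (.e (nat_lit 385051) (nat_lit 21) (.e (nat_lit 4216) (nat_lit 251) .nil)))))) (.g (nat_lit 4) .nil .nil)))) (.nd (nat_lit 6) 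
(.lf (nat_lit 37943) (.g (nat_lit 3711) (.e (nat_lit 1221) (nat_lit 90) (.e (nat_lit 81956) (nat_lit 23) (.e (nat_lit 98350) (nat_lit 24) (.e (nat_lit 409645) (nat_lit 18) (.e (nat_lit 303115) (nat_lit 1) (.e (nat_lit 171776) (nat_lit 140) .nil)))))) (.g (nat_lit 4) .nil .nil))) 
(.lf (nat_lit 38007) (.g (nat_lit 4319) (.e (nat_lit 1221) (nat_lit 90) (.e (nat_lit 81956) (nat_lit 23) (.e (nat_lit 98389) (nat_lit 33) (.e (nat_lit 491563) (nat_lit 12) (.e (nat_lit 385044) (nat_lit 21) (.e (nat_lit 4202) (nat_lit 251) .nil)))))) (.g (nat_lit 4) .nil .nil)))))) (.nd (nat_lit 4) (.nd (nat_lit 5) (.nd (nat_lit 6) 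
(.lf (nat_lit 37903) (.g (nat_lit 1244) (.e (nat_lit 1221) (nat_lit 90) (.e (nat_lit 81956) (nat_lit 23) (.e (nat_lit 98325) (nat_lit 17) (.e (nat_lit 7550) (nat_lit 402) .nil)))) .nil)) 
(.lf (nat_lit 37967) (.g (nat_lit 3819) (.e (nat_lit 1221) (nat_lit 90) (.e (nat_lit 81956) (nat_lit 23) (.e (nat_lit 98384) (nat_lit 32) (.e (nat_lit 475214) (nat_lit 42) (.e (nat_lit 720929) (nat_lit 21) (.e (nat_lit 65280) (nat_lit 128) .nil)))))) (.g (nat_lit 4) .nil .nil)))) (.nd (nat_lit 6) 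
(.lf (nat_lit 37935) (.g (nat_lit 1781) (.e (nat_lit 1221) (nat_lit 90) (.e (nat_lit 81956) (nat_lit 23) (.e (nat_lit 98350) (nat_lit 24) (.e (nat_lit 409616) (nat_lit 10) (.e (nat_lit 5630) (nat_lit 312) .nil))))) .nil)) 
(.lf (nat_lit 37999) (.g (nat_lit 4440) (.e (nat_lit 1221) (nat_lit 90) (.e (nat_lit 81956) (nat_lit 23) (.e (nat_lit 98389) (nat_lit 33) (.e (nat_lit 491560) (nat_lit 10) (.e (nat_lit 352000) (nat_lit 18) (.e (nat_lit 3964) (nat_lit 239) .nil)))))) (.g (nat_lit 4) .nil .nil))))) (.nd (nat_lit 5) (.nd (nat_lit 6) 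
(.lf (nat_lit 37919) (.g (nat_lit 1945) (.e (nat_lit 1221) (nat_lit 90) (.e (nat_lit 81956) (nat_lit 23) (.e (nat_lit 98350) (nat_lit 24) (.e (nat_lit 409616) (nat_lit 10) (.e (nat_lit 4931) (nat_lit 287) (.e (nat_lit 2544) (nat_lit 158) (.e (nat_lit 8379) (nat_lit 102) .nil))))))) (.g (nat_lit 4) .nil .nil))) 
(.lf (nat_lit 37983) (.g (nat_lit 405) (.e (nat_lit 1221) (nat_lit 90) (.e (nat_lit 81956) (nat_lit 23) (.e (nat_lit 98389) (nat_lit 33) .nil))) .nil))) (.nd (nat_lit 6) 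
(.lf (nat_lit 37951) (.g (nat_lit 2429) (.e (nat_lit 1221) (nat_lit 90) (.e (nat_lit 81956) (nat_lit 23) (.e (nat_lit 98350) (nat_lit 24) (.e (nat_lit 409648) (nat_lit 18) (.e (nat_lit 303114) (nat_lit 1) (.e (nat_lit 171776) (nat_lit 140) .nil)))))) (.g (nat_lit 4) .nil .nil))) 
(.lf (nat_lit 38015) (.g (nat_lit 4587) (.e (nat_lit 1221) (nat_lit 90) (.e (nat_lit 81956) (nat_lit 23) (.e (nat_lit 98389) (nat_lit 33) (.e (nat_lit 491563) (nat_lit 12) (.e (nat_lit 385046) (nat_lit 21) (.e (nat_lit 4202) (nat_lit 251) .nil)))))) (.g (nat_lit 4) .nil .nil))))))))))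

noncomputable def tv528 : DT := (.nd (nat_lit 0) (.nd (nat_lit 1) (.nd (nat_lit 2) (.nd (nat_lit 3) (.nd (nat_lit 4) (.nd (nat_lit 5) (.nd (nat_lit 6) 
(.lf (nat_lit 38016) (.g (nat_lit 4345) (.e (nat_lit 1221) (nat_lit 90) (.e (nat_lit 81956) (nat_lit 23) (.e (nat_lit 98389) (nat_lit 33) (.e (nat_lit 491563) (nat_lit 12) (.e (nat_lit 385046) (nat_lit 21) (.e (nat_lit 4203) (nat_lit 251) .nil)))))) (.g (nat_lit 4) .nil .nil))) 
(.lf (nat_lit 38080) (.g (nat_lit 338) (.e (nat_lit 1221) (nat_lit 90) (.e (nat_lit 81959) (nat_lit 24) (.e (nat_lit 123182) (nat_lit 264) .nil))) .nil))) (.nd (nat_lit 6) 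
(.lf (nat_lit 38048) (.g (nat_lit 3970) (.e (nat_lit 1221) (nat_lit 90) (.e (nat_lit 81958) (nat_lit 24) (.e (nat_lit 123182) (nat_lit 264) (.e (nat_lit 1201) (nat_lit 88) (.e (nat_lit 65610) (nat_lit 10) (.e (nat_lit 344097) (nat_lit 18) (.e (nat_lit 5906) (nat_lit 320) .nil))))))) (.g (nat_lit 6) .nil .nil))) 
(.lf (nat_lit 38112) (.g (nat_lit 1181) (.e (nat_lit 1221) (nat_lit 90) (.e (nat_lit 81959) (nat_lit 24) (.e (nat_lit 123182) (nat_lit 264) (.e (nat_lit 1223) (nat_lit 90) .nil)))) .nil)))) (.nd (nat_lit 5) (.nd (nat_lit 6) 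
(.lf (nat_lit 38032) (.g (nat_lit 2254) (.e (nat_lit 1221) (nat_lit 90) (.e (nat_lit 81957) (nat_lit 24) (.e (nat_lit 123182) (nat_lit 264) (.e (nat_lit 1187) (nat_lit 88) (.e (nat_lit 65619) (nat_lit 10) .nil))))) .nil)) 
(.lf (nat_lit 38096) (.g (nat_lit 2414) (.e (nat_lit 1221) (nat_lit 90) (.e (nat_lit 81959) (nat_lit 24) (.e (nat_lit 123182) (nat_lit 264) (.e (nat_lit 1201) (nat_lit 88) (.e (nat_lit 65604) (nat_lit 9) (.e (nat_lit 335997) (nat_lit 1) (.e (nat_lit 57872) (nat_lit 264) .nil))))))) (.g (nat_lit 4) .nil .nil)))) (.nd (nat_lit 6) 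
(.lf (nat_lit 38064) (.g (nat_lit 1177) (.e (nat_lit 1221) (nat_lit 90) (.e (nat_lit 81959) (nat_lit 24) (.e (nat_lit 123050) (nat_lit 152) (.e (nat_lit 1078) (nat_lit 81) .nil)))) .nil)) 
(.lf (nat_lit 38128) (.g (nat_lit 3149) (.e (nat_lit 1221) (nat_lit 90) (.e (nat_lit 81959) (nat_lit 24) (.e (nat_lit 123182) (nat_lit 264) (.e (nat_lit 1224) (nat_lit 90) (.e (nat_lit 81949) (nat_lit 21) (.e (nat_lit 57873) (nat_lit 264) .nil)))))) (.g (nat_lit 5) .nil .nil)))))) (.nd (nat_lit 4) (.nd (nat_lit 5) (.nd (nat_lit 6) 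
(.lf (nat_lit 38024) (.g (nat_lit 4493) (.e (nat_lit 1221) (nat_lit 90) (.e (nat_lit 81956) (nat_lit 23) (.e (nat_lit 98389) (nat_lit 33) (.e (nat_lit 491563) (nat_lit 12) (.e (nat_lit 385050) (nat_lit 21) (.e (nat_lit 4213) (nat_lit 251) .nil)))))) (.g (nat_lit 4) .nil .nil))) 
(.lf (nat_lit 38088) (.g (nat_lit 1898) (.e (nat_lit 1221) (nat_lit 90) (.e (nat_lit 81959) (nat_lit 24) (.e (nat_lit 123182) (nat_lit 264) (.e (nat_lit 1024) (nat_lit 81) .nil)))) .nil))) (.nd (nat_lit 6) 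
(.lf (nat_lit 38056) (.g (nat_lit 2130) (.e (nat_lit 1221) (nat_lit 90) (.e (nat_lit 81959) (nat_lit 24) (.e (nat_lit 123025) (nat_lit 127) (.e (nat_lit 229413) (nat_lit 15) (.e (nat_lit 458496) (nat_lit 0) (.e (nat_lit 6792) (nat_lit 365) .nil)))))) (.g (nat_lit 4) .nil .nil))) 
(.lf (nat_lit 38120) (.g (nat_lit 2955) (.e (nat_lit 1221) (nat_lit 90) (.e (nat_lit 81959) (nat_lit 24) (.e (nat_lit 123182) (nat_lit 264) (.e (nat_lit 1224) (nat_lit 90) (.e (nat_lit 81946) (nat_lit 20) (.e (nat_lit 991) (nat_lit 81) (.e (nat_lit 5857) (nat_lit 320) .nil))))))) (.g (nat_lit 5) .nil .nil))))) (.nd (nat_lit 5) (.nd (nat_lit 6) 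
(.lf (nat_lit 38040) (.g (nat_lit 642) (.e (nat_lit 1221) (nat_lit 90) (.e (nat_lit 81957) (nat_lit 24) (.e (nat_lit 123185) (nat_lit 264) .nil))) .nil)) 
(.lf (nat_lit 38104) (.g (nat_lit 1430) (.e (nat_lit 1221) (nat_lit 90) (.e (nat_lit 81959) (nat_lit 24) (.e (nat_lit 123182) (nat_lit 264) (.e (nat_lit 1212) (nat_lit 89) .nil)))) .nil))) (.nd (nat_lit 6) 
(.lf (nat_lit 38072) (.g (nat_lit 1840) (.e (nat_lit 1221) (nat_lit 90) (.e (nat_lit 81959) (nat_lit 24) (.e (nat_lit 123156) (nat_lit 252) (.e (nat_lit 57388) (nat_lit 5) (.e (nat_lit 122624) (nat_lit 12) (.e (nat_lit 434207) (nat_lit 18) (.e (nat_lit 4598) (nat_lit 269) .nil))))))) (.g (nat_lit 4) .nil .nil))) 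
(.lf (nat_lit 38136) (.g (nat_lit 1894) (.e (nat_lit 1221) (nat_lit 90) (.e (nat_lit 81959) (nat_lit 24) (.e (nat_lit 123182) (nat_lit 264) (.e (nat_lit 1298) (nat_lit 96) .nil)))) .nil)))))) (.nd (nat_lit 3) (.nd (nat_lit 4) (.nd (nat_lit 5) (.nd (nat_lit 6) 
(.lf (nat_lit 38020) (.g (nat_lit 4233) (.e (nat_lit 1221) (nat_lit 90) (.e (nat_lit 81956) (nat_lit 23) (.e (nat_lit 98389) (nat_lit 33) (.e (nat_lit 491563) (nat_lit 12) (.e (nat_lit 385048) (nat_lit 21) .nil))))) .nil)) 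
(.lf (nat_lit 38084) (.g (nat_lit 1259) (.e (nat_lit 1221) (nat_lit 90) (.e (nat_lit 81959) (nat_lit 24) (.e (nat_lit 123182) (nat_lit 264) (.e (nat_lit 999) (nat_lit 81) (.e (nat_lit 1625) (nat_lit 113) .nil))))) .nil))) (.nd (nat_lit 6) 
(.lf (nat_lit 38052) (.g (nat_lit 933) (.e (nat_lit 1221) (nat_lit 90) (.e (nat_lit 81959) (nat_lit 24) (.e (nat_lit 123020) (nat_lit 122) .nil))) .nil)) 
(.lf (nat_lit 38116) (.g (nat_lit 2407) (.e (nat_lit 1221) (nat_lit 90) (.e (nat_lit 81959) (nat_lit 24) (.e (nat_lit 123182) (nat_lit 264) (.e (nat_lit 1224) (nat_lit 90) (.e (nat_lit 81946) (nat_lit 20) (.e (nat_lit 982) (nat_lit 81) (.e (nat_lit 5865) (nat_lit 320) .nil))))))) (.g (nat_lit 4) .nil .nil))))) (.nd (nat_lit 5) (.nd (nat_lit 6) 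
(.lf (nat_lit 38036) (.g (nat_lit 3275) (.e (nat_lit 1221) (nat_lit 90) (.e (nat_lit 81957) (nat_lit 24) (.e (nat_lit 123182) (nat_lit 264) (.e (nat_lit 1222) (nat_lit 90) (.e (nat_lit 81948) (nat_lit 21) (.e (nat_lit 57870) (nat_lit 264) .nil)))))) (.g (nat_lit 5) .nil .nil))) 
(.lf (nat_lit 38100) (.g (nat_lit 3104) (.e (nat_lit 1221) (nat_lit 90) (.e (nat_lit 81959) (nat_lit 24) (.e (nat_lit 123182) (nat_lit 264) (.e (nat_lit 1201) (nat_lit 88) (.e (nat_lit 65617) (nat_lit 10) (.e (nat_lit 344087) (nat_lit 18) (.e (nat_lit 5902) (nat_lit 320) .nil))))))) (.g (nat_lit 5) .nil .nil)))) (.nd (nat_lit 6) 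
(.lf (nat_lit 38068) (.g (nat_lit 917) (.e (nat_lit 1221) (nat_lit 90) (.e (nat_lit 81959) (nat_lit 24) (.e (nat_lit 123148) (nat_lit 250) (.e (nat_lit 7936) (nat_lit 166) .nil)))) .nil)) 
(.lf (nat_lit 38132) (.g (nat_lit 1897) (.e (nat_lit 1221) (nat_lit 90) (.e (nat_lit 81959) (nat_lit 24) (.e (nat_lit 123182) (nat_lit 264) (.e (nat_lit 1294) (nat_lit 96) .nil)))) .nil))))) (.nd (nat_lit 4) (.nd (nat_lit 5) (.nd (nat_lit 6) 
(.lf (nat_lit 38028) (.g (nat_lit 4393) (.e (nat_lit 1221) (nat_lit 90) (.e (nat_lit 81956) (nat_lit 23) (.e (nat_lit 98389) (nat_lit 33) (.e (nat_lit 491563) (nat_lit 12) (.e (nat_lit 385051) (nat_lit 21) .nil))))) .nil)) 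
(.lf (nat_lit 38092) (.g (nat_lit 1849) (.e (nat_lit 1221) (nat_lit 90) (.e (nat_lit 81959) (nat_lit 24) (.e (nat_lit 123182) (nat_lit 264) (.e (nat_lit 1068) (nat_lit 81) .nil)))) .nil))) (.nd (nat_lit 6) 
(.lf (nat_lit 38060) (.g (nat_lit 2035) (.e (nat_lit 1221) (nat_lit 90) (.e (nat_lit 81959) (nat_lit 24) (.e (nat_lit 123025) (nat_lit 127) (.e (nat_lit 229415) (nat_lit 15) (.e (nat_lit 458496) (nat_lit 0) (.e (nat_lit 6792) (nat_lit 365) .nil)))))) (.g (nat_lit 4) .nil .nil))) 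
(.lf (nat_lit 38124) (.g (nat_lit 2606) (.e (nat_lit 1221) (nat_lit 90) (.e (nat_lit 81959) (nat_lit 24) (.e (nat_lit 123182) (nat_lit 264) (.e (nat_lit 1224) (nat_lit 90) (.e (nat_lit 81948) (nat_lit 21) (.e (nat_lit 57870) (nat_lit 264) .nil)))))) (.g (nat_lit 6) .nil .nil))))) (.nd (nat_lit 5) (.nd (nat_lit 6) 
(.lf (nat_lit 38044) (.g (nat_lit 2043) (.e (nat_lit 1221) (nat_lit 90) (.e (nat_lit 81957) (nat_lit 24) (.e (nat_lit 123197) (nat_lit 266) (.e (nat_lit 57426) (nat_lit 15) (.e (nat_lit 368384) (nat_lit 0) .nil))))) .nil)) 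
(.lf (nat_lit 38108) (.g (nat_lit 3018) (.e (nat_lit 1221) (nat_lit 90) (.e (nat_lit 81959) (nat_lit 24) (.e (nat_lit 123182) (nat_lit 264) (.e (nat_lit 1214) (nat_lit 89) (.e (nat_lit 81664) (nat_lit 45) (.e (nat_lit 2544) (nat_lit 158) (.e (nat_lit 8439) (nat_lit 138) .nil))))))) (.g (nat_lit 4) .nil .nil)))) (.nd (nat_lit 6) 
(.lf (nat_lit 38076) (.g (nat_lit 1303) (.e (nat_lit 1221) (nat_lit 90) (.e (nat_lit 81959) (nat_lit 24) (.e (nat_lit 123160) (nat_lit 254) (.e (nat_lit 163922) (nat_lit 15) (.e (nat_lit 458496) (nat_lit 0) .nil))))) .nil)) 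
(.lf (nat_lit 38140) (.g (nat_lit 2224) (.e (nat_lit 1221) (nat_lit 90) (.e (nat_lit 81959) (nat_lit 24) (.e (nat_lit 123183) (nat_lit 264) (.e (nat_lit 1222) (nat_lit 90) (.e (nat_lit 81950) (nat_lit 21) .nil))))) .nil))))))) (.nd (nat_lit 2) (.nd (nat_lit 3) (.nd (nat_lit 4) (.nd (nat_lit 5) (.nd (nat_lit 6) 
(.lf (nat_lit 38018) (.g (nat_lit 4193) (.e (nat_lit 1221) (nat_lit 90) (.e (nat_lit 81956) (nat_lit 23) (.e (nat_lit 98389) (nat_lit 33) (.e (nat_lit 491563) (nat_lit 12) (.e (nat_lit 385047) (nat_lit 21) (.e (nat_lit 4168) (nat_lit 251) .nil)))))) (.g (nat_lit 4) .nil .nil))) 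
(.lf (nat_lit 38082) (.g (nat_lit 1759) (.e (nat_lit 1221) (nat_lit 90) (.e (nat_lit 81959) (nat_lit 24) (.e (nat_lit 123182) (nat_lit 264) (.e (nat_lit 996) (nat_lit 81) .nil)))) .nil))) (.nd (nat_lit 6) 
(.lf (nat_lit 38050) (.g (nat_lit 1462) (.e (nat_lit 1221) (nat_lit 90) (.e (nat_lit 81958) (nat_lit 24) (.e (nat_lit 123183) (nat_lit 264) (.e (nat_lit 1222) (nat_lit 90) (.e (nat_lit 81948) (nat_lit 21) (.e (nat_lit 57871) (nat_lit 264) .nil)))))) (.g (nat_lit 4) .nil .nil))) 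
(.lf (nat_lit 38114) (.g (nat_lit 3196) (.e (nat_lit 1221) (nat_lit 90) (.e (nat_lit 81959) (nat_lit 24) (.e (nat_lit 123182) (nat_lit 264) (.e (nat_lit 1223) (nat_lit 90) (.e (nat_lit 81950) (nat_lit 21) (.e (nat_lit 57871) (nat_lit 264) .nil)))))) (.g (nat_lit 5) .nil .nil))))) (.nd (nat_lit 5) (.nd (nat_lit 6) 
(.lf (nat_lit 38034) (.g (nat_lit 3272) (.e (nat_lit 1221) (nat_lit 90) (.e (nat_lit 81957) (nat_lit 24) (.e (nat_lit 123182) (nat_lit 264) (.e (nat_lit 1201) (nat_lit 88) (.e (nat_lit 65617) (nat_lit 10) (.e (nat_lit 344097) (nat_lit 18) (.e (nat_lit 5907) (nat_lit 320) .nil))))))) (.g (nat_lit 4) .nil .nil))) 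
(.lf (nat_lit 38098) (.g (nat_lit 1053) (.e (nat_lit 1221) (nat_lit 90) (.e (nat_lit 81959) (nat_lit 24) (.e (nat_lit 123182) (nat_lit 264) (.e (nat_lit 1201) (nat_lit 88) (.e (nat_lit 65617) (nat_lit 10) .nil))))) .nil))) (.nd (nat_lit 6) 
(.lf (nat_lit 38066) (.g (nat_lit 1570) (.e (nat_lit 1221) (nat_lit 90) (.e (nat_lit 81959) (nat_lit 24) (.e (nat_lit 130816) (nat_lit 169) (.e (nat_lit 229415) (nat_lit 15) (.e (nat_lit 450563) (nat_lit 0) (.e (nat_lit 4112) (nat_lit 245) .nil)))))) (.g (nat_lit 5) .nil .nil))) 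
(.lf (nat_lit 38130) (.g (nat_lit 2194) (.e (nat_lit 1221) (nat_lit 90) (.e (nat_lit 81959) (nat_lit 24) (.e (nat_lit 123182) (nat_lit 264) (.e (nat_lit 1224) (nat_lit 90) (.e (nat_lit 81950) (nat_lit 21) (.e (nat_lit 57871) (nat_lit 264) .nil)))))) (.g (nat_lit 4) .nil .nil)))))) (.nd (nat_lit 4) (.nd (nat_lit 5) (.nd (nat_lit 6) 
(.lf (nat_lit 38026) (.g (nat_lit 4412) (.e (nat_lit 1221) (nat_lit 90) (.e (nat_lit 81956) (nat_lit 23) (.e (nat_lit 98389) (nat_lit 33) (.e (nat_lit 491563) (nat_lit 12) (.e (nat_lit 385050) (nat_lit 21) (.e (nat_lit 4216) (nat_lit 251) .nil)))))) (.g (nat_lit 4) .nil .nil))) 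
(.lf (nat_lit 38090) (.g (nat_lit 1898) (.e (nat_lit 1221) (nat_lit 90) (.e (nat_lit 81959) (nat_lit 24) (.e (nat_lit 123182) (nat_lit 264) (.e (nat_lit 1030) (nat_lit 81) .nil)))) .nil))) (.nd (nat_lit 6) 
(.lf (nat_lit 38058) (.g (nat_lit 3628) (.e (nat_lit 1221) (nat_lit 90) (.e (nat_lit 81959) (nat_lit 24) (.e (nat_lit 123025) (nat_lit 127) (.e (nat_lit 229415) (nat_lit 15) (.e (nat_lit 450563) (nat_lit 0) (.e (nat_lit 6806) (nat_lit 365) .nil)))))) (.g (nat_lit 0) .nil .nil))) 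
(.lf (nat_lit 38122) (.g (nat_lit 2968) (.e (nat_lit 1221) (nat_lit 90) (.e (nat_lit 81959) (nat_lit 24) (.e (nat_lit 123182) (nat_lit 264) (.e (nat_lit 1224) (nat_lit 90) (.e (nat_lit 81947) (nat_lit 20) (.e (nat_lit 991) (nat_lit 81) (.e (nat_lit 5857) (nat_lit 320) .nil))))))) (.g (nat_lit 5) .nil .nil))))) (.nd (nat_lit 5) (.nd (nat_lit 6) 
(.lf (nat_lit 38042) (.g (nat_lit 2636) (.e (nat_lit 1221) (nat_lit 90) (.e (nat_lit 81957) (nat_lit 24) (.e (nat_lit 123195) (nat_lit 266) (.e (nat_lit 57426) (nat_lit 15) (.e (nat_lit 360452) (nat_lit 0) (.e (nat_lit 5907) (nat_lit 320) .nil)))))) (.g (nat_lit 4) .nil .nil))) 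
(.lf (nat_lit 38106) (.g (nat_lit 2804) (.e (nat_lit 1221) (nat_lit 90) (.e (nat_lit 81959) (nat_lit 24) (.e (nat_lit 123182) (nat_lit 264) (.e (nat_lit 1214) (nat_lit 89) (.e (nat_lit 73781) (nat_lit 32) (.e (nat_lit 2607) (nat_lit 163) (.e (nat_lit 164422) (nat_lit 272) .nil))))))) (.g (nat_lit 4) .nil .nil)))) (.nd (nat_lit 6) 
(.lf (nat_lit 38074) (.g (nat_lit 2670) (.e (nat_lit 1221) (nat_lit 90) (.e (nat_lit 81959) (nat_lit 24) (.e (nat_lit 123157) (nat_lit 252) (.e (nat_lit 57388) (nat_lit 5) (.e (nat_lit 122624) (nat_lit 12) (.e (nat_lit 434202) (nat_lit 18) (.e (nat_lit 4598) (nat_lit 269) .nil))))))) (.g (nat_lit 4) .nil .nil))) 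
(.lf (nat_lit 38138) (.g (nat_lit 4378) (.e (nat_lit 1221) (nat_lit 90) (.e (nat_lit 81959) (nat_lit 24) (.e (nat_lit 123183) (nat_lit 264) (.e (nat_lit 1201) (nat_lit 88) (.e (nat_lit 65610) (nat_lit 10) (.e (nat_lit 344097) (nat_lit 18) (.e (nat_lit 5905) (nat_lit 320) .nil))))))) (.g (nat_lit 5) .nil .nil))))))) (.nd (nat_lit 3) (.nd (nat_lit 4) (.nd (nat_lit 5) (.nd (nat_lit 6) 
(.lf (nat_lit 38022) (.g (nat_lit 4240) (.e (nat_lit 1221) (nat_lit 90) (.e (nat_lit 81956) (nat_lit 23) (.e (nat_lit 98389) (nat_lit 33) (.e (nat_lit 491563) (nat_lit 12) (.e (nat_lit 385048) (nat_lit 21) (.e (nat_lit 4214) (nat_lit 251) .nil)))))) (.g (nat_lit 4) .nil .nil))) 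
(.lf (nat_lit 38086) (.g (nat_lit 1580) (.e (nat_lit 1221) (nat_lit 90) (.e (nat_lit 81959) (nat_lit 24) (.e (nat_lit 123182) (nat_lit 264) (.e (nat_lit 1016) (nat_lit 81) .nil)))) .nil))) (.nd (nat_lit 6) 
(.lf (nat_lit 38054) (.g (nat_lit 616) (.e (nat_lit 1221) (nat_lit 90) (.e (nat_lit 81959) (nat_lit 24) (.e (nat_lit 123025) (nat_lit 127) .nil))) .nil)) 
(.lf (nat_lit 38118) (.g (nat_lit 2626) (.e (nat_lit 1221) (nat_lit 90) (.e (nat_lit 81959) (nat_lit 24) (.e (nat_lit 123182) (nat_lit 264) (.e (nat_lit 1224) (nat_lit 90) (.e (nat_lit 81946) (nat_lit 20) (.e (nat_lit 982) (nat_lit 81) (.e (nat_lit 5908) (nat_lit 320) .nil))))))) (.g (nat_lit 4) .nil .nil))))) (.nd (nat_lit 5) (.nd (nat_lit 6) 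
(.lf (nat_lit 38038) (.g (nat_lit 2475) (.e (nat_lit 1221) (nat_lit 90) (.e (nat_lit 81957) (nat_lit 24) (.e (nat_lit 123183) (nat_lit 264) (.e (nat_lit 1222) (nat_lit 90) (.e (nat_lit 81948) (nat_lit 21) (.e (nat_lit 57870) (nat_lit 264) .nil)))))) (.g (nat_lit 5) .nil .nil))) 
(.lf (nat_lit 38102) (.g (nat_lit 3795) (.e (nat_lit 1221) (nat_lit 90) (.e (nat_lit 81959) (nat_lit 24) (.e (nat_lit 123182) (nat_lit 264) (.e (nat_lit 1201) (nat_lit 88) (.e (nat_lit 65619) (nat_lit 10) (.e (nat_lit 344097) (nat_lit 18) (.e (nat_lit 5906) (nat_lit 320) .nil))))))) (.g (nat_lit 6) .nil .nil)))) (.nd (nat_lit 6) 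
(.lf (nat_lit 38070) (.g (nat_lit 2066) (.e (nat_lit 1221) (nat_lit 90) (.e (nat_lit 81959) (nat_lit 24) (.e (nat_lit 123153) (nat_lit 250) (.e (nat_lit 2650) (nat_lit 166) (.e (nat_lit 188455) (nat_lit 24) (.e (nat_lit 237312) (nat_lit 226) .nil)))))) (.g (nat_lit 5) .nil .nil))) 
(.lf (nat_lit 38134) (.g (nat_lit 2283) (.e (nat_lit 1221) (nat_lit 90) (.e (nat_lit 81959) (nat_lit 24) (.e (nat_lit 123182) (nat_lit 264) (.e (nat_lit 1296) (nat_lit 96) (.e (nat_lit 131109) (nat_lit 9) .nil))))) .nil))))) (.nd (nat_lit 4) (.nd (nat_lit 5) (.nd (nat_lit 6) 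
(.lf (nat_lit 38030) (.g (nat_lit 4942) (.e (nat_lit 1221) (nat_lit 90) (.e (nat_lit 81956) (nat_lit 23) (.e (nat_lit 98389) (nat_lit 33) (.e (nat_lit 491563) (nat_lit 12) (.e (nat_lit 385053) (nat_lit 21) (.e (nat_lit 4211) (nat_lit 251) .nil)))))) (.g (nat_lit 4) .nil .nil))) 
(.lf (nat_lit 38094) (.g (nat_lit 744) (.e (nat_lit 1221) (nat_lit 90) (.e (nat_lit 81959) (nat_lit 24) (.e (nat_lit 123182) (nat_lit 264) (.e (nat_lit 1193) (nat_lit 88) .nil)))) .nil))) (.nd (nat_lit 6) 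
(.lf (nat_lit 38062) (.g (nat_lit 404) (.e (nat_lit 1221) (nat_lit 90) (.e (nat_lit 81959) (nat_lit 24) (.e (nat_lit 123048) (nat_lit 152) .nil))) .nil)) 
(.lf (nat_lit 38126) (.g (nat_lit 2471) (.e (nat_lit 1221) (nat_lit 90) (.e (nat_lit 81959) (nat_lit 24) (.e (nat_lit 123182) (nat_lit 264) (.e (nat_lit 1224) (nat_lit 90) (.e (nat_lit 81948) (nat_lit 21) (.e (nat_lit 57873) (nat_lit 264) .nil)))))) (.g (nat_lit 4) .nil .nil))))) (.nd (nat_lit 5) (.nd (nat_lit 6) 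
(.lf (nat_lit 38046) (.g (nat_lit 640) (.e (nat_lit 1221) (nat_lit 90) (.e (nat_lit 81957) (nat_lit 24) (.e (nat_lit 123198) (nat_lit 266) .nil))) .nil)) 
(.lf (nat_lit 38110) (.g (nat_lit 2744) (.e (nat_lit 1221) (nat_lit 90) (.e (nat_lit 81959) (nat_lit 24) (.e (nat_lit 123182) (nat_lit 264) (.e (nat_lit 1222) (nat_lit 90) (.e (nat_lit 81950) (nat_lit 21) (.e (nat_lit 57870) (nat_lit 264) .nil)))))) (.g (nat_lit 4) .nil .nil)))) (.nd (nat_lit 6) 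
(.lf (nat_lit 38078) (.g (nat_lit 1407) (.e (nat_lit 1221) (nat_lit 90) (.e (nat_lit 81959) (nat_lit 24) (.e (nat_lit 130816) (nat_lit 255) (.e (nat_lit 229415) (nat_lit 15) (.e (nat_lit 450569) (nat_lit 0) (.e (nat_lit 5152) (nat_lit 292) .nil)))))) (.g (nat_lit 4) .nil .nil))) 
(.lf (nat_lit 38142) (.g (nat_lit 3954) (.e (nat_lit 1221) (nat_lit 90) (.e (nat_lit 81959) (nat_lit 24) (.e (nat_lit 123184) (nat_lit 264) (.e (nat_lit 1222) (nat_lit 90) (.e (nat_lit 81948) (nat_lit 21) (.e (nat_lit 57871) (nat_lit 264) .nil)))))) (.g (nat_lit 6) .nil .nil))))))))) (.nd (nat_lit 1) (.nd (nat_lit 2) (.nd (nat_lit 3) (.nd (nat_lit 4) (.nd (nat_lit 5) (.nd (nat_lit 6) 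
(.lf (nat_lit 38017) (.g (nat_lit 4101) (.e (nat_lit 1221) (nat_lit 90) (.e (nat_lit 81956) (nat_lit 23) (.e (nat_lit 98389) (nat_lit 33) (.e (nat_lit 491563) (nat_lit 12) (.e (nat_lit 385046) (nat_lit 21) (.e (nat_lit 4212) (nat_lit 251) .nil)))))) (.g (nat_lit 4) .nil .nil))) 
(.lf (nat_lit 38081) (.g (nat_lit 1567) (.e (nat_lit 1221) (nat_lit 90) (.e (nat_lit 81959) (nat_lit 24) (.e (nat_lit 123182) (nat_lit 264) (.e (nat_lit 982) (nat_lit 81) .nil)))) .nil))) (.nd (nat_lit 6) 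
(.lf (nat_lit 38049) (.g (nat_lit 2190) (.e (nat_lit 1221) (nat_lit 90) (.e (nat_lit 81958) (nat_lit 24) (.e (nat_lit 123182) (nat_lit 264) (.e (nat_lit 1222) (nat_lit 90) (.e (nat_lit 81948) (nat_lit 21) (.e (nat_lit 57870) (nat_lit 264) .nil)))))) (.g (nat_lit 5) .nil .nil))) 
(.lf (nat_lit 38113) (.g (nat_lit 3326) (.e (nat_lit 1221) (nat_lit 90) (.e (nat_lit 81959) (nat_lit 24) (.e (nat_lit 123182) (nat_lit 264) (.e (nat_lit 1223) (nat_lit 90) (.e (nat_lit 81950) (nat_lit 21) (.e (nat_lit 57870) (nat_lit 264) .nil)))))) (.g (nat_lit 0) .nil .nil))))) (.nd (nat_lit 5) (.nd (nat_lit 6) 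
(.lf (nat_lit 38033) (.g (nat_lit 3181) (.e (nat_lit 1221) (nat_lit 90) (.e (nat_lit 81957) (nat_lit 24) (.e (nat_lit 123182) (nat_lit 264) (.e (nat_lit 1201) (nat_lit 88) (.e (nat_lit 65617) (nat_lit 10) .nil))))) .nil)) 
(.lf (nat_lit 38097) (.g (nat_lit 2137) (.e (nat_lit 1221) (nat_lit 90) (.e (nat_lit 81959) (nat_lit 24) (.e (nat_lit 123182) (nat_lit 264) (.e (nat_lit 1201) (nat_lit 88) (.e (nat_lit 65610) (nat_lit 10) .nil))))) .nil))) (.nd (nat_lit 6) 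
(.lf (nat_lit 38065) (.g (nat_lit 1344) (.e (nat_lit 1221) (nat_lit 90) (.e (nat_lit 81959) (nat_lit 24) (.e (nat_lit 130816) (nat_lit 152) (.e (nat_lit 1221) (nat_lit 90) (.e (nat_lit 81959) (nat_lit 24) (.e (nat_lit 130816) (nat_lit 152) .nil)))))) (.g (nat_lit 5) .nil .nil))) 
(.lf (nat_lit 38129) (.g (nat_lit 2557) (.e (nat_lit 1221) (nat_lit 90) (.e (nat_lit 81959) (nat_lit 24) (.e (nat_lit 123182) (nat_lit 264) (.e (nat_lit 1224) (nat_lit 90) (.e (nat_lit 81950) (nat_lit 21) (.e (nat_lit 57870) (nat_lit 264) .nil)))))) (.g (nat_lit 5) .nil .nil)))))) (.nd (nat_lit 4) (.nd (nat_lit 5) (.nd (nat_lit 6) 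
(.lf (nat_lit 38025) (.g (nat_lit 4401) (.e (nat_lit 1221) (nat_lit 90) (.e (nat_lit 81956) (nat_lit 23) (.e (nat_lit 98389) (nat_lit 33) (.e (nat_lit 491563) (nat_lit 12) (.e (nat_lit 385050) (nat_lit 21) (.e (nat_lit 4214) (nat_lit 251) .nil)))))) (.g (nat_lit 4) .nil .nil))) 
(.lf (nat_lit 38089) (.g (nat_lit 1511) (.e (nat_lit 1221) (nat_lit 90) (.e (nat_lit 81959) (nat_lit 24) (.e (nat_lit 123182) (nat_lit 264) (.e (nat_lit 1028) (nat_lit 81) .nil)))) .nil))) (.nd (nat_lit 6) 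
(.lf (nat_lit 38057) (.g (nat_lit 2126) (.e (nat_lit 1221) (nat_lit 90) (.e (nat_lit 81959) (nat_lit 24) (.e (nat_lit 123025) (nat_lit 127) (.e (nat_lit 229415) (nat_lit 15) (.e (nat_lit 450560) (nat_lit 0) .nil))))) .nil)) 
(.lf (nat_lit 38121) (.g (nat_lit 3041) (.e (nat_lit 1221) (nat_lit 90) (.e (nat_lit 81959) (nat_lit 24) (.e (nat_lit 123182) (nat_lit 264) (.e (nat_lit 1224) (nat_lit 90) (.e (nat_lit 81946) (nat_lit 20) (.e (nat_lit 991) (nat_lit 81) (.e (nat_lit 5900) (nat_lit 320) .nil))))))) (.g (nat_lit 5) .nil .nil))))) (.nd (nat_lit 5) (.nd (nat_lit 6) 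
(.lf (nat_lit 38041) (.g (nat_lit 1971) (.e (nat_lit 1221) (nat_lit 90) (.e (nat_lit 81957) (nat_lit 24) (.e (nat_lit 123185) (nat_lit 264) (.e (nat_lit 1222) (nat_lit 90) (.e (nat_lit 81948) (nat_lit 21) (.e (nat_lit 57870) (nat_lit 264) .nil)))))) (.g (nat_lit 4) .nil .nil))) 
(.lf (nat_lit 38105) (.g (nat_lit 2060) (.e (nat_lit 1221) (nat_lit 90) (.e (nat_lit 81959) (nat_lit 24) (.e (nat_lit 123182) (nat_lit 264) (.e (nat_lit 1212) (nat_lit 89) (.e (nat_lit 81664) (nat_lit 40) .nil))))) .nil))) (.nd (nat_lit 6) 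
(.lf (nat_lit 38073) (.g (nat_lit 1788) (.e (nat_lit 1221) (nat_lit 90) (.e (nat_lit 81959) (nat_lit 24) (.e (nat_lit 123156) (nat_lit 252) (.e (nat_lit 57388) (nat_lit 5) (.e (nat_lit 122624) (nat_lit 12) (.e (nat_lit 434208) (nat_lit 18) (.e (nat_lit 4598) (nat_lit 269) .nil))))))) (.g (nat_lit 4) .nil .nil))) 
(.lf (nat_lit 38137) (.g (nat_lit 1174) (.e (nat_lit 1221) (nat_lit 90) (.e (nat_lit 81959) (nat_lit 24) (.e (nat_lit 123183) (nat_lit 264) (.e (nat_lit 1201) (nat_lit 88) .nil)))) .nil)))))) (.nd (nat_lit 3) (.nd (nat_lit 4) (.nd (nat_lit 5) (.nd (nat_lit 6) 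
(.lf (nat_lit 38021) (.g (nat_lit 4246) (.e (nat_lit 1221) (nat_lit 90) (.e (nat_lit 81956) (nat_lit 23) (.e (nat_lit 98389) (nat_lit 33) (.e (nat_lit 491563) (nat_lit 12) (.e (nat_lit 385048) (nat_lit 21) (.e (nat_lit 4213) (nat_lit 251) .nil)))))) (.g (nat_lit 4) .nil .nil))) 
(.lf (nat_lit 38085) (.g (nat_lit 1296) (.e (nat_lit 1221) (nat_lit 90) (.e (nat_lit 81959) (nat_lit 24) (.e (nat_lit 123182) (nat_lit 264) (.e (nat_lit 1000) (nat_lit 81) .nil)))) .nil))) (.nd (nat_lit 6) 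
(.lf (nat_lit 38053) (.g (nat_lit 2047) (.e (nat_lit 1221) (nat_lit 90) (.e (nat_lit 81959) (nat_lit 24) (.e (nat_lit 130816) (nat_lit 126) (.e (nat_lit 163933) (nat_lit 17) (.e (nat_lit 466972) (nat_lit 21) (.e (nat_lit 164195) (nat_lit 158) .nil)))))) (.g (nat_lit 5) .nil .nil))) 
(.lf (nat_lit 38117) (.g (nat_lit 2805) (.e (nat_lit 1221) (nat_lit 90) (.e (nat_lit 81959) (nat_lit 24) (.e (nat_lit 123182) (nat_lit 264) (.e (nat_lit 1224) (nat_lit 90) (.e (nat_lit 81946) (nat_lit 20) (.e (nat_lit 982) (nat_lit 81) (.e (nat_lit 5903) (nat_lit 320) .nil))))))) (.g (nat_lit 4) .nil .nil))))) (.nd (nat_lit 5) (.nd (nat_lit 6) 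
(.lf (nat_lit 38037) (.g (nat_lit 2917) (.e (nat_lit 1221) (nat_lit 90) (.e (nat_lit 81957) (nat_lit 24) (.e (nat_lit 123182) (nat_lit 264) (.e (nat_lit 1222) (nat_lit 90) (.e (nat_lit 81950) (nat_lit 21) .nil))))) .nil)) 
(.lf (nat_lit 38101) (.g (nat_lit 2337) (.e (nat_lit 1221) (nat_lit 90) (.e (nat_lit 81959) (nat_lit 24) (.e (nat_lit 123182) (nat_lit 264) (.e (nat_lit 1201) (nat_lit 88) (.e (nat_lit 65617) (nat_lit 10) (.e (nat_lit 344087) (nat_lit 18) (.e (nat_lit 5909) (nat_lit 320) .nil))))))) (.g (nat_lit 5) .nil .nil)))) (.nd (nat_lit 6) 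
(.lf (nat_lit 38069) (.g (nat_lit 3376) (.e (nat_lit 1221) (nat_lit 90) (.e (nat_lit 81959) (nat_lit 24) (.e (nat_lit 123153) (nat_lit 250) (.e (nat_lit 2650) (nat_lit 166) (.e (nat_lit 188455) (nat_lit 24) (.e (nat_lit 229632) (nat_lit 226) .nil)))))) (.g (nat_lit 0) .nil .nil))) 
(.lf (nat_lit 38133) (.g (nat_lit 2577) (.e (nat_lit 1221) (nat_lit 90) (.e (nat_lit 81959) (nat_lit 24) (.e (nat_lit 123182) (nat_lit 264) (.e (nat_lit 1296) (nat_lit 96) (.e (nat_lit 131104) (nat_lit 9) .nil))))) .nil))))) (.nd (nat_lit 4) (.nd (nat_lit 5) (.nd (nat_lit 6) 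
(.lf (nat_lit 38029) (.g (nat_lit 4493) (.e (nat_lit 1221) (nat_lit 90) (.e (nat_lit 81956) (nat_lit 23) (.e (nat_lit 98389) (nat_lit 33) (.e (nat_lit 491563) (nat_lit 12) (.e (nat_lit 385052) (nat_lit 21) .nil))))) .nil)) 
(.lf (nat_lit 38093) (.g (nat_lit 1272) (.e (nat_lit 1221) (nat_lit 90) (.e (nat_lit 81959) (nat_lit 24) (.e (nat_lit 123182) (nat_lit 264) (.e (nat_lit 1191) (nat_lit 88) .nil)))) .nil))) (.nd (nat_lit 6) 
(.lf (nat_lit 38061) (.g (nat_lit 2296) (.e (nat_lit 1221) (nat_lit 90) (.e (nat_lit 81959) (nat_lit 24) (.e (nat_lit 123025) (nat_lit 127) (.e (nat_lit 229415) (nat_lit 15) (.e (nat_lit 458496) (nat_lit 0) (.e (nat_lit 6807) (nat_lit 365) .nil)))))) (.g (nat_lit 4) .nil .nil))) 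
(.lf (nat_lit 38125) (.g (nat_lit 2423) (.e (nat_lit 1221) (nat_lit 90) (.e (nat_lit 81959) (nat_lit 24) (.e (nat_lit 123182) (nat_lit 264) (.e (nat_lit 1224) (nat_lit 90) (.e (nat_lit 81948) (nat_lit 21) (.e (nat_lit 57871) (nat_lit 264) .nil)))))) (.g (nat_lit 4) .nil .nil))))) (.nd (nat_lit 5) (.nd (nat_lit 6) 
(.lf (nat_lit 38045) (.g (nat_lit 2282) (.e (nat_lit 1221) (nat_lit 90) (.e (nat_lit 81957) (nat_lit 24) (.e (nat_lit 123197) (nat_lit 266) (.e (nat_lit 57436) (nat_lit 17) (.e (nat_lit 376859) (nat_lit 21) (.e (nat_lit 57872) (nat_lit 264) .nil)))))) (.g (nat_lit 4) .nil .nil))) 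
(.lf (nat_lit 38109) (.g (nat_lit 4007) (.e (nat_lit 1221) (nat_lit 90) (.e (nat_lit 81959) (nat_lit 24) (.e (nat_lit 123182) (nat_lit 264) (.e (nat_lit 1222) (nat_lit 90) (.e (nat_lit 81948) (nat_lit 21) (.e (nat_lit 57871) (nat_lit 264) .nil)))))) (.g (nat_lit 5) .nil .nil)))) (.nd (nat_lit 6) 
(.lf (nat_lit 38077) (.g (nat_lit 1453) (.e (nat_lit 1221) (nat_lit 90) (.e (nat_lit 81959) (nat_lit 24) (.e (nat_lit 130816) (nat_lit 255) (.e (nat_lit 229413) (nat_lit 15) (.e (nat_lit 450569) (nat_lit 0) (.e (nat_lit 5152) (nat_lit 292) .nil)))))) (.g (nat_lit 4) .nil .nil))) 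
(.lf (nat_lit 38141) (.g (nat_lit 2846) (.e (nat_lit 1221) (nat_lit 90) (.e (nat_lit 81959) (nat_lit 24) (.e (nat_lit 123183) (nat_lit 264) (.e (nat_lit 1222) (nat_lit 90) (.e (nat_lit 81950) (nat_lit 21) (.e (nat_lit 57872) (nat_lit 264) .nil)))))) (.g (nat_lit 4) .nil .nil)))))))) (.nd (nat_lit 2) (.nd (nat_lit 3) (.nd (nat_lit 4) (.nd (nat_lit 5) (.nd (nat_lit 6) 
(.lf (nat_lit 38019) (.g (nat_lit 4158) (.e (nat_lit 1221) (nat_lit 90) (.e (nat_lit 81956) (nat_lit 23) (.e (nat_lit 98389) (nat_lit 33) (.e (nat_lit 491563) (nat_lit 12) (.e (nat_lit 385047) (nat_lit 21) (.e (nat_lit 4203) (nat_lit 251) .nil)))))) (.g (nat_lit 4) .nil .nil))) 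
(.lf (nat_lit 38083) (.g (nat_lit 1831) (.e (nat_lit 1221) (nat_lit 90) (.e (nat_lit 81959) (nat_lit 24) (.e (nat_lit 123182) (nat_lit 264) (.e (nat_lit 998) (nat_lit 81) .nil)))) .nil))) (.nd (nat_lit 6) 
(.lf (nat_lit 38051) (.g (nat_lit 2399) (.e (nat_lit 1221) (nat_lit 90) (.e (nat_lit 81958) (nat_lit 24) (.e (nat_lit 123184) (nat_lit 264) (.e (nat_lit 1222) (nat_lit 90) (.e (nat_lit 81948) (nat_lit 21) (.e (nat_lit 57870) (nat_lit 264) .nil)))))) (.g (nat_lit 5) .nil .nil))) 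
(.lf (nat_lit 38115) (.g (nat_lit 1310) (.e (nat_lit 1221) (nat_lit 90) (.e (nat_lit 81959) (nat_lit 24) (.e (nat_lit 123182) (nat_lit 264) (.e (nat_lit 1224) (nat_lit 90) (.e (nat_lit 81946) (nat_lit 20) .nil))))) .nil)))) (.nd (nat_lit 5) (.nd (nat_lit 6) 
(.lf (nat_lit 38035) (.g (nat_lit 3597) (.e (nat_lit 1221) (nat_lit 90) (.e (nat_lit 81957) (nat_lit 24) (.e (nat_lit 123182) (nat_lit 264) (.e (nat_lit 1201) (nat_lit 88) (.e (nat_lit 65619) (nat_lit 10) .nil))))) .nil)) 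
(.lf (nat_lit 38099) (.g (nat_lit 2901) (.e (nat_lit 1221) (nat_lit 90) (.e (nat_lit 81959) (nat_lit 24) (.e (nat_lit 123182) (nat_lit 264) (.e (nat_lit 1201) (nat_lit 88) (.e (nat_lit 65617) (nat_lit 10) (.e (nat_lit 344087) (nat_lit 18) (.e (nat_lit 5865) (nat_lit 320) .nil))))))) (.g (nat_lit 5) .nil .nil)))) (.nd (nat_lit 6) 
(.lf (nat_lit 38067) (.g (nat_lit 660) (.e (nat_lit 1221) (nat_lit 90) (.e (nat_lit 81959) (nat_lit 24) (.e (nat_lit 123147) (nat_lit 250) .nil))) .nil)) 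
(.lf (nat_lit 38131) (.g (nat_lit 1797) (.e (nat_lit 1221) (nat_lit 90) (.e (nat_lit 81959) (nat_lit 24) (.e (nat_lit 123182) (nat_lit 264) (.e (nat_lit 1224) (nat_lit 90) (.e (nat_lit 81957) (nat_lit 24) (.e (nat_lit 123191) (nat_lit 264) .nil)))))) (.g (nat_lit 4) .nil .nil)))))) (.nd (nat_lit 4) (.nd (nat_lit 5) (.nd (nat_lit 6) 
(.lf (nat_lit 38027) (.g (nat_lit 4374) (.e (nat_lit 1221) (nat_lit 90) (.e (nat_lit 81956) (nat_lit 23) (.e (nat_lit 98389) (nat_lit 33) (.e (nat_lit 491563) (nat_lit 12) (.e (nat_lit 385050) (nat_lit 21) (.e (nat_lit 4217) (nat_lit 251) .nil)))))) (.g (nat_lit 4) .nil .nil))) 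
(.lf (nat_lit 38091) (.g (nat_lit 1898) (.e (nat_lit 1221) (nat_lit 90) (.e (nat_lit 81959) (nat_lit 24) (.e (nat_lit 123182) (nat_lit 264) (.e (nat_lit 1034) (nat_lit 81) .nil)))) .nil))) (.nd (nat_lit 6) 
(.lf (nat_lit 38059) (.g (nat_lit 2161) (.e (nat_lit 1221) (nat_lit 90) (.e (nat_lit 81959) (nat_lit 24) (.e (nat_lit 123025) (nat_lit 127) (.e (nat_lit 229415) (nat_lit 15) (.e (nat_lit 450566) (nat_lit 0) .nil))))) .nil)) 
(.lf (nat_lit 38123) (.g (nat_lit 3082) (.e (nat_lit 1221) (nat_lit 90) (.e (nat_lit 81959) (nat_lit 24) (.e (nat_lit 123182) (nat_lit 264) (.e (nat_lit 1224) (nat_lit 90) (.e (nat_lit 81947) (nat_lit 20) (.e (nat_lit 991) (nat_lit 81) (.e (nat_lit 5900) (nat_lit 320) .nil))))))) (.g (nat_lit 5) .nil .nil))))) (.nd (nat_lit 5) (.nd (nat_lit 6) 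
(.lf (nat_lit 38043) (.g (nat_lit 657) (.e (nat_lit 1221) (nat_lit 90) (.e (nat_lit 81957) (nat_lit 24) (.e (nat_lit 123197) (nat_lit 266) .nil))) .nil)) 
(.lf (nat_lit 38107) (.g (nat_lit 1716) (.e (nat_lit 1221) (nat_lit 90) (.e (nat_lit 81959) (nat_lit 24) (.e (nat_lit 123182) (nat_lit 264) (.e (nat_lit 1214) (nat_lit 89) (.e (nat_lit 81664) (nat_lit 35) .nil))))) .nil))) (.nd (nat_lit 6) 
(.lf (nat_lit 38075) (.g (nat_lit 895) (.e (nat_lit 1221) (nat_lit 90) (.e (nat_lit 81959) (nat_lit 24) (.e (nat_lit 123159) (nat_lit 254) .nil))) .nil)) 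
(.lf (nat_lit 38139) (.g (nat_lit 3688) (.e (nat_lit 1221) (nat_lit 90) (.e (nat_lit 81959) (nat_lit 24) (.e (nat_lit 123183) (nat_lit 264) (.e (nat_lit 1222) (nat_lit 90) (.e (nat_lit 81948) (nat_lit 21) (.e (nat_lit 57871) (nat_lit 264) .nil)))))) (.g (nat_lit 6) .nil .nil))))))) (.nd (nat_lit 3) (.nd (nat_lit 4) (.nd (nat_lit 5) (.nd (nat_lit 6) 
(.lf (nat_lit 38023) (.g (nat_lit 4331) (.e (nat_lit 1221) (nat_lit 90) (.e (nat_lit 81956) (nat_lit 23) (.e (nat_lit 98389) (nat_lit 33) (.e (nat_lit 491563) (nat_lit 12) (.e (nat_lit 385050) (nat_lit 21) .nil))))) .nil)) 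
(.lf (nat_lit 38087) (.g (nat_lit 1728) (.e (nat_lit 1221) (nat_lit 90) (.e (nat_lit 81959) (nat_lit 24) (.e (nat_lit 123182) (nat_lit 264) (.e (nat_lit 1016) (nat_lit 81) (.e (nat_lit 1566) (nat_lit 110) .nil))))) .nil))) (.nd (nat_lit 6) 
(.lf (nat_lit 38055) (.g (nat_lit 2308) (.e (nat_lit 1221) (nat_lit 90) (.e (nat_lit 81959) (nat_lit 24) (.e (nat_lit 123025) (nat_lit 127) (.e (nat_lit 229413) (nat_lit 15) (.e (nat_lit 450564) (nat_lit 0) (.e (nat_lit 6792) (nat_lit 365) .nil)))))) (.g (nat_lit 5) .nil .nil))) 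
(.lf (nat_lit 38119) (.g (nat_lit 2717) (.e (nat_lit 1221) (nat_lit 90) (.e (nat_lit 81959) (nat_lit 24) (.e (nat_lit 123182) (nat_lit 264) (.e (nat_lit 1224) (nat_lit 90) (.e (nat_lit 81946) (nat_lit 20) (.e (nat_lit 982) (nat_lit 81) (.e (nat_lit 5909) (nat_lit 320) .nil))))))) (.g (nat_lit 5) .nil .nil))))) (.nd (nat_lit 5) (.nd (nat_lit 6) 
(.lf (nat_lit 38039) (.g (nat_lit 2938) (.e (nat_lit 1221) (nat_lit 90) (.e (nat_lit 81957) (nat_lit 24) (.e (nat_lit 123184) (nat_lit 264) (.e (nat_lit 1222) (nat_lit 90) (.e (nat_lit 81948) (nat_lit 21) (.e (nat_lit 57870) (nat_lit 264) .nil)))))) (.g (nat_lit 5) .nil .nil))) 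
(.lf (nat_lit 38103) (.g (nat_lit 3762) (.e (nat_lit 1221) (nat_lit 90) (.e (nat_lit 81959) (nat_lit 24) (.e (nat_lit 123182) (nat_lit 264) (.e (nat_lit 1201) (nat_lit 88) (.e (nat_lit 65619) (nat_lit 10) (.e (nat_lit 344097) (nat_lit 18) (.e (nat_lit 5907) (nat_lit 320) .nil))))))) (.g (nat_lit 4) .nil .nil)))) (.nd (nat_lit 6) 
(.lf (nat_lit 38071) (.g (nat_lit 2679) (.e (nat_lit 1221) (nat_lit 90) (.e (nat_lit 81959) (nat_lit 24) (.e (nat_lit 123156) (nat_lit 252) (.e (nat_lit 57388) (nat_lit 5) (.e (nat_lit 122624) (nat_lit 12) (.e (nat_lit 434202) (nat_lit 18) (.e (nat_lit 4598) (nat_lit 269) .nil))))))) (.g (nat_lit 6) .nil .nil))) 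
(.lf (nat_lit 38135) (.g (nat_lit 2577) (.e (nat_lit 1221) (nat_lit 90) (.e (nat_lit 81959) (nat_lit 24) (.e (nat_lit 123182) (nat_lit 264) (.e (nat_lit 1296) (nat_lit 96) (.e (nat_lit 131115) (nat_lit 9) .nil))))) .nil))))) (.nd (nat_lit 4) (.nd (nat_lit 5) (.nd (nat_lit 6) 
(.lf (nat_lit 38031) (.g (nat_lit 4830) (.e (nat_lit 1221) (nat_lit 90) (.e (nat_lit 81956) (nat_lit 23) (.e (nat_lit 98389) (nat_lit 33) (.e (nat_lit 491563) (nat_lit 12) (.e (nat_lit 385054) (nat_lit 21) (.e (nat_lit 4215) (nat_lit 251) .nil)))))) (.g (nat_lit 4) .nil .nil))) 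
(.lf (nat_lit 38095) (.g (nat_lit 2154) (.e (nat_lit 1221) (nat_lit 90) (.e (nat_lit 81959) (nat_lit 24) (.e (nat_lit 123182) (nat_lit 264) (.e (nat_lit 1201) (nat_lit 88) (.e (nat_lit 65604) (nat_lit 9) .nil))))) .nil))) (.nd (nat_lit 6) 
(.lf (nat_lit 38063) (.g (nat_lit 610) (.e (nat_lit 1221) (nat_lit 90) (.e (nat_lit 81959) (nat_lit 24) (.e (nat_lit 123049) (nat_lit 152) .nil))) .nil)) 
(.lf (nat_lit 38127) (.g (nat_lit 2686) (.e (nat_lit 1221) (nat_lit 90) (.e (nat_lit 81959) (nat_lit 24) (.e (nat_lit 123182) (nat_lit 264) (.e (nat_lit 1224) (nat_lit 90) (.e (nat_lit 81949) (nat_lit 21) (.e (nat_lit 57871) (nat_lit 264) .nil)))))) (.g (nat_lit 4) .nil .nil))))) (.nd (nat_lit 5) (.nd (nat_lit 6) 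
(.lf (nat_lit 38047) (.g (nat_lit 2298) (.e (nat_lit 1221) (nat_lit 90) (.e (nat_lit 81957) (nat_lit 24) (.e (nat_lit 123198) (nat_lit 266) (.e (nat_lit 57426) (nat_lit 15) (.e (nat_lit 360452) (nat_lit 0) (.e (nat_lit 5905) (nat_lit 320) .nil)))))) (.g (nat_lit 5) .nil .nil))) 
(.lf (nat_lit 38111) (.g (nat_lit 2906) (.e (nat_lit 1221) (nat_lit 90) (.e (nat_lit 81959) (nat_lit 24) (.e (nat_lit 123182) (nat_lit 264) (.e (nat_lit 1222) (nat_lit 90) (.e (nat_lit 81950) (nat_lit 21) (.e (nat_lit 57873) (nat_lit 264) .nil)))))) (.g (nat_lit 4) .nil .nil)))) (.nd (nat_lit 6) 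
(.lf (nat_lit 38079) (.g (nat_lit 1898) (.e (nat_lit 1221) (nat_lit 90) (.e (nat_lit 81959) (nat_lit 24) (.e (nat_lit 123181) (nat_lit 264) (.e (nat_lit 1222) (nat_lit 90) (.e (nat_lit 81948) (nat_lit 21) (.e (nat_lit 57872) (nat_lit 264) .nil)))))) (.g (nat_lit 4) .nil .nil))) 
(.lf (nat_lit 38143) (.g (nat_lit 2089) (.e (nat_lit 1221) (nat_lit 90) (.e (nat_lit 81959) (nat_lit 24) (.e (nat_lit 123184) (nat_lit 264) (.e (nat_lit 1222) (nat_lit 90) (.e (nat_lit 81950) (nat_lit 21) .nil))))) .nil)))))))))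

noncomputable def tv529 : DT := (.nd (nat_lit 0) (.nd (nat_lit 1) (.nd (nat_lit 2) (.nd (nat_lit 3) (.nd (nat_lit 4) (.nd (nat_lit 5) 
(.lf (nat_lit 38144) (.g (nat_lit 2750) (.e (nat_lit 1221) (nat_lit 90) (.e (nat_lit 81959) (nat_lit 24) (.e (nat_lit 123184) (nat_lit 264) (.e (nat_lit 1222) (nat_lit 90) (.e (nat_lit 81950) (nat_lit 21) (.e (nat_lit 57872) (nat_lit 264) .nil)))))) (.g (nat_lit 4) .nil .nil))) 
(.lf (nat_lit 38176) (.g (nat_lit 2941) (.e (nat_lit 1221) (nat_lit 90) (.e (nat_lit 81959) (nat_lit 24) (.e (nat_lit 123195) (nat_lit 266) (.e (nat_lit 57400) (nat_lit 10) (.e (nat_lit 319490) (nat_lit 0) (.e (nat_lit 5394) (nat_lit 301) (.e (nat_lit 57354) (nat_lit 0) (.e (nat_lit 5906) (nat_lit 320) .nil)))))))) (.g (nat_lit 5) .nil .nil)))) (.nd (nat_lit 5) 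
(.lf (nat_lit 38160) (.g (nat_lit 1889) (.e (nat_lit 1221) (nat_lit 90) (.e (nat_lit 81959) (nat_lit 24) (.e (nat_lit 123194) (nat_lit 266) (.e (nat_lit 57412) (nat_lit 12) (.e (nat_lit 336176) (nat_lit 10) (.e (nat_lit 344097) (nat_lit 18) (.e (nat_lit 5906) (nat_lit 320) .nil))))))) (.g (nat_lit 4) .nil .nil))) 
(.lf (nat_lit 38192) (.g (nat_lit 2472) (.e (nat_lit 1221) (nat_lit 90) (.e (nat_lit 81959) (nat_lit 24) (.e (nat_lit 123195) (nat_lit 266) (.e (nat_lit 57403) (nat_lit 11) (.e (nat_lit 327700) (nat_lit 8) (.e (nat_lit 303111) (nat_lit 0) (.e (nat_lit 2424) (nat_lit 157) (.e (nat_lit 4616) (nat_lit 269) .nil)))))))) (.g (nat_lit 5) .nil .nil))))) (.nd (nat_lit 4) (.nd (nat_lit 5) 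
(.lf (nat_lit 38152) (.g (nat_lit 2162) (.e (nat_lit 1221) (nat_lit 90) (.e (nat_lit 81959) (nat_lit 24) (.e (nat_lit 123191) (nat_lit 264) (.e (nat_lit 1221) (nat_lit 90) (.e (nat_lit 81959) (nat_lit 24) (.e (nat_lit 123191) (nat_lit 264) .nil)))))) (.g (nat_lit 5) .nil .nil))) 
(.lf (nat_lit 38184) (.g (nat_lit 2965) (.e (nat_lit 1221) (nat_lit 90) (.e (nat_lit 81959) (nat_lit 24) (.e (nat_lit 123195) (nat_lit 266) (.e (nat_lit 57400) (nat_lit 10) (.e (nat_lit 319490) (nat_lit 0) (.e (nat_lit 5761) (nat_lit 315) (.e (nat_lit 163842) (nat_lit 0) (.e (nat_lit 4616) (nat_lit 269) .nil)))))))) (.g (nat_lit 5) .nil .nil)))) (.nd (nat_lit 5) 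
(.lf (nat_lit 38168) (.g (nat_lit 2638) (.e (nat_lit 1221) (nat_lit 90) (.e (nat_lit 81959) (nat_lit 24) (.e (nat_lit 123194) (nat_lit 266) (.e (nat_lit 57436) (nat_lit 17) (.e (nat_lit 376859) (nat_lit 21) (.e (nat_lit 57870) (nat_lit 264) .nil)))))) (.g (nat_lit 5) .nil .nil))) 
(.lf (nat_lit 38200) (.g (nat_lit 2668) (.e (nat_lit 1221) (nat_lit 90) (.e (nat_lit 81959) (nat_lit 24) (.e (nat_lit 123195) (nat_lit 266) (.e (nat_lit 57405) (nat_lit 12) (.e (nat_lit 336143) (nat_lit 9) (.e (nat_lit 335995) (nat_lit 1) (.e (nat_lit 57872) (nat_lit 264) .nil))))))) (.g (nat_lit 4) .nil .nil)))))) (.nd (nat_lit 3) (.nd (nat_lit 4) (.nd (nat_lit 5) 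
(.lf (nat_lit 38148) (.g (nat_lit 936) (.e (nat_lit 1221) (nat_lit 90) (.e (nat_lit 81959) (nat_lit 24) (.e (nat_lit 123189) (nat_lit 264) .nil))) .nil)) 
(.lf (nat_lit 38180) (.g (nat_lit 4382) (.e (nat_lit 1221) (nat_lit 90) (.e (nat_lit 81959) (nat_lit 24) (.e (nat_lit 123195) (nat_lit 266) (.e (nat_lit 57400) (nat_lit 10) (.e (nat_lit 319490) (nat_lit 0) (.e (nat_lit 5740) (nat_lit 313) (.e (nat_lit 8287) (nat_lit 51) (.e (nat_lit 7454) (nat_lit 396) .nil)))))))) (.g (nat_lit 8) .nil .nil)))) (.nd (nat_lit 5) 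
(.lf (nat_lit 38164) (.g (nat_lit 2194) (.e (nat_lit 1221) (nat_lit 90) (.e (nat_lit 81959) (nat_lit 24) (.e (nat_lit 123194) (nat_lit 266) (.e (nat_lit 57427) (nat_lit 15) (.e (nat_lit 360452) (nat_lit 0) (.e (nat_lit 5905) (nat_lit 320) .nil)))))) (.g (nat_lit 4) .nil .nil))) 
(.lf (nat_lit 38196) (.g (nat_lit 2320) (.e (nat_lit 1221) (nat_lit 90) (.e (nat_lit 81959) (nat_lit 24) (.e (nat_lit 123195) (nat_lit 266) (.e (nat_lit 57404) (nat_lit 12) (.e (nat_lit 336127) (nat_lit 9) (.e (nat_lit 335995) (nat_lit 1) (.e (nat_lit 57872) (nat_lit 264) .nil))))))) (.g (nat_lit 4) .nil .nil))))) (.nd (nat_lit 4) (.nd (nat_lit 5) 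
(.lf (nat_lit 38156) (.g (nat_lit 2494) (.e (nat_lit 1221) (nat_lit 90) (.e (nat_lit 81959) (nat_lit 24) (.e (nat_lit 123194) (nat_lit 266) (.e (nat_lit 57411) (nat_lit 12) (.e (nat_lit 336182) (nat_lit 11) (.e (nat_lit 376576) (nat_lit 18) (.e (nat_lit 5902) (nat_lit 320) .nil))))))) (.g (nat_lit 4) .nil .nil))) 
(.lf (nat_lit 38188) (.g (nat_lit 1792) (.e (nat_lit 1221) (nat_lit 90) (.e (nat_lit 81959) (nat_lit 24) (.e (nat_lit 123195) (nat_lit 266) (.e (nat_lit 57403) (nat_lit 11) (.e (nat_lit 327697) (nat_lit 7) (.e (nat_lit 294924) (nat_lit 1) (.e (nat_lit 57870) (nat_lit 264) .nil))))))) (.g (nat_lit 4) .nil .nil)))) (.nd (nat_lit 5) 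
(.lf (nat_lit 38172) (.g (nat_lit 2756) (.e (nat_lit 1221) (nat_lit 90) (.e (nat_lit 81959) (nat_lit 24) (.e (nat_lit 123195) (nat_lit 266) (.e (nat_lit 57346) (nat_lit 0) (.e (nat_lit 6203) (nat_lit 332) (.e (nat_lit 2798) (nat_lit 180) (.e (nat_lit 303115) (nat_lit 1) (.e (nat_lit 164421) (nat_lit 272) .nil)))))))) (.g (nat_lit 4) .nil .nil))) 
(.lf (nat_lit 38204) (.g (nat_lit 2665) (.e (nat_lit 1221) (nat_lit 90) (.e (nat_lit 81959) (nat_lit 24) (.e (nat_lit 123195) (nat_lit 266) (.e (nat_lit 57409) (nat_lit 12) (.e (nat_lit 336143) (nat_lit 9) .nil))))) .nil)))))) (.nd (nat_lit 2) (.nd (nat_lit 3) (.nd (nat_lit 4) (.nd (nat_lit 5) 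
(.lf (nat_lit 38146) (.g (nat_lit 1973) (.e (nat_lit 1221) (nat_lit 90) (.e (nat_lit 81959) (nat_lit 24) (.e (nat_lit 123185) (nat_lit 264) (.e (nat_lit 1223) (nat_lit 90) (.e (nat_lit 81950) (nat_lit 21) (.e (nat_lit 57870) (nat_lit 264) .nil)))))) (.g (nat_lit 4) .nil .nil))) 
(.lf (nat_lit 38178) (.g (nat_lit 2397) (.e (nat_lit 1221) (nat_lit 90) (.e (nat_lit 81959) (nat_lit 24) (.e (nat_lit 123195) (nat_lit 266) (.e (nat_lit 57400) (nat_lit 10) (.e (nat_lit 319490) (nat_lit 0) (.e (nat_lit 5740) (nat_lit 313) (.e (nat_lit 8285) (nat_lit 51) (.e (nat_lit 7454) (nat_lit 396) .nil)))))))) (.g (nat_lit 4) .nil .nil)))) (.nd (nat_lit 5) 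
(.lf (nat_lit 38162) (.g (nat_lit 2526) (.e (nat_lit 1221) (nat_lit 90) (.e (nat_lit 81959) (nat_lit 24) (.e (nat_lit 123194) (nat_lit 266) (.e (nat_lit 57424) (nat_lit 14) (.e (nat_lit 352309) (nat_lit 21) (.e (nat_lit 57871) (nat_lit 264) .nil)))))) (.g (nat_lit 4) .nil .nil))) 
(.lf (nat_lit 38194) (.g (nat_lit 2359) (.e (nat_lit 1221) (nat_lit 90) (.e (nat_lit 81959) (nat_lit 24) (.e (nat_lit 123195) (nat_lit 266) (.e (nat_lit 57404) (nat_lit 12) (.e (nat_lit 336111) (nat_lit 9) (.e (nat_lit 335997) (nat_lit 1) (.e (nat_lit 57870) (nat_lit 264) .nil))))))) (.g (nat_lit 4) .nil .nil))))) (.nd (nat_lit 4) (.nd (nat_lit 5) 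
(.lf (nat_lit 38154) (.g (nat_lit 325) (.e (nat_lit 1221) (nat_lit 90) (.e (nat_lit 81959) (nat_lit 24) (.e (nat_lit 123194) (nat_lit 266) .nil))) .nil)) 
(.lf (nat_lit 38186) (.g (nat_lit 2576) (.e (nat_lit 1221) (nat_lit 90) (.e (nat_lit 81959) (nat_lit 24) (.e (nat_lit 123195) (nat_lit 266) (.e (nat_lit 57400) (nat_lit 10) (.e (nat_lit 327424) (nat_lit 8) (.e (nat_lit 303115) (nat_lit 1) (.e (nat_lit 164422) (nat_lit 272) .nil))))))) (.g (nat_lit 4) .nil .nil)))) (.nd (nat_lit 5) 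
(.lf (nat_lit 38170) (.g (nat_lit 243) (.e (nat_lit 1221) (nat_lit 90) (.e (nat_lit 81959) (nat_lit 24) (.e (nat_lit 123195) (nat_lit 266) .nil))) .nil)) 
(.lf (nat_lit 38202) (.g (nat_lit 1224) (.e (nat_lit 1221) (nat_lit 90) (.e (nat_lit 81959) (nat_lit 24) (.e (nat_lit 123195) (nat_lit 266) (.e (nat_lit 57408) (nat_lit 12) .nil)))) .nil))))) (.nd (nat_lit 3) (.nd (nat_lit 4) (.nd (nat_lit 5) 
(.lf (nat_lit 38150) (.g (nat_lit 638) (.e (nat_lit 1221) (nat_lit 90) (.e (nat_lit 81959) (nat_lit 24) (.e (nat_lit 123190) (nat_lit 264) .nil))) .nil)) 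
(.lf (nat_lit 38182) (.g (nat_lit 2306) (.e (nat_lit 1221) (nat_lit 90) (.e (nat_lit 81959) (nat_lit 24) (.e (nat_lit 123195) (nat_lit 266) (.e (nat_lit 57400) (nat_lit 10) (.e (nat_lit 319490) (nat_lit 0) (.e (nat_lit 5756) (nat_lit 315) (.e (nat_lit 163843) (nat_lit 0) (.e (nat_lit 4598) (nat_lit 269) .nil)))))))) (.g (nat_lit 4) .nil .nil)))) (.nd (nat_lit 5) 
(.lf (nat_lit 38166) (.g (nat_lit 2364) (.e (nat_lit 1221) (nat_lit 90) (.e (nat_lit 81959) (nat_lit 24) (.e (nat_lit 123194) (nat_lit 266) (.e (nat_lit 57427) (nat_lit 15) (.e (nat_lit 368384) (nat_lit 0) (.e (nat_lit 5902) (nat_lit 320) .nil)))))) (.g (nat_lit 4) .nil .nil))) 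
(.lf (nat_lit 38198) (.g (nat_lit 2632) (.e (nat_lit 1221) (nat_lit 90) (.e (nat_lit 81959) (nat_lit 24) (.e (nat_lit 123195) (nat_lit 266) (.e (nat_lit 57404) (nat_lit 12) (.e (nat_lit 336178) (nat_lit 10) (.e (nat_lit 344097) (nat_lit 18) (.e (nat_lit 5906) (nat_lit 320) .nil))))))) (.g (nat_lit 4) .nil .nil))))) (.nd (nat_lit 4) (.nd (nat_lit 5) 
(.lf (nat_lit 38158) (.g (nat_lit 2304) (.e (nat_lit 1221) (nat_lit 90) (.e (nat_lit 81959) (nat_lit 24) (.e (nat_lit 123194) (nat_lit 266) (.e (nat_lit 57412) (nat_lit 12) (.e (nat_lit 336099) (nat_lit 9) (.e (nat_lit 335997) (nat_lit 1) (.e (nat_lit 57871) (nat_lit 264) .nil))))))) (.g (nat_lit 4) .nil .nil))) 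
(.lf (nat_lit 38190) (.g (nat_lit 3142) (.e (nat_lit 1221) (nat_lit 90) (.e (nat_lit 81959) (nat_lit 24) (.e (nat_lit 123195) (nat_lit 266) (.e (nat_lit 57403) (nat_lit 11) (.e (nat_lit 327698) (nat_lit 8) (.e (nat_lit 303115) (nat_lit 1) (.e (nat_lit 164421) (nat_lit 272) .nil))))))) (.g (nat_lit 5) .nil .nil)))) (.nd (nat_lit 5) 
(.lf (nat_lit 38174) (.g (nat_lit 1032) (.e (nat_lit 1221) (nat_lit 90) (.e (nat_lit 81959) (nat_lit 24) (.e (nat_lit 123195) (nat_lit 266) (.e (nat_lit 57399) (nat_lit 10) .nil)))) .nil)) 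
(.lf (nat_lit 38206) (.g (nat_lit 2608) (.e (nat_lit 1221) (nat_lit 90) (.e (nat_lit 81959) (nat_lit 24) (.e (nat_lit 123195) (nat_lit 266) (.e (nat_lit 57412) (nat_lit 12) (.e (nat_lit 336073) (nat_lit 9) (.e (nat_lit 335997) (nat_lit 1) (.e (nat_lit 57871) (nat_lit 264) .nil))))))) (.g (nat_lit 4) .nil .nil)))))))) 
(.nd (nat_lit 1) (.nd (nat_lit 2) (.nd (nat_lit 3) (.nd (nat_lit 4) (.nd (nat_lit 5) 
(.lf (nat_lit 38145) (.g (nat_lit 3383) (.e (nat_lit 1221) (nat_lit 90) (.e (nat_lit 81959) (nat_lit 24) (.e (nat_lit 123185) (nat_lit 264) (.e (nat_lit 1222) (nat_lit 90) (.e (nat_lit 81948) (nat_lit 21) (.e (nat_lit 57871) (nat_lit 264) .nil)))))) (.g (nat_lit 6) .nil .nil))) 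
(.lf (nat_lit 38177) (.g (nat_lit 2336) (.e (nat_lit 1221) (nat_lit 90) (.e (nat_lit 81959) (nat_lit 24) (.e (nat_lit 123195) (nat_lit 266) (.e (nat_lit 57400) (nat_lit 10) (.e (nat_lit 319490) (nat_lit 0) (.e (nat_lit 5664) (nat_lit 312) (.e (nat_lit 2605) (nat_lit 163) (.e (nat_lit 164422) (nat_lit 272) .nil)))))))) (.g (nat_lit 4) .nil .nil)))) (.nd (nat_lit 5) 
(.lf (nat_lit 38161) (.g (nat_lit 2867) (.e (nat_lit 1221) (nat_lit 90) (.e (nat_lit 81959) (nat_lit 24) (.e (nat_lit 123194) (nat_lit 266) (.e (nat_lit 57424) (nat_lit 14) (.e (nat_lit 352309) (nat_lit 21) (.e (nat_lit 57870) (nat_lit 264) .nil)))))) (.g (nat_lit 5) .nil .nil))) 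
(.lf (nat_lit 38193) (.g (nat_lit 1643) (.e (nat_lit 1221) (nat_lit 90) (.e (nat_lit 81959) (nat_lit 24) (.e (nat_lit 123195) (nat_lit 266) (.e (nat_lit 57404) (nat_lit 12) .nil)))) .nil)))) (.nd (nat_lit 4) (.nd (nat_lit 5) 
(.lf (nat_lit 38153) (.g (nat_lit 930) (.e (nat_lit 1221) (nat_lit 90) (.e (nat_lit 81959) (nat_lit 24) (.e (nat_lit 123192) (nat_lit 264) .nil))) .nil)) 
(.lf (nat_lit 38185) (.g (nat_lit 3553) (.e (nat_lit 1221) (nat_lit 90) (.e (nat_lit 81959) (nat_lit 24) (.e (nat_lit 123195) (nat_lit 266) (.e (nat_lit 57400) (nat_lit 10) (.e (nat_lit 319490) (nat_lit 0) (.e (nat_lit 5761) (nat_lit 315) (.e (nat_lit 163850) (nat_lit 0) (.e (nat_lit 4605) (nat_lit 269) .nil)))))))) (.g (nat_lit 5) .nil .nil)))) (.nd (nat_lit 5) 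
(.lf (nat_lit 38169) (.g (nat_lit 2713) (.e (nat_lit 1221) (nat_lit 90) (.e (nat_lit 81959) (nat_lit 24) (.e (nat_lit 123194) (nat_lit 266) (.e (nat_lit 57437) (nat_lit 17) (.e (nat_lit 376859) (nat_lit 21) (.e (nat_lit 57870) (nat_lit 264) .nil)))))) (.g (nat_lit 4) .nil .nil))) 
(.lf (nat_lit 38201) (.g (nat_lit 2713) (.e (nat_lit 1221) (nat_lit 90) (.e (nat_lit 81959) (nat_lit 24) (.e (nat_lit 123195) (nat_lit 266) (.e (nat_lit 57406) (nat_lit 12) (.e (nat_lit 336129) (nat_lit 9) (.e (nat_lit 335995) (nat_lit 1) (.e (nat_lit 57870) (nat_lit 264) .nil))))))) (.g (nat_lit 4) .nil .nil)))))) (.nd (nat_lit 3) (.nd (nat_lit 4) (.nd (nat_lit 5) 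
(.lf (nat_lit 38149) (.g (nat_lit 1183) (.e (nat_lit 1221) (nat_lit 90) (.e (nat_lit 81959) (nat_lit 24) (.e (nat_lit 123189) (nat_lit 264) (.e (nat_lit 7936) (nat_lit 90) .nil)))) .nil)) 
(.lf (nat_lit 38181) (.g (nat_lit 2468) (.e (nat_lit 1221) (nat_lit 90) (.e (nat_lit 81959) (nat_lit 24) (.e (nat_lit 123195) (nat_lit 266) (.e (nat_lit 57400) (nat_lit 10) (.e (nat_lit 319490) (nat_lit 0) (.e (nat_lit 5756) (nat_lit 315) (.e (nat_lit 163842) (nat_lit 0) (.e (nat_lit 4616) (nat_lit 269) .nil)))))))) (.g (nat_lit 5) .nil .nil)))) (.nd (nat_lit 5) 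
(.lf (nat_lit 38165) (.g (nat_lit 2379) (.e (nat_lit 1221) (nat_lit 90) (.e (nat_lit 81959) (nat_lit 24) (.e (nat_lit 123194) (nat_lit 266) (.e (nat_lit 57427) (nat_lit 15) (.e (nat_lit 360452) (nat_lit 0) (.e (nat_lit 5907) (nat_lit 320) .nil)))))) (.g (nat_lit 4) .nil .nil))) 
(.lf (nat_lit 38197) (.g (nat_lit 2492) (.e (nat_lit 1221) (nat_lit 90) (.e (nat_lit 81959) (nat_lit 24) (.e (nat_lit 123195) (nat_lit 266) (.e (nat_lit 57404) (nat_lit 12) (.e (nat_lit 336144) (nat_lit 9) (.e (nat_lit 335995) (nat_lit 1) (.e (nat_lit 57872) (nat_lit 264) .nil))))))) (.g (nat_lit 4) .nil .nil))))) (.nd (nat_lit 4) (.nd (nat_lit 5) 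
(.lf (nat_lit 38157) (.g (nat_lit 2230) (.e (nat_lit 1221) (nat_lit 90) (.e (nat_lit 81959) (nat_lit 24) (.e (nat_lit 123194) (nat_lit 266) (.e (nat_lit 57412) (nat_lit 12) (.e (nat_lit 336099) (nat_lit 9) (.e (nat_lit 335997) (nat_lit 1) (.e (nat_lit 57870) (nat_lit 264) .nil))))))) (.g (nat_lit 4) .nil .nil))) 
(.lf (nat_lit 38189) (.g (nat_lit 2645) (.e (nat_lit 1221) (nat_lit 90) (.e (nat_lit 81959) (nat_lit 24) (.e (nat_lit 123195) (nat_lit 266) (.e (nat_lit 57403) (nat_lit 11) (.e (nat_lit 327697) (nat_lit 7) (.e (nat_lit 294925) (nat_lit 1) (.e (nat_lit 57870) (nat_lit 264) .nil))))))) (.g (nat_lit 0) .nil .nil)))) (.nd (nat_lit 5) 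
(.lf (nat_lit 38173) (.g (nat_lit 3349) (.e (nat_lit 1221) (nat_lit 90) (.e (nat_lit 81959) (nat_lit 24) (.e (nat_lit 123195) (nat_lit 266) (.e (nat_lit 57346) (nat_lit 0) (.e (nat_lit 6203) (nat_lit 332) (.e (nat_lit 2798) (nat_lit 180) (.e (nat_lit 303115) (nat_lit 1) (.e (nat_lit 164422) (nat_lit 272) .nil)))))))) (.g (nat_lit 5) .nil .nil))) 
(.lf (nat_lit 38205) (.g (nat_lit 3098) (.e (nat_lit 1221) (nat_lit 90) (.e (nat_lit 81959) (nat_lit 24) (.e (nat_lit 123195) (nat_lit 266) (.e (nat_lit 57409) (nat_lit 12) (.e (nat_lit 336182) (nat_lit 11) (.e (nat_lit 376576) (nat_lit 18) (.e (nat_lit 5902) (nat_lit 320) .nil))))))) (.g (nat_lit 4) .nil .nil))))))) (.nd (nat_lit 2) (.nd (nat_lit 3) (.nd (nat_lit 4) (.nd (nat_lit 5) 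
(.lf (nat_lit 38147) (.g (nat_lit 615) (.e (nat_lit 1221) (nat_lit 90) (.e (nat_lit 81959) (nat_lit 24) (.e (nat_lit 123186) (nat_lit 264) .nil))) .nil)) 
(.lf (nat_lit 38179) (.g (nat_lit 2290) (.e (nat_lit 1221) (nat_lit 90) (.e (nat_lit 81959) (nat_lit 24) (.e (nat_lit 123195) (nat_lit 266) (.e (nat_lit 57400) (nat_lit 10) (.e (nat_lit 319490) (nat_lit 0) (.e (nat_lit 5740) (nat_lit 313) (.e (nat_lit 8286) (nat_lit 51) (.e (nat_lit 7454) (nat_lit 396) .nil)))))))) (.g (nat_lit 4) .nil .nil)))) (.nd (nat_lit 5) 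
(.lf (nat_lit 38163) (.g (nat_lit 2104) (.e (nat_lit 1221) (nat_lit 90) (.e (nat_lit 81959) (nat_lit 24) (.e (nat_lit 123194) (nat_lit 266) (.e (nat_lit 57426) (nat_lit 15) (.e (nat_lit 368384) (nat_lit 0) (.e (nat_lit 5909) (nat_lit 320) .nil)))))) (.g (nat_lit 4) .nil .nil))) 
(.lf (nat_lit 38195) (.g (nat_lit 2589) (.e (nat_lit 1221) (nat_lit 90) (.e (nat_lit 81959) (nat_lit 24) (.e (nat_lit 123195) (nat_lit 266) (.e (nat_lit 57404) (nat_lit 12) (.e (nat_lit 336111) (nat_lit 9) (.e (nat_lit 335997) (nat_lit 1) (.e (nat_lit 57872) (nat_lit 264) .nil))))))) (.g (nat_lit 4) .nil .nil))))) (.nd (nat_lit 4) (.nd (nat_lit 5) 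
(.lf (nat_lit 38155) (.g (nat_lit 2664) (.e (nat_lit 1221) (nat_lit 90) (.e (nat_lit 81959) (nat_lit 24) (.e (nat_lit 123194) (nat_lit 266) (.e (nat_lit 57407) (nat_lit 12) (.e (nat_lit 336142) (nat_lit 9) (.e (nat_lit 335995) (nat_lit 1) (.e (nat_lit 57872) (nat_lit 264) .nil))))))) (.g (nat_lit 4) .nil .nil))) 
(.lf (nat_lit 38187) (.g (nat_lit 1591) (.e (nat_lit 1221) (nat_lit 90) (.e (nat_lit 81959) (nat_lit 24) (.e (nat_lit 123195) (nat_lit 266) (.e (nat_lit 57402) (nat_lit 11) .nil)))) .nil))) (.nd (nat_lit 5) 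
(.lf (nat_lit 38171) (.g (nat_lit 1051) (.e (nat_lit 1221) (nat_lit 90) (.e (nat_lit 81959) (nat_lit 24) (.e (nat_lit 123195) (nat_lit 266) (.e (nat_lit 57346) (nat_lit 0) .nil)))) .nil)) 
(.lf (nat_lit 38203) (.g (nat_lit 2750) (.e (nat_lit 1221) (nat_lit 90) (.e (nat_lit 81959) (nat_lit 24) (.e (nat_lit 123195) (nat_lit 266) (.e (nat_lit 57409) (nat_lit 12) (.e (nat_lit 336142) (nat_lit 9) (.e (nat_lit 335995) (nat_lit 1) (.e (nat_lit 57872) (nat_lit 264) .nil))))))) (.g (nat_lit 4) .nil .nil)))))) (.nd (nat_lit 3) (.nd (nat_lit 4) (.nd (nat_lit 5) 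
(.lf (nat_lit 38151) (.g (nat_lit 3539) (.e (nat_lit 1221) (nat_lit 90) (.e (nat_lit 81959) (nat_lit 24) (.e (nat_lit 123191) (nat_lit 264) (.e (nat_lit 1220) (nat_lit 90) (.e (nat_lit 81950) (nat_lit 21) (.e (nat_lit 57872) (nat_lit 264) .nil)))))) (.g (nat_lit 6) .nil .nil))) 
(.lf (nat_lit 38183) (.g (nat_lit 3443) (.e (nat_lit 1221) (nat_lit 90) (.e (nat_lit 81959) (nat_lit 24) (.e (nat_lit 123195) (nat_lit 266) (.e (nat_lit 57400) (nat_lit 10) (.e (nat_lit 319490) (nat_lit 0) (.e (nat_lit 5756) (nat_lit 315) (.e (nat_lit 163850) (nat_lit 0) (.e (nat_lit 4605) (nat_lit 269) .nil)))))))) (.g (nat_lit 5) .nil .nil)))) (.nd (nat_lit 5) 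
(.lf (nat_lit 38167) (.g (nat_lit 2063) (.e (nat_lit 1221) (nat_lit 90) (.e (nat_lit 81959) (nat_lit 24) (.e (nat_lit 123194) (nat_lit 266) (.e (nat_lit 57427) (nat_lit 15) (.e (nat_lit 368384) (nat_lit 0) (.e (nat_lit 5909) (nat_lit 320) .nil)))))) (.g (nat_lit 4) .nil .nil))) 
(.lf (nat_lit 38199) (.g (nat_lit 2307) (.e (nat_lit 1221) (nat_lit 90) (.e (nat_lit 81959) (nat_lit 24) (.e (nat_lit 123195) (nat_lit 266) (.e (nat_lit 57405) (nat_lit 12) (.e (nat_lit 336142) (nat_lit 9) (.e (nat_lit 335995) (nat_lit 1) (.e (nat_lit 57870) (nat_lit 264) .nil))))))) (.g (nat_lit 4) .nil .nil))))) (.nd (nat_lit 4) (.nd (nat_lit 5) 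
(.lf (nat_lit 38159) (.g (nat_lit 2479) (.e (nat_lit 1221) (nat_lit 90) (.e (nat_lit 81959) (nat_lit 24) (.e (nat_lit 123194) (nat_lit 266) (.e (nat_lit 57412) (nat_lit 12) (.e (nat_lit 336099) (nat_lit 9) (.e (nat_lit 335997) (nat_lit 1) (.e (nat_lit 57872) (nat_lit 264) .nil))))))) (.g (nat_lit 5) .nil .nil))) 
(.lf (nat_lit 38191) (.g (nat_lit 3735) (.e (nat_lit 1221) (nat_lit 90) (.e (nat_lit 81959) (nat_lit 24) (.e (nat_lit 123195) (nat_lit 266) (.e (nat_lit 57403) (nat_lit 11) (.e (nat_lit 327698) (nat_lit 8) (.e (nat_lit 303115) (nat_lit 1) (.e (nat_lit 164422) (nat_lit 272) .nil))))))) (.g (nat_lit 7) .nil .nil)))) (.nd (nat_lit 5) 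
(.lf (nat_lit 38175) (.g (nat_lit 2999) (.e (nat_lit 1221) (nat_lit 90) (.e (nat_lit 81959) (nat_lit 24) (.e (nat_lit 123195) (nat_lit 266) (.e (nat_lit 57400) (nat_lit 10) (.e (nat_lit 319490) (nat_lit 0) (.e (nat_lit 5389) (nat_lit 301) (.e (nat_lit 57354) (nat_lit 0) (.e (nat_lit 5906) (nat_lit 320) .nil)))))))) (.g (nat_lit 5) .nil .nil))) 
(.lf (nat_lit 38207) (.g (nat_lit 2268) (.e (nat_lit 1221) (nat_lit 90) (.e (nat_lit 81959) (nat_lit 24) (.e (nat_lit 123195) (nat_lit 266) (.e (nat_lit 57412) (nat_lit 12) (.e (nat_lit 336094) (nat_lit 9) (.e (nat_lit 335997) (nat_lit 1) (.e (nat_lit 57870) (nat_lit 264) .nil))))))) (.g (nat_lit 4) .nil .nil)))))))))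

noncomputable def tv530 : DT := (.nd (nat_lit 0) (.nd (nat_lit 1) (.nd (nat_lit 2) (.nd (nat_lit 3) (.nd (nat_lit 4) (.nd (nat_lit 5) 
(.lf (nat_lit 38208) (.g (nat_lit 2528) (.e (nat_lit 1221) (nat_lit 90) (.e (nat_lit 81959) (nat_lit 24) (.e (nat_lit 123195) (nat_lit 266) (.e (nat_lit 57412) (nat_lit 12) (.e (nat_lit 336094) (nat_lit 9) (.e (nat_lit 335997) (nat_lit 1) (.e (nat_lit 57872) (nat_lit 264) .nil))))))) (.g (nat_lit 4) .nil .nil))) 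
(.lf (nat_lit 38240) (.g (nat_lit 2942) (.e (nat_lit 1221) (nat_lit 90) (.e (nat_lit 81959) (nat_lit 24) (.e (nat_lit 123195) (nat_lit 266) (.e (nat_lit 57412) (nat_lit 12) (.e (nat_lit 336176) (nat_lit 10) (.e (nat_lit 352000) (nat_lit 18) (.e (nat_lit 5902) (nat_lit 320) .nil))))))) (.g (nat_lit 5) .nil .nil)))) (.nd (nat_lit 5) 
(.lf (nat_lit 38224) (.g (nat_lit 2241) (.e (nat_lit 1221) (nat_lit 90) (.e (nat_lit 81959) (nat_lit 24) (.e (nat_lit 123195) (nat_lit 266) (.e (nat_lit 57412) (nat_lit 12) (.e (nat_lit 336163) (nat_lit 10) (.e (nat_lit 344097) (nat_lit 18) (.e (nat_lit 5907) (nat_lit 320) .nil))))))) (.g (nat_lit 4) .nil .nil))) 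
(.lf (nat_lit 38256) (.g (nat_lit 2062) (.e (nat_lit 1221) (nat_lit 90) (.e (nat_lit 81959) (nat_lit 24) (.e (nat_lit 123195) (nat_lit 266) (.e (nat_lit 57413) (nat_lit 12) (.e (nat_lit 336101) (nat_lit 9) (.e (nat_lit 335997) (nat_lit 1) (.e (nat_lit 57870) (nat_lit 264) .nil))))))) (.g (nat_lit 4) .nil .nil))))) (.nd (nat_lit 4) (.nd (nat_lit 5) 
(.lf (nat_lit 38216) (.g (nat_lit 4107) (.e (nat_lit 1221) (nat_lit 90) (.e (nat_lit 81959) (nat_lit 24) (.e (nat_lit 123195) (nat_lit 266) (.e (nat_lit 57412) (nat_lit 12) (.e (nat_lit 336099) (nat_lit 9) (.e (nat_lit 335997) (nat_lit 1) (.e (nat_lit 57871) (nat_lit 264) .nil))))))) (.g (nat_lit 6) .nil .nil))) 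
(.lf (nat_lit 38248) (.g (nat_lit 1978) (.e (nat_lit 1221) (nat_lit 90) (.e (nat_lit 81959) (nat_lit 24) (.e (nat_lit 123195) (nat_lit 266) (.e (nat_lit 57413) (nat_lit 12) (.e (nat_lit 336095) (nat_lit 9) (.e (nat_lit 335997) (nat_lit 1) (.e (nat_lit 57870) (nat_lit 264) .nil))))))) (.g (nat_lit 4) .nil .nil)))) (.nd (nat_lit 5) 
(.lf (nat_lit 38232) (.g (nat_lit 2629) (.e (nat_lit 1221) (nat_lit 90) (.e (nat_lit 81959) (nat_lit 24) (.e (nat_lit 123195) (nat_lit 266) (.e (nat_lit 57412) (nat_lit 12) (.e (nat_lit 336176) (nat_lit 10) (.e (nat_lit 344087) (nat_lit 18) (.e (nat_lit 5905) (nat_lit 320) .nil))))))) (.g (nat_lit 4) .nil .nil))) 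
(.lf (nat_lit 38264) (.g (nat_lit 2434) (.e (nat_lit 1221) (nat_lit 90) (.e (nat_lit 81959) (nat_lit 24) (.e (nat_lit 123195) (nat_lit 266) (.e (nat_lit 57413) (nat_lit 12) (.e (nat_lit 336110) (nat_lit 9) (.e (nat_lit 335997) (nat_lit 1) (.e (nat_lit 57870) (nat_lit 264) .nil))))))) (.g (nat_lit 4) .nil .nil)))))) (.nd (nat_lit 3) (.nd (nat_lit 4) (.nd (nat_lit 5) 
(.lf (nat_lit 38212) (.g (nat_lit 2592) (.e (nat_lit 1221) (nat_lit 90) (.e (nat_lit 81959) (nat_lit 24) (.e (nat_lit 123195) (nat_lit 266) (.e (nat_lit 57412) (nat_lit 12) (.e (nat_lit 336096) (nat_lit 9) (.e (nat_lit 335997) (nat_lit 1) (.e (nat_lit 57872) (nat_lit 264) .nil))))))) (.g (nat_lit 4) .nil .nil))) 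
(.lf (nat_lit 38244) (.g (nat_lit 1958) (.e (nat_lit 1221) (nat_lit 90) (.e (nat_lit 81959) (nat_lit 24) (.e (nat_lit 123195) (nat_lit 266) (.e (nat_lit 57413) (nat_lit 12) (.e (nat_lit 336073) (nat_lit 9) .nil))))) .nil))) (.nd (nat_lit 5) 
(.lf (nat_lit 38228) (.g (nat_lit 2745) (.e (nat_lit 1221) (nat_lit 90) (.e (nat_lit 81959) (nat_lit 24) (.e (nat_lit 123195) (nat_lit 266) (.e (nat_lit 57412) (nat_lit 12) (.e (nat_lit 336173) (nat_lit 10) (.e (nat_lit 352000) (nat_lit 18) (.e (nat_lit 5906) (nat_lit 320) .nil))))))) (.g (nat_lit 4) .nil .nil))) 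
(.lf (nat_lit 38260) (.g (nat_lit 1958) (.e (nat_lit 1221) (nat_lit 90) (.e (nat_lit 81959) (nat_lit 24) (.e (nat_lit 123195) (nat_lit 266) (.e (nat_lit 57413) (nat_lit 12) (.e (nat_lit 336104) (nat_lit 9) .nil))))) .nil)))) (.nd (nat_lit 4) (.nd (nat_lit 5) 
(.lf (nat_lit 38220) (.g (nat_lit 2637) (.e (nat_lit 1221) (nat_lit 90) (.e (nat_lit 81959) (nat_lit 24) (.e (nat_lit 123195) (nat_lit 266) (.e (nat_lit 57412) (nat_lit 12) (.e (nat_lit 336103) (nat_lit 9) (.e (nat_lit 335997) (nat_lit 1) (.e (nat_lit 57872) (nat_lit 264) .nil))))))) (.g (nat_lit 4) .nil .nil))) 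
(.lf (nat_lit 38252) (.g (nat_lit 2007) (.e (nat_lit 1221) (nat_lit 90) (.e (nat_lit 81959) (nat_lit 24) (.e (nat_lit 123195) (nat_lit 266) (.e (nat_lit 57413) (nat_lit 12) (.e (nat_lit 336098) (nat_lit 9) (.e (nat_lit 335997) (nat_lit 1) (.e (nat_lit 57870) (nat_lit 264) .nil))))))) (.g (nat_lit 4) .nil .nil)))) (.nd (nat_lit 5) 
(.lf (nat_lit 38236) (.g (nat_lit 2220) (.e (nat_lit 1221) (nat_lit 90) (.e (nat_lit 81959) (nat_lit 24) (.e (nat_lit 123195) (nat_lit 266) (.e (nat_lit 57412) (nat_lit 12) (.e (nat_lit 336176) (nat_lit 10) (.e (nat_lit 344093) (nat_lit 18) (.e (nat_lit 5902) (nat_lit 320) .nil))))))) (.g (nat_lit 4) .nil .nil))) 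
(.lf (nat_lit 38268) (.g (nat_lit 2354) (.e (nat_lit 1221) (nat_lit 90) (.e (nat_lit 81959) (nat_lit 24) (.e (nat_lit 123195) (nat_lit 266) (.e (nat_lit 57413) (nat_lit 12) (.e (nat_lit 336163) (nat_lit 10) (.e (nat_lit 344097) (nat_lit 18) (.e (nat_lit 5906) (nat_lit 320) .nil))))))) (.g (nat_lit 4) .nil .nil))))))) (.nd (nat_lit 2) (.nd (nat_lit 3) (.nd (nat_lit 4) (.nd (nat_lit 5) 
(.lf (nat_lit 38210) (.g (nat_lit 2587) (.e (nat_lit 1221) (nat_lit 90) (.e (nat_lit 81959) (nat_lit 24) (.e (nat_lit 123195) (nat_lit 266) (.e (nat_lit 57412) (nat_lit 12) (.e (nat_lit 336095) (nat_lit 9) (.e (nat_lit 335997) (nat_lit 1) (.e (nat_lit 57872) (nat_lit 264) .nil))))))) (.g (nat_lit 4) .nil .nil))) 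
(.lf (nat_lit 38242) (.g (nat_lit 2820) (.e (nat_lit 1221) (nat_lit 90) (.e (nat_lit 81959) (nat_lit 24) (.e (nat_lit 123195) (nat_lit 266) (.e (nat_lit 57412) (nat_lit 12) (.e (nat_lit 336178) (nat_lit 10) (.e (nat_lit 344097) (nat_lit 18) (.e (nat_lit 5905) (nat_lit 320) .nil))))))) (.g (nat_lit 4) .nil .nil)))) (.nd (nat_lit 5) 
(.lf (nat_lit 38226) (.g (nat_lit 4717) (.e (nat_lit 1221) (nat_lit 90) (.e (nat_lit 81959) (nat_lit 24) (.e (nat_lit 123195) (nat_lit 266) (.e (nat_lit 57412) (nat_lit 12) (.e (nat_lit 336173) (nat_lit 10) (.e (nat_lit 344097) (nat_lit 18) (.e (nat_lit 5906) (nat_lit 320) .nil))))))) (.g (nat_lit 7) .nil .nil))) 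
(.lf (nat_lit 38258) (.g (nat_lit 1981) (.e (nat_lit 1221) (nat_lit 90) (.e (nat_lit 81959) (nat_lit 24) (.e (nat_lit 123195) (nat_lit 266) (.e (nat_lit 57413) (nat_lit 12) (.e (nat_lit 336103) (nat_lit 9) (.e (nat_lit 335997) (nat_lit 1) (.e (nat_lit 57870) (nat_lit 264) .nil))))))) (.g (nat_lit 4) .nil .nil))))) (.nd (nat_lit 4) (.nd (nat_lit 5) 
(.lf (nat_lit 38218) (.g (nat_lit 2943) (.e (nat_lit 1221) (nat_lit 90) (.e (nat_lit 81959) (nat_lit 24) (.e (nat_lit 123195) (nat_lit 266) (.e (nat_lit 57412) (nat_lit 12) (.e (nat_lit 336102) (nat_lit 9) (.e (nat_lit 335997) (nat_lit 1) (.e (nat_lit 57870) (nat_lit 264) .nil))))))) (.g (nat_lit 6) .nil .nil))) 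
(.lf (nat_lit 38250) (.g (nat_lit 1982) (.e (nat_lit 1221) (nat_lit 90) (.e (nat_lit 81959) (nat_lit 24) (.e (nat_lit 123195) (nat_lit 266) (.e (nat_lit 57413) (nat_lit 12) (.e (nat_lit 336096) (nat_lit 9) (.e (nat_lit 335997) (nat_lit 1) (.e (nat_lit 57870) (nat_lit 264) .nil))))))) (.g (nat_lit 4) .nil .nil)))) (.nd (nat_lit 5) 
(.lf (nat_lit 38234) (.g (nat_lit 2519) (.e (nat_lit 1221) (nat_lit 90) (.e (nat_lit 81959) (nat_lit 24) (.e (nat_lit 123195) (nat_lit 266) (.e (nat_lit 57412) (nat_lit 12) (.e (nat_lit 336176) (nat_lit 10) (.e (nat_lit 344087) (nat_lit 18) (.e (nat_lit 5909) (nat_lit 320) .nil))))))) (.g (nat_lit 4) .nil .nil))) 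
(.lf (nat_lit 38266) (.g (nat_lit 2406) (.e (nat_lit 1221) (nat_lit 90) (.e (nat_lit 81959) (nat_lit 24) (.e (nat_lit 123195) (nat_lit 266) (.e (nat_lit 57413) (nat_lit 12) (.e (nat_lit 336112) (nat_lit 9) (.e (nat_lit 335997) (nat_lit 1) (.e (nat_lit 57872) (nat_lit 264) .nil))))))) (.g (nat_lit 4) .nil .nil)))))) (.nd (nat_lit 3) (.nd (nat_lit 4) (.nd (nat_lit 5) 
(.lf (nat_lit 38214) (.g (nat_lit 2656) (.e (nat_lit 1221) (nat_lit 90) (.e (nat_lit 81959) (nat_lit 24) (.e (nat_lit 123195) (nat_lit 266) (.e (nat_lit 57412) (nat_lit 12) (.e (nat_lit 336098) (nat_lit 9) (.e (nat_lit 335997) (nat_lit 1) (.e (nat_lit 57872) (nat_lit 264) .nil))))))) (.g (nat_lit 4) .nil .nil))) 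
(.lf (nat_lit 38246) (.g (nat_lit 1964) (.e (nat_lit 1221) (nat_lit 90) (.e (nat_lit 81959) (nat_lit 24) (.e (nat_lit 123195) (nat_lit 266) (.e (nat_lit 57413) (nat_lit 12) (.e (nat_lit 336094) (nat_lit 9) (.e (nat_lit 335997) (nat_lit 1) (.e (nat_lit 57870) (nat_lit 264) .nil))))))) (.g (nat_lit 4) .nil .nil)))) (.nd (nat_lit 5) 
(.lf (nat_lit 38230) (.g (nat_lit 2648) (.e (nat_lit 1221) (nat_lit 90) (.e (nat_lit 81959) (nat_lit 24) (.e (nat_lit 123195) (nat_lit 266) (.e (nat_lit 57412) (nat_lit 12) (.e (nat_lit 336176) (nat_lit 10) (.e (nat_lit 344087) (nat_lit 18) (.e (nat_lit 5865) (nat_lit 320) .nil))))))) (.g (nat_lit 4) .nil .nil))) 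
(.lf (nat_lit 38262) (.g (nat_lit 2073) (.e (nat_lit 1221) (nat_lit 90) (.e (nat_lit 81959) (nat_lit 24) (.e (nat_lit 123195) (nat_lit 266) (.e (nat_lit 57413) (nat_lit 12) (.e (nat_lit 336109) (nat_lit 9) (.e (nat_lit 335997) (nat_lit 1) (.e (nat_lit 57870) (nat_lit 264) .nil))))))) (.g (nat_lit 4) .nil .nil))))) (.nd (nat_lit 4) (.nd (nat_lit 5) 
(.lf (nat_lit 38222) (.g (nat_lit 2384) (.e (nat_lit 1221) (nat_lit 90) (.e (nat_lit 81959) (nat_lit 24) (.e (nat_lit 123195) (nat_lit 266) (.e (nat_lit 57412) (nat_lit 12) (.e (nat_lit 336140) (nat_lit 9) (.e (nat_lit 335995) (nat_lit 1) (.e (nat_lit 57870) (nat_lit 264) .nil))))))) (.g (nat_lit 4) .nil .nil))) 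
(.lf (nat_lit 38254) (.g (nat_lit 2472) (.e (nat_lit 1221) (nat_lit 90) (.e (nat_lit 81959) (nat_lit 24) (.e (nat_lit 123195) (nat_lit 266) (.e (nat_lit 57413) (nat_lit 12) (.e (nat_lit 336099) (nat_lit 9) (.e (nat_lit 335997) (nat_lit 1) (.e (nat_lit 57870) (nat_lit 264) .nil))))))) (.g (nat_lit 4) .nil .nil)))) (.nd (nat_lit 5) 
(.lf (nat_lit 38238) (.g (nat_lit 3387) (.e (nat_lit 1221) (nat_lit 90) (.e (nat_lit 81959) (nat_lit 24) (.e (nat_lit 123195) (nat_lit 266) (.e (nat_lit 57412) (nat_lit 12) (.e (nat_lit 336176) (nat_lit 10) (.e (nat_lit 344097) (nat_lit 18) (.e (nat_lit 5905) (nat_lit 320) .nil))))))) (.g (nat_lit 5) .nil .nil))) 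
(.lf (nat_lit 38270) (.g (nat_lit 2395) (.e (nat_lit 1221) (nat_lit 90) (.e (nat_lit 81959) (nat_lit 24) (.e (nat_lit 123195) (nat_lit 266) (.e (nat_lit 57413) (nat_lit 12) (.e (nat_lit 336178) (nat_lit 10) (.e (nat_lit 344097) (nat_lit 18) (.e (nat_lit 5907) (nat_lit 320) .nil))))))) (.g (nat_lit 4) .nil .nil)))))))) 
(.nd (nat_lit 1) (.nd (nat_lit 2) (.nd (nat_lit 3) (.nd (nat_lit 4) (.nd (nat_lit 5) 
(.lf (nat_lit 38209) (.g (nat_lit 2310) (.e (nat_lit 1221) (nat_lit 90) (.e (nat_lit 81959) (nat_lit 24) (.e (nat_lit 123195) (nat_lit 266) (.e (nat_lit 57412) (nat_lit 12) (.e (nat_lit 336095) (nat_lit 9) (.e (nat_lit 335997) (nat_lit 1) (.e (nat_lit 57870) (nat_lit 264) .nil))))))) (.g (nat_lit 4) .nil .nil))) 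
(.lf (nat_lit 38241) (.g (nat_lit 2337) (.e (nat_lit 1221) (nat_lit 90) (.e (nat_lit 81959) (nat_lit 24) (.e (nat_lit 123195) (nat_lit 266) (.e (nat_lit 57412) (nat_lit 12) (.e (nat_lit 336176) (nat_lit 10) (.e (nat_lit 352000) (nat_lit 18) (.e (nat_lit 5905) (nat_lit 320) .nil))))))) (.g (nat_lit 4) .nil .nil)))) (.nd (nat_lit 5) 
(.lf (nat_lit 38225) (.g (nat_lit 3145) (.e (nat_lit 1221) (nat_lit 90) (.e (nat_lit 81959) (nat_lit 24) (.e (nat_lit 123195) (nat_lit 266) (.e (nat_lit 57412) (nat_lit 12) (.e (nat_lit 336173) (nat_lit 10) (.e (nat_lit 344097) (nat_lit 18) (.e (nat_lit 5905) (nat_lit 320) .nil))))))) (.g (nat_lit 4) .nil .nil))) 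
(.lf (nat_lit 38257) (.g (nat_lit 2282) (.e (nat_lit 1221) (nat_lit 90) (.e (nat_lit 81959) (nat_lit 24) (.e (nat_lit 123195) (nat_lit 266) (.e (nat_lit 57413) (nat_lit 12) (.e (nat_lit 336101) (nat_lit 9) (.e (nat_lit 335997) (nat_lit 1) (.e (nat_lit 57872) (nat_lit 264) .nil))))))) (.g (nat_lit 4) .nil .nil))))) (.nd (nat_lit 4) (.nd (nat_lit 5) 
(.lf (nat_lit 38217) (.g (nat_lit 2416) (.e (nat_lit 1221) (nat_lit 90) (.e (nat_lit 81959) (nat_lit 24) (.e (nat_lit 123195) (nat_lit 266) (.e (nat_lit 57412) (nat_lit 12) (.e (nat_lit 336101) (nat_lit 9) (.e (nat_lit 335997) (nat_lit 1) (.e (nat_lit 57870) (nat_lit 264) .nil))))))) (.g (nat_lit 4) .nil .nil))) 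
(.lf (nat_lit 38249) (.g (nat_lit 2255) (.e (nat_lit 1221) (nat_lit 90) (.e (nat_lit 81959) (nat_lit 24) (.e (nat_lit 123195) (nat_lit 266) (.e (nat_lit 57413) (nat_lit 12) (.e (nat_lit 336095) (nat_lit 9) (.e (nat_lit 335997) (nat_lit 1) (.e (nat_lit 57872) (nat_lit 264) .nil))))))) (.g (nat_lit 4) .nil .nil)))) (.nd (nat_lit 5) 
(.lf (nat_lit 38233) (.g (nat_lit 2380) (.e (nat_lit 1221) (nat_lit 90) (.e (nat_lit 81959) (nat_lit 24) (.e (nat_lit 123195) (nat_lit 266) (.e (nat_lit 57412) (nat_lit 12) (.e (nat_lit 336176) (nat_lit 10) (.e (nat_lit 344087) (nat_lit 18) (.e (nat_lit 5908) (nat_lit 320) .nil))))))) (.g (nat_lit 4) .nil .nil))) 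
(.lf (nat_lit 38265) (.g (nat_lit 2069) (.e (nat_lit 1221) (nat_lit 90) (.e (nat_lit 81959) (nat_lit 24) (.e (nat_lit 123195) (nat_lit 266) (.e (nat_lit 57413) (nat_lit 12) (.e (nat_lit 336112) (nat_lit 9) (.e (nat_lit 335997) (nat_lit 1) (.e (nat_lit 57870) (nat_lit 264) .nil))))))) (.g (nat_lit 4) .nil .nil)))))) (.nd (nat_lit 3) (.nd (nat_lit 4) (.nd (nat_lit 5) 
(.lf (nat_lit 38213) (.g (nat_lit 2367) (.e (nat_lit 1221) (nat_lit 90) (.e (nat_lit 81959) (nat_lit 24) (.e (nat_lit 123195) (nat_lit 266) (.e (nat_lit 57412) (nat_lit 12) (.e (nat_lit 336098) (nat_lit 9) (.e (nat_lit 335997) (nat_lit 1) (.e (nat_lit 57870) (nat_lit 264) .nil))))))) (.g (nat_lit 4) .nil .nil))) 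
(.lf (nat_lit 38245) (.g (nat_lit 2139) (.e (nat_lit 1221) (nat_lit 90) (.e (nat_lit 81959) (nat_lit 24) (.e (nat_lit 123195) (nat_lit 266) (.e (nat_lit 57413) (nat_lit 12) (.e (nat_lit 336073) (nat_lit 9) (.e (nat_lit 335997) (nat_lit 1) (.e (nat_lit 57872) (nat_lit 264) .nil))))))) (.g (nat_lit 4) .nil .nil)))) (.nd (nat_lit 5) 
(.lf (nat_lit 38229) (.g (nat_lit 1741) (.e (nat_lit 1221) (nat_lit 90) (.e (nat_lit 81959) (nat_lit 24) (.e (nat_lit 123195) (nat_lit 266) (.e (nat_lit 57412) (nat_lit 12) (.e (nat_lit 336176) (nat_lit 10) .nil))))) .nil)) 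
(.lf (nat_lit 38261) (.g (nat_lit 2145) (.e (nat_lit 1221) (nat_lit 90) (.e (nat_lit 81959) (nat_lit 24) (.e (nat_lit 123195) (nat_lit 266) (.e (nat_lit 57413) (nat_lit 12) (.e (nat_lit 336104) (nat_lit 9) (.e (nat_lit 335997) (nat_lit 1) (.e (nat_lit 57872) (nat_lit 264) .nil))))))) (.g (nat_lit 4) .nil .nil))))) (.nd (nat_lit 4) (.nd (nat_lit 5) 
(.lf (nat_lit 38221) (.g (nat_lit 2962) (.e (nat_lit 1221) (nat_lit 90) (.e (nat_lit 81959) (nat_lit 24) (.e (nat_lit 123195) (nat_lit 266) (.e (nat_lit 57412) (nat_lit 12) (.e (nat_lit 336111) (nat_lit 9) (.e (nat_lit 335997) (nat_lit 1) (.e (nat_lit 57870) (nat_lit 264) .nil))))))) (.g (nat_lit 6) .nil .nil))) 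
(.lf (nat_lit 38253) (.g (nat_lit 2296) (.e (nat_lit 1221) (nat_lit 90) (.e (nat_lit 81959) (nat_lit 24) (.e (nat_lit 123195) (nat_lit 266) (.e (nat_lit 57413) (nat_lit 12) (.e (nat_lit 336098) (nat_lit 9) (.e (nat_lit 335997) (nat_lit 1) (.e (nat_lit 57872) (nat_lit 264) .nil))))))) (.g (nat_lit 4) .nil .nil)))) (.nd (nat_lit 5) 
(.lf (nat_lit 38237) (.g (nat_lit 2473) (.e (nat_lit 1221) (nat_lit 90) (.e (nat_lit 81959) (nat_lit 24) (.e (nat_lit 123195) (nat_lit 266) (.e (nat_lit 57412) (nat_lit 12) (.e (nat_lit 336176) (nat_lit 10) (.e (nat_lit 344093) (nat_lit 18) (.e (nat_lit 5903) (nat_lit 320) .nil))))))) (.g (nat_lit 4) .nil .nil))) 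
(.lf (nat_lit 38269) (.g (nat_lit 2709) (.e (nat_lit 1221) (nat_lit 90) (.e (nat_lit 81959) (nat_lit 24) (.e (nat_lit 123195) (nat_lit 266) (.e (nat_lit 57413) (nat_lit 12) (.e (nat_lit 336164) (nat_lit 10) (.e (nat_lit 344097) (nat_lit 18) (.e (nat_lit 5907) (nat_lit 320) .nil))))))) (.g (nat_lit 4) .nil .nil))))))) (.nd (nat_lit 2) (.nd (nat_lit 3) (.nd (nat_lit 4) (.nd (nat_lit 5) 
(.lf (nat_lit 38211) (.g (nat_lit 2311) (.e (nat_lit 1221) (nat_lit 90) (.e (nat_lit 81959) (nat_lit 24) (.e (nat_lit 123195) (nat_lit 266) (.e (nat_lit 57412) (nat_lit 12) (.e (nat_lit 336096) (nat_lit 9) (.e (nat_lit 335997) (nat_lit 1) (.e (nat_lit 57870) (nat_lit 264) .nil))))))) (.g (nat_lit 4) .nil .nil))) 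
(.lf (nat_lit 38243) (.g (nat_lit 4371) (.e (nat_lit 1221) (nat_lit 90) (.e (nat_lit 81959) (nat_lit 24) (.e (nat_lit 123195) (nat_lit 266) (.e (nat_lit 57412) (nat_lit 12) (.e (nat_lit 336178) (nat_lit 10) (.e (nat_lit 344097) (nat_lit 18) (.e (nat_lit 5906) (nat_lit 320) .nil))))))) (.g (nat_lit 7) .nil .nil)))) (.nd (nat_lit 5) 
(.lf (nat_lit 38227) (.g (nat_lit 3993) (.e (nat_lit 1221) (nat_lit 90) (.e (nat_lit 81959) (nat_lit 24) (.e (nat_lit 123195) (nat_lit 266) (.e (nat_lit 57412) (nat_lit 12) (.e (nat_lit 336173) (nat_lit 10) (.e (nat_lit 344097) (nat_lit 18) (.e (nat_lit 5907) (nat_lit 320) .nil))))))) (.g (nat_lit 6) .nil .nil))) 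
(.lf (nat_lit 38259) (.g (nat_lit 2246) (.e (nat_lit 1221) (nat_lit 90) (.e (nat_lit 81959) (nat_lit 24) (.e (nat_lit 123195) (nat_lit 266) (.e (nat_lit 57413) (nat_lit 12) (.e (nat_lit 336103) (nat_lit 9) (.e (nat_lit 335997) (nat_lit 1) (.e (nat_lit 57872) (nat_lit 264) .nil))))))) (.g (nat_lit 4) .nil .nil))))) (.nd (nat_lit 4) (.nd (nat_lit 5) 
(.lf (nat_lit 38219) (.g (nat_lit 2372) (.e (nat_lit 1221) (nat_lit 90) (.e (nat_lit 81959) (nat_lit 24) (.e (nat_lit 123195) (nat_lit 266) (.e (nat_lit 57412) (nat_lit 12) (.e (nat_lit 336103) (nat_lit 9) (.e (nat_lit 335997) (nat_lit 1) (.e (nat_lit 57870) (nat_lit 264) .nil))))))) (.g (nat_lit 4) .nil .nil))) 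
(.lf (nat_lit 38251) (.g (nat_lit 2263) (.e (nat_lit 1221) (nat_lit 90) (.e (nat_lit 81959) (nat_lit 24) (.e (nat_lit 123195) (nat_lit 266) (.e (nat_lit 57413) (nat_lit 12) (.e (nat_lit 336096) (nat_lit 9) (.e (nat_lit 335997) (nat_lit 1) (.e (nat_lit 57872) (nat_lit 264) .nil))))))) (.g (nat_lit 4) .nil .nil)))) (.nd (nat_lit 5) 
(.lf (nat_lit 38235) (.g (nat_lit 2334) (.e (nat_lit 1221) (nat_lit 90) (.e (nat_lit 81959) (nat_lit 24) (.e (nat_lit 123195) (nat_lit 266) (.e (nat_lit 57412) (nat_lit 12) (.e (nat_lit 336176) (nat_lit 10) (.e (nat_lit 344093) (nat_lit 18) (.e (nat_lit 5856) (nat_lit 320) .nil))))))) (.g (nat_lit 4) .nil .nil))) 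
(.lf (nat_lit 38267) (.g (nat_lit 2302) (.e (nat_lit 1221) (nat_lit 90) (.e (nat_lit 81959) (nat_lit 24) (.e (nat_lit 123195) (nat_lit 266) (.e (nat_lit 57413) (nat_lit 12) (.e (nat_lit 336140) (nat_lit 9) (.e (nat_lit 335995) (nat_lit 1) (.e (nat_lit 57870) (nat_lit 264) .nil))))))) (.g (nat_lit 4) .nil .nil)))))) (.nd (nat_lit 3) (.nd (nat_lit 4) (.nd (nat_lit 5) 
(.lf (nat_lit 38215) (.g (nat_lit 4051) (.e (nat_lit 1221) (nat_lit 90) (.e (nat_lit 81959) (nat_lit 24) (.e (nat_lit 123195) (nat_lit 266) (.e (nat_lit 57412) (nat_lit 12) (.e (nat_lit 336099) (nat_lit 9) (.e (nat_lit 335997) (nat_lit 1) (.e (nat_lit 57870) (nat_lit 264) .nil))))))) (.g (nat_lit 0) .nil .nil))) 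
(.lf (nat_lit 38247) (.g (nat_lit 2224) (.e (nat_lit 1221) (nat_lit 90) (.e (nat_lit 81959) (nat_lit 24) (.e (nat_lit 123195) (nat_lit 266) (.e (nat_lit 57413) (nat_lit 12) (.e (nat_lit 336094) (nat_lit 9) (.e (nat_lit 335997) (nat_lit 1) (.e (nat_lit 57872) (nat_lit 264) .nil))))))) (.g (nat_lit 4) .nil .nil)))) (.nd (nat_lit 5) 
(.lf (nat_lit 38231) (.g (nat_lit 2903) (.e (nat_lit 1221) (nat_lit 90) (.e (nat_lit 81959) (nat_lit 24) (.e (nat_lit 123195) (nat_lit 266) (.e (nat_lit 57412) (nat_lit 12) (.e (nat_lit 336176) (nat_lit 10) (.e (nat_lit 344087) (nat_lit 18) (.e (nat_lit 5902) (nat_lit 320) .nil))))))) (.g (nat_lit 5) .nil .nil))) 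
(.lf (nat_lit 38263) (.g (nat_lit 2410) (.e (nat_lit 1221) (nat_lit 90) (.e (nat_lit 81959) (nat_lit 24) (.e (nat_lit 123195) (nat_lit 266) (.e (nat_lit 57413) (nat_lit 12) (.e (nat_lit 336109) (nat_lit 9) (.e (nat_lit 335997) (nat_lit 1) (.e (nat_lit 57872) (nat_lit 264) .nil))))))) (.g (nat_lit 4) .nil .nil))))) (.nd (nat_lit 4) (.nd (nat_lit 5) 
(.lf (nat_lit 38223) (.g (nat_lit 2965) (.e (nat_lit 1221) (nat_lit 90) (.e (nat_lit 81959) (nat_lit 24) (.e (nat_lit 123195) (nat_lit 266) (.e (nat_lit 57412) (nat_lit 12) (.e (nat_lit 336163) (nat_lit 10) (.e (nat_lit 344097) (nat_lit 18) (.e (nat_lit 5906) (nat_lit 320) .nil))))))) (.g (nat_lit 5) .nil .nil))) 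
(.lf (nat_lit 38255) (.g (nat_lit 2822) (.e (nat_lit 1221) (nat_lit 90) (.e (nat_lit 81959) (nat_lit 24) (.e (nat_lit 123195) (nat_lit 266) (.e (nat_lit 57413) (nat_lit 12) (.e (nat_lit 336099) (nat_lit 9) (.e (nat_lit 335997) (nat_lit 1) (.e (nat_lit 57872) (nat_lit 264) .nil))))))) (.g (nat_lit 5) .nil .nil)))) (.nd (nat_lit 5) 
(.lf (nat_lit 38239) (.g (nat_lit 4729) (.e (nat_lit 1221) (nat_lit 90) (.e (nat_lit 81959) (nat_lit 24) (.e (nat_lit 123195) (nat_lit 266) (.e (nat_lit 57412) (nat_lit 12) (.e (nat_lit 336176) (nat_lit 10) (.e (nat_lit 344097) (nat_lit 18) (.e (nat_lit 5906) (nat_lit 320) .nil))))))) (.g (nat_lit 0) .nil .nil))) 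
(.lf (nat_lit 38271) (.g (nat_lit 1692) (.e (nat_lit 1221) (nat_lit 90) (.e (nat_lit 81959) (nat_lit 24) (.e (nat_lit 123195) (nat_lit 266) (.e (nat_lit 57415) (nat_lit 12) .nil)))) .nil))))))))

noncomputable def tv531 : DT := (.nd (nat_lit 0) (.nd (nat_lit 1) (.nd (nat_lit 2) (.nd (nat_lit 3) (.nd (nat_lit 4) (.nd (nat_lit 5) 
(.lf (nat_lit 38272) (.g (nat_lit 2768) (.e (nat_lit 1221) (nat_lit 90) (.e (nat_lit 81959) (nat_lit 24) (.e (nat_lit 123195) (nat_lit 266) (.e (nat_lit 57417) (nat_lit 12) (.e (nat_lit 335872) (nat_lit 0) (.e (nat_lit 6202) (nat_lit 332) (.e (nat_lit 2540) (nat_lit 158) (.e (nat_lit 8439) (nat_lit 138) .nil)))))))) (.g (nat_lit 4) .nil .nil))) 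
(.lf (nat_lit 38304) (.g (nat_lit 3331) (.e (nat_lit 1221) (nat_lit 90) (.e (nat_lit 81959) (nat_lit 24) (.e (nat_lit 123195) (nat_lit 266) (.e (nat_lit 57427) (nat_lit 15) (.e (nat_lit 360448) (nat_lit 0) (.e (nat_lit 5903) (nat_lit 320) .nil)))))) (.g (nat_lit 5) .nil .nil)))) (.nd (nat_lit 5) 
(.lf (nat_lit 38288) (.g (nat_lit 2901) (.e (nat_lit 1221) (nat_lit 90) (.e (nat_lit 81959) (nat_lit 24) (.e (nat_lit 123195) (nat_lit 266) (.e (nat_lit 57424) (nat_lit 14) (.e (nat_lit 352309) (nat_lit 21) (.e (nat_lit 57873) (nat_lit 264) .nil)))))) (.g (nat_lit 4) .nil .nil))) 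
(.lf (nat_lit 38320) (.g (nat_lit 2276) (.e (nat_lit 1221) (nat_lit 90) (.e (nat_lit 81959) (nat_lit 24) (.e (nat_lit 123195) (nat_lit 266) (.e (nat_lit 57435) (nat_lit 17) (.e (nat_lit 376856) (nat_lit 21) .nil))))) .nil)))) (.nd (nat_lit 4) (.nd (nat_lit 5) 
(.lf (nat_lit 38280) (.g (nat_lit 2261) (.e (nat_lit 1221) (nat_lit 90) (.e (nat_lit 81959) (nat_lit 24) (.e (nat_lit 123195) (nat_lit 266) (.e (nat_lit 57423) (nat_lit 14) (.e (nat_lit 352308) (nat_lit 21) .nil))))) .nil)) 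
(.lf (nat_lit 38312) (.g (nat_lit 2426) (.e (nat_lit 1221) (nat_lit 90) (.e (nat_lit 81959) (nat_lit 24) (.e (nat_lit 123195) (nat_lit 266) (.e (nat_lit 57427) (nat_lit 15) (.e (nat_lit 368384) (nat_lit 0) (.e (nat_lit 5907) (nat_lit 320) .nil)))))) (.g (nat_lit 4) .nil .nil)))) (.nd (nat_lit 5) 
(.lf (nat_lit 38296) (.g (nat_lit 3040) (.e (nat_lit 1221) (nat_lit 90) (.e (nat_lit 81959) (nat_lit 24) (.e (nat_lit 123195) (nat_lit 266) (.e (nat_lit 57426) (nat_lit 15) (.e (nat_lit 368384) (nat_lit 0) (.e (nat_lit 5909) (nat_lit 320) .nil)))))) (.g (nat_lit 4) .nil .nil))) 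
(.lf (nat_lit 38328) (.g (nat_lit 4402) (.e (nat_lit 1221) (nat_lit 90) (.e (nat_lit 81959) (nat_lit 24) (.e (nat_lit 123195) (nat_lit 266) (.e (nat_lit 57436) (nat_lit 17) (.e (nat_lit 376860) (nat_lit 21) (.e (nat_lit 57870) (nat_lit 264) .nil)))))) (.g (nat_lit 0) .nil .nil)))))) (.nd (nat_lit 3) (.nd (nat_lit 4) (.nd (nat_lit 5) 
(.lf (nat_lit 38276) (.g (nat_lit 2489) (.e (nat_lit 1221) (nat_lit 90) (.e (nat_lit 81959) (nat_lit 24) (.e (nat_lit 123195) (nat_lit 266) (.e (nat_lit 57423) (nat_lit 14) (.e (nat_lit 352301) (nat_lit 20) .nil))))) .nil)) 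
(.lf (nat_lit 38308) (.g (nat_lit 3622) (.e (nat_lit 1221) (nat_lit 90) (.e (nat_lit 81959) (nat_lit 24) (.e (nat_lit 123195) (nat_lit 266) (.e (nat_lit 57427) (nat_lit 15) (.e (nat_lit 360451) (nat_lit 0) (.e (nat_lit 7936) (nat_lit 320) .nil)))))) (.g (nat_lit 5) .nil .nil)))) (.nd (nat_lit 5) 
(.lf (nat_lit 38292) (.g (nat_lit 2635) (.e (nat_lit 1221) (nat_lit 90) (.e (nat_lit 81959) (nat_lit 24) (.e (nat_lit 123195) (nat_lit 266) (.e (nat_lit 57425) (nat_lit 14) (.e (nat_lit 352309) (nat_lit 21) (.e (nat_lit 57871) (nat_lit 264) .nil)))))) (.g (nat_lit 4) .nil .nil))) 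
(.lf (nat_lit 38324) (.g (nat_lit 2410) (.e (nat_lit 1221) (nat_lit 90) (.e (nat_lit 81959) (nat_lit 24) (.e (nat_lit 123195) (nat_lit 266) (.e (nat_lit 57436) (nat_lit 17) (.e (nat_lit 376856) (nat_lit 21) (.e (nat_lit 57872) (nat_lit 264) .nil)))))) (.g (nat_lit 4) .nil .nil))))) (.nd (nat_lit 4) (.nd (nat_lit 5) 
(.lf (nat_lit 38284) (.g (nat_lit 3348) (.e (nat_lit 1221) (nat_lit 90) (.e (nat_lit 81959) (nat_lit 24) (.e (nat_lit 123195) (nat_lit 266) (.e (nat_lit 57423) (nat_lit 14) (.e (nat_lit 352309) (nat_lit 21) (.e (nat_lit 57873) (nat_lit 264) .nil)))))) (.g (nat_lit 4) .nil .nil))) 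
(.lf (nat_lit 38316) (.g (nat_lit 2157) (.e (nat_lit 1221) (nat_lit 90) (.e (nat_lit 81959) (nat_lit 24) (.e (nat_lit 123195) (nat_lit 266) (.e (nat_lit 57428) (nat_lit 15) (.e (nat_lit 360457) (nat_lit 0) (.e (nat_lit 5902) (nat_lit 320) .nil)))))) (.g (nat_lit 4) .nil .nil)))) (.nd (nat_lit 5) 
(.lf (nat_lit 38300) (.g (nat_lit 3126) (.e (nat_lit 1221) (nat_lit 90) (.e (nat_lit 81959) (nat_lit 24) (.e (nat_lit 123195) (nat_lit 266) (.e (nat_lit 57427) (nat_lit 15) (.e (nat_lit 360448) (nat_lit 0) (.e (nat_lit 5864) (nat_lit 320) .nil)))))) (.g (nat_lit 4) .nil .nil))) 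
(.lf (nat_lit 38332) (.g (nat_lit 2454) (.e (nat_lit 1221) (nat_lit 90) (.e (nat_lit 81959) (nat_lit 24) (.e (nat_lit 123196) (nat_lit 266) (.e (nat_lit 57423) (nat_lit 14) (.e (nat_lit 352309) (nat_lit 21) (.e (nat_lit 57870) (nat_lit 264) .nil)))))) (.g (nat_lit 5) .nil .nil))))))) (.nd (nat_lit 2) (.nd (nat_lit 3) (.nd (nat_lit 4) (.nd (nat_lit 5) 
(.lf (nat_lit 38274) (.g (nat_lit 2423) (.e (nat_lit 1221) (nat_lit 90) (.e (nat_lit 81959) (nat_lit 24) (.e (nat_lit 123195) (nat_lit 266) (.e (nat_lit 57423) (nat_lit 14) (.e (nat_lit 352261) (nat_lit 0) .nil))))) .nil)) 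
(.lf (nat_lit 38306) (.g (nat_lit 3142) (.e (nat_lit 1221) (nat_lit 90) (.e (nat_lit 81959) (nat_lit 24) (.e (nat_lit 123195) (nat_lit 266) (.e (nat_lit 57427) (nat_lit 15) (.e (nat_lit 360448) (nat_lit 0) (.e (nat_lit 5908) (nat_lit 320) .nil)))))) (.g (nat_lit 5) .nil .nil)))) (.nd (nat_lit 5) 
(.lf (nat_lit 38290) (.g (nat_lit 2665) (.e (nat_lit 1221) (nat_lit 90) (.e (nat_lit 81959) (nat_lit 24) (.e (nat_lit 123195) (nat_lit 266) (.e (nat_lit 57425) (nat_lit 14) (.e (nat_lit 352307) (nat_lit 21) (.e (nat_lit 57873) (nat_lit 264) .nil)))))) (.g (nat_lit 4) .nil .nil))) 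
(.lf (nat_lit 38322) (.g (nat_lit 3345) (.e (nat_lit 1221) (nat_lit 90) (.e (nat_lit 81959) (nat_lit 24) (.e (nat_lit 123195) (nat_lit 266) (.e (nat_lit 57435) (nat_lit 17) (.e (nat_lit 376857) (nat_lit 21) (.e (nat_lit 57872) (nat_lit 264) .nil)))))) (.g (nat_lit 5) .nil .nil))))) (.nd (nat_lit 4) (.nd (nat_lit 5) 
(.lf (nat_lit 38282) (.g (nat_lit 3337) (.e (nat_lit 1221) (nat_lit 90) (.e (nat_lit 81959) (nat_lit 24) (.e (nat_lit 123195) (nat_lit 266) (.e (nat_lit 57423) (nat_lit 14) (.e (nat_lit 352309) (nat_lit 21) (.e (nat_lit 57870) (nat_lit 264) .nil)))))) (.g (nat_lit 6) .nil .nil))) 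
(.lf (nat_lit 38314) (.g (nat_lit 3012) (.e (nat_lit 1221) (nat_lit 90) (.e (nat_lit 81959) (nat_lit 24) (.e (nat_lit 123195) (nat_lit 266) (.e (nat_lit 57428) (nat_lit 15) (.e (nat_lit 360452) (nat_lit 0) (.e (nat_lit 5905) (nat_lit 320) .nil)))))) (.g (nat_lit 5) .nil .nil)))) (.nd (nat_lit 5) 
(.lf (nat_lit 38298) (.g (nat_lit 3356) (.e (nat_lit 1221) (nat_lit 90) (.e (nat_lit 81959) (nat_lit 24) (.e (nat_lit 123195) (nat_lit 266) (.e (nat_lit 57427) (nat_lit 15) (.e (nat_lit 360448) (nat_lit 0) (.e (nat_lit 5857) (nat_lit 320) .nil)))))) (.g (nat_lit 5) .nil .nil))) 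
(.lf (nat_lit 38330) (.g (nat_lit 2572) (.e (nat_lit 1221) (nat_lit 90) (.e (nat_lit 81959) (nat_lit 24) (.e (nat_lit 123195) (nat_lit 266) (.e (nat_lit 57438) (nat_lit 17) (.e (nat_lit 376857) (nat_lit 21) (.e (nat_lit 57873) (nat_lit 264) .nil)))))) (.g (nat_lit 4) .nil .nil)))))) (.nd (nat_lit 3) (.nd (nat_lit 4) (.nd (nat_lit 5) 
(.lf (nat_lit 38278) (.g (nat_lit 2966) (.e (nat_lit 1221) (nat_lit 90) (.e (nat_lit 81959) (nat_lit 24) (.e (nat_lit 123195) (nat_lit 266) (.e (nat_lit 57423) (nat_lit 14) (.e (nat_lit 352307) (nat_lit 21) (.e (nat_lit 57872) (nat_lit 264) .nil)))))) (.g (nat_lit 4) .nil .nil))) 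
(.lf (nat_lit 38310) (.g (nat_lit 3028) (.e (nat_lit 1221) (nat_lit 90) (.e (nat_lit 81959) (nat_lit 24) (.e (nat_lit 123195) (nat_lit 266) (.e (nat_lit 57427) (nat_lit 15) (.e (nat_lit 360454) (nat_lit 0) (.e (nat_lit 5905) (nat_lit 320) .nil)))))) (.g (nat_lit 5) .nil .nil)))) (.nd (nat_lit 5) 
(.lf (nat_lit 38294) (.g (nat_lit 4567) (.e (nat_lit 1221) (nat_lit 90) (.e (nat_lit 81959) (nat_lit 24) (.e (nat_lit 123195) (nat_lit 266) (.e (nat_lit 57426) (nat_lit 15) (.e (nat_lit 360452) (nat_lit 0) (.e (nat_lit 5906) (nat_lit 320) .nil)))))) (.g (nat_lit 0) .nil .nil))) 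
(.lf (nat_lit 38326) (.g (nat_lit 3677) (.e (nat_lit 1221) (nat_lit 90) (.e (nat_lit 81959) (nat_lit 24) (.e (nat_lit 123195) (nat_lit 266) (.e (nat_lit 57436) (nat_lit 17) (.e (nat_lit 376859) (nat_lit 21) (.e (nat_lit 57870) (nat_lit 264) .nil)))))) (.g (nat_lit 6) .nil .nil))))) (.nd (nat_lit 4) (.nd (nat_lit 5) 
(.lf (nat_lit 38286) (.g (nat_lit 1982) (.e (nat_lit 1221) (nat_lit 90) (.e (nat_lit 81959) (nat_lit 24) (.e (nat_lit 123195) (nat_lit 266) (.e (nat_lit 57424) (nat_lit 14) (.e (nat_lit 352308) (nat_lit 21) .nil))))) .nil)) 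
(.lf (nat_lit 38318) (.g (nat_lit 1434) (.e (nat_lit 1221) (nat_lit 90) (.e (nat_lit 81959) (nat_lit 24) (.e (nat_lit 123195) (nat_lit 266) (.e (nat_lit 57434) (nat_lit 17) .nil)))) .nil))) (.nd (nat_lit 5) 
(.lf (nat_lit 38302) (.g (nat_lit 2857) (.e (nat_lit 1221) (nat_lit 90) (.e (nat_lit 81959) (nat_lit 24) (.e (nat_lit 123195) (nat_lit 266) (.e (nat_lit 57427) (nat_lit 15) (.e (nat_lit 360448) (nat_lit 0) (.e (nat_lit 5897) (nat_lit 320) .nil)))))) (.g (nat_lit 4) .nil .nil))) 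
(.lf (nat_lit 38334) (.g (nat_lit 2622) (.e (nat_lit 1221) (nat_lit 90) (.e (nat_lit 81959) (nat_lit 24) (.e (nat_lit 123196) (nat_lit 266) (.e (nat_lit 57424) (nat_lit 14) (.e (nat_lit 352309) (nat_lit 21) (.e (nat_lit 57870) (nat_lit 264) .nil)))))) (.g (nat_lit 5) .nil .nil)))))))) (.nd (nat_lit 1) (.nd (nat_lit 2) (.nd (nat_lit 3) (.nd (nat_lit 4) (.nd (nat_lit 5) 
(.lf (nat_lit 38273) (.g (nat_lit 1319) (.e (nat_lit 1221) (nat_lit 90) (.e (nat_lit 81959) (nat_lit 24) (.e (nat_lit 123195) (nat_lit 266) (.e (nat_lit 65280) (nat_lit 12) .nil)))) .nil)) 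
(.lf (nat_lit 38305) (.g (nat_lit 3890) (.e (nat_lit 1221) (nat_lit 90) (.e (nat_lit 81959) (nat_lit 24) (.e (nat_lit 123195) (nat_lit 266) (.e (nat_lit 57427) (nat_lit 15) (.e (nat_lit 360448) (nat_lit 0) (.e (nat_lit 5906) (nat_lit 320) .nil)))))) (.g (nat_lit 0) .nil .nil)))) (.nd (nat_lit 5) 
(.lf (nat_lit 38289) (.g (nat_lit 2177) (.e (nat_lit 1221) (nat_lit 90) (.e (nat_lit 81959) (nat_lit 24) (.e (nat_lit 123195) (nat_lit 266) (.e (nat_lit 57425) (nat_lit 14) (.e (nat_lit 352307) (nat_lit 21) (.e (nat_lit 57870) (nat_lit 264) .nil)))))) (.g (nat_lit 5) .nil .nil))) 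
(.lf (nat_lit 38321) (.g (nat_lit 2522) (.e (nat_lit 1221) (nat_lit 90) (.e (nat_lit 81959) (nat_lit 24) (.e (nat_lit 123195) (nat_lit 266) (.e (nat_lit 57435) (nat_lit 17) (.e (nat_lit 376857) (nat_lit 21) (.e (nat_lit 57870) (nat_lit 264) .nil)))))) (.g (nat_lit 4) .nil .nil))))) (.nd (nat_lit 4) (.nd (nat_lit 5) 
(.lf (nat_lit 38281) (.g (nat_lit 2624) (.e (nat_lit 1221) (nat_lit 90) (.e (nat_lit 81959) (nat_lit 24) (.e (nat_lit 123195) (nat_lit 266) (.e (nat_lit 57423) (nat_lit 14) (.e (nat_lit 352308) (nat_lit 21) (.e (nat_lit 57872) (nat_lit 264) .nil)))))) (.g (nat_lit 4) .nil .nil))) 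
(.lf (nat_lit 38313) (.g (nat_lit 2684) (.e (nat_lit 1221) (nat_lit 90) (.e (nat_lit 81959) (nat_lit 24) (.e (nat_lit 123195) (nat_lit 266) (.e (nat_lit 57427) (nat_lit 15) (.e (nat_lit 368384) (nat_lit 0) (.e (nat_lit 5909) (nat_lit 320) .nil)))))) (.g (nat_lit 4) .nil .nil)))) (.nd (nat_lit 5) 
(.lf (nat_lit 38297) (.g (nat_lit 3121) (.e (nat_lit 1221) (nat_lit 90) (.e (nat_lit 81959) (nat_lit 24) (.e (nat_lit 123195) (nat_lit 266) (.e (nat_lit 57427) (nat_lit 15) (.e (nat_lit 360448) (nat_lit 0) (.e (nat_lit 5856) (nat_lit 320) .nil)))))) (.g (nat_lit 4) .nil .nil))) 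
(.lf (nat_lit 38329) (.g (nat_lit 3091) (.e (nat_lit 1221) (nat_lit 90) (.e (nat_lit 81959) (nat_lit 24) (.e (nat_lit 123195) (nat_lit 266) (.e (nat_lit 57438) (nat_lit 17) (.e (nat_lit 376857) (nat_lit 21) (.e (nat_lit 57870) (nat_lit 264) .nil)))))) (.g (nat_lit 0) .nil .nil)))))) (.nd (nat_lit 3) (.nd (nat_lit 4) (.nd (nat_lit 5) 
(.lf (nat_lit 38277) (.g (nat_lit 2369) (.e (nat_lit 1221) (nat_lit 90) (.e (nat_lit 81959) (nat_lit 24) (.e (nat_lit 123195) (nat_lit 266) (.e (nat_lit 57423) (nat_lit 14) (.e (nat_lit 352307) (nat_lit 21) .nil))))) .nil)) 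
(.lf (nat_lit 38309) (.g (nat_lit 3156) (.e (nat_lit 1221) (nat_lit 90) (.e (nat_lit 81959) (nat_lit 24) (.e (nat_lit 123195) (nat_lit 266) (.e (nat_lit 57427) (nat_lit 15) (.e (nat_lit 360453) (nat_lit 0) (.e (nat_lit 5907) (nat_lit 320) .nil)))))) (.g (nat_lit 4) .nil .nil)))) (.nd (nat_lit 5) 
(.lf (nat_lit 38293) (.g (nat_lit 1319) (.e (nat_lit 1221) (nat_lit 90) (.e (nat_lit 81959) (nat_lit 24) (.e (nat_lit 123195) (nat_lit 266) (.e (nat_lit 65280) (nat_lit 14) .nil)))) .nil)) 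
(.lf (nat_lit 38325) (.g (nat_lit 2220) (.e (nat_lit 1221) (nat_lit 90) (.e (nat_lit 81959) (nat_lit 24) (.e (nat_lit 123195) (nat_lit 266) (.e (nat_lit 57436) (nat_lit 17) (.e (nat_lit 376857) (nat_lit 21) .nil))))) .nil)))) (.nd (nat_lit 4) (.nd (nat_lit 5) 
(.lf (nat_lit 38285) (.g (nat_lit 2810) (.e (nat_lit 1221) (nat_lit 90) (.e (nat_lit 81959) (nat_lit 24) (.e (nat_lit 123195) (nat_lit 266) (.e (nat_lit 57424) (nat_lit 14) (.e (nat_lit 352307) (nat_lit 21) (.e (nat_lit 57872) (nat_lit 264) .nil)))))) (.g (nat_lit 5) .nil .nil))) 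
(.lf (nat_lit 38317) (.g (nat_lit 2011) (.e (nat_lit 1221) (nat_lit 90) (.e (nat_lit 81959) (nat_lit 24) (.e (nat_lit 123195) (nat_lit 266) (.e (nat_lit 57431) (nat_lit 16) (.e (nat_lit 376576) (nat_lit 13) .nil))))) .nil))) (.nd (nat_lit 5) 
(.lf (nat_lit 38301) (.g (nat_lit 3272) (.e (nat_lit 1221) (nat_lit 90) (.e (nat_lit 81959) (nat_lit 24) (.e (nat_lit 123195) (nat_lit 266) (.e (nat_lit 57427) (nat_lit 15) (.e (nat_lit 360448) (nat_lit 0) (.e (nat_lit 5865) (nat_lit 320) .nil)))))) (.g (nat_lit 5) .nil .nil))) 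
(.lf (nat_lit 38333) (.g (nat_lit 2218) (.e (nat_lit 1221) (nat_lit 90) (.e (nat_lit 81959) (nat_lit 24) (.e (nat_lit 123196) (nat_lit 266) (.e (nat_lit 57423) (nat_lit 14) (.e (nat_lit 352309) (nat_lit 21) (.e (nat_lit 57871) (nat_lit 264) .nil)))))) (.g (nat_lit 4) .nil .nil))))))) (.nd (nat_lit 2) (.nd (nat_lit 3) (.nd (nat_lit 4) (.nd (nat_lit 5) 
(.lf (nat_lit 38275) (.g (nat_lit 2489) (.e (nat_lit 1221) (nat_lit 90) (.e (nat_lit 81959) (nat_lit 24) (.e (nat_lit 123195) (nat_lit 266) (.e (nat_lit 57423) (nat_lit 14) (.e (nat_lit 352295) (nat_lit 20) .nil))))) .nil)) 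
(.lf (nat_lit 38307) (.g (nat_lit 4368) (.e (nat_lit 1221) (nat_lit 90) (.e (nat_lit 81959) (nat_lit 24) (.e (nat_lit 123195) (nat_lit 266) (.e (nat_lit 57427) (nat_lit 15) (.e (nat_lit 360450) (nat_lit 0) (.e (nat_lit 7936) (nat_lit 320) .nil)))))) (.g (nat_lit 5) .nil .nil)))) (.nd (nat_lit 5) 
(.lf (nat_lit 38291) (.g (nat_lit 2897) (.e (nat_lit 1221) (nat_lit 90) (.e (nat_lit 81959) (nat_lit 24) (.e (nat_lit 123195) (nat_lit 266) (.e (nat_lit 57425) (nat_lit 14) (.e (nat_lit 352309) (nat_lit 21) (.e (nat_lit 57870) (nat_lit 264) .nil)))))) (.g (nat_lit 0) .nil .nil))) 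
(.lf (nat_lit 38323) (.g (nat_lit 2357) (.e (nat_lit 1221) (nat_lit 90) (.e (nat_lit 81959) (nat_lit 24) (.e (nat_lit 123195) (nat_lit 266) (.e (nat_lit 57435) (nat_lit 17) (.e (nat_lit 376859) (nat_lit 21) (.e (nat_lit 57870) (nat_lit 264) .nil)))))) (.g (nat_lit 4) .nil .nil))))) (.nd (nat_lit 4) (.nd (nat_lit 5) 
(.lf (nat_lit 38283) (.g (nat_lit 2950) (.e (nat_lit 1221) (nat_lit 90) (.e (nat_lit 81959) (nat_lit 24) (.e (nat_lit 123195) (nat_lit 266) (.e (nat_lit 57423) (nat_lit 14) (.e (nat_lit 352309) (nat_lit 21) (.e (nat_lit 57871) (nat_lit 264) .nil)))))) (.g (nat_lit 4) .nil .nil))) 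
(.lf (nat_lit 38315) (.g (nat_lit 3012) (.e (nat_lit 1221) (nat_lit 90) (.e (nat_lit 81959) (nat_lit 24) (.e (nat_lit 123195) (nat_lit 266) (.e (nat_lit 57428) (nat_lit 15) (.e (nat_lit 360452) (nat_lit 0) (.e (nat_lit 5906) (nat_lit 320) .nil)))))) (.g (nat_lit 5) .nil .nil)))) (.nd (nat_lit 5) 
(.lf (nat_lit 38299) (.g (nat_lit 3101) (.e (nat_lit 1221) (nat_lit 90) (.e (nat_lit 81959) (nat_lit 24) (.e (nat_lit 123195) (nat_lit 266) (.e (nat_lit 57427) (nat_lit 15) (.e (nat_lit 360448) (nat_lit 0) (.e (nat_lit 5863) (nat_lit 320) .nil)))))) (.g (nat_lit 4) .nil .nil))) 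
(.lf (nat_lit 38331) (.g (nat_lit 312) (.e (nat_lit 1221) (nat_lit 90) (.e (nat_lit 81959) (nat_lit 24) (.e (nat_lit 123196) (nat_lit 266) .nil))) .nil))))) (.nd (nat_lit 3) (.nd (nat_lit 4) (.nd (nat_lit 5) 
(.lf (nat_lit 38279) (.g (nat_lit 2734) (.e (nat_lit 1221) (nat_lit 90) (.e (nat_lit 81959) (nat_lit 24) (.e (nat_lit 123195) (nat_lit 266) (.e (nat_lit 57423) (nat_lit 14) (.e (nat_lit 352307) (nat_lit 21) (.e (nat_lit 57873) (nat_lit 264) .nil)))))) (.g (nat_lit 4) .nil .nil))) 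
(.lf (nat_lit 38311) (.g (nat_lit 3108) (.e (nat_lit 1221) (nat_lit 90) (.e (nat_lit 81959) (nat_lit 24) (.e (nat_lit 123195) (nat_lit 266) (.e (nat_lit 57427) (nat_lit 15) (.e (nat_lit 360457) (nat_lit 0) (.e (nat_lit 5902) (nat_lit 320) .nil)))))) (.g (nat_lit 4) .nil .nil)))) (.nd (nat_lit 5) 
(.lf (nat_lit 38295) (.g (nat_lit 4997) (.e (nat_lit 1221) (nat_lit 90) (.e (nat_lit 81959) (nat_lit 24) (.e (nat_lit 123195) (nat_lit 266) (.e (nat_lit 57426) (nat_lit 15) (.e (nat_lit 360452) (nat_lit 0) (.e (nat_lit 5907) (nat_lit 320) .nil)))))) (.g (nat_lit 0) .nil .nil))) 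
(.lf (nat_lit 38327) (.g (nat_lit 3097) (.e (nat_lit 1221) (nat_lit 90) (.e (nat_lit 81959) (nat_lit 24) (.e (nat_lit 123195) (nat_lit 266) (.e (nat_lit 57436) (nat_lit 17) (.e (nat_lit 376859) (nat_lit 21) (.e (nat_lit 57873) (nat_lit 264) .nil)))))) (.g (nat_lit 4) .nil .nil))))) (.nd (nat_lit 4) (.nd (nat_lit 5) 
(.lf (nat_lit 38287) (.g (nat_lit 2869) (.e (nat_lit 1221) (nat_lit 90) (.e (nat_lit 81959) (nat_lit 24) (.e (nat_lit 123195) (nat_lit 266) (.e (nat_lit 57424) (nat_lit 14) (.e (nat_lit 352309) (nat_lit 21) (.e (nat_lit 57871) (nat_lit 264) .nil)))))) (.g (nat_lit 4) .nil .nil))) 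
(.lf (nat_lit 38319) (.g (nat_lit 2559) (.e (nat_lit 1221) (nat_lit 90) (.e (nat_lit 81959) (nat_lit 24) (.e (nat_lit 123195) (nat_lit 266) (.e (nat_lit 57434) (nat_lit 17) (.e (nat_lit 376859) (nat_lit 21) (.e (nat_lit 57870) (nat_lit 264) .nil)))))) (.g (nat_lit 5) .nil .nil)))) (.nd (nat_lit 5) 
(.lf (nat_lit 38303) (.g (nat_lit 3078) (.e (nat_lit 1221) (nat_lit 90) (.e (nat_lit 81959) (nat_lit 24) (.e (nat_lit 123195) (nat_lit 266) (.e (nat_lit 57427) (nat_lit 15) (.e (nat_lit 360448) (nat_lit 0) (.e (nat_lit 5900) (nat_lit 320) .nil)))))) (.g (nat_lit 4) .nil .nil))) 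
(.lf (nat_lit 38335) (.g (nat_lit 2414) (.e (nat_lit 1221) (nat_lit 90) (.e (nat_lit 81959) (nat_lit 24) (.e (nat_lit 123196) (nat_lit 266) (.e (nat_lit 57424) (nat_lit 14) (.e (nat_lit 352309) (nat_lit 21) (.e (nat_lit 57871) (nat_lit 264) .nil)))))) (.g (nat_lit 4) .nil .nil)))))))))

noncomputable def tv532 : DT := (.nd (nat_lit 0) (.nd (nat_lit 1) (.nd (nat_lit 2) (.nd (nat_lit 3) (.nd (nat_lit 4) (.nd (nat_lit 5) 
(.lf (nat_lit 38336) (.g (nat_lit 1999) (.e (nat_lit 1221) (nat_lit 90) (.e (nat_lit 81959) (nat_lit 24) (.e (nat_lit 123196) (nat_lit 266) (.e (nat_lit 57426) (nat_lit 15) (.e (nat_lit 368384) (nat_lit 0) (.e (nat_lit 5909) (nat_lit 320) .nil)))))) (.g (nat_lit 4) .nil .nil))) 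
(.lf (nat_lit 38368) (.g (nat_lit 3733) (.e (nat_lit 1221) (nat_lit 90) (.e (nat_lit 81959) (nat_lit 24) (.e (nat_lit 123229) (nat_lit 282) (.e (nat_lit 163896) (nat_lit 10) (.e (nat_lit 409649) (nat_lit 18) (.e (nat_lit 303111) (nat_lit 0) (.e (nat_lit 2425) (nat_lit 157) (.e (nat_lit 4616) (nat_lit 269) .nil)))))))) (.g (nat_lit 6) .nil .nil)))) (.nd (nat_lit 5) 
(.lf (nat_lit 38352) (.g (nat_lit 3204) (.e (nat_lit 1221) (nat_lit 90) (.e (nat_lit 81959) (nat_lit 24) (.e (nat_lit 123197) (nat_lit 266) (.e (nat_lit 57436) (nat_lit 17) (.e (nat_lit 376860) (nat_lit 21) (.e (nat_lit 57870) (nat_lit 264) .nil)))))) (.g (nat_lit 5) .nil .nil))) 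
(.lf (nat_lit 38384) (.g (nat_lit 2010) (.e (nat_lit 1221) (nat_lit 90) (.e (nat_lit 81965) (nat_lit 26) (.e (nat_lit 147465) (nat_lit 9) (.e (nat_lit 334) (nat_lit 26) (.e (nat_lit 376857) (nat_lit 21) (.e (nat_lit 65280) (nat_lit 152) .nil)))))) (.g (nat_lit 4) .nil .nil))))) (.nd (nat_lit 4) (.nd (nat_lit 5) 
(.lf (nat_lit 38344) (.g (nat_lit 2590) (.e (nat_lit 1221) (nat_lit 90) (.e (nat_lit 81959) (nat_lit 24) (.e (nat_lit 123197) (nat_lit 266) (.e (nat_lit 57426) (nat_lit 15) (.e (nat_lit 368384) (nat_lit 0) (.e (nat_lit 5902) (nat_lit 320) .nil)))))) (.g (nat_lit 4) .nil .nil))) 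
(.lf (nat_lit 38376) (.g (nat_lit 2242) (.e (nat_lit 1221) (nat_lit 90) (.e (nat_lit 81965) (nat_lit 26) (.e (nat_lit 147463) (nat_lit 9) (.e (nat_lit 314) (nat_lit 23) (.e (nat_lit 352318) (nat_lit 24) (.e (nat_lit 130816) (nat_lit 152) .nil)))))) (.g (nat_lit 4) .nil .nil)))) (.nd (nat_lit 5) 
(.lf (nat_lit 38360) (.g (nat_lit 1175) (.e (nat_lit 1221) (nat_lit 90) (.e (nat_lit 81959) (nat_lit 24) (.e (nat_lit 123200) (nat_lit 268) (.e (nat_lit 163864) (nat_lit 1) .nil)))) .nil)) 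
(.lf (nat_lit 38392) (.g (nat_lit 1071) (.e (nat_lit 1221) (nat_lit 90) (.e (nat_lit 81965) (nat_lit 26) (.e (nat_lit 147467) (nat_lit 9) (.e (nat_lit 297) (nat_lit 22) .nil)))) .nil))))) (.nd (nat_lit 3) (.nd (nat_lit 4) (.nd (nat_lit 5) 
(.lf (nat_lit 38340) (.g (nat_lit 2418) (.e (nat_lit 1221) (nat_lit 90) (.e (nat_lit 81959) (nat_lit 24) (.e (nat_lit 123197) (nat_lit 266) (.e (nat_lit 57423) (nat_lit 14) (.e (nat_lit 352309) (nat_lit 21) .nil))))) .nil)) 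
(.lf (nat_lit 38372) (.g (nat_lit 1428) (.e (nat_lit 1221) (nat_lit 90) (.e (nat_lit 81962) (nat_lit 25) (.e (nat_lit 139276) (nat_lit 2) (.e (nat_lit 16438) (nat_lit 9) (.e (nat_lit 426364) (nat_lit 15) (.e (nat_lit 991) (nat_lit 81) (.e (nat_lit 4616) (nat_lit 269) .nil))))))) (.g (nat_lit 4) .nil .nil)))) (.nd (nat_lit 5) 
(.lf (nat_lit 38356) (.g (nat_lit 2042) (.e (nat_lit 1221) (nat_lit 90) (.e (nat_lit 81959) (nat_lit 24) (.e (nat_lit 123198) (nat_lit 266) (.e (nat_lit 57426) (nat_lit 15) (.e (nat_lit 368384) (nat_lit 0) (.e (nat_lit 5909) (nat_lit 320) .nil)))))) (.g (nat_lit 4) .nil .nil))) 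
(.lf (nat_lit 38388) (.g (nat_lit 2060) (.e (nat_lit 1221) (nat_lit 90) (.e (nat_lit 81965) (nat_lit 26) (.e (nat_lit 147466) (nat_lit 9) (.e (nat_lit 321) (nat_lit 24) (.e (nat_lit 360457) (nat_lit 0) (.e (nat_lit 7936) (nat_lit 382) .nil)))))) (.g (nat_lit 5) .nil .nil))))) (.nd (nat_lit 4) (.nd (nat_lit 5) 
(.lf (nat_lit 38348) (.g (nat_lit 2306) (.e (nat_lit 1221) (nat_lit 90) (.e (nat_lit 81959) (nat_lit 24) (.e (nat_lit 123197) (nat_lit 266) (.e (nat_lit 57427) (nat_lit 15) (.e (nat_lit 360454) (nat_lit 0) (.e (nat_lit 5907) (nat_lit 320) .nil)))))) (.g (nat_lit 4) .nil .nil))) 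
(.lf (nat_lit 38380) (.g (nat_lit 2183) (.e (nat_lit 1221) (nat_lit 90) (.e (nat_lit 81965) (nat_lit 26) (.e (nat_lit 147463) (nat_lit 9) (.e (nat_lit 324) (nat_lit 24) (.e (nat_lit 360452) (nat_lit 0) (.e (nat_lit 7936) (nat_lit 382) .nil)))))) (.g (nat_lit 5) .nil .nil)))) (.nd (nat_lit 5) 
(.lf (nat_lit 38364) (.g (nat_lit 413) (.e (nat_lit 1221) (nat_lit 90) (.e (nat_lit 81959) (nat_lit 24) (.e (nat_lit 123229) (nat_lit 282) .nil))) .nil)) 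
(.lf (nat_lit 38396) (.g (nat_lit 1191) (.e (nat_lit 1221) (nat_lit 90) (.e (nat_lit 81965) (nat_lit 26) (.e (nat_lit 147467) (nat_lit 9) (.e (nat_lit 321) (nat_lit 24) (.e (nat_lit 360456) (nat_lit 0) .nil))))) .nil)))))) (.nd (nat_lit 2) (.nd (nat_lit 3) (.nd (nat_lit 4) (.nd (nat_lit 5) 
(.lf (nat_lit 38338) (.g (nat_lit 1971) (.e (nat_lit 1221) (nat_lit 90) (.e (nat_lit 81959) (nat_lit 24) (.e (nat_lit 123196) (nat_lit 266) (.e (nat_lit 57427) (nat_lit 15) (.e (nat_lit 368384) (nat_lit 0) (.e (nat_lit 5909) (nat_lit 320) .nil)))))) (.g (nat_lit 4) .nil .nil))) 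
(.lf (nat_lit 38370) (.g (nat_lit 1334) (.e (nat_lit 1221) (nat_lit 90) (.e (nat_lit 81962) (nat_lit 25) (.e (nat_lit 139276) (nat_lit 2) (.e (nat_lit 16436) (nat_lit 9) (.e (nat_lit 425986) (nat_lit 0) (.e (nat_lit 2419) (nat_lit 157) (.e (nat_lit 6793) (nat_lit 365) .nil))))))) (.g (nat_lit 4) .nil .nil)))) (.nd (nat_lit 5) 
(.lf (nat_lit 38354) (.g (nat_lit 764) (.e (nat_lit 1221) (nat_lit 90) (.e (nat_lit 81959) (nat_lit 24) (.e (nat_lit 123198) (nat_lit 266) (.e (nat_lit 57419) (nat_lit 12) .nil)))) .nil)) 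
(.lf (nat_lit 38386) (.g (nat_lit 1982) (.e (nat_lit 1221) (nat_lit 90) (.e (nat_lit 81965) (nat_lit 26) (.e (nat_lit 147466) (nat_lit 9) (.e (nat_lit 321) (nat_lit 24) (.e (nat_lit 360453) (nat_lit 0) (.e (nat_lit 7936) (nat_lit 382) .nil)))))) (.g (nat_lit 4) .nil .nil))))) (.nd (nat_lit 4) (.nd (nat_lit 5) 
(.lf (nat_lit 38346) (.g (nat_lit 2303) (.e (nat_lit 1221) (nat_lit 90) (.e (nat_lit 81959) (nat_lit 24) (.e (nat_lit 123197) (nat_lit 266) (.e (nat_lit 57426) (nat_lit 15) (.e (nat_lit 368384) (nat_lit 0) (.e (nat_lit 5906) (nat_lit 320) .nil)))))) (.g (nat_lit 4) .nil .nil))) 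
(.lf (nat_lit 38378) (.g (nat_lit 2116) (.e (nat_lit 1221) (nat_lit 90) (.e (nat_lit 81965) (nat_lit 26) (.e (nat_lit 147463) (nat_lit 9) (.e (nat_lit 321) (nat_lit 24) (.e (nat_lit 360457) (nat_lit 0) (.e (nat_lit 7936) (nat_lit 382) .nil)))))) (.g (nat_lit 5) .nil .nil)))) (.nd (nat_lit 5) 
(.lf (nat_lit 38362) (.g (nat_lit 930) (.e (nat_lit 1221) (nat_lit 90) (.e (nat_lit 81959) (nat_lit 24) (.e (nat_lit 123223) (nat_lit 278) .nil))) .nil)) 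
(.lf (nat_lit 38394) (.g (nat_lit 3116) (.e (nat_lit 1221) (nat_lit 90) (.e (nat_lit 81965) (nat_lit 26) (.e (nat_lit 147467) (nat_lit 9) (.e (nat_lit 314) (nat_lit 23) (.e (nat_lit 352316) (nat_lit 24) (.e (nat_lit 130816) (nat_lit 152) .nil)))))) (.g (nat_lit 5) .nil .nil)))))) (.nd (nat_lit 3) (.nd (nat_lit 4) (.nd (nat_lit 5) 
(.lf (nat_lit 38342) (.g (nat_lit 2777) (.e (nat_lit 1221) (nat_lit 90) (.e (nat_lit 81959) (nat_lit 24) (.e (nat_lit 123197) (nat_lit 266) (.e (nat_lit 57424) (nat_lit 14) (.e (nat_lit 352309) (nat_lit 21) (.e (nat_lit 57872) (nat_lit 264) .nil)))))) (.g (nat_lit 4) .nil .nil))) 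
(.lf (nat_lit 38374) (.g (nat_lit 393) (.e (nat_lit 1221) (nat_lit 90) (.e (nat_lit 81965) (nat_lit 26) (.e (nat_lit 147463) (nat_lit 9) .nil))) .nil))) (.nd (nat_lit 5) 
(.lf (nat_lit 38358) (.g (nat_lit 2607) (.e (nat_lit 1221) (nat_lit 90) (.e (nat_lit 81959) (nat_lit 24) (.e (nat_lit 123198) (nat_lit 266) (.e (nat_lit 57436) (nat_lit 17) (.e (nat_lit 376859) (nat_lit 21) (.e (nat_lit 57870) (nat_lit 264) .nil)))))) (.g (nat_lit 5) .nil .nil))) 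
(.lf (nat_lit 38390) (.g (nat_lit 2528) (.e (nat_lit 1221) (nat_lit 90) (.e (nat_lit 81965) (nat_lit 26) (.e (nat_lit 147466) (nat_lit 9) (.e (nat_lit 324) (nat_lit 24) (.e (nat_lit 360452) (nat_lit 0) (.e (nat_lit 7936) (nat_lit 382) .nil)))))) (.g (nat_lit 5) .nil .nil))))) (.nd (nat_lit 4) (.nd (nat_lit 5) 
(.lf (nat_lit 38350) (.g (nat_lit 2577) (.e (nat_lit 1221) (nat_lit 90) (.e (nat_lit 81959) (nat_lit 24) (.e (nat_lit 123197) (nat_lit 266) (.e (nat_lit 57436) (nat_lit 17) (.e (nat_lit 376859) (nat_lit 21) (.e (nat_lit 57870) (nat_lit 264) .nil)))))) (.g (nat_lit 4) .nil .nil))) 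
(.lf (nat_lit 38382) (.g (nat_lit 2272) (.e (nat_lit 1221) (nat_lit 90) (.e (nat_lit 81965) (nat_lit 26) (.e (nat_lit 147463) (nat_lit 9) (.e (nat_lit 334) (nat_lit 26) (.e (nat_lit 376857) (nat_lit 21) (.e (nat_lit 65280) (nat_lit 152) .nil)))))) (.g (nat_lit 5) .nil .nil)))) (.nd (nat_lit 5) 
(.lf (nat_lit 38366) (.g (nat_lit 2389) (.e (nat_lit 1221) (nat_lit 90) (.e (nat_lit 81959) (nat_lit 24) (.e (nat_lit 123229) (nat_lit 282) (.e (nat_lit 163896) (nat_lit 10) (.e (nat_lit 409648) (nat_lit 18) (.e (nat_lit 303108) (nat_lit 0) (.e (nat_lit 2424) (nat_lit 157) (.e (nat_lit 4616) (nat_lit 269) .nil)))))))) (.g (nat_lit 5) .nil .nil))) 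
(.lf (nat_lit 38398) (.g (nat_lit 841) (.e (nat_lit 1221) (nat_lit 90) (.e (nat_lit 81965) (nat_lit 26) (.e (nat_lit 147467) (nat_lit 9) (.e (nat_lit 324) (nat_lit 24) .nil)))) .nil))))))) (.nd (nat_lit 1) (.nd (nat_lit 2) (.nd (nat_lit 3) (.nd (nat_lit 4) (.nd (nat_lit 5) 
(.lf (nat_lit 38337) (.g (nat_lit 2003) (.e (nat_lit 1221) (nat_lit 90) (.e (nat_lit 81959) (nat_lit 24) (.e (nat_lit 123196) (nat_lit 266) (.e (nat_lit 57427) (nat_lit 15) (.e (nat_lit 368384) (nat_lit 0) (.e (nat_lit 5902) (nat_lit 320) .nil)))))) (.g (nat_lit 4) .nil .nil))) 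
(.lf (nat_lit 38369) (.g (nat_lit 3209) (.e (nat_lit 1221) (nat_lit 90) (.e (nat_lit 81962) (nat_lit 25) (.e (nat_lit 139276) (nat_lit 2) (.e (nat_lit 16431) (nat_lit 9) (.e (nat_lit 426109) (nat_lit 1) (.e (nat_lit 164196) (nat_lit 158) .nil)))))) (.g (nat_lit 0) .nil .nil)))) (.nd (nat_lit 5) 
(.lf (nat_lit 38353) (.g (nat_lit 2387) (.e (nat_lit 1221) (nat_lit 90) (.e (nat_lit 81959) (nat_lit 24) (.e (nat_lit 123198) (nat_lit 266) (.e (nat_lit 57409) (nat_lit 12) (.e (nat_lit 336182) (nat_lit 11) (.e (nat_lit 376576) (nat_lit 18) (.e (nat_lit 5906) (nat_lit 320) .nil))))))) (.g (nat_lit 5) .nil .nil))) 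
(.lf (nat_lit 38385) (.g (nat_lit 2283) (.e (nat_lit 1221) (nat_lit 90) (.e (nat_lit 81965) (nat_lit 26) (.e (nat_lit 147465) (nat_lit 9) (.e (nat_lit 334) (nat_lit 26) (.e (nat_lit 376860) (nat_lit 21) (.e (nat_lit 65280) (nat_lit 152) .nil)))))) (.g (nat_lit 5) .nil .nil))))) (.nd (nat_lit 4) (.nd (nat_lit 5) 
(.lf (nat_lit 38345) (.g (nat_lit 2691) (.e (nat_lit 1221) (nat_lit 90) (.e (nat_lit 81959) (nat_lit 24) (.e (nat_lit 123197) (nat_lit 266) (.e (nat_lit 57426) (nat_lit 15) (.e (nat_lit 368384) (nat_lit 0) (.e (nat_lit 5905) (nat_lit 320) .nil)))))) (.g (nat_lit 4) .nil .nil))) 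
(.lf (nat_lit 38377) (.g (nat_lit 2018) (.e (nat_lit 1221) (nat_lit 90) (.e (nat_lit 81965) (nat_lit 26) (.e (nat_lit 147463) (nat_lit 9) (.e (nat_lit 321) (nat_lit 24) (.e (nat_lit 360453) (nat_lit 0) (.e (nat_lit 7936) (nat_lit 382) .nil)))))) (.g (nat_lit 5) .nil .nil)))) (.nd (nat_lit 5) 
(.lf (nat_lit 38361) (.g (nat_lit 555) (.e (nat_lit 1221) (nat_lit 90) (.e (nat_lit 81959) (nat_lit 24) (.e (nat_lit 123218) (nat_lit 278) .nil))) .nil)) 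
(.lf (nat_lit 38393) (.g (nat_lit 2103) (.e (nat_lit 1221) (nat_lit 90) (.e (nat_lit 81965) (nat_lit 26) (.e (nat_lit 147467) (nat_lit 9) (.e (nat_lit 314) (nat_lit 23) (.e (nat_lit 352309) (nat_lit 21) (.e (nat_lit 65280) (nat_lit 152) .nil)))))) (.g (nat_lit 4) .nil .nil)))))) (.nd (nat_lit 3) (.nd (nat_lit 4) (.nd (nat_lit 5) 
(.lf (nat_lit 38341) (.g (nat_lit 1915) (.e (nat_lit 1221) (nat_lit 90) (.e (nat_lit 81959) (nat_lit 24) (.e (nat_lit 123197) (nat_lit 266) (.e (nat_lit 57424) (nat_lit 14) (.e (nat_lit 352309) (nat_lit 21) .nil))))) .nil)) 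
(.lf (nat_lit 38373) (.g (nat_lit 1713) (.e (nat_lit 1221) (nat_lit 90) (.e (nat_lit 81962) (nat_lit 25) (.e (nat_lit 139276) (nat_lit 2) (.e (nat_lit 16461) (nat_lit 12) (.e (nat_lit 475155) (nat_lit 21) (.e (nat_lit 4616) (nat_lit 269) .nil)))))) (.g (nat_lit 0) .nil .nil)))) (.nd (nat_lit 5) 
(.lf (nat_lit 38357) (.g (nat_lit 2399) (.e (nat_lit 1221) (nat_lit 90) (.e (nat_lit 81959) (nat_lit 24) (.e (nat_lit 123198) (nat_lit 266) (.e (nat_lit 57427) (nat_lit 15) (.e (nat_lit 368384) (nat_lit 0) (.e (nat_lit 5905) (nat_lit 320) .nil)))))) (.g (nat_lit 4) .nil .nil))) 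
(.lf (nat_lit 38389) (.g (nat_lit 1025) (.e (nat_lit 1221) (nat_lit 90) (.e (nat_lit 81965) (nat_lit 26) (.e (nat_lit 147466) (nat_lit 9) (.e (nat_lit 324) (nat_lit 24) .nil)))) .nil)))) (.nd (nat_lit 4) (.nd (nat_lit 5) 
(.lf (nat_lit 38349) (.g (nat_lit 2595) (.e (nat_lit 1221) (nat_lit 90) (.e (nat_lit 81959) (nat_lit 24) (.e (nat_lit 123197) (nat_lit 266) (.e (nat_lit 57427) (nat_lit 15) (.e (nat_lit 368384) (nat_lit 0) (.e (nat_lit 5905) (nat_lit 320) .nil)))))) (.g (nat_lit 4) .nil .nil))) 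
(.lf (nat_lit 38381) (.g (nat_lit 1661) (.e (nat_lit 1221) (nat_lit 90) (.e (nat_lit 81965) (nat_lit 26) (.e (nat_lit 147463) (nat_lit 9) (.e (nat_lit 324) (nat_lit 24) (.e (nat_lit 360456) (nat_lit 0) (.e (nat_lit 7936) (nat_lit 382) .nil)))))) (.g (nat_lit 4) .nil .nil)))) (.nd (nat_lit 5) 
(.lf (nat_lit 38365) (.g (nat_lit 2250) (.e (nat_lit 1221) (nat_lit 90) (.e (nat_lit 81959) (nat_lit 24) (.e (nat_lit 123229) (nat_lit 282) (.e (nat_lit 163896) (nat_lit 10) (.e (nat_lit 409640) (nat_lit 17) (.e (nat_lit 294925) (nat_lit 1) (.e (nat_lit 57870) (nat_lit 264) .nil))))))) (.g (nat_lit 4) .nil .nil))) 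
(.lf (nat_lit 38397) (.g (nat_lit 1930) (.e (nat_lit 1221) (nat_lit 90) (.e (nat_lit 81965) (nat_lit 26) (.e (nat_lit 147467) (nat_lit 9) (.e (nat_lit 321) (nat_lit 24) (.e (nat_lit 360457) (nat_lit 0) (.e (nat_lit 7936) (nat_lit 382) .nil)))))) (.g (nat_lit 5) .nil .nil))))))) (.nd (nat_lit 2) (.nd (nat_lit 3) (.nd (nat_lit 4) (.nd (nat_lit 5) 
(.lf (nat_lit 38339) (.g (nat_lit 2306) (.e (nat_lit 1221) (nat_lit 90) (.e (nat_lit 81959) (nat_lit 24) (.e (nat_lit 123196) (nat_lit 266) (.e (nat_lit 57436) (nat_lit 17) (.e (nat_lit 376859) (nat_lit 21) (.e (nat_lit 57870) (nat_lit 264) .nil)))))) (.g (nat_lit 5) .nil .nil))) 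
(.lf (nat_lit 38371) (.g (nat_lit 2825) (.e (nat_lit 1221) (nat_lit 90) (.e (nat_lit 81962) (nat_lit 25) (.e (nat_lit 139276) (nat_lit 2) (.e (nat_lit 16436) (nat_lit 9) (.e (nat_lit 426112) (nat_lit 1) (.e (nat_lit 164196) (nat_lit 158) .nil)))))) (.g (nat_lit 0) .nil .nil)))) (.nd (nat_lit 5) 
(.lf (nat_lit 38355) (.g (nat_lit 2092) (.e (nat_lit 1221) (nat_lit 90) (.e (nat_lit 81959) (nat_lit 24) (.e (nat_lit 123198) (nat_lit 266) (.e (nat_lit 57423) (nat_lit 14) (.e (nat_lit 352309) (nat_lit 21) (.e (nat_lit 57872) (nat_lit 264) .nil)))))) (.g (nat_lit 4) .nil .nil))) 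
(.lf (nat_lit 38387) (.g (nat_lit 1396) (.e (nat_lit 1221) (nat_lit 90) (.e (nat_lit 81965) (nat_lit 26) (.e (nat_lit 147466) (nat_lit 9) (.e (nat_lit 321) (nat_lit 24) (.e (nat_lit 360456) (nat_lit 0) .nil))))) .nil)))) (.nd (nat_lit 4) (.nd (nat_lit 5) 
(.lf (nat_lit 38347) (.g (nat_lit 2134) (.e (nat_lit 1221) (nat_lit 90) (.e (nat_lit 81959) (nat_lit 24) (.e (nat_lit 123197) (nat_lit 266) (.e (nat_lit 57426) (nat_lit 15) (.e (nat_lit 368384) (nat_lit 0) (.e (nat_lit 5909) (nat_lit 320) .nil)))))) (.g (nat_lit 4) .nil .nil))) 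
(.lf (nat_lit 38379) (.g (nat_lit 734) (.e (nat_lit 1221) (nat_lit 90) (.e (nat_lit 81965) (nat_lit 26) (.e (nat_lit 147463) (nat_lit 9) (.e (nat_lit 324) (nat_lit 24) .nil)))) .nil))) (.nd (nat_lit 5) 
(.lf (nat_lit 38363) (.g (nat_lit 662) (.e (nat_lit 1221) (nat_lit 90) (.e (nat_lit 81959) (nat_lit 24) (.e (nat_lit 123228) (nat_lit 282) .nil))) .nil)) 
(.lf (nat_lit 38395) (.g (nat_lit 2806) (.e (nat_lit 1221) (nat_lit 90) (.e (nat_lit 81965) (nat_lit 26) (.e (nat_lit 147467) (nat_lit 9) (.e (nat_lit 314) (nat_lit 23) (.e (nat_lit 352318) (nat_lit 24) (.e (nat_lit 130816) (nat_lit 152) .nil)))))) (.g (nat_lit 4) .nil .nil)))))) (.nd (nat_lit 3) (.nd (nat_lit 4) (.nd (nat_lit 5) 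
(.lf (nat_lit 38343) (.g (nat_lit 3214) (.e (nat_lit 1221) (nat_lit 90) (.e (nat_lit 81959) (nat_lit 24) (.e (nat_lit 123197) (nat_lit 266) (.e (nat_lit 57426) (nat_lit 15) (.e (nat_lit 360452) (nat_lit 0) (.e (nat_lit 5906) (nat_lit 320) .nil)))))) (.g (nat_lit 6) .nil .nil))) 
(.lf (nat_lit 38375) (.g (nat_lit 2510) (.e (nat_lit 1221) (nat_lit 90) (.e (nat_lit 81965) (nat_lit 26) (.e (nat_lit 147463) (nat_lit 9) (.e (nat_lit 314) (nat_lit 23) (.e (nat_lit 352316) (nat_lit 24) (.e (nat_lit 130816) (nat_lit 152) .nil)))))) (.g (nat_lit 5) .nil .nil)))) (.nd (nat_lit 5) 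
(.lf (nat_lit 38359) (.g (nat_lit 2389) (.e (nat_lit 1221) (nat_lit 90) (.e (nat_lit 81959) (nat_lit 24) (.e (nat_lit 123199) (nat_lit 267) (.e (nat_lit 122919) (nat_lit 15) (.e (nat_lit 368384) (nat_lit 0) (.e (nat_lit 5902) (nat_lit 320) .nil)))))) (.g (nat_lit 4) .nil .nil))) 
(.lf (nat_lit 38391) (.g (nat_lit 2033) (.e (nat_lit 1221) (nat_lit 90) (.e (nat_lit 81965) (nat_lit 26) (.e (nat_lit 147466) (nat_lit 9) (.e (nat_lit 324) (nat_lit 24) (.e (nat_lit 360456) (nat_lit 0) (.e (nat_lit 7936) (nat_lit 382) .nil)))))) (.g (nat_lit 4) .nil .nil))))) (.nd (nat_lit 4) (.nd (nat_lit 5) 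
(.lf (nat_lit 38351) (.g (nat_lit 2441) (.e (nat_lit 1221) (nat_lit 90) (.e (nat_lit 81959) (nat_lit 24) (.e (nat_lit 123197) (nat_lit 266) (.e (nat_lit 57436) (nat_lit 17) (.e (nat_lit 376859) (nat_lit 21) (.e (nat_lit 57873) (nat_lit 264) .nil)))))) (.g (nat_lit 4) .nil .nil))) 
(.lf (nat_lit 38383) (.g (nat_lit 2465) (.e (nat_lit 1221) (nat_lit 90) (.e (nat_lit 81965) (nat_lit 26) (.e (nat_lit 147463) (nat_lit 9) (.e (nat_lit 334) (nat_lit 26) (.e (nat_lit 376860) (nat_lit 21) (.e (nat_lit 65280) (nat_lit 152) .nil)))))) (.g (nat_lit 5) .nil .nil)))) (.nd (nat_lit 5) 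
(.lf (nat_lit 38367) (.g (nat_lit 2833) (.e (nat_lit 1221) (nat_lit 90) (.e (nat_lit 81959) (nat_lit 24) (.e (nat_lit 123229) (nat_lit 282) (.e (nat_lit 163896) (nat_lit 10) (.e (nat_lit 409648) (nat_lit 18) (.e (nat_lit 303108) (nat_lit 0) (.e (nat_lit 2425) (nat_lit 157) (.e (nat_lit 4616) (nat_lit 269) .nil)))))))) (.g (nat_lit 5) .nil .nil))) 
(.lf (nat_lit 38399) (.g (nat_lit 2206) (.e (nat_lit 1221) (nat_lit 90) (.e (nat_lit 81965) (nat_lit 26) (.e (nat_lit 147467) (nat_lit 9) (.e (nat_lit 324) (nat_lit 24) (.e (nat_lit 360452) (nat_lit 0) (.e (nat_lit 7936) (nat_lit 382) .nil)))))) (.g (nat_lit 5) .nil .nil)))))))))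

noncomputable def tv533 : DT := (.nd (nat_lit 0) (.nd (nat_lit 1) (.nd (nat_lit 2) (.nd (nat_lit 3) (.nd (nat_lit 4) (.nd (nat_lit 5) 
(.lf (nat_lit 38400) (.g (nat_lit 1844) (.e (nat_lit 1221) (nat_lit 90) (.e (nat_lit 81965) (nat_lit 26) (.e (nat_lit 147467) (nat_lit 9) (.e (nat_lit 324) (nat_lit 24) (.e (nat_lit 360456) (nat_lit 0) (.e (nat_lit 7936) (nat_lit 382) .nil)))))) (.g (nat_lit 5) .nil .nil))) 
(.lf (nat_lit 38432) (.g (nat_lit 3566) (.e (nat_lit 1221) (nat_lit 90) (.e (nat_lit 81965) (nat_lit 26) (.e (nat_lit 147492) (nat_lit 11) (.e (nat_lit 24662) (nat_lit 14) (.e (nat_lit 401422) (nat_lit 1) (.e (nat_lit 164147) (nat_lit 152) .nil)))))) (.g (nat_lit 6) .nil .nil)))) (.nd (nat_lit 5) 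
(.lf (nat_lit 38416) (.g (nat_lit 1591) (.e (nat_lit 1221) (nat_lit 90) (.e (nat_lit 81965) (nat_lit 26) (.e (nat_lit 147492) (nat_lit 11) (.e (nat_lit 24638) (nat_lit 9) (.e (nat_lit 335987) (nat_lit 1) (.e (nat_lit 65280) (nat_lit 152) .nil)))))) (.g (nat_lit 4) .nil .nil))) 
(.lf (nat_lit 38448) (.g (nat_lit 1978) (.e (nat_lit 1221) (nat_lit 90) (.e (nat_lit 81965) (nat_lit 26) (.e (nat_lit 147492) (nat_lit 11) (.e (nat_lit 24665) (nat_lit 14) (.e (nat_lit 401418) (nat_lit 0) .nil))))) .nil)))) (.nd (nat_lit 4) (.nd (nat_lit 5) 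
(.lf (nat_lit 38408) (.g (nat_lit 2587) (.e (nat_lit 1221) (nat_lit 90) (.e (nat_lit 81965) (nat_lit 26) (.e (nat_lit 147492) (nat_lit 11) (.e (nat_lit 24580) (nat_lit 0) (.e (nat_lit 6712) (nat_lit 360) (.e (nat_lit 163850) (nat_lit 0) (.e (nat_lit 6306) (nat_lit 337) .nil))))))) (.g (nat_lit 5) .nil .nil))) 
(.lf (nat_lit 38440) (.g (nat_lit 2177) (.e (nat_lit 1221) (nat_lit 90) (.e (nat_lit 81965) (nat_lit 26) (.e (nat_lit 147492) (nat_lit 11) (.e (nat_lit 24665) (nat_lit 14) (.e (nat_lit 401413) (nat_lit 0) (.e (nat_lit 2438) (nat_lit 157) (.e (nat_lit 6264) (nat_lit 337) .nil))))))) (.g (nat_lit 4) .nil .nil)))) (.nd (nat_lit 5) 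
(.lf (nat_lit 38424) (.g (nat_lit 2010) (.e (nat_lit 1221) (nat_lit 90) (.e (nat_lit 81965) (nat_lit 26) (.e (nat_lit 147492) (nat_lit 11) (.e (nat_lit 24650) (nat_lit 12) (.e (nat_lit 385043) (nat_lit 21) (.e (nat_lit 4491) (nat_lit 263) .nil)))))) (.g (nat_lit 6) .nil .nil))) 
(.lf (nat_lit 38456) (.g (nat_lit 2533) (.e (nat_lit 1221) (nat_lit 90) (.e (nat_lit 81965) (nat_lit 26) (.e (nat_lit 147492) (nat_lit 11) (.e (nat_lit 24665) (nat_lit 14) (.e (nat_lit 401429) (nat_lit 4) (.e (nat_lit 237312) (nat_lit 152) .nil)))))) (.g (nat_lit 4) .nil .nil)))))) (.nd (nat_lit 3) (.nd (nat_lit 4) (.nd (nat_lit 5) 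
(.lf (nat_lit 38404) (.g (nat_lit 650) (.e (nat_lit 1221) (nat_lit 90) (.e (nat_lit 81965) (nat_lit 26) (.e (nat_lit 147491) (nat_lit 10) .nil))) .nil)) 
(.lf (nat_lit 38436) (.g (nat_lit 1939) (.e (nat_lit 1221) (nat_lit 90) (.e (nat_lit 81965) (nat_lit 26) (.e (nat_lit 147492) (nat_lit 11) (.e (nat_lit 24664) (nat_lit 14) (.e (nat_lit 401420) (nat_lit 1) (.e (nat_lit 164163) (nat_lit 152) .nil)))))) (.g (nat_lit 4) .nil .nil)))) (.nd (nat_lit 5) 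
(.lf (nat_lit 38420) (.g (nat_lit 2273) (.e (nat_lit 1221) (nat_lit 90) (.e (nat_lit 81965) (nat_lit 26) (.e (nat_lit 147492) (nat_lit 11) (.e (nat_lit 24640) (nat_lit 10) (.e (nat_lit 344091) (nat_lit 18) (.e (nat_lit 7236) (nat_lit 382) .nil)))))) (.g (nat_lit 4) .nil .nil))) 
(.lf (nat_lit 38452) (.g (nat_lit 2942) (.e (nat_lit 1221) (nat_lit 90) (.e (nat_lit 81965) (nat_lit 26) (.e (nat_lit 147492) (nat_lit 11) (.e (nat_lit 24665) (nat_lit 14) (.e (nat_lit 401421) (nat_lit 1) (.e (nat_lit 164147) (nat_lit 152) .nil)))))) (.g (nat_lit 6) .nil .nil))))) (.nd (nat_lit 4) (.nd (nat_lit 5) 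
(.lf (nat_lit 38412) (.g (nat_lit 2359) (.e (nat_lit 1221) (nat_lit 90) (.e (nat_lit 81965) (nat_lit 26) (.e (nat_lit 147492) (nat_lit 11) (.e (nat_lit 24623) (nat_lit 9) (.e (nat_lit 335997) (nat_lit 1) (.e (nat_lit 65280) (nat_lit 152) .nil)))))) (.g (nat_lit 5) .nil .nil))) 
(.lf (nat_lit 38444) (.g (nat_lit 1891) (.e (nat_lit 1221) (nat_lit 90) (.e (nat_lit 81965) (nat_lit 26) (.e (nat_lit 147492) (nat_lit 11) (.e (nat_lit 24665) (nat_lit 14) (.e (nat_lit 401413) (nat_lit 0) (.e (nat_lit 2458) (nat_lit 157) (.e (nat_lit 6306) (nat_lit 337) .nil))))))) (.g (nat_lit 4) .nil .nil)))) (.nd (nat_lit 5) 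
(.lf (nat_lit 38428) (.g (nat_lit 1459) (.e (nat_lit 1221) (nat_lit 90) (.e (nat_lit 81965) (nat_lit 26) (.e (nat_lit 147492) (nat_lit 11) (.e (nat_lit 24650) (nat_lit 12) (.e (nat_lit 385046) (nat_lit 21) (.e (nat_lit 4491) (nat_lit 263) .nil)))))) (.g (nat_lit 4) .nil .nil))) 
(.lf (nat_lit 38460) (.g (nat_lit 2742) (.e (nat_lit 1221) (nat_lit 90) (.e (nat_lit 81965) (nat_lit 26) (.e (nat_lit 147493) (nat_lit 11) (.e (nat_lit 24665) (nat_lit 14) (.e (nat_lit 401420) (nat_lit 1) (.e (nat_lit 164147) (nat_lit 152) .nil)))))) (.g (nat_lit 4) .nil .nil))))))) (.nd (nat_lit 2) (.nd (nat_lit 3) (.nd (nat_lit 4) (.nd (nat_lit 5) 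
(.lf (nat_lit 38402) (.g (nat_lit 647) (.e (nat_lit 1221) (nat_lit 90) (.e (nat_lit 81965) (nat_lit 26) (.e (nat_lit 147468) (nat_lit 9) .nil))) .nil)) 
(.lf (nat_lit 38434) (.g (nat_lit 2388) (.e (nat_lit 1221) (nat_lit 90) (.e (nat_lit 81965) (nat_lit 26) (.e (nat_lit 147492) (nat_lit 11) (.e (nat_lit 24664) (nat_lit 14) (.e (nat_lit 401414) (nat_lit 0) (.e (nat_lit 2458) (nat_lit 157) (.e (nat_lit 6264) (nat_lit 337) .nil))))))) (.g (nat_lit 5) .nil .nil)))) (.nd (nat_lit 5) 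
(.lf (nat_lit 38418) (.g (nat_lit 2188) (.e (nat_lit 1221) (nat_lit 90) (.e (nat_lit 81965) (nat_lit 26) (.e (nat_lit 147492) (nat_lit 11) (.e (nat_lit 24640) (nat_lit 10) (.e (nat_lit 344088) (nat_lit 18) (.e (nat_lit 7236) (nat_lit 382) .nil)))))) (.g (nat_lit 4) .nil .nil))) 
(.lf (nat_lit 38450) (.g (nat_lit 2301) (.e (nat_lit 1221) (nat_lit 90) (.e (nat_lit 81965) (nat_lit 26) (.e (nat_lit 147492) (nat_lit 11) (.e (nat_lit 24665) (nat_lit 14) (.e (nat_lit 401418) (nat_lit 0) (.e (nat_lit 2471) (nat_lit 157) (.e (nat_lit 6306) (nat_lit 337) .nil))))))) (.g (nat_lit 4) .nil .nil))))) (.nd (nat_lit 4) (.nd (nat_lit 5) 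
(.lf (nat_lit 38410) (.g (nat_lit 2745) (.e (nat_lit 1221) (nat_lit 90) (.e (nat_lit 81965) (nat_lit 26) (.e (nat_lit 147492) (nat_lit 11) (.e (nat_lit 24580) (nat_lit 0) (.e (nat_lit 6714) (nat_lit 360) (.e (nat_lit 163850) (nat_lit 0) (.e (nat_lit 6306) (nat_lit 337) .nil))))))) (.g (nat_lit 6) .nil .nil))) 
(.lf (nat_lit 38442) (.g (nat_lit 2109) (.e (nat_lit 1221) (nat_lit 90) (.e (nat_lit 81965) (nat_lit 26) (.e (nat_lit 147492) (nat_lit 11) (.e (nat_lit 24665) (nat_lit 14) (.e (nat_lit 401413) (nat_lit 0) (.e (nat_lit 2438) (nat_lit 157) (.e (nat_lit 6317) (nat_lit 337) .nil))))))) (.g (nat_lit 4) .nil .nil)))) (.nd (nat_lit 5) 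
(.lf (nat_lit 38426) (.g (nat_lit 1459) (.e (nat_lit 1221) (nat_lit 90) (.e (nat_lit 81965) (nat_lit 26) (.e (nat_lit 147492) (nat_lit 11) (.e (nat_lit 24650) (nat_lit 12) (.e (nat_lit 385044) (nat_lit 21) (.e (nat_lit 4491) (nat_lit 263) .nil)))))) (.g (nat_lit 4) .nil .nil))) 
(.lf (nat_lit 38458) (.g (nat_lit 1647) (.e (nat_lit 1221) (nat_lit 90) (.e (nat_lit 81965) (nat_lit 26) (.e (nat_lit 147492) (nat_lit 11) (.e (nat_lit 32512) (nat_lit 23) (.e (nat_lit 253999) (nat_lit 12) (.e (nat_lit 57351) (nat_lit 0) (.e (nat_lit 5156) (nat_lit 292) .nil))))))) (.g (nat_lit 6) .nil .nil)))))) (.nd (nat_lit 3) (.nd (nat_lit 4) (.nd (nat_lit 5) 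
(.lf (nat_lit 38406) (.g (nat_lit 655) (.e (nat_lit 1221) (nat_lit 90) (.e (nat_lit 81965) (nat_lit 26) (.e (nat_lit 147492) (nat_lit 11) (.e (nat_lit 24580) (nat_lit 0) .nil)))) .nil)) 
(.lf (nat_lit 38438) (.g (nat_lit 1459) (.e (nat_lit 1221) (nat_lit 90) (.e (nat_lit 81965) (nat_lit 26) (.e (nat_lit 147492) (nat_lit 11) (.e (nat_lit 24664) (nat_lit 14) (.e (nat_lit 401422) (nat_lit 1) (.e (nat_lit 164163) (nat_lit 152) .nil)))))) (.g (nat_lit 4) .nil .nil)))) (.nd (nat_lit 5) 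
(.lf (nat_lit 38422) (.g (nat_lit 2111) (.e (nat_lit 1221) (nat_lit 90) (.e (nat_lit 81965) (nat_lit 26) (.e (nat_lit 147492) (nat_lit 11) (.e (nat_lit 24648) (nat_lit 12) (.e (nat_lit 385045) (nat_lit 21) (.e (nat_lit 4439) (nat_lit 263) .nil)))))) (.g (nat_lit 4) .nil .nil))) 
(.lf (nat_lit 38454) (.g (nat_lit 3136) (.e (nat_lit 1221) (nat_lit 90) (.e (nat_lit 81965) (nat_lit 26) (.e (nat_lit 147492) (nat_lit 11) (.e (nat_lit 24665) (nat_lit 14) (.e (nat_lit 401429) (nat_lit 4) (.e (nat_lit 229544) (nat_lit 152) .nil)))))) (.g (nat_lit 6) .nil .nil))))) (.nd (nat_lit 4) (.nd (nat_lit 5) 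
(.lf (nat_lit 38414) (.g (nat_lit 1856) (.e (nat_lit 1221) (nat_lit 90) (.e (nat_lit 81965) (nat_lit 26) (.e (nat_lit 147492) (nat_lit 11) (.e (nat_lit 24627) (nat_lit 9) (.e (nat_lit 336314) (nat_lit 16) (.e (nat_lit 164416) (nat_lit 266) .nil)))))) (.g (nat_lit 4) .nil .nil))) 
(.lf (nat_lit 38446) (.g (nat_lit 2977) (.e (nat_lit 1221) (nat_lit 90) (.e (nat_lit 81965) (nat_lit 26) (.e (nat_lit 147492) (nat_lit 11) (.e (nat_lit 24665) (nat_lit 14) (.e (nat_lit 401414) (nat_lit 0) (.e (nat_lit 2458) (nat_lit 157) (.e (nat_lit 6264) (nat_lit 337) .nil))))))) (.g (nat_lit 5) .nil .nil)))) (.nd (nat_lit 5) 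
(.lf (nat_lit 38430) (.g (nat_lit 1652) (.e (nat_lit 1221) (nat_lit 90) (.e (nat_lit 81965) (nat_lit 26) (.e (nat_lit 147492) (nat_lit 11) (.e (nat_lit 24651) (nat_lit 12) (.e (nat_lit 385047) (nat_lit 21) (.e (nat_lit 4491) (nat_lit 263) .nil)))))) (.g (nat_lit 4) .nil .nil))) 
(.lf (nat_lit 38462) (.g (nat_lit 2628) (.e (nat_lit 1221) (nat_lit 90) (.e (nat_lit 81965) (nat_lit 26) (.e (nat_lit 147493) (nat_lit 11) (.e (nat_lit 24665) (nat_lit 14) (.e (nat_lit 401421) (nat_lit 1) (.e (nat_lit 164147) (nat_lit 152) .nil)))))) (.g (nat_lit 4) .nil .nil)))))))) (.nd (nat_lit 1) (.nd (nat_lit 2) (.nd (nat_lit 3) (.nd (nat_lit 4) (.nd (nat_lit 5) 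
(.lf (nat_lit 38401) (.g (nat_lit 1576) (.e (nat_lit 1221) (nat_lit 90) (.e (nat_lit 81965) (nat_lit 26) (.e (nat_lit 147467) (nat_lit 9) (.e (nat_lit 334) (nat_lit 26) (.e (nat_lit 376860) (nat_lit 21) (.e (nat_lit 65280) (nat_lit 152) .nil)))))) (.g (nat_lit 4) .nil .nil))) 
(.lf (nat_lit 38433) (.g (nat_lit 1931) (.e (nat_lit 1221) (nat_lit 90) (.e (nat_lit 81965) (nat_lit 26) (.e (nat_lit 147492) (nat_lit 11) (.e (nat_lit 24664) (nat_lit 14) (.e (nat_lit 401414) (nat_lit 0) (.e (nat_lit 2438) (nat_lit 157) (.e (nat_lit 6264) (nat_lit 337) .nil))))))) (.g (nat_lit 4) .nil .nil)))) (.nd (nat_lit 5) 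
(.lf (nat_lit 38417) (.g (nat_lit 2563) (.e (nat_lit 1221) (nat_lit 90) (.e (nat_lit 81965) (nat_lit 26) (.e (nat_lit 147492) (nat_lit 11) (.e (nat_lit 24638) (nat_lit 9) (.e (nat_lit 335988) (nat_lit 1) (.e (nat_lit 65280) (nat_lit 152) .nil)))))) (.g (nat_lit 5) .nil .nil))) 
(.lf (nat_lit 38449) (.g (nat_lit 2620) (.e (nat_lit 1221) (nat_lit 90) (.e (nat_lit 81965) (nat_lit 26) (.e (nat_lit 147492) (nat_lit 11) (.e (nat_lit 24665) (nat_lit 14) (.e (nat_lit 401418) (nat_lit 0) (.e (nat_lit 2452) (nat_lit 157) (.e (nat_lit 6264) (nat_lit 337) .nil))))))) (.g (nat_lit 4) .nil .nil))))) (.nd (nat_lit 4) (.nd (nat_lit 5) 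
(.lf (nat_lit 38409) (.g (nat_lit 1852) (.e (nat_lit 1221) (nat_lit 90) (.e (nat_lit 81965) (nat_lit 26) (.e (nat_lit 147492) (nat_lit 11) (.e (nat_lit 24580) (nat_lit 0) (.e (nat_lit 6712) (nat_lit 360) (.e (nat_lit 163851) (nat_lit 0) (.e (nat_lit 6264) (nat_lit 337) .nil))))))) (.g (nat_lit 4) .nil .nil))) 
(.lf (nat_lit 38441) (.g (nat_lit 2078) (.e (nat_lit 1221) (nat_lit 90) (.e (nat_lit 81965) (nat_lit 26) (.e (nat_lit 147492) (nat_lit 11) (.e (nat_lit 24665) (nat_lit 14) (.e (nat_lit 401413) (nat_lit 0) (.e (nat_lit 2438) (nat_lit 157) (.e (nat_lit 6301) (nat_lit 337) .nil))))))) (.g (nat_lit 4) .nil .nil)))) (.nd (nat_lit 5) 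
(.lf (nat_lit 38425) (.g (nat_lit 1825) (.e (nat_lit 1221) (nat_lit 90) (.e (nat_lit 81965) (nat_lit 26) (.e (nat_lit 147492) (nat_lit 11) (.e (nat_lit 24650) (nat_lit 12) (.e (nat_lit 385043) (nat_lit 21) (.e (nat_lit 4500) (nat_lit 263) .nil)))))) (.g (nat_lit 5) .nil .nil))) 
(.lf (nat_lit 38457) (.g (nat_lit 1843) (.e (nat_lit 1221) (nat_lit 90) (.e (nat_lit 81965) (nat_lit 26) (.e (nat_lit 147492) (nat_lit 11) (.e (nat_lit 24665) (nat_lit 14) (.e (nat_lit 409344) (nat_lit 21) .nil))))) .nil))))) (.nd (nat_lit 3) (.nd (nat_lit 4) (.nd (nat_lit 5) 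
(.lf (nat_lit 38405) (.g (nat_lit 354) (.e (nat_lit 1221) (nat_lit 90) (.e (nat_lit 81965) (nat_lit 26) (.e (nat_lit 147492) (nat_lit 11) .nil))) .nil)) 
(.lf (nat_lit 38437) (.g (nat_lit 1631) (.e (nat_lit 1221) (nat_lit 90) (.e (nat_lit 81965) (nat_lit 26) (.e (nat_lit 147492) (nat_lit 11) (.e (nat_lit 24664) (nat_lit 14) (.e (nat_lit 401422) (nat_lit 1) (.e (nat_lit 164147) (nat_lit 152) .nil)))))) (.g (nat_lit 4) .nil .nil)))) (.nd (nat_lit 5) 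
(.lf (nat_lit 38421) (.g (nat_lit 1378) (.e (nat_lit 1221) (nat_lit 90) (.e (nat_lit 81965) (nat_lit 26) (.e (nat_lit 147492) (nat_lit 11) (.e (nat_lit 24641) (nat_lit 10) (.e (nat_lit 344089) (nat_lit 18) (.e (nat_lit 7133) (nat_lit 382) .nil)))))) (.g (nat_lit 4) .nil .nil))) 
(.lf (nat_lit 38453) (.g (nat_lit 2739) (.e (nat_lit 1221) (nat_lit 90) (.e (nat_lit 81965) (nat_lit 26) (.e (nat_lit 147492) (nat_lit 11) (.e (nat_lit 24665) (nat_lit 14) (.e (nat_lit 401421) (nat_lit 1) (.e (nat_lit 164163) (nat_lit 152) .nil)))))) (.g (nat_lit 6) .nil .nil))))) (.nd (nat_lit 4) (.nd (nat_lit 5) 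
(.lf (nat_lit 38413) (.g (nat_lit 1311) (.e (nat_lit 1221) (nat_lit 90) (.e (nat_lit 81965) (nat_lit 26) (.e (nat_lit 147492) (nat_lit 11) (.e (nat_lit 24627) (nat_lit 9) (.e (nat_lit 335939) (nat_lit 0) .nil))))) .nil)) 
(.lf (nat_lit 38445) (.g (nat_lit 2223) (.e (nat_lit 1221) (nat_lit 90) (.e (nat_lit 81965) (nat_lit 26) (.e (nat_lit 147492) (nat_lit 11) (.e (nat_lit 24665) (nat_lit 14) (.e (nat_lit 401414) (nat_lit 0) (.e (nat_lit 2438) (nat_lit 157) (.e (nat_lit 6305) (nat_lit 337) .nil))))))) (.g (nat_lit 4) .nil .nil)))) (.nd (nat_lit 5) 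
(.lf (nat_lit 38429) (.g (nat_lit 1668) (.e (nat_lit 1221) (nat_lit 90) (.e (nat_lit 81965) (nat_lit 26) (.e (nat_lit 147492) (nat_lit 11) (.e (nat_lit 24650) (nat_lit 12) (.e (nat_lit 385053) (nat_lit 21) (.e (nat_lit 4490) (nat_lit 263) .nil)))))) (.g (nat_lit 5) .nil .nil))) 
(.lf (nat_lit 38461) (.g (nat_lit 2719) (.e (nat_lit 1221) (nat_lit 90) (.e (nat_lit 81965) (nat_lit 26) (.e (nat_lit 147493) (nat_lit 11) (.e (nat_lit 24665) (nat_lit 14) (.e (nat_lit 401420) (nat_lit 1) (.e (nat_lit 164163) (nat_lit 152) .nil)))))) (.g (nat_lit 4) .nil .nil))))))) (.nd (nat_lit 2) (.nd (nat_lit 3) (.nd (nat_lit 4) (.nd (nat_lit 5) 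
(.lf (nat_lit 38403) (.g (nat_lit 665) (.e (nat_lit 1221) (nat_lit 90) (.e (nat_lit 81965) (nat_lit 26) (.e (nat_lit 147489) (nat_lit 10) .nil))) .nil)) 
(.lf (nat_lit 38435) (.g (nat_lit 1887) (.e (nat_lit 1221) (nat_lit 90) (.e (nat_lit 81965) (nat_lit 26) (.e (nat_lit 147492) (nat_lit 11) (.e (nat_lit 24664) (nat_lit 14) (.e (nat_lit 401420) (nat_lit 1) (.e (nat_lit 164147) (nat_lit 152) .nil)))))) (.g (nat_lit 4) .nil .nil)))) (.nd (nat_lit 5) 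
(.lf (nat_lit 38419) (.g (nat_lit 2197) (.e (nat_lit 1221) (nat_lit 90) (.e (nat_lit 81965) (nat_lit 26) (.e (nat_lit 147492) (nat_lit 11) (.e (nat_lit 24640) (nat_lit 10) (.e (nat_lit 344088) (nat_lit 18) (.e (nat_lit 7237) (nat_lit 382) .nil)))))) (.g (nat_lit 4) .nil .nil))) 
(.lf (nat_lit 38451) (.g (nat_lit 2608) (.e (nat_lit 1221) (nat_lit 90) (.e (nat_lit 81965) (nat_lit 26) (.e (nat_lit 147492) (nat_lit 11) (.e (nat_lit 24665) (nat_lit 14) (.e (nat_lit 401420) (nat_lit 1) (.e (nat_lit 164147) (nat_lit 152) .nil)))))) (.g (nat_lit 6) .nil .nil))))) (.nd (nat_lit 4) (.nd (nat_lit 5) 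
(.lf (nat_lit 38411) (.g (nat_lit 1520) (.e (nat_lit 1221) (nat_lit 90) (.e (nat_lit 81965) (nat_lit 26) (.e (nat_lit 147492) (nat_lit 11) (.e (nat_lit 24580) (nat_lit 0) (.e (nat_lit 6714) (nat_lit 360) (.e (nat_lit 163851) (nat_lit 0) (.e (nat_lit 6264) (nat_lit 337) .nil))))))) (.g (nat_lit 4) .nil .nil))) 
(.lf (nat_lit 38443) (.g (nat_lit 2110) (.e (nat_lit 1221) (nat_lit 90) (.e (nat_lit 81965) (nat_lit 26) (.e (nat_lit 147492) (nat_lit 11) (.e (nat_lit 24665) (nat_lit 14) (.e (nat_lit 401413) (nat_lit 0) (.e (nat_lit 2458) (nat_lit 157) (.e (nat_lit 6264) (nat_lit 337) .nil))))))) (.g (nat_lit 4) .nil .nil)))) (.nd (nat_lit 5) 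
(.lf (nat_lit 38427) (.g (nat_lit 1981) (.e (nat_lit 1221) (nat_lit 90) (.e (nat_lit 81965) (nat_lit 26) (.e (nat_lit 147492) (nat_lit 11) (.e (nat_lit 24650) (nat_lit 12) (.e (nat_lit 385045) (nat_lit 21) (.e (nat_lit 4439) (nat_lit 263) .nil)))))) (.g (nat_lit 6) .nil .nil))) 
(.lf (nat_lit 38459) (.g (nat_lit 1616) (.e (nat_lit 1221) (nat_lit 90) (.e (nat_lit 81965) (nat_lit 26) (.e (nat_lit 147493) (nat_lit 11) (.e (nat_lit 24638) (nat_lit 9) (.e (nat_lit 335988) (nat_lit 1) (.e (nat_lit 65280) (nat_lit 152) .nil)))))) (.g (nat_lit 4) .nil .nil)))))) (.nd (nat_lit 3) (.nd (nat_lit 4) (.nd (nat_lit 5) 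
(.lf (nat_lit 38407) (.g (nat_lit 2670) (.e (nat_lit 1221) (nat_lit 90) (.e (nat_lit 81965) (nat_lit 26) (.e (nat_lit 147492) (nat_lit 11) (.e (nat_lit 24580) (nat_lit 0) (.e (nat_lit 6619) (nat_lit 357) (.e (nat_lit 2612) (nat_lit 163) (.e (nat_lit 164163) (nat_lit 152) .nil))))))) (.g (nat_lit 6) .nil .nil))) 
(.lf (nat_lit 38439) (.g (nat_lit 1636) (.e (nat_lit 1221) (nat_lit 90) (.e (nat_lit 81965) (nat_lit 26) (.e (nat_lit 147492) (nat_lit 11) (.e (nat_lit 24665) (nat_lit 14) (.e (nat_lit 401413) (nat_lit 0) .nil))))) .nil))) (.nd (nat_lit 5) 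
(.lf (nat_lit 38423) (.g (nat_lit 1491) (.e (nat_lit 1221) (nat_lit 90) (.e (nat_lit 81965) (nat_lit 26) (.e (nat_lit 147492) (nat_lit 11) (.e (nat_lit 24648) (nat_lit 12) (.e (nat_lit 385047) (nat_lit 21) (.e (nat_lit 4491) (nat_lit 263) .nil)))))) (.g (nat_lit 4) .nil .nil))) 
(.lf (nat_lit 38455) (.g (nat_lit 3077) (.e (nat_lit 1221) (nat_lit 90) (.e (nat_lit 81965) (nat_lit 26) (.e (nat_lit 147492) (nat_lit 11) (.e (nat_lit 24665) (nat_lit 14) (.e (nat_lit 401429) (nat_lit 4) (.e (nat_lit 229547) (nat_lit 152) .nil)))))) (.g (nat_lit 5) .nil .nil))))) (.nd (nat_lit 4) (.nd (nat_lit 5) 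
(.lf (nat_lit 38415) (.g (nat_lit 2300) (.e (nat_lit 1221) (nat_lit 90) (.e (nat_lit 81965) (nat_lit 26) (.e (nat_lit 147492) (nat_lit 11) (.e (nat_lit 24631) (nat_lit 9) (.e (nat_lit 335907) (nat_lit 0) (.e (nat_lit 970) (nat_lit 81) (.e (nat_lit 7232) (nat_lit 382) .nil))))))) (.g (nat_lit 5) .nil .nil))) 
(.lf (nat_lit 38447) (.g (nat_lit 2758) (.e (nat_lit 1221) (nat_lit 90) (.e (nat_lit 81965) (nat_lit 26) (.e (nat_lit 147492) (nat_lit 11) (.e (nat_lit 24665) (nat_lit 14) (.e (nat_lit 401414) (nat_lit 0) (.e (nat_lit 2458) (nat_lit 157) (.e (nat_lit 6306) (nat_lit 337) .nil))))))) (.g (nat_lit 5) .nil .nil)))) (.nd (nat_lit 5) 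
(.lf (nat_lit 38431) (.g (nat_lit 2005) (.e (nat_lit 1221) (nat_lit 90) (.e (nat_lit 81965) (nat_lit 26) (.e (nat_lit 147492) (nat_lit 11) (.e (nat_lit 24653) (nat_lit 12) (.e (nat_lit 385045) (nat_lit 21) (.e (nat_lit 4439) (nat_lit 263) .nil)))))) (.g (nat_lit 6) .nil .nil))) 
(.lf (nat_lit 38463) (.g (nat_lit 2428) (.e (nat_lit 1221) (nat_lit 90) (.e (nat_lit 81965) (nat_lit 26) (.e (nat_lit 147493) (nat_lit 11) (.e (nat_lit 24665) (nat_lit 14) (.e (nat_lit 401421) (nat_lit 1) (.e (nat_lit 164163) (nat_lit 152) .nil)))))) (.g (nat_lit 4) .nil .nil)))))))))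

noncomputable def tv534 : DT := (.nd (nat_lit 0) (.nd (nat_lit 1) (.nd (nat_lit 2) (.nd (nat_lit 3) (.nd (nat_lit 4) (.nd (nat_lit 5) 
(.lf (nat_lit 38464) (.g (nat_lit 2029) (.e (nat_lit 1221) (nat_lit 90) (.e (nat_lit 81965) (nat_lit 26) (.e (nat_lit 147494) (nat_lit 11) (.e (nat_lit 24638) (nat_lit 9) (.e (nat_lit 335988) (nat_lit 1) (.e (nat_lit 65280) (nat_lit 152) .nil)))))) (.g (nat_lit 4) .nil .nil))) 
(.lf (nat_lit 38496) (.g (nat_lit 1227) (.e (nat_lit 1221) (nat_lit 90) (.e (nat_lit 81965) (nat_lit 26) (.e (nat_lit 147495) (nat_lit 11) (.e (nat_lit 24641) (nat_lit 10) .nil)))) .nil))) (.nd (nat_lit 5) 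
(.lf (nat_lit 38480) (.g (nat_lit 2414) (.e (nat_lit 1221) (nat_lit 90) (.e (nat_lit 81965) (nat_lit 26) (.e (nat_lit 147495) (nat_lit 11) (.e (nat_lit 24628) (nat_lit 9) (.e (nat_lit 335878) (nat_lit 0) (.e (nat_lit 999) (nat_lit 81) (.e (nat_lit 7236) (nat_lit 382) .nil))))))) (.g (nat_lit 4) .nil .nil))) 
(.lf (nat_lit 38512) (.g (nat_lit 1995) (.e (nat_lit 1221) (nat_lit 90) (.e (nat_lit 81965) (nat_lit 26) (.e (nat_lit 147496) (nat_lit 11) (.e (nat_lit 24584) (nat_lit 0) (.e (nat_lit 6212) (nat_lit 333) (.e (nat_lit 57583) (nat_lit 61) (.e (nat_lit 6322) (nat_lit 337) .nil))))))) (.g (nat_lit 4) .nil .nil))))) (.nd (nat_lit 4) (.nd (nat_lit 5) 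
(.lf (nat_lit 38472) (.g (nat_lit 2621) (.e (nat_lit 1221) (nat_lit 90) (.e (nat_lit 81965) (nat_lit 26) (.e (nat_lit 147494) (nat_lit 11) (.e (nat_lit 24665) (nat_lit 14) (.e (nat_lit 401421) (nat_lit 1) (.e (nat_lit 164147) (nat_lit 152) .nil)))))) (.g (nat_lit 4) .nil .nil))) 
(.lf (nat_lit 38504) (.g (nat_lit 3094) (.e (nat_lit 1221) (nat_lit 90) (.e (nat_lit 81965) (nat_lit 26) (.e (nat_lit 147495) (nat_lit 11) (.e (nat_lit 24665) (nat_lit 14) (.e (nat_lit 401421) (nat_lit 1) (.e (nat_lit 164147) (nat_lit 152) .nil)))))) (.g (nat_lit 4) .nil .nil)))) (.nd (nat_lit 5) 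
(.lf (nat_lit 38488) (.g (nat_lit 2733) (.e (nat_lit 1221) (nat_lit 90) (.e (nat_lit 81965) (nat_lit 26) (.e (nat_lit 147495) (nat_lit 11) (.e (nat_lit 24640) (nat_lit 10) (.e (nat_lit 344088) (nat_lit 18) (.e (nat_lit 7133) (nat_lit 382) .nil)))))) (.g (nat_lit 4) .nil .nil))) 
(.lf (nat_lit 38520) (.g (nat_lit 2071) (.e (nat_lit 1221) (nat_lit 90) (.e (nat_lit 81965) (nat_lit 26) (.e (nat_lit 147496) (nat_lit 11) (.e (nat_lit 24617) (nat_lit 7) (.e (nat_lit 319511) (nat_lit 10) (.e (nat_lit 63) (nat_lit 0) (.e (nat_lit 6264) (nat_lit 337) .nil))))))) (.g (nat_lit 4) .nil .nil)))))) (.nd (nat_lit 3) (.nd (nat_lit 4) (.nd (nat_lit 5) 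
(.lf (nat_lit 38468) (.g (nat_lit 2524) (.e (nat_lit 1221) (nat_lit 90) (.e (nat_lit 81965) (nat_lit 26) (.e (nat_lit 147494) (nat_lit 11) (.e (nat_lit 24665) (nat_lit 14) (.e (nat_lit 401418) (nat_lit 0) .nil))))) .nil)) 
(.lf (nat_lit 38500) (.g (nat_lit 1133) (.e (nat_lit 1221) (nat_lit 90) (.e (nat_lit 81965) (nat_lit 26) (.e (nat_lit 147495) (nat_lit 11) (.e (nat_lit 24665) (nat_lit 14) .nil)))) .nil))) (.nd (nat_lit 5) 
(.lf (nat_lit 38484) (.g (nat_lit 1884) (.e (nat_lit 1221) (nat_lit 90) (.e (nat_lit 81965) (nat_lit 26) (.e (nat_lit 147495) (nat_lit 11) (.e (nat_lit 24639) (nat_lit 10) (.e (nat_lit 344093) (nat_lit 18) .nil))))) .nil)) 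
(.lf (nat_lit 38516) (.g (nat_lit 2143) (.e (nat_lit 1221) (nat_lit 90) (.e (nat_lit 81965) (nat_lit 26) (.e (nat_lit 147496) (nat_lit 11) (.e (nat_lit 24616) (nat_lit 7) (.e (nat_lit 319516) (nat_lit 11) (.e (nat_lit 8544) (nat_lit 230) .nil)))))) (.g (nat_lit 4) .nil .nil))))) (.nd (nat_lit 4) (.nd (nat_lit 5) 
(.lf (nat_lit 38476) (.g (nat_lit 2737) (.e (nat_lit 1221) (nat_lit 90) (.e (nat_lit 81965) (nat_lit 26) (.e (nat_lit 147494) (nat_lit 11) (.e (nat_lit 24665) (nat_lit 14) (.e (nat_lit 401429) (nat_lit 4) (.e (nat_lit 229547) (nat_lit 152) .nil)))))) (.g (nat_lit 4) .nil .nil))) 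
(.lf (nat_lit 38508) (.g (nat_lit 420) (.e (nat_lit 1221) (nat_lit 90) (.e (nat_lit 81965) (nat_lit 26) (.e (nat_lit 147496) (nat_lit 11) .nil))) .nil))) (.nd (nat_lit 5) 
(.lf (nat_lit 38492) (.g (nat_lit 3056) (.e (nat_lit 1221) (nat_lit 90) (.e (nat_lit 81965) (nat_lit 26) (.e (nat_lit 147495) (nat_lit 11) (.e (nat_lit 24640) (nat_lit 10) (.e (nat_lit 344089) (nat_lit 18) (.e (nat_lit 7133) (nat_lit 382) .nil)))))) (.g (nat_lit 5) .nil .nil))) 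
(.lf (nat_lit 38524) (.g (nat_lit 1818) (.e (nat_lit 1221) (nat_lit 90) (.e (nat_lit 81965) (nat_lit 26) (.e (nat_lit 147496) (nat_lit 11) (.e (nat_lit 24617) (nat_lit 7) (.e (nat_lit 327424) (nat_lit 10) (.e (nat_lit 28) (nat_lit 0) (.e (nat_lit 6264) (nat_lit 337) .nil))))))) (.g (nat_lit 4) .nil .nil))))))) (.nd (nat_lit 2) (.nd (nat_lit 3) (.nd (nat_lit 4) (.nd (nat_lit 5) 
(.lf (nat_lit 38466) (.g (nat_lit 2175) (.e (nat_lit 1221) (nat_lit 90) (.e (nat_lit 81965) (nat_lit 26) (.e (nat_lit 147494) (nat_lit 11) (.e (nat_lit 24665) (nat_lit 14) (.e (nat_lit 401413) (nat_lit 0) .nil))))) .nil)) 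
(.lf (nat_lit 38498) (.g (nat_lit 2032) (.e (nat_lit 1221) (nat_lit 90) (.e (nat_lit 81965) (nat_lit 26) (.e (nat_lit 147495) (nat_lit 11) (.e (nat_lit 24641) (nat_lit 10) (.e (nat_lit 344096) (nat_lit 18) (.e (nat_lit 7236) (nat_lit 382) .nil)))))) (.g (nat_lit 4) .nil .nil)))) (.nd (nat_lit 5) 
(.lf (nat_lit 38482) (.g (nat_lit 1136) (.e (nat_lit 1221) (nat_lit 90) (.e (nat_lit 81965) (nat_lit 26) (.e (nat_lit 147495) (nat_lit 11) (.e (nat_lit 24639) (nat_lit 10) .nil)))) .nil)) 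
(.lf (nat_lit 38514) (.g (nat_lit 2171) (.e (nat_lit 1221) (nat_lit 90) (.e (nat_lit 81965) (nat_lit 26) (.e (nat_lit 147496) (nat_lit 11) (.e (nat_lit 24584) (nat_lit 0) (.e (nat_lit 6212) (nat_lit 333) (.e (nat_lit 57584) (nat_lit 61) (.e (nat_lit 6321) (nat_lit 337) .nil))))))) (.g (nat_lit 4) .nil .nil))))) (.nd (nat_lit 4) (.nd (nat_lit 5) 
(.lf (nat_lit 38474) (.g (nat_lit 2442) (.e (nat_lit 1221) (nat_lit 90) (.e (nat_lit 81965) (nat_lit 26) (.e (nat_lit 147494) (nat_lit 11) (.e (nat_lit 24665) (nat_lit 14) (.e (nat_lit 401429) (nat_lit 4) .nil))))) .nil)) 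
(.lf (nat_lit 38506) (.g (nat_lit 2373) (.e (nat_lit 1221) (nat_lit 90) (.e (nat_lit 81965) (nat_lit 26) (.e (nat_lit 147495) (nat_lit 11) (.e (nat_lit 24665) (nat_lit 14) (.e (nat_lit 401429) (nat_lit 4) .nil))))) .nil))) (.nd (nat_lit 5) 
(.lf (nat_lit 38490) (.g (nat_lit 3247) (.e (nat_lit 1221) (nat_lit 90) (.e (nat_lit 81965) (nat_lit 26) (.e (nat_lit 147495) (nat_lit 11) (.e (nat_lit 24640) (nat_lit 10) (.e (nat_lit 344088) (nat_lit 18) (.e (nat_lit 7233) (nat_lit 382) .nil)))))) (.g (nat_lit 5) .nil .nil))) 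
(.lf (nat_lit 38522) (.g (nat_lit 1149) (.e (nat_lit 1221) (nat_lit 90) (.e (nat_lit 81965) (nat_lit 26) (.e (nat_lit 147496) (nat_lit 11) (.e (nat_lit 24617) (nat_lit 7) (.e (nat_lit 327424) (nat_lit 10) .nil))))) .nil))))) (.nd (nat_lit 3) (.nd (nat_lit 4) (.nd (nat_lit 5) 
(.lf (nat_lit 38470) (.g (nat_lit 2376) (.e (nat_lit 1221) (nat_lit 90) (.e (nat_lit 81965) (nat_lit 26) (.e (nat_lit 147494) (nat_lit 11) (.e (nat_lit 24665) (nat_lit 14) (.e (nat_lit 401420) (nat_lit 1) (.e (nat_lit 164147) (nat_lit 152) .nil)))))) (.g (nat_lit 4) .nil .nil))) 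
(.lf (nat_lit 38502) (.g (nat_lit 2813) (.e (nat_lit 1221) (nat_lit 90) (.e (nat_lit 81965) (nat_lit 26) (.e (nat_lit 147495) (nat_lit 11) (.e (nat_lit 24665) (nat_lit 14) (.e (nat_lit 401420) (nat_lit 1) (.e (nat_lit 164147) (nat_lit 152) .nil)))))) (.g (nat_lit 4) .nil .nil)))) (.nd (nat_lit 5) 
(.lf (nat_lit 38486) (.g (nat_lit 1085) (.e (nat_lit 1221) (nat_lit 90) (.e (nat_lit 81965) (nat_lit 26) (.e (nat_lit 147495) (nat_lit 11) (.e (nat_lit 24640) (nat_lit 10) .nil)))) .nil)) 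
(.lf (nat_lit 38518) (.g (nat_lit 3433) (.e (nat_lit 1221) (nat_lit 90) (.e (nat_lit 81965) (nat_lit 26) (.e (nat_lit 147496) (nat_lit 11) (.e (nat_lit 24617) (nat_lit 7) (.e (nat_lit 319505) (nat_lit 10) (.e (nat_lit 52) (nat_lit 0) (.e (nat_lit 6264) (nat_lit 337) .nil))))))) (.g (nat_lit 5) .nil .nil))))) (.nd (nat_lit 4) (.nd (nat_lit 5) 
(.lf (nat_lit 38478) (.g (nat_lit 2372) (.e (nat_lit 1221) (nat_lit 90) (.e (nat_lit 81965) (nat_lit 26) (.e (nat_lit 147495) (nat_lit 11) (.e (nat_lit 24623) (nat_lit 9) (.e (nat_lit 335907) (nat_lit 0) .nil))))) .nil)) 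
(.lf (nat_lit 38510) (.g (nat_lit 2347) (.e (nat_lit 1221) (nat_lit 90) (.e (nat_lit 81965) (nat_lit 26) (.e (nat_lit 147496) (nat_lit 11) (.e (nat_lit 24584) (nat_lit 0) (.e (nat_lit 6113) (nat_lit 332) (.e (nat_lit 1109) (nat_lit 82) (.e (nat_lit 8547) (nat_lit 230) .nil))))))) (.g (nat_lit 4) .nil .nil)))) (.nd (nat_lit 5) 
(.lf (nat_lit 38494) (.g (nat_lit 3699) (.e (nat_lit 1221) (nat_lit 90) (.e (nat_lit 81965) (nat_lit 26) (.e (nat_lit 147495) (nat_lit 11) (.e (nat_lit 24640) (nat_lit 10) (.e (nat_lit 344091) (nat_lit 18) (.e (nat_lit 7236) (nat_lit 382) .nil)))))) (.g (nat_lit 6) .nil .nil))) 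
(.lf (nat_lit 38526) (.g (nat_lit 2395) (.e (nat_lit 1221) (nat_lit 90) (.e (nat_lit 81965) (nat_lit 26) (.e (nat_lit 147496) (nat_lit 11) (.e (nat_lit 24617) (nat_lit 7) (.e (nat_lit 319514) (nat_lit 11) (.e (nat_lit 8544) (nat_lit 230) .nil)))))) (.g (nat_lit 4) .nil .nil)))))))) (.nd (nat_lit 1) (.nd (nat_lit 2) (.nd (nat_lit 3) (.nd (nat_lit 4) (.nd (nat_lit 5) 
(.lf (nat_lit 38465) (.g (nat_lit 1213) (.e (nat_lit 1221) (nat_lit 90) (.e (nat_lit 81965) (nat_lit 26) (.e (nat_lit 147494) (nat_lit 11) (.e (nat_lit 24640) (nat_lit 10) .nil)))) .nil)) 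
(.lf (nat_lit 38497) (.g (nat_lit 2278) (.e (nat_lit 1221) (nat_lit 90) (.e (nat_lit 81965) (nat_lit 26) (.e (nat_lit 147495) (nat_lit 11) (.e (nat_lit 24641) (nat_lit 10) (.e (nat_lit 344091) (nat_lit 18) (.e (nat_lit 7236) (nat_lit 382) .nil)))))) (.g (nat_lit 4) .nil .nil)))) (.nd (nat_lit 5) 
(.lf (nat_lit 38481) (.g (nat_lit 2019) (.e (nat_lit 1221) (nat_lit 90) (.e (nat_lit 81965) (nat_lit 26) (.e (nat_lit 147495) (nat_lit 11) (.e (nat_lit 24631) (nat_lit 9) (.e (nat_lit 335907) (nat_lit 0) .nil))))) .nil)) 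
(.lf (nat_lit 38513) (.g (nat_lit 2245) (.e (nat_lit 1221) (nat_lit 90) (.e (nat_lit 81965) (nat_lit 26) (.e (nat_lit 147496) (nat_lit 11) (.e (nat_lit 24584) (nat_lit 0) (.e (nat_lit 6212) (nat_lit 333) (.e (nat_lit 57584) (nat_lit 61) (.e (nat_lit 6320) (nat_lit 337) .nil))))))) (.g (nat_lit 4) .nil .nil))))) (.nd (nat_lit 4) (.nd (nat_lit 5) 
(.lf (nat_lit 38473) (.g (nat_lit 2421) (.e (nat_lit 1221) (nat_lit 90) (.e (nat_lit 81965) (nat_lit 26) (.e (nat_lit 147494) (nat_lit 11) (.e (nat_lit 24665) (nat_lit 14) (.e (nat_lit 401421) (nat_lit 1) (.e (nat_lit 164163) (nat_lit 152) .nil)))))) (.g (nat_lit 4) .nil .nil))) 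
(.lf (nat_lit 38505) (.g (nat_lit 2894) (.e (nat_lit 1221) (nat_lit 90) (.e (nat_lit 81965) (nat_lit 26) (.e (nat_lit 147495) (nat_lit 11) (.e (nat_lit 24665) (nat_lit 14) (.e (nat_lit 401421) (nat_lit 1) (.e (nat_lit 164163) (nat_lit 152) .nil)))))) (.g (nat_lit 4) .nil .nil)))) (.nd (nat_lit 5) 
(.lf (nat_lit 38489) (.g (nat_lit 2627) (.e (nat_lit 1221) (nat_lit 90) (.e (nat_lit 81965) (nat_lit 26) (.e (nat_lit 147495) (nat_lit 11) (.e (nat_lit 24640) (nat_lit 10) (.e (nat_lit 344088) (nat_lit 18) (.e (nat_lit 7230) (nat_lit 382) .nil)))))) (.g (nat_lit 4) .nil .nil))) 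
(.lf (nat_lit 38521) (.g (nat_lit 2075) (.e (nat_lit 1221) (nat_lit 90) (.e (nat_lit 81965) (nat_lit 26) (.e (nat_lit 147496) (nat_lit 11) (.e (nat_lit 24617) (nat_lit 7) (.e (nat_lit 319511) (nat_lit 10) (.e (nat_lit 79) (nat_lit 0) (.e (nat_lit 6264) (nat_lit 337) .nil))))))) (.g (nat_lit 4) .nil .nil)))))) (.nd (nat_lit 3) (.nd (nat_lit 4) (.nd (nat_lit 5) 
(.lf (nat_lit 38469) (.g (nat_lit 2633) (.e (nat_lit 1221) (nat_lit 90) (.e (nat_lit 81965) (nat_lit 26) (.e (nat_lit 147494) (nat_lit 11) (.e (nat_lit 24665) (nat_lit 14) (.e (nat_lit 401418) (nat_lit 0) (.e (nat_lit 2471) (nat_lit 157) (.e (nat_lit 6264) (nat_lit 337) .nil))))))) (.g (nat_lit 4) .nil .nil))) 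
(.lf (nat_lit 38501) (.g (nat_lit 2342) (.e (nat_lit 1221) (nat_lit 90) (.e (nat_lit 81965) (nat_lit 26) (.e (nat_lit 147495) (nat_lit 11) (.e (nat_lit 24665) (nat_lit 14) (.e (nat_lit 401418) (nat_lit 0) .nil))))) .nil))) (.nd (nat_lit 5) 
(.lf (nat_lit 38485) (.g (nat_lit 3574) (.e (nat_lit 1221) (nat_lit 90) (.e (nat_lit 81965) (nat_lit 26) (.e (nat_lit 147495) (nat_lit 11) (.e (nat_lit 24639) (nat_lit 10) (.e (nat_lit 344096) (nat_lit 18) (.e (nat_lit 7236) (nat_lit 382) .nil)))))) (.g (nat_lit 6) .nil .nil))) 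
(.lf (nat_lit 38517) (.g (nat_lit 853) (.e (nat_lit 1221) (nat_lit 90) (.e (nat_lit 81965) (nat_lit 26) (.e (nat_lit 147496) (nat_lit 11) (.e (nat_lit 24617) (nat_lit 7) .nil)))) .nil)))) (.nd (nat_lit 4) (.nd (nat_lit 5) 
(.lf (nat_lit 38477) (.g (nat_lit 445) (.e (nat_lit 1221) (nat_lit 90) (.e (nat_lit 81965) (nat_lit 26) (.e (nat_lit 147495) (nat_lit 11) .nil))) .nil)) 
(.lf (nat_lit 38509) (.g (nat_lit 2651) (.e (nat_lit 1221) (nat_lit 90) (.e (nat_lit 81965) (nat_lit 26) (.e (nat_lit 147496) (nat_lit 11) (.e (nat_lit 24584) (nat_lit 0) (.e (nat_lit 6113) (nat_lit 332) (.e (nat_lit 1109) (nat_lit 82) (.e (nat_lit 8544) (nat_lit 230) .nil))))))) (.g (nat_lit 5) .nil .nil)))) (.nd (nat_lit 5) 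
(.lf (nat_lit 38493) (.g (nat_lit 2182) (.e (nat_lit 1221) (nat_lit 90) (.e (nat_lit 81965) (nat_lit 26) (.e (nat_lit 147495) (nat_lit 11) (.e (nat_lit 24640) (nat_lit 10) (.e (nat_lit 344089) (nat_lit 18) (.e (nat_lit 7233) (nat_lit 382) .nil)))))) (.g (nat_lit 4) .nil .nil))) 
(.lf (nat_lit 38525) (.g (nat_lit 2021) (.e (nat_lit 1221) (nat_lit 90) (.e (nat_lit 81965) (nat_lit 26) (.e (nat_lit 147496) (nat_lit 11) (.e (nat_lit 24617) (nat_lit 7) (.e (nat_lit 327424) (nat_lit 10) (.e (nat_lit 86) (nat_lit 0) (.e (nat_lit 6306) (nat_lit 337) .nil))))))) (.g (nat_lit 4) .nil .nil))))))) (.nd (nat_lit 2) (.nd (nat_lit 3) (.nd (nat_lit 4) (.nd (nat_lit 5) 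
(.lf (nat_lit 38467) (.g (nat_lit 1905) (.e (nat_lit 1221) (nat_lit 90) (.e (nat_lit 81965) (nat_lit 26) (.e (nat_lit 147494) (nat_lit 11) (.e (nat_lit 24665) (nat_lit 14) (.e (nat_lit 401414) (nat_lit 0) .nil))))) .nil)) 
(.lf (nat_lit 38499) (.g (nat_lit 2397) (.e (nat_lit 1221) (nat_lit 90) (.e (nat_lit 81965) (nat_lit 26) (.e (nat_lit 147495) (nat_lit 11) (.e (nat_lit 24647) (nat_lit 12) (.e (nat_lit 385047) (nat_lit 21) (.e (nat_lit 4491) (nat_lit 263) .nil)))))) (.g (nat_lit 4) .nil .nil)))) (.nd (nat_lit 5) 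
(.lf (nat_lit 38483) (.g (nat_lit 3086) (.e (nat_lit 1221) (nat_lit 90) (.e (nat_lit 81965) (nat_lit 26) (.e (nat_lit 147495) (nat_lit 11) (.e (nat_lit 24639) (nat_lit 10) (.e (nat_lit 344091) (nat_lit 18) (.e (nat_lit 7236) (nat_lit 382) .nil)))))) (.g (nat_lit 5) .nil .nil))) 
(.lf (nat_lit 38515) (.g (nat_lit 2695) (.e (nat_lit 1221) (nat_lit 90) (.e (nat_lit 81965) (nat_lit 26) (.e (nat_lit 147496) (nat_lit 11) (.e (nat_lit 24584) (nat_lit 0) (.e (nat_lit 6212) (nat_lit 333) (.e (nat_lit 57584) (nat_lit 61) (.e (nat_lit 6322) (nat_lit 337) .nil))))))) (.g (nat_lit 5) .nil .nil))))) (.nd (nat_lit 4) (.nd (nat_lit 5) 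
(.lf (nat_lit 38475) (.g (nat_lit 2686) (.e (nat_lit 1221) (nat_lit 90) (.e (nat_lit 81965) (nat_lit 26) (.e (nat_lit 147494) (nat_lit 11) (.e (nat_lit 24665) (nat_lit 14) (.e (nat_lit 401429) (nat_lit 4) (.e (nat_lit 229544) (nat_lit 152) .nil)))))) (.g (nat_lit 4) .nil .nil))) 
(.lf (nat_lit 38507) (.g (nat_lit 1261) (.e (nat_lit 1221) (nat_lit 90) (.e (nat_lit 81965) (nat_lit 26) (.e (nat_lit 147495) (nat_lit 11) (.e (nat_lit 32512) (nat_lit 23) .nil)))) .nil))) (.nd (nat_lit 5) 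
(.lf (nat_lit 38491) (.g (nat_lit 2653) (.e (nat_lit 1221) (nat_lit 90) (.e (nat_lit 81965) (nat_lit 26) (.e (nat_lit 147495) (nat_lit 11) (.e (nat_lit 24640) (nat_lit 10) (.e (nat_lit 344088) (nat_lit 18) (.e (nat_lit 7936) (nat_lit 382) .nil)))))) (.g (nat_lit 4) .nil .nil))) 
(.lf (nat_lit 38523) (.g (nat_lit 1816) (.e (nat_lit 1221) (nat_lit 90) (.e (nat_lit 81965) (nat_lit 26) (.e (nat_lit 147496) (nat_lit 11) (.e (nat_lit 24617) (nat_lit 7) (.e (nat_lit 327424) (nat_lit 10) (.e (nat_lit 17) (nat_lit 0) (.e (nat_lit 6264) (nat_lit 337) .nil))))))) (.g (nat_lit 4) .nil .nil)))))) (.nd (nat_lit 3) (.nd (nat_lit 4) (.nd (nat_lit 5) 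
(.lf (nat_lit 38471) (.g (nat_lit 2353) (.e (nat_lit 1221) (nat_lit 90) (.e (nat_lit 81965) (nat_lit 26) (.e (nat_lit 147494) (nat_lit 11) (.e (nat_lit 24665) (nat_lit 14) (.e (nat_lit 401420) (nat_lit 1) (.e (nat_lit 164163) (nat_lit 152) .nil)))))) (.g (nat_lit 4) .nil .nil))) 
(.lf (nat_lit 38503) (.g (nat_lit 2789) (.e (nat_lit 1221) (nat_lit 90) (.e (nat_lit 81965) (nat_lit 26) (.e (nat_lit 147495) (nat_lit 11) (.e (nat_lit 24665) (nat_lit 14) (.e (nat_lit 401420) (nat_lit 1) (.e (nat_lit 164163) (nat_lit 152) .nil)))))) (.g (nat_lit 4) .nil .nil)))) (.nd (nat_lit 5) 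
(.lf (nat_lit 38487) (.g (nat_lit 2565) (.e (nat_lit 1221) (nat_lit 90) (.e (nat_lit 81965) (nat_lit 26) (.e (nat_lit 147495) (nat_lit 11) (.e (nat_lit 24640) (nat_lit 10) (.e (nat_lit 344087) (nat_lit 18) (.e (nat_lit 7237) (nat_lit 382) .nil)))))) (.g (nat_lit 4) .nil .nil))) 
(.lf (nat_lit 38519) (.g (nat_lit 2102) (.e (nat_lit 1221) (nat_lit 90) (.e (nat_lit 81965) (nat_lit 26) (.e (nat_lit 147496) (nat_lit 11) (.e (nat_lit 24617) (nat_lit 7) (.e (nat_lit 319511) (nat_lit 10) (.e (nat_lit 59) (nat_lit 0) (.e (nat_lit 6322) (nat_lit 337) .nil))))))) (.g (nat_lit 4) .nil .nil))))) (.nd (nat_lit 4) (.nd (nat_lit 5) 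
(.lf (nat_lit 38479) (.g (nat_lit 3520) (.e (nat_lit 1221) (nat_lit 90) (.e (nat_lit 81965) (nat_lit 26) (.e (nat_lit 147495) (nat_lit 11) (.e (nat_lit 24623) (nat_lit 9) (.e (nat_lit 335997) (nat_lit 1) (.e (nat_lit 65280) (nat_lit 152) .nil)))))) (.g (nat_lit 5) .nil .nil))) 
(.lf (nat_lit 38511) (.g (nat_lit 1694) (.e (nat_lit 1221) (nat_lit 90) (.e (nat_lit 81965) (nat_lit 26) (.e (nat_lit 147496) (nat_lit 11) (.e (nat_lit 24584) (nat_lit 0) (.e (nat_lit 6212) (nat_lit 333) .nil))))) .nil))) (.nd (nat_lit 5) 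
(.lf (nat_lit 38495) (.g (nat_lit 2749) (.e (nat_lit 1221) (nat_lit 90) (.e (nat_lit 81965) (nat_lit 26) (.e (nat_lit 147495) (nat_lit 11) (.e (nat_lit 24640) (nat_lit 10) (.e (nat_lit 344093) (nat_lit 18) (.e (nat_lit 7936) (nat_lit 382) .nil)))))) (.g (nat_lit 4) .nil .nil))) 
(.lf (nat_lit 38527) (.g (nat_lit 2462) (.e (nat_lit 1221) (nat_lit 90) (.e (nat_lit 81965) (nat_lit 26) (.e (nat_lit 147496) (nat_lit 11) (.e (nat_lit 24617) (nat_lit 7) (.e (nat_lit 319514) (nat_lit 11) (.e (nat_lit 16128) (nat_lit 230) .nil)))))) (.g (nat_lit 5) .nil .nil)))))))))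

noncomputable def tv535 : DT := (.nd (nat_lit 0) (.nd (nat_lit 1) (.nd (nat_lit 2) (.nd (nat_lit 3) (.nd (nat_lit 4) (.nd (nat_lit 5) 
(.lf (nat_lit 38528) (.g (nat_lit 2262) (.e (nat_lit 1221) (nat_lit 90) (.e (nat_lit 81965) (nat_lit 26) (.e (nat_lit 147496) (nat_lit 11) (.e (nat_lit 24617) (nat_lit 7) (.e (nat_lit 319515) (nat_lit 11) (.e (nat_lit 8544) (nat_lit 230) .nil)))))) (.g (nat_lit 4) .nil .nil))) 
(.lf (nat_lit 38560) (.g (nat_lit 3483) (.e (nat_lit 1221) (nat_lit 90) (.e (nat_lit 81965) (nat_lit 26) (.e (nat_lit 147499) (nat_lit 12) (.e (nat_lit 164020) (nat_lit 45) (.e (nat_lit 696344) (nat_lit 8) (.e (nat_lit 172061) (nat_lit 1) (.e (nat_lit 164147) (nat_lit 152) .nil))))))) (.g (nat_lit 5) .nil .nil)))) (.nd (nat_lit 5) 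
(.lf (nat_lit 38544) (.g (nat_lit 2871) (.e (nat_lit 1221) (nat_lit 90) (.e (nat_lit 81965) (nat_lit 26) (.e (nat_lit 147496) (nat_lit 11) (.e (nat_lit 24640) (nat_lit 10) (.e (nat_lit 344088) (nat_lit 18) (.e (nat_lit 7936) (nat_lit 382) .nil)))))) (.g (nat_lit 4) .nil .nil))) 
(.lf (nat_lit 38576) (.g (nat_lit 2184) (.e (nat_lit 1222) (nat_lit 90) (.e (nat_lit 81924) (nat_lit 0) (.e (nat_lit 3629) (nat_lit 227) (.e (nat_lit 778327) (nat_lit 6) (.e (nat_lit 81957) (nat_lit 24) (.e (nat_lit 123183) (nat_lit 264) .nil)))))) (.g (nat_lit 0) .nil .nil))))) (.nd (nat_lit 4) (.nd (nat_lit 5) 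
(.lf (nat_lit 38536) (.g (nat_lit 1955) (.e (nat_lit 1221) (nat_lit 90) (.e (nat_lit 81965) (nat_lit 26) (.e (nat_lit 147496) (nat_lit 11) (.e (nat_lit 24639) (nat_lit 10) (.e (nat_lit 344089) (nat_lit 18) .nil))))) .nil)) 
(.lf (nat_lit 38568) (.g (nat_lit 2475) (.e (nat_lit 1221) (nat_lit 90) (.e (nat_lit 81965) (nat_lit 26) (.e (nat_lit 147512) (nat_lit 14) (.e (nat_lit 2807) (nat_lit 180) (.e (nat_lit 303137) (nat_lit 10) (.e (nat_lit 434200) (nat_lit 18) (.e (nat_lit 4120) (nat_lit 245) .nil))))))) (.g (nat_lit 5) .nil .nil)))) (.nd (nat_lit 5) 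
(.lf (nat_lit 38552) (.g (nat_lit 2627) (.e (nat_lit 1221) (nat_lit 90) (.e (nat_lit 81965) (nat_lit 26) (.e (nat_lit 147496) (nat_lit 11) (.e (nat_lit 24640) (nat_lit 10) (.e (nat_lit 344102) (nat_lit 18) .nil))))) .nil)) 
(.lf (nat_lit 38584) (.g (nat_lit 2875) (.e (nat_lit 1222) (nat_lit 90) (.e (nat_lit 81924) (nat_lit 0) (.e (nat_lit 3631) (nat_lit 227) (.e (nat_lit 778327) (nat_lit 6) (.e (nat_lit 81959) (nat_lit 24) (.e (nat_lit 123183) (nat_lit 264) .nil)))))) (.g (nat_lit 0) .nil .nil)))))) (.nd (nat_lit 3) (.nd (nat_lit 4) (.nd (nat_lit 5) 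
(.lf (nat_lit 38532) (.g (nat_lit 2686) (.e (nat_lit 1221) (nat_lit 90) (.e (nat_lit 81965) (nat_lit 26) (.e (nat_lit 147496) (nat_lit 11) (.e (nat_lit 24631) (nat_lit 9) (.e (nat_lit 335907) (nat_lit 0) (.e (nat_lit 970) (nat_lit 81) (.e (nat_lit 7232) (nat_lit 382) .nil))))))) (.g (nat_lit 4) .nil .nil))) 
(.lf (nat_lit 38564) (.g (nat_lit 891) (.e (nat_lit 1221) (nat_lit 90) (.e (nat_lit 81965) (nat_lit 26) (.e (nat_lit 147511) (nat_lit 14) (.e (nat_lit 2807) (nat_lit 180) .nil)))) .nil))) (.nd (nat_lit 5) 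
(.lf (nat_lit 38548) (.g (nat_lit 2627) (.e (nat_lit 1221) (nat_lit 90) (.e (nat_lit 81965) (nat_lit 26) (.e (nat_lit 147496) (nat_lit 11) (.e (nat_lit 24640) (nat_lit 10) (.e (nat_lit 344092) (nat_lit 18) .nil))))) .nil)) 
(.lf (nat_lit 38580) (.g (nat_lit 2582) (.e (nat_lit 1222) (nat_lit 90) (.e (nat_lit 81924) (nat_lit 0) (.e (nat_lit 3631) (nat_lit 227) (.e (nat_lit 778326) (nat_lit 6) (.e (nat_lit 81957) (nat_lit 24) (.e (nat_lit 123185) (nat_lit 264) .nil)))))) (.g (nat_lit 0) .nil .nil))))) (.nd (nat_lit 4) (.nd (nat_lit 5) 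
(.lf (nat_lit 38540) (.g (nat_lit 2879) (.e (nat_lit 1221) (nat_lit 90) (.e (nat_lit 81965) (nat_lit 26) (.e (nat_lit 147496) (nat_lit 11) (.e (nat_lit 24640) (nat_lit 10) (.e (nat_lit 344088) (nat_lit 18) (.e (nat_lit 7133) (nat_lit 382) .nil)))))) (.g (nat_lit 5) .nil .nil))) 
(.lf (nat_lit 38572) (.g (nat_lit 1899) (.e (nat_lit 1222) (nat_lit 90) (.e (nat_lit 81921) (nat_lit 0) (.e (nat_lit 3716) (nat_lit 227) (.e (nat_lit 778325) (nat_lit 6) (.e (nat_lit 81957) (nat_lit 24) (.e (nat_lit 123185) (nat_lit 264) .nil)))))) (.g (nat_lit 0) .nil .nil)))) (.nd (nat_lit 5) 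
(.lf (nat_lit 38556) (.g (nat_lit 2535) (.e (nat_lit 1221) (nat_lit 90) (.e (nat_lit 81965) (nat_lit 26) (.e (nat_lit 147496) (nat_lit 11) (.e (nat_lit 24641) (nat_lit 10) (.e (nat_lit 344089) (nat_lit 18) (.e (nat_lit 7133) (nat_lit 382) .nil)))))) (.g (nat_lit 6) .nil .nil))) 
(.lf (nat_lit 38588) (.g (nat_lit 2544) (.e (nat_lit 1222) (nat_lit 90) (.e (nat_lit 81924) (nat_lit 0) (.e (nat_lit 3632) (nat_lit 227) (.e (nat_lit 778326) (nat_lit 6) (.e (nat_lit 81959) (nat_lit 24) (.e (nat_lit 123185) (nat_lit 264) .nil)))))) (.g (nat_lit 0) .nil .nil))))))) (.nd (nat_lit 2) (.nd (nat_lit 3) (.nd (nat_lit 4) (.nd (nat_lit 5) 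
(.lf (nat_lit 38530) (.g (nat_lit 3039) (.e (nat_lit 1221) (nat_lit 90) (.e (nat_lit 81965) (nat_lit 26) (.e (nat_lit 147496) (nat_lit 11) (.e (nat_lit 24623) (nat_lit 9) (.e (nat_lit 335997) (nat_lit 1) (.e (nat_lit 65280) (nat_lit 152) .nil)))))) (.g (nat_lit 5) .nil .nil))) 
(.lf (nat_lit 38562) (.g (nat_lit 2473) (.e (nat_lit 1221) (nat_lit 90) (.e (nat_lit 81965) (nat_lit 26) (.e (nat_lit 147500) (nat_lit 12) (.e (nat_lit 164020) (nat_lit 45) (.e (nat_lit 696344) (nat_lit 8) (.e (nat_lit 172061) (nat_lit 1) (.e (nat_lit 164147) (nat_lit 152) .nil))))))) (.g (nat_lit 4) .nil .nil)))) (.nd (nat_lit 5) 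
(.lf (nat_lit 38546) (.g (nat_lit 2255) (.e (nat_lit 1221) (nat_lit 90) (.e (nat_lit 81965) (nat_lit 26) (.e (nat_lit 147496) (nat_lit 11) (.e (nat_lit 24640) (nat_lit 10) (.e (nat_lit 344089) (nat_lit 18) (.e (nat_lit 7233) (nat_lit 382) .nil)))))) (.g (nat_lit 4) .nil .nil))) 
(.lf (nat_lit 38578) (.g (nat_lit 2402) (.e (nat_lit 1222) (nat_lit 90) (.e (nat_lit 81924) (nat_lit 0) (.e (nat_lit 3630) (nat_lit 227) (.e (nat_lit 778326) (nat_lit 6) (.e (nat_lit 81959) (nat_lit 24) (.e (nat_lit 123183) (nat_lit 264) .nil)))))) (.g (nat_lit 0) .nil .nil))))) (.nd (nat_lit 4) (.nd (nat_lit 5) 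
(.lf (nat_lit 38538) (.g (nat_lit 1190) (.e (nat_lit 1221) (nat_lit 90) (.e (nat_lit 81965) (nat_lit 26) (.e (nat_lit 147496) (nat_lit 11) (.e (nat_lit 24640) (nat_lit 10) .nil)))) .nil)) 
(.lf (nat_lit 38570) (.g (nat_lit 2136) (.e (nat_lit 1222) (nat_lit 90) (.e (nat_lit 81921) (nat_lit 0) (.e (nat_lit 3711) (nat_lit 227) (.e (nat_lit 778325) (nat_lit 6) (.e (nat_lit 81957) (nat_lit 24) (.e (nat_lit 123185) (nat_lit 264) .nil)))))) (.g (nat_lit 0) .nil .nil)))) (.nd (nat_lit 5) 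
(.lf (nat_lit 38554) (.g (nat_lit 1028) (.e (nat_lit 1221) (nat_lit 90) (.e (nat_lit 81965) (nat_lit 26) (.e (nat_lit 147496) (nat_lit 11) (.e (nat_lit 24641) (nat_lit 10) .nil)))) .nil)) 
(.lf (nat_lit 38586) (.g (nat_lit 2326) (.e (nat_lit 1222) (nat_lit 90) (.e (nat_lit 81924) (nat_lit 0) (.e (nat_lit 3632) (nat_lit 227) (.e (nat_lit 778326) (nat_lit 6) (.e (nat_lit 81958) (nat_lit 24) (.e (nat_lit 123183) (nat_lit 264) .nil)))))) (.g (nat_lit 0) .nil .nil)))))) (.nd (nat_lit 3) (.nd (nat_lit 4) (.nd (nat_lit 5) 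
(.lf (nat_lit 38534) (.g (nat_lit 2428) (.e (nat_lit 1221) (nat_lit 90) (.e (nat_lit 81965) (nat_lit 26) (.e (nat_lit 147496) (nat_lit 11) (.e (nat_lit 24638) (nat_lit 9) (.e (nat_lit 335892) (nat_lit 0) (.e (nat_lit 974) (nat_lit 81) (.e (nat_lit 7236) (nat_lit 382) .nil))))))) (.g (nat_lit 4) .nil .nil))) 
(.lf (nat_lit 38566) (.g (nat_lit 2195) (.e (nat_lit 1221) (nat_lit 90) (.e (nat_lit 81965) (nat_lit 26) (.e (nat_lit 147511) (nat_lit 14) (.e (nat_lit 2807) (nat_lit 180) (.e (nat_lit 303137) (nat_lit 10) (.e (nat_lit 434200) (nat_lit 18) (.e (nat_lit 4120) (nat_lit 245) .nil))))))) (.g (nat_lit 5) .nil .nil)))) (.nd (nat_lit 5) 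
(.lf (nat_lit 38550) (.g (nat_lit 2513) (.e (nat_lit 1221) (nat_lit 90) (.e (nat_lit 81965) (nat_lit 26) (.e (nat_lit 147496) (nat_lit 11) (.e (nat_lit 24640) (nat_lit 10) (.e (nat_lit 344094) (nat_lit 18) .nil))))) .nil)) 
(.lf (nat_lit 38582) (.g (nat_lit 2771) (.e (nat_lit 1222) (nat_lit 90) (.e (nat_lit 81924) (nat_lit 0) (.e (nat_lit 3631) (nat_lit 227) (.e (nat_lit 778326) (nat_lit 6) (.e (nat_lit 81959) (nat_lit 24) (.e (nat_lit 123183) (nat_lit 264) .nil)))))) (.g (nat_lit 0) .nil .nil))))) (.nd (nat_lit 4) (.nd (nat_lit 5) 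
(.lf (nat_lit 38542) (.g (nat_lit 2870) (.e (nat_lit 1221) (nat_lit 90) (.e (nat_lit 81965) (nat_lit 26) (.e (nat_lit 147496) (nat_lit 11) (.e (nat_lit 24640) (nat_lit 10) (.e (nat_lit 344088) (nat_lit 18) (.e (nat_lit 7230) (nat_lit 382) .nil)))))) (.g (nat_lit 4) .nil .nil))) 
(.lf (nat_lit 38574) (.g (nat_lit 2202) (.e (nat_lit 1222) (nat_lit 90) (.e (nat_lit 81924) (nat_lit 0) (.e (nat_lit 3629) (nat_lit 227) (.e (nat_lit 778326) (nat_lit 6) (.e (nat_lit 81957) (nat_lit 24) (.e (nat_lit 123183) (nat_lit 264) .nil)))))) (.g (nat_lit 0) .nil .nil)))) (.nd (nat_lit 5) 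
(.lf (nat_lit 38558) (.g (nat_lit 1466) (.e (nat_lit 1221) (nat_lit 90) (.e (nat_lit 81965) (nat_lit 26) (.e (nat_lit 147496) (nat_lit 11) (.e (nat_lit 24648) (nat_lit 12) .nil)))) .nil)) 
(.lf (nat_lit 38590) (.g (nat_lit 2076) (.e (nat_lit 1222) (nat_lit 90) (.e (nat_lit 81924) (nat_lit 0) (.e (nat_lit 3632) (nat_lit 227) (.e (nat_lit 778327) (nat_lit 6) (.e (nat_lit 81958) (nat_lit 24) (.e (nat_lit 123183) (nat_lit 264) .nil)))))) (.g (nat_lit 5) .nil .nil)))))))) (.nd (nat_lit 1) (.nd (nat_lit 2) (.nd (nat_lit 3) (.nd (nat_lit 4) (.nd (nat_lit 5) 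
(.lf (nat_lit 38529) (.g (nat_lit 2772) (.e (nat_lit 1221) (nat_lit 90) (.e (nat_lit 81965) (nat_lit 26) (.e (nat_lit 147496) (nat_lit 11) (.e (nat_lit 24617) (nat_lit 7) (.e (nat_lit 319516) (nat_lit 11) (.e (nat_lit 8544) (nat_lit 230) .nil)))))) (.g (nat_lit 0) .nil .nil))) 
(.lf (nat_lit 38561) (.g (nat_lit 3446) (.e (nat_lit 1221) (nat_lit 90) (.e (nat_lit 81965) (nat_lit 26) (.e (nat_lit 147499) (nat_lit 12) (.e (nat_lit 164020) (nat_lit 45) (.e (nat_lit 696344) (nat_lit 8) (.e (nat_lit 172061) (nat_lit 1) (.e (nat_lit 164163) (nat_lit 152) .nil))))))) (.g (nat_lit 5) .nil .nil)))) (.nd (nat_lit 5) 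
(.lf (nat_lit 38545) (.g (nat_lit 3045) (.e (nat_lit 1221) (nat_lit 90) (.e (nat_lit 81965) (nat_lit 26) (.e (nat_lit 147496) (nat_lit 11) (.e (nat_lit 24640) (nat_lit 10) (.e (nat_lit 344089) (nat_lit 18) (.e (nat_lit 7133) (nat_lit 382) .nil)))))) (.g (nat_lit 5) .nil .nil))) 
(.lf (nat_lit 38577) (.g (nat_lit 2234) (.e (nat_lit 1222) (nat_lit 90) (.e (nat_lit 81924) (nat_lit 0) (.e (nat_lit 3630) (nat_lit 227) (.e (nat_lit 778326) (nat_lit 6) (.e (nat_lit 81957) (nat_lit 24) (.e (nat_lit 123183) (nat_lit 264) .nil)))))) (.g (nat_lit 0) .nil .nil))))) (.nd (nat_lit 4) (.nd (nat_lit 5) 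
(.lf (nat_lit 38537) (.g (nat_lit 3020) (.e (nat_lit 1221) (nat_lit 90) (.e (nat_lit 81965) (nat_lit 26) (.e (nat_lit 147496) (nat_lit 11) (.e (nat_lit 24639) (nat_lit 10) (.e (nat_lit 344091) (nat_lit 18) (.e (nat_lit 7236) (nat_lit 382) .nil)))))) (.g (nat_lit 5) .nil .nil))) 
(.lf (nat_lit 38569) (.g (nat_lit 1657) (.e (nat_lit 1221) (nat_lit 90) (.e (nat_lit 81965) (nat_lit 26) (.e (nat_lit 147512) (nat_lit 14) (.e (nat_lit 2808) (nat_lit 180) (.e (nat_lit 303140) (nat_lit 10) .nil))))) .nil))) (.nd (nat_lit 5) 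
(.lf (nat_lit 38553) (.g (nat_lit 2379) (.e (nat_lit 1221) (nat_lit 90) (.e (nat_lit 81965) (nat_lit 26) (.e (nat_lit 147496) (nat_lit 11) (.e (nat_lit 24640) (nat_lit 10) (.e (nat_lit 352000) (nat_lit 18) .nil))))) .nil)) 
(.lf (nat_lit 38585) (.g (nat_lit 2809) (.e (nat_lit 1222) (nat_lit 90) (.e (nat_lit 81924) (nat_lit 0) (.e (nat_lit 3632) (nat_lit 227) (.e (nat_lit 778326) (nat_lit 6) (.e (nat_lit 81957) (nat_lit 24) (.e (nat_lit 123183) (nat_lit 264) .nil)))))) (.g (nat_lit 0) .nil .nil)))))) (.nd (nat_lit 3) (.nd (nat_lit 4) (.nd (nat_lit 5) 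
(.lf (nat_lit 38533) (.g (nat_lit 1168) (.e (nat_lit 1221) (nat_lit 90) (.e (nat_lit 81965) (nat_lit 26) (.e (nat_lit 147496) (nat_lit 11) (.e (nat_lit 24638) (nat_lit 9) .nil)))) .nil)) 
(.lf (nat_lit 38565) (.g (nat_lit 1961) (.e (nat_lit 1221) (nat_lit 90) (.e (nat_lit 81965) (nat_lit 26) (.e (nat_lit 147511) (nat_lit 14) (.e (nat_lit 2807) (nat_lit 180) (.e (nat_lit 303137) (nat_lit 10) (.e (nat_lit 434200) (nat_lit 18) (.e (nat_lit 4117) (nat_lit 245) .nil))))))) (.g (nat_lit 4) .nil .nil)))) (.nd (nat_lit 5) 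
(.lf (nat_lit 38549) (.g (nat_lit 3206) (.e (nat_lit 1221) (nat_lit 90) (.e (nat_lit 81965) (nat_lit 26) (.e (nat_lit 147496) (nat_lit 11) (.e (nat_lit 24640) (nat_lit 10) (.e (nat_lit 344093) (nat_lit 18) (.e (nat_lit 7936) (nat_lit 382) .nil)))))) (.g (nat_lit 4) .nil .nil))) 
(.lf (nat_lit 38581) (.g (nat_lit 2118) (.e (nat_lit 1222) (nat_lit 90) (.e (nat_lit 81924) (nat_lit 0) (.e (nat_lit 3631) (nat_lit 227) (.e (nat_lit 778326) (nat_lit 6) (.e (nat_lit 81958) (nat_lit 24) (.e (nat_lit 123183) (nat_lit 264) .nil)))))) (.g (nat_lit 6) .nil .nil))))) (.nd (nat_lit 4) (.nd (nat_lit 5) 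
(.lf (nat_lit 38541) (.g (nat_lit 2198) (.e (nat_lit 1221) (nat_lit 90) (.e (nat_lit 81965) (nat_lit 26) (.e (nat_lit 147496) (nat_lit 11) (.e (nat_lit 24640) (nat_lit 10) (.e (nat_lit 344088) (nat_lit 18) (.e (nat_lit 7137) (nat_lit 382) .nil)))))) (.g (nat_lit 4) .nil .nil))) 
(.lf (nat_lit 38573) (.g (nat_lit 3252) (.e (nat_lit 1222) (nat_lit 90) (.e (nat_lit 81924) (nat_lit 0) (.e (nat_lit 3305) (nat_lit 202) (.e (nat_lit 573493) (nat_lit 15) (.e (nat_lit 81959) (nat_lit 24) (.e (nat_lit 130816) (nat_lit 140) .nil)))))) (.g (nat_lit 5) .nil .nil)))) (.nd (nat_lit 5) 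
(.lf (nat_lit 38557) (.g (nat_lit 1922) (.e (nat_lit 1221) (nat_lit 90) (.e (nat_lit 81965) (nat_lit 26) (.e (nat_lit 147496) (nat_lit 11) (.e (nat_lit 24641) (nat_lit 10) (.e (nat_lit 352000) (nat_lit 18) (.e (nat_lit 7237) (nat_lit 382) .nil)))))) (.g (nat_lit 4) .nil .nil))) 
(.lf (nat_lit 38589) (.g (nat_lit 2617) (.e (nat_lit 1222) (nat_lit 90) (.e (nat_lit 81924) (nat_lit 0) (.e (nat_lit 3632) (nat_lit 227) (.e (nat_lit 778327) (nat_lit 6) (.e (nat_lit 81957) (nat_lit 24) (.e (nat_lit 123183) (nat_lit 264) .nil)))))) (.g (nat_lit 0) .nil .nil))))))) (.nd (nat_lit 2) (.nd (nat_lit 3) (.nd (nat_lit 4) (.nd (nat_lit 5) 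
(.lf (nat_lit 38531) (.g (nat_lit 2712) (.e (nat_lit 1221) (nat_lit 90) (.e (nat_lit 81965) (nat_lit 26) (.e (nat_lit 147496) (nat_lit 11) (.e (nat_lit 24628) (nat_lit 9) (.e (nat_lit 335878) (nat_lit 0) (.e (nat_lit 999) (nat_lit 81) (.e (nat_lit 7236) (nat_lit 382) .nil))))))) (.g (nat_lit 4) .nil .nil))) 
(.lf (nat_lit 38563) (.g (nat_lit 2437) (.e (nat_lit 1221) (nat_lit 90) (.e (nat_lit 81965) (nat_lit 26) (.e (nat_lit 147500) (nat_lit 12) (.e (nat_lit 164020) (nat_lit 45) (.e (nat_lit 696344) (nat_lit 8) (.e (nat_lit 172061) (nat_lit 1) (.e (nat_lit 164163) (nat_lit 152) .nil))))))) (.g (nat_lit 4) .nil .nil)))) (.nd (nat_lit 5) 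
(.lf (nat_lit 38547) (.g (nat_lit 3781) (.e (nat_lit 1221) (nat_lit 90) (.e (nat_lit 81965) (nat_lit 26) (.e (nat_lit 147496) (nat_lit 11) (.e (nat_lit 24640) (nat_lit 10) (.e (nat_lit 344091) (nat_lit 18) (.e (nat_lit 7236) (nat_lit 382) .nil)))))) (.g (nat_lit 6) .nil .nil))) 
(.lf (nat_lit 38579) (.g (nat_lit 2665) (.e (nat_lit 1222) (nat_lit 90) (.e (nat_lit 81924) (nat_lit 0) (.e (nat_lit 3631) (nat_lit 227) (.e (nat_lit 778326) (nat_lit 6) (.e (nat_lit 81957) (nat_lit 24) (.e (nat_lit 123183) (nat_lit 264) .nil)))))) (.g (nat_lit 0) .nil .nil))))) (.nd (nat_lit 4) (.nd (nat_lit 5) 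
(.lf (nat_lit 38539) (.g (nat_lit 3165) (.e (nat_lit 1221) (nat_lit 90) (.e (nat_lit 81965) (nat_lit 26) (.e (nat_lit 147496) (nat_lit 11) (.e (nat_lit 24640) (nat_lit 10) (.e (nat_lit 344087) (nat_lit 18) (.e (nat_lit 7237) (nat_lit 382) .nil)))))) (.g (nat_lit 4) .nil .nil))) 
(.lf (nat_lit 38571) (.g (nat_lit 2110) (.e (nat_lit 1222) (nat_lit 90) (.e (nat_lit 81921) (nat_lit 0) (.e (nat_lit 3715) (nat_lit 227) (.e (nat_lit 778325) (nat_lit 6) (.e (nat_lit 81957) (nat_lit 24) (.e (nat_lit 123185) (nat_lit 264) .nil)))))) (.g (nat_lit 0) .nil .nil)))) (.nd (nat_lit 5) 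
(.lf (nat_lit 38555) (.g (nat_lit 1964) (.e (nat_lit 1221) (nat_lit 90) (.e (nat_lit 81965) (nat_lit 26) (.e (nat_lit 147496) (nat_lit 11) (.e (nat_lit 24641) (nat_lit 10) (.e (nat_lit 344088) (nat_lit 18) (.e (nat_lit 7236) (nat_lit 382) .nil)))))) (.g (nat_lit 4) .nil .nil))) 
(.lf (nat_lit 38587) (.g (nat_lit 2850) (.e (nat_lit 1222) (nat_lit 90) (.e (nat_lit 81924) (nat_lit 0) (.e (nat_lit 3632) (nat_lit 227) (.e (nat_lit 778326) (nat_lit 6) (.e (nat_lit 81959) (nat_lit 24) (.e (nat_lit 123183) (nat_lit 264) .nil)))))) (.g (nat_lit 0) .nil .nil)))))) (.nd (nat_lit 3) (.nd (nat_lit 4) (.nd (nat_lit 5) 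
(.lf (nat_lit 38535) (.g (nat_lit 1202) (.e (nat_lit 1221) (nat_lit 90) (.e (nat_lit 81965) (nat_lit 26) (.e (nat_lit 147496) (nat_lit 11) (.e (nat_lit 24639) (nat_lit 10) .nil)))) .nil)) 
(.lf (nat_lit 38567) (.g (nat_lit 1269) (.e (nat_lit 1221) (nat_lit 90) (.e (nat_lit 81965) (nat_lit 26) (.e (nat_lit 147512) (nat_lit 14) (.e (nat_lit 2807) (nat_lit 180) .nil)))) .nil))) (.nd (nat_lit 5) 
(.lf (nat_lit 38551) (.g (nat_lit 2267) (.e (nat_lit 1221) (nat_lit 90) (.e (nat_lit 81965) (nat_lit 26) (.e (nat_lit 147496) (nat_lit 11) (.e (nat_lit 24640) (nat_lit 10) (.e (nat_lit 344097) (nat_lit 18) (.e (nat_lit 7936) (nat_lit 382) .nil)))))) (.g (nat_lit 4) .nil .nil))) 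
(.lf (nat_lit 38583) (.g (nat_lit 2629) (.e (nat_lit 1222) (nat_lit 90) (.e (nat_lit 81924) (nat_lit 0) (.e (nat_lit 3631) (nat_lit 227) (.e (nat_lit 778327) (nat_lit 6) (.e (nat_lit 81957) (nat_lit 24) (.e (nat_lit 123183) (nat_lit 264) .nil)))))) (.g (nat_lit 0) .nil .nil))))) (.nd (nat_lit 4) (.nd (nat_lit 5) 
(.lf (nat_lit 38543) (.g (nat_lit 3450) (.e (nat_lit 1221) (nat_lit 90) (.e (nat_lit 81965) (nat_lit 26) (.e (nat_lit 147496) (nat_lit 11) (.e (nat_lit 24640) (nat_lit 10) (.e (nat_lit 344088) (nat_lit 18) (.e (nat_lit 7233) (nat_lit 382) .nil)))))) (.g (nat_lit 5) .nil .nil))) 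
(.lf (nat_lit 38575) (.g (nat_lit 2313) (.e (nat_lit 1222) (nat_lit 90) (.e (nat_lit 81924) (nat_lit 0) (.e (nat_lit 3629) (nat_lit 227) (.e (nat_lit 778326) (nat_lit 6) (.e (nat_lit 81959) (nat_lit 24) (.e (nat_lit 123183) (nat_lit 264) .nil)))))) (.g (nat_lit 0) .nil .nil)))) (.nd (nat_lit 5) 
(.lf (nat_lit 38559) (.g (nat_lit 1265) (.e (nat_lit 1221) (nat_lit 90) (.e (nat_lit 81965) (nat_lit 26) (.e (nat_lit 147496) (nat_lit 11) (.e (nat_lit 32512) (nat_lit 23) .nil)))) .nil)) 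
(.lf (nat_lit 38591) (.g (nat_lit 2900) (.e (nat_lit 1222) (nat_lit 90) (.e (nat_lit 81924) (nat_lit 0) (.e (nat_lit 3632) (nat_lit 227) (.e (nat_lit 778327) (nat_lit 6) (.e (nat_lit 81959) (nat_lit 24) (.e (nat_lit 123183) (nat_lit 264) .nil)))))) (.g (nat_lit 0) .nil .nil)))))))))

noncomputable def tv536 : DT := (.nd (nat_lit 0) (.nd (nat_lit 1) (.nd (nat_lit 2) (.nd (nat_lit 3) (.nd (nat_lit 4) (.nd (nat_lit 5) 
(.lf (nat_lit 38592) (.g (nat_lit 2578) (.e (nat_lit 1222) (nat_lit 90) (.e (nat_lit 81924) (nat_lit 0) (.e (nat_lit 3632) (nat_lit 227) (.e (nat_lit 778327) (nat_lit 6) (.e (nat_lit 81959) (nat_lit 24) (.e (nat_lit 123185) (nat_lit 264) .nil)))))) (.g (nat_lit 0) .nil .nil))) 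
(.lf (nat_lit 38624) (.g (nat_lit 2490) (.e (nat_lit 1222) (nat_lit 90) (.e (nat_lit 81925) (nat_lit 11) (.e (nat_lit 426343) (nat_lit 14) (.e (nat_lit 491558) (nat_lit 10) (.e (nat_lit 344096) (nat_lit 18) (.e (nat_lit 7122) (nat_lit 382) .nil)))))) (.g (nat_lit 4) .nil .nil)))) (.nd (nat_lit 5) 
(.lf (nat_lit 38608) (.g (nat_lit 2599) (.e (nat_lit 1222) (nat_lit 90) (.e (nat_lit 81924) (nat_lit 0) (.e (nat_lit 3748) (nat_lit 228) (.e (nat_lit 786483) (nat_lit 30) (.e (nat_lit 360456) (nat_lit 0) (.e (nat_lit 5818) (nat_lit 320) .nil)))))) (.g (nat_lit 0) .nil .nil))) 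
(.lf (nat_lit 38640) (.g (nat_lit 1272) (.e (nat_lit 1222) (nat_lit 90) (.e (nat_lit 81927) (nat_lit 11) (.e (nat_lit 426307) (nat_lit 12) (.e (nat_lit 475212) (nat_lit 42) (.e (nat_lit 720931) (nat_lit 21) (.e (nat_lit 57829) (nat_lit 250) .nil)))))) (.g (nat_lit 4) .nil .nil))))) (.nd (nat_lit 4) (.nd (nat_lit 5) 
(.lf (nat_lit 38600) (.g (nat_lit 2781) (.e (nat_lit 1222) (nat_lit 90) (.e (nat_lit 81924) (nat_lit 0) (.e (nat_lit 3747) (nat_lit 228) (.e (nat_lit 786483) (nat_lit 30) (.e (nat_lit 360456) (nat_lit 0) (.e (nat_lit 5818) (nat_lit 320) .nil)))))) (.g (nat_lit 0) .nil .nil))) 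
(.lf (nat_lit 38632) (.g (nat_lit 1540) (.e (nat_lit 1222) (nat_lit 90) (.e (nat_lit 81927) (nat_lit 11) (.e (nat_lit 426011) (nat_lit 0) (.e (nat_lit 7593) (nat_lit 407) (.e (nat_lit 73731) (nat_lit 0) (.e (nat_lit 7124) (nat_lit 382) .nil)))))) (.g (nat_lit 4) .nil .nil)))) (.nd (nat_lit 5) 
(.lf (nat_lit 38616) (.g (nat_lit 2176) (.e (nat_lit 1222) (nat_lit 90) (.e (nat_lit 81925) (nat_lit 11) (.e (nat_lit 426011) (nat_lit 0) (.e (nat_lit 7591) (nat_lit 407) (.e (nat_lit 73731) (nat_lit 0) (.e (nat_lit 7125) (nat_lit 382) .nil)))))) (.g (nat_lit 4) .nil .nil))) 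
(.lf (nat_lit 38648) (.g (nat_lit 1577) (.e (nat_lit 1222) (nat_lit 90) (.e (nat_lit 81927) (nat_lit 11) (.e (nat_lit 426308) (nat_lit 12) (.e (nat_lit 475212) (nat_lit 42) (.e (nat_lit 720931) (nat_lit 21) (.e (nat_lit 57829) (nat_lit 250) .nil)))))) (.g (nat_lit 5) .nil .nil)))))) (.nd (nat_lit 3) (.nd (nat_lit 4) (.nd (nat_lit 5) 
(.lf (nat_lit 38596) (.g (nat_lit 3016) (.e (nat_lit 1222) (nat_lit 90) (.e (nat_lit 81924) (nat_lit 0) (.e (nat_lit 3747) (nat_lit 228) (.e (nat_lit 786480) (nat_lit 29) (.e (nat_lit 352318) (nat_lit 24) (.e (nat_lit 123183) (nat_lit 264) .nil)))))) (.g (nat_lit 6) .nil .nil))) 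
(.lf (nat_lit 38628) (.g (nat_lit 2324) (.e (nat_lit 1222) (nat_lit 90) (.e (nat_lit 81925) (nat_lit 11) (.e (nat_lit 426343) (nat_lit 14) (.e (nat_lit 491560) (nat_lit 10) (.e (nat_lit 344096) (nat_lit 18) .nil))))) .nil))) (.nd (nat_lit 5) 
(.lf (nat_lit 38612) (.g (nat_lit 930) (.e (nat_lit 1222) (nat_lit 90) (.e (nat_lit 89856) (nat_lit 8) (.e (nat_lit 262148) (nat_lit 0) (.e (nat_lit 1597) (nat_lit 111) (.e (nat_lit 368384) (nat_lit 0) (.e (nat_lit 5815) (nat_lit 320) .nil)))))) (.g (nat_lit 4) .nil .nil))) 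
(.lf (nat_lit 38644) (.g (nat_lit 1427) (.e (nat_lit 1222) (nat_lit 90) (.e (nat_lit 81927) (nat_lit 11) (.e (nat_lit 426307) (nat_lit 12) (.e (nat_lit 475214) (nat_lit 42) (.e (nat_lit 720931) (nat_lit 21) (.e (nat_lit 57829) (nat_lit 250) .nil)))))) (.g (nat_lit 4) .nil .nil))))) (.nd (nat_lit 4) (.nd (nat_lit 5) 
(.lf (nat_lit 38604) (.g (nat_lit 2436) (.e (nat_lit 1222) (nat_lit 90) (.e (nat_lit 81924) (nat_lit 0) (.e (nat_lit 3748) (nat_lit 228) (.e (nat_lit 786480) (nat_lit 29) (.e (nat_lit 352318) (nat_lit 24) (.e (nat_lit 123185) (nat_lit 264) .nil)))))) (.g (nat_lit 5) .nil .nil))) 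
(.lf (nat_lit 38636) (.g (nat_lit 1695) (.e (nat_lit 1222) (nat_lit 90) (.e (nat_lit 81927) (nat_lit 11) (.e (nat_lit 426189) (nat_lit 9) (.e (nat_lit 426446) (nat_lit 20) (.e (nat_lit 114712) (nat_lit 21) (.e (nat_lit 57830) (nat_lit 250) .nil)))))) (.g (nat_lit 5) .nil .nil)))) (.nd (nat_lit 5) 
(.lf (nat_lit 38620) (.g (nat_lit 1327) (.e (nat_lit 1222) (nat_lit 90) (.e (nat_lit 81925) (nat_lit 11) (.e (nat_lit 426343) (nat_lit 14) (.e (nat_lit 491558) (nat_lit 10) .nil)))) .nil)) 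
(.lf (nat_lit 38652) (.g (nat_lit 1727) (.e (nat_lit 1222) (nat_lit 90) (.e (nat_lit 81927) (nat_lit 11) (.e (nat_lit 426308) (nat_lit 12) (.e (nat_lit 475214) (nat_lit 42) (.e (nat_lit 720931) (nat_lit 21) (.e (nat_lit 57829) (nat_lit 250) .nil)))))) (.g (nat_lit 5) .nil .nil))))))) (.nd (nat_lit 2) (.nd (nat_lit 3) (.nd (nat_lit 4) (.nd (nat_lit 5) 
(.lf (nat_lit 38594) (.g (nat_lit 2971) (.e (nat_lit 1222) (nat_lit 90) (.e (nat_lit 81924) (nat_lit 0) (.e (nat_lit 3747) (nat_lit 228) (.e (nat_lit 786478) (nat_lit 29) (.e (nat_lit 352318) (nat_lit 24) (.e (nat_lit 123184) (nat_lit 264) .nil)))))) (.g (nat_lit 6) .nil .nil))) 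
(.lf (nat_lit 38626) (.g (nat_lit 2624) (.e (nat_lit 1222) (nat_lit 90) (.e (nat_lit 81925) (nat_lit 11) (.e (nat_lit 426343) (nat_lit 14) (.e (nat_lit 491560) (nat_lit 10) (.e (nat_lit 344091) (nat_lit 18) (.e (nat_lit 7125) (nat_lit 382) .nil)))))) (.g (nat_lit 4) .nil .nil)))) (.nd (nat_lit 5) 
(.lf (nat_lit 38610) (.g (nat_lit 1819) (.e (nat_lit 1222) (nat_lit 90) (.e (nat_lit 89856) (nat_lit 0) (.e (nat_lit 3605) (nat_lit 225) (.e (nat_lit 761914) (nat_lit 18) (.e (nat_lit 188455) (nat_lit 24) (.e (nat_lit 229629) (nat_lit 226) .nil)))))) (.g (nat_lit 5) .nil .nil))) 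
(.lf (nat_lit 38642) (.g (nat_lit 1242) (.e (nat_lit 1222) (nat_lit 90) (.e (nat_lit 81927) (nat_lit 11) (.e (nat_lit 426307) (nat_lit 12) (.e (nat_lit 475214) (nat_lit 42) (.e (nat_lit 720930) (nat_lit 21) (.e (nat_lit 57829) (nat_lit 250) .nil)))))) (.g (nat_lit 4) .nil .nil))))) (.nd (nat_lit 4) (.nd (nat_lit 5) 
(.lf (nat_lit 38602) (.g (nat_lit 2911) (.e (nat_lit 1222) (nat_lit 90) (.e (nat_lit 81924) (nat_lit 0) (.e (nat_lit 3748) (nat_lit 228) (.e (nat_lit 786480) (nat_lit 29) (.e (nat_lit 352318) (nat_lit 24) (.e (nat_lit 123183) (nat_lit 264) .nil)))))) (.g (nat_lit 0) .nil .nil))) 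
(.lf (nat_lit 38634) (.g (nat_lit 1387) (.e (nat_lit 1222) (nat_lit 90) (.e (nat_lit 81927) (nat_lit 11) (.e (nat_lit 426012) (nat_lit 0) (.e (nat_lit 7593) (nat_lit 407) (.e (nat_lit 73731) (nat_lit 0) (.e (nat_lit 7124) (nat_lit 382) .nil)))))) (.g (nat_lit 4) .nil .nil)))) (.nd (nat_lit 5) 
(.lf (nat_lit 38618) (.g (nat_lit 2215) (.e (nat_lit 1222) (nat_lit 90) (.e (nat_lit 81925) (nat_lit 11) (.e (nat_lit 426011) (nat_lit 0) (.e (nat_lit 7593) (nat_lit 407) (.e (nat_lit 73731) (nat_lit 0) (.e (nat_lit 7125) (nat_lit 382) .nil)))))) (.g (nat_lit 4) .nil .nil))) 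
(.lf (nat_lit 38650) (.g (nat_lit 1587) (.e (nat_lit 1222) (nat_lit 90) (.e (nat_lit 81927) (nat_lit 11) (.e (nat_lit 426308) (nat_lit 12) (.e (nat_lit 475214) (nat_lit 42) (.e (nat_lit 720930) (nat_lit 21) (.e (nat_lit 57829) (nat_lit 250) .nil)))))) (.g (nat_lit 4) .nil .nil)))))) (.nd (nat_lit 3) (.nd (nat_lit 4) (.nd (nat_lit 5) 
(.lf (nat_lit 38598) (.g (nat_lit 2489) (.e (nat_lit 1222) (nat_lit 90) (.e (nat_lit 81924) (nat_lit 0) (.e (nat_lit 3747) (nat_lit 228) (.e (nat_lit 786481) (nat_lit 30) (.e (nat_lit 360456) (nat_lit 0) (.e (nat_lit 5818) (nat_lit 320) .nil)))))) (.g (nat_lit 0) .nil .nil))) 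
(.lf (nat_lit 38630) (.g (nat_lit 2574) (.e (nat_lit 1222) (nat_lit 90) (.e (nat_lit 81927) (nat_lit 11) (.e (nat_lit 426011) (nat_lit 0) (.e (nat_lit 7591) (nat_lit 407) (.e (nat_lit 73730) (nat_lit 0) (.e (nat_lit 7122) (nat_lit 382) .nil)))))) (.g (nat_lit 0) .nil .nil)))) (.nd (nat_lit 5) 
(.lf (nat_lit 38614) (.g (nat_lit 2395) (.e (nat_lit 1222) (nat_lit 90) (.e (nat_lit 81925) (nat_lit 11) (.e (nat_lit 426011) (nat_lit 0) (.e (nat_lit 7591) (nat_lit 407) (.e (nat_lit 73729) (nat_lit 0) (.e (nat_lit 7125) (nat_lit 382) .nil)))))) (.g (nat_lit 4) .nil .nil))) 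
(.lf (nat_lit 38646) (.g (nat_lit 2027) (.e (nat_lit 1222) (nat_lit 90) (.e (nat_lit 81927) (nat_lit 11) (.e (nat_lit 426307) (nat_lit 12) (.e (nat_lit 475214) (nat_lit 42) (.e (nat_lit 720934) (nat_lit 21) (.e (nat_lit 57830) (nat_lit 250) .nil)))))) (.g (nat_lit 4) .nil .nil))))) (.nd (nat_lit 4) (.nd (nat_lit 5) 
(.lf (nat_lit 38606) (.g (nat_lit 2506) (.e (nat_lit 1222) (nat_lit 90) (.e (nat_lit 81924) (nat_lit 0) (.e (nat_lit 3748) (nat_lit 228) (.e (nat_lit 786481) (nat_lit 30) (.e (nat_lit 360457) (nat_lit 0) (.e (nat_lit 5818) (nat_lit 320) .nil)))))) (.g (nat_lit 0) .nil .nil))) 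
(.lf (nat_lit 38638) (.g (nat_lit 2087) (.e (nat_lit 1222) (nat_lit 90) (.e (nat_lit 81927) (nat_lit 11) (.e (nat_lit 426190) (nat_lit 9) (.e (nat_lit 426448) (nat_lit 20) (.e (nat_lit 114710) (nat_lit 21) (.e (nat_lit 57829) (nat_lit 250) .nil)))))) (.g (nat_lit 6) .nil .nil)))) (.nd (nat_lit 5) 
(.lf (nat_lit 38622) (.g (nat_lit 2185) (.e (nat_lit 1222) (nat_lit 90) (.e (nat_lit 81925) (nat_lit 11) (.e (nat_lit 426343) (nat_lit 14) (.e (nat_lit 491558) (nat_lit 10) (.e (nat_lit 344091) (nat_lit 18) .nil))))) .nil)) 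
(.lf (nat_lit 38654) (.g (nat_lit 1815) (.e (nat_lit 1222) (nat_lit 90) (.e (nat_lit 81927) (nat_lit 11) (.e (nat_lit 426308) (nat_lit 12) (.e (nat_lit 475214) (nat_lit 42) (.e (nat_lit 720934) (nat_lit 21) (.e (nat_lit 57830) (nat_lit 250) .nil)))))) (.g (nat_lit 4) .nil .nil)))))))) (.nd (nat_lit 1) (.nd (nat_lit 2) (.nd (nat_lit 3) (.nd (nat_lit 4) (.nd (nat_lit 5) 
(.lf (nat_lit 38593) (.g (nat_lit 2666) (.e (nat_lit 1222) (nat_lit 90) (.e (nat_lit 81924) (nat_lit 0) (.e (nat_lit 3747) (nat_lit 228) (.e (nat_lit 786478) (nat_lit 29) (.e (nat_lit 352318) (nat_lit 24) (.e (nat_lit 123183) (nat_lit 264) .nil)))))) (.g (nat_lit 6) .nil .nil))) 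
(.lf (nat_lit 38625) (.g (nat_lit 1345) (.e (nat_lit 1222) (nat_lit 90) (.e (nat_lit 81925) (nat_lit 11) (.e (nat_lit 426343) (nat_lit 14) (.e (nat_lit 491560) (nat_lit 10) .nil)))) .nil))) (.nd (nat_lit 5) 
(.lf (nat_lit 38609) (.g (nat_lit 3042) (.e (nat_lit 1222) (nat_lit 90) (.e (nat_lit 81924) (nat_lit 0) (.e (nat_lit 3748) (nat_lit 228) (.e (nat_lit 786483) (nat_lit 30) (.e (nat_lit 360457) (nat_lit 0) (.e (nat_lit 5818) (nat_lit 320) .nil)))))) (.g (nat_lit 0) .nil .nil))) 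
(.lf (nat_lit 38641) (.g (nat_lit 1280) (.e (nat_lit 1222) (nat_lit 90) (.e (nat_lit 81927) (nat_lit 11) (.e (nat_lit 426307) (nat_lit 12) (.e (nat_lit 475212) (nat_lit 42) (.e (nat_lit 720934) (nat_lit 21) (.e (nat_lit 57829) (nat_lit 250) .nil)))))) (.g (nat_lit 4) .nil .nil))))) (.nd (nat_lit 4) (.nd (nat_lit 5) 
(.lf (nat_lit 38601) (.g (nat_lit 2393) (.e (nat_lit 1222) (nat_lit 90) (.e (nat_lit 81924) (nat_lit 0) (.e (nat_lit 3748) (nat_lit 228) (.e (nat_lit 786478) (nat_lit 29) (.e (nat_lit 352318) (nat_lit 24) (.e (nat_lit 123183) (nat_lit 264) .nil)))))) (.g (nat_lit 6) .nil .nil))) 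
(.lf (nat_lit 38633) (.g (nat_lit 1493) (.e (nat_lit 1222) (nat_lit 90) (.e (nat_lit 81927) (nat_lit 11) (.e (nat_lit 426012) (nat_lit 0) (.e (nat_lit 7591) (nat_lit 407) (.e (nat_lit 73731) (nat_lit 0) (.e (nat_lit 7124) (nat_lit 382) .nil)))))) (.g (nat_lit 5) .nil .nil)))) (.nd (nat_lit 5) 
(.lf (nat_lit 38617) (.g (nat_lit 2448) (.e (nat_lit 1222) (nat_lit 90) (.e (nat_lit 81925) (nat_lit 11) (.e (nat_lit 426011) (nat_lit 0) (.e (nat_lit 7593) (nat_lit 407) (.e (nat_lit 73729) (nat_lit 0) (.e (nat_lit 7125) (nat_lit 382) .nil)))))) (.g (nat_lit 4) .nil .nil))) 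
(.lf (nat_lit 38649) (.g (nat_lit 1601) (.e (nat_lit 1222) (nat_lit 90) (.e (nat_lit 81927) (nat_lit 11) (.e (nat_lit 426308) (nat_lit 12) (.e (nat_lit 475212) (nat_lit 42) (.e (nat_lit 720934) (nat_lit 21) (.e (nat_lit 57829) (nat_lit 250) .nil)))))) (.g (nat_lit 5) .nil .nil)))))) (.nd (nat_lit 3) (.nd (nat_lit 4) (.nd (nat_lit 5) 
(.lf (nat_lit 38597) (.g (nat_lit 2487) (.e (nat_lit 1222) (nat_lit 90) (.e (nat_lit 81924) (nat_lit 0) (.e (nat_lit 3747) (nat_lit 228) (.e (nat_lit 786480) (nat_lit 29) (.e (nat_lit 352318) (nat_lit 24) (.e (nat_lit 123185) (nat_lit 264) .nil)))))) (.g (nat_lit 5) .nil .nil))) 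
(.lf (nat_lit 38629) (.g (nat_lit 2718) (.e (nat_lit 1222) (nat_lit 90) (.e (nat_lit 81925) (nat_lit 11) (.e (nat_lit 426343) (nat_lit 14) (.e (nat_lit 491560) (nat_lit 10) (.e (nat_lit 344096) (nat_lit 18) (.e (nat_lit 7125) (nat_lit 382) .nil)))))) (.g (nat_lit 4) .nil .nil)))) (.nd (nat_lit 5) 
(.lf (nat_lit 38613) (.g (nat_lit 869) (.e (nat_lit 1222) (nat_lit 90) (.e (nat_lit 89856) (nat_lit 8) (.e (nat_lit 262148) (nat_lit 0) (.e (nat_lit 1597) (nat_lit 111) (.e (nat_lit 368384) (nat_lit 0) (.e (nat_lit 5816) (nat_lit 320) .nil)))))) (.g (nat_lit 4) .nil .nil))) 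
(.lf (nat_lit 38645) (.g (nat_lit 1989) (.e (nat_lit 1222) (nat_lit 90) (.e (nat_lit 81927) (nat_lit 11) (.e (nat_lit 426307) (nat_lit 12) (.e (nat_lit 475214) (nat_lit 42) (.e (nat_lit 720932) (nat_lit 21) (.e (nat_lit 57830) (nat_lit 250) .nil)))))) (.g (nat_lit 4) .nil .nil))))) (.nd (nat_lit 4) (.nd (nat_lit 5) 
(.lf (nat_lit 38605) (.g (nat_lit 2202) (.e (nat_lit 1222) (nat_lit 90) (.e (nat_lit 81924) (nat_lit 0) (.e (nat_lit 3748) (nat_lit 228) (.e (nat_lit 786481) (nat_lit 30) (.e (nat_lit 360456) (nat_lit 0) (.e (nat_lit 5818) (nat_lit 320) .nil)))))) (.g (nat_lit 0) .nil .nil))) 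
(.lf (nat_lit 38637) (.g (nat_lit 1936) (.e (nat_lit 1222) (nat_lit 90) (.e (nat_lit 81927) (nat_lit 11) (.e (nat_lit 426189) (nat_lit 9) (.e (nat_lit 426448) (nat_lit 20) (.e (nat_lit 114710) (nat_lit 21) (.e (nat_lit 57829) (nat_lit 250) .nil)))))) (.g (nat_lit 5) .nil .nil)))) (.nd (nat_lit 5) 
(.lf (nat_lit 38621) (.g (nat_lit 2530) (.e (nat_lit 1222) (nat_lit 90) (.e (nat_lit 81925) (nat_lit 11) (.e (nat_lit 426343) (nat_lit 14) (.e (nat_lit 491558) (nat_lit 10) (.e (nat_lit 344090) (nat_lit 18) (.e (nat_lit 7125) (nat_lit 382) .nil)))))) (.g (nat_lit 4) .nil .nil))) 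
(.lf (nat_lit 38653) (.g (nat_lit 2046) (.e (nat_lit 1222) (nat_lit 90) (.e (nat_lit 81927) (nat_lit 11) (.e (nat_lit 426308) (nat_lit 12) (.e (nat_lit 475214) (nat_lit 42) (.e (nat_lit 720932) (nat_lit 21) (.e (nat_lit 57830) (nat_lit 250) .nil)))))) (.g (nat_lit 4) .nil .nil))))))) (.nd (nat_lit 2) (.nd (nat_lit 3) (.nd (nat_lit 4) (.nd (nat_lit 5) 
(.lf (nat_lit 38595) (.g (nat_lit 2105) (.e (nat_lit 1222) (nat_lit 90) (.e (nat_lit 81924) (nat_lit 0) (.e (nat_lit 3747) (nat_lit 228) (.e (nat_lit 786478) (nat_lit 29) (.e (nat_lit 352318) (nat_lit 24) (.e (nat_lit 123185) (nat_lit 264) .nil)))))) (.g (nat_lit 5) .nil .nil))) 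
(.lf (nat_lit 38627) (.g (nat_lit 2438) (.e (nat_lit 1222) (nat_lit 90) (.e (nat_lit 81925) (nat_lit 11) (.e (nat_lit 426343) (nat_lit 14) (.e (nat_lit 491560) (nat_lit 10) (.e (nat_lit 344094) (nat_lit 18) (.e (nat_lit 7125) (nat_lit 382) .nil)))))) (.g (nat_lit 4) .nil .nil)))) (.nd (nat_lit 5) 
(.lf (nat_lit 38611) (.g (nat_lit 625) (.e (nat_lit 1222) (nat_lit 90) (.e (nat_lit 89856) (nat_lit 8) (.e (nat_lit 262148) (nat_lit 0) (.e (nat_lit 1597) (nat_lit 111) (.e (nat_lit 368384) (nat_lit 0) (.e (nat_lit 5803) (nat_lit 320) .nil)))))) (.g (nat_lit 4) .nil .nil))) 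
(.lf (nat_lit 38643) (.g (nat_lit 930) (.e (nat_lit 1222) (nat_lit 90) (.e (nat_lit 81927) (nat_lit 11) (.e (nat_lit 426307) (nat_lit 12) (.e (nat_lit 475214) (nat_lit 42) (.e (nat_lit 720930) (nat_lit 21) (.e (nat_lit 57832) (nat_lit 250) .nil)))))) (.g (nat_lit 4) .nil .nil))))) (.nd (nat_lit 4) (.nd (nat_lit 5) 
(.lf (nat_lit 38603) (.g (nat_lit 3311) (.e (nat_lit 1222) (nat_lit 90) (.e (nat_lit 81924) (nat_lit 0) (.e (nat_lit 3748) (nat_lit 228) (.e (nat_lit 786480) (nat_lit 29) (.e (nat_lit 352318) (nat_lit 24) (.e (nat_lit 123184) (nat_lit 264) .nil)))))) (.g (nat_lit 0) .nil .nil))) 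
(.lf (nat_lit 38635) (.g (nat_lit 1186) (.e (nat_lit 1222) (nat_lit 90) (.e (nat_lit 81927) (nat_lit 11) (.e (nat_lit 426186) (nat_lit 9) (.e (nat_lit 426446) (nat_lit 20) (.e (nat_lit 114712) (nat_lit 21) (.e (nat_lit 57830) (nat_lit 250) .nil)))))) (.g (nat_lit 4) .nil .nil)))) (.nd (nat_lit 5) 
(.lf (nat_lit 38619) (.g (nat_lit 1387) (.e (nat_lit 1222) (nat_lit 90) (.e (nat_lit 81925) (nat_lit 11) (.e (nat_lit 426308) (nat_lit 12) (.e (nat_lit 475214) (nat_lit 42) (.e (nat_lit 720931) (nat_lit 21) .nil))))) .nil)) 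
(.lf (nat_lit 38651) (.g (nat_lit 1275) (.e (nat_lit 1222) (nat_lit 90) (.e (nat_lit 81927) (nat_lit 11) (.e (nat_lit 426308) (nat_lit 12) (.e (nat_lit 475214) (nat_lit 42) (.e (nat_lit 720930) (nat_lit 21) (.e (nat_lit 57832) (nat_lit 250) .nil)))))) (.g (nat_lit 4) .nil .nil)))))) (.nd (nat_lit 3) (.nd (nat_lit 4) (.nd (nat_lit 5) 
(.lf (nat_lit 38599) (.g (nat_lit 2528) (.e (nat_lit 1222) (nat_lit 90) (.e (nat_lit 81924) (nat_lit 0) (.e (nat_lit 3747) (nat_lit 228) (.e (nat_lit 786483) (nat_lit 30) (.e (nat_lit 360451) (nat_lit 0) (.e (nat_lit 7936) (nat_lit 320) .nil)))))) (.g (nat_lit 5) .nil .nil))) 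
(.lf (nat_lit 38631) (.g (nat_lit 1715) (.e (nat_lit 1222) (nat_lit 90) (.e (nat_lit 81927) (nat_lit 11) (.e (nat_lit 426011) (nat_lit 0) (.e (nat_lit 7591) (nat_lit 407) (.e (nat_lit 73731) (nat_lit 0) (.e (nat_lit 7124) (nat_lit 382) .nil)))))) (.g (nat_lit 5) .nil .nil)))) (.nd (nat_lit 5) 
(.lf (nat_lit 38615) (.g (nat_lit 1825) (.e (nat_lit 1222) (nat_lit 90) (.e (nat_lit 81925) (nat_lit 11) (.e (nat_lit 426011) (nat_lit 0) (.e (nat_lit 7591) (nat_lit 407) (.e (nat_lit 73730) (nat_lit 0) .nil))))) .nil)) 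
(.lf (nat_lit 38647) (.g (nat_lit 1324) (.e (nat_lit 1222) (nat_lit 90) (.e (nat_lit 81927) (nat_lit 11) (.e (nat_lit 426308) (nat_lit 12) (.e (nat_lit 475212) (nat_lit 42) (.e (nat_lit 720930) (nat_lit 21) (.e (nat_lit 57829) (nat_lit 250) .nil)))))) (.g (nat_lit 4) .nil .nil))))) (.nd (nat_lit 4) (.nd (nat_lit 5) 
(.lf (nat_lit 38607) (.g (nat_lit 2206) (.e (nat_lit 1222) (nat_lit 90) (.e (nat_lit 81924) (nat_lit 0) (.e (nat_lit 3748) (nat_lit 228) (.e (nat_lit 786483) (nat_lit 30) (.e (nat_lit 360451) (nat_lit 0) (.e (nat_lit 7936) (nat_lit 320) .nil)))))) (.g (nat_lit 5) .nil .nil))) 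
(.lf (nat_lit 38639) (.g (nat_lit 1074) (.e (nat_lit 1222) (nat_lit 90) (.e (nat_lit 81927) (nat_lit 11) (.e (nat_lit 426307) (nat_lit 12) (.e (nat_lit 475212) (nat_lit 42) (.e (nat_lit 720930) (nat_lit 21) (.e (nat_lit 57829) (nat_lit 250) .nil)))))) (.g (nat_lit 4) .nil .nil)))) (.nd (nat_lit 5) 
(.lf (nat_lit 38623) (.g (nat_lit 2506) (.e (nat_lit 1222) (nat_lit 90) (.e (nat_lit 81925) (nat_lit 11) (.e (nat_lit 426343) (nat_lit 14) (.e (nat_lit 491558) (nat_lit 10) (.e (nat_lit 344095) (nat_lit 18) .nil))))) .nil)) 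
(.lf (nat_lit 38655) (.g (nat_lit 1116) (.e (nat_lit 1222) (nat_lit 90) (.e (nat_lit 81927) (nat_lit 11) (.e (nat_lit 426316) (nat_lit 12) (.e (nat_lit 475214) (nat_lit 42) .nil)))) .nil))))))))

noncomputable def tv537 : DT := (.nd (nat_lit 0) (.nd (nat_lit 1) (.nd (nat_lit 2) (.nd (nat_lit 3) (.nd (nat_lit 4) (.nd (nat_lit 5) 
(.lf (nat_lit 38656) (.g (nat_lit 1778) (.e (nat_lit 1222) (nat_lit 90) (.e (nat_lit 81927) (nat_lit 11) (.e (nat_lit 426341) (nat_lit 14) (.e (nat_lit 491560) (nat_lit 10) (.e (nat_lit 344091) (nat_lit 18) (.e (nat_lit 7125) (nat_lit 382) .nil)))))) (.g (nat_lit 4) .nil .nil))) 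
(.lf (nat_lit 38688) (.g (nat_lit 1767) (.e (nat_lit 1222) (nat_lit 90) (.e (nat_lit 81935) (nat_lit 20) (.e (nat_lit 1994) (nat_lit 137) (.e (nat_lit 663569) (nat_lit 6) (.e (nat_lit 81958) (nat_lit 24) (.e (nat_lit 123183) (nat_lit 264) .nil)))))) (.g (nat_lit 5) .nil .nil)))) (.nd (nat_lit 5) 
(.lf (nat_lit 38672) (.g (nat_lit 2403) (.e (nat_lit 1222) (nat_lit 90) (.e (nat_lit 81927) (nat_lit 11) (.e (nat_lit 426343) (nat_lit 14) (.e (nat_lit 491560) (nat_lit 10) (.e (nat_lit 344091) (nat_lit 18) (.e (nat_lit 7124) (nat_lit 382) .nil)))))) (.g (nat_lit 5) .nil .nil))) 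
(.lf (nat_lit 38704) (.g (nat_lit 2343) (.e (nat_lit 1222) (nat_lit 90) (.e (nat_lit 81935) (nat_lit 20) (.e (nat_lit 1998) (nat_lit 137) (.e (nat_lit 663569) (nat_lit 6) (.e (nat_lit 81957) (nat_lit 24) (.e (nat_lit 123183) (nat_lit 264) .nil)))))) (.g (nat_lit 0) .nil .nil))))) (.nd (nat_lit 4) (.nd (nat_lit 5) 
(.lf (nat_lit 38664) (.g (nat_lit 2211) (.e (nat_lit 1222) (nat_lit 90) (.e (nat_lit 81927) (nat_lit 11) (.e (nat_lit 426343) (nat_lit 14) (.e (nat_lit 491558) (nat_lit 10) (.e (nat_lit 344090) (nat_lit 18) (.e (nat_lit 7124) (nat_lit 382) .nil)))))) (.g (nat_lit 5) .nil .nil))) 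
(.lf (nat_lit 38696) (.g (nat_lit 2842) (.e (nat_lit 1222) (nat_lit 90) (.e (nat_lit 81935) (nat_lit 20) (.e (nat_lit 1998) (nat_lit 137) (.e (nat_lit 663554) (nat_lit 0) (.e (nat_lit 1567) (nat_lit 110) (.e (nat_lit 352318) (nat_lit 24) (.e (nat_lit 123185) (nat_lit 264) .nil))))))) (.g (nat_lit 7) .nil .nil)))) (.nd (nat_lit 5) 
(.lf (nat_lit 38680) (.g (nat_lit 2484) (.e (nat_lit 1222) (nat_lit 90) (.e (nat_lit 81927) (nat_lit 11) (.e (nat_lit 426344) (nat_lit 14) (.e (nat_lit 491560) (nat_lit 10) (.e (nat_lit 344088) (nat_lit 18) (.e (nat_lit 7125) (nat_lit 382) .nil)))))) (.g (nat_lit 5) .nil .nil))) 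
(.lf (nat_lit 38712) (.g (nat_lit 2346) (.e (nat_lit 1222) (nat_lit 90) (.e (nat_lit 81935) (nat_lit 20) (.e (nat_lit 1999) (nat_lit 137) (.e (nat_lit 663569) (nat_lit 6) (.e (nat_lit 81957) (nat_lit 24) (.e (nat_lit 123183) (nat_lit 264) .nil)))))) (.g (nat_lit 0) .nil .nil)))))) (.nd (nat_lit 3) (.nd (nat_lit 4) (.nd (nat_lit 5) 
(.lf (nat_lit 38660) (.g (nat_lit 3261) (.e (nat_lit 1222) (nat_lit 90) (.e (nat_lit 81927) (nat_lit 11) (.e (nat_lit 426342) (nat_lit 14) (.e (nat_lit 491560) (nat_lit 10) (.e (nat_lit 344096) (nat_lit 18) (.e (nat_lit 7125) (nat_lit 382) .nil)))))) (.g (nat_lit 0) .nil .nil))) 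
(.lf (nat_lit 38692) (.g (nat_lit 2214) (.e (nat_lit 1222) (nat_lit 90) (.e (nat_lit 81935) (nat_lit 20) (.e (nat_lit 1996) (nat_lit 137) (.e (nat_lit 663569) (nat_lit 6) (.e (nat_lit 81957) (nat_lit 24) (.e (nat_lit 123183) (nat_lit 264) .nil)))))) (.g (nat_lit 0) .nil .nil)))) (.nd (nat_lit 5) 
(.lf (nat_lit 38676) (.g (nat_lit 3821) (.e (nat_lit 1222) (nat_lit 90) (.e (nat_lit 81927) (nat_lit 11) (.e (nat_lit 426343) (nat_lit 14) (.e (nat_lit 491560) (nat_lit 10) (.e (nat_lit 344096) (nat_lit 18) (.e (nat_lit 7125) (nat_lit 382) .nil)))))) (.g (nat_lit 0) .nil .nil))) 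
(.lf (nat_lit 38708) (.g (nat_lit 1677) (.e (nat_lit 1222) (nat_lit 90) (.e (nat_lit 81935) (nat_lit 20) (.e (nat_lit 1998) (nat_lit 137) (.e (nat_lit 663569) (nat_lit 6) (.e (nat_lit 81958) (nat_lit 24) (.e (nat_lit 123184) (nat_lit 264) .nil)))))) (.g (nat_lit 4) .nil .nil))))) (.nd (nat_lit 4) (.nd (nat_lit 5) 
(.lf (nat_lit 38668) (.g (nat_lit 3945) (.e (nat_lit 1222) (nat_lit 90) (.e (nat_lit 81927) (nat_lit 11) (.e (nat_lit 426343) (nat_lit 14) (.e (nat_lit 491558) (nat_lit 10) (.e (nat_lit 344096) (nat_lit 18) (.e (nat_lit 7125) (nat_lit 382) .nil)))))) (.g (nat_lit 0) .nil .nil))) 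
(.lf (nat_lit 38700) (.g (nat_lit 1417) (.e (nat_lit 1222) (nat_lit 90) (.e (nat_lit 81935) (nat_lit 20) (.e (nat_lit 1998) (nat_lit 137) (.e (nat_lit 663554) (nat_lit 0) (.e (nat_lit 1590) (nat_lit 111) (.e (nat_lit 360457) (nat_lit 0) (.e (nat_lit 5818) (nat_lit 320) .nil))))))) (.g (nat_lit 4) .nil .nil)))) (.nd (nat_lit 5) 
(.lf (nat_lit 38684) (.g (nat_lit 1757) (.e (nat_lit 1222) (nat_lit 90) (.e (nat_lit 81935) (nat_lit 20) (.e (nat_lit 1994) (nat_lit 137) (.e (nat_lit 663567) (nat_lit 4) (.e (nat_lit 65601) (nat_lit 9) (.e (nat_lit 336032) (nat_lit 4) (.e (nat_lit 123184) (nat_lit 264) .nil))))))) (.g (nat_lit 4) .nil .nil))) 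
(.lf (nat_lit 38716) (.g (nat_lit 2813) (.e (nat_lit 1222) (nat_lit 90) (.e (nat_lit 81938) (nat_lit 20) (.e (nat_lit 2281) (nat_lit 150) (.e (nat_lit 770072) (nat_lit 8) (.e (nat_lit 65610) (nat_lit 10) (.e (nat_lit 344090) (nat_lit 18) (.e (nat_lit 7125) (nat_lit 382) .nil))))))) (.g (nat_lit 5) .nil .nil))))))) (.nd (nat_lit 2) (.nd (nat_lit 3) (.nd (nat_lit 4) (.nd (nat_lit 5) 
(.lf (nat_lit 38658) (.g (nat_lit 1586) (.e (nat_lit 1222) (nat_lit 90) (.e (nat_lit 81927) (nat_lit 11) (.e (nat_lit 426342) (nat_lit 14) (.e (nat_lit 491560) (nat_lit 10) (.e (nat_lit 344094) (nat_lit 18) (.e (nat_lit 7124) (nat_lit 382) .nil)))))) (.g (nat_lit 4) .nil .nil))) 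
(.lf (nat_lit 38690) (.g (nat_lit 2548) (.e (nat_lit 1222) (nat_lit 90) (.e (nat_lit 81935) (nat_lit 20) (.e (nat_lit 1994) (nat_lit 137) (.e (nat_lit 663569) (nat_lit 6) (.e (nat_lit 81959) (nat_lit 24) (.e (nat_lit 123183) (nat_lit 264) .nil)))))) (.g (nat_lit 6) .nil .nil)))) (.nd (nat_lit 5) 
(.lf (nat_lit 38674) (.g (nat_lit 3669) (.e (nat_lit 1222) (nat_lit 90) (.e (nat_lit 81927) (nat_lit 11) (.e (nat_lit 426343) (nat_lit 14) (.e (nat_lit 491560) (nat_lit 10) (.e (nat_lit 344096) (nat_lit 18) (.e (nat_lit 7122) (nat_lit 382) .nil)))))) (.g (nat_lit 6) .nil .nil))) 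
(.lf (nat_lit 38706) (.g (nat_lit 2237) (.e (nat_lit 1222) (nat_lit 90) (.e (nat_lit 81935) (nat_lit 20) (.e (nat_lit 1998) (nat_lit 137) (.e (nat_lit 663569) (nat_lit 6) (.e (nat_lit 81957) (nat_lit 24) (.e (nat_lit 123185) (nat_lit 264) .nil)))))) (.g (nat_lit 0) .nil .nil))))) (.nd (nat_lit 4) (.nd (nat_lit 5) 
(.lf (nat_lit 38666) (.g (nat_lit 2358) (.e (nat_lit 1222) (nat_lit 90) (.e (nat_lit 81927) (nat_lit 11) (.e (nat_lit 426343) (nat_lit 14) (.e (nat_lit 491558) (nat_lit 10) (.e (nat_lit 344095) (nat_lit 18) (.e (nat_lit 7125) (nat_lit 382) .nil)))))) (.g (nat_lit 5) .nil .nil))) 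
(.lf (nat_lit 38698) (.g (nat_lit 2383) (.e (nat_lit 1222) (nat_lit 90) (.e (nat_lit 81935) (nat_lit 20) (.e (nat_lit 1998) (nat_lit 137) (.e (nat_lit 663554) (nat_lit 0) (.e (nat_lit 1586) (nat_lit 111) (.e (nat_lit 360456) (nat_lit 0) (.e (nat_lit 5818) (nat_lit 320) .nil))))))) (.g (nat_lit 6) .nil .nil)))) (.nd (nat_lit 5) 
(.lf (nat_lit 38682) (.g (nat_lit 1837) (.e (nat_lit 1222) (nat_lit 90) (.e (nat_lit 81927) (nat_lit 11) (.e (nat_lit 426344) (nat_lit 14) (.e (nat_lit 491560) (nat_lit 10) (.e (nat_lit 344094) (nat_lit 18) (.e (nat_lit 7124) (nat_lit 382) .nil)))))) (.g (nat_lit 4) .nil .nil))) 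
(.lf (nat_lit 38714) (.g (nat_lit 2815) (.e (nat_lit 1222) (nat_lit 90) (.e (nat_lit 81935) (nat_lit 20) (.e (nat_lit 1999) (nat_lit 137) (.e (nat_lit 663569) (nat_lit 6) (.e (nat_lit 81959) (nat_lit 24) (.e (nat_lit 123184) (nat_lit 264) .nil)))))) (.g (nat_lit 0) .nil .nil)))))) (.nd (nat_lit 3) (.nd (nat_lit 4) (.nd (nat_lit 5) 
(.lf (nat_lit 38662) (.g (nat_lit 2402) (.e (nat_lit 1222) (nat_lit 90) (.e (nat_lit 81927) (nat_lit 11) (.e (nat_lit 426343) (nat_lit 14) (.e (nat_lit 491558) (nat_lit 10) (.e (nat_lit 344088) (nat_lit 18) .nil))))) .nil)) 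
(.lf (nat_lit 38694) (.g (nat_lit 1241) (.e (nat_lit 1222) (nat_lit 90) (.e (nat_lit 81935) (nat_lit 20) (.e (nat_lit 1998) (nat_lit 137) (.e (nat_lit 663554) (nat_lit 0) (.e (nat_lit 1564) (nat_lit 110) .nil))))) .nil))) (.nd (nat_lit 5) 
(.lf (nat_lit 38678) (.g (nat_lit 3429) (.e (nat_lit 1222) (nat_lit 90) (.e (nat_lit 81927) (nat_lit 11) (.e (nat_lit 426344) (nat_lit 14) (.e (nat_lit 491558) (nat_lit 10) (.e (nat_lit 344096) (nat_lit 18) (.e (nat_lit 7125) (nat_lit 382) .nil)))))) (.g (nat_lit 0) .nil .nil))) 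
(.lf (nat_lit 38710) (.g (nat_lit 596) (.e (nat_lit 1222) (nat_lit 90) (.e (nat_lit 81935) (nat_lit 20) (.e (nat_lit 1998) (nat_lit 137) (.e (nat_lit 671488) (nat_lit 6) .nil)))) .nil)))) (.nd (nat_lit 4) (.nd (nat_lit 5) 
(.lf (nat_lit 38670) (.g (nat_lit 3093) (.e (nat_lit 1222) (nat_lit 90) (.e (nat_lit 81927) (nat_lit 11) (.e (nat_lit 426343) (nat_lit 14) (.e (nat_lit 491560) (nat_lit 10) (.e (nat_lit 344090) (nat_lit 18) (.e (nat_lit 7122) (nat_lit 382) .nil)))))) (.g (nat_lit 6) .nil .nil))) 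
(.lf (nat_lit 38702) (.g (nat_lit 1281) (.e (nat_lit 1222) (nat_lit 90) (.e (nat_lit 81935) (nat_lit 20) (.e (nat_lit 1998) (nat_lit 137) (.e (nat_lit 663554) (nat_lit 0) (.e (nat_lit 1599) (nat_lit 111) (.e (nat_lit 360456) (nat_lit 0) (.e (nat_lit 5818) (nat_lit 320) .nil))))))) (.g (nat_lit 4) .nil .nil)))) (.nd (nat_lit 5) 
(.lf (nat_lit 38686) (.g (nat_lit 2968) (.e (nat_lit 1222) (nat_lit 90) (.e (nat_lit 81935) (nat_lit 20) (.e (nat_lit 1994) (nat_lit 137) (.e (nat_lit 663569) (nat_lit 6) (.e (nat_lit 81957) (nat_lit 24) (.e (nat_lit 123184) (nat_lit 264) .nil)))))) (.g (nat_lit 0) .nil .nil))) 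
(.lf (nat_lit 38718) (.g (nat_lit 2559) (.e (nat_lit 1222) (nat_lit 90) (.e (nat_lit 81938) (nat_lit 20) (.e (nat_lit 2281) (nat_lit 150) (.e (nat_lit 770072) (nat_lit 8) (.e (nat_lit 65617) (nat_lit 10) (.e (nat_lit 344096) (nat_lit 18) (.e (nat_lit 7122) (nat_lit 382) .nil))))))) (.g (nat_lit 4) .nil .nil)))))))) 
(.nd (nat_lit 1) (.nd (nat_lit 2) (.nd (nat_lit 3) (.nd (nat_lit 4) (.nd (nat_lit 5) 
(.lf (nat_lit 38657) (.g (nat_lit 2005) (.e (nat_lit 1222) (nat_lit 90) (.e (nat_lit 81927) (nat_lit 11) (.e (nat_lit 426341) (nat_lit 14) (.e (nat_lit 491560) (nat_lit 10) (.e (nat_lit 344094) (nat_lit 18) (.e (nat_lit 7122) (nat_lit 382) .nil)))))) (.g (nat_lit 4) .nil .nil))) 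
(.lf (nat_lit 38689) (.g (nat_lit 1642) (.e (nat_lit 1222) (nat_lit 90) (.e (nat_lit 81935) (nat_lit 20) (.e (nat_lit 1994) (nat_lit 137) (.e (nat_lit 663569) (nat_lit 6) (.e (nat_lit 81958) (nat_lit 24) (.e (nat_lit 123184) (nat_lit 264) .nil)))))) (.g (nat_lit 4) .nil .nil)))) (.nd (nat_lit 5) 
(.lf (nat_lit 38673) (.g (nat_lit 2188) (.e (nat_lit 1222) (nat_lit 90) (.e (nat_lit 81927) (nat_lit 11) (.e (nat_lit 426343) (nat_lit 14) (.e (nat_lit 491560) (nat_lit 10) (.e (nat_lit 344094) (nat_lit 18) (.e (nat_lit 7124) (nat_lit 382) .nil)))))) (.g (nat_lit 5) .nil .nil))) 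
(.lf (nat_lit 38705) (.g (nat_lit 2989) (.e (nat_lit 1222) (nat_lit 90) (.e (nat_lit 81935) (nat_lit 20) (.e (nat_lit 1998) (nat_lit 137) (.e (nat_lit 663569) (nat_lit 6) (.e (nat_lit 81957) (nat_lit 24) (.e (nat_lit 123184) (nat_lit 264) .nil)))))) (.g (nat_lit 0) .nil .nil))))) (.nd (nat_lit 4) (.nd (nat_lit 5) 
(.lf (nat_lit 38665) (.g (nat_lit 3213) (.e (nat_lit 1222) (nat_lit 90) (.e (nat_lit 81927) (nat_lit 11) (.e (nat_lit 426343) (nat_lit 14) (.e (nat_lit 491558) (nat_lit 10) (.e (nat_lit 344095) (nat_lit 18) (.e (nat_lit 7122) (nat_lit 382) .nil)))))) (.g (nat_lit 0) .nil .nil))) 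
(.lf (nat_lit 38697) (.g (nat_lit 2962) (.e (nat_lit 1222) (nat_lit 90) (.e (nat_lit 81935) (nat_lit 20) (.e (nat_lit 1998) (nat_lit 137) (.e (nat_lit 663554) (nat_lit 0) (.e (nat_lit 1572) (nat_lit 110) (.e (nat_lit 352318) (nat_lit 24) (.e (nat_lit 123183) (nat_lit 264) .nil))))))) (.g (nat_lit 7) .nil .nil)))) (.nd (nat_lit 5) 
(.lf (nat_lit 38681) (.g (nat_lit 1912) (.e (nat_lit 1222) (nat_lit 90) (.e (nat_lit 81927) (nat_lit 11) (.e (nat_lit 426344) (nat_lit 14) (.e (nat_lit 491560) (nat_lit 10) (.e (nat_lit 344091) (nat_lit 18) (.e (nat_lit 7124) (nat_lit 382) .nil)))))) (.g (nat_lit 4) .nil .nil))) 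
(.lf (nat_lit 38713) (.g (nat_lit 2246) (.e (nat_lit 1222) (nat_lit 90) (.e (nat_lit 81935) (nat_lit 20) (.e (nat_lit 1999) (nat_lit 137) (.e (nat_lit 663569) (nat_lit 6) (.e (nat_lit 81957) (nat_lit 24) (.e (nat_lit 123185) (nat_lit 264) .nil)))))) (.g (nat_lit 0) .nil .nil)))))) (.nd (nat_lit 3) (.nd (nat_lit 4) (.nd (nat_lit 5) 
(.lf (nat_lit 38661) (.g (nat_lit 2702) (.e (nat_lit 1222) (nat_lit 90) (.e (nat_lit 81927) (nat_lit 11) (.e (nat_lit 426343) (nat_lit 14) (.e (nat_lit 491556) (nat_lit 9) (.e (nat_lit 335872) (nat_lit 0) .nil))))) .nil)) 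
(.lf (nat_lit 38693) (.g (nat_lit 1654) (.e (nat_lit 1222) (nat_lit 90) (.e (nat_lit 81935) (nat_lit 20) (.e (nat_lit 1996) (nat_lit 137) (.e (nat_lit 663569) (nat_lit 6) (.e (nat_lit 81958) (nat_lit 24) (.e (nat_lit 123183) (nat_lit 264) .nil)))))) (.g (nat_lit 5) .nil .nil)))) (.nd (nat_lit 5) 
(.lf (nat_lit 38677) (.g (nat_lit 2717) (.e (nat_lit 1222) (nat_lit 90) (.e (nat_lit 81927) (nat_lit 11) (.e (nat_lit 426344) (nat_lit 14) (.e (nat_lit 491558) (nat_lit 10) (.e (nat_lit 344095) (nat_lit 18) (.e (nat_lit 7122) (nat_lit 382) .nil)))))) (.g (nat_lit 0) .nil .nil))) 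
(.lf (nat_lit 38709) (.g (nat_lit 2618) (.e (nat_lit 1222) (nat_lit 90) (.e (nat_lit 81935) (nat_lit 20) (.e (nat_lit 1998) (nat_lit 137) (.e (nat_lit 663569) (nat_lit 6) (.e (nat_lit 81959) (nat_lit 24) (.e (nat_lit 123183) (nat_lit 264) .nil)))))) (.g (nat_lit 6) .nil .nil))))) (.nd (nat_lit 4) (.nd (nat_lit 5) 
(.lf (nat_lit 38669) (.g (nat_lit 2601) (.e (nat_lit 1222) (nat_lit 90) (.e (nat_lit 81927) (nat_lit 11) (.e (nat_lit 426343) (nat_lit 14) (.e (nat_lit 491560) (nat_lit 10) (.e (nat_lit 344088) (nat_lit 18) (.e (nat_lit 7125) (nat_lit 382) .nil)))))) (.g (nat_lit 4) .nil .nil))) 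
(.lf (nat_lit 38701) (.g (nat_lit 1192) (.e (nat_lit 1222) (nat_lit 90) (.e (nat_lit 81935) (nat_lit 20) (.e (nat_lit 1998) (nat_lit 137) (.e (nat_lit 663554) (nat_lit 0) (.e (nat_lit 1598) (nat_lit 111) .nil))))) .nil))) (.nd (nat_lit 5) 
(.lf (nat_lit 38685) (.g (nat_lit 2321) (.e (nat_lit 1222) (nat_lit 90) (.e (nat_lit 81935) (nat_lit 20) (.e (nat_lit 1994) (nat_lit 137) (.e (nat_lit 663569) (nat_lit 6) (.e (nat_lit 81957) (nat_lit 24) (.e (nat_lit 123183) (nat_lit 264) .nil)))))) (.g (nat_lit 0) .nil .nil))) 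
(.lf (nat_lit 38717) (.g (nat_lit 2802) (.e (nat_lit 1222) (nat_lit 90) (.e (nat_lit 81938) (nat_lit 20) (.e (nat_lit 2281) (nat_lit 150) (.e (nat_lit 770072) (nat_lit 8) (.e (nat_lit 65617) (nat_lit 10) (.e (nat_lit 344091) (nat_lit 18) (.e (nat_lit 7125) (nat_lit 382) .nil))))))) (.g (nat_lit 5) .nil .nil))))))) (.nd (nat_lit 2) (.nd (nat_lit 3) (.nd (nat_lit 4) (.nd (nat_lit 5) 
(.lf (nat_lit 38659) (.g (nat_lit 2035) (.e (nat_lit 1222) (nat_lit 90) (.e (nat_lit 81927) (nat_lit 11) (.e (nat_lit 426342) (nat_lit 14) (.e (nat_lit 491560) (nat_lit 10) (.e (nat_lit 344095) (nat_lit 18) (.e (nat_lit 7122) (nat_lit 382) .nil)))))) (.g (nat_lit 4) .nil .nil))) 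
(.lf (nat_lit 38691) (.g (nat_lit 1227) (.e (nat_lit 1222) (nat_lit 90) (.e (nat_lit 81935) (nat_lit 20) (.e (nat_lit 1996) (nat_lit 137) (.e (nat_lit 663567) (nat_lit 4) (.e (nat_lit 65595) (nat_lit 9) (.e (nat_lit 336032) (nat_lit 4) (.e (nat_lit 123183) (nat_lit 264) .nil))))))) (.g (nat_lit 4) .nil .nil)))) (.nd (nat_lit 5) 
(.lf (nat_lit 38675) (.g (nat_lit 2525) (.e (nat_lit 1222) (nat_lit 90) (.e (nat_lit 81927) (nat_lit 11) (.e (nat_lit 426343) (nat_lit 14) (.e (nat_lit 491560) (nat_lit 10) (.e (nat_lit 344096) (nat_lit 18) (.e (nat_lit 7124) (nat_lit 382) .nil)))))) (.g (nat_lit 5) .nil .nil))) 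
(.lf (nat_lit 38707) (.g (nat_lit 1802) (.e (nat_lit 1222) (nat_lit 90) (.e (nat_lit 81935) (nat_lit 20) (.e (nat_lit 1998) (nat_lit 137) (.e (nat_lit 663569) (nat_lit 6) (.e (nat_lit 81958) (nat_lit 24) (.e (nat_lit 123183) (nat_lit 264) .nil)))))) (.g (nat_lit 5) .nil .nil))))) (.nd (nat_lit 4) (.nd (nat_lit 5) 
(.lf (nat_lit 38667) (.g (nat_lit 2885) (.e (nat_lit 1222) (nat_lit 90) (.e (nat_lit 81927) (nat_lit 11) (.e (nat_lit 426343) (nat_lit 14) (.e (nat_lit 491558) (nat_lit 10) (.e (nat_lit 344096) (nat_lit 18) (.e (nat_lit 7124) (nat_lit 382) .nil)))))) (.g (nat_lit 6) .nil .nil))) 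
(.lf (nat_lit 38699) (.g (nat_lit 2744) (.e (nat_lit 1222) (nat_lit 90) (.e (nat_lit 81935) (nat_lit 20) (.e (nat_lit 1998) (nat_lit 137) (.e (nat_lit 663554) (nat_lit 0) (.e (nat_lit 1589) (nat_lit 111) (.e (nat_lit 360457) (nat_lit 0) (.e (nat_lit 5818) (nat_lit 320) .nil))))))) (.g (nat_lit 6) .nil .nil)))) (.nd (nat_lit 5) 
(.lf (nat_lit 38683) (.g (nat_lit 1476) (.e (nat_lit 1222) (nat_lit 90) (.e (nat_lit 81935) (nat_lit 20) (.e (nat_lit 1994) (nat_lit 137) (.e (nat_lit 663567) (nat_lit 4) (.e (nat_lit 65595) (nat_lit 9) (.e (nat_lit 336032) (nat_lit 4) (.e (nat_lit 123183) (nat_lit 264) .nil))))))) (.g (nat_lit 4) .nil .nil))) 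
(.lf (nat_lit 38715) (.g (nat_lit 490) (.e (nat_lit 1222) (nat_lit 90) (.e (nat_lit 81935) (nat_lit 20) (.e (nat_lit 2375) (nat_lit 154) .nil))) .nil))))) (.nd (nat_lit 3) (.nd (nat_lit 4) (.nd (nat_lit 5) 
(.lf (nat_lit 38663) (.g (nat_lit 2619) (.e (nat_lit 1222) (nat_lit 90) (.e (nat_lit 81927) (nat_lit 11) (.e (nat_lit 426343) (nat_lit 14) (.e (nat_lit 491558) (nat_lit 10) (.e (nat_lit 344090) (nat_lit 18) (.e (nat_lit 7122) (nat_lit 382) .nil)))))) (.g (nat_lit 5) .nil .nil))) 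
(.lf (nat_lit 38695) (.g (nat_lit 3330) (.e (nat_lit 1222) (nat_lit 90) (.e (nat_lit 81935) (nat_lit 20) (.e (nat_lit 1998) (nat_lit 137) (.e (nat_lit 663554) (nat_lit 0) (.e (nat_lit 1567) (nat_lit 110) (.e (nat_lit 352318) (nat_lit 24) (.e (nat_lit 123184) (nat_lit 264) .nil))))))) (.g (nat_lit 0) .nil .nil)))) (.nd (nat_lit 5) 
(.lf (nat_lit 38679) (.g (nat_lit 1903) (.e (nat_lit 1222) (nat_lit 90) (.e (nat_lit 81927) (nat_lit 11) (.e (nat_lit 426344) (nat_lit 14) (.e (nat_lit 491560) (nat_lit 10) (.e (nat_lit 344087) (nat_lit 18) (.e (nat_lit 7125) (nat_lit 382) .nil)))))) (.g (nat_lit 4) .nil .nil))) 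
(.lf (nat_lit 38711) (.g (nat_lit 1289) (.e (nat_lit 1222) (nat_lit 90) (.e (nat_lit 81935) (nat_lit 20) (.e (nat_lit 1999) (nat_lit 137) (.e (nat_lit 663567) (nat_lit 4) (.e (nat_lit 65595) (nat_lit 9) (.e (nat_lit 336032) (nat_lit 4) (.e (nat_lit 123183) (nat_lit 264) .nil))))))) (.g (nat_lit 4) .nil .nil))))) (.nd (nat_lit 4) (.nd (nat_lit 5) 
(.lf (nat_lit 38671) (.g (nat_lit 3208) (.e (nat_lit 1222) (nat_lit 90) (.e (nat_lit 81927) (nat_lit 11) (.e (nat_lit 426343) (nat_lit 14) (.e (nat_lit 491560) (nat_lit 10) (.e (nat_lit 344091) (nat_lit 18) (.e (nat_lit 7122) (nat_lit 382) .nil)))))) (.g (nat_lit 6) .nil .nil))) 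
(.lf (nat_lit 38703) (.g (nat_lit 1365) (.e (nat_lit 1222) (nat_lit 90) (.e (nat_lit 81935) (nat_lit 20) (.e (nat_lit 1998) (nat_lit 137) (.e (nat_lit 663567) (nat_lit 4) (.e (nat_lit 65595) (nat_lit 9) (.e (nat_lit 336032) (nat_lit 4) (.e (nat_lit 123183) (nat_lit 264) .nil))))))) (.g (nat_lit 4) .nil .nil)))) (.nd (nat_lit 5) 
(.lf (nat_lit 38687) (.g (nat_lit 2217) (.e (nat_lit 1222) (nat_lit 90) (.e (nat_lit 81935) (nat_lit 20) (.e (nat_lit 1994) (nat_lit 137) (.e (nat_lit 663569) (nat_lit 6) (.e (nat_lit 81957) (nat_lit 24) (.e (nat_lit 123185) (nat_lit 264) .nil)))))) (.g (nat_lit 0) .nil .nil))) 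
(.lf (nat_lit 38719) (.g (nat_lit 1606) (.e (nat_lit 1222) (nat_lit 90) (.e (nat_lit 81943) (nat_lit 20) (.e (nat_lit 1840) (nat_lit 123) (.e (nat_lit 548891) (nat_lit 11) (.e (nat_lit 81959) (nat_lit 24) (.e (nat_lit 130816) (nat_lit 140) .nil)))))) (.g (nat_lit 4) .nil .nil)))))))))

noncomputable def tv538 : DT := (.nd (nat_lit 0) (.nd (nat_lit 1) (.nd (nat_lit 2) (.nd (nat_lit 3) (.nd (nat_lit 4) (.nd (nat_lit 5) 
(.lf (nat_lit 38720) (.g (nat_lit 2313) (.e (nat_lit 1222) (nat_lit 90) (.e (nat_lit 81943) (nat_lit 20) (.e (nat_lit 1841) (nat_lit 123) (.e (nat_lit 548891) (nat_lit 11) (.e (nat_lit 81959) (nat_lit 24) (.e (nat_lit 130816) (nat_lit 140) .nil)))))) (.g (nat_lit 5) .nil .nil))) 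
(.lf (nat_lit 38752) (.g (nat_lit 2614) (.e (nat_lit 1222) (nat_lit 90) (.e (nat_lit 81943) (nat_lit 20) (.e (nat_lit 2003) (nat_lit 138) (.e (nat_lit 671764) (nat_lit 6) (.e (nat_lit 81957) (nat_lit 24) (.e (nat_lit 123183) (nat_lit 264) .nil)))))) (.g (nat_lit 0) .nil .nil)))) (.nd (nat_lit 5) 
(.lf (nat_lit 38736) (.g (nat_lit 1726) (.e (nat_lit 1222) (nat_lit 90) (.e (nat_lit 81943) (nat_lit 20) (.e (nat_lit 1963) (nat_lit 134) (.e (nat_lit 638986) (nat_lit 5) (.e (nat_lit 3015) (nat_lit 187) (.e (nat_lit 450560) (nat_lit 0) (.e (nat_lit 5060) (nat_lit 292) .nil))))))) (.g (nat_lit 5) .nil .nil))) 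
(.lf (nat_lit 38768) (.g (nat_lit 3087) (.e (nat_lit 1222) (nat_lit 90) (.e (nat_lit 81943) (nat_lit 20) (.e (nat_lit 2005) (nat_lit 138) (.e (nat_lit 671748) (nat_lit 0) (.e (nat_lit 1572) (nat_lit 110) (.e (nat_lit 352318) (nat_lit 24) (.e (nat_lit 123183) (nat_lit 264) .nil))))))) (.g (nat_lit 7) .nil .nil))))) (.nd (nat_lit 4) (.nd (nat_lit 5) 
(.lf (nat_lit 38728) (.g (nat_lit 1748) (.e (nat_lit 1222) (nat_lit 90) (.e (nat_lit 81943) (nat_lit 20) (.e (nat_lit 1962) (nat_lit 134) (.e (nat_lit 638985) (nat_lit 5) (.e (nat_lit 3015) (nat_lit 187) (.e (nat_lit 450560) (nat_lit 0) (.e (nat_lit 5060) (nat_lit 292) .nil))))))) (.g (nat_lit 5) .nil .nil))) 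
(.lf (nat_lit 38760) (.g (nat_lit 1660) (.e (nat_lit 1222) (nat_lit 90) (.e (nat_lit 81943) (nat_lit 20) (.e (nat_lit 2004) (nat_lit 138) (.e (nat_lit 671762) (nat_lit 4) (.e (nat_lit 65598) (nat_lit 9) (.e (nat_lit 336032) (nat_lit 4) (.e (nat_lit 123183) (nat_lit 264) .nil))))))) (.g (nat_lit 4) .nil .nil)))) (.nd (nat_lit 5) 
(.lf (nat_lit 38744) (.g (nat_lit 2440) (.e (nat_lit 1222) (nat_lit 90) (.e (nat_lit 81943) (nat_lit 20) (.e (nat_lit 2003) (nat_lit 138) (.e (nat_lit 671747) (nat_lit 0) (.e (nat_lit 1572) (nat_lit 110) (.e (nat_lit 352318) (nat_lit 24) (.e (nat_lit 123183) (nat_lit 264) .nil))))))) (.g (nat_lit 6) .nil .nil))) 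
(.lf (nat_lit 38776) (.g (nat_lit 2630) (.e (nat_lit 1222) (nat_lit 90) (.e (nat_lit 81943) (nat_lit 20) (.e (nat_lit 2005) (nat_lit 138) (.e (nat_lit 671764) (nat_lit 6) (.e (nat_lit 81957) (nat_lit 24) (.e (nat_lit 123183) (nat_lit 264) .nil)))))) (.g (nat_lit 0) .nil .nil)))))) (.nd (nat_lit 3) (.nd (nat_lit 4) (.nd (nat_lit 5) 
(.lf (nat_lit 38724) (.g (nat_lit 183) (.e (nat_lit 1222) (nat_lit 90) (.e (nat_lit 81943) (nat_lit 20) (.e (nat_lit 1886) (nat_lit 127) .nil))) .nil)) 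
(.lf (nat_lit 38756) (.g (nat_lit 2962) (.e (nat_lit 1222) (nat_lit 90) (.e (nat_lit 81943) (nat_lit 20) (.e (nat_lit 2004) (nat_lit 138) (.e (nat_lit 671748) (nat_lit 0) (.e (nat_lit 1572) (nat_lit 110) (.e (nat_lit 352318) (nat_lit 24) (.e (nat_lit 123183) (nat_lit 264) .nil))))))) (.g (nat_lit 7) .nil .nil)))) (.nd (nat_lit 5) 
(.lf (nat_lit 38740) (.g (nat_lit 1185) (.e (nat_lit 1222) (nat_lit 90) (.e (nat_lit 81943) (nat_lit 20) (.e (nat_lit 1963) (nat_lit 134) (.e (nat_lit 638986) (nat_lit 5) (.e (nat_lit 3028) (nat_lit 187) (.e (nat_lit 458496) (nat_lit 0) (.e (nat_lit 5057) (nat_lit 292) .nil))))))) (.g (nat_lit 4) .nil .nil))) 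
(.lf (nat_lit 38772) (.g (nat_lit 1829) (.e (nat_lit 1222) (nat_lit 90) (.e (nat_lit 81943) (nat_lit 20) (.e (nat_lit 2005) (nat_lit 138) (.e (nat_lit 671762) (nat_lit 4) (.e (nat_lit 65598) (nat_lit 9) (.e (nat_lit 336032) (nat_lit 4) (.e (nat_lit 123183) (nat_lit 264) .nil))))))) (.g (nat_lit 4) .nil .nil))))) (.nd (nat_lit 4) (.nd (nat_lit 5) 
(.lf (nat_lit 38732) (.g (nat_lit 2665) (.e (nat_lit 1222) (nat_lit 90) (.e (nat_lit 81943) (nat_lit 20) (.e (nat_lit 1962) (nat_lit 134) (.e (nat_lit 638998) (nat_lit 8) (.e (nat_lit 172120) (nat_lit 12) (.e (nat_lit 475155) (nat_lit 21) (.e (nat_lit 6278) (nat_lit 337) .nil))))))) (.g (nat_lit 5) .nil .nil))) 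
(.lf (nat_lit 38764) (.g (nat_lit 1624) (.e (nat_lit 1222) (nat_lit 90) (.e (nat_lit 81943) (nat_lit 20) (.e (nat_lit 2004) (nat_lit 138) (.e (nat_lit 671764) (nat_lit 6) (.e (nat_lit 81958) (nat_lit 24) (.e (nat_lit 123183) (nat_lit 264) .nil)))))) (.g (nat_lit 5) .nil .nil)))) (.nd (nat_lit 5) 
(.lf (nat_lit 38748) (.g (nat_lit 1592) (.e (nat_lit 1222) (nat_lit 90) (.e (nat_lit 81943) (nat_lit 20) (.e (nat_lit 2003) (nat_lit 138) (.e (nat_lit 671762) (nat_lit 4) (.e (nat_lit 65598) (nat_lit 9) (.e (nat_lit 336032) (nat_lit 4) (.e (nat_lit 123183) (nat_lit 264) .nil))))))) (.g (nat_lit 4) .nil .nil))) 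
(.lf (nat_lit 38780) (.g (nat_lit 3182) (.e (nat_lit 1222) (nat_lit 90) (.e (nat_lit 81943) (nat_lit 20) (.e (nat_lit 2006) (nat_lit 138) (.e (nat_lit 671748) (nat_lit 0) (.e (nat_lit 1572) (nat_lit 110) (.e (nat_lit 352318) (nat_lit 24) (.e (nat_lit 123183) (nat_lit 264) .nil))))))) (.g (nat_lit 7) .nil .nil))))))) (.nd (nat_lit 2) (.nd (nat_lit 3) (.nd (nat_lit 4) (.nd (nat_lit 5) 
(.lf (nat_lit 38722) (.g (nat_lit 2947) (.e (nat_lit 1222) (nat_lit 90) (.e (nat_lit 81943) (nat_lit 20) (.e (nat_lit 1885) (nat_lit 127) (.e (nat_lit 581636) (nat_lit 0) (.e (nat_lit 3015) (nat_lit 187) (.e (nat_lit 450563) (nat_lit 0) (.e (nat_lit 6740) (nat_lit 365) .nil))))))) (.g (nat_lit 7) .nil .nil))) 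
(.lf (nat_lit 38754) (.g (nat_lit 2653) (.e (nat_lit 1222) (nat_lit 90) (.e (nat_lit 81943) (nat_lit 20) (.e (nat_lit 2003) (nat_lit 138) (.e (nat_lit 671764) (nat_lit 6) (.e (nat_lit 81959) (nat_lit 24) (.e (nat_lit 123183) (nat_lit 264) .nil)))))) (.g (nat_lit 0) .nil .nil)))) (.nd (nat_lit 5) 
(.lf (nat_lit 38738) (.g (nat_lit 1271) (.e (nat_lit 1222) (nat_lit 90) (.e (nat_lit 81943) (nat_lit 20) (.e (nat_lit 1963) (nat_lit 134) (.e (nat_lit 638986) (nat_lit 5) (.e (nat_lit 3016) (nat_lit 187) (.e (nat_lit 458496) (nat_lit 0) (.e (nat_lit 5057) (nat_lit 292) .nil))))))) (.g (nat_lit 5) .nil .nil))) 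
(.lf (nat_lit 38770) (.g (nat_lit 2392) (.e (nat_lit 1222) (nat_lit 90) (.e (nat_lit 81943) (nat_lit 20) (.e (nat_lit 2005) (nat_lit 138) (.e (nat_lit 671748) (nat_lit 0) (.e (nat_lit 1589) (nat_lit 111) (.e (nat_lit 360457) (nat_lit 0) (.e (nat_lit 5818) (nat_lit 320) .nil))))))) (.g (nat_lit 5) .nil .nil))))) (.nd (nat_lit 4) (.nd (nat_lit 5) 
(.lf (nat_lit 38730) (.g (nat_lit 1287) (.e (nat_lit 1222) (nat_lit 90) (.e (nat_lit 81943) (nat_lit 20) (.e (nat_lit 1962) (nat_lit 134) (.e (nat_lit 638985) (nat_lit 5) (.e (nat_lit 3016) (nat_lit 187) (.e (nat_lit 458496) (nat_lit 0) (.e (nat_lit 5057) (nat_lit 292) .nil))))))) (.g (nat_lit 5) .nil .nil))) 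
(.lf (nat_lit 38762) (.g (nat_lit 1695) (.e (nat_lit 1222) (nat_lit 90) (.e (nat_lit 81943) (nat_lit 20) (.e (nat_lit 2004) (nat_lit 138) (.e (nat_lit 671762) (nat_lit 4) (.e (nat_lit 65605) (nat_lit 9) (.e (nat_lit 336032) (nat_lit 4) (.e (nat_lit 123184) (nat_lit 264) .nil))))))) (.g (nat_lit 4) .nil .nil)))) (.nd (nat_lit 5) 
(.lf (nat_lit 38746) (.g (nat_lit 1822) (.e (nat_lit 1222) (nat_lit 90) (.e (nat_lit 81943) (nat_lit 20) (.e (nat_lit 2003) (nat_lit 138) (.e (nat_lit 671747) (nat_lit 0) (.e (nat_lit 1598) (nat_lit 111) (.e (nat_lit 360456) (nat_lit 0) (.e (nat_lit 5818) (nat_lit 320) .nil))))))) (.g (nat_lit 4) .nil .nil))) 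
(.lf (nat_lit 38778) (.g (nat_lit 2607) (.e (nat_lit 1222) (nat_lit 90) (.e (nat_lit 81943) (nat_lit 20) (.e (nat_lit 2005) (nat_lit 138) (.e (nat_lit 671764) (nat_lit 6) (.e (nat_lit 81959) (nat_lit 24) (.e (nat_lit 123183) (nat_lit 264) .nil)))))) (.g (nat_lit 0) .nil .nil)))))) (.nd (nat_lit 3) (.nd (nat_lit 4) (.nd (nat_lit 5) 
(.lf (nat_lit 38726) (.g (nat_lit 2467) (.e (nat_lit 1222) (nat_lit 90) (.e (nat_lit 81943) (nat_lit 20) (.e (nat_lit 1960) (nat_lit 134) (.e (nat_lit 638998) (nat_lit 8) (.e (nat_lit 172120) (nat_lit 12) (.e (nat_lit 475155) (nat_lit 21) (.e (nat_lit 6280) (nat_lit 337) .nil))))))) (.g (nat_lit 5) .nil .nil))) 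
(.lf (nat_lit 38758) (.g (nat_lit 2416) (.e (nat_lit 1222) (nat_lit 90) (.e (nat_lit 81943) (nat_lit 20) (.e (nat_lit 2004) (nat_lit 138) (.e (nat_lit 671748) (nat_lit 0) (.e (nat_lit 1589) (nat_lit 111) (.e (nat_lit 360457) (nat_lit 0) (.e (nat_lit 5818) (nat_lit 320) .nil))))))) (.g (nat_lit 5) .nil .nil)))) (.nd (nat_lit 5) 
(.lf (nat_lit 38742) (.g (nat_lit 1293) (.e (nat_lit 1222) (nat_lit 90) (.e (nat_lit 81943) (nat_lit 20) (.e (nat_lit 2003) (nat_lit 138) (.e (nat_lit 671746) (nat_lit 0) (.e (nat_lit 1586) (nat_lit 111) (.e (nat_lit 360456) (nat_lit 0) (.e (nat_lit 5818) (nat_lit 320) .nil))))))) (.g (nat_lit 4) .nil .nil))) 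
(.lf (nat_lit 38774) (.g (nat_lit 1924) (.e (nat_lit 1222) (nat_lit 90) (.e (nat_lit 81943) (nat_lit 20) (.e (nat_lit 2005) (nat_lit 138) (.e (nat_lit 671762) (nat_lit 4) (.e (nat_lit 65605) (nat_lit 9) (.e (nat_lit 336032) (nat_lit 4) (.e (nat_lit 123184) (nat_lit 264) .nil))))))) (.g (nat_lit 4) .nil .nil))))) (.nd (nat_lit 4) (.nd (nat_lit 5) 
(.lf (nat_lit 38734) (.g (nat_lit 2621) (.e (nat_lit 1222) (nat_lit 90) (.e (nat_lit 81943) (nat_lit 20) (.e (nat_lit 1962) (nat_lit 134) (.e (nat_lit 638998) (nat_lit 8) (.e (nat_lit 172120) (nat_lit 12) (.e (nat_lit 475155) (nat_lit 21) (.e (nat_lit 6282) (nat_lit 337) .nil))))))) (.g (nat_lit 5) .nil .nil))) 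
(.lf (nat_lit 38766) (.g (nat_lit 2293) (.e (nat_lit 1222) (nat_lit 90) (.e (nat_lit 81943) (nat_lit 20) (.e (nat_lit 2005) (nat_lit 138) (.e (nat_lit 671747) (nat_lit 0) (.e (nat_lit 1572) (nat_lit 110) (.e (nat_lit 352318) (nat_lit 24) (.e (nat_lit 123183) (nat_lit 264) .nil))))))) (.g (nat_lit 6) .nil .nil)))) (.nd (nat_lit 5) 
(.lf (nat_lit 38750) (.g (nat_lit 1684) (.e (nat_lit 1222) (nat_lit 90) (.e (nat_lit 81943) (nat_lit 20) (.e (nat_lit 2003) (nat_lit 138) (.e (nat_lit 671762) (nat_lit 4) (.e (nat_lit 65605) (nat_lit 9) (.e (nat_lit 336032) (nat_lit 4) (.e (nat_lit 123184) (nat_lit 264) .nil))))))) (.g (nat_lit 4) .nil .nil))) 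
(.lf (nat_lit 38782) (.g (nat_lit 2495) (.e (nat_lit 1222) (nat_lit 90) (.e (nat_lit 81943) (nat_lit 20) (.e (nat_lit 2006) (nat_lit 138) (.e (nat_lit 671748) (nat_lit 0) (.e (nat_lit 1589) (nat_lit 111) (.e (nat_lit 360457) (nat_lit 0) (.e (nat_lit 5818) (nat_lit 320) .nil))))))) (.g (nat_lit 6) .nil .nil)))))))) 
(.nd (nat_lit 1) (.nd (nat_lit 2) (.nd (nat_lit 3) (.nd (nat_lit 4) (.nd (nat_lit 5) 
(.lf (nat_lit 38721) (.g (nat_lit 3268) (.e (nat_lit 1222) (nat_lit 90) (.e (nat_lit 81943) (nat_lit 20) (.e (nat_lit 1842) (nat_lit 123) (.e (nat_lit 548891) (nat_lit 11) (.e (nat_lit 81959) (nat_lit 24) (.e (nat_lit 130816) (nat_lit 140) .nil)))))) (.g (nat_lit 5) .nil .nil))) 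
(.lf (nat_lit 38753) (.g (nat_lit 3263) (.e (nat_lit 1222) (nat_lit 90) (.e (nat_lit 81943) (nat_lit 20) (.e (nat_lit 2003) (nat_lit 138) (.e (nat_lit 671764) (nat_lit 6) (.e (nat_lit 81957) (nat_lit 24) (.e (nat_lit 123184) (nat_lit 264) .nil)))))) (.g (nat_lit 0) .nil .nil)))) (.nd (nat_lit 5) 
(.lf (nat_lit 38737) (.g (nat_lit 1385) (.e (nat_lit 1222) (nat_lit 90) (.e (nat_lit 81943) (nat_lit 20) (.e (nat_lit 1963) (nat_lit 134) (.e (nat_lit 638986) (nat_lit 5) (.e (nat_lit 3015) (nat_lit 187) (.e (nat_lit 450560) (nat_lit 0) (.e (nat_lit 5077) (nat_lit 292) .nil))))))) (.g (nat_lit 5) .nil .nil))) 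
(.lf (nat_lit 38769) (.g (nat_lit 2744) (.e (nat_lit 1222) (nat_lit 90) (.e (nat_lit 81943) (nat_lit 20) (.e (nat_lit 2005) (nat_lit 138) (.e (nat_lit 671748) (nat_lit 0) (.e (nat_lit 1572) (nat_lit 110) (.e (nat_lit 352318) (nat_lit 24) (.e (nat_lit 123185) (nat_lit 264) .nil))))))) (.g (nat_lit 6) .nil .nil))))) (.nd (nat_lit 4) (.nd (nat_lit 5) 
(.lf (nat_lit 38729) (.g (nat_lit 1407) (.e (nat_lit 1222) (nat_lit 90) (.e (nat_lit 81943) (nat_lit 20) (.e (nat_lit 1962) (nat_lit 134) (.e (nat_lit 638985) (nat_lit 5) (.e (nat_lit 3015) (nat_lit 187) (.e (nat_lit 450560) (nat_lit 0) (.e (nat_lit 5077) (nat_lit 292) .nil))))))) (.g (nat_lit 5) .nil .nil))) 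
(.lf (nat_lit 38761) (.g (nat_lit 2336) (.e (nat_lit 1222) (nat_lit 90) (.e (nat_lit 81943) (nat_lit 20) (.e (nat_lit 2004) (nat_lit 138) (.e (nat_lit 671762) (nat_lit 4) (.e (nat_lit 65599) (nat_lit 9) (.e (nat_lit 336032) (nat_lit 4) (.e (nat_lit 123184) (nat_lit 264) .nil))))))) (.g (nat_lit 5) .nil .nil)))) (.nd (nat_lit 5) 
(.lf (nat_lit 38745) (.g (nat_lit 2682) (.e (nat_lit 1222) (nat_lit 90) (.e (nat_lit 81943) (nat_lit 20) (.e (nat_lit 2003) (nat_lit 138) (.e (nat_lit 671747) (nat_lit 0) (.e (nat_lit 1595) (nat_lit 111) (.e (nat_lit 360457) (nat_lit 0) (.e (nat_lit 5818) (nat_lit 320) .nil))))))) (.g (nat_lit 6) .nil .nil))) 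
(.lf (nat_lit 38777) (.g (nat_lit 1729) (.e (nat_lit 1222) (nat_lit 90) (.e (nat_lit 81943) (nat_lit 20) (.e (nat_lit 2005) (nat_lit 138) (.e (nat_lit 671764) (nat_lit 6) (.e (nat_lit 81958) (nat_lit 24) (.e (nat_lit 123183) (nat_lit 264) .nil)))))) (.g (nat_lit 5) .nil .nil)))))) (.nd (nat_lit 3) (.nd (nat_lit 4) (.nd (nat_lit 5) 
(.lf (nat_lit 38725) (.g (nat_lit 1872) (.e (nat_lit 1222) (nat_lit 90) (.e (nat_lit 81943) (nat_lit 20) (.e (nat_lit 1886) (nat_lit 127) (.e (nat_lit 581636) (nat_lit 0) (.e (nat_lit 3027) (nat_lit 187) (.e (nat_lit 450561) (nat_lit 0) (.e (nat_lit 6740) (nat_lit 365) .nil))))))) (.g (nat_lit 6) .nil .nil))) 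
(.lf (nat_lit 38757) (.g (nat_lit 2624) (.e (nat_lit 1222) (nat_lit 90) (.e (nat_lit 81943) (nat_lit 20) (.e (nat_lit 2004) (nat_lit 138) (.e (nat_lit 671748) (nat_lit 0) (.e (nat_lit 1572) (nat_lit 110) (.e (nat_lit 352318) (nat_lit 24) (.e (nat_lit 123185) (nat_lit 264) .nil))))))) (.g (nat_lit 6) .nil .nil)))) (.nd (nat_lit 5) 
(.lf (nat_lit 38741) (.g (nat_lit 2284) (.e (nat_lit 1222) (nat_lit 90) (.e (nat_lit 81943) (nat_lit 20) (.e (nat_lit 1963) (nat_lit 134) (.e (nat_lit 639001) (nat_lit 10) (.e (nat_lit 188455) (nat_lit 24) (.e (nat_lit 229629) (nat_lit 226) .nil)))))) (.g (nat_lit 0) .nil .nil))) 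
(.lf (nat_lit 38773) (.g (nat_lit 2395) (.e (nat_lit 1222) (nat_lit 90) (.e (nat_lit 81943) (nat_lit 20) (.e (nat_lit 2005) (nat_lit 138) (.e (nat_lit 671762) (nat_lit 4) (.e (nat_lit 65599) (nat_lit 9) (.e (nat_lit 336032) (nat_lit 4) (.e (nat_lit 123184) (nat_lit 264) .nil))))))) (.g (nat_lit 5) .nil .nil))))) (.nd (nat_lit 4) (.nd (nat_lit 5) 
(.lf (nat_lit 38733) (.g (nat_lit 2926) (.e (nat_lit 1222) (nat_lit 90) (.e (nat_lit 81943) (nat_lit 20) (.e (nat_lit 1962) (nat_lit 134) (.e (nat_lit 638998) (nat_lit 8) (.e (nat_lit 172120) (nat_lit 12) (.e (nat_lit 475155) (nat_lit 21) (.e (nat_lit 6280) (nat_lit 337) .nil))))))) (.g (nat_lit 5) .nil .nil))) 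
(.lf (nat_lit 38765) (.g (nat_lit 2609) (.e (nat_lit 1222) (nat_lit 90) (.e (nat_lit 81943) (nat_lit 20) (.e (nat_lit 2004) (nat_lit 138) (.e (nat_lit 671764) (nat_lit 6) (.e (nat_lit 81959) (nat_lit 24) (.e (nat_lit 123183) (nat_lit 264) .nil)))))) (.g (nat_lit 0) .nil .nil)))) (.nd (nat_lit 5) 
(.lf (nat_lit 38749) (.g (nat_lit 2338) (.e (nat_lit 1222) (nat_lit 90) (.e (nat_lit 81943) (nat_lit 20) (.e (nat_lit 2003) (nat_lit 138) (.e (nat_lit 671762) (nat_lit 4) (.e (nat_lit 65599) (nat_lit 9) (.e (nat_lit 336032) (nat_lit 4) (.e (nat_lit 123184) (nat_lit 264) .nil))))))) (.g (nat_lit 5) .nil .nil))) 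
(.lf (nat_lit 38781) (.g (nat_lit 2861) (.e (nat_lit 1222) (nat_lit 90) (.e (nat_lit 81943) (nat_lit 20) (.e (nat_lit 2006) (nat_lit 138) (.e (nat_lit 671748) (nat_lit 0) (.e (nat_lit 1572) (nat_lit 110) (.e (nat_lit 352318) (nat_lit 24) (.e (nat_lit 123185) (nat_lit 264) .nil))))))) (.g (nat_lit 6) .nil .nil))))))) (.nd (nat_lit 2) (.nd (nat_lit 3) (.nd (nat_lit 4) (.nd (nat_lit 5) 
(.lf (nat_lit 38723) (.g (nat_lit 1715) (.e (nat_lit 1222) (nat_lit 90) (.e (nat_lit 81943) (nat_lit 20) (.e (nat_lit 1885) (nat_lit 127) (.e (nat_lit 581636) (nat_lit 0) (.e (nat_lit 3022) (nat_lit 187) (.e (nat_lit 450561) (nat_lit 0) (.e (nat_lit 6740) (nat_lit 365) .nil))))))) (.g (nat_lit 5) .nil .nil))) 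
(.lf (nat_lit 38755) (.g (nat_lit 1338) (.e (nat_lit 1222) (nat_lit 90) (.e (nat_lit 81943) (nat_lit 20) (.e (nat_lit 2004) (nat_lit 138) (.e (nat_lit 671747) (nat_lit 0) (.e (nat_lit 1598) (nat_lit 111) (.e (nat_lit 360456) (nat_lit 0) (.e (nat_lit 5818) (nat_lit 320) .nil))))))) (.g (nat_lit 4) .nil .nil)))) (.nd (nat_lit 5) 
(.lf (nat_lit 38739) (.g (nat_lit 1755) (.e (nat_lit 1222) (nat_lit 90) (.e (nat_lit 81943) (nat_lit 20) (.e (nat_lit 1963) (nat_lit 134) (.e (nat_lit 638986) (nat_lit 5) (.e (nat_lit 3022) (nat_lit 187) (.e (nat_lit 458496) (nat_lit 0) (.e (nat_lit 5057) (nat_lit 292) .nil))))))) (.g (nat_lit 5) .nil .nil))) 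
(.lf (nat_lit 38771) (.g (nat_lit 2991) (.e (nat_lit 1222) (nat_lit 90) (.e (nat_lit 81943) (nat_lit 20) (.e (nat_lit 2005) (nat_lit 138) (.e (nat_lit 671748) (nat_lit 0) (.e (nat_lit 1595) (nat_lit 111) (.e (nat_lit 360457) (nat_lit 0) (.e (nat_lit 5818) (nat_lit 320) .nil))))))) (.g (nat_lit 0) .nil .nil))))) (.nd (nat_lit 4) (.nd (nat_lit 5) 
(.lf (nat_lit 38731) (.g (nat_lit 1206) (.e (nat_lit 1222) (nat_lit 90) (.e (nat_lit 81943) (nat_lit 20) (.e (nat_lit 1962) (nat_lit 134) (.e (nat_lit 638985) (nat_lit 5) (.e (nat_lit 3028) (nat_lit 187) (.e (nat_lit 458496) (nat_lit 0) (.e (nat_lit 5057) (nat_lit 292) .nil))))))) (.g (nat_lit 4) .nil .nil))) 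
(.lf (nat_lit 38763) (.g (nat_lit 2563) (.e (nat_lit 1222) (nat_lit 90) (.e (nat_lit 81943) (nat_lit 20) (.e (nat_lit 2004) (nat_lit 138) (.e (nat_lit 671764) (nat_lit 6) (.e (nat_lit 81957) (nat_lit 24) (.e (nat_lit 123183) (nat_lit 264) .nil)))))) (.g (nat_lit 0) .nil .nil)))) (.nd (nat_lit 5) 
(.lf (nat_lit 38747) (.g (nat_lit 1446) (.e (nat_lit 1222) (nat_lit 90) (.e (nat_lit 81943) (nat_lit 20) (.e (nat_lit 2003) (nat_lit 138) (.e (nat_lit 671747) (nat_lit 0) (.e (nat_lit 1599) (nat_lit 111) (.e (nat_lit 360456) (nat_lit 0) (.e (nat_lit 5818) (nat_lit 320) .nil))))))) (.g (nat_lit 4) .nil .nil))) 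
(.lf (nat_lit 38779) (.g (nat_lit 2419) (.e (nat_lit 1222) (nat_lit 90) (.e (nat_lit 81943) (nat_lit 20) (.e (nat_lit 2006) (nat_lit 138) (.e (nat_lit 671748) (nat_lit 0) (.e (nat_lit 1562) (nat_lit 110) (.e (nat_lit 352318) (nat_lit 24) (.e (nat_lit 123185) (nat_lit 264) .nil))))))) (.g (nat_lit 6) .nil .nil)))))) (.nd (nat_lit 3) (.nd (nat_lit 4) (.nd (nat_lit 5) 
(.lf (nat_lit 38727) (.g (nat_lit 191) (.e (nat_lit 1222) (nat_lit 90) (.e (nat_lit 81943) (nat_lit 20) (.e (nat_lit 1962) (nat_lit 134) .nil))) .nil)) 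
(.lf (nat_lit 38759) (.g (nat_lit 2364) (.e (nat_lit 1222) (nat_lit 90) (.e (nat_lit 81943) (nat_lit 20) (.e (nat_lit 2004) (nat_lit 138) (.e (nat_lit 671748) (nat_lit 0) (.e (nat_lit 1599) (nat_lit 111) (.e (nat_lit 360456) (nat_lit 0) (.e (nat_lit 5818) (nat_lit 320) .nil))))))) (.g (nat_lit 7) .nil .nil)))) (.nd (nat_lit 5) 
(.lf (nat_lit 38743) (.g (nat_lit 2850) (.e (nat_lit 1222) (nat_lit 90) (.e (nat_lit 81943) (nat_lit 20) (.e (nat_lit 2003) (nat_lit 138) (.e (nat_lit 671747) (nat_lit 0) (.e (nat_lit 1572) (nat_lit 110) (.e (nat_lit 352318) (nat_lit 24) (.e (nat_lit 123182) (nat_lit 264) .nil))))))) (.g (nat_lit 6) .nil .nil))) 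
(.lf (nat_lit 38775) (.g (nat_lit 3537) (.e (nat_lit 1222) (nat_lit 90) (.e (nat_lit 81943) (nat_lit 20) (.e (nat_lit 2005) (nat_lit 138) (.e (nat_lit 671764) (nat_lit 6) (.e (nat_lit 81957) (nat_lit 24) (.e (nat_lit 123182) (nat_lit 264) .nil)))))) (.g (nat_lit 0) .nil .nil))))) (.nd (nat_lit 4) (.nd (nat_lit 5) 
(.lf (nat_lit 38735) (.g (nat_lit 1336) (.e (nat_lit 1222) (nat_lit 90) (.e (nat_lit 81943) (nat_lit 20) (.e (nat_lit 1962) (nat_lit 134) (.e (nat_lit 639001) (nat_lit 10) (.e (nat_lit 188455) (nat_lit 24) (.e (nat_lit 229629) (nat_lit 226) .nil)))))) (.g (nat_lit 4) .nil .nil))) 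
(.lf (nat_lit 38767) (.g (nat_lit 1646) (.e (nat_lit 1222) (nat_lit 90) (.e (nat_lit 81943) (nat_lit 20) (.e (nat_lit 2005) (nat_lit 138) (.e (nat_lit 671747) (nat_lit 0) (.e (nat_lit 1598) (nat_lit 111) (.e (nat_lit 360456) (nat_lit 0) (.e (nat_lit 5818) (nat_lit 320) .nil))))))) (.g (nat_lit 4) .nil .nil)))) (.nd (nat_lit 5) 
(.lf (nat_lit 38751) (.g (nat_lit 3502) (.e (nat_lit 1222) (nat_lit 90) (.e (nat_lit 81943) (nat_lit 20) (.e (nat_lit 2003) (nat_lit 138) (.e (nat_lit 671764) (nat_lit 6) (.e (nat_lit 81957) (nat_lit 24) (.e (nat_lit 123182) (nat_lit 264) .nil)))))) (.g (nat_lit 0) .nil .nil))) 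
(.lf (nat_lit 38783) (.g (nat_lit 3092) (.e (nat_lit 1222) (nat_lit 90) (.e (nat_lit 81943) (nat_lit 20) (.e (nat_lit 2006) (nat_lit 138) (.e (nat_lit 671748) (nat_lit 0) (.e (nat_lit 1595) (nat_lit 111) (.e (nat_lit 360457) (nat_lit 0) (.e (nat_lit 5818) (nat_lit 320) .nil))))))) (.g (nat_lit 0) .nil .nil)))))))))

noncomputable def tv539 : DT := (.nd (nat_lit 0) (.nd (nat_lit 1) (.nd (nat_lit 2) (.nd (nat_lit 3) (.nd (nat_lit 4) (.nd (nat_lit 5) 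
(.lf (nat_lit 38784) (.g (nat_lit 2731) (.e (nat_lit 1222) (nat_lit 90) (.e (nat_lit 81943) (nat_lit 20) (.e (nat_lit 2006) (nat_lit 138) (.e (nat_lit 671748) (nat_lit 0) (.e (nat_lit 1598) (nat_lit 111) (.e (nat_lit 360456) (nat_lit 0) (.e (nat_lit 5818) (nat_lit 320) .nil))))))) (.g (nat_lit 0) .nil .nil))) 
(.lf (nat_lit 38816) (.g (nat_lit 2694) (.e (nat_lit 1222) (nat_lit 90) (.e (nat_lit 81943) (nat_lit 20) (.e (nat_lit 2280) (nat_lit 150) (.e (nat_lit 770072) (nat_lit 8) (.e (nat_lit 65617) (nat_lit 10) (.e (nat_lit 344095) (nat_lit 18) (.e (nat_lit 7122) (nat_lit 382) .nil))))))) (.g (nat_lit 5) .nil .nil)))) (.nd (nat_lit 5) 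
(.lf (nat_lit 38800) (.g (nat_lit 2033) (.e (nat_lit 1222) (nat_lit 90) (.e (nat_lit 81943) (nat_lit 20) (.e (nat_lit 2280) (nat_lit 150) (.e (nat_lit 770055) (nat_lit 5) (.e (nat_lit 1586) (nat_lit 111) (.e (nat_lit 360451) (nat_lit 0) (.e (nat_lit 7124) (nat_lit 382) .nil))))))) (.g (nat_lit 5) .nil .nil))) 
(.lf (nat_lit 38832) (.g (nat_lit 2403) (.e (nat_lit 1222) (nat_lit 90) (.e (nat_lit 81943) (nat_lit 20) (.e (nat_lit 2281) (nat_lit 150) (.e (nat_lit 770074) (nat_lit 10) (.e (nat_lit 81959) (nat_lit 24) (.e (nat_lit 130816) (nat_lit 152) .nil)))))) (.g (nat_lit 5) .nil .nil))))) (.nd (nat_lit 4) (.nd (nat_lit 5) 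
(.lf (nat_lit 38792) (.g (nat_lit 2806) (.e (nat_lit 1222) (nat_lit 90) (.e (nat_lit 81943) (nat_lit 20) (.e (nat_lit 2006) (nat_lit 138) (.e (nat_lit 671764) (nat_lit 6) (.e (nat_lit 81957) (nat_lit 24) (.e (nat_lit 123185) (nat_lit 264) .nil)))))) (.g (nat_lit 0) .nil .nil))) 
(.lf (nat_lit 38824) (.g (nat_lit 2917) (.e (nat_lit 1222) (nat_lit 90) (.e (nat_lit 81943) (nat_lit 20) (.e (nat_lit 2281) (nat_lit 150) (.e (nat_lit 770058) (nat_lit 5) (.e (nat_lit 1589) (nat_lit 111) (.e (nat_lit 360451) (nat_lit 0) (.e (nat_lit 7122) (nat_lit 382) .nil))))))) (.g (nat_lit 6) .nil .nil)))) (.nd (nat_lit 5) 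
(.lf (nat_lit 38808) (.g (nat_lit 2143) (.e (nat_lit 1222) (nat_lit 90) (.e (nat_lit 81943) (nat_lit 20) (.e (nat_lit 2280) (nat_lit 150) (.e (nat_lit 770071) (nat_lit 8) (.e (nat_lit 65617) (nat_lit 10) (.e (nat_lit 344091) (nat_lit 18) (.e (nat_lit 7124) (nat_lit 382) .nil))))))) (.g (nat_lit 5) .nil .nil))) 
(.lf (nat_lit 38840) (.g (nat_lit 892) (.e (nat_lit 1222) (nat_lit 90) (.e (nat_lit 81947) (nat_lit 20) (.e (nat_lit 2005) (nat_lit 138) (.e (nat_lit 671764) (nat_lit 6) .nil)))) .nil))))) (.nd (nat_lit 3) (.nd (nat_lit 4) (.nd (nat_lit 5) 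
(.lf (nat_lit 38788) (.g (nat_lit 1915) (.e (nat_lit 1222) (nat_lit 90) (.e (nat_lit 81943) (nat_lit 20) (.e (nat_lit 2006) (nat_lit 138) (.e (nat_lit 671762) (nat_lit 4) (.e (nat_lit 65605) (nat_lit 9) (.e (nat_lit 336032) (nat_lit 4) (.e (nat_lit 123184) (nat_lit 264) .nil))))))) (.g (nat_lit 4) .nil .nil))) 
(.lf (nat_lit 38820) (.g (nat_lit 2813) (.e (nat_lit 1222) (nat_lit 90) (.e (nat_lit 81943) (nat_lit 20) (.e (nat_lit 2281) (nat_lit 150) (.e (nat_lit 770057) (nat_lit 5) (.e (nat_lit 1589) (nat_lit 111) (.e (nat_lit 360451) (nat_lit 0) (.e (nat_lit 7122) (nat_lit 382) .nil))))))) (.g (nat_lit 6) .nil .nil)))) (.nd (nat_lit 5) 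
(.lf (nat_lit 38804) (.g (nat_lit 2131) (.e (nat_lit 1222) (nat_lit 90) (.e (nat_lit 81943) (nat_lit 20) (.e (nat_lit 2280) (nat_lit 150) (.e (nat_lit 770055) (nat_lit 5) (.e (nat_lit 1598) (nat_lit 111) (.e (nat_lit 360449) (nat_lit 0) (.e (nat_lit 7122) (nat_lit 382) .nil))))))) (.g (nat_lit 4) .nil .nil))) 
(.lf (nat_lit 38836) (.g (nat_lit 2461) (.e (nat_lit 1222) (nat_lit 90) (.e (nat_lit 81946) (nat_lit 20) (.e (nat_lit 2281) (nat_lit 150) (.e (nat_lit 770072) (nat_lit 8) (.e (nat_lit 65617) (nat_lit 10) (.e (nat_lit 344091) (nat_lit 18) (.e (nat_lit 7125) (nat_lit 382) .nil))))))) (.g (nat_lit 4) .nil .nil))))) (.nd (nat_lit 4) (.nd (nat_lit 5) 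
(.lf (nat_lit 38796) (.g (nat_lit 2660) (.e (nat_lit 1222) (nat_lit 90) (.e (nat_lit 81943) (nat_lit 20) (.e (nat_lit 2006) (nat_lit 138) (.e (nat_lit 671764) (nat_lit 6) (.e (nat_lit 81959) (nat_lit 24) (.e (nat_lit 123185) (nat_lit 264) .nil)))))) (.g (nat_lit 0) .nil .nil))) 
(.lf (nat_lit 38828) (.g (nat_lit 1848) (.e (nat_lit 1222) (nat_lit 90) (.e (nat_lit 81943) (nat_lit 20) (.e (nat_lit 2281) (nat_lit 150) (.e (nat_lit 770071) (nat_lit 8) (.e (nat_lit 65617) (nat_lit 10) (.e (nat_lit 344091) (nat_lit 18) (.e (nat_lit 7122) (nat_lit 382) .nil))))))) (.g (nat_lit 4) .nil .nil)))) (.nd (nat_lit 5) 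
(.lf (nat_lit 38812) (.g (nat_lit 2089) (.e (nat_lit 1222) (nat_lit 90) (.e (nat_lit 81943) (nat_lit 20) (.e (nat_lit 2280) (nat_lit 150) (.e (nat_lit 770072) (nat_lit 8) (.e (nat_lit 65610) (nat_lit 10) (.e (nat_lit 344090) (nat_lit 18) (.e (nat_lit 7124) (nat_lit 382) .nil))))))) (.g (nat_lit 5) .nil .nil))) 
(.lf (nat_lit 38844) (.g (nat_lit 2312) (.e (nat_lit 1222) (nat_lit 90) (.e (nat_lit 81947) (nat_lit 20) (.e (nat_lit 2281) (nat_lit 150) (.e (nat_lit 770072) (nat_lit 8) (.e (nat_lit 65617) (nat_lit 10) (.e (nat_lit 344091) (nat_lit 18) (.e (nat_lit 7125) (nat_lit 382) .nil))))))) (.g (nat_lit 4) .nil .nil))))))) (.nd (nat_lit 2) (.nd (nat_lit 3) (.nd (nat_lit 4) (.nd (nat_lit 5) 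
(.lf (nat_lit 38786) (.g (nat_lit 1829) (.e (nat_lit 1222) (nat_lit 90) (.e (nat_lit 81943) (nat_lit 20) (.e (nat_lit 2006) (nat_lit 138) (.e (nat_lit 671762) (nat_lit 4) (.e (nat_lit 65598) (nat_lit 9) (.e (nat_lit 336032) (nat_lit 4) (.e (nat_lit 123183) (nat_lit 264) .nil))))))) (.g (nat_lit 4) .nil .nil))) 
(.lf (nat_lit 38818) (.g (nat_lit 3429) (.e (nat_lit 1222) (nat_lit 90) (.e (nat_lit 81943) (nat_lit 20) (.e (nat_lit 2281) (nat_lit 150) (.e (nat_lit 770057) (nat_lit 5) (.e (nat_lit 1589) (nat_lit 111) (.e (nat_lit 360449) (nat_lit 0) (.e (nat_lit 7122) (nat_lit 382) .nil))))))) (.g (nat_lit 7) .nil .nil)))) (.nd (nat_lit 5) 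
(.lf (nat_lit 38802) (.g (nat_lit 1918) (.e (nat_lit 1222) (nat_lit 90) (.e (nat_lit 81943) (nat_lit 20) (.e (nat_lit 2280) (nat_lit 150) (.e (nat_lit 770055) (nat_lit 5) (.e (nat_lit 1589) (nat_lit 111) (.e (nat_lit 360451) (nat_lit 0) (.e (nat_lit 7122) (nat_lit 382) .nil))))))) (.g (nat_lit 4) .nil .nil))) 
(.lf (nat_lit 38834) (.g (nat_lit 1591) (.e (nat_lit 1222) (nat_lit 90) (.e (nat_lit 81946) (nat_lit 20) (.e (nat_lit 2006) (nat_lit 138) (.e (nat_lit 671748) (nat_lit 0) (.e (nat_lit 1572) (nat_lit 110) .nil))))) .nil)))) (.nd (nat_lit 4) (.nd (nat_lit 5) 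
(.lf (nat_lit 38794) (.g (nat_lit 3486) (.e (nat_lit 1222) (nat_lit 90) (.e (nat_lit 81943) (nat_lit 20) (.e (nat_lit 2006) (nat_lit 138) (.e (nat_lit 671764) (nat_lit 6) (.e (nat_lit 81959) (nat_lit 24) (.e (nat_lit 123182) (nat_lit 264) .nil)))))) (.g (nat_lit 0) .nil .nil))) 
(.lf (nat_lit 38826) (.g (nat_lit 1553) (.e (nat_lit 1222) (nat_lit 90) (.e (nat_lit 81943) (nat_lit 20) (.e (nat_lit 2281) (nat_lit 150) (.e (nat_lit 770058) (nat_lit 5) (.e (nat_lit 1599) (nat_lit 111) (.e (nat_lit 360451) (nat_lit 0) (.e (nat_lit 7122) (nat_lit 382) .nil))))))) (.g (nat_lit 4) .nil .nil)))) (.nd (nat_lit 5) 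
(.lf (nat_lit 38810) (.g (nat_lit 2692) (.e (nat_lit 1222) (nat_lit 90) (.e (nat_lit 81943) (nat_lit 20) (.e (nat_lit 2280) (nat_lit 150) (.e (nat_lit 770071) (nat_lit 8) (.e (nat_lit 65617) (nat_lit 10) (.e (nat_lit 344095) (nat_lit 18) (.e (nat_lit 7122) (nat_lit 382) .nil))))))) (.g (nat_lit 5) .nil .nil))) 
(.lf (nat_lit 38842) (.g (nat_lit 1486) (.e (nat_lit 1222) (nat_lit 90) (.e (nat_lit 81947) (nat_lit 20) (.e (nat_lit 2270) (nat_lit 149) (.e (nat_lit 761868) (nat_lit 5) .nil)))) .nil))))) (.nd (nat_lit 3) (.nd (nat_lit 4) (.nd (nat_lit 5) 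
(.lf (nat_lit 38790) (.g (nat_lit 2951) (.e (nat_lit 1222) (nat_lit 90) (.e (nat_lit 81943) (nat_lit 20) (.e (nat_lit 2006) (nat_lit 138) (.e (nat_lit 671764) (nat_lit 6) (.e (nat_lit 81957) (nat_lit 24) (.e (nat_lit 123183) (nat_lit 264) .nil)))))) (.g (nat_lit 0) .nil .nil))) 
(.lf (nat_lit 38822) (.g (nat_lit 3605) (.e (nat_lit 1222) (nat_lit 90) (.e (nat_lit 81943) (nat_lit 20) (.e (nat_lit 2281) (nat_lit 150) (.e (nat_lit 770058) (nat_lit 5) (.e (nat_lit 1586) (nat_lit 111) (.e (nat_lit 360451) (nat_lit 0) (.e (nat_lit 7122) (nat_lit 382) .nil))))))) (.g (nat_lit 0) .nil .nil)))) (.nd (nat_lit 5) 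
(.lf (nat_lit 38806) (.g (nat_lit 2399) (.e (nat_lit 1222) (nat_lit 90) (.e (nat_lit 81943) (nat_lit 20) (.e (nat_lit 2280) (nat_lit 150) (.e (nat_lit 770071) (nat_lit 8) (.e (nat_lit 65610) (nat_lit 10) (.e (nat_lit 344090) (nat_lit 18) (.e (nat_lit 7122) (nat_lit 382) .nil))))))) (.g (nat_lit 5) .nil .nil))) 
(.lf (nat_lit 38838) (.g (nat_lit 578) (.e (nat_lit 1222) (nat_lit 90) (.e (nat_lit 81947) (nat_lit 20) (.e (nat_lit 2005) (nat_lit 138) .nil))) .nil)))) (.nd (nat_lit 4) (.nd (nat_lit 5) 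
(.lf (nat_lit 38798) (.g (nat_lit 2292) (.e (nat_lit 1222) (nat_lit 90) (.e (nat_lit 81943) (nat_lit 20) (.e (nat_lit 2279) (nat_lit 150) (.e (nat_lit 770072) (nat_lit 8) (.e (nat_lit 65617) (nat_lit 10) (.e (nat_lit 344095) (nat_lit 18) (.e (nat_lit 7122) (nat_lit 382) .nil))))))) (.g (nat_lit 5) .nil .nil))) 
(.lf (nat_lit 38830) (.g (nat_lit 4440) (.e (nat_lit 1222) (nat_lit 90) (.e (nat_lit 81943) (nat_lit 20) (.e (nat_lit 2281) (nat_lit 150) (.e (nat_lit 770072) (nat_lit 8) (.e (nat_lit 65617) (nat_lit 10) (.e (nat_lit 344096) (nat_lit 18) (.e (nat_lit 7122) (nat_lit 382) .nil))))))) (.g (nat_lit 0) .nil .nil)))) (.nd (nat_lit 5) 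
(.lf (nat_lit 38814) (.g (nat_lit 2071) (.e (nat_lit 1222) (nat_lit 90) (.e (nat_lit 81943) (nat_lit 20) (.e (nat_lit 2280) (nat_lit 150) (.e (nat_lit 770072) (nat_lit 8) (.e (nat_lit 65617) (nat_lit 10) (.e (nat_lit 344091) (nat_lit 18) (.e (nat_lit 7124) (nat_lit 382) .nil))))))) (.g (nat_lit 5) .nil .nil))) 
(.lf (nat_lit 38846) (.g (nat_lit 2220) (.e (nat_lit 1222) (nat_lit 90) (.e (nat_lit 81947) (nat_lit 20) (.e (nat_lit 2281) (nat_lit 150) (.e (nat_lit 770072) (nat_lit 8) (.e (nat_lit 65619) (nat_lit 10) (.e (nat_lit 344090) (nat_lit 18) (.e (nat_lit 7125) (nat_lit 382) .nil))))))) (.g (nat_lit 4) .nil .nil)))))))) 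
(.nd (nat_lit 1) (.nd (nat_lit 2) (.nd (nat_lit 3) (.nd (nat_lit 4) (.nd (nat_lit 5) 
(.lf (nat_lit 38785) (.g (nat_lit 2103) (.e (nat_lit 1222) (nat_lit 90) (.e (nat_lit 81943) (nat_lit 20) (.e (nat_lit 2006) (nat_lit 138) (.e (nat_lit 671762) (nat_lit 4) (.e (nat_lit 65598) (nat_lit 9) (.e (nat_lit 336032) (nat_lit 4) (.e (nat_lit 123182) (nat_lit 264) .nil))))))) (.g (nat_lit 5) .nil .nil))) 
(.lf (nat_lit 38817) (.g (nat_lit 3429) (.e (nat_lit 1222) (nat_lit 90) (.e (nat_lit 81943) (nat_lit 20) (.e (nat_lit 2281) (nat_lit 150) (.e (nat_lit 770057) (nat_lit 5) (.e (nat_lit 1586) (nat_lit 111) (.e (nat_lit 360451) (nat_lit 0) (.e (nat_lit 7122) (nat_lit 382) .nil))))))) (.g (nat_lit 0) .nil .nil)))) (.nd (nat_lit 5) 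
(.lf (nat_lit 38801) (.g (nat_lit 1835) (.e (nat_lit 1222) (nat_lit 90) (.e (nat_lit 81943) (nat_lit 20) (.e (nat_lit 2280) (nat_lit 150) (.e (nat_lit 770055) (nat_lit 5) (.e (nat_lit 1589) (nat_lit 111) (.e (nat_lit 360449) (nat_lit 0) (.e (nat_lit 7125) (nat_lit 382) .nil))))))) (.g (nat_lit 4) .nil .nil))) 
(.lf (nat_lit 38833) (.g (nat_lit 492) (.e (nat_lit 1222) (nat_lit 90) (.e (nat_lit 81946) (nat_lit 20) (.e (nat_lit 2005) (nat_lit 138) .nil))) .nil)))) (.nd (nat_lit 4) (.nd (nat_lit 5) 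
(.lf (nat_lit 38793) (.g (nat_lit 1708) (.e (nat_lit 1222) (nat_lit 90) (.e (nat_lit 81943) (nat_lit 20) (.e (nat_lit 2006) (nat_lit 138) (.e (nat_lit 671764) (nat_lit 6) (.e (nat_lit 81958) (nat_lit 24) (.e (nat_lit 123183) (nat_lit 264) .nil)))))) (.g (nat_lit 5) .nil .nil))) 
(.lf (nat_lit 38825) (.g (nat_lit 4161) (.e (nat_lit 1222) (nat_lit 90) (.e (nat_lit 81943) (nat_lit 20) (.e (nat_lit 2281) (nat_lit 150) (.e (nat_lit 770058) (nat_lit 5) (.e (nat_lit 1589) (nat_lit 111) (.e (nat_lit 360451) (nat_lit 0) (.e (nat_lit 7125) (nat_lit 382) .nil))))))) (.g (nat_lit 0) .nil .nil)))) (.nd (nat_lit 5) 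
(.lf (nat_lit 38809) (.g (nat_lit 3250) (.e (nat_lit 1222) (nat_lit 90) (.e (nat_lit 81943) (nat_lit 20) (.e (nat_lit 2280) (nat_lit 150) (.e (nat_lit 770071) (nat_lit 8) (.e (nat_lit 65617) (nat_lit 10) (.e (nat_lit 344091) (nat_lit 18) (.e (nat_lit 7125) (nat_lit 382) .nil))))))) (.g (nat_lit 6) .nil .nil))) 
(.lf (nat_lit 38841) (.g (nat_lit 1115) (.e (nat_lit 1222) (nat_lit 90) (.e (nat_lit 81947) (nat_lit 20) (.e (nat_lit 2006) (nat_lit 138) (.e (nat_lit 671748) (nat_lit 0) .nil)))) .nil))))) (.nd (nat_lit 3) (.nd (nat_lit 4) (.nd (nat_lit 5) 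
(.lf (nat_lit 38789) (.g (nat_lit 3835) (.e (nat_lit 1222) (nat_lit 90) (.e (nat_lit 81943) (nat_lit 20) (.e (nat_lit 2006) (nat_lit 138) (.e (nat_lit 671764) (nat_lit 6) (.e (nat_lit 81957) (nat_lit 24) (.e (nat_lit 123182) (nat_lit 264) .nil)))))) (.g (nat_lit 0) .nil .nil))) 
(.lf (nat_lit 38821) (.g (nat_lit 4060) (.e (nat_lit 1222) (nat_lit 90) (.e (nat_lit 81943) (nat_lit 20) (.e (nat_lit 2281) (nat_lit 150) (.e (nat_lit 770057) (nat_lit 5) (.e (nat_lit 1589) (nat_lit 111) (.e (nat_lit 360451) (nat_lit 0) (.e (nat_lit 7125) (nat_lit 382) .nil))))))) (.g (nat_lit 0) .nil .nil)))) (.nd (nat_lit 5) 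
(.lf (nat_lit 38805) (.g (nat_lit 1654) (.e (nat_lit 1222) (nat_lit 90) (.e (nat_lit 81943) (nat_lit 20) (.e (nat_lit 2280) (nat_lit 150) (.e (nat_lit 770057) (nat_lit 5) (.e (nat_lit 1589) (nat_lit 111) (.e (nat_lit 360451) (nat_lit 0) (.e (nat_lit 7122) (nat_lit 382) .nil))))))) (.g (nat_lit 4) .nil .nil))) 
(.lf (nat_lit 38837) (.g (nat_lit 2358) (.e (nat_lit 1222) (nat_lit 90) (.e (nat_lit 81946) (nat_lit 20) (.e (nat_lit 2281) (nat_lit 150) (.e (nat_lit 770072) (nat_lit 8) (.e (nat_lit 65619) (nat_lit 10) (.e (nat_lit 344090) (nat_lit 18) (.e (nat_lit 7125) (nat_lit 382) .nil))))))) (.g (nat_lit 4) .nil .nil))))) (.nd (nat_lit 4) (.nd (nat_lit 5) 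
(.lf (nat_lit 38797) (.g (nat_lit 2125) (.e (nat_lit 1222) (nat_lit 90) (.e (nat_lit 81943) (nat_lit 20) (.e (nat_lit 2279) (nat_lit 150) (.e (nat_lit 770071) (nat_lit 8) (.e (nat_lit 65617) (nat_lit 10) (.e (nat_lit 344095) (nat_lit 18) (.e (nat_lit 7122) (nat_lit 382) .nil))))))) (.g (nat_lit 5) .nil .nil))) 
(.lf (nat_lit 38829) (.g (nat_lit 3677) (.e (nat_lit 1222) (nat_lit 90) (.e (nat_lit 81943) (nat_lit 20) (.e (nat_lit 2281) (nat_lit 150) (.e (nat_lit 770072) (nat_lit 8) (.e (nat_lit 65610) (nat_lit 10) (.e (nat_lit 344090) (nat_lit 18) (.e (nat_lit 7122) (nat_lit 382) .nil))))))) (.g (nat_lit 7) .nil .nil)))) (.nd (nat_lit 5) 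
(.lf (nat_lit 38813) (.g (nat_lit 3043) (.e (nat_lit 1222) (nat_lit 90) (.e (nat_lit 81943) (nat_lit 20) (.e (nat_lit 2280) (nat_lit 150) (.e (nat_lit 770072) (nat_lit 8) (.e (nat_lit 65617) (nat_lit 10) (.e (nat_lit 344091) (nat_lit 18) (.e (nat_lit 7122) (nat_lit 382) .nil))))))) (.g (nat_lit 6) .nil .nil))) 
(.lf (nat_lit 38845) (.g (nat_lit 2384) (.e (nat_lit 1222) (nat_lit 90) (.e (nat_lit 81947) (nat_lit 20) (.e (nat_lit 2281) (nat_lit 150) (.e (nat_lit 770072) (nat_lit 8) (.e (nat_lit 65617) (nat_lit 10) (.e (nat_lit 344096) (nat_lit 18) (.e (nat_lit 7125) (nat_lit 382) .nil))))))) (.g (nat_lit 4) .nil .nil))))))) (.nd (nat_lit 2) (.nd (nat_lit 3) (.nd (nat_lit 4) (.nd (nat_lit 5) 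
(.lf (nat_lit 38787) (.g (nat_lit 2545) (.e (nat_lit 1222) (nat_lit 90) (.e (nat_lit 81943) (nat_lit 20) (.e (nat_lit 2006) (nat_lit 138) (.e (nat_lit 671762) (nat_lit 4) (.e (nat_lit 65599) (nat_lit 9) (.e (nat_lit 336032) (nat_lit 4) (.e (nat_lit 123184) (nat_lit 264) .nil))))))) (.g (nat_lit 5) .nil .nil))) 
(.lf (nat_lit 38819) (.g (nat_lit 3653) (.e (nat_lit 1222) (nat_lit 90) (.e (nat_lit 81943) (nat_lit 20) (.e (nat_lit 2281) (nat_lit 150) (.e (nat_lit 770057) (nat_lit 5) (.e (nat_lit 1589) (nat_lit 111) (.e (nat_lit 360449) (nat_lit 0) (.e (nat_lit 7125) (nat_lit 382) .nil))))))) (.g (nat_lit 0) .nil .nil)))) (.nd (nat_lit 5) 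
(.lf (nat_lit 38803) (.g (nat_lit 3184) (.e (nat_lit 1222) (nat_lit 90) (.e (nat_lit 81943) (nat_lit 20) (.e (nat_lit 2280) (nat_lit 150) (.e (nat_lit 770055) (nat_lit 5) (.e (nat_lit 1589) (nat_lit 111) (.e (nat_lit 360451) (nat_lit 0) (.e (nat_lit 7125) (nat_lit 382) .nil))))))) (.g (nat_lit 6) .nil .nil))) 
(.lf (nat_lit 38835) (.g (nat_lit 2459) (.e (nat_lit 1222) (nat_lit 90) (.e (nat_lit 81946) (nat_lit 20) (.e (nat_lit 2281) (nat_lit 150) (.e (nat_lit 770072) (nat_lit 8) (.e (nat_lit 65610) (nat_lit 10) (.e (nat_lit 344090) (nat_lit 18) (.e (nat_lit 7125) (nat_lit 382) .nil))))))) (.g (nat_lit 4) .nil .nil))))) (.nd (nat_lit 4) (.nd (nat_lit 5) 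
(.lf (nat_lit 38795) (.g (nat_lit 2925) (.e (nat_lit 1222) (nat_lit 90) (.e (nat_lit 81943) (nat_lit 20) (.e (nat_lit 2006) (nat_lit 138) (.e (nat_lit 671764) (nat_lit 6) (.e (nat_lit 81959) (nat_lit 24) (.e (nat_lit 123183) (nat_lit 264) .nil)))))) (.g (nat_lit 0) .nil .nil))) 
(.lf (nat_lit 38827) (.g (nat_lit 1867) (.e (nat_lit 1222) (nat_lit 90) (.e (nat_lit 81943) (nat_lit 20) (.e (nat_lit 2281) (nat_lit 150) (.e (nat_lit 770071) (nat_lit 8) (.e (nat_lit 65610) (nat_lit 10) (.e (nat_lit 344090) (nat_lit 18) (.e (nat_lit 7125) (nat_lit 382) .nil))))))) (.g (nat_lit 4) .nil .nil)))) (.nd (nat_lit 5) 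
(.lf (nat_lit 38811) (.g (nat_lit 3029) (.e (nat_lit 1222) (nat_lit 90) (.e (nat_lit 81943) (nat_lit 20) (.e (nat_lit 2280) (nat_lit 150) (.e (nat_lit 770071) (nat_lit 8) (.e (nat_lit 65619) (nat_lit 10) (.e (nat_lit 344090) (nat_lit 18) (.e (nat_lit 7125) (nat_lit 382) .nil))))))) (.g (nat_lit 6) .nil .nil))) 
(.lf (nat_lit 38843) (.g (nat_lit 2347) (.e (nat_lit 1222) (nat_lit 90) (.e (nat_lit 81947) (nat_lit 20) (.e (nat_lit 2281) (nat_lit 150) (.e (nat_lit 770072) (nat_lit 8) (.e (nat_lit 65610) (nat_lit 10) (.e (nat_lit 344090) (nat_lit 18) (.e (nat_lit 7125) (nat_lit 382) .nil))))))) (.g (nat_lit 4) .nil .nil)))))) (.nd (nat_lit 3) (.nd (nat_lit 4) (.nd (nat_lit 5) 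
(.lf (nat_lit 38791) (.g (nat_lit 3567) (.e (nat_lit 1222) (nat_lit 90) (.e (nat_lit 81943) (nat_lit 20) (.e (nat_lit 2006) (nat_lit 138) (.e (nat_lit 671764) (nat_lit 6) (.e (nat_lit 81957) (nat_lit 24) (.e (nat_lit 123184) (nat_lit 264) .nil)))))) (.g (nat_lit 0) .nil .nil))) 
(.lf (nat_lit 38823) (.g (nat_lit 3573) (.e (nat_lit 1222) (nat_lit 90) (.e (nat_lit 81943) (nat_lit 20) (.e (nat_lit 2281) (nat_lit 150) (.e (nat_lit 770058) (nat_lit 5) (.e (nat_lit 1589) (nat_lit 111) (.e (nat_lit 360449) (nat_lit 0) (.e (nat_lit 7122) (nat_lit 382) .nil))))))) (.g (nat_lit 7) .nil .nil)))) (.nd (nat_lit 5) 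
(.lf (nat_lit 38807) (.g (nat_lit 3106) (.e (nat_lit 1222) (nat_lit 90) (.e (nat_lit 81943) (nat_lit 20) (.e (nat_lit 2280) (nat_lit 150) (.e (nat_lit 770071) (nat_lit 8) (.e (nat_lit 65617) (nat_lit 10) (.e (nat_lit 344091) (nat_lit 18) (.e (nat_lit 7122) (nat_lit 382) .nil))))))) (.g (nat_lit 6) .nil .nil))) 
(.lf (nat_lit 38839) (.g (nat_lit 981) (.e (nat_lit 1222) (nat_lit 90) (.e (nat_lit 81947) (nat_lit 20) (.e (nat_lit 2005) (nat_lit 138) (.e (nat_lit 671748) (nat_lit 0) .nil)))) .nil)))) (.nd (nat_lit 4) (.nd (nat_lit 5) 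
(.lf (nat_lit 38799) (.g (nat_lit 2523) (.e (nat_lit 1222) (nat_lit 90) (.e (nat_lit 81943) (nat_lit 20) (.e (nat_lit 2280) (nat_lit 150) (.e (nat_lit 770055) (nat_lit 5) (.e (nat_lit 1586) (nat_lit 111) (.e (nat_lit 360450) (nat_lit 0) (.e (nat_lit 7122) (nat_lit 382) .nil))))))) (.g (nat_lit 5) .nil .nil))) 
(.lf (nat_lit 38831) (.g (nat_lit 3163) (.e (nat_lit 1222) (nat_lit 90) (.e (nat_lit 81943) (nat_lit 20) (.e (nat_lit 2281) (nat_lit 150) (.e (nat_lit 770072) (nat_lit 8) (.e (nat_lit 65619) (nat_lit 10) (.e (nat_lit 344090) (nat_lit 18) (.e (nat_lit 7122) (nat_lit 382) .nil))))))) (.g (nat_lit 6) .nil .nil)))) (.nd (nat_lit 5) 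
(.lf (nat_lit 38815) (.g (nat_lit 3178) (.e (nat_lit 1222) (nat_lit 90) (.e (nat_lit 81943) (nat_lit 20) (.e (nat_lit 2280) (nat_lit 150) (.e (nat_lit 770072) (nat_lit 8) (.e (nat_lit 65617) (nat_lit 10) (.e (nat_lit 344091) (nat_lit 18) (.e (nat_lit 7125) (nat_lit 382) .nil))))))) (.g (nat_lit 6) .nil .nil))) 
(.lf (nat_lit 38847) (.g (nat_lit 4025) (.e (nat_lit 1222) (nat_lit 90) (.e (nat_lit 81948) (nat_lit 21) (.e (nat_lit 57681) (nat_lit 155) (.e (nat_lit 122917) (nat_lit 15) (.e (nat_lit 360449) (nat_lit 0) (.e (nat_lit 7122) (nat_lit 382) .nil)))))) (.g (nat_lit 0) .nil .nil)))))))))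

noncomputable def tv540 : DT := (.nd (nat_lit 0) (.nd (nat_lit 1) (.nd (nat_lit 2) (.nd (nat_lit 3) (.nd (nat_lit 4) (.nd (nat_lit 5) 
(.lf (nat_lit 38848) (.g (nat_lit 2831) (.e (nat_lit 1222) (nat_lit 90) (.e (nat_lit 81948) (nat_lit 21) (.e (nat_lit 57681) (nat_lit 155) (.e (nat_lit 122917) (nat_lit 15) (.e (nat_lit 360449) (nat_lit 0) (.e (nat_lit 7124) (nat_lit 382) .nil)))))) (.g (nat_lit 5) .nil .nil))) 
(.lf (nat_lit 38880) (.g (nat_lit 2336) (.e (nat_lit 1222) (nat_lit 90) (.e (nat_lit 81950) (nat_lit 21) (.e (nat_lit 57681) (nat_lit 155) (.e (nat_lit 122919) (nat_lit 15) (.e (nat_lit 360450) (nat_lit 0) (.e (nat_lit 7122) (nat_lit 382) .nil)))))) (.g (nat_lit 4) .nil .nil)))) (.nd (nat_lit 5) 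
(.lf (nat_lit 38864) (.g (nat_lit 1602) (.e (nat_lit 1222) (nat_lit 90) (.e (nat_lit 81948) (nat_lit 21) (.e (nat_lit 57871) (nat_lit 264) (.e (nat_lit 1220) (nat_lit 90) (.e (nat_lit 81958) (nat_lit 24) (.e (nat_lit 123183) (nat_lit 264) .nil)))))) (.g (nat_lit 4) .nil .nil))) 
(.lf (nat_lit 38896) (.g (nat_lit 2848) (.e (nat_lit 1222) (nat_lit 90) (.e (nat_lit 81954) (nat_lit 23) (.e (nat_lit 98317) (nat_lit 9) (.e (nat_lit 335995) (nat_lit 1) (.e (nat_lit 57847) (nat_lit 252) .nil))))) .nil)))) (.nd (nat_lit 4) (.nd (nat_lit 5) 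
(.lf (nat_lit 38856) (.g (nat_lit 694) (.e (nat_lit 1222) (nat_lit 90) (.e (nat_lit 81948) (nat_lit 21) (.e (nat_lit 57683) (nat_lit 155) (.e (nat_lit 122918) (nat_lit 15) .nil)))) .nil)) 
(.lf (nat_lit 38888) (.g (nat_lit 1854) (.e (nat_lit 1222) (nat_lit 90) (.e (nat_lit 81950) (nat_lit 21) (.e (nat_lit 57873) (nat_lit 264) (.e (nat_lit 1221) (nat_lit 90) (.e (nat_lit 81959) (nat_lit 24) .nil))))) .nil))) (.nd (nat_lit 5) 
(.lf (nat_lit 38872) (.g (nat_lit 2789) (.e (nat_lit 1222) (nat_lit 90) (.e (nat_lit 81948) (nat_lit 21) (.e (nat_lit 57873) (nat_lit 264) (.e (nat_lit 1221) (nat_lit 90) (.e (nat_lit 81957) (nat_lit 24) (.e (nat_lit 123185) (nat_lit 264) .nil)))))) (.g (nat_lit 5) .nil .nil))) 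
(.lf (nat_lit 38904) (.g (nat_lit 3686) (.e (nat_lit 1222) (nat_lit 90) (.e (nat_lit 81956) (nat_lit 23) (.e (nat_lit 98389) (nat_lit 33) (.e (nat_lit 491560) (nat_lit 10) (.e (nat_lit 344089) (nat_lit 18) (.e (nat_lit 3915) (nat_lit 239) .nil)))))) (.g (nat_lit 4) .nil .nil)))))) (.nd (nat_lit 3) (.nd (nat_lit 4) (.nd (nat_lit 5) 
(.lf (nat_lit 38852) (.g (nat_lit 3263) (.e (nat_lit 1222) (nat_lit 90) (.e (nat_lit 81948) (nat_lit 21) (.e (nat_lit 57681) (nat_lit 155) (.e (nat_lit 122919) (nat_lit 15) (.e (nat_lit 360450) (nat_lit 0) (.e (nat_lit 7125) (nat_lit 382) .nil)))))) (.g (nat_lit 5) .nil .nil))) 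
(.lf (nat_lit 38884) (.g (nat_lit 2217) (.e (nat_lit 1222) (nat_lit 90) (.e (nat_lit 81950) (nat_lit 21) (.e (nat_lit 57872) (nat_lit 264) (.e (nat_lit 1221) (nat_lit 90) (.e (nat_lit 81958) (nat_lit 24) .nil))))) .nil))) (.nd (nat_lit 5) 
(.lf (nat_lit 38868) (.g (nat_lit 1730) (.e (nat_lit 1222) (nat_lit 90) (.e (nat_lit 81948) (nat_lit 21) (.e (nat_lit 57872) (nat_lit 264) (.e (nat_lit 1221) (nat_lit 90) (.e (nat_lit 81958) (nat_lit 24) .nil))))) .nil)) 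
(.lf (nat_lit 38900) (.g (nat_lit 1752) (.e (nat_lit 1222) (nat_lit 90) (.e (nat_lit 81956) (nat_lit 23) (.e (nat_lit 98313) (nat_lit 9) (.e (nat_lit 335995) (nat_lit 1) .nil)))) .nil)))) (.nd (nat_lit 4) (.nd (nat_lit 5) 
(.lf (nat_lit 38860) (.g (nat_lit 1182) (.e (nat_lit 1222) (nat_lit 90) (.e (nat_lit 81948) (nat_lit 21) (.e (nat_lit 57684) (nat_lit 155) (.e (nat_lit 122919) (nat_lit 15) (.e (nat_lit 360448) (nat_lit 0) .nil))))) .nil)) 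
(.lf (nat_lit 38892) (.g (nat_lit 3068) (.e (nat_lit 1222) (nat_lit 90) (.e (nat_lit 81954) (nat_lit 23) (.e (nat_lit 98313) (nat_lit 9) (.e (nat_lit 335995) (nat_lit 1) (.e (nat_lit 57847) (nat_lit 252) (.e (nat_lit 57365) (nat_lit 1) (.e (nat_lit 65280) (nat_lit 209) .nil))))))) (.g (nat_lit 5) .nil .nil)))) (.nd (nat_lit 5) 
(.lf (nat_lit 38876) (.g (nat_lit 3012) (.e (nat_lit 1222) (nat_lit 90) (.e (nat_lit 81949) (nat_lit 21) (.e (nat_lit 57681) (nat_lit 155) (.e (nat_lit 122919) (nat_lit 15) (.e (nat_lit 360451) (nat_lit 0) (.e (nat_lit 7122) (nat_lit 382) .nil)))))) (.g (nat_lit 5) .nil .nil))) 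
(.lf (nat_lit 38908) (.g (nat_lit 1649) (.e (nat_lit 1222) (nat_lit 90) (.e (nat_lit 81957) (nat_lit 24) (.e (nat_lit 123182) (nat_lit 264) (.e (nat_lit 1218) (nat_lit 90) .nil)))) .nil)))))) (.nd (nat_lit 2) (.nd (nat_lit 3) (.nd (nat_lit 4) (.nd (nat_lit 5) 
(.lf (nat_lit 38850) (.g (nat_lit 2369) (.e (nat_lit 1222) (nat_lit 90) (.e (nat_lit 81948) (nat_lit 21) (.e (nat_lit 57681) (nat_lit 155) (.e (nat_lit 122919) (nat_lit 15) (.e (nat_lit 360449) (nat_lit 0) (.e (nat_lit 7122) (nat_lit 382) .nil)))))) (.g (nat_lit 4) .nil .nil))) 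
(.lf (nat_lit 38882) (.g (nat_lit 2245) (.e (nat_lit 1222) (nat_lit 90) (.e (nat_lit 81950) (nat_lit 21) (.e (nat_lit 57872) (nat_lit 264) (.e (nat_lit 1219) (nat_lit 90) (.e (nat_lit 81959) (nat_lit 24) .nil))))) .nil))) (.nd (nat_lit 5) 
(.lf (nat_lit 38866) (.g (nat_lit 2092) (.e (nat_lit 1222) (nat_lit 90) (.e (nat_lit 81948) (nat_lit 21) (.e (nat_lit 57872) (nat_lit 264) (.e (nat_lit 1219) (nat_lit 90) (.e (nat_lit 81958) (nat_lit 24) (.e (nat_lit 123183) (nat_lit 264) .nil)))))) (.g (nat_lit 4) .nil .nil))) 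
(.lf (nat_lit 38898) (.g (nat_lit 1927) (.e (nat_lit 1222) (nat_lit 90) (.e (nat_lit 81954) (nat_lit 23) (.e (nat_lit 98389) (nat_lit 33) (.e (nat_lit 491558) (nat_lit 10) (.e (nat_lit 344088) (nat_lit 18) .nil))))) .nil)))) (.nd (nat_lit 4) (.nd (nat_lit 5) 
(.lf (nat_lit 38858) (.g (nat_lit 4133) (.e (nat_lit 1222) (nat_lit 90) (.e (nat_lit 81948) (nat_lit 21) (.e (nat_lit 57683) (nat_lit 155) (.e (nat_lit 122919) (nat_lit 15) (.e (nat_lit 360451) (nat_lit 0) (.e (nat_lit 7125) (nat_lit 382) .nil)))))) (.g (nat_lit 0) .nil .nil))) 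
(.lf (nat_lit 38890) (.g (nat_lit 1808) (.e (nat_lit 1222) (nat_lit 90) (.e (nat_lit 81953) (nat_lit 22) (.e (nat_lit 90160) (nat_lit 11) (.e (nat_lit 24599) (nat_lit 1) .nil)))) .nil))) (.nd (nat_lit 5) 
(.lf (nat_lit 38874) (.g (nat_lit 3807) (.e (nat_lit 1222) (nat_lit 90) (.e (nat_lit 81948) (nat_lit 21) (.e (nat_lit 57873) (nat_lit 264) (.e (nat_lit 1221) (nat_lit 90) (.e (nat_lit 81959) (nat_lit 24) (.e (nat_lit 123183) (nat_lit 264) .nil)))))) (.g (nat_lit 0) .nil .nil))) 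
(.lf (nat_lit 38906) (.g (nat_lit 648) (.e (nat_lit 1222) (nat_lit 90) (.e (nat_lit 81957) (nat_lit 24) (.e (nat_lit 123181) (nat_lit 264) .nil))) .nil))))) (.nd (nat_lit 3) (.nd (nat_lit 4) (.nd (nat_lit 5) 
(.lf (nat_lit 38854) (.g (nat_lit 902) (.e (nat_lit 1222) (nat_lit 90) (.e (nat_lit 81948) (nat_lit 21) (.e (nat_lit 57682) (nat_lit 155) (.e (nat_lit 122919) (nat_lit 15) (.e (nat_lit 360450) (nat_lit 0) .nil))))) .nil)) 
(.lf (nat_lit 38886) (.g (nat_lit 1308) (.e (nat_lit 1222) (nat_lit 90) (.e (nat_lit 81950) (nat_lit 21) (.e (nat_lit 57873) (nat_lit 264) (.e (nat_lit 1221) (nat_lit 90) .nil)))) .nil))) (.nd (nat_lit 5) 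
(.lf (nat_lit 38870) (.g (nat_lit 990) (.e (nat_lit 1222) (nat_lit 90) (.e (nat_lit 81948) (nat_lit 21) (.e (nat_lit 57873) (nat_lit 264) (.e (nat_lit 1218) (nat_lit 90) .nil)))) .nil)) 
(.lf (nat_lit 38902) (.g (nat_lit 762) (.e (nat_lit 1222) (nat_lit 90) (.e (nat_lit 81956) (nat_lit 23) (.e (nat_lit 98389) (nat_lit 33) .nil))) .nil)))) (.nd (nat_lit 4) (.nd (nat_lit 5) 
(.lf (nat_lit 38862) (.g (nat_lit 1649) (.e (nat_lit 1222) (nat_lit 90) (.e (nat_lit 81948) (nat_lit 21) (.e (nat_lit 57870) (nat_lit 264) (.e (nat_lit 1220) (nat_lit 90) (.e (nat_lit 81958) (nat_lit 24) (.e (nat_lit 123183) (nat_lit 264) .nil)))))) (.g (nat_lit 4) .nil .nil))) 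
(.lf (nat_lit 38894) (.g (nat_lit 2585) (.e (nat_lit 1222) (nat_lit 90) (.e (nat_lit 81954) (nat_lit 23) (.e (nat_lit 98313) (nat_lit 9) (.e (nat_lit 335995) (nat_lit 1) (.e (nat_lit 57848) (nat_lit 252) (.e (nat_lit 57367) (nat_lit 1) (.e (nat_lit 65280) (nat_lit 209) .nil))))))) (.g (nat_lit 5) .nil .nil)))) (.nd (nat_lit 5) 
(.lf (nat_lit 38878) (.g (nat_lit 2194) (.e (nat_lit 1222) (nat_lit 90) (.e (nat_lit 81950) (nat_lit 21) (.e (nat_lit 57680) (nat_lit 155) (.e (nat_lit 122919) (nat_lit 15) (.e (nat_lit 360451) (nat_lit 0) (.e (nat_lit 7122) (nat_lit 382) .nil)))))) (.g (nat_lit 4) .nil .nil))) 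
(.lf (nat_lit 38910) (.g (nat_lit 3144) (.e (nat_lit 1222) (nat_lit 90) (.e (nat_lit 81957) (nat_lit 24) (.e (nat_lit 123182) (nat_lit 264) (.e (nat_lit 1222) (nat_lit 90) (.e (nat_lit 81959) (nat_lit 24) (.e (nat_lit 123183) (nat_lit 264) .nil)))))) (.g (nat_lit 5) .nil .nil)))))))) (.nd (nat_lit 1) (.nd (nat_lit 2) (.nd (nat_lit 3) (.nd (nat_lit 4) (.nd (nat_lit 5) 
(.lf (nat_lit 38849) (.g (nat_lit 2636) (.e (nat_lit 1222) (nat_lit 90) (.e (nat_lit 81948) (nat_lit 21) (.e (nat_lit 57681) (nat_lit 155) (.e (nat_lit 122917) (nat_lit 15) (.e (nat_lit 360451) (nat_lit 0) (.e (nat_lit 7125) (nat_lit 382) .nil)))))) (.g (nat_lit 4) .nil .nil))) 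
(.lf (nat_lit 38881) (.g (nat_lit 513) (.e (nat_lit 1222) (nat_lit 90) (.e (nat_lit 81950) (nat_lit 21) (.e (nat_lit 57870) (nat_lit 264) .nil))) .nil))) (.nd (nat_lit 5) 
(.lf (nat_lit 38865) (.g (nat_lit 4373) (.e (nat_lit 1222) (nat_lit 90) (.e (nat_lit 81948) (nat_lit 21) (.e (nat_lit 57872) (nat_lit 264) (.e (nat_lit 1219) (nat_lit 90) (.e (nat_lit 81957) (nat_lit 24) (.e (nat_lit 123182) (nat_lit 264) .nil)))))) (.g (nat_lit 0) .nil .nil))) 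
(.lf (nat_lit 38897) (.g (nat_lit 1631) (.e (nat_lit 1222) (nat_lit 90) (.e (nat_lit 81954) (nat_lit 23) (.e (nat_lit 98389) (nat_lit 33) (.e (nat_lit 491546) (nat_lit 9) (.e (nat_lit 335997) (nat_lit 1) (.e (nat_lit 65280) (nat_lit 140) .nil)))))) (.g (nat_lit 4) .nil .nil))))) (.nd (nat_lit 4) (.nd (nat_lit 5) 
(.lf (nat_lit 38857) (.g (nat_lit 2998) (.e (nat_lit 1222) (nat_lit 90) (.e (nat_lit 81948) (nat_lit 21) (.e (nat_lit 57683) (nat_lit 155) (.e (nat_lit 122919) (nat_lit 15) (.e (nat_lit 360449) (nat_lit 0) (.e (nat_lit 7122) (nat_lit 382) .nil)))))) (.g (nat_lit 6) .nil .nil))) 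
(.lf (nat_lit 38889) (.g (nat_lit 981) (.e (nat_lit 1222) (nat_lit 90) (.e (nat_lit 81953) (nat_lit 22) (.e (nat_lit 90160) (nat_lit 11) .nil))) .nil))) (.nd (nat_lit 5) 
(.lf (nat_lit 38873) (.g (nat_lit 4322) (.e (nat_lit 1222) (nat_lit 90) (.e (nat_lit 81948) (nat_lit 21) (.e (nat_lit 57873) (nat_lit 264) (.e (nat_lit 1221) (nat_lit 90) (.e (nat_lit 81959) (nat_lit 24) (.e (nat_lit 123182) (nat_lit 264) .nil)))))) (.g (nat_lit 0) .nil .nil))) 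
(.lf (nat_lit 38905) (.g (nat_lit 594) (.e (nat_lit 1222) (nat_lit 90) (.e (nat_lit 81957) (nat_lit 24) (.e (nat_lit 130816) (nat_lit 154) .nil))) .nil))))) (.nd (nat_lit 3) (.nd (nat_lit 4) (.nd (nat_lit 5) 
(.lf (nat_lit 38853) (.g (nat_lit 4997) (.e (nat_lit 1222) (nat_lit 90) (.e (nat_lit 81948) (nat_lit 21) (.e (nat_lit 57681) (nat_lit 155) (.e (nat_lit 122919) (nat_lit 15) (.e (nat_lit 360451) (nat_lit 0) (.e (nat_lit 7125) (nat_lit 382) .nil)))))) (.g (nat_lit 0) .nil .nil))) 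
(.lf (nat_lit 38885) (.g (nat_lit 2270) (.e (nat_lit 1222) (nat_lit 90) (.e (nat_lit 81950) (nat_lit 21) (.e (nat_lit 57872) (nat_lit 264) (.e (nat_lit 1221) (nat_lit 90) (.e (nat_lit 81959) (nat_lit 24) (.e (nat_lit 123185) (nat_lit 264) .nil)))))) (.g (nat_lit 4) .nil .nil)))) (.nd (nat_lit 5) 
(.lf (nat_lit 38869) (.g (nat_lit 929) (.e (nat_lit 1222) (nat_lit 90) (.e (nat_lit 81948) (nat_lit 21) (.e (nat_lit 57873) (nat_lit 264) (.e (nat_lit 993) (nat_lit 81) .nil)))) .nil)) 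
(.lf (nat_lit 38901) (.g (nat_lit 915) (.e (nat_lit 1222) (nat_lit 90) (.e (nat_lit 81956) (nat_lit 23) (.e (nat_lit 98320) (nat_lit 17) .nil))) .nil)))) (.nd (nat_lit 4) (.nd (nat_lit 5) 
(.lf (nat_lit 38861) (.g (nat_lit 3640) (.e (nat_lit 1222) (nat_lit 90) (.e (nat_lit 81948) (nat_lit 21) (.e (nat_lit 57870) (nat_lit 264) (.e (nat_lit 1219) (nat_lit 90) (.e (nat_lit 81957) (nat_lit 24) (.e (nat_lit 123182) (nat_lit 264) .nil)))))) (.g (nat_lit 0) .nil .nil))) 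
(.lf (nat_lit 38893) (.g (nat_lit 2198) (.e (nat_lit 1222) (nat_lit 90) (.e (nat_lit 81954) (nat_lit 23) (.e (nat_lit 98313) (nat_lit 9) (.e (nat_lit 335995) (nat_lit 1) (.e (nat_lit 57847) (nat_lit 252) (.e (nat_lit 57367) (nat_lit 1) (.e (nat_lit 65280) (nat_lit 209) .nil))))))) (.g (nat_lit 4) .nil .nil)))) (.nd (nat_lit 5) 
(.lf (nat_lit 38877) (.g (nat_lit 3012) (.e (nat_lit 1222) (nat_lit 90) (.e (nat_lit 81949) (nat_lit 21) (.e (nat_lit 57681) (nat_lit 155) (.e (nat_lit 122919) (nat_lit 15) (.e (nat_lit 360451) (nat_lit 0) (.e (nat_lit 7124) (nat_lit 382) .nil)))))) (.g (nat_lit 5) .nil .nil))) 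
(.lf (nat_lit 38909) (.g (nat_lit 3345) (.e (nat_lit 1222) (nat_lit 90) (.e (nat_lit 81957) (nat_lit 24) (.e (nat_lit 123182) (nat_lit 264) (.e (nat_lit 1222) (nat_lit 90) (.e (nat_lit 81957) (nat_lit 24) (.e (nat_lit 123185) (nat_lit 264) .nil)))))) (.g (nat_lit 0) .nil .nil))))))) (.nd (nat_lit 2) (.nd (nat_lit 3) (.nd (nat_lit 4) (.nd (nat_lit 5) 
(.lf (nat_lit 38851) (.g (nat_lit 2840) (.e (nat_lit 1222) (nat_lit 90) (.e (nat_lit 81948) (nat_lit 21) (.e (nat_lit 57681) (nat_lit 155) (.e (nat_lit 122919) (nat_lit 15) (.e (nat_lit 360449) (nat_lit 0) (.e (nat_lit 7125) (nat_lit 382) .nil)))))) (.g (nat_lit 4) .nil .nil))) 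
(.lf (nat_lit 38883) (.g (nat_lit 2356) (.e (nat_lit 1222) (nat_lit 90) (.e (nat_lit 81950) (nat_lit 21) (.e (nat_lit 57872) (nat_lit 264) (.e (nat_lit 1221) (nat_lit 90) (.e (nat_lit 81957) (nat_lit 24) .nil))))) .nil))) (.nd (nat_lit 5) 
(.lf (nat_lit 38867) (.g (nat_lit 3039) (.e (nat_lit 1222) (nat_lit 90) (.e (nat_lit 81948) (nat_lit 21) (.e (nat_lit 57872) (nat_lit 264) (.e (nat_lit 1221) (nat_lit 90) (.e (nat_lit 81957) (nat_lit 24) (.e (nat_lit 123185) (nat_lit 264) .nil)))))) (.g (nat_lit 5) .nil .nil))) 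
(.lf (nat_lit 38899) (.g (nat_lit 2726) (.e (nat_lit 1222) (nat_lit 90) (.e (nat_lit 81954) (nat_lit 23) (.e (nat_lit 98389) (nat_lit 33) (.e (nat_lit 491560) (nat_lit 10) (.e (nat_lit 344087) (nat_lit 18) (.e (nat_lit 3915) (nat_lit 239) .nil)))))) (.g (nat_lit 5) .nil .nil))))) (.nd (nat_lit 4) (.nd (nat_lit 5) 
(.lf (nat_lit 38859) (.g (nat_lit 2298) (.e (nat_lit 1222) (nat_lit 90) (.e (nat_lit 81948) (nat_lit 21) (.e (nat_lit 57684) (nat_lit 155) (.e (nat_lit 122917) (nat_lit 15) (.e (nat_lit 360451) (nat_lit 0) (.e (nat_lit 7122) (nat_lit 382) .nil)))))) (.g (nat_lit 5) .nil .nil))) 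
(.lf (nat_lit 38891) (.g (nat_lit 2504) (.e (nat_lit 1222) (nat_lit 90) (.e (nat_lit 81954) (nat_lit 23) (.e (nat_lit 98313) (nat_lit 9) (.e (nat_lit 335986) (nat_lit 1) (.e (nat_lit 57847) (nat_lit 252) (.e (nat_lit 57365) (nat_lit 1) (.e (nat_lit 65280) (nat_lit 209) .nil))))))) (.g (nat_lit 5) .nil .nil)))) (.nd (nat_lit 5) 
(.lf (nat_lit 38875) (.g (nat_lit 4060) (.e (nat_lit 1222) (nat_lit 90) (.e (nat_lit 81948) (nat_lit 21) (.e (nat_lit 57873) (nat_lit 264) (.e (nat_lit 1221) (nat_lit 90) (.e (nat_lit 81959) (nat_lit 24) (.e (nat_lit 123184) (nat_lit 264) .nil)))))) (.g (nat_lit 0) .nil .nil))) 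
(.lf (nat_lit 38907) (.g (nat_lit 1540) (.e (nat_lit 1222) (nat_lit 90) (.e (nat_lit 81957) (nat_lit 24) (.e (nat_lit 123182) (nat_lit 264) (.e (nat_lit 1016) (nat_lit 81) .nil)))) .nil))))) (.nd (nat_lit 3) (.nd (nat_lit 4) (.nd (nat_lit 5) 
(.lf (nat_lit 38855) (.g (nat_lit 3084) (.e (nat_lit 1222) (nat_lit 90) (.e (nat_lit 81948) (nat_lit 21) (.e (nat_lit 57683) (nat_lit 155) (.e (nat_lit 122917) (nat_lit 15) (.e (nat_lit 360451) (nat_lit 0) (.e (nat_lit 7122) (nat_lit 382) .nil)))))) (.g (nat_lit 6) .nil .nil))) 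
(.lf (nat_lit 38887) (.g (nat_lit 2099) (.e (nat_lit 1222) (nat_lit 90) (.e (nat_lit 81950) (nat_lit 21) (.e (nat_lit 57873) (nat_lit 264) (.e (nat_lit 1221) (nat_lit 90) (.e (nat_lit 81957) (nat_lit 24) .nil))))) .nil))) (.nd (nat_lit 5) 
(.lf (nat_lit 38871) (.g (nat_lit 4115) (.e (nat_lit 1222) (nat_lit 90) (.e (nat_lit 81948) (nat_lit 21) (.e (nat_lit 57873) (nat_lit 264) (.e (nat_lit 1219) (nat_lit 90) (.e (nat_lit 81957) (nat_lit 24) (.e (nat_lit 123182) (nat_lit 264) .nil)))))) (.g (nat_lit 0) .nil .nil))) 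
(.lf (nat_lit 38903) (.g (nat_lit 3689) (.e (nat_lit 1222) (nat_lit 90) (.e (nat_lit 81956) (nat_lit 23) (.e (nat_lit 98389) (nat_lit 33) (.e (nat_lit 491560) (nat_lit 10) (.e (nat_lit 344088) (nat_lit 18) (.e (nat_lit 3915) (nat_lit 239) .nil)))))) (.g (nat_lit 4) .nil .nil))))) (.nd (nat_lit 4) (.nd (nat_lit 5) 
(.lf (nat_lit 38863) (.g (nat_lit 3703) (.e (nat_lit 1222) (nat_lit 90) (.e (nat_lit 81948) (nat_lit 21) (.e (nat_lit 57870) (nat_lit 264) (.e (nat_lit 1221) (nat_lit 90) (.e (nat_lit 81959) (nat_lit 24) (.e (nat_lit 123183) (nat_lit 264) .nil)))))) (.g (nat_lit 0) .nil .nil))) 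
(.lf (nat_lit 38895) (.g (nat_lit 3232) (.e (nat_lit 1222) (nat_lit 90) (.e (nat_lit 81954) (nat_lit 23) (.e (nat_lit 98317) (nat_lit 9) (.e (nat_lit 335986) (nat_lit 1) (.e (nat_lit 57847) (nat_lit 252) (.e (nat_lit 57365) (nat_lit 1) (.e (nat_lit 65280) (nat_lit 209) .nil))))))) (.g (nat_lit 4) .nil .nil)))) (.nd (nat_lit 5) 
(.lf (nat_lit 38879) (.g (nat_lit 2393) (.e (nat_lit 1222) (nat_lit 90) (.e (nat_lit 81950) (nat_lit 21) (.e (nat_lit 57681) (nat_lit 155) (.e (nat_lit 122917) (nat_lit 15) .nil)))) .nil)) 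
(.lf (nat_lit 38911) (.g (nat_lit 1933) (.e (nat_lit 1222) (nat_lit 90) (.e (nat_lit 81957) (nat_lit 24) (.e (nat_lit 123182) (nat_lit 264) (.e (nat_lit 1223) (nat_lit 90) (.e (nat_lit 81959) (nat_lit 24) .nil))))) .nil))))))))

noncomputable def tv541 : DT := (.nd (nat_lit 0) (.nd (nat_lit 1) (.nd (nat_lit 2) (.nd (nat_lit 3) (.nd (nat_lit 4) (.nd (nat_lit 5) 
(.lf (nat_lit 38912) (.g (nat_lit 3039) (.e (nat_lit 1222) (nat_lit 90) (.e (nat_lit 81957) (nat_lit 24) (.e (nat_lit 123182) (nat_lit 264) (.e (nat_lit 1224) (nat_lit 90) (.e (nat_lit 81957) (nat_lit 24) (.e (nat_lit 123183) (nat_lit 264) .nil)))))) (.g (nat_lit 5) .nil .nil))) 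
(.lf (nat_lit 38944) (.g (nat_lit 2803) (.e (nat_lit 1222) (nat_lit 90) (.e (nat_lit 81957) (nat_lit 24) (.e (nat_lit 123197) (nat_lit 266) (.e (nat_lit 57423) (nat_lit 14) (.e (nat_lit 352318) (nat_lit 24) (.e (nat_lit 123185) (nat_lit 264) .nil)))))) (.g (nat_lit 5) .nil .nil)))) (.nd (nat_lit 5) 
(.lf (nat_lit 38928) (.g (nat_lit 2414) (.e (nat_lit 1222) (nat_lit 90) (.e (nat_lit 81957) (nat_lit 24) (.e (nat_lit 123184) (nat_lit 264) (.e (nat_lit 1224) (nat_lit 90) (.e (nat_lit 81959) (nat_lit 24) (.e (nat_lit 123185) (nat_lit 264) .nil)))))) (.g (nat_lit 5) .nil .nil))) 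
(.lf (nat_lit 38960) (.g (nat_lit 1897) (.e (nat_lit 1222) (nat_lit 90) (.e (nat_lit 81957) (nat_lit 24) (.e (nat_lit 123198) (nat_lit 266) (.e (nat_lit 57428) (nat_lit 15) (.e (nat_lit 360457) (nat_lit 0) (.e (nat_lit 5818) (nat_lit 320) .nil)))))) (.g (nat_lit 5) .nil .nil))))) (.nd (nat_lit 4) (.nd (nat_lit 5) 
(.lf (nat_lit 38920) (.g (nat_lit 3898) (.e (nat_lit 1222) (nat_lit 90) (.e (nat_lit 81957) (nat_lit 24) (.e (nat_lit 123184) (nat_lit 264) (.e (nat_lit 1222) (nat_lit 90) (.e (nat_lit 81957) (nat_lit 24) (.e (nat_lit 123184) (nat_lit 264) .nil)))))) (.g (nat_lit 0) .nil .nil))) 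
(.lf (nat_lit 38952) (.g (nat_lit 1808) (.e (nat_lit 1222) (nat_lit 90) (.e (nat_lit 81957) (nat_lit 24) (.e (nat_lit 123197) (nat_lit 266) (.e (nat_lit 57428) (nat_lit 15) (.e (nat_lit 360457) (nat_lit 0) .nil))))) .nil))) (.nd (nat_lit 5) 
(.lf (nat_lit 38936) (.g (nat_lit 587) (.e (nat_lit 1222) (nat_lit 90) (.e (nat_lit 81957) (nat_lit 24) (.e (nat_lit 123194) (nat_lit 266) .nil))) .nil)) 
(.lf (nat_lit 38968) (.g (nat_lit 2687) (.e (nat_lit 1222) (nat_lit 90) (.e (nat_lit 81959) (nat_lit 24) (.e (nat_lit 123182) (nat_lit 264) (.e (nat_lit 1218) (nat_lit 90) (.e (nat_lit 81959) (nat_lit 24) .nil))))) .nil))))) (.nd (nat_lit 3) (.nd (nat_lit 4) (.nd (nat_lit 5) 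
(.lf (nat_lit 38916) (.g (nat_lit 2962) (.e (nat_lit 1222) (nat_lit 90) (.e (nat_lit 81957) (nat_lit 24) (.e (nat_lit 123182) (nat_lit 264) (.e (nat_lit 1224) (nat_lit 90) (.e (nat_lit 81959) (nat_lit 24) (.e (nat_lit 123185) (nat_lit 264) .nil)))))) (.g (nat_lit 6) .nil .nil))) 
(.lf (nat_lit 38948) (.g (nat_lit 2249) (.e (nat_lit 1222) (nat_lit 90) (.e (nat_lit 81957) (nat_lit 24) (.e (nat_lit 123197) (nat_lit 266) (.e (nat_lit 57425) (nat_lit 14) (.e (nat_lit 352318) (nat_lit 24) (.e (nat_lit 123184) (nat_lit 264) .nil)))))) (.g (nat_lit 5) .nil .nil)))) (.nd (nat_lit 5) 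
(.lf (nat_lit 38932) (.g (nat_lit 2766) (.e (nat_lit 1222) (nat_lit 90) (.e (nat_lit 81957) (nat_lit 24) (.e (nat_lit 123185) (nat_lit 264) (.e (nat_lit 1223) (nat_lit 90) (.e (nat_lit 81959) (nat_lit 24) (.e (nat_lit 123184) (nat_lit 264) .nil)))))) (.g (nat_lit 0) .nil .nil))) 
(.lf (nat_lit 38964) (.g (nat_lit 2387) (.e (nat_lit 1222) (nat_lit 90) (.e (nat_lit 81959) (nat_lit 24) (.e (nat_lit 123182) (nat_lit 264) (.e (nat_lit 1193) (nat_lit 88) .nil)))) .nil)))) (.nd (nat_lit 4) (.nd (nat_lit 5) 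
(.lf (nat_lit 38924) (.g (nat_lit 2735) (.e (nat_lit 1222) (nat_lit 90) (.e (nat_lit 81957) (nat_lit 24) (.e (nat_lit 123184) (nat_lit 264) (.e (nat_lit 1224) (nat_lit 90) (.e (nat_lit 81957) (nat_lit 24) (.e (nat_lit 123183) (nat_lit 264) .nil)))))) (.g (nat_lit 6) .nil .nil))) 
(.lf (nat_lit 38956) (.g (nat_lit 2521) (.e (nat_lit 1222) (nat_lit 90) (.e (nat_lit 81957) (nat_lit 24) (.e (nat_lit 123198) (nat_lit 266) (.e (nat_lit 57424) (nat_lit 14) (.e (nat_lit 352316) (nat_lit 24) (.e (nat_lit 123185) (nat_lit 264) .nil)))))) (.g (nat_lit 4) .nil .nil)))) (.nd (nat_lit 5) 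
(.lf (nat_lit 38940) (.g (nat_lit 3489) (.e (nat_lit 1222) (nat_lit 90) (.e (nat_lit 81957) (nat_lit 24) (.e (nat_lit 123195) (nat_lit 266) (.e (nat_lit 57424) (nat_lit 14) (.e (nat_lit 352318) (nat_lit 24) (.e (nat_lit 123185) (nat_lit 264) .nil)))))) (.g (nat_lit 5) .nil .nil))) 
(.lf (nat_lit 38972) (.g (nat_lit 2858) (.e (nat_lit 1222) (nat_lit 90) (.e (nat_lit 81959) (nat_lit 24) (.e (nat_lit 123182) (nat_lit 264) (.e (nat_lit 1223) (nat_lit 90) (.e (nat_lit 81959) (nat_lit 24) .nil))))) .nil)))))) (.nd (nat_lit 2) (.nd (nat_lit 3) (.nd (nat_lit 4) (.nd (nat_lit 5) 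
(.lf (nat_lit 38914) (.g (nat_lit 2802) (.e (nat_lit 1222) (nat_lit 90) (.e (nat_lit 81957) (nat_lit 24) (.e (nat_lit 123182) (nat_lit 264) (.e (nat_lit 1224) (nat_lit 90) (.e (nat_lit 81957) (nat_lit 24) (.e (nat_lit 123185) (nat_lit 264) .nil)))))) (.g (nat_lit 5) .nil .nil))) 
(.lf (nat_lit 38946) (.g (nat_lit 2327) (.e (nat_lit 1222) (nat_lit 90) (.e (nat_lit 81957) (nat_lit 24) (.e (nat_lit 123197) (nat_lit 266) (.e (nat_lit 57424) (nat_lit 14) (.e (nat_lit 352317) (nat_lit 24) (.e (nat_lit 123184) (nat_lit 264) .nil)))))) (.g (nat_lit 4) .nil .nil)))) (.nd (nat_lit 5) 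
(.lf (nat_lit 38930) (.g (nat_lit 2412) (.e (nat_lit 1222) (nat_lit 90) (.e (nat_lit 81957) (nat_lit 24) (.e (nat_lit 123185) (nat_lit 264) (.e (nat_lit 1222) (nat_lit 90) (.e (nat_lit 81957) (nat_lit 24) (.e (nat_lit 123185) (nat_lit 264) .nil)))))) (.g (nat_lit 0) .nil .nil))) 
(.lf (nat_lit 38962) (.g (nat_lit 2460) (.e (nat_lit 1222) (nat_lit 90) (.e (nat_lit 81959) (nat_lit 24) (.e (nat_lit 123182) (nat_lit 264) (.e (nat_lit 1016) (nat_lit 81) .nil)))) .nil)))) (.nd (nat_lit 4) (.nd (nat_lit 5) 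
(.lf (nat_lit 38922) (.g (nat_lit 2763) (.e (nat_lit 1222) (nat_lit 90) (.e (nat_lit 81957) (nat_lit 24) (.e (nat_lit 123184) (nat_lit 264) (.e (nat_lit 1222) (nat_lit 90) (.e (nat_lit 81959) (nat_lit 24) (.e (nat_lit 123183) (nat_lit 264) .nil)))))) (.g (nat_lit 5) .nil .nil))) 
(.lf (nat_lit 38954) (.g (nat_lit 2304) (.e (nat_lit 1222) (nat_lit 90) (.e (nat_lit 81957) (nat_lit 24) (.e (nat_lit 123198) (nat_lit 266) (.e (nat_lit 57423) (nat_lit 14) (.e (nat_lit 352318) (nat_lit 24) (.e (nat_lit 123185) (nat_lit 264) .nil)))))) (.g (nat_lit 5) .nil .nil)))) (.nd (nat_lit 5) 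
(.lf (nat_lit 38938) (.g (nat_lit 2751) (.e (nat_lit 1222) (nat_lit 90) (.e (nat_lit 81957) (nat_lit 24) (.e (nat_lit 123195) (nat_lit 266) (.e (nat_lit 57423) (nat_lit 14) (.e (nat_lit 352318) (nat_lit 24) .nil))))) .nil)) 
(.lf (nat_lit 38970) (.g (nat_lit 3090) (.e (nat_lit 1222) (nat_lit 90) (.e (nat_lit 81959) (nat_lit 24) (.e (nat_lit 123182) (nat_lit 264) (.e (nat_lit 1222) (nat_lit 90) (.e (nat_lit 81959) (nat_lit 24) (.e (nat_lit 123183) (nat_lit 264) .nil)))))) (.g (nat_lit 4) .nil .nil)))))) (.nd (nat_lit 3) (.nd (nat_lit 4) (.nd (nat_lit 5) 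
(.lf (nat_lit 38918) (.g (nat_lit 2011) (.e (nat_lit 1222) (nat_lit 90) (.e (nat_lit 81957) (nat_lit 24) (.e (nat_lit 123183) (nat_lit 264) (.e (nat_lit 1222) (nat_lit 90) (.e (nat_lit 81959) (nat_lit 24) (.e (nat_lit 123185) (nat_lit 264) .nil)))))) (.g (nat_lit 4) .nil .nil))) 
(.lf (nat_lit 38950) (.g (nat_lit 1675) (.e (nat_lit 1222) (nat_lit 90) (.e (nat_lit 81957) (nat_lit 24) (.e (nat_lit 123197) (nat_lit 266) (.e (nat_lit 57426) (nat_lit 15) (.e (nat_lit 360457) (nat_lit 0) .nil))))) .nil))) (.nd (nat_lit 5) 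
(.lf (nat_lit 38934) (.g (nat_lit 2210) (.e (nat_lit 1222) (nat_lit 90) (.e (nat_lit 81957) (nat_lit 24) (.e (nat_lit 123185) (nat_lit 264) (.e (nat_lit 1224) (nat_lit 90) (.e (nat_lit 81957) (nat_lit 24) (.e (nat_lit 123185) (nat_lit 264) .nil)))))) (.g (nat_lit 0) .nil .nil))) 
(.lf (nat_lit 38966) (.g (nat_lit 3905) (.e (nat_lit 1222) (nat_lit 90) (.e (nat_lit 81959) (nat_lit 24) (.e (nat_lit 123182) (nat_lit 264) (.e (nat_lit 1201) (nat_lit 88) (.e (nat_lit 65599) (nat_lit 9) .nil))))) .nil)))) (.nd (nat_lit 4) (.nd (nat_lit 5) 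
(.lf (nat_lit 38926) (.g (nat_lit 1806) (.e (nat_lit 1222) (nat_lit 90) (.e (nat_lit 81957) (nat_lit 24) (.e (nat_lit 123184) (nat_lit 264) (.e (nat_lit 1224) (nat_lit 90) (.e (nat_lit 81958) (nat_lit 24) .nil))))) .nil)) 
(.lf (nat_lit 38958) (.g (nat_lit 2049) (.e (nat_lit 1222) (nat_lit 90) (.e (nat_lit 81957) (nat_lit 24) (.e (nat_lit 123198) (nat_lit 266) (.e (nat_lit 57424) (nat_lit 14) (.e (nat_lit 352317) (nat_lit 24) (.e (nat_lit 123184) (nat_lit 264) .nil)))))) (.g (nat_lit 4) .nil .nil)))) (.nd (nat_lit 5) 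
(.lf (nat_lit 38942) (.g (nat_lit 3483) (.e (nat_lit 1222) (nat_lit 90) (.e (nat_lit 81957) (nat_lit 24) (.e (nat_lit 123195) (nat_lit 266) (.e (nat_lit 57427) (nat_lit 15) (.e (nat_lit 360457) (nat_lit 0) .nil))))) .nil)) 
(.lf (nat_lit 38974) (.g (nat_lit 3326) (.e (nat_lit 1222) (nat_lit 90) (.e (nat_lit 81959) (nat_lit 24) (.e (nat_lit 123182) (nat_lit 264) (.e (nat_lit 1224) (nat_lit 90) (.e (nat_lit 81957) (nat_lit 24) (.e (nat_lit 123183) (nat_lit 264) .nil)))))) (.g (nat_lit 4) .nil .nil)))))))) (.nd (nat_lit 1) (.nd (nat_lit 2) (.nd (nat_lit 3) (.nd (nat_lit 4) (.nd (nat_lit 5) 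
(.lf (nat_lit 38913) (.g (nat_lit 3568) (.e (nat_lit 1222) (nat_lit 90) (.e (nat_lit 81957) (nat_lit 24) (.e (nat_lit 123182) (nat_lit 264) (.e (nat_lit 1224) (nat_lit 90) (.e (nat_lit 81957) (nat_lit 24) (.e (nat_lit 123184) (nat_lit 264) .nil)))))) (.g (nat_lit 6) .nil .nil))) 
(.lf (nat_lit 38945) (.g (nat_lit 2289) (.e (nat_lit 1222) (nat_lit 90) (.e (nat_lit 81957) (nat_lit 24) (.e (nat_lit 123197) (nat_lit 266) (.e (nat_lit 57424) (nat_lit 14) (.e (nat_lit 352317) (nat_lit 24) .nil))))) .nil))) (.nd (nat_lit 5) 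
(.lf (nat_lit 38929) (.g (nat_lit 1090) (.e (nat_lit 1222) (nat_lit 90) (.e (nat_lit 81957) (nat_lit 24) (.e (nat_lit 123184) (nat_lit 264) (.e (nat_lit 7936) (nat_lit 90) .nil)))) .nil)) 
(.lf (nat_lit 38961) (.g (nat_lit 594) (.e (nat_lit 1222) (nat_lit 90) (.e (nat_lit 81957) (nat_lit 24) (.e (nat_lit 130816) (nat_lit 266) .nil))) .nil)))) (.nd (nat_lit 4) (.nd (nat_lit 5) 
(.lf (nat_lit 38921) (.g (nat_lit 3154) (.e (nat_lit 1222) (nat_lit 90) (.e (nat_lit 81957) (nat_lit 24) (.e (nat_lit 123184) (nat_lit 264) (.e (nat_lit 1222) (nat_lit 90) (.e (nat_lit 81957) (nat_lit 24) (.e (nat_lit 123185) (nat_lit 264) .nil)))))) (.g (nat_lit 0) .nil .nil))) 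
(.lf (nat_lit 38953) (.g (nat_lit 2381) (.e (nat_lit 1222) (nat_lit 90) (.e (nat_lit 81957) (nat_lit 24) (.e (nat_lit 123198) (nat_lit 266) (.e (nat_lit 57423) (nat_lit 14) (.e (nat_lit 352318) (nat_lit 24) (.e (nat_lit 123183) (nat_lit 264) .nil)))))) (.g (nat_lit 5) .nil .nil)))) (.nd (nat_lit 5) 
(.lf (nat_lit 38937) (.g (nat_lit 2852) (.e (nat_lit 1222) (nat_lit 90) (.e (nat_lit 81957) (nat_lit 24) (.e (nat_lit 123194) (nat_lit 266) (.e (nat_lit 57424) (nat_lit 14) (.e (nat_lit 352318) (nat_lit 24) (.e (nat_lit 123185) (nat_lit 264) .nil)))))) (.g (nat_lit 5) .nil .nil))) 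
(.lf (nat_lit 38969) (.g (nat_lit 2999) (.e (nat_lit 1222) (nat_lit 90) (.e (nat_lit 81959) (nat_lit 24) (.e (nat_lit 123182) (nat_lit 264) (.e (nat_lit 1222) (nat_lit 90) (.e (nat_lit 81959) (nat_lit 24) .nil))))) .nil))))) (.nd (nat_lit 3) (.nd (nat_lit 4) (.nd (nat_lit 5) 
(.lf (nat_lit 38917) (.g (nat_lit 1465) (.e (nat_lit 1222) (nat_lit 90) (.e (nat_lit 81957) (nat_lit 24) (.e (nat_lit 123182) (nat_lit 264) (.e (nat_lit 7936) (nat_lit 90) .nil)))) .nil)) 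
(.lf (nat_lit 38949) (.g (nat_lit 2552) (.e (nat_lit 1222) (nat_lit 90) (.e (nat_lit 81957) (nat_lit 24) (.e (nat_lit 123197) (nat_lit 266) (.e (nat_lit 57426) (nat_lit 15) (.e (nat_lit 360456) (nat_lit 0) (.e (nat_lit 5818) (nat_lit 320) .nil)))))) (.g (nat_lit 0) .nil .nil)))) (.nd (nat_lit 5) 
(.lf (nat_lit 38933) (.g (nat_lit 2172) (.e (nat_lit 1222) (nat_lit 90) (.e (nat_lit 81957) (nat_lit 24) (.e (nat_lit 123185) (nat_lit 264) (.e (nat_lit 1223) (nat_lit 90) (.e (nat_lit 81959) (nat_lit 24) (.e (nat_lit 123185) (nat_lit 264) .nil)))))) (.g (nat_lit 6) .nil .nil))) 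
(.lf (nat_lit 38965) (.g (nat_lit 1967) (.e (nat_lit 1222) (nat_lit 90) (.e (nat_lit 81959) (nat_lit 24) (.e (nat_lit 123182) (nat_lit 264) (.e (nat_lit 1201) (nat_lit 88) .nil)))) .nil)))) (.nd (nat_lit 4) (.nd (nat_lit 5) 
(.lf (nat_lit 38925) (.g (nat_lit 2508) (.e (nat_lit 1222) (nat_lit 90) (.e (nat_lit 81957) (nat_lit 24) (.e (nat_lit 123184) (nat_lit 264) (.e (nat_lit 1224) (nat_lit 90) (.e (nat_lit 81957) (nat_lit 24) (.e (nat_lit 123185) (nat_lit 264) .nil)))))) (.g (nat_lit 5) .nil .nil))) 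
(.lf (nat_lit 38957) (.g (nat_lit 1814) (.e (nat_lit 1222) (nat_lit 90) (.e (nat_lit 81957) (nat_lit 24) (.e (nat_lit 123198) (nat_lit 266) (.e (nat_lit 57424) (nat_lit 14) (.e (nat_lit 352317) (nat_lit 24) .nil))))) .nil))) (.nd (nat_lit 5) 
(.lf (nat_lit 38941) (.g (nat_lit 3182) (.e (nat_lit 1222) (nat_lit 90) (.e (nat_lit 81957) (nat_lit 24) (.e (nat_lit 123195) (nat_lit 266) (.e (nat_lit 57427) (nat_lit 15) (.e (nat_lit 360456) (nat_lit 0) (.e (nat_lit 5818) (nat_lit 320) .nil)))))) (.g (nat_lit 4) .nil .nil))) 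
(.lf (nat_lit 38973) (.g (nat_lit 3045) (.e (nat_lit 1222) (nat_lit 90) (.e (nat_lit 81959) (nat_lit 24) (.e (nat_lit 123182) (nat_lit 264) (.e (nat_lit 1223) (nat_lit 90) (.e (nat_lit 81959) (nat_lit 24) (.e (nat_lit 123182) (nat_lit 264) .nil)))))) (.g (nat_lit 4) .nil .nil))))))) (.nd (nat_lit 2) (.nd (nat_lit 3) (.nd (nat_lit 4) (.nd (nat_lit 5) 
(.lf (nat_lit 38915) (.g (nat_lit 2217) (.e (nat_lit 1222) (nat_lit 90) (.e (nat_lit 81957) (nat_lit 24) (.e (nat_lit 123182) (nat_lit 264) (.e (nat_lit 1224) (nat_lit 90) (.e (nat_lit 81958) (nat_lit 24) .nil))))) .nil)) 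
(.lf (nat_lit 38947) (.g (nat_lit 3391) (.e (nat_lit 1222) (nat_lit 90) (.e (nat_lit 81957) (nat_lit 24) (.e (nat_lit 123197) (nat_lit 266) (.e (nat_lit 57424) (nat_lit 14) (.e (nat_lit 352318) (nat_lit 24) (.e (nat_lit 123185) (nat_lit 264) .nil)))))) (.g (nat_lit 5) .nil .nil)))) (.nd (nat_lit 5) 
(.lf (nat_lit 38931) (.g (nat_lit 1834) (.e (nat_lit 1222) (nat_lit 90) (.e (nat_lit 81957) (nat_lit 24) (.e (nat_lit 123185) (nat_lit 264) (.e (nat_lit 1222) (nat_lit 90) (.e (nat_lit 81959) (nat_lit 24) (.e (nat_lit 123185) (nat_lit 264) .nil)))))) (.g (nat_lit 4) .nil .nil))) 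
(.lf (nat_lit 38963) (.g (nat_lit 2398) (.e (nat_lit 1222) (nat_lit 90) (.e (nat_lit 81959) (nat_lit 24) (.e (nat_lit 123182) (nat_lit 264) (.e (nat_lit 1192) (nat_lit 88) .nil)))) .nil)))) (.nd (nat_lit 4) (.nd (nat_lit 5) 
(.lf (nat_lit 38923) (.g (nat_lit 2525) (.e (nat_lit 1222) (nat_lit 90) (.e (nat_lit 81957) (nat_lit 24) (.e (nat_lit 123184) (nat_lit 264) (.e (nat_lit 1222) (nat_lit 90) (.e (nat_lit 81959) (nat_lit 24) (.e (nat_lit 123185) (nat_lit 264) .nil)))))) (.g (nat_lit 4) .nil .nil))) 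
(.lf (nat_lit 38955) (.g (nat_lit 2180) (.e (nat_lit 1222) (nat_lit 90) (.e (nat_lit 81957) (nat_lit 24) (.e (nat_lit 123198) (nat_lit 266) (.e (nat_lit 57424) (nat_lit 14) (.e (nat_lit 352316) (nat_lit 24) .nil))))) .nil))) (.nd (nat_lit 5) 
(.lf (nat_lit 38939) (.g (nat_lit 2819) (.e (nat_lit 1222) (nat_lit 90) (.e (nat_lit 81957) (nat_lit 24) (.e (nat_lit 123195) (nat_lit 266) (.e (nat_lit 57423) (nat_lit 14) (.e (nat_lit 352318) (nat_lit 24) (.e (nat_lit 123182) (nat_lit 264) .nil)))))) (.g (nat_lit 4) .nil .nil))) 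
(.lf (nat_lit 38971) (.g (nat_lit 3305) (.e (nat_lit 1222) (nat_lit 90) (.e (nat_lit 81959) (nat_lit 24) (.e (nat_lit 123182) (nat_lit 264) (.e (nat_lit 1222) (nat_lit 90) (.e (nat_lit 81959) (nat_lit 24) (.e (nat_lit 123184) (nat_lit 264) .nil)))))) (.g (nat_lit 4) .nil .nil)))))) (.nd (nat_lit 3) (.nd (nat_lit 4) (.nd (nat_lit 5) 
(.lf (nat_lit 38919) (.g (nat_lit 877) (.e (nat_lit 1222) (nat_lit 90) (.e (nat_lit 81957) (nat_lit 24) (.e (nat_lit 123183) (nat_lit 264) (.e (nat_lit 7936) (nat_lit 90) .nil)))) .nil)) 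
(.lf (nat_lit 38951) (.g (nat_lit 2662) (.e (nat_lit 1222) (nat_lit 90) (.e (nat_lit 81957) (nat_lit 24) (.e (nat_lit 123197) (nat_lit 266) (.e (nat_lit 57427) (nat_lit 15) (.e (nat_lit 360457) (nat_lit 0) (.e (nat_lit 5818) (nat_lit 320) .nil)))))) (.g (nat_lit 5) .nil .nil)))) (.nd (nat_lit 5) 
(.lf (nat_lit 38935) (.g (nat_lit 1135) (.e (nat_lit 1222) (nat_lit 90) (.e (nat_lit 81957) (nat_lit 24) (.e (nat_lit 123185) (nat_lit 264) (.e (nat_lit 1224) (nat_lit 90) (.e (nat_lit 81958) (nat_lit 24) .nil))))) .nil)) 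
(.lf (nat_lit 38967) (.g (nat_lit 2303) (.e (nat_lit 1222) (nat_lit 90) (.e (nat_lit 81959) (nat_lit 24) (.e (nat_lit 123182) (nat_lit 264) (.e (nat_lit 1218) (nat_lit 90) .nil)))) .nil)))) (.nd (nat_lit 4) (.nd (nat_lit 5) 
(.lf (nat_lit 38927) (.g (nat_lit 3201) (.e (nat_lit 1222) (nat_lit 90) (.e (nat_lit 81957) (nat_lit 24) (.e (nat_lit 123184) (nat_lit 264) (.e (nat_lit 1224) (nat_lit 90) (.e (nat_lit 81959) (nat_lit 24) (.e (nat_lit 123183) (nat_lit 264) .nil)))))) (.g (nat_lit 6) .nil .nil))) 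
(.lf (nat_lit 38959) (.g (nat_lit 3132) (.e (nat_lit 1222) (nat_lit 90) (.e (nat_lit 81957) (nat_lit 24) (.e (nat_lit 123198) (nat_lit 266) (.e (nat_lit 57424) (nat_lit 14) (.e (nat_lit 352318) (nat_lit 24) (.e (nat_lit 123185) (nat_lit 264) .nil)))))) (.g (nat_lit 6) .nil .nil)))) (.nd (nat_lit 5) 
(.lf (nat_lit 38943) (.g (nat_lit 2874) (.e (nat_lit 1222) (nat_lit 90) (.e (nat_lit 81957) (nat_lit 24) (.e (nat_lit 123197) (nat_lit 266) (.e (nat_lit 57423) (nat_lit 14) (.e (nat_lit 352318) (nat_lit 24) (.e (nat_lit 123183) (nat_lit 264) .nil)))))) (.g (nat_lit 5) .nil .nil))) 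
(.lf (nat_lit 38975) (.g (nat_lit 3723) (.e (nat_lit 1222) (nat_lit 90) (.e (nat_lit 81959) (nat_lit 24) (.e (nat_lit 123182) (nat_lit 264) (.e (nat_lit 1224) (nat_lit 90) (.e (nat_lit 81957) (nat_lit 24) (.e (nat_lit 123184) (nat_lit 264) .nil)))))) (.g (nat_lit 5) .nil .nil)))))))))

noncomputable def tv542 : DT := (.nd (nat_lit 0) (.nd (nat_lit 1) (.nd (nat_lit 2) (.nd (nat_lit 3) (.nd (nat_lit 4) (.nd (nat_lit 5) 
(.lf (nat_lit 38976) (.g (nat_lit 3018) (.e (nat_lit 1222) (nat_lit 90) (.e (nat_lit 81959) (nat_lit 24) (.e (nat_lit 123182) (nat_lit 264) (.e (nat_lit 1224) (nat_lit 90) (.e (nat_lit 81957) (nat_lit 24) (.e (nat_lit 123185) (nat_lit 264) .nil)))))) (.g (nat_lit 4) .nil .nil))) 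
(.lf (nat_lit 39008) (.g (nat_lit 1658) (.e (nat_lit 1222) (nat_lit 90) (.e (nat_lit 81959) (nat_lit 24) (.e (nat_lit 123198) (nat_lit 266) (.e (nat_lit 57427) (nat_lit 15) (.e (nat_lit 360456) (nat_lit 0) (.e (nat_lit 5818) (nat_lit 320) .nil)))))) (.g (nat_lit 4) .nil .nil)))) (.nd (nat_lit 5) 
(.lf (nat_lit 38992) (.g (nat_lit 3024) (.e (nat_lit 1222) (nat_lit 90) (.e (nat_lit 81959) (nat_lit 24) (.e (nat_lit 123195) (nat_lit 266) (.e (nat_lit 57425) (nat_lit 14) (.e (nat_lit 352318) (nat_lit 24) (.e (nat_lit 123182) (nat_lit 264) .nil)))))) (.g (nat_lit 4) .nil .nil))) 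
(.lf (nat_lit 39024) (.g (nat_lit 1652) (.e (nat_lit 1222) (nat_lit 90) (.e (nat_lit 81963) (nat_lit 26) (.e (nat_lit 147495) (nat_lit 11) (.e (nat_lit 24641) (nat_lit 10) (.e (nat_lit 344095) (nat_lit 18) (.e (nat_lit 7122) (nat_lit 382) .nil)))))) (.g (nat_lit 4) .nil .nil))))) (.nd (nat_lit 4) (.nd (nat_lit 5) 
(.lf (nat_lit 38984) (.g (nat_lit 1747) (.e (nat_lit 1222) (nat_lit 90) (.e (nat_lit 81959) (nat_lit 24) (.e (nat_lit 123184) (nat_lit 264) (.e (nat_lit 1224) (nat_lit 90) (.e (nat_lit 81957) (nat_lit 24) (.e (nat_lit 123185) (nat_lit 264) .nil)))))) (.g (nat_lit 4) .nil .nil))) 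
(.lf (nat_lit 39016) (.g (nat_lit 1977) (.e (nat_lit 1222) (nat_lit 90) (.e (nat_lit 81963) (nat_lit 26) (.e (nat_lit 147495) (nat_lit 11) (.e (nat_lit 24640) (nat_lit 10) (.e (nat_lit 344088) (nat_lit 18) (.e (nat_lit 7122) (nat_lit 382) .nil)))))) (.g (nat_lit 4) .nil .nil)))) (.nd (nat_lit 5) 
(.lf (nat_lit 39000) (.g (nat_lit 1804) (.e (nat_lit 1222) (nat_lit 90) (.e (nat_lit 81959) (nat_lit 24) (.e (nat_lit 123197) (nat_lit 266) (.e (nat_lit 57426) (nat_lit 15) (.e (nat_lit 360456) (nat_lit 0) (.e (nat_lit 5818) (nat_lit 320) .nil)))))) (.g (nat_lit 4) .nil .nil))) 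
(.lf (nat_lit 39032) (.g (nat_lit 1894) (.e (nat_lit 1222) (nat_lit 90) (.e (nat_lit 81963) (nat_lit 26) (.e (nat_lit 147496) (nat_lit 11) (.e (nat_lit 24640) (nat_lit 10) (.e (nat_lit 344095) (nat_lit 18) (.e (nat_lit 7125) (nat_lit 382) .nil)))))) (.g (nat_lit 4) .nil .nil)))))) (.nd (nat_lit 3) (.nd (nat_lit 4) (.nd (nat_lit 5) 
(.lf (nat_lit 38980) (.g (nat_lit 2378) (.e (nat_lit 1222) (nat_lit 90) (.e (nat_lit 81959) (nat_lit 24) (.e (nat_lit 123182) (nat_lit 264) (.e (nat_lit 7936) (nat_lit 90) .nil)))) .nil)) 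
(.lf (nat_lit 39012) (.g (nat_lit 2689) (.e (nat_lit 1222) (nat_lit 90) (.e (nat_lit 81963) (nat_lit 26) (.e (nat_lit 147467) (nat_lit 9) (.e (nat_lit 324) (nat_lit 24) (.e (nat_lit 360449) (nat_lit 0) (.e (nat_lit 7125) (nat_lit 382) .nil)))))) (.g (nat_lit 0) .nil .nil)))) (.nd (nat_lit 5) 
(.lf (nat_lit 38996) (.g (nat_lit 2369) (.e (nat_lit 1222) (nat_lit 90) (.e (nat_lit 81959) (nat_lit 24) (.e (nat_lit 123195) (nat_lit 266) (.e (nat_lit 57428) (nat_lit 15) .nil)))) .nil)) 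
(.lf (nat_lit 39028) (.g (nat_lit 887) (.e (nat_lit 1222) (nat_lit 90) (.e (nat_lit 81963) (nat_lit 26) (.e (nat_lit 147496) (nat_lit 11) (.e (nat_lit 24640) (nat_lit 10) .nil)))) .nil)))) (.nd (nat_lit 4) (.nd (nat_lit 5) 
(.lf (nat_lit 38988) (.g (nat_lit 842) (.e (nat_lit 1222) (nat_lit 90) (.e (nat_lit 81959) (nat_lit 24) (.e (nat_lit 123185) (nat_lit 264) (.e (nat_lit 7936) (nat_lit 90) .nil)))) .nil)) 
(.lf (nat_lit 39020) (.g (nat_lit 3759) (.e (nat_lit 1222) (nat_lit 90) (.e (nat_lit 81963) (nat_lit 26) (.e (nat_lit 147495) (nat_lit 11) (.e (nat_lit 24640) (nat_lit 10) (.e (nat_lit 344096) (nat_lit 18) (.e (nat_lit 7122) (nat_lit 382) .nil)))))) (.g (nat_lit 6) .nil .nil)))) (.nd (nat_lit 5) 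
(.lf (nat_lit 39004) (.g (nat_lit 2311) (.e (nat_lit 1222) (nat_lit 90) (.e (nat_lit 81959) (nat_lit 24) (.e (nat_lit 123198) (nat_lit 266) (.e (nat_lit 57424) (nat_lit 14) (.e (nat_lit 352317) (nat_lit 24) .nil))))) .nil)) 
(.lf (nat_lit 39036) (.g (nat_lit 2395) (.e (nat_lit 1222) (nat_lit 90) (.e (nat_lit 81963) (nat_lit 26) (.e (nat_lit 147496) (nat_lit 11) (.e (nat_lit 24641) (nat_lit 10) (.e (nat_lit 344091) (nat_lit 18) (.e (nat_lit 7125) (nat_lit 382) .nil)))))) (.g (nat_lit 5) .nil .nil))))))) (.nd (nat_lit 2) (.nd (nat_lit 3) (.nd (nat_lit 4) (.nd (nat_lit 5) 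
(.lf (nat_lit 38978) (.g (nat_lit 4064) (.e (nat_lit 1222) (nat_lit 90) (.e (nat_lit 81959) (nat_lit 24) (.e (nat_lit 123182) (nat_lit 264) (.e (nat_lit 1224) (nat_lit 90) (.e (nat_lit 81959) (nat_lit 24) (.e (nat_lit 123183) (nat_lit 264) .nil)))))) (.g (nat_lit 6) .nil .nil))) 
(.lf (nat_lit 39010) (.g (nat_lit 2903) (.e (nat_lit 1222) (nat_lit 90) (.e (nat_lit 81963) (nat_lit 26) (.e (nat_lit 147466) (nat_lit 9) (.e (nat_lit 321) (nat_lit 24) (.e (nat_lit 360449) (nat_lit 0) (.e (nat_lit 7125) (nat_lit 382) .nil)))))) (.g (nat_lit 0) .nil .nil)))) (.nd (nat_lit 5) 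
(.lf (nat_lit 38994) (.g (nat_lit 3406) (.e (nat_lit 1222) (nat_lit 90) (.e (nat_lit 81959) (nat_lit 24) (.e (nat_lit 123195) (nat_lit 266) (.e (nat_lit 57427) (nat_lit 15) (.e (nat_lit 360456) (nat_lit 0) .nil))))) .nil)) 
(.lf (nat_lit 39026) (.g (nat_lit 2247) (.e (nat_lit 1222) (nat_lit 90) (.e (nat_lit 81963) (nat_lit 26) (.e (nat_lit 147496) (nat_lit 11) (.e (nat_lit 24639) (nat_lit 10) (.e (nat_lit 344091) (nat_lit 18) (.e (nat_lit 7125) (nat_lit 382) .nil)))))) (.g (nat_lit 5) .nil .nil))))) (.nd (nat_lit 4) (.nd (nat_lit 5) 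
(.lf (nat_lit 38986) (.g (nat_lit 1866) (.e (nat_lit 1222) (nat_lit 90) (.e (nat_lit 81959) (nat_lit 24) (.e (nat_lit 123185) (nat_lit 264) (.e (nat_lit 1222) (nat_lit 90) (.e (nat_lit 81959) (nat_lit 24) .nil))))) .nil)) 
(.lf (nat_lit 39018) (.g (nat_lit 2668) (.e (nat_lit 1222) (nat_lit 90) (.e (nat_lit 81963) (nat_lit 26) (.e (nat_lit 147495) (nat_lit 11) (.e (nat_lit 24640) (nat_lit 10) (.e (nat_lit 344094) (nat_lit 18) (.e (nat_lit 7122) (nat_lit 382) .nil)))))) (.g (nat_lit 5) .nil .nil)))) (.nd (nat_lit 5) 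
(.lf (nat_lit 39002) (.g (nat_lit 1783) (.e (nat_lit 1222) (nat_lit 90) (.e (nat_lit 81959) (nat_lit 24) (.e (nat_lit 123197) (nat_lit 266) (.e (nat_lit 57427) (nat_lit 15) (.e (nat_lit 360457) (nat_lit 0) (.e (nat_lit 5818) (nat_lit 320) .nil)))))) (.g (nat_lit 4) .nil .nil))) 
(.lf (nat_lit 39034) (.g (nat_lit 2725) (.e (nat_lit 1222) (nat_lit 90) (.e (nat_lit 81963) (nat_lit 26) (.e (nat_lit 147496) (nat_lit 11) (.e (nat_lit 24640) (nat_lit 10) (.e (nat_lit 344096) (nat_lit 18) (.e (nat_lit 7124) (nat_lit 382) .nil)))))) (.g (nat_lit 5) .nil .nil)))))) (.nd (nat_lit 3) (.nd (nat_lit 4) (.nd (nat_lit 5) 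
(.lf (nat_lit 38982) (.g (nat_lit 2292) (.e (nat_lit 1222) (nat_lit 90) (.e (nat_lit 81959) (nat_lit 24) (.e (nat_lit 123184) (nat_lit 264) (.e (nat_lit 1222) (nat_lit 90) (.e (nat_lit 81959) (nat_lit 24) (.e (nat_lit 123184) (nat_lit 264) .nil)))))) (.g (nat_lit 4) .nil .nil))) 
(.lf (nat_lit 39014) (.g (nat_lit 3243) (.e (nat_lit 1222) (nat_lit 90) (.e (nat_lit 81963) (nat_lit 26) (.e (nat_lit 147495) (nat_lit 11) (.e (nat_lit 24639) (nat_lit 10) (.e (nat_lit 344090) (nat_lit 18) (.e (nat_lit 7125) (nat_lit 382) .nil)))))) (.g (nat_lit 0) .nil .nil)))) (.nd (nat_lit 5) 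
(.lf (nat_lit 38998) (.g (nat_lit 2375) (.e (nat_lit 1222) (nat_lit 90) (.e (nat_lit 81959) (nat_lit 24) (.e (nat_lit 123197) (nat_lit 266) (.e (nat_lit 57423) (nat_lit 14) (.e (nat_lit 352318) (nat_lit 24) (.e (nat_lit 123184) (nat_lit 264) .nil)))))) (.g (nat_lit 4) .nil .nil))) 
(.lf (nat_lit 39030) (.g (nat_lit 3402) (.e (nat_lit 1222) (nat_lit 90) (.e (nat_lit 81963) (nat_lit 26) (.e (nat_lit 147496) (nat_lit 11) (.e (nat_lit 24640) (nat_lit 10) (.e (nat_lit 344090) (nat_lit 18) (.e (nat_lit 7125) (nat_lit 382) .nil)))))) (.g (nat_lit 0) .nil .nil))))) (.nd (nat_lit 4) (.nd (nat_lit 5) 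
(.lf (nat_lit 38990) (.g (nat_lit 4977) (.e (nat_lit 1222) (nat_lit 90) (.e (nat_lit 81959) (nat_lit 24) (.e (nat_lit 123195) (nat_lit 266) (.e (nat_lit 57424) (nat_lit 14) (.e (nat_lit 352318) (nat_lit 24) (.e (nat_lit 123184) (nat_lit 264) .nil)))))) (.g (nat_lit 0) .nil .nil))) 
(.lf (nat_lit 39022) (.g (nat_lit 1045) (.e (nat_lit 1222) (nat_lit 90) (.e (nat_lit 81963) (nat_lit 26) (.e (nat_lit 147495) (nat_lit 11) (.e (nat_lit 24641) (nat_lit 10) .nil)))) .nil))) (.nd (nat_lit 5) 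
(.lf (nat_lit 39006) (.g (nat_lit 3221) (.e (nat_lit 1222) (nat_lit 90) (.e (nat_lit 81959) (nat_lit 24) (.e (nat_lit 123198) (nat_lit 266) (.e (nat_lit 57424) (nat_lit 14) (.e (nat_lit 352318) (nat_lit 24) (.e (nat_lit 123183) (nat_lit 264) .nil)))))) (.g (nat_lit 5) .nil .nil))) 
(.lf (nat_lit 39038) (.g (nat_lit 2430) (.e (nat_lit 1222) (nat_lit 90) (.e (nat_lit 81965) (nat_lit 26) (.e (nat_lit 147495) (nat_lit 11) (.e (nat_lit 24639) (nat_lit 10) (.e (nat_lit 344091) (nat_lit 18) (.e (nat_lit 7125) (nat_lit 382) .nil)))))) (.g (nat_lit 4) .nil .nil)))))))) (.nd (nat_lit 1) (.nd (nat_lit 2) (.nd (nat_lit 3) (.nd (nat_lit 4) (.nd (nat_lit 5) 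
(.lf (nat_lit 38977) (.g (nat_lit 2399) (.e (nat_lit 1222) (nat_lit 90) (.e (nat_lit 81959) (nat_lit 24) (.e (nat_lit 123182) (nat_lit 264) (.e (nat_lit 1224) (nat_lit 90) (.e (nat_lit 81958) (nat_lit 24) .nil))))) .nil)) 
(.lf (nat_lit 39009) (.g (nat_lit 1757) (.e (nat_lit 1222) (nat_lit 90) (.e (nat_lit 81959) (nat_lit 24) (.e (nat_lit 123198) (nat_lit 266) (.e (nat_lit 57427) (nat_lit 15) (.e (nat_lit 360457) (nat_lit 0) (.e (nat_lit 5818) (nat_lit 320) .nil)))))) (.g (nat_lit 4) .nil .nil)))) (.nd (nat_lit 5) 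
(.lf (nat_lit 38993) (.g (nat_lit 1860) (.e (nat_lit 1222) (nat_lit 90) (.e (nat_lit 81959) (nat_lit 24) (.e (nat_lit 123195) (nat_lit 266) (.e (nat_lit 57426) (nat_lit 15) .nil)))) .nil)) 
(.lf (nat_lit 39025) (.g (nat_lit 3150) (.e (nat_lit 1222) (nat_lit 90) (.e (nat_lit 81963) (nat_lit 26) (.e (nat_lit 147496) (nat_lit 11) (.e (nat_lit 24639) (nat_lit 10) (.e (nat_lit 344090) (nat_lit 18) (.e (nat_lit 7125) (nat_lit 382) .nil)))))) (.g (nat_lit 0) .nil .nil))))) (.nd (nat_lit 4) (.nd (nat_lit 5) 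
(.lf (nat_lit 38985) (.g (nat_lit 2578) (.e (nat_lit 1222) (nat_lit 90) (.e (nat_lit 81959) (nat_lit 24) (.e (nat_lit 123184) (nat_lit 264) (.e (nat_lit 1224) (nat_lit 90) (.e (nat_lit 81959) (nat_lit 24) (.e (nat_lit 123184) (nat_lit 264) .nil)))))) (.g (nat_lit 5) .nil .nil))) 
(.lf (nat_lit 39017) (.g (nat_lit 3426) (.e (nat_lit 1222) (nat_lit 90) (.e (nat_lit 81963) (nat_lit 26) (.e (nat_lit 147495) (nat_lit 11) (.e (nat_lit 24640) (nat_lit 10) (.e (nat_lit 344090) (nat_lit 18) (.e (nat_lit 7125) (nat_lit 382) .nil)))))) (.g (nat_lit 0) .nil .nil)))) (.nd (nat_lit 5) 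
(.lf (nat_lit 39001) (.g (nat_lit 1928) (.e (nat_lit 1222) (nat_lit 90) (.e (nat_lit 81959) (nat_lit 24) (.e (nat_lit 123197) (nat_lit 266) (.e (nat_lit 57427) (nat_lit 15) (.e (nat_lit 360456) (nat_lit 0) (.e (nat_lit 5818) (nat_lit 320) .nil)))))) (.g (nat_lit 4) .nil .nil))) 
(.lf (nat_lit 39033) (.g (nat_lit 3750) (.e (nat_lit 1222) (nat_lit 90) (.e (nat_lit 81963) (nat_lit 26) (.e (nat_lit 147496) (nat_lit 11) (.e (nat_lit 24640) (nat_lit 10) (.e (nat_lit 344096) (nat_lit 18) (.e (nat_lit 7122) (nat_lit 382) .nil)))))) (.g (nat_lit 6) .nil .nil)))))) (.nd (nat_lit 3) (.nd (nat_lit 4) (.nd (nat_lit 5) 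
(.lf (nat_lit 38981) (.g (nat_lit 2158) (.e (nat_lit 1222) (nat_lit 90) (.e (nat_lit 81959) (nat_lit 24) (.e (nat_lit 123183) (nat_lit 264) (.e (nat_lit 1222) (nat_lit 90) (.e (nat_lit 81959) (nat_lit 24) .nil))))) .nil)) 
(.lf (nat_lit 39013) (.g (nat_lit 2320) (.e (nat_lit 1222) (nat_lit 90) (.e (nat_lit 81963) (nat_lit 26) (.e (nat_lit 147495) (nat_lit 11) (.e (nat_lit 24639) (nat_lit 10) (.e (nat_lit 344090) (nat_lit 18) (.e (nat_lit 7122) (nat_lit 382) .nil)))))) (.g (nat_lit 5) .nil .nil)))) (.nd (nat_lit 5) 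
(.lf (nat_lit 38997) (.g (nat_lit 2093) (.e (nat_lit 1222) (nat_lit 90) (.e (nat_lit 81959) (nat_lit 24) (.e (nat_lit 123197) (nat_lit 266) (.e (nat_lit 57423) (nat_lit 14) (.e (nat_lit 352318) (nat_lit 24) (.e (nat_lit 123183) (nat_lit 264) .nil)))))) (.g (nat_lit 4) .nil .nil))) 
(.lf (nat_lit 39029) (.g (nat_lit 1875) (.e (nat_lit 1222) (nat_lit 90) (.e (nat_lit 81963) (nat_lit 26) (.e (nat_lit 147496) (nat_lit 11) (.e (nat_lit 24640) (nat_lit 10) (.e (nat_lit 344088) (nat_lit 18) (.e (nat_lit 7122) (nat_lit 382) .nil)))))) (.g (nat_lit 4) .nil .nil))))) (.nd (nat_lit 4) (.nd (nat_lit 5) 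
(.lf (nat_lit 38989) (.g (nat_lit 3308) (.e (nat_lit 1222) (nat_lit 90) (.e (nat_lit 81959) (nat_lit 24) (.e (nat_lit 123195) (nat_lit 266) (.e (nat_lit 57423) (nat_lit 14) (.e (nat_lit 352318) (nat_lit 24) .nil))))) .nil)) 
(.lf (nat_lit 39021) (.g (nat_lit 2720) (.e (nat_lit 1222) (nat_lit 90) (.e (nat_lit 81963) (nat_lit 26) (.e (nat_lit 147495) (nat_lit 11) (.e (nat_lit 24640) (nat_lit 10) (.e (nat_lit 344096) (nat_lit 18) (.e (nat_lit 7124) (nat_lit 382) .nil)))))) (.g (nat_lit 5) .nil .nil)))) (.nd (nat_lit 5) 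
(.lf (nat_lit 39005) (.g (nat_lit 3654) (.e (nat_lit 1222) (nat_lit 90) (.e (nat_lit 81959) (nat_lit 24) (.e (nat_lit 123198) (nat_lit 266) (.e (nat_lit 57424) (nat_lit 14) (.e (nat_lit 352318) (nat_lit 24) (.e (nat_lit 123182) (nat_lit 264) .nil)))))) (.g (nat_lit 6) .nil .nil))) 
(.lf (nat_lit 39037) (.g (nat_lit 1425) (.e (nat_lit 1222) (nat_lit 90) (.e (nat_lit 81965) (nat_lit 26) (.e (nat_lit 147466) (nat_lit 9) (.e (nat_lit 322) (nat_lit 24) .nil)))) .nil)))))) (.nd (nat_lit 2) (.nd (nat_lit 3) (.nd (nat_lit 4) (.nd (nat_lit 5) 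
(.lf (nat_lit 38979) (.g (nat_lit 3280) (.e (nat_lit 1222) (nat_lit 90) (.e (nat_lit 81959) (nat_lit 24) (.e (nat_lit 123182) (nat_lit 264) (.e (nat_lit 1224) (nat_lit 90) (.e (nat_lit 81959) (nat_lit 24) (.e (nat_lit 123185) (nat_lit 264) .nil)))))) (.g (nat_lit 5) .nil .nil))) 
(.lf (nat_lit 39011) (.g (nat_lit 2949) (.e (nat_lit 1222) (nat_lit 90) (.e (nat_lit 81963) (nat_lit 26) (.e (nat_lit 147466) (nat_lit 9) (.e (nat_lit 324) (nat_lit 24) (.e (nat_lit 360449) (nat_lit 0) (.e (nat_lit 7125) (nat_lit 382) .nil)))))) (.g (nat_lit 0) .nil .nil)))) (.nd (nat_lit 5) 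
(.lf (nat_lit 38995) (.g (nat_lit 3655) (.e (nat_lit 1222) (nat_lit 90) (.e (nat_lit 81959) (nat_lit 24) (.e (nat_lit 123195) (nat_lit 266) (.e (nat_lit 57427) (nat_lit 15) (.e (nat_lit 360457) (nat_lit 0) .nil))))) .nil)) 
(.lf (nat_lit 39027) (.g (nat_lit 3489) (.e (nat_lit 1222) (nat_lit 90) (.e (nat_lit 81963) (nat_lit 26) (.e (nat_lit 147496) (nat_lit 11) (.e (nat_lit 24639) (nat_lit 10) (.e (nat_lit 344096) (nat_lit 18) (.e (nat_lit 7125) (nat_lit 382) .nil)))))) (.g (nat_lit 0) .nil .nil))))) (.nd (nat_lit 4) (.nd (nat_lit 5) 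
(.lf (nat_lit 38987) (.g (nat_lit 1596) (.e (nat_lit 1222) (nat_lit 90) (.e (nat_lit 81959) (nat_lit 24) (.e (nat_lit 123185) (nat_lit 264) (.e (nat_lit 1224) (nat_lit 90) (.e (nat_lit 81957) (nat_lit 24) (.e (nat_lit 123185) (nat_lit 264) .nil)))))) (.g (nat_lit 4) .nil .nil))) 
(.lf (nat_lit 39019) (.g (nat_lit 1897) (.e (nat_lit 1222) (nat_lit 90) (.e (nat_lit 81963) (nat_lit 26) (.e (nat_lit 147495) (nat_lit 11) (.e (nat_lit 24640) (nat_lit 10) (.e (nat_lit 344095) (nat_lit 18) (.e (nat_lit 7125) (nat_lit 382) .nil)))))) (.g (nat_lit 4) .nil .nil)))) (.nd (nat_lit 5) 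
(.lf (nat_lit 39003) (.g (nat_lit 1777) (.e (nat_lit 1222) (nat_lit 90) (.e (nat_lit 81959) (nat_lit 24) (.e (nat_lit 123198) (nat_lit 266) (.e (nat_lit 57423) (nat_lit 14) (.e (nat_lit 352318) (nat_lit 24) .nil))))) .nil)) 
(.lf (nat_lit 39035) (.g (nat_lit 1734) (.e (nat_lit 1222) (nat_lit 90) (.e (nat_lit 81963) (nat_lit 26) (.e (nat_lit 147496) (nat_lit 11) (.e (nat_lit 24641) (nat_lit 10) (.e (nat_lit 344091) (nat_lit 18) .nil))))) .nil))))) (.nd (nat_lit 3) (.nd (nat_lit 4) (.nd (nat_lit 5) 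
(.lf (nat_lit 38983) (.g (nat_lit 2048) (.e (nat_lit 1222) (nat_lit 90) (.e (nat_lit 81959) (nat_lit 24) (.e (nat_lit 123184) (nat_lit 264) (.e (nat_lit 1224) (nat_lit 90) (.e (nat_lit 81957) (nat_lit 24) (.e (nat_lit 123183) (nat_lit 264) .nil)))))) (.g (nat_lit 4) .nil .nil))) 
(.lf (nat_lit 39015) (.g (nat_lit 2398) (.e (nat_lit 1222) (nat_lit 90) (.e (nat_lit 81963) (nat_lit 26) (.e (nat_lit 147495) (nat_lit 11) (.e (nat_lit 24639) (nat_lit 10) (.e (nat_lit 344091) (nat_lit 18) (.e (nat_lit 7125) (nat_lit 382) .nil)))))) (.g (nat_lit 5) .nil .nil)))) (.nd (nat_lit 5) 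
(.lf (nat_lit 38999) (.g (nat_lit 3174) (.e (nat_lit 1222) (nat_lit 90) (.e (nat_lit 81959) (nat_lit 24) (.e (nat_lit 123197) (nat_lit 266) (.e (nat_lit 57424) (nat_lit 14) (.e (nat_lit 352318) (nat_lit 24) (.e (nat_lit 123183) (nat_lit 264) .nil)))))) (.g (nat_lit 6) .nil .nil))) 
(.lf (nat_lit 39031) (.g (nat_lit 2736) (.e (nat_lit 1222) (nat_lit 90) (.e (nat_lit 81963) (nat_lit 26) (.e (nat_lit 147496) (nat_lit 11) (.e (nat_lit 24640) (nat_lit 10) (.e (nat_lit 344094) (nat_lit 18) (.e (nat_lit 7122) (nat_lit 382) .nil)))))) (.g (nat_lit 5) .nil .nil))))) (.nd (nat_lit 4) (.nd (nat_lit 5) 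
(.lf (nat_lit 38991) (.g (nat_lit 4127) (.e (nat_lit 1222) (nat_lit 90) (.e (nat_lit 81959) (nat_lit 24) (.e (nat_lit 123195) (nat_lit 266) (.e (nat_lit 57424) (nat_lit 14) (.e (nat_lit 352318) (nat_lit 24) (.e (nat_lit 123185) (nat_lit 264) .nil)))))) (.g (nat_lit 5) .nil .nil))) 
(.lf (nat_lit 39023) (.g (nat_lit 1894) (.e (nat_lit 1222) (nat_lit 90) (.e (nat_lit 81963) (nat_lit 26) (.e (nat_lit 147495) (nat_lit 11) (.e (nat_lit 24641) (nat_lit 10) (.e (nat_lit 344091) (nat_lit 18) (.e (nat_lit 7125) (nat_lit 382) .nil)))))) (.g (nat_lit 4) .nil .nil)))) (.nd (nat_lit 5) 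
(.lf (nat_lit 39007) (.g (nat_lit 3555) (.e (nat_lit 1222) (nat_lit 90) (.e (nat_lit 81959) (nat_lit 24) (.e (nat_lit 123198) (nat_lit 266) (.e (nat_lit 57424) (nat_lit 14) (.e (nat_lit 352318) (nat_lit 24) (.e (nat_lit 123184) (nat_lit 264) .nil)))))) (.g (nat_lit 6) .nil .nil))) 
(.lf (nat_lit 39039) (.g (nat_lit 2403) (.e (nat_lit 1222) (nat_lit 90) (.e (nat_lit 81965) (nat_lit 26) (.e (nat_lit 147495) (nat_lit 11) (.e (nat_lit 24639) (nat_lit 10) (.e (nat_lit 344095) (nat_lit 18) (.e (nat_lit 7122) (nat_lit 382) .nil)))))) (.g (nat_lit 4) .nil .nil)))))))))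

noncomputable def tv543 : DT := (.nd (nat_lit 0) (.nd (nat_lit 1) (.nd (nat_lit 2) (.nd (nat_lit 3) (.nd (nat_lit 4) (.nd (nat_lit 5) (.nd (nat_lit 6) 
(.lf (nat_lit 39040) (.g (nat_lit 2485) (.e (nat_lit 1222) (nat_lit 90) (.e (nat_lit 81965) (nat_lit 26) (.e (nat_lit 147495) (nat_lit 11) (.e (nat_lit 24640) (nat_lit 10) (.e (nat_lit 344088) (nat_lit 18) (.e (nat_lit 7125) (nat_lit 382) .nil)))))) (.g (nat_lit 4) .nil .nil))) 
(.lf (nat_lit 39104) (.g (nat_lit 3413) (.e (nat_lit 1223) (nat_lit 90) (.e (nat_lit 81956) (nat_lit 23) (.e (nat_lit 98389) (nat_lit 33) (.e (nat_lit 491560) (nat_lit 10) (.e (nat_lit 344088) (nat_lit 18) (.e (nat_lit 3920) (nat_lit 239) .nil)))))) (.g (nat_lit 4) .nil .nil)))) (.nd (nat_lit 6) 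
(.lf (nat_lit 39072) (.g (nat_lit 872) (.e (nat_lit 1223) (nat_lit 90) (.e (nat_lit 81939) (nat_lit 20) (.e (nat_lit 1962) (nat_lit 134) (.e (nat_lit 638985) (nat_lit 5) (.e (nat_lit 3015) (nat_lit 187) (.e (nat_lit 458496) (nat_lit 0) (.e (nat_lit 5057) (nat_lit 292) .nil))))))) (.g (nat_lit 5) .nil .nil))) 
(.lf (nat_lit 39136) (.g (nat_lit 2671) (.e (nat_lit 1223) (nat_lit 90) (.e (nat_lit 81959) (nat_lit 24) (.e (nat_lit 123195) (nat_lit 266) (.e (nat_lit 57424) (nat_lit 14) (.e (nat_lit 352318) (nat_lit 24) (.e (nat_lit 123184) (nat_lit 264) .nil)))))) (.g (nat_lit 4) .nil .nil))))) (.nd (nat_lit 5) (.nd (nat_lit 6) 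
(.lf (nat_lit 39056) (.g (nat_lit 2607) (.e (nat_lit 1222) (nat_lit 90) (.e (nat_lit 81965) (nat_lit 26) (.e (nat_lit 147496) (nat_lit 11) (.e (nat_lit 24640) (nat_lit 10) (.e (nat_lit 344094) (nat_lit 18) .nil))))) .nil)) 
(.lf (nat_lit 39120) (.g (nat_lit 2664) (.e (nat_lit 1223) (nat_lit 90) (.e (nat_lit 81959) (nat_lit 24) (.e (nat_lit 123182) (nat_lit 264) (.e (nat_lit 1224) (nat_lit 90) (.e (nat_lit 81957) (nat_lit 24) (.e (nat_lit 123182) (nat_lit 264) .nil)))))) (.g (nat_lit 4) .nil .nil)))) (.nd (nat_lit 6) 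
(.lf (nat_lit 39088) (.g (nat_lit 1190) (.e (nat_lit 1223) (nat_lit 90) (.e (nat_lit 81953) (nat_lit 22) (.e (nat_lit 90116) (nat_lit 0) (.e (nat_lit 7936) (nat_lit 35) .nil)))) .nil)) 
(.lf (nat_lit 39152) (.g (nat_lit 1566) (.e (nat_lit 1223) (nat_lit 90) (.e (nat_lit 81959) (nat_lit 24) (.e (nat_lit 123198) (nat_lit 266) (.e (nat_lit 57428) (nat_lit 15) (.e (nat_lit 360457) (nat_lit 0) (.e (nat_lit 5818) (nat_lit 320) .nil)))))) (.g (nat_lit 4) .nil .nil)))))) (.nd (nat_lit 4) (.nd (nat_lit 5) (.nd (nat_lit 6) 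
(.lf (nat_lit 39048) (.g (nat_lit 2697) (.e (nat_lit 1222) (nat_lit 90) (.e (nat_lit 81965) (nat_lit 26) (.e (nat_lit 147495) (nat_lit 11) (.e (nat_lit 24640) (nat_lit 10) (.e (nat_lit 344096) (nat_lit 18) (.e (nat_lit 7124) (nat_lit 382) .nil)))))) (.g (nat_lit 4) .nil .nil))) 
(.lf (nat_lit 39112) (.g (nat_lit 2380) (.e (nat_lit 1223) (nat_lit 90) (.e (nat_lit 81959) (nat_lit 24) (.e (nat_lit 123182) (nat_lit 264) (.e (nat_lit 1016) (nat_lit 81) .nil)))) .nil))) (.nd (nat_lit 6) 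
(.lf (nat_lit 39080) (.g (nat_lit 4178) (.e (nat_lit 1223) (nat_lit 90) (.e (nat_lit 81950) (nat_lit 21) (.e (nat_lit 57681) (nat_lit 155) (.e (nat_lit 122919) (nat_lit 15) (.e (nat_lit 360451) (nat_lit 0) (.e (nat_lit 7125) (nat_lit 382) .nil)))))) (.g (nat_lit 0) .nil .nil))) 
(.lf (nat_lit 39144) (.g (nat_lit 2870) (.e (nat_lit 1223) (nat_lit 90) (.e (nat_lit 81959) (nat_lit 24) (.e (nat_lit 123197) (nat_lit 266) (.e (nat_lit 57424) (nat_lit 14) (.e (nat_lit 352318) (nat_lit 24) (.e (nat_lit 123185) (nat_lit 264) .nil)))))) (.g (nat_lit 5) .nil .nil))))) (.nd (nat_lit 5) (.nd (nat_lit 6) 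
(.lf (nat_lit 39064) (.g (nat_lit 2490) (.e (nat_lit 1222) (nat_lit 90) (.e (nat_lit 81965) (nat_lit 26) (.e (nat_lit 147496) (nat_lit 11) (.e (nat_lit 24641) (nat_lit 10) (.e (nat_lit 344096) (nat_lit 18) (.e (nat_lit 7122) (nat_lit 382) .nil)))))) (.g (nat_lit 4) .nil .nil))) 
(.lf (nat_lit 39128) (.g (nat_lit 1908) (.e (nat_lit 1223) (nat_lit 90) (.e (nat_lit 81959) (nat_lit 24) (.e (nat_lit 123185) (nat_lit 264) (.e (nat_lit 1224) (nat_lit 90) (.e (nat_lit 81957) (nat_lit 24) (.e (nat_lit 123185) (nat_lit 264) .nil)))))) (.g (nat_lit 6) .nil .nil)))) (.nd (nat_lit 6) 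
(.lf (nat_lit 39096) (.g (nat_lit 1433) (.e (nat_lit 1223) (nat_lit 90) (.e (nat_lit 81956) (nat_lit 23) (.e (nat_lit 98314) (nat_lit 9) .nil))) .nil)) 
(.lf (nat_lit 39160) (.g (nat_lit 529) (.e (nat_lit 1223) (nat_lit 90) (.e (nat_lit 81965) (nat_lit 26) (.e (nat_lit 147492) (nat_lit 11) .nil))) .nil)))))) (.nd (nat_lit 3) (.nd (nat_lit 4) (.nd (nat_lit 5) (.nd (nat_lit 6) 
(.lf (nat_lit 39044) (.g (nat_lit 2651) (.e (nat_lit 1222) (nat_lit 90) (.e (nat_lit 81965) (nat_lit 26) (.e (nat_lit 147495) (nat_lit 11) (.e (nat_lit 24640) (nat_lit 10) (.e (nat_lit 344094) (nat_lit 18) .nil))))) .nil)) 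
(.lf (nat_lit 39108) (.g (nat_lit 4143) (.e (nat_lit 1223) (nat_lit 90) (.e (nat_lit 81956) (nat_lit 23) (.e (nat_lit 98389) (nat_lit 33) (.e (nat_lit 491563) (nat_lit 12) (.e (nat_lit 385045) (nat_lit 21) .nil))))) .nil))) (.nd (nat_lit 6) 
(.lf (nat_lit 39076) (.g (nat_lit 2180) (.e (nat_lit 1223) (nat_lit 90) (.e (nat_lit 81950) (nat_lit 21) (.e (nat_lit 57681) (nat_lit 155) (.e (nat_lit 122917) (nat_lit 15) .nil)))) .nil)) 
(.lf (nat_lit 39140) (.g (nat_lit 3303) (.e (nat_lit 1223) (nat_lit 90) (.e (nat_lit 81959) (nat_lit 24) (.e (nat_lit 123195) (nat_lit 266) (.e (nat_lit 57427) (nat_lit 15) (.e (nat_lit 360456) (nat_lit 0) (.e (nat_lit 5818) (nat_lit 320) .nil)))))) (.g (nat_lit 4) .nil .nil))))) (.nd (nat_lit 5) (.nd (nat_lit 6) 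
(.lf (nat_lit 39060) (.g (nat_lit 2601) (.e (nat_lit 1222) (nat_lit 90) (.e (nat_lit 81965) (nat_lit 26) (.e (nat_lit 147496) (nat_lit 11) (.e (nat_lit 24640) (nat_lit 10) (.e (nat_lit 344096) (nat_lit 18) (.e (nat_lit 7124) (nat_lit 382) .nil)))))) (.g (nat_lit 4) .nil .nil))) 
(.lf (nat_lit 39124) (.g (nat_lit 2137) (.e (nat_lit 1223) (nat_lit 90) (.e (nat_lit 81959) (nat_lit 24) (.e (nat_lit 123183) (nat_lit 264) (.e (nat_lit 1222) (nat_lit 90) (.e (nat_lit 81959) (nat_lit 24) .nil))))) .nil))) (.nd (nat_lit 6) 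
(.lf (nat_lit 39092) (.g (nat_lit 1929) (.e (nat_lit 1223) (nat_lit 90) (.e (nat_lit 81953) (nat_lit 22) (.e (nat_lit 90160) (nat_lit 11) (.e (nat_lit 32512) (nat_lit 20) .nil)))) .nil)) 
(.lf (nat_lit 39156) (.g (nat_lit 1414) (.e (nat_lit 1223) (nat_lit 90) (.e (nat_lit 81965) (nat_lit 26) (.e (nat_lit 147466) (nat_lit 9) (.e (nat_lit 324) (nat_lit 24) (.e (nat_lit 360449) (nat_lit 0) .nil))))) .nil))))) (.nd (nat_lit 4) (.nd (nat_lit 5) (.nd (nat_lit 6) 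
(.lf (nat_lit 39052) (.g (nat_lit 2467) (.e (nat_lit 1222) (nat_lit 90) (.e (nat_lit 81965) (nat_lit 26) (.e (nat_lit 147496) (nat_lit 11) (.e (nat_lit 24639) (nat_lit 10) (.e (nat_lit 344095) (nat_lit 18) (.e (nat_lit 7122) (nat_lit 382) .nil)))))) (.g (nat_lit 4) .nil .nil))) 
(.lf (nat_lit 39116) (.g (nat_lit 3305) (.e (nat_lit 1223) (nat_lit 90) (.e (nat_lit 81959) (nat_lit 24) (.e (nat_lit 123182) (nat_lit 264) (.e (nat_lit 1222) (nat_lit 90) (.e (nat_lit 81957) (nat_lit 24) (.e (nat_lit 123185) (nat_lit 264) .nil)))))) (.g (nat_lit 5) .nil .nil)))) (.nd (nat_lit 6) 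
(.lf (nat_lit 39084) (.g (nat_lit 1148) (.e (nat_lit 1223) (nat_lit 90) (.e (nat_lit 81950) (nat_lit 21) (.e (nat_lit 57872) (nat_lit 264) (.e (nat_lit 1221) (nat_lit 90) .nil)))) .nil)) 
(.lf (nat_lit 39148) (.g (nat_lit 1668) (.e (nat_lit 1223) (nat_lit 90) (.e (nat_lit 81959) (nat_lit 24) (.e (nat_lit 123198) (nat_lit 266) (.e (nat_lit 57423) (nat_lit 14) (.e (nat_lit 352318) (nat_lit 24) .nil))))) .nil)))) (.nd (nat_lit 5) (.nd (nat_lit 6) 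
(.lf (nat_lit 39068) (.g (nat_lit 1935) (.e (nat_lit 1223) (nat_lit 90) (.e (nat_lit 81938) (nat_lit 20) (.e (nat_lit 2281) (nat_lit 150) (.e (nat_lit 770072) (nat_lit 8) (.e (nat_lit 65610) (nat_lit 10) (.e (nat_lit 344090) (nat_lit 18) (.e (nat_lit 7125) (nat_lit 382) .nil))))))) (.g (nat_lit 4) .nil .nil))) 
(.lf (nat_lit 39132) (.g (nat_lit 3556) (.e (nat_lit 1223) (nat_lit 90) (.e (nat_lit 81959) (nat_lit 24) (.e (nat_lit 123194) (nat_lit 266) (.e (nat_lit 57424) (nat_lit 14) (.e (nat_lit 352318) (nat_lit 24) (.e (nat_lit 123185) (nat_lit 264) .nil)))))) (.g (nat_lit 5) .nil .nil)))) (.nd (nat_lit 6) 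
(.lf (nat_lit 39100) (.g (nat_lit 3092) (.e (nat_lit 1223) (nat_lit 90) (.e (nat_lit 81956) (nat_lit 23) (.e (nat_lit 98350) (nat_lit 24) (.e (nat_lit 409649) (nat_lit 18) .nil)))) .nil)) 
(.lf (nat_lit 39164) (.g (nat_lit 2336) (.e (nat_lit 1223) (nat_lit 90) (.e (nat_lit 81965) (nat_lit 26) (.e (nat_lit 147495) (nat_lit 11) (.e (nat_lit 24639) (nat_lit 10) (.e (nat_lit 344091) (nat_lit 18) (.e (nat_lit 7125) (nat_lit 382) .nil)))))) (.g (nat_lit 4) .nil .nil)))))))) (.nd (nat_lit 2) (.nd (nat_lit 3) (.nd (nat_lit 4) (.nd (nat_lit 5) (.nd (nat_lit 6) 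
(.lf (nat_lit 39042) (.g (nat_lit 2518) (.e (nat_lit 1222) (nat_lit 90) (.e (nat_lit 81965) (nat_lit 26) (.e (nat_lit 147495) (nat_lit 11) (.e (nat_lit 24640) (nat_lit 10) (.e (nat_lit 344091) (nat_lit 18) .nil))))) .nil)) 
(.lf (nat_lit 39106) (.g (nat_lit 3449) (.e (nat_lit 1223) (nat_lit 90) (.e (nat_lit 81956) (nat_lit 23) (.e (nat_lit 98389) (nat_lit 33) (.e (nat_lit 491560) (nat_lit 10) (.e (nat_lit 344089) (nat_lit 18) (.e (nat_lit 3920) (nat_lit 239) .nil)))))) (.g (nat_lit 4) .nil .nil)))) (.nd (nat_lit 6) 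
(.lf (nat_lit 39074) (.g (nat_lit 957) (.e (nat_lit 1223) (nat_lit 90) (.e (nat_lit 81939) (nat_lit 20) (.e (nat_lit 1963) (nat_lit 134) (.e (nat_lit 638986) (nat_lit 5) (.e (nat_lit 3015) (nat_lit 187) (.e (nat_lit 458496) (nat_lit 0) (.e (nat_lit 5057) (nat_lit 292) .nil))))))) (.g (nat_lit 5) .nil .nil))) 
(.lf (nat_lit 39138) (.g (nat_lit 1751) (.e (nat_lit 1223) (nat_lit 90) (.e (nat_lit 81959) (nat_lit 24) (.e (nat_lit 123195) (nat_lit 266) (.e (nat_lit 57425) (nat_lit 14) .nil)))) .nil)))) (.nd (nat_lit 5) (.nd (nat_lit 6) 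
(.lf (nat_lit 39058) (.g (nat_lit 2615) (.e (nat_lit 1222) (nat_lit 90) (.e (nat_lit 81965) (nat_lit 26) (.e (nat_lit 147496) (nat_lit 11) (.e (nat_lit 24640) (nat_lit 10) (.e (nat_lit 344095) (nat_lit 18) (.e (nat_lit 7122) (nat_lit 382) .nil)))))) (.g (nat_lit 4) .nil .nil))) 
(.lf (nat_lit 39122) (.g (nat_lit 2220) (.e (nat_lit 1223) (nat_lit 90) (.e (nat_lit 81959) (nat_lit 24) (.e (nat_lit 123182) (nat_lit 264) (.e (nat_lit 7936) (nat_lit 90) .nil)))) .nil))) (.nd (nat_lit 6) 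
(.lf (nat_lit 39090) (.g (nat_lit 1440) (.e (nat_lit 1223) (nat_lit 90) (.e (nat_lit 81953) (nat_lit 22) (.e (nat_lit 90156) (nat_lit 11) .nil))) .nil)) 
(.lf (nat_lit 39154) (.g (nat_lit 660) (.e (nat_lit 1223) (nat_lit 90) (.e (nat_lit 81965) (nat_lit 26) (.e (nat_lit 147464) (nat_lit 9) .nil))) .nil))))) (.nd (nat_lit 4) (.nd (nat_lit 5) (.nd (nat_lit 6) 
(.lf (nat_lit 39050) (.g (nat_lit 1519) (.e (nat_lit 1222) (nat_lit 90) (.e (nat_lit 81965) (nat_lit 26) (.e (nat_lit 147496) (nat_lit 11) (.e (nat_lit 24639) (nat_lit 10) .nil)))) .nil)) 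
(.lf (nat_lit 39114) (.g (nat_lit 2655) (.e (nat_lit 1223) (nat_lit 90) (.e (nat_lit 81959) (nat_lit 24) (.e (nat_lit 123182) (nat_lit 264) (.e (nat_lit 1218) (nat_lit 90) (.e (nat_lit 81959) (nat_lit 24) .nil))))) .nil))) (.nd (nat_lit 6) 
(.lf (nat_lit 39082) (.g (nat_lit 2672) (.e (nat_lit 1223) (nat_lit 90) (.e (nat_lit 81950) (nat_lit 21) (.e (nat_lit 57857) (nat_lit 254) (.e (nat_lit 163920) (nat_lit 14) (.e (nat_lit 442430) (nat_lit 24) (.e (nat_lit 229629) (nat_lit 226) .nil)))))) (.g (nat_lit 6) .nil .nil))) 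
(.lf (nat_lit 39146) (.g (nat_lit 2294) (.e (nat_lit 1223) (nat_lit 90) (.e (nat_lit 81959) (nat_lit 24) (.e (nat_lit 123197) (nat_lit 266) (.e (nat_lit 57427) (nat_lit 15) (.e (nat_lit 360457) (nat_lit 0) (.e (nat_lit 5818) (nat_lit 320) .nil)))))) (.g (nat_lit 5) .nil .nil))))) (.nd (nat_lit 5) (.nd (nat_lit 6) 
(.lf (nat_lit 39066) (.g (nat_lit 1462) (.e (nat_lit 1223) (nat_lit 90) (.e (nat_lit 81927) (nat_lit 11) (.e (nat_lit 426343) (nat_lit 14) (.e (nat_lit 491560) (nat_lit 10) .nil)))) .nil)) 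
(.lf (nat_lit 39130) (.g (nat_lit 746) (.e (nat_lit 1223) (nat_lit 90) (.e (nat_lit 81959) (nat_lit 24) (.e (nat_lit 123185) (nat_lit 264) (.e (nat_lit 7936) (nat_lit 90) .nil)))) .nil))) (.nd (nat_lit 6) 
(.lf (nat_lit 39098) (.g (nat_lit 934) (.e (nat_lit 1223) (nat_lit 90) (.e (nat_lit 81956) (nat_lit 23) (.e (nat_lit 98320) (nat_lit 17) .nil))) .nil)) 
(.lf (nat_lit 39162) (.g (nat_lit 1514) (.e (nat_lit 1223) (nat_lit 90) (.e (nat_lit 81965) (nat_lit 26) (.e (nat_lit 147494) (nat_lit 11) (.e (nat_lit 24665) (nat_lit 14) .nil)))) .nil)))))) (.nd (nat_lit 3) (.nd (nat_lit 4) (.nd (nat_lit 5) (.nd (nat_lit 6) 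
(.lf (nat_lit 39046) (.g (nat_lit 2680) (.e (nat_lit 1222) (nat_lit 90) (.e (nat_lit 81965) (nat_lit 26) (.e (nat_lit 147495) (nat_lit 11) (.e (nat_lit 24640) (nat_lit 10) (.e (nat_lit 344095) (nat_lit 18) (.e (nat_lit 7122) (nat_lit 382) .nil)))))) (.g (nat_lit 4) .nil .nil))) 
(.lf (nat_lit 39110) (.g (nat_lit 632) (.e (nat_lit 1223) (nat_lit 90) (.e (nat_lit 81957) (nat_lit 24) (.e (nat_lit 123182) (nat_lit 264) .nil))) .nil))) (.nd (nat_lit 6) 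
(.lf (nat_lit 39078) (.g (nat_lit 3536) (.e (nat_lit 1223) (nat_lit 90) (.e (nat_lit 81950) (nat_lit 21) (.e (nat_lit 57681) (nat_lit 155) (.e (nat_lit 122919) (nat_lit 15) (.e (nat_lit 360451) (nat_lit 0) (.e (nat_lit 7119) (nat_lit 382) .nil)))))) (.g (nat_lit 6) .nil .nil))) 
(.lf (nat_lit 39142) (.g (nat_lit 3049) (.e (nat_lit 1223) (nat_lit 90) (.e (nat_lit 81959) (nat_lit 24) (.e (nat_lit 123196) (nat_lit 266) (.e (nat_lit 57424) (nat_lit 14) (.e (nat_lit 352318) (nat_lit 24) (.e (nat_lit 123185) (nat_lit 264) .nil)))))) (.g (nat_lit 6) .nil .nil))))) (.nd (nat_lit 5) (.nd (nat_lit 6) 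
(.lf (nat_lit 39062) (.g (nat_lit 2604) (.e (nat_lit 1222) (nat_lit 90) (.e (nat_lit 81965) (nat_lit 26) (.e (nat_lit 147496) (nat_lit 11) (.e (nat_lit 24641) (nat_lit 10) (.e (nat_lit 344091) (nat_lit 18) (.e (nat_lit 7125) (nat_lit 382) .nil)))))) (.g (nat_lit 4) .nil .nil))) 
(.lf (nat_lit 39126) (.g (nat_lit 2081) (.e (nat_lit 1223) (nat_lit 90) (.e (nat_lit 81959) (nat_lit 24) (.e (nat_lit 123184) (nat_lit 264) (.e (nat_lit 1224) (nat_lit 90) (.e (nat_lit 81957) (nat_lit 24) (.e (nat_lit 123185) (nat_lit 264) .nil)))))) (.g (nat_lit 5) .nil .nil)))) (.nd (nat_lit 6) 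
(.lf (nat_lit 39094) (.g (nat_lit 1223) (.e (nat_lit 1223) (nat_lit 90) (.e (nat_lit 81956) (nat_lit 23) (.e (nat_lit 98311) (nat_lit 0) .nil))) .nil)) 
(.lf (nat_lit 39158) (.g (nat_lit 1407) (.e (nat_lit 1223) (nat_lit 90) (.e (nat_lit 81965) (nat_lit 26) (.e (nat_lit 147467) (nat_lit 9) (.e (nat_lit 324) (nat_lit 24) .nil)))) .nil))))) (.nd (nat_lit 4) (.nd (nat_lit 5) (.nd (nat_lit 6) 
(.lf (nat_lit 39054) (.g (nat_lit 2303) (.e (nat_lit 1222) (nat_lit 90) (.e (nat_lit 81965) (nat_lit 26) (.e (nat_lit 147496) (nat_lit 11) (.e (nat_lit 24640) (nat_lit 10) (.e (nat_lit 344090) (nat_lit 18) (.e (nat_lit 7122) (nat_lit 382) .nil)))))) (.g (nat_lit 4) .nil .nil))) 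
(.lf (nat_lit 39118) (.g (nat_lit 2130) (.e (nat_lit 1223) (nat_lit 90) (.e (nat_lit 81959) (nat_lit 24) (.e (nat_lit 123182) (nat_lit 264) (.e (nat_lit 1223) (nat_lit 90) .nil)))) .nil))) (.nd (nat_lit 6) 
(.lf (nat_lit 39086) (.g (nat_lit 2379) (.e (nat_lit 1223) (nat_lit 90) (.e (nat_lit 81950) (nat_lit 21) (.e (nat_lit 57873) (nat_lit 264) (.e (nat_lit 1219) (nat_lit 90) (.e (nat_lit 81957) (nat_lit 24) (.e (nat_lit 123185) (nat_lit 264) .nil)))))) (.g (nat_lit 0) .nil .nil))) 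
(.lf (nat_lit 39150) (.g (nat_lit 2042) (.e (nat_lit 1223) (nat_lit 90) (.e (nat_lit 81959) (nat_lit 24) (.e (nat_lit 123198) (nat_lit 266) (.e (nat_lit 57427) (nat_lit 15) (.e (nat_lit 360456) (nat_lit 0) (.e (nat_lit 5818) (nat_lit 320) .nil)))))) (.g (nat_lit 6) .nil .nil))))) (.nd (nat_lit 5) (.nd (nat_lit 6) 
(.lf (nat_lit 39070) (.g (nat_lit 2023) (.e (nat_lit 1223) (nat_lit 90) (.e (nat_lit 81938) (nat_lit 20) (.e (nat_lit 2281) (nat_lit 150) (.e (nat_lit 770072) (nat_lit 8) (.e (nat_lit 65617) (nat_lit 10) (.e (nat_lit 344096) (nat_lit 18) (.e (nat_lit 7125) (nat_lit 382) .nil))))))) (.g (nat_lit 4) .nil .nil))) 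
(.lf (nat_lit 39134) (.g (nat_lit 3209) (.e (nat_lit 1223) (nat_lit 90) (.e (nat_lit 81959) (nat_lit 24) (.e (nat_lit 123195) (nat_lit 266) (.e (nat_lit 57423) (nat_lit 14) (.e (nat_lit 352318) (nat_lit 24) .nil))))) .nil))) (.nd (nat_lit 6) 
(.lf (nat_lit 39102) (.g (nat_lit 3214) (.e (nat_lit 1223) (nat_lit 90) (.e (nat_lit 81956) (nat_lit 23) (.e (nat_lit 98388) (nat_lit 33) (.e (nat_lit 491566) (nat_lit 12) (.e (nat_lit 385045) (nat_lit 21) .nil))))) .nil)) 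
(.lf (nat_lit 39166) (.g (nat_lit 1274) (.e (nat_lit 1223) (nat_lit 90) (.e (nat_lit 81965) (nat_lit 26) (.e (nat_lit 147495) (nat_lit 11) (.e (nat_lit 24640) (nat_lit 10) .nil)))) .nil)))))))) (.nd (nat_lit 1) (.nd (nat_lit 2) (.nd (nat_lit 3) (.nd (nat_lit 4) (.nd (nat_lit 5) (.nd (nat_lit 6) 
(.lf (nat_lit 39041) (.g (nat_lit 2356) (.e (nat_lit 1222) (nat_lit 90) (.e (nat_lit 81965) (nat_lit 26) (.e (nat_lit 147495) (nat_lit 11) (.e (nat_lit 24640) (nat_lit 10) (.e (nat_lit 344090) (nat_lit 18) (.e (nat_lit 7122) (nat_lit 382) .nil)))))) (.g (nat_lit 4) .nil .nil))) 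
(.lf (nat_lit 39105) (.g (nat_lit 2862) (.e (nat_lit 1223) (nat_lit 90) (.e (nat_lit 81956) (nat_lit 23) (.e (nat_lit 98389) (nat_lit 33) (.e (nat_lit 491560) (nat_lit 10) (.e (nat_lit 344089) (nat_lit 18) (.e (nat_lit 3913) (nat_lit 239) .nil)))))) (.g (nat_lit 4) .nil .nil)))) (.nd (nat_lit 6) 
(.lf (nat_lit 39073) (.g (nat_lit 801) (.e (nat_lit 1223) (nat_lit 90) (.e (nat_lit 81939) (nat_lit 20) (.e (nat_lit 1962) (nat_lit 134) (.e (nat_lit 638985) (nat_lit 5) (.e (nat_lit 3022) (nat_lit 187) (.e (nat_lit 458496) (nat_lit 0) (.e (nat_lit 5057) (nat_lit 292) .nil))))))) (.g (nat_lit 5) .nil .nil))) 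
(.lf (nat_lit 39137) (.g (nat_lit 4439) (.e (nat_lit 1223) (nat_lit 90) (.e (nat_lit 81959) (nat_lit 24) (.e (nat_lit 123195) (nat_lit 266) (.e (nat_lit 57424) (nat_lit 14) (.e (nat_lit 352318) (nat_lit 24) (.e (nat_lit 123185) (nat_lit 264) .nil)))))) (.g (nat_lit 0) .nil .nil))))) (.nd (nat_lit 5) (.nd (nat_lit 6) 
(.lf (nat_lit 39057) (.g (nat_lit 3138) (.e (nat_lit 1222) (nat_lit 90) (.e (nat_lit 81965) (nat_lit 26) (.e (nat_lit 147496) (nat_lit 11) (.e (nat_lit 24640) (nat_lit 10) (.e (nat_lit 344094) (nat_lit 18) (.e (nat_lit 7125) (nat_lit 382) .nil)))))) (.g (nat_lit 4) .nil .nil))) 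
(.lf (nat_lit 39121) (.g (nat_lit 3214) (.e (nat_lit 1223) (nat_lit 90) (.e (nat_lit 81959) (nat_lit 24) (.e (nat_lit 123182) (nat_lit 264) (.e (nat_lit 1224) (nat_lit 90) (.e (nat_lit 81957) (nat_lit 24) (.e (nat_lit 123185) (nat_lit 264) .nil)))))) (.g (nat_lit 6) .nil .nil)))) (.nd (nat_lit 6) 
(.lf (nat_lit 39089) (.g (nat_lit 1259) (.e (nat_lit 1223) (nat_lit 90) (.e (nat_lit 81953) (nat_lit 22) (.e (nat_lit 90155) (nat_lit 10) .nil))) .nil)) 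
(.lf (nat_lit 39153) (.g (nat_lit 954) (.e (nat_lit 1223) (nat_lit 90) (.e (nat_lit 81965) (nat_lit 26) (.e (nat_lit 147463) (nat_lit 9) (.e (nat_lit 322) (nat_lit 24) .nil)))) .nil))))) (.nd (nat_lit 4) (.nd (nat_lit 5) (.nd (nat_lit 6) 
(.lf (nat_lit 39049) (.g (nat_lit 1406) (.e (nat_lit 1222) (nat_lit 90) (.e (nat_lit 81965) (nat_lit 26) (.e (nat_lit 147495) (nat_lit 11) (.e (nat_lit 24641) (nat_lit 10) .nil)))) .nil)) 
(.lf (nat_lit 39113) (.g (nat_lit 1919) (.e (nat_lit 1223) (nat_lit 90) (.e (nat_lit 81959) (nat_lit 24) (.e (nat_lit 123182) (nat_lit 264) (.e (nat_lit 1201) (nat_lit 88) .nil)))) .nil))) (.nd (nat_lit 6) 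
(.lf (nat_lit 39081) (.g (nat_lit 1763) (.e (nat_lit 1223) (nat_lit 90) (.e (nat_lit 81950) (nat_lit 21) (.e (nat_lit 57683) (nat_lit 155) (.e (nat_lit 122917) (nat_lit 15) (.e (nat_lit 360449) (nat_lit 0) (.e (nat_lit 7125) (nat_lit 382) .nil)))))) (.g (nat_lit 4) .nil .nil))) 
(.lf (nat_lit 39145) (.g (nat_lit 2316) (.e (nat_lit 1223) (nat_lit 90) (.e (nat_lit 81959) (nat_lit 24) (.e (nat_lit 123197) (nat_lit 266) (.e (nat_lit 57426) (nat_lit 15) (.e (nat_lit 360456) (nat_lit 0) (.e (nat_lit 5818) (nat_lit 320) .nil)))))) (.g (nat_lit 0) .nil .nil))))) (.nd (nat_lit 5) (.nd (nat_lit 6) 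
(.lf (nat_lit 39065) (.g (nat_lit 1443) (.e (nat_lit 1223) (nat_lit 90) (.e (nat_lit 81927) (nat_lit 11) (.e (nat_lit 426343) (nat_lit 14) (.e (nat_lit 491558) (nat_lit 10) .nil)))) .nil)) 
(.lf (nat_lit 39129) (.g (nat_lit 1770) (.e (nat_lit 1223) (nat_lit 90) (.e (nat_lit 81959) (nat_lit 24) (.e (nat_lit 123185) (nat_lit 264) (.e (nat_lit 1224) (nat_lit 90) (.e (nat_lit 81959) (nat_lit 24) (.e (nat_lit 123185) (nat_lit 264) .nil)))))) (.g (nat_lit 5) .nil .nil)))) (.nd (nat_lit 6) 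
(.lf (nat_lit 39097) (.g (nat_lit 1196) (.e (nat_lit 1223) (nat_lit 90) (.e (nat_lit 81956) (nat_lit 23) (.e (nat_lit 106240) (nat_lit 15) .nil))) .nil)) 
(.lf (nat_lit 39161) (.g (nat_lit 1531) (.e (nat_lit 1223) (nat_lit 90) (.e (nat_lit 81965) (nat_lit 26) (.e (nat_lit 147494) (nat_lit 11) (.e (nat_lit 24640) (nat_lit 10) .nil)))) .nil)))))) (.nd (nat_lit 3) (.nd (nat_lit 4) (.nd (nat_lit 5) (.nd (nat_lit 6) 
(.lf (nat_lit 39045) (.g (nat_lit 3267) (.e (nat_lit 1222) (nat_lit 90) (.e (nat_lit 81965) (nat_lit 26) (.e (nat_lit 147495) (nat_lit 11) (.e (nat_lit 24640) (nat_lit 10) (.e (nat_lit 344094) (nat_lit 18) (.e (nat_lit 7125) (nat_lit 382) .nil)))))) (.g (nat_lit 5) .nil .nil))) 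
(.lf (nat_lit 39109) (.g (nat_lit 4523) (.e (nat_lit 1223) (nat_lit 90) (.e (nat_lit 81956) (nat_lit 23) (.e (nat_lit 98389) (nat_lit 33) (.e (nat_lit 491563) (nat_lit 12) (.e (nat_lit 385046) (nat_lit 21) .nil))))) .nil))) (.nd (nat_lit 6) 
(.lf (nat_lit 39077) (.g (nat_lit 1597) (.e (nat_lit 1223) (nat_lit 90) (.e (nat_lit 81950) (nat_lit 21) (.e (nat_lit 57681) (nat_lit 155) (.e (nat_lit 122919) (nat_lit 15) (.e (nat_lit 360450) (nat_lit 0) .nil))))) .nil)) 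
(.lf (nat_lit 39141) (.g (nat_lit 3447) (.e (nat_lit 1223) (nat_lit 90) (.e (nat_lit 81959) (nat_lit 24) (.e (nat_lit 123195) (nat_lit 266) (.e (nat_lit 57427) (nat_lit 15) (.e (nat_lit 360457) (nat_lit 0) .nil))))) .nil)))) (.nd (nat_lit 5) (.nd (nat_lit 6) 
(.lf (nat_lit 39061) (.g (nat_lit 3872) (.e (nat_lit 1222) (nat_lit 90) (.e (nat_lit 81965) (nat_lit 26) (.e (nat_lit 147496) (nat_lit 11) (.e (nat_lit 24640) (nat_lit 10) (.e (nat_lit 344096) (nat_lit 18) (.e (nat_lit 7125) (nat_lit 382) .nil)))))) (.g (nat_lit 6) .nil .nil))) 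
(.lf (nat_lit 39125) (.g (nat_lit 2137) (.e (nat_lit 1223) (nat_lit 90) (.e (nat_lit 81959) (nat_lit 24) (.e (nat_lit 123184) (nat_lit 264) (.e (nat_lit 1222) (nat_lit 90) (.e (nat_lit 81959) (nat_lit 24) (.e (nat_lit 123185) (nat_lit 264) .nil)))))) (.g (nat_lit 4) .nil .nil)))) (.nd (nat_lit 6) 
(.lf (nat_lit 39093) (.g (nat_lit 1041) (.e (nat_lit 1223) (nat_lit 90) (.e (nat_lit 81956) (nat_lit 23) (.e (nat_lit 98309) (nat_lit 0) .nil))) .nil)) 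
(.lf (nat_lit 39157) (.g (nat_lit 1393) (.e (nat_lit 1223) (nat_lit 90) (.e (nat_lit 81965) (nat_lit 26) (.e (nat_lit 147467) (nat_lit 9) (.e (nat_lit 321) (nat_lit 24) .nil)))) .nil))))) (.nd (nat_lit 4) (.nd (nat_lit 5) (.nd (nat_lit 6) 
(.lf (nat_lit 39053) (.g (nat_lit 2318) (.e (nat_lit 1222) (nat_lit 90) (.e (nat_lit 81965) (nat_lit 26) (.e (nat_lit 147496) (nat_lit 11) (.e (nat_lit 24640) (nat_lit 10) (.e (nat_lit 344088) (nat_lit 18) (.e (nat_lit 7125) (nat_lit 382) .nil)))))) (.g (nat_lit 4) .nil .nil))) 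
(.lf (nat_lit 39117) (.g (nat_lit 2852) (.e (nat_lit 1223) (nat_lit 90) (.e (nat_lit 81959) (nat_lit 24) (.e (nat_lit 123182) (nat_lit 264) (.e (nat_lit 1222) (nat_lit 90) (.e (nat_lit 81959) (nat_lit 24) .nil))))) .nil))) (.nd (nat_lit 6) 
(.lf (nat_lit 39085) (.g (nat_lit 2082) (.e (nat_lit 1223) (nat_lit 90) (.e (nat_lit 81950) (nat_lit 21) (.e (nat_lit 57872) (nat_lit 264) (.e (nat_lit 1221) (nat_lit 90) (.e (nat_lit 81959) (nat_lit 24) (.e (nat_lit 123185) (nat_lit 264) .nil)))))) (.g (nat_lit 4) .nil .nil))) 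
(.lf (nat_lit 39149) (.g (nat_lit 1766) (.e (nat_lit 1223) (nat_lit 90) (.e (nat_lit 81959) (nat_lit 24) (.e (nat_lit 123198) (nat_lit 266) (.e (nat_lit 57424) (nat_lit 14) (.e (nat_lit 352318) (nat_lit 24) .nil))))) .nil)))) (.nd (nat_lit 5) (.nd (nat_lit 6) 
(.lf (nat_lit 39069) (.g (nat_lit 1982) (.e (nat_lit 1223) (nat_lit 90) (.e (nat_lit 81938) (nat_lit 20) (.e (nat_lit 2281) (nat_lit 150) (.e (nat_lit 770072) (nat_lit 8) (.e (nat_lit 65617) (nat_lit 10) (.e (nat_lit 344091) (nat_lit 18) (.e (nat_lit 7125) (nat_lit 382) .nil))))))) (.g (nat_lit 4) .nil .nil))) 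
(.lf (nat_lit 39133) (.g (nat_lit 1494) (.e (nat_lit 1223) (nat_lit 90) (.e (nat_lit 81959) (nat_lit 24) (.e (nat_lit 123195) (nat_lit 266) (.e (nat_lit 57354) (nat_lit 0) .nil)))) .nil))) (.nd (nat_lit 6) 
(.lf (nat_lit 39101) (.g (nat_lit 3433) (.e (nat_lit 1223) (nat_lit 90) (.e (nat_lit 81956) (nat_lit 23) (.e (nat_lit 98388) (nat_lit 33) (.e (nat_lit 491566) (nat_lit 12) (.e (nat_lit 385043) (nat_lit 21) .nil))))) .nil)) 
(.lf (nat_lit 39165) (.g (nat_lit 3524) (.e (nat_lit 1223) (nat_lit 90) (.e (nat_lit 81965) (nat_lit 26) (.e (nat_lit 147495) (nat_lit 11) (.e (nat_lit 24639) (nat_lit 10) (.e (nat_lit 344096) (nat_lit 18) (.e (nat_lit 7125) (nat_lit 382) .nil)))))) (.g (nat_lit 6) .nil .nil)))))))) (.nd (nat_lit 2) (.nd (nat_lit 3) (.nd (nat_lit 4) (.nd (nat_lit 5) (.nd (nat_lit 6) 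
(.lf (nat_lit 39043) (.g (nat_lit 3019) (.e (nat_lit 1222) (nat_lit 90) (.e (nat_lit 81965) (nat_lit 26) (.e (nat_lit 147495) (nat_lit 11) (.e (nat_lit 24640) (nat_lit 10) (.e (nat_lit 344091) (nat_lit 18) (.e (nat_lit 7125) (nat_lit 382) .nil)))))) (.g (nat_lit 4) .nil .nil))) 
(.lf (nat_lit 39107) (.g (nat_lit 2910) (.e (nat_lit 1223) (nat_lit 90) (.e (nat_lit 81956) (nat_lit 23) (.e (nat_lit 98389) (nat_lit 33) (.e (nat_lit 491562) (nat_lit 12) (.e (nat_lit 385047) (nat_lit 21) .nil))))) .nil))) (.nd (nat_lit 6) 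
(.lf (nat_lit 39075) (.g (nat_lit 883) (.e (nat_lit 1223) (nat_lit 90) (.e (nat_lit 81939) (nat_lit 20) (.e (nat_lit 1963) (nat_lit 134) (.e (nat_lit 638986) (nat_lit 5) (.e (nat_lit 3022) (nat_lit 187) (.e (nat_lit 458496) (nat_lit 0) (.e (nat_lit 5057) (nat_lit 292) .nil))))))) (.g (nat_lit 5) .nil .nil))) 
(.lf (nat_lit 39139) (.g (nat_lit 2803) (.e (nat_lit 1223) (nat_lit 90) (.e (nat_lit 81959) (nat_lit 24) (.e (nat_lit 123195) (nat_lit 266) (.e (nat_lit 57425) (nat_lit 14) (.e (nat_lit 352318) (nat_lit 24) (.e (nat_lit 123185) (nat_lit 264) .nil)))))) (.g (nat_lit 5) .nil .nil))))) (.nd (nat_lit 5) (.nd (nat_lit 6) 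
(.lf (nat_lit 39059) (.g (nat_lit 3415) (.e (nat_lit 1222) (nat_lit 90) (.e (nat_lit 81965) (nat_lit 26) (.e (nat_lit 147496) (nat_lit 11) (.e (nat_lit 24640) (nat_lit 10) (.e (nat_lit 344096) (nat_lit 18) (.e (nat_lit 7122) (nat_lit 382) .nil)))))) (.g (nat_lit 5) .nil .nil))) 
(.lf (nat_lit 39123) (.g (nat_lit 2501) (.e (nat_lit 1223) (nat_lit 90) (.e (nat_lit 81959) (nat_lit 24) (.e (nat_lit 123183) (nat_lit 264) (.e (nat_lit 1222) (nat_lit 90) (.e (nat_lit 81957) (nat_lit 24) (.e (nat_lit 123185) (nat_lit 264) .nil)))))) (.g (nat_lit 5) .nil .nil)))) (.nd (nat_lit 6) 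
(.lf (nat_lit 39091) (.g (nat_lit 1553) (.e (nat_lit 1223) (nat_lit 90) (.e (nat_lit 81953) (nat_lit 22) (.e (nat_lit 90157) (nat_lit 11) (.e (nat_lit 32512) (nat_lit 20) .nil)))) .nil)) 
(.lf (nat_lit 39155) (.g (nat_lit 1220) (.e (nat_lit 1223) (nat_lit 90) (.e (nat_lit 81965) (nat_lit 26) (.e (nat_lit 147466) (nat_lit 9) (.e (nat_lit 321) (nat_lit 24) .nil)))) .nil))))) (.nd (nat_lit 4) (.nd (nat_lit 5) (.nd (nat_lit 6) 
(.lf (nat_lit 39051) (.g (nat_lit 2306) (.e (nat_lit 1222) (nat_lit 90) (.e (nat_lit 81965) (nat_lit 26) (.e (nat_lit 147496) (nat_lit 11) (.e (nat_lit 24639) (nat_lit 10) (.e (nat_lit 344091) (nat_lit 18) (.e (nat_lit 7125) (nat_lit 382) .nil)))))) (.g (nat_lit 4) .nil .nil))) 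
(.lf (nat_lit 39115) (.g (nat_lit 2598) (.e (nat_lit 1223) (nat_lit 90) (.e (nat_lit 81959) (nat_lit 24) (.e (nat_lit 123182) (nat_lit 264) (.e (nat_lit 1222) (nat_lit 90) (.e (nat_lit 81957) (nat_lit 24) .nil))))) .nil))) (.nd (nat_lit 6) 
(.lf (nat_lit 39083) (.g (nat_lit 1605) (.e (nat_lit 1223) (nat_lit 90) (.e (nat_lit 81950) (nat_lit 21) (.e (nat_lit 57871) (nat_lit 264) (.e (nat_lit 1219) (nat_lit 90) (.e (nat_lit 81957) (nat_lit 24) (.e (nat_lit 123185) (nat_lit 264) .nil)))))) (.g (nat_lit 4) .nil .nil))) 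
(.lf (nat_lit 39147) (.g (nat_lit 1629) (.e (nat_lit 1223) (nat_lit 90) (.e (nat_lit 81959) (nat_lit 24) (.e (nat_lit 123197) (nat_lit 266) (.e (nat_lit 57428) (nat_lit 15) (.e (nat_lit 360457) (nat_lit 0) .nil))))) .nil)))) (.nd (nat_lit 5) (.nd (nat_lit 6) 
(.lf (nat_lit 39067) (.g (nat_lit 493) (.e (nat_lit 1223) (nat_lit 90) (.e (nat_lit 81938) (nat_lit 20) (.e (nat_lit 2006) (nat_lit 138) .nil))) .nil)) 
(.lf (nat_lit 39131) (.g (nat_lit 1972) (.e (nat_lit 1223) (nat_lit 90) (.e (nat_lit 81959) (nat_lit 24) (.e (nat_lit 123194) (nat_lit 266) (.e (nat_lit 57424) (nat_lit 14) (.e (nat_lit 352318) (nat_lit 24) .nil))))) .nil))) (.nd (nat_lit 6) 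
(.lf (nat_lit 39099) (.g (nat_lit 1298) (.e (nat_lit 1223) (nat_lit 90) (.e (nat_lit 81956) (nat_lit 23) (.e (nat_lit 98350) (nat_lit 24) .nil))) .nil)) 
(.lf (nat_lit 39163) (.g (nat_lit 1264) (.e (nat_lit 1223) (nat_lit 90) (.e (nat_lit 81965) (nat_lit 26) (.e (nat_lit 147495) (nat_lit 11) (.e (nat_lit 24639) (nat_lit 10) .nil)))) .nil)))))) (.nd (nat_lit 3) (.nd (nat_lit 4) (.nd (nat_lit 5) (.nd (nat_lit 6) 
(.lf (nat_lit 39047) (.g (nat_lit 3525) (.e (nat_lit 1222) (nat_lit 90) (.e (nat_lit 81965) (nat_lit 26) (.e (nat_lit 147495) (nat_lit 11) (.e (nat_lit 24640) (nat_lit 10) (.e (nat_lit 344096) (nat_lit 18) (.e (nat_lit 7122) (nat_lit 382) .nil)))))) (.g (nat_lit 5) .nil .nil))) 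
(.lf (nat_lit 39111) (.g (nat_lit 1616) (.e (nat_lit 1223) (nat_lit 90) (.e (nat_lit 81957) (nat_lit 24) (.e (nat_lit 123182) (nat_lit 264) (.e (nat_lit 1222) (nat_lit 90) .nil)))) .nil))) (.nd (nat_lit 6) 
(.lf (nat_lit 39079) (.g (nat_lit 3028) (.e (nat_lit 1223) (nat_lit 90) (.e (nat_lit 81950) (nat_lit 21) (.e (nat_lit 57681) (nat_lit 155) (.e (nat_lit 122919) (nat_lit 15) (.e (nat_lit 360451) (nat_lit 0) (.e (nat_lit 7122) (nat_lit 382) .nil)))))) (.g (nat_lit 5) .nil .nil))) 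
(.lf (nat_lit 39143) (.g (nat_lit 2015) (.e (nat_lit 1223) (nat_lit 90) (.e (nat_lit 81959) (nat_lit 24) (.e (nat_lit 123197) (nat_lit 266) (.e (nat_lit 57423) (nat_lit 14) (.e (nat_lit 352318) (nat_lit 24) (.e (nat_lit 123185) (nat_lit 264) .nil)))))) (.g (nat_lit 4) .nil .nil))))) (.nd (nat_lit 5) (.nd (nat_lit 6) 
(.lf (nat_lit 39063) (.g (nat_lit 2299) (.e (nat_lit 1222) (nat_lit 90) (.e (nat_lit 81965) (nat_lit 26) (.e (nat_lit 147496) (nat_lit 11) (.e (nat_lit 24641) (nat_lit 10) (.e (nat_lit 344095) (nat_lit 18) (.e (nat_lit 7122) (nat_lit 382) .nil)))))) (.g (nat_lit 4) .nil .nil))) 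
(.lf (nat_lit 39127) (.g (nat_lit 1914) (.e (nat_lit 1223) (nat_lit 90) (.e (nat_lit 81959) (nat_lit 24) (.e (nat_lit 123185) (nat_lit 264) (.e (nat_lit 1223) (nat_lit 90) (.e (nat_lit 81959) (nat_lit 24) (.e (nat_lit 123185) (nat_lit 264) .nil)))))) (.g (nat_lit 5) .nil .nil)))) (.nd (nat_lit 6) 
(.lf (nat_lit 39095) (.g (nat_lit 1446) (.e (nat_lit 1223) (nat_lit 90) (.e (nat_lit 81956) (nat_lit 23) (.e (nat_lit 98312) (nat_lit 9) .nil))) .nil)) 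
(.lf (nat_lit 39159) (.g (nat_lit 647) (.e (nat_lit 1223) (nat_lit 90) (.e (nat_lit 81965) (nat_lit 26) (.e (nat_lit 147478) (nat_lit 9) .nil))) .nil))))) (.nd (nat_lit 4) (.nd (nat_lit 5) (.nd (nat_lit 6) 
(.lf (nat_lit 39055) (.g (nat_lit 2834) (.e (nat_lit 1222) (nat_lit 90) (.e (nat_lit 81965) (nat_lit 26) (.e (nat_lit 147496) (nat_lit 11) (.e (nat_lit 24640) (nat_lit 10) (.e (nat_lit 344091) (nat_lit 18) (.e (nat_lit 7125) (nat_lit 382) .nil)))))) (.g (nat_lit 4) .nil .nil))) 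
(.lf (nat_lit 39119) (.g (nat_lit 1559) (.e (nat_lit 1223) (nat_lit 90) (.e (nat_lit 81959) (nat_lit 24) (.e (nat_lit 123182) (nat_lit 264) (.e (nat_lit 1224) (nat_lit 90) .nil)))) .nil))) (.nd (nat_lit 6) 
(.lf (nat_lit 39087) (.g (nat_lit 2727) (.e (nat_lit 1223) (nat_lit 90) (.e (nat_lit 81950) (nat_lit 21) (.e (nat_lit 57873) (nat_lit 264) (.e (nat_lit 1221) (nat_lit 90) (.e (nat_lit 81959) (nat_lit 24) (.e (nat_lit 123185) (nat_lit 264) .nil)))))) (.g (nat_lit 0) .nil .nil))) 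
(.lf (nat_lit 39151) (.g (nat_lit 2134) (.e (nat_lit 1223) (nat_lit 90) (.e (nat_lit 81959) (nat_lit 24) (.e (nat_lit 123198) (nat_lit 266) (.e (nat_lit 57427) (nat_lit 15) (.e (nat_lit 360457) (nat_lit 0) (.e (nat_lit 5818) (nat_lit 320) .nil)))))) (.g (nat_lit 5) .nil .nil))))) (.nd (nat_lit 5) (.nd (nat_lit 6) 
(.lf (nat_lit 39071) (.g (nat_lit 1814) (.e (nat_lit 1223) (nat_lit 90) (.e (nat_lit 81938) (nat_lit 20) (.e (nat_lit 2281) (nat_lit 150) (.e (nat_lit 770072) (nat_lit 8) (.e (nat_lit 65619) (nat_lit 10) (.e (nat_lit 344090) (nat_lit 18) (.e (nat_lit 7125) (nat_lit 382) .nil))))))) (.g (nat_lit 4) .nil .nil))) 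
(.lf (nat_lit 39135) (.g (nat_lit 3234) (.e (nat_lit 1223) (nat_lit 90) (.e (nat_lit 81959) (nat_lit 24) (.e (nat_lit 123195) (nat_lit 266) (.e (nat_lit 57424) (nat_lit 14) (.e (nat_lit 352318) (nat_lit 24) (.e (nat_lit 123182) (nat_lit 264) .nil)))))) (.g (nat_lit 5) .nil .nil)))) (.nd (nat_lit 6) 
(.lf (nat_lit 39103) (.g (nat_lit 704) (.e (nat_lit 1223) (nat_lit 90) (.e (nat_lit 81956) (nat_lit 23) (.e (nat_lit 98389) (nat_lit 33) .nil))) .nil)) 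
(.lf (nat_lit 39167) (.g (nat_lit 2165) (.e (nat_lit 1223) (nat_lit 90) (.e (nat_lit 81965) (nat_lit 26) (.e (nat_lit 147495) (nat_lit 11) (.e (nat_lit 24640) (nat_lit 10) (.e (nat_lit 344088) (nat_lit 18) .nil))))) .nil)))))))))

noncomputable def tv544 : DT := (.nd (nat_lit 0) (.nd (nat_lit 1) (.nd (nat_lit 2) (.nd (nat_lit 3) (.nd (nat_lit 4) (.nd (nat_lit 5) 
(.lf (nat_lit 39168) (.g (nat_lit 2064) (.e (nat_lit 1223) (nat_lit 90) (.e (nat_lit 81965) (nat_lit 26) (.e (nat_lit 147495) (nat_lit 11) (.e (nat_lit 24640) (nat_lit 10) (.e (nat_lit 344090) (nat_lit 18) .nil))))) .nil)) 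
(.lf (nat_lit 39200) (.g (nat_lit 2130) (.e (nat_lit 1224) (nat_lit 90) (.e (nat_lit 81922) (nat_lit 0) (.e (nat_lit 3631) (nat_lit 227) (.e (nat_lit 778327) (nat_lit 6) (.e (nat_lit 81959) (nat_lit 24) (.e (nat_lit 123185) (nat_lit 264) .nil)))))) (.g (nat_lit 0) .nil .nil)))) (.nd (nat_lit 5) 
(.lf (nat_lit 39184) (.g (nat_lit 2308) (.e (nat_lit 1223) (nat_lit 90) (.e (nat_lit 81965) (nat_lit 26) (.e (nat_lit 147496) (nat_lit 11) (.e (nat_lit 24640) (nat_lit 10) (.e (nat_lit 344096) (nat_lit 18) .nil))))) .nil)) 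
(.lf (nat_lit 39216) (.g (nat_lit 3082) (.e (nat_lit 1224) (nat_lit 90) (.e (nat_lit 81925) (nat_lit 11) (.e (nat_lit 426012) (nat_lit 0) (.e (nat_lit 7593) (nat_lit 407) (.e (nat_lit 73731) (nat_lit 0) (.e (nat_lit 7125) (nat_lit 382) .nil)))))) (.g (nat_lit 0) .nil .nil))))) (.nd (nat_lit 4) (.nd (nat_lit 5) 
(.lf (nat_lit 39176) (.g (nat_lit 3219) (.e (nat_lit 1223) (nat_lit 90) (.e (nat_lit 81965) (nat_lit 26) (.e (nat_lit 147496) (nat_lit 11) (.e (nat_lit 24639) (nat_lit 10) (.e (nat_lit 344090) (nat_lit 18) (.e (nat_lit 7125) (nat_lit 382) .nil)))))) (.g (nat_lit 6) .nil .nil))) 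
(.lf (nat_lit 39208) (.g (nat_lit 2265) (.e (nat_lit 1224) (nat_lit 90) (.e (nat_lit 81922) (nat_lit 0) (.e (nat_lit 3747) (nat_lit 228) (.e (nat_lit 786483) (nat_lit 30) (.e (nat_lit 360456) (nat_lit 0) (.e (nat_lit 5818) (nat_lit 320) .nil)))))) (.g (nat_lit 6) .nil .nil)))) (.nd (nat_lit 5) 
(.lf (nat_lit 39192) (.g (nat_lit 1400) (.e (nat_lit 1224) (nat_lit 90) (.e (nat_lit 81922) (nat_lit 0) (.e (nat_lit 3630) (nat_lit 227) (.e (nat_lit 778327) (nat_lit 6) (.e (nat_lit 81957) (nat_lit 24) (.e (nat_lit 123185) (nat_lit 264) .nil)))))) (.g (nat_lit 5) .nil .nil))) 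
(.lf (nat_lit 39224) (.g (nat_lit 1808) (.e (nat_lit 1224) (nat_lit 90) (.e (nat_lit 81925) (nat_lit 11) (.e (nat_lit 426199) (nat_lit 9) (.e (nat_lit 426448) (nat_lit 20) (.e (nat_lit 114712) (nat_lit 21) .nil))))) .nil))))) (.nd (nat_lit 3) (.nd (nat_lit 4) (.nd (nat_lit 5) 
(.lf (nat_lit 39172) (.g (nat_lit 2250) (.e (nat_lit 1223) (nat_lit 90) (.e (nat_lit 81965) (nat_lit 26) (.e (nat_lit 147495) (nat_lit 11) (.e (nat_lit 24640) (nat_lit 10) (.e (nat_lit 344095) (nat_lit 18) .nil))))) .nil)) 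
(.lf (nat_lit 39204) (.g (nat_lit 2116) (.e (nat_lit 1224) (nat_lit 90) (.e (nat_lit 81922) (nat_lit 0) (.e (nat_lit 3632) (nat_lit 227) (.e (nat_lit 778327) (nat_lit 6) (.e (nat_lit 81959) (nat_lit 24) (.e (nat_lit 123185) (nat_lit 264) .nil)))))) (.g (nat_lit 0) .nil .nil)))) (.nd (nat_lit 5) 
(.lf (nat_lit 39188) (.g (nat_lit 2850) (.e (nat_lit 1224) (nat_lit 90) (.e (nat_lit 81920) (nat_lit 0) (.e (nat_lit 3715) (nat_lit 227) (.e (nat_lit 778325) (nat_lit 6) (.e (nat_lit 81957) (nat_lit 24) (.e (nat_lit 123182) (nat_lit 264) .nil)))))) (.g (nat_lit 0) .nil .nil))) 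
(.lf (nat_lit 39220) (.g (nat_lit 1970) (.e (nat_lit 1224) (nat_lit 90) (.e (nat_lit 81925) (nat_lit 11) (.e (nat_lit 426189) (nat_lit 9) (.e (nat_lit 426446) (nat_lit 20) (.e (nat_lit 114710) (nat_lit 21) (.e (nat_lit 57830) (nat_lit 250) .nil)))))) (.g (nat_lit 5) .nil .nil))))) (.nd (nat_lit 4) (.nd (nat_lit 5) 
(.lf (nat_lit 39180) (.g (nat_lit 2251) (.e (nat_lit 1223) (nat_lit 90) (.e (nat_lit 81965) (nat_lit 26) (.e (nat_lit 147496) (nat_lit 11) (.e (nat_lit 24640) (nat_lit 10) (.e (nat_lit 344088) (nat_lit 18) .nil))))) .nil)) 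
(.lf (nat_lit 39212) (.g (nat_lit 2078) (.e (nat_lit 1224) (nat_lit 90) (.e (nat_lit 81922) (nat_lit 0) (.e (nat_lit 3748) (nat_lit 228) (.e (nat_lit 786481) (nat_lit 30) (.e (nat_lit 360457) (nat_lit 0) (.e (nat_lit 5818) (nat_lit 320) .nil)))))) (.g (nat_lit 0) .nil .nil)))) (.nd (nat_lit 5) 
(.lf (nat_lit 39196) (.g (nat_lit 2317) (.e (nat_lit 1224) (nat_lit 90) (.e (nat_lit 81922) (nat_lit 0) (.e (nat_lit 3631) (nat_lit 227) (.e (nat_lit 778326) (nat_lit 6) (.e (nat_lit 81959) (nat_lit 24) (.e (nat_lit 123184) (nat_lit 264) .nil)))))) (.g (nat_lit 0) .nil .nil))) 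
(.lf (nat_lit 39228) (.g (nat_lit 1362) (.e (nat_lit 1224) (nat_lit 90) (.e (nat_lit 81925) (nat_lit 11) (.e (nat_lit 426306) (nat_lit 12) (.e (nat_lit 475214) (nat_lit 42) .nil)))) .nil)))))) (.nd (nat_lit 2) (.nd (nat_lit 3) (.nd (nat_lit 4) (.nd (nat_lit 5) 
(.lf (nat_lit 39170) (.g (nat_lit 2943) (.e (nat_lit 1223) (nat_lit 90) (.e (nat_lit 81965) (nat_lit 26) (.e (nat_lit 147495) (nat_lit 11) (.e (nat_lit 24640) (nat_lit 10) (.e (nat_lit 344091) (nat_lit 18) (.e (nat_lit 7125) (nat_lit 382) .nil)))))) (.g (nat_lit 5) .nil .nil))) 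
(.lf (nat_lit 39202) (.g (nat_lit 1383) (.e (nat_lit 1224) (nat_lit 90) (.e (nat_lit 81922) (nat_lit 0) (.e (nat_lit 3632) (nat_lit 227) (.e (nat_lit 778326) (nat_lit 6) (.e (nat_lit 81958) (nat_lit 24) (.e (nat_lit 123184) (nat_lit 264) .nil)))))) (.g (nat_lit 4) .nil .nil)))) (.nd (nat_lit 5) 
(.lf (nat_lit 39186) (.g (nat_lit 1358) (.e (nat_lit 1223) (nat_lit 90) (.e (nat_lit 81965) (nat_lit 26) (.e (nat_lit 147496) (nat_lit 11) (.e (nat_lit 24641) (nat_lit 10) .nil)))) .nil)) 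
(.lf (nat_lit 39218) (.g (nat_lit 2891) (.e (nat_lit 1224) (nat_lit 90) (.e (nat_lit 81925) (nat_lit 11) (.e (nat_lit 426187) (nat_lit 9) (.e (nat_lit 426448) (nat_lit 20) (.e (nat_lit 114710) (nat_lit 21) (.e (nat_lit 57830) (nat_lit 250) .nil)))))) (.g (nat_lit 6) .nil .nil))))) (.nd (nat_lit 4) (.nd (nat_lit 5) 
(.lf (nat_lit 39178) (.g (nat_lit 3570) (.e (nat_lit 1223) (nat_lit 90) (.e (nat_lit 81965) (nat_lit 26) (.e (nat_lit 147496) (nat_lit 11) (.e (nat_lit 24639) (nat_lit 10) (.e (nat_lit 344096) (nat_lit 18) (.e (nat_lit 7125) (nat_lit 382) .nil)))))) (.g (nat_lit 6) .nil .nil))) 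
(.lf (nat_lit 39210) (.g (nat_lit 1333) (.e (nat_lit 1224) (nat_lit 90) (.e (nat_lit 81922) (nat_lit 0) (.e (nat_lit 3748) (nat_lit 228) (.e (nat_lit 786478) (nat_lit 29) (.e (nat_lit 352318) (nat_lit 24) (.e (nat_lit 123185) (nat_lit 264) .nil)))))) (.g (nat_lit 4) .nil .nil)))) (.nd (nat_lit 5) 
(.lf (nat_lit 39194) (.g (nat_lit 2608) (.e (nat_lit 1224) (nat_lit 90) (.e (nat_lit 81922) (nat_lit 0) (.e (nat_lit 3631) (nat_lit 227) (.e (nat_lit 778326) (nat_lit 6) (.e (nat_lit 81957) (nat_lit 24) (.e (nat_lit 123184) (nat_lit 264) .nil)))))) (.g (nat_lit 0) .nil .nil))) 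
(.lf (nat_lit 39226) (.g (nat_lit 2568) (.e (nat_lit 1224) (nat_lit 90) (.e (nat_lit 81925) (nat_lit 11) (.e (nat_lit 426200) (nat_lit 9) (.e (nat_lit 426448) (nat_lit 20) (.e (nat_lit 114710) (nat_lit 21) (.e (nat_lit 57830) (nat_lit 250) .nil)))))) (.g (nat_lit 4) .nil .nil)))))) (.nd (nat_lit 3) (.nd (nat_lit 4) (.nd (nat_lit 5) 
(.lf (nat_lit 39174) (.g (nat_lit 2058) (.e (nat_lit 1223) (nat_lit 90) (.e (nat_lit 81965) (nat_lit 26) (.e (nat_lit 147495) (nat_lit 11) (.e (nat_lit 24641) (nat_lit 10) (.e (nat_lit 344096) (nat_lit 18) .nil))))) .nil)) 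
(.lf (nat_lit 39206) (.g (nat_lit 2720) (.e (nat_lit 1224) (nat_lit 90) (.e (nat_lit 81922) (nat_lit 0) (.e (nat_lit 3747) (nat_lit 228) (.e (nat_lit 786480) (nat_lit 29) (.e (nat_lit 352318) (nat_lit 24) (.e (nat_lit 123184) (nat_lit 264) .nil)))))) (.g (nat_lit 6) .nil .nil)))) (.nd (nat_lit 5) 
(.lf (nat_lit 39190) (.g (nat_lit 1713) (.e (nat_lit 1224) (nat_lit 90) (.e (nat_lit 81922) (nat_lit 0) (.e (nat_lit 3630) (nat_lit 227) (.e (nat_lit 778326) (nat_lit 6) (.e (nat_lit 81957) (nat_lit 24) (.e (nat_lit 123185) (nat_lit 264) .nil)))))) (.g (nat_lit 0) .nil .nil))) 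
(.lf (nat_lit 39222) (.g (nat_lit 2985) (.e (nat_lit 1224) (nat_lit 90) (.e (nat_lit 81925) (nat_lit 11) (.e (nat_lit 426189) (nat_lit 9) (.e (nat_lit 426448) (nat_lit 20) (.e (nat_lit 114710) (nat_lit 21) (.e (nat_lit 57830) (nat_lit 250) .nil)))))) (.g (nat_lit 0) .nil .nil))))) (.nd (nat_lit 4) (.nd (nat_lit 5) 
(.lf (nat_lit 39182) (.g (nat_lit 3441) (.e (nat_lit 1223) (nat_lit 90) (.e (nat_lit 81965) (nat_lit 26) (.e (nat_lit 147496) (nat_lit 11) (.e (nat_lit 24640) (nat_lit 10) (.e (nat_lit 344090) (nat_lit 18) (.e (nat_lit 7125) (nat_lit 382) .nil)))))) (.g (nat_lit 6) .nil .nil))) 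
(.lf (nat_lit 39214) (.g (nat_lit 634) (.e (nat_lit 1224) (nat_lit 90) (.e (nat_lit 89856) (nat_lit 8) (.e (nat_lit 262148) (nat_lit 0) (.e (nat_lit 1597) (nat_lit 111) (.e (nat_lit 368384) (nat_lit 0) (.e (nat_lit 5803) (nat_lit 320) .nil)))))) (.g (nat_lit 4) .nil .nil)))) (.nd (nat_lit 5) 
(.lf (nat_lit 39198) (.g (nat_lit 2593) (.e (nat_lit 1224) (nat_lit 90) (.e (nat_lit 81922) (nat_lit 0) (.e (nat_lit 3631) (nat_lit 227) (.e (nat_lit 778327) (nat_lit 6) (.e (nat_lit 81957) (nat_lit 24) (.e (nat_lit 123184) (nat_lit 264) .nil)))))) (.g (nat_lit 0) .nil .nil))) 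
(.lf (nat_lit 39230) (.g (nat_lit 1964) (.e (nat_lit 1224) (nat_lit 90) (.e (nat_lit 81925) (nat_lit 11) (.e (nat_lit 426307) (nat_lit 12) (.e (nat_lit 475214) (nat_lit 42) (.e (nat_lit 720934) (nat_lit 21) (.e (nat_lit 57830) (nat_lit 250) .nil)))))) (.g (nat_lit 4) .nil .nil)))))))) (.nd (nat_lit 1) (.nd (nat_lit 2) (.nd (nat_lit 3) (.nd (nat_lit 4) (.nd (nat_lit 5) 
(.lf (nat_lit 39169) (.g (nat_lit 3415) (.e (nat_lit 1223) (nat_lit 90) (.e (nat_lit 81965) (nat_lit 26) (.e (nat_lit 147495) (nat_lit 11) (.e (nat_lit 24640) (nat_lit 10) (.e (nat_lit 344090) (nat_lit 18) (.e (nat_lit 7125) (nat_lit 382) .nil)))))) (.g (nat_lit 6) .nil .nil))) 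
(.lf (nat_lit 39201) (.g (nat_lit 3251) (.e (nat_lit 1224) (nat_lit 90) (.e (nat_lit 81922) (nat_lit 0) (.e (nat_lit 3632) (nat_lit 227) (.e (nat_lit 778326) (nat_lit 6) (.e (nat_lit 81957) (nat_lit 24) (.e (nat_lit 123182) (nat_lit 264) .nil)))))) (.g (nat_lit 6) .nil .nil)))) (.nd (nat_lit 5) 
(.lf (nat_lit 39185) (.g (nat_lit 3859) (.e (nat_lit 1223) (nat_lit 90) (.e (nat_lit 81965) (nat_lit 26) (.e (nat_lit 147496) (nat_lit 11) (.e (nat_lit 24640) (nat_lit 10) (.e (nat_lit 344096) (nat_lit 18) (.e (nat_lit 7125) (nat_lit 382) .nil)))))) (.g (nat_lit 6) .nil .nil))) 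
(.lf (nat_lit 39217) (.g (nat_lit 2455) (.e (nat_lit 1224) (nat_lit 90) (.e (nat_lit 81925) (nat_lit 11) (.e (nat_lit 426187) (nat_lit 9) (.e (nat_lit 426446) (nat_lit 20) (.e (nat_lit 114710) (nat_lit 21) (.e (nat_lit 57830) (nat_lit 250) .nil)))))) (.g (nat_lit 6) .nil .nil))))) (.nd (nat_lit 4) (.nd (nat_lit 5) 
(.lf (nat_lit 39177) (.g (nat_lit 2182) (.e (nat_lit 1223) (nat_lit 90) (.e (nat_lit 81965) (nat_lit 26) (.e (nat_lit 147496) (nat_lit 11) (.e (nat_lit 24639) (nat_lit 10) (.e (nat_lit 344091) (nat_lit 18) (.e (nat_lit 7125) (nat_lit 382) .nil)))))) (.g (nat_lit 4) .nil .nil))) 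
(.lf (nat_lit 39209) (.g (nat_lit 2735) (.e (nat_lit 1224) (nat_lit 90) (.e (nat_lit 81922) (nat_lit 0) (.e (nat_lit 3747) (nat_lit 228) (.e (nat_lit 786483) (nat_lit 30) (.e (nat_lit 360457) (nat_lit 0) (.e (nat_lit 5818) (nat_lit 320) .nil)))))) (.g (nat_lit 6) .nil .nil)))) (.nd (nat_lit 5) 
(.lf (nat_lit 39193) (.g (nat_lit 3148) (.e (nat_lit 1224) (nat_lit 90) (.e (nat_lit 81922) (nat_lit 0) (.e (nat_lit 3631) (nat_lit 227) (.e (nat_lit 778326) (nat_lit 6) (.e (nat_lit 81957) (nat_lit 24) (.e (nat_lit 123182) (nat_lit 264) .nil)))))) (.g (nat_lit 6) .nil .nil))) 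
(.lf (nat_lit 39225) (.g (nat_lit 1374) (.e (nat_lit 1224) (nat_lit 90) (.e (nat_lit 81925) (nat_lit 11) (.e (nat_lit 426200) (nat_lit 9) (.e (nat_lit 426446) (nat_lit 20) .nil)))) .nil))))) (.nd (nat_lit 3) (.nd (nat_lit 4) (.nd (nat_lit 5) 
(.lf (nat_lit 39173) (.g (nat_lit 2065) (.e (nat_lit 1223) (nat_lit 90) (.e (nat_lit 81965) (nat_lit 26) (.e (nat_lit 147495) (nat_lit 11) (.e (nat_lit 24640) (nat_lit 10) (.e (nat_lit 344096) (nat_lit 18) .nil))))) .nil)) 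
(.lf (nat_lit 39205) (.g (nat_lit 1502) (.e (nat_lit 1224) (nat_lit 90) (.e (nat_lit 81922) (nat_lit 0) (.e (nat_lit 3747) (nat_lit 228) (.e (nat_lit 786478) (nat_lit 29) (.e (nat_lit 352318) (nat_lit 24) (.e (nat_lit 123185) (nat_lit 264) .nil)))))) (.g (nat_lit 4) .nil .nil)))) (.nd (nat_lit 5) 
(.lf (nat_lit 39189) (.g (nat_lit 1829) (.e (nat_lit 1224) (nat_lit 90) (.e (nat_lit 81920) (nat_lit 0) (.e (nat_lit 3715) (nat_lit 227) (.e (nat_lit 778325) (nat_lit 6) (.e (nat_lit 81957) (nat_lit 24) (.e (nat_lit 123185) (nat_lit 264) .nil)))))) (.g (nat_lit 0) .nil .nil))) 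
(.lf (nat_lit 39221) (.g (nat_lit 1738) (.e (nat_lit 1224) (nat_lit 90) (.e (nat_lit 81925) (nat_lit 11) (.e (nat_lit 426189) (nat_lit 9) (.e (nat_lit 426446) (nat_lit 20) (.e (nat_lit 114712) (nat_lit 21) (.e (nat_lit 57830) (nat_lit 250) .nil)))))) (.g (nat_lit 5) .nil .nil))))) (.nd (nat_lit 4) (.nd (nat_lit 5) 
(.lf (nat_lit 39181) (.g (nat_lit 2237) (.e (nat_lit 1223) (nat_lit 90) (.e (nat_lit 81965) (nat_lit 26) (.e (nat_lit 147496) (nat_lit 11) (.e (nat_lit 24640) (nat_lit 10) (.e (nat_lit 344090) (nat_lit 18) .nil))))) .nil)) 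
(.lf (nat_lit 39213) (.g (nat_lit 1751) (.e (nat_lit 1224) (nat_lit 90) (.e (nat_lit 81922) (nat_lit 0) (.e (nat_lit 3748) (nat_lit 228) (.e (nat_lit 786483) (nat_lit 30) (.e (nat_lit 360451) (nat_lit 0) (.e (nat_lit 7936) (nat_lit 320) .nil)))))) (.g (nat_lit 5) .nil .nil)))) (.nd (nat_lit 5) 
(.lf (nat_lit 39197) (.g (nat_lit 2070) (.e (nat_lit 1224) (nat_lit 90) (.e (nat_lit 81922) (nat_lit 0) (.e (nat_lit 3631) (nat_lit 227) (.e (nat_lit 778326) (nat_lit 6) (.e (nat_lit 81959) (nat_lit 24) (.e (nat_lit 123185) (nat_lit 264) .nil)))))) (.g (nat_lit 0) .nil .nil))) 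
(.lf (nat_lit 39229) (.g (nat_lit 1891) (.e (nat_lit 1224) (nat_lit 90) (.e (nat_lit 81925) (nat_lit 11) (.e (nat_lit 426307) (nat_lit 12) (.e (nat_lit 475214) (nat_lit 42) (.e (nat_lit 720932) (nat_lit 21) (.e (nat_lit 57830) (nat_lit 250) .nil)))))) (.g (nat_lit 4) .nil .nil))))))) (.nd (nat_lit 2) (.nd (nat_lit 3) (.nd (nat_lit 4) (.nd (nat_lit 5) 
(.lf (nat_lit 39171) (.g (nat_lit 3070) (.e (nat_lit 1223) (nat_lit 90) (.e (nat_lit 81965) (nat_lit 26) (.e (nat_lit 147495) (nat_lit 11) (.e (nat_lit 24640) (nat_lit 10) (.e (nat_lit 344094) (nat_lit 18) (.e (nat_lit 7125) (nat_lit 382) .nil)))))) (.g (nat_lit 5) .nil .nil))) 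
(.lf (nat_lit 39203) (.g (nat_lit 2084) (.e (nat_lit 1224) (nat_lit 90) (.e (nat_lit 81922) (nat_lit 0) (.e (nat_lit 3632) (nat_lit 227) (.e (nat_lit 778326) (nat_lit 6) (.e (nat_lit 81959) (nat_lit 24) (.e (nat_lit 123185) (nat_lit 264) .nil)))))) (.g (nat_lit 0) .nil .nil)))) (.nd (nat_lit 5) 
(.lf (nat_lit 39187) (.g (nat_lit 2470) (.e (nat_lit 1223) (nat_lit 90) (.e (nat_lit 81965) (nat_lit 26) (.e (nat_lit 147496) (nat_lit 11) (.e (nat_lit 24641) (nat_lit 10) (.e (nat_lit 344091) (nat_lit 18) (.e (nat_lit 7125) (nat_lit 382) .nil)))))) (.g (nat_lit 5) .nil .nil))) 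
(.lf (nat_lit 39219) (.g (nat_lit 2274) (.e (nat_lit 1224) (nat_lit 90) (.e (nat_lit 81925) (nat_lit 11) (.e (nat_lit 426187) (nat_lit 9) (.e (nat_lit 426448) (nat_lit 20) (.e (nat_lit 114712) (nat_lit 21) (.e (nat_lit 57830) (nat_lit 250) .nil)))))) (.g (nat_lit 5) .nil .nil))))) (.nd (nat_lit 4) (.nd (nat_lit 5) 
(.lf (nat_lit 39179) (.g (nat_lit 1490) (.e (nat_lit 1223) (nat_lit 90) (.e (nat_lit 81965) (nat_lit 26) (.e (nat_lit 147496) (nat_lit 11) (.e (nat_lit 24640) (nat_lit 10) .nil)))) .nil)) 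
(.lf (nat_lit 39211) (.g (nat_lit 2650) (.e (nat_lit 1224) (nat_lit 90) (.e (nat_lit 81922) (nat_lit 0) (.e (nat_lit 3748) (nat_lit 228) (.e (nat_lit 786480) (nat_lit 29) (.e (nat_lit 352318) (nat_lit 24) (.e (nat_lit 123184) (nat_lit 264) .nil)))))) (.g (nat_lit 0) .nil .nil)))) (.nd (nat_lit 5) 
(.lf (nat_lit 39195) (.g (nat_lit 1237) (.e (nat_lit 1224) (nat_lit 90) (.e (nat_lit 81922) (nat_lit 0) (.e (nat_lit 3631) (nat_lit 227) (.e (nat_lit 778326) (nat_lit 6) (.e (nat_lit 81958) (nat_lit 24) (.e (nat_lit 123184) (nat_lit 264) .nil)))))) (.g (nat_lit 4) .nil .nil))) 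
(.lf (nat_lit 39227) (.g (nat_lit 2230) (.e (nat_lit 1224) (nat_lit 90) (.e (nat_lit 81925) (nat_lit 11) (.e (nat_lit 426200) (nat_lit 9) (.e (nat_lit 426448) (nat_lit 20) (.e (nat_lit 114712) (nat_lit 21) .nil))))) .nil))))) (.nd (nat_lit 3) (.nd (nat_lit 4) (.nd (nat_lit 5) 
(.lf (nat_lit 39175) (.g (nat_lit 1507) (.e (nat_lit 1223) (nat_lit 90) (.e (nat_lit 81965) (nat_lit 26) (.e (nat_lit 147496) (nat_lit 11) (.e (nat_lit 24639) (nat_lit 10) .nil)))) .nil)) 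
(.lf (nat_lit 39207) (.g (nat_lit 2276) (.e (nat_lit 1224) (nat_lit 90) (.e (nat_lit 81922) (nat_lit 0) (.e (nat_lit 3747) (nat_lit 228) (.e (nat_lit 786481) (nat_lit 30) (.e (nat_lit 360457) (nat_lit 0) (.e (nat_lit 5818) (nat_lit 320) .nil)))))) (.g (nat_lit 0) .nil .nil)))) (.nd (nat_lit 5) 
(.lf (nat_lit 39191) (.g (nat_lit 1602) (.e (nat_lit 1224) (nat_lit 90) (.e (nat_lit 81922) (nat_lit 0) (.e (nat_lit 3630) (nat_lit 227) (.e (nat_lit 778326) (nat_lit 6) (.e (nat_lit 81959) (nat_lit 24) (.e (nat_lit 123185) (nat_lit 264) .nil)))))) (.g (nat_lit 0) .nil .nil))) 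
(.lf (nat_lit 39223) (.g (nat_lit 2225) (.e (nat_lit 1224) (nat_lit 90) (.e (nat_lit 81925) (nat_lit 11) (.e (nat_lit 426199) (nat_lit 9) (.e (nat_lit 426448) (nat_lit 20) (.e (nat_lit 114710) (nat_lit 21) (.e (nat_lit 57830) (nat_lit 250) .nil)))))) (.g (nat_lit 4) .nil .nil))))) (.nd (nat_lit 4) (.nd (nat_lit 5) 
(.lf (nat_lit 39183) (.g (nat_lit 3030) (.e (nat_lit 1223) (nat_lit 90) (.e (nat_lit 81965) (nat_lit 26) (.e (nat_lit 147496) (nat_lit 11) (.e (nat_lit 24640) (nat_lit 10) (.e (nat_lit 344094) (nat_lit 18) (.e (nat_lit 7125) (nat_lit 382) .nil)))))) (.g (nat_lit 5) .nil .nil))) 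
(.lf (nat_lit 39215) (.g (nat_lit 646) (.e (nat_lit 1224) (nat_lit 90) (.e (nat_lit 89856) (nat_lit 8) (.e (nat_lit 262148) (nat_lit 0) (.e (nat_lit 1597) (nat_lit 111) (.e (nat_lit 368384) (nat_lit 0) (.e (nat_lit 5816) (nat_lit 320) .nil)))))) (.g (nat_lit 4) .nil .nil)))) (.nd (nat_lit 5) 
(.lf (nat_lit 39199) (.g (nat_lit 2091) (.e (nat_lit 1224) (nat_lit 90) (.e (nat_lit 81922) (nat_lit 0) (.e (nat_lit 3631) (nat_lit 227) (.e (nat_lit 778327) (nat_lit 6) (.e (nat_lit 81957) (nat_lit 24) (.e (nat_lit 123185) (nat_lit 264) .nil)))))) (.g (nat_lit 0) .nil .nil))) 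
(.lf (nat_lit 39231) (.g (nat_lit 2079) (.e (nat_lit 1224) (nat_lit 90) (.e (nat_lit 81925) (nat_lit 11) (.e (nat_lit 426308) (nat_lit 12) (.e (nat_lit 475214) (nat_lit 42) (.e (nat_lit 720932) (nat_lit 21) (.e (nat_lit 57830) (nat_lit 250) .nil)))))) (.g (nat_lit 4) .nil .nil)))))))))

noncomputable def tv545 : DT := (.nd (nat_lit 0) (.nd (nat_lit 1) (.nd (nat_lit 2) (.nd (nat_lit 3) (.nd (nat_lit 4) (.nd (nat_lit 5) 
(.lf (nat_lit 39232) (.g (nat_lit 1883) (.e (nat_lit 1224) (nat_lit 90) (.e (nat_lit 81925) (nat_lit 11) (.e (nat_lit 426308) (nat_lit 12) (.e (nat_lit 475214) (nat_lit 42) (.e (nat_lit 720934) (nat_lit 21) (.e (nat_lit 57830) (nat_lit 250) .nil)))))) (.g (nat_lit 4) .nil .nil))) 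
(.lf (nat_lit 39264) (.g (nat_lit 427) (.e (nat_lit 1224) (nat_lit 90) (.e (nat_lit 81946) (nat_lit 20) (.e (nat_lit 1962) (nat_lit 134) .nil))) .nil))) (.nd (nat_lit 5) 
(.lf (nat_lit 39248) (.g (nat_lit 2653) (.e (nat_lit 1224) (nat_lit 90) (.e (nat_lit 81925) (nat_lit 11) (.e (nat_lit 426343) (nat_lit 14) (.e (nat_lit 491558) (nat_lit 10) (.e (nat_lit 344095) (nat_lit 18) (.e (nat_lit 7125) (nat_lit 382) .nil)))))) (.g (nat_lit 5) .nil .nil))) 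
(.lf (nat_lit 39280) (.g (nat_lit 2462) (.e (nat_lit 1224) (nat_lit 90) (.e (nat_lit 81946) (nat_lit 20) (.e (nat_lit 2005) (nat_lit 138) (.e (nat_lit 671747) (nat_lit 0) (.e (nat_lit 1586) (nat_lit 111) (.e (nat_lit 360456) (nat_lit 0) (.e (nat_lit 5818) (nat_lit 320) .nil))))))) (.g (nat_lit 7) .nil .nil))))) (.nd (nat_lit 4) (.nd (nat_lit 5) 
(.lf (nat_lit 39240) (.g (nat_lit 2627) (.e (nat_lit 1224) (nat_lit 90) (.e (nat_lit 81925) (nat_lit 11) (.e (nat_lit 426341) (nat_lit 14) (.e (nat_lit 491560) (nat_lit 10) (.e (nat_lit 344090) (nat_lit 18) (.e (nat_lit 7125) (nat_lit 382) .nil)))))) (.g (nat_lit 5) .nil .nil))) 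
(.lf (nat_lit 39272) (.g (nat_lit 1766) (.e (nat_lit 1224) (nat_lit 90) (.e (nat_lit 81946) (nat_lit 20) (.e (nat_lit 2003) (nat_lit 138) (.e (nat_lit 671747) (nat_lit 0) (.e (nat_lit 1586) (nat_lit 111) (.e (nat_lit 360456) (nat_lit 0) (.e (nat_lit 5818) (nat_lit 320) .nil))))))) (.g (nat_lit 4) .nil .nil)))) (.nd (nat_lit 5) 
(.lf (nat_lit 39256) (.g (nat_lit 3458) (.e (nat_lit 1224) (nat_lit 90) (.e (nat_lit 81925) (nat_lit 11) (.e (nat_lit 426344) (nat_lit 14) (.e (nat_lit 491558) (nat_lit 10) (.e (nat_lit 344096) (nat_lit 18) (.e (nat_lit 7125) (nat_lit 382) .nil)))))) (.g (nat_lit 0) .nil .nil))) 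
(.lf (nat_lit 39288) (.g (nat_lit 1773) (.e (nat_lit 1224) (nat_lit 90) (.e (nat_lit 81946) (nat_lit 20) (.e (nat_lit 2005) (nat_lit 138) (.e (nat_lit 671762) (nat_lit 4) (.e (nat_lit 65599) (nat_lit 9) (.e (nat_lit 336032) (nat_lit 4) (.e (nat_lit 123184) (nat_lit 264) .nil))))))) (.g (nat_lit 4) .nil .nil)))))) (.nd (nat_lit 3) (.nd (nat_lit 4) (.nd (nat_lit 5) 
(.lf (nat_lit 39236) (.g (nat_lit 2268) (.e (nat_lit 1224) (nat_lit 90) (.e (nat_lit 81925) (nat_lit 11) (.e (nat_lit 426316) (nat_lit 12) (.e (nat_lit 475214) (nat_lit 42) (.e (nat_lit 720930) (nat_lit 21) .nil))))) .nil)) 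
(.lf (nat_lit 39268) (.g (nat_lit 1355) (.e (nat_lit 1224) (nat_lit 90) (.e (nat_lit 81946) (nat_lit 20) (.e (nat_lit 1963) (nat_lit 134) (.e (nat_lit 638986) (nat_lit 5) (.e (nat_lit 3016) (nat_lit 187) (.e (nat_lit 458496) (nat_lit 0) (.e (nat_lit 5057) (nat_lit 292) .nil))))))) (.g (nat_lit 5) .nil .nil)))) (.nd (nat_lit 5) 
(.lf (nat_lit 39252) (.g (nat_lit 1883) (.e (nat_lit 1224) (nat_lit 90) (.e (nat_lit 81925) (nat_lit 11) (.e (nat_lit 426343) (nat_lit 14) (.e (nat_lit 491560) (nat_lit 10) (.e (nat_lit 344094) (nat_lit 18) .nil))))) .nil)) 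
(.lf (nat_lit 39284) (.g (nat_lit 2512) (.e (nat_lit 1224) (nat_lit 90) (.e (nat_lit 81946) (nat_lit 20) (.e (nat_lit 2005) (nat_lit 138) (.e (nat_lit 671748) (nat_lit 0) (.e (nat_lit 1572) (nat_lit 110) (.e (nat_lit 352318) (nat_lit 24) (.e (nat_lit 123185) (nat_lit 264) .nil))))))) (.g (nat_lit 6) .nil .nil))))) (.nd (nat_lit 4) (.nd (nat_lit 5) 
(.lf (nat_lit 39244) (.g (nat_lit 3139) (.e (nat_lit 1224) (nat_lit 90) (.e (nat_lit 81925) (nat_lit 11) (.e (nat_lit 426342) (nat_lit 14) (.e (nat_lit 491560) (nat_lit 10) (.e (nat_lit 344090) (nat_lit 18) (.e (nat_lit 7125) (nat_lit 382) .nil)))))) (.g (nat_lit 0) .nil .nil))) 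
(.lf (nat_lit 39276) (.g (nat_lit 598) (.e (nat_lit 1224) (nat_lit 90) (.e (nat_lit 81946) (nat_lit 20) (.e (nat_lit 2004) (nat_lit 138) (.e (nat_lit 671764) (nat_lit 6) .nil)))) .nil))) (.nd (nat_lit 5) 
(.lf (nat_lit 39260) (.g (nat_lit 2447) (.e (nat_lit 1224) (nat_lit 90) (.e (nat_lit 81946) (nat_lit 20) (.e (nat_lit 1841) (nat_lit 123) (.e (nat_lit 548891) (nat_lit 11) (.e (nat_lit 81959) (nat_lit 24) (.e (nat_lit 130816) (nat_lit 140) .nil)))))) (.g (nat_lit 5) .nil .nil))) 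
(.lf (nat_lit 39292) (.g (nat_lit 2333) (.e (nat_lit 1224) (nat_lit 90) (.e (nat_lit 81946) (nat_lit 20) (.e (nat_lit 2006) (nat_lit 138) (.e (nat_lit 671748) (nat_lit 0) (.e (nat_lit 1589) (nat_lit 111) (.e (nat_lit 360457) (nat_lit 0) (.e (nat_lit 5818) (nat_lit 320) .nil))))))) (.g (nat_lit 5) .nil .nil))))))) (.nd (nat_lit 2) (.nd (nat_lit 3) (.nd (nat_lit 4) (.nd (nat_lit 5) 
(.lf (nat_lit 39234) (.g (nat_lit 2039) (.e (nat_lit 1224) (nat_lit 90) (.e (nat_lit 81925) (nat_lit 11) (.e (nat_lit 426315) (nat_lit 12) (.e (nat_lit 475214) (nat_lit 42) (.e (nat_lit 720931) (nat_lit 21) (.e (nat_lit 57830) (nat_lit 250) .nil)))))) (.g (nat_lit 4) .nil .nil))) 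
(.lf (nat_lit 39266) (.g (nat_lit 1221) (.e (nat_lit 1224) (nat_lit 90) (.e (nat_lit 81946) (nat_lit 20) (.e (nat_lit 1962) (nat_lit 134) (.e (nat_lit 638985) (nat_lit 5) (.e (nat_lit 3028) (nat_lit 187) (.e (nat_lit 458496) (nat_lit 0) (.e (nat_lit 5057) (nat_lit 292) .nil))))))) (.g (nat_lit 4) .nil .nil)))) (.nd (nat_lit 5) 
(.lf (nat_lit 39250) (.g (nat_lit 898) (.e (nat_lit 1224) (nat_lit 90) (.e (nat_lit 81925) (nat_lit 11) (.e (nat_lit 426343) (nat_lit 14) (.e (nat_lit 491560) (nat_lit 10) .nil)))) .nil)) 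
(.lf (nat_lit 39282) (.g (nat_lit 1490) (.e (nat_lit 1224) (nat_lit 90) (.e (nat_lit 81946) (nat_lit 20) (.e (nat_lit 2005) (nat_lit 138) (.e (nat_lit 671747) (nat_lit 0) (.e (nat_lit 1598) (nat_lit 111) (.e (nat_lit 360456) (nat_lit 0) (.e (nat_lit 5818) (nat_lit 320) .nil))))))) (.g (nat_lit 4) .nil .nil))))) (.nd (nat_lit 4) (.nd (nat_lit 5) 
(.lf (nat_lit 39242) (.g (nat_lit 2482) (.e (nat_lit 1224) (nat_lit 90) (.e (nat_lit 81925) (nat_lit 11) (.e (nat_lit 426342) (nat_lit 14) (.e (nat_lit 491558) (nat_lit 10) (.e (nat_lit 344090) (nat_lit 18) (.e (nat_lit 7125) (nat_lit 382) .nil)))))) (.g (nat_lit 6) .nil .nil))) 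
(.lf (nat_lit 39274) (.g (nat_lit 1893) (.e (nat_lit 1224) (nat_lit 90) (.e (nat_lit 81946) (nat_lit 20) (.e (nat_lit 2003) (nat_lit 138) (.e (nat_lit 671764) (nat_lit 6) (.e (nat_lit 81957) (nat_lit 24) (.e (nat_lit 123185) (nat_lit 264) .nil)))))) (.g (nat_lit 5) .nil .nil)))) (.nd (nat_lit 5) 
(.lf (nat_lit 39258) (.g (nat_lit 2448) (.e (nat_lit 1224) (nat_lit 90) (.e (nat_lit 81925) (nat_lit 11) (.e (nat_lit 426344) (nat_lit 14) (.e (nat_lit 491560) (nat_lit 10) (.e (nat_lit 344088) (nat_lit 18) (.e (nat_lit 7125) (nat_lit 382) .nil)))))) (.g (nat_lit 4) .nil .nil))) 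
(.lf (nat_lit 39290) (.g (nat_lit 386) (.e (nat_lit 1224) (nat_lit 90) (.e (nat_lit 81946) (nat_lit 20) (.e (nat_lit 2006) (nat_lit 138) .nil))) .nil))))) (.nd (nat_lit 3) (.nd (nat_lit 4) (.nd (nat_lit 5) 
(.lf (nat_lit 39238) (.g (nat_lit 2318) (.e (nat_lit 1224) (nat_lit 90) (.e (nat_lit 81925) (nat_lit 11) (.e (nat_lit 426316) (nat_lit 12) (.e (nat_lit 475214) (nat_lit 42) (.e (nat_lit 720932) (nat_lit 21) (.e (nat_lit 57830) (nat_lit 250) .nil)))))) (.g (nat_lit 4) .nil .nil))) 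
(.lf (nat_lit 39270) (.g (nat_lit 1271) (.e (nat_lit 1224) (nat_lit 90) (.e (nat_lit 81946) (nat_lit 20) (.e (nat_lit 1963) (nat_lit 134) (.e (nat_lit 638986) (nat_lit 5) (.e (nat_lit 3028) (nat_lit 187) (.e (nat_lit 458496) (nat_lit 0) (.e (nat_lit 5057) (nat_lit 292) .nil))))))) (.g (nat_lit 4) .nil .nil)))) (.nd (nat_lit 5) 
(.lf (nat_lit 39254) (.g (nat_lit 1542) (.e (nat_lit 1224) (nat_lit 90) (.e (nat_lit 81925) (nat_lit 11) (.e (nat_lit 426344) (nat_lit 14) (.e (nat_lit 491558) (nat_lit 10) (.e (nat_lit 344095) (nat_lit 18) (.e (nat_lit 7122) (nat_lit 382) .nil)))))) (.g (nat_lit 4) .nil .nil))) 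
(.lf (nat_lit 39286) (.g (nat_lit 2237) (.e (nat_lit 1224) (nat_lit 90) (.e (nat_lit 81946) (nat_lit 20) (.e (nat_lit 2005) (nat_lit 138) (.e (nat_lit 671748) (nat_lit 0) (.e (nat_lit 1599) (nat_lit 111) (.e (nat_lit 360456) (nat_lit 0) (.e (nat_lit 5818) (nat_lit 320) .nil))))))) (.g (nat_lit 7) .nil .nil))))) (.nd (nat_lit 4) (.nd (nat_lit 5) 
(.lf (nat_lit 39246) (.g (nat_lit 1956) (.e (nat_lit 1224) (nat_lit 90) (.e (nat_lit 81925) (nat_lit 11) (.e (nat_lit 426343) (nat_lit 14) (.e (nat_lit 491558) (nat_lit 10) (.e (nat_lit 344091) (nat_lit 18) (.e (nat_lit 7122) (nat_lit 382) .nil)))))) (.g (nat_lit 4) .nil .nil))) 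
(.lf (nat_lit 39278) (.g (nat_lit 1283) (.e (nat_lit 1224) (nat_lit 90) (.e (nat_lit 81946) (nat_lit 20) (.e (nat_lit 2005) (nat_lit 138) (.e (nat_lit 671746) (nat_lit 0) (.e (nat_lit 1586) (nat_lit 111) (.e (nat_lit 360456) (nat_lit 0) (.e (nat_lit 5818) (nat_lit 320) .nil))))))) (.g (nat_lit 4) .nil .nil)))) (.nd (nat_lit 5) 
(.lf (nat_lit 39262) (.g (nat_lit 2920) (.e (nat_lit 1224) (nat_lit 90) (.e (nat_lit 81946) (nat_lit 20) (.e (nat_lit 1842) (nat_lit 123) (.e (nat_lit 548891) (nat_lit 11) (.e (nat_lit 81959) (nat_lit 24) (.e (nat_lit 130816) (nat_lit 140) .nil)))))) (.g (nat_lit 5) .nil .nil))) 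
(.lf (nat_lit 39294) (.g (nat_lit 2443) (.e (nat_lit 1224) (nat_lit 90) (.e (nat_lit 81946) (nat_lit 20) (.e (nat_lit 2006) (nat_lit 138) (.e (nat_lit 671762) (nat_lit 4) (.e (nat_lit 65598) (nat_lit 9) (.e (nat_lit 336032) (nat_lit 4) (.e (nat_lit 123184) (nat_lit 264) .nil))))))) (.g (nat_lit 5) .nil .nil)))))))) 
(.nd (nat_lit 1) (.nd (nat_lit 2) (.nd (nat_lit 3) (.nd (nat_lit 4) (.nd (nat_lit 5) 
(.lf (nat_lit 39233) (.g (nat_lit 1821) (.e (nat_lit 1224) (nat_lit 90) (.e (nat_lit 81925) (nat_lit 11) (.e (nat_lit 426315) (nat_lit 12) (.e (nat_lit 475214) (nat_lit 42) (.e (nat_lit 720930) (nat_lit 21) (.e (nat_lit 57830) (nat_lit 250) .nil)))))) (.g (nat_lit 4) .nil .nil))) 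
(.lf (nat_lit 39265) (.g (nat_lit 1302) (.e (nat_lit 1224) (nat_lit 90) (.e (nat_lit 81946) (nat_lit 20) (.e (nat_lit 1962) (nat_lit 134) (.e (nat_lit 638985) (nat_lit 5) (.e (nat_lit 3016) (nat_lit 187) (.e (nat_lit 458496) (nat_lit 0) (.e (nat_lit 5057) (nat_lit 292) .nil))))))) (.g (nat_lit 5) .nil .nil)))) (.nd (nat_lit 5) 
(.lf (nat_lit 39249) (.g (nat_lit 3791) (.e (nat_lit 1224) (nat_lit 90) (.e (nat_lit 81925) (nat_lit 11) (.e (nat_lit 426343) (nat_lit 14) (.e (nat_lit 491558) (nat_lit 10) (.e (nat_lit 344096) (nat_lit 18) (.e (nat_lit 7125) (nat_lit 382) .nil)))))) (.g (nat_lit 0) .nil .nil))) 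
(.lf (nat_lit 39281) (.g (nat_lit 2356) (.e (nat_lit 1224) (nat_lit 90) (.e (nat_lit 81946) (nat_lit 20) (.e (nat_lit 2005) (nat_lit 138) (.e (nat_lit 671747) (nat_lit 0) (.e (nat_lit 1595) (nat_lit 111) (.e (nat_lit 360457) (nat_lit 0) (.e (nat_lit 5818) (nat_lit 320) .nil))))))) (.g (nat_lit 6) .nil .nil))))) (.nd (nat_lit 4) (.nd (nat_lit 5) 
(.lf (nat_lit 39241) (.g (nat_lit 2338) (.e (nat_lit 1224) (nat_lit 90) (.e (nat_lit 81925) (nat_lit 11) (.e (nat_lit 426341) (nat_lit 14) (.e (nat_lit 491560) (nat_lit 10) (.e (nat_lit 344091) (nat_lit 18) (.e (nat_lit 7125) (nat_lit 382) .nil)))))) (.g (nat_lit 5) .nil .nil))) 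
(.lf (nat_lit 39273) (.g (nat_lit 1690) (.e (nat_lit 1224) (nat_lit 90) (.e (nat_lit 81946) (nat_lit 20) (.e (nat_lit 2003) (nat_lit 138) (.e (nat_lit 671747) (nat_lit 0) (.e (nat_lit 1595) (nat_lit 111) (.e (nat_lit 360457) (nat_lit 0) (.e (nat_lit 5818) (nat_lit 320) .nil))))))) (.g (nat_lit 4) .nil .nil)))) (.nd (nat_lit 5) 
(.lf (nat_lit 39257) (.g (nat_lit 1915) (.e (nat_lit 1224) (nat_lit 90) (.e (nat_lit 81925) (nat_lit 11) (.e (nat_lit 426344) (nat_lit 14) (.e (nat_lit 491560) (nat_lit 10) (.e (nat_lit 344087) (nat_lit 18) .nil))))) .nil)) 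
(.lf (nat_lit 39289) (.g (nat_lit 1579) (.e (nat_lit 1224) (nat_lit 90) (.e (nat_lit 81946) (nat_lit 20) (.e (nat_lit 2005) (nat_lit 138) (.e (nat_lit 671762) (nat_lit 4) (.e (nat_lit 65605) (nat_lit 9) .nil))))) .nil))))) (.nd (nat_lit 3) (.nd (nat_lit 4) (.nd (nat_lit 5) 
(.lf (nat_lit 39237) (.g (nat_lit 2219) (.e (nat_lit 1224) (nat_lit 90) (.e (nat_lit 81925) (nat_lit 11) (.e (nat_lit 426316) (nat_lit 12) (.e (nat_lit 475214) (nat_lit 42) (.e (nat_lit 720931) (nat_lit 21) .nil))))) .nil)) 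
(.lf (nat_lit 39269) (.g (nat_lit 1840) (.e (nat_lit 1224) (nat_lit 90) (.e (nat_lit 81946) (nat_lit 20) (.e (nat_lit 1963) (nat_lit 134) (.e (nat_lit 638986) (nat_lit 5) (.e (nat_lit 3022) (nat_lit 187) (.e (nat_lit 458496) (nat_lit 0) (.e (nat_lit 5057) (nat_lit 292) .nil))))))) (.g (nat_lit 5) .nil .nil)))) (.nd (nat_lit 5) 
(.lf (nat_lit 39253) (.g (nat_lit 760) (.e (nat_lit 1224) (nat_lit 90) (.e (nat_lit 81925) (nat_lit 11) (.e (nat_lit 426344) (nat_lit 14) (.e (nat_lit 491558) (nat_lit 10) .nil)))) .nil)) 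
(.lf (nat_lit 39285) (.g (nat_lit 2265) (.e (nat_lit 1224) (nat_lit 90) (.e (nat_lit 81946) (nat_lit 20) (.e (nat_lit 2005) (nat_lit 138) (.e (nat_lit 671748) (nat_lit 0) (.e (nat_lit 1589) (nat_lit 111) (.e (nat_lit 360457) (nat_lit 0) (.e (nat_lit 5818) (nat_lit 320) .nil))))))) (.g (nat_lit 5) .nil .nil))))) (.nd (nat_lit 4) (.nd (nat_lit 5) 
(.lf (nat_lit 39245) (.g (nat_lit 2423) (.e (nat_lit 1224) (nat_lit 90) (.e (nat_lit 81925) (nat_lit 11) (.e (nat_lit 426343) (nat_lit 14) (.e (nat_lit 491558) (nat_lit 10) (.e (nat_lit 344088) (nat_lit 18) .nil))))) .nil)) 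
(.lf (nat_lit 39277) (.g (nat_lit 454) (.e (nat_lit 1224) (nat_lit 90) (.e (nat_lit 81946) (nat_lit 20) (.e (nat_lit 2005) (nat_lit 138) .nil))) .nil))) (.nd (nat_lit 5) 
(.lf (nat_lit 39261) (.g (nat_lit 2018) (.e (nat_lit 1224) (nat_lit 90) (.e (nat_lit 81946) (nat_lit 20) (.e (nat_lit 1842) (nat_lit 123) (.e (nat_lit 548891) (nat_lit 11) (.e (nat_lit 81957) (nat_lit 24) .nil))))) .nil)) 
(.lf (nat_lit 39293) (.g (nat_lit 2318) (.e (nat_lit 1224) (nat_lit 90) (.e (nat_lit 81946) (nat_lit 20) (.e (nat_lit 2006) (nat_lit 138) (.e (nat_lit 671748) (nat_lit 0) (.e (nat_lit 1599) (nat_lit 111) (.e (nat_lit 360456) (nat_lit 0) (.e (nat_lit 5818) (nat_lit 320) .nil))))))) (.g (nat_lit 7) .nil .nil))))))) (.nd (nat_lit 2) (.nd (nat_lit 3) (.nd (nat_lit 4) (.nd (nat_lit 5) 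
(.lf (nat_lit 39235) (.g (nat_lit 2500) (.e (nat_lit 1224) (nat_lit 90) (.e (nat_lit 81925) (nat_lit 11) (.e (nat_lit 426315) (nat_lit 12) (.e (nat_lit 475214) (nat_lit 42) (.e (nat_lit 720932) (nat_lit 21) .nil))))) .nil)) 
(.lf (nat_lit 39267) (.g (nat_lit 532) (.e (nat_lit 1224) (nat_lit 90) (.e (nat_lit 81946) (nat_lit 20) (.e (nat_lit 1963) (nat_lit 134) (.e (nat_lit 638986) (nat_lit 5) .nil)))) .nil))) (.nd (nat_lit 5) 
(.lf (nat_lit 39251) (.g (nat_lit 2370) (.e (nat_lit 1224) (nat_lit 90) (.e (nat_lit 81925) (nat_lit 11) (.e (nat_lit 426343) (nat_lit 14) (.e (nat_lit 491560) (nat_lit 10) (.e (nat_lit 344088) (nat_lit 18) .nil))))) .nil)) 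
(.lf (nat_lit 39283) (.g (nat_lit 1216) (.e (nat_lit 1224) (nat_lit 90) (.e (nat_lit 81946) (nat_lit 20) (.e (nat_lit 2005) (nat_lit 138) (.e (nat_lit 671747) (nat_lit 0) (.e (nat_lit 1599) (nat_lit 111) .nil))))) .nil)))) (.nd (nat_lit 4) (.nd (nat_lit 5) 
(.lf (nat_lit 39243) (.g (nat_lit 2977) (.e (nat_lit 1224) (nat_lit 90) (.e (nat_lit 81925) (nat_lit 11) (.e (nat_lit 426342) (nat_lit 14) (.e (nat_lit 491558) (nat_lit 10) (.e (nat_lit 344091) (nat_lit 18) (.e (nat_lit 7125) (nat_lit 382) .nil)))))) (.g (nat_lit 0) .nil .nil))) 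
(.lf (nat_lit 39275) (.g (nat_lit 1786) (.e (nat_lit 1224) (nat_lit 90) (.e (nat_lit 81946) (nat_lit 20) (.e (nat_lit 2003) (nat_lit 138) (.e (nat_lit 671764) (nat_lit 6) (.e (nat_lit 81959) (nat_lit 24) (.e (nat_lit 123185) (nat_lit 264) .nil)))))) (.g (nat_lit 5) .nil .nil)))) (.nd (nat_lit 5) 
(.lf (nat_lit 39259) (.g (nat_lit 3206) (.e (nat_lit 1224) (nat_lit 90) (.e (nat_lit 81925) (nat_lit 11) (.e (nat_lit 426344) (nat_lit 14) (.e (nat_lit 491560) (nat_lit 10) (.e (nat_lit 344094) (nat_lit 18) (.e (nat_lit 7125) (nat_lit 382) .nil)))))) (.g (nat_lit 0) .nil .nil))) 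
(.lf (nat_lit 39291) (.g (nat_lit 2625) (.e (nat_lit 1224) (nat_lit 90) (.e (nat_lit 81946) (nat_lit 20) (.e (nat_lit 2006) (nat_lit 138) (.e (nat_lit 671748) (nat_lit 0) (.e (nat_lit 1572) (nat_lit 110) (.e (nat_lit 352318) (nat_lit 24) (.e (nat_lit 123185) (nat_lit 264) .nil))))))) (.g (nat_lit 6) .nil .nil)))))) (.nd (nat_lit 3) (.nd (nat_lit 4) (.nd (nat_lit 5) 
(.lf (nat_lit 39239) (.g (nat_lit 2408) (.e (nat_lit 1224) (nat_lit 90) (.e (nat_lit 81925) (nat_lit 11) (.e (nat_lit 426316) (nat_lit 12) (.e (nat_lit 475214) (nat_lit 42) (.e (nat_lit 720934) (nat_lit 21) .nil))))) .nil)) 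
(.lf (nat_lit 39271) (.g (nat_lit 505) (.e (nat_lit 1224) (nat_lit 90) (.e (nat_lit 81946) (nat_lit 20) (.e (nat_lit 2003) (nat_lit 138) .nil))) .nil))) (.nd (nat_lit 5) 
(.lf (nat_lit 39255) (.g (nat_lit 1827) (.e (nat_lit 1224) (nat_lit 90) (.e (nat_lit 81925) (nat_lit 11) (.e (nat_lit 426344) (nat_lit 14) (.e (nat_lit 491558) (nat_lit 10) (.e (nat_lit 344095) (nat_lit 18) (.e (nat_lit 7125) (nat_lit 382) .nil)))))) (.g (nat_lit 4) .nil .nil))) 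
(.lf (nat_lit 39287) (.g (nat_lit 2366) (.e (nat_lit 1224) (nat_lit 90) (.e (nat_lit 81946) (nat_lit 20) (.e (nat_lit 2005) (nat_lit 138) (.e (nat_lit 671762) (nat_lit 4) (.e (nat_lit 65598) (nat_lit 9) (.e (nat_lit 336032) (nat_lit 4) (.e (nat_lit 123184) (nat_lit 264) .nil))))))) (.g (nat_lit 5) .nil .nil))))) (.nd (nat_lit 4) (.nd (nat_lit 5) 
(.lf (nat_lit 39247) (.g (nat_lit 2372) (.e (nat_lit 1224) (nat_lit 90) (.e (nat_lit 81925) (nat_lit 11) (.e (nat_lit 426343) (nat_lit 14) (.e (nat_lit 491558) (nat_lit 10) (.e (nat_lit 344095) (nat_lit 18) (.e (nat_lit 7122) (nat_lit 382) .nil)))))) (.g (nat_lit 4) .nil .nil))) 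
(.lf (nat_lit 39279) (.g (nat_lit 1668) (.e (nat_lit 1224) (nat_lit 90) (.e (nat_lit 81946) (nat_lit 20) (.e (nat_lit 2005) (nat_lit 138) (.e (nat_lit 671747) (nat_lit 0) (.e (nat_lit 1572) (nat_lit 110) (.e (nat_lit 352318) (nat_lit 24) (.e (nat_lit 123185) (nat_lit 264) .nil))))))) (.g (nat_lit 4) .nil .nil)))) (.nd (nat_lit 5) 
(.lf (nat_lit 39263) (.g (nat_lit 509) (.e (nat_lit 1224) (nat_lit 90) (.e (nat_lit 81946) (nat_lit 20) (.e (nat_lit 1885) (nat_lit 127) .nil))) .nil)) 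
(.lf (nat_lit 39295) (.g (nat_lit 2003) (.e (nat_lit 1224) (nat_lit 90) (.e (nat_lit 81946) (nat_lit 20) (.e (nat_lit 2006) (nat_lit 138) (.e (nat_lit 671762) (nat_lit 4) (.e (nat_lit 65599) (nat_lit 9) (.e (nat_lit 336032) (nat_lit 4) (.e (nat_lit 123184) (nat_lit 264) .nil))))))) (.g (nat_lit 4) .nil .nil)))))))))

noncomputable def tv546 : DT := (.nd (nat_lit 0) (.nd (nat_lit 1) (.nd (nat_lit 2) (.nd (nat_lit 3) (.nd (nat_lit 4) (.nd (nat_lit 5) 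
(.lf (nat_lit 39296) (.g (nat_lit 1663) (.e (nat_lit 1224) (nat_lit 90) (.e (nat_lit 81946) (nat_lit 20) (.e (nat_lit 2006) (nat_lit 138) (.e (nat_lit 671762) (nat_lit 4) (.e (nat_lit 65605) (nat_lit 9) .nil))))) .nil)) 
(.lf (nat_lit 39328) (.g (nat_lit 1737) (.e (nat_lit 1224) (nat_lit 90) (.e (nat_lit 81947) (nat_lit 20) (.e (nat_lit 2003) (nat_lit 138) (.e (nat_lit 671747) (nat_lit 0) (.e (nat_lit 1595) (nat_lit 111) (.e (nat_lit 360457) (nat_lit 0) (.e (nat_lit 5818) (nat_lit 320) .nil))))))) (.g (nat_lit 4) .nil .nil)))) (.nd (nat_lit 5) 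
(.lf (nat_lit 39312) (.g (nat_lit 1931) (.e (nat_lit 1224) (nat_lit 90) (.e (nat_lit 81946) (nat_lit 20) (.e (nat_lit 2281) (nat_lit 150) (.e (nat_lit 770072) (nat_lit 8) (.e (nat_lit 65617) (nat_lit 10) (.e (nat_lit 344095) (nat_lit 18) (.e (nat_lit 7122) (nat_lit 382) .nil))))))) (.g (nat_lit 4) .nil .nil))) 
(.lf (nat_lit 39344) (.g (nat_lit 1565) (.e (nat_lit 1224) (nat_lit 90) (.e (nat_lit 81947) (nat_lit 20) (.e (nat_lit 2006) (nat_lit 138) (.e (nat_lit 671762) (nat_lit 4) (.e (nat_lit 65605) (nat_lit 9) (.e (nat_lit 336032) (nat_lit 4) (.e (nat_lit 123184) (nat_lit 264) .nil))))))) (.g (nat_lit 4) .nil .nil))))) (.nd (nat_lit 4) (.nd (nat_lit 5) 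
(.lf (nat_lit 39304) (.g (nat_lit 1671) (.e (nat_lit 1224) (nat_lit 90) (.e (nat_lit 81946) (nat_lit 20) (.e (nat_lit 2280) (nat_lit 150) (.e (nat_lit 770071) (nat_lit 8) (.e (nat_lit 65617) (nat_lit 10) (.e (nat_lit 344095) (nat_lit 18) (.e (nat_lit 7122) (nat_lit 382) .nil))))))) (.g (nat_lit 4) .nil .nil))) 
(.lf (nat_lit 39336) (.g (nat_lit 2358) (.e (nat_lit 1224) (nat_lit 90) (.e (nat_lit 81947) (nat_lit 20) (.e (nat_lit 2005) (nat_lit 138) (.e (nat_lit 671748) (nat_lit 0) (.e (nat_lit 1572) (nat_lit 110) (.e (nat_lit 352318) (nat_lit 24) (.e (nat_lit 123185) (nat_lit 264) .nil))))))) (.g (nat_lit 5) .nil .nil)))) (.nd (nat_lit 5) 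
(.lf (nat_lit 39320) (.g (nat_lit 1352) (.e (nat_lit 1224) (nat_lit 90) (.e (nat_lit 81947) (nat_lit 20) (.e (nat_lit 1962) (nat_lit 134) (.e (nat_lit 638985) (nat_lit 5) (.e (nat_lit 3015) (nat_lit 187) (.e (nat_lit 458496) (nat_lit 0) (.e (nat_lit 5057) (nat_lit 292) .nil))))))) (.g (nat_lit 5) .nil .nil))) 
(.lf (nat_lit 39352) (.g (nat_lit 557) (.e (nat_lit 1224) (nat_lit 90) (.e (nat_lit 81947) (nat_lit 20) (.e (nat_lit 2280) (nat_lit 150) .nil))) .nil))))) (.nd (nat_lit 3) (.nd (nat_lit 4) (.nd (nat_lit 5) 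
(.lf (nat_lit 39300) (.g (nat_lit 2351) (.e (nat_lit 1224) (nat_lit 90) (.e (nat_lit 81946) (nat_lit 20) (.e (nat_lit 2280) (nat_lit 150) (.e (nat_lit 770055) (nat_lit 5) (.e (nat_lit 1589) (nat_lit 111) (.e (nat_lit 360449) (nat_lit 0) (.e (nat_lit 7125) (nat_lit 382) .nil))))))) (.g (nat_lit 5) .nil .nil))) 
(.lf (nat_lit 39332) (.g (nat_lit 2300) (.e (nat_lit 1224) (nat_lit 90) (.e (nat_lit 81947) (nat_lit 20) (.e (nat_lit 2005) (nat_lit 138) (.e (nat_lit 671747) (nat_lit 0) (.e (nat_lit 1595) (nat_lit 111) (.e (nat_lit 360457) (nat_lit 0) (.e (nat_lit 5818) (nat_lit 320) .nil))))))) (.g (nat_lit 6) .nil .nil)))) (.nd (nat_lit 5) 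
(.lf (nat_lit 39316) (.g (nat_lit 573) (.e (nat_lit 1224) (nat_lit 90) (.e (nat_lit 81947) (nat_lit 20) (.e (nat_lit 990) (nat_lit 81) .nil))) .nil)) 
(.lf (nat_lit 39348) (.g (nat_lit 1443) (.e (nat_lit 1224) (nat_lit 90) (.e (nat_lit 81947) (nat_lit 20) (.e (nat_lit 2270) (nat_lit 149) (.e (nat_lit 761867) (nat_lit 5) .nil)))) .nil)))) (.nd (nat_lit 4) (.nd (nat_lit 5) 
(.lf (nat_lit 39308) (.g (nat_lit 1722) (.e (nat_lit 1224) (nat_lit 90) (.e (nat_lit 81946) (nat_lit 20) (.e (nat_lit 2281) (nat_lit 150) (.e (nat_lit 770071) (nat_lit 8) (.e (nat_lit 65610) (nat_lit 10) (.e (nat_lit 344090) (nat_lit 18) (.e (nat_lit 7125) (nat_lit 382) .nil))))))) (.g (nat_lit 4) .nil .nil))) 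
(.lf (nat_lit 39340) (.g (nat_lit 1627) (.e (nat_lit 1224) (nat_lit 90) (.e (nat_lit 81947) (nat_lit 20) (.e (nat_lit 2005) (nat_lit 138) (.e (nat_lit 671762) (nat_lit 4) (.e (nat_lit 65605) (nat_lit 9) .nil))))) .nil))) (.nd (nat_lit 5) 
(.lf (nat_lit 39324) (.g (nat_lit 1399) (.e (nat_lit 1224) (nat_lit 90) (.e (nat_lit 81947) (nat_lit 20) (.e (nat_lit 1963) (nat_lit 134) (.e (nat_lit 638986) (nat_lit 5) (.e (nat_lit 3022) (nat_lit 187) (.e (nat_lit 458496) (nat_lit 0) (.e (nat_lit 5057) (nat_lit 292) .nil))))))) (.g (nat_lit 5) .nil .nil))) 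
(.lf (nat_lit 39356) (.g (nat_lit 2371) (.e (nat_lit 1224) (nat_lit 90) (.e (nat_lit 81947) (nat_lit 20) (.e (nat_lit 2280) (nat_lit 150) (.e (nat_lit 770072) (nat_lit 8) (.e (nat_lit 65619) (nat_lit 10) (.e (nat_lit 344090) (nat_lit 18) (.e (nat_lit 7125) (nat_lit 382) .nil))))))) (.g (nat_lit 5) .nil .nil))))))) (.nd (nat_lit 2) (.nd (nat_lit 3) (.nd (nat_lit 4) (.nd (nat_lit 5) 
(.lf (nat_lit 39298) (.g (nat_lit 1622) (.e (nat_lit 1224) (nat_lit 90) (.e (nat_lit 81946) (nat_lit 20) (.e (nat_lit 2270) (nat_lit 149) (.e (nat_lit 761866) (nat_lit 5) (.e (nat_lit 1597) (nat_lit 111) (.e (nat_lit 360449) (nat_lit 0) (.e (nat_lit 7125) (nat_lit 382) .nil))))))) (.g (nat_lit 4) .nil .nil))) 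
(.lf (nat_lit 39330) (.g (nat_lit 1583) (.e (nat_lit 1224) (nat_lit 90) (.e (nat_lit 81947) (nat_lit 20) (.e (nat_lit 2003) (nat_lit 138) (.e (nat_lit 671764) (nat_lit 6) (.e (nat_lit 81959) (nat_lit 24) (.e (nat_lit 123185) (nat_lit 264) .nil)))))) (.g (nat_lit 4) .nil .nil)))) (.nd (nat_lit 5) 
(.lf (nat_lit 39314) (.g (nat_lit 2680) (.e (nat_lit 1224) (nat_lit 90) (.e (nat_lit 81946) (nat_lit 20) (.e (nat_lit 2281) (nat_lit 150) (.e (nat_lit 770072) (nat_lit 8) (.e (nat_lit 65617) (nat_lit 10) (.e (nat_lit 344096) (nat_lit 18) (.e (nat_lit 7122) (nat_lit 382) .nil))))))) (.g (nat_lit 5) .nil .nil))) 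
(.lf (nat_lit 39346) (.g (nat_lit 2410) (.e (nat_lit 1224) (nat_lit 90) (.e (nat_lit 81947) (nat_lit 20) (.e (nat_lit 2006) (nat_lit 138) (.e (nat_lit 671764) (nat_lit 6) (.e (nat_lit 81959) (nat_lit 24) (.e (nat_lit 123185) (nat_lit 264) .nil)))))) (.g (nat_lit 0) .nil .nil))))) (.nd (nat_lit 4) (.nd (nat_lit 5) 
(.lf (nat_lit 39306) (.g (nat_lit 3631) (.e (nat_lit 1224) (nat_lit 90) (.e (nat_lit 81946) (nat_lit 20) (.e (nat_lit 2280) (nat_lit 150) (.e (nat_lit 770072) (nat_lit 8) (.e (nat_lit 65619) (nat_lit 10) (.e (nat_lit 344090) (nat_lit 18) (.e (nat_lit 7125) (nat_lit 382) .nil))))))) (.g (nat_lit 0) .nil .nil))) 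
(.lf (nat_lit 39338) (.g (nat_lit 2489) (.e (nat_lit 1224) (nat_lit 90) (.e (nat_lit 81947) (nat_lit 20) (.e (nat_lit 2005) (nat_lit 138) (.e (nat_lit 671762) (nat_lit 4) (.e (nat_lit 65598) (nat_lit 9) (.e (nat_lit 336032) (nat_lit 4) (.e (nat_lit 123184) (nat_lit 264) .nil))))))) (.g (nat_lit 5) .nil .nil)))) (.nd (nat_lit 5) 
(.lf (nat_lit 39322) (.g (nat_lit 492) (.e (nat_lit 1224) (nat_lit 90) (.e (nat_lit 81947) (nat_lit 20) (.e (nat_lit 1963) (nat_lit 134) .nil))) .nil)) 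
(.lf (nat_lit 39354) (.g (nat_lit 2222) (.e (nat_lit 1224) (nat_lit 90) (.e (nat_lit 81947) (nat_lit 20) (.e (nat_lit 2280) (nat_lit 150) (.e (nat_lit 770071) (nat_lit 8) (.e (nat_lit 65610) (nat_lit 10) (.e (nat_lit 344090) (nat_lit 18) (.e (nat_lit 7125) (nat_lit 382) .nil))))))) (.g (nat_lit 5) .nil .nil)))))) (.nd (nat_lit 3) (.nd (nat_lit 4) (.nd (nat_lit 5) 
(.lf (nat_lit 39302) (.g (nat_lit 3538) (.e (nat_lit 1224) (nat_lit 90) (.e (nat_lit 81946) (nat_lit 20) (.e (nat_lit 2280) (nat_lit 150) (.e (nat_lit 770071) (nat_lit 8) (.e (nat_lit 65610) (nat_lit 10) (.e (nat_lit 344090) (nat_lit 18) (.e (nat_lit 7125) (nat_lit 382) .nil))))))) (.g (nat_lit 0) .nil .nil))) 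
(.lf (nat_lit 39334) (.g (nat_lit 1156) (.e (nat_lit 1224) (nat_lit 90) (.e (nat_lit 81947) (nat_lit 20) (.e (nat_lit 2005) (nat_lit 138) (.e (nat_lit 671747) (nat_lit 0) (.e (nat_lit 1599) (nat_lit 111) .nil))))) .nil))) (.nd (nat_lit 5) 
(.lf (nat_lit 39318) (.g (nat_lit 500) (.e (nat_lit 1224) (nat_lit 90) (.e (nat_lit 81947) (nat_lit 20) (.e (nat_lit 1886) (nat_lit 127) .nil))) .nil)) 
(.lf (nat_lit 39350) (.g (nat_lit 1904) (.e (nat_lit 1224) (nat_lit 90) (.e (nat_lit 81947) (nat_lit 20) (.e (nat_lit 2270) (nat_lit 149) (.e (nat_lit 761868) (nat_lit 5) (.e (nat_lit 1582) (nat_lit 111) (.e (nat_lit 360451) (nat_lit 0) (.e (nat_lit 7122) (nat_lit 382) .nil))))))) (.g (nat_lit 4) .nil .nil))))) (.nd (nat_lit 4) (.nd (nat_lit 5) 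
(.lf (nat_lit 39310) (.g (nat_lit 1997) (.e (nat_lit 1224) (nat_lit 90) (.e (nat_lit 81946) (nat_lit 20) (.e (nat_lit 2281) (nat_lit 150) (.e (nat_lit 770072) (nat_lit 8) (.e (nat_lit 65616) (nat_lit 10) (.e (nat_lit 344096) (nat_lit 18) (.e (nat_lit 7125) (nat_lit 382) .nil))))))) (.g (nat_lit 4) .nil .nil))) 
(.lf (nat_lit 39342) (.g (nat_lit 2605) (.e (nat_lit 1224) (nat_lit 90) (.e (nat_lit 81947) (nat_lit 20) (.e (nat_lit 2006) (nat_lit 138) (.e (nat_lit 671762) (nat_lit 4) (.e (nat_lit 65598) (nat_lit 9) (.e (nat_lit 336032) (nat_lit 4) (.e (nat_lit 123184) (nat_lit 264) .nil))))))) (.g (nat_lit 6) .nil .nil)))) (.nd (nat_lit 5) 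
(.lf (nat_lit 39326) (.g (nat_lit 1632) (.e (nat_lit 1224) (nat_lit 90) (.e (nat_lit 81947) (nat_lit 20) (.e (nat_lit 2003) (nat_lit 138) (.e (nat_lit 671747) (nat_lit 0) (.e (nat_lit 1572) (nat_lit 110) .nil))))) .nil)) 
(.lf (nat_lit 39358) (.g (nat_lit 1525) (.e (nat_lit 1224) (nat_lit 90) (.e (nat_lit 81947) (nat_lit 20) (.e (nat_lit 2281) (nat_lit 150) (.e (nat_lit 770071) (nat_lit 8) (.e (nat_lit 65610) (nat_lit 10) (.e (nat_lit 344090) (nat_lit 18) (.e (nat_lit 7125) (nat_lit 382) .nil))))))) (.g (nat_lit 4) .nil .nil)))))))) 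
(.nd (nat_lit 1) (.nd (nat_lit 2) (.nd (nat_lit 3) (.nd (nat_lit 4) (.nd (nat_lit 5) 
(.lf (nat_lit 39297) (.g (nat_lit 2698) (.e (nat_lit 1224) (nat_lit 90) (.e (nat_lit 81946) (nat_lit 20) (.e (nat_lit 2006) (nat_lit 138) (.e (nat_lit 671764) (nat_lit 6) (.e (nat_lit 81957) (nat_lit 24) (.e (nat_lit 123184) (nat_lit 264) .nil)))))) (.g (nat_lit 6) .nil .nil))) 
(.lf (nat_lit 39329) (.g (nat_lit 1688) (.e (nat_lit 1224) (nat_lit 90) (.e (nat_lit 81947) (nat_lit 20) (.e (nat_lit 2003) (nat_lit 138) (.e (nat_lit 671762) (nat_lit 4) (.e (nat_lit 65598) (nat_lit 9) (.e (nat_lit 336032) (nat_lit 4) (.e (nat_lit 123184) (nat_lit 264) .nil))))))) (.g (nat_lit 4) .nil .nil)))) (.nd (nat_lit 5) 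
(.lf (nat_lit 39313) (.g (nat_lit 2469) (.e (nat_lit 1224) (nat_lit 90) (.e (nat_lit 81946) (nat_lit 20) (.e (nat_lit 2281) (nat_lit 150) (.e (nat_lit 770072) (nat_lit 8) (.e (nat_lit 65617) (nat_lit 10) (.e (nat_lit 344095) (nat_lit 18) (.e (nat_lit 7125) (nat_lit 382) .nil))))))) (.g (nat_lit 5) .nil .nil))) 
(.lf (nat_lit 39345) (.g (nat_lit 2581) (.e (nat_lit 1224) (nat_lit 90) (.e (nat_lit 81947) (nat_lit 20) (.e (nat_lit 2006) (nat_lit 138) (.e (nat_lit 671764) (nat_lit 6) (.e (nat_lit 81957) (nat_lit 24) (.e (nat_lit 123185) (nat_lit 264) .nil)))))) (.g (nat_lit 0) .nil .nil))))) (.nd (nat_lit 4) (.nd (nat_lit 5) 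
(.lf (nat_lit 39305) (.g (nat_lit 3664) (.e (nat_lit 1224) (nat_lit 90) (.e (nat_lit 81946) (nat_lit 20) (.e (nat_lit 2280) (nat_lit 150) (.e (nat_lit 770072) (nat_lit 8) (.e (nat_lit 65610) (nat_lit 10) (.e (nat_lit 344090) (nat_lit 18) (.e (nat_lit 7125) (nat_lit 382) .nil))))))) (.g (nat_lit 0) .nil .nil))) 
(.lf (nat_lit 39337) (.g (nat_lit 2405) (.e (nat_lit 1224) (nat_lit 90) (.e (nat_lit 81947) (nat_lit 20) (.e (nat_lit 2005) (nat_lit 138) (.e (nat_lit 671748) (nat_lit 0) (.e (nat_lit 1589) (nat_lit 111) (.e (nat_lit 360457) (nat_lit 0) (.e (nat_lit 5818) (nat_lit 320) .nil))))))) (.g (nat_lit 5) .nil .nil)))) (.nd (nat_lit 5) 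
(.lf (nat_lit 39321) (.g (nat_lit 1278) (.e (nat_lit 1224) (nat_lit 90) (.e (nat_lit 81947) (nat_lit 20) (.e (nat_lit 1962) (nat_lit 134) (.e (nat_lit 638985) (nat_lit 5) (.e (nat_lit 3022) (nat_lit 187) (.e (nat_lit 458496) (nat_lit 0) (.e (nat_lit 5057) (nat_lit 292) .nil))))))) (.g (nat_lit 5) .nil .nil))) 
(.lf (nat_lit 39353) (.g (nat_lit 983) (.e (nat_lit 1224) (nat_lit 90) (.e (nat_lit 81947) (nat_lit 20) (.e (nat_lit 2280) (nat_lit 150) (.e (nat_lit 770055) (nat_lit 5) .nil)))) .nil))))) (.nd (nat_lit 3) (.nd (nat_lit 4) (.nd (nat_lit 5) 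
(.lf (nat_lit 39301) (.g (nat_lit 2235) (.e (nat_lit 1224) (nat_lit 90) (.e (nat_lit 81946) (nat_lit 20) (.e (nat_lit 2280) (nat_lit 150) (.e (nat_lit 770055) (nat_lit 5) (.e (nat_lit 1595) (nat_lit 111) (.e (nat_lit 360449) (nat_lit 0) (.e (nat_lit 7125) (nat_lit 382) .nil))))))) (.g (nat_lit 5) .nil .nil))) 
(.lf (nat_lit 39333) (.g (nat_lit 1436) (.e (nat_lit 1224) (nat_lit 90) (.e (nat_lit 81947) (nat_lit 20) (.e (nat_lit 2005) (nat_lit 138) (.e (nat_lit 671747) (nat_lit 0) (.e (nat_lit 1598) (nat_lit 111) (.e (nat_lit 360456) (nat_lit 0) (.e (nat_lit 5818) (nat_lit 320) .nil))))))) (.g (nat_lit 4) .nil .nil)))) (.nd (nat_lit 5) 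
(.lf (nat_lit 39317) (.g (nat_lit 2222) (.e (nat_lit 1224) (nat_lit 90) (.e (nat_lit 81947) (nat_lit 20) (.e (nat_lit 1842) (nat_lit 123) (.e (nat_lit 548891) (nat_lit 11) (.e (nat_lit 81959) (nat_lit 24) .nil))))) .nil)) 
(.lf (nat_lit 39349) (.g (nat_lit 1314) (.e (nat_lit 1224) (nat_lit 90) (.e (nat_lit 81947) (nat_lit 20) (.e (nat_lit 2270) (nat_lit 149) (.e (nat_lit 761868) (nat_lit 5) .nil)))) .nil)))) (.nd (nat_lit 4) (.nd (nat_lit 5) 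
(.lf (nat_lit 39309) (.g (nat_lit 1857) (.e (nat_lit 1224) (nat_lit 90) (.e (nat_lit 81946) (nat_lit 20) (.e (nat_lit 2281) (nat_lit 150) (.e (nat_lit 770071) (nat_lit 8) (.e (nat_lit 65617) (nat_lit 10) (.e (nat_lit 344091) (nat_lit 18) (.e (nat_lit 7125) (nat_lit 382) .nil))))))) (.g (nat_lit 4) .nil .nil))) 
(.lf (nat_lit 39341) (.g (nat_lit 2418) (.e (nat_lit 1224) (nat_lit 90) (.e (nat_lit 81947) (nat_lit 20) (.e (nat_lit 2006) (nat_lit 138) (.e (nat_lit 671748) (nat_lit 0) (.e (nat_lit 1589) (nat_lit 111) (.e (nat_lit 360457) (nat_lit 0) (.e (nat_lit 5818) (nat_lit 320) .nil))))))) (.g (nat_lit 5) .nil .nil)))) (.nd (nat_lit 5) 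
(.lf (nat_lit 39325) (.g (nat_lit 504) (.e (nat_lit 1224) (nat_lit 90) (.e (nat_lit 81947) (nat_lit 20) (.e (nat_lit 2003) (nat_lit 138) .nil))) .nil)) 
(.lf (nat_lit 39357) (.g (nat_lit 878) (.e (nat_lit 1224) (nat_lit 90) (.e (nat_lit 81947) (nat_lit 20) (.e (nat_lit 2281) (nat_lit 150) (.e (nat_lit 770058) (nat_lit 5) .nil)))) .nil)))))) (.nd (nat_lit 2) (.nd (nat_lit 3) (.nd (nat_lit 4) (.nd (nat_lit 5) 
(.lf (nat_lit 39299) (.g (nat_lit 3566) (.e (nat_lit 1224) (nat_lit 90) (.e (nat_lit 81946) (nat_lit 20) (.e (nat_lit 2270) (nat_lit 149) (.e (nat_lit 761868) (nat_lit 5) (.e (nat_lit 1582) (nat_lit 111) (.e (nat_lit 360451) (nat_lit 0) (.e (nat_lit 7125) (nat_lit 382) .nil))))))) (.g (nat_lit 0) .nil .nil))) 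
(.lf (nat_lit 39331) (.g (nat_lit 2408) (.e (nat_lit 1224) (nat_lit 90) (.e (nat_lit 81947) (nat_lit 20) (.e (nat_lit 2005) (nat_lit 138) (.e (nat_lit 671747) (nat_lit 0) (.e (nat_lit 1586) (nat_lit 111) (.e (nat_lit 360456) (nat_lit 0) (.e (nat_lit 5818) (nat_lit 320) .nil))))))) (.g (nat_lit 7) .nil .nil)))) (.nd (nat_lit 5) 
(.lf (nat_lit 39315) (.g (nat_lit 3993) (.e (nat_lit 1224) (nat_lit 90) (.e (nat_lit 81946) (nat_lit 20) (.e (nat_lit 2281) (nat_lit 150) (.e (nat_lit 770072) (nat_lit 8) (.e (nat_lit 65619) (nat_lit 10) (.e (nat_lit 344090) (nat_lit 18) (.e (nat_lit 7125) (nat_lit 382) .nil))))))) (.g (nat_lit 0) .nil .nil))) 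
(.lf (nat_lit 39347) (.g (nat_lit 1943) (.e (nat_lit 1224) (nat_lit 90) (.e (nat_lit 81947) (nat_lit 20) (.e (nat_lit 2270) (nat_lit 149) (.e (nat_lit 761866) (nat_lit 5) (.e (nat_lit 1582) (nat_lit 111) (.e (nat_lit 360451) (nat_lit 0) (.e (nat_lit 7125) (nat_lit 382) .nil))))))) (.g (nat_lit 4) .nil .nil))))) (.nd (nat_lit 4) (.nd (nat_lit 5) 
(.lf (nat_lit 39307) (.g (nat_lit 3397) (.e (nat_lit 1224) (nat_lit 90) (.e (nat_lit 81946) (nat_lit 20) (.e (nat_lit 2281) (nat_lit 150) (.e (nat_lit 770058) (nat_lit 5) (.e (nat_lit 1598) (nat_lit 111) (.e (nat_lit 360449) (nat_lit 0) (.e (nat_lit 7125) (nat_lit 382) .nil))))))) (.g (nat_lit 0) .nil .nil))) 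
(.lf (nat_lit 39339) (.g (nat_lit 1900) (.e (nat_lit 1224) (nat_lit 90) (.e (nat_lit 81947) (nat_lit 20) (.e (nat_lit 2005) (nat_lit 138) (.e (nat_lit 671762) (nat_lit 4) (.e (nat_lit 65599) (nat_lit 9) (.e (nat_lit 336032) (nat_lit 4) (.e (nat_lit 123184) (nat_lit 264) .nil))))))) (.g (nat_lit 4) .nil .nil)))) (.nd (nat_lit 5) 
(.lf (nat_lit 39323) (.g (nat_lit 1475) (.e (nat_lit 1224) (nat_lit 90) (.e (nat_lit 81947) (nat_lit 20) (.e (nat_lit 1963) (nat_lit 134) (.e (nat_lit 638986) (nat_lit 5) (.e (nat_lit 3015) (nat_lit 187) (.e (nat_lit 458496) (nat_lit 0) (.e (nat_lit 5057) (nat_lit 292) .nil))))))) (.g (nat_lit 5) .nil .nil))) 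
(.lf (nat_lit 39355) (.g (nat_lit 2237) (.e (nat_lit 1224) (nat_lit 90) (.e (nat_lit 81947) (nat_lit 20) (.e (nat_lit 2280) (nat_lit 150) (.e (nat_lit 770071) (nat_lit 8) (.e (nat_lit 65619) (nat_lit 10) (.e (nat_lit 344090) (nat_lit 18) (.e (nat_lit 7125) (nat_lit 382) .nil))))))) (.g (nat_lit 5) .nil .nil)))))) (.nd (nat_lit 3) (.nd (nat_lit 4) (.nd (nat_lit 5) 
(.lf (nat_lit 39303) (.g (nat_lit 3794) (.e (nat_lit 1224) (nat_lit 90) (.e (nat_lit 81946) (nat_lit 20) (.e (nat_lit 2280) (nat_lit 150) (.e (nat_lit 770071) (nat_lit 8) (.e (nat_lit 65617) (nat_lit 10) (.e (nat_lit 344091) (nat_lit 18) (.e (nat_lit 7125) (nat_lit 382) .nil))))))) (.g (nat_lit 0) .nil .nil))) 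
(.lf (nat_lit 39335) (.g (nat_lit 3173) (.e (nat_lit 1224) (nat_lit 90) (.e (nat_lit 81947) (nat_lit 20) (.e (nat_lit 2005) (nat_lit 138) (.e (nat_lit 671748) (nat_lit 0) (.e (nat_lit 1572) (nat_lit 110) (.e (nat_lit 352318) (nat_lit 24) (.e (nat_lit 123184) (nat_lit 264) .nil))))))) (.g (nat_lit 7) .nil .nil)))) (.nd (nat_lit 5) 
(.lf (nat_lit 39319) (.g (nat_lit 482) (.e (nat_lit 1224) (nat_lit 90) (.e (nat_lit 81947) (nat_lit 20) (.e (nat_lit 1962) (nat_lit 134) .nil))) .nil)) 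
(.lf (nat_lit 39351) (.g (nat_lit 1979) (.e (nat_lit 1224) (nat_lit 90) (.e (nat_lit 81947) (nat_lit 20) (.e (nat_lit 2270) (nat_lit 149) (.e (nat_lit 761868) (nat_lit 5) (.e (nat_lit 1597) (nat_lit 111) (.e (nat_lit 360449) (nat_lit 0) (.e (nat_lit 7122) (nat_lit 382) .nil))))))) (.g (nat_lit 4) .nil .nil))))) (.nd (nat_lit 4) (.nd (nat_lit 5) 
(.lf (nat_lit 39311) (.g (nat_lit 2160) (.e (nat_lit 1224) (nat_lit 90) (.e (nat_lit 81946) (nat_lit 20) (.e (nat_lit 2281) (nat_lit 150) (.e (nat_lit 770072) (nat_lit 8) (.e (nat_lit 65617) (nat_lit 10) (.e (nat_lit 344091) (nat_lit 18) (.e (nat_lit 7122) (nat_lit 382) .nil))))))) (.g (nat_lit 4) .nil .nil))) 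
(.lf (nat_lit 39343) (.g (nat_lit 1553) (.e (nat_lit 1224) (nat_lit 90) (.e (nat_lit 81947) (nat_lit 20) (.e (nat_lit 2006) (nat_lit 138) (.e (nat_lit 671762) (nat_lit 4) (.e (nat_lit 65599) (nat_lit 9) .nil))))) .nil))) (.nd (nat_lit 5) 
(.lf (nat_lit 39327) (.g (nat_lit 1815) (.e (nat_lit 1224) (nat_lit 90) (.e (nat_lit 81947) (nat_lit 20) (.e (nat_lit 2003) (nat_lit 138) (.e (nat_lit 671747) (nat_lit 0) (.e (nat_lit 1586) (nat_lit 111) (.e (nat_lit 360456) (nat_lit 0) (.e (nat_lit 5818) (nat_lit 320) .nil))))))) (.g (nat_lit 4) .nil .nil))) 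
(.lf (nat_lit 39359) (.g (nat_lit 1698) (.e (nat_lit 1224) (nat_lit 90) (.e (nat_lit 81947) (nat_lit 20) (.e (nat_lit 2281) (nat_lit 150) (.e (nat_lit 770071) (nat_lit 8) (.e (nat_lit 65617) (nat_lit 10) (.e (nat_lit 344091) (nat_lit 18) (.e (nat_lit 7125) (nat_lit 382) .nil))))))) (.g (nat_lit 4) .nil .nil)))))))))

noncomputable def tv547 : DT := (.nd (nat_lit 0) (.nd (nat_lit 1) (.nd (nat_lit 2) (.nd (nat_lit 3) (.nd (nat_lit 4) (.nd (nat_lit 5) 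
(.lf (nat_lit 39360) (.g (nat_lit 2002) (.e (nat_lit 1224) (nat_lit 90) (.e (nat_lit 81947) (nat_lit 20) (.e (nat_lit 2281) (nat_lit 150) (.e (nat_lit 770072) (nat_lit 8) (.e (nat_lit 65610) (nat_lit 10) (.e (nat_lit 344090) (nat_lit 18) (.e (nat_lit 7122) (nat_lit 382) .nil))))))) (.g (nat_lit 4) .nil .nil))) 
(.lf (nat_lit 39392) (.g (nat_lit 3164) (.e (nat_lit 1224) (nat_lit 90) (.e (nat_lit 81957) (nat_lit 24) (.e (nat_lit 123182) (nat_lit 264) (.e (nat_lit 1224) (nat_lit 90) (.e (nat_lit 81959) (nat_lit 24) (.e (nat_lit 123185) (nat_lit 264) .nil)))))) (.g (nat_lit 6) .nil .nil)))) (.nd (nat_lit 5) 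
(.lf (nat_lit 39376) (.g (nat_lit 918) (.e (nat_lit 1224) (nat_lit 90) (.e (nat_lit 81956) (nat_lit 23) (.e (nat_lit 98320) (nat_lit 17) .nil))) .nil)) 
(.lf (nat_lit 39408) (.g (nat_lit 3557) (.e (nat_lit 1224) (nat_lit 90) (.e (nat_lit 81957) (nat_lit 24) (.e (nat_lit 123195) (nat_lit 266) (.e (nat_lit 57427) (nat_lit 15) (.e (nat_lit 360456) (nat_lit 0) (.e (nat_lit 5818) (nat_lit 320) .nil)))))) (.g (nat_lit 5) .nil .nil))))) (.nd (nat_lit 4) (.nd (nat_lit 5) 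
(.lf (nat_lit 39368) (.g (nat_lit 1105) (.e (nat_lit 1224) (nat_lit 90) (.e (nat_lit 81952) (nat_lit 22) (.e (nat_lit 90160) (nat_lit 11) (.e (nat_lit 32512) (nat_lit 20) .nil)))) .nil)) 
(.lf (nat_lit 39400) (.g (nat_lit 1794) (.e (nat_lit 1224) (nat_lit 90) (.e (nat_lit 81957) (nat_lit 24) (.e (nat_lit 123185) (nat_lit 264) (.e (nat_lit 1224) (nat_lit 90) (.e (nat_lit 81959) (nat_lit 24) (.e (nat_lit 123185) (nat_lit 264) .nil)))))) (.g (nat_lit 5) .nil .nil)))) (.nd (nat_lit 5) 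
(.lf (nat_lit 39384) (.g (nat_lit 1998) (.e (nat_lit 1224) (nat_lit 90) (.e (nat_lit 81957) (nat_lit 24) (.e (nat_lit 123182) (nat_lit 264) (.e (nat_lit 1218) (nat_lit 90) (.e (nat_lit 81959) (nat_lit 24) .nil))))) .nil)) 
(.lf (nat_lit 39416) (.g (nat_lit 1513) (.e (nat_lit 1224) (nat_lit 90) (.e (nat_lit 81957) (nat_lit 24) (.e (nat_lit 123197) (nat_lit 266) (.e (nat_lit 57425) (nat_lit 14) (.e (nat_lit 352318) (nat_lit 24) (.e (nat_lit 123185) (nat_lit 264) .nil)))))) (.g (nat_lit 4) .nil .nil)))))) (.nd (nat_lit 3) (.nd (nat_lit 4) (.nd (nat_lit 5) 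
(.lf (nat_lit 39364) (.g (nat_lit 2666) (.e (nat_lit 1224) (nat_lit 90) (.e (nat_lit 81950) (nat_lit 21) (.e (nat_lit 57681) (nat_lit 155) (.e (nat_lit 122917) (nat_lit 15) .nil)))) .nil)) 
(.lf (nat_lit 39396) (.g (nat_lit 2292) (.e (nat_lit 1224) (nat_lit 90) (.e (nat_lit 81957) (nat_lit 24) (.e (nat_lit 123184) (nat_lit 264) (.e (nat_lit 1222) (nat_lit 90) (.e (nat_lit 81959) (nat_lit 24) (.e (nat_lit 123185) (nat_lit 264) .nil)))))) (.g (nat_lit 4) .nil .nil)))) (.nd (nat_lit 5) 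
(.lf (nat_lit 39380) (.g (nat_lit 3398) (.e (nat_lit 1224) (nat_lit 90) (.e (nat_lit 81956) (nat_lit 23) (.e (nat_lit 98389) (nat_lit 33) (.e (nat_lit 491546) (nat_lit 9) (.e (nat_lit 335997) (nat_lit 1) (.e (nat_lit 65280) (nat_lit 140) .nil)))))) (.g (nat_lit 4) .nil .nil))) 
(.lf (nat_lit 39412) (.g (nat_lit 2427) (.e (nat_lit 1224) (nat_lit 90) (.e (nat_lit 81957) (nat_lit 24) (.e (nat_lit 123197) (nat_lit 266) (.e (nat_lit 57423) (nat_lit 14) (.e (nat_lit 352318) (nat_lit 24) (.e (nat_lit 123185) (nat_lit 264) .nil)))))) (.g (nat_lit 4) .nil .nil))))) (.nd (nat_lit 4) (.nd (nat_lit 5) 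
(.lf (nat_lit 39372) (.g (nat_lit 2218) (.e (nat_lit 1224) (nat_lit 90) (.e (nat_lit 81955) (nat_lit 23) (.e (nat_lit 98313) (nat_lit 9) (.e (nat_lit 335995) (nat_lit 1) (.e (nat_lit 57848) (nat_lit 252) (.e (nat_lit 57367) (nat_lit 1) (.e (nat_lit 65280) (nat_lit 209) .nil))))))) (.g (nat_lit 5) .nil .nil))) 
(.lf (nat_lit 39404) (.g (nat_lit 4166) (.e (nat_lit 1224) (nat_lit 90) (.e (nat_lit 81957) (nat_lit 24) (.e (nat_lit 123195) (nat_lit 266) (.e (nat_lit 57424) (nat_lit 14) (.e (nat_lit 352318) (nat_lit 24) (.e (nat_lit 123182) (nat_lit 264) .nil)))))) (.g (nat_lit 6) .nil .nil)))) (.nd (nat_lit 5) 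
(.lf (nat_lit 39388) (.g (nat_lit 1707) (.e (nat_lit 1224) (nat_lit 90) (.e (nat_lit 81957) (nat_lit 24) (.e (nat_lit 123182) (nat_lit 264) (.e (nat_lit 1223) (nat_lit 90) .nil)))) .nil)) 
(.lf (nat_lit 39420) (.g (nat_lit 2181) (.e (nat_lit 1224) (nat_lit 90) (.e (nat_lit 81957) (nat_lit 24) (.e (nat_lit 123198) (nat_lit 266) (.e (nat_lit 57424) (nat_lit 14) (.e (nat_lit 352316) (nat_lit 24) .nil))))) .nil)))))) (.nd (nat_lit 2) (.nd (nat_lit 3) (.nd (nat_lit 4) (.nd (nat_lit 5) 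
(.lf (nat_lit 39362) (.g (nat_lit 2435) (.e (nat_lit 1224) (nat_lit 90) (.e (nat_lit 81947) (nat_lit 20) (.e (nat_lit 2281) (nat_lit 150) (.e (nat_lit 770072) (nat_lit 8) (.e (nat_lit 65617) (nat_lit 10) (.e (nat_lit 344095) (nat_lit 18) (.e (nat_lit 7125) (nat_lit 382) .nil))))))) (.g (nat_lit 5) .nil .nil))) 
(.lf (nat_lit 39394) (.g (nat_lit 1908) (.e (nat_lit 1224) (nat_lit 90) (.e (nat_lit 81957) (nat_lit 24) (.e (nat_lit 123183) (nat_lit 264) (.e (nat_lit 1222) (nat_lit 90) (.e (nat_lit 81959) (nat_lit 24) (.e (nat_lit 123185) (nat_lit 264) .nil)))))) (.g (nat_lit 4) .nil .nil)))) (.nd (nat_lit 5) 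
(.lf (nat_lit 39378) (.g (nat_lit 1281) (.e (nat_lit 1224) (nat_lit 90) (.e (nat_lit 81956) (nat_lit 23) (.e (nat_lit 98350) (nat_lit 24) .nil))) .nil)) 
(.lf (nat_lit 39410) (.g (nat_lit 2246) (.e (nat_lit 1224) (nat_lit 90) (.e (nat_lit 81957) (nat_lit 24) (.e (nat_lit 123195) (nat_lit 266) (.e (nat_lit 57428) (nat_lit 15) (.e (nat_lit 360457) (nat_lit 0) .nil))))) .nil)))) (.nd (nat_lit 4) (.nd (nat_lit 5) 
(.lf (nat_lit 39370) (.g (nat_lit 2147) (.e (nat_lit 1224) (nat_lit 90) (.e (nat_lit 81955) (nat_lit 23) (.e (nat_lit 98313) (nat_lit 9) (.e (nat_lit 335986) (nat_lit 1) (.e (nat_lit 57847) (nat_lit 252) (.e (nat_lit 57365) (nat_lit 1) (.e (nat_lit 65280) (nat_lit 209) .nil))))))) (.g (nat_lit 5) .nil .nil))) 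
(.lf (nat_lit 39402) (.g (nat_lit 2735) (.e (nat_lit 1224) (nat_lit 90) (.e (nat_lit 81957) (nat_lit 24) (.e (nat_lit 123195) (nat_lit 266) (.e (nat_lit 57423) (nat_lit 14) (.e (nat_lit 352318) (nat_lit 24) .nil))))) .nil))) (.nd (nat_lit 5) 
(.lf (nat_lit 39386) (.g (nat_lit 3049) (.e (nat_lit 1224) (nat_lit 90) (.e (nat_lit 81957) (nat_lit 24) (.e (nat_lit 123182) (nat_lit 264) (.e (nat_lit 1222) (nat_lit 90) (.e (nat_lit 81959) (nat_lit 24) (.e (nat_lit 123184) (nat_lit 264) .nil)))))) (.g (nat_lit 4) .nil .nil))) 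
(.lf (nat_lit 39418) (.g (nat_lit 2396) (.e (nat_lit 1224) (nat_lit 90) (.e (nat_lit 81957) (nat_lit 24) (.e (nat_lit 123197) (nat_lit 266) (.e (nat_lit 57427) (nat_lit 15) (.e (nat_lit 360457) (nat_lit 0) (.e (nat_lit 5818) (nat_lit 320) .nil)))))) (.g (nat_lit 5) .nil .nil)))))) (.nd (nat_lit 3) (.nd (nat_lit 4) (.nd (nat_lit 5) 
(.lf (nat_lit 39366) (.g (nat_lit 2633) (.e (nat_lit 1224) (nat_lit 90) (.e (nat_lit 81952) (nat_lit 22) (.e (nat_lit 90160) (nat_lit 11) (.e (nat_lit 24599) (nat_lit 1) (.e (nat_lit 57847) (nat_lit 252) (.e (nat_lit 57365) (nat_lit 1) (.e (nat_lit 65280) (nat_lit 209) .nil))))))) (.g (nat_lit 5) .nil .nil))) 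
(.lf (nat_lit 39398) (.g (nat_lit 2308) (.e (nat_lit 1224) (nat_lit 90) (.e (nat_lit 81957) (nat_lit 24) (.e (nat_lit 123184) (nat_lit 264) (.e (nat_lit 1224) (nat_lit 90) (.e (nat_lit 81957) (nat_lit 24) (.e (nat_lit 123185) (nat_lit 264) .nil)))))) (.g (nat_lit 5) .nil .nil)))) (.nd (nat_lit 5) 
(.lf (nat_lit 39382) (.g (nat_lit 776) (.e (nat_lit 1224) (nat_lit 90) (.e (nat_lit 81957) (nat_lit 24) (.e (nat_lit 123181) (nat_lit 264) (.e (nat_lit 1216) (nat_lit 90) .nil)))) .nil)) 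
(.lf (nat_lit 39414) (.g (nat_lit 3511) (.e (nat_lit 1224) (nat_lit 90) (.e (nat_lit 81957) (nat_lit 24) (.e (nat_lit 123197) (nat_lit 266) (.e (nat_lit 57424) (nat_lit 14) (.e (nat_lit 352318) (nat_lit 24) (.e (nat_lit 123184) (nat_lit 264) .nil)))))) (.g (nat_lit 6) .nil .nil))))) (.nd (nat_lit 4) (.nd (nat_lit 5) 
(.lf (nat_lit 39374) (.g (nat_lit 983) (.e (nat_lit 1224) (nat_lit 90) (.e (nat_lit 81956) (nat_lit 23) (.e (nat_lit 98313) (nat_lit 9) .nil))) .nil)) 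
(.lf (nat_lit 39406) (.g (nat_lit 2413) (.e (nat_lit 1224) (nat_lit 90) (.e (nat_lit 81957) (nat_lit 24) (.e (nat_lit 123195) (nat_lit 266) (.e (nat_lit 57425) (nat_lit 14) (.e (nat_lit 352318) (nat_lit 24) (.e (nat_lit 123185) (nat_lit 264) .nil)))))) (.g (nat_lit 5) .nil .nil)))) (.nd (nat_lit 5) 
(.lf (nat_lit 39390) (.g (nat_lit 3036) (.e (nat_lit 1224) (nat_lit 90) (.e (nat_lit 81957) (nat_lit 24) (.e (nat_lit 123182) (nat_lit 264) (.e (nat_lit 1224) (nat_lit 90) (.e (nat_lit 81957) (nat_lit 24) (.e (nat_lit 123185) (nat_lit 264) .nil)))))) (.g (nat_lit 5) .nil .nil))) 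
(.lf (nat_lit 39422) (.g (nat_lit 2827) (.e (nat_lit 1224) (nat_lit 90) (.e (nat_lit 81957) (nat_lit 24) (.e (nat_lit 123198) (nat_lit 266) (.e (nat_lit 57424) (nat_lit 14) (.e (nat_lit 352318) (nat_lit 24) (.e (nat_lit 123185) (nat_lit 264) .nil)))))) (.g (nat_lit 5) .nil .nil)))))))) (.nd (nat_lit 1) (.nd (nat_lit 2) (.nd (nat_lit 3) (.nd (nat_lit 4) (.nd (nat_lit 5) 
(.lf (nat_lit 39361) (.g (nat_lit 1998) (.e (nat_lit 1224) (nat_lit 90) (.e (nat_lit 81947) (nat_lit 20) (.e (nat_lit 2281) (nat_lit 150) (.e (nat_lit 770072) (nat_lit 8) (.e (nat_lit 65616) (nat_lit 10) (.e (nat_lit 344096) (nat_lit 18) (.e (nat_lit 7125) (nat_lit 382) .nil))))))) (.g (nat_lit 4) .nil .nil))) 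
(.lf (nat_lit 39393) (.g (nat_lit 1579) (.e (nat_lit 1224) (nat_lit 90) (.e (nat_lit 81957) (nat_lit 24) (.e (nat_lit 123182) (nat_lit 264) (.e (nat_lit 7936) (nat_lit 90) .nil)))) .nil))) (.nd (nat_lit 5) 
(.lf (nat_lit 39377) (.g (nat_lit 1681) (.e (nat_lit 1224) (nat_lit 90) (.e (nat_lit 81956) (nat_lit 23) (.e (nat_lit 98320) (nat_lit 17) (.e (nat_lit 7593) (nat_lit 407) .nil)))) .nil)) 
(.lf (nat_lit 39409) (.g (nat_lit 3669) (.e (nat_lit 1224) (nat_lit 90) (.e (nat_lit 81957) (nat_lit 24) (.e (nat_lit 123195) (nat_lit 266) (.e (nat_lit 57427) (nat_lit 15) (.e (nat_lit 360457) (nat_lit 0) (.e (nat_lit 5818) (nat_lit 320) .nil)))))) (.g (nat_lit 4) .nil .nil))))) (.nd (nat_lit 4) (.nd (nat_lit 5) 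
(.lf (nat_lit 39369) (.g (nat_lit 697) (.e (nat_lit 1224) (nat_lit 90) (.e (nat_lit 81954) (nat_lit 23) (.e (nat_lit 98313) (nat_lit 9) .nil))) .nil)) 
(.lf (nat_lit 39401) (.g (nat_lit 586) (.e (nat_lit 1224) (nat_lit 90) (.e (nat_lit 81957) (nat_lit 24) (.e (nat_lit 123185) (nat_lit 264) (.e (nat_lit 7936) (nat_lit 90) .nil)))) .nil))) (.nd (nat_lit 5) 
(.lf (nat_lit 39385) (.g (nat_lit 1368) (.e (nat_lit 1224) (nat_lit 90) (.e (nat_lit 81957) (nat_lit 24) (.e (nat_lit 123182) (nat_lit 264) (.e (nat_lit 1222) (nat_lit 90) .nil)))) .nil)) 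
(.lf (nat_lit 39417) (.g (nat_lit 1687) (.e (nat_lit 1224) (nat_lit 90) (.e (nat_lit 81957) (nat_lit 24) (.e (nat_lit 123197) (nat_lit 266) (.e (nat_lit 57426) (nat_lit 15) (.e (nat_lit 360457) (nat_lit 0) .nil))))) .nil))))) (.nd (nat_lit 3) (.nd (nat_lit 4) (.nd (nat_lit 5) 
(.lf (nat_lit 39365) (.g (nat_lit 2045) (.e (nat_lit 1224) (nat_lit 90) (.e (nat_lit 81950) (nat_lit 21) (.e (nat_lit 57681) (nat_lit 155) (.e (nat_lit 122919) (nat_lit 15) .nil)))) .nil)) 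
(.lf (nat_lit 39397) (.g (nat_lit 1073) (.e (nat_lit 1224) (nat_lit 90) (.e (nat_lit 81957) (nat_lit 24) (.e (nat_lit 123184) (nat_lit 264) (.e (nat_lit 1224) (nat_lit 90) .nil)))) .nil))) (.nd (nat_lit 5) 
(.lf (nat_lit 39381) (.g (nat_lit 656) (.e (nat_lit 1224) (nat_lit 90) (.e (nat_lit 81957) (nat_lit 24) (.e (nat_lit 123181) (nat_lit 264) .nil))) .nil)) 
(.lf (nat_lit 39413) (.g (nat_lit 2279) (.e (nat_lit 1224) (nat_lit 90) (.e (nat_lit 81957) (nat_lit 24) (.e (nat_lit 123197) (nat_lit 266) (.e (nat_lit 57424) (nat_lit 14) (.e (nat_lit 352317) (nat_lit 24) .nil))))) .nil)))) (.nd (nat_lit 4) (.nd (nat_lit 5) 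
(.lf (nat_lit 39373) (.g (nat_lit 1968) (.e (nat_lit 1224) (nat_lit 90) (.e (nat_lit 81955) (nat_lit 23) (.e (nat_lit 98313) (nat_lit 9) (.e (nat_lit 335995) (nat_lit 1) (.e (nat_lit 57849) (nat_lit 252) .nil))))) .nil)) 
(.lf (nat_lit 39405) (.g (nat_lit 3822) (.e (nat_lit 1224) (nat_lit 90) (.e (nat_lit 81957) (nat_lit 24) (.e (nat_lit 123195) (nat_lit 266) (.e (nat_lit 57424) (nat_lit 14) (.e (nat_lit 352318) (nat_lit 24) (.e (nat_lit 123185) (nat_lit 264) .nil)))))) (.g (nat_lit 6) .nil .nil)))) (.nd (nat_lit 5) 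
(.lf (nat_lit 39389) (.g (nat_lit 1782) (.e (nat_lit 1224) (nat_lit 90) (.e (nat_lit 81957) (nat_lit 24) (.e (nat_lit 123182) (nat_lit 264) (.e (nat_lit 1224) (nat_lit 90) .nil)))) .nil)) 
(.lf (nat_lit 39421) (.g (nat_lit 3244) (.e (nat_lit 1224) (nat_lit 90) (.e (nat_lit 81957) (nat_lit 24) (.e (nat_lit 123198) (nat_lit 266) (.e (nat_lit 57424) (nat_lit 14) (.e (nat_lit 352318) (nat_lit 24) (.e (nat_lit 123184) (nat_lit 264) .nil)))))) (.g (nat_lit 6) .nil .nil))))))) (.nd (nat_lit 2) (.nd (nat_lit 3) (.nd (nat_lit 4) (.nd (nat_lit 5) 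
(.lf (nat_lit 39363) (.g (nat_lit 2196) (.e (nat_lit 1224) (nat_lit 90) (.e (nat_lit 81947) (nat_lit 20) (.e (nat_lit 2281) (nat_lit 150) (.e (nat_lit 770074) (nat_lit 10) (.e (nat_lit 81959) (nat_lit 24) (.e (nat_lit 130816) (nat_lit 152) .nil)))))) (.g (nat_lit 5) .nil .nil))) 
(.lf (nat_lit 39395) (.g (nat_lit 2445) (.e (nat_lit 1224) (nat_lit 90) (.e (nat_lit 81957) (nat_lit 24) (.e (nat_lit 123184) (nat_lit 264) (.e (nat_lit 1222) (nat_lit 90) (.e (nat_lit 81959) (nat_lit 24) (.e (nat_lit 123184) (nat_lit 264) .nil)))))) (.g (nat_lit 4) .nil .nil)))) (.nd (nat_lit 5) 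
(.lf (nat_lit 39379) (.g (nat_lit 3062) (.e (nat_lit 1224) (nat_lit 90) (.e (nat_lit 81956) (nat_lit 23) (.e (nat_lit 98350) (nat_lit 24) (.e (nat_lit 409649) (nat_lit 18) .nil)))) .nil)) 
(.lf (nat_lit 39411) (.g (nat_lit 2727) (.e (nat_lit 1224) (nat_lit 90) (.e (nat_lit 81957) (nat_lit 24) (.e (nat_lit 123196) (nat_lit 266) (.e (nat_lit 57424) (nat_lit 14) (.e (nat_lit 352318) (nat_lit 24) (.e (nat_lit 123185) (nat_lit 264) .nil)))))) (.g (nat_lit 5) .nil .nil))))) (.nd (nat_lit 4) (.nd (nat_lit 5) 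
(.lf (nat_lit 39371) (.g (nat_lit 2701) (.e (nat_lit 1224) (nat_lit 90) (.e (nat_lit 81955) (nat_lit 23) (.e (nat_lit 98313) (nat_lit 9) (.e (nat_lit 335995) (nat_lit 1) (.e (nat_lit 57847) (nat_lit 252) (.e (nat_lit 57365) (nat_lit 1) (.e (nat_lit 65280) (nat_lit 209) .nil))))))) (.g (nat_lit 5) .nil .nil))) 
(.lf (nat_lit 39403) (.g (nat_lit 2155) (.e (nat_lit 1224) (nat_lit 90) (.e (nat_lit 81957) (nat_lit 24) (.e (nat_lit 123195) (nat_lit 266) (.e (nat_lit 57424) (nat_lit 14) (.e (nat_lit 352318) (nat_lit 24) .nil))))) .nil))) (.nd (nat_lit 5) 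
(.lf (nat_lit 39387) (.g (nat_lit 2913) (.e (nat_lit 1224) (nat_lit 90) (.e (nat_lit 81957) (nat_lit 24) (.e (nat_lit 123182) (nat_lit 264) (.e (nat_lit 1222) (nat_lit 90) (.e (nat_lit 81959) (nat_lit 24) (.e (nat_lit 123185) (nat_lit 264) .nil)))))) (.g (nat_lit 4) .nil .nil))) 
(.lf (nat_lit 39419) (.g (nat_lit 1807) (.e (nat_lit 1224) (nat_lit 90) (.e (nat_lit 81957) (nat_lit 24) (.e (nat_lit 123197) (nat_lit 266) (.e (nat_lit 57428) (nat_lit 15) (.e (nat_lit 360457) (nat_lit 0) .nil))))) .nil))))) (.nd (nat_lit 3) (.nd (nat_lit 4) (.nd (nat_lit 5) 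
(.lf (nat_lit 39367) (.g (nat_lit 1747) (.e (nat_lit 1224) (nat_lit 90) (.e (nat_lit 81952) (nat_lit 22) (.e (nat_lit 90160) (nat_lit 11) (.e (nat_lit 24599) (nat_lit 1) (.e (nat_lit 57854) (nat_lit 252) .nil))))) .nil)) 
(.lf (nat_lit 39399) (.g (nat_lit 1094) (.e (nat_lit 1224) (nat_lit 90) (.e (nat_lit 81957) (nat_lit 24) (.e (nat_lit 123184) (nat_lit 264) (.e (nat_lit 7936) (nat_lit 90) .nil)))) .nil))) (.nd (nat_lit 5) 
(.lf (nat_lit 39383) (.g (nat_lit 1446) (.e (nat_lit 1224) (nat_lit 90) (.e (nat_lit 81957) (nat_lit 24) (.e (nat_lit 123182) (nat_lit 264) (.e (nat_lit 1201) (nat_lit 88) .nil)))) .nil)) 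
(.lf (nat_lit 39415) (.g (nat_lit 3089) (.e (nat_lit 1224) (nat_lit 90) (.e (nat_lit 81957) (nat_lit 24) (.e (nat_lit 123197) (nat_lit 266) (.e (nat_lit 57424) (nat_lit 14) (.e (nat_lit 352318) (nat_lit 24) (.e (nat_lit 123185) (nat_lit 264) .nil)))))) (.g (nat_lit 5) .nil .nil))))) (.nd (nat_lit 4) (.nd (nat_lit 5) 
(.lf (nat_lit 39375) (.g (nat_lit 1222) (.e (nat_lit 1224) (nat_lit 90) (.e (nat_lit 81956) (nat_lit 23) (.e (nat_lit 106240) (nat_lit 15) .nil))) .nil)) 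
(.lf (nat_lit 39407) (.g (nat_lit 2266) (.e (nat_lit 1224) (nat_lit 90) (.e (nat_lit 81957) (nat_lit 24) (.e (nat_lit 123195) (nat_lit 266) (.e (nat_lit 57426) (nat_lit 15) (.e (nat_lit 360456) (nat_lit 0) .nil))))) .nil))) (.nd (nat_lit 5) 
(.lf (nat_lit 39391) (.g (nat_lit 2120) (.e (nat_lit 1224) (nat_lit 90) (.e (nat_lit 81957) (nat_lit 24) (.e (nat_lit 123182) (nat_lit 264) (.e (nat_lit 1224) (nat_lit 90) (.e (nat_lit 81959) (nat_lit 24) .nil))))) .nil)) 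
(.lf (nat_lit 39423) (.g (nat_lit 1628) (.e (nat_lit 1224) (nat_lit 90) (.e (nat_lit 81957) (nat_lit 24) (.e (nat_lit 123198) (nat_lit 266) (.e (nat_lit 57428) (nat_lit 15) (.e (nat_lit 360457) (nat_lit 0) (.e (nat_lit 5818) (nat_lit 320) .nil)))))) (.g (nat_lit 4) .nil .nil)))))))))

noncomputable def tv548 : DT := (.nd (nat_lit 0) (.nd (nat_lit 1) (.nd (nat_lit 2) (.nd (nat_lit 3) (.nd (nat_lit 4) (.nd (nat_lit 5) (.nd (nat_lit 6) 
(.lf (nat_lit 39424) (.g (nat_lit 1212) (.e (nat_lit 1224) (nat_lit 90) (.e (nat_lit 81958) (nat_lit 24) (.e (nat_lit 123182) (nat_lit 264) (.e (nat_lit 1224) (nat_lit 90) .nil)))) .nil)) 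
(.lf (nat_lit 39488) (.g (nat_lit 1957) (.e (nat_lit 1224) (nat_lit 90) (.e (nat_lit 81959) (nat_lit 24) (.e (nat_lit 123198) (nat_lit 266) (.e (nat_lit 57427) (nat_lit 15) (.e (nat_lit 360457) (nat_lit 0) (.e (nat_lit 5818) (nat_lit 320) .nil)))))) (.g (nat_lit 5) .nil .nil)))) (.nd (nat_lit 6) 
(.lf (nat_lit 39456) (.g (nat_lit 2139) (.e (nat_lit 1224) (nat_lit 90) (.e (nat_lit 81959) (nat_lit 24) (.e (nat_lit 123194) (nat_lit 266) (.e (nat_lit 57424) (nat_lit 14) (.e (nat_lit 352318) (nat_lit 24) (.e (nat_lit 123183) (nat_lit 264) .nil)))))) (.g (nat_lit 4) .nil .nil))) 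
(.lf (nat_lit 39520) (.g (nat_lit 574) (.e (nat_lit 7936) (nat_lit 90) (.e (nat_lit 81922) (nat_lit 0) (.e (nat_lit 3748) (nat_lit 228) (.e (nat_lit 786481) (nat_lit 30) .nil)))) .nil)))) (.nd (nat_lit 5) (.nd (nat_lit 6) 
(.lf (nat_lit 39440) (.g (nat_lit 3188) (.e (nat_lit 1224) (nat_lit 90) (.e (nat_lit 81959) (nat_lit 24) (.e (nat_lit 123182) (nat_lit 264) (.e (nat_lit 1224) (nat_lit 90) (.e (nat_lit 81959) (nat_lit 24) (.e (nat_lit 123185) (nat_lit 264) .nil)))))) (.g (nat_lit 5) .nil .nil))) 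
(.lf (nat_lit 39504) (.g (nat_lit 1461) (.e (nat_lit 1224) (nat_lit 90) (.e (nat_lit 81965) (nat_lit 26) (.e (nat_lit 147495) (nat_lit 11) (.e (nat_lit 24640) (nat_lit 10) .nil)))) .nil))) (.nd (nat_lit 6) 
(.lf (nat_lit 39472) (.g (nat_lit 2271) (.e (nat_lit 1224) (nat_lit 90) (.e (nat_lit 81959) (nat_lit 24) (.e (nat_lit 123197) (nat_lit 266) (.e (nat_lit 57423) (nat_lit 14) (.e (nat_lit 352318) (nat_lit 24) (.e (nat_lit 123185) (nat_lit 264) .nil)))))) (.g (nat_lit 4) .nil .nil))) 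
(.lf (nat_lit 39536) (.g (nat_lit 968) (.e (nat_lit 7936) (nat_lit 90) (.e (nat_lit 81925) (nat_lit 11) (.e (nat_lit 426343) (nat_lit 14) (.e (nat_lit 491560) (nat_lit 10) .nil)))) .nil))))) (.nd (nat_lit 4) (.nd (nat_lit 5) (.nd (nat_lit 6) 
(.lf (nat_lit 39432) (.g (nat_lit 2214) (.e (nat_lit 1224) (nat_lit 90) (.e (nat_lit 81959) (nat_lit 24) (.e (nat_lit 123182) (nat_lit 264) (.e (nat_lit 1222) (nat_lit 90) (.e (nat_lit 81957) (nat_lit 24) .nil))))) .nil)) 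
(.lf (nat_lit 39496) (.g (nat_lit 882) (.e (nat_lit 1224) (nat_lit 90) (.e (nat_lit 81963) (nat_lit 26) (.e (nat_lit 147496) (nat_lit 11) (.e (nat_lit 24640) (nat_lit 10) .nil)))) .nil))) (.nd (nat_lit 6) 
(.lf (nat_lit 39464) (.g (nat_lit 2164) (.e (nat_lit 1224) (nat_lit 90) (.e (nat_lit 81959) (nat_lit 24) (.e (nat_lit 123195) (nat_lit 266) (.e (nat_lit 57425) (nat_lit 14) .nil)))) .nil)) 
(.lf (nat_lit 39528) (.g (nat_lit 1593) (.e (nat_lit 7936) (nat_lit 90) (.e (nat_lit 81925) (nat_lit 11) (.e (nat_lit 426012) (nat_lit 0) (.e (nat_lit 7593) (nat_lit 407) (.e (nat_lit 73730) (nat_lit 0) .nil))))) .nil)))) (.nd (nat_lit 5) (.nd (nat_lit 6) 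
(.lf (nat_lit 39448) (.g (nat_lit 1606) (.e (nat_lit 1224) (nat_lit 90) (.e (nat_lit 81959) (nat_lit 24) (.e (nat_lit 123184) (nat_lit 264) (.e (nat_lit 1224) (nat_lit 90) (.e (nat_lit 81959) (nat_lit 24) .nil))))) .nil)) 
(.lf (nat_lit 39512) (.g (nat_lit 3166) (.e (nat_lit 1224) (nat_lit 90) (.e (nat_lit 81965) (nat_lit 26) (.e (nat_lit 147496) (nat_lit 11) (.e (nat_lit 24640) (nat_lit 10) (.e (nat_lit 344090) (nat_lit 18) (.e (nat_lit 7125) (nat_lit 382) .nil)))))) (.g (nat_lit 5) .nil .nil)))) (.nd (nat_lit 6) 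
(.lf (nat_lit 39480) (.g (nat_lit 1952) (.e (nat_lit 1224) (nat_lit 90) (.e (nat_lit 81959) (nat_lit 24) (.e (nat_lit 123198) (nat_lit 266) (.e (nat_lit 57423) (nat_lit 14) (.e (nat_lit 352318) (nat_lit 24) (.e (nat_lit 123184) (nat_lit 264) .nil)))))) (.g (nat_lit 4) .nil .nil))) 
(.lf (nat_lit 39544) (.g (nat_lit 1285) (.e (nat_lit 7936) (nat_lit 90) (.e (nat_lit 81927) (nat_lit 11) (.e (nat_lit 426012) (nat_lit 0) (.e (nat_lit 7593) (nat_lit 407) (.e (nat_lit 73731) (nat_lit 0) .nil))))) .nil)))))) (.nd (nat_lit 3) (.nd (nat_lit 4) (.nd (nat_lit 5) (.nd (nat_lit 6) 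
(.lf (nat_lit 39428) (.g (nat_lit 1547) (.e (nat_lit 1224) (nat_lit 90) (.e (nat_lit 81959) (nat_lit 24) (.e (nat_lit 123182) (nat_lit 264) (.e (nat_lit 1201) (nat_lit 88) .nil)))) .nil)) 
(.lf (nat_lit 39492) (.g (nat_lit 1708) (.e (nat_lit 1224) (nat_lit 90) (.e (nat_lit 81963) (nat_lit 26) (.e (nat_lit 147495) (nat_lit 11) (.e (nat_lit 24640) (nat_lit 10) (.e (nat_lit 344095) (nat_lit 18) .nil))))) .nil))) (.nd (nat_lit 6) 
(.lf (nat_lit 39460) (.g (nat_lit 3619) (.e (nat_lit 1224) (nat_lit 90) (.e (nat_lit 81959) (nat_lit 24) (.e (nat_lit 123195) (nat_lit 266) (.e (nat_lit 57423) (nat_lit 14) (.e (nat_lit 352318) (nat_lit 24) (.e (nat_lit 123182) (nat_lit 264) .nil)))))) (.g (nat_lit 5) .nil .nil))) 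
(.lf (nat_lit 39524) (.g (nat_lit 906) (.e (nat_lit 7936) (nat_lit 90) (.e (nat_lit 81925) (nat_lit 11) (.e (nat_lit 426010) (nat_lit 0) (.e (nat_lit 7591) (nat_lit 407) (.e (nat_lit 73731) (nat_lit 0) .nil))))) .nil)))) (.nd (nat_lit 5) (.nd (nat_lit 6) 
(.lf (nat_lit 39444) (.g (nat_lit 1059) (.e (nat_lit 1224) (nat_lit 90) (.e (nat_lit 81959) (nat_lit 24) (.e (nat_lit 123183) (nat_lit 264) (.e (nat_lit 1224) (nat_lit 90) .nil)))) .nil)) 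
(.lf (nat_lit 39508) (.g (nat_lit 3779) (.e (nat_lit 1224) (nat_lit 90) (.e (nat_lit 81965) (nat_lit 26) (.e (nat_lit 147495) (nat_lit 11) (.e (nat_lit 24640) (nat_lit 10) (.e (nat_lit 344096) (nat_lit 18) (.e (nat_lit 7125) (nat_lit 382) .nil)))))) (.g (nat_lit 6) .nil .nil)))) (.nd (nat_lit 6) 
(.lf (nat_lit 39476) (.g (nat_lit 1362) (.e (nat_lit 1224) (nat_lit 90) (.e (nat_lit 81959) (nat_lit 24) (.e (nat_lit 123197) (nat_lit 266) (.e (nat_lit 57425) (nat_lit 14) (.e (nat_lit 352318) (nat_lit 24) (.e (nat_lit 123185) (nat_lit 264) .nil)))))) (.g (nat_lit 4) .nil .nil))) 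
(.lf (nat_lit 39540) (.g (nat_lit 722) (.e (nat_lit 7936) (nat_lit 90) (.e (nat_lit 81925) (nat_lit 11) (.e (nat_lit 426344) (nat_lit 14) (.e (nat_lit 491560) (nat_lit 10) .nil)))) .nil))))) (.nd (nat_lit 4) (.nd (nat_lit 5) (.nd (nat_lit 6) 
(.lf (nat_lit 39436) (.g (nat_lit 2544) (.e (nat_lit 1224) (nat_lit 90) (.e (nat_lit 81959) (nat_lit 24) (.e (nat_lit 123182) (nat_lit 264) (.e (nat_lit 1223) (nat_lit 90) (.e (nat_lit 81959) (nat_lit 24) .nil))))) .nil)) 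
(.lf (nat_lit 39500) (.g (nat_lit 3053) (.e (nat_lit 1224) (nat_lit 90) (.e (nat_lit 81963) (nat_lit 26) (.e (nat_lit 147496) (nat_lit 11) (.e (nat_lit 24641) (nat_lit 10) (.e (nat_lit 344096) (nat_lit 18) (.e (nat_lit 7125) (nat_lit 382) .nil)))))) (.g (nat_lit 6) .nil .nil)))) (.nd (nat_lit 6) 
(.lf (nat_lit 39468) (.g (nat_lit 3403) (.e (nat_lit 1224) (nat_lit 90) (.e (nat_lit 81959) (nat_lit 24) (.e (nat_lit 123195) (nat_lit 266) (.e (nat_lit 57427) (nat_lit 15) (.e (nat_lit 360457) (nat_lit 0) .nil))))) .nil)) 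
(.lf (nat_lit 39532) (.g (nat_lit 1500) (.e (nat_lit 7936) (nat_lit 90) (.e (nat_lit 81925) (nat_lit 11) (.e (nat_lit 426341) (nat_lit 14) (.e (nat_lit 491560) (nat_lit 10) (.e (nat_lit 344096) (nat_lit 18) .nil))))) .nil)))) (.nd (nat_lit 5) (.nd (nat_lit 6) 
(.lf (nat_lit 39452) (.g (nat_lit 385) (.e (nat_lit 1224) (nat_lit 90) (.e (nat_lit 81959) (nat_lit 24) (.e (nat_lit 123185) (nat_lit 264) .nil))) .nil)) 
(.lf (nat_lit 39516) (.g (nat_lit 1599) (.e (nat_lit 1224) (nat_lit 90) (.e (nat_lit 81965) (nat_lit 26) (.e (nat_lit 147496) (nat_lit 11) (.e (nat_lit 24641) (nat_lit 10) .nil)))) .nil))) (.nd (nat_lit 6) 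
(.lf (nat_lit 39484) (.g (nat_lit 3349) (.e (nat_lit 1224) (nat_lit 90) (.e (nat_lit 81959) (nat_lit 24) (.e (nat_lit 123198) (nat_lit 266) (.e (nat_lit 57424) (nat_lit 14) (.e (nat_lit 352318) (nat_lit 24) (.e (nat_lit 123184) (nat_lit 264) .nil)))))) (.g (nat_lit 6) .nil .nil))) 
(.lf (nat_lit 39548) (.g (nat_lit 1807) (.e (nat_lit 7936) (nat_lit 90) (.e (nat_lit 81927) (nat_lit 11) (.e (nat_lit 426343) (nat_lit 14) (.e (nat_lit 491558) (nat_lit 10) (.e (nat_lit 344091) (nat_lit 18) .nil))))) .nil))))))) (.nd (nat_lit 2) (.nd (nat_lit 3) (.nd (nat_lit 4) (.nd (nat_lit 5) (.nd (nat_lit 6) 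
(.lf (nat_lit 39426) (.g (nat_lit 1930) (.e (nat_lit 1224) (nat_lit 90) (.e (nat_lit 81959) (nat_lit 24) (.e (nat_lit 123182) (nat_lit 264) (.e (nat_lit 1028) (nat_lit 81) .nil)))) .nil)) 
(.lf (nat_lit 39490) (.g (nat_lit 2171) (.e (nat_lit 1224) (nat_lit 90) (.e (nat_lit 81963) (nat_lit 26) (.e (nat_lit 147495) (nat_lit 11) (.e (nat_lit 24639) (nat_lit 10) (.e (nat_lit 344091) (nat_lit 18) (.e (nat_lit 7125) (nat_lit 382) .nil)))))) (.g (nat_lit 5) .nil .nil)))) (.nd (nat_lit 6) 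
(.lf (nat_lit 39458) (.g (nat_lit 1908) (.e (nat_lit 1224) (nat_lit 90) (.e (nat_lit 81959) (nat_lit 24) (.e (nat_lit 123195) (nat_lit 266) (.e (nat_lit 57354) (nat_lit 0) .nil)))) .nil)) 
(.lf (nat_lit 39522) (.g (nat_lit 794) (.e (nat_lit 7936) (nat_lit 90) (.e (nat_lit 81925) (nat_lit 11) (.e (nat_lit 426009) (nat_lit 0) (.e (nat_lit 7591) (nat_lit 407) (.e (nat_lit 73730) (nat_lit 0) .nil))))) .nil)))) (.nd (nat_lit 5) (.nd (nat_lit 6) 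
(.lf (nat_lit 39442) (.g (nat_lit 2482) (.e (nat_lit 1224) (nat_lit 90) (.e (nat_lit 81959) (nat_lit 24) (.e (nat_lit 123183) (nat_lit 264) (.e (nat_lit 1222) (nat_lit 90) (.e (nat_lit 81959) (nat_lit 24) (.e (nat_lit 123184) (nat_lit 264) .nil)))))) (.g (nat_lit 4) .nil .nil))) 
(.lf (nat_lit 39506) (.g (nat_lit 2776) (.e (nat_lit 1224) (nat_lit 90) (.e (nat_lit 81965) (nat_lit 26) (.e (nat_lit 147495) (nat_lit 11) (.e (nat_lit 24640) (nat_lit 10) (.e (nat_lit 344091) (nat_lit 18) (.e (nat_lit 7125) (nat_lit 382) .nil)))))) (.g (nat_lit 4) .nil .nil)))) (.nd (nat_lit 6) 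
(.lf (nat_lit 39474) (.g (nat_lit 1656) (.e (nat_lit 1224) (nat_lit 90) (.e (nat_lit 81959) (nat_lit 24) (.e (nat_lit 123197) (nat_lit 266) (.e (nat_lit 57424) (nat_lit 14) (.e (nat_lit 352318) (nat_lit 24) .nil))))) .nil)) 
(.lf (nat_lit 39538) (.g (nat_lit 1795) (.e (nat_lit 7936) (nat_lit 90) (.e (nat_lit 81925) (nat_lit 11) (.e (nat_lit 426343) (nat_lit 14) (.e (nat_lit 491560) (nat_lit 10) (.e (nat_lit 344097) (nat_lit 18) .nil))))) .nil))))) (.nd (nat_lit 4) (.nd (nat_lit 5) (.nd (nat_lit 6) 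
(.lf (nat_lit 39434) (.g (nat_lit 2746) (.e (nat_lit 1224) (nat_lit 90) (.e (nat_lit 81959) (nat_lit 24) (.e (nat_lit 123182) (nat_lit 264) (.e (nat_lit 1222) (nat_lit 90) (.e (nat_lit 81959) (nat_lit 24) (.e (nat_lit 123185) (nat_lit 264) .nil)))))) (.g (nat_lit 4) .nil .nil))) 
(.lf (nat_lit 39498) (.g (nat_lit 1295) (.e (nat_lit 1224) (nat_lit 90) (.e (nat_lit 81963) (nat_lit 26) (.e (nat_lit 147496) (nat_lit 11) (.e (nat_lit 24641) (nat_lit 10) .nil)))) .nil))) (.nd (nat_lit 6) 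
(.lf (nat_lit 39466) (.g (nat_lit 2339) (.e (nat_lit 1224) (nat_lit 90) (.e (nat_lit 81959) (nat_lit 24) (.e (nat_lit 123195) (nat_lit 266) (.e (nat_lit 57427) (nat_lit 15) (.e (nat_lit 360451) (nat_lit 0) (.e (nat_lit 7936) (nat_lit 320) .nil)))))) (.g (nat_lit 4) .nil .nil))) 
(.lf (nat_lit 39530) (.g (nat_lit 1607) (.e (nat_lit 7936) (nat_lit 90) (.e (nat_lit 81925) (nat_lit 11) (.e (nat_lit 426341) (nat_lit 14) (.e (nat_lit 491560) (nat_lit 10) (.e (nat_lit 344090) (nat_lit 18) .nil))))) .nil)))) (.nd (nat_lit 5) (.nd (nat_lit 6) 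
(.lf (nat_lit 39450) (.g (nat_lit 2224) (.e (nat_lit 1224) (nat_lit 90) (.e (nat_lit 81959) (nat_lit 24) (.e (nat_lit 123184) (nat_lit 264) (.e (nat_lit 1224) (nat_lit 90) (.e (nat_lit 81959) (nat_lit 24) (.e (nat_lit 123185) (nat_lit 264) .nil)))))) (.g (nat_lit 5) .nil .nil))) 
(.lf (nat_lit 39514) (.g (nat_lit 2868) (.e (nat_lit 1224) (nat_lit 90) (.e (nat_lit 81965) (nat_lit 26) (.e (nat_lit 147496) (nat_lit 11) (.e (nat_lit 24640) (nat_lit 10) (.e (nat_lit 344094) (nat_lit 18) (.e (nat_lit 7125) (nat_lit 382) .nil)))))) (.g (nat_lit 4) .nil .nil)))) (.nd (nat_lit 6) 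
(.lf (nat_lit 39482) (.g (nat_lit 2153) (.e (nat_lit 1224) (nat_lit 90) (.e (nat_lit 81959) (nat_lit 24) (.e (nat_lit 123198) (nat_lit 266) (.e (nat_lit 57424) (nat_lit 14) (.e (nat_lit 352317) (nat_lit 24) .nil))))) .nil)) 
(.lf (nat_lit 39546) (.g (nat_lit 959) (.e (nat_lit 7936) (nat_lit 90) (.e (nat_lit 81927) (nat_lit 11) (.e (nat_lit 426343) (nat_lit 14) (.e (nat_lit 491558) (nat_lit 10) .nil)))) .nil)))))) (.nd (nat_lit 3) (.nd (nat_lit 4) (.nd (nat_lit 5) (.nd (nat_lit 6) 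
(.lf (nat_lit 39430) (.g (nat_lit 3161) (.e (nat_lit 1224) (nat_lit 90) (.e (nat_lit 81959) (nat_lit 24) (.e (nat_lit 123182) (nat_lit 264) (.e (nat_lit 1201) (nat_lit 88) (.e (nat_lit 65617) (nat_lit 10) .nil))))) .nil)) 
(.lf (nat_lit 39494) (.g (nat_lit 2021) (.e (nat_lit 1224) (nat_lit 90) (.e (nat_lit 81963) (nat_lit 26) (.e (nat_lit 147495) (nat_lit 11) (.e (nat_lit 24641) (nat_lit 10) (.e (nat_lit 344096) (nat_lit 18) (.e (nat_lit 7125) (nat_lit 382) .nil)))))) (.g (nat_lit 4) .nil .nil)))) (.nd (nat_lit 6) 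
(.lf (nat_lit 39462) (.g (nat_lit 2392) (.e (nat_lit 1224) (nat_lit 90) (.e (nat_lit 81959) (nat_lit 24) (.e (nat_lit 123195) (nat_lit 266) (.e (nat_lit 57424) (nat_lit 14) (.e (nat_lit 352318) (nat_lit 24) (.e (nat_lit 123183) (nat_lit 264) .nil)))))) (.g (nat_lit 4) .nil .nil))) 
(.lf (nat_lit 39526) (.g (nat_lit 279) (.e (nat_lit 7936) (nat_lit 90) (.e (nat_lit 81925) (nat_lit 11) (.e (nat_lit 426012) (nat_lit 0) .nil))) .nil)))) (.nd (nat_lit 5) (.nd (nat_lit 6) 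
(.lf (nat_lit 39446) (.g (nat_lit 2349) (.e (nat_lit 1224) (nat_lit 90) (.e (nat_lit 81959) (nat_lit 24) (.e (nat_lit 123184) (nat_lit 264) (.e (nat_lit 1222) (nat_lit 90) (.e (nat_lit 81959) (nat_lit 24) (.e (nat_lit 123185) (nat_lit 264) .nil)))))) (.g (nat_lit 4) .nil .nil))) 
(.lf (nat_lit 39510) (.g (nat_lit 2102) (.e (nat_lit 1224) (nat_lit 90) (.e (nat_lit 81965) (nat_lit 26) (.e (nat_lit 147496) (nat_lit 11) (.e (nat_lit 24639) (nat_lit 10) (.e (nat_lit 344091) (nat_lit 18) .nil))))) .nil))) (.nd (nat_lit 6) 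
(.lf (nat_lit 39478) (.g (nat_lit 2254) (.e (nat_lit 1224) (nat_lit 90) (.e (nat_lit 81959) (nat_lit 24) (.e (nat_lit 123197) (nat_lit 266) (.e (nat_lit 57427) (nat_lit 15) (.e (nat_lit 360457) (nat_lit 0) (.e (nat_lit 5818) (nat_lit 320) .nil)))))) (.g (nat_lit 5) .nil .nil))) 
(.lf (nat_lit 39542) (.g (nat_lit 896) (.e (nat_lit 7936) (nat_lit 90) (.e (nat_lit 81927) (nat_lit 11) (.e (nat_lit 426010) (nat_lit 0) (.e (nat_lit 7593) (nat_lit 407) (.e (nat_lit 73731) (nat_lit 0) .nil))))) .nil))))) (.nd (nat_lit 4) (.nd (nat_lit 5) (.nd (nat_lit 6) 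
(.lf (nat_lit 39438) (.g (nat_lit 2256) (.e (nat_lit 1224) (nat_lit 90) (.e (nat_lit 81959) (nat_lit 24) (.e (nat_lit 123182) (nat_lit 264) (.e (nat_lit 1224) (nat_lit 90) (.e (nat_lit 81958) (nat_lit 24) .nil))))) .nil)) 
(.lf (nat_lit 39502) (.g (nat_lit 1443) (.e (nat_lit 1224) (nat_lit 90) (.e (nat_lit 81965) (nat_lit 26) (.e (nat_lit 147495) (nat_lit 11) (.e (nat_lit 24639) (nat_lit 10) .nil)))) .nil))) (.nd (nat_lit 6) 
(.lf (nat_lit 39470) (.g (nat_lit 2865) (.e (nat_lit 1224) (nat_lit 90) (.e (nat_lit 81959) (nat_lit 24) (.e (nat_lit 123196) (nat_lit 266) (.e (nat_lit 57424) (nat_lit 14) (.e (nat_lit 352318) (nat_lit 24) (.e (nat_lit 123185) (nat_lit 264) .nil)))))) (.g (nat_lit 5) .nil .nil))) 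
(.lf (nat_lit 39534) (.g (nat_lit 940) (.e (nat_lit 7936) (nat_lit 90) (.e (nat_lit 81925) (nat_lit 11) (.e (nat_lit 426343) (nat_lit 14) (.e (nat_lit 491558) (nat_lit 10) .nil)))) .nil)))) (.nd (nat_lit 5) (.nd (nat_lit 6) 
(.lf (nat_lit 39454) (.g (nat_lit 1708) (.e (nat_lit 1224) (nat_lit 90) (.e (nat_lit 81959) (nat_lit 24) (.e (nat_lit 123185) (nat_lit 264) (.e (nat_lit 1222) (nat_lit 90) (.e (nat_lit 81959) (nat_lit 24) .nil))))) .nil)) 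
(.lf (nat_lit 39518) (.g (nat_lit 2945) (.e (nat_lit 1224) (nat_lit 90) (.e (nat_lit 81965) (nat_lit 26) (.e (nat_lit 147496) (nat_lit 11) (.e (nat_lit 24641) (nat_lit 10) (.e (nat_lit 344096) (nat_lit 18) (.e (nat_lit 7125) (nat_lit 382) .nil)))))) (.g (nat_lit 5) .nil .nil)))) (.nd (nat_lit 6) 
(.lf (nat_lit 39486) (.g (nat_lit 1655) (.e (nat_lit 1224) (nat_lit 90) (.e (nat_lit 81959) (nat_lit 24) (.e (nat_lit 123198) (nat_lit 266) (.e (nat_lit 57426) (nat_lit 15) (.e (nat_lit 360456) (nat_lit 0) (.e (nat_lit 5818) (nat_lit 320) .nil)))))) (.g (nat_lit 5) .nil .nil))) 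
(.lf (nat_lit 39550) (.g (nat_lit 2668) (.e (nat_lit 7936) (nat_lit 90) (.e (nat_lit 81927) (nat_lit 11) (.e (nat_lit 426343) (nat_lit 14) (.e (nat_lit 491560) (nat_lit 10) (.e (nat_lit 344095) (nat_lit 18) .nil))))) .nil)))))))) (.nd (nat_lit 1) (.nd (nat_lit 2) (.nd (nat_lit 3) (.nd (nat_lit 4) (.nd (nat_lit 5) (.nd (nat_lit 6) 
(.lf (nat_lit 39425) (.g (nat_lit 2145) (.e (nat_lit 1224) (nat_lit 90) (.e (nat_lit 81959) (nat_lit 24) (.e (nat_lit 123182) (nat_lit 264) (.e (nat_lit 1016) (nat_lit 81) .nil)))) .nil)) 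
(.lf (nat_lit 39489) (.g (nat_lit 1446) (.e (nat_lit 1224) (nat_lit 90) (.e (nat_lit 81959) (nat_lit 24) (.e (nat_lit 123198) (nat_lit 266) (.e (nat_lit 57428) (nat_lit 15) (.e (nat_lit 360457) (nat_lit 0) .nil))))) .nil))) (.nd (nat_lit 6) 
(.lf (nat_lit 39457) (.g (nat_lit 3680) (.e (nat_lit 1224) (nat_lit 90) (.e (nat_lit 81959) (nat_lit 24) (.e (nat_lit 123194) (nat_lit 266) (.e (nat_lit 57424) (nat_lit 14) (.e (nat_lit 352318) (nat_lit 24) (.e (nat_lit 123185) (nat_lit 264) .nil)))))) (.g (nat_lit 6) .nil .nil))) 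
(.lf (nat_lit 39521) (.g (nat_lit 438) (.e (nat_lit 7936) (nat_lit 90) (.e (nat_lit 81924) (nat_lit 0) (.e (nat_lit 3748) (nat_lit 228) (.e (nat_lit 786481) (nat_lit 30) .nil)))) .nil)))) (.nd (nat_lit 5) (.nd (nat_lit 6) 
(.lf (nat_lit 39441) (.g (nat_lit 2013) (.e (nat_lit 1224) (nat_lit 90) (.e (nat_lit 81959) (nat_lit 24) (.e (nat_lit 123182) (nat_lit 264) (.e (nat_lit 7936) (nat_lit 90) .nil)))) .nil)) 
(.lf (nat_lit 39505) (.g (nat_lit 2389) (.e (nat_lit 1224) (nat_lit 90) (.e (nat_lit 81965) (nat_lit 26) (.e (nat_lit 147495) (nat_lit 11) (.e (nat_lit 24640) (nat_lit 10) (.e (nat_lit 344088) (nat_lit 18) .nil))))) .nil))) (.nd (nat_lit 6) 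
(.lf (nat_lit 39473) (.g (nat_lit 2176) (.e (nat_lit 1224) (nat_lit 90) (.e (nat_lit 81959) (nat_lit 24) (.e (nat_lit 123197) (nat_lit 266) (.e (nat_lit 57424) (nat_lit 14) (.e (nat_lit 352317) (nat_lit 24) .nil))))) .nil)) 
(.lf (nat_lit 39537) (.g (nat_lit 2620) (.e (nat_lit 7936) (nat_lit 90) (.e (nat_lit 81925) (nat_lit 11) (.e (nat_lit 426343) (nat_lit 14) (.e (nat_lit 491560) (nat_lit 10) (.e (nat_lit 344095) (nat_lit 18) .nil))))) .nil))))) (.nd (nat_lit 4) (.nd (nat_lit 5) (.nd (nat_lit 6) 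
(.lf (nat_lit 39433) (.g (nat_lit 4532) (.e (nat_lit 1224) (nat_lit 90) (.e (nat_lit 81959) (nat_lit 24) (.e (nat_lit 123182) (nat_lit 264) (.e (nat_lit 1222) (nat_lit 90) (.e (nat_lit 81959) (nat_lit 24) (.e (nat_lit 123182) (nat_lit 264) .nil)))))) (.g (nat_lit 6) .nil .nil))) 
(.lf (nat_lit 39497) (.g (nat_lit 1794) (.e (nat_lit 1224) (nat_lit 90) (.e (nat_lit 81963) (nat_lit 26) (.e (nat_lit 147496) (nat_lit 11) (.e (nat_lit 24640) (nat_lit 10) (.e (nat_lit 344095) (nat_lit 18) .nil))))) .nil))) (.nd (nat_lit 6) 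
(.lf (nat_lit 39465) (.g (nat_lit 3060) (.e (nat_lit 1224) (nat_lit 90) (.e (nat_lit 81959) (nat_lit 24) (.e (nat_lit 123195) (nat_lit 266) (.e (nat_lit 57425) (nat_lit 14) (.e (nat_lit 352318) (nat_lit 24) (.e (nat_lit 123185) (nat_lit 264) .nil)))))) (.g (nat_lit 5) .nil .nil))) 
(.lf (nat_lit 39529) (.g (nat_lit 1482) (.e (nat_lit 7936) (nat_lit 90) (.e (nat_lit 81925) (nat_lit 11) (.e (nat_lit 426012) (nat_lit 0) (.e (nat_lit 7593) (nat_lit 407) (.e (nat_lit 73731) (nat_lit 0) .nil))))) .nil)))) (.nd (nat_lit 5) (.nd (nat_lit 6) 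
(.lf (nat_lit 39449) (.g (nat_lit 2898) (.e (nat_lit 1224) (nat_lit 90) (.e (nat_lit 81959) (nat_lit 24) (.e (nat_lit 123184) (nat_lit 264) (.e (nat_lit 1224) (nat_lit 90) (.e (nat_lit 81959) (nat_lit 24) (.e (nat_lit 123184) (nat_lit 264) .nil)))))) (.g (nat_lit 6) .nil .nil))) 
(.lf (nat_lit 39513) (.g (nat_lit 2543) (.e (nat_lit 1224) (nat_lit 90) (.e (nat_lit 81965) (nat_lit 26) (.e (nat_lit 147496) (nat_lit 11) (.e (nat_lit 24640) (nat_lit 10) (.e (nat_lit 344091) (nat_lit 18) (.e (nat_lit 7125) (nat_lit 382) .nil)))))) (.g (nat_lit 4) .nil .nil)))) (.nd (nat_lit 6) 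
(.lf (nat_lit 39481) (.g (nat_lit 1696) (.e (nat_lit 1224) (nat_lit 90) (.e (nat_lit 81959) (nat_lit 24) (.e (nat_lit 123198) (nat_lit 266) (.e (nat_lit 57423) (nat_lit 14) (.e (nat_lit 352318) (nat_lit 24) (.e (nat_lit 123185) (nat_lit 264) .nil)))))) (.g (nat_lit 4) .nil .nil))) 
(.lf (nat_lit 39545) (.g (nat_lit 2266) (.e (nat_lit 7936) (nat_lit 90) (.e (nat_lit 81927) (nat_lit 11) (.e (nat_lit 426343) (nat_lit 14) (.e (nat_lit 491546) (nat_lit 9) (.e (nat_lit 335997) (nat_lit 1) .nil))))) .nil)))))) (.nd (nat_lit 3) (.nd (nat_lit 4) (.nd (nat_lit 5) (.nd (nat_lit 6) 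
(.lf (nat_lit 39429) (.g (nat_lit 3485) (.e (nat_lit 1224) (nat_lit 90) (.e (nat_lit 81959) (nat_lit 24) (.e (nat_lit 123182) (nat_lit 264) (.e (nat_lit 1201) (nat_lit 88) (.e (nat_lit 65599) (nat_lit 9) .nil))))) .nil)) 
(.lf (nat_lit 39493) (.g (nat_lit 1643) (.e (nat_lit 1224) (nat_lit 90) (.e (nat_lit 81963) (nat_lit 26) (.e (nat_lit 147495) (nat_lit 11) (.e (nat_lit 24641) (nat_lit 10) (.e (nat_lit 344091) (nat_lit 18) .nil))))) .nil))) (.nd (nat_lit 6) 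
(.lf (nat_lit 39461) (.g (nat_lit 3257) (.e (nat_lit 1224) (nat_lit 90) (.e (nat_lit 81959) (nat_lit 24) (.e (nat_lit 123195) (nat_lit 266) (.e (nat_lit 57423) (nat_lit 14) (.e (nat_lit 352318) (nat_lit 24) (.e (nat_lit 123184) (nat_lit 264) .nil)))))) (.g (nat_lit 4) .nil .nil))) 
(.lf (nat_lit 39525) (.g (nat_lit 1554) (.e (nat_lit 7936) (nat_lit 90) (.e (nat_lit 81925) (nat_lit 11) (.e (nat_lit 426011) (nat_lit 0) (.e (nat_lit 7593) (nat_lit 407) (.e (nat_lit 73731) (nat_lit 0) .nil))))) .nil)))) (.nd (nat_lit 5) (.nd (nat_lit 6) 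
(.lf (nat_lit 39445) (.g (nat_lit 1055) (.e (nat_lit 1224) (nat_lit 90) (.e (nat_lit 81959) (nat_lit 24) (.e (nat_lit 123183) (nat_lit 264) (.e (nat_lit 7936) (nat_lit 90) .nil)))) .nil)) 
(.lf (nat_lit 39509) (.g (nat_lit 1536) (.e (nat_lit 1224) (nat_lit 90) (.e (nat_lit 81965) (nat_lit 26) (.e (nat_lit 147496) (nat_lit 11) (.e (nat_lit 24639) (nat_lit 10) .nil)))) .nil))) (.nd (nat_lit 6) 
(.lf (nat_lit 39477) (.g (nat_lit 2429) (.e (nat_lit 1224) (nat_lit 90) (.e (nat_lit 81959) (nat_lit 24) (.e (nat_lit 123197) (nat_lit 266) (.e (nat_lit 57427) (nat_lit 15) (.e (nat_lit 360456) (nat_lit 0) (.e (nat_lit 5818) (nat_lit 320) .nil)))))) (.g (nat_lit 0) .nil .nil))) 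
(.lf (nat_lit 39541) (.g (nat_lit 2043) (.e (nat_lit 7936) (nat_lit 90) (.e (nat_lit 81925) (nat_lit 11) (.e (nat_lit 426344) (nat_lit 14) (.e (nat_lit 491560) (nat_lit 10) (.e (nat_lit 344095) (nat_lit 18) .nil))))) .nil))))) (.nd (nat_lit 4) (.nd (nat_lit 5) (.nd (nat_lit 6) 
(.lf (nat_lit 39437) (.g (nat_lit 1581) (.e (nat_lit 1224) (nat_lit 90) (.e (nat_lit 81959) (nat_lit 24) (.e (nat_lit 123182) (nat_lit 264) (.e (nat_lit 1224) (nat_lit 90) .nil)))) .nil)) 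
(.lf (nat_lit 39501) (.g (nat_lit 602) (.e (nat_lit 1224) (nat_lit 90) (.e (nat_lit 81965) (nat_lit 26) (.e (nat_lit 147463) (nat_lit 9) .nil))) .nil))) (.nd (nat_lit 6) 
(.lf (nat_lit 39469) (.g (nat_lit 2225) (.e (nat_lit 1224) (nat_lit 90) (.e (nat_lit 81959) (nat_lit 24) (.e (nat_lit 123195) (nat_lit 266) (.e (nat_lit 57438) (nat_lit 17) .nil)))) .nil)) 
(.lf (nat_lit 39533) (.g (nat_lit 2359) (.e (nat_lit 7936) (nat_lit 90) (.e (nat_lit 81925) (nat_lit 11) (.e (nat_lit 426343) (nat_lit 14) (.e (nat_lit 491546) (nat_lit 9) (.e (nat_lit 335997) (nat_lit 1) .nil))))) .nil)))) (.nd (nat_lit 5) (.nd (nat_lit 6) 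
(.lf (nat_lit 39453) (.g (nat_lit 2032) (.e (nat_lit 1224) (nat_lit 90) (.e (nat_lit 81959) (nat_lit 24) (.e (nat_lit 123185) (nat_lit 264) (.e (nat_lit 1222) (nat_lit 90) (.e (nat_lit 81957) (nat_lit 24) (.e (nat_lit 123185) (nat_lit 264) .nil)))))) (.g (nat_lit 5) .nil .nil))) 
(.lf (nat_lit 39517) (.g (nat_lit 2287) (.e (nat_lit 1224) (nat_lit 90) (.e (nat_lit 81965) (nat_lit 26) (.e (nat_lit 147496) (nat_lit 11) (.e (nat_lit 24641) (nat_lit 10) (.e (nat_lit 344091) (nat_lit 18) (.e (nat_lit 7125) (nat_lit 382) .nil)))))) (.g (nat_lit 4) .nil .nil)))) (.nd (nat_lit 6) 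
(.lf (nat_lit 39485) (.g (nat_lit 2867) (.e (nat_lit 1224) (nat_lit 90) (.e (nat_lit 81959) (nat_lit 24) (.e (nat_lit 123198) (nat_lit 266) (.e (nat_lit 57424) (nat_lit 14) (.e (nat_lit 352318) (nat_lit 24) (.e (nat_lit 123185) (nat_lit 264) .nil)))))) (.g (nat_lit 5) .nil .nil))) 
(.lf (nat_lit 39549) (.g (nat_lit 998) (.e (nat_lit 7936) (nat_lit 90) (.e (nat_lit 81927) (nat_lit 11) (.e (nat_lit 426343) (nat_lit 14) (.e (nat_lit 491560) (nat_lit 10) .nil)))) .nil))))))) (.nd (nat_lit 2) (.nd (nat_lit 3) (.nd (nat_lit 4) (.nd (nat_lit 5) (.nd (nat_lit 6) 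
(.lf (nat_lit 39427) (.g (nat_lit 2296) (.e (nat_lit 1224) (nat_lit 90) (.e (nat_lit 81959) (nat_lit 24) (.e (nat_lit 123182) (nat_lit 264) (.e (nat_lit 1193) (nat_lit 88) .nil)))) .nil)) 
(.lf (nat_lit 39491) (.g (nat_lit 2250) (.e (nat_lit 1224) (nat_lit 90) (.e (nat_lit 81963) (nat_lit 26) (.e (nat_lit 147495) (nat_lit 11) (.e (nat_lit 24640) (nat_lit 10) (.e (nat_lit 344088) (nat_lit 18) (.e (nat_lit 7125) (nat_lit 382) .nil)))))) (.g (nat_lit 5) .nil .nil)))) (.nd (nat_lit 6) 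
(.lf (nat_lit 39459) (.g (nat_lit 3037) (.e (nat_lit 1224) (nat_lit 90) (.e (nat_lit 81959) (nat_lit 24) (.e (nat_lit 123195) (nat_lit 266) (.e (nat_lit 57423) (nat_lit 14) (.e (nat_lit 352318) (nat_lit 24) .nil))))) .nil)) 
(.lf (nat_lit 39523) (.g (nat_lit 906) (.e (nat_lit 7936) (nat_lit 90) (.e (nat_lit 81925) (nat_lit 11) (.e (nat_lit 426010) (nat_lit 0) (.e (nat_lit 7591) (nat_lit 407) (.e (nat_lit 73730) (nat_lit 0) .nil))))) .nil)))) (.nd (nat_lit 5) (.nd (nat_lit 6) 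
(.lf (nat_lit 39443) (.g (nat_lit 2280) (.e (nat_lit 1224) (nat_lit 90) (.e (nat_lit 81959) (nat_lit 24) (.e (nat_lit 123183) (nat_lit 264) (.e (nat_lit 1222) (nat_lit 90) (.e (nat_lit 81959) (nat_lit 24) (.e (nat_lit 123185) (nat_lit 264) .nil)))))) (.g (nat_lit 4) .nil .nil))) 
(.lf (nat_lit 39507) (.g (nat_lit 3045) (.e (nat_lit 1224) (nat_lit 90) (.e (nat_lit 81965) (nat_lit 26) (.e (nat_lit 147495) (nat_lit 11) (.e (nat_lit 24640) (nat_lit 10) (.e (nat_lit 344094) (nat_lit 18) (.e (nat_lit 7125) (nat_lit 382) .nil)))))) (.g (nat_lit 4) .nil .nil)))) (.nd (nat_lit 6) 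
(.lf (nat_lit 39475) (.g (nat_lit 3109) (.e (nat_lit 1224) (nat_lit 90) (.e (nat_lit 81959) (nat_lit 24) (.e (nat_lit 123197) (nat_lit 266) (.e (nat_lit 57424) (nat_lit 14) (.e (nat_lit 352318) (nat_lit 24) (.e (nat_lit 123185) (nat_lit 264) .nil)))))) (.g (nat_lit 5) .nil .nil))) 
(.lf (nat_lit 39539) (.g (nat_lit 821) (.e (nat_lit 7936) (nat_lit 90) (.e (nat_lit 81925) (nat_lit 11) (.e (nat_lit 426344) (nat_lit 14) (.e (nat_lit 491558) (nat_lit 10) .nil)))) .nil))))) (.nd (nat_lit 4) (.nd (nat_lit 5) (.nd (nat_lit 6) 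
(.lf (nat_lit 39435) (.g (nat_lit 1969) (.e (nat_lit 1224) (nat_lit 90) (.e (nat_lit 81959) (nat_lit 24) (.e (nat_lit 123182) (nat_lit 264) (.e (nat_lit 1223) (nat_lit 90) .nil)))) .nil)) 
(.lf (nat_lit 39499) (.g (nat_lit 2409) (.e (nat_lit 1224) (nat_lit 90) (.e (nat_lit 81963) (nat_lit 26) (.e (nat_lit 147496) (nat_lit 11) (.e (nat_lit 24641) (nat_lit 10) (.e (nat_lit 344091) (nat_lit 18) (.e (nat_lit 7125) (nat_lit 382) .nil)))))) (.g (nat_lit 5) .nil .nil)))) (.nd (nat_lit 6) 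
(.lf (nat_lit 39467) (.g (nat_lit 3395) (.e (nat_lit 1224) (nat_lit 90) (.e (nat_lit 81959) (nat_lit 24) (.e (nat_lit 123195) (nat_lit 266) (.e (nat_lit 57427) (nat_lit 15) (.e (nat_lit 360456) (nat_lit 0) (.e (nat_lit 5818) (nat_lit 320) .nil)))))) (.g (nat_lit 4) .nil .nil))) 
(.lf (nat_lit 39531) (.g (nat_lit 1633) (.e (nat_lit 7936) (nat_lit 90) (.e (nat_lit 81925) (nat_lit 11) (.e (nat_lit 426341) (nat_lit 14) (.e (nat_lit 491560) (nat_lit 10) (.e (nat_lit 344091) (nat_lit 18) .nil))))) .nil)))) (.nd (nat_lit 5) (.nd (nat_lit 6) 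
(.lf (nat_lit 39451) (.g (nat_lit 1262) (.e (nat_lit 1224) (nat_lit 90) (.e (nat_lit 81959) (nat_lit 24) (.e (nat_lit 123184) (nat_lit 264) (.e (nat_lit 7936) (nat_lit 90) .nil)))) .nil)) 
(.lf (nat_lit 39515) (.g (nat_lit 3637) (.e (nat_lit 1224) (nat_lit 90) (.e (nat_lit 81965) (nat_lit 26) (.e (nat_lit 147496) (nat_lit 11) (.e (nat_lit 24640) (nat_lit 10) (.e (nat_lit 344096) (nat_lit 18) (.e (nat_lit 7125) (nat_lit 382) .nil)))))) (.g (nat_lit 6) .nil .nil)))) (.nd (nat_lit 6) 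
(.lf (nat_lit 39483) (.g (nat_lit 1716) (.e (nat_lit 1224) (nat_lit 90) (.e (nat_lit 81959) (nat_lit 24) (.e (nat_lit 123198) (nat_lit 266) (.e (nat_lit 57424) (nat_lit 14) (.e (nat_lit 352318) (nat_lit 24) .nil))))) .nil)) 
(.lf (nat_lit 39547) (.g (nat_lit 1758) (.e (nat_lit 7936) (nat_lit 90) (.e (nat_lit 81927) (nat_lit 11) (.e (nat_lit 426343) (nat_lit 14) (.e (nat_lit 491558) (nat_lit 10) (.e (nat_lit 344090) (nat_lit 18) .nil))))) .nil)))))) (.nd (nat_lit 3) (.nd (nat_lit 4) (.nd (nat_lit 5) (.nd (nat_lit 6) 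
(.lf (nat_lit 39431) (.g (nat_lit 1907) (.e (nat_lit 1224) (nat_lit 90) (.e (nat_lit 81959) (nat_lit 24) (.e (nat_lit 123182) (nat_lit 264) (.e (nat_lit 1218) (nat_lit 90) (.e (nat_lit 81959) (nat_lit 24) .nil))))) .nil)) 
(.lf (nat_lit 39495) (.g (nat_lit 2025) (.e (nat_lit 1224) (nat_lit 90) (.e (nat_lit 81963) (nat_lit 26) (.e (nat_lit 147496) (nat_lit 11) (.e (nat_lit 24639) (nat_lit 10) (.e (nat_lit 344091) (nat_lit 18) (.e (nat_lit 7125) (nat_lit 382) .nil)))))) (.g (nat_lit 5) .nil .nil)))) (.nd (nat_lit 6) 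
(.lf (nat_lit 39463) (.g (nat_lit 3936) (.e (nat_lit 1224) (nat_lit 90) (.e (nat_lit 81959) (nat_lit 24) (.e (nat_lit 123195) (nat_lit 266) (.e (nat_lit 57424) (nat_lit 14) (.e (nat_lit 352318) (nat_lit 24) (.e (nat_lit 123185) (nat_lit 264) .nil)))))) (.g (nat_lit 6) .nil .nil))) 
(.lf (nat_lit 39527) (.g (nat_lit 1296) (.e (nat_lit 7936) (nat_lit 90) (.e (nat_lit 81925) (nat_lit 11) (.e (nat_lit 426012) (nat_lit 0) (.e (nat_lit 7591) (nat_lit 407) (.e (nat_lit 73730) (nat_lit 0) .nil))))) .nil)))) (.nd (nat_lit 5) (.nd (nat_lit 6) 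
(.lf (nat_lit 39447) (.g (nat_lit 2363) (.e (nat_lit 1224) (nat_lit 90) (.e (nat_lit 81959) (nat_lit 24) (.e (nat_lit 123184) (nat_lit 264) (.e (nat_lit 1224) (nat_lit 90) (.e (nat_lit 81957) (nat_lit 24) (.e (nat_lit 123185) (nat_lit 264) .nil)))))) (.g (nat_lit 5) .nil .nil))) 
(.lf (nat_lit 39511) (.g (nat_lit 1461) (.e (nat_lit 1224) (nat_lit 90) (.e (nat_lit 81965) (nat_lit 26) (.e (nat_lit 147496) (nat_lit 11) (.e (nat_lit 24640) (nat_lit 10) .nil)))) .nil))) (.nd (nat_lit 6) 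
(.lf (nat_lit 39479) (.g (nat_lit 1599) (.e (nat_lit 1224) (nat_lit 90) (.e (nat_lit 81959) (nat_lit 24) (.e (nat_lit 123197) (nat_lit 266) (.e (nat_lit 57428) (nat_lit 15) (.e (nat_lit 360457) (nat_lit 0) .nil))))) .nil)) 
(.lf (nat_lit 39543) (.g (nat_lit 1470) (.e (nat_lit 7936) (nat_lit 90) (.e (nat_lit 81927) (nat_lit 11) (.e (nat_lit 426011) (nat_lit 0) (.e (nat_lit 7593) (nat_lit 407) (.e (nat_lit 73731) (nat_lit 0) .nil))))) .nil))))) (.nd (nat_lit 4) (.nd (nat_lit 5) (.nd (nat_lit 6) 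
(.lf (nat_lit 39439) (.g (nat_lit 2224) (.e (nat_lit 1224) (nat_lit 90) (.e (nat_lit 81959) (nat_lit 24) (.e (nat_lit 123182) (nat_lit 264) (.e (nat_lit 1224) (nat_lit 90) (.e (nat_lit 81959) (nat_lit 24) (.e (nat_lit 123183) (nat_lit 264) .nil)))))) (.g (nat_lit 4) .nil .nil))) 
(.lf (nat_lit 39503) (.g (nat_lit 2209) (.e (nat_lit 1224) (nat_lit 90) (.e (nat_lit 81965) (nat_lit 26) (.e (nat_lit 147495) (nat_lit 11) (.e (nat_lit 24639) (nat_lit 10) (.e (nat_lit 344091) (nat_lit 18) .nil))))) .nil))) (.nd (nat_lit 6) 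
(.lf (nat_lit 39471) (.g (nat_lit 2527) (.e (nat_lit 1224) (nat_lit 90) (.e (nat_lit 81959) (nat_lit 24) (.e (nat_lit 123197) (nat_lit 266) (.e (nat_lit 57423) (nat_lit 14) (.e (nat_lit 352318) (nat_lit 24) (.e (nat_lit 123184) (nat_lit 264) .nil)))))) (.g (nat_lit 5) .nil .nil))) 
(.lf (nat_lit 39535) (.g (nat_lit 1798) (.e (nat_lit 7936) (nat_lit 90) (.e (nat_lit 81925) (nat_lit 11) (.e (nat_lit 426343) (nat_lit 14) (.e (nat_lit 491558) (nat_lit 10) (.e (nat_lit 344091) (nat_lit 18) .nil))))) .nil)))) (.nd (nat_lit 5) (.nd (nat_lit 6) 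
(.lf (nat_lit 39455) (.g (nat_lit 3438) (.e (nat_lit 1224) (nat_lit 90) (.e (nat_lit 81959) (nat_lit 24) (.e (nat_lit 123185) (nat_lit 264) (.e (nat_lit 1223) (nat_lit 90) (.e (nat_lit 81959) (nat_lit 24) (.e (nat_lit 123182) (nat_lit 264) .nil)))))) (.g (nat_lit 6) .nil .nil))) 
(.lf (nat_lit 39519) (.g (nat_lit 72) (.e (nat_lit 7936) (nat_lit 90) (.e (nat_lit 81921) (nat_lit 0) (.e (nat_lit 7086) (nat_lit 379) .nil))) .nil))) (.nd (nat_lit 6) 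
(.lf (nat_lit 39487) (.g (nat_lit 1888) (.e (nat_lit 1224) (nat_lit 90) (.e (nat_lit 81959) (nat_lit 24) (.e (nat_lit 123198) (nat_lit 266) (.e (nat_lit 57427) (nat_lit 15) (.e (nat_lit 360456) (nat_lit 0) (.e (nat_lit 5818) (nat_lit 320) .nil)))))) (.g (nat_lit 5) .nil .nil))) 
(.lf (nat_lit 39551) (.g (nat_lit 1838) (.e (nat_lit 7936) (nat_lit 90) (.e (nat_lit 81927) (nat_lit 11) (.e (nat_lit 426343) (nat_lit 14) (.e (nat_lit 491560) (nat_lit 10) (.e (nat_lit 344097) (nat_lit 18) .nil))))) .nil)))))))))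

noncomputable def tv549 : DT := (.nd (nat_lit 0) (.nd (nat_lit 1) (.nd (nat_lit 2) (.nd (nat_lit 3) (.nd (nat_lit 4) (.nd (nat_lit 5) (.nd (nat_lit 6) 
(.lf (nat_lit 39552) (.g (nat_lit 656) (.e (nat_lit 7936) (nat_lit 90) (.e (nat_lit 81927) (nat_lit 11) (.e (nat_lit 426344) (nat_lit 14) (.e (nat_lit 491558) (nat_lit 10) .nil)))) .nil)) 
(.lf (nat_lit 39616) (.g (nat_lit 1569) (.e (nat_lit 7936) (nat_lit 90) (.e (nat_lit 81947) (nat_lit 20) (.e (nat_lit 2270) (nat_lit 149) (.e (nat_lit 761868) (nat_lit 5) (.e (nat_lit 1582) (nat_lit 111) .nil))))) .nil))) (.nd (nat_lit 6) 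
(.lf (nat_lit 39584) (.g (nat_lit 206) (.e (nat_lit 7936) (nat_lit 90) (.e (nat_lit 81943) (nat_lit 20) (.e (nat_lit 1963) (nat_lit 134) .nil))) .nil)) 
(.lf (nat_lit 39648) (.g (nat_lit 635) (.e (nat_lit 7936) (nat_lit 90) (.e (nat_lit 81954) (nat_lit 23) (.e (nat_lit 98313) (nat_lit 9) .nil))) .nil)))) (.nd (nat_lit 5) (.nd (nat_lit 6) 
(.lf (nat_lit 39568) (.g (nat_lit 1313) (.e (nat_lit 7936) (nat_lit 90) (.e (nat_lit 81938) (nat_lit 20) (.e (nat_lit 2006) (nat_lit 138) (.e (nat_lit 671748) (nat_lit 0) (.e (nat_lit 1586) (nat_lit 111) .nil))))) .nil)) 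
(.lf (nat_lit 39632) (.g (nat_lit 739) (.e (nat_lit 7936) (nat_lit 90) (.e (nat_lit 81949) (nat_lit 21) (.e (nat_lit 57680) (nat_lit 155) (.e (nat_lit 122919) (nat_lit 15) .nil)))) .nil))) (.nd (nat_lit 6) 
(.lf (nat_lit 39600) (.g (nat_lit 843) (.e (nat_lit 7936) (nat_lit 90) (.e (nat_lit 81946) (nat_lit 20) (.e (nat_lit 2280) (nat_lit 150) (.e (nat_lit 770056) (nat_lit 5) .nil)))) .nil)) 
(.lf (nat_lit 39664) (.g (nat_lit 1381) (.e (nat_lit 7936) (nat_lit 90) (.e (nat_lit 81956) (nat_lit 23) (.e (nat_lit 98320) (nat_lit 17) (.e (nat_lit 7593) (nat_lit 407) .nil)))) .nil))))) (.nd (nat_lit 4) (.nd (nat_lit 5) (.nd (nat_lit 6) 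
(.lf (nat_lit 39560) (.g (nat_lit 386) (.e (nat_lit 7936) (nat_lit 90) (.e (nat_lit 81935) (nat_lit 20) (.e (nat_lit 2370) (nat_lit 154) .nil))) .nil)) 
(.lf (nat_lit 39624) (.g (nat_lit 1436) (.e (nat_lit 7936) (nat_lit 90) (.e (nat_lit 81948) (nat_lit 21) (.e (nat_lit 57681) (nat_lit 155) (.e (nat_lit 122917) (nat_lit 15) .nil)))) .nil))) (.nd (nat_lit 6) 
(.lf (nat_lit 39592) (.g (nat_lit 621) (.e (nat_lit 7936) (nat_lit 90) (.e (nat_lit 81946) (nat_lit 20) (.e (nat_lit 2005) (nat_lit 138) (.e (nat_lit 671748) (nat_lit 0) .nil)))) .nil)) 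
(.lf (nat_lit 39656) (.g (nat_lit 2151) (.e (nat_lit 7936) (nat_lit 90) (.e (nat_lit 81956) (nat_lit 23) (.e (nat_lit 98313) (nat_lit 9) (.e (nat_lit 335995) (nat_lit 1) (.e (nat_lit 57847) (nat_lit 252) .nil))))) .nil)))) (.nd (nat_lit 5) (.nd (nat_lit 6) 
(.lf (nat_lit 39576) (.g (nat_lit 996) (.e (nat_lit 7936) (nat_lit 90) (.e (nat_lit 81938) (nat_lit 20) (.e (nat_lit 2280) (nat_lit 150) (.e (nat_lit 770056) (nat_lit 5) (.e (nat_lit 1598) (nat_lit 111) .nil))))) .nil)) 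
(.lf (nat_lit 39640) (.g (nat_lit 1311) (.e (nat_lit 7936) (nat_lit 90) (.e (nat_lit 81950) (nat_lit 21) (.e (nat_lit 57872) (nat_lit 264) (.e (nat_lit 1219) (nat_lit 90) (.e (nat_lit 81957) (nat_lit 24) .nil))))) .nil))) (.nd (nat_lit 6) 
(.lf (nat_lit 39608) (.g (nat_lit 802) (.e (nat_lit 7936) (nat_lit 90) (.e (nat_lit 81947) (nat_lit 20) (.e (nat_lit 2006) (nat_lit 138) (.e (nat_lit 671748) (nat_lit 0) .nil)))) .nil)) 
(.lf (nat_lit 39672) (.g (nat_lit 1562) (.e (nat_lit 7936) (nat_lit 90) (.e (nat_lit 81956) (nat_lit 23) (.e (nat_lit 98389) (nat_lit 33) (.e (nat_lit 491560) (nat_lit 10) .nil)))) .nil)))))) (.nd (nat_lit 3) (.nd (nat_lit 4) (.nd (nat_lit 5) (.nd (nat_lit 6) 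
(.lf (nat_lit 39556) (.g (nat_lit 361) (.e (nat_lit 7936) (nat_lit 90) (.e (nat_lit 81935) (nat_lit 20) (.e (nat_lit 1996) (nat_lit 137) .nil))) .nil)) 
(.lf (nat_lit 39620) (.g (nat_lit 935) (.e (nat_lit 7936) (nat_lit 90) (.e (nat_lit 81947) (nat_lit 20) (.e (nat_lit 2281) (nat_lit 150) (.e (nat_lit 770057) (nat_lit 5) .nil)))) .nil))) (.nd (nat_lit 6) 
(.lf (nat_lit 39588) (.g (nat_lit 454) (.e (nat_lit 7936) (nat_lit 90) (.e (nat_lit 81946) (nat_lit 20) (.e (nat_lit 1014) (nat_lit 81) .nil))) .nil)) 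
(.lf (nat_lit 39652) (.g (nat_lit 1078) (.e (nat_lit 7936) (nat_lit 90) (.e (nat_lit 81954) (nat_lit 23) (.e (nat_lit 98389) (nat_lit 33) (.e (nat_lit 491560) (nat_lit 10) .nil)))) .nil)))) (.nd (nat_lit 5) (.nd (nat_lit 6) 
(.lf (nat_lit 39572) (.g (nat_lit 1107) (.e (nat_lit 7936) (nat_lit 90) (.e (nat_lit 81938) (nat_lit 20) (.e (nat_lit 2270) (nat_lit 149) (.e (nat_lit 761868) (nat_lit 5) .nil)))) .nil)) 
(.lf (nat_lit 39636) (.g (nat_lit 1041) (.e (nat_lit 7936) (nat_lit 90) (.e (nat_lit 81950) (nat_lit 21) (.e (nat_lit 57681) (nat_lit 155) (.e (nat_lit 122919) (nat_lit 15) .nil)))) .nil))) (.nd (nat_lit 6) 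
(.lf (nat_lit 39604) (.g (nat_lit 873) (.e (nat_lit 7936) (nat_lit 90) (.e (nat_lit 81946) (nat_lit 20) (.e (nat_lit 2281) (nat_lit 150) (.e (nat_lit 770058) (nat_lit 5) .nil)))) .nil)) 
(.lf (nat_lit 39668) (.g (nat_lit 1161) (.e (nat_lit 7936) (nat_lit 90) (.e (nat_lit 81956) (nat_lit 23) (.e (nat_lit 98385) (nat_lit 32) (.e (nat_lit 475214) (nat_lit 42) .nil)))) .nil))))) (.nd (nat_lit 4) (.nd (nat_lit 5) (.nd (nat_lit 6) 
(.lf (nat_lit 39564) (.g (nat_lit 446) (.e (nat_lit 7936) (nat_lit 90) (.e (nat_lit 81938) (nat_lit 20) (.e (nat_lit 1886) (nat_lit 127) .nil))) .nil)) 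
(.lf (nat_lit 39628) (.g (nat_lit 855) (.e (nat_lit 7936) (nat_lit 90) (.e (nat_lit 81948) (nat_lit 21) (.e (nat_lit 57683) (nat_lit 155) (.e (nat_lit 122919) (nat_lit 15) .nil)))) .nil))) (.nd (nat_lit 6) 
(.lf (nat_lit 39596) (.g (nat_lit 1407) (.e (nat_lit 7936) (nat_lit 90) (.e (nat_lit 81946) (nat_lit 20) (.e (nat_lit 2270) (nat_lit 149) (.e (nat_lit 761868) (nat_lit 5) (.e (nat_lit 1585) (nat_lit 111) .nil))))) .nil)) 
(.lf (nat_lit 39660) (.g (nat_lit 1896) (.e (nat_lit 7936) (nat_lit 90) (.e (nat_lit 81956) (nat_lit 23) (.e (nat_lit 98320) (nat_lit 17) (.e (nat_lit 7591) (nat_lit 407) (.e (nat_lit 73728) (nat_lit 0) .nil))))) .nil)))) (.nd (nat_lit 5) (.nd (nat_lit 6) 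
(.lf (nat_lit 39580) (.g (nat_lit 1402) (.e (nat_lit 7936) (nat_lit 90) (.e (nat_lit 81938) (nat_lit 20) (.e (nat_lit 2281) (nat_lit 150) (.e (nat_lit 770058) (nat_lit 5) (.e (nat_lit 1586) (nat_lit 111) .nil))))) .nil)) 
(.lf (nat_lit 39644) (.g (nat_lit 966) (.e (nat_lit 7936) (nat_lit 90) (.e (nat_lit 81953) (nat_lit 22) (.e (nat_lit 90157) (nat_lit 11) .nil))) .nil))) (.nd (nat_lit 6) 
(.lf (nat_lit 39612) (.g (nat_lit 1442) (.e (nat_lit 7936) (nat_lit 90) (.e (nat_lit 81947) (nat_lit 20) (.e (nat_lit 2006) (nat_lit 138) (.e (nat_lit 671762) (nat_lit 4) (.e (nat_lit 65619) (nat_lit 10) .nil))))) .nil)) 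
(.lf (nat_lit 39676) (.g (nat_lit 2379) (.e (nat_lit 7936) (nat_lit 90) (.e (nat_lit 81956) (nat_lit 23) (.e (nat_lit 98389) (nat_lit 33) (.e (nat_lit 491560) (nat_lit 10) (.e (nat_lit 344096) (nat_lit 18) .nil))))) .nil))))))) (.nd (nat_lit 2) (.nd (nat_lit 3) (.nd (nat_lit 4) (.nd (nat_lit 5) (.nd (nat_lit 6) 
(.lf (nat_lit 39554) (.g (nat_lit 851) (.e (nat_lit 7936) (nat_lit 90) (.e (nat_lit 81928) (nat_lit 20) (.e (nat_lit 2270) (nat_lit 149) (.e (nat_lit 761868) (nat_lit 5) (.e (nat_lit 1585) (nat_lit 111) .nil))))) .nil)) 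
(.lf (nat_lit 39618) (.g (nat_lit 1361) (.e (nat_lit 7936) (nat_lit 90) (.e (nat_lit 81947) (nat_lit 20) (.e (nat_lit 2280) (nat_lit 150) (.e (nat_lit 770071) (nat_lit 8) (.e (nat_lit 65617) (nat_lit 10) .nil))))) .nil))) (.nd (nat_lit 6) 
(.lf (nat_lit 39586) (.g (nat_lit 181) (.e (nat_lit 7936) (nat_lit 90) (.e (nat_lit 81943) (nat_lit 20) (.e (nat_lit 2281) (nat_lit 150) .nil))) .nil)) 
(.lf (nat_lit 39650) (.g (nat_lit 534) (.e (nat_lit 7936) (nat_lit 90) (.e (nat_lit 81954) (nat_lit 23) (.e (nat_lit 98325) (nat_lit 17) .nil))) .nil)))) (.nd (nat_lit 5) (.nd (nat_lit 6) 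
(.lf (nat_lit 39570) (.g (nat_lit 1195) (.e (nat_lit 7936) (nat_lit 90) (.e (nat_lit 81938) (nat_lit 20) (.e (nat_lit 2006) (nat_lit 138) (.e (nat_lit 671748) (nat_lit 0) (.e (nat_lit 1598) (nat_lit 111) .nil))))) .nil)) 
(.lf (nat_lit 39634) (.g (nat_lit 492) (.e (nat_lit 7936) (nat_lit 90) (.e (nat_lit 81950) (nat_lit 21) (.e (nat_lit 57680) (nat_lit 155) .nil))) .nil))) (.nd (nat_lit 6) 
(.lf (nat_lit 39602) (.g (nat_lit 395) (.e (nat_lit 7936) (nat_lit 90) (.e (nat_lit 81946) (nat_lit 20) (.e (nat_lit 2281) (nat_lit 150) .nil))) .nil)) 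
(.lf (nat_lit 39666) (.g (nat_lit 1806) (.e (nat_lit 7936) (nat_lit 90) (.e (nat_lit 81956) (nat_lit 23) (.e (nat_lit 98320) (nat_lit 17) (.e (nat_lit 7593) (nat_lit 407) (.e (nat_lit 73729) (nat_lit 0) .nil))))) .nil))))) (.nd (nat_lit 4) (.nd (nat_lit 5) (.nd (nat_lit 6) 
(.lf (nat_lit 39562) (.g (nat_lit 595) (.e (nat_lit 7936) (nat_lit 90) (.e (nat_lit 81935) (nat_lit 20) (.e (nat_lit 2375) (nat_lit 154) (.e (nat_lit 810752) (nat_lit 14) .nil)))) .nil)) 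
(.lf (nat_lit 39626) (.g (nat_lit 1580) (.e (nat_lit 7936) (nat_lit 90) (.e (nat_lit 81948) (nat_lit 21) (.e (nat_lit 57683) (nat_lit 155) (.e (nat_lit 122917) (nat_lit 15) (.e (nat_lit 360449) (nat_lit 0) .nil))))) .nil))) (.nd (nat_lit 6) 
(.lf (nat_lit 39594) (.g (nat_lit 1140) (.e (nat_lit 7936) (nat_lit 90) (.e (nat_lit 81946) (nat_lit 20) (.e (nat_lit 2270) (nat_lit 149) (.e (nat_lit 761867) (nat_lit 5) .nil)))) .nil)) 
(.lf (nat_lit 39658) (.g (nat_lit 907) (.e (nat_lit 7936) (nat_lit 90) (.e (nat_lit 81956) (nat_lit 23) (.e (nat_lit 98319) (nat_lit 17) .nil))) .nil)))) (.nd (nat_lit 5) (.nd (nat_lit 6) 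
(.lf (nat_lit 39578) (.g (nat_lit 956) (.e (nat_lit 7936) (nat_lit 90) (.e (nat_lit 81938) (nat_lit 20) (.e (nat_lit 2281) (nat_lit 150) (.e (nat_lit 770057) (nat_lit 5) .nil)))) .nil)) 
(.lf (nat_lit 39642) (.g (nat_lit 792) (.e (nat_lit 7936) (nat_lit 90) (.e (nat_lit 81951) (nat_lit 22) (.e (nat_lit 90165) (nat_lit 12) (.e (nat_lit 171776) (nat_lit 192) .nil)))) .nil))) (.nd (nat_lit 6) 
(.lf (nat_lit 39610) (.g (nat_lit 1344) (.e (nat_lit 7936) (nat_lit 90) (.e (nat_lit 81947) (nat_lit 20) (.e (nat_lit 2006) (nat_lit 138) (.e (nat_lit 671748) (nat_lit 0) (.e (nat_lit 1589) (nat_lit 111) .nil))))) .nil)) 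
(.lf (nat_lit 39674) (.g (nat_lit 2364) (.e (nat_lit 7936) (nat_lit 90) (.e (nat_lit 81956) (nat_lit 23) (.e (nat_lit 98389) (nat_lit 33) (.e (nat_lit 491560) (nat_lit 10) (.e (nat_lit 344090) (nat_lit 18) .nil))))) .nil)))))) (.nd (nat_lit 3) (.nd (nat_lit 4) (.nd (nat_lit 5) (.nd (nat_lit 6) 
(.lf (nat_lit 39558) (.g (nat_lit 1089) (.e (nat_lit 7936) (nat_lit 90) (.e (nat_lit 81935) (nat_lit 20) (.e (nat_lit 1998) (nat_lit 137) (.e (nat_lit 663554) (nat_lit 0) (.e (nat_lit 1580) (nat_lit 111) .nil))))) .nil)) 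
(.lf (nat_lit 39622) (.g (nat_lit 1292) (.e (nat_lit 7936) (nat_lit 90) (.e (nat_lit 81947) (nat_lit 20) (.e (nat_lit 2281) (nat_lit 150) (.e (nat_lit 770058) (nat_lit 5) (.e (nat_lit 1586) (nat_lit 111) .nil))))) .nil))) (.nd (nat_lit 6) 
(.lf (nat_lit 39590) (.g (nat_lit 436) (.e (nat_lit 7936) (nat_lit 90) (.e (nat_lit 81946) (nat_lit 20) (.e (nat_lit 1963) (nat_lit 134) .nil))) .nil)) 
(.lf (nat_lit 39654) (.g (nat_lit 1717) (.e (nat_lit 7936) (nat_lit 90) (.e (nat_lit 81956) (nat_lit 23) (.e (nat_lit 98313) (nat_lit 9) (.e (nat_lit 335986) (nat_lit 1) (.e (nat_lit 57847) (nat_lit 252) .nil))))) .nil)))) (.nd (nat_lit 5) (.nd (nat_lit 6) 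
(.lf (nat_lit 39574) (.g (nat_lit 1443) (.e (nat_lit 7936) (nat_lit 90) (.e (nat_lit 81938) (nat_lit 20) (.e (nat_lit 2270) (nat_lit 149) (.e (nat_lit 761868) (nat_lit 5) (.e (nat_lit 1585) (nat_lit 111) .nil))))) .nil)) 
(.lf (nat_lit 39638) (.g (nat_lit 1654) (.e (nat_lit 7936) (nat_lit 90) (.e (nat_lit 81950) (nat_lit 21) (.e (nat_lit 57683) (nat_lit 155) (.e (nat_lit 122919) (nat_lit 15) (.e (nat_lit 360451) (nat_lit 0) .nil))))) .nil))) (.nd (nat_lit 6) 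
(.lf (nat_lit 39606) (.g (nat_lit 402) (.e (nat_lit 7936) (nat_lit 90) (.e (nat_lit 81947) (nat_lit 20) (.e (nat_lit 1886) (nat_lit 127) .nil))) .nil)) 
(.lf (nat_lit 39670) (.g (nat_lit 1431) (.e (nat_lit 7936) (nat_lit 90) (.e (nat_lit 81956) (nat_lit 23) (.e (nat_lit 98389) (nat_lit 33) (.e (nat_lit 491546) (nat_lit 9) .nil)))) .nil))))) (.nd (nat_lit 4) (.nd (nat_lit 5) (.nd (nat_lit 6) 
(.lf (nat_lit 39566) (.g (nat_lit 464) (.e (nat_lit 7936) (nat_lit 90) (.e (nat_lit 81938) (nat_lit 20) (.e (nat_lit 1963) (nat_lit 134) .nil))) .nil)) 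
(.lf (nat_lit 39630) (.g (nat_lit 1410) (.e (nat_lit 7936) (nat_lit 90) (.e (nat_lit 81948) (nat_lit 21) (.e (nat_lit 57872) (nat_lit 264) (.e (nat_lit 1219) (nat_lit 90) (.e (nat_lit 81957) (nat_lit 24) .nil))))) .nil))) (.nd (nat_lit 6) 
(.lf (nat_lit 39598) (.g (nat_lit 405) (.e (nat_lit 7936) (nat_lit 90) (.e (nat_lit 81946) (nat_lit 20) (.e (nat_lit 2280) (nat_lit 150) .nil))) .nil)) 
(.lf (nat_lit 39662) (.g (nat_lit 1790) (.e (nat_lit 7936) (nat_lit 90) (.e (nat_lit 81956) (nat_lit 23) (.e (nat_lit 98320) (nat_lit 17) (.e (nat_lit 7591) (nat_lit 407) (.e (nat_lit 73733) (nat_lit 0) .nil))))) .nil)))) (.nd (nat_lit 5) (.nd (nat_lit 6) 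
(.lf (nat_lit 39582) (.g (nat_lit 1594) (.e (nat_lit 7936) (nat_lit 90) (.e (nat_lit 81938) (nat_lit 20) (.e (nat_lit 2391) (nat_lit 156) (.e (nat_lit 819204) (nat_lit 0) (.e (nat_lit 3015) (nat_lit 187) .nil))))) .nil)) 
(.lf (nat_lit 39646) (.g (nat_lit 1929) (.e (nat_lit 7936) (nat_lit 90) (.e (nat_lit 81953) (nat_lit 22) (.e (nat_lit 90160) (nat_lit 11) (.e (nat_lit 32512) (nat_lit 20) .nil)))) .nil))) (.nd (nat_lit 6) 
(.lf (nat_lit 39614) (.g (nat_lit 1401) (.e (nat_lit 7936) (nat_lit 90) (.e (nat_lit 81947) (nat_lit 20) (.e (nat_lit 2270) (nat_lit 149) (.e (nat_lit 761867) (nat_lit 5) .nil)))) .nil)) 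
(.lf (nat_lit 39678) (.g (nat_lit 2484) (.e (nat_lit 7936) (nat_lit 90) (.e (nat_lit 81956) (nat_lit 23) (.e (nat_lit 98389) (nat_lit 33) (.e (nat_lit 491560) (nat_lit 10) (.e (nat_lit 344099) (nat_lit 18) .nil))))) .nil)))))))) (.nd (nat_lit 1) (.nd (nat_lit 2) (.nd (nat_lit 3) (.nd (nat_lit 4) (.nd (nat_lit 5) (.nd (nat_lit 6) 
(.lf (nat_lit 39553) (.g (nat_lit 1861) (.e (nat_lit 7936) (nat_lit 90) (.e (nat_lit 81927) (nat_lit 11) (.e (nat_lit 426344) (nat_lit 14) (.e (nat_lit 491560) (nat_lit 10) (.e (nat_lit 344095) (nat_lit 18) .nil))))) .nil)) 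
(.lf (nat_lit 39617) (.g (nat_lit 1625) (.e (nat_lit 7936) (nat_lit 90) (.e (nat_lit 81947) (nat_lit 20) (.e (nat_lit 2270) (nat_lit 149) (.e (nat_lit 761868) (nat_lit 5) (.e (nat_lit 1585) (nat_lit 111) .nil))))) .nil))) (.nd (nat_lit 6) 
(.lf (nat_lit 39585) (.g (nat_lit 145) (.e (nat_lit 7936) (nat_lit 90) (.e (nat_lit 81943) (nat_lit 20) (.e (nat_lit 2004) (nat_lit 138) .nil))) .nil)) 
(.lf (nat_lit 39649) (.g (nat_lit 1294) (.e (nat_lit 7936) (nat_lit 90) (.e (nat_lit 81954) (nat_lit 23) (.e (nat_lit 98313) (nat_lit 9) (.e (nat_lit 343808) (nat_lit 20) .nil)))) .nil)))) (.nd (nat_lit 5) (.nd (nat_lit 6) 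
(.lf (nat_lit 39569) (.g (nat_lit 1229) (.e (nat_lit 7936) (nat_lit 90) (.e (nat_lit 81938) (nat_lit 20) (.e (nat_lit 2006) (nat_lit 138) (.e (nat_lit 671748) (nat_lit 0) (.e (nat_lit 1589) (nat_lit 111) .nil))))) .nil)) 
(.lf (nat_lit 39633) (.g (nat_lit 452) (.e (nat_lit 7936) (nat_lit 90) (.e (nat_lit 81950) (nat_lit 21) (.e (nat_lit 57655) (nat_lit 152) .nil))) .nil))) (.nd (nat_lit 6) 
(.lf (nat_lit 39601) (.g (nat_lit 1053) (.e (nat_lit 7936) (nat_lit 90) (.e (nat_lit 81946) (nat_lit 20) (.e (nat_lit 2280) (nat_lit 150) (.e (nat_lit 770057) (nat_lit 5) (.e (nat_lit 1598) (nat_lit 111) .nil))))) .nil)) 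
(.lf (nat_lit 39665) (.g (nat_lit 1956) (.e (nat_lit 7936) (nat_lit 90) (.e (nat_lit 81956) (nat_lit 23) (.e (nat_lit 98320) (nat_lit 17) (.e (nat_lit 7593) (nat_lit 407) (.e (nat_lit 73728) (nat_lit 0) .nil))))) .nil))))) (.nd (nat_lit 4) (.nd (nat_lit 5) (.nd (nat_lit 6) 
(.lf (nat_lit 39561) (.g (nat_lit 488) (.e (nat_lit 7936) (nat_lit 90) (.e (nat_lit 81935) (nat_lit 20) (.e (nat_lit 2375) (nat_lit 154) .nil))) .nil)) 
(.lf (nat_lit 39625) (.g (nat_lit 697) (.e (nat_lit 7936) (nat_lit 90) (.e (nat_lit 81948) (nat_lit 21) (.e (nat_lit 57683) (nat_lit 155) (.e (nat_lit 122916) (nat_lit 14) .nil)))) .nil))) (.nd (nat_lit 6) 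
(.lf (nat_lit 39593) (.g (nat_lit 652) (.e (nat_lit 7936) (nat_lit 90) (.e (nat_lit 81946) (nat_lit 20) (.e (nat_lit 2006) (nat_lit 138) (.e (nat_lit 671748) (nat_lit 0) .nil)))) .nil)) 
(.lf (nat_lit 39657) (.g (nat_lit 1633) (.e (nat_lit 7936) (nat_lit 90) (.e (nat_lit 81956) (nat_lit 23) (.e (nat_lit 98313) (nat_lit 9) (.e (nat_lit 343808) (nat_lit 20) .nil)))) .nil)))) (.nd (nat_lit 5) (.nd (nat_lit 6) 
(.lf (nat_lit 39577) (.g (nat_lit 467) (.e (nat_lit 7936) (nat_lit 90) (.e (nat_lit 81938) (nat_lit 20) (.e (nat_lit 2281) (nat_lit 150) .nil))) .nil)) 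
(.lf (nat_lit 39641) (.g (nat_lit 1622) (.e (nat_lit 7936) (nat_lit 90) (.e (nat_lit 81950) (nat_lit 21) (.e (nat_lit 57873) (nat_lit 264) (.e (nat_lit 1190) (nat_lit 88) (.e (nat_lit 65619) (nat_lit 10) .nil))))) .nil))) (.nd (nat_lit 6) 
(.lf (nat_lit 39609) (.g (nat_lit 1401) (.e (nat_lit 7936) (nat_lit 90) (.e (nat_lit 81947) (nat_lit 20) (.e (nat_lit 2006) (nat_lit 138) (.e (nat_lit 671748) (nat_lit 0) (.e (nat_lit 1586) (nat_lit 111) .nil))))) .nil)) 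
(.lf (nat_lit 39673) (.g (nat_lit 2438) (.e (nat_lit 7936) (nat_lit 90) (.e (nat_lit 81956) (nat_lit 23) (.e (nat_lit 98389) (nat_lit 33) (.e (nat_lit 491560) (nat_lit 10) (.e (nat_lit 344088) (nat_lit 18) .nil))))) .nil)))))) (.nd (nat_lit 3) (.nd (nat_lit 4) (.nd (nat_lit 5) (.nd (nat_lit 6) 
(.lf (nat_lit 39557) (.g (nat_lit 558) (.e (nat_lit 7936) (nat_lit 90) (.e (nat_lit 81935) (nat_lit 20) (.e (nat_lit 1998) (nat_lit 137) (.e (nat_lit 663554) (nat_lit 0) .nil)))) .nil)) 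
(.lf (nat_lit 39621) (.g (nat_lit 937) (.e (nat_lit 7936) (nat_lit 90) (.e (nat_lit 81947) (nat_lit 20) (.e (nat_lit 2281) (nat_lit 150) (.e (nat_lit 770058) (nat_lit 5) .nil)))) .nil))) (.nd (nat_lit 6) 
(.lf (nat_lit 39589) (.g (nat_lit 427) (.e (nat_lit 7936) (nat_lit 90) (.e (nat_lit 81946) (nat_lit 20) (.e (nat_lit 1962) (nat_lit 134) .nil))) .nil)) 
(.lf (nat_lit 39653) (.g (nat_lit 2329) (.e (nat_lit 7936) (nat_lit 90) (.e (nat_lit 81954) (nat_lit 23) (.e (nat_lit 98389) (nat_lit 33) (.e (nat_lit 491560) (nat_lit 10) (.e (nat_lit 344097) (nat_lit 18) .nil))))) .nil)))) (.nd (nat_lit 5) (.nd (nat_lit 6) 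
(.lf (nat_lit 39573) (.g (nat_lit 1414) (.e (nat_lit 7936) (nat_lit 90) (.e (nat_lit 81938) (nat_lit 20) (.e (nat_lit 2270) (nat_lit 149) (.e (nat_lit 761868) (nat_lit 5) (.e (nat_lit 1582) (nat_lit 111) .nil))))) .nil)) 
(.lf (nat_lit 39637) (.g (nat_lit 421) (.e (nat_lit 7936) (nat_lit 90) (.e (nat_lit 81950) (nat_lit 21) (.e (nat_lit 57683) (nat_lit 155) .nil))) .nil))) (.nd (nat_lit 6) 
(.lf (nat_lit 39605) (.g (nat_lit 1239) (.e (nat_lit 7936) (nat_lit 90) (.e (nat_lit 81946) (nat_lit 20) (.e (nat_lit 2281) (nat_lit 150) (.e (nat_lit 770058) (nat_lit 5) (.e (nat_lit 1589) (nat_lit 111) .nil))))) .nil)) 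
(.lf (nat_lit 39669) (.g (nat_lit 2869) (.e (nat_lit 7936) (nat_lit 90) (.e (nat_lit 81956) (nat_lit 23) (.e (nat_lit 98388) (nat_lit 33) (.e (nat_lit 491566) (nat_lit 12) (.e (nat_lit 385045) (nat_lit 21) .nil))))) .nil))))) (.nd (nat_lit 4) (.nd (nat_lit 5) (.nd (nat_lit 6) 
(.lf (nat_lit 39565) (.g (nat_lit 468) (.e (nat_lit 7936) (nat_lit 90) (.e (nat_lit 81938) (nat_lit 20) (.e (nat_lit 1962) (nat_lit 134) .nil))) .nil)) 
(.lf (nat_lit 39629) (.g (nat_lit 726) (.e (nat_lit 7936) (nat_lit 90) (.e (nat_lit 81948) (nat_lit 21) (.e (nat_lit 57872) (nat_lit 264) (.e (nat_lit 1219) (nat_lit 90) .nil)))) .nil))) (.nd (nat_lit 6) 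
(.lf (nat_lit 39597) (.g (nat_lit 1370) (.e (nat_lit 7936) (nat_lit 90) (.e (nat_lit 81946) (nat_lit 20) (.e (nat_lit 2270) (nat_lit 149) (.e (nat_lit 761868) (nat_lit 5) (.e (nat_lit 1597) (nat_lit 111) .nil))))) .nil)) 
(.lf (nat_lit 39661) (.g (nat_lit 1809) (.e (nat_lit 7936) (nat_lit 90) (.e (nat_lit 81956) (nat_lit 23) (.e (nat_lit 98320) (nat_lit 17) (.e (nat_lit 7591) (nat_lit 407) (.e (nat_lit 73729) (nat_lit 0) .nil))))) .nil)))) (.nd (nat_lit 5) (.nd (nat_lit 6) 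
(.lf (nat_lit 39581) (.g (nat_lit 1354) (.e (nat_lit 7936) (nat_lit 90) (.e (nat_lit 81938) (nat_lit 20) (.e (nat_lit 2281) (nat_lit 150) (.e (nat_lit 770058) (nat_lit 5) (.e (nat_lit 1589) (nat_lit 111) .nil))))) .nil)) 
(.lf (nat_lit 39645) (.g (nat_lit 981) (.e (nat_lit 7936) (nat_lit 90) (.e (nat_lit 81953) (nat_lit 22) (.e (nat_lit 90160) (nat_lit 11) .nil))) .nil))) (.nd (nat_lit 6) 
(.lf (nat_lit 39613) (.g (nat_lit 455) (.e (nat_lit 7936) (nat_lit 90) (.e (nat_lit 81947) (nat_lit 20) (.e (nat_lit 2270) (nat_lit 149) .nil))) .nil)) 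
(.lf (nat_lit 39677) (.g (nat_lit 2680) (.e (nat_lit 7936) (nat_lit 90) (.e (nat_lit 81956) (nat_lit 23) (.e (nat_lit 98389) (nat_lit 33) (.e (nat_lit 491560) (nat_lit 10) (.e (nat_lit 344097) (nat_lit 18) .nil))))) .nil))))))) (.nd (nat_lit 2) (.nd (nat_lit 3) (.nd (nat_lit 4) (.nd (nat_lit 5) (.nd (nat_lit 6) 
(.lf (nat_lit 39555) (.g (nat_lit 805) (.e (nat_lit 7936) (nat_lit 90) (.e (nat_lit 81933) (nat_lit 20) (.e (nat_lit 1998) (nat_lit 137) (.e (nat_lit 663554) (nat_lit 0) (.e (nat_lit 1580) (nat_lit 111) .nil))))) .nil)) 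
(.lf (nat_lit 39619) (.g (nat_lit 1457) (.e (nat_lit 7936) (nat_lit 90) (.e (nat_lit 81947) (nat_lit 20) (.e (nat_lit 2280) (nat_lit 150) (.e (nat_lit 770072) (nat_lit 8) (.e (nat_lit 65617) (nat_lit 10) .nil))))) .nil))) (.nd (nat_lit 6) 
(.lf (nat_lit 39587) (.g (nat_lit 1024) (.e (nat_lit 7936) (nat_lit 90) (.e (nat_lit 81943) (nat_lit 20) (.e (nat_lit 2281) (nat_lit 150) (.e (nat_lit 770058) (nat_lit 5) (.e (nat_lit 1586) (nat_lit 111) .nil))))) .nil)) 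
(.lf (nat_lit 39651) (.g (nat_lit 1003) (.e (nat_lit 7936) (nat_lit 90) (.e (nat_lit 81954) (nat_lit 23) (.e (nat_lit 98385) (nat_lit 32) (.e (nat_lit 475214) (nat_lit 42) .nil)))) .nil)))) (.nd (nat_lit 5) (.nd (nat_lit 6) 
(.lf (nat_lit 39571) (.g (nat_lit 1157) (.e (nat_lit 7936) (nat_lit 90) (.e (nat_lit 81938) (nat_lit 20) (.e (nat_lit 2006) (nat_lit 138) (.e (nat_lit 671748) (nat_lit 0) (.e (nat_lit 1599) (nat_lit 111) .nil))))) .nil)) 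
(.lf (nat_lit 39635) (.g (nat_lit 2155) (.e (nat_lit 7936) (nat_lit 90) (.e (nat_lit 81950) (nat_lit 21) (.e (nat_lit 57681) (nat_lit 155) (.e (nat_lit 122917) (nat_lit 15) .nil)))) .nil))) (.nd (nat_lit 6) 
(.lf (nat_lit 39603) (.g (nat_lit 889) (.e (nat_lit 7936) (nat_lit 90) (.e (nat_lit 81946) (nat_lit 20) (.e (nat_lit 2281) (nat_lit 150) (.e (nat_lit 770057) (nat_lit 5) .nil)))) .nil)) 
(.lf (nat_lit 39667) (.g (nat_lit 834) (.e (nat_lit 7936) (nat_lit 90) (.e (nat_lit 81956) (nat_lit 23) (.e (nat_lit 98385) (nat_lit 32) .nil))) .nil))))) (.nd (nat_lit 4) (.nd (nat_lit 5) (.nd (nat_lit 6) 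
(.lf (nat_lit 39563) (.g (nat_lit 474) (.e (nat_lit 7936) (nat_lit 90) (.e (nat_lit 81938) (nat_lit 20) (.e (nat_lit 1885) (nat_lit 127) .nil))) .nil)) 
(.lf (nat_lit 39627) (.g (nat_lit 2043) (.e (nat_lit 7936) (nat_lit 90) (.e (nat_lit 81948) (nat_lit 21) (.e (nat_lit 57683) (nat_lit 155) (.e (nat_lit 122917) (nat_lit 15) (.e (nat_lit 360451) (nat_lit 0) .nil))))) .nil))) (.nd (nat_lit 6) 
(.lf (nat_lit 39595) (.g (nat_lit 1379) (.e (nat_lit 7936) (nat_lit 90) (.e (nat_lit 81946) (nat_lit 20) (.e (nat_lit 2270) (nat_lit 149) (.e (nat_lit 761868) (nat_lit 5) (.e (nat_lit 1582) (nat_lit 111) .nil))))) .nil)) 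
(.lf (nat_lit 39659) (.g (nat_lit 1372) (.e (nat_lit 7936) (nat_lit 90) (.e (nat_lit 81956) (nat_lit 23) (.e (nat_lit 98320) (nat_lit 17) (.e (nat_lit 7591) (nat_lit 407) .nil)))) .nil)))) (.nd (nat_lit 5) (.nd (nat_lit 6) 
(.lf (nat_lit 39579) (.g (nat_lit 1012) (.e (nat_lit 7936) (nat_lit 90) (.e (nat_lit 81938) (nat_lit 20) (.e (nat_lit 2281) (nat_lit 150) (.e (nat_lit 770058) (nat_lit 5) .nil)))) .nil)) 
(.lf (nat_lit 39643) (.g (nat_lit 1219) (.e (nat_lit 7936) (nat_lit 90) (.e (nat_lit 81953) (nat_lit 22) (.e (nat_lit 90155) (nat_lit 10) .nil))) .nil))) (.nd (nat_lit 6) 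
(.lf (nat_lit 39611) (.g (nat_lit 1371) (.e (nat_lit 7936) (nat_lit 90) (.e (nat_lit 81947) (nat_lit 20) (.e (nat_lit 2006) (nat_lit 138) (.e (nat_lit 671748) (nat_lit 0) (.e (nat_lit 1595) (nat_lit 111) .nil))))) .nil)) 
(.lf (nat_lit 39675) (.g (nat_lit 2342) (.e (nat_lit 7936) (nat_lit 90) (.e (nat_lit 81956) (nat_lit 23) (.e (nat_lit 98389) (nat_lit 33) (.e (nat_lit 491560) (nat_lit 10) (.e (nat_lit 344094) (nat_lit 18) .nil))))) .nil)))))) (.nd (nat_lit 3) (.nd (nat_lit 4) (.nd (nat_lit 5) (.nd (nat_lit 6) 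
(.lf (nat_lit 39559) (.g (nat_lit 1239) (.e (nat_lit 7936) (nat_lit 90) (.e (nat_lit 81935) (nat_lit 20) (.e (nat_lit 1998) (nat_lit 137) (.e (nat_lit 663554) (nat_lit 0) (.e (nat_lit 1599) (nat_lit 111) .nil))))) .nil)) 
(.lf (nat_lit 39623) (.g (nat_lit 357) (.e (nat_lit 7936) (nat_lit 90) (.e (nat_lit 81948) (nat_lit 21) (.e (nat_lit 57655) (nat_lit 152) .nil))) .nil))) (.nd (nat_lit 6) 
(.lf (nat_lit 39591) (.g (nat_lit 632) (.e (nat_lit 7936) (nat_lit 90) (.e (nat_lit 81946) (nat_lit 20) (.e (nat_lit 2005) (nat_lit 138) (.e (nat_lit 671747) (nat_lit 0) .nil)))) .nil)) 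
(.lf (nat_lit 39655) (.g (nat_lit 1516) (.e (nat_lit 7936) (nat_lit 90) (.e (nat_lit 81956) (nat_lit 23) (.e (nat_lit 98313) (nat_lit 9) (.e (nat_lit 335995) (nat_lit 1) .nil)))) .nil)))) (.nd (nat_lit 5) (.nd (nat_lit 6) 
(.lf (nat_lit 39575) (.g (nat_lit 418) (.e (nat_lit 7936) (nat_lit 90) (.e (nat_lit 81938) (nat_lit 20) (.e (nat_lit 2280) (nat_lit 150) .nil))) .nil)) 
(.lf (nat_lit 39639) (.g (nat_lit 1322) (.e (nat_lit 7936) (nat_lit 90) (.e (nat_lit 81950) (nat_lit 21) (.e (nat_lit 57684) (nat_lit 155) (.e (nat_lit 122916) (nat_lit 14) (.e (nat_lit 352309) (nat_lit 21) .nil))))) .nil))) (.nd (nat_lit 6) 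
(.lf (nat_lit 39607) (.g (nat_lit 668) (.e (nat_lit 7936) (nat_lit 90) (.e (nat_lit 81947) (nat_lit 20) (.e (nat_lit 2005) (nat_lit 138) (.e (nat_lit 671748) (nat_lit 0) .nil)))) .nil)) 
(.lf (nat_lit 39671) (.g (nat_lit 1390) (.e (nat_lit 7936) (nat_lit 90) (.e (nat_lit 81956) (nat_lit 23) (.e (nat_lit 98389) (nat_lit 33) (.e (nat_lit 491558) (nat_lit 10) .nil)))) .nil))))) (.nd (nat_lit 4) (.nd (nat_lit 5) (.nd (nat_lit 6) 
(.lf (nat_lit 39567) (.g (nat_lit 453) (.e (nat_lit 7936) (nat_lit 90) (.e (nat_lit 81938) (nat_lit 20) (.e (nat_lit 2003) (nat_lit 138) .nil))) .nil)) 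
(.lf (nat_lit 39631) (.g (nat_lit 1569) (.e (nat_lit 7936) (nat_lit 90) (.e (nat_lit 81948) (nat_lit 21) (.e (nat_lit 57872) (nat_lit 264) (.e (nat_lit 1221) (nat_lit 90) (.e (nat_lit 81959) (nat_lit 24) .nil))))) .nil))) (.nd (nat_lit 6) 
(.lf (nat_lit 39599) (.g (nat_lit 1468) (.e (nat_lit 7936) (nat_lit 90) (.e (nat_lit 81946) (nat_lit 20) (.e (nat_lit 2280) (nat_lit 150) (.e (nat_lit 770055) (nat_lit 5) (.e (nat_lit 1598) (nat_lit 111) .nil))))) .nil)) 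
(.lf (nat_lit 39663) (.g (nat_lit 1893) (.e (nat_lit 7936) (nat_lit 90) (.e (nat_lit 81956) (nat_lit 23) (.e (nat_lit 98320) (nat_lit 17) (.e (nat_lit 7591) (nat_lit 407) (.e (nat_lit 73737) (nat_lit 0) .nil))))) .nil)))) (.nd (nat_lit 5) (.nd (nat_lit 6) 
(.lf (nat_lit 39583) (.g (nat_lit 239) (.e (nat_lit 7936) (nat_lit 90) (.e (nat_lit 81943) (nat_lit 20) (.e (nat_lit 1962) (nat_lit 134) .nil))) .nil)) 
(.lf (nat_lit 39647) (.g (nat_lit 529) (.e (nat_lit 7936) (nat_lit 90) (.e (nat_lit 81953) (nat_lit 22) (.e (nat_lit 90165) (nat_lit 12) .nil))) .nil))) (.nd (nat_lit 6) 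
(.lf (nat_lit 39615) (.g (nat_lit 1316) (.e (nat_lit 7936) (nat_lit 90) (.e (nat_lit 81947) (nat_lit 20) (.e (nat_lit 2270) (nat_lit 149) (.e (nat_lit 761868) (nat_lit 5) .nil)))) .nil)) 
(.lf (nat_lit 39679) (.g (nat_lit 1087) (.e (nat_lit 7936) (nat_lit 90) (.e (nat_lit 81957) (nat_lit 24) (.e (nat_lit 130816) (nat_lit 154) (.e (nat_lit 57427) (nat_lit 15) (.e (nat_lit 360451) (nat_lit 0) .nil))))) .nil)))))))))

noncomputable def tv550 : DT := (.nd (nat_lit 0) (.nd (nat_lit 1) (.nd (nat_lit 2) (.nd (nat_lit 3) (.nd (nat_lit 4) (.nd (nat_lit 5) (.nd (nat_lit 6) 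
(.lf (nat_lit 39680) (.g (nat_lit 1791) (.e (nat_lit 7936) (nat_lit 90) (.e (nat_lit 81957) (nat_lit 24) (.e (nat_lit 123182) (nat_lit 264) (.e (nat_lit 1222) (nat_lit 90) (.e (nat_lit 81957) (nat_lit 24) .nil))))) .nil)) 
(.lf (nat_lit 39744) (.g (nat_lit 506) (.e (nat_lit 7936) (nat_lit 90) (.e (nat_lit 81965) (nat_lit 26) (.e (nat_lit 147463) (nat_lit 9) .nil))) .nil))) (.nd (nat_lit 6) 
(.lf (nat_lit 39712) (.g (nat_lit 388) (.e (nat_lit 7936) (nat_lit 90) (.e (nat_lit 81963) (nat_lit 26) (.e (nat_lit 147463) (nat_lit 9) .nil))) .nil)) 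
(.lf (nat_lit 39776) (.g (nat_lit 2340) (.e (nat_lit 7936) (nat_lit 90) (.e (nat_lit 81965) (nat_lit 26) (.e (nat_lit 147495) (nat_lit 11) (.e (nat_lit 24665) (nat_lit 14) (.e (nat_lit 401421) (nat_lit 1) .nil))))) .nil)))) (.nd (nat_lit 5) (.nd (nat_lit 6) 
(.lf (nat_lit 39696) (.g (nat_lit 1971) (.e (nat_lit 7936) (nat_lit 90) (.e (nat_lit 81959) (nat_lit 24) (.e (nat_lit 123182) (nat_lit 264) (.e (nat_lit 1218) (nat_lit 90) .nil)))) .nil)) 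
(.lf (nat_lit 39760) (.g (nat_lit 1372) (.e (nat_lit 7936) (nat_lit 90) (.e (nat_lit 81965) (nat_lit 26) (.e (nat_lit 147467) (nat_lit 9) (.e (nat_lit 324) (nat_lit 24) (.e (nat_lit 360449) (nat_lit 0) .nil))))) .nil))) (.nd (nat_lit 6) 
(.lf (nat_lit 39728) (.g (nat_lit 925) (.e (nat_lit 7936) (nat_lit 90) (.e (nat_lit 81963) (nat_lit 26) (.e (nat_lit 147495) (nat_lit 11) (.e (nat_lit 24640) (nat_lit 10) .nil)))) .nil)) 
(.lf (nat_lit 39792) (.g (nat_lit 1330) (.e (nat_lit 7936) (nat_lit 90) (.e (nat_lit 81965) (nat_lit 26) (.e (nat_lit 147496) (nat_lit 11) (.e (nat_lit 24641) (nat_lit 10) .nil)))) .nil))))) (.nd (nat_lit 4) (.nd (nat_lit 5) (.nd (nat_lit 6) 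
(.lf (nat_lit 39688) (.g (nat_lit 1819) (.e (nat_lit 7936) (nat_lit 90) (.e (nat_lit 81957) (nat_lit 24) (.e (nat_lit 123197) (nat_lit 266) (.e (nat_lit 57424) (nat_lit 14) (.e (nat_lit 352318) (nat_lit 24) .nil))))) .nil)) 
(.lf (nat_lit 39752) (.g (nat_lit 1155) (.e (nat_lit 7936) (nat_lit 90) (.e (nat_lit 81965) (nat_lit 26) (.e (nat_lit 147466) (nat_lit 9) (.e (nat_lit 321) (nat_lit 24) .nil)))) .nil))) (.nd (nat_lit 6) 
(.lf (nat_lit 39720) (.g (nat_lit 682) (.e (nat_lit 7936) (nat_lit 90) (.e (nat_lit 81963) (nat_lit 26) (.e (nat_lit 147467) (nat_lit 9) (.e (nat_lit 324) (nat_lit 24) .nil)))) .nil)) 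
(.lf (nat_lit 39784) (.g (nat_lit 1842) (.e (nat_lit 7936) (nat_lit 90) (.e (nat_lit 81965) (nat_lit 26) (.e (nat_lit 147496) (nat_lit 11) (.e (nat_lit 24639) (nat_lit 10) (.e (nat_lit 344093) (nat_lit 18) .nil))))) .nil)))) (.nd (nat_lit 5) (.nd (nat_lit 6) 
(.lf (nat_lit 39704) (.g (nat_lit 1719) (.e (nat_lit 7936) (nat_lit 90) (.e (nat_lit 81959) (nat_lit 24) (.e (nat_lit 123183) (nat_lit 264) (.e (nat_lit 1222) (nat_lit 90) (.e (nat_lit 81957) (nat_lit 24) .nil))))) .nil)) 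
(.lf (nat_lit 39768) (.g (nat_lit 1993) (.e (nat_lit 7936) (nat_lit 90) (.e (nat_lit 81965) (nat_lit 26) (.e (nat_lit 147495) (nat_lit 11) (.e (nat_lit 24640) (nat_lit 10) (.e (nat_lit 344088) (nat_lit 18) .nil))))) .nil))) (.nd (nat_lit 6) 
(.lf (nat_lit 39736) (.g (nat_lit 1453) (.e (nat_lit 7936) (nat_lit 90) (.e (nat_lit 81963) (nat_lit 26) (.e (nat_lit 147496) (nat_lit 11) (.e (nat_lit 24639) (nat_lit 10) (.e (nat_lit 344090) (nat_lit 18) .nil))))) .nil)) 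
(.lf (nat_lit 39800) (.g (nat_lit 2272) (.e (nat_lit 1225) (nat_lit 91) (.e (nat_lit 90170) (nat_lit 13) (.e (nat_lit 172106) (nat_lit 10) (.e (nat_lit 434231) (nat_lit 23) (.e (nat_lit 532490) (nat_lit 0) (.e (nat_lit 6206) (nat_lit 333) (.e (nat_lit 57886) (nat_lit 270) .nil))))))) (.g (nat_lit 4) .nil .nil))))))) (.nd (nat_lit 3) (.nd (nat_lit 4) (.nd (nat_lit 5) (.nd (nat_lit 6) 
(.lf (nat_lit 39684) (.g (nat_lit 2092) (.e (nat_lit 7936) (nat_lit 90) (.e (nat_lit 81957) (nat_lit 24) (.e (nat_lit 123195) (nat_lit 266) (.e (nat_lit 57424) (nat_lit 14) (.e (nat_lit 352318) (nat_lit 24) .nil))))) .nil)) 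
(.lf (nat_lit 39748) (.g (nat_lit 1287) (.e (nat_lit 7936) (nat_lit 90) (.e (nat_lit 81965) (nat_lit 26) (.e (nat_lit 147463) (nat_lit 9) (.e (nat_lit 334) (nat_lit 26) (.e (nat_lit 376859) (nat_lit 21) .nil))))) .nil))) (.nd (nat_lit 6) 
(.lf (nat_lit 39716) (.g (nat_lit 839) (.e (nat_lit 7936) (nat_lit 90) (.e (nat_lit 81963) (nat_lit 26) (.e (nat_lit 147466) (nat_lit 9) (.e (nat_lit 321) (nat_lit 24) .nil)))) .nil)) 
(.lf (nat_lit 39780) (.g (nat_lit 1962) (.e (nat_lit 7936) (nat_lit 90) (.e (nat_lit 81965) (nat_lit 26) (.e (nat_lit 147496) (nat_lit 11) (.e (nat_lit 24617) (nat_lit 7) (.e (nat_lit 319511) (nat_lit 10) .nil))))) .nil)))) (.nd (nat_lit 5) (.nd (nat_lit 6) 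
(.lf (nat_lit 39700) (.g (nat_lit 2494) (.e (nat_lit 7936) (nat_lit 90) (.e (nat_lit 81959) (nat_lit 24) (.e (nat_lit 123182) (nat_lit 264) (.e (nat_lit 1223) (nat_lit 90) (.e (nat_lit 81959) (nat_lit 24) .nil))))) .nil)) 
(.lf (nat_lit 39764) (.g (nat_lit 1754) (.e (nat_lit 7936) (nat_lit 90) (.e (nat_lit 81965) (nat_lit 26) (.e (nat_lit 147495) (nat_lit 11) (.e (nat_lit 24639) (nat_lit 10) (.e (nat_lit 344090) (nat_lit 18) .nil))))) .nil))) (.nd (nat_lit 6) 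
(.lf (nat_lit 39732) (.g (nat_lit 293) (.e (nat_lit 7936) (nat_lit 90) (.e (nat_lit 81963) (nat_lit 26) (.e (nat_lit 147496) (nat_lit 11) .nil))) .nil)) 
(.lf (nat_lit 39796) (.g (nat_lit 2385) (.e (nat_lit 1225) (nat_lit 91) (.e (nat_lit 90170) (nat_lit 13) (.e (nat_lit 172106) (nat_lit 10) (.e (nat_lit 434231) (nat_lit 23) (.e (nat_lit 532486) (nat_lit 0) (.e (nat_lit 6218) (nat_lit 333) (.e (nat_lit 57888) (nat_lit 270) .nil))))))) (.g (nat_lit 4) .nil .nil)))))) (.nd (nat_lit 4) (.nd (nat_lit 5) (.nd (nat_lit 6) 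
(.lf (nat_lit 39692) (.g (nat_lit 1485) (.e (nat_lit 7936) (nat_lit 90) (.e (nat_lit 81957) (nat_lit 24) (.e (nat_lit 123198) (nat_lit 266) (.e (nat_lit 57427) (nat_lit 15) (.e (nat_lit 360455) (nat_lit 0) .nil))))) .nil)) 
(.lf (nat_lit 39756) (.g (nat_lit 1118) (.e (nat_lit 7936) (nat_lit 90) (.e (nat_lit 81965) (nat_lit 26) (.e (nat_lit 147467) (nat_lit 9) (.e (nat_lit 321) (nat_lit 24) .nil)))) .nil))) (.nd (nat_lit 6) 
(.lf (nat_lit 39724) (.g (nat_lit 952) (.e (nat_lit 7936) (nat_lit 90) (.e (nat_lit 81963) (nat_lit 26) (.e (nat_lit 147495) (nat_lit 11) (.e (nat_lit 24639) (nat_lit 10) .nil)))) .nil)) 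
(.lf (nat_lit 39788) (.g (nat_lit 1976) (.e (nat_lit 7936) (nat_lit 90) (.e (nat_lit 81965) (nat_lit 26) (.e (nat_lit 147496) (nat_lit 11) (.e (nat_lit 24640) (nat_lit 10) (.e (nat_lit 344090) (nat_lit 18) .nil))))) .nil)))) (.nd (nat_lit 5) (.nd (nat_lit 6) 
(.lf (nat_lit 39708) (.g (nat_lit 1900) (.e (nat_lit 7936) (nat_lit 90) (.e (nat_lit 81959) (nat_lit 24) (.e (nat_lit 123195) (nat_lit 266) (.e (nat_lit 57428) (nat_lit 15) .nil)))) .nil)) 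
(.lf (nat_lit 39772) (.g (nat_lit 2309) (.e (nat_lit 7936) (nat_lit 90) (.e (nat_lit 81965) (nat_lit 26) (.e (nat_lit 147495) (nat_lit 11) (.e (nat_lit 24640) (nat_lit 10) (.e (nat_lit 344094) (nat_lit 18) .nil))))) .nil))) (.nd (nat_lit 6) 
(.lf (nat_lit 39740) (.g (nat_lit 2188) (.e (nat_lit 7936) (nat_lit 90) (.e (nat_lit 81963) (nat_lit 26) (.e (nat_lit 147496) (nat_lit 11) (.e (nat_lit 24640) (nat_lit 10) (.e (nat_lit 344093) (nat_lit 18) .nil))))) .nil)) 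
(.lf (nat_lit 39804) (.g (nat_lit 1713) (.e (nat_lit 1225) (nat_lit 91) (.e (nat_lit 90170) (nat_lit 13) (.e (nat_lit 172106) (nat_lit 10) (.e (nat_lit 434231) (nat_lit 23) (.e (nat_lit 532544) (nat_lit 10) (.e (nat_lit 344152) (nat_lit 34) (.e (nat_lit 622600) (nat_lit 5) .nil))))))) (.g (nat_lit 4) .nil .nil)))))))) 
(.nd (nat_lit 2) (.nd (nat_lit 3) (.nd (nat_lit 4) (.nd (nat_lit 5) (.nd (nat_lit 6) 
(.lf (nat_lit 39682) (.g (nat_lit 1805) (.e (nat_lit 7936) (nat_lit 90) (.e (nat_lit 81957) (nat_lit 24) (.e (nat_lit 123182) (nat_lit 264) (.e (nat_lit 1224) (nat_lit 90) (.e (nat_lit 81959) (nat_lit 24) .nil))))) .nil)) 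
(.lf (nat_lit 39746) (.g (nat_lit 978) (.e (nat_lit 7936) (nat_lit 90) (.e (nat_lit 81965) (nat_lit 26) (.e (nat_lit 147463) (nat_lit 9) (.e (nat_lit 324) (nat_lit 24) .nil)))) .nil))) (.nd (nat_lit 6) 
(.lf (nat_lit 39714) (.g (nat_lit 929) (.e (nat_lit 7936) (nat_lit 90) (.e (nat_lit 81963) (nat_lit 26) (.e (nat_lit 147465) (nat_lit 9) (.e (nat_lit 334) (nat_lit 26) (.e (nat_lit 376859) (nat_lit 21) .nil))))) .nil)) 
(.lf (nat_lit 39778) (.g (nat_lit 1019) (.e (nat_lit 7936) (nat_lit 90) (.e (nat_lit 81965) (nat_lit 26) (.e (nat_lit 147496) (nat_lit 11) (.e (nat_lit 24617) (nat_lit 7) .nil)))) .nil)))) (.nd (nat_lit 5) (.nd (nat_lit 6) 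
(.lf (nat_lit 39698) (.g (nat_lit 2505) (.e (nat_lit 7936) (nat_lit 90) (.e (nat_lit 81959) (nat_lit 24) (.e (nat_lit 123182) (nat_lit 264) (.e (nat_lit 1222) (nat_lit 90) (.e (nat_lit 81959) (nat_lit 24) .nil))))) .nil)) 
(.lf (nat_lit 39762) (.g (nat_lit 579) (.e (nat_lit 7936) (nat_lit 90) (.e (nat_lit 81965) (nat_lit 26) (.e (nat_lit 147472) (nat_lit 9) .nil))) .nil))) (.nd (nat_lit 6) 
(.lf (nat_lit 39730) (.g (nat_lit 1947) (.e (nat_lit 7936) (nat_lit 90) (.e (nat_lit 81963) (nat_lit 26) (.e (nat_lit 147495) (nat_lit 11) (.e (nat_lit 24665) (nat_lit 14) (.e (nat_lit 401420) (nat_lit 1) .nil))))) .nil)) 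
(.lf (nat_lit 39794) (.g (nat_lit 1520) (.e (nat_lit 1225) (nat_lit 91) (.e (nat_lit 90170) (nat_lit 13) (.e (nat_lit 172106) (nat_lit 10) (.e (nat_lit 434231) (nat_lit 23) .nil)))) .nil))))) (.nd (nat_lit 4) (.nd (nat_lit 5) (.nd (nat_lit 6) 
(.lf (nat_lit 39690) (.g (nat_lit 1362) (.e (nat_lit 7936) (nat_lit 90) (.e (nat_lit 81957) (nat_lit 24) (.e (nat_lit 123197) (nat_lit 266) (.e (nat_lit 57427) (nat_lit 15) (.e (nat_lit 360456) (nat_lit 0) .nil))))) .nil)) 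
(.lf (nat_lit 39754) (.g (nat_lit 1151) (.e (nat_lit 7936) (nat_lit 90) (.e (nat_lit 81965) (nat_lit 26) (.e (nat_lit 147466) (nat_lit 9) (.e (nat_lit 324) (nat_lit 24) .nil)))) .nil))) (.nd (nat_lit 6) 
(.lf (nat_lit 39722) (.g (nat_lit 1984) (.e (nat_lit 7936) (nat_lit 90) (.e (nat_lit 81963) (nat_lit 26) (.e (nat_lit 147495) (nat_lit 11) (.e (nat_lit 24623) (nat_lit 9) (.e (nat_lit 335997) (nat_lit 1) .nil))))) .nil)) 
(.lf (nat_lit 39786) (.g (nat_lit 1684) (.e (nat_lit 7936) (nat_lit 90) (.e (nat_lit 81965) (nat_lit 26) (.e (nat_lit 147496) (nat_lit 11) (.e (nat_lit 24639) (nat_lit 10) (.e (nat_lit 344097) (nat_lit 18) .nil))))) .nil)))) (.nd (nat_lit 5) (.nd (nat_lit 6) 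
(.lf (nat_lit 39706) (.g (nat_lit 2194) (.e (nat_lit 7936) (nat_lit 90) (.e (nat_lit 81959) (nat_lit 24) (.e (nat_lit 123195) (nat_lit 266) (.e (nat_lit 57427) (nat_lit 15) (.e (nat_lit 360451) (nat_lit 0) .nil))))) .nil)) 
(.lf (nat_lit 39770) (.g (nat_lit 2176) (.e (nat_lit 7936) (nat_lit 90) (.e (nat_lit 81965) (nat_lit 26) (.e (nat_lit 147495) (nat_lit 11) (.e (nat_lit 24640) (nat_lit 10) (.e (nat_lit 344091) (nat_lit 18) .nil))))) .nil))) (.nd (nat_lit 6) 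
(.lf (nat_lit 39738) (.g (nat_lit 963) (.e (nat_lit 7936) (nat_lit 90) (.e (nat_lit 81963) (nat_lit 26) (.e (nat_lit 147496) (nat_lit 11) (.e (nat_lit 24640) (nat_lit 10) .nil)))) .nil)) 
(.lf (nat_lit 39802) (.g (nat_lit 1930) (.e (nat_lit 1225) (nat_lit 91) (.e (nat_lit 90170) (nat_lit 13) (.e (nat_lit 172106) (nat_lit 10) (.e (nat_lit 434231) (nat_lit 23) (.e (nat_lit 532535) (nat_lit 9) (.e (nat_lit 335925) (nat_lit 0) (.e (nat_lit 1940) (nat_lit 132) (.e (nat_lit 622600) (nat_lit 5) .nil)))))))) (.g (nat_lit 4) .nil .nil))))))) 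
(.nd (nat_lit 3) (.nd (nat_lit 4) (.nd (nat_lit 5) (.nd (nat_lit 6) 
(.lf (nat_lit 39686) (.g (nat_lit 1710) (.e (nat_lit 7936) (nat_lit 90) (.e (nat_lit 81957) (nat_lit 24) (.e (nat_lit 123195) (nat_lit 266) (.e (nat_lit 57427) (nat_lit 15) (.e (nat_lit 360451) (nat_lit 0) .nil))))) .nil)) 
(.lf (nat_lit 39750) (.g (nat_lit 885) (.e (nat_lit 7936) (nat_lit 90) (.e (nat_lit 81965) (nat_lit 26) (.e (nat_lit 147465) (nat_lit 9) (.e (nat_lit 334) (nat_lit 26) .nil)))) .nil))) (.nd (nat_lit 6) 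
(.lf (nat_lit 39718) (.g (nat_lit 902) (.e (nat_lit 7936) (nat_lit 90) (.e (nat_lit 81963) (nat_lit 26) (.e (nat_lit 147466) (nat_lit 9) (.e (nat_lit 334) (nat_lit 26) .nil)))) .nil)) 
(.lf (nat_lit 39782) (.g (nat_lit 1752) (.e (nat_lit 7936) (nat_lit 90) (.e (nat_lit 81965) (nat_lit 26) (.e (nat_lit 147496) (nat_lit 11) (.e (nat_lit 24639) (nat_lit 10) (.e (nat_lit 344090) (nat_lit 18) .nil))))) .nil)))) (.nd (nat_lit 5) (.nd (nat_lit 6) 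
(.lf (nat_lit 39702) (.g (nat_lit 2126) (.e (nat_lit 7936) (nat_lit 90) (.e (nat_lit 81959) (nat_lit 24) (.e (nat_lit 123182) (nat_lit 264) (.e (nat_lit 1224) (nat_lit 90) (.e (nat_lit 81959) (nat_lit 24) .nil))))) .nil)) 
(.lf (nat_lit 39766) (.g (nat_lit 1910) (.e (nat_lit 7936) (nat_lit 90) (.e (nat_lit 81965) (nat_lit 26) (.e (nat_lit 147495) (nat_lit 11) (.e (nat_lit 24639) (nat_lit 10) (.e (nat_lit 344093) (nat_lit 18) .nil))))) .nil))) (.nd (nat_lit 6) 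
(.lf (nat_lit 39734) (.g (nat_lit 1810) (.e (nat_lit 7936) (nat_lit 90) (.e (nat_lit 81963) (nat_lit 26) (.e (nat_lit 147496) (nat_lit 11) (.e (nat_lit 24617) (nat_lit 7) (.e (nat_lit 319511) (nat_lit 10) .nil))))) .nil)) 
(.lf (nat_lit 39798) (.g (nat_lit 2745) (.e (nat_lit 1225) (nat_lit 91) (.e (nat_lit 90170) (nat_lit 13) (.e (nat_lit 172106) (nat_lit 10) (.e (nat_lit 434231) (nat_lit 23) (.e (nat_lit 532486) (nat_lit 0) (.e (nat_lit 6225) (nat_lit 334) (.e (nat_lit 123206) (nat_lit 270) .nil))))))) (.g (nat_lit 6) .nil .nil)))))) (.nd (nat_lit 4) (.nd (nat_lit 5) (.nd (nat_lit 6) 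
(.lf (nat_lit 39694) (.g (nat_lit 2269) (.e (nat_lit 7936) (nat_lit 90) (.e (nat_lit 81959) (nat_lit 24) (.e (nat_lit 123182) (nat_lit 264) (.e (nat_lit 1193) (nat_lit 88) .nil)))) .nil)) 
(.lf (nat_lit 39758) (.g (nat_lit 1210) (.e (nat_lit 7936) (nat_lit 90) (.e (nat_lit 81965) (nat_lit 26) (.e (nat_lit 147467) (nat_lit 9) (.e (nat_lit 322) (nat_lit 24) .nil)))) .nil))) (.nd (nat_lit 6) 
(.lf (nat_lit 39726) (.g (nat_lit 1657) (.e (nat_lit 7936) (nat_lit 90) (.e (nat_lit 81963) (nat_lit 26) (.e (nat_lit 147495) (nat_lit 11) (.e (nat_lit 24639) (nat_lit 10) (.e (nat_lit 344091) (nat_lit 18) .nil))))) .nil)) 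
(.lf (nat_lit 39790) (.g (nat_lit 2539) (.e (nat_lit 7936) (nat_lit 90) (.e (nat_lit 81965) (nat_lit 26) (.e (nat_lit 147496) (nat_lit 11) (.e (nat_lit 24640) (nat_lit 10) (.e (nat_lit 344093) (nat_lit 18) .nil))))) .nil)))) (.nd (nat_lit 5) (.nd (nat_lit 6) 
(.lf (nat_lit 39710) (.g (nat_lit 1270) (.e (nat_lit 7936) (nat_lit 90) (.e (nat_lit 81959) (nat_lit 24) (.e (nat_lit 123198) (nat_lit 266) (.e (nat_lit 57426) (nat_lit 15) (.e (nat_lit 360455) (nat_lit 0) .nil))))) .nil)) 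
(.lf (nat_lit 39774) (.g (nat_lit 1160) (.e (nat_lit 7936) (nat_lit 90) (.e (nat_lit 81965) (nat_lit 26) (.e (nat_lit 147495) (nat_lit 11) (.e (nat_lit 24641) (nat_lit 10) .nil)))) .nil))) (.nd (nat_lit 6) 
(.lf (nat_lit 39742) (.g (nat_lit 1563) (.e (nat_lit 7936) (nat_lit 90) (.e (nat_lit 81963) (nat_lit 26) (.e (nat_lit 147496) (nat_lit 11) (.e (nat_lit 24641) (nat_lit 10) (.e (nat_lit 344091) (nat_lit 18) .nil))))) .nil)) 
(.lf (nat_lit 39806) (.g (nat_lit 1514) (.e (nat_lit 1225) (nat_lit 91) (.e (nat_lit 90170) (nat_lit 13) (.e (nat_lit 172106) (nat_lit 10) (.e (nat_lit 434244) (nat_lit 28) .nil)))) .nil)))))))) (.nd (nat_lit 1) (.nd (nat_lit 2) (.nd (nat_lit 3) (.nd (nat_lit 4) (.nd (nat_lit 5) (.nd (nat_lit 6) 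
(.lf (nat_lit 39681) (.g (nat_lit 2041) (.e (nat_lit 7936) (nat_lit 90) (.e (nat_lit 81957) (nat_lit 24) (.e (nat_lit 123182) (nat_lit 264) (.e (nat_lit 1224) (nat_lit 90) (.e (nat_lit 81957) (nat_lit 24) .nil))))) .nil)) 
(.lf (nat_lit 39745) (.g (nat_lit 994) (.e (nat_lit 7936) (nat_lit 90) (.e (nat_lit 81965) (nat_lit 26) (.e (nat_lit 147463) (nat_lit 9) (.e (nat_lit 321) (nat_lit 24) .nil)))) .nil))) (.nd (nat_lit 6) 
(.lf (nat_lit 39713) (.g (nat_lit 642) (.e (nat_lit 7936) (nat_lit 90) (.e (nat_lit 81963) (nat_lit 26) (.e (nat_lit 147463) (nat_lit 9) (.e (nat_lit 321) (nat_lit 24) .nil)))) .nil)) 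
(.lf (nat_lit 39777) (.g (nat_lit 364) (.e (nat_lit 7936) (nat_lit 90) (.e (nat_lit 81965) (nat_lit 26) (.e (nat_lit 147496) (nat_lit 11) .nil))) .nil)))) (.nd (nat_lit 5) (.nd (nat_lit 6) 
(.lf (nat_lit 39697) (.g (nat_lit 2079) (.e (nat_lit 7936) (nat_lit 90) (.e (nat_lit 81959) (nat_lit 24) (.e (nat_lit 123182) (nat_lit 264) (.e (nat_lit 1222) (nat_lit 90) (.e (nat_lit 81957) (nat_lit 24) .nil))))) .nil)) 
(.lf (nat_lit 39761) (.g (nat_lit 1339) (.e (nat_lit 7936) (nat_lit 90) (.e (nat_lit 81965) (nat_lit 26) (.e (nat_lit 147467) (nat_lit 9) (.e (nat_lit 334) (nat_lit 26) (.e (nat_lit 376859) (nat_lit 21) .nil))))) .nil))) (.nd (nat_lit 6) 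
(.lf (nat_lit 39729) (.g (nat_lit 1084) (.e (nat_lit 7936) (nat_lit 90) (.e (nat_lit 81963) (nat_lit 26) (.e (nat_lit 147495) (nat_lit 11) (.e (nat_lit 24641) (nat_lit 10) .nil)))) .nil)) 
(.lf (nat_lit 39793) (.g (nat_lit 1880) (.e (nat_lit 7936) (nat_lit 90) (.e (nat_lit 81965) (nat_lit 26) (.e (nat_lit 147496) (nat_lit 11) (.e (nat_lit 24641) (nat_lit 10) (.e (nat_lit 344091) (nat_lit 18) .nil))))) .nil))))) (.nd (nat_lit 4) (.nd (nat_lit 5) (.nd (nat_lit 6) 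
(.lf (nat_lit 39689) (.g (nat_lit 1206) (.e (nat_lit 7936) (nat_lit 90) (.e (nat_lit 81957) (nat_lit 24) (.e (nat_lit 123197) (nat_lit 266) (.e (nat_lit 57426) (nat_lit 15) (.e (nat_lit 360456) (nat_lit 0) .nil))))) .nil)) 
(.lf (nat_lit 39753) (.g (nat_lit 1501) (.e (nat_lit 7936) (nat_lit 90) (.e (nat_lit 81965) (nat_lit 26) (.e (nat_lit 147466) (nat_lit 9) (.e (nat_lit 321) (nat_lit 24) (.e (nat_lit 360449) (nat_lit 0) .nil))))) .nil))) (.nd (nat_lit 6) 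
(.lf (nat_lit 39721) (.g (nat_lit 1293) (.e (nat_lit 7936) (nat_lit 90) (.e (nat_lit 81963) (nat_lit 26) (.e (nat_lit 147467) (nat_lit 9) (.e (nat_lit 334) (nat_lit 26) (.e (nat_lit 376859) (nat_lit 21) .nil))))) .nil)) 
(.lf (nat_lit 39785) (.g (nat_lit 1869) (.e (nat_lit 7936) (nat_lit 90) (.e (nat_lit 81965) (nat_lit 26) (.e (nat_lit 147496) (nat_lit 11) (.e (nat_lit 24639) (nat_lit 10) (.e (nat_lit 344096) (nat_lit 18) .nil))))) .nil)))) (.nd (nat_lit 5) (.nd (nat_lit 6) 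
(.lf (nat_lit 39705) (.g (nat_lit 2194) (.e (nat_lit 7936) (nat_lit 90) (.e (nat_lit 81959) (nat_lit 24) (.e (nat_lit 123195) (nat_lit 266) (.e (nat_lit 57427) (nat_lit 15) (.e (nat_lit 360450) (nat_lit 0) .nil))))) .nil)) 
(.lf (nat_lit 39769) (.g (nat_lit 1910) (.e (nat_lit 7936) (nat_lit 90) (.e (nat_lit 81965) (nat_lit 26) (.e (nat_lit 147495) (nat_lit 11) (.e (nat_lit 24640) (nat_lit 10) (.e (nat_lit 344090) (nat_lit 18) .nil))))) .nil))) (.nd (nat_lit 6) 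
(.lf (nat_lit 39737) (.g (nat_lit 1533) (.e (nat_lit 7936) (nat_lit 90) (.e (nat_lit 81963) (nat_lit 26) (.e (nat_lit 147496) (nat_lit 11) (.e (nat_lit 24639) (nat_lit 10) (.e (nat_lit 344091) (nat_lit 18) .nil))))) .nil)) 
(.lf (nat_lit 39801) (.g (nat_lit 1867) (.e (nat_lit 1225) (nat_lit 91) (.e (nat_lit 90170) (nat_lit 13) (.e (nat_lit 172106) (nat_lit 10) (.e (nat_lit 434231) (nat_lit 23) (.e (nat_lit 532535) (nat_lit 9) .nil))))) .nil)))))) (.nd (nat_lit 3) (.nd (nat_lit 4) (.nd (nat_lit 5) (.nd (nat_lit 6) 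
(.lf (nat_lit 39685) (.g (nat_lit 1404) (.e (nat_lit 7936) (nat_lit 90) (.e (nat_lit 81957) (nat_lit 24) (.e (nat_lit 123195) (nat_lit 266) (.e (nat_lit 57425) (nat_lit 14) .nil)))) .nil)) 
(.lf (nat_lit 39749) (.g (nat_lit 1315) (.e (nat_lit 7936) (nat_lit 90) (.e (nat_lit 81965) (nat_lit 26) (.e (nat_lit 147463) (nat_lit 9) (.e (nat_lit 334) (nat_lit 26) (.e (nat_lit 376860) (nat_lit 21) .nil))))) .nil))) (.nd (nat_lit 6) 
(.lf (nat_lit 39717) (.g (nat_lit 858) (.e (nat_lit 7936) (nat_lit 90) (.e (nat_lit 81963) (nat_lit 26) (.e (nat_lit 147466) (nat_lit 9) (.e (nat_lit 324) (nat_lit 24) .nil)))) .nil)) 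
(.lf (nat_lit 39781) (.g (nat_lit 2052) (.e (nat_lit 7936) (nat_lit 90) (.e (nat_lit 81965) (nat_lit 26) (.e (nat_lit 147496) (nat_lit 11) (.e (nat_lit 24623) (nat_lit 9) (.e (nat_lit 335997) (nat_lit 1) .nil))))) .nil)))) (.nd (nat_lit 5) (.nd (nat_lit 6) 
(.lf (nat_lit 39701) (.g (nat_lit 2448) (.e (nat_lit 7936) (nat_lit 90) (.e (nat_lit 81959) (nat_lit 24) (.e (nat_lit 123182) (nat_lit 264) (.e (nat_lit 1224) (nat_lit 90) (.e (nat_lit 81957) (nat_lit 24) .nil))))) .nil)) 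
(.lf (nat_lit 39765) (.g (nat_lit 1915) (.e (nat_lit 7936) (nat_lit 90) (.e (nat_lit 81965) (nat_lit 26) (.e (nat_lit 147495) (nat_lit 11) (.e (nat_lit 24639) (nat_lit 10) (.e (nat_lit 344091) (nat_lit 18) .nil))))) .nil))) (.nd (nat_lit 6) 
(.lf (nat_lit 39733) (.g (nat_lit 922) (.e (nat_lit 7936) (nat_lit 90) (.e (nat_lit 81963) (nat_lit 26) (.e (nat_lit 147496) (nat_lit 11) (.e (nat_lit 24617) (nat_lit 7) .nil)))) .nil)) 
(.lf (nat_lit 39797) (.g (nat_lit 2920) (.e (nat_lit 1225) (nat_lit 91) (.e (nat_lit 90170) (nat_lit 13) (.e (nat_lit 172106) (nat_lit 10) (.e (nat_lit 434231) (nat_lit 23) (.e (nat_lit 532486) (nat_lit 0) (.e (nat_lit 6225) (nat_lit 334) (.e (nat_lit 123204) (nat_lit 270) .nil))))))) (.g (nat_lit 7) .nil .nil)))))) (.nd (nat_lit 4) (.nd (nat_lit 5) (.nd (nat_lit 6) 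
(.lf (nat_lit 39693) (.g (nat_lit 1952) (.e (nat_lit 7936) (nat_lit 90) (.e (nat_lit 81959) (nat_lit 24) (.e (nat_lit 123182) (nat_lit 264) (.e (nat_lit 1187) (nat_lit 88) .nil)))) .nil)) 
(.lf (nat_lit 39757) (.g (nat_lit 1350) (.e (nat_lit 7936) (nat_lit 90) (.e (nat_lit 81965) (nat_lit 26) (.e (nat_lit 147467) (nat_lit 9) (.e (nat_lit 321) (nat_lit 24) (.e (nat_lit 360449) (nat_lit 0) .nil))))) .nil))) (.nd (nat_lit 6) 
(.lf (nat_lit 39725) (.g (nat_lit 1515) (.e (nat_lit 7936) (nat_lit 90) (.e (nat_lit 81963) (nat_lit 26) (.e (nat_lit 147495) (nat_lit 11) (.e (nat_lit 24639) (nat_lit 10) (.e (nat_lit 344090) (nat_lit 18) .nil))))) .nil)) 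
(.lf (nat_lit 39789) (.g (nat_lit 2216) (.e (nat_lit 7936) (nat_lit 90) (.e (nat_lit 81965) (nat_lit 26) (.e (nat_lit 147496) (nat_lit 11) (.e (nat_lit 24640) (nat_lit 10) (.e (nat_lit 344091) (nat_lit 18) .nil))))) .nil)))) (.nd (nat_lit 5) (.nd (nat_lit 6) 
(.lf (nat_lit 39709) (.g (nat_lit 1658) (.e (nat_lit 7936) (nat_lit 90) (.e (nat_lit 81959) (nat_lit 24) (.e (nat_lit 123197) (nat_lit 266) (.e (nat_lit 57424) (nat_lit 14) (.e (nat_lit 352318) (nat_lit 24) .nil))))) .nil)) 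
(.lf (nat_lit 39773) (.g (nat_lit 1830) (.e (nat_lit 7936) (nat_lit 90) (.e (nat_lit 81965) (nat_lit 26) (.e (nat_lit 147495) (nat_lit 11) (.e (nat_lit 24640) (nat_lit 10) (.e (nat_lit 344097) (nat_lit 18) .nil))))) .nil))) (.nd (nat_lit 6) 
(.lf (nat_lit 39741) (.g (nat_lit 902) (.e (nat_lit 7936) (nat_lit 90) (.e (nat_lit 81963) (nat_lit 26) (.e (nat_lit 147496) (nat_lit 11) (.e (nat_lit 24641) (nat_lit 10) .nil)))) .nil)) 
(.lf (nat_lit 39805) (.g (nat_lit 2483) (.e (nat_lit 1225) (nat_lit 91) (.e (nat_lit 90170) (nat_lit 13) (.e (nat_lit 172106) (nat_lit 10) (.e (nat_lit 434231) (nat_lit 23) (.e (nat_lit 532554) (nat_lit 13) .nil))))) .nil))))))) (.nd (nat_lit 2) (.nd (nat_lit 3) (.nd (nat_lit 4) (.nd (nat_lit 5) (.nd (nat_lit 6) 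
(.lf (nat_lit 39683) (.g (nat_lit 1561) (.e (nat_lit 7936) (nat_lit 90) (.e (nat_lit 81957) (nat_lit 24) (.e (nat_lit 123184) (nat_lit 264) (.e (nat_lit 1224) (nat_lit 90) (.e (nat_lit 81957) (nat_lit 24) .nil))))) .nil)) 
(.lf (nat_lit 39747) (.g (nat_lit 1040) (.e (nat_lit 7936) (nat_lit 90) (.e (nat_lit 81965) (nat_lit 26) (.e (nat_lit 147463) (nat_lit 9) (.e (nat_lit 333) (nat_lit 26) (.e (nat_lit 376857) (nat_lit 21) .nil))))) .nil))) (.nd (nat_lit 6) 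
(.lf (nat_lit 39715) (.g (nat_lit 316) (.e (nat_lit 7936) (nat_lit 90) (.e (nat_lit 81963) (nat_lit 26) (.e (nat_lit 147466) (nat_lit 9) .nil))) .nil)) 
(.lf (nat_lit 39779) (.g (nat_lit 2440) (.e (nat_lit 7936) (nat_lit 90) (.e (nat_lit 81965) (nat_lit 26) (.e (nat_lit 147496) (nat_lit 11) (.e (nat_lit 24617) (nat_lit 7) (.e (nat_lit 319494) (nat_lit 0) .nil))))) .nil)))) (.nd (nat_lit 5) (.nd (nat_lit 6) 
(.lf (nat_lit 39699) (.g (nat_lit 1919) (.e (nat_lit 7936) (nat_lit 90) (.e (nat_lit 81959) (nat_lit 24) (.e (nat_lit 123182) (nat_lit 264) (.e (nat_lit 1223) (nat_lit 90) .nil)))) .nil)) 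
(.lf (nat_lit 39763) (.g (nat_lit 727) (.e (nat_lit 7936) (nat_lit 90) (.e (nat_lit 81965) (nat_lit 26) (.e (nat_lit 147492) (nat_lit 11) (.e (nat_lit 24640) (nat_lit 10) .nil)))) .nil))) (.nd (nat_lit 6) 
(.lf (nat_lit 39731) (.g (nat_lit 2177) (.e (nat_lit 7936) (nat_lit 90) (.e (nat_lit 81963) (nat_lit 26) (.e (nat_lit 147495) (nat_lit 11) (.e (nat_lit 24665) (nat_lit 14) (.e (nat_lit 401421) (nat_lit 1) .nil))))) .nil)) 
(.lf (nat_lit 39795) (.g (nat_lit 2943) (.e (nat_lit 1225) (nat_lit 91) (.e (nat_lit 90170) (nat_lit 13) (.e (nat_lit 172106) (nat_lit 10) (.e (nat_lit 434231) (nat_lit 23) (.e (nat_lit 532482) (nat_lit 0) (.e (nat_lit 6221) (nat_lit 333) (.e (nat_lit 57884) (nat_lit 270) .nil))))))) (.g (nat_lit 4) .nil .nil)))))) (.nd (nat_lit 4) (.nd (nat_lit 5) (.nd (nat_lit 6) 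
(.lf (nat_lit 39691) (.g (nat_lit 1265) (.e (nat_lit 7936) (nat_lit 90) (.e (nat_lit 81957) (nat_lit 24) (.e (nat_lit 123198) (nat_lit 266) (.e (nat_lit 57426) (nat_lit 15) (.e (nat_lit 360455) (nat_lit 0) .nil))))) .nil)) 
(.lf (nat_lit 39755) (.g (nat_lit 1449) (.e (nat_lit 7936) (nat_lit 90) (.e (nat_lit 81965) (nat_lit 26) (.e (nat_lit 147466) (nat_lit 9) (.e (nat_lit 324) (nat_lit 24) (.e (nat_lit 360449) (nat_lit 0) .nil))))) .nil))) (.nd (nat_lit 6) 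
(.lf (nat_lit 39723) (.g (nat_lit 1101) (.e (nat_lit 7936) (nat_lit 90) (.e (nat_lit 81963) (nat_lit 26) (.e (nat_lit 147495) (nat_lit 11) (.e (nat_lit 24637) (nat_lit 9) .nil)))) .nil)) 
(.lf (nat_lit 39787) (.g (nat_lit 1980) (.e (nat_lit 7936) (nat_lit 90) (.e (nat_lit 81965) (nat_lit 26) (.e (nat_lit 147496) (nat_lit 11) (.e (nat_lit 24640) (nat_lit 10) (.e (nat_lit 344088) (nat_lit 18) .nil))))) .nil)))) (.nd (nat_lit 5) (.nd (nat_lit 6) 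
(.lf (nat_lit 39707) (.g (nat_lit 2936) (.e (nat_lit 7936) (nat_lit 90) (.e (nat_lit 81959) (nat_lit 24) (.e (nat_lit 123195) (nat_lit 266) (.e (nat_lit 57427) (nat_lit 15) (.e (nat_lit 360455) (nat_lit 0) .nil))))) .nil)) 
(.lf (nat_lit 39771) (.g (nat_lit 2396) (.e (nat_lit 7936) (nat_lit 90) (.e (nat_lit 81965) (nat_lit 26) (.e (nat_lit 147495) (nat_lit 11) (.e (nat_lit 24640) (nat_lit 10) (.e (nat_lit 344093) (nat_lit 18) .nil))))) .nil))) (.nd (nat_lit 6) 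
(.lf (nat_lit 39739) (.g (nat_lit 1914) (.e (nat_lit 7936) (nat_lit 90) (.e (nat_lit 81963) (nat_lit 26) (.e (nat_lit 147496) (nat_lit 11) (.e (nat_lit 24640) (nat_lit 10) (.e (nat_lit 344091) (nat_lit 18) .nil))))) .nil)) 
(.lf (nat_lit 39803) (.g (nat_lit 3303) (.e (nat_lit 1225) (nat_lit 91) (.e (nat_lit 90170) (nat_lit 13) (.e (nat_lit 172106) (nat_lit 10) (.e (nat_lit 434231) (nat_lit 23) (.e (nat_lit 532543) (nat_lit 10) (.e (nat_lit 344096) (nat_lit 18) (.e (nat_lit 4764) (nat_lit 281) (.e (nat_lit 1079) (nat_lit 81) .nil)))))))) (.g (nat_lit 7) .nil .nil))))))) 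
(.nd (nat_lit 3) (.nd (nat_lit 4) (.nd (nat_lit 5) (.nd (nat_lit 6) 
(.lf (nat_lit 39687) (.g (nat_lit 278) (.e (nat_lit 7936) (nat_lit 90) (.e (nat_lit 81957) (nat_lit 24) (.e (nat_lit 123197) (nat_lit 266) .nil))) .nil)) 
(.lf (nat_lit 39751) (.g (nat_lit 425) (.e (nat_lit 7936) (nat_lit 90) (.e (nat_lit 81965) (nat_lit 26) (.e (nat_lit 147466) (nat_lit 9) .nil))) .nil))) (.nd (nat_lit 6) 
(.lf (nat_lit 39719) (.g (nat_lit 709) (.e (nat_lit 7936) (nat_lit 90) (.e (nat_lit 81963) (nat_lit 26) (.e (nat_lit 147467) (nat_lit 9) (.e (nat_lit 321) (nat_lit 24) .nil)))) .nil)) 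
(.lf (nat_lit 39783) (.g (nat_lit 1762) (.e (nat_lit 7936) (nat_lit 90) (.e (nat_lit 81965) (nat_lit 26) (.e (nat_lit 147496) (nat_lit 11) (.e (nat_lit 24639) (nat_lit 10) (.e (nat_lit 344091) (nat_lit 18) .nil))))) .nil)))) (.nd (nat_lit 5) (.nd (nat_lit 6) 
(.lf (nat_lit 39703) (.g (nat_lit 1869) (.e (nat_lit 7936) (nat_lit 90) (.e (nat_lit 81959) (nat_lit 24) (.e (nat_lit 123182) (nat_lit 264) (.e (nat_lit 7936) (nat_lit 90) .nil)))) .nil)) 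
(.lf (nat_lit 39767) (.g (nat_lit 1931) (.e (nat_lit 7936) (nat_lit 90) (.e (nat_lit 81965) (nat_lit 26) (.e (nat_lit 147495) (nat_lit 11) (.e (nat_lit 24639) (nat_lit 10) (.e (nat_lit 344096) (nat_lit 18) .nil))))) .nil))) (.nd (nat_lit 6) 
(.lf (nat_lit 39735) (.g (nat_lit 1996) (.e (nat_lit 7936) (nat_lit 90) (.e (nat_lit 81963) (nat_lit 26) (.e (nat_lit 147496) (nat_lit 11) (.e (nat_lit 24623) (nat_lit 9) (.e (nat_lit 335997) (nat_lit 1) .nil))))) .nil)) 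
(.lf (nat_lit 39799) (.g (nat_lit 2226) (.e (nat_lit 1225) (nat_lit 91) (.e (nat_lit 90170) (nat_lit 13) (.e (nat_lit 172106) (nat_lit 10) (.e (nat_lit 434231) (nat_lit 23) (.e (nat_lit 532490) (nat_lit 0) (.e (nat_lit 6206) (nat_lit 333) (.e (nat_lit 57884) (nat_lit 270) .nil))))))) (.g (nat_lit 4) .nil .nil)))))) (.nd (nat_lit 4) (.nd (nat_lit 5) (.nd (nat_lit 6) 
(.lf (nat_lit 39695) (.g (nat_lit 3124) (.e (nat_lit 7936) (nat_lit 90) (.e (nat_lit 81959) (nat_lit 24) (.e (nat_lit 123182) (nat_lit 264) (.e (nat_lit 1201) (nat_lit 88) (.e (nat_lit 65617) (nat_lit 10) .nil))))) .nil)) 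
(.lf (nat_lit 39759) (.g (nat_lit 1149) (.e (nat_lit 7936) (nat_lit 90) (.e (nat_lit 81965) (nat_lit 26) (.e (nat_lit 147467) (nat_lit 9) (.e (nat_lit 324) (nat_lit 24) .nil)))) .nil))) (.nd (nat_lit 6) 
(.lf (nat_lit 39727) (.g (nat_lit 1528) (.e (nat_lit 7936) (nat_lit 90) (.e (nat_lit 81963) (nat_lit 26) (.e (nat_lit 147495) (nat_lit 11) (.e (nat_lit 24639) (nat_lit 10) (.e (nat_lit 344097) (nat_lit 18) .nil))))) .nil)) 
(.lf (nat_lit 39791) (.g (nat_lit 1870) (.e (nat_lit 7936) (nat_lit 90) (.e (nat_lit 81965) (nat_lit 26) (.e (nat_lit 147496) (nat_lit 11) (.e (nat_lit 24640) (nat_lit 10) (.e (nat_lit 344097) (nat_lit 18) .nil))))) .nil)))) (.nd (nat_lit 5) (.nd (nat_lit 6) 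
(.lf (nat_lit 39711) (.g (nat_lit 1524) (.e (nat_lit 7936) (nat_lit 90) (.e (nat_lit 81959) (nat_lit 24) (.e (nat_lit 123198) (nat_lit 266) (.e (nat_lit 57427) (nat_lit 15) (.e (nat_lit 360455) (nat_lit 0) .nil))))) .nil)) 
(.lf (nat_lit 39775) (.g (nat_lit 2067) (.e (nat_lit 7936) (nat_lit 90) (.e (nat_lit 81965) (nat_lit 26) (.e (nat_lit 147495) (nat_lit 11) (.e (nat_lit 24665) (nat_lit 14) (.e (nat_lit 401420) (nat_lit 1) .nil))))) .nil))) (.nd (nat_lit 6) 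
(.lf (nat_lit 39743) (.g (nat_lit 1565) (.e (nat_lit 7936) (nat_lit 90) (.e (nat_lit 81963) (nat_lit 26) (.e (nat_lit 147496) (nat_lit 11) (.e (nat_lit 24641) (nat_lit 10) (.e (nat_lit 344095) (nat_lit 18) .nil))))) .nil)) 
(.lf (nat_lit 39807) (.g (nat_lit 2951) (.e (nat_lit 1225) (nat_lit 91) (.e (nat_lit 90170) (nat_lit 13) (.e (nat_lit 172106) (nat_lit 10) (.e (nat_lit 434244) (nat_lit 28) (.e (nat_lit 573471) (nat_lit 11) (.e (nat_lit 16392) (nat_lit 0) (.e (nat_lit 7521) (nat_lit 402) .nil))))))) (.g (nat_lit 0) .nil .nil))))))))))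

noncomputable def tv551 : DT := (.nd (nat_lit 0) (.nd (nat_lit 1) (.nd (nat_lit 2) (.nd (nat_lit 3) (.nd (nat_lit 4) (.nd (nat_lit 5) 
(.lf (nat_lit 39808) (.g (nat_lit 3406) (.e (nat_lit 1225) (nat_lit 91) (.e (nat_lit 90170) (nat_lit 13) (.e (nat_lit 172113) (nat_lit 10) (.e (nat_lit 434245) (nat_lit 28) (.e (nat_lit 573471) (nat_lit 11) (.e (nat_lit 16388) (nat_lit 0) (.e (nat_lit 7495) (nat_lit 402) .nil))))))) (.g (nat_lit 5) .nil .nil))) 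
(.lf (nat_lit 39840) (.g (nat_lit 2111) (.e (nat_lit 1225) (nat_lit 91) (.e (nat_lit 90185) (nat_lit 17) (.e (nat_lit 237605) (nat_lit 9) (.e (nat_lit 426131) (nat_lit 3) (.e (nat_lit 204846) (nat_lit 24) .nil))))) .nil))) (.nd (nat_lit 5) 
(.lf (nat_lit 39824) (.g (nat_lit 1317) (.e (nat_lit 1225) (nat_lit 91) (.e (nat_lit 90176) (nat_lit 15) (.e (nat_lit 188450) (nat_lit 23) (.e (nat_lit 204821) (nat_lit 17) .nil)))) .nil)) 
(.lf (nat_lit 39856) (.g (nat_lit 1602) (.e (nat_lit 1227) (nat_lit 91) (.e (nat_lit 90172) (nat_lit 14) (.e (nat_lit 180244) (nat_lit 5) (.e (nat_lit 532515) (nat_lit 3) (.e (nat_lit 114716) (nat_lit 22) (.e (nat_lit 90162) (nat_lit 12) (.e (nat_lit 164007) (nat_lit 41) (.e (nat_lit 671488) (nat_lit 0) .nil)))))))) (.g (nat_lit 4) .nil .nil))))) (.nd (nat_lit 4) (.nd (nat_lit 5) 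
(.lf (nat_lit 39816) (.g (nat_lit 1630) (.e (nat_lit 1225) (nat_lit 91) (.e (nat_lit 90176) (nat_lit 15) (.e (nat_lit 188447) (nat_lit 22) (.e (nat_lit 196661) (nat_lit 12) (.e (nat_lit 57721) (nat_lit 177) (.e (nat_lit 57886) (nat_lit 270) .nil)))))) (.g (nat_lit 4) .nil .nil))) 
(.lf (nat_lit 39848) (.g (nat_lit 3232) (.e (nat_lit 1226) (nat_lit 91) (.e (nat_lit 90177) (nat_lit 15) (.e (nat_lit 188452) (nat_lit 23) (.e (nat_lit 204846) (nat_lit 24) (.e (nat_lit 319504) (nat_lit 10) .nil))))) .nil))) (.nd (nat_lit 5) 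
(.lf (nat_lit 39832) (.g (nat_lit 2625) (.e (nat_lit 1225) (nat_lit 91) (.e (nat_lit 90176) (nat_lit 15) (.e (nat_lit 188450) (nat_lit 23) (.e (nat_lit 204849) (nat_lit 25) (.e (nat_lit 327705) (nat_lit 10) (.e (nat_lit 5279) (nat_lit 298) .nil)))))) (.g (nat_lit 0) .nil .nil))) 
(.lf (nat_lit 39864) (.g (nat_lit 2373) (.e (nat_lit 1227) (nat_lit 91) (.e (nat_lit 90172) (nat_lit 14) (.e (nat_lit 180278) (nat_lit 32) (.e (nat_lit 1252) (nat_lit 92) (.e (nat_lit 98367) (nat_lit 27) (.e (nat_lit 442112) (nat_lit 0) .nil)))))) (.g (nat_lit 5) .nil .nil)))))) (.nd (nat_lit 3) (.nd (nat_lit 4) (.nd (nat_lit 5) 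
(.lf (nat_lit 39812) (.g (nat_lit 1829) (.e (nat_lit 1225) (nat_lit 91) (.e (nat_lit 90174) (nat_lit 14) (.e (nat_lit 180288) (nat_lit 45) (.e (nat_lit 2570) (nat_lit 160) (.e (nat_lit 32808) (nat_lit 19) .nil))))) .nil)) 
(.lf (nat_lit 39844) (.g (nat_lit 726) (.e (nat_lit 1226) (nat_lit 91) (.e (nat_lit 90176) (nat_lit 15) (.e (nat_lit 188439) (nat_lit 20) .nil))) .nil))) (.nd (nat_lit 5) 
(.lf (nat_lit 39828) (.g (nat_lit 3501) (.e (nat_lit 1225) (nat_lit 91) (.e (nat_lit 90176) (nat_lit 15) (.e (nat_lit 188450) (nat_lit 23) (.e (nat_lit 204846) (nat_lit 24) (.e (nat_lit 319506) (nat_lit 10) (.e (nat_lit 5296) (nat_lit 298) .nil)))))) (.g (nat_lit 0) .nil .nil))) 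
(.lf (nat_lit 39860) (.g (nat_lit 1704) (.e (nat_lit 1227) (nat_lit 91) (.e (nat_lit 90172) (nat_lit 14) (.e (nat_lit 180276) (nat_lit 32) (.e (nat_lit 1077) (nat_lit 81) (.e (nat_lit 1796) (nat_lit 119) (.e (nat_lit 516161) (nat_lit 10) (.e (nat_lit 442112) (nat_lit 0) .nil))))))) (.g (nat_lit 6) .nil .nil))))) (.nd (nat_lit 4) (.nd (nat_lit 5) 
(.lf (nat_lit 39820) (.g (nat_lit 2980) (.e (nat_lit 1225) (nat_lit 91) (.e (nat_lit 90176) (nat_lit 15) (.e (nat_lit 188450) (nat_lit 23) (.e (nat_lit 204819) (nat_lit 17) (.e (nat_lit 6212) (nat_lit 333) (.e (nat_lit 57884) (nat_lit 270) .nil)))))) (.g (nat_lit 0) .nil .nil))) 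
(.lf (nat_lit 39852) (.g (nat_lit 874) (.e (nat_lit 1226) (nat_lit 91) (.e (nat_lit 90185) (nat_lit 17) (.e (nat_lit 237621) (nat_lit 13) .nil))) .nil))) (.nd (nat_lit 5) 
(.lf (nat_lit 39836) (.g (nat_lit 602) (.e (nat_lit 1225) (nat_lit 91) (.e (nat_lit 90176) (nat_lit 15) (.e (nat_lit 188452) (nat_lit 23) .nil))) .nil)) 
(.lf (nat_lit 39868) (.g (nat_lit 2051) (.e (nat_lit 1227) (nat_lit 91) (.e (nat_lit 90172) (nat_lit 14) (.e (nat_lit 180278) (nat_lit 32) (.e (nat_lit 1253) (nat_lit 92) (.e (nat_lit 98368) (nat_lit 27) (.e (nat_lit 442112) (nat_lit 0) .nil)))))) (.g (nat_lit 5) .nil .nil))))))) (.nd (nat_lit 2) (.nd (nat_lit 3) (.nd (nat_lit 4) (.nd (nat_lit 5) 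
(.lf (nat_lit 39810) (.g (nat_lit 2204) (.e (nat_lit 1225) (nat_lit 91) (.e (nat_lit 90170) (nat_lit 13) (.e (nat_lit 172126) (nat_lit 14) (.e (nat_lit 491540) (nat_lit 3) (.e (nat_lit 98350) (nat_lit 24) .nil))))) .nil)) 
(.lf (nat_lit 39842) (.g (nat_lit 2735) (.e (nat_lit 1226) (nat_lit 91) (.e (nat_lit 90170) (nat_lit 13) (.e (nat_lit 172106) (nat_lit 10) (.e (nat_lit 434231) (nat_lit 23) .nil)))) .nil))) (.nd (nat_lit 5) 
(.lf (nat_lit 39826) (.g (nat_lit 2567) (.e (nat_lit 1225) (nat_lit 91) (.e (nat_lit 90176) (nat_lit 15) (.e (nat_lit 188450) (nat_lit 23) (.e (nat_lit 204846) (nat_lit 24) (.e (nat_lit 319504) (nat_lit 10) .nil))))) .nil)) 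
(.lf (nat_lit 39858) (.g (nat_lit 491) (.e (nat_lit 1227) (nat_lit 91) (.e (nat_lit 90172) (nat_lit 14) (.e (nat_lit 180276) (nat_lit 32) .nil))) .nil)))) (.nd (nat_lit 4) (.nd (nat_lit 5) 
(.lf (nat_lit 39818) (.g (nat_lit 2190) (.e (nat_lit 1225) (nat_lit 91) (.e (nat_lit 90176) (nat_lit 15) (.e (nat_lit 188447) (nat_lit 22) (.e (nat_lit 196661) (nat_lit 12) (.e (nat_lit 57722) (nat_lit 178) (.e (nat_lit 123205) (nat_lit 270) .nil)))))) (.g (nat_lit 6) .nil .nil))) 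
(.lf (nat_lit 39850) (.g (nat_lit 1676) (.e (nat_lit 1226) (nat_lit 91) (.e (nat_lit 90185) (nat_lit 17) (.e (nat_lit 237616) (nat_lit 12) (.e (nat_lit 475185) (nat_lit 29) (.e (nat_lit 557105) (nat_lit 14) .nil))))) .nil))) (.nd (nat_lit 5) 
(.lf (nat_lit 39834) (.g (nat_lit 2431) (.e (nat_lit 1225) (nat_lit 91) (.e (nat_lit 90176) (nat_lit 15) (.e (nat_lit 188450) (nat_lit 23) (.e (nat_lit 204849) (nat_lit 25) (.e (nat_lit 327705) (nat_lit 10) (.e (nat_lit 5295) (nat_lit 298) .nil)))))) (.g (nat_lit 0) .nil .nil))) 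
(.lf (nat_lit 39866) (.g (nat_lit 916) (.e (nat_lit 1227) (nat_lit 91) (.e (nat_lit 90172) (nat_lit 14) (.e (nat_lit 180278) (nat_lit 32) (.e (nat_lit 1253) (nat_lit 92) .nil)))) .nil))))) (.nd (nat_lit 3) (.nd (nat_lit 4) (.nd (nat_lit 5) 
(.lf (nat_lit 39814) (.g (nat_lit 2877) (.e (nat_lit 1225) (nat_lit 91) (.e (nat_lit 90175) (nat_lit 15) (.e (nat_lit 188452) (nat_lit 23) (.e (nat_lit 204846) (nat_lit 24) (.e (nat_lit 319504) (nat_lit 10) .nil))))) .nil)) 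
(.lf (nat_lit 39846) (.g (nat_lit 3161) (.e (nat_lit 1226) (nat_lit 91) (.e (nat_lit 90176) (nat_lit 15) (.e (nat_lit 188450) (nat_lit 23) (.e (nat_lit 204846) (nat_lit 24) (.e (nat_lit 319504) (nat_lit 10) .nil))))) .nil))) (.nd (nat_lit 5) 
(.lf (nat_lit 39830) (.g (nat_lit 2030) (.e (nat_lit 1225) (nat_lit 91) (.e (nat_lit 90176) (nat_lit 15) (.e (nat_lit 188450) (nat_lit 23) (.e (nat_lit 204848) (nat_lit 25) (.e (nat_lit 327704) (nat_lit 10) (.e (nat_lit 5279) (nat_lit 298) .nil)))))) (.g (nat_lit 0) .nil .nil))) 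
(.lf (nat_lit 39862) (.g (nat_lit 2181) (.e (nat_lit 1227) (nat_lit 91) (.e (nat_lit 90172) (nat_lit 14) (.e (nat_lit 180278) (nat_lit 32) (.e (nat_lit 1235) (nat_lit 91) (.e (nat_lit 90172) (nat_lit 14) (.e (nat_lit 188160) (nat_lit 32) .nil)))))) (.g (nat_lit 5) .nil .nil))))) (.nd (nat_lit 4) (.nd (nat_lit 5) 
(.lf (nat_lit 39822) (.g (nat_lit 2302) (.e (nat_lit 1225) (nat_lit 91) (.e (nat_lit 90176) (nat_lit 15) (.e (nat_lit 188450) (nat_lit 23) (.e (nat_lit 204819) (nat_lit 17) (.e (nat_lit 6225) (nat_lit 334) (.e (nat_lit 123204) (nat_lit 270) .nil)))))) (.g (nat_lit 0) .nil .nil))) 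
(.lf (nat_lit 39854) (.g (nat_lit 918) (.e (nat_lit 1226) (nat_lit 91) (.e (nat_lit 90185) (nat_lit 17) (.e (nat_lit 237624) (nat_lit 13) .nil))) .nil))) (.nd (nat_lit 5) 
(.lf (nat_lit 39838) (.g (nat_lit 4556) (.e (nat_lit 1225) (nat_lit 91) (.e (nat_lit 90178) (nat_lit 15) (.e (nat_lit 188452) (nat_lit 23) (.e (nat_lit 204846) (nat_lit 24) (.e (nat_lit 319504) (nat_lit 10) .nil))))) .nil)) 
(.lf (nat_lit 39870) (.g (nat_lit 1033) (.e (nat_lit 1227) (nat_lit 91) (.e (nat_lit 90172) (nat_lit 14) (.e (nat_lit 188160) (nat_lit 35) (.e (nat_lit 57464) (nat_lit 23) (.e (nat_lit 516161) (nat_lit 10) (.e (nat_lit 442112) (nat_lit 0) .nil)))))) (.g (nat_lit 5) .nil .nil)))))))) (.nd (nat_lit 1) (.nd (nat_lit 2) (.nd (nat_lit 3) (.nd (nat_lit 4) (.nd (nat_lit 5) 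
(.lf (nat_lit 39809) (.g (nat_lit 2458) (.e (nat_lit 1225) (nat_lit 91) (.e (nat_lit 90170) (nat_lit 13) (.e (nat_lit 172113) (nat_lit 10) (.e (nat_lit 434247) (nat_lit 28) (.e (nat_lit 573469) (nat_lit 11) .nil))))) .nil)) 
(.lf (nat_lit 39841) (.g (nat_lit 1031) (.e (nat_lit 1226) (nat_lit 91) (.e (nat_lit 90170) (nat_lit 13) (.e (nat_lit 172106) (nat_lit 10) .nil))) .nil))) (.nd (nat_lit 5) 
(.lf (nat_lit 39825) (.g (nat_lit 1460) (.e (nat_lit 1225) (nat_lit 91) (.e (nat_lit 90176) (nat_lit 15) (.e (nat_lit 188450) (nat_lit 23) (.e (nat_lit 204846) (nat_lit 24) .nil)))) .nil)) 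
(.lf (nat_lit 39857) (.g (nat_lit 1586) (.e (nat_lit 1227) (nat_lit 91) (.e (nat_lit 90172) (nat_lit 14) (.e (nat_lit 180244) (nat_lit 5) (.e (nat_lit 532515) (nat_lit 3) (.e (nat_lit 114716) (nat_lit 22) (.e (nat_lit 90164) (nat_lit 12) (.e (nat_lit 164006) (nat_lit 41) (.e (nat_lit 671488) (nat_lit 0) .nil)))))))) (.g (nat_lit 4) .nil .nil))))) (.nd (nat_lit 4) (.nd (nat_lit 5) 
(.lf (nat_lit 39817) (.g (nat_lit 1868) (.e (nat_lit 1225) (nat_lit 91) (.e (nat_lit 90176) (nat_lit 15) (.e (nat_lit 188447) (nat_lit 22) (.e (nat_lit 196661) (nat_lit 12) (.e (nat_lit 57722) (nat_lit 178) (.e (nat_lit 123204) (nat_lit 270) .nil)))))) (.g (nat_lit 5) .nil .nil))) 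
(.lf (nat_lit 39849) (.g (nat_lit 1694) (.e (nat_lit 1226) (nat_lit 91) (.e (nat_lit 90185) (nat_lit 17) (.e (nat_lit 237616) (nat_lit 12) (.e (nat_lit 475185) (nat_lit 29) (.e (nat_lit 557103) (nat_lit 14) .nil))))) .nil))) (.nd (nat_lit 5) 
(.lf (nat_lit 39833) (.g (nat_lit 2397) (.e (nat_lit 1225) (nat_lit 91) (.e (nat_lit 90176) (nat_lit 15) (.e (nat_lit 188450) (nat_lit 23) (.e (nat_lit 204849) (nat_lit 25) (.e (nat_lit 327705) (nat_lit 10) (.e (nat_lit 5289) (nat_lit 298) .nil)))))) (.g (nat_lit 0) .nil .nil))) 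
(.lf (nat_lit 39865) (.g (nat_lit 1453) (.e (nat_lit 1227) (nat_lit 91) (.e (nat_lit 90172) (nat_lit 14) (.e (nat_lit 180278) (nat_lit 32) (.e (nat_lit 1252) (nat_lit 92) (.e (nat_lit 98368) (nat_lit 27) (.e (nat_lit 442112) (nat_lit 0) .nil)))))) (.g (nat_lit 4) .nil .nil)))))) (.nd (nat_lit 3) (.nd (nat_lit 4) (.nd (nat_lit 5) 
(.lf (nat_lit 39813) (.g (nat_lit 1890) (.e (nat_lit 1225) (nat_lit 91) (.e (nat_lit 90174) (nat_lit 14) (.e (nat_lit 180288) (nat_lit 45) (.e (nat_lit 2571) (nat_lit 160) (.e (nat_lit 32808) (nat_lit 19) .nil))))) .nil)) 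
(.lf (nat_lit 39845) (.g (nat_lit 1707) (.e (nat_lit 1226) (nat_lit 91) (.e (nat_lit 90176) (nat_lit 15) (.e (nat_lit 188450) (nat_lit 23) (.e (nat_lit 204821) (nat_lit 17) .nil)))) .nil))) (.nd (nat_lit 5) 
(.lf (nat_lit 39829) (.g (nat_lit 3356) (.e (nat_lit 1225) (nat_lit 91) (.e (nat_lit 90176) (nat_lit 15) (.e (nat_lit 188450) (nat_lit 23) (.e (nat_lit 204846) (nat_lit 24) (.e (nat_lit 319511) (nat_lit 10) (.e (nat_lit 5293) (nat_lit 298) .nil)))))) (.g (nat_lit 0) .nil .nil))) 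
(.lf (nat_lit 39861) (.g (nat_lit 1433) (.e (nat_lit 1227) (nat_lit 91) (.e (nat_lit 90172) (nat_lit 14) (.e (nat_lit 180276) (nat_lit 32) (.e (nat_lit 1077) (nat_lit 81) (.e (nat_lit 1796) (nat_lit 119) (.e (nat_lit 516170) (nat_lit 13) (.e (nat_lit 466688) (nat_lit 0) .nil))))))) (.g (nat_lit 5) .nil .nil))))) (.nd (nat_lit 4) (.nd (nat_lit 5) 
(.lf (nat_lit 39821) (.g (nat_lit 3126) (.e (nat_lit 1225) (nat_lit 91) (.e (nat_lit 90176) (nat_lit 15) (.e (nat_lit 188450) (nat_lit 23) (.e (nat_lit 204819) (nat_lit 17) (.e (nat_lit 6218) (nat_lit 333) (.e (nat_lit 57887) (nat_lit 270) .nil)))))) (.g (nat_lit 0) .nil .nil))) 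
(.lf (nat_lit 39853) (.g (nat_lit 1129) (.e (nat_lit 1226) (nat_lit 91) (.e (nat_lit 90185) (nat_lit 17) (.e (nat_lit 237623) (nat_lit 13) .nil))) .nil))) (.nd (nat_lit 5) 
(.lf (nat_lit 39837) (.g (nat_lit 4245) (.e (nat_lit 1225) (nat_lit 91) (.e (nat_lit 90176) (nat_lit 15) (.e (nat_lit 188452) (nat_lit 23) (.e (nat_lit 204846) (nat_lit 24) (.e (nat_lit 319505) (nat_lit 10) .nil))))) .nil)) 
(.lf (nat_lit 39869) (.g (nat_lit 474) (.e (nat_lit 1227) (nat_lit 91) (.e (nat_lit 90172) (nat_lit 14) (.e (nat_lit 188160) (nat_lit 32) .nil))) .nil)))))) (.nd (nat_lit 2) (.nd (nat_lit 3) (.nd (nat_lit 4) (.nd (nat_lit 5) 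
(.lf (nat_lit 39811) (.g (nat_lit 2007) (.e (nat_lit 1225) (nat_lit 91) (.e (nat_lit 90173) (nat_lit 14) (.e (nat_lit 180252) (nat_lit 10) (.e (nat_lit 573489) (nat_lit 14) (.e (nat_lit 73755) (nat_lit 8) (.e (nat_lit 557090) (nat_lit 12) (.e (nat_lit 164006) (nat_lit 41) (.e (nat_lit 663554) (nat_lit 0) .nil)))))))) (.g (nat_lit 4) .nil .nil))) 
(.lf (nat_lit 39843) (.g (nat_lit 1024) (.e (nat_lit 1226) (nat_lit 91) (.e (nat_lit 90172) (nat_lit 14) (.e (nat_lit 180285) (nat_lit 45) .nil))) .nil))) (.nd (nat_lit 5) 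
(.lf (nat_lit 39827) (.g (nat_lit 2631) (.e (nat_lit 1225) (nat_lit 91) (.e (nat_lit 90176) (nat_lit 15) (.e (nat_lit 188450) (nat_lit 23) (.e (nat_lit 204846) (nat_lit 24) (.e (nat_lit 319505) (nat_lit 10) .nil))))) .nil)) 
(.lf (nat_lit 39859) (.g (nat_lit 1963) (.e (nat_lit 1227) (nat_lit 91) (.e (nat_lit 90172) (nat_lit 14) (.e (nat_lit 180276) (nat_lit 32) (.e (nat_lit 1074) (nat_lit 81) (.e (nat_lit 1796) (nat_lit 119) (.e (nat_lit 516161) (nat_lit 10) (.e (nat_lit 442112) (nat_lit 0) .nil))))))) (.g (nat_lit 6) .nil .nil))))) (.nd (nat_lit 4) (.nd (nat_lit 5) 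
(.lf (nat_lit 39819) (.g (nat_lit 2215) (.e (nat_lit 1225) (nat_lit 91) (.e (nat_lit 90176) (nat_lit 15) (.e (nat_lit 188450) (nat_lit 23) (.e (nat_lit 204816) (nat_lit 17) (.e (nat_lit 6221) (nat_lit 333) (.e (nat_lit 57884) (nat_lit 270) .nil)))))) (.g (nat_lit 5) .nil .nil))) 
(.lf (nat_lit 39851) (.g (nat_lit 1154) (.e (nat_lit 1226) (nat_lit 91) (.e (nat_lit 90185) (nat_lit 17) (.e (nat_lit 237619) (nat_lit 12) (.e (nat_lit 475185) (nat_lit 29) .nil)))) .nil))) (.nd (nat_lit 5) 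
(.lf (nat_lit 39835) (.g (nat_lit 1237) (.e (nat_lit 1225) (nat_lit 91) (.e (nat_lit 90176) (nat_lit 15) (.e (nat_lit 188450) (nat_lit 23) (.e (nat_lit 204885) (nat_lit 33) .nil)))) .nil)) 
(.lf (nat_lit 39867) (.g (nat_lit 2301) (.e (nat_lit 1227) (nat_lit 91) (.e (nat_lit 90172) (nat_lit 14) (.e (nat_lit 180278) (nat_lit 32) (.e (nat_lit 1253) (nat_lit 92) (.e (nat_lit 98367) (nat_lit 27) (.e (nat_lit 442112) (nat_lit 0) .nil)))))) (.g (nat_lit 5) .nil .nil)))))) (.nd (nat_lit 3) (.nd (nat_lit 4) (.nd (nat_lit 5) 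
(.lf (nat_lit 39815) (.g (nat_lit 1245) (.e (nat_lit 1225) (nat_lit 91) (.e (nat_lit 90176) (nat_lit 15) (.e (nat_lit 188447) (nat_lit 22) (.e (nat_lit 196661) (nat_lit 12) .nil)))) .nil)) 
(.lf (nat_lit 39847) (.g (nat_lit 4594) (.e (nat_lit 1226) (nat_lit 91) (.e (nat_lit 90176) (nat_lit 15) (.e (nat_lit 188452) (nat_lit 23) (.e (nat_lit 204846) (nat_lit 24) (.e (nat_lit 319504) (nat_lit 10) .nil))))) .nil))) (.nd (nat_lit 5) 
(.lf (nat_lit 39831) (.g (nat_lit 1518) (.e (nat_lit 1225) (nat_lit 91) (.e (nat_lit 90176) (nat_lit 15) (.e (nat_lit 188450) (nat_lit 23) (.e (nat_lit 204848) (nat_lit 25) (.e (nat_lit 327705) (nat_lit 10) (.e (nat_lit 5295) (nat_lit 298) .nil)))))) (.g (nat_lit 4) .nil .nil))) 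
(.lf (nat_lit 39863) (.g (nat_lit 902) (.e (nat_lit 1227) (nat_lit 91) (.e (nat_lit 90172) (nat_lit 14) (.e (nat_lit 180278) (nat_lit 32) (.e (nat_lit 1252) (nat_lit 92) .nil)))) .nil)))) (.nd (nat_lit 4) (.nd (nat_lit 5) 
(.lf (nat_lit 39823) (.g (nat_lit 2076) (.e (nat_lit 1225) (nat_lit 91) (.e (nat_lit 90176) (nat_lit 15) (.e (nat_lit 188450) (nat_lit 23) (.e (nat_lit 204819) (nat_lit 17) (.e (nat_lit 6225) (nat_lit 334) (.e (nat_lit 123206) (nat_lit 270) .nil)))))) (.g (nat_lit 5) .nil .nil))) 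
(.lf (nat_lit 39855) (.g (nat_lit 2842) (.e (nat_lit 1227) (nat_lit 91) (.e (nat_lit 90170) (nat_lit 13) (.e (nat_lit 172106) (nat_lit 10) (.e (nat_lit 434244) (nat_lit 28) .nil)))) .nil))) (.nd (nat_lit 5) 
(.lf (nat_lit 39839) (.g (nat_lit 919) (.e (nat_lit 1225) (nat_lit 91) (.e (nat_lit 90185) (nat_lit 17) (.e (nat_lit 237605) (nat_lit 9) .nil))) .nil)) 
(.lf (nat_lit 39871) (.g (nat_lit 1125) (.e (nat_lit 1227) (nat_lit 91) (.e (nat_lit 90172) (nat_lit 14) (.e (nat_lit 188160) (nat_lit 38) (.e (nat_lit 122936) (nat_lit 23) (.e (nat_lit 516171) (nat_lit 13) (.e (nat_lit 466688) (nat_lit 0) .nil)))))) (.g (nat_lit 5) .nil .nil)))))))))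

noncomputable def tv552 : DT := (.nd (nat_lit 0) (.nd (nat_lit 1) (.nd (nat_lit 2) (.nd (nat_lit 3) (.nd (nat_lit 4) (.nd (nat_lit 5) 
(.lf (nat_lit 39872) (.g (nat_lit 586) (.e (nat_lit 1227) (nat_lit 91) (.e (nat_lit 90172) (nat_lit 14) (.e (nat_lit 180285) (nat_lit 45) (.e (nat_lit 2569) (nat_lit 160) .nil)))) .nil)) 
(.lf (nat_lit 39904) (.g (nat_lit 2941) (.e (nat_lit 1227) (nat_lit 91) (.e (nat_lit 90176) (nat_lit 15) (.e (nat_lit 188439) (nat_lit 20) (.e (nat_lit 3272) (nat_lit 199) (.e (nat_lit 548913) (nat_lit 18) (.e (nat_lit 172035) (nat_lit 0) (.e (nat_lit 7936) (nat_lit 402) .nil))))))) (.g (nat_lit 6) .nil .nil)))) (.nd (nat_lit 5) 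
(.lf (nat_lit 39888) (.g (nat_lit 1499) (.e (nat_lit 1227) (nat_lit 91) (.e (nat_lit 90176) (nat_lit 15) (.e (nat_lit 188439) (nat_lit 20) (.e (nat_lit 3270) (nat_lit 199) (.e (nat_lit 548913) (nat_lit 18) (.e (nat_lit 172034) (nat_lit 0) (.e (nat_lit 7936) (nat_lit 402) .nil))))))) (.g (nat_lit 5) .nil .nil))) 
(.lf (nat_lit 39920) (.g (nat_lit 2472) (.e (nat_lit 1227) (nat_lit 91) (.e (nat_lit 90176) (nat_lit 15) (.e (nat_lit 188450) (nat_lit 23) (.e (nat_lit 204845) (nat_lit 24) (.e (nat_lit 319500) (nat_lit 10) .nil))))) .nil)))) (.nd (nat_lit 4) (.nd (nat_lit 5) 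
(.lf (nat_lit 39880) (.g (nat_lit 1108) (.e (nat_lit 1227) (nat_lit 91) (.e (nat_lit 90172) (nat_lit 14) (.e (nat_lit 180285) (nat_lit 45) (.e (nat_lit 2571) (nat_lit 160) (.e (nat_lit 32808) (nat_lit 19) (.e (nat_lit 188160) (nat_lit 32) .nil)))))) (.g (nat_lit 5) .nil .nil))) 
(.lf (nat_lit 39912) (.g (nat_lit 1764) (.e (nat_lit 1227) (nat_lit 91) (.e (nat_lit 90176) (nat_lit 15) (.e (nat_lit 188447) (nat_lit 22) (.e (nat_lit 196661) (nat_lit 12) (.e (nat_lit 57712) (nat_lit 176) (.e (nat_lit 973) (nat_lit 81) (.e (nat_lit 7936) (nat_lit 298) .nil))))))) (.g (nat_lit 6) .nil .nil)))) (.nd (nat_lit 5) 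
(.lf (nat_lit 39896) (.g (nat_lit 1447) (.e (nat_lit 1227) (nat_lit 91) (.e (nat_lit 90176) (nat_lit 15) (.e (nat_lit 188439) (nat_lit 20) (.e (nat_lit 3271) (nat_lit 199) (.e (nat_lit 548913) (nat_lit 18) (.e (nat_lit 172041) (nat_lit 0) (.e (nat_lit 7936) (nat_lit 402) .nil))))))) (.g (nat_lit 5) .nil .nil))) 
(.lf (nat_lit 39928) (.g (nat_lit 1377) (.e (nat_lit 1227) (nat_lit 91) (.e (nat_lit 90176) (nat_lit 15) (.e (nat_lit 188450) (nat_lit 23) (.e (nat_lit 204848) (nat_lit 25) (.e (nat_lit 327705) (nat_lit 10) (.e (nat_lit 7936) (nat_lit 298) .nil)))))) (.g (nat_lit 4) .nil .nil)))))) (.nd (nat_lit 3) (.nd (nat_lit 4) (.nd (nat_lit 5) 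
(.lf (nat_lit 39876) (.g (nat_lit 623) (.e (nat_lit 1227) (nat_lit 91) (.e (nat_lit 90172) (nat_lit 14) (.e (nat_lit 180285) (nat_lit 45) (.e (nat_lit 2570) (nat_lit 160) (.e (nat_lit 32807) (nat_lit 18) (.e (nat_lit 172039) (nat_lit 0) (.e (nat_lit 7936) (nat_lit 402) .nil))))))) (.g (nat_lit 4) .nil .nil))) 
(.lf (nat_lit 39908) (.g (nat_lit 2379) (.e (nat_lit 1227) (nat_lit 91) (.e (nat_lit 90176) (nat_lit 15) (.e (nat_lit 188439) (nat_lit 20) (.e (nat_lit 3272) (nat_lit 199) (.e (nat_lit 548913) (nat_lit 18) (.e (nat_lit 172049) (nat_lit 0) (.e (nat_lit 7936) (nat_lit 402) .nil))))))) (.g (nat_lit 6) .nil .nil)))) (.nd (nat_lit 5) 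
(.lf (nat_lit 39892) (.g (nat_lit 1712) (.e (nat_lit 1227) (nat_lit 91) (.e (nat_lit 90176) (nat_lit 15) (.e (nat_lit 188439) (nat_lit 20) (.e (nat_lit 3271) (nat_lit 199) (.e (nat_lit 548913) (nat_lit 18) (.e (nat_lit 172033) (nat_lit 0) (.e (nat_lit 7936) (nat_lit 402) .nil))))))) (.g (nat_lit 6) .nil .nil))) 
(.lf (nat_lit 39924) (.g (nat_lit 3412) (.e (nat_lit 1227) (nat_lit 91) (.e (nat_lit 90176) (nat_lit 15) (.e (nat_lit 188450) (nat_lit 23) (.e (nat_lit 204846) (nat_lit 24) (.e (nat_lit 319505) (nat_lit 10) (.e (nat_lit 7936) (nat_lit 298) .nil)))))) (.g (nat_lit 5) .nil .nil))))) (.nd (nat_lit 4) (.nd (nat_lit 5) 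
(.lf (nat_lit 39884) (.g (nat_lit 1515) (.e (nat_lit 1227) (nat_lit 91) (.e (nat_lit 90176) (nat_lit 15) (.e (nat_lit 196352) (nat_lit 0) (.e (nat_lit 1849) (nat_lit 124) (.e (nat_lit 557104) (nat_lit 14) (.e (nat_lit 188160) (nat_lit 32) .nil)))))) (.g (nat_lit 5) .nil .nil))) 
(.lf (nat_lit 39916) (.g (nat_lit 1856) (.e (nat_lit 1227) (nat_lit 91) (.e (nat_lit 90176) (nat_lit 15) (.e (nat_lit 188450) (nat_lit 23) (.e (nat_lit 204819) (nat_lit 17) (.e (nat_lit 6225) (nat_lit 334) (.e (nat_lit 130816) (nat_lit 270) .nil)))))) (.g (nat_lit 5) .nil .nil)))) (.nd (nat_lit 5) 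
(.lf (nat_lit 39900) (.g (nat_lit 2455) (.e (nat_lit 1227) (nat_lit 91) (.e (nat_lit 90176) (nat_lit 15) (.e (nat_lit 188439) (nat_lit 20) (.e (nat_lit 3272) (nat_lit 199) (.e (nat_lit 548913) (nat_lit 18) (.e (nat_lit 172033) (nat_lit 0) (.e (nat_lit 7545) (nat_lit 402) .nil))))))) (.g (nat_lit 6) .nil .nil))) 
(.lf (nat_lit 39932) (.g (nat_lit 2206) (.e (nat_lit 1227) (nat_lit 91) (.e (nat_lit 90176) (nat_lit 15) (.e (nat_lit 188450) (nat_lit 23) (.e (nat_lit 204849) (nat_lit 25) (.e (nat_lit 327705) (nat_lit 10) (.e (nat_lit 7936) (nat_lit 298) .nil)))))) (.g (nat_lit 5) .nil .nil))))))) (.nd (nat_lit 2) (.nd (nat_lit 3) (.nd (nat_lit 4) (.nd (nat_lit 5) 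
(.lf (nat_lit 39874) (.g (nat_lit 539) (.e (nat_lit 1227) (nat_lit 91) (.e (nat_lit 90172) (nat_lit 14) (.e (nat_lit 180285) (nat_lit 45) (.e (nat_lit 2570) (nat_lit 160) .nil)))) .nil)) 
(.lf (nat_lit 39906) (.g (nat_lit 2081) (.e (nat_lit 1227) (nat_lit 91) (.e (nat_lit 90176) (nat_lit 15) (.e (nat_lit 188439) (nat_lit 20) (.e (nat_lit 3272) (nat_lit 199) (.e (nat_lit 548913) (nat_lit 18) (.e (nat_lit 172038) (nat_lit 0) (.e (nat_lit 7936) (nat_lit 402) .nil))))))) (.g (nat_lit 5) .nil .nil)))) (.nd (nat_lit 5) 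
(.lf (nat_lit 39890) (.g (nat_lit 956) (.e (nat_lit 1227) (nat_lit 91) (.e (nat_lit 90176) (nat_lit 15) (.e (nat_lit 188439) (nat_lit 20) (.e (nat_lit 3270) (nat_lit 199) (.e (nat_lit 548914) (nat_lit 19) (.e (nat_lit 188160) (nat_lit 32) .nil)))))) (.g (nat_lit 4) .nil .nil))) 
(.lf (nat_lit 39922) (.g (nat_lit 3392) (.e (nat_lit 1227) (nat_lit 91) (.e (nat_lit 90176) (nat_lit 15) (.e (nat_lit 188450) (nat_lit 23) (.e (nat_lit 204846) (nat_lit 24) (.e (nat_lit 319500) (nat_lit 10) .nil))))) .nil)))) (.nd (nat_lit 4) (.nd (nat_lit 5) 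
(.lf (nat_lit 39882) (.g (nat_lit 1996) (.e (nat_lit 1227) (nat_lit 91) (.e (nat_lit 90176) (nat_lit 15) (.e (nat_lit 188420) (nat_lit 0) (.e (nat_lit 1856) (nat_lit 124) (.e (nat_lit 557105) (nat_lit 14) (.e (nat_lit 188160) (nat_lit 32) .nil)))))) (.g (nat_lit 5) .nil .nil))) 
(.lf (nat_lit 39914) (.g (nat_lit 1605) (.e (nat_lit 1227) (nat_lit 91) (.e (nat_lit 90176) (nat_lit 15) (.e (nat_lit 188447) (nat_lit 22) (.e (nat_lit 196661) (nat_lit 12) (.e (nat_lit 57714) (nat_lit 176) (.e (nat_lit 989) (nat_lit 81) (.e (nat_lit 5349) (nat_lit 298) .nil))))))) (.g (nat_lit 4) .nil .nil)))) (.nd (nat_lit 5) 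
(.lf (nat_lit 39898) (.g (nat_lit 1221) (.e (nat_lit 1227) (nat_lit 91) (.e (nat_lit 90176) (nat_lit 15) (.e (nat_lit 188439) (nat_lit 20) (.e (nat_lit 3271) (nat_lit 199) (.e (nat_lit 548914) (nat_lit 19) (.e (nat_lit 188160) (nat_lit 32) .nil)))))) (.g (nat_lit 5) .nil .nil))) 
(.lf (nat_lit 39930) (.g (nat_lit 1918) (.e (nat_lit 1227) (nat_lit 91) (.e (nat_lit 90176) (nat_lit 15) (.e (nat_lit 188450) (nat_lit 23) (.e (nat_lit 204849) (nat_lit 25) (.e (nat_lit 327702) (nat_lit 10) (.e (nat_lit 7936) (nat_lit 298) .nil)))))) (.g (nat_lit 4) .nil .nil)))))) (.nd (nat_lit 3) (.nd (nat_lit 4) (.nd (nat_lit 5) 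
(.lf (nat_lit 39878) (.g (nat_lit 528) (.e (nat_lit 1227) (nat_lit 91) (.e (nat_lit 90172) (nat_lit 14) (.e (nat_lit 180285) (nat_lit 45) (.e (nat_lit 2571) (nat_lit 160) .nil)))) .nil)) 
(.lf (nat_lit 39910) (.g (nat_lit 1128) (.e (nat_lit 1227) (nat_lit 91) (.e (nat_lit 90176) (nat_lit 15) (.e (nat_lit 188447) (nat_lit 22) (.e (nat_lit 196661) (nat_lit 12) .nil)))) .nil))) (.nd (nat_lit 5) 
(.lf (nat_lit 39894) (.g (nat_lit 2002) (.e (nat_lit 1227) (nat_lit 91) (.e (nat_lit 90176) (nat_lit 15) (.e (nat_lit 188439) (nat_lit 20) (.e (nat_lit 3271) (nat_lit 199) (.e (nat_lit 548913) (nat_lit 18) (.e (nat_lit 172035) (nat_lit 0) (.e (nat_lit 7936) (nat_lit 402) .nil))))))) (.g (nat_lit 6) .nil .nil))) 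
(.lf (nat_lit 39926) (.g (nat_lit 1232) (.e (nat_lit 1227) (nat_lit 91) (.e (nat_lit 90176) (nat_lit 15) (.e (nat_lit 188450) (nat_lit 23) (.e (nat_lit 204848) (nat_lit 25) .nil)))) .nil)))) (.nd (nat_lit 4) (.nd (nat_lit 5) 
(.lf (nat_lit 39886) (.g (nat_lit 333) (.e (nat_lit 1227) (nat_lit 91) (.e (nat_lit 90176) (nat_lit 15) (.e (nat_lit 188439) (nat_lit 20) .nil))) .nil)) 
(.lf (nat_lit 39918) (.g (nat_lit 2012) (.e (nat_lit 1227) (nat_lit 91) (.e (nat_lit 90176) (nat_lit 15) (.e (nat_lit 188450) (nat_lit 23) (.e (nat_lit 204821) (nat_lit 17) (.e (nat_lit 6114) (nat_lit 332) (.e (nat_lit 973) (nat_lit 81) (.e (nat_lit 7936) (nat_lit 298) .nil))))))) (.g (nat_lit 6) .nil .nil)))) (.nd (nat_lit 5) 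
(.lf (nat_lit 39902) (.g (nat_lit 1938) (.e (nat_lit 1227) (nat_lit 91) (.e (nat_lit 90176) (nat_lit 15) (.e (nat_lit 188439) (nat_lit 20) (.e (nat_lit 3272) (nat_lit 199) (.e (nat_lit 548913) (nat_lit 18) (.e (nat_lit 172034) (nat_lit 0) (.e (nat_lit 7545) (nat_lit 402) .nil))))))) (.g (nat_lit 5) .nil .nil))) 
(.lf (nat_lit 39934) (.g (nat_lit 1673) (.e (nat_lit 1227) (nat_lit 91) (.e (nat_lit 90176) (nat_lit 15) (.e (nat_lit 188450) (nat_lit 23) (.e (nat_lit 204885) (nat_lit 33) (.e (nat_lit 401408) (nat_lit 0) (.e (nat_lit 7545) (nat_lit 402) .nil)))))) (.g (nat_lit 5) .nil .nil)))))))) (.nd (nat_lit 1) (.nd (nat_lit 2) (.nd (nat_lit 3) (.nd (nat_lit 4) (.nd (nat_lit 5) 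
(.lf (nat_lit 39873) (.g (nat_lit 1058) (.e (nat_lit 1227) (nat_lit 91) (.e (nat_lit 90172) (nat_lit 14) (.e (nat_lit 180285) (nat_lit 45) (.e (nat_lit 2569) (nat_lit 160) (.e (nat_lit 32808) (nat_lit 19) (.e (nat_lit 188160) (nat_lit 32) .nil)))))) (.g (nat_lit 5) .nil .nil))) 
(.lf (nat_lit 39905) (.g (nat_lit 2281) (.e (nat_lit 1227) (nat_lit 91) (.e (nat_lit 90176) (nat_lit 15) (.e (nat_lit 188439) (nat_lit 20) (.e (nat_lit 3272) (nat_lit 199) (.e (nat_lit 548913) (nat_lit 18) (.e (nat_lit 172036) (nat_lit 0) (.e (nat_lit 7936) (nat_lit 402) .nil))))))) (.g (nat_lit 6) .nil .nil)))) (.nd (nat_lit 5) 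
(.lf (nat_lit 39889) (.g (nat_lit 1569) (.e (nat_lit 1227) (nat_lit 91) (.e (nat_lit 90176) (nat_lit 15) (.e (nat_lit 188439) (nat_lit 20) (.e (nat_lit 3270) (nat_lit 199) (.e (nat_lit 548913) (nat_lit 18) (.e (nat_lit 172039) (nat_lit 0) (.e (nat_lit 7936) (nat_lit 402) .nil))))))) (.g (nat_lit 5) .nil .nil))) 
(.lf (nat_lit 39921) (.g (nat_lit 2332) (.e (nat_lit 1227) (nat_lit 91) (.e (nat_lit 90176) (nat_lit 15) (.e (nat_lit 188450) (nat_lit 23) (.e (nat_lit 204845) (nat_lit 24) (.e (nat_lit 319505) (nat_lit 10) .nil))))) .nil)))) (.nd (nat_lit 4) (.nd (nat_lit 5) 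
(.lf (nat_lit 39881) (.g (nat_lit 1855) (.e (nat_lit 1227) (nat_lit 91) (.e (nat_lit 90176) (nat_lit 15) (.e (nat_lit 188420) (nat_lit 0) (.e (nat_lit 1856) (nat_lit 124) (.e (nat_lit 557103) (nat_lit 14) (.e (nat_lit 188160) (nat_lit 32) .nil)))))) (.g (nat_lit 5) .nil .nil))) 
(.lf (nat_lit 39913) (.g (nat_lit 1426) (.e (nat_lit 1227) (nat_lit 91) (.e (nat_lit 90176) (nat_lit 15) (.e (nat_lit 188447) (nat_lit 22) (.e (nat_lit 196661) (nat_lit 12) (.e (nat_lit 57714) (nat_lit 176) .nil))))) .nil))) (.nd (nat_lit 5) 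
(.lf (nat_lit 39897) (.g (nat_lit 1396) (.e (nat_lit 1227) (nat_lit 91) (.e (nat_lit 90176) (nat_lit 15) (.e (nat_lit 188439) (nat_lit 20) (.e (nat_lit 3271) (nat_lit 199) (.e (nat_lit 548913) (nat_lit 18) (.e (nat_lit 172049) (nat_lit 0) (.e (nat_lit 7936) (nat_lit 402) .nil))))))) (.g (nat_lit 5) .nil .nil))) 
(.lf (nat_lit 39929) (.g (nat_lit 1387) (.e (nat_lit 1227) (nat_lit 91) (.e (nat_lit 90176) (nat_lit 15) (.e (nat_lit 188450) (nat_lit 23) (.e (nat_lit 204849) (nat_lit 25) .nil)))) .nil))))) (.nd (nat_lit 3) (.nd (nat_lit 4) (.nd (nat_lit 5) 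
(.lf (nat_lit 39877) (.g (nat_lit 1045) (.e (nat_lit 1227) (nat_lit 91) (.e (nat_lit 90172) (nat_lit 14) (.e (nat_lit 180285) (nat_lit 45) (.e (nat_lit 2570) (nat_lit 160) (.e (nat_lit 32808) (nat_lit 19) (.e (nat_lit 188160) (nat_lit 32) .nil)))))) (.g (nat_lit 5) .nil .nil))) 
(.lf (nat_lit 39909) (.g (nat_lit 1639) (.e (nat_lit 1227) (nat_lit 91) (.e (nat_lit 90176) (nat_lit 15) (.e (nat_lit 188439) (nat_lit 20) (.e (nat_lit 3272) (nat_lit 199) (.e (nat_lit 548914) (nat_lit 19) (.e (nat_lit 188160) (nat_lit 32) .nil)))))) (.g (nat_lit 5) .nil .nil)))) (.nd (nat_lit 5) 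
(.lf (nat_lit 39893) (.g (nat_lit 1354) (.e (nat_lit 1227) (nat_lit 91) (.e (nat_lit 90176) (nat_lit 15) (.e (nat_lit 188439) (nat_lit 20) (.e (nat_lit 3271) (nat_lit 199) (.e (nat_lit 548913) (nat_lit 18) (.e (nat_lit 172034) (nat_lit 0) (.e (nat_lit 7936) (nat_lit 402) .nil))))))) (.g (nat_lit 5) .nil .nil))) 
(.lf (nat_lit 39925) (.g (nat_lit 2175) (.e (nat_lit 1227) (nat_lit 91) (.e (nat_lit 90176) (nat_lit 15) (.e (nat_lit 188450) (nat_lit 23) (.e (nat_lit 204846) (nat_lit 24) (.e (nat_lit 319506) (nat_lit 10) (.e (nat_lit 7936) (nat_lit 298) .nil)))))) (.g (nat_lit 5) .nil .nil))))) (.nd (nat_lit 4) (.nd (nat_lit 5) 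
(.lf (nat_lit 39885) (.g (nat_lit 2114) (.e (nat_lit 1227) (nat_lit 91) (.e (nat_lit 90176) (nat_lit 15) (.e (nat_lit 196352) (nat_lit 0) (.e (nat_lit 1853) (nat_lit 124) (.e (nat_lit 557104) (nat_lit 14) (.e (nat_lit 188160) (nat_lit 32) .nil)))))) (.g (nat_lit 5) .nil .nil))) 
(.lf (nat_lit 39917) (.g (nat_lit 1292) (.e (nat_lit 1227) (nat_lit 91) (.e (nat_lit 90176) (nat_lit 15) (.e (nat_lit 188450) (nat_lit 23) (.e (nat_lit 204821) (nat_lit 17) (.e (nat_lit 6114) (nat_lit 332) .nil))))) .nil))) (.nd (nat_lit 5) 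
(.lf (nat_lit 39901) (.g (nat_lit 2256) (.e (nat_lit 1227) (nat_lit 91) (.e (nat_lit 90176) (nat_lit 15) (.e (nat_lit 188439) (nat_lit 20) (.e (nat_lit 3272) (nat_lit 199) (.e (nat_lit 548913) (nat_lit 18) (.e (nat_lit 172033) (nat_lit 0) (.e (nat_lit 7936) (nat_lit 402) .nil))))))) (.g (nat_lit 6) .nil .nil))) 
(.lf (nat_lit 39933) (.g (nat_lit 1068) (.e (nat_lit 1227) (nat_lit 91) (.e (nat_lit 90176) (nat_lit 15) (.e (nat_lit 188450) (nat_lit 23) (.e (nat_lit 204885) (nat_lit 33) .nil)))) .nil)))))) (.nd (nat_lit 2) (.nd (nat_lit 3) (.nd (nat_lit 4) (.nd (nat_lit 5) 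
(.lf (nat_lit 39875) (.g (nat_lit 1051) (.e (nat_lit 1227) (nat_lit 91) (.e (nat_lit 90172) (nat_lit 14) (.e (nat_lit 180285) (nat_lit 45) (.e (nat_lit 2570) (nat_lit 160) (.e (nat_lit 32807) (nat_lit 18) (.e (nat_lit 172036) (nat_lit 0) (.e (nat_lit 7936) (nat_lit 402) .nil))))))) (.g (nat_lit 5) .nil .nil))) 
(.lf (nat_lit 39907) (.g (nat_lit 2393) (.e (nat_lit 1227) (nat_lit 91) (.e (nat_lit 90176) (nat_lit 15) (.e (nat_lit 188439) (nat_lit 20) (.e (nat_lit 3272) (nat_lit 199) (.e (nat_lit 548913) (nat_lit 18) (.e (nat_lit 172039) (nat_lit 0) (.e (nat_lit 7936) (nat_lit 402) .nil))))))) (.g (nat_lit 6) .nil .nil)))) (.nd (nat_lit 5) 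
(.lf (nat_lit 39891) (.g (nat_lit 1922) (.e (nat_lit 1227) (nat_lit 91) (.e (nat_lit 90176) (nat_lit 15) (.e (nat_lit 188439) (nat_lit 20) (.e (nat_lit 3271) (nat_lit 199) (.e (nat_lit 548913) (nat_lit 18) (.e (nat_lit 172033) (nat_lit 0) (.e (nat_lit 7545) (nat_lit 402) .nil))))))) (.g (nat_lit 6) .nil .nil))) 
(.lf (nat_lit 39923) (.g (nat_lit 3887) (.e (nat_lit 1227) (nat_lit 91) (.e (nat_lit 90176) (nat_lit 15) (.e (nat_lit 188450) (nat_lit 23) (.e (nat_lit 204846) (nat_lit 24) (.e (nat_lit 319504) (nat_lit 10) (.e (nat_lit 7936) (nat_lit 298) .nil)))))) (.g (nat_lit 5) .nil .nil))))) (.nd (nat_lit 4) (.nd (nat_lit 5) 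
(.lf (nat_lit 39883) (.g (nat_lit 1735) (.e (nat_lit 1227) (nat_lit 91) (.e (nat_lit 90176) (nat_lit 15) (.e (nat_lit 196352) (nat_lit 0) (.e (nat_lit 1848) (nat_lit 124) (.e (nat_lit 557104) (nat_lit 14) (.e (nat_lit 188160) (nat_lit 32) .nil)))))) (.g (nat_lit 5) .nil .nil))) 
(.lf (nat_lit 39915) (.g (nat_lit 1604) (.e (nat_lit 1227) (nat_lit 91) (.e (nat_lit 90176) (nat_lit 15) (.e (nat_lit 188447) (nat_lit 22) (.e (nat_lit 196661) (nat_lit 12) (.e (nat_lit 57721) (nat_lit 177) (.e (nat_lit 65280) (nat_lit 270) .nil)))))) (.g (nat_lit 5) .nil .nil)))) (.nd (nat_lit 5) 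
(.lf (nat_lit 39899) (.g (nat_lit 1109) (.e (nat_lit 1227) (nat_lit 91) (.e (nat_lit 90176) (nat_lit 15) (.e (nat_lit 188439) (nat_lit 20) (.e (nat_lit 3272) (nat_lit 199) (.e (nat_lit 548897) (nat_lit 14) (.e (nat_lit 2975) (nat_lit 185) (.e (nat_lit 442112) (nat_lit 0) .nil))))))) (.g (nat_lit 4) .nil .nil))) 
(.lf (nat_lit 39931) (.g (nat_lit 2836) (.e (nat_lit 1227) (nat_lit 91) (.e (nat_lit 90176) (nat_lit 15) (.e (nat_lit 188450) (nat_lit 23) (.e (nat_lit 204849) (nat_lit 25) (.e (nat_lit 327703) (nat_lit 10) (.e (nat_lit 7936) (nat_lit 298) .nil)))))) (.g (nat_lit 5) .nil .nil)))))) (.nd (nat_lit 3) (.nd (nat_lit 4) (.nd (nat_lit 5) 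
(.lf (nat_lit 39879) (.g (nat_lit 594) (.e (nat_lit 1227) (nat_lit 91) (.e (nat_lit 90172) (nat_lit 14) (.e (nat_lit 180285) (nat_lit 45) (.e (nat_lit 2571) (nat_lit 160) (.e (nat_lit 32807) (nat_lit 18) (.e (nat_lit 172045) (nat_lit 0) (.e (nat_lit 7936) (nat_lit 402) .nil))))))) (.g (nat_lit 4) .nil .nil))) 
(.lf (nat_lit 39911) (.g (nat_lit 1962) (.e (nat_lit 1227) (nat_lit 91) (.e (nat_lit 90176) (nat_lit 15) (.e (nat_lit 188447) (nat_lit 22) (.e (nat_lit 196661) (nat_lit 12) (.e (nat_lit 57712) (nat_lit 176) (.e (nat_lit 970) (nat_lit 81) (.e (nat_lit 7936) (nat_lit 298) .nil))))))) (.g (nat_lit 6) .nil .nil)))) (.nd (nat_lit 5) 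
(.lf (nat_lit 39895) (.g (nat_lit 1576) (.e (nat_lit 1227) (nat_lit 91) (.e (nat_lit 90176) (nat_lit 15) (.e (nat_lit 188439) (nat_lit 20) (.e (nat_lit 3271) (nat_lit 199) (.e (nat_lit 548913) (nat_lit 18) (.e (nat_lit 172039) (nat_lit 0) (.e (nat_lit 7936) (nat_lit 402) .nil))))))) (.g (nat_lit 6) .nil .nil))) 
(.lf (nat_lit 39927) (.g (nat_lit 1616) (.e (nat_lit 1227) (nat_lit 91) (.e (nat_lit 90176) (nat_lit 15) (.e (nat_lit 188450) (nat_lit 23) (.e (nat_lit 204848) (nat_lit 25) (.e (nat_lit 327702) (nat_lit 10) (.e (nat_lit 7936) (nat_lit 298) .nil)))))) (.g (nat_lit 5) .nil .nil))))) (.nd (nat_lit 4) (.nd (nat_lit 5) 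
(.lf (nat_lit 39887) (.g (nat_lit 2190) (.e (nat_lit 1227) (nat_lit 91) (.e (nat_lit 90176) (nat_lit 15) (.e (nat_lit 188439) (nat_lit 20) (.e (nat_lit 3270) (nat_lit 199) (.e (nat_lit 548913) (nat_lit 18) (.e (nat_lit 172033) (nat_lit 0) (.e (nat_lit 7545) (nat_lit 402) .nil))))))) (.g (nat_lit 6) .nil .nil))) 
(.lf (nat_lit 39919) (.g (nat_lit 1269) (.e (nat_lit 1227) (nat_lit 91) (.e (nat_lit 90176) (nat_lit 15) (.e (nat_lit 188450) (nat_lit 23) (.e (nat_lit 204821) (nat_lit 17) (.e (nat_lit 6136) (nat_lit 332) .nil))))) .nil))) (.nd (nat_lit 5) 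
(.lf (nat_lit 39903) (.g (nat_lit 2208) (.e (nat_lit 1227) (nat_lit 91) (.e (nat_lit 90176) (nat_lit 15) (.e (nat_lit 188439) (nat_lit 20) (.e (nat_lit 3272) (nat_lit 199) (.e (nat_lit 548913) (nat_lit 18) (.e (nat_lit 172034) (nat_lit 0) (.e (nat_lit 7936) (nat_lit 402) .nil))))))) (.g (nat_lit 6) .nil .nil))) 
(.lf (nat_lit 39935) (.g (nat_lit 1666) (.e (nat_lit 1227) (nat_lit 91) (.e (nat_lit 90176) (nat_lit 15) (.e (nat_lit 188450) (nat_lit 23) (.e (nat_lit 204885) (nat_lit 33) (.e (nat_lit 401409) (nat_lit 0) .nil))))) .nil))))))))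

noncomputable def tv553 : DT := (.nd (nat_lit 0) (.nd (nat_lit 1) (.nd (nat_lit 2) (.nd (nat_lit 3) (.nd (nat_lit 4) (.nd (nat_lit 5) 
(.lf (nat_lit 39936) (.g (nat_lit 2095) (.e (nat_lit 1227) (nat_lit 91) (.e (nat_lit 90176) (nat_lit 15) (.e (nat_lit 188450) (nat_lit 23) (.e (nat_lit 204885) (nat_lit 33) (.e (nat_lit 401414) (nat_lit 0) (.e (nat_lit 7936) (nat_lit 402) .nil)))))) (.g (nat_lit 5) .nil .nil))) 
(.lf (nat_lit 39968) (.g (nat_lit 2127) (.e (nat_lit 1228) (nat_lit 91) (.e (nat_lit 90172) (nat_lit 14) (.e (nat_lit 180278) (nat_lit 32) (.e (nat_lit 1253) (nat_lit 92) (.e (nat_lit 98368) (nat_lit 27) (.e (nat_lit 442112) (nat_lit 0) .nil)))))) (.g (nat_lit 5) .nil .nil)))) (.nd (nat_lit 5) 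
(.lf (nat_lit 39952) (.g (nat_lit 1733) (.e (nat_lit 1228) (nat_lit 91) (.e (nat_lit 90160) (nat_lit 11) (.e (nat_lit 24643) (nat_lit 11) (.e (nat_lit 368676) (nat_lit 21) (.e (nat_lit 516179) (nat_lit 15) (.e (nat_lit 475201) (nat_lit 40) (.e (nat_lit 704620) (nat_lit 9) .nil))))))) (.g (nat_lit 4) .nil .nil))) 
(.lf (nat_lit 39984) (.g (nat_lit 1249) (.e (nat_lit 1228) (nat_lit 91) (.e (nat_lit 90172) (nat_lit 14) (.e (nat_lit 180285) (nat_lit 45) (.e (nat_lit 2570) (nat_lit 160) (.e (nat_lit 32807) (nat_lit 18) (.e (nat_lit 172036) (nat_lit 0) (.e (nat_lit 7936) (nat_lit 402) .nil))))))) (.g (nat_lit 6) .nil .nil))))) (.nd (nat_lit 4) (.nd (nat_lit 5) 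
(.lf (nat_lit 39944) (.g (nat_lit 1286) (.e (nat_lit 1228) (nat_lit 91) (.e (nat_lit 90128) (nat_lit 9) (.e (nat_lit 314) (nat_lit 23) (.e (nat_lit 352313) (nat_lit 23) .nil)))) .nil)) 
(.lf (nat_lit 39976) (.g (nat_lit 1150) (.e (nat_lit 1228) (nat_lit 91) (.e (nat_lit 90172) (nat_lit 14) (.e (nat_lit 180285) (nat_lit 45) (.e (nat_lit 2569) (nat_lit 160) (.e (nat_lit 32807) (nat_lit 18) (.e (nat_lit 172034) (nat_lit 0) (.e (nat_lit 7936) (nat_lit 402) .nil))))))) (.g (nat_lit 5) .nil .nil)))) (.nd (nat_lit 5) 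
(.lf (nat_lit 39960) (.g (nat_lit 513) (.e (nat_lit 1228) (nat_lit 91) (.e (nat_lit 90172) (nat_lit 14) (.e (nat_lit 180276) (nat_lit 32) .nil))) .nil)) 
(.lf (nat_lit 39992) (.g (nat_lit 1402) (.e (nat_lit 1228) (nat_lit 91) (.e (nat_lit 90172) (nat_lit 14) (.e (nat_lit 180285) (nat_lit 45) (.e (nat_lit 2571) (nat_lit 160) (.e (nat_lit 32807) (nat_lit 18) (.e (nat_lit 172049) (nat_lit 0) (.e (nat_lit 7936) (nat_lit 402) .nil))))))) (.g (nat_lit 6) .nil .nil)))))) (.nd (nat_lit 3) (.nd (nat_lit 4) (.nd (nat_lit 5) 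
(.lf (nat_lit 39940) (.g (nat_lit 2428) (.e (nat_lit 1227) (nat_lit 91) (.e (nat_lit 90176) (nat_lit 15) (.e (nat_lit 188452) (nat_lit 23) (.e (nat_lit 204885) (nat_lit 33) .nil)))) .nil)) 
(.lf (nat_lit 39972) (.g (nat_lit 1246) (.e (nat_lit 1228) (nat_lit 91) (.e (nat_lit 90172) (nat_lit 14) (.e (nat_lit 188160) (nat_lit 38) (.e (nat_lit 122936) (nat_lit 23) (.e (nat_lit 516169) (nat_lit 13) (.e (nat_lit 466688) (nat_lit 0) .nil)))))) (.g (nat_lit 5) .nil .nil)))) (.nd (nat_lit 5) 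
(.lf (nat_lit 39956) (.g (nat_lit 1604) (.e (nat_lit 1228) (nat_lit 91) (.e (nat_lit 90172) (nat_lit 14) (.e (nat_lit 180244) (nat_lit 5) (.e (nat_lit 532515) (nat_lit 3) (.e (nat_lit 114716) (nat_lit 22) (.e (nat_lit 90162) (nat_lit 12) (.e (nat_lit 164007) (nat_lit 41) (.e (nat_lit 671488) (nat_lit 0) .nil)))))))) (.g (nat_lit 4) .nil .nil))) 
(.lf (nat_lit 39988) (.g (nat_lit 722) (.e (nat_lit 1228) (nat_lit 91) (.e (nat_lit 90172) (nat_lit 14) (.e (nat_lit 180285) (nat_lit 45) (.e (nat_lit 2571) (nat_lit 160) (.e (nat_lit 32793) (nat_lit 14) .nil))))) .nil)))) (.nd (nat_lit 4) (.nd (nat_lit 5) 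
(.lf (nat_lit 39948) (.g (nat_lit 2202) (.e (nat_lit 1228) (nat_lit 91) (.e (nat_lit 90160) (nat_lit 11) (.e (nat_lit 24628) (nat_lit 9) (.e (nat_lit 336019) (nat_lit 3) (.e (nat_lit 98356) (nat_lit 26) (.e (nat_lit 426440) (nat_lit 19) (.e (nat_lit 106520) (nat_lit 9) .nil))))))) (.g (nat_lit 4) .nil .nil))) 
(.lf (nat_lit 39980) (.g (nat_lit 1091) (.e (nat_lit 1228) (nat_lit 91) (.e (nat_lit 90172) (nat_lit 14) (.e (nat_lit 180285) (nat_lit 45) (.e (nat_lit 2569) (nat_lit 160) (.e (nat_lit 32807) (nat_lit 18) (.e (nat_lit 172052) (nat_lit 0) (.e (nat_lit 7936) (nat_lit 402) .nil))))))) (.g (nat_lit 5) .nil .nil)))) (.nd (nat_lit 5) 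
(.lf (nat_lit 39964) (.g (nat_lit 1489) (.e (nat_lit 1228) (nat_lit 91) (.e (nat_lit 90172) (nat_lit 14) (.e (nat_lit 180276) (nat_lit 32) (.e (nat_lit 1077) (nat_lit 81) (.e (nat_lit 1796) (nat_lit 119) (.e (nat_lit 516170) (nat_lit 13) (.e (nat_lit 466688) (nat_lit 0) .nil))))))) (.g (nat_lit 5) .nil .nil))) 
(.lf (nat_lit 39996) (.g (nat_lit 2489) (.e (nat_lit 1228) (nat_lit 91) (.e (nat_lit 90173) (nat_lit 14) (.e (nat_lit 180252) (nat_lit 10) (.e (nat_lit 573489) (nat_lit 14) (.e (nat_lit 73755) (nat_lit 8) (.e (nat_lit 557090) (nat_lit 12) (.e (nat_lit 164007) (nat_lit 41) (.e (nat_lit 671488) (nat_lit 0) .nil)))))))) (.g (nat_lit 5) .nil .nil))))))) 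
(.nd (nat_lit 2) (.nd (nat_lit 3) (.nd (nat_lit 4) (.nd (nat_lit 5) 
(.lf (nat_lit 39938) (.g (nat_lit 4470) (.e (nat_lit 1227) (nat_lit 91) (.e (nat_lit 90176) (nat_lit 15) (.e (nat_lit 188452) (nat_lit 23) (.e (nat_lit 204846) (nat_lit 24) (.e (nat_lit 319504) (nat_lit 10) (.e (nat_lit 7936) (nat_lit 298) .nil)))))) (.g (nat_lit 4) .nil .nil))) 
(.lf (nat_lit 39970) (.g (nat_lit 2945) (.e (nat_lit 1228) (nat_lit 91) (.e (nat_lit 90172) (nat_lit 14) (.e (nat_lit 188160) (nat_lit 35) (.e (nat_lit 57464) (nat_lit 23) (.e (nat_lit 516151) (nat_lit 9) (.e (nat_lit 426003) (nat_lit 0) (.e (nat_lit 7545) (nat_lit 402) .nil))))))) (.g (nat_lit 6) .nil .nil)))) (.nd (nat_lit 5) 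
(.lf (nat_lit 39954) (.g (nat_lit 1840) (.e (nat_lit 1228) (nat_lit 91) (.e (nat_lit 90160) (nat_lit 11) (.e (nat_lit 24644) (nat_lit 11) (.e (nat_lit 368676) (nat_lit 21) (.e (nat_lit 516179) (nat_lit 15) (.e (nat_lit 475201) (nat_lit 40) (.e (nat_lit 704620) (nat_lit 9) .nil))))))) (.g (nat_lit 4) .nil .nil))) 
(.lf (nat_lit 39986) (.g (nat_lit 1034) (.e (nat_lit 1228) (nat_lit 91) (.e (nat_lit 90172) (nat_lit 14) (.e (nat_lit 180285) (nat_lit 45) (.e (nat_lit 2570) (nat_lit 160) (.e (nat_lit 32807) (nat_lit 18) (.e (nat_lit 172052) (nat_lit 0) (.e (nat_lit 7936) (nat_lit 402) .nil))))))) (.g (nat_lit 5) .nil .nil))))) (.nd (nat_lit 4) (.nd (nat_lit 5) 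
(.lf (nat_lit 39946) (.g (nat_lit 1246) (.e (nat_lit 1228) (nat_lit 91) (.e (nat_lit 90128) (nat_lit 9) (.e (nat_lit 334) (nat_lit 26) (.e (nat_lit 376869) (nat_lit 23) .nil)))) .nil)) 
(.lf (nat_lit 39978) (.g (nat_lit 1319) (.e (nat_lit 1228) (nat_lit 91) (.e (nat_lit 90172) (nat_lit 14) (.e (nat_lit 180285) (nat_lit 45) (.e (nat_lit 2569) (nat_lit 160) (.e (nat_lit 32807) (nat_lit 18) (.e (nat_lit 172036) (nat_lit 0) (.e (nat_lit 7936) (nat_lit 402) .nil))))))) (.g (nat_lit 6) .nil .nil)))) (.nd (nat_lit 5) 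
(.lf (nat_lit 39962) (.g (nat_lit 1748) (.e (nat_lit 1228) (nat_lit 91) (.e (nat_lit 90172) (nat_lit 14) (.e (nat_lit 180276) (nat_lit 32) (.e (nat_lit 1074) (nat_lit 81) (.e (nat_lit 1796) (nat_lit 119) (.e (nat_lit 516170) (nat_lit 13) (.e (nat_lit 466688) (nat_lit 0) .nil))))))) (.g (nat_lit 6) .nil .nil))) 
(.lf (nat_lit 39994) (.g (nat_lit 1222) (.e (nat_lit 1228) (nat_lit 91) (.e (nat_lit 90172) (nat_lit 14) (.e (nat_lit 180285) (nat_lit 45) (.e (nat_lit 2571) (nat_lit 160) (.e (nat_lit 32808) (nat_lit 19) (.e (nat_lit 188160) (nat_lit 32) .nil)))))) (.g (nat_lit 5) .nil .nil)))))) (.nd (nat_lit 3) (.nd (nat_lit 4) (.nd (nat_lit 5) 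
(.lf (nat_lit 39942) (.g (nat_lit 834) (.e (nat_lit 1227) (nat_lit 91) (.e (nat_lit 90185) (nat_lit 17) (.e (nat_lit 237621) (nat_lit 13) .nil))) .nil)) 
(.lf (nat_lit 39974) (.g (nat_lit 324) (.e (nat_lit 1228) (nat_lit 91) (.e (nat_lit 90172) (nat_lit 14) (.e (nat_lit 180285) (nat_lit 45) .nil))) .nil))) (.nd (nat_lit 5) 
(.lf (nat_lit 39958) (.g (nat_lit 2753) (.e (nat_lit 1228) (nat_lit 91) (.e (nat_lit 90172) (nat_lit 14) (.e (nat_lit 180250) (nat_lit 10) (.e (nat_lit 573489) (nat_lit 14) (.e (nat_lit 73755) (nat_lit 8) .nil))))) .nil)) 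
(.lf (nat_lit 39990) (.g (nat_lit 1346) (.e (nat_lit 1228) (nat_lit 91) (.e (nat_lit 90172) (nat_lit 14) (.e (nat_lit 180285) (nat_lit 45) (.e (nat_lit 2571) (nat_lit 160) (.e (nat_lit 32807) (nat_lit 18) (.e (nat_lit 172035) (nat_lit 0) (.e (nat_lit 7936) (nat_lit 402) .nil))))))) (.g (nat_lit 6) .nil .nil))))) (.nd (nat_lit 4) (.nd (nat_lit 5) 
(.lf (nat_lit 39950) (.g (nat_lit 2985) (.e (nat_lit 1228) (nat_lit 91) (.e (nat_lit 90160) (nat_lit 11) (.e (nat_lit 24640) (nat_lit 10) (.e (nat_lit 344117) (nat_lit 21) (.e (nat_lit 516145) (nat_lit 9) .nil))))) .nil)) 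
(.lf (nat_lit 39982) (.g (nat_lit 1093) (.e (nat_lit 1228) (nat_lit 91) (.e (nat_lit 90172) (nat_lit 14) (.e (nat_lit 180285) (nat_lit 45) (.e (nat_lit 2570) (nat_lit 160) (.e (nat_lit 32807) (nat_lit 18) (.e (nat_lit 172034) (nat_lit 0) (.e (nat_lit 7936) (nat_lit 402) .nil))))))) (.g (nat_lit 5) .nil .nil)))) (.nd (nat_lit 5) 
(.lf (nat_lit 39966) (.g (nat_lit 2419) (.e (nat_lit 1228) (nat_lit 91) (.e (nat_lit 90172) (nat_lit 14) (.e (nat_lit 180278) (nat_lit 32) (.e (nat_lit 1252) (nat_lit 92) (.e (nat_lit 98367) (nat_lit 27) (.e (nat_lit 442112) (nat_lit 0) .nil)))))) (.g (nat_lit 5) .nil .nil))) 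
(.lf (nat_lit 39998) (.g (nat_lit 2121) (.e (nat_lit 1228) (nat_lit 91) (.e (nat_lit 90174) (nat_lit 14) (.e (nat_lit 180250) (nat_lit 10) (.e (nat_lit 573487) (nat_lit 14) (.e (nat_lit 73753) (nat_lit 8) .nil))))) .nil))))))) (.nd (nat_lit 1) (.nd (nat_lit 2) (.nd (nat_lit 3) (.nd (nat_lit 4) (.nd (nat_lit 5) 
(.lf (nat_lit 39937) (.g (nat_lit 1666) (.e (nat_lit 1227) (nat_lit 91) (.e (nat_lit 90176) (nat_lit 15) (.e (nat_lit 188450) (nat_lit 23) (.e (nat_lit 204885) (nat_lit 33) (.e (nat_lit 401416) (nat_lit 0) .nil))))) .nil)) 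
(.lf (nat_lit 39969) (.g (nat_lit 1421) (.e (nat_lit 1228) (nat_lit 91) (.e (nat_lit 90172) (nat_lit 14) (.e (nat_lit 180278) (nat_lit 32) (.e (nat_lit 1253) (nat_lit 92) (.e (nat_lit 98378) (nat_lit 30) .nil))))) .nil))) (.nd (nat_lit 5) 
(.lf (nat_lit 39953) (.g (nat_lit 1301) (.e (nat_lit 1228) (nat_lit 91) (.e (nat_lit 90160) (nat_lit 11) (.e (nat_lit 24644) (nat_lit 11) (.e (nat_lit 368676) (nat_lit 21) .nil)))) .nil)) 
(.lf (nat_lit 39985) (.g (nat_lit 1381) (.e (nat_lit 1228) (nat_lit 91) (.e (nat_lit 90172) (nat_lit 14) (.e (nat_lit 180285) (nat_lit 45) (.e (nat_lit 2570) (nat_lit 160) (.e (nat_lit 32807) (nat_lit 18) (.e (nat_lit 172049) (nat_lit 0) (.e (nat_lit 7936) (nat_lit 402) .nil))))))) (.g (nat_lit 6) .nil .nil))))) (.nd (nat_lit 4) (.nd (nat_lit 5) 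
(.lf (nat_lit 39945) (.g (nat_lit 1285) (.e (nat_lit 1228) (nat_lit 91) (.e (nat_lit 90128) (nat_lit 9) (.e (nat_lit 334) (nat_lit 26) (.e (nat_lit 376867) (nat_lit 23) .nil)))) .nil)) 
(.lf (nat_lit 39977) (.g (nat_lit 1396) (.e (nat_lit 1228) (nat_lit 91) (.e (nat_lit 90172) (nat_lit 14) (.e (nat_lit 180285) (nat_lit 45) (.e (nat_lit 2569) (nat_lit 160) (.e (nat_lit 32807) (nat_lit 18) (.e (nat_lit 172035) (nat_lit 0) (.e (nat_lit 7936) (nat_lit 402) .nil))))))) (.g (nat_lit 6) .nil .nil)))) (.nd (nat_lit 5) 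
(.lf (nat_lit 39961) (.g (nat_lit 1984) (.e (nat_lit 1228) (nat_lit 91) (.e (nat_lit 90172) (nat_lit 14) (.e (nat_lit 180276) (nat_lit 32) (.e (nat_lit 1074) (nat_lit 81) (.e (nat_lit 1796) (nat_lit 119) (.e (nat_lit 516161) (nat_lit 10) (.e (nat_lit 442112) (nat_lit 0) .nil))))))) (.g (nat_lit 6) .nil .nil))) 
(.lf (nat_lit 39993) (.g (nat_lit 1041) (.e (nat_lit 1228) (nat_lit 91) (.e (nat_lit 90172) (nat_lit 14) (.e (nat_lit 180285) (nat_lit 45) (.e (nat_lit 2571) (nat_lit 160) (.e (nat_lit 32807) (nat_lit 18) (.e (nat_lit 172052) (nat_lit 0) (.e (nat_lit 7936) (nat_lit 402) .nil))))))) (.g (nat_lit 5) .nil .nil)))))) (.nd (nat_lit 3) (.nd (nat_lit 4) (.nd (nat_lit 5) 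
(.lf (nat_lit 39941) (.g (nat_lit 2808) (.e (nat_lit 1227) (nat_lit 91) (.e (nat_lit 90177) (nat_lit 15) (.e (nat_lit 188452) (nat_lit 23) (.e (nat_lit 204846) (nat_lit 24) .nil)))) .nil)) 
(.lf (nat_lit 39973) (.g (nat_lit 1167) (.e (nat_lit 1228) (nat_lit 91) (.e (nat_lit 90172) (nat_lit 14) (.e (nat_lit 188160) (nat_lit 38) (.e (nat_lit 122936) (nat_lit 23) (.e (nat_lit 516171) (nat_lit 13) (.e (nat_lit 466688) (nat_lit 0) .nil)))))) (.g (nat_lit 5) .nil .nil)))) (.nd (nat_lit 5) 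
(.lf (nat_lit 39957) (.g (nat_lit 2240) (.e (nat_lit 1228) (nat_lit 91) (.e (nat_lit 90172) (nat_lit 14) (.e (nat_lit 180244) (nat_lit 5) (.e (nat_lit 532515) (nat_lit 3) (.e (nat_lit 114716) (nat_lit 22) (.e (nat_lit 90164) (nat_lit 12) (.e (nat_lit 164006) (nat_lit 41) (.e (nat_lit 671488) (nat_lit 0) .nil)))))))) (.g (nat_lit 5) .nil .nil))) 
(.lf (nat_lit 39989) (.g (nat_lit 1100) (.e (nat_lit 1228) (nat_lit 91) (.e (nat_lit 90172) (nat_lit 14) (.e (nat_lit 180285) (nat_lit 45) (.e (nat_lit 2571) (nat_lit 160) (.e (nat_lit 32807) (nat_lit 18) (.e (nat_lit 172034) (nat_lit 0) (.e (nat_lit 7936) (nat_lit 402) .nil))))))) (.g (nat_lit 5) .nil .nil))))) (.nd (nat_lit 4) (.nd (nat_lit 5) 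
(.lf (nat_lit 39949) (.g (nat_lit 2000) (.e (nat_lit 1228) (nat_lit 91) (.e (nat_lit 90160) (nat_lit 11) (.e (nat_lit 24628) (nat_lit 9) (.e (nat_lit 336019) (nat_lit 3) (.e (nat_lit 98384) (nat_lit 32) (.e (nat_lit 475198) (nat_lit 40) (.e (nat_lit 704707) (nat_lit 9) .nil))))))) (.g (nat_lit 4) .nil .nil))) 
(.lf (nat_lit 39981) (.g (nat_lit 1161) (.e (nat_lit 1228) (nat_lit 91) (.e (nat_lit 90172) (nat_lit 14) (.e (nat_lit 180285) (nat_lit 45) (.e (nat_lit 2569) (nat_lit 160) (.e (nat_lit 32808) (nat_lit 19) (.e (nat_lit 188160) (nat_lit 32) .nil)))))) (.g (nat_lit 5) .nil .nil)))) (.nd (nat_lit 5) 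
(.lf (nat_lit 39965) (.g (nat_lit 2272) (.e (nat_lit 1228) (nat_lit 91) (.e (nat_lit 90172) (nat_lit 14) (.e (nat_lit 180278) (nat_lit 32) (.e (nat_lit 1235) (nat_lit 91) (.e (nat_lit 90172) (nat_lit 14) (.e (nat_lit 188160) (nat_lit 32) .nil)))))) (.g (nat_lit 5) .nil .nil))) 
(.lf (nat_lit 39997) (.g (nat_lit 1909) (.e (nat_lit 1228) (nat_lit 91) (.e (nat_lit 90174) (nat_lit 14) (.e (nat_lit 180243) (nat_lit 5) (.e (nat_lit 532513) (nat_lit 3) (.e (nat_lit 114714) (nat_lit 22) (.e (nat_lit 90162) (nat_lit 12) (.e (nat_lit 164007) (nat_lit 41) (.e (nat_lit 663560) (nat_lit 0) .nil)))))))) (.g (nat_lit 4) .nil .nil))))))) 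
(.nd (nat_lit 2) (.nd (nat_lit 3) (.nd (nat_lit 4) (.nd (nat_lit 5) 
(.lf (nat_lit 39939) (.g (nat_lit 4049) (.e (nat_lit 1227) (nat_lit 91) (.e (nat_lit 90176) (nat_lit 15) (.e (nat_lit 188452) (nat_lit 23) (.e (nat_lit 204846) (nat_lit 24) (.e (nat_lit 319505) (nat_lit 10) .nil))))) .nil)) 
(.lf (nat_lit 39971) (.g (nat_lit 1040) (.e (nat_lit 1228) (nat_lit 91) (.e (nat_lit 90172) (nat_lit 14) (.e (nat_lit 188160) (nat_lit 35) (.e (nat_lit 57464) (nat_lit 23) (.e (nat_lit 516161) (nat_lit 10) (.e (nat_lit 442112) (nat_lit 0) .nil)))))) (.g (nat_lit 5) .nil .nil)))) (.nd (nat_lit 5) 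
(.lf (nat_lit 39955) (.g (nat_lit 3987) (.e (nat_lit 1228) (nat_lit 91) (.e (nat_lit 90167) (nat_lit 13) (.e (nat_lit 172126) (nat_lit 14) (.e (nat_lit 491537) (nat_lit 2) (.e (nat_lit 90185) (nat_lit 17) (.e (nat_lit 237569) (nat_lit 0) (.e (nat_lit 7540) (nat_lit 402) .nil))))))) (.g (nat_lit 5) .nil .nil))) 
(.lf (nat_lit 39987) (.g (nat_lit 1158) (.e (nat_lit 1228) (nat_lit 91) (.e (nat_lit 90172) (nat_lit 14) (.e (nat_lit 180285) (nat_lit 45) (.e (nat_lit 2570) (nat_lit 160) (.e (nat_lit 32808) (nat_lit 19) (.e (nat_lit 188160) (nat_lit 32) .nil)))))) (.g (nat_lit 5) .nil .nil))))) (.nd (nat_lit 4) (.nd (nat_lit 5) 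
(.lf (nat_lit 39947) (.g (nat_lit 1393) (.e (nat_lit 1228) (nat_lit 91) (.e (nat_lit 90160) (nat_lit 11) (.e (nat_lit 24628) (nat_lit 9) (.e (nat_lit 336019) (nat_lit 3) .nil)))) .nil)) 
(.lf (nat_lit 39979) (.g (nat_lit 1452) (.e (nat_lit 1228) (nat_lit 91) (.e (nat_lit 90172) (nat_lit 14) (.e (nat_lit 180285) (nat_lit 45) (.e (nat_lit 2569) (nat_lit 160) (.e (nat_lit 32807) (nat_lit 18) (.e (nat_lit 172049) (nat_lit 0) (.e (nat_lit 7936) (nat_lit 402) .nil))))))) (.g (nat_lit 6) .nil .nil)))) (.nd (nat_lit 5) 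
(.lf (nat_lit 39963) (.g (nat_lit 1725) (.e (nat_lit 1228) (nat_lit 91) (.e (nat_lit 90172) (nat_lit 14) (.e (nat_lit 180276) (nat_lit 32) (.e (nat_lit 1077) (nat_lit 81) (.e (nat_lit 1796) (nat_lit 119) (.e (nat_lit 516161) (nat_lit 10) (.e (nat_lit 442112) (nat_lit 0) .nil))))))) (.g (nat_lit 6) .nil .nil))) 
(.lf (nat_lit 39995) (.g (nat_lit 3442) (.e (nat_lit 1228) (nat_lit 91) (.e (nat_lit 90173) (nat_lit 14) (.e (nat_lit 180252) (nat_lit 10) (.e (nat_lit 573489) (nat_lit 14) (.e (nat_lit 73755) (nat_lit 8) (.e (nat_lit 557090) (nat_lit 12) (.e (nat_lit 164006) (nat_lit 41) (.e (nat_lit 671488) (nat_lit 0) .nil)))))))) (.g (nat_lit 6) .nil .nil)))))) 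
(.nd (nat_lit 3) (.nd (nat_lit 4) (.nd (nat_lit 5) 
(.lf (nat_lit 39943) (.g (nat_lit 806) (.e (nat_lit 1227) (nat_lit 91) (.e (nat_lit 90185) (nat_lit 17) (.e (nat_lit 237624) (nat_lit 13) .nil))) .nil)) 
(.lf (nat_lit 39975) (.g (nat_lit 597) (.e (nat_lit 1228) (nat_lit 91) (.e (nat_lit 90172) (nat_lit 14) (.e (nat_lit 180285) (nat_lit 45) (.e (nat_lit 2569) (nat_lit 160) .nil)))) .nil))) (.nd (nat_lit 5) 
(.lf (nat_lit 39959) (.g (nat_lit 2909) (.e (nat_lit 1228) (nat_lit 91) (.e (nat_lit 90172) (nat_lit 14) (.e (nat_lit 180250) (nat_lit 10) (.e (nat_lit 573489) (nat_lit 14) (.e (nat_lit 73755) (nat_lit 8) (.e (nat_lit 557089) (nat_lit 12) (.e (nat_lit 164006) (nat_lit 41) (.e (nat_lit 671488) (nat_lit 0) .nil)))))))) (.g (nat_lit 4) .nil .nil))) 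
(.lf (nat_lit 39991) (.g (nat_lit 1261) (.e (nat_lit 1228) (nat_lit 91) (.e (nat_lit 90172) (nat_lit 14) (.e (nat_lit 180285) (nat_lit 45) (.e (nat_lit 2571) (nat_lit 160) (.e (nat_lit 32807) (nat_lit 18) (.e (nat_lit 172036) (nat_lit 0) (.e (nat_lit 7936) (nat_lit 402) .nil))))))) (.g (nat_lit 6) .nil .nil))))) (.nd (nat_lit 4) (.nd (nat_lit 5) 
(.lf (nat_lit 39951) (.g (nat_lit 1197) (.e (nat_lit 1228) (nat_lit 91) (.e (nat_lit 90160) (nat_lit 11) (.e (nat_lit 24643) (nat_lit 11) (.e (nat_lit 368676) (nat_lit 21) .nil)))) .nil)) 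
(.lf (nat_lit 39983) (.g (nat_lit 1339) (.e (nat_lit 1228) (nat_lit 91) (.e (nat_lit 90172) (nat_lit 14) (.e (nat_lit 180285) (nat_lit 45) (.e (nat_lit 2570) (nat_lit 160) (.e (nat_lit 32807) (nat_lit 18) (.e (nat_lit 172035) (nat_lit 0) (.e (nat_lit 7936) (nat_lit 402) .nil))))))) (.g (nat_lit 6) .nil .nil)))) (.nd (nat_lit 5) 
(.lf (nat_lit 39967) (.g (nat_lit 2348) (.e (nat_lit 1228) (nat_lit 91) (.e (nat_lit 90172) (nat_lit 14) (.e (nat_lit 180278) (nat_lit 32) (.e (nat_lit 1253) (nat_lit 92) (.e (nat_lit 98367) (nat_lit 27) (.e (nat_lit 442112) (nat_lit 0) .nil)))))) (.g (nat_lit 5) .nil .nil))) 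
(.lf (nat_lit 39999) (.g (nat_lit 2177) (.e (nat_lit 1228) (nat_lit 91) (.e (nat_lit 90174) (nat_lit 14) (.e (nat_lit 180250) (nat_lit 10) (.e (nat_lit 573487) (nat_lit 14) (.e (nat_lit 73753) (nat_lit 8) (.e (nat_lit 557089) (nat_lit 12) (.e (nat_lit 164007) (nat_lit 41) (.e (nat_lit 663560) (nat_lit 0) .nil)))))))) (.g (nat_lit 4) .nil .nil)))))))))

noncomputable def tv554 : DT := (.nd (nat_lit 0) (.nd (nat_lit 1) (.nd (nat_lit 2) (.nd (nat_lit 3) (.nd (nat_lit 4) (.nd (nat_lit 5) 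
(.lf (nat_lit 40000) (.g (nat_lit 2203) (.e (nat_lit 1228) (nat_lit 91) (.e (nat_lit 90174) (nat_lit 14) (.e (nat_lit 180250) (nat_lit 10) (.e (nat_lit 573487) (nat_lit 14) (.e (nat_lit 73753) (nat_lit 8) (.e (nat_lit 557089) (nat_lit 12) (.e (nat_lit 164007) (nat_lit 41) (.e (nat_lit 671488) (nat_lit 0) .nil)))))))) (.g (nat_lit 4) .nil .nil))) 
(.lf (nat_lit 40032) (.g (nat_lit 2185) (.e (nat_lit 1228) (nat_lit 91) (.e (nat_lit 90176) (nat_lit 15) (.e (nat_lit 188439) (nat_lit 20) (.e (nat_lit 3272) (nat_lit 199) (.e (nat_lit 548913) (nat_lit 18) (.e (nat_lit 172036) (nat_lit 0) (.e (nat_lit 7936) (nat_lit 402) .nil))))))) (.g (nat_lit 6) .nil .nil)))) (.nd (nat_lit 5) 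
(.lf (nat_lit 40016) (.g (nat_lit 910) (.e (nat_lit 1228) (nat_lit 91) (.e (nat_lit 90176) (nat_lit 15) (.e (nat_lit 188439) (nat_lit 20) (.e (nat_lit 3270) (nat_lit 199) (.e (nat_lit 548914) (nat_lit 19) (.e (nat_lit 188160) (nat_lit 32) .nil)))))) (.g (nat_lit 4) .nil .nil))) 
(.lf (nat_lit 40048) (.g (nat_lit 2245) (.e (nat_lit 1228) (nat_lit 91) (.e (nat_lit 90176) (nat_lit 15) (.e (nat_lit 188450) (nat_lit 23) (.e (nat_lit 204821) (nat_lit 17) (.e (nat_lit 6114) (nat_lit 332) (.e (nat_lit 972) (nat_lit 81) (.e (nat_lit 5345) (nat_lit 298) .nil))))))) (.g (nat_lit 6) .nil .nil))))) (.nd (nat_lit 4) (.nd (nat_lit 5) 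
(.lf (nat_lit 40008) (.g (nat_lit 1585) (.e (nat_lit 1228) (nat_lit 91) (.e (nat_lit 90176) (nat_lit 15) (.e (nat_lit 196352) (nat_lit 0) (.e (nat_lit 1849) (nat_lit 124) (.e (nat_lit 557104) (nat_lit 14) (.e (nat_lit 188160) (nat_lit 32) .nil)))))) (.g (nat_lit 5) .nil .nil))) 
(.lf (nat_lit 40040) (.g (nat_lit 1611) (.e (nat_lit 1228) (nat_lit 91) (.e (nat_lit 90176) (nat_lit 15) (.e (nat_lit 188447) (nat_lit 22) (.e (nat_lit 196661) (nat_lit 12) (.e (nat_lit 57721) (nat_lit 177) (.e (nat_lit 65280) (nat_lit 270) .nil)))))) (.g (nat_lit 5) .nil .nil)))) (.nd (nat_lit 5) 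
(.lf (nat_lit 40024) (.g (nat_lit 1185) (.e (nat_lit 1228) (nat_lit 91) (.e (nat_lit 90176) (nat_lit 15) (.e (nat_lit 188439) (nat_lit 20) (.e (nat_lit 3271) (nat_lit 199) (.e (nat_lit 548914) (nat_lit 19) (.e (nat_lit 188160) (nat_lit 32) .nil)))))) (.g (nat_lit 5) .nil .nil))) 
(.lf (nat_lit 40056) (.g (nat_lit 2697) (.e (nat_lit 1228) (nat_lit 91) (.e (nat_lit 90176) (nat_lit 15) (.e (nat_lit 188450) (nat_lit 23) (.e (nat_lit 204846) (nat_lit 24) (.e (nat_lit 319502) (nat_lit 10) (.e (nat_lit 7936) (nat_lit 298) .nil)))))) (.g (nat_lit 5) .nil .nil)))))) (.nd (nat_lit 3) (.nd (nat_lit 4) (.nd (nat_lit 5) 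
(.lf (nat_lit 40004) (.g (nat_lit 2815) (.e (nat_lit 1228) (nat_lit 91) (.e (nat_lit 90174) (nat_lit 14) (.e (nat_lit 180252) (nat_lit 10) (.e (nat_lit 573489) (nat_lit 14) (.e (nat_lit 73755) (nat_lit 8) (.e (nat_lit 557090) (nat_lit 12) (.e (nat_lit 164006) (nat_lit 41) (.e (nat_lit 671488) (nat_lit 0) .nil)))))))) (.g (nat_lit 4) .nil .nil))) 
(.lf (nat_lit 40036) (.g (nat_lit 1585) (.e (nat_lit 1228) (nat_lit 91) (.e (nat_lit 90176) (nat_lit 15) (.e (nat_lit 188439) (nat_lit 20) (.e (nat_lit 3272) (nat_lit 199) (.e (nat_lit 548914) (nat_lit 19) (.e (nat_lit 188160) (nat_lit 32) .nil)))))) (.g (nat_lit 5) .nil .nil)))) (.nd (nat_lit 5) 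
(.lf (nat_lit 40020) (.g (nat_lit 1957) (.e (nat_lit 1228) (nat_lit 91) (.e (nat_lit 90176) (nat_lit 15) (.e (nat_lit 188439) (nat_lit 20) (.e (nat_lit 3271) (nat_lit 199) (.e (nat_lit 548913) (nat_lit 18) (.e (nat_lit 172035) (nat_lit 0) (.e (nat_lit 7936) (nat_lit 402) .nil))))))) (.g (nat_lit 6) .nil .nil))) 
(.lf (nat_lit 40052) (.g (nat_lit 2395) (.e (nat_lit 1228) (nat_lit 91) (.e (nat_lit 90176) (nat_lit 15) (.e (nat_lit 188450) (nat_lit 23) (.e (nat_lit 204845) (nat_lit 24) (.e (nat_lit 319498) (nat_lit 10) .nil))))) .nil)))) (.nd (nat_lit 4) (.nd (nat_lit 5) 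
(.lf (nat_lit 40012) (.g (nat_lit 2715) (.e (nat_lit 1228) (nat_lit 91) (.e (nat_lit 90176) (nat_lit 15) (.e (nat_lit 188439) (nat_lit 20) (.e (nat_lit 3270) (nat_lit 199) (.e (nat_lit 548913) (nat_lit 18) (.e (nat_lit 172033) (nat_lit 0) (.e (nat_lit 7545) (nat_lit 402) .nil))))))) (.g (nat_lit 0) .nil .nil))) 
(.lf (nat_lit 40044) (.g (nat_lit 1724) (.e (nat_lit 1228) (nat_lit 91) (.e (nat_lit 90176) (nat_lit 15) (.e (nat_lit 188450) (nat_lit 23) (.e (nat_lit 204819) (nat_lit 17) (.e (nat_lit 6113) (nat_lit 332) .nil))))) .nil))) (.nd (nat_lit 5) 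
(.lf (nat_lit 40028) (.g (nat_lit 2972) (.e (nat_lit 1228) (nat_lit 91) (.e (nat_lit 90176) (nat_lit 15) (.e (nat_lit 188439) (nat_lit 20) (.e (nat_lit 3272) (nat_lit 199) (.e (nat_lit 548913) (nat_lit 18) (.e (nat_lit 172033) (nat_lit 0) (.e (nat_lit 7545) (nat_lit 402) .nil))))))) (.g (nat_lit 0) .nil .nil))) 
(.lf (nat_lit 40060) (.g (nat_lit 1140) (.e (nat_lit 1228) (nat_lit 91) (.e (nat_lit 90176) (nat_lit 15) (.e (nat_lit 188450) (nat_lit 23) (.e (nat_lit 204848) (nat_lit 25) .nil)))) .nil)))))) (.nd (nat_lit 2) (.nd (nat_lit 3) (.nd (nat_lit 4) (.nd (nat_lit 5) 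
(.lf (nat_lit 40002) (.g (nat_lit 4123) (.e (nat_lit 1228) (nat_lit 91) (.e (nat_lit 90174) (nat_lit 14) (.e (nat_lit 180251) (nat_lit 10) (.e (nat_lit 573489) (nat_lit 14) (.e (nat_lit 73755) (nat_lit 8) (.e (nat_lit 557090) (nat_lit 12) (.e (nat_lit 164006) (nat_lit 41) (.e (nat_lit 671488) (nat_lit 0) .nil)))))))) (.g (nat_lit 5) .nil .nil))) 
(.lf (nat_lit 40034) (.g (nat_lit 2336) (.e (nat_lit 1228) (nat_lit 91) (.e (nat_lit 90176) (nat_lit 15) (.e (nat_lit 188439) (nat_lit 20) (.e (nat_lit 3272) (nat_lit 199) (.e (nat_lit 548913) (nat_lit 18) (.e (nat_lit 172039) (nat_lit 0) (.e (nat_lit 7936) (nat_lit 402) .nil))))))) (.g (nat_lit 6) .nil .nil)))) (.nd (nat_lit 5) 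
(.lf (nat_lit 40018) (.g (nat_lit 2457) (.e (nat_lit 1228) (nat_lit 91) (.e (nat_lit 90176) (nat_lit 15) (.e (nat_lit 188439) (nat_lit 20) (.e (nat_lit 3271) (nat_lit 199) (.e (nat_lit 548913) (nat_lit 18) (.e (nat_lit 172033) (nat_lit 0) (.e (nat_lit 7545) (nat_lit 402) .nil))))))) (.g (nat_lit 0) .nil .nil))) 
(.lf (nat_lit 40050) (.g (nat_lit 2152) (.e (nat_lit 1228) (nat_lit 91) (.e (nat_lit 90176) (nat_lit 15) (.e (nat_lit 188450) (nat_lit 23) (.e (nat_lit 204821) (nat_lit 17) (.e (nat_lit 6114) (nat_lit 332) (.e (nat_lit 973) (nat_lit 81) (.e (nat_lit 7936) (nat_lit 298) .nil))))))) (.g (nat_lit 6) .nil .nil))))) (.nd (nat_lit 4) (.nd (nat_lit 5) 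
(.lf (nat_lit 40010) (.g (nat_lit 325) (.e (nat_lit 1228) (nat_lit 91) (.e (nat_lit 90176) (nat_lit 15) (.e (nat_lit 188439) (nat_lit 20) .nil))) .nil)) 
(.lf (nat_lit 40042) (.g (nat_lit 2044) (.e (nat_lit 1228) (nat_lit 91) (.e (nat_lit 90176) (nat_lit 15) (.e (nat_lit 188447) (nat_lit 22) (.e (nat_lit 196666) (nat_lit 13) (.e (nat_lit 65546) (nat_lit 0) .nil))))) .nil))) (.nd (nat_lit 5) 
(.lf (nat_lit 40026) (.g (nat_lit 1185) (.e (nat_lit 1228) (nat_lit 91) (.e (nat_lit 90176) (nat_lit 15) (.e (nat_lit 188439) (nat_lit 20) (.e (nat_lit 3272) (nat_lit 199) (.e (nat_lit 556800) (nat_lit 14) (.e (nat_lit 2936) (nat_lit 184) (.e (nat_lit 425984) (nat_lit 0) (.e (nat_lit 7545) (nat_lit 402) .nil)))))))) (.g (nat_lit 4) .nil .nil))) 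
(.lf (nat_lit 40058) (.g (nat_lit 2299) (.e (nat_lit 1228) (nat_lit 91) (.e (nat_lit 90176) (nat_lit 15) (.e (nat_lit 188450) (nat_lit 23) (.e (nat_lit 204846) (nat_lit 24) (.e (nat_lit 319506) (nat_lit 10) (.e (nat_lit 7936) (nat_lit 298) .nil)))))) (.g (nat_lit 5) .nil .nil)))))) (.nd (nat_lit 3) (.nd (nat_lit 4) (.nd (nat_lit 5) 
(.lf (nat_lit 40006) (.g (nat_lit 1980) (.e (nat_lit 1228) (nat_lit 91) (.e (nat_lit 90176) (nat_lit 15) (.e (nat_lit 188420) (nat_lit 0) (.e (nat_lit 1856) (nat_lit 124) (.e (nat_lit 557105) (nat_lit 14) (.e (nat_lit 188160) (nat_lit 32) .nil)))))) (.g (nat_lit 5) .nil .nil))) 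
(.lf (nat_lit 40038) (.g (nat_lit 1969) (.e (nat_lit 1228) (nat_lit 91) (.e (nat_lit 90176) (nat_lit 15) (.e (nat_lit 188447) (nat_lit 22) (.e (nat_lit 196661) (nat_lit 12) (.e (nat_lit 57712) (nat_lit 176) (.e (nat_lit 970) (nat_lit 81) (.e (nat_lit 7936) (nat_lit 298) .nil))))))) (.g (nat_lit 6) .nil .nil)))) (.nd (nat_lit 5) 
(.lf (nat_lit 40022) (.g (nat_lit 2505) (.e (nat_lit 1228) (nat_lit 91) (.e (nat_lit 90176) (nat_lit 15) (.e (nat_lit 188439) (nat_lit 20) (.e (nat_lit 3271) (nat_lit 199) (.e (nat_lit 548913) (nat_lit 18) (.e (nat_lit 172041) (nat_lit 0) (.e (nat_lit 7540) (nat_lit 402) .nil))))))) (.g (nat_lit 7) .nil .nil))) 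
(.lf (nat_lit 40054) (.g (nat_lit 2446) (.e (nat_lit 1228) (nat_lit 91) (.e (nat_lit 90176) (nat_lit 15) (.e (nat_lit 188450) (nat_lit 23) (.e (nat_lit 204845) (nat_lit 24) (.e (nat_lit 319505) (nat_lit 10) .nil))))) .nil)))) (.nd (nat_lit 4) (.nd (nat_lit 5) 
(.lf (nat_lit 40014) (.g (nat_lit 1953) (.e (nat_lit 1228) (nat_lit 91) (.e (nat_lit 90176) (nat_lit 15) (.e (nat_lit 188439) (nat_lit 20) (.e (nat_lit 3270) (nat_lit 199) (.e (nat_lit 548913) (nat_lit 18) (.e (nat_lit 172034) (nat_lit 0) (.e (nat_lit 7545) (nat_lit 402) .nil))))))) (.g (nat_lit 6) .nil .nil))) 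
(.lf (nat_lit 40046) (.g (nat_lit 988) (.e (nat_lit 1228) (nat_lit 91) (.e (nat_lit 90176) (nat_lit 15) (.e (nat_lit 188450) (nat_lit 23) (.e (nat_lit 204821) (nat_lit 17) .nil)))) .nil))) (.nd (nat_lit 5) 
(.lf (nat_lit 40030) (.g (nat_lit 2153) (.e (nat_lit 1228) (nat_lit 91) (.e (nat_lit 90176) (nat_lit 15) (.e (nat_lit 188439) (nat_lit 20) (.e (nat_lit 3272) (nat_lit 199) (.e (nat_lit 548913) (nat_lit 18) (.e (nat_lit 172034) (nat_lit 0) (.e (nat_lit 7936) (nat_lit 402) .nil))))))) (.g (nat_lit 6) .nil .nil))) 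
(.lf (nat_lit 40062) (.g (nat_lit 1276) (.e (nat_lit 1228) (nat_lit 91) (.e (nat_lit 90176) (nat_lit 15) (.e (nat_lit 188450) (nat_lit 23) (.e (nat_lit 204848) (nat_lit 25) (.e (nat_lit 327705) (nat_lit 10) .nil))))) .nil))))))) (.nd (nat_lit 1) (.nd (nat_lit 2) (.nd (nat_lit 3) (.nd (nat_lit 4) (.nd (nat_lit 5) 
(.lf (nat_lit 40001) (.g (nat_lit 3280) (.e (nat_lit 1228) (nat_lit 91) (.e (nat_lit 90174) (nat_lit 14) (.e (nat_lit 180250) (nat_lit 10) (.e (nat_lit 573489) (nat_lit 14) (.e (nat_lit 73755) (nat_lit 8) (.e (nat_lit 557090) (nat_lit 12) (.e (nat_lit 164007) (nat_lit 41) (.e (nat_lit 663560) (nat_lit 0) .nil)))))))) (.g (nat_lit 5) .nil .nil))) 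
(.lf (nat_lit 40033) (.g (nat_lit 2027) (.e (nat_lit 1228) (nat_lit 91) (.e (nat_lit 90176) (nat_lit 15) (.e (nat_lit 188439) (nat_lit 20) (.e (nat_lit 3272) (nat_lit 199) (.e (nat_lit 548913) (nat_lit 18) (.e (nat_lit 172038) (nat_lit 0) (.e (nat_lit 7936) (nat_lit 402) .nil))))))) (.g (nat_lit 5) .nil .nil)))) (.nd (nat_lit 5) 
(.lf (nat_lit 40017) (.g (nat_lit 1611) (.e (nat_lit 1228) (nat_lit 91) (.e (nat_lit 90176) (nat_lit 15) (.e (nat_lit 188439) (nat_lit 20) (.e (nat_lit 3271) (nat_lit 199) (.e (nat_lit 548913) (nat_lit 18) (.e (nat_lit 172032) (nat_lit 0) (.e (nat_lit 7545) (nat_lit 402) .nil))))))) (.g (nat_lit 5) .nil .nil))) 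
(.lf (nat_lit 40049) (.g (nat_lit 1383) (.e (nat_lit 1228) (nat_lit 91) (.e (nat_lit 90176) (nat_lit 15) (.e (nat_lit 188450) (nat_lit 23) (.e (nat_lit 204821) (nat_lit 17) (.e (nat_lit 6114) (nat_lit 332) (.e (nat_lit 972) (nat_lit 81) (.e (nat_lit 7936) (nat_lit 298) .nil))))))) (.g (nat_lit 4) .nil .nil))))) (.nd (nat_lit 4) (.nd (nat_lit 5) 
(.lf (nat_lit 40009) (.g (nat_lit 2184) (.e (nat_lit 1228) (nat_lit 91) (.e (nat_lit 90176) (nat_lit 15) (.e (nat_lit 196352) (nat_lit 0) (.e (nat_lit 1853) (nat_lit 124) (.e (nat_lit 557104) (nat_lit 14) (.e (nat_lit 188160) (nat_lit 32) .nil)))))) (.g (nat_lit 5) .nil .nil))) 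
(.lf (nat_lit 40041) (.g (nat_lit 1657) (.e (nat_lit 1228) (nat_lit 91) (.e (nat_lit 90176) (nat_lit 15) (.e (nat_lit 188447) (nat_lit 22) (.e (nat_lit 196661) (nat_lit 12) (.e (nat_lit 57722) (nat_lit 178) (.e (nat_lit 130816) (nat_lit 270) .nil)))))) (.g (nat_lit 5) .nil .nil)))) (.nd (nat_lit 5) 
(.lf (nat_lit 40025) (.g (nat_lit 1066) (.e (nat_lit 1228) (nat_lit 91) (.e (nat_lit 90176) (nat_lit 15) (.e (nat_lit 188439) (nat_lit 20) (.e (nat_lit 3272) (nat_lit 199) (.e (nat_lit 548897) (nat_lit 14) .nil))))) .nil)) 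
(.lf (nat_lit 40057) (.g (nat_lit 4068) (.e (nat_lit 1228) (nat_lit 91) (.e (nat_lit 90176) (nat_lit 15) (.e (nat_lit 188450) (nat_lit 23) (.e (nat_lit 204846) (nat_lit 24) (.e (nat_lit 319504) (nat_lit 10) (.e (nat_lit 7936) (nat_lit 298) .nil)))))) (.g (nat_lit 5) .nil .nil)))))) (.nd (nat_lit 3) (.nd (nat_lit 4) (.nd (nat_lit 5) 
(.lf (nat_lit 40005) (.g (nat_lit 1847) (.e (nat_lit 1228) (nat_lit 91) (.e (nat_lit 90176) (nat_lit 15) (.e (nat_lit 188420) (nat_lit 0) (.e (nat_lit 1856) (nat_lit 124) (.e (nat_lit 557103) (nat_lit 14) (.e (nat_lit 188160) (nat_lit 32) .nil)))))) (.g (nat_lit 5) .nil .nil))) 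
(.lf (nat_lit 40037) (.g (nat_lit 1114) (.e (nat_lit 1228) (nat_lit 91) (.e (nat_lit 90176) (nat_lit 15) (.e (nat_lit 188447) (nat_lit 22) (.e (nat_lit 196661) (nat_lit 12) .nil)))) .nil))) (.nd (nat_lit 5) 
(.lf (nat_lit 40021) (.g (nat_lit 1537) (.e (nat_lit 1228) (nat_lit 91) (.e (nat_lit 90176) (nat_lit 15) (.e (nat_lit 188439) (nat_lit 20) (.e (nat_lit 3271) (nat_lit 199) (.e (nat_lit 548913) (nat_lit 18) (.e (nat_lit 172039) (nat_lit 0) (.e (nat_lit 7936) (nat_lit 402) .nil))))))) (.g (nat_lit 6) .nil .nil))) 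
(.lf (nat_lit 40053) (.g (nat_lit 2586) (.e (nat_lit 1228) (nat_lit 91) (.e (nat_lit 90176) (nat_lit 15) (.e (nat_lit 188450) (nat_lit 23) (.e (nat_lit 204845) (nat_lit 24) (.e (nat_lit 319500) (nat_lit 10) .nil))))) .nil)))) (.nd (nat_lit 4) (.nd (nat_lit 5) 
(.lf (nat_lit 40013) (.g (nat_lit 1607) (.e (nat_lit 1228) (nat_lit 91) (.e (nat_lit 90176) (nat_lit 15) (.e (nat_lit 188439) (nat_lit 20) (.e (nat_lit 3270) (nat_lit 199) (.e (nat_lit 548913) (nat_lit 18) (.e (nat_lit 172034) (nat_lit 0) (.e (nat_lit 7541) (nat_lit 402) .nil))))))) (.g (nat_lit 5) .nil .nil))) 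
(.lf (nat_lit 40045) (.g (nat_lit 1907) (.e (nat_lit 1228) (nat_lit 91) (.e (nat_lit 90176) (nat_lit 15) (.e (nat_lit 188450) (nat_lit 23) (.e (nat_lit 204819) (nat_lit 17) (.e (nat_lit 6225) (nat_lit 334) (.e (nat_lit 130816) (nat_lit 270) .nil)))))) (.g (nat_lit 5) .nil .nil)))) (.nd (nat_lit 5) 
(.lf (nat_lit 40029) (.g (nat_lit 2658) (.e (nat_lit 1228) (nat_lit 91) (.e (nat_lit 90176) (nat_lit 15) (.e (nat_lit 188439) (nat_lit 20) (.e (nat_lit 3272) (nat_lit 199) (.e (nat_lit 548913) (nat_lit 18) (.e (nat_lit 172034) (nat_lit 0) (.e (nat_lit 7545) (nat_lit 402) .nil))))))) (.g (nat_lit 0) .nil .nil))) 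
(.lf (nat_lit 40061) (.g (nat_lit 1515) (.e (nat_lit 1228) (nat_lit 91) (.e (nat_lit 90176) (nat_lit 15) (.e (nat_lit 188450) (nat_lit 23) (.e (nat_lit 204848) (nat_lit 25) (.e (nat_lit 327702) (nat_lit 10) (.e (nat_lit 7936) (nat_lit 298) .nil)))))) (.g (nat_lit 4) .nil .nil))))))) (.nd (nat_lit 2) (.nd (nat_lit 3) (.nd (nat_lit 4) (.nd (nat_lit 5) 
(.lf (nat_lit 40003) (.g (nat_lit 4203) (.e (nat_lit 1228) (nat_lit 91) (.e (nat_lit 90174) (nat_lit 14) (.e (nat_lit 180251) (nat_lit 10) (.e (nat_lit 573489) (nat_lit 14) (.e (nat_lit 73755) (nat_lit 8) (.e (nat_lit 557091) (nat_lit 12) (.e (nat_lit 164006) (nat_lit 41) (.e (nat_lit 671488) (nat_lit 0) .nil)))))))) (.g (nat_lit 7) .nil .nil))) 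
(.lf (nat_lit 40035) (.g (nat_lit 2314) (.e (nat_lit 1228) (nat_lit 91) (.e (nat_lit 90176) (nat_lit 15) (.e (nat_lit 188439) (nat_lit 20) (.e (nat_lit 3272) (nat_lit 199) (.e (nat_lit 548913) (nat_lit 18) (.e (nat_lit 172049) (nat_lit 0) (.e (nat_lit 7936) (nat_lit 402) .nil))))))) (.g (nat_lit 6) .nil .nil)))) (.nd (nat_lit 5) 
(.lf (nat_lit 40019) (.g (nat_lit 1472) (.e (nat_lit 1228) (nat_lit 91) (.e (nat_lit 90176) (nat_lit 15) (.e (nat_lit 188439) (nat_lit 20) (.e (nat_lit 3271) (nat_lit 199) (.e (nat_lit 548913) (nat_lit 18) (.e (nat_lit 172034) (nat_lit 0) (.e (nat_lit 7541) (nat_lit 402) .nil))))))) (.g (nat_lit 5) .nil .nil))) 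
(.lf (nat_lit 40051) (.g (nat_lit 1593) (.e (nat_lit 1228) (nat_lit 91) (.e (nat_lit 90176) (nat_lit 15) (.e (nat_lit 188450) (nat_lit 23) (.e (nat_lit 204821) (nat_lit 17) (.e (nat_lit 6206) (nat_lit 333) (.e (nat_lit 65280) (nat_lit 270) .nil)))))) (.g (nat_lit 5) .nil .nil))))) (.nd (nat_lit 4) (.nd (nat_lit 5) 
(.lf (nat_lit 40011) (.g (nat_lit 1594) (.e (nat_lit 1228) (nat_lit 91) (.e (nat_lit 90176) (nat_lit 15) (.e (nat_lit 188439) (nat_lit 20) (.e (nat_lit 3270) (nat_lit 199) (.e (nat_lit 548913) (nat_lit 18) (.e (nat_lit 172032) (nat_lit 0) (.e (nat_lit 7545) (nat_lit 402) .nil))))))) (.g (nat_lit 5) .nil .nil))) 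
(.lf (nat_lit 40043) (.g (nat_lit 1998) (.e (nat_lit 1228) (nat_lit 91) (.e (nat_lit 90176) (nat_lit 15) (.e (nat_lit 188450) (nat_lit 23) (.e (nat_lit 204819) (nat_lit 17) (.e (nat_lit 6109) (nat_lit 332) (.e (nat_lit 1004) (nat_lit 81) (.e (nat_lit 7936) (nat_lit 298) .nil))))))) (.g (nat_lit 5) .nil .nil)))) (.nd (nat_lit 5) 
(.lf (nat_lit 40027) (.g (nat_lit 2576) (.e (nat_lit 1228) (nat_lit 91) (.e (nat_lit 90176) (nat_lit 15) (.e (nat_lit 188439) (nat_lit 20) (.e (nat_lit 3272) (nat_lit 199) (.e (nat_lit 548913) (nat_lit 18) (.e (nat_lit 172032) (nat_lit 0) (.e (nat_lit 7545) (nat_lit 402) .nil))))))) (.g (nat_lit 6) .nil .nil))) 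
(.lf (nat_lit 40059) (.g (nat_lit 2036) (.e (nat_lit 1228) (nat_lit 91) (.e (nat_lit 90176) (nat_lit 15) (.e (nat_lit 188450) (nat_lit 23) (.e (nat_lit 204846) (nat_lit 24) (.e (nat_lit 327424) (nat_lit 10) .nil))))) .nil))))) (.nd (nat_lit 3) (.nd (nat_lit 4) (.nd (nat_lit 5) 
(.lf (nat_lit 40007) (.g (nat_lit 1805) (.e (nat_lit 1228) (nat_lit 91) (.e (nat_lit 90176) (nat_lit 15) (.e (nat_lit 196352) (nat_lit 0) (.e (nat_lit 1848) (nat_lit 124) (.e (nat_lit 557104) (nat_lit 14) (.e (nat_lit 188160) (nat_lit 32) .nil)))))) (.g (nat_lit 5) .nil .nil))) 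
(.lf (nat_lit 40039) (.g (nat_lit 1771) (.e (nat_lit 1228) (nat_lit 91) (.e (nat_lit 90176) (nat_lit 15) (.e (nat_lit 188447) (nat_lit 22) (.e (nat_lit 196661) (nat_lit 12) (.e (nat_lit 57712) (nat_lit 176) (.e (nat_lit 973) (nat_lit 81) (.e (nat_lit 7936) (nat_lit 298) .nil))))))) (.g (nat_lit 6) .nil .nil)))) (.nd (nat_lit 5) 
(.lf (nat_lit 40023) (.g (nat_lit 1411) (.e (nat_lit 1228) (nat_lit 91) (.e (nat_lit 90176) (nat_lit 15) (.e (nat_lit 188439) (nat_lit 20) (.e (nat_lit 3271) (nat_lit 199) (.e (nat_lit 548913) (nat_lit 18) (.e (nat_lit 172041) (nat_lit 0) (.e (nat_lit 7936) (nat_lit 402) .nil))))))) (.g (nat_lit 5) .nil .nil))) 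
(.lf (nat_lit 40055) (.g (nat_lit 3444) (.e (nat_lit 1228) (nat_lit 91) (.e (nat_lit 90176) (nat_lit 15) (.e (nat_lit 188450) (nat_lit 23) (.e (nat_lit 204846) (nat_lit 24) (.e (nat_lit 319500) (nat_lit 10) .nil))))) .nil)))) (.nd (nat_lit 4) (.nd (nat_lit 5) 
(.lf (nat_lit 40015) (.g (nat_lit 1520) (.e (nat_lit 1228) (nat_lit 91) (.e (nat_lit 90176) (nat_lit 15) (.e (nat_lit 188439) (nat_lit 20) (.e (nat_lit 3270) (nat_lit 199) (.e (nat_lit 548913) (nat_lit 18) (.e (nat_lit 172039) (nat_lit 0) (.e (nat_lit 7936) (nat_lit 402) .nil))))))) (.g (nat_lit 5) .nil .nil))) 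
(.lf (nat_lit 40047) (.g (nat_lit 1366) (.e (nat_lit 1228) (nat_lit 91) (.e (nat_lit 90176) (nat_lit 15) (.e (nat_lit 188450) (nat_lit 23) (.e (nat_lit 204821) (nat_lit 17) (.e (nat_lit 6114) (nat_lit 332) .nil))))) .nil))) (.nd (nat_lit 5) 
(.lf (nat_lit 40031) (.g (nat_lit 2878) (.e (nat_lit 1228) (nat_lit 91) (.e (nat_lit 90176) (nat_lit 15) (.e (nat_lit 188439) (nat_lit 20) (.e (nat_lit 3272) (nat_lit 199) (.e (nat_lit 548913) (nat_lit 18) (.e (nat_lit 172035) (nat_lit 0) (.e (nat_lit 7936) (nat_lit 402) .nil))))))) (.g (nat_lit 6) .nil .nil))) 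
(.lf (nat_lit 40063) (.g (nat_lit 1141) (.e (nat_lit 1228) (nat_lit 91) (.e (nat_lit 90176) (nat_lit 15) (.e (nat_lit 188450) (nat_lit 23) (.e (nat_lit 204849) (nat_lit 25) .nil)))) .nil))))))))

noncomputable def tv555 : DT := (.nd (nat_lit 0) (.nd (nat_lit 1) (.nd (nat_lit 2) (.nd (nat_lit 3) (.nd (nat_lit 4) (.nd (nat_lit 5) 
(.lf (nat_lit 40064) (.g (nat_lit 1751) (.e (nat_lit 1228) (nat_lit 91) (.e (nat_lit 90176) (nat_lit 15) (.e (nat_lit 188450) (nat_lit 23) (.e (nat_lit 204849) (nat_lit 25) (.e (nat_lit 327702) (nat_lit 10) (.e (nat_lit 7936) (nat_lit 298) .nil)))))) (.g (nat_lit 4) .nil .nil))) 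
(.lf (nat_lit 40096) (.g (nat_lit 1741) (.e (nat_lit 1232) (nat_lit 91) (.e (nat_lit 90160) (nat_lit 11) (.e (nat_lit 24604) (nat_lit 2) (.e (nat_lit 90158) (nat_lit 11) .nil)))) .nil))) (.nd (nat_lit 5) 
(.lf (nat_lit 40080) (.g (nat_lit 653) (.e (nat_lit 1228) (nat_lit 91) (.e (nat_lit 90185) (nat_lit 17) (.e (nat_lit 237605) (nat_lit 9) .nil))) .nil)) 
(.lf (nat_lit 40112) (.g (nat_lit 3337) (.e (nat_lit 1232) (nat_lit 91) (.e (nat_lit 90160) (nat_lit 11) (.e (nat_lit 24638) (nat_lit 9) (.e (nat_lit 336004) (nat_lit 2) (.e (nat_lit 90172) (nat_lit 14) (.e (nat_lit 180225) (nat_lit 0) (.e (nat_lit 5537) (nat_lit 306) (.e (nat_lit 1077) (nat_lit 81) .nil)))))))) (.g (nat_lit 5) .nil .nil))))) (.nd (nat_lit 4) (.nd (nat_lit 5) 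
(.lf (nat_lit 40072) (.g (nat_lit 2149) (.e (nat_lit 1228) (nat_lit 91) (.e (nat_lit 90176) (nat_lit 15) (.e (nat_lit 188450) (nat_lit 23) (.e (nat_lit 204885) (nat_lit 33) (.e (nat_lit 401414) (nat_lit 0) (.e (nat_lit 7936) (nat_lit 402) .nil)))))) (.g (nat_lit 5) .nil .nil))) 
(.lf (nat_lit 40104) (.g (nat_lit 3777) (.e (nat_lit 1232) (nat_lit 91) (.e (nat_lit 90160) (nat_lit 11) (.e (nat_lit 24628) (nat_lit 9) (.e (nat_lit 336019) (nat_lit 3) (.e (nat_lit 98384) (nat_lit 32) (.e (nat_lit 475205) (nat_lit 40) (.e (nat_lit 704606) (nat_lit 9) .nil))))))) (.g (nat_lit 7) .nil .nil)))) (.nd (nat_lit 5) 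
(.lf (nat_lit 40088) (.g (nat_lit 2170) (.e (nat_lit 1230) (nat_lit 91) (.e (nat_lit 90160) (nat_lit 11) (.e (nat_lit 24628) (nat_lit 9) (.e (nat_lit 336019) (nat_lit 3) (.e (nat_lit 98384) (nat_lit 32) .nil))))) .nil)) 
(.lf (nat_lit 40120) (.g (nat_lit 3227) (.e (nat_lit 1232) (nat_lit 91) (.e (nat_lit 90160) (nat_lit 11) (.e (nat_lit 24643) (nat_lit 11) (.e (nat_lit 368676) (nat_lit 21) (.e (nat_lit 516179) (nat_lit 15) (.e (nat_lit 475205) (nat_lit 40) (.e (nat_lit 704606) (nat_lit 9) .nil))))))) (.g (nat_lit 6) .nil .nil)))))) (.nd (nat_lit 3) (.nd (nat_lit 4) (.nd (nat_lit 5) 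
(.lf (nat_lit 40068) (.g (nat_lit 1427) (.e (nat_lit 1228) (nat_lit 91) (.e (nat_lit 90176) (nat_lit 15) (.e (nat_lit 188450) (nat_lit 23) (.e (nat_lit 204863) (nat_lit 27) .nil)))) .nil)) 
(.lf (nat_lit 40100) (.g (nat_lit 3423) (.e (nat_lit 1232) (nat_lit 91) (.e (nat_lit 90160) (nat_lit 11) (.e (nat_lit 24628) (nat_lit 9) (.e (nat_lit 336019) (nat_lit 3) (.e (nat_lit 98384) (nat_lit 32) (.e (nat_lit 475199) (nat_lit 40) (.e (nat_lit 704607) (nat_lit 9) .nil))))))) (.g (nat_lit 6) .nil .nil)))) (.nd (nat_lit 5) 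
(.lf (nat_lit 40084) (.g (nat_lit 627) (.e (nat_lit 1228) (nat_lit 91) (.e (nat_lit 90185) (nat_lit 17) (.e (nat_lit 237624) (nat_lit 13) .nil))) .nil)) 
(.lf (nat_lit 40116) (.g (nat_lit 4410) (.e (nat_lit 1232) (nat_lit 91) (.e (nat_lit 90160) (nat_lit 11) (.e (nat_lit 24638) (nat_lit 9) (.e (nat_lit 336012) (nat_lit 2) (.e (nat_lit 90174) (nat_lit 14) (.e (nat_lit 180225) (nat_lit 0) (.e (nat_lit 5537) (nat_lit 306) (.e (nat_lit 1077) (nat_lit 81) .nil)))))))) (.g (nat_lit 6) .nil .nil))))) (.nd (nat_lit 4) (.nd (nat_lit 5) 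
(.lf (nat_lit 40076) (.g (nat_lit 2353) (.e (nat_lit 1228) (nat_lit 91) (.e (nat_lit 90176) (nat_lit 15) (.e (nat_lit 188452) (nat_lit 23) (.e (nat_lit 204885) (nat_lit 33) .nil)))) .nil)) 
(.lf (nat_lit 40108) (.g (nat_lit 1343) (.e (nat_lit 1232) (nat_lit 91) (.e (nat_lit 90160) (nat_lit 11) (.e (nat_lit 24636) (nat_lit 9) (.e (nat_lit 336017) (nat_lit 3) .nil)))) .nil))) (.nd (nat_lit 5) 
(.lf (nat_lit 40092) (.g (nat_lit 2808) (.e (nat_lit 1230) (nat_lit 91) (.e (nat_lit 90177) (nat_lit 15) (.e (nat_lit 188452) (nat_lit 23) (.e (nat_lit 204846) (nat_lit 24) .nil)))) .nil)) 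
(.lf (nat_lit 40124) (.g (nat_lit 1922) (.e (nat_lit 1232) (nat_lit 91) (.e (nat_lit 90160) (nat_lit 11) (.e (nat_lit 24644) (nat_lit 11) (.e (nat_lit 368676) (nat_lit 21) (.e (nat_lit 516179) (nat_lit 15) (.e (nat_lit 475199) (nat_lit 40) (.e (nat_lit 704617) (nat_lit 9) .nil))))))) (.g (nat_lit 4) .nil .nil))))))) (.nd (nat_lit 2) (.nd (nat_lit 3) (.nd (nat_lit 4) (.nd (nat_lit 5) 
(.lf (nat_lit 40066) (.g (nat_lit 2039) (.e (nat_lit 1228) (nat_lit 91) (.e (nat_lit 90176) (nat_lit 15) (.e (nat_lit 188450) (nat_lit 23) (.e (nat_lit 204849) (nat_lit 25) (.e (nat_lit 327705) (nat_lit 10) (.e (nat_lit 7936) (nat_lit 298) .nil)))))) (.g (nat_lit 5) .nil .nil))) 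
(.lf (nat_lit 40098) (.g (nat_lit 646) (.e (nat_lit 1232) (nat_lit 91) (.e (nat_lit 90160) (nat_lit 11) (.e (nat_lit 24628) (nat_lit 9) .nil))) .nil))) (.nd (nat_lit 5) 
(.lf (nat_lit 40082) (.g (nat_lit 565) (.e (nat_lit 1228) (nat_lit 91) (.e (nat_lit 90185) (nat_lit 17) (.e (nat_lit 237621) (nat_lit 13) .nil))) .nil)) 
(.lf (nat_lit 40114) (.g (nat_lit 2167) (.e (nat_lit 1232) (nat_lit 91) (.e (nat_lit 90160) (nat_lit 11) (.e (nat_lit 24638) (nat_lit 9) (.e (nat_lit 336012) (nat_lit 2) (.e (nat_lit 90172) (nat_lit 14) .nil))))) .nil)))) (.nd (nat_lit 4) (.nd (nat_lit 5) 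
(.lf (nat_lit 40074) (.g (nat_lit 4470) (.e (nat_lit 1228) (nat_lit 91) (.e (nat_lit 90176) (nat_lit 15) (.e (nat_lit 188452) (nat_lit 23) (.e (nat_lit 204846) (nat_lit 24) (.e (nat_lit 319504) (nat_lit 10) (.e (nat_lit 7936) (nat_lit 298) .nil)))))) (.g (nat_lit 4) .nil .nil))) 
(.lf (nat_lit 40106) (.g (nat_lit 1881) (.e (nat_lit 1232) (nat_lit 91) (.e (nat_lit 90160) (nat_lit 11) (.e (nat_lit 24628) (nat_lit 9) (.e (nat_lit 336019) (nat_lit 3) (.e (nat_lit 98386) (nat_lit 32) .nil))))) .nil))) (.nd (nat_lit 5) 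
(.lf (nat_lit 40090) (.g (nat_lit 2730) (.e (nat_lit 1230) (nat_lit 91) (.e (nat_lit 90170) (nat_lit 13) (.e (nat_lit 172106) (nat_lit 10) (.e (nat_lit 434231) (nat_lit 23) .nil)))) .nil)) 
(.lf (nat_lit 40122) (.g (nat_lit 1228) (.e (nat_lit 1232) (nat_lit 91) (.e (nat_lit 90160) (nat_lit 11) (.e (nat_lit 24644) (nat_lit 11) (.e (nat_lit 368676) (nat_lit 21) .nil)))) .nil))))) (.nd (nat_lit 3) (.nd (nat_lit 4) (.nd (nat_lit 5) 
(.lf (nat_lit 40070) (.g (nat_lit 2203) (.e (nat_lit 1228) (nat_lit 91) (.e (nat_lit 90176) (nat_lit 15) (.e (nat_lit 188450) (nat_lit 23) (.e (nat_lit 204885) (nat_lit 33) (.e (nat_lit 401408) (nat_lit 0) (.e (nat_lit 7545) (nat_lit 402) .nil)))))) (.g (nat_lit 0) .nil .nil))) 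
(.lf (nat_lit 40102) (.g (nat_lit 3496) (.e (nat_lit 1232) (nat_lit 91) (.e (nat_lit 90160) (nat_lit 11) (.e (nat_lit 24628) (nat_lit 9) (.e (nat_lit 336019) (nat_lit 3) (.e (nat_lit 98384) (nat_lit 32) (.e (nat_lit 475199) (nat_lit 40) (.e (nat_lit 704688) (nat_lit 9) .nil))))))) (.g (nat_lit 6) .nil .nil)))) (.nd (nat_lit 5) 
(.lf (nat_lit 40086) (.g (nat_lit 872) (.e (nat_lit 1229) (nat_lit 91) (.e (nat_lit 90185) (nat_lit 17) (.e (nat_lit 237616) (nat_lit 12) .nil))) .nil)) 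
(.lf (nat_lit 40118) (.g (nat_lit 1729) (.e (nat_lit 1232) (nat_lit 91) (.e (nat_lit 90160) (nat_lit 11) (.e (nat_lit 24643) (nat_lit 11) (.e (nat_lit 368676) (nat_lit 21) (.e (nat_lit 516171) (nat_lit 13) .nil))))) .nil)))) (.nd (nat_lit 4) (.nd (nat_lit 5) 
(.lf (nat_lit 40078) (.g (nat_lit 2097) (.e (nat_lit 1228) (nat_lit 91) (.e (nat_lit 90178) (nat_lit 15) (.e (nat_lit 188440) (nat_lit 20) (.e (nat_lit 3307) (nat_lit 202) (.e (nat_lit 573456) (nat_lit 9) .nil))))) .nil)) 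
(.lf (nat_lit 40110) (.g (nat_lit 1614) (.e (nat_lit 1232) (nat_lit 91) (.e (nat_lit 90160) (nat_lit 11) (.e (nat_lit 24638) (nat_lit 9) (.e (nat_lit 336003) (nat_lit 2) (.e (nat_lit 90172) (nat_lit 14) .nil))))) .nil))) (.nd (nat_lit 5) 
(.lf (nat_lit 40094) (.g (nat_lit 2553) (.e (nat_lit 1231) (nat_lit 91) (.e (nat_lit 90177) (nat_lit 15) (.e (nat_lit 188452) (nat_lit 23) (.e (nat_lit 204846) (nat_lit 24) .nil)))) .nil)) 
(.lf (nat_lit 40126) (.g (nat_lit 3361) (.e (nat_lit 1232) (nat_lit 91) (.e (nat_lit 90160) (nat_lit 11) (.e (nat_lit 24644) (nat_lit 11) (.e (nat_lit 368676) (nat_lit 21) (.e (nat_lit 516179) (nat_lit 15) (.e (nat_lit 475205) (nat_lit 40) (.e (nat_lit 704606) (nat_lit 9) .nil))))))) (.g (nat_lit 6) .nil .nil)))))))) 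
(.nd (nat_lit 1) (.nd (nat_lit 2) (.nd (nat_lit 3) (.nd (nat_lit 4) (.nd (nat_lit 5) 
(.lf (nat_lit 40065) (.g (nat_lit 2623) (.e (nat_lit 1228) (nat_lit 91) (.e (nat_lit 90176) (nat_lit 15) (.e (nat_lit 188450) (nat_lit 23) (.e (nat_lit 204849) (nat_lit 25) (.e (nat_lit 327703) (nat_lit 10) (.e (nat_lit 7936) (nat_lit 298) .nil)))))) (.g (nat_lit 5) .nil .nil))) 
(.lf (nat_lit 40097) (.g (nat_lit 1413) (.e (nat_lit 1232) (nat_lit 91) (.e (nat_lit 90160) (nat_lit 11) (.e (nat_lit 24623) (nat_lit 9) (.e (nat_lit 336028) (nat_lit 3) .nil)))) .nil))) (.nd (nat_lit 5) 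
(.lf (nat_lit 40081) (.g (nat_lit 1110) (.e (nat_lit 1228) (nat_lit 91) (.e (nat_lit 90185) (nat_lit 17) (.e (nat_lit 237620) (nat_lit 13) .nil))) .nil)) 
(.lf (nat_lit 40113) (.g (nat_lit 1236) (.e (nat_lit 1232) (nat_lit 91) (.e (nat_lit 90160) (nat_lit 11) (.e (nat_lit 24638) (nat_lit 9) (.e (nat_lit 336012) (nat_lit 2) .nil)))) .nil)))) (.nd (nat_lit 4) (.nd (nat_lit 5) 
(.lf (nat_lit 40073) (.g (nat_lit 1660) (.e (nat_lit 1228) (nat_lit 91) (.e (nat_lit 90176) (nat_lit 15) (.e (nat_lit 188450) (nat_lit 23) (.e (nat_lit 204885) (nat_lit 33) (.e (nat_lit 401416) (nat_lit 0) .nil))))) .nil)) 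
(.lf (nat_lit 40105) (.g (nat_lit 2127) (.e (nat_lit 1232) (nat_lit 91) (.e (nat_lit 90160) (nat_lit 11) (.e (nat_lit 24628) (nat_lit 9) (.e (nat_lit 336019) (nat_lit 3) (.e (nat_lit 98384) (nat_lit 32) (.e (nat_lit 475205) (nat_lit 40) (.e (nat_lit 704615) (nat_lit 9) .nil))))))) (.g (nat_lit 4) .nil .nil)))) (.nd (nat_lit 5) 
(.lf (nat_lit 40089) (.g (nat_lit 893) (.e (nat_lit 1230) (nat_lit 91) (.e (nat_lit 90160) (nat_lit 11) (.e (nat_lit 24643) (nat_lit 11) .nil))) .nil)) 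
(.lf (nat_lit 40121) (.g (nat_lit 1862) (.e (nat_lit 1232) (nat_lit 91) (.e (nat_lit 90160) (nat_lit 11) (.e (nat_lit 24643) (nat_lit 11) (.e (nat_lit 368676) (nat_lit 21) (.e (nat_lit 516179) (nat_lit 15) (.e (nat_lit 475205) (nat_lit 40) (.e (nat_lit 704613) (nat_lit 9) .nil))))))) (.g (nat_lit 4) .nil .nil)))))) (.nd (nat_lit 3) (.nd (nat_lit 4) (.nd (nat_lit 5) 
(.lf (nat_lit 40069) (.g (nat_lit 1059) (.e (nat_lit 1228) (nat_lit 91) (.e (nat_lit 90176) (nat_lit 15) (.e (nat_lit 188450) (nat_lit 23) (.e (nat_lit 204885) (nat_lit 33) .nil)))) .nil)) 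
(.lf (nat_lit 40101) (.g (nat_lit 3805) (.e (nat_lit 1232) (nat_lit 91) (.e (nat_lit 90160) (nat_lit 11) (.e (nat_lit 24628) (nat_lit 9) (.e (nat_lit 336019) (nat_lit 3) (.e (nat_lit 98384) (nat_lit 32) (.e (nat_lit 475199) (nat_lit 40) (.e (nat_lit 704614) (nat_lit 9) .nil))))))) (.g (nat_lit 7) .nil .nil)))) (.nd (nat_lit 5) 
(.lf (nat_lit 40085) (.g (nat_lit 2712) (.e (nat_lit 1229) (nat_lit 91) (.e (nat_lit 90170) (nat_lit 13) (.e (nat_lit 172106) (nat_lit 10) (.e (nat_lit 434244) (nat_lit 28) .nil)))) .nil)) 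
(.lf (nat_lit 40117) (.g (nat_lit 1115) (.e (nat_lit 1232) (nat_lit 91) (.e (nat_lit 90160) (nat_lit 11) (.e (nat_lit 24643) (nat_lit 11) (.e (nat_lit 368676) (nat_lit 21) .nil)))) .nil)))) (.nd (nat_lit 4) (.nd (nat_lit 5) 
(.lf (nat_lit 40077) (.g (nat_lit 2808) (.e (nat_lit 1228) (nat_lit 91) (.e (nat_lit 90177) (nat_lit 15) (.e (nat_lit 188452) (nat_lit 23) (.e (nat_lit 204846) (nat_lit 24) .nil)))) .nil)) 
(.lf (nat_lit 40109) (.g (nat_lit 684) (.e (nat_lit 1232) (nat_lit 91) (.e (nat_lit 90160) (nat_lit 11) (.e (nat_lit 24638) (nat_lit 9) .nil))) .nil))) (.nd (nat_lit 5) 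
(.lf (nat_lit 40093) (.g (nat_lit 2877) (.e (nat_lit 1231) (nat_lit 91) (.e (nat_lit 90175) (nat_lit 15) (.e (nat_lit 188452) (nat_lit 23) (.e (nat_lit 204846) (nat_lit 24) (.e (nat_lit 319504) (nat_lit 10) .nil))))) .nil)) 
(.lf (nat_lit 40125) (.g (nat_lit 3119) (.e (nat_lit 1232) (nat_lit 91) (.e (nat_lit 90160) (nat_lit 11) (.e (nat_lit 24644) (nat_lit 11) (.e (nat_lit 368676) (nat_lit 21) (.e (nat_lit 516179) (nat_lit 15) (.e (nat_lit 475199) (nat_lit 40) (.e (nat_lit 704700) (nat_lit 9) .nil))))))) (.g (nat_lit 6) .nil .nil))))))) (.nd (nat_lit 2) (.nd (nat_lit 3) (.nd (nat_lit 4) (.nd (nat_lit 5) 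
(.lf (nat_lit 40067) (.g (nat_lit 1713) (.e (nat_lit 1228) (nat_lit 91) (.e (nat_lit 90176) (nat_lit 15) (.e (nat_lit 188450) (nat_lit 23) (.e (nat_lit 204861) (nat_lit 26) .nil)))) .nil)) 
(.lf (nat_lit 40099) (.g (nat_lit 1988) (.e (nat_lit 1232) (nat_lit 91) (.e (nat_lit 90160) (nat_lit 11) (.e (nat_lit 24628) (nat_lit 9) (.e (nat_lit 336019) (nat_lit 3) (.e (nat_lit 98384) (nat_lit 32) (.e (nat_lit 475198) (nat_lit 40) (.e (nat_lit 704700) (nat_lit 9) .nil))))))) (.g (nat_lit 4) .nil .nil)))) (.nd (nat_lit 5) 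
(.lf (nat_lit 40083) (.g (nat_lit 1129) (.e (nat_lit 1228) (nat_lit 91) (.e (nat_lit 90185) (nat_lit 17) (.e (nat_lit 237623) (nat_lit 13) .nil))) .nil)) 
(.lf (nat_lit 40115) (.g (nat_lit 2364) (.e (nat_lit 1232) (nat_lit 91) (.e (nat_lit 90160) (nat_lit 11) (.e (nat_lit 24638) (nat_lit 9) (.e (nat_lit 336012) (nat_lit 2) (.e (nat_lit 90174) (nat_lit 14) (.e (nat_lit 180224) (nat_lit 0) (.e (nat_lit 5537) (nat_lit 306) (.e (nat_lit 1077) (nat_lit 81) .nil)))))))) (.g (nat_lit 4) .nil .nil))))) (.nd (nat_lit 4) (.nd (nat_lit 5) 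
(.lf (nat_lit 40075) (.g (nat_lit 4003) (.e (nat_lit 1228) (nat_lit 91) (.e (nat_lit 90176) (nat_lit 15) (.e (nat_lit 188452) (nat_lit 23) (.e (nat_lit 204846) (nat_lit 24) (.e (nat_lit 319505) (nat_lit 10) .nil))))) .nil)) 
(.lf (nat_lit 40107) (.g (nat_lit 914) (.e (nat_lit 1232) (nat_lit 91) (.e (nat_lit 90160) (nat_lit 11) (.e (nat_lit 24632) (nat_lit 9) .nil))) .nil))) (.nd (nat_lit 5) 
(.lf (nat_lit 40091) (.g (nat_lit 2373) (.e (nat_lit 1230) (nat_lit 91) (.e (nat_lit 90174) (nat_lit 14) (.e (nat_lit 180250) (nat_lit 10) (.e (nat_lit 573482) (nat_lit 13) (.e (nat_lit 65637) (nat_lit 15) .nil))))) .nil)) 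
(.lf (nat_lit 40123) (.g (nat_lit 1876) (.e (nat_lit 1232) (nat_lit 91) (.e (nat_lit 90160) (nat_lit 11) (.e (nat_lit 24644) (nat_lit 11) (.e (nat_lit 368676) (nat_lit 21) (.e (nat_lit 516171) (nat_lit 13) .nil))))) .nil))))) (.nd (nat_lit 3) (.nd (nat_lit 4) (.nd (nat_lit 5) 
(.lf (nat_lit 40071) (.g (nat_lit 1696) (.e (nat_lit 1228) (nat_lit 91) (.e (nat_lit 90176) (nat_lit 15) (.e (nat_lit 188450) (nat_lit 23) (.e (nat_lit 204885) (nat_lit 33) (.e (nat_lit 401409) (nat_lit 0) (.e (nat_lit 7540) (nat_lit 402) .nil)))))) (.g (nat_lit 4) .nil .nil))) 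
(.lf (nat_lit 40103) (.g (nat_lit 3673) (.e (nat_lit 1232) (nat_lit 91) (.e (nat_lit 90160) (nat_lit 11) (.e (nat_lit 24628) (nat_lit 9) (.e (nat_lit 336019) (nat_lit 3) (.e (nat_lit 98384) (nat_lit 32) (.e (nat_lit 475199) (nat_lit 40) (.e (nat_lit 704700) (nat_lit 9) .nil))))))) (.g (nat_lit 0) .nil .nil)))) (.nd (nat_lit 5) 
(.lf (nat_lit 40087) (.g (nat_lit 911) (.e (nat_lit 1229) (nat_lit 91) (.e (nat_lit 90185) (nat_lit 17) (.e (nat_lit 237619) (nat_lit 12) .nil))) .nil)) 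
(.lf (nat_lit 40119) (.g (nat_lit 2984) (.e (nat_lit 1232) (nat_lit 91) (.e (nat_lit 90160) (nat_lit 11) (.e (nat_lit 24643) (nat_lit 11) (.e (nat_lit 368676) (nat_lit 21) (.e (nat_lit 516179) (nat_lit 15) (.e (nat_lit 475199) (nat_lit 40) (.e (nat_lit 704700) (nat_lit 9) .nil))))))) (.g (nat_lit 6) .nil .nil))))) (.nd (nat_lit 4) (.nd (nat_lit 5) 
(.lf (nat_lit 40079) (.g (nat_lit 2240) (.e (nat_lit 1228) (nat_lit 91) (.e (nat_lit 90178) (nat_lit 15) (.e (nat_lit 188440) (nat_lit 20) (.e (nat_lit 3307) (nat_lit 202) (.e (nat_lit 573456) (nat_lit 9) (.e (nat_lit 430) (nat_lit 32) (.e (nat_lit 426011) (nat_lit 0) (.e (nat_lit 7545) (nat_lit 402) .nil)))))))) (.g (nat_lit 4) .nil .nil))) 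
(.lf (nat_lit 40111) (.g (nat_lit 2726) (.e (nat_lit 1232) (nat_lit 91) (.e (nat_lit 90160) (nat_lit 11) (.e (nat_lit 24638) (nat_lit 9) (.e (nat_lit 336003) (nat_lit 2) (.e (nat_lit 90172) (nat_lit 14) (.e (nat_lit 180225) (nat_lit 0) (.e (nat_lit 5537) (nat_lit 306) (.e (nat_lit 1077) (nat_lit 81) .nil)))))))) (.g (nat_lit 5) .nil .nil)))) (.nd (nat_lit 5) 
(.lf (nat_lit 40095) (.g (nat_lit 2080) (.e (nat_lit 1232) (nat_lit 91) (.e (nat_lit 90160) (nat_lit 11) (.e (nat_lit 24602) (nat_lit 2) (.e (nat_lit 90158) (nat_lit 11) (.e (nat_lit 24608) (nat_lit 3) (.e (nat_lit 98309) (nat_lit 0) (.e (nat_lit 7936) (nat_lit 343) .nil))))))) (.g (nat_lit 4) .nil .nil))) 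
(.lf (nat_lit 40127) (.g (nat_lit 1996) (.e (nat_lit 1232) (nat_lit 91) (.e (nat_lit 90160) (nat_lit 11) (.e (nat_lit 24644) (nat_lit 11) (.e (nat_lit 368676) (nat_lit 21) (.e (nat_lit 516179) (nat_lit 15) (.e (nat_lit 475205) (nat_lit 40) (.e (nat_lit 704613) (nat_lit 9) .nil))))))) (.g (nat_lit 4) .nil .nil)))))))))

noncomputable def tv556 : DT := (.nd (nat_lit 0) (.nd (nat_lit 1) (.nd (nat_lit 2) (.nd (nat_lit 3) (.nd (nat_lit 4) (.nd (nat_lit 5) 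
(.lf (nat_lit 40128) (.g (nat_lit 1750) (.e (nat_lit 1232) (nat_lit 91) (.e (nat_lit 90160) (nat_lit 11) (.e (nat_lit 24644) (nat_lit 11) (.e (nat_lit 368676) (nat_lit 21) (.e (nat_lit 516179) (nat_lit 15) (.e (nat_lit 475205) (nat_lit 40) (.e (nat_lit 704615) (nat_lit 9) .nil))))))) (.g (nat_lit 4) .nil .nil))) 
(.lf (nat_lit 40160) (.g (nat_lit 2928) (.e (nat_lit 1232) (nat_lit 91) (.e (nat_lit 90170) (nat_lit 13) (.e (nat_lit 172106) (nat_lit 10) (.e (nat_lit 434231) (nat_lit 23) (.e (nat_lit 532490) (nat_lit 0) (.e (nat_lit 6223) (nat_lit 334) (.e (nat_lit 123206) (nat_lit 270) .nil))))))) (.g (nat_lit 5) .nil .nil)))) (.nd (nat_lit 5) 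
(.lf (nat_lit 40144) (.g (nat_lit 4596) (.e (nat_lit 1232) (nat_lit 91) (.e (nat_lit 90170) (nat_lit 13) (.e (nat_lit 172106) (nat_lit 10) (.e (nat_lit 434231) (nat_lit 23) (.e (nat_lit 532482) (nat_lit 0) (.e (nat_lit 6220) (nat_lit 333) (.e (nat_lit 57884) (nat_lit 270) .nil))))))) (.g (nat_lit 0) .nil .nil))) 
(.lf (nat_lit 40176) (.g (nat_lit 3926) (.e (nat_lit 1232) (nat_lit 91) (.e (nat_lit 90170) (nat_lit 13) (.e (nat_lit 172106) (nat_lit 10) (.e (nat_lit 434238) (nat_lit 25) (.e (nat_lit 548898) (nat_lit 14) (.e (nat_lit 2828) (nat_lit 182) (.e (nat_lit 409602) (nat_lit 0) (.e (nat_lit 5293) (nat_lit 298) .nil)))))))) (.g (nat_lit 5) .nil .nil))))) (.nd (nat_lit 4) (.nd (nat_lit 5) 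
(.lf (nat_lit 40136) (.g (nat_lit 868) (.e (nat_lit 1232) (nat_lit 91) (.e (nat_lit 90170) (nat_lit 13) (.e (nat_lit 172088) (nat_lit 9) .nil))) .nil)) 
(.lf (nat_lit 40168) (.g (nat_lit 3894) (.e (nat_lit 1232) (nat_lit 91) (.e (nat_lit 90170) (nat_lit 13) (.e (nat_lit 172106) (nat_lit 10) (.e (nat_lit 434231) (nat_lit 23) (.e (nat_lit 532526) (nat_lit 8) (.e (nat_lit 327705) (nat_lit 10) (.e (nat_lit 5279) (nat_lit 298) .nil))))))) (.g (nat_lit 0) .nil .nil)))) (.nd (nat_lit 5) 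
(.lf (nat_lit 40152) (.g (nat_lit 2500) (.e (nat_lit 1232) (nat_lit 91) (.e (nat_lit 90170) (nat_lit 13) (.e (nat_lit 172106) (nat_lit 10) (.e (nat_lit 434231) (nat_lit 23) (.e (nat_lit 532486) (nat_lit 0) (.e (nat_lit 6225) (nat_lit 334) (.e (nat_lit 123206) (nat_lit 270) .nil))))))) (.g (nat_lit 6) .nil .nil))) 
(.lf (nat_lit 40184) (.g (nat_lit 1454) (.e (nat_lit 1232) (nat_lit 91) (.e (nat_lit 90170) (nat_lit 13) (.e (nat_lit 172113) (nat_lit 10) (.e (nat_lit 434231) (nat_lit 23) .nil)))) .nil))))) (.nd (nat_lit 3) (.nd (nat_lit 4) (.nd (nat_lit 5) 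
(.lf (nat_lit 40132) (.g (nat_lit 2061) (.e (nat_lit 1232) (nat_lit 91) (.e (nat_lit 90160) (nat_lit 11) (.e (nat_lit 24665) (nat_lit 14) (.e (nat_lit 401426) (nat_lit 3) .nil)))) .nil)) 
(.lf (nat_lit 40164) (.g (nat_lit 2040) (.e (nat_lit 1232) (nat_lit 91) (.e (nat_lit 90170) (nat_lit 13) (.e (nat_lit 172106) (nat_lit 10) (.e (nat_lit 434231) (nat_lit 23) (.e (nat_lit 532522) (nat_lit 7) (.e (nat_lit 319500) (nat_lit 10) (.e (nat_lit 5290) (nat_lit 298) .nil))))))) (.g (nat_lit 4) .nil .nil)))) (.nd (nat_lit 5) 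
(.lf (nat_lit 40148) (.g (nat_lit 3298) (.e (nat_lit 1232) (nat_lit 91) (.e (nat_lit 90170) (nat_lit 13) (.e (nat_lit 172106) (nat_lit 10) (.e (nat_lit 434231) (nat_lit 23) (.e (nat_lit 532486) (nat_lit 0) (.e (nat_lit 6218) (nat_lit 333) (.e (nat_lit 57886) (nat_lit 270) .nil))))))) (.g (nat_lit 6) .nil .nil))) 
(.lf (nat_lit 40180) (.g (nat_lit 2231) (.e (nat_lit 1232) (nat_lit 91) (.e (nat_lit 90170) (nat_lit 13) (.e (nat_lit 172106) (nat_lit 10) (.e (nat_lit 434244) (nat_lit 28) (.e (nat_lit 573468) (nat_lit 10) .nil))))) .nil)))) (.nd (nat_lit 4) (.nd (nat_lit 5) 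
(.lf (nat_lit 40140) (.g (nat_lit 2741) (.e (nat_lit 1232) (nat_lit 91) (.e (nat_lit 90170) (nat_lit 13) (.e (nat_lit 172106) (nat_lit 10) (.e (nat_lit 434227) (nat_lit 20) (.e (nat_lit 507926) (nat_lit 10) .nil))))) .nil)) 
(.lf (nat_lit 40172) (.g (nat_lit 4699) (.e (nat_lit 1232) (nat_lit 91) (.e (nat_lit 90170) (nat_lit 13) (.e (nat_lit 172106) (nat_lit 10) (.e (nat_lit 434231) (nat_lit 23) (.e (nat_lit 532526) (nat_lit 8) (.e (nat_lit 327708) (nat_lit 10) (.e (nat_lit 5293) (nat_lit 298) .nil))))))) (.g (nat_lit 0) .nil .nil)))) (.nd (nat_lit 5) 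
(.lf (nat_lit 40156) (.g (nat_lit 2754) (.e (nat_lit 1232) (nat_lit 91) (.e (nat_lit 90170) (nat_lit 13) (.e (nat_lit 172106) (nat_lit 10) (.e (nat_lit 434231) (nat_lit 23) (.e (nat_lit 532490) (nat_lit 0) (.e (nat_lit 6114) (nat_lit 332) (.e (nat_lit 7936) (nat_lit 81) (.e (nat_lit 5277) (nat_lit 298) .nil)))))))) (.g (nat_lit 5) .nil .nil))) 
(.lf (nat_lit 40188) (.g (nat_lit 2693) (.e (nat_lit 1232) (nat_lit 91) (.e (nat_lit 90170) (nat_lit 13) (.e (nat_lit 172113) (nat_lit 10) (.e (nat_lit 434248) (nat_lit 28) (.e (nat_lit 573452) (nat_lit 9) (.e (nat_lit 13) (nat_lit 0) (.e (nat_lit 7077) (nat_lit 378) (.e (nat_lit 57884) (nat_lit 270) .nil)))))))) (.g (nat_lit 4) .nil .nil))))))) 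
(.nd (nat_lit 2) (.nd (nat_lit 3) (.nd (nat_lit 4) (.nd (nat_lit 5) 
(.lf (nat_lit 40130) (.g (nat_lit 3110) (.e (nat_lit 1232) (nat_lit 91) (.e (nat_lit 90160) (nat_lit 11) (.e (nat_lit 24662) (nat_lit 14) (.e (nat_lit 401428) (nat_lit 3) .nil)))) .nil)) 
(.lf (nat_lit 40162) (.g (nat_lit 2685) (.e (nat_lit 1232) (nat_lit 91) (.e (nat_lit 90170) (nat_lit 13) (.e (nat_lit 172106) (nat_lit 10) (.e (nat_lit 434231) (nat_lit 23) (.e (nat_lit 532522) (nat_lit 7) (.e (nat_lit 319500) (nat_lit 10) (.e (nat_lit 5284) (nat_lit 298) .nil))))))) (.g (nat_lit 5) .nil .nil)))) (.nd (nat_lit 5) 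
(.lf (nat_lit 40146) (.g (nat_lit 2515) (.e (nat_lit 1232) (nat_lit 91) (.e (nat_lit 90170) (nat_lit 13) (.e (nat_lit 172106) (nat_lit 10) (.e (nat_lit 434231) (nat_lit 23) (.e (nat_lit 532482) (nat_lit 0) (.e (nat_lit 7936) (nat_lit 333) (.e (nat_lit 57884) (nat_lit 270) .nil))))))) (.g (nat_lit 4) .nil .nil))) 
(.lf (nat_lit 40178) (.g (nat_lit 4494) (.e (nat_lit 1232) (nat_lit 91) (.e (nat_lit 90170) (nat_lit 13) (.e (nat_lit 172106) (nat_lit 10) (.e (nat_lit 434244) (nat_lit 28) (.e (nat_lit 573451) (nat_lit 9) (.e (nat_lit 13) (nat_lit 0) (.e (nat_lit 7077) (nat_lit 378) (.e (nat_lit 57884) (nat_lit 270) .nil)))))))) (.g (nat_lit 0) .nil .nil))))) (.nd (nat_lit 4) (.nd (nat_lit 5) 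
(.lf (nat_lit 40138) (.g (nat_lit 1801) (.e (nat_lit 1232) (nat_lit 91) (.e (nat_lit 90170) (nat_lit 13) (.e (nat_lit 172106) (nat_lit 10) (.e (nat_lit 434219) (nat_lit 19) .nil)))) .nil)) 
(.lf (nat_lit 40170) (.g (nat_lit 3464) (.e (nat_lit 1232) (nat_lit 91) (.e (nat_lit 90170) (nat_lit 13) (.e (nat_lit 172106) (nat_lit 10) (.e (nat_lit 434231) (nat_lit 23) (.e (nat_lit 532526) (nat_lit 8) (.e (nat_lit 327705) (nat_lit 10) (.e (nat_lit 5295) (nat_lit 298) .nil))))))) (.g (nat_lit 6) .nil .nil)))) (.nd (nat_lit 5) 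
(.lf (nat_lit 40154) (.g (nat_lit 3751) (.e (nat_lit 1232) (nat_lit 91) (.e (nat_lit 90170) (nat_lit 13) (.e (nat_lit 172106) (nat_lit 10) (.e (nat_lit 434231) (nat_lit 23) (.e (nat_lit 532490) (nat_lit 0) (.e (nat_lit 6114) (nat_lit 332) (.e (nat_lit 1074) (nat_lit 81) (.e (nat_lit 5293) (nat_lit 298) .nil)))))))) (.g (nat_lit 6) .nil .nil))) 
(.lf (nat_lit 40186) (.g (nat_lit 2669) (.e (nat_lit 1232) (nat_lit 91) (.e (nat_lit 90170) (nat_lit 13) (.e (nat_lit 172113) (nat_lit 10) (.e (nat_lit 434245) (nat_lit 28) (.e (nat_lit 573451) (nat_lit 9) (.e (nat_lit 11) (nat_lit 0) (.e (nat_lit 7079) (nat_lit 378) (.e (nat_lit 57884) (nat_lit 270) .nil)))))))) (.g (nat_lit 4) .nil .nil)))))) (.nd (nat_lit 3) (.nd (nat_lit 4) (.nd (nat_lit 5) 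
(.lf (nat_lit 40134) (.g (nat_lit 2170) (.e (nat_lit 1232) (nat_lit 91) (.e (nat_lit 90169) (nat_lit 13) (.e (nat_lit 172103) (nat_lit 9) (.e (nat_lit 426124) (nat_lit 2) (.e (nat_lit 196677) (nat_lit 16) (.e (nat_lit 123080) (nat_lit 177) (.e (nat_lit 57887) (nat_lit 270) .nil))))))) (.g (nat_lit 6) .nil .nil))) 
(.lf (nat_lit 40166) (.g (nat_lit 2750) (.e (nat_lit 1232) (nat_lit 91) (.e (nat_lit 90170) (nat_lit 13) (.e (nat_lit 172106) (nat_lit 10) (.e (nat_lit 434231) (nat_lit 23) (.e (nat_lit 532525) (nat_lit 8) (.e (nat_lit 327704) (nat_lit 10) (.e (nat_lit 5279) (nat_lit 298) .nil))))))) (.g (nat_lit 4) .nil .nil)))) (.nd (nat_lit 5) 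
(.lf (nat_lit 40150) (.g (nat_lit 2741) (.e (nat_lit 1232) (nat_lit 91) (.e (nat_lit 90170) (nat_lit 13) (.e (nat_lit 172106) (nat_lit 10) (.e (nat_lit 434231) (nat_lit 23) (.e (nat_lit 532486) (nat_lit 0) (.e (nat_lit 6224) (nat_lit 334) (.e (nat_lit 123205) (nat_lit 270) .nil))))))) (.g (nat_lit 7) .nil .nil))) 
(.lf (nat_lit 40182) (.g (nat_lit 3791) (.e (nat_lit 1232) (nat_lit 91) (.e (nat_lit 90170) (nat_lit 13) (.e (nat_lit 172106) (nat_lit 10) (.e (nat_lit 434244) (nat_lit 28) (.e (nat_lit 573471) (nat_lit 11) (.e (nat_lit 16392) (nat_lit 0) (.e (nat_lit 7535) (nat_lit 402) .nil))))))) (.g (nat_lit 0) .nil .nil))))) (.nd (nat_lit 4) (.nd (nat_lit 5) 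
(.lf (nat_lit 40142) (.g (nat_lit 1078) (.e (nat_lit 1232) (nat_lit 91) (.e (nat_lit 90170) (nat_lit 13) (.e (nat_lit 172106) (nat_lit 10) (.e (nat_lit 434231) (nat_lit 23) .nil)))) .nil)) 
(.lf (nat_lit 40174) (.g (nat_lit 2144) (.e (nat_lit 1232) (nat_lit 91) (.e (nat_lit 90170) (nat_lit 13) (.e (nat_lit 172106) (nat_lit 10) (.e (nat_lit 434238) (nat_lit 25) .nil)))) .nil))) (.nd (nat_lit 5) 
(.lf (nat_lit 40158) (.g (nat_lit 3283) (.e (nat_lit 1232) (nat_lit 91) (.e (nat_lit 90170) (nat_lit 13) (.e (nat_lit 172106) (nat_lit 10) (.e (nat_lit 434231) (nat_lit 23) (.e (nat_lit 532490) (nat_lit 0) (.e (nat_lit 6206) (nat_lit 333) (.e (nat_lit 57886) (nat_lit 270) .nil))))))) (.g (nat_lit 0) .nil .nil))) 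
(.lf (nat_lit 40190) (.g (nat_lit 1148) (.e (nat_lit 1232) (nat_lit 91) (.e (nat_lit 90170) (nat_lit 13) (.e (nat_lit 172115) (nat_lit 10) (.e (nat_lit 434231) (nat_lit 23) .nil)))) .nil))))))) (.nd (nat_lit 1) (.nd (nat_lit 2) (.nd (nat_lit 3) (.nd (nat_lit 4) (.nd (nat_lit 5) 
(.lf (nat_lit 40129) (.g (nat_lit 1460) (.e (nat_lit 1232) (nat_lit 91) (.e (nat_lit 90160) (nat_lit 11) (.e (nat_lit 24657) (nat_lit 13) (.e (nat_lit 401152) (nat_lit 15) .nil)))) .nil)) 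
(.lf (nat_lit 40161) (.g (nat_lit 2749) (.e (nat_lit 1232) (nat_lit 91) (.e (nat_lit 90170) (nat_lit 13) (.e (nat_lit 172106) (nat_lit 10) (.e (nat_lit 434231) (nat_lit 23) (.e (nat_lit 540416) (nat_lit 0) (.e (nat_lit 6219) (nat_lit 333) (.e (nat_lit 57884) (nat_lit 270) .nil))))))) (.g (nat_lit 4) .nil .nil)))) (.nd (nat_lit 5) 
(.lf (nat_lit 40145) (.g (nat_lit 5042) (.e (nat_lit 1232) (nat_lit 91) (.e (nat_lit 90170) (nat_lit 13) (.e (nat_lit 172106) (nat_lit 10) (.e (nat_lit 434231) (nat_lit 23) (.e (nat_lit 532482) (nat_lit 0) (.e (nat_lit 6221) (nat_lit 333) (.e (nat_lit 57884) (nat_lit 270) .nil))))))) (.g (nat_lit 0) .nil .nil))) 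
(.lf (nat_lit 40177) (.g (nat_lit 2180) (.e (nat_lit 1232) (nat_lit 91) (.e (nat_lit 90170) (nat_lit 13) (.e (nat_lit 172106) (nat_lit 10) (.e (nat_lit 434244) (nat_lit 28) (.e (nat_lit 573451) (nat_lit 9) .nil))))) .nil)))) (.nd (nat_lit 4) (.nd (nat_lit 5) 
(.lf (nat_lit 40137) (.g (nat_lit 1858) (.e (nat_lit 1232) (nat_lit 91) (.e (nat_lit 90170) (nat_lit 13) (.e (nat_lit 172097) (nat_lit 9) (.e (nat_lit 426125) (nat_lit 2) (.e (nat_lit 196661) (nat_lit 12) .nil))))) .nil)) 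
(.lf (nat_lit 40169) (.g (nat_lit 3450) (.e (nat_lit 1232) (nat_lit 91) (.e (nat_lit 90170) (nat_lit 13) (.e (nat_lit 172106) (nat_lit 10) (.e (nat_lit 434231) (nat_lit 23) (.e (nat_lit 532526) (nat_lit 8) (.e (nat_lit 327705) (nat_lit 10) (.e (nat_lit 5289) (nat_lit 298) .nil))))))) (.g (nat_lit 6) .nil .nil)))) (.nd (nat_lit 5) 
(.lf (nat_lit 40153) (.g (nat_lit 2500) (.e (nat_lit 1232) (nat_lit 91) (.e (nat_lit 90170) (nat_lit 13) (.e (nat_lit 172106) (nat_lit 10) (.e (nat_lit 434231) (nat_lit 23) (.e (nat_lit 532486) (nat_lit 0) (.e (nat_lit 6227) (nat_lit 334) (.e (nat_lit 123205) (nat_lit 270) .nil))))))) (.g (nat_lit 6) .nil .nil))) 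
(.lf (nat_lit 40185) (.g (nat_lit 1787) (.e (nat_lit 1232) (nat_lit 91) (.e (nat_lit 90170) (nat_lit 13) (.e (nat_lit 172113) (nat_lit 10) (.e (nat_lit 434238) (nat_lit 25) .nil)))) .nil))))) (.nd (nat_lit 3) (.nd (nat_lit 4) (.nd (nat_lit 5) 
(.lf (nat_lit 40133) (.g (nat_lit 4478) (.e (nat_lit 1232) (nat_lit 91) (.e (nat_lit 90160) (nat_lit 11) (.e (nat_lit 24665) (nat_lit 14) (.e (nat_lit 401426) (nat_lit 3) (.e (nat_lit 204852) (nat_lit 26) (.e (nat_lit 336350) (nat_lit 23) (.e (nat_lit 253980) (nat_lit 9) .nil))))))) (.g (nat_lit 6) .nil .nil))) 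
(.lf (nat_lit 40165) (.g (nat_lit 2816) (.e (nat_lit 1232) (nat_lit 91) (.e (nat_lit 90170) (nat_lit 13) (.e (nat_lit 172106) (nat_lit 10) (.e (nat_lit 434231) (nat_lit 23) (.e (nat_lit 532522) (nat_lit 7) (.e (nat_lit 327424) (nat_lit 10) (.e (nat_lit 5277) (nat_lit 298) .nil))))))) (.g (nat_lit 5) .nil .nil)))) (.nd (nat_lit 5) 
(.lf (nat_lit 40149) (.g (nat_lit 2216) (.e (nat_lit 1232) (nat_lit 91) (.e (nat_lit 90170) (nat_lit 13) (.e (nat_lit 172106) (nat_lit 10) (.e (nat_lit 434231) (nat_lit 23) (.e (nat_lit 532486) (nat_lit 0) (.e (nat_lit 6218) (nat_lit 333) (.e (nat_lit 57888) (nat_lit 270) .nil))))))) (.g (nat_lit 4) .nil .nil))) 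
(.lf (nat_lit 40181) (.g (nat_lit 1940) (.e (nat_lit 1232) (nat_lit 91) (.e (nat_lit 90170) (nat_lit 13) (.e (nat_lit 172106) (nat_lit 10) (.e (nat_lit 434244) (nat_lit 28) (.e (nat_lit 573471) (nat_lit 11) .nil))))) .nil)))) (.nd (nat_lit 4) (.nd (nat_lit 5) 
(.lf (nat_lit 40141) (.g (nat_lit 2615) (.e (nat_lit 1232) (nat_lit 91) (.e (nat_lit 90170) (nat_lit 13) (.e (nat_lit 172106) (nat_lit 10) (.e (nat_lit 434227) (nat_lit 20) (.e (nat_lit 507934) (nat_lit 10) .nil))))) .nil)) 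
(.lf (nat_lit 40173) (.g (nat_lit 1915) (.e (nat_lit 1232) (nat_lit 91) (.e (nat_lit 90170) (nat_lit 13) (.e (nat_lit 172106) (nat_lit 10) (.e (nat_lit 434232) (nat_lit 23) .nil)))) .nil))) (.nd (nat_lit 5) 
(.lf (nat_lit 40157) (.g (nat_lit 4141) (.e (nat_lit 1232) (nat_lit 91) (.e (nat_lit 90170) (nat_lit 13) (.e (nat_lit 172106) (nat_lit 10) (.e (nat_lit 434231) (nat_lit 23) (.e (nat_lit 532490) (nat_lit 0) (.e (nat_lit 6206) (nat_lit 333) (.e (nat_lit 57884) (nat_lit 270) .nil))))))) (.g (nat_lit 0) .nil .nil))) 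
(.lf (nat_lit 40189) (.g (nat_lit 2698) (.e (nat_lit 1232) (nat_lit 91) (.e (nat_lit 90170) (nat_lit 13) (.e (nat_lit 172113) (nat_lit 10) (.e (nat_lit 434248) (nat_lit 28) (.e (nat_lit 573452) (nat_lit 9) (.e (nat_lit 13) (nat_lit 0) (.e (nat_lit 7079) (nat_lit 378) (.e (nat_lit 57884) (nat_lit 270) .nil)))))))) (.g (nat_lit 4) .nil .nil))))))) 
(.nd (nat_lit 2) (.nd (nat_lit 3) (.nd (nat_lit 4) (.nd (nat_lit 5) 
(.lf (nat_lit 40131) (.g (nat_lit 842) (.e (nat_lit 1232) (nat_lit 91) (.e (nat_lit 90160) (nat_lit 11) (.e (nat_lit 24665) (nat_lit 14) .nil))) .nil)) 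
(.lf (nat_lit 40163) (.g (nat_lit 2243) (.e (nat_lit 1232) (nat_lit 91) (.e (nat_lit 90170) (nat_lit 13) (.e (nat_lit 172106) (nat_lit 10) (.e (nat_lit 434231) (nat_lit 23) (.e (nat_lit 532522) (nat_lit 7) (.e (nat_lit 319500) (nat_lit 10) (.e (nat_lit 5286) (nat_lit 298) .nil))))))) (.g (nat_lit 4) .nil .nil)))) (.nd (nat_lit 5) 
(.lf (nat_lit 40147) (.g (nat_lit 3472) (.e (nat_lit 1232) (nat_lit 91) (.e (nat_lit 90170) (nat_lit 13) (.e (nat_lit 172106) (nat_lit 10) (.e (nat_lit 434231) (nat_lit 23) (.e (nat_lit 532482) (nat_lit 0) (.e (nat_lit 6222) (nat_lit 334) (.e (nat_lit 123205) (nat_lit 270) .nil))))))) (.g (nat_lit 0) .nil .nil))) 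
(.lf (nat_lit 40179) (.g (nat_lit 4649) (.e (nat_lit 1232) (nat_lit 91) (.e (nat_lit 90170) (nat_lit 13) (.e (nat_lit 172106) (nat_lit 10) (.e (nat_lit 434244) (nat_lit 28) (.e (nat_lit 573451) (nat_lit 9) (.e (nat_lit 13) (nat_lit 0) (.e (nat_lit 7081) (nat_lit 378) (.e (nat_lit 57884) (nat_lit 270) .nil)))))))) (.g (nat_lit 0) .nil .nil))))) (.nd (nat_lit 4) (.nd (nat_lit 5) 
(.lf (nat_lit 40139) (.g (nat_lit 1885) (.e (nat_lit 1232) (nat_lit 91) (.e (nat_lit 90170) (nat_lit 13) (.e (nat_lit 172106) (nat_lit 10) (.e (nat_lit 434227) (nat_lit 20) .nil)))) .nil)) 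
(.lf (nat_lit 40171) (.g (nat_lit 2232) (.e (nat_lit 1232) (nat_lit 91) (.e (nat_lit 90170) (nat_lit 13) (.e (nat_lit 172106) (nat_lit 10) (.e (nat_lit 434231) (nat_lit 23) (.e (nat_lit 532526) (nat_lit 8) (.e (nat_lit 327706) (nat_lit 10) (.e (nat_lit 5296) (nat_lit 298) .nil))))))) (.g (nat_lit 4) .nil .nil)))) (.nd (nat_lit 5) 
(.lf (nat_lit 40155) (.g (nat_lit 3574) (.e (nat_lit 1232) (nat_lit 91) (.e (nat_lit 90170) (nat_lit 13) (.e (nat_lit 172106) (nat_lit 10) (.e (nat_lit 434231) (nat_lit 23) (.e (nat_lit 532490) (nat_lit 0) (.e (nat_lit 6114) (nat_lit 332) (.e (nat_lit 1081) (nat_lit 81) (.e (nat_lit 5293) (nat_lit 298) .nil)))))))) (.g (nat_lit 6) .nil .nil))) 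
(.lf (nat_lit 40187) (.g (nat_lit 2200) (.e (nat_lit 1232) (nat_lit 91) (.e (nat_lit 90170) (nat_lit 13) (.e (nat_lit 172113) (nat_lit 10) (.e (nat_lit 434245) (nat_lit 28) (.e (nat_lit 573468) (nat_lit 10) (.e (nat_lit 16128) (nat_lit 181) (.e (nat_lit 57884) (nat_lit 270) .nil))))))) (.g (nat_lit 4) .nil .nil)))))) (.nd (nat_lit 3) (.nd (nat_lit 4) (.nd (nat_lit 5) 
(.lf (nat_lit 40135) (.g (nat_lit 449) (.e (nat_lit 1232) (nat_lit 91) (.e (nat_lit 90169) (nat_lit 13) (.e (nat_lit 172104) (nat_lit 9) .nil))) .nil)) 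
(.lf (nat_lit 40167) (.g (nat_lit 3151) (.e (nat_lit 1232) (nat_lit 91) (.e (nat_lit 90170) (nat_lit 13) (.e (nat_lit 172106) (nat_lit 10) (.e (nat_lit 434231) (nat_lit 23) (.e (nat_lit 532525) (nat_lit 8) (.e (nat_lit 327705) (nat_lit 10) (.e (nat_lit 5279) (nat_lit 298) .nil))))))) (.g (nat_lit 5) .nil .nil)))) (.nd (nat_lit 5) 
(.lf (nat_lit 40151) (.g (nat_lit 2741) (.e (nat_lit 1232) (nat_lit 91) (.e (nat_lit 90170) (nat_lit 13) (.e (nat_lit 172106) (nat_lit 10) (.e (nat_lit 434231) (nat_lit 23) (.e (nat_lit 532486) (nat_lit 0) (.e (nat_lit 6225) (nat_lit 334) (.e (nat_lit 123204) (nat_lit 270) .nil))))))) (.g (nat_lit 7) .nil .nil))) 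
(.lf (nat_lit 40183) (.g (nat_lit 3179) (.e (nat_lit 1232) (nat_lit 91) (.e (nat_lit 90170) (nat_lit 13) (.e (nat_lit 172106) (nat_lit 10) (.e (nat_lit 434244) (nat_lit 28) (.e (nat_lit 573471) (nat_lit 11) (.e (nat_lit 16392) (nat_lit 0) (.e (nat_lit 7936) (nat_lit 402) .nil))))))) (.g (nat_lit 6) .nil .nil))))) (.nd (nat_lit 4) (.nd (nat_lit 5) 
(.lf (nat_lit 40143) (.g (nat_lit 2385) (.e (nat_lit 1232) (nat_lit 91) (.e (nat_lit 90170) (nat_lit 13) (.e (nat_lit 172106) (nat_lit 10) (.e (nat_lit 434231) (nat_lit 23) (.e (nat_lit 532480) (nat_lit 0) (.e (nat_lit 6211) (nat_lit 333) (.e (nat_lit 57884) (nat_lit 270) .nil))))))) (.g (nat_lit 4) .nil .nil))) 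
(.lf (nat_lit 40175) (.g (nat_lit 3078) (.e (nat_lit 1232) (nat_lit 91) (.e (nat_lit 90170) (nat_lit 13) (.e (nat_lit 172106) (nat_lit 10) (.e (nat_lit 434238) (nat_lit 25) (.e (nat_lit 548897) (nat_lit 14) (.e (nat_lit 2828) (nat_lit 182) (.e (nat_lit 409603) (nat_lit 0) (.e (nat_lit 5293) (nat_lit 298) .nil)))))))) (.g (nat_lit 4) .nil .nil)))) (.nd (nat_lit 5) 
(.lf (nat_lit 40159) (.g (nat_lit 3601) (.e (nat_lit 1232) (nat_lit 91) (.e (nat_lit 90170) (nat_lit 13) (.e (nat_lit 172106) (nat_lit 10) (.e (nat_lit 434231) (nat_lit 23) (.e (nat_lit 532490) (nat_lit 0) (.e (nat_lit 6223) (nat_lit 334) (.e (nat_lit 123205) (nat_lit 270) .nil))))))) (.g (nat_lit 0) .nil .nil))) 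
(.lf (nat_lit 40191) (.g (nat_lit 2193) (.e (nat_lit 1232) (nat_lit 91) (.e (nat_lit 90170) (nat_lit 13) (.e (nat_lit 172120) (nat_lit 12) (.e (nat_lit 475183) (nat_lit 29) .nil)))) .nil))))))))

noncomputable def tv557 : DT := (.nd (nat_lit 0) (.nd (nat_lit 1) (.nd (nat_lit 2) (.nd (nat_lit 3) (.nd (nat_lit 4) (.nd (nat_lit 5) 
(.lf (nat_lit 40192) (.g (nat_lit 2587) (.e (nat_lit 1232) (nat_lit 91) (.e (nat_lit 90170) (nat_lit 13) (.e (nat_lit 172120) (nat_lit 12) (.e (nat_lit 475185) (nat_lit 29) (.e (nat_lit 557103) (nat_lit 14) (.e (nat_lit 188160) (nat_lit 32) .nil)))))) (.g (nat_lit 4) .nil .nil))) 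
(.lf (nat_lit 40224) (.g (nat_lit 2323) (.e (nat_lit 1232) (nat_lit 91) (.e (nat_lit 90177) (nat_lit 15) (.e (nat_lit 188452) (nat_lit 23) (.e (nat_lit 204849) (nat_lit 25) (.e (nat_lit 335616) (nat_lit 10) .nil))))) .nil))) (.nd (nat_lit 5) 
(.lf (nat_lit 40208) (.g (nat_lit 893) (.e (nat_lit 1232) (nat_lit 91) (.e (nat_lit 90174) (nat_lit 14) (.e (nat_lit 180288) (nat_lit 45) .nil))) .nil)) 
(.lf (nat_lit 40240) (.g (nat_lit 1451) (.e (nat_lit 1233) (nat_lit 91) (.e (nat_lit 90174) (nat_lit 14) (.e (nat_lit 180250) (nat_lit 10) (.e (nat_lit 573482) (nat_lit 13) .nil)))) .nil)))) (.nd (nat_lit 4) (.nd (nat_lit 5) 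
(.lf (nat_lit 40200) (.g (nat_lit 751) (.e (nat_lit 1232) (nat_lit 91) (.e (nat_lit 90172) (nat_lit 14) (.e (nat_lit 188160) (nat_lit 32) .nil))) .nil)) 
(.lf (nat_lit 40232) (.g (nat_lit 523) (.e (nat_lit 1232) (nat_lit 91) (.e (nat_lit 90178) (nat_lit 15) (.e (nat_lit 188452) (nat_lit 23) .nil))) .nil))) (.nd (nat_lit 5) 
(.lf (nat_lit 40216) (.g (nat_lit 812) (.e (nat_lit 1232) (nat_lit 91) (.e (nat_lit 90177) (nat_lit 15) (.e (nat_lit 188434) (nat_lit 20) (.e (nat_lit 3271) (nat_lit 199) .nil)))) .nil)) 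
(.lf (nat_lit 40248) (.g (nat_lit 3141) (.e (nat_lit 1234) (nat_lit 91) (.e (nat_lit 98048) (nat_lit 5) (.e (nat_lit 73753) (nat_lit 8) (.e (nat_lit 557105) (nat_lit 14) (.e (nat_lit 180252) (nat_lit 10) (.e (nat_lit 573475) (nat_lit 12) (.e (nat_lit 57515) (nat_lit 42) (.e (nat_lit 671751) (nat_lit 0) .nil)))))))) (.g (nat_lit 6) .nil .nil)))))) (.nd (nat_lit 3) (.nd (nat_lit 4) (.nd (nat_lit 5) 
(.lf (nat_lit 40196) (.g (nat_lit 744) (.e (nat_lit 1232) (nat_lit 91) (.e (nat_lit 90172) (nat_lit 14) (.e (nat_lit 180276) (nat_lit 32) .nil))) .nil)) 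
(.lf (nat_lit 40228) (.g (nat_lit 1740) (.e (nat_lit 1232) (nat_lit 91) (.e (nat_lit 90178) (nat_lit 15) (.e (nat_lit 188447) (nat_lit 22) (.e (nat_lit 196661) (nat_lit 12) (.e (nat_lit 57721) (nat_lit 177) .nil))))) .nil))) (.nd (nat_lit 5) 
(.lf (nat_lit 40212) (.g (nat_lit 1947) (.e (nat_lit 1232) (nat_lit 91) (.e (nat_lit 90176) (nat_lit 15) (.e (nat_lit 188450) (nat_lit 23) (.e (nat_lit 204816) (nat_lit 17) (.e (nat_lit 6220) (nat_lit 333) (.e (nat_lit 57884) (nat_lit 270) .nil)))))) (.g (nat_lit 4) .nil .nil))) 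
(.lf (nat_lit 40244) (.g (nat_lit 1321) (.e (nat_lit 1233) (nat_lit 91) (.e (nat_lit 90185) (nat_lit 17) (.e (nat_lit 237605) (nat_lit 9) (.e (nat_lit 426131) (nat_lit 3) .nil)))) .nil)))) (.nd (nat_lit 4) (.nd (nat_lit 5) 
(.lf (nat_lit 40204) (.g (nat_lit 1447) (.e (nat_lit 1232) (nat_lit 91) (.e (nat_lit 90172) (nat_lit 14) (.e (nat_lit 180285) (nat_lit 45) (.e (nat_lit 2571) (nat_lit 160) .nil)))) .nil)) 
(.lf (nat_lit 40236) (.g (nat_lit 1922) (.e (nat_lit 1232) (nat_lit 91) (.e (nat_lit 90178) (nat_lit 15) (.e (nat_lit 188452) (nat_lit 23) (.e (nat_lit 204849) (nat_lit 25) .nil)))) .nil))) (.nd (nat_lit 5) 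
(.lf (nat_lit 40220) (.g (nat_lit 2705) (.e (nat_lit 1232) (nat_lit 91) (.e (nat_lit 90177) (nat_lit 15) (.e (nat_lit 188452) (nat_lit 23) (.e (nat_lit 204816) (nat_lit 17) (.e (nat_lit 6222) (nat_lit 334) .nil))))) .nil)) 
(.lf (nat_lit 40252) (.g (nat_lit 2530) (.e (nat_lit 1234) (nat_lit 91) (.e (nat_lit 98048) (nat_lit 6) (.e (nat_lit 81951) (nat_lit 22) (.e (nat_lit 90170) (nat_lit 13) (.e (nat_lit 172042) (nat_lit 0) (.e (nat_lit 3390) (nat_lit 210) (.e (nat_lit 639010) (nat_lit 13) .nil))))))) (.g (nat_lit 5) .nil .nil))))))) (.nd (nat_lit 2) (.nd (nat_lit 3) (.nd (nat_lit 4) (.nd (nat_lit 5) 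
(.lf (nat_lit 40194) (.g (nat_lit 3979) (.e (nat_lit 1232) (nat_lit 91) (.e (nat_lit 90170) (nat_lit 13) (.e (nat_lit 172126) (nat_lit 14) (.e (nat_lit 491539) (nat_lit 3) (.e (nat_lit 98350) (nat_lit 24) (.e (nat_lit 409602) (nat_lit 0) (.e (nat_lit 5293) (nat_lit 298) .nil))))))) (.g (nat_lit 5) .nil .nil))) 
(.lf (nat_lit 40226) (.g (nat_lit 1982) (.e (nat_lit 1232) (nat_lit 91) (.e (nat_lit 90177) (nat_lit 15) (.e (nat_lit 188458) (nat_lit 25) (.e (nat_lit 245784) (nat_lit 9) (.e (nat_lit 1399) (nat_lit 106) (.e (nat_lit 319511) (nat_lit 10) (.e (nat_lit 5293) (nat_lit 298) .nil))))))) (.g (nat_lit 0) .nil .nil)))) (.nd (nat_lit 5) 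
(.lf (nat_lit 40210) (.g (nat_lit 1381) (.e (nat_lit 1232) (nat_lit 91) (.e (nat_lit 90176) (nat_lit 15) (.e (nat_lit 188447) (nat_lit 22) (.e (nat_lit 196661) (nat_lit 12) .nil)))) .nil)) 
(.lf (nat_lit 40242) (.g (nat_lit 2153) (.e (nat_lit 1233) (nat_lit 91) (.e (nat_lit 90174) (nat_lit 14) (.e (nat_lit 180250) (nat_lit 10) (.e (nat_lit 573487) (nat_lit 14) (.e (nat_lit 73753) (nat_lit 8) .nil))))) .nil)))) (.nd (nat_lit 4) (.nd (nat_lit 5) 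
(.lf (nat_lit 40202) (.g (nat_lit 751) (.e (nat_lit 1232) (nat_lit 91) (.e (nat_lit 90172) (nat_lit 14) (.e (nat_lit 188160) (nat_lit 43) .nil))) .nil)) 
(.lf (nat_lit 40234) (.g (nat_lit 4231) (.e (nat_lit 1232) (nat_lit 91) (.e (nat_lit 90178) (nat_lit 15) (.e (nat_lit 188452) (nat_lit 23) (.e (nat_lit 204846) (nat_lit 24) (.e (nat_lit 319504) (nat_lit 10) .nil))))) .nil))) (.nd (nat_lit 5) 
(.lf (nat_lit 40218) (.g (nat_lit 2218) (.e (nat_lit 1232) (nat_lit 91) (.e (nat_lit 90177) (nat_lit 15) (.e (nat_lit 188450) (nat_lit 23) (.e (nat_lit 204846) (nat_lit 24) (.e (nat_lit 319511) (nat_lit 10) (.e (nat_lit 5293) (nat_lit 298) .nil)))))) (.g (nat_lit 5) .nil .nil))) 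
(.lf (nat_lit 40250) (.g (nat_lit 4245) (.e (nat_lit 1234) (nat_lit 91) (.e (nat_lit 98048) (nat_lit 5) (.e (nat_lit 73754) (nat_lit 8) (.e (nat_lit 557105) (nat_lit 14) (.e (nat_lit 180252) (nat_lit 10) (.e (nat_lit 573474) (nat_lit 12) (.e (nat_lit 57516) (nat_lit 42) (.e (nat_lit 671744) (nat_lit 0) .nil)))))))) (.g (nat_lit 6) .nil .nil)))))) (.nd (nat_lit 3) (.nd (nat_lit 4) (.nd (nat_lit 5) 
(.lf (nat_lit 40198) (.g (nat_lit 1677) (.e (nat_lit 1232) (nat_lit 91) (.e (nat_lit 90172) (nat_lit 14) (.e (nat_lit 180278) (nat_lit 32) (.e (nat_lit 1235) (nat_lit 91) (.e (nat_lit 90172) (nat_lit 14) (.e (nat_lit 188160) (nat_lit 32) .nil)))))) (.g (nat_lit 4) .nil .nil))) 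
(.lf (nat_lit 40230) (.g (nat_lit 1575) (.e (nat_lit 1232) (nat_lit 91) (.e (nat_lit 90178) (nat_lit 15) (.e (nat_lit 188449) (nat_lit 22) (.e (nat_lit 204544) (nat_lit 21) .nil)))) .nil))) (.nd (nat_lit 5) 
(.lf (nat_lit 40214) (.g (nat_lit 687) (.e (nat_lit 1232) (nat_lit 91) (.e (nat_lit 90176) (nat_lit 15) (.e (nat_lit 188451) (nat_lit 23) .nil))) .nil)) 
(.lf (nat_lit 40246) (.g (nat_lit 3742) (.e (nat_lit 1234) (nat_lit 91) (.e (nat_lit 98048) (nat_lit 5) (.e (nat_lit 73753) (nat_lit 8) (.e (nat_lit 557105) (nat_lit 14) (.e (nat_lit 180252) (nat_lit 10) (.e (nat_lit 573474) (nat_lit 12) (.e (nat_lit 57516) (nat_lit 42) (.e (nat_lit 671749) (nat_lit 0) .nil)))))))) (.g (nat_lit 7) .nil .nil))))) (.nd (nat_lit 4) (.nd (nat_lit 5) 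
(.lf (nat_lit 40206) (.g (nat_lit 2183) (.e (nat_lit 1232) (nat_lit 91) (.e (nat_lit 90174) (nat_lit 14) (.e (nat_lit 180243) (nat_lit 5) (.e (nat_lit 532513) (nat_lit 3) (.e (nat_lit 122624) (nat_lit 3) (.e (nat_lit 204842) (nat_lit 22) (.e (nat_lit 147460) (nat_lit 0) .nil))))))) (.g (nat_lit 4) .nil .nil))) 
(.lf (nat_lit 40238) (.g (nat_lit 3415) (.e (nat_lit 1233) (nat_lit 91) (.e (nat_lit 90170) (nat_lit 13) (.e (nat_lit 172106) (nat_lit 10) (.e (nat_lit 434231) (nat_lit 23) (.e (nat_lit 532554) (nat_lit 13) .nil))))) .nil))) (.nd (nat_lit 5) 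
(.lf (nat_lit 40222) (.g (nat_lit 2800) (.e (nat_lit 1232) (nat_lit 91) (.e (nat_lit 90177) (nat_lit 15) (.e (nat_lit 188452) (nat_lit 23) (.e (nat_lit 204846) (nat_lit 24) (.e (nat_lit 319511) (nat_lit 10) (.e (nat_lit 5293) (nat_lit 298) .nil)))))) (.g (nat_lit 4) .nil .nil))) 
(.lf (nat_lit 40254) (.g (nat_lit 2278) (.e (nat_lit 1234) (nat_lit 91) (.e (nat_lit 98048) (nat_lit 6) (.e (nat_lit 81951) (nat_lit 22) (.e (nat_lit 90170) (nat_lit 13) (.e (nat_lit 172042) (nat_lit 0) (.e (nat_lit 3391) (nat_lit 210) (.e (nat_lit 639010) (nat_lit 13) .nil))))))) (.g (nat_lit 5) .nil .nil)))))))) 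
(.nd (nat_lit 1) (.nd (nat_lit 2) (.nd (nat_lit 3) (.nd (nat_lit 4) (.nd (nat_lit 5) 
(.lf (nat_lit 40193) (.g (nat_lit 2256) (.e (nat_lit 1232) (nat_lit 91) (.e (nat_lit 90170) (nat_lit 13) (.e (nat_lit 172124) (nat_lit 14) (.e (nat_lit 491540) (nat_lit 3) (.e (nat_lit 98350) (nat_lit 24) (.e (nat_lit 409603) (nat_lit 0) (.e (nat_lit 5293) (nat_lit 298) .nil))))))) (.g (nat_lit 4) .nil .nil))) 
(.lf (nat_lit 40225) (.g (nat_lit 2249) (.e (nat_lit 1232) (nat_lit 91) (.e (nat_lit 90177) (nat_lit 15) (.e (nat_lit 188452) (nat_lit 23) (.e (nat_lit 204885) (nat_lit 33) .nil)))) .nil))) (.nd (nat_lit 5) 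
(.lf (nat_lit 40209) (.g (nat_lit 1646) (.e (nat_lit 1232) (nat_lit 91) (.e (nat_lit 90174) (nat_lit 14) (.e (nat_lit 180288) (nat_lit 45) (.e (nat_lit 2571) (nat_lit 160) .nil)))) .nil)) 
(.lf (nat_lit 40241) (.g (nat_lit 2373) (.e (nat_lit 1233) (nat_lit 91) (.e (nat_lit 90174) (nat_lit 14) (.e (nat_lit 180250) (nat_lit 10) (.e (nat_lit 573482) (nat_lit 13) (.e (nat_lit 65637) (nat_lit 15) .nil))))) .nil)))) (.nd (nat_lit 4) (.nd (nat_lit 5) 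
(.lf (nat_lit 40201) (.g (nat_lit 751) (.e (nat_lit 1232) (nat_lit 91) (.e (nat_lit 90172) (nat_lit 14) (.e (nat_lit 188160) (nat_lit 40) .nil))) .nil)) 
(.lf (nat_lit 40233) (.g (nat_lit 2836) (.e (nat_lit 1232) (nat_lit 91) (.e (nat_lit 90178) (nat_lit 15) (.e (nat_lit 188452) (nat_lit 23) (.e (nat_lit 204816) (nat_lit 17) .nil)))) .nil))) (.nd (nat_lit 5) 
(.lf (nat_lit 40217) (.g (nat_lit 2394) (.e (nat_lit 1232) (nat_lit 91) (.e (nat_lit 90177) (nat_lit 15) (.e (nat_lit 188449) (nat_lit 22) (.e (nat_lit 196626) (nat_lit 9) (.e (nat_lit 1400) (nat_lit 106) (.e (nat_lit 319511) (nat_lit 10) (.e (nat_lit 5293) (nat_lit 298) .nil))))))) (.g (nat_lit 4) .nil .nil))) 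
(.lf (nat_lit 40249) (.g (nat_lit 4714) (.e (nat_lit 1234) (nat_lit 91) (.e (nat_lit 98048) (nat_lit 5) (.e (nat_lit 73754) (nat_lit 8) (.e (nat_lit 557105) (nat_lit 14) (.e (nat_lit 180252) (nat_lit 10) (.e (nat_lit 573474) (nat_lit 12) (.e (nat_lit 57515) (nat_lit 42) (.e (nat_lit 671751) (nat_lit 0) .nil)))))))) (.g (nat_lit 6) .nil .nil)))))) (.nd (nat_lit 3) (.nd (nat_lit 4) (.nd (nat_lit 5) 
(.lf (nat_lit 40197) (.g (nat_lit 570) (.e (nat_lit 1232) (nat_lit 91) (.e (nat_lit 90172) (nat_lit 14) (.e (nat_lit 180278) (nat_lit 32) .nil))) .nil)) 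
(.lf (nat_lit 40229) (.g (nat_lit 1483) (.e (nat_lit 1232) (nat_lit 91) (.e (nat_lit 90178) (nat_lit 15) (.e (nat_lit 188449) (nat_lit 22) (.e (nat_lit 196661) (nat_lit 12) .nil)))) .nil))) (.nd (nat_lit 5) 
(.lf (nat_lit 40213) (.g (nat_lit 2327) (.e (nat_lit 1232) (nat_lit 91) (.e (nat_lit 90176) (nat_lit 15) (.e (nat_lit 188450) (nat_lit 23) (.e (nat_lit 204819) (nat_lit 17) (.e (nat_lit 6212) (nat_lit 333) (.e (nat_lit 57884) (nat_lit 270) .nil)))))) (.g (nat_lit 4) .nil .nil))) 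
(.lf (nat_lit 40245) (.g (nat_lit 2735) (.e (nat_lit 1234) (nat_lit 91) (.e (nat_lit 98048) (nat_lit 5) (.e (nat_lit 73746) (nat_lit 3) (.e (nat_lit 516131) (nat_lit 3) (.e (nat_lit 221215) (nat_lit 23) (.e (nat_lit 204819) (nat_lit 17) (.e (nat_lit 1994) (nat_lit 137) (.e (nat_lit 663559) (nat_lit 0) .nil)))))))) (.g (nat_lit 6) .nil .nil))))) (.nd (nat_lit 4) (.nd (nat_lit 5) 
(.lf (nat_lit 40205) (.g (nat_lit 2289) (.e (nat_lit 1232) (nat_lit 91) (.e (nat_lit 90174) (nat_lit 14) (.e (nat_lit 180243) (nat_lit 5) (.e (nat_lit 532513) (nat_lit 3) (.e (nat_lit 122624) (nat_lit 3) (.e (nat_lit 204842) (nat_lit 22) (.e (nat_lit 147458) (nat_lit 0) .nil))))))) (.g (nat_lit 4) .nil .nil))) 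
(.lf (nat_lit 40237) (.g (nat_lit 3483) (.e (nat_lit 1232) (nat_lit 91) (.e (nat_lit 90185) (nat_lit 17) (.e (nat_lit 237605) (nat_lit 9) (.e (nat_lit 426131) (nat_lit 3) (.e (nat_lit 204846) (nat_lit 24) (.e (nat_lit 319511) (nat_lit 10) (.e (nat_lit 5293) (nat_lit 298) .nil))))))) (.g (nat_lit 6) .nil .nil)))) (.nd (nat_lit 5) 
(.lf (nat_lit 40221) (.g (nat_lit 1959) (.e (nat_lit 1232) (nat_lit 91) (.e (nat_lit 90177) (nat_lit 15) (.e (nat_lit 188452) (nat_lit 23) (.e (nat_lit 204846) (nat_lit 24) (.e (nat_lit 319504) (nat_lit 10) (.e (nat_lit 7936) (nat_lit 298) .nil)))))) (.g (nat_lit 5) .nil .nil))) 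
(.lf (nat_lit 40253) (.g (nat_lit 2562) (.e (nat_lit 1234) (nat_lit 91) (.e (nat_lit 98048) (nat_lit 6) (.e (nat_lit 81951) (nat_lit 22) (.e (nat_lit 90170) (nat_lit 13) (.e (nat_lit 172042) (nat_lit 0) (.e (nat_lit 3390) (nat_lit 210) (.e (nat_lit 639011) (nat_lit 13) .nil))))))) (.g (nat_lit 6) .nil .nil))))))) (.nd (nat_lit 2) (.nd (nat_lit 3) (.nd (nat_lit 4) (.nd (nat_lit 5) 
(.lf (nat_lit 40195) (.g (nat_lit 3122) (.e (nat_lit 1232) (nat_lit 91) (.e (nat_lit 90170) (nat_lit 13) (.e (nat_lit 172126) (nat_lit 14) (.e (nat_lit 491540) (nat_lit 3) (.e (nat_lit 98350) (nat_lit 24) (.e (nat_lit 409603) (nat_lit 0) (.e (nat_lit 5293) (nat_lit 298) .nil))))))) (.g (nat_lit 5) .nil .nil))) 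
(.lf (nat_lit 40227) (.g (nat_lit 1759) (.e (nat_lit 1232) (nat_lit 91) (.e (nat_lit 90178) (nat_lit 15) (.e (nat_lit 188418) (nat_lit 0) (.e (nat_lit 1856) (nat_lit 124) (.e (nat_lit 557105) (nat_lit 14) (.e (nat_lit 188160) (nat_lit 32) .nil)))))) (.g (nat_lit 4) .nil .nil)))) (.nd (nat_lit 5) 
(.lf (nat_lit 40211) (.g (nat_lit 761) (.e (nat_lit 1232) (nat_lit 91) (.e (nat_lit 90176) (nat_lit 15) (.e (nat_lit 188449) (nat_lit 22) .nil))) .nil)) 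
(.lf (nat_lit 40243) (.g (nat_lit 2808) (.e (nat_lit 1233) (nat_lit 91) (.e (nat_lit 90177) (nat_lit 15) (.e (nat_lit 188452) (nat_lit 23) (.e (nat_lit 204846) (nat_lit 24) .nil)))) .nil)))) (.nd (nat_lit 4) (.nd (nat_lit 5) 
(.lf (nat_lit 40203) (.g (nat_lit 1503) (.e (nat_lit 1232) (nat_lit 91) (.e (nat_lit 90172) (nat_lit 14) (.e (nat_lit 180285) (nat_lit 45) (.e (nat_lit 2569) (nat_lit 160) .nil)))) .nil)) 
(.lf (nat_lit 40235) (.g (nat_lit 4938) (.e (nat_lit 1232) (nat_lit 91) (.e (nat_lit 90178) (nat_lit 15) (.e (nat_lit 188452) (nat_lit 23) (.e (nat_lit 204846) (nat_lit 24) (.e (nat_lit 319511) (nat_lit 10) .nil))))) .nil))) (.nd (nat_lit 5) 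
(.lf (nat_lit 40219) (.g (nat_lit 1883) (.e (nat_lit 1232) (nat_lit 91) (.e (nat_lit 90177) (nat_lit 15) (.e (nat_lit 188452) (nat_lit 23) (.e (nat_lit 204816) (nat_lit 17) .nil)))) .nil)) 
(.lf (nat_lit 40251) (.g (nat_lit 2113) (.e (nat_lit 1234) (nat_lit 91) (.e (nat_lit 98048) (nat_lit 6) (.e (nat_lit 81951) (nat_lit 22) (.e (nat_lit 90170) (nat_lit 13) (.e (nat_lit 172042) (nat_lit 0) (.e (nat_lit 3388) (nat_lit 210) (.e (nat_lit 639011) (nat_lit 13) .nil))))))) (.g (nat_lit 4) .nil .nil)))))) (.nd (nat_lit 3) (.nd (nat_lit 4) (.nd (nat_lit 5) 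
(.lf (nat_lit 40199) (.g (nat_lit 2663) (.e (nat_lit 1232) (nat_lit 91) (.e (nat_lit 90172) (nat_lit 14) (.e (nat_lit 180278) (nat_lit 32) (.e (nat_lit 1253) (nat_lit 92) (.e (nat_lit 98350) (nat_lit 24) (.e (nat_lit 409603) (nat_lit 0) (.e (nat_lit 5293) (nat_lit 298) .nil))))))) (.g (nat_lit 5) .nil .nil))) 
(.lf (nat_lit 40231) (.g (nat_lit 2586) (.e (nat_lit 1232) (nat_lit 91) (.e (nat_lit 90178) (nat_lit 15) (.e (nat_lit 188450) (nat_lit 23) (.e (nat_lit 204846) (nat_lit 24) (.e (nat_lit 319511) (nat_lit 10) (.e (nat_lit 5293) (nat_lit 298) .nil)))))) (.g (nat_lit 4) .nil .nil)))) (.nd (nat_lit 5) 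
(.lf (nat_lit 40215) (.g (nat_lit 2896) (.e (nat_lit 1232) (nat_lit 91) (.e (nat_lit 90176) (nat_lit 15) (.e (nat_lit 188452) (nat_lit 23) (.e (nat_lit 204816) (nat_lit 17) .nil)))) .nil)) 
(.lf (nat_lit 40247) (.g (nat_lit 3987) (.e (nat_lit 1234) (nat_lit 91) (.e (nat_lit 98048) (nat_lit 5) (.e (nat_lit 73753) (nat_lit 8) (.e (nat_lit 557105) (nat_lit 14) (.e (nat_lit 180252) (nat_lit 10) (.e (nat_lit 573474) (nat_lit 12) (.e (nat_lit 57516) (nat_lit 42) (.e (nat_lit 671750) (nat_lit 0) .nil)))))))) (.g (nat_lit 7) .nil .nil))))) (.nd (nat_lit 4) (.nd (nat_lit 5) 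
(.lf (nat_lit 40207) (.g (nat_lit 1217) (.e (nat_lit 1232) (nat_lit 91) (.e (nat_lit 90174) (nat_lit 14) (.e (nat_lit 180277) (nat_lit 32) (.e (nat_lit 1235) (nat_lit 91) .nil)))) .nil)) 
(.lf (nat_lit 40239) (.g (nat_lit 1973) (.e (nat_lit 1233) (nat_lit 91) (.e (nat_lit 90173) (nat_lit 14) (.e (nat_lit 180252) (nat_lit 10) (.e (nat_lit 573489) (nat_lit 14) (.e (nat_lit 73755) (nat_lit 8) (.e (nat_lit 557090) (nat_lit 12) (.e (nat_lit 164007) (nat_lit 41) (.e (nat_lit 663552) (nat_lit 0) .nil)))))))) (.g (nat_lit 4) .nil .nil)))) (.nd (nat_lit 5) 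
(.lf (nat_lit 40223) (.g (nat_lit 1691) (.e (nat_lit 1232) (nat_lit 91) (.e (nat_lit 90177) (nat_lit 15) (.e (nat_lit 188452) (nat_lit 23) (.e (nat_lit 204848) (nat_lit 25) .nil)))) .nil)) 
(.lf (nat_lit 40255) (.g (nat_lit 2004) (.e (nat_lit 1234) (nat_lit 91) (.e (nat_lit 98048) (nat_lit 6) (.e (nat_lit 81951) (nat_lit 22) (.e (nat_lit 90170) (nat_lit 13) (.e (nat_lit 172049) (nat_lit 0) (.e (nat_lit 3388) (nat_lit 210) (.e (nat_lit 639010) (nat_lit 13) .nil))))))) (.g (nat_lit 4) .nil .nil)))))))))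

noncomputable def tv558 : DT := (.nd (nat_lit 0) (.nd (nat_lit 1) (.nd (nat_lit 2) (.nd (nat_lit 3) (.nd (nat_lit 4) (.nd (nat_lit 5) 
(.lf (nat_lit 40256) (.g (nat_lit 1986) (.e (nat_lit 1234) (nat_lit 91) (.e (nat_lit 98048) (nat_lit 6) (.e (nat_lit 81951) (nat_lit 22) (.e (nat_lit 90170) (nat_lit 13) (.e (nat_lit 172049) (nat_lit 0) (.e (nat_lit 3389) (nat_lit 210) (.e (nat_lit 639010) (nat_lit 13) .nil))))))) (.g (nat_lit 4) .nil .nil))) 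
(.lf (nat_lit 40288) (.g (nat_lit 3059) (.e (nat_lit 1234) (nat_lit 91) (.e (nat_lit 90158) (nat_lit 11) (.e (nat_lit 24628) (nat_lit 9) (.e (nat_lit 336019) (nat_lit 3) (.e (nat_lit 98356) (nat_lit 26) (.e (nat_lit 426440) (nat_lit 19) (.e (nat_lit 106520) (nat_lit 9) .nil))))))) (.g (nat_lit 5) .nil .nil)))) (.nd (nat_lit 5) 
(.lf (nat_lit 40272) (.g (nat_lit 2707) (.e (nat_lit 1234) (nat_lit 91) (.e (nat_lit 98048) (nat_lit 6) (.e (nat_lit 81956) (nat_lit 23) (.e (nat_lit 98356) (nat_lit 26) (.e (nat_lit 426422) (nat_lit 16) (.e (nat_lit 57726) (nat_lit 181) (.e (nat_lit 1039) (nat_lit 81) .nil))))))) (.g (nat_lit 5) .nil .nil))) 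
(.lf (nat_lit 40304) (.g (nat_lit 2958) (.e (nat_lit 1234) (nat_lit 91) (.e (nat_lit 90158) (nat_lit 11) (.e (nat_lit 24628) (nat_lit 9) (.e (nat_lit 336019) (nat_lit 3) (.e (nat_lit 98384) (nat_lit 32) (.e (nat_lit 475201) (nat_lit 40) (.e (nat_lit 704655) (nat_lit 9) .nil))))))) (.g (nat_lit 5) .nil .nil))))) (.nd (nat_lit 4) (.nd (nat_lit 5) 
(.lf (nat_lit 40264) (.g (nat_lit 1502) (.e (nat_lit 1234) (nat_lit 91) (.e (nat_lit 98048) (nat_lit 6) (.e (nat_lit 81954) (nat_lit 23) (.e (nat_lit 98366) (nat_lit 27) (.e (nat_lit 434266) (nat_lit 35) (.e (nat_lit 630812) (nat_lit 13) .nil)))))) (.g (nat_lit 4) .nil .nil))) 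
(.lf (nat_lit 40296) (.g (nat_lit 2405) (.e (nat_lit 1234) (nat_lit 91) (.e (nat_lit 90158) (nat_lit 11) (.e (nat_lit 24628) (nat_lit 9) (.e (nat_lit 336019) (nat_lit 3) (.e (nat_lit 98384) (nat_lit 32) (.e (nat_lit 475195) (nat_lit 40) (.e (nat_lit 704661) (nat_lit 9) .nil))))))) (.g (nat_lit 4) .nil .nil)))) (.nd (nat_lit 5) 
(.lf (nat_lit 40280) (.g (nat_lit 2743) (.e (nat_lit 1234) (nat_lit 91) (.e (nat_lit 98048) (nat_lit 8) (.e (nat_lit 131116) (nat_lit 9) (.e (nat_lit 336012) (nat_lit 2) (.e (nat_lit 90172) (nat_lit 14) (.e (nat_lit 180260) (nat_lit 18) (.e (nat_lit 639011) (nat_lit 13) .nil))))))) (.g (nat_lit 6) .nil .nil))) 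
(.lf (nat_lit 40312) (.g (nat_lit 3980) (.e (nat_lit 1234) (nat_lit 91) (.e (nat_lit 90158) (nat_lit 11) (.e (nat_lit 24628) (nat_lit 9) (.e (nat_lit 336019) (nat_lit 3) (.e (nat_lit 98384) (nat_lit 32) (.e (nat_lit 475201) (nat_lit 40) (.e (nat_lit 704664) (nat_lit 9) .nil))))))) (.g (nat_lit 6) .nil .nil)))))) (.nd (nat_lit 3) (.nd (nat_lit 4) (.nd (nat_lit 5) 
(.lf (nat_lit 40260) (.g (nat_lit 2312) (.e (nat_lit 1234) (nat_lit 91) (.e (nat_lit 98048) (nat_lit 6) (.e (nat_lit 81954) (nat_lit 23) (.e (nat_lit 98356) (nat_lit 26) (.e (nat_lit 426361) (nat_lit 15) (.e (nat_lit 2027) (nat_lit 140) (.e (nat_lit 688154) (nat_lit 13) .nil))))))) (.g (nat_lit 5) .nil .nil))) 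
(.lf (nat_lit 40292) (.g (nat_lit 3045) (.e (nat_lit 1234) (nat_lit 91) (.e (nat_lit 90158) (nat_lit 11) (.e (nat_lit 24628) (nat_lit 9) (.e (nat_lit 336019) (nat_lit 3) (.e (nat_lit 98356) (nat_lit 26) (.e (nat_lit 426467) (nat_lit 24) (.e (nat_lit 155667) (nat_lit 9) .nil))))))) (.g (nat_lit 5) .nil .nil)))) (.nd (nat_lit 5) 
(.lf (nat_lit 40276) (.g (nat_lit 2031) (.e (nat_lit 1234) (nat_lit 91) (.e (nat_lit 98048) (nat_lit 6) (.e (nat_lit 81956) (nat_lit 23) (.e (nat_lit 98367) (nat_lit 27) (.e (nat_lit 434265) (nat_lit 35) (.e (nat_lit 630814) (nat_lit 13) .nil)))))) (.g (nat_lit 4) .nil .nil))) 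
(.lf (nat_lit 40308) (.g (nat_lit 3633) (.e (nat_lit 1234) (nat_lit 91) (.e (nat_lit 90158) (nat_lit 11) (.e (nat_lit 24628) (nat_lit 9) (.e (nat_lit 336019) (nat_lit 3) (.e (nat_lit 98384) (nat_lit 32) (.e (nat_lit 475201) (nat_lit 40) (.e (nat_lit 704659) (nat_lit 9) .nil))))))) (.g (nat_lit 5) .nil .nil))))) (.nd (nat_lit 4) (.nd (nat_lit 5) 
(.lf (nat_lit 40268) (.g (nat_lit 2056) (.e (nat_lit 1234) (nat_lit 91) (.e (nat_lit 98048) (nat_lit 6) (.e (nat_lit 81956) (nat_lit 23) (.e (nat_lit 98356) (nat_lit 26) (.e (nat_lit 426361) (nat_lit 15) (.e (nat_lit 2027) (nat_lit 140) (.e (nat_lit 688154) (nat_lit 13) .nil))))))) (.g (nat_lit 4) .nil .nil))) 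
(.lf (nat_lit 40300) (.g (nat_lit 4564) (.e (nat_lit 1234) (nat_lit 91) (.e (nat_lit 90158) (nat_lit 11) (.e (nat_lit 24628) (nat_lit 9) (.e (nat_lit 336019) (nat_lit 3) (.e (nat_lit 98384) (nat_lit 32) (.e (nat_lit 475201) (nat_lit 40) (.e (nat_lit 704620) (nat_lit 9) .nil))))))) (.g (nat_lit 0) .nil .nil)))) (.nd (nat_lit 5) 
(.lf (nat_lit 40284) (.g (nat_lit 1936) (.e (nat_lit 1234) (nat_lit 91) (.e (nat_lit 90158) (nat_lit 11) (.e (nat_lit 24628) (nat_lit 9) (.e (nat_lit 336019) (nat_lit 3) (.e (nat_lit 98356) (nat_lit 26) .nil))))) .nil)) 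
(.lf (nat_lit 40316) (.g (nat_lit 1137) (.e (nat_lit 1234) (nat_lit 91) (.e (nat_lit 90158) (nat_lit 11) (.e (nat_lit 24630) (nat_lit 9) (.e (nat_lit 336454) (nat_lit 34) .nil)))) .nil)))))) (.nd (nat_lit 2) (.nd (nat_lit 3) (.nd (nat_lit 4) (.nd (nat_lit 5) 
(.lf (nat_lit 40258) (.g (nat_lit 2215) (.e (nat_lit 1234) (nat_lit 91) (.e (nat_lit 98048) (nat_lit 6) (.e (nat_lit 81951) (nat_lit 22) (.e (nat_lit 90170) (nat_lit 13) (.e (nat_lit 172049) (nat_lit 0) (.e (nat_lit 3390) (nat_lit 210) (.e (nat_lit 639011) (nat_lit 13) .nil))))))) (.g (nat_lit 6) .nil .nil))) 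
(.lf (nat_lit 40290) (.g (nat_lit 2812) (.e (nat_lit 1234) (nat_lit 91) (.e (nat_lit 90158) (nat_lit 11) (.e (nat_lit 24628) (nat_lit 9) (.e (nat_lit 336019) (nat_lit 3) (.e (nat_lit 98356) (nat_lit 26) (.e (nat_lit 426440) (nat_lit 19) (.e (nat_lit 106526) (nat_lit 9) .nil))))))) (.g (nat_lit 4) .nil .nil)))) (.nd (nat_lit 5) 
(.lf (nat_lit 40274) (.g (nat_lit 2669) (.e (nat_lit 1234) (nat_lit 91) (.e (nat_lit 98048) (nat_lit 6) (.e (nat_lit 81956) (nat_lit 23) (.e (nat_lit 98356) (nat_lit 26) (.e (nat_lit 426422) (nat_lit 16) (.e (nat_lit 57726) (nat_lit 181) (.e (nat_lit 1086) (nat_lit 81) .nil))))))) (.g (nat_lit 5) .nil .nil))) 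
(.lf (nat_lit 40306) (.g (nat_lit 3477) (.e (nat_lit 1234) (nat_lit 91) (.e (nat_lit 90158) (nat_lit 11) (.e (nat_lit 24628) (nat_lit 9) (.e (nat_lit 336019) (nat_lit 3) (.e (nat_lit 98384) (nat_lit 32) (.e (nat_lit 475201) (nat_lit 40) (.e (nat_lit 704657) (nat_lit 9) .nil))))))) (.g (nat_lit 5) .nil .nil))))) (.nd (nat_lit 4) (.nd (nat_lit 5) 
(.lf (nat_lit 40266) (.g (nat_lit 1712) (.e (nat_lit 1234) (nat_lit 91) (.e (nat_lit 98048) (nat_lit 6) (.e (nat_lit 81954) (nat_lit 23) (.e (nat_lit 98368) (nat_lit 27) (.e (nat_lit 434266) (nat_lit 35) (.e (nat_lit 630812) (nat_lit 13) .nil)))))) (.g (nat_lit 5) .nil .nil))) 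
(.lf (nat_lit 40298) (.g (nat_lit 2684) (.e (nat_lit 1234) (nat_lit 91) (.e (nat_lit 90158) (nat_lit 11) (.e (nat_lit 24628) (nat_lit 9) (.e (nat_lit 336019) (nat_lit 3) (.e (nat_lit 98384) (nat_lit 32) (.e (nat_lit 475198) (nat_lit 40) (.e (nat_lit 704707) (nat_lit 9) .nil))))))) (.g (nat_lit 4) .nil .nil)))) (.nd (nat_lit 5) 
(.lf (nat_lit 40282) (.g (nat_lit 1741) (.e (nat_lit 1234) (nat_lit 91) (.e (nat_lit 90158) (nat_lit 11) (.e (nat_lit 24625) (nat_lit 9) (.e (nat_lit 336454) (nat_lit 34) (.e (nat_lit 483365) (nat_lit 18) .nil))))) .nil)) 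
(.lf (nat_lit 40314) (.g (nat_lit 3262) (.e (nat_lit 1234) (nat_lit 91) (.e (nat_lit 90158) (nat_lit 11) (.e (nat_lit 24628) (nat_lit 9) (.e (nat_lit 336019) (nat_lit 3) (.e (nat_lit 98384) (nat_lit 32) (.e (nat_lit 475201) (nat_lit 40) (.e (nat_lit 704671) (nat_lit 9) .nil))))))) (.g (nat_lit 5) .nil .nil)))))) (.nd (nat_lit 3) (.nd (nat_lit 4) (.nd (nat_lit 5) 
(.lf (nat_lit 40262) (.g (nat_lit 2355) (.e (nat_lit 1234) (nat_lit 91) (.e (nat_lit 98048) (nat_lit 6) (.e (nat_lit 81954) (nat_lit 23) (.e (nat_lit 98356) (nat_lit 26) (.e (nat_lit 426361) (nat_lit 15) (.e (nat_lit 2032) (nat_lit 140) (.e (nat_lit 688158) (nat_lit 13) .nil))))))) (.g (nat_lit 5) .nil .nil))) 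
(.lf (nat_lit 40294) (.g (nat_lit 2816) (.e (nat_lit 1234) (nat_lit 91) (.e (nat_lit 90158) (nat_lit 11) (.e (nat_lit 24628) (nat_lit 9) (.e (nat_lit 336019) (nat_lit 3) (.e (nat_lit 98358) (nat_lit 26) (.e (nat_lit 426444) (nat_lit 19) (.e (nat_lit 106504) (nat_lit 9) .nil))))))) (.g (nat_lit 4) .nil .nil)))) (.nd (nat_lit 5) 
(.lf (nat_lit 40278) (.g (nat_lit 2924) (.e (nat_lit 1234) (nat_lit 91) (.e (nat_lit 98048) (nat_lit 6) (.e (nat_lit 81956) (nat_lit 23) (.e (nat_lit 98367) (nat_lit 27) (.e (nat_lit 434268) (nat_lit 36) (.e (nat_lit 639009) (nat_lit 13) .nil)))))) (.g (nat_lit 5) .nil .nil))) 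
(.lf (nat_lit 40310) (.g (nat_lit 3256) (.e (nat_lit 1234) (nat_lit 91) (.e (nat_lit 90158) (nat_lit 11) (.e (nat_lit 24628) (nat_lit 9) (.e (nat_lit 336019) (nat_lit 3) (.e (nat_lit 98384) (nat_lit 32) (.e (nat_lit 475201) (nat_lit 40) (.e (nat_lit 704662) (nat_lit 9) .nil))))))) (.g (nat_lit 5) .nil .nil))))) (.nd (nat_lit 4) (.nd (nat_lit 5) 
(.lf (nat_lit 40270) (.g (nat_lit 2060) (.e (nat_lit 1234) (nat_lit 91) (.e (nat_lit 98048) (nat_lit 6) (.e (nat_lit 81956) (nat_lit 23) (.e (nat_lit 98356) (nat_lit 26) (.e (nat_lit 426361) (nat_lit 15) (.e (nat_lit 2032) (nat_lit 140) (.e (nat_lit 688157) (nat_lit 13) .nil))))))) (.g (nat_lit 4) .nil .nil))) 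
(.lf (nat_lit 40302) (.g (nat_lit 3372) (.e (nat_lit 1234) (nat_lit 91) (.e (nat_lit 90158) (nat_lit 11) (.e (nat_lit 24628) (nat_lit 9) (.e (nat_lit 336019) (nat_lit 3) (.e (nat_lit 98384) (nat_lit 32) (.e (nat_lit 475201) (nat_lit 40) (.e (nat_lit 704653) (nat_lit 9) .nil))))))) (.g (nat_lit 5) .nil .nil)))) (.nd (nat_lit 5) 
(.lf (nat_lit 40286) (.g (nat_lit 3371) (.e (nat_lit 1234) (nat_lit 91) (.e (nat_lit 90158) (nat_lit 11) (.e (nat_lit 24628) (nat_lit 9) (.e (nat_lit 336019) (nat_lit 3) (.e (nat_lit 98356) (nat_lit 26) (.e (nat_lit 426440) (nat_lit 19) (.e (nat_lit 106514) (nat_lit 9) .nil))))))) (.g (nat_lit 5) .nil .nil))) 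
(.lf (nat_lit 40318) (.g (nat_lit 1911) (.e (nat_lit 1234) (nat_lit 91) (.e (nat_lit 90158) (nat_lit 11) (.e (nat_lit 24636) (nat_lit 9) (.e (nat_lit 336017) (nat_lit 3) (.e (nat_lit 98384) (nat_lit 32) (.e (nat_lit 475201) (nat_lit 40) (.e (nat_lit 704658) (nat_lit 9) .nil))))))) (.g (nat_lit 4) .nil .nil)))))))) 
(.nd (nat_lit 1) (.nd (nat_lit 2) (.nd (nat_lit 3) (.nd (nat_lit 4) (.nd (nat_lit 5) 
(.lf (nat_lit 40257) (.g (nat_lit 2184) (.e (nat_lit 1234) (nat_lit 91) (.e (nat_lit 98048) (nat_lit 6) (.e (nat_lit 81951) (nat_lit 22) (.e (nat_lit 90170) (nat_lit 13) (.e (nat_lit 172049) (nat_lit 0) (.e (nat_lit 3390) (nat_lit 210) (.e (nat_lit 639010) (nat_lit 13) .nil))))))) (.g (nat_lit 5) .nil .nil))) 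
(.lf (nat_lit 40289) (.g (nat_lit 3277) (.e (nat_lit 1234) (nat_lit 91) (.e (nat_lit 90158) (nat_lit 11) (.e (nat_lit 24628) (nat_lit 9) (.e (nat_lit 336019) (nat_lit 3) (.e (nat_lit 98356) (nat_lit 26) (.e (nat_lit 426440) (nat_lit 19) (.e (nat_lit 106523) (nat_lit 9) .nil))))))) (.g (nat_lit 5) .nil .nil)))) (.nd (nat_lit 5) 
(.lf (nat_lit 40273) (.g (nat_lit 2457) (.e (nat_lit 1234) (nat_lit 91) (.e (nat_lit 98048) (nat_lit 6) (.e (nat_lit 81956) (nat_lit 23) (.e (nat_lit 98356) (nat_lit 26) (.e (nat_lit 426422) (nat_lit 16) (.e (nat_lit 57726) (nat_lit 181) (.e (nat_lit 1042) (nat_lit 81) .nil))))))) (.g (nat_lit 5) .nil .nil))) 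
(.lf (nat_lit 40305) (.g (nat_lit 3463) (.e (nat_lit 1234) (nat_lit 91) (.e (nat_lit 90158) (nat_lit 11) (.e (nat_lit 24628) (nat_lit 9) (.e (nat_lit 336019) (nat_lit 3) (.e (nat_lit 98384) (nat_lit 32) (.e (nat_lit 475201) (nat_lit 40) (.e (nat_lit 704656) (nat_lit 9) .nil))))))) (.g (nat_lit 5) .nil .nil))))) (.nd (nat_lit 4) (.nd (nat_lit 5) 
(.lf (nat_lit 40265) (.g (nat_lit 2257) (.e (nat_lit 1234) (nat_lit 91) (.e (nat_lit 98048) (nat_lit 6) (.e (nat_lit 81954) (nat_lit 23) (.e (nat_lit 98367) (nat_lit 27) (.e (nat_lit 434266) (nat_lit 35) (.e (nat_lit 630812) (nat_lit 13) .nil)))))) (.g (nat_lit 5) .nil .nil))) 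
(.lf (nat_lit 40297) (.g (nat_lit 2417) (.e (nat_lit 1234) (nat_lit 91) (.e (nat_lit 90158) (nat_lit 11) (.e (nat_lit 24628) (nat_lit 9) (.e (nat_lit 336019) (nat_lit 3) (.e (nat_lit 98384) (nat_lit 32) (.e (nat_lit 475195) (nat_lit 40) (.e (nat_lit 704664) (nat_lit 9) .nil))))))) (.g (nat_lit 4) .nil .nil)))) (.nd (nat_lit 5) 
(.lf (nat_lit 40281) (.g (nat_lit 1238) (.e (nat_lit 1234) (nat_lit 91) (.e (nat_lit 90128) (nat_lit 9) (.e (nat_lit 334) (nat_lit 26) (.e (nat_lit 376862) (nat_lit 22) .nil)))) .nil)) 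
(.lf (nat_lit 40313) (.g (nat_lit 3428) (.e (nat_lit 1234) (nat_lit 91) (.e (nat_lit 90158) (nat_lit 11) (.e (nat_lit 24628) (nat_lit 9) (.e (nat_lit 336019) (nat_lit 3) (.e (nat_lit 98384) (nat_lit 32) (.e (nat_lit 475201) (nat_lit 40) (.e (nat_lit 704670) (nat_lit 9) .nil))))))) (.g (nat_lit 5) .nil .nil)))))) (.nd (nat_lit 3) (.nd (nat_lit 4) (.nd (nat_lit 5) 
(.lf (nat_lit 40261) (.g (nat_lit 2322) (.e (nat_lit 1234) (nat_lit 91) (.e (nat_lit 98048) (nat_lit 6) (.e (nat_lit 81954) (nat_lit 23) (.e (nat_lit 98356) (nat_lit 26) (.e (nat_lit 426361) (nat_lit 15) (.e (nat_lit 2032) (nat_lit 140) (.e (nat_lit 688157) (nat_lit 13) .nil))))))) (.g (nat_lit 5) .nil .nil))) 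
(.lf (nat_lit 40293) (.g (nat_lit 1976) (.e (nat_lit 1234) (nat_lit 91) (.e (nat_lit 90158) (nat_lit 11) (.e (nat_lit 24628) (nat_lit 9) (.e (nat_lit 336019) (nat_lit 3) (.e (nat_lit 98358) (nat_lit 26) .nil))))) .nil))) (.nd (nat_lit 5) 
(.lf (nat_lit 40277) (.g (nat_lit 2214) (.e (nat_lit 1234) (nat_lit 91) (.e (nat_lit 98048) (nat_lit 6) (.e (nat_lit 81956) (nat_lit 23) (.e (nat_lit 98367) (nat_lit 27) (.e (nat_lit 434266) (nat_lit 35) (.e (nat_lit 630812) (nat_lit 13) .nil)))))) (.g (nat_lit 5) .nil .nil))) 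
(.lf (nat_lit 40309) (.g (nat_lit 3370) (.e (nat_lit 1234) (nat_lit 91) (.e (nat_lit 90158) (nat_lit 11) (.e (nat_lit 24628) (nat_lit 9) (.e (nat_lit 336019) (nat_lit 3) (.e (nat_lit 98384) (nat_lit 32) (.e (nat_lit 475201) (nat_lit 40) (.e (nat_lit 704661) (nat_lit 9) .nil))))))) (.g (nat_lit 5) .nil .nil))))) (.nd (nat_lit 4) (.nd (nat_lit 5) 
(.lf (nat_lit 40269) (.g (nat_lit 2438) (.e (nat_lit 1234) (nat_lit 91) (.e (nat_lit 98048) (nat_lit 6) (.e (nat_lit 81956) (nat_lit 23) (.e (nat_lit 98356) (nat_lit 26) (.e (nat_lit 426361) (nat_lit 15) (.e (nat_lit 2032) (nat_lit 140) (.e (nat_lit 688154) (nat_lit 13) .nil))))))) (.g (nat_lit 5) .nil .nil))) 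
(.lf (nat_lit 40301) (.g (nat_lit 3443) (.e (nat_lit 1234) (nat_lit 91) (.e (nat_lit 90158) (nat_lit 11) (.e (nat_lit 24628) (nat_lit 9) (.e (nat_lit 336019) (nat_lit 3) (.e (nat_lit 98384) (nat_lit 32) (.e (nat_lit 475201) (nat_lit 40) (.e (nat_lit 704652) (nat_lit 9) .nil))))))) (.g (nat_lit 5) .nil .nil)))) (.nd (nat_lit 5) 
(.lf (nat_lit 40285) (.g (nat_lit 2757) (.e (nat_lit 1234) (nat_lit 91) (.e (nat_lit 90158) (nat_lit 11) (.e (nat_lit 24628) (nat_lit 9) (.e (nat_lit 336019) (nat_lit 3) (.e (nat_lit 98356) (nat_lit 26) (.e (nat_lit 426440) (nat_lit 19) (.e (nat_lit 106504) (nat_lit 9) .nil))))))) (.g (nat_lit 4) .nil .nil))) 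
(.lf (nat_lit 40317) (.g (nat_lit 2579) (.e (nat_lit 1234) (nat_lit 91) (.e (nat_lit 90158) (nat_lit 11) (.e (nat_lit 24636) (nat_lit 9) (.e (nat_lit 336017) (nat_lit 3) (.e (nat_lit 98384) (nat_lit 32) (.e (nat_lit 475201) (nat_lit 40) (.e (nat_lit 704620) (nat_lit 9) .nil))))))) (.g (nat_lit 5) .nil .nil))))))) (.nd (nat_lit 2) (.nd (nat_lit 3) (.nd (nat_lit 4) (.nd (nat_lit 5) 
(.lf (nat_lit 40259) (.g (nat_lit 1893) (.e (nat_lit 1234) (nat_lit 91) (.e (nat_lit 98048) (nat_lit 6) (.e (nat_lit 81951) (nat_lit 22) (.e (nat_lit 90170) (nat_lit 13) (.e (nat_lit 172049) (nat_lit 0) (.e (nat_lit 3391) (nat_lit 210) (.e (nat_lit 639010) (nat_lit 13) .nil))))))) (.g (nat_lit 4) .nil .nil))) 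
(.lf (nat_lit 40291) (.g (nat_lit 3157) (.e (nat_lit 1234) (nat_lit 91) (.e (nat_lit 90158) (nat_lit 11) (.e (nat_lit 24628) (nat_lit 9) (.e (nat_lit 336019) (nat_lit 3) (.e (nat_lit 98356) (nat_lit 26) (.e (nat_lit 426444) (nat_lit 19) (.e (nat_lit 106504) (nat_lit 9) .nil))))))) (.g (nat_lit 6) .nil .nil)))) (.nd (nat_lit 5) 
(.lf (nat_lit 40275) (.g (nat_lit 1396) (.e (nat_lit 1234) (nat_lit 91) (.e (nat_lit 98048) (nat_lit 6) (.e (nat_lit 81956) (nat_lit 23) (.e (nat_lit 98366) (nat_lit 27) (.e (nat_lit 434266) (nat_lit 35) (.e (nat_lit 630812) (nat_lit 13) .nil)))))) (.g (nat_lit 4) .nil .nil))) 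
(.lf (nat_lit 40307) (.g (nat_lit 4329) (.e (nat_lit 1234) (nat_lit 91) (.e (nat_lit 90158) (nat_lit 11) (.e (nat_lit 24628) (nat_lit 9) (.e (nat_lit 336019) (nat_lit 3) (.e (nat_lit 98384) (nat_lit 32) (.e (nat_lit 475201) (nat_lit 40) (.e (nat_lit 704658) (nat_lit 9) .nil))))))) (.g (nat_lit 6) .nil .nil))))) (.nd (nat_lit 4) (.nd (nat_lit 5) 
(.lf (nat_lit 40267) (.g (nat_lit 2107) (.e (nat_lit 1234) (nat_lit 91) (.e (nat_lit 98048) (nat_lit 6) (.e (nat_lit 81954) (nat_lit 23) (.e (nat_lit 98384) (nat_lit 32) (.e (nat_lit 475193) (nat_lit 38) (.e (nat_lit 688157) (nat_lit 13) .nil)))))) (.g (nat_lit 4) .nil .nil))) 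
(.lf (nat_lit 40299) (.g (nat_lit 3641) (.e (nat_lit 1234) (nat_lit 91) (.e (nat_lit 90158) (nat_lit 11) (.e (nat_lit 24628) (nat_lit 9) (.e (nat_lit 336019) (nat_lit 3) (.e (nat_lit 98384) (nat_lit 32) (.e (nat_lit 475199) (nat_lit 40) (.e (nat_lit 704707) (nat_lit 9) .nil))))))) (.g (nat_lit 6) .nil .nil)))) (.nd (nat_lit 5) 
(.lf (nat_lit 40283) (.g (nat_lit 1300) (.e (nat_lit 1234) (nat_lit 91) (.e (nat_lit 90158) (nat_lit 11) (.e (nat_lit 24628) (nat_lit 9) (.e (nat_lit 336019) (nat_lit 3) .nil)))) .nil)) 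
(.lf (nat_lit 40315) (.g (nat_lit 1019) (.e (nat_lit 1234) (nat_lit 91) (.e (nat_lit 90158) (nat_lit 11) (.e (nat_lit 24628) (nat_lit 9) (.e (nat_lit 336454) (nat_lit 34) .nil)))) .nil))))) (.nd (nat_lit 3) (.nd (nat_lit 4) (.nd (nat_lit 5) 
(.lf (nat_lit 40263) (.g (nat_lit 2356) (.e (nat_lit 1234) (nat_lit 91) (.e (nat_lit 98048) (nat_lit 6) (.e (nat_lit 81954) (nat_lit 23) (.e (nat_lit 98356) (nat_lit 26) (.e (nat_lit 426422) (nat_lit 16) (.e (nat_lit 57726) (nat_lit 181) (.e (nat_lit 1042) (nat_lit 81) .nil))))))) (.g (nat_lit 5) .nil .nil))) 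
(.lf (nat_lit 40295) (.g (nat_lit 1939) (.e (nat_lit 1234) (nat_lit 91) (.e (nat_lit 90158) (nat_lit 11) (.e (nat_lit 24628) (nat_lit 9) (.e (nat_lit 336019) (nat_lit 3) (.e (nat_lit 98384) (nat_lit 32) .nil))))) .nil))) (.nd (nat_lit 5) 
(.lf (nat_lit 40279) (.g (nat_lit 2324) (.e (nat_lit 1234) (nat_lit 91) (.e (nat_lit 98048) (nat_lit 8) (.e (nat_lit 131116) (nat_lit 9) (.e (nat_lit 336004) (nat_lit 2) (.e (nat_lit 90172) (nat_lit 14) (.e (nat_lit 180260) (nat_lit 18) (.e (nat_lit 639011) (nat_lit 13) .nil))))))) (.g (nat_lit 6) .nil .nil))) 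
(.lf (nat_lit 40311) (.g (nat_lit 3528) (.e (nat_lit 1234) (nat_lit 91) (.e (nat_lit 90158) (nat_lit 11) (.e (nat_lit 24628) (nat_lit 9) (.e (nat_lit 336019) (nat_lit 3) (.e (nat_lit 98384) (nat_lit 32) (.e (nat_lit 475201) (nat_lit 40) (.e (nat_lit 704663) (nat_lit 9) .nil))))))) (.g (nat_lit 5) .nil .nil))))) (.nd (nat_lit 4) (.nd (nat_lit 5) 
(.lf (nat_lit 40271) (.g (nat_lit 2093) (.e (nat_lit 1234) (nat_lit 91) (.e (nat_lit 98048) (nat_lit 6) (.e (nat_lit 81956) (nat_lit 23) (.e (nat_lit 98356) (nat_lit 26) (.e (nat_lit 426361) (nat_lit 15) (.e (nat_lit 2032) (nat_lit 140) (.e (nat_lit 688158) (nat_lit 13) .nil))))))) (.g (nat_lit 4) .nil .nil))) 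
(.lf (nat_lit 40303) (.g (nat_lit 3595) (.e (nat_lit 1234) (nat_lit 91) (.e (nat_lit 90158) (nat_lit 11) (.e (nat_lit 24628) (nat_lit 9) (.e (nat_lit 336019) (nat_lit 3) (.e (nat_lit 98384) (nat_lit 32) (.e (nat_lit 475201) (nat_lit 40) (.e (nat_lit 704654) (nat_lit 9) .nil))))))) (.g (nat_lit 5) .nil .nil)))) (.nd (nat_lit 5) 
(.lf (nat_lit 40287) (.g (nat_lit 3113) (.e (nat_lit 1234) (nat_lit 91) (.e (nat_lit 90158) (nat_lit 11) (.e (nat_lit 24628) (nat_lit 9) (.e (nat_lit 336019) (nat_lit 3) (.e (nat_lit 98356) (nat_lit 26) (.e (nat_lit 426440) (nat_lit 19) (.e (nat_lit 106515) (nat_lit 9) .nil))))))) (.g (nat_lit 5) .nil .nil))) 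
(.lf (nat_lit 40319) (.g (nat_lit 2011) (.e (nat_lit 1234) (nat_lit 91) (.e (nat_lit 90158) (nat_lit 11) (.e (nat_lit 24643) (nat_lit 11) (.e (nat_lit 368676) (nat_lit 21) (.e (nat_lit 516146) (nat_lit 9) (.e (nat_lit 426440) (nat_lit 19) (.e (nat_lit 106504) (nat_lit 9) .nil))))))) (.g (nat_lit 4) .nil .nil)))))))))

noncomputable def tv559 : DT := (.nd (nat_lit 0) (.nd (nat_lit 1) (.nd (nat_lit 2) (.nd (nat_lit 3) (.nd (nat_lit 4) (.nd (nat_lit 5) 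
(.lf (nat_lit 40320) (.g (nat_lit 2591) (.e (nat_lit 1234) (nat_lit 91) (.e (nat_lit 90158) (nat_lit 11) (.e (nat_lit 24643) (nat_lit 11) (.e (nat_lit 368676) (nat_lit 21) (.e (nat_lit 516146) (nat_lit 9) (.e (nat_lit 426440) (nat_lit 19) (.e (nat_lit 106514) (nat_lit 9) .nil))))))) (.g (nat_lit 5) .nil .nil))) 
(.lf (nat_lit 40352) (.g (nat_lit 3429) (.e (nat_lit 1234) (nat_lit 91) (.e (nat_lit 90158) (nat_lit 11) (.e (nat_lit 24644) (nat_lit 11) (.e (nat_lit 368676) (nat_lit 21) (.e (nat_lit 516179) (nat_lit 15) (.e (nat_lit 475201) (nat_lit 40) (.e (nat_lit 704620) (nat_lit 9) .nil))))))) (.g (nat_lit 7) .nil .nil)))) (.nd (nat_lit 5) 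
(.lf (nat_lit 40336) (.g (nat_lit 1836) (.e (nat_lit 1234) (nat_lit 91) (.e (nat_lit 90158) (nat_lit 11) (.e (nat_lit 24643) (nat_lit 11) (.e (nat_lit 368676) (nat_lit 21) (.e (nat_lit 516179) (nat_lit 15) (.e (nat_lit 475201) (nat_lit 40) (.e (nat_lit 704661) (nat_lit 9) .nil))))))) (.g (nat_lit 4) .nil .nil))) 
(.lf (nat_lit 40368) (.g (nat_lit 2263) (.e (nat_lit 1234) (nat_lit 91) (.e (nat_lit 90158) (nat_lit 11) (.e (nat_lit 24655) (nat_lit 13) (.e (nat_lit 393258) (nat_lit 20) .nil)))) .nil)))) (.nd (nat_lit 4) (.nd (nat_lit 5) 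
(.lf (nat_lit 40328) (.g (nat_lit 3280) (.e (nat_lit 1234) (nat_lit 91) (.e (nat_lit 90158) (nat_lit 11) (.e (nat_lit 24643) (nat_lit 11) (.e (nat_lit 368676) (nat_lit 21) (.e (nat_lit 516179) (nat_lit 15) (.e (nat_lit 475201) (nat_lit 40) (.e (nat_lit 704620) (nat_lit 9) .nil))))))) (.g (nat_lit 7) .nil .nil))) 
(.lf (nat_lit 40360) (.g (nat_lit 1985) (.e (nat_lit 1234) (nat_lit 91) (.e (nat_lit 90158) (nat_lit 11) (.e (nat_lit 24644) (nat_lit 11) (.e (nat_lit 368676) (nat_lit 21) (.e (nat_lit 516179) (nat_lit 15) (.e (nat_lit 475201) (nat_lit 40) (.e (nat_lit 704661) (nat_lit 9) .nil))))))) (.g (nat_lit 4) .nil .nil)))) (.nd (nat_lit 5) 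
(.lf (nat_lit 40344) (.g (nat_lit 2499) (.e (nat_lit 1234) (nat_lit 91) (.e (nat_lit 90158) (nat_lit 11) (.e (nat_lit 24644) (nat_lit 11) (.e (nat_lit 368676) (nat_lit 21) (.e (nat_lit 516146) (nat_lit 9) (.e (nat_lit 426440) (nat_lit 19) (.e (nat_lit 106515) (nat_lit 9) .nil))))))) (.g (nat_lit 5) .nil .nil))) 
(.lf (nat_lit 40376) (.g (nat_lit 3022) (.e (nat_lit 1234) (nat_lit 91) (.e (nat_lit 90167) (nat_lit 13) (.e (nat_lit 172126) (nat_lit 14) (.e (nat_lit 491540) (nat_lit 3) (.e (nat_lit 98367) (nat_lit 27) (.e (nat_lit 434180) (nat_lit 0) .nil)))))) (.g (nat_lit 5) .nil .nil)))))) (.nd (nat_lit 3) (.nd (nat_lit 4) (.nd (nat_lit 5) 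
(.lf (nat_lit 40324) (.g (nat_lit 2066) (.e (nat_lit 1234) (nat_lit 91) (.e (nat_lit 90158) (nat_lit 11) (.e (nat_lit 24643) (nat_lit 11) (.e (nat_lit 368676) (nat_lit 21) (.e (nat_lit 516146) (nat_lit 9) (.e (nat_lit 426440) (nat_lit 19) (.e (nat_lit 106526) (nat_lit 9) .nil))))))) (.g (nat_lit 4) .nil .nil))) 
(.lf (nat_lit 40356) (.g (nat_lit 1908) (.e (nat_lit 1234) (nat_lit 91) (.e (nat_lit 90158) (nat_lit 11) (.e (nat_lit 24644) (nat_lit 11) (.e (nat_lit 368676) (nat_lit 21) (.e (nat_lit 516179) (nat_lit 15) (.e (nat_lit 475201) (nat_lit 40) (.e (nat_lit 704656) (nat_lit 9) .nil))))))) (.g (nat_lit 4) .nil .nil)))) (.nd (nat_lit 5) 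
(.lf (nat_lit 40340) (.g (nat_lit 1918) (.e (nat_lit 1234) (nat_lit 91) (.e (nat_lit 90158) (nat_lit 11) (.e (nat_lit 24643) (nat_lit 11) (.e (nat_lit 368676) (nat_lit 21) (.e (nat_lit 516179) (nat_lit 15) (.e (nat_lit 475201) (nat_lit 40) (.e (nat_lit 704670) (nat_lit 9) .nil))))))) (.g (nat_lit 4) .nil .nil))) 
(.lf (nat_lit 40372) (.g (nat_lit 847) (.e (nat_lit 1234) (nat_lit 91) (.e (nat_lit 90160) (nat_lit 11) (.e (nat_lit 24638) (nat_lit 9) .nil))) .nil)))) (.nd (nat_lit 4) (.nd (nat_lit 5) 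
(.lf (nat_lit 40332) (.g (nat_lit 1759) (.e (nat_lit 1234) (nat_lit 91) (.e (nat_lit 90158) (nat_lit 11) (.e (nat_lit 24643) (nat_lit 11) (.e (nat_lit 368676) (nat_lit 21) (.e (nat_lit 516179) (nat_lit 15) (.e (nat_lit 475201) (nat_lit 40) (.e (nat_lit 704656) (nat_lit 9) .nil))))))) (.g (nat_lit 4) .nil .nil))) 
(.lf (nat_lit 40364) (.g (nat_lit 2067) (.e (nat_lit 1234) (nat_lit 91) (.e (nat_lit 90158) (nat_lit 11) (.e (nat_lit 24644) (nat_lit 11) (.e (nat_lit 368676) (nat_lit 21) (.e (nat_lit 516179) (nat_lit 15) (.e (nat_lit 475201) (nat_lit 40) (.e (nat_lit 704670) (nat_lit 9) .nil))))))) (.g (nat_lit 4) .nil .nil)))) (.nd (nat_lit 5) 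
(.lf (nat_lit 40348) (.g (nat_lit 2701) (.e (nat_lit 1234) (nat_lit 91) (.e (nat_lit 90158) (nat_lit 11) (.e (nat_lit 24644) (nat_lit 11) (.e (nat_lit 368676) (nat_lit 21) (.e (nat_lit 516146) (nat_lit 9) (.e (nat_lit 426444) (nat_lit 19) (.e (nat_lit 106504) (nat_lit 9) .nil))))))) (.g (nat_lit 5) .nil .nil))) 
(.lf (nat_lit 40380) (.g (nat_lit 2412) (.e (nat_lit 1234) (nat_lit 91) (.e (nat_lit 90170) (nat_lit 13) (.e (nat_lit 172065) (nat_lit 3) (.e (nat_lit 204834) (nat_lit 19) (.e (nat_lit 106517) (nat_lit 9) (.e (nat_lit 1255) (nat_lit 92) (.e (nat_lit 98322) (nat_lit 17) (.e (nat_lit 3420) (nat_lit 213) (.e (nat_lit 663559) (nat_lit 0) .nil))))))))) (.g (nat_lit 4) .nil .nil))))))) 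
(.nd (nat_lit 2) (.nd (nat_lit 3) (.nd (nat_lit 4) (.nd (nat_lit 5) 
(.lf (nat_lit 40322) (.g (nat_lit 2287) (.e (nat_lit 1234) (nat_lit 91) (.e (nat_lit 90158) (nat_lit 11) (.e (nat_lit 24643) (nat_lit 11) (.e (nat_lit 368676) (nat_lit 21) (.e (nat_lit 516146) (nat_lit 9) (.e (nat_lit 426440) (nat_lit 19) (.e (nat_lit 106520) (nat_lit 9) .nil))))))) (.g (nat_lit 5) .nil .nil))) 
(.lf (nat_lit 40354) (.g (nat_lit 1930) (.e (nat_lit 1234) (nat_lit 91) (.e (nat_lit 90158) (nat_lit 11) (.e (nat_lit 24644) (nat_lit 11) (.e (nat_lit 368676) (nat_lit 21) (.e (nat_lit 516179) (nat_lit 15) (.e (nat_lit 475201) (nat_lit 40) (.e (nat_lit 704653) (nat_lit 9) .nil))))))) (.g (nat_lit 4) .nil .nil)))) (.nd (nat_lit 5) 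
(.lf (nat_lit 40338) (.g (nat_lit 1909) (.e (nat_lit 1234) (nat_lit 91) (.e (nat_lit 90158) (nat_lit 11) (.e (nat_lit 24643) (nat_lit 11) (.e (nat_lit 368676) (nat_lit 21) (.e (nat_lit 516179) (nat_lit 15) (.e (nat_lit 475201) (nat_lit 40) (.e (nat_lit 704663) (nat_lit 9) .nil))))))) (.g (nat_lit 4) .nil .nil))) 
(.lf (nat_lit 40370) (.g (nat_lit 1581) (.e (nat_lit 1234) (nat_lit 91) (.e (nat_lit 90160) (nat_lit 11) (.e (nat_lit 24628) (nat_lit 9) (.e (nat_lit 336019) (nat_lit 3) .nil)))) .nil)))) (.nd (nat_lit 4) (.nd (nat_lit 5) 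
(.lf (nat_lit 40330) (.g (nat_lit 1781) (.e (nat_lit 1234) (nat_lit 91) (.e (nat_lit 90158) (nat_lit 11) (.e (nat_lit 24643) (nat_lit 11) (.e (nat_lit 368676) (nat_lit 21) (.e (nat_lit 516179) (nat_lit 15) (.e (nat_lit 475201) (nat_lit 40) (.e (nat_lit 704653) (nat_lit 9) .nil))))))) (.g (nat_lit 4) .nil .nil))) 
(.lf (nat_lit 40362) (.g (nat_lit 2058) (.e (nat_lit 1234) (nat_lit 91) (.e (nat_lit 90158) (nat_lit 11) (.e (nat_lit 24644) (nat_lit 11) (.e (nat_lit 368676) (nat_lit 21) (.e (nat_lit 516179) (nat_lit 15) (.e (nat_lit 475201) (nat_lit 40) (.e (nat_lit 704663) (nat_lit 9) .nil))))))) (.g (nat_lit 4) .nil .nil)))) (.nd (nat_lit 5) 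
(.lf (nat_lit 40346) (.g (nat_lit 2669) (.e (nat_lit 1234) (nat_lit 91) (.e (nat_lit 90158) (nat_lit 11) (.e (nat_lit 24644) (nat_lit 11) (.e (nat_lit 368676) (nat_lit 21) (.e (nat_lit 516146) (nat_lit 9) (.e (nat_lit 426440) (nat_lit 19) (.e (nat_lit 106523) (nat_lit 9) .nil))))))) (.g (nat_lit 5) .nil .nil))) 
(.lf (nat_lit 40378) (.g (nat_lit 542) (.e (nat_lit 1234) (nat_lit 91) (.e (nat_lit 90170) (nat_lit 13) (.e (nat_lit 172065) (nat_lit 3) .nil))) .nil))))) (.nd (nat_lit 3) (.nd (nat_lit 4) (.nd (nat_lit 5) 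
(.lf (nat_lit 40326) (.g (nat_lit 2918) (.e (nat_lit 1234) (nat_lit 91) (.e (nat_lit 90158) (nat_lit 11) (.e (nat_lit 24643) (nat_lit 11) (.e (nat_lit 368676) (nat_lit 21) (.e (nat_lit 516171) (nat_lit 13) (.e (nat_lit 458804) (nat_lit 38) (.e (nat_lit 655390) (nat_lit 9) .nil))))))) (.g (nat_lit 6) .nil .nil))) 
(.lf (nat_lit 40358) (.g (nat_lit 2839) (.e (nat_lit 1234) (nat_lit 91) (.e (nat_lit 90158) (nat_lit 11) (.e (nat_lit 24644) (nat_lit 11) (.e (nat_lit 368676) (nat_lit 21) (.e (nat_lit 516179) (nat_lit 15) (.e (nat_lit 475201) (nat_lit 40) (.e (nat_lit 704658) (nat_lit 9) .nil))))))) (.g (nat_lit 6) .nil .nil)))) (.nd (nat_lit 5) 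
(.lf (nat_lit 40342) (.g (nat_lit 2152) (.e (nat_lit 1234) (nat_lit 91) (.e (nat_lit 90158) (nat_lit 11) (.e (nat_lit 24644) (nat_lit 11) (.e (nat_lit 368676) (nat_lit 21) (.e (nat_lit 516146) (nat_lit 9) (.e (nat_lit 426440) (nat_lit 19) (.e (nat_lit 106504) (nat_lit 9) .nil))))))) (.g (nat_lit 4) .nil .nil))) 
(.lf (nat_lit 40374) (.g (nat_lit 893) (.e (nat_lit 1234) (nat_lit 91) (.e (nat_lit 90160) (nat_lit 11) (.e (nat_lit 24643) (nat_lit 11) .nil))) .nil)))) (.nd (nat_lit 4) (.nd (nat_lit 5) 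
(.lf (nat_lit 40334) (.g (nat_lit 2690) (.e (nat_lit 1234) (nat_lit 91) (.e (nat_lit 90158) (nat_lit 11) (.e (nat_lit 24643) (nat_lit 11) (.e (nat_lit 368676) (nat_lit 21) (.e (nat_lit 516179) (nat_lit 15) (.e (nat_lit 475201) (nat_lit 40) (.e (nat_lit 704658) (nat_lit 9) .nil))))))) (.g (nat_lit 5) .nil .nil))) 
(.lf (nat_lit 40366) (.g (nat_lit 1787) (.e (nat_lit 1234) (nat_lit 91) (.e (nat_lit 90158) (nat_lit 11) (.e (nat_lit 24655) (nat_lit 13) (.e (nat_lit 393229) (nat_lit 9) .nil)))) .nil))) (.nd (nat_lit 5) 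
(.lf (nat_lit 40350) (.g (nat_lit 3098) (.e (nat_lit 1234) (nat_lit 91) (.e (nat_lit 90158) (nat_lit 11) (.e (nat_lit 24644) (nat_lit 11) (.e (nat_lit 368676) (nat_lit 21) (.e (nat_lit 516171) (nat_lit 13) (.e (nat_lit 458804) (nat_lit 38) (.e (nat_lit 655390) (nat_lit 9) .nil))))))) (.g (nat_lit 6) .nil .nil))) 
(.lf (nat_lit 40382) (.g (nat_lit 3170) (.e (nat_lit 1234) (nat_lit 91) (.e (nat_lit 90170) (nat_lit 13) (.e (nat_lit 172065) (nat_lit 3) (.e (nat_lit 204837) (nat_lit 20) (.e (nat_lit 114714) (nat_lit 22) (.e (nat_lit 90162) (nat_lit 12) (.e (nat_lit 164007) (nat_lit 41) (.e (nat_lit 663559) (nat_lit 0) .nil)))))))) (.g (nat_lit 5) .nil .nil)))))))) 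
(.nd (nat_lit 1) (.nd (nat_lit 2) (.nd (nat_lit 3) (.nd (nat_lit 4) (.nd (nat_lit 5) 
(.lf (nat_lit 40321) (.g (nat_lit 2358) (.e (nat_lit 1234) (nat_lit 91) (.e (nat_lit 90158) (nat_lit 11) (.e (nat_lit 24643) (nat_lit 11) (.e (nat_lit 368676) (nat_lit 21) (.e (nat_lit 516146) (nat_lit 9) (.e (nat_lit 426440) (nat_lit 19) (.e (nat_lit 106515) (nat_lit 9) .nil))))))) (.g (nat_lit 5) .nil .nil))) 
(.lf (nat_lit 40353) (.g (nat_lit 2038) (.e (nat_lit 1234) (nat_lit 91) (.e (nat_lit 90158) (nat_lit 11) (.e (nat_lit 24644) (nat_lit 11) (.e (nat_lit 368676) (nat_lit 21) (.e (nat_lit 516179) (nat_lit 15) (.e (nat_lit 475201) (nat_lit 40) (.e (nat_lit 704652) (nat_lit 9) .nil))))))) (.g (nat_lit 4) .nil .nil)))) (.nd (nat_lit 5) 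
(.lf (nat_lit 40337) (.g (nat_lit 1680) (.e (nat_lit 1234) (nat_lit 91) (.e (nat_lit 90158) (nat_lit 11) (.e (nat_lit 24643) (nat_lit 11) (.e (nat_lit 368676) (nat_lit 21) (.e (nat_lit 516179) (nat_lit 15) (.e (nat_lit 475201) (nat_lit 40) (.e (nat_lit 704662) (nat_lit 9) .nil))))))) (.g (nat_lit 4) .nil .nil))) 
(.lf (nat_lit 40369) (.g (nat_lit 3057) (.e (nat_lit 1234) (nat_lit 91) (.e (nat_lit 90158) (nat_lit 11) (.e (nat_lit 24665) (nat_lit 14) (.e (nat_lit 401426) (nat_lit 3) (.e (nat_lit 204852) (nat_lit 26) .nil))))) .nil)))) (.nd (nat_lit 4) (.nd (nat_lit 5) 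
(.lf (nat_lit 40329) (.g (nat_lit 1889) (.e (nat_lit 1234) (nat_lit 91) (.e (nat_lit 90158) (nat_lit 11) (.e (nat_lit 24643) (nat_lit 11) (.e (nat_lit 368676) (nat_lit 21) (.e (nat_lit 516179) (nat_lit 15) (.e (nat_lit 475201) (nat_lit 40) (.e (nat_lit 704652) (nat_lit 9) .nil))))))) (.g (nat_lit 4) .nil .nil))) 
(.lf (nat_lit 40361) (.g (nat_lit 1829) (.e (nat_lit 1234) (nat_lit 91) (.e (nat_lit 90158) (nat_lit 11) (.e (nat_lit 24644) (nat_lit 11) (.e (nat_lit 368676) (nat_lit 21) (.e (nat_lit 516179) (nat_lit 15) (.e (nat_lit 475201) (nat_lit 40) (.e (nat_lit 704662) (nat_lit 9) .nil))))))) (.g (nat_lit 4) .nil .nil)))) (.nd (nat_lit 5) 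
(.lf (nat_lit 40345) (.g (nat_lit 2428) (.e (nat_lit 1234) (nat_lit 91) (.e (nat_lit 90158) (nat_lit 11) (.e (nat_lit 24644) (nat_lit 11) (.e (nat_lit 368676) (nat_lit 21) (.e (nat_lit 516146) (nat_lit 9) (.e (nat_lit 426440) (nat_lit 19) (.e (nat_lit 106520) (nat_lit 9) .nil))))))) (.g (nat_lit 5) .nil .nil))) 
(.lf (nat_lit 40377) (.g (nat_lit 681) (.e (nat_lit 1234) (nat_lit 91) (.e (nat_lit 90170) (nat_lit 13) (.e (nat_lit 172037) (nat_lit 0) .nil))) .nil))))) (.nd (nat_lit 3) (.nd (nat_lit 4) (.nd (nat_lit 5) 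
(.lf (nat_lit 40325) (.g (nat_lit 2561) (.e (nat_lit 1234) (nat_lit 91) (.e (nat_lit 90158) (nat_lit 11) (.e (nat_lit 24643) (nat_lit 11) (.e (nat_lit 368676) (nat_lit 21) (.e (nat_lit 516146) (nat_lit 9) (.e (nat_lit 426444) (nat_lit 19) (.e (nat_lit 106504) (nat_lit 9) .nil))))))) (.g (nat_lit 5) .nil .nil))) 
(.lf (nat_lit 40357) (.g (nat_lit 2087) (.e (nat_lit 1234) (nat_lit 91) (.e (nat_lit 90158) (nat_lit 11) (.e (nat_lit 24644) (nat_lit 11) (.e (nat_lit 368676) (nat_lit 21) (.e (nat_lit 516179) (nat_lit 15) (.e (nat_lit 475201) (nat_lit 40) (.e (nat_lit 704657) (nat_lit 9) .nil))))))) (.g (nat_lit 4) .nil .nil)))) (.nd (nat_lit 5) 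
(.lf (nat_lit 40341) (.g (nat_lit 776) (.e (nat_lit 1234) (nat_lit 91) (.e (nat_lit 90158) (nat_lit 11) (.e (nat_lit 24644) (nat_lit 11) (.e (nat_lit 368676) (nat_lit 21) .nil)))) .nil)) 
(.lf (nat_lit 40373) (.g (nat_lit 2451) (.e (nat_lit 1234) (nat_lit 91) (.e (nat_lit 90160) (nat_lit 11) (.e (nat_lit 24638) (nat_lit 9) (.e (nat_lit 336012) (nat_lit 2) (.e (nat_lit 90172) (nat_lit 14) .nil))))) .nil)))) (.nd (nat_lit 4) (.nd (nat_lit 5) 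
(.lf (nat_lit 40333) (.g (nat_lit 1938) (.e (nat_lit 1234) (nat_lit 91) (.e (nat_lit 90158) (nat_lit 11) (.e (nat_lit 24643) (nat_lit 11) (.e (nat_lit 368676) (nat_lit 21) (.e (nat_lit 516179) (nat_lit 15) (.e (nat_lit 475201) (nat_lit 40) (.e (nat_lit 704657) (nat_lit 9) .nil))))))) (.g (nat_lit 4) .nil .nil))) 
(.lf (nat_lit 40365) (.g (nat_lit 3463) (.e (nat_lit 1234) (nat_lit 91) (.e (nat_lit 90158) (nat_lit 11) (.e (nat_lit 24651) (nat_lit 12) (.e (nat_lit 385074) (nat_lit 31) (.e (nat_lit 573482) (nat_lit 13) (.e (nat_lit 73472) (nat_lit 23) (.e (nat_lit 253974) (nat_lit 9) .nil))))))) (.g (nat_lit 4) .nil .nil)))) (.nd (nat_lit 5) 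
(.lf (nat_lit 40349) (.g (nat_lit 1808) (.e (nat_lit 1234) (nat_lit 91) (.e (nat_lit 90158) (nat_lit 11) (.e (nat_lit 24644) (nat_lit 11) (.e (nat_lit 368676) (nat_lit 21) (.e (nat_lit 516146) (nat_lit 9) (.e (nat_lit 426467) (nat_lit 24) (.e (nat_lit 155667) (nat_lit 9) .nil))))))) (.g (nat_lit 4) .nil .nil))) 
(.lf (nat_lit 40381) (.g (nat_lit 2273) (.e (nat_lit 1234) (nat_lit 91) (.e (nat_lit 90170) (nat_lit 13) (.e (nat_lit 172065) (nat_lit 3) (.e (nat_lit 204834) (nat_lit 19) (.e (nat_lit 106517) (nat_lit 9) (.e (nat_lit 1255) (nat_lit 92) (.e (nat_lit 98322) (nat_lit 17) (.e (nat_lit 3421) (nat_lit 213) (.e (nat_lit 663559) (nat_lit 0) .nil))))))))) (.g (nat_lit 4) .nil .nil))))))) 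
(.nd (nat_lit 2) (.nd (nat_lit 3) (.nd (nat_lit 4) (.nd (nat_lit 5) 
(.lf (nat_lit 40323) (.g (nat_lit 2528) (.e (nat_lit 1234) (nat_lit 91) (.e (nat_lit 90158) (nat_lit 11) (.e (nat_lit 24643) (nat_lit 11) (.e (nat_lit 368676) (nat_lit 21) (.e (nat_lit 516146) (nat_lit 9) (.e (nat_lit 426440) (nat_lit 19) (.e (nat_lit 106523) (nat_lit 9) .nil))))))) (.g (nat_lit 5) .nil .nil))) 
(.lf (nat_lit 40355) (.g (nat_lit 2118) (.e (nat_lit 1234) (nat_lit 91) (.e (nat_lit 90158) (nat_lit 11) (.e (nat_lit 24644) (nat_lit 11) (.e (nat_lit 368676) (nat_lit 21) (.e (nat_lit 516179) (nat_lit 15) (.e (nat_lit 475201) (nat_lit 40) (.e (nat_lit 704654) (nat_lit 9) .nil))))))) (.g (nat_lit 4) .nil .nil)))) (.nd (nat_lit 5) 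
(.lf (nat_lit 40339) (.g (nat_lit 2366) (.e (nat_lit 1234) (nat_lit 91) (.e (nat_lit 90158) (nat_lit 11) (.e (nat_lit 24643) (nat_lit 11) (.e (nat_lit 368676) (nat_lit 21) (.e (nat_lit 516179) (nat_lit 15) (.e (nat_lit 475201) (nat_lit 40) (.e (nat_lit 704664) (nat_lit 9) .nil))))))) (.g (nat_lit 5) .nil .nil))) 
(.lf (nat_lit 40371) (.g (nat_lit 2718) (.e (nat_lit 1234) (nat_lit 91) (.e (nat_lit 90160) (nat_lit 11) (.e (nat_lit 24628) (nat_lit 9) (.e (nat_lit 336019) (nat_lit 3) (.e (nat_lit 98384) (nat_lit 32) (.e (nat_lit 475201) (nat_lit 40) (.e (nat_lit 704620) (nat_lit 9) .nil))))))) (.g (nat_lit 4) .nil .nil))))) (.nd (nat_lit 4) (.nd (nat_lit 5) 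
(.lf (nat_lit 40331) (.g (nat_lit 1969) (.e (nat_lit 1234) (nat_lit 91) (.e (nat_lit 90158) (nat_lit 11) (.e (nat_lit 24643) (nat_lit 11) (.e (nat_lit 368676) (nat_lit 21) (.e (nat_lit 516179) (nat_lit 15) (.e (nat_lit 475201) (nat_lit 40) (.e (nat_lit 704654) (nat_lit 9) .nil))))))) (.g (nat_lit 4) .nil .nil))) 
(.lf (nat_lit 40363) (.g (nat_lit 2515) (.e (nat_lit 1234) (nat_lit 91) (.e (nat_lit 90158) (nat_lit 11) (.e (nat_lit 24644) (nat_lit 11) (.e (nat_lit 368676) (nat_lit 21) (.e (nat_lit 516179) (nat_lit 15) (.e (nat_lit 475201) (nat_lit 40) (.e (nat_lit 704664) (nat_lit 9) .nil))))))) (.g (nat_lit 5) .nil .nil)))) (.nd (nat_lit 5) 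
(.lf (nat_lit 40347) (.g (nat_lit 2207) (.e (nat_lit 1234) (nat_lit 91) (.e (nat_lit 90158) (nat_lit 11) (.e (nat_lit 24644) (nat_lit 11) (.e (nat_lit 368676) (nat_lit 21) (.e (nat_lit 516146) (nat_lit 9) (.e (nat_lit 426440) (nat_lit 19) (.e (nat_lit 106526) (nat_lit 9) .nil))))))) (.g (nat_lit 4) .nil .nil))) 
(.lf (nat_lit 40379) (.g (nat_lit 2785) (.e (nat_lit 1234) (nat_lit 91) (.e (nat_lit 90170) (nat_lit 13) (.e (nat_lit 172065) (nat_lit 3) (.e (nat_lit 204834) (nat_lit 19) (.e (nat_lit 106517) (nat_lit 9) (.e (nat_lit 1255) (nat_lit 92) (.e (nat_lit 98321) (nat_lit 17) (.e (nat_lit 7936) (nat_lit 213) (.e (nat_lit 663559) (nat_lit 0) .nil))))))))) (.g (nat_lit 6) .nil .nil)))))) 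
(.nd (nat_lit 3) (.nd (nat_lit 4) (.nd (nat_lit 5) 
(.lf (nat_lit 40327) (.g (nat_lit 1804) (.e (nat_lit 1234) (nat_lit 91) (.e (nat_lit 90158) (nat_lit 11) (.e (nat_lit 24643) (nat_lit 11) (.e (nat_lit 368676) (nat_lit 21) (.e (nat_lit 516179) (nat_lit 15) (.e (nat_lit 475199) (nat_lit 40) (.e (nat_lit 704703) (nat_lit 9) .nil))))))) (.g (nat_lit 4) .nil .nil))) 
(.lf (nat_lit 40359) (.g (nat_lit 2079) (.e (nat_lit 1234) (nat_lit 91) (.e (nat_lit 90158) (nat_lit 11) (.e (nat_lit 24644) (nat_lit 11) (.e (nat_lit 368676) (nat_lit 21) (.e (nat_lit 516179) (nat_lit 15) (.e (nat_lit 475201) (nat_lit 40) (.e (nat_lit 704659) (nat_lit 9) .nil))))))) (.g (nat_lit 4) .nil .nil)))) (.nd (nat_lit 5) 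
(.lf (nat_lit 40343) (.g (nat_lit 2732) (.e (nat_lit 1234) (nat_lit 91) (.e (nat_lit 90158) (nat_lit 11) (.e (nat_lit 24644) (nat_lit 11) (.e (nat_lit 368676) (nat_lit 21) (.e (nat_lit 516146) (nat_lit 9) (.e (nat_lit 426440) (nat_lit 19) (.e (nat_lit 106514) (nat_lit 9) .nil))))))) (.g (nat_lit 5) .nil .nil))) 
(.lf (nat_lit 40375) (.g (nat_lit 1335) (.e (nat_lit 1234) (nat_lit 91) (.e (nat_lit 90160) (nat_lit 11) (.e (nat_lit 24644) (nat_lit 11) (.e (nat_lit 368676) (nat_lit 21) .nil)))) .nil)))) (.nd (nat_lit 4) (.nd (nat_lit 5) 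
(.lf (nat_lit 40335) (.g (nat_lit 1930) (.e (nat_lit 1234) (nat_lit 91) (.e (nat_lit 90158) (nat_lit 11) (.e (nat_lit 24643) (nat_lit 11) (.e (nat_lit 368676) (nat_lit 21) (.e (nat_lit 516179) (nat_lit 15) (.e (nat_lit 475201) (nat_lit 40) (.e (nat_lit 704659) (nat_lit 9) .nil))))))) (.g (nat_lit 4) .nil .nil))) 
(.lf (nat_lit 40367) (.g (nat_lit 1608) (.e (nat_lit 1234) (nat_lit 91) (.e (nat_lit 90158) (nat_lit 11) (.e (nat_lit 24655) (nat_lit 13) (.e (nat_lit 401152) (nat_lit 10) .nil)))) .nil))) (.nd (nat_lit 5) 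
(.lf (nat_lit 40351) (.g (nat_lit 1961) (.e (nat_lit 1234) (nat_lit 91) (.e (nat_lit 90158) (nat_lit 11) (.e (nat_lit 24644) (nat_lit 11) (.e (nat_lit 368676) (nat_lit 21) (.e (nat_lit 516179) (nat_lit 15) (.e (nat_lit 475199) (nat_lit 40) (.e (nat_lit 704703) (nat_lit 9) .nil))))))) (.g (nat_lit 4) .nil .nil))) 
(.lf (nat_lit 40383) (.g (nat_lit 1007) (.e (nat_lit 1234) (nat_lit 91) (.e (nat_lit 90170) (nat_lit 13) (.e (nat_lit 172065) (nat_lit 3) (.e (nat_lit 204838) (nat_lit 20) .nil)))) .nil))))))))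

noncomputable def tv560 : DT := (.nd (nat_lit 0) (.nd (nat_lit 1) (.nd (nat_lit 2) (.nd (nat_lit 3) (.nd (nat_lit 4) (.nd (nat_lit 5) 
(.lf (nat_lit 40384) (.g (nat_lit 4122) (.e (nat_lit 1234) (nat_lit 91) (.e (nat_lit 90170) (nat_lit 13) (.e (nat_lit 172065) (nat_lit 3) (.e (nat_lit 204838) (nat_lit 20) (.e (nat_lit 114714) (nat_lit 22) (.e (nat_lit 90162) (nat_lit 12) (.e (nat_lit 164007) (nat_lit 41) (.e (nat_lit 663559) (nat_lit 0) .nil)))))))) (.g (nat_lit 6) .nil .nil))) 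
(.lf (nat_lit 40416) (.g (nat_lit 570) (.e (nat_lit 1234) (nat_lit 91) (.e (nat_lit 90170) (nat_lit 13) (.e (nat_lit 172085) (nat_lit 9) .nil))) .nil))) (.nd (nat_lit 5) 
(.lf (nat_lit 40400) (.g (nat_lit 3311) (.e (nat_lit 1234) (nat_lit 91) (.e (nat_lit 90170) (nat_lit 13) (.e (nat_lit 172067) (nat_lit 3) (.e (nat_lit 204838) (nat_lit 20) (.e (nat_lit 114716) (nat_lit 22) (.e (nat_lit 90162) (nat_lit 12) (.e (nat_lit 164007) (nat_lit 41) (.e (nat_lit 663559) (nat_lit 0) .nil)))))))) (.g (nat_lit 4) .nil .nil))) 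
(.lf (nat_lit 40432) (.g (nat_lit 4490) (.e (nat_lit 1234) (nat_lit 91) (.e (nat_lit 90170) (nat_lit 13) (.e (nat_lit 172106) (nat_lit 10) (.e (nat_lit 434231) (nat_lit 23) (.e (nat_lit 532481) (nat_lit 0) (.e (nat_lit 6709) (nat_lit 360) (.e (nat_lit 164238) (nat_lit 187) .nil))))))) (.g (nat_lit 4) .nil .nil))))) (.nd (nat_lit 4) (.nd (nat_lit 5) 
(.lf (nat_lit 40392) (.g (nat_lit 3545) (.e (nat_lit 1234) (nat_lit 91) (.e (nat_lit 90170) (nat_lit 13) (.e (nat_lit 172065) (nat_lit 3) (.e (nat_lit 204838) (nat_lit 20) (.e (nat_lit 114716) (nat_lit 22) (.e (nat_lit 90164) (nat_lit 12) (.e (nat_lit 164006) (nat_lit 41) (.e (nat_lit 663559) (nat_lit 0) .nil)))))))) (.g (nat_lit 7) .nil .nil))) 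
(.lf (nat_lit 40424) (.g (nat_lit 2467) (.e (nat_lit 1234) (nat_lit 91) (.e (nat_lit 90170) (nat_lit 13) (.e (nat_lit 172106) (nat_lit 10) (.e (nat_lit 434227) (nat_lit 20) .nil)))) .nil))) (.nd (nat_lit 5) 
(.lf (nat_lit 40408) (.g (nat_lit 2262) (.e (nat_lit 1234) (nat_lit 91) (.e (nat_lit 90170) (nat_lit 13) (.e (nat_lit 172079) (nat_lit 7) (.e (nat_lit 409630) (nat_lit 12) (.e (nat_lit 32808) (nat_lit 19) (.e (nat_lit 180278) (nat_lit 32) .nil)))))) (.g (nat_lit 4) .nil .nil))) 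
(.lf (nat_lit 40440) (.g (nat_lit 5522) (.e (nat_lit 1234) (nat_lit 91) (.e (nat_lit 90170) (nat_lit 13) (.e (nat_lit 172106) (nat_lit 10) (.e (nat_lit 434231) (nat_lit 23) (.e (nat_lit 532481) (nat_lit 0) (.e (nat_lit 6714) (nat_lit 360) (.e (nat_lit 164238) (nat_lit 187) .nil))))))) (.g (nat_lit 5) .nil .nil)))))) (.nd (nat_lit 3) (.nd (nat_lit 4) (.nd (nat_lit 5) 
(.lf (nat_lit 40388) (.g (nat_lit 2924) (.e (nat_lit 1234) (nat_lit 91) (.e (nat_lit 90170) (nat_lit 13) (.e (nat_lit 172065) (nat_lit 3) (.e (nat_lit 204838) (nat_lit 20) (.e (nat_lit 114715) (nat_lit 22) (.e (nat_lit 90165) (nat_lit 12) (.e (nat_lit 164009) (nat_lit 41) (.e (nat_lit 663557) (nat_lit 0) .nil)))))))) (.g (nat_lit 5) .nil .nil))) 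
(.lf (nat_lit 40420) (.g (nat_lit 532) (.e (nat_lit 1234) (nat_lit 91) (.e (nat_lit 90170) (nat_lit 13) (.e (nat_lit 172106) (nat_lit 10) .nil))) .nil))) (.nd (nat_lit 5) 
(.lf (nat_lit 40404) (.g (nat_lit 2044) (.e (nat_lit 1234) (nat_lit 91) (.e (nat_lit 90170) (nat_lit 13) (.e (nat_lit 172077) (nat_lit 7) (.e (nat_lit 409631) (nat_lit 12) (.e (nat_lit 32808) (nat_lit 19) (.e (nat_lit 180278) (nat_lit 32) .nil)))))) (.g (nat_lit 5) .nil .nil))) 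
(.lf (nat_lit 40436) (.g (nat_lit 4331) (.e (nat_lit 1234) (nat_lit 91) (.e (nat_lit 90170) (nat_lit 13) (.e (nat_lit 172106) (nat_lit 10) (.e (nat_lit 434231) (nat_lit 23) (.e (nat_lit 532481) (nat_lit 0) (.e (nat_lit 6712) (nat_lit 360) (.e (nat_lit 164235) (nat_lit 187) .nil))))))) (.g (nat_lit 4) .nil .nil))))) (.nd (nat_lit 4) (.nd (nat_lit 5) 
(.lf (nat_lit 40396) (.g (nat_lit 1800) (.e (nat_lit 1234) (nat_lit 91) (.e (nat_lit 90170) (nat_lit 13) (.e (nat_lit 172067) (nat_lit 3) (.e (nat_lit 204837) (nat_lit 20) .nil)))) .nil)) 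
(.lf (nat_lit 40428) (.g (nat_lit 4130) (.e (nat_lit 1234) (nat_lit 91) (.e (nat_lit 90170) (nat_lit 13) (.e (nat_lit 172106) (nat_lit 10) (.e (nat_lit 434227) (nat_lit 20) (.e (nat_lit 507930) (nat_lit 10) (.e (nat_lit 5760) (nat_lit 315) (.e (nat_lit 164239) (nat_lit 187) .nil))))))) (.g (nat_lit 5) .nil .nil)))) (.nd (nat_lit 5) 
(.lf (nat_lit 40412) (.g (nat_lit 2393) (.e (nat_lit 1234) (nat_lit 91) (.e (nat_lit 90170) (nat_lit 13) (.e (nat_lit 172082) (nat_lit 7) (.e (nat_lit 409630) (nat_lit 12) (.e (nat_lit 32808) (nat_lit 19) (.e (nat_lit 180278) (nat_lit 32) .nil)))))) (.g (nat_lit 6) .nil .nil))) 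
(.lf (nat_lit 40444) (.g (nat_lit 3871) (.e (nat_lit 1234) (nat_lit 91) (.e (nat_lit 90170) (nat_lit 13) (.e (nat_lit 172106) (nat_lit 10) (.e (nat_lit 434231) (nat_lit 23) (.e (nat_lit 532482) (nat_lit 0) (.e (nat_lit 6710) (nat_lit 360) (.e (nat_lit 164239) (nat_lit 187) .nil))))))) (.g (nat_lit 4) .nil .nil))))))) (.nd (nat_lit 2) (.nd (nat_lit 3) (.nd (nat_lit 4) (.nd (nat_lit 5) 
(.lf (nat_lit 40386) (.g (nat_lit 2713) (.e (nat_lit 1234) (nat_lit 91) (.e (nat_lit 90170) (nat_lit 13) (.e (nat_lit 172065) (nat_lit 3) (.e (nat_lit 204838) (nat_lit 20) (.e (nat_lit 114714) (nat_lit 22) (.e (nat_lit 90164) (nat_lit 12) (.e (nat_lit 164006) (nat_lit 41) (.e (nat_lit 663559) (nat_lit 0) .nil)))))))) (.g (nat_lit 4) .nil .nil))) 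
(.lf (nat_lit 40418) (.g (nat_lit 750) (.e (nat_lit 1234) (nat_lit 91) (.e (nat_lit 90170) (nat_lit 13) (.e (nat_lit 172092) (nat_lit 9) .nil))) .nil))) (.nd (nat_lit 5) 
(.lf (nat_lit 40402) (.g (nat_lit 3575) (.e (nat_lit 1234) (nat_lit 91) (.e (nat_lit 90170) (nat_lit 13) (.e (nat_lit 172067) (nat_lit 3) (.e (nat_lit 204838) (nat_lit 20) (.e (nat_lit 114716) (nat_lit 22) (.e (nat_lit 90181) (nat_lit 16) (.e (nat_lit 229449) (nat_lit 41) (.e (nat_lit 663559) (nat_lit 0) .nil)))))))) (.g (nat_lit 5) .nil .nil))) 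
(.lf (nat_lit 40434) (.g (nat_lit 4331) (.e (nat_lit 1234) (nat_lit 91) (.e (nat_lit 90170) (nat_lit 13) (.e (nat_lit 172106) (nat_lit 10) (.e (nat_lit 434231) (nat_lit 23) (.e (nat_lit 532481) (nat_lit 0) (.e (nat_lit 6710) (nat_lit 360) (.e (nat_lit 164238) (nat_lit 187) .nil))))))) (.g (nat_lit 4) .nil .nil))))) (.nd (nat_lit 4) (.nd (nat_lit 5) 
(.lf (nat_lit 40394) (.g (nat_lit 3477) (.e (nat_lit 1234) (nat_lit 91) (.e (nat_lit 90170) (nat_lit 13) (.e (nat_lit 172065) (nat_lit 3) (.e (nat_lit 204838) (nat_lit 20) (.e (nat_lit 114719) (nat_lit 23) (.e (nat_lit 98325) (nat_lit 17) (.e (nat_lit 3424) (nat_lit 213) (.e (nat_lit 663556) (nat_lit 0) .nil)))))))) (.g (nat_lit 5) .nil .nil))) 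
(.lf (nat_lit 40426) (.g (nat_lit 3790) (.e (nat_lit 1234) (nat_lit 91) (.e (nat_lit 90170) (nat_lit 13) (.e (nat_lit 172106) (nat_lit 10) (.e (nat_lit 434227) (nat_lit 20) (.e (nat_lit 507929) (nat_lit 10) (.e (nat_lit 5762) (nat_lit 315) (.e (nat_lit 164239) (nat_lit 187) .nil))))))) (.g (nat_lit 4) .nil .nil)))) (.nd (nat_lit 5) 
(.lf (nat_lit 40410) (.g (nat_lit 3330) (.e (nat_lit 1234) (nat_lit 91) (.e (nat_lit 90170) (nat_lit 13) (.e (nat_lit 172079) (nat_lit 7) (.e (nat_lit 409631) (nat_lit 12) (.e (nat_lit 32808) (nat_lit 19) (.e (nat_lit 180278) (nat_lit 32) .nil)))))) (.g (nat_lit 0) .nil .nil))) 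
(.lf (nat_lit 40442) (.g (nat_lit 3553) (.e (nat_lit 1234) (nat_lit 91) (.e (nat_lit 90170) (nat_lit 13) (.e (nat_lit 172106) (nat_lit 10) (.e (nat_lit 434231) (nat_lit 23) (.e (nat_lit 532482) (nat_lit 0) .nil))))) .nil))))) (.nd (nat_lit 3) (.nd (nat_lit 4) (.nd (nat_lit 5) 
(.lf (nat_lit 40390) (.g (nat_lit 3746) (.e (nat_lit 1234) (nat_lit 91) (.e (nat_lit 90170) (nat_lit 13) (.e (nat_lit 172065) (nat_lit 3) (.e (nat_lit 204838) (nat_lit 20) (.e (nat_lit 114716) (nat_lit 22) (.e (nat_lit 90162) (nat_lit 12) (.e (nat_lit 164007) (nat_lit 41) (.e (nat_lit 663559) (nat_lit 0) .nil)))))))) (.g (nat_lit 7) .nil .nil))) 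
(.lf (nat_lit 40422) (.g (nat_lit 2516) (.e (nat_lit 1234) (nat_lit 91) (.e (nat_lit 90170) (nat_lit 13) (.e (nat_lit 172106) (nat_lit 10) (.e (nat_lit 434209) (nat_lit 18) .nil)))) .nil))) (.nd (nat_lit 5) 
(.lf (nat_lit 40406) (.g (nat_lit 1552) (.e (nat_lit 1234) (nat_lit 91) (.e (nat_lit 90170) (nat_lit 13) (.e (nat_lit 172079) (nat_lit 7) (.e (nat_lit 409629) (nat_lit 12) .nil)))) .nil)) 
(.lf (nat_lit 40438) (.g (nat_lit 5522) (.e (nat_lit 1234) (nat_lit 91) (.e (nat_lit 90170) (nat_lit 13) (.e (nat_lit 172106) (nat_lit 10) (.e (nat_lit 434231) (nat_lit 23) (.e (nat_lit 532481) (nat_lit 0) (.e (nat_lit 6712) (nat_lit 360) (.e (nat_lit 164239) (nat_lit 187) .nil))))))) (.g (nat_lit 5) .nil .nil))))) (.nd (nat_lit 4) (.nd (nat_lit 5) 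
(.lf (nat_lit 40398) (.g (nat_lit 1557) (.e (nat_lit 1234) (nat_lit 91) (.e (nat_lit 90170) (nat_lit 13) (.e (nat_lit 172067) (nat_lit 3) (.e (nat_lit 204838) (nat_lit 20) .nil)))) .nil)) 
(.lf (nat_lit 40430) (.g (nat_lit 2225) (.e (nat_lit 1234) (nat_lit 91) (.e (nat_lit 90170) (nat_lit 13) (.e (nat_lit 172106) (nat_lit 10) (.e (nat_lit 434231) (nat_lit 23) .nil)))) .nil))) (.nd (nat_lit 5) 
(.lf (nat_lit 40414) (.g (nat_lit 2661) (.e (nat_lit 1234) (nat_lit 91) (.e (nat_lit 90170) (nat_lit 13) (.e (nat_lit 172082) (nat_lit 7) (.e (nat_lit 409631) (nat_lit 12) (.e (nat_lit 32808) (nat_lit 19) (.e (nat_lit 180278) (nat_lit 32) .nil)))))) (.g (nat_lit 0) .nil .nil))) 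
(.lf (nat_lit 40446) (.g (nat_lit 6256) (.e (nat_lit 1234) (nat_lit 91) (.e (nat_lit 90170) (nat_lit 13) (.e (nat_lit 172106) (nat_lit 10) (.e (nat_lit 434231) (nat_lit 23) (.e (nat_lit 532482) (nat_lit 0) (.e (nat_lit 6712) (nat_lit 360) (.e (nat_lit 164238) (nat_lit 187) .nil))))))) (.g (nat_lit 7) .nil .nil)))))))) 
(.nd (nat_lit 1) (.nd (nat_lit 2) (.nd (nat_lit 3) (.nd (nat_lit 4) (.nd (nat_lit 5) 
(.lf (nat_lit 40385) (.g (nat_lit 2430) (.e (nat_lit 1234) (nat_lit 91) (.e (nat_lit 90170) (nat_lit 13) (.e (nat_lit 172065) (nat_lit 3) (.e (nat_lit 204838) (nat_lit 20) (.e (nat_lit 114714) (nat_lit 22) (.e (nat_lit 90162) (nat_lit 12) (.e (nat_lit 164007) (nat_lit 41) (.e (nat_lit 663560) (nat_lit 0) .nil)))))))) (.g (nat_lit 4) .nil .nil))) 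
(.lf (nat_lit 40417) (.g (nat_lit 774) (.e (nat_lit 1234) (nat_lit 91) (.e (nat_lit 90170) (nat_lit 13) (.e (nat_lit 172088) (nat_lit 9) .nil))) .nil))) (.nd (nat_lit 5) 
(.lf (nat_lit 40401) (.g (nat_lit 3197) (.e (nat_lit 1234) (nat_lit 91) (.e (nat_lit 90170) (nat_lit 13) (.e (nat_lit 172067) (nat_lit 3) (.e (nat_lit 204838) (nat_lit 20) (.e (nat_lit 114716) (nat_lit 22) (.e (nat_lit 90164) (nat_lit 12) (.e (nat_lit 164006) (nat_lit 41) (.e (nat_lit 663559) (nat_lit 0) .nil)))))))) (.g (nat_lit 4) .nil .nil))) 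
(.lf (nat_lit 40433) (.g (nat_lit 4264) (.e (nat_lit 1234) (nat_lit 91) (.e (nat_lit 90170) (nat_lit 13) (.e (nat_lit 172106) (nat_lit 10) (.e (nat_lit 434231) (nat_lit 23) (.e (nat_lit 532481) (nat_lit 0) (.e (nat_lit 6709) (nat_lit 360) (.e (nat_lit 164239) (nat_lit 187) .nil))))))) (.g (nat_lit 4) .nil .nil))))) (.nd (nat_lit 4) (.nd (nat_lit 5) 
(.lf (nat_lit 40393) (.g (nat_lit 3062) (.e (nat_lit 1234) (nat_lit 91) (.e (nat_lit 90170) (nat_lit 13) (.e (nat_lit 172065) (nat_lit 3) (.e (nat_lit 204838) (nat_lit 20) (.e (nat_lit 114718) (nat_lit 23) (.e (nat_lit 98325) (nat_lit 17) (.e (nat_lit 3424) (nat_lit 213) (.e (nat_lit 663556) (nat_lit 0) .nil)))))))) (.g (nat_lit 4) .nil .nil))) 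
(.lf (nat_lit 40425) (.g (nat_lit 3533) (.e (nat_lit 1234) (nat_lit 91) (.e (nat_lit 90170) (nat_lit 13) (.e (nat_lit 172106) (nat_lit 10) (.e (nat_lit 434227) (nat_lit 20) (.e (nat_lit 507928) (nat_lit 10) (.e (nat_lit 5763) (nat_lit 315) (.e (nat_lit 164239) (nat_lit 187) .nil))))))) (.g (nat_lit 4) .nil .nil)))) (.nd (nat_lit 5) 
(.lf (nat_lit 40409) (.g (nat_lit 2684) (.e (nat_lit 1234) (nat_lit 91) (.e (nat_lit 90170) (nat_lit 13) (.e (nat_lit 172079) (nat_lit 7) (.e (nat_lit 409631) (nat_lit 12) (.e (nat_lit 32808) (nat_lit 19) (.e (nat_lit 180277) (nat_lit 32) .nil)))))) (.g (nat_lit 4) .nil .nil))) 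
(.lf (nat_lit 40441) (.g (nat_lit 6035) (.e (nat_lit 1234) (nat_lit 91) (.e (nat_lit 90170) (nat_lit 13) (.e (nat_lit 172106) (nat_lit 10) (.e (nat_lit 434231) (nat_lit 23) (.e (nat_lit 532481) (nat_lit 0) (.e (nat_lit 6714) (nat_lit 360) (.e (nat_lit 164239) (nat_lit 187) .nil))))))) (.g (nat_lit 5) .nil .nil)))))) (.nd (nat_lit 3) (.nd (nat_lit 4) (.nd (nat_lit 5) 
(.lf (nat_lit 40389) (.g (nat_lit 2654) (.e (nat_lit 1234) (nat_lit 91) (.e (nat_lit 90170) (nat_lit 13) (.e (nat_lit 172065) (nat_lit 3) (.e (nat_lit 204838) (nat_lit 20) (.e (nat_lit 114715) (nat_lit 22) (.e (nat_lit 90165) (nat_lit 12) (.e (nat_lit 164010) (nat_lit 41) (.e (nat_lit 663555) (nat_lit 0) .nil)))))))) (.g (nat_lit 4) .nil .nil))) 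
(.lf (nat_lit 40421) (.g (nat_lit 2289) (.e (nat_lit 1234) (nat_lit 91) (.e (nat_lit 90170) (nat_lit 13) (.e (nat_lit 172106) (nat_lit 10) (.e (nat_lit 434202) (nat_lit 18) .nil)))) .nil))) (.nd (nat_lit 5) 
(.lf (nat_lit 40405) (.g (nat_lit 535) (.e (nat_lit 1234) (nat_lit 91) (.e (nat_lit 90170) (nat_lit 13) (.e (nat_lit 172079) (nat_lit 7) .nil))) .nil)) 
(.lf (nat_lit 40437) (.g (nat_lit 7391) (.e (nat_lit 1234) (nat_lit 91) (.e (nat_lit 90170) (nat_lit 13) (.e (nat_lit 172106) (nat_lit 10) (.e (nat_lit 434231) (nat_lit 23) (.e (nat_lit 532481) (nat_lit 0) (.e (nat_lit 6712) (nat_lit 360) (.e (nat_lit 164238) (nat_lit 187) .nil))))))) (.g (nat_lit 7) .nil .nil))))) (.nd (nat_lit 4) (.nd (nat_lit 5) 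
(.lf (nat_lit 40397) (.g (nat_lit 2419) (.e (nat_lit 1234) (nat_lit 91) (.e (nat_lit 90170) (nat_lit 13) (.e (nat_lit 172067) (nat_lit 3) (.e (nat_lit 204837) (nat_lit 20) (.e (nat_lit 114718) (nat_lit 23) .nil))))) .nil)) 
(.lf (nat_lit 40429) (.g (nat_lit 4040) (.e (nat_lit 1234) (nat_lit 91) (.e (nat_lit 90170) (nat_lit 13) (.e (nat_lit 172106) (nat_lit 10) (.e (nat_lit 434227) (nat_lit 20) (.e (nat_lit 507930) (nat_lit 10) (.e (nat_lit 5762) (nat_lit 315) (.e (nat_lit 164239) (nat_lit 187) .nil))))))) (.g (nat_lit 5) .nil .nil)))) (.nd (nat_lit 5) 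
(.lf (nat_lit 40413) (.g (nat_lit 1916) (.e (nat_lit 1234) (nat_lit 91) (.e (nat_lit 90170) (nat_lit 13) (.e (nat_lit 172082) (nat_lit 7) (.e (nat_lit 409631) (nat_lit 12) (.e (nat_lit 32808) (nat_lit 19) (.e (nat_lit 180277) (nat_lit 32) .nil)))))) (.g (nat_lit 4) .nil .nil))) 
(.lf (nat_lit 40445) (.g (nat_lit 3580) (.e (nat_lit 1234) (nat_lit 91) (.e (nat_lit 90170) (nat_lit 13) (.e (nat_lit 172106) (nat_lit 10) (.e (nat_lit 434231) (nat_lit 23) (.e (nat_lit 532482) (nat_lit 0) (.e (nat_lit 6712) (nat_lit 360) (.e (nat_lit 164234) (nat_lit 187) .nil))))))) (.g (nat_lit 4) .nil .nil))))))) (.nd (nat_lit 2) (.nd (nat_lit 3) (.nd (nat_lit 4) (.nd (nat_lit 5) 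
(.lf (nat_lit 40387) (.g (nat_lit 2379) (.e (nat_lit 1234) (nat_lit 91) (.e (nat_lit 90170) (nat_lit 13) (.e (nat_lit 172065) (nat_lit 3) (.e (nat_lit 204838) (nat_lit 20) (.e (nat_lit 114715) (nat_lit 22) (.e (nat_lit 90165) (nat_lit 12) (.e (nat_lit 164009) (nat_lit 41) (.e (nat_lit 663556) (nat_lit 0) .nil)))))))) (.g (nat_lit 4) .nil .nil))) 
(.lf (nat_lit 40419) (.g (nat_lit 406) (.e (nat_lit 1234) (nat_lit 91) (.e (nat_lit 90170) (nat_lit 13) (.e (nat_lit 172095) (nat_lit 9) .nil))) .nil))) (.nd (nat_lit 5) 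
(.lf (nat_lit 40403) (.g (nat_lit 3071) (.e (nat_lit 1234) (nat_lit 91) (.e (nat_lit 90170) (nat_lit 13) (.e (nat_lit 172067) (nat_lit 3) (.e (nat_lit 204838) (nat_lit 20) (.e (nat_lit 114719) (nat_lit 23) (.e (nat_lit 98325) (nat_lit 17) (.e (nat_lit 3424) (nat_lit 213) (.e (nat_lit 663556) (nat_lit 0) .nil)))))))) (.g (nat_lit 4) .nil .nil))) 
(.lf (nat_lit 40435) (.g (nat_lit 4490) (.e (nat_lit 1234) (nat_lit 91) (.e (nat_lit 90170) (nat_lit 13) (.e (nat_lit 172106) (nat_lit 10) (.e (nat_lit 434231) (nat_lit 23) (.e (nat_lit 532481) (nat_lit 0) (.e (nat_lit 6712) (nat_lit 360) (.e (nat_lit 164234) (nat_lit 187) .nil))))))) (.g (nat_lit 4) .nil .nil))))) (.nd (nat_lit 4) (.nd (nat_lit 5) 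
(.lf (nat_lit 40395) (.g (nat_lit 2443) (.e (nat_lit 1234) (nat_lit 91) (.e (nat_lit 90170) (nat_lit 13) (.e (nat_lit 172065) (nat_lit 3) (.e (nat_lit 204838) (nat_lit 20) (.e (nat_lit 114719) (nat_lit 23) (.e (nat_lit 98325) (nat_lit 17) (.e (nat_lit 3424) (nat_lit 213) (.e (nat_lit 663557) (nat_lit 0) .nil)))))))) (.g (nat_lit 4) .nil .nil))) 
(.lf (nat_lit 40427) (.g (nat_lit 4458) (.e (nat_lit 1234) (nat_lit 91) (.e (nat_lit 90170) (nat_lit 13) (.e (nat_lit 172106) (nat_lit 10) (.e (nat_lit 434227) (nat_lit 20) (.e (nat_lit 507929) (nat_lit 10) (.e (nat_lit 5763) (nat_lit 315) (.e (nat_lit 164239) (nat_lit 187) .nil))))))) (.g (nat_lit 7) .nil .nil)))) (.nd (nat_lit 5) 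
(.lf (nat_lit 40411) (.g (nat_lit 2510) (.e (nat_lit 1234) (nat_lit 91) (.e (nat_lit 90170) (nat_lit 13) (.e (nat_lit 172082) (nat_lit 7) (.e (nat_lit 409629) (nat_lit 12) (.e (nat_lit 32808) (nat_lit 19) (.e (nat_lit 180278) (nat_lit 32) .nil)))))) (.g (nat_lit 6) .nil .nil))) 
(.lf (nat_lit 40443) (.g (nat_lit 4073) (.e (nat_lit 1234) (nat_lit 91) (.e (nat_lit 90170) (nat_lit 13) (.e (nat_lit 172106) (nat_lit 10) (.e (nat_lit 434231) (nat_lit 23) (.e (nat_lit 532482) (nat_lit 0) (.e (nat_lit 6710) (nat_lit 360) (.e (nat_lit 164238) (nat_lit 187) .nil))))))) (.g (nat_lit 4) .nil .nil)))))) (.nd (nat_lit 3) (.nd (nat_lit 4) (.nd (nat_lit 5) 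
(.lf (nat_lit 40391) (.g (nat_lit 2647) (.e (nat_lit 1234) (nat_lit 91) (.e (nat_lit 90170) (nat_lit 13) (.e (nat_lit 172065) (nat_lit 3) (.e (nat_lit 204838) (nat_lit 20) (.e (nat_lit 114716) (nat_lit 22) (.e (nat_lit 90163) (nat_lit 12) (.e (nat_lit 164006) (nat_lit 41) (.e (nat_lit 663559) (nat_lit 0) .nil)))))))) (.g (nat_lit 5) .nil .nil))) 
(.lf (nat_lit 40423) (.g (nat_lit 2334) (.e (nat_lit 1234) (nat_lit 91) (.e (nat_lit 90170) (nat_lit 13) (.e (nat_lit 172106) (nat_lit 10) (.e (nat_lit 434219) (nat_lit 19) .nil)))) .nil))) (.nd (nat_lit 5) 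
(.lf (nat_lit 40407) (.g (nat_lit 1552) (.e (nat_lit 1234) (nat_lit 91) (.e (nat_lit 90170) (nat_lit 13) (.e (nat_lit 172079) (nat_lit 7) (.e (nat_lit 409630) (nat_lit 12) .nil)))) .nil)) 
(.lf (nat_lit 40439) (.g (nat_lit 4264) (.e (nat_lit 1234) (nat_lit 91) (.e (nat_lit 90170) (nat_lit 13) (.e (nat_lit 172106) (nat_lit 10) (.e (nat_lit 434231) (nat_lit 23) (.e (nat_lit 532481) (nat_lit 0) (.e (nat_lit 6714) (nat_lit 360) (.e (nat_lit 164234) (nat_lit 187) .nil))))))) (.g (nat_lit 4) .nil .nil))))) (.nd (nat_lit 4) (.nd (nat_lit 5) 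
(.lf (nat_lit 40399) (.g (nat_lit 3465) (.e (nat_lit 1234) (nat_lit 91) (.e (nat_lit 90170) (nat_lit 13) (.e (nat_lit 172067) (nat_lit 3) (.e (nat_lit 204838) (nat_lit 20) (.e (nat_lit 114714) (nat_lit 22) (.e (nat_lit 90162) (nat_lit 12) (.e (nat_lit 164007) (nat_lit 41) (.e (nat_lit 663559) (nat_lit 0) .nil)))))))) (.g (nat_lit 4) .nil .nil))) 
(.lf (nat_lit 40431) (.g (nat_lit 4168) (.e (nat_lit 1234) (nat_lit 91) (.e (nat_lit 90170) (nat_lit 13) (.e (nat_lit 172106) (nat_lit 10) (.e (nat_lit 434231) (nat_lit 23) (.e (nat_lit 532481) (nat_lit 0) .nil))))) .nil))) (.nd (nat_lit 5) 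
(.lf (nat_lit 40415) (.g (nat_lit 681) (.e (nat_lit 1234) (nat_lit 91) (.e (nat_lit 90170) (nat_lit 13) (.e (nat_lit 172084) (nat_lit 8) .nil))) .nil)) 
(.lf (nat_lit 40447) (.g (nat_lit 4612) (.e (nat_lit 1234) (nat_lit 91) (.e (nat_lit 90170) (nat_lit 13) (.e (nat_lit 172106) (nat_lit 10) (.e (nat_lit 434231) (nat_lit 23) (.e (nat_lit 532482) (nat_lit 0) (.e (nat_lit 6712) (nat_lit 360) (.e (nat_lit 164239) (nat_lit 187) .nil))))))) (.g (nat_lit 4) .nil .nil)))))))))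

noncomputable def tv561 : DT := (.nd (nat_lit 0) (.nd (nat_lit 1) (.nd (nat_lit 2) (.nd (nat_lit 3) (.nd (nat_lit 4) (.nd (nat_lit 5) 
(.lf (nat_lit 40448) (.g (nat_lit 3626) (.e (nat_lit 1234) (nat_lit 91) (.e (nat_lit 90170) (nat_lit 13) (.e (nat_lit 172106) (nat_lit 10) (.e (nat_lit 434231) (nat_lit 23) (.e (nat_lit 532482) (nat_lit 0) (.e (nat_lit 6714) (nat_lit 360) (.e (nat_lit 164234) (nat_lit 187) .nil))))))) (.g (nat_lit 4) .nil .nil))) 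
(.lf (nat_lit 40480) (.g (nat_lit 4012) (.e (nat_lit 1234) (nat_lit 91) (.e (nat_lit 90170) (nat_lit 13) (.e (nat_lit 172106) (nat_lit 10) (.e (nat_lit 434231) (nat_lit 23) (.e (nat_lit 532525) (nat_lit 8) (.e (nat_lit 327702) (nat_lit 10) (.e (nat_lit 5351) (nat_lit 298) .nil))))))) (.g (nat_lit 4) .nil .nil)))) (.nd (nat_lit 5) 
(.lf (nat_lit 40464) (.g (nat_lit 3723) (.e (nat_lit 1234) (nat_lit 91) (.e (nat_lit 90170) (nat_lit 13) (.e (nat_lit 172106) (nat_lit 10) (.e (nat_lit 434231) (nat_lit 23) (.e (nat_lit 532522) (nat_lit 7) (.e (nat_lit 319498) (nat_lit 10) (.e (nat_lit 5349) (nat_lit 298) .nil))))))) (.g (nat_lit 4) .nil .nil))) 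
(.lf (nat_lit 40496) (.g (nat_lit 3629) (.e (nat_lit 1234) (nat_lit 91) (.e (nat_lit 90170) (nat_lit 13) (.e (nat_lit 172106) (nat_lit 10) (.e (nat_lit 434231) (nat_lit 23) (.e (nat_lit 532529) (nat_lit 9) (.e (nat_lit 335883) (nat_lit 0) (.e (nat_lit 1936) (nat_lit 132) (.e (nat_lit 622605) (nat_lit 5) .nil)))))))) (.g (nat_lit 4) .nil .nil))))) (.nd (nat_lit 4) (.nd (nat_lit 5) 
(.lf (nat_lit 40456) (.g (nat_lit 3494) (.e (nat_lit 1234) (nat_lit 91) (.e (nat_lit 90170) (nat_lit 13) (.e (nat_lit 172106) (nat_lit 10) (.e (nat_lit 434231) (nat_lit 23) (.e (nat_lit 532490) (nat_lit 0) (.e (nat_lit 6114) (nat_lit 332) (.e (nat_lit 973) (nat_lit 81) (.e (nat_lit 5325) (nat_lit 298) .nil)))))))) (.g (nat_lit 4) .nil .nil))) 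
(.lf (nat_lit 40488) (.g (nat_lit 3585) (.e (nat_lit 1234) (nat_lit 91) (.e (nat_lit 90170) (nat_lit 13) (.e (nat_lit 172106) (nat_lit 10) (.e (nat_lit 434231) (nat_lit 23) (.e (nat_lit 532526) (nat_lit 8) (.e (nat_lit 327706) (nat_lit 10) (.e (nat_lit 5367) (nat_lit 298) .nil))))))) (.g (nat_lit 4) .nil .nil)))) (.nd (nat_lit 5) 
(.lf (nat_lit 40472) (.g (nat_lit 4596) (.e (nat_lit 1234) (nat_lit 91) (.e (nat_lit 90170) (nat_lit 13) (.e (nat_lit 172106) (nat_lit 10) (.e (nat_lit 434231) (nat_lit 23) (.e (nat_lit 532523) (nat_lit 7) (.e (nat_lit 319504) (nat_lit 10) (.e (nat_lit 5351) (nat_lit 298) .nil))))))) (.g (nat_lit 5) .nil .nil))) 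
(.lf (nat_lit 40504) (.g (nat_lit 3641) (.e (nat_lit 1234) (nat_lit 91) (.e (nat_lit 90170) (nat_lit 13) (.e (nat_lit 172106) (nat_lit 10) (.e (nat_lit 434231) (nat_lit 23) (.e (nat_lit 532529) (nat_lit 9) (.e (nat_lit 343808) (nat_lit 4) (.e (nat_lit 123127) (nat_lit 239) (.e (nat_lit 1039) (nat_lit 81) .nil)))))))) (.g (nat_lit 4) .nil .nil)))))) 
(.nd (nat_lit 3) (.nd (nat_lit 4) (.nd (nat_lit 5) 
(.lf (nat_lit 40452) (.g (nat_lit 3805) (.e (nat_lit 1234) (nat_lit 91) (.e (nat_lit 90170) (nat_lit 13) (.e (nat_lit 172106) (nat_lit 10) (.e (nat_lit 434231) (nat_lit 23) (.e (nat_lit 532486) (nat_lit 0) (.e (nat_lit 6218) (nat_lit 333) (.e (nat_lit 57891) (nat_lit 270) .nil))))))) (.g (nat_lit 4) .nil .nil))) 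
(.lf (nat_lit 40484) (.g (nat_lit 4548) (.e (nat_lit 1234) (nat_lit 91) (.e (nat_lit 90170) (nat_lit 13) (.e (nat_lit 172106) (nat_lit 10) (.e (nat_lit 434231) (nat_lit 23) (.e (nat_lit 532526) (nat_lit 8) (.e (nat_lit 327702) (nat_lit 10) (.e (nat_lit 5351) (nat_lit 298) .nil))))))) (.g (nat_lit 5) .nil .nil)))) (.nd (nat_lit 5) 
(.lf (nat_lit 40468) (.g (nat_lit 3079) (.e (nat_lit 1234) (nat_lit 91) (.e (nat_lit 90170) (nat_lit 13) (.e (nat_lit 172106) (nat_lit 10) (.e (nat_lit 434231) (nat_lit 23) (.e (nat_lit 532523) (nat_lit 7) .nil))))) .nil)) 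
(.lf (nat_lit 40500) (.g (nat_lit 3598) (.e (nat_lit 1234) (nat_lit 91) (.e (nat_lit 90170) (nat_lit 13) (.e (nat_lit 172106) (nat_lit 10) (.e (nat_lit 434231) (nat_lit 23) (.e (nat_lit 532529) (nat_lit 9) (.e (nat_lit 335971) (nat_lit 0) (.e (nat_lit 1939) (nat_lit 132) (.e (nat_lit 622604) (nat_lit 5) .nil)))))))) (.g (nat_lit 4) .nil .nil))))) (.nd (nat_lit 4) (.nd (nat_lit 5) 
(.lf (nat_lit 40460) (.g (nat_lit 3678) (.e (nat_lit 1234) (nat_lit 91) (.e (nat_lit 90170) (nat_lit 13) (.e (nat_lit 172106) (nat_lit 10) (.e (nat_lit 434231) (nat_lit 23) (.e (nat_lit 532490) (nat_lit 0) (.e (nat_lit 6223) (nat_lit 334) (.e (nat_lit 123207) (nat_lit 270) .nil))))))) (.g (nat_lit 4) .nil .nil))) 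
(.lf (nat_lit 40492) (.g (nat_lit 3324) (.e (nat_lit 1234) (nat_lit 91) (.e (nat_lit 90170) (nat_lit 13) (.e (nat_lit 172106) (nat_lit 10) (.e (nat_lit 434231) (nat_lit 23) (.e (nat_lit 532529) (nat_lit 9) (.e (nat_lit 335875) (nat_lit 0) (.e (nat_lit 7936) (nat_lit 132) (.e (nat_lit 622598) (nat_lit 5) .nil)))))))) (.g (nat_lit 4) .nil .nil)))) (.nd (nat_lit 5) 
(.lf (nat_lit 40476) (.g (nat_lit 5841) (.e (nat_lit 1234) (nat_lit 91) (.e (nat_lit 90170) (nat_lit 13) (.e (nat_lit 172106) (nat_lit 10) (.e (nat_lit 434231) (nat_lit 23) (.e (nat_lit 532523) (nat_lit 7) (.e (nat_lit 319506) (nat_lit 10) (.e (nat_lit 5371) (nat_lit 298) .nil))))))) (.g (nat_lit 6) .nil .nil))) 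
(.lf (nat_lit 40508) (.g (nat_lit 3513) (.e (nat_lit 1234) (nat_lit 91) (.e (nat_lit 90170) (nat_lit 13) (.e (nat_lit 172106) (nat_lit 10) (.e (nat_lit 434231) (nat_lit 23) (.e (nat_lit 532529) (nat_lit 9) (.e (nat_lit 336242) (nat_lit 15) (.e (nat_lit 7936) (nat_lit 224) (.e (nat_lit 753696) (nat_lit 13) .nil)))))))) (.g (nat_lit 4) .nil .nil))))))) 
(.nd (nat_lit 2) (.nd (nat_lit 3) (.nd (nat_lit 4) (.nd (nat_lit 5) 
(.lf (nat_lit 40450) (.g (nat_lit 5274) (.e (nat_lit 1234) (nat_lit 91) (.e (nat_lit 90170) (nat_lit 13) (.e (nat_lit 172106) (nat_lit 10) (.e (nat_lit 434231) (nat_lit 23) (.e (nat_lit 532482) (nat_lit 0) (.e (nat_lit 6714) (nat_lit 360) (.e (nat_lit 164239) (nat_lit 187) .nil))))))) (.g (nat_lit 6) .nil .nil))) 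
(.lf (nat_lit 40482) (.g (nat_lit 3295) (.e (nat_lit 1234) (nat_lit 91) (.e (nat_lit 90170) (nat_lit 13) (.e (nat_lit 172106) (nat_lit 10) (.e (nat_lit 434231) (nat_lit 23) (.e (nat_lit 532526) (nat_lit 8) .nil))))) .nil))) (.nd (nat_lit 5) 
(.lf (nat_lit 40466) (.g (nat_lit 3769) (.e (nat_lit 1234) (nat_lit 91) (.e (nat_lit 90170) (nat_lit 13) (.e (nat_lit 172106) (nat_lit 10) (.e (nat_lit 434231) (nat_lit 23) (.e (nat_lit 532522) (nat_lit 7) (.e (nat_lit 319504) (nat_lit 10) (.e (nat_lit 5351) (nat_lit 298) .nil))))))) (.g (nat_lit 4) .nil .nil))) 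
(.lf (nat_lit 40498) (.g (nat_lit 3693) (.e (nat_lit 1234) (nat_lit 91) (.e (nat_lit 90170) (nat_lit 13) (.e (nat_lit 172106) (nat_lit 10) (.e (nat_lit 434231) (nat_lit 23) (.e (nat_lit 532529) (nat_lit 9) (.e (nat_lit 335950) (nat_lit 0) (.e (nat_lit 1936) (nat_lit 132) (.e (nat_lit 622605) (nat_lit 5) .nil)))))))) (.g (nat_lit 4) .nil .nil))))) (.nd (nat_lit 4) (.nd (nat_lit 5) 
(.lf (nat_lit 40458) (.g (nat_lit 4834) (.e (nat_lit 1234) (nat_lit 91) (.e (nat_lit 90170) (nat_lit 13) (.e (nat_lit 172106) (nat_lit 10) (.e (nat_lit 434231) (nat_lit 23) (.e (nat_lit 532490) (nat_lit 0) (.e (nat_lit 6136) (nat_lit 332) (.e (nat_lit 988) (nat_lit 81) (.e (nat_lit 5351) (nat_lit 298) .nil)))))))) (.g (nat_lit 5) .nil .nil))) 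
(.lf (nat_lit 40490) (.g (nat_lit 3729) (.e (nat_lit 1234) (nat_lit 91) (.e (nat_lit 90170) (nat_lit 13) (.e (nat_lit 172106) (nat_lit 10) (.e (nat_lit 434231) (nat_lit 23) (.e (nat_lit 532528) (nat_lit 9) .nil))))) .nil))) (.nd (nat_lit 5) 
(.lf (nat_lit 40474) (.g (nat_lit 5561) (.e (nat_lit 1234) (nat_lit 91) (.e (nat_lit 90170) (nat_lit 13) (.e (nat_lit 172106) (nat_lit 10) (.e (nat_lit 434231) (nat_lit 23) (.e (nat_lit 532523) (nat_lit 7) (.e (nat_lit 319505) (nat_lit 10) (.e (nat_lit 5351) (nat_lit 298) .nil))))))) (.g (nat_lit 6) .nil .nil))) 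
(.lf (nat_lit 40506) (.g (nat_lit 3770) (.e (nat_lit 1234) (nat_lit 91) (.e (nat_lit 90170) (nat_lit 13) (.e (nat_lit 172106) (nat_lit 10) (.e (nat_lit 434231) (nat_lit 23) (.e (nat_lit 532529) (nat_lit 9) (.e (nat_lit 336240) (nat_lit 15) (.e (nat_lit 3590) (nat_lit 224) (.e (nat_lit 753696) (nat_lit 13) .nil)))))))) (.g (nat_lit 4) .nil .nil)))))) 
(.nd (nat_lit 3) (.nd (nat_lit 4) (.nd (nat_lit 5) 
(.lf (nat_lit 40454) (.g (nat_lit 3477) (.e (nat_lit 1234) (nat_lit 91) (.e (nat_lit 90170) (nat_lit 13) (.e (nat_lit 172106) (nat_lit 10) (.e (nat_lit 434231) (nat_lit 23) (.e (nat_lit 532486) (nat_lit 0) (.e (nat_lit 6225) (nat_lit 334) (.e (nat_lit 123209) (nat_lit 270) .nil))))))) (.g (nat_lit 4) .nil .nil))) 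
(.lf (nat_lit 40486) (.g (nat_lit 3741) (.e (nat_lit 1234) (nat_lit 91) (.e (nat_lit 90170) (nat_lit 13) (.e (nat_lit 172106) (nat_lit 10) (.e (nat_lit 434231) (nat_lit 23) (.e (nat_lit 532526) (nat_lit 8) (.e (nat_lit 327705) (nat_lit 10) (.e (nat_lit 5367) (nat_lit 298) .nil))))))) (.g (nat_lit 4) .nil .nil)))) (.nd (nat_lit 5) 
(.lf (nat_lit 40470) (.g (nat_lit 4147) (.e (nat_lit 1234) (nat_lit 91) (.e (nat_lit 90170) (nat_lit 13) (.e (nat_lit 172106) (nat_lit 10) (.e (nat_lit 434231) (nat_lit 23) (.e (nat_lit 532523) (nat_lit 7) (.e (nat_lit 319497) (nat_lit 10) (.e (nat_lit 5349) (nat_lit 298) .nil))))))) (.g (nat_lit 4) .nil .nil))) 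
(.lf (nat_lit 40502) (.g (nat_lit 3324) (.e (nat_lit 1234) (nat_lit 91) (.e (nat_lit 90170) (nat_lit 13) (.e (nat_lit 172106) (nat_lit 10) (.e (nat_lit 434231) (nat_lit 23) (.e (nat_lit 532529) (nat_lit 9) (.e (nat_lit 335980) (nat_lit 0) (.e (nat_lit 1936) (nat_lit 132) (.e (nat_lit 622604) (nat_lit 5) .nil)))))))) (.g (nat_lit 4) .nil .nil))))) (.nd (nat_lit 4) (.nd (nat_lit 5) 
(.lf (nat_lit 40462) (.g (nat_lit 5054) (.e (nat_lit 1234) (nat_lit 91) (.e (nat_lit 90170) (nat_lit 13) (.e (nat_lit 172106) (nat_lit 10) (.e (nat_lit 434231) (nat_lit 23) (.e (nat_lit 532490) (nat_lit 0) (.e (nat_lit 7936) (nat_lit 360) (.e (nat_lit 164238) (nat_lit 187) .nil))))))) (.g (nat_lit 5) .nil .nil))) 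
(.lf (nat_lit 40494) (.g (nat_lit 3380) (.e (nat_lit 1234) (nat_lit 91) (.e (nat_lit 90170) (nat_lit 13) (.e (nat_lit 172106) (nat_lit 10) (.e (nat_lit 434231) (nat_lit 23) (.e (nat_lit 532529) (nat_lit 9) (.e (nat_lit 335878) (nat_lit 0) (.e (nat_lit 1943) (nat_lit 132) (.e (nat_lit 622604) (nat_lit 5) .nil)))))))) (.g (nat_lit 4) .nil .nil)))) (.nd (nat_lit 5) 
(.lf (nat_lit 40478) (.g (nat_lit 3602) (.e (nat_lit 1234) (nat_lit 91) (.e (nat_lit 90170) (nat_lit 13) (.e (nat_lit 172106) (nat_lit 10) (.e (nat_lit 434231) (nat_lit 23) (.e (nat_lit 532525) (nat_lit 8) .nil))))) .nil)) 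
(.lf (nat_lit 40510) (.g (nat_lit 4177) (.e (nat_lit 1234) (nat_lit 91) (.e (nat_lit 90170) (nat_lit 13) (.e (nat_lit 172106) (nat_lit 10) (.e (nat_lit 434231) (nat_lit 23) (.e (nat_lit 532529) (nat_lit 9) (.e (nat_lit 336245) (nat_lit 15) (.e (nat_lit 3588) (nat_lit 224) (.e (nat_lit 753696) (nat_lit 13) .nil)))))))) (.g (nat_lit 5) .nil .nil)))))))) 
(.nd (nat_lit 1) (.nd (nat_lit 2) (.nd (nat_lit 3) (.nd (nat_lit 4) (.nd (nat_lit 5) 
(.lf (nat_lit 40449) (.g (nat_lit 4884) (.e (nat_lit 1234) (nat_lit 91) (.e (nat_lit 90170) (nat_lit 13) (.e (nat_lit 172106) (nat_lit 10) (.e (nat_lit 434231) (nat_lit 23) (.e (nat_lit 532482) (nat_lit 0) (.e (nat_lit 6714) (nat_lit 360) (.e (nat_lit 164238) (nat_lit 187) .nil))))))) (.g (nat_lit 5) .nil .nil))) 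
(.lf (nat_lit 40481) (.g (nat_lit 4437) (.e (nat_lit 1234) (nat_lit 91) (.e (nat_lit 90170) (nat_lit 13) (.e (nat_lit 172106) (nat_lit 10) (.e (nat_lit 434231) (nat_lit 23) (.e (nat_lit 532525) (nat_lit 8) (.e (nat_lit 327705) (nat_lit 10) (.e (nat_lit 5371) (nat_lit 298) .nil))))))) (.g (nat_lit 4) .nil .nil)))) (.nd (nat_lit 5) 
(.lf (nat_lit 40465) (.g (nat_lit 4639) (.e (nat_lit 1234) (nat_lit 91) (.e (nat_lit 90170) (nat_lit 13) (.e (nat_lit 172106) (nat_lit 10) (.e (nat_lit 434231) (nat_lit 23) (.e (nat_lit 532522) (nat_lit 7) (.e (nat_lit 319500) (nat_lit 10) (.e (nat_lit 5351) (nat_lit 298) .nil))))))) (.g (nat_lit 6) .nil .nil))) 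
(.lf (nat_lit 40497) (.g (nat_lit 3654) (.e (nat_lit 1234) (nat_lit 91) (.e (nat_lit 90170) (nat_lit 13) (.e (nat_lit 172106) (nat_lit 10) (.e (nat_lit 434231) (nat_lit 23) (.e (nat_lit 532529) (nat_lit 9) (.e (nat_lit 335885) (nat_lit 0) (.e (nat_lit 1936) (nat_lit 132) (.e (nat_lit 622605) (nat_lit 5) .nil)))))))) (.g (nat_lit 4) .nil .nil))))) (.nd (nat_lit 4) (.nd (nat_lit 5) 
(.lf (nat_lit 40457) (.g (nat_lit 3953) (.e (nat_lit 1234) (nat_lit 91) (.e (nat_lit 90170) (nat_lit 13) (.e (nat_lit 172106) (nat_lit 10) (.e (nat_lit 434231) (nat_lit 23) (.e (nat_lit 532490) (nat_lit 0) (.e (nat_lit 6136) (nat_lit 332) (.e (nat_lit 988) (nat_lit 81) (.e (nat_lit 5349) (nat_lit 298) .nil)))))))) (.g (nat_lit 4) .nil .nil))) 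
(.lf (nat_lit 40489) (.g (nat_lit 3566) (.e (nat_lit 1234) (nat_lit 91) (.e (nat_lit 90170) (nat_lit 13) (.e (nat_lit 172106) (nat_lit 10) (.e (nat_lit 434231) (nat_lit 23) (.e (nat_lit 532527) (nat_lit 9) (.e (nat_lit 336031) (nat_lit 4) (.e (nat_lit 123127) (nat_lit 239) (.e (nat_lit 1039) (nat_lit 81) .nil)))))))) (.g (nat_lit 4) .nil .nil)))) (.nd (nat_lit 5) 
(.lf (nat_lit 40473) (.g (nat_lit 3718) (.e (nat_lit 1234) (nat_lit 91) (.e (nat_lit 90170) (nat_lit 13) (.e (nat_lit 172106) (nat_lit 10) (.e (nat_lit 434231) (nat_lit 23) (.e (nat_lit 532523) (nat_lit 7) (.e (nat_lit 319504) (nat_lit 10) (.e (nat_lit 7936) (nat_lit 298) .nil))))))) (.g (nat_lit 4) .nil .nil))) 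
(.lf (nat_lit 40505) (.g (nat_lit 4157) (.e (nat_lit 1234) (nat_lit 91) (.e (nat_lit 90170) (nat_lit 13) (.e (nat_lit 172106) (nat_lit 10) (.e (nat_lit 434231) (nat_lit 23) (.e (nat_lit 532529) (nat_lit 9) (.e (nat_lit 336240) (nat_lit 15) (.e (nat_lit 3590) (nat_lit 224) (.e (nat_lit 753695) (nat_lit 13) .nil)))))))) (.g (nat_lit 4) .nil .nil)))))) 
(.nd (nat_lit 3) (.nd (nat_lit 4) (.nd (nat_lit 5) 
(.lf (nat_lit 40453) (.g (nat_lit 3526) (.e (nat_lit 1234) (nat_lit 91) (.e (nat_lit 90170) (nat_lit 13) (.e (nat_lit 172106) (nat_lit 10) (.e (nat_lit 434231) (nat_lit 23) (.e (nat_lit 532486) (nat_lit 0) (.e (nat_lit 6225) (nat_lit 334) (.e (nat_lit 123207) (nat_lit 270) .nil))))))) (.g (nat_lit 4) .nil .nil))) 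
(.lf (nat_lit 40485) (.g (nat_lit 4542) (.e (nat_lit 1234) (nat_lit 91) (.e (nat_lit 90170) (nat_lit 13) (.e (nat_lit 172106) (nat_lit 10) (.e (nat_lit 434231) (nat_lit 23) (.e (nat_lit 532526) (nat_lit 8) (.e (nat_lit 327703) (nat_lit 10) (.e (nat_lit 5351) (nat_lit 298) .nil))))))) (.g (nat_lit 5) .nil .nil)))) (.nd (nat_lit 5) 
(.lf (nat_lit 40469) (.g (nat_lit 4167) (.e (nat_lit 1234) (nat_lit 91) (.e (nat_lit 90170) (nat_lit 13) (.e (nat_lit 172106) (nat_lit 10) (.e (nat_lit 434231) (nat_lit 23) (.e (nat_lit 532523) (nat_lit 7) (.e (nat_lit 319496) (nat_lit 10) (.e (nat_lit 5351) (nat_lit 298) .nil))))))) (.g (nat_lit 4) .nil .nil))) 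
(.lf (nat_lit 40501) (.g (nat_lit 3591) (.e (nat_lit 1234) (nat_lit 91) (.e (nat_lit 90170) (nat_lit 13) (.e (nat_lit 172106) (nat_lit 10) (.e (nat_lit 434231) (nat_lit 23) (.e (nat_lit 532529) (nat_lit 9) (.e (nat_lit 335980) (nat_lit 0) (.e (nat_lit 1936) (nat_lit 132) (.e (nat_lit 622598) (nat_lit 5) .nil)))))))) (.g (nat_lit 4) .nil .nil))))) (.nd (nat_lit 4) (.nd (nat_lit 5) 
(.lf (nat_lit 40461) (.g (nat_lit 3397) (.e (nat_lit 1234) (nat_lit 91) (.e (nat_lit 90170) (nat_lit 13) (.e (nat_lit 172106) (nat_lit 10) (.e (nat_lit 434231) (nat_lit 23) (.e (nat_lit 532490) (nat_lit 0) (.e (nat_lit 6223) (nat_lit 334) (.e (nat_lit 123209) (nat_lit 270) .nil))))))) (.g (nat_lit 4) .nil .nil))) 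
(.lf (nat_lit 40493) (.g (nat_lit 3304) (.e (nat_lit 1234) (nat_lit 91) (.e (nat_lit 90170) (nat_lit 13) (.e (nat_lit 172106) (nat_lit 10) (.e (nat_lit 434231) (nat_lit 23) (.e (nat_lit 532529) (nat_lit 9) (.e (nat_lit 335875) (nat_lit 0) (.e (nat_lit 7936) (nat_lit 132) (.e (nat_lit 622605) (nat_lit 5) .nil)))))))) (.g (nat_lit 4) .nil .nil)))) (.nd (nat_lit 5) 
(.lf (nat_lit 40477) (.g (nat_lit 3667) (.e (nat_lit 1234) (nat_lit 91) (.e (nat_lit 90170) (nat_lit 13) (.e (nat_lit 172106) (nat_lit 10) (.e (nat_lit 434231) (nat_lit 23) (.e (nat_lit 532523) (nat_lit 7) (.e (nat_lit 327424) (nat_lit 10) (.e (nat_lit 5349) (nat_lit 298) .nil))))))) (.g (nat_lit 4) .nil .nil))) 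
(.lf (nat_lit 40509) (.g (nat_lit 4803) (.e (nat_lit 1234) (nat_lit 91) (.e (nat_lit 90170) (nat_lit 13) (.e (nat_lit 172106) (nat_lit 10) (.e (nat_lit 434231) (nat_lit 23) (.e (nat_lit 532529) (nat_lit 9) (.e (nat_lit 336243) (nat_lit 15) (.e (nat_lit 3588) (nat_lit 224) (.e (nat_lit 753696) (nat_lit 13) .nil)))))))) (.g (nat_lit 5) .nil .nil))))))) 
(.nd (nat_lit 2) (.nd (nat_lit 3) (.nd (nat_lit 4) (.nd (nat_lit 5) 
(.lf (nat_lit 40451) (.g (nat_lit 3930) (.e (nat_lit 1234) (nat_lit 91) (.e (nat_lit 90170) (nat_lit 13) (.e (nat_lit 172106) (nat_lit 10) (.e (nat_lit 434231) (nat_lit 23) (.e (nat_lit 532483) (nat_lit 0) .nil))))) .nil)) 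
(.lf (nat_lit 40483) (.g (nat_lit 4413) (.e (nat_lit 1234) (nat_lit 91) (.e (nat_lit 90170) (nat_lit 13) (.e (nat_lit 172106) (nat_lit 10) (.e (nat_lit 434231) (nat_lit 23) (.e (nat_lit 532526) (nat_lit 8) (.e (nat_lit 327702) (nat_lit 10) (.e (nat_lit 5349) (nat_lit 298) .nil))))))) (.g (nat_lit 5) .nil .nil)))) (.nd (nat_lit 5) 
(.lf (nat_lit 40467) (.g (nat_lit 4514) (.e (nat_lit 1234) (nat_lit 91) (.e (nat_lit 90170) (nat_lit 13) (.e (nat_lit 172106) (nat_lit 10) (.e (nat_lit 434231) (nat_lit 23) (.e (nat_lit 532522) (nat_lit 7) (.e (nat_lit 319505) (nat_lit 10) (.e (nat_lit 5351) (nat_lit 298) .nil))))))) (.g (nat_lit 5) .nil .nil))) 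
(.lf (nat_lit 40499) (.g (nat_lit 3467) (.e (nat_lit 1234) (nat_lit 91) (.e (nat_lit 90170) (nat_lit 13) (.e (nat_lit 172106) (nat_lit 10) (.e (nat_lit 434231) (nat_lit 23) (.e (nat_lit 532529) (nat_lit 9) (.e (nat_lit 335971) (nat_lit 0) (.e (nat_lit 1939) (nat_lit 132) (.e (nat_lit 622603) (nat_lit 5) .nil)))))))) (.g (nat_lit 4) .nil .nil))))) (.nd (nat_lit 4) (.nd (nat_lit 5) 
(.lf (nat_lit 40459) (.g (nat_lit 3920) (.e (nat_lit 1234) (nat_lit 91) (.e (nat_lit 90170) (nat_lit 13) (.e (nat_lit 172106) (nat_lit 10) (.e (nat_lit 434231) (nat_lit 23) (.e (nat_lit 532490) (nat_lit 0) (.e (nat_lit 6206) (nat_lit 333) (.e (nat_lit 57891) (nat_lit 270) .nil))))))) (.g (nat_lit 4) .nil .nil))) 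
(.lf (nat_lit 40491) (.g (nat_lit 4197) (.e (nat_lit 1234) (nat_lit 91) (.e (nat_lit 90170) (nat_lit 13) (.e (nat_lit 172106) (nat_lit 10) (.e (nat_lit 434231) (nat_lit 23) (.e (nat_lit 532528) (nat_lit 9) (.e (nat_lit 336260) (nat_lit 15) (.e (nat_lit 3588) (nat_lit 224) (.e (nat_lit 753696) (nat_lit 13) .nil)))))))) (.g (nat_lit 4) .nil .nil)))) (.nd (nat_lit 5) 
(.lf (nat_lit 40475) (.g (nat_lit 4556) (.e (nat_lit 1234) (nat_lit 91) (.e (nat_lit 90170) (nat_lit 13) (.e (nat_lit 172106) (nat_lit 10) (.e (nat_lit 434231) (nat_lit 23) (.e (nat_lit 532523) (nat_lit 7) (.e (nat_lit 319506) (nat_lit 10) (.e (nat_lit 5367) (nat_lit 298) .nil))))))) (.g (nat_lit 5) .nil .nil))) 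
(.lf (nat_lit 40507) (.g (nat_lit 3446) (.e (nat_lit 1234) (nat_lit 91) (.e (nat_lit 90170) (nat_lit 13) (.e (nat_lit 172106) (nat_lit 10) (.e (nat_lit 434231) (nat_lit 23) (.e (nat_lit 532529) (nat_lit 9) (.e (nat_lit 336240) (nat_lit 15) (.e (nat_lit 3595) (nat_lit 224) (.e (nat_lit 753695) (nat_lit 13) .nil)))))))) (.g (nat_lit 4) .nil .nil)))))) 
(.nd (nat_lit 3) (.nd (nat_lit 4) (.nd (nat_lit 5) 
(.lf (nat_lit 40455) (.g (nat_lit 3001) (.e (nat_lit 1234) (nat_lit 91) (.e (nat_lit 90170) (nat_lit 13) (.e (nat_lit 172106) (nat_lit 10) (.e (nat_lit 434231) (nat_lit 23) (.e (nat_lit 532490) (nat_lit 0) .nil))))) .nil)) 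
(.lf (nat_lit 40487) (.g (nat_lit 5357) (.e (nat_lit 1234) (nat_lit 91) (.e (nat_lit 90170) (nat_lit 13) (.e (nat_lit 172106) (nat_lit 10) (.e (nat_lit 434231) (nat_lit 23) (.e (nat_lit 532526) (nat_lit 8) (.e (nat_lit 327705) (nat_lit 10) (.e (nat_lit 5371) (nat_lit 298) .nil))))))) (.g (nat_lit 6) .nil .nil)))) (.nd (nat_lit 5) 
(.lf (nat_lit 40471) (.g (nat_lit 4940) (.e (nat_lit 1234) (nat_lit 91) (.e (nat_lit 90170) (nat_lit 13) (.e (nat_lit 172106) (nat_lit 10) (.e (nat_lit 434231) (nat_lit 23) (.e (nat_lit 532523) (nat_lit 7) (.e (nat_lit 319498) (nat_lit 10) (.e (nat_lit 5349) (nat_lit 298) .nil))))))) (.g (nat_lit 5) .nil .nil))) 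
(.lf (nat_lit 40503) (.g (nat_lit 4508) (.e (nat_lit 1234) (nat_lit 91) (.e (nat_lit 90170) (nat_lit 13) (.e (nat_lit 172106) (nat_lit 10) (.e (nat_lit 434231) (nat_lit 23) (.e (nat_lit 532529) (nat_lit 9) (.e (nat_lit 335980) (nat_lit 0) (.e (nat_lit 1936) (nat_lit 132) (.e (nat_lit 622605) (nat_lit 5) .nil)))))))) (.g (nat_lit 5) .nil .nil))))) (.nd (nat_lit 4) (.nd (nat_lit 5) 
(.lf (nat_lit 40463) (.g (nat_lit 4338) (.e (nat_lit 1234) (nat_lit 91) (.e (nat_lit 90170) (nat_lit 13) (.e (nat_lit 172106) (nat_lit 10) (.e (nat_lit 434231) (nat_lit 23) (.e (nat_lit 532490) (nat_lit 0) (.e (nat_lit 7936) (nat_lit 360) (.e (nat_lit 164239) (nat_lit 187) .nil))))))) (.g (nat_lit 5) .nil .nil))) 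
(.lf (nat_lit 40495) (.g (nat_lit 3571) (.e (nat_lit 1234) (nat_lit 91) (.e (nat_lit 90170) (nat_lit 13) (.e (nat_lit 172106) (nat_lit 10) (.e (nat_lit 434231) (nat_lit 23) (.e (nat_lit 532529) (nat_lit 9) (.e (nat_lit 335880) (nat_lit 0) (.e (nat_lit 1936) (nat_lit 132) (.e (nat_lit 622605) (nat_lit 5) .nil)))))))) (.g (nat_lit 4) .nil .nil)))) (.nd (nat_lit 5) 
(.lf (nat_lit 40479) (.g (nat_lit 3877) (.e (nat_lit 1234) (nat_lit 91) (.e (nat_lit 90170) (nat_lit 13) (.e (nat_lit 172106) (nat_lit 10) (.e (nat_lit 434231) (nat_lit 23) (.e (nat_lit 532525) (nat_lit 8) (.e (nat_lit 327702) (nat_lit 10) (.e (nat_lit 5349) (nat_lit 298) .nil))))))) (.g (nat_lit 4) .nil .nil))) 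
(.lf (nat_lit 40511) (.g (nat_lit 3617) (.e (nat_lit 1234) (nat_lit 91) (.e (nat_lit 90170) (nat_lit 13) (.e (nat_lit 172106) (nat_lit 10) (.e (nat_lit 434231) (nat_lit 23) (.e (nat_lit 532529) (nat_lit 9) (.e (nat_lit 336247) (nat_lit 15) (.e (nat_lit 3588) (nat_lit 224) (.e (nat_lit 753693) (nat_lit 13) .nil)))))))) (.g (nat_lit 4) .nil .nil)))))))))

noncomputable def tv562 : DT := (.nd (nat_lit 0) (.nd (nat_lit 1) (.nd (nat_lit 2) (.nd (nat_lit 3) (.nd (nat_lit 4) (.nd (nat_lit 5) 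
(.lf (nat_lit 40512) (.g (nat_lit 5332) (.e (nat_lit 1234) (nat_lit 91) (.e (nat_lit 90170) (nat_lit 13) (.e (nat_lit 172106) (nat_lit 10) (.e (nat_lit 434231) (nat_lit 23) (.e (nat_lit 532529) (nat_lit 9) (.e (nat_lit 336247) (nat_lit 15) (.e (nat_lit 3588) (nat_lit 224) (.e (nat_lit 753696) (nat_lit 13) .nil)))))))) (.g (nat_lit 6) .nil .nil))) 
(.lf (nat_lit 40544) (.g (nat_lit 3606) (.e (nat_lit 1234) (nat_lit 91) (.e (nat_lit 90170) (nat_lit 13) (.e (nat_lit 172106) (nat_lit 10) (.e (nat_lit 434231) (nat_lit 23) (.e (nat_lit 532535) (nat_lit 9) (.e (nat_lit 335900) (nat_lit 0) (.e (nat_lit 986) (nat_lit 81) (.e (nat_lit 4777) (nat_lit 281) (.e (nat_lit 1041) (nat_lit 81) .nil))))))))) (.g (nat_lit 4) .nil .nil)))) (.nd (nat_lit 5) 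
(.lf (nat_lit 40528) (.g (nat_lit 3531) (.e (nat_lit 1234) (nat_lit 91) (.e (nat_lit 90170) (nat_lit 13) (.e (nat_lit 172106) (nat_lit 10) (.e (nat_lit 434231) (nat_lit 23) (.e (nat_lit 532529) (nat_lit 9) (.e (nat_lit 336258) (nat_lit 15) (.e (nat_lit 3590) (nat_lit 224) (.e (nat_lit 753696) (nat_lit 13) .nil)))))))) (.g (nat_lit 4) .nil .nil))) 
(.lf (nat_lit 40560) (.g (nat_lit 3675) (.e (nat_lit 1234) (nat_lit 91) (.e (nat_lit 90170) (nat_lit 13) (.e (nat_lit 172106) (nat_lit 10) (.e (nat_lit 434231) (nat_lit 23) (.e (nat_lit 532535) (nat_lit 9) (.e (nat_lit 335905) (nat_lit 0) (.e (nat_lit 970) (nat_lit 81) (.e (nat_lit 4810) (nat_lit 281) (.e (nat_lit 1039) (nat_lit 81) .nil))))))))) (.g (nat_lit 4) .nil .nil))))) 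
(.nd (nat_lit 4) (.nd (nat_lit 5) 
(.lf (nat_lit 40520) (.g (nat_lit 3524) (.e (nat_lit 1234) (nat_lit 91) (.e (nat_lit 90170) (nat_lit 13) (.e (nat_lit 172106) (nat_lit 10) (.e (nat_lit 434231) (nat_lit 23) (.e (nat_lit 532529) (nat_lit 9) (.e (nat_lit 336257) (nat_lit 15) (.e (nat_lit 3592) (nat_lit 224) (.e (nat_lit 753693) (nat_lit 13) .nil)))))))) (.g (nat_lit 4) .nil .nil))) 
(.lf (nat_lit 40552) (.g (nat_lit 3389) (.e (nat_lit 1234) (nat_lit 91) (.e (nat_lit 90170) (nat_lit 13) (.e (nat_lit 172106) (nat_lit 10) (.e (nat_lit 434231) (nat_lit 23) (.e (nat_lit 532535) (nat_lit 9) (.e (nat_lit 335902) (nat_lit 0) (.e (nat_lit 1936) (nat_lit 132) (.e (nat_lit 622603) (nat_lit 5) .nil)))))))) (.g (nat_lit 4) .nil .nil)))) (.nd (nat_lit 5) 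
(.lf (nat_lit 40536) (.g (nat_lit 3348) (.e (nat_lit 1234) (nat_lit 91) (.e (nat_lit 90170) (nat_lit 13) (.e (nat_lit 172106) (nat_lit 10) (.e (nat_lit 434231) (nat_lit 23) (.e (nat_lit 532529) (nat_lit 9) (.e (nat_lit 336306) (nat_lit 15) (.e (nat_lit 3591) (nat_lit 224) (.e (nat_lit 753696) (nat_lit 13) .nil)))))))) (.g (nat_lit 4) .nil .nil))) 
(.lf (nat_lit 40568) (.g (nat_lit 3961) (.e (nat_lit 1234) (nat_lit 91) (.e (nat_lit 90170) (nat_lit 13) (.e (nat_lit 172106) (nat_lit 10) (.e (nat_lit 434231) (nat_lit 23) (.e (nat_lit 532535) (nat_lit 9) (.e (nat_lit 335908) (nat_lit 0) (.e (nat_lit 1934) (nat_lit 132) (.e (nat_lit 622604) (nat_lit 5) .nil)))))))) (.g (nat_lit 5) .nil .nil)))))) 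
(.nd (nat_lit 3) (.nd (nat_lit 4) (.nd (nat_lit 5) 
(.lf (nat_lit 40516) (.g (nat_lit 3421) (.e (nat_lit 1234) (nat_lit 91) (.e (nat_lit 90170) (nat_lit 13) (.e (nat_lit 172106) (nat_lit 10) (.e (nat_lit 434231) (nat_lit 23) (.e (nat_lit 532529) (nat_lit 9) (.e (nat_lit 336257) (nat_lit 15) (.e (nat_lit 3585) (nat_lit 224) (.e (nat_lit 753697) (nat_lit 13) .nil)))))))) (.g (nat_lit 4) .nil .nil))) 
(.lf (nat_lit 40548) (.g (nat_lit 5726) (.e (nat_lit 1234) (nat_lit 91) (.e (nat_lit 90170) (nat_lit 13) (.e (nat_lit 172106) (nat_lit 10) (.e (nat_lit 434231) (nat_lit 23) (.e (nat_lit 532535) (nat_lit 9) (.e (nat_lit 335900) (nat_lit 0) (.e (nat_lit 1942) (nat_lit 132) (.e (nat_lit 622598) (nat_lit 5) .nil)))))))) (.g (nat_lit 5) .nil .nil)))) (.nd (nat_lit 5) 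
(.lf (nat_lit 40532) (.g (nat_lit 3729) (.e (nat_lit 1234) (nat_lit 91) (.e (nat_lit 90170) (nat_lit 13) (.e (nat_lit 172106) (nat_lit 10) (.e (nat_lit 434231) (nat_lit 23) (.e (nat_lit 532529) (nat_lit 9) (.e (nat_lit 336261) (nat_lit 15) (.e (nat_lit 3588) (nat_lit 224) (.e (nat_lit 753693) (nat_lit 13) .nil)))))))) (.g (nat_lit 4) .nil .nil))) 
(.lf (nat_lit 40564) (.g (nat_lit 4366) (.e (nat_lit 1234) (nat_lit 91) (.e (nat_lit 90170) (nat_lit 13) (.e (nat_lit 172106) (nat_lit 10) (.e (nat_lit 434231) (nat_lit 23) (.e (nat_lit 532535) (nat_lit 9) (.e (nat_lit 335905) (nat_lit 0) (.e (nat_lit 1934) (nat_lit 132) (.e (nat_lit 622603) (nat_lit 5) .nil)))))))) (.g (nat_lit 5) .nil .nil))))) (.nd (nat_lit 4) (.nd (nat_lit 5) 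
(.lf (nat_lit 40524) (.g (nat_lit 3291) (.e (nat_lit 1234) (nat_lit 91) (.e (nat_lit 90170) (nat_lit 13) (.e (nat_lit 172106) (nat_lit 10) (.e (nat_lit 434231) (nat_lit 23) (.e (nat_lit 532529) (nat_lit 9) (.e (nat_lit 336257) (nat_lit 15) (.e (nat_lit 7936) (nat_lit 224) (.e (nat_lit 753696) (nat_lit 13) .nil)))))))) (.g (nat_lit 4) .nil .nil))) 
(.lf (nat_lit 40556) (.g (nat_lit 5384) (.e (nat_lit 1234) (nat_lit 91) (.e (nat_lit 90170) (nat_lit 13) (.e (nat_lit 172106) (nat_lit 10) (.e (nat_lit 434231) (nat_lit 23) (.e (nat_lit 532535) (nat_lit 9) (.e (nat_lit 335903) (nat_lit 0) (.e (nat_lit 7936) (nat_lit 132) (.e (nat_lit 622598) (nat_lit 5) .nil)))))))) (.g (nat_lit 5) .nil .nil)))) (.nd (nat_lit 5) 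
(.lf (nat_lit 40540) (.g (nat_lit 3461) (.e (nat_lit 1234) (nat_lit 91) (.e (nat_lit 90170) (nat_lit 13) (.e (nat_lit 172106) (nat_lit 10) (.e (nat_lit 434231) (nat_lit 23) (.e (nat_lit 532535) (nat_lit 9) (.e (nat_lit 335886) (nat_lit 0) (.e (nat_lit 1942) (nat_lit 132) (.e (nat_lit 622598) (nat_lit 5) .nil)))))))) (.g (nat_lit 4) .nil .nil))) 
(.lf (nat_lit 40572) (.g (nat_lit 5276) (.e (nat_lit 1234) (nat_lit 91) (.e (nat_lit 90170) (nat_lit 13) (.e (nat_lit 172106) (nat_lit 10) (.e (nat_lit 434231) (nat_lit 23) (.e (nat_lit 532535) (nat_lit 9) (.e (nat_lit 335919) (nat_lit 0) (.e (nat_lit 1940) (nat_lit 132) (.e (nat_lit 622604) (nat_lit 5) .nil)))))))) (.g (nat_lit 5) .nil .nil))))))) 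
(.nd (nat_lit 2) (.nd (nat_lit 3) (.nd (nat_lit 4) (.nd (nat_lit 5) 
(.lf (nat_lit 40514) (.g (nat_lit 4019) (.e (nat_lit 1234) (nat_lit 91) (.e (nat_lit 90170) (nat_lit 13) (.e (nat_lit 172106) (nat_lit 10) (.e (nat_lit 434231) (nat_lit 23) (.e (nat_lit 532529) (nat_lit 9) (.e (nat_lit 336257) (nat_lit 15) (.e (nat_lit 3585) (nat_lit 224) (.e (nat_lit 753695) (nat_lit 13) .nil)))))))) (.g (nat_lit 4) .nil .nil))) 
(.lf (nat_lit 40546) (.g (nat_lit 5948) (.e (nat_lit 1234) (nat_lit 91) (.e (nat_lit 90170) (nat_lit 13) (.e (nat_lit 172106) (nat_lit 10) (.e (nat_lit 434231) (nat_lit 23) (.e (nat_lit 532535) (nat_lit 9) (.e (nat_lit 335900) (nat_lit 0) (.e (nat_lit 1936) (nat_lit 132) (.e (nat_lit 622605) (nat_lit 5) .nil)))))))) (.g (nat_lit 5) .nil .nil)))) (.nd (nat_lit 5) 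
(.lf (nat_lit 40530) (.g (nat_lit 3481) (.e (nat_lit 1234) (nat_lit 91) (.e (nat_lit 90170) (nat_lit 13) (.e (nat_lit 172106) (nat_lit 10) (.e (nat_lit 434231) (nat_lit 23) (.e (nat_lit 532529) (nat_lit 9) (.e (nat_lit 336259) (nat_lit 15) (.e (nat_lit 3591) (nat_lit 224) (.e (nat_lit 753696) (nat_lit 13) .nil)))))))) (.g (nat_lit 4) .nil .nil))) 
(.lf (nat_lit 40562) (.g (nat_lit 3948) (.e (nat_lit 1234) (nat_lit 91) (.e (nat_lit 90170) (nat_lit 13) (.e (nat_lit 172106) (nat_lit 10) (.e (nat_lit 434231) (nat_lit 23) (.e (nat_lit 532535) (nat_lit 9) (.e (nat_lit 335905) (nat_lit 0) (.e (nat_lit 973) (nat_lit 81) (.e (nat_lit 4810) (nat_lit 281) (.e (nat_lit 1039) (nat_lit 81) .nil))))))))) (.g (nat_lit 5) .nil .nil))))) 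
(.nd (nat_lit 4) (.nd (nat_lit 5) 
(.lf (nat_lit 40522) (.g (nat_lit 3423) (.e (nat_lit 1234) (nat_lit 91) (.e (nat_lit 90170) (nat_lit 13) (.e (nat_lit 172106) (nat_lit 10) (.e (nat_lit 434231) (nat_lit 23) (.e (nat_lit 532529) (nat_lit 9) (.e (nat_lit 336257) (nat_lit 15) (.e (nat_lit 3592) (nat_lit 224) (.e (nat_lit 753697) (nat_lit 13) .nil)))))))) (.g (nat_lit 4) .nil .nil))) 
(.lf (nat_lit 40554) (.g (nat_lit 5658) (.e (nat_lit 1234) (nat_lit 91) (.e (nat_lit 90170) (nat_lit 13) (.e (nat_lit 172106) (nat_lit 10) (.e (nat_lit 434231) (nat_lit 23) (.e (nat_lit 532535) (nat_lit 9) (.e (nat_lit 335903) (nat_lit 0) (.e (nat_lit 1936) (nat_lit 132) (.e (nat_lit 622605) (nat_lit 5) .nil)))))))) (.g (nat_lit 5) .nil .nil)))) (.nd (nat_lit 5) 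
(.lf (nat_lit 40538) (.g (nat_lit 3326) (.e (nat_lit 1234) (nat_lit 91) (.e (nat_lit 90170) (nat_lit 13) (.e (nat_lit 172106) (nat_lit 10) (.e (nat_lit 434231) (nat_lit 23) (.e (nat_lit 532535) (nat_lit 9) (.e (nat_lit 335886) (nat_lit 0) (.e (nat_lit 1936) (nat_lit 132) (.e (nat_lit 622598) (nat_lit 5) .nil)))))))) (.g (nat_lit 4) .nil .nil))) 
(.lf (nat_lit 40570) (.g (nat_lit 3286) (.e (nat_lit 1234) (nat_lit 91) (.e (nat_lit 90170) (nat_lit 13) (.e (nat_lit 172106) (nat_lit 10) (.e (nat_lit 434231) (nat_lit 23) (.e (nat_lit 532535) (nat_lit 9) (.e (nat_lit 335909) (nat_lit 0) (.e (nat_lit 1937) (nat_lit 132) (.e (nat_lit 622604) (nat_lit 5) .nil)))))))) (.g (nat_lit 4) .nil .nil)))))) 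
(.nd (nat_lit 3) (.nd (nat_lit 4) (.nd (nat_lit 5) 
(.lf (nat_lit 40518) (.g (nat_lit 3568) (.e (nat_lit 1234) (nat_lit 91) (.e (nat_lit 90170) (nat_lit 13) (.e (nat_lit 172106) (nat_lit 10) (.e (nat_lit 434231) (nat_lit 23) (.e (nat_lit 532529) (nat_lit 9) (.e (nat_lit 336257) (nat_lit 15) (.e (nat_lit 3590) (nat_lit 224) (.e (nat_lit 753696) (nat_lit 13) .nil)))))))) (.g (nat_lit 4) .nil .nil))) 
(.lf (nat_lit 40550) (.g (nat_lit 3302) (.e (nat_lit 1234) (nat_lit 91) (.e (nat_lit 90170) (nat_lit 13) (.e (nat_lit 172106) (nat_lit 10) (.e (nat_lit 434231) (nat_lit 23) (.e (nat_lit 532535) (nat_lit 9) (.e (nat_lit 335900) (nat_lit 0) (.e (nat_lit 7936) (nat_lit 132) (.e (nat_lit 622604) (nat_lit 5) .nil)))))))) (.g (nat_lit 4) .nil .nil)))) (.nd (nat_lit 5) 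
(.lf (nat_lit 40534) (.g (nat_lit 4881) (.e (nat_lit 1234) (nat_lit 91) (.e (nat_lit 90170) (nat_lit 13) (.e (nat_lit 172106) (nat_lit 10) (.e (nat_lit 434231) (nat_lit 23) (.e (nat_lit 532529) (nat_lit 9) (.e (nat_lit 336297) (nat_lit 15) (.e (nat_lit 3588) (nat_lit 224) (.e (nat_lit 753696) (nat_lit 13) .nil)))))))) (.g (nat_lit 5) .nil .nil))) 
(.lf (nat_lit 40566) (.g (nat_lit 4077) (.e (nat_lit 1234) (nat_lit 91) (.e (nat_lit 90170) (nat_lit 13) (.e (nat_lit 172106) (nat_lit 10) (.e (nat_lit 434231) (nat_lit 23) (.e (nat_lit 532535) (nat_lit 9) (.e (nat_lit 335905) (nat_lit 0) (.e (nat_lit 1934) (nat_lit 132) (.e (nat_lit 622605) (nat_lit 5) .nil)))))))) (.g (nat_lit 5) .nil .nil))))) (.nd (nat_lit 4) (.nd (nat_lit 5) 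
(.lf (nat_lit 40526) (.g (nat_lit 3596) (.e (nat_lit 1234) (nat_lit 91) (.e (nat_lit 90170) (nat_lit 13) (.e (nat_lit 172106) (nat_lit 10) (.e (nat_lit 434231) (nat_lit 23) (.e (nat_lit 532529) (nat_lit 9) (.e (nat_lit 336258) (nat_lit 15) (.e (nat_lit 3589) (nat_lit 224) (.e (nat_lit 753695) (nat_lit 13) .nil)))))))) (.g (nat_lit 4) .nil .nil))) 
(.lf (nat_lit 40558) (.g (nat_lit 5651) (.e (nat_lit 1234) (nat_lit 91) (.e (nat_lit 90170) (nat_lit 13) (.e (nat_lit 172106) (nat_lit 10) (.e (nat_lit 434231) (nat_lit 23) (.e (nat_lit 532535) (nat_lit 9) (.e (nat_lit 335904) (nat_lit 0) (.e (nat_lit 1936) (nat_lit 132) (.e (nat_lit 622605) (nat_lit 5) .nil)))))))) (.g (nat_lit 5) .nil .nil)))) (.nd (nat_lit 5) 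
(.lf (nat_lit 40542) (.g (nat_lit 3323) (.e (nat_lit 1234) (nat_lit 91) (.e (nat_lit 90170) (nat_lit 13) (.e (nat_lit 172106) (nat_lit 10) (.e (nat_lit 434231) (nat_lit 23) (.e (nat_lit 532535) (nat_lit 9) (.e (nat_lit 335886) (nat_lit 0) (.e (nat_lit 7936) (nat_lit 132) (.e (nat_lit 622598) (nat_lit 5) .nil)))))))) (.g (nat_lit 4) .nil .nil))) 
(.lf (nat_lit 40574) (.g (nat_lit 6149) (.e (nat_lit 1234) (nat_lit 91) (.e (nat_lit 90170) (nat_lit 13) (.e (nat_lit 172106) (nat_lit 10) (.e (nat_lit 434231) (nat_lit 23) (.e (nat_lit 532535) (nat_lit 9) (.e (nat_lit 335920) (nat_lit 0) (.e (nat_lit 1936) (nat_lit 132) (.e (nat_lit 622605) (nat_lit 5) .nil)))))))) (.g (nat_lit 5) .nil .nil)))))))) 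
(.nd (nat_lit 1) (.nd (nat_lit 2) (.nd (nat_lit 3) (.nd (nat_lit 4) (.nd (nat_lit 5) 
(.lf (nat_lit 40513) (.g (nat_lit 3537) (.e (nat_lit 1234) (nat_lit 91) (.e (nat_lit 90170) (nat_lit 13) (.e (nat_lit 172106) (nat_lit 10) (.e (nat_lit 434231) (nat_lit 23) (.e (nat_lit 532529) (nat_lit 9) (.e (nat_lit 336257) (nat_lit 15) (.e (nat_lit 3585) (nat_lit 224) (.e (nat_lit 753693) (nat_lit 13) .nil)))))))) (.g (nat_lit 4) .nil .nil))) 
(.lf (nat_lit 40545) (.g (nat_lit 3671) (.e (nat_lit 1234) (nat_lit 91) (.e (nat_lit 90170) (nat_lit 13) (.e (nat_lit 172106) (nat_lit 10) (.e (nat_lit 434231) (nat_lit 23) (.e (nat_lit 532535) (nat_lit 9) (.e (nat_lit 335900) (nat_lit 0) (.e (nat_lit 1002) (nat_lit 81) (.e (nat_lit 4797) (nat_lit 281) (.e (nat_lit 1039) (nat_lit 81) .nil))))))))) (.g (nat_lit 4) .nil .nil)))) (.nd (nat_lit 5) 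
(.lf (nat_lit 40529) (.g (nat_lit 4596) (.e (nat_lit 1234) (nat_lit 91) (.e (nat_lit 90170) (nat_lit 13) (.e (nat_lit 172106) (nat_lit 10) (.e (nat_lit 434231) (nat_lit 23) (.e (nat_lit 532529) (nat_lit 9) (.e (nat_lit 336259) (nat_lit 15) (.e (nat_lit 3588) (nat_lit 224) (.e (nat_lit 753696) (nat_lit 13) .nil)))))))) (.g (nat_lit 5) .nil .nil))) 
(.lf (nat_lit 40561) (.g (nat_lit 3706) (.e (nat_lit 1234) (nat_lit 91) (.e (nat_lit 90170) (nat_lit 13) (.e (nat_lit 172106) (nat_lit 10) (.e (nat_lit 434231) (nat_lit 23) (.e (nat_lit 532535) (nat_lit 9) (.e (nat_lit 335905) (nat_lit 0) (.e (nat_lit 973) (nat_lit 81) (.e (nat_lit 4805) (nat_lit 281) (.e (nat_lit 1086) (nat_lit 81) .nil))))))))) (.g (nat_lit 4) .nil .nil))))) 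
(.nd (nat_lit 4) (.nd (nat_lit 5) 
(.lf (nat_lit 40521) (.g (nat_lit 3731) (.e (nat_lit 1234) (nat_lit 91) (.e (nat_lit 90170) (nat_lit 13) (.e (nat_lit 172106) (nat_lit 10) (.e (nat_lit 434231) (nat_lit 23) (.e (nat_lit 532529) (nat_lit 9) (.e (nat_lit 336257) (nat_lit 15) (.e (nat_lit 3592) (nat_lit 224) (.e (nat_lit 753695) (nat_lit 13) .nil)))))))) (.g (nat_lit 4) .nil .nil))) 
(.lf (nat_lit 40553) (.g (nat_lit 5342) (.e (nat_lit 1234) (nat_lit 91) (.e (nat_lit 90170) (nat_lit 13) (.e (nat_lit 172106) (nat_lit 10) (.e (nat_lit 434231) (nat_lit 23) (.e (nat_lit 532535) (nat_lit 9) (.e (nat_lit 335902) (nat_lit 0) (.e (nat_lit 1936) (nat_lit 132) (.e (nat_lit 622605) (nat_lit 5) .nil)))))))) (.g (nat_lit 5) .nil .nil)))) (.nd (nat_lit 5) 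
(.lf (nat_lit 40537) (.g (nat_lit 2658) (.e (nat_lit 1234) (nat_lit 91) (.e (nat_lit 90170) (nat_lit 13) (.e (nat_lit 172106) (nat_lit 10) (.e (nat_lit 434231) (nat_lit 23) (.e (nat_lit 532535) (nat_lit 9) .nil))))) .nil)) 
(.lf (nat_lit 40569) (.g (nat_lit 3339) (.e (nat_lit 1234) (nat_lit 91) (.e (nat_lit 90170) (nat_lit 13) (.e (nat_lit 172106) (nat_lit 10) (.e (nat_lit 434231) (nat_lit 23) (.e (nat_lit 532535) (nat_lit 9) (.e (nat_lit 335909) (nat_lit 0) (.e (nat_lit 1936) (nat_lit 132) (.e (nat_lit 622605) (nat_lit 5) .nil)))))))) (.g (nat_lit 4) .nil .nil)))))) 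
(.nd (nat_lit 3) (.nd (nat_lit 4) (.nd (nat_lit 5) 
(.lf (nat_lit 40517) (.g (nat_lit 3955) (.e (nat_lit 1234) (nat_lit 91) (.e (nat_lit 90170) (nat_lit 13) (.e (nat_lit 172106) (nat_lit 10) (.e (nat_lit 434231) (nat_lit 23) (.e (nat_lit 532529) (nat_lit 9) (.e (nat_lit 336257) (nat_lit 15) (.e (nat_lit 3590) (nat_lit 224) (.e (nat_lit 753695) (nat_lit 13) .nil)))))))) (.g (nat_lit 4) .nil .nil))) 
(.lf (nat_lit 40549) (.g (nat_lit 5628) (.e (nat_lit 1234) (nat_lit 91) (.e (nat_lit 90170) (nat_lit 13) (.e (nat_lit 172106) (nat_lit 10) (.e (nat_lit 434231) (nat_lit 23) (.e (nat_lit 532535) (nat_lit 9) (.e (nat_lit 335900) (nat_lit 0) (.e (nat_lit 1942) (nat_lit 132) (.e (nat_lit 622604) (nat_lit 5) .nil)))))))) (.g (nat_lit 5) .nil .nil)))) (.nd (nat_lit 5) 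
(.lf (nat_lit 40533) (.g (nat_lit 5451) (.e (nat_lit 1234) (nat_lit 91) (.e (nat_lit 90170) (nat_lit 13) (.e (nat_lit 172106) (nat_lit 10) (.e (nat_lit 434231) (nat_lit 23) (.e (nat_lit 532529) (nat_lit 9) (.e (nat_lit 336261) (nat_lit 15) (.e (nat_lit 3588) (nat_lit 224) (.e (nat_lit 753696) (nat_lit 13) .nil)))))))) (.g (nat_lit 7) .nil .nil))) 
(.lf (nat_lit 40565) (.g (nat_lit 5028) (.e (nat_lit 1234) (nat_lit 91) (.e (nat_lit 90170) (nat_lit 13) (.e (nat_lit 172106) (nat_lit 10) (.e (nat_lit 434231) (nat_lit 23) (.e (nat_lit 532535) (nat_lit 9) (.e (nat_lit 335905) (nat_lit 0) (.e (nat_lit 1934) (nat_lit 132) (.e (nat_lit 622604) (nat_lit 5) .nil)))))))) (.g (nat_lit 6) .nil .nil))))) (.nd (nat_lit 4) (.nd (nat_lit 5) 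
(.lf (nat_lit 40525) (.g (nat_lit 4956) (.e (nat_lit 1234) (nat_lit 91) (.e (nat_lit 90170) (nat_lit 13) (.e (nat_lit 172106) (nat_lit 10) (.e (nat_lit 434231) (nat_lit 23) (.e (nat_lit 532529) (nat_lit 9) (.e (nat_lit 336258) (nat_lit 15) (.e (nat_lit 3588) (nat_lit 224) (.e (nat_lit 753696) (nat_lit 13) .nil)))))))) (.g (nat_lit 5) .nil .nil))) 
(.lf (nat_lit 40557) (.g (nat_lit 5330) (.e (nat_lit 1234) (nat_lit 91) (.e (nat_lit 90170) (nat_lit 13) (.e (nat_lit 172106) (nat_lit 10) (.e (nat_lit 434231) (nat_lit 23) (.e (nat_lit 532535) (nat_lit 9) (.e (nat_lit 335903) (nat_lit 0) (.e (nat_lit 7936) (nat_lit 132) (.e (nat_lit 622605) (nat_lit 5) .nil)))))))) (.g (nat_lit 5) .nil .nil)))) (.nd (nat_lit 5) 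
(.lf (nat_lit 40541) (.g (nat_lit 3359) (.e (nat_lit 1234) (nat_lit 91) (.e (nat_lit 90170) (nat_lit 13) (.e (nat_lit 172106) (nat_lit 10) (.e (nat_lit 434231) (nat_lit 23) (.e (nat_lit 532535) (nat_lit 9) (.e (nat_lit 335886) (nat_lit 0) (.e (nat_lit 1942) (nat_lit 132) (.e (nat_lit 622604) (nat_lit 5) .nil)))))))) (.g (nat_lit 4) .nil .nil))) 
(.lf (nat_lit 40573) (.g (nat_lit 3710) (.e (nat_lit 1234) (nat_lit 91) (.e (nat_lit 90170) (nat_lit 13) (.e (nat_lit 172106) (nat_lit 10) (.e (nat_lit 434231) (nat_lit 23) (.e (nat_lit 532535) (nat_lit 9) (.e (nat_lit 335920) (nat_lit 0) (.e (nat_lit 992) (nat_lit 81) (.e (nat_lit 4780) (nat_lit 281) (.e (nat_lit 1019) (nat_lit 81) .nil))))))))) (.g (nat_lit 4) .nil .nil))))))) 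
(.nd (nat_lit 2) (.nd (nat_lit 3) (.nd (nat_lit 4) (.nd (nat_lit 5) 
(.lf (nat_lit 40515) (.g (nat_lit 3348) (.e (nat_lit 1234) (nat_lit 91) (.e (nat_lit 90170) (nat_lit 13) (.e (nat_lit 172106) (nat_lit 10) (.e (nat_lit 434231) (nat_lit 23) (.e (nat_lit 532529) (nat_lit 9) (.e (nat_lit 336257) (nat_lit 15) (.e (nat_lit 3585) (nat_lit 224) (.e (nat_lit 753696) (nat_lit 13) .nil)))))))) (.g (nat_lit 4) .nil .nil))) 
(.lf (nat_lit 40547) (.g (nat_lit 5705) (.e (nat_lit 1234) (nat_lit 91) (.e (nat_lit 90170) (nat_lit 13) (.e (nat_lit 172106) (nat_lit 10) (.e (nat_lit 434231) (nat_lit 23) (.e (nat_lit 532535) (nat_lit 9) (.e (nat_lit 335900) (nat_lit 0) (.e (nat_lit 1937) (nat_lit 132) (.e (nat_lit 622604) (nat_lit 5) .nil)))))))) (.g (nat_lit 5) .nil .nil)))) (.nd (nat_lit 5) 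
(.lf (nat_lit 40531) (.g (nat_lit 4901) (.e (nat_lit 1234) (nat_lit 91) (.e (nat_lit 90170) (nat_lit 13) (.e (nat_lit 172106) (nat_lit 10) (.e (nat_lit 434231) (nat_lit 23) (.e (nat_lit 532529) (nat_lit 9) (.e (nat_lit 336260) (nat_lit 15) (.e (nat_lit 3588) (nat_lit 224) (.e (nat_lit 753696) (nat_lit 13) .nil)))))))) (.g (nat_lit 5) .nil .nil))) 
(.lf (nat_lit 40563) (.g (nat_lit 4035) (.e (nat_lit 1234) (nat_lit 91) (.e (nat_lit 90170) (nat_lit 13) (.e (nat_lit 172106) (nat_lit 10) (.e (nat_lit 434231) (nat_lit 23) (.e (nat_lit 532535) (nat_lit 9) (.e (nat_lit 335905) (nat_lit 0) (.e (nat_lit 1934) (nat_lit 132) (.e (nat_lit 622598) (nat_lit 5) .nil)))))))) (.g (nat_lit 5) .nil .nil))))) (.nd (nat_lit 4) (.nd (nat_lit 5) 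
(.lf (nat_lit 40523) (.g (nat_lit 3495) (.e (nat_lit 1234) (nat_lit 91) (.e (nat_lit 90170) (nat_lit 13) (.e (nat_lit 172106) (nat_lit 10) (.e (nat_lit 434231) (nat_lit 23) (.e (nat_lit 532529) (nat_lit 9) (.e (nat_lit 336257) (nat_lit 15) (.e (nat_lit 3595) (nat_lit 224) (.e (nat_lit 753695) (nat_lit 13) .nil)))))))) (.g (nat_lit 4) .nil .nil))) 
(.lf (nat_lit 40555) (.g (nat_lit 5391) (.e (nat_lit 1234) (nat_lit 91) (.e (nat_lit 90170) (nat_lit 13) (.e (nat_lit 172106) (nat_lit 10) (.e (nat_lit 434231) (nat_lit 23) (.e (nat_lit 532535) (nat_lit 9) (.e (nat_lit 335903) (nat_lit 0) (.e (nat_lit 1937) (nat_lit 132) (.e (nat_lit 622604) (nat_lit 5) .nil)))))))) (.g (nat_lit 5) .nil .nil)))) (.nd (nat_lit 5) 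
(.lf (nat_lit 40539) (.g (nat_lit 4243) (.e (nat_lit 1234) (nat_lit 91) (.e (nat_lit 90170) (nat_lit 13) (.e (nat_lit 172106) (nat_lit 10) (.e (nat_lit 434231) (nat_lit 23) (.e (nat_lit 532535) (nat_lit 9) (.e (nat_lit 335886) (nat_lit 0) (.e (nat_lit 1936) (nat_lit 132) (.e (nat_lit 622605) (nat_lit 5) .nil)))))))) (.g (nat_lit 5) .nil .nil))) 
(.lf (nat_lit 40571) (.g (nat_lit 6145) (.e (nat_lit 1234) (nat_lit 91) (.e (nat_lit 90170) (nat_lit 13) (.e (nat_lit 172106) (nat_lit 10) (.e (nat_lit 434231) (nat_lit 23) (.e (nat_lit 532535) (nat_lit 9) (.e (nat_lit 335919) (nat_lit 0) (.e (nat_lit 1936) (nat_lit 132) (.e (nat_lit 622605) (nat_lit 5) .nil)))))))) (.g (nat_lit 5) .nil .nil)))))) 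
(.nd (nat_lit 3) (.nd (nat_lit 4) (.nd (nat_lit 5) 
(.lf (nat_lit 40519) (.g (nat_lit 4331) (.e (nat_lit 1234) (nat_lit 91) (.e (nat_lit 90170) (nat_lit 13) (.e (nat_lit 172106) (nat_lit 10) (.e (nat_lit 434231) (nat_lit 23) (.e (nat_lit 532529) (nat_lit 9) (.e (nat_lit 336257) (nat_lit 15) (.e (nat_lit 3591) (nat_lit 224) (.e (nat_lit 753696) (nat_lit 13) .nil)))))))) (.g (nat_lit 5) .nil .nil))) 
(.lf (nat_lit 40551) (.g (nat_lit 6235) (.e (nat_lit 1234) (nat_lit 91) (.e (nat_lit 90170) (nat_lit 13) (.e (nat_lit 172106) (nat_lit 10) (.e (nat_lit 434231) (nat_lit 23) (.e (nat_lit 532535) (nat_lit 9) (.e (nat_lit 335900) (nat_lit 0) (.e (nat_lit 7936) (nat_lit 132) (.e (nat_lit 622605) (nat_lit 5) .nil)))))))) (.g (nat_lit 6) .nil .nil)))) (.nd (nat_lit 5) 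
(.lf (nat_lit 40535) (.g (nat_lit 3468) (.e (nat_lit 1234) (nat_lit 91) (.e (nat_lit 90170) (nat_lit 13) (.e (nat_lit 172106) (nat_lit 10) (.e (nat_lit 434231) (nat_lit 23) (.e (nat_lit 532529) (nat_lit 9) (.e (nat_lit 336303) (nat_lit 15) (.e (nat_lit 3591) (nat_lit 224) (.e (nat_lit 753696) (nat_lit 13) .nil)))))))) (.g (nat_lit 4) .nil .nil))) 
(.lf (nat_lit 40567) (.g (nat_lit 5348) (.e (nat_lit 1234) (nat_lit 91) (.e (nat_lit 90170) (nat_lit 13) (.e (nat_lit 172106) (nat_lit 10) (.e (nat_lit 434231) (nat_lit 23) (.e (nat_lit 532535) (nat_lit 9) (.e (nat_lit 335905) (nat_lit 0) (.e (nat_lit 7936) (nat_lit 132) (.e (nat_lit 622605) (nat_lit 5) .nil)))))))) (.g (nat_lit 6) .nil .nil))))) (.nd (nat_lit 4) (.nd (nat_lit 5) 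
(.lf (nat_lit 40527) (.g (nat_lit 3918) (.e (nat_lit 1234) (nat_lit 91) (.e (nat_lit 90170) (nat_lit 13) (.e (nat_lit 172106) (nat_lit 10) (.e (nat_lit 434231) (nat_lit 23) (.e (nat_lit 532529) (nat_lit 9) (.e (nat_lit 336258) (nat_lit 15) (.e (nat_lit 3590) (nat_lit 224) (.e (nat_lit 753695) (nat_lit 13) .nil)))))))) (.g (nat_lit 4) .nil .nil))) 
(.lf (nat_lit 40559) (.g (nat_lit 5433) (.e (nat_lit 1234) (nat_lit 91) (.e (nat_lit 90170) (nat_lit 13) (.e (nat_lit 172106) (nat_lit 10) (.e (nat_lit 434231) (nat_lit 23) (.e (nat_lit 532535) (nat_lit 9) (.e (nat_lit 335904) (nat_lit 0) (.e (nat_lit 1937) (nat_lit 132) (.e (nat_lit 622604) (nat_lit 5) .nil)))))))) (.g (nat_lit 5) .nil .nil)))) (.nd (nat_lit 5) 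
(.lf (nat_lit 40543) (.g (nat_lit 3303) (.e (nat_lit 1234) (nat_lit 91) (.e (nat_lit 90170) (nat_lit 13) (.e (nat_lit 172106) (nat_lit 10) (.e (nat_lit 434231) (nat_lit 23) (.e (nat_lit 532535) (nat_lit 9) (.e (nat_lit 335886) (nat_lit 0) (.e (nat_lit 7936) (nat_lit 132) (.e (nat_lit 622605) (nat_lit 5) .nil)))))))) (.g (nat_lit 4) .nil .nil))) 
(.lf (nat_lit 40575) (.g (nat_lit 5370) (.e (nat_lit 1234) (nat_lit 91) (.e (nat_lit 90170) (nat_lit 13) (.e (nat_lit 172106) (nat_lit 10) (.e (nat_lit 434231) (nat_lit 23) (.e (nat_lit 532535) (nat_lit 9) (.e (nat_lit 335920) (nat_lit 0) (.e (nat_lit 1940) (nat_lit 132) (.e (nat_lit 622603) (nat_lit 5) .nil)))))))) (.g (nat_lit 5) .nil .nil)))))))))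

noncomputable def tv563 : DT := (.nd (nat_lit 0) (.nd (nat_lit 1) (.nd (nat_lit 2) (.nd (nat_lit 3) (.nd (nat_lit 4) (.nd (nat_lit 5) 
(.lf (nat_lit 40576) (.g (nat_lit 5434) (.e (nat_lit 1234) (nat_lit 91) (.e (nat_lit 90170) (nat_lit 13) (.e (nat_lit 172106) (nat_lit 10) (.e (nat_lit 434231) (nat_lit 23) (.e (nat_lit 532535) (nat_lit 9) (.e (nat_lit 335920) (nat_lit 0) (.e (nat_lit 1940) (nat_lit 132) (.e (nat_lit 622604) (nat_lit 5) .nil)))))))) (.g (nat_lit 5) .nil .nil))) 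
(.lf (nat_lit 40608) (.g (nat_lit 3309) (.e (nat_lit 1234) (nat_lit 91) (.e (nat_lit 90170) (nat_lit 13) (.e (nat_lit 172106) (nat_lit 10) (.e (nat_lit 434231) (nat_lit 23) (.e (nat_lit 532535) (nat_lit 9) (.e (nat_lit 335929) (nat_lit 0) (.e (nat_lit 7936) (nat_lit 132) (.e (nat_lit 622598) (nat_lit 5) .nil)))))))) (.g (nat_lit 4) .nil .nil)))) (.nd (nat_lit 5) 
(.lf (nat_lit 40592) (.g (nat_lit 4469) (.e (nat_lit 1234) (nat_lit 91) (.e (nat_lit 90170) (nat_lit 13) (.e (nat_lit 172106) (nat_lit 10) (.e (nat_lit 434231) (nat_lit 23) (.e (nat_lit 532535) (nat_lit 9) (.e (nat_lit 335925) (nat_lit 0) (.e (nat_lit 991) (nat_lit 81) (.e (nat_lit 4798) (nat_lit 281) (.e (nat_lit 1039) (nat_lit 81) .nil))))))))) (.g (nat_lit 5) .nil .nil))) 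
(.lf (nat_lit 40624) (.g (nat_lit 3579) (.e (nat_lit 1234) (nat_lit 91) (.e (nat_lit 90170) (nat_lit 13) (.e (nat_lit 172106) (nat_lit 10) (.e (nat_lit 434231) (nat_lit 23) (.e (nat_lit 532535) (nat_lit 9) (.e (nat_lit 335992) (nat_lit 1) (.e (nat_lit 57780) (nat_lit 239) (.e (nat_lit 1041) (nat_lit 81) .nil)))))))) (.g (nat_lit 4) .nil .nil))))) (.nd (nat_lit 4) (.nd (nat_lit 5) 
(.lf (nat_lit 40584) (.g (nat_lit 3629) (.e (nat_lit 1234) (nat_lit 91) (.e (nat_lit 90170) (nat_lit 13) (.e (nat_lit 172106) (nat_lit 10) (.e (nat_lit 434231) (nat_lit 23) (.e (nat_lit 532535) (nat_lit 9) (.e (nat_lit 335922) (nat_lit 0) (.e (nat_lit 992) (nat_lit 81) (.e (nat_lit 4780) (nat_lit 281) (.e (nat_lit 1019) (nat_lit 81) .nil))))))))) (.g (nat_lit 4) .nil .nil))) 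
(.lf (nat_lit 40616) (.g (nat_lit 5541) (.e (nat_lit 1234) (nat_lit 91) (.e (nat_lit 90170) (nat_lit 13) (.e (nat_lit 172106) (nat_lit 10) (.e (nat_lit 434231) (nat_lit 23) (.e (nat_lit 532535) (nat_lit 9) (.e (nat_lit 335937) (nat_lit 0) (.e (nat_lit 1936) (nat_lit 132) (.e (nat_lit 622598) (nat_lit 5) .nil)))))))) (.g (nat_lit 5) .nil .nil)))) (.nd (nat_lit 5) 
(.lf (nat_lit 40600) (.g (nat_lit 3293) (.e (nat_lit 1234) (nat_lit 91) (.e (nat_lit 90170) (nat_lit 13) (.e (nat_lit 172106) (nat_lit 10) (.e (nat_lit 434231) (nat_lit 23) (.e (nat_lit 532535) (nat_lit 9) (.e (nat_lit 335925) (nat_lit 0) (.e (nat_lit 1939) (nat_lit 132) (.e (nat_lit 622604) (nat_lit 5) .nil)))))))) (.g (nat_lit 4) .nil .nil))) 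
(.lf (nat_lit 40632) (.g (nat_lit 3972) (.e (nat_lit 1234) (nat_lit 91) (.e (nat_lit 90170) (nat_lit 13) (.e (nat_lit 172106) (nat_lit 10) (.e (nat_lit 434231) (nat_lit 23) (.e (nat_lit 532544) (nat_lit 10) (.e (nat_lit 344091) (nat_lit 18) (.e (nat_lit 4780) (nat_lit 281) (.e (nat_lit 1039) (nat_lit 81) .nil)))))))) (.g (nat_lit 5) .nil .nil)))))) 
(.nd (nat_lit 3) (.nd (nat_lit 4) (.nd (nat_lit 5) 
(.lf (nat_lit 40580) (.g (nat_lit 5854) (.e (nat_lit 1234) (nat_lit 91) (.e (nat_lit 90170) (nat_lit 13) (.e (nat_lit 172106) (nat_lit 10) (.e (nat_lit 434231) (nat_lit 23) (.e (nat_lit 532535) (nat_lit 9) (.e (nat_lit 335921) (nat_lit 0) (.e (nat_lit 1940) (nat_lit 132) (.e (nat_lit 622598) (nat_lit 5) .nil)))))))) (.g (nat_lit 5) .nil .nil))) 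
(.lf (nat_lit 40612) (.g (nat_lit 5908) (.e (nat_lit 1234) (nat_lit 91) (.e (nat_lit 90170) (nat_lit 13) (.e (nat_lit 172106) (nat_lit 10) (.e (nat_lit 434231) (nat_lit 23) (.e (nat_lit 532535) (nat_lit 9) (.e (nat_lit 335930) (nat_lit 0) (.e (nat_lit 1936) (nat_lit 132) (.e (nat_lit 622605) (nat_lit 5) .nil)))))))) (.g (nat_lit 5) .nil .nil)))) (.nd (nat_lit 5) 
(.lf (nat_lit 40596) (.g (nat_lit 4043) (.e (nat_lit 1234) (nat_lit 91) (.e (nat_lit 90170) (nat_lit 13) (.e (nat_lit 172106) (nat_lit 10) (.e (nat_lit 434231) (nat_lit 23) (.e (nat_lit 532535) (nat_lit 9) (.e (nat_lit 335925) (nat_lit 0) (.e (nat_lit 993) (nat_lit 81) (.e (nat_lit 4780) (nat_lit 281) (.e (nat_lit 1041) (nat_lit 81) .nil))))))))) (.g (nat_lit 5) .nil .nil))) 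
(.lf (nat_lit 40628) (.g (nat_lit 3912) (.e (nat_lit 1234) (nat_lit 91) (.e (nat_lit 90170) (nat_lit 13) (.e (nat_lit 172106) (nat_lit 10) (.e (nat_lit 434231) (nat_lit 23) (.e (nat_lit 532543) (nat_lit 10) (.e (nat_lit 344096) (nat_lit 18) (.e (nat_lit 4761) (nat_lit 281) (.e (nat_lit 1085) (nat_lit 81) .nil)))))))) (.g (nat_lit 5) .nil .nil))))) (.nd (nat_lit 4) (.nd (nat_lit 5) 
(.lf (nat_lit 40588) (.g (nat_lit 3532) (.e (nat_lit 1234) (nat_lit 91) (.e (nat_lit 90170) (nat_lit 13) (.e (nat_lit 172106) (nat_lit 10) (.e (nat_lit 434231) (nat_lit 23) (.e (nat_lit 532535) (nat_lit 9) (.e (nat_lit 335924) (nat_lit 0) (.e (nat_lit 1936) (nat_lit 132) (.e (nat_lit 622598) (nat_lit 5) .nil)))))))) (.g (nat_lit 4) .nil .nil))) 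
(.lf (nat_lit 40620) (.g (nat_lit 5298) (.e (nat_lit 1234) (nat_lit 91) (.e (nat_lit 90170) (nat_lit 13) (.e (nat_lit 172106) (nat_lit 10) (.e (nat_lit 434231) (nat_lit 23) (.e (nat_lit 532535) (nat_lit 9) (.e (nat_lit 335937) (nat_lit 0) (.e (nat_lit 1940) (nat_lit 132) (.e (nat_lit 622603) (nat_lit 5) .nil)))))))) (.g (nat_lit 5) .nil .nil)))) (.nd (nat_lit 5) 
(.lf (nat_lit 40604) (.g (nat_lit 3842) (.e (nat_lit 1234) (nat_lit 91) (.e (nat_lit 90170) (nat_lit 13) (.e (nat_lit 172106) (nat_lit 10) (.e (nat_lit 434231) (nat_lit 23) (.e (nat_lit 532535) (nat_lit 9) (.e (nat_lit 335928) (nat_lit 0) (.e (nat_lit 1939) (nat_lit 132) (.e (nat_lit 622598) (nat_lit 5) .nil)))))))) (.g (nat_lit 6) .nil .nil))) 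
(.lf (nat_lit 40636) (.g (nat_lit 3946) (.e (nat_lit 1234) (nat_lit 91) (.e (nat_lit 90170) (nat_lit 13) (.e (nat_lit 172106) (nat_lit 10) (.e (nat_lit 434231) (nat_lit 23) (.e (nat_lit 532544) (nat_lit 10) (.e (nat_lit 344096) (nat_lit 18) (.e (nat_lit 4764) (nat_lit 281) (.e (nat_lit 1082) (nat_lit 81) .nil)))))))) (.g (nat_lit 5) .nil .nil))))))) 
(.nd (nat_lit 2) (.nd (nat_lit 3) (.nd (nat_lit 4) (.nd (nat_lit 5) 
(.lf (nat_lit 40578) (.g (nat_lit 3669) (.e (nat_lit 1234) (nat_lit 91) (.e (nat_lit 90170) (nat_lit 13) (.e (nat_lit 172106) (nat_lit 10) (.e (nat_lit 434231) (nat_lit 23) (.e (nat_lit 532535) (nat_lit 9) (.e (nat_lit 335921) (nat_lit 0) (.e (nat_lit 993) (nat_lit 81) (.e (nat_lit 4780) (nat_lit 281) (.e (nat_lit 1019) (nat_lit 81) .nil))))))))) (.g (nat_lit 4) .nil .nil))) 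
(.lf (nat_lit 40610) (.g (nat_lit 3607) (.e (nat_lit 1234) (nat_lit 91) (.e (nat_lit 90170) (nat_lit 13) (.e (nat_lit 172106) (nat_lit 10) (.e (nat_lit 434231) (nat_lit 23) (.e (nat_lit 532535) (nat_lit 9) (.e (nat_lit 335930) (nat_lit 0) (.e (nat_lit 1015) (nat_lit 81) (.e (nat_lit 4780) (nat_lit 281) (.e (nat_lit 1039) (nat_lit 81) .nil))))))))) (.g (nat_lit 4) .nil .nil)))) (.nd (nat_lit 5) 
(.lf (nat_lit 40594) (.g (nat_lit 4230) (.e (nat_lit 1234) (nat_lit 91) (.e (nat_lit 90170) (nat_lit 13) (.e (nat_lit 172106) (nat_lit 10) (.e (nat_lit 434231) (nat_lit 23) (.e (nat_lit 532535) (nat_lit 9) (.e (nat_lit 335925) (nat_lit 0) (.e (nat_lit 993) (nat_lit 81) (.e (nat_lit 4780) (nat_lit 281) (.e (nat_lit 1019) (nat_lit 81) .nil))))))))) (.g (nat_lit 5) .nil .nil))) 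
(.lf (nat_lit 40626) (.g (nat_lit 5292) (.e (nat_lit 1234) (nat_lit 91) (.e (nat_lit 90170) (nat_lit 13) (.e (nat_lit 172106) (nat_lit 10) (.e (nat_lit 434231) (nat_lit 23) (.e (nat_lit 532535) (nat_lit 9) (.e (nat_lit 336295) (nat_lit 15) (.e (nat_lit 7936) (nat_lit 224) (.e (nat_lit 753696) (nat_lit 13) .nil)))))))) (.g (nat_lit 6) .nil .nil))))) (.nd (nat_lit 4) (.nd (nat_lit 5) 
(.lf (nat_lit 40586) (.g (nat_lit 5430) (.e (nat_lit 1234) (nat_lit 91) (.e (nat_lit 90170) (nat_lit 13) (.e (nat_lit 172106) (nat_lit 10) (.e (nat_lit 434231) (nat_lit 23) (.e (nat_lit 532535) (nat_lit 9) (.e (nat_lit 335922) (nat_lit 0) (.e (nat_lit 1940) (nat_lit 132) (.e (nat_lit 622603) (nat_lit 5) .nil)))))))) (.g (nat_lit 5) .nil .nil))) 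
(.lf (nat_lit 40618) (.g (nat_lit 5265) (.e (nat_lit 1234) (nat_lit 91) (.e (nat_lit 90170) (nat_lit 13) (.e (nat_lit 172106) (nat_lit 10) (.e (nat_lit 434231) (nat_lit 23) (.e (nat_lit 532535) (nat_lit 9) (.e (nat_lit 335937) (nat_lit 0) (.e (nat_lit 1939) (nat_lit 132) (.e (nat_lit 622603) (nat_lit 5) .nil)))))))) (.g (nat_lit 5) .nil .nil)))) (.nd (nat_lit 5) 
(.lf (nat_lit 40602) (.g (nat_lit 3749) (.e (nat_lit 1234) (nat_lit 91) (.e (nat_lit 90170) (nat_lit 13) (.e (nat_lit 172106) (nat_lit 10) (.e (nat_lit 434231) (nat_lit 23) (.e (nat_lit 532535) (nat_lit 9) (.e (nat_lit 335925) (nat_lit 0) (.e (nat_lit 1941) (nat_lit 132) (.e (nat_lit 622605) (nat_lit 5) .nil)))))))) (.g (nat_lit 5) .nil .nil))) 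
(.lf (nat_lit 40634) (.g (nat_lit 3940) (.e (nat_lit 1234) (nat_lit 91) (.e (nat_lit 90170) (nat_lit 13) (.e (nat_lit 172106) (nat_lit 10) (.e (nat_lit 434231) (nat_lit 23) (.e (nat_lit 532544) (nat_lit 10) (.e (nat_lit 344096) (nat_lit 18) (.e (nat_lit 4761) (nat_lit 281) (.e (nat_lit 1087) (nat_lit 81) .nil)))))))) (.g (nat_lit 5) .nil .nil)))))) 
(.nd (nat_lit 3) (.nd (nat_lit 4) (.nd (nat_lit 5) 
(.lf (nat_lit 40582) (.g (nat_lit 6116) (.e (nat_lit 1234) (nat_lit 91) (.e (nat_lit 90170) (nat_lit 13) (.e (nat_lit 172106) (nat_lit 10) (.e (nat_lit 434231) (nat_lit 23) (.e (nat_lit 532535) (nat_lit 9) (.e (nat_lit 335921) (nat_lit 0) (.e (nat_lit 1940) (nat_lit 132) (.e (nat_lit 622604) (nat_lit 5) .nil)))))))) (.g (nat_lit 5) .nil .nil))) 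
(.lf (nat_lit 40614) (.g (nat_lit 3291) (.e (nat_lit 1234) (nat_lit 91) (.e (nat_lit 90170) (nat_lit 13) (.e (nat_lit 172106) (nat_lit 10) (.e (nat_lit 434231) (nat_lit 23) (.e (nat_lit 532535) (nat_lit 9) (.e (nat_lit 335930) (nat_lit 0) (.e (nat_lit 7936) (nat_lit 132) (.e (nat_lit 622605) (nat_lit 5) .nil)))))))) (.g (nat_lit 4) .nil .nil)))) (.nd (nat_lit 5) 
(.lf (nat_lit 40598) (.g (nat_lit 3973) (.e (nat_lit 1234) (nat_lit 91) (.e (nat_lit 90170) (nat_lit 13) (.e (nat_lit 172106) (nat_lit 10) (.e (nat_lit 434231) (nat_lit 23) (.e (nat_lit 532535) (nat_lit 9) (.e (nat_lit 335925) (nat_lit 0) (.e (nat_lit 1936) (nat_lit 132) (.e (nat_lit 622604) (nat_lit 5) .nil)))))))) (.g (nat_lit 5) .nil .nil))) 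
(.lf (nat_lit 40630) (.g (nat_lit 4045) (.e (nat_lit 1234) (nat_lit 91) (.e (nat_lit 90170) (nat_lit 13) (.e (nat_lit 172106) (nat_lit 10) (.e (nat_lit 434231) (nat_lit 23) (.e (nat_lit 532544) (nat_lit 10) (.e (nat_lit 344088) (nat_lit 18) (.e (nat_lit 4798) (nat_lit 281) (.e (nat_lit 1039) (nat_lit 81) .nil)))))))) (.g (nat_lit 5) .nil .nil))))) (.nd (nat_lit 4) (.nd (nat_lit 5) 
(.lf (nat_lit 40590) (.g (nat_lit 3418) (.e (nat_lit 1234) (nat_lit 91) (.e (nat_lit 90170) (nat_lit 13) (.e (nat_lit 172106) (nat_lit 10) (.e (nat_lit 434231) (nat_lit 23) (.e (nat_lit 532535) (nat_lit 9) (.e (nat_lit 335924) (nat_lit 0) (.e (nat_lit 1940) (nat_lit 132) (.e (nat_lit 622598) (nat_lit 5) .nil)))))))) (.g (nat_lit 4) .nil .nil))) 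
(.lf (nat_lit 40622) (.g (nat_lit 3580) (.e (nat_lit 1234) (nat_lit 91) (.e (nat_lit 90170) (nat_lit 13) (.e (nat_lit 172106) (nat_lit 10) (.e (nat_lit 434231) (nat_lit 23) (.e (nat_lit 532535) (nat_lit 9) (.e (nat_lit 335985) (nat_lit 1) (.e (nat_lit 57779) (nat_lit 239) (.e (nat_lit 1041) (nat_lit 81) .nil)))))))) (.g (nat_lit 4) .nil .nil)))) (.nd (nat_lit 5) 
(.lf (nat_lit 40606) (.g (nat_lit 3401) (.e (nat_lit 1234) (nat_lit 91) (.e (nat_lit 90170) (nat_lit 13) (.e (nat_lit 172106) (nat_lit 10) (.e (nat_lit 434231) (nat_lit 23) (.e (nat_lit 532535) (nat_lit 9) (.e (nat_lit 335928) (nat_lit 0) (.e (nat_lit 1940) (nat_lit 132) (.e (nat_lit 622604) (nat_lit 5) .nil)))))))) (.g (nat_lit 4) .nil .nil))) 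
(.lf (nat_lit 40638) (.g (nat_lit 4301) (.e (nat_lit 1234) (nat_lit 91) (.e (nat_lit 90170) (nat_lit 13) (.e (nat_lit 172106) (nat_lit 10) (.e (nat_lit 434231) (nat_lit 23) (.e (nat_lit 532544) (nat_lit 10) (.e (nat_lit 344096) (nat_lit 18) (.e (nat_lit 4780) (nat_lit 281) (.e (nat_lit 1019) (nat_lit 81) .nil)))))))) (.g (nat_lit 5) .nil .nil)))))))) 
(.nd (nat_lit 1) (.nd (nat_lit 2) (.nd (nat_lit 3) (.nd (nat_lit 4) (.nd (nat_lit 5) 
(.lf (nat_lit 40577) (.g (nat_lit 5288) (.e (nat_lit 1234) (nat_lit 91) (.e (nat_lit 90170) (nat_lit 13) (.e (nat_lit 172106) (nat_lit 10) (.e (nat_lit 434231) (nat_lit 23) (.e (nat_lit 532535) (nat_lit 9) (.e (nat_lit 335921) (nat_lit 0) (.e (nat_lit 989) (nat_lit 81) (.e (nat_lit 4801) (nat_lit 281) (.e (nat_lit 1039) (nat_lit 81) .nil))))))))) (.g (nat_lit 5) .nil .nil))) 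
(.lf (nat_lit 40609) (.g (nat_lit 3289) (.e (nat_lit 1234) (nat_lit 91) (.e (nat_lit 90170) (nat_lit 13) (.e (nat_lit 172106) (nat_lit 10) (.e (nat_lit 434231) (nat_lit 23) (.e (nat_lit 532535) (nat_lit 9) (.e (nat_lit 335929) (nat_lit 0) (.e (nat_lit 7936) (nat_lit 132) (.e (nat_lit 622605) (nat_lit 5) .nil)))))))) (.g (nat_lit 4) .nil .nil)))) (.nd (nat_lit 5) 
(.lf (nat_lit 40593) (.g (nat_lit 3716) (.e (nat_lit 1234) (nat_lit 91) (.e (nat_lit 90170) (nat_lit 13) (.e (nat_lit 172106) (nat_lit 10) (.e (nat_lit 434231) (nat_lit 23) (.e (nat_lit 532535) (nat_lit 9) (.e (nat_lit 335925) (nat_lit 0) (.e (nat_lit 993) (nat_lit 81) (.e (nat_lit 4761) (nat_lit 281) (.e (nat_lit 1085) (nat_lit 81) .nil))))))))) (.g (nat_lit 4) .nil .nil))) 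
(.lf (nat_lit 40625) (.g (nat_lit 4715) (.e (nat_lit 1234) (nat_lit 91) (.e (nat_lit 90170) (nat_lit 13) (.e (nat_lit 172106) (nat_lit 10) (.e (nat_lit 434231) (nat_lit 23) (.e (nat_lit 532535) (nat_lit 9) (.e (nat_lit 336295) (nat_lit 15) (.e (nat_lit 3588) (nat_lit 224) (.e (nat_lit 753696) (nat_lit 13) .nil)))))))) (.g (nat_lit 6) .nil .nil))))) (.nd (nat_lit 4) (.nd (nat_lit 5) 
(.lf (nat_lit 40585) (.g (nat_lit 5314) (.e (nat_lit 1234) (nat_lit 91) (.e (nat_lit 90170) (nat_lit 13) (.e (nat_lit 172106) (nat_lit 10) (.e (nat_lit 434231) (nat_lit 23) (.e (nat_lit 532535) (nat_lit 9) (.e (nat_lit 335922) (nat_lit 0) (.e (nat_lit 1936) (nat_lit 132) (.e (nat_lit 622598) (nat_lit 5) .nil)))))))) (.g (nat_lit 5) .nil .nil))) 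
(.lf (nat_lit 40617) (.g (nat_lit 5271) (.e (nat_lit 1234) (nat_lit 91) (.e (nat_lit 90170) (nat_lit 13) (.e (nat_lit 172106) (nat_lit 10) (.e (nat_lit 434231) (nat_lit 23) (.e (nat_lit 532535) (nat_lit 9) (.e (nat_lit 335937) (nat_lit 0) (.e (nat_lit 1936) (nat_lit 132) (.e (nat_lit 622604) (nat_lit 5) .nil)))))))) (.g (nat_lit 5) .nil .nil)))) (.nd (nat_lit 5) 
(.lf (nat_lit 40601) (.g (nat_lit 4425) (.e (nat_lit 1234) (nat_lit 91) (.e (nat_lit 90170) (nat_lit 13) (.e (nat_lit 172106) (nat_lit 10) (.e (nat_lit 434231) (nat_lit 23) (.e (nat_lit 532535) (nat_lit 9) (.e (nat_lit 335925) (nat_lit 0) (.e (nat_lit 1940) (nat_lit 132) (.e (nat_lit 622605) (nat_lit 5) .nil)))))))) (.g (nat_lit 5) .nil .nil))) 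
(.lf (nat_lit 40633) (.g (nat_lit 3867) (.e (nat_lit 1234) (nat_lit 91) (.e (nat_lit 90170) (nat_lit 13) (.e (nat_lit 172106) (nat_lit 10) (.e (nat_lit 434231) (nat_lit 23) (.e (nat_lit 532544) (nat_lit 10) (.e (nat_lit 344096) (nat_lit 18) (.e (nat_lit 4761) (nat_lit 281) (.e (nat_lit 1084) (nat_lit 81) .nil)))))))) (.g (nat_lit 5) .nil .nil)))))) 
(.nd (nat_lit 3) (.nd (nat_lit 4) (.nd (nat_lit 5) 
(.lf (nat_lit 40581) (.g (nat_lit 6058) (.e (nat_lit 1234) (nat_lit 91) (.e (nat_lit 90170) (nat_lit 13) (.e (nat_lit 172106) (nat_lit 10) (.e (nat_lit 434231) (nat_lit 23) (.e (nat_lit 532535) (nat_lit 9) (.e (nat_lit 335921) (nat_lit 0) (.e (nat_lit 1940) (nat_lit 132) (.e (nat_lit 622603) (nat_lit 5) .nil)))))))) (.g (nat_lit 5) .nil .nil))) 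
(.lf (nat_lit 40613) (.g (nat_lit 3311) (.e (nat_lit 1234) (nat_lit 91) (.e (nat_lit 90170) (nat_lit 13) (.e (nat_lit 172106) (nat_lit 10) (.e (nat_lit 434231) (nat_lit 23) (.e (nat_lit 532535) (nat_lit 9) (.e (nat_lit 335930) (nat_lit 0) (.e (nat_lit 7936) (nat_lit 132) (.e (nat_lit 622598) (nat_lit 5) .nil)))))))) (.g (nat_lit 4) .nil .nil)))) (.nd (nat_lit 5) 
(.lf (nat_lit 40597) (.g (nat_lit 4240) (.e (nat_lit 1234) (nat_lit 91) (.e (nat_lit 90170) (nat_lit 13) (.e (nat_lit 172106) (nat_lit 10) (.e (nat_lit 434231) (nat_lit 23) (.e (nat_lit 532535) (nat_lit 9) (.e (nat_lit 335925) (nat_lit 0) (.e (nat_lit 1936) (nat_lit 132) (.e (nat_lit 622598) (nat_lit 5) .nil)))))))) (.g (nat_lit 5) .nil .nil))) 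
(.lf (nat_lit 40629) (.g (nat_lit 3982) (.e (nat_lit 1234) (nat_lit 91) (.e (nat_lit 90170) (nat_lit 13) (.e (nat_lit 172106) (nat_lit 10) (.e (nat_lit 434231) (nat_lit 23) (.e (nat_lit 532543) (nat_lit 10) (.e (nat_lit 344096) (nat_lit 18) (.e (nat_lit 4764) (nat_lit 281) (.e (nat_lit 1060) (nat_lit 81) .nil)))))))) (.g (nat_lit 5) .nil .nil))))) (.nd (nat_lit 4) (.nd (nat_lit 5) 
(.lf (nat_lit 40589) (.g (nat_lit 3617) (.e (nat_lit 1234) (nat_lit 91) (.e (nat_lit 90170) (nat_lit 13) (.e (nat_lit 172106) (nat_lit 10) (.e (nat_lit 434231) (nat_lit 23) (.e (nat_lit 532535) (nat_lit 9) (.e (nat_lit 335924) (nat_lit 0) (.e (nat_lit 1939) (nat_lit 132) (.e (nat_lit 622603) (nat_lit 5) .nil)))))))) (.g (nat_lit 4) .nil .nil))) 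
(.lf (nat_lit 40621) (.g (nat_lit 5362) (.e (nat_lit 1234) (nat_lit 91) (.e (nat_lit 90170) (nat_lit 13) (.e (nat_lit 172106) (nat_lit 10) (.e (nat_lit 434231) (nat_lit 23) (.e (nat_lit 532535) (nat_lit 9) (.e (nat_lit 335937) (nat_lit 0) (.e (nat_lit 1940) (nat_lit 132) (.e (nat_lit 622604) (nat_lit 5) .nil)))))))) (.g (nat_lit 5) .nil .nil)))) (.nd (nat_lit 5) 
(.lf (nat_lit 40605) (.g (nat_lit 3862) (.e (nat_lit 1234) (nat_lit 91) (.e (nat_lit 90170) (nat_lit 13) (.e (nat_lit 172106) (nat_lit 10) (.e (nat_lit 434231) (nat_lit 23) (.e (nat_lit 532535) (nat_lit 9) (.e (nat_lit 335928) (nat_lit 0) (.e (nat_lit 1939) (nat_lit 132) (.e (nat_lit 622605) (nat_lit 5) .nil)))))))) (.g (nat_lit 6) .nil .nil))) 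
(.lf (nat_lit 40637) (.g (nat_lit 4828) (.e (nat_lit 1234) (nat_lit 91) (.e (nat_lit 90170) (nat_lit 13) (.e (nat_lit 172106) (nat_lit 10) (.e (nat_lit 434231) (nat_lit 23) (.e (nat_lit 532544) (nat_lit 10) (.e (nat_lit 344096) (nat_lit 18) (.e (nat_lit 4764) (nat_lit 281) (.e (nat_lit 1084) (nat_lit 81) .nil)))))))) (.g (nat_lit 6) .nil .nil))))))) 
(.nd (nat_lit 2) (.nd (nat_lit 3) (.nd (nat_lit 4) (.nd (nat_lit 5) 
(.lf (nat_lit 40579) (.g (nat_lit 5440) (.e (nat_lit 1234) (nat_lit 91) (.e (nat_lit 90170) (nat_lit 13) (.e (nat_lit 172106) (nat_lit 10) (.e (nat_lit 434231) (nat_lit 23) (.e (nat_lit 532535) (nat_lit 9) (.e (nat_lit 335921) (nat_lit 0) (.e (nat_lit 1936) (nat_lit 132) (.e (nat_lit 622598) (nat_lit 5) .nil)))))))) (.g (nat_lit 5) .nil .nil))) 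
(.lf (nat_lit 40611) (.g (nat_lit 3560) (.e (nat_lit 1234) (nat_lit 91) (.e (nat_lit 90170) (nat_lit 13) (.e (nat_lit 172106) (nat_lit 10) (.e (nat_lit 434231) (nat_lit 23) (.e (nat_lit 532535) (nat_lit 9) (.e (nat_lit 335930) (nat_lit 0) (.e (nat_lit 1086) (nat_lit 81) (.e (nat_lit 4803) (nat_lit 281) (.e (nat_lit 1039) (nat_lit 81) .nil))))))))) (.g (nat_lit 4) .nil .nil)))) (.nd (nat_lit 5) 
(.lf (nat_lit 40595) (.g (nat_lit 4371) (.e (nat_lit 1234) (nat_lit 91) (.e (nat_lit 90170) (nat_lit 13) (.e (nat_lit 172106) (nat_lit 10) (.e (nat_lit 434231) (nat_lit 23) (.e (nat_lit 532535) (nat_lit 9) (.e (nat_lit 335925) (nat_lit 0) (.e (nat_lit 993) (nat_lit 81) (.e (nat_lit 4780) (nat_lit 281) (.e (nat_lit 1039) (nat_lit 81) .nil))))))))) (.g (nat_lit 5) .nil .nil))) 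
(.lf (nat_lit 40627) (.g (nat_lit 3751) (.e (nat_lit 1234) (nat_lit 91) (.e (nat_lit 90170) (nat_lit 13) (.e (nat_lit 172106) (nat_lit 10) (.e (nat_lit 434231) (nat_lit 23) (.e (nat_lit 532543) (nat_lit 10) (.e (nat_lit 344090) (nat_lit 18) (.e (nat_lit 4761) (nat_lit 281) (.e (nat_lit 1085) (nat_lit 81) .nil)))))))) (.g (nat_lit 5) .nil .nil))))) (.nd (nat_lit 4) (.nd (nat_lit 5) 
(.lf (nat_lit 40587) (.g (nat_lit 5494) (.e (nat_lit 1234) (nat_lit 91) (.e (nat_lit 90170) (nat_lit 13) (.e (nat_lit 172106) (nat_lit 10) (.e (nat_lit 434231) (nat_lit 23) (.e (nat_lit 532535) (nat_lit 9) (.e (nat_lit 335922) (nat_lit 0) (.e (nat_lit 1940) (nat_lit 132) (.e (nat_lit 622604) (nat_lit 5) .nil)))))))) (.g (nat_lit 5) .nil .nil))) 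
(.lf (nat_lit 40619) (.g (nat_lit 5396) (.e (nat_lit 1234) (nat_lit 91) (.e (nat_lit 90170) (nat_lit 13) (.e (nat_lit 172106) (nat_lit 10) (.e (nat_lit 434231) (nat_lit 23) (.e (nat_lit 532535) (nat_lit 9) (.e (nat_lit 335937) (nat_lit 0) (.e (nat_lit 1939) (nat_lit 132) (.e (nat_lit 622604) (nat_lit 5) .nil)))))))) (.g (nat_lit 5) .nil .nil)))) (.nd (nat_lit 5) 
(.lf (nat_lit 40603) (.g (nat_lit 5947) (.e (nat_lit 1234) (nat_lit 91) (.e (nat_lit 90170) (nat_lit 13) (.e (nat_lit 172106) (nat_lit 10) (.e (nat_lit 434231) (nat_lit 23) (.e (nat_lit 532535) (nat_lit 9) (.e (nat_lit 335927) (nat_lit 0) (.e (nat_lit 1936) (nat_lit 132) (.e (nat_lit 622605) (nat_lit 5) .nil)))))))) (.g (nat_lit 5) .nil .nil))) 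
(.lf (nat_lit 40635) (.g (nat_lit 4670) (.e (nat_lit 1234) (nat_lit 91) (.e (nat_lit 90170) (nat_lit 13) (.e (nat_lit 172106) (nat_lit 10) (.e (nat_lit 434231) (nat_lit 23) (.e (nat_lit 532544) (nat_lit 10) (.e (nat_lit 344096) (nat_lit 18) (.e (nat_lit 4764) (nat_lit 281) (.e (nat_lit 1060) (nat_lit 81) .nil)))))))) (.g (nat_lit 6) .nil .nil)))))) 
(.nd (nat_lit 3) (.nd (nat_lit 4) (.nd (nat_lit 5) 
(.lf (nat_lit 40583) (.g (nat_lit 5298) (.e (nat_lit 1234) (nat_lit 91) (.e (nat_lit 90170) (nat_lit 13) (.e (nat_lit 172106) (nat_lit 10) (.e (nat_lit 434231) (nat_lit 23) (.e (nat_lit 532535) (nat_lit 9) (.e (nat_lit 335921) (nat_lit 0) (.e (nat_lit 1940) (nat_lit 132) (.e (nat_lit 622605) (nat_lit 5) .nil)))))))) (.g (nat_lit 5) .nil .nil))) 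
(.lf (nat_lit 40615) (.g (nat_lit 3644) (.e (nat_lit 1234) (nat_lit 91) (.e (nat_lit 90170) (nat_lit 13) (.e (nat_lit 172106) (nat_lit 10) (.e (nat_lit 434231) (nat_lit 23) (.e (nat_lit 532535) (nat_lit 9) (.e (nat_lit 335937) (nat_lit 0) (.e (nat_lit 992) (nat_lit 81) (.e (nat_lit 4780) (nat_lit 281) (.e (nat_lit 1039) (nat_lit 81) .nil))))))))) (.g (nat_lit 4) .nil .nil)))) (.nd (nat_lit 5) 
(.lf (nat_lit 40599) (.g (nat_lit 5112) (.e (nat_lit 1234) (nat_lit 91) (.e (nat_lit 90170) (nat_lit 13) (.e (nat_lit 172106) (nat_lit 10) (.e (nat_lit 434231) (nat_lit 23) (.e (nat_lit 532535) (nat_lit 9) (.e (nat_lit 335925) (nat_lit 0) (.e (nat_lit 1936) (nat_lit 132) (.e (nat_lit 622605) (nat_lit 5) .nil)))))))) (.g (nat_lit 8) .nil .nil))) 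
(.lf (nat_lit 40631) (.g (nat_lit 3831) (.e (nat_lit 1234) (nat_lit 91) (.e (nat_lit 90170) (nat_lit 13) (.e (nat_lit 172106) (nat_lit 10) (.e (nat_lit 434231) (nat_lit 23) (.e (nat_lit 532544) (nat_lit 10) (.e (nat_lit 344091) (nat_lit 18) (.e (nat_lit 4780) (nat_lit 281) (.e (nat_lit 1019) (nat_lit 81) .nil)))))))) (.g (nat_lit 5) .nil .nil))))) (.nd (nat_lit 4) (.nd (nat_lit 5) 
(.lf (nat_lit 40591) (.g (nat_lit 3623) (.e (nat_lit 1234) (nat_lit 91) (.e (nat_lit 90170) (nat_lit 13) (.e (nat_lit 172106) (nat_lit 10) (.e (nat_lit 434231) (nat_lit 23) (.e (nat_lit 532535) (nat_lit 9) (.e (nat_lit 335924) (nat_lit 0) (.e (nat_lit 1940) (nat_lit 132) (.e (nat_lit 622603) (nat_lit 5) .nil)))))))) (.g (nat_lit 4) .nil .nil))) 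
(.lf (nat_lit 40623) (.g (nat_lit 3605) (.e (nat_lit 1234) (nat_lit 91) (.e (nat_lit 90170) (nat_lit 13) (.e (nat_lit 172106) (nat_lit 10) (.e (nat_lit 434231) (nat_lit 23) (.e (nat_lit 532535) (nat_lit 9) (.e (nat_lit 335992) (nat_lit 1) (.e (nat_lit 57779) (nat_lit 239) (.e (nat_lit 1019) (nat_lit 81) .nil)))))))) (.g (nat_lit 4) .nil .nil)))) (.nd (nat_lit 5) 
(.lf (nat_lit 40607) (.g (nat_lit 6015) (.e (nat_lit 1234) (nat_lit 91) (.e (nat_lit 90170) (nat_lit 13) (.e (nat_lit 172106) (nat_lit 10) (.e (nat_lit 434231) (nat_lit 23) (.e (nat_lit 532535) (nat_lit 9) (.e (nat_lit 335929) (nat_lit 0) (.e (nat_lit 1936) (nat_lit 132) (.e (nat_lit 622605) (nat_lit 5) .nil)))))))) (.g (nat_lit 5) .nil .nil))) 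
(.lf (nat_lit 40639) (.g (nat_lit 4442) (.e (nat_lit 1234) (nat_lit 91) (.e (nat_lit 90170) (nat_lit 13) (.e (nat_lit 172106) (nat_lit 10) (.e (nat_lit 434231) (nat_lit 23) (.e (nat_lit 532544) (nat_lit 10) (.e (nat_lit 344096) (nat_lit 18) (.e (nat_lit 4780) (nat_lit 281) (.e (nat_lit 1039) (nat_lit 81) .nil)))))))) (.g (nat_lit 5) .nil .nil)))))))))

noncomputable def tv564 : DT := (.nd (nat_lit 0) (.nd (nat_lit 1) (.nd (nat_lit 2) (.nd (nat_lit 3) (.nd (nat_lit 4) (.nd (nat_lit 5) 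
(.lf (nat_lit 40640) (.g (nat_lit 4114) (.e (nat_lit 1234) (nat_lit 91) (.e (nat_lit 90170) (nat_lit 13) (.e (nat_lit 172106) (nat_lit 10) (.e (nat_lit 434231) (nat_lit 23) (.e (nat_lit 532544) (nat_lit 10) (.e (nat_lit 344096) (nat_lit 18) (.e (nat_lit 4780) (nat_lit 281) (.e (nat_lit 1041) (nat_lit 81) .nil)))))))) (.g (nat_lit 5) .nil .nil))) 
(.lf (nat_lit 40672) (.g (nat_lit 4226) (.e (nat_lit 1234) (nat_lit 91) (.e (nat_lit 90170) (nat_lit 13) (.e (nat_lit 172106) (nat_lit 10) (.e (nat_lit 434231) (nat_lit 23) (.e (nat_lit 532569) (nat_lit 16) (.e (nat_lit 401414) (nat_lit 0) (.e (nat_lit 7554) (nat_lit 402) .nil))))))) (.g (nat_lit 4) .nil .nil)))) (.nd (nat_lit 5) 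
(.lf (nat_lit 40656) (.g (nat_lit 3734) (.e (nat_lit 1234) (nat_lit 91) (.e (nat_lit 90170) (nat_lit 13) (.e (nat_lit 172106) (nat_lit 10) (.e (nat_lit 434231) (nat_lit 23) (.e (nat_lit 532554) (nat_lit 13) (.e (nat_lit 368662) (nat_lit 18) (.e (nat_lit 4831) (nat_lit 281) (.e (nat_lit 1019) (nat_lit 81) .nil)))))))) (.g (nat_lit 4) .nil .nil))) 
(.lf (nat_lit 40688) (.g (nat_lit 3463) (.e (nat_lit 1234) (nat_lit 91) (.e (nat_lit 90170) (nat_lit 13) (.e (nat_lit 172106) (nat_lit 10) (.e (nat_lit 434238) (nat_lit 25) (.e (nat_lit 548913) (nat_lit 18) (.e (nat_lit 172041) (nat_lit 0) (.e (nat_lit 7540) (nat_lit 402) .nil))))))) (.g (nat_lit 4) .nil .nil))))) (.nd (nat_lit 4) (.nd (nat_lit 5) 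
(.lf (nat_lit 40648) (.g (nat_lit 4134) (.e (nat_lit 1234) (nat_lit 91) (.e (nat_lit 90170) (nat_lit 13) (.e (nat_lit 172106) (nat_lit 10) (.e (nat_lit 434231) (nat_lit 23) (.e (nat_lit 532553) (nat_lit 13) (.e (nat_lit 368662) (nat_lit 18) (.e (nat_lit 4776) (nat_lit 281) (.e (nat_lit 1019) (nat_lit 81) .nil)))))))) (.g (nat_lit 4) .nil .nil))) 
(.lf (nat_lit 40680) (.g (nat_lit 2883) (.e (nat_lit 1234) (nat_lit 91) (.e (nat_lit 90170) (nat_lit 13) (.e (nat_lit 172106) (nat_lit 10) (.e (nat_lit 434238) (nat_lit 25) (.e (nat_lit 548913) (nat_lit 18) .nil))))) .nil))) (.nd (nat_lit 5) 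
(.lf (nat_lit 40664) (.g (nat_lit 4782) (.e (nat_lit 1234) (nat_lit 91) (.e (nat_lit 90170) (nat_lit 13) (.e (nat_lit 172106) (nat_lit 10) (.e (nat_lit 434231) (nat_lit 23) (.e (nat_lit 532563) (nat_lit 15) (.e (nat_lit 385087) (nat_lit 46) (.e (nat_lit 753695) (nat_lit 13) .nil))))))) (.g (nat_lit 5) .nil .nil))) 
(.lf (nat_lit 40696) (.g (nat_lit 3556) (.e (nat_lit 1234) (nat_lit 91) (.e (nat_lit 90170) (nat_lit 13) (.e (nat_lit 172106) (nat_lit 10) (.e (nat_lit 434244) (nat_lit 28) (.e (nat_lit 573471) (nat_lit 11) (.e (nat_lit 16392) (nat_lit 0) (.e (nat_lit 7559) (nat_lit 402) .nil))))))) (.g (nat_lit 5) .nil .nil)))))) (.nd (nat_lit 3) (.nd (nat_lit 4) (.nd (nat_lit 5) 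
(.lf (nat_lit 40644) (.g (nat_lit 4263) (.e (nat_lit 1234) (nat_lit 91) (.e (nat_lit 90170) (nat_lit 13) (.e (nat_lit 172106) (nat_lit 10) (.e (nat_lit 434231) (nat_lit 23) (.e (nat_lit 532544) (nat_lit 10) (.e (nat_lit 344151) (nat_lit 34) (.e (nat_lit 622603) (nat_lit 5) .nil))))))) (.g (nat_lit 5) .nil .nil))) 
(.lf (nat_lit 40676) (.g (nat_lit 2560) (.e (nat_lit 1234) (nat_lit 91) (.e (nat_lit 90170) (nat_lit 13) (.e (nat_lit 172106) (nat_lit 10) (.e (nat_lit 434237) (nat_lit 25) .nil)))) .nil))) (.nd (nat_lit 5) 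
(.lf (nat_lit 40660) (.g (nat_lit 3748) (.e (nat_lit 1234) (nat_lit 91) (.e (nat_lit 90170) (nat_lit 13) (.e (nat_lit 172106) (nat_lit 10) (.e (nat_lit 434231) (nat_lit 23) (.e (nat_lit 532554) (nat_lit 13) (.e (nat_lit 368689) (nat_lit 34) (.e (nat_lit 622603) (nat_lit 5) .nil))))))) (.g (nat_lit 4) .nil .nil))) 
(.lf (nat_lit 40692) (.g (nat_lit 2292) (.e (nat_lit 1234) (nat_lit 91) (.e (nat_lit 90170) (nat_lit 13) (.e (nat_lit 172106) (nat_lit 10) (.e (nat_lit 434244) (nat_lit 28) (.e (nat_lit 573458) (nat_lit 9) .nil))))) .nil)))) (.nd (nat_lit 4) (.nd (nat_lit 5) 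
(.lf (nat_lit 40652) (.g (nat_lit 3704) (.e (nat_lit 1234) (nat_lit 91) (.e (nat_lit 90170) (nat_lit 13) (.e (nat_lit 172106) (nat_lit 10) (.e (nat_lit 434231) (nat_lit 23) (.e (nat_lit 532554) (nat_lit 13) (.e (nat_lit 368662) (nat_lit 18) (.e (nat_lit 4772) (nat_lit 281) (.e (nat_lit 1041) (nat_lit 81) .nil)))))))) (.g (nat_lit 4) .nil .nil))) 
(.lf (nat_lit 40684) (.g (nat_lit 3773) (.e (nat_lit 1234) (nat_lit 91) (.e (nat_lit 90170) (nat_lit 13) (.e (nat_lit 172106) (nat_lit 10) (.e (nat_lit 434238) (nat_lit 25) (.e (nat_lit 548913) (nat_lit 18) (.e (nat_lit 172036) (nat_lit 0) (.e (nat_lit 7554) (nat_lit 402) .nil))))))) (.g (nat_lit 4) .nil .nil)))) (.nd (nat_lit 5) 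
(.lf (nat_lit 40668) (.g (nat_lit 4122) (.e (nat_lit 1234) (nat_lit 91) (.e (nat_lit 90170) (nat_lit 13) (.e (nat_lit 172106) (nat_lit 10) (.e (nat_lit 434231) (nat_lit 23) (.e (nat_lit 532569) (nat_lit 16) (.e (nat_lit 401408) (nat_lit 0) (.e (nat_lit 7540) (nat_lit 402) .nil))))))) (.g (nat_lit 4) .nil .nil))) 
(.lf (nat_lit 40700) (.g (nat_lit 702) (.e (nat_lit 1234) (nat_lit 91) (.e (nat_lit 90170) (nat_lit 13) (.e (nat_lit 172107) (nat_lit 10) .nil))) .nil)))))) (.nd (nat_lit 2) (.nd (nat_lit 3) (.nd (nat_lit 4) (.nd (nat_lit 5) 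
(.lf (nat_lit 40642) (.g (nat_lit 3286) (.e (nat_lit 1234) (nat_lit 91) (.e (nat_lit 90170) (nat_lit 13) (.e (nat_lit 172106) (nat_lit 10) (.e (nat_lit 434231) (nat_lit 23) (.e (nat_lit 532544) (nat_lit 10) (.e (nat_lit 344150) (nat_lit 34) (.e (nat_lit 622598) (nat_lit 5) .nil))))))) (.g (nat_lit 4) .nil .nil))) 
(.lf (nat_lit 40674) (.g (nat_lit 5266) (.e (nat_lit 1234) (nat_lit 91) (.e (nat_lit 90170) (nat_lit 13) (.e (nat_lit 172106) (nat_lit 10) (.e (nat_lit 434231) (nat_lit 23) (.e (nat_lit 532569) (nat_lit 16) (.e (nat_lit 401416) (nat_lit 0) (.e (nat_lit 7556) (nat_lit 402) .nil))))))) (.g (nat_lit 5) .nil .nil)))) (.nd (nat_lit 5) 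
(.lf (nat_lit 40658) (.g (nat_lit 3629) (.e (nat_lit 1234) (nat_lit 91) (.e (nat_lit 90170) (nat_lit 13) (.e (nat_lit 172106) (nat_lit 10) (.e (nat_lit 434231) (nat_lit 23) (.e (nat_lit 532554) (nat_lit 13) (.e (nat_lit 368662) (nat_lit 18) (.e (nat_lit 4833) (nat_lit 281) (.e (nat_lit 1039) (nat_lit 81) .nil)))))))) (.g (nat_lit 4) .nil .nil))) 
(.lf (nat_lit 40690) (.g (nat_lit 3508) (.e (nat_lit 1234) (nat_lit 91) (.e (nat_lit 90170) (nat_lit 13) (.e (nat_lit 172106) (nat_lit 10) (.e (nat_lit 434238) (nat_lit 25) (.e (nat_lit 548914) (nat_lit 19) (.e (nat_lit 180277) (nat_lit 32) .nil)))))) (.g (nat_lit 5) .nil .nil))))) (.nd (nat_lit 4) (.nd (nat_lit 5) 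
(.lf (nat_lit 40650) (.g (nat_lit 3808) (.e (nat_lit 1234) (nat_lit 91) (.e (nat_lit 90170) (nat_lit 13) (.e (nat_lit 172106) (nat_lit 10) (.e (nat_lit 434231) (nat_lit 23) (.e (nat_lit 532554) (nat_lit 13) (.e (nat_lit 368662) (nat_lit 18) (.e (nat_lit 4772) (nat_lit 281) (.e (nat_lit 1019) (nat_lit 81) .nil)))))))) (.g (nat_lit 4) .nil .nil))) 
(.lf (nat_lit 40682) (.g (nat_lit 3489) (.e (nat_lit 1234) (nat_lit 91) (.e (nat_lit 90170) (nat_lit 13) (.e (nat_lit 172106) (nat_lit 10) (.e (nat_lit 434238) (nat_lit 25) (.e (nat_lit 548913) (nat_lit 18) (.e (nat_lit 172033) (nat_lit 0) (.e (nat_lit 7555) (nat_lit 402) .nil))))))) (.g (nat_lit 4) .nil .nil)))) (.nd (nat_lit 5) 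
(.lf (nat_lit 40666) (.g (nat_lit 4709) (.e (nat_lit 1234) (nat_lit 91) (.e (nat_lit 90170) (nat_lit 13) (.e (nat_lit 172106) (nat_lit 10) (.e (nat_lit 434231) (nat_lit 23) (.e (nat_lit 532563) (nat_lit 15) (.e (nat_lit 392960) (nat_lit 46) (.e (nat_lit 753696) (nat_lit 13) .nil))))))) (.g (nat_lit 5) .nil .nil))) 
(.lf (nat_lit 40698) (.g (nat_lit 3378) (.e (nat_lit 1234) (nat_lit 91) (.e (nat_lit 90170) (nat_lit 13) (.e (nat_lit 172106) (nat_lit 10) (.e (nat_lit 434244) (nat_lit 28) (.e (nat_lit 573471) (nat_lit 11) (.e (nat_lit 16396) (nat_lit 0) (.e (nat_lit 7554) (nat_lit 402) .nil))))))) (.g (nat_lit 5) .nil .nil)))))) (.nd (nat_lit 3) (.nd (nat_lit 4) (.nd (nat_lit 5) 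
(.lf (nat_lit 40646) (.g (nat_lit 3721) (.e (nat_lit 1234) (nat_lit 91) (.e (nat_lit 90170) (nat_lit 13) (.e (nat_lit 172106) (nat_lit 10) (.e (nat_lit 434231) (nat_lit 23) (.e (nat_lit 532553) (nat_lit 13) .nil))))) .nil)) 
(.lf (nat_lit 40678) (.g (nat_lit 3367) (.e (nat_lit 1234) (nat_lit 91) (.e (nat_lit 90170) (nat_lit 13) (.e (nat_lit 172106) (nat_lit 10) (.e (nat_lit 434238) (nat_lit 25) (.e (nat_lit 548898) (nat_lit 14) (.e (nat_lit 2980) (nat_lit 185) (.e (nat_lit 434180) (nat_lit 0) .nil))))))) (.g (nat_lit 4) .nil .nil)))) (.nd (nat_lit 5) 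
(.lf (nat_lit 40662) (.g (nat_lit 4903) (.e (nat_lit 1234) (nat_lit 91) (.e (nat_lit 90170) (nat_lit 13) (.e (nat_lit 172106) (nat_lit 10) (.e (nat_lit 434231) (nat_lit 23) (.e (nat_lit 532554) (nat_lit 13) (.e (nat_lit 368689) (nat_lit 34) (.e (nat_lit 622605) (nat_lit 5) .nil))))))) (.g (nat_lit 0) .nil .nil))) 
(.lf (nat_lit 40694) (.g (nat_lit 3386) (.e (nat_lit 1234) (nat_lit 91) (.e (nat_lit 90170) (nat_lit 13) (.e (nat_lit 172106) (nat_lit 10) (.e (nat_lit 434244) (nat_lit 28) (.e (nat_lit 573471) (nat_lit 11) (.e (nat_lit 16392) (nat_lit 0) (.e (nat_lit 7554) (nat_lit 402) .nil))))))) (.g (nat_lit 5) .nil .nil))))) (.nd (nat_lit 4) (.nd (nat_lit 5) 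
(.lf (nat_lit 40654) (.g (nat_lit 4148) (.e (nat_lit 1234) (nat_lit 91) (.e (nat_lit 90170) (nat_lit 13) (.e (nat_lit 172106) (nat_lit 10) (.e (nat_lit 434231) (nat_lit 23) (.e (nat_lit 532554) (nat_lit 13) (.e (nat_lit 368662) (nat_lit 18) (.e (nat_lit 4776) (nat_lit 281) (.e (nat_lit 1019) (nat_lit 81) .nil)))))))) (.g (nat_lit 4) .nil .nil))) 
(.lf (nat_lit 40686) (.g (nat_lit 3898) (.e (nat_lit 1234) (nat_lit 91) (.e (nat_lit 90170) (nat_lit 13) (.e (nat_lit 172106) (nat_lit 10) (.e (nat_lit 434238) (nat_lit 25) (.e (nat_lit 548913) (nat_lit 18) (.e (nat_lit 172037) (nat_lit 0) (.e (nat_lit 7557) (nat_lit 402) .nil))))))) (.g (nat_lit 4) .nil .nil)))) (.nd (nat_lit 5) 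
(.lf (nat_lit 40670) (.g (nat_lit 4449) (.e (nat_lit 1234) (nat_lit 91) (.e (nat_lit 90170) (nat_lit 13) (.e (nat_lit 172106) (nat_lit 10) (.e (nat_lit 434231) (nat_lit 23) (.e (nat_lit 532569) (nat_lit 16) (.e (nat_lit 401409) (nat_lit 0) (.e (nat_lit 7540) (nat_lit 402) .nil))))))) (.g (nat_lit 4) .nil .nil))) 
(.lf (nat_lit 40702) (.g (nat_lit 1388) (.e (nat_lit 1234) (nat_lit 91) (.e (nat_lit 90170) (nat_lit 13) (.e (nat_lit 172113) (nat_lit 10) (.e (nat_lit 434201) (nat_lit 18) .nil)))) .nil))))))) (.nd (nat_lit 1) (.nd (nat_lit 2) (.nd (nat_lit 3) (.nd (nat_lit 4) (.nd (nat_lit 5) 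
(.lf (nat_lit 40641) (.g (nat_lit 3857) (.e (nat_lit 1234) (nat_lit 91) (.e (nat_lit 90170) (nat_lit 13) (.e (nat_lit 172106) (nat_lit 10) (.e (nat_lit 434231) (nat_lit 23) (.e (nat_lit 532544) (nat_lit 10) (.e (nat_lit 344102) (nat_lit 18) (.e (nat_lit 4803) (nat_lit 281) (.e (nat_lit 1039) (nat_lit 81) .nil)))))))) (.g (nat_lit 5) .nil .nil))) 
(.lf (nat_lit 40673) (.g (nat_lit 5708) (.e (nat_lit 1234) (nat_lit 91) (.e (nat_lit 90170) (nat_lit 13) (.e (nat_lit 172106) (nat_lit 10) (.e (nat_lit 434231) (nat_lit 23) (.e (nat_lit 532569) (nat_lit 16) (.e (nat_lit 401414) (nat_lit 0) (.e (nat_lit 7556) (nat_lit 402) .nil))))))) (.g (nat_lit 6) .nil .nil)))) (.nd (nat_lit 5) 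
(.lf (nat_lit 40657) (.g (nat_lit 3650) (.e (nat_lit 1234) (nat_lit 91) (.e (nat_lit 90170) (nat_lit 13) (.e (nat_lit 172106) (nat_lit 10) (.e (nat_lit 434231) (nat_lit 23) (.e (nat_lit 532554) (nat_lit 13) (.e (nat_lit 368662) (nat_lit 18) (.e (nat_lit 4831) (nat_lit 281) (.e (nat_lit 1041) (nat_lit 81) .nil)))))))) (.g (nat_lit 4) .nil .nil))) 
(.lf (nat_lit 40689) (.g (nat_lit 3566) (.e (nat_lit 1234) (nat_lit 91) (.e (nat_lit 90170) (nat_lit 13) (.e (nat_lit 172106) (nat_lit 10) (.e (nat_lit 434238) (nat_lit 25) (.e (nat_lit 548913) (nat_lit 18) (.e (nat_lit 172042) (nat_lit 0) (.e (nat_lit 7554) (nat_lit 402) .nil))))))) (.g (nat_lit 4) .nil .nil))))) (.nd (nat_lit 4) (.nd (nat_lit 5) 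
(.lf (nat_lit 40649) (.g (nat_lit 4451) (.e (nat_lit 1234) (nat_lit 91) (.e (nat_lit 90170) (nat_lit 13) (.e (nat_lit 172106) (nat_lit 10) (.e (nat_lit 434231) (nat_lit 23) (.e (nat_lit 532553) (nat_lit 13) (.e (nat_lit 368662) (nat_lit 18) (.e (nat_lit 4776) (nat_lit 281) (.e (nat_lit 1039) (nat_lit 81) .nil)))))))) (.g (nat_lit 4) .nil .nil))) 
(.lf (nat_lit 40681) (.g (nat_lit 3755) (.e (nat_lit 1234) (nat_lit 91) (.e (nat_lit 90170) (nat_lit 13) (.e (nat_lit 172106) (nat_lit 10) (.e (nat_lit 434238) (nat_lit 25) (.e (nat_lit 548913) (nat_lit 18) (.e (nat_lit 172033) (nat_lit 0) (.e (nat_lit 7554) (nat_lit 402) .nil))))))) (.g (nat_lit 4) .nil .nil)))) (.nd (nat_lit 5) 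
(.lf (nat_lit 40665) (.g (nat_lit 4252) (.e (nat_lit 1234) (nat_lit 91) (.e (nat_lit 90170) (nat_lit 13) (.e (nat_lit 172106) (nat_lit 10) (.e (nat_lit 434231) (nat_lit 23) (.e (nat_lit 532563) (nat_lit 15) (.e (nat_lit 385087) (nat_lit 46) (.e (nat_lit 753697) (nat_lit 13) .nil))))))) (.g (nat_lit 5) .nil .nil))) 
(.lf (nat_lit 40697) (.g (nat_lit 4045) (.e (nat_lit 1234) (nat_lit 91) (.e (nat_lit 90170) (nat_lit 13) (.e (nat_lit 172106) (nat_lit 10) (.e (nat_lit 434244) (nat_lit 28) (.e (nat_lit 573471) (nat_lit 11) (.e (nat_lit 16392) (nat_lit 0) (.e (nat_lit 7936) (nat_lit 402) .nil))))))) (.g (nat_lit 6) .nil .nil)))))) (.nd (nat_lit 3) (.nd (nat_lit 4) (.nd (nat_lit 5) 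
(.lf (nat_lit 40645) (.g (nat_lit 4207) (.e (nat_lit 1234) (nat_lit 91) (.e (nat_lit 90170) (nat_lit 13) (.e (nat_lit 172106) (nat_lit 10) (.e (nat_lit 434231) (nat_lit 23) (.e (nat_lit 532544) (nat_lit 10) (.e (nat_lit 344152) (nat_lit 34) (.e (nat_lit 622598) (nat_lit 5) .nil))))))) (.g (nat_lit 6) .nil .nil))) 
(.lf (nat_lit 40677) (.g (nat_lit 2297) (.e (nat_lit 1234) (nat_lit 91) (.e (nat_lit 90170) (nat_lit 13) (.e (nat_lit 172106) (nat_lit 10) (.e (nat_lit 434238) (nat_lit 25) .nil)))) .nil))) (.nd (nat_lit 5) 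
(.lf (nat_lit 40661) (.g (nat_lit 4121) (.e (nat_lit 1234) (nat_lit 91) (.e (nat_lit 90170) (nat_lit 13) (.e (nat_lit 172106) (nat_lit 10) (.e (nat_lit 434231) (nat_lit 23) (.e (nat_lit 532554) (nat_lit 13) (.e (nat_lit 368689) (nat_lit 34) (.e (nat_lit 622604) (nat_lit 5) .nil))))))) (.g (nat_lit 5) .nil .nil))) 
(.lf (nat_lit 40693) (.g (nat_lit 2180) (.e (nat_lit 1234) (nat_lit 91) (.e (nat_lit 90170) (nat_lit 13) (.e (nat_lit 172106) (nat_lit 10) (.e (nat_lit 434244) (nat_lit 28) (.e (nat_lit 573471) (nat_lit 11) .nil))))) .nil)))) (.nd (nat_lit 4) (.nd (nat_lit 5) 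
(.lf (nat_lit 40653) (.g (nat_lit 3591) (.e (nat_lit 1234) (nat_lit 91) (.e (nat_lit 90170) (nat_lit 13) (.e (nat_lit 172106) (nat_lit 10) (.e (nat_lit 434231) (nat_lit 23) (.e (nat_lit 532554) (nat_lit 13) (.e (nat_lit 368662) (nat_lit 18) (.e (nat_lit 4776) (nat_lit 281) (.e (nat_lit 1017) (nat_lit 81) .nil)))))))) (.g (nat_lit 4) .nil .nil))) 
(.lf (nat_lit 40685) (.g (nat_lit 3708) (.e (nat_lit 1234) (nat_lit 91) (.e (nat_lit 90170) (nat_lit 13) (.e (nat_lit 172106) (nat_lit 10) (.e (nat_lit 434238) (nat_lit 25) (.e (nat_lit 548913) (nat_lit 18) (.e (nat_lit 172036) (nat_lit 0) (.e (nat_lit 7559) (nat_lit 402) .nil))))))) (.g (nat_lit 4) .nil .nil)))) (.nd (nat_lit 5) 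
(.lf (nat_lit 40669) (.g (nat_lit 5530) (.e (nat_lit 1234) (nat_lit 91) (.e (nat_lit 90170) (nat_lit 13) (.e (nat_lit 172106) (nat_lit 10) (.e (nat_lit 434231) (nat_lit 23) (.e (nat_lit 532569) (nat_lit 16) (.e (nat_lit 401408) (nat_lit 0) (.e (nat_lit 7541) (nat_lit 402) .nil))))))) (.g (nat_lit 5) .nil .nil))) 
(.lf (nat_lit 40701) (.g (nat_lit 1350) (.e (nat_lit 1234) (nat_lit 91) (.e (nat_lit 90170) (nat_lit 13) (.e (nat_lit 172113) (nat_lit 10) (.e (nat_lit 434200) (nat_lit 18) .nil)))) .nil)))))) (.nd (nat_lit 2) (.nd (nat_lit 3) (.nd (nat_lit 4) (.nd (nat_lit 5) 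
(.lf (nat_lit 40643) (.g (nat_lit 3438) (.e (nat_lit 1234) (nat_lit 91) (.e (nat_lit 90170) (nat_lit 13) (.e (nat_lit 172106) (nat_lit 10) (.e (nat_lit 434231) (nat_lit 23) (.e (nat_lit 532544) (nat_lit 10) (.e (nat_lit 344150) (nat_lit 34) (.e (nat_lit 622605) (nat_lit 5) .nil))))))) (.g (nat_lit 5) .nil .nil))) 
(.lf (nat_lit 40675) (.g (nat_lit 4269) (.e (nat_lit 1234) (nat_lit 91) (.e (nat_lit 90170) (nat_lit 13) (.e (nat_lit 172106) (nat_lit 10) (.e (nat_lit 434231) (nat_lit 23) (.e (nat_lit 532569) (nat_lit 16) (.e (nat_lit 401418) (nat_lit 0) (.e (nat_lit 7528) (nat_lit 402) .nil))))))) (.g (nat_lit 4) .nil .nil)))) (.nd (nat_lit 5) 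
(.lf (nat_lit 40659) (.g (nat_lit 4218) (.e (nat_lit 1234) (nat_lit 91) (.e (nat_lit 90170) (nat_lit 13) (.e (nat_lit 172106) (nat_lit 10) (.e (nat_lit 434231) (nat_lit 23) (.e (nat_lit 532554) (nat_lit 13) (.e (nat_lit 368689) (nat_lit 34) (.e (nat_lit 622598) (nat_lit 5) .nil))))))) (.g (nat_lit 5) .nil .nil))) 
(.lf (nat_lit 40691) (.g (nat_lit 1753) (.e (nat_lit 1234) (nat_lit 91) (.e (nat_lit 90170) (nat_lit 13) (.e (nat_lit 172106) (nat_lit 10) (.e (nat_lit 434244) (nat_lit 28) .nil)))) .nil)))) (.nd (nat_lit 4) (.nd (nat_lit 5) 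
(.lf (nat_lit 40651) (.g (nat_lit 3638) (.e (nat_lit 1234) (nat_lit 91) (.e (nat_lit 90170) (nat_lit 13) (.e (nat_lit 172106) (nat_lit 10) (.e (nat_lit 434231) (nat_lit 23) (.e (nat_lit 532554) (nat_lit 13) (.e (nat_lit 368662) (nat_lit 18) (.e (nat_lit 4772) (nat_lit 281) (.e (nat_lit 1039) (nat_lit 81) .nil)))))))) (.g (nat_lit 4) .nil .nil))) 
(.lf (nat_lit 40683) (.g (nat_lit 3667) (.e (nat_lit 1234) (nat_lit 91) (.e (nat_lit 90170) (nat_lit 13) (.e (nat_lit 172106) (nat_lit 10) (.e (nat_lit 434238) (nat_lit 25) (.e (nat_lit 548913) (nat_lit 18) (.e (nat_lit 172033) (nat_lit 0) (.e (nat_lit 7559) (nat_lit 402) .nil))))))) (.g (nat_lit 4) .nil .nil)))) (.nd (nat_lit 5) 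
(.lf (nat_lit 40667) (.g (nat_lit 3393) (.e (nat_lit 1234) (nat_lit 91) (.e (nat_lit 90170) (nat_lit 13) (.e (nat_lit 172106) (nat_lit 10) (.e (nat_lit 434231) (nat_lit 23) (.e (nat_lit 532569) (nat_lit 16) (.e (nat_lit 401408) (nat_lit 0) (.e (nat_lit 7523) (nat_lit 402) .nil))))))) (.g (nat_lit 4) .nil .nil))) 
(.lf (nat_lit 40699) (.g (nat_lit 3417) (.e (nat_lit 1234) (nat_lit 91) (.e (nat_lit 90170) (nat_lit 13) (.e (nat_lit 172106) (nat_lit 10) (.e (nat_lit 434244) (nat_lit 28) (.e (nat_lit 573471) (nat_lit 11) (.e (nat_lit 16396) (nat_lit 0) (.e (nat_lit 7556) (nat_lit 402) .nil))))))) (.g (nat_lit 5) .nil .nil)))))) (.nd (nat_lit 3) (.nd (nat_lit 4) (.nd (nat_lit 5) 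
(.lf (nat_lit 40647) (.g (nat_lit 3794) (.e (nat_lit 1234) (nat_lit 91) (.e (nat_lit 90170) (nat_lit 13) (.e (nat_lit 172106) (nat_lit 10) (.e (nat_lit 434231) (nat_lit 23) (.e (nat_lit 532553) (nat_lit 13) (.e (nat_lit 368662) (nat_lit 18) (.e (nat_lit 4772) (nat_lit 281) (.e (nat_lit 1019) (nat_lit 81) .nil)))))))) (.g (nat_lit 4) .nil .nil))) 
(.lf (nat_lit 40679) (.g (nat_lit 3427) (.e (nat_lit 1234) (nat_lit 91) (.e (nat_lit 90170) (nat_lit 13) (.e (nat_lit 172106) (nat_lit 10) (.e (nat_lit 434238) (nat_lit 25) (.e (nat_lit 548898) (nat_lit 14) (.e (nat_lit 2981) (nat_lit 185) (.e (nat_lit 434180) (nat_lit 0) .nil))))))) (.g (nat_lit 4) .nil .nil)))) (.nd (nat_lit 5) 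
(.lf (nat_lit 40663) (.g (nat_lit 3778) (.e (nat_lit 1234) (nat_lit 91) (.e (nat_lit 90170) (nat_lit 13) (.e (nat_lit 172106) (nat_lit 10) (.e (nat_lit 434231) (nat_lit 23) (.e (nat_lit 532563) (nat_lit 15) (.e (nat_lit 385087) (nat_lit 46) (.e (nat_lit 753693) (nat_lit 13) .nil))))))) (.g (nat_lit 4) .nil .nil))) 
(.lf (nat_lit 40695) (.g (nat_lit 3637) (.e (nat_lit 1234) (nat_lit 91) (.e (nat_lit 90170) (nat_lit 13) (.e (nat_lit 172106) (nat_lit 10) (.e (nat_lit 434244) (nat_lit 28) (.e (nat_lit 573471) (nat_lit 11) (.e (nat_lit 16392) (nat_lit 0) (.e (nat_lit 7555) (nat_lit 402) .nil))))))) (.g (nat_lit 5) .nil .nil))))) (.nd (nat_lit 4) (.nd (nat_lit 5) 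
(.lf (nat_lit 40655) (.g (nat_lit 4465) (.e (nat_lit 1234) (nat_lit 91) (.e (nat_lit 90170) (nat_lit 13) (.e (nat_lit 172106) (nat_lit 10) (.e (nat_lit 434231) (nat_lit 23) (.e (nat_lit 532554) (nat_lit 13) (.e (nat_lit 368662) (nat_lit 18) (.e (nat_lit 4776) (nat_lit 281) (.e (nat_lit 1039) (nat_lit 81) .nil)))))))) (.g (nat_lit 6) .nil .nil))) 
(.lf (nat_lit 40687) (.g (nat_lit 4798) (.e (nat_lit 1234) (nat_lit 91) (.e (nat_lit 90170) (nat_lit 13) (.e (nat_lit 172106) (nat_lit 10) (.e (nat_lit 434238) (nat_lit 25) (.e (nat_lit 548913) (nat_lit 18) (.e (nat_lit 172039) (nat_lit 0) (.e (nat_lit 7554) (nat_lit 402) .nil))))))) (.g (nat_lit 5) .nil .nil)))) (.nd (nat_lit 5) 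
(.lf (nat_lit 40671) (.g (nat_lit 4733) (.e (nat_lit 1234) (nat_lit 91) (.e (nat_lit 90170) (nat_lit 13) (.e (nat_lit 172106) (nat_lit 10) (.e (nat_lit 434231) (nat_lit 23) (.e (nat_lit 532569) (nat_lit 16) (.e (nat_lit 401414) (nat_lit 0) (.e (nat_lit 7518) (nat_lit 402) .nil))))))) (.g (nat_lit 5) .nil .nil))) 
(.lf (nat_lit 40703) (.g (nat_lit 1588) (.e (nat_lit 1234) (nat_lit 91) (.e (nat_lit 90170) (nat_lit 13) (.e (nat_lit 172113) (nat_lit 10) (.e (nat_lit 434201) (nat_lit 18) (.e (nat_lit 3988) (nat_lit 239) .nil))))) .nil))))))))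

noncomputable def tv565 : DT := (.nd (nat_lit 0) (.nd (nat_lit 1) (.nd (nat_lit 2) (.nd (nat_lit 3) (.nd (nat_lit 4) (.nd (nat_lit 5) 
(.lf (nat_lit 40704) (.g (nat_lit 1822) (.e (nat_lit 1234) (nat_lit 91) (.e (nat_lit 90170) (nat_lit 13) (.e (nat_lit 172113) (nat_lit 10) (.e (nat_lit 434203) (nat_lit 18) (.e (nat_lit 3953) (nat_lit 239) .nil))))) .nil)) 
(.lf (nat_lit 40736) (.g (nat_lit 3200) (.e (nat_lit 1234) (nat_lit 91) (.e (nat_lit 90170) (nat_lit 13) (.e (nat_lit 172113) (nat_lit 10) (.e (nat_lit 434208) (nat_lit 18) (.e (nat_lit 6595) (nat_lit 351) (.e (nat_lit 2640) (nat_lit 165) (.e (nat_lit 180265) (nat_lit 21) (.e (nat_lit 663555) (nat_lit 0) .nil)))))))) (.g (nat_lit 6) .nil .nil)))) (.nd (nat_lit 5) 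
(.lf (nat_lit 40720) (.g (nat_lit 2479) (.e (nat_lit 1234) (nat_lit 91) (.e (nat_lit 90170) (nat_lit 13) (.e (nat_lit 172113) (nat_lit 10) (.e (nat_lit 434207) (nat_lit 18) (.e (nat_lit 6595) (nat_lit 351) (.e (nat_lit 2638) (nat_lit 165) (.e (nat_lit 180264) (nat_lit 21) (.e (nat_lit 663556) (nat_lit 0) .nil)))))))) (.g (nat_lit 4) .nil .nil))) 
(.lf (nat_lit 40752) (.g (nat_lit 1574) (.e (nat_lit 1234) (nat_lit 91) (.e (nat_lit 90170) (nat_lit 13) (.e (nat_lit 172113) (nat_lit 10) (.e (nat_lit 434238) (nat_lit 25) (.e (nat_lit 548913) (nat_lit 18) .nil))))) .nil)))) (.nd (nat_lit 4) (.nd (nat_lit 5) 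
(.lf (nat_lit 40712) (.g (nat_lit 2577) (.e (nat_lit 1234) (nat_lit 91) (.e (nat_lit 90170) (nat_lit 13) (.e (nat_lit 172113) (nat_lit 10) (.e (nat_lit 434203) (nat_lit 18) (.e (nat_lit 6595) (nat_lit 351) (.e (nat_lit 2639) (nat_lit 165) (.e (nat_lit 180265) (nat_lit 21) (.e (nat_lit 663555) (nat_lit 0) .nil)))))))) (.g (nat_lit 4) .nil .nil))) 
(.lf (nat_lit 40744) (.g (nat_lit 2986) (.e (nat_lit 1234) (nat_lit 91) (.e (nat_lit 90170) (nat_lit 13) (.e (nat_lit 172113) (nat_lit 10) (.e (nat_lit 434227) (nat_lit 20) (.e (nat_lit 507930) (nat_lit 10) (.e (nat_lit 5760) (nat_lit 315) (.e (nat_lit 164239) (nat_lit 187) .nil))))))) (.g (nat_lit 5) .nil .nil)))) (.nd (nat_lit 5) 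
(.lf (nat_lit 40728) (.g (nat_lit 1751) (.e (nat_lit 1234) (nat_lit 91) (.e (nat_lit 90170) (nat_lit 13) (.e (nat_lit 172113) (nat_lit 10) (.e (nat_lit 434208) (nat_lit 18) (.e (nat_lit 6595) (nat_lit 351) .nil))))) .nil)) 
(.lf (nat_lit 40760) (.g (nat_lit 811) (.e (nat_lit 1234) (nat_lit 91) (.e (nat_lit 90170) (nat_lit 13) (.e (nat_lit 172113) (nat_lit 10) (.e (nat_lit 434242) (nat_lit 28) .nil)))) .nil))))) (.nd (nat_lit 3) (.nd (nat_lit 4) (.nd (nat_lit 5) 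
(.lf (nat_lit 40708) (.g (nat_lit 3321) (.e (nat_lit 1234) (nat_lit 91) (.e (nat_lit 90170) (nat_lit 13) (.e (nat_lit 172113) (nat_lit 10) (.e (nat_lit 434203) (nat_lit 18) (.e (nat_lit 6595) (nat_lit 351) (.e (nat_lit 2638) (nat_lit 165) (.e (nat_lit 180263) (nat_lit 21) (.e (nat_lit 663557) (nat_lit 0) .nil)))))))) (.g (nat_lit 6) .nil .nil))) 
(.lf (nat_lit 40740) (.g (nat_lit 2930) (.e (nat_lit 1234) (nat_lit 91) (.e (nat_lit 90170) (nat_lit 13) (.e (nat_lit 172113) (nat_lit 10) (.e (nat_lit 434227) (nat_lit 20) (.e (nat_lit 507929) (nat_lit 10) (.e (nat_lit 5762) (nat_lit 315) (.e (nat_lit 164238) (nat_lit 187) .nil))))))) (.g (nat_lit 5) .nil .nil)))) (.nd (nat_lit 5) 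
(.lf (nat_lit 40724) (.g (nat_lit 3499) (.e (nat_lit 1234) (nat_lit 91) (.e (nat_lit 90170) (nat_lit 13) (.e (nat_lit 172113) (nat_lit 10) (.e (nat_lit 434207) (nat_lit 18) (.e (nat_lit 6595) (nat_lit 351) (.e (nat_lit 2640) (nat_lit 165) (.e (nat_lit 180264) (nat_lit 21) (.e (nat_lit 663557) (nat_lit 0) .nil)))))))) (.g (nat_lit 8) .nil .nil))) 
(.lf (nat_lit 40756) (.g (nat_lit 2509) (.e (nat_lit 1234) (nat_lit 91) (.e (nat_lit 90170) (nat_lit 13) (.e (nat_lit 172113) (nat_lit 10) (.e (nat_lit 434238) (nat_lit 25) (.e (nat_lit 548913) (nat_lit 18) (.e (nat_lit 172036) (nat_lit 0) (.e (nat_lit 7554) (nat_lit 402) .nil))))))) (.g (nat_lit 4) .nil .nil))))) (.nd (nat_lit 4) (.nd (nat_lit 5) 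
(.lf (nat_lit 40716) (.g (nat_lit 1133) (.e (nat_lit 1234) (nat_lit 91) (.e (nat_lit 90170) (nat_lit 13) (.e (nat_lit 172113) (nat_lit 10) (.e (nat_lit 434207) (nat_lit 18) .nil)))) .nil)) 
(.lf (nat_lit 40748) (.g (nat_lit 2386) (.e (nat_lit 1234) (nat_lit 91) (.e (nat_lit 90170) (nat_lit 13) (.e (nat_lit 172113) (nat_lit 10) (.e (nat_lit 434236) (nat_lit 25) (.e (nat_lit 548914) (nat_lit 19) (.e (nat_lit 180277) (nat_lit 32) .nil)))))) (.g (nat_lit 6) .nil .nil)))) (.nd (nat_lit 5) 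
(.lf (nat_lit 40732) (.g (nat_lit 2319) (.e (nat_lit 1234) (nat_lit 91) (.e (nat_lit 90170) (nat_lit 13) (.e (nat_lit 172113) (nat_lit 10) (.e (nat_lit 434208) (nat_lit 18) (.e (nat_lit 6595) (nat_lit 351) (.e (nat_lit 2639) (nat_lit 165) (.e (nat_lit 180265) (nat_lit 21) (.e (nat_lit 663555) (nat_lit 0) .nil)))))))) (.g (nat_lit 4) .nil .nil))) 
(.lf (nat_lit 40764) (.g (nat_lit 1533) (.e (nat_lit 1234) (nat_lit 91) (.e (nat_lit 90170) (nat_lit 13) (.e (nat_lit 172113) (nat_lit 10) (.e (nat_lit 434245) (nat_lit 28) (.e (nat_lit 573449) (nat_lit 9) .nil))))) .nil)))))) (.nd (nat_lit 2) (.nd (nat_lit 3) (.nd (nat_lit 4) (.nd (nat_lit 5) 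
(.lf (nat_lit 40706) (.g (nat_lit 1772) (.e (nat_lit 1234) (nat_lit 91) (.e (nat_lit 90170) (nat_lit 13) (.e (nat_lit 172113) (nat_lit 10) (.e (nat_lit 434203) (nat_lit 18) (.e (nat_lit 6595) (nat_lit 351) .nil))))) .nil)) 
(.lf (nat_lit 40738) (.g (nat_lit 2233) (.e (nat_lit 1234) (nat_lit 91) (.e (nat_lit 90170) (nat_lit 13) (.e (nat_lit 172113) (nat_lit 10) (.e (nat_lit 434227) (nat_lit 20) (.e (nat_lit 507928) (nat_lit 10) (.e (nat_lit 5763) (nat_lit 315) (.e (nat_lit 164239) (nat_lit 187) .nil))))))) (.g (nat_lit 4) .nil .nil)))) (.nd (nat_lit 5) 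
(.lf (nat_lit 40722) (.g (nat_lit 2512) (.e (nat_lit 1234) (nat_lit 91) (.e (nat_lit 90170) (nat_lit 13) (.e (nat_lit 172113) (nat_lit 10) (.e (nat_lit 434207) (nat_lit 18) (.e (nat_lit 6595) (nat_lit 351) (.e (nat_lit 2639) (nat_lit 165) (.e (nat_lit 180264) (nat_lit 21) (.e (nat_lit 663556) (nat_lit 0) .nil)))))))) (.g (nat_lit 4) .nil .nil))) 
(.lf (nat_lit 40754) (.g (nat_lit 2152) (.e (nat_lit 1234) (nat_lit 91) (.e (nat_lit 90170) (nat_lit 13) (.e (nat_lit 172113) (nat_lit 10) (.e (nat_lit 434238) (nat_lit 25) (.e (nat_lit 548913) (nat_lit 18) (.e (nat_lit 172033) (nat_lit 0) (.e (nat_lit 7555) (nat_lit 402) .nil))))))) (.g (nat_lit 4) .nil .nil))))) (.nd (nat_lit 4) (.nd (nat_lit 5) 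
(.lf (nat_lit 40714) (.g (nat_lit 3354) (.e (nat_lit 1234) (nat_lit 91) (.e (nat_lit 90170) (nat_lit 13) (.e (nat_lit 172113) (nat_lit 10) (.e (nat_lit 434203) (nat_lit 18) (.e (nat_lit 6595) (nat_lit 351) (.e (nat_lit 2640) (nat_lit 165) (.e (nat_lit 180264) (nat_lit 21) (.e (nat_lit 663557) (nat_lit 0) .nil)))))))) (.g (nat_lit 6) .nil .nil))) 
(.lf (nat_lit 40746) (.g (nat_lit 3295) (.e (nat_lit 1234) (nat_lit 91) (.e (nat_lit 90170) (nat_lit 13) (.e (nat_lit 172113) (nat_lit 10) (.e (nat_lit 434227) (nat_lit 20) (.e (nat_lit 507930) (nat_lit 10) (.e (nat_lit 5763) (nat_lit 315) (.e (nat_lit 164239) (nat_lit 187) .nil))))))) (.g (nat_lit 7) .nil .nil)))) (.nd (nat_lit 5) 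
(.lf (nat_lit 40730) (.g (nat_lit 2490) (.e (nat_lit 1234) (nat_lit 91) (.e (nat_lit 90170) (nat_lit 13) (.e (nat_lit 172113) (nat_lit 10) (.e (nat_lit 434208) (nat_lit 18) (.e (nat_lit 6595) (nat_lit 351) (.e (nat_lit 2638) (nat_lit 165) (.e (nat_lit 180264) (nat_lit 21) (.e (nat_lit 663557) (nat_lit 0) .nil)))))))) (.g (nat_lit 4) .nil .nil))) 
(.lf (nat_lit 40762) (.g (nat_lit 4458) (.e (nat_lit 1234) (nat_lit 91) (.e (nat_lit 90170) (nat_lit 13) (.e (nat_lit 172113) (nat_lit 10) (.e (nat_lit 434242) (nat_lit 28) (.e (nat_lit 573474) (nat_lit 12) (.e (nat_lit 57348) (nat_lit 0) (.e (nat_lit 7265) (nat_lit 384) (.e (nat_lit 57347) (nat_lit 0) (.e (nat_lit 6481) (nat_lit 343) .nil))))))))) (.g (nat_lit 6) .nil .nil)))))) 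
(.nd (nat_lit 3) (.nd (nat_lit 4) (.nd (nat_lit 5) 
(.lf (nat_lit 40710) (.g (nat_lit 2304) (.e (nat_lit 1234) (nat_lit 91) (.e (nat_lit 90170) (nat_lit 13) (.e (nat_lit 172113) (nat_lit 10) (.e (nat_lit 434203) (nat_lit 18) (.e (nat_lit 6595) (nat_lit 351) (.e (nat_lit 2638) (nat_lit 165) (.e (nat_lit 180265) (nat_lit 21) (.e (nat_lit 663555) (nat_lit 0) .nil)))))))) (.g (nat_lit 4) .nil .nil))) 
(.lf (nat_lit 40742) (.g (nat_lit 3370) (.e (nat_lit 1234) (nat_lit 91) (.e (nat_lit 90170) (nat_lit 13) (.e (nat_lit 172113) (nat_lit 10) (.e (nat_lit 434227) (nat_lit 20) (.e (nat_lit 507929) (nat_lit 10) (.e (nat_lit 5763) (nat_lit 315) (.e (nat_lit 164239) (nat_lit 187) .nil))))))) (.g (nat_lit 7) .nil .nil)))) (.nd (nat_lit 5) 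
(.lf (nat_lit 40726) (.g (nat_lit 1740) (.e (nat_lit 1234) (nat_lit 91) (.e (nat_lit 90170) (nat_lit 13) (.e (nat_lit 172113) (nat_lit 10) (.e (nat_lit 434208) (nat_lit 18) (.e (nat_lit 3953) (nat_lit 239) .nil))))) .nil)) 
(.lf (nat_lit 40758) (.g (nat_lit 3578) (.e (nat_lit 1234) (nat_lit 91) (.e (nat_lit 90170) (nat_lit 13) (.e (nat_lit 172113) (nat_lit 10) (.e (nat_lit 434238) (nat_lit 25) (.e (nat_lit 548913) (nat_lit 18) (.e (nat_lit 172039) (nat_lit 0) (.e (nat_lit 7554) (nat_lit 402) .nil))))))) (.g (nat_lit 5) .nil .nil))))) (.nd (nat_lit 4) (.nd (nat_lit 5) 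
(.lf (nat_lit 40718) (.g (nat_lit 3990) (.e (nat_lit 1234) (nat_lit 91) (.e (nat_lit 90170) (nat_lit 13) (.e (nat_lit 172113) (nat_lit 10) (.e (nat_lit 434207) (nat_lit 18) (.e (nat_lit 6595) (nat_lit 351) (.e (nat_lit 2638) (nat_lit 165) (.e (nat_lit 180263) (nat_lit 21) (.e (nat_lit 663556) (nat_lit 0) .nil)))))))) (.g (nat_lit 8) .nil .nil))) 
(.lf (nat_lit 40750) (.g (nat_lit 2133) (.e (nat_lit 1234) (nat_lit 91) (.e (nat_lit 90170) (nat_lit 13) (.e (nat_lit 172113) (nat_lit 10) (.e (nat_lit 434238) (nat_lit 25) (.e (nat_lit 548898) (nat_lit 14) (.e (nat_lit 2980) (nat_lit 185) (.e (nat_lit 434180) (nat_lit 0) .nil))))))) (.g (nat_lit 4) .nil .nil)))) (.nd (nat_lit 5) 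
(.lf (nat_lit 40734) (.g (nat_lit 2650) (.e (nat_lit 1234) (nat_lit 91) (.e (nat_lit 90170) (nat_lit 13) (.e (nat_lit 172113) (nat_lit 10) (.e (nat_lit 434208) (nat_lit 18) (.e (nat_lit 6595) (nat_lit 351) (.e (nat_lit 2640) (nat_lit 165) (.e (nat_lit 180264) (nat_lit 21) (.e (nat_lit 663556) (nat_lit 0) .nil)))))))) (.g (nat_lit 4) .nil .nil))) 
(.lf (nat_lit 40766) (.g (nat_lit 1719) (.e (nat_lit 1234) (nat_lit 91) (.e (nat_lit 90170) (nat_lit 13) (.e (nat_lit 172113) (nat_lit 10) (.e (nat_lit 434245) (nat_lit 28) (.e (nat_lit 573458) (nat_lit 9) .nil))))) .nil))))))) (.nd (nat_lit 1) (.nd (nat_lit 2) (.nd (nat_lit 3) (.nd (nat_lit 4) (.nd (nat_lit 5) 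
(.lf (nat_lit 40705) (.g (nat_lit 1827) (.e (nat_lit 1234) (nat_lit 91) (.e (nat_lit 90170) (nat_lit 13) (.e (nat_lit 172113) (nat_lit 10) (.e (nat_lit 434203) (nat_lit 18) (.e (nat_lit 3970) (nat_lit 239) .nil))))) .nil)) 
(.lf (nat_lit 40737) (.g (nat_lit 2410) (.e (nat_lit 1234) (nat_lit 91) (.e (nat_lit 90170) (nat_lit 13) (.e (nat_lit 172113) (nat_lit 10) (.e (nat_lit 434208) (nat_lit 18) (.e (nat_lit 6595) (nat_lit 351) (.e (nat_lit 2640) (nat_lit 165) (.e (nat_lit 180265) (nat_lit 21) (.e (nat_lit 663556) (nat_lit 0) .nil)))))))) (.g (nat_lit 4) .nil .nil)))) (.nd (nat_lit 5) 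
(.lf (nat_lit 40721) (.g (nat_lit 2373) (.e (nat_lit 1234) (nat_lit 91) (.e (nat_lit 90170) (nat_lit 13) (.e (nat_lit 172113) (nat_lit 10) (.e (nat_lit 434207) (nat_lit 18) (.e (nat_lit 6595) (nat_lit 351) (.e (nat_lit 2639) (nat_lit 165) (.e (nat_lit 180263) (nat_lit 21) (.e (nat_lit 663556) (nat_lit 0) .nil)))))))) (.g (nat_lit 4) .nil .nil))) 
(.lf (nat_lit 40753) (.g (nat_lit 2491) (.e (nat_lit 1234) (nat_lit 91) (.e (nat_lit 90170) (nat_lit 13) (.e (nat_lit 172113) (nat_lit 10) (.e (nat_lit 434238) (nat_lit 25) (.e (nat_lit 548913) (nat_lit 18) (.e (nat_lit 172033) (nat_lit 0) (.e (nat_lit 7554) (nat_lit 402) .nil))))))) (.g (nat_lit 4) .nil .nil))))) (.nd (nat_lit 4) (.nd (nat_lit 5) 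
(.lf (nat_lit 40713) (.g (nat_lit 2501) (.e (nat_lit 1234) (nat_lit 91) (.e (nat_lit 90170) (nat_lit 13) (.e (nat_lit 172113) (nat_lit 10) (.e (nat_lit 434203) (nat_lit 18) (.e (nat_lit 6595) (nat_lit 351) (.e (nat_lit 2640) (nat_lit 165) (.e (nat_lit 180264) (nat_lit 21) (.e (nat_lit 663555) (nat_lit 0) .nil)))))))) (.g (nat_lit 4) .nil .nil))) 
(.lf (nat_lit 40745) (.g (nat_lit 2896) (.e (nat_lit 1234) (nat_lit 91) (.e (nat_lit 90170) (nat_lit 13) (.e (nat_lit 172113) (nat_lit 10) (.e (nat_lit 434227) (nat_lit 20) (.e (nat_lit 507930) (nat_lit 10) (.e (nat_lit 5762) (nat_lit 315) (.e (nat_lit 164239) (nat_lit 187) .nil))))))) (.g (nat_lit 5) .nil .nil)))) (.nd (nat_lit 5) 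
(.lf (nat_lit 40729) (.g (nat_lit 3460) (.e (nat_lit 1234) (nat_lit 91) (.e (nat_lit 90170) (nat_lit 13) (.e (nat_lit 172113) (nat_lit 10) (.e (nat_lit 434208) (nat_lit 18) (.e (nat_lit 6595) (nat_lit 351) (.e (nat_lit 2638) (nat_lit 165) (.e (nat_lit 180263) (nat_lit 21) (.e (nat_lit 663556) (nat_lit 0) .nil)))))))) (.g (nat_lit 6) .nil .nil))) 
(.lf (nat_lit 40761) (.g (nat_lit 4531) (.e (nat_lit 1234) (nat_lit 91) (.e (nat_lit 90170) (nat_lit 13) (.e (nat_lit 172113) (nat_lit 10) (.e (nat_lit 434242) (nat_lit 28) (.e (nat_lit 573474) (nat_lit 12) (.e (nat_lit 57347) (nat_lit 0) (.e (nat_lit 7265) (nat_lit 384) (.e (nat_lit 57347) (nat_lit 0) (.e (nat_lit 6481) (nat_lit 343) .nil))))))))) (.g (nat_lit 6) .nil .nil)))))) 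
(.nd (nat_lit 3) (.nd (nat_lit 4) (.nd (nat_lit 5) 
(.lf (nat_lit 40709) (.g (nat_lit 2748) (.e (nat_lit 1234) (nat_lit 91) (.e (nat_lit 90170) (nat_lit 13) (.e (nat_lit 172113) (nat_lit 10) (.e (nat_lit 434203) (nat_lit 18) (.e (nat_lit 6595) (nat_lit 351) (.e (nat_lit 2638) (nat_lit 165) (.e (nat_lit 180264) (nat_lit 21) (.e (nat_lit 663557) (nat_lit 0) .nil)))))))) (.g (nat_lit 4) .nil .nil))) 
(.lf (nat_lit 40741) (.g (nat_lit 2690) (.e (nat_lit 1234) (nat_lit 91) (.e (nat_lit 90170) (nat_lit 13) (.e (nat_lit 172113) (nat_lit 10) (.e (nat_lit 434227) (nat_lit 20) (.e (nat_lit 507929) (nat_lit 10) (.e (nat_lit 5762) (nat_lit 315) (.e (nat_lit 164239) (nat_lit 187) .nil))))))) (.g (nat_lit 5) .nil .nil)))) (.nd (nat_lit 5) 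
(.lf (nat_lit 40725) (.g (nat_lit 1575) (.e (nat_lit 1234) (nat_lit 91) (.e (nat_lit 90170) (nat_lit 13) (.e (nat_lit 172113) (nat_lit 10) (.e (nat_lit 434208) (nat_lit 18) (.e (nat_lit 3919) (nat_lit 239) .nil))))) .nil)) 
(.lf (nat_lit 40757) (.g (nat_lit 2599) (.e (nat_lit 1234) (nat_lit 91) (.e (nat_lit 90170) (nat_lit 13) (.e (nat_lit 172113) (nat_lit 10) (.e (nat_lit 434238) (nat_lit 25) (.e (nat_lit 548913) (nat_lit 18) (.e (nat_lit 172036) (nat_lit 0) (.e (nat_lit 7559) (nat_lit 402) .nil))))))) (.g (nat_lit 4) .nil .nil))))) (.nd (nat_lit 4) (.nd (nat_lit 5) 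
(.lf (nat_lit 40717) (.g (nat_lit 2364) (.e (nat_lit 1234) (nat_lit 91) (.e (nat_lit 90170) (nat_lit 13) (.e (nat_lit 172113) (nat_lit 10) (.e (nat_lit 434207) (nat_lit 18) (.e (nat_lit 6595) (nat_lit 351) (.e (nat_lit 2638) (nat_lit 165) (.e (nat_lit 180263) (nat_lit 21) (.e (nat_lit 663555) (nat_lit 0) .nil)))))))) (.g (nat_lit 4) .nil .nil))) 
(.lf (nat_lit 40749) (.g (nat_lit 1128) (.e (nat_lit 1234) (nat_lit 91) (.e (nat_lit 90170) (nat_lit 13) (.e (nat_lit 172113) (nat_lit 10) (.e (nat_lit 434238) (nat_lit 25) .nil)))) .nil))) (.nd (nat_lit 5) 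
(.lf (nat_lit 40733) (.g (nat_lit 2244) (.e (nat_lit 1234) (nat_lit 91) (.e (nat_lit 90170) (nat_lit 13) (.e (nat_lit 172113) (nat_lit 10) (.e (nat_lit 434208) (nat_lit 18) (.e (nat_lit 6595) (nat_lit 351) (.e (nat_lit 2640) (nat_lit 165) (.e (nat_lit 180264) (nat_lit 21) (.e (nat_lit 663555) (nat_lit 0) .nil)))))))) (.g (nat_lit 4) .nil .nil))) 
(.lf (nat_lit 40765) (.g (nat_lit 1633) (.e (nat_lit 1234) (nat_lit 91) (.e (nat_lit 90170) (nat_lit 13) (.e (nat_lit 172113) (nat_lit 10) (.e (nat_lit 434245) (nat_lit 28) (.e (nat_lit 573450) (nat_lit 9) .nil))))) .nil)))))) (.nd (nat_lit 2) (.nd (nat_lit 3) (.nd (nat_lit 4) (.nd (nat_lit 5) 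
(.lf (nat_lit 40707) (.g (nat_lit 3718) (.e (nat_lit 1234) (nat_lit 91) (.e (nat_lit 90170) (nat_lit 13) (.e (nat_lit 172113) (nat_lit 10) (.e (nat_lit 434203) (nat_lit 18) (.e (nat_lit 6595) (nat_lit 351) (.e (nat_lit 2638) (nat_lit 165) (.e (nat_lit 180263) (nat_lit 21) (.e (nat_lit 663556) (nat_lit 0) .nil)))))))) (.g (nat_lit 6) .nil .nil))) 
(.lf (nat_lit 40739) (.g (nat_lit 2256) (.e (nat_lit 1234) (nat_lit 91) (.e (nat_lit 90170) (nat_lit 13) (.e (nat_lit 172113) (nat_lit 10) (.e (nat_lit 434227) (nat_lit 20) (.e (nat_lit 507929) (nat_lit 10) (.e (nat_lit 5760) (nat_lit 315) (.e (nat_lit 164239) (nat_lit 187) .nil))))))) (.g (nat_lit 4) .nil .nil)))) (.nd (nat_lit 5) 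
(.lf (nat_lit 40723) (.g (nat_lit 3052) (.e (nat_lit 1234) (nat_lit 91) (.e (nat_lit 90170) (nat_lit 13) (.e (nat_lit 172113) (nat_lit 10) (.e (nat_lit 434207) (nat_lit 18) (.e (nat_lit 6595) (nat_lit 351) (.e (nat_lit 2640) (nat_lit 165) (.e (nat_lit 180264) (nat_lit 21) (.e (nat_lit 663556) (nat_lit 0) .nil)))))))) (.g (nat_lit 6) .nil .nil))) 
(.lf (nat_lit 40755) (.g (nat_lit 2558) (.e (nat_lit 1234) (nat_lit 91) (.e (nat_lit 90170) (nat_lit 13) (.e (nat_lit 172113) (nat_lit 10) (.e (nat_lit 434238) (nat_lit 25) (.e (nat_lit 548913) (nat_lit 18) (.e (nat_lit 172033) (nat_lit 0) (.e (nat_lit 7559) (nat_lit 402) .nil))))))) (.g (nat_lit 4) .nil .nil))))) (.nd (nat_lit 4) (.nd (nat_lit 5) 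
(.lf (nat_lit 40715) (.g (nat_lit 2683) (.e (nat_lit 1234) (nat_lit 91) (.e (nat_lit 90170) (nat_lit 13) (.e (nat_lit 172113) (nat_lit 10) (.e (nat_lit 434203) (nat_lit 18) (.e (nat_lit 6595) (nat_lit 351) (.e (nat_lit 2640) (nat_lit 165) (.e (nat_lit 180265) (nat_lit 21) (.e (nat_lit 663556) (nat_lit 0) .nil)))))))) (.g (nat_lit 4) .nil .nil))) 
(.lf (nat_lit 40747) (.g (nat_lit 3687) (.e (nat_lit 1234) (nat_lit 91) (.e (nat_lit 90170) (nat_lit 13) (.e (nat_lit 172113) (nat_lit 10) (.e (nat_lit 434231) (nat_lit 23) (.e (nat_lit 532523) (nat_lit 7) (.e (nat_lit 319504) (nat_lit 10) (.e (nat_lit 5351) (nat_lit 298) .nil))))))) (.g (nat_lit 5) .nil .nil)))) (.nd (nat_lit 5) 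
(.lf (nat_lit 40731) (.g (nat_lit 2489) (.e (nat_lit 1234) (nat_lit 91) (.e (nat_lit 90170) (nat_lit 13) (.e (nat_lit 172113) (nat_lit 10) (.e (nat_lit 434208) (nat_lit 18) (.e (nat_lit 6595) (nat_lit 351) (.e (nat_lit 2639) (nat_lit 165) (.e (nat_lit 180264) (nat_lit 21) (.e (nat_lit 663557) (nat_lit 0) .nil)))))))) (.g (nat_lit 4) .nil .nil))) 
(.lf (nat_lit 40763) (.g (nat_lit 952) (.e (nat_lit 1234) (nat_lit 91) (.e (nat_lit 90170) (nat_lit 13) (.e (nat_lit 172113) (nat_lit 10) (.e (nat_lit 434245) (nat_lit 28) .nil)))) .nil))))) (.nd (nat_lit 3) (.nd (nat_lit 4) (.nd (nat_lit 5) 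
(.lf (nat_lit 40711) (.g (nat_lit 2747) (.e (nat_lit 1234) (nat_lit 91) (.e (nat_lit 90170) (nat_lit 13) (.e (nat_lit 172113) (nat_lit 10) (.e (nat_lit 434203) (nat_lit 18) (.e (nat_lit 6595) (nat_lit 351) (.e (nat_lit 2639) (nat_lit 165) (.e (nat_lit 180264) (nat_lit 21) (.e (nat_lit 663557) (nat_lit 0) .nil)))))))) (.g (nat_lit 4) .nil .nil))) 
(.lf (nat_lit 40743) (.g (nat_lit 2891) (.e (nat_lit 1234) (nat_lit 91) (.e (nat_lit 90170) (nat_lit 13) (.e (nat_lit 172113) (nat_lit 10) (.e (nat_lit 434227) (nat_lit 20) (.e (nat_lit 507930) (nat_lit 10) (.e (nat_lit 5756) (nat_lit 315) (.e (nat_lit 164238) (nat_lit 187) .nil))))))) (.g (nat_lit 5) .nil .nil)))) (.nd (nat_lit 5) 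
(.lf (nat_lit 40727) (.g (nat_lit 1742) (.e (nat_lit 1234) (nat_lit 91) (.e (nat_lit 90170) (nat_lit 13) (.e (nat_lit 172113) (nat_lit 10) (.e (nat_lit 434208) (nat_lit 18) (.e (nat_lit 3955) (nat_lit 239) .nil))))) .nil)) 
(.lf (nat_lit 40759) (.g (nat_lit 2863) (.e (nat_lit 1234) (nat_lit 91) (.e (nat_lit 90170) (nat_lit 13) (.e (nat_lit 172113) (nat_lit 10) (.e (nat_lit 434238) (nat_lit 25) (.e (nat_lit 548914) (nat_lit 19) (.e (nat_lit 180278) (nat_lit 32) .nil)))))) (.g (nat_lit 0) .nil .nil))))) (.nd (nat_lit 4) (.nd (nat_lit 5) 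
(.lf (nat_lit 40719) (.g (nat_lit 3593) (.e (nat_lit 1234) (nat_lit 91) (.e (nat_lit 90170) (nat_lit 13) (.e (nat_lit 172113) (nat_lit 10) (.e (nat_lit 434207) (nat_lit 18) (.e (nat_lit 6595) (nat_lit 351) (.e (nat_lit 2638) (nat_lit 165) (.e (nat_lit 180263) (nat_lit 21) (.e (nat_lit 663557) (nat_lit 0) .nil)))))))) (.g (nat_lit 6) .nil .nil))) 
(.lf (nat_lit 40751) (.g (nat_lit 2186) (.e (nat_lit 1234) (nat_lit 91) (.e (nat_lit 90170) (nat_lit 13) (.e (nat_lit 172113) (nat_lit 10) (.e (nat_lit 434238) (nat_lit 25) (.e (nat_lit 548898) (nat_lit 14) (.e (nat_lit 2981) (nat_lit 185) (.e (nat_lit 434180) (nat_lit 0) .nil))))))) (.g (nat_lit 4) .nil .nil)))) (.nd (nat_lit 5) 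
(.lf (nat_lit 40735) (.g (nat_lit 3097) (.e (nat_lit 1234) (nat_lit 91) (.e (nat_lit 90170) (nat_lit 13) (.e (nat_lit 172113) (nat_lit 10) (.e (nat_lit 434208) (nat_lit 18) (.e (nat_lit 6595) (nat_lit 351) (.e (nat_lit 2640) (nat_lit 165) (.e (nat_lit 180264) (nat_lit 21) (.e (nat_lit 663557) (nat_lit 0) .nil)))))))) (.g (nat_lit 6) .nil .nil))) 
(.lf (nat_lit 40767) (.g (nat_lit 2495) (.e (nat_lit 1234) (nat_lit 91) (.e (nat_lit 90170) (nat_lit 13) (.e (nat_lit 172113) (nat_lit 10) (.e (nat_lit 434245) (nat_lit 28) (.e (nat_lit 573458) (nat_lit 9) (.e (nat_lit 426) (nat_lit 32) (.e (nat_lit 426003) (nat_lit 0) (.e (nat_lit 7541) (nat_lit 402) .nil)))))))) (.g (nat_lit 4) .nil .nil)))))))))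

noncomputable def tv566 : DT := (.nd (nat_lit 0) (.nd (nat_lit 1) (.nd (nat_lit 2) (.nd (nat_lit 3) (.nd (nat_lit 4) (.nd (nat_lit 5) 
(.lf (nat_lit 40768) (.g (nat_lit 2301) (.e (nat_lit 1234) (nat_lit 91) (.e (nat_lit 90170) (nat_lit 13) (.e (nat_lit 172113) (nat_lit 10) (.e (nat_lit 434245) (nat_lit 28) (.e (nat_lit 573458) (nat_lit 9) (.e (nat_lit 7936) (nat_lit 36) (.e (nat_lit 458756) (nat_lit 0) .nil))))))) (.g (nat_lit 4) .nil .nil))) 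
(.lf (nat_lit 40800) (.g (nat_lit 2267) (.e (nat_lit 1234) (nat_lit 91) (.e (nat_lit 90170) (nat_lit 13) (.e (nat_lit 172113) (nat_lit 10) (.e (nat_lit 434245) (nat_lit 28) (.e (nat_lit 573474) (nat_lit 12) (.e (nat_lit 57348) (nat_lit 0) (.e (nat_lit 7261) (nat_lit 384) (.e (nat_lit 57347) (nat_lit 0) (.e (nat_lit 6481) (nat_lit 343) .nil))))))))) (.g (nat_lit 4) .nil .nil)))) (.nd (nat_lit 5) 
(.lf (nat_lit 40784) (.g (nat_lit 2278) (.e (nat_lit 1234) (nat_lit 91) (.e (nat_lit 90170) (nat_lit 13) (.e (nat_lit 172113) (nat_lit 10) (.e (nat_lit 434245) (nat_lit 28) (.e (nat_lit 573471) (nat_lit 11) (.e (nat_lit 16390) (nat_lit 0) (.e (nat_lit 7517) (nat_lit 402) .nil))))))) (.g (nat_lit 4) .nil .nil))) 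
(.lf (nat_lit 40816) (.g (nat_lit 2554) (.e (nat_lit 1234) (nat_lit 91) (.e (nat_lit 90170) (nat_lit 13) (.e (nat_lit 172113) (nat_lit 10) (.e (nat_lit 434248) (nat_lit 28) (.e (nat_lit 573469) (nat_lit 11) (.e (nat_lit 16388) (nat_lit 0) (.e (nat_lit 7545) (nat_lit 402) .nil))))))) (.g (nat_lit 5) .nil .nil))))) (.nd (nat_lit 4) (.nd (nat_lit 5) 
(.lf (nat_lit 40776) (.g (nat_lit 4481) (.e (nat_lit 1234) (nat_lit 91) (.e (nat_lit 90170) (nat_lit 13) (.e (nat_lit 172113) (nat_lit 10) (.e (nat_lit 434245) (nat_lit 28) (.e (nat_lit 573471) (nat_lit 11) (.e (nat_lit 16384) (nat_lit 0) (.e (nat_lit 7541) (nat_lit 402) .nil))))))) (.g (nat_lit 0) .nil .nil))) 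
(.lf (nat_lit 40808) (.g (nat_lit 2943) (.e (nat_lit 1234) (nat_lit 91) (.e (nat_lit 90170) (nat_lit 13) (.e (nat_lit 172113) (nat_lit 10) (.e (nat_lit 434247) (nat_lit 28) (.e (nat_lit 573469) (nat_lit 11) (.e (nat_lit 16388) (nat_lit 0) (.e (nat_lit 7545) (nat_lit 402) .nil))))))) (.g (nat_lit 4) .nil .nil)))) (.nd (nat_lit 5) 
(.lf (nat_lit 40792) (.g (nat_lit 3094) (.e (nat_lit 1234) (nat_lit 91) (.e (nat_lit 90170) (nat_lit 13) (.e (nat_lit 172113) (nat_lit 10) (.e (nat_lit 434245) (nat_lit 28) (.e (nat_lit 573471) (nat_lit 11) (.e (nat_lit 16396) (nat_lit 0) (.e (nat_lit 7518) (nat_lit 402) .nil))))))) (.g (nat_lit 5) .nil .nil))) 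
(.lf (nat_lit 40824) (.g (nat_lit 4344) (.e (nat_lit 1234) (nat_lit 91) (.e (nat_lit 90170) (nat_lit 13) (.e (nat_lit 172113) (nat_lit 10) (.e (nat_lit 434248) (nat_lit 28) (.e (nat_lit 573475) (nat_lit 12) (.e (nat_lit 57351) (nat_lit 0) (.e (nat_lit 7265) (nat_lit 384) (.e (nat_lit 57347) (nat_lit 0) (.e (nat_lit 6481) (nat_lit 343) .nil))))))))) (.g (nat_lit 8) .nil .nil)))))) 
(.nd (nat_lit 3) (.nd (nat_lit 4) (.nd (nat_lit 5) 
(.lf (nat_lit 40772) (.g (nat_lit 2553) (.e (nat_lit 1234) (nat_lit 91) (.e (nat_lit 90170) (nat_lit 13) (.e (nat_lit 172113) (nat_lit 10) (.e (nat_lit 434245) (nat_lit 28) (.e (nat_lit 573470) (nat_lit 11) (.e (nat_lit 16388) (nat_lit 0) (.e (nat_lit 7545) (nat_lit 402) .nil))))))) (.g (nat_lit 4) .nil .nil))) 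
(.lf (nat_lit 40804) (.g (nat_lit 2006) (.e (nat_lit 1234) (nat_lit 91) (.e (nat_lit 90170) (nat_lit 13) (.e (nat_lit 172113) (nat_lit 10) (.e (nat_lit 434247) (nat_lit 28) (.e (nat_lit 573456) (nat_lit 9) .nil))))) .nil))) (.nd (nat_lit 5) 
(.lf (nat_lit 40788) (.g (nat_lit 4134) (.e (nat_lit 1234) (nat_lit 91) (.e (nat_lit 90170) (nat_lit 13) (.e (nat_lit 172113) (nat_lit 10) (.e (nat_lit 434245) (nat_lit 28) (.e (nat_lit 573471) (nat_lit 11) (.e (nat_lit 16392) (nat_lit 0) (.e (nat_lit 7555) (nat_lit 402) .nil))))))) (.g (nat_lit 0) .nil .nil))) 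
(.lf (nat_lit 40820) (.g (nat_lit 3507) (.e (nat_lit 1234) (nat_lit 91) (.e (nat_lit 90170) (nat_lit 13) (.e (nat_lit 172113) (nat_lit 10) (.e (nat_lit 434248) (nat_lit 28) (.e (nat_lit 573473) (nat_lit 12) (.e (nat_lit 57347) (nat_lit 0) (.e (nat_lit 7265) (nat_lit 384) (.e (nat_lit 57347) (nat_lit 0) (.e (nat_lit 6481) (nat_lit 343) .nil))))))))) (.g (nat_lit 5) .nil .nil))))) 
(.nd (nat_lit 4) (.nd (nat_lit 5) 
(.lf (nat_lit 40780) (.g (nat_lit 4330) (.e (nat_lit 1234) (nat_lit 91) (.e (nat_lit 90170) (nat_lit 13) (.e (nat_lit 172113) (nat_lit 10) (.e (nat_lit 434245) (nat_lit 28) (.e (nat_lit 573471) (nat_lit 11) (.e (nat_lit 16385) (nat_lit 0) (.e (nat_lit 7541) (nat_lit 402) .nil))))))) (.g (nat_lit 7) .nil .nil))) 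
(.lf (nat_lit 40812) (.g (nat_lit 1842) (.e (nat_lit 1234) (nat_lit 91) (.e (nat_lit 90170) (nat_lit 13) (.e (nat_lit 172113) (nat_lit 10) (.e (nat_lit 434248) (nat_lit 28) (.e (nat_lit 573450) (nat_lit 9) .nil))))) .nil))) (.nd (nat_lit 5) 
(.lf (nat_lit 40796) (.g (nat_lit 2484) (.e (nat_lit 1234) (nat_lit 91) (.e (nat_lit 90170) (nat_lit 13) (.e (nat_lit 172113) (nat_lit 10) (.e (nat_lit 434245) (nat_lit 28) (.e (nat_lit 573471) (nat_lit 11) (.e (nat_lit 24320) (nat_lit 0) (.e (nat_lit 7541) (nat_lit 402) .nil))))))) (.g (nat_lit 4) .nil .nil))) 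
(.lf (nat_lit 40828) (.g (nat_lit 3252) (.e (nat_lit 1234) (nat_lit 91) (.e (nat_lit 90170) (nat_lit 13) (.e (nat_lit 172118) (nat_lit 12) (.e (nat_lit 475185) (nat_lit 29) (.e (nat_lit 557103) (nat_lit 14) (.e (nat_lit 180277) (nat_lit 32) .nil)))))) (.g (nat_lit 6) .nil .nil))))))) (.nd (nat_lit 2) (.nd (nat_lit 3) (.nd (nat_lit 4) (.nd (nat_lit 5) 
(.lf (nat_lit 40770) (.g (nat_lit 2065) (.e (nat_lit 1234) (nat_lit 91) (.e (nat_lit 90170) (nat_lit 13) (.e (nat_lit 172113) (nat_lit 10) (.e (nat_lit 434245) (nat_lit 28) (.e (nat_lit 573470) (nat_lit 11) (.e (nat_lit 16385) (nat_lit 0) (.e (nat_lit 7540) (nat_lit 402) .nil))))))) (.g (nat_lit 4) .nil .nil))) 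
(.lf (nat_lit 40802) (.g (nat_lit 4219) (.e (nat_lit 1234) (nat_lit 91) (.e (nat_lit 90170) (nat_lit 13) (.e (nat_lit 172113) (nat_lit 10) (.e (nat_lit 434245) (nat_lit 28) (.e (nat_lit 573474) (nat_lit 12) (.e (nat_lit 57351) (nat_lit 0) (.e (nat_lit 7265) (nat_lit 384) (.e (nat_lit 57347) (nat_lit 0) (.e (nat_lit 6481) (nat_lit 343) .nil))))))))) (.g (nat_lit 8) .nil .nil)))) (.nd (nat_lit 5) 
(.lf (nat_lit 40786) (.g (nat_lit 4592) (.e (nat_lit 1234) (nat_lit 91) (.e (nat_lit 90170) (nat_lit 13) (.e (nat_lit 172113) (nat_lit 10) (.e (nat_lit 434245) (nat_lit 28) (.e (nat_lit 573471) (nat_lit 11) (.e (nat_lit 16392) (nat_lit 0) (.e (nat_lit 7537) (nat_lit 402) .nil))))))) (.g (nat_lit 0) .nil .nil))) 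
(.lf (nat_lit 40818) (.g (nat_lit 3813) (.e (nat_lit 1234) (nat_lit 91) (.e (nat_lit 90170) (nat_lit 13) (.e (nat_lit 172113) (nat_lit 10) (.e (nat_lit 434248) (nat_lit 28) (.e (nat_lit 573470) (nat_lit 11) (.e (nat_lit 16385) (nat_lit 0) (.e (nat_lit 7541) (nat_lit 402) .nil))))))) (.g (nat_lit 7) .nil .nil))))) (.nd (nat_lit 4) (.nd (nat_lit 5) 
(.lf (nat_lit 40778) (.g (nat_lit 2295) (.e (nat_lit 1234) (nat_lit 91) (.e (nat_lit 90170) (nat_lit 13) (.e (nat_lit 172113) (nat_lit 10) (.e (nat_lit 434245) (nat_lit 28) (.e (nat_lit 573471) (nat_lit 11) (.e (nat_lit 16385) (nat_lit 0) (.e (nat_lit 7498) (nat_lit 402) .nil))))))) (.g (nat_lit 4) .nil .nil))) 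
(.lf (nat_lit 40810) (.g (nat_lit 3626) (.e (nat_lit 1234) (nat_lit 91) (.e (nat_lit 90170) (nat_lit 13) (.e (nat_lit 172113) (nat_lit 10) (.e (nat_lit 434247) (nat_lit 28) (.e (nat_lit 573478) (nat_lit 12) (.e (nat_lit 57353) (nat_lit 0) (.e (nat_lit 7265) (nat_lit 384) (.e (nat_lit 57347) (nat_lit 0) (.e (nat_lit 6481) (nat_lit 343) .nil))))))))) (.g (nat_lit 7) .nil .nil)))) (.nd (nat_lit 5) 
(.lf (nat_lit 40794) (.g (nat_lit 3283) (.e (nat_lit 1234) (nat_lit 91) (.e (nat_lit 90170) (nat_lit 13) (.e (nat_lit 172113) (nat_lit 10) (.e (nat_lit 434245) (nat_lit 28) (.e (nat_lit 573471) (nat_lit 11) (.e (nat_lit 16397) (nat_lit 0) (.e (nat_lit 7518) (nat_lit 402) .nil))))))) (.g (nat_lit 5) .nil .nil))) 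
(.lf (nat_lit 40826) (.g (nat_lit 3002) (.e (nat_lit 1234) (nat_lit 91) (.e (nat_lit 90170) (nat_lit 13) (.e (nat_lit 172115) (nat_lit 10) (.e (nat_lit 434231) (nat_lit 23) (.e (nat_lit 532481) (nat_lit 0) (.e (nat_lit 6712) (nat_lit 360) (.e (nat_lit 164238) (nat_lit 187) .nil))))))) (.g (nat_lit 4) .nil .nil)))))) (.nd (nat_lit 3) (.nd (nat_lit 4) (.nd (nat_lit 5) 
(.lf (nat_lit 40774) (.g (nat_lit 3146) (.e (nat_lit 1234) (nat_lit 91) (.e (nat_lit 90170) (nat_lit 13) (.e (nat_lit 172113) (nat_lit 10) (.e (nat_lit 434245) (nat_lit 28) (.e (nat_lit 573471) (nat_lit 11) (.e (nat_lit 16384) (nat_lit 0) (.e (nat_lit 7517) (nat_lit 402) .nil))))))) (.g (nat_lit 5) .nil .nil))) 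
(.lf (nat_lit 40806) (.g (nat_lit 1886) (.e (nat_lit 1234) (nat_lit 91) (.e (nat_lit 90170) (nat_lit 13) (.e (nat_lit 172113) (nat_lit 10) (.e (nat_lit 434247) (nat_lit 28) (.e (nat_lit 573457) (nat_lit 9) .nil))))) .nil))) (.nd (nat_lit 5) 
(.lf (nat_lit 40790) (.g (nat_lit 4372) (.e (nat_lit 1234) (nat_lit 91) (.e (nat_lit 90170) (nat_lit 13) (.e (nat_lit 172113) (nat_lit 10) (.e (nat_lit 434245) (nat_lit 28) (.e (nat_lit 573471) (nat_lit 11) (.e (nat_lit 16392) (nat_lit 0) (.e (nat_lit 7936) (nat_lit 402) .nil))))))) (.g (nat_lit 6) .nil .nil))) 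
(.lf (nat_lit 40822) (.g (nat_lit 5026) (.e (nat_lit 1234) (nat_lit 91) (.e (nat_lit 90170) (nat_lit 13) (.e (nat_lit 172113) (nat_lit 10) (.e (nat_lit 434248) (nat_lit 28) (.e (nat_lit 573475) (nat_lit 12) (.e (nat_lit 57347) (nat_lit 0) (.e (nat_lit 7265) (nat_lit 384) (.e (nat_lit 57347) (nat_lit 0) (.e (nat_lit 6481) (nat_lit 343) .nil))))))))) (.g (nat_lit 8) .nil .nil))))) 
(.nd (nat_lit 4) (.nd (nat_lit 5) 
(.lf (nat_lit 40782) (.g (nat_lit 4201) (.e (nat_lit 1234) (nat_lit 91) (.e (nat_lit 90170) (nat_lit 13) (.e (nat_lit 172113) (nat_lit 10) (.e (nat_lit 434245) (nat_lit 28) (.e (nat_lit 573471) (nat_lit 11) (.e (nat_lit 16388) (nat_lit 0) (.e (nat_lit 7545) (nat_lit 402) .nil))))))) (.g (nat_lit 6) .nil .nil))) 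
(.lf (nat_lit 40814) (.g (nat_lit 2986) (.e (nat_lit 1234) (nat_lit 91) (.e (nat_lit 90170) (nat_lit 13) (.e (nat_lit 172113) (nat_lit 10) (.e (nat_lit 434248) (nat_lit 28) (.e (nat_lit 573452) (nat_lit 9) (.e (nat_lit 430) (nat_lit 32) (.e (nat_lit 426009) (nat_lit 0) (.e (nat_lit 7540) (nat_lit 402) .nil)))))))) (.g (nat_lit 4) .nil .nil)))) (.nd (nat_lit 5) 
(.lf (nat_lit 40798) (.g (nat_lit 2505) (.e (nat_lit 1234) (nat_lit 91) (.e (nat_lit 90170) (nat_lit 13) (.e (nat_lit 172113) (nat_lit 10) (.e (nat_lit 434245) (nat_lit 28) (.e (nat_lit 573474) (nat_lit 12) (.e (nat_lit 57347) (nat_lit 0) (.e (nat_lit 7261) (nat_lit 384) (.e (nat_lit 57347) (nat_lit 0) (.e (nat_lit 6481) (nat_lit 343) .nil))))))))) (.g (nat_lit 4) .nil .nil))) 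
(.lf (nat_lit 40830) (.g (nat_lit 3873) (.e (nat_lit 1234) (nat_lit 91) (.e (nat_lit 90170) (nat_lit 13) (.e (nat_lit 172118) (nat_lit 12) (.e (nat_lit 475185) (nat_lit 29) (.e (nat_lit 557104) (nat_lit 14) (.e (nat_lit 180278) (nat_lit 32) .nil)))))) (.g (nat_lit 0) .nil .nil)))))))) (.nd (nat_lit 1) (.nd (nat_lit 2) (.nd (nat_lit 3) (.nd (nat_lit 4) (.nd (nat_lit 5) 
(.lf (nat_lit 40769) (.g (nat_lit 2616) (.e (nat_lit 1234) (nat_lit 91) (.e (nat_lit 90170) (nat_lit 13) (.e (nat_lit 172113) (nat_lit 10) (.e (nat_lit 434245) (nat_lit 28) (.e (nat_lit 573469) (nat_lit 11) (.e (nat_lit 16388) (nat_lit 0) (.e (nat_lit 7545) (nat_lit 402) .nil))))))) (.g (nat_lit 5) .nil .nil))) 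
(.lf (nat_lit 40801) (.g (nat_lit 4620) (.e (nat_lit 1234) (nat_lit 91) (.e (nat_lit 90170) (nat_lit 13) (.e (nat_lit 172113) (nat_lit 10) (.e (nat_lit 434245) (nat_lit 28) (.e (nat_lit 573474) (nat_lit 12) (.e (nat_lit 57348) (nat_lit 0) (.e (nat_lit 7265) (nat_lit 384) (.e (nat_lit 57347) (nat_lit 0) (.e (nat_lit 6481) (nat_lit 343) .nil))))))))) (.g (nat_lit 7) .nil .nil)))) (.nd (nat_lit 5) 
(.lf (nat_lit 40785) (.g (nat_lit 2378) (.e (nat_lit 1234) (nat_lit 91) (.e (nat_lit 90170) (nat_lit 13) (.e (nat_lit 172113) (nat_lit 10) (.e (nat_lit 434245) (nat_lit 28) (.e (nat_lit 573471) (nat_lit 11) (.e (nat_lit 16392) (nat_lit 0) (.e (nat_lit 3321) (nat_lit 204) (.e (nat_lit 589859) (nat_lit 13) .nil)))))))) (.g (nat_lit 4) .nil .nil))) 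
(.lf (nat_lit 40817) (.g (nat_lit 2314) (.e (nat_lit 1234) (nat_lit 91) (.e (nat_lit 90170) (nat_lit 13) (.e (nat_lit 172113) (nat_lit 10) (.e (nat_lit 434248) (nat_lit 28) (.e (nat_lit 573470) (nat_lit 11) (.e (nat_lit 16385) (nat_lit 0) (.e (nat_lit 7540) (nat_lit 402) .nil))))))) (.g (nat_lit 4) .nil .nil))))) (.nd (nat_lit 4) (.nd (nat_lit 5) 
(.lf (nat_lit 40777) (.g (nat_lit 2717) (.e (nat_lit 1234) (nat_lit 91) (.e (nat_lit 90170) (nat_lit 13) (.e (nat_lit 172113) (nat_lit 10) (.e (nat_lit 434245) (nat_lit 28) (.e (nat_lit 573471) (nat_lit 11) (.e (nat_lit 16384) (nat_lit 0) (.e (nat_lit 7548) (nat_lit 402) .nil))))))) (.g (nat_lit 5) .nil .nil))) 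
(.lf (nat_lit 40809) (.g (nat_lit 2994) (.e (nat_lit 1234) (nat_lit 91) (.e (nat_lit 90170) (nat_lit 13) (.e (nat_lit 172113) (nat_lit 10) (.e (nat_lit 434247) (nat_lit 28) (.e (nat_lit 573477) (nat_lit 12) (.e (nat_lit 57351) (nat_lit 0) (.e (nat_lit 7265) (nat_lit 384) (.e (nat_lit 57347) (nat_lit 0) (.e (nat_lit 6481) (nat_lit 343) .nil))))))))) (.g (nat_lit 4) .nil .nil)))) (.nd (nat_lit 5) 
(.lf (nat_lit 40793) (.g (nat_lit 3520) (.e (nat_lit 1234) (nat_lit 91) (.e (nat_lit 90170) (nat_lit 13) (.e (nat_lit 172113) (nat_lit 10) (.e (nat_lit 434245) (nat_lit 28) (.e (nat_lit 573471) (nat_lit 11) (.e (nat_lit 16396) (nat_lit 0) (.e (nat_lit 7554) (nat_lit 402) .nil))))))) (.g (nat_lit 6) .nil .nil))) 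
(.lf (nat_lit 40825) (.g (nat_lit 3874) (.e (nat_lit 1234) (nat_lit 91) (.e (nat_lit 90170) (nat_lit 13) (.e (nat_lit 172113) (nat_lit 10) (.e (nat_lit 434248) (nat_lit 28) (.e (nat_lit 573475) (nat_lit 12) (.e (nat_lit 57353) (nat_lit 0) (.e (nat_lit 7265) (nat_lit 384) (.e (nat_lit 57347) (nat_lit 0) (.e (nat_lit 6481) (nat_lit 343) .nil))))))))) (.g (nat_lit 7) .nil .nil)))))) 
(.nd (nat_lit 3) (.nd (nat_lit 4) (.nd (nat_lit 5) 
(.lf (nat_lit 40773) (.g (nat_lit 1416) (.e (nat_lit 1234) (nat_lit 91) (.e (nat_lit 90170) (nat_lit 13) (.e (nat_lit 172113) (nat_lit 10) (.e (nat_lit 434245) (nat_lit 28) (.e (nat_lit 573471) (nat_lit 11) .nil))))) .nil)) 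
(.lf (nat_lit 40805) (.g (nat_lit 2949) (.e (nat_lit 1234) (nat_lit 91) (.e (nat_lit 90170) (nat_lit 13) (.e (nat_lit 172113) (nat_lit 10) (.e (nat_lit 434247) (nat_lit 28) (.e (nat_lit 573456) (nat_lit 9) (.e (nat_lit 430) (nat_lit 32) (.e (nat_lit 426009) (nat_lit 0) (.e (nat_lit 7540) (nat_lit 402) .nil)))))))) (.g (nat_lit 4) .nil .nil)))) (.nd (nat_lit 5) 
(.lf (nat_lit 40789) (.g (nat_lit 4406) (.e (nat_lit 1234) (nat_lit 91) (.e (nat_lit 90170) (nat_lit 13) (.e (nat_lit 172113) (nat_lit 10) (.e (nat_lit 434245) (nat_lit 28) (.e (nat_lit 573471) (nat_lit 11) (.e (nat_lit 16392) (nat_lit 0) (.e (nat_lit 7559) (nat_lit 402) .nil))))))) (.g (nat_lit 6) .nil .nil))) 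
(.lf (nat_lit 40821) (.g (nat_lit 2686) (.e (nat_lit 1234) (nat_lit 91) (.e (nat_lit 90170) (nat_lit 13) (.e (nat_lit 172113) (nat_lit 10) (.e (nat_lit 434248) (nat_lit 28) (.e (nat_lit 573475) (nat_lit 12) (.e (nat_lit 57347) (nat_lit 0) (.e (nat_lit 7261) (nat_lit 384) (.e (nat_lit 57347) (nat_lit 0) (.e (nat_lit 6481) (nat_lit 343) .nil))))))))) (.g (nat_lit 4) .nil .nil))))) 
(.nd (nat_lit 4) (.nd (nat_lit 5) 
(.lf (nat_lit 40781) (.g (nat_lit 2575) (.e (nat_lit 1234) (nat_lit 91) (.e (nat_lit 90170) (nat_lit 13) (.e (nat_lit 172113) (nat_lit 10) (.e (nat_lit 434245) (nat_lit 28) (.e (nat_lit 573471) (nat_lit 11) (.e (nat_lit 16386) (nat_lit 0) (.e (nat_lit 7513) (nat_lit 402) .nil))))))) (.g (nat_lit 5) .nil .nil))) 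
(.lf (nat_lit 40813) (.g (nat_lit 1917) (.e (nat_lit 1234) (nat_lit 91) (.e (nat_lit 90170) (nat_lit 13) (.e (nat_lit 172113) (nat_lit 10) (.e (nat_lit 434248) (nat_lit 28) (.e (nat_lit 573452) (nat_lit 9) .nil))))) .nil))) (.nd (nat_lit 5) 
(.lf (nat_lit 40797) (.g (nat_lit 3371) (.e (nat_lit 1234) (nat_lit 91) (.e (nat_lit 90170) (nat_lit 13) (.e (nat_lit 172113) (nat_lit 10) (.e (nat_lit 434245) (nat_lit 28) (.e (nat_lit 573473) (nat_lit 12) (.e (nat_lit 57347) (nat_lit 0) (.e (nat_lit 7265) (nat_lit 384) (.e (nat_lit 57347) (nat_lit 0) (.e (nat_lit 6481) (nat_lit 343) .nil))))))))) (.g (nat_lit 5) .nil .nil))) 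
(.lf (nat_lit 40829) (.g (nat_lit 3635) (.e (nat_lit 1234) (nat_lit 91) (.e (nat_lit 90170) (nat_lit 13) (.e (nat_lit 172118) (nat_lit 12) (.e (nat_lit 475185) (nat_lit 29) (.e (nat_lit 557103) (nat_lit 14) (.e (nat_lit 180278) (nat_lit 32) .nil)))))) (.g (nat_lit 0) .nil .nil))))))) (.nd (nat_lit 2) (.nd (nat_lit 3) (.nd (nat_lit 4) (.nd (nat_lit 5) 
(.lf (nat_lit 40771) (.g (nat_lit 3564) (.e (nat_lit 1234) (nat_lit 91) (.e (nat_lit 90170) (nat_lit 13) (.e (nat_lit 172113) (nat_lit 10) (.e (nat_lit 434245) (nat_lit 28) (.e (nat_lit 573470) (nat_lit 11) (.e (nat_lit 16385) (nat_lit 0) (.e (nat_lit 7541) (nat_lit 402) .nil))))))) (.g (nat_lit 7) .nil .nil))) 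
(.lf (nat_lit 40803) (.g (nat_lit 3372) (.e (nat_lit 1234) (nat_lit 91) (.e (nat_lit 90170) (nat_lit 13) (.e (nat_lit 172113) (nat_lit 10) (.e (nat_lit 434245) (nat_lit 28) (.e (nat_lit 573474) (nat_lit 12) (.e (nat_lit 57353) (nat_lit 0) (.e (nat_lit 7265) (nat_lit 384) (.e (nat_lit 57347) (nat_lit 0) (.e (nat_lit 6481) (nat_lit 343) .nil))))))))) (.g (nat_lit 5) .nil .nil)))) (.nd (nat_lit 5) 
(.lf (nat_lit 40787) (.g (nat_lit 4291) (.e (nat_lit 1234) (nat_lit 91) (.e (nat_lit 90170) (nat_lit 13) (.e (nat_lit 172113) (nat_lit 10) (.e (nat_lit 434245) (nat_lit 28) (.e (nat_lit 573471) (nat_lit 11) (.e (nat_lit 16392) (nat_lit 0) (.e (nat_lit 7554) (nat_lit 402) .nil))))))) (.g (nat_lit 6) .nil .nil))) 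
(.lf (nat_lit 40819) (.g (nat_lit 2801) (.e (nat_lit 1234) (nat_lit 91) (.e (nat_lit 90170) (nat_lit 13) (.e (nat_lit 172113) (nat_lit 10) (.e (nat_lit 434248) (nat_lit 28) (.e (nat_lit 573470) (nat_lit 11) (.e (nat_lit 16388) (nat_lit 0) (.e (nat_lit 7545) (nat_lit 402) .nil))))))) (.g (nat_lit 4) .nil .nil))))) (.nd (nat_lit 4) (.nd (nat_lit 5) 
(.lf (nat_lit 40779) (.g (nat_lit 2848) (.e (nat_lit 1234) (nat_lit 91) (.e (nat_lit 90170) (nat_lit 13) (.e (nat_lit 172113) (nat_lit 10) (.e (nat_lit 434245) (nat_lit 28) (.e (nat_lit 573471) (nat_lit 11) (.e (nat_lit 16385) (nat_lit 0) (.e (nat_lit 7540) (nat_lit 402) .nil))))))) (.g (nat_lit 5) .nil .nil))) 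
(.lf (nat_lit 40811) (.g (nat_lit 1005) (.e (nat_lit 1234) (nat_lit 91) (.e (nat_lit 90170) (nat_lit 13) (.e (nat_lit 172113) (nat_lit 10) (.e (nat_lit 434248) (nat_lit 28) .nil)))) .nil))) (.nd (nat_lit 5) 
(.lf (nat_lit 40795) (.g (nat_lit 2617) (.e (nat_lit 1234) (nat_lit 91) (.e (nat_lit 90170) (nat_lit 13) (.e (nat_lit 172113) (nat_lit 10) (.e (nat_lit 434245) (nat_lit 28) (.e (nat_lit 573471) (nat_lit 11) (.e (nat_lit 16397) (nat_lit 0) (.e (nat_lit 7554) (nat_lit 402) .nil))))))) (.g (nat_lit 5) .nil .nil))) 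
(.lf (nat_lit 40827) (.g (nat_lit 2075) (.e (nat_lit 1234) (nat_lit 91) (.e (nat_lit 90170) (nat_lit 13) (.e (nat_lit 172118) (nat_lit 12) (.e (nat_lit 475183) (nat_lit 29) (.e (nat_lit 557104) (nat_lit 14) (.e (nat_lit 180278) (nat_lit 32) .nil)))))) (.g (nat_lit 4) .nil .nil)))))) (.nd (nat_lit 3) (.nd (nat_lit 4) (.nd (nat_lit 5) 
(.lf (nat_lit 40775) (.g (nat_lit 3944) (.e (nat_lit 1234) (nat_lit 91) (.e (nat_lit 90170) (nat_lit 13) (.e (nat_lit 172113) (nat_lit 10) (.e (nat_lit 434245) (nat_lit 28) (.e (nat_lit 573471) (nat_lit 11) (.e (nat_lit 16384) (nat_lit 0) (.e (nat_lit 7540) (nat_lit 402) .nil))))))) (.g (nat_lit 6) .nil .nil))) 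
(.lf (nat_lit 40807) (.g (nat_lit 2623) (.e (nat_lit 1234) (nat_lit 91) (.e (nat_lit 90170) (nat_lit 13) (.e (nat_lit 172113) (nat_lit 10) (.e (nat_lit 434247) (nat_lit 28) (.e (nat_lit 573457) (nat_lit 9) (.e (nat_lit 430) (nat_lit 32) (.e (nat_lit 426009) (nat_lit 0) (.e (nat_lit 7540) (nat_lit 402) .nil)))))))) (.g (nat_lit 4) .nil .nil)))) (.nd (nat_lit 5) 
(.lf (nat_lit 40791) (.g (nat_lit 3804) (.e (nat_lit 1234) (nat_lit 91) (.e (nat_lit 90170) (nat_lit 13) (.e (nat_lit 172113) (nat_lit 10) (.e (nat_lit 434245) (nat_lit 28) (.e (nat_lit 573471) (nat_lit 11) (.e (nat_lit 16394) (nat_lit 0) (.e (nat_lit 7540) (nat_lit 402) .nil))))))) (.g (nat_lit 5) .nil .nil))) 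
(.lf (nat_lit 40823) (.g (nat_lit 4397) (.e (nat_lit 1234) (nat_lit 91) (.e (nat_lit 90170) (nat_lit 13) (.e (nat_lit 172113) (nat_lit 10) (.e (nat_lit 434248) (nat_lit 28) (.e (nat_lit 573475) (nat_lit 12) (.e (nat_lit 57348) (nat_lit 0) (.e (nat_lit 7265) (nat_lit 384) (.e (nat_lit 57347) (nat_lit 0) (.e (nat_lit 6481) (nat_lit 343) .nil))))))))) (.g (nat_lit 7) .nil .nil))))) 
(.nd (nat_lit 4) (.nd (nat_lit 5) 
(.lf (nat_lit 40783) (.g (nat_lit 2925) (.e (nat_lit 1234) (nat_lit 91) (.e (nat_lit 90170) (nat_lit 13) (.e (nat_lit 172113) (nat_lit 10) (.e (nat_lit 434245) (nat_lit 28) (.e (nat_lit 573471) (nat_lit 11) (.e (nat_lit 16389) (nat_lit 0) (.e (nat_lit 7517) (nat_lit 402) .nil))))))) (.g (nat_lit 5) .nil .nil))) 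
(.lf (nat_lit 40815) (.g (nat_lit 2088) (.e (nat_lit 1234) (nat_lit 91) (.e (nat_lit 90170) (nat_lit 13) (.e (nat_lit 172113) (nat_lit 10) (.e (nat_lit 434248) (nat_lit 28) (.e (nat_lit 573457) (nat_lit 9) .nil))))) .nil))) (.nd (nat_lit 5) 
(.lf (nat_lit 40799) (.g (nat_lit 4845) (.e (nat_lit 1234) (nat_lit 91) (.e (nat_lit 90170) (nat_lit 13) (.e (nat_lit 172113) (nat_lit 10) (.e (nat_lit 434245) (nat_lit 28) (.e (nat_lit 573474) (nat_lit 12) (.e (nat_lit 57347) (nat_lit 0) (.e (nat_lit 7265) (nat_lit 384) (.e (nat_lit 57347) (nat_lit 0) (.e (nat_lit 6481) (nat_lit 343) .nil))))))))) (.g (nat_lit 8) .nil .nil))) 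
(.lf (nat_lit 40831) (.g (nat_lit 3446) (.e (nat_lit 1234) (nat_lit 91) (.e (nat_lit 90170) (nat_lit 13) (.e (nat_lit 172118) (nat_lit 12) (.e (nat_lit 475185) (nat_lit 29) (.e (nat_lit 557105) (nat_lit 14) (.e (nat_lit 180278) (nat_lit 32) .nil)))))) (.g (nat_lit 0) .nil .nil)))))))))

noncomputable def tv567 : DT := (.nd (nat_lit 0) (.nd (nat_lit 1) (.nd (nat_lit 2) (.nd (nat_lit 3) (.nd (nat_lit 4) (.nd (nat_lit 5) 
(.lf (nat_lit 40832) (.g (nat_lit 2591) (.e (nat_lit 1234) (nat_lit 91) (.e (nat_lit 90170) (nat_lit 13) (.e (nat_lit 172119) (nat_lit 12) (.e (nat_lit 475185) (nat_lit 29) (.e (nat_lit 557105) (nat_lit 14) .nil))))) .nil)) 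
(.lf (nat_lit 40864) (.g (nat_lit 2495) (.e (nat_lit 1234) (nat_lit 91) (.e (nat_lit 90170) (nat_lit 13) (.e (nat_lit 172126) (nat_lit 14) (.e (nat_lit 491537) (nat_lit 2) (.e (nat_lit 90172) (nat_lit 14) .nil))))) .nil))) (.nd (nat_lit 5) 
(.lf (nat_lit 40848) (.g (nat_lit 2047) (.e (nat_lit 1234) (nat_lit 91) (.e (nat_lit 90170) (nat_lit 13) (.e (nat_lit 172124) (nat_lit 14) (.e (nat_lit 491536) (nat_lit 2) (.e (nat_lit 90172) (nat_lit 14) (.e (nat_lit 180278) (nat_lit 32) .nil)))))) (.g (nat_lit 4) .nil .nil))) 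
(.lf (nat_lit 40880) (.g (nat_lit 2449) (.e (nat_lit 1234) (nat_lit 91) (.e (nat_lit 90171) (nat_lit 14) (.e (nat_lit 180252) (nat_lit 10) (.e (nat_lit 573489) (nat_lit 14) (.e (nat_lit 73755) (nat_lit 8) (.e (nat_lit 557090) (nat_lit 12) (.e (nat_lit 164005) (nat_lit 41) (.e (nat_lit 663559) (nat_lit 0) .nil)))))))) (.g (nat_lit 4) .nil .nil))))) (.nd (nat_lit 4) (.nd (nat_lit 5) 
(.lf (nat_lit 40840) (.g (nat_lit 3932) (.e (nat_lit 1234) (nat_lit 91) (.e (nat_lit 90170) (nat_lit 13) (.e (nat_lit 172120) (nat_lit 12) (.e (nat_lit 475185) (nat_lit 29) (.e (nat_lit 557103) (nat_lit 14) (.e (nat_lit 180277) (nat_lit 32) .nil)))))) (.g (nat_lit 6) .nil .nil))) 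
(.lf (nat_lit 40872) (.g (nat_lit 5022) (.e (nat_lit 1234) (nat_lit 91) (.e (nat_lit 90170) (nat_lit 13) (.e (nat_lit 172126) (nat_lit 14) (.e (nat_lit 491539) (nat_lit 3) (.e (nat_lit 98367) (nat_lit 27) (.e (nat_lit 434180) (nat_lit 0) .nil)))))) (.g (nat_lit 6) .nil .nil)))) (.nd (nat_lit 5) 
(.lf (nat_lit 40856) (.g (nat_lit 3734) (.e (nat_lit 1234) (nat_lit 91) (.e (nat_lit 90170) (nat_lit 13) (.e (nat_lit 172124) (nat_lit 14) (.e (nat_lit 491540) (nat_lit 3) (.e (nat_lit 98367) (nat_lit 27) (.e (nat_lit 434177) (nat_lit 0) .nil)))))) (.g (nat_lit 5) .nil .nil))) 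
(.lf (nat_lit 40888) (.g (nat_lit 3803) (.e (nat_lit 1234) (nat_lit 91) (.e (nat_lit 90172) (nat_lit 14) (.e (nat_lit 180250) (nat_lit 10) (.e (nat_lit 573487) (nat_lit 14) (.e (nat_lit 73753) (nat_lit 8) (.e (nat_lit 557090) (nat_lit 12) (.e (nat_lit 164006) (nat_lit 41) (.e (nat_lit 663559) (nat_lit 0) .nil)))))))) (.g (nat_lit 5) .nil .nil)))))) 
(.nd (nat_lit 3) (.nd (nat_lit 4) (.nd (nat_lit 5) 
(.lf (nat_lit 40836) (.g (nat_lit 3080) (.e (nat_lit 1234) (nat_lit 91) (.e (nat_lit 90170) (nat_lit 13) (.e (nat_lit 172120) (nat_lit 12) (.e (nat_lit 475183) (nat_lit 29) (.e (nat_lit 557105) (nat_lit 14) .nil))))) .nil)) 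
(.lf (nat_lit 40868) (.g (nat_lit 4277) (.e (nat_lit 1234) (nat_lit 91) (.e (nat_lit 90170) (nat_lit 13) (.e (nat_lit 172126) (nat_lit 14) (.e (nat_lit 491537) (nat_lit 2) (.e (nat_lit 90174) (nat_lit 14) (.e (nat_lit 180277) (nat_lit 32) .nil)))))) (.g (nat_lit 6) .nil .nil)))) (.nd (nat_lit 5) 
(.lf (nat_lit 40852) (.g (nat_lit 2113) (.e (nat_lit 1234) (nat_lit 91) (.e (nat_lit 90170) (nat_lit 13) (.e (nat_lit 172124) (nat_lit 14) (.e (nat_lit 491537) (nat_lit 2) (.e (nat_lit 90185) (nat_lit 17) .nil))))) .nil)) 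
(.lf (nat_lit 40884) (.g (nat_lit 1593) (.e (nat_lit 1234) (nat_lit 91) (.e (nat_lit 90172) (nat_lit 14) (.e (nat_lit 180244) (nat_lit 5) (.e (nat_lit 532515) (nat_lit 3) (.e (nat_lit 114716) (nat_lit 22) (.e (nat_lit 90164) (nat_lit 12) (.e (nat_lit 164006) (nat_lit 41) (.e (nat_lit 663559) (nat_lit 0) .nil)))))))) (.g (nat_lit 4) .nil .nil))))) (.nd (nat_lit 4) (.nd (nat_lit 5) 
(.lf (nat_lit 40844) (.g (nat_lit 4102) (.e (nat_lit 1234) (nat_lit 91) (.e (nat_lit 90170) (nat_lit 13) (.e (nat_lit 172120) (nat_lit 12) (.e (nat_lit 475185) (nat_lit 29) (.e (nat_lit 557105) (nat_lit 14) (.e (nat_lit 180277) (nat_lit 32) .nil)))))) (.g (nat_lit 0) .nil .nil))) 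
(.lf (nat_lit 40876) (.g (nat_lit 3740) (.e (nat_lit 1234) (nat_lit 91) (.e (nat_lit 90170) (nat_lit 13) (.e (nat_lit 172126) (nat_lit 14) (.e (nat_lit 491540) (nat_lit 3) (.e (nat_lit 98367) (nat_lit 27) (.e (nat_lit 434177) (nat_lit 0) .nil)))))) (.g (nat_lit 5) .nil .nil)))) (.nd (nat_lit 5) 
(.lf (nat_lit 40860) (.g (nat_lit 1687) (.e (nat_lit 1234) (nat_lit 91) (.e (nat_lit 90170) (nat_lit 13) (.e (nat_lit 172126) (nat_lit 14) (.e (nat_lit 491524) (nat_lit 0) .nil)))) .nil)) 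
(.lf (nat_lit 40892) (.g (nat_lit 3479) (.e (nat_lit 1234) (nat_lit 91) (.e (nat_lit 90172) (nat_lit 14) (.e (nat_lit 180278) (nat_lit 32) (.e (nat_lit 1235) (nat_lit 91) (.e (nat_lit 90172) (nat_lit 14) (.e (nat_lit 180278) (nat_lit 32) .nil)))))) (.g (nat_lit 6) .nil .nil))))))) (.nd (nat_lit 2) (.nd (nat_lit 3) (.nd (nat_lit 4) (.nd (nat_lit 5) 
(.lf (nat_lit 40834) (.g (nat_lit 2898) (.e (nat_lit 1234) (nat_lit 91) (.e (nat_lit 90170) (nat_lit 13) (.e (nat_lit 172120) (nat_lit 12) (.e (nat_lit 475183) (nat_lit 29) (.e (nat_lit 557104) (nat_lit 14) .nil))))) .nil)) 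
(.lf (nat_lit 40866) (.g (nat_lit 3199) (.e (nat_lit 1234) (nat_lit 91) (.e (nat_lit 90170) (nat_lit 13) (.e (nat_lit 172126) (nat_lit 14) (.e (nat_lit 491537) (nat_lit 2) (.e (nat_lit 90173) (nat_lit 14) .nil))))) .nil))) (.nd (nat_lit 5) 
(.lf (nat_lit 40850) (.g (nat_lit 2948) (.e (nat_lit 1234) (nat_lit 91) (.e (nat_lit 90170) (nat_lit 13) (.e (nat_lit 172124) (nat_lit 14) (.e (nat_lit 491537) (nat_lit 2) (.e (nat_lit 90173) (nat_lit 14) .nil))))) .nil)) 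
(.lf (nat_lit 40882) (.g (nat_lit 2829) (.e (nat_lit 1234) (nat_lit 91) (.e (nat_lit 90172) (nat_lit 14) (.e (nat_lit 180244) (nat_lit 5) (.e (nat_lit 532513) (nat_lit 3) (.e (nat_lit 114714) (nat_lit 22) (.e (nat_lit 90162) (nat_lit 12) (.e (nat_lit 164007) (nat_lit 41) (.e (nat_lit 663559) (nat_lit 0) .nil)))))))) (.g (nat_lit 5) .nil .nil))))) (.nd (nat_lit 4) (.nd (nat_lit 5) 
(.lf (nat_lit 40842) (.g (nat_lit 3133) (.e (nat_lit 1234) (nat_lit 91) (.e (nat_lit 90170) (nat_lit 13) (.e (nat_lit 172120) (nat_lit 12) (.e (nat_lit 475185) (nat_lit 29) (.e (nat_lit 557104) (nat_lit 14) (.e (nat_lit 180277) (nat_lit 32) .nil)))))) (.g (nat_lit 4) .nil .nil))) 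
(.lf (nat_lit 40874) (.g (nat_lit 2640) (.e (nat_lit 1234) (nat_lit 91) (.e (nat_lit 90170) (nat_lit 13) (.e (nat_lit 172126) (nat_lit 14) (.e (nat_lit 491540) (nat_lit 3) (.e (nat_lit 98366) (nat_lit 27) (.e (nat_lit 434180) (nat_lit 0) .nil)))))) (.g (nat_lit 4) .nil .nil)))) (.nd (nat_lit 5) 
(.lf (nat_lit 40858) (.g (nat_lit 2493) (.e (nat_lit 1234) (nat_lit 91) (.e (nat_lit 90170) (nat_lit 13) (.e (nat_lit 172124) (nat_lit 14) (.e (nat_lit 491540) (nat_lit 3) (.e (nat_lit 98368) (nat_lit 27) (.e (nat_lit 434181) (nat_lit 0) .nil)))))) (.g (nat_lit 4) .nil .nil))) 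
(.lf (nat_lit 40890) (.g (nat_lit 3884) (.e (nat_lit 1234) (nat_lit 91) (.e (nat_lit 90172) (nat_lit 14) (.e (nat_lit 180278) (nat_lit 32) (.e (nat_lit 1234) (nat_lit 91) (.e (nat_lit 90172) (nat_lit 14) (.e (nat_lit 180278) (nat_lit 32) .nil)))))) (.g (nat_lit 5) .nil .nil)))))) (.nd (nat_lit 3) (.nd (nat_lit 4) (.nd (nat_lit 5) 
(.lf (nat_lit 40838) (.g (nat_lit 2717) (.e (nat_lit 1234) (nat_lit 91) (.e (nat_lit 90170) (nat_lit 13) (.e (nat_lit 172120) (nat_lit 12) (.e (nat_lit 475184) (nat_lit 29) (.e (nat_lit 557105) (nat_lit 14) .nil))))) .nil)) 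
(.lf (nat_lit 40870) (.g (nat_lit 2591) (.e (nat_lit 1234) (nat_lit 91) (.e (nat_lit 90170) (nat_lit 13) (.e (nat_lit 172126) (nat_lit 14) (.e (nat_lit 491537) (nat_lit 2) (.e (nat_lit 90185) (nat_lit 17) (.e (nat_lit 237569) (nat_lit 0) (.e (nat_lit 7562) (nat_lit 402) .nil))))))) (.g (nat_lit 4) .nil .nil)))) (.nd (nat_lit 5) 
(.lf (nat_lit 40854) (.g (nat_lit 2561) (.e (nat_lit 1234) (nat_lit 91) (.e (nat_lit 90170) (nat_lit 13) (.e (nat_lit 172124) (nat_lit 14) (.e (nat_lit 491540) (nat_lit 3) (.e (nat_lit 98366) (nat_lit 27) (.e (nat_lit 434180) (nat_lit 0) .nil)))))) (.g (nat_lit 4) .nil .nil))) 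
(.lf (nat_lit 40886) (.g (nat_lit 3216) (.e (nat_lit 1234) (nat_lit 91) (.e (nat_lit 90172) (nat_lit 14) (.e (nat_lit 180250) (nat_lit 10) (.e (nat_lit 573487) (nat_lit 14) (.e (nat_lit 73753) (nat_lit 8) (.e (nat_lit 557089) (nat_lit 12) (.e (nat_lit 164006) (nat_lit 41) (.e (nat_lit 663559) (nat_lit 0) .nil)))))))) (.g (nat_lit 4) .nil .nil))))) (.nd (nat_lit 4) (.nd (nat_lit 5) 
(.lf (nat_lit 40846) (.g (nat_lit 918) (.e (nat_lit 1234) (nat_lit 91) (.e (nat_lit 90170) (nat_lit 13) (.e (nat_lit 172121) (nat_lit 13) (.e (nat_lit 491264) (nat_lit 10) .nil)))) .nil)) 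
(.lf (nat_lit 40878) (.g (nat_lit 2233) (.e (nat_lit 1234) (nat_lit 91) (.e (nat_lit 90170) (nat_lit 13) (.e (nat_lit 179968) (nat_lit 20) (.e (nat_lit 114710) (nat_lit 21) (.e (nat_lit 57847) (nat_lit 252) (.e (nat_lit 57390) (nat_lit 5) (.e (nat_lit 114723) (nat_lit 24) (.e (nat_lit 106523) (nat_lit 9) .nil)))))))) (.g (nat_lit 7) .nil .nil)))) (.nd (nat_lit 5) 
(.lf (nat_lit 40862) (.g (nat_lit 2865) (.e (nat_lit 1234) (nat_lit 91) (.e (nat_lit 90170) (nat_lit 13) (.e (nat_lit 172126) (nat_lit 14) (.e (nat_lit 491536) (nat_lit 2) (.e (nat_lit 90174) (nat_lit 14) .nil))))) .nil)) 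
(.lf (nat_lit 40894) (.g (nat_lit 3504) (.e (nat_lit 1234) (nat_lit 91) (.e (nat_lit 90172) (nat_lit 14) (.e (nat_lit 180278) (nat_lit 32) (.e (nat_lit 1253) (nat_lit 92) (.e (nat_lit 98367) (nat_lit 27) (.e (nat_lit 434177) (nat_lit 0) .nil)))))) (.g (nat_lit 5) .nil .nil)))))))) (.nd (nat_lit 1) (.nd (nat_lit 2) (.nd (nat_lit 3) (.nd (nat_lit 4) (.nd (nat_lit 5) 
(.lf (nat_lit 40833) (.g (nat_lit 3666) (.e (nat_lit 1234) (nat_lit 91) (.e (nat_lit 90170) (nat_lit 13) (.e (nat_lit 172120) (nat_lit 12) (.e (nat_lit 475183) (nat_lit 29) (.e (nat_lit 557103) (nat_lit 14) (.e (nat_lit 180278) (nat_lit 32) .nil)))))) (.g (nat_lit 4) .nil .nil))) 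
(.lf (nat_lit 40865) (.g (nat_lit 4495) (.e (nat_lit 1234) (nat_lit 91) (.e (nat_lit 90170) (nat_lit 13) (.e (nat_lit 172126) (nat_lit 14) (.e (nat_lit 491537) (nat_lit 2) (.e (nat_lit 90172) (nat_lit 14) (.e (nat_lit 180278) (nat_lit 32) .nil)))))) (.g (nat_lit 0) .nil .nil)))) (.nd (nat_lit 5) 
(.lf (nat_lit 40849) (.g (nat_lit 2532) (.e (nat_lit 1234) (nat_lit 91) (.e (nat_lit 90170) (nat_lit 13) (.e (nat_lit 172124) (nat_lit 14) (.e (nat_lit 491537) (nat_lit 2) (.e (nat_lit 90133) (nat_lit 9) .nil))))) .nil)) 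
(.lf (nat_lit 40881) (.g (nat_lit 2793) (.e (nat_lit 1234) (nat_lit 91) (.e (nat_lit 90171) (nat_lit 14) (.e (nat_lit 180252) (nat_lit 10) (.e (nat_lit 573489) (nat_lit 14) (.e (nat_lit 73755) (nat_lit 8) (.e (nat_lit 557090) (nat_lit 12) (.e (nat_lit 164007) (nat_lit 41) (.e (nat_lit 663559) (nat_lit 0) .nil)))))))) (.g (nat_lit 5) .nil .nil))))) (.nd (nat_lit 4) (.nd (nat_lit 5) 
(.lf (nat_lit 40841) (.g (nat_lit 4373) (.e (nat_lit 1234) (nat_lit 91) (.e (nat_lit 90170) (nat_lit 13) (.e (nat_lit 172120) (nat_lit 12) (.e (nat_lit 475185) (nat_lit 29) (.e (nat_lit 557103) (nat_lit 14) (.e (nat_lit 180278) (nat_lit 32) .nil)))))) (.g (nat_lit 0) .nil .nil))) 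
(.lf (nat_lit 40873) (.g (nat_lit 1469) (.e (nat_lit 1234) (nat_lit 91) (.e (nat_lit 90170) (nat_lit 13) (.e (nat_lit 172126) (nat_lit 14) (.e (nat_lit 491540) (nat_lit 3) .nil)))) .nil))) (.nd (nat_lit 5) 
(.lf (nat_lit 40857) (.g (nat_lit 4397) (.e (nat_lit 1234) (nat_lit 91) (.e (nat_lit 90170) (nat_lit 13) (.e (nat_lit 172124) (nat_lit 14) (.e (nat_lit 491540) (nat_lit 3) (.e (nat_lit 98367) (nat_lit 27) (.e (nat_lit 434180) (nat_lit 0) .nil)))))) (.g (nat_lit 0) .nil .nil))) 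
(.lf (nat_lit 40889) (.g (nat_lit 3513) (.e (nat_lit 1234) (nat_lit 91) (.e (nat_lit 90172) (nat_lit 14) (.e (nat_lit 180250) (nat_lit 10) (.e (nat_lit 573487) (nat_lit 14) (.e (nat_lit 73753) (nat_lit 8) (.e (nat_lit 557091) (nat_lit 12) (.e (nat_lit 164006) (nat_lit 41) (.e (nat_lit 663559) (nat_lit 0) .nil)))))))) (.g (nat_lit 4) .nil .nil)))))) 
(.nd (nat_lit 3) (.nd (nat_lit 4) (.nd (nat_lit 5) 
(.lf (nat_lit 40837) (.g (nat_lit 2116) (.e (nat_lit 1234) (nat_lit 91) (.e (nat_lit 90170) (nat_lit 13) (.e (nat_lit 172120) (nat_lit 12) (.e (nat_lit 475184) (nat_lit 29) .nil)))) .nil)) 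
(.lf (nat_lit 40869) (.g (nat_lit 3696) (.e (nat_lit 1234) (nat_lit 91) (.e (nat_lit 90170) (nat_lit 13) (.e (nat_lit 172126) (nat_lit 14) (.e (nat_lit 491537) (nat_lit 2) (.e (nat_lit 90185) (nat_lit 17) (.e (nat_lit 237569) (nat_lit 0) (.e (nat_lit 7540) (nat_lit 402) .nil))))))) (.g (nat_lit 5) .nil .nil)))) (.nd (nat_lit 5) 
(.lf (nat_lit 40853) (.g (nat_lit 1111) (.e (nat_lit 1234) (nat_lit 91) (.e (nat_lit 90170) (nat_lit 13) (.e (nat_lit 172124) (nat_lit 14) (.e (nat_lit 491540) (nat_lit 3) .nil)))) .nil)) 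
(.lf (nat_lit 40885) (.g (nat_lit 1557) (.e (nat_lit 1234) (nat_lit 91) (.e (nat_lit 90172) (nat_lit 14) (.e (nat_lit 180244) (nat_lit 5) (.e (nat_lit 532515) (nat_lit 3) (.e (nat_lit 114716) (nat_lit 22) (.e (nat_lit 90181) (nat_lit 16) (.e (nat_lit 229449) (nat_lit 41) (.e (nat_lit 663559) (nat_lit 0) .nil)))))))) (.g (nat_lit 4) .nil .nil))))) (.nd (nat_lit 4) (.nd (nat_lit 5) 
(.lf (nat_lit 40845) (.g (nat_lit 4208) (.e (nat_lit 1234) (nat_lit 91) (.e (nat_lit 90170) (nat_lit 13) (.e (nat_lit 172120) (nat_lit 12) (.e (nat_lit 475185) (nat_lit 29) (.e (nat_lit 557105) (nat_lit 14) (.e (nat_lit 180278) (nat_lit 32) .nil)))))) (.g (nat_lit 0) .nil .nil))) 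
(.lf (nat_lit 40877) (.g (nat_lit 4500) (.e (nat_lit 1234) (nat_lit 91) (.e (nat_lit 90170) (nat_lit 13) (.e (nat_lit 172126) (nat_lit 14) (.e (nat_lit 491540) (nat_lit 3) (.e (nat_lit 98367) (nat_lit 27) (.e (nat_lit 434180) (nat_lit 0) .nil)))))) (.g (nat_lit 6) .nil .nil)))) (.nd (nat_lit 5) 
(.lf (nat_lit 40861) (.g (nat_lit 3090) (.e (nat_lit 1234) (nat_lit 91) (.e (nat_lit 90170) (nat_lit 13) (.e (nat_lit 172126) (nat_lit 14) (.e (nat_lit 491535) (nat_lit 2) (.e (nat_lit 90172) (nat_lit 14) (.e (nat_lit 180278) (nat_lit 32) .nil)))))) (.g (nat_lit 4) .nil .nil))) 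
(.lf (nat_lit 40893) (.g (nat_lit 3683) (.e (nat_lit 1234) (nat_lit 91) (.e (nat_lit 90172) (nat_lit 14) (.e (nat_lit 180278) (nat_lit 32) (.e (nat_lit 1235) (nat_lit 91) (.e (nat_lit 90174) (nat_lit 14) (.e (nat_lit 180277) (nat_lit 32) .nil)))))) (.g (nat_lit 0) .nil .nil))))))) (.nd (nat_lit 2) (.nd (nat_lit 3) (.nd (nat_lit 4) (.nd (nat_lit 5) 
(.lf (nat_lit 40835) (.g (nat_lit 3935) (.e (nat_lit 1234) (nat_lit 91) (.e (nat_lit 90170) (nat_lit 13) (.e (nat_lit 172120) (nat_lit 12) (.e (nat_lit 475183) (nat_lit 29) (.e (nat_lit 557104) (nat_lit 14) (.e (nat_lit 180278) (nat_lit 32) .nil)))))) (.g (nat_lit 5) .nil .nil))) 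
(.lf (nat_lit 40867) (.g (nat_lit 3492) (.e (nat_lit 1234) (nat_lit 91) (.e (nat_lit 90170) (nat_lit 13) (.e (nat_lit 172126) (nat_lit 14) (.e (nat_lit 491537) (nat_lit 2) (.e (nat_lit 90173) (nat_lit 14) (.e (nat_lit 180277) (nat_lit 32) .nil)))))) (.g (nat_lit 4) .nil .nil)))) (.nd (nat_lit 5) 
(.lf (nat_lit 40851) (.g (nat_lit 3800) (.e (nat_lit 1234) (nat_lit 91) (.e (nat_lit 90170) (nat_lit 13) (.e (nat_lit 172124) (nat_lit 14) (.e (nat_lit 491537) (nat_lit 2) (.e (nat_lit 90174) (nat_lit 14) (.e (nat_lit 180277) (nat_lit 32) .nil)))))) (.g (nat_lit 6) .nil .nil))) 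
(.lf (nat_lit 40883) (.g (nat_lit 1931) (.e (nat_lit 1234) (nat_lit 91) (.e (nat_lit 90172) (nat_lit 14) (.e (nat_lit 180244) (nat_lit 5) (.e (nat_lit 532515) (nat_lit 3) (.e (nat_lit 114716) (nat_lit 22) (.e (nat_lit 90162) (nat_lit 12) (.e (nat_lit 164007) (nat_lit 41) (.e (nat_lit 663559) (nat_lit 0) .nil)))))))) (.g (nat_lit 5) .nil .nil))))) (.nd (nat_lit 4) (.nd (nat_lit 5) 
(.lf (nat_lit 40843) (.g (nat_lit 4761) (.e (nat_lit 1234) (nat_lit 91) (.e (nat_lit 90170) (nat_lit 13) (.e (nat_lit 172120) (nat_lit 12) (.e (nat_lit 475185) (nat_lit 29) (.e (nat_lit 557104) (nat_lit 14) (.e (nat_lit 180278) (nat_lit 32) .nil)))))) (.g (nat_lit 0) .nil .nil))) 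
(.lf (nat_lit 40875) (.g (nat_lit 2915) (.e (nat_lit 1234) (nat_lit 91) (.e (nat_lit 90170) (nat_lit 13) (.e (nat_lit 172126) (nat_lit 14) (.e (nat_lit 491540) (nat_lit 3) (.e (nat_lit 98366) (nat_lit 27) (.e (nat_lit 434181) (nat_lit 0) .nil)))))) (.g (nat_lit 4) .nil .nil)))) (.nd (nat_lit 5) 
(.lf (nat_lit 40859) (.g (nat_lit 687) (.e (nat_lit 1234) (nat_lit 91) (.e (nat_lit 90170) (nat_lit 13) (.e (nat_lit 172125) (nat_lit 14) .nil))) .nil)) 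
(.lf (nat_lit 40891) (.g (nat_lit 3227) (.e (nat_lit 1234) (nat_lit 91) (.e (nat_lit 90172) (nat_lit 14) (.e (nat_lit 180278) (nat_lit 32) (.e (nat_lit 1234) (nat_lit 91) (.e (nat_lit 90174) (nat_lit 14) (.e (nat_lit 180277) (nat_lit 32) .nil)))))) (.g (nat_lit 5) .nil .nil)))))) (.nd (nat_lit 3) (.nd (nat_lit 4) (.nd (nat_lit 5) 
(.lf (nat_lit 40839) (.g (nat_lit 3371) (.e (nat_lit 1234) (nat_lit 91) (.e (nat_lit 90170) (nat_lit 13) (.e (nat_lit 172120) (nat_lit 12) (.e (nat_lit 475185) (nat_lit 29) (.e (nat_lit 557102) (nat_lit 14) .nil))))) .nil)) 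
(.lf (nat_lit 40871) (.g (nat_lit 1707) (.e (nat_lit 1234) (nat_lit 91) (.e (nat_lit 90170) (nat_lit 13) (.e (nat_lit 172126) (nat_lit 14) (.e (nat_lit 491539) (nat_lit 3) .nil)))) .nil))) (.nd (nat_lit 5) 
(.lf (nat_lit 40855) (.g (nat_lit 2836) (.e (nat_lit 1234) (nat_lit 91) (.e (nat_lit 90170) (nat_lit 13) (.e (nat_lit 172124) (nat_lit 14) (.e (nat_lit 491540) (nat_lit 3) (.e (nat_lit 98366) (nat_lit 27) (.e (nat_lit 434181) (nat_lit 0) .nil)))))) (.g (nat_lit 4) .nil .nil))) 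
(.lf (nat_lit 40887) (.g (nat_lit 3187) (.e (nat_lit 1234) (nat_lit 91) (.e (nat_lit 90172) (nat_lit 14) (.e (nat_lit 180250) (nat_lit 10) (.e (nat_lit 573487) (nat_lit 14) (.e (nat_lit 73753) (nat_lit 8) (.e (nat_lit 557089) (nat_lit 12) (.e (nat_lit 164007) (nat_lit 41) (.e (nat_lit 663559) (nat_lit 0) .nil)))))))) (.g (nat_lit 4) .nil .nil))))) (.nd (nat_lit 4) (.nd (nat_lit 5) 
(.lf (nat_lit 40847) (.g (nat_lit 748) (.e (nat_lit 1234) (nat_lit 91) (.e (nat_lit 90170) (nat_lit 13) (.e (nat_lit 172123) (nat_lit 13) .nil))) .nil)) 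
(.lf (nat_lit 40879) (.g (nat_lit 2546) (.e (nat_lit 1234) (nat_lit 91) (.e (nat_lit 90170) (nat_lit 13) (.e (nat_lit 179968) (nat_lit 20) (.e (nat_lit 114711) (nat_lit 21) (.e (nat_lit 57847) (nat_lit 252) (.e (nat_lit 57390) (nat_lit 5) (.e (nat_lit 114723) (nat_lit 24) (.e (nat_lit 106523) (nat_lit 9) .nil)))))))) (.g (nat_lit 7) .nil .nil)))) (.nd (nat_lit 5) 
(.lf (nat_lit 40863) (.g (nat_lit 1983) (.e (nat_lit 1234) (nat_lit 91) (.e (nat_lit 90170) (nat_lit 13) (.e (nat_lit 172126) (nat_lit 14) (.e (nat_lit 491537) (nat_lit 2) (.e (nat_lit 90170) (nat_lit 13) .nil))))) .nil)) 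
(.lf (nat_lit 40895) (.g (nat_lit 4022) (.e (nat_lit 1234) (nat_lit 91) (.e (nat_lit 90172) (nat_lit 14) (.e (nat_lit 180278) (nat_lit 32) (.e (nat_lit 1253) (nat_lit 92) (.e (nat_lit 98367) (nat_lit 27) (.e (nat_lit 434180) (nat_lit 0) .nil)))))) (.g (nat_lit 0) .nil .nil)))))))))

noncomputable def tv568 : DT := (.nd (nat_lit 0) (.nd (nat_lit 1) (.nd (nat_lit 2) (.nd (nat_lit 3) (.nd (nat_lit 4) (.nd (nat_lit 5) 
(.lf (nat_lit 40896) (.g (nat_lit 449) (.e (nat_lit 1234) (nat_lit 91) (.e (nat_lit 90172) (nat_lit 14) (.e (nat_lit 188160) (nat_lit 35) .nil))) .nil)) 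
(.lf (nat_lit 40928) (.g (nat_lit 4960) (.e (nat_lit 1234) (nat_lit 91) (.e (nat_lit 90174) (nat_lit 14) (.e (nat_lit 180250) (nat_lit 10) (.e (nat_lit 573489) (nat_lit 14) (.e (nat_lit 73755) (nat_lit 8) (.e (nat_lit 557089) (nat_lit 12) (.e (nat_lit 164006) (nat_lit 41) (.e (nat_lit 663559) (nat_lit 0) .nil)))))))) (.g (nat_lit 7) .nil .nil)))) (.nd (nat_lit 5) 
(.lf (nat_lit 40912) (.g (nat_lit 4128) (.e (nat_lit 1234) (nat_lit 91) (.e (nat_lit 90174) (nat_lit 14) (.e (nat_lit 180250) (nat_lit 10) (.e (nat_lit 573487) (nat_lit 14) (.e (nat_lit 73753) (nat_lit 8) (.e (nat_lit 557089) (nat_lit 12) (.e (nat_lit 164006) (nat_lit 41) (.e (nat_lit 663559) (nat_lit 0) .nil)))))))) (.g (nat_lit 6) .nil .nil))) 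
(.lf (nat_lit 40944) (.g (nat_lit 670) (.e (nat_lit 1234) (nat_lit 91) (.e (nat_lit 90174) (nat_lit 14) (.e (nat_lit 180251) (nat_lit 10) .nil))) .nil)))) (.nd (nat_lit 4) (.nd (nat_lit 5) 
(.lf (nat_lit 40904) (.g (nat_lit 2522) (.e (nat_lit 1234) (nat_lit 91) (.e (nat_lit 90174) (nat_lit 14) (.e (nat_lit 180243) (nat_lit 5) (.e (nat_lit 532513) (nat_lit 3) (.e (nat_lit 114714) (nat_lit 22) (.e (nat_lit 90162) (nat_lit 12) (.e (nat_lit 164007) (nat_lit 41) (.e (nat_lit 663560) (nat_lit 0) .nil)))))))) (.g (nat_lit 4) .nil .nil))) 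
(.lf (nat_lit 40936) (.g (nat_lit 2880) (.e (nat_lit 1234) (nat_lit 91) (.e (nat_lit 90174) (nat_lit 14) (.e (nat_lit 180250) (nat_lit 10) (.e (nat_lit 573489) (nat_lit 14) (.e (nat_lit 73755) (nat_lit 8) (.e (nat_lit 557090) (nat_lit 12) (.e (nat_lit 164007) (nat_lit 41) (.e (nat_lit 663555) (nat_lit 0) .nil)))))))) (.g (nat_lit 4) .nil .nil)))) (.nd (nat_lit 5) 
(.lf (nat_lit 40920) (.g (nat_lit 3488) (.e (nat_lit 1234) (nat_lit 91) (.e (nat_lit 90174) (nat_lit 14) (.e (nat_lit 180250) (nat_lit 10) (.e (nat_lit 573487) (nat_lit 14) (.e (nat_lit 73753) (nat_lit 8) (.e (nat_lit 557091) (nat_lit 12) (.e (nat_lit 164007) (nat_lit 41) (.e (nat_lit 663559) (nat_lit 0) .nil)))))))) (.g (nat_lit 5) .nil .nil))) 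
(.lf (nat_lit 40952) (.g (nat_lit 2819) (.e (nat_lit 1234) (nat_lit 91) (.e (nat_lit 90174) (nat_lit 14) (.e (nat_lit 180251) (nat_lit 10) (.e (nat_lit 573489) (nat_lit 14) (.e (nat_lit 73755) (nat_lit 8) (.e (nat_lit 557089) (nat_lit 12) (.e (nat_lit 164007) (nat_lit 41) (.e (nat_lit 663552) (nat_lit 0) .nil)))))))) (.g (nat_lit 4) .nil .nil)))))) 
(.nd (nat_lit 3) (.nd (nat_lit 4) (.nd (nat_lit 5) 
(.lf (nat_lit 40900) (.g (nat_lit 4426) (.e (nat_lit 1234) (nat_lit 91) (.e (nat_lit 90173) (nat_lit 14) (.e (nat_lit 180252) (nat_lit 10) (.e (nat_lit 573489) (nat_lit 14) (.e (nat_lit 73755) (nat_lit 8) (.e (nat_lit 557090) (nat_lit 12) (.e (nat_lit 164006) (nat_lit 41) (.e (nat_lit 663559) (nat_lit 0) .nil)))))))) (.g (nat_lit 8) .nil .nil))) 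
(.lf (nat_lit 40932) (.g (nat_lit 2786) (.e (nat_lit 1234) (nat_lit 91) (.e (nat_lit 90174) (nat_lit 14) (.e (nat_lit 180250) (nat_lit 10) (.e (nat_lit 573489) (nat_lit 14) (.e (nat_lit 73755) (nat_lit 8) (.e (nat_lit 557089) (nat_lit 12) (.e (nat_lit 164009) (nat_lit 41) (.e (nat_lit 663557) (nat_lit 0) .nil)))))))) (.g (nat_lit 4) .nil .nil)))) (.nd (nat_lit 5) 
(.lf (nat_lit 40916) (.g (nat_lit 2853) (.e (nat_lit 1234) (nat_lit 91) (.e (nat_lit 90174) (nat_lit 14) (.e (nat_lit 180250) (nat_lit 10) (.e (nat_lit 573487) (nat_lit 14) (.e (nat_lit 73753) (nat_lit 8) (.e (nat_lit 557090) (nat_lit 12) (.e (nat_lit 164005) (nat_lit 41) (.e (nat_lit 663559) (nat_lit 0) .nil)))))))) (.g (nat_lit 4) .nil .nil))) 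
(.lf (nat_lit 40948) (.g (nat_lit 4018) (.e (nat_lit 1234) (nat_lit 91) (.e (nat_lit 90174) (nat_lit 14) (.e (nat_lit 180251) (nat_lit 10) (.e (nat_lit 573489) (nat_lit 14) (.e (nat_lit 73755) (nat_lit 8) (.e (nat_lit 557089) (nat_lit 12) (.e (nat_lit 164005) (nat_lit 41) (.e (nat_lit 663559) (nat_lit 0) .nil)))))))) (.g (nat_lit 6) .nil .nil))))) (.nd (nat_lit 4) (.nd (nat_lit 5) 
(.lf (nat_lit 40908) (.g (nat_lit 3202) (.e (nat_lit 1234) (nat_lit 91) (.e (nat_lit 90174) (nat_lit 14) (.e (nat_lit 180250) (nat_lit 10) (.e (nat_lit 573487) (nat_lit 14) (.e (nat_lit 73746) (nat_lit 3) (.e (nat_lit 516120) (nat_lit 1) (.e (nat_lit 164195) (nat_lit 158) (.e (nat_lit 1039) (nat_lit 81) .nil)))))))) (.g (nat_lit 4) .nil .nil))) 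
(.lf (nat_lit 40940) (.g (nat_lit 4011) (.e (nat_lit 1234) (nat_lit 91) (.e (nat_lit 90174) (nat_lit 14) (.e (nat_lit 180250) (nat_lit 10) (.e (nat_lit 573489) (nat_lit 14) (.e (nat_lit 73755) (nat_lit 8) (.e (nat_lit 557091) (nat_lit 12) (.e (nat_lit 164005) (nat_lit 41) (.e (nat_lit 663559) (nat_lit 0) .nil)))))))) (.g (nat_lit 5) .nil .nil)))) (.nd (nat_lit 5) 
(.lf (nat_lit 40924) (.g (nat_lit 3065) (.e (nat_lit 1234) (nat_lit 91) (.e (nat_lit 90174) (nat_lit 14) (.e (nat_lit 180250) (nat_lit 10) (.e (nat_lit 573489) (nat_lit 14) (.e (nat_lit 73754) (nat_lit 8) (.e (nat_lit 557091) (nat_lit 12) (.e (nat_lit 164006) (nat_lit 41) (.e (nat_lit 663559) (nat_lit 0) .nil)))))))) (.g (nat_lit 4) .nil .nil))) 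
(.lf (nat_lit 40956) (.g (nat_lit 2551) (.e (nat_lit 1234) (nat_lit 91) (.e (nat_lit 90174) (nat_lit 14) (.e (nat_lit 180251) (nat_lit 10) (.e (nat_lit 573489) (nat_lit 14) (.e (nat_lit 73755) (nat_lit 8) (.e (nat_lit 557089) (nat_lit 12) (.e (nat_lit 164009) (nat_lit 41) (.e (nat_lit 663556) (nat_lit 0) .nil)))))))) (.g (nat_lit 4) .nil .nil))))))) 
(.nd (nat_lit 2) (.nd (nat_lit 3) (.nd (nat_lit 4) (.nd (nat_lit 5) 
(.lf (nat_lit 40898) (.g (nat_lit 2322) (.e (nat_lit 1234) (nat_lit 91) (.e (nat_lit 90173) (nat_lit 14) (.e (nat_lit 180252) (nat_lit 10) (.e (nat_lit 573489) (nat_lit 14) (.e (nat_lit 73755) (nat_lit 8) (.e (nat_lit 557089) (nat_lit 12) (.e (nat_lit 164006) (nat_lit 41) (.e (nat_lit 663559) (nat_lit 0) .nil)))))))) (.g (nat_lit 4) .nil .nil))) 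
(.lf (nat_lit 40930) (.g (nat_lit 4613) (.e (nat_lit 1234) (nat_lit 91) (.e (nat_lit 90174) (nat_lit 14) (.e (nat_lit 180250) (nat_lit 10) (.e (nat_lit 573489) (nat_lit 14) (.e (nat_lit 73755) (nat_lit 8) (.e (nat_lit 557089) (nat_lit 12) (.e (nat_lit 164007) (nat_lit 41) (.e (nat_lit 663559) (nat_lit 0) .nil)))))))) (.g (nat_lit 6) .nil .nil)))) (.nd (nat_lit 5) 
(.lf (nat_lit 40914) (.g (nat_lit 2832) (.e (nat_lit 1234) (nat_lit 91) (.e (nat_lit 90174) (nat_lit 14) (.e (nat_lit 180250) (nat_lit 10) (.e (nat_lit 573487) (nat_lit 14) (.e (nat_lit 73753) (nat_lit 8) (.e (nat_lit 557089) (nat_lit 12) (.e (nat_lit 164007) (nat_lit 41) (.e (nat_lit 663560) (nat_lit 0) .nil)))))))) (.g (nat_lit 4) .nil .nil))) 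
(.lf (nat_lit 40946) (.g (nat_lit 2869) (.e (nat_lit 1234) (nat_lit 91) (.e (nat_lit 90174) (nat_lit 14) (.e (nat_lit 180251) (nat_lit 10) (.e (nat_lit 573489) (nat_lit 14) (.e (nat_lit 73754) (nat_lit 8) (.e (nat_lit 557093) (nat_lit 12) (.e (nat_lit 164009) (nat_lit 41) (.e (nat_lit 663557) (nat_lit 0) .nil)))))))) (.g (nat_lit 4) .nil .nil))))) (.nd (nat_lit 4) (.nd (nat_lit 5) 
(.lf (nat_lit 40906) (.g (nat_lit 2388) (.e (nat_lit 1234) (nat_lit 91) (.e (nat_lit 90174) (nat_lit 14) (.e (nat_lit 180243) (nat_lit 5) (.e (nat_lit 532515) (nat_lit 3) (.e (nat_lit 114716) (nat_lit 22) (.e (nat_lit 90162) (nat_lit 12) (.e (nat_lit 164007) (nat_lit 41) (.e (nat_lit 663559) (nat_lit 0) .nil)))))))) (.g (nat_lit 4) .nil .nil))) 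
(.lf (nat_lit 40938) (.g (nat_lit 3601) (.e (nat_lit 1234) (nat_lit 91) (.e (nat_lit 90174) (nat_lit 14) (.e (nat_lit 180250) (nat_lit 10) (.e (nat_lit 573489) (nat_lit 14) (.e (nat_lit 73755) (nat_lit 8) (.e (nat_lit 557090) (nat_lit 12) (.e (nat_lit 164008) (nat_lit 41) (.e (nat_lit 663556) (nat_lit 0) .nil)))))))) (.g (nat_lit 5) .nil .nil)))) (.nd (nat_lit 5) 
(.lf (nat_lit 40922) (.g (nat_lit 2785) (.e (nat_lit 1234) (nat_lit 91) (.e (nat_lit 90174) (nat_lit 14) (.e (nat_lit 180250) (nat_lit 10) (.e (nat_lit 573487) (nat_lit 14) (.e (nat_lit 73753) (nat_lit 8) (.e (nat_lit 557093) (nat_lit 12) (.e (nat_lit 164010) (nat_lit 41) (.e (nat_lit 663555) (nat_lit 0) .nil)))))))) (.g (nat_lit 4) .nil .nil))) 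
(.lf (nat_lit 40954) (.g (nat_lit 3876) (.e (nat_lit 1234) (nat_lit 91) (.e (nat_lit 90174) (nat_lit 14) (.e (nat_lit 180251) (nat_lit 10) (.e (nat_lit 573489) (nat_lit 14) (.e (nat_lit 73755) (nat_lit 8) (.e (nat_lit 557089) (nat_lit 12) (.e (nat_lit 164007) (nat_lit 41) (.e (nat_lit 663560) (nat_lit 0) .nil)))))))) (.g (nat_lit 5) .nil .nil)))))) 
(.nd (nat_lit 3) (.nd (nat_lit 4) (.nd (nat_lit 5) 
(.lf (nat_lit 40902) (.g (nat_lit 2261) (.e (nat_lit 1234) (nat_lit 91) (.e (nat_lit 90173) (nat_lit 14) (.e (nat_lit 180252) (nat_lit 10) (.e (nat_lit 573489) (nat_lit 14) (.e (nat_lit 73755) (nat_lit 8) (.e (nat_lit 557090) (nat_lit 12) (.e (nat_lit 164007) (nat_lit 41) (.e (nat_lit 663560) (nat_lit 0) .nil)))))))) (.g (nat_lit 4) .nil .nil))) 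
(.lf (nat_lit 40934) (.g (nat_lit 4985) (.e (nat_lit 1234) (nat_lit 91) (.e (nat_lit 90174) (nat_lit 14) (.e (nat_lit 180250) (nat_lit 10) (.e (nat_lit 573489) (nat_lit 14) (.e (nat_lit 73755) (nat_lit 8) (.e (nat_lit 557090) (nat_lit 12) (.e (nat_lit 164005) (nat_lit 41) (.e (nat_lit 663559) (nat_lit 0) .nil)))))))) (.g (nat_lit 6) .nil .nil)))) (.nd (nat_lit 5) 
(.lf (nat_lit 40918) (.g (nat_lit 3544) (.e (nat_lit 1234) (nat_lit 91) (.e (nat_lit 90174) (nat_lit 14) (.e (nat_lit 180250) (nat_lit 10) (.e (nat_lit 573487) (nat_lit 14) (.e (nat_lit 73753) (nat_lit 8) (.e (nat_lit 557091) (nat_lit 12) (.e (nat_lit 164005) (nat_lit 41) (.e (nat_lit 663559) (nat_lit 0) .nil)))))))) (.g (nat_lit 5) .nil .nil))) 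
(.lf (nat_lit 40950) (.g (nat_lit 5460) (.e (nat_lit 1234) (nat_lit 91) (.e (nat_lit 90174) (nat_lit 14) (.e (nat_lit 180251) (nat_lit 10) (.e (nat_lit 573489) (nat_lit 14) (.e (nat_lit 73755) (nat_lit 8) (.e (nat_lit 557089) (nat_lit 12) (.e (nat_lit 164006) (nat_lit 41) (.e (nat_lit 663559) (nat_lit 0) .nil)))))))) (.g (nat_lit 8) .nil .nil))))) (.nd (nat_lit 4) (.nd (nat_lit 5) 
(.lf (nat_lit 40910) (.g (nat_lit 2823) (.e (nat_lit 1234) (nat_lit 91) (.e (nat_lit 90174) (nat_lit 14) (.e (nat_lit 180250) (nat_lit 10) (.e (nat_lit 573487) (nat_lit 14) (.e (nat_lit 73747) (nat_lit 3) (.e (nat_lit 516119) (nat_lit 1) (.e (nat_lit 164196) (nat_lit 158) (.e (nat_lit 1086) (nat_lit 81) .nil)))))))) (.g (nat_lit 4) .nil .nil))) 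
(.lf (nat_lit 40942) (.g (nat_lit 4269) (.e (nat_lit 1234) (nat_lit 91) (.e (nat_lit 90174) (nat_lit 14) (.e (nat_lit 180250) (nat_lit 10) (.e (nat_lit 573489) (nat_lit 14) (.e (nat_lit 73755) (nat_lit 8) (.e (nat_lit 557091) (nat_lit 12) (.e (nat_lit 164007) (nat_lit 41) (.e (nat_lit 663559) (nat_lit 0) .nil)))))))) (.g (nat_lit 6) .nil .nil)))) (.nd (nat_lit 5) 
(.lf (nat_lit 40926) (.g (nat_lit 2836) (.e (nat_lit 1234) (nat_lit 91) (.e (nat_lit 90174) (nat_lit 14) (.e (nat_lit 180250) (nat_lit 10) (.e (nat_lit 573489) (nat_lit 14) (.e (nat_lit 73754) (nat_lit 8) (.e (nat_lit 557093) (nat_lit 12) (.e (nat_lit 164010) (nat_lit 41) (.e (nat_lit 663555) (nat_lit 0) .nil)))))))) (.g (nat_lit 4) .nil .nil))) 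
(.lf (nat_lit 40958) (.g (nat_lit 2581) (.e (nat_lit 1234) (nat_lit 91) (.e (nat_lit 90174) (nat_lit 14) (.e (nat_lit 180251) (nat_lit 10) (.e (nat_lit 573489) (nat_lit 14) (.e (nat_lit 73755) (nat_lit 8) (.e (nat_lit 557089) (nat_lit 12) (.e (nat_lit 164010) (nat_lit 41) (.e (nat_lit 663552) (nat_lit 0) .nil)))))))) (.g (nat_lit 4) .nil .nil)))))))) 
(.nd (nat_lit 1) (.nd (nat_lit 2) (.nd (nat_lit 3) (.nd (nat_lit 4) (.nd (nat_lit 5) 
(.lf (nat_lit 40897) (.g (nat_lit 651) (.e (nat_lit 1234) (nat_lit 91) (.e (nat_lit 90172) (nat_lit 14) (.e (nat_lit 180284) (nat_lit 45) .nil))) .nil)) 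
(.lf (nat_lit 40929) (.g (nat_lit 2284) (.e (nat_lit 1234) (nat_lit 91) (.e (nat_lit 90174) (nat_lit 14) (.e (nat_lit 180250) (nat_lit 10) (.e (nat_lit 573489) (nat_lit 14) (.e (nat_lit 73755) (nat_lit 8) (.e (nat_lit 557089) (nat_lit 12) (.e (nat_lit 164007) (nat_lit 41) (.e (nat_lit 663552) (nat_lit 0) .nil)))))))) (.g (nat_lit 4) .nil .nil)))) (.nd (nat_lit 5) 
(.lf (nat_lit 40913) (.g (nat_lit 4100) (.e (nat_lit 1234) (nat_lit 91) (.e (nat_lit 90174) (nat_lit 14) (.e (nat_lit 180250) (nat_lit 10) (.e (nat_lit 573487) (nat_lit 14) (.e (nat_lit 73753) (nat_lit 8) (.e (nat_lit 557089) (nat_lit 12) (.e (nat_lit 164007) (nat_lit 41) (.e (nat_lit 663559) (nat_lit 0) .nil)))))))) (.g (nat_lit 6) .nil .nil))) 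
(.lf (nat_lit 40945) (.g (nat_lit 2633) (.e (nat_lit 1234) (nat_lit 91) (.e (nat_lit 90174) (nat_lit 14) (.e (nat_lit 180251) (nat_lit 10) (.e (nat_lit 573487) (nat_lit 14) (.e (nat_lit 73753) (nat_lit 8) (.e (nat_lit 557090) (nat_lit 12) (.e (nat_lit 164006) (nat_lit 41) (.e (nat_lit 663559) (nat_lit 0) .nil)))))))) (.g (nat_lit 4) .nil .nil))))) (.nd (nat_lit 4) (.nd (nat_lit 5) 
(.lf (nat_lit 40905) (.g (nat_lit 2951) (.e (nat_lit 1234) (nat_lit 91) (.e (nat_lit 90174) (nat_lit 14) (.e (nat_lit 180243) (nat_lit 5) (.e (nat_lit 532513) (nat_lit 3) (.e (nat_lit 114714) (nat_lit 22) (.e (nat_lit 90164) (nat_lit 12) (.e (nat_lit 164006) (nat_lit 41) (.e (nat_lit 663559) (nat_lit 0) .nil)))))))) (.g (nat_lit 5) .nil .nil))) 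
(.lf (nat_lit 40937) (.g (nat_lit 3883) (.e (nat_lit 1234) (nat_lit 91) (.e (nat_lit 90174) (nat_lit 14) (.e (nat_lit 180250) (nat_lit 10) (.e (nat_lit 573489) (nat_lit 14) (.e (nat_lit 73755) (nat_lit 8) (.e (nat_lit 557090) (nat_lit 12) (.e (nat_lit 164007) (nat_lit 41) (.e (nat_lit 663560) (nat_lit 0) .nil)))))))) (.g (nat_lit 5) .nil .nil)))) (.nd (nat_lit 5) 
(.lf (nat_lit 40921) (.g (nat_lit 2712) (.e (nat_lit 1234) (nat_lit 91) (.e (nat_lit 90174) (nat_lit 14) (.e (nat_lit 180250) (nat_lit 10) (.e (nat_lit 573487) (nat_lit 14) (.e (nat_lit 73753) (nat_lit 8) (.e (nat_lit 557093) (nat_lit 12) (.e (nat_lit 164009) (nat_lit 41) (.e (nat_lit 663557) (nat_lit 0) .nil)))))))) (.g (nat_lit 4) .nil .nil))) 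
(.lf (nat_lit 40953) (.g (nat_lit 2811) (.e (nat_lit 1234) (nat_lit 91) (.e (nat_lit 90174) (nat_lit 14) (.e (nat_lit 180251) (nat_lit 10) (.e (nat_lit 573489) (nat_lit 14) (.e (nat_lit 73755) (nat_lit 8) (.e (nat_lit 557089) (nat_lit 12) (.e (nat_lit 164007) (nat_lit 41) (.e (nat_lit 663555) (nat_lit 0) .nil)))))))) (.g (nat_lit 4) .nil .nil)))))) 
(.nd (nat_lit 3) (.nd (nat_lit 4) (.nd (nat_lit 5) 
(.lf (nat_lit 40901) (.g (nat_lit 4047) (.e (nat_lit 1234) (nat_lit 91) (.e (nat_lit 90173) (nat_lit 14) (.e (nat_lit 180252) (nat_lit 10) (.e (nat_lit 573489) (nat_lit 14) (.e (nat_lit 73755) (nat_lit 8) (.e (nat_lit 557090) (nat_lit 12) (.e (nat_lit 164007) (nat_lit 41) (.e (nat_lit 663559) (nat_lit 0) .nil)))))))) (.g (nat_lit 7) .nil .nil))) 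
(.lf (nat_lit 40933) (.g (nat_lit 4022) (.e (nat_lit 1234) (nat_lit 91) (.e (nat_lit 90174) (nat_lit 14) (.e (nat_lit 180250) (nat_lit 10) (.e (nat_lit 573489) (nat_lit 14) (.e (nat_lit 73755) (nat_lit 8) (.e (nat_lit 557089) (nat_lit 12) (.e (nat_lit 164010) (nat_lit 41) (.e (nat_lit 663555) (nat_lit 0) .nil)))))))) (.g (nat_lit 5) .nil .nil)))) (.nd (nat_lit 5) 
(.lf (nat_lit 40917) (.g (nat_lit 4715) (.e (nat_lit 1234) (nat_lit 91) (.e (nat_lit 90174) (nat_lit 14) (.e (nat_lit 180250) (nat_lit 10) (.e (nat_lit 573487) (nat_lit 14) (.e (nat_lit 73753) (nat_lit 8) (.e (nat_lit 557090) (nat_lit 12) (.e (nat_lit 164006) (nat_lit 41) (.e (nat_lit 663559) (nat_lit 0) .nil)))))))) (.g (nat_lit 7) .nil .nil))) 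
(.lf (nat_lit 40949) (.g (nat_lit 2457) (.e (nat_lit 1234) (nat_lit 91) (.e (nat_lit 90174) (nat_lit 14) (.e (nat_lit 180251) (nat_lit 10) (.e (nat_lit 573489) (nat_lit 14) (.e (nat_lit 73755) (nat_lit 8) (.e (nat_lit 557089) (nat_lit 12) (.e (nat_lit 164005) (nat_lit 41) (.e (nat_lit 663560) (nat_lit 0) .nil)))))))) (.g (nat_lit 4) .nil .nil))))) (.nd (nat_lit 4) (.nd (nat_lit 5) 
(.lf (nat_lit 40909) (.g (nat_lit 2592) (.e (nat_lit 1234) (nat_lit 91) (.e (nat_lit 90174) (nat_lit 14) (.e (nat_lit 180250) (nat_lit 10) (.e (nat_lit 573487) (nat_lit 14) (.e (nat_lit 73746) (nat_lit 3) (.e (nat_lit 516120) (nat_lit 1) (.e (nat_lit 164195) (nat_lit 158) (.e (nat_lit 1086) (nat_lit 81) .nil)))))))) (.g (nat_lit 4) .nil .nil))) 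
(.lf (nat_lit 40941) (.g (nat_lit 4837) (.e (nat_lit 1234) (nat_lit 91) (.e (nat_lit 90174) (nat_lit 14) (.e (nat_lit 180250) (nat_lit 10) (.e (nat_lit 573489) (nat_lit 14) (.e (nat_lit 73755) (nat_lit 8) (.e (nat_lit 557091) (nat_lit 12) (.e (nat_lit 164006) (nat_lit 41) (.e (nat_lit 663559) (nat_lit 0) .nil)))))))) (.g (nat_lit 6) .nil .nil)))) (.nd (nat_lit 5) 
(.lf (nat_lit 40925) (.g (nat_lit 2763) (.e (nat_lit 1234) (nat_lit 91) (.e (nat_lit 90174) (nat_lit 14) (.e (nat_lit 180250) (nat_lit 10) (.e (nat_lit 573489) (nat_lit 14) (.e (nat_lit 73754) (nat_lit 8) (.e (nat_lit 557093) (nat_lit 12) (.e (nat_lit 164009) (nat_lit 41) (.e (nat_lit 663557) (nat_lit 0) .nil)))))))) (.g (nat_lit 4) .nil .nil))) 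
(.lf (nat_lit 40957) (.g (nat_lit 3321) (.e (nat_lit 1234) (nat_lit 91) (.e (nat_lit 90174) (nat_lit 14) (.e (nat_lit 180251) (nat_lit 10) (.e (nat_lit 573489) (nat_lit 14) (.e (nat_lit 73755) (nat_lit 8) (.e (nat_lit 557089) (nat_lit 12) (.e (nat_lit 164009) (nat_lit 41) (.e (nat_lit 663557) (nat_lit 0) .nil)))))))) (.g (nat_lit 5) .nil .nil))))))) 
(.nd (nat_lit 2) (.nd (nat_lit 3) (.nd (nat_lit 4) (.nd (nat_lit 5) 
(.lf (nat_lit 40899) (.g (nat_lit 3703) (.e (nat_lit 1234) (nat_lit 91) (.e (nat_lit 90173) (nat_lit 14) (.e (nat_lit 180252) (nat_lit 10) (.e (nat_lit 573489) (nat_lit 14) (.e (nat_lit 73755) (nat_lit 8) (.e (nat_lit 557090) (nat_lit 12) (.e (nat_lit 164005) (nat_lit 41) (.e (nat_lit 663559) (nat_lit 0) .nil)))))))) (.g (nat_lit 6) .nil .nil))) 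
(.lf (nat_lit 40931) (.g (nat_lit 3341) (.e (nat_lit 1234) (nat_lit 91) (.e (nat_lit 90174) (nat_lit 14) (.e (nat_lit 180250) (nat_lit 10) (.e (nat_lit 573489) (nat_lit 14) (.e (nat_lit 73755) (nat_lit 8) (.e (nat_lit 557089) (nat_lit 12) (.e (nat_lit 164007) (nat_lit 41) (.e (nat_lit 663560) (nat_lit 0) .nil)))))))) (.g (nat_lit 5) .nil .nil)))) (.nd (nat_lit 5) 
(.lf (nat_lit 40915) (.g (nat_lit 3152) (.e (nat_lit 1234) (nat_lit 91) (.e (nat_lit 90174) (nat_lit 14) (.e (nat_lit 180250) (nat_lit 10) (.e (nat_lit 573487) (nat_lit 14) (.e (nat_lit 73753) (nat_lit 8) (.e (nat_lit 557089) (nat_lit 12) (.e (nat_lit 164010) (nat_lit 41) (.e (nat_lit 663555) (nat_lit 0) .nil)))))))) (.g (nat_lit 4) .nil .nil))) 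
(.lf (nat_lit 40947) (.g (nat_lit 2942) (.e (nat_lit 1234) (nat_lit 91) (.e (nat_lit 90174) (nat_lit 14) (.e (nat_lit 180251) (nat_lit 10) (.e (nat_lit 573489) (nat_lit 14) (.e (nat_lit 73754) (nat_lit 8) (.e (nat_lit 557093) (nat_lit 12) (.e (nat_lit 164010) (nat_lit 41) (.e (nat_lit 663555) (nat_lit 0) .nil)))))))) (.g (nat_lit 4) .nil .nil))))) (.nd (nat_lit 4) (.nd (nat_lit 5) 
(.lf (nat_lit 40907) (.g (nat_lit 2974) (.e (nat_lit 1234) (nat_lit 91) (.e (nat_lit 90174) (nat_lit 14) (.e (nat_lit 180250) (nat_lit 10) (.e (nat_lit 573487) (nat_lit 14) (.e (nat_lit 73746) (nat_lit 3) (.e (nat_lit 516117) (nat_lit 1) (.e (nat_lit 164195) (nat_lit 158) (.e (nat_lit 1086) (nat_lit 81) .nil)))))))) (.g (nat_lit 4) .nil .nil))) 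
(.lf (nat_lit 40939) (.g (nat_lit 4326) (.e (nat_lit 1234) (nat_lit 91) (.e (nat_lit 90174) (nat_lit 14) (.e (nat_lit 180250) (nat_lit 10) (.e (nat_lit 573489) (nat_lit 14) (.e (nat_lit 73755) (nat_lit 8) (.e (nat_lit 557090) (nat_lit 12) (.e (nat_lit 164010) (nat_lit 41) (.e (nat_lit 663555) (nat_lit 0) .nil)))))))) (.g (nat_lit 6) .nil .nil)))) (.nd (nat_lit 5) 
(.lf (nat_lit 40923) (.g (nat_lit 3000) (.e (nat_lit 1234) (nat_lit 91) (.e (nat_lit 90174) (nat_lit 14) (.e (nat_lit 180250) (nat_lit 10) (.e (nat_lit 573488) (nat_lit 14) (.e (nat_lit 73755) (nat_lit 8) (.e (nat_lit 557090) (nat_lit 12) (.e (nat_lit 164006) (nat_lit 41) (.e (nat_lit 663559) (nat_lit 0) .nil)))))))) (.g (nat_lit 4) .nil .nil))) 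
(.lf (nat_lit 40955) (.g (nat_lit 2201) (.e (nat_lit 1234) (nat_lit 91) (.e (nat_lit 90174) (nat_lit 14) (.e (nat_lit 180251) (nat_lit 10) (.e (nat_lit 573489) (nat_lit 14) (.e (nat_lit 73755) (nat_lit 8) (.e (nat_lit 557089) (nat_lit 12) (.e (nat_lit 164007) (nat_lit 41) (.e (nat_lit 671488) (nat_lit 0) .nil)))))))) (.g (nat_lit 4) .nil .nil)))))) 
(.nd (nat_lit 3) (.nd (nat_lit 4) (.nd (nat_lit 5) 
(.lf (nat_lit 40903) (.g (nat_lit 3918) (.e (nat_lit 1234) (nat_lit 91) (.e (nat_lit 90174) (nat_lit 14) (.e (nat_lit 180243) (nat_lit 5) (.e (nat_lit 532513) (nat_lit 3) (.e (nat_lit 114714) (nat_lit 22) (.e (nat_lit 90162) (nat_lit 12) (.e (nat_lit 164007) (nat_lit 41) (.e (nat_lit 663559) (nat_lit 0) .nil)))))))) (.g (nat_lit 6) .nil .nil))) 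
(.lf (nat_lit 40935) (.g (nat_lit 3417) (.e (nat_lit 1234) (nat_lit 91) (.e (nat_lit 90174) (nat_lit 14) (.e (nat_lit 180250) (nat_lit 10) (.e (nat_lit 573489) (nat_lit 14) (.e (nat_lit 73755) (nat_lit 8) (.e (nat_lit 557090) (nat_lit 12) (.e (nat_lit 164005) (nat_lit 41) (.e (nat_lit 663560) (nat_lit 0) .nil)))))))) (.g (nat_lit 5) .nil .nil)))) (.nd (nat_lit 5) 
(.lf (nat_lit 40919) (.g (nat_lit 4425) (.e (nat_lit 1234) (nat_lit 91) (.e (nat_lit 90174) (nat_lit 14) (.e (nat_lit 180250) (nat_lit 10) (.e (nat_lit 573487) (nat_lit 14) (.e (nat_lit 73753) (nat_lit 8) (.e (nat_lit 557091) (nat_lit 12) (.e (nat_lit 164006) (nat_lit 41) (.e (nat_lit 663559) (nat_lit 0) .nil)))))))) (.g (nat_lit 6) .nil .nil))) 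
(.lf (nat_lit 40951) (.g (nat_lit 2483) (.e (nat_lit 1234) (nat_lit 91) (.e (nat_lit 90174) (nat_lit 14) (.e (nat_lit 180251) (nat_lit 10) (.e (nat_lit 573489) (nat_lit 14) (.e (nat_lit 73755) (nat_lit 8) (.e (nat_lit 557089) (nat_lit 12) (.e (nat_lit 164006) (nat_lit 41) (.e (nat_lit 671488) (nat_lit 0) .nil)))))))) (.g (nat_lit 4) .nil .nil))))) (.nd (nat_lit 4) (.nd (nat_lit 5) 
(.lf (nat_lit 40911) (.g (nat_lit 2444) (.e (nat_lit 1234) (nat_lit 91) (.e (nat_lit 90174) (nat_lit 14) (.e (nat_lit 180250) (nat_lit 10) (.e (nat_lit 573487) (nat_lit 14) (.e (nat_lit 73753) (nat_lit 8) (.e (nat_lit 557089) (nat_lit 12) (.e (nat_lit 164005) (nat_lit 41) (.e (nat_lit 663559) (nat_lit 0) .nil)))))))) (.g (nat_lit 4) .nil .nil))) 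
(.lf (nat_lit 40943) (.g (nat_lit 2346) (.e (nat_lit 1234) (nat_lit 91) (.e (nat_lit 90174) (nat_lit 14) (.e (nat_lit 180250) (nat_lit 10) (.e (nat_lit 573489) (nat_lit 14) (.e (nat_lit 73755) (nat_lit 8) (.e (nat_lit 557091) (nat_lit 12) (.e (nat_lit 164008) (nat_lit 41) (.e (nat_lit 663556) (nat_lit 0) .nil)))))))) (.g (nat_lit 4) .nil .nil)))) (.nd (nat_lit 5) 
(.lf (nat_lit 40927) (.g (nat_lit 3518) (.e (nat_lit 1234) (nat_lit 91) (.e (nat_lit 90174) (nat_lit 14) (.e (nat_lit 180250) (nat_lit 10) (.e (nat_lit 573489) (nat_lit 14) (.e (nat_lit 73755) (nat_lit 8) (.e (nat_lit 557089) (nat_lit 12) (.e (nat_lit 164005) (nat_lit 41) (.e (nat_lit 663559) (nat_lit 0) .nil)))))))) (.g (nat_lit 5) .nil .nil))) 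
(.lf (nat_lit 40959) (.g (nat_lit 4557) (.e (nat_lit 1234) (nat_lit 91) (.e (nat_lit 90174) (nat_lit 14) (.e (nat_lit 180251) (nat_lit 10) (.e (nat_lit 573489) (nat_lit 14) (.e (nat_lit 73755) (nat_lit 8) (.e (nat_lit 557089) (nat_lit 12) (.e (nat_lit 164010) (nat_lit 41) (.e (nat_lit 663555) (nat_lit 0) .nil)))))))) (.g (nat_lit 6) .nil .nil)))))))))

noncomputable def tv569 : DT := (.nd (nat_lit 0) (.nd (nat_lit 1) (.nd (nat_lit 2) (.nd (nat_lit 3) (.nd (nat_lit 4) (.nd (nat_lit 5) 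
(.lf (nat_lit 40960) (.g (nat_lit 4872) (.e (nat_lit 1234) (nat_lit 91) (.e (nat_lit 90174) (nat_lit 14) (.e (nat_lit 180251) (nat_lit 10) (.e (nat_lit 573489) (nat_lit 14) (.e (nat_lit 73755) (nat_lit 8) (.e (nat_lit 557090) (nat_lit 12) (.e (nat_lit 164005) (nat_lit 41) (.e (nat_lit 663559) (nat_lit 0) .nil)))))))) (.g (nat_lit 5) .nil .nil))) 
(.lf (nat_lit 40992) (.g (nat_lit 453) (.e (nat_lit 1234) (nat_lit 91) (.e (nat_lit 90176) (nat_lit 15) (.e (nat_lit 196352) (nat_lit 0) .nil))) .nil))) (.nd (nat_lit 5) 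
(.lf (nat_lit 40976) (.g (nat_lit 3595) (.e (nat_lit 1234) (nat_lit 91) (.e (nat_lit 90174) (nat_lit 14) (.e (nat_lit 180252) (nat_lit 10) (.e (nat_lit 573489) (nat_lit 14) (.e (nat_lit 73755) (nat_lit 8) (.e (nat_lit 557090) (nat_lit 12) (.e (nat_lit 164005) (nat_lit 41) (.e (nat_lit 663559) (nat_lit 0) .nil)))))))) (.g (nat_lit 4) .nil .nil))) 
(.lf (nat_lit 41008) (.g (nat_lit 1742) (.e (nat_lit 1234) (nat_lit 91) (.e (nat_lit 90176) (nat_lit 15) (.e (nat_lit 188450) (nat_lit 23) (.e (nat_lit 204819) (nat_lit 17) (.e (nat_lit 6225) (nat_lit 334) .nil))))) .nil)))) (.nd (nat_lit 4) (.nd (nat_lit 5) 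
(.lf (nat_lit 40968) (.g (nat_lit 2388) (.e (nat_lit 1234) (nat_lit 91) (.e (nat_lit 90174) (nat_lit 14) (.e (nat_lit 180251) (nat_lit 10) (.e (nat_lit 573489) (nat_lit 14) (.e (nat_lit 73755) (nat_lit 8) (.e (nat_lit 557091) (nat_lit 12) (.e (nat_lit 164006) (nat_lit 41) (.e (nat_lit 671488) (nat_lit 0) .nil)))))))) (.g (nat_lit 4) .nil .nil))) 
(.lf (nat_lit 41000) (.g (nat_lit 1340) (.e (nat_lit 1234) (nat_lit 91) (.e (nat_lit 90176) (nat_lit 15) (.e (nat_lit 188447) (nat_lit 22) (.e (nat_lit 196661) (nat_lit 12) .nil)))) .nil))) (.nd (nat_lit 5) 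
(.lf (nat_lit 40984) (.g (nat_lit 2949) (.e (nat_lit 1234) (nat_lit 91) (.e (nat_lit 90175) (nat_lit 15) (.e (nat_lit 188452) (nat_lit 23) (.e (nat_lit 204846) (nat_lit 24) (.e (nat_lit 319505) (nat_lit 10) (.e (nat_lit 5351) (nat_lit 298) .nil)))))) (.g (nat_lit 4) .nil .nil))) 
(.lf (nat_lit 41016) (.g (nat_lit 4071) (.e (nat_lit 1234) (nat_lit 91) (.e (nat_lit 90176) (nat_lit 15) (.e (nat_lit 188450) (nat_lit 23) (.e (nat_lit 204846) (nat_lit 24) (.e (nat_lit 319505) (nat_lit 10) (.e (nat_lit 5351) (nat_lit 298) .nil)))))) (.g (nat_lit 5) .nil .nil)))))) (.nd (nat_lit 3) (.nd (nat_lit 4) (.nd (nat_lit 5) 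
(.lf (nat_lit 40964) (.g (nat_lit 2823) (.e (nat_lit 1234) (nat_lit 91) (.e (nat_lit 90174) (nat_lit 14) (.e (nat_lit 180251) (nat_lit 10) (.e (nat_lit 573489) (nat_lit 14) (.e (nat_lit 73755) (nat_lit 8) (.e (nat_lit 557091) (nat_lit 12) (.e (nat_lit 164005) (nat_lit 41) (.e (nat_lit 663557) (nat_lit 0) .nil)))))))) (.g (nat_lit 4) .nil .nil))) 
(.lf (nat_lit 40996) (.g (nat_lit 2096) (.e (nat_lit 1234) (nat_lit 91) (.e (nat_lit 90176) (nat_lit 15) (.e (nat_lit 188439) (nat_lit 20) (.e (nat_lit 3272) (nat_lit 199) (.e (nat_lit 548913) (nat_lit 18) (.e (nat_lit 172034) (nat_lit 0) (.e (nat_lit 7541) (nat_lit 402) .nil))))))) (.g (nat_lit 5) .nil .nil)))) (.nd (nat_lit 5) 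
(.lf (nat_lit 40980) (.g (nat_lit 2862) (.e (nat_lit 1234) (nat_lit 91) (.e (nat_lit 90174) (nat_lit 14) (.e (nat_lit 180277) (nat_lit 32) (.e (nat_lit 1234) (nat_lit 91) (.e (nat_lit 90174) (nat_lit 14) (.e (nat_lit 180277) (nat_lit 32) .nil)))))) (.g (nat_lit 4) .nil .nil))) 
(.lf (nat_lit 41012) (.g (nat_lit 3128) (.e (nat_lit 1234) (nat_lit 91) (.e (nat_lit 90176) (nat_lit 15) (.e (nat_lit 188450) (nat_lit 23) (.e (nat_lit 204846) (nat_lit 24) (.e (nat_lit 319496) (nat_lit 10) (.e (nat_lit 5351) (nat_lit 298) .nil)))))) (.g (nat_lit 4) .nil .nil))))) (.nd (nat_lit 4) (.nd (nat_lit 5) 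
(.lf (nat_lit 40972) (.g (nat_lit 3623) (.e (nat_lit 1234) (nat_lit 91) (.e (nat_lit 90174) (nat_lit 14) (.e (nat_lit 180251) (nat_lit 10) (.e (nat_lit 573489) (nat_lit 14) (.e (nat_lit 73755) (nat_lit 8) (.e (nat_lit 557091) (nat_lit 12) (.e (nat_lit 164007) (nat_lit 41) (.e (nat_lit 663560) (nat_lit 0) .nil)))))))) (.g (nat_lit 5) .nil .nil))) 
(.lf (nat_lit 41004) (.g (nat_lit 2967) (.e (nat_lit 1234) (nat_lit 91) (.e (nat_lit 90176) (nat_lit 15) (.e (nat_lit 188450) (nat_lit 23) (.e (nat_lit 204815) (nat_lit 17) (.e (nat_lit 6712) (nat_lit 360) (.e (nat_lit 164238) (nat_lit 187) .nil)))))) (.g (nat_lit 5) .nil .nil)))) (.nd (nat_lit 5) 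
(.lf (nat_lit 40988) (.g (nat_lit 2511) (.e (nat_lit 1234) (nat_lit 91) (.e (nat_lit 90176) (nat_lit 15) (.e (nat_lit 188420) (nat_lit 0) (.e (nat_lit 1855) (nat_lit 124) (.e (nat_lit 557105) (nat_lit 14) (.e (nat_lit 180278) (nat_lit 32) .nil)))))) (.g (nat_lit 5) .nil .nil))) 
(.lf (nat_lit 41020) (.g (nat_lit 1289) (.e (nat_lit 1234) (nat_lit 91) (.e (nat_lit 90176) (nat_lit 15) (.e (nat_lit 188450) (nat_lit 23) (.e (nat_lit 204849) (nat_lit 25) .nil)))) .nil)))))) (.nd (nat_lit 2) (.nd (nat_lit 3) (.nd (nat_lit 4) (.nd (nat_lit 5) 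
(.lf (nat_lit 40962) (.g (nat_lit 5216) (.e (nat_lit 1234) (nat_lit 91) (.e (nat_lit 90174) (nat_lit 14) (.e (nat_lit 180251) (nat_lit 10) (.e (nat_lit 573489) (nat_lit 14) (.e (nat_lit 73755) (nat_lit 8) (.e (nat_lit 557090) (nat_lit 12) (.e (nat_lit 164007) (nat_lit 41) (.e (nat_lit 663559) (nat_lit 0) .nil)))))))) (.g (nat_lit 6) .nil .nil))) 
(.lf (nat_lit 40994) (.g (nat_lit 2170) (.e (nat_lit 1234) (nat_lit 91) (.e (nat_lit 90176) (nat_lit 15) (.e (nat_lit 188439) (nat_lit 20) (.e (nat_lit 3270) (nat_lit 199) (.e (nat_lit 548913) (nat_lit 18) (.e (nat_lit 172039) (nat_lit 0) (.e (nat_lit 7554) (nat_lit 402) .nil))))))) (.g (nat_lit 5) .nil .nil)))) (.nd (nat_lit 5) 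
(.lf (nat_lit 40978) (.g (nat_lit 3939) (.e (nat_lit 1234) (nat_lit 91) (.e (nat_lit 90174) (nat_lit 14) (.e (nat_lit 180252) (nat_lit 10) (.e (nat_lit 573489) (nat_lit 14) (.e (nat_lit 73755) (nat_lit 8) (.e (nat_lit 557090) (nat_lit 12) (.e (nat_lit 164007) (nat_lit 41) (.e (nat_lit 663559) (nat_lit 0) .nil)))))))) (.g (nat_lit 5) .nil .nil))) 
(.lf (nat_lit 41010) (.g (nat_lit 2734) (.e (nat_lit 1234) (nat_lit 91) (.e (nat_lit 90176) (nat_lit 15) (.e (nat_lit 188450) (nat_lit 23) (.e (nat_lit 204845) (nat_lit 24) (.e (nat_lit 319498) (nat_lit 10) (.e (nat_lit 5349) (nat_lit 298) .nil)))))) (.g (nat_lit 4) .nil .nil))))) (.nd (nat_lit 4) (.nd (nat_lit 5) 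
(.lf (nat_lit 40970) (.g (nat_lit 2469) (.e (nat_lit 1234) (nat_lit 91) (.e (nat_lit 90174) (nat_lit 14) (.e (nat_lit 180251) (nat_lit 10) (.e (nat_lit 573489) (nat_lit 14) (.e (nat_lit 73755) (nat_lit 8) (.e (nat_lit 557091) (nat_lit 12) (.e (nat_lit 164007) (nat_lit 41) (.e (nat_lit 663555) (nat_lit 0) .nil)))))))) (.g (nat_lit 4) .nil .nil))) 
(.lf (nat_lit 41002) (.g (nat_lit 2249) (.e (nat_lit 1234) (nat_lit 91) (.e (nat_lit 90176) (nat_lit 15) (.e (nat_lit 188447) (nat_lit 22) (.e (nat_lit 196666) (nat_lit 13) (.e (nat_lit 65546) (nat_lit 0) .nil))))) .nil))) (.nd (nat_lit 5) 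
(.lf (nat_lit 40986) (.g (nat_lit 1923) (.e (nat_lit 1234) (nat_lit 91) (.e (nat_lit 90176) (nat_lit 15) (.e (nat_lit 188420) (nat_lit 0) (.e (nat_lit 1855) (nat_lit 124) (.e (nat_lit 557104) (nat_lit 14) (.e (nat_lit 180278) (nat_lit 32) .nil)))))) (.g (nat_lit 4) .nil .nil))) 
(.lf (nat_lit 41018) (.g (nat_lit 1511) (.e (nat_lit 1234) (nat_lit 91) (.e (nat_lit 90176) (nat_lit 15) (.e (nat_lit 188450) (nat_lit 23) (.e (nat_lit 204848) (nat_lit 25) (.e (nat_lit 327704) (nat_lit 10) .nil))))) .nil))))) (.nd (nat_lit 3) (.nd (nat_lit 4) (.nd (nat_lit 5) 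
(.lf (nat_lit 40966) (.g (nat_lit 3009) (.e (nat_lit 1234) (nat_lit 91) (.e (nat_lit 90174) (nat_lit 14) (.e (nat_lit 180251) (nat_lit 10) (.e (nat_lit 573489) (nat_lit 14) (.e (nat_lit 73755) (nat_lit 8) (.e (nat_lit 557091) (nat_lit 12) (.e (nat_lit 164005) (nat_lit 41) (.e (nat_lit 663560) (nat_lit 0) .nil)))))))) (.g (nat_lit 4) .nil .nil))) 
(.lf (nat_lit 40998) (.g (nat_lit 3000) (.e (nat_lit 1234) (nat_lit 91) (.e (nat_lit 90176) (nat_lit 15) (.e (nat_lit 188439) (nat_lit 20) (.e (nat_lit 3272) (nat_lit 199) (.e (nat_lit 548913) (nat_lit 18) (.e (nat_lit 172039) (nat_lit 0) (.e (nat_lit 7554) (nat_lit 402) .nil))))))) (.g (nat_lit 6) .nil .nil)))) (.nd (nat_lit 5) 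
(.lf (nat_lit 40982) (.g (nat_lit 3396) (.e (nat_lit 1234) (nat_lit 91) (.e (nat_lit 90175) (nat_lit 15) (.e (nat_lit 188452) (nat_lit 23) (.e (nat_lit 204846) (nat_lit 24) (.e (nat_lit 319504) (nat_lit 10) (.e (nat_lit 5351) (nat_lit 298) .nil)))))) (.g (nat_lit 4) .nil .nil))) 
(.lf (nat_lit 41014) (.g (nat_lit 4474) (.e (nat_lit 1234) (nat_lit 91) (.e (nat_lit 90176) (nat_lit 15) (.e (nat_lit 188450) (nat_lit 23) (.e (nat_lit 204846) (nat_lit 24) (.e (nat_lit 319504) (nat_lit 10) (.e (nat_lit 5351) (nat_lit 298) .nil)))))) (.g (nat_lit 5) .nil .nil))))) (.nd (nat_lit 4) (.nd (nat_lit 5) 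
(.lf (nat_lit 40974) (.g (nat_lit 2527) (.e (nat_lit 1234) (nat_lit 91) (.e (nat_lit 90174) (nat_lit 14) (.e (nat_lit 180251) (nat_lit 10) (.e (nat_lit 573489) (nat_lit 14) (.e (nat_lit 73755) (nat_lit 8) (.e (nat_lit 557091) (nat_lit 12) (.e (nat_lit 164010) (nat_lit 41) (.e (nat_lit 663555) (nat_lit 0) .nil)))))))) (.g (nat_lit 4) .nil .nil))) 
(.lf (nat_lit 41006) (.g (nat_lit 1695) (.e (nat_lit 1234) (nat_lit 91) (.e (nat_lit 90176) (nat_lit 15) (.e (nat_lit 188450) (nat_lit 23) (.e (nat_lit 204816) (nat_lit 17) (.e (nat_lit 6714) (nat_lit 360) .nil))))) .nil))) (.nd (nat_lit 5) 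
(.lf (nat_lit 40990) (.g (nat_lit 1981) (.e (nat_lit 1234) (nat_lit 91) (.e (nat_lit 90176) (nat_lit 15) (.e (nat_lit 188420) (nat_lit 0) (.e (nat_lit 1856) (nat_lit 124) (.e (nat_lit 557103) (nat_lit 14) (.e (nat_lit 188160) (nat_lit 32) .nil)))))) (.g (nat_lit 5) .nil .nil))) 
(.lf (nat_lit 41022) (.g (nat_lit 1299) (.e (nat_lit 1234) (nat_lit 91) (.e (nat_lit 90176) (nat_lit 15) (.e (nat_lit 188450) (nat_lit 23) (.e (nat_lit 204863) (nat_lit 27) .nil)))) .nil))))))) (.nd (nat_lit 1) (.nd (nat_lit 2) (.nd (nat_lit 3) (.nd (nat_lit 4) (.nd (nat_lit 5) 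
(.lf (nat_lit 40961) (.g (nat_lit 5594) (.e (nat_lit 1234) (nat_lit 91) (.e (nat_lit 90174) (nat_lit 14) (.e (nat_lit 180251) (nat_lit 10) (.e (nat_lit 573489) (nat_lit 14) (.e (nat_lit 73755) (nat_lit 8) (.e (nat_lit 557090) (nat_lit 12) (.e (nat_lit 164006) (nat_lit 41) (.e (nat_lit 663559) (nat_lit 0) .nil)))))))) (.g (nat_lit 6) .nil .nil))) 
(.lf (nat_lit 40993) (.g (nat_lit 414) (.e (nat_lit 1234) (nat_lit 91) (.e (nat_lit 90176) (nat_lit 15) (.e (nat_lit 188439) (nat_lit 20) .nil))) .nil))) (.nd (nat_lit 5) 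
(.lf (nat_lit 40977) (.g (nat_lit 4317) (.e (nat_lit 1234) (nat_lit 91) (.e (nat_lit 90174) (nat_lit 14) (.e (nat_lit 180252) (nat_lit 10) (.e (nat_lit 573489) (nat_lit 14) (.e (nat_lit 73755) (nat_lit 8) (.e (nat_lit 557090) (nat_lit 12) (.e (nat_lit 164006) (nat_lit 41) (.e (nat_lit 663559) (nat_lit 0) .nil)))))))) (.g (nat_lit 5) .nil .nil))) 
(.lf (nat_lit 41009) (.g (nat_lit 1193) (.e (nat_lit 1234) (nat_lit 91) (.e (nat_lit 90176) (nat_lit 15) (.e (nat_lit 188450) (nat_lit 23) (.e (nat_lit 204821) (nat_lit 17) .nil)))) .nil)))) (.nd (nat_lit 4) (.nd (nat_lit 5) 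
(.lf (nat_lit 40969) (.g (nat_lit 2557) (.e (nat_lit 1234) (nat_lit 91) (.e (nat_lit 90174) (nat_lit 14) (.e (nat_lit 180251) (nat_lit 10) (.e (nat_lit 573489) (nat_lit 14) (.e (nat_lit 73755) (nat_lit 8) (.e (nat_lit 557091) (nat_lit 12) (.e (nat_lit 164007) (nat_lit 41) (.e (nat_lit 663552) (nat_lit 0) .nil)))))))) (.g (nat_lit 4) .nil .nil))) 
(.lf (nat_lit 41001) (.g (nat_lit 2340) (.e (nat_lit 1234) (nat_lit 91) (.e (nat_lit 90176) (nat_lit 15) (.e (nat_lit 188447) (nat_lit 22) (.e (nat_lit 196661) (nat_lit 12) (.e (nat_lit 57722) (nat_lit 178) (.e (nat_lit 123207) (nat_lit 270) .nil)))))) (.g (nat_lit 4) .nil .nil)))) (.nd (nat_lit 5) 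
(.lf (nat_lit 40985) (.g (nat_lit 1929) (.e (nat_lit 1234) (nat_lit 91) (.e (nat_lit 90176) (nat_lit 15) (.e (nat_lit 188418) (nat_lit 0) (.e (nat_lit 1856) (nat_lit 124) (.e (nat_lit 557105) (nat_lit 14) (.e (nat_lit 180277) (nat_lit 32) .nil)))))) (.g (nat_lit 4) .nil .nil))) 
(.lf (nat_lit 41017) (.g (nat_lit 3663) (.e (nat_lit 1234) (nat_lit 91) (.e (nat_lit 90176) (nat_lit 15) (.e (nat_lit 188450) (nat_lit 23) (.e (nat_lit 204846) (nat_lit 24) (.e (nat_lit 319506) (nat_lit 10) (.e (nat_lit 5371) (nat_lit 298) .nil)))))) (.g (nat_lit 6) .nil .nil)))))) (.nd (nat_lit 3) (.nd (nat_lit 4) (.nd (nat_lit 5) 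
(.lf (nat_lit 40965) (.g (nat_lit 4633) (.e (nat_lit 1234) (nat_lit 91) (.e (nat_lit 90174) (nat_lit 14) (.e (nat_lit 180251) (nat_lit 10) (.e (nat_lit 573489) (nat_lit 14) (.e (nat_lit 73755) (nat_lit 8) (.e (nat_lit 557091) (nat_lit 12) (.e (nat_lit 164005) (nat_lit 41) (.e (nat_lit 663559) (nat_lit 0) .nil)))))))) (.g (nat_lit 6) .nil .nil))) 
(.lf (nat_lit 40997) (.g (nat_lit 1714) (.e (nat_lit 1234) (nat_lit 91) (.e (nat_lit 90176) (nat_lit 15) (.e (nat_lit 188439) (nat_lit 20) (.e (nat_lit 3272) (nat_lit 199) (.e (nat_lit 548913) (nat_lit 18) (.e (nat_lit 172036) (nat_lit 0) (.e (nat_lit 7559) (nat_lit 402) .nil))))))) (.g (nat_lit 4) .nil .nil)))) (.nd (nat_lit 5) 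
(.lf (nat_lit 40981) (.g (nat_lit 2864) (.e (nat_lit 1234) (nat_lit 91) (.e (nat_lit 90174) (nat_lit 14) (.e (nat_lit 180277) (nat_lit 32) (.e (nat_lit 1235) (nat_lit 91) (.e (nat_lit 90174) (nat_lit 14) (.e (nat_lit 180277) (nat_lit 32) .nil)))))) (.g (nat_lit 5) .nil .nil))) 
(.lf (nat_lit 41013) (.g (nat_lit 3317) (.e (nat_lit 1234) (nat_lit 91) (.e (nat_lit 90176) (nat_lit 15) (.e (nat_lit 188450) (nat_lit 23) (.e (nat_lit 204846) (nat_lit 24) (.e (nat_lit 319498) (nat_lit 10) (.e (nat_lit 5349) (nat_lit 298) .nil)))))) (.g (nat_lit 4) .nil .nil))))) (.nd (nat_lit 4) (.nd (nat_lit 5) 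
(.lf (nat_lit 40973) (.g (nat_lit 3003) (.e (nat_lit 1234) (nat_lit 91) (.e (nat_lit 90174) (nat_lit 14) (.e (nat_lit 180251) (nat_lit 10) (.e (nat_lit 573489) (nat_lit 14) (.e (nat_lit 73755) (nat_lit 8) (.e (nat_lit 557091) (nat_lit 12) (.e (nat_lit 164008) (nat_lit 41) (.e (nat_lit 663556) (nat_lit 0) .nil)))))))) (.g (nat_lit 4) .nil .nil))) 
(.lf (nat_lit 41005) (.g (nat_lit 3170) (.e (nat_lit 1234) (nat_lit 91) (.e (nat_lit 90176) (nat_lit 15) (.e (nat_lit 188450) (nat_lit 23) (.e (nat_lit 204816) (nat_lit 17) (.e (nat_lit 6712) (nat_lit 360) (.e (nat_lit 164238) (nat_lit 187) .nil)))))) (.g (nat_lit 5) .nil .nil)))) (.nd (nat_lit 5) 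
(.lf (nat_lit 40989) (.g (nat_lit 2922) (.e (nat_lit 1234) (nat_lit 91) (.e (nat_lit 90176) (nat_lit 15) (.e (nat_lit 188420) (nat_lit 0) (.e (nat_lit 1856) (nat_lit 124) (.e (nat_lit 557103) (nat_lit 14) (.e (nat_lit 180277) (nat_lit 32) .nil)))))) (.g (nat_lit 6) .nil .nil))) 
(.lf (nat_lit 41021) (.g (nat_lit 3182) (.e (nat_lit 1234) (nat_lit 91) (.e (nat_lit 90176) (nat_lit 15) (.e (nat_lit 188450) (nat_lit 23) (.e (nat_lit 204849) (nat_lit 25) (.e (nat_lit 327705) (nat_lit 10) (.e (nat_lit 5371) (nat_lit 298) .nil)))))) (.g (nat_lit 6) .nil .nil))))))) (.nd (nat_lit 2) (.nd (nat_lit 3) (.nd (nat_lit 4) (.nd (nat_lit 5) 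
(.lf (nat_lit 40963) (.g (nat_lit 4248) (.e (nat_lit 1234) (nat_lit 91) (.e (nat_lit 90174) (nat_lit 14) (.e (nat_lit 180251) (nat_lit 10) (.e (nat_lit 573489) (nat_lit 14) (.e (nat_lit 73755) (nat_lit 8) (.e (nat_lit 557090) (nat_lit 12) (.e (nat_lit 164010) (nat_lit 41) (.e (nat_lit 663555) (nat_lit 0) .nil)))))))) (.g (nat_lit 5) .nil .nil))) 
(.lf (nat_lit 40995) (.g (nat_lit 2163) (.e (nat_lit 1234) (nat_lit 91) (.e (nat_lit 90176) (nat_lit 15) (.e (nat_lit 188439) (nat_lit 20) (.e (nat_lit 3271) (nat_lit 199) (.e (nat_lit 548913) (nat_lit 18) (.e (nat_lit 172039) (nat_lit 0) (.e (nat_lit 7554) (nat_lit 402) .nil))))))) (.g (nat_lit 5) .nil .nil)))) (.nd (nat_lit 5) 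
(.lf (nat_lit 40979) (.g (nat_lit 3001) (.e (nat_lit 1234) (nat_lit 91) (.e (nat_lit 90174) (nat_lit 14) (.e (nat_lit 180252) (nat_lit 10) (.e (nat_lit 573489) (nat_lit 14) (.e (nat_lit 73755) (nat_lit 8) (.e (nat_lit 557090) (nat_lit 12) (.e (nat_lit 164009) (nat_lit 41) (.e (nat_lit 663557) (nat_lit 0) .nil)))))))) (.g (nat_lit 4) .nil .nil))) 
(.lf (nat_lit 41011) (.g (nat_lit 2489) (.e (nat_lit 1234) (nat_lit 91) (.e (nat_lit 90176) (nat_lit 15) (.e (nat_lit 188450) (nat_lit 23) (.e (nat_lit 204845) (nat_lit 24) (.e (nat_lit 319505) (nat_lit 10) (.e (nat_lit 5351) (nat_lit 298) .nil)))))) (.g (nat_lit 4) .nil .nil))))) (.nd (nat_lit 4) (.nd (nat_lit 5) 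
(.lf (nat_lit 40971) (.g (nat_lit 4891) (.e (nat_lit 1234) (nat_lit 91) (.e (nat_lit 90174) (nat_lit 14) (.e (nat_lit 180251) (nat_lit 10) (.e (nat_lit 573489) (nat_lit 14) (.e (nat_lit 73755) (nat_lit 8) (.e (nat_lit 557091) (nat_lit 12) (.e (nat_lit 164007) (nat_lit 41) (.e (nat_lit 663559) (nat_lit 0) .nil)))))))) (.g (nat_lit 7) .nil .nil))) 
(.lf (nat_lit 41003) (.g (nat_lit 1219) (.e (nat_lit 1234) (nat_lit 91) (.e (nat_lit 90176) (nat_lit 15) (.e (nat_lit 188450) (nat_lit 23) (.e (nat_lit 204815) (nat_lit 17) .nil)))) .nil))) (.nd (nat_lit 5) 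
(.lf (nat_lit 40987) (.g (nat_lit 2569) (.e (nat_lit 1234) (nat_lit 91) (.e (nat_lit 90176) (nat_lit 15) (.e (nat_lit 188420) (nat_lit 0) (.e (nat_lit 1855) (nat_lit 124) (.e (nat_lit 557105) (nat_lit 14) (.e (nat_lit 180277) (nat_lit 32) .nil)))))) (.g (nat_lit 6) .nil .nil))) 
(.lf (nat_lit 41019) (.g (nat_lit 2276) (.e (nat_lit 1234) (nat_lit 91) (.e (nat_lit 90176) (nat_lit 15) (.e (nat_lit 188450) (nat_lit 23) (.e (nat_lit 204848) (nat_lit 25) (.e (nat_lit 327705) (nat_lit 10) (.e (nat_lit 5371) (nat_lit 298) .nil)))))) (.g (nat_lit 4) .nil .nil)))))) (.nd (nat_lit 3) (.nd (nat_lit 4) (.nd (nat_lit 5) 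
(.lf (nat_lit 40967) (.g (nat_lit 5459) (.e (nat_lit 1234) (nat_lit 91) (.e (nat_lit 90174) (nat_lit 14) (.e (nat_lit 180251) (nat_lit 10) (.e (nat_lit 573489) (nat_lit 14) (.e (nat_lit 73755) (nat_lit 8) (.e (nat_lit 557091) (nat_lit 12) (.e (nat_lit 164006) (nat_lit 41) (.e (nat_lit 663559) (nat_lit 0) .nil)))))))) (.g (nat_lit 0) .nil .nil))) 
(.lf (nat_lit 40999) (.g (nat_lit 1378) (.e (nat_lit 1234) (nat_lit 91) (.e (nat_lit 90176) (nat_lit 15) (.e (nat_lit 188439) (nat_lit 20) (.e (nat_lit 3272) (nat_lit 199) (.e (nat_lit 548914) (nat_lit 19) (.e (nat_lit 188160) (nat_lit 32) .nil)))))) (.g (nat_lit 4) .nil .nil)))) (.nd (nat_lit 5) 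
(.lf (nat_lit 40983) (.g (nat_lit 3388) (.e (nat_lit 1234) (nat_lit 91) (.e (nat_lit 90175) (nat_lit 15) (.e (nat_lit 188452) (nat_lit 23) (.e (nat_lit 204846) (nat_lit 24) (.e (nat_lit 319504) (nat_lit 10) (.e (nat_lit 7936) (nat_lit 298) .nil)))))) (.g (nat_lit 5) .nil .nil))) 
(.lf (nat_lit 41015) (.g (nat_lit 4005) (.e (nat_lit 1234) (nat_lit 91) (.e (nat_lit 90176) (nat_lit 15) (.e (nat_lit 188450) (nat_lit 23) (.e (nat_lit 204846) (nat_lit 24) (.e (nat_lit 319504) (nat_lit 10) (.e (nat_lit 7936) (nat_lit 298) .nil)))))) (.g (nat_lit 5) .nil .nil))))) (.nd (nat_lit 4) (.nd (nat_lit 5) 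
(.lf (nat_lit 40975) (.g (nat_lit 2711) (.e (nat_lit 1234) (nat_lit 91) (.e (nat_lit 90174) (nat_lit 14) (.e (nat_lit 180252) (nat_lit 10) (.e (nat_lit 573489) (nat_lit 14) (.e (nat_lit 73755) (nat_lit 8) .nil))))) .nil)) 
(.lf (nat_lit 41007) (.g (nat_lit 2100) (.e (nat_lit 1234) (nat_lit 91) (.e (nat_lit 90176) (nat_lit 15) (.e (nat_lit 188450) (nat_lit 23) (.e (nat_lit 204816) (nat_lit 17) (.e (nat_lit 6714) (nat_lit 360) (.e (nat_lit 164239) (nat_lit 187) .nil)))))) (.g (nat_lit 4) .nil .nil)))) (.nd (nat_lit 5) 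
(.lf (nat_lit 40991) (.g (nat_lit 3104) (.e (nat_lit 1234) (nat_lit 91) (.e (nat_lit 90176) (nat_lit 15) (.e (nat_lit 188420) (nat_lit 0) (.e (nat_lit 1856) (nat_lit 124) (.e (nat_lit 557105) (nat_lit 14) (.e (nat_lit 180277) (nat_lit 32) .nil)))))) (.g (nat_lit 0) .nil .nil))) 
(.lf (nat_lit 41023) (.g (nat_lit 3124) (.e (nat_lit 1234) (nat_lit 91) (.e (nat_lit 90176) (nat_lit 15) (.e (nat_lit 188450) (nat_lit 23) (.e (nat_lit 204885) (nat_lit 33) (.e (nat_lit 401414) (nat_lit 0) (.e (nat_lit 7556) (nat_lit 402) .nil)))))) (.g (nat_lit 0) .nil .nil)))))))))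

noncomputable def tv570 : DT := (.nd (nat_lit 0) (.nd (nat_lit 1) (.nd (nat_lit 2) (.nd (nat_lit 3) (.nd (nat_lit 4) (.nd (nat_lit 5) 
(.lf (nat_lit 41024) (.g (nat_lit 2053) (.e (nat_lit 1234) (nat_lit 91) (.e (nat_lit 90176) (nat_lit 15) (.e (nat_lit 188450) (nat_lit 23) (.e (nat_lit 204885) (nat_lit 33) (.e (nat_lit 401416) (nat_lit 0) (.e (nat_lit 7556) (nat_lit 402) .nil)))))) (.g (nat_lit 4) .nil .nil))) 
(.lf (nat_lit 41056) (.g (nat_lit 2980) (.e (nat_lit 1234) (nat_lit 91) (.e (nat_lit 90185) (nat_lit 17) (.e (nat_lit 237589) (nat_lit 2) (.e (nat_lit 196661) (nat_lit 12) (.e (nat_lit 65280) (nat_lit 57) (.e (nat_lit 794669) (nat_lit 22) (.e (nat_lit 196658) (nat_lit 12) (.e (nat_lit 57508) (nat_lit 39) (.e (nat_lit 647195) (nat_lit 9) .nil))))))))) (.g (nat_lit 4) .nil .nil)))) (.nd (nat_lit 5) 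
(.lf (nat_lit 41040) (.g (nat_lit 526) (.e (nat_lit 1234) (nat_lit 91) (.e (nat_lit 90178) (nat_lit 15) (.e (nat_lit 196352) (nat_lit 0) .nil))) .nil)) 
(.lf (nat_lit 41072) (.g (nat_lit 2228) (.e (nat_lit 1234) (nat_lit 91) (.e (nat_lit 90185) (nat_lit 17) (.e (nat_lit 237601) (nat_lit 9) (.e (nat_lit 426566) (nat_lit 34) (.e (nat_lit 393232) (nat_lit 17) (.e (nat_lit 3432) (nat_lit 213) (.e (nat_lit 663559) (nat_lit 0) .nil))))))) (.g (nat_lit 4) .nil .nil))))) (.nd (nat_lit 4) (.nd (nat_lit 5) 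
(.lf (nat_lit 41032) (.g (nat_lit 2237) (.e (nat_lit 1234) (nat_lit 91) (.e (nat_lit 90177) (nat_lit 15) (.e (nat_lit 188452) (nat_lit 23) (.e (nat_lit 204885) (nat_lit 33) .nil)))) .nil)) 
(.lf (nat_lit 41064) (.g (nat_lit 1332) (.e (nat_lit 1234) (nat_lit 91) (.e (nat_lit 90185) (nat_lit 17) (.e (nat_lit 237594) (nat_lit 3) (.e (nat_lit 204809) (nat_lit 9) .nil)))) .nil))) (.nd (nat_lit 5) 
(.lf (nat_lit 41048) (.g (nat_lit 4491) (.e (nat_lit 1234) (nat_lit 91) (.e (nat_lit 90178) (nat_lit 15) (.e (nat_lit 188452) (nat_lit 23) (.e (nat_lit 204846) (nat_lit 24) (.e (nat_lit 319504) (nat_lit 10) .nil))))) .nil)) 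
(.lf (nat_lit 41080) (.g (nat_lit 3828) (.e (nat_lit 1234) (nat_lit 91) (.e (nat_lit 90185) (nat_lit 17) (.e (nat_lit 237604) (nat_lit 9) (.e (nat_lit 426131) (nat_lit 3) (.e (nat_lit 204846) (nat_lit 24) (.e (nat_lit 319505) (nat_lit 10) (.e (nat_lit 5351) (nat_lit 298) .nil))))))) (.g (nat_lit 6) .nil .nil)))))) (.nd (nat_lit 3) (.nd (nat_lit 4) (.nd (nat_lit 5) 
(.lf (nat_lit 41028) (.g (nat_lit 3739) (.e (nat_lit 1234) (nat_lit 91) (.e (nat_lit 90176) (nat_lit 15) (.e (nat_lit 188452) (nat_lit 23) (.e (nat_lit 204846) (nat_lit 24) (.e (nat_lit 319505) (nat_lit 10) .nil))))) .nil)) 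
(.lf (nat_lit 41060) (.g (nat_lit 840) (.e (nat_lit 1234) (nat_lit 91) (.e (nat_lit 90185) (nat_lit 17) (.e (nat_lit 237592) (nat_lit 3) .nil))) .nil))) (.nd (nat_lit 5) 
(.lf (nat_lit 41044) (.g (nat_lit 2611) (.e (nat_lit 1234) (nat_lit 91) (.e (nat_lit 90178) (nat_lit 15) (.e (nat_lit 188440) (nat_lit 20) (.e (nat_lit 3272) (nat_lit 199) (.e (nat_lit 548914) (nat_lit 19) (.e (nat_lit 180277) (nat_lit 32) .nil)))))) (.g (nat_lit 5) .nil .nil))) 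
(.lf (nat_lit 41076) (.g (nat_lit 1126) (.e (nat_lit 1234) (nat_lit 91) (.e (nat_lit 90185) (nat_lit 17) (.e (nat_lit 237603) (nat_lit 9) .nil))) .nil)))) (.nd (nat_lit 4) (.nd (nat_lit 5) 
(.lf (nat_lit 41036) (.g (nat_lit 3637) (.e (nat_lit 1234) (nat_lit 91) (.e (nat_lit 90178) (nat_lit 15) (.e (nat_lit 188418) (nat_lit 0) (.e (nat_lit 1856) (nat_lit 124) (.e (nat_lit 557103) (nat_lit 14) (.e (nat_lit 180278) (nat_lit 32) .nil)))))) (.g (nat_lit 0) .nil .nil))) 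
(.lf (nat_lit 41068) (.g (nat_lit 4075) (.e (nat_lit 1234) (nat_lit 91) (.e (nat_lit 90185) (nat_lit 17) (.e (nat_lit 237601) (nat_lit 9) (.e (nat_lit 426131) (nat_lit 3) (.e (nat_lit 204846) (nat_lit 24) (.e (nat_lit 319504) (nat_lit 10) (.e (nat_lit 7936) (nat_lit 298) .nil))))))) (.g (nat_lit 6) .nil .nil)))) (.nd (nat_lit 5) 
(.lf (nat_lit 41052) (.g (nat_lit 1126) (.e (nat_lit 1234) (nat_lit 91) (.e (nat_lit 90185) (nat_lit 17) (.e (nat_lit 237572) (nat_lit 0) .nil))) .nil)) 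
(.lf (nat_lit 41084) (.g (nat_lit 1397) (.e (nat_lit 1234) (nat_lit 91) (.e (nat_lit 90185) (nat_lit 17) (.e (nat_lit 237605) (nat_lit 9) (.e (nat_lit 426128) (nat_lit 2) (.e (nat_lit 196628) (nat_lit 9) .nil))))) .nil)))))) (.nd (nat_lit 2) (.nd (nat_lit 3) (.nd (nat_lit 4) (.nd (nat_lit 5) 
(.lf (nat_lit 41026) (.g (nat_lit 3927) (.e (nat_lit 1234) (nat_lit 91) (.e (nat_lit 90176) (nat_lit 15) (.e (nat_lit 188452) (nat_lit 23) (.e (nat_lit 204846) (nat_lit 24) (.e (nat_lit 319504) (nat_lit 10) (.e (nat_lit 5351) (nat_lit 298) .nil)))))) (.g (nat_lit 4) .nil .nil))) 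
(.lf (nat_lit 41058) (.g (nat_lit 2443) (.e (nat_lit 1234) (nat_lit 91) (.e (nat_lit 90185) (nat_lit 17) (.e (nat_lit 237590) (nat_lit 2) (.e (nat_lit 196624) (nat_lit 9) (.e (nat_lit 442) (nat_lit 33) .nil))))) .nil))) (.nd (nat_lit 5) 
(.lf (nat_lit 41042) (.g (nat_lit 1322) (.e (nat_lit 1234) (nat_lit 91) (.e (nat_lit 90178) (nat_lit 15) (.e (nat_lit 188440) (nat_lit 20) (.e (nat_lit 3272) (nat_lit 199) .nil)))) .nil)) 
(.lf (nat_lit 41074) (.g (nat_lit 2419) (.e (nat_lit 1234) (nat_lit 91) (.e (nat_lit 90185) (nat_lit 17) (.e (nat_lit 237601) (nat_lit 9) (.e (nat_lit 426566) (nat_lit 34) (.e (nat_lit 393233) (nat_lit 17) (.e (nat_lit 3431) (nat_lit 213) (.e (nat_lit 663559) (nat_lit 0) .nil))))))) (.g (nat_lit 5) .nil .nil))))) (.nd (nat_lit 4) (.nd (nat_lit 5) 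
(.lf (nat_lit 41034) (.g (nat_lit 1642) (.e (nat_lit 1234) (nat_lit 91) (.e (nat_lit 90178) (nat_lit 15) (.e (nat_lit 188418) (nat_lit 0) (.e (nat_lit 1855) (nat_lit 124) (.e (nat_lit 557105) (nat_lit 14) (.e (nat_lit 180277) (nat_lit 32) .nil)))))) (.g (nat_lit 4) .nil .nil))) 
(.lf (nat_lit 41066) (.g (nat_lit 484) (.e (nat_lit 1234) (nat_lit 91) (.e (nat_lit 90185) (nat_lit 17) (.e (nat_lit 237601) (nat_lit 9) .nil))) .nil))) (.nd (nat_lit 5) 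
(.lf (nat_lit 41050) (.g (nat_lit 2800) (.e (nat_lit 1234) (nat_lit 91) (.e (nat_lit 90178) (nat_lit 15) (.e (nat_lit 188452) (nat_lit 23) (.e (nat_lit 204885) (nat_lit 33) .nil)))) .nil)) 
(.lf (nat_lit 41082) (.g (nat_lit 1324) (.e (nat_lit 1234) (nat_lit 91) (.e (nat_lit 90185) (nat_lit 17) (.e (nat_lit 237604) (nat_lit 9) (.e (nat_lit 426402) (nat_lit 15) (.e (nat_lit 1848) (nat_lit 124) .nil))))) .nil))))) (.nd (nat_lit 3) (.nd (nat_lit 4) (.nd (nat_lit 5) 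
(.lf (nat_lit 41030) (.g (nat_lit 2809) (.e (nat_lit 1234) (nat_lit 91) (.e (nat_lit 90177) (nat_lit 15) (.e (nat_lit 188452) (nat_lit 23) (.e (nat_lit 204846) (nat_lit 24) .nil)))) .nil)) 
(.lf (nat_lit 41062) (.g (nat_lit 1126) (.e (nat_lit 1234) (nat_lit 91) (.e (nat_lit 90185) (nat_lit 17) (.e (nat_lit 237593) (nat_lit 3) .nil))) .nil))) (.nd (nat_lit 5) 
(.lf (nat_lit 41046) (.g (nat_lit 1800) (.e (nat_lit 1234) (nat_lit 91) (.e (nat_lit 90178) (nat_lit 15) (.e (nat_lit 188441) (nat_lit 20) (.e (nat_lit 3272) (nat_lit 199) (.e (nat_lit 548913) (nat_lit 18) .nil))))) .nil)) 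
(.lf (nat_lit 41078) (.g (nat_lit 4692) (.e (nat_lit 1234) (nat_lit 91) (.e (nat_lit 90185) (nat_lit 17) (.e (nat_lit 237604) (nat_lit 9) (.e (nat_lit 426131) (nat_lit 3) (.e (nat_lit 204846) (nat_lit 24) (.e (nat_lit 319504) (nat_lit 10) (.e (nat_lit 5351) (nat_lit 298) .nil))))))) (.g (nat_lit 6) .nil .nil))))) (.nd (nat_lit 4) (.nd (nat_lit 5) 
(.lf (nat_lit 41038) (.g (nat_lit 3091) (.e (nat_lit 1234) (nat_lit 91) (.e (nat_lit 90178) (nat_lit 15) (.e (nat_lit 188418) (nat_lit 0) (.e (nat_lit 1856) (nat_lit 124) (.e (nat_lit 557104) (nat_lit 14) (.e (nat_lit 180278) (nat_lit 32) .nil)))))) (.g (nat_lit 6) .nil .nil))) 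
(.lf (nat_lit 41070) (.g (nat_lit 1761) (.e (nat_lit 1234) (nat_lit 91) (.e (nat_lit 90185) (nat_lit 17) (.e (nat_lit 237601) (nat_lit 9) (.e (nat_lit 426402) (nat_lit 15) (.e (nat_lit 1848) (nat_lit 124) (.e (nat_lit 557104) (nat_lit 14) (.e (nat_lit 180277) (nat_lit 32) .nil))))))) (.g (nat_lit 4) .nil .nil)))) (.nd (nat_lit 5) 
(.lf (nat_lit 41054) (.g (nat_lit 909) (.e (nat_lit 1234) (nat_lit 91) (.e (nat_lit 90185) (nat_lit 17) (.e (nat_lit 237587) (nat_lit 2) .nil))) .nil)) 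
(.lf (nat_lit 41086) (.g (nat_lit 3591) (.e (nat_lit 1234) (nat_lit 91) (.e (nat_lit 90185) (nat_lit 17) (.e (nat_lit 237605) (nat_lit 9) (.e (nat_lit 426130) (nat_lit 3) (.e (nat_lit 204846) (nat_lit 24) (.e (nat_lit 319504) (nat_lit 10) (.e (nat_lit 7936) (nat_lit 298) .nil))))))) (.g (nat_lit 6) .nil .nil)))))))) 
(.nd (nat_lit 1) (.nd (nat_lit 2) (.nd (nat_lit 3) (.nd (nat_lit 4) (.nd (nat_lit 5) 
(.lf (nat_lit 41025) (.g (nat_lit 2714) (.e (nat_lit 1234) (nat_lit 91) (.e (nat_lit 90176) (nat_lit 15) (.e (nat_lit 188452) (nat_lit 23) (.e (nat_lit 204816) (nat_lit 17) .nil)))) .nil)) 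
(.lf (nat_lit 41057) (.g (nat_lit 954) (.e (nat_lit 1234) (nat_lit 91) (.e (nat_lit 90185) (nat_lit 17) (.e (nat_lit 237590) (nat_lit 2) .nil))) .nil))) (.nd (nat_lit 5) 
(.lf (nat_lit 41041) (.g (nat_lit 1355) (.e (nat_lit 1234) (nat_lit 91) (.e (nat_lit 90178) (nat_lit 15) (.e (nat_lit 188440) (nat_lit 20) (.e (nat_lit 3271) (nat_lit 199) .nil)))) .nil)) 
(.lf (nat_lit 41073) (.g (nat_lit 1213) (.e (nat_lit 1234) (nat_lit 91) (.e (nat_lit 90185) (nat_lit 17) (.e (nat_lit 237601) (nat_lit 9) (.e (nat_lit 426566) (nat_lit 34) (.e (nat_lit 393233) (nat_lit 17) .nil))))) .nil)))) (.nd (nat_lit 4) (.nd (nat_lit 5) 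
(.lf (nat_lit 41033) (.g (nat_lit 1655) (.e (nat_lit 1234) (nat_lit 91) (.e (nat_lit 90178) (nat_lit 15) (.e (nat_lit 188418) (nat_lit 0) (.e (nat_lit 1846) (nat_lit 124) (.e (nat_lit 557104) (nat_lit 14) (.e (nat_lit 180278) (nat_lit 32) .nil)))))) (.g (nat_lit 4) .nil .nil))) 
(.lf (nat_lit 41065) (.g (nat_lit 2610) (.e (nat_lit 1234) (nat_lit 91) (.e (nat_lit 90185) (nat_lit 17) (.e (nat_lit 237594) (nat_lit 3) (.e (nat_lit 204830) (nat_lit 18) (.e (nat_lit 57691) (nat_lit 156) (.e (nat_lit 163875) (nat_lit 3) (.e (nat_lit 204834) (nat_lit 19) (.e (nat_lit 106517) (nat_lit 9) .nil)))))))) (.g (nat_lit 4) .nil .nil)))) (.nd (nat_lit 5) 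
(.lf (nat_lit 41049) (.g (nat_lit 4269) (.e (nat_lit 1234) (nat_lit 91) (.e (nat_lit 90178) (nat_lit 15) (.e (nat_lit 188452) (nat_lit 23) (.e (nat_lit 204846) (nat_lit 24) (.e (nat_lit 319505) (nat_lit 10) .nil))))) .nil)) 
(.lf (nat_lit 41081) (.g (nat_lit 1074) (.e (nat_lit 1234) (nat_lit 91) (.e (nat_lit 90185) (nat_lit 17) (.e (nat_lit 237604) (nat_lit 9) (.e (nat_lit 426402) (nat_lit 15) .nil)))) .nil))))) (.nd (nat_lit 3) (.nd (nat_lit 4) (.nd (nat_lit 5) 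
(.lf (nat_lit 41029) (.g (nat_lit 2430) (.e (nat_lit 1234) (nat_lit 91) (.e (nat_lit 90176) (nat_lit 15) (.e (nat_lit 188452) (nat_lit 23) (.e (nat_lit 204885) (nat_lit 33) .nil)))) .nil)) 
(.lf (nat_lit 41061) (.g (nat_lit 3568) (.e (nat_lit 1234) (nat_lit 91) (.e (nat_lit 90185) (nat_lit 17) (.e (nat_lit 237592) (nat_lit 3) (.e (nat_lit 212736) (nat_lit 10) (.e (nat_lit 434248) (nat_lit 28) (.e (nat_lit 573475) (nat_lit 12) (.e (nat_lit 57508) (nat_lit 39) (.e (nat_lit 647195) (nat_lit 9) .nil)))))))) (.g (nat_lit 6) .nil .nil)))) (.nd (nat_lit 5) 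
(.lf (nat_lit 41045) (.g (nat_lit 1229) (.e (nat_lit 1234) (nat_lit 91) (.e (nat_lit 90178) (nat_lit 15) (.e (nat_lit 188441) (nat_lit 20) (.e (nat_lit 3271) (nat_lit 199) .nil)))) .nil)) 
(.lf (nat_lit 41077) (.g (nat_lit 827) (.e (nat_lit 1234) (nat_lit 91) (.e (nat_lit 90185) (nat_lit 17) (.e (nat_lit 237604) (nat_lit 9) .nil))) .nil)))) (.nd (nat_lit 4) (.nd (nat_lit 5) 
(.lf (nat_lit 41037) (.g (nat_lit 2356) (.e (nat_lit 1234) (nat_lit 91) (.e (nat_lit 90178) (nat_lit 15) (.e (nat_lit 188418) (nat_lit 0) (.e (nat_lit 1856) (nat_lit 124) (.e (nat_lit 557103) (nat_lit 14) (.e (nat_lit 188160) (nat_lit 32) .nil)))))) (.g (nat_lit 5) .nil .nil))) 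
(.lf (nat_lit 41069) (.g (nat_lit 3054) (.e (nat_lit 1234) (nat_lit 91) (.e (nat_lit 90185) (nat_lit 17) (.e (nat_lit 237601) (nat_lit 9) (.e (nat_lit 426131) (nat_lit 3) (.e (nat_lit 204846) (nat_lit 24) (.e (nat_lit 319505) (nat_lit 10) (.e (nat_lit 5351) (nat_lit 298) .nil))))))) (.g (nat_lit 6) .nil .nil)))) (.nd (nat_lit 5) 
(.lf (nat_lit 41053) (.g (nat_lit 1126) (.e (nat_lit 1234) (nat_lit 91) (.e (nat_lit 90185) (nat_lit 17) (.e (nat_lit 237573) (nat_lit 0) .nil))) .nil)) 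
(.lf (nat_lit 41085) (.g (nat_lit 3588) (.e (nat_lit 1234) (nat_lit 91) (.e (nat_lit 90185) (nat_lit 17) (.e (nat_lit 237605) (nat_lit 9) (.e (nat_lit 426130) (nat_lit 3) (.e (nat_lit 204846) (nat_lit 24) (.e (nat_lit 319504) (nat_lit 10) (.e (nat_lit 5351) (nat_lit 298) .nil))))))) (.g (nat_lit 6) .nil .nil))))))) (.nd (nat_lit 2) (.nd (nat_lit 3) (.nd (nat_lit 4) (.nd (nat_lit 5) 
(.lf (nat_lit 41027) (.g (nat_lit 4019) (.e (nat_lit 1234) (nat_lit 91) (.e (nat_lit 90176) (nat_lit 15) (.e (nat_lit 188452) (nat_lit 23) (.e (nat_lit 204846) (nat_lit 24) (.e (nat_lit 319504) (nat_lit 10) (.e (nat_lit 7936) (nat_lit 298) .nil)))))) (.g (nat_lit 4) .nil .nil))) 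
(.lf (nat_lit 41059) (.g (nat_lit 1126) (.e (nat_lit 1234) (nat_lit 91) (.e (nat_lit 90185) (nat_lit 17) (.e (nat_lit 237591) (nat_lit 3) .nil))) .nil))) (.nd (nat_lit 5) 
(.lf (nat_lit 41043) (.g (nat_lit 2267) (.e (nat_lit 1234) (nat_lit 91) (.e (nat_lit 90178) (nat_lit 15) (.e (nat_lit 188440) (nat_lit 20) (.e (nat_lit 3272) (nat_lit 199) (.e (nat_lit 548913) (nat_lit 18) (.e (nat_lit 172039) (nat_lit 0) (.e (nat_lit 7554) (nat_lit 402) .nil))))))) (.g (nat_lit 4) .nil .nil))) 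
(.lf (nat_lit 41075) (.g (nat_lit 1126) (.e (nat_lit 1234) (nat_lit 91) (.e (nat_lit 90185) (nat_lit 17) (.e (nat_lit 237602) (nat_lit 9) .nil))) .nil)))) (.nd (nat_lit 4) (.nd (nat_lit 5) 
(.lf (nat_lit 41035) (.g (nat_lit 3136) (.e (nat_lit 1234) (nat_lit 91) (.e (nat_lit 90178) (nat_lit 15) (.e (nat_lit 188418) (nat_lit 0) (.e (nat_lit 1856) (nat_lit 124) (.e (nat_lit 557103) (nat_lit 14) (.e (nat_lit 180277) (nat_lit 32) .nil)))))) (.g (nat_lit 6) .nil .nil))) 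
(.lf (nat_lit 41067) (.g (nat_lit 4078) (.e (nat_lit 1234) (nat_lit 91) (.e (nat_lit 90185) (nat_lit 17) (.e (nat_lit 237601) (nat_lit 9) (.e (nat_lit 426131) (nat_lit 3) (.e (nat_lit 204846) (nat_lit 24) (.e (nat_lit 319504) (nat_lit 10) (.e (nat_lit 5351) (nat_lit 298) .nil))))))) (.g (nat_lit 6) .nil .nil)))) (.nd (nat_lit 5) 
(.lf (nat_lit 41051) (.g (nat_lit 1126) (.e (nat_lit 1234) (nat_lit 91) (.e (nat_lit 90185) (nat_lit 17) (.e (nat_lit 237568) (nat_lit 0) .nil))) .nil)) 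
(.lf (nat_lit 41083) (.g (nat_lit 413) (.e (nat_lit 1234) (nat_lit 91) (.e (nat_lit 90185) (nat_lit 17) (.e (nat_lit 237605) (nat_lit 9) .nil))) .nil))))) (.nd (nat_lit 3) (.nd (nat_lit 4) (.nd (nat_lit 5) 
(.lf (nat_lit 41031) (.g (nat_lit 3224) (.e (nat_lit 1234) (nat_lit 91) (.e (nat_lit 90177) (nat_lit 15) (.e (nat_lit 188452) (nat_lit 23) (.e (nat_lit 204846) (nat_lit 24) (.e (nat_lit 319504) (nat_lit 10) .nil))))) .nil)) 
(.lf (nat_lit 41063) (.g (nat_lit 1126) (.e (nat_lit 1234) (nat_lit 91) (.e (nat_lit 90185) (nat_lit 17) (.e (nat_lit 237594) (nat_lit 3) .nil))) .nil))) (.nd (nat_lit 5) 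
(.lf (nat_lit 41047) (.g (nat_lit 3111) (.e (nat_lit 1234) (nat_lit 91) (.e (nat_lit 90178) (nat_lit 15) (.e (nat_lit 188451) (nat_lit 23) (.e (nat_lit 204846) (nat_lit 24) (.e (nat_lit 319504) (nat_lit 10) (.e (nat_lit 7936) (nat_lit 298) .nil)))))) (.g (nat_lit 5) .nil .nil))) 
(.lf (nat_lit 41079) (.g (nat_lit 4689) (.e (nat_lit 1234) (nat_lit 91) (.e (nat_lit 90185) (nat_lit 17) (.e (nat_lit 237604) (nat_lit 9) (.e (nat_lit 426131) (nat_lit 3) (.e (nat_lit 204846) (nat_lit 24) (.e (nat_lit 319504) (nat_lit 10) (.e (nat_lit 7936) (nat_lit 298) .nil))))))) (.g (nat_lit 6) .nil .nil))))) (.nd (nat_lit 4) (.nd (nat_lit 5) 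
(.lf (nat_lit 41039) (.g (nat_lit 695) (.e (nat_lit 1234) (nat_lit 91) (.e (nat_lit 90178) (nat_lit 15) (.e (nat_lit 188419) (nat_lit 0) .nil))) .nil)) 
(.lf (nat_lit 41071) (.g (nat_lit 1766) (.e (nat_lit 1234) (nat_lit 91) (.e (nat_lit 90185) (nat_lit 17) (.e (nat_lit 237601) (nat_lit 9) (.e (nat_lit 426566) (nat_lit 34) (.e (nat_lit 393232) (nat_lit 17) (.e (nat_lit 3431) (nat_lit 213) (.e (nat_lit 663559) (nat_lit 0) .nil))))))) (.g (nat_lit 4) .nil .nil)))) (.nd (nat_lit 5) 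
(.lf (nat_lit 41055) (.g (nat_lit 1126) (.e (nat_lit 1234) (nat_lit 91) (.e (nat_lit 90185) (nat_lit 17) (.e (nat_lit 237589) (nat_lit 2) .nil))) .nil)) 
(.lf (nat_lit 41087) (.g (nat_lit 794) (.e (nat_lit 1234) (nat_lit 91) (.e (nat_lit 90185) (nat_lit 17) (.e (nat_lit 237605) (nat_lit 9) (.e (nat_lit 426131) (nat_lit 3) .nil)))) .nil))))))))

noncomputable def tv571 : DT := (.nd (nat_lit 0) (.nd (nat_lit 1) (.nd (nat_lit 2) (.nd (nat_lit 3) (.nd (nat_lit 4) (.nd (nat_lit 5) 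
(.lf (nat_lit 41088) (.g (nat_lit 5059) (.e (nat_lit 1234) (nat_lit 91) (.e (nat_lit 90185) (nat_lit 17) (.e (nat_lit 237605) (nat_lit 9) (.e (nat_lit 426131) (nat_lit 3) (.e (nat_lit 204846) (nat_lit 24) (.e (nat_lit 319504) (nat_lit 10) (.e (nat_lit 5351) (nat_lit 298) .nil))))))) (.g (nat_lit 6) .nil .nil))) 
(.lf (nat_lit 41120) (.g (nat_lit 2254) (.e (nat_lit 1234) (nat_lit 91) (.e (nat_lit 90185) (nat_lit 17) (.e (nat_lit 237617) (nat_lit 12) (.e (nat_lit 475185) (nat_lit 29) (.e (nat_lit 557103) (nat_lit 14) (.e (nat_lit 180277) (nat_lit 32) .nil)))))) (.g (nat_lit 4) .nil .nil)))) (.nd (nat_lit 5) 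
(.lf (nat_lit 41104) (.g (nat_lit 1596) (.e (nat_lit 1234) (nat_lit 91) (.e (nat_lit 90185) (nat_lit 17) (.e (nat_lit 237605) (nat_lit 9) (.e (nat_lit 426402) (nat_lit 15) (.e (nat_lit 1859) (nat_lit 124) (.e (nat_lit 557105) (nat_lit 14) (.e (nat_lit 180278) (nat_lit 32) .nil))))))) (.g (nat_lit 4) .nil .nil))) 
(.lf (nat_lit 41136) (.g (nat_lit 668) (.e (nat_lit 1234) (nat_lit 91) (.e (nat_lit 90185) (nat_lit 17) (.e (nat_lit 237621) (nat_lit 13) .nil))) .nil)))) (.nd (nat_lit 4) (.nd (nat_lit 5) 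
(.lf (nat_lit 41096) (.g (nat_lit 3810) (.e (nat_lit 1234) (nat_lit 91) (.e (nat_lit 90185) (nat_lit 17) (.e (nat_lit 237605) (nat_lit 9) (.e (nat_lit 426131) (nat_lit 3) (.e (nat_lit 204880) (nat_lit 32) (.e (nat_lit 385087) (nat_lit 46) (.e (nat_lit 753696) (nat_lit 13) .nil))))))) (.g (nat_lit 0) .nil .nil))) 
(.lf (nat_lit 41128) (.g (nat_lit 2389) (.e (nat_lit 1234) (nat_lit 91) (.e (nat_lit 90185) (nat_lit 17) (.e (nat_lit 237618) (nat_lit 12) (.e (nat_lit 475185) (nat_lit 29) (.e (nat_lit 557105) (nat_lit 14) (.e (nat_lit 180278) (nat_lit 32) .nil)))))) (.g (nat_lit 4) .nil .nil)))) (.nd (nat_lit 5) 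
(.lf (nat_lit 41112) (.g (nat_lit 2518) (.e (nat_lit 1234) (nat_lit 91) (.e (nat_lit 90185) (nat_lit 17) (.e (nat_lit 237615) (nat_lit 12) (.e (nat_lit 475185) (nat_lit 29) (.e (nat_lit 557103) (nat_lit 14) (.e (nat_lit 180278) (nat_lit 32) .nil)))))) (.g (nat_lit 4) .nil .nil))) 
(.lf (nat_lit 41144) (.g (nat_lit 2919) (.e (nat_lit 1234) (nat_lit 91) (.e (nat_lit 90203) (nat_lit 21) (.e (nat_lit 164358) (nat_lit 246) (.e (nat_lit 100) (nat_lit 2) (.e (nat_lit 90170) (nat_lit 13) (.e (nat_lit 172065) (nat_lit 3) (.e (nat_lit 204834) (nat_lit 19) (.e (nat_lit 106517) (nat_lit 9) .nil)))))))) (.g (nat_lit 6) .nil .nil)))))) (.nd (nat_lit 3) (.nd (nat_lit 4) (.nd (nat_lit 5) 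
(.lf (nat_lit 41092) (.g (nat_lit 1668) (.e (nat_lit 1234) (nat_lit 91) (.e (nat_lit 90185) (nat_lit 17) (.e (nat_lit 237605) (nat_lit 9) (.e (nat_lit 426131) (nat_lit 3) (.e (nat_lit 204873) (nat_lit 30) (.e (nat_lit 368689) (nat_lit 34) (.e (nat_lit 622598) (nat_lit 5) .nil))))))) (.g (nat_lit 4) .nil .nil))) 
(.lf (nat_lit 41124) (.g (nat_lit 2145) (.e (nat_lit 1234) (nat_lit 91) (.e (nat_lit 90185) (nat_lit 17) (.e (nat_lit 237618) (nat_lit 12) (.e (nat_lit 475183) (nat_lit 29) (.e (nat_lit 557104) (nat_lit 14) (.e (nat_lit 180278) (nat_lit 32) .nil)))))) (.g (nat_lit 4) .nil .nil)))) (.nd (nat_lit 5) 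
(.lf (nat_lit 41108) (.g (nat_lit 2427) (.e (nat_lit 1234) (nat_lit 91) (.e (nat_lit 90185) (nat_lit 17) (.e (nat_lit 237605) (nat_lit 9) (.e (nat_lit 426566) (nat_lit 34) (.e (nat_lit 393233) (nat_lit 17) (.e (nat_lit 3432) (nat_lit 213) (.e (nat_lit 663559) (nat_lit 0) .nil))))))) (.g (nat_lit 5) .nil .nil))) 
(.lf (nat_lit 41140) (.g (nat_lit 743) (.e (nat_lit 1234) (nat_lit 91) (.e (nat_lit 90185) (nat_lit 17) (.e (nat_lit 237624) (nat_lit 13) .nil))) .nil)))) (.nd (nat_lit 4) (.nd (nat_lit 5) 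
(.lf (nat_lit 41100) (.g (nat_lit 1145) (.e (nat_lit 1234) (nat_lit 91) (.e (nat_lit 90185) (nat_lit 17) (.e (nat_lit 237605) (nat_lit 9) (.e (nat_lit 433920) (nat_lit 3) .nil)))) .nil)) 
(.lf (nat_lit 41132) (.g (nat_lit 2952) (.e (nat_lit 1234) (nat_lit 91) (.e (nat_lit 90185) (nat_lit 17) (.e (nat_lit 237619) (nat_lit 12) (.e (nat_lit 475185) (nat_lit 29) (.e (nat_lit 557105) (nat_lit 14) (.e (nat_lit 180277) (nat_lit 32) .nil)))))) (.g (nat_lit 0) .nil .nil)))) (.nd (nat_lit 5) 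
(.lf (nat_lit 41116) (.g (nat_lit 2725) (.e (nat_lit 1234) (nat_lit 91) (.e (nat_lit 90185) (nat_lit 17) (.e (nat_lit 237616) (nat_lit 12) (.e (nat_lit 475185) (nat_lit 29) (.e (nat_lit 557105) (nat_lit 14) (.e (nat_lit 180277) (nat_lit 32) .nil)))))) (.g (nat_lit 0) .nil .nil))) 
(.lf (nat_lit 41148) (.g (nat_lit 1205) (.e (nat_lit 1235) (nat_lit 91) (.e (nat_lit 98048) (nat_lit 5) (.e (nat_lit 73754) (nat_lit 8) (.e (nat_lit 557101) (nat_lit 13) (.e (nat_lit 172051) (nat_lit 0) (.e (nat_lit 3205) (nat_lit 194) (.e (nat_lit 507939) (nat_lit 12) (.e (nat_lit 40967) (nat_lit 0) .nil)))))))) (.g (nat_lit 4) .nil .nil))))))) 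
(.nd (nat_lit 2) (.nd (nat_lit 3) (.nd (nat_lit 4) (.nd (nat_lit 5) 
(.lf (nat_lit 41090) (.g (nat_lit 1678) (.e (nat_lit 1234) (nat_lit 91) (.e (nat_lit 90185) (nat_lit 17) (.e (nat_lit 237605) (nat_lit 9) (.e (nat_lit 426131) (nat_lit 3) (.e (nat_lit 204849) (nat_lit 25) (.e (nat_lit 327705) (nat_lit 10) (.e (nat_lit 5371) (nat_lit 298) .nil))))))) (.g (nat_lit 4) .nil .nil))) 
(.lf (nat_lit 41122) (.g (nat_lit 2079) (.e (nat_lit 1234) (nat_lit 91) (.e (nat_lit 90185) (nat_lit 17) (.e (nat_lit 237617) (nat_lit 12) (.e (nat_lit 475185) (nat_lit 29) (.e (nat_lit 557105) (nat_lit 14) (.e (nat_lit 180278) (nat_lit 32) .nil)))))) (.g (nat_lit 4) .nil .nil)))) (.nd (nat_lit 5) 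
(.lf (nat_lit 41106) (.g (nat_lit 1852) (.e (nat_lit 1234) (nat_lit 91) (.e (nat_lit 90185) (nat_lit 17) (.e (nat_lit 237605) (nat_lit 9) (.e (nat_lit 426566) (nat_lit 34) (.e (nat_lit 393232) (nat_lit 17) (.e (nat_lit 3432) (nat_lit 213) (.e (nat_lit 663559) (nat_lit 0) .nil))))))) (.g (nat_lit 4) .nil .nil))) 
(.lf (nat_lit 41138) (.g (nat_lit 1055) (.e (nat_lit 1234) (nat_lit 91) (.e (nat_lit 90185) (nat_lit 17) (.e (nat_lit 237623) (nat_lit 13) .nil))) .nil)))) (.nd (nat_lit 4) (.nd (nat_lit 5) 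
(.lf (nat_lit 41098) (.g (nat_lit 2584) (.e (nat_lit 1234) (nat_lit 91) (.e (nat_lit 90185) (nat_lit 17) (.e (nat_lit 237605) (nat_lit 9) (.e (nat_lit 426131) (nat_lit 3) (.e (nat_lit 204882) (nat_lit 32) (.e (nat_lit 385087) (nat_lit 46) (.e (nat_lit 753696) (nat_lit 13) .nil))))))) (.g (nat_lit 5) .nil .nil))) 
(.lf (nat_lit 41130) (.g (nat_lit 3225) (.e (nat_lit 1234) (nat_lit 91) (.e (nat_lit 90185) (nat_lit 17) (.e (nat_lit 237619) (nat_lit 12) (.e (nat_lit 475185) (nat_lit 29) (.e (nat_lit 557103) (nat_lit 14) (.e (nat_lit 180278) (nat_lit 32) .nil)))))) (.g (nat_lit 0) .nil .nil)))) (.nd (nat_lit 5) 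
(.lf (nat_lit 41114) (.g (nat_lit 3012) (.e (nat_lit 1234) (nat_lit 91) (.e (nat_lit 90185) (nat_lit 17) (.e (nat_lit 237616) (nat_lit 12) (.e (nat_lit 475185) (nat_lit 29) (.e (nat_lit 557103) (nat_lit 14) (.e (nat_lit 180278) (nat_lit 32) .nil)))))) (.g (nat_lit 0) .nil .nil))) 
(.lf (nat_lit 41146) (.g (nat_lit 2572) (.e (nat_lit 1235) (nat_lit 91) (.e (nat_lit 98048) (nat_lit 5) (.e (nat_lit 73753) (nat_lit 8) (.e (nat_lit 557103) (nat_lit 14) (.e (nat_lit 180244) (nat_lit 5) (.e (nat_lit 532519) (nat_lit 5) (.e (nat_lit 147456) (nat_lit 0) .nil))))))) (.g (nat_lit 5) .nil .nil)))))) (.nd (nat_lit 3) (.nd (nat_lit 4) (.nd (nat_lit 5) 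
(.lf (nat_lit 41094) (.g (nat_lit 2019) (.e (nat_lit 1234) (nat_lit 91) (.e (nat_lit 90185) (nat_lit 17) (.e (nat_lit 237605) (nat_lit 9) (.e (nat_lit 426131) (nat_lit 3) (.e (nat_lit 204880) (nat_lit 32) (.e (nat_lit 385087) (nat_lit 46) (.e (nat_lit 753693) (nat_lit 13) .nil))))))) (.g (nat_lit 4) .nil .nil))) 
(.lf (nat_lit 41126) (.g (nat_lit 3087) (.e (nat_lit 1234) (nat_lit 91) (.e (nat_lit 90185) (nat_lit 17) (.e (nat_lit 237618) (nat_lit 12) (.e (nat_lit 475184) (nat_lit 29) (.e (nat_lit 557105) (nat_lit 14) (.e (nat_lit 180277) (nat_lit 32) .nil)))))) (.g (nat_lit 5) .nil .nil)))) (.nd (nat_lit 5) 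
(.lf (nat_lit 41110) (.g (nat_lit 1126) (.e (nat_lit 1234) (nat_lit 91) (.e (nat_lit 90185) (nat_lit 17) (.e (nat_lit 237609) (nat_lit 9) .nil))) .nil)) 
(.lf (nat_lit 41142) (.g (nat_lit 1269) (.e (nat_lit 1234) (nat_lit 91) (.e (nat_lit 90185) (nat_lit 17) (.e (nat_lit 237624) (nat_lit 13) (.e (nat_lit 491264) (nat_lit 10) .nil)))) .nil)))) (.nd (nat_lit 4) (.nd (nat_lit 5) 
(.lf (nat_lit 41102) (.g (nat_lit 3240) (.e (nat_lit 1234) (nat_lit 91) (.e (nat_lit 90185) (nat_lit 17) (.e (nat_lit 237605) (nat_lit 9) (.e (nat_lit 426402) (nat_lit 15) (.e (nat_lit 1849) (nat_lit 124) (.e (nat_lit 557104) (nat_lit 14) (.e (nat_lit 180278) (nat_lit 32) .nil))))))) (.g (nat_lit 7) .nil .nil))) 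
(.lf (nat_lit 41134) (.g (nat_lit 2273) (.e (nat_lit 1234) (nat_lit 91) (.e (nat_lit 90185) (nat_lit 17) (.e (nat_lit 237619) (nat_lit 12) (.e (nat_lit 475185) (nat_lit 29) (.e (nat_lit 557105) (nat_lit 14) (.e (nat_lit 188160) (nat_lit 32) .nil)))))) (.g (nat_lit 5) .nil .nil)))) (.nd (nat_lit 5) 
(.lf (nat_lit 41118) (.g (nat_lit 2047) (.e (nat_lit 1234) (nat_lit 91) (.e (nat_lit 90185) (nat_lit 17) (.e (nat_lit 237616) (nat_lit 12) (.e (nat_lit 475185) (nat_lit 29) (.e (nat_lit 557105) (nat_lit 14) (.e (nat_lit 188160) (nat_lit 32) .nil)))))) (.g (nat_lit 5) .nil .nil))) 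
(.lf (nat_lit 41150) (.g (nat_lit 1462) (.e (nat_lit 1235) (nat_lit 91) (.e (nat_lit 90134) (nat_lit 9) (.e (nat_lit 140) (nat_lit 8) (.e (nat_lit 147496) (nat_lit 11) (.e (nat_lit 24603) (nat_lit 2) .nil))))) .nil))))))) (.nd (nat_lit 1) (.nd (nat_lit 2) (.nd (nat_lit 3) (.nd (nat_lit 4) (.nd (nat_lit 5) 
(.lf (nat_lit 41089) (.g (nat_lit 5061) (.e (nat_lit 1234) (nat_lit 91) (.e (nat_lit 90185) (nat_lit 17) (.e (nat_lit 237605) (nat_lit 9) (.e (nat_lit 426131) (nat_lit 3) (.e (nat_lit 204846) (nat_lit 24) (.e (nat_lit 319504) (nat_lit 10) (.e (nat_lit 7936) (nat_lit 298) .nil))))))) (.g (nat_lit 6) .nil .nil))) 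
(.lf (nat_lit 41121) (.g (nat_lit 2129) (.e (nat_lit 1234) (nat_lit 91) (.e (nat_lit 90185) (nat_lit 17) (.e (nat_lit 237617) (nat_lit 12) (.e (nat_lit 475185) (nat_lit 29) (.e (nat_lit 557105) (nat_lit 14) (.e (nat_lit 180277) (nat_lit 32) .nil)))))) (.g (nat_lit 4) .nil .nil)))) (.nd (nat_lit 5) 
(.lf (nat_lit 41105) (.g (nat_lit 909) (.e (nat_lit 1234) (nat_lit 91) (.e (nat_lit 90185) (nat_lit 17) (.e (nat_lit 237605) (nat_lit 9) (.e (nat_lit 426566) (nat_lit 34) .nil)))) .nil)) 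
(.lf (nat_lit 41137) (.g (nat_lit 1044) (.e (nat_lit 1234) (nat_lit 91) (.e (nat_lit 90185) (nat_lit 17) (.e (nat_lit 237621) (nat_lit 13) (.e (nat_lit 483337) (nat_lit 9) .nil)))) .nil)))) (.nd (nat_lit 4) (.nd (nat_lit 5) 
(.lf (nat_lit 41097) (.g (nat_lit 1654) (.e (nat_lit 1234) (nat_lit 91) (.e (nat_lit 90185) (nat_lit 17) (.e (nat_lit 237605) (nat_lit 9) (.e (nat_lit 426131) (nat_lit 3) (.e (nat_lit 204882) (nat_lit 32) (.e (nat_lit 385087) (nat_lit 46) (.e (nat_lit 753695) (nat_lit 13) .nil))))))) (.g (nat_lit 4) .nil .nil))) 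
(.lf (nat_lit 41129) (.g (nat_lit 2822) (.e (nat_lit 1234) (nat_lit 91) (.e (nat_lit 90185) (nat_lit 17) (.e (nat_lit 237619) (nat_lit 12) (.e (nat_lit 475185) (nat_lit 29) (.e (nat_lit 557103) (nat_lit 14) (.e (nat_lit 180277) (nat_lit 32) .nil)))))) (.g (nat_lit 6) .nil .nil)))) (.nd (nat_lit 5) 
(.lf (nat_lit 41113) (.g (nat_lit 2362) (.e (nat_lit 1234) (nat_lit 91) (.e (nat_lit 90185) (nat_lit 17) (.e (nat_lit 237615) (nat_lit 12) (.e (nat_lit 475185) (nat_lit 29) (.e (nat_lit 557105) (nat_lit 14) .nil))))) .nil)) 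
(.lf (nat_lit 41145) (.g (nat_lit 2894) (.e (nat_lit 1234) (nat_lit 91) (.e (nat_lit 90203) (nat_lit 21) (.e (nat_lit 164358) (nat_lit 246) (.e (nat_lit 100) (nat_lit 2) (.e (nat_lit 90174) (nat_lit 14) (.e (nat_lit 180243) (nat_lit 5) (.e (nat_lit 532508) (nat_lit 2) (.e (nat_lit 106517) (nat_lit 9) .nil)))))))) (.g (nat_lit 6) .nil .nil)))))) (.nd (nat_lit 3) (.nd (nat_lit 4) (.nd (nat_lit 5) 
(.lf (nat_lit 41093) (.g (nat_lit 1696) (.e (nat_lit 1234) (nat_lit 91) (.e (nat_lit 90185) (nat_lit 17) (.e (nat_lit 237605) (nat_lit 9) (.e (nat_lit 426131) (nat_lit 3) (.e (nat_lit 204873) (nat_lit 30) (.e (nat_lit 368689) (nat_lit 34) (.e (nat_lit 622604) (nat_lit 5) .nil))))))) (.g (nat_lit 4) .nil .nil))) 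
(.lf (nat_lit 41125) (.g (nat_lit 2225) (.e (nat_lit 1234) (nat_lit 91) (.e (nat_lit 90185) (nat_lit 17) (.e (nat_lit 237618) (nat_lit 12) (.e (nat_lit 475184) (nat_lit 29) (.e (nat_lit 557104) (nat_lit 14) (.e (nat_lit 180278) (nat_lit 32) .nil)))))) (.g (nat_lit 4) .nil .nil)))) (.nd (nat_lit 5) 
(.lf (nat_lit 41109) (.g (nat_lit 1126) (.e (nat_lit 1234) (nat_lit 91) (.e (nat_lit 90185) (nat_lit 17) (.e (nat_lit 237606) (nat_lit 9) .nil))) .nil)) 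
(.lf (nat_lit 41141) (.g (nat_lit 1230) (.e (nat_lit 1234) (nat_lit 91) (.e (nat_lit 90185) (nat_lit 17) (.e (nat_lit 237624) (nat_lit 13) (.e (nat_lit 483337) (nat_lit 9) .nil)))) .nil)))) (.nd (nat_lit 4) (.nd (nat_lit 5) 
(.lf (nat_lit 41101) (.g (nat_lit 3435) (.e (nat_lit 1234) (nat_lit 91) (.e (nat_lit 90185) (nat_lit 17) (.e (nat_lit 237605) (nat_lit 9) (.e (nat_lit 426402) (nat_lit 15) (.e (nat_lit 1848) (nat_lit 124) (.e (nat_lit 557104) (nat_lit 14) (.e (nat_lit 180278) (nat_lit 32) .nil))))))) (.g (nat_lit 7) .nil .nil))) 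
(.lf (nat_lit 41133) (.g (nat_lit 3095) (.e (nat_lit 1234) (nat_lit 91) (.e (nat_lit 90185) (nat_lit 17) (.e (nat_lit 237619) (nat_lit 12) (.e (nat_lit 475185) (nat_lit 29) (.e (nat_lit 557105) (nat_lit 14) (.e (nat_lit 180278) (nat_lit 32) .nil)))))) (.g (nat_lit 0) .nil .nil)))) (.nd (nat_lit 5) 
(.lf (nat_lit 41117) (.g (nat_lit 2881) (.e (nat_lit 1234) (nat_lit 91) (.e (nat_lit 90185) (nat_lit 17) (.e (nat_lit 237616) (nat_lit 12) (.e (nat_lit 475185) (nat_lit 29) (.e (nat_lit 557105) (nat_lit 14) (.e (nat_lit 180278) (nat_lit 32) .nil)))))) (.g (nat_lit 0) .nil .nil))) 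
(.lf (nat_lit 41149) (.g (nat_lit 267) (.e (nat_lit 1235) (nat_lit 91) (.e (nat_lit 90133) (nat_lit 9) (.e (nat_lit 313) (nat_lit 23) .nil))) .nil)))))) (.nd (nat_lit 2) (.nd (nat_lit 3) (.nd (nat_lit 4) (.nd (nat_lit 5) 
(.lf (nat_lit 41091) (.g (nat_lit 2211) (.e (nat_lit 1234) (nat_lit 91) (.e (nat_lit 90185) (nat_lit 17) (.e (nat_lit 237605) (nat_lit 9) (.e (nat_lit 426131) (nat_lit 3) (.e (nat_lit 204854) (nat_lit 26) (.e (nat_lit 336260) (nat_lit 15) (.e (nat_lit 3588) (nat_lit 224) (.e (nat_lit 753696) (nat_lit 13) .nil)))))))) (.g (nat_lit 4) .nil .nil))) 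
(.lf (nat_lit 41123) (.g (nat_lit 1047) (.e (nat_lit 1234) (nat_lit 91) (.e (nat_lit 90185) (nat_lit 17) (.e (nat_lit 237618) (nat_lit 12) .nil))) .nil))) (.nd (nat_lit 5) 
(.lf (nat_lit 41107) (.g (nat_lit 2038) (.e (nat_lit 1234) (nat_lit 91) (.e (nat_lit 90185) (nat_lit 17) (.e (nat_lit 237605) (nat_lit 9) (.e (nat_lit 426566) (nat_lit 34) (.e (nat_lit 393233) (nat_lit 17) (.e (nat_lit 3431) (nat_lit 213) (.e (nat_lit 663559) (nat_lit 0) .nil))))))) (.g (nat_lit 4) .nil .nil))) 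
(.lf (nat_lit 41139) (.g (nat_lit 1245) (.e (nat_lit 1234) (nat_lit 91) (.e (nat_lit 90185) (nat_lit 17) (.e (nat_lit 237623) (nat_lit 13) (.e (nat_lit 491264) (nat_lit 10) .nil)))) .nil)))) (.nd (nat_lit 4) (.nd (nat_lit 5) 
(.lf (nat_lit 41099) (.g (nat_lit 2203) (.e (nat_lit 1234) (nat_lit 91) (.e (nat_lit 90185) (nat_lit 17) (.e (nat_lit 237605) (nat_lit 9) (.e (nat_lit 426131) (nat_lit 3) (.e (nat_lit 204885) (nat_lit 33) (.e (nat_lit 401414) (nat_lit 0) (.e (nat_lit 7556) (nat_lit 402) .nil))))))) (.g (nat_lit 5) .nil .nil))) 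
(.lf (nat_lit 41131) (.g (nat_lit 2383) (.e (nat_lit 1234) (nat_lit 91) (.e (nat_lit 90185) (nat_lit 17) (.e (nat_lit 237619) (nat_lit 12) (.e (nat_lit 475185) (nat_lit 29) (.e (nat_lit 557103) (nat_lit 14) (.e (nat_lit 188160) (nat_lit 32) .nil)))))) (.g (nat_lit 5) .nil .nil)))) (.nd (nat_lit 5) 
(.lf (nat_lit 41115) (.g (nat_lit 2195) (.e (nat_lit 1234) (nat_lit 91) (.e (nat_lit 90185) (nat_lit 17) (.e (nat_lit 237616) (nat_lit 12) (.e (nat_lit 475185) (nat_lit 29) (.e (nat_lit 557103) (nat_lit 14) (.e (nat_lit 188160) (nat_lit 32) .nil)))))) (.g (nat_lit 5) .nil .nil))) 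
(.lf (nat_lit 41147) (.g (nat_lit 2507) (.e (nat_lit 1235) (nat_lit 91) (.e (nat_lit 98048) (nat_lit 5) (.e (nat_lit 73753) (nat_lit 8) (.e (nat_lit 557103) (nat_lit 14) (.e (nat_lit 180244) (nat_lit 5) (.e (nat_lit 532519) (nat_lit 5) (.e (nat_lit 147461) (nat_lit 0) .nil))))))) (.g (nat_lit 5) .nil .nil)))))) (.nd (nat_lit 3) (.nd (nat_lit 4) (.nd (nat_lit 5) 
(.lf (nat_lit 41095) (.g (nat_lit 2949) (.e (nat_lit 1234) (nat_lit 91) (.e (nat_lit 90185) (nat_lit 17) (.e (nat_lit 237605) (nat_lit 9) (.e (nat_lit 426131) (nat_lit 3) (.e (nat_lit 204880) (nat_lit 32) (.e (nat_lit 385087) (nat_lit 46) (.e (nat_lit 753695) (nat_lit 13) .nil))))))) (.g (nat_lit 5) .nil .nil))) 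
(.lf (nat_lit 41127) (.g (nat_lit 2394) (.e (nat_lit 1234) (nat_lit 91) (.e (nat_lit 90185) (nat_lit 17) (.e (nat_lit 237618) (nat_lit 12) (.e (nat_lit 475185) (nat_lit 29) (.e (nat_lit 557105) (nat_lit 14) (.e (nat_lit 180277) (nat_lit 32) .nil)))))) (.g (nat_lit 4) .nil .nil)))) (.nd (nat_lit 5) 
(.lf (nat_lit 41111) (.g (nat_lit 1094) (.e (nat_lit 1234) (nat_lit 91) (.e (nat_lit 90185) (nat_lit 17) (.e (nat_lit 237615) (nat_lit 12) .nil))) .nil)) 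
(.lf (nat_lit 41143) (.g (nat_lit 965) (.e (nat_lit 1234) (nat_lit 91) (.e (nat_lit 90185) (nat_lit 17) (.e (nat_lit 237625) (nat_lit 14) .nil))) .nil)))) (.nd (nat_lit 4) (.nd (nat_lit 5) 
(.lf (nat_lit 41103) (.g (nat_lit 1810) (.e (nat_lit 1234) (nat_lit 91) (.e (nat_lit 90185) (nat_lit 17) (.e (nat_lit 237605) (nat_lit 9) (.e (nat_lit 426402) (nat_lit 15) (.e (nat_lit 1859) (nat_lit 124) (.e (nat_lit 557105) (nat_lit 14) (.e (nat_lit 180277) (nat_lit 32) .nil))))))) (.g (nat_lit 4) .nil .nil))) 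
(.lf (nat_lit 41135) (.g (nat_lit 1050) (.e (nat_lit 1234) (nat_lit 91) (.e (nat_lit 90185) (nat_lit 17) (.e (nat_lit 237620) (nat_lit 13) .nil))) .nil))) (.nd (nat_lit 5) 
(.lf (nat_lit 41119) (.g (nat_lit 729) (.e (nat_lit 1234) (nat_lit 91) (.e (nat_lit 90185) (nat_lit 17) (.e (nat_lit 237617) (nat_lit 12) .nil))) .nil)) 
(.lf (nat_lit 41151) (.g (nat_lit 2857) (.e (nat_lit 1235) (nat_lit 91) (.e (nat_lit 90134) (nat_lit 9) (.e (nat_lit 2950) (nat_lit 184) (.e (nat_lit 426316) (nat_lit 12) (.e (nat_lit 475185) (nat_lit 29) (.e (nat_lit 557103) (nat_lit 14) (.e (nat_lit 180277) (nat_lit 32) .nil))))))) (.g (nat_lit 5) .nil .nil)))))))))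

noncomputable def tv572 : DT := (.nd (nat_lit 0) (.nd (nat_lit 1) (.nd (nat_lit 2) (.nd (nat_lit 3) (.nd (nat_lit 4) (.nd (nat_lit 5) 
(.lf (nat_lit 41152) (.g (nat_lit 2881) (.e (nat_lit 1235) (nat_lit 91) (.e (nat_lit 90134) (nat_lit 9) (.e (nat_lit 2950) (nat_lit 184) (.e (nat_lit 426316) (nat_lit 12) (.e (nat_lit 475185) (nat_lit 29) (.e (nat_lit 557103) (nat_lit 14) (.e (nat_lit 180278) (nat_lit 32) .nil))))))) (.g (nat_lit 5) .nil .nil))) 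
(.lf (nat_lit 41184) (.g (nat_lit 1895) (.e (nat_lit 1235) (nat_lit 91) (.e (nat_lit 90170) (nat_lit 13) (.e (nat_lit 172106) (nat_lit 10) (.e (nat_lit 434227) (nat_lit 20) .nil)))) .nil))) (.nd (nat_lit 5) 
(.lf (nat_lit 41168) (.g (nat_lit 2968) (.e (nat_lit 1235) (nat_lit 91) (.e (nat_lit 90170) (nat_lit 13) (.e (nat_lit 172079) (nat_lit 7) (.e (nat_lit 409631) (nat_lit 12) (.e (nat_lit 32808) (nat_lit 19) (.e (nat_lit 180278) (nat_lit 32) .nil)))))) (.g (nat_lit 0) .nil .nil))) 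
(.lf (nat_lit 41200) (.g (nat_lit 3626) (.e (nat_lit 1235) (nat_lit 91) (.e (nat_lit 90170) (nat_lit 13) (.e (nat_lit 172106) (nat_lit 10) (.e (nat_lit 434231) (nat_lit 23) (.e (nat_lit 532481) (nat_lit 0) (.e (nat_lit 6709) (nat_lit 360) (.e (nat_lit 164239) (nat_lit 187) .nil))))))) (.g (nat_lit 4) .nil .nil))))) (.nd (nat_lit 4) (.nd (nat_lit 5) 
(.lf (nat_lit 41160) (.g (nat_lit 1802) (.e (nat_lit 1235) (nat_lit 91) (.e (nat_lit 90169) (nat_lit 13) (.e (nat_lit 172124) (nat_lit 14) (.e (nat_lit 491537) (nat_lit 2) (.e (nat_lit 90174) (nat_lit 14) .nil))))) .nil)) 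
(.lf (nat_lit 41192) (.g (nat_lit 3215) (.e (nat_lit 1235) (nat_lit 91) (.e (nat_lit 90170) (nat_lit 13) (.e (nat_lit 172106) (nat_lit 10) (.e (nat_lit 434227) (nat_lit 20) (.e (nat_lit 507930) (nat_lit 10) (.e (nat_lit 5756) (nat_lit 315) (.e (nat_lit 164238) (nat_lit 187) .nil))))))) (.g (nat_lit 5) .nil .nil)))) (.nd (nat_lit 5) 
(.lf (nat_lit 41176) (.g (nat_lit 913) (.e (nat_lit 1235) (nat_lit 91) (.e (nat_lit 90170) (nat_lit 13) (.e (nat_lit 172085) (nat_lit 9) (.e (nat_lit 426402) (nat_lit 15) .nil)))) .nil)) 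
(.lf (nat_lit 41208) (.g (nat_lit 3163) (.e (nat_lit 1235) (nat_lit 91) (.e (nat_lit 90170) (nat_lit 13) (.e (nat_lit 172106) (nat_lit 10) (.e (nat_lit 434231) (nat_lit 23) (.e (nat_lit 532482) (nat_lit 0) (.e (nat_lit 6710) (nat_lit 360) (.e (nat_lit 164238) (nat_lit 187) .nil))))))) (.g (nat_lit 4) .nil .nil)))))) (.nd (nat_lit 3) (.nd (nat_lit 4) (.nd (nat_lit 5) 
(.lf (nat_lit 41156) (.g (nat_lit 3927) (.e (nat_lit 1235) (nat_lit 91) (.e (nat_lit 90158) (nat_lit 11) (.e (nat_lit 24665) (nat_lit 14) (.e (nat_lit 401414) (nat_lit 0) (.e (nat_lit 3205) (nat_lit 194) (.e (nat_lit 507946) (nat_lit 18) (.e (nat_lit 311040) (nat_lit 24) (.e (nat_lit 155667) (nat_lit 9) .nil)))))))) (.g (nat_lit 4) .nil .nil))) 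
(.lf (nat_lit 41188) (.g (nat_lit 2822) (.e (nat_lit 1235) (nat_lit 91) (.e (nat_lit 90170) (nat_lit 13) (.e (nat_lit 172106) (nat_lit 10) (.e (nat_lit 434227) (nat_lit 20) (.e (nat_lit 507929) (nat_lit 10) (.e (nat_lit 5760) (nat_lit 315) (.e (nat_lit 164239) (nat_lit 187) .nil))))))) (.g (nat_lit 4) .nil .nil)))) (.nd (nat_lit 5) 
(.lf (nat_lit 41172) (.g (nat_lit 2066) (.e (nat_lit 1235) (nat_lit 91) (.e (nat_lit 90170) (nat_lit 13) (.e (nat_lit 172082) (nat_lit 7) (.e (nat_lit 409630) (nat_lit 12) (.e (nat_lit 32808) (nat_lit 19) (.e (nat_lit 180277) (nat_lit 32) .nil)))))) (.g (nat_lit 6) .nil .nil))) 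
(.lf (nat_lit 41204) (.g (nat_lit 3871) (.e (nat_lit 1235) (nat_lit 91) (.e (nat_lit 90170) (nat_lit 13) (.e (nat_lit 172106) (nat_lit 10) (.e (nat_lit 434231) (nat_lit 23) (.e (nat_lit 532481) (nat_lit 0) (.e (nat_lit 6714) (nat_lit 360) (.e (nat_lit 164235) (nat_lit 187) .nil))))))) (.g (nat_lit 4) .nil .nil))))) (.nd (nat_lit 4) (.nd (nat_lit 5) 
(.lf (nat_lit 41164) (.g (nat_lit 2402) (.e (nat_lit 1235) (nat_lit 91) (.e (nat_lit 90170) (nat_lit 13) (.e (nat_lit 172078) (nat_lit 7) (.e (nat_lit 409629) (nat_lit 12) (.e (nat_lit 32808) (nat_lit 19) (.e (nat_lit 180278) (nat_lit 32) .nil)))))) (.g (nat_lit 6) .nil .nil))) 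
(.lf (nat_lit 41196) (.g (nat_lit 1619) (.e (nat_lit 1235) (nat_lit 91) (.e (nat_lit 90170) (nat_lit 13) (.e (nat_lit 172106) (nat_lit 10) (.e (nat_lit 434231) (nat_lit 23) .nil)))) .nil))) (.nd (nat_lit 5) 
(.lf (nat_lit 41180) (.g (nat_lit 2170) (.e (nat_lit 1235) (nat_lit 91) (.e (nat_lit 90170) (nat_lit 13) (.e (nat_lit 172106) (nat_lit 10) (.e (nat_lit 434201) (nat_lit 18) .nil)))) .nil)) 
(.lf (nat_lit 41212) (.g (nat_lit 3974) (.e (nat_lit 1235) (nat_lit 91) (.e (nat_lit 90170) (nat_lit 13) (.e (nat_lit 172106) (nat_lit 10) (.e (nat_lit 434231) (nat_lit 23) (.e (nat_lit 532482) (nat_lit 0) (.e (nat_lit 6712) (nat_lit 360) (.e (nat_lit 164239) (nat_lit 187) .nil))))))) (.g (nat_lit 5) .nil .nil))))))) (.nd (nat_lit 2) (.nd (nat_lit 3) (.nd (nat_lit 4) (.nd (nat_lit 5) 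
(.lf (nat_lit 41154) (.g (nat_lit 2599) (.e (nat_lit 1235) (nat_lit 91) (.e (nat_lit 90134) (nat_lit 9) (.e (nat_lit 2950) (nat_lit 184) (.e (nat_lit 426316) (nat_lit 12) (.e (nat_lit 475185) (nat_lit 29) (.e (nat_lit 557105) (nat_lit 14) (.e (nat_lit 180278) (nat_lit 32) .nil))))))) (.g (nat_lit 5) .nil .nil))) 
(.lf (nat_lit 41186) (.g (nat_lit 2680) (.e (nat_lit 1235) (nat_lit 91) (.e (nat_lit 90170) (nat_lit 13) (.e (nat_lit 172106) (nat_lit 10) (.e (nat_lit 434227) (nat_lit 20) (.e (nat_lit 507928) (nat_lit 10) (.e (nat_lit 5763) (nat_lit 315) (.e (nat_lit 164238) (nat_lit 187) .nil))))))) (.g (nat_lit 4) .nil .nil)))) (.nd (nat_lit 5) 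
(.lf (nat_lit 41170) (.g (nat_lit 1856) (.e (nat_lit 1235) (nat_lit 91) (.e (nat_lit 90170) (nat_lit 13) (.e (nat_lit 172080) (nat_lit 7) (.e (nat_lit 409631) (nat_lit 12) (.e (nat_lit 32808) (nat_lit 19) (.e (nat_lit 180278) (nat_lit 32) .nil)))))) (.g (nat_lit 4) .nil .nil))) 
(.lf (nat_lit 41202) (.g (nat_lit 6256) (.e (nat_lit 1235) (nat_lit 91) (.e (nat_lit 90170) (nat_lit 13) (.e (nat_lit 172106) (nat_lit 10) (.e (nat_lit 434231) (nat_lit 23) (.e (nat_lit 532481) (nat_lit 0) (.e (nat_lit 6712) (nat_lit 360) (.e (nat_lit 164238) (nat_lit 187) .nil))))))) (.g (nat_lit 7) .nil .nil))))) (.nd (nat_lit 4) (.nd (nat_lit 5) 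
(.lf (nat_lit 41162) (.g (nat_lit 1686) (.e (nat_lit 1235) (nat_lit 91) (.e (nat_lit 90170) (nat_lit 13) (.e (nat_lit 172077) (nat_lit 7) (.e (nat_lit 409631) (nat_lit 12) (.e (nat_lit 32808) (nat_lit 19) (.e (nat_lit 180278) (nat_lit 32) .nil)))))) (.g (nat_lit 4) .nil .nil))) 
(.lf (nat_lit 41194) (.g (nat_lit 2505) (.e (nat_lit 1235) (nat_lit 91) (.e (nat_lit 90170) (nat_lit 13) (.e (nat_lit 172106) (nat_lit 10) (.e (nat_lit 434227) (nat_lit 20) (.e (nat_lit 507930) (nat_lit 10) (.e (nat_lit 5759) (nat_lit 315) (.e (nat_lit 164238) (nat_lit 187) .nil))))))) (.g (nat_lit 4) .nil .nil)))) (.nd (nat_lit 5) 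
(.lf (nat_lit 41178) (.g (nat_lit 820) (.e (nat_lit 1235) (nat_lit 91) (.e (nat_lit 90170) (nat_lit 13) (.e (nat_lit 172088) (nat_lit 9) (.e (nat_lit 433920) (nat_lit 15) .nil)))) .nil)) 
(.lf (nat_lit 41210) (.g (nat_lit 3163) (.e (nat_lit 1235) (nat_lit 91) (.e (nat_lit 90170) (nat_lit 13) (.e (nat_lit 172106) (nat_lit 10) (.e (nat_lit 434231) (nat_lit 23) (.e (nat_lit 532482) (nat_lit 0) (.e (nat_lit 6712) (nat_lit 360) (.e (nat_lit 164235) (nat_lit 187) .nil))))))) (.g (nat_lit 4) .nil .nil)))))) (.nd (nat_lit 3) (.nd (nat_lit 4) (.nd (nat_lit 5) 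
(.lf (nat_lit 41158) (.g (nat_lit 3587) (.e (nat_lit 1235) (nat_lit 91) (.e (nat_lit 90167) (nat_lit 13) (.e (nat_lit 172126) (nat_lit 14) (.e (nat_lit 491537) (nat_lit 2) (.e (nat_lit 90174) (nat_lit 14) (.e (nat_lit 180277) (nat_lit 32) .nil)))))) (.g (nat_lit 0) .nil .nil))) 
(.lf (nat_lit 41190) (.g (nat_lit 3697) (.e (nat_lit 1235) (nat_lit 91) (.e (nat_lit 90170) (nat_lit 13) (.e (nat_lit 172106) (nat_lit 10) (.e (nat_lit 434227) (nat_lit 20) (.e (nat_lit 507929) (nat_lit 10) (.e (nat_lit 5763) (nat_lit 315) (.e (nat_lit 164239) (nat_lit 187) .nil))))))) (.g (nat_lit 0) .nil .nil)))) (.nd (nat_lit 5) 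
(.lf (nat_lit 41174) (.g (nat_lit 985) (.e (nat_lit 1235) (nat_lit 91) (.e (nat_lit 90170) (nat_lit 13) (.e (nat_lit 172083) (nat_lit 8) (.e (nat_lit 417823) (nat_lit 12) .nil)))) .nil)) 
(.lf (nat_lit 41206) (.g (nat_lit 3220) (.e (nat_lit 1235) (nat_lit 91) (.e (nat_lit 90170) (nat_lit 13) (.e (nat_lit 172106) (nat_lit 10) (.e (nat_lit 434231) (nat_lit 23) (.e (nat_lit 532482) (nat_lit 0) (.e (nat_lit 6192) (nat_lit 332) (.e (nat_lit 982) (nat_lit 81) (.e (nat_lit 5351) (nat_lit 298) .nil)))))))) (.g (nat_lit 4) .nil .nil))))) (.nd (nat_lit 4) (.nd (nat_lit 5) 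
(.lf (nat_lit 41166) (.g (nat_lit 1264) (.e (nat_lit 1235) (nat_lit 91) (.e (nat_lit 90170) (nat_lit 13) (.e (nat_lit 172079) (nat_lit 7) (.e (nat_lit 409629) (nat_lit 12) .nil)))) .nil)) 
(.lf (nat_lit 41198) (.g (nat_lit 3631) (.e (nat_lit 1235) (nat_lit 91) (.e (nat_lit 90170) (nat_lit 13) (.e (nat_lit 172106) (nat_lit 10) (.e (nat_lit 434231) (nat_lit 23) (.e (nat_lit 532481) (nat_lit 0) (.e (nat_lit 6192) (nat_lit 332) (.e (nat_lit 982) (nat_lit 81) (.e (nat_lit 5351) (nat_lit 298) .nil)))))))) (.g (nat_lit 4) .nil .nil)))) (.nd (nat_lit 5) 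
(.lf (nat_lit 41182) (.g (nat_lit 3403) (.e (nat_lit 1235) (nat_lit 91) (.e (nat_lit 90170) (nat_lit 13) (.e (nat_lit 172106) (nat_lit 10) (.e (nat_lit 434209) (nat_lit 18) (.e (nat_lit 3944) (nat_lit 239) .nil))))) .nil)) 
(.lf (nat_lit 41214) (.g (nat_lit 3974) (.e (nat_lit 1235) (nat_lit 91) (.e (nat_lit 90170) (nat_lit 13) (.e (nat_lit 172106) (nat_lit 10) (.e (nat_lit 434231) (nat_lit 23) (.e (nat_lit 532482) (nat_lit 0) (.e (nat_lit 6714) (nat_lit 360) (.e (nat_lit 164238) (nat_lit 187) .nil))))))) (.g (nat_lit 5) .nil .nil)))))))) 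
(.nd (nat_lit 1) (.nd (nat_lit 2) (.nd (nat_lit 3) (.nd (nat_lit 4) (.nd (nat_lit 5) 
(.lf (nat_lit 41153) (.g (nat_lit 2685) (.e (nat_lit 1235) (nat_lit 91) (.e (nat_lit 90134) (nat_lit 9) (.e (nat_lit 2950) (nat_lit 184) (.e (nat_lit 426316) (nat_lit 12) (.e (nat_lit 475185) (nat_lit 29) (.e (nat_lit 557105) (nat_lit 14) (.e (nat_lit 180277) (nat_lit 32) .nil))))))) (.g (nat_lit 5) .nil .nil))) 
(.lf (nat_lit 41185) (.g (nat_lit 2500) (.e (nat_lit 1235) (nat_lit 91) (.e (nat_lit 90170) (nat_lit 13) (.e (nat_lit 172106) (nat_lit 10) (.e (nat_lit 434227) (nat_lit 20) (.e (nat_lit 507928) (nat_lit 10) .nil))))) .nil))) (.nd (nat_lit 5) 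
(.lf (nat_lit 41169) (.g (nat_lit 1838) (.e (nat_lit 1235) (nat_lit 91) (.e (nat_lit 90170) (nat_lit 13) (.e (nat_lit 172080) (nat_lit 7) (.e (nat_lit 409631) (nat_lit 12) (.e (nat_lit 32808) (nat_lit 19) (.e (nat_lit 180277) (nat_lit 32) .nil)))))) (.g (nat_lit 4) .nil .nil))) 
(.lf (nat_lit 41201) (.g (nat_lit 4073) (.e (nat_lit 1235) (nat_lit 91) (.e (nat_lit 90170) (nat_lit 13) (.e (nat_lit 172106) (nat_lit 10) (.e (nat_lit 434231) (nat_lit 23) (.e (nat_lit 532481) (nat_lit 0) (.e (nat_lit 6712) (nat_lit 360) (.e (nat_lit 164235) (nat_lit 187) .nil))))))) (.g (nat_lit 4) .nil .nil))))) (.nd (nat_lit 4) (.nd (nat_lit 5) 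
(.lf (nat_lit 41161) (.g (nat_lit 1628) (.e (nat_lit 1235) (nat_lit 91) (.e (nat_lit 90170) (nat_lit 13) (.e (nat_lit 172077) (nat_lit 7) (.e (nat_lit 409631) (nat_lit 12) (.e (nat_lit 32808) (nat_lit 19) (.e (nat_lit 180277) (nat_lit 32) .nil)))))) (.g (nat_lit 4) .nil .nil))) 
(.lf (nat_lit 41193) (.g (nat_lit 2699) (.e (nat_lit 1235) (nat_lit 91) (.e (nat_lit 90170) (nat_lit 13) (.e (nat_lit 172106) (nat_lit 10) (.e (nat_lit 434227) (nat_lit 20) (.e (nat_lit 507930) (nat_lit 10) (.e (nat_lit 5756) (nat_lit 315) (.e (nat_lit 164239) (nat_lit 187) .nil))))))) (.g (nat_lit 4) .nil .nil)))) (.nd (nat_lit 5) 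
(.lf (nat_lit 41177) (.g (nat_lit 770) (.e (nat_lit 1235) (nat_lit 91) (.e (nat_lit 90170) (nat_lit 13) (.e (nat_lit 172088) (nat_lit 9) .nil))) .nil)) 
(.lf (nat_lit 41209) (.g (nat_lit 3233) (.e (nat_lit 1235) (nat_lit 91) (.e (nat_lit 90170) (nat_lit 13) (.e (nat_lit 172106) (nat_lit 10) (.e (nat_lit 434231) (nat_lit 23) (.e (nat_lit 532482) (nat_lit 0) (.e (nat_lit 6710) (nat_lit 360) (.e (nat_lit 164239) (nat_lit 187) .nil))))))) (.g (nat_lit 4) .nil .nil)))))) (.nd (nat_lit 3) (.nd (nat_lit 4) (.nd (nat_lit 5) 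
(.lf (nat_lit 41157) (.g (nat_lit 2147) (.e (nat_lit 1235) (nat_lit 91) (.e (nat_lit 90158) (nat_lit 11) (.e (nat_lit 24665) (nat_lit 14) (.e (nat_lit 401463) (nat_lit 15) .nil)))) .nil)) 
(.lf (nat_lit 41189) (.g (nat_lit 3210) (.e (nat_lit 1235) (nat_lit 91) (.e (nat_lit 90170) (nat_lit 13) (.e (nat_lit 172106) (nat_lit 10) (.e (nat_lit 434227) (nat_lit 20) (.e (nat_lit 507929) (nat_lit 10) (.e (nat_lit 5762) (nat_lit 315) (.e (nat_lit 164238) (nat_lit 187) .nil))))))) (.g (nat_lit 5) .nil .nil)))) (.nd (nat_lit 5) 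
(.lf (nat_lit 41173) (.g (nat_lit 2390) (.e (nat_lit 1235) (nat_lit 91) (.e (nat_lit 90170) (nat_lit 13) (.e (nat_lit 172082) (nat_lit 7) (.e (nat_lit 409631) (nat_lit 12) (.e (nat_lit 32808) (nat_lit 19) (.e (nat_lit 180278) (nat_lit 32) .nil)))))) (.g (nat_lit 0) .nil .nil))) 
(.lf (nat_lit 41205) (.g (nat_lit 5274) (.e (nat_lit 1235) (nat_lit 91) (.e (nat_lit 90170) (nat_lit 13) (.e (nat_lit 172106) (nat_lit 10) (.e (nat_lit 434231) (nat_lit 23) (.e (nat_lit 532481) (nat_lit 0) (.e (nat_lit 6714) (nat_lit 360) (.e (nat_lit 164239) (nat_lit 187) .nil))))))) (.g (nat_lit 6) .nil .nil))))) (.nd (nat_lit 4) (.nd (nat_lit 5) 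
(.lf (nat_lit 41165) (.g (nat_lit 463) (.e (nat_lit 1235) (nat_lit 91) (.e (nat_lit 90170) (nat_lit 13) (.e (nat_lit 172079) (nat_lit 7) .nil))) .nil)) 
(.lf (nat_lit 41197) (.g (nat_lit 2943) (.e (nat_lit 1235) (nat_lit 91) (.e (nat_lit 90170) (nat_lit 13) (.e (nat_lit 172106) (nat_lit 10) (.e (nat_lit 434231) (nat_lit 23) (.e (nat_lit 532480) (nat_lit 0) (.e (nat_lit 6218) (nat_lit 333) (.e (nat_lit 57891) (nat_lit 270) .nil))))))) (.g (nat_lit 4) .nil .nil)))) (.nd (nat_lit 5) 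
(.lf (nat_lit 41181) (.g (nat_lit 1878) (.e (nat_lit 1235) (nat_lit 91) (.e (nat_lit 90170) (nat_lit 13) (.e (nat_lit 172106) (nat_lit 10) (.e (nat_lit 434202) (nat_lit 18) .nil)))) .nil)) 
(.lf (nat_lit 41213) (.g (nat_lit 3233) (.e (nat_lit 1235) (nat_lit 91) (.e (nat_lit 90170) (nat_lit 13) (.e (nat_lit 172106) (nat_lit 10) (.e (nat_lit 434231) (nat_lit 23) (.e (nat_lit 532482) (nat_lit 0) (.e (nat_lit 6714) (nat_lit 360) (.e (nat_lit 164235) (nat_lit 187) .nil))))))) (.g (nat_lit 4) .nil .nil))))))) (.nd (nat_lit 2) (.nd (nat_lit 3) (.nd (nat_lit 4) (.nd (nat_lit 5) 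
(.lf (nat_lit 41155) (.g (nat_lit 2092) (.e (nat_lit 1235) (nat_lit 91) (.e (nat_lit 90158) (nat_lit 11) (.e (nat_lit 24628) (nat_lit 9) (.e (nat_lit 336019) (nat_lit 3) (.e (nat_lit 98384) (nat_lit 32) (.e (nat_lit 475199) (nat_lit 40) (.e (nat_lit 704701) (nat_lit 9) .nil))))))) (.g (nat_lit 4) .nil .nil))) 
(.lf (nat_lit 41187) (.g (nat_lit 2775) (.e (nat_lit 1235) (nat_lit 91) (.e (nat_lit 90170) (nat_lit 13) (.e (nat_lit 172106) (nat_lit 10) (.e (nat_lit 434227) (nat_lit 20) (.e (nat_lit 507928) (nat_lit 10) (.e (nat_lit 5763) (nat_lit 315) (.e (nat_lit 164239) (nat_lit 187) .nil))))))) (.g (nat_lit 4) .nil .nil)))) (.nd (nat_lit 5) 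
(.lf (nat_lit 41171) (.g (nat_lit 2185) (.e (nat_lit 1235) (nat_lit 91) (.e (nat_lit 90170) (nat_lit 13) (.e (nat_lit 172082) (nat_lit 7) (.e (nat_lit 409629) (nat_lit 12) (.e (nat_lit 32808) (nat_lit 19) (.e (nat_lit 180277) (nat_lit 32) .nil)))))) (.g (nat_lit 6) .nil .nil))) 
(.lf (nat_lit 41203) (.g (nat_lit 4884) (.e (nat_lit 1235) (nat_lit 91) (.e (nat_lit 90170) (nat_lit 13) (.e (nat_lit 172106) (nat_lit 10) (.e (nat_lit 434231) (nat_lit 23) (.e (nat_lit 532481) (nat_lit 0) (.e (nat_lit 6712) (nat_lit 360) (.e (nat_lit 164239) (nat_lit 187) .nil))))))) (.g (nat_lit 5) .nil .nil))))) (.nd (nat_lit 4) (.nd (nat_lit 5) 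
(.lf (nat_lit 41163) (.g (nat_lit 2253) (.e (nat_lit 1235) (nat_lit 91) (.e (nat_lit 90170) (nat_lit 13) (.e (nat_lit 172078) (nat_lit 7) (.e (nat_lit 409629) (nat_lit 12) (.e (nat_lit 32808) (nat_lit 19) (.e (nat_lit 180277) (nat_lit 32) .nil)))))) (.g (nat_lit 6) .nil .nil))) 
(.lf (nat_lit 41195) (.g (nat_lit 3596) (.e (nat_lit 1235) (nat_lit 91) (.e (nat_lit 90170) (nat_lit 13) (.e (nat_lit 172106) (nat_lit 10) (.e (nat_lit 434227) (nat_lit 20) (.e (nat_lit 507930) (nat_lit 10) (.e (nat_lit 5760) (nat_lit 315) (.e (nat_lit 164239) (nat_lit 187) .nil))))))) (.g (nat_lit 7) .nil .nil)))) (.nd (nat_lit 5) 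
(.lf (nat_lit 41179) (.g (nat_lit 322) (.e (nat_lit 1235) (nat_lit 91) (.e (nat_lit 90170) (nat_lit 13) (.e (nat_lit 172106) (nat_lit 10) .nil))) .nil)) 
(.lf (nat_lit 41211) (.g (nat_lit 5068) (.e (nat_lit 1235) (nat_lit 91) (.e (nat_lit 90170) (nat_lit 13) (.e (nat_lit 172106) (nat_lit 10) (.e (nat_lit 434231) (nat_lit 23) (.e (nat_lit 532482) (nat_lit 0) (.e (nat_lit 6712) (nat_lit 360) (.e (nat_lit 164238) (nat_lit 187) .nil))))))) (.g (nat_lit 7) .nil .nil)))))) (.nd (nat_lit 3) (.nd (nat_lit 4) (.nd (nat_lit 5) 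
(.lf (nat_lit 41159) (.g (nat_lit 2699) (.e (nat_lit 1235) (nat_lit 91) (.e (nat_lit 90167) (nat_lit 13) (.e (nat_lit 172126) (nat_lit 14) (.e (nat_lit 491540) (nat_lit 3) (.e (nat_lit 98367) (nat_lit 27) (.e (nat_lit 434180) (nat_lit 0) .nil)))))) (.g (nat_lit 5) .nil .nil))) 
(.lf (nat_lit 41191) (.g (nat_lit 2408) (.e (nat_lit 1235) (nat_lit 91) (.e (nat_lit 90170) (nat_lit 13) (.e (nat_lit 172106) (nat_lit 10) (.e (nat_lit 434227) (nat_lit 20) (.e (nat_lit 507930) (nat_lit 10) .nil))))) .nil))) (.nd (nat_lit 5) 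
(.lf (nat_lit 41175) (.g (nat_lit 677) (.e (nat_lit 1235) (nat_lit 91) (.e (nat_lit 90170) (nat_lit 13) (.e (nat_lit 172084) (nat_lit 8) .nil))) .nil)) 
(.lf (nat_lit 41207) (.g (nat_lit 3912) (.e (nat_lit 1235) (nat_lit 91) (.e (nat_lit 90170) (nat_lit 13) (.e (nat_lit 172106) (nat_lit 10) (.e (nat_lit 434231) (nat_lit 23) (.e (nat_lit 532482) (nat_lit 0) (.e (nat_lit 6221) (nat_lit 333) (.e (nat_lit 57891) (nat_lit 270) .nil))))))) (.g (nat_lit 5) .nil .nil))))) (.nd (nat_lit 4) (.nd (nat_lit 5) 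
(.lf (nat_lit 41167) (.g (nat_lit 2059) (.e (nat_lit 1235) (nat_lit 91) (.e (nat_lit 90170) (nat_lit 13) (.e (nat_lit 172079) (nat_lit 7) (.e (nat_lit 409630) (nat_lit 12) (.e (nat_lit 32808) (nat_lit 19) (.e (nat_lit 180278) (nat_lit 32) .nil)))))) (.g (nat_lit 4) .nil .nil))) 
(.lf (nat_lit 41199) (.g (nat_lit 3580) (.e (nat_lit 1235) (nat_lit 91) (.e (nat_lit 90170) (nat_lit 13) (.e (nat_lit 172106) (nat_lit 10) (.e (nat_lit 434231) (nat_lit 23) (.e (nat_lit 532481) (nat_lit 0) (.e (nat_lit 6709) (nat_lit 360) (.e (nat_lit 164238) (nat_lit 187) .nil))))))) (.g (nat_lit 4) .nil .nil)))) (.nd (nat_lit 5) 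
(.lf (nat_lit 41183) (.g (nat_lit 1922) (.e (nat_lit 1235) (nat_lit 91) (.e (nat_lit 90170) (nat_lit 13) (.e (nat_lit 172106) (nat_lit 10) (.e (nat_lit 434219) (nat_lit 19) .nil)))) .nil)) 
(.lf (nat_lit 41215) (.g (nat_lit 4513) (.e (nat_lit 1235) (nat_lit 91) (.e (nat_lit 90170) (nat_lit 13) (.e (nat_lit 172106) (nat_lit 10) (.e (nat_lit 434231) (nat_lit 23) (.e (nat_lit 532482) (nat_lit 0) (.e (nat_lit 6714) (nat_lit 360) (.e (nat_lit 164239) (nat_lit 187) .nil))))))) (.g (nat_lit 7) .nil .nil)))))))))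

noncomputable def tv573 : DT := (.nd (nat_lit 0) (.nd (nat_lit 1) (.nd (nat_lit 2) (.nd (nat_lit 3) (.nd (nat_lit 4) (.nd (nat_lit 5) 
(.lf (nat_lit 41216) (.g (nat_lit 2694) (.e (nat_lit 1235) (nat_lit 91) (.e (nat_lit 90170) (nat_lit 13) (.e (nat_lit 172106) (nat_lit 10) (.e (nat_lit 434231) (nat_lit 23) (.e (nat_lit 532486) (nat_lit 0) (.e (nat_lit 6212) (nat_lit 333) (.e (nat_lit 57891) (nat_lit 270) .nil))))))) (.g (nat_lit 4) .nil .nil))) 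
(.lf (nat_lit 41248) (.g (nat_lit 4137) (.e (nat_lit 1235) (nat_lit 91) (.e (nat_lit 90170) (nat_lit 13) (.e (nat_lit 172106) (nat_lit 10) (.e (nat_lit 434231) (nat_lit 23) (.e (nat_lit 532526) (nat_lit 8) (.e (nat_lit 327702) (nat_lit 10) (.e (nat_lit 5351) (nat_lit 298) .nil))))))) (.g (nat_lit 7) .nil .nil)))) (.nd (nat_lit 5) 
(.lf (nat_lit 41232) (.g (nat_lit 2648) (.e (nat_lit 1235) (nat_lit 91) (.e (nat_lit 90170) (nat_lit 13) (.e (nat_lit 172106) (nat_lit 10) (.e (nat_lit 434231) (nat_lit 23) (.e (nat_lit 532490) (nat_lit 0) (.e (nat_lit 6149) (nat_lit 332) (.e (nat_lit 1014) (nat_lit 81) (.e (nat_lit 5351) (nat_lit 298) .nil)))))))) (.g (nat_lit 4) .nil .nil))) 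
(.lf (nat_lit 41264) (.g (nat_lit 2692) (.e (nat_lit 1235) (nat_lit 91) (.e (nat_lit 90170) (nat_lit 13) (.e (nat_lit 172106) (nat_lit 10) (.e (nat_lit 434231) (nat_lit 23) (.e (nat_lit 532544) (nat_lit 10) (.e (nat_lit 344091) (nat_lit 18) (.e (nat_lit 4769) (nat_lit 281) (.e (nat_lit 1084) (nat_lit 81) .nil)))))))) (.g (nat_lit 5) .nil .nil))))) (.nd (nat_lit 4) (.nd (nat_lit 5) 
(.lf (nat_lit 41224) (.g (nat_lit 4088) (.e (nat_lit 1235) (nat_lit 91) (.e (nat_lit 90170) (nat_lit 13) (.e (nat_lit 172106) (nat_lit 10) (.e (nat_lit 434231) (nat_lit 23) (.e (nat_lit 532490) (nat_lit 0) (.e (nat_lit 6114) (nat_lit 332) (.e (nat_lit 1082) (nat_lit 81) (.e (nat_lit 5321) (nat_lit 298) .nil)))))))) (.g (nat_lit 6) .nil .nil))) 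
(.lf (nat_lit 41256) (.g (nat_lit 3403) (.e (nat_lit 1235) (nat_lit 91) (.e (nat_lit 90170) (nat_lit 13) (.e (nat_lit 172106) (nat_lit 10) (.e (nat_lit 434231) (nat_lit 23) (.e (nat_lit 532535) (nat_lit 9) (.e (nat_lit 335925) (nat_lit 0) (.e (nat_lit 993) (nat_lit 81) (.e (nat_lit 4767) (nat_lit 281) (.e (nat_lit 1084) (nat_lit 81) .nil))))))))) (.g (nat_lit 5) .nil .nil)))) (.nd (nat_lit 5) 
(.lf (nat_lit 41240) (.g (nat_lit 2747) (.e (nat_lit 1235) (nat_lit 91) (.e (nat_lit 90170) (nat_lit 13) (.e (nat_lit 172106) (nat_lit 10) (.e (nat_lit 434231) (nat_lit 23) (.e (nat_lit 532523) (nat_lit 7) (.e (nat_lit 319497) (nat_lit 10) (.e (nat_lit 5351) (nat_lit 298) .nil))))))) (.g (nat_lit 4) .nil .nil))) 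
(.lf (nat_lit 41272) (.g (nat_lit 3416) (.e (nat_lit 1235) (nat_lit 91) (.e (nat_lit 90170) (nat_lit 13) (.e (nat_lit 172106) (nat_lit 10) (.e (nat_lit 434231) (nat_lit 23) (.e (nat_lit 532569) (nat_lit 16) (.e (nat_lit 401408) (nat_lit 0) (.e (nat_lit 7562) (nat_lit 402) .nil))))))) (.g (nat_lit 4) .nil .nil)))))) (.nd (nat_lit 3) (.nd (nat_lit 4) (.nd (nat_lit 5) 
(.lf (nat_lit 41220) (.g (nat_lit 2684) (.e (nat_lit 1235) (nat_lit 91) (.e (nat_lit 90170) (nat_lit 13) (.e (nat_lit 172106) (nat_lit 10) (.e (nat_lit 434231) (nat_lit 23) (.e (nat_lit 532490) (nat_lit 0) (.e (nat_lit 6092) (nat_lit 332) (.e (nat_lit 986) (nat_lit 81) (.e (nat_lit 5372) (nat_lit 298) .nil)))))))) (.g (nat_lit 4) .nil .nil))) 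
(.lf (nat_lit 41252) (.g (nat_lit 4696) (.e (nat_lit 1235) (nat_lit 91) (.e (nat_lit 90170) (nat_lit 13) (.e (nat_lit 172106) (nat_lit 10) (.e (nat_lit 434231) (nat_lit 23) (.e (nat_lit 532526) (nat_lit 8) (.e (nat_lit 327705) (nat_lit 10) (.e (nat_lit 5371) (nat_lit 298) .nil))))))) (.g (nat_lit 0) .nil .nil)))) (.nd (nat_lit 5) 
(.lf (nat_lit 41236) (.g (nat_lit 3700) (.e (nat_lit 1235) (nat_lit 91) (.e (nat_lit 90170) (nat_lit 13) (.e (nat_lit 172106) (nat_lit 10) (.e (nat_lit 434231) (nat_lit 23) (.e (nat_lit 532490) (nat_lit 0) (.e (nat_lit 7936) (nat_lit 360) (.e (nat_lit 164239) (nat_lit 187) .nil))))))) (.g (nat_lit 5) .nil .nil))) 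
(.lf (nat_lit 41268) (.g (nat_lit 3112) (.e (nat_lit 1235) (nat_lit 91) (.e (nat_lit 90170) (nat_lit 13) (.e (nat_lit 172106) (nat_lit 10) (.e (nat_lit 434231) (nat_lit 23) (.e (nat_lit 532544) (nat_lit 10) (.e (nat_lit 344096) (nat_lit 18) (.e (nat_lit 4764) (nat_lit 281) (.e (nat_lit 1060) (nat_lit 81) .nil)))))))) (.g (nat_lit 5) .nil .nil))))) (.nd (nat_lit 4) (.nd (nat_lit 5) 
(.lf (nat_lit 41228) (.g (nat_lit 2754) (.e (nat_lit 1235) (nat_lit 91) (.e (nat_lit 90170) (nat_lit 13) (.e (nat_lit 172106) (nat_lit 10) (.e (nat_lit 434231) (nat_lit 23) (.e (nat_lit 532490) (nat_lit 0) (.e (nat_lit 6136) (nat_lit 332) (.e (nat_lit 982) (nat_lit 81) (.e (nat_lit 5351) (nat_lit 298) .nil)))))))) (.g (nat_lit 4) .nil .nil))) 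
(.lf (nat_lit 41260) (.g (nat_lit 2854) (.e (nat_lit 1235) (nat_lit 91) (.e (nat_lit 90170) (nat_lit 13) (.e (nat_lit 172106) (nat_lit 10) (.e (nat_lit 434231) (nat_lit 23) (.e (nat_lit 532543) (nat_lit 10) (.e (nat_lit 344096) (nat_lit 18) (.e (nat_lit 4761) (nat_lit 281) (.e (nat_lit 1085) (nat_lit 81) .nil)))))))) (.g (nat_lit 5) .nil .nil)))) (.nd (nat_lit 5) 
(.lf (nat_lit 41244) (.g (nat_lit 5172) (.e (nat_lit 1235) (nat_lit 91) (.e (nat_lit 90170) (nat_lit 13) (.e (nat_lit 172106) (nat_lit 10) (.e (nat_lit 434231) (nat_lit 23) (.e (nat_lit 532523) (nat_lit 7) (.e (nat_lit 319506) (nat_lit 10) (.e (nat_lit 5371) (nat_lit 298) .nil))))))) (.g (nat_lit 0) .nil .nil))) 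
(.lf (nat_lit 41276) (.g (nat_lit 3087) (.e (nat_lit 1235) (nat_lit 91) (.e (nat_lit 90170) (nat_lit 13) (.e (nat_lit 172106) (nat_lit 10) (.e (nat_lit 434231) (nat_lit 23) (.e (nat_lit 532569) (nat_lit 16) (.e (nat_lit 401414) (nat_lit 0) (.e (nat_lit 7936) (nat_lit 402) .nil))))))) (.g (nat_lit 4) .nil .nil))))))) (.nd (nat_lit 2) (.nd (nat_lit 3) (.nd (nat_lit 4) (.nd (nat_lit 5) 
(.lf (nat_lit 41218) (.g (nat_lit 3472) (.e (nat_lit 1235) (nat_lit 91) (.e (nat_lit 90170) (nat_lit 13) (.e (nat_lit 172106) (nat_lit 10) (.e (nat_lit 434231) (nat_lit 23) (.e (nat_lit 532486) (nat_lit 0) (.e (nat_lit 6225) (nat_lit 334) (.e (nat_lit 123207) (nat_lit 270) .nil))))))) (.g (nat_lit 0) .nil .nil))) 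
(.lf (nat_lit 41250) (.g (nat_lit 3672) (.e (nat_lit 1235) (nat_lit 91) (.e (nat_lit 90170) (nat_lit 13) (.e (nat_lit 172106) (nat_lit 10) (.e (nat_lit 434231) (nat_lit 23) (.e (nat_lit 532526) (nat_lit 8) (.e (nat_lit 327702) (nat_lit 10) (.e (nat_lit 5372) (nat_lit 298) .nil))))))) (.g (nat_lit 5) .nil .nil)))) (.nd (nat_lit 5) 
(.lf (nat_lit 41234) (.g (nat_lit 2677) (.e (nat_lit 1235) (nat_lit 91) (.e (nat_lit 90170) (nat_lit 13) (.e (nat_lit 172106) (nat_lit 10) (.e (nat_lit 434231) (nat_lit 23) (.e (nat_lit 532490) (nat_lit 0) (.e (nat_lit 6206) (nat_lit 333) (.e (nat_lit 65280) (nat_lit 270) .nil))))))) (.g (nat_lit 4) .nil .nil))) 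
(.lf (nat_lit 41266) (.g (nat_lit 3651) (.e (nat_lit 1235) (nat_lit 91) (.e (nat_lit 90170) (nat_lit 13) (.e (nat_lit 172106) (nat_lit 10) (.e (nat_lit 434231) (nat_lit 23) (.e (nat_lit 532544) (nat_lit 10) (.e (nat_lit 344096) (nat_lit 18) (.e (nat_lit 4761) (nat_lit 281) (.e (nat_lit 1087) (nat_lit 81) .nil)))))))) (.g (nat_lit 6) .nil .nil))))) (.nd (nat_lit 4) (.nd (nat_lit 5) 
(.lf (nat_lit 41226) (.g (nat_lit 2681) (.e (nat_lit 1235) (nat_lit 91) (.e (nat_lit 90170) (nat_lit 13) (.e (nat_lit 172106) (nat_lit 10) (.e (nat_lit 434231) (nat_lit 23) (.e (nat_lit 532490) (nat_lit 0) (.e (nat_lit 6114) (nat_lit 332) (.e (nat_lit 1105) (nat_lit 81) (.e (nat_lit 5321) (nat_lit 298) .nil)))))))) (.g (nat_lit 4) .nil .nil))) 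
(.lf (nat_lit 41258) (.g (nat_lit 2693) (.e (nat_lit 1235) (nat_lit 91) (.e (nat_lit 90170) (nat_lit 13) (.e (nat_lit 172106) (nat_lit 10) (.e (nat_lit 434231) (nat_lit 23) (.e (nat_lit 532543) (nat_lit 10) (.e (nat_lit 344090) (nat_lit 18) (.e (nat_lit 4761) (nat_lit 281) (.e (nat_lit 1085) (nat_lit 81) .nil)))))))) (.g (nat_lit 5) .nil .nil)))) (.nd (nat_lit 5) 
(.lf (nat_lit 41242) (.g (nat_lit 5150) (.e (nat_lit 1235) (nat_lit 91) (.e (nat_lit 90170) (nat_lit 13) (.e (nat_lit 172106) (nat_lit 10) (.e (nat_lit 434231) (nat_lit 23) (.e (nat_lit 532523) (nat_lit 7) (.e (nat_lit 319505) (nat_lit 10) (.e (nat_lit 5351) (nat_lit 298) .nil))))))) (.g (nat_lit 6) .nil .nil))) 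
(.lf (nat_lit 41274) (.g (nat_lit 4094) (.e (nat_lit 1235) (nat_lit 91) (.e (nat_lit 90170) (nat_lit 13) (.e (nat_lit 172106) (nat_lit 10) (.e (nat_lit 434231) (nat_lit 23) (.e (nat_lit 532569) (nat_lit 16) (.e (nat_lit 401414) (nat_lit 0) (.e (nat_lit 7554) (nat_lit 402) .nil))))))) (.g (nat_lit 5) .nil .nil)))))) (.nd (nat_lit 3) (.nd (nat_lit 4) (.nd (nat_lit 5) 
(.lf (nat_lit 41222) (.g (nat_lit 3609) (.e (nat_lit 1235) (nat_lit 91) (.e (nat_lit 90170) (nat_lit 13) (.e (nat_lit 172106) (nat_lit 10) (.e (nat_lit 434231) (nat_lit 23) (.e (nat_lit 532490) (nat_lit 0) (.e (nat_lit 6114) (nat_lit 332) (.e (nat_lit 973) (nat_lit 81) (.e (nat_lit 5321) (nat_lit 298) .nil)))))))) (.g (nat_lit 5) .nil .nil))) 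
(.lf (nat_lit 41254) (.g (nat_lit 3240) (.e (nat_lit 1235) (nat_lit 91) (.e (nat_lit 90170) (nat_lit 13) (.e (nat_lit 172106) (nat_lit 10) (.e (nat_lit 434231) (nat_lit 23) (.e (nat_lit 532526) (nat_lit 8) (.e (nat_lit 327709) (nat_lit 10) (.e (nat_lit 5321) (nat_lit 298) .nil))))))) (.g (nat_lit 4) .nil .nil)))) (.nd (nat_lit 5) 
(.lf (nat_lit 41238) (.g (nat_lit 4103) (.e (nat_lit 1235) (nat_lit 91) (.e (nat_lit 90170) (nat_lit 13) (.e (nat_lit 172106) (nat_lit 10) (.e (nat_lit 434231) (nat_lit 23) (.e (nat_lit 532522) (nat_lit 7) (.e (nat_lit 319505) (nat_lit 10) (.e (nat_lit 5351) (nat_lit 298) .nil))))))) (.g (nat_lit 6) .nil .nil))) 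
(.lf (nat_lit 41270) (.g (nat_lit 2806) (.e (nat_lit 1235) (nat_lit 91) (.e (nat_lit 90170) (nat_lit 13) (.e (nat_lit 172106) (nat_lit 10) (.e (nat_lit 434231) (nat_lit 23) (.e (nat_lit 532544) (nat_lit 10) (.e (nat_lit 344152) (nat_lit 34) (.e (nat_lit 622608) (nat_lit 5) .nil))))))) (.g (nat_lit 5) .nil .nil))))) (.nd (nat_lit 4) (.nd (nat_lit 5) 
(.lf (nat_lit 41230) (.g (nat_lit 2435) (.e (nat_lit 1235) (nat_lit 91) (.e (nat_lit 90170) (nat_lit 13) (.e (nat_lit 172106) (nat_lit 10) (.e (nat_lit 434231) (nat_lit 23) (.e (nat_lit 532490) (nat_lit 0) (.e (nat_lit 6136) (nat_lit 332) (.e (nat_lit 989) (nat_lit 81) (.e (nat_lit 5358) (nat_lit 298) .nil)))))))) (.g (nat_lit 4) .nil .nil))) 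
(.lf (nat_lit 41262) (.g (nat_lit 2945) (.e (nat_lit 1235) (nat_lit 91) (.e (nat_lit 90170) (nat_lit 13) (.e (nat_lit 172106) (nat_lit 10) (.e (nat_lit 434231) (nat_lit 23) (.e (nat_lit 532543) (nat_lit 10) (.e (nat_lit 344096) (nat_lit 18) (.e (nat_lit 4764) (nat_lit 281) (.e (nat_lit 1082) (nat_lit 81) .nil)))))))) (.g (nat_lit 5) .nil .nil)))) (.nd (nat_lit 5) 
(.lf (nat_lit 41246) (.g (nat_lit 3795) (.e (nat_lit 1235) (nat_lit 91) (.e (nat_lit 90170) (nat_lit 13) (.e (nat_lit 172106) (nat_lit 10) (.e (nat_lit 434231) (nat_lit 23) (.e (nat_lit 532525) (nat_lit 8) (.e (nat_lit 327705) (nat_lit 10) (.e (nat_lit 5371) (nat_lit 298) .nil))))))) (.g (nat_lit 5) .nil .nil))) 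
(.lf (nat_lit 41278) (.g (nat_lit 2149) (.e (nat_lit 1235) (nat_lit 91) (.e (nat_lit 90170) (nat_lit 13) (.e (nat_lit 172106) (nat_lit 10) (.e (nat_lit 434237) (nat_lit 25) .nil)))) .nil))))))) (.nd (nat_lit 1) (.nd (nat_lit 2) (.nd (nat_lit 3) (.nd (nat_lit 4) (.nd (nat_lit 5) 
(.lf (nat_lit 41217) (.g (nat_lit 2515) (.e (nat_lit 1235) (nat_lit 91) (.e (nat_lit 90170) (nat_lit 13) (.e (nat_lit 172106) (nat_lit 10) (.e (nat_lit 434231) (nat_lit 23) (.e (nat_lit 532486) (nat_lit 0) (.e (nat_lit 6218) (nat_lit 333) (.e (nat_lit 65280) (nat_lit 270) .nil))))))) (.g (nat_lit 4) .nil .nil))) 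
(.lf (nat_lit 41249) (.g (nat_lit 3139) (.e (nat_lit 1235) (nat_lit 91) (.e (nat_lit 90170) (nat_lit 13) (.e (nat_lit 172106) (nat_lit 10) (.e (nat_lit 434231) (nat_lit 23) (.e (nat_lit 532526) (nat_lit 8) (.e (nat_lit 327702) (nat_lit 10) (.e (nat_lit 5367) (nat_lit 298) .nil))))))) (.g (nat_lit 4) .nil .nil)))) (.nd (nat_lit 5) 
(.lf (nat_lit 41233) (.g (nat_lit 2463) (.e (nat_lit 1235) (nat_lit 91) (.e (nat_lit 90170) (nat_lit 13) (.e (nat_lit 172106) (nat_lit 10) (.e (nat_lit 434231) (nat_lit 23) (.e (nat_lit 532490) (nat_lit 0) (.e (nat_lit 6149) (nat_lit 332) (.e (nat_lit 1015) (nat_lit 81) (.e (nat_lit 5351) (nat_lit 298) .nil)))))))) (.g (nat_lit 4) .nil .nil))) 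
(.lf (nat_lit 41265) (.g (nat_lit 3902) (.e (nat_lit 1235) (nat_lit 91) (.e (nat_lit 90170) (nat_lit 13) (.e (nat_lit 172106) (nat_lit 10) (.e (nat_lit 434231) (nat_lit 23) (.e (nat_lit 532544) (nat_lit 10) (.e (nat_lit 344096) (nat_lit 18) (.e (nat_lit 4761) (nat_lit 281) (.e (nat_lit 1084) (nat_lit 81) .nil)))))))) (.g (nat_lit 6) .nil .nil))))) (.nd (nat_lit 4) (.nd (nat_lit 5) 
(.lf (nat_lit 41225) (.g (nat_lit 2573) (.e (nat_lit 1235) (nat_lit 91) (.e (nat_lit 90170) (nat_lit 13) (.e (nat_lit 172106) (nat_lit 10) (.e (nat_lit 434231) (nat_lit 23) (.e (nat_lit 532490) (nat_lit 0) (.e (nat_lit 6114) (nat_lit 332) (.e (nat_lit 1085) (nat_lit 81) (.e (nat_lit 5321) (nat_lit 298) .nil)))))))) (.g (nat_lit 4) .nil .nil))) 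
(.lf (nat_lit 41257) (.g (nat_lit 2669) (.e (nat_lit 1235) (nat_lit 91) (.e (nat_lit 90170) (nat_lit 13) (.e (nat_lit 172106) (nat_lit 10) (.e (nat_lit 434231) (nat_lit 23) (.e (nat_lit 532535) (nat_lit 9) (.e (nat_lit 335925) (nat_lit 0) (.e (nat_lit 993) (nat_lit 81) (.e (nat_lit 4769) (nat_lit 281) (.e (nat_lit 1084) (nat_lit 81) .nil))))))))) (.g (nat_lit 4) .nil .nil)))) (.nd (nat_lit 5) 
(.lf (nat_lit 41241) (.g (nat_lit 4187) (.e (nat_lit 1235) (nat_lit 91) (.e (nat_lit 90170) (nat_lit 13) (.e (nat_lit 172106) (nat_lit 10) (.e (nat_lit 434231) (nat_lit 23) (.e (nat_lit 532523) (nat_lit 7) (.e (nat_lit 319504) (nat_lit 10) (.e (nat_lit 5351) (nat_lit 298) .nil))))))) (.g (nat_lit 5) .nil .nil))) 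
(.lf (nat_lit 41273) (.g (nat_lit 4700) (.e (nat_lit 1235) (nat_lit 91) (.e (nat_lit 90170) (nat_lit 13) (.e (nat_lit 172106) (nat_lit 10) (.e (nat_lit 434231) (nat_lit 23) (.e (nat_lit 532569) (nat_lit 16) (.e (nat_lit 401409) (nat_lit 0) (.e (nat_lit 7562) (nat_lit 402) .nil))))))) (.g (nat_lit 5) .nil .nil)))))) (.nd (nat_lit 3) (.nd (nat_lit 4) (.nd (nat_lit 5) 
(.lf (nat_lit 41221) (.g (nat_lit 3330) (.e (nat_lit 1235) (nat_lit 91) (.e (nat_lit 90170) (nat_lit 13) (.e (nat_lit 172106) (nat_lit 10) (.e (nat_lit 434231) (nat_lit 23) (.e (nat_lit 532490) (nat_lit 0) (.e (nat_lit 6114) (nat_lit 332) (.e (nat_lit 972) (nat_lit 81) (.e (nat_lit 5323) (nat_lit 298) .nil)))))))) (.g (nat_lit 5) .nil .nil))) 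
(.lf (nat_lit 41253) (.g (nat_lit 3465) (.e (nat_lit 1235) (nat_lit 91) (.e (nat_lit 90170) (nat_lit 13) (.e (nat_lit 172106) (nat_lit 10) (.e (nat_lit 434231) (nat_lit 23) (.e (nat_lit 532526) (nat_lit 8) (.e (nat_lit 327706) (nat_lit 10) (.e (nat_lit 5367) (nat_lit 298) .nil))))))) (.g (nat_lit 5) .nil .nil)))) (.nd (nat_lit 5) 
(.lf (nat_lit 41237) (.g (nat_lit 3360) (.e (nat_lit 1235) (nat_lit 91) (.e (nat_lit 90170) (nat_lit 13) (.e (nat_lit 172106) (nat_lit 10) (.e (nat_lit 434231) (nat_lit 23) (.e (nat_lit 532522) (nat_lit 7) (.e (nat_lit 319504) (nat_lit 10) (.e (nat_lit 5351) (nat_lit 298) .nil))))))) (.g (nat_lit 5) .nil .nil))) 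
(.lf (nat_lit 41269) (.g (nat_lit 3633) (.e (nat_lit 1235) (nat_lit 91) (.e (nat_lit 90170) (nat_lit 13) (.e (nat_lit 172106) (nat_lit 10) (.e (nat_lit 434231) (nat_lit 23) (.e (nat_lit 532544) (nat_lit 10) (.e (nat_lit 344096) (nat_lit 18) (.e (nat_lit 4764) (nat_lit 281) (.e (nat_lit 1082) (nat_lit 81) .nil)))))))) (.g (nat_lit 6) .nil .nil))))) (.nd (nat_lit 4) (.nd (nat_lit 5) 
(.lf (nat_lit 41229) (.g (nat_lit 2498) (.e (nat_lit 1235) (nat_lit 91) (.e (nat_lit 90170) (nat_lit 13) (.e (nat_lit 172106) (nat_lit 10) (.e (nat_lit 434231) (nat_lit 23) (.e (nat_lit 532490) (nat_lit 0) (.e (nat_lit 6136) (nat_lit 332) (.e (nat_lit 989) (nat_lit 81) (.e (nat_lit 5320) (nat_lit 298) .nil)))))))) (.g (nat_lit 4) .nil .nil))) 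
(.lf (nat_lit 41261) (.g (nat_lit 2424) (.e (nat_lit 1235) (nat_lit 91) (.e (nat_lit 90170) (nat_lit 13) (.e (nat_lit 172106) (nat_lit 10) (.e (nat_lit 434231) (nat_lit 23) (.e (nat_lit 532543) (nat_lit 10) (.e (nat_lit 344096) (nat_lit 18) (.e (nat_lit 4764) (nat_lit 281) (.e (nat_lit 1060) (nat_lit 81) .nil)))))))) (.g (nat_lit 5) .nil .nil)))) (.nd (nat_lit 5) 
(.lf (nat_lit 41245) (.g (nat_lit 3136) (.e (nat_lit 1235) (nat_lit 91) (.e (nat_lit 90170) (nat_lit 13) (.e (nat_lit 172106) (nat_lit 10) (.e (nat_lit 434231) (nat_lit 23) (.e (nat_lit 532525) (nat_lit 8) (.e (nat_lit 327702) (nat_lit 10) (.e (nat_lit 5372) (nat_lit 298) .nil))))))) (.g (nat_lit 4) .nil .nil))) 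
(.lf (nat_lit 41277) (.g (nat_lit 2110) (.e (nat_lit 1235) (nat_lit 91) (.e (nat_lit 90170) (nat_lit 13) (.e (nat_lit 172106) (nat_lit 10) (.e (nat_lit 434236) (nat_lit 25) .nil)))) .nil)))))) (.nd (nat_lit 2) (.nd (nat_lit 3) (.nd (nat_lit 4) (.nd (nat_lit 5) 
(.lf (nat_lit 41219) (.g (nat_lit 3234) (.e (nat_lit 1235) (nat_lit 91) (.e (nat_lit 90170) (nat_lit 13) (.e (nat_lit 172106) (nat_lit 10) (.e (nat_lit 434231) (nat_lit 23) (.e (nat_lit 532486) (nat_lit 0) (.e (nat_lit 6225) (nat_lit 334) (.e (nat_lit 123209) (nat_lit 270) .nil))))))) (.g (nat_lit 6) .nil .nil))) 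
(.lf (nat_lit 41251) (.g (nat_lit 3621) (.e (nat_lit 1235) (nat_lit 91) (.e (nat_lit 90170) (nat_lit 13) (.e (nat_lit 172106) (nat_lit 10) (.e (nat_lit 434231) (nat_lit 23) (.e (nat_lit 532526) (nat_lit 8) (.e (nat_lit 327705) (nat_lit 10) (.e (nat_lit 5367) (nat_lit 298) .nil))))))) (.g (nat_lit 5) .nil .nil)))) (.nd (nat_lit 5) 
(.lf (nat_lit 41235) (.g (nat_lit 3624) (.e (nat_lit 1235) (nat_lit 91) (.e (nat_lit 90170) (nat_lit 13) (.e (nat_lit 172106) (nat_lit 10) (.e (nat_lit 434231) (nat_lit 23) (.e (nat_lit 532490) (nat_lit 0) (.e (nat_lit 6223) (nat_lit 334) (.e (nat_lit 123207) (nat_lit 270) .nil))))))) (.g (nat_lit 5) .nil .nil))) 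
(.lf (nat_lit 41267) (.g (nat_lit 2811) (.e (nat_lit 1235) (nat_lit 91) (.e (nat_lit 90170) (nat_lit 13) (.e (nat_lit 172106) (nat_lit 10) (.e (nat_lit 434231) (nat_lit 23) (.e (nat_lit 532544) (nat_lit 10) (.e (nat_lit 344096) (nat_lit 18) (.e (nat_lit 4764) (nat_lit 281) (.e (nat_lit 1057) (nat_lit 81) .nil)))))))) (.g (nat_lit 5) .nil .nil))))) (.nd (nat_lit 4) (.nd (nat_lit 5) 
(.lf (nat_lit 41227) (.g (nat_lit 2893) (.e (nat_lit 1235) (nat_lit 91) (.e (nat_lit 90170) (nat_lit 13) (.e (nat_lit 172106) (nat_lit 10) (.e (nat_lit 434231) (nat_lit 23) (.e (nat_lit 532490) (nat_lit 0) (.e (nat_lit 6114) (nat_lit 332) (.e (nat_lit 1107) (nat_lit 81) (.e (nat_lit 5321) (nat_lit 298) .nil)))))))) (.g (nat_lit 4) .nil .nil))) 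
(.lf (nat_lit 41259) (.g (nat_lit 2808) (.e (nat_lit 1235) (nat_lit 91) (.e (nat_lit 90170) (nat_lit 13) (.e (nat_lit 172106) (nat_lit 10) (.e (nat_lit 434231) (nat_lit 23) (.e (nat_lit 532543) (nat_lit 10) (.e (nat_lit 344090) (nat_lit 18) (.e (nat_lit 4767) (nat_lit 281) (.e (nat_lit 1084) (nat_lit 81) .nil)))))))) (.g (nat_lit 5) .nil .nil)))) (.nd (nat_lit 5) 
(.lf (nat_lit 41243) (.g (nat_lit 4436) (.e (nat_lit 1235) (nat_lit 91) (.e (nat_lit 90170) (nat_lit 13) (.e (nat_lit 172106) (nat_lit 10) (.e (nat_lit 434231) (nat_lit 23) (.e (nat_lit 532523) (nat_lit 7) (.e (nat_lit 319506) (nat_lit 10) (.e (nat_lit 5367) (nat_lit 298) .nil))))))) (.g (nat_lit 6) .nil .nil))) 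
(.lf (nat_lit 41275) (.g (nat_lit 5533) (.e (nat_lit 1235) (nat_lit 91) (.e (nat_lit 90170) (nat_lit 13) (.e (nat_lit 172106) (nat_lit 10) (.e (nat_lit 434231) (nat_lit 23) (.e (nat_lit 532569) (nat_lit 16) (.e (nat_lit 401414) (nat_lit 0) (.e (nat_lit 7556) (nat_lit 402) .nil))))))) (.g (nat_lit 0) .nil .nil)))))) (.nd (nat_lit 3) (.nd (nat_lit 4) (.nd (nat_lit 5) 
(.lf (nat_lit 41223) (.g (nat_lit 3222) (.e (nat_lit 1235) (nat_lit 91) (.e (nat_lit 90170) (nat_lit 13) (.e (nat_lit 172106) (nat_lit 10) (.e (nat_lit 434231) (nat_lit 23) (.e (nat_lit 532490) (nat_lit 0) (.e (nat_lit 6114) (nat_lit 332) (.e (nat_lit 973) (nat_lit 81) (.e (nat_lit 5325) (nat_lit 298) .nil)))))))) (.g (nat_lit 5) .nil .nil))) 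
(.lf (nat_lit 41255) (.g (nat_lit 2494) (.e (nat_lit 1235) (nat_lit 91) (.e (nat_lit 90170) (nat_lit 13) (.e (nat_lit 172106) (nat_lit 10) (.e (nat_lit 434231) (nat_lit 23) (.e (nat_lit 532529) (nat_lit 9) (.e (nat_lit 336257) (nat_lit 15) (.e (nat_lit 3593) (nat_lit 224) (.e (nat_lit 753698) (nat_lit 13) .nil)))))))) (.g (nat_lit 4) .nil .nil)))) (.nd (nat_lit 5) 
(.lf (nat_lit 41239) (.g (nat_lit 3756) (.e (nat_lit 1235) (nat_lit 91) (.e (nat_lit 90170) (nat_lit 13) (.e (nat_lit 172106) (nat_lit 10) (.e (nat_lit 434231) (nat_lit 23) (.e (nat_lit 532523) (nat_lit 7) (.e (nat_lit 319496) (nat_lit 10) (.e (nat_lit 5351) (nat_lit 298) .nil))))))) (.g (nat_lit 5) .nil .nil))) 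
(.lf (nat_lit 41271) (.g (nat_lit 3130) (.e (nat_lit 1235) (nat_lit 91) (.e (nat_lit 90170) (nat_lit 13) (.e (nat_lit 172106) (nat_lit 10) (.e (nat_lit 434231) (nat_lit 23) (.e (nat_lit 532553) (nat_lit 13) .nil))))) .nil)))) (.nd (nat_lit 4) (.nd (nat_lit 5) 
(.lf (nat_lit 41231) (.g (nat_lit 2574) (.e (nat_lit 1235) (nat_lit 91) (.e (nat_lit 90170) (nat_lit 13) (.e (nat_lit 172106) (nat_lit 10) (.e (nat_lit 434231) (nat_lit 23) (.e (nat_lit 532490) (nat_lit 0) (.e (nat_lit 6149) (nat_lit 332) (.e (nat_lit 1012) (nat_lit 81) (.e (nat_lit 5351) (nat_lit 298) .nil)))))))) (.g (nat_lit 4) .nil .nil))) 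
(.lf (nat_lit 41263) (.g (nat_lit 2793) (.e (nat_lit 1235) (nat_lit 91) (.e (nat_lit 90170) (nat_lit 13) (.e (nat_lit 172106) (nat_lit 10) (.e (nat_lit 434231) (nat_lit 23) (.e (nat_lit 532544) (nat_lit 10) (.e (nat_lit 344091) (nat_lit 18) (.e (nat_lit 4767) (nat_lit 281) (.e (nat_lit 1084) (nat_lit 81) .nil)))))))) (.g (nat_lit 5) .nil .nil)))) (.nd (nat_lit 5) 
(.lf (nat_lit 41247) (.g (nat_lit 3302) (.e (nat_lit 1235) (nat_lit 91) (.e (nat_lit 90170) (nat_lit 13) (.e (nat_lit 172106) (nat_lit 10) (.e (nat_lit 434231) (nat_lit 23) (.e (nat_lit 532526) (nat_lit 8) (.e (nat_lit 327702) (nat_lit 10) (.e (nat_lit 5327) (nat_lit 298) .nil))))))) (.g (nat_lit 4) .nil .nil))) 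
(.lf (nat_lit 41279) (.g (nat_lit 1472) (.e (nat_lit 1235) (nat_lit 91) (.e (nat_lit 90170) (nat_lit 13) (.e (nat_lit 172106) (nat_lit 10) (.e (nat_lit 434238) (nat_lit 25) .nil)))) .nil))))))))

noncomputable def tv574 : DT := (.nd (nat_lit 0) (.nd (nat_lit 1) (.nd (nat_lit 2) (.nd (nat_lit 3) (.nd (nat_lit 4) (.nd (nat_lit 5) 
(.lf (nat_lit 41280) (.g (nat_lit 2064) (.e (nat_lit 1235) (nat_lit 91) (.e (nat_lit 90170) (nat_lit 13) (.e (nat_lit 172106) (nat_lit 10) (.e (nat_lit 434238) (nat_lit 25) (.e (nat_lit 548898) (nat_lit 14) .nil))))) .nil)) 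
(.lf (nat_lit 41312) (.g (nat_lit 2610) (.e (nat_lit 1235) (nat_lit 91) (.e (nat_lit 90170) (nat_lit 13) (.e (nat_lit 172113) (nat_lit 10) (.e (nat_lit 434227) (nat_lit 20) (.e (nat_lit 507929) (nat_lit 10) (.e (nat_lit 5763) (nat_lit 315) (.e (nat_lit 164239) (nat_lit 187) .nil))))))) (.g (nat_lit 5) .nil .nil)))) (.nd (nat_lit 5) 
(.lf (nat_lit 41296) (.g (nat_lit 2898) (.e (nat_lit 1235) (nat_lit 91) (.e (nat_lit 90170) (nat_lit 13) (.e (nat_lit 172106) (nat_lit 10) (.e (nat_lit 434244) (nat_lit 28) (.e (nat_lit 573471) (nat_lit 11) (.e (nat_lit 16392) (nat_lit 0) (.e (nat_lit 7559) (nat_lit 402) .nil))))))) (.g (nat_lit 5) .nil .nil))) 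
(.lf (nat_lit 41328) (.g (nat_lit 2666) (.e (nat_lit 1235) (nat_lit 91) (.e (nat_lit 90170) (nat_lit 13) (.e (nat_lit 172113) (nat_lit 10) (.e (nat_lit 434238) (nat_lit 25) (.e (nat_lit 548914) (nat_lit 19) (.e (nat_lit 180278) (nat_lit 32) .nil)))))) (.g (nat_lit 0) .nil .nil))))) (.nd (nat_lit 4) (.nd (nat_lit 5) 
(.lf (nat_lit 41288) (.g (nat_lit 4552) (.e (nat_lit 1235) (nat_lit 91) (.e (nat_lit 90170) (nat_lit 13) (.e (nat_lit 172106) (nat_lit 10) (.e (nat_lit 434238) (nat_lit 25) (.e (nat_lit 548913) (nat_lit 18) (.e (nat_lit 172041) (nat_lit 0) (.e (nat_lit 7562) (nat_lit 402) .nil))))))) (.g (nat_lit 6) .nil .nil))) 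
(.lf (nat_lit 41320) (.g (nat_lit 1551) (.e (nat_lit 1235) (nat_lit 91) (.e (nat_lit 90170) (nat_lit 13) (.e (nat_lit 172113) (nat_lit 10) (.e (nat_lit 434237) (nat_lit 25) (.e (nat_lit 548914) (nat_lit 19) (.e (nat_lit 180278) (nat_lit 32) .nil)))))) (.g (nat_lit 4) .nil .nil)))) (.nd (nat_lit 5) 
(.lf (nat_lit 41304) (.g (nat_lit 2085) (.e (nat_lit 1235) (nat_lit 91) (.e (nat_lit 90170) (nat_lit 13) (.e (nat_lit 172113) (nat_lit 10) (.e (nat_lit 434203) (nat_lit 18) (.e (nat_lit 6420) (nat_lit 341) (.e (nat_lit 163885) (nat_lit 5) (.e (nat_lit 221219) (nat_lit 24) (.e (nat_lit 212992) (nat_lit 0) .nil)))))))) (.g (nat_lit 4) .nil .nil))) 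
(.lf (nat_lit 41336) (.g (nat_lit 3532) (.e (nat_lit 1235) (nat_lit 91) (.e (nat_lit 90170) (nat_lit 13) (.e (nat_lit 172113) (nat_lit 10) (.e (nat_lit 434245) (nat_lit 28) (.e (nat_lit 573471) (nat_lit 11) (.e (nat_lit 16389) (nat_lit 0) (.e (nat_lit 7562) (nat_lit 402) .nil))))))) (.g (nat_lit 6) .nil .nil)))))) (.nd (nat_lit 3) (.nd (nat_lit 4) (.nd (nat_lit 5) 
(.lf (nat_lit 41284) (.g (nat_lit 2591) (.e (nat_lit 1235) (nat_lit 91) (.e (nat_lit 90170) (nat_lit 13) (.e (nat_lit 172106) (nat_lit 10) (.e (nat_lit 434238) (nat_lit 25) (.e (nat_lit 548913) (nat_lit 18) (.e (nat_lit 172033) (nat_lit 0) (.e (nat_lit 7555) (nat_lit 402) .nil))))))) (.g (nat_lit 4) .nil .nil))) 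
(.lf (nat_lit 41316) (.g (nat_lit 2595) (.e (nat_lit 1235) (nat_lit 91) (.e (nat_lit 90170) (nat_lit 13) (.e (nat_lit 172113) (nat_lit 10) (.e (nat_lit 434227) (nat_lit 20) (.e (nat_lit 507930) (nat_lit 10) (.e (nat_lit 5763) (nat_lit 315) (.e (nat_lit 164238) (nat_lit 187) .nil))))))) (.g (nat_lit 5) .nil .nil)))) (.nd (nat_lit 5) 
(.lf (nat_lit 41300) (.g (nat_lit 698) (.e (nat_lit 1235) (nat_lit 91) (.e (nat_lit 90170) (nat_lit 13) (.e (nat_lit 172107) (nat_lit 10) .nil))) .nil)) 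
(.lf (nat_lit 41332) (.g (nat_lit 1304) (.e (nat_lit 1235) (nat_lit 91) (.e (nat_lit 90170) (nat_lit 13) (.e (nat_lit 172113) (nat_lit 10) (.e (nat_lit 434245) (nat_lit 28) (.e (nat_lit 573471) (nat_lit 11) .nil))))) .nil)))) (.nd (nat_lit 4) (.nd (nat_lit 5) 
(.lf (nat_lit 41292) (.g (nat_lit 2723) (.e (nat_lit 1235) (nat_lit 91) (.e (nat_lit 90170) (nat_lit 13) (.e (nat_lit 172106) (nat_lit 10) (.e (nat_lit 434244) (nat_lit 28) (.e (nat_lit 573451) (nat_lit 9) (.e (nat_lit 11) (nat_lit 0) (.e (nat_lit 7381) (nat_lit 391) (.e (nat_lit 164238) (nat_lit 187) .nil)))))))) (.g (nat_lit 4) .nil .nil))) 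
(.lf (nat_lit 41324) (.g (nat_lit 3208) (.e (nat_lit 1235) (nat_lit 91) (.e (nat_lit 90170) (nat_lit 13) (.e (nat_lit 172113) (nat_lit 10) (.e (nat_lit 434238) (nat_lit 25) (.e (nat_lit 548913) (nat_lit 18) (.e (nat_lit 172033) (nat_lit 0) (.e (nat_lit 7557) (nat_lit 402) .nil))))))) (.g (nat_lit 6) .nil .nil)))) (.nd (nat_lit 5) 
(.lf (nat_lit 41308) (.g (nat_lit 1068) (.e (nat_lit 1235) (nat_lit 91) (.e (nat_lit 90170) (nat_lit 13) (.e (nat_lit 172113) (nat_lit 10) (.e (nat_lit 434227) (nat_lit 20) .nil)))) .nil)) 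
(.lf (nat_lit 41340) (.g (nat_lit 3198) (.e (nat_lit 1235) (nat_lit 91) (.e (nat_lit 90170) (nat_lit 13) (.e (nat_lit 172113) (nat_lit 10) (.e (nat_lit 434245) (nat_lit 28) (.e (nat_lit 573471) (nat_lit 11) (.e (nat_lit 16392) (nat_lit 0) (.e (nat_lit 7936) (nat_lit 402) .nil))))))) (.g (nat_lit 6) .nil .nil))))))) (.nd (nat_lit 2) (.nd (nat_lit 3) (.nd (nat_lit 4) (.nd (nat_lit 5) 
(.lf (nat_lit 41282) (.g (nat_lit 2534) (.e (nat_lit 1235) (nat_lit 91) (.e (nat_lit 90170) (nat_lit 13) (.e (nat_lit 172106) (nat_lit 10) (.e (nat_lit 434238) (nat_lit 25) (.e (nat_lit 548911) (nat_lit 18) (.e (nat_lit 172037) (nat_lit 0) (.e (nat_lit 7557) (nat_lit 402) .nil))))))) (.g (nat_lit 4) .nil .nil))) 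
(.lf (nat_lit 41314) (.g (nat_lit 2453) (.e (nat_lit 1235) (nat_lit 91) (.e (nat_lit 90170) (nat_lit 13) (.e (nat_lit 172113) (nat_lit 10) (.e (nat_lit 434227) (nat_lit 20) (.e (nat_lit 507930) (nat_lit 10) (.e (nat_lit 5760) (nat_lit 315) (.e (nat_lit 164239) (nat_lit 187) .nil))))))) (.g (nat_lit 5) .nil .nil)))) (.nd (nat_lit 5) 
(.lf (nat_lit 41298) (.g (nat_lit 2083) (.e (nat_lit 1235) (nat_lit 91) (.e (nat_lit 90170) (nat_lit 13) (.e (nat_lit 172106) (nat_lit 10) (.e (nat_lit 434244) (nat_lit 28) (.e (nat_lit 573471) (nat_lit 11) (.e (nat_lit 16396) (nat_lit 0) (.e (nat_lit 7936) (nat_lit 402) .nil))))))) (.g (nat_lit 4) .nil .nil))) 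
(.lf (nat_lit 41330) (.g (nat_lit 1521) (.e (nat_lit 1235) (nat_lit 91) (.e (nat_lit 90170) (nat_lit 13) (.e (nat_lit 172113) (nat_lit 10) (.e (nat_lit 434245) (nat_lit 28) (.e (nat_lit 573450) (nat_lit 9) .nil))))) .nil)))) (.nd (nat_lit 4) (.nd (nat_lit 5) 
(.lf (nat_lit 41290) (.g (nat_lit 1031) (.e (nat_lit 1235) (nat_lit 91) (.e (nat_lit 90170) (nat_lit 13) (.e (nat_lit 172106) (nat_lit 10) (.e (nat_lit 434244) (nat_lit 28) .nil)))) .nil)) 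
(.lf (nat_lit 41322) (.g (nat_lit 2275) (.e (nat_lit 1235) (nat_lit 91) (.e (nat_lit 90170) (nat_lit 13) (.e (nat_lit 172113) (nat_lit 10) (.e (nat_lit 434238) (nat_lit 25) (.e (nat_lit 548911) (nat_lit 18) (.e (nat_lit 172037) (nat_lit 0) (.e (nat_lit 7557) (nat_lit 402) .nil))))))) (.g (nat_lit 4) .nil .nil)))) (.nd (nat_lit 5) 
(.lf (nat_lit 41306) (.g (nat_lit 2116) (.e (nat_lit 1235) (nat_lit 91) (.e (nat_lit 90170) (nat_lit 13) (.e (nat_lit 172113) (nat_lit 10) (.e (nat_lit 434208) (nat_lit 18) (.e (nat_lit 6416) (nat_lit 341) (.e (nat_lit 163885) (nat_lit 5) (.e (nat_lit 221219) (nat_lit 24) (.e (nat_lit 212992) (nat_lit 0) .nil)))))))) (.g (nat_lit 4) .nil .nil))) 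
(.lf (nat_lit 41338) (.g (nat_lit 3925) (.e (nat_lit 1235) (nat_lit 91) (.e (nat_lit 90170) (nat_lit 13) (.e (nat_lit 172113) (nat_lit 10) (.e (nat_lit 434245) (nat_lit 28) (.e (nat_lit 573471) (nat_lit 11) (.e (nat_lit 16392) (nat_lit 0) (.e (nat_lit 7554) (nat_lit 402) .nil))))))) (.g (nat_lit 0) .nil .nil)))))) (.nd (nat_lit 3) (.nd (nat_lit 4) (.nd (nat_lit 5) 
(.lf (nat_lit 41286) (.g (nat_lit 4436) (.e (nat_lit 1235) (nat_lit 91) (.e (nat_lit 90170) (nat_lit 13) (.e (nat_lit 172106) (nat_lit 10) (.e (nat_lit 434238) (nat_lit 25) (.e (nat_lit 548913) (nat_lit 18) (.e (nat_lit 172037) (nat_lit 0) (.e (nat_lit 7557) (nat_lit 402) .nil))))))) (.g (nat_lit 6) .nil .nil))) 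
(.lf (nat_lit 41318) (.g (nat_lit 1199) (.e (nat_lit 1235) (nat_lit 91) (.e (nat_lit 90170) (nat_lit 13) (.e (nat_lit 172113) (nat_lit 10) (.e (nat_lit 434236) (nat_lit 25) .nil)))) .nil))) (.nd (nat_lit 5) 
(.lf (nat_lit 41302) (.g (nat_lit 1791) (.e (nat_lit 1235) (nat_lit 91) (.e (nat_lit 90170) (nat_lit 13) (.e (nat_lit 172113) (nat_lit 10) (.e (nat_lit 434203) (nat_lit 18) (.e (nat_lit 3955) (nat_lit 239) .nil))))) .nil)) 
(.lf (nat_lit 41334) (.g (nat_lit 2047) (.e (nat_lit 1235) (nat_lit 91) (.e (nat_lit 90170) (nat_lit 13) (.e (nat_lit 172113) (nat_lit 10) (.e (nat_lit 434245) (nat_lit 28) (.e (nat_lit 573471) (nat_lit 11) (.e (nat_lit 16386) (nat_lit 0) (.e (nat_lit 7513) (nat_lit 402) .nil))))))) (.g (nat_lit 4) .nil .nil))))) (.nd (nat_lit 4) (.nd (nat_lit 5) 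
(.lf (nat_lit 41294) (.g (nat_lit 3760) (.e (nat_lit 1235) (nat_lit 91) (.e (nat_lit 90170) (nat_lit 13) (.e (nat_lit 172106) (nat_lit 10) (.e (nat_lit 434244) (nat_lit 28) (.e (nat_lit 573471) (nat_lit 11) (.e (nat_lit 16392) (nat_lit 0) (.e (nat_lit 7521) (nat_lit 402) .nil))))))) (.g (nat_lit 0) .nil .nil))) 
(.lf (nat_lit 41326) (.g (nat_lit 3168) (.e (nat_lit 1235) (nat_lit 91) (.e (nat_lit 90170) (nat_lit 13) (.e (nat_lit 172113) (nat_lit 10) (.e (nat_lit 434238) (nat_lit 25) (.e (nat_lit 548913) (nat_lit 18) (.e (nat_lit 172039) (nat_lit 0) (.e (nat_lit 7554) (nat_lit 402) .nil))))))) (.g (nat_lit 5) .nil .nil)))) (.nd (nat_lit 5) 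
(.lf (nat_lit 41310) (.g (nat_lit 2142) (.e (nat_lit 1235) (nat_lit 91) (.e (nat_lit 90170) (nat_lit 13) (.e (nat_lit 172113) (nat_lit 10) (.e (nat_lit 434227) (nat_lit 20) (.e (nat_lit 507929) (nat_lit 10) (.e (nat_lit 5762) (nat_lit 315) (.e (nat_lit 164239) (nat_lit 187) .nil))))))) (.g (nat_lit 4) .nil .nil))) 
(.lf (nat_lit 41342) (.g (nat_lit 1776) (.e (nat_lit 1235) (nat_lit 91) (.e (nat_lit 90170) (nat_lit 13) (.e (nat_lit 172113) (nat_lit 10) (.e (nat_lit 434247) (nat_lit 28) (.e (nat_lit 573457) (nat_lit 9) .nil))))) .nil))))))) (.nd (nat_lit 1) (.nd (nat_lit 2) (.nd (nat_lit 3) (.nd (nat_lit 4) (.nd (nat_lit 5) 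
(.lf (nat_lit 41281) (.g (nat_lit 2487) (.e (nat_lit 1235) (nat_lit 91) (.e (nat_lit 90170) (nat_lit 13) (.e (nat_lit 172106) (nat_lit 10) (.e (nat_lit 434238) (nat_lit 25) (.e (nat_lit 548898) (nat_lit 14) (.e (nat_lit 2980) (nat_lit 185) (.e (nat_lit 434181) (nat_lit 0) .nil))))))) (.g (nat_lit 4) .nil .nil))) 
(.lf (nat_lit 41313) (.g (nat_lit 2139) (.e (nat_lit 1235) (nat_lit 91) (.e (nat_lit 90170) (nat_lit 13) (.e (nat_lit 172113) (nat_lit 10) (.e (nat_lit 434227) (nat_lit 20) (.e (nat_lit 507930) (nat_lit 10) (.e (nat_lit 5756) (nat_lit 315) (.e (nat_lit 164238) (nat_lit 187) .nil))))))) (.g (nat_lit 4) .nil .nil)))) (.nd (nat_lit 5) 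
(.lf (nat_lit 41297) (.g (nat_lit 3417) (.e (nat_lit 1235) (nat_lit 91) (.e (nat_lit 90170) (nat_lit 13) (.e (nat_lit 172106) (nat_lit 10) (.e (nat_lit 434244) (nat_lit 28) (.e (nat_lit 573471) (nat_lit 11) (.e (nat_lit 16392) (nat_lit 0) (.e (nat_lit 7936) (nat_lit 402) .nil))))))) (.g (nat_lit 6) .nil .nil))) 
(.lf (nat_lit 41329) (.g (nat_lit 743) (.e (nat_lit 1235) (nat_lit 91) (.e (nat_lit 90170) (nat_lit 13) (.e (nat_lit 172113) (nat_lit 10) (.e (nat_lit 434242) (nat_lit 28) .nil)))) .nil)))) (.nd (nat_lit 4) (.nd (nat_lit 5) 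
(.lf (nat_lit 41289) (.g (nat_lit 3138) (.e (nat_lit 1235) (nat_lit 91) (.e (nat_lit 90170) (nat_lit 13) (.e (nat_lit 172106) (nat_lit 10) (.e (nat_lit 434238) (nat_lit 25) (.e (nat_lit 548914) (nat_lit 19) (.e (nat_lit 180278) (nat_lit 32) .nil)))))) (.g (nat_lit 0) .nil .nil))) 
(.lf (nat_lit 41321) (.g (nat_lit 1025) (.e (nat_lit 1235) (nat_lit 91) (.e (nat_lit 90170) (nat_lit 13) (.e (nat_lit 172113) (nat_lit 10) (.e (nat_lit 434238) (nat_lit 25) .nil)))) .nil))) (.nd (nat_lit 5) 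
(.lf (nat_lit 41305) (.g (nat_lit 1047) (.e (nat_lit 1235) (nat_lit 91) (.e (nat_lit 90170) (nat_lit 13) (.e (nat_lit 172113) (nat_lit 10) (.e (nat_lit 434207) (nat_lit 18) .nil)))) .nil)) 
(.lf (nat_lit 41337) (.g (nat_lit 4072) (.e (nat_lit 1235) (nat_lit 91) (.e (nat_lit 90170) (nat_lit 13) (.e (nat_lit 172113) (nat_lit 10) (.e (nat_lit 434245) (nat_lit 28) (.e (nat_lit 573471) (nat_lit 11) (.e (nat_lit 16392) (nat_lit 0) (.e (nat_lit 7537) (nat_lit 402) .nil))))))) (.g (nat_lit 0) .nil .nil)))))) (.nd (nat_lit 3) (.nd (nat_lit 4) (.nd (nat_lit 5) 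
(.lf (nat_lit 41285) (.g (nat_lit 3540) (.e (nat_lit 1235) (nat_lit 91) (.e (nat_lit 90170) (nat_lit 13) (.e (nat_lit 172106) (nat_lit 10) (.e (nat_lit 434238) (nat_lit 25) (.e (nat_lit 548913) (nat_lit 18) (.e (nat_lit 172033) (nat_lit 0) (.e (nat_lit 7557) (nat_lit 402) .nil))))))) (.g (nat_lit 6) .nil .nil))) 
(.lf (nat_lit 41317) (.g (nat_lit 2538) (.e (nat_lit 1235) (nat_lit 91) (.e (nat_lit 90170) (nat_lit 13) (.e (nat_lit 172113) (nat_lit 10) (.e (nat_lit 434227) (nat_lit 20) (.e (nat_lit 507930) (nat_lit 10) (.e (nat_lit 5763) (nat_lit 315) (.e (nat_lit 164239) (nat_lit 187) .nil))))))) (.g (nat_lit 5) .nil .nil)))) (.nd (nat_lit 5) 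
(.lf (nat_lit 41301) (.g (nat_lit 1350) (.e (nat_lit 1235) (nat_lit 91) (.e (nat_lit 90170) (nat_lit 13) (.e (nat_lit 172113) (nat_lit 10) (.e (nat_lit 434201) (nat_lit 18) .nil)))) .nil)) 
(.lf (nat_lit 41333) (.g (nat_lit 2659) (.e (nat_lit 1235) (nat_lit 91) (.e (nat_lit 90170) (nat_lit 13) (.e (nat_lit 172113) (nat_lit 10) (.e (nat_lit 434245) (nat_lit 28) (.e (nat_lit 573471) (nat_lit 11) (.e (nat_lit 16384) (nat_lit 0) (.e (nat_lit 7562) (nat_lit 402) .nil))))))) (.g (nat_lit 5) .nil .nil))))) (.nd (nat_lit 4) (.nd (nat_lit 5) 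
(.lf (nat_lit 41293) (.g (nat_lit 2120) (.e (nat_lit 1235) (nat_lit 91) (.e (nat_lit 90170) (nat_lit 13) (.e (nat_lit 172106) (nat_lit 10) (.e (nat_lit 434244) (nat_lit 28) (.e (nat_lit 573458) (nat_lit 9) .nil))))) .nil)) 
(.lf (nat_lit 41325) (.g (nat_lit 4146) (.e (nat_lit 1235) (nat_lit 91) (.e (nat_lit 90170) (nat_lit 13) (.e (nat_lit 172113) (nat_lit 10) (.e (nat_lit 434238) (nat_lit 25) (.e (nat_lit 548913) (nat_lit 18) (.e (nat_lit 172037) (nat_lit 0) (.e (nat_lit 7557) (nat_lit 402) .nil))))))) (.g (nat_lit 7) .nil .nil)))) (.nd (nat_lit 5) 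
(.lf (nat_lit 41309) (.g (nat_lit 2178) (.e (nat_lit 1235) (nat_lit 91) (.e (nat_lit 90170) (nat_lit 13) (.e (nat_lit 172113) (nat_lit 10) (.e (nat_lit 434227) (nat_lit 20) (.e (nat_lit 507929) (nat_lit 10) (.e (nat_lit 5762) (nat_lit 315) (.e (nat_lit 164238) (nat_lit 187) .nil))))))) (.g (nat_lit 4) .nil .nil))) 
(.lf (nat_lit 41341) (.g (nat_lit 3365) (.e (nat_lit 1235) (nat_lit 91) (.e (nat_lit 90170) (nat_lit 13) (.e (nat_lit 172113) (nat_lit 10) (.e (nat_lit 434245) (nat_lit 28) (.e (nat_lit 573471) (nat_lit 11) (.e (nat_lit 16393) (nat_lit 0) (.e (nat_lit 7562) (nat_lit 402) .nil))))))) (.g (nat_lit 5) .nil .nil))))))) (.nd (nat_lit 2) (.nd (nat_lit 3) (.nd (nat_lit 4) (.nd (nat_lit 5) 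
(.lf (nat_lit 41283) (.g (nat_lit 2396) (.e (nat_lit 1235) (nat_lit 91) (.e (nat_lit 90170) (nat_lit 13) (.e (nat_lit 172106) (nat_lit 10) (.e (nat_lit 434238) (nat_lit 25) (.e (nat_lit 548913) (nat_lit 18) (.e (nat_lit 172033) (nat_lit 0) (.e (nat_lit 7523) (nat_lit 402) .nil))))))) (.g (nat_lit 4) .nil .nil))) 
(.lf (nat_lit 41315) (.g (nat_lit 2348) (.e (nat_lit 1235) (nat_lit 91) (.e (nat_lit 90170) (nat_lit 13) (.e (nat_lit 172113) (nat_lit 10) (.e (nat_lit 434227) (nat_lit 20) (.e (nat_lit 507930) (nat_lit 10) (.e (nat_lit 5762) (nat_lit 315) (.e (nat_lit 164239) (nat_lit 187) .nil))))))) (.g (nat_lit 5) .nil .nil)))) (.nd (nat_lit 5) 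
(.lf (nat_lit 41299) (.g (nat_lit 2092) (.e (nat_lit 1235) (nat_lit 91) (.e (nat_lit 90170) (nat_lit 13) (.e (nat_lit 172106) (nat_lit 10) (.e (nat_lit 434244) (nat_lit 28) (.e (nat_lit 573471) (nat_lit 11) (.e (nat_lit 16397) (nat_lit 0) (.e (nat_lit 7554) (nat_lit 402) .nil))))))) (.g (nat_lit 4) .nil .nil))) 
(.lf (nat_lit 41331) (.g (nat_lit 1607) (.e (nat_lit 1235) (nat_lit 91) (.e (nat_lit 90170) (nat_lit 13) (.e (nat_lit 172113) (nat_lit 10) (.e (nat_lit 434245) (nat_lit 28) (.e (nat_lit 573458) (nat_lit 9) .nil))))) .nil)))) (.nd (nat_lit 4) (.nd (nat_lit 5) 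
(.lf (nat_lit 41291) (.g (nat_lit 2258) (.e (nat_lit 1235) (nat_lit 91) (.e (nat_lit 90170) (nat_lit 13) (.e (nat_lit 172106) (nat_lit 10) (.e (nat_lit 434244) (nat_lit 28) (.e (nat_lit 573451) (nat_lit 9) .nil))))) .nil)) 
(.lf (nat_lit 41323) (.g (nat_lit 1665) (.e (nat_lit 1235) (nat_lit 91) (.e (nat_lit 90170) (nat_lit 13) (.e (nat_lit 172113) (nat_lit 10) (.e (nat_lit 434238) (nat_lit 25) (.e (nat_lit 548913) (nat_lit 18) (.e (nat_lit 172033) (nat_lit 0) (.e (nat_lit 7555) (nat_lit 402) .nil))))))) (.g (nat_lit 4) .nil .nil)))) (.nd (nat_lit 5) 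
(.lf (nat_lit 41307) (.g (nat_lit 2210) (.e (nat_lit 1235) (nat_lit 91) (.e (nat_lit 90170) (nat_lit 13) (.e (nat_lit 172113) (nat_lit 10) (.e (nat_lit 434208) (nat_lit 18) (.e (nat_lit 6420) (nat_lit 341) (.e (nat_lit 163885) (nat_lit 5) (.e (nat_lit 221219) (nat_lit 24) (.e (nat_lit 212992) (nat_lit 0) .nil)))))))) (.g (nat_lit 4) .nil .nil))) 
(.lf (nat_lit 41339) (.g (nat_lit 3026) (.e (nat_lit 1235) (nat_lit 91) (.e (nat_lit 90170) (nat_lit 13) (.e (nat_lit 172113) (nat_lit 10) (.e (nat_lit 434245) (nat_lit 28) (.e (nat_lit 573471) (nat_lit 11) (.e (nat_lit 16392) (nat_lit 0) (.e (nat_lit 7559) (nat_lit 402) .nil))))))) (.g (nat_lit 5) .nil .nil)))))) (.nd (nat_lit 3) (.nd (nat_lit 4) (.nd (nat_lit 5) 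
(.lf (nat_lit 41287) (.g (nat_lit 3976) (.e (nat_lit 1235) (nat_lit 91) (.e (nat_lit 90170) (nat_lit 13) (.e (nat_lit 172106) (nat_lit 10) (.e (nat_lit 434238) (nat_lit 25) (.e (nat_lit 548913) (nat_lit 18) (.e (nat_lit 172039) (nat_lit 0) (.e (nat_lit 7554) (nat_lit 402) .nil))))))) (.g (nat_lit 5) .nil .nil))) 
(.lf (nat_lit 41319) (.g (nat_lit 2393) (.e (nat_lit 1235) (nat_lit 91) (.e (nat_lit 90170) (nat_lit 13) (.e (nat_lit 172113) (nat_lit 10) (.e (nat_lit 434236) (nat_lit 25) (.e (nat_lit 548914) (nat_lit 19) (.e (nat_lit 180277) (nat_lit 32) .nil)))))) (.g (nat_lit 6) .nil .nil)))) (.nd (nat_lit 5) 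
(.lf (nat_lit 41303) (.g (nat_lit 1978) (.e (nat_lit 1235) (nat_lit 91) (.e (nat_lit 90170) (nat_lit 13) (.e (nat_lit 172113) (nat_lit 10) (.e (nat_lit 434203) (nat_lit 18) (.e (nat_lit 6416) (nat_lit 341) (.e (nat_lit 163885) (nat_lit 5) (.e (nat_lit 221219) (nat_lit 24) (.e (nat_lit 212992) (nat_lit 0) .nil)))))))) (.g (nat_lit 4) .nil .nil))) 
(.lf (nat_lit 41335) (.g (nat_lit 1683) (.e (nat_lit 1235) (nat_lit 91) (.e (nat_lit 90170) (nat_lit 13) (.e (nat_lit 172113) (nat_lit 10) (.e (nat_lit 434245) (nat_lit 28) (.e (nat_lit 573471) (nat_lit 11) (.e (nat_lit 16386) (nat_lit 0) (.e (nat_lit 7548) (nat_lit 402) .nil))))))) (.g (nat_lit 4) .nil .nil))))) (.nd (nat_lit 4) (.nd (nat_lit 5) 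
(.lf (nat_lit 41295) (.g (nat_lit 3900) (.e (nat_lit 1235) (nat_lit 91) (.e (nat_lit 90170) (nat_lit 13) (.e (nat_lit 172106) (nat_lit 10) (.e (nat_lit 434244) (nat_lit 28) (.e (nat_lit 573471) (nat_lit 11) (.e (nat_lit 16392) (nat_lit 0) (.e (nat_lit 7554) (nat_lit 402) .nil))))))) (.g (nat_lit 7) .nil .nil))) 
(.lf (nat_lit 41327) (.g (nat_lit 3621) (.e (nat_lit 1235) (nat_lit 91) (.e (nat_lit 90170) (nat_lit 13) (.e (nat_lit 172113) (nat_lit 10) (.e (nat_lit 434238) (nat_lit 25) (.e (nat_lit 548913) (nat_lit 18) (.e (nat_lit 172041) (nat_lit 0) (.e (nat_lit 7562) (nat_lit 402) .nil))))))) (.g (nat_lit 5) .nil .nil)))) (.nd (nat_lit 5) 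
(.lf (nat_lit 41311) (.g (nat_lit 2611) (.e (nat_lit 1235) (nat_lit 91) (.e (nat_lit 90170) (nat_lit 13) (.e (nat_lit 172113) (nat_lit 10) (.e (nat_lit 434227) (nat_lit 20) (.e (nat_lit 507929) (nat_lit 10) (.e (nat_lit 5763) (nat_lit 315) (.e (nat_lit 164238) (nat_lit 187) .nil))))))) (.g (nat_lit 5) .nil .nil))) 
(.lf (nat_lit 41343) (.g (nat_lit 933) (.e (nat_lit 1235) (nat_lit 91) (.e (nat_lit 90170) (nat_lit 13) (.e (nat_lit 172113) (nat_lit 10) (.e (nat_lit 434248) (nat_lit 28) .nil)))) .nil))))))))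

noncomputable def tv575 : DT := (.nd (nat_lit 0) (.nd (nat_lit 1) (.nd (nat_lit 2) (.nd (nat_lit 3) (.nd (nat_lit 4) (.nd (nat_lit 5) 
(.lf (nat_lit 41344) (.g (nat_lit 1854) (.e (nat_lit 1235) (nat_lit 91) (.e (nat_lit 90170) (nat_lit 13) (.e (nat_lit 172113) (nat_lit 10) (.e (nat_lit 434248) (nat_lit 28) (.e (nat_lit 573452) (nat_lit 9) .nil))))) .nil)) 
(.lf (nat_lit 41376) (.g (nat_lit 1280) (.e (nat_lit 1235) (nat_lit 91) (.e (nat_lit 90170) (nat_lit 13) (.e (nat_lit 172126) (nat_lit 14) (.e (nat_lit 491540) (nat_lit 3) .nil)))) .nil))) (.nd (nat_lit 5) 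
(.lf (nat_lit 41360) (.g (nat_lit 1011) (.e (nat_lit 1235) (nat_lit 91) (.e (nat_lit 90170) (nat_lit 13) (.e (nat_lit 172124) (nat_lit 14) (.e (nat_lit 491540) (nat_lit 3) .nil)))) .nil)) 
(.lf (nat_lit 41392) (.g (nat_lit 2885) (.e (nat_lit 1235) (nat_lit 91) (.e (nat_lit 90176) (nat_lit 15) (.e (nat_lit 188420) (nat_lit 0) (.e (nat_lit 1856) (nat_lit 124) (.e (nat_lit 557105) (nat_lit 14) (.e (nat_lit 180278) (nat_lit 32) .nil)))))) (.g (nat_lit 0) .nil .nil))))) (.nd (nat_lit 4) (.nd (nat_lit 5) 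
(.lf (nat_lit 41352) (.g (nat_lit 3714) (.e (nat_lit 1235) (nat_lit 91) (.e (nat_lit 90170) (nat_lit 13) (.e (nat_lit 172120) (nat_lit 12) (.e (nat_lit 475183) (nat_lit 29) (.e (nat_lit 557104) (nat_lit 14) (.e (nat_lit 180278) (nat_lit 32) .nil)))))) (.g (nat_lit 5) .nil .nil))) 
(.lf (nat_lit 41384) (.g (nat_lit 2293) (.e (nat_lit 1235) (nat_lit 91) (.e (nat_lit 90176) (nat_lit 15) (.e (nat_lit 188418) (nat_lit 0) (.e (nat_lit 1856) (nat_lit 124) (.e (nat_lit 557103) (nat_lit 14) (.e (nat_lit 180277) (nat_lit 32) .nil)))))) (.g (nat_lit 4) .nil .nil)))) (.nd (nat_lit 5) 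
(.lf (nat_lit 41368) (.g (nat_lit 2932) (.e (nat_lit 1235) (nat_lit 91) (.e (nat_lit 90170) (nat_lit 13) (.e (nat_lit 172126) (nat_lit 14) (.e (nat_lit 491535) (nat_lit 2) (.e (nat_lit 90172) (nat_lit 14) (.e (nat_lit 180278) (nat_lit 32) .nil)))))) (.g (nat_lit 4) .nil .nil))) 
(.lf (nat_lit 41400) (.g (nat_lit 1984) (.e (nat_lit 1235) (nat_lit 91) (.e (nat_lit 90176) (nat_lit 15) (.e (nat_lit 188439) (nat_lit 20) (.e (nat_lit 3270) (nat_lit 199) (.e (nat_lit 548914) (nat_lit 19) (.e (nat_lit 180278) (nat_lit 32) .nil)))))) (.g (nat_lit 6) .nil .nil)))))) (.nd (nat_lit 3) (.nd (nat_lit 4) (.nd (nat_lit 5) 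
(.lf (nat_lit 41348) (.g (nat_lit 3161) (.e (nat_lit 1235) (nat_lit 91) (.e (nat_lit 90170) (nat_lit 13) (.e (nat_lit 172118) (nat_lit 12) (.e (nat_lit 475185) (nat_lit 29) (.e (nat_lit 557105) (nat_lit 14) (.e (nat_lit 180277) (nat_lit 32) .nil)))))) (.g (nat_lit 0) .nil .nil))) 
(.lf (nat_lit 41380) (.g (nat_lit 2164) (.e (nat_lit 1235) (nat_lit 91) (.e (nat_lit 90170) (nat_lit 13) (.e (nat_lit 172126) (nat_lit 14) (.e (nat_lit 491540) (nat_lit 3) (.e (nat_lit 98368) (nat_lit 27) (.e (nat_lit 434181) (nat_lit 0) .nil)))))) (.g (nat_lit 4) .nil .nil)))) (.nd (nat_lit 5) 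
(.lf (nat_lit 41364) (.g (nat_lit 4105) (.e (nat_lit 1235) (nat_lit 91) (.e (nat_lit 90170) (nat_lit 13) (.e (nat_lit 172124) (nat_lit 14) (.e (nat_lit 491540) (nat_lit 3) (.e (nat_lit 98367) (nat_lit 27) (.e (nat_lit 434180) (nat_lit 0) .nil)))))) (.g (nat_lit 0) .nil .nil))) 
(.lf (nat_lit 41396) (.g (nat_lit 2092) (.e (nat_lit 1235) (nat_lit 91) (.e (nat_lit 90176) (nat_lit 15) (.e (nat_lit 188439) (nat_lit 20) (.e (nat_lit 3270) (nat_lit 199) (.e (nat_lit 548913) (nat_lit 18) (.e (nat_lit 172037) (nat_lit 0) (.e (nat_lit 7557) (nat_lit 402) .nil))))))) (.g (nat_lit 5) .nil .nil))))) (.nd (nat_lit 4) (.nd (nat_lit 5) 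
(.lf (nat_lit 41356) (.g (nat_lit 2949) (.e (nat_lit 1235) (nat_lit 91) (.e (nat_lit 90170) (nat_lit 13) (.e (nat_lit 172120) (nat_lit 12) (.e (nat_lit 475185) (nat_lit 29) (.e (nat_lit 557104) (nat_lit 14) (.e (nat_lit 180277) (nat_lit 32) .nil)))))) (.g (nat_lit 4) .nil .nil))) 
(.lf (nat_lit 41388) (.g (nat_lit 1642) (.e (nat_lit 1235) (nat_lit 91) (.e (nat_lit 90176) (nat_lit 15) (.e (nat_lit 188420) (nat_lit 0) (.e (nat_lit 1855) (nat_lit 124) (.e (nat_lit 557104) (nat_lit 14) (.e (nat_lit 180278) (nat_lit 32) .nil)))))) (.g (nat_lit 4) .nil .nil)))) (.nd (nat_lit 5) 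
(.lf (nat_lit 41372) (.g (nat_lit 3785) (.e (nat_lit 1235) (nat_lit 91) (.e (nat_lit 90170) (nat_lit 13) (.e (nat_lit 172126) (nat_lit 14) (.e (nat_lit 491537) (nat_lit 2) (.e (nat_lit 90185) (nat_lit 17) (.e (nat_lit 237572) (nat_lit 0) (.e (nat_lit 7562) (nat_lit 402) .nil))))))) (.g (nat_lit 5) .nil .nil))) 
(.lf (nat_lit 41404) (.g (nat_lit 2014) (.e (nat_lit 1235) (nat_lit 91) (.e (nat_lit 90176) (nat_lit 15) (.e (nat_lit 188439) (nat_lit 20) (.e (nat_lit 3272) (nat_lit 199) (.e (nat_lit 548911) (nat_lit 18) (.e (nat_lit 172037) (nat_lit 0) (.e (nat_lit 7557) (nat_lit 402) .nil))))))) (.g (nat_lit 5) .nil .nil))))))) (.nd (nat_lit 2) (.nd (nat_lit 3) (.nd (nat_lit 4) (.nd (nat_lit 5) 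
(.lf (nat_lit 41346) (.g (nat_lit 1835) (.e (nat_lit 1235) (nat_lit 91) (.e (nat_lit 90170) (nat_lit 13) (.e (nat_lit 172115) (nat_lit 10) (.e (nat_lit 434231) (nat_lit 23) (.e (nat_lit 532525) (nat_lit 8) .nil))))) .nil)) 
(.lf (nat_lit 41378) (.g (nat_lit 2658) (.e (nat_lit 1235) (nat_lit 91) (.e (nat_lit 90170) (nat_lit 13) (.e (nat_lit 172126) (nat_lit 14) (.e (nat_lit 491540) (nat_lit 3) (.e (nat_lit 98366) (nat_lit 27) (.e (nat_lit 434181) (nat_lit 0) .nil)))))) (.g (nat_lit 5) .nil .nil)))) (.nd (nat_lit 5) 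
(.lf (nat_lit 41362) (.g (nat_lit 2693) (.e (nat_lit 1235) (nat_lit 91) (.e (nat_lit 90170) (nat_lit 13) (.e (nat_lit 172124) (nat_lit 14) (.e (nat_lit 491540) (nat_lit 3) (.e (nat_lit 98366) (nat_lit 27) (.e (nat_lit 434181) (nat_lit 0) .nil)))))) (.g (nat_lit 5) .nil .nil))) 
(.lf (nat_lit 41394) (.g (nat_lit 734) (.e (nat_lit 1235) (nat_lit 91) (.e (nat_lit 90176) (nat_lit 15) (.e (nat_lit 188434) (nat_lit 20) .nil))) .nil)))) (.nd (nat_lit 4) (.nd (nat_lit 5) 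
(.lf (nat_lit 41354) (.g (nat_lit 2011) (.e (nat_lit 1235) (nat_lit 91) (.e (nat_lit 90170) (nat_lit 13) (.e (nat_lit 172120) (nat_lit 12) (.e (nat_lit 475184) (nat_lit 29) .nil)))) .nil)) 
(.lf (nat_lit 41386) (.g (nat_lit 2363) (.e (nat_lit 1235) (nat_lit 91) (.e (nat_lit 90176) (nat_lit 15) (.e (nat_lit 188418) (nat_lit 0) (.e (nat_lit 1856) (nat_lit 124) (.e (nat_lit 557105) (nat_lit 14) (.e (nat_lit 180277) (nat_lit 32) .nil)))))) (.g (nat_lit 4) .nil .nil)))) (.nd (nat_lit 5) 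
(.lf (nat_lit 41370) (.g (nat_lit 2249) (.e (nat_lit 1235) (nat_lit 91) (.e (nat_lit 90170) (nat_lit 13) (.e (nat_lit 172126) (nat_lit 14) (.e (nat_lit 491537) (nat_lit 2) (.e (nat_lit 90172) (nat_lit 14) (.e (nat_lit 180277) (nat_lit 32) .nil)))))) (.g (nat_lit 4) .nil .nil))) 
(.lf (nat_lit 41402) (.g (nat_lit 1956) (.e (nat_lit 1235) (nat_lit 91) (.e (nat_lit 90176) (nat_lit 15) (.e (nat_lit 188439) (nat_lit 20) (.e (nat_lit 3271) (nat_lit 199) (.e (nat_lit 548913) (nat_lit 18) (.e (nat_lit 172039) (nat_lit 0) (.e (nat_lit 7554) (nat_lit 402) .nil))))))) (.g (nat_lit 5) .nil .nil)))))) (.nd (nat_lit 3) (.nd (nat_lit 4) (.nd (nat_lit 5) 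
(.lf (nat_lit 41350) (.g (nat_lit 478) (.e (nat_lit 1235) (nat_lit 91) (.e (nat_lit 90170) (nat_lit 13) (.e (nat_lit 172120) (nat_lit 12) .nil))) .nil)) 
(.lf (nat_lit 41382) (.g (nat_lit 3376) (.e (nat_lit 1235) (nat_lit 91) (.e (nat_lit 90175) (nat_lit 15) (.e (nat_lit 188452) (nat_lit 23) (.e (nat_lit 204846) (nat_lit 24) (.e (nat_lit 319504) (nat_lit 10) (.e (nat_lit 5351) (nat_lit 298) .nil)))))) (.g (nat_lit 4) .nil .nil)))) (.nd (nat_lit 5) 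
(.lf (nat_lit 41366) (.g (nat_lit 683) (.e (nat_lit 1235) (nat_lit 91) (.e (nat_lit 90170) (nat_lit 13) (.e (nat_lit 172125) (nat_lit 14) .nil))) .nil)) 
(.lf (nat_lit 41398) (.g (nat_lit 2506) (.e (nat_lit 1235) (nat_lit 91) (.e (nat_lit 90176) (nat_lit 15) (.e (nat_lit 188439) (nat_lit 20) (.e (nat_lit 3270) (nat_lit 199) (.e (nat_lit 548913) (nat_lit 18) (.e (nat_lit 172041) (nat_lit 0) (.e (nat_lit 7562) (nat_lit 402) .nil))))))) (.g (nat_lit 6) .nil .nil))))) (.nd (nat_lit 4) (.nd (nat_lit 5) 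
(.lf (nat_lit 41358) (.g (nat_lit 3922) (.e (nat_lit 1235) (nat_lit 91) (.e (nat_lit 90170) (nat_lit 13) (.e (nat_lit 172120) (nat_lit 12) (.e (nat_lit 475185) (nat_lit 29) (.e (nat_lit 557105) (nat_lit 14) (.e (nat_lit 180277) (nat_lit 32) .nil)))))) (.g (nat_lit 0) .nil .nil))) 
(.lf (nat_lit 41390) (.g (nat_lit 2371) (.e (nat_lit 1235) (nat_lit 91) (.e (nat_lit 90176) (nat_lit 15) (.e (nat_lit 188420) (nat_lit 0) (.e (nat_lit 1855) (nat_lit 124) (.e (nat_lit 557105) (nat_lit 14) (.e (nat_lit 180278) (nat_lit 32) .nil)))))) (.g (nat_lit 5) .nil .nil)))) (.nd (nat_lit 5) 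
(.lf (nat_lit 41374) (.g (nat_lit 1593) (.e (nat_lit 1235) (nat_lit 91) (.e (nat_lit 90170) (nat_lit 13) (.e (nat_lit 172126) (nat_lit 14) (.e (nat_lit 491539) (nat_lit 3) .nil)))) .nil)) 
(.lf (nat_lit 41406) (.g (nat_lit 2849) (.e (nat_lit 1235) (nat_lit 91) (.e (nat_lit 90176) (nat_lit 15) (.e (nat_lit 188439) (nat_lit 20) (.e (nat_lit 3272) (nat_lit 199) (.e (nat_lit 548913) (nat_lit 18) (.e (nat_lit 172039) (nat_lit 0) (.e (nat_lit 7554) (nat_lit 402) .nil))))))) (.g (nat_lit 6) .nil .nil)))))))) 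
(.nd (nat_lit 1) (.nd (nat_lit 2) (.nd (nat_lit 3) (.nd (nat_lit 4) (.nd (nat_lit 5) 
(.lf (nat_lit 41345) (.g (nat_lit 2806) (.e (nat_lit 1235) (nat_lit 91) (.e (nat_lit 90170) (nat_lit 13) (.e (nat_lit 172113) (nat_lit 10) (.e (nat_lit 434248) (nat_lit 28) (.e (nat_lit 573471) (nat_lit 11) (.e (nat_lit 16389) (nat_lit 0) (.e (nat_lit 7562) (nat_lit 402) .nil))))))) (.g (nat_lit 5) .nil .nil))) 
(.lf (nat_lit 41377) (.g (nat_lit 2239) (.e (nat_lit 1235) (nat_lit 91) (.e (nat_lit 90170) (nat_lit 13) (.e (nat_lit 172126) (nat_lit 14) (.e (nat_lit 491540) (nat_lit 3) (.e (nat_lit 98366) (nat_lit 27) (.e (nat_lit 434180) (nat_lit 0) .nil)))))) (.g (nat_lit 4) .nil .nil)))) (.nd (nat_lit 5) 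
(.lf (nat_lit 41361) (.g (nat_lit 2342) (.e (nat_lit 1235) (nat_lit 91) (.e (nat_lit 90170) (nat_lit 13) (.e (nat_lit 172124) (nat_lit 14) (.e (nat_lit 491540) (nat_lit 3) (.e (nat_lit 98366) (nat_lit 27) (.e (nat_lit 434180) (nat_lit 0) .nil)))))) (.g (nat_lit 4) .nil .nil))) 
(.lf (nat_lit 41393) (.g (nat_lit 2326) (.e (nat_lit 1235) (nat_lit 91) (.e (nat_lit 90176) (nat_lit 15) (.e (nat_lit 196352) (nat_lit 0) (.e (nat_lit 1848) (nat_lit 124) (.e (nat_lit 557104) (nat_lit 14) (.e (nat_lit 180278) (nat_lit 32) .nil)))))) (.g (nat_lit 5) .nil .nil))))) (.nd (nat_lit 4) (.nd (nat_lit 5) 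
(.lf (nat_lit 41353) (.g (nat_lit 2971) (.e (nat_lit 1235) (nat_lit 91) (.e (nat_lit 90170) (nat_lit 13) (.e (nat_lit 172120) (nat_lit 12) (.e (nat_lit 475183) (nat_lit 29) (.e (nat_lit 557105) (nat_lit 14) .nil))))) .nil)) 
(.lf (nat_lit 41385) (.g (nat_lit 2401) (.e (nat_lit 1235) (nat_lit 91) (.e (nat_lit 90176) (nat_lit 15) (.e (nat_lit 188418) (nat_lit 0) (.e (nat_lit 1856) (nat_lit 124) (.e (nat_lit 557103) (nat_lit 14) (.e (nat_lit 180278) (nat_lit 32) .nil)))))) (.g (nat_lit 5) .nil .nil)))) (.nd (nat_lit 5) 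
(.lf (nat_lit 41369) (.g (nat_lit 2789) (.e (nat_lit 1235) (nat_lit 91) (.e (nat_lit 90170) (nat_lit 13) (.e (nat_lit 172126) (nat_lit 14) (.e (nat_lit 491536) (nat_lit 2) (.e (nat_lit 90174) (nat_lit 14) (.e (nat_lit 180277) (nat_lit 32) .nil)))))) (.g (nat_lit 4) .nil .nil))) 
(.lf (nat_lit 41401) (.g (nat_lit 2068) (.e (nat_lit 1235) (nat_lit 91) (.e (nat_lit 90176) (nat_lit 15) (.e (nat_lit 188439) (nat_lit 20) (.e (nat_lit 3271) (nat_lit 199) (.e (nat_lit 548913) (nat_lit 18) (.e (nat_lit 172037) (nat_lit 0) (.e (nat_lit 7557) (nat_lit 402) .nil))))))) (.g (nat_lit 6) .nil .nil)))))) (.nd (nat_lit 3) (.nd (nat_lit 4) (.nd (nat_lit 5) 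
(.lf (nat_lit 41349) (.g (nat_lit 2585) (.e (nat_lit 1235) (nat_lit 91) (.e (nat_lit 90170) (nat_lit 13) (.e (nat_lit 172119) (nat_lit 12) (.e (nat_lit 475185) (nat_lit 29) (.e (nat_lit 557105) (nat_lit 14) .nil))))) .nil)) 
(.lf (nat_lit 41381) (.g (nat_lit 2427) (.e (nat_lit 1235) (nat_lit 91) (.e (nat_lit 90174) (nat_lit 14) (.e (nat_lit 180250) (nat_lit 10) (.e (nat_lit 573451) (nat_lit 9) (.e (nat_lit 1449) (nat_lit 108) (.e (nat_lit 336013) (nat_lit 2) (.e (nat_lit 90189) (nat_lit 18) (.e (nat_lit 2579) (nat_lit 161) (.e (nat_lit 40967) (nat_lit 0) .nil))))))))) (.g (nat_lit 4) .nil .nil)))) (.nd (nat_lit 5) 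
(.lf (nat_lit 41365) (.g (nat_lit 2350) (.e (nat_lit 1235) (nat_lit 91) (.e (nat_lit 90170) (nat_lit 13) (.e (nat_lit 172124) (nat_lit 14) (.e (nat_lit 491540) (nat_lit 3) (.e (nat_lit 98368) (nat_lit 27) (.e (nat_lit 434181) (nat_lit 0) .nil)))))) (.g (nat_lit 4) .nil .nil))) 
(.lf (nat_lit 41397) (.g (nat_lit 1980) (.e (nat_lit 1235) (nat_lit 91) (.e (nat_lit 90176) (nat_lit 15) (.e (nat_lit 188439) (nat_lit 20) (.e (nat_lit 3270) (nat_lit 199) (.e (nat_lit 548913) (nat_lit 18) (.e (nat_lit 172039) (nat_lit 0) (.e (nat_lit 7554) (nat_lit 402) .nil))))))) (.g (nat_lit 5) .nil .nil))))) (.nd (nat_lit 4) (.nd (nat_lit 5) 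
(.lf (nat_lit 41357) (.g (nat_lit 4395) (.e (nat_lit 1235) (nat_lit 91) (.e (nat_lit 90170) (nat_lit 13) (.e (nat_lit 172120) (nat_lit 12) (.e (nat_lit 475185) (nat_lit 29) (.e (nat_lit 557104) (nat_lit 14) (.e (nat_lit 180278) (nat_lit 32) .nil)))))) (.g (nat_lit 6) .nil .nil))) 
(.lf (nat_lit 41389) (.g (nat_lit 2402) (.e (nat_lit 1235) (nat_lit 91) (.e (nat_lit 90176) (nat_lit 15) (.e (nat_lit 188420) (nat_lit 0) (.e (nat_lit 1855) (nat_lit 124) (.e (nat_lit 557105) (nat_lit 14) (.e (nat_lit 180277) (nat_lit 32) .nil)))))) (.g (nat_lit 6) .nil .nil)))) (.nd (nat_lit 5) 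
(.lf (nat_lit 41373) (.g (nat_lit 4068) (.e (nat_lit 1235) (nat_lit 91) (.e (nat_lit 90170) (nat_lit 13) (.e (nat_lit 172126) (nat_lit 14) (.e (nat_lit 491537) (nat_lit 2) (.e (nat_lit 90185) (nat_lit 17) (.e (nat_lit 237573) (nat_lit 0) (.e (nat_lit 7562) (nat_lit 402) .nil))))))) (.g (nat_lit 0) .nil .nil))) 
(.lf (nat_lit 41405) (.g (nat_lit 3083) (.e (nat_lit 1235) (nat_lit 91) (.e (nat_lit 90176) (nat_lit 15) (.e (nat_lit 188439) (nat_lit 20) (.e (nat_lit 3272) (nat_lit 199) (.e (nat_lit 548913) (nat_lit 18) (.e (nat_lit 172037) (nat_lit 0) (.e (nat_lit 7557) (nat_lit 402) .nil))))))) (.g (nat_lit 0) .nil .nil))))))) (.nd (nat_lit 2) (.nd (nat_lit 3) (.nd (nat_lit 4) (.nd (nat_lit 5) 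
(.lf (nat_lit 41347) (.g (nat_lit 3510) (.e (nat_lit 1235) (nat_lit 91) (.e (nat_lit 90170) (nat_lit 13) (.e (nat_lit 172118) (nat_lit 12) (.e (nat_lit 475185) (nat_lit 29) (.e (nat_lit 557104) (nat_lit 14) (.e (nat_lit 180278) (nat_lit 32) .nil)))))) (.g (nat_lit 6) .nil .nil))) 
(.lf (nat_lit 41379) (.g (nat_lit 4026) (.e (nat_lit 1235) (nat_lit 91) (.e (nat_lit 90170) (nat_lit 13) (.e (nat_lit 172126) (nat_lit 14) (.e (nat_lit 491540) (nat_lit 3) (.e (nat_lit 98367) (nat_lit 27) (.e (nat_lit 434180) (nat_lit 0) .nil)))))) (.g (nat_lit 6) .nil .nil)))) (.nd (nat_lit 5) 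
(.lf (nat_lit 41363) (.g (nat_lit 2926) (.e (nat_lit 1235) (nat_lit 91) (.e (nat_lit 90170) (nat_lit 13) (.e (nat_lit 172124) (nat_lit 14) (.e (nat_lit 491540) (nat_lit 3) (.e (nat_lit 98367) (nat_lit 27) (.e (nat_lit 434177) (nat_lit 0) .nil)))))) (.g (nat_lit 5) .nil .nil))) 
(.lf (nat_lit 41395) (.g (nat_lit 346) (.e (nat_lit 1235) (nat_lit 91) (.e (nat_lit 90176) (nat_lit 15) (.e (nat_lit 188439) (nat_lit 20) .nil))) .nil)))) (.nd (nat_lit 4) (.nd (nat_lit 5) 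
(.lf (nat_lit 41355) (.g (nat_lit 2612) (.e (nat_lit 1235) (nat_lit 91) (.e (nat_lit 90170) (nat_lit 13) (.e (nat_lit 172120) (nat_lit 12) (.e (nat_lit 475184) (nat_lit 29) (.e (nat_lit 557105) (nat_lit 14) .nil))))) .nil)) 
(.lf (nat_lit 41387) (.g (nat_lit 2377) (.e (nat_lit 1235) (nat_lit 91) (.e (nat_lit 90176) (nat_lit 15) (.e (nat_lit 188418) (nat_lit 0) (.e (nat_lit 1856) (nat_lit 124) (.e (nat_lit 557105) (nat_lit 14) (.e (nat_lit 180278) (nat_lit 32) .nil)))))) (.g (nat_lit 4) .nil .nil)))) (.nd (nat_lit 5) 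
(.lf (nat_lit 41371) (.g (nat_lit 3173) (.e (nat_lit 1235) (nat_lit 91) (.e (nat_lit 90170) (nat_lit 13) (.e (nat_lit 172126) (nat_lit 14) (.e (nat_lit 491537) (nat_lit 2) (.e (nat_lit 90173) (nat_lit 14) (.e (nat_lit 180277) (nat_lit 32) .nil)))))) (.g (nat_lit 4) .nil .nil))) 
(.lf (nat_lit 41403) (.g (nat_lit 2469) (.e (nat_lit 1235) (nat_lit 91) (.e (nat_lit 90176) (nat_lit 15) (.e (nat_lit 188439) (nat_lit 20) (.e (nat_lit 3271) (nat_lit 199) (.e (nat_lit 548913) (nat_lit 18) (.e (nat_lit 172041) (nat_lit 0) (.e (nat_lit 7562) (nat_lit 402) .nil))))))) (.g (nat_lit 6) .nil .nil)))))) (.nd (nat_lit 3) (.nd (nat_lit 4) (.nd (nat_lit 5) 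
(.lf (nat_lit 41351) (.g (nat_lit 2824) (.e (nat_lit 1235) (nat_lit 91) (.e (nat_lit 90170) (nat_lit 13) (.e (nat_lit 172120) (nat_lit 12) (.e (nat_lit 475183) (nat_lit 29) (.e (nat_lit 557104) (nat_lit 14) (.e (nat_lit 180277) (nat_lit 32) .nil)))))) (.g (nat_lit 4) .nil .nil))) 
(.lf (nat_lit 41383) (.g (nat_lit 2927) (.e (nat_lit 1235) (nat_lit 91) (.e (nat_lit 90175) (nat_lit 15) (.e (nat_lit 188452) (nat_lit 23) (.e (nat_lit 204846) (nat_lit 24) (.e (nat_lit 319505) (nat_lit 10) (.e (nat_lit 5351) (nat_lit 298) .nil)))))) (.g (nat_lit 4) .nil .nil)))) (.nd (nat_lit 5) 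
(.lf (nat_lit 41367) (.g (nat_lit 1573) (.e (nat_lit 1235) (nat_lit 91) (.e (nat_lit 90170) (nat_lit 13) (.e (nat_lit 172126) (nat_lit 14) (.e (nat_lit 491524) (nat_lit 0) .nil)))) .nil)) 
(.lf (nat_lit 41399) (.g (nat_lit 2008) (.e (nat_lit 1235) (nat_lit 91) (.e (nat_lit 90176) (nat_lit 15) (.e (nat_lit 188439) (nat_lit 20) (.e (nat_lit 3270) (nat_lit 199) (.e (nat_lit 548914) (nat_lit 19) (.e (nat_lit 180277) (nat_lit 32) .nil)))))) (.g (nat_lit 0) .nil .nil))))) (.nd (nat_lit 4) (.nd (nat_lit 5) 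
(.lf (nat_lit 41359) (.g (nat_lit 3343) (.e (nat_lit 1235) (nat_lit 91) (.e (nat_lit 90170) (nat_lit 13) (.e (nat_lit 172124) (nat_lit 14) (.e (nat_lit 491537) (nat_lit 2) (.e (nat_lit 90185) (nat_lit 17) (.e (nat_lit 237573) (nat_lit 0) (.e (nat_lit 7562) (nat_lit 402) .nil))))))) (.g (nat_lit 5) .nil .nil))) 
(.lf (nat_lit 41391) (.g (nat_lit 2881) (.e (nat_lit 1235) (nat_lit 91) (.e (nat_lit 90176) (nat_lit 15) (.e (nat_lit 188420) (nat_lit 0) (.e (nat_lit 1856) (nat_lit 124) (.e (nat_lit 557105) (nat_lit 14) (.e (nat_lit 180277) (nat_lit 32) .nil)))))) (.g (nat_lit 0) .nil .nil)))) (.nd (nat_lit 5) 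
(.lf (nat_lit 41375) (.g (nat_lit 4731) (.e (nat_lit 1235) (nat_lit 91) (.e (nat_lit 90170) (nat_lit 13) (.e (nat_lit 172126) (nat_lit 14) (.e (nat_lit 491539) (nat_lit 3) (.e (nat_lit 98367) (nat_lit 27) (.e (nat_lit 434180) (nat_lit 0) .nil)))))) (.g (nat_lit 6) .nil .nil))) 
(.lf (nat_lit 41407) (.g (nat_lit 731) (.e (nat_lit 1235) (nat_lit 91) (.e (nat_lit 90176) (nat_lit 15) (.e (nat_lit 188440) (nat_lit 20) .nil))) .nil))))))))

noncomputable def tv576 : DT := (.nd (nat_lit 0) (.nd (nat_lit 1) (.nd (nat_lit 2) (.nd (nat_lit 3) (.nd (nat_lit 4) (.nd (nat_lit 5) 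
(.lf (nat_lit 41408) (.g (nat_lit 1176) (.e (nat_lit 1235) (nat_lit 91) (.e (nat_lit 90176) (nat_lit 15) (.e (nat_lit 188447) (nat_lit 22) (.e (nat_lit 196661) (nat_lit 12) .nil)))) .nil)) 
(.lf (nat_lit 41440) (.g (nat_lit 3014) (.e (nat_lit 1235) (nat_lit 91) (.e (nat_lit 90177) (nat_lit 15) (.e (nat_lit 188452) (nat_lit 23) (.e (nat_lit 204885) (nat_lit 33) (.e (nat_lit 401414) (nat_lit 0) .nil))))) .nil))) (.nd (nat_lit 5) 
(.lf (nat_lit 41424) (.g (nat_lit 3339) (.e (nat_lit 1235) (nat_lit 91) (.e (nat_lit 90176) (nat_lit 15) (.e (nat_lit 188450) (nat_lit 23) (.e (nat_lit 204846) (nat_lit 24) (.e (nat_lit 319506) (nat_lit 10) (.e (nat_lit 5371) (nat_lit 298) .nil)))))) (.g (nat_lit 6) .nil .nil))) 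
(.lf (nat_lit 41456) (.g (nat_lit 2205) (.e (nat_lit 1235) (nat_lit 91) (.e (nat_lit 90178) (nat_lit 15) (.e (nat_lit 188441) (nat_lit 20) (.e (nat_lit 3272) (nat_lit 199) (.e (nat_lit 548911) (nat_lit 18) (.e (nat_lit 172037) (nat_lit 0) (.e (nat_lit 7557) (nat_lit 402) .nil))))))) (.g (nat_lit 4) .nil .nil))))) (.nd (nat_lit 4) (.nd (nat_lit 5) 
(.lf (nat_lit 41416) (.g (nat_lit 1207) (.e (nat_lit 1235) (nat_lit 91) (.e (nat_lit 90176) (nat_lit 15) (.e (nat_lit 188450) (nat_lit 23) (.e (nat_lit 204819) (nat_lit 17) .nil)))) .nil)) 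
(.lf (nat_lit 41448) (.g (nat_lit 2137) (.e (nat_lit 1235) (nat_lit 91) (.e (nat_lit 90178) (nat_lit 15) (.e (nat_lit 188440) (nat_lit 20) (.e (nat_lit 3272) (nat_lit 199) (.e (nat_lit 548911) (nat_lit 18) (.e (nat_lit 172037) (nat_lit 0) (.e (nat_lit 7557) (nat_lit 402) .nil))))))) (.g (nat_lit 4) .nil .nil)))) (.nd (nat_lit 5) 
(.lf (nat_lit 41432) (.g (nat_lit 867) (.e (nat_lit 1235) (nat_lit 91) (.e (nat_lit 90177) (nat_lit 15) (.e (nat_lit 188434) (nat_lit 20) (.e (nat_lit 3271) (nat_lit 199) .nil)))) .nil)) 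
(.lf (nat_lit 41464) (.g (nat_lit 970) (.e (nat_lit 1235) (nat_lit 91) (.e (nat_lit 90185) (nat_lit 17) (.e (nat_lit 237568) (nat_lit 0) .nil))) .nil))))) (.nd (nat_lit 3) (.nd (nat_lit 4) (.nd (nat_lit 5) 
(.lf (nat_lit 41412) (.g (nat_lit 1152) (.e (nat_lit 1235) (nat_lit 91) (.e (nat_lit 90176) (nat_lit 15) (.e (nat_lit 188450) (nat_lit 23) (.e (nat_lit 204815) (nat_lit 17) .nil)))) .nil)) 
(.lf (nat_lit 41444) (.g (nat_lit 1946) (.e (nat_lit 1235) (nat_lit 91) (.e (nat_lit 90178) (nat_lit 15) (.e (nat_lit 196352) (nat_lit 0) (.e (nat_lit 1848) (nat_lit 124) (.e (nat_lit 557104) (nat_lit 14) (.e (nat_lit 180277) (nat_lit 32) .nil)))))) (.g (nat_lit 5) .nil .nil)))) (.nd (nat_lit 5) 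
(.lf (nat_lit 41428) (.g (nat_lit 1727) (.e (nat_lit 1235) (nat_lit 91) (.e (nat_lit 90176) (nat_lit 15) (.e (nat_lit 188450) (nat_lit 23) (.e (nat_lit 204885) (nat_lit 33) (.e (nat_lit 401416) (nat_lit 0) (.e (nat_lit 7556) (nat_lit 402) .nil)))))) (.g (nat_lit 4) .nil .nil))) 
(.lf (nat_lit 41460) (.g (nat_lit 3257) (.e (nat_lit 1235) (nat_lit 91) (.e (nat_lit 90178) (nat_lit 15) (.e (nat_lit 188451) (nat_lit 23) (.e (nat_lit 204846) (nat_lit 24) (.e (nat_lit 319504) (nat_lit 10) (.e (nat_lit 5351) (nat_lit 298) .nil)))))) (.g (nat_lit 5) .nil .nil))))) (.nd (nat_lit 4) (.nd (nat_lit 5) 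
(.lf (nat_lit 41420) (.g (nat_lit 2344) (.e (nat_lit 1235) (nat_lit 91) (.e (nat_lit 90176) (nat_lit 15) (.e (nat_lit 188450) (nat_lit 23) (.e (nat_lit 204821) (nat_lit 17) (.e (nat_lit 6206) (nat_lit 333) (.e (nat_lit 57890) (nat_lit 270) .nil)))))) (.g (nat_lit 0) .nil .nil))) 
(.lf (nat_lit 41452) (.g (nat_lit 1103) (.e (nat_lit 1235) (nat_lit 91) (.e (nat_lit 90178) (nat_lit 15) (.e (nat_lit 188441) (nat_lit 20) (.e (nat_lit 3271) (nat_lit 199) .nil)))) .nil))) (.nd (nat_lit 5) 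
(.lf (nat_lit 41436) (.g (nat_lit 2306) (.e (nat_lit 1235) (nat_lit 91) (.e (nat_lit 90177) (nat_lit 15) (.e (nat_lit 188452) (nat_lit 23) (.e (nat_lit 204816) (nat_lit 17) .nil)))) .nil)) 
(.lf (nat_lit 41468) (.g (nat_lit 3177) (.e (nat_lit 1235) (nat_lit 91) (.e (nat_lit 90185) (nat_lit 17) (.e (nat_lit 237601) (nat_lit 9) (.e (nat_lit 426131) (nat_lit 3) (.e (nat_lit 204846) (nat_lit 24) (.e (nat_lit 319505) (nat_lit 10) (.e (nat_lit 5351) (nat_lit 298) .nil))))))) (.g (nat_lit 6) .nil .nil))))))) (.nd (nat_lit 2) (.nd (nat_lit 3) (.nd (nat_lit 4) (.nd (nat_lit 5) 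
(.lf (nat_lit 41410) (.g (nat_lit 2481) (.e (nat_lit 1235) (nat_lit 91) (.e (nat_lit 90176) (nat_lit 15) (.e (nat_lit 188447) (nat_lit 22) (.e (nat_lit 196661) (nat_lit 12) (.e (nat_lit 57721) (nat_lit 177) (.e (nat_lit 57890) (nat_lit 270) .nil)))))) (.g (nat_lit 0) .nil .nil))) 
(.lf (nat_lit 41442) (.g (nat_lit 630) (.e (nat_lit 1235) (nat_lit 91) (.e (nat_lit 90178) (nat_lit 15) (.e (nat_lit 188419) (nat_lit 0) .nil))) .nil))) (.nd (nat_lit 5) 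
(.lf (nat_lit 41426) (.g (nat_lit 1640) (.e (nat_lit 1235) (nat_lit 91) (.e (nat_lit 90176) (nat_lit 15) (.e (nat_lit 188450) (nat_lit 23) (.e (nat_lit 204849) (nat_lit 25) (.e (nat_lit 327705) (nat_lit 10) .nil))))) .nil)) 
(.lf (nat_lit 41458) (.g (nat_lit 3032) (.e (nat_lit 1235) (nat_lit 91) (.e (nat_lit 90178) (nat_lit 15) (.e (nat_lit 188441) (nat_lit 20) (.e (nat_lit 3272) (nat_lit 199) (.e (nat_lit 548913) (nat_lit 18) (.e (nat_lit 172041) (nat_lit 0) (.e (nat_lit 7562) (nat_lit 402) .nil))))))) (.g (nat_lit 5) .nil .nil))))) (.nd (nat_lit 4) (.nd (nat_lit 5) 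
(.lf (nat_lit 41418) (.g (nat_lit 3454) (.e (nat_lit 1235) (nat_lit 91) (.e (nat_lit 90176) (nat_lit 15) (.e (nat_lit 188450) (nat_lit 23) (.e (nat_lit 204819) (nat_lit 17) (.e (nat_lit 6218) (nat_lit 333) (.e (nat_lit 57891) (nat_lit 270) .nil)))))) (.g (nat_lit 0) .nil .nil))) 
(.lf (nat_lit 41450) (.g (nat_lit 2729) (.e (nat_lit 1235) (nat_lit 91) (.e (nat_lit 90178) (nat_lit 15) (.e (nat_lit 188440) (nat_lit 20) (.e (nat_lit 3272) (nat_lit 199) (.e (nat_lit 548913) (nat_lit 18) (.e (nat_lit 172039) (nat_lit 0) (.e (nat_lit 7554) (nat_lit 402) .nil))))))) (.g (nat_lit 5) .nil .nil)))) (.nd (nat_lit 5) 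
(.lf (nat_lit 41434) (.g (nat_lit 1850) (.e (nat_lit 1235) (nat_lit 91) (.e (nat_lit 90177) (nat_lit 15) (.e (nat_lit 188434) (nat_lit 20) (.e (nat_lit 3272) (nat_lit 199) (.e (nat_lit 548914) (nat_lit 19) (.e (nat_lit 180277) (nat_lit 32) .nil)))))) (.g (nat_lit 4) .nil .nil))) 
(.lf (nat_lit 41466) (.g (nat_lit 674) (.e (nat_lit 1235) (nat_lit 91) (.e (nat_lit 90185) (nat_lit 17) (.e (nat_lit 237601) (nat_lit 9) .nil))) .nil))))) (.nd (nat_lit 3) (.nd (nat_lit 4) (.nd (nat_lit 5) 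
(.lf (nat_lit 41414) (.g (nat_lit 1161) (.e (nat_lit 1235) (nat_lit 91) (.e (nat_lit 90176) (nat_lit 15) (.e (nat_lit 188450) (nat_lit 23) (.e (nat_lit 204816) (nat_lit 17) .nil)))) .nil)) 
(.lf (nat_lit 41446) (.g (nat_lit 2282) (.e (nat_lit 1235) (nat_lit 91) (.e (nat_lit 90178) (nat_lit 15) (.e (nat_lit 188440) (nat_lit 20) (.e (nat_lit 3271) (nat_lit 199) (.e (nat_lit 548913) (nat_lit 18) (.e (nat_lit 172039) (nat_lit 0) (.e (nat_lit 7554) (nat_lit 402) .nil))))))) (.g (nat_lit 5) .nil .nil)))) (.nd (nat_lit 5) 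
(.lf (nat_lit 41430) (.g (nat_lit 4623) (.e (nat_lit 1235) (nat_lit 91) (.e (nat_lit 90176) (nat_lit 15) (.e (nat_lit 188452) (nat_lit 23) (.e (nat_lit 204846) (nat_lit 24) (.e (nat_lit 319504) (nat_lit 10) (.e (nat_lit 5351) (nat_lit 298) .nil)))))) (.g (nat_lit 4) .nil .nil))) 
(.lf (nat_lit 41462) (.g (nat_lit 4091) (.e (nat_lit 1235) (nat_lit 91) (.e (nat_lit 90178) (nat_lit 15) (.e (nat_lit 188452) (nat_lit 23) (.e (nat_lit 204846) (nat_lit 24) (.e (nat_lit 319505) (nat_lit 10) .nil))))) .nil)))) (.nd (nat_lit 4) (.nd (nat_lit 5) 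
(.lf (nat_lit 41422) (.g (nat_lit 2426) (.e (nat_lit 1235) (nat_lit 91) (.e (nat_lit 90176) (nat_lit 15) (.e (nat_lit 188450) (nat_lit 23) (.e (nat_lit 204845) (nat_lit 24) (.e (nat_lit 319505) (nat_lit 10) .nil))))) .nil)) 
(.lf (nat_lit 41454) (.g (nat_lit 1773) (.e (nat_lit 1235) (nat_lit 91) (.e (nat_lit 90178) (nat_lit 15) (.e (nat_lit 188441) (nat_lit 20) (.e (nat_lit 3271) (nat_lit 199) (.e (nat_lit 548913) (nat_lit 18) (.e (nat_lit 172039) (nat_lit 0) (.e (nat_lit 7554) (nat_lit 402) .nil))))))) (.g (nat_lit 4) .nil .nil)))) (.nd (nat_lit 5) 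
(.lf (nat_lit 41438) (.g (nat_lit 3784) (.e (nat_lit 1235) (nat_lit 91) (.e (nat_lit 90177) (nat_lit 15) (.e (nat_lit 188452) (nat_lit 23) (.e (nat_lit 204846) (nat_lit 24) (.e (nat_lit 319505) (nat_lit 10) .nil))))) .nil)) 
(.lf (nat_lit 41470) (.g (nat_lit 4576) (.e (nat_lit 1235) (nat_lit 91) (.e (nat_lit 90185) (nat_lit 17) (.e (nat_lit 237604) (nat_lit 9) (.e (nat_lit 426131) (nat_lit 3) (.e (nat_lit 204846) (nat_lit 24) (.e (nat_lit 319504) (nat_lit 10) (.e (nat_lit 5351) (nat_lit 298) .nil))))))) (.g (nat_lit 6) .nil .nil)))))))) 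
(.nd (nat_lit 1) (.nd (nat_lit 2) (.nd (nat_lit 3) (.nd (nat_lit 4) (.nd (nat_lit 5) 
(.lf (nat_lit 41409) (.g (nat_lit 1475) (.e (nat_lit 1235) (nat_lit 91) (.e (nat_lit 90176) (nat_lit 15) (.e (nat_lit 188447) (nat_lit 22) (.e (nat_lit 196661) (nat_lit 12) (.e (nat_lit 57714) (nat_lit 176) .nil))))) .nil)) 
(.lf (nat_lit 41441) (.g (nat_lit 3110) (.e (nat_lit 1235) (nat_lit 91) (.e (nat_lit 90178) (nat_lit 15) (.e (nat_lit 188418) (nat_lit 0) (.e (nat_lit 1856) (nat_lit 124) (.e (nat_lit 557105) (nat_lit 14) (.e (nat_lit 180278) (nat_lit 32) .nil)))))) (.g (nat_lit 0) .nil .nil)))) (.nd (nat_lit 5) 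
(.lf (nat_lit 41425) (.g (nat_lit 1793) (.e (nat_lit 1235) (nat_lit 91) (.e (nat_lit 90176) (nat_lit 15) (.e (nat_lit 188450) (nat_lit 23) (.e (nat_lit 204848) (nat_lit 25) (.e (nat_lit 327705) (nat_lit 10) (.e (nat_lit 5371) (nat_lit 298) .nil)))))) (.g (nat_lit 4) .nil .nil))) 
(.lf (nat_lit 41457) (.g (nat_lit 2958) (.e (nat_lit 1235) (nat_lit 91) (.e (nat_lit 90178) (nat_lit 15) (.e (nat_lit 188441) (nat_lit 20) (.e (nat_lit 3272) (nat_lit 199) (.e (nat_lit 548913) (nat_lit 18) (.e (nat_lit 172037) (nat_lit 0) (.e (nat_lit 7557) (nat_lit 402) .nil))))))) (.g (nat_lit 5) .nil .nil))))) (.nd (nat_lit 4) (.nd (nat_lit 5) 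
(.lf (nat_lit 41417) (.g (nat_lit 3024) (.e (nat_lit 1235) (nat_lit 91) (.e (nat_lit 90176) (nat_lit 15) (.e (nat_lit 188450) (nat_lit 23) (.e (nat_lit 204819) (nat_lit 17) (.e (nat_lit 6218) (nat_lit 333) (.e (nat_lit 57890) (nat_lit 270) .nil)))))) (.g (nat_lit 0) .nil .nil))) 
(.lf (nat_lit 41449) (.g (nat_lit 3129) (.e (nat_lit 1235) (nat_lit 91) (.e (nat_lit 90178) (nat_lit 15) (.e (nat_lit 188440) (nat_lit 20) (.e (nat_lit 3272) (nat_lit 199) (.e (nat_lit 548913) (nat_lit 18) (.e (nat_lit 172037) (nat_lit 0) (.e (nat_lit 7557) (nat_lit 402) .nil))))))) (.g (nat_lit 5) .nil .nil)))) (.nd (nat_lit 5) 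
(.lf (nat_lit 41433) (.g (nat_lit 1435) (.e (nat_lit 1235) (nat_lit 91) (.e (nat_lit 90177) (nat_lit 15) (.e (nat_lit 188434) (nat_lit 20) (.e (nat_lit 3271) (nat_lit 199) (.e (nat_lit 548914) (nat_lit 19) (.e (nat_lit 180278) (nat_lit 32) .nil)))))) (.g (nat_lit 4) .nil .nil))) 
(.lf (nat_lit 41465) (.g (nat_lit 970) (.e (nat_lit 1235) (nat_lit 91) (.e (nat_lit 90185) (nat_lit 17) (.e (nat_lit 237573) (nat_lit 0) .nil))) .nil))))) (.nd (nat_lit 3) (.nd (nat_lit 4) (.nd (nat_lit 5) 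
(.lf (nat_lit 41413) (.g (nat_lit 1454) (.e (nat_lit 1235) (nat_lit 91) (.e (nat_lit 90176) (nat_lit 15) (.e (nat_lit 188450) (nat_lit 23) (.e (nat_lit 204815) (nat_lit 17) (.e (nat_lit 6714) (nat_lit 360) .nil))))) .nil)) 
(.lf (nat_lit 41445) (.g (nat_lit 2592) (.e (nat_lit 1235) (nat_lit 91) (.e (nat_lit 90178) (nat_lit 15) (.e (nat_lit 188440) (nat_lit 20) (.e (nat_lit 3271) (nat_lit 199) (.e (nat_lit 548913) (nat_lit 18) (.e (nat_lit 172037) (nat_lit 0) (.e (nat_lit 7557) (nat_lit 402) .nil))))))) (.g (nat_lit 5) .nil .nil)))) (.nd (nat_lit 5) 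
(.lf (nat_lit 41429) (.g (nat_lit 2718) (.e (nat_lit 1235) (nat_lit 91) (.e (nat_lit 90176) (nat_lit 15) (.e (nat_lit 188452) (nat_lit 23) (.e (nat_lit 204816) (nat_lit 17) .nil)))) .nil)) 
(.lf (nat_lit 41461) (.g (nat_lit 4313) (.e (nat_lit 1235) (nat_lit 91) (.e (nat_lit 90178) (nat_lit 15) (.e (nat_lit 188452) (nat_lit 23) (.e (nat_lit 204846) (nat_lit 24) (.e (nat_lit 319504) (nat_lit 10) .nil))))) .nil)))) (.nd (nat_lit 4) (.nd (nat_lit 5) 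
(.lf (nat_lit 41421) (.g (nat_lit 2700) (.e (nat_lit 1235) (nat_lit 91) (.e (nat_lit 90176) (nat_lit 15) (.e (nat_lit 188450) (nat_lit 23) (.e (nat_lit 204821) (nat_lit 17) (.e (nat_lit 6206) (nat_lit 333) (.e (nat_lit 57891) (nat_lit 270) .nil)))))) (.g (nat_lit 0) .nil .nil))) 
(.lf (nat_lit 41453) (.g (nat_lit 2083) (.e (nat_lit 1235) (nat_lit 91) (.e (nat_lit 90178) (nat_lit 15) (.e (nat_lit 188441) (nat_lit 20) (.e (nat_lit 3271) (nat_lit 199) (.e (nat_lit 548913) (nat_lit 18) (.e (nat_lit 172037) (nat_lit 0) (.e (nat_lit 7557) (nat_lit 402) .nil))))))) (.g (nat_lit 5) .nil .nil)))) (.nd (nat_lit 5) 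
(.lf (nat_lit 41437) (.g (nat_lit 4264) (.e (nat_lit 1235) (nat_lit 91) (.e (nat_lit 90177) (nat_lit 15) (.e (nat_lit 188452) (nat_lit 23) (.e (nat_lit 204846) (nat_lit 24) (.e (nat_lit 319504) (nat_lit 10) (.e (nat_lit 5351) (nat_lit 298) .nil)))))) (.g (nat_lit 5) .nil .nil))) 
(.lf (nat_lit 41469) (.g (nat_lit 1804) (.e (nat_lit 1235) (nat_lit 91) (.e (nat_lit 90185) (nat_lit 17) (.e (nat_lit 237601) (nat_lit 9) (.e (nat_lit 426402) (nat_lit 15) (.e (nat_lit 1859) (nat_lit 124) (.e (nat_lit 557105) (nat_lit 14) (.e (nat_lit 180277) (nat_lit 32) .nil))))))) (.g (nat_lit 4) .nil .nil))))))) (.nd (nat_lit 2) (.nd (nat_lit 3) (.nd (nat_lit 4) (.nd (nat_lit 5) 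
(.lf (nat_lit 41411) (.g (nat_lit 3736) (.e (nat_lit 1235) (nat_lit 91) (.e (nat_lit 90176) (nat_lit 15) (.e (nat_lit 188449) (nat_lit 22) (.e (nat_lit 196677) (nat_lit 16) .nil)))) .nil)) 
(.lf (nat_lit 41443) (.g (nat_lit 507) (.e (nat_lit 1235) (nat_lit 91) (.e (nat_lit 90178) (nat_lit 15) (.e (nat_lit 196352) (nat_lit 0) .nil))) .nil))) (.nd (nat_lit 5) 
(.lf (nat_lit 41427) (.g (nat_lit 2711) (.e (nat_lit 1235) (nat_lit 91) (.e (nat_lit 90176) (nat_lit 15) (.e (nat_lit 188450) (nat_lit 23) (.e (nat_lit 204849) (nat_lit 25) (.e (nat_lit 327705) (nat_lit 10) (.e (nat_lit 5371) (nat_lit 298) .nil)))))) (.g (nat_lit 6) .nil .nil))) 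
(.lf (nat_lit 41459) (.g (nat_lit 4044) (.e (nat_lit 1235) (nat_lit 91) (.e (nat_lit 90178) (nat_lit 15) (.e (nat_lit 188449) (nat_lit 22) (.e (nat_lit 196677) (nat_lit 16) .nil)))) .nil)))) (.nd (nat_lit 4) (.nd (nat_lit 5) 
(.lf (nat_lit 41419) (.g (nat_lit 1102) (.e (nat_lit 1235) (nat_lit 91) (.e (nat_lit 90176) (nat_lit 15) (.e (nat_lit 188450) (nat_lit 23) (.e (nat_lit 204821) (nat_lit 17) .nil)))) .nil)) 
(.lf (nat_lit 41451) (.g (nat_lit 3166) (.e (nat_lit 1235) (nat_lit 91) (.e (nat_lit 90178) (nat_lit 15) (.e (nat_lit 188440) (nat_lit 20) (.e (nat_lit 3272) (nat_lit 199) (.e (nat_lit 548913) (nat_lit 18) (.e (nat_lit 172041) (nat_lit 0) (.e (nat_lit 7562) (nat_lit 402) .nil))))))) (.g (nat_lit 5) .nil .nil)))) (.nd (nat_lit 5) 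
(.lf (nat_lit 41435) (.g (nat_lit 1973) (.e (nat_lit 1235) (nat_lit 91) (.e (nat_lit 90177) (nat_lit 15) (.e (nat_lit 188434) (nat_lit 20) (.e (nat_lit 3272) (nat_lit 199) (.e (nat_lit 548914) (nat_lit 19) (.e (nat_lit 180278) (nat_lit 32) .nil)))))) (.g (nat_lit 5) .nil .nil))) 
(.lf (nat_lit 41467) (.g (nat_lit 4203) (.e (nat_lit 1235) (nat_lit 91) (.e (nat_lit 90185) (nat_lit 17) (.e (nat_lit 237601) (nat_lit 9) (.e (nat_lit 426131) (nat_lit 3) (.e (nat_lit 204846) (nat_lit 24) (.e (nat_lit 319504) (nat_lit 10) (.e (nat_lit 5351) (nat_lit 298) .nil))))))) (.g (nat_lit 6) .nil .nil)))))) (.nd (nat_lit 3) (.nd (nat_lit 4) (.nd (nat_lit 5) 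
(.lf (nat_lit 41415) (.g (nat_lit 2531) (.e (nat_lit 1235) (nat_lit 91) (.e (nat_lit 90176) (nat_lit 15) (.e (nat_lit 188450) (nat_lit 23) (.e (nat_lit 204816) (nat_lit 17) (.e (nat_lit 6712) (nat_lit 360) (.e (nat_lit 164238) (nat_lit 187) .nil)))))) (.g (nat_lit 5) .nil .nil))) 
(.lf (nat_lit 41447) (.g (nat_lit 2790) (.e (nat_lit 1235) (nat_lit 91) (.e (nat_lit 90178) (nat_lit 15) (.e (nat_lit 188440) (nat_lit 20) (.e (nat_lit 3271) (nat_lit 199) (.e (nat_lit 548913) (nat_lit 18) (.e (nat_lit 172041) (nat_lit 0) (.e (nat_lit 7562) (nat_lit 402) .nil))))))) (.g (nat_lit 6) .nil .nil)))) (.nd (nat_lit 5) 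
(.lf (nat_lit 41431) (.g (nat_lit 4395) (.e (nat_lit 1235) (nat_lit 91) (.e (nat_lit 90176) (nat_lit 15) (.e (nat_lit 188452) (nat_lit 23) (.e (nat_lit 204846) (nat_lit 24) (.e (nat_lit 319505) (nat_lit 10) (.e (nat_lit 5351) (nat_lit 298) .nil)))))) (.g (nat_lit 4) .nil .nil))) 
(.lf (nat_lit 41463) (.g (nat_lit 2691) (.e (nat_lit 1235) (nat_lit 91) (.e (nat_lit 90178) (nat_lit 15) (.e (nat_lit 188452) (nat_lit 23) (.e (nat_lit 204885) (nat_lit 33) .nil)))) .nil)))) (.nd (nat_lit 4) (.nd (nat_lit 5) 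
(.lf (nat_lit 41423) (.g (nat_lit 2966) (.e (nat_lit 1235) (nat_lit 91) (.e (nat_lit 90176) (nat_lit 15) (.e (nat_lit 188450) (nat_lit 23) (.e (nat_lit 204846) (nat_lit 24) (.e (nat_lit 319496) (nat_lit 10) .nil))))) .nil)) 
(.lf (nat_lit 41455) (.g (nat_lit 2317) (.e (nat_lit 1235) (nat_lit 91) (.e (nat_lit 90178) (nat_lit 15) (.e (nat_lit 188441) (nat_lit 20) (.e (nat_lit 3271) (nat_lit 199) (.e (nat_lit 548913) (nat_lit 18) (.e (nat_lit 172041) (nat_lit 0) (.e (nat_lit 7562) (nat_lit 402) .nil))))))) (.g (nat_lit 5) .nil .nil)))) (.nd (nat_lit 5) 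
(.lf (nat_lit 41439) (.g (nat_lit 2156) (.e (nat_lit 1235) (nat_lit 91) (.e (nat_lit 90177) (nat_lit 15) (.e (nat_lit 188452) (nat_lit 23) (.e (nat_lit 204885) (nat_lit 33) .nil)))) .nil)) 
(.lf (nat_lit 41471) (.g (nat_lit 3710) (.e (nat_lit 1235) (nat_lit 91) (.e (nat_lit 90185) (nat_lit 17) (.e (nat_lit 237604) (nat_lit 9) (.e (nat_lit 426131) (nat_lit 3) (.e (nat_lit 204846) (nat_lit 24) (.e (nat_lit 319505) (nat_lit 10) (.e (nat_lit 5351) (nat_lit 298) .nil))))))) (.g (nat_lit 6) .nil .nil)))))))))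

noncomputable def tv577 : DT := (.nd (nat_lit 0) (.nd (nat_lit 1) (.nd (nat_lit 2) (.nd (nat_lit 3) (.nd (nat_lit 4) (.nd (nat_lit 5) (.nd (nat_lit 6) 
(.lf (nat_lit 41472) (.g (nat_lit 421) (.e (nat_lit 1235) (nat_lit 91) (.e (nat_lit 90185) (nat_lit 17) (.e (nat_lit 237605) (nat_lit 9) .nil))) .nil)) 
(.lf (nat_lit 41536) (.g (nat_lit 493) (.e (nat_lit 1237) (nat_lit 91) (.e (nat_lit 90170) (nat_lit 13) (.e (nat_lit 172065) (nat_lit 3) .nil))) .nil))) (.nd (nat_lit 6) 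
(.lf (nat_lit 41504) (.g (nat_lit 2045) (.e (nat_lit 1236) (nat_lit 91) (.e (nat_lit 90170) (nat_lit 13) (.e (nat_lit 172106) (nat_lit 10) (.e (nat_lit 434231) (nat_lit 23) (.e (nat_lit 532543) (nat_lit 10) (.e (nat_lit 344151) (nat_lit 34) (.e (nat_lit 622603) (nat_lit 5) .nil))))))) (.g (nat_lit 4) .nil .nil))) 
(.lf (nat_lit 41568) (.g (nat_lit 3342) (.e (nat_lit 1237) (nat_lit 91) (.e (nat_lit 90170) (nat_lit 13) (.e (nat_lit 172067) (nat_lit 3) (.e (nat_lit 204829) (nat_lit 18) (.e (nat_lit 57688) (nat_lit 156) (.e (nat_lit 163874) (nat_lit 3) (.e (nat_lit 204834) (nat_lit 19) (.e (nat_lit 106517) (nat_lit 9) .nil)))))))) (.g (nat_lit 4) .nil .nil))))) (.nd (nat_lit 5) (.nd (nat_lit 6) 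
(.lf (nat_lit 41488) (.g (nat_lit 2698) (.e (nat_lit 1235) (nat_lit 91) (.e (nat_lit 90185) (nat_lit 17) (.e (nat_lit 237616) (nat_lit 12) (.e (nat_lit 475185) (nat_lit 29) (.e (nat_lit 557103) (nat_lit 14) (.e (nat_lit 180277) (nat_lit 32) .nil)))))) (.g (nat_lit 0) .nil .nil))) 
(.lf (nat_lit 41552) (.g (nat_lit 3662) (.e (nat_lit 1237) (nat_lit 91) (.e (nat_lit 90170) (nat_lit 13) (.e (nat_lit 172065) (nat_lit 3) (.e (nat_lit 204838) (nat_lit 20) (.e (nat_lit 114714) (nat_lit 22) (.e (nat_lit 90162) (nat_lit 12) (.e (nat_lit 164007) (nat_lit 41) (.e (nat_lit 671488) (nat_lit 0) .nil)))))))) (.g (nat_lit 4) .nil .nil)))) (.nd (nat_lit 6) 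
(.lf (nat_lit 41520) (.g (nat_lit 865) (.e (nat_lit 1236) (nat_lit 91) (.e (nat_lit 90185) (nat_lit 17) (.e (nat_lit 237605) (nat_lit 9) .nil))) .nil)) 
(.lf (nat_lit 41584) (.g (nat_lit 3290) (.e (nat_lit 1237) (nat_lit 91) (.e (nat_lit 90170) (nat_lit 13) (.e (nat_lit 172067) (nat_lit 3) (.e (nat_lit 204837) (nat_lit 20) (.e (nat_lit 114719) (nat_lit 23) (.e (nat_lit 98334) (nat_lit 18) (.e (nat_lit 164379) (nat_lit 254) (.e (nat_lit 1028) (nat_lit 81) .nil)))))))) (.g (nat_lit 4) .nil .nil)))))) 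
(.nd (nat_lit 4) (.nd (nat_lit 5) (.nd (nat_lit 6) 
(.lf (nat_lit 41480) (.g (nat_lit 3301) (.e (nat_lit 1235) (nat_lit 91) (.e (nat_lit 90185) (nat_lit 17) (.e (nat_lit 237605) (nat_lit 9) (.e (nat_lit 426402) (nat_lit 15) (.e (nat_lit 1849) (nat_lit 124) (.e (nat_lit 557104) (nat_lit 14) (.e (nat_lit 180278) (nat_lit 32) .nil))))))) (.g (nat_lit 7) .nil .nil))) 
(.lf (nat_lit 41544) (.g (nat_lit 3300) (.e (nat_lit 1237) (nat_lit 91) (.e (nat_lit 90170) (nat_lit 13) (.e (nat_lit 172065) (nat_lit 3) (.e (nat_lit 204830) (nat_lit 18) (.e (nat_lit 57689) (nat_lit 156) (.e (nat_lit 163875) (nat_lit 3) (.e (nat_lit 204834) (nat_lit 19) (.e (nat_lit 106517) (nat_lit 9) .nil)))))))) (.g (nat_lit 4) .nil .nil)))) (.nd (nat_lit 6) 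
(.lf (nat_lit 41512) (.g (nat_lit 3900) (.e (nat_lit 1236) (nat_lit 91) (.e (nat_lit 90174) (nat_lit 14) (.e (nat_lit 180251) (nat_lit 10) (.e (nat_lit 573489) (nat_lit 14) (.e (nat_lit 73755) (nat_lit 8) (.e (nat_lit 557089) (nat_lit 12) (.e (nat_lit 164010) (nat_lit 41) (.e (nat_lit 663555) (nat_lit 0) .nil)))))))) (.g (nat_lit 6) .nil .nil))) 
(.lf (nat_lit 41576) (.g (nat_lit 4103) (.e (nat_lit 1237) (nat_lit 91) (.e (nat_lit 90170) (nat_lit 13) (.e (nat_lit 172067) (nat_lit 3) (.e (nat_lit 204831) (nat_lit 18) (.e (nat_lit 57692) (nat_lit 156) (.e (nat_lit 163874) (nat_lit 3) (.e (nat_lit 204834) (nat_lit 19) (.e (nat_lit 106517) (nat_lit 9) .nil)))))))) (.g (nat_lit 4) .nil .nil))))) (.nd (nat_lit 5) (.nd (nat_lit 6) 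
(.lf (nat_lit 41496) (.g (nat_lit 2322) (.e (nat_lit 1235) (nat_lit 91) (.e (nat_lit 90185) (nat_lit 17) (.e (nat_lit 237618) (nat_lit 12) (.e (nat_lit 475185) (nat_lit 29) (.e (nat_lit 557105) (nat_lit 14) (.e (nat_lit 180278) (nat_lit 32) .nil)))))) (.g (nat_lit 4) .nil .nil))) 
(.lf (nat_lit 41560) (.g (nat_lit 3430) (.e (nat_lit 1237) (nat_lit 91) (.e (nat_lit 90170) (nat_lit 13) (.e (nat_lit 172065) (nat_lit 3) (.e (nat_lit 204838) (nat_lit 20) (.e (nat_lit 114719) (nat_lit 23) (.e (nat_lit 98334) (nat_lit 18) (.e (nat_lit 164379) (nat_lit 254) (.e (nat_lit 1028) (nat_lit 81) .nil)))))))) (.g (nat_lit 4) .nil .nil)))) (.nd (nat_lit 6) 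
(.lf (nat_lit 41528) (.g (nat_lit 1679) (.e (nat_lit 1237) (nat_lit 91) (.e (nat_lit 90160) (nat_lit 11) (.e (nat_lit 24643) (nat_lit 11) (.e (nat_lit 368676) (nat_lit 21) (.e (nat_lit 516179) (nat_lit 15) (.e (nat_lit 475201) (nat_lit 40) (.e (nat_lit 704655) (nat_lit 9) .nil))))))) (.g (nat_lit 4) .nil .nil))) 
(.lf (nat_lit 41592) (.g (nat_lit 3602) (.e (nat_lit 1237) (nat_lit 91) (.e (nat_lit 90170) (nat_lit 13) (.e (nat_lit 172067) (nat_lit 3) (.e (nat_lit 204838) (nat_lit 20) (.e (nat_lit 114716) (nat_lit 22) (.e (nat_lit 90162) (nat_lit 12) (.e (nat_lit 164007) (nat_lit 41) (.e (nat_lit 671488) (nat_lit 0) .nil)))))))) (.g (nat_lit 5) .nil .nil))))))) 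
(.nd (nat_lit 3) (.nd (nat_lit 4) (.nd (nat_lit 5) (.nd (nat_lit 6) 
(.lf (nat_lit 41476) (.g (nat_lit 2045) (.e (nat_lit 1235) (nat_lit 91) (.e (nat_lit 90185) (nat_lit 17) (.e (nat_lit 237605) (nat_lit 9) (.e (nat_lit 426131) (nat_lit 3) (.e (nat_lit 204885) (nat_lit 33) (.e (nat_lit 401414) (nat_lit 0) (.e (nat_lit 7556) (nat_lit 402) .nil))))))) (.g (nat_lit 5) .nil .nil))) 
(.lf (nat_lit 41540) (.g (nat_lit 3425) (.e (nat_lit 1237) (nat_lit 91) (.e (nat_lit 90170) (nat_lit 13) (.e (nat_lit 172065) (nat_lit 3) (.e (nat_lit 204829) (nat_lit 18) (.e (nat_lit 57688) (nat_lit 156) .nil))))) .nil))) (.nd (nat_lit 6) 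
(.lf (nat_lit 41508) (.g (nat_lit 2424) (.e (nat_lit 1236) (nat_lit 91) (.e (nat_lit 90170) (nat_lit 13) (.e (nat_lit 172106) (nat_lit 10) (.e (nat_lit 434244) (nat_lit 28) .nil)))) .nil)) 
(.lf (nat_lit 41572) (.g (nat_lit 3030) (.e (nat_lit 1237) (nat_lit 91) (.e (nat_lit 90170) (nat_lit 13) (.e (nat_lit 172067) (nat_lit 3) (.e (nat_lit 204830) (nat_lit 18) (.e (nat_lit 57691) (nat_lit 156) .nil))))) .nil)))) (.nd (nat_lit 5) (.nd (nat_lit 6) 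
(.lf (nat_lit 41492) (.g (nat_lit 1960) (.e (nat_lit 1235) (nat_lit 91) (.e (nat_lit 90185) (nat_lit 17) (.e (nat_lit 237618) (nat_lit 12) (.e (nat_lit 475183) (nat_lit 29) (.e (nat_lit 557104) (nat_lit 14) (.e (nat_lit 180278) (nat_lit 32) .nil)))))) (.g (nat_lit 4) .nil .nil))) 
(.lf (nat_lit 41556) (.g (nat_lit 3738) (.e (nat_lit 1237) (nat_lit 91) (.e (nat_lit 90170) (nat_lit 13) (.e (nat_lit 172065) (nat_lit 3) (.e (nat_lit 204838) (nat_lit 20) (.e (nat_lit 114718) (nat_lit 23) (.e (nat_lit 98334) (nat_lit 18) (.e (nat_lit 164379) (nat_lit 254) (.e (nat_lit 1028) (nat_lit 81) .nil)))))))) (.g (nat_lit 4) .nil .nil)))) (.nd (nat_lit 6) 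
(.lf (nat_lit 41524) (.g (nat_lit 667) (.e (nat_lit 1237) (nat_lit 91) (.e (nat_lit 90128) (nat_lit 9) (.e (nat_lit 321) (nat_lit 24) .nil))) .nil)) 
(.lf (nat_lit 41588) (.g (nat_lit 3258) (.e (nat_lit 1237) (nat_lit 91) (.e (nat_lit 90170) (nat_lit 13) (.e (nat_lit 172067) (nat_lit 3) (.e (nat_lit 204838) (nat_lit 20) (.e (nat_lit 114714) (nat_lit 22) .nil))))) .nil))))) (.nd (nat_lit 4) (.nd (nat_lit 5) (.nd (nat_lit 6) 
(.lf (nat_lit 41484) (.g (nat_lit 2372) (.e (nat_lit 1235) (nat_lit 91) (.e (nat_lit 90185) (nat_lit 17) (.e (nat_lit 237615) (nat_lit 12) (.e (nat_lit 475185) (nat_lit 29) (.e (nat_lit 557103) (nat_lit 14) .nil))))) .nil)) 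
(.lf (nat_lit 41548) (.g (nat_lit 2449) (.e (nat_lit 1237) (nat_lit 91) (.e (nat_lit 90170) (nat_lit 13) (.e (nat_lit 172065) (nat_lit 3) (.e (nat_lit 204834) (nat_lit 19) .nil)))) .nil))) (.nd (nat_lit 6) 
(.lf (nat_lit 41516) (.g (nat_lit 4561) (.e (nat_lit 1236) (nat_lit 91) (.e (nat_lit 90176) (nat_lit 15) (.e (nat_lit 188452) (nat_lit 23) (.e (nat_lit 204846) (nat_lit 24) (.e (nat_lit 319504) (nat_lit 10) .nil))))) .nil)) 
(.lf (nat_lit 41580) (.g (nat_lit 3267) (.e (nat_lit 1237) (nat_lit 91) (.e (nat_lit 90170) (nat_lit 13) (.e (nat_lit 172067) (nat_lit 3) (.e (nat_lit 204837) (nat_lit 20) (.e (nat_lit 114718) (nat_lit 23) (.e (nat_lit 98334) (nat_lit 18) (.e (nat_lit 164379) (nat_lit 254) (.e (nat_lit 1027) (nat_lit 81) .nil)))))))) (.g (nat_lit 4) .nil .nil))))) (.nd (nat_lit 5) (.nd (nat_lit 6) 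
(.lf (nat_lit 41500) (.g (nat_lit 1936) (.e (nat_lit 1236) (nat_lit 91) (.e (nat_lit 90170) (nat_lit 13) (.e (nat_lit 172106) (nat_lit 10) (.e (nat_lit 434231) (nat_lit 23) .nil)))) .nil)) 
(.lf (nat_lit 41564) (.g (nat_lit 2460) (.e (nat_lit 1237) (nat_lit 91) (.e (nat_lit 90170) (nat_lit 13) (.e (nat_lit 172067) (nat_lit 3) (.e (nat_lit 204805) (nat_lit 0) .nil)))) .nil))) (.nd (nat_lit 6) 
(.lf (nat_lit 41532) (.g (nat_lit 3458) (.e (nat_lit 1237) (nat_lit 91) (.e (nat_lit 90170) (nat_lit 13) (.e (nat_lit 172045) (nat_lit 0) (.e (nat_lit 3307) (nat_lit 202) (.e (nat_lit 573489) (nat_lit 14) (.e (nat_lit 73755) (nat_lit 8) (.e (nat_lit 557090) (nat_lit 12) (.e (nat_lit 164006) (nat_lit 41) (.e (nat_lit 671488) (nat_lit 0) .nil))))))))) (.g (nat_lit 4) .nil .nil))) 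
(.lf (nat_lit 41596) (.g (nat_lit 3282) (.e (nat_lit 1237) (nat_lit 91) (.e (nat_lit 90170) (nat_lit 13) (.e (nat_lit 172067) (nat_lit 3) (.e (nat_lit 204838) (nat_lit 20) (.e (nat_lit 114718) (nat_lit 23) .nil))))) .nil))))))) (.nd (nat_lit 2) (.nd (nat_lit 3) (.nd (nat_lit 4) (.nd (nat_lit 5) (.nd (nat_lit 6) 
(.lf (nat_lit 41474) (.g (nat_lit 4904) (.e (nat_lit 1235) (nat_lit 91) (.e (nat_lit 90185) (nat_lit 17) (.e (nat_lit 237605) (nat_lit 9) (.e (nat_lit 426131) (nat_lit 3) (.e (nat_lit 204846) (nat_lit 24) (.e (nat_lit 319504) (nat_lit 10) (.e (nat_lit 5351) (nat_lit 298) .nil))))))) (.g (nat_lit 6) .nil .nil))) 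
(.lf (nat_lit 41538) (.g (nat_lit 2468) (.e (nat_lit 1237) (nat_lit 91) (.e (nat_lit 90170) (nat_lit 13) (.e (nat_lit 172065) (nat_lit 3) (.e (nat_lit 204829) (nat_lit 18) .nil)))) .nil))) (.nd (nat_lit 6) 
(.lf (nat_lit 41506) (.g (nat_lit 3213) (.e (nat_lit 1236) (nat_lit 91) (.e (nat_lit 90170) (nat_lit 13) (.e (nat_lit 172106) (nat_lit 10) (.e (nat_lit 434231) (nat_lit 23) (.e (nat_lit 532554) (nat_lit 13) (.e (nat_lit 368689) (nat_lit 34) (.e (nat_lit 622605) (nat_lit 5) .nil))))))) (.g (nat_lit 6) .nil .nil))) 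
(.lf (nat_lit 41570) (.g (nat_lit 2443) (.e (nat_lit 1237) (nat_lit 91) (.e (nat_lit 90170) (nat_lit 13) (.e (nat_lit 172067) (nat_lit 3) (.e (nat_lit 204830) (nat_lit 18) .nil)))) .nil)))) (.nd (nat_lit 5) (.nd (nat_lit 6) 
(.lf (nat_lit 41490) (.g (nat_lit 2195) (.e (nat_lit 1235) (nat_lit 91) (.e (nat_lit 90185) (nat_lit 17) (.e (nat_lit 237617) (nat_lit 12) (.e (nat_lit 475185) (nat_lit 29) (.e (nat_lit 557103) (nat_lit 14) (.e (nat_lit 180278) (nat_lit 32) .nil)))))) (.g (nat_lit 4) .nil .nil))) 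
(.lf (nat_lit 41554) (.g (nat_lit 3447) (.e (nat_lit 1237) (nat_lit 91) (.e (nat_lit 90170) (nat_lit 13) (.e (nat_lit 172065) (nat_lit 3) (.e (nat_lit 204838) (nat_lit 20) (.e (nat_lit 114716) (nat_lit 22) (.e (nat_lit 90164) (nat_lit 12) (.e (nat_lit 164006) (nat_lit 41) (.e (nat_lit 671488) (nat_lit 0) .nil)))))))) (.g (nat_lit 4) .nil .nil)))) (.nd (nat_lit 6) 
(.lf (nat_lit 41522) (.g (nat_lit 1765) (.e (nat_lit 1237) (nat_lit 91) (.e (nat_lit 90118) (nat_lit 0) (.e (nat_lit 1638) (nat_lit 114) (.e (nat_lit 392960) (nat_lit 24) (.e (nat_lit 516151) (nat_lit 9) (.e (nat_lit 426132) (nat_lit 3) (.e (nat_lit 204834) (nat_lit 19) (.e (nat_lit 106517) (nat_lit 9) .nil)))))))) (.g (nat_lit 6) .nil .nil))) 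
(.lf (nat_lit 41586) (.g (nat_lit 3460) (.e (nat_lit 1237) (nat_lit 91) (.e (nat_lit 90170) (nat_lit 13) (.e (nat_lit 172067) (nat_lit 3) (.e (nat_lit 204837) (nat_lit 20) (.e (nat_lit 114719) (nat_lit 23) (.e (nat_lit 98334) (nat_lit 18) (.e (nat_lit 164380) (nat_lit 254) (.e (nat_lit 1028) (nat_lit 81) .nil)))))))) (.g (nat_lit 4) .nil .nil)))))) 
(.nd (nat_lit 4) (.nd (nat_lit 5) (.nd (nat_lit 6) 
(.lf (nat_lit 41482) (.g (nat_lit 2252) (.e (nat_lit 1235) (nat_lit 91) (.e (nat_lit 90185) (nat_lit 17) (.e (nat_lit 237605) (nat_lit 9) (.e (nat_lit 426402) (nat_lit 15) (.e (nat_lit 1859) (nat_lit 124) (.e (nat_lit 557105) (nat_lit 14) (.e (nat_lit 180277) (nat_lit 32) .nil))))))) (.g (nat_lit 6) .nil .nil))) 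
(.lf (nat_lit 41546) (.g (nat_lit 3411) (.e (nat_lit 1237) (nat_lit 91) (.e (nat_lit 90170) (nat_lit 13) (.e (nat_lit 172065) (nat_lit 3) (.e (nat_lit 204830) (nat_lit 18) (.e (nat_lit 57692) (nat_lit 156) (.e (nat_lit 163875) (nat_lit 3) (.e (nat_lit 204834) (nat_lit 19) (.e (nat_lit 106517) (nat_lit 9) .nil)))))))) (.g (nat_lit 4) .nil .nil)))) (.nd (nat_lit 6) 
(.lf (nat_lit 41514) (.g (nat_lit 726) (.e (nat_lit 1236) (nat_lit 91) (.e (nat_lit 90176) (nat_lit 15) (.e (nat_lit 188439) (nat_lit 20) .nil))) .nil)) 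
(.lf (nat_lit 41578) (.g (nat_lit 2530) (.e (nat_lit 1237) (nat_lit 91) (.e (nat_lit 90170) (nat_lit 13) (.e (nat_lit 172067) (nat_lit 3) (.e (nat_lit 204837) (nat_lit 20) .nil)))) .nil)))) (.nd (nat_lit 5) (.nd (nat_lit 6) 
(.lf (nat_lit 41498) (.g (nat_lit 2928) (.e (nat_lit 1235) (nat_lit 91) (.e (nat_lit 90185) (nat_lit 17) (.e (nat_lit 237619) (nat_lit 12) (.e (nat_lit 475185) (nat_lit 29) (.e (nat_lit 557103) (nat_lit 14) (.e (nat_lit 180277) (nat_lit 32) .nil)))))) (.g (nat_lit 0) .nil .nil))) 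
(.lf (nat_lit 41562) (.g (nat_lit 994) (.e (nat_lit 1237) (nat_lit 91) (.e (nat_lit 90170) (nat_lit 13) (.e (nat_lit 172066) (nat_lit 3) .nil))) .nil))) (.nd (nat_lit 6) 
(.lf (nat_lit 41530) (.g (nat_lit 1810) (.e (nat_lit 1237) (nat_lit 91) (.e (nat_lit 90160) (nat_lit 11) (.e (nat_lit 24644) (nat_lit 11) (.e (nat_lit 368676) (nat_lit 21) (.e (nat_lit 516179) (nat_lit 15) (.e (nat_lit 475201) (nat_lit 40) (.e (nat_lit 704655) (nat_lit 9) .nil))))))) (.g (nat_lit 4) .nil .nil))) 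
(.lf (nat_lit 41594) (.g (nat_lit 3043) (.e (nat_lit 1237) (nat_lit 91) (.e (nat_lit 90170) (nat_lit 13) (.e (nat_lit 172067) (nat_lit 3) (.e (nat_lit 204838) (nat_lit 20) (.e (nat_lit 114716) (nat_lit 22) (.e (nat_lit 90181) (nat_lit 16) (.e (nat_lit 229449) (nat_lit 41) (.e (nat_lit 663552) (nat_lit 0) .nil)))))))) (.g (nat_lit 4) .nil .nil))))))) 
(.nd (nat_lit 3) (.nd (nat_lit 4) (.nd (nat_lit 5) (.nd (nat_lit 6) 
(.lf (nat_lit 41478) (.g (nat_lit 1636) (.e (nat_lit 1235) (nat_lit 91) (.e (nat_lit 90185) (nat_lit 17) (.e (nat_lit 237605) (nat_lit 9) (.e (nat_lit 426402) (nat_lit 15) (.e (nat_lit 1849) (nat_lit 124) (.e (nat_lit 557103) (nat_lit 14) (.e (nat_lit 180277) (nat_lit 32) .nil))))))) (.g (nat_lit 4) .nil .nil))) 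
(.lf (nat_lit 41542) (.g (nat_lit 3225) (.e (nat_lit 1237) (nat_lit 91) (.e (nat_lit 90170) (nat_lit 13) (.e (nat_lit 172065) (nat_lit 3) (.e (nat_lit 204829) (nat_lit 18) (.e (nat_lit 57692) (nat_lit 156) .nil))))) .nil))) (.nd (nat_lit 6) 
(.lf (nat_lit 41510) (.g (nat_lit 1971) (.e (nat_lit 1236) (nat_lit 91) (.e (nat_lit 90173) (nat_lit 14) (.e (nat_lit 180252) (nat_lit 10) (.e (nat_lit 573489) (nat_lit 14) (.e (nat_lit 73755) (nat_lit 8) .nil))))) .nil)) 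
(.lf (nat_lit 41574) (.g (nat_lit 3165) (.e (nat_lit 1237) (nat_lit 91) (.e (nat_lit 90170) (nat_lit 13) (.e (nat_lit 172067) (nat_lit 3) (.e (nat_lit 204830) (nat_lit 18) (.e (nat_lit 57692) (nat_lit 156) (.e (nat_lit 163875) (nat_lit 3) (.e (nat_lit 204834) (nat_lit 19) (.e (nat_lit 106517) (nat_lit 9) .nil)))))))) (.g (nat_lit 4) .nil .nil))))) (.nd (nat_lit 5) (.nd (nat_lit 6) 
(.lf (nat_lit 41494) (.g (nat_lit 2393) (.e (nat_lit 1235) (nat_lit 91) (.e (nat_lit 90185) (nat_lit 17) (.e (nat_lit 237618) (nat_lit 12) (.e (nat_lit 475185) (nat_lit 29) (.e (nat_lit 557103) (nat_lit 14) (.e (nat_lit 180277) (nat_lit 32) .nil)))))) (.g (nat_lit 4) .nil .nil))) 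
(.lf (nat_lit 41558) (.g (nat_lit 4074) (.e (nat_lit 1237) (nat_lit 91) (.e (nat_lit 90170) (nat_lit 13) (.e (nat_lit 172065) (nat_lit 3) (.e (nat_lit 204838) (nat_lit 20) (.e (nat_lit 114718) (nat_lit 23) (.e (nat_lit 98334) (nat_lit 18) (.e (nat_lit 164380) (nat_lit 254) (.e (nat_lit 1028) (nat_lit 81) .nil)))))))) (.g (nat_lit 4) .nil .nil)))) (.nd (nat_lit 6) 
(.lf (nat_lit 41526) (.g (nat_lit 3095) (.e (nat_lit 1237) (nat_lit 91) (.e (nat_lit 90160) (nat_lit 11) (.e (nat_lit 24628) (nat_lit 9) (.e (nat_lit 336019) (nat_lit 3) (.e (nat_lit 98384) (nat_lit 32) (.e (nat_lit 475201) (nat_lit 40) (.e (nat_lit 704620) (nat_lit 9) .nil))))))) (.g (nat_lit 5) .nil .nil))) 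
(.lf (nat_lit 41590) (.g (nat_lit 2894) (.e (nat_lit 1237) (nat_lit 91) (.e (nat_lit 90170) (nat_lit 13) (.e (nat_lit 172067) (nat_lit 3) (.e (nat_lit 204838) (nat_lit 20) (.e (nat_lit 114716) (nat_lit 22) .nil))))) .nil))))) (.nd (nat_lit 4) (.nd (nat_lit 5) (.nd (nat_lit 6) 
(.lf (nat_lit 41486) (.g (nat_lit 2233) (.e (nat_lit 1235) (nat_lit 91) (.e (nat_lit 90185) (nat_lit 17) (.e (nat_lit 237616) (nat_lit 12) (.e (nat_lit 475183) (nat_lit 29) (.e (nat_lit 557104) (nat_lit 14) (.e (nat_lit 180278) (nat_lit 32) .nil)))))) (.g (nat_lit 5) .nil .nil))) 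
(.lf (nat_lit 41550) (.g (nat_lit 2342) (.e (nat_lit 1237) (nat_lit 91) (.e (nat_lit 90170) (nat_lit 13) (.e (nat_lit 172065) (nat_lit 3) (.e (nat_lit 204838) (nat_lit 20) .nil)))) .nil))) (.nd (nat_lit 6) 
(.lf (nat_lit 41518) (.g (nat_lit 632) (.e (nat_lit 1236) (nat_lit 91) (.e (nat_lit 90178) (nat_lit 15) (.e (nat_lit 188441) (nat_lit 20) .nil))) .nil)) 
(.lf (nat_lit 41582) (.g (nat_lit 4052) (.e (nat_lit 1237) (nat_lit 91) (.e (nat_lit 90170) (nat_lit 13) (.e (nat_lit 172067) (nat_lit 3) (.e (nat_lit 204837) (nat_lit 20) (.e (nat_lit 114718) (nat_lit 23) (.e (nat_lit 98334) (nat_lit 18) (.e (nat_lit 164380) (nat_lit 254) (.e (nat_lit 1028) (nat_lit 81) .nil)))))))) (.g (nat_lit 5) .nil .nil))))) (.nd (nat_lit 5) (.nd (nat_lit 6) 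
(.lf (nat_lit 41502) (.g (nat_lit 2303) (.e (nat_lit 1236) (nat_lit 91) (.e (nat_lit 90170) (nat_lit 13) (.e (nat_lit 172106) (nat_lit 10) (.e (nat_lit 434231) (nat_lit 23) (.e (nat_lit 532535) (nat_lit 9) .nil))))) .nil)) 
(.lf (nat_lit 41566) (.g (nat_lit 2949) (.e (nat_lit 1237) (nat_lit 91) (.e (nat_lit 90170) (nat_lit 13) (.e (nat_lit 172067) (nat_lit 3) (.e (nat_lit 204828) (nat_lit 18) .nil)))) .nil))) (.nd (nat_lit 6) 
(.lf (nat_lit 41534) (.g (nat_lit 3346) (.e (nat_lit 1237) (nat_lit 91) (.e (nat_lit 90170) (nat_lit 13) (.e (nat_lit 172049) (nat_lit 0) (.e (nat_lit 3307) (nat_lit 202) (.e (nat_lit 573489) (nat_lit 14) .nil))))) .nil)) 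
(.lf (nat_lit 41598) (.g (nat_lit 3536) (.e (nat_lit 1237) (nat_lit 91) (.e (nat_lit 90170) (nat_lit 13) (.e (nat_lit 172067) (nat_lit 3) (.e (nat_lit 204838) (nat_lit 20) (.e (nat_lit 114718) (nat_lit 23) (.e (nat_lit 98334) (nat_lit 18) (.e (nat_lit 164379) (nat_lit 254) (.e (nat_lit 1027) (nat_lit 81) .nil)))))))) (.g (nat_lit 4) .nil .nil))))))))) 
(.nd (nat_lit 1) (.nd (nat_lit 2) (.nd (nat_lit 3) (.nd (nat_lit 4) (.nd (nat_lit 5) 
(.nd (nat_lit 6) 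
(.lf (nat_lit 41473) (.g (nat_lit 3347) (.e (nat_lit 1235) (nat_lit 91) (.e (nat_lit 90185) (nat_lit 17) (.e (nat_lit 237605) (nat_lit 9) (.e (nat_lit 426130) (nat_lit 3) (.e (nat_lit 204846) (nat_lit 24) (.e (nat_lit 319504) (nat_lit 10) (.e (nat_lit 5351) (nat_lit 298) .nil))))))) (.g (nat_lit 6) .nil .nil))) 
(.lf (nat_lit 41537) (.g (nat_lit 2374) (.e (nat_lit 1237) (nat_lit 91) (.e (nat_lit 90170) (nat_lit 13) (.e (nat_lit 172065) (nat_lit 3) (.e (nat_lit 212736) (nat_lit 10) .nil)))) .nil))) (.nd (nat_lit 6) 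
(.lf (nat_lit 41505) (.g (nat_lit 3432) (.e (nat_lit 1236) (nat_lit 91) (.e (nat_lit 90170) (nat_lit 13) (.e (nat_lit 172106) (nat_lit 10) (.e (nat_lit 434231) (nat_lit 23) (.e (nat_lit 532553) (nat_lit 13) .nil))))) .nil)) 
(.lf (nat_lit 41569) (.g (nat_lit 3139) (.e (nat_lit 1237) (nat_lit 91) (.e (nat_lit 90170) (nat_lit 13) (.e (nat_lit 172067) (nat_lit 3) (.e (nat_lit 204829) (nat_lit 18) (.e (nat_lit 57692) (nat_lit 156) .nil))))) .nil)))) (.nd (nat_lit 5) (.nd (nat_lit 6) 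
(.lf (nat_lit 41489) (.g (nat_lit 2309) (.e (nat_lit 1235) (nat_lit 91) (.e (nat_lit 90185) (nat_lit 17) (.e (nat_lit 237617) (nat_lit 12) (.e (nat_lit 475185) (nat_lit 29) (.e (nat_lit 557103) (nat_lit 14) (.e (nat_lit 180277) (nat_lit 32) .nil)))))) (.g (nat_lit 4) .nil .nil))) 
(.lf (nat_lit 41553) (.g (nat_lit 3279) (.e (nat_lit 1237) (nat_lit 91) (.e (nat_lit 90170) (nat_lit 13) (.e (nat_lit 172065) (nat_lit 3) (.e (nat_lit 204838) (nat_lit 20) (.e (nat_lit 114716) (nat_lit 22) (.e (nat_lit 90162) (nat_lit 12) (.e (nat_lit 164007) (nat_lit 41) (.e (nat_lit 671488) (nat_lit 0) .nil)))))))) (.g (nat_lit 4) .nil .nil)))) (.nd (nat_lit 6) 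
(.lf (nat_lit 41521) (.g (nat_lit 1704) (.e (nat_lit 1236) (nat_lit 91) (.e (nat_lit 90185) (nat_lit 17) (.e (nat_lit 237605) (nat_lit 9) (.e (nat_lit 426131) (nat_lit 3) (.e (nat_lit 204873) (nat_lit 30) .nil))))) .nil)) 
(.lf (nat_lit 41585) (.g (nat_lit 3214) (.e (nat_lit 1237) (nat_lit 91) (.e (nat_lit 90170) (nat_lit 13) (.e (nat_lit 172067) (nat_lit 3) (.e (nat_lit 204837) (nat_lit 20) (.e (nat_lit 114719) (nat_lit 23) (.e (nat_lit 98334) (nat_lit 18) (.e (nat_lit 164380) (nat_lit 254) (.e (nat_lit 1027) (nat_lit 81) .nil)))))))) (.g (nat_lit 4) .nil .nil)))))) 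
(.nd (nat_lit 4) (.nd (nat_lit 5) (.nd (nat_lit 6) 
(.lf (nat_lit 41481) (.g (nat_lit 1568) (.e (nat_lit 1235) (nat_lit 91) (.e (nat_lit 90185) (nat_lit 17) (.e (nat_lit 237605) (nat_lit 9) (.e (nat_lit 426402) (nat_lit 15) (.e (nat_lit 1859) (nat_lit 124) (.e (nat_lit 557104) (nat_lit 14) (.e (nat_lit 180278) (nat_lit 32) .nil))))))) (.g (nat_lit 4) .nil .nil))) 
(.lf (nat_lit 41545) (.g (nat_lit 5723) (.e (nat_lit 1237) (nat_lit 91) (.e (nat_lit 90170) (nat_lit 13) (.e (nat_lit 172065) (nat_lit 3) (.e (nat_lit 204830) (nat_lit 18) (.e (nat_lit 57691) (nat_lit 156) (.e (nat_lit 163875) (nat_lit 3) (.e (nat_lit 204834) (nat_lit 19) (.e (nat_lit 106517) (nat_lit 9) .nil)))))))) (.g (nat_lit 6) .nil .nil)))) (.nd (nat_lit 6) 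
(.lf (nat_lit 41513) (.g (nat_lit 1639) (.e (nat_lit 1236) (nat_lit 91) (.e (nat_lit 90176) (nat_lit 15) (.e (nat_lit 188420) (nat_lit 0) (.e (nat_lit 1856) (nat_lit 124) (.e (nat_lit 557103) (nat_lit 14) .nil))))) .nil)) 
(.lf (nat_lit 41577) (.g (nat_lit 2581) (.e (nat_lit 1237) (nat_lit 91) (.e (nat_lit 90170) (nat_lit 13) (.e (nat_lit 172067) (nat_lit 3) (.e (nat_lit 204834) (nat_lit 19) .nil)))) .nil)))) (.nd (nat_lit 5) (.nd (nat_lit 6) 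
(.lf (nat_lit 41497) (.g (nat_lit 824) (.e (nat_lit 1235) (nat_lit 91) (.e (nat_lit 90185) (nat_lit 17) (.e (nat_lit 237619) (nat_lit 12) (.e (nat_lit 475184) (nat_lit 29) .nil)))) .nil)) 
(.lf (nat_lit 41561) (.g (nat_lit 3516) (.e (nat_lit 1237) (nat_lit 91) (.e (nat_lit 90170) (nat_lit 13) (.e (nat_lit 172065) (nat_lit 3) (.e (nat_lit 204838) (nat_lit 20) (.e (nat_lit 114719) (nat_lit 23) (.e (nat_lit 98334) (nat_lit 18) (.e (nat_lit 164380) (nat_lit 254) (.e (nat_lit 1028) (nat_lit 81) .nil)))))))) (.g (nat_lit 4) .nil .nil)))) (.nd (nat_lit 6) 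
(.lf (nat_lit 41529) (.g (nat_lit 892) (.e (nat_lit 1237) (nat_lit 91) (.e (nat_lit 90160) (nat_lit 11) (.e (nat_lit 24644) (nat_lit 11) .nil))) .nil)) 
(.lf (nat_lit 41593) (.g (nat_lit 3857) (.e (nat_lit 1237) (nat_lit 91) (.e (nat_lit 90170) (nat_lit 13) (.e (nat_lit 172067) (nat_lit 3) (.e (nat_lit 204838) (nat_lit 20) (.e (nat_lit 114716) (nat_lit 22) (.e (nat_lit 90164) (nat_lit 12) (.e (nat_lit 164006) (nat_lit 41) (.e (nat_lit 671488) (nat_lit 0) .nil)))))))) (.g (nat_lit 5) .nil .nil))))))) 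
(.nd (nat_lit 3) (.nd (nat_lit 4) (.nd (nat_lit 5) (.nd (nat_lit 6) 
(.lf (nat_lit 41477) (.g (nat_lit 3532) (.e (nat_lit 1235) (nat_lit 91) (.e (nat_lit 90185) (nat_lit 17) (.e (nat_lit 237605) (nat_lit 9) (.e (nat_lit 426402) (nat_lit 15) (.e (nat_lit 1848) (nat_lit 124) (.e (nat_lit 557104) (nat_lit 14) (.e (nat_lit 180278) (nat_lit 32) .nil))))))) (.g (nat_lit 7) .nil .nil))) 
(.lf (nat_lit 41541) (.g (nat_lit 4064) (.e (nat_lit 1237) (nat_lit 91) (.e (nat_lit 90170) (nat_lit 13) (.e (nat_lit 172065) (nat_lit 3) (.e (nat_lit 204829) (nat_lit 18) (.e (nat_lit 57688) (nat_lit 156) (.e (nat_lit 163873) (nat_lit 3) (.e (nat_lit 204834) (nat_lit 19) (.e (nat_lit 106517) (nat_lit 9) .nil)))))))) (.g (nat_lit 4) .nil .nil)))) (.nd (nat_lit 6) 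
(.lf (nat_lit 41509) (.g (nat_lit 2142) (.e (nat_lit 1236) (nat_lit 91) (.e (nat_lit 90170) (nat_lit 13) (.e (nat_lit 172120) (nat_lit 12) (.e (nat_lit 475185) (nat_lit 29) .nil)))) .nil)) 
(.lf (nat_lit 41573) (.g (nat_lit 5480) (.e (nat_lit 1237) (nat_lit 91) (.e (nat_lit 90170) (nat_lit 13) (.e (nat_lit 172067) (nat_lit 3) (.e (nat_lit 204830) (nat_lit 18) (.e (nat_lit 57691) (nat_lit 156) (.e (nat_lit 163875) (nat_lit 3) (.e (nat_lit 204834) (nat_lit 19) (.e (nat_lit 106517) (nat_lit 9) .nil)))))))) (.g (nat_lit 6) .nil .nil))))) (.nd (nat_lit 5) (.nd (nat_lit 6) 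
(.lf (nat_lit 41493) (.g (nat_lit 2046) (.e (nat_lit 1235) (nat_lit 91) (.e (nat_lit 90185) (nat_lit 17) (.e (nat_lit 237618) (nat_lit 12) (.e (nat_lit 475184) (nat_lit 29) (.e (nat_lit 557104) (nat_lit 14) (.e (nat_lit 180278) (nat_lit 32) .nil)))))) (.g (nat_lit 4) .nil .nil))) 
(.lf (nat_lit 41557) (.g (nat_lit 3761) (.e (nat_lit 1237) (nat_lit 91) (.e (nat_lit 90170) (nat_lit 13) (.e (nat_lit 172065) (nat_lit 3) (.e (nat_lit 204838) (nat_lit 20) (.e (nat_lit 114718) (nat_lit 23) (.e (nat_lit 98334) (nat_lit 18) (.e (nat_lit 164380) (nat_lit 254) (.e (nat_lit 1027) (nat_lit 81) .nil)))))))) (.g (nat_lit 4) .nil .nil)))) (.nd (nat_lit 6) 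
(.lf (nat_lit 41525) (.g (nat_lit 2165) (.e (nat_lit 1237) (nat_lit 91) (.e (nat_lit 90160) (nat_lit 11) (.e (nat_lit 24628) (nat_lit 9) (.e (nat_lit 336019) (nat_lit 3) (.e (nat_lit 98384) (nat_lit 32) .nil))))) .nil)) 
(.lf (nat_lit 41589) (.g (nat_lit 3464) (.e (nat_lit 1237) (nat_lit 91) (.e (nat_lit 90170) (nat_lit 13) (.e (nat_lit 172067) (nat_lit 3) (.e (nat_lit 204838) (nat_lit 20) (.e (nat_lit 114714) (nat_lit 22) (.e (nat_lit 90162) (nat_lit 12) (.e (nat_lit 164007) (nat_lit 41) (.e (nat_lit 663560) (nat_lit 0) .nil)))))))) (.g (nat_lit 4) .nil .nil)))))) 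
(.nd (nat_lit 4) (.nd (nat_lit 5) (.nd (nat_lit 6) 
(.lf (nat_lit 41485) (.g (nat_lit 2286) (.e (nat_lit 1235) (nat_lit 91) (.e (nat_lit 90185) (nat_lit 17) (.e (nat_lit 237615) (nat_lit 12) (.e (nat_lit 475185) (nat_lit 29) (.e (nat_lit 557105) (nat_lit 14) .nil))))) .nil)) 
(.lf (nat_lit 41549) (.g (nat_lit 2449) (.e (nat_lit 1237) (nat_lit 91) (.e (nat_lit 90170) (nat_lit 13) (.e (nat_lit 172065) (nat_lit 3) (.e (nat_lit 204837) (nat_lit 20) .nil)))) .nil))) (.nd (nat_lit 6) 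
(.lf (nat_lit 41517) (.g (nat_lit 2808) (.e (nat_lit 1236) (nat_lit 91) (.e (nat_lit 90177) (nat_lit 15) (.e (nat_lit 188452) (nat_lit 23) (.e (nat_lit 204846) (nat_lit 24) .nil)))) .nil)) 
(.lf (nat_lit 41581) (.g (nat_lit 3733) (.e (nat_lit 1237) (nat_lit 91) (.e (nat_lit 90170) (nat_lit 13) (.e (nat_lit 172067) (nat_lit 3) (.e (nat_lit 204837) (nat_lit 20) (.e (nat_lit 114718) (nat_lit 23) (.e (nat_lit 98334) (nat_lit 18) (.e (nat_lit 164380) (nat_lit 254) (.e (nat_lit 1027) (nat_lit 81) .nil)))))))) (.g (nat_lit 4) .nil .nil))))) (.nd (nat_lit 5) (.nd (nat_lit 6) 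
(.lf (nat_lit 41501) (.g (nat_lit 2669) (.e (nat_lit 1236) (nat_lit 91) (.e (nat_lit 90170) (nat_lit 13) (.e (nat_lit 172106) (nat_lit 10) (.e (nat_lit 434231) (nat_lit 23) (.e (nat_lit 532529) (nat_lit 9) (.e (nat_lit 335980) (nat_lit 0) (.e (nat_lit 1936) (nat_lit 132) (.e (nat_lit 622605) (nat_lit 5) .nil)))))))) (.g (nat_lit 4) .nil .nil))) 
(.lf (nat_lit 41565) (.g (nat_lit 2740) (.e (nat_lit 1237) (nat_lit 91) (.e (nat_lit 90170) (nat_lit 13) (.e (nat_lit 172067) (nat_lit 3) (.e (nat_lit 212736) (nat_lit 10) .nil)))) .nil))) (.nd (nat_lit 6) 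
(.lf (nat_lit 41533) (.g (nat_lit 2335) (.e (nat_lit 1237) (nat_lit 91) (.e (nat_lit 90170) (nat_lit 13) (.e (nat_lit 172046) (nat_lit 0) (.e (nat_lit 3238) (nat_lit 197) .nil)))) .nil)) 
(.lf (nat_lit 41597) (.g (nat_lit 3330) (.e (nat_lit 1237) (nat_lit 91) (.e (nat_lit 90170) (nat_lit 13) (.e (nat_lit 172067) (nat_lit 3) (.e (nat_lit 204838) (nat_lit 20) (.e (nat_lit 114718) (nat_lit 23) (.e (nat_lit 98333) (nat_lit 18) (.e (nat_lit 164381) (nat_lit 254) (.e (nat_lit 1028) (nat_lit 81) .nil)))))))) (.g (nat_lit 4) .nil .nil)))))))) 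
(.nd (nat_lit 2) (.nd (nat_lit 3) (.nd (nat_lit 4) (.nd (nat_lit 5) (.nd (nat_lit 6) 
(.lf (nat_lit 41475) (.g (nat_lit 4239) (.e (nat_lit 1235) (nat_lit 91) (.e (nat_lit 90185) (nat_lit 17) (.e (nat_lit 237605) (nat_lit 9) (.e (nat_lit 426131) (nat_lit 3) (.e (nat_lit 204846) (nat_lit 24) (.e (nat_lit 319505) (nat_lit 10) (.e (nat_lit 5351) (nat_lit 298) .nil))))))) (.g (nat_lit 0) .nil .nil))) 
(.lf (nat_lit 41539) (.g (nat_lit 3490) (.e (nat_lit 1237) (nat_lit 91) (.e (nat_lit 90170) (nat_lit 13) (.e (nat_lit 172065) (nat_lit 3) (.e (nat_lit 204829) (nat_lit 18) (.e (nat_lit 57686) (nat_lit 156) .nil))))) .nil))) (.nd (nat_lit 6) 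
(.lf (nat_lit 41507) (.g (nat_lit 2633) (.e (nat_lit 1236) (nat_lit 91) (.e (nat_lit 90170) (nat_lit 13) (.e (nat_lit 172106) (nat_lit 10) (.e (nat_lit 434231) (nat_lit 23) (.e (nat_lit 532563) (nat_lit 15) .nil))))) .nil)) 
(.lf (nat_lit 41571) (.g (nat_lit 3121) (.e (nat_lit 1237) (nat_lit 91) (.e (nat_lit 90170) (nat_lit 13) (.e (nat_lit 172067) (nat_lit 3) (.e (nat_lit 204830) (nat_lit 18) (.e (nat_lit 57689) (nat_lit 156) .nil))))) .nil)))) (.nd (nat_lit 5) (.nd (nat_lit 6) 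
(.lf (nat_lit 41491) (.g (nat_lit 2013) (.e (nat_lit 1235) (nat_lit 91) (.e (nat_lit 90185) (nat_lit 17) (.e (nat_lit 237617) (nat_lit 12) (.e (nat_lit 475185) (nat_lit 29) (.e (nat_lit 557105) (nat_lit 14) (.e (nat_lit 180277) (nat_lit 32) .nil)))))) (.g (nat_lit 4) .nil .nil))) 
(.lf (nat_lit 41555) (.g (nat_lit 3320) (.e (nat_lit 1237) (nat_lit 91) (.e (nat_lit 90170) (nat_lit 13) (.e (nat_lit 172065) (nat_lit 3) (.e (nat_lit 204838) (nat_lit 20) (.e (nat_lit 114718) (nat_lit 23) .nil))))) .nil))) (.nd (nat_lit 6) 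
(.lf (nat_lit 41523) (.g (nat_lit 2771) (.e (nat_lit 1237) (nat_lit 91) (.e (nat_lit 90118) (nat_lit 0) (.e (nat_lit 1638) (nat_lit 114) (.e (nat_lit 392960) (nat_lit 24) (.e (nat_lit 516160) (nat_lit 10) (.e (nat_lit 434231) (nat_lit 23) (.e (nat_lit 532507) (nat_lit 2) (.e (nat_lit 106517) (nat_lit 9) .nil)))))))) (.g (nat_lit 7) .nil .nil))) 
(.lf (nat_lit 41587) (.g (nat_lit 2410) (.e (nat_lit 1237) (nat_lit 91) (.e (nat_lit 90170) (nat_lit 13) (.e (nat_lit 172067) (nat_lit 3) (.e (nat_lit 204838) (nat_lit 20) .nil)))) .nil))))) (.nd (nat_lit 4) (.nd (nat_lit 5) (.nd (nat_lit 6) 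
(.lf (nat_lit 41483) (.g (nat_lit 970) (.e (nat_lit 1235) (nat_lit 91) (.e (nat_lit 90185) (nat_lit 17) (.e (nat_lit 237611) (nat_lit 9) .nil))) .nil)) 
(.lf (nat_lit 41547) (.g (nat_lit 4148) (.e (nat_lit 1237) (nat_lit 91) (.e (nat_lit 90170) (nat_lit 13) (.e (nat_lit 172065) (nat_lit 3) (.e (nat_lit 204831) (nat_lit 18) (.e (nat_lit 57692) (nat_lit 156) (.e (nat_lit 163874) (nat_lit 3) (.e (nat_lit 204834) (nat_lit 19) (.e (nat_lit 106517) (nat_lit 9) .nil)))))))) (.g (nat_lit 4) .nil .nil)))) (.nd (nat_lit 6) 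
(.lf (nat_lit 41515) (.g (nat_lit 647) (.e (nat_lit 1236) (nat_lit 91) (.e (nat_lit 90176) (nat_lit 15) (.e (nat_lit 188450) (nat_lit 23) .nil))) .nil)) 
(.lf (nat_lit 41579) (.g (nat_lit 3150) (.e (nat_lit 1237) (nat_lit 91) (.e (nat_lit 90170) (nat_lit 13) (.e (nat_lit 172067) (nat_lit 3) (.e (nat_lit 204837) (nat_lit 20) (.e (nat_lit 114718) (nat_lit 23) .nil))))) .nil)))) (.nd (nat_lit 5) (.nd (nat_lit 6) 
(.lf (nat_lit 41499) (.g (nat_lit 2988) (.e (nat_lit 1235) (nat_lit 91) (.e (nat_lit 90185) (nat_lit 17) (.e (nat_lit 237619) (nat_lit 12) (.e (nat_lit 475185) (nat_lit 29) (.e (nat_lit 557104) (nat_lit 14) (.e (nat_lit 180278) (nat_lit 32) .nil)))))) (.g (nat_lit 5) .nil .nil))) 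
(.lf (nat_lit 41563) (.g (nat_lit 447) (.e (nat_lit 1237) (nat_lit 91) (.e (nat_lit 90170) (nat_lit 13) (.e (nat_lit 172067) (nat_lit 3) .nil))) .nil))) (.nd (nat_lit 6) 
(.lf (nat_lit 41531) (.g (nat_lit 3341) (.e (nat_lit 1237) (nat_lit 91) (.e (nat_lit 90170) (nat_lit 13) (.e (nat_lit 172045) (nat_lit 0) (.e (nat_lit 3307) (nat_lit 202) (.e (nat_lit 573489) (nat_lit 14) .nil))))) .nil)) 
(.lf (nat_lit 41595) (.g (nat_lit 3382) (.e (nat_lit 1237) (nat_lit 91) (.e (nat_lit 90170) (nat_lit 13) (.e (nat_lit 172067) (nat_lit 3) (.e (nat_lit 204838) (nat_lit 20) (.e (nat_lit 114716) (nat_lit 22) (.e (nat_lit 90181) (nat_lit 16) (.e (nat_lit 229449) (nat_lit 41) (.e (nat_lit 663560) (nat_lit 0) .nil)))))))) (.g (nat_lit 4) .nil .nil))))))) 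
(.nd (nat_lit 3) (.nd (nat_lit 4) (.nd (nat_lit 5) (.nd (nat_lit 6) 
(.lf (nat_lit 41479) (.g (nat_lit 2634) (.e (nat_lit 1235) (nat_lit 91) (.e (nat_lit 90185) (nat_lit 17) (.e (nat_lit 237605) (nat_lit 9) (.e (nat_lit 426402) (nat_lit 15) (.e (nat_lit 1849) (nat_lit 124) (.e (nat_lit 557104) (nat_lit 14) (.e (nat_lit 180277) (nat_lit 32) .nil))))))) (.g (nat_lit 7) .nil .nil))) 
(.lf (nat_lit 41543) (.g (nat_lit 3302) (.e (nat_lit 1237) (nat_lit 91) (.e (nat_lit 90170) (nat_lit 13) (.e (nat_lit 172065) (nat_lit 3) (.e (nat_lit 204829) (nat_lit 18) (.e (nat_lit 57692) (nat_lit 156) (.e (nat_lit 163875) (nat_lit 3) (.e (nat_lit 204834) (nat_lit 19) (.e (nat_lit 106517) (nat_lit 9) .nil)))))))) (.g (nat_lit 4) .nil .nil)))) (.nd (nat_lit 6) 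
(.lf (nat_lit 41511) (.g (nat_lit 1969) (.e (nat_lit 1236) (nat_lit 91) (.e (nat_lit 90174) (nat_lit 14) (.e (nat_lit 180251) (nat_lit 10) (.e (nat_lit 573489) (nat_lit 14) (.e (nat_lit 73755) (nat_lit 8) .nil))))) .nil)) 
(.lf (nat_lit 41575) (.g (nat_lit 2886) (.e (nat_lit 1237) (nat_lit 91) (.e (nat_lit 90170) (nat_lit 13) (.e (nat_lit 172067) (nat_lit 3) (.e (nat_lit 204831) (nat_lit 18) .nil)))) .nil)))) (.nd (nat_lit 5) (.nd (nat_lit 6) 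
(.lf (nat_lit 41495) (.g (nat_lit 2309) (.e (nat_lit 1235) (nat_lit 91) (.e (nat_lit 90185) (nat_lit 17) (.e (nat_lit 237618) (nat_lit 12) (.e (nat_lit 475185) (nat_lit 29) (.e (nat_lit 557105) (nat_lit 14) (.e (nat_lit 180277) (nat_lit 32) .nil)))))) (.g (nat_lit 4) .nil .nil))) 
(.lf (nat_lit 41559) (.g (nat_lit 2902) (.e (nat_lit 1237) (nat_lit 91) (.e (nat_lit 90170) (nat_lit 13) (.e (nat_lit 172065) (nat_lit 3) (.e (nat_lit 204838) (nat_lit 20) (.e (nat_lit 114719) (nat_lit 23) .nil))))) .nil))) (.nd (nat_lit 6) 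
(.lf (nat_lit 41527) (.g (nat_lit 893) (.e (nat_lit 1237) (nat_lit 91) (.e (nat_lit 90160) (nat_lit 11) (.e (nat_lit 24643) (nat_lit 11) .nil))) .nil)) 
(.lf (nat_lit 41591) (.g (nat_lit 3310) (.e (nat_lit 1237) (nat_lit 91) (.e (nat_lit 90170) (nat_lit 13) (.e (nat_lit 172067) (nat_lit 3) (.e (nat_lit 204838) (nat_lit 20) (.e (nat_lit 114716) (nat_lit 22) (.e (nat_lit 90162) (nat_lit 12) (.e (nat_lit 164007) (nat_lit 41) (.e (nat_lit 663560) (nat_lit 0) .nil)))))))) (.g (nat_lit 4) .nil .nil)))))) 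
(.nd (nat_lit 4) (.nd (nat_lit 5) (.nd (nat_lit 6) 
(.lf (nat_lit 41487) (.g (nat_lit 636) (.e (nat_lit 1235) (nat_lit 91) (.e (nat_lit 90185) (nat_lit 17) (.e (nat_lit 237616) (nat_lit 12) (.e (nat_lit 475184) (nat_lit 29) .nil)))) .nil)) 
(.lf (nat_lit 41551) (.g (nat_lit 3374) (.e (nat_lit 1237) (nat_lit 91) (.e (nat_lit 90170) (nat_lit 13) (.e (nat_lit 172065) (nat_lit 3) (.e (nat_lit 204838) (nat_lit 20) (.e (nat_lit 114714) (nat_lit 22) (.e (nat_lit 90162) (nat_lit 12) (.e (nat_lit 164007) (nat_lit 41) (.e (nat_lit 663560) (nat_lit 0) .nil)))))))) (.g (nat_lit 4) .nil .nil)))) (.nd (nat_lit 6) 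
(.lf (nat_lit 41519) (.g (nat_lit 4556) (.e (nat_lit 1236) (nat_lit 91) (.e (nat_lit 90178) (nat_lit 15) (.e (nat_lit 188452) (nat_lit 23) (.e (nat_lit 204846) (nat_lit 24) (.e (nat_lit 319504) (nat_lit 10) .nil))))) .nil)) 
(.lf (nat_lit 41583) (.g (nat_lit 3038) (.e (nat_lit 1237) (nat_lit 91) (.e (nat_lit 90170) (nat_lit 13) (.e (nat_lit 172067) (nat_lit 3) (.e (nat_lit 204837) (nat_lit 20) (.e (nat_lit 114719) (nat_lit 23) .nil))))) .nil)))) (.nd (nat_lit 5) (.nd (nat_lit 6) 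
(.lf (nat_lit 41503) (.g (nat_lit 3499) (.e (nat_lit 1236) (nat_lit 91) (.e (nat_lit 90170) (nat_lit 13) (.e (nat_lit 172106) (nat_lit 10) (.e (nat_lit 434231) (nat_lit 23) (.e (nat_lit 532535) (nat_lit 9) (.e (nat_lit 335905) (nat_lit 0) (.e (nat_lit 7936) (nat_lit 132) (.e (nat_lit 622605) (nat_lit 5) .nil)))))))) (.g (nat_lit 5) .nil .nil))) 
(.lf (nat_lit 41567) (.g (nat_lit 3355) (.e (nat_lit 1237) (nat_lit 91) (.e (nat_lit 90170) (nat_lit 13) (.e (nat_lit 172067) (nat_lit 3) (.e (nat_lit 204829) (nat_lit 18) (.e (nat_lit 57686) (nat_lit 156) (.e (nat_lit 163875) (nat_lit 3) (.e (nat_lit 204834) (nat_lit 19) (.e (nat_lit 106517) (nat_lit 9) .nil)))))))) (.g (nat_lit 4) .nil .nil)))) (.nd (nat_lit 6) 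
(.lf (nat_lit 41535) (.g (nat_lit 2379) (.e (nat_lit 1237) (nat_lit 91) (.e (nat_lit 90170) (nat_lit 13) (.e (nat_lit 172064) (nat_lit 2) (.e (nat_lit 196661) (nat_lit 12) .nil)))) .nil)) 
(.lf (nat_lit 41599) (.g (nat_lit 3992) (.e (nat_lit 1237) (nat_lit 91) (.e (nat_lit 90170) (nat_lit 13) (.e (nat_lit 172067) (nat_lit 3) (.e (nat_lit 204838) (nat_lit 20) (.e (nat_lit 114718) (nat_lit 23) (.e (nat_lit 98334) (nat_lit 18) (.e (nat_lit 164379) (nat_lit 254) (.e (nat_lit 1028) (nat_lit 81) .nil)))))))) (.g (nat_lit 5) .nil .nil))))))))))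

noncomputable def tv578 : DT := (.nd (nat_lit 0) (.nd (nat_lit 1) (.nd (nat_lit 2) (.nd (nat_lit 3) (.nd (nat_lit 4) (.nd (nat_lit 5) 
(.lf (nat_lit 41600) (.g (nat_lit 4009) (.e (nat_lit 1237) (nat_lit 91) (.e (nat_lit 90170) (nat_lit 13) (.e (nat_lit 172067) (nat_lit 3) (.e (nat_lit 204838) (nat_lit 20) (.e (nat_lit 114718) (nat_lit 23) (.e (nat_lit 98334) (nat_lit 18) (.e (nat_lit 164380) (nat_lit 254) (.e (nat_lit 1027) (nat_lit 81) .nil)))))))) (.g (nat_lit 5) .nil .nil))) 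
(.lf (nat_lit 41632) (.g (nat_lit 3166) (.e (nat_lit 1237) (nat_lit 91) (.e (nat_lit 90170) (nat_lit 13) (.e (nat_lit 172106) (nat_lit 10) (.e (nat_lit 434209) (nat_lit 18) .nil)))) .nil))) (.nd (nat_lit 5) 
(.lf (nat_lit 41616) (.g (nat_lit 2369) (.e (nat_lit 1237) (nat_lit 91) (.e (nat_lit 90170) (nat_lit 13) (.e (nat_lit 172092) (nat_lit 9) (.e (nat_lit 433920) (nat_lit 34) .nil)))) .nil)) 
(.lf (nat_lit 41648) (.g (nat_lit 2710) (.e (nat_lit 1237) (nat_lit 91) (.e (nat_lit 90170) (nat_lit 13) (.e (nat_lit 172106) (nat_lit 10) (.e (nat_lit 434231) (nat_lit 23) (.e (nat_lit 532490) (nat_lit 0) .nil))))) .nil)))) (.nd (nat_lit 4) (.nd (nat_lit 5) 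
(.lf (nat_lit 41608) (.g (nat_lit 2532) (.e (nat_lit 1237) (nat_lit 91) (.e (nat_lit 90170) (nat_lit 13) (.e (nat_lit 172067) (nat_lit 3) (.e (nat_lit 204842) (nat_lit 22) .nil)))) .nil)) 
(.lf (nat_lit 41640) (.g (nat_lit 3521) (.e (nat_lit 1237) (nat_lit 91) (.e (nat_lit 90170) (nat_lit 13) (.e (nat_lit 172106) (nat_lit 10) (.e (nat_lit 434227) (nat_lit 20) (.e (nat_lit 507930) (nat_lit 10) (.e (nat_lit 5758) (nat_lit 315) (.e (nat_lit 171776) (nat_lit 187) .nil))))))) (.g (nat_lit 4) .nil .nil)))) (.nd (nat_lit 5) 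
(.lf (nat_lit 41624) (.g (nat_lit 2402) (.e (nat_lit 1237) (nat_lit 91) (.e (nat_lit 90170) (nat_lit 13) (.e (nat_lit 172106) (nat_lit 10) (.e (nat_lit 434202) (nat_lit 18) (.e (nat_lit 6416) (nat_lit 341) (.e (nat_lit 163886) (nat_lit 5) (.e (nat_lit 221218) (nat_lit 24) (.e (nat_lit 220928) (nat_lit 0) .nil)))))))) (.g (nat_lit 5) .nil .nil))) 
(.lf (nat_lit 41656) (.g (nat_lit 2970) (.e (nat_lit 1237) (nat_lit 91) (.e (nat_lit 90170) (nat_lit 13) (.e (nat_lit 172106) (nat_lit 10) (.e (nat_lit 434231) (nat_lit 23) (.e (nat_lit 532523) (nat_lit 7) .nil))))) .nil))))) (.nd (nat_lit 3) (.nd (nat_lit 4) (.nd (nat_lit 5) 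
(.lf (nat_lit 41604) (.g (nat_lit 3820) (.e (nat_lit 1237) (nat_lit 91) (.e (nat_lit 90170) (nat_lit 13) (.e (nat_lit 172067) (nat_lit 3) (.e (nat_lit 204838) (nat_lit 20) (.e (nat_lit 114719) (nat_lit 23) (.e (nat_lit 98334) (nat_lit 18) (.e (nat_lit 164379) (nat_lit 254) (.e (nat_lit 1028) (nat_lit 81) .nil)))))))) (.g (nat_lit 5) .nil .nil))) 
(.lf (nat_lit 41636) (.g (nat_lit 3439) (.e (nat_lit 1237) (nat_lit 91) (.e (nat_lit 90170) (nat_lit 13) (.e (nat_lit 172106) (nat_lit 10) (.e (nat_lit 434227) (nat_lit 20) (.e (nat_lit 507929) (nat_lit 10) .nil))))) .nil))) (.nd (nat_lit 5) 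
(.lf (nat_lit 41620) (.g (nat_lit 3232) (.e (nat_lit 1237) (nat_lit 91) (.e (nat_lit 90170) (nat_lit 13) (.e (nat_lit 172106) (nat_lit 10) (.e (nat_lit 434201) (nat_lit 18) .nil)))) .nil)) 
(.lf (nat_lit 41652) (.g (nat_lit 3490) (.e (nat_lit 1237) (nat_lit 91) (.e (nat_lit 90170) (nat_lit 13) (.e (nat_lit 172106) (nat_lit 10) (.e (nat_lit 434231) (nat_lit 23) (.e (nat_lit 532522) (nat_lit 7) (.e (nat_lit 319500) (nat_lit 10) (.e (nat_lit 7936) (nat_lit 298) .nil))))))) (.g (nat_lit 5) .nil .nil))))) (.nd (nat_lit 4) (.nd (nat_lit 5) 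
(.lf (nat_lit 41612) (.g (nat_lit 1885) (.e (nat_lit 1237) (nat_lit 91) (.e (nat_lit 90170) (nat_lit 13) (.e (nat_lit 172088) (nat_lit 9) (.e (nat_lit 426132) (nat_lit 3) .nil)))) .nil)) 
(.lf (nat_lit 41644) (.g (nat_lit 2020) (.e (nat_lit 1237) (nat_lit 91) (.e (nat_lit 90170) (nat_lit 13) (.e (nat_lit 172106) (nat_lit 10) (.e (nat_lit 434231) (nat_lit 23) .nil)))) .nil))) (.nd (nat_lit 5) 
(.lf (nat_lit 41628) (.g (nat_lit 3053) (.e (nat_lit 1237) (nat_lit 91) (.e (nat_lit 90170) (nat_lit 13) (.e (nat_lit 172106) (nat_lit 10) (.e (nat_lit 434202) (nat_lit 18) (.e (nat_lit 6420) (nat_lit 341) (.e (nat_lit 163885) (nat_lit 5) (.e (nat_lit 221219) (nat_lit 24) (.e (nat_lit 220928) (nat_lit 0) .nil)))))))) (.g (nat_lit 6) .nil .nil))) 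
(.lf (nat_lit 41660) (.g (nat_lit 3096) (.e (nat_lit 1237) (nat_lit 91) (.e (nat_lit 90170) (nat_lit 13) (.e (nat_lit 172106) (nat_lit 10) (.e (nat_lit 434231) (nat_lit 23) (.e (nat_lit 532526) (nat_lit 8) .nil))))) .nil)))))) (.nd (nat_lit 2) (.nd (nat_lit 3) (.nd (nat_lit 4) (.nd (nat_lit 5) 
(.lf (nat_lit 41602) (.g (nat_lit 3065) (.e (nat_lit 1237) (nat_lit 91) (.e (nat_lit 90170) (nat_lit 13) (.e (nat_lit 172067) (nat_lit 3) (.e (nat_lit 204838) (nat_lit 20) (.e (nat_lit 114719) (nat_lit 23) (.e (nat_lit 98333) (nat_lit 18) (.e (nat_lit 164381) (nat_lit 254) (.e (nat_lit 1028) (nat_lit 81) .nil)))))))) (.g (nat_lit 4) .nil .nil))) 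
(.lf (nat_lit 41634) (.g (nat_lit 3050) (.e (nat_lit 1237) (nat_lit 91) (.e (nat_lit 90170) (nat_lit 13) (.e (nat_lit 172106) (nat_lit 10) (.e (nat_lit 434227) (nat_lit 20) .nil)))) .nil))) (.nd (nat_lit 5) 
(.lf (nat_lit 41618) (.g (nat_lit 2621) (.e (nat_lit 1237) (nat_lit 91) (.e (nat_lit 90170) (nat_lit 13) (.e (nat_lit 172095) (nat_lit 9) (.e (nat_lit 433920) (nat_lit 34) .nil)))) .nil)) 
(.lf (nat_lit 41650) (.g (nat_lit 3894) (.e (nat_lit 1237) (nat_lit 91) (.e (nat_lit 90170) (nat_lit 13) (.e (nat_lit 172106) (nat_lit 10) (.e (nat_lit 434231) (nat_lit 23) (.e (nat_lit 532490) (nat_lit 0) (.e (nat_lit 6136) (nat_lit 332) (.e (nat_lit 988) (nat_lit 81) (.e (nat_lit 5346) (nat_lit 298) .nil)))))))) (.g (nat_lit 5) .nil .nil))))) (.nd (nat_lit 4) (.nd (nat_lit 5) 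
(.lf (nat_lit 41610) (.g (nat_lit 2108) (.e (nat_lit 1237) (nat_lit 91) (.e (nat_lit 90170) (nat_lit 13) (.e (nat_lit 172079) (nat_lit 7) (.e (nat_lit 409631) (nat_lit 12) .nil)))) .nil)) 
(.lf (nat_lit 41642) (.g (nat_lit 4104) (.e (nat_lit 1237) (nat_lit 91) (.e (nat_lit 90170) (nat_lit 13) (.e (nat_lit 172106) (nat_lit 10) (.e (nat_lit 434227) (nat_lit 20) (.e (nat_lit 507930) (nat_lit 10) (.e (nat_lit 5763) (nat_lit 315) (.e (nat_lit 171776) (nat_lit 187) .nil))))))) (.g (nat_lit 6) .nil .nil)))) (.nd (nat_lit 5) 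
(.lf (nat_lit 41626) (.g (nat_lit 2426) (.e (nat_lit 1237) (nat_lit 91) (.e (nat_lit 90170) (nat_lit 13) (.e (nat_lit 172106) (nat_lit 10) (.e (nat_lit 434202) (nat_lit 18) (.e (nat_lit 6420) (nat_lit 341) (.e (nat_lit 163843) (nat_lit 0) (.e (nat_lit 3771) (nat_lit 229) (.e (nat_lit 794680) (nat_lit 24) (.e (nat_lit 220928) (nat_lit 0) .nil))))))))) (.g (nat_lit 5) .nil .nil))) 
(.lf (nat_lit 41658) (.g (nat_lit 5626) (.e (nat_lit 1237) (nat_lit 91) (.e (nat_lit 90170) (nat_lit 13) (.e (nat_lit 172106) (nat_lit 10) (.e (nat_lit 434231) (nat_lit 23) (.e (nat_lit 532523) (nat_lit 7) (.e (nat_lit 319504) (nat_lit 10) (.e (nat_lit 7936) (nat_lit 298) .nil))))))) (.g (nat_lit 6) .nil .nil)))))) (.nd (nat_lit 3) (.nd (nat_lit 4) (.nd (nat_lit 5) 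
(.lf (nat_lit 41606) (.g (nat_lit 3906) (.e (nat_lit 1237) (nat_lit 91) (.e (nat_lit 90170) (nat_lit 13) (.e (nat_lit 172067) (nat_lit 3) (.e (nat_lit 204838) (nat_lit 20) (.e (nat_lit 114719) (nat_lit 23) (.e (nat_lit 98334) (nat_lit 18) (.e (nat_lit 164380) (nat_lit 254) (.e (nat_lit 1028) (nat_lit 81) .nil)))))))) (.g (nat_lit 5) .nil .nil))) 
(.lf (nat_lit 41638) (.g (nat_lit 4113) (.e (nat_lit 1237) (nat_lit 91) (.e (nat_lit 90170) (nat_lit 13) (.e (nat_lit 172106) (nat_lit 10) (.e (nat_lit 434227) (nat_lit 20) (.e (nat_lit 507929) (nat_lit 10) (.e (nat_lit 5763) (nat_lit 315) (.e (nat_lit 171776) (nat_lit 187) .nil))))))) (.g (nat_lit 6) .nil .nil)))) (.nd (nat_lit 5) 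
(.lf (nat_lit 41622) (.g (nat_lit 2537) (.e (nat_lit 1237) (nat_lit 91) (.e (nat_lit 90170) (nat_lit 13) (.e (nat_lit 172106) (nat_lit 10) (.e (nat_lit 434202) (nat_lit 18) (.e (nat_lit 6416) (nat_lit 341) (.e (nat_lit 163885) (nat_lit 5) (.e (nat_lit 221218) (nat_lit 24) (.e (nat_lit 220928) (nat_lit 0) .nil)))))))) (.g (nat_lit 5) .nil .nil))) 
(.lf (nat_lit 41654) (.g (nat_lit 4628) (.e (nat_lit 1237) (nat_lit 91) (.e (nat_lit 90170) (nat_lit 13) (.e (nat_lit 172106) (nat_lit 10) (.e (nat_lit 434231) (nat_lit 23) (.e (nat_lit 532522) (nat_lit 7) (.e (nat_lit 319504) (nat_lit 10) (.e (nat_lit 7936) (nat_lit 298) .nil))))))) (.g (nat_lit 6) .nil .nil))))) (.nd (nat_lit 4) (.nd (nat_lit 5) 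
(.lf (nat_lit 41614) (.g (nat_lit 1885) (.e (nat_lit 1237) (nat_lit 91) (.e (nat_lit 90170) (nat_lit 13) (.e (nat_lit 172088) (nat_lit 9) (.e (nat_lit 433920) (nat_lit 34) .nil)))) .nil)) 
(.lf (nat_lit 41646) (.g (nat_lit 3338) (.e (nat_lit 1237) (nat_lit 91) (.e (nat_lit 90170) (nat_lit 13) (.e (nat_lit 172106) (nat_lit 10) (.e (nat_lit 434231) (nat_lit 23) (.e (nat_lit 532482) (nat_lit 0) .nil))))) .nil))) (.nd (nat_lit 5) 
(.lf (nat_lit 41630) (.g (nat_lit 3224) (.e (nat_lit 1237) (nat_lit 91) (.e (nat_lit 90170) (nat_lit 13) (.e (nat_lit 172106) (nat_lit 10) (.e (nat_lit 434207) (nat_lit 18) .nil)))) .nil)) 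
(.lf (nat_lit 41662) (.g (nat_lit 3152) (.e (nat_lit 1237) (nat_lit 91) (.e (nat_lit 90170) (nat_lit 13) (.e (nat_lit 172106) (nat_lit 10) (.e (nat_lit 434231) (nat_lit 23) (.e (nat_lit 532526) (nat_lit 8) (.e (nat_lit 327702) (nat_lit 10) (.e (nat_lit 7936) (nat_lit 298) .nil))))))) (.g (nat_lit 4) .nil .nil)))))))) 
(.nd (nat_lit 1) (.nd (nat_lit 2) (.nd (nat_lit 3) (.nd (nat_lit 4) (.nd (nat_lit 5) 
(.lf (nat_lit 41601) (.g (nat_lit 3051) (.e (nat_lit 1237) (nat_lit 91) (.e (nat_lit 90170) (nat_lit 13) (.e (nat_lit 172067) (nat_lit 3) (.e (nat_lit 204838) (nat_lit 20) (.e (nat_lit 114719) (nat_lit 23) .nil))))) .nil)) 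
(.lf (nat_lit 41633) (.g (nat_lit 2984) (.e (nat_lit 1237) (nat_lit 91) (.e (nat_lit 90170) (nat_lit 13) (.e (nat_lit 172106) (nat_lit 10) (.e (nat_lit 434219) (nat_lit 19) .nil)))) .nil))) (.nd (nat_lit 5) 
(.lf (nat_lit 41617) (.g (nat_lit 826) (.e (nat_lit 1237) (nat_lit 91) (.e (nat_lit 90170) (nat_lit 13) (.e (nat_lit 172095) (nat_lit 9) .nil))) .nil)) 
(.lf (nat_lit 41649) (.g (nat_lit 4400) (.e (nat_lit 1237) (nat_lit 91) (.e (nat_lit 90170) (nat_lit 13) (.e (nat_lit 172106) (nat_lit 10) (.e (nat_lit 434231) (nat_lit 23) (.e (nat_lit 532490) (nat_lit 0) (.e (nat_lit 6114) (nat_lit 332) (.e (nat_lit 973) (nat_lit 81) (.e (nat_lit 5345) (nat_lit 298) .nil)))))))) (.g (nat_lit 6) .nil .nil))))) (.nd (nat_lit 4) (.nd (nat_lit 5) 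
(.lf (nat_lit 41609) (.g (nat_lit 385) (.e (nat_lit 1237) (nat_lit 91) (.e (nat_lit 90170) (nat_lit 13) (.e (nat_lit 172079) (nat_lit 7) .nil))) .nil)) 
(.lf (nat_lit 41641) (.g (nat_lit 3547) (.e (nat_lit 1237) (nat_lit 91) (.e (nat_lit 90170) (nat_lit 13) (.e (nat_lit 172106) (nat_lit 10) (.e (nat_lit 434227) (nat_lit 20) (.e (nat_lit 507930) (nat_lit 10) (.e (nat_lit 5762) (nat_lit 315) (.e (nat_lit 171776) (nat_lit 187) .nil))))))) (.g (nat_lit 4) .nil .nil)))) (.nd (nat_lit 5) 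
(.lf (nat_lit 41625) (.g (nat_lit 2090) (.e (nat_lit 1237) (nat_lit 91) (.e (nat_lit 90170) (nat_lit 13) (.e (nat_lit 172106) (nat_lit 10) (.e (nat_lit 434202) (nat_lit 18) (.e (nat_lit 6420) (nat_lit 341) .nil))))) .nil)) 
(.lf (nat_lit 41657) (.g (nat_lit 3190) (.e (nat_lit 1237) (nat_lit 91) (.e (nat_lit 90170) (nat_lit 13) (.e (nat_lit 172106) (nat_lit 10) (.e (nat_lit 434231) (nat_lit 23) (.e (nat_lit 532523) (nat_lit 7) (.e (nat_lit 319498) (nat_lit 10) (.e (nat_lit 5346) (nat_lit 298) .nil))))))) (.g (nat_lit 4) .nil .nil)))))) (.nd (nat_lit 3) (.nd (nat_lit 4) (.nd (nat_lit 5) 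
(.lf (nat_lit 41605) (.g (nat_lit 3660) (.e (nat_lit 1237) (nat_lit 91) (.e (nat_lit 90170) (nat_lit 13) (.e (nat_lit 172067) (nat_lit 3) (.e (nat_lit 204838) (nat_lit 20) (.e (nat_lit 114719) (nat_lit 23) (.e (nat_lit 98334) (nat_lit 18) (.e (nat_lit 164380) (nat_lit 254) (.e (nat_lit 1027) (nat_lit 81) .nil)))))))) (.g (nat_lit 5) .nil .nil))) 
(.lf (nat_lit 41637) (.g (nat_lit 3444) (.e (nat_lit 1237) (nat_lit 91) (.e (nat_lit 90170) (nat_lit 13) (.e (nat_lit 172106) (nat_lit 10) (.e (nat_lit 434227) (nat_lit 20) (.e (nat_lit 507929) (nat_lit 10) (.e (nat_lit 5758) (nat_lit 315) (.e (nat_lit 171776) (nat_lit 187) .nil))))))) (.g (nat_lit 4) .nil .nil)))) (.nd (nat_lit 5) 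
(.lf (nat_lit 41621) (.g (nat_lit 2066) (.e (nat_lit 1237) (nat_lit 91) (.e (nat_lit 90170) (nat_lit 13) (.e (nat_lit 172106) (nat_lit 10) (.e (nat_lit 434202) (nat_lit 18) (.e (nat_lit 6416) (nat_lit 341) .nil))))) .nil)) 
(.lf (nat_lit 41653) (.g (nat_lit 2850) (.e (nat_lit 1237) (nat_lit 91) (.e (nat_lit 90170) (nat_lit 13) (.e (nat_lit 172106) (nat_lit 10) (.e (nat_lit 434231) (nat_lit 23) (.e (nat_lit 532522) (nat_lit 7) (.e (nat_lit 319502) (nat_lit 10) (.e (nat_lit 7936) (nat_lit 298) .nil))))))) (.g (nat_lit 4) .nil .nil))))) (.nd (nat_lit 4) (.nd (nat_lit 5) 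
(.lf (nat_lit 41613) (.g (nat_lit 1866) (.e (nat_lit 1237) (nat_lit 91) (.e (nat_lit 90170) (nat_lit 13) (.e (nat_lit 172088) (nat_lit 9) (.e (nat_lit 426135) (nat_lit 3) .nil)))) .nil)) 
(.lf (nat_lit 41645) (.g (nat_lit 3930) (.e (nat_lit 1237) (nat_lit 91) (.e (nat_lit 90170) (nat_lit 13) (.e (nat_lit 172106) (nat_lit 10) (.e (nat_lit 434231) (nat_lit 23) (.e (nat_lit 532481) (nat_lit 0) .nil))))) .nil))) (.nd (nat_lit 5) 
(.lf (nat_lit 41629) (.g (nat_lit 3174) (.e (nat_lit 1237) (nat_lit 91) (.e (nat_lit 90170) (nat_lit 13) (.e (nat_lit 172106) (nat_lit 10) (.e (nat_lit 434206) (nat_lit 18) .nil)))) .nil)) 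
(.lf (nat_lit 41661) (.g (nat_lit 3853) (.e (nat_lit 1237) (nat_lit 91) (.e (nat_lit 90170) (nat_lit 13) (.e (nat_lit 172106) (nat_lit 10) (.e (nat_lit 434231) (nat_lit 23) (.e (nat_lit 532526) (nat_lit 8) (.e (nat_lit 327702) (nat_lit 10) (.e (nat_lit 5346) (nat_lit 298) .nil))))))) (.g (nat_lit 5) .nil .nil))))))) (.nd (nat_lit 2) (.nd (nat_lit 3) (.nd (nat_lit 4) (.nd (nat_lit 5) 
(.lf (nat_lit 41603) (.g (nat_lit 3407) (.e (nat_lit 1237) (nat_lit 91) (.e (nat_lit 90170) (nat_lit 13) (.e (nat_lit 172067) (nat_lit 3) (.e (nat_lit 204838) (nat_lit 20) (.e (nat_lit 114719) (nat_lit 23) (.e (nat_lit 98334) (nat_lit 18) (.e (nat_lit 164379) (nat_lit 254) (.e (nat_lit 1027) (nat_lit 81) .nil)))))))) (.g (nat_lit 4) .nil .nil))) 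
(.lf (nat_lit 41635) (.g (nat_lit 3573) (.e (nat_lit 1237) (nat_lit 91) (.e (nat_lit 90170) (nat_lit 13) (.e (nat_lit 172106) (nat_lit 10) (.e (nat_lit 434227) (nat_lit 20) (.e (nat_lit 507928) (nat_lit 10) .nil))))) .nil))) (.nd (nat_lit 5) 
(.lf (nat_lit 41619) (.g (nat_lit 424) (.e (nat_lit 1237) (nat_lit 91) (.e (nat_lit 90170) (nat_lit 13) (.e (nat_lit 172106) (nat_lit 10) .nil))) .nil)) 
(.lf (nat_lit 41651) (.g (nat_lit 3834) (.e (nat_lit 1237) (nat_lit 91) (.e (nat_lit 90170) (nat_lit 13) (.e (nat_lit 172106) (nat_lit 10) (.e (nat_lit 434231) (nat_lit 23) (.e (nat_lit 532490) (nat_lit 0) (.e (nat_lit 6136) (nat_lit 332) (.e (nat_lit 989) (nat_lit 81) (.e (nat_lit 5346) (nat_lit 298) .nil)))))))) (.g (nat_lit 5) .nil .nil))))) (.nd (nat_lit 4) (.nd (nat_lit 5) 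
(.lf (nat_lit 41611) (.g (nat_lit 2354) (.e (nat_lit 1237) (nat_lit 91) (.e (nat_lit 90170) (nat_lit 13) (.e (nat_lit 172085) (nat_lit 9) (.e (nat_lit 426566) (nat_lit 34) .nil)))) .nil)) 
(.lf (nat_lit 41643) (.g (nat_lit 3008) (.e (nat_lit 1237) (nat_lit 91) (.e (nat_lit 90170) (nat_lit 13) (.e (nat_lit 172106) (nat_lit 10) (.e (nat_lit 434230) (nat_lit 23) .nil)))) .nil))) (.nd (nat_lit 5) 
(.lf (nat_lit 41627) (.g (nat_lit 2185) (.e (nat_lit 1237) (nat_lit 91) (.e (nat_lit 90170) (nat_lit 13) (.e (nat_lit 172106) (nat_lit 10) (.e (nat_lit 434202) (nat_lit 18) (.e (nat_lit 6420) (nat_lit 341) (.e (nat_lit 163884) (nat_lit 5) (.e (nat_lit 221217) (nat_lit 24) (.e (nat_lit 220928) (nat_lit 0) .nil)))))))) (.g (nat_lit 4) .nil .nil))) 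
(.lf (nat_lit 41659) (.g (nat_lit 3364) (.e (nat_lit 1237) (nat_lit 91) (.e (nat_lit 90170) (nat_lit 13) (.e (nat_lit 172106) (nat_lit 10) (.e (nat_lit 434231) (nat_lit 23) (.e (nat_lit 532525) (nat_lit 8) .nil))))) .nil))))) (.nd (nat_lit 3) (.nd (nat_lit 4) (.nd (nat_lit 5) 
(.lf (nat_lit 41607) (.g (nat_lit 3199) (.e (nat_lit 1237) (nat_lit 91) (.e (nat_lit 90170) (nat_lit 13) (.e (nat_lit 172067) (nat_lit 3) (.e (nat_lit 204838) (nat_lit 20) (.e (nat_lit 114719) (nat_lit 23) (.e (nat_lit 98334) (nat_lit 18) (.e (nat_lit 164382) (nat_lit 254) (.e (nat_lit 1028) (nat_lit 81) .nil)))))))) (.g (nat_lit 4) .nil .nil))) 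
(.lf (nat_lit 41639) (.g (nat_lit 3718) (.e (nat_lit 1237) (nat_lit 91) (.e (nat_lit 90170) (nat_lit 13) (.e (nat_lit 172106) (nat_lit 10) (.e (nat_lit 434227) (nat_lit 20) (.e (nat_lit 507930) (nat_lit 10) (.e (nat_lit 5756) (nat_lit 315) (.e (nat_lit 171776) (nat_lit 187) .nil))))))) (.g (nat_lit 4) .nil .nil)))) (.nd (nat_lit 5) 
(.lf (nat_lit 41623) (.g (nat_lit 2940) (.e (nat_lit 1237) (nat_lit 91) (.e (nat_lit 90170) (nat_lit 13) (.e (nat_lit 172106) (nat_lit 10) (.e (nat_lit 434202) (nat_lit 18) (.e (nat_lit 6416) (nat_lit 341) (.e (nat_lit 163885) (nat_lit 5) (.e (nat_lit 221219) (nat_lit 24) (.e (nat_lit 220928) (nat_lit 0) .nil)))))))) (.g (nat_lit 6) .nil .nil))) 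
(.lf (nat_lit 41655) (.g (nat_lit 4156) (.e (nat_lit 1237) (nat_lit 91) (.e (nat_lit 90170) (nat_lit 13) (.e (nat_lit 172106) (nat_lit 10) (.e (nat_lit 434231) (nat_lit 23) (.e (nat_lit 532522) (nat_lit 7) (.e (nat_lit 319505) (nat_lit 10) (.e (nat_lit 7936) (nat_lit 298) .nil))))))) (.g (nat_lit 6) .nil .nil))))) (.nd (nat_lit 4) (.nd (nat_lit 5) 
(.lf (nat_lit 41615) (.g (nat_lit 867) (.e (nat_lit 1237) (nat_lit 91) (.e (nat_lit 90170) (nat_lit 13) (.e (nat_lit 172092) (nat_lit 9) .nil))) .nil)) 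
(.lf (nat_lit 41647) (.g (nat_lit 2995) (.e (nat_lit 1237) (nat_lit 91) (.e (nat_lit 90170) (nat_lit 13) (.e (nat_lit 172106) (nat_lit 10) (.e (nat_lit 434231) (nat_lit 23) (.e (nat_lit 532486) (nat_lit 0) (.e (nat_lit 6218) (nat_lit 333) (.e (nat_lit 65280) (nat_lit 270) .nil))))))) (.g (nat_lit 4) .nil .nil)))) (.nd (nat_lit 5) 
(.lf (nat_lit 41631) (.g (nat_lit 3174) (.e (nat_lit 1237) (nat_lit 91) (.e (nat_lit 90170) (nat_lit 13) (.e (nat_lit 172106) (nat_lit 10) (.e (nat_lit 434208) (nat_lit 18) .nil)))) .nil)) 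
(.lf (nat_lit 41663) (.g (nat_lit 3332) (.e (nat_lit 1237) (nat_lit 91) (.e (nat_lit 90170) (nat_lit 13) (.e (nat_lit 172106) (nat_lit 10) (.e (nat_lit 434231) (nat_lit 23) (.e (nat_lit 532526) (nat_lit 8) (.e (nat_lit 327705) (nat_lit 10) (.e (nat_lit 7936) (nat_lit 298) .nil))))))) (.g (nat_lit 4) .nil .nil)))))))))


end

end Pool.Agent.Lib.MP_5854e1_co.Cz
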