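import Pool.Agent.Lib.MP_5854e1_co.DtD

/-!
# Windows and cells of the rings
-/

set_option autoImplicit false
set_option maxRecDepth 100000
set_option deprecated.oldSectionVars true

namespace Pool.Agent.Lib.MP_5854e1_co.Cz

open Pool.Agent.Lib.MP_5854e1_co

noncomputable section

noncomputable def tv579 : DT := (.nd (nat_lit 0) (.nd (nat_lit 1) (.nd (nat_lit 2) (.nd (nat_lit 3) (.nd (nat_lit 4) (.nd (nat_lit 5) 
(.lf (nat_lit 41664) (.g (nat_lit 2844) (.e (nat_lit 1237) (nat_lit 91) (.e (nat_lit 90170) (nat_lit 13) (.e (nat_lit 172106) (nat_lit 10) (.e (nat_lit 434231) (nat_lit 23) (.e (nat_lit 532527) (nat_lit 9) .nil))))) .nil)) 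
(.lf (nat_lit 41696) (.g (nat_lit 3506) (.e (nat_lit 1237) (nat_lit 91) (.e (nat_lit 90170) (nat_lit 13) (.e (nat_lit 172106) (nat_lit 10) (.e (nat_lit 434231) (nat_lit 23) (.e (nat_lit 532535) (nat_lit 9) (.e (nat_lit 335908) (nat_lit 0) (.e (nat_lit 1934) (nat_lit 132) (.e (nat_lit 630528) (nat_lit 5) .nil)))))))) (.g (nat_lit 6) .nil .nil)))) (.nd (nat_lit 5) 
(.lf (nat_lit 41680) (.g (nat_lit 5106) (.e (nat_lit 1237) (nat_lit 91) (.e (nat_lit 90170) (nat_lit 13) (.e (nat_lit 172106) (nat_lit 10) (.e (nat_lit 434231) (nat_lit 23) (.e (nat_lit 532535) (nat_lit 9) (.e (nat_lit 335903) (nat_lit 0) (.e (nat_lit 1937) (nat_lit 132) (.e (nat_lit 630528) (nat_lit 5) .nil)))))))) (.g (nat_lit 5) .nil .nil))) 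
(.lf (nat_lit 41712) (.g (nat_lit 2761) (.e (nat_lit 1237) (nat_lit 91) (.e (nat_lit 90170) (nat_lit 13) (.e (nat_lit 172106) (nat_lit 10) (.e (nat_lit 434231) (nat_lit 23) (.e (nat_lit 532535) (nat_lit 9) (.e (nat_lit 335928) (nat_lit 0) (.e (nat_lit 1939) (nat_lit 132) (.e (nat_lit 630528) (nat_lit 5) .nil)))))))) (.g (nat_lit 5) .nil .nil))))) (.nd (nat_lit 4) (.nd (nat_lit 5) 
(.lf (nat_lit 41672) (.g (nat_lit 5273) (.e (nat_lit 1237) (nat_lit 91) (.e (nat_lit 90170) (nat_lit 13) (.e (nat_lit 172106) (nat_lit 10) (.e (nat_lit 434231) (nat_lit 23) (.e (nat_lit 532535) (nat_lit 9) (.e (nat_lit 335900) (nat_lit 0) (.e (nat_lit 1942) (nat_lit 132) (.e (nat_lit 630528) (nat_lit 5) .nil)))))))) (.g (nat_lit 5) .nil .nil))) 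
(.lf (nat_lit 41704) (.g (nat_lit 2696) (.e (nat_lit 1237) (nat_lit 91) (.e (nat_lit 90170) (nat_lit 13) (.e (nat_lit 172106) (nat_lit 10) (.e (nat_lit 434231) (nat_lit 23) (.e (nat_lit 532535) (nat_lit 9) (.e (nat_lit 335925) (nat_lit 0) (.e (nat_lit 991) (nat_lit 81) (.e (nat_lit 4801) (nat_lit 281) (.e (nat_lit 1040) (nat_lit 81) .nil))))))))) (.g (nat_lit 4) .nil .nil)))) (.nd (nat_lit 5) 
(.lf (nat_lit 41688) (.g (nat_lit 3659) (.e (nat_lit 1237) (nat_lit 91) (.e (nat_lit 90170) (nat_lit 13) (.e (nat_lit 172106) (nat_lit 10) (.e (nat_lit 434231) (nat_lit 23) (.e (nat_lit 532535) (nat_lit 9) (.e (nat_lit 335905) (nat_lit 0) (.e (nat_lit 973) (nat_lit 81) (.e (nat_lit 4751) (nat_lit 281) (.e (nat_lit 1028) (nat_lit 81) .nil))))))))) (.g (nat_lit 5) .nil .nil))) 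
(.lf (nat_lit 41720) (.g (nat_lit 3353) (.e (nat_lit 1237) (nat_lit 91) (.e (nat_lit 90170) (nat_lit 13) (.e (nat_lit 172106) (nat_lit 10) (.e (nat_lit 434231) (nat_lit 23) (.e (nat_lit 532535) (nat_lit 9) (.e (nat_lit 335992) (nat_lit 1) (.e (nat_lit 57779) (nat_lit 239) (.e (nat_lit 982) (nat_lit 81) .nil)))))))) (.g (nat_lit 5) .nil .nil)))))) (.nd (nat_lit 3) (.nd (nat_lit 4) (.nd (nat_lit 5) 
(.lf (nat_lit 41668) (.g (nat_lit 3172) (.e (nat_lit 1237) (nat_lit 91) (.e (nat_lit 90170) (nat_lit 13) (.e (nat_lit 172106) (nat_lit 10) (.e (nat_lit 434231) (nat_lit 23) (.e (nat_lit 532535) (nat_lit 9) (.e (nat_lit 335886) (nat_lit 0) (.e (nat_lit 1934) (nat_lit 132) (.e (nat_lit 630528) (nat_lit 5) .nil)))))))) (.g (nat_lit 5) .nil .nil))) 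
(.lf (nat_lit 41700) (.g (nat_lit 2668) (.e (nat_lit 1237) (nat_lit 91) (.e (nat_lit 90170) (nat_lit 13) (.e (nat_lit 172106) (nat_lit 10) (.e (nat_lit 434231) (nat_lit 23) (.e (nat_lit 532535) (nat_lit 9) (.e (nat_lit 335925) (nat_lit 0) (.e (nat_lit 989) (nat_lit 81) (.e (nat_lit 4801) (nat_lit 281) (.e (nat_lit 982) (nat_lit 81) .nil))))))))) (.g (nat_lit 4) .nil .nil)))) (.nd (nat_lit 5) 
(.lf (nat_lit 41684) (.g (nat_lit 2557) (.e (nat_lit 1237) (nat_lit 91) (.e (nat_lit 90170) (nat_lit 13) (.e (nat_lit 172106) (nat_lit 10) (.e (nat_lit 434231) (nat_lit 23) (.e (nat_lit 532535) (nat_lit 9) (.e (nat_lit 335905) (nat_lit 0) (.e (nat_lit 970) (nat_lit 81) (.e (nat_lit 4751) (nat_lit 281) (.e (nat_lit 1028) (nat_lit 81) .nil))))))))) (.g (nat_lit 4) .nil .nil))) 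
(.lf (nat_lit 41716) (.g (nat_lit 2443) (.e (nat_lit 1237) (nat_lit 91) (.e (nat_lit 90170) (nat_lit 13) (.e (nat_lit 172106) (nat_lit 10) (.e (nat_lit 434231) (nat_lit 23) (.e (nat_lit 532535) (nat_lit 9) (.e (nat_lit 343808) (nat_lit 0) (.e (nat_lit 1938) (nat_lit 132) (.e (nat_lit 630528) (nat_lit 5) .nil)))))))) (.g (nat_lit 4) .nil .nil))))) (.nd (nat_lit 4) (.nd (nat_lit 5) 
(.lf (nat_lit 41676) (.g (nat_lit 2457) (.e (nat_lit 1237) (nat_lit 91) (.e (nat_lit 90170) (nat_lit 13) (.e (nat_lit 172106) (nat_lit 10) (.e (nat_lit 434231) (nat_lit 23) (.e (nat_lit 532535) (nat_lit 9) (.e (nat_lit 335901) (nat_lit 0) (.e (nat_lit 971) (nat_lit 81) (.e (nat_lit 4751) (nat_lit 281) (.e (nat_lit 1028) (nat_lit 81) .nil))))))))) (.g (nat_lit 4) .nil .nil))) 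
(.lf (nat_lit 41708) (.g (nat_lit 4937) (.e (nat_lit 1237) (nat_lit 91) (.e (nat_lit 90170) (nat_lit 13) (.e (nat_lit 172106) (nat_lit 10) (.e (nat_lit 434231) (nat_lit 23) (.e (nat_lit 532535) (nat_lit 9) (.e (nat_lit 335927) (nat_lit 0) (.e (nat_lit 1936) (nat_lit 132) (.e (nat_lit 622605) (nat_lit 5) .nil)))))))) (.g (nat_lit 5) .nil .nil)))) (.nd (nat_lit 5) 
(.lf (nat_lit 41692) (.g (nat_lit 3584) (.e (nat_lit 1237) (nat_lit 91) (.e (nat_lit 90170) (nat_lit 13) (.e (nat_lit 172106) (nat_lit 10) (.e (nat_lit 434231) (nat_lit 23) (.e (nat_lit 532535) (nat_lit 9) (.e (nat_lit 335905) (nat_lit 0) (.e (nat_lit 7936) (nat_lit 132) (.e (nat_lit 622598) (nat_lit 5) .nil)))))))) (.g (nat_lit 5) .nil .nil))) 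
(.lf (nat_lit 41724) (.g (nat_lit 2550) (.e (nat_lit 1237) (nat_lit 91) (.e (nat_lit 90170) (nat_lit 13) (.e (nat_lit 172106) (nat_lit 10) (.e (nat_lit 434231) (nat_lit 23) (.e (nat_lit 532535) (nat_lit 9) (.e (nat_lit 336030) (nat_lit 4) (.e (nat_lit 123127) (nat_lit 239) (.e (nat_lit 982) (nat_lit 81) .nil)))))))) (.g (nat_lit 4) .nil .nil))))))) 
(.nd (nat_lit 2) (.nd (nat_lit 3) (.nd (nat_lit 4) (.nd (nat_lit 5) 
(.lf (nat_lit 41666) (.g (nat_lit 3329) (.e (nat_lit 1237) (nat_lit 91) (.e (nat_lit 90170) (nat_lit 13) (.e (nat_lit 172106) (nat_lit 10) (.e (nat_lit 434231) (nat_lit 23) (.e (nat_lit 532529) (nat_lit 9) (.e (nat_lit 336257) (nat_lit 15) (.e (nat_lit 2403) (nat_lit 157) (.e (nat_lit 6848) (nat_lit 371) (.e (nat_lit 1027) (nat_lit 81) .nil))))))))) (.g (nat_lit 4) .nil .nil))) 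
(.lf (nat_lit 41698) (.g (nat_lit 5131) (.e (nat_lit 1237) (nat_lit 91) (.e (nat_lit 90170) (nat_lit 13) (.e (nat_lit 172106) (nat_lit 10) (.e (nat_lit 434231) (nat_lit 23) (.e (nat_lit 532535) (nat_lit 9) (.e (nat_lit 335919) (nat_lit 0) (.e (nat_lit 1936) (nat_lit 132) (.e (nat_lit 622605) (nat_lit 5) .nil)))))))) (.g (nat_lit 5) .nil .nil)))) (.nd (nat_lit 5) 
(.lf (nat_lit 41682) (.g (nat_lit 5148) (.e (nat_lit 1237) (nat_lit 91) (.e (nat_lit 90170) (nat_lit 13) (.e (nat_lit 172106) (nat_lit 10) (.e (nat_lit 434231) (nat_lit 23) (.e (nat_lit 532535) (nat_lit 9) (.e (nat_lit 335904) (nat_lit 0) (.e (nat_lit 1937) (nat_lit 132) (.e (nat_lit 630528) (nat_lit 5) .nil)))))))) (.g (nat_lit 5) .nil .nil))) 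
(.lf (nat_lit 41714) (.g (nat_lit 2697) (.e (nat_lit 1237) (nat_lit 91) (.e (nat_lit 90170) (nat_lit 13) (.e (nat_lit 172106) (nat_lit 10) (.e (nat_lit 434231) (nat_lit 23) (.e (nat_lit 532535) (nat_lit 9) (.e (nat_lit 335928) (nat_lit 0) (.e (nat_lit 7936) (nat_lit 132) (.e (nat_lit 622605) (nat_lit 5) .nil)))))))) (.g (nat_lit 6) .nil .nil))))) (.nd (nat_lit 4) (.nd (nat_lit 5) 
(.lf (nat_lit 41674) (.g (nat_lit 2540) (.e (nat_lit 1237) (nat_lit 91) (.e (nat_lit 90170) (nat_lit 13) (.e (nat_lit 172106) (nat_lit 10) (.e (nat_lit 434231) (nat_lit 23) (.e (nat_lit 532535) (nat_lit 9) (.e (nat_lit 335901) (nat_lit 0) (.e (nat_lit 969) (nat_lit 81) (.e (nat_lit 4804) (nat_lit 281) (.e (nat_lit 982) (nat_lit 81) .nil))))))))) (.g (nat_lit 4) .nil .nil))) 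
(.lf (nat_lit 41706) (.g (nat_lit 3473) (.e (nat_lit 1237) (nat_lit 91) (.e (nat_lit 90170) (nat_lit 13) (.e (nat_lit 172106) (nat_lit 10) (.e (nat_lit 434231) (nat_lit 23) (.e (nat_lit 532535) (nat_lit 9) (.e (nat_lit 335925) (nat_lit 0) (.e (nat_lit 1940) (nat_lit 132) (.e (nat_lit 622605) (nat_lit 5) .nil)))))))) (.g (nat_lit 5) .nil .nil)))) (.nd (nat_lit 5) 
(.lf (nat_lit 41690) (.g (nat_lit 3574) (.e (nat_lit 1237) (nat_lit 91) (.e (nat_lit 90170) (nat_lit 13) (.e (nat_lit 172106) (nat_lit 10) (.e (nat_lit 434231) (nat_lit 23) (.e (nat_lit 532535) (nat_lit 9) (.e (nat_lit 335905) (nat_lit 0) (.e (nat_lit 973) (nat_lit 81) (.e (nat_lit 4805) (nat_lit 281) (.e (nat_lit 1039) (nat_lit 81) .nil))))))))) (.g (nat_lit 5) .nil .nil))) 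
(.lf (nat_lit 41722) (.g (nat_lit 3476) (.e (nat_lit 1237) (nat_lit 91) (.e (nat_lit 90170) (nat_lit 13) (.e (nat_lit 172106) (nat_lit 10) (.e (nat_lit 434231) (nat_lit 23) (.e (nat_lit 532535) (nat_lit 9) (.e (nat_lit 335992) (nat_lit 1) (.e (nat_lit 57780) (nat_lit 239) (.e (nat_lit 982) (nat_lit 81) .nil)))))))) (.g (nat_lit 5) .nil .nil)))))) (.nd (nat_lit 3) (.nd (nat_lit 4) (.nd (nat_lit 5) 
(.lf (nat_lit 41670) (.g (nat_lit 5414) (.e (nat_lit 1237) (nat_lit 91) (.e (nat_lit 90170) (nat_lit 13) (.e (nat_lit 172106) (nat_lit 10) (.e (nat_lit 434231) (nat_lit 23) (.e (nat_lit 532535) (nat_lit 9) (.e (nat_lit 335900) (nat_lit 0) (.e (nat_lit 1937) (nat_lit 132) (.e (nat_lit 630528) (nat_lit 5) .nil)))))))) (.g (nat_lit 7) .nil .nil))) 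
(.lf (nat_lit 41702) (.g (nat_lit 2458) (.e (nat_lit 1237) (nat_lit 91) (.e (nat_lit 90170) (nat_lit 13) (.e (nat_lit 172106) (nat_lit 10) (.e (nat_lit 434231) (nat_lit 23) (.e (nat_lit 532535) (nat_lit 9) (.e (nat_lit 335925) (nat_lit 0) (.e (nat_lit 991) (nat_lit 81) (.e (nat_lit 4798) (nat_lit 281) (.e (nat_lit 1039) (nat_lit 81) .nil))))))))) (.g (nat_lit 4) .nil .nil)))) (.nd (nat_lit 5) 
(.lf (nat_lit 41686) (.g (nat_lit 3788) (.e (nat_lit 1237) (nat_lit 91) (.e (nat_lit 90170) (nat_lit 13) (.e (nat_lit 172106) (nat_lit 10) (.e (nat_lit 434231) (nat_lit 23) (.e (nat_lit 532535) (nat_lit 9) (.e (nat_lit 335905) (nat_lit 0) (.e (nat_lit 972) (nat_lit 81) (.e (nat_lit 4751) (nat_lit 281) (.e (nat_lit 1027) (nat_lit 81) .nil))))))))) (.g (nat_lit 5) .nil .nil))) 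
(.lf (nat_lit 41718) (.g (nat_lit 2948) (.e (nat_lit 1237) (nat_lit 91) (.e (nat_lit 90170) (nat_lit 13) (.e (nat_lit 172106) (nat_lit 10) (.e (nat_lit 434231) (nat_lit 23) (.e (nat_lit 532535) (nat_lit 9) (.e (nat_lit 335985) (nat_lit 1) (.e (nat_lit 57780) (nat_lit 239) (.e (nat_lit 982) (nat_lit 81) .nil)))))))) (.g (nat_lit 6) .nil .nil))))) (.nd (nat_lit 4) (.nd (nat_lit 5) 
(.lf (nat_lit 41678) (.g (nat_lit 2558) (.e (nat_lit 1237) (nat_lit 91) (.e (nat_lit 90170) (nat_lit 13) (.e (nat_lit 172106) (nat_lit 10) (.e (nat_lit 434231) (nat_lit 23) (.e (nat_lit 532535) (nat_lit 9) (.e (nat_lit 335901) (nat_lit 0) (.e (nat_lit 1049) (nat_lit 81) (.e (nat_lit 4751) (nat_lit 281) (.e (nat_lit 1028) (nat_lit 81) .nil))))))))) (.g (nat_lit 4) .nil .nil))) 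
(.lf (nat_lit 41710) (.g (nat_lit 2434) (.e (nat_lit 1237) (nat_lit 91) (.e (nat_lit 90170) (nat_lit 13) (.e (nat_lit 172106) (nat_lit 10) (.e (nat_lit 434231) (nat_lit 23) (.e (nat_lit 532535) (nat_lit 9) (.e (nat_lit 335928) (nat_lit 0) (.e (nat_lit 1939) (nat_lit 132) (.e (nat_lit 622604) (nat_lit 5) .nil)))))))) (.g (nat_lit 4) .nil .nil)))) (.nd (nat_lit 5) 
(.lf (nat_lit 41694) (.g (nat_lit 2404) (.e (nat_lit 1237) (nat_lit 91) (.e (nat_lit 90170) (nat_lit 13) (.e (nat_lit 172106) (nat_lit 10) (.e (nat_lit 434231) (nat_lit 23) (.e (nat_lit 532535) (nat_lit 9) (.e (nat_lit 335908) (nat_lit 0) (.e (nat_lit 968) (nat_lit 81) (.e (nat_lit 4751) (nat_lit 281) (.e (nat_lit 1028) (nat_lit 81) .nil))))))))) (.g (nat_lit 4) .nil .nil))) 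
(.lf (nat_lit 41726) (.g (nat_lit 5152) (.e (nat_lit 1237) (nat_lit 91) (.e (nat_lit 90170) (nat_lit 13) (.e (nat_lit 172106) (nat_lit 10) (.e (nat_lit 434231) (nat_lit 23) (.e (nat_lit 532535) (nat_lit 9) (.e (nat_lit 336248) (nat_lit 15) (.e (nat_lit 2401) (nat_lit 157) (.e (nat_lit 6848) (nat_lit 371) (.e (nat_lit 1027) (nat_lit 81) .nil))))))))) (.g (nat_lit 7) .nil .nil)))))))) 
(.nd (nat_lit 1) (.nd (nat_lit 2) (.nd (nat_lit 3) (.nd (nat_lit 4) (.nd (nat_lit 5) 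
(.lf (nat_lit 41665) (.g (nat_lit 3038) (.e (nat_lit 1237) (nat_lit 91) (.e (nat_lit 90170) (nat_lit 13) (.e (nat_lit 172106) (nat_lit 10) (.e (nat_lit 434231) (nat_lit 23) (.e (nat_lit 532529) (nat_lit 9) .nil))))) .nil)) 
(.lf (nat_lit 41697) (.g (nat_lit 2587) (.e (nat_lit 1237) (nat_lit 91) (.e (nat_lit 90170) (nat_lit 13) (.e (nat_lit 172106) (nat_lit 10) (.e (nat_lit 434231) (nat_lit 23) (.e (nat_lit 532535) (nat_lit 9) (.e (nat_lit 335908) (nat_lit 0) (.e (nat_lit 7936) (nat_lit 132) (.e (nat_lit 622598) (nat_lit 5) .nil)))))))) (.g (nat_lit 4) .nil .nil)))) (.nd (nat_lit 5) 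
(.lf (nat_lit 41681) (.g (nat_lit 5227) (.e (nat_lit 1237) (nat_lit 91) (.e (nat_lit 90170) (nat_lit 13) (.e (nat_lit 172106) (nat_lit 10) (.e (nat_lit 434231) (nat_lit 23) (.e (nat_lit 532535) (nat_lit 9) (.e (nat_lit 335903) (nat_lit 0) (.e (nat_lit 1938) (nat_lit 132) (.e (nat_lit 630528) (nat_lit 5) .nil)))))))) (.g (nat_lit 5) .nil .nil))) 
(.lf (nat_lit 41713) (.g (nat_lit 2411) (.e (nat_lit 1237) (nat_lit 91) (.e (nat_lit 90170) (nat_lit 13) (.e (nat_lit 172106) (nat_lit 10) (.e (nat_lit 434231) (nat_lit 23) (.e (nat_lit 532535) (nat_lit 9) (.e (nat_lit 335928) (nat_lit 0) (.e (nat_lit 1941) (nat_lit 132) (.e (nat_lit 622598) (nat_lit 5) .nil)))))))) (.g (nat_lit 4) .nil .nil))))) (.nd (nat_lit 4) (.nd (nat_lit 5) 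
(.lf (nat_lit 41673) (.g (nat_lit 3540) (.e (nat_lit 1237) (nat_lit 91) (.e (nat_lit 90170) (nat_lit 13) (.e (nat_lit 172106) (nat_lit 10) (.e (nat_lit 434231) (nat_lit 23) (.e (nat_lit 532535) (nat_lit 9) (.e (nat_lit 335901) (nat_lit 0) (.e (nat_lit 969) (nat_lit 81) (.e (nat_lit 4751) (nat_lit 281) (.e (nat_lit 1027) (nat_lit 81) .nil))))))))) (.g (nat_lit 5) .nil .nil))) 
(.lf (nat_lit 41705) (.g (nat_lit 2449) (.e (nat_lit 1237) (nat_lit 91) (.e (nat_lit 90170) (nat_lit 13) (.e (nat_lit 172106) (nat_lit 10) (.e (nat_lit 434231) (nat_lit 23) (.e (nat_lit 532535) (nat_lit 9) (.e (nat_lit 335925) (nat_lit 0) (.e (nat_lit 1936) (nat_lit 132) (.e (nat_lit 622598) (nat_lit 5) .nil)))))))) (.g (nat_lit 4) .nil .nil)))) (.nd (nat_lit 5) 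
(.lf (nat_lit 41689) (.g (nat_lit 4748) (.e (nat_lit 1237) (nat_lit 91) (.e (nat_lit 90170) (nat_lit 13) (.e (nat_lit 172106) (nat_lit 10) (.e (nat_lit 434231) (nat_lit 23) (.e (nat_lit 532535) (nat_lit 9) (.e (nat_lit 335905) (nat_lit 0) (.e (nat_lit 973) (nat_lit 81) (.e (nat_lit 4805) (nat_lit 281) (.e (nat_lit 982) (nat_lit 81) .nil))))))))) (.g (nat_lit 8) .nil .nil))) 
(.lf (nat_lit 41721) (.g (nat_lit 2412) (.e (nat_lit 1237) (nat_lit 91) (.e (nat_lit 90170) (nat_lit 13) (.e (nat_lit 172106) (nat_lit 10) (.e (nat_lit 434231) (nat_lit 23) (.e (nat_lit 532535) (nat_lit 9) (.e (nat_lit 335992) (nat_lit 1) (.e (nat_lit 57779) (nat_lit 239) (.e (nat_lit 7936) (nat_lit 81) .nil)))))))) (.g (nat_lit 4) .nil .nil)))))) 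
(.nd (nat_lit 3) (.nd (nat_lit 4) (.nd (nat_lit 5) 
(.lf (nat_lit 41669) (.g (nat_lit 3234) (.e (nat_lit 1237) (nat_lit 91) (.e (nat_lit 90170) (nat_lit 13) (.e (nat_lit 172106) (nat_lit 10) (.e (nat_lit 434231) (nat_lit 23) (.e (nat_lit 532535) (nat_lit 9) (.e (nat_lit 335886) (nat_lit 0) (.e (nat_lit 1936) (nat_lit 132) (.e (nat_lit 622605) (nat_lit 5) .nil)))))))) (.g (nat_lit 5) .nil .nil))) 
(.lf (nat_lit 41701) (.g (nat_lit 4020) (.e (nat_lit 1237) (nat_lit 91) (.e (nat_lit 90170) (nat_lit 13) (.e (nat_lit 172106) (nat_lit 10) (.e (nat_lit 434231) (nat_lit 23) (.e (nat_lit 532535) (nat_lit 9) (.e (nat_lit 335925) (nat_lit 0) (.e (nat_lit 991) (nat_lit 81) (.e (nat_lit 4752) (nat_lit 281) (.e (nat_lit 1028) (nat_lit 81) .nil))))))))) (.g (nat_lit 7) .nil .nil)))) (.nd (nat_lit 5) 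
(.lf (nat_lit 41685) (.g (nat_lit 2701) (.e (nat_lit 1237) (nat_lit 91) (.e (nat_lit 90170) (nat_lit 13) (.e (nat_lit 172106) (nat_lit 10) (.e (nat_lit 434231) (nat_lit 23) (.e (nat_lit 532535) (nat_lit 9) (.e (nat_lit 335905) (nat_lit 0) (.e (nat_lit 970) (nat_lit 81) (.e (nat_lit 4810) (nat_lit 281) (.e (nat_lit 982) (nat_lit 81) .nil))))))))) (.g (nat_lit 4) .nil .nil))) 
(.lf (nat_lit 41717) (.g (nat_lit 3118) (.e (nat_lit 1237) (nat_lit 91) (.e (nat_lit 90170) (nat_lit 13) (.e (nat_lit 172106) (nat_lit 10) (.e (nat_lit 434231) (nat_lit 23) (.e (nat_lit 532535) (nat_lit 9) (.e (nat_lit 335985) (nat_lit 1) (.e (nat_lit 57779) (nat_lit 239) (.e (nat_lit 982) (nat_lit 81) .nil)))))))) (.g (nat_lit 6) .nil .nil))))) (.nd (nat_lit 4) (.nd (nat_lit 5) 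
(.lf (nat_lit 41677) (.g (nat_lit 2627) (.e (nat_lit 1237) (nat_lit 91) (.e (nat_lit 90170) (nat_lit 13) (.e (nat_lit 172106) (nat_lit 10) (.e (nat_lit 434231) (nat_lit 23) (.e (nat_lit 532535) (nat_lit 9) (.e (nat_lit 335901) (nat_lit 0) (.e (nat_lit 971) (nat_lit 81) (.e (nat_lit 4804) (nat_lit 281) (.e (nat_lit 982) (nat_lit 81) .nil))))))))) (.g (nat_lit 4) .nil .nil))) 
(.lf (nat_lit 41709) (.g (nat_lit 2878) (.e (nat_lit 1237) (nat_lit 91) (.e (nat_lit 90170) (nat_lit 13) (.e (nat_lit 172106) (nat_lit 10) (.e (nat_lit 434231) (nat_lit 23) (.e (nat_lit 532535) (nat_lit 9) (.e (nat_lit 335928) (nat_lit 0) (.e (nat_lit 1936) (nat_lit 132) (.e (nat_lit 622605) (nat_lit 5) .nil)))))))) (.g (nat_lit 7) .nil .nil)))) (.nd (nat_lit 5) 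
(.lf (nat_lit 41693) (.g (nat_lit 3104) (.e (nat_lit 1237) (nat_lit 91) (.e (nat_lit 90170) (nat_lit 13) (.e (nat_lit 172106) (nat_lit 10) (.e (nat_lit 434231) (nat_lit 23) (.e (nat_lit 532535) (nat_lit 9) (.e (nat_lit 335908) (nat_lit 0) (.e (nat_lit 968) (nat_lit 81) (.e (nat_lit 4751) (nat_lit 281) (.e (nat_lit 1027) (nat_lit 81) .nil))))))))) (.g (nat_lit 5) .nil .nil))) 
(.lf (nat_lit 41725) (.g (nat_lit 2431) (.e (nat_lit 1237) (nat_lit 91) (.e (nat_lit 90170) (nat_lit 13) (.e (nat_lit 172106) (nat_lit 10) (.e (nat_lit 434231) (nat_lit 23) (.e (nat_lit 532535) (nat_lit 9) (.e (nat_lit 336030) (nat_lit 4) (.e (nat_lit 123127) (nat_lit 239) (.e (nat_lit 1033) (nat_lit 81) .nil)))))))) (.g (nat_lit 4) .nil .nil))))))) 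
(.nd (nat_lit 2) (.nd (nat_lit 3) (.nd (nat_lit 4) (.nd (nat_lit 5) 
(.lf (nat_lit 41667) (.g (nat_lit 2367) (.e (nat_lit 1237) (nat_lit 91) (.e (nat_lit 90170) (nat_lit 13) (.e (nat_lit 172106) (nat_lit 10) (.e (nat_lit 434231) (nat_lit 23) (.e (nat_lit 532535) (nat_lit 9) .nil))))) .nil)) 
(.lf (nat_lit 41699) (.g (nat_lit 5135) (.e (nat_lit 1237) (nat_lit 91) (.e (nat_lit 90170) (nat_lit 13) (.e (nat_lit 172106) (nat_lit 10) (.e (nat_lit 434231) (nat_lit 23) (.e (nat_lit 532535) (nat_lit 9) (.e (nat_lit 335920) (nat_lit 0) (.e (nat_lit 1936) (nat_lit 132) (.e (nat_lit 622605) (nat_lit 5) .nil)))))))) (.g (nat_lit 5) .nil .nil)))) (.nd (nat_lit 5) 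
(.lf (nat_lit 41683) (.g (nat_lit 5243) (.e (nat_lit 1237) (nat_lit 91) (.e (nat_lit 90170) (nat_lit 13) (.e (nat_lit 172106) (nat_lit 10) (.e (nat_lit 434231) (nat_lit 23) (.e (nat_lit 532535) (nat_lit 9) (.e (nat_lit 335904) (nat_lit 0) (.e (nat_lit 1938) (nat_lit 132) (.e (nat_lit 630528) (nat_lit 5) .nil)))))))) (.g (nat_lit 5) .nil .nil))) 
(.lf (nat_lit 41715) (.g (nat_lit 5001) (.e (nat_lit 1237) (nat_lit 91) (.e (nat_lit 90170) (nat_lit 13) (.e (nat_lit 172106) (nat_lit 10) (.e (nat_lit 434231) (nat_lit 23) (.e (nat_lit 532535) (nat_lit 9) (.e (nat_lit 335929) (nat_lit 0) (.e (nat_lit 1936) (nat_lit 132) (.e (nat_lit 622605) (nat_lit 5) .nil)))))))) (.g (nat_lit 5) .nil .nil))))) (.nd (nat_lit 4) (.nd (nat_lit 5) 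
(.lf (nat_lit 41675) (.g (nat_lit 2647) (.e (nat_lit 1237) (nat_lit 91) (.e (nat_lit 90170) (nat_lit 13) (.e (nat_lit 172106) (nat_lit 10) (.e (nat_lit 434231) (nat_lit 23) (.e (nat_lit 532535) (nat_lit 9) (.e (nat_lit 335901) (nat_lit 0) (.e (nat_lit 969) (nat_lit 81) (.e (nat_lit 4809) (nat_lit 281) (.e (nat_lit 982) (nat_lit 81) .nil))))))))) (.g (nat_lit 4) .nil .nil))) 
(.lf (nat_lit 41707) (.g (nat_lit 3410) (.e (nat_lit 1237) (nat_lit 91) (.e (nat_lit 90170) (nat_lit 13) (.e (nat_lit 172106) (nat_lit 10) (.e (nat_lit 434231) (nat_lit 23) (.e (nat_lit 532535) (nat_lit 9) (.e (nat_lit 335925) (nat_lit 0) (.e (nat_lit 1941) (nat_lit 132) (.e (nat_lit 622598) (nat_lit 5) .nil)))))))) (.g (nat_lit 5) .nil .nil)))) (.nd (nat_lit 5) 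
(.lf (nat_lit 41691) (.g (nat_lit 4573) (.e (nat_lit 1237) (nat_lit 91) (.e (nat_lit 90170) (nat_lit 13) (.e (nat_lit 172106) (nat_lit 10) (.e (nat_lit 434231) (nat_lit 23) (.e (nat_lit 532535) (nat_lit 9) (.e (nat_lit 335905) (nat_lit 0) (.e (nat_lit 1934) (nat_lit 132) (.e (nat_lit 630528) (nat_lit 5) .nil)))))))) (.g (nat_lit 7) .nil .nil))) 
(.lf (nat_lit 41723) (.g (nat_lit 2533) (.e (nat_lit 1237) (nat_lit 91) (.e (nat_lit 90170) (nat_lit 13) (.e (nat_lit 172106) (nat_lit 10) (.e (nat_lit 434231) (nat_lit 23) (.e (nat_lit 532535) (nat_lit 9) (.e (nat_lit 335992) (nat_lit 1) (.e (nat_lit 57784) (nat_lit 239) (.e (nat_lit 982) (nat_lit 81) .nil)))))))) (.g (nat_lit 4) .nil .nil)))))) (.nd (nat_lit 3) (.nd (nat_lit 4) (.nd (nat_lit 5) 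
(.lf (nat_lit 41671) (.g (nat_lit 5112) (.e (nat_lit 1237) (nat_lit 91) (.e (nat_lit 90170) (nat_lit 13) (.e (nat_lit 172106) (nat_lit 10) (.e (nat_lit 434231) (nat_lit 23) (.e (nat_lit 532535) (nat_lit 9) (.e (nat_lit 335900) (nat_lit 0) (.e (nat_lit 1938) (nat_lit 132) (.e (nat_lit 630528) (nat_lit 5) .nil)))))))) (.g (nat_lit 5) .nil .nil))) 
(.lf (nat_lit 41703) (.g (nat_lit 2572) (.e (nat_lit 1237) (nat_lit 91) (.e (nat_lit 90170) (nat_lit 13) (.e (nat_lit 172106) (nat_lit 10) (.e (nat_lit 434231) (nat_lit 23) (.e (nat_lit 532535) (nat_lit 9) (.e (nat_lit 335925) (nat_lit 0) (.e (nat_lit 991) (nat_lit 81) (.e (nat_lit 4801) (nat_lit 281) (.e (nat_lit 982) (nat_lit 81) .nil))))))))) (.g (nat_lit 4) .nil .nil)))) (.nd (nat_lit 5) 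
(.lf (nat_lit 41687) (.g (nat_lit 4359) (.e (nat_lit 1237) (nat_lit 91) (.e (nat_lit 90170) (nat_lit 13) (.e (nat_lit 172106) (nat_lit 10) (.e (nat_lit 434231) (nat_lit 23) (.e (nat_lit 532535) (nat_lit 9) (.e (nat_lit 335905) (nat_lit 0) (.e (nat_lit 973) (nat_lit 81) (.e (nat_lit 4751) (nat_lit 281) (.e (nat_lit 1027) (nat_lit 81) .nil))))))))) (.g (nat_lit 6) .nil .nil))) 
(.lf (nat_lit 41719) (.g (nat_lit 3184) (.e (nat_lit 1237) (nat_lit 91) (.e (nat_lit 90170) (nat_lit 13) (.e (nat_lit 172106) (nat_lit 10) (.e (nat_lit 434231) (nat_lit 23) (.e (nat_lit 532535) (nat_lit 9) (.e (nat_lit 335985) (nat_lit 1) (.e (nat_lit 57785) (nat_lit 239) (.e (nat_lit 982) (nat_lit 81) .nil)))))))) (.g (nat_lit 6) .nil .nil))))) (.nd (nat_lit 4) (.nd (nat_lit 5) 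
(.lf (nat_lit 41679) (.g (nat_lit 2621) (.e (nat_lit 1237) (nat_lit 91) (.e (nat_lit 90170) (nat_lit 13) (.e (nat_lit 172106) (nat_lit 10) (.e (nat_lit 434231) (nat_lit 23) (.e (nat_lit 532535) (nat_lit 9) (.e (nat_lit 335901) (nat_lit 0) (.e (nat_lit 1050) (nat_lit 81) (.e (nat_lit 4804) (nat_lit 281) (.e (nat_lit 982) (nat_lit 81) .nil))))))))) (.g (nat_lit 4) .nil .nil))) 
(.lf (nat_lit 41711) (.g (nat_lit 2910) (.e (nat_lit 1237) (nat_lit 91) (.e (nat_lit 90170) (nat_lit 13) (.e (nat_lit 172106) (nat_lit 10) (.e (nat_lit 434231) (nat_lit 23) (.e (nat_lit 532535) (nat_lit 9) (.e (nat_lit 335928) (nat_lit 0) (.e (nat_lit 1939) (nat_lit 132) (.e (nat_lit 622605) (nat_lit 5) .nil)))))))) (.g (nat_lit 7) .nil .nil)))) (.nd (nat_lit 5) 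
(.lf (nat_lit 41695) (.g (nat_lit 2672) (.e (nat_lit 1237) (nat_lit 91) (.e (nat_lit 90170) (nat_lit 13) (.e (nat_lit 172106) (nat_lit 10) (.e (nat_lit 434231) (nat_lit 23) (.e (nat_lit 532535) (nat_lit 9) (.e (nat_lit 335908) (nat_lit 0) (.e (nat_lit 973) (nat_lit 81) (.e (nat_lit 4805) (nat_lit 281) (.e (nat_lit 1039) (nat_lit 81) .nil))))))))) (.g (nat_lit 4) .nil .nil))) 
(.lf (nat_lit 41727) (.g (nat_lit 4493) (.e (nat_lit 1237) (nat_lit 91) (.e (nat_lit 90170) (nat_lit 13) (.e (nat_lit 172106) (nat_lit 10) (.e (nat_lit 434231) (nat_lit 23) (.e (nat_lit 532535) (nat_lit 9) (.e (nat_lit 336248) (nat_lit 15) (.e (nat_lit 2401) (nat_lit 157) (.e (nat_lit 6848) (nat_lit 371) (.e (nat_lit 1028) (nat_lit 81) .nil))))))))) (.g (nat_lit 5) .nil .nil)))))))))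

noncomputable def tv580 : DT := (.nd (nat_lit 0) (.nd (nat_lit 1) (.nd (nat_lit 2) (.nd (nat_lit 3) (.nd (nat_lit 4) (.nd (nat_lit 5) (.nd (nat_lit 6) 
(.lf (nat_lit 41728) (.g (nat_lit 5141) (.e (nat_lit 1237) (nat_lit 91) (.e (nat_lit 90170) (nat_lit 13) (.e (nat_lit 172106) (nat_lit 10) (.e (nat_lit 434231) (nat_lit 23) (.e (nat_lit 532535) (nat_lit 9) (.e (nat_lit 336248) (nat_lit 15) (.e (nat_lit 2412) (nat_lit 157) (.e (nat_lit 6848) (nat_lit 371) (.e (nat_lit 1027) (nat_lit 81) .nil))))))))) (.g (nat_lit 8) .nil .nil))) 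
(.lf (nat_lit 41792) (.g (nat_lit 1002) (.e (nat_lit 1237) (nat_lit 91) (.e (nat_lit 90170) (nat_lit 13) (.e (nat_lit 172109) (nat_lit 10) .nil))) .nil))) (.nd (nat_lit 6) 
(.lf (nat_lit 41760) (.g (nat_lit 2292) (.e (nat_lit 1237) (nat_lit 91) (.e (nat_lit 90170) (nat_lit 13) (.e (nat_lit 172106) (nat_lit 10) (.e (nat_lit 434238) (nat_lit 25) .nil)))) .nil)) 
(.lf (nat_lit 41824) (.g (nat_lit 2345) (.e (nat_lit 1237) (nat_lit 91) (.e (nat_lit 90170) (nat_lit 13) (.e (nat_lit 172123) (nat_lit 13) (.e (nat_lit 483337) (nat_lit 9) (.e (nat_lit 426108) (nat_lit 1) .nil))))) .nil)))) (.nd (nat_lit 5) (.nd (nat_lit 6) 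
(.lf (nat_lit 41744) (.g (nat_lit 3449) (.e (nat_lit 1237) (nat_lit 91) (.e (nat_lit 90170) (nat_lit 13) (.e (nat_lit 172106) (nat_lit 10) (.e (nat_lit 434231) (nat_lit 23) (.e (nat_lit 532544) (nat_lit 10) (.e (nat_lit 344096) (nat_lit 18) (.e (nat_lit 4761) (nat_lit 281) (.e (nat_lit 1093) (nat_lit 81) .nil)))))))) (.g (nat_lit 5) .nil .nil))) 
(.lf (nat_lit 41808) (.g (nat_lit 2949) (.e (nat_lit 1237) (nat_lit 91) (.e (nat_lit 90170) (nat_lit 13) (.e (nat_lit 172120) (nat_lit 12) (.e (nat_lit 475183) (nat_lit 29) .nil)))) .nil))) (.nd (nat_lit 6) 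
(.lf (nat_lit 41776) (.g (nat_lit 2089) (.e (nat_lit 1237) (nat_lit 91) (.e (nat_lit 90170) (nat_lit 13) (.e (nat_lit 172106) (nat_lit 10) (.e (nat_lit 434244) (nat_lit 28) (.e (nat_lit 573468) (nat_lit 10) (.e (nat_lit 8490) (nat_lit 180) (.e (nat_lit 1050) (nat_lit 81) (.e (nat_lit 5345) (nat_lit 298) .nil)))))))) (.g (nat_lit 4) .nil .nil))) 
(.lf (nat_lit 41840) (.g (nat_lit 2767) (.e (nat_lit 1237) (nat_lit 91) (.e (nat_lit 90170) (nat_lit 13) (.e (nat_lit 172126) (nat_lit 14) (.e (nat_lit 491539) (nat_lit 3) .nil)))) .nil))))) (.nd (nat_lit 4) (.nd (nat_lit 5) (.nd (nat_lit 6) 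
(.lf (nat_lit 41736) (.g (nat_lit 2585) (.e (nat_lit 1237) (nat_lit 91) (.e (nat_lit 90170) (nat_lit 13) (.e (nat_lit 172106) (nat_lit 10) (.e (nat_lit 434231) (nat_lit 23) (.e (nat_lit 532535) (nat_lit 9) (.e (nat_lit 336295) (nat_lit 15) (.e (nat_lit 2505) (nat_lit 157) (.e (nat_lit 6892) (nat_lit 371) (.e (nat_lit 1037) (nat_lit 81) .nil))))))))) (.g (nat_lit 4) .nil .nil))) 
(.lf (nat_lit 41800) (.g (nat_lit 2660) (.e (nat_lit 1237) (nat_lit 91) (.e (nat_lit 90170) (nat_lit 13) (.e (nat_lit 172113) (nat_lit 10) (.e (nat_lit 434245) (nat_lit 28) .nil)))) .nil))) (.nd (nat_lit 6) 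
(.lf (nat_lit 41768) (.g (nat_lit 3045) (.e (nat_lit 1237) (nat_lit 91) (.e (nat_lit 90170) (nat_lit 13) (.e (nat_lit 172106) (nat_lit 10) (.e (nat_lit 434238) (nat_lit 25) (.e (nat_lit 548913) (nat_lit 18) (.e (nat_lit 172041) (nat_lit 0) (.e (nat_lit 7936) (nat_lit 402) .nil))))))) (.g (nat_lit 4) .nil .nil))) 
(.lf (nat_lit 41832) (.g (nat_lit 2780) (.e (nat_lit 1237) (nat_lit 91) (.e (nat_lit 90170) (nat_lit 13) (.e (nat_lit 172126) (nat_lit 14) (.e (nat_lit 491522) (nat_lit 0) .nil)))) .nil)))) (.nd (nat_lit 5) (.nd (nat_lit 6) 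
(.lf (nat_lit 41752) (.g (nat_lit 3058) (.e (nat_lit 1237) (nat_lit 91) (.e (nat_lit 90170) (nat_lit 13) (.e (nat_lit 172106) (nat_lit 10) (.e (nat_lit 434231) (nat_lit 23) (.e (nat_lit 532554) (nat_lit 13) (.e (nat_lit 368689) (nat_lit 34) (.e (nat_lit 630528) (nat_lit 5) .nil))))))) (.g (nat_lit 4) .nil .nil))) 
(.lf (nat_lit 41816) (.g (nat_lit 1880) (.e (nat_lit 1237) (nat_lit 91) (.e (nat_lit 90170) (nat_lit 13) (.e (nat_lit 172123) (nat_lit 13) (.e (nat_lit 483337) (nat_lit 9) .nil)))) .nil))) (.nd (nat_lit 6) 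
(.lf (nat_lit 41784) (.g (nat_lit 2090) (.e (nat_lit 1237) (nat_lit 91) (.e (nat_lit 90170) (nat_lit 13) (.e (nat_lit 172106) (nat_lit 10) (.e (nat_lit 434244) (nat_lit 28) (.e (nat_lit 573471) (nat_lit 11) (.e (nat_lit 16390) (nat_lit 0) (.e (nat_lit 7936) (nat_lit 402) .nil))))))) (.g (nat_lit 4) .nil .nil))) 
(.lf (nat_lit 41848) (.g (nat_lit 1679) (.e (nat_lit 1237) (nat_lit 91) (.e (nat_lit 90170) (nat_lit 13) (.e (nat_lit 179968) (nat_lit 20) (.e (nat_lit 114710) (nat_lit 21) (.e (nat_lit 57847) (nat_lit 252) (.e (nat_lit 57390) (nat_lit 5) (.e (nat_lit 114722) (nat_lit 24) (.e (nat_lit 106517) (nat_lit 9) .nil)))))))) (.g (nat_lit 5) .nil .nil))))))) 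
(.nd (nat_lit 3) (.nd (nat_lit 4) (.nd (nat_lit 5) (.nd (nat_lit 6) 
(.lf (nat_lit 41732) (.g (nat_lit 2618) (.e (nat_lit 1237) (nat_lit 91) (.e (nat_lit 90170) (nat_lit 13) (.e (nat_lit 172106) (nat_lit 10) (.e (nat_lit 434231) (nat_lit 23) (.e (nat_lit 532535) (nat_lit 9) (.e (nat_lit 336295) (nat_lit 15) (.e (nat_lit 2443) (nat_lit 157) (.e (nat_lit 6867) (nat_lit 371) (.e (nat_lit 1039) (nat_lit 81) .nil))))))))) (.g (nat_lit 4) .nil .nil))) 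
(.lf (nat_lit 41796) (.g (nat_lit 2673) (.e (nat_lit 1237) (nat_lit 91) (.e (nat_lit 90170) (nat_lit 13) (.e (nat_lit 172113) (nat_lit 10) (.e (nat_lit 434207) (nat_lit 18) .nil)))) .nil))) (.nd (nat_lit 6) 
(.lf (nat_lit 41764) (.g (nat_lit 2884) (.e (nat_lit 1237) (nat_lit 91) (.e (nat_lit 90170) (nat_lit 13) (.e (nat_lit 172106) (nat_lit 10) (.e (nat_lit 434238) (nat_lit 25) (.e (nat_lit 548898) (nat_lit 14) .nil))))) .nil)) 
(.lf (nat_lit 41828) (.g (nat_lit 1995) (.e (nat_lit 1237) (nat_lit 91) (.e (nat_lit 90170) (nat_lit 13) (.e (nat_lit 172123) (nat_lit 13) (.e (nat_lit 483345) (nat_lit 17) .nil)))) .nil)))) (.nd (nat_lit 5) (.nd (nat_lit 6) 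
(.lf (nat_lit 41748) (.g (nat_lit 3464) (.e (nat_lit 1237) (nat_lit 91) (.e (nat_lit 90170) (nat_lit 13) (.e (nat_lit 172106) (nat_lit 10) (.e (nat_lit 434231) (nat_lit 23) (.e (nat_lit 532544) (nat_lit 10) (.e (nat_lit 344152) (nat_lit 34) (.e (nat_lit 630528) (nat_lit 5) .nil))))))) (.g (nat_lit 6) .nil .nil))) 
(.lf (nat_lit 41812) (.g (nat_lit 2280) (.e (nat_lit 1237) (nat_lit 91) (.e (nat_lit 90170) (nat_lit 13) (.e (nat_lit 172121) (nat_lit 13) (.e (nat_lit 483337) (nat_lit 9) .nil)))) .nil))) (.nd (nat_lit 6) 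
(.lf (nat_lit 41780) (.g (nat_lit 2099) (.e (nat_lit 1237) (nat_lit 91) (.e (nat_lit 90170) (nat_lit 13) (.e (nat_lit 172106) (nat_lit 10) (.e (nat_lit 434244) (nat_lit 28) (.e (nat_lit 573471) (nat_lit 11) (.e (nat_lit 16384) (nat_lit 0) (.e (nat_lit 7936) (nat_lit 402) .nil))))))) (.g (nat_lit 4) .nil .nil))) 
(.lf (nat_lit 41844) (.g (nat_lit 3832) (.e (nat_lit 1237) (nat_lit 91) (.e (nat_lit 90170) (nat_lit 13) (.e (nat_lit 172126) (nat_lit 14) (.e (nat_lit 491540) (nat_lit 3) (.e (nat_lit 98367) (nat_lit 27) (.e (nat_lit 442112) (nat_lit 0) .nil)))))) (.g (nat_lit 5) .nil .nil)))))) (.nd (nat_lit 4) (.nd (nat_lit 5) (.nd (nat_lit 6) 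
(.lf (nat_lit 41740) (.g (nat_lit 2844) (.e (nat_lit 1237) (nat_lit 91) (.e (nat_lit 90170) (nat_lit 13) (.e (nat_lit 172106) (nat_lit 10) (.e (nat_lit 434231) (nat_lit 23) (.e (nat_lit 532543) (nat_lit 10) (.e (nat_lit 344090) (nat_lit 18) (.e (nat_lit 4834) (nat_lit 281) (.e (nat_lit 982) (nat_lit 81) .nil)))))))) (.g (nat_lit 5) .nil .nil))) 
(.lf (nat_lit 41804) (.g (nat_lit 2533) (.e (nat_lit 1237) (nat_lit 91) (.e (nat_lit 90170) (nat_lit 13) (.e (nat_lit 172113) (nat_lit 10) (.e (nat_lit 434248) (nat_lit 28) .nil)))) .nil))) (.nd (nat_lit 6) 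
(.lf (nat_lit 41772) (.g (nat_lit 2033) (.e (nat_lit 1237) (nat_lit 91) (.e (nat_lit 90170) (nat_lit 13) (.e (nat_lit 172106) (nat_lit 10) (.e (nat_lit 434244) (nat_lit 28) (.e (nat_lit 573451) (nat_lit 9) .nil))))) .nil)) 
(.lf (nat_lit 41836) (.g (nat_lit 3232) (.e (nat_lit 1237) (nat_lit 91) (.e (nat_lit 90170) (nat_lit 13) (.e (nat_lit 172126) (nat_lit 14) (.e (nat_lit 491537) (nat_lit 2) (.e (nat_lit 90172) (nat_lit 14) .nil))))) .nil)))) (.nd (nat_lit 5) (.nd (nat_lit 6) 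
(.lf (nat_lit 41756) (.g (nat_lit 3256) (.e (nat_lit 1237) (nat_lit 91) (.e (nat_lit 90170) (nat_lit 13) (.e (nat_lit 172106) (nat_lit 10) (.e (nat_lit 434231) (nat_lit 23) (.e (nat_lit 532569) (nat_lit 16) .nil))))) .nil)) 
(.lf (nat_lit 41820) (.g (nat_lit 2697) (.e (nat_lit 1237) (nat_lit 91) (.e (nat_lit 90170) (nat_lit 13) (.e (nat_lit 172123) (nat_lit 13) (.e (nat_lit 483337) (nat_lit 9) (.e (nat_lit 426100) (nat_lit 1) (.e (nat_lit 164379) (nat_lit 254) (.e (nat_lit 1028) (nat_lit 81) .nil))))))) (.g (nat_lit 4) .nil .nil)))) (.nd (nat_lit 6) 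
(.lf (nat_lit 41788) (.g (nat_lit 2976) (.e (nat_lit 1237) (nat_lit 91) (.e (nat_lit 90170) (nat_lit 13) (.e (nat_lit 172106) (nat_lit 10) (.e (nat_lit 434244) (nat_lit 28) (.e (nat_lit 573471) (nat_lit 11) (.e (nat_lit 16396) (nat_lit 0) (.e (nat_lit 7936) (nat_lit 402) .nil))))))) (.g (nat_lit 5) .nil .nil))) 
(.lf (nat_lit 41852) (.g (nat_lit 2750) (.e (nat_lit 1237) (nat_lit 91) (.e (nat_lit 90170) (nat_lit 13) (.e (nat_lit 179968) (nat_lit 20) (.e (nat_lit 114711) (nat_lit 21) (.e (nat_lit 57847) (nat_lit 252) (.e (nat_lit 57390) (nat_lit 5) (.e (nat_lit 114723) (nat_lit 24) (.e (nat_lit 106517) (nat_lit 9) .nil)))))))) (.g (nat_lit 7) .nil .nil)))))))) 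
(.nd (nat_lit 2) (.nd (nat_lit 3) (.nd (nat_lit 4) (.nd (nat_lit 5) (.nd (nat_lit 6) 
(.lf (nat_lit 41730) (.g (nat_lit 2590) (.e (nat_lit 1237) (nat_lit 91) (.e (nat_lit 90170) (nat_lit 13) (.e (nat_lit 172106) (nat_lit 10) (.e (nat_lit 434231) (nat_lit 23) (.e (nat_lit 532535) (nat_lit 9) (.e (nat_lit 336295) (nat_lit 15) (.e (nat_lit 2416) (nat_lit 157) (.e (nat_lit 6849) (nat_lit 371) (.e (nat_lit 1028) (nat_lit 81) .nil))))))))) (.g (nat_lit 4) .nil .nil))) 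
(.lf (nat_lit 41794) (.g (nat_lit 2532) (.e (nat_lit 1237) (nat_lit 91) (.e (nat_lit 90170) (nat_lit 13) (.e (nat_lit 172110) (nat_lit 10) (.e (nat_lit 434248) (nat_lit 28) .nil)))) .nil))) (.nd (nat_lit 6) 
(.lf (nat_lit 41762) (.g (nat_lit 2913) (.e (nat_lit 1237) (nat_lit 91) (.e (nat_lit 90170) (nat_lit 13) (.e (nat_lit 172106) (nat_lit 10) (.e (nat_lit 434238) (nat_lit 25) (.e (nat_lit 548897) (nat_lit 14) .nil))))) .nil)) 
(.lf (nat_lit 41826) (.g (nat_lit 984) (.e (nat_lit 1237) (nat_lit 91) (.e (nat_lit 90170) (nat_lit 13) (.e (nat_lit 172123) (nat_lit 13) (.e (nat_lit 491264) (nat_lit 10) .nil)))) .nil)))) (.nd (nat_lit 5) (.nd (nat_lit 6) 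
(.lf (nat_lit 41746) (.g (nat_lit 3977) (.e (nat_lit 1237) (nat_lit 91) (.e (nat_lit 90170) (nat_lit 13) (.e (nat_lit 172106) (nat_lit 10) (.e (nat_lit 434231) (nat_lit 23) (.e (nat_lit 532544) (nat_lit 10) (.e (nat_lit 344096) (nat_lit 18) (.e (nat_lit 4764) (nat_lit 281) (.e (nat_lit 7936) (nat_lit 81) .nil)))))))) (.g (nat_lit 6) .nil .nil))) 
(.lf (nat_lit 41810) (.g (nat_lit 3481) (.e (nat_lit 1237) (nat_lit 91) (.e (nat_lit 90170) (nat_lit 13) (.e (nat_lit 172120) (nat_lit 12) (.e (nat_lit 475185) (nat_lit 29) (.e (nat_lit 557103) (nat_lit 14) (.e (nat_lit 188160) (nat_lit 32) .nil)))))) (.g (nat_lit 5) .nil .nil)))) (.nd (nat_lit 6) 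
(.lf (nat_lit 41778) (.g (nat_lit 3380) (.e (nat_lit 1237) (nat_lit 91) (.e (nat_lit 90170) (nat_lit 13) (.e (nat_lit 172106) (nat_lit 10) (.e (nat_lit 434244) (nat_lit 28) (.e (nat_lit 573470) (nat_lit 11) (.e (nat_lit 16388) (nat_lit 0) (.e (nat_lit 7545) (nat_lit 402) .nil))))))) (.g (nat_lit 6) .nil .nil))) 
(.lf (nat_lit 41842) (.g (nat_lit 1998) (.e (nat_lit 1237) (nat_lit 91) (.e (nat_lit 90170) (nat_lit 13) (.e (nat_lit 172126) (nat_lit 14) (.e (nat_lit 491540) (nat_lit 3) .nil)))) .nil))))) (.nd (nat_lit 4) (.nd (nat_lit 5) (.nd (nat_lit 6) 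
(.lf (nat_lit 41738) (.g (nat_lit 2456) (.e (nat_lit 1237) (nat_lit 91) (.e (nat_lit 90170) (nat_lit 13) (.e (nat_lit 172106) (nat_lit 10) (.e (nat_lit 434231) (nat_lit 23) (.e (nat_lit 532535) (nat_lit 9) (.e (nat_lit 336338) (nat_lit 21) (.e (nat_lit 229566) (nat_lit 170) (.e (nat_lit 982) (nat_lit 81) .nil)))))))) (.g (nat_lit 4) .nil .nil))) 
(.lf (nat_lit 41802) (.g (nat_lit 3309) (.e (nat_lit 1237) (nat_lit 91) (.e (nat_lit 90170) (nat_lit 13) (.e (nat_lit 172113) (nat_lit 10) (.e (nat_lit 434245) (nat_lit 28) (.e (nat_lit 573474) (nat_lit 12) .nil))))) .nil))) (.nd (nat_lit 6) 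
(.lf (nat_lit 41770) (.g (nat_lit 2866) (.e (nat_lit 1237) (nat_lit 91) (.e (nat_lit 90170) (nat_lit 13) (.e (nat_lit 172106) (nat_lit 10) (.e (nat_lit 434238) (nat_lit 25) (.e (nat_lit 548914) (nat_lit 19) .nil))))) .nil)) 
(.lf (nat_lit 41834) (.g (nat_lit 2276) (.e (nat_lit 1237) (nat_lit 91) (.e (nat_lit 90170) (nat_lit 13) (.e (nat_lit 172126) (nat_lit 14) (.e (nat_lit 491537) (nat_lit 2) .nil)))) .nil)))) (.nd (nat_lit 5) (.nd (nat_lit 6) 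
(.lf (nat_lit 41754) (.g (nat_lit 3284) (.e (nat_lit 1237) (nat_lit 91) (.e (nat_lit 90170) (nat_lit 13) (.e (nat_lit 172106) (nat_lit 10) (.e (nat_lit 434231) (nat_lit 23) (.e (nat_lit 532563) (nat_lit 15) (.e (nat_lit 385043) (nat_lit 21) (.e (nat_lit 6854) (nat_lit 371) (.e (nat_lit 1028) (nat_lit 81) .nil)))))))) (.g (nat_lit 4) .nil .nil))) 
(.lf (nat_lit 41818) (.g (nat_lit 2658) (.e (nat_lit 1237) (nat_lit 91) (.e (nat_lit 90170) (nat_lit 13) (.e (nat_lit 172123) (nat_lit 13) (.e (nat_lit 483337) (nat_lit 9) (.e (nat_lit 426098) (nat_lit 1) (.e (nat_lit 164380) (nat_lit 254) (.e (nat_lit 1028) (nat_lit 81) .nil))))))) (.g (nat_lit 4) .nil .nil)))) (.nd (nat_lit 6) 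
(.lf (nat_lit 41786) (.g (nat_lit 1877) (.e (nat_lit 1237) (nat_lit 91) (.e (nat_lit 90170) (nat_lit 13) (.e (nat_lit 172106) (nat_lit 10) (.e (nat_lit 434244) (nat_lit 28) (.e (nat_lit 573471) (nat_lit 11) (.e (nat_lit 16392) (nat_lit 0) (.e (nat_lit 2400) (nat_lit 157) (.e (nat_lit 4312) (nat_lit 257) (.e (nat_lit 1027) (nat_lit 81) .nil))))))))) (.g (nat_lit 4) .nil .nil))) 
(.lf (nat_lit 41850) (.g (nat_lit 2119) (.e (nat_lit 1237) (nat_lit 91) (.e (nat_lit 90170) (nat_lit 13) (.e (nat_lit 179968) (nat_lit 20) (.e (nat_lit 114710) (nat_lit 21) (.e (nat_lit 57848) (nat_lit 252) (.e (nat_lit 57390) (nat_lit 5) (.e (nat_lit 114722) (nat_lit 24) (.e (nat_lit 106517) (nat_lit 9) .nil)))))))) (.g (nat_lit 5) .nil .nil))))))) 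
(.nd (nat_lit 3) (.nd (nat_lit 4) (.nd (nat_lit 5) (.nd (nat_lit 6) 
(.lf (nat_lit 41734) (.g (nat_lit 3627) (.e (nat_lit 1237) (nat_lit 91) (.e (nat_lit 90170) (nat_lit 13) (.e (nat_lit 172106) (nat_lit 10) (.e (nat_lit 434231) (nat_lit 23) (.e (nat_lit 532535) (nat_lit 9) (.e (nat_lit 336295) (nat_lit 15) (.e (nat_lit 2444) (nat_lit 157) (.e (nat_lit 6881) (nat_lit 371) (.e (nat_lit 982) (nat_lit 81) .nil))))))))) (.g (nat_lit 5) .nil .nil))) 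
(.lf (nat_lit 41798) (.g (nat_lit 3321) (.e (nat_lit 1237) (nat_lit 91) (.e (nat_lit 90170) (nat_lit 13) (.e (nat_lit 172113) (nat_lit 10) (.e (nat_lit 434208) (nat_lit 18) (.e (nat_lit 6420) (nat_lit 341) .nil))))) .nil))) (.nd (nat_lit 6) 
(.lf (nat_lit 41766) (.g (nat_lit 3820) (.e (nat_lit 1237) (nat_lit 91) (.e (nat_lit 90170) (nat_lit 13) (.e (nat_lit 172106) (nat_lit 10) (.e (nat_lit 434238) (nat_lit 25) (.e (nat_lit 548913) (nat_lit 18) (.e (nat_lit 172033) (nat_lit 0) (.e (nat_lit 7936) (nat_lit 402) .nil))))))) (.g (nat_lit 5) .nil .nil))) 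
(.lf (nat_lit 41830) (.g (nat_lit 2812) (.e (nat_lit 1237) (nat_lit 91) (.e (nat_lit 90170) (nat_lit 13) (.e (nat_lit 172124) (nat_lit 14) (.e (nat_lit 491537) (nat_lit 2) .nil)))) .nil)))) (.nd (nat_lit 5) (.nd (nat_lit 6) 
(.lf (nat_lit 41750) (.g (nat_lit 3021) (.e (nat_lit 1237) (nat_lit 91) (.e (nat_lit 90170) (nat_lit 13) (.e (nat_lit 172106) (nat_lit 10) (.e (nat_lit 434231) (nat_lit 23) (.e (nat_lit 532554) (nat_lit 13) .nil))))) .nil)) 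
(.lf (nat_lit 41814) (.g (nat_lit 2148) (.e (nat_lit 1237) (nat_lit 91) (.e (nat_lit 90170) (nat_lit 13) (.e (nat_lit 172121) (nat_lit 13) (.e (nat_lit 491264) (nat_lit 10) .nil)))) .nil))) (.nd (nat_lit 6) 
(.lf (nat_lit 41782) (.g (nat_lit 4675) (.e (nat_lit 1237) (nat_lit 91) (.e (nat_lit 90170) (nat_lit 13) (.e (nat_lit 172106) (nat_lit 10) (.e (nat_lit 434244) (nat_lit 28) (.e (nat_lit 573471) (nat_lit 11) (.e (nat_lit 16388) (nat_lit 0) (.e (nat_lit 7545) (nat_lit 402) .nil))))))) (.g (nat_lit 0) .nil .nil))) 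
(.lf (nat_lit 41846) (.g (nat_lit 896) (.e (nat_lit 1237) (nat_lit 91) (.e (nat_lit 90170) (nat_lit 13) (.e (nat_lit 172138) (nat_lit 15) .nil))) .nil))))) (.nd (nat_lit 4) (.nd (nat_lit 5) (.nd (nat_lit 6) 
(.lf (nat_lit 41742) (.g (nat_lit 2130) (.e (nat_lit 1237) (nat_lit 91) (.e (nat_lit 90170) (nat_lit 13) (.e (nat_lit 172106) (nat_lit 10) (.e (nat_lit 434231) (nat_lit 23) (.e (nat_lit 532544) (nat_lit 10) .nil))))) .nil)) 
(.lf (nat_lit 41806) (.g (nat_lit 810) (.e (nat_lit 1237) (nat_lit 91) (.e (nat_lit 90170) (nat_lit 13) (.e (nat_lit 172118) (nat_lit 12) .nil))) .nil))) (.nd (nat_lit 6) 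
(.lf (nat_lit 41774) (.g (nat_lit 2249) (.e (nat_lit 1237) (nat_lit 91) (.e (nat_lit 90170) (nat_lit 13) (.e (nat_lit 172106) (nat_lit 10) (.e (nat_lit 434244) (nat_lit 28) (.e (nat_lit 573458) (nat_lit 9) (.e (nat_lit 7936) (nat_lit 36) (.e (nat_lit 466688) (nat_lit 0) .nil))))))) (.g (nat_lit 4) .nil .nil))) 
(.lf (nat_lit 41838) (.g (nat_lit 4295) (.e (nat_lit 1237) (nat_lit 91) (.e (nat_lit 90170) (nat_lit 13) (.e (nat_lit 172126) (nat_lit 14) (.e (nat_lit 491537) (nat_lit 2) (.e (nat_lit 90185) (nat_lit 17) (.e (nat_lit 237569) (nat_lit 0) (.e (nat_lit 7936) (nat_lit 402) .nil))))))) (.g (nat_lit 5) .nil .nil))))) (.nd (nat_lit 5) (.nd (nat_lit 6) 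
(.lf (nat_lit 41758) (.g (nat_lit 3172) (.e (nat_lit 1237) (nat_lit 91) (.e (nat_lit 90170) (nat_lit 13) (.e (nat_lit 172106) (nat_lit 10) (.e (nat_lit 434236) (nat_lit 25) .nil)))) .nil)) 
(.lf (nat_lit 41822) (.g (nat_lit 2317) (.e (nat_lit 1237) (nat_lit 91) (.e (nat_lit 90170) (nat_lit 13) (.e (nat_lit 172123) (nat_lit 13) (.e (nat_lit 483337) (nat_lit 9) (.e (nat_lit 426107) (nat_lit 1) .nil))))) .nil))) (.nd (nat_lit 6) 
(.lf (nat_lit 41790) (.g (nat_lit 4508) (.e (nat_lit 1237) (nat_lit 91) (.e (nat_lit 90170) (nat_lit 13) (.e (nat_lit 172106) (nat_lit 10) (.e (nat_lit 434248) (nat_lit 28) (.e (nat_lit 573471) (nat_lit 11) .nil))))) .nil)) 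
(.lf (nat_lit 41854) (.g (nat_lit 2644) (.e (nat_lit 1237) (nat_lit 91) (.e (nat_lit 90174) (nat_lit 14) (.e (nat_lit 180251) (nat_lit 10) (.e (nat_lit 573489) (nat_lit 14) (.e (nat_lit 73755) (nat_lit 8) (.e (nat_lit 557091) (nat_lit 12) (.e (nat_lit 164006) (nat_lit 41) (.e (nat_lit 671488) (nat_lit 0) .nil)))))))) (.g (nat_lit 5) .nil .nil))))))))) 
(.nd (nat_lit 1) (.nd (nat_lit 2) (.nd (nat_lit 3) (.nd (nat_lit 4) (.nd (nat_lit 5) 
(.nd (nat_lit 6) 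
(.lf (nat_lit 41729) (.g (nat_lit 4482) (.e (nat_lit 1237) (nat_lit 91) (.e (nat_lit 90170) (nat_lit 13) (.e (nat_lit 172106) (nat_lit 10) (.e (nat_lit 434231) (nat_lit 23) (.e (nat_lit 532535) (nat_lit 9) (.e (nat_lit 336248) (nat_lit 15) (.e (nat_lit 2412) (nat_lit 157) (.e (nat_lit 6848) (nat_lit 371) (.e (nat_lit 1028) (nat_lit 81) .nil))))))))) (.g (nat_lit 5) .nil .nil))) 
(.lf (nat_lit 41793) (.g (nat_lit 904) (.e (nat_lit 1237) (nat_lit 91) (.e (nat_lit 90170) (nat_lit 13) (.e (nat_lit 172110) (nat_lit 10) .nil))) .nil))) (.nd (nat_lit 6) 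
(.lf (nat_lit 41761) (.g (nat_lit 2940) (.e (nat_lit 1237) (nat_lit 91) (.e (nat_lit 90170) (nat_lit 13) (.e (nat_lit 172106) (nat_lit 10) (.e (nat_lit 434238) (nat_lit 25) (.e (nat_lit 548896) (nat_lit 14) .nil))))) .nil)) 
(.lf (nat_lit 41825) (.g (nat_lit 2527) (.e (nat_lit 1237) (nat_lit 91) (.e (nat_lit 90170) (nat_lit 13) (.e (nat_lit 172123) (nat_lit 13) (.e (nat_lit 483337) (nat_lit 9) (.e (nat_lit 426108) (nat_lit 1) (.e (nat_lit 164385) (nat_lit 254) (.e (nat_lit 1028) (nat_lit 81) .nil))))))) (.g (nat_lit 4) .nil .nil))))) (.nd (nat_lit 5) (.nd (nat_lit 6) 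
(.lf (nat_lit 41745) (.g (nat_lit 3939) (.e (nat_lit 1237) (nat_lit 91) (.e (nat_lit 90170) (nat_lit 13) (.e (nat_lit 172106) (nat_lit 10) (.e (nat_lit 434231) (nat_lit 23) (.e (nat_lit 532544) (nat_lit 10) (.e (nat_lit 344096) (nat_lit 18) (.e (nat_lit 4761) (nat_lit 281) (.e (nat_lit 1095) (nat_lit 81) .nil)))))))) (.g (nat_lit 6) .nil .nil))) 
(.lf (nat_lit 41809) (.g (nat_lit 3072) (.e (nat_lit 1237) (nat_lit 91) (.e (nat_lit 90170) (nat_lit 13) (.e (nat_lit 172120) (nat_lit 12) (.e (nat_lit 475184) (nat_lit 29) .nil)))) .nil))) (.nd (nat_lit 6) 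
(.lf (nat_lit 41777) (.g (nat_lit 1799) (.e (nat_lit 1237) (nat_lit 91) (.e (nat_lit 90170) (nat_lit 13) (.e (nat_lit 172106) (nat_lit 10) (.e (nat_lit 434244) (nat_lit 28) (.e (nat_lit 573469) (nat_lit 11) .nil))))) .nil)) 
(.lf (nat_lit 41841) (.g (nat_lit 3564) (.e (nat_lit 1237) (nat_lit 91) (.e (nat_lit 90170) (nat_lit 13) (.e (nat_lit 172126) (nat_lit 14) (.e (nat_lit 491539) (nat_lit 3) (.e (nat_lit 98368) (nat_lit 27) (.e (nat_lit 442112) (nat_lit 0) .nil)))))) (.g (nat_lit 4) .nil .nil)))))) (.nd (nat_lit 4) (.nd (nat_lit 5) (.nd (nat_lit 6) 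
(.lf (nat_lit 41737) (.g (nat_lit 2552) (.e (nat_lit 1237) (nat_lit 91) (.e (nat_lit 90170) (nat_lit 13) (.e (nat_lit 172106) (nat_lit 10) (.e (nat_lit 434231) (nat_lit 23) (.e (nat_lit 532535) (nat_lit 9) (.e (nat_lit 336295) (nat_lit 15) (.e (nat_lit 7936) (nat_lit 157) (.e (nat_lit 6848) (nat_lit 371) (.e (nat_lit 1027) (nat_lit 81) .nil))))))))) (.g (nat_lit 4) .nil .nil))) 
(.lf (nat_lit 41801) (.g (nat_lit 4492) (.e (nat_lit 1237) (nat_lit 91) (.e (nat_lit 90170) (nat_lit 13) (.e (nat_lit 172113) (nat_lit 10) (.e (nat_lit 434245) (nat_lit 28) (.e (nat_lit 573471) (nat_lit 11) (.e (nat_lit 16388) (nat_lit 0) (.e (nat_lit 7545) (nat_lit 402) .nil))))))) (.g (nat_lit 5) .nil .nil)))) (.nd (nat_lit 6) 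
(.lf (nat_lit 41769) (.g (nat_lit 2945) (.e (nat_lit 1237) (nat_lit 91) (.e (nat_lit 90170) (nat_lit 13) (.e (nat_lit 172106) (nat_lit 10) (.e (nat_lit 434238) (nat_lit 25) (.e (nat_lit 548913) (nat_lit 18) (.e (nat_lit 172049) (nat_lit 0) (.e (nat_lit 7936) (nat_lit 402) .nil))))))) (.g (nat_lit 4) .nil .nil))) 
(.lf (nat_lit 41833) (.g (nat_lit 2657) (.e (nat_lit 1237) (nat_lit 91) (.e (nat_lit 90170) (nat_lit 13) (.e (nat_lit 172126) (nat_lit 14) (.e (nat_lit 491524) (nat_lit 0) .nil)))) .nil)))) (.nd (nat_lit 5) (.nd (nat_lit 6) 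
(.lf (nat_lit 41753) (.g (nat_lit 3006) (.e (nat_lit 1237) (nat_lit 91) (.e (nat_lit 90170) (nat_lit 13) (.e (nat_lit 172106) (nat_lit 10) (.e (nat_lit 434231) (nat_lit 23) (.e (nat_lit 532563) (nat_lit 15) .nil))))) .nil)) 
(.lf (nat_lit 41817) (.g (nat_lit 2404) (.e (nat_lit 1237) (nat_lit 91) (.e (nat_lit 90170) (nat_lit 13) (.e (nat_lit 172123) (nat_lit 13) (.e (nat_lit 483337) (nat_lit 9) (.e (nat_lit 426098) (nat_lit 1) (.e (nat_lit 164379) (nat_lit 254) (.e (nat_lit 1028) (nat_lit 81) .nil))))))) (.g (nat_lit 4) .nil .nil)))) (.nd (nat_lit 6) 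
(.lf (nat_lit 41785) (.g (nat_lit 1851) (.e (nat_lit 1237) (nat_lit 91) (.e (nat_lit 90170) (nat_lit 13) (.e (nat_lit 172106) (nat_lit 10) (.e (nat_lit 434244) (nat_lit 28) (.e (nat_lit 573471) (nat_lit 11) (.e (nat_lit 16392) (nat_lit 0) (.e (nat_lit 2397) (nat_lit 157) (.e (nat_lit 4315) (nat_lit 257) (.e (nat_lit 1027) (nat_lit 81) .nil))))))))) (.g (nat_lit 4) .nil .nil))) 
(.lf (nat_lit 41849) (.g (nat_lit 2437) (.e (nat_lit 1237) (nat_lit 91) (.e (nat_lit 90170) (nat_lit 13) (.e (nat_lit 179968) (nat_lit 20) (.e (nat_lit 114710) (nat_lit 21) (.e (nat_lit 57847) (nat_lit 252) (.e (nat_lit 57390) (nat_lit 5) (.e (nat_lit 114723) (nat_lit 24) (.e (nat_lit 106517) (nat_lit 9) .nil)))))))) (.g (nat_lit 7) .nil .nil))))))) 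
(.nd (nat_lit 3) (.nd (nat_lit 4) (.nd (nat_lit 5) (.nd (nat_lit 6) 
(.lf (nat_lit 41733) (.g (nat_lit 2699) (.e (nat_lit 1237) (nat_lit 91) (.e (nat_lit 90170) (nat_lit 13) (.e (nat_lit 172106) (nat_lit 10) (.e (nat_lit 434231) (nat_lit 23) (.e (nat_lit 532535) (nat_lit 9) (.e (nat_lit 336295) (nat_lit 15) (.e (nat_lit 2443) (nat_lit 157) (.e (nat_lit 6921) (nat_lit 371) (.e (nat_lit 1041) (nat_lit 81) .nil))))))))) (.g (nat_lit 4) .nil .nil))) 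
(.lf (nat_lit 41797) (.g (nat_lit 2643) (.e (nat_lit 1237) (nat_lit 91) (.e (nat_lit 90170) (nat_lit 13) (.e (nat_lit 172113) (nat_lit 10) (.e (nat_lit 434208) (nat_lit 18) .nil)))) .nil))) (.nd (nat_lit 6) 
(.lf (nat_lit 41765) (.g (nat_lit 2891) (.e (nat_lit 1237) (nat_lit 91) (.e (nat_lit 90170) (nat_lit 13) (.e (nat_lit 172106) (nat_lit 10) (.e (nat_lit 434238) (nat_lit 25) (.e (nat_lit 548913) (nat_lit 18) .nil))))) .nil)) 
(.lf (nat_lit 41829) (.g (nat_lit 1922) (.e (nat_lit 1237) (nat_lit 91) (.e (nat_lit 90170) (nat_lit 13) (.e (nat_lit 172123) (nat_lit 13) (.e (nat_lit 483370) (nat_lit 20) .nil)))) .nil)))) (.nd (nat_lit 5) (.nd (nat_lit 6) 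
(.lf (nat_lit 41749) (.g (nat_lit 3615) (.e (nat_lit 1237) (nat_lit 91) (.e (nat_lit 90170) (nat_lit 13) (.e (nat_lit 172106) (nat_lit 10) (.e (nat_lit 434231) (nat_lit 23) (.e (nat_lit 532553) (nat_lit 13) .nil))))) .nil)) 
(.lf (nat_lit 41813) (.g (nat_lit 2686) (.e (nat_lit 1237) (nat_lit 91) (.e (nat_lit 90170) (nat_lit 13) (.e (nat_lit 172121) (nat_lit 13) (.e (nat_lit 483337) (nat_lit 9) (.e (nat_lit 426100) (nat_lit 1) .nil))))) .nil))) (.nd (nat_lit 6) 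
(.lf (nat_lit 41781) (.g (nat_lit 3217) (.e (nat_lit 1237) (nat_lit 91) (.e (nat_lit 90170) (nat_lit 13) (.e (nat_lit 172106) (nat_lit 10) (.e (nat_lit 434244) (nat_lit 28) (.e (nat_lit 573471) (nat_lit 11) (.e (nat_lit 16387) (nat_lit 0) (.e (nat_lit 7545) (nat_lit 402) .nil))))))) (.g (nat_lit 5) .nil .nil))) 
(.lf (nat_lit 41845) (.g (nat_lit 2948) (.e (nat_lit 1237) (nat_lit 91) (.e (nat_lit 90170) (nat_lit 13) (.e (nat_lit 172126) (nat_lit 14) (.e (nat_lit 491540) (nat_lit 3) (.e (nat_lit 98368) (nat_lit 27) (.e (nat_lit 442112) (nat_lit 0) .nil)))))) (.g (nat_lit 4) .nil .nil)))))) (.nd (nat_lit 4) (.nd (nat_lit 5) (.nd (nat_lit 6) 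
(.lf (nat_lit 41741) (.g (nat_lit 3113) (.e (nat_lit 1237) (nat_lit 91) (.e (nat_lit 90170) (nat_lit 13) (.e (nat_lit 172106) (nat_lit 10) (.e (nat_lit 434231) (nat_lit 23) (.e (nat_lit 532543) (nat_lit 10) (.e (nat_lit 344151) (nat_lit 34) (.e (nat_lit 630528) (nat_lit 5) .nil))))))) (.g (nat_lit 6) .nil .nil))) 
(.lf (nat_lit 41805) (.g (nat_lit 3394) (.e (nat_lit 1237) (nat_lit 91) (.e (nat_lit 90170) (nat_lit 13) (.e (nat_lit 172113) (nat_lit 10) (.e (nat_lit 434248) (nat_lit 28) (.e (nat_lit 573475) (nat_lit 12) .nil))))) .nil))) (.nd (nat_lit 6) 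
(.lf (nat_lit 41773) (.g (nat_lit 1905) (.e (nat_lit 1237) (nat_lit 91) (.e (nat_lit 90170) (nat_lit 13) (.e (nat_lit 172106) (nat_lit 10) (.e (nat_lit 434244) (nat_lit 28) (.e (nat_lit 573458) (nat_lit 9) .nil))))) .nil)) 
(.lf (nat_lit 41837) (.g (nat_lit 3224) (.e (nat_lit 1237) (nat_lit 91) (.e (nat_lit 90170) (nat_lit 13) (.e (nat_lit 172126) (nat_lit 14) (.e (nat_lit 491537) (nat_lit 2) (.e (nat_lit 90174) (nat_lit 14) .nil))))) .nil)))) (.nd (nat_lit 5) (.nd (nat_lit 6) 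
(.lf (nat_lit 41757) (.g (nat_lit 4662) (.e (nat_lit 1237) (nat_lit 91) (.e (nat_lit 90170) (nat_lit 13) (.e (nat_lit 172106) (nat_lit 10) (.e (nat_lit 434231) (nat_lit 23) (.e (nat_lit 532569) (nat_lit 16) (.e (nat_lit 401414) (nat_lit 0) (.e (nat_lit 7936) (nat_lit 402) .nil))))))) (.g (nat_lit 5) .nil .nil))) 
(.lf (nat_lit 41821) (.g (nat_lit 2856) (.e (nat_lit 1237) (nat_lit 91) (.e (nat_lit 90170) (nat_lit 13) (.e (nat_lit 172123) (nat_lit 13) (.e (nat_lit 483337) (nat_lit 9) (.e (nat_lit 426100) (nat_lit 1) (.e (nat_lit 164381) (nat_lit 254) (.e (nat_lit 1027) (nat_lit 81) .nil))))))) (.g (nat_lit 4) .nil .nil)))) (.nd (nat_lit 6) 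
(.lf (nat_lit 41789) (.g (nat_lit 2157) (.e (nat_lit 1237) (nat_lit 91) (.e (nat_lit 90170) (nat_lit 13) (.e (nat_lit 172106) (nat_lit 10) (.e (nat_lit 434244) (nat_lit 28) (.e (nat_lit 573471) (nat_lit 11) (.e (nat_lit 16403) (nat_lit 0) (.e (nat_lit 7936) (nat_lit 402) .nil))))))) (.g (nat_lit 4) .nil .nil))) 
(.lf (nat_lit 41853) (.g (nat_lit 2136) (.e (nat_lit 1237) (nat_lit 91) (.e (nat_lit 90170) (nat_lit 13) (.e (nat_lit 179968) (nat_lit 20) (.e (nat_lit 114711) (nat_lit 21) (.e (nat_lit 57848) (nat_lit 252) (.e (nat_lit 57390) (nat_lit 5) (.e (nat_lit 114722) (nat_lit 24) (.e (nat_lit 106517) (nat_lit 9) .nil)))))))) (.g (nat_lit 5) .nil .nil)))))))) 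
(.nd (nat_lit 2) (.nd (nat_lit 3) (.nd (nat_lit 4) (.nd (nat_lit 5) (.nd (nat_lit 6) 
(.lf (nat_lit 41731) (.g (nat_lit 2474) (.e (nat_lit 1237) (nat_lit 91) (.e (nat_lit 90170) (nat_lit 13) (.e (nat_lit 172106) (nat_lit 10) (.e (nat_lit 434231) (nat_lit 23) (.e (nat_lit 532535) (nat_lit 9) (.e (nat_lit 336295) (nat_lit 15) (.e (nat_lit 2416) (nat_lit 157) (.e (nat_lit 6854) (nat_lit 371) (.e (nat_lit 1028) (nat_lit 81) .nil))))))))) (.g (nat_lit 4) .nil .nil))) 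
(.lf (nat_lit 41795) (.g (nat_lit 2670) (.e (nat_lit 1237) (nat_lit 91) (.e (nat_lit 90170) (nat_lit 13) (.e (nat_lit 172113) (nat_lit 10) (.e (nat_lit 434203) (nat_lit 18) .nil)))) .nil))) (.nd (nat_lit 6) 
(.lf (nat_lit 41763) (.g (nat_lit 3207) (.e (nat_lit 1237) (nat_lit 91) (.e (nat_lit 90170) (nat_lit 13) (.e (nat_lit 172106) (nat_lit 10) (.e (nat_lit 434238) (nat_lit 25) (.e (nat_lit 548897) (nat_lit 14) (.e (nat_lit 2975) (nat_lit 185) (.e (nat_lit 442112) (nat_lit 0) .nil))))))) (.g (nat_lit 5) .nil .nil))) 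
(.lf (nat_lit 41827) (.g (nat_lit 1770) (.e (nat_lit 1237) (nat_lit 91) (.e (nat_lit 90170) (nat_lit 13) (.e (nat_lit 172123) (nat_lit 13) (.e (nat_lit 491264) (nat_lit 10) (.e (nat_lit 434275) (nat_lit 39) (.e (nat_lit 671488) (nat_lit 0) .nil)))))) (.g (nat_lit 5) .nil .nil))))) (.nd (nat_lit 5) (.nd (nat_lit 6) 
(.lf (nat_lit 41747) (.g (nat_lit 2416) (.e (nat_lit 1237) (nat_lit 91) (.e (nat_lit 90170) (nat_lit 13) (.e (nat_lit 172106) (nat_lit 10) (.e (nat_lit 434231) (nat_lit 23) (.e (nat_lit 532544) (nat_lit 10) (.e (nat_lit 344152) (nat_lit 34) (.e (nat_lit 622598) (nat_lit 5) .nil))))))) (.g (nat_lit 4) .nil .nil))) 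
(.lf (nat_lit 41811) (.g (nat_lit 3525) (.e (nat_lit 1237) (nat_lit 91) (.e (nat_lit 90170) (nat_lit 13) (.e (nat_lit 172120) (nat_lit 12) (.e (nat_lit 475185) (nat_lit 29) (.e (nat_lit 557105) (nat_lit 14) (.e (nat_lit 188160) (nat_lit 32) .nil)))))) (.g (nat_lit 5) .nil .nil)))) (.nd (nat_lit 6) 
(.lf (nat_lit 41779) (.g (nat_lit 1793) (.e (nat_lit 1237) (nat_lit 91) (.e (nat_lit 90170) (nat_lit 13) (.e (nat_lit 172106) (nat_lit 10) (.e (nat_lit 434244) (nat_lit 28) (.e (nat_lit 573471) (nat_lit 11) .nil))))) .nil)) 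
(.lf (nat_lit 41843) (.g (nat_lit 2596) (.e (nat_lit 1237) (nat_lit 91) (.e (nat_lit 90170) (nat_lit 13) (.e (nat_lit 172126) (nat_lit 14) (.e (nat_lit 491540) (nat_lit 3) (.e (nat_lit 98366) (nat_lit 27) .nil))))) .nil))))) (.nd (nat_lit 4) (.nd (nat_lit 5) (.nd (nat_lit 6) 
(.lf (nat_lit 41739) (.g (nat_lit 2102) (.e (nat_lit 1237) (nat_lit 91) (.e (nat_lit 90170) (nat_lit 13) (.e (nat_lit 172106) (nat_lit 10) (.e (nat_lit 434231) (nat_lit 23) (.e (nat_lit 532543) (nat_lit 10) .nil))))) .nil)) 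
(.lf (nat_lit 41803) (.g (nat_lit 2609) (.e (nat_lit 1237) (nat_lit 91) (.e (nat_lit 90170) (nat_lit 13) (.e (nat_lit 172113) (nat_lit 10) (.e (nat_lit 434247) (nat_lit 28) .nil)))) .nil))) (.nd (nat_lit 6) 
(.lf (nat_lit 41771) (.g (nat_lit 1016) (.e (nat_lit 1237) (nat_lit 91) (.e (nat_lit 90170) (nat_lit 13) (.e (nat_lit 172106) (nat_lit 10) (.e (nat_lit 434244) (nat_lit 28) .nil)))) .nil)) 
(.lf (nat_lit 41835) (.g (nat_lit 3397) (.e (nat_lit 1237) (nat_lit 91) (.e (nat_lit 90170) (nat_lit 13) (.e (nat_lit 172126) (nat_lit 14) (.e (nat_lit 491537) (nat_lit 2) (.e (nat_lit 90133) (nat_lit 9) .nil))))) .nil)))) (.nd (nat_lit 5) (.nd (nat_lit 6) 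
(.lf (nat_lit 41755) (.g (nat_lit 3221) (.e (nat_lit 1237) (nat_lit 91) (.e (nat_lit 90170) (nat_lit 13) (.e (nat_lit 172106) (nat_lit 10) (.e (nat_lit 434231) (nat_lit 23) (.e (nat_lit 532564) (nat_lit 15) .nil))))) .nil)) 
(.lf (nat_lit 41819) (.g (nat_lit 2375) (.e (nat_lit 1237) (nat_lit 91) (.e (nat_lit 90170) (nat_lit 13) (.e (nat_lit 172123) (nat_lit 13) (.e (nat_lit 483337) (nat_lit 9) (.e (nat_lit 426100) (nat_lit 1) .nil))))) .nil))) (.nd (nat_lit 6) 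
(.lf (nat_lit 41787) (.g (nat_lit 3349) (.e (nat_lit 1237) (nat_lit 91) (.e (nat_lit 90170) (nat_lit 13) (.e (nat_lit 172106) (nat_lit 10) (.e (nat_lit 434244) (nat_lit 28) (.e (nat_lit 573471) (nat_lit 11) (.e (nat_lit 16392) (nat_lit 0) (.e (nat_lit 7936) (nat_lit 402) .nil))))))) (.g (nat_lit 6) .nil .nil))) 
(.lf (nat_lit 41851) (.g (nat_lit 1992) (.e (nat_lit 1237) (nat_lit 91) (.e (nat_lit 90170) (nat_lit 13) (.e (nat_lit 179968) (nat_lit 20) (.e (nat_lit 114711) (nat_lit 21) (.e (nat_lit 57847) (nat_lit 252) (.e (nat_lit 57390) (nat_lit 5) (.e (nat_lit 114722) (nat_lit 24) (.e (nat_lit 106517) (nat_lit 9) .nil)))))))) (.g (nat_lit 5) .nil .nil))))))) 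
(.nd (nat_lit 3) (.nd (nat_lit 4) (.nd (nat_lit 5) (.nd (nat_lit 6) 
(.lf (nat_lit 41735) (.g (nat_lit 3616) (.e (nat_lit 1237) (nat_lit 91) (.e (nat_lit 90170) (nat_lit 13) (.e (nat_lit 172106) (nat_lit 10) (.e (nat_lit 434231) (nat_lit 23) (.e (nat_lit 532535) (nat_lit 9) (.e (nat_lit 336295) (nat_lit 15) (.e (nat_lit 2444) (nat_lit 157) (.e (nat_lit 6883) (nat_lit 371) (.e (nat_lit 982) (nat_lit 81) .nil))))))))) (.g (nat_lit 5) .nil .nil))) 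
(.lf (nat_lit 41799) (.g (nat_lit 2394) (.e (nat_lit 1237) (nat_lit 91) (.e (nat_lit 90170) (nat_lit 13) (.e (nat_lit 172113) (nat_lit 10) (.e (nat_lit 434242) (nat_lit 28) .nil)))) .nil))) (.nd (nat_lit 6) 
(.lf (nat_lit 41767) (.g (nat_lit 3042) (.e (nat_lit 1237) (nat_lit 91) (.e (nat_lit 90170) (nat_lit 13) (.e (nat_lit 172106) (nat_lit 10) (.e (nat_lit 434238) (nat_lit 25) (.e (nat_lit 548913) (nat_lit 18) (.e (nat_lit 172034) (nat_lit 0) (.e (nat_lit 7936) (nat_lit 402) .nil))))))) (.g (nat_lit 4) .nil .nil))) 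
(.lf (nat_lit 41831) (.g (nat_lit 2698) (.e (nat_lit 1237) (nat_lit 91) (.e (nat_lit 90170) (nat_lit 13) (.e (nat_lit 172124) (nat_lit 14) (.e (nat_lit 491540) (nat_lit 3) .nil)))) .nil)))) (.nd (nat_lit 5) (.nd (nat_lit 6) 
(.lf (nat_lit 41751) (.g (nat_lit 4004) (.e (nat_lit 1237) (nat_lit 91) (.e (nat_lit 90170) (nat_lit 13) (.e (nat_lit 172106) (nat_lit 10) (.e (nat_lit 434231) (nat_lit 23) (.e (nat_lit 532554) (nat_lit 13) (.e (nat_lit 368689) (nat_lit 34) (.e (nat_lit 622605) (nat_lit 5) .nil))))))) (.g (nat_lit 7) .nil .nil))) 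
(.lf (nat_lit 41815) (.g (nat_lit 363) (.e (nat_lit 1237) (nat_lit 91) (.e (nat_lit 90170) (nat_lit 13) (.e (nat_lit 172123) (nat_lit 13) .nil))) .nil))) (.nd (nat_lit 6) 
(.lf (nat_lit 41783) (.g (nat_lit 3716) (.e (nat_lit 1237) (nat_lit 91) (.e (nat_lit 90170) (nat_lit 13) (.e (nat_lit 172106) (nat_lit 10) (.e (nat_lit 434244) (nat_lit 28) (.e (nat_lit 573471) (nat_lit 11) (.e (nat_lit 16389) (nat_lit 0) (.e (nat_lit 7936) (nat_lit 402) .nil))))))) (.g (nat_lit 6) .nil .nil))) 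
(.lf (nat_lit 41847) (.g (nat_lit 665) (.e (nat_lit 1237) (nat_lit 91) (.e (nat_lit 90170) (nat_lit 13) (.e (nat_lit 179968) (nat_lit 20) .nil))) .nil))))) (.nd (nat_lit 4) (.nd (nat_lit 5) (.nd (nat_lit 6) 
(.lf (nat_lit 41743) (.g (nat_lit 3283) (.e (nat_lit 1237) (nat_lit 91) (.e (nat_lit 90170) (nat_lit 13) (.e (nat_lit 172106) (nat_lit 10) (.e (nat_lit 434231) (nat_lit 23) (.e (nat_lit 532544) (nat_lit 10) (.e (nat_lit 344088) (nat_lit 18) (.e (nat_lit 4752) (nat_lit 281) (.e (nat_lit 1028) (nat_lit 81) .nil)))))))) (.g (nat_lit 6) .nil .nil))) 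
(.lf (nat_lit 41807) (.g (nat_lit 995) (.e (nat_lit 1237) (nat_lit 91) (.e (nat_lit 90170) (nat_lit 13) (.e (nat_lit 172119) (nat_lit 12) .nil))) .nil))) (.nd (nat_lit 6) 
(.lf (nat_lit 41775) (.g (nat_lit 2094) (.e (nat_lit 1237) (nat_lit 91) (.e (nat_lit 90170) (nat_lit 13) (.e (nat_lit 172106) (nat_lit 10) (.e (nat_lit 434244) (nat_lit 28) (.e (nat_lit 573468) (nat_lit 10) (.e (nat_lit 8490) (nat_lit 180) (.e (nat_lit 1049) (nat_lit 81) (.e (nat_lit 5345) (nat_lit 298) .nil)))))))) (.g (nat_lit 4) .nil .nil))) 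
(.lf (nat_lit 41839) (.g (nat_lit 2789) (.e (nat_lit 1237) (nat_lit 91) (.e (nat_lit 90170) (nat_lit 13) (.e (nat_lit 172126) (nat_lit 14) (.e (nat_lit 491538) (nat_lit 3) .nil)))) .nil)))) (.nd (nat_lit 5) (.nd (nat_lit 6) 
(.lf (nat_lit 41759) (.g (nat_lit 3211) (.e (nat_lit 1237) (nat_lit 91) (.e (nat_lit 90170) (nat_lit 13) (.e (nat_lit 172106) (nat_lit 10) (.e (nat_lit 434237) (nat_lit 25) .nil)))) .nil)) 
(.lf (nat_lit 41823) (.g (nat_lit 2599) (.e (nat_lit 1237) (nat_lit 91) (.e (nat_lit 90170) (nat_lit 13) (.e (nat_lit 172123) (nat_lit 13) (.e (nat_lit 483337) (nat_lit 9) (.e (nat_lit 426107) (nat_lit 1) (.e (nat_lit 164378) (nat_lit 254) (.e (nat_lit 1028) (nat_lit 81) .nil))))))) (.g (nat_lit 4) .nil .nil)))) (.nd (nat_lit 6) 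
(.lf (nat_lit 41791) (.g (nat_lit 3036) (.e (nat_lit 1237) (nat_lit 91) (.e (nat_lit 90170) (nat_lit 13) (.e (nat_lit 172106) (nat_lit 10) (.e (nat_lit 442112) (nat_lit 45) .nil)))) .nil)) 
(.lf (nat_lit 41855) (.g (nat_lit 2085) (.e (nat_lit 1237) (nat_lit 91) (.e (nat_lit 90174) (nat_lit 14) (.e (nat_lit 180251) (nat_lit 10) (.e (nat_lit 573489) (nat_lit 14) (.e (nat_lit 73755) (nat_lit 8) (.e (nat_lit 557091) (nat_lit 12) (.e (nat_lit 164007) (nat_lit 41) (.e (nat_lit 671488) (nat_lit 0) .nil)))))))) (.g (nat_lit 4) .nil .nil))))))))))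

noncomputable def tv581 : DT := (.nd (nat_lit 0) (.nd (nat_lit 1) (.nd (nat_lit 2) (.nd (nat_lit 3) (.nd (nat_lit 4) (.nd (nat_lit 5) 
(.lf (nat_lit 41856) (.g (nat_lit 3539) (.e (nat_lit 1237) (nat_lit 91) (.e (nat_lit 90175) (nat_lit 15) (.e (nat_lit 188452) (nat_lit 23) (.e (nat_lit 204846) (nat_lit 24) (.e (nat_lit 319504) (nat_lit 10) (.e (nat_lit 7936) (nat_lit 298) .nil)))))) (.g (nat_lit 5) .nil .nil))) 
(.lf (nat_lit 41888) (.g (nat_lit 2088) (.e (nat_lit 1238) (nat_lit 91) (.e (nat_lit 90160) (nat_lit 11) (.e (nat_lit 24643) (nat_lit 11) (.e (nat_lit 368676) (nat_lit 21) (.e (nat_lit 516179) (nat_lit 15) (.e (nat_lit 475201) (nat_lit 40) (.e (nat_lit 704655) (nat_lit 9) .nil))))))) (.g (nat_lit 5) .nil .nil)))) (.nd (nat_lit 5) 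
(.lf (nat_lit 41872) (.g (nat_lit 1782) (.e (nat_lit 1238) (nat_lit 91) (.e (nat_lit 90160) (nat_lit 11) (.e (nat_lit 24628) (nat_lit 9) (.e (nat_lit 336019) (nat_lit 3) (.e (nat_lit 98356) (nat_lit 26) (.e (nat_lit 426444) (nat_lit 19) (.e (nat_lit 106517) (nat_lit 9) .nil))))))) (.g (nat_lit 4) .nil .nil))) 
(.lf (nat_lit 41904) (.g (nat_lit 3039) (.e (nat_lit 1238) (nat_lit 91) (.e (nat_lit 90172) (nat_lit 14) (.e (nat_lit 180243) (nat_lit 5) (.e (nat_lit 532513) (nat_lit 3) (.e (nat_lit 114714) (nat_lit 22) (.e (nat_lit 90164) (nat_lit 12) (.e (nat_lit 164006) (nat_lit 41) (.e (nat_lit 671488) (nat_lit 0) .nil)))))))) (.g (nat_lit 5) .nil .nil))))) (.nd (nat_lit 4) (.nd (nat_lit 5) 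
(.lf (nat_lit 41864) (.g (nat_lit 1085) (.e (nat_lit 1238) (nat_lit 91) (.e (nat_lit 90128) (nat_lit 9) (.e (nat_lit 321) (nat_lit 24) (.e (nat_lit 360467) (nat_lit 3) .nil)))) .nil)) 
(.lf (nat_lit 41896) (.g (nat_lit 2524) (.e (nat_lit 1238) (nat_lit 91) (.e (nat_lit 90170) (nat_lit 13) (.e (nat_lit 172106) (nat_lit 10) (.e (nat_lit 434231) (nat_lit 23) .nil)))) .nil))) (.nd (nat_lit 5) 
(.lf (nat_lit 41880) (.g (nat_lit 2059) (.e (nat_lit 1238) (nat_lit 91) (.e (nat_lit 90160) (nat_lit 11) (.e (nat_lit 24638) (nat_lit 9) (.e (nat_lit 336004) (nat_lit 2) (.e (nat_lit 90172) (nat_lit 14) .nil))))) .nil)) 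
(.lf (nat_lit 41912) (.g (nat_lit 3288) (.e (nat_lit 1238) (nat_lit 91) (.e (nat_lit 90172) (nat_lit 14) (.e (nat_lit 180244) (nat_lit 5) (.e (nat_lit 532513) (nat_lit 3) (.e (nat_lit 114714) (nat_lit 22) (.e (nat_lit 90164) (nat_lit 12) (.e (nat_lit 164006) (nat_lit 41) (.e (nat_lit 671488) (nat_lit 0) .nil)))))))) (.g (nat_lit 5) .nil .nil)))))) 
(.nd (nat_lit 3) (.nd (nat_lit 4) (.nd (nat_lit 5) 
(.lf (nat_lit 41860) (.g (nat_lit 3063) (.e (nat_lit 1237) (nat_lit 91) (.e (nat_lit 90177) (nat_lit 15) (.e (nat_lit 188452) (nat_lit 23) (.e (nat_lit 204846) (nat_lit 24) .nil)))) .nil)) 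
(.lf (nat_lit 41892) (.g (nat_lit 2607) (.e (nat_lit 1238) (nat_lit 91) (.e (nat_lit 90167) (nat_lit 13) (.e (nat_lit 172126) (nat_lit 14) (.e (nat_lit 491537) (nat_lit 2) (.e (nat_lit 90133) (nat_lit 9) (.e (nat_lit 2936) (nat_lit 184) (.e (nat_lit 425984) (nat_lit 0) (.e (nat_lit 7545) (nat_lit 402) .nil)))))))) (.g (nat_lit 5) .nil .nil)))) (.nd (nat_lit 5) 
(.lf (nat_lit 41876) (.g (nat_lit 3962) (.e (nat_lit 1238) (nat_lit 91) (.e (nat_lit 90160) (nat_lit 11) (.e (nat_lit 24628) (nat_lit 9) (.e (nat_lit 336019) (nat_lit 3) (.e (nat_lit 98384) (nat_lit 32) (.e (nat_lit 475201) (nat_lit 40) (.e (nat_lit 704620) (nat_lit 9) .nil))))))) (.g (nat_lit 0) .nil .nil))) 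
(.lf (nat_lit 41908) (.g (nat_lit 2401) (.e (nat_lit 1238) (nat_lit 91) (.e (nat_lit 90172) (nat_lit 14) (.e (nat_lit 180244) (nat_lit 5) (.e (nat_lit 532513) (nat_lit 3) (.e (nat_lit 114714) (nat_lit 22) (.e (nat_lit 90162) (nat_lit 12) (.e (nat_lit 164006) (nat_lit 41) (.e (nat_lit 671488) (nat_lit 0) .nil)))))))) (.g (nat_lit 4) .nil .nil))))) (.nd (nat_lit 4) (.nd (nat_lit 5) 
(.lf (nat_lit 41868) (.g (nat_lit 1982) (.e (nat_lit 1238) (nat_lit 91) (.e (nat_lit 90158) (nat_lit 11) (.e (nat_lit 24644) (nat_lit 11) (.e (nat_lit 368676) (nat_lit 21) (.e (nat_lit 516179) (nat_lit 15) (.e (nat_lit 475201) (nat_lit 40) (.e (nat_lit 704620) (nat_lit 9) .nil))))))) (.g (nat_lit 5) .nil .nil))) 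
(.lf (nat_lit 41900) (.g (nat_lit 2091) (.e (nat_lit 1238) (nat_lit 91) (.e (nat_lit 90171) (nat_lit 14) (.e (nat_lit 180252) (nat_lit 10) (.e (nat_lit 573489) (nat_lit 14) (.e (nat_lit 73755) (nat_lit 8) (.e (nat_lit 557090) (nat_lit 12) (.e (nat_lit 164007) (nat_lit 41) (.e (nat_lit 671488) (nat_lit 0) .nil)))))))) (.g (nat_lit 4) .nil .nil)))) (.nd (nat_lit 5) 
(.lf (nat_lit 41884) (.g (nat_lit 3010) (.e (nat_lit 1238) (nat_lit 91) (.e (nat_lit 90160) (nat_lit 11) (.e (nat_lit 24640) (nat_lit 10) (.e (nat_lit 344117) (nat_lit 21) (.e (nat_lit 516145) (nat_lit 9) .nil))))) .nil)) 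
(.lf (nat_lit 41916) (.g (nat_lit 1952) (.e (nat_lit 1238) (nat_lit 91) (.e (nat_lit 90172) (nat_lit 14) (.e (nat_lit 180244) (nat_lit 5) (.e (nat_lit 532515) (nat_lit 3) (.e (nat_lit 114716) (nat_lit 22) (.e (nat_lit 90162) (nat_lit 12) (.e (nat_lit 164007) (nat_lit 41) (.e (nat_lit 663559) (nat_lit 0) .nil)))))))) (.g (nat_lit 4) .nil .nil))))))) 
(.nd (nat_lit 2) (.nd (nat_lit 3) (.nd (nat_lit 4) (.nd (nat_lit 5) 
(.lf (nat_lit 41858) (.g (nat_lit 3228) (.e (nat_lit 1237) (nat_lit 91) (.e (nat_lit 90176) (nat_lit 15) (.e (nat_lit 188450) (nat_lit 23) (.e (nat_lit 204846) (nat_lit 24) (.e (nat_lit 319504) (nat_lit 10) (.e (nat_lit 7936) (nat_lit 298) .nil)))))) (.g (nat_lit 4) .nil .nil))) 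
(.lf (nat_lit 41890) (.g (nat_lit 3303) (.e (nat_lit 1238) (nat_lit 91) (.e (nat_lit 90160) (nat_lit 11) (.e (nat_lit 24644) (nat_lit 11) (.e (nat_lit 368676) (nat_lit 21) (.e (nat_lit 516179) (nat_lit 15) (.e (nat_lit 475201) (nat_lit 40) (.e (nat_lit 704620) (nat_lit 9) .nil))))))) (.g (nat_lit 0) .nil .nil)))) (.nd (nat_lit 5) 
(.lf (nat_lit 41874) (.g (nat_lit 1749) (.e (nat_lit 1238) (nat_lit 91) (.e (nat_lit 90160) (nat_lit 11) (.e (nat_lit 24628) (nat_lit 9) (.e (nat_lit 336019) (nat_lit 3) (.e (nat_lit 98384) (nat_lit 32) .nil))))) .nil)) 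
(.lf (nat_lit 41906) (.g (nat_lit 2102) (.e (nat_lit 1238) (nat_lit 91) (.e (nat_lit 90172) (nat_lit 14) (.e (nat_lit 180243) (nat_lit 5) (.e (nat_lit 532515) (nat_lit 3) (.e (nat_lit 114716) (nat_lit 22) (.e (nat_lit 90164) (nat_lit 12) (.e (nat_lit 164006) (nat_lit 41) (.e (nat_lit 671488) (nat_lit 0) .nil)))))))) (.g (nat_lit 4) .nil .nil))))) (.nd (nat_lit 4) (.nd (nat_lit 5) 
(.lf (nat_lit 41866) (.g (nat_lit 2135) (.e (nat_lit 1238) (nat_lit 91) (.e (nat_lit 90158) (nat_lit 11) (.e (nat_lit 24628) (nat_lit 9) (.e (nat_lit 336019) (nat_lit 3) (.e (nat_lit 98384) (nat_lit 32) (.e (nat_lit 475201) (nat_lit 40) (.e (nat_lit 704655) (nat_lit 9) .nil))))))) (.g (nat_lit 4) .nil .nil))) 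
(.lf (nat_lit 41898) (.g (nat_lit 2509) (.e (nat_lit 1238) (nat_lit 91) (.e (nat_lit 90170) (nat_lit 13) (.e (nat_lit 172113) (nat_lit 10) (.e (nat_lit 434245) (nat_lit 28) (.e (nat_lit 573451) (nat_lit 9) .nil))))) .nil))) (.nd (nat_lit 5) 
(.lf (nat_lit 41882) (.g (nat_lit 2316) (.e (nat_lit 1238) (nat_lit 91) (.e (nat_lit 90160) (nat_lit 11) (.e (nat_lit 24638) (nat_lit 9) (.e (nat_lit 336027) (nat_lit 3) (.e (nat_lit 98384) (nat_lit 32) .nil))))) .nil)) 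
(.lf (nat_lit 41914) (.g (nat_lit 1029) (.e (nat_lit 1238) (nat_lit 91) (.e (nat_lit 90172) (nat_lit 14) (.e (nat_lit 180244) (nat_lit 5) (.e (nat_lit 532515) (nat_lit 3) .nil)))) .nil))))) (.nd (nat_lit 3) (.nd (nat_lit 4) (.nd (nat_lit 5) 
(.lf (nat_lit 41862) (.g (nat_lit 2773) (.e (nat_lit 1237) (nat_lit 91) (.e (nat_lit 90203) (nat_lit 21) (.e (nat_lit 164358) (nat_lit 246) (.e (nat_lit 100) (nat_lit 2) (.e (nat_lit 90174) (nat_lit 14) (.e (nat_lit 180243) (nat_lit 5) (.e (nat_lit 532508) (nat_lit 2) (.e (nat_lit 106517) (nat_lit 9) .nil)))))))) (.g (nat_lit 7) .nil .nil))) 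
(.lf (nat_lit 41894) (.g (nat_lit 1372) (.e (nat_lit 1238) (nat_lit 91) (.e (nat_lit 90169) (nat_lit 13) (.e (nat_lit 172133) (nat_lit 15) (.e (nat_lit 2175) (nat_lit 143) (.e (nat_lit 712745) (nat_lit 27) .nil))))) .nil))) (.nd (nat_lit 5) 
(.lf (nat_lit 41878) (.g (nat_lit 3217) (.e (nat_lit 1238) (nat_lit 91) (.e (nat_lit 90160) (nat_lit 11) (.e (nat_lit 24636) (nat_lit 9) (.e (nat_lit 336017) (nat_lit 3) (.e (nat_lit 98384) (nat_lit 32) (.e (nat_lit 475201) (nat_lit 40) (.e (nat_lit 704620) (nat_lit 9) .nil))))))) (.g (nat_lit 6) .nil .nil))) 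
(.lf (nat_lit 41910) (.g (nat_lit 3883) (.e (nat_lit 1238) (nat_lit 91) (.e (nat_lit 90172) (nat_lit 14) (.e (nat_lit 180244) (nat_lit 5) (.e (nat_lit 532513) (nat_lit 3) (.e (nat_lit 114714) (nat_lit 22) (.e (nat_lit 90162) (nat_lit 12) (.e (nat_lit 164007) (nat_lit 41) (.e (nat_lit 671488) (nat_lit 0) .nil)))))))) (.g (nat_lit 7) .nil .nil))))) (.nd (nat_lit 4) (.nd (nat_lit 5) 
(.lf (nat_lit 41870) (.g (nat_lit 1746) (.e (nat_lit 1238) (nat_lit 91) (.e (nat_lit 90160) (nat_lit 11) (.e (nat_lit 24628) (nat_lit 9) (.e (nat_lit 336019) (nat_lit 3) (.e (nat_lit 98356) (nat_lit 26) .nil))))) .nil)) 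
(.lf (nat_lit 41902) (.g (nat_lit 3604) (.e (nat_lit 1238) (nat_lit 91) (.e (nat_lit 90172) (nat_lit 14) (.e (nat_lit 180243) (nat_lit 5) (.e (nat_lit 532513) (nat_lit 3) (.e (nat_lit 114714) (nat_lit 22) (.e (nat_lit 90162) (nat_lit 12) (.e (nat_lit 164007) (nat_lit 41) (.e (nat_lit 671488) (nat_lit 0) .nil)))))))) (.g (nat_lit 7) .nil .nil)))) (.nd (nat_lit 5) 
(.lf (nat_lit 41886) (.g (nat_lit 1860) (.e (nat_lit 1238) (nat_lit 91) (.e (nat_lit 90160) (nat_lit 11) (.e (nat_lit 24643) (nat_lit 11) (.e (nat_lit 368676) (nat_lit 21) (.e (nat_lit 516146) (nat_lit 9) (.e (nat_lit 426440) (nat_lit 19) (.e (nat_lit 106504) (nat_lit 9) .nil))))))) (.g (nat_lit 4) .nil .nil))) 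
(.lf (nat_lit 41918) (.g (nat_lit 2974) (.e (nat_lit 1238) (nat_lit 91) (.e (nat_lit 90172) (nat_lit 14) (.e (nat_lit 180244) (nat_lit 5) (.e (nat_lit 532515) (nat_lit 3) (.e (nat_lit 114716) (nat_lit 22) (.e (nat_lit 90162) (nat_lit 12) (.e (nat_lit 164007) (nat_lit 41) (.e (nat_lit 671488) (nat_lit 0) .nil)))))))) (.g (nat_lit 7) .nil .nil)))))))) 
(.nd (nat_lit 1) (.nd (nat_lit 2) (.nd (nat_lit 3) (.nd (nat_lit 4) (.nd (nat_lit 5) 
(.lf (nat_lit 41857) (.g (nat_lit 707) (.e (nat_lit 1237) (nat_lit 91) (.e (nat_lit 90176) (nat_lit 15) (.e (nat_lit 188420) (nat_lit 0) .nil))) .nil)) 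
(.lf (nat_lit 41889) (.g (nat_lit 1026) (.e (nat_lit 1238) (nat_lit 91) (.e (nat_lit 90160) (nat_lit 11) (.e (nat_lit 24644) (nat_lit 11) (.e (nat_lit 368676) (nat_lit 21) .nil)))) .nil))) (.nd (nat_lit 5) 
(.lf (nat_lit 41873) (.g (nat_lit 1797) (.e (nat_lit 1238) (nat_lit 91) (.e (nat_lit 90160) (nat_lit 11) (.e (nat_lit 24628) (nat_lit 9) (.e (nat_lit 336019) (nat_lit 3) (.e (nat_lit 98358) (nat_lit 26) .nil))))) .nil)) 
(.lf (nat_lit 41905) (.g (nat_lit 1960) (.e (nat_lit 1238) (nat_lit 91) (.e (nat_lit 90172) (nat_lit 14) (.e (nat_lit 180243) (nat_lit 5) (.e (nat_lit 532515) (nat_lit 3) (.e (nat_lit 114716) (nat_lit 22) (.e (nat_lit 90162) (nat_lit 12) (.e (nat_lit 164007) (nat_lit 41) (.e (nat_lit 671488) (nat_lit 0) .nil)))))))) (.g (nat_lit 4) .nil .nil))))) (.nd (nat_lit 4) (.nd (nat_lit 5) 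
(.lf (nat_lit 41865) (.g (nat_lit 3147) (.e (nat_lit 1238) (nat_lit 91) (.e (nat_lit 90158) (nat_lit 11) (.e (nat_lit 24628) (nat_lit 9) (.e (nat_lit 336019) (nat_lit 3) (.e (nat_lit 98384) (nat_lit 32) (.e (nat_lit 475201) (nat_lit 40) (.e (nat_lit 704620) (nat_lit 9) .nil))))))) (.g (nat_lit 5) .nil .nil))) 
(.lf (nat_lit 41897) (.g (nat_lit 2596) (.e (nat_lit 1238) (nat_lit 91) (.e (nat_lit 90170) (nat_lit 13) (.e (nat_lit 172106) (nat_lit 10) (.e (nat_lit 434244) (nat_lit 28) (.e (nat_lit 573450) (nat_lit 9) .nil))))) .nil))) (.nd (nat_lit 5) 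
(.lf (nat_lit 41881) (.g (nat_lit 3050) (.e (nat_lit 1238) (nat_lit 91) (.e (nat_lit 90160) (nat_lit 11) (.e (nat_lit 24638) (nat_lit 9) (.e (nat_lit 336012) (nat_lit 2) (.e (nat_lit 90172) (nat_lit 14) (.e (nat_lit 188160) (nat_lit 19) (.e (nat_lit 647195) (nat_lit 9) .nil))))))) (.g (nat_lit 5) .nil .nil))) 
(.lf (nat_lit 41913) (.g (nat_lit 2143) (.e (nat_lit 1238) (nat_lit 91) (.e (nat_lit 90172) (nat_lit 14) (.e (nat_lit 180244) (nat_lit 5) (.e (nat_lit 532513) (nat_lit 3) (.e (nat_lit 114714) (nat_lit 22) (.e (nat_lit 90165) (nat_lit 12) (.e (nat_lit 164010) (nat_lit 41) (.e (nat_lit 671488) (nat_lit 0) .nil)))))))) (.g (nat_lit 4) .nil .nil)))))) 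
(.nd (nat_lit 3) (.nd (nat_lit 4) (.nd (nat_lit 5) 
(.lf (nat_lit 41861) (.g (nat_lit 2807) (.e (nat_lit 1237) (nat_lit 91) (.e (nat_lit 90203) (nat_lit 21) (.e (nat_lit 164358) (nat_lit 246) (.e (nat_lit 100) (nat_lit 2) (.e (nat_lit 90170) (nat_lit 13) (.e (nat_lit 172065) (nat_lit 3) (.e (nat_lit 204834) (nat_lit 19) (.e (nat_lit 106517) (nat_lit 9) .nil)))))))) (.g (nat_lit 7) .nil .nil))) 
(.lf (nat_lit 41893) (.g (nat_lit 4297) (.e (nat_lit 1238) (nat_lit 91) (.e (nat_lit 90167) (nat_lit 13) (.e (nat_lit 172126) (nat_lit 14) (.e (nat_lit 491537) (nat_lit 2) (.e (nat_lit 90185) (nat_lit 17) (.e (nat_lit 237569) (nat_lit 0) (.e (nat_lit 7540) (nat_lit 402) .nil))))))) (.g (nat_lit 5) .nil .nil)))) (.nd (nat_lit 5) 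
(.lf (nat_lit 41877) (.g (nat_lit 3089) (.e (nat_lit 1238) (nat_lit 91) (.e (nat_lit 90160) (nat_lit 11) (.e (nat_lit 24628) (nat_lit 9) (.e (nat_lit 336019) (nat_lit 3) (.e (nat_lit 98384) (nat_lit 32) (.e (nat_lit 475201) (nat_lit 40) (.e (nat_lit 704655) (nat_lit 9) .nil))))))) (.g (nat_lit 5) .nil .nil))) 
(.lf (nat_lit 41909) (.g (nat_lit 3670) (.e (nat_lit 1238) (nat_lit 91) (.e (nat_lit 90172) (nat_lit 14) (.e (nat_lit 180244) (nat_lit 5) (.e (nat_lit 532513) (nat_lit 3) (.e (nat_lit 114714) (nat_lit 22) (.e (nat_lit 90162) (nat_lit 12) (.e (nat_lit 164007) (nat_lit 41) (.e (nat_lit 663560) (nat_lit 0) .nil)))))))) (.g (nat_lit 6) .nil .nil))))) (.nd (nat_lit 4) (.nd (nat_lit 5) 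
(.lf (nat_lit 41869) (.g (nat_lit 555) (.e (nat_lit 1238) (nat_lit 91) (.e (nat_lit 90160) (nat_lit 11) (.e (nat_lit 24628) (nat_lit 9) .nil))) .nil)) 
(.lf (nat_lit 41901) (.g (nat_lit 3367) (.e (nat_lit 1238) (nat_lit 91) (.e (nat_lit 90172) (nat_lit 14) (.e (nat_lit 180243) (nat_lit 5) (.e (nat_lit 532513) (nat_lit 3) (.e (nat_lit 114714) (nat_lit 22) (.e (nat_lit 90162) (nat_lit 12) (.e (nat_lit 164007) (nat_lit 41) (.e (nat_lit 663560) (nat_lit 0) .nil)))))))) (.g (nat_lit 6) .nil .nil)))) (.nd (nat_lit 5) 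
(.lf (nat_lit 41885) (.g (nat_lit 590) (.e (nat_lit 1238) (nat_lit 91) (.e (nat_lit 90160) (nat_lit 11) (.e (nat_lit 24643) (nat_lit 11) .nil))) .nil)) 
(.lf (nat_lit 41917) (.g (nat_lit 2768) (.e (nat_lit 1238) (nat_lit 91) (.e (nat_lit 90172) (nat_lit 14) (.e (nat_lit 180244) (nat_lit 5) (.e (nat_lit 532515) (nat_lit 3) (.e (nat_lit 114716) (nat_lit 22) (.e (nat_lit 90162) (nat_lit 12) (.e (nat_lit 164007) (nat_lit 41) (.e (nat_lit 663560) (nat_lit 0) .nil)))))))) (.g (nat_lit 7) .nil .nil))))))) 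
(.nd (nat_lit 2) (.nd (nat_lit 3) (.nd (nat_lit 4) (.nd (nat_lit 5) 
(.lf (nat_lit 41859) (.g (nat_lit 4594) (.e (nat_lit 1237) (nat_lit 91) (.e (nat_lit 90176) (nat_lit 15) (.e (nat_lit 188452) (nat_lit 23) (.e (nat_lit 204846) (nat_lit 24) (.e (nat_lit 319504) (nat_lit 10) .nil))))) .nil)) 
(.lf (nat_lit 41891) (.g (nat_lit 2227) (.e (nat_lit 1238) (nat_lit 91) (.e (nat_lit 90160) (nat_lit 11) (.e (nat_lit 24644) (nat_lit 11) (.e (nat_lit 368676) (nat_lit 21) (.e (nat_lit 516179) (nat_lit 15) (.e (nat_lit 475201) (nat_lit 40) (.e (nat_lit 704655) (nat_lit 9) .nil))))))) (.g (nat_lit 5) .nil .nil)))) (.nd (nat_lit 5) 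
(.lf (nat_lit 41875) (.g (nat_lit 2007) (.e (nat_lit 1238) (nat_lit 91) (.e (nat_lit 90160) (nat_lit 11) (.e (nat_lit 24628) (nat_lit 9) (.e (nat_lit 336019) (nat_lit 3) (.e (nat_lit 98384) (nat_lit 32) (.e (nat_lit 475199) (nat_lit 40) (.e (nat_lit 704707) (nat_lit 9) .nil))))))) (.g (nat_lit 4) .nil .nil))) 
(.lf (nat_lit 41907) (.g (nat_lit 465) (.e (nat_lit 1238) (nat_lit 91) (.e (nat_lit 90172) (nat_lit 14) (.e (nat_lit 180244) (nat_lit 5) .nil))) .nil)))) (.nd (nat_lit 4) (.nd (nat_lit 5) 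
(.lf (nat_lit 41867) (.g (nat_lit 809) (.e (nat_lit 1238) (nat_lit 91) (.e (nat_lit 90158) (nat_lit 11) (.e (nat_lit 24643) (nat_lit 11) (.e (nat_lit 368676) (nat_lit 21) .nil)))) .nil)) 
(.lf (nat_lit 41899) (.g (nat_lit 2696) (.e (nat_lit 1238) (nat_lit 91) (.e (nat_lit 90170) (nat_lit 13) (.e (nat_lit 172113) (nat_lit 10) (.e (nat_lit 434245) (nat_lit 28) (.e (nat_lit 573471) (nat_lit 11) (.e (nat_lit 16388) (nat_lit 0) (.e (nat_lit 7545) (nat_lit 402) .nil))))))) (.g (nat_lit 4) .nil .nil)))) (.nd (nat_lit 5) 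
(.lf (nat_lit 41883) (.g (nat_lit 995) (.e (nat_lit 1238) (nat_lit 91) (.e (nat_lit 90160) (nat_lit 11) (.e (nat_lit 24640) (nat_lit 10) .nil))) .nil)) 
(.lf (nat_lit 41915) (.g (nat_lit 1799) (.e (nat_lit 1238) (nat_lit 91) (.e (nat_lit 90172) (nat_lit 14) (.e (nat_lit 180244) (nat_lit 5) (.e (nat_lit 532515) (nat_lit 3) (.e (nat_lit 114715) (nat_lit 22) (.e (nat_lit 90165) (nat_lit 12) (.e (nat_lit 164010) (nat_lit 41) (.e (nat_lit 671488) (nat_lit 0) .nil)))))))) (.g (nat_lit 4) .nil .nil)))))) 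
(.nd (nat_lit 3) (.nd (nat_lit 4) (.nd (nat_lit 5) 
(.lf (nat_lit 41863) (.g (nat_lit 1286) (.e (nat_lit 1238) (nat_lit 91) (.e (nat_lit 90128) (nat_lit 9) (.e (nat_lit 314) (nat_lit 23) (.e (nat_lit 352313) (nat_lit 23) .nil)))) .nil)) 
(.lf (nat_lit 41895) (.g (nat_lit 761) (.e (nat_lit 1238) (nat_lit 91) (.e (nat_lit 90170) (nat_lit 13) (.e (nat_lit 172106) (nat_lit 10) .nil))) .nil))) (.nd (nat_lit 5) 
(.lf (nat_lit 41879) (.g (nat_lit 2268) (.e (nat_lit 1238) (nat_lit 91) (.e (nat_lit 90160) (nat_lit 11) (.e (nat_lit 24636) (nat_lit 9) (.e (nat_lit 336017) (nat_lit 3) (.e (nat_lit 98384) (nat_lit 32) (.e (nat_lit 475201) (nat_lit 40) (.e (nat_lit 704655) (nat_lit 9) .nil))))))) (.g (nat_lit 5) .nil .nil))) 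
(.lf (nat_lit 41911) (.g (nat_lit 2999) (.e (nat_lit 1238) (nat_lit 91) (.e (nat_lit 90172) (nat_lit 14) (.e (nat_lit 180244) (nat_lit 5) (.e (nat_lit 532513) (nat_lit 3) (.e (nat_lit 114714) (nat_lit 22) (.e (nat_lit 90162) (nat_lit 12) (.e (nat_lit 164010) (nat_lit 41) (.e (nat_lit 671488) (nat_lit 0) .nil)))))))) (.g (nat_lit 5) .nil .nil))))) (.nd (nat_lit 4) (.nd (nat_lit 5) 
(.lf (nat_lit 41871) (.g (nat_lit 2048) (.e (nat_lit 1238) (nat_lit 91) (.e (nat_lit 90160) (nat_lit 11) (.e (nat_lit 24628) (nat_lit 9) (.e (nat_lit 336019) (nat_lit 3) (.e (nat_lit 98356) (nat_lit 26) (.e (nat_lit 426440) (nat_lit 19) (.e (nat_lit 106504) (nat_lit 9) .nil))))))) (.g (nat_lit 4) .nil .nil))) 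
(.lf (nat_lit 41903) (.g (nat_lit 2720) (.e (nat_lit 1238) (nat_lit 91) (.e (nat_lit 90172) (nat_lit 14) (.e (nat_lit 180243) (nat_lit 5) (.e (nat_lit 532513) (nat_lit 3) (.e (nat_lit 114714) (nat_lit 22) (.e (nat_lit 90162) (nat_lit 12) (.e (nat_lit 164010) (nat_lit 41) (.e (nat_lit 671488) (nat_lit 0) .nil)))))))) (.g (nat_lit 5) .nil .nil)))) (.nd (nat_lit 5) 
(.lf (nat_lit 41887) (.g (nat_lit 3164) (.e (nat_lit 1238) (nat_lit 91) (.e (nat_lit 90160) (nat_lit 11) (.e (nat_lit 24643) (nat_lit 11) (.e (nat_lit 368676) (nat_lit 21) (.e (nat_lit 516179) (nat_lit 15) (.e (nat_lit 475201) (nat_lit 40) (.e (nat_lit 704620) (nat_lit 9) .nil))))))) (.g (nat_lit 7) .nil .nil))) 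
(.lf (nat_lit 41919) (.g (nat_lit 2035) (.e (nat_lit 1238) (nat_lit 91) (.e (nat_lit 90172) (nat_lit 14) (.e (nat_lit 180244) (nat_lit 5) (.e (nat_lit 532515) (nat_lit 3) (.e (nat_lit 114716) (nat_lit 22) (.e (nat_lit 90162) (nat_lit 12) (.e (nat_lit 164010) (nat_lit 41) (.e (nat_lit 671488) (nat_lit 0) .nil)))))))) (.g (nat_lit 5) .nil .nil)))))))))

noncomputable def tv582 : DT := (.nd (nat_lit 0) (.nd (nat_lit 1) (.nd (nat_lit 2) (.nd (nat_lit 3) (.nd (nat_lit 4) (.nd (nat_lit 5) 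
(.lf (nat_lit 41920) (.g (nat_lit 2126) (.e (nat_lit 1238) (nat_lit 91) (.e (nat_lit 90172) (nat_lit 14) (.e (nat_lit 180244) (nat_lit 5) (.e (nat_lit 532515) (nat_lit 3) (.e (nat_lit 114716) (nat_lit 22) (.e (nat_lit 90163) (nat_lit 12) (.e (nat_lit 164006) (nat_lit 41) (.e (nat_lit 671488) (nat_lit 0) .nil)))))))) (.g (nat_lit 5) .nil .nil))) 
(.lf (nat_lit 41952) (.g (nat_lit 3580) (.e (nat_lit 1238) (nat_lit 91) (.e (nat_lit 90172) (nat_lit 14) (.e (nat_lit 180250) (nat_lit 10) (.e (nat_lit 573487) (nat_lit 14) (.e (nat_lit 73753) (nat_lit 8) (.e (nat_lit 557093) (nat_lit 12) (.e (nat_lit 164008) (nat_lit 41) (.e (nat_lit 671488) (nat_lit 0) .nil)))))))) (.g (nat_lit 5) .nil .nil)))) (.nd (nat_lit 5) 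
(.lf (nat_lit 41936) (.g (nat_lit 2996) (.e (nat_lit 1238) (nat_lit 91) (.e (nat_lit 90172) (nat_lit 14) (.e (nat_lit 180250) (nat_lit 10) (.e (nat_lit 573487) (nat_lit 14) (.e (nat_lit 73753) (nat_lit 8) (.e (nat_lit 557090) (nat_lit 12) (.e (nat_lit 164004) (nat_lit 41) (.e (nat_lit 671488) (nat_lit 0) .nil)))))))) (.g (nat_lit 4) .nil .nil))) 
(.lf (nat_lit 41968) (.g (nat_lit 2233) (.e (nat_lit 1238) (nat_lit 91) (.e (nat_lit 90172) (nat_lit 14) (.e (nat_lit 180252) (nat_lit 10) (.e (nat_lit 573489) (nat_lit 14) (.e (nat_lit 73755) (nat_lit 8) .nil))))) .nil)))) (.nd (nat_lit 4) (.nd (nat_lit 5) 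
(.lf (nat_lit 41928) (.g (nat_lit 2498) (.e (nat_lit 1238) (nat_lit 91) (.e (nat_lit 90172) (nat_lit 14) (.e (nat_lit 180250) (nat_lit 10) (.e (nat_lit 573487) (nat_lit 14) (.e (nat_lit 73753) (nat_lit 8) .nil))))) .nil)) 
(.lf (nat_lit 41960) (.g (nat_lit 2740) (.e (nat_lit 1238) (nat_lit 91) (.e (nat_lit 90172) (nat_lit 14) (.e (nat_lit 180250) (nat_lit 10) (.e (nat_lit 573489) (nat_lit 14) (.e (nat_lit 73755) (nat_lit 8) (.e (nat_lit 557089) (nat_lit 12) (.e (nat_lit 164006) (nat_lit 41) (.e (nat_lit 663559) (nat_lit 0) .nil)))))))) (.g (nat_lit 4) .nil .nil)))) (.nd (nat_lit 5) 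
(.lf (nat_lit 41944) (.g (nat_lit 2864) (.e (nat_lit 1238) (nat_lit 91) (.e (nat_lit 90172) (nat_lit 14) (.e (nat_lit 180250) (nat_lit 10) (.e (nat_lit 573487) (nat_lit 14) (.e (nat_lit 73753) (nat_lit 8) (.e (nat_lit 557091) (nat_lit 12) (.e (nat_lit 164005) (nat_lit 41) (.e (nat_lit 663559) (nat_lit 0) .nil)))))))) (.g (nat_lit 4) .nil .nil))) 
(.lf (nat_lit 41976) (.g (nat_lit 1564) (.e (nat_lit 1238) (nat_lit 91) (.e (nat_lit 90172) (nat_lit 14) (.e (nat_lit 180276) (nat_lit 32) (.e (nat_lit 1077) (nat_lit 81) (.e (nat_lit 1796) (nat_lit 119) (.e (nat_lit 516170) (nat_lit 13) (.e (nat_lit 466688) (nat_lit 0) .nil))))))) (.g (nat_lit 5) .nil .nil)))))) (.nd (nat_lit 3) (.nd (nat_lit 4) (.nd (nat_lit 5) 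
(.lf (nat_lit 41924) (.g (nat_lit 2470) (.e (nat_lit 1238) (nat_lit 91) (.e (nat_lit 90172) (nat_lit 14) (.e (nat_lit 180250) (nat_lit 10) (.e (nat_lit 573487) (nat_lit 14) (.e (nat_lit 73746) (nat_lit 3) .nil))))) .nil)) 
(.lf (nat_lit 41956) (.g (nat_lit 2961) (.e (nat_lit 1238) (nat_lit 91) (.e (nat_lit 90172) (nat_lit 14) (.e (nat_lit 180250) (nat_lit 10) (.e (nat_lit 573488) (nat_lit 14) (.e (nat_lit 73755) (nat_lit 8) (.e (nat_lit 557090) (nat_lit 12) (.e (nat_lit 164007) (nat_lit 41) (.e (nat_lit 663560) (nat_lit 0) .nil)))))))) (.g (nat_lit 4) .nil .nil)))) (.nd (nat_lit 5) 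
(.lf (nat_lit 41940) (.g (nat_lit 5200) (.e (nat_lit 1238) (nat_lit 91) (.e (nat_lit 90172) (nat_lit 14) (.e (nat_lit 180250) (nat_lit 10) (.e (nat_lit 573487) (nat_lit 14) (.e (nat_lit 73753) (nat_lit 8) (.e (nat_lit 557090) (nat_lit 12) (.e (nat_lit 164006) (nat_lit 41) (.e (nat_lit 671488) (nat_lit 0) .nil)))))))) (.g (nat_lit 7) .nil .nil))) 
(.lf (nat_lit 41972) (.g (nat_lit 2581) (.e (nat_lit 1238) (nat_lit 91) (.e (nat_lit 90172) (nat_lit 14) (.e (nat_lit 180252) (nat_lit 10) (.e (nat_lit 573489) (nat_lit 14) (.e (nat_lit 73755) (nat_lit 8) (.e (nat_lit 557090) (nat_lit 12) (.e (nat_lit 164008) (nat_lit 41) (.e (nat_lit 671488) (nat_lit 0) .nil)))))))) (.g (nat_lit 4) .nil .nil))))) (.nd (nat_lit 4) (.nd (nat_lit 5) 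
(.lf (nat_lit 41932) (.g (nat_lit 4872) (.e (nat_lit 1238) (nat_lit 91) (.e (nat_lit 90172) (nat_lit 14) (.e (nat_lit 180250) (nat_lit 10) (.e (nat_lit 573487) (nat_lit 14) (.e (nat_lit 73753) (nat_lit 8) (.e (nat_lit 557089) (nat_lit 12) (.e (nat_lit 164006) (nat_lit 41) (.e (nat_lit 671488) (nat_lit 0) .nil)))))))) (.g (nat_lit 7) .nil .nil))) 
(.lf (nat_lit 41964) (.g (nat_lit 2887) (.e (nat_lit 1238) (nat_lit 91) (.e (nat_lit 90172) (nat_lit 14) (.e (nat_lit 180250) (nat_lit 10) (.e (nat_lit 573489) (nat_lit 14) (.e (nat_lit 73755) (nat_lit 8) (.e (nat_lit 557091) (nat_lit 12) (.e (nat_lit 164007) (nat_lit 41) (.e (nat_lit 663560) (nat_lit 0) .nil)))))))) (.g (nat_lit 4) .nil .nil)))) (.nd (nat_lit 5) 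
(.lf (nat_lit 41948) (.g (nat_lit 5102) (.e (nat_lit 1238) (nat_lit 91) (.e (nat_lit 90172) (nat_lit 14) (.e (nat_lit 180250) (nat_lit 10) (.e (nat_lit 573487) (nat_lit 14) (.e (nat_lit 73753) (nat_lit 8) (.e (nat_lit 557091) (nat_lit 12) (.e (nat_lit 164006) (nat_lit 41) (.e (nat_lit 671488) (nat_lit 0) .nil)))))))) (.g (nat_lit 7) .nil .nil))) 
(.lf (nat_lit 41980) (.g (nat_lit 2626) (.e (nat_lit 1238) (nat_lit 91) (.e (nat_lit 90172) (nat_lit 14) (.e (nat_lit 180278) (nat_lit 32) (.e (nat_lit 1252) (nat_lit 92) (.e (nat_lit 98367) (nat_lit 27) (.e (nat_lit 442112) (nat_lit 0) .nil)))))) (.g (nat_lit 5) .nil .nil))))))) (.nd (nat_lit 2) (.nd (nat_lit 3) (.nd (nat_lit 4) (.nd (nat_lit 5) 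
(.lf (nat_lit 41922) (.g (nat_lit 3044) (.e (nat_lit 1238) (nat_lit 91) (.e (nat_lit 90172) (nat_lit 14) (.e (nat_lit 180244) (nat_lit 5) (.e (nat_lit 532515) (nat_lit 3) (.e (nat_lit 114716) (nat_lit 22) (.e (nat_lit 90164) (nat_lit 12) (.e (nat_lit 164006) (nat_lit 41) (.e (nat_lit 671488) (nat_lit 0) .nil)))))))) (.g (nat_lit 7) .nil .nil))) 
(.lf (nat_lit 41954) (.g (nat_lit 3990) (.e (nat_lit 1238) (nat_lit 91) (.e (nat_lit 90172) (nat_lit 14) (.e (nat_lit 180250) (nat_lit 10) (.e (nat_lit 573487) (nat_lit 14) (.e (nat_lit 73753) (nat_lit 8) (.e (nat_lit 557093) (nat_lit 12) (.e (nat_lit 164010) (nat_lit 41) (.e (nat_lit 671488) (nat_lit 0) .nil)))))))) (.g (nat_lit 5) .nil .nil)))) (.nd (nat_lit 5) 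
(.lf (nat_lit 41938) (.g (nat_lit 4133) (.e (nat_lit 1238) (nat_lit 91) (.e (nat_lit 90172) (nat_lit 14) (.e (nat_lit 180250) (nat_lit 10) (.e (nat_lit 573487) (nat_lit 14) (.e (nat_lit 73753) (nat_lit 8) (.e (nat_lit 557090) (nat_lit 12) (.e (nat_lit 164006) (nat_lit 41) (.e (nat_lit 663559) (nat_lit 0) .nil)))))))) (.g (nat_lit 6) .nil .nil))) 
(.lf (nat_lit 41970) (.g (nat_lit 2372) (.e (nat_lit 1238) (nat_lit 91) (.e (nat_lit 90172) (nat_lit 14) (.e (nat_lit 180252) (nat_lit 10) (.e (nat_lit 573489) (nat_lit 14) (.e (nat_lit 73755) (nat_lit 8) (.e (nat_lit 557090) (nat_lit 12) (.e (nat_lit 164005) (nat_lit 41) (.e (nat_lit 671488) (nat_lit 0) .nil)))))))) (.g (nat_lit 4) .nil .nil))))) (.nd (nat_lit 4) (.nd (nat_lit 5) 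
(.lf (nat_lit 41930) (.g (nat_lit 3486) (.e (nat_lit 1238) (nat_lit 91) (.e (nat_lit 90172) (nat_lit 14) (.e (nat_lit 180250) (nat_lit 10) (.e (nat_lit 573487) (nat_lit 14) (.e (nat_lit 73753) (nat_lit 8) (.e (nat_lit 557089) (nat_lit 12) (.e (nat_lit 164005) (nat_lit 41) (.e (nat_lit 671488) (nat_lit 0) .nil)))))))) (.g (nat_lit 5) .nil .nil))) 
(.lf (nat_lit 41962) (.g (nat_lit 3587) (.e (nat_lit 1238) (nat_lit 91) (.e (nat_lit 90172) (nat_lit 14) (.e (nat_lit 180250) (nat_lit 10) (.e (nat_lit 573489) (nat_lit 14) (.e (nat_lit 73755) (nat_lit 8) (.e (nat_lit 557089) (nat_lit 12) (.e (nat_lit 164010) (nat_lit 41) (.e (nat_lit 671488) (nat_lit 0) .nil)))))))) (.g (nat_lit 5) .nil .nil)))) (.nd (nat_lit 5) 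
(.lf (nat_lit 41946) (.g (nat_lit 4586) (.e (nat_lit 1238) (nat_lit 91) (.e (nat_lit 90172) (nat_lit 14) (.e (nat_lit 180250) (nat_lit 10) (.e (nat_lit 573487) (nat_lit 14) (.e (nat_lit 73753) (nat_lit 8) (.e (nat_lit 557091) (nat_lit 12) (.e (nat_lit 164005) (nat_lit 41) (.e (nat_lit 671488) (nat_lit 0) .nil)))))))) (.g (nat_lit 6) .nil .nil))) 
(.lf (nat_lit 41978) (.g (nat_lit 2430) (.e (nat_lit 1238) (nat_lit 91) (.e (nat_lit 90172) (nat_lit 14) (.e (nat_lit 180278) (nat_lit 32) (.e (nat_lit 1235) (nat_lit 91) (.e (nat_lit 90172) (nat_lit 14) (.e (nat_lit 188160) (nat_lit 32) .nil)))))) (.g (nat_lit 5) .nil .nil)))))) (.nd (nat_lit 3) (.nd (nat_lit 4) (.nd (nat_lit 5) 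
(.lf (nat_lit 41926) (.g (nat_lit 2961) (.e (nat_lit 1238) (nat_lit 91) (.e (nat_lit 90172) (nat_lit 14) (.e (nat_lit 180250) (nat_lit 10) (.e (nat_lit 573487) (nat_lit 14) (.e (nat_lit 73746) (nat_lit 3) (.e (nat_lit 516120) (nat_lit 1) (.e (nat_lit 164195) (nat_lit 158) (.e (nat_lit 1039) (nat_lit 81) .nil)))))))) (.g (nat_lit 4) .nil .nil))) 
(.lf (nat_lit 41958) (.g (nat_lit 2728) (.e (nat_lit 1238) (nat_lit 91) (.e (nat_lit 90172) (nat_lit 14) (.e (nat_lit 180250) (nat_lit 10) (.e (nat_lit 573489) (nat_lit 14) (.e (nat_lit 73755) (nat_lit 8) .nil))))) .nil))) (.nd (nat_lit 5) 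
(.lf (nat_lit 41942) (.g (nat_lit 2887) (.e (nat_lit 1238) (nat_lit 91) (.e (nat_lit 90172) (nat_lit 14) (.e (nat_lit 180250) (nat_lit 10) (.e (nat_lit 573487) (nat_lit 14) (.e (nat_lit 73753) (nat_lit 8) (.e (nat_lit 557090) (nat_lit 12) (.e (nat_lit 164010) (nat_lit 41) (.e (nat_lit 671488) (nat_lit 0) .nil)))))))) (.g (nat_lit 4) .nil .nil))) 
(.lf (nat_lit 41974) (.g (nat_lit 1823) (.e (nat_lit 1238) (nat_lit 91) (.e (nat_lit 90172) (nat_lit 14) (.e (nat_lit 180276) (nat_lit 32) (.e (nat_lit 1074) (nat_lit 81) (.e (nat_lit 1796) (nat_lit 119) (.e (nat_lit 516170) (nat_lit 13) (.e (nat_lit 466688) (nat_lit 0) .nil))))))) (.g (nat_lit 5) .nil .nil))))) (.nd (nat_lit 4) (.nd (nat_lit 5) 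
(.lf (nat_lit 41934) (.g (nat_lit 4373) (.e (nat_lit 1238) (nat_lit 91) (.e (nat_lit 90172) (nat_lit 14) (.e (nat_lit 180250) (nat_lit 10) (.e (nat_lit 573487) (nat_lit 14) (.e (nat_lit 73753) (nat_lit 8) (.e (nat_lit 557089) (nat_lit 12) (.e (nat_lit 164007) (nat_lit 41) (.e (nat_lit 663560) (nat_lit 0) .nil)))))))) (.g (nat_lit 6) .nil .nil))) 
(.lf (nat_lit 41966) (.g (nat_lit 2305) (.e (nat_lit 1238) (nat_lit 91) (.e (nat_lit 90172) (nat_lit 14) (.e (nat_lit 180251) (nat_lit 10) (.e (nat_lit 573489) (nat_lit 14) (.e (nat_lit 73755) (nat_lit 8) (.e (nat_lit 557089) (nat_lit 12) (.e (nat_lit 164007) (nat_lit 41) (.e (nat_lit 663560) (nat_lit 0) .nil)))))))) (.g (nat_lit 4) .nil .nil)))) (.nd (nat_lit 5) 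
(.lf (nat_lit 41950) (.g (nat_lit 3746) (.e (nat_lit 1238) (nat_lit 91) (.e (nat_lit 90172) (nat_lit 14) (.e (nat_lit 180250) (nat_lit 10) (.e (nat_lit 573487) (nat_lit 14) (.e (nat_lit 73753) (nat_lit 8) (.e (nat_lit 557091) (nat_lit 12) (.e (nat_lit 164007) (nat_lit 41) (.e (nat_lit 663560) (nat_lit 0) .nil)))))))) (.g (nat_lit 5) .nil .nil))) 
(.lf (nat_lit 41982) (.g (nat_lit 899) (.e (nat_lit 1238) (nat_lit 91) (.e (nat_lit 90172) (nat_lit 14) (.e (nat_lit 180278) (nat_lit 32) (.e (nat_lit 1253) (nat_lit 92) .nil)))) .nil))))))) (.nd (nat_lit 1) (.nd (nat_lit 2) (.nd (nat_lit 3) (.nd (nat_lit 4) (.nd (nat_lit 5) 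
(.lf (nat_lit 41921) (.g (nat_lit 1638) (.e (nat_lit 1238) (nat_lit 91) (.e (nat_lit 90172) (nat_lit 14) (.e (nat_lit 180244) (nat_lit 5) (.e (nat_lit 532515) (nat_lit 3) (.e (nat_lit 114716) (nat_lit 22) (.e (nat_lit 90164) (nat_lit 12) (.e (nat_lit 164006) (nat_lit 41) (.e (nat_lit 663559) (nat_lit 0) .nil)))))))) (.g (nat_lit 4) .nil .nil))) 
(.lf (nat_lit 41953) (.g (nat_lit 2876) (.e (nat_lit 1238) (nat_lit 91) (.e (nat_lit 90172) (nat_lit 14) (.e (nat_lit 180250) (nat_lit 10) (.e (nat_lit 573487) (nat_lit 14) (.e (nat_lit 73753) (nat_lit 8) (.e (nat_lit 557093) (nat_lit 12) (.e (nat_lit 164009) (nat_lit 41) (.e (nat_lit 671488) (nat_lit 0) .nil)))))))) (.g (nat_lit 4) .nil .nil)))) (.nd (nat_lit 5) 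
(.lf (nat_lit 41937) (.g (nat_lit 2893) (.e (nat_lit 1238) (nat_lit 91) (.e (nat_lit 90172) (nat_lit 14) (.e (nat_lit 180250) (nat_lit 10) (.e (nat_lit 573487) (nat_lit 14) (.e (nat_lit 73753) (nat_lit 8) (.e (nat_lit 557090) (nat_lit 12) (.e (nat_lit 164005) (nat_lit 41) (.e (nat_lit 663560) (nat_lit 0) .nil)))))))) (.g (nat_lit 4) .nil .nil))) 
(.lf (nat_lit 41969) (.g (nat_lit 2367) (.e (nat_lit 1238) (nat_lit 91) (.e (nat_lit 90172) (nat_lit 14) (.e (nat_lit 180252) (nat_lit 10) (.e (nat_lit 573489) (nat_lit 14) (.e (nat_lit 73755) (nat_lit 8) (.e (nat_lit 557090) (nat_lit 12) (.e (nat_lit 164004) (nat_lit 41) (.e (nat_lit 671488) (nat_lit 0) .nil)))))))) (.g (nat_lit 4) .nil .nil))))) (.nd (nat_lit 4) (.nd (nat_lit 5) 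
(.lf (nat_lit 41929) (.g (nat_lit 2511) (.e (nat_lit 1238) (nat_lit 91) (.e (nat_lit 90172) (nat_lit 14) (.e (nat_lit 180250) (nat_lit 10) (.e (nat_lit 573487) (nat_lit 14) (.e (nat_lit 73753) (nat_lit 8) (.e (nat_lit 557089) (nat_lit 12) (.e (nat_lit 164005) (nat_lit 41) (.e (nat_lit 663560) (nat_lit 0) .nil)))))))) (.g (nat_lit 4) .nil .nil))) 
(.lf (nat_lit 41961) (.g (nat_lit 3672) (.e (nat_lit 1238) (nat_lit 91) (.e (nat_lit 90172) (nat_lit 14) (.e (nat_lit 180250) (nat_lit 10) (.e (nat_lit 573489) (nat_lit 14) (.e (nat_lit 73755) (nat_lit 8) (.e (nat_lit 557089) (nat_lit 12) (.e (nat_lit 164007) (nat_lit 41) (.e (nat_lit 671488) (nat_lit 0) .nil)))))))) (.g (nat_lit 5) .nil .nil)))) (.nd (nat_lit 5) 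
(.lf (nat_lit 41945) (.g (nat_lit 3591) (.e (nat_lit 1238) (nat_lit 91) (.e (nat_lit 90172) (nat_lit 14) (.e (nat_lit 180250) (nat_lit 10) (.e (nat_lit 573487) (nat_lit 14) (.e (nat_lit 73753) (nat_lit 8) (.e (nat_lit 557091) (nat_lit 12) (.e (nat_lit 164005) (nat_lit 41) (.e (nat_lit 663560) (nat_lit 0) .nil)))))))) (.g (nat_lit 5) .nil .nil))) 
(.lf (nat_lit 41977) (.g (nat_lit 904) (.e (nat_lit 1238) (nat_lit 91) (.e (nat_lit 90172) (nat_lit 14) (.e (nat_lit 180278) (nat_lit 32) (.e (nat_lit 1235) (nat_lit 91) .nil)))) .nil))))) (.nd (nat_lit 3) (.nd (nat_lit 4) (.nd (nat_lit 5) 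
(.lf (nat_lit 41925) (.g (nat_lit 2557) (.e (nat_lit 1238) (nat_lit 91) (.e (nat_lit 90172) (nat_lit 14) (.e (nat_lit 180250) (nat_lit 10) (.e (nat_lit 573487) (nat_lit 14) (.e (nat_lit 73746) (nat_lit 3) (.e (nat_lit 516117) (nat_lit 1) (.e (nat_lit 164195) (nat_lit 158) (.e (nat_lit 982) (nat_lit 81) .nil)))))))) (.g (nat_lit 4) .nil .nil))) 
(.lf (nat_lit 41957) (.g (nat_lit 3312) (.e (nat_lit 1238) (nat_lit 91) (.e (nat_lit 90172) (nat_lit 14) (.e (nat_lit 180250) (nat_lit 10) (.e (nat_lit 573489) (nat_lit 14) (.e (nat_lit 73754) (nat_lit 8) (.e (nat_lit 557094) (nat_lit 12) (.e (nat_lit 164008) (nat_lit 41) (.e (nat_lit 671488) (nat_lit 0) .nil)))))))) (.g (nat_lit 4) .nil .nil)))) (.nd (nat_lit 5) 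
(.lf (nat_lit 41941) (.g (nat_lit 2752) (.e (nat_lit 1238) (nat_lit 91) (.e (nat_lit 90172) (nat_lit 14) (.e (nat_lit 180250) (nat_lit 10) (.e (nat_lit 573487) (nat_lit 14) (.e (nat_lit 73753) (nat_lit 8) (.e (nat_lit 557090) (nat_lit 12) (.e (nat_lit 164007) (nat_lit 41) (.e (nat_lit 663559) (nat_lit 0) .nil)))))))) (.g (nat_lit 4) .nil .nil))) 
(.lf (nat_lit 41973) (.g (nat_lit 2096) (.e (nat_lit 1238) (nat_lit 91) (.e (nat_lit 90172) (nat_lit 14) (.e (nat_lit 180276) (nat_lit 32) (.e (nat_lit 1074) (nat_lit 81) (.e (nat_lit 1796) (nat_lit 119) (.e (nat_lit 516161) (nat_lit 10) (.e (nat_lit 442112) (nat_lit 0) .nil))))))) (.g (nat_lit 6) .nil .nil))))) (.nd (nat_lit 4) (.nd (nat_lit 5) 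
(.lf (nat_lit 41933) (.g (nat_lit 3495) (.e (nat_lit 1238) (nat_lit 91) (.e (nat_lit 90172) (nat_lit 14) (.e (nat_lit 180250) (nat_lit 10) (.e (nat_lit 573487) (nat_lit 14) (.e (nat_lit 73753) (nat_lit 8) (.e (nat_lit 557089) (nat_lit 12) (.e (nat_lit 164007) (nat_lit 41) (.e (nat_lit 663559) (nat_lit 0) .nil)))))))) (.g (nat_lit 5) .nil .nil))) 
(.lf (nat_lit 41965) (.g (nat_lit 3103) (.e (nat_lit 1238) (nat_lit 91) (.e (nat_lit 90172) (nat_lit 14) (.e (nat_lit 180251) (nat_lit 10) (.e (nat_lit 573489) (nat_lit 14) (.e (nat_lit 73755) (nat_lit 8) (.e (nat_lit 557089) (nat_lit 12) (.e (nat_lit 164006) (nat_lit 41) (.e (nat_lit 671488) (nat_lit 0) .nil)))))))) (.g (nat_lit 5) .nil .nil)))) (.nd (nat_lit 5) 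
(.lf (nat_lit 41949) (.g (nat_lit 2881) (.e (nat_lit 1238) (nat_lit 91) (.e (nat_lit 90172) (nat_lit 14) (.e (nat_lit 180250) (nat_lit 10) (.e (nat_lit 573487) (nat_lit 14) (.e (nat_lit 73753) (nat_lit 8) (.e (nat_lit 557091) (nat_lit 12) (.e (nat_lit 164007) (nat_lit 41) (.e (nat_lit 663559) (nat_lit 0) .nil)))))))) (.g (nat_lit 4) .nil .nil))) 
(.lf (nat_lit 41981) (.g (nat_lit 1702) (.e (nat_lit 1238) (nat_lit 91) (.e (nat_lit 90172) (nat_lit 14) (.e (nat_lit 180278) (nat_lit 32) (.e (nat_lit 1252) (nat_lit 92) (.e (nat_lit 98368) (nat_lit 27) (.e (nat_lit 442112) (nat_lit 0) .nil)))))) (.g (nat_lit 4) .nil .nil))))))) (.nd (nat_lit 2) (.nd (nat_lit 3) (.nd (nat_lit 4) (.nd (nat_lit 5) 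
(.lf (nat_lit 41923) (.g (nat_lit 2313) (.e (nat_lit 1238) (nat_lit 91) (.e (nat_lit 90172) (nat_lit 14) (.e (nat_lit 180244) (nat_lit 5) (.e (nat_lit 532515) (nat_lit 3) (.e (nat_lit 114716) (nat_lit 22) (.e (nat_lit 90181) (nat_lit 16) (.e (nat_lit 229449) (nat_lit 41) (.e (nat_lit 663560) (nat_lit 0) .nil)))))))) (.g (nat_lit 5) .nil .nil))) 
(.lf (nat_lit 41955) (.g (nat_lit 4590) (.e (nat_lit 1238) (nat_lit 91) (.e (nat_lit 90172) (nat_lit 14) (.e (nat_lit 180250) (nat_lit 10) (.e (nat_lit 573487) (nat_lit 14) (.e (nat_lit 73753) (nat_lit 8) (.e (nat_lit 557094) (nat_lit 12) (.e (nat_lit 164008) (nat_lit 41) (.e (nat_lit 671488) (nat_lit 0) .nil)))))))) (.g (nat_lit 7) .nil .nil)))) (.nd (nat_lit 5) 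
(.lf (nat_lit 41939) (.g (nat_lit 2914) (.e (nat_lit 1238) (nat_lit 91) (.e (nat_lit 90172) (nat_lit 14) (.e (nat_lit 180250) (nat_lit 10) (.e (nat_lit 573487) (nat_lit 14) (.e (nat_lit 73753) (nat_lit 8) (.e (nat_lit 557090) (nat_lit 12) (.e (nat_lit 164006) (nat_lit 41) (.e (nat_lit 663560) (nat_lit 0) .nil)))))))) (.g (nat_lit 4) .nil .nil))) 
(.lf (nat_lit 41971) (.g (nat_lit 2602) (.e (nat_lit 1238) (nat_lit 91) (.e (nat_lit 90172) (nat_lit 14) (.e (nat_lit 180252) (nat_lit 10) (.e (nat_lit 573489) (nat_lit 14) (.e (nat_lit 73755) (nat_lit 8) (.e (nat_lit 557090) (nat_lit 12) (.e (nat_lit 164006) (nat_lit 41) (.e (nat_lit 671488) (nat_lit 0) .nil)))))))) (.g (nat_lit 4) .nil .nil))))) (.nd (nat_lit 4) (.nd (nat_lit 5) 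
(.lf (nat_lit 41931) (.g (nat_lit 3548) (.e (nat_lit 1238) (nat_lit 91) (.e (nat_lit 90172) (nat_lit 14) (.e (nat_lit 180250) (nat_lit 10) (.e (nat_lit 573487) (nat_lit 14) (.e (nat_lit 73753) (nat_lit 8) (.e (nat_lit 557089) (nat_lit 12) (.e (nat_lit 164006) (nat_lit 41) (.e (nat_lit 663559) (nat_lit 0) .nil)))))))) (.g (nat_lit 5) .nil .nil))) 
(.lf (nat_lit 41963) (.g (nat_lit 3823) (.e (nat_lit 1238) (nat_lit 91) (.e (nat_lit 90172) (nat_lit 14) (.e (nat_lit 180250) (nat_lit 10) (.e (nat_lit 573489) (nat_lit 14) (.e (nat_lit 73755) (nat_lit 8) (.e (nat_lit 557091) (nat_lit 12) (.e (nat_lit 164006) (nat_lit 41) (.e (nat_lit 671488) (nat_lit 0) .nil)))))))) (.g (nat_lit 5) .nil .nil)))) (.nd (nat_lit 5) 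
(.lf (nat_lit 41947) (.g (nat_lit 3843) (.e (nat_lit 1238) (nat_lit 91) (.e (nat_lit 90172) (nat_lit 14) (.e (nat_lit 180250) (nat_lit 10) (.e (nat_lit 573487) (nat_lit 14) (.e (nat_lit 73753) (nat_lit 8) (.e (nat_lit 557091) (nat_lit 12) (.e (nat_lit 164006) (nat_lit 41) (.e (nat_lit 663559) (nat_lit 0) .nil)))))))) (.g (nat_lit 5) .nil .nil))) 
(.lf (nat_lit 41979) (.g (nat_lit 2178) (.e (nat_lit 1238) (nat_lit 91) (.e (nat_lit 90172) (nat_lit 14) (.e (nat_lit 180278) (nat_lit 32) (.e (nat_lit 1235) (nat_lit 91) (.e (nat_lit 90174) (nat_lit 14) (.e (nat_lit 188160) (nat_lit 32) .nil)))))) (.g (nat_lit 5) .nil .nil)))))) (.nd (nat_lit 3) (.nd (nat_lit 4) (.nd (nat_lit 5) 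
(.lf (nat_lit 41927) (.g (nat_lit 2644) (.e (nat_lit 1238) (nat_lit 91) (.e (nat_lit 90172) (nat_lit 14) (.e (nat_lit 180250) (nat_lit 10) (.e (nat_lit 573487) (nat_lit 14) (.e (nat_lit 73747) (nat_lit 3) .nil))))) .nil)) 
(.lf (nat_lit 41959) (.g (nat_lit 2920) (.e (nat_lit 1238) (nat_lit 91) (.e (nat_lit 90172) (nat_lit 14) (.e (nat_lit 180250) (nat_lit 10) (.e (nat_lit 573489) (nat_lit 14) (.e (nat_lit 73755) (nat_lit 8) (.e (nat_lit 557089) (nat_lit 12) (.e (nat_lit 164005) (nat_lit 41) (.e (nat_lit 671488) (nat_lit 0) .nil)))))))) (.g (nat_lit 4) .nil .nil)))) (.nd (nat_lit 5) 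
(.lf (nat_lit 41943) (.g (nat_lit 2901) (.e (nat_lit 1238) (nat_lit 91) (.e (nat_lit 90172) (nat_lit 14) (.e (nat_lit 180250) (nat_lit 10) (.e (nat_lit 573487) (nat_lit 14) (.e (nat_lit 73753) (nat_lit 8) (.e (nat_lit 557091) (nat_lit 12) (.e (nat_lit 164004) (nat_lit 41) (.e (nat_lit 671488) (nat_lit 0) .nil)))))))) (.g (nat_lit 4) .nil .nil))) 
(.lf (nat_lit 41975) (.g (nat_lit 1837) (.e (nat_lit 1238) (nat_lit 91) (.e (nat_lit 90172) (nat_lit 14) (.e (nat_lit 180276) (nat_lit 32) (.e (nat_lit 1077) (nat_lit 81) (.e (nat_lit 1796) (nat_lit 119) (.e (nat_lit 516161) (nat_lit 10) (.e (nat_lit 442112) (nat_lit 0) .nil))))))) (.g (nat_lit 5) .nil .nil))))) (.nd (nat_lit 4) (.nd (nat_lit 5) 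
(.lf (nat_lit 41935) (.g (nat_lit 4804) (.e (nat_lit 1238) (nat_lit 91) (.e (nat_lit 90172) (nat_lit 14) (.e (nat_lit 180250) (nat_lit 10) (.e (nat_lit 573487) (nat_lit 14) (.e (nat_lit 73753) (nat_lit 8) (.e (nat_lit 557089) (nat_lit 12) (.e (nat_lit 164007) (nat_lit 41) (.e (nat_lit 671488) (nat_lit 0) .nil)))))))) (.g (nat_lit 7) .nil .nil))) 
(.lf (nat_lit 41967) (.g (nat_lit 2072) (.e (nat_lit 1238) (nat_lit 91) (.e (nat_lit 90172) (nat_lit 14) (.e (nat_lit 180251) (nat_lit 10) (.e (nat_lit 573489) (nat_lit 14) (.e (nat_lit 73755) (nat_lit 8) (.e (nat_lit 557091) (nat_lit 12) (.e (nat_lit 164007) (nat_lit 41) (.e (nat_lit 663560) (nat_lit 0) .nil)))))))) (.g (nat_lit 4) .nil .nil)))) (.nd (nat_lit 5) 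
(.lf (nat_lit 41951) (.g (nat_lit 2956) (.e (nat_lit 1238) (nat_lit 91) (.e (nat_lit 90172) (nat_lit 14) (.e (nat_lit 180250) (nat_lit 10) (.e (nat_lit 573487) (nat_lit 14) (.e (nat_lit 73753) (nat_lit 8) (.e (nat_lit 557092) (nat_lit 12) (.e (nat_lit 164010) (nat_lit 41) (.e (nat_lit 671488) (nat_lit 0) .nil)))))))) (.g (nat_lit 4) .nil .nil))) 
(.lf (nat_lit 41983) (.g (nat_lit 2554) (.e (nat_lit 1238) (nat_lit 91) (.e (nat_lit 90172) (nat_lit 14) (.e (nat_lit 180278) (nat_lit 32) (.e (nat_lit 1253) (nat_lit 92) (.e (nat_lit 98367) (nat_lit 27) (.e (nat_lit 442112) (nat_lit 0) .nil)))))) (.g (nat_lit 5) .nil .nil)))))))))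

noncomputable def tv583 : DT := (.nd (nat_lit 0) (.nd (nat_lit 1) (.nd (nat_lit 2) (.nd (nat_lit 3) (.nd (nat_lit 4) (.nd (nat_lit 5) 
(.lf (nat_lit 41984) (.g (nat_lit 2300) (.e (nat_lit 1238) (nat_lit 91) (.e (nat_lit 90172) (nat_lit 14) (.e (nat_lit 180278) (nat_lit 32) (.e (nat_lit 1253) (nat_lit 92) (.e (nat_lit 98368) (nat_lit 27) (.e (nat_lit 442112) (nat_lit 0) .nil)))))) (.g (nat_lit 5) .nil .nil))) 
(.lf (nat_lit 42016) (.g (nat_lit 2087) (.e (nat_lit 1238) (nat_lit 91) (.e (nat_lit 90173) (nat_lit 14) (.e (nat_lit 180252) (nat_lit 10) (.e (nat_lit 573489) (nat_lit 14) (.e (nat_lit 73755) (nat_lit 8) (.e (nat_lit 557090) (nat_lit 12) (.e (nat_lit 163844) (nat_lit 0) (.e (nat_lit 5808) (nat_lit 320) (.e (nat_lit 1027) (nat_lit 81) .nil))))))))) (.g (nat_lit 4) .nil .nil)))) (.nd (nat_lit 5) 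
(.lf (nat_lit 42000) (.g (nat_lit 501) (.e (nat_lit 1238) (nat_lit 91) (.e (nat_lit 90172) (nat_lit 14) (.e (nat_lit 180285) (nat_lit 45) (.e (nat_lit 2570) (nat_lit 160) .nil)))) .nil)) 
(.lf (nat_lit 42032) (.g (nat_lit 1797) (.e (nat_lit 1238) (nat_lit 91) (.e (nat_lit 90174) (nat_lit 14) (.e (nat_lit 180243) (nat_lit 5) (.e (nat_lit 532515) (nat_lit 3) (.e (nat_lit 114716) (nat_lit 22) (.e (nat_lit 90162) (nat_lit 12) (.e (nat_lit 164007) (nat_lit 41) (.e (nat_lit 663560) (nat_lit 0) .nil)))))))) (.g (nat_lit 4) .nil .nil))))) (.nd (nat_lit 4) (.nd (nat_lit 5) 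
(.lf (nat_lit 41992) (.g (nat_lit 563) (.e (nat_lit 1238) (nat_lit 91) (.e (nat_lit 90172) (nat_lit 14) (.e (nat_lit 180285) (nat_lit 45) (.e (nat_lit 2569) (nat_lit 160) .nil)))) .nil)) 
(.lf (nat_lit 42024) (.g (nat_lit 3546) (.e (nat_lit 1238) (nat_lit 91) (.e (nat_lit 90173) (nat_lit 14) (.e (nat_lit 180252) (nat_lit 10) (.e (nat_lit 573489) (nat_lit 14) (.e (nat_lit 73755) (nat_lit 8) (.e (nat_lit 557090) (nat_lit 12) (.e (nat_lit 164007) (nat_lit 41) (.e (nat_lit 671488) (nat_lit 0) .nil)))))))) (.g (nat_lit 7) .nil .nil)))) (.nd (nat_lit 5) 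
(.lf (nat_lit 42008) (.g (nat_lit 492) (.e (nat_lit 1238) (nat_lit 91) (.e (nat_lit 90172) (nat_lit 14) (.e (nat_lit 180285) (nat_lit 45) (.e (nat_lit 2571) (nat_lit 160) .nil)))) .nil)) 
(.lf (nat_lit 42040) (.g (nat_lit 3210) (.e (nat_lit 1238) (nat_lit 91) (.e (nat_lit 90174) (nat_lit 14) (.e (nat_lit 180250) (nat_lit 10) (.e (nat_lit 573487) (nat_lit 14) (.e (nat_lit 73753) (nat_lit 8) (.e (nat_lit 557089) (nat_lit 12) (.e (nat_lit 164010) (nat_lit 41) (.e (nat_lit 671488) (nat_lit 0) .nil)))))))) (.g (nat_lit 5) .nil .nil)))))) 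
(.nd (nat_lit 3) (.nd (nat_lit 4) (.nd (nat_lit 5) 
(.lf (nat_lit 41988) (.g (nat_lit 1571) (.e (nat_lit 1238) (nat_lit 91) (.e (nat_lit 90172) (nat_lit 14) (.e (nat_lit 188160) (nat_lit 35) (.e (nat_lit 57464) (nat_lit 23) (.e (nat_lit 516160) (nat_lit 10) (.e (nat_lit 442112) (nat_lit 0) .nil)))))) (.g (nat_lit 5) .nil .nil))) 
(.lf (nat_lit 42020) (.g (nat_lit 2205) (.e (nat_lit 1238) (nat_lit 91) (.e (nat_lit 90173) (nat_lit 14) (.e (nat_lit 180252) (nat_lit 10) (.e (nat_lit 573489) (nat_lit 14) (.e (nat_lit 73755) (nat_lit 8) (.e (nat_lit 557090) (nat_lit 12) (.e (nat_lit 164006) (nat_lit 41) (.e (nat_lit 663560) (nat_lit 0) .nil)))))))) (.g (nat_lit 4) .nil .nil)))) (.nd (nat_lit 5) 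
(.lf (nat_lit 42004) (.g (nat_lit 1203) (.e (nat_lit 1238) (nat_lit 91) (.e (nat_lit 90172) (nat_lit 14) (.e (nat_lit 180285) (nat_lit 45) (.e (nat_lit 2570) (nat_lit 160) (.e (nat_lit 32807) (nat_lit 18) (.e (nat_lit 172036) (nat_lit 0) (.e (nat_lit 7936) (nat_lit 402) .nil))))))) (.g (nat_lit 6) .nil .nil))) 
(.lf (nat_lit 42036) (.g (nat_lit 2339) (.e (nat_lit 1238) (nat_lit 91) (.e (nat_lit 90174) (nat_lit 14) (.e (nat_lit 180250) (nat_lit 10) (.e (nat_lit 573487) (nat_lit 14) (.e (nat_lit 73753) (nat_lit 8) (.e (nat_lit 557089) (nat_lit 12) (.e (nat_lit 164005) (nat_lit 41) (.e (nat_lit 671488) (nat_lit 0) .nil)))))))) (.g (nat_lit 4) .nil .nil))))) (.nd (nat_lit 4) (.nd (nat_lit 5) 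
(.lf (nat_lit 41996) (.g (nat_lit 1278) (.e (nat_lit 1238) (nat_lit 91) (.e (nat_lit 90172) (nat_lit 14) (.e (nat_lit 180285) (nat_lit 45) (.e (nat_lit 2569) (nat_lit 160) (.e (nat_lit 32807) (nat_lit 18) (.e (nat_lit 172036) (nat_lit 0) (.e (nat_lit 7936) (nat_lit 402) .nil))))))) (.g (nat_lit 6) .nil .nil))) 
(.lf (nat_lit 42028) (.g (nat_lit 3266) (.e (nat_lit 1238) (nat_lit 91) (.e (nat_lit 90174) (nat_lit 14) (.e (nat_lit 180243) (nat_lit 5) (.e (nat_lit 532513) (nat_lit 3) (.e (nat_lit 114714) (nat_lit 22) (.e (nat_lit 90162) (nat_lit 12) (.e (nat_lit 164007) (nat_lit 41) (.e (nat_lit 663560) (nat_lit 0) .nil)))))))) (.g (nat_lit 6) .nil .nil)))) (.nd (nat_lit 5) 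
(.lf (nat_lit 42012) (.g (nat_lit 1217) (.e (nat_lit 1238) (nat_lit 91) (.e (nat_lit 90172) (nat_lit 14) (.e (nat_lit 180285) (nat_lit 45) (.e (nat_lit 2571) (nat_lit 160) (.e (nat_lit 32807) (nat_lit 18) (.e (nat_lit 172036) (nat_lit 0) (.e (nat_lit 7936) (nat_lit 402) .nil))))))) (.g (nat_lit 6) .nil .nil))) 
(.lf (nat_lit 42044) (.g (nat_lit 3955) (.e (nat_lit 1238) (nat_lit 91) (.e (nat_lit 90174) (nat_lit 14) (.e (nat_lit 180250) (nat_lit 10) (.e (nat_lit 573487) (nat_lit 14) (.e (nat_lit 73753) (nat_lit 8) (.e (nat_lit 557091) (nat_lit 12) (.e (nat_lit 164006) (nat_lit 41) (.e (nat_lit 671488) (nat_lit 0) .nil)))))))) (.g (nat_lit 6) .nil .nil))))))) 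
(.nd (nat_lit 2) (.nd (nat_lit 3) (.nd (nat_lit 4) (.nd (nat_lit 5) 
(.lf (nat_lit 41986) (.g (nat_lit 382) (.e (nat_lit 1238) (nat_lit 91) (.e (nat_lit 90172) (nat_lit 14) (.e (nat_lit 188160) (nat_lit 35) .nil))) .nil)) 
(.lf (nat_lit 42018) (.g (nat_lit 2237) (.e (nat_lit 1238) (nat_lit 91) (.e (nat_lit 90173) (nat_lit 14) (.e (nat_lit 180252) (nat_lit 10) (.e (nat_lit 573489) (nat_lit 14) (.e (nat_lit 73755) (nat_lit 8) (.e (nat_lit 557090) (nat_lit 12) (.e (nat_lit 164005) (nat_lit 41) (.e (nat_lit 663559) (nat_lit 0) .nil)))))))) (.g (nat_lit 4) .nil .nil)))) (.nd (nat_lit 5) 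
(.lf (nat_lit 42002) (.g (nat_lit 1032) (.e (nat_lit 1238) (nat_lit 91) (.e (nat_lit 90172) (nat_lit 14) (.e (nat_lit 180285) (nat_lit 45) (.e (nat_lit 2570) (nat_lit 160) (.e (nat_lit 32807) (nat_lit 18) (.e (nat_lit 172034) (nat_lit 0) (.e (nat_lit 7936) (nat_lit 402) .nil))))))) (.g (nat_lit 5) .nil .nil))) 
(.lf (nat_lit 42034) (.g (nat_lit 2281) (.e (nat_lit 1238) (nat_lit 91) (.e (nat_lit 90174) (nat_lit 14) (.e (nat_lit 180250) (nat_lit 10) (.e (nat_lit 573487) (nat_lit 14) (.e (nat_lit 73746) (nat_lit 3) .nil))))) .nil)))) (.nd (nat_lit 4) (.nd (nat_lit 5) 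
(.lf (nat_lit 41994) (.g (nat_lit 1094) (.e (nat_lit 1238) (nat_lit 91) (.e (nat_lit 90172) (nat_lit 14) (.e (nat_lit 180285) (nat_lit 45) (.e (nat_lit 2569) (nat_lit 160) (.e (nat_lit 32807) (nat_lit 18) (.e (nat_lit 172034) (nat_lit 0) (.e (nat_lit 7936) (nat_lit 402) .nil))))))) (.g (nat_lit 5) .nil .nil))) 
(.lf (nat_lit 42026) (.g (nat_lit 1967) (.e (nat_lit 1238) (nat_lit 91) (.e (nat_lit 90174) (nat_lit 14) (.e (nat_lit 180243) (nat_lit 5) (.e (nat_lit 532513) (nat_lit 3) (.e (nat_lit 114714) (nat_lit 22) (.e (nat_lit 90162) (nat_lit 12) (.e (nat_lit 164006) (nat_lit 41) (.e (nat_lit 671488) (nat_lit 0) .nil)))))))) (.g (nat_lit 4) .nil .nil)))) (.nd (nat_lit 5) 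
(.lf (nat_lit 42010) (.g (nat_lit 1041) (.e (nat_lit 1238) (nat_lit 91) (.e (nat_lit 90172) (nat_lit 14) (.e (nat_lit 180285) (nat_lit 45) (.e (nat_lit 2571) (nat_lit 160) (.e (nat_lit 32807) (nat_lit 18) (.e (nat_lit 172034) (nat_lit 0) (.e (nat_lit 7936) (nat_lit 402) .nil))))))) (.g (nat_lit 5) .nil .nil))) 
(.lf (nat_lit 42042) (.g (nat_lit 2511) (.e (nat_lit 1238) (nat_lit 91) (.e (nat_lit 90174) (nat_lit 14) (.e (nat_lit 180250) (nat_lit 10) (.e (nat_lit 573487) (nat_lit 14) (.e (nat_lit 73753) (nat_lit 8) (.e (nat_lit 557090) (nat_lit 12) (.e (nat_lit 164008) (nat_lit 41) (.e (nat_lit 671488) (nat_lit 0) .nil)))))))) (.g (nat_lit 4) .nil .nil)))))) 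
(.nd (nat_lit 3) (.nd (nat_lit 4) (.nd (nat_lit 5) 
(.lf (nat_lit 41990) (.g (nat_lit 1401) (.e (nat_lit 1238) (nat_lit 91) (.e (nat_lit 90172) (nat_lit 14) (.e (nat_lit 188160) (nat_lit 38) (.e (nat_lit 122936) (nat_lit 23) (.e (nat_lit 516169) (nat_lit 13) (.e (nat_lit 466688) (nat_lit 0) .nil)))))) (.g (nat_lit 5) .nil .nil))) 
(.lf (nat_lit 42022) (.g (nat_lit 2654) (.e (nat_lit 1238) (nat_lit 91) (.e (nat_lit 90173) (nat_lit 14) (.e (nat_lit 180252) (nat_lit 10) (.e (nat_lit 573489) (nat_lit 14) (.e (nat_lit 73755) (nat_lit 8) (.e (nat_lit 557090) (nat_lit 12) (.e (nat_lit 164007) (nat_lit 41) (.e (nat_lit 663559) (nat_lit 0) .nil)))))))) (.g (nat_lit 5) .nil .nil)))) (.nd (nat_lit 5) 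
(.lf (nat_lit 42006) (.g (nat_lit 972) (.e (nat_lit 1238) (nat_lit 91) (.e (nat_lit 90172) (nat_lit 14) (.e (nat_lit 180285) (nat_lit 45) (.e (nat_lit 2570) (nat_lit 160) (.e (nat_lit 32807) (nat_lit 18) (.e (nat_lit 172052) (nat_lit 0) (.e (nat_lit 7936) (nat_lit 402) .nil))))))) (.g (nat_lit 5) .nil .nil))) 
(.lf (nat_lit 42038) (.g (nat_lit 2548) (.e (nat_lit 1238) (nat_lit 91) (.e (nat_lit 90174) (nat_lit 14) (.e (nat_lit 180250) (nat_lit 10) (.e (nat_lit 573487) (nat_lit 14) (.e (nat_lit 73753) (nat_lit 8) (.e (nat_lit 557089) (nat_lit 12) (.e (nat_lit 164007) (nat_lit 41) (.e (nat_lit 663559) (nat_lit 0) .nil)))))))) (.g (nat_lit 4) .nil .nil))))) (.nd (nat_lit 4) (.nd (nat_lit 5) 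
(.lf (nat_lit 41998) (.g (nat_lit 1034) (.e (nat_lit 1238) (nat_lit 91) (.e (nat_lit 90172) (nat_lit 14) (.e (nat_lit 180285) (nat_lit 45) (.e (nat_lit 2569) (nat_lit 160) (.e (nat_lit 32807) (nat_lit 18) (.e (nat_lit 172052) (nat_lit 0) (.e (nat_lit 7936) (nat_lit 402) .nil))))))) (.g (nat_lit 5) .nil .nil))) 
(.lf (nat_lit 42030) (.g (nat_lit 2565) (.e (nat_lit 1238) (nat_lit 91) (.e (nat_lit 90174) (nat_lit 14) (.e (nat_lit 180243) (nat_lit 5) (.e (nat_lit 532513) (nat_lit 3) (.e (nat_lit 114714) (nat_lit 22) (.e (nat_lit 90162) (nat_lit 12) (.e (nat_lit 164010) (nat_lit 41) (.e (nat_lit 671488) (nat_lit 0) .nil)))))))) (.g (nat_lit 5) .nil .nil)))) (.nd (nat_lit 5) 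
(.lf (nat_lit 42014) (.g (nat_lit 981) (.e (nat_lit 1238) (nat_lit 91) (.e (nat_lit 90172) (nat_lit 14) (.e (nat_lit 180285) (nat_lit 45) (.e (nat_lit 2571) (nat_lit 160) (.e (nat_lit 32807) (nat_lit 18) (.e (nat_lit 172052) (nat_lit 0) (.e (nat_lit 7936) (nat_lit 402) .nil))))))) (.g (nat_lit 5) .nil .nil))) 
(.lf (nat_lit 42046) (.g (nat_lit 2433) (.e (nat_lit 1238) (nat_lit 91) (.e (nat_lit 90174) (nat_lit 14) (.e (nat_lit 180250) (nat_lit 10) (.e (nat_lit 573487) (nat_lit 14) (.e (nat_lit 73753) (nat_lit 8) (.e (nat_lit 557093) (nat_lit 12) (.e (nat_lit 164008) (nat_lit 41) (.e (nat_lit 671488) (nat_lit 0) .nil)))))))) (.g (nat_lit 4) .nil .nil)))))))) 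
(.nd (nat_lit 1) (.nd (nat_lit 2) (.nd (nat_lit 3) (.nd (nat_lit 4) (.nd (nat_lit 5) 
(.lf (nat_lit 41985) (.g (nat_lit 1386) (.e (nat_lit 1238) (nat_lit 91) (.e (nat_lit 90172) (nat_lit 14) (.e (nat_lit 180278) (nat_lit 32) (.e (nat_lit 1253) (nat_lit 92) (.e (nat_lit 98378) (nat_lit 30) .nil))))) .nil)) 
(.lf (nat_lit 42017) (.g (nat_lit 3698) (.e (nat_lit 1238) (nat_lit 91) (.e (nat_lit 90173) (nat_lit 14) (.e (nat_lit 180252) (nat_lit 10) (.e (nat_lit 573489) (nat_lit 14) (.e (nat_lit 73755) (nat_lit 8) (.e (nat_lit 557090) (nat_lit 12) (.e (nat_lit 164004) (nat_lit 41) (.e (nat_lit 671488) (nat_lit 0) .nil)))))))) (.g (nat_lit 6) .nil .nil)))) (.nd (nat_lit 5) 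
(.lf (nat_lit 42001) (.g (nat_lit 1189) (.e (nat_lit 1238) (nat_lit 91) (.e (nat_lit 90172) (nat_lit 14) (.e (nat_lit 180285) (nat_lit 45) (.e (nat_lit 2570) (nat_lit 160) (.e (nat_lit 32807) (nat_lit 18) (.e (nat_lit 172034) (nat_lit 0) (.e (nat_lit 7499) (nat_lit 402) .nil))))))) (.g (nat_lit 5) .nil .nil))) 
(.lf (nat_lit 42033) (.g (nat_lit 1973) (.e (nat_lit 1238) (nat_lit 91) (.e (nat_lit 90174) (nat_lit 14) (.e (nat_lit 180243) (nat_lit 5) (.e (nat_lit 532515) (nat_lit 3) (.e (nat_lit 114716) (nat_lit 22) (.e (nat_lit 90162) (nat_lit 12) (.e (nat_lit 164007) (nat_lit 41) (.e (nat_lit 671488) (nat_lit 0) .nil)))))))) (.g (nat_lit 4) .nil .nil))))) (.nd (nat_lit 4) (.nd (nat_lit 5) 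
(.lf (nat_lit 41993) (.g (nat_lit 1251) (.e (nat_lit 1238) (nat_lit 91) (.e (nat_lit 90172) (nat_lit 14) (.e (nat_lit 180285) (nat_lit 45) (.e (nat_lit 2569) (nat_lit 160) (.e (nat_lit 32807) (nat_lit 18) (.e (nat_lit 172034) (nat_lit 0) (.e (nat_lit 7499) (nat_lit 402) .nil))))))) (.g (nat_lit 5) .nil .nil))) 
(.lf (nat_lit 42025) (.g (nat_lit 3912) (.e (nat_lit 1238) (nat_lit 91) (.e (nat_lit 90173) (nat_lit 14) (.e (nat_lit 180252) (nat_lit 10) (.e (nat_lit 573489) (nat_lit 14) (.e (nat_lit 73755) (nat_lit 8) (.e (nat_lit 557090) (nat_lit 12) (.e (nat_lit 164008) (nat_lit 41) (.e (nat_lit 671488) (nat_lit 0) .nil)))))))) (.g (nat_lit 6) .nil .nil)))) (.nd (nat_lit 5) 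
(.lf (nat_lit 42009) (.g (nat_lit 1198) (.e (nat_lit 1238) (nat_lit 91) (.e (nat_lit 90172) (nat_lit 14) (.e (nat_lit 180285) (nat_lit 45) (.e (nat_lit 2571) (nat_lit 160) (.e (nat_lit 32807) (nat_lit 18) (.e (nat_lit 172034) (nat_lit 0) (.e (nat_lit 7499) (nat_lit 402) .nil))))))) (.g (nat_lit 5) .nil .nil))) 
(.lf (nat_lit 42041) (.g (nat_lit 2550) (.e (nat_lit 1238) (nat_lit 91) (.e (nat_lit 90174) (nat_lit 14) (.e (nat_lit 180250) (nat_lit 10) (.e (nat_lit 573487) (nat_lit 14) (.e (nat_lit 73753) (nat_lit 8) (.e (nat_lit 557090) (nat_lit 12) (.e (nat_lit 164007) (nat_lit 41) (.e (nat_lit 663560) (nat_lit 0) .nil)))))))) (.g (nat_lit 4) .nil .nil)))))) 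
(.nd (nat_lit 3) (.nd (nat_lit 4) (.nd (nat_lit 5) 
(.lf (nat_lit 41989) (.g (nat_lit 1174) (.e (nat_lit 1238) (nat_lit 91) (.e (nat_lit 90172) (nat_lit 14) (.e (nat_lit 188160) (nat_lit 35) (.e (nat_lit 57464) (nat_lit 23) (.e (nat_lit 516161) (nat_lit 10) (.e (nat_lit 442112) (nat_lit 0) .nil)))))) (.g (nat_lit 5) .nil .nil))) 
(.lf (nat_lit 42021) (.g (nat_lit 3933) (.e (nat_lit 1238) (nat_lit 91) (.e (nat_lit 90173) (nat_lit 14) (.e (nat_lit 180252) (nat_lit 10) (.e (nat_lit 573489) (nat_lit 14) (.e (nat_lit 73755) (nat_lit 8) (.e (nat_lit 557090) (nat_lit 12) (.e (nat_lit 164006) (nat_lit 41) (.e (nat_lit 671488) (nat_lit 0) .nil)))))))) (.g (nat_lit 7) .nil .nil)))) (.nd (nat_lit 5) 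
(.lf (nat_lit 42005) (.g (nat_lit 1329) (.e (nat_lit 1238) (nat_lit 91) (.e (nat_lit 90172) (nat_lit 14) (.e (nat_lit 180285) (nat_lit 45) (.e (nat_lit 2570) (nat_lit 160) (.e (nat_lit 32807) (nat_lit 18) (.e (nat_lit 172049) (nat_lit 0) (.e (nat_lit 7936) (nat_lit 402) .nil))))))) (.g (nat_lit 6) .nil .nil))) 
(.lf (nat_lit 42037) (.g (nat_lit 3725) (.e (nat_lit 1238) (nat_lit 91) (.e (nat_lit 90174) (nat_lit 14) (.e (nat_lit 180250) (nat_lit 10) (.e (nat_lit 573487) (nat_lit 14) (.e (nat_lit 73753) (nat_lit 8) (.e (nat_lit 557089) (nat_lit 12) (.e (nat_lit 164006) (nat_lit 41) (.e (nat_lit 671488) (nat_lit 0) .nil)))))))) (.g (nat_lit 6) .nil .nil))))) (.nd (nat_lit 4) (.nd (nat_lit 5) 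
(.lf (nat_lit 41997) (.g (nat_lit 1405) (.e (nat_lit 1238) (nat_lit 91) (.e (nat_lit 90172) (nat_lit 14) (.e (nat_lit 180285) (nat_lit 45) (.e (nat_lit 2569) (nat_lit 160) (.e (nat_lit 32807) (nat_lit 18) (.e (nat_lit 172049) (nat_lit 0) (.e (nat_lit 7936) (nat_lit 402) .nil))))))) (.g (nat_lit 6) .nil .nil))) 
(.lf (nat_lit 42029) (.g (nat_lit 3449) (.e (nat_lit 1238) (nat_lit 91) (.e (nat_lit 90174) (nat_lit 14) (.e (nat_lit 180243) (nat_lit 5) (.e (nat_lit 532513) (nat_lit 3) (.e (nat_lit 114714) (nat_lit 22) (.e (nat_lit 90162) (nat_lit 12) (.e (nat_lit 164007) (nat_lit 41) (.e (nat_lit 671488) (nat_lit 0) .nil)))))))) (.g (nat_lit 7) .nil .nil)))) (.nd (nat_lit 5) 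
(.lf (nat_lit 42013) (.g (nat_lit 1352) (.e (nat_lit 1238) (nat_lit 91) (.e (nat_lit 90172) (nat_lit 14) (.e (nat_lit 180285) (nat_lit 45) (.e (nat_lit 2571) (nat_lit 160) (.e (nat_lit 32807) (nat_lit 18) (.e (nat_lit 172049) (nat_lit 0) (.e (nat_lit 7936) (nat_lit 402) .nil))))))) (.g (nat_lit 6) .nil .nil))) 
(.lf (nat_lit 42045) (.g (nat_lit 3036) (.e (nat_lit 1238) (nat_lit 91) (.e (nat_lit 90174) (nat_lit 14) (.e (nat_lit 180250) (nat_lit 10) (.e (nat_lit 573487) (nat_lit 14) (.e (nat_lit 73753) (nat_lit 8) (.e (nat_lit 557091) (nat_lit 12) (.e (nat_lit 164008) (nat_lit 41) (.e (nat_lit 671488) (nat_lit 0) .nil)))))))) (.g (nat_lit 5) .nil .nil))))))) 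
(.nd (nat_lit 2) (.nd (nat_lit 3) (.nd (nat_lit 4) (.nd (nat_lit 5) 
(.lf (nat_lit 41987) (.g (nat_lit 2792) (.e (nat_lit 1238) (nat_lit 91) (.e (nat_lit 90172) (nat_lit 14) (.e (nat_lit 188160) (nat_lit 35) (.e (nat_lit 57464) (nat_lit 23) (.e (nat_lit 516151) (nat_lit 9) (.e (nat_lit 426003) (nat_lit 0) (.e (nat_lit 7545) (nat_lit 402) .nil))))))) (.g (nat_lit 5) .nil .nil))) 
(.lf (nat_lit 42019) (.g (nat_lit 3703) (.e (nat_lit 1238) (nat_lit 91) (.e (nat_lit 90173) (nat_lit 14) (.e (nat_lit 180252) (nat_lit 10) (.e (nat_lit 573489) (nat_lit 14) (.e (nat_lit 73755) (nat_lit 8) (.e (nat_lit 557090) (nat_lit 12) (.e (nat_lit 164005) (nat_lit 41) (.e (nat_lit 671488) (nat_lit 0) .nil)))))))) (.g (nat_lit 7) .nil .nil)))) (.nd (nat_lit 5) 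
(.lf (nat_lit 42003) (.g (nat_lit 1276) (.e (nat_lit 1238) (nat_lit 91) (.e (nat_lit 90172) (nat_lit 14) (.e (nat_lit 180285) (nat_lit 45) (.e (nat_lit 2570) (nat_lit 160) (.e (nat_lit 32807) (nat_lit 18) (.e (nat_lit 172035) (nat_lit 0) (.e (nat_lit 7936) (nat_lit 402) .nil))))))) (.g (nat_lit 6) .nil .nil))) 
(.lf (nat_lit 42035) (.g (nat_lit 1992) (.e (nat_lit 1238) (nat_lit 91) (.e (nat_lit 90174) (nat_lit 14) (.e (nat_lit 180250) (nat_lit 10) (.e (nat_lit 573487) (nat_lit 14) (.e (nat_lit 73753) (nat_lit 8) .nil))))) .nil)))) (.nd (nat_lit 4) (.nd (nat_lit 5) 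
(.lf (nat_lit 41995) (.g (nat_lit 1338) (.e (nat_lit 1238) (nat_lit 91) (.e (nat_lit 90172) (nat_lit 14) (.e (nat_lit 180285) (nat_lit 45) (.e (nat_lit 2569) (nat_lit 160) (.e (nat_lit 32807) (nat_lit 18) (.e (nat_lit 172035) (nat_lit 0) (.e (nat_lit 7936) (nat_lit 402) .nil))))))) (.g (nat_lit 6) .nil .nil))) 
(.lf (nat_lit 42027) (.g (nat_lit 2542) (.e (nat_lit 1238) (nat_lit 91) (.e (nat_lit 90174) (nat_lit 14) (.e (nat_lit 180243) (nat_lit 5) (.e (nat_lit 532513) (nat_lit 3) (.e (nat_lit 114714) (nat_lit 22) (.e (nat_lit 90162) (nat_lit 12) (.e (nat_lit 164007) (nat_lit 41) (.e (nat_lit 663559) (nat_lit 0) .nil)))))))) (.g (nat_lit 5) .nil .nil)))) (.nd (nat_lit 5) 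
(.lf (nat_lit 42011) (.g (nat_lit 1285) (.e (nat_lit 1238) (nat_lit 91) (.e (nat_lit 90172) (nat_lit 14) (.e (nat_lit 180285) (nat_lit 45) (.e (nat_lit 2571) (nat_lit 160) (.e (nat_lit 32807) (nat_lit 18) (.e (nat_lit 172035) (nat_lit 0) (.e (nat_lit 7936) (nat_lit 402) .nil))))))) (.g (nat_lit 6) .nil .nil))) 
(.lf (nat_lit 42043) (.g (nat_lit 2533) (.e (nat_lit 1238) (nat_lit 91) (.e (nat_lit 90174) (nat_lit 14) (.e (nat_lit 180250) (nat_lit 10) (.e (nat_lit 573487) (nat_lit 14) (.e (nat_lit 73753) (nat_lit 8) (.e (nat_lit 557091) (nat_lit 12) (.e (nat_lit 164005) (nat_lit 41) (.e (nat_lit 663560) (nat_lit 0) .nil)))))))) (.g (nat_lit 4) .nil .nil)))))) 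
(.nd (nat_lit 3) (.nd (nat_lit 4) (.nd (nat_lit 5) 
(.lf (nat_lit 41991) (.g (nat_lit 1264) (.e (nat_lit 1238) (nat_lit 91) (.e (nat_lit 90172) (nat_lit 14) (.e (nat_lit 188160) (nat_lit 38) (.e (nat_lit 122936) (nat_lit 23) (.e (nat_lit 516171) (nat_lit 13) (.e (nat_lit 466688) (nat_lit 0) .nil)))))) (.g (nat_lit 5) .nil .nil))) 
(.lf (nat_lit 42023) (.g (nat_lit 3378) (.e (nat_lit 1238) (nat_lit 91) (.e (nat_lit 90173) (nat_lit 14) (.e (nat_lit 180252) (nat_lit 10) (.e (nat_lit 573489) (nat_lit 14) (.e (nat_lit 73755) (nat_lit 8) (.e (nat_lit 557090) (nat_lit 12) (.e (nat_lit 164007) (nat_lit 41) (.e (nat_lit 663560) (nat_lit 0) .nil)))))))) (.g (nat_lit 7) .nil .nil)))) (.nd (nat_lit 5) 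
(.lf (nat_lit 42007) (.g (nat_lit 1079) (.e (nat_lit 1238) (nat_lit 91) (.e (nat_lit 90172) (nat_lit 14) (.e (nat_lit 180285) (nat_lit 45) (.e (nat_lit 2570) (nat_lit 160) (.e (nat_lit 32808) (nat_lit 19) (.e (nat_lit 188160) (nat_lit 32) .nil)))))) (.g (nat_lit 5) .nil .nil))) 
(.lf (nat_lit 42039) (.g (nat_lit 3306) (.e (nat_lit 1238) (nat_lit 91) (.e (nat_lit 90174) (nat_lit 14) (.e (nat_lit 180250) (nat_lit 10) (.e (nat_lit 573487) (nat_lit 14) (.e (nat_lit 73753) (nat_lit 8) (.e (nat_lit 557089) (nat_lit 12) (.e (nat_lit 164007) (nat_lit 41) (.e (nat_lit 663560) (nat_lit 0) .nil)))))))) (.g (nat_lit 5) .nil .nil))))) (.nd (nat_lit 4) (.nd (nat_lit 5) 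
(.lf (nat_lit 41999) (.g (nat_lit 1087) (.e (nat_lit 1238) (nat_lit 91) (.e (nat_lit 90172) (nat_lit 14) (.e (nat_lit 180285) (nat_lit 45) (.e (nat_lit 2569) (nat_lit 160) (.e (nat_lit 32808) (nat_lit 19) (.e (nat_lit 188160) (nat_lit 32) .nil)))))) (.g (nat_lit 5) .nil .nil))) 
(.lf (nat_lit 42031) (.g (nat_lit 2884) (.e (nat_lit 1238) (nat_lit 91) (.e (nat_lit 90174) (nat_lit 14) (.e (nat_lit 180243) (nat_lit 5) (.e (nat_lit 532513) (nat_lit 3) (.e (nat_lit 114714) (nat_lit 22) (.e (nat_lit 90164) (nat_lit 12) (.e (nat_lit 164006) (nat_lit 41) (.e (nat_lit 671488) (nat_lit 0) .nil)))))))) (.g (nat_lit 5) .nil .nil)))) (.nd (nat_lit 5) 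
(.lf (nat_lit 42015) (.g (nat_lit 1145) (.e (nat_lit 1238) (nat_lit 91) (.e (nat_lit 90172) (nat_lit 14) (.e (nat_lit 180285) (nat_lit 45) (.e (nat_lit 2571) (nat_lit 160) (.e (nat_lit 32808) (nat_lit 19) (.e (nat_lit 188160) (nat_lit 32) .nil)))))) (.g (nat_lit 5) .nil .nil))) 
(.lf (nat_lit 42047) (.g (nat_lit 2843) (.e (nat_lit 1238) (nat_lit 91) (.e (nat_lit 90174) (nat_lit 14) (.e (nat_lit 180250) (nat_lit 10) (.e (nat_lit 573487) (nat_lit 14) (.e (nat_lit 73753) (nat_lit 8) (.e (nat_lit 557093) (nat_lit 12) (.e (nat_lit 164010) (nat_lit 41) (.e (nat_lit 671488) (nat_lit 0) .nil)))))))) (.g (nat_lit 5) .nil .nil)))))))))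

noncomputable def tv584 : DT := (.nd (nat_lit 0) (.nd (nat_lit 1) (.nd (nat_lit 2) (.nd (nat_lit 3) (.nd (nat_lit 4) (.nd (nat_lit 5) 
(.lf (nat_lit 42048) (.g (nat_lit 3443) (.e (nat_lit 1238) (nat_lit 91) (.e (nat_lit 90174) (nat_lit 14) (.e (nat_lit 180250) (nat_lit 10) (.e (nat_lit 573487) (nat_lit 14) (.e (nat_lit 73753) (nat_lit 8) (.e (nat_lit 557094) (nat_lit 12) (.e (nat_lit 164008) (nat_lit 41) (.e (nat_lit 671488) (nat_lit 0) .nil)))))))) (.g (nat_lit 6) .nil .nil))) 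
(.lf (nat_lit 42080) (.g (nat_lit 2227) (.e (nat_lit 1238) (nat_lit 91) (.e (nat_lit 90174) (nat_lit 14) (.e (nat_lit 180251) (nat_lit 10) (.e (nat_lit 573489) (nat_lit 14) (.e (nat_lit 73755) (nat_lit 8) (.e (nat_lit 557089) (nat_lit 12) (.e (nat_lit 164007) (nat_lit 41) (.e (nat_lit 663552) (nat_lit 0) .nil)))))))) (.g (nat_lit 4) .nil .nil)))) (.nd (nat_lit 5) 
(.lf (nat_lit 42064) (.g (nat_lit 4888) (.e (nat_lit 1238) (nat_lit 91) (.e (nat_lit 90174) (nat_lit 14) (.e (nat_lit 180250) (nat_lit 10) (.e (nat_lit 573489) (nat_lit 14) (.e (nat_lit 73755) (nat_lit 8) (.e (nat_lit 557090) (nat_lit 12) (.e (nat_lit 164006) (nat_lit 41) (.e (nat_lit 671488) (nat_lit 0) .nil)))))))) (.g (nat_lit 7) .nil .nil))) 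
(.lf (nat_lit 42096) (.g (nat_lit 3062) (.e (nat_lit 1238) (nat_lit 91) (.e (nat_lit 90174) (nat_lit 14) (.e (nat_lit 180251) (nat_lit 10) (.e (nat_lit 573489) (nat_lit 14) (.e (nat_lit 73755) (nat_lit 8) (.e (nat_lit 557091) (nat_lit 12) (.e (nat_lit 164007) (nat_lit 41) (.e (nat_lit 663559) (nat_lit 0) .nil)))))))) (.g (nat_lit 5) .nil .nil))))) (.nd (nat_lit 4) (.nd (nat_lit 5) 
(.lf (nat_lit 42056) (.g (nat_lit 2978) (.e (nat_lit 1238) (nat_lit 91) (.e (nat_lit 90174) (nat_lit 14) (.e (nat_lit 180250) (nat_lit 10) (.e (nat_lit 573489) (nat_lit 14) (.e (nat_lit 73755) (nat_lit 8) (.e (nat_lit 557089) (nat_lit 12) (.e (nat_lit 164007) (nat_lit 41) (.e (nat_lit 663559) (nat_lit 0) .nil)))))))) (.g (nat_lit 5) .nil .nil))) 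
(.lf (nat_lit 42088) (.g (nat_lit 4010) (.e (nat_lit 1238) (nat_lit 91) (.e (nat_lit 90174) (nat_lit 14) (.e (nat_lit 180251) (nat_lit 10) (.e (nat_lit 573489) (nat_lit 14) (.e (nat_lit 73755) (nat_lit 8) (.e (nat_lit 557090) (nat_lit 12) (.e (nat_lit 164007) (nat_lit 41) (.e (nat_lit 663560) (nat_lit 0) .nil)))))))) (.g (nat_lit 5) .nil .nil)))) (.nd (nat_lit 5) 
(.lf (nat_lit 42072) (.g (nat_lit 3914) (.e (nat_lit 1238) (nat_lit 91) (.e (nat_lit 90174) (nat_lit 14) (.e (nat_lit 180250) (nat_lit 10) (.e (nat_lit 573489) (nat_lit 14) (.e (nat_lit 73755) (nat_lit 8) (.e (nat_lit 557091) (nat_lit 12) (.e (nat_lit 164008) (nat_lit 41) (.e (nat_lit 671488) (nat_lit 0) .nil)))))))) (.g (nat_lit 6) .nil .nil))) 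
(.lf (nat_lit 42104) (.g (nat_lit 2723) (.e (nat_lit 1238) (nat_lit 91) (.e (nat_lit 90174) (nat_lit 14) (.e (nat_lit 180252) (nat_lit 10) (.e (nat_lit 573489) (nat_lit 14) (.e (nat_lit 73755) (nat_lit 8) (.e (nat_lit 557090) (nat_lit 12) (.e (nat_lit 164007) (nat_lit 41) (.e (nat_lit 663559) (nat_lit 0) .nil)))))))) (.g (nat_lit 4) .nil .nil)))))) 
(.nd (nat_lit 3) (.nd (nat_lit 4) (.nd (nat_lit 5) 
(.lf (nat_lit 42052) (.g (nat_lit 2235) (.e (nat_lit 1238) (nat_lit 91) (.e (nat_lit 90174) (nat_lit 14) (.e (nat_lit 180250) (nat_lit 10) (.e (nat_lit 573489) (nat_lit 14) (.e (nat_lit 73754) (nat_lit 8) (.e (nat_lit 557094) (nat_lit 12) (.e (nat_lit 164010) (nat_lit 41) (.e (nat_lit 671488) (nat_lit 0) .nil)))))))) (.g (nat_lit 4) .nil .nil))) 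
(.lf (nat_lit 42084) (.g (nat_lit 4254) (.e (nat_lit 1238) (nat_lit 91) (.e (nat_lit 90174) (nat_lit 14) (.e (nat_lit 180251) (nat_lit 10) (.e (nat_lit 573489) (nat_lit 14) (.e (nat_lit 73755) (nat_lit 8) (.e (nat_lit 557089) (nat_lit 12) (.e (nat_lit 164010) (nat_lit 41) (.e (nat_lit 671488) (nat_lit 0) .nil)))))))) (.g (nat_lit 6) .nil .nil)))) (.nd (nat_lit 5) 
(.lf (nat_lit 42068) (.g (nat_lit 4867) (.e (nat_lit 1238) (nat_lit 91) (.e (nat_lit 90174) (nat_lit 14) (.e (nat_lit 180250) (nat_lit 10) (.e (nat_lit 573489) (nat_lit 14) (.e (nat_lit 73755) (nat_lit 8) (.e (nat_lit 557090) (nat_lit 12) (.e (nat_lit 164008) (nat_lit 41) (.e (nat_lit 671488) (nat_lit 0) .nil)))))))) (.g (nat_lit 6) .nil .nil))) 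
(.lf (nat_lit 42100) (.g (nat_lit 2224) (.e (nat_lit 1238) (nat_lit 91) (.e (nat_lit 90174) (nat_lit 14) (.e (nat_lit 180251) (nat_lit 10) (.e (nat_lit 573489) (nat_lit 14) (.e (nat_lit 73755) (nat_lit 8) (.e (nat_lit 557091) (nat_lit 12) (.e (nat_lit 164010) (nat_lit 41) (.e (nat_lit 671488) (nat_lit 0) .nil)))))))) (.g (nat_lit 4) .nil .nil))))) (.nd (nat_lit 4) (.nd (nat_lit 5) 
(.lf (nat_lit 42060) (.g (nat_lit 3181) (.e (nat_lit 1238) (nat_lit 91) (.e (nat_lit 90174) (nat_lit 14) (.e (nat_lit 180250) (nat_lit 10) (.e (nat_lit 573489) (nat_lit 14) (.e (nat_lit 73755) (nat_lit 8) (.e (nat_lit 557090) (nat_lit 12) (.e (nat_lit 163844) (nat_lit 0) (.e (nat_lit 5808) (nat_lit 320) (.e (nat_lit 1027) (nat_lit 81) .nil))))))))) (.g (nat_lit 5) .nil .nil))) 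
(.lf (nat_lit 42092) (.g (nat_lit 4202) (.e (nat_lit 1238) (nat_lit 91) (.e (nat_lit 90174) (nat_lit 14) (.e (nat_lit 180251) (nat_lit 10) (.e (nat_lit 573489) (nat_lit 14) (.e (nat_lit 73755) (nat_lit 8) (.e (nat_lit 557091) (nat_lit 12) (.e (nat_lit 164005) (nat_lit 41) (.e (nat_lit 671488) (nat_lit 0) .nil)))))))) (.g (nat_lit 7) .nil .nil)))) (.nd (nat_lit 5) 
(.lf (nat_lit 42076) (.g (nat_lit 2024) (.e (nat_lit 1238) (nat_lit 91) (.e (nat_lit 90174) (nat_lit 14) (.e (nat_lit 180251) (nat_lit 10) (.e (nat_lit 573489) (nat_lit 14) (.e (nat_lit 73754) (nat_lit 8) (.e (nat_lit 557094) (nat_lit 12) (.e (nat_lit 164010) (nat_lit 41) (.e (nat_lit 671488) (nat_lit 0) .nil)))))))) (.g (nat_lit 4) .nil .nil))) 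
(.lf (nat_lit 42108) (.g (nat_lit 3399) (.e (nat_lit 1238) (nat_lit 91) (.e (nat_lit 90174) (nat_lit 14) (.e (nat_lit 180252) (nat_lit 10) (.e (nat_lit 573489) (nat_lit 14) (.e (nat_lit 73755) (nat_lit 8) (.e (nat_lit 557090) (nat_lit 12) (.e (nat_lit 164010) (nat_lit 41) (.e (nat_lit 671488) (nat_lit 0) .nil)))))))) (.g (nat_lit 5) .nil .nil))))))) 
(.nd (nat_lit 2) (.nd (nat_lit 3) (.nd (nat_lit 4) (.nd (nat_lit 5) 
(.lf (nat_lit 42050) (.g (nat_lit 2401) (.e (nat_lit 1238) (nat_lit 91) (.e (nat_lit 90174) (nat_lit 14) (.e (nat_lit 180250) (nat_lit 10) (.e (nat_lit 573489) (nat_lit 14) (.e (nat_lit 73754) (nat_lit 8) (.e (nat_lit 557093) (nat_lit 12) (.e (nat_lit 164008) (nat_lit 41) (.e (nat_lit 671488) (nat_lit 0) .nil)))))))) (.g (nat_lit 4) .nil .nil))) 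
(.lf (nat_lit 42082) (.g (nat_lit 4061) (.e (nat_lit 1238) (nat_lit 91) (.e (nat_lit 90174) (nat_lit 14) (.e (nat_lit 180251) (nat_lit 10) (.e (nat_lit 573489) (nat_lit 14) (.e (nat_lit 73755) (nat_lit 8) (.e (nat_lit 557089) (nat_lit 12) (.e (nat_lit 164007) (nat_lit 41) (.e (nat_lit 663560) (nat_lit 0) .nil)))))))) (.g (nat_lit 6) .nil .nil)))) (.nd (nat_lit 5) 
(.lf (nat_lit 42066) (.g (nat_lit 4294) (.e (nat_lit 1238) (nat_lit 91) (.e (nat_lit 90174) (nat_lit 14) (.e (nat_lit 180250) (nat_lit 10) (.e (nat_lit 573489) (nat_lit 14) (.e (nat_lit 73755) (nat_lit 8) (.e (nat_lit 557090) (nat_lit 12) (.e (nat_lit 164007) (nat_lit 41) (.e (nat_lit 663560) (nat_lit 0) .nil)))))))) (.g (nat_lit 7) .nil .nil))) 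
(.lf (nat_lit 42098) (.g (nat_lit 4014) (.e (nat_lit 1238) (nat_lit 91) (.e (nat_lit 90174) (nat_lit 14) (.e (nat_lit 180251) (nat_lit 10) (.e (nat_lit 573489) (nat_lit 14) (.e (nat_lit 73755) (nat_lit 8) (.e (nat_lit 557091) (nat_lit 12) (.e (nat_lit 164007) (nat_lit 41) (.e (nat_lit 671488) (nat_lit 0) .nil)))))))) (.g (nat_lit 6) .nil .nil))))) (.nd (nat_lit 4) (.nd (nat_lit 5) 
(.lf (nat_lit 42058) (.g (nat_lit 4082) (.e (nat_lit 1238) (nat_lit 91) (.e (nat_lit 90174) (nat_lit 14) (.e (nat_lit 180250) (nat_lit 10) (.e (nat_lit 573489) (nat_lit 14) (.e (nat_lit 73755) (nat_lit 8) (.e (nat_lit 557089) (nat_lit 12) (.e (nat_lit 164007) (nat_lit 41) (.e (nat_lit 671488) (nat_lit 0) .nil)))))))) (.g (nat_lit 7) .nil .nil))) 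
(.lf (nat_lit 42090) (.g (nat_lit 4511) (.e (nat_lit 1238) (nat_lit 91) (.e (nat_lit 90174) (nat_lit 14) (.e (nat_lit 180251) (nat_lit 10) (.e (nat_lit 573489) (nat_lit 14) (.e (nat_lit 73755) (nat_lit 8) (.e (nat_lit 557090) (nat_lit 12) (.e (nat_lit 164008) (nat_lit 41) (.e (nat_lit 671488) (nat_lit 0) .nil)))))))) (.g (nat_lit 5) .nil .nil)))) (.nd (nat_lit 5) 
(.lf (nat_lit 42074) (.g (nat_lit 2639) (.e (nat_lit 1238) (nat_lit 91) (.e (nat_lit 90174) (nat_lit 14) (.e (nat_lit 180251) (nat_lit 10) (.e (nat_lit 573489) (nat_lit 14) (.e (nat_lit 73754) (nat_lit 8) (.e (nat_lit 557093) (nat_lit 12) (.e (nat_lit 164010) (nat_lit 41) (.e (nat_lit 671488) (nat_lit 0) .nil)))))))) (.g (nat_lit 4) .nil .nil))) 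
(.lf (nat_lit 42106) (.g (nat_lit 3596) (.e (nat_lit 1238) (nat_lit 91) (.e (nat_lit 90174) (nat_lit 14) (.e (nat_lit 180252) (nat_lit 10) (.e (nat_lit 573489) (nat_lit 14) (.e (nat_lit 73755) (nat_lit 8) (.e (nat_lit 557090) (nat_lit 12) (.e (nat_lit 164007) (nat_lit 41) (.e (nat_lit 671488) (nat_lit 0) .nil)))))))) (.g (nat_lit 6) .nil .nil)))))) 
(.nd (nat_lit 3) (.nd (nat_lit 4) (.nd (nat_lit 5) 
(.lf (nat_lit 42054) (.g (nat_lit 3353) (.e (nat_lit 1238) (nat_lit 91) (.e (nat_lit 90174) (nat_lit 14) (.e (nat_lit 180250) (nat_lit 10) (.e (nat_lit 573489) (nat_lit 14) (.e (nat_lit 73755) (nat_lit 8) (.e (nat_lit 557089) (nat_lit 12) (.e (nat_lit 164006) (nat_lit 41) (.e (nat_lit 663559) (nat_lit 0) .nil)))))))) (.g (nat_lit 5) .nil .nil))) 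
(.lf (nat_lit 42086) (.g (nat_lit 4302) (.e (nat_lit 1238) (nat_lit 91) (.e (nat_lit 90174) (nat_lit 14) (.e (nat_lit 180251) (nat_lit 10) (.e (nat_lit 573489) (nat_lit 14) (.e (nat_lit 73755) (nat_lit 8) (.e (nat_lit 557090) (nat_lit 12) (.e (nat_lit 164005) (nat_lit 41) (.e (nat_lit 671488) (nat_lit 0) .nil)))))))) (.g (nat_lit 5) .nil .nil)))) (.nd (nat_lit 5) 
(.lf (nat_lit 42070) (.g (nat_lit 3228) (.e (nat_lit 1238) (nat_lit 91) (.e (nat_lit 90174) (nat_lit 14) (.e (nat_lit 180250) (nat_lit 10) (.e (nat_lit 573489) (nat_lit 14) (.e (nat_lit 73755) (nat_lit 8) (.e (nat_lit 557091) (nat_lit 12) (.e (nat_lit 164006) (nat_lit 41) (.e (nat_lit 663559) (nat_lit 0) .nil)))))))) (.g (nat_lit 5) .nil .nil))) 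
(.lf (nat_lit 42102) (.g (nat_lit 3129) (.e (nat_lit 1238) (nat_lit 91) (.e (nat_lit 90174) (nat_lit 14) (.e (nat_lit 180252) (nat_lit 10) (.e (nat_lit 573489) (nat_lit 14) (.e (nat_lit 73755) (nat_lit 8) (.e (nat_lit 557090) (nat_lit 12) (.e (nat_lit 164006) (nat_lit 41) (.e (nat_lit 663559) (nat_lit 0) .nil)))))))) (.g (nat_lit 5) .nil .nil))))) (.nd (nat_lit 4) (.nd (nat_lit 5) 
(.lf (nat_lit 42062) (.g (nat_lit 4658) (.e (nat_lit 1238) (nat_lit 91) (.e (nat_lit 90174) (nat_lit 14) (.e (nat_lit 180250) (nat_lit 10) (.e (nat_lit 573489) (nat_lit 14) (.e (nat_lit 73755) (nat_lit 8) (.e (nat_lit 557090) (nat_lit 12) (.e (nat_lit 164005) (nat_lit 41) (.e (nat_lit 671488) (nat_lit 0) .nil)))))))) (.g (nat_lit 7) .nil .nil))) 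
(.lf (nat_lit 42094) (.g (nat_lit 2154) (.e (nat_lit 1238) (nat_lit 91) (.e (nat_lit 90174) (nat_lit 14) (.e (nat_lit 180251) (nat_lit 10) (.e (nat_lit 573489) (nat_lit 14) (.e (nat_lit 73755) (nat_lit 8) (.e (nat_lit 557091) (nat_lit 12) (.e (nat_lit 164006) (nat_lit 41) (.e (nat_lit 663560) (nat_lit 0) .nil)))))))) (.g (nat_lit 4) .nil .nil)))) (.nd (nat_lit 5) 
(.lf (nat_lit 42078) (.g (nat_lit 2172) (.e (nat_lit 1238) (nat_lit 91) (.e (nat_lit 90174) (nat_lit 14) (.e (nat_lit 180251) (nat_lit 10) (.e (nat_lit 573489) (nat_lit 14) (.e (nat_lit 73755) (nat_lit 8) (.e (nat_lit 557089) (nat_lit 12) (.e (nat_lit 164006) (nat_lit 41) (.e (nat_lit 663560) (nat_lit 0) .nil)))))))) (.g (nat_lit 4) .nil .nil))) 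
(.lf (nat_lit 42110) (.g (nat_lit 1022) (.e (nat_lit 1238) (nat_lit 91) (.e (nat_lit 90176) (nat_lit 15) (.e (nat_lit 188417) (nat_lit 0) (.e (nat_lit 6243) (nat_lit 336) (.e (nat_lit 229510) (nat_lit 118) (.e (nat_lit 794679) (nat_lit 24) (.e (nat_lit 220928) (nat_lit 0) .nil))))))) (.g (nat_lit 4) .nil .nil)))))))) 
(.nd (nat_lit 1) (.nd (nat_lit 2) (.nd (nat_lit 3) (.nd (nat_lit 4) (.nd (nat_lit 5) 
(.lf (nat_lit 42049) (.g (nat_lit 2300) (.e (nat_lit 1238) (nat_lit 91) (.e (nat_lit 90174) (nat_lit 14) (.e (nat_lit 180250) (nat_lit 10) (.e (nat_lit 573487) (nat_lit 14) (.e (nat_lit 73753) (nat_lit 8) (.e (nat_lit 557094) (nat_lit 12) (.e (nat_lit 164010) (nat_lit 41) (.e (nat_lit 671488) (nat_lit 0) .nil)))))))) (.g (nat_lit 4) .nil .nil))) 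
(.lf (nat_lit 42081) (.g (nat_lit 3286) (.e (nat_lit 1238) (nat_lit 91) (.e (nat_lit 90174) (nat_lit 14) (.e (nat_lit 180251) (nat_lit 10) (.e (nat_lit 573489) (nat_lit 14) (.e (nat_lit 73755) (nat_lit 8) (.e (nat_lit 557089) (nat_lit 12) (.e (nat_lit 164007) (nat_lit 41) (.e (nat_lit 663559) (nat_lit 0) .nil)))))))) (.g (nat_lit 5) .nil .nil)))) (.nd (nat_lit 5) 
(.lf (nat_lit 42065) (.g (nat_lit 3692) (.e (nat_lit 1238) (nat_lit 91) (.e (nat_lit 90174) (nat_lit 14) (.e (nat_lit 180250) (nat_lit 10) (.e (nat_lit 573489) (nat_lit 14) (.e (nat_lit 73755) (nat_lit 8) (.e (nat_lit 557090) (nat_lit 12) (.e (nat_lit 164007) (nat_lit 41) (.e (nat_lit 663559) (nat_lit 0) .nil)))))))) (.g (nat_lit 6) .nil .nil))) 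
(.lf (nat_lit 42097) (.g (nat_lit 3828) (.e (nat_lit 1238) (nat_lit 91) (.e (nat_lit 90174) (nat_lit 14) (.e (nat_lit 180251) (nat_lit 10) (.e (nat_lit 573489) (nat_lit 14) (.e (nat_lit 73755) (nat_lit 8) (.e (nat_lit 557091) (nat_lit 12) (.e (nat_lit 164007) (nat_lit 41) (.e (nat_lit 663560) (nat_lit 0) .nil)))))))) (.g (nat_lit 6) .nil .nil))))) (.nd (nat_lit 4) (.nd (nat_lit 5) 
(.lf (nat_lit 42057) (.g (nat_lit 3732) (.e (nat_lit 1238) (nat_lit 91) (.e (nat_lit 90174) (nat_lit 14) (.e (nat_lit 180250) (nat_lit 10) (.e (nat_lit 573489) (nat_lit 14) (.e (nat_lit 73755) (nat_lit 8) (.e (nat_lit 557089) (nat_lit 12) (.e (nat_lit 164007) (nat_lit 41) (.e (nat_lit 663560) (nat_lit 0) .nil)))))))) (.g (nat_lit 6) .nil .nil))) 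
(.lf (nat_lit 42089) (.g (nat_lit 4145) (.e (nat_lit 1238) (nat_lit 91) (.e (nat_lit 90174) (nat_lit 14) (.e (nat_lit 180251) (nat_lit 10) (.e (nat_lit 573489) (nat_lit 14) (.e (nat_lit 73755) (nat_lit 8) (.e (nat_lit 557090) (nat_lit 12) (.e (nat_lit 164007) (nat_lit 41) (.e (nat_lit 671488) (nat_lit 0) .nil)))))))) (.g (nat_lit 5) .nil .nil)))) (.nd (nat_lit 5) 
(.lf (nat_lit 42073) (.g (nat_lit 2229) (.e (nat_lit 1238) (nat_lit 91) (.e (nat_lit 90174) (nat_lit 14) (.e (nat_lit 180251) (nat_lit 10) (.e (nat_lit 573489) (nat_lit 14) (.e (nat_lit 73754) (nat_lit 8) (.e (nat_lit 557093) (nat_lit 12) (.e (nat_lit 164008) (nat_lit 41) (.e (nat_lit 671488) (nat_lit 0) .nil)))))))) (.g (nat_lit 4) .nil .nil))) 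
(.lf (nat_lit 42105) (.g (nat_lit 3353) (.e (nat_lit 1238) (nat_lit 91) (.e (nat_lit 90174) (nat_lit 14) (.e (nat_lit 180252) (nat_lit 10) (.e (nat_lit 573489) (nat_lit 14) (.e (nat_lit 73755) (nat_lit 8) (.e (nat_lit 557090) (nat_lit 12) (.e (nat_lit 164007) (nat_lit 41) (.e (nat_lit 663560) (nat_lit 0) .nil)))))))) (.g (nat_lit 5) .nil .nil)))))) 
(.nd (nat_lit 3) (.nd (nat_lit 4) (.nd (nat_lit 5) 
(.lf (nat_lit 42053) (.g (nat_lit 3330) (.e (nat_lit 1238) (nat_lit 91) (.e (nat_lit 90174) (nat_lit 14) (.e (nat_lit 180250) (nat_lit 10) (.e (nat_lit 573489) (nat_lit 14) (.e (nat_lit 73755) (nat_lit 8) (.e (nat_lit 557089) (nat_lit 12) (.e (nat_lit 164005) (nat_lit 41) (.e (nat_lit 671488) (nat_lit 0) .nil)))))))) (.g (nat_lit 5) .nil .nil))) 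
(.lf (nat_lit 42085) (.g (nat_lit 4297) (.e (nat_lit 1238) (nat_lit 91) (.e (nat_lit 90174) (nat_lit 14) (.e (nat_lit 180251) (nat_lit 10) (.e (nat_lit 573489) (nat_lit 14) (.e (nat_lit 73755) (nat_lit 8) (.e (nat_lit 557090) (nat_lit 12) (.e (nat_lit 164004) (nat_lit 41) (.e (nat_lit 671488) (nat_lit 0) .nil)))))))) (.g (nat_lit 5) .nil .nil)))) (.nd (nat_lit 5) 
(.lf (nat_lit 42069) (.g (nat_lit 4304) (.e (nat_lit 1238) (nat_lit 91) (.e (nat_lit 90174) (nat_lit 14) (.e (nat_lit 180250) (nat_lit 10) (.e (nat_lit 573489) (nat_lit 14) (.e (nat_lit 73755) (nat_lit 8) (.e (nat_lit 557090) (nat_lit 12) (.e (nat_lit 164010) (nat_lit 41) (.e (nat_lit 671488) (nat_lit 0) .nil)))))))) (.g (nat_lit 6) .nil .nil))) 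
(.lf (nat_lit 42101) (.g (nat_lit 2333) (.e (nat_lit 1238) (nat_lit 91) (.e (nat_lit 90174) (nat_lit 14) (.e (nat_lit 180252) (nat_lit 10) (.e (nat_lit 573489) (nat_lit 14) (.e (nat_lit 73755) (nat_lit 8) .nil))))) .nil)))) (.nd (nat_lit 4) (.nd (nat_lit 5) 
(.lf (nat_lit 42061) (.g (nat_lit 4653) (.e (nat_lit 1238) (nat_lit 91) (.e (nat_lit 90174) (nat_lit 14) (.e (nat_lit 180250) (nat_lit 10) (.e (nat_lit 573489) (nat_lit 14) (.e (nat_lit 73755) (nat_lit 8) (.e (nat_lit 557090) (nat_lit 12) (.e (nat_lit 164004) (nat_lit 41) (.e (nat_lit 671488) (nat_lit 0) .nil)))))))) (.g (nat_lit 6) .nil .nil))) 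
(.lf (nat_lit 42093) (.g (nat_lit 3658) (.e (nat_lit 1238) (nat_lit 91) (.e (nat_lit 90174) (nat_lit 14) (.e (nat_lit 180251) (nat_lit 10) (.e (nat_lit 573489) (nat_lit 14) (.e (nat_lit 73755) (nat_lit 8) (.e (nat_lit 557091) (nat_lit 12) (.e (nat_lit 164006) (nat_lit 41) (.e (nat_lit 663559) (nat_lit 0) .nil)))))))) (.g (nat_lit 6) .nil .nil)))) (.nd (nat_lit 5) 
(.lf (nat_lit 42077) (.g (nat_lit 3661) (.e (nat_lit 1238) (nat_lit 91) (.e (nat_lit 90174) (nat_lit 14) (.e (nat_lit 180251) (nat_lit 10) (.e (nat_lit 573489) (nat_lit 14) (.e (nat_lit 73755) (nat_lit 8) (.e (nat_lit 557089) (nat_lit 12) (.e (nat_lit 164006) (nat_lit 41) (.e (nat_lit 663559) (nat_lit 0) .nil)))))))) (.g (nat_lit 6) .nil .nil))) 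
(.lf (nat_lit 42109) (.g (nat_lit 478) (.e (nat_lit 1238) (nat_lit 91) (.e (nat_lit 90176) (nat_lit 15) (.e (nat_lit 188417) (nat_lit 0) .nil))) .nil)))))) (.nd (nat_lit 2) (.nd (nat_lit 3) (.nd (nat_lit 4) (.nd (nat_lit 5) 
(.lf (nat_lit 42051) (.g (nat_lit 3378) (.e (nat_lit 1238) (nat_lit 91) (.e (nat_lit 90174) (nat_lit 14) (.e (nat_lit 180250) (nat_lit 10) (.e (nat_lit 573489) (nat_lit 14) (.e (nat_lit 73754) (nat_lit 8) (.e (nat_lit 557094) (nat_lit 12) (.e (nat_lit 164008) (nat_lit 41) (.e (nat_lit 671488) (nat_lit 0) .nil)))))))) (.g (nat_lit 5) .nil .nil))) 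
(.lf (nat_lit 42083) (.g (nat_lit 4339) (.e (nat_lit 1238) (nat_lit 91) (.e (nat_lit 90174) (nat_lit 14) (.e (nat_lit 180251) (nat_lit 10) (.e (nat_lit 573489) (nat_lit 14) (.e (nat_lit 73755) (nat_lit 8) (.e (nat_lit 557089) (nat_lit 12) (.e (nat_lit 164007) (nat_lit 41) (.e (nat_lit 671488) (nat_lit 0) .nil)))))))) (.g (nat_lit 7) .nil .nil)))) (.nd (nat_lit 5) 
(.lf (nat_lit 42067) (.g (nat_lit 4501) (.e (nat_lit 1238) (nat_lit 91) (.e (nat_lit 90174) (nat_lit 14) (.e (nat_lit 180250) (nat_lit 10) (.e (nat_lit 573489) (nat_lit 14) (.e (nat_lit 73755) (nat_lit 8) (.e (nat_lit 557090) (nat_lit 12) (.e (nat_lit 164007) (nat_lit 41) (.e (nat_lit 671488) (nat_lit 0) .nil)))))))) (.g (nat_lit 7) .nil .nil))) 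
(.lf (nat_lit 42099) (.g (nat_lit 4293) (.e (nat_lit 1238) (nat_lit 91) (.e (nat_lit 90174) (nat_lit 14) (.e (nat_lit 180251) (nat_lit 10) (.e (nat_lit 573489) (nat_lit 14) (.e (nat_lit 73755) (nat_lit 8) (.e (nat_lit 557091) (nat_lit 12) (.e (nat_lit 164008) (nat_lit 41) (.e (nat_lit 671488) (nat_lit 0) .nil)))))))) (.g (nat_lit 7) .nil .nil))))) (.nd (nat_lit 4) (.nd (nat_lit 5) 
(.lf (nat_lit 42059) (.g (nat_lit 3997) (.e (nat_lit 1238) (nat_lit 91) (.e (nat_lit 90174) (nat_lit 14) (.e (nat_lit 180250) (nat_lit 10) (.e (nat_lit 573489) (nat_lit 14) (.e (nat_lit 73755) (nat_lit 8) (.e (nat_lit 557089) (nat_lit 12) (.e (nat_lit 164010) (nat_lit 41) (.e (nat_lit 671488) (nat_lit 0) .nil)))))))) (.g (nat_lit 6) .nil .nil))) 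
(.lf (nat_lit 42091) (.g (nat_lit 2734) (.e (nat_lit 1238) (nat_lit 91) (.e (nat_lit 90174) (nat_lit 14) (.e (nat_lit 180251) (nat_lit 10) (.e (nat_lit 573489) (nat_lit 14) (.e (nat_lit 73755) (nat_lit 8) (.e (nat_lit 557091) (nat_lit 12) (.e (nat_lit 164005) (nat_lit 41) (.e (nat_lit 663559) (nat_lit 0) .nil)))))))) (.g (nat_lit 5) .nil .nil)))) (.nd (nat_lit 5) 
(.lf (nat_lit 42075) (.g (nat_lit 3167) (.e (nat_lit 1238) (nat_lit 91) (.e (nat_lit 90174) (nat_lit 14) (.e (nat_lit 180251) (nat_lit 10) (.e (nat_lit 573489) (nat_lit 14) (.e (nat_lit 73754) (nat_lit 8) (.e (nat_lit 557094) (nat_lit 12) (.e (nat_lit 164008) (nat_lit 41) (.e (nat_lit 671488) (nat_lit 0) .nil)))))))) (.g (nat_lit 5) .nil .nil))) 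
(.lf (nat_lit 42107) (.g (nat_lit 2479) (.e (nat_lit 1238) (nat_lit 91) (.e (nat_lit 90174) (nat_lit 14) (.e (nat_lit 180252) (nat_lit 10) (.e (nat_lit 573489) (nat_lit 14) (.e (nat_lit 73755) (nat_lit 8) (.e (nat_lit 557090) (nat_lit 12) (.e (nat_lit 164009) (nat_lit 41) (.e (nat_lit 671488) (nat_lit 0) .nil)))))))) (.g (nat_lit 4) .nil .nil)))))) 
(.nd (nat_lit 3) (.nd (nat_lit 4) (.nd (nat_lit 5) 
(.lf (nat_lit 42055) (.g (nat_lit 4450) (.e (nat_lit 1238) (nat_lit 91) (.e (nat_lit 90174) (nat_lit 14) (.e (nat_lit 180250) (nat_lit 10) (.e (nat_lit 573489) (nat_lit 14) (.e (nat_lit 73755) (nat_lit 8) (.e (nat_lit 557089) (nat_lit 12) (.e (nat_lit 164006) (nat_lit 41) (.e (nat_lit 671488) (nat_lit 0) .nil)))))))) (.g (nat_lit 7) .nil .nil))) 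
(.lf (nat_lit 42087) (.g (nat_lit 4532) (.e (nat_lit 1238) (nat_lit 91) (.e (nat_lit 90174) (nat_lit 14) (.e (nat_lit 180251) (nat_lit 10) (.e (nat_lit 573489) (nat_lit 14) (.e (nat_lit 73755) (nat_lit 8) (.e (nat_lit 557090) (nat_lit 12) (.e (nat_lit 164006) (nat_lit 41) (.e (nat_lit 671488) (nat_lit 0) .nil)))))))) (.g (nat_lit 5) .nil .nil)))) (.nd (nat_lit 5) 
(.lf (nat_lit 42071) (.g (nat_lit 4233) (.e (nat_lit 1238) (nat_lit 91) (.e (nat_lit 90174) (nat_lit 14) (.e (nat_lit 180250) (nat_lit 10) (.e (nat_lit 573489) (nat_lit 14) (.e (nat_lit 73755) (nat_lit 8) (.e (nat_lit 557091) (nat_lit 12) (.e (nat_lit 164006) (nat_lit 41) (.e (nat_lit 671488) (nat_lit 0) .nil)))))))) (.g (nat_lit 6) .nil .nil))) 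
(.lf (nat_lit 42103) (.g (nat_lit 3983) (.e (nat_lit 1238) (nat_lit 91) (.e (nat_lit 90174) (nat_lit 14) (.e (nat_lit 180252) (nat_lit 10) (.e (nat_lit 573489) (nat_lit 14) (.e (nat_lit 73755) (nat_lit 8) (.e (nat_lit 557090) (nat_lit 12) (.e (nat_lit 164006) (nat_lit 41) (.e (nat_lit 671488) (nat_lit 0) .nil)))))))) (.g (nat_lit 6) .nil .nil))))) (.nd (nat_lit 4) (.nd (nat_lit 5) 
(.lf (nat_lit 42063) (.g (nat_lit 4098) (.e (nat_lit 1238) (nat_lit 91) (.e (nat_lit 90174) (nat_lit 14) (.e (nat_lit 180250) (nat_lit 10) (.e (nat_lit 573489) (nat_lit 14) (.e (nat_lit 73755) (nat_lit 8) (.e (nat_lit 557090) (nat_lit 12) (.e (nat_lit 164006) (nat_lit 41) (.e (nat_lit 663559) (nat_lit 0) .nil)))))))) (.g (nat_lit 6) .nil .nil))) 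
(.lf (nat_lit 42095) (.g (nat_lit 4612) (.e (nat_lit 1238) (nat_lit 91) (.e (nat_lit 90174) (nat_lit 14) (.e (nat_lit 180251) (nat_lit 10) (.e (nat_lit 573489) (nat_lit 14) (.e (nat_lit 73755) (nat_lit 8) (.e (nat_lit 557091) (nat_lit 12) (.e (nat_lit 164006) (nat_lit 41) (.e (nat_lit 671488) (nat_lit 0) .nil)))))))) (.g (nat_lit 7) .nil .nil)))) (.nd (nat_lit 5) 
(.lf (nat_lit 42079) (.g (nat_lit 4707) (.e (nat_lit 1238) (nat_lit 91) (.e (nat_lit 90174) (nat_lit 14) (.e (nat_lit 180251) (nat_lit 10) (.e (nat_lit 573489) (nat_lit 14) (.e (nat_lit 73755) (nat_lit 8) (.e (nat_lit 557089) (nat_lit 12) (.e (nat_lit 164006) (nat_lit 41) (.e (nat_lit 671488) (nat_lit 0) .nil)))))))) (.g (nat_lit 7) .nil .nil))) 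
(.lf (nat_lit 42111) (.g (nat_lit 1078) (.e (nat_lit 1238) (nat_lit 91) (.e (nat_lit 90176) (nat_lit 15) (.e (nat_lit 188417) (nat_lit 0) (.e (nat_lit 6243) (nat_lit 336) (.e (nat_lit 229510) (nat_lit 118) (.e (nat_lit 794680) (nat_lit 24) (.e (nat_lit 220928) (nat_lit 0) .nil))))))) (.g (nat_lit 4) .nil .nil)))))))))

noncomputable def tv585 : DT := (.nd (nat_lit 0) (.nd (nat_lit 1) (.nd (nat_lit 2) (.nd (nat_lit 3) (.nd (nat_lit 4) (.nd (nat_lit 5) 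
(.lf (nat_lit 42112) (.g (nat_lit 498) (.e (nat_lit 1238) (nat_lit 91) (.e (nat_lit 90176) (nat_lit 15) (.e (nat_lit 188418) (nat_lit 0) .nil))) .nil)) 
(.lf (nat_lit 42144) (.g (nat_lit 1726) (.e (nat_lit 1238) (nat_lit 91) (.e (nat_lit 90176) (nat_lit 15) (.e (nat_lit 188439) (nat_lit 20) (.e (nat_lit 3270) (nat_lit 199) (.e (nat_lit 548913) (nat_lit 18) (.e (nat_lit 172039) (nat_lit 0) (.e (nat_lit 7936) (nat_lit 402) .nil))))))) (.g (nat_lit 6) .nil .nil)))) (.nd (nat_lit 5) 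
(.lf (nat_lit 42128) (.g (nat_lit 1000) (.e (nat_lit 1238) (nat_lit 91) (.e (nat_lit 90176) (nat_lit 15) (.e (nat_lit 196352) (nat_lit 19) (.e (nat_lit 401472) (nat_lit 28) (.e (nat_lit 344145) (nat_lit 32) (.e (nat_lit 614144) (nat_lit 0) .nil)))))) (.g (nat_lit 5) .nil .nil))) 
(.lf (nat_lit 42160) (.g (nat_lit 1341) (.e (nat_lit 1238) (nat_lit 91) (.e (nat_lit 90176) (nat_lit 15) (.e (nat_lit 188439) (nat_lit 20) (.e (nat_lit 3271) (nat_lit 199) (.e (nat_lit 548914) (nat_lit 19) (.e (nat_lit 188160) (nat_lit 32) .nil)))))) (.g (nat_lit 5) .nil .nil))))) (.nd (nat_lit 4) (.nd (nat_lit 5) 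
(.lf (nat_lit 42120) (.g (nat_lit 1398) (.e (nat_lit 1238) (nat_lit 91) (.e (nat_lit 90176) (nat_lit 15) (.e (nat_lit 188423) (nat_lit 11) (.e (nat_lit 335894) (nat_lit 0) (.e (nat_lit 2366) (nat_lit 153) .nil))))) .nil)) 
(.lf (nat_lit 42152) (.g (nat_lit 1555) (.e (nat_lit 1238) (nat_lit 91) (.e (nat_lit 90176) (nat_lit 15) (.e (nat_lit 188439) (nat_lit 20) (.e (nat_lit 3271) (nat_lit 199) (.e (nat_lit 548913) (nat_lit 18) (.e (nat_lit 172034) (nat_lit 0) (.e (nat_lit 7545) (nat_lit 402) .nil))))))) (.g (nat_lit 5) .nil .nil)))) (.nd (nat_lit 5) 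
(.lf (nat_lit 42136) (.g (nat_lit 918) (.e (nat_lit 1238) (nat_lit 91) (.e (nat_lit 90176) (nat_lit 15) (.e (nat_lit 188439) (nat_lit 20) (.e (nat_lit 2449) (nat_lit 157) .nil)))) .nil)) 
(.lf (nat_lit 42168) (.g (nat_lit 3018) (.e (nat_lit 1238) (nat_lit 91) (.e (nat_lit 90176) (nat_lit 15) (.e (nat_lit 188439) (nat_lit 20) (.e (nat_lit 3272) (nat_lit 199) (.e (nat_lit 548913) (nat_lit 18) (.e (nat_lit 172035) (nat_lit 0) (.e (nat_lit 7936) (nat_lit 402) .nil))))))) (.g (nat_lit 6) .nil .nil)))))) (.nd (nat_lit 3) (.nd (nat_lit 4) (.nd (nat_lit 5) 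
(.lf (nat_lit 42116) (.g (nat_lit 1712) (.e (nat_lit 1238) (nat_lit 91) (.e (nat_lit 90176) (nat_lit 15) (.e (nat_lit 196352) (nat_lit 0) (.e (nat_lit 1848) (nat_lit 124) (.e (nat_lit 557104) (nat_lit 14) (.e (nat_lit 188160) (nat_lit 32) .nil)))))) (.g (nat_lit 5) .nil .nil))) 
(.lf (nat_lit 42148) (.g (nat_lit 2397) (.e (nat_lit 1238) (nat_lit 91) (.e (nat_lit 90176) (nat_lit 15) (.e (nat_lit 188439) (nat_lit 20) (.e (nat_lit 3271) (nat_lit 199) (.e (nat_lit 548913) (nat_lit 18) (.e (nat_lit 172033) (nat_lit 0) (.e (nat_lit 7545) (nat_lit 402) .nil))))))) (.g (nat_lit 0) .nil .nil)))) (.nd (nat_lit 5) 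
(.lf (nat_lit 42132) (.g (nat_lit 2273) (.e (nat_lit 1238) (nat_lit 91) (.e (nat_lit 90176) (nat_lit 15) (.e (nat_lit 188431) (nat_lit 20) (.e (nat_lit 3543) (nat_lit 219) (.e (nat_lit 712747) (nat_lit 28) (.e (nat_lit 434275) (nat_lit 39) (.e (nat_lit 671488) (nat_lit 0) .nil))))))) (.g (nat_lit 6) .nil .nil))) 
(.lf (nat_lit 42164) (.g (nat_lit 2280) (.e (nat_lit 1238) (nat_lit 91) (.e (nat_lit 90176) (nat_lit 15) (.e (nat_lit 188439) (nat_lit 20) (.e (nat_lit 3272) (nat_lit 199) (.e (nat_lit 548913) (nat_lit 18) (.e (nat_lit 172032) (nat_lit 0) (.e (nat_lit 7545) (nat_lit 402) .nil))))))) (.g (nat_lit 5) .nil .nil))))) (.nd (nat_lit 4) (.nd (nat_lit 5) 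
(.lf (nat_lit 42124) (.g (nat_lit 1091) (.e (nat_lit 1238) (nat_lit 91) (.e (nat_lit 90176) (nat_lit 15) (.e (nat_lit 188423) (nat_lit 11) (.e (nat_lit 335895) (nat_lit 0) (.e (nat_lit 2368) (nat_lit 153) (.e (nat_lit 794679) (nat_lit 24) (.e (nat_lit 220928) (nat_lit 0) .nil))))))) (.g (nat_lit 4) .nil .nil))) 
(.lf (nat_lit 42156) (.g (nat_lit 1697) (.e (nat_lit 1238) (nat_lit 91) (.e (nat_lit 90176) (nat_lit 15) (.e (nat_lit 188439) (nat_lit 20) (.e (nat_lit 3271) (nat_lit 199) (.e (nat_lit 548913) (nat_lit 18) (.e (nat_lit 172039) (nat_lit 0) (.e (nat_lit 7936) (nat_lit 402) .nil))))))) (.g (nat_lit 6) .nil .nil)))) (.nd (nat_lit 5) 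
(.lf (nat_lit 42140) (.g (nat_lit 1743) (.e (nat_lit 1238) (nat_lit 91) (.e (nat_lit 90176) (nat_lit 15) (.e (nat_lit 188439) (nat_lit 20) (.e (nat_lit 3270) (nat_lit 199) (.e (nat_lit 548913) (nat_lit 18) (.e (nat_lit 172034) (nat_lit 0) (.e (nat_lit 7541) (nat_lit 402) .nil))))))) (.g (nat_lit 5) .nil .nil))) 
(.lf (nat_lit 42172) (.g (nat_lit 3653) (.e (nat_lit 1238) (nat_lit 91) (.e (nat_lit 90176) (nat_lit 15) (.e (nat_lit 188439) (nat_lit 20) (.e (nat_lit 3272) (nat_lit 199) (.e (nat_lit 548913) (nat_lit 18) (.e (nat_lit 172041) (nat_lit 0) (.e (nat_lit 7540) (nat_lit 402) .nil))))))) (.g (nat_lit 0) .nil .nil))))))) (.nd (nat_lit 2) (.nd (nat_lit 3) (.nd (nat_lit 4) (.nd (nat_lit 5) 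
(.lf (nat_lit 42114) (.g (nat_lit 1920) (.e (nat_lit 1238) (nat_lit 91) (.e (nat_lit 90176) (nat_lit 15) (.e (nat_lit 188420) (nat_lit 0) (.e (nat_lit 1856) (nat_lit 124) (.e (nat_lit 557103) (nat_lit 14) (.e (nat_lit 188160) (nat_lit 32) .nil)))))) (.g (nat_lit 5) .nil .nil))) 
(.lf (nat_lit 42146) (.g (nat_lit 1544) (.e (nat_lit 1238) (nat_lit 91) (.e (nat_lit 90176) (nat_lit 15) (.e (nat_lit 188439) (nat_lit 20) (.e (nat_lit 3270) (nat_lit 199) (.e (nat_lit 548913) (nat_lit 18) (.e (nat_lit 172049) (nat_lit 0) (.e (nat_lit 7936) (nat_lit 402) .nil))))))) (.g (nat_lit 5) .nil .nil)))) (.nd (nat_lit 5) 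
(.lf (nat_lit 42130) (.g (nat_lit 396) (.e (nat_lit 1238) (nat_lit 91) (.e (nat_lit 90176) (nat_lit 15) (.e (nat_lit 188431) (nat_lit 20) .nil))) .nil)) 
(.lf (nat_lit 42162) (.g (nat_lit 1196) (.e (nat_lit 1238) (nat_lit 91) (.e (nat_lit 90176) (nat_lit 15) (.e (nat_lit 188439) (nat_lit 20) (.e (nat_lit 3272) (nat_lit 199) (.e (nat_lit 548897) (nat_lit 14) (.e (nat_lit 2975) (nat_lit 185) (.e (nat_lit 442112) (nat_lit 0) .nil))))))) (.g (nat_lit 4) .nil .nil))))) (.nd (nat_lit 4) (.nd (nat_lit 5) 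
(.lf (nat_lit 42122) (.g (nat_lit 1076) (.e (nat_lit 1238) (nat_lit 91) (.e (nat_lit 90176) (nat_lit 15) (.e (nat_lit 188423) (nat_lit 11) (.e (nat_lit 335895) (nat_lit 0) (.e (nat_lit 2366) (nat_lit 153) .nil))))) .nil)) 
(.lf (nat_lit 42154) (.g (nat_lit 2112) (.e (nat_lit 1238) (nat_lit 91) (.e (nat_lit 90176) (nat_lit 15) (.e (nat_lit 188439) (nat_lit 20) (.e (nat_lit 3271) (nat_lit 199) (.e (nat_lit 548913) (nat_lit 18) (.e (nat_lit 172035) (nat_lit 0) (.e (nat_lit 7936) (nat_lit 402) .nil))))))) (.g (nat_lit 6) .nil .nil)))) (.nd (nat_lit 5) 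
(.lf (nat_lit 42138) (.g (nat_lit 2137) (.e (nat_lit 1238) (nat_lit 91) (.e (nat_lit 90176) (nat_lit 15) (.e (nat_lit 188439) (nat_lit 20) (.e (nat_lit 3270) (nat_lit 199) (.e (nat_lit 548913) (nat_lit 18) (.e (nat_lit 172033) (nat_lit 0) (.e (nat_lit 7936) (nat_lit 402) .nil))))))) (.g (nat_lit 6) .nil .nil))) 
(.lf (nat_lit 42170) (.g (nat_lit 2168) (.e (nat_lit 1238) (nat_lit 91) (.e (nat_lit 90176) (nat_lit 15) (.e (nat_lit 188439) (nat_lit 20) (.e (nat_lit 3272) (nat_lit 199) (.e (nat_lit 548913) (nat_lit 18) (.e (nat_lit 172038) (nat_lit 0) (.e (nat_lit 7936) (nat_lit 402) .nil))))))) (.g (nat_lit 5) .nil .nil)))))) (.nd (nat_lit 3) (.nd (nat_lit 4) (.nd (nat_lit 5) 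
(.lf (nat_lit 42118) (.g (nat_lit 2091) (.e (nat_lit 1238) (nat_lit 91) (.e (nat_lit 90176) (nat_lit 15) (.e (nat_lit 196352) (nat_lit 0) (.e (nat_lit 1853) (nat_lit 124) (.e (nat_lit 557104) (nat_lit 14) (.e (nat_lit 188160) (nat_lit 32) .nil)))))) (.g (nat_lit 5) .nil .nil))) 
(.lf (nat_lit 42150) (.g (nat_lit 1450) (.e (nat_lit 1238) (nat_lit 91) (.e (nat_lit 90176) (nat_lit 15) (.e (nat_lit 188439) (nat_lit 20) (.e (nat_lit 3271) (nat_lit 199) (.e (nat_lit 548913) (nat_lit 18) (.e (nat_lit 172034) (nat_lit 0) (.e (nat_lit 7499) (nat_lit 402) .nil))))))) (.g (nat_lit 5) .nil .nil)))) (.nd (nat_lit 5) 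
(.lf (nat_lit 42134) (.g (nat_lit 330) (.e (nat_lit 1238) (nat_lit 91) (.e (nat_lit 90176) (nat_lit 15) (.e (nat_lit 188439) (nat_lit 20) .nil))) .nil)) 
(.lf (nat_lit 42166) (.g (nat_lit 2275) (.e (nat_lit 1238) (nat_lit 91) (.e (nat_lit 90176) (nat_lit 15) (.e (nat_lit 188439) (nat_lit 20) (.e (nat_lit 3272) (nat_lit 199) (.e (nat_lit 548913) (nat_lit 18) (.e (nat_lit 172034) (nat_lit 0) (.e (nat_lit 7499) (nat_lit 402) .nil))))))) (.g (nat_lit 6) .nil .nil))))) (.nd (nat_lit 4) (.nd (nat_lit 5) 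
(.lf (nat_lit 42126) (.g (nat_lit 652) (.e (nat_lit 1238) (nat_lit 91) (.e (nat_lit 90176) (nat_lit 15) (.e (nat_lit 188423) (nat_lit 11) (.e (nat_lit 336049) (nat_lit 6) .nil)))) .nil)) 
(.lf (nat_lit 42158) (.g (nat_lit 1567) (.e (nat_lit 1238) (nat_lit 91) (.e (nat_lit 90176) (nat_lit 15) (.e (nat_lit 188439) (nat_lit 20) (.e (nat_lit 3271) (nat_lit 199) (.e (nat_lit 548913) (nat_lit 18) (.e (nat_lit 172041) (nat_lit 0) (.e (nat_lit 7936) (nat_lit 402) .nil))))))) (.g (nat_lit 5) .nil .nil)))) (.nd (nat_lit 5) 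
(.lf (nat_lit 42142) (.g (nat_lit 1655) (.e (nat_lit 1238) (nat_lit 91) (.e (nat_lit 90176) (nat_lit 15) (.e (nat_lit 188439) (nat_lit 20) (.e (nat_lit 3270) (nat_lit 199) (.e (nat_lit 548913) (nat_lit 18) (.e (nat_lit 172034) (nat_lit 0) (.e (nat_lit 7936) (nat_lit 402) .nil))))))) (.g (nat_lit 5) .nil .nil))) 
(.lf (nat_lit 42174) (.g (nat_lit 1726) (.e (nat_lit 1238) (nat_lit 91) (.e (nat_lit 90176) (nat_lit 15) (.e (nat_lit 188439) (nat_lit 20) (.e (nat_lit 3272) (nat_lit 199) (.e (nat_lit 548914) (nat_lit 19) (.e (nat_lit 188160) (nat_lit 32) .nil)))))) (.g (nat_lit 5) .nil .nil)))))))) (.nd (nat_lit 1) (.nd (nat_lit 2) (.nd (nat_lit 3) (.nd (nat_lit 4) (.nd (nat_lit 5) 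
(.lf (nat_lit 42113) (.g (nat_lit 761) (.e (nat_lit 1238) (nat_lit 91) (.e (nat_lit 90176) (nat_lit 15) (.e (nat_lit 188420) (nat_lit 0) (.e (nat_lit 1846) (nat_lit 124) .nil)))) .nil)) 
(.lf (nat_lit 42145) (.g (nat_lit 2992) (.e (nat_lit 1238) (nat_lit 91) (.e (nat_lit 90176) (nat_lit 15) (.e (nat_lit 188439) (nat_lit 20) (.e (nat_lit 3270) (nat_lit 199) (.e (nat_lit 548913) (nat_lit 18) (.e (nat_lit 172041) (nat_lit 0) (.e (nat_lit 7540) (nat_lit 402) .nil))))))) (.g (nat_lit 7) .nil .nil)))) (.nd (nat_lit 5) 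
(.lf (nat_lit 42129) (.g (nat_lit 808) (.e (nat_lit 1238) (nat_lit 91) (.e (nat_lit 90176) (nat_lit 15) (.e (nat_lit 188427) (nat_lit 20) (.e (nat_lit 3547) (nat_lit 219) .nil)))) .nil)) 
(.lf (nat_lit 42161) (.g (nat_lit 1066) (.e (nat_lit 1238) (nat_lit 91) (.e (nat_lit 90176) (nat_lit 15) (.e (nat_lit 188439) (nat_lit 20) (.e (nat_lit 3272) (nat_lit 199) (.e (nat_lit 548897) (nat_lit 14) .nil))))) .nil)))) (.nd (nat_lit 4) (.nd (nat_lit 5) 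
(.lf (nat_lit 42121) (.g (nat_lit 1498) (.e (nat_lit 1238) (nat_lit 91) (.e (nat_lit 90176) (nat_lit 15) (.e (nat_lit 188423) (nat_lit 11) (.e (nat_lit 335895) (nat_lit 0) (.e (nat_lit 2363) (nat_lit 153) (.e (nat_lit 794679) (nat_lit 24) (.e (nat_lit 220928) (nat_lit 0) .nil))))))) (.g (nat_lit 6) .nil .nil))) 
(.lf (nat_lit 42153) (.g (nat_lit 1474) (.e (nat_lit 1238) (nat_lit 91) (.e (nat_lit 90176) (nat_lit 15) (.e (nat_lit 188439) (nat_lit 20) (.e (nat_lit 3271) (nat_lit 199) (.e (nat_lit 548913) (nat_lit 18) (.e (nat_lit 172034) (nat_lit 0) (.e (nat_lit 7936) (nat_lit 402) .nil))))))) (.g (nat_lit 5) .nil .nil)))) (.nd (nat_lit 5) 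
(.lf (nat_lit 42137) (.g (nat_lit 2701) (.e (nat_lit 1238) (nat_lit 91) (.e (nat_lit 90176) (nat_lit 15) (.e (nat_lit 188439) (nat_lit 20) (.e (nat_lit 3270) (nat_lit 199) (.e (nat_lit 548913) (nat_lit 18) (.e (nat_lit 172033) (nat_lit 0) (.e (nat_lit 7545) (nat_lit 402) .nil))))))) (.g (nat_lit 0) .nil .nil))) 
(.lf (nat_lit 42169) (.g (nat_lit 2342) (.e (nat_lit 1238) (nat_lit 91) (.e (nat_lit 90176) (nat_lit 15) (.e (nat_lit 188439) (nat_lit 20) (.e (nat_lit 3272) (nat_lit 199) (.e (nat_lit 548913) (nat_lit 18) (.e (nat_lit 172036) (nat_lit 0) (.e (nat_lit 7936) (nat_lit 402) .nil))))))) (.g (nat_lit 6) .nil .nil)))))) (.nd (nat_lit 3) (.nd (nat_lit 4) (.nd (nat_lit 5) 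
(.lf (nat_lit 42117) (.g (nat_lit 1492) (.e (nat_lit 1238) (nat_lit 91) (.e (nat_lit 90176) (nat_lit 15) (.e (nat_lit 196352) (nat_lit 0) (.e (nat_lit 1849) (nat_lit 124) (.e (nat_lit 557104) (nat_lit 14) (.e (nat_lit 188160) (nat_lit 32) .nil)))))) (.g (nat_lit 5) .nil .nil))) 
(.lf (nat_lit 42149) (.g (nat_lit 1832) (.e (nat_lit 1238) (nat_lit 91) (.e (nat_lit 90176) (nat_lit 15) (.e (nat_lit 188439) (nat_lit 20) (.e (nat_lit 3271) (nat_lit 199) (.e (nat_lit 548913) (nat_lit 18) (.e (nat_lit 172033) (nat_lit 0) (.e (nat_lit 7936) (nat_lit 402) .nil))))))) (.g (nat_lit 6) .nil .nil)))) (.nd (nat_lit 5) 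
(.lf (nat_lit 42133) (.g (nat_lit 1986) (.e (nat_lit 1238) (nat_lit 91) (.e (nat_lit 90176) (nat_lit 15) (.e (nat_lit 188431) (nat_lit 20) (.e (nat_lit 3547) (nat_lit 219) (.e (nat_lit 712747) (nat_lit 28) (.e (nat_lit 434275) (nat_lit 39) (.e (nat_lit 671488) (nat_lit 0) .nil))))))) (.g (nat_lit 6) .nil .nil))) 
(.lf (nat_lit 42165) (.g (nat_lit 2343) (.e (nat_lit 1238) (nat_lit 91) (.e (nat_lit 90176) (nat_lit 15) (.e (nat_lit 188439) (nat_lit 20) (.e (nat_lit 3272) (nat_lit 199) (.e (nat_lit 548913) (nat_lit 18) (.e (nat_lit 172033) (nat_lit 0) (.e (nat_lit 7936) (nat_lit 402) .nil))))))) (.g (nat_lit 6) .nil .nil))))) (.nd (nat_lit 4) (.nd (nat_lit 5) 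
(.lf (nat_lit 42125) (.g (nat_lit 1202) (.e (nat_lit 1238) (nat_lit 91) (.e (nat_lit 90176) (nat_lit 15) (.e (nat_lit 188423) (nat_lit 11) (.e (nat_lit 335914) (nat_lit 0) (.e (nat_lit 7936) (nat_lit 153) (.e (nat_lit 794680) (nat_lit 24) (.e (nat_lit 220928) (nat_lit 0) .nil))))))) (.g (nat_lit 6) .nil .nil))) 
(.lf (nat_lit 42157) (.g (nat_lit 2950) (.e (nat_lit 1238) (nat_lit 91) (.e (nat_lit 90176) (nat_lit 15) (.e (nat_lit 188439) (nat_lit 20) (.e (nat_lit 3271) (nat_lit 199) (.e (nat_lit 548913) (nat_lit 18) (.e (nat_lit 172041) (nat_lit 0) (.e (nat_lit 7540) (nat_lit 402) .nil))))))) (.g (nat_lit 0) .nil .nil)))) (.nd (nat_lit 5) 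
(.lf (nat_lit 42141) (.g (nat_lit 1736) (.e (nat_lit 1238) (nat_lit 91) (.e (nat_lit 90176) (nat_lit 15) (.e (nat_lit 188439) (nat_lit 20) (.e (nat_lit 3270) (nat_lit 199) (.e (nat_lit 548913) (nat_lit 18) (.e (nat_lit 172034) (nat_lit 0) (.e (nat_lit 7545) (nat_lit 402) .nil))))))) (.g (nat_lit 5) .nil .nil))) 
(.lf (nat_lit 42173) (.g (nat_lit 2465) (.e (nat_lit 1238) (nat_lit 91) (.e (nat_lit 90176) (nat_lit 15) (.e (nat_lit 188439) (nat_lit 20) (.e (nat_lit 3272) (nat_lit 199) (.e (nat_lit 548913) (nat_lit 18) (.e (nat_lit 172049) (nat_lit 0) (.e (nat_lit 7936) (nat_lit 402) .nil))))))) (.g (nat_lit 6) .nil .nil))))))) (.nd (nat_lit 2) (.nd (nat_lit 3) (.nd (nat_lit 4) (.nd (nat_lit 5) 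
(.lf (nat_lit 42115) (.g (nat_lit 2053) (.e (nat_lit 1238) (nat_lit 91) (.e (nat_lit 90176) (nat_lit 15) (.e (nat_lit 188420) (nat_lit 0) (.e (nat_lit 1856) (nat_lit 124) (.e (nat_lit 557105) (nat_lit 14) (.e (nat_lit 188160) (nat_lit 32) .nil)))))) (.g (nat_lit 5) .nil .nil))) 
(.lf (nat_lit 42147) (.g (nat_lit 1112) (.e (nat_lit 1238) (nat_lit 91) (.e (nat_lit 90176) (nat_lit 15) (.e (nat_lit 188439) (nat_lit 20) (.e (nat_lit 3270) (nat_lit 199) (.e (nat_lit 548914) (nat_lit 19) (.e (nat_lit 188160) (nat_lit 32) .nil)))))) (.g (nat_lit 4) .nil .nil)))) (.nd (nat_lit 5) 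
(.lf (nat_lit 42131) (.g (nat_lit 1291) (.e (nat_lit 1238) (nat_lit 91) (.e (nat_lit 90176) (nat_lit 15) (.e (nat_lit 188431) (nat_lit 20) (.e (nat_lit 3478) (nat_lit 218) (.e (nat_lit 704596) (nat_lit 5) (.e (nat_lit 180265) (nat_lit 21) (.e (nat_lit 671488) (nat_lit 0) .nil))))))) (.g (nat_lit 4) .nil .nil))) 
(.lf (nat_lit 42163) (.g (nat_lit 1161) (.e (nat_lit 1238) (nat_lit 91) (.e (nat_lit 90176) (nat_lit 15) (.e (nat_lit 188439) (nat_lit 20) (.e (nat_lit 3272) (nat_lit 199) (.e (nat_lit 556800) (nat_lit 14) .nil))))) .nil)))) (.nd (nat_lit 4) (.nd (nat_lit 5) 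
(.lf (nat_lit 42123) (.g (nat_lit 1082) (.e (nat_lit 1238) (nat_lit 91) (.e (nat_lit 90176) (nat_lit 15) (.e (nat_lit 188423) (nat_lit 11) (.e (nat_lit 335895) (nat_lit 0) (.e (nat_lit 2367) (nat_lit 153) .nil))))) .nil)) 
(.lf (nat_lit 42155) (.g (nat_lit 1425) (.e (nat_lit 1238) (nat_lit 91) (.e (nat_lit 90176) (nat_lit 15) (.e (nat_lit 188439) (nat_lit 20) (.e (nat_lit 3271) (nat_lit 199) (.e (nat_lit 548913) (nat_lit 18) (.e (nat_lit 172036) (nat_lit 0) (.e (nat_lit 7936) (nat_lit 402) .nil))))))) (.g (nat_lit 5) .nil .nil)))) (.nd (nat_lit 5) 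
(.lf (nat_lit 42139) (.g (nat_lit 1631) (.e (nat_lit 1238) (nat_lit 91) (.e (nat_lit 90176) (nat_lit 15) (.e (nat_lit 188439) (nat_lit 20) (.e (nat_lit 3270) (nat_lit 199) (.e (nat_lit 548913) (nat_lit 18) (.e (nat_lit 172034) (nat_lit 0) (.e (nat_lit 7499) (nat_lit 402) .nil))))))) (.g (nat_lit 5) .nil .nil))) 
(.lf (nat_lit 42171) (.g (nat_lit 2481) (.e (nat_lit 1238) (nat_lit 91) (.e (nat_lit 90176) (nat_lit 15) (.e (nat_lit 188439) (nat_lit 20) (.e (nat_lit 3272) (nat_lit 199) (.e (nat_lit 548913) (nat_lit 18) (.e (nat_lit 172039) (nat_lit 0) (.e (nat_lit 7936) (nat_lit 402) .nil))))))) (.g (nat_lit 6) .nil .nil)))))) (.nd (nat_lit 3) (.nd (nat_lit 4) (.nd (nat_lit 5) 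
(.lf (nat_lit 42119) (.g (nat_lit 979) (.e (nat_lit 1238) (nat_lit 91) (.e (nat_lit 90176) (nat_lit 15) (.e (nat_lit 196352) (nat_lit 0) (.e (nat_lit 6237) (nat_lit 335) (.e (nat_lit 164112) (nat_lit 118) (.e (nat_lit 794680) (nat_lit 24) (.e (nat_lit 220928) (nat_lit 0) .nil))))))) (.g (nat_lit 5) .nil .nil))) 
(.lf (nat_lit 42151) (.g (nat_lit 1562) (.e (nat_lit 1238) (nat_lit 91) (.e (nat_lit 90176) (nat_lit 15) (.e (nat_lit 188439) (nat_lit 20) (.e (nat_lit 3271) (nat_lit 199) (.e (nat_lit 548913) (nat_lit 18) (.e (nat_lit 172034) (nat_lit 0) (.e (nat_lit 7541) (nat_lit 402) .nil))))))) (.g (nat_lit 5) .nil .nil)))) (.nd (nat_lit 5) 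
(.lf (nat_lit 42135) (.g (nat_lit 1486) (.e (nat_lit 1238) (nat_lit 91) (.e (nat_lit 90176) (nat_lit 15) (.e (nat_lit 188439) (nat_lit 20) (.e (nat_lit 2448) (nat_lit 157) (.e (nat_lit 6416) (nat_lit 341) (.e (nat_lit 163885) (nat_lit 5) (.e (nat_lit 221219) (nat_lit 24) (.e (nat_lit 220928) (nat_lit 0) .nil)))))))) (.g (nat_lit 5) .nil .nil))) 
(.lf (nat_lit 42167) (.g (nat_lit 2295) (.e (nat_lit 1238) (nat_lit 91) (.e (nat_lit 90176) (nat_lit 15) (.e (nat_lit 188439) (nat_lit 20) (.e (nat_lit 3272) (nat_lit 199) (.e (nat_lit 548913) (nat_lit 18) (.e (nat_lit 172034) (nat_lit 0) (.e (nat_lit 7936) (nat_lit 402) .nil))))))) (.g (nat_lit 6) .nil .nil))))) (.nd (nat_lit 4) (.nd (nat_lit 5) 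
(.lf (nat_lit 42127) (.g (nat_lit 488) (.e (nat_lit 1238) (nat_lit 91) (.e (nat_lit 90176) (nat_lit 15) (.e (nat_lit 196352) (nat_lit 11) .nil))) .nil)) 
(.lf (nat_lit 42159) (.g (nat_lit 1515) (.e (nat_lit 1238) (nat_lit 91) (.e (nat_lit 90176) (nat_lit 15) (.e (nat_lit 188439) (nat_lit 20) (.e (nat_lit 3271) (nat_lit 199) (.e (nat_lit 548913) (nat_lit 18) (.e (nat_lit 172049) (nat_lit 0) (.e (nat_lit 7936) (nat_lit 402) .nil))))))) (.g (nat_lit 5) .nil .nil)))) (.nd (nat_lit 5) 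
(.lf (nat_lit 42143) (.g (nat_lit 2211) (.e (nat_lit 1238) (nat_lit 91) (.e (nat_lit 90176) (nat_lit 15) (.e (nat_lit 188439) (nat_lit 20) (.e (nat_lit 3270) (nat_lit 199) (.e (nat_lit 548913) (nat_lit 18) (.e (nat_lit 172035) (nat_lit 0) (.e (nat_lit 7936) (nat_lit 402) .nil))))))) (.g (nat_lit 6) .nil .nil))) 
(.lf (nat_lit 42175) (.g (nat_lit 1197) (.e (nat_lit 1238) (nat_lit 91) (.e (nat_lit 90176) (nat_lit 15) (.e (nat_lit 188447) (nat_lit 22) (.e (nat_lit 196661) (nat_lit 12) .nil)))) .nil))))))))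

noncomputable def tv586 : DT := (.nd (nat_lit 0) (.nd (nat_lit 1) (.nd (nat_lit 2) (.nd (nat_lit 3) (.nd (nat_lit 4) (.nd (nat_lit 5) 
(.lf (nat_lit 42176) (.g (nat_lit 1529) (.e (nat_lit 1238) (nat_lit 91) (.e (nat_lit 90176) (nat_lit 15) (.e (nat_lit 188447) (nat_lit 22) (.e (nat_lit 196661) (nat_lit 12) (.e (nat_lit 57712) (nat_lit 176) .nil))))) .nil)) 
(.lf (nat_lit 42208) (.g (nat_lit 2744) (.e (nat_lit 1238) (nat_lit 91) (.e (nat_lit 90176) (nat_lit 15) (.e (nat_lit 188447) (nat_lit 22) (.e (nat_lit 196668) (nat_lit 14) (.e (nat_lit 73762) (nat_lit 16) .nil))))) .nil))) (.nd (nat_lit 5) 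
(.lf (nat_lit 42192) (.g (nat_lit 2805) (.e (nat_lit 1238) (nat_lit 91) (.e (nat_lit 90176) (nat_lit 15) (.e (nat_lit 188447) (nat_lit 22) (.e (nat_lit 196666) (nat_lit 13) (.e (nat_lit 65546) (nat_lit 0) (.e (nat_lit 1936) (nat_lit 132) (.e (nat_lit 622605) (nat_lit 5) .nil))))))) (.g (nat_lit 5) .nil .nil))) 
(.lf (nat_lit 42224) (.g (nat_lit 1746) (.e (nat_lit 1238) (nat_lit 91) (.e (nat_lit 90176) (nat_lit 15) (.e (nat_lit 188450) (nat_lit 23) (.e (nat_lit 204821) (nat_lit 17) (.e (nat_lit 6136) (nat_lit 332) (.e (nat_lit 989) (nat_lit 81) (.e (nat_lit 5346) (nat_lit 298) .nil))))))) (.g (nat_lit 5) .nil .nil))))) (.nd (nat_lit 4) (.nd (nat_lit 5) 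
(.lf (nat_lit 42184) (.g (nat_lit 1311) (.e (nat_lit 1238) (nat_lit 91) (.e (nat_lit 90176) (nat_lit 15) (.e (nat_lit 188447) (nat_lit 22) (.e (nat_lit 196666) (nat_lit 13) .nil)))) .nil)) 
(.lf (nat_lit 42216) (.g (nat_lit 2059) (.e (nat_lit 1238) (nat_lit 91) (.e (nat_lit 90176) (nat_lit 15) (.e (nat_lit 188450) (nat_lit 23) (.e (nat_lit 204819) (nat_lit 17) (.e (nat_lit 6109) (nat_lit 332) (.e (nat_lit 1004) (nat_lit 81) (.e (nat_lit 7936) (nat_lit 298) .nil))))))) (.g (nat_lit 5) .nil .nil)))) (.nd (nat_lit 5) 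
(.lf (nat_lit 42200) (.g (nat_lit 2364) (.e (nat_lit 1238) (nat_lit 91) (.e (nat_lit 90176) (nat_lit 15) (.e (nat_lit 188447) (nat_lit 22) (.e (nat_lit 196666) (nat_lit 13) (.e (nat_lit 65553) (nat_lit 0) (.e (nat_lit 1936) (nat_lit 132) (.e (nat_lit 622605) (nat_lit 5) .nil))))))) (.g (nat_lit 4) .nil .nil))) 
(.lf (nat_lit 42232) (.g (nat_lit 2181) (.e (nat_lit 1238) (nat_lit 91) (.e (nat_lit 90176) (nat_lit 15) (.e (nat_lit 188450) (nat_lit 23) (.e (nat_lit 204845) (nat_lit 24) (.e (nat_lit 327424) (nat_lit 10) .nil))))) .nil))))) (.nd (nat_lit 3) (.nd (nat_lit 4) (.nd (nat_lit 5) 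
(.lf (nat_lit 42180) (.g (nat_lit 1706) (.e (nat_lit 1238) (nat_lit 91) (.e (nat_lit 90176) (nat_lit 15) (.e (nat_lit 188447) (nat_lit 22) (.e (nat_lit 196661) (nat_lit 12) (.e (nat_lit 57714) (nat_lit 176) (.e (nat_lit 988) (nat_lit 81) (.e (nat_lit 5346) (nat_lit 298) .nil))))))) (.g (nat_lit 4) .nil .nil))) 
(.lf (nat_lit 42212) (.g (nat_lit 2785) (.e (nat_lit 1238) (nat_lit 91) (.e (nat_lit 90176) (nat_lit 15) (.e (nat_lit 188447) (nat_lit 22) (.e (nat_lit 196670) (nat_lit 14) (.e (nat_lit 73729) (nat_lit 0) .nil))))) .nil))) (.nd (nat_lit 5) 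
(.lf (nat_lit 42196) (.g (nat_lit 2262) (.e (nat_lit 1238) (nat_lit 91) (.e (nat_lit 90176) (nat_lit 15) (.e (nat_lit 188447) (nat_lit 22) (.e (nat_lit 196666) (nat_lit 13) (.e (nat_lit 65546) (nat_lit 0) (.e (nat_lit 1940) (nat_lit 132) (.e (nat_lit 622598) (nat_lit 5) .nil))))))) (.g (nat_lit 4) .nil .nil))) 
(.lf (nat_lit 42228) (.g (nat_lit 1795) (.e (nat_lit 1238) (nat_lit 91) (.e (nat_lit 90176) (nat_lit 15) (.e (nat_lit 188450) (nat_lit 23) (.e (nat_lit 204821) (nat_lit 17) (.e (nat_lit 6223) (nat_lit 334) (.e (nat_lit 130816) (nat_lit 270) .nil)))))) (.g (nat_lit 5) .nil .nil))))) (.nd (nat_lit 4) (.nd (nat_lit 5) 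
(.lf (nat_lit 42188) (.g (nat_lit 2816) (.e (nat_lit 1238) (nat_lit 91) (.e (nat_lit 90176) (nat_lit 15) (.e (nat_lit 188447) (nat_lit 22) (.e (nat_lit 196666) (nat_lit 13) (.e (nat_lit 65543) (nat_lit 0) .nil))))) .nil)) 
(.lf (nat_lit 42220) (.g (nat_lit 2193) (.e (nat_lit 1238) (nat_lit 91) (.e (nat_lit 90176) (nat_lit 15) (.e (nat_lit 188450) (nat_lit 23) (.e (nat_lit 204821) (nat_lit 17) (.e (nat_lit 6114) (nat_lit 332) (.e (nat_lit 973) (nat_lit 81) (.e (nat_lit 7936) (nat_lit 298) .nil))))))) (.g (nat_lit 6) .nil .nil)))) (.nd (nat_lit 5) 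
(.lf (nat_lit 42204) (.g (nat_lit 3480) (.e (nat_lit 1238) (nat_lit 91) (.e (nat_lit 90176) (nat_lit 15) (.e (nat_lit 188447) (nat_lit 22) (.e (nat_lit 196666) (nat_lit 13) (.e (nat_lit 65555) (nat_lit 0) .nil))))) .nil)) 
(.lf (nat_lit 42236) (.g (nat_lit 3455) (.e (nat_lit 1238) (nat_lit 91) (.e (nat_lit 90176) (nat_lit 15) (.e (nat_lit 188450) (nat_lit 23) (.e (nat_lit 204846) (nat_lit 24) (.e (nat_lit 319500) (nat_lit 10) .nil))))) .nil)))))) (.nd (nat_lit 2) (.nd (nat_lit 3) (.nd (nat_lit 4) (.nd (nat_lit 5) 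
(.lf (nat_lit 42178) (.g (nat_lit 1940) (.e (nat_lit 1238) (nat_lit 91) (.e (nat_lit 90176) (nat_lit 15) (.e (nat_lit 188447) (nat_lit 22) (.e (nat_lit 196661) (nat_lit 12) (.e (nat_lit 57712) (nat_lit 176) (.e (nat_lit 973) (nat_lit 81) (.e (nat_lit 7936) (nat_lit 298) .nil))))))) (.g (nat_lit 6) .nil .nil))) 
(.lf (nat_lit 42210) (.g (nat_lit 3420) (.e (nat_lit 1238) (nat_lit 91) (.e (nat_lit 90176) (nat_lit 15) (.e (nat_lit 188447) (nat_lit 22) (.e (nat_lit 196668) (nat_lit 14) (.e (nat_lit 73762) (nat_lit 16) (.e (nat_lit 630528) (nat_lit 5) .nil)))))) (.g (nat_lit 5) .nil .nil)))) (.nd (nat_lit 5) 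
(.lf (nat_lit 42194) (.g (nat_lit 3183) (.e (nat_lit 1238) (nat_lit 91) (.e (nat_lit 90176) (nat_lit 15) (.e (nat_lit 188447) (nat_lit 22) (.e (nat_lit 196666) (nat_lit 13) (.e (nat_lit 65546) (nat_lit 0) (.e (nat_lit 1939) (nat_lit 132) (.e (nat_lit 622605) (nat_lit 5) .nil))))))) (.g (nat_lit 0) .nil .nil))) 
(.lf (nat_lit 42226) (.g (nat_lit 1604) (.e (nat_lit 1238) (nat_lit 91) (.e (nat_lit 90176) (nat_lit 15) (.e (nat_lit 188450) (nat_lit 23) (.e (nat_lit 204821) (nat_lit 17) (.e (nat_lit 6136) (nat_lit 332) (.e (nat_lit 990) (nat_lit 81) (.e (nat_lit 5346) (nat_lit 298) .nil))))))) (.g (nat_lit 4) .nil .nil))))) (.nd (nat_lit 4) (.nd (nat_lit 5) 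
(.lf (nat_lit 42186) (.g (nat_lit 2653) (.e (nat_lit 1238) (nat_lit 91) (.e (nat_lit 90176) (nat_lit 15) (.e (nat_lit 188447) (nat_lit 22) (.e (nat_lit 196666) (nat_lit 13) (.e (nat_lit 65539) (nat_lit 0) .nil))))) .nil)) 
(.lf (nat_lit 42218) (.g (nat_lit 980) (.e (nat_lit 1238) (nat_lit 91) (.e (nat_lit 90176) (nat_lit 15) (.e (nat_lit 188450) (nat_lit 23) (.e (nat_lit 204821) (nat_lit 17) .nil)))) .nil))) (.nd (nat_lit 5) 
(.lf (nat_lit 42202) (.g (nat_lit 2400) (.e (nat_lit 1238) (nat_lit 91) (.e (nat_lit 90176) (nat_lit 15) (.e (nat_lit 188447) (nat_lit 22) (.e (nat_lit 196666) (nat_lit 13) (.e (nat_lit 65553) (nat_lit 0) (.e (nat_lit 1940) (nat_lit 132) (.e (nat_lit 622598) (nat_lit 5) .nil))))))) (.g (nat_lit 4) .nil .nil))) 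
(.lf (nat_lit 42234) (.g (nat_lit 3254) (.e (nat_lit 1238) (nat_lit 91) (.e (nat_lit 90176) (nat_lit 15) (.e (nat_lit 188450) (nat_lit 23) (.e (nat_lit 204846) (nat_lit 24) (.e (nat_lit 319497) (nat_lit 10) (.e (nat_lit 5346) (nat_lit 298) .nil)))))) (.g (nat_lit 4) .nil .nil)))))) (.nd (nat_lit 3) (.nd (nat_lit 4) (.nd (nat_lit 5) 
(.lf (nat_lit 42182) (.g (nat_lit 1780) (.e (nat_lit 1238) (nat_lit 91) (.e (nat_lit 90176) (nat_lit 15) (.e (nat_lit 188447) (nat_lit 22) (.e (nat_lit 196661) (nat_lit 12) (.e (nat_lit 57721) (nat_lit 177) (.e (nat_lit 65280) (nat_lit 270) .nil)))))) (.g (nat_lit 4) .nil .nil))) 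
(.lf (nat_lit 42214) (.g (nat_lit 1229) (.e (nat_lit 1238) (nat_lit 91) (.e (nat_lit 90176) (nat_lit 15) (.e (nat_lit 188450) (nat_lit 23) (.e (nat_lit 204815) (nat_lit 17) .nil)))) .nil))) (.nd (nat_lit 5) 
(.lf (nat_lit 42198) (.g (nat_lit 2631) (.e (nat_lit 1238) (nat_lit 91) (.e (nat_lit 90176) (nat_lit 15) (.e (nat_lit 188447) (nat_lit 22) (.e (nat_lit 196666) (nat_lit 13) (.e (nat_lit 65550) (nat_lit 0) .nil))))) .nil)) 
(.lf (nat_lit 42230) (.g (nat_lit 2528) (.e (nat_lit 1238) (nat_lit 91) (.e (nat_lit 90176) (nat_lit 15) (.e (nat_lit 188450) (nat_lit 23) (.e (nat_lit 204845) (nat_lit 24) (.e (nat_lit 319500) (nat_lit 10) .nil))))) .nil)))) (.nd (nat_lit 4) (.nd (nat_lit 5) 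
(.lf (nat_lit 42190) (.g (nat_lit 3798) (.e (nat_lit 1238) (nat_lit 91) (.e (nat_lit 90176) (nat_lit 15) (.e (nat_lit 188447) (nat_lit 22) (.e (nat_lit 196666) (nat_lit 13) (.e (nat_lit 65545) (nat_lit 0) (.e (nat_lit 1938) (nat_lit 132) (.e (nat_lit 630528) (nat_lit 5) .nil))))))) (.g (nat_lit 5) .nil .nil))) 
(.lf (nat_lit 42222) (.g (nat_lit 1879) (.e (nat_lit 1238) (nat_lit 91) (.e (nat_lit 90176) (nat_lit 15) (.e (nat_lit 188450) (nat_lit 23) (.e (nat_lit 204821) (nat_lit 17) (.e (nat_lit 6136) (nat_lit 332) (.e (nat_lit 988) (nat_lit 81) (.e (nat_lit 5346) (nat_lit 298) .nil))))))) (.g (nat_lit 5) .nil .nil)))) (.nd (nat_lit 5) 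
(.lf (nat_lit 42206) (.g (nat_lit 2941) (.e (nat_lit 1238) (nat_lit 91) (.e (nat_lit 90176) (nat_lit 15) (.e (nat_lit 188447) (nat_lit 22) (.e (nat_lit 196666) (nat_lit 13) (.e (nat_lit 65573) (nat_lit 4) .nil))))) .nil)) 
(.lf (nat_lit 42238) (.g (nat_lit 4092) (.e (nat_lit 1238) (nat_lit 91) (.e (nat_lit 90176) (nat_lit 15) (.e (nat_lit 188450) (nat_lit 23) (.e (nat_lit 204846) (nat_lit 24) (.e (nat_lit 319504) (nat_lit 10) (.e (nat_lit 7936) (nat_lit 298) .nil)))))) (.g (nat_lit 5) .nil .nil)))))))) (.nd (nat_lit 1) (.nd (nat_lit 2) (.nd (nat_lit 3) (.nd (nat_lit 4) (.nd (nat_lit 5) 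
(.lf (nat_lit 42177) (.g (nat_lit 2138) (.e (nat_lit 1238) (nat_lit 91) (.e (nat_lit 90176) (nat_lit 15) (.e (nat_lit 188447) (nat_lit 22) (.e (nat_lit 196661) (nat_lit 12) (.e (nat_lit 57712) (nat_lit 176) (.e (nat_lit 970) (nat_lit 81) (.e (nat_lit 7936) (nat_lit 298) .nil))))))) (.g (nat_lit 6) .nil .nil))) 
(.lf (nat_lit 42209) (.g (nat_lit 2865) (.e (nat_lit 1238) (nat_lit 91) (.e (nat_lit 90176) (nat_lit 15) (.e (nat_lit 188447) (nat_lit 22) (.e (nat_lit 196668) (nat_lit 14) (.e (nat_lit 73762) (nat_lit 16) (.e (nat_lit 622605) (nat_lit 5) .nil)))))) (.g (nat_lit 4) .nil .nil)))) (.nd (nat_lit 5) 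
(.lf (nat_lit 42193) (.g (nat_lit 3112) (.e (nat_lit 1238) (nat_lit 91) (.e (nat_lit 90176) (nat_lit 15) (.e (nat_lit 188447) (nat_lit 22) (.e (nat_lit 196666) (nat_lit 13) (.e (nat_lit 65546) (nat_lit 0) (.e (nat_lit 1939) (nat_lit 132) (.e (nat_lit 622598) (nat_lit 5) .nil))))))) (.g (nat_lit 0) .nil .nil))) 
(.lf (nat_lit 42225) (.g (nat_lit 1352) (.e (nat_lit 1238) (nat_lit 91) (.e (nat_lit 90176) (nat_lit 15) (.e (nat_lit 188450) (nat_lit 23) (.e (nat_lit 204821) (nat_lit 17) (.e (nat_lit 6136) (nat_lit 332) (.e (nat_lit 990) (nat_lit 81) (.e (nat_lit 5308) (nat_lit 298) .nil))))))) (.g (nat_lit 4) .nil .nil))))) (.nd (nat_lit 4) (.nd (nat_lit 5) 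
(.lf (nat_lit 42185) (.g (nat_lit 2907) (.e (nat_lit 1238) (nat_lit 91) (.e (nat_lit 90176) (nat_lit 15) (.e (nat_lit 188447) (nat_lit 22) (.e (nat_lit 196666) (nat_lit 13) (.e (nat_lit 65536) (nat_lit 0) .nil))))) .nil)) 
(.lf (nat_lit 42217) (.g (nat_lit 1968) (.e (nat_lit 1238) (nat_lit 91) (.e (nat_lit 90176) (nat_lit 15) (.e (nat_lit 188450) (nat_lit 23) (.e (nat_lit 204819) (nat_lit 17) (.e (nat_lit 6225) (nat_lit 334) (.e (nat_lit 130816) (nat_lit 270) .nil)))))) (.g (nat_lit 5) .nil .nil)))) (.nd (nat_lit 5) 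
(.lf (nat_lit 42201) (.g (nat_lit 2236) (.e (nat_lit 1238) (nat_lit 91) (.e (nat_lit 90176) (nat_lit 15) (.e (nat_lit 188447) (nat_lit 22) (.e (nat_lit 196666) (nat_lit 13) (.e (nat_lit 65553) (nat_lit 0) (.e (nat_lit 1939) (nat_lit 132) (.e (nat_lit 622604) (nat_lit 5) .nil))))))) (.g (nat_lit 4) .nil .nil))) 
(.lf (nat_lit 42233) (.g (nat_lit 2785) (.e (nat_lit 1238) (nat_lit 91) (.e (nat_lit 90176) (nat_lit 15) (.e (nat_lit 188450) (nat_lit 23) (.e (nat_lit 204846) (nat_lit 24) (.e (nat_lit 319496) (nat_lit 10) (.e (nat_lit 5308) (nat_lit 298) .nil)))))) (.g (nat_lit 4) .nil .nil)))))) (.nd (nat_lit 3) (.nd (nat_lit 4) (.nd (nat_lit 5) 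
(.lf (nat_lit 42181) (.g (nat_lit 1767) (.e (nat_lit 1238) (nat_lit 91) (.e (nat_lit 90176) (nat_lit 15) (.e (nat_lit 188447) (nat_lit 22) (.e (nat_lit 196661) (nat_lit 12) (.e (nat_lit 57714) (nat_lit 176) (.e (nat_lit 990) (nat_lit 81) (.e (nat_lit 5346) (nat_lit 298) .nil))))))) (.g (nat_lit 4) .nil .nil))) 
(.lf (nat_lit 42213) (.g (nat_lit 344) (.e (nat_lit 1238) (nat_lit 91) (.e (nat_lit 90176) (nat_lit 15) (.e (nat_lit 188450) (nat_lit 23) .nil))) .nil))) (.nd (nat_lit 5) 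
(.lf (nat_lit 42197) (.g (nat_lit 2572) (.e (nat_lit 1238) (nat_lit 91) (.e (nat_lit 90176) (nat_lit 15) (.e (nat_lit 188447) (nat_lit 22) (.e (nat_lit 196666) (nat_lit 13) (.e (nat_lit 65546) (nat_lit 0) (.e (nat_lit 1941) (nat_lit 132) (.e (nat_lit 622598) (nat_lit 5) .nil))))))) (.g (nat_lit 4) .nil .nil))) 
(.lf (nat_lit 42229) (.g (nat_lit 2653) (.e (nat_lit 1238) (nat_lit 91) (.e (nat_lit 90176) (nat_lit 15) (.e (nat_lit 188450) (nat_lit 23) (.e (nat_lit 204845) (nat_lit 24) (.e (nat_lit 319498) (nat_lit 10) (.e (nat_lit 5349) (nat_lit 298) .nil)))))) (.g (nat_lit 4) .nil .nil))))) (.nd (nat_lit 4) (.nd (nat_lit 5) 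
(.lf (nat_lit 42189) (.g (nat_lit 3278) (.e (nat_lit 1238) (nat_lit 91) (.e (nat_lit 90176) (nat_lit 15) (.e (nat_lit 188447) (nat_lit 22) (.e (nat_lit 196666) (nat_lit 13) (.e (nat_lit 65545) (nat_lit 0) .nil))))) .nil)) 
(.lf (nat_lit 42221) (.g (nat_lit 1338) (.e (nat_lit 1238) (nat_lit 91) (.e (nat_lit 90176) (nat_lit 15) (.e (nat_lit 188450) (nat_lit 23) (.e (nat_lit 204821) (nat_lit 17) (.e (nat_lit 6136) (nat_lit 332) .nil))))) .nil))) (.nd (nat_lit 5) 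
(.lf (nat_lit 42205) (.g (nat_lit 2452) (.e (nat_lit 1238) (nat_lit 91) (.e (nat_lit 90176) (nat_lit 15) (.e (nat_lit 188447) (nat_lit 22) (.e (nat_lit 196666) (nat_lit 13) (.e (nat_lit 65572) (nat_lit 4) .nil))))) .nil)) 
(.lf (nat_lit 42237) (.g (nat_lit 2790) (.e (nat_lit 1238) (nat_lit 91) (.e (nat_lit 90176) (nat_lit 15) (.e (nat_lit 188450) (nat_lit 23) (.e (nat_lit 204846) (nat_lit 24) (.e (nat_lit 319502) (nat_lit 10) (.e (nat_lit 7936) (nat_lit 298) .nil)))))) (.g (nat_lit 5) .nil .nil))))))) (.nd (nat_lit 2) (.nd (nat_lit 3) (.nd (nat_lit 4) (.nd (nat_lit 5) 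
(.lf (nat_lit 42179) (.g (nat_lit 1495) (.e (nat_lit 1238) (nat_lit 91) (.e (nat_lit 90176) (nat_lit 15) (.e (nat_lit 188447) (nat_lit 22) (.e (nat_lit 196661) (nat_lit 12) (.e (nat_lit 57714) (nat_lit 176) .nil))))) .nil)) 
(.lf (nat_lit 42211) (.g (nat_lit 1839) (.e (nat_lit 1238) (nat_lit 91) (.e (nat_lit 90176) (nat_lit 15) (.e (nat_lit 188447) (nat_lit 22) (.e (nat_lit 196670) (nat_lit 14) .nil)))) .nil))) (.nd (nat_lit 5) 
(.lf (nat_lit 42195) (.g (nat_lit 2877) (.e (nat_lit 1238) (nat_lit 91) (.e (nat_lit 90176) (nat_lit 15) (.e (nat_lit 188447) (nat_lit 22) (.e (nat_lit 196666) (nat_lit 13) (.e (nat_lit 65546) (nat_lit 0) (.e (nat_lit 1939) (nat_lit 132) (.e (nat_lit 630528) (nat_lit 5) .nil))))))) (.g (nat_lit 6) .nil .nil))) 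
(.lf (nat_lit 42227) (.g (nat_lit 1634) (.e (nat_lit 1238) (nat_lit 91) (.e (nat_lit 90176) (nat_lit 15) (.e (nat_lit 188450) (nat_lit 23) (.e (nat_lit 204821) (nat_lit 17) (.e (nat_lit 6206) (nat_lit 333) (.e (nat_lit 65280) (nat_lit 270) .nil)))))) (.g (nat_lit 5) .nil .nil))))) (.nd (nat_lit 4) (.nd (nat_lit 5) 
(.lf (nat_lit 42187) (.g (nat_lit 3118) (.e (nat_lit 1238) (nat_lit 91) (.e (nat_lit 90176) (nat_lit 15) (.e (nat_lit 188447) (nat_lit 22) (.e (nat_lit 196666) (nat_lit 13) (.e (nat_lit 65539) (nat_lit 0) (.e (nat_lit 973) (nat_lit 81) (.e (nat_lit 4805) (nat_lit 281) (.e (nat_lit 1039) (nat_lit 81) .nil)))))))) (.g (nat_lit 5) .nil .nil))) 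
(.lf (nat_lit 42219) (.g (nat_lit 1424) (.e (nat_lit 1238) (nat_lit 91) (.e (nat_lit 90176) (nat_lit 15) (.e (nat_lit 188450) (nat_lit 23) (.e (nat_lit 204821) (nat_lit 17) (.e (nat_lit 6114) (nat_lit 332) (.e (nat_lit 972) (nat_lit 81) (.e (nat_lit 7936) (nat_lit 298) .nil))))))) (.g (nat_lit 4) .nil .nil)))) (.nd (nat_lit 5) 
(.lf (nat_lit 42203) (.g (nat_lit 2483) (.e (nat_lit 1238) (nat_lit 91) (.e (nat_lit 90176) (nat_lit 15) (.e (nat_lit 188447) (nat_lit 22) (.e (nat_lit 196666) (nat_lit 13) (.e (nat_lit 65553) (nat_lit 0) (.e (nat_lit 1941) (nat_lit 132) (.e (nat_lit 622598) (nat_lit 5) .nil))))))) (.g (nat_lit 4) .nil .nil))) 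
(.lf (nat_lit 42235) (.g (nat_lit 2997) (.e (nat_lit 1238) (nat_lit 91) (.e (nat_lit 90176) (nat_lit 15) (.e (nat_lit 188450) (nat_lit 23) (.e (nat_lit 204846) (nat_lit 24) (.e (nat_lit 319498) (nat_lit 10) (.e (nat_lit 5349) (nat_lit 298) .nil)))))) (.g (nat_lit 4) .nil .nil)))))) (.nd (nat_lit 3) (.nd (nat_lit 4) (.nd (nat_lit 5) 
(.lf (nat_lit 42183) (.g (nat_lit 1994) (.e (nat_lit 1238) (nat_lit 91) (.e (nat_lit 90176) (nat_lit 15) (.e (nat_lit 188447) (nat_lit 22) (.e (nat_lit 196661) (nat_lit 12) (.e (nat_lit 57722) (nat_lit 178) (.e (nat_lit 130816) (nat_lit 270) .nil)))))) (.g (nat_lit 5) .nil .nil))) 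
(.lf (nat_lit 42215) (.g (nat_lit 1233) (.e (nat_lit 1238) (nat_lit 91) (.e (nat_lit 90176) (nat_lit 15) (.e (nat_lit 188450) (nat_lit 23) (.e (nat_lit 204816) (nat_lit 17) .nil)))) .nil))) (.nd (nat_lit 5) 
(.lf (nat_lit 42199) (.g (nat_lit 2212) (.e (nat_lit 1238) (nat_lit 91) (.e (nat_lit 90176) (nat_lit 15) (.e (nat_lit 188447) (nat_lit 22) (.e (nat_lit 196666) (nat_lit 13) (.e (nat_lit 65553) (nat_lit 0) .nil))))) .nil)) 
(.lf (nat_lit 42231) (.g (nat_lit 2388) (.e (nat_lit 1238) (nat_lit 91) (.e (nat_lit 90176) (nat_lit 15) (.e (nat_lit 188450) (nat_lit 23) (.e (nat_lit 204845) (nat_lit 24) (.e (nat_lit 319505) (nat_lit 10) .nil))))) .nil)))) (.nd (nat_lit 4) (.nd (nat_lit 5) 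
(.lf (nat_lit 42191) (.g (nat_lit 2203) (.e (nat_lit 1238) (nat_lit 91) (.e (nat_lit 90176) (nat_lit 15) (.e (nat_lit 188447) (nat_lit 22) (.e (nat_lit 196666) (nat_lit 13) (.e (nat_lit 65546) (nat_lit 0) .nil))))) .nil)) 
(.lf (nat_lit 42223) (.g (nat_lit 1436) (.e (nat_lit 1238) (nat_lit 91) (.e (nat_lit 90176) (nat_lit 15) (.e (nat_lit 188450) (nat_lit 23) (.e (nat_lit 204821) (nat_lit 17) (.e (nat_lit 6136) (nat_lit 332) (.e (nat_lit 989) (nat_lit 81) (.e (nat_lit 5308) (nat_lit 298) .nil))))))) (.g (nat_lit 4) .nil .nil)))) (.nd (nat_lit 5) 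
(.lf (nat_lit 42207) (.g (nat_lit 2418) (.e (nat_lit 1238) (nat_lit 91) (.e (nat_lit 90176) (nat_lit 15) (.e (nat_lit 188447) (nat_lit 22) (.e (nat_lit 196666) (nat_lit 13) (.e (nat_lit 65574) (nat_lit 4) .nil))))) .nil)) 
(.lf (nat_lit 42239) (.g (nat_lit 2380) (.e (nat_lit 1238) (nat_lit 91) (.e (nat_lit 90176) (nat_lit 15) (.e (nat_lit 188450) (nat_lit 23) (.e (nat_lit 204846) (nat_lit 24) (.e (nat_lit 319506) (nat_lit 10) (.e (nat_lit 7936) (nat_lit 298) .nil)))))) (.g (nat_lit 5) .nil .nil)))))))))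

noncomputable def tv587 : DT := (.nd (nat_lit 0) (.nd (nat_lit 1) (.nd (nat_lit 2) (.nd (nat_lit 3) (.nd (nat_lit 4) (.nd (nat_lit 5) 
(.lf (nat_lit 42240) (.g (nat_lit 2047) (.e (nat_lit 1238) (nat_lit 91) (.e (nat_lit 90176) (nat_lit 15) (.e (nat_lit 188450) (nat_lit 23) (.e (nat_lit 204846) (nat_lit 24) (.e (nat_lit 327424) (nat_lit 10) .nil))))) .nil)) 
(.lf (nat_lit 42272) (.g (nat_lit 1272) (.e (nat_lit 1238) (nat_lit 91) (.e (nat_lit 90176) (nat_lit 15) (.e (nat_lit 188450) (nat_lit 23) (.e (nat_lit 204862) (nat_lit 27) .nil)))) .nil))) (.nd (nat_lit 5) 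
(.lf (nat_lit 42256) (.g (nat_lit 2912) (.e (nat_lit 1238) (nat_lit 91) (.e (nat_lit 90176) (nat_lit 15) (.e (nat_lit 188450) (nat_lit 23) (.e (nat_lit 204852) (nat_lit 26) (.e (nat_lit 336258) (nat_lit 15) (.e (nat_lit 3588) (nat_lit 224) (.e (nat_lit 753693) (nat_lit 13) .nil))))))) (.g (nat_lit 0) .nil .nil))) 
(.lf (nat_lit 42288) (.g (nat_lit 1502) (.e (nat_lit 1238) (nat_lit 91) (.e (nat_lit 90176) (nat_lit 15) (.e (nat_lit 188450) (nat_lit 23) (.e (nat_lit 204874) (nat_lit 30) .nil)))) .nil)))) (.nd (nat_lit 4) (.nd (nat_lit 5) 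
(.lf (nat_lit 42248) (.g (nat_lit 2722) (.e (nat_lit 1238) (nat_lit 91) (.e (nat_lit 90176) (nat_lit 15) (.e (nat_lit 188450) (nat_lit 23) (.e (nat_lit 204849) (nat_lit 25) (.e (nat_lit 327703) (nat_lit 10) (.e (nat_lit 7936) (nat_lit 298) .nil)))))) (.g (nat_lit 5) .nil .nil))) 
(.lf (nat_lit 42280) (.g (nat_lit 3019) (.e (nat_lit 1238) (nat_lit 91) (.e (nat_lit 90176) (nat_lit 15) (.e (nat_lit 188450) (nat_lit 23) (.e (nat_lit 204863) (nat_lit 27) (.e (nat_lit 344151) (nat_lit 34) (.e (nat_lit 630528) (nat_lit 5) .nil)))))) (.g (nat_lit 5) .nil .nil)))) (.nd (nat_lit 5) 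
(.lf (nat_lit 42264) (.g (nat_lit 2087) (.e (nat_lit 1238) (nat_lit 91) (.e (nat_lit 90176) (nat_lit 15) (.e (nat_lit 188450) (nat_lit 23) (.e (nat_lit 204855) (nat_lit 26) (.e (nat_lit 336030) (nat_lit 4) .nil))))) .nil)) 
(.lf (nat_lit 42296) (.g (nat_lit 2993) (.e (nat_lit 1238) (nat_lit 91) (.e (nat_lit 90176) (nat_lit 15) (.e (nat_lit 188452) (nat_lit 23) (.e (nat_lit 204846) (nat_lit 24) (.e (nat_lit 319504) (nat_lit 10) .nil))))) .nil))))) (.nd (nat_lit 3) (.nd (nat_lit 4) (.nd (nat_lit 5) 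
(.lf (nat_lit 42244) (.g (nat_lit 1575) (.e (nat_lit 1238) (nat_lit 91) (.e (nat_lit 90176) (nat_lit 15) (.e (nat_lit 188450) (nat_lit 23) (.e (nat_lit 204848) (nat_lit 25) (.e (nat_lit 327702) (nat_lit 10) (.e (nat_lit 7936) (nat_lit 298) .nil)))))) (.g (nat_lit 4) .nil .nil))) 
(.lf (nat_lit 42276) (.g (nat_lit 3565) (.e (nat_lit 1238) (nat_lit 91) (.e (nat_lit 90176) (nat_lit 15) (.e (nat_lit 188450) (nat_lit 23) (.e (nat_lit 204863) (nat_lit 27) (.e (nat_lit 344096) (nat_lit 18) (.e (nat_lit 4764) (nat_lit 281) (.e (nat_lit 7936) (nat_lit 81) .nil))))))) (.g (nat_lit 6) .nil .nil)))) (.nd (nat_lit 5) 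
(.lf (nat_lit 42260) (.g (nat_lit 2165) (.e (nat_lit 1238) (nat_lit 91) (.e (nat_lit 90176) (nat_lit 15) (.e (nat_lit 188450) (nat_lit 23) (.e (nat_lit 204852) (nat_lit 26) (.e (nat_lit 336310) (nat_lit 16) .nil))))) .nil)) 
(.lf (nat_lit 42292) (.g (nat_lit 1942) (.e (nat_lit 1238) (nat_lit 91) (.e (nat_lit 90176) (nat_lit 15) (.e (nat_lit 188450) (nat_lit 23) (.e (nat_lit 204885) (nat_lit 33) (.e (nat_lit 401408) (nat_lit 0) (.e (nat_lit 7500) (nat_lit 402) .nil)))))) (.g (nat_lit 5) .nil .nil))))) (.nd (nat_lit 4) (.nd (nat_lit 5) 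
(.lf (nat_lit 42252) (.g (nat_lit 2266) (.e (nat_lit 1238) (nat_lit 91) (.e (nat_lit 90176) (nat_lit 15) (.e (nat_lit 188450) (nat_lit 23) (.e (nat_lit 204852) (nat_lit 26) (.e (nat_lit 336240) (nat_lit 15) .nil))))) .nil)) 
(.lf (nat_lit 42284) (.g (nat_lit 1444) (.e (nat_lit 1238) (nat_lit 91) (.e (nat_lit 90176) (nat_lit 15) (.e (nat_lit 188450) (nat_lit 23) (.e (nat_lit 204864) (nat_lit 27) .nil)))) .nil))) (.nd (nat_lit 5) 
(.lf (nat_lit 42268) (.g (nat_lit 2750) (.e (nat_lit 1238) (nat_lit 91) (.e (nat_lit 90176) (nat_lit 15) (.e (nat_lit 188450) (nat_lit 23) (.e (nat_lit 204861) (nat_lit 26) (.e (nat_lit 335897) (nat_lit 0) .nil))))) .nil)) 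
(.lf (nat_lit 42300) (.g (nat_lit 2012) (.e (nat_lit 1238) (nat_lit 91) (.e (nat_lit 90176) (nat_lit 15) (.e (nat_lit 188459) (nat_lit 26) (.e (nat_lit 261888) (nat_lit 0) (.e (nat_lit 2980) (nat_lit 185) (.e (nat_lit 434275) (nat_lit 39) (.e (nat_lit 671488) (nat_lit 0) .nil))))))) (.g (nat_lit 6) .nil .nil))))))) (.nd (nat_lit 2) (.nd (nat_lit 3) (.nd (nat_lit 4) (.nd (nat_lit 5) 
(.lf (nat_lit 42242) (.g (nat_lit 1157) (.e (nat_lit 1238) (nat_lit 91) (.e (nat_lit 90176) (nat_lit 15) (.e (nat_lit 188450) (nat_lit 23) (.e (nat_lit 204848) (nat_lit 25) .nil)))) .nil)) 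
(.lf (nat_lit 42274) (.g (nat_lit 1984) (.e (nat_lit 1238) (nat_lit 91) (.e (nat_lit 90176) (nat_lit 15) (.e (nat_lit 188450) (nat_lit 23) (.e (nat_lit 204862) (nat_lit 27) (.e (nat_lit 344152) (nat_lit 34) .nil))))) .nil))) (.nd (nat_lit 5) 
(.lf (nat_lit 42258) (.g (nat_lit 2587) (.e (nat_lit 1238) (nat_lit 91) (.e (nat_lit 90176) (nat_lit 15) (.e (nat_lit 188450) (nat_lit 23) (.e (nat_lit 204852) (nat_lit 26) (.e (nat_lit 336258) (nat_lit 15) (.e (nat_lit 3590) (nat_lit 224) (.e (nat_lit 753693) (nat_lit 13) .nil))))))) (.g (nat_lit 5) .nil .nil))) 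
(.lf (nat_lit 42290) (.g (nat_lit 1428) (.e (nat_lit 1238) (nat_lit 91) (.e (nat_lit 90176) (nat_lit 15) (.e (nat_lit 188450) (nat_lit 23) (.e (nat_lit 204881) (nat_lit 32) .nil)))) .nil)))) (.nd (nat_lit 4) (.nd (nat_lit 5) 
(.lf (nat_lit 42250) (.g (nat_lit 1260) (.e (nat_lit 1238) (nat_lit 91) (.e (nat_lit 90176) (nat_lit 15) (.e (nat_lit 188450) (nat_lit 23) (.e (nat_lit 204852) (nat_lit 26) .nil)))) .nil)) 
(.lf (nat_lit 42282) (.g (nat_lit 2415) (.e (nat_lit 1238) (nat_lit 91) (.e (nat_lit 90176) (nat_lit 15) (.e (nat_lit 188450) (nat_lit 23) (.e (nat_lit 204863) (nat_lit 27) (.e (nat_lit 344152) (nat_lit 34) (.e (nat_lit 622604) (nat_lit 5) .nil)))))) (.g (nat_lit 4) .nil .nil)))) (.nd (nat_lit 5) 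
(.lf (nat_lit 42266) (.g (nat_lit 2761) (.e (nat_lit 1238) (nat_lit 91) (.e (nat_lit 90176) (nat_lit 15) (.e (nat_lit 188450) (nat_lit 23) (.e (nat_lit 204861) (nat_lit 26) (.e (nat_lit 335892) (nat_lit 0) .nil))))) .nil)) 
(.lf (nat_lit 42298) (.g (nat_lit 1135) (.e (nat_lit 1238) (nat_lit 91) (.e (nat_lit 90176) (nat_lit 15) (.e (nat_lit 188453) (nat_lit 24) (.e (nat_lit 237312) (nat_lit 156) .nil)))) .nil))))) (.nd (nat_lit 3) (.nd (nat_lit 4) (.nd (nat_lit 5) 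
(.lf (nat_lit 42246) (.g (nat_lit 1933) (.e (nat_lit 1238) (nat_lit 91) (.e (nat_lit 90176) (nat_lit 15) (.e (nat_lit 188450) (nat_lit 23) (.e (nat_lit 204849) (nat_lit 25) (.e (nat_lit 327702) (nat_lit 10) (.e (nat_lit 5346) (nat_lit 298) .nil)))))) (.g (nat_lit 4) .nil .nil))) 
(.lf (nat_lit 42278) (.g (nat_lit 2326) (.e (nat_lit 1238) (nat_lit 91) (.e (nat_lit 90176) (nat_lit 15) (.e (nat_lit 188450) (nat_lit 23) (.e (nat_lit 204863) (nat_lit 27) (.e (nat_lit 344150) (nat_lit 34) (.e (nat_lit 622605) (nat_lit 5) .nil)))))) (.g (nat_lit 4) .nil .nil)))) (.nd (nat_lit 5) 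
(.lf (nat_lit 42262) (.g (nat_lit 1343) (.e (nat_lit 1238) (nat_lit 91) (.e (nat_lit 90176) (nat_lit 15) (.e (nat_lit 188450) (nat_lit 23) (.e (nat_lit 204855) (nat_lit 26) .nil)))) .nil)) 
(.lf (nat_lit 42294) (.g (nat_lit 2258) (.e (nat_lit 1238) (nat_lit 91) (.e (nat_lit 90176) (nat_lit 15) (.e (nat_lit 188450) (nat_lit 23) (.e (nat_lit 204885) (nat_lit 33) (.e (nat_lit 401414) (nat_lit 0) (.e (nat_lit 7936) (nat_lit 402) .nil)))))) (.g (nat_lit 5) .nil .nil))))) (.nd (nat_lit 4) (.nd (nat_lit 5) 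
(.lf (nat_lit 42254) (.g (nat_lit 2349) (.e (nat_lit 1238) (nat_lit 91) (.e (nat_lit 90176) (nat_lit 15) (.e (nat_lit 188450) (nat_lit 23) (.e (nat_lit 204852) (nat_lit 26) (.e (nat_lit 336257) (nat_lit 15) .nil))))) .nil)) 
(.lf (nat_lit 42286) (.g (nat_lit 1409) (.e (nat_lit 1238) (nat_lit 91) (.e (nat_lit 90176) (nat_lit 15) (.e (nat_lit 188450) (nat_lit 23) (.e (nat_lit 204872) (nat_lit 30) .nil)))) .nil))) (.nd (nat_lit 5) 
(.lf (nat_lit 42270) (.g (nat_lit 2607) (.e (nat_lit 1238) (nat_lit 91) (.e (nat_lit 90176) (nat_lit 15) (.e (nat_lit 188450) (nat_lit 23) (.e (nat_lit 204861) (nat_lit 26) (.e (nat_lit 335987) (nat_lit 1) .nil))))) .nil)) 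
(.lf (nat_lit 42302) (.g (nat_lit 1397) (.e (nat_lit 1238) (nat_lit 91) (.e (nat_lit 90176) (nat_lit 15) (.e (nat_lit 188459) (nat_lit 26) (.e (nat_lit 261888) (nat_lit 5) (.e (nat_lit 180265) (nat_lit 21) (.e (nat_lit 671488) (nat_lit 0) .nil)))))) (.g (nat_lit 5) .nil .nil)))))))) (.nd (nat_lit 1) (.nd (nat_lit 2) (.nd (nat_lit 3) (.nd (nat_lit 4) (.nd (nat_lit 5) 
(.lf (nat_lit 42241) (.g (nat_lit 2197) (.e (nat_lit 1238) (nat_lit 91) (.e (nat_lit 90176) (nat_lit 15) (.e (nat_lit 188450) (nat_lit 23) (.e (nat_lit 204846) (nat_lit 24) (.e (nat_lit 327424) (nat_lit 10) (.e (nat_lit 5308) (nat_lit 298) .nil)))))) (.g (nat_lit 4) .nil .nil))) 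
(.lf (nat_lit 42273) (.g (nat_lit 1984) (.e (nat_lit 1238) (nat_lit 91) (.e (nat_lit 90176) (nat_lit 15) (.e (nat_lit 188450) (nat_lit 23) (.e (nat_lit 204862) (nat_lit 27) (.e (nat_lit 344151) (nat_lit 34) .nil))))) .nil))) (.nd (nat_lit 5) 
(.lf (nat_lit 42257) (.g (nat_lit 2384) (.e (nat_lit 1238) (nat_lit 91) (.e (nat_lit 90176) (nat_lit 15) (.e (nat_lit 188450) (nat_lit 23) (.e (nat_lit 204852) (nat_lit 26) (.e (nat_lit 336258) (nat_lit 15) (.e (nat_lit 3589) (nat_lit 224) (.e (nat_lit 753693) (nat_lit 13) .nil))))))) (.g (nat_lit 4) .nil .nil))) 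
(.lf (nat_lit 42289) (.g (nat_lit 2496) (.e (nat_lit 1238) (nat_lit 91) (.e (nat_lit 90176) (nat_lit 15) (.e (nat_lit 188450) (nat_lit 23) (.e (nat_lit 204880) (nat_lit 32) (.e (nat_lit 385087) (nat_lit 46) .nil))))) .nil)))) (.nd (nat_lit 4) (.nd (nat_lit 5) 
(.lf (nat_lit 42249) (.g (nat_lit 2122) (.e (nat_lit 1238) (nat_lit 91) (.e (nat_lit 90176) (nat_lit 15) (.e (nat_lit 188450) (nat_lit 23) (.e (nat_lit 204849) (nat_lit 25) (.e (nat_lit 327705) (nat_lit 10) (.e (nat_lit 7936) (nat_lit 298) .nil)))))) (.g (nat_lit 5) .nil .nil))) 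
(.lf (nat_lit 42281) (.g (nat_lit 2315) (.e (nat_lit 1238) (nat_lit 91) (.e (nat_lit 90176) (nat_lit 15) (.e (nat_lit 188450) (nat_lit 23) (.e (nat_lit 204863) (nat_lit 27) (.e (nat_lit 344152) (nat_lit 34) (.e (nat_lit 622598) (nat_lit 5) .nil)))))) (.g (nat_lit 4) .nil .nil)))) (.nd (nat_lit 5) 
(.lf (nat_lit 42265) (.g (nat_lit 1632) (.e (nat_lit 1238) (nat_lit 91) (.e (nat_lit 90176) (nat_lit 15) (.e (nat_lit 188450) (nat_lit 23) (.e (nat_lit 204861) (nat_lit 26) .nil)))) .nil)) 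
(.lf (nat_lit 42297) (.g (nat_lit 2331) (.e (nat_lit 1238) (nat_lit 91) (.e (nat_lit 90176) (nat_lit 15) (.e (nat_lit 188452) (nat_lit 23) (.e (nat_lit 204885) (nat_lit 33) .nil)))) .nil))))) (.nd (nat_lit 3) (.nd (nat_lit 4) (.nd (nat_lit 5) 
(.lf (nat_lit 42245) (.g (nat_lit 1663) (.e (nat_lit 1238) (nat_lit 91) (.e (nat_lit 90176) (nat_lit 15) (.e (nat_lit 188450) (nat_lit 23) (.e (nat_lit 204849) (nat_lit 25) (.e (nat_lit 327702) (nat_lit 10) .nil))))) .nil)) 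
(.lf (nat_lit 42277) (.g (nat_lit 2297) (.e (nat_lit 1238) (nat_lit 91) (.e (nat_lit 90176) (nat_lit 15) (.e (nat_lit 188450) (nat_lit 23) (.e (nat_lit 204863) (nat_lit 27) (.e (nat_lit 344150) (nat_lit 34) .nil))))) .nil))) (.nd (nat_lit 5) 
(.lf (nat_lit 42261) (.g (nat_lit 2189) (.e (nat_lit 1238) (nat_lit 91) (.e (nat_lit 90176) (nat_lit 15) (.e (nat_lit 188450) (nat_lit 23) (.e (nat_lit 204852) (nat_lit 26) (.e (nat_lit 336310) (nat_lit 16) (.e (nat_lit 164204) (nat_lit 170) (.e (nat_lit 1041) (nat_lit 81) .nil))))))) (.g (nat_lit 4) .nil .nil))) 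
(.lf (nat_lit 42293) (.g (nat_lit 2144) (.e (nat_lit 1238) (nat_lit 91) (.e (nat_lit 90176) (nat_lit 15) (.e (nat_lit 188450) (nat_lit 23) (.e (nat_lit 204885) (nat_lit 33) (.e (nat_lit 401409) (nat_lit 0) (.e (nat_lit 7540) (nat_lit 402) .nil)))))) (.g (nat_lit 5) .nil .nil))))) (.nd (nat_lit 4) (.nd (nat_lit 5) 
(.lf (nat_lit 42253) (.g (nat_lit 2337) (.e (nat_lit 1238) (nat_lit 91) (.e (nat_lit 90176) (nat_lit 15) (.e (nat_lit 188450) (nat_lit 23) (.e (nat_lit 204852) (nat_lit 26) (.e (nat_lit 336240) (nat_lit 15) (.e (nat_lit 3590) (nat_lit 224) (.e (nat_lit 753693) (nat_lit 13) .nil))))))) (.g (nat_lit 4) .nil .nil))) 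
(.lf (nat_lit 42285) (.g (nat_lit 1802) (.e (nat_lit 1238) (nat_lit 91) (.e (nat_lit 90176) (nat_lit 15) (.e (nat_lit 188450) (nat_lit 23) (.e (nat_lit 204871) (nat_lit 30) .nil)))) .nil))) (.nd (nat_lit 5) 
(.lf (nat_lit 42269) (.g (nat_lit 2803) (.e (nat_lit 1238) (nat_lit 91) (.e (nat_lit 90176) (nat_lit 15) (.e (nat_lit 188450) (nat_lit 23) (.e (nat_lit 204861) (nat_lit 26) (.e (nat_lit 335914) (nat_lit 0) .nil))))) .nil)) 
(.lf (nat_lit 42301) (.g (nat_lit 1356) (.e (nat_lit 1238) (nat_lit 91) (.e (nat_lit 90176) (nat_lit 15) (.e (nat_lit 188459) (nat_lit 26) (.e (nat_lit 261888) (nat_lit 5) (.e (nat_lit 180263) (nat_lit 21) (.e (nat_lit 671488) (nat_lit 0) .nil)))))) (.g (nat_lit 5) .nil .nil))))))) (.nd (nat_lit 2) (.nd (nat_lit 3) (.nd (nat_lit 4) (.nd (nat_lit 5) 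
(.lf (nat_lit 42243) (.g (nat_lit 1674) (.e (nat_lit 1238) (nat_lit 91) (.e (nat_lit 90176) (nat_lit 15) (.e (nat_lit 188450) (nat_lit 23) (.e (nat_lit 204848) (nat_lit 25) (.e (nat_lit 327702) (nat_lit 10) (.e (nat_lit 5346) (nat_lit 298) .nil)))))) (.g (nat_lit 4) .nil .nil))) 
(.lf (nat_lit 42275) (.g (nat_lit 1287) (.e (nat_lit 1238) (nat_lit 91) (.e (nat_lit 90176) (nat_lit 15) (.e (nat_lit 188450) (nat_lit 23) (.e (nat_lit 204863) (nat_lit 27) .nil)))) .nil))) (.nd (nat_lit 5) 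
(.lf (nat_lit 42259) (.g (nat_lit 2519) (.e (nat_lit 1238) (nat_lit 91) (.e (nat_lit 90176) (nat_lit 15) (.e (nat_lit 188450) (nat_lit 23) (.e (nat_lit 204852) (nat_lit 26) (.e (nat_lit 336261) (nat_lit 15) (.e (nat_lit 3588) (nat_lit 224) (.e (nat_lit 753693) (nat_lit 13) .nil))))))) (.g (nat_lit 4) .nil .nil))) 
(.lf (nat_lit 42291) (.g (nat_lit 1102) (.e (nat_lit 1238) (nat_lit 91) (.e (nat_lit 90176) (nat_lit 15) (.e (nat_lit 188450) (nat_lit 23) (.e (nat_lit 204885) (nat_lit 33) .nil)))) .nil)))) (.nd (nat_lit 4) (.nd (nat_lit 5) 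
(.lf (nat_lit 42251) (.g (nat_lit 2627) (.e (nat_lit 1238) (nat_lit 91) (.e (nat_lit 90176) (nat_lit 15) (.e (nat_lit 188450) (nat_lit 23) (.e (nat_lit 204852) (nat_lit 26) (.e (nat_lit 335950) (nat_lit 0) .nil))))) .nil)) 
(.lf (nat_lit 42283) (.g (nat_lit 2554) (.e (nat_lit 1238) (nat_lit 91) (.e (nat_lit 90176) (nat_lit 15) (.e (nat_lit 188450) (nat_lit 23) (.e (nat_lit 204863) (nat_lit 27) (.e (nat_lit 344152) (nat_lit 34) (.e (nat_lit 630528) (nat_lit 5) .nil)))))) (.g (nat_lit 5) .nil .nil)))) (.nd (nat_lit 5) 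
(.lf (nat_lit 42267) (.g (nat_lit 3031) (.e (nat_lit 1238) (nat_lit 91) (.e (nat_lit 90176) (nat_lit 15) (.e (nat_lit 188450) (nat_lit 23) (.e (nat_lit 204861) (nat_lit 26) (.e (nat_lit 335892) (nat_lit 0) (.e (nat_lit 1942) (nat_lit 132) (.e (nat_lit 630528) (nat_lit 5) .nil))))))) (.g (nat_lit 5) .nil .nil))) 
(.lf (nat_lit 42299) (.g (nat_lit 392) (.e (nat_lit 1238) (nat_lit 91) (.e (nat_lit 90176) (nat_lit 15) (.e (nat_lit 188459) (nat_lit 26) .nil))) .nil))))) (.nd (nat_lit 3) (.nd (nat_lit 4) (.nd (nat_lit 5) 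
(.lf (nat_lit 42247) (.g (nat_lit 1834) (.e (nat_lit 1238) (nat_lit 91) (.e (nat_lit 90176) (nat_lit 15) (.e (nat_lit 188450) (nat_lit 23) (.e (nat_lit 204849) (nat_lit 25) (.e (nat_lit 327702) (nat_lit 10) (.e (nat_lit 7936) (nat_lit 298) .nil)))))) (.g (nat_lit 4) .nil .nil))) 
(.lf (nat_lit 42279) (.g (nat_lit 2657) (.e (nat_lit 1238) (nat_lit 91) (.e (nat_lit 90176) (nat_lit 15) (.e (nat_lit 188450) (nat_lit 23) (.e (nat_lit 204863) (nat_lit 27) (.e (nat_lit 344151) (nat_lit 34) .nil))))) .nil))) (.nd (nat_lit 5) 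
(.lf (nat_lit 42263) (.g (nat_lit 2508) (.e (nat_lit 1238) (nat_lit 91) (.e (nat_lit 90176) (nat_lit 15) (.e (nat_lit 188450) (nat_lit 23) (.e (nat_lit 204855) (nat_lit 26) (.e (nat_lit 335923) (nat_lit 0) .nil))))) .nil)) 
(.lf (nat_lit 42295) (.g (nat_lit 1701) (.e (nat_lit 1238) (nat_lit 91) (.e (nat_lit 90176) (nat_lit 15) (.e (nat_lit 188450) (nat_lit 23) (.e (nat_lit 204885) (nat_lit 33) (.e (nat_lit 401416) (nat_lit 0) .nil))))) .nil)))) (.nd (nat_lit 4) (.nd (nat_lit 5) 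
(.lf (nat_lit 42255) (.g (nat_lit 2140) (.e (nat_lit 1238) (nat_lit 91) (.e (nat_lit 90176) (nat_lit 15) (.e (nat_lit 188450) (nat_lit 23) (.e (nat_lit 204852) (nat_lit 26) (.e (nat_lit 336258) (nat_lit 15) .nil))))) .nil)) 
(.lf (nat_lit 42287) (.g (nat_lit 1152) (.e (nat_lit 1238) (nat_lit 91) (.e (nat_lit 90176) (nat_lit 15) (.e (nat_lit 188450) (nat_lit 23) (.e (nat_lit 204873) (nat_lit 30) .nil)))) .nil))) (.nd (nat_lit 5) 
(.lf (nat_lit 42271) (.g (nat_lit 4139) (.e (nat_lit 1238) (nat_lit 91) (.e (nat_lit 90176) (nat_lit 15) (.e (nat_lit 188450) (nat_lit 23) (.e (nat_lit 204861) (nat_lit 26) (.e (nat_lit 335988) (nat_lit 1) (.e (nat_lit 57783) (nat_lit 239) (.e (nat_lit 7936) (nat_lit 81) .nil))))))) (.g (nat_lit 6) .nil .nil))) 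
(.lf (nat_lit 42303) (.g (nat_lit 1330) (.e (nat_lit 1238) (nat_lit 91) (.e (nat_lit 90176) (nat_lit 15) (.e (nat_lit 188459) (nat_lit 26) (.e (nat_lit 253985) (nat_lit 10) (.e (nat_lit 8277) (nat_lit 47) (.e (nat_lit 794677) (nat_lit 24) (.e (nat_lit 220928) (nat_lit 0) .nil))))))) (.g (nat_lit 4) .nil .nil)))))))))

noncomputable def tv588 : DT := (.nd (nat_lit 0) (.nd (nat_lit 1) (.nd (nat_lit 2) (.nd (nat_lit 3) (.nd (nat_lit 4) (.nd (nat_lit 5) 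
(.lf (nat_lit 42304) (.g (nat_lit 1550) (.e (nat_lit 1238) (nat_lit 91) (.e (nat_lit 90176) (nat_lit 15) (.e (nat_lit 188459) (nat_lit 26) (.e (nat_lit 253986) (nat_lit 10) (.e (nat_lit 8277) (nat_lit 47) (.e (nat_lit 794676) (nat_lit 24) (.e (nat_lit 220928) (nat_lit 0) .nil))))))) (.g (nat_lit 6) .nil .nil))) 
(.lf (nat_lit 42336) (.g (nat_lit 4285) (.e (nat_lit 1238) (nat_lit 91) (.e (nat_lit 90185) (nat_lit 17) (.e (nat_lit 237594) (nat_lit 3) (.e (nat_lit 204830) (nat_lit 18) (.e (nat_lit 57692) (nat_lit 156) (.e (nat_lit 163874) (nat_lit 3) (.e (nat_lit 204834) (nat_lit 19) (.e (nat_lit 106517) (nat_lit 9) .nil)))))))) (.g (nat_lit 7) .nil .nil)))) (.nd (nat_lit 5) 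
(.lf (nat_lit 42320) (.g (nat_lit 759) (.e (nat_lit 1238) (nat_lit 91) (.e (nat_lit 90185) (nat_lit 17) (.e (nat_lit 237589) (nat_lit 2) .nil))) .nil)) 
(.lf (nat_lit 42352) (.g (nat_lit 1768) (.e (nat_lit 1238) (nat_lit 91) (.e (nat_lit 90185) (nat_lit 17) (.e (nat_lit 237624) (nat_lit 13) (.e (nat_lit 491264) (nat_lit 10) (.e (nat_lit 434276) (nat_lit 39) (.e (nat_lit 671488) (nat_lit 0) .nil)))))) (.g (nat_lit 5) .nil .nil))))) (.nd (nat_lit 4) (.nd (nat_lit 5) 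
(.lf (nat_lit 42312) (.g (nat_lit 2060) (.e (nat_lit 1238) (nat_lit 91) (.e (nat_lit 90178) (nat_lit 15) (.e (nat_lit 188440) (nat_lit 20) (.e (nat_lit 3307) (nat_lit 202) (.e (nat_lit 573457) (nat_lit 9) .nil))))) .nil)) 
(.lf (nat_lit 42344) (.g (nat_lit 1298) (.e (nat_lit 1238) (nat_lit 91) (.e (nat_lit 90185) (nat_lit 17) (.e (nat_lit 237605) (nat_lit 9) (.e (nat_lit 426566) (nat_lit 34) (.e (nat_lit 393251) (nat_lit 18) .nil))))) .nil))) (.nd (nat_lit 5) 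
(.lf (nat_lit 42328) (.g (nat_lit 3939) (.e (nat_lit 1238) (nat_lit 91) (.e (nat_lit 90185) (nat_lit 17) (.e (nat_lit 237592) (nat_lit 3) (.e (nat_lit 204830) (nat_lit 18) (.e (nat_lit 57692) (nat_lit 156) (.e (nat_lit 163874) (nat_lit 3) (.e (nat_lit 204834) (nat_lit 19) (.e (nat_lit 106517) (nat_lit 9) .nil)))))))) (.g (nat_lit 7) .nil .nil))) 
(.lf (nat_lit 42360) (.g (nat_lit 2147) (.e (nat_lit 1239) (nat_lit 91) (.e (nat_lit 98048) (nat_lit 5) (.e (nat_lit 73746) (nat_lit 3) (.e (nat_lit 516131) (nat_lit 3) (.e (nat_lit 221211) (nat_lit 22) (.e (nat_lit 196661) (nat_lit 12) (.e (nat_lit 57360) (nat_lit 0) (.e (nat_lit 5818) (nat_lit 320) (.e (nat_lit 999) (nat_lit 81) .nil))))))))) (.g (nat_lit 6) .nil .nil)))))) 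
(.nd (nat_lit 3) (.nd (nat_lit 4) (.nd (nat_lit 5) 
(.lf (nat_lit 42308) (.g (nat_lit 2431) (.e (nat_lit 1238) (nat_lit 91) (.e (nat_lit 90177) (nat_lit 15) (.e (nat_lit 188452) (nat_lit 23) (.e (nat_lit 204846) (nat_lit 24) .nil)))) .nil)) 
(.lf (nat_lit 42340) (.g (nat_lit 408) (.e (nat_lit 1238) (nat_lit 91) (.e (nat_lit 90185) (nat_lit 17) (.e (nat_lit 237605) (nat_lit 9) .nil))) .nil))) (.nd (nat_lit 5) 
(.lf (nat_lit 42324) (.g (nat_lit 625) (.e (nat_lit 1238) (nat_lit 91) (.e (nat_lit 90185) (nat_lit 17) (.e (nat_lit 237592) (nat_lit 3) .nil))) .nil)) 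
(.lf (nat_lit 42356) (.g (nat_lit 2359) (.e (nat_lit 1239) (nat_lit 91) (.e (nat_lit 98048) (nat_lit 5) (.e (nat_lit 73746) (nat_lit 3) (.e (nat_lit 516129) (nat_lit 3) (.e (nat_lit 221210) (nat_lit 22) (.e (nat_lit 196650) (nat_lit 10) (.e (nat_lit 8262) (nat_lit 45) (.e (nat_lit 778246) (nat_lit 0) .nil)))))))) (.g (nat_lit 6) .nil .nil))))) (.nd (nat_lit 4) (.nd (nat_lit 5) 
(.lf (nat_lit 42316) (.g (nat_lit 618) (.e (nat_lit 1238) (nat_lit 91) (.e (nat_lit 90178) (nat_lit 15) (.e (nat_lit 188459) (nat_lit 26) .nil))) .nil)) 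
(.lf (nat_lit 42348) (.g (nat_lit 1668) (.e (nat_lit 1238) (nat_lit 91) (.e (nat_lit 90185) (nat_lit 17) (.e (nat_lit 237621) (nat_lit 13) (.e (nat_lit 491264) (nat_lit 10) (.e (nat_lit 434276) (nat_lit 39) (.e (nat_lit 671488) (nat_lit 0) .nil)))))) (.g (nat_lit 5) .nil .nil)))) (.nd (nat_lit 5) 
(.lf (nat_lit 42332) (.g (nat_lit 2951) (.e (nat_lit 1238) (nat_lit 91) (.e (nat_lit 90185) (nat_lit 17) (.e (nat_lit 237594) (nat_lit 3) (.e (nat_lit 204829) (nat_lit 18) (.e (nat_lit 57688) (nat_lit 156) (.e (nat_lit 163873) (nat_lit 3) (.e (nat_lit 204834) (nat_lit 19) (.e (nat_lit 106517) (nat_lit 9) .nil)))))))) (.g (nat_lit 5) .nil .nil))) 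
(.lf (nat_lit 42364) (.g (nat_lit 2261) (.e (nat_lit 1239) (nat_lit 91) (.e (nat_lit 98048) (nat_lit 5) (.e (nat_lit 73746) (nat_lit 3) (.e (nat_lit 516131) (nat_lit 3) (.e (nat_lit 221212) (nat_lit 22) (.e (nat_lit 196651) (nat_lit 10) (.e (nat_lit 8262) (nat_lit 45) (.e (nat_lit 778246) (nat_lit 0) .nil)))))))) (.g (nat_lit 5) .nil .nil))))))) 
(.nd (nat_lit 2) (.nd (nat_lit 3) (.nd (nat_lit 4) (.nd (nat_lit 5) 
(.lf (nat_lit 42306) (.g (nat_lit 1794) (.e (nat_lit 1238) (nat_lit 91) (.e (nat_lit 90176) (nat_lit 15) (.e (nat_lit 188459) (nat_lit 26) (.e (nat_lit 253987) (nat_lit 10) (.e (nat_lit 8276) (nat_lit 47) (.e (nat_lit 794677) (nat_lit 24) (.e (nat_lit 220928) (nat_lit 0) .nil))))))) (.g (nat_lit 6) .nil .nil))) 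
(.lf (nat_lit 42338) (.g (nat_lit 473) (.e (nat_lit 1238) (nat_lit 91) (.e (nat_lit 90185) (nat_lit 17) (.e (nat_lit 237601) (nat_lit 9) .nil))) .nil))) (.nd (nat_lit 5) 
(.lf (nat_lit 42322) (.g (nat_lit 1365) (.e (nat_lit 1238) (nat_lit 91) (.e (nat_lit 90185) (nat_lit 17) (.e (nat_lit 237591) (nat_lit 3) .nil))) .nil)) 
(.lf (nat_lit 42354) (.g (nat_lit 2428) (.e (nat_lit 1239) (nat_lit 91) (.e (nat_lit 90120) (nat_lit 0) (.e (nat_lit 1427) (nat_lit 108) (.e (nat_lit 336324) (nat_lit 18) (.e (nat_lit 204872) (nat_lit 30) (.e (nat_lit 368676) (nat_lit 21) (.e (nat_lit 516124) (nat_lit 2) (.e (nat_lit 220928) (nat_lit 0) .nil)))))))) (.g (nat_lit 4) .nil .nil))))) (.nd (nat_lit 4) (.nd (nat_lit 5) 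
(.lf (nat_lit 42314) (.g (nat_lit 2088) (.e (nat_lit 1238) (nat_lit 91) (.e (nat_lit 90178) (nat_lit 15) (.e (nat_lit 188440) (nat_lit 20) (.e (nat_lit 3307) (nat_lit 202) (.e (nat_lit 573469) (nat_lit 11) (.e (nat_lit 16388) (nat_lit 0) (.e (nat_lit 7545) (nat_lit 402) .nil))))))) (.g (nat_lit 4) .nil .nil))) 
(.lf (nat_lit 42346) (.g (nat_lit 487) (.e (nat_lit 1238) (nat_lit 91) (.e (nat_lit 90185) (nat_lit 17) (.e (nat_lit 237621) (nat_lit 13) .nil))) .nil))) (.nd (nat_lit 5) 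
(.lf (nat_lit 42330) (.g (nat_lit 696) (.e (nat_lit 1238) (nat_lit 91) (.e (nat_lit 90185) (nat_lit 17) (.e (nat_lit 237594) (nat_lit 3) .nil))) .nil)) 
(.lf (nat_lit 42362) (.g (nat_lit 2467) (.e (nat_lit 1239) (nat_lit 91) (.e (nat_lit 98048) (nat_lit 5) (.e (nat_lit 73746) (nat_lit 3) (.e (nat_lit 516131) (nat_lit 3) (.e (nat_lit 221212) (nat_lit 22) (.e (nat_lit 196651) (nat_lit 10) (.e (nat_lit 8259) (nat_lit 45) (.e (nat_lit 778246) (nat_lit 0) .nil)))))))) (.g (nat_lit 6) .nil .nil)))))) (.nd (nat_lit 3) (.nd (nat_lit 4) (.nd (nat_lit 5) 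
(.lf (nat_lit 42310) (.g (nat_lit 561) (.e (nat_lit 1238) (nat_lit 91) (.e (nat_lit 90178) (nat_lit 15) (.e (nat_lit 188440) (nat_lit 20) .nil))) .nil)) 
(.lf (nat_lit 42342) (.g (nat_lit 1884) (.e (nat_lit 1238) (nat_lit 91) (.e (nat_lit 90185) (nat_lit 17) (.e (nat_lit 237605) (nat_lit 9) (.e (nat_lit 426131) (nat_lit 3) (.e (nat_lit 204873) (nat_lit 30) (.e (nat_lit 368689) (nat_lit 34) (.e (nat_lit 622605) (nat_lit 5) .nil))))))) (.g (nat_lit 5) .nil .nil)))) (.nd (nat_lit 5) 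
(.lf (nat_lit 42326) (.g (nat_lit 4102) (.e (nat_lit 1238) (nat_lit 91) (.e (nat_lit 90185) (nat_lit 17) (.e (nat_lit 237592) (nat_lit 3) (.e (nat_lit 204829) (nat_lit 18) (.e (nat_lit 57692) (nat_lit 156) (.e (nat_lit 163874) (nat_lit 3) (.e (nat_lit 204834) (nat_lit 19) (.e (nat_lit 106517) (nat_lit 9) .nil)))))))) (.g (nat_lit 6) .nil .nil))) 
(.lf (nat_lit 42358) (.g (nat_lit 2230) (.e (nat_lit 1239) (nat_lit 91) (.e (nat_lit 98048) (nat_lit 5) (.e (nat_lit 73746) (nat_lit 3) (.e (nat_lit 516129) (nat_lit 3) (.e (nat_lit 221210) (nat_lit 22) (.e (nat_lit 196651) (nat_lit 10) (.e (nat_lit 8262) (nat_lit 45) (.e (nat_lit 778246) (nat_lit 0) .nil)))))))) (.g (nat_lit 5) .nil .nil))))) (.nd (nat_lit 4) (.nd (nat_lit 5) 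
(.lf (nat_lit 42318) (.g (nat_lit 1312) (.e (nat_lit 1238) (nat_lit 91) (.e (nat_lit 90178) (nat_lit 15) (.e (nat_lit 188461) (nat_lit 26) (.e (nat_lit 261888) (nat_lit 0) .nil)))) .nil)) 
(.lf (nat_lit 42350) (.g (nat_lit 1132) (.e (nat_lit 1238) (nat_lit 91) (.e (nat_lit 90185) (nat_lit 17) (.e (nat_lit 237623) (nat_lit 13) .nil))) .nil))) (.nd (nat_lit 5) 
(.lf (nat_lit 42334) (.g (nat_lit 4471) (.e (nat_lit 1238) (nat_lit 91) (.e (nat_lit 90185) (nat_lit 17) (.e (nat_lit 237594) (nat_lit 3) (.e (nat_lit 204829) (nat_lit 18) (.e (nat_lit 57692) (nat_lit 156) (.e (nat_lit 163874) (nat_lit 3) (.e (nat_lit 204834) (nat_lit 19) (.e (nat_lit 106517) (nat_lit 9) .nil)))))))) (.g (nat_lit 6) .nil .nil))) 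
(.lf (nat_lit 42366) (.g (nat_lit 1718) (.e (nat_lit 1239) (nat_lit 91) (.e (nat_lit 98048) (nat_lit 5) (.e (nat_lit 73747) (nat_lit 3) (.e (nat_lit 516195) (nat_lit 26) (.e (nat_lit 336011) (nat_lit 2) (.e (nat_lit 90165) (nat_lit 12) (.e (nat_lit 164022) (nat_lit 46) (.e (nat_lit 704626) (nat_lit 9) .nil)))))))) (.g (nat_lit 4) .nil .nil)))))))) 
(.nd (nat_lit 1) (.nd (nat_lit 2) (.nd (nat_lit 3) (.nd (nat_lit 4) (.nd (nat_lit 5) 
(.lf (nat_lit 42305) (.g (nat_lit 1543) (.e (nat_lit 1238) (nat_lit 91) (.e (nat_lit 90176) (nat_lit 15) (.e (nat_lit 188459) (nat_lit 26) (.e (nat_lit 253986) (nat_lit 10) (.e (nat_lit 8277) (nat_lit 47) (.e (nat_lit 794677) (nat_lit 24) (.e (nat_lit 220928) (nat_lit 0) .nil))))))) (.g (nat_lit 6) .nil .nil))) 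
(.lf (nat_lit 42337) (.g (nat_lit 2632) (.e (nat_lit 1238) (nat_lit 91) (.e (nat_lit 90185) (nat_lit 17) (.e (nat_lit 237594) (nat_lit 3) (.e (nat_lit 204830) (nat_lit 18) (.e (nat_lit 57692) (nat_lit 156) (.e (nat_lit 163875) (nat_lit 3) (.e (nat_lit 204834) (nat_lit 19) (.e (nat_lit 106517) (nat_lit 9) .nil)))))))) (.g (nat_lit 5) .nil .nil)))) (.nd (nat_lit 5) 
(.lf (nat_lit 42321) (.g (nat_lit 1895) (.e (nat_lit 1238) (nat_lit 91) (.e (nat_lit 90185) (nat_lit 17) (.e (nat_lit 237590) (nat_lit 2) (.e (nat_lit 196624) (nat_lit 9) (.e (nat_lit 442) (nat_lit 33) .nil))))) .nil)) 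
(.lf (nat_lit 42353) (.g (nat_lit 1709) (.e (nat_lit 1238) (nat_lit 91) (.e (nat_lit 90185) (nat_lit 17) (.e (nat_lit 237624) (nat_lit 13) (.e (nat_lit 491264) (nat_lit 10) (.e (nat_lit 434279) (nat_lit 39) (.e (nat_lit 671488) (nat_lit 0) .nil)))))) (.g (nat_lit 5) .nil .nil))))) (.nd (nat_lit 4) (.nd (nat_lit 5) 
(.lf (nat_lit 42313) (.g (nat_lit 2174) (.e (nat_lit 1238) (nat_lit 91) (.e (nat_lit 90178) (nat_lit 15) (.e (nat_lit 188440) (nat_lit 20) (.e (nat_lit 3307) (nat_lit 202) (.e (nat_lit 573457) (nat_lit 9) (.e (nat_lit 430) (nat_lit 32) (.e (nat_lit 426011) (nat_lit 0) (.e (nat_lit 7545) (nat_lit 402) .nil)))))))) (.g (nat_lit 4) .nil .nil))) 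
(.lf (nat_lit 42345) (.g (nat_lit 1114) (.e (nat_lit 1238) (nat_lit 91) (.e (nat_lit 90185) (nat_lit 17) (.e (nat_lit 237620) (nat_lit 13) .nil))) .nil))) (.nd (nat_lit 5) 
(.lf (nat_lit 42329) (.g (nat_lit 2671) (.e (nat_lit 1238) (nat_lit 91) (.e (nat_lit 90185) (nat_lit 17) (.e (nat_lit 237593) (nat_lit 3) (.e (nat_lit 204829) (nat_lit 18) (.e (nat_lit 57692) (nat_lit 156) .nil))))) .nil)) 
(.lf (nat_lit 42361) (.g (nat_lit 2009) (.e (nat_lit 1239) (nat_lit 91) (.e (nat_lit 98048) (nat_lit 5) (.e (nat_lit 73746) (nat_lit 3) (.e (nat_lit 516131) (nat_lit 3) (.e (nat_lit 221212) (nat_lit 22) (.e (nat_lit 196650) (nat_lit 10) (.e (nat_lit 8260) (nat_lit 45) (.e (nat_lit 778246) (nat_lit 0) .nil)))))))) (.g (nat_lit 5) .nil .nil)))))) (.nd (nat_lit 3) (.nd (nat_lit 4) (.nd (nat_lit 5) 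
(.lf (nat_lit 42309) (.g (nat_lit 436) (.e (nat_lit 1238) (nat_lit 91) (.e (nat_lit 90178) (nat_lit 15) (.e (nat_lit 196352) (nat_lit 11) .nil))) .nil)) 
(.lf (nat_lit 42341) (.g (nat_lit 712) (.e (nat_lit 1238) (nat_lit 91) (.e (nat_lit 90185) (nat_lit 17) (.e (nat_lit 237605) (nat_lit 9) (.e (nat_lit 426131) (nat_lit 3) .nil)))) .nil))) (.nd (nat_lit 5) 
(.lf (nat_lit 42325) (.g (nat_lit 4198) (.e (nat_lit 1238) (nat_lit 91) (.e (nat_lit 90185) (nat_lit 17) (.e (nat_lit 237592) (nat_lit 3) (.e (nat_lit 204829) (nat_lit 18) (.e (nat_lit 57691) (nat_lit 156) (.e (nat_lit 163875) (nat_lit 3) (.e (nat_lit 204834) (nat_lit 19) (.e (nat_lit 106517) (nat_lit 9) .nil)))))))) (.g (nat_lit 6) .nil .nil))) 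
(.lf (nat_lit 42357) (.g (nat_lit 2305) (.e (nat_lit 1239) (nat_lit 91) (.e (nat_lit 98048) (nat_lit 5) (.e (nat_lit 73746) (nat_lit 3) (.e (nat_lit 516129) (nat_lit 3) (.e (nat_lit 221210) (nat_lit 22) (.e (nat_lit 196651) (nat_lit 10) (.e (nat_lit 8261) (nat_lit 45) (.e (nat_lit 778246) (nat_lit 0) .nil)))))))) (.g (nat_lit 6) .nil .nil))))) (.nd (nat_lit 4) (.nd (nat_lit 5) 
(.lf (nat_lit 42317) (.g (nat_lit 1175) (.e (nat_lit 1238) (nat_lit 91) (.e (nat_lit 90178) (nat_lit 15) (.e (nat_lit 188459) (nat_lit 26) (.e (nat_lit 253987) (nat_lit 10) .nil)))) .nil)) 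
(.lf (nat_lit 42349) (.g (nat_lit 1605) (.e (nat_lit 1238) (nat_lit 91) (.e (nat_lit 90185) (nat_lit 17) (.e (nat_lit 237621) (nat_lit 13) (.e (nat_lit 491264) (nat_lit 10) (.e (nat_lit 434279) (nat_lit 39) (.e (nat_lit 671488) (nat_lit 0) .nil)))))) (.g (nat_lit 5) .nil .nil)))) (.nd (nat_lit 5) 
(.lf (nat_lit 42333) (.g (nat_lit 4438) (.e (nat_lit 1238) (nat_lit 91) (.e (nat_lit 90185) (nat_lit 17) (.e (nat_lit 237594) (nat_lit 3) (.e (nat_lit 204829) (nat_lit 18) (.e (nat_lit 57691) (nat_lit 156) (.e (nat_lit 163875) (nat_lit 3) (.e (nat_lit 204834) (nat_lit 19) (.e (nat_lit 106517) (nat_lit 9) .nil)))))))) (.g (nat_lit 6) .nil .nil))) 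
(.lf (nat_lit 42365) (.g (nat_lit 2041) (.e (nat_lit 1239) (nat_lit 91) (.e (nat_lit 98048) (nat_lit 5) (.e (nat_lit 73746) (nat_lit 3) (.e (nat_lit 516131) (nat_lit 3) (.e (nat_lit 221215) (nat_lit 23) (.e (nat_lit 204839) (nat_lit 21) (.e (nat_lit 123182) (nat_lit 264) (.e (nat_lit 999) (nat_lit 81) .nil)))))))) (.g (nat_lit 5) .nil .nil))))))) 
(.nd (nat_lit 2) (.nd (nat_lit 3) (.nd (nat_lit 4) (.nd (nat_lit 5) 
(.lf (nat_lit 42307) (.g (nat_lit 481) (.e (nat_lit 1238) (nat_lit 91) (.e (nat_lit 90176) (nat_lit 15) (.e (nat_lit 188461) (nat_lit 26) .nil))) .nil)) 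
(.lf (nat_lit 42339) (.g (nat_lit 1228) (.e (nat_lit 1238) (nat_lit 91) (.e (nat_lit 90185) (nat_lit 17) (.e (nat_lit 237601) (nat_lit 9) (.e (nat_lit 426566) (nat_lit 34) (.e (nat_lit 393233) (nat_lit 17) .nil))))) .nil))) (.nd (nat_lit 5) 
(.lf (nat_lit 42323) (.g (nat_lit 2725) (.e (nat_lit 1238) (nat_lit 91) (.e (nat_lit 90185) (nat_lit 17) (.e (nat_lit 237591) (nat_lit 3) (.e (nat_lit 204829) (nat_lit 18) (.e (nat_lit 57692) (nat_lit 156) .nil))))) .nil)) 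
(.lf (nat_lit 42355) (.g (nat_lit 3865) (.e (nat_lit 1239) (nat_lit 91) (.e (nat_lit 90120) (nat_lit 0) (.e (nat_lit 1638) (nat_lit 114) (.e (nat_lit 385068) (nat_lit 26) (.e (nat_lit 532555) (nat_lit 13) (.e (nat_lit 368676) (nat_lit 21) (.e (nat_lit 516124) (nat_lit 2) (.e (nat_lit 220928) (nat_lit 0) .nil)))))))) (.g (nat_lit 7) .nil .nil))))) (.nd (nat_lit 4) (.nd (nat_lit 5) 
(.lf (nat_lit 42315) (.g (nat_lit 2071) (.e (nat_lit 1238) (nat_lit 91) (.e (nat_lit 90178) (nat_lit 15) (.e (nat_lit 188440) (nat_lit 20) (.e (nat_lit 3307) (nat_lit 202) (.e (nat_lit 573470) (nat_lit 11) (.e (nat_lit 16388) (nat_lit 0) (.e (nat_lit 7545) (nat_lit 402) .nil))))))) (.g (nat_lit 4) .nil .nil))) 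
(.lf (nat_lit 42347) (.g (nat_lit 1747) (.e (nat_lit 1238) (nat_lit 91) (.e (nat_lit 90185) (nat_lit 17) (.e (nat_lit 237621) (nat_lit 13) (.e (nat_lit 491264) (nat_lit 10) (.e (nat_lit 434275) (nat_lit 39) (.e (nat_lit 671488) (nat_lit 0) .nil)))))) (.g (nat_lit 5) .nil .nil)))) (.nd (nat_lit 5) 
(.lf (nat_lit 42331) (.g (nat_lit 955) (.e (nat_lit 1238) (nat_lit 91) (.e (nat_lit 90185) (nat_lit 17) (.e (nat_lit 237594) (nat_lit 3) (.e (nat_lit 212736) (nat_lit 10) .nil)))) .nil)) 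
(.lf (nat_lit 42363) (.g (nat_lit 2366) (.e (nat_lit 1239) (nat_lit 91) (.e (nat_lit 98048) (nat_lit 5) (.e (nat_lit 73746) (nat_lit 3) (.e (nat_lit 516131) (nat_lit 3) (.e (nat_lit 221212) (nat_lit 22) (.e (nat_lit 196651) (nat_lit 10) (.e (nat_lit 8261) (nat_lit 45) (.e (nat_lit 778246) (nat_lit 0) .nil)))))))) (.g (nat_lit 5) .nil .nil)))))) (.nd (nat_lit 3) (.nd (nat_lit 4) (.nd (nat_lit 5) 
(.lf (nat_lit 42311) (.g (nat_lit 1413) (.e (nat_lit 1238) (nat_lit 91) (.e (nat_lit 90178) (nat_lit 15) (.e (nat_lit 188440) (nat_lit 20) (.e (nat_lit 2448) (nat_lit 157) .nil)))) .nil)) 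
(.lf (nat_lit 42343) (.g (nat_lit 811) (.e (nat_lit 1238) (nat_lit 91) (.e (nat_lit 90185) (nat_lit 17) (.e (nat_lit 237605) (nat_lit 9) (.e (nat_lit 426566) (nat_lit 34) .nil)))) .nil))) (.nd (nat_lit 5) 
(.lf (nat_lit 42327) (.g (nat_lit 4371) (.e (nat_lit 1238) (nat_lit 91) (.e (nat_lit 90185) (nat_lit 17) (.e (nat_lit 237592) (nat_lit 3) (.e (nat_lit 204830) (nat_lit 18) (.e (nat_lit 57691) (nat_lit 156) (.e (nat_lit 163875) (nat_lit 3) (.e (nat_lit 204834) (nat_lit 19) (.e (nat_lit 106517) (nat_lit 9) .nil)))))))) (.g (nat_lit 0) .nil .nil))) 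
(.lf (nat_lit 42359) (.g (nat_lit 2225) (.e (nat_lit 1239) (nat_lit 91) (.e (nat_lit 98048) (nat_lit 5) (.e (nat_lit 73746) (nat_lit 3) (.e (nat_lit 516129) (nat_lit 3) (.e (nat_lit 221214) (nat_lit 23) (.e (nat_lit 204839) (nat_lit 21) (.e (nat_lit 123185) (nat_lit 264) (.e (nat_lit 999) (nat_lit 81) .nil)))))))) (.g (nat_lit 5) .nil .nil))))) (.nd (nat_lit 4) (.nd (nat_lit 5) 
(.lf (nat_lit 42319) (.g (nat_lit 1312) (.e (nat_lit 1238) (nat_lit 91) (.e (nat_lit 90178) (nat_lit 15) (.e (nat_lit 188461) (nat_lit 26) (.e (nat_lit 261888) (nat_lit 5) .nil)))) .nil)) 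
(.lf (nat_lit 42351) (.g (nat_lit 1846) (.e (nat_lit 1238) (nat_lit 91) (.e (nat_lit 90185) (nat_lit 17) (.e (nat_lit 237624) (nat_lit 13) (.e (nat_lit 491264) (nat_lit 10) (.e (nat_lit 434275) (nat_lit 39) (.e (nat_lit 671488) (nat_lit 0) .nil)))))) (.g (nat_lit 5) .nil .nil)))) (.nd (nat_lit 5) 
(.lf (nat_lit 42335) (.g (nat_lit 4680) (.e (nat_lit 1238) (nat_lit 91) (.e (nat_lit 90185) (nat_lit 17) (.e (nat_lit 237594) (nat_lit 3) (.e (nat_lit 204830) (nat_lit 18) (.e (nat_lit 57691) (nat_lit 156) (.e (nat_lit 163875) (nat_lit 3) (.e (nat_lit 204834) (nat_lit 19) (.e (nat_lit 106517) (nat_lit 9) .nil)))))))) (.g (nat_lit 8) .nil .nil))) 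
(.lf (nat_lit 42367) (.g (nat_lit 1863) (.e (nat_lit 1239) (nat_lit 91) (.e (nat_lit 98048) (nat_lit 5) (.e (nat_lit 73748) (nat_lit 3) (.e (nat_lit 516131) (nat_lit 3) (.e (nat_lit 221211) (nat_lit 22) (.e (nat_lit 196661) (nat_lit 12) (.e (nat_lit 57360) (nat_lit 0) (.e (nat_lit 5818) (nat_lit 320) (.e (nat_lit 999) (nat_lit 81) .nil))))))))) (.g (nat_lit 6) .nil .nil)))))))))

noncomputable def tv589 : DT := (.nd (nat_lit 0) (.nd (nat_lit 1) (.nd (nat_lit 2) (.nd (nat_lit 3) (.nd (nat_lit 4) (.nd (nat_lit 5) 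
(.lf (nat_lit 42368) (.g (nat_lit 1417) (.e (nat_lit 1239) (nat_lit 91) (.e (nat_lit 98048) (nat_lit 5) (.e (nat_lit 73748) (nat_lit 3) (.e (nat_lit 516131) (nat_lit 3) (.e (nat_lit 221212) (nat_lit 22) (.e (nat_lit 196650) (nat_lit 10) (.e (nat_lit 8260) (nat_lit 45) (.e (nat_lit 778246) (nat_lit 0) .nil)))))))) (.g (nat_lit 5) .nil .nil))) 
(.lf (nat_lit 42400) (.g (nat_lit 2146) (.e (nat_lit 1239) (nat_lit 91) (.e (nat_lit 98048) (nat_lit 6) (.e (nat_lit 81954) (nat_lit 23) (.e (nat_lit 98356) (nat_lit 26) (.e (nat_lit 426422) (nat_lit 16) (.e (nat_lit 57727) (nat_lit 181) (.e (nat_lit 988) (nat_lit 81) .nil))))))) (.g (nat_lit 4) .nil .nil)))) (.nd (nat_lit 5) 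
(.lf (nat_lit 42384) (.g (nat_lit 3056) (.e (nat_lit 1239) (nat_lit 91) (.e (nat_lit 98048) (nat_lit 5) (.e (nat_lit 73755) (nat_lit 8) (.e (nat_lit 557105) (nat_lit 14) (.e (nat_lit 180252) (nat_lit 10) (.e (nat_lit 573474) (nat_lit 12) (.e (nat_lit 57516) (nat_lit 42) (.e (nat_lit 679680) (nat_lit 0) .nil)))))))) (.g (nat_lit 7) .nil .nil))) 
(.lf (nat_lit 42416) (.g (nat_lit 2389) (.e (nat_lit 1239) (nat_lit 91) (.e (nat_lit 98048) (nat_lit 6) (.e (nat_lit 81956) (nat_lit 23) (.e (nat_lit 98356) (nat_lit 26) (.e (nat_lit 426422) (nat_lit 16) (.e (nat_lit 57726) (nat_lit 181) (.e (nat_lit 1013) (nat_lit 81) .nil))))))) (.g (nat_lit 4) .nil .nil))))) (.nd (nat_lit 4) (.nd (nat_lit 5) 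
(.lf (nat_lit 42376) (.g (nat_lit 4195) (.e (nat_lit 1239) (nat_lit 91) (.e (nat_lit 98048) (nat_lit 5) (.e (nat_lit 73754) (nat_lit 8) (.e (nat_lit 557105) (nat_lit 14) (.e (nat_lit 180252) (nat_lit 10) (.e (nat_lit 573467) (nat_lit 10) (.e (nat_lit 8260) (nat_lit 45) (.e (nat_lit 778246) (nat_lit 0) .nil)))))))) (.g (nat_lit 7) .nil .nil))) 
(.lf (nat_lit 42408) (.g (nat_lit 2395) (.e (nat_lit 1239) (nat_lit 91) (.e (nat_lit 98048) (nat_lit 6) (.e (nat_lit 81956) (nat_lit 23) (.e (nat_lit 98356) (nat_lit 26) (.e (nat_lit 426361) (nat_lit 15) (.e (nat_lit 2027) (nat_lit 140) (.e (nat_lit 688145) (nat_lit 13) .nil))))))) (.g (nat_lit 5) .nil .nil)))) (.nd (nat_lit 5) 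
(.lf (nat_lit 42392) (.g (nat_lit 2412) (.e (nat_lit 1239) (nat_lit 91) (.e (nat_lit 98048) (nat_lit 6) (.e (nat_lit 81954) (nat_lit 23) (.e (nat_lit 98356) (nat_lit 26) (.e (nat_lit 426361) (nat_lit 15) (.e (nat_lit 2032) (nat_lit 140) (.e (nat_lit 688144) (nat_lit 13) .nil))))))) (.g (nat_lit 5) .nil .nil))) 
(.lf (nat_lit 42424) (.g (nat_lit 2484) (.e (nat_lit 1239) (nat_lit 91) (.e (nat_lit 98048) (nat_lit 8) (.e (nat_lit 131116) (nat_lit 9) (.e (nat_lit 336012) (nat_lit 2) (.e (nat_lit 90172) (nat_lit 14) (.e (nat_lit 180259) (nat_lit 17) (.e (nat_lit 630809) (nat_lit 13) .nil))))))) (.g (nat_lit 5) .nil .nil)))))) (.nd (nat_lit 3) (.nd (nat_lit 4) (.nd (nat_lit 5) 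
(.lf (nat_lit 42372) (.g (nat_lit 3563) (.e (nat_lit 1239) (nat_lit 91) (.e (nat_lit 98048) (nat_lit 5) (.e (nat_lit 73753) (nat_lit 8) (.e (nat_lit 557103) (nat_lit 14) (.e (nat_lit 180250) (nat_lit 10) (.e (nat_lit 573468) (nat_lit 10) (.e (nat_lit 8262) (nat_lit 45) (.e (nat_lit 778246) (nat_lit 0) .nil)))))))) (.g (nat_lit 6) .nil .nil))) 
(.lf (nat_lit 42404) (.g (nat_lit 2924) (.e (nat_lit 1239) (nat_lit 91) (.e (nat_lit 98048) (nat_lit 6) (.e (nat_lit 81955) (nat_lit 23) (.e (nat_lit 98367) (nat_lit 27) (.e (nat_lit 434268) (nat_lit 36) (.e (nat_lit 639005) (nat_lit 13) .nil)))))) (.g (nat_lit 5) .nil .nil)))) (.nd (nat_lit 5) 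
(.lf (nat_lit 42388) (.g (nat_lit 2130) (.e (nat_lit 1239) (nat_lit 91) (.e (nat_lit 98048) (nat_lit 6) (.e (nat_lit 81954) (nat_lit 23) (.e (nat_lit 98356) (nat_lit 26) (.e (nat_lit 426361) (nat_lit 15) (.e (nat_lit 2025) (nat_lit 140) (.e (nat_lit 688145) (nat_lit 13) .nil))))))) (.g (nat_lit 4) .nil .nil))) 
(.lf (nat_lit 42420) (.g (nat_lit 2211) (.e (nat_lit 1239) (nat_lit 91) (.e (nat_lit 98048) (nat_lit 8) (.e (nat_lit 131116) (nat_lit 9) (.e (nat_lit 336004) (nat_lit 2) (.e (nat_lit 90172) (nat_lit 14) (.e (nat_lit 180259) (nat_lit 17) (.e (nat_lit 630809) (nat_lit 13) .nil))))))) (.g (nat_lit 5) .nil .nil))))) (.nd (nat_lit 4) (.nd (nat_lit 5) 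
(.lf (nat_lit 42380) (.g (nat_lit 4540) (.e (nat_lit 1239) (nat_lit 91) (.e (nat_lit 98048) (nat_lit 5) (.e (nat_lit 73754) (nat_lit 8) (.e (nat_lit 557105) (nat_lit 14) (.e (nat_lit 180252) (nat_lit 10) (.e (nat_lit 573474) (nat_lit 12) (.e (nat_lit 57516) (nat_lit 42) (.e (nat_lit 671746) (nat_lit 0) .nil)))))))) (.g (nat_lit 7) .nil .nil))) 
(.lf (nat_lit 42412) (.g (nat_lit 2201) (.e (nat_lit 1239) (nat_lit 91) (.e (nat_lit 98048) (nat_lit 6) (.e (nat_lit 81956) (nat_lit 23) (.e (nat_lit 98356) (nat_lit 26) (.e (nat_lit 426361) (nat_lit 15) (.e (nat_lit 2032) (nat_lit 140) (.e (nat_lit 688149) (nat_lit 13) .nil))))))) (.g (nat_lit 4) .nil .nil)))) (.nd (nat_lit 5) 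
(.lf (nat_lit 42396) (.g (nat_lit 2305) (.e (nat_lit 1239) (nat_lit 91) (.e (nat_lit 98048) (nat_lit 6) (.e (nat_lit 81954) (nat_lit 23) (.e (nat_lit 98356) (nat_lit 26) (.e (nat_lit 426422) (nat_lit 16) (.e (nat_lit 57726) (nat_lit 181) (.e (nat_lit 988) (nat_lit 81) .nil))))))) (.g (nat_lit 4) .nil .nil))) 
(.lf (nat_lit 42428) (.g (nat_lit 1246) (.e (nat_lit 1239) (nat_lit 91) (.e (nat_lit 90128) (nat_lit 9) (.e (nat_lit 334) (nat_lit 26) (.e (nat_lit 376869) (nat_lit 23) .nil)))) .nil)))))) (.nd (nat_lit 2) (.nd (nat_lit 3) (.nd (nat_lit 4) (.nd (nat_lit 5) 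
(.lf (nat_lit 42370) (.g (nat_lit 1656) (.e (nat_lit 1239) (nat_lit 91) (.e (nat_lit 98048) (nat_lit 5) (.e (nat_lit 73748) (nat_lit 3) (.e (nat_lit 516131) (nat_lit 3) (.e (nat_lit 221212) (nat_lit 22) (.e (nat_lit 196651) (nat_lit 10) (.e (nat_lit 8261) (nat_lit 45) (.e (nat_lit 778246) (nat_lit 0) .nil)))))))) (.g (nat_lit 5) .nil .nil))) 
(.lf (nat_lit 42402) (.g (nat_lit 2474) (.e (nat_lit 1239) (nat_lit 91) (.e (nat_lit 98048) (nat_lit 6) (.e (nat_lit 81954) (nat_lit 23) (.e (nat_lit 98384) (nat_lit 32) (.e (nat_lit 475193) (nat_lit 38) (.e (nat_lit 688145) (nat_lit 13) .nil)))))) (.g (nat_lit 5) .nil .nil)))) (.nd (nat_lit 5) 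
(.lf (nat_lit 42386) (.g (nat_lit 2297) (.e (nat_lit 1239) (nat_lit 91) (.e (nat_lit 98048) (nat_lit 6) (.e (nat_lit 81953) (nat_lit 22) (.e (nat_lit 90170) (nat_lit 13) (.e (nat_lit 172042) (nat_lit 0) (.e (nat_lit 3391) (nat_lit 210) (.e (nat_lit 639008) (nat_lit 13) .nil))))))) (.g (nat_lit 5) .nil .nil))) 
(.lf (nat_lit 42418) (.g (nat_lit 1959) (.e (nat_lit 1239) (nat_lit 91) (.e (nat_lit 98048) (nat_lit 8) (.e (nat_lit 131116) (nat_lit 9) (.e (nat_lit 336004) (nat_lit 2) (.e (nat_lit 90172) (nat_lit 14) (.e (nat_lit 180224) (nat_lit 0) (.e (nat_lit 5060) (nat_lit 292) (.e (nat_lit 999) (nat_lit 81) .nil)))))))) (.g (nat_lit 5) .nil .nil))))) (.nd (nat_lit 4) (.nd (nat_lit 5) 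
(.lf (nat_lit 42378) (.g (nat_lit 4236) (.e (nat_lit 1239) (nat_lit 91) (.e (nat_lit 98048) (nat_lit 5) (.e (nat_lit 73754) (nat_lit 8) (.e (nat_lit 557105) (nat_lit 14) (.e (nat_lit 180252) (nat_lit 10) (.e (nat_lit 573468) (nat_lit 10) (.e (nat_lit 8260) (nat_lit 45) (.e (nat_lit 778246) (nat_lit 0) .nil)))))))) (.g (nat_lit 6) .nil .nil))) 
(.lf (nat_lit 42410) (.g (nat_lit 2221) (.e (nat_lit 1239) (nat_lit 91) (.e (nat_lit 98048) (nat_lit 6) (.e (nat_lit 81956) (nat_lit 23) (.e (nat_lit 98356) (nat_lit 26) (.e (nat_lit 426361) (nat_lit 15) (.e (nat_lit 2032) (nat_lit 140) (.e (nat_lit 688144) (nat_lit 13) .nil))))))) (.g (nat_lit 4) .nil .nil)))) (.nd (nat_lit 5) 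
(.lf (nat_lit 42394) (.g (nat_lit 2487) (.e (nat_lit 1239) (nat_lit 91) (.e (nat_lit 98048) (nat_lit 6) (.e (nat_lit 81954) (nat_lit 23) (.e (nat_lit 98356) (nat_lit 26) (.e (nat_lit 426361) (nat_lit 15) (.e (nat_lit 2032) (nat_lit 140) (.e (nat_lit 688151) (nat_lit 13) .nil))))))) (.g (nat_lit 5) .nil .nil))) 
(.lf (nat_lit 42426) (.g (nat_lit 2491) (.e (nat_lit 1239) (nat_lit 91) (.e (nat_lit 98048) (nat_lit 8) (.e (nat_lit 131116) (nat_lit 9) (.e (nat_lit 336012) (nat_lit 2) (.e (nat_lit 90174) (nat_lit 14) (.e (nat_lit 180260) (nat_lit 18) (.e (nat_lit 639004) (nat_lit 13) .nil))))))) (.g (nat_lit 5) .nil .nil)))))) (.nd (nat_lit 3) (.nd (nat_lit 4) (.nd (nat_lit 5) 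
(.lf (nat_lit 42374) (.g (nat_lit 4081) (.e (nat_lit 1239) (nat_lit 91) (.e (nat_lit 98048) (nat_lit 5) (.e (nat_lit 73753) (nat_lit 8) (.e (nat_lit 557105) (nat_lit 14) (.e (nat_lit 180252) (nat_lit 10) (.e (nat_lit 573474) (nat_lit 12) (.e (nat_lit 57516) (nat_lit 42) (.e (nat_lit 671745) (nat_lit 0) .nil)))))))) (.g (nat_lit 7) .nil .nil))) 
(.lf (nat_lit 42406) (.g (nat_lit 1973) (.e (nat_lit 1239) (nat_lit 91) (.e (nat_lit 98048) (nat_lit 6) (.e (nat_lit 81956) (nat_lit 23) (.e (nat_lit 98356) (nat_lit 26) (.e (nat_lit 426361) (nat_lit 15) (.e (nat_lit 2025) (nat_lit 140) (.e (nat_lit 688152) (nat_lit 13) .nil))))))) (.g (nat_lit 4) .nil .nil)))) (.nd (nat_lit 5) 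
(.lf (nat_lit 42390) (.g (nat_lit 2032) (.e (nat_lit 1239) (nat_lit 91) (.e (nat_lit 98048) (nat_lit 6) (.e (nat_lit 81954) (nat_lit 23) (.e (nat_lit 98356) (nat_lit 26) (.e (nat_lit 426361) (nat_lit 15) (.e (nat_lit 2027) (nat_lit 140) (.e (nat_lit 688144) (nat_lit 13) .nil))))))) (.g (nat_lit 4) .nil .nil))) 
(.lf (nat_lit 42422) (.g (nat_lit 2404) (.e (nat_lit 1239) (nat_lit 91) (.e (nat_lit 98048) (nat_lit 8) (.e (nat_lit 131116) (nat_lit 9) (.e (nat_lit 336012) (nat_lit 2) (.e (nat_lit 90172) (nat_lit 14) (.e (nat_lit 180224) (nat_lit 0) (.e (nat_lit 5060) (nat_lit 292) (.e (nat_lit 999) (nat_lit 81) .nil)))))))) (.g (nat_lit 5) .nil .nil))))) (.nd (nat_lit 4) (.nd (nat_lit 5) 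
(.lf (nat_lit 42382) (.g (nat_lit 3362) (.e (nat_lit 1239) (nat_lit 91) (.e (nat_lit 98048) (nat_lit 5) (.e (nat_lit 73754) (nat_lit 8) (.e (nat_lit 557105) (nat_lit 14) (.e (nat_lit 180252) (nat_lit 10) (.e (nat_lit 573475) (nat_lit 12) (.e (nat_lit 57515) (nat_lit 42) (.e (nat_lit 671746) (nat_lit 0) .nil)))))))) (.g (nat_lit 6) .nil .nil))) 
(.lf (nat_lit 42414) (.g (nat_lit 2225) (.e (nat_lit 1239) (nat_lit 91) (.e (nat_lit 98048) (nat_lit 6) (.e (nat_lit 81956) (nat_lit 23) (.e (nat_lit 98356) (nat_lit 26) (.e (nat_lit 426422) (nat_lit 16) (.e (nat_lit 57726) (nat_lit 181) (.e (nat_lit 994) (nat_lit 81) .nil))))))) (.g (nat_lit 4) .nil .nil)))) (.nd (nat_lit 5) 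
(.lf (nat_lit 42398) (.g (nat_lit 2081) (.e (nat_lit 1239) (nat_lit 91) (.e (nat_lit 98048) (nat_lit 6) (.e (nat_lit 81954) (nat_lit 23) (.e (nat_lit 98356) (nat_lit 26) (.e (nat_lit 426422) (nat_lit 16) (.e (nat_lit 57726) (nat_lit 181) (.e (nat_lit 1012) (nat_lit 81) .nil))))))) (.g (nat_lit 4) .nil .nil))) 
(.lf (nat_lit 42430) (.g (nat_lit 1919) (.e (nat_lit 1239) (nat_lit 91) (.e (nat_lit 90134) (nat_lit 9) (.e (nat_lit 3002) (nat_lit 186) (.e (nat_lit 450304) (nat_lit 0) (.e (nat_lit 1849) (nat_lit 124) (.e (nat_lit 557104) (nat_lit 14) (.e (nat_lit 188160) (nat_lit 32) .nil))))))) (.g (nat_lit 6) .nil .nil)))))))) 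
(.nd (nat_lit 1) (.nd (nat_lit 2) (.nd (nat_lit 3) (.nd (nat_lit 4) (.nd (nat_lit 5) 
(.lf (nat_lit 42369) (.g (nat_lit 1757) (.e (nat_lit 1239) (nat_lit 91) (.e (nat_lit 98048) (nat_lit 5) (.e (nat_lit 73748) (nat_lit 3) (.e (nat_lit 516131) (nat_lit 3) (.e (nat_lit 221212) (nat_lit 22) (.e (nat_lit 196651) (nat_lit 10) (.e (nat_lit 8259) (nat_lit 45) (.e (nat_lit 778246) (nat_lit 0) .nil)))))))) (.g (nat_lit 5) .nil .nil))) 
(.lf (nat_lit 42401) (.g (nat_lit 1939) (.e (nat_lit 1239) (nat_lit 91) (.e (nat_lit 98048) (nat_lit 6) (.e (nat_lit 81954) (nat_lit 23) (.e (nat_lit 98359) (nat_lit 26) (.e (nat_lit 426043) (nat_lit 0) (.e (nat_lit 3391) (nat_lit 210) (.e (nat_lit 639008) (nat_lit 13) .nil))))))) (.g (nat_lit 5) .nil .nil)))) (.nd (nat_lit 5) 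
(.lf (nat_lit 42385) (.g (nat_lit 2107) (.e (nat_lit 1239) (nat_lit 91) (.e (nat_lit 98048) (nat_lit 6) (.e (nat_lit 81951) (nat_lit 22) (.e (nat_lit 90170) (nat_lit 13) (.e (nat_lit 172059) (nat_lit 1) (.e (nat_lit 164298) (nat_lit 226) (.e (nat_lit 974) (nat_lit 81) .nil))))))) (.g (nat_lit 5) .nil .nil))) 
(.lf (nat_lit 42417) (.g (nat_lit 2597) (.e (nat_lit 1239) (nat_lit 91) (.e (nat_lit 98048) (nat_lit 6) (.e (nat_lit 81956) (nat_lit 23) (.e (nat_lit 98384) (nat_lit 32) (.e (nat_lit 475193) (nat_lit 38) (.e (nat_lit 688145) (nat_lit 13) .nil)))))) (.g (nat_lit 5) .nil .nil))))) (.nd (nat_lit 4) (.nd (nat_lit 5) 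
(.lf (nat_lit 42377) (.g (nat_lit 4254) (.e (nat_lit 1239) (nat_lit 91) (.e (nat_lit 98048) (nat_lit 5) (.e (nat_lit 73754) (nat_lit 8) (.e (nat_lit 557105) (nat_lit 14) (.e (nat_lit 180252) (nat_lit 10) (.e (nat_lit 573468) (nat_lit 10) (.e (nat_lit 8259) (nat_lit 45) (.e (nat_lit 778246) (nat_lit 0) .nil)))))))) (.g (nat_lit 6) .nil .nil))) 
(.lf (nat_lit 42409) (.g (nat_lit 1993) (.e (nat_lit 1239) (nat_lit 91) (.e (nat_lit 98048) (nat_lit 6) (.e (nat_lit 81956) (nat_lit 23) (.e (nat_lit 98356) (nat_lit 26) (.e (nat_lit 426361) (nat_lit 15) (.e (nat_lit 2029) (nat_lit 140) (.e (nat_lit 688145) (nat_lit 13) .nil))))))) (.g (nat_lit 4) .nil .nil)))) (.nd (nat_lit 5) 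
(.lf (nat_lit 42393) (.g (nat_lit 2392) (.e (nat_lit 1239) (nat_lit 91) (.e (nat_lit 98048) (nat_lit 6) (.e (nat_lit 81954) (nat_lit 23) (.e (nat_lit 98356) (nat_lit 26) (.e (nat_lit 426361) (nat_lit 15) (.e (nat_lit 2032) (nat_lit 140) (.e (nat_lit 688149) (nat_lit 13) .nil))))))) (.g (nat_lit 5) .nil .nil))) 
(.lf (nat_lit 42425) (.g (nat_lit 2331) (.e (nat_lit 1239) (nat_lit 91) (.e (nat_lit 98048) (nat_lit 8) (.e (nat_lit 131116) (nat_lit 9) (.e (nat_lit 336012) (nat_lit 2) (.e (nat_lit 90172) (nat_lit 14) (.e (nat_lit 180260) (nat_lit 18) (.e (nat_lit 639004) (nat_lit 13) .nil))))))) (.g (nat_lit 5) .nil .nil)))))) (.nd (nat_lit 3) (.nd (nat_lit 4) (.nd (nat_lit 5) 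
(.lf (nat_lit 42373) (.g (nat_lit 2733) (.e (nat_lit 1239) (nat_lit 91) (.e (nat_lit 98048) (nat_lit 5) (.e (nat_lit 73753) (nat_lit 8) (.e (nat_lit 557103) (nat_lit 14) (.e (nat_lit 180250) (nat_lit 10) (.e (nat_lit 573478) (nat_lit 12) (.e (nat_lit 57360) (nat_lit 0) (.e (nat_lit 5818) (nat_lit 320) (.e (nat_lit 999) (nat_lit 81) .nil))))))))) (.g (nat_lit 5) .nil .nil))) 
(.lf (nat_lit 42405) (.g (nat_lit 2715) (.e (nat_lit 1239) (nat_lit 91) (.e (nat_lit 98048) (nat_lit 6) (.e (nat_lit 81955) (nat_lit 23) (.e (nat_lit 98367) (nat_lit 27) (.e (nat_lit 434268) (nat_lit 36) (.e (nat_lit 639006) (nat_lit 13) .nil)))))) (.g (nat_lit 5) .nil .nil)))) (.nd (nat_lit 5) 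
(.lf (nat_lit 42389) (.g (nat_lit 2165) (.e (nat_lit 1239) (nat_lit 91) (.e (nat_lit 98048) (nat_lit 6) (.e (nat_lit 81954) (nat_lit 23) (.e (nat_lit 98356) (nat_lit 26) (.e (nat_lit 426361) (nat_lit 15) (.e (nat_lit 2025) (nat_lit 140) (.e (nat_lit 688152) (nat_lit 13) .nil))))))) (.g (nat_lit 4) .nil .nil))) 
(.lf (nat_lit 42421) (.g (nat_lit 1912) (.e (nat_lit 1239) (nat_lit 91) (.e (nat_lit 98048) (nat_lit 8) (.e (nat_lit 131116) (nat_lit 9) (.e (nat_lit 336004) (nat_lit 2) (.e (nat_lit 90172) (nat_lit 14) (.e (nat_lit 180260) (nat_lit 18) (.e (nat_lit 639004) (nat_lit 13) .nil))))))) (.g (nat_lit 5) .nil .nil))))) (.nd (nat_lit 4) (.nd (nat_lit 5) 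
(.lf (nat_lit 42381) (.g (nat_lit 3260) (.e (nat_lit 1239) (nat_lit 91) (.e (nat_lit 98048) (nat_lit 5) (.e (nat_lit 73754) (nat_lit 8) (.e (nat_lit 557105) (nat_lit 14) (.e (nat_lit 180252) (nat_lit 10) (.e (nat_lit 573475) (nat_lit 12) (.e (nat_lit 57515) (nat_lit 42) (.e (nat_lit 671745) (nat_lit 0) .nil)))))))) (.g (nat_lit 6) .nil .nil))) 
(.lf (nat_lit 42413) (.g (nat_lit 2296) (.e (nat_lit 1239) (nat_lit 91) (.e (nat_lit 98048) (nat_lit 6) (.e (nat_lit 81956) (nat_lit 23) (.e (nat_lit 98356) (nat_lit 26) (.e (nat_lit 426361) (nat_lit 15) (.e (nat_lit 2032) (nat_lit 140) (.e (nat_lit 688151) (nat_lit 13) .nil))))))) (.g (nat_lit 4) .nil .nil)))) (.nd (nat_lit 5) 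
(.lf (nat_lit 42397) (.g (nat_lit 2053) (.e (nat_lit 1239) (nat_lit 91) (.e (nat_lit 98048) (nat_lit 6) (.e (nat_lit 81954) (nat_lit 23) (.e (nat_lit 98356) (nat_lit 26) (.e (nat_lit 426422) (nat_lit 16) (.e (nat_lit 57726) (nat_lit 181) (.e (nat_lit 994) (nat_lit 81) .nil))))))) (.g (nat_lit 4) .nil .nil))) 
(.lf (nat_lit 42429) (.g (nat_lit 536) (.e (nat_lit 1239) (nat_lit 91) (.e (nat_lit 90134) (nat_lit 9) (.e (nat_lit 249) (nat_lit 21) .nil))) .nil)))))) (.nd (nat_lit 2) (.nd (nat_lit 3) (.nd (nat_lit 4) (.nd (nat_lit 5) 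
(.lf (nat_lit 42371) (.g (nat_lit 2319) (.e (nat_lit 1239) (nat_lit 91) (.e (nat_lit 98048) (nat_lit 5) (.e (nat_lit 73753) (nat_lit 8) (.e (nat_lit 557103) (nat_lit 14) (.e (nat_lit 180244) (nat_lit 5) (.e (nat_lit 532519) (nat_lit 5) (.e (nat_lit 155392) (nat_lit 0) .nil))))))) (.g (nat_lit 6) .nil .nil))) 
(.lf (nat_lit 42403) (.g (nat_lit 2779) (.e (nat_lit 1239) (nat_lit 91) (.e (nat_lit 98048) (nat_lit 6) (.e (nat_lit 81955) (nat_lit 23) (.e (nat_lit 98367) (nat_lit 27) (.e (nat_lit 434268) (nat_lit 36) (.e (nat_lit 639004) (nat_lit 13) .nil)))))) (.g (nat_lit 5) .nil .nil)))) (.nd (nat_lit 5) 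
(.lf (nat_lit 42387) (.g (nat_lit 2072) (.e (nat_lit 1239) (nat_lit 91) (.e (nat_lit 98048) (nat_lit 6) (.e (nat_lit 81953) (nat_lit 22) (.e (nat_lit 90170) (nat_lit 13) (.e (nat_lit 172049) (nat_lit 0) (.e (nat_lit 3391) (nat_lit 210) (.e (nat_lit 639008) (nat_lit 13) .nil))))))) (.g (nat_lit 5) .nil .nil))) 
(.lf (nat_lit 42419) (.g (nat_lit 2670) (.e (nat_lit 1239) (nat_lit 91) (.e (nat_lit 98048) (nat_lit 8) (.e (nat_lit 131116) (nat_lit 9) (.e (nat_lit 336004) (nat_lit 2) (.e (nat_lit 90172) (nat_lit 14) (.e (nat_lit 180229) (nat_lit 0) (.e (nat_lit 5045) (nat_lit 292) (.e (nat_lit 999) (nat_lit 81) .nil)))))))) (.g (nat_lit 6) .nil .nil))))) (.nd (nat_lit 4) (.nd (nat_lit 5) 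
(.lf (nat_lit 42379) (.g (nat_lit 4520) (.e (nat_lit 1239) (nat_lit 91) (.e (nat_lit 98048) (nat_lit 5) (.e (nat_lit 73754) (nat_lit 8) (.e (nat_lit 557105) (nat_lit 14) (.e (nat_lit 180252) (nat_lit 10) (.e (nat_lit 573474) (nat_lit 12) (.e (nat_lit 57516) (nat_lit 42) (.e (nat_lit 671745) (nat_lit 0) .nil)))))))) (.g (nat_lit 7) .nil .nil))) 
(.lf (nat_lit 42411) (.g (nat_lit 2496) (.e (nat_lit 1239) (nat_lit 91) (.e (nat_lit 98048) (nat_lit 6) (.e (nat_lit 81956) (nat_lit 23) (.e (nat_lit 98356) (nat_lit 26) (.e (nat_lit 426361) (nat_lit 15) (.e (nat_lit 2032) (nat_lit 140) (.e (nat_lit 688145) (nat_lit 13) .nil))))))) (.g (nat_lit 6) .nil .nil)))) (.nd (nat_lit 5) 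
(.lf (nat_lit 42395) (.g (nat_lit 2010) (.e (nat_lit 1239) (nat_lit 91) (.e (nat_lit 98048) (nat_lit 6) (.e (nat_lit 81954) (nat_lit 23) (.e (nat_lit 98356) (nat_lit 26) (.e (nat_lit 426422) (nat_lit 16) (.e (nat_lit 57726) (nat_lit 181) (.e (nat_lit 982) (nat_lit 81) .nil))))))) (.g (nat_lit 4) .nil .nil))) 
(.lf (nat_lit 42427) (.g (nat_lit 1285) (.e (nat_lit 1239) (nat_lit 91) (.e (nat_lit 90128) (nat_lit 9) (.e (nat_lit 334) (nat_lit 26) (.e (nat_lit 376867) (nat_lit 23) .nil)))) .nil))))) (.nd (nat_lit 3) (.nd (nat_lit 4) (.nd (nat_lit 5) 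
(.lf (nat_lit 42375) (.g (nat_lit 3342) (.e (nat_lit 1239) (nat_lit 91) (.e (nat_lit 98048) (nat_lit 5) (.e (nat_lit 73753) (nat_lit 8) (.e (nat_lit 557105) (nat_lit 14) (.e (nat_lit 180252) (nat_lit 10) (.e (nat_lit 573475) (nat_lit 12) (.e (nat_lit 57360) (nat_lit 0) (.e (nat_lit 5818) (nat_lit 320) (.e (nat_lit 999) (nat_lit 81) .nil))))))))) (.g (nat_lit 6) .nil .nil))) 
(.lf (nat_lit 42407) (.g (nat_lit 2364) (.e (nat_lit 1239) (nat_lit 91) (.e (nat_lit 98048) (nat_lit 6) (.e (nat_lit 81956) (nat_lit 23) (.e (nat_lit 98356) (nat_lit 26) (.e (nat_lit 426361) (nat_lit 15) (.e (nat_lit 2026) (nat_lit 140) (.e (nat_lit 688145) (nat_lit 13) .nil))))))) (.g (nat_lit 5) .nil .nil)))) (.nd (nat_lit 5) 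
(.lf (nat_lit 42391) (.g (nat_lit 2185) (.e (nat_lit 1239) (nat_lit 91) (.e (nat_lit 98048) (nat_lit 6) (.e (nat_lit 81954) (nat_lit 23) (.e (nat_lit 98356) (nat_lit 26) (.e (nat_lit 426361) (nat_lit 15) (.e (nat_lit 2029) (nat_lit 140) (.e (nat_lit 688145) (nat_lit 13) .nil))))))) (.g (nat_lit 5) .nil .nil))) 
(.lf (nat_lit 42423) (.g (nat_lit 2878) (.e (nat_lit 1239) (nat_lit 91) (.e (nat_lit 98048) (nat_lit 8) (.e (nat_lit 131116) (nat_lit 9) (.e (nat_lit 336012) (nat_lit 2) (.e (nat_lit 90172) (nat_lit 14) (.e (nat_lit 180229) (nat_lit 0) (.e (nat_lit 5045) (nat_lit 292) (.e (nat_lit 999) (nat_lit 81) .nil)))))))) (.g (nat_lit 6) .nil .nil))))) (.nd (nat_lit 4) (.nd (nat_lit 5) 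
(.lf (nat_lit 42383) (.g (nat_lit 3708) (.e (nat_lit 1239) (nat_lit 91) (.e (nat_lit 98048) (nat_lit 5) (.e (nat_lit 73755) (nat_lit 8) (.e (nat_lit 557105) (nat_lit 14) (.e (nat_lit 180252) (nat_lit 10) (.e (nat_lit 573474) (nat_lit 12) (.e (nat_lit 57360) (nat_lit 0) (.e (nat_lit 5818) (nat_lit 320) (.e (nat_lit 999) (nat_lit 81) .nil))))))))) (.g (nat_lit 6) .nil .nil))) 
(.lf (nat_lit 42415) (.g (nat_lit 2253) (.e (nat_lit 1239) (nat_lit 91) (.e (nat_lit 98048) (nat_lit 6) (.e (nat_lit 81956) (nat_lit 23) (.e (nat_lit 98356) (nat_lit 26) (.e (nat_lit 426422) (nat_lit 16) (.e (nat_lit 57726) (nat_lit 181) (.e (nat_lit 1012) (nat_lit 81) .nil))))))) (.g (nat_lit 4) .nil .nil)))) (.nd (nat_lit 5) 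
(.lf (nat_lit 42399) (.g (nat_lit 2217) (.e (nat_lit 1239) (nat_lit 91) (.e (nat_lit 98048) (nat_lit 6) (.e (nat_lit 81954) (nat_lit 23) (.e (nat_lit 98356) (nat_lit 26) (.e (nat_lit 426422) (nat_lit 16) (.e (nat_lit 57726) (nat_lit 181) (.e (nat_lit 1013) (nat_lit 81) .nil))))))) (.g (nat_lit 4) .nil .nil))) 
(.lf (nat_lit 42431) (.g (nat_lit 2503) (.e (nat_lit 1239) (nat_lit 91) (.e (nat_lit 90158) (nat_lit 11) (.e (nat_lit 24625) (nat_lit 9) (.e (nat_lit 336456) (nat_lit 34) (.e (nat_lit 483364) (nat_lit 18) .nil))))) .nil))))))))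

noncomputable def tv590 : DT := (.nd (nat_lit 0) (.nd (nat_lit 1) (.nd (nat_lit 2) (.nd (nat_lit 3) (.nd (nat_lit 4) (.nd (nat_lit 5) 
(.lf (nat_lit 42432) (.g (nat_lit 3286) (.e (nat_lit 1239) (nat_lit 91) (.e (nat_lit 90159) (nat_lit 11) (.e (nat_lit 24657) (nat_lit 13) (.e (nat_lit 393229) (nat_lit 9) (.e (nat_lit 335996) (nat_lit 1) (.e (nat_lit 57830) (nat_lit 250) (.e (nat_lit 999) (nat_lit 81) .nil))))))) (.g (nat_lit 5) .nil .nil))) 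
(.lf (nat_lit 42464) (.g (nat_lit 3088) (.e (nat_lit 1239) (nat_lit 91) (.e (nat_lit 90170) (nat_lit 13) (.e (nat_lit 172065) (nat_lit 3) (.e (nat_lit 204830) (nat_lit 18) (.e (nat_lit 57691) (nat_lit 156) (.e (nat_lit 163870) (nat_lit 2) (.e (nat_lit 196661) (nat_lit 12) (.e (nat_lit 57532) (nat_lit 46) (.e (nat_lit 704612) (nat_lit 9) .nil))))))))) (.g (nat_lit 5) .nil .nil)))) (.nd (nat_lit 5) 
(.lf (nat_lit 42448) (.g (nat_lit 2817) (.e (nat_lit 1239) (nat_lit 91) (.e (nat_lit 90167) (nat_lit 13) (.e (nat_lit 172126) (nat_lit 14) (.e (nat_lit 491537) (nat_lit 2) (.e (nat_lit 90133) (nat_lit 9) (.e (nat_lit 2936) (nat_lit 184) (.e (nat_lit 425987) (nat_lit 0) (.e (nat_lit 7489) (nat_lit 402) .nil)))))))) (.g (nat_lit 5) .nil .nil))) 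
(.lf (nat_lit 42480) (.g (nat_lit 3165) (.e (nat_lit 1239) (nat_lit 91) (.e (nat_lit 90170) (nat_lit 13) (.e (nat_lit 172065) (nat_lit 3) (.e (nat_lit 204838) (nat_lit 20) (.e (nat_lit 114719) (nat_lit 23) (.e (nat_lit 98334) (nat_lit 18) (.e (nat_lit 164383) (nat_lit 254) (.e (nat_lit 999) (nat_lit 81) .nil)))))))) (.g (nat_lit 5) .nil .nil))))) (.nd (nat_lit 4) (.nd (nat_lit 5) 
(.lf (nat_lit 42440) (.g (nat_lit 892) (.e (nat_lit 1239) (nat_lit 91) (.e (nat_lit 90160) (nat_lit 11) (.e (nat_lit 24644) (nat_lit 11) .nil))) .nil)) 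
(.lf (nat_lit 42472) (.g (nat_lit 2692) (.e (nat_lit 1239) (nat_lit 91) (.e (nat_lit 90170) (nat_lit 13) (.e (nat_lit 172065) (nat_lit 3) (.e (nat_lit 204837) (nat_lit 20) (.e (nat_lit 114718) (nat_lit 23) (.e (nat_lit 98334) (nat_lit 18) (.e (nat_lit 164380) (nat_lit 254) (.e (nat_lit 999) (nat_lit 81) .nil)))))))) (.g (nat_lit 4) .nil .nil)))) (.nd (nat_lit 5) 
(.lf (nat_lit 42456) (.g (nat_lit 2983) (.e (nat_lit 1239) (nat_lit 91) (.e (nat_lit 90170) (nat_lit 13) (.e (nat_lit 172065) (nat_lit 3) (.e (nat_lit 204821) (nat_lit 17) (.e (nat_lit 2346) (nat_lit 151) (.e (nat_lit 778482) (nat_lit 12) (.e (nat_lit 163978) (nat_lit 30) (.e (nat_lit 573478) (nat_lit 12) (.e (nat_lit 57530) (nat_lit 46) (.e (nat_lit 704612) (nat_lit 9) .nil)))))))))) (.g (nat_lit 4) .nil .nil))) 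
(.lf (nat_lit 42488) (.g (nat_lit 3430) (.e (nat_lit 1239) (nat_lit 91) (.e (nat_lit 90170) (nat_lit 13) (.e (nat_lit 172085) (nat_lit 9) (.e (nat_lit 426140) (nat_lit 3) (.e (nat_lit 204846) (nat_lit 24) (.e (nat_lit 319504) (nat_lit 10) (.e (nat_lit 7936) (nat_lit 298) .nil))))))) (.g (nat_lit 5) .nil .nil)))))) (.nd (nat_lit 3) (.nd (nat_lit 4) (.nd (nat_lit 5) 
(.lf (nat_lit 42436) (.g (nat_lit 2717) (.e (nat_lit 1239) (nat_lit 91) (.e (nat_lit 90160) (nat_lit 11) (.e (nat_lit 24628) (nat_lit 9) (.e (nat_lit 336019) (nat_lit 3) (.e (nat_lit 98384) (nat_lit 32) (.e (nat_lit 475201) (nat_lit 40) (.e (nat_lit 704637) (nat_lit 9) .nil))))))) (.g (nat_lit 4) .nil .nil))) 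
(.lf (nat_lit 42468) (.g (nat_lit 3597) (.e (nat_lit 1239) (nat_lit 91) (.e (nat_lit 90170) (nat_lit 13) (.e (nat_lit 172065) (nat_lit 3) (.e (nat_lit 204830) (nat_lit 18) (.e (nat_lit 57692) (nat_lit 156) (.e (nat_lit 163869) (nat_lit 2) (.e (nat_lit 196661) (nat_lit 12) (.e (nat_lit 57532) (nat_lit 46) (.e (nat_lit 704612) (nat_lit 9) .nil))))))))) (.g (nat_lit 5) .nil .nil)))) (.nd (nat_lit 5) 
(.lf (nat_lit 42452) (.g (nat_lit 2513) (.e (nat_lit 1239) (nat_lit 91) (.e (nat_lit 90167) (nat_lit 13) (.e (nat_lit 172126) (nat_lit 14) (.e (nat_lit 491540) (nat_lit 3) (.e (nat_lit 98367) (nat_lit 27) (.e (nat_lit 442112) (nat_lit 0) .nil)))))) (.g (nat_lit 5) .nil .nil))) 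
(.lf (nat_lit 42484) (.g (nat_lit 3180) (.e (nat_lit 1239) (nat_lit 91) (.e (nat_lit 90170) (nat_lit 13) (.e (nat_lit 172067) (nat_lit 3) (.e (nat_lit 204838) (nat_lit 20) (.e (nat_lit 114718) (nat_lit 23) (.e (nat_lit 98334) (nat_lit 18) (.e (nat_lit 164380) (nat_lit 254) (.e (nat_lit 999) (nat_lit 81) .nil)))))))) (.g (nat_lit 4) .nil .nil))))) (.nd (nat_lit 4) (.nd (nat_lit 5) 
(.lf (nat_lit 42444) (.g (nat_lit 4021) (.e (nat_lit 1239) (nat_lit 91) (.e (nat_lit 90160) (nat_lit 11) (.e (nat_lit 24657) (nat_lit 13) (.e (nat_lit 393229) (nat_lit 9) (.e (nat_lit 335996) (nat_lit 1) (.e (nat_lit 57830) (nat_lit 250) (.e (nat_lit 999) (nat_lit 81) .nil))))))) (.g (nat_lit 5) .nil .nil))) 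
(.lf (nat_lit 42476) (.g (nat_lit 3679) (.e (nat_lit 1239) (nat_lit 91) (.e (nat_lit 90170) (nat_lit 13) (.e (nat_lit 172065) (nat_lit 3) (.e (nat_lit 204838) (nat_lit 20) (.e (nat_lit 114718) (nat_lit 23) (.e (nat_lit 98334) (nat_lit 18) (.e (nat_lit 164380) (nat_lit 254) (.e (nat_lit 999) (nat_lit 81) .nil)))))))) (.g (nat_lit 5) .nil .nil)))) (.nd (nat_lit 5) 
(.lf (nat_lit 42460) (.g (nat_lit 3711) (.e (nat_lit 1239) (nat_lit 91) (.e (nat_lit 90170) (nat_lit 13) (.e (nat_lit 172065) (nat_lit 3) (.e (nat_lit 204829) (nat_lit 18) (.e (nat_lit 57692) (nat_lit 156) (.e (nat_lit 163869) (nat_lit 2) (.e (nat_lit 196661) (nat_lit 12) (.e (nat_lit 57532) (nat_lit 46) (.e (nat_lit 704612) (nat_lit 9) .nil))))))))) (.g (nat_lit 5) .nil .nil))) 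
(.lf (nat_lit 42492) (.g (nat_lit 2759) (.e (nat_lit 1239) (nat_lit 91) (.e (nat_lit 90170) (nat_lit 13) (.e (nat_lit 172088) (nat_lit 9) (.e (nat_lit 426135) (nat_lit 3) (.e (nat_lit 204846) (nat_lit 24) (.e (nat_lit 319504) (nat_lit 10) (.e (nat_lit 7936) (nat_lit 298) .nil))))))) (.g (nat_lit 4) .nil .nil))))))) (.nd (nat_lit 2) (.nd (nat_lit 3) (.nd (nat_lit 4) (.nd (nat_lit 5) 
(.lf (nat_lit 42434) (.g (nat_lit 2862) (.e (nat_lit 1239) (nat_lit 91) (.e (nat_lit 90160) (nat_lit 11) (.e (nat_lit 24628) (nat_lit 9) (.e (nat_lit 336019) (nat_lit 3) (.e (nat_lit 98384) (nat_lit 32) (.e (nat_lit 475195) (nat_lit 40) (.e (nat_lit 704637) (nat_lit 9) .nil))))))) (.g (nat_lit 4) .nil .nil))) 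
(.lf (nat_lit 42466) (.g (nat_lit 2589) (.e (nat_lit 1239) (nat_lit 91) (.e (nat_lit 90170) (nat_lit 13) (.e (nat_lit 172065) (nat_lit 3) (.e (nat_lit 204830) (nat_lit 18) (.e (nat_lit 57692) (nat_lit 156) (.e (nat_lit 163869) (nat_lit 2) (.e (nat_lit 196658) (nat_lit 12) (.e (nat_lit 57528) (nat_lit 46) (.e (nat_lit 704612) (nat_lit 9) .nil))))))))) (.g (nat_lit 4) .nil .nil)))) (.nd (nat_lit 5) 
(.lf (nat_lit 42450) (.g (nat_lit 3202) (.e (nat_lit 1239) (nat_lit 91) (.e (nat_lit 90167) (nat_lit 13) (.e (nat_lit 172126) (nat_lit 14) (.e (nat_lit 491537) (nat_lit 2) (.e (nat_lit 90172) (nat_lit 14) (.e (nat_lit 188160) (nat_lit 32) .nil)))))) (.g (nat_lit 5) .nil .nil))) 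
(.lf (nat_lit 42482) (.g (nat_lit 1824) (.e (nat_lit 1239) (nat_lit 91) (.e (nat_lit 90170) (nat_lit 13) (.e (nat_lit 172067) (nat_lit 3) (.e (nat_lit 204837) (nat_lit 20) .nil)))) .nil)))) (.nd (nat_lit 4) (.nd (nat_lit 5) 
(.lf (nat_lit 42442) (.g (nat_lit 2721) (.e (nat_lit 1239) (nat_lit 91) (.e (nat_lit 90160) (nat_lit 11) (.e (nat_lit 24644) (nat_lit 11) (.e (nat_lit 368676) (nat_lit 21) (.e (nat_lit 516179) (nat_lit 15) (.e (nat_lit 475197) (nat_lit 40) (.e (nat_lit 704612) (nat_lit 9) .nil))))))) (.g (nat_lit 4) .nil .nil))) 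
(.lf (nat_lit 42474) (.g (nat_lit 2552) (.e (nat_lit 1239) (nat_lit 91) (.e (nat_lit 90170) (nat_lit 13) (.e (nat_lit 172065) (nat_lit 3) (.e (nat_lit 204838) (nat_lit 20) (.e (nat_lit 114715) (nat_lit 22) (.e (nat_lit 90165) (nat_lit 12) (.e (nat_lit 163857) (nat_lit 0) (.e (nat_lit 5818) (nat_lit 320) (.e (nat_lit 999) (nat_lit 81) .nil))))))))) (.g (nat_lit 4) .nil .nil)))) (.nd (nat_lit 5) 
(.lf (nat_lit 42458) (.g (nat_lit 2703) (.e (nat_lit 1239) (nat_lit 91) (.e (nat_lit 90170) (nat_lit 13) (.e (nat_lit 172065) (nat_lit 3) (.e (nat_lit 204829) (nat_lit 18) (.e (nat_lit 57692) (nat_lit 156) (.e (nat_lit 163869) (nat_lit 2) (.e (nat_lit 196658) (nat_lit 12) (.e (nat_lit 57528) (nat_lit 46) (.e (nat_lit 704612) (nat_lit 9) .nil))))))))) (.g (nat_lit 4) .nil .nil))) 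
(.lf (nat_lit 42490) (.g (nat_lit 3218) (.e (nat_lit 1239) (nat_lit 91) (.e (nat_lit 90170) (nat_lit 13) (.e (nat_lit 172088) (nat_lit 9) (.e (nat_lit 426039) (nat_lit 0) (.e (nat_lit 3238) (nat_lit 197) (.e (nat_lit 532523) (nat_lit 7) (.e (nat_lit 319504) (nat_lit 10) (.e (nat_lit 7936) (nat_lit 298) .nil)))))))) (.g (nat_lit 5) .nil .nil)))))) (.nd (nat_lit 3) (.nd (nat_lit 4) (.nd (nat_lit 5) 
(.lf (nat_lit 42438) (.g (nat_lit 893) (.e (nat_lit 1239) (nat_lit 91) (.e (nat_lit 90160) (nat_lit 11) (.e (nat_lit 24643) (nat_lit 11) .nil))) .nil)) 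
(.lf (nat_lit 42470) (.g (nat_lit 2864) (.e (nat_lit 1239) (nat_lit 91) (.e (nat_lit 90170) (nat_lit 13) (.e (nat_lit 172065) (nat_lit 3) (.e (nat_lit 204831) (nat_lit 18) (.e (nat_lit 57692) (nat_lit 156) (.e (nat_lit 163869) (nat_lit 2) (.e (nat_lit 196658) (nat_lit 12) (.e (nat_lit 57532) (nat_lit 46) (.e (nat_lit 704612) (nat_lit 9) .nil))))))))) (.g (nat_lit 4) .nil .nil)))) (.nd (nat_lit 5) 
(.lf (nat_lit 42454) (.g (nat_lit 713) (.e (nat_lit 1239) (nat_lit 91) (.e (nat_lit 90170) (nat_lit 13) (.e (nat_lit 172034) (nat_lit 0) .nil))) .nil)) 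
(.lf (nat_lit 42486) (.g (nat_lit 3029) (.e (nat_lit 1239) (nat_lit 91) (.e (nat_lit 90170) (nat_lit 13) (.e (nat_lit 172079) (nat_lit 7) (.e (nat_lit 409611) (nat_lit 10) (.e (nat_lit 504) (nat_lit 41) (.e (nat_lit 499923) (nat_lit 10) (.e (nat_lit 188160) (nat_lit 32) .nil))))))) (.g (nat_lit 4) .nil .nil))))) (.nd (nat_lit 4) (.nd (nat_lit 5) 
(.lf (nat_lit 42446) (.g (nat_lit 214) (.e (nat_lit 1239) (nat_lit 91) (.e (nat_lit 90165) (nat_lit 12) (.e (nat_lit 171776) (nat_lit 192) .nil))) .nil)) 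
(.lf (nat_lit 42478) (.g (nat_lit 2491) (.e (nat_lit 1239) (nat_lit 91) (.e (nat_lit 90170) (nat_lit 13) (.e (nat_lit 172065) (nat_lit 3) (.e (nat_lit 204838) (nat_lit 20) (.e (nat_lit 114719) (nat_lit 23) (.e (nat_lit 98333) (nat_lit 18) (.e (nat_lit 164381) (nat_lit 254) (.e (nat_lit 999) (nat_lit 81) .nil)))))))) (.g (nat_lit 4) .nil .nil)))) (.nd (nat_lit 5) 
(.lf (nat_lit 42462) (.g (nat_lit 2702) (.e (nat_lit 1239) (nat_lit 91) (.e (nat_lit 90170) (nat_lit 13) (.e (nat_lit 172065) (nat_lit 3) (.e (nat_lit 204830) (nat_lit 18) (.e (nat_lit 57691) (nat_lit 156) (.e (nat_lit 163869) (nat_lit 2) (.e (nat_lit 196658) (nat_lit 12) (.e (nat_lit 57532) (nat_lit 46) (.e (nat_lit 704612) (nat_lit 9) .nil))))))))) (.g (nat_lit 4) .nil .nil))) 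
(.lf (nat_lit 42494) (.g (nat_lit 1913) (.e (nat_lit 1239) (nat_lit 91) (.e (nat_lit 90170) (nat_lit 13) (.e (nat_lit 172092) (nat_lit 9) (.e (nat_lit 426003) (nat_lit 0) (.e (nat_lit 3238) (nat_lit 197) (.e (nat_lit 532523) (nat_lit 7) (.e (nat_lit 319504) (nat_lit 10) (.e (nat_lit 7936) (nat_lit 298) .nil)))))))) (.g (nat_lit 5) .nil .nil)))))))) 
(.nd (nat_lit 1) (.nd (nat_lit 2) (.nd (nat_lit 3) (.nd (nat_lit 4) (.nd (nat_lit 5) 
(.lf (nat_lit 42433) (.g (nat_lit 1581) (.e (nat_lit 1239) (nat_lit 91) (.e (nat_lit 90160) (nat_lit 11) (.e (nat_lit 24628) (nat_lit 9) (.e (nat_lit 336019) (nat_lit 3) .nil)))) .nil)) 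
(.lf (nat_lit 42465) (.g (nat_lit 2638) (.e (nat_lit 1239) (nat_lit 91) (.e (nat_lit 90170) (nat_lit 13) (.e (nat_lit 172065) (nat_lit 3) (.e (nat_lit 204830) (nat_lit 18) (.e (nat_lit 57691) (nat_lit 156) (.e (nat_lit 163871) (nat_lit 2) (.e (nat_lit 196658) (nat_lit 12) (.e (nat_lit 57532) (nat_lit 46) (.e (nat_lit 704612) (nat_lit 9) .nil))))))))) (.g (nat_lit 4) .nil .nil)))) (.nd (nat_lit 5) 
(.lf (nat_lit 42449) (.g (nat_lit 2429) (.e (nat_lit 1239) (nat_lit 91) (.e (nat_lit 90167) (nat_lit 13) (.e (nat_lit 172126) (nat_lit 14) (.e (nat_lit 491537) (nat_lit 2) (.e (nat_lit 90133) (nat_lit 9) (.e (nat_lit 3029) (nat_lit 188) (.e (nat_lit 466688) (nat_lit 0) .nil))))))) (.g (nat_lit 4) .nil .nil))) 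
(.lf (nat_lit 42481) (.g (nat_lit 3639) (.e (nat_lit 1239) (nat_lit 91) (.e (nat_lit 90170) (nat_lit 13) (.e (nat_lit 172067) (nat_lit 3) (.e (nat_lit 204834) (nat_lit 19) (.e (nat_lit 106537) (nat_lit 12) (.e (nat_lit 57480) (nat_lit 28) (.e (nat_lit 557090) (nat_lit 12) (.e (nat_lit 164038) (nat_lit 55) (.e (nat_lit 778246) (nat_lit 0) .nil))))))))) (.g (nat_lit 4) .nil .nil))))) 
(.nd (nat_lit 4) (.nd (nat_lit 5) 
(.lf (nat_lit 42441) (.g (nat_lit 1797) (.e (nat_lit 1239) (nat_lit 91) (.e (nat_lit 90160) (nat_lit 11) (.e (nat_lit 24644) (nat_lit 11) (.e (nat_lit 368676) (nat_lit 21) (.e (nat_lit 516179) (nat_lit 15) .nil))))) .nil)) 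
(.lf (nat_lit 42473) (.g (nat_lit 2547) (.e (nat_lit 1239) (nat_lit 91) (.e (nat_lit 90170) (nat_lit 13) (.e (nat_lit 172065) (nat_lit 3) (.e (nat_lit 204838) (nat_lit 20) (.e (nat_lit 114715) (nat_lit 22) (.e (nat_lit 90165) (nat_lit 12) (.e (nat_lit 163856) (nat_lit 0) (.e (nat_lit 5818) (nat_lit 320) (.e (nat_lit 999) (nat_lit 81) .nil))))))))) (.g (nat_lit 4) .nil .nil)))) (.nd (nat_lit 5) 
(.lf (nat_lit 42457) (.g (nat_lit 3003) (.e (nat_lit 1239) (nat_lit 91) (.e (nat_lit 90170) (nat_lit 13) (.e (nat_lit 172065) (nat_lit 3) (.e (nat_lit 204829) (nat_lit 18) (.e (nat_lit 57688) (nat_lit 156) (.e (nat_lit 163867) (nat_lit 2) (.e (nat_lit 196658) (nat_lit 12) (.e (nat_lit 57532) (nat_lit 46) (.e (nat_lit 704612) (nat_lit 9) .nil))))))))) (.g (nat_lit 4) .nil .nil))) 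
(.lf (nat_lit 42489) (.g (nat_lit 805) (.e (nat_lit 1239) (nat_lit 91) (.e (nat_lit 90170) (nat_lit 13) (.e (nat_lit 172088) (nat_lit 9) .nil))) .nil))))) (.nd (nat_lit 3) (.nd (nat_lit 4) (.nd (nat_lit 5) 
(.lf (nat_lit 42437) (.g (nat_lit 1543) (.e (nat_lit 1239) (nat_lit 91) (.e (nat_lit 90160) (nat_lit 11) (.e (nat_lit 24636) (nat_lit 9) (.e (nat_lit 336017) (nat_lit 3) (.e (nat_lit 98384) (nat_lit 32) .nil))))) .nil)) 
(.lf (nat_lit 42469) (.g (nat_lit 2540) (.e (nat_lit 1239) (nat_lit 91) (.e (nat_lit 90170) (nat_lit 13) (.e (nat_lit 172065) (nat_lit 3) (.e (nat_lit 204830) (nat_lit 18) (.e (nat_lit 57692) (nat_lit 156) (.e (nat_lit 163870) (nat_lit 2) (.e (nat_lit 196661) (nat_lit 12) (.e (nat_lit 57532) (nat_lit 46) (.e (nat_lit 704612) (nat_lit 9) .nil))))))))) (.g (nat_lit 4) .nil .nil)))) (.nd (nat_lit 5) 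
(.lf (nat_lit 42453) (.g (nat_lit 901) (.e (nat_lit 1239) (nat_lit 91) (.e (nat_lit 90168) (nat_lit 13) (.e (nat_lit 172126) (nat_lit 14) (.e (nat_lit 491540) (nat_lit 3) .nil)))) .nil)) 
(.lf (nat_lit 42485) (.g (nat_lit 2891) (.e (nat_lit 1239) (nat_lit 91) (.e (nat_lit 90170) (nat_lit 13) (.e (nat_lit 172079) (nat_lit 7) (.e (nat_lit 409611) (nat_lit 10) (.e (nat_lit 504) (nat_lit 41) (.e (nat_lit 499922) (nat_lit 10) (.e (nat_lit 188160) (nat_lit 32) .nil))))))) (.g (nat_lit 4) .nil .nil))))) (.nd (nat_lit 4) (.nd (nat_lit 5) 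
(.lf (nat_lit 42445) (.g (nat_lit 2846) (.e (nat_lit 1239) (nat_lit 91) (.e (nat_lit 90165) (nat_lit 12) (.e (nat_lit 164208) (nat_lit 176) (.e (nat_lit 2777) (nat_lit 178) (.e (nat_lit 286735) (nat_lit 3) (.e (nat_lit 98350) (nat_lit 24) (.e (nat_lit 409616) (nat_lit 10) (.e (nat_lit 7936) (nat_lit 298) .nil)))))))) (.g (nat_lit 6) .nil .nil))) 
(.lf (nat_lit 42477) (.g (nat_lit 3517) (.e (nat_lit 1239) (nat_lit 91) (.e (nat_lit 90170) (nat_lit 13) (.e (nat_lit 172065) (nat_lit 3) (.e (nat_lit 204838) (nat_lit 20) (.e (nat_lit 114718) (nat_lit 23) (.e (nat_lit 98334) (nat_lit 18) (.e (nat_lit 164383) (nat_lit 254) (.e (nat_lit 999) (nat_lit 81) .nil)))))))) (.g (nat_lit 5) .nil .nil)))) (.nd (nat_lit 5) 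
(.lf (nat_lit 42461) (.g (nat_lit 2712) (.e (nat_lit 1239) (nat_lit 91) (.e (nat_lit 90170) (nat_lit 13) (.e (nat_lit 172065) (nat_lit 3) (.e (nat_lit 204829) (nat_lit 18) (.e (nat_lit 57692) (nat_lit 156) (.e (nat_lit 163870) (nat_lit 2) (.e (nat_lit 196661) (nat_lit 12) (.e (nat_lit 57532) (nat_lit 46) (.e (nat_lit 704612) (nat_lit 9) .nil))))))))) (.g (nat_lit 4) .nil .nil))) 
(.lf (nat_lit 42493) (.g (nat_lit 501) (.e (nat_lit 1239) (nat_lit 91) (.e (nat_lit 90170) (nat_lit 13) (.e (nat_lit 172092) (nat_lit 9) .nil))) .nil)))))) (.nd (nat_lit 2) (.nd (nat_lit 3) (.nd (nat_lit 4) (.nd (nat_lit 5) 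
(.lf (nat_lit 42435) (.g (nat_lit 3094) (.e (nat_lit 1239) (nat_lit 91) (.e (nat_lit 90160) (nat_lit 11) (.e (nat_lit 24628) (nat_lit 9) (.e (nat_lit 336019) (nat_lit 3) (.e (nat_lit 98384) (nat_lit 32) (.e (nat_lit 475199) (nat_lit 40) (.e (nat_lit 704612) (nat_lit 9) .nil))))))) (.g (nat_lit 4) .nil .nil))) 
(.lf (nat_lit 42467) (.g (nat_lit 3542) (.e (nat_lit 1239) (nat_lit 91) (.e (nat_lit 90170) (nat_lit 13) (.e (nat_lit 172065) (nat_lit 3) (.e (nat_lit 204830) (nat_lit 18) (.e (nat_lit 57692) (nat_lit 156) (.e (nat_lit 163869) (nat_lit 2) (.e (nat_lit 196658) (nat_lit 12) (.e (nat_lit 57532) (nat_lit 46) (.e (nat_lit 704612) (nat_lit 9) .nil))))))))) (.g (nat_lit 5) .nil .nil)))) (.nd (nat_lit 5) 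
(.lf (nat_lit 42451) (.g (nat_lit 3286) (.e (nat_lit 1239) (nat_lit 91) (.e (nat_lit 90167) (nat_lit 13) (.e (nat_lit 172126) (nat_lit 14) (.e (nat_lit 491537) (nat_lit 2) (.e (nat_lit 90174) (nat_lit 14) (.e (nat_lit 188160) (nat_lit 32) .nil)))))) (.g (nat_lit 5) .nil .nil))) 
(.lf (nat_lit 42483) (.g (nat_lit 1581) (.e (nat_lit 1239) (nat_lit 91) (.e (nat_lit 90170) (nat_lit 13) (.e (nat_lit 172067) (nat_lit 3) (.e (nat_lit 204838) (nat_lit 20) .nil)))) .nil)))) (.nd (nat_lit 4) (.nd (nat_lit 5) 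
(.lf (nat_lit 42443) (.g (nat_lit 2459) (.e (nat_lit 1239) (nat_lit 91) (.e (nat_lit 90160) (nat_lit 11) (.e (nat_lit 24657) (nat_lit 13) (.e (nat_lit 393229) (nat_lit 9) (.e (nat_lit 335996) (nat_lit 1) .nil))))) .nil)) 
(.lf (nat_lit 42475) (.g (nat_lit 2857) (.e (nat_lit 1239) (nat_lit 91) (.e (nat_lit 90170) (nat_lit 13) (.e (nat_lit 172065) (nat_lit 3) (.e (nat_lit 204838) (nat_lit 20) (.e (nat_lit 114718) (nat_lit 23) (.e (nat_lit 98333) (nat_lit 18) (.e (nat_lit 164381) (nat_lit 254) (.e (nat_lit 999) (nat_lit 81) .nil)))))))) (.g (nat_lit 4) .nil .nil)))) (.nd (nat_lit 5) 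
(.lf (nat_lit 42459) (.g (nat_lit 3656) (.e (nat_lit 1239) (nat_lit 91) (.e (nat_lit 90170) (nat_lit 13) (.e (nat_lit 172065) (nat_lit 3) (.e (nat_lit 204829) (nat_lit 18) (.e (nat_lit 57692) (nat_lit 156) (.e (nat_lit 163869) (nat_lit 2) (.e (nat_lit 196658) (nat_lit 12) (.e (nat_lit 57532) (nat_lit 46) (.e (nat_lit 704612) (nat_lit 9) .nil))))))))) (.g (nat_lit 5) .nil .nil))) 
(.lf (nat_lit 42491) (.g (nat_lit 2855) (.e (nat_lit 1239) (nat_lit 91) (.e (nat_lit 90170) (nat_lit 13) (.e (nat_lit 172088) (nat_lit 9) (.e (nat_lit 426132) (nat_lit 3) (.e (nat_lit 204846) (nat_lit 24) (.e (nat_lit 319504) (nat_lit 10) (.e (nat_lit 7936) (nat_lit 298) .nil))))))) (.g (nat_lit 4) .nil .nil)))))) (.nd (nat_lit 3) (.nd (nat_lit 4) (.nd (nat_lit 5) 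
(.lf (nat_lit 42439) (.g (nat_lit 2582) (.e (nat_lit 1239) (nat_lit 91) (.e (nat_lit 90160) (nat_lit 11) (.e (nat_lit 24643) (nat_lit 11) (.e (nat_lit 368676) (nat_lit 21) (.e (nat_lit 516179) (nat_lit 15) (.e (nat_lit 475197) (nat_lit 40) (.e (nat_lit 704612) (nat_lit 9) .nil))))))) (.g (nat_lit 4) .nil .nil))) 
(.lf (nat_lit 42471) (.g (nat_lit 2920) (.e (nat_lit 1239) (nat_lit 91) (.e (nat_lit 90170) (nat_lit 13) (.e (nat_lit 172065) (nat_lit 3) (.e (nat_lit 204831) (nat_lit 18) (.e (nat_lit 57692) (nat_lit 156) (.e (nat_lit 163869) (nat_lit 2) (.e (nat_lit 196661) (nat_lit 12) (.e (nat_lit 57532) (nat_lit 46) (.e (nat_lit 704612) (nat_lit 9) .nil))))))))) (.g (nat_lit 4) .nil .nil)))) (.nd (nat_lit 5) 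
(.lf (nat_lit 42455) (.g (nat_lit 712) (.e (nat_lit 1239) (nat_lit 91) (.e (nat_lit 90170) (nat_lit 13) (.e (nat_lit 172037) (nat_lit 0) .nil))) .nil)) 
(.lf (nat_lit 42487) (.g (nat_lit 1122) (.e (nat_lit 1239) (nat_lit 91) (.e (nat_lit 90170) (nat_lit 13) (.e (nat_lit 172079) (nat_lit 7) (.e (nat_lit 409631) (nat_lit 12) .nil)))) .nil)))) (.nd (nat_lit 4) (.nd (nat_lit 5) 
(.lf (nat_lit 42447) (.g (nat_lit 2808) (.e (nat_lit 1239) (nat_lit 91) (.e (nat_lit 90167) (nat_lit 13) (.e (nat_lit 172126) (nat_lit 14) (.e (nat_lit 491537) (nat_lit 2) (.e (nat_lit 90133) (nat_lit 9) (.e (nat_lit 2936) (nat_lit 184) (.e (nat_lit 425984) (nat_lit 0) (.e (nat_lit 7489) (nat_lit 402) .nil)))))))) (.g (nat_lit 5) .nil .nil))) 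
(.lf (nat_lit 42479) (.g (nat_lit 3182) (.e (nat_lit 1239) (nat_lit 91) (.e (nat_lit 90170) (nat_lit 13) (.e (nat_lit 172065) (nat_lit 3) (.e (nat_lit 204838) (nat_lit 20) (.e (nat_lit 114719) (nat_lit 23) (.e (nat_lit 98334) (nat_lit 18) (.e (nat_lit 164380) (nat_lit 254) (.e (nat_lit 999) (nat_lit 81) .nil)))))))) (.g (nat_lit 5) .nil .nil)))) (.nd (nat_lit 5) 
(.lf (nat_lit 42463) (.g (nat_lit 3005) (.e (nat_lit 1239) (nat_lit 91) (.e (nat_lit 90170) (nat_lit 13) (.e (nat_lit 172065) (nat_lit 3) (.e (nat_lit 204830) (nat_lit 18) (.e (nat_lit 57691) (nat_lit 156) (.e (nat_lit 163869) (nat_lit 2) (.e (nat_lit 196661) (nat_lit 12) (.e (nat_lit 57532) (nat_lit 46) (.e (nat_lit 704612) (nat_lit 9) .nil))))))))) (.g (nat_lit 4) .nil .nil))) 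
(.lf (nat_lit 42495) (.g (nat_lit 2480) (.e (nat_lit 1239) (nat_lit 91) (.e (nat_lit 90170) (nat_lit 13) (.e (nat_lit 172092) (nat_lit 9) (.e (nat_lit 426039) (nat_lit 0) (.e (nat_lit 3238) (nat_lit 197) (.e (nat_lit 532523) (nat_lit 7) (.e (nat_lit 319504) (nat_lit 10) (.e (nat_lit 7936) (nat_lit 298) .nil)))))))) (.g (nat_lit 6) .nil .nil)))))))))

noncomputable def tv591 : DT := (.nd (nat_lit 0) (.nd (nat_lit 1) (.nd (nat_lit 2) (.nd (nat_lit 3) (.nd (nat_lit 4) (.nd (nat_lit 5) 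
(.lf (nat_lit 42496) (.g (nat_lit 4236) (.e (nat_lit 1239) (nat_lit 91) (.e (nat_lit 90170) (nat_lit 13) (.e (nat_lit 172094) (nat_lit 9) (.e (nat_lit 426140) (nat_lit 3) (.e (nat_lit 204846) (nat_lit 24) (.e (nat_lit 319504) (nat_lit 10) (.e (nat_lit 7936) (nat_lit 298) .nil))))))) (.g (nat_lit 5) .nil .nil))) 
(.lf (nat_lit 42528) (.g (nat_lit 3356) (.e (nat_lit 1239) (nat_lit 91) (.e (nat_lit 90170) (nat_lit 13) (.e (nat_lit 172106) (nat_lit 10) (.e (nat_lit 434231) (nat_lit 23) (.e (nat_lit 532481) (nat_lit 0) (.e (nat_lit 6192) (nat_lit 332) (.e (nat_lit 1014) (nat_lit 81) (.e (nat_lit 5271) (nat_lit 298) .nil)))))))) (.g (nat_lit 4) .nil .nil)))) (.nd (nat_lit 5) 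
(.lf (nat_lit 42512) (.g (nat_lit 3460) (.e (nat_lit 1239) (nat_lit 91) (.e (nat_lit 90170) (nat_lit 13) (.e (nat_lit 172106) (nat_lit 10) (.e (nat_lit 434227) (nat_lit 20) (.e (nat_lit 507930) (nat_lit 10) (.e (nat_lit 5762) (nat_lit 315) (.e (nat_lit 171776) (nat_lit 187) .nil))))))) (.g (nat_lit 6) .nil .nil))) 
(.lf (nat_lit 42544) (.g (nat_lit 2813) (.e (nat_lit 1239) (nat_lit 91) (.e (nat_lit 90170) (nat_lit 13) (.e (nat_lit 172106) (nat_lit 10) (.e (nat_lit 434231) (nat_lit 23) (.e (nat_lit 532482) (nat_lit 0) (.e (nat_lit 6192) (nat_lit 332) (.e (nat_lit 1015) (nat_lit 81) (.e (nat_lit 5271) (nat_lit 298) .nil)))))))) (.g (nat_lit 4) .nil .nil))))) (.nd (nat_lit 4) (.nd (nat_lit 5) 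
(.lf (nat_lit 42504) (.g (nat_lit 2010) (.e (nat_lit 1239) (nat_lit 91) (.e (nat_lit 90170) (nat_lit 13) (.e (nat_lit 172106) (nat_lit 10) (.e (nat_lit 434209) (nat_lit 18) .nil)))) .nil)) 
(.lf (nat_lit 42536) (.g (nat_lit 2435) (.e (nat_lit 1239) (nat_lit 91) (.e (nat_lit 90170) (nat_lit 13) (.e (nat_lit 172106) (nat_lit 10) (.e (nat_lit 434231) (nat_lit 23) (.e (nat_lit 532482) (nat_lit 0) (.e (nat_lit 6160) (nat_lit 332) (.e (nat_lit 1009) (nat_lit 81) (.e (nat_lit 5271) (nat_lit 298) .nil)))))))) (.g (nat_lit 4) .nil .nil)))) (.nd (nat_lit 5) 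
(.lf (nat_lit 42520) (.g (nat_lit 2466) (.e (nat_lit 1239) (nat_lit 91) (.e (nat_lit 90170) (nat_lit 13) (.e (nat_lit 172106) (nat_lit 10) (.e (nat_lit 434231) (nat_lit 23) (.e (nat_lit 532480) (nat_lit 0) (.e (nat_lit 6225) (nat_lit 334) (.e (nat_lit 123202) (nat_lit 270) .nil))))))) (.g (nat_lit 4) .nil .nil))) 
(.lf (nat_lit 42552) (.g (nat_lit 4144) (.e (nat_lit 1239) (nat_lit 91) (.e (nat_lit 90170) (nat_lit 13) (.e (nat_lit 172106) (nat_lit 10) (.e (nat_lit 434231) (nat_lit 23) (.e (nat_lit 532482) (nat_lit 0) (.e (nat_lit 6712) (nat_lit 360) (.e (nat_lit 171776) (nat_lit 187) .nil))))))) (.g (nat_lit 6) .nil .nil)))))) (.nd (nat_lit 3) (.nd (nat_lit 4) (.nd (nat_lit 5) 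
(.lf (nat_lit 42500) (.g (nat_lit 928) (.e (nat_lit 1239) (nat_lit 91) (.e (nat_lit 90170) (nat_lit 13) (.e (nat_lit 172095) (nat_lit 9) (.e (nat_lit 433920) (nat_lit 34) .nil)))) .nil)) 
(.lf (nat_lit 42532) (.g (nat_lit 4338) (.e (nat_lit 1239) (nat_lit 91) (.e (nat_lit 90170) (nat_lit 13) (.e (nat_lit 172106) (nat_lit 10) (.e (nat_lit 434231) (nat_lit 23) (.e (nat_lit 532481) (nat_lit 0) (.e (nat_lit 6714) (nat_lit 360) (.e (nat_lit 171776) (nat_lit 187) .nil))))))) (.g (nat_lit 5) .nil .nil)))) (.nd (nat_lit 5) 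
(.lf (nat_lit 42516) (.g (nat_lit 2552) (.e (nat_lit 1239) (nat_lit 91) (.e (nat_lit 90170) (nat_lit 13) (.e (nat_lit 172106) (nat_lit 10) (.e (nat_lit 434231) (nat_lit 23) (.e (nat_lit 532480) (nat_lit 0) (.e (nat_lit 6211) (nat_lit 333) (.e (nat_lit 57876) (nat_lit 270) .nil))))))) (.g (nat_lit 4) .nil .nil))) 
(.lf (nat_lit 42548) (.g (nat_lit 5131) (.e (nat_lit 1239) (nat_lit 91) (.e (nat_lit 90170) (nat_lit 13) (.e (nat_lit 172106) (nat_lit 10) (.e (nat_lit 434231) (nat_lit 23) (.e (nat_lit 532482) (nat_lit 0) (.e (nat_lit 6221) (nat_lit 333) (.e (nat_lit 57876) (nat_lit 270) .nil))))))) (.g (nat_lit 0) .nil .nil))))) (.nd (nat_lit 4) (.nd (nat_lit 5) 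
(.lf (nat_lit 42508) (.g (nat_lit 3059) (.e (nat_lit 1239) (nat_lit 91) (.e (nat_lit 90170) (nat_lit 13) (.e (nat_lit 172106) (nat_lit 10) (.e (nat_lit 434227) (nat_lit 20) (.e (nat_lit 507929) (nat_lit 10) (.e (nat_lit 5763) (nat_lit 315) (.e (nat_lit 171776) (nat_lit 187) .nil))))))) (.g (nat_lit 4) .nil .nil))) 
(.lf (nat_lit 42540) (.g (nat_lit 2648) (.e (nat_lit 1239) (nat_lit 91) (.e (nat_lit 90170) (nat_lit 13) (.e (nat_lit 172106) (nat_lit 10) (.e (nat_lit 434231) (nat_lit 23) (.e (nat_lit 532482) (nat_lit 0) (.e (nat_lit 6192) (nat_lit 332) (.e (nat_lit 992) (nat_lit 81) (.e (nat_lit 5258) (nat_lit 298) .nil)))))))) (.g (nat_lit 4) .nil .nil)))) (.nd (nat_lit 5) 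
(.lf (nat_lit 42524) (.g (nat_lit 4195) (.e (nat_lit 1239) (nat_lit 91) (.e (nat_lit 90170) (nat_lit 13) (.e (nat_lit 172106) (nat_lit 10) (.e (nat_lit 434231) (nat_lit 23) (.e (nat_lit 532481) (nat_lit 0) (.e (nat_lit 6157) (nat_lit 332) (.e (nat_lit 1011) (nat_lit 81) (.e (nat_lit 5271) (nat_lit 298) .nil)))))))) (.g (nat_lit 5) .nil .nil))) 
(.lf (nat_lit 42556) (.g (nat_lit 3646) (.e (nat_lit 1239) (nat_lit 91) (.e (nat_lit 90170) (nat_lit 13) (.e (nat_lit 172106) (nat_lit 10) (.e (nat_lit 434231) (nat_lit 23) (.e (nat_lit 532483) (nat_lit 0) (.e (nat_lit 6200) (nat_lit 332) (.e (nat_lit 1010) (nat_lit 81) (.e (nat_lit 5271) (nat_lit 298) .nil)))))))) (.g (nat_lit 4) .nil .nil))))))) 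
(.nd (nat_lit 2) (.nd (nat_lit 3) (.nd (nat_lit 4) (.nd (nat_lit 5) 
(.lf (nat_lit 42498) (.g (nat_lit 3062) (.e (nat_lit 1239) (nat_lit 91) (.e (nat_lit 90170) (nat_lit 13) (.e (nat_lit 172095) (nat_lit 9) (.e (nat_lit 433920) (nat_lit 15) (.e (nat_lit 1848) (nat_lit 124) (.e (nat_lit 557104) (nat_lit 14) (.e (nat_lit 188160) (nat_lit 32) .nil))))))) (.g (nat_lit 6) .nil .nil))) 
(.lf (nat_lit 42530) (.g (nat_lit 3397) (.e (nat_lit 1239) (nat_lit 91) (.e (nat_lit 90170) (nat_lit 13) (.e (nat_lit 172106) (nat_lit 10) (.e (nat_lit 434231) (nat_lit 23) (.e (nat_lit 532481) (nat_lit 0) (.e (nat_lit 6229) (nat_lit 334) (.e (nat_lit 123202) (nat_lit 270) .nil))))))) (.g (nat_lit 4) .nil .nil)))) (.nd (nat_lit 5) 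
(.lf (nat_lit 42514) (.g (nat_lit 928) (.e (nat_lit 1239) (nat_lit 91) (.e (nat_lit 90170) (nat_lit 13) (.e (nat_lit 172106) (nat_lit 10) (.e (nat_lit 434231) (nat_lit 23) .nil)))) .nil)) 
(.lf (nat_lit 42546) (.g (nat_lit 3050) (.e (nat_lit 1239) (nat_lit 91) (.e (nat_lit 90170) (nat_lit 13) (.e (nat_lit 172106) (nat_lit 10) (.e (nat_lit 434231) (nat_lit 23) (.e (nat_lit 532482) (nat_lit 0) (.e (nat_lit 6203) (nat_lit 332) (.e (nat_lit 1079) (nat_lit 81) (.e (nat_lit 5270) (nat_lit 298) .nil)))))))) (.g (nat_lit 4) .nil .nil))))) (.nd (nat_lit 4) (.nd (nat_lit 5) 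
(.lf (nat_lit 42506) (.g (nat_lit 3349) (.e (nat_lit 1239) (nat_lit 91) (.e (nat_lit 90170) (nat_lit 13) (.e (nat_lit 172106) (nat_lit 10) (.e (nat_lit 434227) (nat_lit 20) (.e (nat_lit 507929) (nat_lit 10) (.e (nat_lit 5758) (nat_lit 315) (.e (nat_lit 171776) (nat_lit 187) .nil))))))) (.g (nat_lit 6) .nil .nil))) 
(.lf (nat_lit 42538) (.g (nat_lit 2366) (.e (nat_lit 1239) (nat_lit 91) (.e (nat_lit 90170) (nat_lit 13) (.e (nat_lit 172106) (nat_lit 10) (.e (nat_lit 434231) (nat_lit 23) (.e (nat_lit 532482) (nat_lit 0) (.e (nat_lit 6192) (nat_lit 332) (.e (nat_lit 982) (nat_lit 81) (.e (nat_lit 5258) (nat_lit 298) .nil)))))))) (.g (nat_lit 4) .nil .nil)))) (.nd (nat_lit 5) 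
(.lf (nat_lit 42522) (.g (nat_lit 3001) (.e (nat_lit 1239) (nat_lit 91) (.e (nat_lit 90170) (nat_lit 13) (.e (nat_lit 172106) (nat_lit 10) (.e (nat_lit 434231) (nat_lit 23) (.e (nat_lit 532481) (nat_lit 0) .nil))))) .nil)) 
(.lf (nat_lit 42554) (.g (nat_lit 2710) (.e (nat_lit 1239) (nat_lit 91) (.e (nat_lit 90170) (nat_lit 13) (.e (nat_lit 172106) (nat_lit 10) (.e (nat_lit 434231) (nat_lit 23) (.e (nat_lit 532483) (nat_lit 0) .nil))))) .nil))))) (.nd (nat_lit 3) (.nd (nat_lit 4) (.nd (nat_lit 5) 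
(.lf (nat_lit 42502) (.g (nat_lit 2075) (.e (nat_lit 1239) (nat_lit 91) (.e (nat_lit 90170) (nat_lit 13) (.e (nat_lit 172106) (nat_lit 10) (.e (nat_lit 434201) (nat_lit 18) .nil)))) .nil)) 
(.lf (nat_lit 42534) (.g (nat_lit 2893) (.e (nat_lit 1239) (nat_lit 91) (.e (nat_lit 90170) (nat_lit 13) (.e (nat_lit 172106) (nat_lit 10) (.e (nat_lit 434231) (nat_lit 23) (.e (nat_lit 532482) (nat_lit 0) (.e (nat_lit 6152) (nat_lit 332) (.e (nat_lit 1071) (nat_lit 81) (.e (nat_lit 5270) (nat_lit 298) .nil)))))))) (.g (nat_lit 4) .nil .nil)))) (.nd (nat_lit 5) 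
(.lf (nat_lit 42518) (.g (nat_lit 2226) (.e (nat_lit 1239) (nat_lit 91) (.e (nat_lit 90170) (nat_lit 13) (.e (nat_lit 172106) (nat_lit 10) (.e (nat_lit 434231) (nat_lit 23) (.e (nat_lit 532480) (nat_lit 0) (.e (nat_lit 6218) (nat_lit 333) (.e (nat_lit 57876) (nat_lit 270) .nil))))))) (.g (nat_lit 4) .nil .nil))) 
(.lf (nat_lit 42550) (.g (nat_lit 3624) (.e (nat_lit 1239) (nat_lit 91) (.e (nat_lit 90170) (nat_lit 13) (.e (nat_lit 172106) (nat_lit 10) (.e (nat_lit 434231) (nat_lit 23) (.e (nat_lit 532482) (nat_lit 0) (.e (nat_lit 6222) (nat_lit 334) (.e (nat_lit 123202) (nat_lit 270) .nil))))))) (.g (nat_lit 5) .nil .nil))))) (.nd (nat_lit 4) (.nd (nat_lit 5) 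
(.lf (nat_lit 42510) (.g (nat_lit 3426) (.e (nat_lit 1239) (nat_lit 91) (.e (nat_lit 90170) (nat_lit 13) (.e (nat_lit 172106) (nat_lit 10) (.e (nat_lit 434227) (nat_lit 20) (.e (nat_lit 507930) (nat_lit 10) (.e (nat_lit 5758) (nat_lit 315) (.e (nat_lit 171776) (nat_lit 187) .nil))))))) (.g (nat_lit 6) .nil .nil))) 
(.lf (nat_lit 42542) (.g (nat_lit 2574) (.e (nat_lit 1239) (nat_lit 91) (.e (nat_lit 90170) (nat_lit 13) (.e (nat_lit 172106) (nat_lit 10) (.e (nat_lit 434231) (nat_lit 23) (.e (nat_lit 532482) (nat_lit 0) (.e (nat_lit 6192) (nat_lit 332) (.e (nat_lit 994) (nat_lit 81) (.e (nat_lit 5258) (nat_lit 298) .nil)))))))) (.g (nat_lit 4) .nil .nil)))) (.nd (nat_lit 5) 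
(.lf (nat_lit 42526) (.g (nat_lit 3544) (.e (nat_lit 1239) (nat_lit 91) (.e (nat_lit 90170) (nat_lit 13) (.e (nat_lit 172106) (nat_lit 10) (.e (nat_lit 434231) (nat_lit 23) (.e (nat_lit 532481) (nat_lit 0) (.e (nat_lit 6190) (nat_lit 332) (.e (nat_lit 1008) (nat_lit 81) (.e (nat_lit 5271) (nat_lit 298) .nil)))))))) (.g (nat_lit 4) .nil .nil))) 
(.lf (nat_lit 42558) (.g (nat_lit 3333) (.e (nat_lit 1239) (nat_lit 91) (.e (nat_lit 90170) (nat_lit 13) (.e (nat_lit 172106) (nat_lit 10) (.e (nat_lit 434231) (nat_lit 23) (.e (nat_lit 532483) (nat_lit 0) (.e (nat_lit 7936) (nat_lit 332) (.e (nat_lit 1078) (nat_lit 81) (.e (nat_lit 5270) (nat_lit 298) .nil)))))))) (.g (nat_lit 4) .nil .nil)))))))) 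
(.nd (nat_lit 1) (.nd (nat_lit 2) (.nd (nat_lit 3) (.nd (nat_lit 4) (.nd (nat_lit 5) 
(.lf (nat_lit 42497) (.g (nat_lit 3827) (.e (nat_lit 1239) (nat_lit 91) (.e (nat_lit 90170) (nat_lit 13) (.e (nat_lit 172095) (nat_lit 9) (.e (nat_lit 426140) (nat_lit 3) (.e (nat_lit 204846) (nat_lit 24) (.e (nat_lit 319504) (nat_lit 10) (.e (nat_lit 7936) (nat_lit 298) .nil))))))) (.g (nat_lit 5) .nil .nil))) 
(.lf (nat_lit 42529) (.g (nat_lit 3678) (.e (nat_lit 1239) (nat_lit 91) (.e (nat_lit 90170) (nat_lit 13) (.e (nat_lit 172106) (nat_lit 10) (.e (nat_lit 434231) (nat_lit 23) (.e (nat_lit 532481) (nat_lit 0) (.e (nat_lit 6222) (nat_lit 334) (.e (nat_lit 123202) (nat_lit 270) .nil))))))) (.g (nat_lit 4) .nil .nil)))) (.nd (nat_lit 5) 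
(.lf (nat_lit 42513) (.g (nat_lit 3050) (.e (nat_lit 1239) (nat_lit 91) (.e (nat_lit 90170) (nat_lit 13) (.e (nat_lit 172106) (nat_lit 10) (.e (nat_lit 434227) (nat_lit 20) (.e (nat_lit 507930) (nat_lit 10) (.e (nat_lit 5763) (nat_lit 315) (.e (nat_lit 171776) (nat_lit 187) .nil))))))) (.g (nat_lit 4) .nil .nil))) 
(.lf (nat_lit 42545) (.g (nat_lit 2916) (.e (nat_lit 1239) (nat_lit 91) (.e (nat_lit 90170) (nat_lit 13) (.e (nat_lit 172106) (nat_lit 10) (.e (nat_lit 434231) (nat_lit 23) (.e (nat_lit 532482) (nat_lit 0) (.e (nat_lit 6203) (nat_lit 332) (.e (nat_lit 1078) (nat_lit 81) (.e (nat_lit 5270) (nat_lit 298) .nil)))))))) (.g (nat_lit 4) .nil .nil))))) (.nd (nat_lit 4) (.nd (nat_lit 5) 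
(.lf (nat_lit 42505) (.g (nat_lit 1565) (.e (nat_lit 1239) (nat_lit 91) (.e (nat_lit 90170) (nat_lit 13) (.e (nat_lit 172106) (nat_lit 10) (.e (nat_lit 434227) (nat_lit 20) .nil)))) .nil)) 
(.lf (nat_lit 42537) (.g (nat_lit 2498) (.e (nat_lit 1239) (nat_lit 91) (.e (nat_lit 90170) (nat_lit 13) (.e (nat_lit 172106) (nat_lit 10) (.e (nat_lit 434231) (nat_lit 23) (.e (nat_lit 532482) (nat_lit 0) (.e (nat_lit 6161) (nat_lit 332) (.e (nat_lit 1009) (nat_lit 81) (.e (nat_lit 5271) (nat_lit 298) .nil)))))))) (.g (nat_lit 4) .nil .nil)))) (.nd (nat_lit 5) 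
(.lf (nat_lit 42521) (.g (nat_lit 3173) (.e (nat_lit 1239) (nat_lit 91) (.e (nat_lit 90170) (nat_lit 13) (.e (nat_lit 172106) (nat_lit 10) (.e (nat_lit 434231) (nat_lit 23) (.e (nat_lit 532480) (nat_lit 0) (.e (nat_lit 6227) (nat_lit 334) (.e (nat_lit 123202) (nat_lit 270) .nil))))))) (.g (nat_lit 4) .nil .nil))) 
(.lf (nat_lit 42553) (.g (nat_lit 3700) (.e (nat_lit 1239) (nat_lit 91) (.e (nat_lit 90170) (nat_lit 13) (.e (nat_lit 172106) (nat_lit 10) (.e (nat_lit 434231) (nat_lit 23) (.e (nat_lit 532482) (nat_lit 0) (.e (nat_lit 6714) (nat_lit 360) (.e (nat_lit 171776) (nat_lit 187) .nil))))))) (.g (nat_lit 5) .nil .nil)))))) (.nd (nat_lit 3) (.nd (nat_lit 4) (.nd (nat_lit 5) 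
(.lf (nat_lit 42501) (.g (nat_lit 3188) (.e (nat_lit 1239) (nat_lit 91) (.e (nat_lit 90170) (nat_lit 13) (.e (nat_lit 172097) (nat_lit 9) (.e (nat_lit 426140) (nat_lit 3) (.e (nat_lit 204846) (nat_lit 24) (.e (nat_lit 319504) (nat_lit 10) (.e (nat_lit 7936) (nat_lit 298) .nil))))))) (.g (nat_lit 4) .nil .nil))) 
(.lf (nat_lit 42533) (.g (nat_lit 2684) (.e (nat_lit 1239) (nat_lit 91) (.e (nat_lit 90170) (nat_lit 13) (.e (nat_lit 172106) (nat_lit 10) (.e (nat_lit 434231) (nat_lit 23) (.e (nat_lit 532482) (nat_lit 0) (.e (nat_lit 6091) (nat_lit 332) (.e (nat_lit 1020) (nat_lit 81) (.e (nat_lit 5245) (nat_lit 298) .nil)))))))) (.g (nat_lit 4) .nil .nil)))) (.nd (nat_lit 5) 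
(.lf (nat_lit 42517) (.g (nat_lit 2356) (.e (nat_lit 1239) (nat_lit 91) (.e (nat_lit 90170) (nat_lit 13) (.e (nat_lit 172106) (nat_lit 10) (.e (nat_lit 434231) (nat_lit 23) (.e (nat_lit 532480) (nat_lit 0) (.e (nat_lit 6213) (nat_lit 333) (.e (nat_lit 57876) (nat_lit 270) .nil))))))) (.g (nat_lit 4) .nil .nil))) 
(.lf (nat_lit 42549) (.g (nat_lit 2677) (.e (nat_lit 1239) (nat_lit 91) (.e (nat_lit 90170) (nat_lit 13) (.e (nat_lit 172106) (nat_lit 10) (.e (nat_lit 434231) (nat_lit 23) (.e (nat_lit 532482) (nat_lit 0) (.e (nat_lit 7936) (nat_lit 333) (.e (nat_lit 57876) (nat_lit 270) .nil))))))) (.g (nat_lit 4) .nil .nil))))) (.nd (nat_lit 4) (.nd (nat_lit 5) 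
(.lf (nat_lit 42509) (.g (nat_lit 3633) (.e (nat_lit 1239) (nat_lit 91) (.e (nat_lit 90170) (nat_lit 13) (.e (nat_lit 172106) (nat_lit 10) (.e (nat_lit 434227) (nat_lit 20) (.e (nat_lit 507930) (nat_lit 10) (.e (nat_lit 5756) (nat_lit 315) (.e (nat_lit 171776) (nat_lit 187) .nil))))))) (.g (nat_lit 6) .nil .nil))) 
(.lf (nat_lit 42541) (.g (nat_lit 2463) (.e (nat_lit 1239) (nat_lit 91) (.e (nat_lit 90170) (nat_lit 13) (.e (nat_lit 172106) (nat_lit 10) (.e (nat_lit 434231) (nat_lit 23) (.e (nat_lit 532482) (nat_lit 0) (.e (nat_lit 6192) (nat_lit 332) (.e (nat_lit 993) (nat_lit 81) (.e (nat_lit 5258) (nat_lit 298) .nil)))))))) (.g (nat_lit 4) .nil .nil)))) (.nd (nat_lit 5) 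
(.lf (nat_lit 42525) (.g (nat_lit 3396) (.e (nat_lit 1239) (nat_lit 91) (.e (nat_lit 90170) (nat_lit 13) (.e (nat_lit 172106) (nat_lit 10) (.e (nat_lit 434231) (nat_lit 23) (.e (nat_lit 532481) (nat_lit 0) (.e (nat_lit 6161) (nat_lit 332) (.e (nat_lit 1009) (nat_lit 81) (.e (nat_lit 5271) (nat_lit 298) .nil)))))))) (.g (nat_lit 4) .nil .nil))) 
(.lf (nat_lit 42557) (.g (nat_lit 3248) (.e (nat_lit 1239) (nat_lit 91) (.e (nat_lit 90170) (nat_lit 13) (.e (nat_lit 172106) (nat_lit 10) (.e (nat_lit 434231) (nat_lit 23) (.e (nat_lit 532483) (nat_lit 0) (.e (nat_lit 6200) (nat_lit 332) (.e (nat_lit 1011) (nat_lit 81) (.e (nat_lit 5271) (nat_lit 298) .nil)))))))) (.g (nat_lit 4) .nil .nil))))))) 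
(.nd (nat_lit 2) (.nd (nat_lit 3) (.nd (nat_lit 4) (.nd (nat_lit 5) 
(.lf (nat_lit 42499) (.g (nat_lit 2945) (.e (nat_lit 1239) (nat_lit 91) (.e (nat_lit 90170) (nat_lit 13) (.e (nat_lit 172095) (nat_lit 9) (.e (nat_lit 433920) (nat_lit 15) (.e (nat_lit 1849) (nat_lit 124) (.e (nat_lit 557104) (nat_lit 14) (.e (nat_lit 188160) (nat_lit 32) .nil))))))) (.g (nat_lit 6) .nil .nil))) 
(.lf (nat_lit 42531) (.g (nat_lit 5054) (.e (nat_lit 1239) (nat_lit 91) (.e (nat_lit 90170) (nat_lit 13) (.e (nat_lit 172106) (nat_lit 10) (.e (nat_lit 434231) (nat_lit 23) (.e (nat_lit 532481) (nat_lit 0) (.e (nat_lit 6712) (nat_lit 360) (.e (nat_lit 171776) (nat_lit 187) .nil))))))) (.g (nat_lit 5) .nil .nil)))) (.nd (nat_lit 5) 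
(.lf (nat_lit 42515) (.g (nat_lit 2272) (.e (nat_lit 1239) (nat_lit 91) (.e (nat_lit 90170) (nat_lit 13) (.e (nat_lit 172106) (nat_lit 10) (.e (nat_lit 434231) (nat_lit 23) (.e (nat_lit 532480) (nat_lit 0) (.e (nat_lit 6210) (nat_lit 333) (.e (nat_lit 57876) (nat_lit 270) .nil))))))) (.g (nat_lit 4) .nil .nil))) 
(.lf (nat_lit 42547) (.g (nat_lit 4617) (.e (nat_lit 1239) (nat_lit 91) (.e (nat_lit 90170) (nat_lit 13) (.e (nat_lit 172106) (nat_lit 10) (.e (nat_lit 434231) (nat_lit 23) (.e (nat_lit 532482) (nat_lit 0) (.e (nat_lit 6220) (nat_lit 333) (.e (nat_lit 57876) (nat_lit 270) .nil))))))) (.g (nat_lit 0) .nil .nil))))) (.nd (nat_lit 4) (.nd (nat_lit 5) 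
(.lf (nat_lit 42507) (.g (nat_lit 3226) (.e (nat_lit 1239) (nat_lit 91) (.e (nat_lit 90170) (nat_lit 13) (.e (nat_lit 172106) (nat_lit 10) (.e (nat_lit 434227) (nat_lit 20) (.e (nat_lit 507929) (nat_lit 10) (.e (nat_lit 5762) (nat_lit 315) (.e (nat_lit 171776) (nat_lit 187) .nil))))))) (.g (nat_lit 5) .nil .nil))) 
(.lf (nat_lit 42539) (.g (nat_lit 2754) (.e (nat_lit 1239) (nat_lit 91) (.e (nat_lit 90170) (nat_lit 13) (.e (nat_lit 172106) (nat_lit 10) (.e (nat_lit 434231) (nat_lit 23) (.e (nat_lit 532482) (nat_lit 0) (.e (nat_lit 6192) (nat_lit 332) (.e (nat_lit 982) (nat_lit 81) (.e (nat_lit 5271) (nat_lit 298) .nil)))))))) (.g (nat_lit 4) .nil .nil)))) (.nd (nat_lit 5) 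
(.lf (nat_lit 42523) (.g (nat_lit 3494) (.e (nat_lit 1239) (nat_lit 91) (.e (nat_lit 90170) (nat_lit 13) (.e (nat_lit 172106) (nat_lit 10) (.e (nat_lit 434231) (nat_lit 23) (.e (nat_lit 532481) (nat_lit 0) (.e (nat_lit 6156) (nat_lit 332) (.e (nat_lit 1079) (nat_lit 81) (.e (nat_lit 5270) (nat_lit 298) .nil)))))))) (.g (nat_lit 4) .nil .nil))) 
(.lf (nat_lit 42555) (.g (nat_lit 3149) (.e (nat_lit 1239) (nat_lit 91) (.e (nat_lit 90170) (nat_lit 13) (.e (nat_lit 172106) (nat_lit 10) (.e (nat_lit 434231) (nat_lit 23) (.e (nat_lit 532483) (nat_lit 0) (.e (nat_lit 6198) (nat_lit 332) (.e (nat_lit 1077) (nat_lit 81) (.e (nat_lit 5270) (nat_lit 298) .nil)))))))) (.g (nat_lit 4) .nil .nil)))))) (.nd (nat_lit 3) (.nd (nat_lit 4) (.nd (nat_lit 5) 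
(.lf (nat_lit 42503) (.g (nat_lit 1783) (.e (nat_lit 1239) (nat_lit 91) (.e (nat_lit 90170) (nat_lit 13) (.e (nat_lit 172106) (nat_lit 10) (.e (nat_lit 434202) (nat_lit 18) .nil)))) .nil)) 
(.lf (nat_lit 42535) (.g (nat_lit 2558) (.e (nat_lit 1239) (nat_lit 91) (.e (nat_lit 90170) (nat_lit 13) (.e (nat_lit 172106) (nat_lit 10) (.e (nat_lit 434231) (nat_lit 23) (.e (nat_lit 532482) (nat_lit 0) (.e (nat_lit 6154) (nat_lit 332) (.e (nat_lit 1078) (nat_lit 81) (.e (nat_lit 5270) (nat_lit 298) .nil)))))))) (.g (nat_lit 4) .nil .nil)))) (.nd (nat_lit 5) 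
(.lf (nat_lit 42519) (.g (nat_lit 2382) (.e (nat_lit 1239) (nat_lit 91) (.e (nat_lit 90170) (nat_lit 13) (.e (nat_lit 172106) (nat_lit 10) (.e (nat_lit 434231) (nat_lit 23) (.e (nat_lit 532480) (nat_lit 0) (.e (nat_lit 6224) (nat_lit 334) (.e (nat_lit 123202) (nat_lit 270) .nil))))))) (.g (nat_lit 4) .nil .nil))) 
(.lf (nat_lit 42551) (.g (nat_lit 3154) (.e (nat_lit 1239) (nat_lit 91) (.e (nat_lit 90170) (nat_lit 13) (.e (nat_lit 172106) (nat_lit 10) (.e (nat_lit 434231) (nat_lit 23) (.e (nat_lit 532482) (nat_lit 0) (.e (nat_lit 6229) (nat_lit 334) (.e (nat_lit 123202) (nat_lit 270) .nil))))))) (.g (nat_lit 4) .nil .nil))))) (.nd (nat_lit 4) (.nd (nat_lit 5) 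
(.lf (nat_lit 42511) (.g (nat_lit 2988) (.e (nat_lit 1239) (nat_lit 91) (.e (nat_lit 90170) (nat_lit 13) (.e (nat_lit 172106) (nat_lit 10) (.e (nat_lit 434227) (nat_lit 20) (.e (nat_lit 507930) (nat_lit 10) (.e (nat_lit 5760) (nat_lit 315) (.e (nat_lit 171776) (nat_lit 187) .nil))))))) (.g (nat_lit 4) .nil .nil))) 
(.lf (nat_lit 42543) (.g (nat_lit 2945) (.e (nat_lit 1239) (nat_lit 91) (.e (nat_lit 90170) (nat_lit 13) (.e (nat_lit 172106) (nat_lit 10) (.e (nat_lit 434231) (nat_lit 23) (.e (nat_lit 532482) (nat_lit 0) (.e (nat_lit 6192) (nat_lit 332) (.e (nat_lit 1014) (nat_lit 81) (.e (nat_lit 5271) (nat_lit 298) .nil)))))))) (.g (nat_lit 4) .nil .nil)))) (.nd (nat_lit 5) 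
(.lf (nat_lit 42527) (.g (nat_lit 4834) (.e (nat_lit 1239) (nat_lit 91) (.e (nat_lit 90170) (nat_lit 13) (.e (nat_lit 172106) (nat_lit 10) (.e (nat_lit 434231) (nat_lit 23) (.e (nat_lit 532481) (nat_lit 0) (.e (nat_lit 6192) (nat_lit 332) (.e (nat_lit 1008) (nat_lit 81) (.e (nat_lit 5271) (nat_lit 298) .nil)))))))) (.g (nat_lit 5) .nil .nil))) 
(.lf (nat_lit 42559) (.g (nat_lit 3157) (.e (nat_lit 1239) (nat_lit 91) (.e (nat_lit 90170) (nat_lit 13) (.e (nat_lit 172106) (nat_lit 10) (.e (nat_lit 434231) (nat_lit 23) (.e (nat_lit 532483) (nat_lit 0) (.e (nat_lit 7936) (nat_lit 333) (.e (nat_lit 57876) (nat_lit 270) .nil))))))) (.g (nat_lit 4) .nil .nil)))))))))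

noncomputable def tv592 : DT := (.nd (nat_lit 0) (.nd (nat_lit 1) (.nd (nat_lit 2) (.nd (nat_lit 3) (.nd (nat_lit 4) (.nd (nat_lit 5) 
(.lf (nat_lit 42560) (.g (nat_lit 3718) (.e (nat_lit 1239) (nat_lit 91) (.e (nat_lit 90170) (nat_lit 13) (.e (nat_lit 172106) (nat_lit 10) (.e (nat_lit 434231) (nat_lit 23) (.e (nat_lit 532483) (nat_lit 0) (.e (nat_lit 7936) (nat_lit 334) (.e (nat_lit 123202) (nat_lit 270) .nil))))))) (.g (nat_lit 4) .nil .nil))) 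
(.lf (nat_lit 42592) (.g (nat_lit 3528) (.e (nat_lit 1239) (nat_lit 91) (.e (nat_lit 90170) (nat_lit 13) (.e (nat_lit 172106) (nat_lit 10) (.e (nat_lit 434231) (nat_lit 23) (.e (nat_lit 532490) (nat_lit 0) (.e (nat_lit 6136) (nat_lit 332) (.e (nat_lit 988) (nat_lit 81) (.e (nat_lit 5272) (nat_lit 298) .nil)))))))) (.g (nat_lit 6) .nil .nil)))) (.nd (nat_lit 5) 
(.lf (nat_lit 42576) (.g (nat_lit 2847) (.e (nat_lit 1239) (nat_lit 91) (.e (nat_lit 90170) (nat_lit 13) (.e (nat_lit 172106) (nat_lit 10) (.e (nat_lit 434231) (nat_lit 23) (.e (nat_lit 532490) (nat_lit 0) (.e (nat_lit 6114) (nat_lit 332) (.e (nat_lit 968) (nat_lit 81) (.e (nat_lit 7936) (nat_lit 298) .nil)))))))) (.g (nat_lit 5) .nil .nil))) 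
(.lf (nat_lit 42608) (.g (nat_lit 3843) (.e (nat_lit 1239) (nat_lit 91) (.e (nat_lit 90170) (nat_lit 13) (.e (nat_lit 172106) (nat_lit 10) (.e (nat_lit 434231) (nat_lit 23) (.e (nat_lit 532490) (nat_lit 0) (.e (nat_lit 6147) (nat_lit 332) (.e (nat_lit 1008) (nat_lit 81) (.e (nat_lit 5271) (nat_lit 298) .nil)))))))) (.g (nat_lit 5) .nil .nil))))) (.nd (nat_lit 4) (.nd (nat_lit 5) 
(.lf (nat_lit 42568) (.g (nat_lit 2748) (.e (nat_lit 1239) (nat_lit 91) (.e (nat_lit 90170) (nat_lit 13) (.e (nat_lit 172106) (nat_lit 10) (.e (nat_lit 434231) (nat_lit 23) (.e (nat_lit 532486) (nat_lit 0) (.e (nat_lit 6225) (nat_lit 334) (.e (nat_lit 130816) (nat_lit 270) .nil))))))) (.g (nat_lit 4) .nil .nil))) 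
(.lf (nat_lit 42600) (.g (nat_lit 3406) (.e (nat_lit 1239) (nat_lit 91) (.e (nat_lit 90170) (nat_lit 13) (.e (nat_lit 172106) (nat_lit 10) (.e (nat_lit 434231) (nat_lit 23) (.e (nat_lit 532490) (nat_lit 0) (.e (nat_lit 6136) (nat_lit 332) (.e (nat_lit 995) (nat_lit 81) (.e (nat_lit 5255) (nat_lit 298) .nil)))))))) (.g (nat_lit 5) .nil .nil)))) (.nd (nat_lit 5) 
(.lf (nat_lit 42584) (.g (nat_lit 3920) (.e (nat_lit 1239) (nat_lit 91) (.e (nat_lit 90170) (nat_lit 13) (.e (nat_lit 172106) (nat_lit 10) (.e (nat_lit 434231) (nat_lit 23) (.e (nat_lit 532490) (nat_lit 0) (.e (nat_lit 6114) (nat_lit 332) (.e (nat_lit 1076) (nat_lit 81) (.e (nat_lit 7936) (nat_lit 298) .nil)))))))) (.g (nat_lit 6) .nil .nil))) 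
(.lf (nat_lit 42616) (.g (nat_lit 4280) (.e (nat_lit 1239) (nat_lit 91) (.e (nat_lit 90170) (nat_lit 13) (.e (nat_lit 172106) (nat_lit 10) (.e (nat_lit 434231) (nat_lit 23) (.e (nat_lit 532490) (nat_lit 0) (.e (nat_lit 6223) (nat_lit 334) (.e (nat_lit 123202) (nat_lit 270) .nil))))))) (.g (nat_lit 7) .nil .nil)))))) (.nd (nat_lit 3) (.nd (nat_lit 4) (.nd (nat_lit 5) 
(.lf (nat_lit 42564) (.g (nat_lit 3283) (.e (nat_lit 1239) (nat_lit 91) (.e (nat_lit 90170) (nat_lit 13) (.e (nat_lit 172106) (nat_lit 10) (.e (nat_lit 434231) (nat_lit 23) (.e (nat_lit 532486) (nat_lit 0) (.e (nat_lit 6210) (nat_lit 333) (.e (nat_lit 57876) (nat_lit 270) .nil))))))) (.g (nat_lit 0) .nil .nil))) 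
(.lf (nat_lit 42596) (.g (nat_lit 2819) (.e (nat_lit 1239) (nat_lit 91) (.e (nat_lit 90170) (nat_lit 13) (.e (nat_lit 172106) (nat_lit 10) (.e (nat_lit 434231) (nat_lit 23) (.e (nat_lit 532490) (nat_lit 0) (.e (nat_lit 6136) (nat_lit 332) (.e (nat_lit 992) (nat_lit 81) (.e (nat_lit 5258) (nat_lit 298) .nil)))))))) (.g (nat_lit 5) .nil .nil)))) (.nd (nat_lit 5) 
(.lf (nat_lit 42580) (.g (nat_lit 2286) (.e (nat_lit 1239) (nat_lit 91) (.e (nat_lit 90170) (nat_lit 13) (.e (nat_lit 172106) (nat_lit 10) (.e (nat_lit 434231) (nat_lit 23) (.e (nat_lit 532490) (nat_lit 0) (.e (nat_lit 6114) (nat_lit 332) (.e (nat_lit 977) (nat_lit 81) (.e (nat_lit 7936) (nat_lit 298) .nil)))))))) (.g (nat_lit 4) .nil .nil))) 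
(.lf (nat_lit 42612) (.g (nat_lit 3427) (.e (nat_lit 1239) (nat_lit 91) (.e (nat_lit 90170) (nat_lit 13) (.e (nat_lit 172106) (nat_lit 10) (.e (nat_lit 434231) (nat_lit 23) (.e (nat_lit 532490) (nat_lit 0) (.e (nat_lit 6167) (nat_lit 332) (.e (nat_lit 1010) (nat_lit 81) (.e (nat_lit 5271) (nat_lit 298) .nil)))))))) (.g (nat_lit 5) .nil .nil))))) (.nd (nat_lit 4) (.nd (nat_lit 5) 
(.lf (nat_lit 42572) (.g (nat_lit 2751) (.e (nat_lit 1239) (nat_lit 91) (.e (nat_lit 90170) (nat_lit 13) (.e (nat_lit 172106) (nat_lit 10) (.e (nat_lit 434231) (nat_lit 23) (.e (nat_lit 532490) (nat_lit 0) (.e (nat_lit 6114) (nat_lit 332) (.e (nat_lit 968) (nat_lit 81) (.e (nat_lit 5255) (nat_lit 298) .nil)))))))) (.g (nat_lit 4) .nil .nil))) 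
(.lf (nat_lit 42604) (.g (nat_lit 2446) (.e (nat_lit 1239) (nat_lit 91) (.e (nat_lit 90170) (nat_lit 13) (.e (nat_lit 172106) (nat_lit 10) (.e (nat_lit 434231) (nat_lit 23) (.e (nat_lit 532490) (nat_lit 0) (.e (nat_lit 6136) (nat_lit 332) (.e (nat_lit 1012) (nat_lit 81) (.e (nat_lit 5271) (nat_lit 298) .nil)))))))) (.g (nat_lit 4) .nil .nil)))) (.nd (nat_lit 5) 
(.lf (nat_lit 42588) (.g (nat_lit 3030) (.e (nat_lit 1239) (nat_lit 91) (.e (nat_lit 90170) (nat_lit 13) (.e (nat_lit 172106) (nat_lit 10) (.e (nat_lit 434231) (nat_lit 23) (.e (nat_lit 532490) (nat_lit 0) (.e (nat_lit 6114) (nat_lit 332) (.e (nat_lit 7936) (nat_lit 81) (.e (nat_lit 5271) (nat_lit 298) .nil)))))))) (.g (nat_lit 5) .nil .nil))) 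
(.lf (nat_lit 42620) (.g (nat_lit 2843) (.e (nat_lit 1239) (nat_lit 91) (.e (nat_lit 90170) (nat_lit 13) (.e (nat_lit 172106) (nat_lit 10) (.e (nat_lit 434231) (nat_lit 23) (.e (nat_lit 540416) (nat_lit 0) (.e (nat_lit 6207) (nat_lit 333) (.e (nat_lit 57876) (nat_lit 270) .nil))))))) (.g (nat_lit 4) .nil .nil))))))) (.nd (nat_lit 2) (.nd (nat_lit 3) (.nd (nat_lit 4) (.nd (nat_lit 5) 
(.lf (nat_lit 42562) (.g (nat_lit 2102) (.e (nat_lit 1239) (nat_lit 91) (.e (nat_lit 90170) (nat_lit 13) (.e (nat_lit 172106) (nat_lit 10) (.e (nat_lit 434231) (nat_lit 23) (.e (nat_lit 532486) (nat_lit 0) (.e (nat_lit 6113) (nat_lit 332) (.e (nat_lit 968) (nat_lit 81) (.e (nat_lit 5258) (nat_lit 298) .nil)))))))) (.g (nat_lit 4) .nil .nil))) 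
(.lf (nat_lit 42594) (.g (nat_lit 4374) (.e (nat_lit 1239) (nat_lit 91) (.e (nat_lit 90170) (nat_lit 13) (.e (nat_lit 172106) (nat_lit 10) (.e (nat_lit 434231) (nat_lit 23) (.e (nat_lit 532490) (nat_lit 0) (.e (nat_lit 6136) (nat_lit 332) (.e (nat_lit 989) (nat_lit 81) (.e (nat_lit 5306) (nat_lit 298) .nil)))))))) (.g (nat_lit 6) .nil .nil)))) (.nd (nat_lit 5) 
(.lf (nat_lit 42578) (.g (nat_lit 4260) (.e (nat_lit 1239) (nat_lit 91) (.e (nat_lit 90170) (nat_lit 13) (.e (nat_lit 172106) (nat_lit 10) (.e (nat_lit 434231) (nat_lit 23) (.e (nat_lit 532490) (nat_lit 0) (.e (nat_lit 6114) (nat_lit 332) (.e (nat_lit 972) (nat_lit 81) (.e (nat_lit 7936) (nat_lit 298) .nil)))))))) (.g (nat_lit 7) .nil .nil))) 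
(.lf (nat_lit 42610) (.g (nat_lit 2292) (.e (nat_lit 1239) (nat_lit 91) (.e (nat_lit 90170) (nat_lit 13) (.e (nat_lit 172106) (nat_lit 10) (.e (nat_lit 434231) (nat_lit 23) (.e (nat_lit 532490) (nat_lit 0) (.e (nat_lit 6149) (nat_lit 332) (.e (nat_lit 1003) (nat_lit 81) (.e (nat_lit 7936) (nat_lit 298) .nil)))))))) (.g (nat_lit 4) .nil .nil))))) (.nd (nat_lit 4) (.nd (nat_lit 5) 
(.lf (nat_lit 42570) (.g (nat_lit 2310) (.e (nat_lit 1239) (nat_lit 91) (.e (nat_lit 90170) (nat_lit 13) (.e (nat_lit 172106) (nat_lit 10) (.e (nat_lit 434231) (nat_lit 23) (.e (nat_lit 532490) (nat_lit 0) (.e (nat_lit 6092) (nat_lit 332) (.e (nat_lit 1007) (nat_lit 81) (.e (nat_lit 5271) (nat_lit 298) .nil)))))))) (.g (nat_lit 4) .nil .nil))) 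
(.lf (nat_lit 42602) (.g (nat_lit 2708) (.e (nat_lit 1239) (nat_lit 91) (.e (nat_lit 90170) (nat_lit 13) (.e (nat_lit 172106) (nat_lit 10) (.e (nat_lit 434231) (nat_lit 23) (.e (nat_lit 532490) (nat_lit 0) (.e (nat_lit 6136) (nat_lit 332) (.e (nat_lit 1003) (nat_lit 81) (.e (nat_lit 7936) (nat_lit 298) .nil)))))))) (.g (nat_lit 4) .nil .nil)))) (.nd (nat_lit 5) 
(.lf (nat_lit 42586) (.g (nat_lit 2810) (.e (nat_lit 1239) (nat_lit 91) (.e (nat_lit 90170) (nat_lit 13) (.e (nat_lit 172106) (nat_lit 10) (.e (nat_lit 434231) (nat_lit 23) (.e (nat_lit 532490) (nat_lit 0) (.e (nat_lit 6114) (nat_lit 332) (.e (nat_lit 1105) (nat_lit 81) (.e (nat_lit 7936) (nat_lit 298) .nil)))))))) (.g (nat_lit 5) .nil .nil))) 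
(.lf (nat_lit 42618) (.g (nat_lit 3809) (.e (nat_lit 1239) (nat_lit 91) (.e (nat_lit 90170) (nat_lit 13) (.e (nat_lit 172106) (nat_lit 10) (.e (nat_lit 434231) (nat_lit 23) (.e (nat_lit 532490) (nat_lit 0) (.e (nat_lit 7936) (nat_lit 334) (.e (nat_lit 123202) (nat_lit 270) .nil))))))) (.g (nat_lit 5) .nil .nil)))))) (.nd (nat_lit 3) (.nd (nat_lit 4) (.nd (nat_lit 5) 
(.lf (nat_lit 42566) (.g (nat_lit 3867) (.e (nat_lit 1239) (nat_lit 91) (.e (nat_lit 90170) (nat_lit 13) (.e (nat_lit 172106) (nat_lit 10) (.e (nat_lit 434231) (nat_lit 23) (.e (nat_lit 532486) (nat_lit 0) (.e (nat_lit 6218) (nat_lit 333) (.e (nat_lit 65280) (nat_lit 270) .nil))))))) (.g (nat_lit 6) .nil .nil))) 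
(.lf (nat_lit 42598) (.g (nat_lit 2411) (.e (nat_lit 1239) (nat_lit 91) (.e (nat_lit 90170) (nat_lit 13) (.e (nat_lit 172106) (nat_lit 10) (.e (nat_lit 434231) (nat_lit 23) (.e (nat_lit 532490) (nat_lit 0) (.e (nat_lit 6136) (nat_lit 332) (.e (nat_lit 993) (nat_lit 81) (.e (nat_lit 5271) (nat_lit 298) .nil)))))))) (.g (nat_lit 4) .nil .nil)))) (.nd (nat_lit 5) 
(.lf (nat_lit 42582) (.g (nat_lit 3246) (.e (nat_lit 1239) (nat_lit 91) (.e (nat_lit 90170) (nat_lit 13) (.e (nat_lit 172106) (nat_lit 10) (.e (nat_lit 434231) (nat_lit 23) (.e (nat_lit 532490) (nat_lit 0) (.e (nat_lit 6114) (nat_lit 332) (.e (nat_lit 1055) (nat_lit 81) (.e (nat_lit 5245) (nat_lit 298) .nil)))))))) (.g (nat_lit 5) .nil .nil))) 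
(.lf (nat_lit 42614) (.g (nat_lit 2380) (.e (nat_lit 1239) (nat_lit 91) (.e (nat_lit 90170) (nat_lit 13) (.e (nat_lit 172106) (nat_lit 10) (.e (nat_lit 434231) (nat_lit 23) (.e (nat_lit 532490) (nat_lit 0) (.e (nat_lit 7936) (nat_lit 332) (.e (nat_lit 1008) (nat_lit 81) (.e (nat_lit 5271) (nat_lit 298) .nil)))))))) (.g (nat_lit 4) .nil .nil))))) (.nd (nat_lit 4) (.nd (nat_lit 5) 
(.lf (nat_lit 42574) (.g (nat_lit 3597) (.e (nat_lit 1239) (nat_lit 91) (.e (nat_lit 90170) (nat_lit 13) (.e (nat_lit 172106) (nat_lit 10) (.e (nat_lit 434231) (nat_lit 23) (.e (nat_lit 532490) (nat_lit 0) (.e (nat_lit 6114) (nat_lit 332) (.e (nat_lit 968) (nat_lit 81) (.e (nat_lit 5271) (nat_lit 298) .nil)))))))) (.g (nat_lit 6) .nil .nil))) 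
(.lf (nat_lit 42606) (.g (nat_lit 2411) (.e (nat_lit 1239) (nat_lit 91) (.e (nat_lit 90170) (nat_lit 13) (.e (nat_lit 172106) (nat_lit 10) (.e (nat_lit 434231) (nat_lit 23) (.e (nat_lit 532490) (nat_lit 0) (.e (nat_lit 6136) (nat_lit 332) (.e (nat_lit 1015) (nat_lit 81) (.e (nat_lit 5271) (nat_lit 298) .nil)))))))) (.g (nat_lit 4) .nil .nil)))) (.nd (nat_lit 5) 
(.lf (nat_lit 42590) (.g (nat_lit 3843) (.e (nat_lit 1239) (nat_lit 91) (.e (nat_lit 90170) (nat_lit 13) (.e (nat_lit 172106) (nat_lit 10) (.e (nat_lit 434231) (nat_lit 23) (.e (nat_lit 532490) (nat_lit 0) (.e (nat_lit 6136) (nat_lit 332) (.e (nat_lit 988) (nat_lit 81) (.e (nat_lit 5255) (nat_lit 298) .nil)))))))) (.g (nat_lit 5) .nil .nil))) 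
(.lf (nat_lit 42622) (.g (nat_lit 1938) (.e (nat_lit 1239) (nat_lit 91) (.e (nat_lit 90170) (nat_lit 13) (.e (nat_lit 172106) (nat_lit 10) (.e (nat_lit 434231) (nat_lit 23) (.e (nat_lit 532522) (nat_lit 7) (.e (nat_lit 319497) (nat_lit 10) (.e (nat_lit 5245) (nat_lit 298) .nil))))))) (.g (nat_lit 4) .nil .nil)))))))) 
(.nd (nat_lit 1) (.nd (nat_lit 2) (.nd (nat_lit 3) (.nd (nat_lit 4) (.nd (nat_lit 5) 
(.lf (nat_lit 42561) (.g (nat_lit 2241) (.e (nat_lit 1239) (nat_lit 91) (.e (nat_lit 90170) (nat_lit 13) (.e (nat_lit 172106) (nat_lit 10) (.e (nat_lit 434231) (nat_lit 23) (.e (nat_lit 532486) (nat_lit 0) (.e (nat_lit 6109) (nat_lit 332) (.e (nat_lit 1016) (nat_lit 81) (.e (nat_lit 5271) (nat_lit 298) .nil)))))))) (.g (nat_lit 4) .nil .nil))) 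
(.lf (nat_lit 42593) (.g (nat_lit 2380) (.e (nat_lit 1239) (nat_lit 91) (.e (nat_lit 90170) (nat_lit 13) (.e (nat_lit 172106) (nat_lit 10) (.e (nat_lit 434231) (nat_lit 23) (.e (nat_lit 532490) (nat_lit 0) (.e (nat_lit 6136) (nat_lit 332) (.e (nat_lit 988) (nat_lit 81) (.e (nat_lit 7936) (nat_lit 298) .nil)))))))) (.g (nat_lit 4) .nil .nil)))) (.nd (nat_lit 5) 
(.lf (nat_lit 42577) (.g (nat_lit 4330) (.e (nat_lit 1239) (nat_lit 91) (.e (nat_lit 90170) (nat_lit 13) (.e (nat_lit 172106) (nat_lit 10) (.e (nat_lit 434231) (nat_lit 23) (.e (nat_lit 532490) (nat_lit 0) (.e (nat_lit 6114) (nat_lit 332) (.e (nat_lit 970) (nat_lit 81) (.e (nat_lit 7936) (nat_lit 298) .nil)))))))) (.g (nat_lit 6) .nil .nil))) 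
(.lf (nat_lit 42609) (.g (nat_lit 3406) (.e (nat_lit 1239) (nat_lit 91) (.e (nat_lit 90170) (nat_lit 13) (.e (nat_lit 172106) (nat_lit 10) (.e (nat_lit 434231) (nat_lit 23) (.e (nat_lit 532490) (nat_lit 0) (.e (nat_lit 6147) (nat_lit 332) (.e (nat_lit 1013) (nat_lit 81) (.e (nat_lit 5271) (nat_lit 298) .nil)))))))) (.g (nat_lit 5) .nil .nil))))) (.nd (nat_lit 4) (.nd (nat_lit 5) 
(.lf (nat_lit 42569) (.g (nat_lit 2928) (.e (nat_lit 1239) (nat_lit 91) (.e (nat_lit 90170) (nat_lit 13) (.e (nat_lit 172106) (nat_lit 10) (.e (nat_lit 434231) (nat_lit 23) (.e (nat_lit 532486) (nat_lit 0) (.e (nat_lit 6227) (nat_lit 334) (.e (nat_lit 123202) (nat_lit 270) .nil))))))) (.g (nat_lit 5) .nil .nil))) 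
(.lf (nat_lit 42601) (.g (nat_lit 2097) (.e (nat_lit 1239) (nat_lit 91) (.e (nat_lit 90170) (nat_lit 13) (.e (nat_lit 172106) (nat_lit 10) (.e (nat_lit 434231) (nat_lit 23) (.e (nat_lit 532490) (nat_lit 0) (.e (nat_lit 6136) (nat_lit 332) (.e (nat_lit 995) (nat_lit 81) (.e (nat_lit 5272) (nat_lit 298) .nil)))))))) (.g (nat_lit 4) .nil .nil)))) (.nd (nat_lit 5) 
(.lf (nat_lit 42585) (.g (nat_lit 3186) (.e (nat_lit 1239) (nat_lit 91) (.e (nat_lit 90170) (nat_lit 13) (.e (nat_lit 172106) (nat_lit 10) (.e (nat_lit 434231) (nat_lit 23) (.e (nat_lit 532490) (nat_lit 0) (.e (nat_lit 6114) (nat_lit 332) (.e (nat_lit 1082) (nat_lit 81) (.e (nat_lit 7936) (nat_lit 298) .nil)))))))) (.g (nat_lit 5) .nil .nil))) 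
(.lf (nat_lit 42617) (.g (nat_lit 3809) (.e (nat_lit 1239) (nat_lit 91) (.e (nat_lit 90170) (nat_lit 13) (.e (nat_lit 172106) (nat_lit 10) (.e (nat_lit 434231) (nat_lit 23) (.e (nat_lit 532490) (nat_lit 0) (.e (nat_lit 6223) (nat_lit 334) (.e (nat_lit 130816) (nat_lit 270) .nil))))))) (.g (nat_lit 5) .nil .nil)))))) (.nd (nat_lit 3) (.nd (nat_lit 4) (.nd (nat_lit 5) 
(.lf (nat_lit 42565) (.g (nat_lit 2383) (.e (nat_lit 1239) (nat_lit 91) (.e (nat_lit 90170) (nat_lit 13) (.e (nat_lit 172106) (nat_lit 10) (.e (nat_lit 434231) (nat_lit 23) (.e (nat_lit 532486) (nat_lit 0) (.e (nat_lit 6211) (nat_lit 333) (.e (nat_lit 57876) (nat_lit 270) .nil))))))) (.g (nat_lit 4) .nil .nil))) 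
(.lf (nat_lit 42597) (.g (nat_lit 2175) (.e (nat_lit 1239) (nat_lit 91) (.e (nat_lit 90170) (nat_lit 13) (.e (nat_lit 172106) (nat_lit 10) (.e (nat_lit 434231) (nat_lit 23) (.e (nat_lit 532490) (nat_lit 0) (.e (nat_lit 6136) (nat_lit 332) (.e (nat_lit 992) (nat_lit 81) (.e (nat_lit 5271) (nat_lit 298) .nil)))))))) (.g (nat_lit 4) .nil .nil)))) (.nd (nat_lit 5) 
(.lf (nat_lit 42581) (.g (nat_lit 2521) (.e (nat_lit 1239) (nat_lit 91) (.e (nat_lit 90170) (nat_lit 13) (.e (nat_lit 172106) (nat_lit 10) (.e (nat_lit 434231) (nat_lit 23) (.e (nat_lit 532490) (nat_lit 0) (.e (nat_lit 6114) (nat_lit 332) (.e (nat_lit 978) (nat_lit 81) (.e (nat_lit 5245) (nat_lit 298) .nil)))))))) (.g (nat_lit 4) .nil .nil))) 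
(.lf (nat_lit 42613) (.g (nat_lit 2292) (.e (nat_lit 1239) (nat_lit 91) (.e (nat_lit 90170) (nat_lit 13) (.e (nat_lit 172106) (nat_lit 10) (.e (nat_lit 434231) (nat_lit 23) (.e (nat_lit 532490) (nat_lit 0) (.e (nat_lit 7936) (nat_lit 332) (.e (nat_lit 1006) (nat_lit 81) (.e (nat_lit 5258) (nat_lit 298) .nil)))))))) (.g (nat_lit 4) .nil .nil))))) (.nd (nat_lit 4) (.nd (nat_lit 5) 
(.lf (nat_lit 42573) (.g (nat_lit 3555) (.e (nat_lit 1239) (nat_lit 91) (.e (nat_lit 90170) (nat_lit 13) (.e (nat_lit 172106) (nat_lit 10) (.e (nat_lit 434231) (nat_lit 23) (.e (nat_lit 532490) (nat_lit 0) (.e (nat_lit 6114) (nat_lit 332) (.e (nat_lit 968) (nat_lit 81) (.e (nat_lit 5258) (nat_lit 298) .nil)))))))) (.g (nat_lit 6) .nil .nil))) 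
(.lf (nat_lit 42605) (.g (nat_lit 2175) (.e (nat_lit 1239) (nat_lit 91) (.e (nat_lit 90170) (nat_lit 13) (.e (nat_lit 172106) (nat_lit 10) (.e (nat_lit 434231) (nat_lit 23) (.e (nat_lit 532490) (nat_lit 0) (.e (nat_lit 6136) (nat_lit 332) (.e (nat_lit 1014) (nat_lit 81) (.e (nat_lit 5271) (nat_lit 298) .nil)))))))) (.g (nat_lit 4) .nil .nil)))) (.nd (nat_lit 5) 
(.lf (nat_lit 42589) (.g (nat_lit 2288) (.e (nat_lit 1239) (nat_lit 91) (.e (nat_lit 90170) (nat_lit 13) (.e (nat_lit 172106) (nat_lit 10) (.e (nat_lit 434231) (nat_lit 23) (.e (nat_lit 532490) (nat_lit 0) (.e (nat_lit 6136) (nat_lit 332) (.e (nat_lit 982) (nat_lit 81) (.e (nat_lit 5271) (nat_lit 298) .nil)))))))) (.g (nat_lit 4) .nil .nil))) 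
(.lf (nat_lit 42621) (.g (nat_lit 3589) (.e (nat_lit 1239) (nat_lit 91) (.e (nat_lit 90170) (nat_lit 13) (.e (nat_lit 172106) (nat_lit 10) (.e (nat_lit 434231) (nat_lit 23) (.e (nat_lit 540416) (nat_lit 0) (.e (nat_lit 6209) (nat_lit 333) (.e (nat_lit 57876) (nat_lit 270) .nil))))))) (.g (nat_lit 6) .nil .nil))))))) (.nd (nat_lit 2) (.nd (nat_lit 3) (.nd (nat_lit 4) (.nd (nat_lit 5) 
(.lf (nat_lit 42563) (.g (nat_lit 2144) (.e (nat_lit 1239) (nat_lit 91) (.e (nat_lit 90170) (nat_lit 13) (.e (nat_lit 172106) (nat_lit 10) (.e (nat_lit 434231) (nat_lit 23) (.e (nat_lit 532486) (nat_lit 0) (.e (nat_lit 6113) (nat_lit 332) (.e (nat_lit 968) (nat_lit 81) (.e (nat_lit 5271) (nat_lit 298) .nil)))))))) (.g (nat_lit 4) .nil .nil))) 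
(.lf (nat_lit 42595) (.g (nat_lit 3427) (.e (nat_lit 1239) (nat_lit 91) (.e (nat_lit 90170) (nat_lit 13) (.e (nat_lit 172106) (nat_lit 10) (.e (nat_lit 434231) (nat_lit 23) (.e (nat_lit 532490) (nat_lit 0) (.e (nat_lit 6136) (nat_lit 332) (.e (nat_lit 990) (nat_lit 81) (.e (nat_lit 5306) (nat_lit 298) .nil)))))))) (.g (nat_lit 5) .nil .nil)))) (.nd (nat_lit 5) 
(.lf (nat_lit 42579) (.g (nat_lit 4427) (.e (nat_lit 1239) (nat_lit 91) (.e (nat_lit 90170) (nat_lit 13) (.e (nat_lit 172106) (nat_lit 10) (.e (nat_lit 434231) (nat_lit 23) (.e (nat_lit 532490) (nat_lit 0) (.e (nat_lit 6114) (nat_lit 332) (.e (nat_lit 973) (nat_lit 81) (.e (nat_lit 7936) (nat_lit 298) .nil)))))))) (.g (nat_lit 7) .nil .nil))) 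
(.lf (nat_lit 42611) (.g (nat_lit 2819) (.e (nat_lit 1239) (nat_lit 91) (.e (nat_lit 90170) (nat_lit 13) (.e (nat_lit 172106) (nat_lit 10) (.e (nat_lit 434231) (nat_lit 23) (.e (nat_lit 532490) (nat_lit 0) (.e (nat_lit 6149) (nat_lit 332) (.e (nat_lit 1014) (nat_lit 81) (.e (nat_lit 5271) (nat_lit 298) .nil)))))))) (.g (nat_lit 5) .nil .nil))))) (.nd (nat_lit 4) (.nd (nat_lit 5) 
(.lf (nat_lit 42571) (.g (nat_lit 2894) (.e (nat_lit 1239) (nat_lit 91) (.e (nat_lit 90170) (nat_lit 13) (.e (nat_lit 172106) (nat_lit 10) (.e (nat_lit 434231) (nat_lit 23) (.e (nat_lit 532490) (nat_lit 0) (.e (nat_lit 6092) (nat_lit 332) (.e (nat_lit 1008) (nat_lit 81) (.e (nat_lit 5271) (nat_lit 298) .nil)))))))) (.g (nat_lit 5) .nil .nil))) 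
(.lf (nat_lit 42603) (.g (nat_lit 3353) (.e (nat_lit 1239) (nat_lit 91) (.e (nat_lit 90170) (nat_lit 13) (.e (nat_lit 172106) (nat_lit 10) (.e (nat_lit 434231) (nat_lit 23) (.e (nat_lit 532490) (nat_lit 0) (.e (nat_lit 6136) (nat_lit 332) (.e (nat_lit 1008) (nat_lit 81) (.e (nat_lit 5271) (nat_lit 298) .nil)))))))) (.g (nat_lit 5) .nil .nil)))) (.nd (nat_lit 5) 
(.lf (nat_lit 42587) (.g (nat_lit 2933) (.e (nat_lit 1239) (nat_lit 91) (.e (nat_lit 90170) (nat_lit 13) (.e (nat_lit 172106) (nat_lit 10) (.e (nat_lit 434231) (nat_lit 23) (.e (nat_lit 532490) (nat_lit 0) (.e (nat_lit 6114) (nat_lit 332) (.e (nat_lit 1107) (nat_lit 81) (.e (nat_lit 5245) (nat_lit 298) .nil)))))))) (.g (nat_lit 5) .nil .nil))) 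
(.lf (nat_lit 42619) (.g (nat_lit 2822) (.e (nat_lit 1239) (nat_lit 91) (.e (nat_lit 90170) (nat_lit 13) (.e (nat_lit 172106) (nat_lit 10) (.e (nat_lit 434231) (nat_lit 23) (.e (nat_lit 532490) (nat_lit 0) (.e (nat_lit 7936) (nat_lit 360) (.e (nat_lit 171776) (nat_lit 187) .nil))))))) (.g (nat_lit 5) .nil .nil)))))) (.nd (nat_lit 3) (.nd (nat_lit 4) (.nd (nat_lit 5) 
(.lf (nat_lit 42567) (.g (nat_lit 2203) (.e (nat_lit 1239) (nat_lit 91) (.e (nat_lit 90170) (nat_lit 13) (.e (nat_lit 172106) (nat_lit 10) (.e (nat_lit 434231) (nat_lit 23) (.e (nat_lit 532486) (nat_lit 0) (.e (nat_lit 6224) (nat_lit 334) (.e (nat_lit 123202) (nat_lit 270) .nil))))))) (.g (nat_lit 4) .nil .nil))) 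
(.lf (nat_lit 42599) (.g (nat_lit 2446) (.e (nat_lit 1239) (nat_lit 91) (.e (nat_lit 90170) (nat_lit 13) (.e (nat_lit 172106) (nat_lit 10) (.e (nat_lit 434231) (nat_lit 23) (.e (nat_lit 532490) (nat_lit 0) (.e (nat_lit 6136) (nat_lit 332) (.e (nat_lit 994) (nat_lit 81) (.e (nat_lit 5271) (nat_lit 298) .nil)))))))) (.g (nat_lit 4) .nil .nil)))) (.nd (nat_lit 5) 
(.lf (nat_lit 42583) (.g (nat_lit 2327) (.e (nat_lit 1239) (nat_lit 91) (.e (nat_lit 90170) (nat_lit 13) (.e (nat_lit 172106) (nat_lit 10) (.e (nat_lit 434231) (nat_lit 23) (.e (nat_lit 532490) (nat_lit 0) (.e (nat_lit 6114) (nat_lit 332) (.e (nat_lit 1074) (nat_lit 81) (.e (nat_lit 5245) (nat_lit 298) .nil)))))))) (.g (nat_lit 4) .nil .nil))) 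
(.lf (nat_lit 42615) (.g (nat_lit 3660) (.e (nat_lit 1239) (nat_lit 91) (.e (nat_lit 90170) (nat_lit 13) (.e (nat_lit 172106) (nat_lit 10) (.e (nat_lit 434231) (nat_lit 23) (.e (nat_lit 532490) (nat_lit 0) (.e (nat_lit 6206) (nat_lit 333) (.e (nat_lit 65280) (nat_lit 270) .nil))))))) (.g (nat_lit 6) .nil .nil))))) (.nd (nat_lit 4) (.nd (nat_lit 5) 
(.lf (nat_lit 42575) (.g (nat_lit 3149) (.e (nat_lit 1239) (nat_lit 91) (.e (nat_lit 90170) (nat_lit 13) (.e (nat_lit 172106) (nat_lit 10) (.e (nat_lit 434231) (nat_lit 23) (.e (nat_lit 532490) (nat_lit 0) (.e (nat_lit 6114) (nat_lit 332) (.e (nat_lit 968) (nat_lit 81) (.e (nat_lit 5306) (nat_lit 298) .nil)))))))) (.g (nat_lit 4) .nil .nil))) 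
(.lf (nat_lit 42607) (.g (nat_lit 2310) (.e (nat_lit 1239) (nat_lit 91) (.e (nat_lit 90170) (nat_lit 13) (.e (nat_lit 172106) (nat_lit 10) (.e (nat_lit 434231) (nat_lit 23) (.e (nat_lit 532490) (nat_lit 0) (.e (nat_lit 6136) (nat_lit 332) (.e (nat_lit 1033) (nat_lit 81) (.e (nat_lit 5245) (nat_lit 298) .nil)))))))) (.g (nat_lit 4) .nil .nil)))) (.nd (nat_lit 5) 
(.lf (nat_lit 42591) (.g (nat_lit 3353) (.e (nat_lit 1239) (nat_lit 91) (.e (nat_lit 90170) (nat_lit 13) (.e (nat_lit 172106) (nat_lit 10) (.e (nat_lit 434231) (nat_lit 23) (.e (nat_lit 532490) (nat_lit 0) (.e (nat_lit 6136) (nat_lit 332) (.e (nat_lit 988) (nat_lit 81) (.e (nat_lit 5271) (nat_lit 298) .nil)))))))) (.g (nat_lit 5) .nil .nil))) 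
(.lf (nat_lit 42623) (.g (nat_lit 2900) (.e (nat_lit 1239) (nat_lit 91) (.e (nat_lit 90170) (nat_lit 13) (.e (nat_lit 172106) (nat_lit 10) (.e (nat_lit 434231) (nat_lit 23) (.e (nat_lit 532522) (nat_lit 7) (.e (nat_lit 319497) (nat_lit 10) (.e (nat_lit 5258) (nat_lit 298) .nil))))))) (.g (nat_lit 5) .nil .nil)))))))))

noncomputable def tv593 : DT := (.nd (nat_lit 0) (.nd (nat_lit 1) (.nd (nat_lit 2) (.nd (nat_lit 3) (.nd (nat_lit 4) (.nd (nat_lit 5) 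
(.lf (nat_lit 42624) (.g (nat_lit 2187) (.e (nat_lit 1239) (nat_lit 91) (.e (nat_lit 90170) (nat_lit 13) (.e (nat_lit 172106) (nat_lit 10) (.e (nat_lit 434231) (nat_lit 23) (.e (nat_lit 532522) (nat_lit 7) (.e (nat_lit 319497) (nat_lit 10) (.e (nat_lit 5271) (nat_lit 298) .nil))))))) (.g (nat_lit 4) .nil .nil))) 
(.lf (nat_lit 42656) (.g (nat_lit 3432) (.e (nat_lit 1239) (nat_lit 91) (.e (nat_lit 90170) (nat_lit 13) (.e (nat_lit 172106) (nat_lit 10) (.e (nat_lit 434231) (nat_lit 23) (.e (nat_lit 532523) (nat_lit 7) (.e (nat_lit 319497) (nat_lit 10) (.e (nat_lit 5255) (nat_lit 298) .nil))))))) (.g (nat_lit 5) .nil .nil)))) (.nd (nat_lit 5) 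
(.lf (nat_lit 42640) (.g (nat_lit 2429) (.e (nat_lit 1239) (nat_lit 91) (.e (nat_lit 90170) (nat_lit 13) (.e (nat_lit 172106) (nat_lit 10) (.e (nat_lit 434231) (nat_lit 23) (.e (nat_lit 532522) (nat_lit 7) (.e (nat_lit 319504) (nat_lit 10) (.e (nat_lit 5258) (nat_lit 298) .nil))))))) (.g (nat_lit 4) .nil .nil))) 
(.lf (nat_lit 42672) (.g (nat_lit 4529) (.e (nat_lit 1239) (nat_lit 91) (.e (nat_lit 90170) (nat_lit 13) (.e (nat_lit 172106) (nat_lit 10) (.e (nat_lit 434231) (nat_lit 23) (.e (nat_lit 532523) (nat_lit 7) (.e (nat_lit 319504) (nat_lit 10) (.e (nat_lit 5257) (nat_lit 298) .nil))))))) (.g (nat_lit 5) .nil .nil))))) (.nd (nat_lit 4) (.nd (nat_lit 5) 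
(.lf (nat_lit 42632) (.g (nat_lit 3862) (.e (nat_lit 1239) (nat_lit 91) (.e (nat_lit 90170) (nat_lit 13) (.e (nat_lit 172106) (nat_lit 10) (.e (nat_lit 434231) (nat_lit 23) (.e (nat_lit 532522) (nat_lit 7) (.e (nat_lit 319500) (nat_lit 10) (.e (nat_lit 7936) (nat_lit 298) .nil))))))) (.g (nat_lit 6) .nil .nil))) 
(.lf (nat_lit 42664) (.g (nat_lit 4170) (.e (nat_lit 1239) (nat_lit 91) (.e (nat_lit 90170) (nat_lit 13) (.e (nat_lit 172106) (nat_lit 10) (.e (nat_lit 434231) (nat_lit 23) (.e (nat_lit 532523) (nat_lit 7) (.e (nat_lit 319500) (nat_lit 10) (.e (nat_lit 5255) (nat_lit 298) .nil))))))) (.g (nat_lit 5) .nil .nil)))) (.nd (nat_lit 5) 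
(.lf (nat_lit 42648) (.g (nat_lit 3092) (.e (nat_lit 1239) (nat_lit 91) (.e (nat_lit 90170) (nat_lit 13) (.e (nat_lit 172106) (nat_lit 10) (.e (nat_lit 434231) (nat_lit 23) (.e (nat_lit 532522) (nat_lit 7) (.e (nat_lit 327424) (nat_lit 10) (.e (nat_lit 5271) (nat_lit 298) .nil))))))) (.g (nat_lit 5) .nil .nil))) 
(.lf (nat_lit 42680) (.g (nat_lit 4713) (.e (nat_lit 1239) (nat_lit 91) (.e (nat_lit 90170) (nat_lit 13) (.e (nat_lit 172106) (nat_lit 10) (.e (nat_lit 434231) (nat_lit 23) (.e (nat_lit 532523) (nat_lit 7) (.e (nat_lit 319505) (nat_lit 10) (.e (nat_lit 7936) (nat_lit 298) .nil))))))) (.g (nat_lit 6) .nil .nil)))))) (.nd (nat_lit 3) (.nd (nat_lit 4) (.nd (nat_lit 5) 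
(.lf (nat_lit 42628) (.g (nat_lit 3117) (.e (nat_lit 1239) (nat_lit 91) (.e (nat_lit 90170) (nat_lit 13) (.e (nat_lit 172106) (nat_lit 10) (.e (nat_lit 434231) (nat_lit 23) (.e (nat_lit 532522) (nat_lit 7) (.e (nat_lit 319499) (nat_lit 10) (.e (nat_lit 5271) (nat_lit 298) .nil))))))) (.g (nat_lit 5) .nil .nil))) 
(.lf (nat_lit 42660) (.g (nat_lit 2732) (.e (nat_lit 1239) (nat_lit 91) (.e (nat_lit 90170) (nat_lit 13) (.e (nat_lit 172106) (nat_lit 10) (.e (nat_lit 434231) (nat_lit 23) (.e (nat_lit 532523) (nat_lit 7) (.e (nat_lit 319499) (nat_lit 10) (.e (nat_lit 5245) (nat_lit 298) .nil))))))) (.g (nat_lit 4) .nil .nil)))) (.nd (nat_lit 5) 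
(.lf (nat_lit 42644) (.g (nat_lit 3479) (.e (nat_lit 1239) (nat_lit 91) (.e (nat_lit 90170) (nat_lit 13) (.e (nat_lit 172106) (nat_lit 10) (.e (nat_lit 434231) (nat_lit 23) (.e (nat_lit 532522) (nat_lit 7) (.e (nat_lit 319505) (nat_lit 10) (.e (nat_lit 5258) (nat_lit 298) .nil))))))) (.g (nat_lit 6) .nil .nil))) 
(.lf (nat_lit 42676) (.g (nat_lit 4435) (.e (nat_lit 1239) (nat_lit 91) (.e (nat_lit 90170) (nat_lit 13) (.e (nat_lit 172106) (nat_lit 10) (.e (nat_lit 434231) (nat_lit 23) (.e (nat_lit 532523) (nat_lit 7) (.e (nat_lit 319505) (nat_lit 10) (.e (nat_lit 5245) (nat_lit 298) .nil))))))) (.g (nat_lit 6) .nil .nil))))) (.nd (nat_lit 4) (.nd (nat_lit 5) 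
(.lf (nat_lit 42636) (.g (nat_lit 3858) (.e (nat_lit 1239) (nat_lit 91) (.e (nat_lit 90170) (nat_lit 13) (.e (nat_lit 172106) (nat_lit 10) (.e (nat_lit 434231) (nat_lit 23) (.e (nat_lit 532522) (nat_lit 7) (.e (nat_lit 319503) (nat_lit 10) (.e (nat_lit 5271) (nat_lit 298) .nil))))))) (.g (nat_lit 7) .nil .nil))) 
(.lf (nat_lit 42668) (.g (nat_lit 4264) (.e (nat_lit 1239) (nat_lit 91) (.e (nat_lit 90170) (nat_lit 13) (.e (nat_lit 172106) (nat_lit 10) (.e (nat_lit 434231) (nat_lit 23) (.e (nat_lit 532523) (nat_lit 7) (.e (nat_lit 319502) (nat_lit 10) (.e (nat_lit 7936) (nat_lit 298) .nil))))))) (.g (nat_lit 6) .nil .nil)))) (.nd (nat_lit 5) 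
(.lf (nat_lit 42652) (.g (nat_lit 4240) (.e (nat_lit 1239) (nat_lit 91) (.e (nat_lit 90170) (nat_lit 13) (.e (nat_lit 172106) (nat_lit 10) (.e (nat_lit 434231) (nat_lit 23) (.e (nat_lit 532523) (nat_lit 7) (.e (nat_lit 319496) (nat_lit 10) (.e (nat_lit 5258) (nat_lit 298) .nil))))))) (.g (nat_lit 0) .nil .nil))) 
(.lf (nat_lit 42684) (.g (nat_lit 4002) (.e (nat_lit 1239) (nat_lit 91) (.e (nat_lit 90170) (nat_lit 13) (.e (nat_lit 172106) (nat_lit 10) (.e (nat_lit 434231) (nat_lit 23) (.e (nat_lit 532523) (nat_lit 7) (.e (nat_lit 319512) (nat_lit 10) (.e (nat_lit 5245) (nat_lit 298) .nil))))))) (.g (nat_lit 5) .nil .nil))))))) (.nd (nat_lit 2) (.nd (nat_lit 3) (.nd (nat_lit 4) (.nd (nat_lit 5) 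
(.lf (nat_lit 42626) (.g (nat_lit 2886) (.e (nat_lit 1239) (nat_lit 91) (.e (nat_lit 90170) (nat_lit 13) (.e (nat_lit 172106) (nat_lit 10) (.e (nat_lit 434231) (nat_lit 23) (.e (nat_lit 532522) (nat_lit 7) (.e (nat_lit 319499) (nat_lit 10) (.e (nat_lit 5255) (nat_lit 298) .nil))))))) (.g (nat_lit 4) .nil .nil))) 
(.lf (nat_lit 42658) (.g (nat_lit 2890) (.e (nat_lit 1239) (nat_lit 91) (.e (nat_lit 90170) (nat_lit 13) (.e (nat_lit 172106) (nat_lit 10) (.e (nat_lit 434231) (nat_lit 23) (.e (nat_lit 532523) (nat_lit 7) (.e (nat_lit 319497) (nat_lit 10) (.e (nat_lit 5272) (nat_lit 298) .nil))))))) (.g (nat_lit 5) .nil .nil)))) (.nd (nat_lit 5) 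
(.lf (nat_lit 42642) (.g (nat_lit 4053) (.e (nat_lit 1239) (nat_lit 91) (.e (nat_lit 90170) (nat_lit 13) (.e (nat_lit 172106) (nat_lit 10) (.e (nat_lit 434231) (nat_lit 23) (.e (nat_lit 532522) (nat_lit 7) (.e (nat_lit 319504) (nat_lit 10) (.e (nat_lit 7936) (nat_lit 298) .nil))))))) (.g (nat_lit 6) .nil .nil))) 
(.lf (nat_lit 42674) (.g (nat_lit 5043) (.e (nat_lit 1239) (nat_lit 91) (.e (nat_lit 90170) (nat_lit 13) (.e (nat_lit 172106) (nat_lit 10) (.e (nat_lit 434231) (nat_lit 23) (.e (nat_lit 532523) (nat_lit 7) (.e (nat_lit 319504) (nat_lit 10) (.e (nat_lit 5272) (nat_lit 298) .nil))))))) (.g (nat_lit 6) .nil .nil))))) (.nd (nat_lit 4) (.nd (nat_lit 5) 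
(.lf (nat_lit 42634) (.g (nat_lit 3469) (.e (nat_lit 1239) (nat_lit 91) (.e (nat_lit 90170) (nat_lit 13) (.e (nat_lit 172106) (nat_lit 10) (.e (nat_lit 434231) (nat_lit 23) (.e (nat_lit 532522) (nat_lit 7) (.e (nat_lit 319502) (nat_lit 10) (.e (nat_lit 7936) (nat_lit 298) .nil))))))) (.g (nat_lit 5) .nil .nil))) 
(.lf (nat_lit 42666) (.g (nat_lit 4038) (.e (nat_lit 1239) (nat_lit 91) (.e (nat_lit 90170) (nat_lit 13) (.e (nat_lit 172106) (nat_lit 10) (.e (nat_lit 434231) (nat_lit 23) (.e (nat_lit 532523) (nat_lit 7) (.e (nat_lit 319500) (nat_lit 10) (.e (nat_lit 5271) (nat_lit 298) .nil))))))) (.g (nat_lit 5) .nil .nil)))) (.nd (nat_lit 5) 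
(.lf (nat_lit 42650) (.g (nat_lit 3316) (.e (nat_lit 1239) (nat_lit 91) (.e (nat_lit 90170) (nat_lit 13) (.e (nat_lit 172106) (nat_lit 10) (.e (nat_lit 434231) (nat_lit 23) (.e (nat_lit 532523) (nat_lit 7) (.e (nat_lit 319496) (nat_lit 10) (.e (nat_lit 5245) (nat_lit 298) .nil))))))) (.g (nat_lit 5) .nil .nil))) 
(.lf (nat_lit 42682) (.g (nat_lit 4033) (.e (nat_lit 1239) (nat_lit 91) (.e (nat_lit 90170) (nat_lit 13) (.e (nat_lit 172106) (nat_lit 10) (.e (nat_lit 434231) (nat_lit 23) (.e (nat_lit 532523) (nat_lit 7) (.e (nat_lit 319506) (nat_lit 10) (.e (nat_lit 7936) (nat_lit 298) .nil))))))) (.g (nat_lit 6) .nil .nil)))))) (.nd (nat_lit 3) (.nd (nat_lit 4) (.nd (nat_lit 5) 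
(.lf (nat_lit 42630) (.g (nat_lit 3979) (.e (nat_lit 1239) (nat_lit 91) (.e (nat_lit 90170) (nat_lit 13) (.e (nat_lit 172106) (nat_lit 10) (.e (nat_lit 434231) (nat_lit 23) (.e (nat_lit 532522) (nat_lit 7) (.e (nat_lit 319500) (nat_lit 10) (.e (nat_lit 5258) (nat_lit 298) .nil))))))) (.g (nat_lit 0) .nil .nil))) 
(.lf (nat_lit 42662) (.g (nat_lit 3608) (.e (nat_lit 1239) (nat_lit 91) (.e (nat_lit 90170) (nat_lit 13) (.e (nat_lit 172106) (nat_lit 10) (.e (nat_lit 434231) (nat_lit 23) (.e (nat_lit 532523) (nat_lit 7) (.e (nat_lit 319499) (nat_lit 10) (.e (nat_lit 5258) (nat_lit 298) .nil))))))) (.g (nat_lit 5) .nil .nil)))) (.nd (nat_lit 5) 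
(.lf (nat_lit 42646) (.g (nat_lit 3992) (.e (nat_lit 1239) (nat_lit 91) (.e (nat_lit 90170) (nat_lit 13) (.e (nat_lit 172106) (nat_lit 10) (.e (nat_lit 434231) (nat_lit 23) (.e (nat_lit 532522) (nat_lit 7) (.e (nat_lit 319505) (nat_lit 10) (.e (nat_lit 7936) (nat_lit 298) .nil))))))) (.g (nat_lit 6) .nil .nil))) 
(.lf (nat_lit 42678) (.g (nat_lit 4804) (.e (nat_lit 1239) (nat_lit 91) (.e (nat_lit 90170) (nat_lit 13) (.e (nat_lit 172106) (nat_lit 10) (.e (nat_lit 434231) (nat_lit 23) (.e (nat_lit 532523) (nat_lit 7) (.e (nat_lit 319505) (nat_lit 10) (.e (nat_lit 5258) (nat_lit 298) .nil))))))) (.g (nat_lit 6) .nil .nil))))) (.nd (nat_lit 4) (.nd (nat_lit 5) 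
(.lf (nat_lit 42638) (.g (nat_lit 3728) (.e (nat_lit 1239) (nat_lit 91) (.e (nat_lit 90170) (nat_lit 13) (.e (nat_lit 172106) (nat_lit 10) (.e (nat_lit 434231) (nat_lit 23) (.e (nat_lit 532522) (nat_lit 7) (.e (nat_lit 319504) (nat_lit 10) (.e (nat_lit 5255) (nat_lit 298) .nil))))))) (.g (nat_lit 5) .nil .nil))) 
(.lf (nat_lit 42670) (.g (nat_lit 4496) (.e (nat_lit 1239) (nat_lit 91) (.e (nat_lit 90170) (nat_lit 13) (.e (nat_lit 172106) (nat_lit 10) (.e (nat_lit 434231) (nat_lit 23) (.e (nat_lit 532523) (nat_lit 7) (.e (nat_lit 319503) (nat_lit 10) (.e (nat_lit 5271) (nat_lit 298) .nil))))))) (.g (nat_lit 7) .nil .nil)))) (.nd (nat_lit 5) 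
(.lf (nat_lit 42654) (.g (nat_lit 2819) (.e (nat_lit 1239) (nat_lit 91) (.e (nat_lit 90170) (nat_lit 13) (.e (nat_lit 172106) (nat_lit 10) (.e (nat_lit 434231) (nat_lit 23) (.e (nat_lit 532523) (nat_lit 7) (.e (nat_lit 319496) (nat_lit 10) (.e (nat_lit 5272) (nat_lit 298) .nil))))))) (.g (nat_lit 4) .nil .nil))) 
(.lf (nat_lit 42686) (.g (nat_lit 4897) (.e (nat_lit 1239) (nat_lit 91) (.e (nat_lit 90170) (nat_lit 13) (.e (nat_lit 172106) (nat_lit 10) (.e (nat_lit 434231) (nat_lit 23) (.e (nat_lit 532524) (nat_lit 8) (.e (nat_lit 327708) (nat_lit 10) (.e (nat_lit 5270) (nat_lit 298) .nil))))))) (.g (nat_lit 0) .nil .nil)))))))) 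
(.nd (nat_lit 1) (.nd (nat_lit 2) (.nd (nat_lit 3) (.nd (nat_lit 4) (.nd (nat_lit 5) 
(.lf (nat_lit 42625) (.g (nat_lit 2621) (.e (nat_lit 1239) (nat_lit 91) (.e (nat_lit 90170) (nat_lit 13) (.e (nat_lit 172106) (nat_lit 10) (.e (nat_lit 434231) (nat_lit 23) (.e (nat_lit 532522) (nat_lit 7) (.e (nat_lit 319499) (nat_lit 10) (.e (nat_lit 5245) (nat_lit 298) .nil))))))) (.g (nat_lit 4) .nil .nil))) 
(.lf (nat_lit 42657) (.g (nat_lit 3284) (.e (nat_lit 1239) (nat_lit 91) (.e (nat_lit 90170) (nat_lit 13) (.e (nat_lit 172106) (nat_lit 10) (.e (nat_lit 434231) (nat_lit 23) (.e (nat_lit 532523) (nat_lit 7) (.e (nat_lit 319497) (nat_lit 10) (.e (nat_lit 5271) (nat_lit 298) .nil))))))) (.g (nat_lit 5) .nil .nil)))) (.nd (nat_lit 5) 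
(.lf (nat_lit 42641) (.g (nat_lit 4544) (.e (nat_lit 1239) (nat_lit 91) (.e (nat_lit 90170) (nat_lit 13) (.e (nat_lit 172106) (nat_lit 10) (.e (nat_lit 434231) (nat_lit 23) (.e (nat_lit 532522) (nat_lit 7) (.e (nat_lit 319504) (nat_lit 10) (.e (nat_lit 5272) (nat_lit 298) .nil))))))) (.g (nat_lit 7) .nil .nil))) 
(.lf (nat_lit 42673) (.g (nat_lit 3864) (.e (nat_lit 1239) (nat_lit 91) (.e (nat_lit 90170) (nat_lit 13) (.e (nat_lit 172106) (nat_lit 10) (.e (nat_lit 434231) (nat_lit 23) (.e (nat_lit 532523) (nat_lit 7) (.e (nat_lit 319504) (nat_lit 10) (.e (nat_lit 5271) (nat_lit 298) .nil))))))) (.g (nat_lit 5) .nil .nil))))) (.nd (nat_lit 4) (.nd (nat_lit 5) 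
(.lf (nat_lit 42633) (.g (nat_lit 2801) (.e (nat_lit 1239) (nat_lit 91) (.e (nat_lit 90170) (nat_lit 13) (.e (nat_lit 172106) (nat_lit 10) (.e (nat_lit 434231) (nat_lit 23) (.e (nat_lit 532522) (nat_lit 7) (.e (nat_lit 319501) (nat_lit 10) (.e (nat_lit 5258) (nat_lit 298) .nil))))))) (.g (nat_lit 5) .nil .nil))) 
(.lf (nat_lit 42665) (.g (nat_lit 3466) (.e (nat_lit 1239) (nat_lit 91) (.e (nat_lit 90170) (nat_lit 13) (.e (nat_lit 172106) (nat_lit 10) (.e (nat_lit 434231) (nat_lit 23) (.e (nat_lit 532523) (nat_lit 7) (.e (nat_lit 319500) (nat_lit 10) (.e (nat_lit 5257) (nat_lit 298) .nil))))))) (.g (nat_lit 4) .nil .nil)))) (.nd (nat_lit 5) 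
(.lf (nat_lit 42649) (.g (nat_lit 1989) (.e (nat_lit 1239) (nat_lit 91) (.e (nat_lit 90170) (nat_lit 13) (.e (nat_lit 172106) (nat_lit 10) (.e (nat_lit 434231) (nat_lit 23) (.e (nat_lit 532523) (nat_lit 7) .nil))))) .nil)) 
(.lf (nat_lit 42681) (.g (nat_lit 5007) (.e (nat_lit 1239) (nat_lit 91) (.e (nat_lit 90170) (nat_lit 13) (.e (nat_lit 172106) (nat_lit 10) (.e (nat_lit 434231) (nat_lit 23) (.e (nat_lit 532523) (nat_lit 7) (.e (nat_lit 319506) (nat_lit 10) (.e (nat_lit 5245) (nat_lit 298) .nil))))))) (.g (nat_lit 0) .nil .nil)))))) (.nd (nat_lit 3) (.nd (nat_lit 4) (.nd (nat_lit 5) 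
(.lf (nat_lit 42629) (.g (nat_lit 3859) (.e (nat_lit 1239) (nat_lit 91) (.e (nat_lit 90170) (nat_lit 13) (.e (nat_lit 172106) (nat_lit 10) (.e (nat_lit 434231) (nat_lit 23) (.e (nat_lit 532522) (nat_lit 7) (.e (nat_lit 319500) (nat_lit 10) (.e (nat_lit 5257) (nat_lit 298) .nil))))))) (.g (nat_lit 5) .nil .nil))) 
(.lf (nat_lit 42661) (.g (nat_lit 2997) (.e (nat_lit 1239) (nat_lit 91) (.e (nat_lit 90170) (nat_lit 13) (.e (nat_lit 172106) (nat_lit 10) (.e (nat_lit 434231) (nat_lit 23) (.e (nat_lit 532523) (nat_lit 7) (.e (nat_lit 319499) (nat_lit 10) (.e (nat_lit 5255) (nat_lit 298) .nil))))))) (.g (nat_lit 4) .nil .nil)))) (.nd (nat_lit 5) 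
(.lf (nat_lit 42645) (.g (nat_lit 4252) (.e (nat_lit 1239) (nat_lit 91) (.e (nat_lit 90170) (nat_lit 13) (.e (nat_lit 172106) (nat_lit 10) (.e (nat_lit 434231) (nat_lit 23) (.e (nat_lit 532522) (nat_lit 7) (.e (nat_lit 319505) (nat_lit 10) (.e (nat_lit 5271) (nat_lit 298) .nil))))))) (.g (nat_lit 0) .nil .nil))) 
(.lf (nat_lit 42677) (.g (nat_lit 3061) (.e (nat_lit 1239) (nat_lit 91) (.e (nat_lit 90170) (nat_lit 13) (.e (nat_lit 172106) (nat_lit 10) (.e (nat_lit 434231) (nat_lit 23) (.e (nat_lit 532523) (nat_lit 7) (.e (nat_lit 319505) (nat_lit 10) (.e (nat_lit 5255) (nat_lit 298) .nil))))))) (.g (nat_lit 4) .nil .nil))))) (.nd (nat_lit 4) (.nd (nat_lit 5) 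
(.lf (nat_lit 42637) (.g (nat_lit 1985) (.e (nat_lit 1239) (nat_lit 91) (.e (nat_lit 90170) (nat_lit 13) (.e (nat_lit 172106) (nat_lit 10) (.e (nat_lit 434231) (nat_lit 23) (.e (nat_lit 532522) (nat_lit 7) (.e (nat_lit 319503) (nat_lit 10) (.e (nat_lit 5272) (nat_lit 298) .nil))))))) (.g (nat_lit 4) .nil .nil))) 
(.lf (nat_lit 42669) (.g (nat_lit 2647) (.e (nat_lit 1239) (nat_lit 91) (.e (nat_lit 90170) (nat_lit 13) (.e (nat_lit 172106) (nat_lit 10) (.e (nat_lit 434231) (nat_lit 23) (.e (nat_lit 532523) (nat_lit 7) (.e (nat_lit 319503) (nat_lit 10) (.e (nat_lit 5258) (nat_lit 298) .nil))))))) (.g (nat_lit 4) .nil .nil)))) (.nd (nat_lit 5) 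
(.lf (nat_lit 42653) (.g (nat_lit 3684) (.e (nat_lit 1239) (nat_lit 91) (.e (nat_lit 90170) (nat_lit 13) (.e (nat_lit 172106) (nat_lit 10) (.e (nat_lit 434231) (nat_lit 23) (.e (nat_lit 532523) (nat_lit 7) (.e (nat_lit 319496) (nat_lit 10) (.e (nat_lit 5271) (nat_lit 298) .nil))))))) (.g (nat_lit 5) .nil .nil))) 
(.lf (nat_lit 42685) (.g (nat_lit 2179) (.e (nat_lit 1239) (nat_lit 91) (.e (nat_lit 90170) (nat_lit 13) (.e (nat_lit 172106) (nat_lit 10) (.e (nat_lit 434231) (nat_lit 23) (.e (nat_lit 532524) (nat_lit 8) .nil))))) .nil)))))) (.nd (nat_lit 2) (.nd (nat_lit 3) (.nd (nat_lit 4) (.nd (nat_lit 5) 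
(.lf (nat_lit 42627) (.g (nat_lit 3497) (.e (nat_lit 1239) (nat_lit 91) (.e (nat_lit 90170) (nat_lit 13) (.e (nat_lit 172106) (nat_lit 10) (.e (nat_lit 434231) (nat_lit 23) (.e (nat_lit 532522) (nat_lit 7) (.e (nat_lit 319499) (nat_lit 10) (.e (nat_lit 5258) (nat_lit 298) .nil))))))) (.g (nat_lit 6) .nil .nil))) 
(.lf (nat_lit 42659) (.g (nat_lit 2093) (.e (nat_lit 1239) (nat_lit 91) (.e (nat_lit 90170) (nat_lit 13) (.e (nat_lit 172106) (nat_lit 10) (.e (nat_lit 434231) (nat_lit 23) (.e (nat_lit 532523) (nat_lit 7) (.e (nat_lit 319497) (nat_lit 10) (.e (nat_lit 7936) (nat_lit 298) .nil))))))) (.g (nat_lit 4) .nil .nil)))) (.nd (nat_lit 5) 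
(.lf (nat_lit 42643) (.g (nat_lit 3207) (.e (nat_lit 1239) (nat_lit 91) (.e (nat_lit 90170) (nat_lit 13) (.e (nat_lit 172106) (nat_lit 10) (.e (nat_lit 434231) (nat_lit 23) (.e (nat_lit 532522) (nat_lit 7) (.e (nat_lit 319505) (nat_lit 10) (.e (nat_lit 5245) (nat_lit 298) .nil))))))) (.g (nat_lit 5) .nil .nil))) 
(.lf (nat_lit 42675) (.g (nat_lit 5051) (.e (nat_lit 1239) (nat_lit 91) (.e (nat_lit 90170) (nat_lit 13) (.e (nat_lit 172106) (nat_lit 10) (.e (nat_lit 434231) (nat_lit 23) (.e (nat_lit 532523) (nat_lit 7) (.e (nat_lit 319504) (nat_lit 10) (.e (nat_lit 7936) (nat_lit 298) .nil))))))) (.g (nat_lit 6) .nil .nil))))) (.nd (nat_lit 4) (.nd (nat_lit 5) 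
(.lf (nat_lit 42635) (.g (nat_lit 2089) (.e (nat_lit 1239) (nat_lit 91) (.e (nat_lit 90170) (nat_lit 13) (.e (nat_lit 172106) (nat_lit 10) (.e (nat_lit 434231) (nat_lit 23) (.e (nat_lit 532522) (nat_lit 7) (.e (nat_lit 319503) (nat_lit 10) (.e (nat_lit 5258) (nat_lit 298) .nil))))))) (.g (nat_lit 4) .nil .nil))) 
(.lf (nat_lit 42667) (.g (nat_lit 4240) (.e (nat_lit 1239) (nat_lit 91) (.e (nat_lit 90170) (nat_lit 13) (.e (nat_lit 172106) (nat_lit 10) (.e (nat_lit 434231) (nat_lit 23) (.e (nat_lit 532523) (nat_lit 7) (.e (nat_lit 319501) (nat_lit 10) (.e (nat_lit 5258) (nat_lit 298) .nil))))))) (.g (nat_lit 5) .nil .nil)))) (.nd (nat_lit 5) 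
(.lf (nat_lit 42651) (.g (nat_lit 3720) (.e (nat_lit 1239) (nat_lit 91) (.e (nat_lit 90170) (nat_lit 13) (.e (nat_lit 172106) (nat_lit 10) (.e (nat_lit 434231) (nat_lit 23) (.e (nat_lit 532523) (nat_lit 7) (.e (nat_lit 319496) (nat_lit 10) (.e (nat_lit 5255) (nat_lit 298) .nil))))))) (.g (nat_lit 5) .nil .nil))) 
(.lf (nat_lit 42683) (.g (nat_lit 4090) (.e (nat_lit 1239) (nat_lit 91) (.e (nat_lit 90170) (nat_lit 13) (.e (nat_lit 172106) (nat_lit 10) (.e (nat_lit 434231) (nat_lit 23) (.e (nat_lit 532523) (nat_lit 7) (.e (nat_lit 319511) (nat_lit 10) (.e (nat_lit 5270) (nat_lit 298) .nil))))))) (.g (nat_lit 6) .nil .nil)))))) (.nd (nat_lit 3) (.nd (nat_lit 4) (.nd (nat_lit 5) 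
(.lf (nat_lit 42631) (.g (nat_lit 4082) (.e (nat_lit 1239) (nat_lit 91) (.e (nat_lit 90170) (nat_lit 13) (.e (nat_lit 172106) (nat_lit 10) (.e (nat_lit 434231) (nat_lit 23) (.e (nat_lit 532522) (nat_lit 7) (.e (nat_lit 319500) (nat_lit 10) (.e (nat_lit 5271) (nat_lit 298) .nil))))))) (.g (nat_lit 0) .nil .nil))) 
(.lf (nat_lit 42663) (.g (nat_lit 3228) (.e (nat_lit 1239) (nat_lit 91) (.e (nat_lit 90170) (nat_lit 13) (.e (nat_lit 172106) (nat_lit 10) (.e (nat_lit 434231) (nat_lit 23) (.e (nat_lit 532523) (nat_lit 7) (.e (nat_lit 319499) (nat_lit 10) (.e (nat_lit 5271) (nat_lit 298) .nil))))))) (.g (nat_lit 5) .nil .nil)))) (.nd (nat_lit 5) 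
(.lf (nat_lit 42647) (.g (nat_lit 2607) (.e (nat_lit 1239) (nat_lit 91) (.e (nat_lit 90170) (nat_lit 13) (.e (nat_lit 172106) (nat_lit 10) (.e (nat_lit 434231) (nat_lit 23) (.e (nat_lit 532522) (nat_lit 7) (.e (nat_lit 319508) (nat_lit 10) (.e (nat_lit 5245) (nat_lit 298) .nil))))))) (.g (nat_lit 4) .nil .nil))) 
(.lf (nat_lit 42679) (.g (nat_lit 5140) (.e (nat_lit 1239) (nat_lit 91) (.e (nat_lit 90170) (nat_lit 13) (.e (nat_lit 172106) (nat_lit 10) (.e (nat_lit 434231) (nat_lit 23) (.e (nat_lit 532523) (nat_lit 7) (.e (nat_lit 319505) (nat_lit 10) (.e (nat_lit 5271) (nat_lit 298) .nil))))))) (.g (nat_lit 7) .nil .nil))))) (.nd (nat_lit 4) (.nd (nat_lit 5) 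
(.lf (nat_lit 42639) (.g (nat_lit 3128) (.e (nat_lit 1239) (nat_lit 91) (.e (nat_lit 90170) (nat_lit 13) (.e (nat_lit 172106) (nat_lit 10) (.e (nat_lit 434231) (nat_lit 23) (.e (nat_lit 532522) (nat_lit 7) (.e (nat_lit 319504) (nat_lit 10) (.e (nat_lit 5257) (nat_lit 298) .nil))))))) (.g (nat_lit 4) .nil .nil))) 
(.lf (nat_lit 42671) (.g (nat_lit 5129) (.e (nat_lit 1239) (nat_lit 91) (.e (nat_lit 90170) (nat_lit 13) (.e (nat_lit 172106) (nat_lit 10) (.e (nat_lit 434231) (nat_lit 23) (.e (nat_lit 532523) (nat_lit 7) (.e (nat_lit 319504) (nat_lit 10) (.e (nat_lit 5255) (nat_lit 298) .nil))))))) (.g (nat_lit 6) .nil .nil)))) (.nd (nat_lit 5) 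
(.lf (nat_lit 42655) (.g (nat_lit 3035) (.e (nat_lit 1239) (nat_lit 91) (.e (nat_lit 90170) (nat_lit 13) (.e (nat_lit 172106) (nat_lit 10) (.e (nat_lit 434231) (nat_lit 23) (.e (nat_lit 532523) (nat_lit 7) (.e (nat_lit 319497) (nat_lit 10) (.e (nat_lit 5245) (nat_lit 298) .nil))))))) (.g (nat_lit 5) .nil .nil))) 
(.lf (nat_lit 42687) (.g (nat_lit 2548) (.e (nat_lit 1239) (nat_lit 91) (.e (nat_lit 90170) (nat_lit 13) (.e (nat_lit 172106) (nat_lit 10) (.e (nat_lit 434231) (nat_lit 23) (.e (nat_lit 532525) (nat_lit 8) (.e (nat_lit 327702) (nat_lit 10) (.e (nat_lit 5245) (nat_lit 298) .nil))))))) (.g (nat_lit 4) .nil .nil)))))))))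

noncomputable def tv594 : DT := (.nd (nat_lit 0) (.nd (nat_lit 1) (.nd (nat_lit 2) (.nd (nat_lit 3) (.nd (nat_lit 4) (.nd (nat_lit 5) 
(.lf (nat_lit 42688) (.g (nat_lit 3186) (.e (nat_lit 1239) (nat_lit 91) (.e (nat_lit 90170) (nat_lit 13) (.e (nat_lit 172106) (nat_lit 10) (.e (nat_lit 434231) (nat_lit 23) (.e (nat_lit 532525) (nat_lit 8) (.e (nat_lit 327702) (nat_lit 10) (.e (nat_lit 5255) (nat_lit 298) .nil))))))) (.g (nat_lit 4) .nil .nil))) 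
(.lf (nat_lit 42720) (.g (nat_lit 5901) (.e (nat_lit 1239) (nat_lit 91) (.e (nat_lit 90170) (nat_lit 13) (.e (nat_lit 172106) (nat_lit 10) (.e (nat_lit 434231) (nat_lit 23) (.e (nat_lit 532526) (nat_lit 8) (.e (nat_lit 327708) (nat_lit 10) (.e (nat_lit 5270) (nat_lit 298) .nil))))))) (.g (nat_lit 0) .nil .nil)))) (.nd (nat_lit 5) 
(.lf (nat_lit 42704) (.g (nat_lit 3095) (.e (nat_lit 1239) (nat_lit 91) (.e (nat_lit 90170) (nat_lit 13) (.e (nat_lit 172106) (nat_lit 10) (.e (nat_lit 434231) (nat_lit 23) (.e (nat_lit 532526) (nat_lit 8) (.e (nat_lit 327702) (nat_lit 10) (.e (nat_lit 5272) (nat_lit 298) .nil))))))) (.g (nat_lit 5) .nil .nil))) 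
(.lf (nat_lit 42736) (.g (nat_lit 3044) (.e (nat_lit 1239) (nat_lit 91) (.e (nat_lit 90170) (nat_lit 13) (.e (nat_lit 172106) (nat_lit 10) (.e (nat_lit 434231) (nat_lit 23) (.e (nat_lit 532529) (nat_lit 9) (.e (nat_lit 336247) (nat_lit 15) (.e (nat_lit 3588) (nat_lit 224) (.e (nat_lit 753694) (nat_lit 13) .nil)))))))) (.g (nat_lit 4) .nil .nil))))) (.nd (nat_lit 4) (.nd (nat_lit 5) 
(.lf (nat_lit 42696) (.g (nat_lit 3862) (.e (nat_lit 1239) (nat_lit 91) (.e (nat_lit 90170) (nat_lit 13) (.e (nat_lit 172106) (nat_lit 10) (.e (nat_lit 434231) (nat_lit 23) (.e (nat_lit 532525) (nat_lit 8) (.e (nat_lit 327705) (nat_lit 10) (.e (nat_lit 5245) (nat_lit 298) .nil))))))) (.g (nat_lit 5) .nil .nil))) 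
(.lf (nat_lit 42728) (.g (nat_lit 2511) (.e (nat_lit 1239) (nat_lit 91) (.e (nat_lit 90170) (nat_lit 13) (.e (nat_lit 172106) (nat_lit 10) (.e (nat_lit 434231) (nat_lit 23) (.e (nat_lit 532529) (nat_lit 9) (.e (nat_lit 335980) (nat_lit 0) (.e (nat_lit 1936) (nat_lit 132) (.e (nat_lit 622602) (nat_lit 5) .nil)))))))) (.g (nat_lit 4) .nil .nil)))) (.nd (nat_lit 5) 
(.lf (nat_lit 42712) (.g (nat_lit 4035) (.e (nat_lit 1239) (nat_lit 91) (.e (nat_lit 90170) (nat_lit 13) (.e (nat_lit 172106) (nat_lit 10) (.e (nat_lit 434231) (nat_lit 23) (.e (nat_lit 532526) (nat_lit 8) (.e (nat_lit 327703) (nat_lit 10) (.e (nat_lit 7936) (nat_lit 298) .nil))))))) (.g (nat_lit 6) .nil .nil))) 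
(.lf (nat_lit 42744) (.g (nat_lit 2999) (.e (nat_lit 1239) (nat_lit 91) (.e (nat_lit 90170) (nat_lit 13) (.e (nat_lit 172106) (nat_lit 10) (.e (nat_lit 434231) (nat_lit 23) (.e (nat_lit 532529) (nat_lit 9) (.e (nat_lit 336257) (nat_lit 15) (.e (nat_lit 3591) (nat_lit 224) (.e (nat_lit 753693) (nat_lit 13) .nil)))))))) (.g (nat_lit 4) .nil .nil)))))) 
(.nd (nat_lit 3) (.nd (nat_lit 4) (.nd (nat_lit 5) 
(.lf (nat_lit 42692) (.g (nat_lit 3065) (.e (nat_lit 1239) (nat_lit 91) (.e (nat_lit 90170) (nat_lit 13) (.e (nat_lit 172106) (nat_lit 10) (.e (nat_lit 434231) (nat_lit 23) (.e (nat_lit 532525) (nat_lit 8) (.e (nat_lit 327702) (nat_lit 10) (.e (nat_lit 7936) (nat_lit 298) .nil))))))) (.g (nat_lit 4) .nil .nil))) 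
(.lf (nat_lit 42724) (.g (nat_lit 2895) (.e (nat_lit 1239) (nat_lit 91) (.e (nat_lit 90170) (nat_lit 13) (.e (nat_lit 172106) (nat_lit 10) (.e (nat_lit 434231) (nat_lit 23) (.e (nat_lit 532528) (nat_lit 9) (.e (nat_lit 336240) (nat_lit 15) (.e (nat_lit 3590) (nat_lit 224) (.e (nat_lit 753694) (nat_lit 13) .nil)))))))) (.g (nat_lit 4) .nil .nil)))) (.nd (nat_lit 5) 
(.lf (nat_lit 42708) (.g (nat_lit 3297) (.e (nat_lit 1239) (nat_lit 91) (.e (nat_lit 90170) (nat_lit 13) (.e (nat_lit 172106) (nat_lit 10) (.e (nat_lit 434231) (nat_lit 23) (.e (nat_lit 532526) (nat_lit 8) (.e (nat_lit 327703) (nat_lit 10) (.e (nat_lit 5255) (nat_lit 298) .nil))))))) (.g (nat_lit 4) .nil .nil))) 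
(.lf (nat_lit 42740) (.g (nat_lit 2764) (.e (nat_lit 1239) (nat_lit 91) (.e (nat_lit 90170) (nat_lit 13) (.e (nat_lit 172106) (nat_lit 10) (.e (nat_lit 434231) (nat_lit 23) (.e (nat_lit 532529) (nat_lit 9) (.e (nat_lit 336257) (nat_lit 15) (.e (nat_lit 3588) (nat_lit 224) (.e (nat_lit 753694) (nat_lit 13) .nil)))))))) (.g (nat_lit 4) .nil .nil))))) (.nd (nat_lit 4) (.nd (nat_lit 5) 
(.lf (nat_lit 42700) (.g (nat_lit 3147) (.e (nat_lit 1239) (nat_lit 91) (.e (nat_lit 90170) (nat_lit 13) (.e (nat_lit 172106) (nat_lit 10) (.e (nat_lit 434231) (nat_lit 23) (.e (nat_lit 532525) (nat_lit 8) (.e (nat_lit 335616) (nat_lit 10) (.e (nat_lit 5270) (nat_lit 298) .nil))))))) (.g (nat_lit 4) .nil .nil))) 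
(.lf (nat_lit 42732) (.g (nat_lit 2803) (.e (nat_lit 1239) (nat_lit 91) (.e (nat_lit 90170) (nat_lit 13) (.e (nat_lit 172106) (nat_lit 10) (.e (nat_lit 434231) (nat_lit 23) (.e (nat_lit 532529) (nat_lit 9) (.e (nat_lit 336240) (nat_lit 15) (.e (nat_lit 3595) (nat_lit 224) (.e (nat_lit 753693) (nat_lit 13) .nil)))))))) (.g (nat_lit 4) .nil .nil)))) (.nd (nat_lit 5) 
(.lf (nat_lit 42716) (.g (nat_lit 3218) (.e (nat_lit 1239) (nat_lit 91) (.e (nat_lit 90170) (nat_lit 13) (.e (nat_lit 172106) (nat_lit 10) (.e (nat_lit 434231) (nat_lit 23) (.e (nat_lit 532526) (nat_lit 8) (.e (nat_lit 327706) (nat_lit 10) (.e (nat_lit 7936) (nat_lit 298) .nil))))))) (.g (nat_lit 5) .nil .nil))) 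
(.lf (nat_lit 42748) (.g (nat_lit 2805) (.e (nat_lit 1239) (nat_lit 91) (.e (nat_lit 90170) (nat_lit 13) (.e (nat_lit 172106) (nat_lit 10) (.e (nat_lit 434231) (nat_lit 23) (.e (nat_lit 532529) (nat_lit 9) (.e (nat_lit 336257) (nat_lit 15) (.e (nat_lit 3593) (nat_lit 224) (.e (nat_lit 753693) (nat_lit 13) .nil)))))))) (.g (nat_lit 4) .nil .nil))))))) 
(.nd (nat_lit 2) (.nd (nat_lit 3) (.nd (nat_lit 4) (.nd (nat_lit 5) 
(.lf (nat_lit 42690) (.g (nat_lit 2707) (.e (nat_lit 1239) (nat_lit 91) (.e (nat_lit 90170) (nat_lit 13) (.e (nat_lit 172106) (nat_lit 10) (.e (nat_lit 434231) (nat_lit 23) (.e (nat_lit 532525) (nat_lit 8) (.e (nat_lit 327702) (nat_lit 10) (.e (nat_lit 5271) (nat_lit 298) .nil))))))) (.g (nat_lit 4) .nil .nil))) 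
(.lf (nat_lit 42722) (.g (nat_lit 3268) (.e (nat_lit 1239) (nat_lit 91) (.e (nat_lit 90170) (nat_lit 13) (.e (nat_lit 172106) (nat_lit 10) (.e (nat_lit 434231) (nat_lit 23) (.e (nat_lit 532526) (nat_lit 8) (.e (nat_lit 327709) (nat_lit 10) (.e (nat_lit 7936) (nat_lit 298) .nil))))))) (.g (nat_lit 5) .nil .nil)))) (.nd (nat_lit 5) 
(.lf (nat_lit 42706) (.g (nat_lit 3601) (.e (nat_lit 1239) (nat_lit 91) (.e (nat_lit 90170) (nat_lit 13) (.e (nat_lit 172106) (nat_lit 10) (.e (nat_lit 434231) (nat_lit 23) (.e (nat_lit 532526) (nat_lit 8) (.e (nat_lit 327702) (nat_lit 10) (.e (nat_lit 7936) (nat_lit 298) .nil))))))) (.g (nat_lit 5) .nil .nil))) 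
(.lf (nat_lit 42738) (.g (nat_lit 3512) (.e (nat_lit 1239) (nat_lit 91) (.e (nat_lit 90170) (nat_lit 13) (.e (nat_lit 172106) (nat_lit 10) (.e (nat_lit 434231) (nat_lit 23) (.e (nat_lit 532529) (nat_lit 9) (.e (nat_lit 336257) (nat_lit 15) (.e (nat_lit 3585) (nat_lit 224) (.e (nat_lit 753694) (nat_lit 13) .nil)))))))) (.g (nat_lit 4) .nil .nil))))) (.nd (nat_lit 4) (.nd (nat_lit 5) 
(.lf (nat_lit 42698) (.g (nat_lit 3040) (.e (nat_lit 1239) (nat_lit 91) (.e (nat_lit 90170) (nat_lit 13) (.e (nat_lit 172106) (nat_lit 10) (.e (nat_lit 434231) (nat_lit 23) (.e (nat_lit 532525) (nat_lit 8) (.e (nat_lit 327707) (nat_lit 10) (.e (nat_lit 5245) (nat_lit 298) .nil))))))) (.g (nat_lit 4) .nil .nil))) 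
(.lf (nat_lit 42730) (.g (nat_lit 2900) (.e (nat_lit 1239) (nat_lit 91) (.e (nat_lit 90170) (nat_lit 13) (.e (nat_lit 172106) (nat_lit 10) (.e (nat_lit 434231) (nat_lit 23) (.e (nat_lit 532529) (nat_lit 9) (.e (nat_lit 336240) (nat_lit 15) (.e (nat_lit 3590) (nat_lit 224) (.e (nat_lit 753693) (nat_lit 13) .nil)))))))) (.g (nat_lit 4) .nil .nil)))) (.nd (nat_lit 5) 
(.lf (nat_lit 42714) (.g (nat_lit 4113) (.e (nat_lit 1239) (nat_lit 91) (.e (nat_lit 90170) (nat_lit 13) (.e (nat_lit 172106) (nat_lit 10) (.e (nat_lit 434231) (nat_lit 23) (.e (nat_lit 532526) (nat_lit 8) (.e (nat_lit 327705) (nat_lit 10) (.e (nat_lit 7936) (nat_lit 298) .nil))))))) (.g (nat_lit 6) .nil .nil))) 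
(.lf (nat_lit 42746) (.g (nat_lit 3300) (.e (nat_lit 1239) (nat_lit 91) (.e (nat_lit 90170) (nat_lit 13) (.e (nat_lit 172106) (nat_lit 10) (.e (nat_lit 434231) (nat_lit 23) (.e (nat_lit 532529) (nat_lit 9) (.e (nat_lit 336257) (nat_lit 15) (.e (nat_lit 3592) (nat_lit 224) (.e (nat_lit 753693) (nat_lit 13) .nil)))))))) (.g (nat_lit 4) .nil .nil)))))) 
(.nd (nat_lit 3) (.nd (nat_lit 4) (.nd (nat_lit 5) 
(.lf (nat_lit 42694) (.g (nat_lit 3835) (.e (nat_lit 1239) (nat_lit 91) (.e (nat_lit 90170) (nat_lit 13) (.e (nat_lit 172106) (nat_lit 10) (.e (nat_lit 434231) (nat_lit 23) (.e (nat_lit 532525) (nat_lit 8) (.e (nat_lit 327703) (nat_lit 10) (.e (nat_lit 5271) (nat_lit 298) .nil))))))) (.g (nat_lit 5) .nil .nil))) 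
(.lf (nat_lit 42726) (.g (nat_lit 2190) (.e (nat_lit 1239) (nat_lit 91) (.e (nat_lit 90170) (nat_lit 13) (.e (nat_lit 172106) (nat_lit 10) (.e (nat_lit 434231) (nat_lit 23) (.e (nat_lit 532529) (nat_lit 9) (.e (nat_lit 335980) (nat_lit 0) (.e (nat_lit 1936) (nat_lit 132) (.e (nat_lit 622600) (nat_lit 5) .nil)))))))) (.g (nat_lit 4) .nil .nil)))) (.nd (nat_lit 5) 
(.lf (nat_lit 42710) (.g (nat_lit 4752) (.e (nat_lit 1239) (nat_lit 91) (.e (nat_lit 90170) (nat_lit 13) (.e (nat_lit 172106) (nat_lit 10) (.e (nat_lit 434231) (nat_lit 23) (.e (nat_lit 532526) (nat_lit 8) (.e (nat_lit 327703) (nat_lit 10) (.e (nat_lit 5271) (nat_lit 298) .nil))))))) (.g (nat_lit 7) .nil .nil))) 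
(.lf (nat_lit 42742) (.g (nat_lit 2698) (.e (nat_lit 1239) (nat_lit 91) (.e (nat_lit 90170) (nat_lit 13) (.e (nat_lit 172106) (nat_lit 10) (.e (nat_lit 434231) (nat_lit 23) (.e (nat_lit 532529) (nat_lit 9) (.e (nat_lit 336257) (nat_lit 15) (.e (nat_lit 3590) (nat_lit 224) (.e (nat_lit 753693) (nat_lit 13) .nil)))))))) (.g (nat_lit 4) .nil .nil))))) (.nd (nat_lit 4) (.nd (nat_lit 5) 
(.lf (nat_lit 42702) (.g (nat_lit 3722) (.e (nat_lit 1239) (nat_lit 91) (.e (nat_lit 90170) (nat_lit 13) (.e (nat_lit 172106) (nat_lit 10) (.e (nat_lit 434231) (nat_lit 23) (.e (nat_lit 532526) (nat_lit 8) (.e (nat_lit 327702) (nat_lit 10) (.e (nat_lit 5255) (nat_lit 298) .nil))))))) (.g (nat_lit 5) .nil .nil))) 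
(.lf (nat_lit 42734) (.g (nat_lit 2864) (.e (nat_lit 1239) (nat_lit 91) (.e (nat_lit 90170) (nat_lit 13) (.e (nat_lit 172106) (nat_lit 10) (.e (nat_lit 434231) (nat_lit 23) (.e (nat_lit 532529) (nat_lit 9) (.e (nat_lit 336243) (nat_lit 15) (.e (nat_lit 3588) (nat_lit 224) (.e (nat_lit 753693) (nat_lit 13) .nil)))))))) (.g (nat_lit 4) .nil .nil)))) (.nd (nat_lit 5) 
(.lf (nat_lit 42718) (.g (nat_lit 2304) (.e (nat_lit 1239) (nat_lit 91) (.e (nat_lit 90170) (nat_lit 13) (.e (nat_lit 172106) (nat_lit 10) (.e (nat_lit 434231) (nat_lit 23) (.e (nat_lit 532526) (nat_lit 8) (.e (nat_lit 327707) (nat_lit 10) (.e (nat_lit 7936) (nat_lit 298) .nil))))))) (.g (nat_lit 4) .nil .nil))) 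
(.lf (nat_lit 42750) (.g (nat_lit 3006) (.e (nat_lit 1239) (nat_lit 91) (.e (nat_lit 90170) (nat_lit 13) (.e (nat_lit 172106) (nat_lit 10) (.e (nat_lit 434231) (nat_lit 23) (.e (nat_lit 532529) (nat_lit 9) (.e (nat_lit 336257) (nat_lit 15) (.e (nat_lit 3594) (nat_lit 224) (.e (nat_lit 753693) (nat_lit 13) .nil)))))))) (.g (nat_lit 4) .nil .nil)))))))) 
(.nd (nat_lit 1) (.nd (nat_lit 2) (.nd (nat_lit 3) (.nd (nat_lit 4) (.nd (nat_lit 5) 
(.lf (nat_lit 42689) (.g (nat_lit 3652) (.e (nat_lit 1239) (nat_lit 91) (.e (nat_lit 90170) (nat_lit 13) (.e (nat_lit 172106) (nat_lit 10) (.e (nat_lit 434231) (nat_lit 23) (.e (nat_lit 532525) (nat_lit 8) (.e (nat_lit 327702) (nat_lit 10) (.e (nat_lit 5258) (nat_lit 298) .nil))))))) (.g (nat_lit 5) .nil .nil))) 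
(.lf (nat_lit 42721) (.g (nat_lit 3237) (.e (nat_lit 1239) (nat_lit 91) (.e (nat_lit 90170) (nat_lit 13) (.e (nat_lit 172106) (nat_lit 10) (.e (nat_lit 434231) (nat_lit 23) (.e (nat_lit 532526) (nat_lit 8) (.e (nat_lit 327709) (nat_lit 10) (.e (nat_lit 5245) (nat_lit 298) .nil))))))) (.g (nat_lit 5) .nil .nil)))) (.nd (nat_lit 5) 
(.lf (nat_lit 42705) (.g (nat_lit 2669) (.e (nat_lit 1239) (nat_lit 91) (.e (nat_lit 90170) (nat_lit 13) (.e (nat_lit 172106) (nat_lit 10) (.e (nat_lit 434231) (nat_lit 23) (.e (nat_lit 532526) (nat_lit 8) (.e (nat_lit 327702) (nat_lit 10) (.e (nat_lit 5306) (nat_lit 298) .nil))))))) (.g (nat_lit 4) .nil .nil))) 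
(.lf (nat_lit 42737) (.g (nat_lit 3313) (.e (nat_lit 1239) (nat_lit 91) (.e (nat_lit 90170) (nat_lit 13) (.e (nat_lit 172106) (nat_lit 10) (.e (nat_lit 434231) (nat_lit 23) (.e (nat_lit 532529) (nat_lit 9) (.e (nat_lit 336257) (nat_lit 15) (.e (nat_lit 3585) (nat_lit 224) (.e (nat_lit 753693) (nat_lit 13) .nil)))))))) (.g (nat_lit 4) .nil .nil))))) (.nd (nat_lit 4) (.nd (nat_lit 5) 
(.lf (nat_lit 42697) (.g (nat_lit 3003) (.e (nat_lit 1239) (nat_lit 91) (.e (nat_lit 90170) (nat_lit 13) (.e (nat_lit 172106) (nat_lit 10) (.e (nat_lit 434231) (nat_lit 23) (.e (nat_lit 532525) (nat_lit 8) (.e (nat_lit 327705) (nat_lit 10) (.e (nat_lit 7936) (nat_lit 298) .nil))))))) (.g (nat_lit 4) .nil .nil))) 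
(.lf (nat_lit 42729) (.g (nat_lit 2838) (.e (nat_lit 1239) (nat_lit 91) (.e (nat_lit 90170) (nat_lit 13) (.e (nat_lit 172106) (nat_lit 10) (.e (nat_lit 434231) (nat_lit 23) (.e (nat_lit 532529) (nat_lit 9) (.e (nat_lit 335999) (nat_lit 1) (.e (nat_lit 57783) (nat_lit 239) (.e (nat_lit 7936) (nat_lit 81) .nil)))))))) (.g (nat_lit 4) .nil .nil)))) (.nd (nat_lit 5) 
(.lf (nat_lit 42713) (.g (nat_lit 3567) (.e (nat_lit 1239) (nat_lit 91) (.e (nat_lit 90170) (nat_lit 13) (.e (nat_lit 172106) (nat_lit 10) (.e (nat_lit 434231) (nat_lit 23) (.e (nat_lit 532526) (nat_lit 8) (.e (nat_lit 327704) (nat_lit 10) (.e (nat_lit 5245) (nat_lit 298) .nil))))))) (.g (nat_lit 5) .nil .nil))) 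
(.lf (nat_lit 42745) (.g (nat_lit 3124) (.e (nat_lit 1239) (nat_lit 91) (.e (nat_lit 90170) (nat_lit 13) (.e (nat_lit 172106) (nat_lit 10) (.e (nat_lit 434231) (nat_lit 23) (.e (nat_lit 532529) (nat_lit 9) (.e (nat_lit 336257) (nat_lit 15) (.e (nat_lit 3591) (nat_lit 224) (.e (nat_lit 753694) (nat_lit 13) .nil)))))))) (.g (nat_lit 4) .nil .nil)))))) 
(.nd (nat_lit 3) (.nd (nat_lit 4) (.nd (nat_lit 5) 
(.lf (nat_lit 42693) (.g (nat_lit 3004) (.e (nat_lit 1239) (nat_lit 91) (.e (nat_lit 90170) (nat_lit 13) (.e (nat_lit 172106) (nat_lit 10) (.e (nat_lit 434231) (nat_lit 23) (.e (nat_lit 532525) (nat_lit 8) (.e (nat_lit 327703) (nat_lit 10) (.e (nat_lit 5258) (nat_lit 298) .nil))))))) (.g (nat_lit 4) .nil .nil))) 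
(.lf (nat_lit 42725) (.g (nat_lit 2638) (.e (nat_lit 1239) (nat_lit 91) (.e (nat_lit 90170) (nat_lit 13) (.e (nat_lit 172106) (nat_lit 10) (.e (nat_lit 434231) (nat_lit 23) (.e (nat_lit 532529) (nat_lit 9) (.e (nat_lit 335980) (nat_lit 0) (.e (nat_lit 1936) (nat_lit 132) (.e (nat_lit 622598) (nat_lit 5) .nil)))))))) (.g (nat_lit 4) .nil .nil)))) (.nd (nat_lit 5) 
(.lf (nat_lit 42709) (.g (nat_lit 3388) (.e (nat_lit 1239) (nat_lit 91) (.e (nat_lit 90170) (nat_lit 13) (.e (nat_lit 172106) (nat_lit 10) (.e (nat_lit 434231) (nat_lit 23) (.e (nat_lit 532526) (nat_lit 8) (.e (nat_lit 327703) (nat_lit 10) (.e (nat_lit 5257) (nat_lit 298) .nil))))))) (.g (nat_lit 4) .nil .nil))) 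
(.lf (nat_lit 42741) (.g (nat_lit 2742) (.e (nat_lit 1239) (nat_lit 91) (.e (nat_lit 90170) (nat_lit 13) (.e (nat_lit 172106) (nat_lit 10) (.e (nat_lit 434231) (nat_lit 23) (.e (nat_lit 532529) (nat_lit 9) (.e (nat_lit 336257) (nat_lit 15) (.e (nat_lit 3589) (nat_lit 224) (.e (nat_lit 753694) (nat_lit 13) .nil)))))))) (.g (nat_lit 4) .nil .nil))))) (.nd (nat_lit 4) (.nd (nat_lit 5) 
(.lf (nat_lit 42701) (.g (nat_lit 3083) (.e (nat_lit 1239) (nat_lit 91) (.e (nat_lit 90170) (nat_lit 13) (.e (nat_lit 172106) (nat_lit 10) (.e (nat_lit 434231) (nat_lit 23) (.e (nat_lit 532526) (nat_lit 8) (.e (nat_lit 327702) (nat_lit 10) (.e (nat_lit 5245) (nat_lit 298) .nil))))))) (.g (nat_lit 5) .nil .nil))) 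
(.lf (nat_lit 42733) (.g (nat_lit 2907) (.e (nat_lit 1239) (nat_lit 91) (.e (nat_lit 90170) (nat_lit 13) (.e (nat_lit 172106) (nat_lit 10) (.e (nat_lit 434231) (nat_lit 23) (.e (nat_lit 532529) (nat_lit 9) (.e (nat_lit 336240) (nat_lit 15) (.e (nat_lit 3595) (nat_lit 224) (.e (nat_lit 753694) (nat_lit 13) .nil)))))))) (.g (nat_lit 4) .nil .nil)))) (.nd (nat_lit 5) 
(.lf (nat_lit 42717) (.g (nat_lit 3686) (.e (nat_lit 1239) (nat_lit 91) (.e (nat_lit 90170) (nat_lit 13) (.e (nat_lit 172106) (nat_lit 10) (.e (nat_lit 434231) (nat_lit 23) (.e (nat_lit 532526) (nat_lit 8) (.e (nat_lit 327707) (nat_lit 10) (.e (nat_lit 5245) (nat_lit 298) .nil))))))) (.g (nat_lit 5) .nil .nil))) 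
(.lf (nat_lit 42749) (.g (nat_lit 2734) (.e (nat_lit 1239) (nat_lit 91) (.e (nat_lit 90170) (nat_lit 13) (.e (nat_lit 172106) (nat_lit 10) (.e (nat_lit 434231) (nat_lit 23) (.e (nat_lit 532529) (nat_lit 9) (.e (nat_lit 336257) (nat_lit 15) (.e (nat_lit 3593) (nat_lit 224) (.e (nat_lit 753694) (nat_lit 13) .nil)))))))) (.g (nat_lit 4) .nil .nil))))))) 
(.nd (nat_lit 2) (.nd (nat_lit 3) (.nd (nat_lit 4) (.nd (nat_lit 5) 
(.lf (nat_lit 42691) (.g (nat_lit 2559) (.e (nat_lit 1239) (nat_lit 91) (.e (nat_lit 90170) (nat_lit 13) (.e (nat_lit 172106) (nat_lit 10) (.e (nat_lit 434231) (nat_lit 23) (.e (nat_lit 532525) (nat_lit 8) (.e (nat_lit 327702) (nat_lit 10) (.e (nat_lit 5272) (nat_lit 298) .nil))))))) (.g (nat_lit 4) .nil .nil))) 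
(.lf (nat_lit 42723) (.g (nat_lit 2114) (.e (nat_lit 1239) (nat_lit 91) (.e (nat_lit 90170) (nat_lit 13) (.e (nat_lit 172106) (nat_lit 10) (.e (nat_lit 434231) (nat_lit 23) (.e (nat_lit 532526) (nat_lit 8) (.e (nat_lit 335616) (nat_lit 10) (.e (nat_lit 5271) (nat_lit 298) .nil))))))) (.g (nat_lit 4) .nil .nil)))) (.nd (nat_lit 5) 
(.lf (nat_lit 42707) (.g (nat_lit 3846) (.e (nat_lit 1239) (nat_lit 91) (.e (nat_lit 90170) (nat_lit 13) (.e (nat_lit 172106) (nat_lit 10) (.e (nat_lit 434231) (nat_lit 23) (.e (nat_lit 532526) (nat_lit 8) (.e (nat_lit 327703) (nat_lit 10) (.e (nat_lit 5245) (nat_lit 298) .nil))))))) (.g (nat_lit 6) .nil .nil))) 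
(.lf (nat_lit 42739) (.g (nat_lit 3113) (.e (nat_lit 1239) (nat_lit 91) (.e (nat_lit 90170) (nat_lit 13) (.e (nat_lit 172106) (nat_lit 10) (.e (nat_lit 434231) (nat_lit 23) (.e (nat_lit 532529) (nat_lit 9) (.e (nat_lit 336257) (nat_lit 15) (.e (nat_lit 3588) (nat_lit 224) (.e (nat_lit 753693) (nat_lit 13) .nil)))))))) (.g (nat_lit 4) .nil .nil))))) (.nd (nat_lit 4) (.nd (nat_lit 5) 
(.lf (nat_lit 42699) (.g (nat_lit 5428) (.e (nat_lit 1239) (nat_lit 91) (.e (nat_lit 90170) (nat_lit 13) (.e (nat_lit 172106) (nat_lit 10) (.e (nat_lit 434231) (nat_lit 23) (.e (nat_lit 532525) (nat_lit 8) (.e (nat_lit 327708) (nat_lit 10) (.e (nat_lit 5270) (nat_lit 298) .nil))))))) (.g (nat_lit 0) .nil .nil))) 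
(.lf (nat_lit 42731) (.g (nat_lit 3628) (.e (nat_lit 1239) (nat_lit 91) (.e (nat_lit 90170) (nat_lit 13) (.e (nat_lit 172106) (nat_lit 10) (.e (nat_lit 434231) (nat_lit 23) (.e (nat_lit 532529) (nat_lit 9) (.e (nat_lit 336240) (nat_lit 15) (.e (nat_lit 3590) (nat_lit 224) (.e (nat_lit 753694) (nat_lit 13) .nil)))))))) (.g (nat_lit 5) .nil .nil)))) (.nd (nat_lit 5) 
(.lf (nat_lit 42715) (.g (nat_lit 3125) (.e (nat_lit 1239) (nat_lit 91) (.e (nat_lit 90170) (nat_lit 13) (.e (nat_lit 172106) (nat_lit 10) (.e (nat_lit 434231) (nat_lit 23) (.e (nat_lit 532526) (nat_lit 8) (.e (nat_lit 327706) (nat_lit 10) (.e (nat_lit 5245) (nat_lit 298) .nil))))))) (.g (nat_lit 5) .nil .nil))) 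
(.lf (nat_lit 42747) (.g (nat_lit 3347) (.e (nat_lit 1239) (nat_lit 91) (.e (nat_lit 90170) (nat_lit 13) (.e (nat_lit 172106) (nat_lit 10) (.e (nat_lit 434231) (nat_lit 23) (.e (nat_lit 532529) (nat_lit 9) (.e (nat_lit 336257) (nat_lit 15) (.e (nat_lit 3592) (nat_lit 224) (.e (nat_lit 753694) (nat_lit 13) .nil)))))))) (.g (nat_lit 4) .nil .nil)))))) 
(.nd (nat_lit 3) (.nd (nat_lit 4) (.nd (nat_lit 5) 
(.lf (nat_lit 42695) (.g (nat_lit 2672) (.e (nat_lit 1239) (nat_lit 91) (.e (nat_lit 90170) (nat_lit 13) (.e (nat_lit 172106) (nat_lit 10) (.e (nat_lit 434231) (nat_lit 23) (.e (nat_lit 532525) (nat_lit 8) (.e (nat_lit 327704) (nat_lit 10) (.e (nat_lit 7936) (nat_lit 298) .nil))))))) (.g (nat_lit 4) .nil .nil))) 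
(.lf (nat_lit 42727) (.g (nat_lit 2255) (.e (nat_lit 1239) (nat_lit 91) (.e (nat_lit 90170) (nat_lit 13) (.e (nat_lit 172106) (nat_lit 10) (.e (nat_lit 434231) (nat_lit 23) (.e (nat_lit 532529) (nat_lit 9) (.e (nat_lit 335980) (nat_lit 0) (.e (nat_lit 1936) (nat_lit 132) (.e (nat_lit 622601) (nat_lit 5) .nil)))))))) (.g (nat_lit 4) .nil .nil)))) (.nd (nat_lit 5) 
(.lf (nat_lit 42711) (.g (nat_lit 4462) (.e (nat_lit 1239) (nat_lit 91) (.e (nat_lit 90170) (nat_lit 13) (.e (nat_lit 172106) (nat_lit 10) (.e (nat_lit 434231) (nat_lit 23) (.e (nat_lit 532526) (nat_lit 8) (.e (nat_lit 327703) (nat_lit 10) (.e (nat_lit 5272) (nat_lit 298) .nil))))))) (.g (nat_lit 6) .nil .nil))) 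
(.lf (nat_lit 42743) (.g (nat_lit 3426) (.e (nat_lit 1239) (nat_lit 91) (.e (nat_lit 90170) (nat_lit 13) (.e (nat_lit 172106) (nat_lit 10) (.e (nat_lit 434231) (nat_lit 23) (.e (nat_lit 532529) (nat_lit 9) (.e (nat_lit 336257) (nat_lit 15) (.e (nat_lit 3590) (nat_lit 224) (.e (nat_lit 753694) (nat_lit 13) .nil)))))))) (.g (nat_lit 4) .nil .nil))))) (.nd (nat_lit 4) (.nd (nat_lit 5) 
(.lf (nat_lit 42703) (.g (nat_lit 3185) (.e (nat_lit 1239) (nat_lit 91) (.e (nat_lit 90170) (nat_lit 13) (.e (nat_lit 172106) (nat_lit 10) (.e (nat_lit 434231) (nat_lit 23) (.e (nat_lit 532526) (nat_lit 8) (.e (nat_lit 327702) (nat_lit 10) (.e (nat_lit 5271) (nat_lit 298) .nil))))))) (.g (nat_lit 5) .nil .nil))) 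
(.lf (nat_lit 42735) (.g (nat_lit 3393) (.e (nat_lit 1239) (nat_lit 91) (.e (nat_lit 90170) (nat_lit 13) (.e (nat_lit 172106) (nat_lit 10) (.e (nat_lit 434231) (nat_lit 23) (.e (nat_lit 532529) (nat_lit 9) (.e (nat_lit 336247) (nat_lit 15) (.e (nat_lit 3588) (nat_lit 224) (.e (nat_lit 753693) (nat_lit 13) .nil)))))))) (.g (nat_lit 4) .nil .nil)))) (.nd (nat_lit 5) 
(.lf (nat_lit 42719) (.g (nat_lit 4646) (.e (nat_lit 1239) (nat_lit 91) (.e (nat_lit 90170) (nat_lit 13) (.e (nat_lit 172106) (nat_lit 10) (.e (nat_lit 434231) (nat_lit 23) (.e (nat_lit 532526) (nat_lit 8) (.e (nat_lit 327708) (nat_lit 10) (.e (nat_lit 5245) (nat_lit 298) .nil))))))) (.g (nat_lit 6) .nil .nil))) 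
(.lf (nat_lit 42751) (.g (nat_lit 2801) (.e (nat_lit 1239) (nat_lit 91) (.e (nat_lit 90170) (nat_lit 13) (.e (nat_lit 172106) (nat_lit 10) (.e (nat_lit 434231) (nat_lit 23) (.e (nat_lit 532529) (nat_lit 9) (.e (nat_lit 336257) (nat_lit 15) (.e (nat_lit 3594) (nat_lit 224) (.e (nat_lit 753694) (nat_lit 13) .nil)))))))) (.g (nat_lit 4) .nil .nil)))))))))

noncomputable def tv595 : DT := (.nd (nat_lit 0) (.nd (nat_lit 1) (.nd (nat_lit 2) (.nd (nat_lit 3) (.nd (nat_lit 4) (.nd (nat_lit 5) 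
(.lf (nat_lit 42752) (.g (nat_lit 2852) (.e (nat_lit 1239) (nat_lit 91) (.e (nat_lit 90170) (nat_lit 13) (.e (nat_lit 172106) (nat_lit 10) (.e (nat_lit 434231) (nat_lit 23) (.e (nat_lit 532529) (nat_lit 9) (.e (nat_lit 336257) (nat_lit 15) (.e (nat_lit 3595) (nat_lit 224) (.e (nat_lit 753693) (nat_lit 13) .nil)))))))) (.g (nat_lit 4) .nil .nil))) 
(.lf (nat_lit 42784) (.g (nat_lit 4033) (.e (nat_lit 1239) (nat_lit 91) (.e (nat_lit 90170) (nat_lit 13) (.e (nat_lit 172106) (nat_lit 10) (.e (nat_lit 434231) (nat_lit 23) (.e (nat_lit 532535) (nat_lit 9) (.e (nat_lit 335902) (nat_lit 0) (.e (nat_lit 1942) (nat_lit 132) (.e (nat_lit 622601) (nat_lit 5) .nil)))))))) (.g (nat_lit 5) .nil .nil)))) (.nd (nat_lit 5) 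
(.lf (nat_lit 42768) (.g (nat_lit 2693) (.e (nat_lit 1239) (nat_lit 91) (.e (nat_lit 90170) (nat_lit 13) (.e (nat_lit 172106) (nat_lit 10) (.e (nat_lit 434231) (nat_lit 23) (.e (nat_lit 532535) (nat_lit 9) (.e (nat_lit 335886) (nat_lit 0) (.e (nat_lit 1937) (nat_lit 132) (.e (nat_lit 622602) (nat_lit 5) .nil)))))))) (.g (nat_lit 5) .nil .nil))) 
(.lf (nat_lit 42800) (.g (nat_lit 4211) (.e (nat_lit 1239) (nat_lit 91) (.e (nat_lit 90170) (nat_lit 13) (.e (nat_lit 172106) (nat_lit 10) (.e (nat_lit 434231) (nat_lit 23) (.e (nat_lit 532535) (nat_lit 9) (.e (nat_lit 335904) (nat_lit 0) (.e (nat_lit 1942) (nat_lit 132) (.e (nat_lit 622598) (nat_lit 5) .nil)))))))) (.g (nat_lit 5) .nil .nil))))) (.nd (nat_lit 4) (.nd (nat_lit 5) 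
(.lf (nat_lit 42760) (.g (nat_lit 2962) (.e (nat_lit 1239) (nat_lit 91) (.e (nat_lit 90170) (nat_lit 13) (.e (nat_lit 172106) (nat_lit 10) (.e (nat_lit 434231) (nat_lit 23) (.e (nat_lit 532529) (nat_lit 9) (.e (nat_lit 336260) (nat_lit 15) (.e (nat_lit 3588) (nat_lit 224) (.e (nat_lit 753693) (nat_lit 13) .nil)))))))) (.g (nat_lit 4) .nil .nil))) 
(.lf (nat_lit 42792) (.g (nat_lit 4188) (.e (nat_lit 1239) (nat_lit 91) (.e (nat_lit 90170) (nat_lit 13) (.e (nat_lit 172106) (nat_lit 10) (.e (nat_lit 434231) (nat_lit 23) (.e (nat_lit 532535) (nat_lit 9) (.e (nat_lit 335903) (nat_lit 0) (.e (nat_lit 1942) (nat_lit 132) (.e (nat_lit 622601) (nat_lit 5) .nil)))))))) (.g (nat_lit 5) .nil .nil)))) (.nd (nat_lit 5) 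
(.lf (nat_lit 42776) (.g (nat_lit 3931) (.e (nat_lit 1239) (nat_lit 91) (.e (nat_lit 90170) (nat_lit 13) (.e (nat_lit 172106) (nat_lit 10) (.e (nat_lit 434231) (nat_lit 23) (.e (nat_lit 532535) (nat_lit 9) (.e (nat_lit 335900) (nat_lit 0) (.e (nat_lit 1938) (nat_lit 132) (.e (nat_lit 622602) (nat_lit 5) .nil)))))))) (.g (nat_lit 5) .nil .nil))) 
(.lf (nat_lit 42808) (.g (nat_lit 2648) (.e (nat_lit 1239) (nat_lit 91) (.e (nat_lit 90170) (nat_lit 13) (.e (nat_lit 172106) (nat_lit 10) (.e (nat_lit 434231) (nat_lit 23) (.e (nat_lit 532535) (nat_lit 9) (.e (nat_lit 335905) (nat_lit 0) (.e (nat_lit 1934) (nat_lit 132) (.e (nat_lit 622602) (nat_lit 5) .nil)))))))) (.g (nat_lit 5) .nil .nil)))))) 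
(.nd (nat_lit 3) (.nd (nat_lit 4) (.nd (nat_lit 5) 
(.lf (nat_lit 42756) (.g (nat_lit 3316) (.e (nat_lit 1239) (nat_lit 91) (.e (nat_lit 90170) (nat_lit 13) (.e (nat_lit 172106) (nat_lit 10) (.e (nat_lit 434231) (nat_lit 23) (.e (nat_lit 532529) (nat_lit 9) (.e (nat_lit 336258) (nat_lit 15) (.e (nat_lit 3589) (nat_lit 224) (.e (nat_lit 753694) (nat_lit 13) .nil)))))))) (.g (nat_lit 4) .nil .nil))) 
(.lf (nat_lit 42788) (.g (nat_lit 3983) (.e (nat_lit 1239) (nat_lit 91) (.e (nat_lit 90170) (nat_lit 13) (.e (nat_lit 172106) (nat_lit 10) (.e (nat_lit 434231) (nat_lit 23) (.e (nat_lit 532535) (nat_lit 9) (.e (nat_lit 335903) (nat_lit 0) (.e (nat_lit 1938) (nat_lit 132) (.e (nat_lit 622598) (nat_lit 5) .nil)))))))) (.g (nat_lit 5) .nil .nil)))) (.nd (nat_lit 5) 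
(.lf (nat_lit 42772) (.g (nat_lit 3960) (.e (nat_lit 1239) (nat_lit 91) (.e (nat_lit 90170) (nat_lit 13) (.e (nat_lit 172106) (nat_lit 10) (.e (nat_lit 434231) (nat_lit 23) (.e (nat_lit 532535) (nat_lit 9) (.e (nat_lit 335900) (nat_lit 0) (.e (nat_lit 1936) (nat_lit 132) (.e (nat_lit 622602) (nat_lit 5) .nil)))))))) (.g (nat_lit 5) .nil .nil))) 
(.lf (nat_lit 42804) (.g (nat_lit 3022) (.e (nat_lit 1239) (nat_lit 91) (.e (nat_lit 90170) (nat_lit 13) (.e (nat_lit 172106) (nat_lit 10) (.e (nat_lit 434231) (nat_lit 23) (.e (nat_lit 532535) (nat_lit 9) (.e (nat_lit 335905) (nat_lit 0) (.e (nat_lit 973) (nat_lit 81) (.e (nat_lit 4751) (nat_lit 281) (.e (nat_lit 999) (nat_lit 81) .nil))))))))) (.g (nat_lit 5) .nil .nil))))) 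
(.nd (nat_lit 4) (.nd (nat_lit 5) 
(.lf (nat_lit 42764) (.g (nat_lit 2942) (.e (nat_lit 1239) (nat_lit 91) (.e (nat_lit 90170) (nat_lit 13) (.e (nat_lit 172106) (nat_lit 10) (.e (nat_lit 434231) (nat_lit 23) (.e (nat_lit 532529) (nat_lit 9) (.e (nat_lit 336297) (nat_lit 15) (.e (nat_lit 3588) (nat_lit 224) (.e (nat_lit 753693) (nat_lit 13) .nil)))))))) (.g (nat_lit 4) .nil .nil))) 
(.lf (nat_lit 42796) (.g (nat_lit 5006) (.e (nat_lit 1239) (nat_lit 91) (.e (nat_lit 90170) (nat_lit 13) (.e (nat_lit 172106) (nat_lit 10) (.e (nat_lit 434231) (nat_lit 23) (.e (nat_lit 532535) (nat_lit 9) (.e (nat_lit 335904) (nat_lit 0) (.e (nat_lit 1937) (nat_lit 132) (.e (nat_lit 622602) (nat_lit 5) .nil)))))))) (.g (nat_lit 5) .nil .nil)))) (.nd (nat_lit 5) 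
(.lf (nat_lit 42780) (.g (nat_lit 4437) (.e (nat_lit 1239) (nat_lit 91) (.e (nat_lit 90170) (nat_lit 13) (.e (nat_lit 172106) (nat_lit 10) (.e (nat_lit 434231) (nat_lit 23) (.e (nat_lit 532535) (nat_lit 9) (.e (nat_lit 335900) (nat_lit 0) (.e (nat_lit 1942) (nat_lit 132) (.e (nat_lit 622602) (nat_lit 5) .nil)))))))) (.g (nat_lit 5) .nil .nil))) 
(.lf (nat_lit 42812) (.g (nat_lit 2147) (.e (nat_lit 1239) (nat_lit 91) (.e (nat_lit 90170) (nat_lit 13) (.e (nat_lit 172106) (nat_lit 10) (.e (nat_lit 434231) (nat_lit 23) (.e (nat_lit 532535) (nat_lit 9) (.e (nat_lit 335908) (nat_lit 0) (.e (nat_lit 973) (nat_lit 81) (.e (nat_lit 4751) (nat_lit 281) (.e (nat_lit 999) (nat_lit 81) .nil))))))))) (.g (nat_lit 4) .nil .nil))))))) 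
(.nd (nat_lit 2) (.nd (nat_lit 3) (.nd (nat_lit 4) (.nd (nat_lit 5) 
(.lf (nat_lit 42754) (.g (nat_lit 3019) (.e (nat_lit 1239) (nat_lit 91) (.e (nat_lit 90170) (nat_lit 13) (.e (nat_lit 172106) (nat_lit 10) (.e (nat_lit 434231) (nat_lit 23) (.e (nat_lit 532529) (nat_lit 9) (.e (nat_lit 336258) (nat_lit 15) (.e (nat_lit 3588) (nat_lit 224) (.e (nat_lit 753693) (nat_lit 13) .nil)))))))) (.g (nat_lit 4) .nil .nil))) 
(.lf (nat_lit 42786) (.g (nat_lit 3911) (.e (nat_lit 1239) (nat_lit 91) (.e (nat_lit 90170) (nat_lit 13) (.e (nat_lit 172106) (nat_lit 10) (.e (nat_lit 434231) (nat_lit 23) (.e (nat_lit 532535) (nat_lit 9) (.e (nat_lit 335903) (nat_lit 0) (.e (nat_lit 1937) (nat_lit 132) (.e (nat_lit 622598) (nat_lit 5) .nil)))))))) (.g (nat_lit 5) .nil .nil)))) (.nd (nat_lit 5) 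
(.lf (nat_lit 42770) (.g (nat_lit 2528) (.e (nat_lit 1239) (nat_lit 91) (.e (nat_lit 90170) (nat_lit 13) (.e (nat_lit 172106) (nat_lit 10) (.e (nat_lit 434231) (nat_lit 23) (.e (nat_lit 532535) (nat_lit 9) (.e (nat_lit 335886) (nat_lit 0) (.e (nat_lit 1942) (nat_lit 132) (.e (nat_lit 622601) (nat_lit 5) .nil)))))))) (.g (nat_lit 5) .nil .nil))) 
(.lf (nat_lit 42802) (.g (nat_lit 2579) (.e (nat_lit 1239) (nat_lit 91) (.e (nat_lit 90170) (nat_lit 13) (.e (nat_lit 172106) (nat_lit 10) (.e (nat_lit 434231) (nat_lit 23) (.e (nat_lit 532535) (nat_lit 9) (.e (nat_lit 335905) (nat_lit 0) (.e (nat_lit 968) (nat_lit 81) (.e (nat_lit 4751) (nat_lit 281) (.e (nat_lit 999) (nat_lit 81) .nil))))))))) (.g (nat_lit 5) .nil .nil))))) 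
(.nd (nat_lit 4) (.nd (nat_lit 5) 
(.lf (nat_lit 42762) (.g (nat_lit 3505) (.e (nat_lit 1239) (nat_lit 91) (.e (nat_lit 90170) (nat_lit 13) (.e (nat_lit 172106) (nat_lit 10) (.e (nat_lit 434231) (nat_lit 23) (.e (nat_lit 532529) (nat_lit 9) (.e (nat_lit 336261) (nat_lit 15) (.e (nat_lit 3588) (nat_lit 224) (.e (nat_lit 753693) (nat_lit 13) .nil)))))))) (.g (nat_lit 4) .nil .nil))) 
(.lf (nat_lit 42794) (.g (nat_lit 4036) (.e (nat_lit 1239) (nat_lit 91) (.e (nat_lit 90170) (nat_lit 13) (.e (nat_lit 172106) (nat_lit 10) (.e (nat_lit 434231) (nat_lit 23) (.e (nat_lit 532535) (nat_lit 9) (.e (nat_lit 335903) (nat_lit 0) (.e (nat_lit 7936) (nat_lit 132) (.e (nat_lit 622600) (nat_lit 5) .nil)))))))) (.g (nat_lit 5) .nil .nil)))) (.nd (nat_lit 5) 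
(.lf (nat_lit 42778) (.g (nat_lit 4118) (.e (nat_lit 1239) (nat_lit 91) (.e (nat_lit 90170) (nat_lit 13) (.e (nat_lit 172106) (nat_lit 10) (.e (nat_lit 434231) (nat_lit 23) (.e (nat_lit 532535) (nat_lit 9) (.e (nat_lit 335900) (nat_lit 0) (.e (nat_lit 1942) (nat_lit 132) (.e (nat_lit 622599) (nat_lit 5) .nil)))))))) (.g (nat_lit 5) .nil .nil))) 
(.lf (nat_lit 42810) (.g (nat_lit 4024) (.e (nat_lit 1239) (nat_lit 91) (.e (nat_lit 90170) (nat_lit 13) (.e (nat_lit 172106) (nat_lit 10) (.e (nat_lit 434231) (nat_lit 23) (.e (nat_lit 532535) (nat_lit 9) (.e (nat_lit 335905) (nat_lit 0) (.e (nat_lit 7936) (nat_lit 132) (.e (nat_lit 622600) (nat_lit 5) .nil)))))))) (.g (nat_lit 6) .nil .nil)))))) 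
(.nd (nat_lit 3) (.nd (nat_lit 4) (.nd (nat_lit 5) 
(.lf (nat_lit 42758) (.g (nat_lit 3389) (.e (nat_lit 1239) (nat_lit 91) (.e (nat_lit 90170) (nat_lit 13) (.e (nat_lit 172106) (nat_lit 10) (.e (nat_lit 434231) (nat_lit 23) (.e (nat_lit 532529) (nat_lit 9) (.e (nat_lit 336258) (nat_lit 15) (.e (nat_lit 3590) (nat_lit 224) (.e (nat_lit 753694) (nat_lit 13) .nil)))))))) (.g (nat_lit 4) .nil .nil))) 
(.lf (nat_lit 42790) (.g (nat_lit 4018) (.e (nat_lit 1239) (nat_lit 91) (.e (nat_lit 90170) (nat_lit 13) (.e (nat_lit 172106) (nat_lit 10) (.e (nat_lit 434231) (nat_lit 23) (.e (nat_lit 532535) (nat_lit 9) (.e (nat_lit 335903) (nat_lit 0) (.e (nat_lit 1938) (nat_lit 132) (.e (nat_lit 622602) (nat_lit 5) .nil)))))))) (.g (nat_lit 5) .nil .nil)))) (.nd (nat_lit 5) 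
(.lf (nat_lit 42774) (.g (nat_lit 4141) (.e (nat_lit 1239) (nat_lit 91) (.e (nat_lit 90170) (nat_lit 13) (.e (nat_lit 172106) (nat_lit 10) (.e (nat_lit 434231) (nat_lit 23) (.e (nat_lit 532535) (nat_lit 9) (.e (nat_lit 335900) (nat_lit 0) (.e (nat_lit 1937) (nat_lit 132) (.e (nat_lit 622599) (nat_lit 5) .nil)))))))) (.g (nat_lit 5) .nil .nil))) 
(.lf (nat_lit 42806) (.g (nat_lit 3082) (.e (nat_lit 1239) (nat_lit 91) (.e (nat_lit 90170) (nat_lit 13) (.e (nat_lit 172106) (nat_lit 10) (.e (nat_lit 434231) (nat_lit 23) (.e (nat_lit 532535) (nat_lit 9) (.e (nat_lit 335905) (nat_lit 0) (.e (nat_lit 1934) (nat_lit 132) (.e (nat_lit 622598) (nat_lit 5) .nil)))))))) (.g (nat_lit 5) .nil .nil))))) (.nd (nat_lit 4) (.nd (nat_lit 5) 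
(.lf (nat_lit 42766) (.g (nat_lit 2686) (.e (nat_lit 1239) (nat_lit 91) (.e (nat_lit 90170) (nat_lit 13) (.e (nat_lit 172106) (nat_lit 10) (.e (nat_lit 434231) (nat_lit 23) (.e (nat_lit 532531) (nat_lit 9) (.e (nat_lit 336240) (nat_lit 15) (.e (nat_lit 3590) (nat_lit 224) (.e (nat_lit 753694) (nat_lit 13) .nil)))))))) (.g (nat_lit 4) .nil .nil))) 
(.lf (nat_lit 42798) (.g (nat_lit 4282) (.e (nat_lit 1239) (nat_lit 91) (.e (nat_lit 90170) (nat_lit 13) (.e (nat_lit 172106) (nat_lit 10) (.e (nat_lit 434231) (nat_lit 23) (.e (nat_lit 532535) (nat_lit 9) (.e (nat_lit 335904) (nat_lit 0) (.e (nat_lit 1938) (nat_lit 132) (.e (nat_lit 622601) (nat_lit 5) .nil)))))))) (.g (nat_lit 5) .nil .nil)))) (.nd (nat_lit 5) 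
(.lf (nat_lit 42782) (.g (nat_lit 4910) (.e (nat_lit 1239) (nat_lit 91) (.e (nat_lit 90170) (nat_lit 13) (.e (nat_lit 172106) (nat_lit 10) (.e (nat_lit 434231) (nat_lit 23) (.e (nat_lit 532535) (nat_lit 9) (.e (nat_lit 335900) (nat_lit 0) (.e (nat_lit 7936) (nat_lit 132) (.e (nat_lit 622600) (nat_lit 5) .nil)))))))) (.g (nat_lit 5) .nil .nil))) 
(.lf (nat_lit 42814) (.g (nat_lit 3018) (.e (nat_lit 1239) (nat_lit 91) (.e (nat_lit 90170) (nat_lit 13) (.e (nat_lit 172106) (nat_lit 10) (.e (nat_lit 434231) (nat_lit 23) (.e (nat_lit 532535) (nat_lit 9) (.e (nat_lit 335908) (nat_lit 0) (.e (nat_lit 7936) (nat_lit 132) (.e (nat_lit 622600) (nat_lit 5) .nil)))))))) (.g (nat_lit 5) .nil .nil)))))))) 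
(.nd (nat_lit 1) (.nd (nat_lit 2) (.nd (nat_lit 3) (.nd (nat_lit 4) (.nd (nat_lit 5) 
(.lf (nat_lit 42753) (.g (nat_lit 2956) (.e (nat_lit 1239) (nat_lit 91) (.e (nat_lit 90170) (nat_lit 13) (.e (nat_lit 172106) (nat_lit 10) (.e (nat_lit 434231) (nat_lit 23) (.e (nat_lit 532529) (nat_lit 9) (.e (nat_lit 336257) (nat_lit 15) (.e (nat_lit 3595) (nat_lit 224) (.e (nat_lit 753694) (nat_lit 13) .nil)))))))) (.g (nat_lit 4) .nil .nil))) 
(.lf (nat_lit 42785) (.g (nat_lit 4126) (.e (nat_lit 1239) (nat_lit 91) (.e (nat_lit 90170) (nat_lit 13) (.e (nat_lit 172106) (nat_lit 10) (.e (nat_lit 434231) (nat_lit 23) (.e (nat_lit 532535) (nat_lit 9) (.e (nat_lit 335902) (nat_lit 0) (.e (nat_lit 7936) (nat_lit 132) (.e (nat_lit 622598) (nat_lit 5) .nil)))))))) (.g (nat_lit 5) .nil .nil)))) (.nd (nat_lit 5) 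
(.lf (nat_lit 42769) (.g (nat_lit 2510) (.e (nat_lit 1239) (nat_lit 91) (.e (nat_lit 90170) (nat_lit 13) (.e (nat_lit 172106) (nat_lit 10) (.e (nat_lit 434231) (nat_lit 23) (.e (nat_lit 532535) (nat_lit 9) (.e (nat_lit 335886) (nat_lit 0) (.e (nat_lit 1942) (nat_lit 132) (.e (nat_lit 622598) (nat_lit 5) .nil)))))))) (.g (nat_lit 4) .nil .nil))) 
(.lf (nat_lit 42801) (.g (nat_lit 4229) (.e (nat_lit 1239) (nat_lit 91) (.e (nat_lit 90170) (nat_lit 13) (.e (nat_lit 172106) (nat_lit 10) (.e (nat_lit 434231) (nat_lit 23) (.e (nat_lit 532535) (nat_lit 9) (.e (nat_lit 335904) (nat_lit 0) (.e (nat_lit 1942) (nat_lit 132) (.e (nat_lit 622601) (nat_lit 5) .nil)))))))) (.g (nat_lit 5) .nil .nil))))) (.nd (nat_lit 4) (.nd (nat_lit 5) 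
(.lf (nat_lit 42761) (.g (nat_lit 2613) (.e (nat_lit 1239) (nat_lit 91) (.e (nat_lit 90170) (nat_lit 13) (.e (nat_lit 172106) (nat_lit 10) (.e (nat_lit 434231) (nat_lit 23) (.e (nat_lit 532529) (nat_lit 9) (.e (nat_lit 336260) (nat_lit 15) (.e (nat_lit 3588) (nat_lit 224) (.e (nat_lit 753694) (nat_lit 13) .nil)))))))) (.g (nat_lit 4) .nil .nil))) 
(.lf (nat_lit 42793) (.g (nat_lit 4443) (.e (nat_lit 1239) (nat_lit 91) (.e (nat_lit 90170) (nat_lit 13) (.e (nat_lit 172106) (nat_lit 10) (.e (nat_lit 434231) (nat_lit 23) (.e (nat_lit 532535) (nat_lit 9) (.e (nat_lit 335903) (nat_lit 0) (.e (nat_lit 7936) (nat_lit 132) (.e (nat_lit 622598) (nat_lit 5) .nil)))))))) (.g (nat_lit 5) .nil .nil)))) (.nd (nat_lit 5) 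
(.lf (nat_lit 42777) (.g (nat_lit 4776) (.e (nat_lit 1239) (nat_lit 91) (.e (nat_lit 90170) (nat_lit 13) (.e (nat_lit 172106) (nat_lit 10) (.e (nat_lit 434231) (nat_lit 23) (.e (nat_lit 532535) (nat_lit 9) (.e (nat_lit 335900) (nat_lit 0) (.e (nat_lit 1942) (nat_lit 132) (.e (nat_lit 622598) (nat_lit 5) .nil)))))))) (.g (nat_lit 5) .nil .nil))) 
(.lf (nat_lit 42809) (.g (nat_lit 4422) (.e (nat_lit 1239) (nat_lit 91) (.e (nat_lit 90170) (nat_lit 13) (.e (nat_lit 172106) (nat_lit 10) (.e (nat_lit 434231) (nat_lit 23) (.e (nat_lit 532535) (nat_lit 9) (.e (nat_lit 335905) (nat_lit 0) (.e (nat_lit 7936) (nat_lit 132) (.e (nat_lit 622598) (nat_lit 5) .nil)))))))) (.g (nat_lit 6) .nil .nil)))))) 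
(.nd (nat_lit 3) (.nd (nat_lit 4) (.nd (nat_lit 5) 
(.lf (nat_lit 42757) (.g (nat_lit 2661) (.e (nat_lit 1239) (nat_lit 91) (.e (nat_lit 90170) (nat_lit 13) (.e (nat_lit 172106) (nat_lit 10) (.e (nat_lit 434231) (nat_lit 23) (.e (nat_lit 532529) (nat_lit 9) (.e (nat_lit 336258) (nat_lit 15) (.e (nat_lit 3590) (nat_lit 224) (.e (nat_lit 753693) (nat_lit 13) .nil)))))))) (.g (nat_lit 4) .nil .nil))) 
(.lf (nat_lit 42789) (.g (nat_lit 4257) (.e (nat_lit 1239) (nat_lit 91) (.e (nat_lit 90170) (nat_lit 13) (.e (nat_lit 172106) (nat_lit 10) (.e (nat_lit 434231) (nat_lit 23) (.e (nat_lit 532535) (nat_lit 9) (.e (nat_lit 335903) (nat_lit 0) (.e (nat_lit 1938) (nat_lit 132) (.e (nat_lit 622601) (nat_lit 5) .nil)))))))) (.g (nat_lit 5) .nil .nil)))) (.nd (nat_lit 5) 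
(.lf (nat_lit 42773) (.g (nat_lit 4230) (.e (nat_lit 1239) (nat_lit 91) (.e (nat_lit 90170) (nat_lit 13) (.e (nat_lit 172106) (nat_lit 10) (.e (nat_lit 434231) (nat_lit 23) (.e (nat_lit 532535) (nat_lit 9) (.e (nat_lit 335900) (nat_lit 0) (.e (nat_lit 1937) (nat_lit 132) (.e (nat_lit 622598) (nat_lit 5) .nil)))))))) (.g (nat_lit 5) .nil .nil))) 
(.lf (nat_lit 42805) (.g (nat_lit 2757) (.e (nat_lit 1239) (nat_lit 91) (.e (nat_lit 90170) (nat_lit 13) (.e (nat_lit 172106) (nat_lit 10) (.e (nat_lit 434231) (nat_lit 23) (.e (nat_lit 532535) (nat_lit 9) (.e (nat_lit 335905) (nat_lit 0) (.e (nat_lit 973) (nat_lit 81) (.e (nat_lit 4805) (nat_lit 281) (.e (nat_lit 1008) (nat_lit 81) .nil))))))))) (.g (nat_lit 4) .nil .nil))))) 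
(.nd (nat_lit 4) (.nd (nat_lit 5) 
(.lf (nat_lit 42765) (.g (nat_lit 2593) (.e (nat_lit 1239) (nat_lit 91) (.e (nat_lit 90170) (nat_lit 13) (.e (nat_lit 172106) (nat_lit 10) (.e (nat_lit 434231) (nat_lit 23) (.e (nat_lit 532529) (nat_lit 9) (.e (nat_lit 336297) (nat_lit 15) (.e (nat_lit 3588) (nat_lit 224) (.e (nat_lit 753694) (nat_lit 13) .nil)))))))) (.g (nat_lit 4) .nil .nil))) 
(.lf (nat_lit 42797) (.g (nat_lit 4008) (.e (nat_lit 1239) (nat_lit 91) (.e (nat_lit 90170) (nat_lit 13) (.e (nat_lit 172106) (nat_lit 10) (.e (nat_lit 434231) (nat_lit 23) (.e (nat_lit 532535) (nat_lit 9) (.e (nat_lit 335904) (nat_lit 0) (.e (nat_lit 1938) (nat_lit 132) (.e (nat_lit 622598) (nat_lit 5) .nil)))))))) (.g (nat_lit 5) .nil .nil)))) (.nd (nat_lit 5) 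
(.lf (nat_lit 42781) (.g (nat_lit 5315) (.e (nat_lit 1239) (nat_lit 91) (.e (nat_lit 90170) (nat_lit 13) (.e (nat_lit 172106) (nat_lit 10) (.e (nat_lit 434231) (nat_lit 23) (.e (nat_lit 532535) (nat_lit 9) (.e (nat_lit 335900) (nat_lit 0) (.e (nat_lit 7936) (nat_lit 132) (.e (nat_lit 622598) (nat_lit 5) .nil)))))))) (.g (nat_lit 5) .nil .nil))) 
(.lf (nat_lit 42813) (.g (nat_lit 3425) (.e (nat_lit 1239) (nat_lit 91) (.e (nat_lit 90170) (nat_lit 13) (.e (nat_lit 172106) (nat_lit 10) (.e (nat_lit 434231) (nat_lit 23) (.e (nat_lit 532535) (nat_lit 9) (.e (nat_lit 335908) (nat_lit 0) (.e (nat_lit 7936) (nat_lit 132) (.e (nat_lit 622598) (nat_lit 5) .nil)))))))) (.g (nat_lit 5) .nil .nil))))))) 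
(.nd (nat_lit 2) (.nd (nat_lit 3) (.nd (nat_lit 4) (.nd (nat_lit 5) 
(.lf (nat_lit 42755) (.g (nat_lit 2670) (.e (nat_lit 1239) (nat_lit 91) (.e (nat_lit 90170) (nat_lit 13) (.e (nat_lit 172106) (nat_lit 10) (.e (nat_lit 434231) (nat_lit 23) (.e (nat_lit 532529) (nat_lit 9) (.e (nat_lit 336258) (nat_lit 15) (.e (nat_lit 3588) (nat_lit 224) (.e (nat_lit 753694) (nat_lit 13) .nil)))))))) (.g (nat_lit 4) .nil .nil))) 
(.lf (nat_lit 42787) (.g (nat_lit 4964) (.e (nat_lit 1239) (nat_lit 91) (.e (nat_lit 90170) (nat_lit 13) (.e (nat_lit 172106) (nat_lit 10) (.e (nat_lit 434231) (nat_lit 23) (.e (nat_lit 532535) (nat_lit 9) (.e (nat_lit 335903) (nat_lit 0) (.e (nat_lit 1937) (nat_lit 132) (.e (nat_lit 622602) (nat_lit 5) .nil)))))))) (.g (nat_lit 5) .nil .nil)))) (.nd (nat_lit 5) 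
(.lf (nat_lit 42771) (.g (nat_lit 4087) (.e (nat_lit 1239) (nat_lit 91) (.e (nat_lit 90170) (nat_lit 13) (.e (nat_lit 172106) (nat_lit 10) (.e (nat_lit 434231) (nat_lit 23) (.e (nat_lit 532535) (nat_lit 9) (.e (nat_lit 335900) (nat_lit 0) (.e (nat_lit 1936) (nat_lit 132) (.e (nat_lit 622598) (nat_lit 5) .nil)))))))) (.g (nat_lit 5) .nil .nil))) 
(.lf (nat_lit 42803) (.g (nat_lit 2451) (.e (nat_lit 1239) (nat_lit 91) (.e (nat_lit 90170) (nat_lit 13) (.e (nat_lit 172106) (nat_lit 10) (.e (nat_lit 434231) (nat_lit 23) (.e (nat_lit 532535) (nat_lit 9) (.e (nat_lit 335905) (nat_lit 0) (.e (nat_lit 972) (nat_lit 81) (.e (nat_lit 4751) (nat_lit 281) (.e (nat_lit 999) (nat_lit 81) .nil))))))))) (.g (nat_lit 5) .nil .nil))))) 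
(.nd (nat_lit 4) (.nd (nat_lit 5) 
(.lf (nat_lit 42763) (.g (nat_lit 3163) (.e (nat_lit 1239) (nat_lit 91) (.e (nat_lit 90170) (nat_lit 13) (.e (nat_lit 172106) (nat_lit 10) (.e (nat_lit 434231) (nat_lit 23) (.e (nat_lit 532529) (nat_lit 9) (.e (nat_lit 336261) (nat_lit 15) (.e (nat_lit 3588) (nat_lit 224) (.e (nat_lit 753694) (nat_lit 13) .nil)))))))) (.g (nat_lit 4) .nil .nil))) 
(.lf (nat_lit 42795) (.g (nat_lit 3953) (.e (nat_lit 1239) (nat_lit 91) (.e (nat_lit 90170) (nat_lit 13) (.e (nat_lit 172106) (nat_lit 10) (.e (nat_lit 434231) (nat_lit 23) (.e (nat_lit 532535) (nat_lit 9) (.e (nat_lit 335904) (nat_lit 0) (.e (nat_lit 1937) (nat_lit 132) (.e (nat_lit 622598) (nat_lit 5) .nil)))))))) (.g (nat_lit 5) .nil .nil)))) (.nd (nat_lit 5) 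
(.lf (nat_lit 42779) (.g (nat_lit 4797) (.e (nat_lit 1239) (nat_lit 91) (.e (nat_lit 90170) (nat_lit 13) (.e (nat_lit 172106) (nat_lit 10) (.e (nat_lit 434231) (nat_lit 23) (.e (nat_lit 532535) (nat_lit 9) (.e (nat_lit 335900) (nat_lit 0) (.e (nat_lit 1942) (nat_lit 132) (.e (nat_lit 622601) (nat_lit 5) .nil)))))))) (.g (nat_lit 5) .nil .nil))) 
(.lf (nat_lit 42811) (.g (nat_lit 2598) (.e (nat_lit 1239) (nat_lit 91) (.e (nat_lit 90170) (nat_lit 13) (.e (nat_lit 172106) (nat_lit 10) (.e (nat_lit 434231) (nat_lit 23) (.e (nat_lit 532535) (nat_lit 9) (.e (nat_lit 335905) (nat_lit 0) (.e (nat_lit 7936) (nat_lit 132) (.e (nat_lit 622602) (nat_lit 5) .nil)))))))) (.g (nat_lit 5) .nil .nil)))))) 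
(.nd (nat_lit 3) (.nd (nat_lit 4) (.nd (nat_lit 5) 
(.lf (nat_lit 42759) (.g (nat_lit 2657) (.e (nat_lit 1239) (nat_lit 91) (.e (nat_lit 90170) (nat_lit 13) (.e (nat_lit 172106) (nat_lit 10) (.e (nat_lit 434231) (nat_lit 23) (.e (nat_lit 532529) (nat_lit 9) (.e (nat_lit 336259) (nat_lit 15) (.e (nat_lit 3588) (nat_lit 224) (.e (nat_lit 753693) (nat_lit 13) .nil)))))))) (.g (nat_lit 4) .nil .nil))) 
(.lf (nat_lit 42791) (.g (nat_lit 4170) (.e (nat_lit 1239) (nat_lit 91) (.e (nat_lit 90170) (nat_lit 13) (.e (nat_lit 172106) (nat_lit 10) (.e (nat_lit 434231) (nat_lit 23) (.e (nat_lit 532535) (nat_lit 9) (.e (nat_lit 335903) (nat_lit 0) (.e (nat_lit 1942) (nat_lit 132) (.e (nat_lit 622598) (nat_lit 5) .nil)))))))) (.g (nat_lit 5) .nil .nil)))) (.nd (nat_lit 5) 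
(.lf (nat_lit 42775) (.g (nat_lit 4170) (.e (nat_lit 1239) (nat_lit 91) (.e (nat_lit 90170) (nat_lit 13) (.e (nat_lit 172106) (nat_lit 10) (.e (nat_lit 434231) (nat_lit 23) (.e (nat_lit 532535) (nat_lit 9) (.e (nat_lit 335900) (nat_lit 0) (.e (nat_lit 1938) (nat_lit 132) (.e (nat_lit 622601) (nat_lit 5) .nil)))))))) (.g (nat_lit 5) .nil .nil))) 
(.lf (nat_lit 42807) (.g (nat_lit 2689) (.e (nat_lit 1239) (nat_lit 91) (.e (nat_lit 90170) (nat_lit 13) (.e (nat_lit 172106) (nat_lit 10) (.e (nat_lit 434231) (nat_lit 23) (.e (nat_lit 532535) (nat_lit 9) (.e (nat_lit 335905) (nat_lit 0) (.e (nat_lit 1934) (nat_lit 132) (.e (nat_lit 622599) (nat_lit 5) .nil)))))))) (.g (nat_lit 4) .nil .nil))))) (.nd (nat_lit 4) (.nd (nat_lit 5) 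
(.lf (nat_lit 42767) (.g (nat_lit 2246) (.e (nat_lit 1239) (nat_lit 91) (.e (nat_lit 90170) (nat_lit 13) (.e (nat_lit 172106) (nat_lit 10) (.e (nat_lit 434231) (nat_lit 23) (.e (nat_lit 532535) (nat_lit 9) (.e (nat_lit 335886) (nat_lit 0) (.e (nat_lit 1936) (nat_lit 132) (.e (nat_lit 622602) (nat_lit 5) .nil)))))))) (.g (nat_lit 4) .nil .nil))) 
(.lf (nat_lit 42799) (.g (nat_lit 4043) (.e (nat_lit 1239) (nat_lit 91) (.e (nat_lit 90170) (nat_lit 13) (.e (nat_lit 172106) (nat_lit 10) (.e (nat_lit 434231) (nat_lit 23) (.e (nat_lit 532535) (nat_lit 9) (.e (nat_lit 335904) (nat_lit 0) (.e (nat_lit 1938) (nat_lit 132) (.e (nat_lit 622602) (nat_lit 5) .nil)))))))) (.g (nat_lit 5) .nil .nil)))) (.nd (nat_lit 5) 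
(.lf (nat_lit 42783) (.g (nat_lit 4015) (.e (nat_lit 1239) (nat_lit 91) (.e (nat_lit 90170) (nat_lit 13) (.e (nat_lit 172106) (nat_lit 10) (.e (nat_lit 434231) (nat_lit 23) (.e (nat_lit 532535) (nat_lit 9) (.e (nat_lit 335902) (nat_lit 0) (.e (nat_lit 1942) (nat_lit 132) (.e (nat_lit 622598) (nat_lit 5) .nil)))))))) (.g (nat_lit 5) .nil .nil))) 
(.lf (nat_lit 42815) (.g (nat_lit 2859) (.e (nat_lit 1239) (nat_lit 91) (.e (nat_lit 90170) (nat_lit 13) (.e (nat_lit 172106) (nat_lit 10) (.e (nat_lit 434231) (nat_lit 23) (.e (nat_lit 532535) (nat_lit 9) (.e (nat_lit 335909) (nat_lit 0) (.e (nat_lit 1937) (nat_lit 132) (.e (nat_lit 622602) (nat_lit 5) .nil)))))))) (.g (nat_lit 5) .nil .nil)))))))))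

noncomputable def tv596 : DT := (.nd (nat_lit 0) (.nd (nat_lit 1) (.nd (nat_lit 2) (.nd (nat_lit 3) (.nd (nat_lit 4) (.nd (nat_lit 5) 
(.lf (nat_lit 42816) (.g (nat_lit 2321) (.e (nat_lit 1239) (nat_lit 91) (.e (nat_lit 90170) (nat_lit 13) (.e (nat_lit 172106) (nat_lit 10) (.e (nat_lit 434231) (nat_lit 23) (.e (nat_lit 532535) (nat_lit 9) (.e (nat_lit 335909) (nat_lit 0) (.e (nat_lit 1938) (nat_lit 132) (.e (nat_lit 622601) (nat_lit 5) .nil)))))))) (.g (nat_lit 4) .nil .nil))) 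
(.lf (nat_lit 42848) (.g (nat_lit 4206) (.e (nat_lit 1239) (nat_lit 91) (.e (nat_lit 90170) (nat_lit 13) (.e (nat_lit 172106) (nat_lit 10) (.e (nat_lit 434231) (nat_lit 23) (.e (nat_lit 532535) (nat_lit 9) (.e (nat_lit 335922) (nat_lit 0) (.e (nat_lit 992) (nat_lit 81) (.e (nat_lit 4780) (nat_lit 281) (.e (nat_lit 1011) (nat_lit 81) .nil))))))))) (.g (nat_lit 5) .nil .nil)))) (.nd (nat_lit 5) 
(.lf (nat_lit 42832) (.g (nat_lit 3889) (.e (nat_lit 1239) (nat_lit 91) (.e (nat_lit 90170) (nat_lit 13) (.e (nat_lit 172106) (nat_lit 10) (.e (nat_lit 434231) (nat_lit 23) (.e (nat_lit 532535) (nat_lit 9) (.e (nat_lit 335921) (nat_lit 0) (.e (nat_lit 988) (nat_lit 81) (.e (nat_lit 4780) (nat_lit 281) (.e (nat_lit 1010) (nat_lit 81) .nil))))))))) (.g (nat_lit 5) .nil .nil))) 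
(.lf (nat_lit 42864) (.g (nat_lit 2904) (.e (nat_lit 1239) (nat_lit 91) (.e (nat_lit 90170) (nat_lit 13) (.e (nat_lit 172106) (nat_lit 10) (.e (nat_lit 434231) (nat_lit 23) (.e (nat_lit 532535) (nat_lit 9) (.e (nat_lit 335925) (nat_lit 0) (.e (nat_lit 1936) (nat_lit 132) (.e (nat_lit 622601) (nat_lit 5) .nil)))))))) (.g (nat_lit 5) .nil .nil))))) (.nd (nat_lit 4) (.nd (nat_lit 5) 
(.lf (nat_lit 42824) (.g (nat_lit 3968) (.e (nat_lit 1239) (nat_lit 91) (.e (nat_lit 90170) (nat_lit 13) (.e (nat_lit 172106) (nat_lit 10) (.e (nat_lit 434231) (nat_lit 23) (.e (nat_lit 532535) (nat_lit 9) (.e (nat_lit 335920) (nat_lit 0) (.e (nat_lit 988) (nat_lit 81) (.e (nat_lit 4780) (nat_lit 281) (.e (nat_lit 1011) (nat_lit 81) .nil))))))))) (.g (nat_lit 5) .nil .nil))) 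
(.lf (nat_lit 42856) (.g (nat_lit 2637) (.e (nat_lit 1239) (nat_lit 91) (.e (nat_lit 90170) (nat_lit 13) (.e (nat_lit 172106) (nat_lit 10) (.e (nat_lit 434231) (nat_lit 23) (.e (nat_lit 532535) (nat_lit 9) (.e (nat_lit 335925) (nat_lit 0) (.e (nat_lit 989) (nat_lit 81) (.e (nat_lit 4752) (nat_lit 281) (.e (nat_lit 999) (nat_lit 81) .nil))))))))) (.g (nat_lit 5) .nil .nil)))) (.nd (nat_lit 5) 
(.lf (nat_lit 42840) (.g (nat_lit 4360) (.e (nat_lit 1239) (nat_lit 91) (.e (nat_lit 90170) (nat_lit 13) (.e (nat_lit 172106) (nat_lit 10) (.e (nat_lit 434231) (nat_lit 23) (.e (nat_lit 532535) (nat_lit 9) (.e (nat_lit 335921) (nat_lit 0) (.e (nat_lit 1936) (nat_lit 132) (.e (nat_lit 622602) (nat_lit 5) .nil)))))))) (.g (nat_lit 5) .nil .nil))) 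
(.lf (nat_lit 42872) (.g (nat_lit 3608) (.e (nat_lit 1239) (nat_lit 91) (.e (nat_lit 90170) (nat_lit 13) (.e (nat_lit 172106) (nat_lit 10) (.e (nat_lit 434231) (nat_lit 23) (.e (nat_lit 532535) (nat_lit 9) (.e (nat_lit 335925) (nat_lit 0) (.e (nat_lit 1941) (nat_lit 132) (.e (nat_lit 622600) (nat_lit 5) .nil)))))))) (.g (nat_lit 6) .nil .nil)))))) 
(.nd (nat_lit 3) (.nd (nat_lit 4) (.nd (nat_lit 5) 
(.lf (nat_lit 42820) (.g (nat_lit 3896) (.e (nat_lit 1239) (nat_lit 91) (.e (nat_lit 90170) (nat_lit 13) (.e (nat_lit 172106) (nat_lit 10) (.e (nat_lit 434231) (nat_lit 23) (.e (nat_lit 532535) (nat_lit 9) (.e (nat_lit 335919) (nat_lit 0) (.e (nat_lit 1936) (nat_lit 132) (.e (nat_lit 622601) (nat_lit 5) .nil)))))))) (.g (nat_lit 5) .nil .nil))) 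
(.lf (nat_lit 42852) (.g (nat_lit 4234) (.e (nat_lit 1239) (nat_lit 91) (.e (nat_lit 90170) (nat_lit 13) (.e (nat_lit 172106) (nat_lit 10) (.e (nat_lit 434231) (nat_lit 23) (.e (nat_lit 532535) (nat_lit 9) (.e (nat_lit 335922) (nat_lit 0) (.e (nat_lit 1936) (nat_lit 132) (.e (nat_lit 622602) (nat_lit 5) .nil)))))))) (.g (nat_lit 5) .nil .nil)))) (.nd (nat_lit 5) 
(.lf (nat_lit 42836) (.g (nat_lit 4246) (.e (nat_lit 1239) (nat_lit 91) (.e (nat_lit 90170) (nat_lit 13) (.e (nat_lit 172106) (nat_lit 10) (.e (nat_lit 434231) (nat_lit 23) (.e (nat_lit 532535) (nat_lit 9) (.e (nat_lit 335921) (nat_lit 0) (.e (nat_lit 993) (nat_lit 81) (.e (nat_lit 4780) (nat_lit 281) (.e (nat_lit 1011) (nat_lit 81) .nil))))))))) (.g (nat_lit 5) .nil .nil))) 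
(.lf (nat_lit 42868) (.g (nat_lit 3776) (.e (nat_lit 1239) (nat_lit 91) (.e (nat_lit 90170) (nat_lit 13) (.e (nat_lit 172106) (nat_lit 10) (.e (nat_lit 434231) (nat_lit 23) (.e (nat_lit 532535) (nat_lit 9) (.e (nat_lit 335925) (nat_lit 0) (.e (nat_lit 1940) (nat_lit 132) (.e (nat_lit 622601) (nat_lit 5) .nil)))))))) (.g (nat_lit 6) .nil .nil))))) (.nd (nat_lit 4) (.nd (nat_lit 5) 
(.lf (nat_lit 42828) (.g (nat_lit 4157) (.e (nat_lit 1239) (nat_lit 91) (.e (nat_lit 90170) (nat_lit 13) (.e (nat_lit 172106) (nat_lit 10) (.e (nat_lit 434231) (nat_lit 23) (.e (nat_lit 532535) (nat_lit 9) (.e (nat_lit 335920) (nat_lit 0) (.e (nat_lit 1936) (nat_lit 132) (.e (nat_lit 622602) (nat_lit 5) .nil)))))))) (.g (nat_lit 5) .nil .nil))) 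
(.lf (nat_lit 42860) (.g (nat_lit 2827) (.e (nat_lit 1239) (nat_lit 91) (.e (nat_lit 90170) (nat_lit 13) (.e (nat_lit 172106) (nat_lit 10) (.e (nat_lit 434231) (nat_lit 23) (.e (nat_lit 532535) (nat_lit 9) (.e (nat_lit 335925) (nat_lit 0) (.e (nat_lit 1015) (nat_lit 81) (.e (nat_lit 4780) (nat_lit 281) (.e (nat_lit 1010) (nat_lit 81) .nil))))))))) (.g (nat_lit 4) .nil .nil)))) (.nd (nat_lit 5) 
(.lf (nat_lit 42844) (.g (nat_lit 4302) (.e (nat_lit 1239) (nat_lit 91) (.e (nat_lit 90170) (nat_lit 13) (.e (nat_lit 172106) (nat_lit 10) (.e (nat_lit 434231) (nat_lit 23) (.e (nat_lit 532535) (nat_lit 9) (.e (nat_lit 335921) (nat_lit 0) (.e (nat_lit 1940) (nat_lit 132) (.e (nat_lit 622600) (nat_lit 5) .nil)))))))) (.g (nat_lit 5) .nil .nil))) 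
(.lf (nat_lit 42876) (.g (nat_lit 3961) (.e (nat_lit 1239) (nat_lit 91) (.e (nat_lit 90170) (nat_lit 13) (.e (nat_lit 172106) (nat_lit 10) (.e (nat_lit 434231) (nat_lit 23) (.e (nat_lit 532535) (nat_lit 9) (.e (nat_lit 335927) (nat_lit 0) (.e (nat_lit 1936) (nat_lit 132) (.e (nat_lit 622602) (nat_lit 5) .nil)))))))) (.g (nat_lit 5) .nil .nil))))))) 
(.nd (nat_lit 2) (.nd (nat_lit 3) (.nd (nat_lit 4) (.nd (nat_lit 5) 
(.lf (nat_lit 42818) (.g (nat_lit 2302) (.e (nat_lit 1239) (nat_lit 91) (.e (nat_lit 90170) (nat_lit 13) (.e (nat_lit 172106) (nat_lit 10) (.e (nat_lit 434231) (nat_lit 23) (.e (nat_lit 532535) (nat_lit 9) (.e (nat_lit 335909) (nat_lit 0) (.e (nat_lit 7936) (nat_lit 132) (.e (nat_lit 622600) (nat_lit 5) .nil)))))))) (.g (nat_lit 4) .nil .nil))) 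
(.lf (nat_lit 42850) (.g (nat_lit 3913) (.e (nat_lit 1239) (nat_lit 91) (.e (nat_lit 90170) (nat_lit 13) (.e (nat_lit 172106) (nat_lit 10) (.e (nat_lit 434231) (nat_lit 23) (.e (nat_lit 532535) (nat_lit 9) (.e (nat_lit 335922) (nat_lit 0) (.e (nat_lit 1936) (nat_lit 132) (.e (nat_lit 622600) (nat_lit 5) .nil)))))))) (.g (nat_lit 5) .nil .nil)))) (.nd (nat_lit 5) 
(.lf (nat_lit 42834) (.g (nat_lit 4198) (.e (nat_lit 1239) (nat_lit 91) (.e (nat_lit 90170) (nat_lit 13) (.e (nat_lit 172106) (nat_lit 10) (.e (nat_lit 434231) (nat_lit 23) (.e (nat_lit 532535) (nat_lit 9) (.e (nat_lit 335921) (nat_lit 0) (.e (nat_lit 992) (nat_lit 81) (.e (nat_lit 4780) (nat_lit 281) (.e (nat_lit 1010) (nat_lit 81) .nil))))))))) (.g (nat_lit 5) .nil .nil))) 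
(.lf (nat_lit 42866) (.g (nat_lit 4030) (.e (nat_lit 1239) (nat_lit 91) (.e (nat_lit 90170) (nat_lit 13) (.e (nat_lit 172106) (nat_lit 10) (.e (nat_lit 434231) (nat_lit 23) (.e (nat_lit 532535) (nat_lit 9) (.e (nat_lit 335925) (nat_lit 0) (.e (nat_lit 1940) (nat_lit 132) (.e (nat_lit 622598) (nat_lit 5) .nil)))))))) (.g (nat_lit 6) .nil .nil))))) (.nd (nat_lit 4) (.nd (nat_lit 5) 
(.lf (nat_lit 42826) (.g (nat_lit 4284) (.e (nat_lit 1239) (nat_lit 91) (.e (nat_lit 90170) (nat_lit 13) (.e (nat_lit 172106) (nat_lit 10) (.e (nat_lit 434231) (nat_lit 23) (.e (nat_lit 532535) (nat_lit 9) (.e (nat_lit 335920) (nat_lit 0) (.e (nat_lit 1936) (nat_lit 132) (.e (nat_lit 622598) (nat_lit 5) .nil)))))))) (.g (nat_lit 5) .nil .nil))) 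
(.lf (nat_lit 42858) (.g (nat_lit 2916) (.e (nat_lit 1239) (nat_lit 91) (.e (nat_lit 90170) (nat_lit 13) (.e (nat_lit 172106) (nat_lit 10) (.e (nat_lit 434231) (nat_lit 23) (.e (nat_lit 532535) (nat_lit 9) (.e (nat_lit 335925) (nat_lit 0) (.e (nat_lit 993) (nat_lit 81) (.e (nat_lit 4761) (nat_lit 281) (.e (nat_lit 974) (nat_lit 81) .nil))))))))) (.g (nat_lit 5) .nil .nil)))) (.nd (nat_lit 5) 
(.lf (nat_lit 42842) (.g (nat_lit 4903) (.e (nat_lit 1239) (nat_lit 91) (.e (nat_lit 90170) (nat_lit 13) (.e (nat_lit 172106) (nat_lit 10) (.e (nat_lit 434231) (nat_lit 23) (.e (nat_lit 532535) (nat_lit 9) (.e (nat_lit 335921) (nat_lit 0) (.e (nat_lit 1940) (nat_lit 132) (.e (nat_lit 622598) (nat_lit 5) .nil)))))))) (.g (nat_lit 5) .nil .nil))) 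
(.lf (nat_lit 42874) (.g (nat_lit 4223) (.e (nat_lit 1239) (nat_lit 91) (.e (nat_lit 90170) (nat_lit 13) (.e (nat_lit 172106) (nat_lit 10) (.e (nat_lit 434231) (nat_lit 23) (.e (nat_lit 532535) (nat_lit 9) (.e (nat_lit 335925) (nat_lit 0) (.e (nat_lit 1941) (nat_lit 132) (.e (nat_lit 622602) (nat_lit 5) .nil)))))))) (.g (nat_lit 0) .nil .nil)))))) 
(.nd (nat_lit 3) (.nd (nat_lit 4) (.nd (nat_lit 5) 
(.lf (nat_lit 42822) (.g (nat_lit 4056) (.e (nat_lit 1239) (nat_lit 91) (.e (nat_lit 90170) (nat_lit 13) (.e (nat_lit 172106) (nat_lit 10) (.e (nat_lit 434231) (nat_lit 23) (.e (nat_lit 532535) (nat_lit 9) (.e (nat_lit 335919) (nat_lit 0) (.e (nat_lit 1940) (nat_lit 132) (.e (nat_lit 622598) (nat_lit 5) .nil)))))))) (.g (nat_lit 5) .nil .nil))) 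
(.lf (nat_lit 42854) (.g (nat_lit 4448) (.e (nat_lit 1239) (nat_lit 91) (.e (nat_lit 90170) (nat_lit 13) (.e (nat_lit 172106) (nat_lit 10) (.e (nat_lit 434231) (nat_lit 23) (.e (nat_lit 532535) (nat_lit 9) (.e (nat_lit 335922) (nat_lit 0) (.e (nat_lit 1940) (nat_lit 132) (.e (nat_lit 622599) (nat_lit 5) .nil)))))))) (.g (nat_lit 5) .nil .nil)))) (.nd (nat_lit 5) 
(.lf (nat_lit 42838) (.g (nat_lit 4039) (.e (nat_lit 1239) (nat_lit 91) (.e (nat_lit 90170) (nat_lit 13) (.e (nat_lit 172106) (nat_lit 10) (.e (nat_lit 434231) (nat_lit 23) (.e (nat_lit 532535) (nat_lit 9) (.e (nat_lit 335921) (nat_lit 0) (.e (nat_lit 1936) (nat_lit 132) (.e (nat_lit 622600) (nat_lit 5) .nil)))))))) (.g (nat_lit 5) .nil .nil))) 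
(.lf (nat_lit 42870) (.g (nat_lit 4248) (.e (nat_lit 1239) (nat_lit 91) (.e (nat_lit 90170) (nat_lit 13) (.e (nat_lit 172106) (nat_lit 10) (.e (nat_lit 434231) (nat_lit 23) (.e (nat_lit 532535) (nat_lit 9) (.e (nat_lit 335925) (nat_lit 0) (.e (nat_lit 1941) (nat_lit 132) (.e (nat_lit 622598) (nat_lit 5) .nil)))))))) (.g (nat_lit 8) .nil .nil))))) (.nd (nat_lit 4) (.nd (nat_lit 5) 
(.lf (nat_lit 42830) (.g (nat_lit 4388) (.e (nat_lit 1239) (nat_lit 91) (.e (nat_lit 90170) (nat_lit 13) (.e (nat_lit 172106) (nat_lit 10) (.e (nat_lit 434231) (nat_lit 23) (.e (nat_lit 532535) (nat_lit 9) (.e (nat_lit 335920) (nat_lit 0) (.e (nat_lit 1940) (nat_lit 132) (.e (nat_lit 622599) (nat_lit 5) .nil)))))))) (.g (nat_lit 5) .nil .nil))) 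
(.lf (nat_lit 42862) (.g (nat_lit 3287) (.e (nat_lit 1239) (nat_lit 91) (.e (nat_lit 90170) (nat_lit 13) (.e (nat_lit 172106) (nat_lit 10) (.e (nat_lit 434231) (nat_lit 23) (.e (nat_lit 532535) (nat_lit 9) (.e (nat_lit 335925) (nat_lit 0) (.e (nat_lit 1936) (nat_lit 132) (.e (nat_lit 622598) (nat_lit 5) .nil)))))))) (.g (nat_lit 5) .nil .nil)))) (.nd (nat_lit 5) 
(.lf (nat_lit 42846) (.g (nat_lit 4363) (.e (nat_lit 1239) (nat_lit 91) (.e (nat_lit 90170) (nat_lit 13) (.e (nat_lit 172106) (nat_lit 10) (.e (nat_lit 434231) (nat_lit 23) (.e (nat_lit 532535) (nat_lit 9) (.e (nat_lit 335921) (nat_lit 0) (.e (nat_lit 1940) (nat_lit 132) (.e (nat_lit 622602) (nat_lit 5) .nil)))))))) (.g (nat_lit 5) .nil .nil))) 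
(.lf (nat_lit 42878) (.g (nat_lit 2889) (.e (nat_lit 1239) (nat_lit 91) (.e (nat_lit 90170) (nat_lit 13) (.e (nat_lit 172106) (nat_lit 10) (.e (nat_lit 434231) (nat_lit 23) (.e (nat_lit 532535) (nat_lit 9) (.e (nat_lit 335928) (nat_lit 0) (.e (nat_lit 1939) (nat_lit 132) (.e (nat_lit 622598) (nat_lit 5) .nil)))))))) (.g (nat_lit 6) .nil .nil)))))))) 
(.nd (nat_lit 1) (.nd (nat_lit 2) (.nd (nat_lit 3) (.nd (nat_lit 4) (.nd (nat_lit 5) 
(.lf (nat_lit 42817) (.g (nat_lit 2709) (.e (nat_lit 1239) (nat_lit 91) (.e (nat_lit 90170) (nat_lit 13) (.e (nat_lit 172106) (nat_lit 10) (.e (nat_lit 434231) (nat_lit 23) (.e (nat_lit 532535) (nat_lit 9) (.e (nat_lit 335909) (nat_lit 0) (.e (nat_lit 7936) (nat_lit 132) (.e (nat_lit 622598) (nat_lit 5) .nil)))))))) (.g (nat_lit 4) .nil .nil))) 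
(.lf (nat_lit 42849) (.g (nat_lit 4361) (.e (nat_lit 1239) (nat_lit 91) (.e (nat_lit 90170) (nat_lit 13) (.e (nat_lit 172106) (nat_lit 10) (.e (nat_lit 434231) (nat_lit 23) (.e (nat_lit 532535) (nat_lit 9) (.e (nat_lit 335922) (nat_lit 0) (.e (nat_lit 1936) (nat_lit 132) (.e (nat_lit 622598) (nat_lit 5) .nil)))))))) (.g (nat_lit 5) .nil .nil)))) (.nd (nat_lit 5) 
(.lf (nat_lit 42833) (.g (nat_lit 4472) (.e (nat_lit 1239) (nat_lit 91) (.e (nat_lit 90170) (nat_lit 13) (.e (nat_lit 172106) (nat_lit 10) (.e (nat_lit 434231) (nat_lit 23) (.e (nat_lit 532535) (nat_lit 9) (.e (nat_lit 335921) (nat_lit 0) (.e (nat_lit 988) (nat_lit 81) (.e (nat_lit 4780) (nat_lit 281) (.e (nat_lit 1011) (nat_lit 81) .nil))))))))) (.g (nat_lit 5) .nil .nil))) 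
(.lf (nat_lit 42865) (.g (nat_lit 3160) (.e (nat_lit 1239) (nat_lit 91) (.e (nat_lit 90170) (nat_lit 13) (.e (nat_lit 172106) (nat_lit 10) (.e (nat_lit 434231) (nat_lit 23) (.e (nat_lit 532535) (nat_lit 9) (.e (nat_lit 335925) (nat_lit 0) (.e (nat_lit 1936) (nat_lit 132) (.e (nat_lit 622602) (nat_lit 5) .nil)))))))) (.g (nat_lit 5) .nil .nil))))) (.nd (nat_lit 4) (.nd (nat_lit 5) 
(.lf (nat_lit 42825) (.g (nat_lit 4287) (.e (nat_lit 1239) (nat_lit 91) (.e (nat_lit 90170) (nat_lit 13) (.e (nat_lit 172106) (nat_lit 10) (.e (nat_lit 434231) (nat_lit 23) (.e (nat_lit 532535) (nat_lit 9) (.e (nat_lit 335920) (nat_lit 0) (.e (nat_lit 992) (nat_lit 81) (.e (nat_lit 4780) (nat_lit 281) (.e (nat_lit 1011) (nat_lit 81) .nil))))))))) (.g (nat_lit 5) .nil .nil))) 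
(.lf (nat_lit 42857) (.g (nat_lit 3385) (.e (nat_lit 1239) (nat_lit 91) (.e (nat_lit 90170) (nat_lit 13) (.e (nat_lit 172106) (nat_lit 10) (.e (nat_lit 434231) (nat_lit 23) (.e (nat_lit 532535) (nat_lit 9) (.e (nat_lit 335925) (nat_lit 0) (.e (nat_lit 992) (nat_lit 81) (.e (nat_lit 4780) (nat_lit 281) (.e (nat_lit 1011) (nat_lit 81) .nil))))))))) (.g (nat_lit 5) .nil .nil)))) (.nd (nat_lit 5) 
(.lf (nat_lit 42841) (.g (nat_lit 3829) (.e (nat_lit 1239) (nat_lit 91) (.e (nat_lit 90170) (nat_lit 13) (.e (nat_lit 172106) (nat_lit 10) (.e (nat_lit 434231) (nat_lit 23) (.e (nat_lit 532535) (nat_lit 9) (.e (nat_lit 335921) (nat_lit 0) (.e (nat_lit 1939) (nat_lit 132) (.e (nat_lit 622601) (nat_lit 5) .nil)))))))) (.g (nat_lit 5) .nil .nil))) 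
(.lf (nat_lit 42873) (.g (nat_lit 3813) (.e (nat_lit 1239) (nat_lit 91) (.e (nat_lit 90170) (nat_lit 13) (.e (nat_lit 172106) (nat_lit 10) (.e (nat_lit 434231) (nat_lit 23) (.e (nat_lit 532535) (nat_lit 9) (.e (nat_lit 335925) (nat_lit 0) (.e (nat_lit 1941) (nat_lit 132) (.e (nat_lit 622601) (nat_lit 5) .nil)))))))) (.g (nat_lit 6) .nil .nil)))))) 
(.nd (nat_lit 3) (.nd (nat_lit 4) (.nd (nat_lit 5) 
(.lf (nat_lit 42821) (.g (nat_lit 4152) (.e (nat_lit 1239) (nat_lit 91) (.e (nat_lit 90170) (nat_lit 13) (.e (nat_lit 172106) (nat_lit 10) (.e (nat_lit 434231) (nat_lit 23) (.e (nat_lit 532535) (nat_lit 9) (.e (nat_lit 335919) (nat_lit 0) (.e (nat_lit 1936) (nat_lit 132) (.e (nat_lit 622602) (nat_lit 5) .nil)))))))) (.g (nat_lit 5) .nil .nil))) 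
(.lf (nat_lit 42853) (.g (nat_lit 4274) (.e (nat_lit 1239) (nat_lit 91) (.e (nat_lit 90170) (nat_lit 13) (.e (nat_lit 172106) (nat_lit 10) (.e (nat_lit 434231) (nat_lit 23) (.e (nat_lit 532535) (nat_lit 9) (.e (nat_lit 335922) (nat_lit 0) (.e (nat_lit 1940) (nat_lit 132) (.e (nat_lit 622598) (nat_lit 5) .nil)))))))) (.g (nat_lit 5) .nil .nil)))) (.nd (nat_lit 5) 
(.lf (nat_lit 42837) (.g (nat_lit 4487) (.e (nat_lit 1239) (nat_lit 91) (.e (nat_lit 90170) (nat_lit 13) (.e (nat_lit 172106) (nat_lit 10) (.e (nat_lit 434231) (nat_lit 23) (.e (nat_lit 532535) (nat_lit 9) (.e (nat_lit 335921) (nat_lit 0) (.e (nat_lit 1936) (nat_lit 132) (.e (nat_lit 622598) (nat_lit 5) .nil)))))))) (.g (nat_lit 5) .nil .nil))) 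
(.lf (nat_lit 42869) (.g (nat_lit 3490) (.e (nat_lit 1239) (nat_lit 91) (.e (nat_lit 90170) (nat_lit 13) (.e (nat_lit 172106) (nat_lit 10) (.e (nat_lit 434231) (nat_lit 23) (.e (nat_lit 532535) (nat_lit 9) (.e (nat_lit 335925) (nat_lit 0) (.e (nat_lit 1940) (nat_lit 132) (.e (nat_lit 622602) (nat_lit 5) .nil)))))))) (.g (nat_lit 5) .nil .nil))))) (.nd (nat_lit 4) (.nd (nat_lit 5) 
(.lf (nat_lit 42829) (.g (nat_lit 4214) (.e (nat_lit 1239) (nat_lit 91) (.e (nat_lit 90170) (nat_lit 13) (.e (nat_lit 172106) (nat_lit 10) (.e (nat_lit 434231) (nat_lit 23) (.e (nat_lit 532535) (nat_lit 9) (.e (nat_lit 335920) (nat_lit 0) (.e (nat_lit 1940) (nat_lit 132) (.e (nat_lit 622598) (nat_lit 5) .nil)))))))) (.g (nat_lit 5) .nil .nil))) 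
(.lf (nat_lit 42861) (.g (nat_lit 3426) (.e (nat_lit 1239) (nat_lit 91) (.e (nat_lit 90170) (nat_lit 13) (.e (nat_lit 172106) (nat_lit 10) (.e (nat_lit 434231) (nat_lit 23) (.e (nat_lit 532535) (nat_lit 9) (.e (nat_lit 335925) (nat_lit 0) (.e (nat_lit 1015) (nat_lit 81) (.e (nat_lit 4780) (nat_lit 281) (.e (nat_lit 1011) (nat_lit 81) .nil))))))))) (.g (nat_lit 5) .nil .nil)))) (.nd (nat_lit 5) 
(.lf (nat_lit 42845) (.g (nat_lit 4649) (.e (nat_lit 1239) (nat_lit 91) (.e (nat_lit 90170) (nat_lit 13) (.e (nat_lit 172106) (nat_lit 10) (.e (nat_lit 434231) (nat_lit 23) (.e (nat_lit 532535) (nat_lit 9) (.e (nat_lit 335921) (nat_lit 0) (.e (nat_lit 1940) (nat_lit 132) (.e (nat_lit 622601) (nat_lit 5) .nil)))))))) (.g (nat_lit 5) .nil .nil))) 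
(.lf (nat_lit 42877) (.g (nat_lit 3868) (.e (nat_lit 1239) (nat_lit 91) (.e (nat_lit 90170) (nat_lit 13) (.e (nat_lit 172106) (nat_lit 10) (.e (nat_lit 434231) (nat_lit 23) (.e (nat_lit 532535) (nat_lit 9) (.e (nat_lit 335927) (nat_lit 0) (.e (nat_lit 1940) (nat_lit 132) (.e (nat_lit 622599) (nat_lit 5) .nil)))))))) (.g (nat_lit 5) .nil .nil))))))) 
(.nd (nat_lit 2) (.nd (nat_lit 3) (.nd (nat_lit 4) (.nd (nat_lit 5) 
(.lf (nat_lit 42819) (.g (nat_lit 4279) (.e (nat_lit 1239) (nat_lit 91) (.e (nat_lit 90170) (nat_lit 13) (.e (nat_lit 172106) (nat_lit 10) (.e (nat_lit 434231) (nat_lit 23) (.e (nat_lit 532535) (nat_lit 9) (.e (nat_lit 335919) (nat_lit 0) (.e (nat_lit 1936) (nat_lit 132) (.e (nat_lit 622598) (nat_lit 5) .nil)))))))) (.g (nat_lit 5) .nil .nil))) 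
(.lf (nat_lit 42851) (.g (nat_lit 3978) (.e (nat_lit 1239) (nat_lit 91) (.e (nat_lit 90170) (nat_lit 13) (.e (nat_lit 172106) (nat_lit 10) (.e (nat_lit 434231) (nat_lit 23) (.e (nat_lit 532535) (nat_lit 9) (.e (nat_lit 335922) (nat_lit 0) (.e (nat_lit 1936) (nat_lit 132) (.e (nat_lit 622601) (nat_lit 5) .nil)))))))) (.g (nat_lit 5) .nil .nil)))) (.nd (nat_lit 5) 
(.lf (nat_lit 42835) (.g (nat_lit 4797) (.e (nat_lit 1239) (nat_lit 91) (.e (nat_lit 90170) (nat_lit 13) (.e (nat_lit 172106) (nat_lit 10) (.e (nat_lit 434231) (nat_lit 23) (.e (nat_lit 532535) (nat_lit 9) (.e (nat_lit 335921) (nat_lit 0) (.e (nat_lit 992) (nat_lit 81) (.e (nat_lit 4780) (nat_lit 281) (.e (nat_lit 1011) (nat_lit 81) .nil))))))))) (.g (nat_lit 5) .nil .nil))) 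
(.lf (nat_lit 42867) (.g (nat_lit 3429) (.e (nat_lit 1239) (nat_lit 91) (.e (nat_lit 90170) (nat_lit 13) (.e (nat_lit 172106) (nat_lit 10) (.e (nat_lit 434231) (nat_lit 23) (.e (nat_lit 532535) (nat_lit 9) (.e (nat_lit 335925) (nat_lit 0) (.e (nat_lit 1940) (nat_lit 132) (.e (nat_lit 622600) (nat_lit 5) .nil)))))))) (.g (nat_lit 5) .nil .nil))))) (.nd (nat_lit 4) (.nd (nat_lit 5) 
(.lf (nat_lit 42827) (.g (nat_lit 3901) (.e (nat_lit 1239) (nat_lit 91) (.e (nat_lit 90170) (nat_lit 13) (.e (nat_lit 172106) (nat_lit 10) (.e (nat_lit 434231) (nat_lit 23) (.e (nat_lit 532535) (nat_lit 9) (.e (nat_lit 335920) (nat_lit 0) (.e (nat_lit 1936) (nat_lit 132) (.e (nat_lit 622601) (nat_lit 5) .nil)))))))) (.g (nat_lit 5) .nil .nil))) 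
(.lf (nat_lit 42859) (.g (nat_lit 4208) (.e (nat_lit 1239) (nat_lit 91) (.e (nat_lit 90170) (nat_lit 13) (.e (nat_lit 172106) (nat_lit 10) (.e (nat_lit 434231) (nat_lit 23) (.e (nat_lit 532535) (nat_lit 9) (.e (nat_lit 335925) (nat_lit 0) (.e (nat_lit 993) (nat_lit 81) (.e (nat_lit 4780) (nat_lit 281) (.e (nat_lit 1010) (nat_lit 81) .nil))))))))) (.g (nat_lit 6) .nil .nil)))) (.nd (nat_lit 5) 
(.lf (nat_lit 42843) (.g (nat_lit 5077) (.e (nat_lit 1239) (nat_lit 91) (.e (nat_lit 90170) (nat_lit 13) (.e (nat_lit 172106) (nat_lit 10) (.e (nat_lit 434231) (nat_lit 23) (.e (nat_lit 532535) (nat_lit 9) (.e (nat_lit 335921) (nat_lit 0) (.e (nat_lit 1940) (nat_lit 132) (.e (nat_lit 622599) (nat_lit 5) .nil)))))))) (.g (nat_lit 5) .nil .nil))) 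
(.lf (nat_lit 42875) (.g (nat_lit 4088) (.e (nat_lit 1239) (nat_lit 91) (.e (nat_lit 90170) (nat_lit 13) (.e (nat_lit 172106) (nat_lit 10) (.e (nat_lit 434231) (nat_lit 23) (.e (nat_lit 532535) (nat_lit 9) (.e (nat_lit 335927) (nat_lit 0) (.e (nat_lit 1936) (nat_lit 132) (.e (nat_lit 622598) (nat_lit 5) .nil)))))))) (.g (nat_lit 5) .nil .nil)))))) 
(.nd (nat_lit 3) (.nd (nat_lit 4) (.nd (nat_lit 5) 
(.lf (nat_lit 42823) (.g (nat_lit 4230) (.e (nat_lit 1239) (nat_lit 91) (.e (nat_lit 90170) (nat_lit 13) (.e (nat_lit 172106) (nat_lit 10) (.e (nat_lit 434231) (nat_lit 23) (.e (nat_lit 532535) (nat_lit 9) (.e (nat_lit 335919) (nat_lit 0) (.e (nat_lit 1940) (nat_lit 132) (.e (nat_lit 622599) (nat_lit 5) .nil)))))))) (.g (nat_lit 5) .nil .nil))) 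
(.lf (nat_lit 42855) (.g (nat_lit 4020) (.e (nat_lit 1239) (nat_lit 91) (.e (nat_lit 90170) (nat_lit 13) (.e (nat_lit 172106) (nat_lit 10) (.e (nat_lit 434231) (nat_lit 23) (.e (nat_lit 532535) (nat_lit 9) (.e (nat_lit 335922) (nat_lit 0) (.e (nat_lit 1940) (nat_lit 132) (.e (nat_lit 622601) (nat_lit 5) .nil)))))))) (.g (nat_lit 5) .nil .nil)))) (.nd (nat_lit 5) 
(.lf (nat_lit 42839) (.g (nat_lit 4104) (.e (nat_lit 1239) (nat_lit 91) (.e (nat_lit 90170) (nat_lit 13) (.e (nat_lit 172106) (nat_lit 10) (.e (nat_lit 434231) (nat_lit 23) (.e (nat_lit 532535) (nat_lit 9) (.e (nat_lit 335921) (nat_lit 0) (.e (nat_lit 1936) (nat_lit 132) (.e (nat_lit 622601) (nat_lit 5) .nil)))))))) (.g (nat_lit 5) .nil .nil))) 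
(.lf (nat_lit 42871) (.g (nat_lit 3947) (.e (nat_lit 1239) (nat_lit 91) (.e (nat_lit 90170) (nat_lit 13) (.e (nat_lit 172106) (nat_lit 10) (.e (nat_lit 434231) (nat_lit 23) (.e (nat_lit 532535) (nat_lit 9) (.e (nat_lit 335925) (nat_lit 0) (.e (nat_lit 1941) (nat_lit 132) (.e (nat_lit 622599) (nat_lit 5) .nil)))))))) (.g (nat_lit 6) .nil .nil))))) (.nd (nat_lit 4) (.nd (nat_lit 5) 
(.lf (nat_lit 42831) (.g (nat_lit 3960) (.e (nat_lit 1239) (nat_lit 91) (.e (nat_lit 90170) (nat_lit 13) (.e (nat_lit 172106) (nat_lit 10) (.e (nat_lit 434231) (nat_lit 23) (.e (nat_lit 532535) (nat_lit 9) (.e (nat_lit 335920) (nat_lit 0) (.e (nat_lit 1940) (nat_lit 132) (.e (nat_lit 622601) (nat_lit 5) .nil)))))))) (.g (nat_lit 5) .nil .nil))) 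
(.lf (nat_lit 42863) (.g (nat_lit 2839) (.e (nat_lit 1239) (nat_lit 91) (.e (nat_lit 90170) (nat_lit 13) (.e (nat_lit 172106) (nat_lit 10) (.e (nat_lit 434231) (nat_lit 23) (.e (nat_lit 532535) (nat_lit 9) (.e (nat_lit 335925) (nat_lit 0) (.e (nat_lit 1936) (nat_lit 132) (.e (nat_lit 622600) (nat_lit 5) .nil)))))))) (.g (nat_lit 5) .nil .nil)))) (.nd (nat_lit 5) 
(.lf (nat_lit 42847) (.g (nat_lit 3884) (.e (nat_lit 1239) (nat_lit 91) (.e (nat_lit 90170) (nat_lit 13) (.e (nat_lit 172106) (nat_lit 10) (.e (nat_lit 434231) (nat_lit 23) (.e (nat_lit 532535) (nat_lit 9) (.e (nat_lit 335922) (nat_lit 0) (.e (nat_lit 988) (nat_lit 81) (.e (nat_lit 4780) (nat_lit 281) (.e (nat_lit 1011) (nat_lit 81) .nil))))))))) (.g (nat_lit 5) .nil .nil))) 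
(.lf (nat_lit 42879) (.g (nat_lit 3111) (.e (nat_lit 1239) (nat_lit 91) (.e (nat_lit 90170) (nat_lit 13) (.e (nat_lit 172106) (nat_lit 10) (.e (nat_lit 434231) (nat_lit 23) (.e (nat_lit 532535) (nat_lit 9) (.e (nat_lit 335928) (nat_lit 0) (.e (nat_lit 1939) (nat_lit 132) (.e (nat_lit 622599) (nat_lit 5) .nil)))))))) (.g (nat_lit 7) .nil .nil)))))))))

noncomputable def tv597 : DT := (.nd (nat_lit 0) (.nd (nat_lit 1) (.nd (nat_lit 2) (.nd (nat_lit 3) (.nd (nat_lit 4) (.nd (nat_lit 5) 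
(.lf (nat_lit 42880) (.g (nat_lit 3249) (.e (nat_lit 1239) (nat_lit 91) (.e (nat_lit 90170) (nat_lit 13) (.e (nat_lit 172106) (nat_lit 10) (.e (nat_lit 434231) (nat_lit 23) (.e (nat_lit 532535) (nat_lit 9) (.e (nat_lit 335928) (nat_lit 0) (.e (nat_lit 1941) (nat_lit 132) (.e (nat_lit 622598) (nat_lit 5) .nil)))))))) (.g (nat_lit 8) .nil .nil))) 
(.lf (nat_lit 42912) (.g (nat_lit 2779) (.e (nat_lit 1239) (nat_lit 91) (.e (nat_lit 90170) (nat_lit 13) (.e (nat_lit 172106) (nat_lit 10) (.e (nat_lit 434231) (nat_lit 23) (.e (nat_lit 532535) (nat_lit 9) (.e (nat_lit 336295) (nat_lit 15) (.e (nat_lit 2444) (nat_lit 157) (.e (nat_lit 6883) (nat_lit 371) (.e (nat_lit 1009) (nat_lit 81) .nil))))))))) (.g (nat_lit 4) .nil .nil)))) (.nd (nat_lit 5) 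
(.lf (nat_lit 42896) (.g (nat_lit 3968) (.e (nat_lit 1239) (nat_lit 91) (.e (nat_lit 90170) (nat_lit 13) (.e (nat_lit 172106) (nat_lit 10) (.e (nat_lit 434231) (nat_lit 23) (.e (nat_lit 532535) (nat_lit 9) (.e (nat_lit 335937) (nat_lit 0) (.e (nat_lit 1939) (nat_lit 132) (.e (nat_lit 622599) (nat_lit 5) .nil)))))))) (.g (nat_lit 5) .nil .nil))) 
(.lf (nat_lit 42928) (.g (nat_lit 2686) (.e (nat_lit 1239) (nat_lit 91) (.e (nat_lit 90170) (nat_lit 13) (.e (nat_lit 172106) (nat_lit 10) (.e (nat_lit 434231) (nat_lit 23) (.e (nat_lit 532544) (nat_lit 10) (.e (nat_lit 344088) (nat_lit 18) (.e (nat_lit 4752) (nat_lit 281) (.e (nat_lit 999) (nat_lit 81) .nil)))))))) (.g (nat_lit 5) .nil .nil))))) (.nd (nat_lit 4) (.nd (nat_lit 5) 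
(.lf (nat_lit 42888) (.g (nat_lit 4043) (.e (nat_lit 1239) (nat_lit 91) (.e (nat_lit 90170) (nat_lit 13) (.e (nat_lit 172106) (nat_lit 10) (.e (nat_lit 434231) (nat_lit 23) (.e (nat_lit 532535) (nat_lit 9) (.e (nat_lit 335930) (nat_lit 0) (.e (nat_lit 1015) (nat_lit 81) (.e (nat_lit 4780) (nat_lit 281) (.e (nat_lit 1011) (nat_lit 81) .nil))))))))) (.g (nat_lit 5) .nil .nil))) 
(.lf (nat_lit 42920) (.g (nat_lit 2947) (.e (nat_lit 1239) (nat_lit 91) (.e (nat_lit 90170) (nat_lit 13) (.e (nat_lit 172106) (nat_lit 10) (.e (nat_lit 434231) (nat_lit 23) (.e (nat_lit 532543) (nat_lit 10) (.e (nat_lit 344094) (nat_lit 18) (.e (nat_lit 4780) (nat_lit 281) (.e (nat_lit 1011) (nat_lit 81) .nil)))))))) (.g (nat_lit 5) .nil .nil)))) (.nd (nat_lit 5) 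
(.lf (nat_lit 42904) (.g (nat_lit 2319) (.e (nat_lit 1239) (nat_lit 91) (.e (nat_lit 90170) (nat_lit 13) (.e (nat_lit 172106) (nat_lit 10) (.e (nat_lit 434231) (nat_lit 23) (.e (nat_lit 532535) (nat_lit 9) (.e (nat_lit 335991) (nat_lit 1) (.e (nat_lit 57783) (nat_lit 239) (.e (nat_lit 7936) (nat_lit 81) .nil)))))))) (.g (nat_lit 4) .nil .nil))) 
(.lf (nat_lit 42936) (.g (nat_lit 4019) (.e (nat_lit 1239) (nat_lit 91) (.e (nat_lit 90170) (nat_lit 13) (.e (nat_lit 172106) (nat_lit 10) (.e (nat_lit 434231) (nat_lit 23) (.e (nat_lit 532544) (nat_lit 10) (.e (nat_lit 344096) (nat_lit 18) (.e (nat_lit 4764) (nat_lit 281) (.e (nat_lit 7936) (nat_lit 81) .nil)))))))) (.g (nat_lit 7) .nil .nil)))))) 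
(.nd (nat_lit 3) (.nd (nat_lit 4) (.nd (nat_lit 5) 
(.lf (nat_lit 42884) (.g (nat_lit 2741) (.e (nat_lit 1239) (nat_lit 91) (.e (nat_lit 90170) (nat_lit 13) (.e (nat_lit 172106) (nat_lit 10) (.e (nat_lit 434231) (nat_lit 23) (.e (nat_lit 532535) (nat_lit 9) (.e (nat_lit 335928) (nat_lit 0) (.e (nat_lit 7936) (nat_lit 132) (.e (nat_lit 622598) (nat_lit 5) .nil)))))))) (.g (nat_lit 4) .nil .nil))) 
(.lf (nat_lit 42916) (.g (nat_lit 2960) (.e (nat_lit 1239) (nat_lit 91) (.e (nat_lit 90170) (nat_lit 13) (.e (nat_lit 172106) (nat_lit 10) (.e (nat_lit 434231) (nat_lit 23) (.e (nat_lit 532543) (nat_lit 10) (.e (nat_lit 344090) (nat_lit 18) (.e (nat_lit 4780) (nat_lit 281) (.e (nat_lit 1010) (nat_lit 81) .nil)))))))) (.g (nat_lit 5) .nil .nil)))) (.nd (nat_lit 5) 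
(.lf (nat_lit 42900) (.g (nat_lit 4316) (.e (nat_lit 1239) (nat_lit 91) (.e (nat_lit 90170) (nat_lit 13) (.e (nat_lit 172106) (nat_lit 10) (.e (nat_lit 434231) (nat_lit 23) (.e (nat_lit 532535) (nat_lit 9) (.e (nat_lit 335937) (nat_lit 0) (.e (nat_lit 1940) (nat_lit 132) (.e (nat_lit 622599) (nat_lit 5) .nil)))))))) (.g (nat_lit 5) .nil .nil))) 
(.lf (nat_lit 42932) (.g (nat_lit 3809) (.e (nat_lit 1239) (nat_lit 91) (.e (nat_lit 90170) (nat_lit 13) (.e (nat_lit 172106) (nat_lit 10) (.e (nat_lit 434231) (nat_lit 23) (.e (nat_lit 532544) (nat_lit 10) (.e (nat_lit 344091) (nat_lit 18) (.e (nat_lit 4780) (nat_lit 281) (.e (nat_lit 1010) (nat_lit 81) .nil)))))))) (.g (nat_lit 6) .nil .nil))))) (.nd (nat_lit 4) (.nd (nat_lit 5) 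
(.lf (nat_lit 42892) (.g (nat_lit 4588) (.e (nat_lit 1239) (nat_lit 91) (.e (nat_lit 90170) (nat_lit 13) (.e (nat_lit 172106) (nat_lit 10) (.e (nat_lit 434231) (nat_lit 23) (.e (nat_lit 532535) (nat_lit 9) (.e (nat_lit 335937) (nat_lit 0) (.e (nat_lit 1936) (nat_lit 132) (.e (nat_lit 622598) (nat_lit 5) .nil)))))))) (.g (nat_lit 5) .nil .nil))) 
(.lf (nat_lit 42924) (.g (nat_lit 2955) (.e (nat_lit 1239) (nat_lit 91) (.e (nat_lit 90170) (nat_lit 13) (.e (nat_lit 172106) (nat_lit 10) (.e (nat_lit 434231) (nat_lit 23) (.e (nat_lit 532543) (nat_lit 10) (.e (nat_lit 344096) (nat_lit 18) (.e (nat_lit 4780) (nat_lit 281) (.e (nat_lit 1010) (nat_lit 81) .nil)))))))) (.g (nat_lit 5) .nil .nil)))) (.nd (nat_lit 5) 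
(.lf (nat_lit 42908) (.g (nat_lit 2489) (.e (nat_lit 1239) (nat_lit 91) (.e (nat_lit 90170) (nat_lit 13) (.e (nat_lit 172106) (nat_lit 10) (.e (nat_lit 434231) (nat_lit 23) (.e (nat_lit 532535) (nat_lit 9) (.e (nat_lit 336030) (nat_lit 4) (.e (nat_lit 130816) (nat_lit 239) (.e (nat_lit 999) (nat_lit 81) .nil)))))))) (.g (nat_lit 5) .nil .nil))) 
(.lf (nat_lit 42940) (.g (nat_lit 2929) (.e (nat_lit 1239) (nat_lit 91) (.e (nat_lit 90170) (nat_lit 13) (.e (nat_lit 172106) (nat_lit 10) (.e (nat_lit 434231) (nat_lit 23) (.e (nat_lit 532544) (nat_lit 10) (.e (nat_lit 344151) (nat_lit 34) (.e (nat_lit 622601) (nat_lit 5) .nil))))))) (.g (nat_lit 5) .nil .nil))))))) (.nd (nat_lit 2) (.nd (nat_lit 3) (.nd (nat_lit 4) (.nd (nat_lit 5) 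
(.lf (nat_lit 42882) (.g (nat_lit 2615) (.e (nat_lit 1239) (nat_lit 91) (.e (nat_lit 90170) (nat_lit 13) (.e (nat_lit 172106) (nat_lit 10) (.e (nat_lit 434231) (nat_lit 23) (.e (nat_lit 532535) (nat_lit 9) (.e (nat_lit 335928) (nat_lit 0) (.e (nat_lit 1941) (nat_lit 132) (.e (nat_lit 622600) (nat_lit 5) .nil)))))))) (.g (nat_lit 6) .nil .nil))) 
(.lf (nat_lit 42914) (.g (nat_lit 2880) (.e (nat_lit 1239) (nat_lit 91) (.e (nat_lit 90170) (nat_lit 13) (.e (nat_lit 172106) (nat_lit 10) (.e (nat_lit 434231) (nat_lit 23) (.e (nat_lit 532535) (nat_lit 9) (.e (nat_lit 336295) (nat_lit 15) (.e (nat_lit 7936) (nat_lit 224) (.e (nat_lit 753693) (nat_lit 13) .nil)))))))) (.g (nat_lit 4) .nil .nil)))) (.nd (nat_lit 5) 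
(.lf (nat_lit 42898) (.g (nat_lit 4031) (.e (nat_lit 1239) (nat_lit 91) (.e (nat_lit 90170) (nat_lit 13) (.e (nat_lit 172106) (nat_lit 10) (.e (nat_lit 434231) (nat_lit 23) (.e (nat_lit 532535) (nat_lit 9) (.e (nat_lit 335937) (nat_lit 0) (.e (nat_lit 1939) (nat_lit 132) (.e (nat_lit 622602) (nat_lit 5) .nil)))))))) (.g (nat_lit 5) .nil .nil))) 
(.lf (nat_lit 42930) (.g (nat_lit 3076) (.e (nat_lit 1239) (nat_lit 91) (.e (nat_lit 90170) (nat_lit 13) (.e (nat_lit 172106) (nat_lit 10) (.e (nat_lit 434231) (nat_lit 23) (.e (nat_lit 532544) (nat_lit 10) (.e (nat_lit 344090) (nat_lit 18) (.e (nat_lit 4780) (nat_lit 281) (.e (nat_lit 1011) (nat_lit 81) .nil)))))))) (.g (nat_lit 5) .nil .nil))))) (.nd (nat_lit 4) (.nd (nat_lit 5) 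
(.lf (nat_lit 42890) (.g (nat_lit 3918) (.e (nat_lit 1239) (nat_lit 91) (.e (nat_lit 90170) (nat_lit 13) (.e (nat_lit 172106) (nat_lit 10) (.e (nat_lit 434231) (nat_lit 23) (.e (nat_lit 532535) (nat_lit 9) (.e (nat_lit 335930) (nat_lit 0) (.e (nat_lit 1936) (nat_lit 132) (.e (nat_lit 622602) (nat_lit 5) .nil)))))))) (.g (nat_lit 5) .nil .nil))) 
(.lf (nat_lit 42922) (.g (nat_lit 3112) (.e (nat_lit 1239) (nat_lit 91) (.e (nat_lit 90170) (nat_lit 13) (.e (nat_lit 172106) (nat_lit 10) (.e (nat_lit 434231) (nat_lit 23) (.e (nat_lit 532543) (nat_lit 10) (.e (nat_lit 344096) (nat_lit 18) (.e (nat_lit 4761) (nat_lit 281) (.e (nat_lit 974) (nat_lit 81) .nil)))))))) (.g (nat_lit 6) .nil .nil)))) (.nd (nat_lit 5) 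
(.lf (nat_lit 42906) (.g (nat_lit 2880) (.e (nat_lit 1239) (nat_lit 91) (.e (nat_lit 90170) (nat_lit 13) (.e (nat_lit 172106) (nat_lit 10) (.e (nat_lit 434231) (nat_lit 23) (.e (nat_lit 532535) (nat_lit 9) (.e (nat_lit 336030) (nat_lit 4) (.e (nat_lit 123127) (nat_lit 239) (.e (nat_lit 988) (nat_lit 81) .nil)))))))) (.g (nat_lit 4) .nil .nil))) 
(.lf (nat_lit 42938) (.g (nat_lit 4279) (.e (nat_lit 1239) (nat_lit 91) (.e (nat_lit 90170) (nat_lit 13) (.e (nat_lit 172106) (nat_lit 10) (.e (nat_lit 434231) (nat_lit 23) (.e (nat_lit 532544) (nat_lit 10) (.e (nat_lit 344096) (nat_lit 18) (.e (nat_lit 4780) (nat_lit 281) (.e (nat_lit 1010) (nat_lit 81) .nil)))))))) (.g (nat_lit 6) .nil .nil)))))) 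
(.nd (nat_lit 3) (.nd (nat_lit 4) (.nd (nat_lit 5) 
(.lf (nat_lit 42886) (.g (nat_lit 4149) (.e (nat_lit 1239) (nat_lit 91) (.e (nat_lit 90170) (nat_lit 13) (.e (nat_lit 172106) (nat_lit 10) (.e (nat_lit 434231) (nat_lit 23) (.e (nat_lit 532535) (nat_lit 9) (.e (nat_lit 335929) (nat_lit 0) (.e (nat_lit 1936) (nat_lit 132) (.e (nat_lit 622598) (nat_lit 5) .nil)))))))) (.g (nat_lit 5) .nil .nil))) 
(.lf (nat_lit 42918) (.g (nat_lit 3039) (.e (nat_lit 1239) (nat_lit 91) (.e (nat_lit 90170) (nat_lit 13) (.e (nat_lit 172106) (nat_lit 10) (.e (nat_lit 434231) (nat_lit 23) (.e (nat_lit 532543) (nat_lit 10) (.e (nat_lit 344091) (nat_lit 18) (.e (nat_lit 4780) (nat_lit 281) (.e (nat_lit 1010) (nat_lit 81) .nil)))))))) (.g (nat_lit 5) .nil .nil)))) (.nd (nat_lit 5) 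
(.lf (nat_lit 42902) (.g (nat_lit 2235) (.e (nat_lit 1239) (nat_lit 91) (.e (nat_lit 90170) (nat_lit 13) (.e (nat_lit 172106) (nat_lit 10) (.e (nat_lit 434231) (nat_lit 23) (.e (nat_lit 532535) (nat_lit 9) (.e (nat_lit 335985) (nat_lit 1) (.e (nat_lit 57779) (nat_lit 239) (.e (nat_lit 7936) (nat_lit 81) .nil)))))))) (.g (nat_lit 4) .nil .nil))) 
(.lf (nat_lit 42934) (.g (nat_lit 3235) (.e (nat_lit 1239) (nat_lit 91) (.e (nat_lit 90170) (nat_lit 13) (.e (nat_lit 172106) (nat_lit 10) (.e (nat_lit 434231) (nat_lit 23) (.e (nat_lit 532544) (nat_lit 10) (.e (nat_lit 344095) (nat_lit 18) (.e (nat_lit 4780) (nat_lit 281) (.e (nat_lit 1011) (nat_lit 81) .nil)))))))) (.g (nat_lit 5) .nil .nil))))) (.nd (nat_lit 4) (.nd (nat_lit 5) 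
(.lf (nat_lit 42894) (.g (nat_lit 4205) (.e (nat_lit 1239) (nat_lit 91) (.e (nat_lit 90170) (nat_lit 13) (.e (nat_lit 172106) (nat_lit 10) (.e (nat_lit 434231) (nat_lit 23) (.e (nat_lit 532535) (nat_lit 9) (.e (nat_lit 335937) (nat_lit 0) (.e (nat_lit 1936) (nat_lit 132) (.e (nat_lit 622601) (nat_lit 5) .nil)))))))) (.g (nat_lit 5) .nil .nil))) 
(.lf (nat_lit 42926) (.g (nat_lit 2901) (.e (nat_lit 1239) (nat_lit 91) (.e (nat_lit 90170) (nat_lit 13) (.e (nat_lit 172106) (nat_lit 10) (.e (nat_lit 434231) (nat_lit 23) (.e (nat_lit 532543) (nat_lit 10) (.e (nat_lit 344151) (nat_lit 34) (.e (nat_lit 622599) (nat_lit 5) .nil))))))) (.g (nat_lit 5) .nil .nil)))) (.nd (nat_lit 5) 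
(.lf (nat_lit 42910) (.g (nat_lit 3435) (.e (nat_lit 1239) (nat_lit 91) (.e (nat_lit 90170) (nat_lit 13) (.e (nat_lit 172106) (nat_lit 10) (.e (nat_lit 434231) (nat_lit 23) (.e (nat_lit 532535) (nat_lit 9) (.e (nat_lit 336295) (nat_lit 15) (.e (nat_lit 2443) (nat_lit 157) (.e (nat_lit 6867) (nat_lit 371) (.e (nat_lit 1009) (nat_lit 81) .nil))))))))) (.g (nat_lit 5) .nil .nil))) 
(.lf (nat_lit 42942) (.g (nat_lit 3254) (.e (nat_lit 1239) (nat_lit 91) (.e (nat_lit 90170) (nat_lit 13) (.e (nat_lit 172106) (nat_lit 10) (.e (nat_lit 434231) (nat_lit 23) (.e (nat_lit 532544) (nat_lit 10) (.e (nat_lit 344152) (nat_lit 34) (.e (nat_lit 622598) (nat_lit 5) .nil))))))) (.g (nat_lit 5) .nil .nil)))))))) 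
(.nd (nat_lit 1) (.nd (nat_lit 2) (.nd (nat_lit 3) (.nd (nat_lit 4) (.nd (nat_lit 5) 
(.lf (nat_lit 42881) (.g (nat_lit 2954) (.e (nat_lit 1239) (nat_lit 91) (.e (nat_lit 90170) (nat_lit 13) (.e (nat_lit 172106) (nat_lit 10) (.e (nat_lit 434231) (nat_lit 23) (.e (nat_lit 532535) (nat_lit 9) (.e (nat_lit 335928) (nat_lit 0) (.e (nat_lit 1941) (nat_lit 132) (.e (nat_lit 622599) (nat_lit 5) .nil)))))))) (.g (nat_lit 6) .nil .nil))) 
(.lf (nat_lit 42913) (.g (nat_lit 2776) (.e (nat_lit 1239) (nat_lit 91) (.e (nat_lit 90170) (nat_lit 13) (.e (nat_lit 172106) (nat_lit 10) (.e (nat_lit 434231) (nat_lit 23) (.e (nat_lit 532535) (nat_lit 9) (.e (nat_lit 336295) (nat_lit 15) (.e (nat_lit 3588) (nat_lit 224) (.e (nat_lit 753693) (nat_lit 13) .nil)))))))) (.g (nat_lit 4) .nil .nil)))) (.nd (nat_lit 5) 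
(.lf (nat_lit 42897) (.g (nat_lit 4110) (.e (nat_lit 1239) (nat_lit 91) (.e (nat_lit 90170) (nat_lit 13) (.e (nat_lit 172106) (nat_lit 10) (.e (nat_lit 434231) (nat_lit 23) (.e (nat_lit 532535) (nat_lit 9) (.e (nat_lit 335937) (nat_lit 0) (.e (nat_lit 1939) (nat_lit 132) (.e (nat_lit 622601) (nat_lit 5) .nil)))))))) (.g (nat_lit 5) .nil .nil))) 
(.lf (nat_lit 42929) (.g (nat_lit 2468) (.e (nat_lit 1239) (nat_lit 91) (.e (nat_lit 90170) (nat_lit 13) (.e (nat_lit 172106) (nat_lit 10) (.e (nat_lit 434231) (nat_lit 23) (.e (nat_lit 532544) (nat_lit 10) (.e (nat_lit 344090) (nat_lit 18) (.e (nat_lit 4761) (nat_lit 281) (.e (nat_lit 974) (nat_lit 81) .nil)))))))) (.g (nat_lit 5) .nil .nil))))) (.nd (nat_lit 4) (.nd (nat_lit 5) 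
(.lf (nat_lit 42889) (.g (nat_lit 4045) (.e (nat_lit 1239) (nat_lit 91) (.e (nat_lit 90170) (nat_lit 13) (.e (nat_lit 172106) (nat_lit 10) (.e (nat_lit 434231) (nat_lit 23) (.e (nat_lit 532535) (nat_lit 9) (.e (nat_lit 335930) (nat_lit 0) (.e (nat_lit 1936) (nat_lit 132) (.e (nat_lit 622598) (nat_lit 5) .nil)))))))) (.g (nat_lit 5) .nil .nil))) 
(.lf (nat_lit 42921) (.g (nat_lit 3013) (.e (nat_lit 1239) (nat_lit 91) (.e (nat_lit 90170) (nat_lit 13) (.e (nat_lit 172106) (nat_lit 10) (.e (nat_lit 434231) (nat_lit 23) (.e (nat_lit 532543) (nat_lit 10) (.e (nat_lit 344095) (nat_lit 18) (.e (nat_lit 4780) (nat_lit 281) (.e (nat_lit 1011) (nat_lit 81) .nil)))))))) (.g (nat_lit 5) .nil .nil)))) (.nd (nat_lit 5) 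
(.lf (nat_lit 42905) (.g (nat_lit 2470) (.e (nat_lit 1239) (nat_lit 91) (.e (nat_lit 90170) (nat_lit 13) (.e (nat_lit 172106) (nat_lit 10) (.e (nat_lit 434231) (nat_lit 23) (.e (nat_lit 532535) (nat_lit 9) (.e (nat_lit 335992) (nat_lit 1) (.e (nat_lit 57779) (nat_lit 239) (.e (nat_lit 7936) (nat_lit 81) .nil)))))))) (.g (nat_lit 5) .nil .nil))) 
(.lf (nat_lit 42937) (.g (nat_lit 3026) (.e (nat_lit 1239) (nat_lit 91) (.e (nat_lit 90170) (nat_lit 13) (.e (nat_lit 172106) (nat_lit 10) (.e (nat_lit 434231) (nat_lit 23) (.e (nat_lit 532544) (nat_lit 10) (.e (nat_lit 344096) (nat_lit 18) (.e (nat_lit 4780) (nat_lit 281) (.e (nat_lit 1009) (nat_lit 81) .nil)))))))) (.g (nat_lit 5) .nil .nil)))))) 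
(.nd (nat_lit 3) (.nd (nat_lit 4) (.nd (nat_lit 5) 
(.lf (nat_lit 42885) (.g (nat_lit 2334) (.e (nat_lit 1239) (nat_lit 91) (.e (nat_lit 90170) (nat_lit 13) (.e (nat_lit 172106) (nat_lit 10) (.e (nat_lit 434231) (nat_lit 23) (.e (nat_lit 532535) (nat_lit 9) (.e (nat_lit 335928) (nat_lit 0) (.e (nat_lit 7936) (nat_lit 132) (.e (nat_lit 622600) (nat_lit 5) .nil)))))))) (.g (nat_lit 4) .nil .nil))) 
(.lf (nat_lit 42917) (.g (nat_lit 3559) (.e (nat_lit 1239) (nat_lit 91) (.e (nat_lit 90170) (nat_lit 13) (.e (nat_lit 172106) (nat_lit 10) (.e (nat_lit 434231) (nat_lit 23) (.e (nat_lit 532543) (nat_lit 10) (.e (nat_lit 344090) (nat_lit 18) (.e (nat_lit 4780) (nat_lit 281) (.e (nat_lit 1011) (nat_lit 81) .nil)))))))) (.g (nat_lit 6) .nil .nil)))) (.nd (nat_lit 5) 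
(.lf (nat_lit 42901) (.g (nat_lit 3888) (.e (nat_lit 1239) (nat_lit 91) (.e (nat_lit 90170) (nat_lit 13) (.e (nat_lit 172106) (nat_lit 10) (.e (nat_lit 434231) (nat_lit 23) (.e (nat_lit 532535) (nat_lit 9) (.e (nat_lit 335937) (nat_lit 0) (.e (nat_lit 1940) (nat_lit 132) (.e (nat_lit 622601) (nat_lit 5) .nil)))))))) (.g (nat_lit 5) .nil .nil))) 
(.lf (nat_lit 42933) (.g (nat_lit 2941) (.e (nat_lit 1239) (nat_lit 91) (.e (nat_lit 90170) (nat_lit 13) (.e (nat_lit 172106) (nat_lit 10) (.e (nat_lit 434231) (nat_lit 23) (.e (nat_lit 532544) (nat_lit 10) (.e (nat_lit 344094) (nat_lit 18) (.e (nat_lit 4780) (nat_lit 281) (.e (nat_lit 1010) (nat_lit 81) .nil)))))))) (.g (nat_lit 5) .nil .nil))))) (.nd (nat_lit 4) (.nd (nat_lit 5) 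
(.lf (nat_lit 42893) (.g (nat_lit 4140) (.e (nat_lit 1239) (nat_lit 91) (.e (nat_lit 90170) (nat_lit 13) (.e (nat_lit 172106) (nat_lit 10) (.e (nat_lit 434231) (nat_lit 23) (.e (nat_lit 532535) (nat_lit 9) (.e (nat_lit 335937) (nat_lit 0) (.e (nat_lit 1936) (nat_lit 132) (.e (nat_lit 622600) (nat_lit 5) .nil)))))))) (.g (nat_lit 5) .nil .nil))) 
(.lf (nat_lit 42925) (.g (nat_lit 3554) (.e (nat_lit 1239) (nat_lit 91) (.e (nat_lit 90170) (nat_lit 13) (.e (nat_lit 172106) (nat_lit 10) (.e (nat_lit 434231) (nat_lit 23) (.e (nat_lit 532543) (nat_lit 10) (.e (nat_lit 344096) (nat_lit 18) (.e (nat_lit 4780) (nat_lit 281) (.e (nat_lit 1011) (nat_lit 81) .nil)))))))) (.g (nat_lit 6) .nil .nil)))) (.nd (nat_lit 5) 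
(.lf (nat_lit 42909) (.g (nat_lit 3877) (.e (nat_lit 1239) (nat_lit 91) (.e (nat_lit 90170) (nat_lit 13) (.e (nat_lit 172106) (nat_lit 10) (.e (nat_lit 434231) (nat_lit 23) (.e (nat_lit 532535) (nat_lit 9) (.e (nat_lit 336248) (nat_lit 15) (.e (nat_lit 2412) (nat_lit 157) (.e (nat_lit 6848) (nat_lit 371) (.e (nat_lit 999) (nat_lit 81) .nil))))))))) (.g (nat_lit 5) .nil .nil))) 
(.lf (nat_lit 42941) (.g (nat_lit 2676) (.e (nat_lit 1239) (nat_lit 91) (.e (nat_lit 90170) (nat_lit 13) (.e (nat_lit 172106) (nat_lit 10) (.e (nat_lit 434231) (nat_lit 23) (.e (nat_lit 532544) (nat_lit 10) (.e (nat_lit 344151) (nat_lit 34) (.e (nat_lit 622602) (nat_lit 5) .nil))))))) (.g (nat_lit 5) .nil .nil))))))) (.nd (nat_lit 2) (.nd (nat_lit 3) (.nd (nat_lit 4) (.nd (nat_lit 5) 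
(.lf (nat_lit 42883) (.g (nat_lit 2820) (.e (nat_lit 1239) (nat_lit 91) (.e (nat_lit 90170) (nat_lit 13) (.e (nat_lit 172106) (nat_lit 10) (.e (nat_lit 434231) (nat_lit 23) (.e (nat_lit 532535) (nat_lit 9) (.e (nat_lit 335928) (nat_lit 0) (.e (nat_lit 1941) (nat_lit 132) (.e (nat_lit 622601) (nat_lit 5) .nil)))))))) (.g (nat_lit 6) .nil .nil))) 
(.lf (nat_lit 42915) (.g (nat_lit 2951) (.e (nat_lit 1239) (nat_lit 91) (.e (nat_lit 90170) (nat_lit 13) (.e (nat_lit 172106) (nat_lit 10) (.e (nat_lit 434231) (nat_lit 23) (.e (nat_lit 532543) (nat_lit 10) (.e (nat_lit 344090) (nat_lit 18) (.e (nat_lit 4761) (nat_lit 281) (.e (nat_lit 974) (nat_lit 81) .nil)))))))) (.g (nat_lit 6) .nil .nil)))) (.nd (nat_lit 5) 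
(.lf (nat_lit 42899) (.g (nat_lit 4142) (.e (nat_lit 1239) (nat_lit 91) (.e (nat_lit 90170) (nat_lit 13) (.e (nat_lit 172106) (nat_lit 10) (.e (nat_lit 434231) (nat_lit 23) (.e (nat_lit 532535) (nat_lit 9) (.e (nat_lit 335937) (nat_lit 0) (.e (nat_lit 1940) (nat_lit 132) (.e (nat_lit 622598) (nat_lit 5) .nil)))))))) (.g (nat_lit 5) .nil .nil))) 
(.lf (nat_lit 42931) (.g (nat_lit 2706) (.e (nat_lit 1239) (nat_lit 91) (.e (nat_lit 90170) (nat_lit 13) (.e (nat_lit 172106) (nat_lit 10) (.e (nat_lit 434231) (nat_lit 23) (.e (nat_lit 532544) (nat_lit 10) (.e (nat_lit 344091) (nat_lit 18) (.e (nat_lit 4761) (nat_lit 281) (.e (nat_lit 974) (nat_lit 81) .nil)))))))) (.g (nat_lit 5) .nil .nil))))) (.nd (nat_lit 4) (.nd (nat_lit 5) 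
(.lf (nat_lit 42891) (.g (nat_lit 4080) (.e (nat_lit 1239) (nat_lit 91) (.e (nat_lit 90170) (nat_lit 13) (.e (nat_lit 172106) (nat_lit 10) (.e (nat_lit 434231) (nat_lit 23) (.e (nat_lit 532535) (nat_lit 9) (.e (nat_lit 335937) (nat_lit 0) (.e (nat_lit 992) (nat_lit 81) (.e (nat_lit 4780) (nat_lit 281) (.e (nat_lit 1011) (nat_lit 81) .nil))))))))) (.g (nat_lit 5) .nil .nil))) 
(.lf (nat_lit 42923) (.g (nat_lit 3331) (.e (nat_lit 1239) (nat_lit 91) (.e (nat_lit 90170) (nat_lit 13) (.e (nat_lit 172106) (nat_lit 10) (.e (nat_lit 434231) (nat_lit 23) (.e (nat_lit 532543) (nat_lit 10) (.e (nat_lit 344096) (nat_lit 18) (.e (nat_lit 4764) (nat_lit 281) (.e (nat_lit 7936) (nat_lit 81) .nil)))))))) (.g (nat_lit 6) .nil .nil)))) (.nd (nat_lit 5) 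
(.lf (nat_lit 42907) (.g (nat_lit 3009) (.e (nat_lit 1239) (nat_lit 91) (.e (nat_lit 90170) (nat_lit 13) (.e (nat_lit 172106) (nat_lit 10) (.e (nat_lit 434231) (nat_lit 23) (.e (nat_lit 532535) (nat_lit 9) (.e (nat_lit 336030) (nat_lit 4) (.e (nat_lit 130816) (nat_lit 239) (.e (nat_lit 974) (nat_lit 81) .nil)))))))) (.g (nat_lit 5) .nil .nil))) 
(.lf (nat_lit 42939) (.g (nat_lit 2774) (.e (nat_lit 1239) (nat_lit 91) (.e (nat_lit 90170) (nat_lit 13) (.e (nat_lit 172106) (nat_lit 10) (.e (nat_lit 434231) (nat_lit 23) (.e (nat_lit 532544) (nat_lit 10) (.e (nat_lit 344151) (nat_lit 34) (.e (nat_lit 622599) (nat_lit 5) .nil))))))) (.g (nat_lit 5) .nil .nil)))))) (.nd (nat_lit 3) (.nd (nat_lit 4) (.nd (nat_lit 5) 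
(.lf (nat_lit 42887) (.g (nat_lit 4022) (.e (nat_lit 1239) (nat_lit 91) (.e (nat_lit 90170) (nat_lit 13) (.e (nat_lit 172106) (nat_lit 10) (.e (nat_lit 434231) (nat_lit 23) (.e (nat_lit 532535) (nat_lit 9) (.e (nat_lit 335929) (nat_lit 0) (.e (nat_lit 1936) (nat_lit 132) (.e (nat_lit 622602) (nat_lit 5) .nil)))))))) (.g (nat_lit 5) .nil .nil))) 
(.lf (nat_lit 42919) (.g (nat_lit 3638) (.e (nat_lit 1239) (nat_lit 91) (.e (nat_lit 90170) (nat_lit 13) (.e (nat_lit 172106) (nat_lit 10) (.e (nat_lit 434231) (nat_lit 23) (.e (nat_lit 532543) (nat_lit 10) (.e (nat_lit 344091) (nat_lit 18) (.e (nat_lit 4780) (nat_lit 281) (.e (nat_lit 1011) (nat_lit 81) .nil)))))))) (.g (nat_lit 6) .nil .nil)))) (.nd (nat_lit 5) 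
(.lf (nat_lit 42903) (.g (nat_lit 3211) (.e (nat_lit 1239) (nat_lit 91) (.e (nat_lit 90170) (nat_lit 13) (.e (nat_lit 172106) (nat_lit 10) (.e (nat_lit 434231) (nat_lit 23) (.e (nat_lit 532535) (nat_lit 9) (.e (nat_lit 335989) (nat_lit 1) (.e (nat_lit 57783) (nat_lit 239) (.e (nat_lit 7936) (nat_lit 81) .nil)))))))) (.g (nat_lit 5) .nil .nil))) 
(.lf (nat_lit 42935) (.g (nat_lit 3675) (.e (nat_lit 1239) (nat_lit 91) (.e (nat_lit 90170) (nat_lit 13) (.e (nat_lit 172106) (nat_lit 10) (.e (nat_lit 434231) (nat_lit 23) (.e (nat_lit 532544) (nat_lit 10) (.e (nat_lit 344096) (nat_lit 18) (.e (nat_lit 4761) (nat_lit 281) (.e (nat_lit 968) (nat_lit 81) .nil)))))))) (.g (nat_lit 5) .nil .nil))))) (.nd (nat_lit 4) (.nd (nat_lit 5) 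
(.lf (nat_lit 42895) (.g (nat_lit 4461) (.e (nat_lit 1239) (nat_lit 91) (.e (nat_lit 90170) (nat_lit 13) (.e (nat_lit 172106) (nat_lit 10) (.e (nat_lit 434231) (nat_lit 23) (.e (nat_lit 532535) (nat_lit 9) (.e (nat_lit 335937) (nat_lit 0) (.e (nat_lit 1936) (nat_lit 132) (.e (nat_lit 622602) (nat_lit 5) .nil)))))))) (.g (nat_lit 5) .nil .nil))) 
(.lf (nat_lit 42927) (.g (nat_lit 2803) (.e (nat_lit 1239) (nat_lit 91) (.e (nat_lit 90170) (nat_lit 13) (.e (nat_lit 172106) (nat_lit 10) (.e (nat_lit 434231) (nat_lit 23) (.e (nat_lit 532543) (nat_lit 10) (.e (nat_lit 344151) (nat_lit 34) (.e (nat_lit 622602) (nat_lit 5) .nil))))))) (.g (nat_lit 5) .nil .nil)))) (.nd (nat_lit 5) 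
(.lf (nat_lit 42911) (.g (nat_lit 2923) (.e (nat_lit 1239) (nat_lit 91) (.e (nat_lit 90170) (nat_lit 13) (.e (nat_lit 172106) (nat_lit 10) (.e (nat_lit 434231) (nat_lit 23) (.e (nat_lit 532535) (nat_lit 9) (.e (nat_lit 336295) (nat_lit 15) (.e (nat_lit 2443) (nat_lit 157) (.e (nat_lit 6921) (nat_lit 371) (.e (nat_lit 1009) (nat_lit 81) .nil))))))))) (.g (nat_lit 4) .nil .nil))) 
(.lf (nat_lit 42943) (.g (nat_lit 3212) (.e (nat_lit 1239) (nat_lit 91) (.e (nat_lit 90170) (nat_lit 13) (.e (nat_lit 172106) (nat_lit 10) (.e (nat_lit 434231) (nat_lit 23) (.e (nat_lit 532544) (nat_lit 10) (.e (nat_lit 344152) (nat_lit 34) (.e (nat_lit 622600) (nat_lit 5) .nil))))))) (.g (nat_lit 7) .nil .nil)))))))))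

noncomputable def tv598 : DT := (.nd (nat_lit 0) (.nd (nat_lit 1) (.nd (nat_lit 2) (.nd (nat_lit 3) (.nd (nat_lit 4) (.nd (nat_lit 5) 
(.lf (nat_lit 42944) (.g (nat_lit 2543) (.e (nat_lit 1239) (nat_lit 91) (.e (nat_lit 90170) (nat_lit 13) (.e (nat_lit 172106) (nat_lit 10) (.e (nat_lit 434231) (nat_lit 23) (.e (nat_lit 532544) (nat_lit 10) (.e (nat_lit 344152) (nat_lit 34) (.e (nat_lit 622601) (nat_lit 5) .nil))))))) (.g (nat_lit 5) .nil .nil))) 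
(.lf (nat_lit 42976) (.g (nat_lit 2511) (.e (nat_lit 1239) (nat_lit 91) (.e (nat_lit 90170) (nat_lit 13) (.e (nat_lit 172106) (nat_lit 10) (.e (nat_lit 434238) (nat_lit 25) (.e (nat_lit 548898) (nat_lit 14) (.e (nat_lit 2828) (nat_lit 182) (.e (nat_lit 409603) (nat_lit 0) (.e (nat_lit 5270) (nat_lit 298) .nil)))))))) (.g (nat_lit 4) .nil .nil)))) (.nd (nat_lit 5) 
(.lf (nat_lit 42960) (.g (nat_lit 3366) (.e (nat_lit 1239) (nat_lit 91) (.e (nat_lit 90170) (nat_lit 13) (.e (nat_lit 172106) (nat_lit 10) (.e (nat_lit 434231) (nat_lit 23) (.e (nat_lit 532554) (nat_lit 13) (.e (nat_lit 368689) (nat_lit 34) (.e (nat_lit 622601) (nat_lit 5) .nil))))))) (.g (nat_lit 5) .nil .nil))) 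
(.lf (nat_lit 42992) (.g (nat_lit 2526) (.e (nat_lit 1239) (nat_lit 91) (.e (nat_lit 90170) (nat_lit 13) (.e (nat_lit 172106) (nat_lit 10) (.e (nat_lit 434244) (nat_lit 28) (.e (nat_lit 573451) (nat_lit 9) (.e (nat_lit 62) (nat_lit 0) (.e (nat_lit 7087) (nat_lit 379) (.e (nat_lit 123202) (nat_lit 270) .nil)))))))) (.g (nat_lit 4) .nil .nil))))) (.nd (nat_lit 4) (.nd (nat_lit 5) 
(.lf (nat_lit 42952) (.g (nat_lit 3466) (.e (nat_lit 1239) (nat_lit 91) (.e (nat_lit 90170) (nat_lit 13) (.e (nat_lit 172106) (nat_lit 10) (.e (nat_lit 434231) (nat_lit 23) (.e (nat_lit 532554) (nat_lit 13) (.e (nat_lit 368660) (nat_lit 18) (.e (nat_lit 4780) (nat_lit 281) (.e (nat_lit 1011) (nat_lit 81) .nil)))))))) (.g (nat_lit 4) .nil .nil))) 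
(.lf (nat_lit 42984) (.g (nat_lit 2068) (.e (nat_lit 1239) (nat_lit 91) (.e (nat_lit 90170) (nat_lit 13) (.e (nat_lit 172106) (nat_lit 10) (.e (nat_lit 434244) (nat_lit 28) (.e (nat_lit 573451) (nat_lit 9) .nil))))) .nil))) (.nd (nat_lit 5) 
(.lf (nat_lit 42968) (.g (nat_lit 2016) (.e (nat_lit 1239) (nat_lit 91) (.e (nat_lit 90170) (nat_lit 13) (.e (nat_lit 172106) (nat_lit 10) (.e (nat_lit 434236) (nat_lit 25) .nil)))) .nil)) 
(.lf (nat_lit 43000) (.g (nat_lit 2506) (.e (nat_lit 1239) (nat_lit 91) (.e (nat_lit 90170) (nat_lit 13) (.e (nat_lit 172106) (nat_lit 10) (.e (nat_lit 434244) (nat_lit 28) (.e (nat_lit 573468) (nat_lit 10) (.e (nat_lit 8490) (nat_lit 180) (.e (nat_lit 1074) (nat_lit 81) (.e (nat_lit 5270) (nat_lit 298) .nil)))))))) (.g (nat_lit 4) .nil .nil)))))) 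
(.nd (nat_lit 3) (.nd (nat_lit 4) (.nd (nat_lit 5) 
(.lf (nat_lit 42948) (.g (nat_lit 2831) (.e (nat_lit 1239) (nat_lit 91) (.e (nat_lit 90170) (nat_lit 13) (.e (nat_lit 172106) (nat_lit 10) (.e (nat_lit 434231) (nat_lit 23) (.e (nat_lit 532553) (nat_lit 13) (.e (nat_lit 368662) (nat_lit 18) (.e (nat_lit 4776) (nat_lit 281) (.e (nat_lit 1011) (nat_lit 81) .nil)))))))) (.g (nat_lit 4) .nil .nil))) 
(.lf (nat_lit 42980) (.g (nat_lit 3500) (.e (nat_lit 1239) (nat_lit 91) (.e (nat_lit 90170) (nat_lit 13) (.e (nat_lit 172106) (nat_lit 10) (.e (nat_lit 434238) (nat_lit 25) (.e (nat_lit 548914) (nat_lit 19) (.e (nat_lit 188160) (nat_lit 32) .nil)))))) (.g (nat_lit 5) .nil .nil)))) (.nd (nat_lit 5) 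
(.lf (nat_lit 42964) (.g (nat_lit 2273) (.e (nat_lit 1239) (nat_lit 91) (.e (nat_lit 90170) (nat_lit 13) (.e (nat_lit 172106) (nat_lit 10) (.e (nat_lit 434231) (nat_lit 23) (.e (nat_lit 532564) (nat_lit 15) (.e (nat_lit 385043) (nat_lit 21) (.e (nat_lit 6854) (nat_lit 371) (.e (nat_lit 999) (nat_lit 81) .nil)))))))) (.g (nat_lit 4) .nil .nil))) 
(.lf (nat_lit 42996) (.g (nat_lit 1940) (.e (nat_lit 1239) (nat_lit 91) (.e (nat_lit 90170) (nat_lit 13) (.e (nat_lit 172106) (nat_lit 10) (.e (nat_lit 434244) (nat_lit 28) (.e (nat_lit 573458) (nat_lit 9) .nil))))) .nil)))) (.nd (nat_lit 4) (.nd (nat_lit 5) 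
(.lf (nat_lit 42956) (.g (nat_lit 2902) (.e (nat_lit 1239) (nat_lit 91) (.e (nat_lit 90170) (nat_lit 13) (.e (nat_lit 172106) (nat_lit 10) (.e (nat_lit 434231) (nat_lit 23) (.e (nat_lit 532554) (nat_lit 13) (.e (nat_lit 368662) (nat_lit 18) (.e (nat_lit 4828) (nat_lit 281) (.e (nat_lit 7936) (nat_lit 81) .nil)))))))) (.g (nat_lit 6) .nil .nil))) 
(.lf (nat_lit 42988) (.g (nat_lit 2588) (.e (nat_lit 1239) (nat_lit 91) (.e (nat_lit 90170) (nat_lit 13) (.e (nat_lit 172106) (nat_lit 10) (.e (nat_lit 434244) (nat_lit 28) (.e (nat_lit 573451) (nat_lit 9) (.e (nat_lit 11) (nat_lit 0) (.e (nat_lit 7091) (nat_lit 379) (.e (nat_lit 123202) (nat_lit 270) .nil)))))))) (.g (nat_lit 4) .nil .nil)))) (.nd (nat_lit 5) 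
(.lf (nat_lit 42972) (.g (nat_lit 2267) (.e (nat_lit 1239) (nat_lit 91) (.e (nat_lit 90170) (nat_lit 13) (.e (nat_lit 172106) (nat_lit 10) (.e (nat_lit 434238) (nat_lit 25) (.e (nat_lit 548897) (nat_lit 14) (.e (nat_lit 2825) (nat_lit 182) (.e (nat_lit 409605) (nat_lit 0) (.e (nat_lit 5270) (nat_lit 298) .nil)))))))) (.g (nat_lit 4) .nil .nil))) 
(.lf (nat_lit 43004) (.g (nat_lit 2293) (.e (nat_lit 1239) (nat_lit 91) (.e (nat_lit 90170) (nat_lit 13) (.e (nat_lit 172106) (nat_lit 10) (.e (nat_lit 434244) (nat_lit 28) (.e (nat_lit 573470) (nat_lit 11) .nil))))) .nil)))))) (.nd (nat_lit 2) (.nd (nat_lit 3) (.nd (nat_lit 4) (.nd (nat_lit 5) 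
(.lf (nat_lit 42946) (.g (nat_lit 2522) (.e (nat_lit 1239) (nat_lit 91) (.e (nat_lit 90170) (nat_lit 13) (.e (nat_lit 172106) (nat_lit 10) (.e (nat_lit 434231) (nat_lit 23) (.e (nat_lit 532553) (nat_lit 13) .nil))))) .nil)) 
(.lf (nat_lit 42978) (.g (nat_lit 2653) (.e (nat_lit 1239) (nat_lit 91) (.e (nat_lit 90170) (nat_lit 13) (.e (nat_lit 172106) (nat_lit 10) (.e (nat_lit 434238) (nat_lit 25) (.e (nat_lit 548898) (nat_lit 14) (.e (nat_lit 2965) (nat_lit 185) (.e (nat_lit 442112) (nat_lit 0) .nil))))))) (.g (nat_lit 4) .nil .nil)))) (.nd (nat_lit 5) 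
(.lf (nat_lit 42962) (.g (nat_lit 3554) (.e (nat_lit 1239) (nat_lit 91) (.e (nat_lit 90170) (nat_lit 13) (.e (nat_lit 172106) (nat_lit 10) (.e (nat_lit 434231) (nat_lit 23) (.e (nat_lit 532563) (nat_lit 15) (.e (nat_lit 385087) (nat_lit 46) (.e (nat_lit 753693) (nat_lit 13) .nil))))))) (.g (nat_lit 5) .nil .nil))) 
(.lf (nat_lit 42994) (.g (nat_lit 2843) (.e (nat_lit 1239) (nat_lit 91) (.e (nat_lit 90170) (nat_lit 13) (.e (nat_lit 172106) (nat_lit 10) (.e (nat_lit 434244) (nat_lit 28) (.e (nat_lit 573451) (nat_lit 9) (.e (nat_lit 62) (nat_lit 0) (.e (nat_lit 7089) (nat_lit 379) (.e (nat_lit 123202) (nat_lit 270) .nil)))))))) (.g (nat_lit 4) .nil .nil))))) (.nd (nat_lit 4) (.nd (nat_lit 5) 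
(.lf (nat_lit 42954) (.g (nat_lit 2174) (.e (nat_lit 1239) (nat_lit 91) (.e (nat_lit 90170) (nat_lit 13) (.e (nat_lit 172106) (nat_lit 10) (.e (nat_lit 434231) (nat_lit 23) (.e (nat_lit 532554) (nat_lit 13) (.e (nat_lit 368662) (nat_lit 18) (.e (nat_lit 4826) (nat_lit 281) (.e (nat_lit 7936) (nat_lit 81) .nil)))))))) (.g (nat_lit 4) .nil .nil))) 
(.lf (nat_lit 42986) (.g (nat_lit 2633) (.e (nat_lit 1239) (nat_lit 91) (.e (nat_lit 90170) (nat_lit 13) (.e (nat_lit 172106) (nat_lit 10) (.e (nat_lit 434244) (nat_lit 28) (.e (nat_lit 573451) (nat_lit 9) (.e (nat_lit 11) (nat_lit 0) (.e (nat_lit 7086) (nat_lit 379) (.e (nat_lit 123202) (nat_lit 270) .nil)))))))) (.g (nat_lit 4) .nil .nil)))) (.nd (nat_lit 5) 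
(.lf (nat_lit 42970) (.g (nat_lit 1543) (.e (nat_lit 1239) (nat_lit 91) (.e (nat_lit 90170) (nat_lit 13) (.e (nat_lit 172106) (nat_lit 10) (.e (nat_lit 434238) (nat_lit 25) .nil)))) .nil)) 
(.lf (nat_lit 43002) (.g (nat_lit 2543) (.e (nat_lit 1239) (nat_lit 91) (.e (nat_lit 90170) (nat_lit 13) (.e (nat_lit 172106) (nat_lit 10) (.e (nat_lit 434244) (nat_lit 28) (.e (nat_lit 573468) (nat_lit 10) (.e (nat_lit 16128) (nat_lit 181) (.e (nat_lit 57876) (nat_lit 270) .nil))))))) (.g (nat_lit 4) .nil .nil)))))) (.nd (nat_lit 3) (.nd (nat_lit 4) (.nd (nat_lit 5) 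
(.lf (nat_lit 42950) (.g (nat_lit 2705) (.e (nat_lit 1239) (nat_lit 91) (.e (nat_lit 90170) (nat_lit 13) (.e (nat_lit 172106) (nat_lit 10) (.e (nat_lit 434231) (nat_lit 23) (.e (nat_lit 532553) (nat_lit 13) (.e (nat_lit 368662) (nat_lit 18) (.e (nat_lit 4828) (nat_lit 281) (.e (nat_lit 7936) (nat_lit 81) .nil)))))))) (.g (nat_lit 4) .nil .nil))) 
(.lf (nat_lit 42982) (.g (nat_lit 935) (.e (nat_lit 1239) (nat_lit 91) (.e (nat_lit 90170) (nat_lit 13) (.e (nat_lit 172106) (nat_lit 10) (.e (nat_lit 434244) (nat_lit 28) .nil)))) .nil))) (.nd (nat_lit 5) 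
(.lf (nat_lit 42966) (.g (nat_lit 4673) (.e (nat_lit 1239) (nat_lit 91) (.e (nat_lit 90170) (nat_lit 13) (.e (nat_lit 172106) (nat_lit 10) (.e (nat_lit 434231) (nat_lit 23) (.e (nat_lit 532569) (nat_lit 16) (.e (nat_lit 401414) (nat_lit 0) (.e (nat_lit 7936) (nat_lit 402) .nil))))))) (.g (nat_lit 6) .nil .nil))) 
(.lf (nat_lit 42998) (.g (nat_lit 2118) (.e (nat_lit 1239) (nat_lit 91) (.e (nat_lit 90170) (nat_lit 13) (.e (nat_lit 172106) (nat_lit 10) (.e (nat_lit 434244) (nat_lit 28) (.e (nat_lit 573468) (nat_lit 10) .nil))))) .nil)))) (.nd (nat_lit 4) (.nd (nat_lit 5) 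
(.lf (nat_lit 42958) (.g (nat_lit 2694) (.e (nat_lit 1239) (nat_lit 91) (.e (nat_lit 90170) (nat_lit 13) (.e (nat_lit 172106) (nat_lit 10) (.e (nat_lit 434231) (nat_lit 23) (.e (nat_lit 532554) (nat_lit 13) (.e (nat_lit 368689) (nat_lit 34) (.e (nat_lit 622599) (nat_lit 5) .nil))))))) (.g (nat_lit 4) .nil .nil))) 
(.lf (nat_lit 42990) (.g (nat_lit 4435) (.e (nat_lit 1239) (nat_lit 91) (.e (nat_lit 90170) (nat_lit 13) (.e (nat_lit 172106) (nat_lit 10) (.e (nat_lit 434244) (nat_lit 28) (.e (nat_lit 573451) (nat_lit 9) (.e (nat_lit 13) (nat_lit 0) (.e (nat_lit 7079) (nat_lit 378) (.e (nat_lit 57876) (nat_lit 270) .nil)))))))) (.g (nat_lit 0) .nil .nil)))) (.nd (nat_lit 5) 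
(.lf (nat_lit 42974) (.g (nat_lit 2683) (.e (nat_lit 1239) (nat_lit 91) (.e (nat_lit 90170) (nat_lit 13) (.e (nat_lit 172106) (nat_lit 10) (.e (nat_lit 434238) (nat_lit 25) (.e (nat_lit 548897) (nat_lit 14) (.e (nat_lit 2975) (nat_lit 185) (.e (nat_lit 442112) (nat_lit 0) .nil))))))) (.g (nat_lit 4) .nil .nil))) 
(.lf (nat_lit 43006) (.g (nat_lit 3144) (.e (nat_lit 1239) (nat_lit 91) (.e (nat_lit 90170) (nat_lit 13) (.e (nat_lit 172106) (nat_lit 10) (.e (nat_lit 434244) (nat_lit 28) (.e (nat_lit 573470) (nat_lit 11) (.e (nat_lit 16387) (nat_lit 0) (.e (nat_lit 7490) (nat_lit 402) .nil))))))) (.g (nat_lit 0) .nil .nil)))))))) 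
(.nd (nat_lit 1) (.nd (nat_lit 2) (.nd (nat_lit 3) (.nd (nat_lit 4) (.nd (nat_lit 5) 
(.lf (nat_lit 42945) (.g (nat_lit 3101) (.e (nat_lit 1239) (nat_lit 91) (.e (nat_lit 90170) (nat_lit 13) (.e (nat_lit 172106) (nat_lit 10) (.e (nat_lit 434231) (nat_lit 23) (.e (nat_lit 532544) (nat_lit 10) (.e (nat_lit 344152) (nat_lit 34) (.e (nat_lit 622602) (nat_lit 5) .nil))))))) (.g (nat_lit 5) .nil .nil))) 
(.lf (nat_lit 42977) (.g (nat_lit 3190) (.e (nat_lit 1239) (nat_lit 91) (.e (nat_lit 90170) (nat_lit 13) (.e (nat_lit 172106) (nat_lit 10) (.e (nat_lit 434238) (nat_lit 25) (.e (nat_lit 548898) (nat_lit 14) (.e (nat_lit 2828) (nat_lit 182) (.e (nat_lit 409604) (nat_lit 0) (.e (nat_lit 5270) (nat_lit 298) .nil)))))))) (.g (nat_lit 5) .nil .nil)))) (.nd (nat_lit 5) 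
(.lf (nat_lit 42961) (.g (nat_lit 3150) (.e (nat_lit 1239) (nat_lit 91) (.e (nat_lit 90170) (nat_lit 13) (.e (nat_lit 172106) (nat_lit 10) (.e (nat_lit 434231) (nat_lit 23) (.e (nat_lit 532554) (nat_lit 13) (.e (nat_lit 368689) (nat_lit 34) (.e (nat_lit 622602) (nat_lit 5) .nil))))))) (.g (nat_lit 5) .nil .nil))) 
(.lf (nat_lit 42993) (.g (nat_lit 2394) (.e (nat_lit 1239) (nat_lit 91) (.e (nat_lit 90170) (nat_lit 13) (.e (nat_lit 172106) (nat_lit 10) (.e (nat_lit 434244) (nat_lit 28) (.e (nat_lit 573451) (nat_lit 9) (.e (nat_lit 62) (nat_lit 0) (.e (nat_lit 7088) (nat_lit 379) (.e (nat_lit 123202) (nat_lit 270) .nil)))))))) (.g (nat_lit 4) .nil .nil))))) (.nd (nat_lit 4) (.nd (nat_lit 5) 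
(.lf (nat_lit 42953) (.g (nat_lit 2845) (.e (nat_lit 1239) (nat_lit 91) (.e (nat_lit 90170) (nat_lit 13) (.e (nat_lit 172106) (nat_lit 10) (.e (nat_lit 434231) (nat_lit 23) (.e (nat_lit 532554) (nat_lit 13) (.e (nat_lit 368662) (nat_lit 18) (.e (nat_lit 4776) (nat_lit 281) (.e (nat_lit 1011) (nat_lit 81) .nil)))))))) (.g (nat_lit 4) .nil .nil))) 
(.lf (nat_lit 42985) (.g (nat_lit 2315) (.e (nat_lit 1239) (nat_lit 91) (.e (nat_lit 90170) (nat_lit 13) (.e (nat_lit 172106) (nat_lit 10) (.e (nat_lit 434244) (nat_lit 28) (.e (nat_lit 573451) (nat_lit 9) (.e (nat_lit 11) (nat_lit 0) (.e (nat_lit 7080) (nat_lit 378) (.e (nat_lit 57876) (nat_lit 270) .nil)))))))) (.g (nat_lit 4) .nil .nil)))) (.nd (nat_lit 5) 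
(.lf (nat_lit 42969) (.g (nat_lit 2054) (.e (nat_lit 1239) (nat_lit 91) (.e (nat_lit 90170) (nat_lit 13) (.e (nat_lit 172106) (nat_lit 10) (.e (nat_lit 434237) (nat_lit 25) .nil)))) .nil)) 
(.lf (nat_lit 43001) (.g (nat_lit 2835) (.e (nat_lit 1239) (nat_lit 91) (.e (nat_lit 90170) (nat_lit 13) (.e (nat_lit 172106) (nat_lit 10) (.e (nat_lit 434244) (nat_lit 28) (.e (nat_lit 573468) (nat_lit 10) (.e (nat_lit 8493) (nat_lit 180) (.e (nat_lit 1078) (nat_lit 81) (.e (nat_lit 5270) (nat_lit 298) .nil)))))))) (.g (nat_lit 4) .nil .nil)))))) 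
(.nd (nat_lit 3) (.nd (nat_lit 4) (.nd (nat_lit 5) 
(.lf (nat_lit 42949) (.g (nat_lit 2607) (.e (nat_lit 1239) (nat_lit 91) (.e (nat_lit 90170) (nat_lit 13) (.e (nat_lit 172106) (nat_lit 10) (.e (nat_lit 434231) (nat_lit 23) (.e (nat_lit 532553) (nat_lit 13) (.e (nat_lit 368662) (nat_lit 18) (.e (nat_lit 4827) (nat_lit 281) (.e (nat_lit 7936) (nat_lit 81) .nil)))))))) (.g (nat_lit 4) .nil .nil))) 
(.lf (nat_lit 42981) (.g (nat_lit 2465) (.e (nat_lit 1239) (nat_lit 91) (.e (nat_lit 90170) (nat_lit 13) (.e (nat_lit 172106) (nat_lit 10) (.e (nat_lit 434238) (nat_lit 25) (.e (nat_lit 556800) (nat_lit 19) .nil))))) .nil))) (.nd (nat_lit 5) 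
(.lf (nat_lit 42965) (.g (nat_lit 4900) (.e (nat_lit 1239) (nat_lit 91) (.e (nat_lit 90170) (nat_lit 13) (.e (nat_lit 172106) (nat_lit 10) (.e (nat_lit 434231) (nat_lit 23) (.e (nat_lit 532569) (nat_lit 16) (.e (nat_lit 401408) (nat_lit 0) (.e (nat_lit 7490) (nat_lit 402) .nil))))))) (.g (nat_lit 0) .nil .nil))) 
(.lf (nat_lit 42997) (.g (nat_lit 2534) (.e (nat_lit 1239) (nat_lit 91) (.e (nat_lit 90170) (nat_lit 13) (.e (nat_lit 172106) (nat_lit 10) (.e (nat_lit 434244) (nat_lit 28) (.e (nat_lit 573458) (nat_lit 9) (.e (nat_lit 48) (nat_lit 0) (.e (nat_lit 7083) (nat_lit 379) (.e (nat_lit 123202) (nat_lit 270) .nil)))))))) (.g (nat_lit 4) .nil .nil))))) (.nd (nat_lit 4) (.nd (nat_lit 5) 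
(.lf (nat_lit 42957) (.g (nat_lit 3265) (.e (nat_lit 1239) (nat_lit 91) (.e (nat_lit 90170) (nat_lit 13) (.e (nat_lit 172106) (nat_lit 10) (.e (nat_lit 434231) (nat_lit 23) (.e (nat_lit 532554) (nat_lit 13) (.e (nat_lit 368689) (nat_lit 34) (.e (nat_lit 622598) (nat_lit 5) .nil))))))) (.g (nat_lit 4) .nil .nil))) 
(.lf (nat_lit 42989) (.g (nat_lit 4421) (.e (nat_lit 1239) (nat_lit 91) (.e (nat_lit 90170) (nat_lit 13) (.e (nat_lit 172106) (nat_lit 10) (.e (nat_lit 434244) (nat_lit 28) (.e (nat_lit 573451) (nat_lit 9) (.e (nat_lit 13) (nat_lit 0) (.e (nat_lit 7077) (nat_lit 378) (.e (nat_lit 57876) (nat_lit 270) .nil)))))))) (.g (nat_lit 0) .nil .nil)))) (.nd (nat_lit 5) 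
(.lf (nat_lit 42973) (.g (nat_lit 2621) (.e (nat_lit 1239) (nat_lit 91) (.e (nat_lit 90170) (nat_lit 13) (.e (nat_lit 172106) (nat_lit 10) (.e (nat_lit 434238) (nat_lit 25) (.e (nat_lit 548897) (nat_lit 14) (.e (nat_lit 2828) (nat_lit 182) (.e (nat_lit 409604) (nat_lit 0) (.e (nat_lit 5270) (nat_lit 298) .nil)))))))) (.g (nat_lit 4) .nil .nil))) 
(.lf (nat_lit 43005) (.g (nat_lit 3207) (.e (nat_lit 1239) (nat_lit 91) (.e (nat_lit 90170) (nat_lit 13) (.e (nat_lit 172106) (nat_lit 10) (.e (nat_lit 434244) (nat_lit 28) (.e (nat_lit 573470) (nat_lit 11) (.e (nat_lit 16385) (nat_lit 0) (.e (nat_lit 7490) (nat_lit 402) .nil))))))) (.g (nat_lit 0) .nil .nil))))))) (.nd (nat_lit 2) (.nd (nat_lit 3) (.nd (nat_lit 4) (.nd (nat_lit 5) 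
(.lf (nat_lit 42947) (.g (nat_lit 3502) (.e (nat_lit 1239) (nat_lit 91) (.e (nat_lit 90170) (nat_lit 13) (.e (nat_lit 172106) (nat_lit 10) (.e (nat_lit 434231) (nat_lit 23) (.e (nat_lit 532553) (nat_lit 13) (.e (nat_lit 368662) (nat_lit 18) (.e (nat_lit 4776) (nat_lit 281) (.e (nat_lit 1009) (nat_lit 81) .nil)))))))) (.g (nat_lit 4) .nil .nil))) 
(.lf (nat_lit 42979) (.g (nat_lit 3345) (.e (nat_lit 1239) (nat_lit 91) (.e (nat_lit 90170) (nat_lit 13) (.e (nat_lit 172106) (nat_lit 10) (.e (nat_lit 434238) (nat_lit 25) (.e (nat_lit 548898) (nat_lit 14) (.e (nat_lit 2980) (nat_lit 185) (.e (nat_lit 442112) (nat_lit 0) .nil))))))) (.g (nat_lit 5) .nil .nil)))) (.nd (nat_lit 5) 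
(.lf (nat_lit 42963) (.g (nat_lit 3853) (.e (nat_lit 1239) (nat_lit 91) (.e (nat_lit 90170) (nat_lit 13) (.e (nat_lit 172106) (nat_lit 10) (.e (nat_lit 434231) (nat_lit 23) (.e (nat_lit 532563) (nat_lit 15) (.e (nat_lit 385087) (nat_lit 46) (.e (nat_lit 753694) (nat_lit 13) .nil))))))) (.g (nat_lit 5) .nil .nil))) 
(.lf (nat_lit 42995) (.g (nat_lit 2701) (.e (nat_lit 1239) (nat_lit 91) (.e (nat_lit 90170) (nat_lit 13) (.e (nat_lit 172106) (nat_lit 10) (.e (nat_lit 434244) (nat_lit 28) (.e (nat_lit 573451) (nat_lit 9) (.e (nat_lit 365) (nat_lit 31) (.e (nat_lit 417802) (nat_lit 0) (.e (nat_lit 5270) (nat_lit 298) .nil)))))))) (.g (nat_lit 4) .nil .nil))))) (.nd (nat_lit 4) (.nd (nat_lit 5) 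
(.lf (nat_lit 42955) (.g (nat_lit 2621) (.e (nat_lit 1239) (nat_lit 91) (.e (nat_lit 90170) (nat_lit 13) (.e (nat_lit 172106) (nat_lit 10) (.e (nat_lit 434231) (nat_lit 23) (.e (nat_lit 532554) (nat_lit 13) (.e (nat_lit 368662) (nat_lit 18) (.e (nat_lit 4827) (nat_lit 281) (.e (nat_lit 7936) (nat_lit 81) .nil)))))))) (.g (nat_lit 4) .nil .nil))) 
(.lf (nat_lit 42987) (.g (nat_lit 4035) (.e (nat_lit 1239) (nat_lit 91) (.e (nat_lit 90170) (nat_lit 13) (.e (nat_lit 172106) (nat_lit 10) (.e (nat_lit 434244) (nat_lit 28) (.e (nat_lit 573451) (nat_lit 9) (.e (nat_lit 11) (nat_lit 0) (.e (nat_lit 7089) (nat_lit 379) (.e (nat_lit 123202) (nat_lit 270) .nil)))))))) (.g (nat_lit 5) .nil .nil)))) (.nd (nat_lit 5) 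
(.lf (nat_lit 42971) (.g (nat_lit 2633) (.e (nat_lit 1239) (nat_lit 91) (.e (nat_lit 90170) (nat_lit 13) (.e (nat_lit 172106) (nat_lit 10) (.e (nat_lit 434238) (nat_lit 25) (.e (nat_lit 548894) (nat_lit 14) (.e (nat_lit 3031) (nat_lit 188) (.e (nat_lit 466688) (nat_lit 0) .nil))))))) (.g (nat_lit 4) .nil .nil))) 
(.lf (nat_lit 43003) (.g (nat_lit 3344) (.e (nat_lit 1239) (nat_lit 91) (.e (nat_lit 90170) (nat_lit 13) (.e (nat_lit 172106) (nat_lit 10) (.e (nat_lit 434244) (nat_lit 28) (.e (nat_lit 573468) (nat_lit 10) (.e (nat_lit 8497) (nat_lit 182) (.e (nat_lit 123202) (nat_lit 270) .nil))))))) (.g (nat_lit 5) .nil .nil)))))) (.nd (nat_lit 3) (.nd (nat_lit 4) (.nd (nat_lit 5) 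
(.lf (nat_lit 42951) (.g (nat_lit 2867) (.e (nat_lit 1239) (nat_lit 91) (.e (nat_lit 90170) (nat_lit 13) (.e (nat_lit 172106) (nat_lit 10) (.e (nat_lit 434231) (nat_lit 23) (.e (nat_lit 532554) (nat_lit 13) (.e (nat_lit 368660) (nat_lit 18) (.e (nat_lit 4780) (nat_lit 281) (.e (nat_lit 1010) (nat_lit 81) .nil)))))))) (.g (nat_lit 4) .nil .nil))) 
(.lf (nat_lit 42983) (.g (nat_lit 1947) (.e (nat_lit 1239) (nat_lit 91) (.e (nat_lit 90170) (nat_lit 13) (.e (nat_lit 172106) (nat_lit 10) (.e (nat_lit 434244) (nat_lit 28) (.e (nat_lit 573450) (nat_lit 9) .nil))))) .nil))) (.nd (nat_lit 5) 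
(.lf (nat_lit 42967) (.g (nat_lit 2225) (.e (nat_lit 1239) (nat_lit 91) (.e (nat_lit 90170) (nat_lit 13) (.e (nat_lit 172106) (nat_lit 10) (.e (nat_lit 434232) (nat_lit 23) (.e (nat_lit 532523) (nat_lit 7) .nil))))) .nil)) 
(.lf (nat_lit 42999) (.g (nat_lit 2720) (.e (nat_lit 1239) (nat_lit 91) (.e (nat_lit 90170) (nat_lit 13) (.e (nat_lit 172106) (nat_lit 10) (.e (nat_lit 434244) (nat_lit 28) (.e (nat_lit 573468) (nat_lit 10) (.e (nat_lit 8490) (nat_lit 180) (.e (nat_lit 1071) (nat_lit 81) (.e (nat_lit 5270) (nat_lit 298) .nil)))))))) (.g (nat_lit 4) .nil .nil))))) (.nd (nat_lit 4) (.nd (nat_lit 5) 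
(.lf (nat_lit 42959) (.g (nat_lit 3583) (.e (nat_lit 1239) (nat_lit 91) (.e (nat_lit 90170) (nat_lit 13) (.e (nat_lit 172106) (nat_lit 10) (.e (nat_lit 434231) (nat_lit 23) (.e (nat_lit 532554) (nat_lit 13) (.e (nat_lit 368689) (nat_lit 34) (.e (nat_lit 622600) (nat_lit 5) .nil))))))) (.g (nat_lit 7) .nil .nil))) 
(.lf (nat_lit 42991) (.g (nat_lit 4426) (.e (nat_lit 1239) (nat_lit 91) (.e (nat_lit 90170) (nat_lit 13) (.e (nat_lit 172106) (nat_lit 10) (.e (nat_lit 434244) (nat_lit 28) (.e (nat_lit 573451) (nat_lit 9) (.e (nat_lit 13) (nat_lit 0) (.e (nat_lit 7081) (nat_lit 378) (.e (nat_lit 57876) (nat_lit 270) .nil)))))))) (.g (nat_lit 0) .nil .nil)))) (.nd (nat_lit 5) 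
(.lf (nat_lit 42975) (.g (nat_lit 2368) (.e (nat_lit 1239) (nat_lit 91) (.e (nat_lit 90170) (nat_lit 13) (.e (nat_lit 172106) (nat_lit 10) (.e (nat_lit 434238) (nat_lit 25) (.e (nat_lit 548898) (nat_lit 14) (.e (nat_lit 2828) (nat_lit 182) (.e (nat_lit 409602) (nat_lit 0) (.e (nat_lit 5270) (nat_lit 298) .nil)))))))) (.g (nat_lit 4) .nil .nil))) 
(.lf (nat_lit 43007) (.g (nat_lit 3912) (.e (nat_lit 1239) (nat_lit 91) (.e (nat_lit 90170) (nat_lit 13) (.e (nat_lit 172106) (nat_lit 10) (.e (nat_lit 434244) (nat_lit 28) (.e (nat_lit 573470) (nat_lit 11) (.e (nat_lit 16388) (nat_lit 0) (.e (nat_lit 7490) (nat_lit 402) .nil))))))) (.g (nat_lit 0) .nil .nil)))))))))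

noncomputable def tv599 : DT := (.nd (nat_lit 0) (.nd (nat_lit 1) (.nd (nat_lit 2) (.nd (nat_lit 3) (.nd (nat_lit 4) (.nd (nat_lit 5) 
(.lf (nat_lit 43008) (.g (nat_lit 1828) (.e (nat_lit 1239) (nat_lit 91) (.e (nat_lit 90170) (nat_lit 13) (.e (nat_lit 172106) (nat_lit 10) (.e (nat_lit 434244) (nat_lit 28) (.e (nat_lit 573471) (nat_lit 11) .nil))))) .nil)) 
(.lf (nat_lit 43040) (.g (nat_lit 4652) (.e (nat_lit 1239) (nat_lit 91) (.e (nat_lit 90170) (nat_lit 13) (.e (nat_lit 172113) (nat_lit 10) (.e (nat_lit 434231) (nat_lit 23) (.e (nat_lit 532523) (nat_lit 7) (.e (nat_lit 319511) (nat_lit 10) (.e (nat_lit 5270) (nat_lit 298) .nil))))))) (.g (nat_lit 5) .nil .nil)))) (.nd (nat_lit 5) 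
(.lf (nat_lit 43024) (.g (nat_lit 1264) (.e (nat_lit 1239) (nat_lit 91) (.e (nat_lit 90170) (nat_lit 13) (.e (nat_lit 172113) (nat_lit 10) (.e (nat_lit 434203) (nat_lit 18) .nil)))) .nil)) 
(.lf (nat_lit 43056) (.g (nat_lit 2680) (.e (nat_lit 1239) (nat_lit 91) (.e (nat_lit 90170) (nat_lit 13) (.e (nat_lit 172113) (nat_lit 10) (.e (nat_lit 434238) (nat_lit 25) (.e (nat_lit 548914) (nat_lit 19) (.e (nat_lit 188160) (nat_lit 32) .nil)))))) (.g (nat_lit 5) .nil .nil))))) (.nd (nat_lit 4) (.nd (nat_lit 5) 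
(.lf (nat_lit 43016) (.g (nat_lit 4133) (.e (nat_lit 1239) (nat_lit 91) (.e (nat_lit 90170) (nat_lit 13) (.e (nat_lit 172106) (nat_lit 10) (.e (nat_lit 434244) (nat_lit 28) (.e (nat_lit 573471) (nat_lit 11) (.e (nat_lit 16396) (nat_lit 0) (.e (nat_lit 7936) (nat_lit 402) .nil))))))) (.g (nat_lit 6) .nil .nil))) 
(.lf (nat_lit 43048) (.g (nat_lit 2540) (.e (nat_lit 1239) (nat_lit 91) (.e (nat_lit 90170) (nat_lit 13) (.e (nat_lit 172113) (nat_lit 10) (.e (nat_lit 434238) (nat_lit 25) (.e (nat_lit 548896) (nat_lit 14) (.e (nat_lit 2825) (nat_lit 182) (.e (nat_lit 409605) (nat_lit 0) (.e (nat_lit 5270) (nat_lit 298) .nil)))))))) (.g (nat_lit 4) .nil .nil)))) (.nd (nat_lit 5) 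
(.lf (nat_lit 43032) (.g (nat_lit 2079) (.e (nat_lit 1239) (nat_lit 91) (.e (nat_lit 90170) (nat_lit 13) (.e (nat_lit 172113) (nat_lit 10) (.e (nat_lit 434227) (nat_lit 20) (.e (nat_lit 507930) (nat_lit 10) (.e (nat_lit 5762) (nat_lit 315) (.e (nat_lit 171776) (nat_lit 187) .nil))))))) (.g (nat_lit 4) .nil .nil))) 
(.lf (nat_lit 43064) (.g (nat_lit 3978) (.e (nat_lit 1239) (nat_lit 91) (.e (nat_lit 90170) (nat_lit 13) (.e (nat_lit 172113) (nat_lit 10) (.e (nat_lit 434242) (nat_lit 28) (.e (nat_lit 573471) (nat_lit 11) (.e (nat_lit 16388) (nat_lit 0) (.e (nat_lit 7490) (nat_lit 402) .nil))))))) (.g (nat_lit 6) .nil .nil)))))) (.nd (nat_lit 3) (.nd (nat_lit 4) (.nd (nat_lit 5) 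
(.lf (nat_lit 43012) (.g (nat_lit 2895) (.e (nat_lit 1239) (nat_lit 91) (.e (nat_lit 90170) (nat_lit 13) (.e (nat_lit 172106) (nat_lit 10) (.e (nat_lit 434244) (nat_lit 28) (.e (nat_lit 573471) (nat_lit 11) (.e (nat_lit 16390) (nat_lit 0) (.e (nat_lit 7936) (nat_lit 402) .nil))))))) (.g (nat_lit 4) .nil .nil))) 
(.lf (nat_lit 43044) (.g (nat_lit 2694) (.e (nat_lit 1239) (nat_lit 91) (.e (nat_lit 90170) (nat_lit 13) (.e (nat_lit 172113) (nat_lit 10) (.e (nat_lit 434234) (nat_lit 23) (.e (nat_lit 532523) (nat_lit 7) (.e (nat_lit 319504) (nat_lit 10) (.e (nat_lit 7936) (nat_lit 298) .nil))))))) (.g (nat_lit 6) .nil .nil)))) (.nd (nat_lit 5) 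
(.lf (nat_lit 43028) (.g (nat_lit 2012) (.e (nat_lit 1239) (nat_lit 91) (.e (nat_lit 90170) (nat_lit 13) (.e (nat_lit 172113) (nat_lit 10) (.e (nat_lit 434227) (nat_lit 20) (.e (nat_lit 507929) (nat_lit 10) (.e (nat_lit 5758) (nat_lit 315) (.e (nat_lit 171776) (nat_lit 187) .nil))))))) (.g (nat_lit 4) .nil .nil))) 
(.lf (nat_lit 43060) (.g (nat_lit 1779) (.e (nat_lit 1239) (nat_lit 91) (.e (nat_lit 90170) (nat_lit 13) (.e (nat_lit 172113) (nat_lit 10) (.e (nat_lit 434242) (nat_lit 28) (.e (nat_lit 573466) (nat_lit 10) (.e (nat_lit 8497) (nat_lit 182) (.e (nat_lit 123202) (nat_lit 270) .nil))))))) (.g (nat_lit 4) .nil .nil))))) (.nd (nat_lit 4) (.nd (nat_lit 5) 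
(.lf (nat_lit 43020) (.g (nat_lit 733) (.e (nat_lit 1239) (nat_lit 91) (.e (nat_lit 90170) (nat_lit 13) (.e (nat_lit 172107) (nat_lit 10) .nil))) .nil)) 
(.lf (nat_lit 43052) (.g (nat_lit 2525) (.e (nat_lit 1239) (nat_lit 91) (.e (nat_lit 90170) (nat_lit 13) (.e (nat_lit 172113) (nat_lit 10) (.e (nat_lit 434238) (nat_lit 25) (.e (nat_lit 548898) (nat_lit 14) (.e (nat_lit 2828) (nat_lit 182) (.e (nat_lit 409602) (nat_lit 0) (.e (nat_lit 5270) (nat_lit 298) .nil)))))))) (.g (nat_lit 4) .nil .nil)))) (.nd (nat_lit 5) 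
(.lf (nat_lit 43036) (.g (nat_lit 4584) (.e (nat_lit 1239) (nat_lit 91) (.e (nat_lit 90170) (nat_lit 13) (.e (nat_lit 172113) (nat_lit 10) (.e (nat_lit 434231) (nat_lit 23) (.e (nat_lit 532523) (nat_lit 7) (.e (nat_lit 319504) (nat_lit 10) (.e (nat_lit 5272) (nat_lit 298) .nil))))))) (.g (nat_lit 6) .nil .nil))) 
(.lf (nat_lit 43068) (.g (nat_lit 1908) (.e (nat_lit 1239) (nat_lit 91) (.e (nat_lit 90170) (nat_lit 13) (.e (nat_lit 172113) (nat_lit 10) (.e (nat_lit 434245) (nat_lit 28) (.e (nat_lit 573451) (nat_lit 9) .nil))))) .nil)))))) (.nd (nat_lit 2) (.nd (nat_lit 3) (.nd (nat_lit 4) (.nd (nat_lit 5) 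
(.lf (nat_lit 43010) (.g (nat_lit 4247) (.e (nat_lit 1239) (nat_lit 91) (.e (nat_lit 90170) (nat_lit 13) (.e (nat_lit 172106) (nat_lit 10) (.e (nat_lit 434244) (nat_lit 28) (.e (nat_lit 573471) (nat_lit 11) (.e (nat_lit 16387) (nat_lit 0) (.e (nat_lit 7490) (nat_lit 402) .nil))))))) (.g (nat_lit 7) .nil .nil))) 
(.lf (nat_lit 43042) (.g (nat_lit 3282) (.e (nat_lit 1239) (nat_lit 91) (.e (nat_lit 90170) (nat_lit 13) (.e (nat_lit 172113) (nat_lit 10) (.e (nat_lit 434231) (nat_lit 23) (.e (nat_lit 532525) (nat_lit 8) (.e (nat_lit 327708) (nat_lit 10) (.e (nat_lit 5270) (nat_lit 298) .nil))))))) (.g (nat_lit 5) .nil .nil)))) (.nd (nat_lit 5) 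
(.lf (nat_lit 43026) (.g (nat_lit 1942) (.e (nat_lit 1239) (nat_lit 91) (.e (nat_lit 90170) (nat_lit 13) (.e (nat_lit 172113) (nat_lit 10) (.e (nat_lit 434208) (nat_lit 18) (.e (nat_lit 6595) (nat_lit 351) .nil))))) .nil)) 
(.lf (nat_lit 43058) (.g (nat_lit 2021) (.e (nat_lit 1239) (nat_lit 91) (.e (nat_lit 90170) (nat_lit 13) (.e (nat_lit 172113) (nat_lit 10) (.e (nat_lit 434242) (nat_lit 28) (.e (nat_lit 573451) (nat_lit 9) (.e (nat_lit 13) (nat_lit 0) (.e (nat_lit 7081) (nat_lit 378) (.e (nat_lit 57876) (nat_lit 270) .nil)))))))) (.g (nat_lit 4) .nil .nil))))) (.nd (nat_lit 4) (.nd (nat_lit 5) 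
(.lf (nat_lit 43018) (.g (nat_lit 2394) (.e (nat_lit 1239) (nat_lit 91) (.e (nat_lit 90170) (nat_lit 13) (.e (nat_lit 172106) (nat_lit 10) (.e (nat_lit 434244) (nat_lit 28) (.e (nat_lit 573471) (nat_lit 11) (.e (nat_lit 16398) (nat_lit 0) (.e (nat_lit 7936) (nat_lit 402) .nil))))))) (.g (nat_lit 4) .nil .nil))) 
(.lf (nat_lit 43050) (.g (nat_lit 2690) (.e (nat_lit 1239) (nat_lit 91) (.e (nat_lit 90170) (nat_lit 13) (.e (nat_lit 172113) (nat_lit 10) (.e (nat_lit 434238) (nat_lit 25) (.e (nat_lit 548897) (nat_lit 14) (.e (nat_lit 2825) (nat_lit 182) (.e (nat_lit 409605) (nat_lit 0) (.e (nat_lit 5270) (nat_lit 298) .nil)))))))) (.g (nat_lit 4) .nil .nil)))) (.nd (nat_lit 5) 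
(.lf (nat_lit 43034) (.g (nat_lit 4300) (.e (nat_lit 1239) (nat_lit 91) (.e (nat_lit 90170) (nat_lit 13) (.e (nat_lit 172113) (nat_lit 10) (.e (nat_lit 434231) (nat_lit 23) (.e (nat_lit 532523) (nat_lit 7) (.e (nat_lit 319504) (nat_lit 10) (.e (nat_lit 5255) (nat_lit 298) .nil))))))) (.g (nat_lit 5) .nil .nil))) 
(.lf (nat_lit 43066) (.g (nat_lit 1688) (.e (nat_lit 1239) (nat_lit 91) (.e (nat_lit 90170) (nat_lit 13) (.e (nat_lit 172113) (nat_lit 10) (.e (nat_lit 434245) (nat_lit 28) (.e (nat_lit 573449) (nat_lit 9) .nil))))) .nil))))) (.nd (nat_lit 3) (.nd (nat_lit 4) (.nd (nat_lit 5) 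
(.lf (nat_lit 43014) (.g (nat_lit 4075) (.e (nat_lit 1239) (nat_lit 91) (.e (nat_lit 90170) (nat_lit 13) (.e (nat_lit 172106) (nat_lit 10) (.e (nat_lit 434244) (nat_lit 28) (.e (nat_lit 573471) (nat_lit 11) (.e (nat_lit 16392) (nat_lit 0) (.e (nat_lit 7936) (nat_lit 402) .nil))))))) (.g (nat_lit 6) .nil .nil))) 
(.lf (nat_lit 43046) (.g (nat_lit 1549) (.e (nat_lit 1239) (nat_lit 91) (.e (nat_lit 90170) (nat_lit 13) (.e (nat_lit 172113) (nat_lit 10) (.e (nat_lit 434237) (nat_lit 25) .nil)))) .nil))) (.nd (nat_lit 5) 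
(.lf (nat_lit 43030) (.g (nat_lit 2252) (.e (nat_lit 1239) (nat_lit 91) (.e (nat_lit 90170) (nat_lit 13) (.e (nat_lit 172113) (nat_lit 10) (.e (nat_lit 434227) (nat_lit 20) (.e (nat_lit 507930) (nat_lit 10) (.e (nat_lit 5756) (nat_lit 315) (.e (nat_lit 171776) (nat_lit 187) .nil))))))) (.g (nat_lit 5) .nil .nil))) 
(.lf (nat_lit 43062) (.g (nat_lit 2637) (.e (nat_lit 1239) (nat_lit 91) (.e (nat_lit 90170) (nat_lit 13) (.e (nat_lit 172113) (nat_lit 10) (.e (nat_lit 434242) (nat_lit 28) (.e (nat_lit 573470) (nat_lit 11) (.e (nat_lit 16388) (nat_lit 0) (.e (nat_lit 7490) (nat_lit 402) .nil))))))) (.g (nat_lit 5) .nil .nil))))) (.nd (nat_lit 4) (.nd (nat_lit 5) 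
(.lf (nat_lit 43022) (.g (nat_lit 1500) (.e (nat_lit 1239) (nat_lit 91) (.e (nat_lit 90170) (nat_lit 13) (.e (nat_lit 172113) (nat_lit 10) (.e (nat_lit 434200) (nat_lit 18) .nil)))) .nil)) 
(.lf (nat_lit 43054) (.g (nat_lit 3347) (.e (nat_lit 1239) (nat_lit 91) (.e (nat_lit 90170) (nat_lit 13) (.e (nat_lit 172113) (nat_lit 10) (.e (nat_lit 434238) (nat_lit 25) (.e (nat_lit 548898) (nat_lit 14) (.e (nat_lit 2828) (nat_lit 182) (.e (nat_lit 409604) (nat_lit 0) (.e (nat_lit 5270) (nat_lit 298) .nil)))))))) (.g (nat_lit 5) .nil .nil)))) (.nd (nat_lit 5) 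
(.lf (nat_lit 43038) (.g (nat_lit 4882) (.e (nat_lit 1239) (nat_lit 91) (.e (nat_lit 90170) (nat_lit 13) (.e (nat_lit 172113) (nat_lit 10) (.e (nat_lit 434231) (nat_lit 23) (.e (nat_lit 532523) (nat_lit 7) (.e (nat_lit 319505) (nat_lit 10) (.e (nat_lit 5258) (nat_lit 298) .nil))))))) (.g (nat_lit 5) .nil .nil))) 
(.lf (nat_lit 43070) (.g (nat_lit 2748) (.e (nat_lit 1239) (nat_lit 91) (.e (nat_lit 90170) (nat_lit 13) (.e (nat_lit 172113) (nat_lit 10) (.e (nat_lit 434245) (nat_lit 28) (.e (nat_lit 573451) (nat_lit 9) (.e (nat_lit 11) (nat_lit 0) (.e (nat_lit 7088) (nat_lit 379) (.e (nat_lit 123202) (nat_lit 270) .nil)))))))) (.g (nat_lit 5) .nil .nil)))))))) 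
(.nd (nat_lit 1) (.nd (nat_lit 2) (.nd (nat_lit 3) (.nd (nat_lit 4) (.nd (nat_lit 5) 
(.lf (nat_lit 43009) (.g (nat_lit 4453) (.e (nat_lit 1239) (nat_lit 91) (.e (nat_lit 90170) (nat_lit 13) (.e (nat_lit 172106) (nat_lit 10) (.e (nat_lit 434244) (nat_lit 28) (.e (nat_lit 573471) (nat_lit 11) (.e (nat_lit 16385) (nat_lit 0) (.e (nat_lit 7490) (nat_lit 402) .nil))))))) (.g (nat_lit 0) .nil .nil))) 
(.lf (nat_lit 43041) (.g (nat_lit 2038) (.e (nat_lit 1239) (nat_lit 91) (.e (nat_lit 90170) (nat_lit 13) (.e (nat_lit 172113) (nat_lit 10) (.e (nat_lit 434231) (nat_lit 23) (.e (nat_lit 532525) (nat_lit 8) (.e (nat_lit 327704) (nat_lit 10) (.e (nat_lit 5245) (nat_lit 298) .nil))))))) (.g (nat_lit 4) .nil .nil)))) (.nd (nat_lit 5) 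
(.lf (nat_lit 43025) (.g (nat_lit 2052) (.e (nat_lit 1239) (nat_lit 91) (.e (nat_lit 90170) (nat_lit 13) (.e (nat_lit 172113) (nat_lit 10) (.e (nat_lit 434203) (nat_lit 18) (.e (nat_lit 3953) (nat_lit 239) .nil))))) .nil)) 
(.lf (nat_lit 43057) (.g (nat_lit 953) (.e (nat_lit 1239) (nat_lit 91) (.e (nat_lit 90170) (nat_lit 13) (.e (nat_lit 172113) (nat_lit 10) (.e (nat_lit 434242) (nat_lit 28) .nil)))) .nil)))) (.nd (nat_lit 4) (.nd (nat_lit 5) 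
(.lf (nat_lit 43017) (.g (nat_lit 3431) (.e (nat_lit 1239) (nat_lit 91) (.e (nat_lit 90170) (nat_lit 13) (.e (nat_lit 172106) (nat_lit 10) (.e (nat_lit 434244) (nat_lit 28) (.e (nat_lit 573471) (nat_lit 11) (.e (nat_lit 16397) (nat_lit 0) (.e (nat_lit 7936) (nat_lit 402) .nil))))))) (.g (nat_lit 5) .nil .nil))) 
(.lf (nat_lit 43049) (.g (nat_lit 1997) (.e (nat_lit 1239) (nat_lit 91) (.e (nat_lit 90170) (nat_lit 13) (.e (nat_lit 172113) (nat_lit 10) (.e (nat_lit 434238) (nat_lit 25) (.e (nat_lit 548897) (nat_lit 14) .nil))))) .nil))) (.nd (nat_lit 5) 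
(.lf (nat_lit 43033) (.g (nat_lit 2047) (.e (nat_lit 1239) (nat_lit 91) (.e (nat_lit 90170) (nat_lit 13) (.e (nat_lit 172113) (nat_lit 10) (.e (nat_lit 434227) (nat_lit 20) (.e (nat_lit 507942) (nat_lit 15) (.e (nat_lit 278550) (nat_lit 10) (.e (nat_lit 5271) (nat_lit 298) .nil))))))) (.g (nat_lit 4) .nil .nil))) 
(.lf (nat_lit 43065) (.g (nat_lit 1106) (.e (nat_lit 1239) (nat_lit 91) (.e (nat_lit 90170) (nat_lit 13) (.e (nat_lit 172113) (nat_lit 10) (.e (nat_lit 434245) (nat_lit 28) .nil)))) .nil))))) (.nd (nat_lit 3) (.nd (nat_lit 4) (.nd (nat_lit 5) 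
(.lf (nat_lit 43013) (.g (nat_lit 2749) (.e (nat_lit 1239) (nat_lit 91) (.e (nat_lit 90170) (nat_lit 13) (.e (nat_lit 172106) (nat_lit 10) (.e (nat_lit 434244) (nat_lit 28) (.e (nat_lit 573471) (nat_lit 11) (.e (nat_lit 16391) (nat_lit 0) (.e (nat_lit 7936) (nat_lit 402) .nil))))))) (.g (nat_lit 4) .nil .nil))) 
(.lf (nat_lit 43045) (.g (nat_lit 2139) (.e (nat_lit 1239) (nat_lit 91) (.e (nat_lit 90170) (nat_lit 13) (.e (nat_lit 172113) (nat_lit 10) (.e (nat_lit 434236) (nat_lit 25) (.e (nat_lit 548914) (nat_lit 19) (.e (nat_lit 188160) (nat_lit 32) .nil)))))) (.g (nat_lit 4) .nil .nil)))) (.nd (nat_lit 5) 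
(.lf (nat_lit 43029) (.g (nat_lit 1889) (.e (nat_lit 1239) (nat_lit 91) (.e (nat_lit 90170) (nat_lit 13) (.e (nat_lit 172113) (nat_lit 10) (.e (nat_lit 434227) (nat_lit 20) (.e (nat_lit 507929) (nat_lit 10) (.e (nat_lit 5762) (nat_lit 315) (.e (nat_lit 171776) (nat_lit 187) .nil))))))) (.g (nat_lit 4) .nil .nil))) 
(.lf (nat_lit 43061) (.g (nat_lit 2718) (.e (nat_lit 1239) (nat_lit 91) (.e (nat_lit 90170) (nat_lit 13) (.e (nat_lit 172113) (nat_lit 10) (.e (nat_lit 434242) (nat_lit 28) (.e (nat_lit 573469) (nat_lit 11) (.e (nat_lit 16388) (nat_lit 0) (.e (nat_lit 7490) (nat_lit 402) .nil))))))) (.g (nat_lit 5) .nil .nil))))) (.nd (nat_lit 4) (.nd (nat_lit 5) 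
(.lf (nat_lit 43021) (.g (nat_lit 359) (.e (nat_lit 1239) (nat_lit 91) (.e (nat_lit 90170) (nat_lit 13) (.e (nat_lit 172113) (nat_lit 10) .nil))) .nil)) 
(.lf (nat_lit 43053) (.g (nat_lit 2668) (.e (nat_lit 1239) (nat_lit 91) (.e (nat_lit 90170) (nat_lit 13) (.e (nat_lit 172113) (nat_lit 10) (.e (nat_lit 434238) (nat_lit 25) (.e (nat_lit 548898) (nat_lit 14) (.e (nat_lit 2828) (nat_lit 182) (.e (nat_lit 409603) (nat_lit 0) (.e (nat_lit 5270) (nat_lit 298) .nil)))))))) (.g (nat_lit 4) .nil .nil)))) (.nd (nat_lit 5) 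
(.lf (nat_lit 43037) (.g (nat_lit 3913) (.e (nat_lit 1239) (nat_lit 91) (.e (nat_lit 90170) (nat_lit 13) (.e (nat_lit 172113) (nat_lit 10) (.e (nat_lit 434231) (nat_lit 23) (.e (nat_lit 532523) (nat_lit 7) (.e (nat_lit 319504) (nat_lit 10) (.e (nat_lit 7936) (nat_lit 298) .nil))))))) (.g (nat_lit 6) .nil .nil))) 
(.lf (nat_lit 43069) (.g (nat_lit 2148) (.e (nat_lit 1239) (nat_lit 91) (.e (nat_lit 90170) (nat_lit 13) (.e (nat_lit 172113) (nat_lit 10) (.e (nat_lit 434245) (nat_lit 28) (.e (nat_lit 573451) (nat_lit 9) (.e (nat_lit 11) (nat_lit 0) (.e (nat_lit 7086) (nat_lit 379) (.e (nat_lit 123202) (nat_lit 270) .nil)))))))) (.g (nat_lit 4) .nil .nil))))))) 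
(.nd (nat_lit 2) (.nd (nat_lit 3) (.nd (nat_lit 4) (.nd (nat_lit 5) 
(.lf (nat_lit 43011) (.g (nat_lit 5006) (.e (nat_lit 1239) (nat_lit 91) (.e (nat_lit 90170) (nat_lit 13) (.e (nat_lit 172106) (nat_lit 10) (.e (nat_lit 434244) (nat_lit 28) (.e (nat_lit 573471) (nat_lit 11) (.e (nat_lit 16388) (nat_lit 0) (.e (nat_lit 7490) (nat_lit 402) .nil))))))) (.g (nat_lit 0) .nil .nil))) 
(.lf (nat_lit 43043) (.g (nat_lit 2193) (.e (nat_lit 1239) (nat_lit 91) (.e (nat_lit 90170) (nat_lit 13) (.e (nat_lit 172113) (nat_lit 10) (.e (nat_lit 434233) (nat_lit 23) (.e (nat_lit 532523) (nat_lit 7) (.e (nat_lit 319504) (nat_lit 10) (.e (nat_lit 7936) (nat_lit 298) .nil))))))) (.g (nat_lit 5) .nil .nil)))) (.nd (nat_lit 5) 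
(.lf (nat_lit 43027) (.g (nat_lit 1325) (.e (nat_lit 1239) (nat_lit 91) (.e (nat_lit 90170) (nat_lit 13) (.e (nat_lit 172113) (nat_lit 10) (.e (nat_lit 434227) (nat_lit 20) .nil)))) .nil)) 
(.lf (nat_lit 43059) (.g (nat_lit 1996) (.e (nat_lit 1239) (nat_lit 91) (.e (nat_lit 90170) (nat_lit 13) (.e (nat_lit 172113) (nat_lit 10) (.e (nat_lit 434242) (nat_lit 28) (.e (nat_lit 573451) (nat_lit 9) (.e (nat_lit 13) (nat_lit 0) (.e (nat_lit 7082) (nat_lit 378) (.e (nat_lit 57876) (nat_lit 270) .nil)))))))) (.g (nat_lit 4) .nil .nil))))) (.nd (nat_lit 4) (.nd (nat_lit 5) 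
(.lf (nat_lit 43019) (.g (nat_lit 2366) (.e (nat_lit 1239) (nat_lit 91) (.e (nat_lit 90170) (nat_lit 13) (.e (nat_lit 172106) (nat_lit 10) (.e (nat_lit 434244) (nat_lit 28) (.e (nat_lit 573471) (nat_lit 11) (.e (nat_lit 24320) (nat_lit 0) (.e (nat_lit 7490) (nat_lit 402) .nil))))))) (.g (nat_lit 5) .nil .nil))) 
(.lf (nat_lit 43051) (.g (nat_lit 3044) (.e (nat_lit 1239) (nat_lit 91) (.e (nat_lit 90170) (nat_lit 13) (.e (nat_lit 172113) (nat_lit 10) (.e (nat_lit 434238) (nat_lit 25) (.e (nat_lit 548897) (nat_lit 14) (.e (nat_lit 2828) (nat_lit 182) (.e (nat_lit 409604) (nat_lit 0) (.e (nat_lit 5270) (nat_lit 298) .nil)))))))) (.g (nat_lit 4) .nil .nil)))) (.nd (nat_lit 5) 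
(.lf (nat_lit 43035) (.g (nat_lit 4069) (.e (nat_lit 1239) (nat_lit 91) (.e (nat_lit 90170) (nat_lit 13) (.e (nat_lit 172113) (nat_lit 10) (.e (nat_lit 434231) (nat_lit 23) (.e (nat_lit 532523) (nat_lit 7) (.e (nat_lit 319504) (nat_lit 10) (.e (nat_lit 5258) (nat_lit 298) .nil))))))) (.g (nat_lit 5) .nil .nil))) 
(.lf (nat_lit 43067) (.g (nat_lit 1787) (.e (nat_lit 1239) (nat_lit 91) (.e (nat_lit 90170) (nat_lit 13) (.e (nat_lit 172113) (nat_lit 10) (.e (nat_lit 434245) (nat_lit 28) (.e (nat_lit 573450) (nat_lit 9) .nil))))) .nil))))) (.nd (nat_lit 3) (.nd (nat_lit 4) (.nd (nat_lit 5) 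
(.lf (nat_lit 43015) (.g (nat_lit 2854) (.e (nat_lit 1239) (nat_lit 91) (.e (nat_lit 90170) (nat_lit 13) (.e (nat_lit 172106) (nat_lit 10) (.e (nat_lit 434244) (nat_lit 28) (.e (nat_lit 573471) (nat_lit 11) (.e (nat_lit 16395) (nat_lit 0) (.e (nat_lit 7936) (nat_lit 402) .nil))))))) (.g (nat_lit 4) .nil .nil))) 
(.lf (nat_lit 43047) (.g (nat_lit 1375) (.e (nat_lit 1239) (nat_lit 91) (.e (nat_lit 90170) (nat_lit 13) (.e (nat_lit 172113) (nat_lit 10) (.e (nat_lit 434238) (nat_lit 25) .nil)))) .nil))) (.nd (nat_lit 5) 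
(.lf (nat_lit 43031) (.g (nat_lit 2045) (.e (nat_lit 1239) (nat_lit 91) (.e (nat_lit 90170) (nat_lit 13) (.e (nat_lit 172113) (nat_lit 10) (.e (nat_lit 434227) (nat_lit 20) (.e (nat_lit 507930) (nat_lit 10) (.e (nat_lit 5758) (nat_lit 315) (.e (nat_lit 171776) (nat_lit 187) .nil))))))) (.g (nat_lit 4) .nil .nil))) 
(.lf (nat_lit 43063) (.g (nat_lit 2046) (.e (nat_lit 1239) (nat_lit 91) (.e (nat_lit 90170) (nat_lit 13) (.e (nat_lit 172113) (nat_lit 10) (.e (nat_lit 434242) (nat_lit 28) (.e (nat_lit 573471) (nat_lit 11) (.e (nat_lit 16387) (nat_lit 0) (.e (nat_lit 7490) (nat_lit 402) .nil))))))) (.g (nat_lit 4) .nil .nil))))) (.nd (nat_lit 4) (.nd (nat_lit 5) 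
(.lf (nat_lit 43023) (.g (nat_lit 1569) (.e (nat_lit 1239) (nat_lit 91) (.e (nat_lit 90170) (nat_lit 13) (.e (nat_lit 172113) (nat_lit 10) (.e (nat_lit 434201) (nat_lit 18) .nil)))) .nil)) 
(.lf (nat_lit 43055) (.g (nat_lit 2257) (.e (nat_lit 1239) (nat_lit 91) (.e (nat_lit 90170) (nat_lit 13) (.e (nat_lit 172113) (nat_lit 10) (.e (nat_lit 434238) (nat_lit 25) (.e (nat_lit 548898) (nat_lit 14) (.e (nat_lit 2980) (nat_lit 185) (.e (nat_lit 442112) (nat_lit 0) .nil))))))) (.g (nat_lit 4) .nil .nil)))) (.nd (nat_lit 5) 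
(.lf (nat_lit 43039) (.g (nat_lit 4794) (.e (nat_lit 1239) (nat_lit 91) (.e (nat_lit 90170) (nat_lit 13) (.e (nat_lit 172113) (nat_lit 10) (.e (nat_lit 434231) (nat_lit 23) (.e (nat_lit 532523) (nat_lit 7) (.e (nat_lit 319505) (nat_lit 10) (.e (nat_lit 5271) (nat_lit 298) .nil))))))) (.g (nat_lit 6) .nil .nil))) 
(.lf (nat_lit 43071) (.g (nat_lit 2103) (.e (nat_lit 1239) (nat_lit 91) (.e (nat_lit 90170) (nat_lit 13) (.e (nat_lit 172113) (nat_lit 10) (.e (nat_lit 434245) (nat_lit 28) (.e (nat_lit 573451) (nat_lit 9) (.e (nat_lit 11) (nat_lit 0) (.e (nat_lit 7091) (nat_lit 379) (.e (nat_lit 123202) (nat_lit 270) .nil)))))))) (.g (nat_lit 4) .nil .nil)))))))))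

noncomputable def tv600 : DT := (.nd (nat_lit 0) (.nd (nat_lit 1) (.nd (nat_lit 2) (.nd (nat_lit 3) (.nd (nat_lit 4) (.nd (nat_lit 5) 
(.lf (nat_lit 43072) (.g (nat_lit 4019) (.e (nat_lit 1239) (nat_lit 91) (.e (nat_lit 90170) (nat_lit 13) (.e (nat_lit 172113) (nat_lit 10) (.e (nat_lit 434245) (nat_lit 28) (.e (nat_lit 573451) (nat_lit 9) (.e (nat_lit 13) (nat_lit 0) (.e (nat_lit 7082) (nat_lit 378) (.e (nat_lit 57876) (nat_lit 270) .nil)))))))) (.g (nat_lit 0) .nil .nil))) 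
(.lf (nat_lit 43104) (.g (nat_lit 3797) (.e (nat_lit 1239) (nat_lit 91) (.e (nat_lit 90170) (nat_lit 13) (.e (nat_lit 172113) (nat_lit 10) (.e (nat_lit 434245) (nat_lit 28) (.e (nat_lit 573471) (nat_lit 11) (.e (nat_lit 16399) (nat_lit 0) (.e (nat_lit 7936) (nat_lit 402) .nil))))))) (.g (nat_lit 6) .nil .nil)))) (.nd (nat_lit 5) 
(.lf (nat_lit 43088) (.g (nat_lit 2949) (.e (nat_lit 1239) (nat_lit 91) (.e (nat_lit 90170) (nat_lit 13) (.e (nat_lit 172113) (nat_lit 10) (.e (nat_lit 434245) (nat_lit 28) (.e (nat_lit 573469) (nat_lit 11) (.e (nat_lit 16387) (nat_lit 0) (.e (nat_lit 7490) (nat_lit 402) .nil))))))) (.g (nat_lit 5) .nil .nil))) 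
(.lf (nat_lit 43120) (.g (nat_lit 3488) (.e (nat_lit 1239) (nat_lit 91) (.e (nat_lit 90170) (nat_lit 13) (.e (nat_lit 172113) (nat_lit 10) (.e (nat_lit 434247) (nat_lit 28) (.e (nat_lit 573457) (nat_lit 9) (.e (nat_lit 16) (nat_lit 0) (.e (nat_lit 7089) (nat_lit 379) (.e (nat_lit 123202) (nat_lit 270) .nil)))))))) (.g (nat_lit 0) .nil .nil))))) (.nd (nat_lit 4) (.nd (nat_lit 5) 
(.lf (nat_lit 43080) (.g (nat_lit 3155) (.e (nat_lit 1239) (nat_lit 91) (.e (nat_lit 90170) (nat_lit 13) (.e (nat_lit 172113) (nat_lit 10) (.e (nat_lit 434245) (nat_lit 28) (.e (nat_lit 573451) (nat_lit 9) (.e (nat_lit 62) (nat_lit 0) (.e (nat_lit 7088) (nat_lit 379) (.e (nat_lit 123202) (nat_lit 270) .nil)))))))) (.g (nat_lit 5) .nil .nil))) 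
(.lf (nat_lit 43112) (.g (nat_lit 2159) (.e (nat_lit 1239) (nat_lit 91) (.e (nat_lit 90170) (nat_lit 13) (.e (nat_lit 172113) (nat_lit 10) (.e (nat_lit 434247) (nat_lit 28) (.e (nat_lit 573456) (nat_lit 9) .nil))))) .nil))) (.nd (nat_lit 5) 
(.lf (nat_lit 43096) (.g (nat_lit 4241) (.e (nat_lit 1239) (nat_lit 91) (.e (nat_lit 90170) (nat_lit 13) (.e (nat_lit 172113) (nat_lit 10) (.e (nat_lit 434245) (nat_lit 28) (.e (nat_lit 573471) (nat_lit 11) (.e (nat_lit 16387) (nat_lit 0) (.e (nat_lit 7490) (nat_lit 402) .nil))))))) (.g (nat_lit 6) .nil .nil))) 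
(.lf (nat_lit 43128) (.g (nat_lit 1100) (.e (nat_lit 1239) (nat_lit 91) (.e (nat_lit 90170) (nat_lit 13) (.e (nat_lit 172113) (nat_lit 10) (.e (nat_lit 434248) (nat_lit 28) .nil)))) .nil))))) (.nd (nat_lit 3) (.nd (nat_lit 4) (.nd (nat_lit 5) 
(.lf (nat_lit 43076) (.g (nat_lit 3013) (.e (nat_lit 1239) (nat_lit 91) (.e (nat_lit 90170) (nat_lit 13) (.e (nat_lit 172113) (nat_lit 10) (.e (nat_lit 434245) (nat_lit 28) (.e (nat_lit 573451) (nat_lit 9) (.e (nat_lit 59) (nat_lit 0) (.e (nat_lit 7089) (nat_lit 379) (.e (nat_lit 123202) (nat_lit 270) .nil)))))))) (.g (nat_lit 5) .nil .nil))) 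
(.lf (nat_lit 43108) (.g (nat_lit 2286) (.e (nat_lit 1239) (nat_lit 91) (.e (nat_lit 90170) (nat_lit 13) (.e (nat_lit 172113) (nat_lit 10) (.e (nat_lit 434245) (nat_lit 28) (.e (nat_lit 573473) (nat_lit 12) (.e (nat_lit 57348) (nat_lit 0) (.e (nat_lit 7265) (nat_lit 384) (.e (nat_lit 57347) (nat_lit 0) (.e (nat_lit 7936) (nat_lit 343) .nil))))))))) (.g (nat_lit 5) .nil .nil)))) (.nd (nat_lit 5) 
(.lf (nat_lit 43092) (.g (nat_lit 3579) (.e (nat_lit 1239) (nat_lit 91) (.e (nat_lit 90170) (nat_lit 13) (.e (nat_lit 172113) (nat_lit 10) (.e (nat_lit 434245) (nat_lit 28) (.e (nat_lit 573470) (nat_lit 11) (.e (nat_lit 16387) (nat_lit 0) (.e (nat_lit 7490) (nat_lit 402) .nil))))))) (.g (nat_lit 0) .nil .nil))) 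
(.lf (nat_lit 43124) (.g (nat_lit 2673) (.e (nat_lit 1239) (nat_lit 91) (.e (nat_lit 90170) (nat_lit 13) (.e (nat_lit 172113) (nat_lit 10) (.e (nat_lit 434247) (nat_lit 28) (.e (nat_lit 573471) (nat_lit 11) (.e (nat_lit 16388) (nat_lit 0) (.e (nat_lit 7490) (nat_lit 402) .nil))))))) (.g (nat_lit 4) .nil .nil))))) (.nd (nat_lit 4) (.nd (nat_lit 5) 
(.lf (nat_lit 43084) (.g (nat_lit 2141) (.e (nat_lit 1239) (nat_lit 91) (.e (nat_lit 90170) (nat_lit 13) (.e (nat_lit 172113) (nat_lit 10) (.e (nat_lit 434245) (nat_lit 28) (.e (nat_lit 573458) (nat_lit 9) (.e (nat_lit 7936) (nat_lit 0) (.e (nat_lit 7082) (nat_lit 378) (.e (nat_lit 57876) (nat_lit 270) .nil)))))))) (.g (nat_lit 4) .nil .nil))) 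
(.lf (nat_lit 43116) (.g (nat_lit 2227) (.e (nat_lit 1239) (nat_lit 91) (.e (nat_lit 90170) (nat_lit 13) (.e (nat_lit 172113) (nat_lit 10) (.e (nat_lit 434247) (nat_lit 28) (.e (nat_lit 573457) (nat_lit 9) (.e (nat_lit 11) (nat_lit 0) (.e (nat_lit 7082) (nat_lit 378) (.e (nat_lit 57876) (nat_lit 270) .nil)))))))) (.g (nat_lit 4) .nil .nil)))) (.nd (nat_lit 5) 
(.lf (nat_lit 43100) (.g (nat_lit 3649) (.e (nat_lit 1239) (nat_lit 91) (.e (nat_lit 90170) (nat_lit 13) (.e (nat_lit 172113) (nat_lit 10) (.e (nat_lit 434245) (nat_lit 28) (.e (nat_lit 573471) (nat_lit 11) (.e (nat_lit 16392) (nat_lit 0) (.e (nat_lit 7936) (nat_lit 402) .nil))))))) (.g (nat_lit 6) .nil .nil))) 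
(.lf (nat_lit 43132) (.g (nat_lit 3073) (.e (nat_lit 1239) (nat_lit 91) (.e (nat_lit 90170) (nat_lit 13) (.e (nat_lit 172113) (nat_lit 10) (.e (nat_lit 434248) (nat_lit 28) (.e (nat_lit 573452) (nat_lit 9) (.e (nat_lit 11) (nat_lit 0) (.e (nat_lit 7089) (nat_lit 379) (.e (nat_lit 123202) (nat_lit 270) .nil)))))))) (.g (nat_lit 5) .nil .nil))))))) 
(.nd (nat_lit 2) (.nd (nat_lit 3) (.nd (nat_lit 4) (.nd (nat_lit 5) 
(.lf (nat_lit 43074) (.g (nat_lit 4045) (.e (nat_lit 1239) (nat_lit 91) (.e (nat_lit 90170) (nat_lit 13) (.e (nat_lit 172113) (nat_lit 10) (.e (nat_lit 434245) (nat_lit 28) (.e (nat_lit 573451) (nat_lit 9) (.e (nat_lit 16) (nat_lit 0) (.e (nat_lit 7088) (nat_lit 379) (.e (nat_lit 123202) (nat_lit 270) .nil)))))))) (.g (nat_lit 0) .nil .nil))) 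
(.lf (nat_lit 43106) (.g (nat_lit 3903) (.e (nat_lit 1239) (nat_lit 91) (.e (nat_lit 90170) (nat_lit 13) (.e (nat_lit 172113) (nat_lit 10) (.e (nat_lit 434245) (nat_lit 28) (.e (nat_lit 573471) (nat_lit 11) (.e (nat_lit 16402) (nat_lit 0) (.e (nat_lit 7936) (nat_lit 402) .nil))))))) (.g (nat_lit 6) .nil .nil)))) (.nd (nat_lit 5) 
(.lf (nat_lit 43090) (.g (nat_lit 4481) (.e (nat_lit 1239) (nat_lit 91) (.e (nat_lit 90170) (nat_lit 13) (.e (nat_lit 172113) (nat_lit 10) (.e (nat_lit 434245) (nat_lit 28) (.e (nat_lit 573469) (nat_lit 11) (.e (nat_lit 16388) (nat_lit 0) (.e (nat_lit 7490) (nat_lit 402) .nil))))))) (.g (nat_lit 7) .nil .nil))) 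
(.lf (nat_lit 43122) (.g (nat_lit 3327) (.e (nat_lit 1239) (nat_lit 91) (.e (nat_lit 90170) (nat_lit 13) (.e (nat_lit 172113) (nat_lit 10) (.e (nat_lit 434247) (nat_lit 28) (.e (nat_lit 573469) (nat_lit 11) (.e (nat_lit 16387) (nat_lit 0) (.e (nat_lit 7490) (nat_lit 402) .nil))))))) (.g (nat_lit 5) .nil .nil))))) (.nd (nat_lit 4) (.nd (nat_lit 5) 
(.lf (nat_lit 43082) (.g (nat_lit 1873) (.e (nat_lit 1239) (nat_lit 91) (.e (nat_lit 90170) (nat_lit 13) (.e (nat_lit 172113) (nat_lit 10) (.e (nat_lit 434245) (nat_lit 28) (.e (nat_lit 573458) (nat_lit 9) .nil))))) .nil)) 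
(.lf (nat_lit 43114) (.g (nat_lit 2039) (.e (nat_lit 1239) (nat_lit 91) (.e (nat_lit 90170) (nat_lit 13) (.e (nat_lit 172113) (nat_lit 10) (.e (nat_lit 434247) (nat_lit 28) (.e (nat_lit 573457) (nat_lit 9) .nil))))) .nil))) (.nd (nat_lit 5) 
(.lf (nat_lit 43098) (.g (nat_lit 3563) (.e (nat_lit 1239) (nat_lit 91) (.e (nat_lit 90170) (nat_lit 13) (.e (nat_lit 172113) (nat_lit 10) (.e (nat_lit 434245) (nat_lit 28) (.e (nat_lit 573471) (nat_lit 11) (.e (nat_lit 16390) (nat_lit 0) (.e (nat_lit 7936) (nat_lit 402) .nil))))))) (.g (nat_lit 6) .nil .nil))) 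
(.lf (nat_lit 43130) (.g (nat_lit 2027) (.e (nat_lit 1239) (nat_lit 91) (.e (nat_lit 90170) (nat_lit 13) (.e (nat_lit 172113) (nat_lit 10) (.e (nat_lit 434248) (nat_lit 28) (.e (nat_lit 573452) (nat_lit 9) .nil))))) .nil))))) (.nd (nat_lit 3) (.nd (nat_lit 4) (.nd (nat_lit 5) 
(.lf (nat_lit 43078) (.g (nat_lit 3037) (.e (nat_lit 1239) (nat_lit 91) (.e (nat_lit 90170) (nat_lit 13) (.e (nat_lit 172113) (nat_lit 10) (.e (nat_lit 434245) (nat_lit 28) (.e (nat_lit 573451) (nat_lit 9) (.e (nat_lit 62) (nat_lit 0) (.e (nat_lit 7086) (nat_lit 379) (.e (nat_lit 123202) (nat_lit 270) .nil)))))))) (.g (nat_lit 5) .nil .nil))) 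
(.lf (nat_lit 43110) (.g (nat_lit 2018) (.e (nat_lit 1239) (nat_lit 91) (.e (nat_lit 90170) (nat_lit 13) (.e (nat_lit 172113) (nat_lit 10) (.e (nat_lit 434245) (nat_lit 28) (.e (nat_lit 573474) (nat_lit 12) (.e (nat_lit 57347) (nat_lit 0) (.e (nat_lit 7265) (nat_lit 384) (.e (nat_lit 57354) (nat_lit 0) (.e (nat_lit 7936) (nat_lit 343) .nil))))))))) (.g (nat_lit 4) .nil .nil)))) (.nd (nat_lit 5) 
(.lf (nat_lit 43094) (.g (nat_lit 2485) (.e (nat_lit 1239) (nat_lit 91) (.e (nat_lit 90170) (nat_lit 13) (.e (nat_lit 172113) (nat_lit 10) (.e (nat_lit 434245) (nat_lit 28) (.e (nat_lit 573471) (nat_lit 11) (.e (nat_lit 16386) (nat_lit 0) (.e (nat_lit 7936) (nat_lit 402) .nil))))))) (.g (nat_lit 5) .nil .nil))) 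
(.lf (nat_lit 43126) (.g (nat_lit 1942) (.e (nat_lit 1239) (nat_lit 91) (.e (nat_lit 90170) (nat_lit 13) (.e (nat_lit 172113) (nat_lit 10) (.e (nat_lit 434247) (nat_lit 28) (.e (nat_lit 573478) (nat_lit 12) .nil))))) .nil)))) (.nd (nat_lit 4) (.nd (nat_lit 5) 
(.lf (nat_lit 43086) (.g (nat_lit 1953) (.e (nat_lit 1239) (nat_lit 91) (.e (nat_lit 90170) (nat_lit 13) (.e (nat_lit 172113) (nat_lit 10) (.e (nat_lit 434245) (nat_lit 28) (.e (nat_lit 573458) (nat_lit 9) (.e (nat_lit 7936) (nat_lit 0) (.e (nat_lit 7089) (nat_lit 379) (.e (nat_lit 123202) (nat_lit 270) .nil)))))))) (.g (nat_lit 4) .nil .nil))) 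
(.lf (nat_lit 43118) (.g (nat_lit 3433) (.e (nat_lit 1239) (nat_lit 91) (.e (nat_lit 90170) (nat_lit 13) (.e (nat_lit 172113) (nat_lit 10) (.e (nat_lit 434247) (nat_lit 28) (.e (nat_lit 573457) (nat_lit 9) (.e (nat_lit 16) (nat_lit 0) (.e (nat_lit 7086) (nat_lit 379) (.e (nat_lit 123202) (nat_lit 270) .nil)))))))) (.g (nat_lit 0) .nil .nil)))) (.nd (nat_lit 5) 
(.lf (nat_lit 43102) (.g (nat_lit 3098) (.e (nat_lit 1239) (nat_lit 91) (.e (nat_lit 90170) (nat_lit 13) (.e (nat_lit 172113) (nat_lit 10) (.e (nat_lit 434245) (nat_lit 28) (.e (nat_lit 573471) (nat_lit 11) (.e (nat_lit 16397) (nat_lit 0) (.e (nat_lit 7936) (nat_lit 402) .nil))))))) (.g (nat_lit 5) .nil .nil))) 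
(.lf (nat_lit 43134) (.g (nat_lit 3797) (.e (nat_lit 1239) (nat_lit 91) (.e (nat_lit 90170) (nat_lit 13) (.e (nat_lit 172113) (nat_lit 10) (.e (nat_lit 434248) (nat_lit 28) (.e (nat_lit 573452) (nat_lit 9) (.e (nat_lit 16) (nat_lit 0) (.e (nat_lit 7086) (nat_lit 379) (.e (nat_lit 123202) (nat_lit 270) .nil)))))))) (.g (nat_lit 0) .nil .nil)))))))) 
(.nd (nat_lit 1) (.nd (nat_lit 2) (.nd (nat_lit 3) (.nd (nat_lit 4) (.nd (nat_lit 5) 
(.lf (nat_lit 43073) (.g (nat_lit 3977) (.e (nat_lit 1239) (nat_lit 91) (.e (nat_lit 90170) (nat_lit 13) (.e (nat_lit 172113) (nat_lit 10) (.e (nat_lit 434245) (nat_lit 28) (.e (nat_lit 573451) (nat_lit 9) (.e (nat_lit 16) (nat_lit 0) (.e (nat_lit 7086) (nat_lit 379) (.e (nat_lit 123202) (nat_lit 270) .nil)))))))) (.g (nat_lit 0) .nil .nil))) 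
(.lf (nat_lit 43105) (.g (nat_lit 4017) (.e (nat_lit 1239) (nat_lit 91) (.e (nat_lit 90170) (nat_lit 13) (.e (nat_lit 172113) (nat_lit 10) (.e (nat_lit 434245) (nat_lit 28) (.e (nat_lit 573471) (nat_lit 11) (.e (nat_lit 16401) (nat_lit 0) (.e (nat_lit 7936) (nat_lit 402) .nil))))))) (.g (nat_lit 6) .nil .nil)))) (.nd (nat_lit 5) 
(.lf (nat_lit 43089) (.g (nat_lit 2831) (.e (nat_lit 1239) (nat_lit 91) (.e (nat_lit 90170) (nat_lit 13) (.e (nat_lit 172113) (nat_lit 10) (.e (nat_lit 434245) (nat_lit 28) (.e (nat_lit 573469) (nat_lit 11) (.e (nat_lit 16388) (nat_lit 0) (.e (nat_lit 7486) (nat_lit 402) .nil))))))) (.g (nat_lit 4) .nil .nil))) 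
(.lf (nat_lit 43121) (.g (nat_lit 2224) (.e (nat_lit 1239) (nat_lit 91) (.e (nat_lit 90170) (nat_lit 13) (.e (nat_lit 172113) (nat_lit 10) (.e (nat_lit 434247) (nat_lit 28) (.e (nat_lit 573457) (nat_lit 9) (.e (nat_lit 7936) (nat_lit 0) (.e (nat_lit 7089) (nat_lit 379) (.e (nat_lit 123202) (nat_lit 270) .nil)))))))) (.g (nat_lit 4) .nil .nil))))) (.nd (nat_lit 4) (.nd (nat_lit 5) 
(.lf (nat_lit 43081) (.g (nat_lit 2434) (.e (nat_lit 1239) (nat_lit 91) (.e (nat_lit 90170) (nat_lit 13) (.e (nat_lit 172113) (nat_lit 10) (.e (nat_lit 434245) (nat_lit 28) (.e (nat_lit 573451) (nat_lit 9) (.e (nat_lit 7936) (nat_lit 0) (.e (nat_lit 7089) (nat_lit 379) (.e (nat_lit 123202) (nat_lit 270) .nil)))))))) (.g (nat_lit 4) .nil .nil))) 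
(.lf (nat_lit 43113) (.g (nat_lit 2283) (.e (nat_lit 1239) (nat_lit 91) (.e (nat_lit 90170) (nat_lit 13) (.e (nat_lit 172113) (nat_lit 10) (.e (nat_lit 434247) (nat_lit 28) (.e (nat_lit 573456) (nat_lit 9) (.e (nat_lit 7936) (nat_lit 0) (.e (nat_lit 7089) (nat_lit 379) (.e (nat_lit 123202) (nat_lit 270) .nil)))))))) (.g (nat_lit 4) .nil .nil)))) (.nd (nat_lit 5) 
(.lf (nat_lit 43097) (.g (nat_lit 3449) (.e (nat_lit 1239) (nat_lit 91) (.e (nat_lit 90170) (nat_lit 13) (.e (nat_lit 172113) (nat_lit 10) (.e (nat_lit 434245) (nat_lit 28) (.e (nat_lit 573471) (nat_lit 11) (.e (nat_lit 16388) (nat_lit 0) (.e (nat_lit 7486) (nat_lit 402) .nil))))))) (.g (nat_lit 5) .nil .nil))) 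
(.lf (nat_lit 43129) (.g (nat_lit 2698) (.e (nat_lit 1239) (nat_lit 91) (.e (nat_lit 90170) (nat_lit 13) (.e (nat_lit 172113) (nat_lit 10) (.e (nat_lit 434248) (nat_lit 28) (.e (nat_lit 573451) (nat_lit 9) .nil))))) .nil))))) (.nd (nat_lit 3) (.nd (nat_lit 4) (.nd (nat_lit 5) 
(.lf (nat_lit 43077) (.g (nat_lit 2360) (.e (nat_lit 1239) (nat_lit 91) (.e (nat_lit 90170) (nat_lit 13) (.e (nat_lit 172113) (nat_lit 10) (.e (nat_lit 434245) (nat_lit 28) (.e (nat_lit 573451) (nat_lit 9) (.e (nat_lit 61) (nat_lit 0) (.e (nat_lit 7086) (nat_lit 379) (.e (nat_lit 123202) (nat_lit 270) .nil)))))))) (.g (nat_lit 4) .nil .nil))) 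
(.lf (nat_lit 43109) (.g (nat_lit 2200) (.e (nat_lit 1239) (nat_lit 91) (.e (nat_lit 90170) (nat_lit 13) (.e (nat_lit 172113) (nat_lit 10) (.e (nat_lit 434245) (nat_lit 28) (.e (nat_lit 573473) (nat_lit 12) (.e (nat_lit 57353) (nat_lit 0) (.e (nat_lit 7265) (nat_lit 384) (.e (nat_lit 57347) (nat_lit 0) (.e (nat_lit 7936) (nat_lit 343) .nil))))))))) (.g (nat_lit 4) .nil .nil)))) (.nd (nat_lit 5) 
(.lf (nat_lit 43093) (.g (nat_lit 1570) (.e (nat_lit 1239) (nat_lit 91) (.e (nat_lit 90170) (nat_lit 13) (.e (nat_lit 172113) (nat_lit 10) (.e (nat_lit 434245) (nat_lit 28) (.e (nat_lit 573471) (nat_lit 11) .nil))))) .nil)) 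
(.lf (nat_lit 43125) (.g (nat_lit 2293) (.e (nat_lit 1239) (nat_lit 91) (.e (nat_lit 90170) (nat_lit 13) (.e (nat_lit 172113) (nat_lit 10) (.e (nat_lit 434247) (nat_lit 28) (.e (nat_lit 573477) (nat_lit 12) (.e (nat_lit 57353) (nat_lit 0) (.e (nat_lit 7265) (nat_lit 384) (.e (nat_lit 57347) (nat_lit 0) (.e (nat_lit 7936) (nat_lit 343) .nil))))))))) (.g (nat_lit 4) .nil .nil))))) 
(.nd (nat_lit 4) (.nd (nat_lit 5) 
(.lf (nat_lit 43085) (.g (nat_lit 2169) (.e (nat_lit 1239) (nat_lit 91) (.e (nat_lit 90170) (nat_lit 13) (.e (nat_lit 172113) (nat_lit 10) (.e (nat_lit 434245) (nat_lit 28) (.e (nat_lit 573458) (nat_lit 9) (.e (nat_lit 7936) (nat_lit 0) (.e (nat_lit 7088) (nat_lit 379) (.e (nat_lit 123202) (nat_lit 270) .nil)))))))) (.g (nat_lit 4) .nil .nil))) 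
(.lf (nat_lit 43117) (.g (nat_lit 3530) (.e (nat_lit 1239) (nat_lit 91) (.e (nat_lit 90170) (nat_lit 13) (.e (nat_lit 172113) (nat_lit 10) (.e (nat_lit 434247) (nat_lit 28) (.e (nat_lit 573457) (nat_lit 9) (.e (nat_lit 13) (nat_lit 0) (.e (nat_lit 7082) (nat_lit 378) (.e (nat_lit 57876) (nat_lit 270) .nil)))))))) (.g (nat_lit 0) .nil .nil)))) (.nd (nat_lit 5) 
(.lf (nat_lit 43101) (.g (nat_lit 3426) (.e (nat_lit 1239) (nat_lit 91) (.e (nat_lit 90170) (nat_lit 13) (.e (nat_lit 172113) (nat_lit 10) (.e (nat_lit 434245) (nat_lit 28) (.e (nat_lit 573471) (nat_lit 11) (.e (nat_lit 16396) (nat_lit 0) (.e (nat_lit 7936) (nat_lit 402) .nil))))))) (.g (nat_lit 6) .nil .nil))) 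
(.lf (nat_lit 43133) (.g (nat_lit 3906) (.e (nat_lit 1239) (nat_lit 91) (.e (nat_lit 90170) (nat_lit 13) (.e (nat_lit 172113) (nat_lit 10) (.e (nat_lit 434248) (nat_lit 28) (.e (nat_lit 573452) (nat_lit 9) (.e (nat_lit 13) (nat_lit 0) (.e (nat_lit 7082) (nat_lit 378) (.e (nat_lit 57876) (nat_lit 270) .nil)))))))) (.g (nat_lit 0) .nil .nil))))))) 
(.nd (nat_lit 2) (.nd (nat_lit 3) (.nd (nat_lit 4) (.nd (nat_lit 5) 
(.lf (nat_lit 43075) (.g (nat_lit 4043) (.e (nat_lit 1239) (nat_lit 91) (.e (nat_lit 90170) (nat_lit 13) (.e (nat_lit 172113) (nat_lit 10) (.e (nat_lit 434245) (nat_lit 28) (.e (nat_lit 573451) (nat_lit 9) (.e (nat_lit 16) (nat_lit 0) (.e (nat_lit 7089) (nat_lit 379) (.e (nat_lit 123202) (nat_lit 270) .nil)))))))) (.g (nat_lit 0) .nil .nil))) 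
(.lf (nat_lit 43107) (.g (nat_lit 3744) (.e (nat_lit 1239) (nat_lit 91) (.e (nat_lit 90170) (nat_lit 13) (.e (nat_lit 172113) (nat_lit 10) (.e (nat_lit 434245) (nat_lit 28) (.e (nat_lit 573471) (nat_lit 11) (.e (nat_lit 16403) (nat_lit 0) (.e (nat_lit 7936) (nat_lit 402) .nil))))))) (.g (nat_lit 6) .nil .nil)))) (.nd (nat_lit 5) 
(.lf (nat_lit 43091) (.g (nat_lit 2545) (.e (nat_lit 1239) (nat_lit 91) (.e (nat_lit 90170) (nat_lit 13) (.e (nat_lit 172113) (nat_lit 10) (.e (nat_lit 434245) (nat_lit 28) (.e (nat_lit 573470) (nat_lit 11) (.e (nat_lit 16386) (nat_lit 0) (.e (nat_lit 7490) (nat_lit 402) .nil))))))) (.g (nat_lit 4) .nil .nil))) 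
(.lf (nat_lit 43123) (.g (nat_lit 3142) (.e (nat_lit 1239) (nat_lit 91) (.e (nat_lit 90170) (nat_lit 13) (.e (nat_lit 172113) (nat_lit 10) (.e (nat_lit 434247) (nat_lit 28) (.e (nat_lit 573469) (nat_lit 11) (.e (nat_lit 16388) (nat_lit 0) (.e (nat_lit 7486) (nat_lit 402) .nil))))))) (.g (nat_lit 4) .nil .nil))))) (.nd (nat_lit 4) (.nd (nat_lit 5) 
(.lf (nat_lit 43083) (.g (nat_lit 1961) (.e (nat_lit 1239) (nat_lit 91) (.e (nat_lit 90170) (nat_lit 13) (.e (nat_lit 172113) (nat_lit 10) (.e (nat_lit 434245) (nat_lit 28) (.e (nat_lit 573458) (nat_lit 9) (.e (nat_lit 59) (nat_lit 0) (.e (nat_lit 7089) (nat_lit 379) (.e (nat_lit 123202) (nat_lit 270) .nil)))))))) (.g (nat_lit 4) .nil .nil))) 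
(.lf (nat_lit 43115) (.g (nat_lit 2233) (.e (nat_lit 1239) (nat_lit 91) (.e (nat_lit 90170) (nat_lit 13) (.e (nat_lit 172113) (nat_lit 10) (.e (nat_lit 434247) (nat_lit 28) (.e (nat_lit 573457) (nat_lit 9) (.e (nat_lit 11) (nat_lit 0) (.e (nat_lit 7081) (nat_lit 378) (.e (nat_lit 57876) (nat_lit 270) .nil)))))))) (.g (nat_lit 4) .nil .nil)))) (.nd (nat_lit 5) 
(.lf (nat_lit 43099) (.g (nat_lit 3939) (.e (nat_lit 1239) (nat_lit 91) (.e (nat_lit 90170) (nat_lit 13) (.e (nat_lit 172113) (nat_lit 10) (.e (nat_lit 434245) (nat_lit 28) (.e (nat_lit 573471) (nat_lit 11) (.e (nat_lit 16391) (nat_lit 0) (.e (nat_lit 7936) (nat_lit 402) .nil))))))) (.g (nat_lit 5) .nil .nil))) 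
(.lf (nat_lit 43131) (.g (nat_lit 2268) (.e (nat_lit 1239) (nat_lit 91) (.e (nat_lit 90170) (nat_lit 13) (.e (nat_lit 172113) (nat_lit 10) (.e (nat_lit 434248) (nat_lit 28) (.e (nat_lit 573452) (nat_lit 9) (.e (nat_lit 11) (nat_lit 0) (.e (nat_lit 7088) (nat_lit 379) (.e (nat_lit 123202) (nat_lit 270) .nil)))))))) (.g (nat_lit 4) .nil .nil)))))) (.nd (nat_lit 3) (.nd (nat_lit 4) (.nd (nat_lit 5) 
(.lf (nat_lit 43079) (.g (nat_lit 3287) (.e (nat_lit 1239) (nat_lit 91) (.e (nat_lit 90170) (nat_lit 13) (.e (nat_lit 172113) (nat_lit 10) (.e (nat_lit 434245) (nat_lit 28) (.e (nat_lit 573451) (nat_lit 9) (.e (nat_lit 62) (nat_lit 0) (.e (nat_lit 7087) (nat_lit 379) (.e (nat_lit 123202) (nat_lit 270) .nil)))))))) (.g (nat_lit 5) .nil .nil))) 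
(.lf (nat_lit 43111) (.g (nat_lit 1183) (.e (nat_lit 1239) (nat_lit 91) (.e (nat_lit 90170) (nat_lit 13) (.e (nat_lit 172113) (nat_lit 10) (.e (nat_lit 434247) (nat_lit 28) .nil)))) .nil))) (.nd (nat_lit 5) 
(.lf (nat_lit 43095) (.g (nat_lit 2797) (.e (nat_lit 1239) (nat_lit 91) (.e (nat_lit 90170) (nat_lit 13) (.e (nat_lit 172113) (nat_lit 10) (.e (nat_lit 434245) (nat_lit 28) (.e (nat_lit 573471) (nat_lit 11) (.e (nat_lit 16387) (nat_lit 0) (.e (nat_lit 7486) (nat_lit 402) .nil))))))) (.g (nat_lit 4) .nil .nil))) 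
(.lf (nat_lit 43127) (.g (nat_lit 1962) (.e (nat_lit 1239) (nat_lit 91) (.e (nat_lit 90170) (nat_lit 13) (.e (nat_lit 172113) (nat_lit 10) (.e (nat_lit 434247) (nat_lit 28) (.e (nat_lit 573478) (nat_lit 12) (.e (nat_lit 57351) (nat_lit 0) (.e (nat_lit 7265) (nat_lit 384) (.e (nat_lit 57347) (nat_lit 0) (.e (nat_lit 7936) (nat_lit 343) .nil))))))))) (.g (nat_lit 4) .nil .nil))))) 
(.nd (nat_lit 4) (.nd (nat_lit 5) 
(.lf (nat_lit 43087) (.g (nat_lit 1708) (.e (nat_lit 1239) (nat_lit 91) (.e (nat_lit 90170) (nat_lit 13) (.e (nat_lit 172113) (nat_lit 10) (.e (nat_lit 434245) (nat_lit 28) (.e (nat_lit 573468) (nat_lit 10) .nil))))) .nil)) 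
(.lf (nat_lit 43119) (.g (nat_lit 3488) (.e (nat_lit 1239) (nat_lit 91) (.e (nat_lit 90170) (nat_lit 13) (.e (nat_lit 172113) (nat_lit 10) (.e (nat_lit 434247) (nat_lit 28) (.e (nat_lit 573457) (nat_lit 9) (.e (nat_lit 16) (nat_lit 0) (.e (nat_lit 7088) (nat_lit 379) (.e (nat_lit 123202) (nat_lit 270) .nil)))))))) (.g (nat_lit 0) .nil .nil)))) (.nd (nat_lit 5) 
(.lf (nat_lit 43103) (.g (nat_lit 3675) (.e (nat_lit 1239) (nat_lit 91) (.e (nat_lit 90170) (nat_lit 13) (.e (nat_lit 172113) (nat_lit 10) (.e (nat_lit 434245) (nat_lit 28) (.e (nat_lit 573471) (nat_lit 11) (.e (nat_lit 16398) (nat_lit 0) (.e (nat_lit 7936) (nat_lit 402) .nil))))))) (.g (nat_lit 6) .nil .nil))) 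
(.lf (nat_lit 43135) (.g (nat_lit 3857) (.e (nat_lit 1239) (nat_lit 91) (.e (nat_lit 90170) (nat_lit 13) (.e (nat_lit 172113) (nat_lit 10) (.e (nat_lit 434248) (nat_lit 28) (.e (nat_lit 573452) (nat_lit 9) (.e (nat_lit 16) (nat_lit 0) (.e (nat_lit 7088) (nat_lit 379) (.e (nat_lit 123202) (nat_lit 270) .nil)))))))) (.g (nat_lit 0) .nil .nil)))))))))

noncomputable def tv601 : DT := (.nd (nat_lit 0) (.nd (nat_lit 1) (.nd (nat_lit 2) (.nd (nat_lit 3) (.nd (nat_lit 4) (.nd (nat_lit 5) 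
(.lf (nat_lit 43136) (.g (nat_lit 2485) (.e (nat_lit 1239) (nat_lit 91) (.e (nat_lit 90170) (nat_lit 13) (.e (nat_lit 172113) (nat_lit 10) (.e (nat_lit 434248) (nat_lit 28) (.e (nat_lit 573452) (nat_lit 9) (.e (nat_lit 61) (nat_lit 0) (.e (nat_lit 7088) (nat_lit 379) (.e (nat_lit 123202) (nat_lit 270) .nil)))))))) (.g (nat_lit 4) .nil .nil))) 
(.lf (nat_lit 43168) (.g (nat_lit 495) (.e (nat_lit 1239) (nat_lit 91) (.e (nat_lit 90170) (nat_lit 13) (.e (nat_lit 172118) (nat_lit 12) .nil))) .nil))) (.nd (nat_lit 5) 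
(.lf (nat_lit 43152) (.g (nat_lit 2743) (.e (nat_lit 1239) (nat_lit 91) (.e (nat_lit 90170) (nat_lit 13) (.e (nat_lit 172113) (nat_lit 10) (.e (nat_lit 434248) (nat_lit 28) (.e (nat_lit 573470) (nat_lit 11) (.e (nat_lit 16386) (nat_lit 0) (.e (nat_lit 7490) (nat_lit 402) .nil))))))) (.g (nat_lit 4) .nil .nil))) 
(.lf (nat_lit 43184) (.g (nat_lit 2244) (.e (nat_lit 1239) (nat_lit 91) (.e (nat_lit 90170) (nat_lit 13) (.e (nat_lit 172121) (nat_lit 13) (.e (nat_lit 483337) (nat_lit 9) (.e (nat_lit 426108) (nat_lit 1) (.e (nat_lit 164383) (nat_lit 254) (.e (nat_lit 999) (nat_lit 81) .nil))))))) (.g (nat_lit 4) .nil .nil))))) (.nd (nat_lit 4) (.nd (nat_lit 5) 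
(.lf (nat_lit 43144) (.g (nat_lit 3248) (.e (nat_lit 1239) (nat_lit 91) (.e (nat_lit 90170) (nat_lit 13) (.e (nat_lit 172113) (nat_lit 10) (.e (nat_lit 434248) (nat_lit 28) (.e (nat_lit 573468) (nat_lit 10) (.e (nat_lit 8490) (nat_lit 180) (.e (nat_lit 1077) (nat_lit 81) (.e (nat_lit 5270) (nat_lit 298) .nil)))))))) (.g (nat_lit 4) .nil .nil))) 
(.lf (nat_lit 43176) (.g (nat_lit 4110) (.e (nat_lit 1239) (nat_lit 91) (.e (nat_lit 90170) (nat_lit 13) (.e (nat_lit 172120) (nat_lit 12) (.e (nat_lit 475185) (nat_lit 29) (.e (nat_lit 557103) (nat_lit 14) (.e (nat_lit 188160) (nat_lit 32) .nil)))))) (.g (nat_lit 5) .nil .nil)))) (.nd (nat_lit 5) 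
(.lf (nat_lit 43160) (.g (nat_lit 2092) (.e (nat_lit 1239) (nat_lit 91) (.e (nat_lit 90170) (nat_lit 13) (.e (nat_lit 172115) (nat_lit 10) (.e (nat_lit 434231) (nat_lit 23) (.e (nat_lit 532490) (nat_lit 0) .nil))))) .nil)) 
(.lf (nat_lit 43192) (.g (nat_lit 4268) (.e (nat_lit 1239) (nat_lit 91) (.e (nat_lit 90170) (nat_lit 13) (.e (nat_lit 172124) (nat_lit 14) (.e (nat_lit 491537) (nat_lit 2) (.e (nat_lit 90133) (nat_lit 9) (.e (nat_lit 2936) (nat_lit 184) (.e (nat_lit 425987) (nat_lit 0) (.e (nat_lit 7489) (nat_lit 402) .nil)))))))) (.g (nat_lit 6) .nil .nil)))))) (.nd (nat_lit 3) (.nd (nat_lit 4) (.nd (nat_lit 5) 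
(.lf (nat_lit 43140) (.g (nat_lit 2634) (.e (nat_lit 1239) (nat_lit 91) (.e (nat_lit 90170) (nat_lit 13) (.e (nat_lit 172113) (nat_lit 10) (.e (nat_lit 434248) (nat_lit 28) (.e (nat_lit 573467) (nat_lit 10) .nil))))) .nil)) 
(.lf (nat_lit 43172) (.g (nat_lit 3184) (.e (nat_lit 1239) (nat_lit 91) (.e (nat_lit 90170) (nat_lit 13) (.e (nat_lit 172119) (nat_lit 12) (.e (nat_lit 475185) (nat_lit 29) (.e (nat_lit 557105) (nat_lit 14) (.e (nat_lit 188160) (nat_lit 32) .nil)))))) (.g (nat_lit 4) .nil .nil)))) (.nd (nat_lit 5) 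
(.lf (nat_lit 43156) (.g (nat_lit 2335) (.e (nat_lit 1239) (nat_lit 91) (.e (nat_lit 90170) (nat_lit 13) (.e (nat_lit 172113) (nat_lit 10) (.e (nat_lit 434248) (nat_lit 28) (.e (nat_lit 573473) (nat_lit 12) (.e (nat_lit 57353) (nat_lit 0) (.e (nat_lit 7265) (nat_lit 384) (.e (nat_lit 57347) (nat_lit 0) (.e (nat_lit 7936) (nat_lit 343) .nil))))))))) (.g (nat_lit 4) .nil .nil))) 
(.lf (nat_lit 43188) (.g (nat_lit 2807) (.e (nat_lit 1239) (nat_lit 91) (.e (nat_lit 90170) (nat_lit 13) (.e (nat_lit 172123) (nat_lit 13) (.e (nat_lit 483370) (nat_lit 20) (.e (nat_lit 147503) (nat_lit 12) (.e (nat_lit 164042) (nat_lit 55) (.e (nat_lit 778246) (nat_lit 0) .nil))))))) (.g (nat_lit 4) .nil .nil))))) (.nd (nat_lit 4) (.nd (nat_lit 5) 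
(.lf (nat_lit 43148) (.g (nat_lit 3415) (.e (nat_lit 1239) (nat_lit 91) (.e (nat_lit 90170) (nat_lit 13) (.e (nat_lit 172113) (nat_lit 10) (.e (nat_lit 434248) (nat_lit 28) (.e (nat_lit 573468) (nat_lit 10) (.e (nat_lit 8492) (nat_lit 180) (.e (nat_lit 1077) (nat_lit 81) (.e (nat_lit 5270) (nat_lit 298) .nil)))))))) (.g (nat_lit 4) .nil .nil))) 
(.lf (nat_lit 43180) (.g (nat_lit 2171) (.e (nat_lit 1239) (nat_lit 91) (.e (nat_lit 90170) (nat_lit 13) (.e (nat_lit 172121) (nat_lit 13) (.e (nat_lit 483337) (nat_lit 9) (.e (nat_lit 426098) (nat_lit 1) (.e (nat_lit 164381) (nat_lit 254) (.e (nat_lit 999) (nat_lit 81) .nil))))))) (.g (nat_lit 4) .nil .nil)))) (.nd (nat_lit 5) 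
(.lf (nat_lit 43164) (.g (nat_lit 2841) (.e (nat_lit 1239) (nat_lit 91) (.e (nat_lit 90170) (nat_lit 13) (.e (nat_lit 172115) (nat_lit 10) (.e (nat_lit 434231) (nat_lit 23) (.e (nat_lit 532525) (nat_lit 8) (.e (nat_lit 327705) (nat_lit 10) (.e (nat_lit 5245) (nat_lit 298) .nil))))))) (.g (nat_lit 4) .nil .nil))) 
(.lf (nat_lit 43196) (.g (nat_lit 2812) (.e (nat_lit 1239) (nat_lit 91) (.e (nat_lit 90170) (nat_lit 13) (.e (nat_lit 172124) (nat_lit 14) (.e (nat_lit 491537) (nat_lit 2) (.e (nat_lit 90172) (nat_lit 14) (.e (nat_lit 188160) (nat_lit 32) .nil)))))) (.g (nat_lit 4) .nil .nil))))))) (.nd (nat_lit 2) (.nd (nat_lit 3) (.nd (nat_lit 4) (.nd (nat_lit 5) 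
(.lf (nat_lit 43138) (.g (nat_lit 1616) (.e (nat_lit 1239) (nat_lit 91) (.e (nat_lit 90170) (nat_lit 13) (.e (nat_lit 172113) (nat_lit 10) (.e (nat_lit 434248) (nat_lit 28) (.e (nat_lit 573455) (nat_lit 9) .nil))))) .nil)) 
(.lf (nat_lit 43170) (.g (nat_lit 3224) (.e (nat_lit 1239) (nat_lit 91) (.e (nat_lit 90170) (nat_lit 13) (.e (nat_lit 172118) (nat_lit 12) (.e (nat_lit 475185) (nat_lit 29) (.e (nat_lit 557105) (nat_lit 14) (.e (nat_lit 188160) (nat_lit 32) .nil)))))) (.g (nat_lit 5) .nil .nil)))) (.nd (nat_lit 5) 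
(.lf (nat_lit 43154) (.g (nat_lit 3114) (.e (nat_lit 1239) (nat_lit 91) (.e (nat_lit 90170) (nat_lit 13) (.e (nat_lit 172113) (nat_lit 10) (.e (nat_lit 434248) (nat_lit 28) (.e (nat_lit 573471) (nat_lit 11) (.e (nat_lit 16387) (nat_lit 0) (.e (nat_lit 7490) (nat_lit 402) .nil))))))) (.g (nat_lit 5) .nil .nil))) 
(.lf (nat_lit 43186) (.g (nat_lit 1657) (.e (nat_lit 1239) (nat_lit 91) (.e (nat_lit 90170) (nat_lit 13) (.e (nat_lit 172123) (nat_lit 13) (.e (nat_lit 483337) (nat_lit 9) (.e (nat_lit 426107) (nat_lit 1) .nil))))) .nil)))) (.nd (nat_lit 4) (.nd (nat_lit 5) 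
(.lf (nat_lit 43146) (.g (nat_lit 3681) (.e (nat_lit 1239) (nat_lit 91) (.e (nat_lit 90170) (nat_lit 13) (.e (nat_lit 172113) (nat_lit 10) (.e (nat_lit 434248) (nat_lit 28) (.e (nat_lit 573468) (nat_lit 10) (.e (nat_lit 8490) (nat_lit 180) (.e (nat_lit 1088) (nat_lit 81) (.e (nat_lit 5270) (nat_lit 298) .nil)))))))) (.g (nat_lit 4) .nil .nil))) 
(.lf (nat_lit 43178) (.g (nat_lit 4112) (.e (nat_lit 1239) (nat_lit 91) (.e (nat_lit 90170) (nat_lit 13) (.e (nat_lit 172120) (nat_lit 12) (.e (nat_lit 475185) (nat_lit 29) (.e (nat_lit 557105) (nat_lit 14) (.e (nat_lit 188160) (nat_lit 32) .nil)))))) (.g (nat_lit 5) .nil .nil)))) (.nd (nat_lit 5) 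
(.lf (nat_lit 43162) (.g (nat_lit 2492) (.e (nat_lit 1239) (nat_lit 91) (.e (nat_lit 90170) (nat_lit 13) (.e (nat_lit 172115) (nat_lit 10) (.e (nat_lit 434231) (nat_lit 23) (.e (nat_lit 532525) (nat_lit 8) (.e (nat_lit 327703) (nat_lit 10) (.e (nat_lit 5271) (nat_lit 298) .nil))))))) (.g (nat_lit 4) .nil .nil))) 
(.lf (nat_lit 43194) (.g (nat_lit 3227) (.e (nat_lit 1239) (nat_lit 91) (.e (nat_lit 90170) (nat_lit 13) (.e (nat_lit 172124) (nat_lit 14) (.e (nat_lit 491537) (nat_lit 2) (.e (nat_lit 90133) (nat_lit 9) (.e (nat_lit 3029) (nat_lit 188) (.e (nat_lit 466688) (nat_lit 0) .nil))))))) (.g (nat_lit 4) .nil .nil)))))) (.nd (nat_lit 3) (.nd (nat_lit 4) (.nd (nat_lit 5) 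
(.lf (nat_lit 43142) (.g (nat_lit 3764) (.e (nat_lit 1239) (nat_lit 91) (.e (nat_lit 90170) (nat_lit 13) (.e (nat_lit 172113) (nat_lit 10) (.e (nat_lit 434248) (nat_lit 28) (.e (nat_lit 573468) (nat_lit 10) (.e (nat_lit 8490) (nat_lit 180) (.e (nat_lit 976) (nat_lit 81) (.e (nat_lit 5270) (nat_lit 298) .nil)))))))) (.g (nat_lit 4) .nil .nil))) 
(.lf (nat_lit 43174) (.g (nat_lit 3257) (.e (nat_lit 1239) (nat_lit 91) (.e (nat_lit 90170) (nat_lit 13) (.e (nat_lit 172120) (nat_lit 12) (.e (nat_lit 475183) (nat_lit 29) (.e (nat_lit 557104) (nat_lit 14) (.e (nat_lit 188160) (nat_lit 32) .nil)))))) (.g (nat_lit 4) .nil .nil)))) (.nd (nat_lit 5) 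
(.lf (nat_lit 43158) (.g (nat_lit 2620) (.e (nat_lit 1239) (nat_lit 91) (.e (nat_lit 90170) (nat_lit 13) (.e (nat_lit 172113) (nat_lit 10) (.e (nat_lit 434248) (nat_lit 28) (.e (nat_lit 573475) (nat_lit 12) (.e (nat_lit 57348) (nat_lit 0) (.e (nat_lit 7265) (nat_lit 384) (.e (nat_lit 57347) (nat_lit 0) (.e (nat_lit 7936) (nat_lit 343) .nil))))))))) (.g (nat_lit 5) .nil .nil))) 
(.lf (nat_lit 43190) (.g (nat_lit 2592) (.e (nat_lit 1239) (nat_lit 91) (.e (nat_lit 90170) (nat_lit 13) (.e (nat_lit 172124) (nat_lit 14) (.e (nat_lit 491537) (nat_lit 2) (.e (nat_lit 90133) (nat_lit 9) .nil))))) .nil)))) (.nd (nat_lit 4) (.nd (nat_lit 5) 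
(.lf (nat_lit 43150) (.g (nat_lit 2938) (.e (nat_lit 1239) (nat_lit 91) (.e (nat_lit 90170) (nat_lit 13) (.e (nat_lit 172113) (nat_lit 10) (.e (nat_lit 434248) (nat_lit 28) (.e (nat_lit 573469) (nat_lit 11) (.e (nat_lit 16387) (nat_lit 0) (.e (nat_lit 7490) (nat_lit 402) .nil))))))) (.g (nat_lit 5) .nil .nil))) 
(.lf (nat_lit 43182) (.g (nat_lit 3115) (.e (nat_lit 1239) (nat_lit 91) (.e (nat_lit 90170) (nat_lit 13) (.e (nat_lit 172121) (nat_lit 13) (.e (nat_lit 483337) (nat_lit 9) (.e (nat_lit 426107) (nat_lit 1) (.e (nat_lit 164383) (nat_lit 254) (.e (nat_lit 999) (nat_lit 81) .nil))))))) (.g (nat_lit 5) .nil .nil)))) (.nd (nat_lit 5) 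
(.lf (nat_lit 43166) (.g (nat_lit 3544) (.e (nat_lit 1239) (nat_lit 91) (.e (nat_lit 90170) (nat_lit 13) (.e (nat_lit 172115) (nat_lit 10) (.e (nat_lit 434231) (nat_lit 23) (.e (nat_lit 532526) (nat_lit 8) (.e (nat_lit 327708) (nat_lit 10) (.e (nat_lit 5270) (nat_lit 298) .nil))))))) (.g (nat_lit 4) .nil .nil))) 
(.lf (nat_lit 43198) (.g (nat_lit 1066) (.e (nat_lit 1239) (nat_lit 91) (.e (nat_lit 90170) (nat_lit 13) (.e (nat_lit 172124) (nat_lit 14) (.e (nat_lit 491540) (nat_lit 3) .nil)))) .nil))))))) (.nd (nat_lit 1) (.nd (nat_lit 2) (.nd (nat_lit 3) (.nd (nat_lit 4) (.nd (nat_lit 5) 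
(.lf (nat_lit 43137) (.g (nat_lit 2454) (.e (nat_lit 1239) (nat_lit 91) (.e (nat_lit 90170) (nat_lit 13) (.e (nat_lit 172113) (nat_lit 10) (.e (nat_lit 434248) (nat_lit 28) (.e (nat_lit 573452) (nat_lit 9) (.e (nat_lit 7936) (nat_lit 0) (.e (nat_lit 7089) (nat_lit 379) (.e (nat_lit 123202) (nat_lit 270) .nil)))))))) (.g (nat_lit 4) .nil .nil))) 
(.lf (nat_lit 43169) (.g (nat_lit 3243) (.e (nat_lit 1239) (nat_lit 91) (.e (nat_lit 90170) (nat_lit 13) (.e (nat_lit 172118) (nat_lit 12) (.e (nat_lit 475185) (nat_lit 29) (.e (nat_lit 557103) (nat_lit 14) (.e (nat_lit 188160) (nat_lit 32) .nil)))))) (.g (nat_lit 5) .nil .nil)))) (.nd (nat_lit 5) 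
(.lf (nat_lit 43153) (.g (nat_lit 2690) (.e (nat_lit 1239) (nat_lit 91) (.e (nat_lit 90170) (nat_lit 13) (.e (nat_lit 172113) (nat_lit 10) (.e (nat_lit 434248) (nat_lit 28) (.e (nat_lit 573470) (nat_lit 11) (.e (nat_lit 16388) (nat_lit 0) (.e (nat_lit 7486) (nat_lit 402) .nil))))))) (.g (nat_lit 4) .nil .nil))) 
(.lf (nat_lit 43185) (.g (nat_lit 779) (.e (nat_lit 1239) (nat_lit 91) (.e (nat_lit 90170) (nat_lit 13) (.e (nat_lit 172123) (nat_lit 13) .nil))) .nil)))) (.nd (nat_lit 4) (.nd (nat_lit 5) 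
(.lf (nat_lit 43145) (.g (nat_lit 3516) (.e (nat_lit 1239) (nat_lit 91) (.e (nat_lit 90170) (nat_lit 13) (.e (nat_lit 172113) (nat_lit 10) (.e (nat_lit 434248) (nat_lit 28) (.e (nat_lit 573468) (nat_lit 10) (.e (nat_lit 8490) (nat_lit 180) (.e (nat_lit 1078) (nat_lit 81) (.e (nat_lit 5270) (nat_lit 298) .nil)))))))) (.g (nat_lit 4) .nil .nil))) 
(.lf (nat_lit 43177) (.g (nat_lit 3348) (.e (nat_lit 1239) (nat_lit 91) (.e (nat_lit 90170) (nat_lit 13) (.e (nat_lit 172120) (nat_lit 12) (.e (nat_lit 475185) (nat_lit 29) (.e (nat_lit 557104) (nat_lit 14) (.e (nat_lit 188160) (nat_lit 32) .nil)))))) (.g (nat_lit 4) .nil .nil)))) (.nd (nat_lit 5) 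
(.lf (nat_lit 43161) (.g (nat_lit 3257) (.e (nat_lit 1239) (nat_lit 91) (.e (nat_lit 90170) (nat_lit 13) (.e (nat_lit 172115) (nat_lit 10) (.e (nat_lit 434231) (nat_lit 23) (.e (nat_lit 532523) (nat_lit 7) (.e (nat_lit 319504) (nat_lit 10) (.e (nat_lit 7936) (nat_lit 298) .nil))))))) (.g (nat_lit 4) .nil .nil))) 
(.lf (nat_lit 43193) (.g (nat_lit 2905) (.e (nat_lit 1239) (nat_lit 91) (.e (nat_lit 90170) (nat_lit 13) (.e (nat_lit 172124) (nat_lit 14) (.e (nat_lit 491537) (nat_lit 2) (.e (nat_lit 90133) (nat_lit 9) (.e (nat_lit 2942) (nat_lit 184) (.e (nat_lit 425987) (nat_lit 0) (.e (nat_lit 7489) (nat_lit 402) .nil)))))))) (.g (nat_lit 4) .nil .nil)))))) (.nd (nat_lit 3) (.nd (nat_lit 4) (.nd (nat_lit 5) 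
(.lf (nat_lit 43141) (.g (nat_lit 2715) (.e (nat_lit 1239) (nat_lit 91) (.e (nat_lit 90170) (nat_lit 13) (.e (nat_lit 172113) (nat_lit 10) (.e (nat_lit 434248) (nat_lit 28) (.e (nat_lit 573468) (nat_lit 10) .nil))))) .nil)) 
(.lf (nat_lit 43173) (.g (nat_lit 523) (.e (nat_lit 1239) (nat_lit 91) (.e (nat_lit 90170) (nat_lit 13) (.e (nat_lit 172120) (nat_lit 12) .nil))) .nil))) (.nd (nat_lit 5) 
(.lf (nat_lit 43157) (.g (nat_lit 2140) (.e (nat_lit 1239) (nat_lit 91) (.e (nat_lit 90170) (nat_lit 13) (.e (nat_lit 172113) (nat_lit 10) (.e (nat_lit 434248) (nat_lit 28) (.e (nat_lit 573475) (nat_lit 12) (.e (nat_lit 57347) (nat_lit 0) (.e (nat_lit 7265) (nat_lit 384) (.e (nat_lit 57354) (nat_lit 0) (.e (nat_lit 7936) (nat_lit 343) .nil))))))))) (.g (nat_lit 4) .nil .nil))) 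
(.lf (nat_lit 43189) (.g (nat_lit 3073) (.e (nat_lit 1239) (nat_lit 91) (.e (nat_lit 90170) (nat_lit 13) (.e (nat_lit 172124) (nat_lit 14) (.e (nat_lit 491537) (nat_lit 2) (.e (nat_lit 90125) (nat_lit 9) .nil))))) .nil)))) (.nd (nat_lit 4) (.nd (nat_lit 5) 
(.lf (nat_lit 43149) (.g (nat_lit 2960) (.e (nat_lit 1239) (nat_lit 91) (.e (nat_lit 90170) (nat_lit 13) (.e (nat_lit 172113) (nat_lit 10) (.e (nat_lit 434248) (nat_lit 28) (.e (nat_lit 573468) (nat_lit 10) (.e (nat_lit 16128) (nat_lit 181) (.e (nat_lit 57876) (nat_lit 270) .nil))))))) (.g (nat_lit 4) .nil .nil))) 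
(.lf (nat_lit 43181) (.g (nat_lit 2268) (.e (nat_lit 1239) (nat_lit 91) (.e (nat_lit 90170) (nat_lit 13) (.e (nat_lit 172121) (nat_lit 13) (.e (nat_lit 483337) (nat_lit 9) (.e (nat_lit 426100) (nat_lit 1) (.e (nat_lit 164380) (nat_lit 254) (.e (nat_lit 999) (nat_lit 81) .nil))))))) (.g (nat_lit 4) .nil .nil)))) (.nd (nat_lit 5) 
(.lf (nat_lit 43165) (.g (nat_lit 4445) (.e (nat_lit 1239) (nat_lit 91) (.e (nat_lit 90170) (nat_lit 13) (.e (nat_lit 172115) (nat_lit 10) (.e (nat_lit 434231) (nat_lit 23) (.e (nat_lit 532525) (nat_lit 8) (.e (nat_lit 327708) (nat_lit 10) (.e (nat_lit 5270) (nat_lit 298) .nil))))))) (.g (nat_lit 6) .nil .nil))) 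
(.lf (nat_lit 43197) (.g (nat_lit 2957) (.e (nat_lit 1239) (nat_lit 91) (.e (nat_lit 90170) (nat_lit 13) (.e (nat_lit 172124) (nat_lit 14) (.e (nat_lit 491537) (nat_lit 2) (.e (nat_lit 90174) (nat_lit 14) (.e (nat_lit 188160) (nat_lit 32) .nil)))))) (.g (nat_lit 4) .nil .nil))))))) (.nd (nat_lit 2) (.nd (nat_lit 3) (.nd (nat_lit 4) (.nd (nat_lit 5) 
(.lf (nat_lit 43139) (.g (nat_lit 2183) (.e (nat_lit 1239) (nat_lit 91) (.e (nat_lit 90170) (nat_lit 13) (.e (nat_lit 172113) (nat_lit 10) (.e (nat_lit 434248) (nat_lit 28) (.e (nat_lit 573457) (nat_lit 9) .nil))))) .nil)) 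
(.lf (nat_lit 43171) (.g (nat_lit 3367) (.e (nat_lit 1239) (nat_lit 91) (.e (nat_lit 90170) (nat_lit 13) (.e (nat_lit 172119) (nat_lit 12) (.e (nat_lit 475185) (nat_lit 29) (.e (nat_lit 557103) (nat_lit 14) (.e (nat_lit 188160) (nat_lit 32) .nil)))))) (.g (nat_lit 4) .nil .nil)))) (.nd (nat_lit 5) 
(.lf (nat_lit 43155) (.g (nat_lit 2435) (.e (nat_lit 1239) (nat_lit 91) (.e (nat_lit 90170) (nat_lit 13) (.e (nat_lit 172113) (nat_lit 10) (.e (nat_lit 434248) (nat_lit 28) (.e (nat_lit 573473) (nat_lit 12) (.e (nat_lit 57348) (nat_lit 0) (.e (nat_lit 7265) (nat_lit 384) (.e (nat_lit 57347) (nat_lit 0) (.e (nat_lit 7936) (nat_lit 343) .nil))))))))) (.g (nat_lit 5) .nil .nil))) 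
(.lf (nat_lit 43187) (.g (nat_lit 2876) (.e (nat_lit 1239) (nat_lit 91) (.e (nat_lit 90170) (nat_lit 13) (.e (nat_lit 172123) (nat_lit 13) (.e (nat_lit 483370) (nat_lit 20) (.e (nat_lit 147500) (nat_lit 12) (.e (nat_lit 164038) (nat_lit 55) (.e (nat_lit 778246) (nat_lit 0) .nil))))))) (.g (nat_lit 4) .nil .nil))))) (.nd (nat_lit 4) (.nd (nat_lit 5) 
(.lf (nat_lit 43147) (.g (nat_lit 3633) (.e (nat_lit 1239) (nat_lit 91) (.e (nat_lit 90170) (nat_lit 13) (.e (nat_lit 172113) (nat_lit 10) (.e (nat_lit 434248) (nat_lit 28) (.e (nat_lit 573468) (nat_lit 10) (.e (nat_lit 8492) (nat_lit 180) (.e (nat_lit 1074) (nat_lit 81) (.e (nat_lit 5270) (nat_lit 298) .nil)))))))) (.g (nat_lit 4) .nil .nil))) 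
(.lf (nat_lit 43179) (.g (nat_lit 345) (.e (nat_lit 1239) (nat_lit 91) (.e (nat_lit 90170) (nat_lit 13) (.e (nat_lit 172121) (nat_lit 13) .nil))) .nil))) (.nd (nat_lit 5) 
(.lf (nat_lit 43163) (.g (nat_lit 3080) (.e (nat_lit 1239) (nat_lit 91) (.e (nat_lit 90170) (nat_lit 13) (.e (nat_lit 172115) (nat_lit 10) (.e (nat_lit 434231) (nat_lit 23) (.e (nat_lit 532525) (nat_lit 8) (.e (nat_lit 327704) (nat_lit 10) (.e (nat_lit 5245) (nat_lit 298) .nil))))))) (.g (nat_lit 4) .nil .nil))) 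
(.lf (nat_lit 43195) (.g (nat_lit 3074) (.e (nat_lit 1239) (nat_lit 91) (.e (nat_lit 90170) (nat_lit 13) (.e (nat_lit 172124) (nat_lit 14) (.e (nat_lit 491537) (nat_lit 2) (.e (nat_lit 90171) (nat_lit 14) .nil))))) .nil))))) (.nd (nat_lit 3) (.nd (nat_lit 4) (.nd (nat_lit 5) 
(.lf (nat_lit 43143) (.g (nat_lit 3585) (.e (nat_lit 1239) (nat_lit 91) (.e (nat_lit 90170) (nat_lit 13) (.e (nat_lit 172113) (nat_lit 10) (.e (nat_lit 434248) (nat_lit 28) (.e (nat_lit 573468) (nat_lit 10) (.e (nat_lit 8490) (nat_lit 180) (.e (nat_lit 979) (nat_lit 81) (.e (nat_lit 5270) (nat_lit 298) .nil)))))))) (.g (nat_lit 4) .nil .nil))) 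
(.lf (nat_lit 43175) (.g (nat_lit 2097) (.e (nat_lit 1239) (nat_lit 91) (.e (nat_lit 90170) (nat_lit 13) (.e (nat_lit 172120) (nat_lit 12) (.e (nat_lit 475184) (nat_lit 29) .nil)))) .nil))) (.nd (nat_lit 5) 
(.lf (nat_lit 43159) (.g (nat_lit 2097) (.e (nat_lit 1239) (nat_lit 91) (.e (nat_lit 90170) (nat_lit 13) (.e (nat_lit 172113) (nat_lit 10) (.e (nat_lit 434248) (nat_lit 28) (.e (nat_lit 573475) (nat_lit 12) (.e (nat_lit 57353) (nat_lit 0) (.e (nat_lit 7265) (nat_lit 384) (.e (nat_lit 57347) (nat_lit 0) (.e (nat_lit 7936) (nat_lit 343) .nil))))))))) (.g (nat_lit 4) .nil .nil))) 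
(.lf (nat_lit 43191) (.g (nat_lit 4260) (.e (nat_lit 1239) (nat_lit 91) (.e (nat_lit 90170) (nat_lit 13) (.e (nat_lit 172124) (nat_lit 14) (.e (nat_lit 491537) (nat_lit 2) (.e (nat_lit 90133) (nat_lit 9) (.e (nat_lit 2936) (nat_lit 184) (.e (nat_lit 425984) (nat_lit 0) (.e (nat_lit 7489) (nat_lit 402) .nil)))))))) (.g (nat_lit 5) .nil .nil))))) (.nd (nat_lit 4) (.nd (nat_lit 5) 
(.lf (nat_lit 43151) (.g (nat_lit 2710) (.e (nat_lit 1239) (nat_lit 91) (.e (nat_lit 90170) (nat_lit 13) (.e (nat_lit 172113) (nat_lit 10) (.e (nat_lit 434248) (nat_lit 28) (.e (nat_lit 573469) (nat_lit 11) (.e (nat_lit 16388) (nat_lit 0) (.e (nat_lit 7486) (nat_lit 402) .nil))))))) (.g (nat_lit 4) .nil .nil))) 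
(.lf (nat_lit 43183) (.g (nat_lit 2654) (.e (nat_lit 1239) (nat_lit 91) (.e (nat_lit 90170) (nat_lit 13) (.e (nat_lit 172121) (nat_lit 13) (.e (nat_lit 483337) (nat_lit 9) (.e (nat_lit 426107) (nat_lit 1) (.e (nat_lit 164385) (nat_lit 254) (.e (nat_lit 999) (nat_lit 81) .nil))))))) (.g (nat_lit 5) .nil .nil)))) (.nd (nat_lit 5) 
(.lf (nat_lit 43167) (.g (nat_lit 1346) (.e (nat_lit 1239) (nat_lit 91) (.e (nat_lit 90170) (nat_lit 13) (.e (nat_lit 172115) (nat_lit 10) (.e (nat_lit 434244) (nat_lit 28) .nil)))) .nil)) 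
(.lf (nat_lit 43199) (.g (nat_lit 2155) (.e (nat_lit 1239) (nat_lit 91) (.e (nat_lit 90170) (nat_lit 13) (.e (nat_lit 172124) (nat_lit 14) (.e (nat_lit 491540) (nat_lit 3) (.e (nat_lit 98323) (nat_lit 17) .nil))))) .nil))))))))

noncomputable def tv602 : DT := (.nd (nat_lit 0) (.nd (nat_lit 1) (.nd (nat_lit 2) (.nd (nat_lit 3) (.nd (nat_lit 4) (.nd (nat_lit 5) 
(.lf (nat_lit 43200) (.g (nat_lit 2429) (.e (nat_lit 1239) (nat_lit 91) (.e (nat_lit 90170) (nat_lit 13) (.e (nat_lit 172124) (nat_lit 14) (.e (nat_lit 491540) (nat_lit 3) (.e (nat_lit 98349) (nat_lit 24) (.e (nat_lit 409603) (nat_lit 0) (.e (nat_lit 5270) (nat_lit 298) .nil))))))) (.g (nat_lit 4) .nil .nil))) 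
(.lf (nat_lit 43232) (.g (nat_lit 3401) (.e (nat_lit 1239) (nat_lit 91) (.e (nat_lit 90170) (nat_lit 13) (.e (nat_lit 172126) (nat_lit 14) (.e (nat_lit 491539) (nat_lit 3) (.e (nat_lit 98350) (nat_lit 24) (.e (nat_lit 409604) (nat_lit 0) (.e (nat_lit 5270) (nat_lit 298) .nil))))))) (.g (nat_lit 4) .nil .nil)))) (.nd (nat_lit 5) 
(.lf (nat_lit 43216) (.g (nat_lit 1892) (.e (nat_lit 1239) (nat_lit 91) (.e (nat_lit 90170) (nat_lit 13) (.e (nat_lit 172126) (nat_lit 14) (.e (nat_lit 491535) (nat_lit 2) .nil)))) .nil)) 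
(.lf (nat_lit 43248) (.g (nat_lit 1122) (.e (nat_lit 1239) (nat_lit 91) (.e (nat_lit 90171) (nat_lit 14) (.e (nat_lit 188160) (nat_lit 35) (.e (nat_lit 57454) (nat_lit 21) (.e (nat_lit 507648) (nat_lit 10) (.e (nat_lit 188160) (nat_lit 32) .nil)))))) (.g (nat_lit 4) .nil .nil))))) (.nd (nat_lit 4) (.nd (nat_lit 5) 
(.lf (nat_lit 43208) (.g (nat_lit 2417) (.e (nat_lit 1239) (nat_lit 91) (.e (nat_lit 90170) (nat_lit 13) (.e (nat_lit 172124) (nat_lit 14) (.e (nat_lit 491540) (nat_lit 3) (.e (nat_lit 98363) (nat_lit 26) (.e (nat_lit 425987) (nat_lit 0) (.e (nat_lit 7489) (nat_lit 402) .nil))))))) (.g (nat_lit 4) .nil .nil))) 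
(.lf (nat_lit 43240) (.g (nat_lit 4267) (.e (nat_lit 1239) (nat_lit 91) (.e (nat_lit 90170) (nat_lit 13) (.e (nat_lit 172126) (nat_lit 14) (.e (nat_lit 491540) (nat_lit 3) (.e (nat_lit 98350) (nat_lit 24) (.e (nat_lit 409604) (nat_lit 0) (.e (nat_lit 5270) (nat_lit 298) .nil))))))) (.g (nat_lit 5) .nil .nil)))) (.nd (nat_lit 5) 
(.lf (nat_lit 43224) (.g (nat_lit 3335) (.e (nat_lit 1239) (nat_lit 91) (.e (nat_lit 90170) (nat_lit 13) (.e (nat_lit 172126) (nat_lit 14) (.e (nat_lit 491537) (nat_lit 2) (.e (nat_lit 90133) (nat_lit 9) (.e (nat_lit 3029) (nat_lit 188) (.e (nat_lit 466688) (nat_lit 0) .nil))))))) (.g (nat_lit 4) .nil .nil))) 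
(.lf (nat_lit 43256) (.g (nat_lit 2425) (.e (nat_lit 1239) (nat_lit 91) (.e (nat_lit 90173) (nat_lit 14) (.e (nat_lit 180252) (nat_lit 10) (.e (nat_lit 573489) (nat_lit 14) (.e (nat_lit 73755) (nat_lit 8) (.e (nat_lit 557090) (nat_lit 12) (.e (nat_lit 164007) (nat_lit 41) (.e (nat_lit 663552) (nat_lit 0) .nil)))))))) (.g (nat_lit 4) .nil .nil)))))) 
(.nd (nat_lit 3) (.nd (nat_lit 4) (.nd (nat_lit 5) 
(.lf (nat_lit 43204) (.g (nat_lit 4344) (.e (nat_lit 1239) (nat_lit 91) (.e (nat_lit 90170) (nat_lit 13) (.e (nat_lit 172124) (nat_lit 14) (.e (nat_lit 491540) (nat_lit 3) (.e (nat_lit 98350) (nat_lit 24) (.e (nat_lit 409602) (nat_lit 0) (.e (nat_lit 5270) (nat_lit 298) .nil))))))) (.g (nat_lit 6) .nil .nil))) 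
(.lf (nat_lit 43236) (.g (nat_lit 3730) (.e (nat_lit 1239) (nat_lit 91) (.e (nat_lit 90170) (nat_lit 13) (.e (nat_lit 172126) (nat_lit 14) (.e (nat_lit 491540) (nat_lit 3) (.e (nat_lit 98349) (nat_lit 24) (.e (nat_lit 409605) (nat_lit 0) (.e (nat_lit 5270) (nat_lit 298) .nil))))))) (.g (nat_lit 5) .nil .nil)))) (.nd (nat_lit 5) 
(.lf (nat_lit 43220) (.g (nat_lit 2890) (.e (nat_lit 1239) (nat_lit 91) (.e (nat_lit 90170) (nat_lit 13) (.e (nat_lit 172126) (nat_lit 14) (.e (nat_lit 491537) (nat_lit 2) (.e (nat_lit 90130) (nat_lit 9) .nil))))) .nil)) 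
(.lf (nat_lit 43252) (.g (nat_lit 2299) (.e (nat_lit 1239) (nat_lit 91) (.e (nat_lit 90172) (nat_lit 14) (.e (nat_lit 180278) (nat_lit 32) (.e (nat_lit 1235) (nat_lit 91) (.e (nat_lit 90174) (nat_lit 14) (.e (nat_lit 188160) (nat_lit 32) .nil)))))) (.g (nat_lit 4) .nil .nil))))) (.nd (nat_lit 4) (.nd (nat_lit 5) 
(.lf (nat_lit 43212) (.g (nat_lit 718) (.e (nat_lit 1239) (nat_lit 91) (.e (nat_lit 90170) (nat_lit 13) (.e (nat_lit 172125) (nat_lit 14) .nil))) .nil)) 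
(.lf (nat_lit 43244) (.g (nat_lit 2876) (.e (nat_lit 1239) (nat_lit 91) (.e (nat_lit 90170) (nat_lit 13) (.e (nat_lit 172126) (nat_lit 14) (.e (nat_lit 491540) (nat_lit 3) (.e (nat_lit 98368) (nat_lit 27) (.e (nat_lit 442112) (nat_lit 0) .nil)))))) (.g (nat_lit 4) .nil .nil)))) (.nd (nat_lit 5) 
(.lf (nat_lit 43228) (.g (nat_lit 3608) (.e (nat_lit 1239) (nat_lit 91) (.e (nat_lit 90170) (nat_lit 13) (.e (nat_lit 172126) (nat_lit 14) (.e (nat_lit 491537) (nat_lit 2) (.e (nat_lit 90174) (nat_lit 14) (.e (nat_lit 188160) (nat_lit 32) .nil)))))) (.g (nat_lit 5) .nil .nil))) 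
(.lf (nat_lit 43260) (.g (nat_lit 2852) (.e (nat_lit 1239) (nat_lit 91) (.e (nat_lit 90174) (nat_lit 14) (.e (nat_lit 180250) (nat_lit 10) (.e (nat_lit 573482) (nat_lit 13) (.e (nat_lit 65571) (nat_lit 3) (.e (nat_lit 98325) (nat_lit 17) (.e (nat_lit 3579) (nat_lit 223) (.e (nat_lit 745476) (nat_lit 0) .nil)))))))) (.g (nat_lit 4) .nil .nil))))))) 
(.nd (nat_lit 2) (.nd (nat_lit 3) (.nd (nat_lit 4) (.nd (nat_lit 5) 
(.lf (nat_lit 43202) (.g (nat_lit 3547) (.e (nat_lit 1239) (nat_lit 91) (.e (nat_lit 90170) (nat_lit 13) (.e (nat_lit 172124) (nat_lit 14) (.e (nat_lit 491540) (nat_lit 3) (.e (nat_lit 98349) (nat_lit 24) (.e (nat_lit 409605) (nat_lit 0) (.e (nat_lit 5270) (nat_lit 298) .nil))))))) (.g (nat_lit 5) .nil .nil))) 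
(.lf (nat_lit 43234) (.g (nat_lit 1182) (.e (nat_lit 1239) (nat_lit 91) (.e (nat_lit 90170) (nat_lit 13) (.e (nat_lit 172126) (nat_lit 14) (.e (nat_lit 491540) (nat_lit 3) .nil)))) .nil))) (.nd (nat_lit 5) 
(.lf (nat_lit 43218) (.g (nat_lit 3360) (.e (nat_lit 1239) (nat_lit 91) (.e (nat_lit 90170) (nat_lit 13) (.e (nat_lit 172126) (nat_lit 14) (.e (nat_lit 491537) (nat_lit 2) (.e (nat_lit 90125) (nat_lit 9) (.e (nat_lit 2936) (nat_lit 184) (.e (nat_lit 425984) (nat_lit 0) (.e (nat_lit 7489) (nat_lit 402) .nil)))))))) (.g (nat_lit 4) .nil .nil))) 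
(.lf (nat_lit 43250) (.g (nat_lit 2729) (.e (nat_lit 1239) (nat_lit 91) (.e (nat_lit 90172) (nat_lit 14) (.e (nat_lit 180278) (nat_lit 32) (.e (nat_lit 1234) (nat_lit 91) (.e (nat_lit 90172) (nat_lit 14) (.e (nat_lit 188160) (nat_lit 32) .nil)))))) (.g (nat_lit 4) .nil .nil))))) (.nd (nat_lit 4) (.nd (nat_lit 5) 
(.lf (nat_lit 43210) (.g (nat_lit 3525) (.e (nat_lit 1239) (nat_lit 91) (.e (nat_lit 90170) (nat_lit 13) (.e (nat_lit 172124) (nat_lit 14) (.e (nat_lit 491540) (nat_lit 3) (.e (nat_lit 98367) (nat_lit 27) (.e (nat_lit 442112) (nat_lit 0) .nil)))))) (.g (nat_lit 5) .nil .nil))) 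
(.lf (nat_lit 43242) (.g (nat_lit 3092) (.e (nat_lit 1239) (nat_lit 91) (.e (nat_lit 90170) (nat_lit 13) (.e (nat_lit 172126) (nat_lit 14) (.e (nat_lit 491540) (nat_lit 3) (.e (nat_lit 98363) (nat_lit 26) (.e (nat_lit 425987) (nat_lit 0) (.e (nat_lit 7489) (nat_lit 402) .nil))))))) (.g (nat_lit 4) .nil .nil)))) (.nd (nat_lit 5) 
(.lf (nat_lit 43226) (.g (nat_lit 3042) (.e (nat_lit 1239) (nat_lit 91) (.e (nat_lit 90170) (nat_lit 13) (.e (nat_lit 172126) (nat_lit 14) (.e (nat_lit 491537) (nat_lit 2) (.e (nat_lit 90171) (nat_lit 14) (.e (nat_lit 188160) (nat_lit 32) .nil)))))) (.g (nat_lit 4) .nil .nil))) 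
(.lf (nat_lit 43258) (.g (nat_lit 856) (.e (nat_lit 1239) (nat_lit 91) (.e (nat_lit 90173) (nat_lit 14) (.e (nat_lit 180278) (nat_lit 32) (.e (nat_lit 1235) (nat_lit 91) .nil)))) .nil))))) (.nd (nat_lit 3) (.nd (nat_lit 4) (.nd (nat_lit 5) 
(.lf (nat_lit 43206) (.g (nat_lit 3813) (.e (nat_lit 1239) (nat_lit 91) (.e (nat_lit 90170) (nat_lit 13) (.e (nat_lit 172124) (nat_lit 14) (.e (nat_lit 491540) (nat_lit 3) (.e (nat_lit 98350) (nat_lit 24) (.e (nat_lit 409604) (nat_lit 0) (.e (nat_lit 5270) (nat_lit 298) .nil))))))) (.g (nat_lit 5) .nil .nil))) 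
(.lf (nat_lit 43238) (.g (nat_lit 4751) (.e (nat_lit 1239) (nat_lit 91) (.e (nat_lit 90170) (nat_lit 13) (.e (nat_lit 172126) (nat_lit 14) (.e (nat_lit 491540) (nat_lit 3) (.e (nat_lit 98350) (nat_lit 24) (.e (nat_lit 409602) (nat_lit 0) (.e (nat_lit 5270) (nat_lit 298) .nil))))))) (.g (nat_lit 7) .nil .nil)))) (.nd (nat_lit 5) 
(.lf (nat_lit 43222) (.g (nat_lit 4444) (.e (nat_lit 1239) (nat_lit 91) (.e (nat_lit 90170) (nat_lit 13) (.e (nat_lit 172126) (nat_lit 14) (.e (nat_lit 491537) (nat_lit 2) (.e (nat_lit 90133) (nat_lit 9) (.e (nat_lit 2936) (nat_lit 184) (.e (nat_lit 425987) (nat_lit 0) (.e (nat_lit 7489) (nat_lit 402) .nil)))))))) (.g (nat_lit 6) .nil .nil))) 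
(.lf (nat_lit 43254) (.g (nat_lit 2305) (.e (nat_lit 1239) (nat_lit 91) (.e (nat_lit 90173) (nat_lit 14) (.e (nat_lit 180252) (nat_lit 10) (.e (nat_lit 573489) (nat_lit 14) (.e (nat_lit 73755) (nat_lit 8) (.e (nat_lit 557090) (nat_lit 12) (.e (nat_lit 164006) (nat_lit 41) (.e (nat_lit 663554) (nat_lit 0) .nil)))))))) (.g (nat_lit 4) .nil .nil))))) (.nd (nat_lit 4) (.nd (nat_lit 5) 
(.lf (nat_lit 43214) (.g (nat_lit 1512) (.e (nat_lit 1239) (nat_lit 91) (.e (nat_lit 90170) (nat_lit 13) (.e (nat_lit 172126) (nat_lit 14) (.e (nat_lit 491524) (nat_lit 0) .nil)))) .nil)) 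
(.lf (nat_lit 43246) (.g (nat_lit 1031) (.e (nat_lit 1239) (nat_lit 91) (.e (nat_lit 90171) (nat_lit 14) (.e (nat_lit 188160) (nat_lit 35) (.e (nat_lit 57454) (nat_lit 21) (.e (nat_lit 499924) (nat_lit 10) (.e (nat_lit 188160) (nat_lit 32) .nil)))))) (.g (nat_lit 4) .nil .nil)))) (.nd (nat_lit 5) 
(.lf (nat_lit 43230) (.g (nat_lit 2479) (.e (nat_lit 1239) (nat_lit 91) (.e (nat_lit 90170) (nat_lit 13) (.e (nat_lit 172126) (nat_lit 14) (.e (nat_lit 491539) (nat_lit 3) (.e (nat_lit 98350) (nat_lit 24) .nil))))) .nil)) 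
(.lf (nat_lit 43262) (.g (nat_lit 2952) (.e (nat_lit 1239) (nat_lit 91) (.e (nat_lit 90174) (nat_lit 14) (.e (nat_lit 180250) (nat_lit 10) (.e (nat_lit 573489) (nat_lit 14) (.e (nat_lit 73755) (nat_lit 8) (.e (nat_lit 557090) (nat_lit 12) (.e (nat_lit 163843) (nat_lit 0) (.e (nat_lit 5807) (nat_lit 320) (.e (nat_lit 999) (nat_lit 81) .nil))))))))) (.g (nat_lit 4) .nil .nil)))))))) 
(.nd (nat_lit 1) (.nd (nat_lit 2) (.nd (nat_lit 3) (.nd (nat_lit 4) (.nd (nat_lit 5) 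
(.lf (nat_lit 43201) (.g (nat_lit 3052) (.e (nat_lit 1239) (nat_lit 91) (.e (nat_lit 90170) (nat_lit 13) (.e (nat_lit 172124) (nat_lit 14) (.e (nat_lit 491540) (nat_lit 3) (.e (nat_lit 98349) (nat_lit 24) (.e (nat_lit 409604) (nat_lit 0) (.e (nat_lit 5270) (nat_lit 298) .nil))))))) (.g (nat_lit 4) .nil .nil))) 
(.lf (nat_lit 43233) (.g (nat_lit 3699) (.e (nat_lit 1239) (nat_lit 91) (.e (nat_lit 90170) (nat_lit 13) (.e (nat_lit 172126) (nat_lit 14) (.e (nat_lit 491539) (nat_lit 3) (.e (nat_lit 98367) (nat_lit 27) (.e (nat_lit 442112) (nat_lit 0) .nil)))))) (.g (nat_lit 5) .nil .nil)))) (.nd (nat_lit 5) 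
(.lf (nat_lit 43217) (.g (nat_lit 1991) (.e (nat_lit 1239) (nat_lit 91) (.e (nat_lit 90170) (nat_lit 13) (.e (nat_lit 172126) (nat_lit 14) (.e (nat_lit 491536) (nat_lit 2) .nil)))) .nil)) 
(.lf (nat_lit 43249) (.g (nat_lit 778) (.e (nat_lit 1239) (nat_lit 91) (.e (nat_lit 90172) (nat_lit 14) (.e (nat_lit 180276) (nat_lit 32) .nil))) .nil)))) (.nd (nat_lit 4) (.nd (nat_lit 5) 
(.lf (nat_lit 43209) (.g (nat_lit 2022) (.e (nat_lit 1239) (nat_lit 91) (.e (nat_lit 90170) (nat_lit 13) (.e (nat_lit 172124) (nat_lit 14) (.e (nat_lit 491540) (nat_lit 3) (.e (nat_lit 98366) (nat_lit 27) (.e (nat_lit 442112) (nat_lit 0) .nil)))))) (.g (nat_lit 4) .nil .nil))) 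
(.lf (nat_lit 43241) (.g (nat_lit 3127) (.e (nat_lit 1239) (nat_lit 91) (.e (nat_lit 90170) (nat_lit 13) (.e (nat_lit 172126) (nat_lit 14) (.e (nat_lit 491540) (nat_lit 3) (.e (nat_lit 98363) (nat_lit 26) (.e (nat_lit 425984) (nat_lit 0) (.e (nat_lit 7489) (nat_lit 402) .nil))))))) (.g (nat_lit 4) .nil .nil)))) (.nd (nat_lit 5) 
(.lf (nat_lit 43225) (.g (nat_lit 3099) (.e (nat_lit 1239) (nat_lit 91) (.e (nat_lit 90170) (nat_lit 13) (.e (nat_lit 172126) (nat_lit 14) (.e (nat_lit 491537) (nat_lit 2) (.e (nat_lit 90165) (nat_lit 12) (.e (nat_lit 164217) (nat_lit 178) (.e (nat_lit 123202) (nat_lit 270) .nil))))))) (.g (nat_lit 4) .nil .nil))) 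
(.lf (nat_lit 43257) (.g (nat_lit 1622) (.e (nat_lit 1239) (nat_lit 91) (.e (nat_lit 90173) (nat_lit 14) (.e (nat_lit 180277) (nat_lit 32) (.e (nat_lit 1235) (nat_lit 91) (.e (nat_lit 90174) (nat_lit 14) (.e (nat_lit 188160) (nat_lit 32) .nil)))))) (.g (nat_lit 4) .nil .nil)))))) (.nd (nat_lit 3) (.nd (nat_lit 4) (.nd (nat_lit 5) 
(.lf (nat_lit 43205) (.g (nat_lit 3857) (.e (nat_lit 1239) (nat_lit 91) (.e (nat_lit 90170) (nat_lit 13) (.e (nat_lit 172124) (nat_lit 14) (.e (nat_lit 491540) (nat_lit 3) (.e (nat_lit 98350) (nat_lit 24) (.e (nat_lit 409603) (nat_lit 0) (.e (nat_lit 5270) (nat_lit 298) .nil))))))) (.g (nat_lit 5) .nil .nil))) 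
(.lf (nat_lit 43237) (.g (nat_lit 2936) (.e (nat_lit 1239) (nat_lit 91) (.e (nat_lit 90170) (nat_lit 13) (.e (nat_lit 172126) (nat_lit 14) (.e (nat_lit 491540) (nat_lit 3) (.e (nat_lit 98350) (nat_lit 24) (.e (nat_lit 409602) (nat_lit 0) (.e (nat_lit 5245) (nat_lit 298) .nil))))))) (.g (nat_lit 4) .nil .nil)))) (.nd (nat_lit 5) 
(.lf (nat_lit 43221) (.g (nat_lit 4436) (.e (nat_lit 1239) (nat_lit 91) (.e (nat_lit 90170) (nat_lit 13) (.e (nat_lit 172126) (nat_lit 14) (.e (nat_lit 491537) (nat_lit 2) (.e (nat_lit 90133) (nat_lit 9) (.e (nat_lit 2936) (nat_lit 184) (.e (nat_lit 425984) (nat_lit 0) (.e (nat_lit 7489) (nat_lit 402) .nil)))))))) (.g (nat_lit 6) .nil .nil))) 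
(.lf (nat_lit 43253) (.g (nat_lit 772) (.e (nat_lit 1239) (nat_lit 91) (.e (nat_lit 90172) (nat_lit 14) (.e (nat_lit 188160) (nat_lit 38) .nil))) .nil)))) (.nd (nat_lit 4) (.nd (nat_lit 5) 
(.lf (nat_lit 43213) (.g (nat_lit 1537) (.e (nat_lit 1239) (nat_lit 91) (.e (nat_lit 90170) (nat_lit 13) (.e (nat_lit 172126) (nat_lit 14) (.e (nat_lit 491523) (nat_lit 0) .nil)))) .nil)) 
(.lf (nat_lit 43245) (.g (nat_lit 1468) (.e (nat_lit 1239) (nat_lit 91) (.e (nat_lit 90171) (nat_lit 14) (.e (nat_lit 188160) (nat_lit 32) (.e (nat_lit 1239) (nat_lit 91) (.e (nat_lit 90171) (nat_lit 14) (.e (nat_lit 188160) (nat_lit 32) .nil)))))) (.g (nat_lit 4) .nil .nil)))) (.nd (nat_lit 5) 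
(.lf (nat_lit 43229) (.g (nat_lit 1774) (.e (nat_lit 1239) (nat_lit 91) (.e (nat_lit 90170) (nat_lit 13) (.e (nat_lit 172126) (nat_lit 14) (.e (nat_lit 491538) (nat_lit 3) .nil)))) .nil)) 
(.lf (nat_lit 43261) (.g (nat_lit 3209) (.e (nat_lit 1239) (nat_lit 91) (.e (nat_lit 90174) (nat_lit 14) (.e (nat_lit 180250) (nat_lit 10) (.e (nat_lit 573484) (nat_lit 13) (.e (nat_lit 65569) (nat_lit 3) (.e (nat_lit 98325) (nat_lit 17) (.e (nat_lit 3579) (nat_lit 223) (.e (nat_lit 745476) (nat_lit 0) .nil)))))))) (.g (nat_lit 4) .nil .nil))))))) 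
(.nd (nat_lit 2) (.nd (nat_lit 3) (.nd (nat_lit 4) (.nd (nat_lit 5) 
(.lf (nat_lit 43203) (.g (nat_lit 2529) (.e (nat_lit 1239) (nat_lit 91) (.e (nat_lit 90170) (nat_lit 13) (.e (nat_lit 172124) (nat_lit 14) (.e (nat_lit 491540) (nat_lit 3) (.e (nat_lit 98350) (nat_lit 24) (.e (nat_lit 409602) (nat_lit 0) (.e (nat_lit 5245) (nat_lit 298) .nil))))))) (.g (nat_lit 4) .nil .nil))) 
(.lf (nat_lit 43235) (.g (nat_lit 3235) (.e (nat_lit 1239) (nat_lit 91) (.e (nat_lit 90170) (nat_lit 13) (.e (nat_lit 172126) (nat_lit 14) (.e (nat_lit 491540) (nat_lit 3) (.e (nat_lit 98349) (nat_lit 24) (.e (nat_lit 409604) (nat_lit 0) (.e (nat_lit 5270) (nat_lit 298) .nil))))))) (.g (nat_lit 4) .nil .nil)))) (.nd (nat_lit 5) 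
(.lf (nat_lit 43219) (.g (nat_lit 3389) (.e (nat_lit 1239) (nat_lit 91) (.e (nat_lit 90170) (nat_lit 13) (.e (nat_lit 172126) (nat_lit 14) (.e (nat_lit 491537) (nat_lit 2) (.e (nat_lit 90125) (nat_lit 9) (.e (nat_lit 2936) (nat_lit 184) (.e (nat_lit 425987) (nat_lit 0) (.e (nat_lit 7489) (nat_lit 402) .nil)))))))) (.g (nat_lit 4) .nil .nil))) 
(.lf (nat_lit 43251) (.g (nat_lit 2502) (.e (nat_lit 1239) (nat_lit 91) (.e (nat_lit 90172) (nat_lit 14) (.e (nat_lit 180278) (nat_lit 32) (.e (nat_lit 1235) (nat_lit 91) (.e (nat_lit 90172) (nat_lit 14) (.e (nat_lit 188160) (nat_lit 32) .nil)))))) (.g (nat_lit 5) .nil .nil))))) (.nd (nat_lit 4) (.nd (nat_lit 5) 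
(.lf (nat_lit 43211) (.g (nat_lit 2642) (.e (nat_lit 1239) (nat_lit 91) (.e (nat_lit 90170) (nat_lit 13) (.e (nat_lit 172124) (nat_lit 14) (.e (nat_lit 491540) (nat_lit 3) (.e (nat_lit 98368) (nat_lit 27) (.e (nat_lit 442112) (nat_lit 0) .nil)))))) (.g (nat_lit 4) .nil .nil))) 
(.lf (nat_lit 43243) (.g (nat_lit 3878) (.e (nat_lit 1239) (nat_lit 91) (.e (nat_lit 90170) (nat_lit 13) (.e (nat_lit 172126) (nat_lit 14) (.e (nat_lit 491540) (nat_lit 3) (.e (nat_lit 98367) (nat_lit 27) (.e (nat_lit 442112) (nat_lit 0) .nil)))))) (.g (nat_lit 5) .nil .nil)))) (.nd (nat_lit 5) 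
(.lf (nat_lit 43227) (.g (nat_lit 3475) (.e (nat_lit 1239) (nat_lit 91) (.e (nat_lit 90170) (nat_lit 13) (.e (nat_lit 172126) (nat_lit 14) (.e (nat_lit 491537) (nat_lit 2) (.e (nat_lit 90172) (nat_lit 14) (.e (nat_lit 188160) (nat_lit 32) .nil)))))) (.g (nat_lit 5) .nil .nil))) 
(.lf (nat_lit 43259) (.g (nat_lit 2652) (.e (nat_lit 1239) (nat_lit 91) (.e (nat_lit 90174) (nat_lit 14) (.e (nat_lit 180250) (nat_lit 10) (.e (nat_lit 573482) (nat_lit 13) (.e (nat_lit 65569) (nat_lit 3) (.e (nat_lit 98325) (nat_lit 17) (.e (nat_lit 3579) (nat_lit 223) (.e (nat_lit 745476) (nat_lit 0) .nil)))))))) (.g (nat_lit 4) .nil .nil)))))) (.nd (nat_lit 3) (.nd (nat_lit 4) (.nd (nat_lit 5) 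
(.lf (nat_lit 43207) (.g (nat_lit 2454) (.e (nat_lit 1239) (nat_lit 91) (.e (nat_lit 90170) (nat_lit 13) (.e (nat_lit 172124) (nat_lit 14) (.e (nat_lit 491540) (nat_lit 3) (.e (nat_lit 98363) (nat_lit 26) (.e (nat_lit 425984) (nat_lit 0) (.e (nat_lit 7489) (nat_lit 402) .nil))))))) (.g (nat_lit 4) .nil .nil))) 
(.lf (nat_lit 43239) (.g (nat_lit 4311) (.e (nat_lit 1239) (nat_lit 91) (.e (nat_lit 90170) (nat_lit 13) (.e (nat_lit 172126) (nat_lit 14) (.e (nat_lit 491540) (nat_lit 3) (.e (nat_lit 98350) (nat_lit 24) (.e (nat_lit 409603) (nat_lit 0) (.e (nat_lit 5270) (nat_lit 298) .nil))))))) (.g (nat_lit 5) .nil .nil)))) (.nd (nat_lit 5) 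
(.lf (nat_lit 43223) (.g (nat_lit 3082) (.e (nat_lit 1239) (nat_lit 91) (.e (nat_lit 90170) (nat_lit 13) (.e (nat_lit 172126) (nat_lit 14) (.e (nat_lit 491537) (nat_lit 2) (.e (nat_lit 90133) (nat_lit 9) (.e (nat_lit 2942) (nat_lit 184) (.e (nat_lit 425987) (nat_lit 0) (.e (nat_lit 7489) (nat_lit 402) .nil)))))))) (.g (nat_lit 4) .nil .nil))) 
(.lf (nat_lit 43255) (.g (nat_lit 2023) (.e (nat_lit 1239) (nat_lit 91) (.e (nat_lit 90173) (nat_lit 14) (.e (nat_lit 180252) (nat_lit 10) (.e (nat_lit 573489) (nat_lit 14) (.e (nat_lit 73755) (nat_lit 8) (.e (nat_lit 557090) (nat_lit 12) (.e (nat_lit 164006) (nat_lit 41) (.e (nat_lit 671488) (nat_lit 0) .nil)))))))) (.g (nat_lit 4) .nil .nil))))) (.nd (nat_lit 4) (.nd (nat_lit 5) 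
(.lf (nat_lit 43215) (.g (nat_lit 3167) (.e (nat_lit 1239) (nat_lit 91) (.e (nat_lit 90170) (nat_lit 13) (.e (nat_lit 172126) (nat_lit 14) (.e (nat_lit 491524) (nat_lit 0) (.e (nat_lit 1691) (nat_lit 117) (.e (nat_lit 499923) (nat_lit 10) (.e (nat_lit 188160) (nat_lit 32) .nil))))))) (.g (nat_lit 4) .nil .nil))) 
(.lf (nat_lit 43247) (.g (nat_lit 1253) (.e (nat_lit 1239) (nat_lit 91) (.e (nat_lit 90171) (nat_lit 14) (.e (nat_lit 188160) (nat_lit 35) (.e (nat_lit 57454) (nat_lit 21) (.e (nat_lit 499926) (nat_lit 10) (.e (nat_lit 188160) (nat_lit 32) .nil)))))) (.g (nat_lit 5) .nil .nil)))) (.nd (nat_lit 5) 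
(.lf (nat_lit 43231) (.g (nat_lit 4228) (.e (nat_lit 1239) (nat_lit 91) (.e (nat_lit 90170) (nat_lit 13) (.e (nat_lit 172126) (nat_lit 14) (.e (nat_lit 491539) (nat_lit 3) (.e (nat_lit 98350) (nat_lit 24) (.e (nat_lit 409602) (nat_lit 0) (.e (nat_lit 5270) (nat_lit 298) .nil))))))) (.g (nat_lit 5) .nil .nil))) 
(.lf (nat_lit 43263) (.g (nat_lit 2889) (.e (nat_lit 1239) (nat_lit 91) (.e (nat_lit 90174) (nat_lit 14) (.e (nat_lit 180250) (nat_lit 10) (.e (nat_lit 573489) (nat_lit 14) (.e (nat_lit 73755) (nat_lit 8) (.e (nat_lit 557090) (nat_lit 12) (.e (nat_lit 164006) (nat_lit 41) (.e (nat_lit 663554) (nat_lit 0) .nil)))))))) (.g (nat_lit 4) .nil .nil)))))))))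

noncomputable def tv603 : DT := (.nd (nat_lit 0) (.nd (nat_lit 1) (.nd (nat_lit 2) (.nd (nat_lit 3) (.nd (nat_lit 4) (.nd (nat_lit 5) (.nd (nat_lit 6) 
(.lf (nat_lit 43264) (.g (nat_lit 3009) (.e (nat_lit 1239) (nat_lit 91) (.e (nat_lit 90174) (nat_lit 14) (.e (nat_lit 180250) (nat_lit 10) (.e (nat_lit 573489) (nat_lit 14) (.e (nat_lit 73755) (nat_lit 8) (.e (nat_lit 557090) (nat_lit 12) (.e (nat_lit 164007) (nat_lit 41) (.e (nat_lit 663552) (nat_lit 0) .nil)))))))) (.g (nat_lit 4) .nil .nil))) 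
(.lf (nat_lit 43328) (.g (nat_lit 2942) (.e (nat_lit 7936) (nat_lit 91) (.e (nat_lit 90170) (nat_lit 13) (.e (nat_lit 172106) (nat_lit 10) (.e (nat_lit 434231) (nat_lit 23) (.e (nat_lit 532526) (nat_lit 8) .nil))))) .nil))) (.nd (nat_lit 6) 
(.lf (nat_lit 43296) (.g (nat_lit 3150) (.e (nat_lit 1239) (nat_lit 91) (.e (nat_lit 90176) (nat_lit 15) (.e (nat_lit 188450) (nat_lit 23) (.e (nat_lit 204846) (nat_lit 24) (.e (nat_lit 319504) (nat_lit 10) .nil))))) .nil)) 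
(.lf (nat_lit 43360) (.g (nat_lit 2528) (.e (nat_lit 1243) (nat_lit 92) (.e (nat_lit 98384) (nat_lit 32) (.e (nat_lit 475177) (nat_lit 24) (.e (nat_lit 516150) (nat_lit 9) (.e (nat_lit 426131) (nat_lit 3) .nil))))) .nil)))) (.nd (nat_lit 5) (.nd (nat_lit 6) 
(.lf (nat_lit 43280) (.g (nat_lit 2693) (.e (nat_lit 1239) (nat_lit 91) (.e (nat_lit 90174) (nat_lit 14) (.e (nat_lit 180277) (nat_lit 32) (.e (nat_lit 1253) (nat_lit 92) (.e (nat_lit 98367) (nat_lit 27) (.e (nat_lit 442112) (nat_lit 0) .nil)))))) (.g (nat_lit 5) .nil .nil))) 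
(.lf (nat_lit 43344) (.g (nat_lit 976) (.e (nat_lit 1243) (nat_lit 92) (.e (nat_lit 98356) (nat_lit 26) (.e (nat_lit 426438) (nat_lit 18) .nil))) .nil))) (.nd (nat_lit 6) 
(.lf (nat_lit 43312) (.g (nat_lit 1679) (.e (nat_lit 1239) (nat_lit 91) (.e (nat_lit 90185) (nat_lit 17) (.e (nat_lit 237616) (nat_lit 12) (.e (nat_lit 475185) (nat_lit 29) (.e (nat_lit 557105) (nat_lit 14) .nil))))) .nil)) 
(.lf (nat_lit 43376) (.g (nat_lit 1603) (.e (nat_lit 1245) (nat_lit 92) (.e (nat_lit 98342) (nat_lit 20) (.e (nat_lit 221212) (nat_lit 22) (.e (nat_lit 196669) (nat_lit 14) .nil)))) .nil))))) (.nd (nat_lit 4) (.nd (nat_lit 5) (.nd (nat_lit 6) 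
(.lf (nat_lit 43272) (.g (nat_lit 2376) (.e (nat_lit 1239) (nat_lit 91) (.e (nat_lit 90174) (nat_lit 14) (.e (nat_lit 180251) (nat_lit 10) (.e (nat_lit 573489) (nat_lit 14) (.e (nat_lit 73755) (nat_lit 8) (.e (nat_lit 557091) (nat_lit 12) (.e (nat_lit 164006) (nat_lit 41) (.e (nat_lit 671488) (nat_lit 0) .nil)))))))) (.g (nat_lit 4) .nil .nil))) 
(.lf (nat_lit 43336) (.g (nat_lit 2417) (.e (nat_lit 1243) (nat_lit 92) (.e (nat_lit 98334) (nat_lit 18) (.e (nat_lit 164398) (nat_lit 256) (.e (nat_lit 57373) (nat_lit 2) (.e (nat_lit 90174) (nat_lit 14) (.e (nat_lit 180243) (nat_lit 5) (.e (nat_lit 532510) (nat_lit 2) (.e (nat_lit 106511) (nat_lit 9) .nil)))))))) (.g (nat_lit 4) .nil .nil)))) (.nd (nat_lit 6) 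
(.lf (nat_lit 43304) (.g (nat_lit 1827) (.e (nat_lit 1239) (nat_lit 91) (.e (nat_lit 90178) (nat_lit 15) (.e (nat_lit 188441) (nat_lit 20) (.e (nat_lit 3271) (nat_lit 199) (.e (nat_lit 548914) (nat_lit 19) (.e (nat_lit 188160) (nat_lit 32) .nil)))))) (.g (nat_lit 4) .nil .nil))) 
(.lf (nat_lit 43368) (.g (nat_lit 2174) (.e (nat_lit 1245) (nat_lit 92) (.e (nat_lit 98342) (nat_lit 20) (.e (nat_lit 221210) (nat_lit 22) (.e (nat_lit 196668) (nat_lit 14) (.e (nat_lit 73747) (nat_lit 3) .nil))))) .nil)))) (.nd (nat_lit 5) (.nd (nat_lit 6) 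
(.lf (nat_lit 43288) (.g (nat_lit 902) (.e (nat_lit 1239) (nat_lit 91) (.e (nat_lit 90174) (nat_lit 14) (.e (nat_lit 180288) (nat_lit 45) .nil))) .nil)) 
(.lf (nat_lit 43352) (.g (nat_lit 791) (.e (nat_lit 1243) (nat_lit 92) (.e (nat_lit 98373) (nat_lit 29) (.e (nat_lit 450587) (nat_lit 10) .nil))) .nil))) (.nd (nat_lit 6) 
(.lf (nat_lit 43320) (.g (nat_lit 2709) (.e (nat_lit 1240) (nat_lit 91) (.e (nat_lit 90170) (nat_lit 13) (.e (nat_lit 172106) (nat_lit 10) (.e (nat_lit 434244) (nat_lit 28) .nil)))) .nil)) 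
(.lf (nat_lit 43384) (.g (nat_lit 2130) (.e (nat_lit 1245) (nat_lit 92) (.e (nat_lit 98342) (nat_lit 20) (.e (nat_lit 221212) (nat_lit 22) (.e (nat_lit 196670) (nat_lit 14) (.e (nat_lit 73746) (nat_lit 3) (.e (nat_lit 516119) (nat_lit 1) (.e (nat_lit 164147) (nat_lit 152) (.e (nat_lit 991) (nat_lit 81) .nil)))))))) (.g (nat_lit 4) .nil .nil))))))) 
(.nd (nat_lit 3) (.nd (nat_lit 4) (.nd (nat_lit 5) (.nd (nat_lit 6) 
(.lf (nat_lit 43268) (.g (nat_lit 2695) (.e (nat_lit 1239) (nat_lit 91) (.e (nat_lit 90174) (nat_lit 14) (.e (nat_lit 180251) (nat_lit 10) (.e (nat_lit 573489) (nat_lit 14) (.e (nat_lit 73755) (nat_lit 8) (.e (nat_lit 557089) (nat_lit 12) (.e (nat_lit 164007) (nat_lit 41) (.e (nat_lit 663554) (nat_lit 0) .nil)))))))) (.g (nat_lit 4) .nil .nil))) 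
(.lf (nat_lit 43332) (.g (nat_lit 1006) (.e (nat_lit 7936) (nat_lit 91) (.e (nat_lit 90176) (nat_lit 15) (.e (nat_lit 188450) (nat_lit 23) (.e (nat_lit 204848) (nat_lit 25) .nil)))) .nil))) (.nd (nat_lit 6) 
(.lf (nat_lit 43300) (.g (nat_lit 2916) (.e (nat_lit 1239) (nat_lit 91) (.e (nat_lit 90178) (nat_lit 15) (.e (nat_lit 188418) (nat_lit 0) (.e (nat_lit 1856) (nat_lit 124) (.e (nat_lit 557103) (nat_lit 14) (.e (nat_lit 188160) (nat_lit 32) .nil)))))) (.g (nat_lit 5) .nil .nil))) 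
(.lf (nat_lit 43364) (.g (nat_lit 661) (.e (nat_lit 1244) (nat_lit 92) (.e (nat_lit 98372) (nat_lit 29) (.e (nat_lit 450579) (nat_lit 5) .nil))) .nil)))) (.nd (nat_lit 5) (.nd (nat_lit 6) 
(.lf (nat_lit 43284) (.g (nat_lit 2114) (.e (nat_lit 1239) (nat_lit 91) (.e (nat_lit 90174) (nat_lit 14) (.e (nat_lit 188160) (nat_lit 35) (.e (nat_lit 57454) (nat_lit 21) (.e (nat_lit 499925) (nat_lit 10) (.e (nat_lit 188160) (nat_lit 32) .nil)))))) (.g (nat_lit 5) .nil .nil))) 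
(.lf (nat_lit 43348) (.g (nat_lit 3344) (.e (nat_lit 1243) (nat_lit 92) (.e (nat_lit 98370) (nat_lit 28) (.e (nat_lit 442427) (nat_lit 23) (.e (nat_lit 204846) (nat_lit 24) (.e (nat_lit 319504) (nat_lit 10) .nil))))) .nil))) (.nd (nat_lit 6) 
(.lf (nat_lit 43316) (.g (nat_lit 2765) (.e (nat_lit 1239) (nat_lit 91) (.e (nat_lit 90187) (nat_lit 18) (.e (nat_lit 2777) (nat_lit 178) (.e (nat_lit 286761) (nat_lit 13) (.e (nat_lit 393225) (nat_lit 9) (.e (nat_lit 335995) (nat_lit 1) (.e (nat_lit 57872) (nat_lit 264) (.e (nat_lit 982) (nat_lit 81) .nil)))))))) (.g (nat_lit 4) .nil .nil))) 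
(.lf (nat_lit 43380) (.g (nat_lit 3961) (.e (nat_lit 1245) (nat_lit 92) (.e (nat_lit 98342) (nat_lit 20) (.e (nat_lit 221212) (nat_lit 22) (.e (nat_lit 196670) (nat_lit 14) (.e (nat_lit 73746) (nat_lit 3) (.e (nat_lit 516115) (nat_lit 1) (.e (nat_lit 164153) (nat_lit 152) (.e (nat_lit 997) (nat_lit 81) .nil)))))))) (.g (nat_lit 7) .nil .nil)))))) (.nd (nat_lit 4) (.nd (nat_lit 5) (.nd (nat_lit 6) 
(.lf (nat_lit 43276) (.g (nat_lit 2650) (.e (nat_lit 1239) (nat_lit 91) (.e (nat_lit 90174) (nat_lit 14) (.e (nat_lit 180277) (nat_lit 32) (.e (nat_lit 1234) (nat_lit 91) (.e (nat_lit 90174) (nat_lit 14) (.e (nat_lit 188160) (nat_lit 32) .nil)))))) (.g (nat_lit 4) .nil .nil))) 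
(.lf (nat_lit 43340) (.g (nat_lit 2579) (.e (nat_lit 1243) (nat_lit 92) (.e (nat_lit 98342) (nat_lit 20) (.e (nat_lit 221212) (nat_lit 22) (.e (nat_lit 196668) (nat_lit 14) (.e (nat_lit 73747) (nat_lit 3) .nil))))) .nil))) (.nd (nat_lit 6) 
(.lf (nat_lit 43308) (.g (nat_lit 3607) (.e (nat_lit 1239) (nat_lit 91) (.e (nat_lit 90178) (nat_lit 15) (.e (nat_lit 188452) (nat_lit 23) (.e (nat_lit 204849) (nat_lit 25) (.e (nat_lit 327708) (nat_lit 10) (.e (nat_lit 5270) (nat_lit 298) .nil)))))) (.g (nat_lit 4) .nil .nil))) 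
(.lf (nat_lit 43372) (.g (nat_lit 2219) (.e (nat_lit 1245) (nat_lit 92) (.e (nat_lit 98342) (nat_lit 20) (.e (nat_lit 221212) (nat_lit 22) (.e (nat_lit 196668) (nat_lit 14) (.e (nat_lit 73747) (nat_lit 3) .nil))))) .nil)))) (.nd (nat_lit 5) (.nd (nat_lit 6) 
(.lf (nat_lit 43292) (.g (nat_lit 1692) (.e (nat_lit 1239) (nat_lit 91) (.e (nat_lit 90176) (nat_lit 15) (.e (nat_lit 188420) (nat_lit 0) (.e (nat_lit 1856) (nat_lit 124) (.e (nat_lit 557103) (nat_lit 14) (.e (nat_lit 188160) (nat_lit 32) .nil)))))) (.g (nat_lit 4) .nil .nil))) 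
(.lf (nat_lit 43356) (.g (nat_lit 3106) (.e (nat_lit 1243) (nat_lit 92) (.e (nat_lit 98373) (nat_lit 29) (.e (nat_lit 450588) (nat_lit 10) (.e (nat_lit 573471) (nat_lit 11) .nil)))) .nil))) (.nd (nat_lit 6) 
(.lf (nat_lit 43324) (.g (nat_lit 2781) (.e (nat_lit 1241) (nat_lit 91) (.e (nat_lit 90170) (nat_lit 13) (.e (nat_lit 172106) (nat_lit 10) (.e (nat_lit 434244) (nat_lit 28) .nil)))) .nil)) 
(.lf (nat_lit 43388) (.g (nat_lit 1057) (.e (nat_lit 1245) (nat_lit 92) (.e (nat_lit 98358) (nat_lit 26) (.e (nat_lit 426320) (nat_lit 12) .nil))) .nil))))))) (.nd (nat_lit 2) (.nd (nat_lit 3) (.nd (nat_lit 4) (.nd (nat_lit 5) (.nd (nat_lit 6) 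
(.lf (nat_lit 43266) (.g (nat_lit 2471) (.e (nat_lit 1239) (nat_lit 91) (.e (nat_lit 90174) (nat_lit 14) (.e (nat_lit 180251) (nat_lit 10) (.e (nat_lit 573489) (nat_lit 14) (.e (nat_lit 73755) (nat_lit 8) (.e (nat_lit 557089) (nat_lit 12) (.e (nat_lit 164006) (nat_lit 41) (.e (nat_lit 671488) (nat_lit 0) .nil)))))))) (.g (nat_lit 4) .nil .nil))) 
(.lf (nat_lit 43330) (.g (nat_lit 964) (.e (nat_lit 7936) (nat_lit 91) (.e (nat_lit 90176) (nat_lit 15) (.e (nat_lit 188450) (nat_lit 23) (.e (nat_lit 204821) (nat_lit 17) .nil)))) .nil))) (.nd (nat_lit 6) 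
(.lf (nat_lit 43298) (.g (nat_lit 2604) (.e (nat_lit 1239) (nat_lit 91) (.e (nat_lit 90177) (nat_lit 15) (.e (nat_lit 188452) (nat_lit 23) (.e (nat_lit 204846) (nat_lit 24) .nil)))) .nil)) 
(.lf (nat_lit 43362) (.g (nat_lit 2705) (.e (nat_lit 1243) (nat_lit 92) (.e (nat_lit 98384) (nat_lit 32) (.e (nat_lit 475177) (nat_lit 24) (.e (nat_lit 516171) (nat_lit 13) (.e (nat_lit 458789) (nat_lit 23) .nil))))) .nil)))) (.nd (nat_lit 5) (.nd (nat_lit 6) 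
(.lf (nat_lit 43282) (.g (nat_lit 2332) (.e (nat_lit 1239) (nat_lit 91) (.e (nat_lit 90174) (nat_lit 14) (.e (nat_lit 188160) (nat_lit 32) (.e (nat_lit 1239) (nat_lit 91) (.e (nat_lit 90174) (nat_lit 14) (.e (nat_lit 188160) (nat_lit 32) .nil)))))) (.g (nat_lit 4) .nil .nil))) 
(.lf (nat_lit 43346) (.g (nat_lit 1205) (.e (nat_lit 1243) (nat_lit 92) (.e (nat_lit 98358) (nat_lit 26) (.e (nat_lit 426272) (nat_lit 10) .nil))) .nil))) (.nd (nat_lit 6) 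
(.lf (nat_lit 43314) (.g (nat_lit 2056) (.e (nat_lit 1239) (nat_lit 91) (.e (nat_lit 90185) (nat_lit 17) (.e (nat_lit 237619) (nat_lit 12) (.e (nat_lit 475185) (nat_lit 29) (.e (nat_lit 557105) (nat_lit 14) (.e (nat_lit 188160) (nat_lit 32) .nil)))))) (.g (nat_lit 4) .nil .nil))) 
(.lf (nat_lit 43378) (.g (nat_lit 2040) (.e (nat_lit 1245) (nat_lit 92) (.e (nat_lit 98342) (nat_lit 20) (.e (nat_lit 221212) (nat_lit 22) (.e (nat_lit 196670) (nat_lit 14) (.e (nat_lit 73746) (nat_lit 3) (.e (nat_lit 516115) (nat_lit 1) (.e (nat_lit 164153) (nat_lit 152) (.e (nat_lit 982) (nat_lit 81) .nil)))))))) (.g (nat_lit 4) .nil .nil)))))) (.nd (nat_lit 4) (.nd (nat_lit 5) (.nd (nat_lit 6) 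
(.lf (nat_lit 43274) (.g (nat_lit 732) (.e (nat_lit 1239) (nat_lit 91) (.e (nat_lit 90174) (nat_lit 14) (.e (nat_lit 180277) (nat_lit 32) .nil))) .nil)) 
(.lf (nat_lit 43338) (.g (nat_lit 2322) (.e (nat_lit 1243) (nat_lit 92) (.e (nat_lit 98342) (nat_lit 20) (.e (nat_lit 221211) (nat_lit 22) (.e (nat_lit 196666) (nat_lit 13) (.e (nat_lit 65569) (nat_lit 3) .nil))))) .nil))) (.nd (nat_lit 6) 
(.lf (nat_lit 43306) (.g (nat_lit 2314) (.e (nat_lit 1239) (nat_lit 91) (.e (nat_lit 90178) (nat_lit 15) (.e (nat_lit 188452) (nat_lit 23) (.e (nat_lit 204846) (nat_lit 24) .nil)))) .nil)) 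
(.lf (nat_lit 43370) (.g (nat_lit 729) (.e (nat_lit 1245) (nat_lit 92) (.e (nat_lit 98342) (nat_lit 20) (.e (nat_lit 221212) (nat_lit 22) .nil))) .nil)))) (.nd (nat_lit 5) (.nd (nat_lit 6) 
(.lf (nat_lit 43290) (.g (nat_lit 3713) (.e (nat_lit 1239) (nat_lit 91) (.e (nat_lit 90175) (nat_lit 15) (.e (nat_lit 188452) (nat_lit 23) (.e (nat_lit 204846) (nat_lit 24) (.e (nat_lit 319504) (nat_lit 10) (.e (nat_lit 7936) (nat_lit 298) .nil)))))) (.g (nat_lit 5) .nil .nil))) 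
(.lf (nat_lit 43354) (.g (nat_lit 4299) (.e (nat_lit 1243) (nat_lit 92) (.e (nat_lit 98373) (nat_lit 29) (.e (nat_lit 450588) (nat_lit 10) (.e (nat_lit 573452) (nat_lit 9) .nil)))) .nil))) (.nd (nat_lit 6) 
(.lf (nat_lit 43322) (.g (nat_lit 4086) (.e (nat_lit 1241) (nat_lit 91) (.e (nat_lit 90170) (nat_lit 13) (.e (nat_lit 172106) (nat_lit 10) (.e (nat_lit 434231) (nat_lit 23) (.e (nat_lit 532482) (nat_lit 0) .nil))))) .nil)) 
(.lf (nat_lit 43386) (.g (nat_lit 2319) (.e (nat_lit 1245) (nat_lit 92) (.e (nat_lit 98356) (nat_lit 26) (.e (nat_lit 426428) (nat_lit 17) (.e (nat_lit 90174) (nat_lit 14) (.e (nat_lit 180243) (nat_lit 5) (.e (nat_lit 532501) (nat_lit 1) (.e (nat_lit 57754) (nat_lit 209) (.e (nat_lit 989) (nat_lit 81) .nil)))))))) (.g (nat_lit 4) .nil .nil))))))) 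
(.nd (nat_lit 3) (.nd (nat_lit 4) (.nd (nat_lit 5) (.nd (nat_lit 6) 
(.lf (nat_lit 43270) (.g (nat_lit 2755) (.e (nat_lit 1239) (nat_lit 91) (.e (nat_lit 90174) (nat_lit 14) (.e (nat_lit 180251) (nat_lit 10) (.e (nat_lit 573489) (nat_lit 14) (.e (nat_lit 73755) (nat_lit 8) (.e (nat_lit 557089) (nat_lit 12) (.e (nat_lit 164010) (nat_lit 41) (.e (nat_lit 663552) (nat_lit 0) .nil)))))))) (.g (nat_lit 4) .nil .nil))) 
(.lf (nat_lit 43334) (.g (nat_lit 1627) (.e (nat_lit 1243) (nat_lit 92) (.e (nat_lit 98317) (nat_lit 9) (.e (nat_lit 336186) (nat_lit 11) (.e (nat_lit 368676) (nat_lit 21) (.e (nat_lit 516179) (nat_lit 15) .nil))))) .nil))) (.nd (nat_lit 6) 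
(.lf (nat_lit 43302) (.g (nat_lit 1467) (.e (nat_lit 1239) (nat_lit 91) (.e (nat_lit 90178) (nat_lit 15) (.e (nat_lit 196352) (nat_lit 0) (.e (nat_lit 1853) (nat_lit 124) (.e (nat_lit 557104) (nat_lit 14) (.e (nat_lit 188160) (nat_lit 32) .nil)))))) (.g (nat_lit 4) .nil .nil))) 
(.lf (nat_lit 43366) (.g (nat_lit 4507) (.e (nat_lit 1244) (nat_lit 92) (.e (nat_lit 98373) (nat_lit 29) (.e (nat_lit 450588) (nat_lit 10) (.e (nat_lit 573452) (nat_lit 9) .nil)))) .nil)))) (.nd (nat_lit 5) (.nd (nat_lit 6) 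
(.lf (nat_lit 43286) (.g (nat_lit 2081) (.e (nat_lit 1239) (nat_lit 91) (.e (nat_lit 90174) (nat_lit 14) (.e (nat_lit 188160) (nat_lit 35) (.e (nat_lit 57454) (nat_lit 21) (.e (nat_lit 499927) (nat_lit 10) (.e (nat_lit 188160) (nat_lit 32) .nil)))))) (.g (nat_lit 5) .nil .nil))) 
(.lf (nat_lit 43350) (.g (nat_lit 684) (.e (nat_lit 1243) (nat_lit 92) (.e (nat_lit 98372) (nat_lit 29) (.e (nat_lit 450586) (nat_lit 10) .nil))) .nil))) (.nd (nat_lit 6) 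
(.lf (nat_lit 43318) (.g (nat_lit 2345) (.e (nat_lit 1239) (nat_lit 91) (.e (nat_lit 90187) (nat_lit 18) (.e (nat_lit 2781) (nat_lit 178) (.e (nat_lit 286761) (nat_lit 13) (.e (nat_lit 393225) (nat_lit 9) (.e (nat_lit 335995) (nat_lit 1) (.e (nat_lit 57872) (nat_lit 264) (.e (nat_lit 988) (nat_lit 81) .nil)))))))) (.g (nat_lit 4) .nil .nil))) 
(.lf (nat_lit 43382) (.g (nat_lit 2762) (.e (nat_lit 1245) (nat_lit 92) (.e (nat_lit 98342) (nat_lit 20) (.e (nat_lit 221212) (nat_lit 22) (.e (nat_lit 196670) (nat_lit 14) (.e (nat_lit 73746) (nat_lit 3) (.e (nat_lit 516117) (nat_lit 1) (.e (nat_lit 164147) (nat_lit 152) (.e (nat_lit 990) (nat_lit 81) .nil)))))))) (.g (nat_lit 5) .nil .nil)))))) (.nd (nat_lit 4) (.nd (nat_lit 5) (.nd (nat_lit 6) 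
(.lf (nat_lit 43278) (.g (nat_lit 2826) (.e (nat_lit 1239) (nat_lit 91) (.e (nat_lit 90174) (nat_lit 14) (.e (nat_lit 180277) (nat_lit 32) (.e (nat_lit 1235) (nat_lit 91) (.e (nat_lit 90174) (nat_lit 14) (.e (nat_lit 188160) (nat_lit 32) .nil)))))) (.g (nat_lit 5) .nil .nil))) 
(.lf (nat_lit 43342) (.g (nat_lit 1872) (.e (nat_lit 1243) (nat_lit 92) (.e (nat_lit 98342) (nat_lit 20) (.e (nat_lit 221212) (nat_lit 22) (.e (nat_lit 196681) (nat_lit 17) .nil)))) .nil))) (.nd (nat_lit 6) 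
(.lf (nat_lit 43310) (.g (nat_lit 872) (.e (nat_lit 1239) (nat_lit 91) (.e (nat_lit 90185) (nat_lit 17) (.e (nat_lit 237616) (nat_lit 12) .nil))) .nil)) 
(.lf (nat_lit 43374) (.g (nat_lit 3911) (.e (nat_lit 1245) (nat_lit 92) (.e (nat_lit 98342) (nat_lit 20) (.e (nat_lit 221212) (nat_lit 22) (.e (nat_lit 196668) (nat_lit 14) (.e (nat_lit 73747) (nat_lit 3) (.e (nat_lit 516115) (nat_lit 1) (.e (nat_lit 164153) (nat_lit 152) (.e (nat_lit 997) (nat_lit 81) .nil)))))))) (.g (nat_lit 7) .nil .nil))))) (.nd (nat_lit 5) (.nd (nat_lit 6) 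
(.lf (nat_lit 43294) (.g (nat_lit 731) (.e (nat_lit 1239) (nat_lit 91) (.e (nat_lit 90176) (nat_lit 15) (.e (nat_lit 188439) (nat_lit 20) .nil))) .nil)) 
(.lf (nat_lit 43358) (.g (nat_lit 1275) (.e (nat_lit 1243) (nat_lit 92) (.e (nat_lit 98381) (nat_lit 31) (.e (nat_lit 466947) (nat_lit 0) (.e (nat_lit 1856) (nat_lit 124) (.e (nat_lit 557103) (nat_lit 14) (.e (nat_lit 188160) (nat_lit 32) .nil)))))) (.g (nat_lit 4) .nil .nil)))) (.nd (nat_lit 6) 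
(.lf (nat_lit 43326) (.g (nat_lit 4556) (.e (nat_lit 1242) (nat_lit 91) (.e (nat_lit 90178) (nat_lit 15) (.e (nat_lit 188452) (nat_lit 23) (.e (nat_lit 204846) (nat_lit 24) (.e (nat_lit 319504) (nat_lit 10) .nil))))) .nil)) 
(.lf (nat_lit 43390) (.g (nat_lit 661) (.e (nat_lit 1245) (nat_lit 92) (.e (nat_lit 98372) (nat_lit 29) (.e (nat_lit 450579) (nat_lit 5) .nil))) .nil)))))))) (.nd (nat_lit 1) (.nd (nat_lit 2) (.nd (nat_lit 3) (.nd (nat_lit 4) (.nd (nat_lit 5) (.nd (nat_lit 6) 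
(.lf (nat_lit 43265) (.g (nat_lit 2647) (.e (nat_lit 1239) (nat_lit 91) (.e (nat_lit 90174) (nat_lit 14) (.e (nat_lit 180250) (nat_lit 10) (.e (nat_lit 573489) (nat_lit 14) (.e (nat_lit 73755) (nat_lit 8) (.e (nat_lit 557090) (nat_lit 12) (.e (nat_lit 164007) (nat_lit 41) (.e (nat_lit 663554) (nat_lit 0) .nil)))))))) (.g (nat_lit 4) .nil .nil))) 
(.lf (nat_lit 43329) (.g (nat_lit 932) (.e (nat_lit 7936) (nat_lit 91) (.e (nat_lit 90176) (nat_lit 15) (.e (nat_lit 188450) (nat_lit 23) (.e (nat_lit 204816) (nat_lit 17) .nil)))) .nil))) (.nd (nat_lit 6) 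
(.lf (nat_lit 43297) (.g (nat_lit 1641) (.e (nat_lit 1239) (nat_lit 91) (.e (nat_lit 90176) (nat_lit 15) (.e (nat_lit 188450) (nat_lit 23) (.e (nat_lit 204849) (nat_lit 25) .nil)))) .nil)) 
(.lf (nat_lit 43361) (.g (nat_lit 2848) (.e (nat_lit 1243) (nat_lit 92) (.e (nat_lit 98384) (nat_lit 32) (.e (nat_lit 475177) (nat_lit 24) (.e (nat_lit 516169) (nat_lit 13) (.e (nat_lit 458789) (nat_lit 23) .nil))))) .nil)))) (.nd (nat_lit 5) (.nd (nat_lit 6) 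
(.lf (nat_lit 43281) (.g (nat_lit 1900) (.e (nat_lit 1239) (nat_lit 91) (.e (nat_lit 90174) (nat_lit 14) (.e (nat_lit 188160) (nat_lit 32) (.e (nat_lit 1239) (nat_lit 91) (.e (nat_lit 90171) (nat_lit 14) (.e (nat_lit 188160) (nat_lit 32) .nil)))))) (.g (nat_lit 4) .nil .nil))) 
(.lf (nat_lit 43345) (.g (nat_lit 1086) (.e (nat_lit 1243) (nat_lit 92) (.e (nat_lit 98358) (nat_lit 26) (.e (nat_lit 426227) (nat_lit 9) .nil))) .nil))) (.nd (nat_lit 6) 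
(.lf (nat_lit 43313) (.g (nat_lit 2250) (.e (nat_lit 1239) (nat_lit 91) (.e (nat_lit 90185) (nat_lit 17) (.e (nat_lit 237619) (nat_lit 12) (.e (nat_lit 475185) (nat_lit 29) (.e (nat_lit 557103) (nat_lit 14) (.e (nat_lit 188160) (nat_lit 32) .nil)))))) (.g (nat_lit 4) .nil .nil))) 
(.lf (nat_lit 43377) (.g (nat_lit 1996) (.e (nat_lit 1245) (nat_lit 92) (.e (nat_lit 98342) (nat_lit 20) (.e (nat_lit 221212) (nat_lit 22) (.e (nat_lit 196670) (nat_lit 14) (.e (nat_lit 73746) (nat_lit 3) .nil))))) .nil))))) (.nd (nat_lit 4) (.nd (nat_lit 5) (.nd (nat_lit 6) 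
(.lf (nat_lit 43273) (.g (nat_lit 2731) (.e (nat_lit 1239) (nat_lit 91) (.e (nat_lit 90174) (nat_lit 14) (.e (nat_lit 180251) (nat_lit 10) (.e (nat_lit 573489) (nat_lit 14) (.e (nat_lit 73755) (nat_lit 8) (.e (nat_lit 557091) (nat_lit 12) (.e (nat_lit 164007) (nat_lit 41) (.e (nat_lit 663552) (nat_lit 0) .nil)))))))) (.g (nat_lit 4) .nil .nil))) 
(.lf (nat_lit 43337) (.g (nat_lit 2778) (.e (nat_lit 1243) (nat_lit 92) (.e (nat_lit 98334) (nat_lit 18) (.e (nat_lit 164398) (nat_lit 256) (.e (nat_lit 57379) (nat_lit 3) (.e (nat_lit 98366) (nat_lit 27) .nil))))) .nil))) (.nd (nat_lit 6) 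
(.lf (nat_lit 43305) (.g (nat_lit 2413) (.e (nat_lit 1239) (nat_lit 91) (.e (nat_lit 90178) (nat_lit 15) (.e (nat_lit 188441) (nat_lit 20) (.e (nat_lit 3272) (nat_lit 199) (.e (nat_lit 548914) (nat_lit 19) (.e (nat_lit 188160) (nat_lit 32) .nil)))))) (.g (nat_lit 5) .nil .nil))) 
(.lf (nat_lit 43369) (.g (nat_lit 2047) (.e (nat_lit 1245) (nat_lit 92) (.e (nat_lit 98342) (nat_lit 20) (.e (nat_lit 221210) (nat_lit 22) (.e (nat_lit 196670) (nat_lit 14) (.e (nat_lit 73746) (nat_lit 3) .nil))))) .nil)))) (.nd (nat_lit 5) (.nd (nat_lit 6) 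
(.lf (nat_lit 43289) (.g (nat_lit 2693) (.e (nat_lit 1239) (nat_lit 91) (.e (nat_lit 90175) (nat_lit 15) (.e (nat_lit 188452) (nat_lit 23) (.e (nat_lit 204846) (nat_lit 24) (.e (nat_lit 319504) (nat_lit 10) .nil))))) .nil)) 
(.lf (nat_lit 43353) (.g (nat_lit 3656) (.e (nat_lit 1243) (nat_lit 92) (.e (nat_lit 98373) (nat_lit 29) (.e (nat_lit 450587) (nat_lit 10) (.e (nat_lit 573456) (nat_lit 9) .nil)))) .nil))) (.nd (nat_lit 6) 
(.lf (nat_lit 43321) (.g (nat_lit 2808) (.e (nat_lit 1240) (nat_lit 91) (.e (nat_lit 90177) (nat_lit 15) (.e (nat_lit 188452) (nat_lit 23) (.e (nat_lit 204846) (nat_lit 24) .nil)))) .nil)) 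
(.lf (nat_lit 43385) (.g (nat_lit 2678) (.e (nat_lit 1245) (nat_lit 92) (.e (nat_lit 98356) (nat_lit 26) (.e (nat_lit 426428) (nat_lit 17) (.e (nat_lit 90170) (nat_lit 13) (.e (nat_lit 172065) (nat_lit 3) .nil))))) .nil)))))) (.nd (nat_lit 3) (.nd (nat_lit 4) (.nd (nat_lit 5) (.nd (nat_lit 6) 
(.lf (nat_lit 43269) (.g (nat_lit 2189) (.e (nat_lit 1239) (nat_lit 91) (.e (nat_lit 90174) (nat_lit 14) (.e (nat_lit 180251) (nat_lit 10) (.e (nat_lit 573489) (nat_lit 14) (.e (nat_lit 73755) (nat_lit 8) (.e (nat_lit 557089) (nat_lit 12) (.e (nat_lit 164007) (nat_lit 41) (.e (nat_lit 671488) (nat_lit 0) .nil)))))))) (.g (nat_lit 4) .nil .nil))) 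
(.lf (nat_lit 43333) (.g (nat_lit 2326) (.e (nat_lit 7936) (nat_lit 91) (.e (nat_lit 90177) (nat_lit 15) (.e (nat_lit 188452) (nat_lit 23) (.e (nat_lit 204816) (nat_lit 17) .nil)))) .nil))) (.nd (nat_lit 6) 
(.lf (nat_lit 43301) (.g (nat_lit 2703) (.e (nat_lit 1239) (nat_lit 91) (.e (nat_lit 90178) (nat_lit 15) (.e (nat_lit 188418) (nat_lit 0) (.e (nat_lit 1856) (nat_lit 124) (.e (nat_lit 557105) (nat_lit 14) (.e (nat_lit 188160) (nat_lit 32) .nil)))))) (.g (nat_lit 5) .nil .nil))) 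
(.lf (nat_lit 43365) (.g (nat_lit 1107) (.e (nat_lit 1244) (nat_lit 92) (.e (nat_lit 98373) (nat_lit 29) (.e (nat_lit 450581) (nat_lit 5) .nil))) .nil)))) (.nd (nat_lit 5) (.nd (nat_lit 6) 
(.lf (nat_lit 43285) (.g (nat_lit 2054) (.e (nat_lit 1239) (nat_lit 91) (.e (nat_lit 90174) (nat_lit 14) (.e (nat_lit 188160) (nat_lit 35) (.e (nat_lit 57454) (nat_lit 21) (.e (nat_lit 499926) (nat_lit 10) (.e (nat_lit 188160) (nat_lit 32) .nil)))))) (.g (nat_lit 5) .nil .nil))) 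
(.lf (nat_lit 43349) (.g (nat_lit 2107) (.e (nat_lit 1243) (nat_lit 92) (.e (nat_lit 98372) (nat_lit 29) (.e (nat_lit 450579) (nat_lit 5) (.e (nat_lit 532523) (nat_lit 7) .nil)))) .nil))) (.nd (nat_lit 6) 
(.lf (nat_lit 43317) (.g (nat_lit 2490) (.e (nat_lit 1239) (nat_lit 91) (.e (nat_lit 90187) (nat_lit 18) (.e (nat_lit 2777) (nat_lit 178) (.e (nat_lit 286761) (nat_lit 13) (.e (nat_lit 393225) (nat_lit 9) (.e (nat_lit 335995) (nat_lit 1) (.e (nat_lit 57872) (nat_lit 264) (.e (nat_lit 994) (nat_lit 81) .nil)))))))) (.g (nat_lit 4) .nil .nil))) 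
(.lf (nat_lit 43381) (.g (nat_lit 2231) (.e (nat_lit 1245) (nat_lit 92) (.e (nat_lit 98342) (nat_lit 20) (.e (nat_lit 221212) (nat_lit 22) (.e (nat_lit 196670) (nat_lit 14) (.e (nat_lit 73746) (nat_lit 3) (.e (nat_lit 516117) (nat_lit 1) (.e (nat_lit 164147) (nat_lit 152) (.e (nat_lit 989) (nat_lit 81) .nil)))))))) (.g (nat_lit 4) .nil .nil)))))) (.nd (nat_lit 4) (.nd (nat_lit 5) (.nd (nat_lit 6) 
(.lf (nat_lit 43277) (.g (nat_lit 3004) (.e (nat_lit 1239) (nat_lit 91) (.e (nat_lit 90174) (nat_lit 14) (.e (nat_lit 180277) (nat_lit 32) (.e (nat_lit 1235) (nat_lit 91) (.e (nat_lit 90172) (nat_lit 14) (.e (nat_lit 188160) (nat_lit 32) .nil)))))) (.g (nat_lit 5) .nil .nil))) 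
(.lf (nat_lit 43341) (.g (nat_lit 2363) (.e (nat_lit 1243) (nat_lit 92) (.e (nat_lit 98342) (nat_lit 20) (.e (nat_lit 221212) (nat_lit 22) (.e (nat_lit 196670) (nat_lit 14) (.e (nat_lit 73746) (nat_lit 3) .nil))))) .nil))) (.nd (nat_lit 6) 
(.lf (nat_lit 43309) (.g (nat_lit 875) (.e (nat_lit 1239) (nat_lit 91) (.e (nat_lit 90185) (nat_lit 17) (.e (nat_lit 237601) (nat_lit 9) .nil))) .nil)) 
(.lf (nat_lit 43373) (.g (nat_lit 2277) (.e (nat_lit 1245) (nat_lit 92) (.e (nat_lit 98342) (nat_lit 20) (.e (nat_lit 221212) (nat_lit 22) (.e (nat_lit 196668) (nat_lit 14) (.e (nat_lit 73747) (nat_lit 3) (.e (nat_lit 516115) (nat_lit 1) (.e (nat_lit 164148) (nat_lit 152) (.e (nat_lit 997) (nat_lit 81) .nil)))))))) (.g (nat_lit 4) .nil .nil))))) (.nd (nat_lit 5) (.nd (nat_lit 6) 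
(.lf (nat_lit 43293) (.g (nat_lit 1669) (.e (nat_lit 1239) (nat_lit 91) (.e (nat_lit 90176) (nat_lit 15) (.e (nat_lit 188420) (nat_lit 0) (.e (nat_lit 1856) (nat_lit 124) (.e (nat_lit 557105) (nat_lit 14) .nil))))) .nil)) 
(.lf (nat_lit 43357) (.g (nat_lit 4378) (.e (nat_lit 1243) (nat_lit 92) (.e (nat_lit 98373) (nat_lit 29) (.e (nat_lit 450588) (nat_lit 10) (.e (nat_lit 573475) (nat_lit 12) .nil)))) .nil))) (.nd (nat_lit 6) 
(.lf (nat_lit 43325) (.g (nat_lit 632) (.e (nat_lit 1242) (nat_lit 91) (.e (nat_lit 90178) (nat_lit 15) (.e (nat_lit 188441) (nat_lit 20) .nil))) .nil)) 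
(.lf (nat_lit 43389) (.g (nat_lit 1945) (.e (nat_lit 1245) (nat_lit 92) (.e (nat_lit 98358) (nat_lit 26) (.e (nat_lit 426320) (nat_lit 12) (.e (nat_lit 475185) (nat_lit 29) .nil)))) .nil))))))) (.nd (nat_lit 2) (.nd (nat_lit 3) (.nd (nat_lit 4) (.nd (nat_lit 5) (.nd (nat_lit 6) 
(.lf (nat_lit 43267) (.g (nat_lit 2993) (.e (nat_lit 1239) (nat_lit 91) (.e (nat_lit 90174) (nat_lit 14) (.e (nat_lit 180251) (nat_lit 10) (.e (nat_lit 573489) (nat_lit 14) (.e (nat_lit 73755) (nat_lit 8) (.e (nat_lit 557089) (nat_lit 12) (.e (nat_lit 164007) (nat_lit 41) (.e (nat_lit 663552) (nat_lit 0) .nil)))))))) (.g (nat_lit 4) .nil .nil))) 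
(.lf (nat_lit 43331) (.g (nat_lit 1147) (.e (nat_lit 7936) (nat_lit 91) (.e (nat_lit 90176) (nat_lit 15) (.e (nat_lit 188450) (nat_lit 23) (.e (nat_lit 204846) (nat_lit 24) .nil)))) .nil))) (.nd (nat_lit 6) 
(.lf (nat_lit 43299) (.g (nat_lit 3994) (.e (nat_lit 1239) (nat_lit 91) (.e (nat_lit 90177) (nat_lit 15) (.e (nat_lit 188452) (nat_lit 23) (.e (nat_lit 204846) (nat_lit 24) (.e (nat_lit 319504) (nat_lit 10) (.e (nat_lit 7936) (nat_lit 298) .nil)))))) (.g (nat_lit 5) .nil .nil))) 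
(.lf (nat_lit 43363) (.g (nat_lit 2112) (.e (nat_lit 1244) (nat_lit 92) (.e (nat_lit 98370) (nat_lit 28) (.e (nat_lit 442427) (nat_lit 23) (.e (nat_lit 204846) (nat_lit 24) .nil)))) .nil)))) (.nd (nat_lit 5) (.nd (nat_lit 6) 
(.lf (nat_lit 43283) (.g (nat_lit 1832) (.e (nat_lit 1239) (nat_lit 91) (.e (nat_lit 90174) (nat_lit 14) (.e (nat_lit 188160) (nat_lit 35) (.e (nat_lit 57454) (nat_lit 21) (.e (nat_lit 499924) (nat_lit 10) (.e (nat_lit 188160) (nat_lit 32) .nil)))))) (.g (nat_lit 4) .nil .nil))) 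
(.lf (nat_lit 43347) (.g (nat_lit 1098) (.e (nat_lit 1243) (nat_lit 92) (.e (nat_lit 98358) (nat_lit 26) (.e (nat_lit 426323) (nat_lit 13) .nil))) .nil))) (.nd (nat_lit 6) 
(.lf (nat_lit 43315) (.g (nat_lit 3533) (.e (nat_lit 1239) (nat_lit 91) (.e (nat_lit 90187) (nat_lit 18) (.e (nat_lit 2777) (nat_lit 178) (.e (nat_lit 286743) (nat_lit 9) (.e (nat_lit 336456) (nat_lit 34) (.e (nat_lit 483350) (nat_lit 17) (.e (nat_lit 1996) (nat_lit 137) (.e (nat_lit 663554) (nat_lit 0) .nil)))))))) (.g (nat_lit 5) .nil .nil))) 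
(.lf (nat_lit 43379) (.g (nat_lit 2243) (.e (nat_lit 1245) (nat_lit 92) (.e (nat_lit 98342) (nat_lit 20) (.e (nat_lit 221212) (nat_lit 22) (.e (nat_lit 196670) (nat_lit 14) (.e (nat_lit 73746) (nat_lit 3) (.e (nat_lit 516115) (nat_lit 1) (.e (nat_lit 164153) (nat_lit 152) (.e (nat_lit 996) (nat_lit 81) .nil)))))))) (.g (nat_lit 4) .nil .nil)))))) (.nd (nat_lit 4) (.nd (nat_lit 5) (.nd (nat_lit 6) 
(.lf (nat_lit 43275) (.g (nat_lit 3483) (.e (nat_lit 1239) (nat_lit 91) (.e (nat_lit 90174) (nat_lit 14) (.e (nat_lit 180277) (nat_lit 32) (.e (nat_lit 1234) (nat_lit 91) (.e (nat_lit 90172) (nat_lit 14) (.e (nat_lit 188160) (nat_lit 32) .nil)))))) (.g (nat_lit 5) .nil .nil))) 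
(.lf (nat_lit 43339) (.g (nat_lit 1981) (.e (nat_lit 1243) (nat_lit 92) (.e (nat_lit 98342) (nat_lit 20) (.e (nat_lit 221212) (nat_lit 22) (.e (nat_lit 196668) (nat_lit 14) .nil)))) .nil))) (.nd (nat_lit 6) 
(.lf (nat_lit 43307) (.g (nat_lit 4491) (.e (nat_lit 1239) (nat_lit 91) (.e (nat_lit 90178) (nat_lit 15) (.e (nat_lit 188452) (nat_lit 23) (.e (nat_lit 204846) (nat_lit 24) (.e (nat_lit 319504) (nat_lit 10) .nil))))) .nil)) 
(.lf (nat_lit 43371) (.g (nat_lit 2476) (.e (nat_lit 1245) (nat_lit 92) (.e (nat_lit 98342) (nat_lit 20) (.e (nat_lit 221212) (nat_lit 22) (.e (nat_lit 196668) (nat_lit 14) (.e (nat_lit 73746) (nat_lit 3) .nil))))) .nil)))) (.nd (nat_lit 5) (.nd (nat_lit 6) 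
(.lf (nat_lit 43291) (.g (nat_lit 2724) (.e (nat_lit 1239) (nat_lit 91) (.e (nat_lit 90175) (nat_lit 15) (.e (nat_lit 188452) (nat_lit 23) (.e (nat_lit 204846) (nat_lit 24) (.e (nat_lit 319505) (nat_lit 10) .nil))))) .nil)) 
(.lf (nat_lit 43355) (.g (nat_lit 4409) (.e (nat_lit 1243) (nat_lit 92) (.e (nat_lit 98373) (nat_lit 29) (.e (nat_lit 450588) (nat_lit 10) (.e (nat_lit 573470) (nat_lit 11) .nil)))) .nil))) (.nd (nat_lit 6) 
(.lf (nat_lit 43323) (.g (nat_lit 3828) (.e (nat_lit 1241) (nat_lit 91) (.e (nat_lit 90170) (nat_lit 13) (.e (nat_lit 172106) (nat_lit 10) (.e (nat_lit 434231) (nat_lit 23) (.e (nat_lit 532526) (nat_lit 8) .nil))))) .nil)) 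
(.lf (nat_lit 43387) (.g (nat_lit 2849) (.e (nat_lit 1245) (nat_lit 92) (.e (nat_lit 98358) (nat_lit 26) (.e (nat_lit 426227) (nat_lit 9) (.e (nat_lit 433920) (nat_lit 3) (.e (nat_lit 204846) (nat_lit 24) (.e (nat_lit 319504) (nat_lit 10) (.e (nat_lit 7936) (nat_lit 298) .nil))))))) (.g (nat_lit 6) .nil .nil))))))) (.nd (nat_lit 3) (.nd (nat_lit 4) (.nd (nat_lit 5) (.nd (nat_lit 6) 
(.lf (nat_lit 43271) (.g (nat_lit 3064) (.e (nat_lit 1239) (nat_lit 91) (.e (nat_lit 90174) (nat_lit 14) (.e (nat_lit 180251) (nat_lit 10) (.e (nat_lit 573489) (nat_lit 14) (.e (nat_lit 73755) (nat_lit 8) (.e (nat_lit 557090) (nat_lit 12) (.e (nat_lit 164007) (nat_lit 41) (.e (nat_lit 663552) (nat_lit 0) .nil)))))))) (.g (nat_lit 4) .nil .nil))) 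
(.lf (nat_lit 43335) (.g (nat_lit 2452) (.e (nat_lit 1243) (nat_lit 92) (.e (nat_lit 98333) (nat_lit 18) (.e (nat_lit 164399) (nat_lit 256) (.e (nat_lit 57379) (nat_lit 3) (.e (nat_lit 98366) (nat_lit 27) .nil))))) .nil))) (.nd (nat_lit 6) 
(.lf (nat_lit 43303) (.g (nat_lit 2406) (.e (nat_lit 1239) (nat_lit 91) (.e (nat_lit 90178) (nat_lit 15) (.e (nat_lit 188440) (nat_lit 20) (.e (nat_lit 3272) (nat_lit 199) (.e (nat_lit 548914) (nat_lit 19) (.e (nat_lit 188160) (nat_lit 32) .nil)))))) (.g (nat_lit 4) .nil .nil))) 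
(.lf (nat_lit 43367) (.g (nat_lit 1114) (.e (nat_lit 1245) (nat_lit 92) (.e (nat_lit 98313) (nat_lit 9) (.e (nat_lit 336204) (nat_lit 12) (.e (nat_lit 385074) (nat_lit 31) .nil)))) .nil)))) (.nd (nat_lit 5) (.nd (nat_lit 6) 
(.lf (nat_lit 43287) (.g (nat_lit 1923) (.e (nat_lit 1239) (nat_lit 91) (.e (nat_lit 90174) (nat_lit 14) (.e (nat_lit 188160) (nat_lit 35) (.e (nat_lit 57454) (nat_lit 21) (.e (nat_lit 507648) (nat_lit 10) (.e (nat_lit 188160) (nat_lit 32) .nil)))))) (.g (nat_lit 4) .nil .nil))) 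
(.lf (nat_lit 43351) (.g (nat_lit 564) (.e (nat_lit 1243) (nat_lit 92) (.e (nat_lit 98372) (nat_lit 29) (.e (nat_lit 450588) (nat_lit 10) .nil))) .nil))) (.nd (nat_lit 6) 
(.lf (nat_lit 43319) (.g (nat_lit 2340) (.e (nat_lit 1239) (nat_lit 91) (.e (nat_lit 90189) (nat_lit 18) (.e (nat_lit 2788) (nat_lit 179) (.e (nat_lit 294940) (nat_lit 9) (.e (nat_lit 336456) (nat_lit 34) (.e (nat_lit 483350) (nat_lit 17) (.e (nat_lit 1996) (nat_lit 137) (.e (nat_lit 663554) (nat_lit 0) .nil)))))))) (.g (nat_lit 5) .nil .nil))) 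
(.lf (nat_lit 43383) (.g (nat_lit 2144) (.e (nat_lit 1245) (nat_lit 92) (.e (nat_lit 98342) (nat_lit 20) (.e (nat_lit 221212) (nat_lit 22) (.e (nat_lit 196670) (nat_lit 14) (.e (nat_lit 73746) (nat_lit 3) (.e (nat_lit 516119) (nat_lit 1) (.e (nat_lit 164147) (nat_lit 152) (.e (nat_lit 988) (nat_lit 81) .nil)))))))) (.g (nat_lit 4) .nil .nil)))))) (.nd (nat_lit 4) (.nd (nat_lit 5) (.nd (nat_lit 6) 
(.lf (nat_lit 43279) (.g (nat_lit 1241) (.e (nat_lit 1239) (nat_lit 91) (.e (nat_lit 90174) (nat_lit 14) (.e (nat_lit 180277) (nat_lit 32) (.e (nat_lit 1253) (nat_lit 92) .nil)))) .nil)) 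
(.lf (nat_lit 43343) (.g (nat_lit 2678) (.e (nat_lit 1243) (nat_lit 92) (.e (nat_lit 98356) (nat_lit 26) (.e (nat_lit 426428) (nat_lit 17) (.e (nat_lit 90170) (nat_lit 13) (.e (nat_lit 172065) (nat_lit 3) .nil))))) .nil))) (.nd (nat_lit 6) 
(.lf (nat_lit 43311) (.g (nat_lit 1899) (.e (nat_lit 1239) (nat_lit 91) (.e (nat_lit 90185) (nat_lit 17) (.e (nat_lit 237616) (nat_lit 12) (.e (nat_lit 475185) (nat_lit 29) (.e (nat_lit 557103) (nat_lit 14) (.e (nat_lit 188160) (nat_lit 32) .nil)))))) (.g (nat_lit 4) .nil .nil))) 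
(.lf (nat_lit 43375) (.g (nat_lit 2399) (.e (nat_lit 1245) (nat_lit 92) (.e (nat_lit 98342) (nat_lit 20) (.e (nat_lit 221212) (nat_lit 22) (.e (nat_lit 196668) (nat_lit 14) (.e (nat_lit 73747) (nat_lit 3) (.e (nat_lit 516115) (nat_lit 1) (.e (nat_lit 164162) (nat_lit 152) (.e (nat_lit 990) (nat_lit 81) .nil)))))))) (.g (nat_lit 4) .nil .nil))))) (.nd (nat_lit 5) (.nd (nat_lit 6) 
(.lf (nat_lit 43295) (.g (nat_lit 1123) (.e (nat_lit 1239) (nat_lit 91) (.e (nat_lit 90176) (nat_lit 15) (.e (nat_lit 188439) (nat_lit 20) (.e (nat_lit 3271) (nat_lit 199) .nil)))) .nil)) 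
(.lf (nat_lit 43359) (.g (nat_lit 1368) (.e (nat_lit 1243) (nat_lit 92) (.e (nat_lit 98381) (nat_lit 31) (.e (nat_lit 466947) (nat_lit 0) (.e (nat_lit 1856) (nat_lit 124) (.e (nat_lit 557105) (nat_lit 14) (.e (nat_lit 188160) (nat_lit 32) .nil)))))) (.g (nat_lit 4) .nil .nil)))) (.nd (nat_lit 6) 
(.lf (nat_lit 43327) (.g (nat_lit 2646) (.e (nat_lit 7936) (nat_lit 91) (.e (nat_lit 90170) (nat_lit 13) (.e (nat_lit 172106) (nat_lit 10) (.e (nat_lit 434231) (nat_lit 23) (.e (nat_lit 532523) (nat_lit 7) .nil))))) .nil)) 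
(.lf (nat_lit 43391) (.g (nat_lit 2107) (.e (nat_lit 1245) (nat_lit 92) (.e (nat_lit 98372) (nat_lit 29) (.e (nat_lit 450579) (nat_lit 5) (.e (nat_lit 532523) (nat_lit 7) .nil)))) .nil)))))))))

noncomputable def tv604 : DT := (.nd (nat_lit 0) (.nd (nat_lit 1) (.nd (nat_lit 2) (.nd (nat_lit 3) (.nd (nat_lit 4) (.nd (nat_lit 5) (.nd (nat_lit 6) 
(.lf (nat_lit 43392) (.g (nat_lit 1107) (.e (nat_lit 1245) (nat_lit 92) (.e (nat_lit 98373) (nat_lit 29) (.e (nat_lit 450581) (nat_lit 5) .nil))) .nil)) 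
(.lf (nat_lit 43456) (.g (nat_lit 3310) (.e (nat_lit 1246) (nat_lit 92) (.e (nat_lit 98373) (nat_lit 29) (.e (nat_lit 450588) (nat_lit 10) (.e (nat_lit 573451) (nat_lit 9) .nil)))) .nil))) (.nd (nat_lit 6) 
(.lf (nat_lit 43424) (.g (nat_lit 2690) (.e (nat_lit 1246) (nat_lit 92) (.e (nat_lit 98350) (nat_lit 24) (.e (nat_lit 409646) (nat_lit 18) (.e (nat_lit 303119) (nat_lit 3) (.e (nat_lit 204846) (nat_lit 24) .nil))))) .nil)) 
(.lf (nat_lit 43488) (.g (nat_lit 4302) (.e (nat_lit 1247) (nat_lit 92) (.e (nat_lit 98373) (nat_lit 29) (.e (nat_lit 450588) (nat_lit 10) (.e (nat_lit 573473) (nat_lit 12) .nil)))) .nil)))) (.nd (nat_lit 5) (.nd (nat_lit 6) 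
(.lf (nat_lit 43408) (.g (nat_lit 2721) (.e (nat_lit 1246) (nat_lit 92) (.e (nat_lit 98334) (nat_lit 18) (.e (nat_lit 164398) (nat_lit 256) (.e (nat_lit 57373) (nat_lit 2) (.e (nat_lit 90172) (nat_lit 14) .nil))))) .nil)) 
(.lf (nat_lit 43472) (.g (nat_lit 792) (.e (nat_lit 1247) (nat_lit 92) (.e (nat_lit 98317) (nat_lit 9) (.e (nat_lit 336076) (nat_lit 9) .nil))) .nil))) (.nd (nat_lit 6) 
(.lf (nat_lit 43440) (.g (nat_lit 1722) (.e (nat_lit 1246) (nat_lit 92) (.e (nat_lit 98372) (nat_lit 29) (.e (nat_lit 450579) (nat_lit 5) (.e (nat_lit 532526) (nat_lit 8) .nil)))) .nil)) 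
(.lf (nat_lit 43504) (.g (nat_lit 2619) (.e (nat_lit 1249) (nat_lit 92) (.e (nat_lit 98366) (nat_lit 27) (.e (nat_lit 434244) (nat_lit 28) (.e (nat_lit 573481) (nat_lit 13) (.e (nat_lit 65637) (nat_lit 15) .nil))))) .nil))))) (.nd (nat_lit 4) (.nd (nat_lit 5) (.nd (nat_lit 6) 
(.lf (nat_lit 43400) (.g (nat_lit 1069) (.e (nat_lit 1246) (nat_lit 92) (.e (nat_lit 98317) (nat_lit 9) (.e (nat_lit 336186) (nat_lit 11) (.e (nat_lit 368676) (nat_lit 21) .nil)))) .nil)) 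
(.lf (nat_lit 43464) (.g (nat_lit 2252) (.e (nat_lit 1246) (nat_lit 92) (.e (nat_lit 98381) (nat_lit 31) (.e (nat_lit 466977) (nat_lit 22) (.e (nat_lit 196668) (nat_lit 14) (.e (nat_lit 73729) (nat_lit 0) .nil))))) .nil))) (.nd (nat_lit 6) 
(.lf (nat_lit 43432) (.g (nat_lit 2785) (.e (nat_lit 1246) (nat_lit 92) (.e (nat_lit 98367) (nat_lit 27) (.e (nat_lit 434248) (nat_lit 28) (.e (nat_lit 573487) (nat_lit 14) (.e (nat_lit 73753) (nat_lit 8) .nil))))) .nil)) 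
(.lf (nat_lit 43496) (.g (nat_lit 3809) (.e (nat_lit 1248) (nat_lit 92) (.e (nat_lit 98373) (nat_lit 29) (.e (nat_lit 450587) (nat_lit 10) (.e (nat_lit 573469) (nat_lit 11) .nil)))) .nil)))) (.nd (nat_lit 5) (.nd (nat_lit 6) 
(.lf (nat_lit 43416) (.g (nat_lit 2322) (.e (nat_lit 1246) (nat_lit 92) (.e (nat_lit 98342) (nat_lit 20) (.e (nat_lit 221211) (nat_lit 22) (.e (nat_lit 196666) (nat_lit 13) (.e (nat_lit 65569) (nat_lit 3) .nil))))) .nil)) 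
(.lf (nat_lit 43480) (.g (nat_lit 1729) (.e (nat_lit 1247) (nat_lit 92) (.e (nat_lit 98365) (nat_lit 26) (.e (nat_lit 426325) (nat_lit 13) (.e (nat_lit 491264) (nat_lit 10) .nil)))) .nil))) (.nd (nat_lit 6) 
(.lf (nat_lit 43448) (.g (nat_lit 2404) (.e (nat_lit 1246) (nat_lit 92) (.e (nat_lit 98373) (nat_lit 29) (.e (nat_lit 450580) (nat_lit 5) (.e (nat_lit 532523) (nat_lit 7) .nil)))) .nil)) 
(.lf (nat_lit 43512) (.g (nat_lit 689) (.e (nat_lit 1249) (nat_lit 92) (.e (nat_lit 98370) (nat_lit 28) (.e (nat_lit 442426) (nat_lit 23) .nil))) .nil)))))) (.nd (nat_lit 3) (.nd (nat_lit 4) (.nd (nat_lit 5) (.nd (nat_lit 6) 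
(.lf (nat_lit 43396) (.g (nat_lit 1692) (.e (nat_lit 1245) (nat_lit 92) (.e (nat_lit 98380) (nat_lit 31) (.e (nat_lit 466947) (nat_lit 0) (.e (nat_lit 1856) (nat_lit 124) (.e (nat_lit 557105) (nat_lit 14) (.e (nat_lit 188160) (nat_lit 32) .nil)))))) (.g (nat_lit 5) .nil .nil))) 
(.lf (nat_lit 43460) (.g (nat_lit 4460) (.e (nat_lit 1246) (nat_lit 92) (.e (nat_lit 98373) (nat_lit 29) (.e (nat_lit 450588) (nat_lit 10) (.e (nat_lit 573470) (nat_lit 11) (.e (nat_lit 16388) (nat_lit 0) (.e (nat_lit 7495) (nat_lit 402) .nil)))))) (.g (nat_lit 5) .nil .nil)))) (.nd (nat_lit 6) 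
(.lf (nat_lit 43428) (.g (nat_lit 1950) (.e (nat_lit 1246) (nat_lit 92) (.e (nat_lit 98367) (nat_lit 27) (.e (nat_lit 434231) (nat_lit 23) (.e (nat_lit 532514) (nat_lit 3) .nil)))) .nil)) 
(.lf (nat_lit 43492) (.g (nat_lit 3364) (.e (nat_lit 1248) (nat_lit 92) (.e (nat_lit 98370) (nat_lit 28) (.e (nat_lit 442427) (nat_lit 23) (.e (nat_lit 204846) (nat_lit 24) (.e (nat_lit 319504) (nat_lit 10) .nil))))) .nil)))) (.nd (nat_lit 5) (.nd (nat_lit 6) 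
(.lf (nat_lit 43412) (.g (nat_lit 2442) (.e (nat_lit 1246) (nat_lit 92) (.e (nat_lit 98334) (nat_lit 18) (.e (nat_lit 164398) (nat_lit 256) (.e (nat_lit 57375) (nat_lit 2) (.e (nat_lit 90174) (nat_lit 14) .nil))))) .nil)) 
(.lf (nat_lit 43476) (.g (nat_lit 4132) (.e (nat_lit 1247) (nat_lit 92) (.e (nat_lit 98333) (nat_lit 18) (.e (nat_lit 164399) (nat_lit 256) (.e (nat_lit 57373) (nat_lit 2) (.e (nat_lit 90174) (nat_lit 14) (.e (nat_lit 180243) (nat_lit 5) (.e (nat_lit 532508) (nat_lit 2) (.e (nat_lit 106526) (nat_lit 9) .nil)))))))) (.g (nat_lit 6) .nil .nil)))) (.nd (nat_lit 6) 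
(.lf (nat_lit 43444) (.g (nat_lit 2366) (.e (nat_lit 1246) (nat_lit 92) (.e (nat_lit 98372) (nat_lit 29) (.e (nat_lit 450588) (nat_lit 10) (.e (nat_lit 573452) (nat_lit 9) .nil)))) .nil)) 
(.lf (nat_lit 43508) (.g (nat_lit 1817) (.e (nat_lit 1249) (nat_lit 92) (.e (nat_lit 98368) (nat_lit 27) (.e (nat_lit 434245) (nat_lit 28) (.e (nat_lit 573481) (nat_lit 13) (.e (nat_lit 73472) (nat_lit 18) (.e (nat_lit 204831) (nat_lit 18) (.e (nat_lit 57870) (nat_lit 264) (.e (nat_lit 992) (nat_lit 81) .nil)))))))) (.g (nat_lit 4) .nil .nil)))))) 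
(.nd (nat_lit 4) (.nd (nat_lit 5) (.nd (nat_lit 6) 
(.lf (nat_lit 43404) (.g (nat_lit 2260) (.e (nat_lit 1246) (nat_lit 92) (.e (nat_lit 98333) (nat_lit 18) (.e (nat_lit 164399) (nat_lit 256) (.e (nat_lit 57375) (nat_lit 2) (.e (nat_lit 90174) (nat_lit 14) .nil))))) .nil)) 
(.lf (nat_lit 43468) (.g (nat_lit 1961) (.e (nat_lit 1246) (nat_lit 92) (.e (nat_lit 98381) (nat_lit 31) (.e (nat_lit 466977) (nat_lit 22) (.e (nat_lit 196677) (nat_lit 16) (.e (nat_lit 123080) (nat_lit 177) (.e (nat_lit 57886) (nat_lit 270) .nil)))))) (.g (nat_lit 6) .nil .nil)))) (.nd (nat_lit 6) 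
(.lf (nat_lit 43436) (.g (nat_lit 2145) (.e (nat_lit 1246) (nat_lit 92) (.e (nat_lit 98370) (nat_lit 28) (.e (nat_lit 442427) (nat_lit 23) (.e (nat_lit 204846) (nat_lit 24) .nil)))) .nil)) 
(.lf (nat_lit 43500) (.g (nat_lit 2899) (.e (nat_lit 1249) (nat_lit 92) (.e (nat_lit 98333) (nat_lit 18) (.e (nat_lit 164399) (nat_lit 256) (.e (nat_lit 57378) (nat_lit 3) (.e (nat_lit 98366) (nat_lit 27) .nil))))) .nil)))) (.nd (nat_lit 5) (.nd (nat_lit 6) 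
(.lf (nat_lit 43420) (.g (nat_lit 1767) (.e (nat_lit 1246) (nat_lit 92) (.e (nat_lit 98342) (nat_lit 20) (.e (nat_lit 221212) (nat_lit 22) (.e (nat_lit 196669) (nat_lit 14) .nil)))) .nil)) 
(.lf (nat_lit 43484) (.g (nat_lit 3661) (.e (nat_lit 1247) (nat_lit 92) (.e (nat_lit 98373) (nat_lit 29) (.e (nat_lit 450587) (nat_lit 10) (.e (nat_lit 573456) (nat_lit 9) .nil)))) .nil))) (.nd (nat_lit 6) 
(.lf (nat_lit 43452) (.g (nat_lit 2585) (.e (nat_lit 1246) (nat_lit 92) (.e (nat_lit 98373) (nat_lit 29) (.e (nat_lit 450587) (nat_lit 10) (.e (nat_lit 573456) (nat_lit 9) .nil)))) .nil)) 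
(.lf (nat_lit 43516) (.g (nat_lit 793) (.e (nat_lit 1249) (nat_lit 92) (.e (nat_lit 98373) (nat_lit 29) (.e (nat_lit 450587) (nat_lit 10) .nil))) .nil))))))) (.nd (nat_lit 2) (.nd (nat_lit 3) (.nd (nat_lit 4) (.nd (nat_lit 5) (.nd (nat_lit 6) 
(.lf (nat_lit 43394) (.g (nat_lit 4507) (.e (nat_lit 1245) (nat_lit 92) (.e (nat_lit 98373) (nat_lit 29) (.e (nat_lit 450588) (nat_lit 10) (.e (nat_lit 573452) (nat_lit 9) .nil)))) .nil)) 
(.lf (nat_lit 43458) (.g (nat_lit 3487) (.e (nat_lit 1246) (nat_lit 92) (.e (nat_lit 98373) (nat_lit 29) (.e (nat_lit 450588) (nat_lit 10) (.e (nat_lit 573452) (nat_lit 9) (.e (nat_lit 359) (nat_lit 30) .nil))))) .nil))) (.nd (nat_lit 6) 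
(.lf (nat_lit 43426) (.g (nat_lit 862) (.e (nat_lit 1246) (nat_lit 92) (.e (nat_lit 98359) (nat_lit 26) (.e (nat_lit 426338) (nat_lit 14) .nil))) .nil)) 
(.lf (nat_lit 43490) (.g (nat_lit 1225) (.e (nat_lit 1248) (nat_lit 92) (.e (nat_lit 98317) (nat_lit 9) (.e (nat_lit 336186) (nat_lit 11) (.e (nat_lit 368676) (nat_lit 21) .nil)))) .nil)))) (.nd (nat_lit 5) (.nd (nat_lit 6) 
(.lf (nat_lit 43410) (.g (nat_lit 3265) (.e (nat_lit 1246) (nat_lit 92) (.e (nat_lit 98334) (nat_lit 18) (.e (nat_lit 164398) (nat_lit 256) (.e (nat_lit 57373) (nat_lit 2) (.e (nat_lit 90174) (nat_lit 14) (.e (nat_lit 180243) (nat_lit 5) (.e (nat_lit 532508) (nat_lit 2) (.e (nat_lit 106517) (nat_lit 9) .nil)))))))) (.g (nat_lit 5) .nil .nil))) 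
(.lf (nat_lit 43474) (.g (nat_lit 2250) (.e (nat_lit 1247) (nat_lit 92) (.e (nat_lit 98333) (nat_lit 18) (.e (nat_lit 164399) (nat_lit 256) (.e (nat_lit 57370) (nat_lit 2) (.e (nat_lit 90172) (nat_lit 14) .nil))))) .nil))) (.nd (nat_lit 6) 
(.lf (nat_lit 43442) (.g (nat_lit 1232) (.e (nat_lit 1246) (nat_lit 92) (.e (nat_lit 98372) (nat_lit 29) (.e (nat_lit 450580) (nat_lit 5) (.e (nat_lit 532523) (nat_lit 7) .nil)))) .nil)) 
(.lf (nat_lit 43506) (.g (nat_lit 2770) (.e (nat_lit 1249) (nat_lit 92) (.e (nat_lit 98367) (nat_lit 27) (.e (nat_lit 434248) (nat_lit 28) (.e (nat_lit 573480) (nat_lit 13) (.e (nat_lit 65637) (nat_lit 15) .nil))))) .nil))))) (.nd (nat_lit 4) (.nd (nat_lit 5) (.nd (nat_lit 6) 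
(.lf (nat_lit 43402) (.g (nat_lit 2461) (.e (nat_lit 1246) (nat_lit 92) (.e (nat_lit 98333) (nat_lit 18) (.e (nat_lit 164399) (nat_lit 256) (.e (nat_lit 57372) (nat_lit 2) (.e (nat_lit 90174) (nat_lit 14) .nil))))) .nil)) 
(.lf (nat_lit 43466) (.g (nat_lit 2544) (.e (nat_lit 1246) (nat_lit 92) (.e (nat_lit 98381) (nat_lit 31) (.e (nat_lit 466977) (nat_lit 22) (.e (nat_lit 196670) (nat_lit 14) (.e (nat_lit 73729) (nat_lit 0) (.e (nat_lit 4764) (nat_lit 281) (.e (nat_lit 1079) (nat_lit 81) .nil))))))) (.g (nat_lit 4) .nil .nil)))) (.nd (nat_lit 6) 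
(.lf (nat_lit 43434) (.g (nat_lit 1092) (.e (nat_lit 1246) (nat_lit 92) (.e (nat_lit 98370) (nat_lit 28) (.e (nat_lit 442424) (nat_lit 22) (.e (nat_lit 204544) (nat_lit 21) .nil)))) .nil)) 
(.lf (nat_lit 43498) (.g (nat_lit 4322) (.e (nat_lit 1248) (nat_lit 92) (.e (nat_lit 98373) (nat_lit 29) (.e (nat_lit 450588) (nat_lit 10) (.e (nat_lit 573470) (nat_lit 11) .nil)))) .nil)))) (.nd (nat_lit 5) (.nd (nat_lit 6) 
(.lf (nat_lit 43418) (.g (nat_lit 1495) (.e (nat_lit 1246) (nat_lit 92) (.e (nat_lit 98342) (nat_lit 20) (.e (nat_lit 221212) (nat_lit 22) (.e (nat_lit 196668) (nat_lit 14) .nil)))) .nil)) 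
(.lf (nat_lit 43482) (.g (nat_lit 746) (.e (nat_lit 1247) (nat_lit 92) (.e (nat_lit 98365) (nat_lit 26) (.e (nat_lit 426327) (nat_lit 13) .nil))) .nil))) (.nd (nat_lit 6) 
(.lf (nat_lit 43450) (.g (nat_lit 2992) (.e (nat_lit 1246) (nat_lit 92) (.e (nat_lit 98373) (nat_lit 29) (.e (nat_lit 450581) (nat_lit 5) (.e (nat_lit 532523) (nat_lit 7) (.e (nat_lit 319511) (nat_lit 10) (.e (nat_lit 5293) (nat_lit 298) .nil)))))) (.g (nat_lit 4) .nil .nil))) 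
(.lf (nat_lit 43514) (.g (nat_lit 1040) (.e (nat_lit 1249) (nat_lit 92) (.e (nat_lit 98373) (nat_lit 29) (.e (nat_lit 450579) (nat_lit 5) .nil))) .nil)))))) (.nd (nat_lit 3) (.nd (nat_lit 4) (.nd (nat_lit 5) (.nd (nat_lit 6) 
(.lf (nat_lit 43398) (.g (nat_lit 2146) (.e (nat_lit 1245) (nat_lit 92) (.e (nat_lit 98384) (nat_lit 32) (.e (nat_lit 475177) (nat_lit 24) (.e (nat_lit 516169) (nat_lit 13) .nil)))) .nil)) 
(.lf (nat_lit 43462) (.g (nat_lit 2557) (.e (nat_lit 1246) (nat_lit 92) (.e (nat_lit 98373) (nat_lit 29) (.e (nat_lit 450588) (nat_lit 10) (.e (nat_lit 573471) (nat_lit 11) (.e (nat_lit 16388) (nat_lit 0) .nil))))) .nil))) (.nd (nat_lit 6) 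
(.lf (nat_lit 43430) (.g (nat_lit 2223) (.e (nat_lit 1246) (nat_lit 92) (.e (nat_lit 98367) (nat_lit 27) (.e (nat_lit 434246) (nat_lit 28) (.e (nat_lit 573489) (nat_lit 14) (.e (nat_lit 73755) (nat_lit 8) (.e (nat_lit 557089) (nat_lit 12) (.e (nat_lit 164007) (nat_lit 41) (.e (nat_lit 663554) (nat_lit 0) .nil)))))))) (.g (nat_lit 4) .nil .nil))) 
(.lf (nat_lit 43494) (.g (nat_lit 3660) (.e (nat_lit 1248) (nat_lit 92) (.e (nat_lit 98373) (nat_lit 29) (.e (nat_lit 450587) (nat_lit 10) (.e (nat_lit 573456) (nat_lit 9) .nil)))) .nil)))) (.nd (nat_lit 5) (.nd (nat_lit 6) 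
(.lf (nat_lit 43414) (.g (nat_lit 2503) (.e (nat_lit 1246) (nat_lit 92) (.e (nat_lit 98342) (nat_lit 20) (.e (nat_lit 221210) (nat_lit 22) (.e (nat_lit 196668) (nat_lit 14) (.e (nat_lit 73750) (nat_lit 6) .nil))))) .nil)) 
(.lf (nat_lit 43478) (.g (nat_lit 667) (.e (nat_lit 1247) (nat_lit 92) (.e (nat_lit 98365) (nat_lit 26) (.e (nat_lit 426306) (nat_lit 12) .nil))) .nil))) (.nd (nat_lit 6) 
(.lf (nat_lit 43446) (.g (nat_lit 1135) (.e (nat_lit 1246) (nat_lit 92) (.e (nat_lit 98373) (nat_lit 29) (.e (nat_lit 450574) (nat_lit 1) .nil))) .nil)) 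
(.lf (nat_lit 43510) (.g (nat_lit 2329) (.e (nat_lit 1249) (nat_lit 92) (.e (nat_lit 98368) (nat_lit 27) (.e (nat_lit 434248) (nat_lit 28) (.e (nat_lit 573482) (nat_lit 13) (.e (nat_lit 65640) (nat_lit 15) .nil))))) .nil))))) (.nd (nat_lit 4) (.nd (nat_lit 5) (.nd (nat_lit 6) 
(.lf (nat_lit 43406) (.g (nat_lit 3198) (.e (nat_lit 1246) (nat_lit 92) (.e (nat_lit 98334) (nat_lit 18) (.e (nat_lit 164398) (nat_lit 256) (.e (nat_lit 57371) (nat_lit 2) (.e (nat_lit 90174) (nat_lit 14) (.e (nat_lit 180243) (nat_lit 5) (.e (nat_lit 532508) (nat_lit 2) (.e (nat_lit 106526) (nat_lit 9) .nil)))))))) (.g (nat_lit 4) .nil .nil))) 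
(.lf (nat_lit 43470) (.g (nat_lit 2308) (.e (nat_lit 1246) (nat_lit 92) (.e (nat_lit 98384) (nat_lit 32) (.e (nat_lit 475177) (nat_lit 24) (.e (nat_lit 516143) (nat_lit 9) .nil)))) .nil))) (.nd (nat_lit 6) 
(.lf (nat_lit 43438) (.g (nat_lit 655) (.e (nat_lit 1246) (nat_lit 92) (.e (nat_lit 98372) (nat_lit 29) (.e (nat_lit 450579) (nat_lit 5) .nil))) .nil)) 
(.lf (nat_lit 43502) (.g (nat_lit 1981) (.e (nat_lit 1249) (nat_lit 92) (.e (nat_lit 98342) (nat_lit 20) (.e (nat_lit 221212) (nat_lit 22) (.e (nat_lit 196668) (nat_lit 14) .nil)))) .nil)))) (.nd (nat_lit 5) (.nd (nat_lit 6) 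
(.lf (nat_lit 43422) (.g (nat_lit 805) (.e (nat_lit 1246) (nat_lit 92) (.e (nat_lit 98342) (nat_lit 20) (.e (nat_lit 221215) (nat_lit 23) .nil))) .nil)) 
(.lf (nat_lit 43486) (.g (nat_lit 4496) (.e (nat_lit 1247) (nat_lit 92) (.e (nat_lit 98373) (nat_lit 29) (.e (nat_lit 450588) (nat_lit 10) (.e (nat_lit 573452) (nat_lit 9) .nil)))) .nil))) (.nd (nat_lit 6) 
(.lf (nat_lit 43454) (.g (nat_lit 420) (.e (nat_lit 1246) (nat_lit 92) (.e (nat_lit 98373) (nat_lit 29) (.e (nat_lit 450588) (nat_lit 10) .nil))) .nil)) 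
(.lf (nat_lit 43518) (.g (nat_lit 817) (.e (nat_lit 1249) (nat_lit 92) (.e (nat_lit 98373) (nat_lit 29) (.e (nat_lit 450588) (nat_lit 10) .nil))) .nil)))))))) (.nd (nat_lit 1) (.nd (nat_lit 2) (.nd (nat_lit 3) (.nd (nat_lit 4) (.nd (nat_lit 5) (.nd (nat_lit 6) 
(.lf (nat_lit 43393) (.g (nat_lit 880) (.e (nat_lit 1245) (nat_lit 92) (.e (nat_lit 98373) (nat_lit 29) (.e (nat_lit 450588) (nat_lit 10) .nil))) .nil)) 
(.lf (nat_lit 43457) (.g (nat_lit 2877) (.e (nat_lit 1246) (nat_lit 92) (.e (nat_lit 98373) (nat_lit 29) (.e (nat_lit 450588) (nat_lit 10) (.e (nat_lit 573452) (nat_lit 9) .nil)))) .nil))) (.nd (nat_lit 6) 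
(.lf (nat_lit 43425) (.g (nat_lit 914) (.e (nat_lit 1246) (nat_lit 92) (.e (nat_lit 98356) (nat_lit 26) (.e (nat_lit 426428) (nat_lit 17) .nil))) .nil)) 
(.lf (nat_lit 43489) (.g (nat_lit 4387) (.e (nat_lit 1247) (nat_lit 92) (.e (nat_lit 98373) (nat_lit 29) (.e (nat_lit 450588) (nat_lit 10) (.e (nat_lit 573475) (nat_lit 12) .nil)))) .nil)))) (.nd (nat_lit 5) (.nd (nat_lit 6) 
(.lf (nat_lit 43409) (.g (nat_lit 2833) (.e (nat_lit 1246) (nat_lit 92) (.e (nat_lit 98334) (nat_lit 18) (.e (nat_lit 164398) (nat_lit 256) (.e (nat_lit 57373) (nat_lit 2) (.e (nat_lit 90172) (nat_lit 14) (.e (nat_lit 180243) (nat_lit 5) (.e (nat_lit 532508) (nat_lit 2) (.e (nat_lit 106526) (nat_lit 9) .nil)))))))) (.g (nat_lit 4) .nil .nil))) 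
(.lf (nat_lit 43473) (.g (nat_lit 1292) (.e (nat_lit 1247) (nat_lit 92) (.e (nat_lit 98317) (nat_lit 9) (.e (nat_lit 336184) (nat_lit 11) (.e (nat_lit 368676) (nat_lit 21) (.e (nat_lit 516179) (nat_lit 15) .nil))))) .nil))) (.nd (nat_lit 6) 
(.lf (nat_lit 43441) (.g (nat_lit 1827) (.e (nat_lit 1246) (nat_lit 92) (.e (nat_lit 98372) (nat_lit 29) (.e (nat_lit 450579) (nat_lit 5) (.e (nat_lit 532545) (nat_lit 10) .nil)))) .nil)) 
(.lf (nat_lit 43505) (.g (nat_lit 2766) (.e (nat_lit 1249) (nat_lit 92) (.e (nat_lit 98367) (nat_lit 27) (.e (nat_lit 434244) (nat_lit 28) (.e (nat_lit 573481) (nat_lit 13) (.e (nat_lit 65637) (nat_lit 15) .nil))))) .nil))))) (.nd (nat_lit 4) (.nd (nat_lit 5) (.nd (nat_lit 6) 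
(.lf (nat_lit 43401) (.g (nat_lit 2250) (.e (nat_lit 1246) (nat_lit 92) (.e (nat_lit 98333) (nat_lit 18) (.e (nat_lit 164399) (nat_lit 256) (.e (nat_lit 57370) (nat_lit 2) (.e (nat_lit 90172) (nat_lit 14) .nil))))) .nil)) 
(.lf (nat_lit 43465) (.g (nat_lit 2514) (.e (nat_lit 1246) (nat_lit 92) (.e (nat_lit 98381) (nat_lit 31) (.e (nat_lit 466977) (nat_lit 22) (.e (nat_lit 196670) (nat_lit 14) (.e (nat_lit 73729) (nat_lit 0) .nil))))) .nil))) (.nd (nat_lit 6) 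
(.lf (nat_lit 43433) (.g (nat_lit 2816) (.e (nat_lit 1246) (nat_lit 92) (.e (nat_lit 98367) (nat_lit 27) (.e (nat_lit 434248) (nat_lit 28) (.e (nat_lit 573489) (nat_lit 14) (.e (nat_lit 73755) (nat_lit 8) .nil))))) .nil)) 
(.lf (nat_lit 43497) (.g (nat_lit 4300) (.e (nat_lit 1248) (nat_lit 92) (.e (nat_lit 98373) (nat_lit 29) (.e (nat_lit 450588) (nat_lit 10) (.e (nat_lit 573452) (nat_lit 9) .nil)))) .nil)))) (.nd (nat_lit 5) (.nd (nat_lit 6) 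
(.lf (nat_lit 43417) (.g (nat_lit 782) (.e (nat_lit 1246) (nat_lit 92) (.e (nat_lit 98342) (nat_lit 20) (.e (nat_lit 221212) (nat_lit 22) .nil))) .nil)) 
(.lf (nat_lit 43481) (.g (nat_lit 751) (.e (nat_lit 1247) (nat_lit 92) (.e (nat_lit 98365) (nat_lit 26) (.e (nat_lit 426326) (nat_lit 13) .nil))) .nil))) (.nd (nat_lit 6) 
(.lf (nat_lit 43449) (.g (nat_lit 3689) (.e (nat_lit 1246) (nat_lit 92) (.e (nat_lit 98373) (nat_lit 29) (.e (nat_lit 450580) (nat_lit 5) (.e (nat_lit 532523) (nat_lit 7) (.e (nat_lit 319511) (nat_lit 10) .nil))))) .nil)) 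
(.lf (nat_lit 43513) (.g (nat_lit 3364) (.e (nat_lit 1249) (nat_lit 92) (.e (nat_lit 98370) (nat_lit 28) (.e (nat_lit 442427) (nat_lit 23) (.e (nat_lit 204846) (nat_lit 24) (.e (nat_lit 319504) (nat_lit 10) .nil))))) .nil)))))) (.nd (nat_lit 3) (.nd (nat_lit 4) (.nd (nat_lit 5) (.nd (nat_lit 6) 
(.lf (nat_lit 43397) (.g (nat_lit 2397) (.e (nat_lit 1245) (nat_lit 92) (.e (nat_lit 98384) (nat_lit 32) (.e (nat_lit 475177) (nat_lit 24) (.e (nat_lit 516150) (nat_lit 9) (.e (nat_lit 426131) (nat_lit 3) .nil))))) .nil)) 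
(.lf (nat_lit 43461) (.g (nat_lit 2469) (.e (nat_lit 1246) (nat_lit 92) (.e (nat_lit 98373) (nat_lit 29) (.e (nat_lit 450588) (nat_lit 10) (.e (nat_lit 573471) (nat_lit 11) (.e (nat_lit 16386) (nat_lit 0) .nil))))) .nil))) (.nd (nat_lit 6) 
(.lf (nat_lit 43429) (.g (nat_lit 2696) (.e (nat_lit 1246) (nat_lit 92) (.e (nat_lit 98367) (nat_lit 27) (.e (nat_lit 434244) (nat_lit 28) (.e (nat_lit 573488) (nat_lit 14) (.e (nat_lit 73755) (nat_lit 8) .nil))))) .nil)) 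
(.lf (nat_lit 43493) (.g (nat_lit 1107) (.e (nat_lit 1248) (nat_lit 92) (.e (nat_lit 98373) (nat_lit 29) (.e (nat_lit 450581) (nat_lit 5) .nil))) .nil)))) (.nd (nat_lit 5) (.nd (nat_lit 6) 
(.lf (nat_lit 43413) (.g (nat_lit 2778) (.e (nat_lit 1246) (nat_lit 92) (.e (nat_lit 98334) (nat_lit 18) (.e (nat_lit 164398) (nat_lit 256) (.e (nat_lit 57379) (nat_lit 3) (.e (nat_lit 98366) (nat_lit 27) .nil))))) .nil)) 
(.lf (nat_lit 43477) (.g (nat_lit 2260) (.e (nat_lit 1247) (nat_lit 92) (.e (nat_lit 98333) (nat_lit 18) (.e (nat_lit 164399) (nat_lit 256) (.e (nat_lit 57375) (nat_lit 2) (.e (nat_lit 90174) (nat_lit 14) .nil))))) .nil))) (.nd (nat_lit 6) 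
(.lf (nat_lit 43445) (.g (nat_lit 2221) (.e (nat_lit 1246) (nat_lit 92) (.e (nat_lit 98372) (nat_lit 29) (.e (nat_lit 450588) (nat_lit 10) (.e (nat_lit 573470) (nat_lit 11) .nil)))) .nil)) 
(.lf (nat_lit 43509) (.g (nat_lit 2266) (.e (nat_lit 1249) (nat_lit 92) (.e (nat_lit 98368) (nat_lit 27) (.e (nat_lit 434247) (nat_lit 28) (.e (nat_lit 573484) (nat_lit 13) (.e (nat_lit 73472) (nat_lit 15) .nil))))) .nil))))) (.nd (nat_lit 4) (.nd (nat_lit 5) (.nd (nat_lit 6) 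
(.lf (nat_lit 43405) (.g (nat_lit 891) (.e (nat_lit 1246) (nat_lit 92) (.e (nat_lit 98334) (nat_lit 18) (.e (nat_lit 164398) (nat_lit 256) .nil))) .nil)) 
(.lf (nat_lit 43469) (.g (nat_lit 1835) (.e (nat_lit 1246) (nat_lit 92) (.e (nat_lit 98381) (nat_lit 31) (.e (nat_lit 466977) (nat_lit 22) (.e (nat_lit 196677) (nat_lit 16) (.e (nat_lit 123080) (nat_lit 177) (.e (nat_lit 57887) (nat_lit 270) .nil)))))) (.g (nat_lit 5) .nil .nil)))) (.nd (nat_lit 6) 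
(.lf (nat_lit 43437) (.g (nat_lit 2848) (.e (nat_lit 1246) (nat_lit 92) (.e (nat_lit 98370) (nat_lit 28) (.e (nat_lit 442427) (nat_lit 23) (.e (nat_lit 204863) (nat_lit 27) (.e (nat_lit 344096) (nat_lit 18) .nil))))) .nil)) 
(.lf (nat_lit 43501) (.g (nat_lit 2452) (.e (nat_lit 1249) (nat_lit 92) (.e (nat_lit 98333) (nat_lit 18) (.e (nat_lit 164399) (nat_lit 256) (.e (nat_lit 57379) (nat_lit 3) (.e (nat_lit 98366) (nat_lit 27) .nil))))) .nil)))) (.nd (nat_lit 5) (.nd (nat_lit 6) 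
(.lf (nat_lit 43421) (.g (nat_lit 2447) (.e (nat_lit 1246) (nat_lit 92) (.e (nat_lit 98342) (nat_lit 20) (.e (nat_lit 221212) (nat_lit 22) (.e (nat_lit 196670) (nat_lit 14) (.e (nat_lit 73750) (nat_lit 6) .nil))))) .nil)) 
(.lf (nat_lit 43485) (.g (nat_lit 880) (.e (nat_lit 1247) (nat_lit 92) (.e (nat_lit 98373) (nat_lit 29) (.e (nat_lit 450588) (nat_lit 10) .nil))) .nil))) (.nd (nat_lit 6) 
(.lf (nat_lit 43453) (.g (nat_lit 2541) (.e (nat_lit 1246) (nat_lit 92) (.e (nat_lit 98373) (nat_lit 29) (.e (nat_lit 450587) (nat_lit 10) (.e (nat_lit 573457) (nat_lit 9) .nil)))) .nil)) 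
(.lf (nat_lit 43517) (.g (nat_lit 3586) (.e (nat_lit 1249) (nat_lit 92) (.e (nat_lit 98373) (nat_lit 29) (.e (nat_lit 450587) (nat_lit 10) (.e (nat_lit 573456) (nat_lit 9) .nil)))) .nil))))))) (.nd (nat_lit 2) (.nd (nat_lit 3) (.nd (nat_lit 4) (.nd (nat_lit 5) (.nd (nat_lit 6) 
(.lf (nat_lit 43395) (.g (nat_lit 1689) (.e (nat_lit 1245) (nat_lit 92) (.e (nat_lit 98380) (nat_lit 31) (.e (nat_lit 466947) (nat_lit 0) (.e (nat_lit 1856) (nat_lit 124) (.e (nat_lit 557103) (nat_lit 14) (.e (nat_lit 188160) (nat_lit 32) .nil)))))) (.g (nat_lit 5) .nil .nil))) 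
(.lf (nat_lit 43459) (.g (nat_lit 3037) (.e (nat_lit 1246) (nat_lit 92) (.e (nat_lit 98373) (nat_lit 29) (.e (nat_lit 450588) (nat_lit 10) (.e (nat_lit 573457) (nat_lit 9) .nil)))) .nil))) (.nd (nat_lit 6) 
(.lf (nat_lit 43427) (.g (nat_lit 2127) (.e (nat_lit 1246) (nat_lit 92) (.e (nat_lit 98367) (nat_lit 27) (.e (nat_lit 434231) (nat_lit 23) (.e (nat_lit 532513) (nat_lit 3) .nil)))) .nil)) 
(.lf (nat_lit 43491) (.g (nat_lit 1807) (.e (nat_lit 1248) (nat_lit 92) (.e (nat_lit 98317) (nat_lit 9) (.e (nat_lit 336186) (nat_lit 11) (.e (nat_lit 368676) (nat_lit 21) (.e (nat_lit 516179) (nat_lit 15) .nil))))) .nil)))) (.nd (nat_lit 5) (.nd (nat_lit 6) 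
(.lf (nat_lit 43411) (.g (nat_lit 2716) (.e (nat_lit 1246) (nat_lit 92) (.e (nat_lit 98334) (nat_lit 18) (.e (nat_lit 164398) (nat_lit 256) (.e (nat_lit 57375) (nat_lit 2) (.e (nat_lit 90172) (nat_lit 14) (.e (nat_lit 180243) (nat_lit 5) (.e (nat_lit 532508) (nat_lit 2) (.e (nat_lit 106526) (nat_lit 9) .nil)))))))) (.g (nat_lit 4) .nil .nil))) 
(.lf (nat_lit 43475) (.g (nat_lit 2643) (.e (nat_lit 1247) (nat_lit 92) (.e (nat_lit 98333) (nat_lit 18) (.e (nat_lit 164399) (nat_lit 256) (.e (nat_lit 57373) (nat_lit 2) (.e (nat_lit 90172) (nat_lit 14) (.e (nat_lit 180243) (nat_lit 5) (.e (nat_lit 532508) (nat_lit 2) (.e (nat_lit 106526) (nat_lit 9) .nil)))))))) (.g (nat_lit 4) .nil .nil)))) (.nd (nat_lit 6) 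
(.lf (nat_lit 43443) (.g (nat_lit 1180) (.e (nat_lit 1246) (nat_lit 92) (.e (nat_lit 98372) (nat_lit 29) (.e (nat_lit 450586) (nat_lit 10) (.e (nat_lit 573470) (nat_lit 11) .nil)))) .nil)) 
(.lf (nat_lit 43507) (.g (nat_lit 2693) (.e (nat_lit 1249) (nat_lit 92) (.e (nat_lit 98367) (nat_lit 27) (.e (nat_lit 434248) (nat_lit 28) (.e (nat_lit 573482) (nat_lit 13) (.e (nat_lit 65637) (nat_lit 15) .nil))))) .nil))))) (.nd (nat_lit 4) (.nd (nat_lit 5) (.nd (nat_lit 6) 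
(.lf (nat_lit 43403) (.g (nat_lit 2637) (.e (nat_lit 1246) (nat_lit 92) (.e (nat_lit 98333) (nat_lit 18) (.e (nat_lit 164399) (nat_lit 256) (.e (nat_lit 57373) (nat_lit 2) (.e (nat_lit 90172) (nat_lit 14) .nil))))) .nil)) 
(.lf (nat_lit 43467) (.g (nat_lit 1661) (.e (nat_lit 1246) (nat_lit 92) (.e (nat_lit 98381) (nat_lit 31) (.e (nat_lit 466977) (nat_lit 22) (.e (nat_lit 196677) (nat_lit 16) (.e (nat_lit 123080) (nat_lit 177) .nil))))) .nil))) (.nd (nat_lit 6) 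
(.lf (nat_lit 43435) (.g (nat_lit 2468) (.e (nat_lit 1246) (nat_lit 92) (.e (nat_lit 98370) (nat_lit 28) (.e (nat_lit 442425) (nat_lit 23) (.e (nat_lit 204846) (nat_lit 24) (.e (nat_lit 319511) (nat_lit 10) .nil))))) .nil)) 
(.lf (nat_lit 43499) (.g (nat_lit 2461) (.e (nat_lit 1249) (nat_lit 92) (.e (nat_lit 98333) (nat_lit 18) (.e (nat_lit 164399) (nat_lit 256) (.e (nat_lit 57372) (nat_lit 2) (.e (nat_lit 90174) (nat_lit 14) .nil))))) .nil)))) (.nd (nat_lit 5) (.nd (nat_lit 6) 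
(.lf (nat_lit 43419) (.g (nat_lit 2292) (.e (nat_lit 1246) (nat_lit 92) (.e (nat_lit 98342) (nat_lit 20) (.e (nat_lit 221212) (nat_lit 22) (.e (nat_lit 196668) (nat_lit 14) (.e (nat_lit 73750) (nat_lit 6) .nil))))) .nil)) 
(.lf (nat_lit 43483) (.g (nat_lit 863) (.e (nat_lit 1247) (nat_lit 92) (.e (nat_lit 98373) (nat_lit 29) (.e (nat_lit 450587) (nat_lit 10) .nil))) .nil))) (.nd (nat_lit 6) 
(.lf (nat_lit 43451) (.g (nat_lit 472) (.e (nat_lit 1246) (nat_lit 92) (.e (nat_lit 98373) (nat_lit 29) (.e (nat_lit 450587) (nat_lit 10) .nil))) .nil)) 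
(.lf (nat_lit 43515) (.g (nat_lit 2885) (.e (nat_lit 1249) (nat_lit 92) (.e (nat_lit 98373) (nat_lit 29) (.e (nat_lit 450581) (nat_lit 5) (.e (nat_lit 532523) (nat_lit 7) .nil)))) .nil)))))) (.nd (nat_lit 3) (.nd (nat_lit 4) (.nd (nat_lit 5) (.nd (nat_lit 6) 
(.lf (nat_lit 43399) (.g (nat_lit 2107) (.e (nat_lit 1245) (nat_lit 92) (.e (nat_lit 98384) (nat_lit 32) (.e (nat_lit 475177) (nat_lit 24) (.e (nat_lit 516171) (nat_lit 13) .nil)))) .nil)) 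
(.lf (nat_lit 43463) (.g (nat_lit 4033) (.e (nat_lit 1246) (nat_lit 92) (.e (nat_lit 98373) (nat_lit 29) (.e (nat_lit 450588) (nat_lit 10) (.e (nat_lit 573471) (nat_lit 11) (.e (nat_lit 16388) (nat_lit 0) (.e (nat_lit 7495) (nat_lit 402) .nil)))))) (.g (nat_lit 5) .nil .nil)))) (.nd (nat_lit 6) 
(.lf (nat_lit 43431) (.g (nat_lit 3980) (.e (nat_lit 1246) (nat_lit 92) (.e (nat_lit 98367) (nat_lit 27) (.e (nat_lit 434247) (nat_lit 28) (.e (nat_lit 573489) (nat_lit 14) (.e (nat_lit 73755) (nat_lit 8) (.e (nat_lit 557089) (nat_lit 12) (.e (nat_lit 164007) (nat_lit 41) (.e (nat_lit 663554) (nat_lit 0) .nil)))))))) (.g (nat_lit 7) .nil .nil))) 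
(.lf (nat_lit 43495) (.g (nat_lit 3608) (.e (nat_lit 1248) (nat_lit 92) (.e (nat_lit 98373) (nat_lit 29) (.e (nat_lit 450587) (nat_lit 10) (.e (nat_lit 573457) (nat_lit 9) .nil)))) .nil)))) (.nd (nat_lit 5) (.nd (nat_lit 6) 
(.lf (nat_lit 43415) (.g (nat_lit 2518) (.e (nat_lit 1246) (nat_lit 92) (.e (nat_lit 98342) (nat_lit 20) (.e (nat_lit 221210) (nat_lit 22) (.e (nat_lit 196668) (nat_lit 14) (.e (nat_lit 73750) (nat_lit 6) (.e (nat_lit 540675) (nat_lit 0) (.e (nat_lit 2270) (nat_lit 149) (.e (nat_lit 761867) (nat_lit 5) .nil)))))))) (.g (nat_lit 4) .nil .nil))) 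
(.lf (nat_lit 43479) (.g (nat_lit 1357) (.e (nat_lit 1247) (nat_lit 92) (.e (nat_lit 98365) (nat_lit 26) (.e (nat_lit 426316) (nat_lit 12) (.e (nat_lit 475185) (nat_lit 29) .nil)))) .nil))) (.nd (nat_lit 6) 
(.lf (nat_lit 43447) (.g (nat_lit 1059) (.e (nat_lit 1246) (nat_lit 92) (.e (nat_lit 98373) (nat_lit 29) (.e (nat_lit 450579) (nat_lit 5) .nil))) .nil)) 
(.lf (nat_lit 43511) (.g (nat_lit 2211) (.e (nat_lit 1249) (nat_lit 92) (.e (nat_lit 98368) (nat_lit 27) (.e (nat_lit 434248) (nat_lit 28) (.e (nat_lit 573482) (nat_lit 13) (.e (nat_lit 73472) (nat_lit 18) (.e (nat_lit 204831) (nat_lit 18) (.e (nat_lit 57870) (nat_lit 264) (.e (nat_lit 992) (nat_lit 81) .nil)))))))) (.g (nat_lit 4) .nil .nil)))))) 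
(.nd (nat_lit 4) (.nd (nat_lit 5) (.nd (nat_lit 6) 
(.lf (nat_lit 43407) (.g (nat_lit 3751) (.e (nat_lit 1246) (nat_lit 92) (.e (nat_lit 98334) (nat_lit 18) (.e (nat_lit 164398) (nat_lit 256) (.e (nat_lit 57372) (nat_lit 2) (.e (nat_lit 90174) (nat_lit 14) (.e (nat_lit 180243) (nat_lit 5) (.e (nat_lit 532508) (nat_lit 2) (.e (nat_lit 106526) (nat_lit 9) .nil)))))))) (.g (nat_lit 5) .nil .nil))) 
(.lf (nat_lit 43471) (.g (nat_lit 1421) (.e (nat_lit 1246) (nat_lit 92) (.e (nat_lit 98389) (nat_lit 33) (.e (nat_lit 491558) (nat_lit 10) (.e (nat_lit 344119) (nat_lit 21) .nil)))) .nil))) (.nd (nat_lit 6) 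
(.lf (nat_lit 43439) (.g (nat_lit 2593) (.e (nat_lit 1246) (nat_lit 92) (.e (nat_lit 98372) (nat_lit 29) (.e (nat_lit 450579) (nat_lit 5) (.e (nat_lit 532523) (nat_lit 7) (.e (nat_lit 319504) (nat_lit 10) .nil))))) .nil)) 
(.lf (nat_lit 43503) (.g (nat_lit 980) (.e (nat_lit 1249) (nat_lit 92) (.e (nat_lit 98356) (nat_lit 26) (.e (nat_lit 426438) (nat_lit 18) .nil))) .nil)))) (.nd (nat_lit 5) (.nd (nat_lit 6) 
(.lf (nat_lit 43423) (.g (nat_lit 1801) (.e (nat_lit 1246) (nat_lit 92) (.e (nat_lit 98350) (nat_lit 24) (.e (nat_lit 409641) (nat_lit 17) (.e (nat_lit 294931) (nat_lit 3) .nil)))) .nil)) 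
(.lf (nat_lit 43487) (.g (nat_lit 4417) (.e (nat_lit 1247) (nat_lit 92) (.e (nat_lit 98373) (nat_lit 29) (.e (nat_lit 450588) (nat_lit 10) (.e (nat_lit 573470) (nat_lit 11) .nil)))) .nil))) (.nd (nat_lit 6) 
(.lf (nat_lit 43455) (.g (nat_lit 3016) (.e (nat_lit 1246) (nat_lit 92) (.e (nat_lit 98373) (nat_lit 29) (.e (nat_lit 450588) (nat_lit 10) (.e (nat_lit 573449) (nat_lit 9) .nil)))) .nil)) 
(.lf (nat_lit 43519) (.g (nat_lit 4154) (.e (nat_lit 1249) (nat_lit 92) (.e (nat_lit 98373) (nat_lit 29) (.e (nat_lit 450588) (nat_lit 10) (.e (nat_lit 573452) (nat_lit 9) .nil)))) .nil)))))))))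

noncomputable def tv605 : DT := (.nd (nat_lit 0) (.nd (nat_lit 1) (.nd (nat_lit 2) (.nd (nat_lit 3) (.nd (nat_lit 4) (.nd (nat_lit 5) 
(.lf (nat_lit 43520) (.g (nat_lit 4324) (.e (nat_lit 1249) (nat_lit 92) (.e (nat_lit 98373) (nat_lit 29) (.e (nat_lit 450588) (nat_lit 10) (.e (nat_lit 573475) (nat_lit 12) .nil)))) .nil)) 
(.lf (nat_lit 43552) (.g (nat_lit 2000) (.e (nat_lit 1250) (nat_lit 92) (.e (nat_lit 98313) (nat_lit 9) (.e (nat_lit 336223) (nat_lit 13) (.e (nat_lit 393234) (nat_lit 17) (.e (nat_lit 3561) (nat_lit 221) (.e (nat_lit 729103) (nat_lit 20) (.e (nat_lit 2030) (nat_lit 140) (.e (nat_lit 688159) (nat_lit 13) .nil)))))))) (.g (nat_lit 4) .nil .nil)))) (.nd (nat_lit 5) 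
(.lf (nat_lit 43536) (.g (nat_lit 1999) (.e (nat_lit 1250) (nat_lit 92) (.e (nat_lit 98313) (nat_lit 9) (.e (nat_lit 336088) (nat_lit 9) (.e (nat_lit 336019) (nat_lit 3) (.e (nat_lit 98386) (nat_lit 32) (.e (nat_lit 475205) (nat_lit 40) (.e (nat_lit 704606) (nat_lit 9) .nil))))))) (.g (nat_lit 4) .nil .nil))) 
(.lf (nat_lit 43568) (.g (nat_lit 1763) (.e (nat_lit 1250) (nat_lit 92) (.e (nat_lit 98333) (nat_lit 18) (.e (nat_lit 164399) (nat_lit 256) (.e (nat_lit 57375) (nat_lit 2) .nil)))) .nil)))) (.nd (nat_lit 4) (.nd (nat_lit 5) 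
(.lf (nat_lit 43528) (.g (nat_lit 744) (.e (nat_lit 1250) (nat_lit 92) (.e (nat_lit 98313) (nat_lit 9) (.e (nat_lit 336087) (nat_lit 9) (.e (nat_lit 336019) (nat_lit 3) .nil)))) .nil)) 
(.lf (nat_lit 43560) (.g (nat_lit 3178) (.e (nat_lit 1250) (nat_lit 92) (.e (nat_lit 98323) (nat_lit 17) (.e (nat_lit 6989) (nat_lit 377) (.e (nat_lit 1374) (nat_lit 104) (.e (nat_lit 303119) (nat_lit 3) (.e (nat_lit 204846) (nat_lit 24) (.e (nat_lit 319511) (nat_lit 10) (.e (nat_lit 5293) (nat_lit 298) .nil)))))))) (.g (nat_lit 7) .nil .nil)))) (.nd (nat_lit 5) 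
(.lf (nat_lit 43544) (.g (nat_lit 543) (.e (nat_lit 1250) (nat_lit 92) (.e (nat_lit 98313) (nat_lit 9) (.e (nat_lit 336222) (nat_lit 13) .nil))) .nil)) 
(.lf (nat_lit 43576) (.g (nat_lit 3789) (.e (nat_lit 1250) (nat_lit 92) (.e (nat_lit 98341) (nat_lit 20) (.e (nat_lit 221210) (nat_lit 22) (.e (nat_lit 196668) (nat_lit 14) (.e (nat_lit 73750) (nat_lit 6) (.e (nat_lit 540675) (nat_lit 0) (.e (nat_lit 2270) (nat_lit 149) (.e (nat_lit 761866) (nat_lit 5) .nil)))))))) (.g (nat_lit 8) .nil .nil)))))) (.nd (nat_lit 3) (.nd (nat_lit 4) (.nd (nat_lit 5) 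
(.lf (nat_lit 43524) (.g (nat_lit 3084) (.e (nat_lit 1250) (nat_lit 92) (.e (nat_lit 98313) (nat_lit 9) (.e (nat_lit 336004) (nat_lit 2) (.e (nat_lit 90158) (nat_lit 11) (.e (nat_lit 24608) (nat_lit 3) (.e (nat_lit 98309) (nat_lit 0) (.e (nat_lit 7936) (nat_lit 343) .nil))))))) (.g (nat_lit 6) .nil .nil))) 
(.lf (nat_lit 43556) (.g (nat_lit 1380) (.e (nat_lit 1250) (nat_lit 92) (.e (nat_lit 98317) (nat_lit 9) (.e (nat_lit 336184) (nat_lit 11) (.e (nat_lit 368676) (nat_lit 21) (.e (nat_lit 516179) (nat_lit 15) .nil))))) .nil))) (.nd (nat_lit 5) 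
(.lf (nat_lit 43540) (.g (nat_lit 2951) (.e (nat_lit 1250) (nat_lit 92) (.e (nat_lit 98313) (nat_lit 9) (.e (nat_lit 336184) (nat_lit 11) (.e (nat_lit 368676) (nat_lit 21) (.e (nat_lit 516179) (nat_lit 15) (.e (nat_lit 475205) (nat_lit 40) (.e (nat_lit 704606) (nat_lit 9) .nil))))))) (.g (nat_lit 6) .nil .nil))) 
(.lf (nat_lit 43572) (.g (nat_lit 2152) (.e (nat_lit 1250) (nat_lit 92) (.e (nat_lit 98341) (nat_lit 20) (.e (nat_lit 221210) (nat_lit 22) (.e (nat_lit 196668) (nat_lit 14) (.e (nat_lit 81664) (nat_lit 5) .nil))))) .nil)))) (.nd (nat_lit 4) (.nd (nat_lit 5) 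
(.lf (nat_lit 43532) (.g (nat_lit 3893) (.e (nat_lit 1250) (nat_lit 92) (.e (nat_lit 98313) (nat_lit 9) (.e (nat_lit 336088) (nat_lit 9) (.e (nat_lit 336019) (nat_lit 3) (.e (nat_lit 98384) (nat_lit 32) (.e (nat_lit 475199) (nat_lit 40) (.e (nat_lit 704614) (nat_lit 9) .nil))))))) (.g (nat_lit 0) .nil .nil))) 
(.lf (nat_lit 43564) (.g (nat_lit 2470) (.e (nat_lit 1250) (nat_lit 92) (.e (nat_lit 98333) (nat_lit 18) (.e (nat_lit 164399) (nat_lit 256) (.e (nat_lit 57372) (nat_lit 2) (.e (nat_lit 90172) (nat_lit 14) .nil))))) .nil))) (.nd (nat_lit 5) 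
(.lf (nat_lit 43548) (.g (nat_lit 1809) (.e (nat_lit 1250) (nat_lit 92) (.e (nat_lit 98313) (nat_lit 9) (.e (nat_lit 336223) (nat_lit 13) (.e (nat_lit 393234) (nat_lit 17) (.e (nat_lit 3542) (nat_lit 218) .nil))))) .nil)) 
(.lf (nat_lit 43580) (.g (nat_lit 734) (.e (nat_lit 1250) (nat_lit 92) (.e (nat_lit 98341) (nat_lit 20) (.e (nat_lit 221212) (nat_lit 22) .nil))) .nil)))))) (.nd (nat_lit 2) (.nd (nat_lit 3) (.nd (nat_lit 4) (.nd (nat_lit 5) 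
(.lf (nat_lit 43522) (.g (nat_lit 2278) (.e (nat_lit 1249) (nat_lit 92) (.e (nat_lit 98384) (nat_lit 32) (.e (nat_lit 475177) (nat_lit 24) (.e (nat_lit 516169) (nat_lit 13) .nil)))) .nil)) 
(.lf (nat_lit 43554) (.g (nat_lit 2457) (.e (nat_lit 1250) (nat_lit 92) (.e (nat_lit 98313) (nat_lit 9) (.e (nat_lit 336223) (nat_lit 13) (.e (nat_lit 393234) (nat_lit 17) (.e (nat_lit 3564) (nat_lit 221) (.e (nat_lit 729104) (nat_lit 20) (.e (nat_lit 2030) (nat_lit 140) (.e (nat_lit 688159) (nat_lit 13) .nil)))))))) (.g (nat_lit 6) .nil .nil)))) (.nd (nat_lit 5) 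
(.lf (nat_lit 43538) (.g (nat_lit 1675) (.e (nat_lit 1250) (nat_lit 92) (.e (nat_lit 98313) (nat_lit 9) (.e (nat_lit 336158) (nat_lit 9) (.e (nat_lit 336012) (nat_lit 2) (.e (nat_lit 90172) (nat_lit 14) .nil))))) .nil)) 
(.lf (nat_lit 43570) (.g (nat_lit 1959) (.e (nat_lit 1250) (nat_lit 92) (.e (nat_lit 98334) (nat_lit 18) (.e (nat_lit 164398) (nat_lit 256) (.e (nat_lit 57375) (nat_lit 2) .nil)))) .nil)))) (.nd (nat_lit 4) (.nd (nat_lit 5) 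
(.lf (nat_lit 43530) (.g (nat_lit 2853) (.e (nat_lit 1250) (nat_lit 92) (.e (nat_lit 98313) (nat_lit 9) (.e (nat_lit 336087) (nat_lit 9) (.e (nat_lit 336019) (nat_lit 3) (.e (nat_lit 98384) (nat_lit 32) (.e (nat_lit 475199) (nat_lit 40) (.e (nat_lit 704700) (nat_lit 9) .nil))))))) (.g (nat_lit 6) .nil .nil))) 
(.lf (nat_lit 43562) (.g (nat_lit 1210) (.e (nat_lit 1250) (nat_lit 92) (.e (nat_lit 98333) (nat_lit 18) (.e (nat_lit 164325) (nat_lit 230) .nil))) .nil))) (.nd (nat_lit 5) 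
(.lf (nat_lit 43546) (.g (nat_lit 1392) (.e (nat_lit 1250) (nat_lit 92) (.e (nat_lit 98313) (nat_lit 9) (.e (nat_lit 336223) (nat_lit 13) (.e (nat_lit 401152) (nat_lit 15) .nil)))) .nil)) 
(.lf (nat_lit 43578) (.g (nat_lit 2492) (.e (nat_lit 1250) (nat_lit 92) (.e (nat_lit 98341) (nat_lit 20) (.e (nat_lit 221210) (nat_lit 22) (.e (nat_lit 196670) (nat_lit 14) (.e (nat_lit 73750) (nat_lit 6) .nil))))) .nil))))) (.nd (nat_lit 3) (.nd (nat_lit 4) (.nd (nat_lit 5) 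
(.lf (nat_lit 43526) (.g (nat_lit 1679) (.e (nat_lit 1250) (nat_lit 92) (.e (nat_lit 98313) (nat_lit 9) (.e (nat_lit 336021) (nat_lit 3) (.e (nat_lit 98317) (nat_lit 9) (.e (nat_lit 336027) (nat_lit 3) .nil))))) .nil)) 
(.lf (nat_lit 43558) (.g (nat_lit 615) (.e (nat_lit 1250) (nat_lit 92) (.e (nat_lit 98317) (nat_lit 9) (.e (nat_lit 336186) (nat_lit 11) .nil))) .nil))) (.nd (nat_lit 5) 
(.lf (nat_lit 43542) (.g (nat_lit 3197) (.e (nat_lit 1250) (nat_lit 92) (.e (nat_lit 98313) (nat_lit 9) (.e (nat_lit 336186) (nat_lit 11) (.e (nat_lit 368676) (nat_lit 21) (.e (nat_lit 516179) (nat_lit 15) (.e (nat_lit 475205) (nat_lit 40) (.e (nat_lit 704606) (nat_lit 9) .nil))))))) (.g (nat_lit 7) .nil .nil))) 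
(.lf (nat_lit 43574) (.g (nat_lit 2554) (.e (nat_lit 1250) (nat_lit 92) (.e (nat_lit 98341) (nat_lit 20) (.e (nat_lit 221210) (nat_lit 22) (.e (nat_lit 196668) (nat_lit 14) (.e (nat_lit 73750) (nat_lit 6) (.e (nat_lit 540674) (nat_lit 0) (.e (nat_lit 2270) (nat_lit 149) (.e (nat_lit 761866) (nat_lit 5) .nil)))))))) (.g (nat_lit 4) .nil .nil))))) (.nd (nat_lit 4) (.nd (nat_lit 5) 
(.lf (nat_lit 43534) (.g (nat_lit 2074) (.e (nat_lit 1250) (nat_lit 92) (.e (nat_lit 98313) (nat_lit 9) (.e (nat_lit 336088) (nat_lit 9) (.e (nat_lit 336019) (nat_lit 3) (.e (nat_lit 98384) (nat_lit 32) (.e (nat_lit 475201) (nat_lit 40) (.e (nat_lit 712448) (nat_lit 9) .nil))))))) (.g (nat_lit 4) .nil .nil))) 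
(.lf (nat_lit 43566) (.g (nat_lit 2637) (.e (nat_lit 1250) (nat_lit 92) (.e (nat_lit 98333) (nat_lit 18) (.e (nat_lit 164399) (nat_lit 256) (.e (nat_lit 57373) (nat_lit 2) (.e (nat_lit 90172) (nat_lit 14) .nil))))) .nil))) (.nd (nat_lit 5) 
(.lf (nat_lit 43550) (.g (nat_lit 2046) (.e (nat_lit 1250) (nat_lit 92) (.e (nat_lit 98313) (nat_lit 9) (.e (nat_lit 336223) (nat_lit 13) (.e (nat_lit 393234) (nat_lit 17) (.e (nat_lit 3559) (nat_lit 221) (.e (nat_lit 729101) (nat_lit 20) (.e (nat_lit 2031) (nat_lit 140) (.e (nat_lit 688159) (nat_lit 13) .nil)))))))) (.g (nat_lit 4) .nil .nil))) 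
(.lf (nat_lit 43582) (.g (nat_lit 2501) (.e (nat_lit 1250) (nat_lit 92) (.e (nat_lit 98341) (nat_lit 20) (.e (nat_lit 221212) (nat_lit 22) (.e (nat_lit 196668) (nat_lit 14) (.e (nat_lit 73750) (nat_lit 6) (.e (nat_lit 540675) (nat_lit 0) (.e (nat_lit 2270) (nat_lit 149) (.e (nat_lit 761866) (nat_lit 5) .nil)))))))) (.g (nat_lit 4) .nil .nil)))))))) 
(.nd (nat_lit 1) (.nd (nat_lit 2) (.nd (nat_lit 3) (.nd (nat_lit 4) (.nd (nat_lit 5) 
(.lf (nat_lit 43521) (.g (nat_lit 2528) (.e (nat_lit 1249) (nat_lit 92) (.e (nat_lit 98384) (nat_lit 32) (.e (nat_lit 475177) (nat_lit 24) (.e (nat_lit 516150) (nat_lit 9) (.e (nat_lit 426131) (nat_lit 3) .nil))))) .nil)) 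
(.lf (nat_lit 43553) (.g (nat_lit 1809) (.e (nat_lit 1250) (nat_lit 92) (.e (nat_lit 98313) (nat_lit 9) (.e (nat_lit 336223) (nat_lit 13) (.e (nat_lit 393234) (nat_lit 17) (.e (nat_lit 3564) (nat_lit 221) .nil))))) .nil))) (.nd (nat_lit 5) 
(.lf (nat_lit 43537) (.g (nat_lit 535) (.e (nat_lit 1250) (nat_lit 92) (.e (nat_lit 98313) (nat_lit 9) (.e (nat_lit 336158) (nat_lit 9) .nil))) .nil)) 
(.lf (nat_lit 43569) (.g (nat_lit 2483) (.e (nat_lit 1250) (nat_lit 92) (.e (nat_lit 98334) (nat_lit 18) (.e (nat_lit 164398) (nat_lit 256) (.e (nat_lit 57373) (nat_lit 2) (.e (nat_lit 90174) (nat_lit 14) (.e (nat_lit 180243) (nat_lit 5) (.e (nat_lit 532511) (nat_lit 2) (.e (nat_lit 114432) (nat_lit 9) .nil)))))))) (.g (nat_lit 4) .nil .nil))))) (.nd (nat_lit 4) (.nd (nat_lit 5) 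
(.lf (nat_lit 43529) (.g (nat_lit 3417) (.e (nat_lit 1250) (nat_lit 92) (.e (nat_lit 98313) (nat_lit 9) (.e (nat_lit 336087) (nat_lit 9) (.e (nat_lit 336019) (nat_lit 3) (.e (nat_lit 98384) (nat_lit 32) (.e (nat_lit 475199) (nat_lit 40) (.e (nat_lit 704614) (nat_lit 9) .nil))))))) (.g (nat_lit 0) .nil .nil))) 
(.lf (nat_lit 43561) (.g (nat_lit 3895) (.e (nat_lit 1250) (nat_lit 92) (.e (nat_lit 98323) (nat_lit 17) (.e (nat_lit 6989) (nat_lit 377) (.e (nat_lit 2777) (nat_lit 178) (.e (nat_lit 286735) (nat_lit 3) (.e (nat_lit 98350) (nat_lit 24) (.e (nat_lit 409623) (nat_lit 10) (.e (nat_lit 5293) (nat_lit 298) .nil)))))))) (.g (nat_lit 7) .nil .nil)))) (.nd (nat_lit 5) 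
(.lf (nat_lit 43545) (.g (nat_lit 432) (.e (nat_lit 1250) (nat_lit 92) (.e (nat_lit 98313) (nat_lit 9) (.e (nat_lit 336223) (nat_lit 13) .nil))) .nil)) 
(.lf (nat_lit 43577) (.g (nat_lit 3913) (.e (nat_lit 1250) (nat_lit 92) (.e (nat_lit 98341) (nat_lit 20) (.e (nat_lit 221210) (nat_lit 22) (.e (nat_lit 196668) (nat_lit 14) (.e (nat_lit 73750) (nat_lit 6) (.e (nat_lit 540675) (nat_lit 0) (.e (nat_lit 2270) (nat_lit 149) (.e (nat_lit 761867) (nat_lit 5) .nil)))))))) (.g (nat_lit 0) .nil .nil)))))) (.nd (nat_lit 3) (.nd (nat_lit 4) (.nd (nat_lit 5) 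
(.lf (nat_lit 43525) (.g (nat_lit 3221) (.e (nat_lit 1250) (nat_lit 92) (.e (nat_lit 98313) (nat_lit 9) (.e (nat_lit 336012) (nat_lit 2) (.e (nat_lit 90158) (nat_lit 11) (.e (nat_lit 24608) (nat_lit 3) (.e (nat_lit 98309) (nat_lit 0) (.e (nat_lit 7936) (nat_lit 343) .nil))))))) (.g (nat_lit 6) .nil .nil))) 
(.lf (nat_lit 43557) (.g (nat_lit 1826) (.e (nat_lit 1250) (nat_lit 92) (.e (nat_lit 98317) (nat_lit 9) (.e (nat_lit 336184) (nat_lit 11) (.e (nat_lit 368676) (nat_lit 21) (.e (nat_lit 516179) (nat_lit 15) (.e (nat_lit 475205) (nat_lit 40) (.e (nat_lit 704606) (nat_lit 9) .nil))))))) (.g (nat_lit 4) .nil .nil)))) (.nd (nat_lit 5) 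
(.lf (nat_lit 43541) (.g (nat_lit 1607) (.e (nat_lit 1250) (nat_lit 92) (.e (nat_lit 98313) (nat_lit 9) (.e (nat_lit 336186) (nat_lit 11) (.e (nat_lit 368676) (nat_lit 21) (.e (nat_lit 516171) (nat_lit 13) (.e (nat_lit 458771) (nat_lit 18) (.e (nat_lit 5537) (nat_lit 306) (.e (nat_lit 1077) (nat_lit 81) .nil)))))))) (.g (nat_lit 4) .nil .nil))) 
(.lf (nat_lit 43573) (.g (nat_lit 2174) (.e (nat_lit 1250) (nat_lit 92) (.e (nat_lit 98341) (nat_lit 20) (.e (nat_lit 221210) (nat_lit 22) (.e (nat_lit 196668) (nat_lit 14) (.e (nat_lit 81664) (nat_lit 5) (.e (nat_lit 532490) (nat_lit 0) (.e (nat_lit 2270) (nat_lit 149) (.e (nat_lit 761867) (nat_lit 5) .nil)))))))) (.g (nat_lit 4) .nil .nil))))) (.nd (nat_lit 4) (.nd (nat_lit 5) 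
(.lf (nat_lit 43533) (.g (nat_lit 3333) (.e (nat_lit 1250) (nat_lit 92) (.e (nat_lit 98313) (nat_lit 9) (.e (nat_lit 336088) (nat_lit 9) (.e (nat_lit 336019) (nat_lit 3) (.e (nat_lit 98384) (nat_lit 32) (.e (nat_lit 475199) (nat_lit 40) (.e (nat_lit 704700) (nat_lit 9) .nil))))))) (.g (nat_lit 6) .nil .nil))) 
(.lf (nat_lit 43565) (.g (nat_lit 2461) (.e (nat_lit 1250) (nat_lit 92) (.e (nat_lit 98333) (nat_lit 18) (.e (nat_lit 164399) (nat_lit 256) (.e (nat_lit 57372) (nat_lit 2) (.e (nat_lit 90174) (nat_lit 14) .nil))))) .nil))) (.nd (nat_lit 5) 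
(.lf (nat_lit 43549) (.g (nat_lit 1809) (.e (nat_lit 1250) (nat_lit 92) (.e (nat_lit 98313) (nat_lit 9) (.e (nat_lit 336223) (nat_lit 13) (.e (nat_lit 393234) (nat_lit 17) (.e (nat_lit 3557) (nat_lit 220) .nil))))) .nil)) 
(.lf (nat_lit 43581) (.g (nat_lit 2080) (.e (nat_lit 1250) (nat_lit 92) (.e (nat_lit 98341) (nat_lit 20) (.e (nat_lit 221212) (nat_lit 22) (.e (nat_lit 196668) (nat_lit 14) (.e (nat_lit 73750) (nat_lit 6) .nil))))) .nil)))))) (.nd (nat_lit 2) (.nd (nat_lit 3) (.nd (nat_lit 4) (.nd (nat_lit 5) 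
(.lf (nat_lit 43523) (.g (nat_lit 2245) (.e (nat_lit 1249) (nat_lit 92) (.e (nat_lit 98384) (nat_lit 32) (.e (nat_lit 475177) (nat_lit 24) (.e (nat_lit 516171) (nat_lit 13) .nil)))) .nil)) 
(.lf (nat_lit 43555) (.g (nat_lit 2375) (.e (nat_lit 1250) (nat_lit 92) (.e (nat_lit 98313) (nat_lit 9) (.e (nat_lit 336223) (nat_lit 13) (.e (nat_lit 393258) (nat_lit 20) .nil)))) .nil))) (.nd (nat_lit 5) 
(.lf (nat_lit 43539) (.g (nat_lit 1542) (.e (nat_lit 1250) (nat_lit 92) (.e (nat_lit 98313) (nat_lit 9) (.e (nat_lit 336184) (nat_lit 11) (.e (nat_lit 368676) (nat_lit 21) (.e (nat_lit 516171) (nat_lit 13) (.e (nat_lit 458771) (nat_lit 18) (.e (nat_lit 5537) (nat_lit 306) (.e (nat_lit 1077) (nat_lit 81) .nil)))))))) (.g (nat_lit 4) .nil .nil))) 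
(.lf (nat_lit 43571) (.g (nat_lit 1649) (.e (nat_lit 1250) (nat_lit 92) (.e (nat_lit 98341) (nat_lit 20) (.e (nat_lit 221210) (nat_lit 22) (.e (nat_lit 196663) (nat_lit 13) .nil)))) .nil)))) (.nd (nat_lit 4) (.nd (nat_lit 5) 
(.lf (nat_lit 43531) (.g (nat_lit 3268) (.e (nat_lit 1250) (nat_lit 92) (.e (nat_lit 98313) (nat_lit 9) (.e (nat_lit 336087) (nat_lit 9) (.e (nat_lit 336019) (nat_lit 3) (.e (nat_lit 98384) (nat_lit 32) (.e (nat_lit 475205) (nat_lit 40) (.e (nat_lit 704606) (nat_lit 9) .nil))))))) (.g (nat_lit 7) .nil .nil))) 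
(.lf (nat_lit 43563) (.g (nat_lit 2987) (.e (nat_lit 1250) (nat_lit 92) (.e (nat_lit 98333) (nat_lit 18) (.e (nat_lit 164325) (nat_lit 230) (.e (nat_lit 163944) (nat_lit 19) (.e (nat_lit 483346) (nat_lit 17) .nil))))) .nil))) (.nd (nat_lit 5) 
(.lf (nat_lit 43547) (.g (nat_lit 1810) (.e (nat_lit 1250) (nat_lit 92) (.e (nat_lit 98313) (nat_lit 9) (.e (nat_lit 336223) (nat_lit 13) (.e (nat_lit 393234) (nat_lit 17) (.e (nat_lit 3520) (nat_lit 218) .nil))))) .nil)) 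
(.lf (nat_lit 43579) (.g (nat_lit 2559) (.e (nat_lit 1250) (nat_lit 92) (.e (nat_lit 98341) (nat_lit 20) (.e (nat_lit 221211) (nat_lit 22) (.e (nat_lit 196666) (nat_lit 13) (.e (nat_lit 65568) (nat_lit 2) (.e (nat_lit 98048) (nat_lit 3) (.e (nat_lit 57569) (nat_lit 53) (.e (nat_lit 761866) (nat_lit 5) .nil)))))))) (.g (nat_lit 4) .nil .nil)))))) (.nd (nat_lit 3) (.nd (nat_lit 4) (.nd (nat_lit 5) 
(.lf (nat_lit 43527) (.g (nat_lit 1503) (.e (nat_lit 1250) (nat_lit 92) (.e (nat_lit 98313) (nat_lit 9) (.e (nat_lit 336027) (nat_lit 3) (.e (nat_lit 98317) (nat_lit 9) (.e (nat_lit 336027) (nat_lit 3) (.e (nat_lit 98309) (nat_lit 0) (.e (nat_lit 7936) (nat_lit 343) .nil))))))) (.g (nat_lit 4) .nil .nil))) 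
(.lf (nat_lit 43559) (.g (nat_lit 1699) (.e (nat_lit 1250) (nat_lit 92) (.e (nat_lit 98317) (nat_lit 9) (.e (nat_lit 336186) (nat_lit 11) (.e (nat_lit 368676) (nat_lit 21) (.e (nat_lit 516179) (nat_lit 15) (.e (nat_lit 475199) (nat_lit 40) (.e (nat_lit 704614) (nat_lit 9) .nil))))))) (.g (nat_lit 4) .nil .nil)))) (.nd (nat_lit 5) 
(.lf (nat_lit 43543) (.g (nat_lit 1659) (.e (nat_lit 1250) (nat_lit 92) (.e (nat_lit 98313) (nat_lit 9) (.e (nat_lit 336204) (nat_lit 12) (.e (nat_lit 385074) (nat_lit 31) (.e (nat_lit 573482) (nat_lit 13) .nil))))) .nil)) 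
(.lf (nat_lit 43575) (.g (nat_lit 2744) (.e (nat_lit 1250) (nat_lit 92) (.e (nat_lit 98341) (nat_lit 20) (.e (nat_lit 221210) (nat_lit 22) (.e (nat_lit 196668) (nat_lit 14) (.e (nat_lit 73750) (nat_lit 6) (.e (nat_lit 540674) (nat_lit 0) (.e (nat_lit 2270) (nat_lit 149) (.e (nat_lit 761867) (nat_lit 5) .nil)))))))) (.g (nat_lit 5) .nil .nil))))) (.nd (nat_lit 4) (.nd (nat_lit 5) 
(.lf (nat_lit 43535) (.g (nat_lit 3756) (.e (nat_lit 1250) (nat_lit 92) (.e (nat_lit 98313) (nat_lit 9) (.e (nat_lit 336088) (nat_lit 9) (.e (nat_lit 336019) (nat_lit 3) (.e (nat_lit 98384) (nat_lit 32) (.e (nat_lit 475205) (nat_lit 40) (.e (nat_lit 704606) (nat_lit 9) .nil))))))) (.g (nat_lit 7) .nil .nil))) 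
(.lf (nat_lit 43567) (.g (nat_lit 2690) (.e (nat_lit 1250) (nat_lit 92) (.e (nat_lit 98333) (nat_lit 18) (.e (nat_lit 164399) (nat_lit 256) (.e (nat_lit 57373) (nat_lit 2) (.e (nat_lit 90174) (nat_lit 14) (.e (nat_lit 180243) (nat_lit 5) (.e (nat_lit 532511) (nat_lit 2) (.e (nat_lit 114432) (nat_lit 9) .nil)))))))) (.g (nat_lit 4) .nil .nil)))) (.nd (nat_lit 5) 
(.lf (nat_lit 43551) (.g (nat_lit 3218) (.e (nat_lit 1250) (nat_lit 92) (.e (nat_lit 98313) (nat_lit 9) (.e (nat_lit 336223) (nat_lit 13) (.e (nat_lit 393234) (nat_lit 17) (.e (nat_lit 3559) (nat_lit 221) (.e (nat_lit 729103) (nat_lit 20) (.e (nat_lit 2030) (nat_lit 140) (.e (nat_lit 688159) (nat_lit 13) .nil)))))))) (.g (nat_lit 8) .nil .nil))) 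
(.lf (nat_lit 43583) (.g (nat_lit 2625) (.e (nat_lit 1250) (nat_lit 92) (.e (nat_lit 98341) (nat_lit 20) (.e (nat_lit 221212) (nat_lit 22) (.e (nat_lit 196668) (nat_lit 14) (.e (nat_lit 73750) (nat_lit 6) (.e (nat_lit 540675) (nat_lit 0) (.e (nat_lit 2270) (nat_lit 149) (.e (nat_lit 761867) (nat_lit 5) .nil)))))))) (.g (nat_lit 5) .nil .nil)))))))))

noncomputable def tv606 : DT := (.nd (nat_lit 0) (.nd (nat_lit 1) (.nd (nat_lit 2) (.nd (nat_lit 3) (.nd (nat_lit 4) (.nd (nat_lit 5) 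
(.lf (nat_lit 43584) (.g (nat_lit 1252) (.e (nat_lit 1250) (nat_lit 92) (.e (nat_lit 98341) (nat_lit 20) (.e (nat_lit 221212) (nat_lit 22) (.e (nat_lit 196670) (nat_lit 14) .nil)))) .nil)) 
(.lf (nat_lit 43616) (.g (nat_lit 860) (.e (nat_lit 1250) (nat_lit 92) (.e (nat_lit 98342) (nat_lit 20) (.e (nat_lit 221214) (nat_lit 23) .nil))) .nil))) (.nd (nat_lit 5) 
(.lf (nat_lit 43600) (.g (nat_lit 3059) (.e (nat_lit 1250) (nat_lit 92) (.e (nat_lit 98342) (nat_lit 20) (.e (nat_lit 221211) (nat_lit 22) (.e (nat_lit 196666) (nat_lit 13) (.e (nat_lit 65568) (nat_lit 2) (.e (nat_lit 98048) (nat_lit 3) (.e (nat_lit 57569) (nat_lit 53) (.e (nat_lit 761867) (nat_lit 5) .nil)))))))) (.g (nat_lit 5) .nil .nil))) 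
(.lf (nat_lit 43632) (.g (nat_lit 2359) (.e (nat_lit 1250) (nat_lit 92) (.e (nat_lit 98350) (nat_lit 24) (.e (nat_lit 409603) (nat_lit 0) (.e (nat_lit 5626) (nat_lit 312) (.e (nat_lit 2685) (nat_lit 168) (.e (nat_lit 204846) (nat_lit 24) (.e (nat_lit 319511) (nat_lit 10) (.e (nat_lit 5293) (nat_lit 298) .nil)))))))) (.g (nat_lit 4) .nil .nil))))) (.nd (nat_lit 4) (.nd (nat_lit 5) 
(.lf (nat_lit 43592) (.g (nat_lit 2476) (.e (nat_lit 1250) (nat_lit 92) (.e (nat_lit 98342) (nat_lit 20) (.e (nat_lit 221210) (nat_lit 22) (.e (nat_lit 196668) (nat_lit 14) (.e (nat_lit 73750) (nat_lit 6) .nil))))) .nil)) 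
(.lf (nat_lit 43624) (.g (nat_lit 1844) (.e (nat_lit 1250) (nat_lit 92) (.e (nat_lit 98349) (nat_lit 24) (.e (nat_lit 409640) (nat_lit 17) (.e (nat_lit 294931) (nat_lit 3) (.e (nat_lit 98350) (nat_lit 24) (.e (nat_lit 409623) (nat_lit 10) (.e (nat_lit 5293) (nat_lit 298) .nil))))))) (.g (nat_lit 4) .nil .nil)))) (.nd (nat_lit 5) 
(.lf (nat_lit 43608) (.g (nat_lit 3783) (.e (nat_lit 1250) (nat_lit 92) (.e (nat_lit 98342) (nat_lit 20) (.e (nat_lit 221212) (nat_lit 22) (.e (nat_lit 196668) (nat_lit 14) (.e (nat_lit 73750) (nat_lit 6) (.e (nat_lit 540675) (nat_lit 0) (.e (nat_lit 2270) (nat_lit 149) (.e (nat_lit 761866) (nat_lit 5) .nil)))))))) (.g (nat_lit 0) .nil .nil))) 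
(.lf (nat_lit 43640) (.g (nat_lit 3480) (.e (nat_lit 1250) (nat_lit 92) (.e (nat_lit 98350) (nat_lit 24) (.e (nat_lit 409640) (nat_lit 17) (.e (nat_lit 294931) (nat_lit 3) (.e (nat_lit 98350) (nat_lit 24) (.e (nat_lit 409623) (nat_lit 10) (.e (nat_lit 5293) (nat_lit 298) .nil))))))) (.g (nat_lit 0) .nil .nil)))))) (.nd (nat_lit 3) (.nd (nat_lit 4) (.nd (nat_lit 5) 
(.lf (nat_lit 43588) (.g (nat_lit 875) (.e (nat_lit 1250) (nat_lit 92) (.e (nat_lit 98342) (nat_lit 20) (.e (nat_lit 221210) (nat_lit 22) .nil))) .nil)) 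
(.lf (nat_lit 43620) (.g (nat_lit 2738) (.e (nat_lit 1250) (nat_lit 92) (.e (nat_lit 98342) (nat_lit 20) (.e (nat_lit 221215) (nat_lit 23) (.e (nat_lit 204862) (nat_lit 27) (.e (nat_lit 344123) (nat_lit 24) (.e (nat_lit 540675) (nat_lit 0) (.e (nat_lit 2270) (nat_lit 149) (.e (nat_lit 761866) (nat_lit 5) .nil)))))))) (.g (nat_lit 5) .nil .nil)))) (.nd (nat_lit 5) 
(.lf (nat_lit 43604) (.g (nat_lit 2735) (.e (nat_lit 1250) (nat_lit 92) (.e (nat_lit 98342) (nat_lit 20) (.e (nat_lit 221212) (nat_lit 22) (.e (nat_lit 196668) (nat_lit 14) (.e (nat_lit 81664) (nat_lit 5) (.e (nat_lit 532481) (nat_lit 0) (.e (nat_lit 2271) (nat_lit 149) (.e (nat_lit 761866) (nat_lit 5) .nil)))))))) (.g (nat_lit 6) .nil .nil))) 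
(.lf (nat_lit 43636) (.g (nat_lit 1492) (.e (nat_lit 1250) (nat_lit 92) (.e (nat_lit 98350) (nat_lit 24) (.e (nat_lit 409617) (nat_lit 10) (.e (nat_lit 5355) (nat_lit 298) .nil)))) .nil)))) (.nd (nat_lit 4) (.nd (nat_lit 5) 
(.lf (nat_lit 43596) (.g (nat_lit 3804) (.e (nat_lit 1250) (nat_lit 92) (.e (nat_lit 98342) (nat_lit 20) (.e (nat_lit 221210) (nat_lit 22) (.e (nat_lit 196668) (nat_lit 14) (.e (nat_lit 73750) (nat_lit 6) (.e (nat_lit 540675) (nat_lit 0) (.e (nat_lit 2270) (nat_lit 149) (.e (nat_lit 761867) (nat_lit 5) .nil)))))))) (.g (nat_lit 7) .nil .nil))) 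
(.lf (nat_lit 43628) (.g (nat_lit 2736) (.e (nat_lit 1250) (nat_lit 92) (.e (nat_lit 98349) (nat_lit 24) (.e (nat_lit 409646) (nat_lit 18) (.e (nat_lit 303119) (nat_lit 3) (.e (nat_lit 204864) (nat_lit 27) .nil))))) .nil))) (.nd (nat_lit 5) 
(.lf (nat_lit 43612) (.g (nat_lit 2032) (.e (nat_lit 1250) (nat_lit 92) (.e (nat_lit 98342) (nat_lit 20) (.e (nat_lit 221212) (nat_lit 22) (.e (nat_lit 196669) (nat_lit 14) (.e (nat_lit 81664) (nat_lit 5) (.e (nat_lit 532490) (nat_lit 0) (.e (nat_lit 2270) (nat_lit 149) (.e (nat_lit 761867) (nat_lit 5) .nil)))))))) (.g (nat_lit 4) .nil .nil))) 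
(.lf (nat_lit 43644) (.g (nat_lit 3436) (.e (nat_lit 1250) (nat_lit 92) (.e (nat_lit 98350) (nat_lit 24) (.e (nat_lit 409643) (nat_lit 18) (.e (nat_lit 303119) (nat_lit 3) (.e (nat_lit 204863) (nat_lit 27) (.e (nat_lit 352000) (nat_lit 8) .nil)))))) (.g (nat_lit 5) .nil .nil))))))) (.nd (nat_lit 2) (.nd (nat_lit 3) (.nd (nat_lit 4) (.nd (nat_lit 5) 
(.lf (nat_lit 43586) (.g (nat_lit 1579) (.e (nat_lit 1250) (nat_lit 92) (.e (nat_lit 98341) (nat_lit 20) (.e (nat_lit 221215) (nat_lit 23) (.e (nat_lit 204850) (nat_lit 26) .nil)))) .nil)) 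
(.lf (nat_lit 43618) (.g (nat_lit 1418) (.e (nat_lit 1250) (nat_lit 92) (.e (nat_lit 98342) (nat_lit 20) (.e (nat_lit 221215) (nat_lit 23) (.e (nat_lit 204850) (nat_lit 26) .nil)))) .nil))) (.nd (nat_lit 5) 
(.lf (nat_lit 43602) (.g (nat_lit 1532) (.e (nat_lit 1250) (nat_lit 92) (.e (nat_lit 98342) (nat_lit 20) (.e (nat_lit 221212) (nat_lit 22) (.e (nat_lit 196664) (nat_lit 13) .nil)))) .nil)) 
(.lf (nat_lit 43634) (.g (nat_lit 4359) (.e (nat_lit 1250) (nat_lit 92) (.e (nat_lit 98350) (nat_lit 24) (.e (nat_lit 409616) (nat_lit 10) (.e (nat_lit 5355) (nat_lit 298) (.e (nat_lit 1253) (nat_lit 92) (.e (nat_lit 98350) (nat_lit 24) (.e (nat_lit 409623) (nat_lit 10) (.e (nat_lit 5293) (nat_lit 298) .nil)))))))) (.g (nat_lit 7) .nil .nil))))) (.nd (nat_lit 4) (.nd (nat_lit 5) 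
(.lf (nat_lit 43594) (.g (nat_lit 2635) (.e (nat_lit 1250) (nat_lit 92) (.e (nat_lit 98342) (nat_lit 20) (.e (nat_lit 221210) (nat_lit 22) (.e (nat_lit 196668) (nat_lit 14) (.e (nat_lit 73750) (nat_lit 6) (.e (nat_lit 540674) (nat_lit 0) (.e (nat_lit 2270) (nat_lit 149) (.e (nat_lit 761867) (nat_lit 5) .nil)))))))) (.g (nat_lit 4) .nil .nil))) 
(.lf (nat_lit 43626) (.g (nat_lit 2421) (.e (nat_lit 1250) (nat_lit 92) (.e (nat_lit 98349) (nat_lit 24) (.e (nat_lit 409645) (nat_lit 18) (.e (nat_lit 303119) (nat_lit 3) (.e (nat_lit 204821) (nat_lit 17) .nil))))) .nil))) (.nd (nat_lit 5) 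
(.lf (nat_lit 43610) (.g (nat_lit 1575) (.e (nat_lit 1250) (nat_lit 92) (.e (nat_lit 98342) (nat_lit 20) (.e (nat_lit 221212) (nat_lit 22) (.e (nat_lit 196669) (nat_lit 14) .nil)))) .nil)) 
(.lf (nat_lit 43642) (.g (nat_lit 2024) (.e (nat_lit 1250) (nat_lit 92) (.e (nat_lit 98350) (nat_lit 24) (.e (nat_lit 409641) (nat_lit 17) (.e (nat_lit 294931) (nat_lit 3) .nil)))) .nil))))) (.nd (nat_lit 3) (.nd (nat_lit 4) (.nd (nat_lit 5) 
(.lf (nat_lit 43590) (.g (nat_lit 2591) (.e (nat_lit 1250) (nat_lit 92) (.e (nat_lit 98342) (nat_lit 20) (.e (nat_lit 221210) (nat_lit 22) (.e (nat_lit 196666) (nat_lit 13) (.e (nat_lit 65568) (nat_lit 2) .nil))))) .nil)) 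
(.lf (nat_lit 43622) (.g (nat_lit 2420) (.e (nat_lit 1250) (nat_lit 92) (.e (nat_lit 98342) (nat_lit 20) (.e (nat_lit 221215) (nat_lit 23) (.e (nat_lit 204863) (nat_lit 27) (.e (nat_lit 344122) (nat_lit 24) .nil))))) .nil))) (.nd (nat_lit 5) 
(.lf (nat_lit 43606) (.g (nat_lit 2557) (.e (nat_lit 1250) (nat_lit 92) (.e (nat_lit 98342) (nat_lit 20) (.e (nat_lit 221212) (nat_lit 22) (.e (nat_lit 196668) (nat_lit 14) (.e (nat_lit 73750) (nat_lit 6) (.e (nat_lit 540674) (nat_lit 0) (.e (nat_lit 2270) (nat_lit 149) (.e (nat_lit 761866) (nat_lit 5) .nil)))))))) (.g (nat_lit 5) .nil .nil))) 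
(.lf (nat_lit 43638) (.g (nat_lit 3858) (.e (nat_lit 1250) (nat_lit 92) (.e (nat_lit 98350) (nat_lit 24) (.e (nat_lit 409623) (nat_lit 10) (.e (nat_lit 5293) (nat_lit 298) (.e (nat_lit 1250) (nat_lit 92) (.e (nat_lit 98350) (nat_lit 24) (.e (nat_lit 409623) (nat_lit 10) (.e (nat_lit 5293) (nat_lit 298) .nil)))))))) (.g (nat_lit 0) .nil .nil))))) (.nd (nat_lit 4) (.nd (nat_lit 5) 
(.lf (nat_lit 43598) (.g (nat_lit 946) (.e (nat_lit 1250) (nat_lit 92) (.e (nat_lit 98342) (nat_lit 20) (.e (nat_lit 221211) (nat_lit 22) .nil))) .nil)) 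
(.lf (nat_lit 43630) (.g (nat_lit 3950) (.e (nat_lit 1250) (nat_lit 92) (.e (nat_lit 98350) (nat_lit 24) (.e (nat_lit 409602) (nat_lit 0) (.e (nat_lit 5664) (nat_lit 312) (.e (nat_lit 2679) (nat_lit 168) (.e (nat_lit 204846) (nat_lit 24) (.e (nat_lit 319511) (nat_lit 10) (.e (nat_lit 5293) (nat_lit 298) .nil)))))))) (.g (nat_lit 0) .nil .nil)))) (.nd (nat_lit 5) 
(.lf (nat_lit 43614) (.g (nat_lit 2413) (.e (nat_lit 1250) (nat_lit 92) (.e (nat_lit 98342) (nat_lit 20) (.e (nat_lit 221212) (nat_lit 22) (.e (nat_lit 196670) (nat_lit 14) (.e (nat_lit 73750) (nat_lit 6) (.e (nat_lit 540675) (nat_lit 0) (.e (nat_lit 2270) (nat_lit 149) (.e (nat_lit 761866) (nat_lit 5) .nil)))))))) (.g (nat_lit 4) .nil .nil))) 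
(.lf (nat_lit 43646) (.g (nat_lit 2452) (.e (nat_lit 1250) (nat_lit 92) (.e (nat_lit 98350) (nat_lit 24) (.e (nat_lit 409644) (nat_lit 18) (.e (nat_lit 303117) (nat_lit 2) (.e (nat_lit 196670) (nat_lit 14) (.e (nat_lit 81664) (nat_lit 40) .nil)))))) (.g (nat_lit 4) .nil .nil)))))))) (.nd (nat_lit 1) (.nd (nat_lit 2) (.nd (nat_lit 3) (.nd (nat_lit 4) (.nd (nat_lit 5) 
(.lf (nat_lit 43585) (.g (nat_lit 751) (.e (nat_lit 1250) (nat_lit 92) (.e (nat_lit 98341) (nat_lit 20) (.e (nat_lit 221214) (nat_lit 23) .nil))) .nil)) 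
(.lf (nat_lit 43617) (.g (nat_lit 739) (.e (nat_lit 1250) (nat_lit 92) (.e (nat_lit 98342) (nat_lit 20) (.e (nat_lit 221215) (nat_lit 23) .nil))) .nil))) (.nd (nat_lit 5) 
(.lf (nat_lit 43601) (.g (nat_lit 545) (.e (nat_lit 1250) (nat_lit 92) (.e (nat_lit 98342) (nat_lit 20) (.e (nat_lit 221212) (nat_lit 22) .nil))) .nil)) 
(.lf (nat_lit 43633) (.g (nat_lit 2292) (.e (nat_lit 1250) (nat_lit 92) (.e (nat_lit 98350) (nat_lit 24) (.e (nat_lit 409616) (nat_lit 10) (.e (nat_lit 5355) (nat_lit 298) (.e (nat_lit 1252) (nat_lit 92) .nil))))) .nil)))) (.nd (nat_lit 4) (.nd (nat_lit 5) 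
(.lf (nat_lit 43593) (.g (nat_lit 2754) (.e (nat_lit 1250) (nat_lit 92) (.e (nat_lit 98342) (nat_lit 20) (.e (nat_lit 221210) (nat_lit 22) (.e (nat_lit 196668) (nat_lit 14) (.e (nat_lit 73750) (nat_lit 6) (.e (nat_lit 540674) (nat_lit 0) (.e (nat_lit 2270) (nat_lit 149) (.e (nat_lit 761866) (nat_lit 5) .nil)))))))) (.g (nat_lit 4) .nil .nil))) 
(.lf (nat_lit 43625) (.g (nat_lit 2552) (.e (nat_lit 1250) (nat_lit 92) (.e (nat_lit 98349) (nat_lit 24) (.e (nat_lit 409641) (nat_lit 17) (.e (nat_lit 294931) (nat_lit 3) (.e (nat_lit 98350) (nat_lit 24) (.e (nat_lit 409623) (nat_lit 10) (.e (nat_lit 5293) (nat_lit 298) .nil))))))) (.g (nat_lit 5) .nil .nil)))) (.nd (nat_lit 5) 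
(.lf (nat_lit 43609) (.g (nat_lit 3586) (.e (nat_lit 1250) (nat_lit 92) (.e (nat_lit 98342) (nat_lit 20) (.e (nat_lit 221212) (nat_lit 22) (.e (nat_lit 196668) (nat_lit 14) (.e (nat_lit 73750) (nat_lit 6) (.e (nat_lit 540675) (nat_lit 0) (.e (nat_lit 2270) (nat_lit 149) (.e (nat_lit 761867) (nat_lit 5) .nil)))))))) (.g (nat_lit 8) .nil .nil))) 
(.lf (nat_lit 43641) (.g (nat_lit 2003) (.e (nat_lit 1250) (nat_lit 92) (.e (nat_lit 98350) (nat_lit 24) (.e (nat_lit 409641) (nat_lit 17) (.e (nat_lit 294928) (nat_lit 2) .nil)))) .nil))))) (.nd (nat_lit 3) (.nd (nat_lit 4) (.nd (nat_lit 5) 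
(.lf (nat_lit 43589) (.g (nat_lit 1752) (.e (nat_lit 1250) (nat_lit 92) (.e (nat_lit 98342) (nat_lit 20) (.e (nat_lit 221210) (nat_lit 22) (.e (nat_lit 196663) (nat_lit 13) .nil)))) .nil)) 
(.lf (nat_lit 43621) (.g (nat_lit 2556) (.e (nat_lit 1250) (nat_lit 92) (.e (nat_lit 98342) (nat_lit 20) (.e (nat_lit 221215) (nat_lit 23) (.e (nat_lit 204862) (nat_lit 27) (.e (nat_lit 344123) (nat_lit 24) (.e (nat_lit 540675) (nat_lit 0) (.e (nat_lit 2270) (nat_lit 149) (.e (nat_lit 761867) (nat_lit 5) .nil)))))))) (.g (nat_lit 5) .nil .nil)))) (.nd (nat_lit 5) 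
(.lf (nat_lit 43605) (.g (nat_lit 2035) (.e (nat_lit 1250) (nat_lit 92) (.e (nat_lit 98342) (nat_lit 20) (.e (nat_lit 221212) (nat_lit 22) (.e (nat_lit 196668) (nat_lit 14) (.e (nat_lit 81664) (nat_lit 5) (.e (nat_lit 532490) (nat_lit 0) (.e (nat_lit 2270) (nat_lit 149) (.e (nat_lit 761866) (nat_lit 5) .nil)))))))) (.g (nat_lit 4) .nil .nil))) 
(.lf (nat_lit 43637) (.g (nat_lit 2142) (.e (nat_lit 1250) (nat_lit 92) (.e (nat_lit 98350) (nat_lit 24) (.e (nat_lit 409617) (nat_lit 10) (.e (nat_lit 5355) (nat_lit 298) (.e (nat_lit 1252) (nat_lit 92) .nil))))) .nil)))) (.nd (nat_lit 4) (.nd (nat_lit 5) 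
(.lf (nat_lit 43597) (.g (nat_lit 2591) (.e (nat_lit 1250) (nat_lit 92) (.e (nat_lit 98342) (nat_lit 20) (.e (nat_lit 221210) (nat_lit 22) (.e (nat_lit 196670) (nat_lit 14) (.e (nat_lit 73750) (nat_lit 6) .nil))))) .nil)) 
(.lf (nat_lit 43629) (.g (nat_lit 5208) (.e (nat_lit 1250) (nat_lit 92) (.e (nat_lit 98350) (nat_lit 24) (.e (nat_lit 409602) (nat_lit 0) (.e (nat_lit 5293) (nat_lit 298) (.e (nat_lit 1250) (nat_lit 92) (.e (nat_lit 98350) (nat_lit 24) (.e (nat_lit 409602) (nat_lit 0) (.e (nat_lit 5293) (nat_lit 298) .nil)))))))) (.g (nat_lit 0) .nil .nil)))) (.nd (nat_lit 5) 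
(.lf (nat_lit 43613) (.g (nat_lit 1202) (.e (nat_lit 1250) (nat_lit 92) (.e (nat_lit 98342) (nat_lit 20) (.e (nat_lit 221212) (nat_lit 22) (.e (nat_lit 196670) (nat_lit 14) .nil)))) .nil)) 
(.lf (nat_lit 43645) (.g (nat_lit 2600) (.e (nat_lit 1250) (nat_lit 92) (.e (nat_lit 98350) (nat_lit 24) (.e (nat_lit 409643) (nat_lit 18) (.e (nat_lit 303119) (nat_lit 3) (.e (nat_lit 204864) (nat_lit 27) (.e (nat_lit 352000) (nat_lit 8) .nil)))))) (.g (nat_lit 5) .nil .nil))))))) (.nd (nat_lit 2) (.nd (nat_lit 3) (.nd (nat_lit 4) (.nd (nat_lit 5) 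
(.lf (nat_lit 43587) (.g (nat_lit 1494) (.e (nat_lit 1250) (nat_lit 92) (.e (nat_lit 98341) (nat_lit 20) (.e (nat_lit 221215) (nat_lit 23) (.e (nat_lit 204863) (nat_lit 27) .nil)))) .nil)) 
(.lf (nat_lit 43619) (.g (nat_lit 2649) (.e (nat_lit 1250) (nat_lit 92) (.e (nat_lit 98342) (nat_lit 20) (.e (nat_lit 221215) (nat_lit 23) (.e (nat_lit 204850) (nat_lit 26) (.e (nat_lit 336013) (nat_lit 2) (.e (nat_lit 98048) (nat_lit 3) (.e (nat_lit 57569) (nat_lit 53) (.e (nat_lit 761866) (nat_lit 5) .nil)))))))) (.g (nat_lit 5) .nil .nil)))) (.nd (nat_lit 5) 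
(.lf (nat_lit 43603) (.g (nat_lit 1907) (.e (nat_lit 1250) (nat_lit 92) (.e (nat_lit 98342) (nat_lit 20) (.e (nat_lit 221212) (nat_lit 22) (.e (nat_lit 196668) (nat_lit 14) (.e (nat_lit 81664) (nat_lit 5) .nil))))) .nil)) 
(.lf (nat_lit 43635) (.g (nat_lit 1469) (.e (nat_lit 1250) (nat_lit 92) (.e (nat_lit 98350) (nat_lit 24) (.e (nat_lit 409616) (nat_lit 10) (.e (nat_lit 7936) (nat_lit 301) .nil)))) .nil)))) (.nd (nat_lit 4) (.nd (nat_lit 5) 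
(.lf (nat_lit 43595) (.g (nat_lit 3989) (.e (nat_lit 1250) (nat_lit 92) (.e (nat_lit 98342) (nat_lit 20) (.e (nat_lit 221210) (nat_lit 22) (.e (nat_lit 196668) (nat_lit 14) (.e (nat_lit 73750) (nat_lit 6) (.e (nat_lit 540675) (nat_lit 0) (.e (nat_lit 2270) (nat_lit 149) (.e (nat_lit 761866) (nat_lit 5) .nil)))))))) (.g (nat_lit 8) .nil .nil))) 
(.lf (nat_lit 43627) (.g (nat_lit 2549) (.e (nat_lit 1250) (nat_lit 92) (.e (nat_lit 98349) (nat_lit 24) (.e (nat_lit 409645) (nat_lit 18) (.e (nat_lit 303119) (nat_lit 3) (.e (nat_lit 204821) (nat_lit 17) (.e (nat_lit 6114) (nat_lit 332) (.e (nat_lit 2507) (nat_lit 157) (.e (nat_lit 5293) (nat_lit 298) .nil)))))))) (.g (nat_lit 4) .nil .nil)))) (.nd (nat_lit 5) 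
(.lf (nat_lit 43611) (.g (nat_lit 2169) (.e (nat_lit 1250) (nat_lit 92) (.e (nat_lit 98342) (nat_lit 20) (.e (nat_lit 221212) (nat_lit 22) (.e (nat_lit 196669) (nat_lit 14) (.e (nat_lit 81664) (nat_lit 5) (.e (nat_lit 532490) (nat_lit 0) (.e (nat_lit 2270) (nat_lit 149) (.e (nat_lit 761866) (nat_lit 5) .nil)))))))) (.g (nat_lit 4) .nil .nil))) 
(.lf (nat_lit 43643) (.g (nat_lit 5211) (.e (nat_lit 1250) (nat_lit 92) (.e (nat_lit 98350) (nat_lit 24) (.e (nat_lit 409641) (nat_lit 17) (.e (nat_lit 294931) (nat_lit 3) (.e (nat_lit 98350) (nat_lit 24) (.e (nat_lit 409623) (nat_lit 10) (.e (nat_lit 5293) (nat_lit 298) .nil))))))) (.g (nat_lit 0) .nil .nil)))))) (.nd (nat_lit 3) (.nd (nat_lit 4) (.nd (nat_lit 5) 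
(.lf (nat_lit 43591) (.g (nat_lit 2342) (.e (nat_lit 1250) (nat_lit 92) (.e (nat_lit 98342) (nat_lit 20) (.e (nat_lit 221210) (nat_lit 22) (.e (nat_lit 196668) (nat_lit 14) (.e (nat_lit 81664) (nat_lit 5) .nil))))) .nil)) 
(.lf (nat_lit 43623) (.g (nat_lit 2420) (.e (nat_lit 1250) (nat_lit 92) (.e (nat_lit 98342) (nat_lit 20) (.e (nat_lit 221215) (nat_lit 23) (.e (nat_lit 204863) (nat_lit 27) (.e (nat_lit 344123) (nat_lit 24) .nil))))) .nil))) (.nd (nat_lit 5) 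
(.lf (nat_lit 43607) (.g (nat_lit 2426) (.e (nat_lit 1250) (nat_lit 92) (.e (nat_lit 98342) (nat_lit 20) (.e (nat_lit 221212) (nat_lit 22) (.e (nat_lit 196668) (nat_lit 14) (.e (nat_lit 73750) (nat_lit 6) (.e (nat_lit 540674) (nat_lit 0) (.e (nat_lit 2270) (nat_lit 149) (.e (nat_lit 761867) (nat_lit 5) .nil)))))))) (.g (nat_lit 4) .nil .nil))) 
(.lf (nat_lit 43639) (.g (nat_lit 3123) (.e (nat_lit 1250) (nat_lit 92) (.e (nat_lit 98350) (nat_lit 24) (.e (nat_lit 409623) (nat_lit 10) (.e (nat_lit 5664) (nat_lit 312) (.e (nat_lit 2679) (nat_lit 168) (.e (nat_lit 204864) (nat_lit 27) (.e (nat_lit 352000) (nat_lit 8) .nil))))))) (.g (nat_lit 6) .nil .nil))))) (.nd (nat_lit 4) (.nd (nat_lit 5) 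
(.lf (nat_lit 43599) (.g (nat_lit 2727) (.e (nat_lit 1250) (nat_lit 92) (.e (nat_lit 98342) (nat_lit 20) (.e (nat_lit 221211) (nat_lit 22) (.e (nat_lit 196666) (nat_lit 13) (.e (nat_lit 65566) (nat_lit 2) .nil))))) .nil)) 
(.lf (nat_lit 43631) (.g (nat_lit 967) (.e (nat_lit 1250) (nat_lit 92) (.e (nat_lit 98350) (nat_lit 24) (.e (nat_lit 409603) (nat_lit 0) (.e (nat_lit 5293) (nat_lit 298) .nil)))) .nil))) (.nd (nat_lit 5) 
(.lf (nat_lit 43615) (.g (nat_lit 2216) (.e (nat_lit 1250) (nat_lit 92) (.e (nat_lit 98342) (nat_lit 20) (.e (nat_lit 221212) (nat_lit 22) (.e (nat_lit 196670) (nat_lit 14) (.e (nat_lit 73750) (nat_lit 6) (.e (nat_lit 540675) (nat_lit 0) (.e (nat_lit 2270) (nat_lit 149) (.e (nat_lit 761867) (nat_lit 5) .nil)))))))) (.g (nat_lit 4) .nil .nil))) 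
(.lf (nat_lit 43647) (.g (nat_lit 2143) (.e (nat_lit 1250) (nat_lit 92) (.e (nat_lit 98350) (nat_lit 24) (.e (nat_lit 409644) (nat_lit 18) (.e (nat_lit 303119) (nat_lit 3) (.e (nat_lit 204821) (nat_lit 17) .nil))))) .nil))))))))

noncomputable def tv607 : DT := (.nd (nat_lit 0) (.nd (nat_lit 1) (.nd (nat_lit 2) (.nd (nat_lit 3) (.nd (nat_lit 4) (.nd (nat_lit 5) (.nd (nat_lit 6) 
(.lf (nat_lit 43648) (.g (nat_lit 3593) (.e (nat_lit 1250) (nat_lit 92) (.e (nat_lit 98350) (nat_lit 24) (.e (nat_lit 409644) (nat_lit 18) (.e (nat_lit 303119) (nat_lit 3) (.e (nat_lit 204863) (nat_lit 27) (.e (nat_lit 352000) (nat_lit 8) .nil)))))) (.g (nat_lit 5) .nil .nil))) 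
(.lf (nat_lit 43712) (.g (nat_lit 2678) (.e (nat_lit 1250) (nat_lit 92) (.e (nat_lit 98356) (nat_lit 26) (.e (nat_lit 426428) (nat_lit 17) (.e (nat_lit 90170) (nat_lit 13) (.e (nat_lit 172065) (nat_lit 3) .nil))))) .nil))) (.nd (nat_lit 6) 
(.lf (nat_lit 43680) (.g (nat_lit 2513) (.e (nat_lit 1250) (nat_lit 92) (.e (nat_lit 98350) (nat_lit 24) (.e (nat_lit 409649) (nat_lit 18) (.e (nat_lit 303117) (nat_lit 2) (.e (nat_lit 196661) (nat_lit 12) .nil))))) .nil)) 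
(.lf (nat_lit 43744) (.g (nat_lit 1877) (.e (nat_lit 1250) (nat_lit 92) (.e (nat_lit 98368) (nat_lit 27) (.e (nat_lit 434245) (nat_lit 28) (.e (nat_lit 573488) (nat_lit 14) (.e (nat_lit 81664) (nat_lit 5) (.e (nat_lit 532519) (nat_lit 5) (.e (nat_lit 147459) (nat_lit 0) .nil))))))) (.g (nat_lit 4) .nil .nil))))) (.nd (nat_lit 5) (.nd (nat_lit 6) 
(.lf (nat_lit 43664) (.g (nat_lit 2145) (.e (nat_lit 1250) (nat_lit 92) (.e (nat_lit 98350) (nat_lit 24) (.e (nat_lit 409647) (nat_lit 18) (.e (nat_lit 303119) (nat_lit 3) (.e (nat_lit 204862) (nat_lit 27) .nil))))) .nil)) 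
(.lf (nat_lit 43728) (.g (nat_lit 2150) (.e (nat_lit 1250) (nat_lit 92) (.e (nat_lit 98366) (nat_lit 27) (.e (nat_lit 434231) (nat_lit 23) (.e (nat_lit 532514) (nat_lit 3) (.e (nat_lit 122624) (nat_lit 3) (.e (nat_lit 204842) (nat_lit 22) (.e (nat_lit 147458) (nat_lit 0) .nil))))))) (.g (nat_lit 4) .nil .nil)))) (.nd (nat_lit 6) 
(.lf (nat_lit 43696) (.g (nat_lit 1924) (.e (nat_lit 1250) (nat_lit 92) (.e (nat_lit 98350) (nat_lit 24) (.e (nat_lit 409650) (nat_lit 19) (.e (nat_lit 311315) (nat_lit 3) (.e (nat_lit 204864) (nat_lit 27) .nil))))) .nil)) 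
(.lf (nat_lit 43760) (.g (nat_lit 2045) (.e (nat_lit 1250) (nat_lit 92) (.e (nat_lit 98370) (nat_lit 28) (.e (nat_lit 442427) (nat_lit 23) (.e (nat_lit 204863) (nat_lit 27) .nil)))) .nil))))) (.nd (nat_lit 4) (.nd (nat_lit 5) (.nd (nat_lit 6) 
(.lf (nat_lit 43656) (.g (nat_lit 3492) (.e (nat_lit 1250) (nat_lit 92) (.e (nat_lit 98350) (nat_lit 24) (.e (nat_lit 409646) (nat_lit 18) (.e (nat_lit 303119) (nat_lit 3) (.e (nat_lit 204863) (nat_lit 27) (.e (nat_lit 352000) (nat_lit 8) .nil)))))) (.g (nat_lit 5) .nil .nil))) 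
(.lf (nat_lit 43720) (.g (nat_lit 2078) (.e (nat_lit 1250) (nat_lit 92) (.e (nat_lit 98356) (nat_lit 26) (.e (nat_lit 426438) (nat_lit 18) (.e (nat_lit 98367) (nat_lit 27) (.e (nat_lit 434231) (nat_lit 23) .nil))))) .nil))) (.nd (nat_lit 6) 
(.lf (nat_lit 43688) (.g (nat_lit 2308) (.e (nat_lit 1250) (nat_lit 92) (.e (nat_lit 98350) (nat_lit 24) (.e (nat_lit 409649) (nat_lit 18) (.e (nat_lit 303119) (nat_lit 3) (.e (nat_lit 204862) (nat_lit 27) (.e (nat_lit 352000) (nat_lit 8) .nil)))))) (.g (nat_lit 4) .nil .nil))) 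
(.lf (nat_lit 43752) (.g (nat_lit 3022) (.e (nat_lit 1250) (nat_lit 92) (.e (nat_lit 98369) (nat_lit 28) (.e (nat_lit 442425) (nat_lit 23) (.e (nat_lit 204846) (nat_lit 24) (.e (nat_lit 319511) (nat_lit 10) (.e (nat_lit 5293) (nat_lit 298) .nil)))))) (.g (nat_lit 6) .nil .nil))))) (.nd (nat_lit 5) (.nd (nat_lit 6) 
(.lf (nat_lit 43672) (.g (nat_lit 2665) (.e (nat_lit 1250) (nat_lit 92) (.e (nat_lit 98350) (nat_lit 24) (.e (nat_lit 409648) (nat_lit 18) (.e (nat_lit 303118) (nat_lit 3) (.e (nat_lit 204862) (nat_lit 27) (.e (nat_lit 352000) (nat_lit 8) .nil)))))) (.g (nat_lit 4) .nil .nil))) 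
(.lf (nat_lit 43736) (.g (nat_lit 2233) (.e (nat_lit 1250) (nat_lit 92) (.e (nat_lit 98367) (nat_lit 27) (.e (nat_lit 434247) (nat_lit 28) (.e (nat_lit 573489) (nat_lit 14) (.e (nat_lit 73755) (nat_lit 8) (.e (nat_lit 557089) (nat_lit 12) (.e (nat_lit 164007) (nat_lit 41) (.e (nat_lit 671488) (nat_lit 0) .nil)))))))) (.g (nat_lit 4) .nil .nil)))) (.nd (nat_lit 6) 
(.lf (nat_lit 43704) (.g (nat_lit 1726) (.e (nat_lit 1250) (nat_lit 92) (.e (nat_lit 98356) (nat_lit 26) (.e (nat_lit 426241) (nat_lit 9) (.e (nat_lit 426124) (nat_lit 2) (.e (nat_lit 196677) (nat_lit 16) (.e (nat_lit 123080) (nat_lit 177) (.e (nat_lit 57886) (nat_lit 270) .nil))))))) (.g (nat_lit 4) .nil .nil))) 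
(.lf (nat_lit 43768) (.g (nat_lit 3454) (.e (nat_lit 1250) (nat_lit 92) (.e (nat_lit 98372) (nat_lit 29) (.e (nat_lit 450579) (nat_lit 5) (.e (nat_lit 532482) (nat_lit 0) (.e (nat_lit 6221) (nat_lit 333) (.e (nat_lit 57884) (nat_lit 270) .nil)))))) (.g (nat_lit 0) .nil .nil))))))) (.nd (nat_lit 3) (.nd (nat_lit 4) (.nd (nat_lit 5) (.nd (nat_lit 6) 
(.lf (nat_lit 43652) (.g (nat_lit 3978) (.e (nat_lit 1250) (nat_lit 92) (.e (nat_lit 98350) (nat_lit 24) (.e (nat_lit 409645) (nat_lit 18) (.e (nat_lit 303119) (nat_lit 3) (.e (nat_lit 204863) (nat_lit 27) (.e (nat_lit 352000) (nat_lit 8) .nil)))))) (.g (nat_lit 5) .nil .nil))) 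
(.lf (nat_lit 43716) (.g (nat_lit 2998) (.e (nat_lit 1250) (nat_lit 92) (.e (nat_lit 98356) (nat_lit 26) (.e (nat_lit 426428) (nat_lit 17) (.e (nat_lit 90174) (nat_lit 14) (.e (nat_lit 180243) (nat_lit 5) (.e (nat_lit 532501) (nat_lit 1) (.e (nat_lit 57752) (nat_lit 209) (.e (nat_lit 1074) (nat_lit 81) .nil)))))))) (.g (nat_lit 5) .nil .nil)))) (.nd (nat_lit 6) 
(.lf (nat_lit 43684) (.g (nat_lit 3073) (.e (nat_lit 1250) (nat_lit 92) (.e (nat_lit 98350) (nat_lit 24) (.e (nat_lit 409649) (nat_lit 18) (.e (nat_lit 303118) (nat_lit 3) (.e (nat_lit 204863) (nat_lit 27) (.e (nat_lit 352000) (nat_lit 8) .nil)))))) (.g (nat_lit 5) .nil .nil))) 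
(.lf (nat_lit 43748) (.g (nat_lit 2081) (.e (nat_lit 1250) (nat_lit 92) (.e (nat_lit 98369) (nat_lit 28) (.e (nat_lit 442374) (nat_lit 0) (.e (nat_lit 1856) (nat_lit 124) (.e (nat_lit 557105) (nat_lit 14) (.e (nat_lit 188160) (nat_lit 32) .nil)))))) (.g (nat_lit 5) .nil .nil))))) (.nd (nat_lit 5) (.nd (nat_lit 6) 
(.lf (nat_lit 43668) (.g (nat_lit 1663) (.e (nat_lit 1250) (nat_lit 92) (.e (nat_lit 98350) (nat_lit 24) (.e (nat_lit 409648) (nat_lit 18) (.e (nat_lit 303109) (nat_lit 0) .nil)))) .nil)) 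
(.lf (nat_lit 43732) (.g (nat_lit 1772) (.e (nat_lit 1250) (nat_lit 92) (.e (nat_lit 98366) (nat_lit 27) (.e (nat_lit 434248) (nat_lit 28) (.e (nat_lit 573487) (nat_lit 14) (.e (nat_lit 81664) (nat_lit 5) .nil))))) .nil))) (.nd (nat_lit 6) 
(.lf (nat_lit 43700) (.g (nat_lit 388) (.e (nat_lit 1250) (nat_lit 92) (.e (nat_lit 98353) (nat_lit 25) (.e (nat_lit 417812) (nat_lit 7) .nil))) .nil)) 
(.lf (nat_lit 43764) (.g (nat_lit 3126) (.e (nat_lit 1250) (nat_lit 92) (.e (nat_lit 98372) (nat_lit 29) (.e (nat_lit 450579) (nat_lit 5) (.e (nat_lit 532480) (nat_lit 0) (.e (nat_lit 6212) (nat_lit 333) (.e (nat_lit 57884) (nat_lit 270) .nil)))))) (.g (nat_lit 0) .nil .nil)))))) (.nd (nat_lit 4) (.nd (nat_lit 5) (.nd (nat_lit 6) 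
(.lf (nat_lit 43660) (.g (nat_lit 3698) (.e (nat_lit 1250) (nat_lit 92) (.e (nat_lit 98350) (nat_lit 24) (.e (nat_lit 409647) (nat_lit 18) (.e (nat_lit 303117) (nat_lit 2) (.e (nat_lit 196670) (nat_lit 14) (.e (nat_lit 81664) (nat_lit 40) .nil)))))) (.g (nat_lit 5) .nil .nil))) 
(.lf (nat_lit 43724) (.g (nat_lit 2628) (.e (nat_lit 1250) (nat_lit 92) (.e (nat_lit 98359) (nat_lit 26) (.e (nat_lit 426338) (nat_lit 14) (.e (nat_lit 491540) (nat_lit 3) (.e (nat_lit 98350) (nat_lit 24) (.e (nat_lit 409602) (nat_lit 0) (.e (nat_lit 5293) (nat_lit 298) .nil))))))) (.g (nat_lit 4) .nil .nil)))) (.nd (nat_lit 6) 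
(.lf (nat_lit 43692) (.g (nat_lit 1529) (.e (nat_lit 1250) (nat_lit 92) (.e (nat_lit 98350) (nat_lit 24) (.e (nat_lit 409649) (nat_lit 18) (.e (nat_lit 303121) (nat_lit 5) .nil)))) .nil)) 
(.lf (nat_lit 43756) (.g (nat_lit 3333) (.e (nat_lit 1250) (nat_lit 92) (.e (nat_lit 98370) (nat_lit 28) (.e (nat_lit 442425) (nat_lit 23) (.e (nat_lit 204846) (nat_lit 24) (.e (nat_lit 319511) (nat_lit 10) (.e (nat_lit 5293) (nat_lit 298) .nil)))))) (.g (nat_lit 5) .nil .nil))))) (.nd (nat_lit 5) (.nd (nat_lit 6) 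
(.lf (nat_lit 43676) (.g (nat_lit 3398) (.e (nat_lit 1250) (nat_lit 92) (.e (nat_lit 98350) (nat_lit 24) (.e (nat_lit 409648) (nat_lit 18) (.e (nat_lit 303119) (nat_lit 3) (.e (nat_lit 204864) (nat_lit 27) (.e (nat_lit 352000) (nat_lit 8) .nil)))))) (.g (nat_lit 5) .nil .nil))) 
(.lf (nat_lit 43740) (.g (nat_lit 1792) (.e (nat_lit 1250) (nat_lit 92) (.e (nat_lit 98368) (nat_lit 27) (.e (nat_lit 434245) (nat_lit 28) (.e (nat_lit 573487) (nat_lit 14) (.e (nat_lit 81664) (nat_lit 5) .nil))))) .nil))) (.nd (nat_lit 6) 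
(.lf (nat_lit 43708) (.g (nat_lit 923) (.e (nat_lit 1250) (nat_lit 92) (.e (nat_lit 98356) (nat_lit 26) (.e (nat_lit 426270) (nat_lit 9) .nil))) .nil)) 
(.lf (nat_lit 43772) (.g (nat_lit 2896) (.e (nat_lit 1250) (nat_lit 92) (.e (nat_lit 98372) (nat_lit 29) (.e (nat_lit 450579) (nat_lit 5) (.e (nat_lit 532523) (nat_lit 7) (.e (nat_lit 319504) (nat_lit 10) (.e (nat_lit 7936) (nat_lit 298) .nil)))))) (.g (nat_lit 5) .nil .nil)))))))) (.nd (nat_lit 2) (.nd (nat_lit 3) (.nd (nat_lit 4) (.nd (nat_lit 5) (.nd (nat_lit 6) 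
(.lf (nat_lit 43650) (.g (nat_lit 2579) (.e (nat_lit 1250) (nat_lit 92) (.e (nat_lit 98350) (nat_lit 24) (.e (nat_lit 409645) (nat_lit 18) (.e (nat_lit 303112) (nat_lit 0) (.e (nat_lit 3252) (nat_lit 197) (.e (nat_lit 532545) (nat_lit 10) (.e (nat_lit 352000) (nat_lit 8) .nil))))))) (.g (nat_lit 4) .nil .nil))) 
(.lf (nat_lit 43714) (.g (nat_lit 1657) (.e (nat_lit 1250) (nat_lit 92) (.e (nat_lit 98356) (nat_lit 26) (.e (nat_lit 426428) (nat_lit 17) (.e (nat_lit 90174) (nat_lit 14) .nil)))) .nil))) (.nd (nat_lit 6) 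
(.lf (nat_lit 43682) (.g (nat_lit 2224) (.e (nat_lit 1250) (nat_lit 92) (.e (nat_lit 98350) (nat_lit 24) (.e (nat_lit 409649) (nat_lit 18) (.e (nat_lit 303118) (nat_lit 3) (.e (nat_lit 204846) (nat_lit 24) .nil))))) .nil)) 
(.lf (nat_lit 43746) (.g (nat_lit 2418) (.e (nat_lit 1250) (nat_lit 92) (.e (nat_lit 98368) (nat_lit 27) (.e (nat_lit 434248) (nat_lit 28) (.e (nat_lit 573487) (nat_lit 14) (.e (nat_lit 81664) (nat_lit 5) (.e (nat_lit 532519) (nat_lit 5) (.e (nat_lit 147459) (nat_lit 0) .nil))))))) (.g (nat_lit 4) .nil .nil))))) (.nd (nat_lit 5) (.nd (nat_lit 6) 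
(.lf (nat_lit 43666) (.g (nat_lit 3043) (.e (nat_lit 1250) (nat_lit 92) (.e (nat_lit 98350) (nat_lit 24) (.e (nat_lit 409647) (nat_lit 18) (.e (nat_lit 303119) (nat_lit 3) (.e (nat_lit 204864) (nat_lit 27) (.e (nat_lit 352000) (nat_lit 8) .nil)))))) (.g (nat_lit 5) .nil .nil))) 
(.lf (nat_lit 43730) (.g (nat_lit 3290) (.e (nat_lit 1250) (nat_lit 92) (.e (nat_lit 98366) (nat_lit 27) (.e (nat_lit 434244) (nat_lit 28) (.e (nat_lit 573451) (nat_lit 9) (.e (nat_lit 1449) (nat_lit 108) .nil))))) .nil))) (.nd (nat_lit 6) 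
(.lf (nat_lit 43698) (.g (nat_lit 4259) (.e (nat_lit 1250) (nat_lit 92) (.e (nat_lit 98353) (nat_lit 25) (.e (nat_lit 417809) (nat_lit 6) (.e (nat_lit 286735) (nat_lit 3) (.e (nat_lit 98350) (nat_lit 24) (.e (nat_lit 409602) (nat_lit 0) (.e (nat_lit 5293) (nat_lit 298) .nil))))))) (.g (nat_lit 0) .nil .nil))) 
(.lf (nat_lit 43762) (.g (nat_lit 358) (.e (nat_lit 1250) (nat_lit 92) (.e (nat_lit 98372) (nat_lit 29) (.e (nat_lit 450579) (nat_lit 5) .nil))) .nil))))) (.nd (nat_lit 4) (.nd (nat_lit 5) (.nd (nat_lit 6) 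
(.lf (nat_lit 43658) (.g (nat_lit 3307) (.e (nat_lit 1250) (nat_lit 92) (.e (nat_lit 98350) (nat_lit 24) (.e (nat_lit 409647) (nat_lit 18) (.e (nat_lit 303117) (nat_lit 2) (.e (nat_lit 196668) (nat_lit 14) (.e (nat_lit 81664) (nat_lit 40) .nil)))))) (.g (nat_lit 5) .nil .nil))) 
(.lf (nat_lit 43722) (.g (nat_lit 1974) (.e (nat_lit 1250) (nat_lit 92) (.e (nat_lit 98356) (nat_lit 26) (.e (nat_lit 426438) (nat_lit 18) (.e (nat_lit 98377) (nat_lit 30) (.e (nat_lit 458789) (nat_lit 23) .nil))))) .nil))) (.nd (nat_lit 6) 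
(.lf (nat_lit 43690) (.g (nat_lit 3035) (.e (nat_lit 1250) (nat_lit 92) (.e (nat_lit 98350) (nat_lit 24) (.e (nat_lit 409649) (nat_lit 18) (.e (nat_lit 303119) (nat_lit 3) (.e (nat_lit 204864) (nat_lit 27) (.e (nat_lit 352000) (nat_lit 8) .nil)))))) (.g (nat_lit 5) .nil .nil))) 
(.lf (nat_lit 43754) (.g (nat_lit 1336) (.e (nat_lit 1250) (nat_lit 92) (.e (nat_lit 98370) (nat_lit 28) (.e (nat_lit 442424) (nat_lit 22) (.e (nat_lit 196661) (nat_lit 12) .nil)))) .nil)))) (.nd (nat_lit 5) (.nd (nat_lit 6) 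
(.lf (nat_lit 43674) (.g (nat_lit 3303) (.e (nat_lit 1250) (nat_lit 92) (.e (nat_lit 98350) (nat_lit 24) (.e (nat_lit 409648) (nat_lit 18) (.e (nat_lit 303118) (nat_lit 3) (.e (nat_lit 204864) (nat_lit 27) (.e (nat_lit 352000) (nat_lit 8) .nil)))))) (.g (nat_lit 5) .nil .nil))) 
(.lf (nat_lit 43738) (.g (nat_lit 2893) (.e (nat_lit 1250) (nat_lit 92) (.e (nat_lit 98367) (nat_lit 27) (.e (nat_lit 434248) (nat_lit 28) (.e (nat_lit 573487) (nat_lit 14) (.e (nat_lit 81664) (nat_lit 5) .nil))))) .nil))) (.nd (nat_lit 6) 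
(.lf (nat_lit 43706) (.g (nat_lit 3621) (.e (nat_lit 1250) (nat_lit 92) (.e (nat_lit 98356) (nat_lit 26) (.e (nat_lit 426244) (nat_lit 9) (.e (nat_lit 426139) (nat_lit 3) (.e (nat_lit 204846) (nat_lit 24) (.e (nat_lit 319511) (nat_lit 10) (.e (nat_lit 5293) (nat_lit 298) .nil))))))) (.g (nat_lit 5) .nil .nil))) 
(.lf (nat_lit 43770) (.g (nat_lit 1719) (.e (nat_lit 1250) (nat_lit 92) (.e (nat_lit 98372) (nat_lit 29) (.e (nat_lit 450579) (nat_lit 5) (.e (nat_lit 532522) (nat_lit 7) (.e (nat_lit 319500) (nat_lit 10) (.e (nat_lit 5284) (nat_lit 298) .nil)))))) (.g (nat_lit 4) .nil .nil))))))) (.nd (nat_lit 3) (.nd (nat_lit 4) (.nd (nat_lit 5) (.nd (nat_lit 6) 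
(.lf (nat_lit 43654) (.g (nat_lit 447) (.e (nat_lit 1250) (nat_lit 92) (.e (nat_lit 98350) (nat_lit 24) (.e (nat_lit 409646) (nat_lit 18) .nil))) .nil)) 
(.lf (nat_lit 43718) (.g (nat_lit 945) (.e (nat_lit 1250) (nat_lit 92) (.e (nat_lit 98356) (nat_lit 26) (.e (nat_lit 426438) (nat_lit 18) .nil))) .nil))) (.nd (nat_lit 6) 
(.lf (nat_lit 43686) (.g (nat_lit 1229) (.e (nat_lit 1250) (nat_lit 92) (.e (nat_lit 98350) (nat_lit 24) (.e (nat_lit 409649) (nat_lit 18) (.e (nat_lit 303119) (nat_lit 3) .nil)))) .nil)) 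
(.lf (nat_lit 43750) (.g (nat_lit 1066) (.e (nat_lit 1250) (nat_lit 92) (.e (nat_lit 98369) (nat_lit 28) (.e (nat_lit 450304) (nat_lit 0) (.e (nat_lit 1849) (nat_lit 124) (.e (nat_lit 557104) (nat_lit 14) (.e (nat_lit 188160) (nat_lit 32) .nil)))))) (.g (nat_lit 5) .nil .nil))))) (.nd (nat_lit 5) (.nd (nat_lit 6) 
(.lf (nat_lit 43670) (.g (nat_lit 2530) (.e (nat_lit 1250) (nat_lit 92) (.e (nat_lit 98350) (nat_lit 24) (.e (nat_lit 409648) (nat_lit 18) (.e (nat_lit 303116) (nat_lit 2) (.e (nat_lit 196669) (nat_lit 14) .nil))))) .nil)) 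
(.lf (nat_lit 43734) (.g (nat_lit 3009) (.e (nat_lit 1250) (nat_lit 92) (.e (nat_lit 98367) (nat_lit 27) (.e (nat_lit 434231) (nat_lit 23) (.e (nat_lit 532513) (nat_lit 3) (.e (nat_lit 122624) (nat_lit 3) .nil))))) .nil))) (.nd (nat_lit 6) 
(.lf (nat_lit 43702) (.g (nat_lit 2024) (.e (nat_lit 1250) (nat_lit 92) (.e (nat_lit 98354) (nat_lit 26) (.e (nat_lit 426317) (nat_lit 12) (.e (nat_lit 475185) (nat_lit 29) (.e (nat_lit 557103) (nat_lit 14) (.e (nat_lit 188160) (nat_lit 32) .nil)))))) (.g (nat_lit 5) .nil .nil))) 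
(.lf (nat_lit 43766) (.g (nat_lit 1207) (.e (nat_lit 1250) (nat_lit 92) (.e (nat_lit 98372) (nat_lit 29) (.e (nat_lit 450579) (nat_lit 5) (.e (nat_lit 532482) (nat_lit 0) .nil)))) .nil))))) (.nd (nat_lit 4) (.nd (nat_lit 5) (.nd (nat_lit 6) 
(.lf (nat_lit 43662) (.g (nat_lit 2592) (.e (nat_lit 1250) (nat_lit 92) (.e (nat_lit 98350) (nat_lit 24) (.e (nat_lit 409647) (nat_lit 18) (.e (nat_lit 303118) (nat_lit 3) (.e (nat_lit 204863) (nat_lit 27) (.e (nat_lit 352000) (nat_lit 8) .nil)))))) (.g (nat_lit 5) .nil .nil))) 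
(.lf (nat_lit 43726) (.g (nat_lit 2531) (.e (nat_lit 1250) (nat_lit 92) (.e (nat_lit 98366) (nat_lit 27) (.e (nat_lit 434231) (nat_lit 23) (.e (nat_lit 532513) (nat_lit 3) (.e (nat_lit 122624) (nat_lit 3) (.e (nat_lit 204842) (nat_lit 22) (.e (nat_lit 147460) (nat_lit 0) .nil))))))) (.g (nat_lit 4) .nil .nil)))) (.nd (nat_lit 6) 
(.lf (nat_lit 43694) (.g (nat_lit 1820) (.e (nat_lit 1250) (nat_lit 92) (.e (nat_lit 98350) (nat_lit 24) (.e (nat_lit 417536) (nat_lit 18) (.e (nat_lit 303119) (nat_lit 3) (.e (nat_lit 204864) (nat_lit 27) (.e (nat_lit 352000) (nat_lit 8) .nil)))))) (.g (nat_lit 4) .nil .nil))) 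
(.lf (nat_lit 43758) (.g (nat_lit 2127) (.e (nat_lit 1250) (nat_lit 92) (.e (nat_lit 98370) (nat_lit 28) (.e (nat_lit 442427) (nat_lit 23) (.e (nat_lit 204845) (nat_lit 24) .nil)))) .nil)))) (.nd (nat_lit 5) (.nd (nat_lit 6) 
(.lf (nat_lit 43678) (.g (nat_lit 2034) (.e (nat_lit 1250) (nat_lit 92) (.e (nat_lit 98350) (nat_lit 24) (.e (nat_lit 409649) (nat_lit 18) (.e (nat_lit 303111) (nat_lit 0) (.e (nat_lit 3255) (nat_lit 197) .nil))))) .nil)) 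
(.lf (nat_lit 43742) (.g (nat_lit 2134) (.e (nat_lit 1250) (nat_lit 92) (.e (nat_lit 98368) (nat_lit 27) (.e (nat_lit 434245) (nat_lit 28) (.e (nat_lit 573487) (nat_lit 14) (.e (nat_lit 81664) (nat_lit 5) (.e (nat_lit 532519) (nat_lit 5) (.e (nat_lit 147459) (nat_lit 0) .nil))))))) (.g (nat_lit 4) .nil .nil)))) (.nd (nat_lit 6) 
(.lf (nat_lit 43710) (.g (nat_lit 3224) (.e (nat_lit 1250) (nat_lit 92) (.e (nat_lit 98356) (nat_lit 26) (.e (nat_lit 426270) (nat_lit 9) (.e (nat_lit 426139) (nat_lit 3) (.e (nat_lit 204846) (nat_lit 24) (.e (nat_lit 319511) (nat_lit 10) (.e (nat_lit 5293) (nat_lit 298) .nil))))))) (.g (nat_lit 5) .nil .nil))) 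
(.lf (nat_lit 43774) (.g (nat_lit 1927) (.e (nat_lit 1250) (nat_lit 92) (.e (nat_lit 98372) (nat_lit 29) (.e (nat_lit 450579) (nat_lit 5) (.e (nat_lit 532523) (nat_lit 7) (.e (nat_lit 327424) (nat_lit 10) .nil))))) .nil)))))))) (.nd (nat_lit 1) (.nd (nat_lit 2) (.nd (nat_lit 3) (.nd (nat_lit 4) (.nd (nat_lit 5) (.nd (nat_lit 6) 
(.lf (nat_lit 43649) (.g (nat_lit 2459) (.e (nat_lit 1250) (nat_lit 92) (.e (nat_lit 98350) (nat_lit 24) (.e (nat_lit 409644) (nat_lit 18) (.e (nat_lit 303119) (nat_lit 3) (.e (nat_lit 204864) (nat_lit 27) (.e (nat_lit 352000) (nat_lit 8) .nil)))))) (.g (nat_lit 4) .nil .nil))) 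
(.lf (nat_lit 43713) (.g (nat_lit 2519) (.e (nat_lit 1250) (nat_lit 92) (.e (nat_lit 98356) (nat_lit 26) (.e (nat_lit 426428) (nat_lit 17) (.e (nat_lit 90172) (nat_lit 14) (.e (nat_lit 188160) (nat_lit 3) (.e (nat_lit 516137) (nat_lit 6) (.e (nat_lit 262145) (nat_lit 0) .nil))))))) (.g (nat_lit 4) .nil .nil)))) (.nd (nat_lit 6) 
(.lf (nat_lit 43681) (.g (nat_lit 2807) (.e (nat_lit 1250) (nat_lit 92) (.e (nat_lit 98350) (nat_lit 24) (.e (nat_lit 409649) (nat_lit 18) (.e (nat_lit 303117) (nat_lit 2) (.e (nat_lit 196667) (nat_lit 14) .nil))))) .nil)) 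
(.lf (nat_lit 43745) (.g (nat_lit 2004) (.e (nat_lit 1250) (nat_lit 92) (.e (nat_lit 98368) (nat_lit 27) (.e (nat_lit 434248) (nat_lit 28) (.e (nat_lit 573487) (nat_lit 14) (.e (nat_lit 81664) (nat_lit 5) .nil))))) .nil)))) (.nd (nat_lit 5) (.nd (nat_lit 6) 
(.lf (nat_lit 43665) (.g (nat_lit 3664) (.e (nat_lit 1250) (nat_lit 92) (.e (nat_lit 98350) (nat_lit 24) (.e (nat_lit 409647) (nat_lit 18) (.e (nat_lit 303119) (nat_lit 3) (.e (nat_lit 204863) (nat_lit 27) (.e (nat_lit 352000) (nat_lit 8) .nil)))))) (.g (nat_lit 5) .nil .nil))) 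
(.lf (nat_lit 43729) (.g (nat_lit 2639) (.e (nat_lit 1250) (nat_lit 92) (.e (nat_lit 98366) (nat_lit 27) (.e (nat_lit 434231) (nat_lit 23) (.e (nat_lit 532514) (nat_lit 3) (.e (nat_lit 122624) (nat_lit 3) (.e (nat_lit 204842) (nat_lit 22) (.e (nat_lit 147459) (nat_lit 0) .nil))))))) (.g (nat_lit 4) .nil .nil)))) (.nd (nat_lit 6) 
(.lf (nat_lit 43697) (.g (nat_lit 3008) (.e (nat_lit 1250) (nat_lit 92) (.e (nat_lit 98353) (nat_lit 25) (.e (nat_lit 417809) (nat_lit 6) (.e (nat_lit 286733) (nat_lit 2) (.e (nat_lit 90174) (nat_lit 14) (.e (nat_lit 188160) (nat_lit 32) .nil)))))) (.g (nat_lit 5) .nil .nil))) 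
(.lf (nat_lit 43761) (.g (nat_lit 746) (.e (nat_lit 1250) (nat_lit 92) (.e (nat_lit 98370) (nat_lit 28) (.e (nat_lit 442433) (nat_lit 25) .nil))) .nil))))) (.nd (nat_lit 4) (.nd (nat_lit 5) (.nd (nat_lit 6) 
(.lf (nat_lit 43657) (.g (nat_lit 2488) (.e (nat_lit 1250) (nat_lit 92) (.e (nat_lit 98350) (nat_lit 24) (.e (nat_lit 409646) (nat_lit 18) (.e (nat_lit 303119) (nat_lit 3) (.e (nat_lit 204864) (nat_lit 27) (.e (nat_lit 352000) (nat_lit 8) .nil)))))) (.g (nat_lit 4) .nil .nil))) 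
(.lf (nat_lit 43721) (.g (nat_lit 1613) (.e (nat_lit 1250) (nat_lit 92) (.e (nat_lit 98356) (nat_lit 26) (.e (nat_lit 426438) (nat_lit 18) (.e (nat_lit 98376) (nat_lit 30) .nil)))) .nil))) (.nd (nat_lit 6) 
(.lf (nat_lit 43689) (.g (nat_lit 3738) (.e (nat_lit 1250) (nat_lit 92) (.e (nat_lit 98350) (nat_lit 24) (.e (nat_lit 409649) (nat_lit 18) (.e (nat_lit 303119) (nat_lit 3) (.e (nat_lit 204863) (nat_lit 27) (.e (nat_lit 352000) (nat_lit 8) .nil)))))) (.g (nat_lit 5) .nil .nil))) 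
(.lf (nat_lit 43753) (.g (nat_lit 1570) (.e (nat_lit 1250) (nat_lit 92) (.e (nat_lit 98370) (nat_lit 28) (.e (nat_lit 442424) (nat_lit 22) (.e (nat_lit 196628) (nat_lit 9) .nil)))) .nil)))) (.nd (nat_lit 5) (.nd (nat_lit 6) 
(.lf (nat_lit 43673) (.g (nat_lit 3424) (.e (nat_lit 1250) (nat_lit 92) (.e (nat_lit 98350) (nat_lit 24) (.e (nat_lit 409648) (nat_lit 18) (.e (nat_lit 303118) (nat_lit 3) (.e (nat_lit 204863) (nat_lit 27) (.e (nat_lit 352000) (nat_lit 8) .nil)))))) (.g (nat_lit 5) .nil .nil))) 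
(.lf (nat_lit 43737) (.g (nat_lit 868) (.e (nat_lit 1250) (nat_lit 92) (.e (nat_lit 98367) (nat_lit 27) (.e (nat_lit 434248) (nat_lit 28) .nil))) .nil))) (.nd (nat_lit 6) 
(.lf (nat_lit 43705) (.g (nat_lit 2265) (.e (nat_lit 1250) (nat_lit 92) (.e (nat_lit 98356) (nat_lit 26) (.e (nat_lit 426244) (nat_lit 9) (.e (nat_lit 426124) (nat_lit 2) (.e (nat_lit 196677) (nat_lit 16) (.e (nat_lit 123080) (nat_lit 177) (.e (nat_lit 57887) (nat_lit 270) .nil))))))) (.g (nat_lit 4) .nil .nil))) 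
(.lf (nat_lit 43769) (.g (nat_lit 2327) (.e (nat_lit 1250) (nat_lit 92) (.e (nat_lit 98372) (nat_lit 29) (.e (nat_lit 450579) (nat_lit 5) (.e (nat_lit 532486) (nat_lit 0) (.e (nat_lit 6218) (nat_lit 333) (.e (nat_lit 57887) (nat_lit 270) .nil)))))) (.g (nat_lit 4) .nil .nil))))))) (.nd (nat_lit 3) (.nd (nat_lit 4) (.nd (nat_lit 5) (.nd (nat_lit 6) 
(.lf (nat_lit 43653) (.g (nat_lit 2796) (.e (nat_lit 1250) (nat_lit 92) (.e (nat_lit 98350) (nat_lit 24) (.e (nat_lit 409645) (nat_lit 18) (.e (nat_lit 303119) (nat_lit 3) (.e (nat_lit 204864) (nat_lit 27) (.e (nat_lit 352000) (nat_lit 8) .nil)))))) (.g (nat_lit 4) .nil .nil))) 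
(.lf (nat_lit 43717) (.g (nat_lit 3282) (.e (nat_lit 1250) (nat_lit 92) (.e (nat_lit 98356) (nat_lit 26) (.e (nat_lit 426428) (nat_lit 17) (.e (nat_lit 90174) (nat_lit 14) (.e (nat_lit 180243) (nat_lit 5) (.e (nat_lit 532501) (nat_lit 1) (.e (nat_lit 57756) (nat_lit 209) (.e (nat_lit 1074) (nat_lit 81) .nil)))))))) (.g (nat_lit 5) .nil .nil)))) (.nd (nat_lit 6) 
(.lf (nat_lit 43685) (.g (nat_lit 2601) (.e (nat_lit 1250) (nat_lit 92) (.e (nat_lit 98350) (nat_lit 24) (.e (nat_lit 409649) (nat_lit 18) (.e (nat_lit 303118) (nat_lit 3) (.e (nat_lit 204864) (nat_lit 27) (.e (nat_lit 352000) (nat_lit 8) .nil)))))) (.g (nat_lit 4) .nil .nil))) 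
(.lf (nat_lit 43749) (.g (nat_lit 1258) (.e (nat_lit 1250) (nat_lit 92) (.e (nat_lit 98369) (nat_lit 28) (.e (nat_lit 450304) (nat_lit 0) (.e (nat_lit 1848) (nat_lit 124) (.e (nat_lit 557104) (nat_lit 14) (.e (nat_lit 188160) (nat_lit 32) .nil)))))) (.g (nat_lit 5) .nil .nil))))) (.nd (nat_lit 5) (.nd (nat_lit 6) 
(.lf (nat_lit 43669) (.g (nat_lit 2782) (.e (nat_lit 1250) (nat_lit 92) (.e (nat_lit 98350) (nat_lit 24) (.e (nat_lit 409648) (nat_lit 18) (.e (nat_lit 303116) (nat_lit 2) (.e (nat_lit 196668) (nat_lit 14) .nil))))) .nil)) 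
(.lf (nat_lit 43733) (.g (nat_lit 1896) (.e (nat_lit 1250) (nat_lit 92) (.e (nat_lit 98366) (nat_lit 27) (.e (nat_lit 434248) (nat_lit 28) (.e (nat_lit 573487) (nat_lit 14) (.e (nat_lit 81664) (nat_lit 5) (.e (nat_lit 532519) (nat_lit 5) (.e (nat_lit 147458) (nat_lit 0) .nil))))))) (.g (nat_lit 4) .nil .nil)))) (.nd (nat_lit 6) 
(.lf (nat_lit 43701) (.g (nat_lit 2738) (.e (nat_lit 1250) (nat_lit 92) (.e (nat_lit 98353) (nat_lit 25) (.e (nat_lit 417813) (nat_lit 9) (.e (nat_lit 311315) (nat_lit 3) (.e (nat_lit 204846) (nat_lit 24) (.e (nat_lit 319511) (nat_lit 10) (.e (nat_lit 5293) (nat_lit 298) .nil))))))) (.g (nat_lit 0) .nil .nil))) 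
(.lf (nat_lit 43765) (.g (nat_lit 2302) (.e (nat_lit 1250) (nat_lit 92) (.e (nat_lit 98372) (nat_lit 29) (.e (nat_lit 450579) (nat_lit 5) (.e (nat_lit 532480) (nat_lit 0) (.e (nat_lit 6224) (nat_lit 334) (.e (nat_lit 123205) (nat_lit 270) .nil)))))) (.g (nat_lit 0) .nil .nil)))))) (.nd (nat_lit 4) (.nd (nat_lit 5) (.nd (nat_lit 6) 
(.lf (nat_lit 43661) (.g (nat_lit 2281) (.e (nat_lit 1250) (nat_lit 92) (.e (nat_lit 98350) (nat_lit 24) (.e (nat_lit 409647) (nat_lit 18) (.e (nat_lit 303118) (nat_lit 3) (.e (nat_lit 204862) (nat_lit 27) (.e (nat_lit 352000) (nat_lit 8) .nil)))))) (.g (nat_lit 4) .nil .nil))) 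
(.lf (nat_lit 43725) (.g (nat_lit 2603) (.e (nat_lit 1250) (nat_lit 92) (.e (nat_lit 98366) (nat_lit 27) (.e (nat_lit 434231) (nat_lit 23) (.e (nat_lit 532513) (nat_lit 3) (.e (nat_lit 122624) (nat_lit 3) (.e (nat_lit 204842) (nat_lit 22) (.e (nat_lit 147458) (nat_lit 0) .nil))))))) (.g (nat_lit 4) .nil .nil)))) (.nd (nat_lit 6) 
(.lf (nat_lit 43693) (.g (nat_lit 2958) (.e (nat_lit 1250) (nat_lit 92) (.e (nat_lit 98350) (nat_lit 24) (.e (nat_lit 417536) (nat_lit 18) (.e (nat_lit 303119) (nat_lit 3) (.e (nat_lit 204863) (nat_lit 27) (.e (nat_lit 352000) (nat_lit 8) .nil)))))) (.g (nat_lit 5) .nil .nil))) 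
(.lf (nat_lit 43757) (.g (nat_lit 1559) (.e (nat_lit 1250) (nat_lit 92) (.e (nat_lit 98370) (nat_lit 28) (.e (nat_lit 442427) (nat_lit 23) (.e (nat_lit 204821) (nat_lit 17) .nil)))) .nil)))) (.nd (nat_lit 5) (.nd (nat_lit 6) 
(.lf (nat_lit 43677) (.g (nat_lit 1360) (.e (nat_lit 1250) (nat_lit 92) (.e (nat_lit 98350) (nat_lit 24) (.e (nat_lit 409649) (nat_lit 18) (.e (nat_lit 303111) (nat_lit 0) .nil)))) .nil)) 
(.lf (nat_lit 43741) (.g (nat_lit 2302) (.e (nat_lit 1250) (nat_lit 92) (.e (nat_lit 98368) (nat_lit 27) (.e (nat_lit 434245) (nat_lit 28) (.e (nat_lit 573487) (nat_lit 14) (.e (nat_lit 81664) (nat_lit 5) (.e (nat_lit 532519) (nat_lit 5) (.e (nat_lit 147458) (nat_lit 0) .nil))))))) (.g (nat_lit 4) .nil .nil)))) (.nd (nat_lit 6) 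
(.lf (nat_lit 43709) (.g (nat_lit 2156) (.e (nat_lit 1250) (nat_lit 92) (.e (nat_lit 98356) (nat_lit 26) (.e (nat_lit 426270) (nat_lit 9) (.e (nat_lit 426124) (nat_lit 2) (.e (nat_lit 196677) (nat_lit 16) (.e (nat_lit 123080) (nat_lit 177) (.e (nat_lit 57887) (nat_lit 270) .nil))))))) (.g (nat_lit 4) .nil .nil))) 
(.lf (nat_lit 43773) (.g (nat_lit 2380) (.e (nat_lit 1250) (nat_lit 92) (.e (nat_lit 98372) (nat_lit 29) (.e (nat_lit 450579) (nat_lit 5) (.e (nat_lit 532523) (nat_lit 7) (.e (nat_lit 319505) (nat_lit 10) .nil))))) .nil))))))) (.nd (nat_lit 2) (.nd (nat_lit 3) (.nd (nat_lit 4) (.nd (nat_lit 5) (.nd (nat_lit 6) 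
(.lf (nat_lit 43651) (.g (nat_lit 2161) (.e (nat_lit 1250) (nat_lit 92) (.e (nat_lit 98350) (nat_lit 24) (.e (nat_lit 409645) (nat_lit 18) (.e (nat_lit 303119) (nat_lit 3) (.e (nat_lit 204821) (nat_lit 17) .nil))))) .nil)) 
(.lf (nat_lit 43715) (.g (nat_lit 2375) (.e (nat_lit 1250) (nat_lit 92) (.e (nat_lit 98356) (nat_lit 26) (.e (nat_lit 426428) (nat_lit 17) (.e (nat_lit 90174) (nat_lit 14) (.e (nat_lit 188160) (nat_lit 3) (.e (nat_lit 516137) (nat_lit 6) (.e (nat_lit 262145) (nat_lit 0) .nil))))))) (.g (nat_lit 4) .nil .nil)))) (.nd (nat_lit 6) 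
(.lf (nat_lit 43683) (.g (nat_lit 2477) (.e (nat_lit 1250) (nat_lit 92) (.e (nat_lit 98350) (nat_lit 24) (.e (nat_lit 409649) (nat_lit 18) (.e (nat_lit 303118) (nat_lit 3) (.e (nat_lit 204862) (nat_lit 27) (.e (nat_lit 352000) (nat_lit 8) .nil)))))) (.g (nat_lit 4) .nil .nil))) 
(.lf (nat_lit 43747) (.g (nat_lit 2036) (.e (nat_lit 1250) (nat_lit 92) (.e (nat_lit 98368) (nat_lit 27) (.e (nat_lit 434248) (nat_lit 28) (.e (nat_lit 573489) (nat_lit 14) (.e (nat_lit 81664) (nat_lit 5) .nil))))) .nil)))) (.nd (nat_lit 5) (.nd (nat_lit 6) 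
(.lf (nat_lit 43667) (.g (nat_lit 1663) (.e (nat_lit 1250) (nat_lit 92) (.e (nat_lit 98350) (nat_lit 24) (.e (nat_lit 409648) (nat_lit 18) (.e (nat_lit 303108) (nat_lit 0) .nil)))) .nil)) 
(.lf (nat_lit 43731) (.g (nat_lit 2718) (.e (nat_lit 1250) (nat_lit 92) (.e (nat_lit 98366) (nat_lit 27) (.e (nat_lit 434244) (nat_lit 28) (.e (nat_lit 573487) (nat_lit 14) (.e (nat_lit 81664) (nat_lit 5) .nil))))) .nil))) (.nd (nat_lit 6) 
(.lf (nat_lit 43699) (.g (nat_lit 3736) (.e (nat_lit 1250) (nat_lit 92) (.e (nat_lit 98353) (nat_lit 25) (.e (nat_lit 417810) (nat_lit 6) (.e (nat_lit 286733) (nat_lit 2) (.e (nat_lit 90174) (nat_lit 14) (.e (nat_lit 188160) (nat_lit 32) .nil)))))) (.g (nat_lit 5) .nil .nil))) 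
(.lf (nat_lit 43763) (.g (nat_lit 1325) (.e (nat_lit 1250) (nat_lit 92) (.e (nat_lit 98372) (nat_lit 29) (.e (nat_lit 450579) (nat_lit 5) (.e (nat_lit 532480) (nat_lit 0) .nil)))) .nil))))) (.nd (nat_lit 4) (.nd (nat_lit 5) (.nd (nat_lit 6) 
(.lf (nat_lit 43659) (.g (nat_lit 2642) (.e (nat_lit 1250) (nat_lit 92) (.e (nat_lit 98350) (nat_lit 24) (.e (nat_lit 409647) (nat_lit 18) (.e (nat_lit 303117) (nat_lit 2) (.e (nat_lit 196669) (nat_lit 14) (.e (nat_lit 81664) (nat_lit 40) .nil)))))) (.g (nat_lit 4) .nil .nil))) 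
(.lf (nat_lit 43723) (.g (nat_lit 1609) (.e (nat_lit 1250) (nat_lit 92) (.e (nat_lit 98359) (nat_lit 26) (.e (nat_lit 426286) (nat_lit 10) (.e (nat_lit 434245) (nat_lit 28) .nil)))) .nil))) (.nd (nat_lit 6) 
(.lf (nat_lit 43691) (.g (nat_lit 2650) (.e (nat_lit 1250) (nat_lit 92) (.e (nat_lit 98350) (nat_lit 24) (.e (nat_lit 409649) (nat_lit 18) (.e (nat_lit 303119) (nat_lit 3) (.e (nat_lit 204874) (nat_lit 30) .nil))))) .nil)) 
(.lf (nat_lit 43755) (.g (nat_lit 1934) (.e (nat_lit 1250) (nat_lit 92) (.e (nat_lit 98370) (nat_lit 28) (.e (nat_lit 442424) (nat_lit 22) (.e (nat_lit 196661) (nat_lit 12) (.e (nat_lit 57721) (nat_lit 177) (.e (nat_lit 57887) (nat_lit 270) .nil)))))) (.g (nat_lit 4) .nil .nil))))) (.nd (nat_lit 5) (.nd (nat_lit 6) 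
(.lf (nat_lit 43675) (.g (nat_lit 4393) (.e (nat_lit 1250) (nat_lit 92) (.e (nat_lit 98350) (nat_lit 24) (.e (nat_lit 409648) (nat_lit 18) (.e (nat_lit 303119) (nat_lit 3) (.e (nat_lit 204863) (nat_lit 27) (.e (nat_lit 352000) (nat_lit 8) .nil)))))) (.g (nat_lit 5) .nil .nil))) 
(.lf (nat_lit 43739) (.g (nat_lit 1729) (.e (nat_lit 1250) (nat_lit 92) (.e (nat_lit 98367) (nat_lit 27) (.e (nat_lit 434248) (nat_lit 28) (.e (nat_lit 573489) (nat_lit 14) .nil)))) .nil))) (.nd (nat_lit 6) 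
(.lf (nat_lit 43707) (.g (nat_lit 921) (.e (nat_lit 1250) (nat_lit 92) (.e (nat_lit 98356) (nat_lit 26) (.e (nat_lit 426255) (nat_lit 9) .nil))) .nil)) 
(.lf (nat_lit 43771) (.g (nat_lit 1963) (.e (nat_lit 1250) (nat_lit 92) (.e (nat_lit 98372) (nat_lit 29) (.e (nat_lit 450579) (nat_lit 5) (.e (nat_lit 532523) (nat_lit 7) (.e (nat_lit 319504) (nat_lit 10) .nil))))) .nil)))))) (.nd (nat_lit 3) (.nd (nat_lit 4) (.nd (nat_lit 5) (.nd (nat_lit 6) 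
(.lf (nat_lit 43655) (.g (nat_lit 2379) (.e (nat_lit 1250) (nat_lit 92) (.e (nat_lit 98350) (nat_lit 24) (.e (nat_lit 409646) (nat_lit 18) (.e (nat_lit 303119) (nat_lit 3) (.e (nat_lit 204821) (nat_lit 17) .nil))))) .nil)) 
(.lf (nat_lit 43719) (.g (nat_lit 2832) (.e (nat_lit 1250) (nat_lit 92) (.e (nat_lit 98356) (nat_lit 26) (.e (nat_lit 426438) (nat_lit 18) (.e (nat_lit 98367) (nat_lit 27) (.e (nat_lit 434229) (nat_lit 22) .nil))))) .nil))) (.nd (nat_lit 6) 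
(.lf (nat_lit 43687) (.g (nat_lit 3708) (.e (nat_lit 1250) (nat_lit 92) (.e (nat_lit 98350) (nat_lit 24) (.e (nat_lit 409649) (nat_lit 18) (.e (nat_lit 303119) (nat_lit 3) (.e (nat_lit 204819) (nat_lit 17) (.e (nat_lit 6113) (nat_lit 332) (.e (nat_lit 2507) (nat_lit 157) (.e (nat_lit 5293) (nat_lit 298) .nil)))))))) (.g (nat_lit 6) .nil .nil))) 
(.lf (nat_lit 43751) (.g (nat_lit 918) (.e (nat_lit 1250) (nat_lit 92) (.e (nat_lit 98369) (nat_lit 28) (.e (nat_lit 442424) (nat_lit 22) (.e (nat_lit 204544) (nat_lit 21) .nil)))) .nil)))) (.nd (nat_lit 5) (.nd (nat_lit 6) 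
(.lf (nat_lit 43671) (.g (nat_lit 2849) (.e (nat_lit 1250) (nat_lit 92) (.e (nat_lit 98350) (nat_lit 24) (.e (nat_lit 409648) (nat_lit 18) (.e (nat_lit 303117) (nat_lit 2) (.e (nat_lit 196661) (nat_lit 12) .nil))))) .nil)) 
(.lf (nat_lit 43735) (.g (nat_lit 1950) (.e (nat_lit 1250) (nat_lit 92) (.e (nat_lit 98367) (nat_lit 27) (.e (nat_lit 434231) (nat_lit 23) (.e (nat_lit 532514) (nat_lit 3) .nil)))) .nil))) (.nd (nat_lit 6) 
(.lf (nat_lit 43703) (.g (nat_lit 2141) (.e (nat_lit 1250) (nat_lit 92) (.e (nat_lit 98354) (nat_lit 26) (.e (nat_lit 426317) (nat_lit 12) (.e (nat_lit 475185) (nat_lit 29) (.e (nat_lit 557105) (nat_lit 14) (.e (nat_lit 188160) (nat_lit 32) .nil)))))) (.g (nat_lit 5) .nil .nil))) 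
(.lf (nat_lit 43767) (.g (nat_lit 3024) (.e (nat_lit 1250) (nat_lit 92) (.e (nat_lit 98372) (nat_lit 29) (.e (nat_lit 450579) (nat_lit 5) (.e (nat_lit 532482) (nat_lit 0) (.e (nat_lit 6220) (nat_lit 333) (.e (nat_lit 57884) (nat_lit 270) .nil)))))) (.g (nat_lit 0) .nil .nil)))))) (.nd (nat_lit 4) (.nd (nat_lit 5) (.nd (nat_lit 6) 
(.lf (nat_lit 43663) (.g (nat_lit 2568) (.e (nat_lit 1250) (nat_lit 92) (.e (nat_lit 98350) (nat_lit 24) (.e (nat_lit 409647) (nat_lit 18) (.e (nat_lit 303118) (nat_lit 3) (.e (nat_lit 204864) (nat_lit 27) (.e (nat_lit 352000) (nat_lit 8) .nil)))))) (.g (nat_lit 5) .nil .nil))) 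
(.lf (nat_lit 43727) (.g (nat_lit 2130) (.e (nat_lit 1250) (nat_lit 92) (.e (nat_lit 98366) (nat_lit 27) (.e (nat_lit 434231) (nat_lit 23) (.e (nat_lit 532514) (nat_lit 3) (.e (nat_lit 122624) (nat_lit 3) .nil))))) .nil))) (.nd (nat_lit 6) 
(.lf (nat_lit 43695) (.g (nat_lit 2748) (.e (nat_lit 1250) (nat_lit 92) (.e (nat_lit 98350) (nat_lit 24) (.e (nat_lit 409650) (nat_lit 19) (.e (nat_lit 311315) (nat_lit 3) (.e (nat_lit 204863) (nat_lit 27) (.e (nat_lit 352000) (nat_lit 8) .nil)))))) (.g (nat_lit 4) .nil .nil))) 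
(.lf (nat_lit 43759) (.g (nat_lit 4389) (.e (nat_lit 1250) (nat_lit 92) (.e (nat_lit 98370) (nat_lit 28) (.e (nat_lit 442427) (nat_lit 23) (.e (nat_lit 204846) (nat_lit 24) (.e (nat_lit 319511) (nat_lit 10) (.e (nat_lit 5293) (nat_lit 298) .nil)))))) (.g (nat_lit 6) .nil .nil))))) (.nd (nat_lit 5) (.nd (nat_lit 6) 
(.lf (nat_lit 43679) (.g (nat_lit 2568) (.e (nat_lit 1250) (nat_lit 92) (.e (nat_lit 98350) (nat_lit 24) (.e (nat_lit 409649) (nat_lit 18) (.e (nat_lit 303116) (nat_lit 2) (.e (nat_lit 196668) (nat_lit 14) .nil))))) .nil)) 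
(.lf (nat_lit 43743) (.g (nat_lit 2045) (.e (nat_lit 1250) (nat_lit 92) (.e (nat_lit 98368) (nat_lit 27) (.e (nat_lit 434245) (nat_lit 28) (.e (nat_lit 573488) (nat_lit 14) (.e (nat_lit 81664) (nat_lit 5) (.e (nat_lit 532519) (nat_lit 5) (.e (nat_lit 147458) (nat_lit 0) .nil))))))) (.g (nat_lit 4) .nil .nil)))) (.nd (nat_lit 6) 
(.lf (nat_lit 43711) (.g (nat_lit 918) (.e (nat_lit 1250) (nat_lit 92) (.e (nat_lit 98356) (nat_lit 26) (.e (nat_lit 426428) (nat_lit 17) .nil))) .nil)) 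
(.lf (nat_lit 43775) (.g (nat_lit 1826) (.e (nat_lit 1250) (nat_lit 92) (.e (nat_lit 98372) (nat_lit 29) (.e (nat_lit 450579) (nat_lit 5) (.e (nat_lit 532525) (nat_lit 8) (.e (nat_lit 327705) (nat_lit 10) .nil))))) .nil)))))))))

noncomputable def tv608 : DT := (.nd (nat_lit 0) (.nd (nat_lit 1) (.nd (nat_lit 2) (.nd (nat_lit 3) (.nd (nat_lit 4) (.nd (nat_lit 5) (.nd (nat_lit 6) 
(.lf (nat_lit 43776) (.g (nat_lit 2309) (.e (nat_lit 1250) (nat_lit 92) (.e (nat_lit 98372) (nat_lit 29) (.e (nat_lit 450579) (nat_lit 5) (.e (nat_lit 532525) (nat_lit 8) (.e (nat_lit 335616) (nat_lit 10) (.e (nat_lit 5293) (nat_lit 298) .nil)))))) (.g (nat_lit 4) .nil .nil))) 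
(.lf (nat_lit 43840) (.g (nat_lit 2829) (.e (nat_lit 1250) (nat_lit 92) (.e (nat_lit 98373) (nat_lit 29) (.e (nat_lit 450588) (nat_lit 10) (.e (nat_lit 573451) (nat_lit 9) .nil)))) .nil))) (.nd (nat_lit 6) 
(.lf (nat_lit 43808) (.g (nat_lit 2429) (.e (nat_lit 1250) (nat_lit 92) (.e (nat_lit 98372) (nat_lit 29) (.e (nat_lit 450586) (nat_lit 10) (.e (nat_lit 573452) (nat_lit 9) (.e (nat_lit 13) (nat_lit 0) (.e (nat_lit 7081) (nat_lit 378) (.e (nat_lit 57884) (nat_lit 270) .nil))))))) (.g (nat_lit 0) .nil .nil))) 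
(.lf (nat_lit 43872) (.g (nat_lit 3107) (.e (nat_lit 1250) (nat_lit 92) (.e (nat_lit 98384) (nat_lit 32) (.e (nat_lit 475177) (nat_lit 24) (.e (nat_lit 516169) (nat_lit 13) (.e (nat_lit 458789) (nat_lit 23) (.e (nat_lit 532501) (nat_lit 1) (.e (nat_lit 57753) (nat_lit 209) (.e (nat_lit 1074) (nat_lit 81) .nil)))))))) (.g (nat_lit 4) .nil .nil))))) (.nd (nat_lit 5) (.nd (nat_lit 6) 
(.lf (nat_lit 43792) (.g (nat_lit 2080) (.e (nat_lit 1250) (nat_lit 92) (.e (nat_lit 98372) (nat_lit 29) (.e (nat_lit 450579) (nat_lit 5) (.e (nat_lit 532553) (nat_lit 13) (.e (nat_lit 368662) (nat_lit 18) (.e (nat_lit 4776) (nat_lit 281) (.e (nat_lit 1074) (nat_lit 81) .nil))))))) (.g (nat_lit 4) .nil .nil))) 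
(.lf (nat_lit 43856) (.g (nat_lit 3693) (.e (nat_lit 1250) (nat_lit 92) (.e (nat_lit 98373) (nat_lit 29) (.e (nat_lit 450588) (nat_lit 10) (.e (nat_lit 573475) (nat_lit 12) (.e (nat_lit 57347) (nat_lit 0) (.e (nat_lit 7265) (nat_lit 384) (.e (nat_lit 57354) (nat_lit 0) (.e (nat_lit 7936) (nat_lit 343) .nil)))))))) (.g (nat_lit 4) .nil .nil)))) (.nd (nat_lit 6) 
(.lf (nat_lit 43824) (.g (nat_lit 1424) (.e (nat_lit 1250) (nat_lit 92) (.e (nat_lit 98373) (nat_lit 29) (.e (nat_lit 450579) (nat_lit 5) (.e (nat_lit 532523) (nat_lit 7) .nil)))) .nil)) 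
(.lf (nat_lit 43888) (.g (nat_lit 2285) (.e (nat_lit 1251) (nat_lit 92) (.e (nat_lit 98333) (nat_lit 18) (.e (nat_lit 164399) (nat_lit 256) (.e (nat_lit 57379) (nat_lit 3) (.e (nat_lit 98366) (nat_lit 27) .nil))))) .nil))))) (.nd (nat_lit 4) (.nd (nat_lit 5) (.nd (nat_lit 6) 
(.lf (nat_lit 43784) (.g (nat_lit 2570) (.e (nat_lit 1250) (nat_lit 92) (.e (nat_lit 98372) (nat_lit 29) (.e (nat_lit 450579) (nat_lit 5) (.e (nat_lit 532526) (nat_lit 8) (.e (nat_lit 327707) (nat_lit 10) (.e (nat_lit 5275) (nat_lit 298) .nil)))))) (.g (nat_lit 6) .nil .nil))) 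
(.lf (nat_lit 43848) (.g (nat_lit 3091) (.e (nat_lit 1250) (nat_lit 92) (.e (nat_lit 98373) (nat_lit 29) (.e (nat_lit 450588) (nat_lit 10) (.e (nat_lit 573471) (nat_lit 11) (.e (nat_lit 16389) (nat_lit 0) (.e (nat_lit 7936) (nat_lit 402) .nil)))))) (.g (nat_lit 5) .nil .nil)))) (.nd (nat_lit 6) 
(.lf (nat_lit 43816) (.g (nat_lit 2780) (.e (nat_lit 1250) (nat_lit 92) (.e (nat_lit 98372) (nat_lit 29) (.e (nat_lit 450588) (nat_lit 10) (.e (nat_lit 573451) (nat_lit 9) .nil)))) .nil)) 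
(.lf (nat_lit 43880) (.g (nat_lit 2400) (.e (nat_lit 1251) (nat_lit 92) (.e (nat_lit 98333) (nat_lit 18) (.e (nat_lit 164327) (nat_lit 230) (.e (nat_lit 163873) (nat_lit 3) (.e (nat_lit 204809) (nat_lit 9) .nil))))) .nil)))) (.nd (nat_lit 5) (.nd (nat_lit 6) 
(.lf (nat_lit 43800) (.g (nat_lit 1357) (.e (nat_lit 1250) (nat_lit 92) (.e (nat_lit 98372) (nat_lit 29) (.e (nat_lit 450586) (nat_lit 10) (.e (nat_lit 573451) (nat_lit 9) .nil)))) .nil)) 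
(.lf (nat_lit 43864) (.g (nat_lit 2800) (.e (nat_lit 1250) (nat_lit 92) (.e (nat_lit 98382) (nat_lit 31) (.e (nat_lit 466967) (nat_lit 20) (.e (nat_lit 3253) (nat_lit 197) (.e (nat_lit 532523) (nat_lit 7) (.e (nat_lit 319511) (nat_lit 10) (.e (nat_lit 5293) (nat_lit 298) .nil))))))) (.g (nat_lit 0) .nil .nil)))) (.nd (nat_lit 6) 
(.lf (nat_lit 43832) (.g (nat_lit 1707) (.e (nat_lit 1250) (nat_lit 92) (.e (nat_lit 98373) (nat_lit 29) (.e (nat_lit 450587) (nat_lit 10) (.e (nat_lit 573456) (nat_lit 9) .nil)))) .nil)) 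
(.lf (nat_lit 43896) (.g (nat_lit 2778) (.e (nat_lit 1251) (nat_lit 92) (.e (nat_lit 98334) (nat_lit 18) (.e (nat_lit 164398) (nat_lit 256) (.e (nat_lit 57379) (nat_lit 3) (.e (nat_lit 98366) (nat_lit 27) .nil))))) .nil)))))) (.nd (nat_lit 3) (.nd (nat_lit 4) (.nd (nat_lit 5) (.nd (nat_lit 6) 
(.lf (nat_lit 43780) (.g (nat_lit 2863) (.e (nat_lit 1250) (nat_lit 92) (.e (nat_lit 98372) (nat_lit 29) (.e (nat_lit 450579) (nat_lit 5) (.e (nat_lit 532526) (nat_lit 8) (.e (nat_lit 327705) (nat_lit 10) (.e (nat_lit 5289) (nat_lit 298) .nil)))))) (.g (nat_lit 5) .nil .nil))) 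
(.lf (nat_lit 43844) (.g (nat_lit 2963) (.e (nat_lit 1250) (nat_lit 92) (.e (nat_lit 98373) (nat_lit 29) (.e (nat_lit 450588) (nat_lit 10) (.e (nat_lit 573457) (nat_lit 9) .nil)))) .nil))) (.nd (nat_lit 6) 
(.lf (nat_lit 43812) (.g (nat_lit 2328) (.e (nat_lit 1250) (nat_lit 92) (.e (nat_lit 98372) (nat_lit 29) (.e (nat_lit 450586) (nat_lit 10) (.e (nat_lit 573457) (nat_lit 9) (.e (nat_lit 13) (nat_lit 0) (.e (nat_lit 7081) (nat_lit 378) (.e (nat_lit 57884) (nat_lit 270) .nil))))))) (.g (nat_lit 0) .nil .nil))) 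
(.lf (nat_lit 43876) (.g (nat_lit 3415) (.e (nat_lit 1250) (nat_lit 92) (.e (nat_lit 98389) (nat_lit 33) (.e (nat_lit 491558) (nat_lit 10) (.e (nat_lit 344119) (nat_lit 21) (.e (nat_lit 516139) (nat_lit 7) (.e (nat_lit 409623) (nat_lit 10) (.e (nat_lit 5293) (nat_lit 298) .nil))))))) (.g (nat_lit 6) .nil .nil))))) (.nd (nat_lit 5) (.nd (nat_lit 6) 
(.lf (nat_lit 43796) (.g (nat_lit 2355) (.e (nat_lit 1250) (nat_lit 92) (.e (nat_lit 98372) (nat_lit 29) (.e (nat_lit 450579) (nat_lit 5) (.e (nat_lit 532563) (nat_lit 15) (.e (nat_lit 385087) (nat_lit 46) (.e (nat_lit 753699) (nat_lit 13) .nil)))))) (.g (nat_lit 4) .nil .nil))) 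
(.lf (nat_lit 43860) (.g (nat_lit 1929) (.e (nat_lit 1250) (nat_lit 92) (.e (nat_lit 98380) (nat_lit 31) (.e (nat_lit 466977) (nat_lit 22) (.e (nat_lit 196677) (nat_lit 16) (.e (nat_lit 123080) (nat_lit 177) (.e (nat_lit 57887) (nat_lit 270) .nil)))))) (.g (nat_lit 4) .nil .nil)))) (.nd (nat_lit 6) 
(.lf (nat_lit 43828) (.g (nat_lit 2528) (.e (nat_lit 1250) (nat_lit 92) (.e (nat_lit 98373) (nat_lit 29) (.e (nat_lit 450587) (nat_lit 10) (.e (nat_lit 573448) (nat_lit 9) .nil)))) .nil)) 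
(.lf (nat_lit 43892) (.g (nat_lit 2455) (.e (nat_lit 1251) (nat_lit 92) (.e (nat_lit 98334) (nat_lit 18) (.e (nat_lit 164398) (nat_lit 256) (.e (nat_lit 57373) (nat_lit 2) (.e (nat_lit 90174) (nat_lit 14) (.e (nat_lit 180243) (nat_lit 5) (.e (nat_lit 532508) (nat_lit 2) (.e (nat_lit 106513) (nat_lit 9) .nil)))))))) (.g (nat_lit 4) .nil .nil)))))) (.nd (nat_lit 4) (.nd (nat_lit 5) (.nd (nat_lit 6) 
(.lf (nat_lit 43788) (.g (nat_lit 1355) (.e (nat_lit 1250) (nat_lit 92) (.e (nat_lit 98372) (nat_lit 29) (.e (nat_lit 450579) (nat_lit 5) (.e (nat_lit 532534) (nat_lit 9) .nil)))) .nil)) 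
(.lf (nat_lit 43852) (.g (nat_lit 2630) (.e (nat_lit 1250) (nat_lit 92) (.e (nat_lit 98373) (nat_lit 29) (.e (nat_lit 450588) (nat_lit 10) (.e (nat_lit 573473) (nat_lit 12) .nil)))) .nil))) (.nd (nat_lit 6) 
(.lf (nat_lit 43820) (.g (nat_lit 1916) (.e (nat_lit 1250) (nat_lit 92) (.e (nat_lit 98372) (nat_lit 29) (.e (nat_lit 450588) (nat_lit 10) (.e (nat_lit 573470) (nat_lit 11) .nil)))) .nil)) 
(.lf (nat_lit 43884) (.g (nat_lit 2901) (.e (nat_lit 1251) (nat_lit 92) (.e (nat_lit 98333) (nat_lit 18) (.e (nat_lit 164399) (nat_lit 256) (.e (nat_lit 57372) (nat_lit 2) (.e (nat_lit 90174) (nat_lit 14) (.e (nat_lit 180243) (nat_lit 5) (.e (nat_lit 532508) (nat_lit 2) (.e (nat_lit 106512) (nat_lit 9) .nil)))))))) (.g (nat_lit 5) .nil .nil))))) (.nd (nat_lit 5) (.nd (nat_lit 6) 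
(.lf (nat_lit 43804) (.g (nat_lit 3128) (.e (nat_lit 1250) (nat_lit 92) (.e (nat_lit 98372) (nat_lit 29) (.e (nat_lit 450586) (nat_lit 10) (.e (nat_lit 573451) (nat_lit 9) (.e (nat_lit 13) (nat_lit 0) (.e (nat_lit 7079) (nat_lit 378) (.e (nat_lit 57884) (nat_lit 270) .nil))))))) (.g (nat_lit 4) .nil .nil))) 
(.lf (nat_lit 43868) (.g (nat_lit 2447) (.e (nat_lit 1250) (nat_lit 92) (.e (nat_lit 98384) (nat_lit 32) (.e (nat_lit 475177) (nat_lit 24) (.e (nat_lit 516150) (nat_lit 9) (.e (nat_lit 426131) (nat_lit 3) .nil))))) .nil))) (.nd (nat_lit 6) 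
(.lf (nat_lit 43836) (.g (nat_lit 1830) (.e (nat_lit 1250) (nat_lit 92) (.e (nat_lit 98373) (nat_lit 29) (.e (nat_lit 450587) (nat_lit 10) (.e (nat_lit 573478) (nat_lit 12) .nil)))) .nil)) 
(.lf (nat_lit 43900) (.g (nat_lit 2678) (.e (nat_lit 1251) (nat_lit 92) (.e (nat_lit 98356) (nat_lit 26) (.e (nat_lit 426428) (nat_lit 17) (.e (nat_lit 90170) (nat_lit 13) (.e (nat_lit 172065) (nat_lit 3) .nil))))) .nil))))))) (.nd (nat_lit 2) (.nd (nat_lit 3) (.nd (nat_lit 4) (.nd (nat_lit 5) (.nd (nat_lit 6) 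
(.lf (nat_lit 43778) (.g (nat_lit 2677) (.e (nat_lit 1250) (nat_lit 92) (.e (nat_lit 98372) (nat_lit 29) (.e (nat_lit 450579) (nat_lit 5) (.e (nat_lit 532526) (nat_lit 8) (.e (nat_lit 327702) (nat_lit 10) (.e (nat_lit 5296) (nat_lit 298) .nil)))))) (.g (nat_lit 6) .nil .nil))) 
(.lf (nat_lit 43842) (.g (nat_lit 1900) (.e (nat_lit 1250) (nat_lit 92) (.e (nat_lit 98373) (nat_lit 29) (.e (nat_lit 450588) (nat_lit 10) (.e (nat_lit 573452) (nat_lit 9) .nil)))) .nil))) (.nd (nat_lit 6) 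
(.lf (nat_lit 43810) (.g (nat_lit 1116) (.e (nat_lit 1250) (nat_lit 92) (.e (nat_lit 98372) (nat_lit 29) (.e (nat_lit 450586) (nat_lit 10) (.e (nat_lit 573457) (nat_lit 9) .nil)))) .nil)) 
(.lf (nat_lit 43874) (.g (nat_lit 2867) (.e (nat_lit 1250) (nat_lit 92) (.e (nat_lit 98384) (nat_lit 32) (.e (nat_lit 475177) (nat_lit 24) (.e (nat_lit 516171) (nat_lit 13) (.e (nat_lit 458789) (nat_lit 23) (.e (nat_lit 532501) (nat_lit 1) (.e (nat_lit 57753) (nat_lit 209) (.e (nat_lit 1074) (nat_lit 81) .nil)))))))) (.g (nat_lit 4) .nil .nil))))) (.nd (nat_lit 5) (.nd (nat_lit 6) 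
(.lf (nat_lit 43794) (.g (nat_lit 1530) (.e (nat_lit 1250) (nat_lit 92) (.e (nat_lit 98372) (nat_lit 29) (.e (nat_lit 450579) (nat_lit 5) (.e (nat_lit 532555) (nat_lit 13) (.e (nat_lit 368662) (nat_lit 18) .nil))))) .nil)) 
(.lf (nat_lit 43858) (.g (nat_lit 1237) (.e (nat_lit 1250) (nat_lit 92) (.e (nat_lit 98380) (nat_lit 31) (.e (nat_lit 466947) (nat_lit 0) (.e (nat_lit 1856) (nat_lit 124) (.e (nat_lit 557105) (nat_lit 14) .nil))))) .nil))) (.nd (nat_lit 6) 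
(.lf (nat_lit 43826) (.g (nat_lit 3823) (.e (nat_lit 1250) (nat_lit 92) (.e (nat_lit 98373) (nat_lit 29) (.e (nat_lit 450580) (nat_lit 5) (.e (nat_lit 532523) (nat_lit 7) (.e (nat_lit 319511) (nat_lit 10) (.e (nat_lit 5293) (nat_lit 298) .nil)))))) (.g (nat_lit 5) .nil .nil))) 
(.lf (nat_lit 43890) (.g (nat_lit 2721) (.e (nat_lit 1251) (nat_lit 92) (.e (nat_lit 98334) (nat_lit 18) (.e (nat_lit 164398) (nat_lit 256) (.e (nat_lit 57373) (nat_lit 2) (.e (nat_lit 90172) (nat_lit 14) .nil))))) .nil))))) (.nd (nat_lit 4) (.nd (nat_lit 5) (.nd (nat_lit 6) 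
(.lf (nat_lit 43786) (.g (nat_lit 1210) (.e (nat_lit 1250) (nat_lit 92) (.e (nat_lit 98372) (nat_lit 29) (.e (nat_lit 450579) (nat_lit 5) (.e (nat_lit 532530) (nat_lit 9) .nil)))) .nil)) 
(.lf (nat_lit 43850) (.g (nat_lit 4807) (.e (nat_lit 1250) (nat_lit 92) (.e (nat_lit 98373) (nat_lit 29) (.e (nat_lit 450588) (nat_lit 10) (.e (nat_lit 573471) (nat_lit 11) (.e (nat_lit 16392) (nat_lit 0) (.e (nat_lit 7535) (nat_lit 402) .nil)))))) (.g (nat_lit 0) .nil .nil)))) (.nd (nat_lit 6) 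
(.lf (nat_lit 43818) (.g (nat_lit 2953) (.e (nat_lit 1250) (nat_lit 92) (.e (nat_lit 98372) (nat_lit 29) (.e (nat_lit 450588) (nat_lit 10) (.e (nat_lit 573452) (nat_lit 9) (.e (nat_lit 11) (nat_lit 0) .nil))))) .nil)) 
(.lf (nat_lit 43882) (.g (nat_lit 765) (.e (nat_lit 1251) (nat_lit 92) (.e (nat_lit 98333) (nat_lit 18) (.e (nat_lit 164399) (nat_lit 256) .nil))) .nil)))) (.nd (nat_lit 5) (.nd (nat_lit 6) 
(.lf (nat_lit 43802) (.g (nat_lit 3041) (.e (nat_lit 1250) (nat_lit 92) (.e (nat_lit 98372) (nat_lit 29) (.e (nat_lit 450586) (nat_lit 10) (.e (nat_lit 573451) (nat_lit 9) (.e (nat_lit 11) (nat_lit 0) (.e (nat_lit 7081) (nat_lit 378) (.e (nat_lit 57884) (nat_lit 270) .nil))))))) (.g (nat_lit 4) .nil .nil))) 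
(.lf (nat_lit 43866) (.g (nat_lit 1161) (.e (nat_lit 1250) (nat_lit 92) (.e (nat_lit 98384) (nat_lit 32) (.e (nat_lit 475177) (nat_lit 24) .nil))) .nil))) (.nd (nat_lit 6) 
(.lf (nat_lit 43834) (.g (nat_lit 2195) (.e (nat_lit 1250) (nat_lit 92) (.e (nat_lit 98373) (nat_lit 29) (.e (nat_lit 450587) (nat_lit 10) (.e (nat_lit 573469) (nat_lit 11) .nil)))) .nil)) 
(.lf (nat_lit 43898) (.g (nat_lit 2174) (.e (nat_lit 1251) (nat_lit 92) (.e (nat_lit 98342) (nat_lit 20) (.e (nat_lit 221212) (nat_lit 22) (.e (nat_lit 196669) (nat_lit 14) (.e (nat_lit 73754) (nat_lit 8) .nil))))) .nil)))))) (.nd (nat_lit 3) (.nd (nat_lit 4) (.nd (nat_lit 5) (.nd (nat_lit 6) 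
(.lf (nat_lit 43782) (.g (nat_lit 3389) (.e (nat_lit 1250) (nat_lit 92) (.e (nat_lit 98372) (nat_lit 29) (.e (nat_lit 450579) (nat_lit 5) (.e (nat_lit 532526) (nat_lit 8) (.e (nat_lit 327705) (nat_lit 10) (.e (nat_lit 5296) (nat_lit 298) .nil)))))) (.g (nat_lit 0) .nil .nil))) 
(.lf (nat_lit 43846) (.g (nat_lit 2551) (.e (nat_lit 1250) (nat_lit 92) (.e (nat_lit 98373) (nat_lit 29) (.e (nat_lit 450588) (nat_lit 10) (.e (nat_lit 573470) (nat_lit 11) .nil)))) .nil))) (.nd (nat_lit 6) 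
(.lf (nat_lit 43814) (.g (nat_lit 4138) (.e (nat_lit 1250) (nat_lit 92) (.e (nat_lit 98372) (nat_lit 29) (.e (nat_lit 450586) (nat_lit 10) (.e (nat_lit 573471) (nat_lit 11) (.e (nat_lit 16392) (nat_lit 0) (.e (nat_lit 7535) (nat_lit 402) .nil)))))) (.g (nat_lit 0) .nil .nil))) 
(.lf (nat_lit 43878) (.g (nat_lit 1202) (.e (nat_lit 1251) (nat_lit 92) (.e (nat_lit 98333) (nat_lit 18) (.e (nat_lit 164325) (nat_lit 230) .nil))) .nil)))) (.nd (nat_lit 5) (.nd (nat_lit 6) 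
(.lf (nat_lit 43798) (.g (nat_lit 1810) (.e (nat_lit 1250) (nat_lit 92) (.e (nat_lit 98372) (nat_lit 29) (.e (nat_lit 450580) (nat_lit 5) (.e (nat_lit 532523) (nat_lit 7) (.e (nat_lit 319504) (nat_lit 10) .nil))))) .nil)) 
(.lf (nat_lit 43862) (.g (nat_lit 1862) (.e (nat_lit 1250) (nat_lit 92) (.e (nat_lit 98381) (nat_lit 31) (.e (nat_lit 466977) (nat_lit 22) (.e (nat_lit 196677) (nat_lit 16) (.e (nat_lit 123080) (nat_lit 177) (.e (nat_lit 57886) (nat_lit 270) .nil)))))) (.g (nat_lit 4) .nil .nil)))) (.nd (nat_lit 6) 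
(.lf (nat_lit 43830) (.g (nat_lit 2445) (.e (nat_lit 1250) (nat_lit 92) (.e (nat_lit 98373) (nat_lit 29) (.e (nat_lit 450587) (nat_lit 10) (.e (nat_lit 573454) (nat_lit 9) (.e (nat_lit 4) (nat_lit 0) .nil))))) .nil)) 
(.lf (nat_lit 43894) (.g (nat_lit 2516) (.e (nat_lit 1251) (nat_lit 92) (.e (nat_lit 98334) (nat_lit 18) (.e (nat_lit 164398) (nat_lit 256) (.e (nat_lit 57375) (nat_lit 2) (.e (nat_lit 90174) (nat_lit 14) (.e (nat_lit 180243) (nat_lit 5) (.e (nat_lit 532508) (nat_lit 2) (.e (nat_lit 106504) (nat_lit 9) .nil)))))))) (.g (nat_lit 4) .nil .nil)))))) (.nd (nat_lit 4) (.nd (nat_lit 5) (.nd (nat_lit 6) 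
(.lf (nat_lit 43790) (.g (nat_lit 2193) (.e (nat_lit 1250) (nat_lit 92) (.e (nat_lit 98372) (nat_lit 29) (.e (nat_lit 450579) (nat_lit 5) (.e (nat_lit 532545) (nat_lit 10) (.e (nat_lit 344096) (nat_lit 18) (.e (nat_lit 4764) (nat_lit 281) (.e (nat_lit 1079) (nat_lit 81) .nil))))))) (.g (nat_lit 4) .nil .nil))) 
(.lf (nat_lit 43854) (.g (nat_lit 2694) (.e (nat_lit 1250) (nat_lit 92) (.e (nat_lit 98373) (nat_lit 29) (.e (nat_lit 450588) (nat_lit 10) (.e (nat_lit 573475) (nat_lit 12) .nil)))) .nil))) (.nd (nat_lit 6) 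
(.lf (nat_lit 43822) (.g (nat_lit 3744) (.e (nat_lit 1250) (nat_lit 92) (.e (nat_lit 98372) (nat_lit 29) (.e (nat_lit 450588) (nat_lit 10) (.e (nat_lit 573471) (nat_lit 11) (.e (nat_lit 16392) (nat_lit 0) (.e (nat_lit 7535) (nat_lit 402) .nil)))))) (.g (nat_lit 4) .nil .nil))) 
(.lf (nat_lit 43886) (.g (nat_lit 2470) (.e (nat_lit 1251) (nat_lit 92) (.e (nat_lit 98333) (nat_lit 18) (.e (nat_lit 164399) (nat_lit 256) (.e (nat_lit 57373) (nat_lit 2) (.e (nat_lit 90172) (nat_lit 14) .nil))))) .nil)))) (.nd (nat_lit 5) (.nd (nat_lit 6) 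
(.lf (nat_lit 43806) (.g (nat_lit 1091) (.e (nat_lit 1250) (nat_lit 92) (.e (nat_lit 98372) (nat_lit 29) (.e (nat_lit 450586) (nat_lit 10) (.e (nat_lit 573452) (nat_lit 9) .nil)))) .nil)) 
(.lf (nat_lit 43870) (.g (nat_lit 2498) (.e (nat_lit 1250) (nat_lit 92) (.e (nat_lit 98384) (nat_lit 32) (.e (nat_lit 475177) (nat_lit 24) (.e (nat_lit 516150) (nat_lit 9) (.e (nat_lit 426131) (nat_lit 3) (.e (nat_lit 204830) (nat_lit 18) (.e (nat_lit 57753) (nat_lit 209) (.e (nat_lit 1074) (nat_lit 81) .nil)))))))) (.g (nat_lit 4) .nil .nil)))) (.nd (nat_lit 6) 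
(.lf (nat_lit 43838) (.g (nat_lit 1748) (.e (nat_lit 1250) (nat_lit 92) (.e (nat_lit 98373) (nat_lit 29) (.e (nat_lit 450588) (nat_lit 10) (.e (nat_lit 573450) (nat_lit 9) .nil)))) .nil)) 
(.lf (nat_lit 43902) (.g (nat_lit 980) (.e (nat_lit 1251) (nat_lit 92) (.e (nat_lit 98356) (nat_lit 26) (.e (nat_lit 426438) (nat_lit 18) .nil))) .nil)))))))) (.nd (nat_lit 1) (.nd (nat_lit 2) (.nd (nat_lit 3) (.nd (nat_lit 4) (.nd (nat_lit 5) (.nd (nat_lit 6) 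
(.lf (nat_lit 43777) (.g (nat_lit 2029) (.e (nat_lit 1250) (nat_lit 92) (.e (nat_lit 98372) (nat_lit 29) (.e (nat_lit 450579) (nat_lit 5) (.e (nat_lit 532526) (nat_lit 8) (.e (nat_lit 327702) (nat_lit 10) (.e (nat_lit 5284) (nat_lit 298) .nil)))))) (.g (nat_lit 4) .nil .nil))) 
(.lf (nat_lit 43841) (.g (nat_lit 3966) (.e (nat_lit 1250) (nat_lit 92) (.e (nat_lit 98373) (nat_lit 29) (.e (nat_lit 450588) (nat_lit 10) (.e (nat_lit 573451) (nat_lit 9) (.e (nat_lit 11) (nat_lit 0) .nil))))) .nil))) (.nd (nat_lit 6) 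
(.lf (nat_lit 43809) (.g (nat_lit 1142) (.e (nat_lit 1250) (nat_lit 92) (.e (nat_lit 98372) (nat_lit 29) (.e (nat_lit 450586) (nat_lit 10) (.e (nat_lit 573456) (nat_lit 9) .nil)))) .nil)) 
(.lf (nat_lit 43873) (.g (nat_lit 2624) (.e (nat_lit 1250) (nat_lit 92) (.e (nat_lit 98384) (nat_lit 32) (.e (nat_lit 475177) (nat_lit 24) (.e (nat_lit 516171) (nat_lit 13) (.e (nat_lit 458789) (nat_lit 23) .nil))))) .nil)))) (.nd (nat_lit 5) (.nd (nat_lit 6) 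
(.lf (nat_lit 43793) (.g (nat_lit 1603) (.e (nat_lit 1250) (nat_lit 92) (.e (nat_lit 98372) (nat_lit 29) (.e (nat_lit 450579) (nat_lit 5) (.e (nat_lit 532555) (nat_lit 13) (.e (nat_lit 368659) (nat_lit 18) .nil))))) .nil)) 
(.lf (nat_lit 43857) (.g (nat_lit 1921) (.e (nat_lit 1250) (nat_lit 92) (.e (nat_lit 98374) (nat_lit 29) (.e (nat_lit 450575) (nat_lit 1) (.e (nat_lit 499991) (nat_lit 14) (.e (nat_lit 1399) (nat_lit 106) (.e (nat_lit 319511) (nat_lit 10) (.e (nat_lit 5293) (nat_lit 298) .nil))))))) (.g (nat_lit 0) .nil .nil)))) (.nd (nat_lit 6) 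
(.lf (nat_lit 43825) (.g (nat_lit 2641) (.e (nat_lit 1250) (nat_lit 92) (.e (nat_lit 98373) (nat_lit 29) (.e (nat_lit 450579) (nat_lit 5) (.e (nat_lit 532523) (nat_lit 7) (.e (nat_lit 319511) (nat_lit 10) (.e (nat_lit 5293) (nat_lit 298) .nil)))))) (.g (nat_lit 4) .nil .nil))) 
(.lf (nat_lit 43889) (.g (nat_lit 3136) (.e (nat_lit 1251) (nat_lit 92) (.e (nat_lit 98333) (nat_lit 18) (.e (nat_lit 164403) (nat_lit 256) (.e (nat_lit 57373) (nat_lit 2) (.e (nat_lit 90174) (nat_lit 14) (.e (nat_lit 180243) (nat_lit 5) (.e (nat_lit 532508) (nat_lit 2) (.e (nat_lit 106512) (nat_lit 9) .nil)))))))) (.g (nat_lit 4) .nil .nil)))))) (.nd (nat_lit 4) (.nd (nat_lit 5) (.nd (nat_lit 6) 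
(.lf (nat_lit 43785) (.g (nat_lit 2242) (.e (nat_lit 1250) (nat_lit 92) (.e (nat_lit 98372) (nat_lit 29) (.e (nat_lit 450579) (nat_lit 5) (.e (nat_lit 532526) (nat_lit 8) (.e (nat_lit 327709) (nat_lit 10) (.e (nat_lit 5273) (nat_lit 298) .nil)))))) (.g (nat_lit 4) .nil .nil))) 
(.lf (nat_lit 43849) (.g (nat_lit 2326) (.e (nat_lit 1250) (nat_lit 92) (.e (nat_lit 98373) (nat_lit 29) (.e (nat_lit 450588) (nat_lit 10) (.e (nat_lit 573471) (nat_lit 11) (.e (nat_lit 16392) (nat_lit 0) .nil))))) .nil))) (.nd (nat_lit 6) 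
(.lf (nat_lit 43817) (.g (nat_lit 2061) (.e (nat_lit 1250) (nat_lit 92) (.e (nat_lit 98372) (nat_lit 29) (.e (nat_lit 450588) (nat_lit 10) (.e (nat_lit 573452) (nat_lit 9) .nil)))) .nil)) 
(.lf (nat_lit 43881) (.g (nat_lit 2488) (.e (nat_lit 1251) (nat_lit 92) (.e (nat_lit 98333) (nat_lit 18) (.e (nat_lit 164398) (nat_lit 256) (.e (nat_lit 57379) (nat_lit 3) (.e (nat_lit 98366) (nat_lit 27) .nil))))) .nil)))) (.nd (nat_lit 5) (.nd (nat_lit 6) 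
(.lf (nat_lit 43801) (.g (nat_lit 3015) (.e (nat_lit 1250) (nat_lit 92) (.e (nat_lit 98372) (nat_lit 29) (.e (nat_lit 450586) (nat_lit 10) (.e (nat_lit 573451) (nat_lit 9) (.e (nat_lit 11) (nat_lit 0) .nil))))) .nil)) 
(.lf (nat_lit 43865) (.g (nat_lit 2305) (.e (nat_lit 1250) (nat_lit 92) (.e (nat_lit 98382) (nat_lit 31) (.e (nat_lit 466974) (nat_lit 22) (.e (nat_lit 196677) (nat_lit 16) (.e (nat_lit 123080) (nat_lit 177) (.e (nat_lit 57887) (nat_lit 270) .nil)))))) (.g (nat_lit 0) .nil .nil)))) (.nd (nat_lit 6) 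
(.lf (nat_lit 43833) (.g (nat_lit 1497) (.e (nat_lit 1250) (nat_lit 92) (.e (nat_lit 98373) (nat_lit 29) (.e (nat_lit 450587) (nat_lit 10) (.e (nat_lit 573457) (nat_lit 9) .nil)))) .nil)) 
(.lf (nat_lit 43897) (.g (nat_lit 1913) (.e (nat_lit 1251) (nat_lit 92) (.e (nat_lit 98342) (nat_lit 20) (.e (nat_lit 221212) (nat_lit 22) (.e (nat_lit 196669) (nat_lit 14) .nil)))) .nil)))))) (.nd (nat_lit 3) (.nd (nat_lit 4) (.nd (nat_lit 5) (.nd (nat_lit 6) 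
(.lf (nat_lit 43781) (.g (nat_lit 2952) (.e (nat_lit 1250) (nat_lit 92) (.e (nat_lit 98372) (nat_lit 29) (.e (nat_lit 450579) (nat_lit 5) (.e (nat_lit 532526) (nat_lit 8) (.e (nat_lit 327705) (nat_lit 10) (.e (nat_lit 5295) (nat_lit 298) .nil)))))) (.g (nat_lit 5) .nil .nil))) 
(.lf (nat_lit 43845) (.g (nat_lit 1469) (.e (nat_lit 1250) (nat_lit 92) (.e (nat_lit 98373) (nat_lit 29) (.e (nat_lit 450588) (nat_lit 10) (.e (nat_lit 573468) (nat_lit 10) .nil)))) .nil))) (.nd (nat_lit 6) 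
(.lf (nat_lit 43813) (.g (nat_lit 3700) (.e (nat_lit 1250) (nat_lit 92) (.e (nat_lit 98372) (nat_lit 29) (.e (nat_lit 450586) (nat_lit 10) (.e (nat_lit 573471) (nat_lit 11) (.e (nat_lit 16388) (nat_lit 0) (.e (nat_lit 7536) (nat_lit 402) .nil)))))) (.g (nat_lit 5) .nil .nil))) 
(.lf (nat_lit 43877) (.g (nat_lit 1780) (.e (nat_lit 1250) (nat_lit 92) (.e (nat_lit 98389) (nat_lit 33) (.e (nat_lit 491563) (nat_lit 12) (.e (nat_lit 385074) (nat_lit 31) .nil)))) .nil)))) (.nd (nat_lit 5) (.nd (nat_lit 6) 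
(.lf (nat_lit 43797) (.g (nat_lit 1216) (.e (nat_lit 1250) (nat_lit 92) (.e (nat_lit 98372) (nat_lit 29) (.e (nat_lit 450579) (nat_lit 5) (.e (nat_lit 532569) (nat_lit 16) .nil)))) .nil)) 
(.lf (nat_lit 43861) (.g (nat_lit 3021) (.e (nat_lit 1250) (nat_lit 92) (.e (nat_lit 98380) (nat_lit 31) (.e (nat_lit 466979) (nat_lit 23) (.e (nat_lit 204846) (nat_lit 24) (.e (nat_lit 319511) (nat_lit 10) (.e (nat_lit 5293) (nat_lit 298) .nil)))))) (.g (nat_lit 6) .nil .nil)))) (.nd (nat_lit 6) 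
(.lf (nat_lit 43829) (.g (nat_lit 1547) (.e (nat_lit 1250) (nat_lit 92) (.e (nat_lit 98373) (nat_lit 29) (.e (nat_lit 450587) (nat_lit 10) (.e (nat_lit 573454) (nat_lit 9) .nil)))) .nil)) 
(.lf (nat_lit 43893) (.g (nat_lit 2442) (.e (nat_lit 1251) (nat_lit 92) (.e (nat_lit 98334) (nat_lit 18) (.e (nat_lit 164398) (nat_lit 256) (.e (nat_lit 57375) (nat_lit 2) (.e (nat_lit 90174) (nat_lit 14) .nil))))) .nil))))) (.nd (nat_lit 4) (.nd (nat_lit 5) (.nd (nat_lit 6) 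
(.lf (nat_lit 43789) (.g (nat_lit 2168) (.e (nat_lit 1250) (nat_lit 92) (.e (nat_lit 98372) (nat_lit 29) (.e (nat_lit 450579) (nat_lit 5) (.e (nat_lit 532534) (nat_lit 9) (.e (nat_lit 335878) (nat_lit 0) .nil))))) .nil)) 
(.lf (nat_lit 43853) (.g (nat_lit 5230) (.e (nat_lit 1250) (nat_lit 92) (.e (nat_lit 98373) (nat_lit 29) (.e (nat_lit 450588) (nat_lit 10) (.e (nat_lit 573474) (nat_lit 12) .nil)))) .nil))) (.nd (nat_lit 6) 
(.lf (nat_lit 43821) (.g (nat_lit 2367) (.e (nat_lit 1250) (nat_lit 92) (.e (nat_lit 98372) (nat_lit 29) (.e (nat_lit 450588) (nat_lit 10) (.e (nat_lit 573471) (nat_lit 11) (.e (nat_lit 16388) (nat_lit 0) (.e (nat_lit 7536) (nat_lit 402) .nil)))))) (.g (nat_lit 4) .nil .nil))) 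
(.lf (nat_lit 43885) (.g (nat_lit 2045) (.e (nat_lit 1251) (nat_lit 92) (.e (nat_lit 98333) (nat_lit 18) (.e (nat_lit 164399) (nat_lit 256) (.e (nat_lit 57373) (nat_lit 2) (.e (nat_lit 90170) (nat_lit 13) .nil))))) .nil)))) (.nd (nat_lit 5) (.nd (nat_lit 6) 
(.lf (nat_lit 43805) (.g (nat_lit 3173) (.e (nat_lit 1250) (nat_lit 92) (.e (nat_lit 98372) (nat_lit 29) (.e (nat_lit 450586) (nat_lit 10) (.e (nat_lit 573451) (nat_lit 9) (.e (nat_lit 13) (nat_lit 0) (.e (nat_lit 7081) (nat_lit 378) (.e (nat_lit 57884) (nat_lit 270) .nil))))))) (.g (nat_lit 4) .nil .nil))) 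
(.lf (nat_lit 43869) (.g (nat_lit 2611) (.e (nat_lit 1250) (nat_lit 92) (.e (nat_lit 98384) (nat_lit 32) (.e (nat_lit 475177) (nat_lit 24) (.e (nat_lit 516150) (nat_lit 9) (.e (nat_lit 426131) (nat_lit 3) (.e (nat_lit 204830) (nat_lit 18) (.e (nat_lit 57752) (nat_lit 209) (.e (nat_lit 1074) (nat_lit 81) .nil)))))))) (.g (nat_lit 4) .nil .nil)))) (.nd (nat_lit 6) 
(.lf (nat_lit 43837) (.g (nat_lit 2537) (.e (nat_lit 1250) (nat_lit 92) (.e (nat_lit 98373) (nat_lit 29) (.e (nat_lit 450588) (nat_lit 10) (.e (nat_lit 573449) (nat_lit 9) .nil)))) .nil)) 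
(.lf (nat_lit 43901) (.g (nat_lit 2279) (.e (nat_lit 1251) (nat_lit 92) (.e (nat_lit 98356) (nat_lit 26) (.e (nat_lit 426428) (nat_lit 17) (.e (nat_lit 90174) (nat_lit 14) (.e (nat_lit 180243) (nat_lit 5) .nil))))) .nil))))))) (.nd (nat_lit 2) (.nd (nat_lit 3) (.nd (nat_lit 4) (.nd (nat_lit 5) (.nd (nat_lit 6) 
(.lf (nat_lit 43779) (.g (nat_lit 1754) (.e (nat_lit 1250) (nat_lit 92) (.e (nat_lit 98372) (nat_lit 29) (.e (nat_lit 450579) (nat_lit 5) (.e (nat_lit 532526) (nat_lit 8) (.e (nat_lit 327704) (nat_lit 10) .nil))))) .nil)) 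
(.lf (nat_lit 43843) (.g (nat_lit 2138) (.e (nat_lit 1250) (nat_lit 92) (.e (nat_lit 98373) (nat_lit 29) (.e (nat_lit 450588) (nat_lit 10) (.e (nat_lit 573452) (nat_lit 9) (.e (nat_lit 7936) (nat_lit 30) .nil))))) .nil))) (.nd (nat_lit 6) 
(.lf (nat_lit 43811) (.g (nat_lit 2277) (.e (nat_lit 1250) (nat_lit 92) (.e (nat_lit 98372) (nat_lit 29) (.e (nat_lit 450586) (nat_lit 10) (.e (nat_lit 573457) (nat_lit 9) (.e (nat_lit 13) (nat_lit 0) (.e (nat_lit 7077) (nat_lit 378) (.e (nat_lit 57884) (nat_lit 270) .nil))))))) (.g (nat_lit 0) .nil .nil))) 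
(.lf (nat_lit 43875) (.g (nat_lit 1960) (.e (nat_lit 1250) (nat_lit 92) (.e (nat_lit 98389) (nat_lit 33) (.e (nat_lit 491546) (nat_lit 9) (.e (nat_lit 336028) (nat_lit 3) (.e (nat_lit 98325) (nat_lit 17) .nil))))) .nil)))) (.nd (nat_lit 5) (.nd (nat_lit 6) 
(.lf (nat_lit 43795) (.g (nat_lit 1537) (.e (nat_lit 1250) (nat_lit 92) (.e (nat_lit 98372) (nat_lit 29) (.e (nat_lit 450579) (nat_lit 5) (.e (nat_lit 532562) (nat_lit 15) .nil)))) .nil)) 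
(.lf (nat_lit 43859) (.g (nat_lit 1687) (.e (nat_lit 1250) (nat_lit 92) (.e (nat_lit 98380) (nat_lit 31) (.e (nat_lit 466974) (nat_lit 22) (.e (nat_lit 196677) (nat_lit 16) (.e (nat_lit 123080) (nat_lit 177) (.e (nat_lit 57887) (nat_lit 270) .nil)))))) (.g (nat_lit 4) .nil .nil)))) (.nd (nat_lit 6) 
(.lf (nat_lit 43827) (.g (nat_lit 1877) (.e (nat_lit 1250) (nat_lit 92) (.e (nat_lit 98373) (nat_lit 29) (.e (nat_lit 450583) (nat_lit 7) (.e (nat_lit 548914) (nat_lit 19) .nil)))) .nil)) 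
(.lf (nat_lit 43891) (.g (nat_lit 3241) (.e (nat_lit 1251) (nat_lit 92) (.e (nat_lit 98334) (nat_lit 18) (.e (nat_lit 164398) (nat_lit 256) (.e (nat_lit 57373) (nat_lit 2) (.e (nat_lit 90174) (nat_lit 14) (.e (nat_lit 180243) (nat_lit 5) (.e (nat_lit 532508) (nat_lit 2) (.e (nat_lit 106512) (nat_lit 9) .nil)))))))) (.g (nat_lit 5) .nil .nil)))))) (.nd (nat_lit 4) (.nd (nat_lit 5) (.nd (nat_lit 6) 
(.lf (nat_lit 43787) (.g (nat_lit 2043) (.e (nat_lit 1250) (nat_lit 92) (.e (nat_lit 98372) (nat_lit 29) (.e (nat_lit 450579) (nat_lit 5) (.e (nat_lit 532530) (nat_lit 9) (.e (nat_lit 335878) (nat_lit 0) .nil))))) .nil)) 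
(.lf (nat_lit 43851) (.g (nat_lit 2650) (.e (nat_lit 1250) (nat_lit 92) (.e (nat_lit 98373) (nat_lit 29) (.e (nat_lit 450588) (nat_lit 10) (.e (nat_lit 573471) (nat_lit 11) (.e (nat_lit 16396) (nat_lit 0) (.e (nat_lit 7936) (nat_lit 402) .nil)))))) (.g (nat_lit 4) .nil .nil)))) (.nd (nat_lit 6) 
(.lf (nat_lit 43819) (.g (nat_lit 2891) (.e (nat_lit 1250) (nat_lit 92) (.e (nat_lit 98372) (nat_lit 29) (.e (nat_lit 450588) (nat_lit 10) (.e (nat_lit 573452) (nat_lit 9) (.e (nat_lit 13) (nat_lit 0) .nil))))) .nil)) 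
(.lf (nat_lit 43883) (.g (nat_lit 2294) (.e (nat_lit 1251) (nat_lit 92) (.e (nat_lit 98333) (nat_lit 18) (.e (nat_lit 164399) (nat_lit 256) (.e (nat_lit 57372) (nat_lit 2) (.e (nat_lit 90174) (nat_lit 14) .nil))))) .nil)))) (.nd (nat_lit 5) (.nd (nat_lit 6) 
(.lf (nat_lit 43803) (.g (nat_lit 3118) (.e (nat_lit 1250) (nat_lit 92) (.e (nat_lit 98372) (nat_lit 29) (.e (nat_lit 450586) (nat_lit 10) (.e (nat_lit 573451) (nat_lit 9) (.e (nat_lit 13) (nat_lit 0) (.e (nat_lit 7077) (nat_lit 378) (.e (nat_lit 57884) (nat_lit 270) .nil))))))) (.g (nat_lit 4) .nil .nil))) 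
(.lf (nat_lit 43867) (.g (nat_lit 2490) (.e (nat_lit 1250) (nat_lit 92) (.e (nat_lit 98384) (nat_lit 32) (.e (nat_lit 475177) (nat_lit 24) (.e (nat_lit 516143) (nat_lit 9) (.e (nat_lit 426125) (nat_lit 2) .nil))))) .nil))) (.nd (nat_lit 6) 
(.lf (nat_lit 43835) (.g (nat_lit 1842) (.e (nat_lit 1250) (nat_lit 92) (.e (nat_lit 98373) (nat_lit 29) (.e (nat_lit 450587) (nat_lit 10) (.e (nat_lit 573477) (nat_lit 12) .nil)))) .nil)) 
(.lf (nat_lit 43899) (.g (nat_lit 1809) (.e (nat_lit 1251) (nat_lit 92) (.e (nat_lit 98342) (nat_lit 20) (.e (nat_lit 221212) (nat_lit 22) (.e (nat_lit 196670) (nat_lit 14) .nil)))) .nil)))))) (.nd (nat_lit 3) (.nd (nat_lit 4) (.nd (nat_lit 5) (.nd (nat_lit 6) 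
(.lf (nat_lit 43783) (.g (nat_lit 2773) (.e (nat_lit 1250) (nat_lit 92) (.e (nat_lit 98372) (nat_lit 29) (.e (nat_lit 450579) (nat_lit 5) (.e (nat_lit 532526) (nat_lit 8) (.e (nat_lit 327706) (nat_lit 10) (.e (nat_lit 5296) (nat_lit 298) .nil)))))) (.g (nat_lit 6) .nil .nil))) 
(.lf (nat_lit 43847) (.g (nat_lit 4637) (.e (nat_lit 1250) (nat_lit 92) (.e (nat_lit 98373) (nat_lit 29) (.e (nat_lit 450588) (nat_lit 10) (.e (nat_lit 573470) (nat_lit 11) (.e (nat_lit 16388) (nat_lit 0) (.e (nat_lit 7536) (nat_lit 402) .nil)))))) (.g (nat_lit 5) .nil .nil)))) (.nd (nat_lit 6) 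
(.lf (nat_lit 43815) (.g (nat_lit 1721) (.e (nat_lit 1250) (nat_lit 92) (.e (nat_lit 98372) (nat_lit 29) (.e (nat_lit 450586) (nat_lit 10) (.e (nat_lit 573471) (nat_lit 11) (.e (nat_lit 16396) (nat_lit 0) .nil))))) .nil)) 
(.lf (nat_lit 43879) (.g (nat_lit 3174) (.e (nat_lit 1251) (nat_lit 92) (.e (nat_lit 98333) (nat_lit 18) (.e (nat_lit 164325) (nat_lit 230) (.e (nat_lit 163873) (nat_lit 3) .nil)))) .nil)))) (.nd (nat_lit 5) (.nd (nat_lit 6) 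
(.lf (nat_lit 43799) (.g (nat_lit 1183) (.e (nat_lit 1250) (nat_lit 92) (.e (nat_lit 98372) (nat_lit 29) (.e (nat_lit 450583) (nat_lit 7) (.e (nat_lit 548914) (nat_lit 19) .nil)))) .nil)) 
(.lf (nat_lit 43863) (.g (nat_lit 2341) (.e (nat_lit 1250) (nat_lit 92) (.e (nat_lit 98381) (nat_lit 31) (.e (nat_lit 466981) (nat_lit 23) (.e (nat_lit 204846) (nat_lit 24) (.e (nat_lit 319511) (nat_lit 10) .nil))))) .nil))) (.nd (nat_lit 6) 
(.lf (nat_lit 43831) (.g (nat_lit 2495) (.e (nat_lit 1250) (nat_lit 92) (.e (nat_lit 98373) (nat_lit 29) (.e (nat_lit 450587) (nat_lit 10) (.e (nat_lit 573454) (nat_lit 9) (.e (nat_lit 7936) (nat_lit 33) .nil))))) .nil)) 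
(.lf (nat_lit 43895) (.g (nat_lit 3078) (.e (nat_lit 1251) (nat_lit 92) (.e (nat_lit 98334) (nat_lit 18) (.e (nat_lit 164398) (nat_lit 256) (.e (nat_lit 57378) (nat_lit 3) (.e (nat_lit 98366) (nat_lit 27) (.e (nat_lit 434231) (nat_lit 23) (.e (nat_lit 532507) (nat_lit 2) (.e (nat_lit 106504) (nat_lit 9) .nil)))))))) (.g (nat_lit 4) .nil .nil)))))) 
(.nd (nat_lit 4) (.nd (nat_lit 5) (.nd (nat_lit 6) 
(.lf (nat_lit 43791) (.g (nat_lit 1704) (.e (nat_lit 1250) (nat_lit 92) (.e (nat_lit 98372) (nat_lit 29) (.e (nat_lit 450579) (nat_lit 5) (.e (nat_lit 532553) (nat_lit 13) (.e (nat_lit 368662) (nat_lit 18) .nil))))) .nil)) 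
(.lf (nat_lit 43855) (.g (nat_lit 3445) (.e (nat_lit 1250) (nat_lit 92) (.e (nat_lit 98373) (nat_lit 29) (.e (nat_lit 450588) (nat_lit 10) (.e (nat_lit 573475) (nat_lit 12) (.e (nat_lit 57347) (nat_lit 0) (.e (nat_lit 7265) (nat_lit 384) (.e (nat_lit 57347) (nat_lit 0) (.e (nat_lit 7936) (nat_lit 343) .nil)))))))) (.g (nat_lit 4) .nil .nil)))) (.nd (nat_lit 6) 
(.lf (nat_lit 43823) (.g (nat_lit 486) (.e (nat_lit 1250) (nat_lit 92) (.e (nat_lit 98373) (nat_lit 29) (.e (nat_lit 450562) (nat_lit 0) .nil))) .nil)) 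
(.lf (nat_lit 43887) (.g (nat_lit 2732) (.e (nat_lit 1251) (nat_lit 92) (.e (nat_lit 98333) (nat_lit 18) (.e (nat_lit 164399) (nat_lit 256) (.e (nat_lit 57378) (nat_lit 3) (.e (nat_lit 98366) (nat_lit 27) .nil))))) .nil)))) (.nd (nat_lit 5) (.nd (nat_lit 6) 
(.lf (nat_lit 43807) (.g (nat_lit 2398) (.e (nat_lit 1250) (nat_lit 92) (.e (nat_lit 98372) (nat_lit 29) (.e (nat_lit 450586) (nat_lit 10) (.e (nat_lit 573452) (nat_lit 9) (.e (nat_lit 13) (nat_lit 0) (.e (nat_lit 7077) (nat_lit 378) (.e (nat_lit 57884) (nat_lit 270) .nil))))))) (.g (nat_lit 0) .nil .nil))) 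
(.lf (nat_lit 43871) (.g (nat_lit 2767) (.e (nat_lit 1250) (nat_lit 92) (.e (nat_lit 98384) (nat_lit 32) (.e (nat_lit 475177) (nat_lit 24) (.e (nat_lit 516169) (nat_lit 13) (.e (nat_lit 458789) (nat_lit 23) .nil))))) .nil))) (.nd (nat_lit 6) 
(.lf (nat_lit 43839) (.g (nat_lit 2413) (.e (nat_lit 1250) (nat_lit 92) (.e (nat_lit 98373) (nat_lit 29) (.e (nat_lit 450588) (nat_lit 10) (.e (nat_lit 573450) (nat_lit 9) (.e (nat_lit 442) (nat_lit 33) .nil))))) .nil)) 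
(.lf (nat_lit 43903) (.g (nat_lit 2010) (.e (nat_lit 1251) (nat_lit 92) (.e (nat_lit 98356) (nat_lit 26) (.e (nat_lit 426438) (nat_lit 18) (.e (nat_lit 98377) (nat_lit 30) (.e (nat_lit 458789) (nat_lit 23) .nil))))) .nil)))))))))

noncomputable def tv609 : DT := (.nd (nat_lit 0) (.nd (nat_lit 1) (.nd (nat_lit 2) (.nd (nat_lit 3) (.nd (nat_lit 4) (.nd (nat_lit 5) 
(.lf (nat_lit 43904) (.g (nat_lit 1849) (.e (nat_lit 1251) (nat_lit 92) (.e (nat_lit 98368) (nat_lit 27) (.e (nat_lit 434245) (nat_lit 28) (.e (nat_lit 573481) (nat_lit 13) (.e (nat_lit 73472) (nat_lit 18) (.e (nat_lit 204821) (nat_lit 17) (.e (nat_lit 2006) (nat_lit 138) (.e (nat_lit 671748) (nat_lit 0) .nil)))))))) (.g (nat_lit 4) .nil .nil))) 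
(.lf (nat_lit 43936) (.g (nat_lit 4264) (.e (nat_lit 1252) (nat_lit 92) (.e (nat_lit 98319) (nat_lit 17) (.e (nat_lit 7065) (nat_lit 377) (.e (nat_lit 1349) (nat_lit 102) (.e (nat_lit 286735) (nat_lit 3) (.e (nat_lit 98367) (nat_lit 27) (.e (nat_lit 434180) (nat_lit 0) .nil))))))) (.g (nat_lit 0) .nil .nil)))) (.nd (nat_lit 5) 
(.lf (nat_lit 43920) (.g (nat_lit 1629) (.e (nat_lit 1252) (nat_lit 92) (.e (nat_lit 98317) (nat_lit 9) (.e (nat_lit 336186) (nat_lit 11) (.e (nat_lit 368676) (nat_lit 21) (.e (nat_lit 516179) (nat_lit 15) (.e (nat_lit 475201) (nat_lit 40) (.e (nat_lit 704620) (nat_lit 9) .nil))))))) (.g (nat_lit 4) .nil .nil))) 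
(.lf (nat_lit 43952) (.g (nat_lit 3929) (.e (nat_lit 1252) (nat_lit 92) (.e (nat_lit 98333) (nat_lit 18) (.e (nat_lit 164398) (nat_lit 256) (.e (nat_lit 57373) (nat_lit 2) (.e (nat_lit 90174) (nat_lit 14) (.e (nat_lit 180243) (nat_lit 5) (.e (nat_lit 532508) (nat_lit 2) (.e (nat_lit 106526) (nat_lit 9) .nil)))))))) (.g (nat_lit 6) .nil .nil))))) (.nd (nat_lit 4) (.nd (nat_lit 5) 
(.lf (nat_lit 43912) (.g (nat_lit 1136) (.e (nat_lit 1251) (nat_lit 92) (.e (nat_lit 98384) (nat_lit 32) (.e (nat_lit 475177) (nat_lit 24) .nil))) .nil)) 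
(.lf (nat_lit 43944) (.g (nat_lit 2132) (.e (nat_lit 1252) (nat_lit 92) (.e (nat_lit 98333) (nat_lit 18) (.e (nat_lit 164396) (nat_lit 256) (.e (nat_lit 57371) (nat_lit 2) (.e (nat_lit 90174) (nat_lit 14) (.e (nat_lit 180243) (nat_lit 5) (.e (nat_lit 532508) (nat_lit 2) (.e (nat_lit 106526) (nat_lit 9) .nil)))))))) (.g (nat_lit 4) .nil .nil)))) (.nd (nat_lit 5) 
(.lf (nat_lit 43928) (.g (nat_lit 863) (.e (nat_lit 1252) (nat_lit 92) (.e (nat_lit 106240) (nat_lit 14) (.e (nat_lit 376862) (nat_lit 22) (.e (nat_lit 90169) (nat_lit 13) (.e (nat_lit 179968) (nat_lit 24) (.e (nat_lit 155667) (nat_lit 9) .nil)))))) (.g (nat_lit 4) .nil .nil))) 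
(.lf (nat_lit 43960) (.g (nat_lit 2302) (.e (nat_lit 1252) (nat_lit 92) (.e (nat_lit 98333) (nat_lit 18) (.e (nat_lit 164399) (nat_lit 256) (.e (nat_lit 57372) (nat_lit 2) (.e (nat_lit 90167) (nat_lit 13) (.e (nat_lit 172067) (nat_lit 3) (.e (nat_lit 204834) (nat_lit 19) (.e (nat_lit 106517) (nat_lit 9) .nil)))))))) (.g (nat_lit 4) .nil .nil)))))) 
(.nd (nat_lit 3) (.nd (nat_lit 4) (.nd (nat_lit 5) 
(.lf (nat_lit 43908) (.g (nat_lit 2245) (.e (nat_lit 1251) (nat_lit 92) (.e (nat_lit 98368) (nat_lit 27) (.e (nat_lit 434248) (nat_lit 28) (.e (nat_lit 573482) (nat_lit 13) (.e (nat_lit 73472) (nat_lit 18) (.e (nat_lit 204821) (nat_lit 17) (.e (nat_lit 2006) (nat_lit 138) (.e (nat_lit 671748) (nat_lit 0) .nil)))))))) (.g (nat_lit 4) .nil .nil))) 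
(.lf (nat_lit 43940) (.g (nat_lit 2981) (.e (nat_lit 1252) (nat_lit 92) (.e (nat_lit 98320) (nat_lit 17) (.e (nat_lit 7065) (nat_lit 377) (.e (nat_lit 1349) (nat_lit 102) (.e (nat_lit 286733) (nat_lit 2) (.e (nat_lit 90173) (nat_lit 14) (.e (nat_lit 180277) (nat_lit 32) .nil))))))) (.g (nat_lit 6) .nil .nil)))) (.nd (nat_lit 5) 
(.lf (nat_lit 43924) (.g (nat_lit 1414) (.e (nat_lit 1252) (nat_lit 92) (.e (nat_lit 106240) (nat_lit 12) (.e (nat_lit 360466) (nat_lit 3) (.e (nat_lit 516146) (nat_lit 9) (.e (nat_lit 426440) (nat_lit 19) (.e (nat_lit 106504) (nat_lit 9) .nil)))))) (.g (nat_lit 4) .nil .nil))) 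
(.lf (nat_lit 43956) (.g (nat_lit 2020) (.e (nat_lit 1252) (nat_lit 92) (.e (nat_lit 98333) (nat_lit 18) (.e (nat_lit 164399) (nat_lit 256) (.e (nat_lit 57370) (nat_lit 2) (.e (nat_lit 90172) (nat_lit 14) .nil))))) .nil)))) (.nd (nat_lit 4) (.nd (nat_lit 5) 
(.lf (nat_lit 43916) (.g (nat_lit 1855) (.e (nat_lit 1252) (nat_lit 92) (.e (nat_lit 98317) (nat_lit 9) (.e (nat_lit 336088) (nat_lit 9) (.e (nat_lit 336019) (nat_lit 3) (.e (nat_lit 98384) (nat_lit 32) (.e (nat_lit 475199) (nat_lit 40) (.e (nat_lit 704689) (nat_lit 9) .nil))))))) (.g (nat_lit 4) .nil .nil))) 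
(.lf (nat_lit 43948) (.g (nat_lit 2897) (.e (nat_lit 1252) (nat_lit 92) (.e (nat_lit 98333) (nat_lit 18) (.e (nat_lit 164398) (nat_lit 256) (.e (nat_lit 57372) (nat_lit 2) (.e (nat_lit 90174) (nat_lit 14) (.e (nat_lit 180243) (nat_lit 5) (.e (nat_lit 532508) (nat_lit 2) (.e (nat_lit 106526) (nat_lit 9) .nil)))))))) (.g (nat_lit 4) .nil .nil)))) (.nd (nat_lit 5) 
(.lf (nat_lit 43932) (.g (nat_lit 1371) (.e (nat_lit 1252) (nat_lit 92) (.e (nat_lit 106240) (nat_lit 14) (.e (nat_lit 376867) (nat_lit 23) (.e (nat_lit 98384) (nat_lit 32) (.e (nat_lit 475201) (nat_lit 40) (.e (nat_lit 704662) (nat_lit 9) .nil)))))) (.g (nat_lit 5) .nil .nil))) 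
(.lf (nat_lit 43964) (.g (nat_lit 2195) (.e (nat_lit 1252) (nat_lit 92) (.e (nat_lit 98333) (nat_lit 18) (.e (nat_lit 164399) (nat_lit 256) (.e (nat_lit 57372) (nat_lit 2) (.e (nat_lit 90172) (nat_lit 14) (.e (nat_lit 180243) (nat_lit 5) (.e (nat_lit 532508) (nat_lit 2) (.e (nat_lit 106527) (nat_lit 9) .nil)))))))) (.g (nat_lit 4) .nil .nil))))))) 
(.nd (nat_lit 2) (.nd (nat_lit 3) (.nd (nat_lit 4) (.nd (nat_lit 5) 
(.lf (nat_lit 43906) (.g (nat_lit 2199) (.e (nat_lit 1251) (nat_lit 92) (.e (nat_lit 98368) (nat_lit 27) (.e (nat_lit 434248) (nat_lit 28) (.e (nat_lit 573482) (nat_lit 13) (.e (nat_lit 73472) (nat_lit 15) .nil))))) .nil)) 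
(.lf (nat_lit 43938) (.g (nat_lit 4264) (.e (nat_lit 1252) (nat_lit 92) (.e (nat_lit 98319) (nat_lit 17) (.e (nat_lit 7587) (nat_lit 406) (.e (nat_lit 65571) (nat_lit 3) (.e (nat_lit 98350) (nat_lit 24) (.e (nat_lit 409617) (nat_lit 10) (.e (nat_lit 5355) (nat_lit 298) .nil))))))) (.g (nat_lit 0) .nil .nil)))) (.nd (nat_lit 5) 
(.lf (nat_lit 43922) (.g (nat_lit 815) (.e (nat_lit 1252) (nat_lit 92) (.e (nat_lit 106240) (nat_lit 11) (.e (nat_lit 352311) (nat_lit 22) (.e (nat_lit 90169) (nat_lit 13) (.e (nat_lit 172142) (nat_lit 24) (.e (nat_lit 155667) (nat_lit 9) .nil)))))) (.g (nat_lit 4) .nil .nil))) 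
(.lf (nat_lit 43954) (.g (nat_lit 3028) (.e (nat_lit 1252) (nat_lit 92) (.e (nat_lit 98333) (nat_lit 18) (.e (nat_lit 164398) (nat_lit 256) (.e (nat_lit 57373) (nat_lit 2) (.e (nat_lit 90174) (nat_lit 14) (.e (nat_lit 180243) (nat_lit 5) (.e (nat_lit 532511) (nat_lit 2) (.e (nat_lit 106526) (nat_lit 9) .nil)))))))) (.g (nat_lit 5) .nil .nil))))) (.nd (nat_lit 4) (.nd (nat_lit 5) 
(.lf (nat_lit 43914) (.g (nat_lit 2607) (.e (nat_lit 1251) (nat_lit 92) (.e (nat_lit 98384) (nat_lit 32) (.e (nat_lit 475177) (nat_lit 24) (.e (nat_lit 516171) (nat_lit 13) (.e (nat_lit 458789) (nat_lit 23) .nil))))) .nil)) 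
(.lf (nat_lit 43946) (.g (nat_lit 2783) (.e (nat_lit 1252) (nat_lit 92) (.e (nat_lit 98333) (nat_lit 18) (.e (nat_lit 164398) (nat_lit 256) (.e (nat_lit 57372) (nat_lit 2) (.e (nat_lit 90172) (nat_lit 14) (.e (nat_lit 180243) (nat_lit 5) (.e (nat_lit 532508) (nat_lit 2) (.e (nat_lit 106526) (nat_lit 9) .nil)))))))) (.g (nat_lit 4) .nil .nil)))) (.nd (nat_lit 5) 
(.lf (nat_lit 43930) (.g (nat_lit 1098) (.e (nat_lit 1252) (nat_lit 92) (.e (nat_lit 106240) (nat_lit 14) (.e (nat_lit 376865) (nat_lit 22) (.e (nat_lit 90169) (nat_lit 13) (.e (nat_lit 172142) (nat_lit 24) (.e (nat_lit 155667) (nat_lit 9) .nil)))))) (.g (nat_lit 4) .nil .nil))) 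
(.lf (nat_lit 43962) (.g (nat_lit 2178) (.e (nat_lit 1252) (nat_lit 92) (.e (nat_lit 98333) (nat_lit 18) (.e (nat_lit 164399) (nat_lit 256) (.e (nat_lit 57372) (nat_lit 2) (.e (nat_lit 90172) (nat_lit 14) (.e (nat_lit 180243) (nat_lit 5) (.e (nat_lit 532508) (nat_lit 2) (.e (nat_lit 106523) (nat_lit 9) .nil)))))))) (.g (nat_lit 4) .nil .nil)))))) (.nd (nat_lit 3) (.nd (nat_lit 4) (.nd (nat_lit 5) 
(.lf (nat_lit 43910) (.g (nat_lit 4299) (.e (nat_lit 1251) (nat_lit 92) (.e (nat_lit 98373) (nat_lit 29) (.e (nat_lit 450588) (nat_lit 10) (.e (nat_lit 573452) (nat_lit 9) .nil)))) .nil)) 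
(.lf (nat_lit 43942) (.g (nat_lit 1755) (.e (nat_lit 1252) (nat_lit 92) (.e (nat_lit 98323) (nat_lit 17) (.e (nat_lit 6989) (nat_lit 377) (.e (nat_lit 1361) (nat_lit 102) (.e (nat_lit 286733) (nat_lit 2) .nil))))) .nil))) (.nd (nat_lit 5) 
(.lf (nat_lit 43926) (.g (nat_lit 1787) (.e (nat_lit 1252) (nat_lit 92) (.e (nat_lit 106240) (nat_lit 12) (.e (nat_lit 360467) (nat_lit 3) (.e (nat_lit 516146) (nat_lit 9) (.e (nat_lit 426440) (nat_lit 19) (.e (nat_lit 106521) (nat_lit 9) .nil)))))) (.g (nat_lit 5) .nil .nil))) 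
(.lf (nat_lit 43958) (.g (nat_lit 2738) (.e (nat_lit 1252) (nat_lit 92) (.e (nat_lit 98333) (nat_lit 18) (.e (nat_lit 164399) (nat_lit 256) (.e (nat_lit 57370) (nat_lit 2) (.e (nat_lit 90172) (nat_lit 14) (.e (nat_lit 180244) (nat_lit 5) (.e (nat_lit 532508) (nat_lit 2) (.e (nat_lit 106526) (nat_lit 9) .nil)))))))) (.g (nat_lit 5) .nil .nil))))) (.nd (nat_lit 4) (.nd (nat_lit 5) 
(.lf (nat_lit 43918) (.g (nat_lit 1755) (.e (nat_lit 1252) (nat_lit 92) (.e (nat_lit 98317) (nat_lit 9) (.e (nat_lit 336186) (nat_lit 11) (.e (nat_lit 368676) (nat_lit 21) (.e (nat_lit 516146) (nat_lit 9) (.e (nat_lit 426444) (nat_lit 19) (.e (nat_lit 106504) (nat_lit 9) .nil))))))) (.g (nat_lit 4) .nil .nil))) 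
(.lf (nat_lit 43950) (.g (nat_lit 3165) (.e (nat_lit 1252) (nat_lit 92) (.e (nat_lit 98333) (nat_lit 18) (.e (nat_lit 164398) (nat_lit 256) (.e (nat_lit 57373) (nat_lit 2) (.e (nat_lit 90174) (nat_lit 14) (.e (nat_lit 180243) (nat_lit 5) (.e (nat_lit 532508) (nat_lit 2) (.e (nat_lit 106517) (nat_lit 9) .nil)))))))) (.g (nat_lit 5) .nil .nil)))) (.nd (nat_lit 5) 
(.lf (nat_lit 43934) (.g (nat_lit 4349) (.e (nat_lit 1252) (nat_lit 92) (.e (nat_lit 98319) (nat_lit 17) (.e (nat_lit 7065) (nat_lit 377) (.e (nat_lit 1348) (nat_lit 102) (.e (nat_lit 286735) (nat_lit 3) (.e (nat_lit 98367) (nat_lit 27) (.e (nat_lit 434180) (nat_lit 0) .nil))))))) (.g (nat_lit 7) .nil .nil))) 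
(.lf (nat_lit 43966) (.g (nat_lit 2407) (.e (nat_lit 1252) (nat_lit 92) (.e (nat_lit 98333) (nat_lit 18) (.e (nat_lit 164399) (nat_lit 256) (.e (nat_lit 57372) (nat_lit 2) (.e (nat_lit 90174) (nat_lit 14) (.e (nat_lit 180243) (nat_lit 5) (.e (nat_lit 532508) (nat_lit 2) (.e (nat_lit 106523) (nat_lit 9) .nil)))))))) (.g (nat_lit 4) .nil .nil)))))))) 
(.nd (nat_lit 1) (.nd (nat_lit 2) (.nd (nat_lit 3) (.nd (nat_lit 4) (.nd (nat_lit 5) 
(.lf (nat_lit 43905) (.g (nat_lit 3162) (.e (nat_lit 1251) (nat_lit 92) (.e (nat_lit 98368) (nat_lit 27) (.e (nat_lit 434248) (nat_lit 28) (.e (nat_lit 573482) (nat_lit 13) (.e (nat_lit 65637) (nat_lit 15) (.e (nat_lit 3253) (nat_lit 197) (.e (nat_lit 532503) (nat_lit 1) (.e (nat_lit 57870) (nat_lit 264) (.e (nat_lit 993) (nat_lit 81) .nil))))))))) (.g (nat_lit 5) .nil .nil))) 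
(.lf (nat_lit 43937) (.g (nat_lit 4349) (.e (nat_lit 1252) (nat_lit 92) (.e (nat_lit 98319) (nat_lit 17) (.e (nat_lit 7587) (nat_lit 406) (.e (nat_lit 65571) (nat_lit 3) (.e (nat_lit 98350) (nat_lit 24) (.e (nat_lit 409616) (nat_lit 10) (.e (nat_lit 5355) (nat_lit 298) .nil))))))) (.g (nat_lit 7) .nil .nil)))) (.nd (nat_lit 5) 
(.lf (nat_lit 43921) (.g (nat_lit 3128) (.e (nat_lit 1252) (nat_lit 92) (.e (nat_lit 106240) (nat_lit 9) (.e (nat_lit 336164) (nat_lit 10) (.e (nat_lit 344117) (nat_lit 21) (.e (nat_lit 516151) (nat_lit 9) (.e (nat_lit 433920) (nat_lit 24) (.e (nat_lit 155667) (nat_lit 9) .nil))))))) (.g (nat_lit 5) .nil .nil))) 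
(.lf (nat_lit 43953) (.g (nat_lit 2283) (.e (nat_lit 1252) (nat_lit 92) (.e (nat_lit 98333) (nat_lit 18) (.e (nat_lit 164398) (nat_lit 256) (.e (nat_lit 57373) (nat_lit 2) (.e (nat_lit 90174) (nat_lit 14) (.e (nat_lit 180243) (nat_lit 5) (.e (nat_lit 532508) (nat_lit 2) (.e (nat_lit 106527) (nat_lit 9) .nil)))))))) (.g (nat_lit 4) .nil .nil))))) (.nd (nat_lit 4) (.nd (nat_lit 5) 
(.lf (nat_lit 43913) (.g (nat_lit 2763) (.e (nat_lit 1251) (nat_lit 92) (.e (nat_lit 98384) (nat_lit 32) (.e (nat_lit 475177) (nat_lit 24) (.e (nat_lit 516169) (nat_lit 13) (.e (nat_lit 458789) (nat_lit 23) .nil))))) .nil)) 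
(.lf (nat_lit 43945) (.g (nat_lit 2474) (.e (nat_lit 1252) (nat_lit 92) (.e (nat_lit 98333) (nat_lit 18) (.e (nat_lit 164397) (nat_lit 256) (.e (nat_lit 57371) (nat_lit 2) (.e (nat_lit 90174) (nat_lit 14) (.e (nat_lit 180243) (nat_lit 5) (.e (nat_lit 532508) (nat_lit 2) (.e (nat_lit 106526) (nat_lit 9) .nil)))))))) (.g (nat_lit 4) .nil .nil)))) (.nd (nat_lit 5) 
(.lf (nat_lit 43929) (.g (nat_lit 1261) (.e (nat_lit 1252) (nat_lit 92) (.e (nat_lit 106240) (nat_lit 14) (.e (nat_lit 376862) (nat_lit 22) (.e (nat_lit 90172) (nat_lit 14) (.e (nat_lit 188160) (nat_lit 19) (.e (nat_lit 647193) (nat_lit 9) .nil)))))) (.g (nat_lit 4) .nil .nil))) 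
(.lf (nat_lit 43961) (.g (nat_lit 3145) (.e (nat_lit 1252) (nat_lit 92) (.e (nat_lit 98333) (nat_lit 18) (.e (nat_lit 164399) (nat_lit 256) (.e (nat_lit 57372) (nat_lit 2) (.e (nat_lit 90172) (nat_lit 14) (.e (nat_lit 180243) (nat_lit 5) (.e (nat_lit 532508) (nat_lit 2) (.e (nat_lit 106517) (nat_lit 9) .nil)))))))) (.g (nat_lit 5) .nil .nil)))))) (.nd (nat_lit 3) (.nd (nat_lit 4) (.nd (nat_lit 5) 
(.lf (nat_lit 43909) (.g (nat_lit 763) (.e (nat_lit 1251) (nat_lit 92) (.e (nat_lit 98373) (nat_lit 29) (.e (nat_lit 450587) (nat_lit 10) .nil))) .nil)) 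
(.lf (nat_lit 43941) (.g (nat_lit 1165) (.e (nat_lit 1252) (nat_lit 92) (.e (nat_lit 98323) (nat_lit 17) (.e (nat_lit 6989) (nat_lit 377) (.e (nat_lit 1361) (nat_lit 102) .nil)))) .nil))) (.nd (nat_lit 5) 
(.lf (nat_lit 43925) (.g (nat_lit 1030) (.e (nat_lit 1252) (nat_lit 92) (.e (nat_lit 106240) (nat_lit 12) (.e (nat_lit 360466) (nat_lit 3) (.e (nat_lit 516146) (nat_lit 9) (.e (nat_lit 433920) (nat_lit 24) (.e (nat_lit 155667) (nat_lit 9) .nil)))))) (.g (nat_lit 4) .nil .nil))) 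
(.lf (nat_lit 43957) (.g (nat_lit 2256) (.e (nat_lit 1252) (nat_lit 92) (.e (nat_lit 98333) (nat_lit 18) (.e (nat_lit 164399) (nat_lit 256) (.e (nat_lit 57370) (nat_lit 2) (.e (nat_lit 90172) (nat_lit 14) (.e (nat_lit 180244) (nat_lit 5) (.e (nat_lit 532508) (nat_lit 2) (.e (nat_lit 106517) (nat_lit 9) .nil)))))))) (.g (nat_lit 4) .nil .nil))))) (.nd (nat_lit 4) (.nd (nat_lit 5) 
(.lf (nat_lit 43917) (.g (nat_lit 1330) (.e (nat_lit 1252) (nat_lit 92) (.e (nat_lit 98317) (nat_lit 9) (.e (nat_lit 336184) (nat_lit 11) (.e (nat_lit 368676) (nat_lit 21) (.e (nat_lit 516179) (nat_lit 15) .nil))))) .nil)) 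
(.lf (nat_lit 43949) (.g (nat_lit 2542) (.e (nat_lit 1252) (nat_lit 92) (.e (nat_lit 98333) (nat_lit 18) (.e (nat_lit 164398) (nat_lit 256) (.e (nat_lit 57373) (nat_lit 2) (.e (nat_lit 90172) (nat_lit 14) (.e (nat_lit 180244) (nat_lit 5) (.e (nat_lit 532508) (nat_lit 2) (.e (nat_lit 106526) (nat_lit 9) .nil)))))))) (.g (nat_lit 4) .nil .nil)))) (.nd (nat_lit 5) 
(.lf (nat_lit 43933) (.g (nat_lit 1596) (.e (nat_lit 1252) (nat_lit 92) (.e (nat_lit 106240) (nat_lit 14) (.e (nat_lit 376869) (nat_lit 23) (.e (nat_lit 98384) (nat_lit 32) (.e (nat_lit 475201) (nat_lit 40) (.e (nat_lit 704663) (nat_lit 9) .nil)))))) (.g (nat_lit 5) .nil .nil))) 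
(.lf (nat_lit 43965) (.g (nat_lit 3066) (.e (nat_lit 1252) (nat_lit 92) (.e (nat_lit 98333) (nat_lit 18) (.e (nat_lit 164399) (nat_lit 256) (.e (nat_lit 57372) (nat_lit 2) (.e (nat_lit 90172) (nat_lit 14) (.e (nat_lit 180244) (nat_lit 5) (.e (nat_lit 532508) (nat_lit 2) (.e (nat_lit 106517) (nat_lit 9) .nil)))))))) (.g (nat_lit 5) .nil .nil))))))) 
(.nd (nat_lit 2) (.nd (nat_lit 3) (.nd (nat_lit 4) (.nd (nat_lit 5) 
(.lf (nat_lit 43907) (.g (nat_lit 2199) (.e (nat_lit 1251) (nat_lit 92) (.e (nat_lit 98368) (nat_lit 27) (.e (nat_lit 434248) (nat_lit 28) (.e (nat_lit 573482) (nat_lit 13) (.e (nat_lit 73472) (nat_lit 18) .nil))))) .nil)) 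
(.lf (nat_lit 43939) (.g (nat_lit 3933) (.e (nat_lit 1252) (nat_lit 92) (.e (nat_lit 98319) (nat_lit 17) (.e (nat_lit 7591) (nat_lit 407) (.e (nat_lit 73747) (nat_lit 3) (.e (nat_lit 516139) (nat_lit 7) (.e (nat_lit 409617) (nat_lit 10) (.e (nat_lit 5355) (nat_lit 298) .nil))))))) (.g (nat_lit 7) .nil .nil)))) (.nd (nat_lit 5) 
(.lf (nat_lit 43923) (.g (nat_lit 563) (.e (nat_lit 1252) (nat_lit 92) (.e (nat_lit 106240) (nat_lit 11) (.e (nat_lit 352311) (nat_lit 22) (.e (nat_lit 90169) (nat_lit 13) (.e (nat_lit 179968) (nat_lit 24) (.e (nat_lit 155667) (nat_lit 9) .nil)))))) (.g (nat_lit 4) .nil .nil))) 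
(.lf (nat_lit 43955) (.g (nat_lit 2492) (.e (nat_lit 1252) (nat_lit 92) (.e (nat_lit 98333) (nat_lit 18) (.e (nat_lit 164398) (nat_lit 256) (.e (nat_lit 57379) (nat_lit 3) (.e (nat_lit 98366) (nat_lit 27) .nil))))) .nil)))) (.nd (nat_lit 4) (.nd (nat_lit 5) 
(.lf (nat_lit 43915) (.g (nat_lit 933) (.e (nat_lit 1252) (nat_lit 92) (.e (nat_lit 98317) (nat_lit 9) (.e (nat_lit 336087) (nat_lit 9) (.e (nat_lit 336019) (nat_lit 3) .nil)))) .nil)) 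
(.lf (nat_lit 43947) (.g (nat_lit 2710) (.e (nat_lit 1252) (nat_lit 92) (.e (nat_lit 98333) (nat_lit 18) (.e (nat_lit 164398) (nat_lit 256) (.e (nat_lit 57372) (nat_lit 2) (.e (nat_lit 90172) (nat_lit 14) (.e (nat_lit 180244) (nat_lit 5) (.e (nat_lit 532508) (nat_lit 2) (.e (nat_lit 106526) (nat_lit 9) .nil)))))))) (.g (nat_lit 4) .nil .nil)))) (.nd (nat_lit 5) 
(.lf (nat_lit 43931) (.g (nat_lit 1235) (.e (nat_lit 1252) (nat_lit 92) (.e (nat_lit 106240) (nat_lit 14) (.e (nat_lit 376865) (nat_lit 22) (.e (nat_lit 90172) (nat_lit 14) (.e (nat_lit 188160) (nat_lit 19) (.e (nat_lit 647193) (nat_lit 9) .nil)))))) (.g (nat_lit 4) .nil .nil))) 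
(.lf (nat_lit 43963) (.g (nat_lit 3709) (.e (nat_lit 1252) (nat_lit 92) (.e (nat_lit 98333) (nat_lit 18) (.e (nat_lit 164399) (nat_lit 256) (.e (nat_lit 57372) (nat_lit 2) (.e (nat_lit 90172) (nat_lit 14) (.e (nat_lit 180243) (nat_lit 5) (.e (nat_lit 532508) (nat_lit 2) (.e (nat_lit 106526) (nat_lit 9) .nil)))))))) (.g (nat_lit 6) .nil .nil)))))) (.nd (nat_lit 3) (.nd (nat_lit 4) (.nd (nat_lit 5) 
(.lf (nat_lit 43911) (.g (nat_lit 4160) (.e (nat_lit 1251) (nat_lit 92) (.e (nat_lit 98373) (nat_lit 29) (.e (nat_lit 450588) (nat_lit 10) (.e (nat_lit 573470) (nat_lit 11) .nil)))) .nil)) 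
(.lf (nat_lit 43943) (.g (nat_lit 3855) (.e (nat_lit 1252) (nat_lit 92) (.e (nat_lit 98323) (nat_lit 17) (.e (nat_lit 6989) (nat_lit 377) (.e (nat_lit 2777) (nat_lit 178) (.e (nat_lit 286735) (nat_lit 3) (.e (nat_lit 98350) (nat_lit 24) (.e (nat_lit 409617) (nat_lit 10) (.e (nat_lit 5355) (nat_lit 298) .nil)))))))) (.g (nat_lit 6) .nil .nil)))) (.nd (nat_lit 5) 
(.lf (nat_lit 43927) (.g (nat_lit 583) (.e (nat_lit 1252) (nat_lit 92) (.e (nat_lit 106240) (nat_lit 14) (.e (nat_lit 376862) (nat_lit 22) (.e (nat_lit 90168) (nat_lit 13) (.e (nat_lit 179968) (nat_lit 24) (.e (nat_lit 155667) (nat_lit 9) .nil)))))) (.g (nat_lit 4) .nil .nil))) 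
(.lf (nat_lit 43959) (.g (nat_lit 2634) (.e (nat_lit 1252) (nat_lit 92) (.e (nat_lit 98333) (nat_lit 18) (.e (nat_lit 164399) (nat_lit 256) (.e (nat_lit 57370) (nat_lit 2) (.e (nat_lit 90174) (nat_lit 14) (.e (nat_lit 180243) (nat_lit 5) (.e (nat_lit 532508) (nat_lit 2) (.e (nat_lit 106517) (nat_lit 9) .nil)))))))) (.g (nat_lit 5) .nil .nil))))) (.nd (nat_lit 4) (.nd (nat_lit 5) 
(.lf (nat_lit 43919) (.g (nat_lit 1483) (.e (nat_lit 1252) (nat_lit 92) (.e (nat_lit 98317) (nat_lit 9) (.e (nat_lit 336186) (nat_lit 11) (.e (nat_lit 368676) (nat_lit 21) (.e (nat_lit 516179) (nat_lit 15) .nil))))) .nil)) 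
(.lf (nat_lit 43951) (.g (nat_lit 2266) (.e (nat_lit 1252) (nat_lit 92) (.e (nat_lit 98333) (nat_lit 18) (.e (nat_lit 164398) (nat_lit 256) (.e (nat_lit 57373) (nat_lit 2) (.e (nat_lit 90174) (nat_lit 14) (.e (nat_lit 180243) (nat_lit 5) (.e (nat_lit 532508) (nat_lit 2) (.e (nat_lit 106523) (nat_lit 9) .nil)))))))) (.g (nat_lit 4) .nil .nil)))) (.nd (nat_lit 5) 
(.lf (nat_lit 43935) (.g (nat_lit 3933) (.e (nat_lit 1252) (nat_lit 92) (.e (nat_lit 98319) (nat_lit 17) (.e (nat_lit 7065) (nat_lit 377) (.e (nat_lit 1349) (nat_lit 102) (.e (nat_lit 286733) (nat_lit 2) (.e (nat_lit 90174) (nat_lit 14) (.e (nat_lit 180277) (nat_lit 32) .nil))))))) (.g (nat_lit 7) .nil .nil))) 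
(.lf (nat_lit 43967) (.g (nat_lit 3909) (.e (nat_lit 1252) (nat_lit 92) (.e (nat_lit 98333) (nat_lit 18) (.e (nat_lit 164399) (nat_lit 256) (.e (nat_lit 57372) (nat_lit 2) (.e (nat_lit 90174) (nat_lit 14) (.e (nat_lit 180243) (nat_lit 5) (.e (nat_lit 532508) (nat_lit 2) (.e (nat_lit 106526) (nat_lit 9) .nil)))))))) (.g (nat_lit 7) .nil .nil)))))))))

noncomputable def tv610 : DT := (.nd (nat_lit 0) (.nd (nat_lit 1) (.nd (nat_lit 2) (.nd (nat_lit 3) (.nd (nat_lit 4) (.nd (nat_lit 5) 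
(.lf (nat_lit 43968) (.g (nat_lit 2197) (.e (nat_lit 1252) (nat_lit 92) (.e (nat_lit 98333) (nat_lit 18) (.e (nat_lit 164399) (nat_lit 256) (.e (nat_lit 57372) (nat_lit 2) (.e (nat_lit 90174) (nat_lit 14) (.e (nat_lit 180243) (nat_lit 5) (.e (nat_lit 532511) (nat_lit 2) (.e (nat_lit 106523) (nat_lit 9) .nil)))))))) (.g (nat_lit 4) .nil .nil))) 
(.lf (nat_lit 44000) (.g (nat_lit 1000) (.e (nat_lit 1252) (nat_lit 92) (.e (nat_lit 98333) (nat_lit 18) (.e (nat_lit 164403) (nat_lit 256) .nil))) .nil))) (.nd (nat_lit 5) 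
(.lf (nat_lit 43984) (.g (nat_lit 3178) (.e (nat_lit 1252) (nat_lit 92) (.e (nat_lit 98333) (nat_lit 18) (.e (nat_lit 164399) (nat_lit 256) (.e (nat_lit 57373) (nat_lit 2) (.e (nat_lit 90174) (nat_lit 14) (.e (nat_lit 180243) (nat_lit 5) (.e (nat_lit 532511) (nat_lit 2) (.e (nat_lit 106523) (nat_lit 9) .nil)))))))) (.g (nat_lit 5) .nil .nil))) 
(.lf (nat_lit 44016) (.g (nat_lit 890) (.e (nat_lit 1252) (nat_lit 92) (.e (nat_lit 98334) (nat_lit 18) (.e (nat_lit 164398) (nat_lit 256) .nil))) .nil)))) (.nd (nat_lit 4) (.nd (nat_lit 5) 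
(.lf (nat_lit 43976) (.g (nat_lit 4296) (.e (nat_lit 1252) (nat_lit 92) (.e (nat_lit 98333) (nat_lit 18) (.e (nat_lit 164399) (nat_lit 256) (.e (nat_lit 57373) (nat_lit 2) (.e (nat_lit 90174) (nat_lit 14) (.e (nat_lit 180243) (nat_lit 5) (.e (nat_lit 532508) (nat_lit 2) (.e (nat_lit 106517) (nat_lit 9) .nil)))))))) (.g (nat_lit 7) .nil .nil))) 
(.lf (nat_lit 44008) (.g (nat_lit 4240) (.e (nat_lit 1252) (nat_lit 92) (.e (nat_lit 98333) (nat_lit 18) (.e (nat_lit 164403) (nat_lit 256) (.e (nat_lit 57373) (nat_lit 2) (.e (nat_lit 90174) (nat_lit 14) (.e (nat_lit 180243) (nat_lit 5) (.e (nat_lit 532508) (nat_lit 2) (.e (nat_lit 106517) (nat_lit 9) .nil)))))))) (.g (nat_lit 5) .nil .nil)))) (.nd (nat_lit 5) 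
(.lf (nat_lit 43992) (.g (nat_lit 2669) (.e (nat_lit 1252) (nat_lit 92) (.e (nat_lit 98333) (nat_lit 18) (.e (nat_lit 164399) (nat_lit 256) (.e (nat_lit 57378) (nat_lit 3) (.e (nat_lit 98366) (nat_lit 27) .nil))))) .nil)) 
(.lf (nat_lit 44024) (.g (nat_lit 3095) (.e (nat_lit 1252) (nat_lit 92) (.e (nat_lit 98334) (nat_lit 18) (.e (nat_lit 164398) (nat_lit 256) (.e (nat_lit 57372) (nat_lit 2) (.e (nat_lit 90174) (nat_lit 14) .nil))))) .nil))))) (.nd (nat_lit 3) (.nd (nat_lit 4) (.nd (nat_lit 5) 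
(.lf (nat_lit 43972) (.g (nat_lit 3323) (.e (nat_lit 1252) (nat_lit 92) (.e (nat_lit 98333) (nat_lit 18) (.e (nat_lit 164399) (nat_lit 256) (.e (nat_lit 57373) (nat_lit 2) (.e (nat_lit 90172) (nat_lit 14) (.e (nat_lit 180244) (nat_lit 5) (.e (nat_lit 532508) (nat_lit 2) (.e (nat_lit 106517) (nat_lit 9) .nil)))))))) (.g (nat_lit 5) .nil .nil))) 
(.lf (nat_lit 44004) (.g (nat_lit 3040) (.e (nat_lit 1252) (nat_lit 92) (.e (nat_lit 98333) (nat_lit 18) (.e (nat_lit 164403) (nat_lit 256) (.e (nat_lit 57373) (nat_lit 2) (.e (nat_lit 90170) (nat_lit 13) (.e (nat_lit 172065) (nat_lit 3) (.e (nat_lit 204834) (nat_lit 19) (.e (nat_lit 106517) (nat_lit 9) .nil)))))))) (.g (nat_lit 4) .nil .nil)))) (.nd (nat_lit 5) 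
(.lf (nat_lit 43988) (.g (nat_lit 2033) (.e (nat_lit 1252) (nat_lit 92) (.e (nat_lit 98333) (nat_lit 18) (.e (nat_lit 164399) (nat_lit 256) (.e (nat_lit 57375) (nat_lit 2) (.e (nat_lit 90174) (nat_lit 14) (.e (nat_lit 180243) (nat_lit 5) (.e (nat_lit 532508) (nat_lit 2) (.e (nat_lit 106523) (nat_lit 9) .nil)))))))) (.g (nat_lit 4) .nil .nil))) 
(.lf (nat_lit 44020) (.g (nat_lit 4137) (.e (nat_lit 1252) (nat_lit 92) (.e (nat_lit 98334) (nat_lit 18) (.e (nat_lit 164398) (nat_lit 256) (.e (nat_lit 57372) (nat_lit 2) (.e (nat_lit 90172) (nat_lit 14) (.e (nat_lit 180243) (nat_lit 5) (.e (nat_lit 532508) (nat_lit 2) (.e (nat_lit 106526) (nat_lit 9) .nil)))))))) (.g (nat_lit 5) .nil .nil))))) (.nd (nat_lit 4) (.nd (nat_lit 5) 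
(.lf (nat_lit 43980) (.g (nat_lit 2349) (.e (nat_lit 1252) (nat_lit 92) (.e (nat_lit 98333) (nat_lit 18) (.e (nat_lit 164399) (nat_lit 256) (.e (nat_lit 57373) (nat_lit 2) (.e (nat_lit 90174) (nat_lit 14) (.e (nat_lit 180243) (nat_lit 5) (.e (nat_lit 532508) (nat_lit 2) (.e (nat_lit 106524) (nat_lit 9) .nil)))))))) (.g (nat_lit 4) .nil .nil))) 
(.lf (nat_lit 44012) (.g (nat_lit 3122) (.e (nat_lit 1252) (nat_lit 92) (.e (nat_lit 98333) (nat_lit 18) (.e (nat_lit 164403) (nat_lit 256) (.e (nat_lit 57373) (nat_lit 2) (.e (nat_lit 90174) (nat_lit 14) (.e (nat_lit 180243) (nat_lit 5) (.e (nat_lit 532511) (nat_lit 2) (.e (nat_lit 106523) (nat_lit 9) .nil)))))))) (.g (nat_lit 4) .nil .nil)))) (.nd (nat_lit 5) 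
(.lf (nat_lit 43996) (.g (nat_lit 3129) (.e (nat_lit 1252) (nat_lit 92) (.e (nat_lit 98333) (nat_lit 18) (.e (nat_lit 164399) (nat_lit 256) (.e (nat_lit 57379) (nat_lit 3) (.e (nat_lit 98366) (nat_lit 27) (.e (nat_lit 434231) (nat_lit 23) (.e (nat_lit 532507) (nat_lit 2) (.e (nat_lit 106517) (nat_lit 9) .nil)))))))) (.g (nat_lit 5) .nil .nil))) 
(.lf (nat_lit 44028) (.g (nat_lit 2723) (.e (nat_lit 1252) (nat_lit 92) (.e (nat_lit 98334) (nat_lit 18) (.e (nat_lit 164398) (nat_lit 256) (.e (nat_lit 57373) (nat_lit 2) (.e (nat_lit 90172) (nat_lit 14) .nil))))) .nil)))))) (.nd (nat_lit 2) (.nd (nat_lit 3) (.nd (nat_lit 4) (.nd (nat_lit 5) 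
(.lf (nat_lit 43970) (.g (nat_lit 2407) (.e (nat_lit 1252) (nat_lit 92) (.e (nat_lit 98333) (nat_lit 18) (.e (nat_lit 164399) (nat_lit 256) (.e (nat_lit 57373) (nat_lit 2) (.e (nat_lit 90172) (nat_lit 14) .nil))))) .nil)) 
(.lf (nat_lit 44002) (.g (nat_lit 3055) (.e (nat_lit 1252) (nat_lit 92) (.e (nat_lit 98333) (nat_lit 18) (.e (nat_lit 164403) (nat_lit 256) (.e (nat_lit 57371) (nat_lit 2) (.e (nat_lit 90172) (nat_lit 14) (.e (nat_lit 180244) (nat_lit 5) (.e (nat_lit 532508) (nat_lit 2) (.e (nat_lit 106526) (nat_lit 9) .nil)))))))) (.g (nat_lit 4) .nil .nil)))) (.nd (nat_lit 5) 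
(.lf (nat_lit 43986) (.g (nat_lit 2506) (.e (nat_lit 1252) (nat_lit 92) (.e (nat_lit 98333) (nat_lit 18) (.e (nat_lit 164399) (nat_lit 256) (.e (nat_lit 57374) (nat_lit 2) (.e (nat_lit 90174) (nat_lit 14) (.e (nat_lit 180243) (nat_lit 5) (.e (nat_lit 532508) (nat_lit 2) (.e (nat_lit 106526) (nat_lit 9) .nil)))))))) (.g (nat_lit 4) .nil .nil))) 
(.lf (nat_lit 44018) (.g (nat_lit 3020) (.e (nat_lit 1252) (nat_lit 92) (.e (nat_lit 98334) (nat_lit 18) (.e (nat_lit 164398) (nat_lit 256) (.e (nat_lit 57371) (nat_lit 2) (.e (nat_lit 90172) (nat_lit 14) .nil))))) .nil)))) (.nd (nat_lit 4) (.nd (nat_lit 5) 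
(.lf (nat_lit 43978) (.g (nat_lit 2205) (.e (nat_lit 1252) (nat_lit 92) (.e (nat_lit 98333) (nat_lit 18) (.e (nat_lit 164399) (nat_lit 256) (.e (nat_lit 57373) (nat_lit 2) (.e (nat_lit 90174) (nat_lit 14) (.e (nat_lit 180243) (nat_lit 5) (.e (nat_lit 532508) (nat_lit 2) (.e (nat_lit 106520) (nat_lit 9) .nil)))))))) (.g (nat_lit 4) .nil .nil))) 
(.lf (nat_lit 44010) (.g (nat_lit 5004) (.e (nat_lit 1252) (nat_lit 92) (.e (nat_lit 98333) (nat_lit 18) (.e (nat_lit 164403) (nat_lit 256) (.e (nat_lit 57373) (nat_lit 2) (.e (nat_lit 90174) (nat_lit 14) (.e (nat_lit 180243) (nat_lit 5) (.e (nat_lit 532508) (nat_lit 2) (.e (nat_lit 106526) (nat_lit 9) .nil)))))))) (.g (nat_lit 6) .nil .nil)))) (.nd (nat_lit 5) 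
(.lf (nat_lit 43994) (.g (nat_lit 1522) (.e (nat_lit 1252) (nat_lit 92) (.e (nat_lit 98333) (nat_lit 18) (.e (nat_lit 164399) (nat_lit 256) (.e (nat_lit 57379) (nat_lit 3) .nil)))) .nil)) 
(.lf (nat_lit 44026) (.g (nat_lit 3386) (.e (nat_lit 1252) (nat_lit 92) (.e (nat_lit 98334) (nat_lit 18) (.e (nat_lit 164398) (nat_lit 256) (.e (nat_lit 57372) (nat_lit 2) (.e (nat_lit 90174) (nat_lit 14) (.e (nat_lit 180243) (nat_lit 5) (.e (nat_lit 532511) (nat_lit 2) (.e (nat_lit 106526) (nat_lit 9) .nil)))))))) (.g (nat_lit 4) .nil .nil)))))) (.nd (nat_lit 3) (.nd (nat_lit 4) (.nd (nat_lit 5) 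
(.lf (nat_lit 43974) (.g (nat_lit 2205) (.e (nat_lit 1252) (nat_lit 92) (.e (nat_lit 98333) (nat_lit 18) (.e (nat_lit 164399) (nat_lit 256) (.e (nat_lit 57373) (nat_lit 2) (.e (nat_lit 90174) (nat_lit 14) (.e (nat_lit 180243) (nat_lit 5) (.e (nat_lit 532508) (nat_lit 2) (.e (nat_lit 106504) (nat_lit 9) .nil)))))))) (.g (nat_lit 4) .nil .nil))) 
(.lf (nat_lit 44006) (.g (nat_lit 3385) (.e (nat_lit 1252) (nat_lit 92) (.e (nat_lit 98333) (nat_lit 18) (.e (nat_lit 164403) (nat_lit 256) (.e (nat_lit 57373) (nat_lit 2) (.e (nat_lit 90172) (nat_lit 14) (.e (nat_lit 180244) (nat_lit 5) (.e (nat_lit 532508) (nat_lit 2) (.e (nat_lit 106517) (nat_lit 9) .nil)))))))) (.g (nat_lit 4) .nil .nil)))) (.nd (nat_lit 5) 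
(.lf (nat_lit 43990) (.g (nat_lit 2050) (.e (nat_lit 1252) (nat_lit 92) (.e (nat_lit 98333) (nat_lit 18) (.e (nat_lit 164399) (nat_lit 256) (.e (nat_lit 57375) (nat_lit 2) (.e (nat_lit 90174) (nat_lit 14) (.e (nat_lit 180243) (nat_lit 5) (.e (nat_lit 532508) (nat_lit 2) (.e (nat_lit 106527) (nat_lit 9) .nil)))))))) (.g (nat_lit 4) .nil .nil))) 
(.lf (nat_lit 44022) (.g (nat_lit 3421) (.e (nat_lit 1252) (nat_lit 92) (.e (nat_lit 98334) (nat_lit 18) (.e (nat_lit 164398) (nat_lit 256) (.e (nat_lit 57372) (nat_lit 2) (.e (nat_lit 90172) (nat_lit 14) (.e (nat_lit 180244) (nat_lit 5) (.e (nat_lit 532508) (nat_lit 2) (.e (nat_lit 106517) (nat_lit 9) .nil)))))))) (.g (nat_lit 4) .nil .nil))))) (.nd (nat_lit 4) (.nd (nat_lit 5) 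
(.lf (nat_lit 43982) (.g (nat_lit 2498) (.e (nat_lit 1252) (nat_lit 92) (.e (nat_lit 98333) (nat_lit 18) (.e (nat_lit 164399) (nat_lit 256) (.e (nat_lit 57373) (nat_lit 2) (.e (nat_lit 90174) (nat_lit 14) (.e (nat_lit 180243) (nat_lit 5) (.e (nat_lit 532510) (nat_lit 2) (.e (nat_lit 106514) (nat_lit 9) .nil)))))))) (.g (nat_lit 4) .nil .nil))) 
(.lf (nat_lit 44014) (.g (nat_lit 2117) (.e (nat_lit 1252) (nat_lit 92) (.e (nat_lit 98334) (nat_lit 18) (.e (nat_lit 164396) (nat_lit 256) (.e (nat_lit 57371) (nat_lit 2) (.e (nat_lit 90174) (nat_lit 14) (.e (nat_lit 180243) (nat_lit 5) (.e (nat_lit 532508) (nat_lit 2) (.e (nat_lit 106517) (nat_lit 9) .nil)))))))) (.g (nat_lit 4) .nil .nil)))) (.nd (nat_lit 5) 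
(.lf (nat_lit 43998) (.g (nat_lit 2208) (.e (nat_lit 1252) (nat_lit 92) (.e (nat_lit 98333) (nat_lit 18) (.e (nat_lit 164400) (nat_lit 256) (.e (nat_lit 57372) (nat_lit 2) (.e (nat_lit 90172) (nat_lit 14) (.e (nat_lit 180244) (nat_lit 5) (.e (nat_lit 532508) (nat_lit 2) (.e (nat_lit 106526) (nat_lit 9) .nil)))))))) (.g (nat_lit 4) .nil .nil))) 
(.lf (nat_lit 44030) (.g (nat_lit 2452) (.e (nat_lit 1252) (nat_lit 92) (.e (nat_lit 98334) (nat_lit 18) (.e (nat_lit 164398) (nat_lit 256) (.e (nat_lit 57373) (nat_lit 2) (.e (nat_lit 90174) (nat_lit 14) (.e (nat_lit 180243) (nat_lit 5) (.e (nat_lit 532508) (nat_lit 2) (.e (nat_lit 106516) (nat_lit 9) .nil)))))))) (.g (nat_lit 4) .nil .nil)))))))) 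
(.nd (nat_lit 1) (.nd (nat_lit 2) (.nd (nat_lit 3) (.nd (nat_lit 4) (.nd (nat_lit 5) 
(.lf (nat_lit 43969) (.g (nat_lit 3247) (.e (nat_lit 1252) (nat_lit 92) (.e (nat_lit 98333) (nat_lit 18) (.e (nat_lit 164399) (nat_lit 256) (.e (nat_lit 57373) (nat_lit 2) (.e (nat_lit 90170) (nat_lit 13) (.e (nat_lit 172067) (nat_lit 3) (.e (nat_lit 204834) (nat_lit 19) (.e (nat_lit 106517) (nat_lit 9) .nil)))))))) (.g (nat_lit 5) .nil .nil))) 
(.lf (nat_lit 44001) (.g (nat_lit 2724) (.e (nat_lit 1252) (nat_lit 92) (.e (nat_lit 98333) (nat_lit 18) (.e (nat_lit 164403) (nat_lit 256) (.e (nat_lit 57371) (nat_lit 2) (.e (nat_lit 90172) (nat_lit 14) .nil))))) .nil))) (.nd (nat_lit 5) 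
(.lf (nat_lit 43985) (.g (nat_lit 3998) (.e (nat_lit 1252) (nat_lit 92) (.e (nat_lit 98333) (nat_lit 18) (.e (nat_lit 164399) (nat_lit 256) (.e (nat_lit 57373) (nat_lit 2) (.e (nat_lit 90174) (nat_lit 14) (.e (nat_lit 180243) (nat_lit 5) (.e (nat_lit 532511) (nat_lit 2) (.e (nat_lit 106526) (nat_lit 9) .nil)))))))) (.g (nat_lit 6) .nil .nil))) 
(.lf (nat_lit 44017) (.g (nat_lit 2095) (.e (nat_lit 1252) (nat_lit 92) (.e (nat_lit 98334) (nat_lit 18) (.e (nat_lit 164398) (nat_lit 256) (.e (nat_lit 57370) (nat_lit 2) .nil)))) .nil)))) (.nd (nat_lit 4) (.nd (nat_lit 5) 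
(.lf (nat_lit 43977) (.g (nat_lit 2338) (.e (nat_lit 1252) (nat_lit 92) (.e (nat_lit 98333) (nat_lit 18) (.e (nat_lit 164399) (nat_lit 256) (.e (nat_lit 57373) (nat_lit 2) (.e (nat_lit 90174) (nat_lit 14) (.e (nat_lit 180243) (nat_lit 5) (.e (nat_lit 532508) (nat_lit 2) (.e (nat_lit 106519) (nat_lit 9) .nil)))))))) (.g (nat_lit 4) .nil .nil))) 
(.lf (nat_lit 44009) (.g (nat_lit 3341) (.e (nat_lit 1252) (nat_lit 92) (.e (nat_lit 98333) (nat_lit 18) (.e (nat_lit 164403) (nat_lit 256) (.e (nat_lit 57373) (nat_lit 2) (.e (nat_lit 90174) (nat_lit 14) (.e (nat_lit 180243) (nat_lit 5) (.e (nat_lit 532508) (nat_lit 2) (.e (nat_lit 106523) (nat_lit 9) .nil)))))))) (.g (nat_lit 4) .nil .nil)))) (.nd (nat_lit 5) 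
(.lf (nat_lit 43993) (.g (nat_lit 3070) (.e (nat_lit 1252) (nat_lit 92) (.e (nat_lit 98333) (nat_lit 18) (.e (nat_lit 164399) (nat_lit 256) (.e (nat_lit 57378) (nat_lit 3) (.e (nat_lit 98367) (nat_lit 27) (.e (nat_lit 434231) (nat_lit 23) (.e (nat_lit 532507) (nat_lit 2) (.e (nat_lit 106517) (nat_lit 9) .nil)))))))) (.g (nat_lit 5) .nil .nil))) 
(.lf (nat_lit 44025) (.g (nat_lit 3514) (.e (nat_lit 1252) (nat_lit 92) (.e (nat_lit 98334) (nat_lit 18) (.e (nat_lit 164398) (nat_lit 256) (.e (nat_lit 57372) (nat_lit 2) (.e (nat_lit 90174) (nat_lit 14) (.e (nat_lit 180243) (nat_lit 5) (.e (nat_lit 532508) (nat_lit 2) (.e (nat_lit 106517) (nat_lit 9) .nil)))))))) (.g (nat_lit 4) .nil .nil)))))) (.nd (nat_lit 3) (.nd (nat_lit 4) (.nd (nat_lit 5) 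
(.lf (nat_lit 43973) (.g (nat_lit 2307) (.e (nat_lit 1252) (nat_lit 92) (.e (nat_lit 98333) (nat_lit 18) (.e (nat_lit 164399) (nat_lit 256) (.e (nat_lit 57373) (nat_lit 2) (.e (nat_lit 90174) (nat_lit 14) (.e (nat_lit 180243) (nat_lit 5) (.e (nat_lit 532506) (nat_lit 2) (.e (nat_lit 106523) (nat_lit 9) .nil)))))))) (.g (nat_lit 4) .nil .nil))) 
(.lf (nat_lit 44005) (.g (nat_lit 3022) (.e (nat_lit 1252) (nat_lit 92) (.e (nat_lit 98333) (nat_lit 18) (.e (nat_lit 164403) (nat_lit 256) (.e (nat_lit 57373) (nat_lit 2) (.e (nat_lit 90170) (nat_lit 13) (.e (nat_lit 172067) (nat_lit 3) (.e (nat_lit 204834) (nat_lit 19) (.e (nat_lit 106517) (nat_lit 9) .nil)))))))) (.g (nat_lit 4) .nil .nil)))) (.nd (nat_lit 5) 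
(.lf (nat_lit 43989) (.g (nat_lit 3535) (.e (nat_lit 1252) (nat_lit 92) (.e (nat_lit 98333) (nat_lit 18) (.e (nat_lit 164399) (nat_lit 256) (.e (nat_lit 57375) (nat_lit 2) (.e (nat_lit 90174) (nat_lit 14) (.e (nat_lit 180243) (nat_lit 5) (.e (nat_lit 532508) (nat_lit 2) (.e (nat_lit 106526) (nat_lit 9) .nil)))))))) (.g (nat_lit 6) .nil .nil))) 
(.lf (nat_lit 44021) (.g (nat_lit 3145) (.e (nat_lit 1252) (nat_lit 92) (.e (nat_lit 98334) (nat_lit 18) (.e (nat_lit 164398) (nat_lit 256) (.e (nat_lit 57372) (nat_lit 2) (.e (nat_lit 90172) (nat_lit 14) (.e (nat_lit 180243) (nat_lit 5) (.e (nat_lit 532511) (nat_lit 2) (.e (nat_lit 106526) (nat_lit 9) .nil)))))))) (.g (nat_lit 4) .nil .nil))))) (.nd (nat_lit 4) (.nd (nat_lit 5) 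
(.lf (nat_lit 43981) (.g (nat_lit 3414) (.e (nat_lit 1252) (nat_lit 92) (.e (nat_lit 98333) (nat_lit 18) (.e (nat_lit 164399) (nat_lit 256) (.e (nat_lit 57373) (nat_lit 2) (.e (nat_lit 90174) (nat_lit 14) (.e (nat_lit 180243) (nat_lit 5) (.e (nat_lit 532508) (nat_lit 2) (.e (nat_lit 106527) (nat_lit 9) .nil)))))))) (.g (nat_lit 5) .nil .nil))) 
(.lf (nat_lit 44013) (.g (nat_lit 4103) (.e (nat_lit 1252) (nat_lit 92) (.e (nat_lit 98333) (nat_lit 18) (.e (nat_lit 164403) (nat_lit 256) (.e (nat_lit 57373) (nat_lit 2) (.e (nat_lit 90174) (nat_lit 14) (.e (nat_lit 180243) (nat_lit 5) (.e (nat_lit 532511) (nat_lit 2) (.e (nat_lit 106526) (nat_lit 9) .nil)))))))) (.g (nat_lit 5) .nil .nil)))) (.nd (nat_lit 5) 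
(.lf (nat_lit 43997) (.g (nat_lit 2420) (.e (nat_lit 1252) (nat_lit 92) (.e (nat_lit 98333) (nat_lit 18) (.e (nat_lit 164399) (nat_lit 256) (.e (nat_lit 57379) (nat_lit 3) (.e (nat_lit 98367) (nat_lit 27) (.e (nat_lit 434231) (nat_lit 23) (.e (nat_lit 532507) (nat_lit 2) (.e (nat_lit 106517) (nat_lit 9) .nil)))))))) (.g (nat_lit 4) .nil .nil))) 
(.lf (nat_lit 44029) (.g (nat_lit 2455) (.e (nat_lit 1252) (nat_lit 92) (.e (nat_lit 98334) (nat_lit 18) (.e (nat_lit 164398) (nat_lit 256) (.e (nat_lit 57373) (nat_lit 2) (.e (nat_lit 90174) (nat_lit 14) (.e (nat_lit 180243) (nat_lit 5) (.e (nat_lit 532506) (nat_lit 2) (.e (nat_lit 106523) (nat_lit 9) .nil)))))))) (.g (nat_lit 4) .nil .nil))))))) 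
(.nd (nat_lit 2) (.nd (nat_lit 3) (.nd (nat_lit 4) (.nd (nat_lit 5) 
(.lf (nat_lit 43971) (.g (nat_lit 2418) (.e (nat_lit 1252) (nat_lit 92) (.e (nat_lit 98333) (nat_lit 18) (.e (nat_lit 164399) (nat_lit 256) (.e (nat_lit 57373) (nat_lit 2) (.e (nat_lit 90172) (nat_lit 14) (.e (nat_lit 180243) (nat_lit 5) (.e (nat_lit 532511) (nat_lit 2) (.e (nat_lit 106526) (nat_lit 9) .nil)))))))) (.g (nat_lit 4) .nil .nil))) 
(.lf (nat_lit 44003) (.g (nat_lit 3177) (.e (nat_lit 1252) (nat_lit 92) (.e (nat_lit 98333) (nat_lit 18) (.e (nat_lit 164403) (nat_lit 256) (.e (nat_lit 57371) (nat_lit 2) (.e (nat_lit 90174) (nat_lit 14) (.e (nat_lit 180243) (nat_lit 5) (.e (nat_lit 532511) (nat_lit 2) (.e (nat_lit 106526) (nat_lit 9) .nil)))))))) (.g (nat_lit 4) .nil .nil)))) (.nd (nat_lit 5) 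
(.lf (nat_lit 43987) (.g (nat_lit 2476) (.e (nat_lit 1252) (nat_lit 92) (.e (nat_lit 98333) (nat_lit 18) (.e (nat_lit 164399) (nat_lit 256) (.e (nat_lit 57375) (nat_lit 2) (.e (nat_lit 90172) (nat_lit 14) (.e (nat_lit 180243) (nat_lit 5) (.e (nat_lit 532508) (nat_lit 2) (.e (nat_lit 106517) (nat_lit 9) .nil)))))))) (.g (nat_lit 4) .nil .nil))) 
(.lf (nat_lit 44019) (.g (nat_lit 3412) (.e (nat_lit 1252) (nat_lit 92) (.e (nat_lit 98334) (nat_lit 18) (.e (nat_lit 164398) (nat_lit 256) (.e (nat_lit 57372) (nat_lit 2) (.e (nat_lit 90172) (nat_lit 14) (.e (nat_lit 180243) (nat_lit 5) (.e (nat_lit 532508) (nat_lit 2) (.e (nat_lit 106517) (nat_lit 9) .nil)))))))) (.g (nat_lit 4) .nil .nil))))) (.nd (nat_lit 4) (.nd (nat_lit 5) 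
(.lf (nat_lit 43979) (.g (nat_lit 3397) (.e (nat_lit 1252) (nat_lit 92) (.e (nat_lit 98333) (nat_lit 18) (.e (nat_lit 164399) (nat_lit 256) (.e (nat_lit 57373) (nat_lit 2) (.e (nat_lit 90174) (nat_lit 14) (.e (nat_lit 180243) (nat_lit 5) (.e (nat_lit 532508) (nat_lit 2) (.e (nat_lit 106523) (nat_lit 9) .nil)))))))) (.g (nat_lit 5) .nil .nil))) 
(.lf (nat_lit 44011) (.g (nat_lit 3358) (.e (nat_lit 1252) (nat_lit 92) (.e (nat_lit 98333) (nat_lit 18) (.e (nat_lit 164403) (nat_lit 256) (.e (nat_lit 57373) (nat_lit 2) (.e (nat_lit 90174) (nat_lit 14) (.e (nat_lit 180243) (nat_lit 5) (.e (nat_lit 532508) (nat_lit 2) (.e (nat_lit 106527) (nat_lit 9) .nil)))))))) (.g (nat_lit 4) .nil .nil)))) (.nd (nat_lit 5) 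
(.lf (nat_lit 43995) (.g (nat_lit 2222) (.e (nat_lit 1252) (nat_lit 92) (.e (nat_lit 98333) (nat_lit 18) (.e (nat_lit 164399) (nat_lit 256) (.e (nat_lit 57379) (nat_lit 3) (.e (nat_lit 98366) (nat_lit 27) .nil))))) .nil)) 
(.lf (nat_lit 44027) (.g (nat_lit 2535) (.e (nat_lit 1252) (nat_lit 92) (.e (nat_lit 98334) (nat_lit 18) (.e (nat_lit 164398) (nat_lit 256) (.e (nat_lit 57373) (nat_lit 2) (.e (nat_lit 90170) (nat_lit 13) .nil))))) .nil))))) (.nd (nat_lit 3) (.nd (nat_lit 4) (.nd (nat_lit 5) 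
(.lf (nat_lit 43975) (.g (nat_lit 2304) (.e (nat_lit 1252) (nat_lit 92) (.e (nat_lit 98333) (nat_lit 18) (.e (nat_lit 164399) (nat_lit 256) (.e (nat_lit 57373) (nat_lit 2) (.e (nat_lit 90174) (nat_lit 14) (.e (nat_lit 180243) (nat_lit 5) (.e (nat_lit 532508) (nat_lit 2) (.e (nat_lit 106516) (nat_lit 9) .nil)))))))) (.g (nat_lit 4) .nil .nil))) 
(.lf (nat_lit 44007) (.g (nat_lit 4028) (.e (nat_lit 1252) (nat_lit 92) (.e (nat_lit 98333) (nat_lit 18) (.e (nat_lit 164403) (nat_lit 256) (.e (nat_lit 57373) (nat_lit 2) (.e (nat_lit 90172) (nat_lit 14) (.e (nat_lit 180244) (nat_lit 5) (.e (nat_lit 532508) (nat_lit 2) (.e (nat_lit 106526) (nat_lit 9) .nil)))))))) (.g (nat_lit 5) .nil .nil)))) (.nd (nat_lit 5) 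
(.lf (nat_lit 43991) (.g (nat_lit 2628) (.e (nat_lit 1252) (nat_lit 92) (.e (nat_lit 98333) (nat_lit 18) (.e (nat_lit 164399) (nat_lit 256) (.e (nat_lit 57375) (nat_lit 2) (.e (nat_lit 90174) (nat_lit 14) (.e (nat_lit 180243) (nat_lit 5) (.e (nat_lit 532511) (nat_lit 2) (.e (nat_lit 106526) (nat_lit 9) .nil)))))))) (.g (nat_lit 5) .nil .nil))) 
(.lf (nat_lit 44023) (.g (nat_lit 4064) (.e (nat_lit 1252) (nat_lit 92) (.e (nat_lit 98334) (nat_lit 18) (.e (nat_lit 164398) (nat_lit 256) (.e (nat_lit 57372) (nat_lit 2) (.e (nat_lit 90172) (nat_lit 14) (.e (nat_lit 180244) (nat_lit 5) (.e (nat_lit 532508) (nat_lit 2) (.e (nat_lit 106526) (nat_lit 9) .nil)))))))) (.g (nat_lit 5) .nil .nil))))) (.nd (nat_lit 4) (.nd (nat_lit 5) 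
(.lf (nat_lit 43983) (.g (nat_lit 2255) (.e (nat_lit 1252) (nat_lit 92) (.e (nat_lit 98333) (nat_lit 18) (.e (nat_lit 164399) (nat_lit 256) (.e (nat_lit 57373) (nat_lit 2) (.e (nat_lit 90174) (nat_lit 14) (.e (nat_lit 180243) (nat_lit 5) (.e (nat_lit 532510) (nat_lit 2) (.e (nat_lit 106527) (nat_lit 9) .nil)))))))) (.g (nat_lit 4) .nil .nil))) 
(.lf (nat_lit 44015) (.g (nat_lit 2881) (.e (nat_lit 1252) (nat_lit 92) (.e (nat_lit 98334) (nat_lit 18) (.e (nat_lit 164396) (nat_lit 256) (.e (nat_lit 57371) (nat_lit 2) (.e (nat_lit 90174) (nat_lit 14) (.e (nat_lit 180243) (nat_lit 5) (.e (nat_lit 532508) (nat_lit 2) (.e (nat_lit 106526) (nat_lit 9) .nil)))))))) (.g (nat_lit 5) .nil .nil)))) (.nd (nat_lit 5) 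
(.lf (nat_lit 43999) (.g (nat_lit 2488) (.e (nat_lit 1252) (nat_lit 92) (.e (nat_lit 98333) (nat_lit 18) (.e (nat_lit 164400) (nat_lit 256) (.e (nat_lit 57375) (nat_lit 2) (.e (nat_lit 90174) (nat_lit 14) (.e (nat_lit 180243) (nat_lit 5) (.e (nat_lit 532508) (nat_lit 2) (.e (nat_lit 106526) (nat_lit 9) .nil)))))))) (.g (nat_lit 4) .nil .nil))) 
(.lf (nat_lit 44031) (.g (nat_lit 4444) (.e (nat_lit 1252) (nat_lit 92) (.e (nat_lit 98334) (nat_lit 18) (.e (nat_lit 164398) (nat_lit 256) (.e (nat_lit 57373) (nat_lit 2) (.e (nat_lit 90174) (nat_lit 14) (.e (nat_lit 180243) (nat_lit 5) (.e (nat_lit 532508) (nat_lit 2) (.e (nat_lit 106517) (nat_lit 9) .nil)))))))) (.g (nat_lit 7) .nil .nil)))))))))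

noncomputable def tv611 : DT := (.nd (nat_lit 0) (.nd (nat_lit 1) (.nd (nat_lit 2) (.nd (nat_lit 3) (.nd (nat_lit 4) (.nd (nat_lit 5) 
(.lf (nat_lit 44032) (.g (nat_lit 2486) (.e (nat_lit 1252) (nat_lit 92) (.e (nat_lit 98334) (nat_lit 18) (.e (nat_lit 164398) (nat_lit 256) (.e (nat_lit 57373) (nat_lit 2) (.e (nat_lit 90174) (nat_lit 14) (.e (nat_lit 180243) (nat_lit 5) (.e (nat_lit 532508) (nat_lit 2) (.e (nat_lit 106519) (nat_lit 9) .nil)))))))) (.g (nat_lit 4) .nil .nil))) 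
(.lf (nat_lit 44064) (.g (nat_lit 2614) (.e (nat_lit 1252) (nat_lit 92) (.e (nat_lit 98335) (nat_lit 18) (.e (nat_lit 164403) (nat_lit 256) (.e (nat_lit 57370) (nat_lit 2) (.e (nat_lit 90172) (nat_lit 14) (.e (nat_lit 180244) (nat_lit 5) (.e (nat_lit 532508) (nat_lit 2) (.e (nat_lit 106526) (nat_lit 9) .nil)))))))) (.g (nat_lit 5) .nil .nil)))) (.nd (nat_lit 5) 
(.lf (nat_lit 44048) (.g (nat_lit 1929) (.e (nat_lit 1252) (nat_lit 92) (.e (nat_lit 98334) (nat_lit 18) (.e (nat_lit 164398) (nat_lit 256) (.e (nat_lit 57379) (nat_lit 3) .nil)))) .nil)) 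
(.lf (nat_lit 44080) (.g (nat_lit 2560) (.e (nat_lit 1252) (nat_lit 92) (.e (nat_lit 98335) (nat_lit 18) (.e (nat_lit 164403) (nat_lit 256) (.e (nat_lit 57373) (nat_lit 2) (.e (nat_lit 90174) (nat_lit 14) (.e (nat_lit 180243) (nat_lit 5) (.e (nat_lit 532508) (nat_lit 2) (.e (nat_lit 106524) (nat_lit 9) .nil)))))))) (.g (nat_lit 4) .nil .nil))))) (.nd (nat_lit 4) (.nd (nat_lit 5) 
(.lf (nat_lit 44040) (.g (nat_lit 4307) (.e (nat_lit 1252) (nat_lit 92) (.e (nat_lit 98334) (nat_lit 18) (.e (nat_lit 164398) (nat_lit 256) (.e (nat_lit 57373) (nat_lit 2) (.e (nat_lit 90174) (nat_lit 14) (.e (nat_lit 180243) (nat_lit 5) (.e (nat_lit 532511) (nat_lit 2) (.e (nat_lit 106526) (nat_lit 9) .nil)))))))) (.g (nat_lit 6) .nil .nil))) 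
(.lf (nat_lit 44072) (.g (nat_lit 4746) (.e (nat_lit 1252) (nat_lit 92) (.e (nat_lit 98335) (nat_lit 18) (.e (nat_lit 164403) (nat_lit 256) (.e (nat_lit 57371) (nat_lit 2) (.e (nat_lit 90174) (nat_lit 14) (.e (nat_lit 180243) (nat_lit 5) (.e (nat_lit 532508) (nat_lit 2) (.e (nat_lit 106526) (nat_lit 9) .nil)))))))) (.g (nat_lit 8) .nil .nil)))) (.nd (nat_lit 5) 
(.lf (nat_lit 44056) (.g (nat_lit 2371) (.e (nat_lit 1252) (nat_lit 92) (.e (nat_lit 98334) (nat_lit 18) (.e (nat_lit 164399) (nat_lit 256) (.e (nat_lit 57373) (nat_lit 2) (.e (nat_lit 90174) (nat_lit 14) (.e (nat_lit 180243) (nat_lit 5) (.e (nat_lit 532511) (nat_lit 2) (.e (nat_lit 106526) (nat_lit 9) .nil)))))))) (.g (nat_lit 4) .nil .nil))) 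
(.lf (nat_lit 44088) (.g (nat_lit 1981) (.e (nat_lit 1252) (nat_lit 92) (.e (nat_lit 98342) (nat_lit 20) (.e (nat_lit 221212) (nat_lit 22) (.e (nat_lit 196668) (nat_lit 14) .nil)))) .nil))))) (.nd (nat_lit 3) (.nd (nat_lit 4) (.nd (nat_lit 5) 
(.lf (nat_lit 44036) (.g (nat_lit 3562) (.e (nat_lit 1252) (nat_lit 92) (.e (nat_lit 98334) (nat_lit 18) (.e (nat_lit 164398) (nat_lit 256) (.e (nat_lit 57373) (nat_lit 2) (.e (nat_lit 90174) (nat_lit 14) (.e (nat_lit 180243) (nat_lit 5) (.e (nat_lit 532508) (nat_lit 2) (.e (nat_lit 106527) (nat_lit 9) .nil)))))))) (.g (nat_lit 5) .nil .nil))) 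
(.lf (nat_lit 44068) (.g (nat_lit 3939) (.e (nat_lit 1252) (nat_lit 92) (.e (nat_lit 98335) (nat_lit 18) (.e (nat_lit 164403) (nat_lit 256) (.e (nat_lit 57371) (nat_lit 2) (.e (nat_lit 90172) (nat_lit 14) (.e (nat_lit 180243) (nat_lit 5) (.e (nat_lit 532508) (nat_lit 2) (.e (nat_lit 106526) (nat_lit 9) .nil)))))))) (.g (nat_lit 6) .nil .nil)))) (.nd (nat_lit 5) 
(.lf (nat_lit 44052) (.g (nat_lit 2482) (.e (nat_lit 1252) (nat_lit 92) (.e (nat_lit 98334) (nat_lit 18) (.e (nat_lit 164399) (nat_lit 256) (.e (nat_lit 57372) (nat_lit 2) (.e (nat_lit 90174) (nat_lit 14) (.e (nat_lit 180243) (nat_lit 5) (.e (nat_lit 532508) (nat_lit 2) (.e (nat_lit 106526) (nat_lit 9) .nil)))))))) (.g (nat_lit 4) .nil .nil))) 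
(.lf (nat_lit 44084) (.g (nat_lit 1444) (.e (nat_lit 1252) (nat_lit 92) (.e (nat_lit 98335) (nat_lit 18) (.e (nat_lit 164403) (nat_lit 256) (.e (nat_lit 57378) (nat_lit 3) .nil)))) .nil)))) (.nd (nat_lit 4) (.nd (nat_lit 5) 
(.lf (nat_lit 44044) (.g (nat_lit 3117) (.e (nat_lit 1252) (nat_lit 92) (.e (nat_lit 98334) (nat_lit 18) (.e (nat_lit 164398) (nat_lit 256) (.e (nat_lit 57375) (nat_lit 2) (.e (nat_lit 90174) (nat_lit 14) (.e (nat_lit 180243) (nat_lit 5) (.e (nat_lit 532511) (nat_lit 2) (.e (nat_lit 106526) (nat_lit 9) .nil)))))))) (.g (nat_lit 5) .nil .nil))) 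
(.lf (nat_lit 44076) (.g (nat_lit 2664) (.e (nat_lit 1252) (nat_lit 92) (.e (nat_lit 98335) (nat_lit 18) (.e (nat_lit 164403) (nat_lit 256) (.e (nat_lit 57373) (nat_lit 2) (.e (nat_lit 90172) (nat_lit 14) .nil))))) .nil))) (.nd (nat_lit 5) 
(.lf (nat_lit 44060) (.g (nat_lit 2669) (.e (nat_lit 1252) (nat_lit 92) (.e (nat_lit 98334) (nat_lit 18) (.e (nat_lit 164403) (nat_lit 256) (.e (nat_lit 57373) (nat_lit 2) (.e (nat_lit 90174) (nat_lit 14) (.e (nat_lit 180243) (nat_lit 5) (.e (nat_lit 532508) (nat_lit 2) (.e (nat_lit 106526) (nat_lit 9) .nil)))))))) (.g (nat_lit 4) .nil .nil))) 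
(.lf (nat_lit 44092) (.g (nat_lit 2608) (.e (nat_lit 1252) (nat_lit 92) (.e (nat_lit 98342) (nat_lit 20) (.e (nat_lit 221212) (nat_lit 22) (.e (nat_lit 196681) (nat_lit 17) (.e (nat_lit 131091) (nat_lit 2) (.e (nat_lit 90164) (nat_lit 12) (.e (nat_lit 164017) (nat_lit 44) (.e (nat_lit 688157) (nat_lit 13) .nil)))))))) (.g (nat_lit 4) .nil .nil))))))) 
(.nd (nat_lit 2) (.nd (nat_lit 3) (.nd (nat_lit 4) (.nd (nat_lit 5) 
(.lf (nat_lit 44034) (.g (nat_lit 2497) (.e (nat_lit 1252) (nat_lit 92) (.e (nat_lit 98334) (nat_lit 18) (.e (nat_lit 164398) (nat_lit 256) (.e (nat_lit 57373) (nat_lit 2) (.e (nat_lit 90174) (nat_lit 14) (.e (nat_lit 180243) (nat_lit 5) (.e (nat_lit 532508) (nat_lit 2) (.e (nat_lit 106524) (nat_lit 9) .nil)))))))) (.g (nat_lit 4) .nil .nil))) 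
(.lf (nat_lit 44066) (.g (nat_lit 1441) (.e (nat_lit 1252) (nat_lit 92) (.e (nat_lit 98335) (nat_lit 18) (.e (nat_lit 164403) (nat_lit 256) (.e (nat_lit 57371) (nat_lit 2) .nil)))) .nil))) (.nd (nat_lit 5) 
(.lf (nat_lit 44050) (.g (nat_lit 3010) (.e (nat_lit 1252) (nat_lit 92) (.e (nat_lit 98334) (nat_lit 18) (.e (nat_lit 164398) (nat_lit 256) (.e (nat_lit 57379) (nat_lit 3) (.e (nat_lit 98367) (nat_lit 27) (.e (nat_lit 434231) (nat_lit 23) (.e (nat_lit 532507) (nat_lit 2) (.e (nat_lit 106517) (nat_lit 9) .nil)))))))) (.g (nat_lit 4) .nil .nil))) 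
(.lf (nat_lit 44082) (.g (nat_lit 2709) (.e (nat_lit 1252) (nat_lit 92) (.e (nat_lit 98335) (nat_lit 18) (.e (nat_lit 164403) (nat_lit 256) (.e (nat_lit 57373) (nat_lit 2) (.e (nat_lit 90174) (nat_lit 14) (.e (nat_lit 180243) (nat_lit 5) (.e (nat_lit 532510) (nat_lit 2) (.e (nat_lit 106514) (nat_lit 9) .nil)))))))) (.g (nat_lit 4) .nil .nil))))) (.nd (nat_lit 4) (.nd (nat_lit 5) 
(.lf (nat_lit 44042) (.g (nat_lit 3685) (.e (nat_lit 1252) (nat_lit 92) (.e (nat_lit 98334) (nat_lit 18) (.e (nat_lit 164398) (nat_lit 256) (.e (nat_lit 57375) (nat_lit 2) (.e (nat_lit 90172) (nat_lit 14) (.e (nat_lit 180244) (nat_lit 5) (.e (nat_lit 532508) (nat_lit 2) (.e (nat_lit 106526) (nat_lit 9) .nil)))))))) (.g (nat_lit 5) .nil .nil))) 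
(.lf (nat_lit 44074) (.g (nat_lit 2257) (.e (nat_lit 1252) (nat_lit 92) (.e (nat_lit 98335) (nat_lit 18) (.e (nat_lit 164403) (nat_lit 256) (.e (nat_lit 57371) (nat_lit 2) (.e (nat_lit 90174) (nat_lit 14) (.e (nat_lit 180243) (nat_lit 5) (.e (nat_lit 532510) (nat_lit 2) (.e (nat_lit 106514) (nat_lit 9) .nil)))))))) (.g (nat_lit 4) .nil .nil)))) (.nd (nat_lit 5) 
(.lf (nat_lit 44058) (.g (nat_lit 3076) (.e (nat_lit 1252) (nat_lit 92) (.e (nat_lit 98334) (nat_lit 18) (.e (nat_lit 164401) (nat_lit 256) (.e (nat_lit 57373) (nat_lit 2) (.e (nat_lit 90174) (nat_lit 14) (.e (nat_lit 180243) (nat_lit 5) (.e (nat_lit 532508) (nat_lit 2) (.e (nat_lit 106526) (nat_lit 9) .nil)))))))) (.g (nat_lit 5) .nil .nil))) 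
(.lf (nat_lit 44090) (.g (nat_lit 2363) (.e (nat_lit 1252) (nat_lit 92) (.e (nat_lit 98342) (nat_lit 20) (.e (nat_lit 221212) (nat_lit 22) (.e (nat_lit 196670) (nat_lit 14) (.e (nat_lit 73746) (nat_lit 3) .nil))))) .nil))))) (.nd (nat_lit 3) (.nd (nat_lit 4) (.nd (nat_lit 5) 
(.lf (nat_lit 44038) (.g (nat_lit 2403) (.e (nat_lit 1252) (nat_lit 92) (.e (nat_lit 98334) (nat_lit 18) (.e (nat_lit 164398) (nat_lit 256) (.e (nat_lit 57373) (nat_lit 2) (.e (nat_lit 90174) (nat_lit 14) (.e (nat_lit 180243) (nat_lit 5) (.e (nat_lit 532510) (nat_lit 2) (.e (nat_lit 106527) (nat_lit 9) .nil)))))))) (.g (nat_lit 4) .nil .nil))) 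
(.lf (nat_lit 44070) (.g (nat_lit 4027) (.e (nat_lit 1252) (nat_lit 92) (.e (nat_lit 98335) (nat_lit 18) (.e (nat_lit 164403) (nat_lit 256) (.e (nat_lit 57371) (nat_lit 2) (.e (nat_lit 90174) (nat_lit 14) (.e (nat_lit 180243) (nat_lit 5) (.e (nat_lit 532508) (nat_lit 2) (.e (nat_lit 106517) (nat_lit 9) .nil)))))))) (.g (nat_lit 6) .nil .nil)))) (.nd (nat_lit 5) 
(.lf (nat_lit 44054) (.g (nat_lit 2508) (.e (nat_lit 1252) (nat_lit 92) (.e (nat_lit 98334) (nat_lit 18) (.e (nat_lit 164399) (nat_lit 256) (.e (nat_lit 57373) (nat_lit 2) (.e (nat_lit 90174) (nat_lit 14) (.e (nat_lit 180243) (nat_lit 5) (.e (nat_lit 532508) (nat_lit 2) (.e (nat_lit 106517) (nat_lit 9) .nil)))))))) (.g (nat_lit 4) .nil .nil))) 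
(.lf (nat_lit 44086) (.g (nat_lit 771) (.e (nat_lit 1252) (nat_lit 92) (.e (nat_lit 98341) (nat_lit 20) (.e (nat_lit 221214) (nat_lit 23) .nil))) .nil)))) (.nd (nat_lit 4) (.nd (nat_lit 5) 
(.lf (nat_lit 44046) (.g (nat_lit 3103) (.e (nat_lit 1252) (nat_lit 92) (.e (nat_lit 98334) (nat_lit 18) (.e (nat_lit 164398) (nat_lit 256) (.e (nat_lit 57378) (nat_lit 3) (.e (nat_lit 98366) (nat_lit 27) (.e (nat_lit 434231) (nat_lit 23) (.e (nat_lit 532507) (nat_lit 2) (.e (nat_lit 106517) (nat_lit 9) .nil)))))))) (.g (nat_lit 4) .nil .nil))) 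
(.lf (nat_lit 44078) (.g (nat_lit 2555) (.e (nat_lit 1252) (nat_lit 92) (.e (nat_lit 98335) (nat_lit 18) (.e (nat_lit 164403) (nat_lit 256) (.e (nat_lit 57373) (nat_lit 2) (.e (nat_lit 90174) (nat_lit 14) .nil))))) .nil))) (.nd (nat_lit 5) 
(.lf (nat_lit 44062) (.g (nat_lit 1479) (.e (nat_lit 1252) (nat_lit 92) (.e (nat_lit 98335) (nat_lit 18) (.e (nat_lit 164403) (nat_lit 256) (.e (nat_lit 57370) (nat_lit 2) .nil)))) .nil)) 
(.lf (nat_lit 44094) (.g (nat_lit 2439) (.e (nat_lit 1252) (nat_lit 92) (.e (nat_lit 98342) (nat_lit 20) (.e (nat_lit 221212) (nat_lit 22) (.e (nat_lit 196681) (nat_lit 17) (.e (nat_lit 131094) (nat_lit 2) .nil))))) .nil))))))) (.nd (nat_lit 1) (.nd (nat_lit 2) (.nd (nat_lit 3) (.nd (nat_lit 4) (.nd (nat_lit 5) 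
(.lf (nat_lit 44033) (.g (nat_lit 3545) (.e (nat_lit 1252) (nat_lit 92) (.e (nat_lit 98334) (nat_lit 18) (.e (nat_lit 164398) (nat_lit 256) (.e (nat_lit 57373) (nat_lit 2) (.e (nat_lit 90174) (nat_lit 14) (.e (nat_lit 180243) (nat_lit 5) (.e (nat_lit 532508) (nat_lit 2) (.e (nat_lit 106523) (nat_lit 9) .nil)))))))) (.g (nat_lit 5) .nil .nil))) 
(.lf (nat_lit 44065) (.g (nat_lit 2102) (.e (nat_lit 1252) (nat_lit 92) (.e (nat_lit 98335) (nat_lit 18) (.e (nat_lit 164403) (nat_lit 256) (.e (nat_lit 57370) (nat_lit 2) (.e (nat_lit 90174) (nat_lit 14) (.e (nat_lit 180243) (nat_lit 5) (.e (nat_lit 532511) (nat_lit 2) (.e (nat_lit 106526) (nat_lit 9) .nil)))))))) (.g (nat_lit 4) .nil .nil)))) (.nd (nat_lit 5) 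
(.lf (nat_lit 44049) (.g (nat_lit 3718) (.e (nat_lit 1252) (nat_lit 92) (.e (nat_lit 98334) (nat_lit 18) (.e (nat_lit 164398) (nat_lit 256) (.e (nat_lit 57379) (nat_lit 3) (.e (nat_lit 98366) (nat_lit 27) (.e (nat_lit 434231) (nat_lit 23) (.e (nat_lit 532507) (nat_lit 2) (.e (nat_lit 106517) (nat_lit 9) .nil)))))))) (.g (nat_lit 5) .nil .nil))) 
(.lf (nat_lit 44081) (.g (nat_lit 3625) (.e (nat_lit 1252) (nat_lit 92) (.e (nat_lit 98335) (nat_lit 18) (.e (nat_lit 164403) (nat_lit 256) (.e (nat_lit 57373) (nat_lit 2) (.e (nat_lit 90174) (nat_lit 14) (.e (nat_lit 180243) (nat_lit 5) (.e (nat_lit 532508) (nat_lit 2) (.e (nat_lit 106527) (nat_lit 9) .nil)))))))) (.g (nat_lit 5) .nil .nil))))) (.nd (nat_lit 4) (.nd (nat_lit 5) 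
(.lf (nat_lit 44041) (.g (nat_lit 3077) (.e (nat_lit 1252) (nat_lit 92) (.e (nat_lit 98334) (nat_lit 18) (.e (nat_lit 164398) (nat_lit 256) (.e (nat_lit 57374) (nat_lit 2) (.e (nat_lit 90170) (nat_lit 13) .nil))))) .nil)) 
(.lf (nat_lit 44073) (.g (nat_lit 3156) (.e (nat_lit 1252) (nat_lit 92) (.e (nat_lit 98335) (nat_lit 18) (.e (nat_lit 164403) (nat_lit 256) (.e (nat_lit 57371) (nat_lit 2) (.e (nat_lit 90174) (nat_lit 14) (.e (nat_lit 180243) (nat_lit 5) (.e (nat_lit 532508) (nat_lit 2) (.e (nat_lit 106527) (nat_lit 9) .nil)))))))) (.g (nat_lit 5) .nil .nil)))) (.nd (nat_lit 5) 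
(.lf (nat_lit 44057) (.g (nat_lit 2312) (.e (nat_lit 1252) (nat_lit 92) (.e (nat_lit 98334) (nat_lit 18) (.e (nat_lit 164401) (nat_lit 256) (.e (nat_lit 57373) (nat_lit 2) (.e (nat_lit 90174) (nat_lit 14) (.e (nat_lit 180243) (nat_lit 5) (.e (nat_lit 532508) (nat_lit 2) (.e (nat_lit 106517) (nat_lit 9) .nil)))))))) (.g (nat_lit 4) .nil .nil))) 
(.lf (nat_lit 44089) (.g (nat_lit 1998) (.e (nat_lit 1252) (nat_lit 92) (.e (nat_lit 98342) (nat_lit 20) (.e (nat_lit 221212) (nat_lit 22) (.e (nat_lit 196669) (nat_lit 14) .nil)))) .nil))))) (.nd (nat_lit 3) (.nd (nat_lit 4) (.nd (nat_lit 5) 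
(.lf (nat_lit 44037) (.g (nat_lit 2646) (.e (nat_lit 1252) (nat_lit 92) (.e (nat_lit 98334) (nat_lit 18) (.e (nat_lit 164398) (nat_lit 256) (.e (nat_lit 57373) (nat_lit 2) (.e (nat_lit 90174) (nat_lit 14) (.e (nat_lit 180243) (nat_lit 5) (.e (nat_lit 532510) (nat_lit 2) (.e (nat_lit 106514) (nat_lit 9) .nil)))))))) (.g (nat_lit 4) .nil .nil))) 
(.lf (nat_lit 44069) (.g (nat_lit 3148) (.e (nat_lit 1252) (nat_lit 92) (.e (nat_lit 98335) (nat_lit 18) (.e (nat_lit 164403) (nat_lit 256) (.e (nat_lit 57371) (nat_lit 2) (.e (nat_lit 90172) (nat_lit 14) (.e (nat_lit 180244) (nat_lit 5) (.e (nat_lit 532508) (nat_lit 2) (.e (nat_lit 106517) (nat_lit 9) .nil)))))))) (.g (nat_lit 5) .nil .nil)))) (.nd (nat_lit 5) 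
(.lf (nat_lit 44053) (.g (nat_lit 2404) (.e (nat_lit 1252) (nat_lit 92) (.e (nat_lit 98334) (nat_lit 18) (.e (nat_lit 164399) (nat_lit 256) (.e (nat_lit 57373) (nat_lit 2) (.e (nat_lit 90172) (nat_lit 14) .nil))))) .nil)) 
(.lf (nat_lit 44085) (.g (nat_lit 2883) (.e (nat_lit 1252) (nat_lit 92) (.e (nat_lit 98335) (nat_lit 18) (.e (nat_lit 164403) (nat_lit 256) (.e (nat_lit 57378) (nat_lit 3) (.e (nat_lit 98366) (nat_lit 27) .nil))))) .nil)))) (.nd (nat_lit 4) (.nd (nat_lit 5) 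
(.lf (nat_lit 44045) (.g (nat_lit 1983) (.e (nat_lit 1252) (nat_lit 92) (.e (nat_lit 98334) (nat_lit 18) (.e (nat_lit 164398) (nat_lit 256) (.e (nat_lit 57378) (nat_lit 3) .nil)))) .nil)) 
(.lf (nat_lit 44077) (.g (nat_lit 3644) (.e (nat_lit 1252) (nat_lit 92) (.e (nat_lit 98335) (nat_lit 18) (.e (nat_lit 164403) (nat_lit 256) (.e (nat_lit 57373) (nat_lit 2) (.e (nat_lit 90172) (nat_lit 14) (.e (nat_lit 180244) (nat_lit 5) (.e (nat_lit 532508) (nat_lit 2) (.e (nat_lit 106517) (nat_lit 9) .nil)))))))) (.g (nat_lit 5) .nil .nil)))) (.nd (nat_lit 5) 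
(.lf (nat_lit 44061) (.g (nat_lit 2118) (.e (nat_lit 1252) (nat_lit 92) (.e (nat_lit 98335) (nat_lit 18) (.e (nat_lit 164396) (nat_lit 256) (.e (nat_lit 57371) (nat_lit 2) (.e (nat_lit 90172) (nat_lit 14) .nil))))) .nil)) 
(.lf (nat_lit 44093) (.g (nat_lit 2819) (.e (nat_lit 1252) (nat_lit 92) (.e (nat_lit 98342) (nat_lit 20) (.e (nat_lit 221212) (nat_lit 22) (.e (nat_lit 196681) (nat_lit 17) (.e (nat_lit 131093) (nat_lit 2) .nil))))) .nil)))))) (.nd (nat_lit 2) (.nd (nat_lit 3) (.nd (nat_lit 4) (.nd (nat_lit 5) 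
(.lf (nat_lit 44035) (.g (nat_lit 5208) (.e (nat_lit 1252) (nat_lit 92) (.e (nat_lit 98334) (nat_lit 18) (.e (nat_lit 164398) (nat_lit 256) (.e (nat_lit 57373) (nat_lit 2) (.e (nat_lit 90174) (nat_lit 14) (.e (nat_lit 180243) (nat_lit 5) (.e (nat_lit 532508) (nat_lit 2) (.e (nat_lit 106526) (nat_lit 9) .nil)))))))) (.g (nat_lit 0) .nil .nil))) 
(.lf (nat_lit 44067) (.g (nat_lit 2168) (.e (nat_lit 1252) (nat_lit 92) (.e (nat_lit 98335) (nat_lit 18) (.e (nat_lit 164403) (nat_lit 256) (.e (nat_lit 57371) (nat_lit 2) (.e (nat_lit 90172) (nat_lit 14) .nil))))) .nil))) (.nd (nat_lit 5) 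
(.lf (nat_lit 44051) (.g (nat_lit 2343) (.e (nat_lit 1252) (nat_lit 92) (.e (nat_lit 98334) (nat_lit 18) (.e (nat_lit 164399) (nat_lit 256) (.e (nat_lit 57372) (nat_lit 2) (.e (nat_lit 90172) (nat_lit 14) (.e (nat_lit 180243) (nat_lit 5) (.e (nat_lit 532508) (nat_lit 2) (.e (nat_lit 106526) (nat_lit 9) .nil)))))))) (.g (nat_lit 4) .nil .nil))) 
(.lf (nat_lit 44083) (.g (nat_lit 4314) (.e (nat_lit 1252) (nat_lit 92) (.e (nat_lit 98335) (nat_lit 18) (.e (nat_lit 164403) (nat_lit 256) (.e (nat_lit 57373) (nat_lit 2) (.e (nat_lit 90174) (nat_lit 14) (.e (nat_lit 180243) (nat_lit 5) (.e (nat_lit 532511) (nat_lit 2) (.e (nat_lit 106526) (nat_lit 9) .nil)))))))) (.g (nat_lit 6) .nil .nil))))) (.nd (nat_lit 4) (.nd (nat_lit 5) 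
(.lf (nat_lit 44043) (.g (nat_lit 4024) (.e (nat_lit 1252) (nat_lit 92) (.e (nat_lit 98334) (nat_lit 18) (.e (nat_lit 164398) (nat_lit 256) (.e (nat_lit 57375) (nat_lit 2) (.e (nat_lit 90174) (nat_lit 14) (.e (nat_lit 180243) (nat_lit 5) (.e (nat_lit 532508) (nat_lit 2) (.e (nat_lit 106526) (nat_lit 9) .nil)))))))) (.g (nat_lit 7) .nil .nil))) 
(.lf (nat_lit 44075) (.g (nat_lit 3158) (.e (nat_lit 1252) (nat_lit 92) (.e (nat_lit 98335) (nat_lit 18) (.e (nat_lit 164403) (nat_lit 256) (.e (nat_lit 57373) (nat_lit 2) (.e (nat_lit 90170) (nat_lit 13) (.e (nat_lit 172065) (nat_lit 3) (.e (nat_lit 204834) (nat_lit 19) (.e (nat_lit 106517) (nat_lit 9) .nil)))))))) (.g (nat_lit 5) .nil .nil)))) (.nd (nat_lit 5) 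
(.lf (nat_lit 44059) (.g (nat_lit 2175) (.e (nat_lit 1252) (nat_lit 92) (.e (nat_lit 98334) (nat_lit 18) (.e (nat_lit 164401) (nat_lit 256) (.e (nat_lit 57373) (nat_lit 2) (.e (nat_lit 90174) (nat_lit 14) (.e (nat_lit 180243) (nat_lit 5) (.e (nat_lit 532511) (nat_lit 2) (.e (nat_lit 106526) (nat_lit 9) .nil)))))))) (.g (nat_lit 4) .nil .nil))) 
(.lf (nat_lit 44091) (.g (nat_lit 1872) (.e (nat_lit 1252) (nat_lit 92) (.e (nat_lit 98342) (nat_lit 20) (.e (nat_lit 221212) (nat_lit 22) (.e (nat_lit 196681) (nat_lit 17) .nil)))) .nil))))) (.nd (nat_lit 3) (.nd (nat_lit 4) (.nd (nat_lit 5) 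
(.lf (nat_lit 44039) (.g (nat_lit 3326) (.e (nat_lit 1252) (nat_lit 92) (.e (nat_lit 98334) (nat_lit 18) (.e (nat_lit 164398) (nat_lit 256) (.e (nat_lit 57373) (nat_lit 2) (.e (nat_lit 90174) (nat_lit 14) (.e (nat_lit 180243) (nat_lit 5) (.e (nat_lit 532511) (nat_lit 2) (.e (nat_lit 106523) (nat_lit 9) .nil)))))))) (.g (nat_lit 5) .nil .nil))) 
(.lf (nat_lit 44071) (.g (nat_lit 3139) (.e (nat_lit 1252) (nat_lit 92) (.e (nat_lit 98335) (nat_lit 18) (.e (nat_lit 164403) (nat_lit 256) (.e (nat_lit 57371) (nat_lit 2) (.e (nat_lit 90174) (nat_lit 14) (.e (nat_lit 180243) (nat_lit 5) (.e (nat_lit 532508) (nat_lit 2) (.e (nat_lit 106523) (nat_lit 9) .nil)))))))) (.g (nat_lit 5) .nil .nil)))) (.nd (nat_lit 5) 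
(.lf (nat_lit 44055) (.g (nat_lit 3272) (.e (nat_lit 1252) (nat_lit 92) (.e (nat_lit 98334) (nat_lit 18) (.e (nat_lit 164399) (nat_lit 256) (.e (nat_lit 57373) (nat_lit 2) (.e (nat_lit 90174) (nat_lit 14) (.e (nat_lit 180243) (nat_lit 5) (.e (nat_lit 532508) (nat_lit 2) (.e (nat_lit 106526) (nat_lit 9) .nil)))))))) (.g (nat_lit 5) .nil .nil))) 
(.lf (nat_lit 44087) (.g (nat_lit 1013) (.e (nat_lit 1252) (nat_lit 92) (.e (nat_lit 98342) (nat_lit 20) (.e (nat_lit 221212) (nat_lit 22) .nil))) .nil)))) (.nd (nat_lit 4) (.nd (nat_lit 5) 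
(.lf (nat_lit 44047) (.g (nat_lit 2747) (.e (nat_lit 1252) (nat_lit 92) (.e (nat_lit 98334) (nat_lit 18) (.e (nat_lit 164398) (nat_lit 256) (.e (nat_lit 57378) (nat_lit 3) (.e (nat_lit 98367) (nat_lit 27) (.e (nat_lit 434231) (nat_lit 23) (.e (nat_lit 532507) (nat_lit 2) (.e (nat_lit 106517) (nat_lit 9) .nil)))))))) (.g (nat_lit 4) .nil .nil))) 
(.lf (nat_lit 44079) (.g (nat_lit 3608) (.e (nat_lit 1252) (nat_lit 92) (.e (nat_lit 98335) (nat_lit 18) (.e (nat_lit 164403) (nat_lit 256) (.e (nat_lit 57373) (nat_lit 2) (.e (nat_lit 90174) (nat_lit 14) (.e (nat_lit 180243) (nat_lit 5) (.e (nat_lit 532508) (nat_lit 2) (.e (nat_lit 106523) (nat_lit 9) .nil)))))))) (.g (nat_lit 5) .nil .nil)))) (.nd (nat_lit 5) 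
(.lf (nat_lit 44063) (.g (nat_lit 2016) (.e (nat_lit 1252) (nat_lit 92) (.e (nat_lit 98335) (nat_lit 18) (.e (nat_lit 164403) (nat_lit 256) (.e (nat_lit 57370) (nat_lit 2) (.e (nat_lit 90172) (nat_lit 14) (.e (nat_lit 180244) (nat_lit 5) (.e (nat_lit 532508) (nat_lit 2) (.e (nat_lit 106517) (nat_lit 9) .nil)))))))) (.g (nat_lit 4) .nil .nil))) 
(.lf (nat_lit 44095) (.g (nat_lit 2540) (.e (nat_lit 1252) (nat_lit 92) (.e (nat_lit 98342) (nat_lit 20) (.e (nat_lit 221215) (nat_lit 23) (.e (nat_lit 204861) (nat_lit 26) (.e (nat_lit 336010) (nat_lit 2) .nil))))) .nil))))))))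

noncomputable def tv612 : DT := (.nd (nat_lit 0) (.nd (nat_lit 1) (.nd (nat_lit 2) (.nd (nat_lit 3) (.nd (nat_lit 4) (.nd (nat_lit 5) 
(.lf (nat_lit 44096) (.g (nat_lit 3835) (.e (nat_lit 1252) (nat_lit 92) (.e (nat_lit 98342) (nat_lit 20) (.e (nat_lit 221215) (nat_lit 23) (.e (nat_lit 204861) (nat_lit 26) (.e (nat_lit 336012) (nat_lit 2) (.e (nat_lit 90164) (nat_lit 12) (.e (nat_lit 164017) (nat_lit 44) (.e (nat_lit 688157) (nat_lit 13) .nil)))))))) (.g (nat_lit 6) .nil .nil))) 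
(.lf (nat_lit 44128) (.g (nat_lit 2797) (.e (nat_lit 1252) (nat_lit 92) (.e (nat_lit 98356) (nat_lit 26) (.e (nat_lit 426438) (nat_lit 18) (.e (nat_lit 98376) (nat_lit 30) (.e (nat_lit 458789) (nat_lit 23) (.e (nat_lit 532499) (nat_lit 1) (.e (nat_lit 57755) (nat_lit 209) (.e (nat_lit 1086) (nat_lit 81) .nil)))))))) (.g (nat_lit 5) .nil .nil)))) (.nd (nat_lit 5) 
(.lf (nat_lit 44112) (.g (nat_lit 904) (.e (nat_lit 1252) (nat_lit 92) (.e (nat_lit 98356) (nat_lit 26) (.e (nat_lit 426428) (nat_lit 17) .nil))) .nil)) 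
(.lf (nat_lit 44144) (.g (nat_lit 1207) (.e (nat_lit 1252) (nat_lit 92) (.e (nat_lit 98365) (nat_lit 26) (.e (nat_lit 426188) (nat_lit 9) (.e (nat_lit 426566) (nat_lit 34) .nil)))) .nil)))) (.nd (nat_lit 4) (.nd (nat_lit 5) 
(.lf (nat_lit 44104) (.g (nat_lit 3043) (.e (nat_lit 1252) (nat_lit 92) (.e (nat_lit 98350) (nat_lit 24) (.e (nat_lit 409640) (nat_lit 17) (.e (nat_lit 294931) (nat_lit 3) (.e (nat_lit 98350) (nat_lit 24) (.e (nat_lit 409616) (nat_lit 10) (.e (nat_lit 5355) (nat_lit 298) .nil))))))) (.g (nat_lit 5) .nil .nil))) 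
(.lf (nat_lit 44136) (.g (nat_lit 2017) (.e (nat_lit 1252) (nat_lit 92) (.e (nat_lit 98358) (nat_lit 26) (.e (nat_lit 426320) (nat_lit 12) (.e (nat_lit 475185) (nat_lit 29) (.e (nat_lit 557105) (nat_lit 14) .nil))))) .nil))) (.nd (nat_lit 5) 
(.lf (nat_lit 44120) (.g (nat_lit 4688) (.e (nat_lit 1252) (nat_lit 92) (.e (nat_lit 98356) (nat_lit 26) (.e (nat_lit 426428) (nat_lit 17) (.e (nat_lit 90174) (nat_lit 14) (.e (nat_lit 180243) (nat_lit 5) (.e (nat_lit 532499) (nat_lit 1) (.e (nat_lit 57754) (nat_lit 209) (.e (nat_lit 1086) (nat_lit 81) .nil)))))))) (.g (nat_lit 6) .nil .nil))) 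
(.lf (nat_lit 44152) (.g (nat_lit 3383) (.e (nat_lit 1252) (nat_lit 92) (.e (nat_lit 98365) (nat_lit 26) (.e (nat_lit 426306) (nat_lit 12) (.e (nat_lit 475185) (nat_lit 29) (.e (nat_lit 557105) (nat_lit 14) (.e (nat_lit 180278) (nat_lit 32) .nil)))))) (.g (nat_lit 0) .nil .nil)))))) (.nd (nat_lit 3) (.nd (nat_lit 4) (.nd (nat_lit 5) 
(.lf (nat_lit 44100) (.g (nat_lit 2977) (.e (nat_lit 1252) (nat_lit 92) (.e (nat_lit 98350) (nat_lit 24) (.e (nat_lit 409616) (nat_lit 10) (.e (nat_lit 5355) (nat_lit 298) (.e (nat_lit 1253) (nat_lit 92) (.e (nat_lit 98350) (nat_lit 24) (.e (nat_lit 409616) (nat_lit 10) (.e (nat_lit 5355) (nat_lit 298) .nil)))))))) (.g (nat_lit 4) .nil .nil))) 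
(.lf (nat_lit 44132) (.g (nat_lit 976) (.e (nat_lit 1252) (nat_lit 92) (.e (nat_lit 98358) (nat_lit 26) (.e (nat_lit 426294) (nat_lit 11) .nil))) .nil))) (.nd (nat_lit 5) 
(.lf (nat_lit 44116) (.g (nat_lit 5045) (.e (nat_lit 1252) (nat_lit 92) (.e (nat_lit 98356) (nat_lit 26) (.e (nat_lit 426428) (nat_lit 17) (.e (nat_lit 90170) (nat_lit 13) (.e (nat_lit 172065) (nat_lit 3) (.e (nat_lit 204830) (nat_lit 18) (.e (nat_lit 57754) (nat_lit 209) (.e (nat_lit 1086) (nat_lit 81) .nil)))))))) (.g (nat_lit 8) .nil .nil))) 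
(.lf (nat_lit 44148) (.g (nat_lit 3828) (.e (nat_lit 1252) (nat_lit 92) (.e (nat_lit 98365) (nat_lit 26) (.e (nat_lit 426306) (nat_lit 12) (.e (nat_lit 475183) (nat_lit 29) (.e (nat_lit 557104) (nat_lit 14) (.e (nat_lit 180278) (nat_lit 32) .nil)))))) (.g (nat_lit 0) .nil .nil))))) (.nd (nat_lit 4) (.nd (nat_lit 5) 
(.lf (nat_lit 44108) (.g (nat_lit 2564) (.e (nat_lit 1252) (nat_lit 92) (.e (nat_lit 98354) (nat_lit 26) (.e (nat_lit 426317) (nat_lit 12) (.e (nat_lit 475185) (nat_lit 29) (.e (nat_lit 557103) (nat_lit 14) (.e (nat_lit 180278) (nat_lit 32) .nil)))))) (.g (nat_lit 0) .nil .nil))) 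
(.lf (nat_lit 44140) (.g (nat_lit 2669) (.e (nat_lit 1252) (nat_lit 92) (.e (nat_lit 98363) (nat_lit 26) (.e (nat_lit 426318) (nat_lit 12) (.e (nat_lit 475185) (nat_lit 29) (.e (nat_lit 557105) (nat_lit 14) (.e (nat_lit 180277) (nat_lit 32) .nil)))))) (.g (nat_lit 6) .nil .nil)))) (.nd (nat_lit 5) 
(.lf (nat_lit 44124) (.g (nat_lit 887) (.e (nat_lit 1252) (nat_lit 92) (.e (nat_lit 98356) (nat_lit 26) (.e (nat_lit 426438) (nat_lit 18) .nil))) .nil)) 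
(.lf (nat_lit 44156) (.g (nat_lit 1218) (.e (nat_lit 1252) (nat_lit 92) (.e (nat_lit 98365) (nat_lit 26) (.e (nat_lit 426315) (nat_lit 12) (.e (nat_lit 475185) (nat_lit 29) .nil)))) .nil)))))) (.nd (nat_lit 2) (.nd (nat_lit 3) (.nd (nat_lit 4) (.nd (nat_lit 5) 
(.lf (nat_lit 44098) (.g (nat_lit 2645) (.e (nat_lit 1252) (nat_lit 92) (.e (nat_lit 98350) (nat_lit 24) (.e (nat_lit 409602) (nat_lit 0) (.e (nat_lit 5293) (nat_lit 298) (.e (nat_lit 1232) (nat_lit 91) (.e (nat_lit 90173) (nat_lit 14) (.e (nat_lit 180277) (nat_lit 32) .nil))))))) (.g (nat_lit 4) .nil .nil))) 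
(.lf (nat_lit 44130) (.g (nat_lit 4007) (.e (nat_lit 1252) (nat_lit 92) (.e (nat_lit 98356) (nat_lit 26) (.e (nat_lit 426438) (nat_lit 18) (.e (nat_lit 98377) (nat_lit 30) (.e (nat_lit 458789) (nat_lit 23) (.e (nat_lit 532499) (nat_lit 1) (.e (nat_lit 57754) (nat_lit 209) (.e (nat_lit 1086) (nat_lit 81) .nil)))))))) (.g (nat_lit 6) .nil .nil)))) (.nd (nat_lit 5) 
(.lf (nat_lit 44114) (.g (nat_lit 2741) (.e (nat_lit 1252) (nat_lit 92) (.e (nat_lit 98356) (nat_lit 26) (.e (nat_lit 426428) (nat_lit 17) (.e (nat_lit 90170) (nat_lit 13) (.e (nat_lit 172065) (nat_lit 3) (.e (nat_lit 204830) (nat_lit 18) (.e (nat_lit 57754) (nat_lit 209) (.e (nat_lit 1023) (nat_lit 81) .nil)))))))) (.g (nat_lit 4) .nil .nil))) 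
(.lf (nat_lit 44146) (.g (nat_lit 3629) (.e (nat_lit 1252) (nat_lit 92) (.e (nat_lit 98365) (nat_lit 26) (.e (nat_lit 426306) (nat_lit 12) (.e (nat_lit 475183) (nat_lit 29) (.e (nat_lit 557103) (nat_lit 14) (.e (nat_lit 180278) (nat_lit 32) .nil)))))) (.g (nat_lit 6) .nil .nil))))) (.nd (nat_lit 4) (.nd (nat_lit 5) 
(.lf (nat_lit 44106) (.g (nat_lit 3415) (.e (nat_lit 1252) (nat_lit 92) (.e (nat_lit 98350) (nat_lit 24) (.e (nat_lit 409641) (nat_lit 17) (.e (nat_lit 294931) (nat_lit 3) (.e (nat_lit 98350) (nat_lit 24) (.e (nat_lit 409617) (nat_lit 10) (.e (nat_lit 5355) (nat_lit 298) .nil))))))) (.g (nat_lit 5) .nil .nil))) 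
(.lf (nat_lit 44138) (.g (nat_lit 556) (.e (nat_lit 1252) (nat_lit 92) (.e (nat_lit 98363) (nat_lit 26) (.e (nat_lit 425984) (nat_lit 0) .nil))) .nil))) (.nd (nat_lit 5) 
(.lf (nat_lit 44122) (.g (nat_lit 2903) (.e (nat_lit 1252) (nat_lit 92) (.e (nat_lit 98356) (nat_lit 26) (.e (nat_lit 426428) (nat_lit 17) (.e (nat_lit 90185) (nat_lit 17) (.e (nat_lit 237592) (nat_lit 3) (.e (nat_lit 204829) (nat_lit 18) (.e (nat_lit 57755) (nat_lit 209) (.e (nat_lit 1086) (nat_lit 81) .nil)))))))) (.g (nat_lit 4) .nil .nil))) 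
(.lf (nat_lit 44154) (.g (nat_lit 2416) (.e (nat_lit 1252) (nat_lit 92) (.e (nat_lit 98365) (nat_lit 26) (.e (nat_lit 426315) (nat_lit 12) (.e (nat_lit 475183) (nat_lit 29) (.e (nat_lit 557104) (nat_lit 14) .nil))))) .nil))))) (.nd (nat_lit 3) (.nd (nat_lit 4) (.nd (nat_lit 5) 
(.lf (nat_lit 44102) (.g (nat_lit 744) (.e (nat_lit 1252) (nat_lit 92) (.e (nat_lit 98350) (nat_lit 24) (.e (nat_lit 409617) (nat_lit 10) .nil))) .nil)) 
(.lf (nat_lit 44134) (.g (nat_lit 1504) (.e (nat_lit 1252) (nat_lit 92) (.e (nat_lit 98358) (nat_lit 26) (.e (nat_lit 426320) (nat_lit 12) (.e (nat_lit 475184) (nat_lit 29) .nil)))) .nil))) (.nd (nat_lit 5) 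
(.lf (nat_lit 44118) (.g (nat_lit 2243) (.e (nat_lit 1252) (nat_lit 92) (.e (nat_lit 98356) (nat_lit 26) (.e (nat_lit 426428) (nat_lit 17) (.e (nat_lit 90172) (nat_lit 14) (.e (nat_lit 180244) (nat_lit 5) .nil))))) .nil)) 
(.lf (nat_lit 44150) (.g (nat_lit 2779) (.e (nat_lit 1252) (nat_lit 92) (.e (nat_lit 98365) (nat_lit 26) (.e (nat_lit 426306) (nat_lit 12) (.e (nat_lit 475184) (nat_lit 29) (.e (nat_lit 557105) (nat_lit 14) (.e (nat_lit 180277) (nat_lit 32) .nil)))))) (.g (nat_lit 6) .nil .nil))))) (.nd (nat_lit 4) (.nd (nat_lit 5) 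
(.lf (nat_lit 44110) (.g (nat_lit 2456) (.e (nat_lit 1252) (nat_lit 92) (.e (nat_lit 98354) (nat_lit 26) (.e (nat_lit 426317) (nat_lit 12) (.e (nat_lit 475185) (nat_lit 29) (.e (nat_lit 557105) (nat_lit 14) (.e (nat_lit 180278) (nat_lit 32) .nil)))))) (.g (nat_lit 6) .nil .nil))) 
(.lf (nat_lit 44142) (.g (nat_lit 567) (.e (nat_lit 1252) (nat_lit 92) (.e (nat_lit 98365) (nat_lit 26) (.e (nat_lit 426187) (nat_lit 9) .nil))) .nil))) (.nd (nat_lit 5) 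
(.lf (nat_lit 44126) (.g (nat_lit 4204) (.e (nat_lit 1252) (nat_lit 92) (.e (nat_lit 98356) (nat_lit 26) (.e (nat_lit 426438) (nat_lit 18) (.e (nat_lit 98358) (nat_lit 26) (.e (nat_lit 426131) (nat_lit 3) (.e (nat_lit 204830) (nat_lit 18) (.e (nat_lit 57754) (nat_lit 209) (.e (nat_lit 1086) (nat_lit 81) .nil)))))))) (.g (nat_lit 8) .nil .nil))) 
(.lf (nat_lit 44158) (.g (nat_lit 3228) (.e (nat_lit 1252) (nat_lit 92) (.e (nat_lit 98365) (nat_lit 26) (.e (nat_lit 426316) (nat_lit 12) (.e (nat_lit 475185) (nat_lit 29) (.e (nat_lit 557103) (nat_lit 14) (.e (nat_lit 180278) (nat_lit 32) .nil)))))) (.g (nat_lit 6) .nil .nil)))))))) (.nd (nat_lit 1) (.nd (nat_lit 2) (.nd (nat_lit 3) (.nd (nat_lit 4) (.nd (nat_lit 5) 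
(.lf (nat_lit 44097) (.g (nat_lit 2692) (.e (nat_lit 1252) (nat_lit 92) (.e (nat_lit 98342) (nat_lit 20) (.e (nat_lit 221215) (nat_lit 23) (.e (nat_lit 204861) (nat_lit 26) (.e (nat_lit 336012) (nat_lit 2) (.e (nat_lit 90164) (nat_lit 12) (.e (nat_lit 164017) (nat_lit 44) (.e (nat_lit 688158) (nat_lit 13) .nil)))))))) (.g (nat_lit 4) .nil .nil))) 
(.lf (nat_lit 44129) (.g (nat_lit 3345) (.e (nat_lit 1252) (nat_lit 92) (.e (nat_lit 98356) (nat_lit 26) (.e (nat_lit 426438) (nat_lit 18) (.e (nat_lit 98376) (nat_lit 30) (.e (nat_lit 458789) (nat_lit 23) (.e (nat_lit 532501) (nat_lit 1) (.e (nat_lit 57754) (nat_lit 209) (.e (nat_lit 1086) (nat_lit 81) .nil)))))))) (.g (nat_lit 6) .nil .nil)))) (.nd (nat_lit 5) 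
(.lf (nat_lit 44113) (.g (nat_lit 2664) (.e (nat_lit 1252) (nat_lit 92) (.e (nat_lit 98356) (nat_lit 26) (.e (nat_lit 426428) (nat_lit 17) (.e (nat_lit 90170) (nat_lit 13) (.e (nat_lit 172065) (nat_lit 3) .nil))))) .nil)) 
(.lf (nat_lit 44145) (.g (nat_lit 1253) (.e (nat_lit 1252) (nat_lit 92) (.e (nat_lit 98365) (nat_lit 26) (.e (nat_lit 426198) (nat_lit 9) (.e (nat_lit 426402) (nat_lit 15) .nil)))) .nil)))) (.nd (nat_lit 4) (.nd (nat_lit 5) 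
(.lf (nat_lit 44105) (.g (nat_lit 579) (.e (nat_lit 1252) (nat_lit 92) (.e (nat_lit 98350) (nat_lit 24) (.e (nat_lit 409641) (nat_lit 17) .nil))) .nil)) 
(.lf (nat_lit 44137) (.g (nat_lit 1734) (.e (nat_lit 1252) (nat_lit 92) (.e (nat_lit 98359) (nat_lit 26) (.e (nat_lit 426338) (nat_lit 14) (.e (nat_lit 491540) (nat_lit 3) .nil)))) .nil))) (.nd (nat_lit 5) 
(.lf (nat_lit 44121) (.g (nat_lit 2907) (.e (nat_lit 1252) (nat_lit 92) (.e (nat_lit 98356) (nat_lit 26) (.e (nat_lit 426428) (nat_lit 17) (.e (nat_lit 90185) (nat_lit 17) (.e (nat_lit 237592) (nat_lit 3) (.e (nat_lit 204829) (nat_lit 18) (.e (nat_lit 57754) (nat_lit 209) (.e (nat_lit 1086) (nat_lit 81) .nil)))))))) (.g (nat_lit 4) .nil .nil))) 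
(.lf (nat_lit 44153) (.g (nat_lit 1577) (.e (nat_lit 1252) (nat_lit 92) (.e (nat_lit 98365) (nat_lit 26) (.e (nat_lit 426315) (nat_lit 12) (.e (nat_lit 475183) (nat_lit 29) .nil)))) .nil))))) (.nd (nat_lit 3) (.nd (nat_lit 4) (.nd (nat_lit 5) 
(.lf (nat_lit 44101) (.g (nat_lit 1624) (.e (nat_lit 1252) (nat_lit 92) (.e (nat_lit 98350) (nat_lit 24) (.e (nat_lit 409616) (nat_lit 10) (.e (nat_lit 7936) (nat_lit 298) .nil)))) .nil)) 
(.lf (nat_lit 44133) (.g (nat_lit 1526) (.e (nat_lit 1252) (nat_lit 92) (.e (nat_lit 98358) (nat_lit 26) (.e (nat_lit 426320) (nat_lit 12) (.e (nat_lit 475183) (nat_lit 29) .nil)))) .nil))) (.nd (nat_lit 5) 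
(.lf (nat_lit 44117) (.g (nat_lit 2995) (.e (nat_lit 1252) (nat_lit 92) (.e (nat_lit 98356) (nat_lit 26) (.e (nat_lit 426428) (nat_lit 17) (.e (nat_lit 90170) (nat_lit 13) (.e (nat_lit 172067) (nat_lit 3) .nil))))) .nil)) 
(.lf (nat_lit 44149) (.g (nat_lit 1760) (.e (nat_lit 1252) (nat_lit 92) (.e (nat_lit 98365) (nat_lit 26) (.e (nat_lit 426306) (nat_lit 12) (.e (nat_lit 475184) (nat_lit 29) (.e (nat_lit 557104) (nat_lit 14) (.e (nat_lit 180278) (nat_lit 32) .nil)))))) (.g (nat_lit 4) .nil .nil))))) (.nd (nat_lit 4) (.nd (nat_lit 5) 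
(.lf (nat_lit 44109) (.g (nat_lit 2406) (.e (nat_lit 1252) (nat_lit 92) (.e (nat_lit 98354) (nat_lit 26) (.e (nat_lit 426317) (nat_lit 12) (.e (nat_lit 475185) (nat_lit 29) (.e (nat_lit 557105) (nat_lit 14) (.e (nat_lit 180277) (nat_lit 32) .nil)))))) (.g (nat_lit 0) .nil .nil))) 
(.lf (nat_lit 44141) (.g (nat_lit 2708) (.e (nat_lit 1252) (nat_lit 92) (.e (nat_lit 98363) (nat_lit 26) (.e (nat_lit 426318) (nat_lit 12) (.e (nat_lit 475185) (nat_lit 29) (.e (nat_lit 557105) (nat_lit 14) (.e (nat_lit 180278) (nat_lit 32) .nil)))))) (.g (nat_lit 6) .nil .nil)))) (.nd (nat_lit 5) 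
(.lf (nat_lit 44125) (.g (nat_lit 2602) (.e (nat_lit 1252) (nat_lit 92) (.e (nat_lit 98356) (nat_lit 26) (.e (nat_lit 426438) (nat_lit 18) (.e (nat_lit 98358) (nat_lit 26) (.e (nat_lit 426131) (nat_lit 3) (.e (nat_lit 204830) (nat_lit 18) (.e (nat_lit 57754) (nat_lit 209) (.e (nat_lit 1039) (nat_lit 81) .nil)))))))) (.g (nat_lit 5) .nil .nil))) 
(.lf (nat_lit 44157) (.g (nat_lit 2882) (.e (nat_lit 1252) (nat_lit 92) (.e (nat_lit 98365) (nat_lit 26) (.e (nat_lit 426316) (nat_lit 12) (.e (nat_lit 475185) (nat_lit 29) (.e (nat_lit 557103) (nat_lit 14) (.e (nat_lit 180277) (nat_lit 32) .nil)))))) (.g (nat_lit 5) .nil .nil))))))) (.nd (nat_lit 2) (.nd (nat_lit 3) (.nd (nat_lit 4) (.nd (nat_lit 5) 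
(.lf (nat_lit 44099) (.g (nat_lit 2720) (.e (nat_lit 1252) (nat_lit 92) (.e (nat_lit 98350) (nat_lit 24) (.e (nat_lit 409602) (nat_lit 0) (.e (nat_lit 5293) (nat_lit 298) (.e (nat_lit 1232) (nat_lit 91) (.e (nat_lit 90174) (nat_lit 14) (.e (nat_lit 180277) (nat_lit 32) .nil))))))) (.g (nat_lit 4) .nil .nil))) 
(.lf (nat_lit 44131) (.g (nat_lit 903) (.e (nat_lit 1252) (nat_lit 92) (.e (nat_lit 98358) (nat_lit 26) (.e (nat_lit 426227) (nat_lit 9) .nil))) .nil))) (.nd (nat_lit 5) 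
(.lf (nat_lit 44115) (.g (nat_lit 2759) (.e (nat_lit 1252) (nat_lit 92) (.e (nat_lit 98356) (nat_lit 26) (.e (nat_lit 426428) (nat_lit 17) (.e (nat_lit 90170) (nat_lit 13) (.e (nat_lit 172065) (nat_lit 3) (.e (nat_lit 204830) (nat_lit 18) (.e (nat_lit 57754) (nat_lit 209) (.e (nat_lit 1040) (nat_lit 81) .nil)))))))) (.g (nat_lit 4) .nil .nil))) 
(.lf (nat_lit 44147) (.g (nat_lit 2908) (.e (nat_lit 1252) (nat_lit 92) (.e (nat_lit 98365) (nat_lit 26) (.e (nat_lit 426306) (nat_lit 12) (.e (nat_lit 475183) (nat_lit 29) (.e (nat_lit 557104) (nat_lit 14) (.e (nat_lit 180277) (nat_lit 32) .nil)))))) (.g (nat_lit 5) .nil .nil))))) (.nd (nat_lit 4) (.nd (nat_lit 5) 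
(.lf (nat_lit 44107) (.g (nat_lit 3035) (.e (nat_lit 1252) (nat_lit 92) (.e (nat_lit 98350) (nat_lit 24) (.e (nat_lit 409646) (nat_lit 18) (.e (nat_lit 303119) (nat_lit 3) (.e (nat_lit 204863) (nat_lit 27) .nil))))) .nil)) 
(.lf (nat_lit 44139) (.g (nat_lit 2871) (.e (nat_lit 1252) (nat_lit 92) (.e (nat_lit 98363) (nat_lit 26) (.e (nat_lit 426318) (nat_lit 12) (.e (nat_lit 475185) (nat_lit 29) (.e (nat_lit 557103) (nat_lit 14) (.e (nat_lit 180278) (nat_lit 32) .nil)))))) (.g (nat_lit 6) .nil .nil)))) (.nd (nat_lit 5) 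
(.lf (nat_lit 44123) (.g (nat_lit 3163) (.e (nat_lit 1252) (nat_lit 92) (.e (nat_lit 98356) (nat_lit 26) (.e (nat_lit 426428) (nat_lit 17) (.e (nat_lit 90185) (nat_lit 17) (.e (nat_lit 237594) (nat_lit 3) .nil))))) .nil)) 
(.lf (nat_lit 44155) (.g (nat_lit 1214) (.e (nat_lit 1252) (nat_lit 92) (.e (nat_lit 98365) (nat_lit 26) (.e (nat_lit 426315) (nat_lit 12) (.e (nat_lit 475184) (nat_lit 29) .nil)))) .nil))))) (.nd (nat_lit 3) (.nd (nat_lit 4) (.nd (nat_lit 5) 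
(.lf (nat_lit 44103) (.g (nat_lit 1681) (.e (nat_lit 1252) (nat_lit 92) (.e (nat_lit 98350) (nat_lit 24) (.e (nat_lit 409617) (nat_lit 10) (.e (nat_lit 5355) (nat_lit 298) .nil)))) .nil)) 
(.lf (nat_lit 44135) (.g (nat_lit 1965) (.e (nat_lit 1252) (nat_lit 92) (.e (nat_lit 98358) (nat_lit 26) (.e (nat_lit 426320) (nat_lit 12) (.e (nat_lit 475185) (nat_lit 29) (.e (nat_lit 557103) (nat_lit 14) .nil))))) .nil))) (.nd (nat_lit 5) 
(.lf (nat_lit 44119) (.g (nat_lit 2269) (.e (nat_lit 1252) (nat_lit 92) (.e (nat_lit 98356) (nat_lit 26) (.e (nat_lit 426428) (nat_lit 17) (.e (nat_lit 90174) (nat_lit 14) (.e (nat_lit 180243) (nat_lit 5) .nil))))) .nil)) 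
(.lf (nat_lit 44151) (.g (nat_lit 3199) (.e (nat_lit 1252) (nat_lit 92) (.e (nat_lit 98365) (nat_lit 26) (.e (nat_lit 426306) (nat_lit 12) (.e (nat_lit 475185) (nat_lit 29) (.e (nat_lit 557103) (nat_lit 14) (.e (nat_lit 180277) (nat_lit 32) .nil)))))) (.g (nat_lit 6) .nil .nil))))) (.nd (nat_lit 4) (.nd (nat_lit 5) 
(.lf (nat_lit 44111) (.g (nat_lit 886) (.e (nat_lit 1252) (nat_lit 92) (.e (nat_lit 98356) (nat_lit 26) (.e (nat_lit 426320) (nat_lit 12) .nil))) .nil)) 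
(.lf (nat_lit 44143) (.g (nat_lit 1191) (.e (nat_lit 1252) (nat_lit 92) (.e (nat_lit 98365) (nat_lit 26) (.e (nat_lit 426188) (nat_lit 9) (.e (nat_lit 426354) (nat_lit 15) .nil)))) .nil))) (.nd (nat_lit 5) 
(.lf (nat_lit 44127) (.g (nat_lit 2133) (.e (nat_lit 1252) (nat_lit 92) (.e (nat_lit 98356) (nat_lit 26) (.e (nat_lit 426438) (nat_lit 18) (.e (nat_lit 98363) (nat_lit 26) (.e (nat_lit 426129) (nat_lit 3) .nil))))) .nil)) 
(.lf (nat_lit 44159) (.g (nat_lit 2947) (.e (nat_lit 1252) (nat_lit 92) (.e (nat_lit 98365) (nat_lit 26) (.e (nat_lit 426316) (nat_lit 12) (.e (nat_lit 475185) (nat_lit 29) (.e (nat_lit 557105) (nat_lit 14) (.e (nat_lit 180277) (nat_lit 32) .nil)))))) (.g (nat_lit 6) .nil .nil)))))))))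

noncomputable def tv613 : DT := (.nd (nat_lit 0) (.nd (nat_lit 1) (.nd (nat_lit 2) (.nd (nat_lit 3) (.nd (nat_lit 4) (.nd (nat_lit 5) 
(.lf (nat_lit 44160) (.g (nat_lit 2994) (.e (nat_lit 1252) (nat_lit 92) (.e (nat_lit 98365) (nat_lit 26) (.e (nat_lit 426316) (nat_lit 12) (.e (nat_lit 475185) (nat_lit 29) (.e (nat_lit 557105) (nat_lit 14) (.e (nat_lit 180278) (nat_lit 32) .nil)))))) (.g (nat_lit 6) .nil .nil))) 
(.lf (nat_lit 44192) (.g (nat_lit 989) (.e (nat_lit 1252) (nat_lit 92) (.e (nat_lit 98367) (nat_lit 27) (.e (nat_lit 434245) (nat_lit 28) .nil))) .nil))) (.nd (nat_lit 5) 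
(.lf (nat_lit 44176) (.g (nat_lit 929) (.e (nat_lit 1252) (nat_lit 92) (.e (nat_lit 98367) (nat_lit 27) (.e (nat_lit 434180) (nat_lit 0) .nil))) .nil)) 
(.lf (nat_lit 44208) (.g (nat_lit 3075) (.e (nat_lit 1252) (nat_lit 92) (.e (nat_lit 98367) (nat_lit 27) (.e (nat_lit 434246) (nat_lit 28) (.e (nat_lit 573489) (nat_lit 14) (.e (nat_lit 73755) (nat_lit 8) (.e (nat_lit 557089) (nat_lit 12) (.e (nat_lit 164007) (nat_lit 41) (.e (nat_lit 663559) (nat_lit 0) .nil)))))))) (.g (nat_lit 5) .nil .nil))))) (.nd (nat_lit 4) (.nd (nat_lit 5) 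
(.lf (nat_lit 44168) (.g (nat_lit 3425) (.e (nat_lit 1252) (nat_lit 92) (.e (nat_lit 98366) (nat_lit 27) (.e (nat_lit 434244) (nat_lit 28) (.e (nat_lit 573487) (nat_lit 14) (.e (nat_lit 73746) (nat_lit 3) (.e (nat_lit 516117) (nat_lit 1) (.e (nat_lit 164195) (nat_lit 158) (.e (nat_lit 1086) (nat_lit 81) .nil)))))))) (.g (nat_lit 5) .nil .nil))) 
(.lf (nat_lit 44200) (.g (nat_lit 2448) (.e (nat_lit 1252) (nat_lit 92) (.e (nat_lit 98367) (nat_lit 27) (.e (nat_lit 434245) (nat_lit 28) (.e (nat_lit 573488) (nat_lit 14) (.e (nat_lit 73755) (nat_lit 8) (.e (nat_lit 557089) (nat_lit 12) (.e (nat_lit 164006) (nat_lit 41) (.e (nat_lit 663559) (nat_lit 0) .nil)))))))) (.g (nat_lit 4) .nil .nil)))) (.nd (nat_lit 5) 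
(.lf (nat_lit 44184) (.g (nat_lit 1448) (.e (nat_lit 1252) (nat_lit 92) (.e (nat_lit 98367) (nat_lit 27) (.e (nat_lit 434244) (nat_lit 28) (.e (nat_lit 573481) (nat_lit 13) .nil)))) .nil)) 
(.lf (nat_lit 44216) (.g (nat_lit 2106) (.e (nat_lit 1252) (nat_lit 92) (.e (nat_lit 98367) (nat_lit 27) (.e (nat_lit 434247) (nat_lit 28) (.e (nat_lit 573489) (nat_lit 14) (.e (nat_lit 73754) (nat_lit 8) .nil))))) .nil))))) (.nd (nat_lit 3) (.nd (nat_lit 4) (.nd (nat_lit 5) 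
(.lf (nat_lit 44164) (.g (nat_lit 3238) (.e (nat_lit 1252) (nat_lit 92) (.e (nat_lit 98365) (nat_lit 26) (.e (nat_lit 426342) (nat_lit 14) (.e (nat_lit 491535) (nat_lit 2) (.e (nat_lit 90172) (nat_lit 14) (.e (nat_lit 180278) (nat_lit 32) .nil)))))) (.g (nat_lit 6) .nil .nil))) 
(.lf (nat_lit 44196) (.g (nat_lit 2505) (.e (nat_lit 1252) (nat_lit 92) (.e (nat_lit 98367) (nat_lit 27) (.e (nat_lit 434245) (nat_lit 28) (.e (nat_lit 573487) (nat_lit 14) (.e (nat_lit 73747) (nat_lit 3) .nil))))) .nil))) (.nd (nat_lit 5) 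
(.lf (nat_lit 44180) (.g (nat_lit 1351) (.e (nat_lit 1252) (nat_lit 92) (.e (nat_lit 98367) (nat_lit 27) (.e (nat_lit 434192) (nat_lit 13) (.e (nat_lit 2571) (nat_lit 160) .nil)))) .nil)) 
(.lf (nat_lit 44212) (.g (nat_lit 2400) (.e (nat_lit 1252) (nat_lit 92) (.e (nat_lit 98367) (nat_lit 27) (.e (nat_lit 434247) (nat_lit 28) (.e (nat_lit 573487) (nat_lit 14) (.e (nat_lit 73746) (nat_lit 3) .nil))))) .nil)))) (.nd (nat_lit 4) (.nd (nat_lit 5) 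
(.lf (nat_lit 44172) (.g (nat_lit 2842) (.e (nat_lit 1252) (nat_lit 92) (.e (nat_lit 98366) (nat_lit 27) (.e (nat_lit 434244) (nat_lit 28) (.e (nat_lit 573487) (nat_lit 14) (.e (nat_lit 73753) (nat_lit 8) (.e (nat_lit 557089) (nat_lit 12) (.e (nat_lit 164006) (nat_lit 41) (.e (nat_lit 663559) (nat_lit 0) .nil)))))))) (.g (nat_lit 4) .nil .nil))) 
(.lf (nat_lit 44204) (.g (nat_lit 2375) (.e (nat_lit 1252) (nat_lit 92) (.e (nat_lit 98367) (nat_lit 27) (.e (nat_lit 434246) (nat_lit 28) (.e (nat_lit 573487) (nat_lit 14) (.e (nat_lit 73753) (nat_lit 8) .nil))))) .nil))) (.nd (nat_lit 5) 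
(.lf (nat_lit 44188) (.g (nat_lit 2559) (.e (nat_lit 1252) (nat_lit 92) (.e (nat_lit 98367) (nat_lit 27) (.e (nat_lit 434244) (nat_lit 28) (.e (nat_lit 573487) (nat_lit 14) (.e (nat_lit 73747) (nat_lit 3) .nil))))) .nil)) 
(.lf (nat_lit 44220) (.g (nat_lit 4329) (.e (nat_lit 1252) (nat_lit 92) (.e (nat_lit 98367) (nat_lit 27) (.e (nat_lit 434247) (nat_lit 28) (.e (nat_lit 573489) (nat_lit 14) (.e (nat_lit 73755) (nat_lit 8) (.e (nat_lit 557089) (nat_lit 12) (.e (nat_lit 164007) (nat_lit 41) (.e (nat_lit 663559) (nat_lit 0) .nil)))))))) (.g (nat_lit 8) .nil .nil))))))) 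
(.nd (nat_lit 2) (.nd (nat_lit 3) (.nd (nat_lit 4) (.nd (nat_lit 5) 
(.lf (nat_lit 44162) (.g (nat_lit 756) (.e (nat_lit 1252) (nat_lit 92) (.e (nat_lit 98365) (nat_lit 26) (.e (nat_lit 426326) (nat_lit 13) .nil))) .nil)) 
(.lf (nat_lit 44194) (.g (nat_lit 2433) (.e (nat_lit 1252) (nat_lit 92) (.e (nat_lit 98367) (nat_lit 27) (.e (nat_lit 434245) (nat_lit 28) (.e (nat_lit 573481) (nat_lit 13) (.e (nat_lit 65637) (nat_lit 15) .nil))))) .nil))) (.nd (nat_lit 5) 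
(.lf (nat_lit 44178) (.g (nat_lit 914) (.e (nat_lit 1252) (nat_lit 92) (.e (nat_lit 98367) (nat_lit 27) (.e (nat_lit 442112) (nat_lit 0) .nil))) .nil)) 
(.lf (nat_lit 44210) (.g (nat_lit 3544) (.e (nat_lit 1252) (nat_lit 92) (.e (nat_lit 98367) (nat_lit 27) (.e (nat_lit 434246) (nat_lit 28) (.e (nat_lit 573489) (nat_lit 14) (.e (nat_lit 73755) (nat_lit 8) (.e (nat_lit 557091) (nat_lit 12) (.e (nat_lit 164006) (nat_lit 41) (.e (nat_lit 663559) (nat_lit 0) .nil)))))))) (.g (nat_lit 5) .nil .nil))))) (.nd (nat_lit 4) (.nd (nat_lit 5) 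
(.lf (nat_lit 44170) (.g (nat_lit 3088) (.e (nat_lit 1252) (nat_lit 92) (.e (nat_lit 98366) (nat_lit 27) (.e (nat_lit 434244) (nat_lit 28) (.e (nat_lit 573487) (nat_lit 14) (.e (nat_lit 73747) (nat_lit 3) (.e (nat_lit 516119) (nat_lit 1) (.e (nat_lit 164196) (nat_lit 158) (.e (nat_lit 1086) (nat_lit 81) .nil)))))))) (.g (nat_lit 4) .nil .nil))) 
(.lf (nat_lit 44202) (.g (nat_lit 2368) (.e (nat_lit 1252) (nat_lit 92) (.e (nat_lit 98367) (nat_lit 27) (.e (nat_lit 434246) (nat_lit 28) (.e (nat_lit 573482) (nat_lit 13) (.e (nat_lit 65637) (nat_lit 15) .nil))))) .nil))) (.nd (nat_lit 5) 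
(.lf (nat_lit 44186) (.g (nat_lit 2518) (.e (nat_lit 1252) (nat_lit 92) (.e (nat_lit 98367) (nat_lit 27) (.e (nat_lit 434244) (nat_lit 28) (.e (nat_lit 573481) (nat_lit 13) (.e (nat_lit 65637) (nat_lit 15) .nil))))) .nil)) 
(.lf (nat_lit 44218) (.g (nat_lit 4677) (.e (nat_lit 1252) (nat_lit 92) (.e (nat_lit 98367) (nat_lit 27) (.e (nat_lit 434247) (nat_lit 28) (.e (nat_lit 573489) (nat_lit 14) (.e (nat_lit 73755) (nat_lit 8) (.e (nat_lit 557089) (nat_lit 12) (.e (nat_lit 164006) (nat_lit 41) (.e (nat_lit 663559) (nat_lit 0) .nil)))))))) (.g (nat_lit 8) .nil .nil)))))) 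
(.nd (nat_lit 3) (.nd (nat_lit 4) (.nd (nat_lit 5) 
(.lf (nat_lit 44166) (.g (nat_lit 2777) (.e (nat_lit 1252) (nat_lit 92) (.e (nat_lit 98366) (nat_lit 27) (.e (nat_lit 434244) (nat_lit 28) (.e (nat_lit 573481) (nat_lit 13) (.e (nat_lit 65570) (nat_lit 3) (.e (nat_lit 98333) (nat_lit 18) (.e (nat_lit 164196) (nat_lit 158) (.e (nat_lit 1086) (nat_lit 81) .nil)))))))) (.g (nat_lit 4) .nil .nil))) 
(.lf (nat_lit 44198) (.g (nat_lit 2804) (.e (nat_lit 1252) (nat_lit 92) (.e (nat_lit 98367) (nat_lit 27) (.e (nat_lit 434245) (nat_lit 28) (.e (nat_lit 573487) (nat_lit 14) (.e (nat_lit 73753) (nat_lit 8) (.e (nat_lit 557089) (nat_lit 12) (.e (nat_lit 164007) (nat_lit 41) (.e (nat_lit 663559) (nat_lit 0) .nil)))))))) (.g (nat_lit 4) .nil .nil)))) (.nd (nat_lit 5) 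
(.lf (nat_lit 44182) (.g (nat_lit 1444) (.e (nat_lit 1252) (nat_lit 92) (.e (nat_lit 98367) (nat_lit 27) (.e (nat_lit 434231) (nat_lit 23) (.e (nat_lit 532514) (nat_lit 3) .nil)))) .nil)) 
(.lf (nat_lit 44214) (.g (nat_lit 2348) (.e (nat_lit 1252) (nat_lit 92) (.e (nat_lit 98367) (nat_lit 27) (.e (nat_lit 434247) (nat_lit 28) (.e (nat_lit 573487) (nat_lit 14) (.e (nat_lit 73753) (nat_lit 8) (.e (nat_lit 557091) (nat_lit 12) (.e (nat_lit 164006) (nat_lit 41) (.e (nat_lit 663559) (nat_lit 0) .nil)))))))) (.g (nat_lit 4) .nil .nil))))) (.nd (nat_lit 4) (.nd (nat_lit 5) 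
(.lf (nat_lit 44174) (.g (nat_lit 2927) (.e (nat_lit 1252) (nat_lit 92) (.e (nat_lit 98366) (nat_lit 27) (.e (nat_lit 434244) (nat_lit 28) (.e (nat_lit 573488) (nat_lit 14) (.e (nat_lit 73755) (nat_lit 8) (.e (nat_lit 557090) (nat_lit 12) (.e (nat_lit 164006) (nat_lit 41) (.e (nat_lit 663559) (nat_lit 0) .nil)))))))) (.g (nat_lit 4) .nil .nil))) 
(.lf (nat_lit 44206) (.g (nat_lit 2556) (.e (nat_lit 1252) (nat_lit 92) (.e (nat_lit 98367) (nat_lit 27) (.e (nat_lit 434246) (nat_lit 28) (.e (nat_lit 573487) (nat_lit 14) (.e (nat_lit 73753) (nat_lit 8) (.e (nat_lit 557089) (nat_lit 12) (.e (nat_lit 164007) (nat_lit 41) (.e (nat_lit 663559) (nat_lit 0) .nil)))))))) (.g (nat_lit 4) .nil .nil)))) (.nd (nat_lit 5) 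
(.lf (nat_lit 44190) (.g (nat_lit 2700) (.e (nat_lit 1252) (nat_lit 92) (.e (nat_lit 98367) (nat_lit 27) (.e (nat_lit 434244) (nat_lit 28) (.e (nat_lit 573488) (nat_lit 14) (.e (nat_lit 73755) (nat_lit 8) (.e (nat_lit 557089) (nat_lit 12) (.e (nat_lit 164007) (nat_lit 41) (.e (nat_lit 663559) (nat_lit 0) .nil)))))))) (.g (nat_lit 4) .nil .nil))) 
(.lf (nat_lit 44222) (.g (nat_lit 4067) (.e (nat_lit 1252) (nat_lit 92) (.e (nat_lit 98367) (nat_lit 27) (.e (nat_lit 434247) (nat_lit 28) (.e (nat_lit 573489) (nat_lit 14) (.e (nat_lit 73755) (nat_lit 8) (.e (nat_lit 557089) (nat_lit 12) (.e (nat_lit 164010) (nat_lit 41) (.e (nat_lit 663555) (nat_lit 0) .nil)))))))) (.g (nat_lit 6) .nil .nil)))))))) 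
(.nd (nat_lit 1) (.nd (nat_lit 2) (.nd (nat_lit 3) (.nd (nat_lit 4) (.nd (nat_lit 5) 
(.lf (nat_lit 44161) (.g (nat_lit 1590) (.e (nat_lit 1252) (nat_lit 92) (.e (nat_lit 98365) (nat_lit 26) (.e (nat_lit 426325) (nat_lit 13) (.e (nat_lit 491264) (nat_lit 10) .nil)))) .nil)) 
(.lf (nat_lit 44193) (.g (nat_lit 2381) (.e (nat_lit 1252) (nat_lit 92) (.e (nat_lit 98367) (nat_lit 27) (.e (nat_lit 434245) (nat_lit 28) (.e (nat_lit 573481) (nat_lit 13) (.e (nat_lit 65570) (nat_lit 3) .nil))))) .nil))) (.nd (nat_lit 5) 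
(.lf (nat_lit 44177) (.g (nat_lit 2086) (.e (nat_lit 1252) (nat_lit 92) (.e (nat_lit 98367) (nat_lit 27) (.e (nat_lit 434180) (nat_lit 0) (.e (nat_lit 1235) (nat_lit 91) (.e (nat_lit 90174) (nat_lit 14) .nil))))) .nil)) 
(.lf (nat_lit 44209) (.g (nat_lit 3431) (.e (nat_lit 1252) (nat_lit 92) (.e (nat_lit 98367) (nat_lit 27) (.e (nat_lit 434246) (nat_lit 28) (.e (nat_lit 573489) (nat_lit 14) (.e (nat_lit 73755) (nat_lit 8) (.e (nat_lit 557090) (nat_lit 12) (.e (nat_lit 164007) (nat_lit 41) (.e (nat_lit 663559) (nat_lit 0) .nil)))))))) (.g (nat_lit 5) .nil .nil))))) (.nd (nat_lit 4) (.nd (nat_lit 5) 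
(.lf (nat_lit 44169) (.g (nat_lit 3073) (.e (nat_lit 1252) (nat_lit 92) (.e (nat_lit 98366) (nat_lit 27) (.e (nat_lit 434244) (nat_lit 28) (.e (nat_lit 573487) (nat_lit 14) (.e (nat_lit 73747) (nat_lit 3) (.e (nat_lit 516115) (nat_lit 1) (.e (nat_lit 164196) (nat_lit 158) (.e (nat_lit 1086) (nat_lit 81) .nil)))))))) (.g (nat_lit 4) .nil .nil))) 
(.lf (nat_lit 44201) (.g (nat_lit 2598) (.e (nat_lit 1252) (nat_lit 92) (.e (nat_lit 98367) (nat_lit 27) (.e (nat_lit 434245) (nat_lit 28) (.e (nat_lit 573488) (nat_lit 14) (.e (nat_lit 73755) (nat_lit 8) (.e (nat_lit 557090) (nat_lit 12) (.e (nat_lit 164007) (nat_lit 41) (.e (nat_lit 663559) (nat_lit 0) .nil)))))))) (.g (nat_lit 4) .nil .nil)))) (.nd (nat_lit 5) 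
(.lf (nat_lit 44185) (.g (nat_lit 2221) (.e (nat_lit 1252) (nat_lit 92) (.e (nat_lit 98367) (nat_lit 27) (.e (nat_lit 434244) (nat_lit 28) (.e (nat_lit 573481) (nat_lit 13) (.e (nat_lit 65569) (nat_lit 3) (.e (nat_lit 98334) (nat_lit 18) (.e (nat_lit 164195) (nat_lit 158) (.e (nat_lit 1086) (nat_lit 81) .nil)))))))) (.g (nat_lit 4) .nil .nil))) 
(.lf (nat_lit 44217) (.g (nat_lit 2023) (.e (nat_lit 1252) (nat_lit 92) (.e (nat_lit 98367) (nat_lit 27) (.e (nat_lit 434247) (nat_lit 28) (.e (nat_lit 573489) (nat_lit 14) (.e (nat_lit 73755) (nat_lit 8) .nil))))) .nil))))) (.nd (nat_lit 3) (.nd (nat_lit 4) (.nd (nat_lit 5) 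
(.lf (nat_lit 44165) (.g (nat_lit 2447) (.e (nat_lit 1252) (nat_lit 92) (.e (nat_lit 98366) (nat_lit 27) (.e (nat_lit 434244) (nat_lit 28) (.e (nat_lit 573481) (nat_lit 13) (.e (nat_lit 65569) (nat_lit 3) .nil))))) .nil)) 
(.lf (nat_lit 44197) (.g (nat_lit 2833) (.e (nat_lit 1252) (nat_lit 92) (.e (nat_lit 98367) (nat_lit 27) (.e (nat_lit 434245) (nat_lit 28) (.e (nat_lit 573487) (nat_lit 14) (.e (nat_lit 73753) (nat_lit 8) (.e (nat_lit 557089) (nat_lit 12) (.e (nat_lit 164006) (nat_lit 41) (.e (nat_lit 663559) (nat_lit 0) .nil)))))))) (.g (nat_lit 4) .nil .nil)))) (.nd (nat_lit 5) 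
(.lf (nat_lit 44181) (.g (nat_lit 2413) (.e (nat_lit 1252) (nat_lit 92) (.e (nat_lit 98367) (nat_lit 27) (.e (nat_lit 434231) (nat_lit 23) (.e (nat_lit 532513) (nat_lit 3) (.e (nat_lit 114714) (nat_lit 22) .nil))))) .nil)) 
(.lf (nat_lit 44213) (.g (nat_lit 2647) (.e (nat_lit 1252) (nat_lit 92) (.e (nat_lit 98367) (nat_lit 27) (.e (nat_lit 434247) (nat_lit 28) (.e (nat_lit 573487) (nat_lit 14) (.e (nat_lit 73746) (nat_lit 3) (.e (nat_lit 516117) (nat_lit 1) (.e (nat_lit 164195) (nat_lit 158) (.e (nat_lit 1086) (nat_lit 81) .nil)))))))) (.g (nat_lit 4) .nil .nil))))) (.nd (nat_lit 4) (.nd (nat_lit 5) 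
(.lf (nat_lit 44173) (.g (nat_lit 2813) (.e (nat_lit 1252) (nat_lit 92) (.e (nat_lit 98366) (nat_lit 27) (.e (nat_lit 434244) (nat_lit 28) (.e (nat_lit 573487) (nat_lit 14) (.e (nat_lit 73753) (nat_lit 8) (.e (nat_lit 557089) (nat_lit 12) (.e (nat_lit 164007) (nat_lit 41) (.e (nat_lit 663559) (nat_lit 0) .nil)))))))) (.g (nat_lit 4) .nil .nil))) 
(.lf (nat_lit 44205) (.g (nat_lit 2585) (.e (nat_lit 1252) (nat_lit 92) (.e (nat_lit 98367) (nat_lit 27) (.e (nat_lit 434246) (nat_lit 28) (.e (nat_lit 573487) (nat_lit 14) (.e (nat_lit 73753) (nat_lit 8) (.e (nat_lit 557089) (nat_lit 12) (.e (nat_lit 164006) (nat_lit 41) (.e (nat_lit 663559) (nat_lit 0) .nil)))))))) (.g (nat_lit 4) .nil .nil)))) (.nd (nat_lit 5) 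
(.lf (nat_lit 44189) (.g (nat_lit 2623) (.e (nat_lit 1252) (nat_lit 92) (.e (nat_lit 98367) (nat_lit 27) (.e (nat_lit 434244) (nat_lit 28) (.e (nat_lit 573487) (nat_lit 14) (.e (nat_lit 73753) (nat_lit 8) .nil))))) .nil)) 
(.lf (nat_lit 44221) (.g (nat_lit 2262) (.e (nat_lit 1252) (nat_lit 92) (.e (nat_lit 98367) (nat_lit 27) (.e (nat_lit 434247) (nat_lit 28) (.e (nat_lit 573489) (nat_lit 14) (.e (nat_lit 73755) (nat_lit 8) (.e (nat_lit 557089) (nat_lit 12) (.e (nat_lit 164007) (nat_lit 41) (.e (nat_lit 663560) (nat_lit 0) .nil)))))))) (.g (nat_lit 4) .nil .nil))))))) 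
(.nd (nat_lit 2) (.nd (nat_lit 3) (.nd (nat_lit 4) (.nd (nat_lit 5) 
(.lf (nat_lit 44163) (.g (nat_lit 669) (.e (nat_lit 1252) (nat_lit 92) (.e (nat_lit 98365) (nat_lit 26) (.e (nat_lit 426341) (nat_lit 14) .nil))) .nil)) 
(.lf (nat_lit 44195) (.g (nat_lit 2278) (.e (nat_lit 1252) (nat_lit 92) (.e (nat_lit 98367) (nat_lit 27) (.e (nat_lit 434245) (nat_lit 28) (.e (nat_lit 573487) (nat_lit 14) (.e (nat_lit 73746) (nat_lit 3) .nil))))) .nil))) (.nd (nat_lit 5) 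
(.lf (nat_lit 44179) (.g (nat_lit 968) (.e (nat_lit 1252) (nat_lit 92) (.e (nat_lit 98367) (nat_lit 27) (.e (nat_lit 434192) (nat_lit 13) .nil))) .nil)) 
(.lf (nat_lit 44211) (.g (nat_lit 2665) (.e (nat_lit 1252) (nat_lit 92) (.e (nat_lit 98367) (nat_lit 27) (.e (nat_lit 434247) (nat_lit 28) (.e (nat_lit 573485) (nat_lit 13) (.e (nat_lit 65570) (nat_lit 3) (.e (nat_lit 98333) (nat_lit 18) (.e (nat_lit 164196) (nat_lit 158) (.e (nat_lit 1086) (nat_lit 81) .nil)))))))) (.g (nat_lit 4) .nil .nil))))) (.nd (nat_lit 4) (.nd (nat_lit 5) 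
(.lf (nat_lit 44171) (.g (nat_lit 2671) (.e (nat_lit 1252) (nat_lit 92) (.e (nat_lit 98366) (nat_lit 27) (.e (nat_lit 434244) (nat_lit 28) (.e (nat_lit 573487) (nat_lit 14) (.e (nat_lit 73753) (nat_lit 8) .nil))))) .nil)) 
(.lf (nat_lit 44203) (.g (nat_lit 2240) (.e (nat_lit 1252) (nat_lit 92) (.e (nat_lit 98367) (nat_lit 27) (.e (nat_lit 434246) (nat_lit 28) (.e (nat_lit 573487) (nat_lit 14) (.e (nat_lit 73747) (nat_lit 3) .nil))))) .nil))) (.nd (nat_lit 5) 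
(.lf (nat_lit 44187) (.g (nat_lit 2894) (.e (nat_lit 1252) (nat_lit 92) (.e (nat_lit 98367) (nat_lit 27) (.e (nat_lit 434244) (nat_lit 28) (.e (nat_lit 573481) (nat_lit 13) (.e (nat_lit 65637) (nat_lit 15) (.e (nat_lit 3253) (nat_lit 197) (.e (nat_lit 532503) (nat_lit 1) (.e (nat_lit 57870) (nat_lit 264) (.e (nat_lit 1086) (nat_lit 81) .nil))))))))) (.g (nat_lit 4) .nil .nil))) 
(.lf (nat_lit 44219) (.g (nat_lit 2290) (.e (nat_lit 1252) (nat_lit 92) (.e (nat_lit 98367) (nat_lit 27) (.e (nat_lit 434247) (nat_lit 28) (.e (nat_lit 573489) (nat_lit 14) (.e (nat_lit 73755) (nat_lit 8) (.e (nat_lit 557089) (nat_lit 12) (.e (nat_lit 164006) (nat_lit 41) (.e (nat_lit 671488) (nat_lit 0) .nil)))))))) (.g (nat_lit 4) .nil .nil)))))) 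
(.nd (nat_lit 3) (.nd (nat_lit 4) (.nd (nat_lit 5) 
(.lf (nat_lit 44167) (.g (nat_lit 2549) (.e (nat_lit 1252) (nat_lit 92) (.e (nat_lit 98366) (nat_lit 27) (.e (nat_lit 434244) (nat_lit 28) (.e (nat_lit 573481) (nat_lit 13) (.e (nat_lit 65637) (nat_lit 15) .nil))))) .nil)) 
(.lf (nat_lit 44199) (.g (nat_lit 2185) (.e (nat_lit 1252) (nat_lit 92) (.e (nat_lit 98367) (nat_lit 27) (.e (nat_lit 434245) (nat_lit 28) (.e (nat_lit 573488) (nat_lit 14) (.e (nat_lit 73755) (nat_lit 8) .nil))))) .nil))) (.nd (nat_lit 5) 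
(.lf (nat_lit 44183) (.g (nat_lit 560) (.e (nat_lit 1252) (nat_lit 92) (.e (nat_lit 98367) (nat_lit 27) (.e (nat_lit 434244) (nat_lit 28) .nil))) .nil)) 
(.lf (nat_lit 44215) (.g (nat_lit 1571) (.e (nat_lit 1252) (nat_lit 92) (.e (nat_lit 98367) (nat_lit 27) (.e (nat_lit 434247) (nat_lit 28) (.e (nat_lit 573489) (nat_lit 14) .nil)))) .nil)))) (.nd (nat_lit 4) (.nd (nat_lit 5) 
(.lf (nat_lit 44175) (.g (nat_lit 859) (.e (nat_lit 1252) (nat_lit 92) (.e (nat_lit 98367) (nat_lit 27) (.e (nat_lit 434177) (nat_lit 0) .nil))) .nil)) 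
(.lf (nat_lit 44207) (.g (nat_lit 3423) (.e (nat_lit 1252) (nat_lit 92) (.e (nat_lit 98367) (nat_lit 27) (.e (nat_lit 434246) (nat_lit 28) (.e (nat_lit 573489) (nat_lit 14) (.e (nat_lit 73755) (nat_lit 8) (.e (nat_lit 557089) (nat_lit 12) (.e (nat_lit 164006) (nat_lit 41) (.e (nat_lit 663559) (nat_lit 0) .nil)))))))) (.g (nat_lit 5) .nil .nil)))) (.nd (nat_lit 5) 
(.lf (nat_lit 44191) (.g (nat_lit 3630) (.e (nat_lit 1252) (nat_lit 92) (.e (nat_lit 98367) (nat_lit 27) (.e (nat_lit 434244) (nat_lit 28) (.e (nat_lit 573488) (nat_lit 14) (.e (nat_lit 73755) (nat_lit 8) (.e (nat_lit 557090) (nat_lit 12) (.e (nat_lit 164006) (nat_lit 41) (.e (nat_lit 663559) (nat_lit 0) .nil)))))))) (.g (nat_lit 5) .nil .nil))) 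
(.lf (nat_lit 44223) (.g (nat_lit 3970) (.e (nat_lit 1252) (nat_lit 92) (.e (nat_lit 98367) (nat_lit 27) (.e (nat_lit 434247) (nat_lit 28) (.e (nat_lit 573489) (nat_lit 14) (.e (nat_lit 73755) (nat_lit 8) (.e (nat_lit 557090) (nat_lit 12) (.e (nat_lit 164005) (nat_lit 41) (.e (nat_lit 663559) (nat_lit 0) .nil)))))))) (.g (nat_lit 5) .nil .nil)))))))))

noncomputable def tv614 : DT := (.nd (nat_lit 0) (.nd (nat_lit 1) (.nd (nat_lit 2) (.nd (nat_lit 3) (.nd (nat_lit 4) (.nd (nat_lit 5) 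
(.lf (nat_lit 44224) (.g (nat_lit 3790) (.e (nat_lit 1252) (nat_lit 92) (.e (nat_lit 98367) (nat_lit 27) (.e (nat_lit 434247) (nat_lit 28) (.e (nat_lit 573489) (nat_lit 14) (.e (nat_lit 73755) (nat_lit 8) (.e (nat_lit 557091) (nat_lit 12) (.e (nat_lit 164005) (nat_lit 41) (.e (nat_lit 663559) (nat_lit 0) .nil)))))))) (.g (nat_lit 6) .nil .nil))) 
(.lf (nat_lit 44256) (.g (nat_lit 2672) (.e (nat_lit 1252) (nat_lit 92) (.e (nat_lit 98369) (nat_lit 28) (.e (nat_lit 442374) (nat_lit 0) (.e (nat_lit 1856) (nat_lit 124) (.e (nat_lit 557103) (nat_lit 14) (.e (nat_lit 180278) (nat_lit 32) .nil)))))) (.g (nat_lit 0) .nil .nil)))) (.nd (nat_lit 5) 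
(.lf (nat_lit 44240) (.g (nat_lit 3797) (.e (nat_lit 1252) (nat_lit 92) (.e (nat_lit 98367) (nat_lit 27) (.e (nat_lit 434248) (nat_lit 28) (.e (nat_lit 573487) (nat_lit 14) (.e (nat_lit 73753) (nat_lit 8) (.e (nat_lit 557089) (nat_lit 12) (.e (nat_lit 164006) (nat_lit 41) (.e (nat_lit 663559) (nat_lit 0) .nil)))))))) (.g (nat_lit 5) .nil .nil))) 
(.lf (nat_lit 44272) (.g (nat_lit 1585) (.e (nat_lit 1252) (nat_lit 92) (.e (nat_lit 98370) (nat_lit 28) (.e (nat_lit 442412) (nat_lit 20) (.e (nat_lit 3272) (nat_lit 199) (.e (nat_lit 548914) (nat_lit 19) .nil))))) .nil)))) (.nd (nat_lit 4) (.nd (nat_lit 5) 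
(.lf (nat_lit 44232) (.g (nat_lit 2994) (.e (nat_lit 1252) (nat_lit 92) (.e (nat_lit 98367) (nat_lit 27) (.e (nat_lit 434248) (nat_lit 28) (.e (nat_lit 573482) (nat_lit 13) (.e (nat_lit 65571) (nat_lit 3) (.e (nat_lit 98333) (nat_lit 18) (.e (nat_lit 164196) (nat_lit 158) (.e (nat_lit 1086) (nat_lit 81) .nil)))))))) (.g (nat_lit 4) .nil .nil))) 
(.lf (nat_lit 44264) (.g (nat_lit 2945) (.e (nat_lit 1252) (nat_lit 92) (.e (nat_lit 98370) (nat_lit 28) (.e (nat_lit 442374) (nat_lit 0) (.e (nat_lit 1856) (nat_lit 124) (.e (nat_lit 557103) (nat_lit 14) (.e (nat_lit 180278) (nat_lit 32) .nil)))))) (.g (nat_lit 0) .nil .nil)))) (.nd (nat_lit 5) 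
(.lf (nat_lit 44248) (.g (nat_lit 4392) (.e (nat_lit 1252) (nat_lit 92) (.e (nat_lit 98367) (nat_lit 27) (.e (nat_lit 434248) (nat_lit 28) (.e (nat_lit 573489) (nat_lit 14) (.e (nat_lit 73755) (nat_lit 8) (.e (nat_lit 557089) (nat_lit 12) (.e (nat_lit 164006) (nat_lit 41) (.e (nat_lit 663559) (nat_lit 0) .nil)))))))) (.g (nat_lit 5) .nil .nil))) 
(.lf (nat_lit 44280) (.g (nat_lit 1114) (.e (nat_lit 1252) (nat_lit 92) (.e (nat_lit 98372) (nat_lit 29) (.e (nat_lit 450564) (nat_lit 0) (.e (nat_lit 3944) (nat_lit 239) .nil)))) .nil))))) (.nd (nat_lit 3) (.nd (nat_lit 4) (.nd (nat_lit 5) 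
(.lf (nat_lit 44228) (.g (nat_lit 2259) (.e (nat_lit 1252) (nat_lit 92) (.e (nat_lit 98367) (nat_lit 27) (.e (nat_lit 434247) (nat_lit 28) (.e (nat_lit 573489) (nat_lit 14) (.e (nat_lit 73755) (nat_lit 8) (.e (nat_lit 557091) (nat_lit 12) (.e (nat_lit 164008) (nat_lit 41) (.e (nat_lit 663556) (nat_lit 0) .nil)))))))) (.g (nat_lit 4) .nil .nil))) 
(.lf (nat_lit 44260) (.g (nat_lit 2787) (.e (nat_lit 1252) (nat_lit 92) (.e (nat_lit 98370) (nat_lit 28) (.e (nat_lit 442372) (nat_lit 0) (.e (nat_lit 1846) (nat_lit 124) (.e (nat_lit 557104) (nat_lit 14) (.e (nat_lit 180278) (nat_lit 32) .nil)))))) (.g (nat_lit 0) .nil .nil)))) (.nd (nat_lit 5) 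
(.lf (nat_lit 44244) (.g (nat_lit 2865) (.e (nat_lit 1252) (nat_lit 92) (.e (nat_lit 98367) (nat_lit 27) (.e (nat_lit 434248) (nat_lit 28) (.e (nat_lit 573487) (nat_lit 14) (.e (nat_lit 73753) (nat_lit 8) (.e (nat_lit 557093) (nat_lit 12) (.e (nat_lit 164010) (nat_lit 41) (.e (nat_lit 663555) (nat_lit 0) .nil)))))))) (.g (nat_lit 4) .nil .nil))) 
(.lf (nat_lit 44276) (.g (nat_lit 2128) (.e (nat_lit 1252) (nat_lit 92) (.e (nat_lit 98370) (nat_lit 28) (.e (nat_lit 442427) (nat_lit 23) (.e (nat_lit 204846) (nat_lit 24) .nil)))) .nil)))) (.nd (nat_lit 4) (.nd (nat_lit 5) 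
(.lf (nat_lit 44236) (.g (nat_lit 2848) (.e (nat_lit 1252) (nat_lit 92) (.e (nat_lit 98367) (nat_lit 27) (.e (nat_lit 434248) (nat_lit 28) (.e (nat_lit 573487) (nat_lit 14) (.e (nat_lit 73746) (nat_lit 3) (.e (nat_lit 516115) (nat_lit 1) (.e (nat_lit 164196) (nat_lit 158) (.e (nat_lit 1086) (nat_lit 81) .nil)))))))) (.g (nat_lit 4) .nil .nil))) 
(.lf (nat_lit 44268) (.g (nat_lit 1752) (.e (nat_lit 1252) (nat_lit 92) (.e (nat_lit 98370) (nat_lit 28) (.e (nat_lit 442377) (nat_lit 0) (.e (nat_lit 1856) (nat_lit 124) (.e (nat_lit 557105) (nat_lit 14) .nil))))) .nil))) (.nd (nat_lit 5) 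
(.lf (nat_lit 44252) (.g (nat_lit 4223) (.e (nat_lit 1252) (nat_lit 92) (.e (nat_lit 98367) (nat_lit 27) (.e (nat_lit 434248) (nat_lit 28) (.e (nat_lit 573489) (nat_lit 14) (.e (nat_lit 73755) (nat_lit 8) (.e (nat_lit 557090) (nat_lit 12) (.e (nat_lit 164010) (nat_lit 41) (.e (nat_lit 663555) (nat_lit 0) .nil)))))))) (.g (nat_lit 5) .nil .nil))) 
(.lf (nat_lit 44284) (.g (nat_lit 2967) (.e (nat_lit 1252) (nat_lit 92) (.e (nat_lit 98372) (nat_lit 29) (.e (nat_lit 450579) (nat_lit 5) (.e (nat_lit 532481) (nat_lit 0) (.e (nat_lit 6712) (nat_lit 360) (.e (nat_lit 164238) (nat_lit 187) .nil)))))) (.g (nat_lit 5) .nil .nil))))))) (.nd (nat_lit 2) (.nd (nat_lit 3) (.nd (nat_lit 4) (.nd (nat_lit 5) 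
(.lf (nat_lit 44226) (.g (nat_lit 2208) (.e (nat_lit 1252) (nat_lit 92) (.e (nat_lit 98367) (nat_lit 27) (.e (nat_lit 434247) (nat_lit 28) (.e (nat_lit 573489) (nat_lit 14) (.e (nat_lit 73755) (nat_lit 8) (.e (nat_lit 557091) (nat_lit 12) (.e (nat_lit 164006) (nat_lit 41) (.e (nat_lit 671488) (nat_lit 0) .nil)))))))) (.g (nat_lit 4) .nil .nil))) 
(.lf (nat_lit 44258) (.g (nat_lit 1742) (.e (nat_lit 1252) (nat_lit 92) (.e (nat_lit 98370) (nat_lit 28) (.e (nat_lit 442368) (nat_lit 0) (.e (nat_lit 1863) (nat_lit 124) (.e (nat_lit 557104) (nat_lit 14) (.e (nat_lit 180278) (nat_lit 32) .nil)))))) (.g (nat_lit 4) .nil .nil)))) (.nd (nat_lit 5) 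
(.lf (nat_lit 44242) (.g (nat_lit 4466) (.e (nat_lit 1252) (nat_lit 92) (.e (nat_lit 98367) (nat_lit 27) (.e (nat_lit 434248) (nat_lit 28) (.e (nat_lit 573487) (nat_lit 14) (.e (nat_lit 73753) (nat_lit 8) (.e (nat_lit 557090) (nat_lit 12) (.e (nat_lit 164006) (nat_lit 41) (.e (nat_lit 663559) (nat_lit 0) .nil)))))))) (.g (nat_lit 6) .nil .nil))) 
(.lf (nat_lit 44274) (.g (nat_lit 2220) (.e (nat_lit 1252) (nat_lit 92) (.e (nat_lit 98370) (nat_lit 28) (.e (nat_lit 442424) (nat_lit 22) (.e (nat_lit 196628) (nat_lit 9) (.e (nat_lit 970) (nat_lit 81) .nil))))) .nil)))) (.nd (nat_lit 4) (.nd (nat_lit 5) 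
(.lf (nat_lit 44234) (.g (nat_lit 1838) (.e (nat_lit 1252) (nat_lit 92) (.e (nat_lit 98367) (nat_lit 27) (.e (nat_lit 434248) (nat_lit 28) (.e (nat_lit 573487) (nat_lit 14) .nil)))) .nil)) 
(.lf (nat_lit 44266) (.g (nat_lit 983) (.e (nat_lit 1252) (nat_lit 92) (.e (nat_lit 98370) (nat_lit 28) (.e (nat_lit 442377) (nat_lit 0) (.e (nat_lit 1846) (nat_lit 124) .nil)))) .nil))) (.nd (nat_lit 5) 
(.lf (nat_lit 44250) (.g (nat_lit 4888) (.e (nat_lit 1252) (nat_lit 92) (.e (nat_lit 98367) (nat_lit 27) (.e (nat_lit 434248) (nat_lit 28) (.e (nat_lit 573489) (nat_lit 14) (.e (nat_lit 73755) (nat_lit 8) (.e (nat_lit 557090) (nat_lit 12) (.e (nat_lit 164007) (nat_lit 41) (.e (nat_lit 663559) (nat_lit 0) .nil)))))))) (.g (nat_lit 6) .nil .nil))) 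
(.lf (nat_lit 44282) (.g (nat_lit 304) (.e (nat_lit 1252) (nat_lit 92) (.e (nat_lit 98372) (nat_lit 29) (.e (nat_lit 450579) (nat_lit 5) .nil))) .nil))))) (.nd (nat_lit 3) (.nd (nat_lit 4) (.nd (nat_lit 5) 
(.lf (nat_lit 44230) (.g (nat_lit 2762) (.e (nat_lit 1252) (nat_lit 92) (.e (nat_lit 98367) (nat_lit 27) (.e (nat_lit 434248) (nat_lit 28) (.e (nat_lit 573480) (nat_lit 13) (.e (nat_lit 65637) (nat_lit 15) .nil))))) .nil)) 
(.lf (nat_lit 44262) (.g (nat_lit 2156) (.e (nat_lit 1252) (nat_lit 92) (.e (nat_lit 98370) (nat_lit 28) (.e (nat_lit 442373) (nat_lit 0) (.e (nat_lit 1853) (nat_lit 124) (.e (nat_lit 557104) (nat_lit 14) (.e (nat_lit 180277) (nat_lit 32) .nil)))))) (.g (nat_lit 5) .nil .nil)))) (.nd (nat_lit 5) 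
(.lf (nat_lit 44246) (.g (nat_lit 3030) (.e (nat_lit 1252) (nat_lit 92) (.e (nat_lit 98367) (nat_lit 27) (.e (nat_lit 434248) (nat_lit 28) (.e (nat_lit 573489) (nat_lit 14) (.e (nat_lit 73754) (nat_lit 8) .nil))))) .nil)) 
(.lf (nat_lit 44278) (.g (nat_lit 1888) (.e (nat_lit 1252) (nat_lit 92) (.e (nat_lit 98370) (nat_lit 28) (.e (nat_lit 442430) (nat_lit 24) (.e (nat_lit 229535) (nat_lit 134) (.e (nat_lit 2638) (nat_lit 165) .nil))))) .nil)))) (.nd (nat_lit 4) (.nd (nat_lit 5) 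
(.lf (nat_lit 44238) (.g (nat_lit 3829) (.e (nat_lit 1252) (nat_lit 92) (.e (nat_lit 98367) (nat_lit 27) (.e (nat_lit 434248) (nat_lit 28) (.e (nat_lit 573487) (nat_lit 14) (.e (nat_lit 73747) (nat_lit 3) (.e (nat_lit 516119) (nat_lit 1) (.e (nat_lit 164196) (nat_lit 158) (.e (nat_lit 1086) (nat_lit 81) .nil)))))))) (.g (nat_lit 5) .nil .nil))) 
(.lf (nat_lit 44270) (.g (nat_lit 1713) (.e (nat_lit 1252) (nat_lit 92) (.e (nat_lit 98370) (nat_lit 28) (.e (nat_lit 442378) (nat_lit 0) (.e (nat_lit 1856) (nat_lit 124) (.e (nat_lit 557105) (nat_lit 14) .nil))))) .nil))) (.nd (nat_lit 5) 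
(.lf (nat_lit 44254) (.g (nat_lit 2376) (.e (nat_lit 1252) (nat_lit 92) (.e (nat_lit 98369) (nat_lit 28) (.e (nat_lit 442368) (nat_lit 0) (.e (nat_lit 1863) (nat_lit 124) (.e (nat_lit 557104) (nat_lit 14) (.e (nat_lit 180278) (nat_lit 32) .nil)))))) (.g (nat_lit 6) .nil .nil))) 
(.lf (nat_lit 44286) (.g (nat_lit 1152) (.e (nat_lit 1252) (nat_lit 92) (.e (nat_lit 98372) (nat_lit 29) (.e (nat_lit 450579) (nat_lit 5) (.e (nat_lit 532482) (nat_lit 0) .nil)))) .nil))))))) (.nd (nat_lit 1) (.nd (nat_lit 2) (.nd (nat_lit 3) (.nd (nat_lit 4) (.nd (nat_lit 5) 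
(.lf (nat_lit 44225) (.g (nat_lit 4688) (.e (nat_lit 1252) (nat_lit 92) (.e (nat_lit 98367) (nat_lit 27) (.e (nat_lit 434247) (nat_lit 28) (.e (nat_lit 573489) (nat_lit 14) (.e (nat_lit 73755) (nat_lit 8) (.e (nat_lit 557091) (nat_lit 12) (.e (nat_lit 164006) (nat_lit 41) (.e (nat_lit 663559) (nat_lit 0) .nil)))))))) (.g (nat_lit 0) .nil .nil))) 
(.lf (nat_lit 44257) (.g (nat_lit 2524) (.e (nat_lit 1252) (nat_lit 92) (.e (nat_lit 98369) (nat_lit 28) (.e (nat_lit 442374) (nat_lit 0) (.e (nat_lit 1856) (nat_lit 124) (.e (nat_lit 557105) (nat_lit 14) (.e (nat_lit 180277) (nat_lit 32) .nil)))))) (.g (nat_lit 0) .nil .nil)))) (.nd (nat_lit 5) 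
(.lf (nat_lit 44241) (.g (nat_lit 3768) (.e (nat_lit 1252) (nat_lit 92) (.e (nat_lit 98367) (nat_lit 27) (.e (nat_lit 434248) (nat_lit 28) (.e (nat_lit 573487) (nat_lit 14) (.e (nat_lit 73753) (nat_lit 8) (.e (nat_lit 557089) (nat_lit 12) (.e (nat_lit 164007) (nat_lit 41) (.e (nat_lit 663559) (nat_lit 0) .nil)))))))) (.g (nat_lit 5) .nil .nil))) 
(.lf (nat_lit 44273) (.g (nat_lit 2579) (.e (nat_lit 1252) (nat_lit 92) (.e (nat_lit 98370) (nat_lit 28) (.e (nat_lit 442424) (nat_lit 22) (.e (nat_lit 196628) (nat_lit 9) (.e (nat_lit 968) (nat_lit 81) (.e (nat_lit 6713) (nat_lit 360) (.e (nat_lit 164239) (nat_lit 187) .nil))))))) (.g (nat_lit 4) .nil .nil))))) (.nd (nat_lit 4) (.nd (nat_lit 5) 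
(.lf (nat_lit 44233) (.g (nat_lit 2661) (.e (nat_lit 1252) (nat_lit 92) (.e (nat_lit 98367) (nat_lit 27) (.e (nat_lit 434248) (nat_lit 28) (.e (nat_lit 573482) (nat_lit 13) (.e (nat_lit 73472) (nat_lit 15) .nil))))) .nil)) 
(.lf (nat_lit 44265) (.g (nat_lit 2799) (.e (nat_lit 1252) (nat_lit 92) (.e (nat_lit 98370) (nat_lit 28) (.e (nat_lit 442374) (nat_lit 0) (.e (nat_lit 1856) (nat_lit 124) (.e (nat_lit 557105) (nat_lit 14) (.e (nat_lit 180277) (nat_lit 32) .nil)))))) (.g (nat_lit 0) .nil .nil)))) (.nd (nat_lit 5) 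
(.lf (nat_lit 44249) (.g (nat_lit 5275) (.e (nat_lit 1252) (nat_lit 92) (.e (nat_lit 98367) (nat_lit 27) (.e (nat_lit 434248) (nat_lit 28) (.e (nat_lit 573489) (nat_lit 14) (.e (nat_lit 73755) (nat_lit 8) (.e (nat_lit 557090) (nat_lit 12) (.e (nat_lit 164006) (nat_lit 41) (.e (nat_lit 663559) (nat_lit 0) .nil)))))))) (.g (nat_lit 6) .nil .nil))) 
(.lf (nat_lit 44281) (.g (nat_lit 468) (.e (nat_lit 1252) (nat_lit 92) (.e (nat_lit 98372) (nat_lit 29) (.e (nat_lit 450576) (nat_lit 2) .nil))) .nil))))) (.nd (nat_lit 3) (.nd (nat_lit 4) (.nd (nat_lit 5) 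
(.lf (nat_lit 44229) (.g (nat_lit 2083) (.e (nat_lit 1252) (nat_lit 92) (.e (nat_lit 98367) (nat_lit 27) (.e (nat_lit 434248) (nat_lit 28) (.e (nat_lit 573480) (nat_lit 13) .nil)))) .nil)) 
(.lf (nat_lit 44261) (.g (nat_lit 2605) (.e (nat_lit 1252) (nat_lit 92) (.e (nat_lit 98370) (nat_lit 28) (.e (nat_lit 442373) (nat_lit 0) (.e (nat_lit 1853) (nat_lit 124) (.e (nat_lit 557103) (nat_lit 14) (.e (nat_lit 180278) (nat_lit 32) .nil)))))) (.g (nat_lit 6) .nil .nil)))) (.nd (nat_lit 5) 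
(.lf (nat_lit 44245) (.g (nat_lit 1718) (.e (nat_lit 1252) (nat_lit 92) (.e (nat_lit 98367) (nat_lit 27) (.e (nat_lit 434248) (nat_lit 28) (.e (nat_lit 573489) (nat_lit 14) .nil)))) .nil)) 
(.lf (nat_lit 44277) (.g (nat_lit 1625) (.e (nat_lit 1252) (nat_lit 92) (.e (nat_lit 98370) (nat_lit 28) (.e (nat_lit 442430) (nat_lit 24) (.e (nat_lit 229535) (nat_lit 134) .nil)))) .nil)))) (.nd (nat_lit 4) (.nd (nat_lit 5) 
(.lf (nat_lit 44237) (.g (nat_lit 2901) (.e (nat_lit 1252) (nat_lit 92) (.e (nat_lit 98367) (nat_lit 27) (.e (nat_lit 434248) (nat_lit 28) (.e (nat_lit 573487) (nat_lit 14) (.e (nat_lit 73747) (nat_lit 3) (.e (nat_lit 516119) (nat_lit 1) (.e (nat_lit 164195) (nat_lit 158) (.e (nat_lit 1086) (nat_lit 81) .nil)))))))) (.g (nat_lit 4) .nil .nil))) 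
(.lf (nat_lit 44269) (.g (nat_lit 1094) (.e (nat_lit 1252) (nat_lit 92) (.e (nat_lit 98370) (nat_lit 28) (.e (nat_lit 442378) (nat_lit 0) (.e (nat_lit 1855) (nat_lit 124) .nil)))) .nil))) (.nd (nat_lit 5) 
(.lf (nat_lit 44253) (.g (nat_lit 4399) (.e (nat_lit 1252) (nat_lit 92) (.e (nat_lit 98367) (nat_lit 27) (.e (nat_lit 434248) (nat_lit 28) (.e (nat_lit 573489) (nat_lit 14) (.e (nat_lit 73755) (nat_lit 8) (.e (nat_lit 557091) (nat_lit 12) (.e (nat_lit 164007) (nat_lit 41) (.e (nat_lit 663559) (nat_lit 0) .nil)))))))) (.g (nat_lit 5) .nil .nil))) 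
(.lf (nat_lit 44285) (.g (nat_lit 2088) (.e (nat_lit 1252) (nat_lit 92) (.e (nat_lit 98372) (nat_lit 29) (.e (nat_lit 450579) (nat_lit 5) (.e (nat_lit 532481) (nat_lit 0) (.e (nat_lit 6714) (nat_lit 360) .nil))))) .nil)))))) (.nd (nat_lit 2) (.nd (nat_lit 3) (.nd (nat_lit 4) (.nd (nat_lit 5) 
(.lf (nat_lit 44227) (.g (nat_lit 4111) (.e (nat_lit 1252) (nat_lit 92) (.e (nat_lit 98367) (nat_lit 27) (.e (nat_lit 434247) (nat_lit 28) (.e (nat_lit 573489) (nat_lit 14) (.e (nat_lit 73755) (nat_lit 8) (.e (nat_lit 557091) (nat_lit 12) (.e (nat_lit 164007) (nat_lit 41) (.e (nat_lit 663559) (nat_lit 0) .nil)))))))) (.g (nat_lit 7) .nil .nil))) 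
(.lf (nat_lit 44259) (.g (nat_lit 709) (.e (nat_lit 1252) (nat_lit 92) (.e (nat_lit 98370) (nat_lit 28) (.e (nat_lit 442372) (nat_lit 0) .nil))) .nil))) (.nd (nat_lit 5) 
(.lf (nat_lit 44243) (.g (nat_lit 3101) (.e (nat_lit 1252) (nat_lit 92) (.e (nat_lit 98367) (nat_lit 27) (.e (nat_lit 434248) (nat_lit 28) (.e (nat_lit 573487) (nat_lit 14) (.e (nat_lit 73753) (nat_lit 8) (.e (nat_lit 557090) (nat_lit 12) (.e (nat_lit 164007) (nat_lit 41) (.e (nat_lit 663559) (nat_lit 0) .nil)))))))) (.g (nat_lit 4) .nil .nil))) 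
(.lf (nat_lit 44275) (.g (nat_lit 2462) (.e (nat_lit 1252) (nat_lit 92) (.e (nat_lit 98370) (nat_lit 28) (.e (nat_lit 442424) (nat_lit 22) (.e (nat_lit 196628) (nat_lit 9) (.e (nat_lit 970) (nat_lit 81) (.e (nat_lit 6713) (nat_lit 360) (.e (nat_lit 164239) (nat_lit 187) .nil))))))) (.g (nat_lit 4) .nil .nil))))) (.nd (nat_lit 4) (.nd (nat_lit 5) 
(.lf (nat_lit 44235) (.g (nat_lit 2729) (.e (nat_lit 1252) (nat_lit 92) (.e (nat_lit 98367) (nat_lit 27) (.e (nat_lit 434248) (nat_lit 28) (.e (nat_lit 573487) (nat_lit 14) (.e (nat_lit 73746) (nat_lit 3) .nil))))) .nil)) 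
(.lf (nat_lit 44267) (.g (nat_lit 1586) (.e (nat_lit 1252) (nat_lit 92) (.e (nat_lit 98370) (nat_lit 28) (.e (nat_lit 442377) (nat_lit 0) (.e (nat_lit 1855) (nat_lit 124) (.e (nat_lit 557105) (nat_lit 14) .nil))))) .nil))) (.nd (nat_lit 5) 
(.lf (nat_lit 44251) (.g (nat_lit 2883) (.e (nat_lit 1252) (nat_lit 92) (.e (nat_lit 98367) (nat_lit 27) (.e (nat_lit 434248) (nat_lit 28) (.e (nat_lit 573489) (nat_lit 14) (.e (nat_lit 73755) (nat_lit 8) (.e (nat_lit 557090) (nat_lit 12) (.e (nat_lit 164008) (nat_lit 41) (.e (nat_lit 663555) (nat_lit 0) .nil)))))))) (.g (nat_lit 4) .nil .nil))) 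
(.lf (nat_lit 44283) (.g (nat_lit 1219) (.e (nat_lit 1252) (nat_lit 92) (.e (nat_lit 98372) (nat_lit 29) (.e (nat_lit 450579) (nat_lit 5) (.e (nat_lit 532481) (nat_lit 0) .nil)))) .nil))))) (.nd (nat_lit 3) (.nd (nat_lit 4) (.nd (nat_lit 5) 
(.lf (nat_lit 44231) (.g (nat_lit 3089) (.e (nat_lit 1252) (nat_lit 92) (.e (nat_lit 98367) (nat_lit 27) (.e (nat_lit 434248) (nat_lit 28) (.e (nat_lit 573482) (nat_lit 13) (.e (nat_lit 65570) (nat_lit 3) (.e (nat_lit 98333) (nat_lit 18) (.e (nat_lit 164196) (nat_lit 158) (.e (nat_lit 1086) (nat_lit 81) .nil)))))))) (.g (nat_lit 4) .nil .nil))) 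
(.lf (nat_lit 44263) (.g (nat_lit 3036) (.e (nat_lit 1252) (nat_lit 92) (.e (nat_lit 98370) (nat_lit 28) (.e (nat_lit 442373) (nat_lit 0) (.e (nat_lit 1853) (nat_lit 124) (.e (nat_lit 557104) (nat_lit 14) (.e (nat_lit 180278) (nat_lit 32) .nil)))))) (.g (nat_lit 6) .nil .nil)))) (.nd (nat_lit 5) 
(.lf (nat_lit 44247) (.g (nat_lit 2864) (.e (nat_lit 1252) (nat_lit 92) (.e (nat_lit 98367) (nat_lit 27) (.e (nat_lit 434248) (nat_lit 28) (.e (nat_lit 573489) (nat_lit 14) (.e (nat_lit 73755) (nat_lit 8) .nil))))) .nil)) 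
(.lf (nat_lit 44279) (.g (nat_lit 1154) (.e (nat_lit 1252) (nat_lit 92) (.e (nat_lit 98372) (nat_lit 29) (.e (nat_lit 450561) (nat_lit 0) (.e (nat_lit 6595) (nat_lit 351) .nil)))) .nil)))) (.nd (nat_lit 4) (.nd (nat_lit 5) 
(.lf (nat_lit 44239) (.g (nat_lit 2836) (.e (nat_lit 1252) (nat_lit 92) (.e (nat_lit 98367) (nat_lit 27) (.e (nat_lit 434248) (nat_lit 28) (.e (nat_lit 573487) (nat_lit 14) (.e (nat_lit 73753) (nat_lit 8) .nil))))) .nil)) 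
(.lf (nat_lit 44271) (.g (nat_lit 685) (.e (nat_lit 1252) (nat_lit 92) (.e (nat_lit 98370) (nat_lit 28) (.e (nat_lit 442412) (nat_lit 20) .nil))) .nil))) (.nd (nat_lit 5) 
(.lf (nat_lit 44255) (.g (nat_lit 2378) (.e (nat_lit 1252) (nat_lit 92) (.e (nat_lit 98369) (nat_lit 28) (.e (nat_lit 442374) (nat_lit 0) (.e (nat_lit 1846) (nat_lit 124) (.e (nat_lit 557104) (nat_lit 14) (.e (nat_lit 180278) (nat_lit 32) .nil)))))) (.g (nat_lit 6) .nil .nil))) 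
(.lf (nat_lit 44287) (.g (nat_lit 1795) (.e (nat_lit 1252) (nat_lit 92) (.e (nat_lit 98372) (nat_lit 29) (.e (nat_lit 450579) (nat_lit 5) (.e (nat_lit 532482) (nat_lit 0) (.e (nat_lit 6714) (nat_lit 360) .nil))))) .nil))))))))

noncomputable def tv615 : DT := (.nd (nat_lit 0) (.nd (nat_lit 1) (.nd (nat_lit 2) (.nd (nat_lit 3) (.nd (nat_lit 4) (.nd (nat_lit 5) (.nd (nat_lit 6) 
(.lf (nat_lit 44288) (.g (nat_lit 1229) (.e (nat_lit 1252) (nat_lit 92) (.e (nat_lit 98372) (nat_lit 29) (.e (nat_lit 450579) (nat_lit 5) (.e (nat_lit 532484) (nat_lit 0) .nil)))) .nil)) 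
(.lf (nat_lit 44352) (.g (nat_lit 2512) (.e (nat_lit 1252) (nat_lit 92) (.e (nat_lit 98373) (nat_lit 29) (.e (nat_lit 450563) (nat_lit 0) (.e (nat_lit 4288) (nat_lit 254) .nil)))) .nil))) (.nd (nat_lit 6) 
(.lf (nat_lit 44320) (.g (nat_lit 1669) (.e (nat_lit 1252) (nat_lit 92) (.e (nat_lit 98372) (nat_lit 29) (.e (nat_lit 450579) (nat_lit 5) (.e (nat_lit 532553) (nat_lit 13) (.e (nat_lit 368662) (nat_lit 18) .nil))))) .nil)) 
(.lf (nat_lit 44384) (.g (nat_lit 2806) (.e (nat_lit 1252) (nat_lit 92) (.e (nat_lit 98373) (nat_lit 29) (.e (nat_lit 450587) (nat_lit 10) (.e (nat_lit 573465) (nat_lit 9) .nil)))) .nil)))) (.nd (nat_lit 5) (.nd (nat_lit 6) 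
(.lf (nat_lit 44304) (.g (nat_lit 2068) (.e (nat_lit 1252) (nat_lit 92) (.e (nat_lit 98372) (nat_lit 29) (.e (nat_lit 450579) (nat_lit 5) (.e (nat_lit 532530) (nat_lit 9) (.e (nat_lit 336258) (nat_lit 15) (.e (nat_lit 3590) (nat_lit 224) (.e (nat_lit 753695) (nat_lit 13) .nil))))))) (.g (nat_lit 5) .nil .nil))) 
(.lf (nat_lit 44368) (.g (nat_lit 2758) (.e (nat_lit 1252) (nat_lit 92) (.e (nat_lit 98373) (nat_lit 29) (.e (nat_lit 450580) (nat_lit 5) (.e (nat_lit 532523) (nat_lit 7) (.e (nat_lit 319505) (nat_lit 10) .nil))))) .nil))) (.nd (nat_lit 6) 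
(.lf (nat_lit 44336) (.g (nat_lit 2563) (.e (nat_lit 1252) (nat_lit 92) (.e (nat_lit 98372) (nat_lit 29) (.e (nat_lit 450586) (nat_lit 10) (.e (nat_lit 573450) (nat_lit 9) (.e (nat_lit 442) (nat_lit 33) (.e (nat_lit 434181) (nat_lit 0) .nil)))))) (.g (nat_lit 0) .nil .nil))) 
(.lf (nat_lit 44400) (.g (nat_lit 3905) (.e (nat_lit 1252) (nat_lit 92) (.e (nat_lit 98373) (nat_lit 29) (.e (nat_lit 450588) (nat_lit 10) (.e (nat_lit 581376) (nat_lit 9) .nil)))) .nil))))) (.nd (nat_lit 4) (.nd (nat_lit 5) (.nd (nat_lit 6) 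
(.lf (nat_lit 44296) (.g (nat_lit 2063) (.e (nat_lit 1252) (nat_lit 92) (.e (nat_lit 98372) (nat_lit 29) (.e (nat_lit 450579) (nat_lit 5) (.e (nat_lit 532530) (nat_lit 9) (.e (nat_lit 336240) (nat_lit 15) .nil))))) .nil)) 
(.lf (nat_lit 44360) (.g (nat_lit 3950) (.e (nat_lit 1252) (nat_lit 92) (.e (nat_lit 98373) (nat_lit 29) (.e (nat_lit 450563) (nat_lit 0) (.e (nat_lit 6595) (nat_lit 351) (.e (nat_lit 2640) (nat_lit 165) (.e (nat_lit 180265) (nat_lit 21) (.e (nat_lit 663555) (nat_lit 0) .nil))))))) (.g (nat_lit 6) .nil .nil)))) (.nd (nat_lit 6) 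
(.lf (nat_lit 44328) (.g (nat_lit 2008) (.e (nat_lit 1252) (nat_lit 92) (.e (nat_lit 98372) (nat_lit 29) (.e (nat_lit 450579) (nat_lit 5) (.e (nat_lit 532563) (nat_lit 15) (.e (nat_lit 392960) (nat_lit 46) .nil))))) .nil)) 
(.lf (nat_lit 44392) (.g (nat_lit 4210) (.e (nat_lit 1252) (nat_lit 92) (.e (nat_lit 98373) (nat_lit 29) (.e (nat_lit 450588) (nat_lit 10) (.e (nat_lit 573449) (nat_lit 9) (.e (nat_lit 442) (nat_lit 33) .nil))))) .nil)))) (.nd (nat_lit 5) (.nd (nat_lit 6) 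
(.lf (nat_lit 44312) (.g (nat_lit 2190) (.e (nat_lit 1252) (nat_lit 92) (.e (nat_lit 98372) (nat_lit 29) (.e (nat_lit 450579) (nat_lit 5) (.e (nat_lit 532534) (nat_lit 9) (.e (nat_lit 336240) (nat_lit 15) .nil))))) .nil)) 
(.lf (nat_lit 44376) (.g (nat_lit 2081) (.e (nat_lit 1252) (nat_lit 92) (.e (nat_lit 98373) (nat_lit 29) (.e (nat_lit 450586) (nat_lit 10) (.e (nat_lit 573450) (nat_lit 9) (.e (nat_lit 442) (nat_lit 33) .nil))))) .nil))) (.nd (nat_lit 6) 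
(.lf (nat_lit 44344) (.g (nat_lit 2206) (.e (nat_lit 1252) (nat_lit 92) (.e (nat_lit 98373) (nat_lit 29) (.e (nat_lit 450562) (nat_lit 0) (.e (nat_lit 4290) (nat_lit 254) .nil)))) .nil)) 
(.lf (nat_lit 44408) (.g (nat_lit 4932) (.e (nat_lit 1252) (nat_lit 92) (.e (nat_lit 98373) (nat_lit 29) (.e (nat_lit 450588) (nat_lit 10) (.e (nat_lit 573474) (nat_lit 12) .nil)))) .nil)))))) (.nd (nat_lit 3) (.nd (nat_lit 4) (.nd (nat_lit 5) (.nd (nat_lit 6) 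
(.lf (nat_lit 44292) (.g (nat_lit 1920) (.e (nat_lit 1252) (nat_lit 92) (.e (nat_lit 98372) (nat_lit 29) (.e (nat_lit 450579) (nat_lit 5) (.e (nat_lit 532523) (nat_lit 7) (.e (nat_lit 319504) (nat_lit 10) (.e (nat_lit 7936) (nat_lit 298) .nil)))))) (.g (nat_lit 4) .nil .nil))) 
(.lf (nat_lit 44356) (.g (nat_lit 3178) (.e (nat_lit 1252) (nat_lit 92) (.e (nat_lit 98373) (nat_lit 29) (.e (nat_lit 450563) (nat_lit 0) (.e (nat_lit 6420) (nat_lit 341) (.e (nat_lit 163885) (nat_lit 5) (.e (nat_lit 221219) (nat_lit 24) (.e (nat_lit 212992) (nat_lit 0) .nil))))))) (.g (nat_lit 4) .nil .nil)))) (.nd (nat_lit 6) 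
(.lf (nat_lit 44324) (.g (nat_lit 2064) (.e (nat_lit 1252) (nat_lit 92) (.e (nat_lit 98372) (nat_lit 29) (.e (nat_lit 450579) (nat_lit 5) (.e (nat_lit 532563) (nat_lit 15) (.e (nat_lit 385087) (nat_lit 46) .nil))))) .nil)) 
(.lf (nat_lit 44388) (.g (nat_lit 2415) (.e (nat_lit 1252) (nat_lit 92) (.e (nat_lit 98373) (nat_lit 29) (.e (nat_lit 450587) (nat_lit 10) (.e (nat_lit 573475) (nat_lit 12) (.e (nat_lit 57347) (nat_lit 0) .nil))))) .nil)))) (.nd (nat_lit 5) (.nd (nat_lit 6) 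
(.lf (nat_lit 44308) (.g (nat_lit 2017) (.e (nat_lit 1252) (nat_lit 92) (.e (nat_lit 98372) (nat_lit 29) (.e (nat_lit 450579) (nat_lit 5) (.e (nat_lit 532530) (nat_lit 9) (.e (nat_lit 336261) (nat_lit 15) .nil))))) .nil)) 
(.lf (nat_lit 44372) (.g (nat_lit 3404) (.e (nat_lit 1252) (nat_lit 92) (.e (nat_lit 98373) (nat_lit 29) (.e (nat_lit 450581) (nat_lit 5) (.e (nat_lit 532523) (nat_lit 7) (.e (nat_lit 319504) (nat_lit 10) (.e (nat_lit 7936) (nat_lit 298) .nil)))))) (.g (nat_lit 5) .nil .nil)))) (.nd (nat_lit 6) 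
(.lf (nat_lit 44340) (.g (nat_lit 1817) (.e (nat_lit 1252) (nat_lit 92) (.e (nat_lit 98372) (nat_lit 29) (.e (nat_lit 450588) (nat_lit 10) (.e (nat_lit 573471) (nat_lit 11) .nil)))) .nil)) 
(.lf (nat_lit 44404) (.g (nat_lit 2665) (.e (nat_lit 1252) (nat_lit 92) (.e (nat_lit 98373) (nat_lit 29) (.e (nat_lit 450588) (nat_lit 10) (.e (nat_lit 573471) (nat_lit 11) (.e (nat_lit 16396) (nat_lit 0) (.e (nat_lit 7554) (nat_lit 402) .nil)))))) (.g (nat_lit 4) .nil .nil)))))) (.nd (nat_lit 4) (.nd (nat_lit 5) (.nd (nat_lit 6) 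
(.lf (nat_lit 44300) (.g (nat_lit 1696) (.e (nat_lit 1252) (nat_lit 92) (.e (nat_lit 98372) (nat_lit 29) (.e (nat_lit 450579) (nat_lit 5) (.e (nat_lit 532530) (nat_lit 9) (.e (nat_lit 336258) (nat_lit 15) .nil))))) .nil)) 
(.lf (nat_lit 44364) (.g (nat_lit 663) (.e (nat_lit 1252) (nat_lit 92) (.e (nat_lit 98373) (nat_lit 29) (.e (nat_lit 450579) (nat_lit 5) .nil))) .nil))) (.nd (nat_lit 6) 
(.lf (nat_lit 44332) (.g (nat_lit 1871) (.e (nat_lit 1252) (nat_lit 92) (.e (nat_lit 98372) (nat_lit 29) (.e (nat_lit 450579) (nat_lit 5) (.e (nat_lit 532567) (nat_lit 16) (.e (nat_lit 401416) (nat_lit 0) .nil))))) .nil)) 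
(.lf (nat_lit 44396) (.g (nat_lit 3899) (.e (nat_lit 1252) (nat_lit 92) (.e (nat_lit 98373) (nat_lit 29) (.e (nat_lit 450588) (nat_lit 10) (.e (nat_lit 573454) (nat_lit 9) (.e (nat_lit 441) (nat_lit 33) .nil))))) .nil)))) (.nd (nat_lit 5) (.nd (nat_lit 6) 
(.lf (nat_lit 44316) (.g (nat_lit 2324) (.e (nat_lit 1252) (nat_lit 92) (.e (nat_lit 98372) (nat_lit 29) (.e (nat_lit 450579) (nat_lit 5) (.e (nat_lit 532534) (nat_lit 9) (.e (nat_lit 336240) (nat_lit 15) (.e (nat_lit 3595) (nat_lit 224) (.e (nat_lit 753695) (nat_lit 13) .nil))))))) (.g (nat_lit 4) .nil .nil))) 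
(.lf (nat_lit 44380) (.g (nat_lit 2559) (.e (nat_lit 1252) (nat_lit 92) (.e (nat_lit 98373) (nat_lit 29) (.e (nat_lit 450587) (nat_lit 10) (.e (nat_lit 573450) (nat_lit 9) .nil)))) .nil))) (.nd (nat_lit 6) 
(.lf (nat_lit 44348) (.g (nat_lit 773) (.e (nat_lit 1252) (nat_lit 92) (.e (nat_lit 98373) (nat_lit 29) (.e (nat_lit 450563) (nat_lit 0) .nil))) .nil)) 
(.lf (nat_lit 44412) (.g (nat_lit 917) (.e (nat_lit 1252) (nat_lit 92) (.e (nat_lit 98373) (nat_lit 29) (.e (nat_lit 450602) (nat_lit 22) .nil))) .nil))))))) (.nd (nat_lit 2) (.nd (nat_lit 3) (.nd (nat_lit 4) (.nd (nat_lit 5) (.nd (nat_lit 6) 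
(.lf (nat_lit 44290) (.g (nat_lit 1816) (.e (nat_lit 1252) (nat_lit 92) (.e (nat_lit 98372) (nat_lit 29) (.e (nat_lit 450579) (nat_lit 5) (.e (nat_lit 532504) (nat_lit 1) (.e (nat_lit 57758) (nat_lit 215) .nil))))) .nil)) 
(.lf (nat_lit 44354) (.g (nat_lit 2638) (.e (nat_lit 1252) (nat_lit 92) (.e (nat_lit 98373) (nat_lit 29) (.e (nat_lit 450563) (nat_lit 0) (.e (nat_lit 6416) (nat_lit 341) (.e (nat_lit 163885) (nat_lit 5) .nil))))) .nil))) (.nd (nat_lit 6) 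
(.lf (nat_lit 44322) (.g (nat_lit 1514) (.e (nat_lit 1252) (nat_lit 92) (.e (nat_lit 98372) (nat_lit 29) (.e (nat_lit 450579) (nat_lit 5) (.e (nat_lit 532555) (nat_lit 13) (.e (nat_lit 368662) (nat_lit 18) .nil))))) .nil)) 
(.lf (nat_lit 44386) (.g (nat_lit 3413) (.e (nat_lit 1252) (nat_lit 92) (.e (nat_lit 98373) (nat_lit 29) (.e (nat_lit 450587) (nat_lit 10) (.e (nat_lit 573469) (nat_lit 11) .nil)))) .nil)))) (.nd (nat_lit 5) (.nd (nat_lit 6) 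
(.lf (nat_lit 44306) (.g (nat_lit 2246) (.e (nat_lit 1252) (nat_lit 92) (.e (nat_lit 98372) (nat_lit 29) (.e (nat_lit 450579) (nat_lit 5) (.e (nat_lit 532530) (nat_lit 9) (.e (nat_lit 336260) (nat_lit 15) .nil))))) .nil)) 
(.lf (nat_lit 44370) (.g (nat_lit 2620) (.e (nat_lit 1252) (nat_lit 92) (.e (nat_lit 98373) (nat_lit 29) (.e (nat_lit 450581) (nat_lit 5) (.e (nat_lit 532523) (nat_lit 7) (.e (nat_lit 319504) (nat_lit 10) (.e (nat_lit 5343) (nat_lit 298) .nil)))))) (.g (nat_lit 4) .nil .nil)))) (.nd (nat_lit 6) 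
(.lf (nat_lit 44338) (.g (nat_lit 2400) (.e (nat_lit 1252) (nat_lit 92) (.e (nat_lit 98372) (nat_lit 29) (.e (nat_lit 450588) (nat_lit 10) (.e (nat_lit 573450) (nat_lit 9) .nil)))) .nil)) 
(.lf (nat_lit 44402) (.g (nat_lit 1680) (.e (nat_lit 1252) (nat_lit 92) (.e (nat_lit 98373) (nat_lit 29) (.e (nat_lit 450588) (nat_lit 10) (.e (nat_lit 573471) (nat_lit 11) .nil)))) .nil))))) (.nd (nat_lit 4) (.nd (nat_lit 5) (.nd (nat_lit 6) 
(.lf (nat_lit 44298) (.g (nat_lit 2062) (.e (nat_lit 1252) (nat_lit 92) (.e (nat_lit 98372) (nat_lit 29) (.e (nat_lit 450579) (nat_lit 5) (.e (nat_lit 532530) (nat_lit 9) (.e (nat_lit 336257) (nat_lit 15) .nil))))) .nil)) 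
(.lf (nat_lit 44362) (.g (nat_lit 962) (.e (nat_lit 1252) (nat_lit 92) (.e (nat_lit 98373) (nat_lit 29) (.e (nat_lit 450576) (nat_lit 2) .nil))) .nil))) (.nd (nat_lit 6) 
(.lf (nat_lit 44330) (.g (nat_lit 1732) (.e (nat_lit 1252) (nat_lit 92) (.e (nat_lit 98372) (nat_lit 29) (.e (nat_lit 450579) (nat_lit 5) (.e (nat_lit 532566) (nat_lit 15) (.e (nat_lit 385087) (nat_lit 46) (.e (nat_lit 753695) (nat_lit 13) .nil)))))) (.g (nat_lit 6) .nil .nil))) 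
(.lf (nat_lit 44394) (.g (nat_lit 1776) (.e (nat_lit 1252) (nat_lit 92) (.e (nat_lit 98373) (nat_lit 29) (.e (nat_lit 450588) (nat_lit 10) (.e (nat_lit 573452) (nat_lit 9) .nil)))) .nil)))) (.nd (nat_lit 5) (.nd (nat_lit 6) 
(.lf (nat_lit 44314) (.g (nat_lit 3039) (.e (nat_lit 1252) (nat_lit 92) (.e (nat_lit 98372) (nat_lit 29) (.e (nat_lit 450579) (nat_lit 5) (.e (nat_lit 532534) (nat_lit 9) (.e (nat_lit 336240) (nat_lit 15) (.e (nat_lit 3590) (nat_lit 224) (.e (nat_lit 753695) (nat_lit 13) .nil))))))) (.g (nat_lit 6) .nil .nil))) 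
(.lf (nat_lit 44378) (.g (nat_lit 3650) (.e (nat_lit 1252) (nat_lit 92) (.e (nat_lit 98373) (nat_lit 29) (.e (nat_lit 450587) (nat_lit 10) (.e (nat_lit 573448) (nat_lit 9) (.e (nat_lit 442) (nat_lit 33) .nil))))) .nil))) (.nd (nat_lit 6) 
(.lf (nat_lit 44346) (.g (nat_lit 2339) (.e (nat_lit 1252) (nat_lit 92) (.e (nat_lit 98373) (nat_lit 29) (.e (nat_lit 450562) (nat_lit 0) (.e (nat_lit 6595) (nat_lit 351) .nil)))) .nil)) 
(.lf (nat_lit 44410) (.g (nat_lit 4738) (.e (nat_lit 1252) (nat_lit 92) (.e (nat_lit 98373) (nat_lit 29) (.e (nat_lit 450588) (nat_lit 10) (.e (nat_lit 573475) (nat_lit 12) (.e (nat_lit 57347) (nat_lit 0) .nil))))) .nil)))))) (.nd (nat_lit 3) (.nd (nat_lit 4) (.nd (nat_lit 5) (.nd (nat_lit 6) 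
(.lf (nat_lit 44294) (.g (nat_lit 1181) (.e (nat_lit 1252) (nat_lit 92) (.e (nat_lit 98372) (nat_lit 29) (.e (nat_lit 450579) (nat_lit 5) (.e (nat_lit 532530) (nat_lit 9) .nil)))) .nil)) 
(.lf (nat_lit 44358) (.g (nat_lit 2420) (.e (nat_lit 1252) (nat_lit 92) (.e (nat_lit 98373) (nat_lit 29) (.e (nat_lit 450563) (nat_lit 0) (.e (nat_lit 6595) (nat_lit 351) .nil)))) .nil))) (.nd (nat_lit 6) 
(.lf (nat_lit 44326) (.g (nat_lit 2591) (.e (nat_lit 1252) (nat_lit 92) (.e (nat_lit 98372) (nat_lit 29) (.e (nat_lit 450579) (nat_lit 5) (.e (nat_lit 532563) (nat_lit 15) (.e (nat_lit 385087) (nat_lit 46) (.e (nat_lit 753696) (nat_lit 13) .nil)))))) (.g (nat_lit 6) .nil .nil))) 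
(.lf (nat_lit 44390) (.g (nat_lit 2941) (.e (nat_lit 1252) (nat_lit 92) (.e (nat_lit 98373) (nat_lit 29) (.e (nat_lit 450587) (nat_lit 10) (.e (nat_lit 573478) (nat_lit 12) .nil)))) .nil)))) (.nd (nat_lit 5) (.nd (nat_lit 6) 
(.lf (nat_lit 44310) (.g (nat_lit 2242) (.e (nat_lit 1252) (nat_lit 92) (.e (nat_lit 98372) (nat_lit 29) (.e (nat_lit 450579) (nat_lit 5) (.e (nat_lit 532530) (nat_lit 9) (.e (nat_lit 336297) (nat_lit 15) .nil))))) .nil)) 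
(.lf (nat_lit 44374) (.g (nat_lit 2342) (.e (nat_lit 1252) (nat_lit 92) (.e (nat_lit 98373) (nat_lit 29) (.e (nat_lit 450583) (nat_lit 7) (.e (nat_lit 548914) (nat_lit 19) (.e (nat_lit 180277) (nat_lit 32) .nil))))) (.g (nat_lit 0) .nil .nil)))) (.nd (nat_lit 6) 
(.lf (nat_lit 44342) (.g (nat_lit 2370) (.e (nat_lit 1252) (nat_lit 92) (.e (nat_lit 98373) (nat_lit 29) (.e (nat_lit 450562) (nat_lit 0) (.e (nat_lit 3948) (nat_lit 239) (.e (nat_lit 2637) (nat_lit 165) .nil))))) .nil)) 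
(.lf (nat_lit 44406) (.g (nat_lit 3795) (.e (nat_lit 1252) (nat_lit 92) (.e (nat_lit 98373) (nat_lit 29) (.e (nat_lit 450588) (nat_lit 10) (.e (nat_lit 573473) (nat_lit 12) .nil)))) .nil))))) (.nd (nat_lit 4) (.nd (nat_lit 5) (.nd (nat_lit 6) 
(.lf (nat_lit 44302) (.g (nat_lit 2428) (.e (nat_lit 1252) (nat_lit 92) (.e (nat_lit 98372) (nat_lit 29) (.e (nat_lit 450579) (nat_lit 5) (.e (nat_lit 532530) (nat_lit 9) (.e (nat_lit 336258) (nat_lit 15) (.e (nat_lit 3588) (nat_lit 224) (.e (nat_lit 753696) (nat_lit 13) .nil))))))) (.g (nat_lit 0) .nil .nil))) 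
(.lf (nat_lit 44366) (.g (nat_lit 814) (.e (nat_lit 1252) (nat_lit 92) (.e (nat_lit 98373) (nat_lit 29) (.e (nat_lit 450580) (nat_lit 5) .nil))) .nil))) (.nd (nat_lit 6) 
(.lf (nat_lit 44334) (.g (nat_lit 1983) (.e (nat_lit 1252) (nat_lit 92) (.e (nat_lit 98372) (nat_lit 29) (.e (nat_lit 450583) (nat_lit 7) (.e (nat_lit 548914) (nat_lit 19) (.e (nat_lit 180278) (nat_lit 32) .nil))))) (.g (nat_lit 0) .nil .nil))) 
(.lf (nat_lit 44398) (.g (nat_lit 3305) (.e (nat_lit 1252) (nat_lit 92) (.e (nat_lit 98373) (nat_lit 29) (.e (nat_lit 450588) (nat_lit 10) (.e (nat_lit 573457) (nat_lit 9) .nil)))) .nil)))) (.nd (nat_lit 5) (.nd (nat_lit 6) 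
(.lf (nat_lit 44318) (.g (nat_lit 2211) (.e (nat_lit 1252) (nat_lit 92) (.e (nat_lit 98372) (nat_lit 29) (.e (nat_lit 450579) (nat_lit 5) (.e (nat_lit 532534) (nat_lit 9) (.e (nat_lit 336257) (nat_lit 15) (.e (nat_lit 3588) (nat_lit 224) (.e (nat_lit 753696) (nat_lit 13) .nil))))))) (.g (nat_lit 4) .nil .nil))) 
(.lf (nat_lit 44382) (.g (nat_lit 3435) (.e (nat_lit 1252) (nat_lit 92) (.e (nat_lit 98373) (nat_lit 29) (.e (nat_lit 450587) (nat_lit 10) (.e (nat_lit 573455) (nat_lit 9) .nil)))) .nil))) (.nd (nat_lit 6) 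
(.lf (nat_lit 44350) (.g (nat_lit 2494) (.e (nat_lit 1252) (nat_lit 92) (.e (nat_lit 98373) (nat_lit 29) (.e (nat_lit 450563) (nat_lit 0) (.e (nat_lit 3953) (nat_lit 239) .nil)))) .nil)) 
(.lf (nat_lit 44414) (.g (nat_lit 2930) (.e (nat_lit 1252) (nat_lit 92) (.e (nat_lit 98380) (nat_lit 31) (.e (nat_lit 466945) (nat_lit 0) (.e (nat_lit 1853) (nat_lit 124) (.e (nat_lit 557104) (nat_lit 14) (.e (nat_lit 180278) (nat_lit 32) .nil)))))) (.g (nat_lit 6) .nil .nil))))))))) (.nd (nat_lit 1) (.nd (nat_lit 2) (.nd (nat_lit 3) (.nd (nat_lit 4) (.nd (nat_lit 5) (.nd (nat_lit 6) 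
(.lf (nat_lit 44289) (.g (nat_lit 2311) (.e (nat_lit 1252) (nat_lit 92) (.e (nat_lit 98372) (nat_lit 29) (.e (nat_lit 450579) (nat_lit 5) (.e (nat_lit 532501) (nat_lit 1) (.e (nat_lit 57758) (nat_lit 215) .nil))))) .nil)) 
(.lf (nat_lit 44353) (.g (nat_lit 2212) (.e (nat_lit 1252) (nat_lit 92) (.e (nat_lit 98373) (nat_lit 29) (.e (nat_lit 450563) (nat_lit 0) (.e (nat_lit 6416) (nat_lit 341) .nil)))) .nil))) (.nd (nat_lit 6) 
(.lf (nat_lit 44321) (.g (nat_lit 1233) (.e (nat_lit 1252) (nat_lit 92) (.e (nat_lit 98372) (nat_lit 29) (.e (nat_lit 450579) (nat_lit 5) (.e (nat_lit 532555) (nat_lit 13) .nil)))) .nil)) 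
(.lf (nat_lit 44385) (.g (nat_lit 3137) (.e (nat_lit 1252) (nat_lit 92) (.e (nat_lit 98373) (nat_lit 29) (.e (nat_lit 450587) (nat_lit 10) (.e (nat_lit 581376) (nat_lit 9) .nil)))) .nil)))) (.nd (nat_lit 5) (.nd (nat_lit 6) 
(.lf (nat_lit 44305) (.g (nat_lit 2244) (.e (nat_lit 1252) (nat_lit 92) (.e (nat_lit 98372) (nat_lit 29) (.e (nat_lit 450579) (nat_lit 5) (.e (nat_lit 532530) (nat_lit 9) (.e (nat_lit 336259) (nat_lit 15) .nil))))) .nil)) 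
(.lf (nat_lit 44369) (.g (nat_lit 1605) (.e (nat_lit 1252) (nat_lit 92) (.e (nat_lit 98373) (nat_lit 29) (.e (nat_lit 450581) (nat_lit 5) (.e (nat_lit 532523) (nat_lit 7) .nil)))) .nil))) (.nd (nat_lit 6) 
(.lf (nat_lit 44337) (.g (nat_lit 1595) (.e (nat_lit 1252) (nat_lit 92) (.e (nat_lit 98372) (nat_lit 29) (.e (nat_lit 450586) (nat_lit 10) (.e (nat_lit 573471) (nat_lit 11) (.e (nat_lit 16396) (nat_lit 0) .nil))))) .nil)) 
(.lf (nat_lit 44401) (.g (nat_lit 3652) (.e (nat_lit 1252) (nat_lit 92) (.e (nat_lit 98373) (nat_lit 29) (.e (nat_lit 450588) (nat_lit 10) (.e (nat_lit 573470) (nat_lit 11) .nil)))) .nil))))) (.nd (nat_lit 4) (.nd (nat_lit 5) (.nd (nat_lit 6) 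
(.lf (nat_lit 44297) (.g (nat_lit 3125) (.e (nat_lit 1252) (nat_lit 92) (.e (nat_lit 98372) (nat_lit 29) (.e (nat_lit 450579) (nat_lit 5) (.e (nat_lit 532530) (nat_lit 9) (.e (nat_lit 336240) (nat_lit 15) (.e (nat_lit 3590) (nat_lit 224) (.e (nat_lit 753695) (nat_lit 13) .nil))))))) (.g (nat_lit 6) .nil .nil))) 
(.lf (nat_lit 44361) (.g (nat_lit 907) (.e (nat_lit 1252) (nat_lit 92) (.e (nat_lit 98373) (nat_lit 29) (.e (nat_lit 458496) (nat_lit 1) .nil))) .nil))) (.nd (nat_lit 6) 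
(.lf (nat_lit 44329) (.g (nat_lit 1256) (.e (nat_lit 1252) (nat_lit 92) (.e (nat_lit 98372) (nat_lit 29) (.e (nat_lit 450579) (nat_lit 5) (.e (nat_lit 532566) (nat_lit 15) (.e (nat_lit 385087) (nat_lit 46) .nil))))) .nil)) 
(.lf (nat_lit 44393) (.g (nat_lit 3722) (.e (nat_lit 1252) (nat_lit 92) (.e (nat_lit 98373) (nat_lit 29) (.e (nat_lit 450588) (nat_lit 10) (.e (nat_lit 573451) (nat_lit 9) .nil)))) .nil)))) (.nd (nat_lit 5) (.nd (nat_lit 6) 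
(.lf (nat_lit 44313) (.g (nat_lit 2398) (.e (nat_lit 1252) (nat_lit 92) (.e (nat_lit 98372) (nat_lit 29) (.e (nat_lit 450579) (nat_lit 5) (.e (nat_lit 532534) (nat_lit 9) (.e (nat_lit 336240) (nat_lit 15) (.e (nat_lit 3590) (nat_lit 224) (.e (nat_lit 753693) (nat_lit 13) .nil))))))) (.g (nat_lit 4) .nil .nil))) 
(.lf (nat_lit 44377) (.g (nat_lit 1212) (.e (nat_lit 1252) (nat_lit 92) (.e (nat_lit 98373) (nat_lit 29) (.e (nat_lit 450586) (nat_lit 10) (.e (nat_lit 573452) (nat_lit 9) .nil)))) .nil))) (.nd (nat_lit 6) 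
(.lf (nat_lit 44345) (.g (nat_lit 1783) (.e (nat_lit 1252) (nat_lit 92) (.e (nat_lit 98373) (nat_lit 29) (.e (nat_lit 450562) (nat_lit 0) (.e (nat_lit 6416) (nat_lit 341) .nil)))) .nil)) 
(.lf (nat_lit 44409) (.g (nat_lit 3899) (.e (nat_lit 1252) (nat_lit 92) (.e (nat_lit 98373) (nat_lit 29) (.e (nat_lit 450588) (nat_lit 10) (.e (nat_lit 573475) (nat_lit 12) .nil)))) .nil)))))) (.nd (nat_lit 3) (.nd (nat_lit 4) (.nd (nat_lit 5) (.nd (nat_lit 6) 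
(.lf (nat_lit 44293) (.g (nat_lit 1890) (.e (nat_lit 1252) (nat_lit 92) (.e (nat_lit 98372) (nat_lit 29) (.e (nat_lit 450579) (nat_lit 5) (.e (nat_lit 532526) (nat_lit 8) (.e (nat_lit 327705) (nat_lit 10) (.e (nat_lit 5371) (nat_lit 298) .nil)))))) (.g (nat_lit 4) .nil .nil))) 
(.lf (nat_lit 44357) (.g (nat_lit 2926) (.e (nat_lit 1252) (nat_lit 92) (.e (nat_lit 98373) (nat_lit 29) (.e (nat_lit 450563) (nat_lit 0) (.e (nat_lit 6420) (nat_lit 341) (.e (nat_lit 163885) (nat_lit 5) (.e (nat_lit 221219) (nat_lit 24) (.e (nat_lit 220928) (nat_lit 0) .nil))))))) (.g (nat_lit 4) .nil .nil)))) (.nd (nat_lit 6) 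
(.lf (nat_lit 44325) (.g (nat_lit 2620) (.e (nat_lit 1252) (nat_lit 92) (.e (nat_lit 98372) (nat_lit 29) (.e (nat_lit 450579) (nat_lit 5) (.e (nat_lit 532563) (nat_lit 15) (.e (nat_lit 385087) (nat_lit 46) (.e (nat_lit 753695) (nat_lit 13) .nil)))))) (.g (nat_lit 6) .nil .nil))) 
(.lf (nat_lit 44389) (.g (nat_lit 2953) (.e (nat_lit 1252) (nat_lit 92) (.e (nat_lit 98373) (nat_lit 29) (.e (nat_lit 450587) (nat_lit 10) (.e (nat_lit 573477) (nat_lit 12) .nil)))) .nil)))) (.nd (nat_lit 5) (.nd (nat_lit 6) 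
(.lf (nat_lit 44309) (.g (nat_lit 2588) (.e (nat_lit 1252) (nat_lit 92) (.e (nat_lit 98372) (nat_lit 29) (.e (nat_lit 450579) (nat_lit 5) (.e (nat_lit 532530) (nat_lit 9) (.e (nat_lit 336261) (nat_lit 15) (.e (nat_lit 3588) (nat_lit 224) (.e (nat_lit 753696) (nat_lit 13) .nil))))))) (.g (nat_lit 5) .nil .nil))) 
(.lf (nat_lit 44373) (.g (nat_lit 4039) (.e (nat_lit 1252) (nat_lit 92) (.e (nat_lit 98373) (nat_lit 29) (.e (nat_lit 450581) (nat_lit 5) (.e (nat_lit 532523) (nat_lit 7) (.e (nat_lit 319505) (nat_lit 10) (.e (nat_lit 5351) (nat_lit 298) .nil)))))) (.g (nat_lit 5) .nil .nil)))) (.nd (nat_lit 6) 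
(.lf (nat_lit 44341) (.g (nat_lit 1495) (.e (nat_lit 1252) (nat_lit 92) (.e (nat_lit 98373) (nat_lit 29) (.e (nat_lit 450561) (nat_lit 0) (.e (nat_lit 6595) (nat_lit 351) .nil)))) .nil)) 
(.lf (nat_lit 44405) (.g (nat_lit 3801) (.e (nat_lit 1252) (nat_lit 92) (.e (nat_lit 98373) (nat_lit 29) (.e (nat_lit 450588) (nat_lit 10) (.e (nat_lit 573471) (nat_lit 11) (.e (nat_lit 16396) (nat_lit 0) (.e (nat_lit 7556) (nat_lit 402) .nil)))))) (.g (nat_lit 0) .nil .nil)))))) (.nd (nat_lit 4) (.nd (nat_lit 5) (.nd (nat_lit 6) 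
(.lf (nat_lit 44301) (.g (nat_lit 1785) (.e (nat_lit 1252) (nat_lit 92) (.e (nat_lit 98372) (nat_lit 29) (.e (nat_lit 450579) (nat_lit 5) (.e (nat_lit 532530) (nat_lit 9) (.e (nat_lit 336258) (nat_lit 15) (.e (nat_lit 3588) (nat_lit 224) (.e (nat_lit 753693) (nat_lit 13) .nil))))))) (.g (nat_lit 4) .nil .nil))) 
(.lf (nat_lit 44365) (.g (nat_lit 2296) (.e (nat_lit 1252) (nat_lit 92) (.e (nat_lit 98373) (nat_lit 29) (.e (nat_lit 450579) (nat_lit 5) (.e (nat_lit 532523) (nat_lit 7) (.e (nat_lit 319504) (nat_lit 10) (.e (nat_lit 5351) (nat_lit 298) .nil)))))) (.g (nat_lit 4) .nil .nil)))) (.nd (nat_lit 6) 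
(.lf (nat_lit 44333) (.g (nat_lit 1913) (.e (nat_lit 1252) (nat_lit 92) (.e (nat_lit 98372) (nat_lit 29) (.e (nat_lit 450583) (nat_lit 7) (.e (nat_lit 548914) (nat_lit 19) (.e (nat_lit 180277) (nat_lit 32) .nil))))) (.g (nat_lit 0) .nil .nil))) 
(.lf (nat_lit 44397) (.g (nat_lit 4496) (.e (nat_lit 1252) (nat_lit 92) (.e (nat_lit 98373) (nat_lit 29) (.e (nat_lit 450588) (nat_lit 10) (.e (nat_lit 573455) (nat_lit 9) .nil)))) .nil)))) (.nd (nat_lit 5) (.nd (nat_lit 6) 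
(.lf (nat_lit 44317) (.g (nat_lit 1933) (.e (nat_lit 1252) (nat_lit 92) (.e (nat_lit 98372) (nat_lit 29) (.e (nat_lit 450579) (nat_lit 5) (.e (nat_lit 532534) (nat_lit 9) (.e (nat_lit 336257) (nat_lit 15) .nil))))) .nil)) 
(.lf (nat_lit 44381) (.g (nat_lit 2199) (.e (nat_lit 1252) (nat_lit 92) (.e (nat_lit 98373) (nat_lit 29) (.e (nat_lit 450587) (nat_lit 10) (.e (nat_lit 573452) (nat_lit 9) .nil)))) .nil))) (.nd (nat_lit 6) 
(.lf (nat_lit 44349) (.g (nat_lit 2401) (.e (nat_lit 1252) (nat_lit 92) (.e (nat_lit 98373) (nat_lit 29) (.e (nat_lit 450563) (nat_lit 0) (.e (nat_lit 3919) (nat_lit 239) .nil)))) .nil)) 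
(.lf (nat_lit 44413) (.g (nat_lit 2439) (.e (nat_lit 1252) (nat_lit 92) (.e (nat_lit 98380) (nat_lit 31) (.e (nat_lit 466945) (nat_lit 0) (.e (nat_lit 1853) (nat_lit 124) (.e (nat_lit 557103) (nat_lit 14) (.e (nat_lit 180278) (nat_lit 32) .nil)))))) (.g (nat_lit 6) .nil .nil)))))))) (.nd (nat_lit 2) (.nd (nat_lit 3) (.nd (nat_lit 4) (.nd (nat_lit 5) (.nd (nat_lit 6) 
(.lf (nat_lit 44291) (.g (nat_lit 2761) (.e (nat_lit 1252) (nat_lit 92) (.e (nat_lit 98372) (nat_lit 29) (.e (nat_lit 450579) (nat_lit 5) (.e (nat_lit 532523) (nat_lit 7) (.e (nat_lit 319504) (nat_lit 10) (.e (nat_lit 5351) (nat_lit 298) .nil)))))) (.g (nat_lit 5) .nil .nil))) 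
(.lf (nat_lit 44355) (.g (nat_lit 2163) (.e (nat_lit 1252) (nat_lit 92) (.e (nat_lit 98373) (nat_lit 29) (.e (nat_lit 450563) (nat_lit 0) (.e (nat_lit 6420) (nat_lit 341) .nil)))) .nil))) (.nd (nat_lit 6) 
(.lf (nat_lit 44323) (.g (nat_lit 1334) (.e (nat_lit 1252) (nat_lit 92) (.e (nat_lit 98372) (nat_lit 29) (.e (nat_lit 450579) (nat_lit 5) (.e (nat_lit 532562) (nat_lit 15) .nil)))) .nil)) 
(.lf (nat_lit 44387) (.g (nat_lit 1589) (.e (nat_lit 1252) (nat_lit 92) (.e (nat_lit 98373) (nat_lit 29) (.e (nat_lit 450587) (nat_lit 10) (.e (nat_lit 573473) (nat_lit 12) .nil)))) .nil)))) (.nd (nat_lit 5) (.nd (nat_lit 6) 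
(.lf (nat_lit 44307) (.g (nat_lit 2509) (.e (nat_lit 1252) (nat_lit 92) (.e (nat_lit 98372) (nat_lit 29) (.e (nat_lit 450579) (nat_lit 5) (.e (nat_lit 532530) (nat_lit 9) (.e (nat_lit 336260) (nat_lit 15) (.e (nat_lit 3588) (nat_lit 224) (.e (nat_lit 753696) (nat_lit 13) .nil))))))) (.g (nat_lit 4) .nil .nil))) 
(.lf (nat_lit 44371) (.g (nat_lit 4176) (.e (nat_lit 1252) (nat_lit 92) (.e (nat_lit 98373) (nat_lit 29) (.e (nat_lit 450581) (nat_lit 5) (.e (nat_lit 532523) (nat_lit 7) (.e (nat_lit 319504) (nat_lit 10) (.e (nat_lit 5351) (nat_lit 298) .nil)))))) (.g (nat_lit 0) .nil .nil)))) (.nd (nat_lit 6) 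
(.lf (nat_lit 44339) (.g (nat_lit 2384) (.e (nat_lit 1252) (nat_lit 92) (.e (nat_lit 98372) (nat_lit 29) (.e (nat_lit 450588) (nat_lit 10) (.e (nat_lit 573452) (nat_lit 9) .nil)))) .nil)) 
(.lf (nat_lit 44403) (.g (nat_lit 2953) (.e (nat_lit 1252) (nat_lit 92) (.e (nat_lit 98373) (nat_lit 29) (.e (nat_lit 450588) (nat_lit 10) (.e (nat_lit 573471) (nat_lit 11) (.e (nat_lit 16392) (nat_lit 0) (.e (nat_lit 7521) (nat_lit 402) .nil)))))) (.g (nat_lit 4) .nil .nil)))))) (.nd (nat_lit 4) (.nd (nat_lit 5) (.nd (nat_lit 6) 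
(.lf (nat_lit 44299) (.g (nat_lit 2358) (.e (nat_lit 1252) (nat_lit 92) (.e (nat_lit 98372) (nat_lit 29) (.e (nat_lit 450579) (nat_lit 5) (.e (nat_lit 532530) (nat_lit 9) (.e (nat_lit 336257) (nat_lit 15) (.e (nat_lit 3588) (nat_lit 224) (.e (nat_lit 753696) (nat_lit 13) .nil))))))) (.g (nat_lit 4) .nil .nil))) 
(.lf (nat_lit 44363) (.g (nat_lit 1151) (.e (nat_lit 1252) (nat_lit 92) (.e (nat_lit 98373) (nat_lit 29) (.e (nat_lit 450576) (nat_lit 2) (.e (nat_lit 507930) (nat_lit 10) .nil)))) .nil))) (.nd (nat_lit 6) 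
(.lf (nat_lit 44331) (.g (nat_lit 1764) (.e (nat_lit 1252) (nat_lit 92) (.e (nat_lit 98372) (nat_lit 29) (.e (nat_lit 450579) (nat_lit 5) (.e (nat_lit 532566) (nat_lit 15) (.e (nat_lit 385087) (nat_lit 46) (.e (nat_lit 753696) (nat_lit 13) .nil)))))) (.g (nat_lit 6) .nil .nil))) 
(.lf (nat_lit 44395) (.g (nat_lit 3139) (.e (nat_lit 1252) (nat_lit 92) (.e (nat_lit 98373) (nat_lit 29) (.e (nat_lit 450588) (nat_lit 10) (.e (nat_lit 573454) (nat_lit 9) .nil)))) .nil)))) (.nd (nat_lit 5) (.nd (nat_lit 6) 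
(.lf (nat_lit 44315) (.g (nat_lit 2297) (.e (nat_lit 1252) (nat_lit 92) (.e (nat_lit 98372) (nat_lit 29) (.e (nat_lit 450579) (nat_lit 5) (.e (nat_lit 532534) (nat_lit 9) (.e (nat_lit 336240) (nat_lit 15) (.e (nat_lit 3595) (nat_lit 224) (.e (nat_lit 753693) (nat_lit 13) .nil))))))) (.g (nat_lit 4) .nil .nil))) 
(.lf (nat_lit 44379) (.g (nat_lit 2103) (.e (nat_lit 1252) (nat_lit 92) (.e (nat_lit 98373) (nat_lit 29) (.e (nat_lit 450587) (nat_lit 10) (.e (nat_lit 573449) (nat_lit 9) .nil)))) .nil))) (.nd (nat_lit 6) 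
(.lf (nat_lit 44347) (.g (nat_lit 3460) (.e (nat_lit 1252) (nat_lit 92) (.e (nat_lit 98373) (nat_lit 29) (.e (nat_lit 450562) (nat_lit 0) (.e (nat_lit 6595) (nat_lit 351) (.e (nat_lit 2640) (nat_lit 165) (.e (nat_lit 180265) (nat_lit 21) (.e (nat_lit 663555) (nat_lit 0) .nil))))))) (.g (nat_lit 5) .nil .nil))) 
(.lf (nat_lit 44411) (.g (nat_lit 4992) (.e (nat_lit 1252) (nat_lit 92) (.e (nat_lit 98373) (nat_lit 29) (.e (nat_lit 450588) (nat_lit 10) (.e (nat_lit 573475) (nat_lit 12) (.e (nat_lit 57347) (nat_lit 0) (.e (nat_lit 7265) (nat_lit 384) (.e (nat_lit 57347) (nat_lit 0) (.e (nat_lit 6481) (nat_lit 343) .nil)))))))) (.g (nat_lit 4) .nil .nil))))))) 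
(.nd (nat_lit 3) (.nd (nat_lit 4) (.nd (nat_lit 5) (.nd (nat_lit 6) 
(.lf (nat_lit 44295) (.g (nat_lit 2032) (.e (nat_lit 1252) (nat_lit 92) (.e (nat_lit 98372) (nat_lit 29) (.e (nat_lit 450579) (nat_lit 5) (.e (nat_lit 532530) (nat_lit 9) (.e (nat_lit 335878) (nat_lit 0) .nil))))) .nil)) 
(.lf (nat_lit 44359) (.g (nat_lit 3185) (.e (nat_lit 1252) (nat_lit 92) (.e (nat_lit 98373) (nat_lit 29) (.e (nat_lit 450563) (nat_lit 0) (.e (nat_lit 6595) (nat_lit 351) (.e (nat_lit 2640) (nat_lit 165) (.e (nat_lit 180264) (nat_lit 21) (.e (nat_lit 663557) (nat_lit 0) .nil))))))) (.g (nat_lit 4) .nil .nil)))) (.nd (nat_lit 6) 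
(.lf (nat_lit 44327) (.g (nat_lit 2075) (.e (nat_lit 1252) (nat_lit 92) (.e (nat_lit 98372) (nat_lit 29) (.e (nat_lit 450579) (nat_lit 5) (.e (nat_lit 532563) (nat_lit 15) (.e (nat_lit 385087) (nat_lit 46) (.e (nat_lit 753697) (nat_lit 13) .nil)))))) (.g (nat_lit 4) .nil .nil))) 
(.lf (nat_lit 44391) (.g (nat_lit 3384) (.e (nat_lit 1252) (nat_lit 92) (.e (nat_lit 98373) (nat_lit 29) (.e (nat_lit 450588) (nat_lit 10) (.e (nat_lit 573449) (nat_lit 9) .nil)))) .nil)))) (.nd (nat_lit 5) (.nd (nat_lit 6) 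
(.lf (nat_lit 44311) (.g (nat_lit 2010) (.e (nat_lit 1252) (nat_lit 92) (.e (nat_lit 98372) (nat_lit 29) (.e (nat_lit 450579) (nat_lit 5) (.e (nat_lit 532534) (nat_lit 9) (.e (nat_lit 335878) (nat_lit 0) .nil))))) .nil)) 
(.lf (nat_lit 44375) (.g (nat_lit 2422) (.e (nat_lit 1252) (nat_lit 92) (.e (nat_lit 98373) (nat_lit 29) (.e (nat_lit 450583) (nat_lit 7) (.e (nat_lit 548914) (nat_lit 19) (.e (nat_lit 180278) (nat_lit 32) .nil))))) (.g (nat_lit 0) .nil .nil)))) (.nd (nat_lit 6) 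
(.lf (nat_lit 44343) (.g (nat_lit 2372) (.e (nat_lit 1252) (nat_lit 92) (.e (nat_lit 98373) (nat_lit 29) (.e (nat_lit 450562) (nat_lit 0) (.e (nat_lit 3953) (nat_lit 239) .nil)))) .nil)) 
(.lf (nat_lit 44407) (.g (nat_lit 4540) (.e (nat_lit 1252) (nat_lit 92) (.e (nat_lit 98373) (nat_lit 29) (.e (nat_lit 450588) (nat_lit 10) (.e (nat_lit 573473) (nat_lit 12) (.e (nat_lit 57348) (nat_lit 0) .nil))))) .nil))))) (.nd (nat_lit 4) (.nd (nat_lit 5) (.nd (nat_lit 6) 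
(.lf (nat_lit 44303) (.g (nat_lit 1746) (.e (nat_lit 1252) (nat_lit 92) (.e (nat_lit 98372) (nat_lit 29) (.e (nat_lit 450579) (nat_lit 5) (.e (nat_lit 532530) (nat_lit 9) (.e (nat_lit 336258) (nat_lit 15) (.e (nat_lit 3589) (nat_lit 224) (.e (nat_lit 753695) (nat_lit 13) .nil))))))) (.g (nat_lit 4) .nil .nil))) 
(.lf (nat_lit 44367) (.g (nat_lit 2394) (.e (nat_lit 1252) (nat_lit 92) (.e (nat_lit 98373) (nat_lit 29) (.e (nat_lit 450580) (nat_lit 5) (.e (nat_lit 532523) (nat_lit 7) (.e (nat_lit 319504) (nat_lit 10) .nil))))) .nil))) (.nd (nat_lit 6) 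
(.lf (nat_lit 44335) (.g (nat_lit 370) (.e (nat_lit 1252) (nat_lit 92) (.e (nat_lit 98372) (nat_lit 29) (.e (nat_lit 450586) (nat_lit 10) .nil))) .nil)) 
(.lf (nat_lit 44399) (.g (nat_lit 3887) (.e (nat_lit 1252) (nat_lit 92) (.e (nat_lit 98373) (nat_lit 29) (.e (nat_lit 450588) (nat_lit 10) (.e (nat_lit 573458) (nat_lit 9) .nil)))) .nil)))) (.nd (nat_lit 5) (.nd (nat_lit 6) 
(.lf (nat_lit 44319) (.g (nat_lit 1227) (.e (nat_lit 1252) (nat_lit 92) (.e (nat_lit 98372) (nat_lit 29) (.e (nat_lit 450579) (nat_lit 5) (.e (nat_lit 532553) (nat_lit 13) .nil)))) .nil)) 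
(.lf (nat_lit 44383) (.g (nat_lit 3225) (.e (nat_lit 1252) (nat_lit 92) (.e (nat_lit 98373) (nat_lit 29) (.e (nat_lit 450587) (nat_lit 10) (.e (nat_lit 573461) (nat_lit 9) .nil)))) .nil))) (.nd (nat_lit 6) 
(.lf (nat_lit 44351) (.g (nat_lit 2490) (.e (nat_lit 1252) (nat_lit 92) (.e (nat_lit 98373) (nat_lit 29) (.e (nat_lit 450563) (nat_lit 0) (.e (nat_lit 3955) (nat_lit 239) .nil)))) .nil)) 
(.lf (nat_lit 44415) (.g (nat_lit 2406) (.e (nat_lit 1252) (nat_lit 92) (.e (nat_lit 98380) (nat_lit 31) (.e (nat_lit 466947) (nat_lit 0) (.e (nat_lit 1846) (nat_lit 124) (.e (nat_lit 557104) (nat_lit 14) (.e (nat_lit 180278) (nat_lit 32) .nil)))))) (.g (nat_lit 6) .nil .nil))))))))))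

noncomputable def tv616 : DT := (.nd (nat_lit 0) (.nd (nat_lit 1) (.nd (nat_lit 2) (.nd (nat_lit 3) (.nd (nat_lit 4) (.nd (nat_lit 5) 
(.lf (nat_lit 44416) (.g (nat_lit 3454) (.e (nat_lit 1252) (nat_lit 92) (.e (nat_lit 98380) (nat_lit 31) (.e (nat_lit 466947) (nat_lit 0) (.e (nat_lit 1855) (nat_lit 124) (.e (nat_lit 557103) (nat_lit 14) (.e (nat_lit 180278) (nat_lit 32) .nil)))))) (.g (nat_lit 0) .nil .nil))) 
(.lf (nat_lit 44448) (.g (nat_lit 2619) (.e (nat_lit 1252) (nat_lit 92) (.e (nat_lit 98384) (nat_lit 32) (.e (nat_lit 475177) (nat_lit 24) (.e (nat_lit 516169) (nat_lit 13) (.e (nat_lit 458789) (nat_lit 23) .nil))))) .nil))) (.nd (nat_lit 5) 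
(.lf (nat_lit 44432) (.g (nat_lit 2501) (.e (nat_lit 1252) (nat_lit 92) (.e (nat_lit 98381) (nat_lit 31) (.e (nat_lit 466947) (nat_lit 0) (.e (nat_lit 1856) (nat_lit 124) (.e (nat_lit 557105) (nat_lit 14) (.e (nat_lit 180277) (nat_lit 32) .nil)))))) (.g (nat_lit 0) .nil .nil))) 
(.lf (nat_lit 44464) (.g (nat_lit 2769) (.e (nat_lit 1253) (nat_lit 92) (.e (nat_lit 98317) (nat_lit 9) (.e (nat_lit 336088) (nat_lit 9) (.e (nat_lit 336019) (nat_lit 3) (.e (nat_lit 98356) (nat_lit 26) (.e (nat_lit 426467) (nat_lit 24) (.e (nat_lit 155667) (nat_lit 9) .nil))))))) (.g (nat_lit 5) .nil .nil))))) (.nd (nat_lit 4) (.nd (nat_lit 5) 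
(.lf (nat_lit 44424) (.g (nat_lit 2961) (.e (nat_lit 1252) (nat_lit 92) (.e (nat_lit 98381) (nat_lit 31) (.e (nat_lit 466945) (nat_lit 0) (.e (nat_lit 1853) (nat_lit 124) (.e (nat_lit 557104) (nat_lit 14) (.e (nat_lit 180278) (nat_lit 32) .nil)))))) (.g (nat_lit 6) .nil .nil))) 
(.lf (nat_lit 44456) (.g (nat_lit 1454) (.e (nat_lit 1253) (nat_lit 92) (.e (nat_lit 98317) (nat_lit 9) (.e (nat_lit 336087) (nat_lit 9) (.e (nat_lit 336019) (nat_lit 3) (.e (nat_lit 98384) (nat_lit 32) .nil))))) .nil))) (.nd (nat_lit 5) 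
(.lf (nat_lit 44440) (.g (nat_lit 3276) (.e (nat_lit 1252) (nat_lit 92) (.e (nat_lit 98384) (nat_lit 32) (.e (nat_lit 475177) (nat_lit 24) (.e (nat_lit 516150) (nat_lit 9) (.e (nat_lit 426131) (nat_lit 3) (.e (nat_lit 204829) (nat_lit 18) (.e (nat_lit 57754) (nat_lit 209) (.e (nat_lit 1039) (nat_lit 81) .nil)))))))) (.g (nat_lit 5) .nil .nil))) 
(.lf (nat_lit 44472) (.g (nat_lit 750) (.e (nat_lit 1253) (nat_lit 92) (.e (nat_lit 98317) (nat_lit 9) (.e (nat_lit 336184) (nat_lit 11) (.e (nat_lit 368676) (nat_lit 21) .nil)))) .nil))))) (.nd (nat_lit 3) (.nd (nat_lit 4) (.nd (nat_lit 5) 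
(.lf (nat_lit 44420) (.g (nat_lit 2593) (.e (nat_lit 1252) (nat_lit 92) (.e (nat_lit 98380) (nat_lit 31) (.e (nat_lit 466947) (nat_lit 0) (.e (nat_lit 1856) (nat_lit 124) (.e (nat_lit 557103) (nat_lit 14) (.e (nat_lit 180278) (nat_lit 32) .nil)))))) (.g (nat_lit 0) .nil .nil))) 
(.lf (nat_lit 44452) (.g (nat_lit 2694) (.e (nat_lit 1252) (nat_lit 92) (.e (nat_lit 98384) (nat_lit 32) (.e (nat_lit 475179) (nat_lit 24) (.e (nat_lit 516169) (nat_lit 13) .nil)))) .nil))) (.nd (nat_lit 5) 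
(.lf (nat_lit 44436) (.g (nat_lit 1095) (.e (nat_lit 1252) (nat_lit 92) (.e (nat_lit 98384) (nat_lit 32) (.e (nat_lit 475177) (nat_lit 24) .nil))) .nil)) 
(.lf (nat_lit 44468) (.g (nat_lit 3333) (.e (nat_lit 1253) (nat_lit 92) (.e (nat_lit 98317) (nat_lit 9) (.e (nat_lit 336088) (nat_lit 9) (.e (nat_lit 336019) (nat_lit 3) (.e (nat_lit 98384) (nat_lit 32) (.e (nat_lit 475199) (nat_lit 40) (.e (nat_lit 704680) (nat_lit 9) .nil))))))) (.g (nat_lit 6) .nil .nil))))) (.nd (nat_lit 4) (.nd (nat_lit 5) 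
(.lf (nat_lit 44428) (.g (nat_lit 2779) (.e (nat_lit 1252) (nat_lit 92) (.e (nat_lit 98381) (nat_lit 31) (.e (nat_lit 466947) (nat_lit 0) (.e (nat_lit 1855) (nat_lit 124) (.e (nat_lit 557105) (nat_lit 14) (.e (nat_lit 180277) (nat_lit 32) .nil)))))) (.g (nat_lit 6) .nil .nil))) 
(.lf (nat_lit 44460) (.g (nat_lit 3425) (.e (nat_lit 1253) (nat_lit 92) (.e (nat_lit 98317) (nat_lit 9) (.e (nat_lit 336087) (nat_lit 9) (.e (nat_lit 336019) (nat_lit 3) (.e (nat_lit 98384) (nat_lit 32) (.e (nat_lit 475199) (nat_lit 40) (.e (nat_lit 704689) (nat_lit 9) .nil))))))) (.g (nat_lit 0) .nil .nil)))) (.nd (nat_lit 5) 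
(.lf (nat_lit 44444) (.g (nat_lit 2638) (.e (nat_lit 1252) (nat_lit 92) (.e (nat_lit 98384) (nat_lit 32) (.e (nat_lit 475177) (nat_lit 24) (.e (nat_lit 516150) (nat_lit 9) (.e (nat_lit 426131) (nat_lit 3) (.e (nat_lit 204829) (nat_lit 18) (.e (nat_lit 57755) (nat_lit 209) (.e (nat_lit 1040) (nat_lit 81) .nil)))))))) (.g (nat_lit 4) .nil .nil))) 
(.lf (nat_lit 44476) (.g (nat_lit 3170) (.e (nat_lit 1253) (nat_lit 92) (.e (nat_lit 98317) (nat_lit 9) (.e (nat_lit 336184) (nat_lit 11) (.e (nat_lit 368676) (nat_lit 21) (.e (nat_lit 516179) (nat_lit 15) (.e (nat_lit 475198) (nat_lit 40) (.e (nat_lit 704701) (nat_lit 9) .nil))))))) (.g (nat_lit 6) .nil .nil))))))) (.nd (nat_lit 2) (.nd (nat_lit 3) (.nd (nat_lit 4) (.nd (nat_lit 5) 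
(.lf (nat_lit 44418) (.g (nat_lit 2774) (.e (nat_lit 1252) (nat_lit 92) (.e (nat_lit 98380) (nat_lit 31) (.e (nat_lit 466947) (nat_lit 0) (.e (nat_lit 1855) (nat_lit 124) (.e (nat_lit 557105) (nat_lit 14) (.e (nat_lit 180278) (nat_lit 32) .nil)))))) (.g (nat_lit 6) .nil .nil))) 
(.lf (nat_lit 44450) (.g (nat_lit 2476) (.e (nat_lit 1252) (nat_lit 92) (.e (nat_lit 98384) (nat_lit 32) (.e (nat_lit 475177) (nat_lit 24) (.e (nat_lit 516171) (nat_lit 13) (.e (nat_lit 458789) (nat_lit 23) .nil))))) .nil))) (.nd (nat_lit 5) 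
(.lf (nat_lit 44434) (.g (nat_lit 1987) (.e (nat_lit 1252) (nat_lit 92) (.e (nat_lit 98381) (nat_lit 31) (.e (nat_lit 466977) (nat_lit 22) (.e (nat_lit 196668) (nat_lit 14) (.e (nat_lit 73762) (nat_lit 16) .nil))))) .nil)) 
(.lf (nat_lit 44466) (.g (nat_lit 1903) (.e (nat_lit 1253) (nat_lit 92) (.e (nat_lit 98317) (nat_lit 9) (.e (nat_lit 336088) (nat_lit 9) (.e (nat_lit 336019) (nat_lit 3) (.e (nat_lit 98384) (nat_lit 32) (.e (nat_lit 475198) (nat_lit 40) (.e (nat_lit 704689) (nat_lit 9) .nil))))))) (.g (nat_lit 4) .nil .nil))))) (.nd (nat_lit 4) (.nd (nat_lit 5) 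
(.lf (nat_lit 44426) (.g (nat_lit 3494) (.e (nat_lit 1252) (nat_lit 92) (.e (nat_lit 98381) (nat_lit 31) (.e (nat_lit 466947) (nat_lit 0) (.e (nat_lit 1855) (nat_lit 124) (.e (nat_lit 557103) (nat_lit 14) (.e (nat_lit 180278) (nat_lit 32) .nil)))))) (.g (nat_lit 6) .nil .nil))) 
(.lf (nat_lit 44458) (.g (nat_lit 3247) (.e (nat_lit 1253) (nat_lit 92) (.e (nat_lit 98317) (nat_lit 9) (.e (nat_lit 336087) (nat_lit 9) (.e (nat_lit 336019) (nat_lit 3) (.e (nat_lit 98384) (nat_lit 32) (.e (nat_lit 475198) (nat_lit 40) (.e (nat_lit 704701) (nat_lit 9) .nil))))))) (.g (nat_lit 7) .nil .nil)))) (.nd (nat_lit 5) 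
(.lf (nat_lit 44442) (.g (nat_lit 2640) (.e (nat_lit 1252) (nat_lit 92) (.e (nat_lit 98384) (nat_lit 32) (.e (nat_lit 475177) (nat_lit 24) (.e (nat_lit 516150) (nat_lit 9) (.e (nat_lit 426131) (nat_lit 3) (.e (nat_lit 204829) (nat_lit 18) (.e (nat_lit 57755) (nat_lit 209) (.e (nat_lit 1023) (nat_lit 81) .nil)))))))) (.g (nat_lit 4) .nil .nil))) 
(.lf (nat_lit 44474) (.g (nat_lit 2399) (.e (nat_lit 1253) (nat_lit 92) (.e (nat_lit 98317) (nat_lit 9) (.e (nat_lit 336184) (nat_lit 11) (.e (nat_lit 368676) (nat_lit 21) (.e (nat_lit 516171) (nat_lit 13) (.e (nat_lit 458804) (nat_lit 38) (.e (nat_lit 655391) (nat_lit 9) .nil))))))) (.g (nat_lit 6) .nil .nil)))))) (.nd (nat_lit 3) (.nd (nat_lit 4) (.nd (nat_lit 5) 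
(.lf (nat_lit 44422) (.g (nat_lit 2521) (.e (nat_lit 1252) (nat_lit 92) (.e (nat_lit 98380) (nat_lit 31) (.e (nat_lit 466947) (nat_lit 0) (.e (nat_lit 1856) (nat_lit 124) (.e (nat_lit 557105) (nat_lit 14) (.e (nat_lit 180278) (nat_lit 32) .nil)))))) (.g (nat_lit 0) .nil .nil))) 
(.lf (nat_lit 44454) (.g (nat_lit 2082) (.e (nat_lit 1253) (nat_lit 92) (.e (nat_lit 98317) (nat_lit 9) (.e (nat_lit 336087) (nat_lit 9) (.e (nat_lit 336019) (nat_lit 3) (.e (nat_lit 98356) (nat_lit 26) (.e (nat_lit 426444) (nat_lit 19) (.e (nat_lit 106529) (nat_lit 9) .nil))))))) (.g (nat_lit 5) .nil .nil)))) (.nd (nat_lit 5) 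
(.lf (nat_lit 44438) (.g (nat_lit 1826) (.e (nat_lit 1252) (nat_lit 92) (.e (nat_lit 98384) (nat_lit 32) (.e (nat_lit 475177) (nat_lit 24) (.e (nat_lit 516149) (nat_lit 9) .nil)))) .nil)) 
(.lf (nat_lit 44470) (.g (nat_lit 2973) (.e (nat_lit 1253) (nat_lit 92) (.e (nat_lit 98317) (nat_lit 9) (.e (nat_lit 336088) (nat_lit 9) (.e (nat_lit 336019) (nat_lit 3) (.e (nat_lit 98384) (nat_lit 32) (.e (nat_lit 483072) (nat_lit 40) (.e (nat_lit 704698) (nat_lit 9) .nil))))))) (.g (nat_lit 5) .nil .nil))))) (.nd (nat_lit 4) (.nd (nat_lit 5) 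
(.lf (nat_lit 44430) (.g (nat_lit 2329) (.e (nat_lit 1252) (nat_lit 92) (.e (nat_lit 98381) (nat_lit 31) (.e (nat_lit 466947) (nat_lit 0) (.e (nat_lit 1856) (nat_lit 124) (.e (nat_lit 557103) (nat_lit 14) (.e (nat_lit 180277) (nat_lit 32) .nil)))))) (.g (nat_lit 6) .nil .nil))) 
(.lf (nat_lit 44462) (.g (nat_lit 2231) (.e (nat_lit 1253) (nat_lit 92) (.e (nat_lit 98317) (nat_lit 9) (.e (nat_lit 336087) (nat_lit 9) (.e (nat_lit 336019) (nat_lit 3) (.e (nat_lit 98386) (nat_lit 32) (.e (nat_lit 483072) (nat_lit 40) (.e (nat_lit 704698) (nat_lit 9) .nil))))))) (.g (nat_lit 5) .nil .nil)))) (.nd (nat_lit 5) 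
(.lf (nat_lit 44446) (.g (nat_lit 3379) (.e (nat_lit 1252) (nat_lit 92) (.e (nat_lit 98384) (nat_lit 32) (.e (nat_lit 475177) (nat_lit 24) (.e (nat_lit 516150) (nat_lit 9) (.e (nat_lit 426131) (nat_lit 3) (.e (nat_lit 204830) (nat_lit 18) (.e (nat_lit 57754) (nat_lit 209) (.e (nat_lit 1039) (nat_lit 81) .nil)))))))) (.g (nat_lit 5) .nil .nil))) 
(.lf (nat_lit 44478) (.g (nat_lit 2524) (.e (nat_lit 1253) (nat_lit 92) (.e (nat_lit 98317) (nat_lit 9) (.e (nat_lit 336184) (nat_lit 11) (.e (nat_lit 368676) (nat_lit 21) (.e (nat_lit 516179) (nat_lit 15) (.e (nat_lit 475199) (nat_lit 40) (.e (nat_lit 704701) (nat_lit 9) .nil))))))) (.g (nat_lit 6) .nil .nil)))))))) 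
(.nd (nat_lit 1) (.nd (nat_lit 2) (.nd (nat_lit 3) (.nd (nat_lit 4) (.nd (nat_lit 5) 
(.lf (nat_lit 44417) (.g (nat_lit 2735) (.e (nat_lit 1252) (nat_lit 92) (.e (nat_lit 98380) (nat_lit 31) (.e (nat_lit 466947) (nat_lit 0) (.e (nat_lit 1855) (nat_lit 124) (.e (nat_lit 557105) (nat_lit 14) (.e (nat_lit 180277) (nat_lit 32) .nil)))))) (.g (nat_lit 0) .nil .nil))) 
(.lf (nat_lit 44449) (.g (nat_lit 4752) (.e (nat_lit 1252) (nat_lit 92) (.e (nat_lit 98384) (nat_lit 32) (.e (nat_lit 475177) (nat_lit 24) (.e (nat_lit 516169) (nat_lit 13) (.e (nat_lit 458789) (nat_lit 23) (.e (nat_lit 532499) (nat_lit 1) (.e (nat_lit 57754) (nat_lit 209) (.e (nat_lit 1086) (nat_lit 81) .nil)))))))) (.g (nat_lit 6) .nil .nil)))) (.nd (nat_lit 5) 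
(.lf (nat_lit 44433) (.g (nat_lit 2574) (.e (nat_lit 1252) (nat_lit 92) (.e (nat_lit 98381) (nat_lit 31) (.e (nat_lit 466947) (nat_lit 0) (.e (nat_lit 1856) (nat_lit 124) (.e (nat_lit 557105) (nat_lit 14) (.e (nat_lit 180278) (nat_lit 32) .nil)))))) (.g (nat_lit 0) .nil .nil))) 
(.lf (nat_lit 44465) (.g (nat_lit 1629) (.e (nat_lit 1253) (nat_lit 92) (.e (nat_lit 98317) (nat_lit 9) (.e (nat_lit 336088) (nat_lit 9) (.e (nat_lit 336019) (nat_lit 3) (.e (nat_lit 98384) (nat_lit 32) .nil))))) .nil)))) (.nd (nat_lit 4) (.nd (nat_lit 5) 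
(.lf (nat_lit 44425) (.g (nat_lit 2444) (.e (nat_lit 1252) (nat_lit 92) (.e (nat_lit 98381) (nat_lit 31) (.e (nat_lit 466947) (nat_lit 0) (.e (nat_lit 1846) (nat_lit 124) (.e (nat_lit 557104) (nat_lit 14) (.e (nat_lit 180278) (nat_lit 32) .nil)))))) (.g (nat_lit 6) .nil .nil))) 
(.lf (nat_lit 44457) (.g (nat_lit 1740) (.e (nat_lit 1253) (nat_lit 92) (.e (nat_lit 98317) (nat_lit 9) (.e (nat_lit 336087) (nat_lit 9) (.e (nat_lit 336019) (nat_lit 3) (.e (nat_lit 98384) (nat_lit 32) (.e (nat_lit 475198) (nat_lit 40) (.e (nat_lit 704689) (nat_lit 9) .nil))))))) (.g (nat_lit 4) .nil .nil)))) (.nd (nat_lit 5) 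
(.lf (nat_lit 44441) (.g (nat_lit 4876) (.e (nat_lit 1252) (nat_lit 92) (.e (nat_lit 98384) (nat_lit 32) (.e (nat_lit 475177) (nat_lit 24) (.e (nat_lit 516150) (nat_lit 9) (.e (nat_lit 426131) (nat_lit 3) (.e (nat_lit 204829) (nat_lit 18) (.e (nat_lit 57754) (nat_lit 209) (.e (nat_lit 1086) (nat_lit 81) .nil)))))))) (.g (nat_lit 6) .nil .nil))) 
(.lf (nat_lit 44473) (.g (nat_lit 1979) (.e (nat_lit 1253) (nat_lit 92) (.e (nat_lit 98317) (nat_lit 9) (.e (nat_lit 336184) (nat_lit 11) (.e (nat_lit 368676) (nat_lit 21) (.e (nat_lit 516146) (nat_lit 9) (.e (nat_lit 426444) (nat_lit 19) (.e (nat_lit 106529) (nat_lit 9) .nil))))))) (.g (nat_lit 5) .nil .nil)))))) (.nd (nat_lit 3) (.nd (nat_lit 4) (.nd (nat_lit 5) 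
(.lf (nat_lit 44421) (.g (nat_lit 2447) (.e (nat_lit 1252) (nat_lit 92) (.e (nat_lit 98380) (nat_lit 31) (.e (nat_lit 466947) (nat_lit 0) (.e (nat_lit 1856) (nat_lit 124) (.e (nat_lit 557105) (nat_lit 14) (.e (nat_lit 180277) (nat_lit 32) .nil)))))) (.g (nat_lit 0) .nil .nil))) 
(.lf (nat_lit 44453) (.g (nat_lit 2386) (.e (nat_lit 1252) (nat_lit 92) (.e (nat_lit 98384) (nat_lit 32) (.e (nat_lit 475179) (nat_lit 24) (.e (nat_lit 516171) (nat_lit 13) .nil)))) .nil))) (.nd (nat_lit 5) 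
(.lf (nat_lit 44437) (.g (nat_lit 1862) (.e (nat_lit 1252) (nat_lit 92) (.e (nat_lit 98384) (nat_lit 32) (.e (nat_lit 475177) (nat_lit 24) (.e (nat_lit 516148) (nat_lit 9) .nil)))) .nil)) 
(.lf (nat_lit 44469) (.g (nat_lit 3437) (.e (nat_lit 1253) (nat_lit 92) (.e (nat_lit 98317) (nat_lit 9) (.e (nat_lit 336088) (nat_lit 9) (.e (nat_lit 336019) (nat_lit 3) (.e (nat_lit 98384) (nat_lit 32) (.e (nat_lit 475199) (nat_lit 40) (.e (nat_lit 704701) (nat_lit 9) .nil))))))) (.g (nat_lit 0) .nil .nil))))) (.nd (nat_lit 4) (.nd (nat_lit 5) 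
(.lf (nat_lit 44429) (.g (nat_lit 2817) (.e (nat_lit 1252) (nat_lit 92) (.e (nat_lit 98381) (nat_lit 31) (.e (nat_lit 466947) (nat_lit 0) (.e (nat_lit 1855) (nat_lit 124) (.e (nat_lit 557105) (nat_lit 14) (.e (nat_lit 180278) (nat_lit 32) .nil)))))) (.g (nat_lit 6) .nil .nil))) 
(.lf (nat_lit 44461) (.g (nat_lit 3283) (.e (nat_lit 1253) (nat_lit 92) (.e (nat_lit 98317) (nat_lit 9) (.e (nat_lit 336087) (nat_lit 9) (.e (nat_lit 336019) (nat_lit 3) (.e (nat_lit 98384) (nat_lit 32) (.e (nat_lit 475199) (nat_lit 40) (.e (nat_lit 704701) (nat_lit 9) .nil))))))) (.g (nat_lit 0) .nil .nil)))) (.nd (nat_lit 5) 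
(.lf (nat_lit 44445) (.g (nat_lit 4836) (.e (nat_lit 1252) (nat_lit 92) (.e (nat_lit 98384) (nat_lit 32) (.e (nat_lit 475177) (nat_lit 24) (.e (nat_lit 516150) (nat_lit 9) (.e (nat_lit 426131) (nat_lit 3) (.e (nat_lit 204829) (nat_lit 18) (.e (nat_lit 57755) (nat_lit 209) (.e (nat_lit 1086) (nat_lit 81) .nil)))))))) (.g (nat_lit 6) .nil .nil))) 
(.lf (nat_lit 44477) (.g (nat_lit 2771) (.e (nat_lit 1253) (nat_lit 92) (.e (nat_lit 98317) (nat_lit 9) (.e (nat_lit 336184) (nat_lit 11) (.e (nat_lit 368676) (nat_lit 21) (.e (nat_lit 516179) (nat_lit 15) (.e (nat_lit 475199) (nat_lit 40) (.e (nat_lit 704689) (nat_lit 9) .nil))))))) (.g (nat_lit 6) .nil .nil))))))) (.nd (nat_lit 2) (.nd (nat_lit 3) (.nd (nat_lit 4) (.nd (nat_lit 5) 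
(.lf (nat_lit 44419) (.g (nat_lit 2275) (.e (nat_lit 1252) (nat_lit 92) (.e (nat_lit 98380) (nat_lit 31) (.e (nat_lit 466947) (nat_lit 0) (.e (nat_lit 1856) (nat_lit 124) (.e (nat_lit 557103) (nat_lit 14) (.e (nat_lit 180277) (nat_lit 32) .nil)))))) (.g (nat_lit 6) .nil .nil))) 
(.lf (nat_lit 44451) (.g (nat_lit 4479) (.e (nat_lit 1252) (nat_lit 92) (.e (nat_lit 98384) (nat_lit 32) (.e (nat_lit 475177) (nat_lit 24) (.e (nat_lit 516171) (nat_lit 13) (.e (nat_lit 458789) (nat_lit 23) (.e (nat_lit 532499) (nat_lit 1) (.e (nat_lit 57754) (nat_lit 209) (.e (nat_lit 1086) (nat_lit 81) .nil)))))))) (.g (nat_lit 6) .nil .nil)))) (.nd (nat_lit 5) 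
(.lf (nat_lit 44435) (.g (nat_lit 2403) (.e (nat_lit 1252) (nat_lit 92) (.e (nat_lit 98381) (nat_lit 31) (.e (nat_lit 466977) (nat_lit 22) (.e (nat_lit 196670) (nat_lit 14) (.e (nat_lit 73729) (nat_lit 0) .nil))))) .nil)) 
(.lf (nat_lit 44467) (.g (nat_lit 3412) (.e (nat_lit 1253) (nat_lit 92) (.e (nat_lit 98317) (nat_lit 9) (.e (nat_lit 336088) (nat_lit 9) (.e (nat_lit 336019) (nat_lit 3) (.e (nat_lit 98384) (nat_lit 32) (.e (nat_lit 475198) (nat_lit 40) (.e (nat_lit 704701) (nat_lit 9) .nil))))))) (.g (nat_lit 6) .nil .nil))))) (.nd (nat_lit 4) (.nd (nat_lit 5) 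
(.lf (nat_lit 44427) (.g (nat_lit 3051) (.e (nat_lit 1252) (nat_lit 92) (.e (nat_lit 98381) (nat_lit 31) (.e (nat_lit 466947) (nat_lit 0) (.e (nat_lit 1855) (nat_lit 124) (.e (nat_lit 557104) (nat_lit 14) (.e (nat_lit 180278) (nat_lit 32) .nil)))))) (.g (nat_lit 6) .nil .nil))) 
(.lf (nat_lit 44459) (.g (nat_lit 3181) (.e (nat_lit 1253) (nat_lit 92) (.e (nat_lit 98317) (nat_lit 9) (.e (nat_lit 336087) (nat_lit 9) (.e (nat_lit 336019) (nat_lit 3) (.e (nat_lit 98384) (nat_lit 32) (.e (nat_lit 475199) (nat_lit 40) (.e (nat_lit 704680) (nat_lit 9) .nil))))))) (.g (nat_lit 7) .nil .nil)))) (.nd (nat_lit 5) 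
(.lf (nat_lit 44443) (.g (nat_lit 3244) (.e (nat_lit 1252) (nat_lit 92) (.e (nat_lit 98384) (nat_lit 32) (.e (nat_lit 475177) (nat_lit 24) (.e (nat_lit 516150) (nat_lit 9) (.e (nat_lit 426131) (nat_lit 3) (.e (nat_lit 204829) (nat_lit 18) (.e (nat_lit 57755) (nat_lit 209) (.e (nat_lit 1039) (nat_lit 81) .nil)))))))) (.g (nat_lit 5) .nil .nil))) 
(.lf (nat_lit 44475) (.g (nat_lit 2393) (.e (nat_lit 1253) (nat_lit 92) (.e (nat_lit 98317) (nat_lit 9) (.e (nat_lit 336184) (nat_lit 11) (.e (nat_lit 368676) (nat_lit 21) (.e (nat_lit 516171) (nat_lit 13) (.e (nat_lit 458804) (nat_lit 38) (.e (nat_lit 655393) (nat_lit 9) .nil))))))) (.g (nat_lit 6) .nil .nil)))))) (.nd (nat_lit 3) (.nd (nat_lit 4) (.nd (nat_lit 5) 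
(.lf (nat_lit 44423) (.g (nat_lit 2473) (.e (nat_lit 1252) (nat_lit 92) (.e (nat_lit 98381) (nat_lit 31) (.e (nat_lit 466945) (nat_lit 0) (.e (nat_lit 1853) (nat_lit 124) (.e (nat_lit 557103) (nat_lit 14) (.e (nat_lit 180278) (nat_lit 32) .nil)))))) (.g (nat_lit 6) .nil .nil))) 
(.lf (nat_lit 44455) (.g (nat_lit 2635) (.e (nat_lit 1253) (nat_lit 92) (.e (nat_lit 98317) (nat_lit 9) (.e (nat_lit 336087) (nat_lit 9) (.e (nat_lit 336019) (nat_lit 3) (.e (nat_lit 98356) (nat_lit 26) (.e (nat_lit 426467) (nat_lit 24) (.e (nat_lit 155667) (nat_lit 9) .nil))))))) (.g (nat_lit 5) .nil .nil)))) (.nd (nat_lit 5) 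
(.lf (nat_lit 44439) (.g (nat_lit 3030) (.e (nat_lit 1252) (nat_lit 92) (.e (nat_lit 98384) (nat_lit 32) (.e (nat_lit 475177) (nat_lit 24) (.e (nat_lit 516149) (nat_lit 9) (.e (nat_lit 426131) (nat_lit 3) (.e (nat_lit 204829) (nat_lit 18) (.e (nat_lit 57755) (nat_lit 209) (.e (nat_lit 1086) (nat_lit 81) .nil)))))))) (.g (nat_lit 5) .nil .nil))) 
(.lf (nat_lit 44471) (.g (nat_lit 2365) (.e (nat_lit 1253) (nat_lit 92) (.e (nat_lit 98317) (nat_lit 9) (.e (nat_lit 336088) (nat_lit 9) (.e (nat_lit 336019) (nat_lit 3) (.e (nat_lit 98386) (nat_lit 32) (.e (nat_lit 483072) (nat_lit 40) (.e (nat_lit 704698) (nat_lit 9) .nil))))))) (.g (nat_lit 5) .nil .nil))))) (.nd (nat_lit 4) (.nd (nat_lit 5) 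
(.lf (nat_lit 44431) (.g (nat_lit 2649) (.e (nat_lit 1252) (nat_lit 92) (.e (nat_lit 98381) (nat_lit 31) (.e (nat_lit 466947) (nat_lit 0) (.e (nat_lit 1856) (nat_lit 124) (.e (nat_lit 557103) (nat_lit 14) (.e (nat_lit 180278) (nat_lit 32) .nil)))))) (.g (nat_lit 0) .nil .nil))) 
(.lf (nat_lit 44463) (.g (nat_lit 2215) (.e (nat_lit 1253) (nat_lit 92) (.e (nat_lit 98317) (nat_lit 9) (.e (nat_lit 336088) (nat_lit 9) (.e (nat_lit 336019) (nat_lit 3) (.e (nat_lit 98356) (nat_lit 26) (.e (nat_lit 426444) (nat_lit 19) (.e (nat_lit 106529) (nat_lit 9) .nil))))))) (.g (nat_lit 5) .nil .nil)))) (.nd (nat_lit 5) 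
(.lf (nat_lit 44447) (.g (nat_lit 4979) (.e (nat_lit 1252) (nat_lit 92) (.e (nat_lit 98384) (nat_lit 32) (.e (nat_lit 475177) (nat_lit 24) (.e (nat_lit 516150) (nat_lit 9) (.e (nat_lit 426131) (nat_lit 3) (.e (nat_lit 204830) (nat_lit 18) (.e (nat_lit 57754) (nat_lit 209) (.e (nat_lit 1086) (nat_lit 81) .nil)))))))) (.g (nat_lit 8) .nil .nil))) 
(.lf (nat_lit 44479) (.g (nat_lit 2107) (.e (nat_lit 1253) (nat_lit 92) (.e (nat_lit 98317) (nat_lit 9) (.e (nat_lit 336184) (nat_lit 11) (.e (nat_lit 368676) (nat_lit 21) (.e (nat_lit 516179) (nat_lit 15) (.e (nat_lit 475201) (nat_lit 40) (.e (nat_lit 704686) (nat_lit 9) .nil))))))) (.g (nat_lit 5) .nil .nil)))))))))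

noncomputable def tv617 : DT := (.nd (nat_lit 0) (.nd (nat_lit 1) (.nd (nat_lit 2) (.nd (nat_lit 3) (.nd (nat_lit 4) (.nd (nat_lit 5) 
(.lf (nat_lit 44480) (.g (nat_lit 2315) (.e (nat_lit 1253) (nat_lit 92) (.e (nat_lit 98317) (nat_lit 9) (.e (nat_lit 336184) (nat_lit 11) (.e (nat_lit 368676) (nat_lit 21) (.e (nat_lit 516179) (nat_lit 15) (.e (nat_lit 483072) (nat_lit 40) (.e (nat_lit 704698) (nat_lit 9) .nil))))))) (.g (nat_lit 5) .nil .nil))) 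
(.lf (nat_lit 44512) (.g (nat_lit 2892) (.e (nat_lit 1253) (nat_lit 92) (.e (nat_lit 98335) (nat_lit 18) (.e (nat_lit 164403) (nat_lit 256) (.e (nat_lit 57373) (nat_lit 2) (.e (nat_lit 90174) (nat_lit 14) (.e (nat_lit 180243) (nat_lit 5) (.e (nat_lit 532508) (nat_lit 2) (.e (nat_lit 106529) (nat_lit 9) .nil)))))))) (.g (nat_lit 4) .nil .nil)))) (.nd (nat_lit 5) 
(.lf (nat_lit 44496) (.g (nat_lit 3493) (.e (nat_lit 1253) (nat_lit 92) (.e (nat_lit 98320) (nat_lit 17) (.e (nat_lit 7591) (nat_lit 407) (.e (nat_lit 73747) (nat_lit 3) (.e (nat_lit 516139) (nat_lit 7) (.e (nat_lit 409617) (nat_lit 10) (.e (nat_lit 5355) (nat_lit 298) .nil))))))) (.g (nat_lit 6) .nil .nil))) 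
(.lf (nat_lit 44528) (.g (nat_lit 3852) (.e (nat_lit 1253) (nat_lit 92) (.e (nat_lit 98350) (nat_lit 24) (.e (nat_lit 409602) (nat_lit 0) (.e (nat_lit 5293) (nat_lit 298) (.e (nat_lit 1232) (nat_lit 91) (.e (nat_lit 90174) (nat_lit 14) (.e (nat_lit 180277) (nat_lit 32) .nil))))))) (.g (nat_lit 6) .nil .nil))))) (.nd (nat_lit 4) (.nd (nat_lit 5) 
(.lf (nat_lit 44488) (.g (nat_lit 2228) (.e (nat_lit 1253) (nat_lit 92) (.e (nat_lit 98317) (nat_lit 9) (.e (nat_lit 336186) (nat_lit 11) (.e (nat_lit 368676) (nat_lit 21) (.e (nat_lit 516179) (nat_lit 15) (.e (nat_lit 475201) (nat_lit 40) (.e (nat_lit 704686) (nat_lit 9) .nil))))))) (.g (nat_lit 5) .nil .nil))) 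
(.lf (nat_lit 44520) (.g (nat_lit 3807) (.e (nat_lit 1253) (nat_lit 92) (.e (nat_lit 98342) (nat_lit 20) (.e (nat_lit 221215) (nat_lit 23) (.e (nat_lit 204861) (nat_lit 26) (.e (nat_lit 336012) (nat_lit 2) (.e (nat_lit 90164) (nat_lit 12) (.e (nat_lit 164017) (nat_lit 44) (.e (nat_lit 688161) (nat_lit 13) .nil)))))))) (.g (nat_lit 5) .nil .nil)))) (.nd (nat_lit 5) 
(.lf (nat_lit 44504) (.g (nat_lit 3189) (.e (nat_lit 1253) (nat_lit 92) (.e (nat_lit 98333) (nat_lit 18) (.e (nat_lit 164325) (nat_lit 230) (.e (nat_lit 163873) (nat_lit 3) .nil)))) .nil)) 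
(.lf (nat_lit 44536) (.g (nat_lit 4572) (.e (nat_lit 1253) (nat_lit 92) (.e (nat_lit 98350) (nat_lit 24) (.e (nat_lit 409640) (nat_lit 17) (.e (nat_lit 294931) (nat_lit 3) (.e (nat_lit 98350) (nat_lit 24) (.e (nat_lit 409616) (nat_lit 10) (.e (nat_lit 5355) (nat_lit 298) .nil))))))) (.g (nat_lit 7) .nil .nil)))))) (.nd (nat_lit 3) (.nd (nat_lit 4) (.nd (nat_lit 5) 
(.lf (nat_lit 44484) (.g (nat_lit 1407) (.e (nat_lit 1253) (nat_lit 92) (.e (nat_lit 98317) (nat_lit 9) (.e (nat_lit 336186) (nat_lit 11) (.e (nat_lit 368676) (nat_lit 21) (.e (nat_lit 516179) (nat_lit 15) .nil))))) .nil)) 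
(.lf (nat_lit 44516) (.g (nat_lit 2819) (.e (nat_lit 1253) (nat_lit 92) (.e (nat_lit 98342) (nat_lit 20) (.e (nat_lit 221212) (nat_lit 22) (.e (nat_lit 196681) (nat_lit 17) (.e (nat_lit 131093) (nat_lit 2) .nil))))) .nil))) (.nd (nat_lit 5) 
(.lf (nat_lit 44500) (.g (nat_lit 1197) (.e (nat_lit 1253) (nat_lit 92) (.e (nat_lit 98333) (nat_lit 18) (.e (nat_lit 164177) (nat_lit 154) .nil))) .nil)) 
(.lf (nat_lit 44532) (.g (nat_lit 5394) (.e (nat_lit 1253) (nat_lit 92) (.e (nat_lit 98350) (nat_lit 24) (.e (nat_lit 409616) (nat_lit 10) (.e (nat_lit 5355) (nat_lit 298) (.e (nat_lit 1253) (nat_lit 92) (.e (nat_lit 98350) (nat_lit 24) (.e (nat_lit 409616) (nat_lit 10) (.e (nat_lit 5355) (nat_lit 298) .nil)))))))) (.g (nat_lit 7) .nil .nil))))) (.nd (nat_lit 4) (.nd (nat_lit 5) 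
(.lf (nat_lit 44492) (.g (nat_lit 1839) (.e (nat_lit 1253) (nat_lit 92) (.e (nat_lit 106240) (nat_lit 14) (.e (nat_lit 376869) (nat_lit 23) (.e (nat_lit 98384) (nat_lit 32) (.e (nat_lit 475201) (nat_lit 40) (.e (nat_lit 704686) (nat_lit 9) .nil)))))) (.g (nat_lit 5) .nil .nil))) 
(.lf (nat_lit 44524) (.g (nat_lit 4693) (.e (nat_lit 1253) (nat_lit 92) (.e (nat_lit 98349) (nat_lit 24) (.e (nat_lit 409641) (nat_lit 17) (.e (nat_lit 294931) (nat_lit 3) (.e (nat_lit 98350) (nat_lit 24) (.e (nat_lit 409617) (nat_lit 10) (.e (nat_lit 5355) (nat_lit 298) .nil))))))) (.g (nat_lit 0) .nil .nil)))) (.nd (nat_lit 5) 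
(.lf (nat_lit 44508) (.g (nat_lit 2212) (.e (nat_lit 1253) (nat_lit 92) (.e (nat_lit 98333) (nat_lit 18) (.e (nat_lit 164399) (nat_lit 256) (.e (nat_lit 57373) (nat_lit 2) (.e (nat_lit 90170) (nat_lit 13) .nil))))) .nil)) 
(.lf (nat_lit 44540) (.g (nat_lit 5426) (.e (nat_lit 1253) (nat_lit 92) (.e (nat_lit 98350) (nat_lit 24) (.e (nat_lit 409641) (nat_lit 17) (.e (nat_lit 294931) (nat_lit 3) (.e (nat_lit 98350) (nat_lit 24) (.e (nat_lit 409617) (nat_lit 10) (.e (nat_lit 5355) (nat_lit 298) .nil))))))) (.g (nat_lit 7) .nil .nil))))))) (.nd (nat_lit 2) (.nd (nat_lit 3) (.nd (nat_lit 4) (.nd (nat_lit 5) 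
(.lf (nat_lit 44482) (.g (nat_lit 2423) (.e (nat_lit 1253) (nat_lit 92) (.e (nat_lit 98317) (nat_lit 9) (.e (nat_lit 336186) (nat_lit 11) (.e (nat_lit 368676) (nat_lit 21) (.e (nat_lit 516171) (nat_lit 13) (.e (nat_lit 458804) (nat_lit 38) (.e (nat_lit 655391) (nat_lit 9) .nil))))))) (.g (nat_lit 6) .nil .nil))) 
(.lf (nat_lit 44514) (.g (nat_lit 2497) (.e (nat_lit 1253) (nat_lit 92) (.e (nat_lit 98342) (nat_lit 20) (.e (nat_lit 221212) (nat_lit 22) (.e (nat_lit 196670) (nat_lit 14) (.e (nat_lit 73746) (nat_lit 3) (.e (nat_lit 516115) (nat_lit 1) (.e (nat_lit 164151) (nat_lit 152) (.e (nat_lit 1062) (nat_lit 81) .nil)))))))) (.g (nat_lit 4) .nil .nil)))) (.nd (nat_lit 5) 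
(.lf (nat_lit 44498) (.g (nat_lit 5481) (.e (nat_lit 1253) (nat_lit 92) (.e (nat_lit 98323) (nat_lit 17) (.e (nat_lit 6989) (nat_lit 377) (.e (nat_lit 2777) (nat_lit 178) (.e (nat_lit 286735) (nat_lit 3) (.e (nat_lit 98350) (nat_lit 24) (.e (nat_lit 409616) (nat_lit 10) (.e (nat_lit 5355) (nat_lit 298) .nil)))))))) (.g (nat_lit 8) .nil .nil))) 
(.lf (nat_lit 44530) (.g (nat_lit 2577) (.e (nat_lit 1253) (nat_lit 92) (.e (nat_lit 98350) (nat_lit 24) (.e (nat_lit 409616) (nat_lit 10) (.e (nat_lit 5345) (nat_lit 298) (.e (nat_lit 1255) (nat_lit 92) (.e (nat_lit 98350) (nat_lit 24) (.e (nat_lit 409617) (nat_lit 10) (.e (nat_lit 5355) (nat_lit 298) .nil)))))))) (.g (nat_lit 4) .nil .nil))))) (.nd (nat_lit 4) (.nd (nat_lit 5) 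
(.lf (nat_lit 44490) (.g (nat_lit 2508) (.e (nat_lit 1253) (nat_lit 92) (.e (nat_lit 98317) (nat_lit 9) (.e (nat_lit 336186) (nat_lit 11) (.e (nat_lit 368676) (nat_lit 21) (.e (nat_lit 516179) (nat_lit 15) (.e (nat_lit 483072) (nat_lit 40) (.e (nat_lit 704698) (nat_lit 9) .nil))))))) (.g (nat_lit 5) .nil .nil))) 
(.lf (nat_lit 44522) (.g (nat_lit 4100) (.e (nat_lit 1253) (nat_lit 92) (.e (nat_lit 98349) (nat_lit 24) (.e (nat_lit 409640) (nat_lit 17) (.e (nat_lit 294931) (nat_lit 3) (.e (nat_lit 98350) (nat_lit 24) (.e (nat_lit 409617) (nat_lit 10) (.e (nat_lit 5355) (nat_lit 298) .nil))))))) (.g (nat_lit 7) .nil .nil)))) (.nd (nat_lit 5) 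
(.lf (nat_lit 44506) (.g (nat_lit 2470) (.e (nat_lit 1253) (nat_lit 92) (.e (nat_lit 98333) (nat_lit 18) (.e (nat_lit 164399) (nat_lit 256) (.e (nat_lit 57372) (nat_lit 2) (.e (nat_lit 90172) (nat_lit 14) .nil))))) .nil)) 
(.lf (nat_lit 44538) (.g (nat_lit 2580) (.e (nat_lit 1253) (nat_lit 92) (.e (nat_lit 98350) (nat_lit 24) (.e (nat_lit 409641) (nat_lit 17) (.e (nat_lit 294930) (nat_lit 3) (.e (nat_lit 98350) (nat_lit 24) (.e (nat_lit 409617) (nat_lit 10) (.e (nat_lit 5355) (nat_lit 298) .nil))))))) (.g (nat_lit 4) .nil .nil)))))) (.nd (nat_lit 3) (.nd (nat_lit 4) (.nd (nat_lit 5) 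
(.lf (nat_lit 44486) (.g (nat_lit 2955) (.e (nat_lit 1253) (nat_lit 92) (.e (nat_lit 98317) (nat_lit 9) (.e (nat_lit 336186) (nat_lit 11) (.e (nat_lit 368676) (nat_lit 21) (.e (nat_lit 516179) (nat_lit 15) (.e (nat_lit 475199) (nat_lit 40) (.e (nat_lit 704689) (nat_lit 9) .nil))))))) (.g (nat_lit 6) .nil .nil))) 
(.lf (nat_lit 44518) (.g (nat_lit 2986) (.e (nat_lit 1253) (nat_lit 92) (.e (nat_lit 98342) (nat_lit 20) (.e (nat_lit 221215) (nat_lit 23) (.e (nat_lit 204861) (nat_lit 26) (.e (nat_lit 336004) (nat_lit 2) (.e (nat_lit 90164) (nat_lit 12) (.e (nat_lit 164017) (nat_lit 44) (.e (nat_lit 688161) (nat_lit 13) .nil)))))))) (.g (nat_lit 4) .nil .nil)))) (.nd (nat_lit 5) 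
(.lf (nat_lit 44502) (.g (nat_lit 1130) (.e (nat_lit 1253) (nat_lit 92) (.e (nat_lit 98333) (nat_lit 18) (.e (nat_lit 164182) (nat_lit 154) .nil))) .nil)) 
(.lf (nat_lit 44534) (.g (nat_lit 1388) (.e (nat_lit 1253) (nat_lit 92) (.e (nat_lit 98350) (nat_lit 24) (.e (nat_lit 409616) (nat_lit 10) (.e (nat_lit 7936) (nat_lit 298) .nil)))) .nil)))) (.nd (nat_lit 4) (.nd (nat_lit 5) 
(.lf (nat_lit 44494) (.g (nat_lit 2668) (.e (nat_lit 1253) (nat_lit 92) (.e (nat_lit 98320) (nat_lit 17) (.e (nat_lit 7065) (nat_lit 377) (.e (nat_lit 1349) (nat_lit 102) (.e (nat_lit 286733) (nat_lit 2) (.e (nat_lit 90173) (nat_lit 14) (.e (nat_lit 180277) (nat_lit 32) .nil))))))) (.g (nat_lit 5) .nil .nil))) 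
(.lf (nat_lit 44526) (.g (nat_lit 4206) (.e (nat_lit 1253) (nat_lit 92) (.e (nat_lit 98349) (nat_lit 24) (.e (nat_lit 409646) (nat_lit 18) (.e (nat_lit 303119) (nat_lit 3) (.e (nat_lit 204863) (nat_lit 27) (.e (nat_lit 344072) (nat_lit 8) .nil)))))) (.g (nat_lit 5) .nil .nil)))) (.nd (nat_lit 5) 
(.lf (nat_lit 44510) (.g (nat_lit 2452) (.e (nat_lit 1253) (nat_lit 92) (.e (nat_lit 98333) (nat_lit 18) (.e (nat_lit 164399) (nat_lit 256) (.e (nat_lit 57379) (nat_lit 3) (.e (nat_lit 98366) (nat_lit 27) .nil))))) .nil)) 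
(.lf (nat_lit 44542) (.g (nat_lit 696) (.e (nat_lit 1253) (nat_lit 92) (.e (nat_lit 98350) (nat_lit 24) (.e (nat_lit 409644) (nat_lit 18) .nil))) .nil))))))) (.nd (nat_lit 1) (.nd (nat_lit 2) (.nd (nat_lit 3) (.nd (nat_lit 4) (.nd (nat_lit 5) 
(.lf (nat_lit 44481) (.g (nat_lit 2105) (.e (nat_lit 1253) (nat_lit 92) (.e (nat_lit 98317) (nat_lit 9) (.e (nat_lit 336186) (nat_lit 11) (.e (nat_lit 368676) (nat_lit 21) (.e (nat_lit 516146) (nat_lit 9) (.e (nat_lit 426444) (nat_lit 19) (.e (nat_lit 106529) (nat_lit 9) .nil))))))) (.g (nat_lit 5) .nil .nil))) 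
(.lf (nat_lit 44513) (.g (nat_lit 2579) (.e (nat_lit 1253) (nat_lit 92) (.e (nat_lit 98342) (nat_lit 20) (.e (nat_lit 221212) (nat_lit 22) (.e (nat_lit 196668) (nat_lit 14) (.e (nat_lit 73747) (nat_lit 3) .nil))))) .nil))) (.nd (nat_lit 5) 
(.lf (nat_lit 44497) (.g (nat_lit 1853) (.e (nat_lit 1253) (nat_lit 92) (.e (nat_lit 98323) (nat_lit 17) (.e (nat_lit 6989) (nat_lit 377) (.e (nat_lit 1361) (nat_lit 102) (.e (nat_lit 286733) (nat_lit 2) (.e (nat_lit 90173) (nat_lit 14) (.e (nat_lit 180277) (nat_lit 32) .nil))))))) (.g (nat_lit 4) .nil .nil))) 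
(.lf (nat_lit 44529) (.g (nat_lit 2557) (.e (nat_lit 1253) (nat_lit 92) (.e (nat_lit 98350) (nat_lit 24) (.e (nat_lit 417536) (nat_lit 6) (.e (nat_lit 286733) (nat_lit 2) (.e (nat_lit 90172) (nat_lit 14) (.e (nat_lit 180278) (nat_lit 32) .nil)))))) (.g (nat_lit 5) .nil .nil))))) (.nd (nat_lit 4) (.nd (nat_lit 5) 
(.lf (nat_lit 44489) (.g (nat_lit 1649) (.e (nat_lit 1253) (nat_lit 92) (.e (nat_lit 98317) (nat_lit 9) (.e (nat_lit 336186) (nat_lit 11) (.e (nat_lit 368676) (nat_lit 21) (.e (nat_lit 516179) (nat_lit 15) (.e (nat_lit 475201) (nat_lit 40) (.e (nat_lit 704709) (nat_lit 9) .nil))))))) (.g (nat_lit 4) .nil .nil))) 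
(.lf (nat_lit 44521) (.g (nat_lit 4482) (.e (nat_lit 1253) (nat_lit 92) (.e (nat_lit 98349) (nat_lit 24) (.e (nat_lit 409640) (nat_lit 17) (.e (nat_lit 294931) (nat_lit 3) (.e (nat_lit 98350) (nat_lit 24) (.e (nat_lit 409616) (nat_lit 10) (.e (nat_lit 5355) (nat_lit 298) .nil))))))) (.g (nat_lit 7) .nil .nil)))) (.nd (nat_lit 5) 
(.lf (nat_lit 44505) (.g (nat_lit 932) (.e (nat_lit 1253) (nat_lit 92) (.e (nat_lit 98333) (nat_lit 18) (.e (nat_lit 164399) (nat_lit 256) .nil))) .nil)) 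
(.lf (nat_lit 44537) (.g (nat_lit 4176) (.e (nat_lit 1253) (nat_lit 92) (.e (nat_lit 98350) (nat_lit 24) (.e (nat_lit 409640) (nat_lit 17) (.e (nat_lit 294931) (nat_lit 3) (.e (nat_lit 98350) (nat_lit 24) (.e (nat_lit 409617) (nat_lit 10) (.e (nat_lit 5355) (nat_lit 298) .nil))))))) (.g (nat_lit 7) .nil .nil)))))) (.nd (nat_lit 3) (.nd (nat_lit 4) (.nd (nat_lit 5) 
(.lf (nat_lit 44485) (.g (nat_lit 3266) (.e (nat_lit 1253) (nat_lit 92) (.e (nat_lit 98317) (nat_lit 9) (.e (nat_lit 336186) (nat_lit 11) (.e (nat_lit 368676) (nat_lit 21) (.e (nat_lit 516179) (nat_lit 15) (.e (nat_lit 475198) (nat_lit 40) (.e (nat_lit 704701) (nat_lit 9) .nil))))))) (.g (nat_lit 6) .nil .nil))) 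
(.lf (nat_lit 44517) (.g (nat_lit 2439) (.e (nat_lit 1253) (nat_lit 92) (.e (nat_lit 98342) (nat_lit 20) (.e (nat_lit 221212) (nat_lit 22) (.e (nat_lit 196681) (nat_lit 17) (.e (nat_lit 131094) (nat_lit 2) .nil))))) .nil))) (.nd (nat_lit 5) 
(.lf (nat_lit 44501) (.g (nat_lit 1260) (.e (nat_lit 1253) (nat_lit 92) (.e (nat_lit 98333) (nat_lit 18) (.e (nat_lit 164179) (nat_lit 154) .nil))) .nil)) 
(.lf (nat_lit 44533) (.g (nat_lit 5218) (.e (nat_lit 1253) (nat_lit 92) (.e (nat_lit 98350) (nat_lit 24) (.e (nat_lit 409616) (nat_lit 10) (.e (nat_lit 5355) (nat_lit 298) (.e (nat_lit 1253) (nat_lit 92) (.e (nat_lit 98350) (nat_lit 24) (.e (nat_lit 409617) (nat_lit 10) (.e (nat_lit 5355) (nat_lit 298) .nil)))))))) (.g (nat_lit 8) .nil .nil))))) (.nd (nat_lit 4) (.nd (nat_lit 5) 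
(.lf (nat_lit 44493) (.g (nat_lit 3021) (.e (nat_lit 1253) (nat_lit 92) (.e (nat_lit 98320) (nat_lit 17) (.e (nat_lit 7065) (nat_lit 377) (.e (nat_lit 1348) (nat_lit 102) (.e (nat_lit 286733) (nat_lit 2) (.e (nat_lit 90174) (nat_lit 14) (.e (nat_lit 180277) (nat_lit 32) .nil))))))) (.g (nat_lit 5) .nil .nil))) 
(.lf (nat_lit 44525) (.g (nat_lit 4617) (.e (nat_lit 1253) (nat_lit 92) (.e (nat_lit 98349) (nat_lit 24) (.e (nat_lit 409645) (nat_lit 18) (.e (nat_lit 303119) (nat_lit 3) (.e (nat_lit 204863) (nat_lit 27) (.e (nat_lit 344072) (nat_lit 8) .nil)))))) (.g (nat_lit 5) .nil .nil)))) (.nd (nat_lit 5) 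
(.lf (nat_lit 44509) (.g (nat_lit 2899) (.e (nat_lit 1253) (nat_lit 92) (.e (nat_lit 98333) (nat_lit 18) (.e (nat_lit 164399) (nat_lit 256) (.e (nat_lit 57378) (nat_lit 3) (.e (nat_lit 98366) (nat_lit 27) .nil))))) .nil)) 
(.lf (nat_lit 44541) (.g (nat_lit 2760) (.e (nat_lit 1253) (nat_lit 92) (.e (nat_lit 98350) (nat_lit 24) (.e (nat_lit 409642) (nat_lit 17) (.e (nat_lit 294931) (nat_lit 3) (.e (nat_lit 98350) (nat_lit 24) (.e (nat_lit 409617) (nat_lit 10) (.e (nat_lit 5355) (nat_lit 298) .nil))))))) (.g (nat_lit 4) .nil .nil))))))) (.nd (nat_lit 2) (.nd (nat_lit 3) (.nd (nat_lit 4) (.nd (nat_lit 5) 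
(.lf (nat_lit 44483) (.g (nat_lit 2417) (.e (nat_lit 1253) (nat_lit 92) (.e (nat_lit 98317) (nat_lit 9) (.e (nat_lit 336186) (nat_lit 11) (.e (nat_lit 368676) (nat_lit 21) (.e (nat_lit 516171) (nat_lit 13) (.e (nat_lit 458804) (nat_lit 38) (.e (nat_lit 655393) (nat_lit 9) .nil))))))) (.g (nat_lit 6) .nil .nil))) 
(.lf (nat_lit 44515) (.g (nat_lit 2580) (.e (nat_lit 1253) (nat_lit 92) (.e (nat_lit 98342) (nat_lit 20) (.e (nat_lit 221212) (nat_lit 22) (.e (nat_lit 196681) (nat_lit 17) (.e (nat_lit 131091) (nat_lit 2) (.e (nat_lit 90164) (nat_lit 12) (.e (nat_lit 164017) (nat_lit 44) (.e (nat_lit 688161) (nat_lit 13) .nil)))))))) (.g (nat_lit 4) .nil .nil)))) (.nd (nat_lit 5) 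
(.lf (nat_lit 44499) (.g (nat_lit 5411) (.e (nat_lit 1253) (nat_lit 92) (.e (nat_lit 98323) (nat_lit 17) (.e (nat_lit 6989) (nat_lit 377) (.e (nat_lit 2777) (nat_lit 178) (.e (nat_lit 286735) (nat_lit 3) (.e (nat_lit 98350) (nat_lit 24) (.e (nat_lit 409617) (nat_lit 10) (.e (nat_lit 5355) (nat_lit 298) .nil)))))))) (.g (nat_lit 8) .nil .nil))) 
(.lf (nat_lit 44531) (.g (nat_lit 1643) (.e (nat_lit 1253) (nat_lit 92) (.e (nat_lit 98350) (nat_lit 24) (.e (nat_lit 409616) (nat_lit 10) (.e (nat_lit 5355) (nat_lit 298) .nil)))) .nil)))) (.nd (nat_lit 4) (.nd (nat_lit 5) 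
(.lf (nat_lit 44491) (.g (nat_lit 1384) (.e (nat_lit 1253) (nat_lit 92) (.e (nat_lit 106240) (nat_lit 11) (.e (nat_lit 352313) (nat_lit 23) (.e (nat_lit 98356) (nat_lit 26) (.e (nat_lit 426439) (nat_lit 19) (.e (nat_lit 106529) (nat_lit 9) .nil)))))) (.g (nat_lit 4) .nil .nil))) 
(.lf (nat_lit 44523) (.g (nat_lit 5070) (.e (nat_lit 1253) (nat_lit 92) (.e (nat_lit 98349) (nat_lit 24) (.e (nat_lit 409641) (nat_lit 17) (.e (nat_lit 294931) (nat_lit 3) (.e (nat_lit 98350) (nat_lit 24) (.e (nat_lit 409616) (nat_lit 10) (.e (nat_lit 5355) (nat_lit 298) .nil))))))) (.g (nat_lit 0) .nil .nil)))) (.nd (nat_lit 5) 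
(.lf (nat_lit 44507) (.g (nat_lit 2461) (.e (nat_lit 1253) (nat_lit 92) (.e (nat_lit 98333) (nat_lit 18) (.e (nat_lit 164399) (nat_lit 256) (.e (nat_lit 57372) (nat_lit 2) (.e (nat_lit 90174) (nat_lit 14) .nil))))) .nil)) 
(.lf (nat_lit 44539) (.g (nat_lit 5817) (.e (nat_lit 1253) (nat_lit 92) (.e (nat_lit 98350) (nat_lit 24) (.e (nat_lit 409641) (nat_lit 17) (.e (nat_lit 294931) (nat_lit 3) (.e (nat_lit 98350) (nat_lit 24) (.e (nat_lit 409616) (nat_lit 10) (.e (nat_lit 5355) (nat_lit 298) .nil))))))) (.g (nat_lit 0) .nil .nil)))))) (.nd (nat_lit 3) (.nd (nat_lit 4) (.nd (nat_lit 5) 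
(.lf (nat_lit 44487) (.g (nat_lit 2707) (.e (nat_lit 1253) (nat_lit 92) (.e (nat_lit 98317) (nat_lit 9) (.e (nat_lit 336186) (nat_lit 11) (.e (nat_lit 368676) (nat_lit 21) (.e (nat_lit 516179) (nat_lit 15) (.e (nat_lit 475199) (nat_lit 40) (.e (nat_lit 704701) (nat_lit 9) .nil))))))) (.g (nat_lit 6) .nil .nil))) 
(.lf (nat_lit 44519) (.g (nat_lit 2540) (.e (nat_lit 1253) (nat_lit 92) (.e (nat_lit 98342) (nat_lit 20) (.e (nat_lit 221215) (nat_lit 23) (.e (nat_lit 204861) (nat_lit 26) (.e (nat_lit 336010) (nat_lit 2) .nil))))) .nil))) (.nd (nat_lit 5) 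
(.lf (nat_lit 44503) (.g (nat_lit 1225) (.e (nat_lit 1253) (nat_lit 92) (.e (nat_lit 98333) (nat_lit 18) (.e (nat_lit 164183) (nat_lit 154) .nil))) .nil)) 
(.lf (nat_lit 44535) (.g (nat_lit 5042) (.e (nat_lit 1253) (nat_lit 92) (.e (nat_lit 98350) (nat_lit 24) (.e (nat_lit 409617) (nat_lit 10) (.e (nat_lit 5355) (nat_lit 298) (.e (nat_lit 1253) (nat_lit 92) (.e (nat_lit 98350) (nat_lit 24) (.e (nat_lit 409617) (nat_lit 10) (.e (nat_lit 5355) (nat_lit 298) .nil)))))))) (.g (nat_lit 8) .nil .nil))))) (.nd (nat_lit 4) (.nd (nat_lit 5) 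
(.lf (nat_lit 44495) (.g (nat_lit 3493) (.e (nat_lit 1253) (nat_lit 92) (.e (nat_lit 98320) (nat_lit 17) (.e (nat_lit 7065) (nat_lit 377) (.e (nat_lit 1349) (nat_lit 102) (.e (nat_lit 286733) (nat_lit 2) (.e (nat_lit 90174) (nat_lit 14) (.e (nat_lit 180277) (nat_lit 32) .nil))))))) (.g (nat_lit 6) .nil .nil))) 
(.lf (nat_lit 44527) (.g (nat_lit 2032) (.e (nat_lit 1253) (nat_lit 92) (.e (nat_lit 98350) (nat_lit 24) (.e (nat_lit 409602) (nat_lit 0) (.e (nat_lit 5293) (nat_lit 298) (.e (nat_lit 1232) (nat_lit 91) .nil))))) .nil))) (.nd (nat_lit 5) 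
(.lf (nat_lit 44511) (.g (nat_lit 2423) (.e (nat_lit 1253) (nat_lit 92) (.e (nat_lit 98335) (nat_lit 18) (.e (nat_lit 164403) (nat_lit 256) (.e (nat_lit 57371) (nat_lit 2) (.e (nat_lit 90174) (nat_lit 14) (.e (nat_lit 180243) (nat_lit 5) (.e (nat_lit 532508) (nat_lit 2) (.e (nat_lit 106529) (nat_lit 9) .nil)))))))) (.g (nat_lit 4) .nil .nil))) 
(.lf (nat_lit 44543) (.g (nat_lit 4523) (.e (nat_lit 1253) (nat_lit 92) (.e (nat_lit 98350) (nat_lit 24) (.e (nat_lit 409645) (nat_lit 18) (.e (nat_lit 303119) (nat_lit 3) (.e (nat_lit 204863) (nat_lit 27) (.e (nat_lit 344072) (nat_lit 8) .nil)))))) (.g (nat_lit 5) .nil .nil)))))))))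

noncomputable def tv618 : DT := (.nd (nat_lit 0) (.nd (nat_lit 1) (.nd (nat_lit 2) (.nd (nat_lit 3) (.nd (nat_lit 4) (.nd (nat_lit 5) 
(.lf (nat_lit 44544) (.g (nat_lit 4532) (.e (nat_lit 1253) (nat_lit 92) (.e (nat_lit 98350) (nat_lit 24) (.e (nat_lit 409646) (nat_lit 18) (.e (nat_lit 303119) (nat_lit 3) (.e (nat_lit 204863) (nat_lit 27) (.e (nat_lit 344072) (nat_lit 8) .nil)))))) (.g (nat_lit 6) .nil .nil))) 
(.lf (nat_lit 44576) (.g (nat_lit 3313) (.e (nat_lit 1253) (nat_lit 92) (.e (nat_lit 98358) (nat_lit 26) (.e (nat_lit 426320) (nat_lit 12) (.e (nat_lit 475185) (nat_lit 29) (.e (nat_lit 557105) (nat_lit 14) (.e (nat_lit 180278) (nat_lit 32) .nil)))))) (.g (nat_lit 0) .nil .nil)))) (.nd (nat_lit 5) 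
(.lf (nat_lit 44560) (.g (nat_lit 1137) (.e (nat_lit 1253) (nat_lit 92) (.e (nat_lit 98358) (nat_lit 26) (.e (nat_lit 426272) (nat_lit 10) .nil))) .nil)) 
(.lf (nat_lit 44592) (.g (nat_lit 2086) (.e (nat_lit 1253) (nat_lit 92) (.e (nat_lit 98362) (nat_lit 26) (.e (nat_lit 426310) (nat_lit 12) (.e (nat_lit 475185) (nat_lit 29) (.e (nat_lit 557105) (nat_lit 14) (.e (nat_lit 180278) (nat_lit 32) .nil)))))) (.g (nat_lit 0) .nil .nil))))) (.nd (nat_lit 4) (.nd (nat_lit 5) 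
(.lf (nat_lit 44552) (.g (nat_lit 3412) (.e (nat_lit 1253) (nat_lit 92) (.e (nat_lit 98353) (nat_lit 25) (.e (nat_lit 417810) (nat_lit 6) (.e (nat_lit 286733) (nat_lit 2) (.e (nat_lit 90173) (nat_lit 14) (.e (nat_lit 180277) (nat_lit 32) .nil)))))) (.g (nat_lit 5) .nil .nil))) 
(.lf (nat_lit 44584) (.g (nat_lit 778) (.e (nat_lit 1253) (nat_lit 92) (.e (nat_lit 98359) (nat_lit 26) (.e (nat_lit 426286) (nat_lit 10) .nil))) .nil))) (.nd (nat_lit 5) 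
(.lf (nat_lit 44568) (.g (nat_lit 3235) (.e (nat_lit 1253) (nat_lit 92) (.e (nat_lit 98358) (nat_lit 26) (.e (nat_lit 426320) (nat_lit 12) (.e (nat_lit 475184) (nat_lit 29) (.e (nat_lit 557103) (nat_lit 14) (.e (nat_lit 180278) (nat_lit 32) .nil)))))) (.g (nat_lit 0) .nil .nil))) 
(.lf (nat_lit 44600) (.g (nat_lit 543) (.e (nat_lit 1253) (nat_lit 92) (.e (nat_lit 98365) (nat_lit 26) (.e (nat_lit 426188) (nat_lit 9) .nil))) .nil))))) (.nd (nat_lit 3) (.nd (nat_lit 4) (.nd (nat_lit 5) 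
(.lf (nat_lit 44548) (.g (nat_lit 2392) (.e (nat_lit 1253) (nat_lit 92) (.e (nat_lit 98353) (nat_lit 25) (.e (nat_lit 417809) (nat_lit 6) (.e (nat_lit 286733) (nat_lit 2) (.e (nat_lit 90173) (nat_lit 14) (.e (nat_lit 180277) (nat_lit 32) .nil)))))) (.g (nat_lit 5) .nil .nil))) 
(.lf (nat_lit 44580) (.g (nat_lit 2154) (.e (nat_lit 1253) (nat_lit 92) (.e (nat_lit 98359) (nat_lit 26) (.e (nat_lit 426171) (nat_lit 7) (.e (nat_lit 409629) (nat_lit 12) (.e (nat_lit 32808) (nat_lit 19) (.e (nat_lit 180277) (nat_lit 32) .nil)))))) (.g (nat_lit 4) .nil .nil)))) (.nd (nat_lit 5) 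
(.lf (nat_lit 44564) (.g (nat_lit 3381) (.e (nat_lit 1253) (nat_lit 92) (.e (nat_lit 98358) (nat_lit 26) (.e (nat_lit 426320) (nat_lit 12) (.e (nat_lit 475183) (nat_lit 29) (.e (nat_lit 557103) (nat_lit 14) (.e (nat_lit 180278) (nat_lit 32) .nil)))))) (.g (nat_lit 6) .nil .nil))) 
(.lf (nat_lit 44596) (.g (nat_lit 674) (.e (nat_lit 1253) (nat_lit 92) (.e (nat_lit 98365) (nat_lit 26) (.e (nat_lit 426187) (nat_lit 9) .nil))) .nil)))) (.nd (nat_lit 4) (.nd (nat_lit 5) 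
(.lf (nat_lit 44556) (.g (nat_lit 2609) (.e (nat_lit 1253) (nat_lit 92) (.e (nat_lit 98354) (nat_lit 26) (.e (nat_lit 426317) (nat_lit 12) (.e (nat_lit 475185) (nat_lit 29) (.e (nat_lit 557105) (nat_lit 14) (.e (nat_lit 180278) (nat_lit 32) .nil)))))) (.g (nat_lit 6) .nil .nil))) 
(.lf (nat_lit 44588) (.g (nat_lit 2586) (.e (nat_lit 1253) (nat_lit 92) (.e (nat_lit 98359) (nat_lit 26) (.e (nat_lit 426338) (nat_lit 14) (.e (nat_lit 491536) (nat_lit 2) (.e (nat_lit 90174) (nat_lit 14) (.e (nat_lit 180277) (nat_lit 32) .nil)))))) (.g (nat_lit 4) .nil .nil)))) (.nd (nat_lit 5) 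
(.lf (nat_lit 44572) (.g (nat_lit 3367) (.e (nat_lit 1253) (nat_lit 92) (.e (nat_lit 98358) (nat_lit 26) (.e (nat_lit 426320) (nat_lit 12) (.e (nat_lit 475185) (nat_lit 29) (.e (nat_lit 557103) (nat_lit 14) (.e (nat_lit 180277) (nat_lit 32) .nil)))))) (.g (nat_lit 0) .nil .nil))) 
(.lf (nat_lit 44604) (.g (nat_lit 1255) (.e (nat_lit 1253) (nat_lit 92) (.e (nat_lit 98365) (nat_lit 26) (.e (nat_lit 426198) (nat_lit 9) (.e (nat_lit 426402) (nat_lit 15) .nil)))) .nil)))))) (.nd (nat_lit 2) (.nd (nat_lit 3) (.nd (nat_lit 4) (.nd (nat_lit 5) 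
(.lf (nat_lit 44546) (.g (nat_lit 1270) (.e (nat_lit 1253) (nat_lit 92) (.e (nat_lit 98350) (nat_lit 24) (.e (nat_lit 409649) (nat_lit 18) (.e (nat_lit 303111) (nat_lit 0) .nil)))) .nil)) 
(.lf (nat_lit 44578) (.g (nat_lit 1077) (.e (nat_lit 1253) (nat_lit 92) (.e (nat_lit 98358) (nat_lit 26) (.e (nat_lit 426448) (nat_lit 20) .nil))) .nil))) (.nd (nat_lit 5) 
(.lf (nat_lit 44562) (.g (nat_lit 2056) (.e (nat_lit 1253) (nat_lit 92) (.e (nat_lit 98358) (nat_lit 26) (.e (nat_lit 426319) (nat_lit 12) (.e (nat_lit 475185) (nat_lit 29) (.e (nat_lit 557103) (nat_lit 14) .nil))))) .nil)) 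
(.lf (nat_lit 44594) (.g (nat_lit 2723) (.e (nat_lit 1253) (nat_lit 92) (.e (nat_lit 98363) (nat_lit 26) (.e (nat_lit 426318) (nat_lit 12) (.e (nat_lit 475185) (nat_lit 29) (.e (nat_lit 557105) (nat_lit 14) (.e (nat_lit 180278) (nat_lit 32) .nil)))))) (.g (nat_lit 0) .nil .nil))))) (.nd (nat_lit 4) (.nd (nat_lit 5) 
(.lf (nat_lit 44554) (.g (nat_lit 4111) (.e (nat_lit 1253) (nat_lit 92) (.e (nat_lit 98353) (nat_lit 25) (.e (nat_lit 417810) (nat_lit 6) (.e (nat_lit 286733) (nat_lit 2) (.e (nat_lit 90174) (nat_lit 14) (.e (nat_lit 180277) (nat_lit 32) .nil)))))) (.g (nat_lit 5) .nil .nil))) 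
(.lf (nat_lit 44586) (.g (nat_lit 693) (.e (nat_lit 1253) (nat_lit 92) (.e (nat_lit 98359) (nat_lit 26) (.e (nat_lit 426338) (nat_lit 14) .nil))) .nil))) (.nd (nat_lit 5) 
(.lf (nat_lit 44570) (.g (nat_lit 2910) (.e (nat_lit 1253) (nat_lit 92) (.e (nat_lit 98358) (nat_lit 26) (.e (nat_lit 426320) (nat_lit 12) (.e (nat_lit 475184) (nat_lit 29) (.e (nat_lit 557105) (nat_lit 14) (.e (nat_lit 180277) (nat_lit 32) .nil)))))) (.g (nat_lit 0) .nil .nil))) 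
(.lf (nat_lit 44602) (.g (nat_lit 1336) (.e (nat_lit 1253) (nat_lit 92) (.e (nat_lit 98365) (nat_lit 26) (.e (nat_lit 426188) (nat_lit 9) (.e (nat_lit 426426) (nat_lit 16) .nil)))) .nil))))) (.nd (nat_lit 3) (.nd (nat_lit 4) (.nd (nat_lit 5) 
(.lf (nat_lit 44550) (.g (nat_lit 3199) (.e (nat_lit 1253) (nat_lit 92) (.e (nat_lit 98353) (nat_lit 25) (.e (nat_lit 417809) (nat_lit 6) (.e (nat_lit 286733) (nat_lit 2) (.e (nat_lit 90174) (nat_lit 14) (.e (nat_lit 180277) (nat_lit 32) .nil)))))) (.g (nat_lit 5) .nil .nil))) 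
(.lf (nat_lit 44582) (.g (nat_lit 1365) (.e (nat_lit 1253) (nat_lit 92) (.e (nat_lit 98359) (nat_lit 26) (.e (nat_lit 426171) (nat_lit 7) (.e (nat_lit 409630) (nat_lit 12) .nil)))) .nil))) (.nd (nat_lit 5) 
(.lf (nat_lit 44566) (.g (nat_lit 3735) (.e (nat_lit 1253) (nat_lit 92) (.e (nat_lit 98358) (nat_lit 26) (.e (nat_lit 426320) (nat_lit 12) (.e (nat_lit 475183) (nat_lit 29) (.e (nat_lit 557104) (nat_lit 14) (.e (nat_lit 180278) (nat_lit 32) .nil)))))) (.g (nat_lit 0) .nil .nil))) 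
(.lf (nat_lit 44598) (.g (nat_lit 1700) (.e (nat_lit 1253) (nat_lit 92) (.e (nat_lit 98365) (nat_lit 26) (.e (nat_lit 426187) (nat_lit 9) (.e (nat_lit 426402) (nat_lit 15) (.e (nat_lit 1848) (nat_lit 124) .nil))))) .nil)))) (.nd (nat_lit 4) (.nd (nat_lit 5) 
(.lf (nat_lit 44558) (.g (nat_lit 918) (.e (nat_lit 1253) (nat_lit 92) (.e (nat_lit 98356) (nat_lit 26) (.e (nat_lit 426428) (nat_lit 17) .nil))) .nil)) 
(.lf (nat_lit 44590) (.g (nat_lit 2481) (.e (nat_lit 1253) (nat_lit 92) (.e (nat_lit 98359) (nat_lit 26) (.e (nat_lit 426338) (nat_lit 14) (.e (nat_lit 491537) (nat_lit 2) (.e (nat_lit 90174) (nat_lit 14) (.e (nat_lit 180277) (nat_lit 32) .nil)))))) (.g (nat_lit 4) .nil .nil)))) (.nd (nat_lit 5) 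
(.lf (nat_lit 44574) (.g (nat_lit 2462) (.e (nat_lit 1253) (nat_lit 92) (.e (nat_lit 98358) (nat_lit 26) (.e (nat_lit 426320) (nat_lit 12) (.e (nat_lit 475185) (nat_lit 29) (.e (nat_lit 557104) (nat_lit 14) .nil))))) .nil)) 
(.lf (nat_lit 44606) (.g (nat_lit 1732) (.e (nat_lit 1253) (nat_lit 92) (.e (nat_lit 98365) (nat_lit 26) (.e (nat_lit 426198) (nat_lit 9) (.e (nat_lit 426402) (nat_lit 15) (.e (nat_lit 1848) (nat_lit 124) (.e (nat_lit 557104) (nat_lit 14) (.e (nat_lit 180277) (nat_lit 32) .nil))))))) (.g (nat_lit 4) .nil .nil)))))))) 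
(.nd (nat_lit 1) (.nd (nat_lit 2) (.nd (nat_lit 3) (.nd (nat_lit 4) (.nd (nat_lit 5) 
(.lf (nat_lit 44545) (.g (nat_lit 2797) (.e (nat_lit 1253) (nat_lit 92) (.e (nat_lit 98350) (nat_lit 24) (.e (nat_lit 409647) (nat_lit 18) (.e (nat_lit 303119) (nat_lit 3) (.e (nat_lit 204863) (nat_lit 27) (.e (nat_lit 344072) (nat_lit 8) .nil)))))) (.g (nat_lit 4) .nil .nil))) 
(.lf (nat_lit 44577) (.g (nat_lit 998) (.e (nat_lit 1253) (nat_lit 92) (.e (nat_lit 98358) (nat_lit 26) (.e (nat_lit 433920) (nat_lit 12) .nil))) .nil))) (.nd (nat_lit 5) 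
(.lf (nat_lit 44561) (.g (nat_lit 2031) (.e (nat_lit 1253) (nat_lit 92) (.e (nat_lit 98358) (nat_lit 26) (.e (nat_lit 426294) (nat_lit 11) (.e (nat_lit 458792) (nat_lit 25) (.e (nat_lit 548914) (nat_lit 19) (.e (nat_lit 180278) (nat_lit 32) .nil)))))) (.g (nat_lit 0) .nil .nil))) 
(.lf (nat_lit 44593) (.g (nat_lit 2880) (.e (nat_lit 1253) (nat_lit 92) (.e (nat_lit 98363) (nat_lit 26) (.e (nat_lit 426318) (nat_lit 12) (.e (nat_lit 475185) (nat_lit 29) (.e (nat_lit 557103) (nat_lit 14) (.e (nat_lit 180278) (nat_lit 32) .nil)))))) (.g (nat_lit 0) .nil .nil))))) (.nd (nat_lit 4) (.nd (nat_lit 5) 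
(.lf (nat_lit 44553) (.g (nat_lit 2831) (.e (nat_lit 1253) (nat_lit 92) (.e (nat_lit 98353) (nat_lit 25) (.e (nat_lit 417810) (nat_lit 6) (.e (nat_lit 286733) (nat_lit 2) (.e (nat_lit 90173) (nat_lit 14) (.e (nat_lit 180278) (nat_lit 32) .nil)))))) (.g (nat_lit 4) .nil .nil))) 
(.lf (nat_lit 44585) (.g (nat_lit 791) (.e (nat_lit 1253) (nat_lit 92) (.e (nat_lit 98359) (nat_lit 26) (.e (nat_lit 426312) (nat_lit 12) .nil))) .nil))) (.nd (nat_lit 5) 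
(.lf (nat_lit 44569) (.g (nat_lit 2391) (.e (nat_lit 1253) (nat_lit 92) (.e (nat_lit 98358) (nat_lit 26) (.e (nat_lit 426320) (nat_lit 12) (.e (nat_lit 475184) (nat_lit 29) (.e (nat_lit 557104) (nat_lit 14) (.e (nat_lit 180278) (nat_lit 32) .nil)))))) (.g (nat_lit 5) .nil .nil))) 
(.lf (nat_lit 44601) (.g (nat_lit 1297) (.e (nat_lit 1253) (nat_lit 92) (.e (nat_lit 98365) (nat_lit 26) (.e (nat_lit 426188) (nat_lit 9) (.e (nat_lit 426354) (nat_lit 15) .nil)))) .nil))))) (.nd (nat_lit 3) (.nd (nat_lit 4) (.nd (nat_lit 5) 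
(.lf (nat_lit 44549) (.g (nat_lit 1811) (.e (nat_lit 1253) (nat_lit 92) (.e (nat_lit 98353) (nat_lit 25) (.e (nat_lit 417809) (nat_lit 6) (.e (nat_lit 286733) (nat_lit 2) (.e (nat_lit 90173) (nat_lit 14) (.e (nat_lit 180278) (nat_lit 32) .nil)))))) (.g (nat_lit 4) .nil .nil))) 
(.lf (nat_lit 44581) (.g (nat_lit 2375) (.e (nat_lit 1253) (nat_lit 92) (.e (nat_lit 98359) (nat_lit 26) (.e (nat_lit 426171) (nat_lit 7) (.e (nat_lit 409629) (nat_lit 12) (.e (nat_lit 32808) (nat_lit 19) (.e (nat_lit 180278) (nat_lit 32) .nil)))))) (.g (nat_lit 5) .nil .nil)))) (.nd (nat_lit 5) 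
(.lf (nat_lit 44565) (.g (nat_lit 2862) (.e (nat_lit 1253) (nat_lit 92) (.e (nat_lit 98358) (nat_lit 26) (.e (nat_lit 426320) (nat_lit 12) (.e (nat_lit 475183) (nat_lit 29) (.e (nat_lit 557104) (nat_lit 14) (.e (nat_lit 180277) (nat_lit 32) .nil)))))) (.g (nat_lit 5) .nil .nil))) 
(.lf (nat_lit 44597) (.g (nat_lit 1193) (.e (nat_lit 1253) (nat_lit 92) (.e (nat_lit 98365) (nat_lit 26) (.e (nat_lit 426187) (nat_lit 9) (.e (nat_lit 426402) (nat_lit 15) .nil)))) .nil)))) (.nd (nat_lit 4) (.nd (nat_lit 5) 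
(.lf (nat_lit 44557) (.g (nat_lit 1663) (.e (nat_lit 1253) (nat_lit 92) (.e (nat_lit 98356) (nat_lit 26) (.e (nat_lit 426320) (nat_lit 12) (.e (nat_lit 475185) (nat_lit 29) .nil)))) .nil)) 
(.lf (nat_lit 44589) (.g (nat_lit 2458) (.e (nat_lit 1253) (nat_lit 92) (.e (nat_lit 98359) (nat_lit 26) (.e (nat_lit 426338) (nat_lit 14) (.e (nat_lit 491537) (nat_lit 2) (.e (nat_lit 90172) (nat_lit 14) (.e (nat_lit 180278) (nat_lit 32) .nil)))))) (.g (nat_lit 4) .nil .nil)))) (.nd (nat_lit 5) 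
(.lf (nat_lit 44573) (.g (nat_lit 3476) (.e (nat_lit 1253) (nat_lit 92) (.e (nat_lit 98358) (nat_lit 26) (.e (nat_lit 426320) (nat_lit 12) (.e (nat_lit 475185) (nat_lit 29) (.e (nat_lit 557103) (nat_lit 14) (.e (nat_lit 180278) (nat_lit 32) .nil)))))) (.g (nat_lit 0) .nil .nil))) 
(.lf (nat_lit 44605) (.g (nat_lit 1857) (.e (nat_lit 1253) (nat_lit 92) (.e (nat_lit 98365) (nat_lit 26) (.e (nat_lit 426198) (nat_lit 9) (.e (nat_lit 426402) (nat_lit 15) (.e (nat_lit 1848) (nat_lit 124) (.e (nat_lit 557103) (nat_lit 14) (.e (nat_lit 180278) (nat_lit 32) .nil))))))) (.g (nat_lit 4) .nil .nil))))))) (.nd (nat_lit 2) (.nd (nat_lit 3) (.nd (nat_lit 4) (.nd (nat_lit 5) 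
(.lf (nat_lit 44547) (.g (nat_lit 2683) (.e (nat_lit 1253) (nat_lit 92) (.e (nat_lit 98350) (nat_lit 24) (.e (nat_lit 409649) (nat_lit 18) (.e (nat_lit 303119) (nat_lit 3) (.e (nat_lit 204874) (nat_lit 30) .nil))))) .nil)) 
(.lf (nat_lit 44579) (.g (nat_lit 1370) (.e (nat_lit 1253) (nat_lit 92) (.e (nat_lit 98359) (nat_lit 26) (.e (nat_lit 426170) (nat_lit 7) (.e (nat_lit 409631) (nat_lit 12) (.e (nat_lit 32808) (nat_lit 19) .nil))))) .nil))) (.nd (nat_lit 5) 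
(.lf (nat_lit 44563) (.g (nat_lit 2011) (.e (nat_lit 1253) (nat_lit 92) (.e (nat_lit 98358) (nat_lit 26) (.e (nat_lit 426319) (nat_lit 12) (.e (nat_lit 475185) (nat_lit 29) (.e (nat_lit 557105) (nat_lit 14) .nil))))) .nil)) 
(.lf (nat_lit 44595) (.g (nat_lit 1322) (.e (nat_lit 1253) (nat_lit 92) (.e (nat_lit 98364) (nat_lit 26) (.e (nat_lit 426316) (nat_lit 12) (.e (nat_lit 475185) (nat_lit 29) (.e (nat_lit 557105) (nat_lit 14) .nil))))) .nil)))) (.nd (nat_lit 4) (.nd (nat_lit 5) 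
(.lf (nat_lit 44555) (.g (nat_lit 2608) (.e (nat_lit 1253) (nat_lit 92) (.e (nat_lit 98354) (nat_lit 26) (.e (nat_lit 426317) (nat_lit 12) (.e (nat_lit 475185) (nat_lit 29) (.e (nat_lit 557103) (nat_lit 14) (.e (nat_lit 180277) (nat_lit 32) .nil)))))) (.g (nat_lit 0) .nil .nil))) 
(.lf (nat_lit 44587) (.g (nat_lit 2577) (.e (nat_lit 1253) (nat_lit 92) (.e (nat_lit 98359) (nat_lit 26) (.e (nat_lit 426338) (nat_lit 14) (.e (nat_lit 491535) (nat_lit 2) (.e (nat_lit 90172) (nat_lit 14) (.e (nat_lit 180278) (nat_lit 32) .nil)))))) (.g (nat_lit 4) .nil .nil)))) (.nd (nat_lit 5) 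
(.lf (nat_lit 44571) (.g (nat_lit 2877) (.e (nat_lit 1253) (nat_lit 92) (.e (nat_lit 98358) (nat_lit 26) (.e (nat_lit 426320) (nat_lit 12) (.e (nat_lit 475184) (nat_lit 29) (.e (nat_lit 557105) (nat_lit 14) (.e (nat_lit 180278) (nat_lit 32) .nil)))))) (.g (nat_lit 6) .nil .nil))) 
(.lf (nat_lit 44603) (.g (nat_lit 1318) (.e (nat_lit 1253) (nat_lit 92) (.e (nat_lit 98365) (nat_lit 26) (.e (nat_lit 426188) (nat_lit 9) (.e (nat_lit 426566) (nat_lit 34) .nil)))) .nil))))) (.nd (nat_lit 3) (.nd (nat_lit 4) (.nd (nat_lit 5) 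
(.lf (nat_lit 44551) (.g (nat_lit 2394) (.e (nat_lit 1253) (nat_lit 92) (.e (nat_lit 98353) (nat_lit 25) (.e (nat_lit 417810) (nat_lit 6) (.e (nat_lit 286732) (nat_lit 2) (.e (nat_lit 90174) (nat_lit 14) (.e (nat_lit 180277) (nat_lit 32) .nil)))))) (.g (nat_lit 4) .nil .nil))) 
(.lf (nat_lit 44583) (.g (nat_lit 1947) (.e (nat_lit 1253) (nat_lit 92) (.e (nat_lit 98359) (nat_lit 26) (.e (nat_lit 426171) (nat_lit 7) (.e (nat_lit 409631) (nat_lit 12) (.e (nat_lit 32808) (nat_lit 19) .nil))))) .nil))) (.nd (nat_lit 5) 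
(.lf (nat_lit 44567) (.g (nat_lit 2237) (.e (nat_lit 1253) (nat_lit 92) (.e (nat_lit 98358) (nat_lit 26) (.e (nat_lit 426320) (nat_lit 12) (.e (nat_lit 475183) (nat_lit 29) (.e (nat_lit 557105) (nat_lit 14) (.e (nat_lit 180277) (nat_lit 32) .nil)))))) (.g (nat_lit 4) .nil .nil))) 
(.lf (nat_lit 44599) (.g (nat_lit 1863) (.e (nat_lit 1253) (nat_lit 92) (.e (nat_lit 98365) (nat_lit 26) (.e (nat_lit 426187) (nat_lit 9) (.e (nat_lit 426402) (nat_lit 15) (.e (nat_lit 1849) (nat_lit 124) (.e (nat_lit 557104) (nat_lit 14) (.e (nat_lit 180278) (nat_lit 32) .nil))))))) (.g (nat_lit 4) .nil .nil))))) (.nd (nat_lit 4) (.nd (nat_lit 5) 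
(.lf (nat_lit 44559) (.g (nat_lit 1104) (.e (nat_lit 1253) (nat_lit 92) (.e (nat_lit 98358) (nat_lit 26) (.e (nat_lit 425986) (nat_lit 0) (.e (nat_lit 7540) (nat_lit 402) .nil)))) .nil)) 
(.lf (nat_lit 44591) (.g (nat_lit 2241) (.e (nat_lit 1253) (nat_lit 92) (.e (nat_lit 98361) (nat_lit 26) (.e (nat_lit 426340) (nat_lit 14) (.e (nat_lit 491537) (nat_lit 2) (.e (nat_lit 90174) (nat_lit 14) (.e (nat_lit 180277) (nat_lit 32) .nil)))))) (.g (nat_lit 5) .nil .nil)))) (.nd (nat_lit 5) 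
(.lf (nat_lit 44575) (.g (nat_lit 3302) (.e (nat_lit 1253) (nat_lit 92) (.e (nat_lit 98358) (nat_lit 26) (.e (nat_lit 426320) (nat_lit 12) (.e (nat_lit 475185) (nat_lit 29) (.e (nat_lit 557105) (nat_lit 14) (.e (nat_lit 180277) (nat_lit 32) .nil)))))) (.g (nat_lit 0) .nil .nil))) 
(.lf (nat_lit 44607) (.g (nat_lit 1650) (.e (nat_lit 1253) (nat_lit 92) (.e (nat_lit 98365) (nat_lit 26) (.e (nat_lit 426198) (nat_lit 9) (.e (nat_lit 426402) (nat_lit 15) (.e (nat_lit 1849) (nat_lit 124) .nil))))) .nil))))))))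

noncomputable def tv619 : DT := (.nd (nat_lit 0) (.nd (nat_lit 1) (.nd (nat_lit 2) (.nd (nat_lit 3) (.nd (nat_lit 4) (.nd (nat_lit 5) 
(.lf (nat_lit 44608) (.g (nat_lit 1669) (.e (nat_lit 1253) (nat_lit 92) (.e (nat_lit 98365) (nat_lit 26) (.e (nat_lit 426198) (nat_lit 9) (.e (nat_lit 426402) (nat_lit 15) (.e (nat_lit 1849) (nat_lit 124) (.e (nat_lit 557103) (nat_lit 14) (.e (nat_lit 180278) (nat_lit 32) .nil))))))) (.g (nat_lit 4) .nil .nil))) 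
(.lf (nat_lit 44640) (.g (nat_lit 2842) (.e (nat_lit 1253) (nat_lit 92) (.e (nat_lit 98367) (nat_lit 27) (.e (nat_lit 434244) (nat_lit 28) (.e (nat_lit 573451) (nat_lit 9) (.e (nat_lit 1449) (nat_lit 108) .nil))))) .nil))) (.nd (nat_lit 5) 
(.lf (nat_lit 44624) (.g (nat_lit 2049) (.e (nat_lit 1253) (nat_lit 92) (.e (nat_lit 98365) (nat_lit 26) (.e (nat_lit 426315) (nat_lit 12) (.e (nat_lit 475185) (nat_lit 29) (.e (nat_lit 557103) (nat_lit 14) .nil))))) .nil)) 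
(.lf (nat_lit 44656) (.g (nat_lit 3510) (.e (nat_lit 1253) (nat_lit 92) (.e (nat_lit 98367) (nat_lit 27) (.e (nat_lit 434247) (nat_lit 28) (.e (nat_lit 573489) (nat_lit 14) (.e (nat_lit 73755) (nat_lit 8) (.e (nat_lit 557089) (nat_lit 12) (.e (nat_lit 164010) (nat_lit 41) (.e (nat_lit 663561) (nat_lit 0) .nil)))))))) (.g (nat_lit 5) .nil .nil))))) (.nd (nat_lit 4) (.nd (nat_lit 5) 
(.lf (nat_lit 44616) (.g (nat_lit 3076) (.e (nat_lit 1253) (nat_lit 92) (.e (nat_lit 98365) (nat_lit 26) (.e (nat_lit 426306) (nat_lit 12) (.e (nat_lit 475184) (nat_lit 29) (.e (nat_lit 557105) (nat_lit 14) (.e (nat_lit 180277) (nat_lit 32) .nil)))))) (.g (nat_lit 6) .nil .nil))) 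
(.lf (nat_lit 44648) (.g (nat_lit 2756) (.e (nat_lit 1253) (nat_lit 92) (.e (nat_lit 98367) (nat_lit 27) (.e (nat_lit 434245) (nat_lit 28) (.e (nat_lit 573487) (nat_lit 14) (.e (nat_lit 73753) (nat_lit 8) (.e (nat_lit 557089) (nat_lit 12) (.e (nat_lit 164007) (nat_lit 41) (.e (nat_lit 663561) (nat_lit 0) .nil)))))))) (.g (nat_lit 4) .nil .nil)))) (.nd (nat_lit 5) 
(.lf (nat_lit 44632) (.g (nat_lit 2887) (.e (nat_lit 1253) (nat_lit 92) (.e (nat_lit 98365) (nat_lit 26) (.e (nat_lit 426343) (nat_lit 14) (.e (nat_lit 491535) (nat_lit 2) (.e (nat_lit 90172) (nat_lit 14) (.e (nat_lit 180278) (nat_lit 32) .nil)))))) (.g (nat_lit 4) .nil .nil))) 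
(.lf (nat_lit 44664) (.g (nat_lit 2820) (.e (nat_lit 1253) (nat_lit 92) (.e (nat_lit 98367) (nat_lit 27) (.e (nat_lit 434248) (nat_lit 28) (.e (nat_lit 573487) (nat_lit 14) (.e (nat_lit 73746) (nat_lit 3) (.e (nat_lit 516117) (nat_lit 1) (.e (nat_lit 164195) (nat_lit 158) (.e (nat_lit 1086) (nat_lit 81) .nil)))))))) (.g (nat_lit 4) .nil .nil)))))) 
(.nd (nat_lit 3) (.nd (nat_lit 4) (.nd (nat_lit 5) 
(.lf (nat_lit 44612) (.g (nat_lit 3058) (.e (nat_lit 1253) (nat_lit 92) (.e (nat_lit 98365) (nat_lit 26) (.e (nat_lit 426306) (nat_lit 12) (.e (nat_lit 475183) (nat_lit 29) (.e (nat_lit 557104) (nat_lit 14) (.e (nat_lit 180277) (nat_lit 32) .nil)))))) (.g (nat_lit 6) .nil .nil))) 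
(.lf (nat_lit 44644) (.g (nat_lit 2606) (.e (nat_lit 1253) (nat_lit 92) (.e (nat_lit 98367) (nat_lit 27) (.e (nat_lit 434244) (nat_lit 28) (.e (nat_lit 573488) (nat_lit 14) (.e (nat_lit 73755) (nat_lit 8) (.e (nat_lit 557089) (nat_lit 12) (.e (nat_lit 164007) (nat_lit 41) (.e (nat_lit 663561) (nat_lit 0) .nil)))))))) (.g (nat_lit 4) .nil .nil)))) (.nd (nat_lit 5) 
(.lf (nat_lit 44628) (.g (nat_lit 3075) (.e (nat_lit 1253) (nat_lit 92) (.e (nat_lit 98365) (nat_lit 26) (.e (nat_lit 426316) (nat_lit 12) (.e (nat_lit 475185) (nat_lit 29) (.e (nat_lit 557105) (nat_lit 14) (.e (nat_lit 180277) (nat_lit 32) .nil)))))) (.g (nat_lit 0) .nil .nil))) 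
(.lf (nat_lit 44660) (.g (nat_lit 1686) (.e (nat_lit 1253) (nat_lit 92) (.e (nat_lit 98367) (nat_lit 27) (.e (nat_lit 434248) (nat_lit 28) (.e (nat_lit 573482) (nat_lit 13) .nil)))) .nil)))) (.nd (nat_lit 4) (.nd (nat_lit 5) 
(.lf (nat_lit 44620) (.g (nat_lit 1579) (.e (nat_lit 1253) (nat_lit 92) (.e (nat_lit 98365) (nat_lit 26) (.e (nat_lit 426315) (nat_lit 12) (.e (nat_lit 475183) (nat_lit 29) .nil)))) .nil)) 
(.lf (nat_lit 44652) (.g (nat_lit 3065) (.e (nat_lit 1253) (nat_lit 92) (.e (nat_lit 98367) (nat_lit 27) (.e (nat_lit 434246) (nat_lit 28) (.e (nat_lit 573489) (nat_lit 14) (.e (nat_lit 73755) (nat_lit 8) (.e (nat_lit 557090) (nat_lit 12) (.e (nat_lit 164006) (nat_lit 41) (.e (nat_lit 663561) (nat_lit 0) .nil)))))))) (.g (nat_lit 4) .nil .nil)))) (.nd (nat_lit 5) 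
(.lf (nat_lit 44636) (.g (nat_lit 1121) (.e (nat_lit 1253) (nat_lit 92) (.e (nat_lit 98367) (nat_lit 27) (.e (nat_lit 434183) (nat_lit 8) .nil))) .nil)) 
(.lf (nat_lit 44668) (.g (nat_lit 3329) (.e (nat_lit 1253) (nat_lit 92) (.e (nat_lit 98367) (nat_lit 27) (.e (nat_lit 434248) (nat_lit 28) (.e (nat_lit 573489) (nat_lit 14) (.e (nat_lit 73755) (nat_lit 8) (.e (nat_lit 557089) (nat_lit 12) (.e (nat_lit 164007) (nat_lit 41) (.e (nat_lit 663561) (nat_lit 0) .nil)))))))) (.g (nat_lit 4) .nil .nil))))))) 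
(.nd (nat_lit 2) (.nd (nat_lit 3) (.nd (nat_lit 4) (.nd (nat_lit 5) 
(.lf (nat_lit 44610) (.g (nat_lit 390) (.e (nat_lit 1253) (nat_lit 92) (.e (nat_lit 98365) (nat_lit 26) (.e (nat_lit 426298) (nat_lit 11) .nil))) .nil)) 
(.lf (nat_lit 44642) (.g (nat_lit 2930) (.e (nat_lit 1253) (nat_lit 92) (.e (nat_lit 98367) (nat_lit 27) (.e (nat_lit 434244) (nat_lit 28) (.e (nat_lit 573487) (nat_lit 14) (.e (nat_lit 73753) (nat_lit 8) (.e (nat_lit 557089) (nat_lit 12) (.e (nat_lit 164007) (nat_lit 41) (.e (nat_lit 663561) (nat_lit 0) .nil)))))))) (.g (nat_lit 4) .nil .nil)))) (.nd (nat_lit 5) 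
(.lf (nat_lit 44626) (.g (nat_lit 3160) (.e (nat_lit 1253) (nat_lit 92) (.e (nat_lit 98365) (nat_lit 26) (.e (nat_lit 426316) (nat_lit 12) (.e (nat_lit 475185) (nat_lit 29) (.e (nat_lit 557103) (nat_lit 14) (.e (nat_lit 180277) (nat_lit 32) .nil)))))) (.g (nat_lit 6) .nil .nil))) 
(.lf (nat_lit 44658) (.g (nat_lit 3050) (.e (nat_lit 1253) (nat_lit 92) (.e (nat_lit 98367) (nat_lit 27) (.e (nat_lit 434247) (nat_lit 28) (.e (nat_lit 573489) (nat_lit 14) (.e (nat_lit 73755) (nat_lit 8) (.e (nat_lit 557091) (nat_lit 12) (.e (nat_lit 164006) (nat_lit 41) (.e (nat_lit 663561) (nat_lit 0) .nil)))))))) (.g (nat_lit 5) .nil .nil))))) (.nd (nat_lit 4) (.nd (nat_lit 5) 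
(.lf (nat_lit 44618) (.g (nat_lit 3515) (.e (nat_lit 1253) (nat_lit 92) (.e (nat_lit 98365) (nat_lit 26) (.e (nat_lit 426306) (nat_lit 12) (.e (nat_lit 475185) (nat_lit 29) (.e (nat_lit 557103) (nat_lit 14) (.e (nat_lit 180278) (nat_lit 32) .nil)))))) (.g (nat_lit 0) .nil .nil))) 
(.lf (nat_lit 44650) (.g (nat_lit 2989) (.e (nat_lit 1253) (nat_lit 92) (.e (nat_lit 98367) (nat_lit 27) (.e (nat_lit 434246) (nat_lit 28) (.e (nat_lit 573489) (nat_lit 14) (.e (nat_lit 73755) (nat_lit 8) (.e (nat_lit 557089) (nat_lit 12) (.e (nat_lit 164007) (nat_lit 41) (.e (nat_lit 663561) (nat_lit 0) .nil)))))))) (.g (nat_lit 4) .nil .nil)))) (.nd (nat_lit 5) 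
(.lf (nat_lit 44634) (.g (nat_lit 479) (.e (nat_lit 1253) (nat_lit 92) (.e (nat_lit 98366) (nat_lit 27) (.e (nat_lit 434192) (nat_lit 13) .nil))) .nil)) 
(.lf (nat_lit 44666) (.g (nat_lit 2885) (.e (nat_lit 1253) (nat_lit 92) (.e (nat_lit 98367) (nat_lit 27) (.e (nat_lit 434248) (nat_lit 28) (.e (nat_lit 573487) (nat_lit 14) (.e (nat_lit 73753) (nat_lit 8) (.e (nat_lit 557090) (nat_lit 12) (.e (nat_lit 164006) (nat_lit 41) (.e (nat_lit 663561) (nat_lit 0) .nil)))))))) (.g (nat_lit 4) .nil .nil)))))) 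
(.nd (nat_lit 3) (.nd (nat_lit 4) (.nd (nat_lit 5) 
(.lf (nat_lit 44614) (.g (nat_lit 3289) (.e (nat_lit 1253) (nat_lit 92) (.e (nat_lit 98365) (nat_lit 26) (.e (nat_lit 426306) (nat_lit 12) (.e (nat_lit 475184) (nat_lit 29) (.e (nat_lit 557103) (nat_lit 14) (.e (nat_lit 180278) (nat_lit 32) .nil)))))) (.g (nat_lit 6) .nil .nil))) 
(.lf (nat_lit 44646) (.g (nat_lit 2866) (.e (nat_lit 1253) (nat_lit 92) (.e (nat_lit 98367) (nat_lit 27) (.e (nat_lit 434244) (nat_lit 28) (.e (nat_lit 573488) (nat_lit 14) (.e (nat_lit 73755) (nat_lit 8) (.e (nat_lit 557090) (nat_lit 12) (.e (nat_lit 164007) (nat_lit 41) (.e (nat_lit 663561) (nat_lit 0) .nil)))))))) (.g (nat_lit 4) .nil .nil)))) (.nd (nat_lit 5) 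
(.lf (nat_lit 44630) (.g (nat_lit 1283) (.e (nat_lit 1253) (nat_lit 92) (.e (nat_lit 98365) (nat_lit 26) (.e (nat_lit 426341) (nat_lit 14) (.e (nat_lit 491537) (nat_lit 2) .nil)))) .nil)) 
(.lf (nat_lit 44662) (.g (nat_lit 1786) (.e (nat_lit 1253) (nat_lit 92) (.e (nat_lit 98367) (nat_lit 27) (.e (nat_lit 434248) (nat_lit 28) (.e (nat_lit 573487) (nat_lit 14) .nil)))) .nil)))) (.nd (nat_lit 4) (.nd (nat_lit 5) 
(.lf (nat_lit 44622) (.g (nat_lit 1727) (.e (nat_lit 1253) (nat_lit 92) (.e (nat_lit 98365) (nat_lit 26) (.e (nat_lit 426315) (nat_lit 12) (.e (nat_lit 475184) (nat_lit 29) (.e (nat_lit 557104) (nat_lit 14) (.e (nat_lit 180278) (nat_lit 32) .nil)))))) (.g (nat_lit 4) .nil .nil))) 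
(.lf (nat_lit 44654) (.g (nat_lit 3055) (.e (nat_lit 1253) (nat_lit 92) (.e (nat_lit 98367) (nat_lit 27) (.e (nat_lit 434247) (nat_lit 28) (.e (nat_lit 573489) (nat_lit 14) (.e (nat_lit 73755) (nat_lit 8) (.e (nat_lit 557089) (nat_lit 12) (.e (nat_lit 164006) (nat_lit 41) (.e (nat_lit 663561) (nat_lit 0) .nil)))))))) (.g (nat_lit 5) .nil .nil)))) (.nd (nat_lit 5) 
(.lf (nat_lit 44638) (.g (nat_lit 2870) (.e (nat_lit 1253) (nat_lit 92) (.e (nat_lit 98367) (nat_lit 27) (.e (nat_lit 434231) (nat_lit 23) (.e (nat_lit 532513) (nat_lit 3) (.e (nat_lit 114714) (nat_lit 22) (.e (nat_lit 90162) (nat_lit 12) (.e (nat_lit 164007) (nat_lit 41) (.e (nat_lit 663561) (nat_lit 0) .nil)))))))) (.g (nat_lit 4) .nil .nil))) 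
(.lf (nat_lit 44670) (.g (nat_lit 3236) (.e (nat_lit 1253) (nat_lit 92) (.e (nat_lit 98367) (nat_lit 27) (.e (nat_lit 434248) (nat_lit 28) (.e (nat_lit 573489) (nat_lit 14) (.e (nat_lit 73755) (nat_lit 8) (.e (nat_lit 557090) (nat_lit 12) (.e (nat_lit 164005) (nat_lit 41) (.e (nat_lit 663561) (nat_lit 0) .nil)))))))) (.g (nat_lit 4) .nil .nil)))))))) 
(.nd (nat_lit 1) (.nd (nat_lit 2) (.nd (nat_lit 3) (.nd (nat_lit 4) (.nd (nat_lit 5) 
(.lf (nat_lit 44609) (.g (nat_lit 1662) (.e (nat_lit 1253) (nat_lit 92) (.e (nat_lit 98365) (nat_lit 26) (.e (nat_lit 426198) (nat_lit 9) (.e (nat_lit 426402) (nat_lit 15) (.e (nat_lit 1859) (nat_lit 124) .nil))))) .nil)) 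
(.lf (nat_lit 44641) (.g (nat_lit 2292) (.e (nat_lit 1253) (nat_lit 92) (.e (nat_lit 98367) (nat_lit 27) (.e (nat_lit 434244) (nat_lit 28) (.e (nat_lit 573487) (nat_lit 14) (.e (nat_lit 73746) (nat_lit 3) .nil))))) .nil))) (.nd (nat_lit 5) 
(.lf (nat_lit 44625) (.g (nat_lit 2004) (.e (nat_lit 1253) (nat_lit 92) (.e (nat_lit 98365) (nat_lit 26) (.e (nat_lit 426315) (nat_lit 12) (.e (nat_lit 475185) (nat_lit 29) (.e (nat_lit 557105) (nat_lit 14) .nil))))) .nil)) 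
(.lf (nat_lit 44657) (.g (nat_lit 2520) (.e (nat_lit 1253) (nat_lit 92) (.e (nat_lit 98367) (nat_lit 27) (.e (nat_lit 434247) (nat_lit 28) (.e (nat_lit 573489) (nat_lit 14) (.e (nat_lit 73755) (nat_lit 8) (.e (nat_lit 557091) (nat_lit 12) (.e (nat_lit 164005) (nat_lit 41) (.e (nat_lit 663561) (nat_lit 0) .nil)))))))) (.g (nat_lit 4) .nil .nil))))) (.nd (nat_lit 4) (.nd (nat_lit 5) 
(.lf (nat_lit 44617) (.g (nat_lit 3035) (.e (nat_lit 1253) (nat_lit 92) (.e (nat_lit 98365) (nat_lit 26) (.e (nat_lit 426306) (nat_lit 12) (.e (nat_lit 475184) (nat_lit 29) (.e (nat_lit 557105) (nat_lit 14) (.e (nat_lit 180278) (nat_lit 32) .nil)))))) (.g (nat_lit 6) .nil .nil))) 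
(.lf (nat_lit 44649) (.g (nat_lit 1102) (.e (nat_lit 1253) (nat_lit 92) (.e (nat_lit 98367) (nat_lit 27) (.e (nat_lit 434246) (nat_lit 28) .nil))) .nil))) (.nd (nat_lit 5) 
(.lf (nat_lit 44633) (.g (nat_lit 479) (.e (nat_lit 1253) (nat_lit 92) (.e (nat_lit 98366) (nat_lit 27) (.e (nat_lit 434188) (nat_lit 13) .nil))) .nil)) 
(.lf (nat_lit 44665) (.g (nat_lit 3041) (.e (nat_lit 1253) (nat_lit 92) (.e (nat_lit 98367) (nat_lit 27) (.e (nat_lit 434248) (nat_lit 28) (.e (nat_lit 573487) (nat_lit 14) (.e (nat_lit 73753) (nat_lit 8) (.e (nat_lit 557089) (nat_lit 12) (.e (nat_lit 164007) (nat_lit 41) (.e (nat_lit 663561) (nat_lit 0) .nil)))))))) (.g (nat_lit 4) .nil .nil)))))) 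
(.nd (nat_lit 3) (.nd (nat_lit 4) (.nd (nat_lit 5) 
(.lf (nat_lit 44613) (.g (nat_lit 3934) (.e (nat_lit 1253) (nat_lit 92) (.e (nat_lit 98365) (nat_lit 26) (.e (nat_lit 426306) (nat_lit 12) (.e (nat_lit 475183) (nat_lit 29) (.e (nat_lit 557104) (nat_lit 14) (.e (nat_lit 180278) (nat_lit 32) .nil)))))) (.g (nat_lit 0) .nil .nil))) 
(.lf (nat_lit 44645) (.g (nat_lit 2869) (.e (nat_lit 1253) (nat_lit 92) (.e (nat_lit 98367) (nat_lit 27) (.e (nat_lit 434244) (nat_lit 28) (.e (nat_lit 573488) (nat_lit 14) (.e (nat_lit 73755) (nat_lit 8) (.e (nat_lit 557090) (nat_lit 12) (.e (nat_lit 164006) (nat_lit 41) (.e (nat_lit 663561) (nat_lit 0) .nil)))))))) (.g (nat_lit 4) .nil .nil)))) (.nd (nat_lit 5) 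
(.lf (nat_lit 44629) (.g (nat_lit 3050) (.e (nat_lit 1253) (nat_lit 92) (.e (nat_lit 98365) (nat_lit 26) (.e (nat_lit 426316) (nat_lit 12) (.e (nat_lit 475185) (nat_lit 29) (.e (nat_lit 557105) (nat_lit 14) (.e (nat_lit 180278) (nat_lit 32) .nil)))))) (.g (nat_lit 6) .nil .nil))) 
(.lf (nat_lit 44661) (.g (nat_lit 2636) (.e (nat_lit 1253) (nat_lit 92) (.e (nat_lit 98367) (nat_lit 27) (.e (nat_lit 434248) (nat_lit 28) (.e (nat_lit 573482) (nat_lit 13) (.e (nat_lit 65637) (nat_lit 15) .nil))))) .nil)))) (.nd (nat_lit 4) (.nd (nat_lit 5) 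
(.lf (nat_lit 44621) (.g (nat_lit 2418) (.e (nat_lit 1253) (nat_lit 92) (.e (nat_lit 98365) (nat_lit 26) (.e (nat_lit 426315) (nat_lit 12) (.e (nat_lit 475183) (nat_lit 29) (.e (nat_lit 557104) (nat_lit 14) .nil))))) .nil)) 
(.lf (nat_lit 44653) (.g (nat_lit 3060) (.e (nat_lit 1253) (nat_lit 92) (.e (nat_lit 98367) (nat_lit 27) (.e (nat_lit 434246) (nat_lit 28) (.e (nat_lit 573489) (nat_lit 14) (.e (nat_lit 73755) (nat_lit 8) (.e (nat_lit 557090) (nat_lit 12) (.e (nat_lit 164007) (nat_lit 41) (.e (nat_lit 663561) (nat_lit 0) .nil)))))))) (.g (nat_lit 4) .nil .nil)))) (.nd (nat_lit 5) 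
(.lf (nat_lit 44637) (.g (nat_lit 2275) (.e (nat_lit 1253) (nat_lit 92) (.e (nat_lit 98367) (nat_lit 27) (.e (nat_lit 434231) (nat_lit 23) (.e (nat_lit 532513) (nat_lit 3) (.e (nat_lit 122624) (nat_lit 3) .nil))))) .nil)) 
(.lf (nat_lit 44669) (.g (nat_lit 3148) (.e (nat_lit 1253) (nat_lit 92) (.e (nat_lit 98367) (nat_lit 27) (.e (nat_lit 434248) (nat_lit 28) (.e (nat_lit 573489) (nat_lit 14) (.e (nat_lit 73755) (nat_lit 8) (.e (nat_lit 557089) (nat_lit 12) (.e (nat_lit 164010) (nat_lit 41) (.e (nat_lit 663561) (nat_lit 0) .nil)))))))) (.g (nat_lit 4) .nil .nil))))))) 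
(.nd (nat_lit 2) (.nd (nat_lit 3) (.nd (nat_lit 4) (.nd (nat_lit 5) 
(.lf (nat_lit 44611) (.g (nat_lit 3726) (.e (nat_lit 1253) (nat_lit 92) (.e (nat_lit 98365) (nat_lit 26) (.e (nat_lit 426306) (nat_lit 12) (.e (nat_lit 475183) (nat_lit 29) (.e (nat_lit 557103) (nat_lit 14) (.e (nat_lit 180278) (nat_lit 32) .nil)))))) (.g (nat_lit 6) .nil .nil))) 
(.lf (nat_lit 44643) (.g (nat_lit 2738) (.e (nat_lit 1253) (nat_lit 92) (.e (nat_lit 98367) (nat_lit 27) (.e (nat_lit 434244) (nat_lit 28) (.e (nat_lit 573487) (nat_lit 14) (.e (nat_lit 73753) (nat_lit 8) (.e (nat_lit 557090) (nat_lit 12) (.e (nat_lit 164006) (nat_lit 41) (.e (nat_lit 663561) (nat_lit 0) .nil)))))))) (.g (nat_lit 4) .nil .nil)))) (.nd (nat_lit 5) 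
(.lf (nat_lit 44627) (.g (nat_lit 3302) (.e (nat_lit 1253) (nat_lit 92) (.e (nat_lit 98365) (nat_lit 26) (.e (nat_lit 426316) (nat_lit 12) (.e (nat_lit 475185) (nat_lit 29) (.e (nat_lit 557103) (nat_lit 14) (.e (nat_lit 180278) (nat_lit 32) .nil)))))) (.g (nat_lit 0) .nil .nil))) 
(.lf (nat_lit 44659) (.g (nat_lit 2034) (.e (nat_lit 1253) (nat_lit 92) (.e (nat_lit 98367) (nat_lit 27) (.e (nat_lit 434248) (nat_lit 28) (.e (nat_lit 573480) (nat_lit 13) .nil)))) .nil)))) (.nd (nat_lit 4) (.nd (nat_lit 5) 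
(.lf (nat_lit 44619) (.g (nat_lit 3360) (.e (nat_lit 1253) (nat_lit 92) (.e (nat_lit 98365) (nat_lit 26) (.e (nat_lit 426306) (nat_lit 12) (.e (nat_lit 475185) (nat_lit 29) (.e (nat_lit 557105) (nat_lit 14) (.e (nat_lit 180278) (nat_lit 32) .nil)))))) (.g (nat_lit 0) .nil .nil))) 
(.lf (nat_lit 44651) (.g (nat_lit 2808) (.e (nat_lit 1253) (nat_lit 92) (.e (nat_lit 98367) (nat_lit 27) (.e (nat_lit 434246) (nat_lit 28) (.e (nat_lit 573489) (nat_lit 14) (.e (nat_lit 73755) (nat_lit 8) (.e (nat_lit 557089) (nat_lit 12) (.e (nat_lit 164010) (nat_lit 41) (.e (nat_lit 663561) (nat_lit 0) .nil)))))))) (.g (nat_lit 4) .nil .nil)))) (.nd (nat_lit 5) 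
(.lf (nat_lit 44635) (.g (nat_lit 2012) (.e (nat_lit 1253) (nat_lit 92) (.e (nat_lit 98367) (nat_lit 27) (.e (nat_lit 434180) (nat_lit 0) (.e (nat_lit 1235) (nat_lit 91) (.e (nat_lit 90174) (nat_lit 14) (.e (nat_lit 180277) (nat_lit 32) .nil)))))) (.g (nat_lit 4) .nil .nil))) 
(.lf (nat_lit 44667) (.g (nat_lit 2978) (.e (nat_lit 1253) (nat_lit 92) (.e (nat_lit 98367) (nat_lit 27) (.e (nat_lit 434248) (nat_lit 28) (.e (nat_lit 573489) (nat_lit 14) (.e (nat_lit 73754) (nat_lit 8) .nil))))) .nil))))) (.nd (nat_lit 3) (.nd (nat_lit 4) (.nd (nat_lit 5) 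
(.lf (nat_lit 44615) (.g (nat_lit 2008) (.e (nat_lit 1253) (nat_lit 92) (.e (nat_lit 98365) (nat_lit 26) (.e (nat_lit 426306) (nat_lit 12) (.e (nat_lit 475184) (nat_lit 29) (.e (nat_lit 557104) (nat_lit 14) (.e (nat_lit 180278) (nat_lit 32) .nil)))))) (.g (nat_lit 4) .nil .nil))) 
(.lf (nat_lit 44647) (.g (nat_lit 1102) (.e (nat_lit 1253) (nat_lit 92) (.e (nat_lit 98367) (nat_lit 27) (.e (nat_lit 434245) (nat_lit 28) .nil))) .nil))) (.nd (nat_lit 5) 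
(.lf (nat_lit 44631) (.g (nat_lit 3344) (.e (nat_lit 1253) (nat_lit 92) (.e (nat_lit 98365) (nat_lit 26) (.e (nat_lit 426342) (nat_lit 14) (.e (nat_lit 491535) (nat_lit 2) (.e (nat_lit 90172) (nat_lit 14) (.e (nat_lit 180278) (nat_lit 32) .nil)))))) (.g (nat_lit 0) .nil .nil))) 
(.lf (nat_lit 44663) (.g (nat_lit 2677) (.e (nat_lit 1253) (nat_lit 92) (.e (nat_lit 98367) (nat_lit 27) (.e (nat_lit 434248) (nat_lit 28) (.e (nat_lit 573487) (nat_lit 14) (.e (nat_lit 73746) (nat_lit 3) .nil))))) .nil)))) (.nd (nat_lit 4) (.nd (nat_lit 5) 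
(.lf (nat_lit 44623) (.g (nat_lit 2875) (.e (nat_lit 1253) (nat_lit 92) (.e (nat_lit 98365) (nat_lit 26) (.e (nat_lit 426315) (nat_lit 12) (.e (nat_lit 475184) (nat_lit 29) (.e (nat_lit 557105) (nat_lit 14) (.e (nat_lit 180277) (nat_lit 32) .nil)))))) (.g (nat_lit 6) .nil .nil))) 
(.lf (nat_lit 44655) (.g (nat_lit 3691) (.e (nat_lit 1253) (nat_lit 92) (.e (nat_lit 98367) (nat_lit 27) (.e (nat_lit 434247) (nat_lit 28) (.e (nat_lit 573489) (nat_lit 14) (.e (nat_lit 73755) (nat_lit 8) (.e (nat_lit 557089) (nat_lit 12) (.e (nat_lit 164007) (nat_lit 41) (.e (nat_lit 663561) (nat_lit 0) .nil)))))))) (.g (nat_lit 6) .nil .nil)))) (.nd (nat_lit 5) 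
(.lf (nat_lit 44639) (.g (nat_lit 1816) (.e (nat_lit 1253) (nat_lit 92) (.e (nat_lit 98367) (nat_lit 27) (.e (nat_lit 434231) (nat_lit 23) (.e (nat_lit 532514) (nat_lit 3) (.e (nat_lit 122624) (nat_lit 3) .nil))))) .nil)) 
(.lf (nat_lit 44671) (.g (nat_lit 3417) (.e (nat_lit 1253) (nat_lit 92) (.e (nat_lit 98367) (nat_lit 27) (.e (nat_lit 434248) (nat_lit 28) (.e (nat_lit 573489) (nat_lit 14) (.e (nat_lit 73755) (nat_lit 8) (.e (nat_lit 557090) (nat_lit 12) (.e (nat_lit 164012) (nat_lit 42) (.e (nat_lit 671752) (nat_lit 0) .nil)))))))) (.g (nat_lit 4) .nil .nil)))))))))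

noncomputable def tv620 : DT := (.nd (nat_lit 0) (.nd (nat_lit 1) (.nd (nat_lit 2) (.nd (nat_lit 3) (.nd (nat_lit 4) (.nd (nat_lit 5) (.nd (nat_lit 6) 
(.lf (nat_lit 44672) (.g (nat_lit 3261) (.e (nat_lit 1253) (nat_lit 92) (.e (nat_lit 98367) (nat_lit 27) (.e (nat_lit 434248) (nat_lit 28) (.e (nat_lit 573489) (nat_lit 14) (.e (nat_lit 73755) (nat_lit 8) (.e (nat_lit 557091) (nat_lit 12) (.e (nat_lit 164006) (nat_lit 41) (.e (nat_lit 663561) (nat_lit 0) .nil)))))))) (.g (nat_lit 4) .nil .nil))) 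
(.lf (nat_lit 44736) (.g (nat_lit 2064) (.e (nat_lit 1253) (nat_lit 92) (.e (nat_lit 98372) (nat_lit 29) (.e (nat_lit 450579) (nat_lit 5) (.e (nat_lit 532563) (nat_lit 15) (.e (nat_lit 385087) (nat_lit 46) .nil))))) .nil))) (.nd (nat_lit 6) 
(.lf (nat_lit 44704) (.g (nat_lit 1161) (.e (nat_lit 1253) (nat_lit 92) (.e (nat_lit 98372) (nat_lit 29) (.e (nat_lit 450579) (nat_lit 5) (.e (nat_lit 532482) (nat_lit 0) .nil)))) .nil)) 
(.lf (nat_lit 44768) (.g (nat_lit 2722) (.e (nat_lit 1253) (nat_lit 92) (.e (nat_lit 98373) (nat_lit 29) (.e (nat_lit 450561) (nat_lit 0) (.e (nat_lit 6595) (nat_lit 351) .nil)))) .nil)))) (.nd (nat_lit 5) (.nd (nat_lit 6) 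
(.lf (nat_lit 44688) (.g (nat_lit 2075) (.e (nat_lit 1253) (nat_lit 92) (.e (nat_lit 98370) (nat_lit 28) (.e (nat_lit 442424) (nat_lit 22) (.e (nat_lit 196628) (nat_lit 9) (.e (nat_lit 968) (nat_lit 81) .nil))))) .nil)) 
(.lf (nat_lit 44752) (.g (nat_lit 2149) (.e (nat_lit 1253) (nat_lit 92) (.e (nat_lit 98373) (nat_lit 29) (.e (nat_lit 450560) (nat_lit 0) (.e (nat_lit 3916) (nat_lit 239) (.e (nat_lit 2637) (nat_lit 165) .nil))))) .nil))) (.nd (nat_lit 6) 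
(.lf (nat_lit 44720) (.g (nat_lit 1905) (.e (nat_lit 1253) (nat_lit 92) (.e (nat_lit 98372) (nat_lit 29) (.e (nat_lit 450579) (nat_lit 5) (.e (nat_lit 532525) (nat_lit 8) (.e (nat_lit 327705) (nat_lit 10) .nil))))) .nil)) 
(.lf (nat_lit 44784) (.g (nat_lit 4371) (.e (nat_lit 1253) (nat_lit 92) (.e (nat_lit 98373) (nat_lit 29) (.e (nat_lit 450562) (nat_lit 0) (.e (nat_lit 6416) (nat_lit 341) (.e (nat_lit 163885) (nat_lit 5) (.e (nat_lit 221219) (nat_lit 24) (.e (nat_lit 212992) (nat_lit 0) .nil))))))) (.g (nat_lit 5) .nil .nil)))))) (.nd (nat_lit 4) (.nd (nat_lit 5) (.nd (nat_lit 6) 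
(.lf (nat_lit 44680) (.g (nat_lit 2977) (.e (nat_lit 1253) (nat_lit 92) (.e (nat_lit 98370) (nat_lit 28) (.e (nat_lit 442374) (nat_lit 0) (.e (nat_lit 1856) (nat_lit 124) (.e (nat_lit 557105) (nat_lit 14) (.e (nat_lit 180278) (nat_lit 32) .nil)))))) (.g (nat_lit 0) .nil .nil))) 
(.lf (nat_lit 44744) (.g (nat_lit 3438) (.e (nat_lit 1253) (nat_lit 92) (.e (nat_lit 98372) (nat_lit 29) (.e (nat_lit 450586) (nat_lit 10) (.e (nat_lit 573471) (nat_lit 11) (.e (nat_lit 16392) (nat_lit 0) (.e (nat_lit 7555) (nat_lit 402) .nil)))))) (.g (nat_lit 5) .nil .nil)))) (.nd (nat_lit 6) 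
(.lf (nat_lit 44712) (.g (nat_lit 2559) (.e (nat_lit 1253) (nat_lit 92) (.e (nat_lit 98372) (nat_lit 29) (.e (nat_lit 450579) (nat_lit 5) (.e (nat_lit 532501) (nat_lit 1) (.e (nat_lit 57758) (nat_lit 215) (.e (nat_lit 2608) (nat_lit 163) (.e (nat_lit 164239) (nat_lit 187) .nil))))))) (.g (nat_lit 4) .nil .nil))) 
(.lf (nat_lit 44776) (.g (nat_lit 2911) (.e (nat_lit 1253) (nat_lit 92) (.e (nat_lit 98373) (nat_lit 29) (.e (nat_lit 450562) (nat_lit 0) (.e (nat_lit 7936) (nat_lit 244) .nil)))) .nil)))) (.nd (nat_lit 5) (.nd (nat_lit 6) 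
(.lf (nat_lit 44696) (.g (nat_lit 584) (.e (nat_lit 1253) (nat_lit 92) (.e (nat_lit 98372) (nat_lit 29) (.e (nat_lit 450576) (nat_lit 2) (.e (nat_lit 507930) (nat_lit 10) .nil)))) .nil)) 
(.lf (nat_lit 44760) (.g (nat_lit 2120) (.e (nat_lit 1253) (nat_lit 92) (.e (nat_lit 98373) (nat_lit 29) (.e (nat_lit 450560) (nat_lit 0) (.e (nat_lit 3987) (nat_lit 239) .nil)))) .nil))) (.nd (nat_lit 6) 
(.lf (nat_lit 44728) (.g (nat_lit 1190) (.e (nat_lit 1253) (nat_lit 92) (.e (nat_lit 98372) (nat_lit 29) (.e (nat_lit 450579) (nat_lit 5) (.e (nat_lit 532530) (nat_lit 9) .nil)))) .nil)) 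
(.lf (nat_lit 44792) (.g (nat_lit 3628) (.e (nat_lit 1253) (nat_lit 92) (.e (nat_lit 98373) (nat_lit 29) (.e (nat_lit 450563) (nat_lit 0) (.e (nat_lit 3948) (nat_lit 239) (.e (nat_lit 7936) (nat_lit 165) .nil))))) .nil)))))) (.nd (nat_lit 3) (.nd (nat_lit 4) (.nd (nat_lit 5) (.nd (nat_lit 6) 
(.lf (nat_lit 44676) (.g (nat_lit 2534) (.e (nat_lit 1253) (nat_lit 92) (.e (nat_lit 98369) (nat_lit 28) (.e (nat_lit 442374) (nat_lit 0) (.e (nat_lit 1846) (nat_lit 124) (.e (nat_lit 557104) (nat_lit 14) (.e (nat_lit 180278) (nat_lit 32) .nil)))))) (.g (nat_lit 6) .nil .nil))) 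
(.lf (nat_lit 44740) (.g (nat_lit 1166) (.e (nat_lit 1253) (nat_lit 92) (.e (nat_lit 98372) (nat_lit 29) (.e (nat_lit 450583) (nat_lit 7) (.e (nat_lit 548913) (nat_lit 18) .nil)))) .nil))) (.nd (nat_lit 6) 
(.lf (nat_lit 44708) (.g (nat_lit 1947) (.e (nat_lit 1253) (nat_lit 92) (.e (nat_lit 98372) (nat_lit 29) (.e (nat_lit 450579) (nat_lit 5) (.e (nat_lit 532486) (nat_lit 0) (.e (nat_lit 6218) (nat_lit 333) (.e (nat_lit 57890) (nat_lit 270) .nil)))))) (.g (nat_lit 4) .nil .nil))) 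
(.lf (nat_lit 44772) (.g (nat_lit 3529) (.e (nat_lit 1253) (nat_lit 92) (.e (nat_lit 98373) (nat_lit 29) (.e (nat_lit 450562) (nat_lit 0) (.e (nat_lit 3955) (nat_lit 239) .nil)))) .nil)))) (.nd (nat_lit 5) (.nd (nat_lit 6) 
(.lf (nat_lit 44692) (.g (nat_lit 1726) (.e (nat_lit 1253) (nat_lit 92) (.e (nat_lit 98370) (nat_lit 28) (.e (nat_lit 442424) (nat_lit 22) (.e (nat_lit 196677) (nat_lit 16) .nil)))) .nil)) 
(.lf (nat_lit 44756) (.g (nat_lit 2148) (.e (nat_lit 1253) (nat_lit 92) (.e (nat_lit 98373) (nat_lit 29) (.e (nat_lit 450560) (nat_lit 0) (.e (nat_lit 3952) (nat_lit 239) (.e (nat_lit 2637) (nat_lit 165) .nil))))) .nil))) (.nd (nat_lit 6) 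
(.lf (nat_lit 44724) (.g (nat_lit 1632) (.e (nat_lit 1253) (nat_lit 92) (.e (nat_lit 98372) (nat_lit 29) (.e (nat_lit 450579) (nat_lit 5) (.e (nat_lit 532526) (nat_lit 8) (.e (nat_lit 327703) (nat_lit 10) (.e (nat_lit 5351) (nat_lit 298) .nil)))))) (.g (nat_lit 4) .nil .nil))) 
(.lf (nat_lit 44788) (.g (nat_lit 462) (.e (nat_lit 1253) (nat_lit 92) (.e (nat_lit 98373) (nat_lit 29) (.e (nat_lit 450563) (nat_lit 0) .nil))) .nil))))) (.nd (nat_lit 4) (.nd (nat_lit 5) (.nd (nat_lit 6) 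
(.lf (nat_lit 44684) (.g (nat_lit 1096) (.e (nat_lit 1253) (nat_lit 92) (.e (nat_lit 98370) (nat_lit 28) (.e (nat_lit 442378) (nat_lit 0) (.e (nat_lit 1855) (nat_lit 124) .nil)))) .nil)) 
(.lf (nat_lit 44748) (.g (nat_lit 1819) (.e (nat_lit 1253) (nat_lit 92) (.e (nat_lit 98372) (nat_lit 29) (.e (nat_lit 450588) (nat_lit 10) (.e (nat_lit 573471) (nat_lit 11) .nil)))) .nil))) (.nd (nat_lit 6) 
(.lf (nat_lit 44716) (.g (nat_lit 2785) (.e (nat_lit 1253) (nat_lit 92) (.e (nat_lit 98372) (nat_lit 29) (.e (nat_lit 450579) (nat_lit 5) (.e (nat_lit 532523) (nat_lit 7) (.e (nat_lit 319504) (nat_lit 10) (.e (nat_lit 5351) (nat_lit 298) .nil)))))) (.g (nat_lit 5) .nil .nil))) 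
(.lf (nat_lit 44780) (.g (nat_lit 3340) (.e (nat_lit 1253) (nat_lit 92) (.e (nat_lit 98373) (nat_lit 29) (.e (nat_lit 450562) (nat_lit 0) (.e (nat_lit 4290) (nat_lit 254) .nil)))) .nil)))) (.nd (nat_lit 5) (.nd (nat_lit 6) 
(.lf (nat_lit 44700) (.g (nat_lit 2215) (.e (nat_lit 1253) (nat_lit 92) (.e (nat_lit 98372) (nat_lit 29) (.e (nat_lit 450579) (nat_lit 5) (.e (nat_lit 532480) (nat_lit 0) (.e (nat_lit 6218) (nat_lit 333) (.e (nat_lit 57891) (nat_lit 270) .nil)))))) (.g (nat_lit 5) .nil .nil))) 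
(.lf (nat_lit 44764) (.g (nat_lit 2724) (.e (nat_lit 1253) (nat_lit 92) (.e (nat_lit 98373) (nat_lit 29) (.e (nat_lit 450561) (nat_lit 0) (.e (nat_lit 3955) (nat_lit 239) .nil)))) .nil))) (.nd (nat_lit 6) 
(.lf (nat_lit 44732) (.g (nat_lit 2199) (.e (nat_lit 1253) (nat_lit 92) (.e (nat_lit 98372) (nat_lit 29) (.e (nat_lit 450579) (nat_lit 5) (.e (nat_lit 532534) (nat_lit 9) (.e (nat_lit 336240) (nat_lit 15) .nil))))) .nil)) 
(.lf (nat_lit 44796) (.g (nat_lit 3408) (.e (nat_lit 1253) (nat_lit 92) (.e (nat_lit 98373) (nat_lit 29) (.e (nat_lit 450563) (nat_lit 0) (.e (nat_lit 3968) (nat_lit 239) .nil)))) .nil))))))) (.nd (nat_lit 2) (.nd (nat_lit 3) (.nd (nat_lit 4) (.nd (nat_lit 5) (.nd (nat_lit 6) 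
(.lf (nat_lit 44674) (.g (nat_lit 1093) (.e (nat_lit 1253) (nat_lit 92) (.e (nat_lit 98367) (nat_lit 27) (.e (nat_lit 434258) (nat_lit 32) .nil))) .nil)) 
(.lf (nat_lit 44738) (.g (nat_lit 2076) (.e (nat_lit 1253) (nat_lit 92) (.e (nat_lit 98372) (nat_lit 29) (.e (nat_lit 450579) (nat_lit 5) (.e (nat_lit 532567) (nat_lit 16) (.e (nat_lit 401416) (nat_lit 0) (.e (nat_lit 7556) (nat_lit 402) .nil)))))) (.g (nat_lit 4) .nil .nil)))) (.nd (nat_lit 6) 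
(.lf (nat_lit 44706) (.g (nat_lit 1804) (.e (nat_lit 1253) (nat_lit 92) (.e (nat_lit 98372) (nat_lit 29) (.e (nat_lit 450579) (nat_lit 5) (.e (nat_lit 532482) (nat_lit 0) (.e (nat_lit 6714) (nat_lit 360) .nil))))) .nil)) 
(.lf (nat_lit 44770) (.g (nat_lit 3540) (.e (nat_lit 1253) (nat_lit 92) (.e (nat_lit 98373) (nat_lit 29) (.e (nat_lit 450562) (nat_lit 0) (.e (nat_lit 3919) (nat_lit 239) .nil)))) .nil)))) (.nd (nat_lit 5) (.nd (nat_lit 6) 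
(.lf (nat_lit 44690) (.g (nat_lit 2058) (.e (nat_lit 1253) (nat_lit 92) (.e (nat_lit 98370) (nat_lit 28) (.e (nat_lit 442424) (nat_lit 22) (.e (nat_lit 196628) (nat_lit 9) (.e (nat_lit 970) (nat_lit 81) .nil))))) .nil)) 
(.lf (nat_lit 44754) (.g (nat_lit 2120) (.e (nat_lit 1253) (nat_lit 92) (.e (nat_lit 98373) (nat_lit 29) (.e (nat_lit 450560) (nat_lit 0) (.e (nat_lit 3934) (nat_lit 239) .nil)))) .nil))) (.nd (nat_lit 6) 
(.lf (nat_lit 44722) (.g (nat_lit 1761) (.e (nat_lit 1253) (nat_lit 92) (.e (nat_lit 98372) (nat_lit 29) (.e (nat_lit 450579) (nat_lit 5) (.e (nat_lit 532526) (nat_lit 8) (.e (nat_lit 327702) (nat_lit 10) (.e (nat_lit 5351) (nat_lit 298) .nil)))))) (.g (nat_lit 4) .nil .nil))) 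
(.lf (nat_lit 44786) (.g (nat_lit 3424) (.e (nat_lit 1253) (nat_lit 92) (.e (nat_lit 98373) (nat_lit 29) (.e (nat_lit 450562) (nat_lit 0) (.e (nat_lit 6420) (nat_lit 341) .nil)))) .nil))))) (.nd (nat_lit 4) (.nd (nat_lit 5) (.nd (nat_lit 6) 
(.lf (nat_lit 44682) (.g (nat_lit 1943) (.e (nat_lit 1253) (nat_lit 92) (.e (nat_lit 98370) (nat_lit 28) (.e (nat_lit 442377) (nat_lit 0) (.e (nat_lit 1856) (nat_lit 124) (.e (nat_lit 557103) (nat_lit 14) (.e (nat_lit 180278) (nat_lit 32) .nil)))))) (.g (nat_lit 4) .nil .nil))) 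
(.lf (nat_lit 44746) (.g (nat_lit 3434) (.e (nat_lit 1253) (nat_lit 92) (.e (nat_lit 98372) (nat_lit 29) (.e (nat_lit 450588) (nat_lit 10) (.e (nat_lit 573450) (nat_lit 9) (.e (nat_lit 442) (nat_lit 33) .nil))))) .nil))) (.nd (nat_lit 6) 
(.lf (nat_lit 44714) (.g (nat_lit 2112) (.e (nat_lit 1253) (nat_lit 92) (.e (nat_lit 98372) (nat_lit 29) (.e (nat_lit 450579) (nat_lit 5) (.e (nat_lit 532504) (nat_lit 1) (.e (nat_lit 57758) (nat_lit 215) (.e (nat_lit 2608) (nat_lit 163) (.e (nat_lit 164239) (nat_lit 187) .nil))))))) (.g (nat_lit 4) .nil .nil))) 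
(.lf (nat_lit 44778) (.g (nat_lit 2918) (.e (nat_lit 1253) (nat_lit 92) (.e (nat_lit 98373) (nat_lit 29) (.e (nat_lit 450562) (nat_lit 0) (.e (nat_lit 4284) (nat_lit 253) .nil)))) .nil)))) (.nd (nat_lit 5) (.nd (nat_lit 6) 
(.lf (nat_lit 44698) (.g (nat_lit 1175) (.e (nat_lit 1253) (nat_lit 92) (.e (nat_lit 98372) (nat_lit 29) (.e (nat_lit 450579) (nat_lit 5) (.e (nat_lit 532480) (nat_lit 0) .nil)))) .nil)) 
(.lf (nat_lit 44762) (.g (nat_lit 935) (.e (nat_lit 1253) (nat_lit 92) (.e (nat_lit 98373) (nat_lit 29) (.e (nat_lit 450561) (nat_lit 0) .nil))) .nil))) (.nd (nat_lit 6) 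
(.lf (nat_lit 44730) (.g (nat_lit 2158) (.e (nat_lit 1253) (nat_lit 92) (.e (nat_lit 98372) (nat_lit 29) (.e (nat_lit 450579) (nat_lit 5) (.e (nat_lit 532530) (nat_lit 9) (.e (nat_lit 336257) (nat_lit 15) (.e (nat_lit 3593) (nat_lit 224) (.e (nat_lit 753698) (nat_lit 13) .nil))))))) (.g (nat_lit 4) .nil .nil))) 
(.lf (nat_lit 44794) (.g (nat_lit 3464) (.e (nat_lit 1253) (nat_lit 92) (.e (nat_lit 98373) (nat_lit 29) (.e (nat_lit 450563) (nat_lit 0) (.e (nat_lit 3963) (nat_lit 239) .nil)))) .nil)))))) (.nd (nat_lit 3) (.nd (nat_lit 4) (.nd (nat_lit 5) (.nd (nat_lit 6) 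
(.lf (nat_lit 44678) (.g (nat_lit 2739) (.e (nat_lit 1253) (nat_lit 92) (.e (nat_lit 98370) (nat_lit 28) (.e (nat_lit 442373) (nat_lit 0) (.e (nat_lit 1853) (nat_lit 124) (.e (nat_lit 557103) (nat_lit 14) (.e (nat_lit 180278) (nat_lit 32) .nil)))))) (.g (nat_lit 6) .nil .nil))) 
(.lf (nat_lit 44742) (.g (nat_lit 1041) (.e (nat_lit 1253) (nat_lit 92) (.e (nat_lit 98372) (nat_lit 29) (.e (nat_lit 450586) (nat_lit 10) (.e (nat_lit 573454) (nat_lit 9) .nil)))) .nil))) (.nd (nat_lit 6) 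
(.lf (nat_lit 44710) (.g (nat_lit 932) (.e (nat_lit 1253) (nat_lit 92) (.e (nat_lit 98372) (nat_lit 29) (.e (nat_lit 450579) (nat_lit 5) (.e (nat_lit 540416) (nat_lit 0) .nil)))) .nil)) 
(.lf (nat_lit 44774) (.g (nat_lit 3555) (.e (nat_lit 1253) (nat_lit 92) (.e (nat_lit 98373) (nat_lit 29) (.e (nat_lit 450562) (nat_lit 0) (.e (nat_lit 3968) (nat_lit 239) .nil)))) .nil)))) (.nd (nat_lit 5) (.nd (nat_lit 6) 
(.lf (nat_lit 44694) (.g (nat_lit 1104) (.e (nat_lit 1253) (nat_lit 92) (.e (nat_lit 98372) (nat_lit 29) (.e (nat_lit 450568) (nat_lit 0) (.e (nat_lit 3978) (nat_lit 239) .nil)))) .nil)) 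
(.lf (nat_lit 44758) (.g (nat_lit 2120) (.e (nat_lit 1253) (nat_lit 92) (.e (nat_lit 98373) (nat_lit 29) (.e (nat_lit 450560) (nat_lit 0) (.e (nat_lit 3960) (nat_lit 239) .nil)))) .nil))) (.nd (nat_lit 6) 
(.lf (nat_lit 44726) (.g (nat_lit 2372) (.e (nat_lit 1253) (nat_lit 92) (.e (nat_lit 98372) (nat_lit 29) (.e (nat_lit 450579) (nat_lit 5) (.e (nat_lit 532526) (nat_lit 8) (.e (nat_lit 327706) (nat_lit 10) (.e (nat_lit 5367) (nat_lit 298) .nil)))))) (.g (nat_lit 5) .nil .nil))) 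
(.lf (nat_lit 44790) (.g (nat_lit 3464) (.e (nat_lit 1253) (nat_lit 92) (.e (nat_lit 98373) (nat_lit 29) (.e (nat_lit 450563) (nat_lit 0) (.e (nat_lit 3921) (nat_lit 239) .nil)))) .nil))))) (.nd (nat_lit 4) (.nd (nat_lit 5) (.nd (nat_lit 6) 
(.lf (nat_lit 44686) (.g (nat_lit 670) (.e (nat_lit 1253) (nat_lit 92) (.e (nat_lit 98370) (nat_lit 28) (.e (nat_lit 442412) (nat_lit 20) .nil))) .nil)) 
(.lf (nat_lit 44750) (.g (nat_lit 750) (.e (nat_lit 1253) (nat_lit 92) (.e (nat_lit 98373) (nat_lit 29) (.e (nat_lit 450560) (nat_lit 0) .nil))) .nil))) (.nd (nat_lit 6) 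
(.lf (nat_lit 44718) (.g (nat_lit 3203) (.e (nat_lit 1253) (nat_lit 92) (.e (nat_lit 98372) (nat_lit 29) (.e (nat_lit 450579) (nat_lit 5) (.e (nat_lit 532523) (nat_lit 7) (.e (nat_lit 319506) (nat_lit 10) .nil))))) .nil)) 
(.lf (nat_lit 44782) (.g (nat_lit 2837) (.e (nat_lit 1253) (nat_lit 92) (.e (nat_lit 98373) (nat_lit 29) (.e (nat_lit 450562) (nat_lit 0) (.e (nat_lit 6416) (nat_lit 341) .nil)))) .nil)))) (.nd (nat_lit 5) (.nd (nat_lit 6) 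
(.lf (nat_lit 44702) (.g (nat_lit 3170) (.e (nat_lit 1253) (nat_lit 92) (.e (nat_lit 98372) (nat_lit 29) (.e (nat_lit 450579) (nat_lit 5) (.e (nat_lit 532481) (nat_lit 0) (.e (nat_lit 6712) (nat_lit 360) (.e (nat_lit 164238) (nat_lit 187) .nil)))))) (.g (nat_lit 5) .nil .nil))) 
(.lf (nat_lit 44766) (.g (nat_lit 2977) (.e (nat_lit 1253) (nat_lit 92) (.e (nat_lit 98373) (nat_lit 29) (.e (nat_lit 450561) (nat_lit 0) (.e (nat_lit 6416) (nat_lit 341) (.e (nat_lit 163885) (nat_lit 5) .nil))))) .nil))) (.nd (nat_lit 6) 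
(.lf (nat_lit 44734) (.g (nat_lit 1236) (.e (nat_lit 1253) (nat_lit 92) (.e (nat_lit 98372) (nat_lit 29) (.e (nat_lit 450579) (nat_lit 5) (.e (nat_lit 532553) (nat_lit 13) .nil)))) .nil)) 
(.lf (nat_lit 44798) (.g (nat_lit 3464) (.e (nat_lit 1253) (nat_lit 92) (.e (nat_lit 98373) (nat_lit 29) (.e (nat_lit 450563) (nat_lit 0) (.e (nat_lit 4015) (nat_lit 244) .nil)))) .nil)))))))) (.nd (nat_lit 1) (.nd (nat_lit 2) (.nd (nat_lit 3) (.nd (nat_lit 4) (.nd (nat_lit 5) (.nd (nat_lit 6) 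
(.lf (nat_lit 44673) (.g (nat_lit 1119) (.e (nat_lit 1253) (nat_lit 92) (.e (nat_lit 98367) (nat_lit 27) (.e (nat_lit 434253) (nat_lit 30) .nil))) .nil)) 
(.lf (nat_lit 44737) (.g (nat_lit 1115) (.e (nat_lit 1253) (nat_lit 92) (.e (nat_lit 98372) (nat_lit 29) (.e (nat_lit 450579) (nat_lit 5) (.e (nat_lit 532566) (nat_lit 15) .nil)))) .nil))) (.nd (nat_lit 6) 
(.lf (nat_lit 44705) (.g (nat_lit 2531) (.e (nat_lit 1253) (nat_lit 92) (.e (nat_lit 98372) (nat_lit 29) (.e (nat_lit 450579) (nat_lit 5) (.e (nat_lit 532482) (nat_lit 0) (.e (nat_lit 6712) (nat_lit 360) (.e (nat_lit 164238) (nat_lit 187) .nil)))))) (.g (nat_lit 5) .nil .nil))) 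
(.lf (nat_lit 44769) (.g (nat_lit 454) (.e (nat_lit 1253) (nat_lit 92) (.e (nat_lit 98373) (nat_lit 29) (.e (nat_lit 450562) (nat_lit 0) .nil))) .nil)))) (.nd (nat_lit 5) (.nd (nat_lit 6) 
(.lf (nat_lit 44689) (.g (nat_lit 2560) (.e (nat_lit 1253) (nat_lit 92) (.e (nat_lit 98370) (nat_lit 28) (.e (nat_lit 442424) (nat_lit 22) (.e (nat_lit 196628) (nat_lit 9) (.e (nat_lit 968) (nat_lit 81) (.e (nat_lit 6713) (nat_lit 360) (.e (nat_lit 164239) (nat_lit 187) .nil))))))) (.g (nat_lit 4) .nil .nil))) 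
(.lf (nat_lit 44753) (.g (nat_lit 2120) (.e (nat_lit 1253) (nat_lit 92) (.e (nat_lit 98373) (nat_lit 29) (.e (nat_lit 450560) (nat_lit 0) (.e (nat_lit 3932) (nat_lit 239) .nil)))) .nil))) (.nd (nat_lit 6) 
(.lf (nat_lit 44721) (.g (nat_lit 1119) (.e (nat_lit 1253) (nat_lit 92) (.e (nat_lit 98372) (nat_lit 29) (.e (nat_lit 450579) (nat_lit 5) (.e (nat_lit 532526) (nat_lit 8) .nil)))) .nil)) 
(.lf (nat_lit 44785) (.g (nat_lit 2966) (.e (nat_lit 1253) (nat_lit 92) (.e (nat_lit 98373) (nat_lit 29) (.e (nat_lit 450562) (nat_lit 0) (.e (nat_lit 6418) (nat_lit 341) .nil)))) .nil))))) (.nd (nat_lit 4) (.nd (nat_lit 5) (.nd (nat_lit 6) 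
(.lf (nat_lit 44681) (.g (nat_lit 1703) (.e (nat_lit 1253) (nat_lit 92) (.e (nat_lit 98370) (nat_lit 28) (.e (nat_lit 442377) (nat_lit 0) (.e (nat_lit 1855) (nat_lit 124) (.e (nat_lit 557105) (nat_lit 14) (.e (nat_lit 180277) (nat_lit 32) .nil)))))) (.g (nat_lit 4) .nil .nil))) 
(.lf (nat_lit 44745) (.g (nat_lit 2636) (.e (nat_lit 1253) (nat_lit 92) (.e (nat_lit 98372) (nat_lit 29) (.e (nat_lit 450586) (nat_lit 10) (.e (nat_lit 573471) (nat_lit 11) (.e (nat_lit 16396) (nat_lit 0) (.e (nat_lit 7554) (nat_lit 402) .nil)))))) (.g (nat_lit 0) .nil .nil)))) (.nd (nat_lit 6) 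
(.lf (nat_lit 44713) (.g (nat_lit 1826) (.e (nat_lit 1253) (nat_lit 92) (.e (nat_lit 98372) (nat_lit 29) (.e (nat_lit 450579) (nat_lit 5) (.e (nat_lit 532504) (nat_lit 1) (.e (nat_lit 57758) (nat_lit 215) .nil))))) .nil)) 
(.lf (nat_lit 44777) (.g (nat_lit 3555) (.e (nat_lit 1253) (nat_lit 92) (.e (nat_lit 98373) (nat_lit 29) (.e (nat_lit 450562) (nat_lit 0) (.e (nat_lit 4168) (nat_lit 251) .nil)))) .nil)))) (.nd (nat_lit 5) (.nd (nat_lit 6) 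
(.lf (nat_lit 44697) (.g (nat_lit 313) (.e (nat_lit 1253) (nat_lit 92) (.e (nat_lit 98372) (nat_lit 29) (.e (nat_lit 450579) (nat_lit 5) .nil))) .nil)) 
(.lf (nat_lit 44761) (.g (nat_lit 2120) (.e (nat_lit 1253) (nat_lit 92) (.e (nat_lit 98373) (nat_lit 29) (.e (nat_lit 450560) (nat_lit 0) (.e (nat_lit 7936) (nat_lit 239) .nil)))) .nil))) (.nd (nat_lit 6) 
(.lf (nat_lit 44729) (.g (nat_lit 2072) (.e (nat_lit 1253) (nat_lit 92) (.e (nat_lit 98372) (nat_lit 29) (.e (nat_lit 450579) (nat_lit 5) (.e (nat_lit 532530) (nat_lit 9) (.e (nat_lit 336240) (nat_lit 15) .nil))))) .nil)) 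
(.lf (nat_lit 44793) (.g (nat_lit 3405) (.e (nat_lit 1253) (nat_lit 92) (.e (nat_lit 98373) (nat_lit 29) (.e (nat_lit 450563) (nat_lit 0) (.e (nat_lit 3955) (nat_lit 239) .nil)))) .nil)))))) (.nd (nat_lit 3) (.nd (nat_lit 4) (.nd (nat_lit 5) (.nd (nat_lit 6) 
(.lf (nat_lit 44677) (.g (nat_lit 1914) (.e (nat_lit 1253) (nat_lit 92) (.e (nat_lit 98370) (nat_lit 28) (.e (nat_lit 442368) (nat_lit 0) (.e (nat_lit 1863) (nat_lit 124) (.e (nat_lit 557104) (nat_lit 14) (.e (nat_lit 180278) (nat_lit 32) .nil)))))) (.g (nat_lit 4) .nil .nil))) 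
(.lf (nat_lit 44741) (.g (nat_lit 2461) (.e (nat_lit 1253) (nat_lit 92) (.e (nat_lit 98372) (nat_lit 29) (.e (nat_lit 450583) (nat_lit 7) (.e (nat_lit 548913) (nat_lit 18) (.e (nat_lit 172033) (nat_lit 0) .nil))))) .nil))) (.nd (nat_lit 6) 
(.lf (nat_lit 44709) (.g (nat_lit 1595) (.e (nat_lit 1253) (nat_lit 92) (.e (nat_lit 98372) (nat_lit 29) (.e (nat_lit 450579) (nat_lit 5) (.e (nat_lit 532497) (nat_lit 0) .nil)))) .nil)) 
(.lf (nat_lit 44773) (.g (nat_lit 3555) (.e (nat_lit 1253) (nat_lit 92) (.e (nat_lit 98373) (nat_lit 29) (.e (nat_lit 450562) (nat_lit 0) (.e (nat_lit 3963) (nat_lit 239) .nil)))) .nil)))) (.nd (nat_lit 5) (.nd (nat_lit 6) 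
(.lf (nat_lit 44693) (.g (nat_lit 1404) (.e (nat_lit 1253) (nat_lit 92) (.e (nat_lit 98372) (nat_lit 29) (.e (nat_lit 450564) (nat_lit 0) (.e (nat_lit 3944) (nat_lit 239) (.e (nat_lit 2637) (nat_lit 165) .nil))))) .nil)) 
(.lf (nat_lit 44757) (.g (nat_lit 2120) (.e (nat_lit 1253) (nat_lit 92) (.e (nat_lit 98373) (nat_lit 29) (.e (nat_lit 450560) (nat_lit 0) (.e (nat_lit 3958) (nat_lit 239) .nil)))) .nil))) (.nd (nat_lit 6) 
(.lf (nat_lit 44725) (.g (nat_lit 1827) (.e (nat_lit 1253) (nat_lit 92) (.e (nat_lit 98372) (nat_lit 29) (.e (nat_lit 450579) (nat_lit 5) (.e (nat_lit 532526) (nat_lit 8) (.e (nat_lit 327706) (nat_lit 10) .nil))))) .nil)) 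
(.lf (nat_lit 44789) (.g (nat_lit 3433) (.e (nat_lit 1253) (nat_lit 92) (.e (nat_lit 98373) (nat_lit 29) (.e (nat_lit 450563) (nat_lit 0) (.e (nat_lit 3919) (nat_lit 239) (.e (nat_lit 7936) (nat_lit 165) .nil))))) .nil))))) (.nd (nat_lit 4) (.nd (nat_lit 5) (.nd (nat_lit 6) 
(.lf (nat_lit 44685) (.g (nat_lit 1715) (.e (nat_lit 1253) (nat_lit 92) (.e (nat_lit 98370) (nat_lit 28) (.e (nat_lit 442378) (nat_lit 0) (.e (nat_lit 1856) (nat_lit 124) (.e (nat_lit 557105) (nat_lit 14) .nil))))) .nil)) 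
(.lf (nat_lit 44749) (.g (nat_lit 4156) (.e (nat_lit 1253) (nat_lit 92) (.e (nat_lit 98372) (nat_lit 29) (.e (nat_lit 450588) (nat_lit 10) (.e (nat_lit 573471) (nat_lit 11) (.e (nat_lit 16392) (nat_lit 0) (.e (nat_lit 7537) (nat_lit 402) .nil)))))) (.g (nat_lit 4) .nil .nil)))) (.nd (nat_lit 6) 
(.lf (nat_lit 44717) (.g (nat_lit 2537) (.e (nat_lit 1253) (nat_lit 92) (.e (nat_lit 98372) (nat_lit 29) (.e (nat_lit 450579) (nat_lit 5) (.e (nat_lit 532523) (nat_lit 7) (.e (nat_lit 319505) (nat_lit 10) (.e (nat_lit 5351) (nat_lit 298) .nil)))))) (.g (nat_lit 4) .nil .nil))) 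
(.lf (nat_lit 44781) (.g (nat_lit 3555) (.e (nat_lit 1253) (nat_lit 92) (.e (nat_lit 98373) (nat_lit 29) (.e (nat_lit 450562) (nat_lit 0) (.e (nat_lit 4291) (nat_lit 254) .nil)))) .nil)))) (.nd (nat_lit 5) (.nd (nat_lit 6) 
(.lf (nat_lit 44701) (.g (nat_lit 2097) (.e (nat_lit 1253) (nat_lit 92) (.e (nat_lit 98372) (nat_lit 29) (.e (nat_lit 450579) (nat_lit 5) (.e (nat_lit 532481) (nat_lit 0) (.e (nat_lit 6712) (nat_lit 360) .nil))))) .nil)) 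
(.lf (nat_lit 44765) (.g (nat_lit 2585) (.e (nat_lit 1253) (nat_lit 92) (.e (nat_lit 98373) (nat_lit 29) (.e (nat_lit 450561) (nat_lit 0) (.e (nat_lit 6416) (nat_lit 341) .nil)))) .nil))) (.nd (nat_lit 6) 
(.lf (nat_lit 44733) (.g (nat_lit 2009) (.e (nat_lit 1253) (nat_lit 92) (.e (nat_lit 98372) (nat_lit 29) (.e (nat_lit 450579) (nat_lit 5) (.e (nat_lit 532534) (nat_lit 9) (.e (nat_lit 336257) (nat_lit 15) (.e (nat_lit 3593) (nat_lit 224) (.e (nat_lit 753698) (nat_lit 13) .nil))))))) (.g (nat_lit 4) .nil .nil))) 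
(.lf (nat_lit 44797) (.g (nat_lit 3355) (.e (nat_lit 1253) (nat_lit 92) (.e (nat_lit 98373) (nat_lit 29) (.e (nat_lit 450563) (nat_lit 0) (.e (nat_lit 7936) (nat_lit 239) .nil)))) .nil))))))) (.nd (nat_lit 2) (.nd (nat_lit 3) (.nd (nat_lit 4) (.nd (nat_lit 5) (.nd (nat_lit 6) 
(.lf (nat_lit 44675) (.g (nat_lit 2515) (.e (nat_lit 1253) (nat_lit 92) (.e (nat_lit 98369) (nat_lit 28) (.e (nat_lit 442368) (nat_lit 0) (.e (nat_lit 1863) (nat_lit 124) (.e (nat_lit 557104) (nat_lit 14) (.e (nat_lit 180278) (nat_lit 32) .nil)))))) (.g (nat_lit 6) .nil .nil))) 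
(.lf (nat_lit 44739) (.g (nat_lit 1163) (.e (nat_lit 1253) (nat_lit 92) (.e (nat_lit 98372) (nat_lit 29) (.e (nat_lit 450579) (nat_lit 5) (.e (nat_lit 532568) (nat_lit 16) .nil)))) .nil))) (.nd (nat_lit 6) 
(.lf (nat_lit 44707) (.g (nat_lit 1233) (.e (nat_lit 1253) (nat_lit 92) (.e (nat_lit 98372) (nat_lit 29) (.e (nat_lit 450579) (nat_lit 5) (.e (nat_lit 532484) (nat_lit 0) .nil)))) .nil)) 
(.lf (nat_lit 44771) (.g (nat_lit 3538) (.e (nat_lit 1253) (nat_lit 92) (.e (nat_lit 98373) (nat_lit 29) (.e (nat_lit 450562) (nat_lit 0) (.e (nat_lit 3948) (nat_lit 239) (.e (nat_lit 7936) (nat_lit 165) .nil))))) .nil)))) (.nd (nat_lit 5) (.nd (nat_lit 6) 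
(.lf (nat_lit 44691) (.g (nat_lit 1813) (.e (nat_lit 1253) (nat_lit 92) (.e (nat_lit 98370) (nat_lit 28) (.e (nat_lit 442424) (nat_lit 22) (.e (nat_lit 196661) (nat_lit 12) (.e (nat_lit 57721) (nat_lit 177) .nil))))) .nil)) 
(.lf (nat_lit 44755) (.g (nat_lit 2196) (.e (nat_lit 1253) (nat_lit 92) (.e (nat_lit 98373) (nat_lit 29) (.e (nat_lit 450560) (nat_lit 0) (.e (nat_lit 3936) (nat_lit 239) (.e (nat_lit 2637) (nat_lit 165) .nil))))) .nil))) (.nd (nat_lit 6) 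
(.lf (nat_lit 44723) (.g (nat_lit 2107) (.e (nat_lit 1253) (nat_lit 92) (.e (nat_lit 98372) (nat_lit 29) (.e (nat_lit 450579) (nat_lit 5) (.e (nat_lit 532526) (nat_lit 8) (.e (nat_lit 327702) (nat_lit 10) (.e (nat_lit 5367) (nat_lit 298) .nil)))))) (.g (nat_lit 4) .nil .nil))) 
(.lf (nat_lit 44787) (.g (nat_lit 3496) (.e (nat_lit 1253) (nat_lit 92) (.e (nat_lit 98373) (nat_lit 29) (.e (nat_lit 450562) (nat_lit 0) (.e (nat_lit 6595) (nat_lit 351) .nil)))) .nil))))) (.nd (nat_lit 4) (.nd (nat_lit 5) (.nd (nat_lit 6) 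
(.lf (nat_lit 44683) (.g (nat_lit 1751) (.e (nat_lit 1253) (nat_lit 92) (.e (nat_lit 98370) (nat_lit 28) (.e (nat_lit 442377) (nat_lit 0) (.e (nat_lit 1856) (nat_lit 124) (.e (nat_lit 557105) (nat_lit 14) .nil))))) .nil)) 
(.lf (nat_lit 44747) (.g (nat_lit 3254) (.e (nat_lit 1253) (nat_lit 92) (.e (nat_lit 98372) (nat_lit 29) (.e (nat_lit 450588) (nat_lit 10) (.e (nat_lit 573452) (nat_lit 9) (.e (nat_lit 7936) (nat_lit 33) .nil))))) .nil))) (.nd (nat_lit 6) 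
(.lf (nat_lit 44715) (.g (nat_lit 1096) (.e (nat_lit 1253) (nat_lit 92) (.e (nat_lit 98372) (nat_lit 29) (.e (nat_lit 450579) (nat_lit 5) (.e (nat_lit 532522) (nat_lit 7) .nil)))) .nil)) 
(.lf (nat_lit 44779) (.g (nat_lit 3555) (.e (nat_lit 1253) (nat_lit 92) (.e (nat_lit 98373) (nat_lit 29) (.e (nat_lit 450562) (nat_lit 0) (.e (nat_lit 4288) (nat_lit 254) .nil)))) .nil)))) (.nd (nat_lit 5) (.nd (nat_lit 6) 
(.lf (nat_lit 44699) (.g (nat_lit 2222) (.e (nat_lit 1253) (nat_lit 92) (.e (nat_lit 98372) (nat_lit 29) (.e (nat_lit 450579) (nat_lit 5) (.e (nat_lit 532480) (nat_lit 0) (.e (nat_lit 6218) (nat_lit 333) (.e (nat_lit 57890) (nat_lit 270) .nil)))))) (.g (nat_lit 5) .nil .nil))) 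
(.lf (nat_lit 44763) (.g (nat_lit 3077) (.e (nat_lit 1253) (nat_lit 92) (.e (nat_lit 98373) (nat_lit 29) (.e (nat_lit 450561) (nat_lit 0) (.e (nat_lit 3953) (nat_lit 239) (.e (nat_lit 2637) (nat_lit 165) .nil))))) .nil))) (.nd (nat_lit 6) 
(.lf (nat_lit 44731) (.g (nat_lit 2513) (.e (nat_lit 1253) (nat_lit 92) (.e (nat_lit 98372) (nat_lit 29) (.e (nat_lit 450579) (nat_lit 5) (.e (nat_lit 532530) (nat_lit 9) (.e (nat_lit 336259) (nat_lit 15) (.e (nat_lit 3593) (nat_lit 224) (.e (nat_lit 753698) (nat_lit 13) .nil))))))) (.g (nat_lit 4) .nil .nil))) 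
(.lf (nat_lit 44795) (.g (nat_lit 3425) (.e (nat_lit 1253) (nat_lit 92) (.e (nat_lit 98373) (nat_lit 29) (.e (nat_lit 450563) (nat_lit 0) (.e (nat_lit 3966) (nat_lit 239) .nil)))) .nil)))))) (.nd (nat_lit 3) (.nd (nat_lit 4) (.nd (nat_lit 5) (.nd (nat_lit 6) 
(.lf (nat_lit 44679) (.g (nat_lit 2097) (.e (nat_lit 1253) (nat_lit 92) (.e (nat_lit 98370) (nat_lit 28) (.e (nat_lit 442374) (nat_lit 0) (.e (nat_lit 1856) (nat_lit 124) (.e (nat_lit 557104) (nat_lit 14) (.e (nat_lit 180278) (nat_lit 32) .nil)))))) (.g (nat_lit 4) .nil .nil))) 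
(.lf (nat_lit 44743) (.g (nat_lit 3917) (.e (nat_lit 1253) (nat_lit 92) (.e (nat_lit 98372) (nat_lit 29) (.e (nat_lit 450586) (nat_lit 10) (.e (nat_lit 573471) (nat_lit 11) (.e (nat_lit 16392) (nat_lit 0) (.e (nat_lit 7537) (nat_lit 402) .nil)))))) (.g (nat_lit 6) .nil .nil)))) (.nd (nat_lit 6) 
(.lf (nat_lit 44711) (.g (nat_lit 2290) (.e (nat_lit 1253) (nat_lit 92) (.e (nat_lit 98372) (nat_lit 29) (.e (nat_lit 450579) (nat_lit 5) (.e (nat_lit 532501) (nat_lit 1) (.e (nat_lit 57758) (nat_lit 215) .nil))))) .nil)) 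
(.lf (nat_lit 44775) (.g (nat_lit 2911) (.e (nat_lit 1253) (nat_lit 92) (.e (nat_lit 98373) (nat_lit 29) (.e (nat_lit 450562) (nat_lit 0) (.e (nat_lit 7936) (nat_lit 239) .nil)))) .nil)))) (.nd (nat_lit 5) (.nd (nat_lit 6) 
(.lf (nat_lit 44695) (.g (nat_lit 461) (.e (nat_lit 1253) (nat_lit 92) (.e (nat_lit 98372) (nat_lit 29) (.e (nat_lit 450576) (nat_lit 2) .nil))) .nil)) 
(.lf (nat_lit 44759) (.g (nat_lit 2114) (.e (nat_lit 1253) (nat_lit 92) (.e (nat_lit 98373) (nat_lit 29) (.e (nat_lit 450560) (nat_lit 0) (.e (nat_lit 3968) (nat_lit 239) .nil)))) .nil))) (.nd (nat_lit 6) 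
(.lf (nat_lit 44727) (.g (nat_lit 1878) (.e (nat_lit 1253) (nat_lit 92) (.e (nat_lit 98372) (nat_lit 29) (.e (nat_lit 450579) (nat_lit 5) (.e (nat_lit 532526) (nat_lit 8) (.e (nat_lit 327709) (nat_lit 10) .nil))))) .nil)) 
(.lf (nat_lit 44791) (.g (nat_lit 3464) (.e (nat_lit 1253) (nat_lit 92) (.e (nat_lit 98373) (nat_lit 29) (.e (nat_lit 450563) (nat_lit 0) (.e (nat_lit 3924) (nat_lit 239) .nil)))) .nil))))) (.nd (nat_lit 4) (.nd (nat_lit 5) (.nd (nat_lit 6) 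
(.lf (nat_lit 44687) (.g (nat_lit 1030) (.e (nat_lit 1253) (nat_lit 92) (.e (nat_lit 98370) (nat_lit 28) (.e (nat_lit 442412) (nat_lit 20) (.e (nat_lit 3272) (nat_lit 199) .nil)))) .nil)) 
(.lf (nat_lit 44751) (.g (nat_lit 2120) (.e (nat_lit 1253) (nat_lit 92) (.e (nat_lit 98373) (nat_lit 29) (.e (nat_lit 450560) (nat_lit 0) (.e (nat_lit 3913) (nat_lit 239) .nil)))) .nil))) (.nd (nat_lit 6) 
(.lf (nat_lit 44719) (.g (nat_lit 1290) (.e (nat_lit 1253) (nat_lit 92) (.e (nat_lit 98372) (nat_lit 29) (.e (nat_lit 450579) (nat_lit 5) (.e (nat_lit 532525) (nat_lit 8) .nil)))) .nil)) 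
(.lf (nat_lit 44783) (.g (nat_lit 3322) (.e (nat_lit 1253) (nat_lit 92) (.e (nat_lit 98373) (nat_lit 29) (.e (nat_lit 450562) (nat_lit 0) (.e (nat_lit 6416) (nat_lit 341) (.e (nat_lit 163885) (nat_lit 5) .nil))))) .nil)))) (.nd (nat_lit 5) (.nd (nat_lit 6) 
(.lf (nat_lit 44703) (.g (nat_lit 2100) (.e (nat_lit 1253) (nat_lit 92) (.e (nat_lit 98372) (nat_lit 29) (.e (nat_lit 450579) (nat_lit 5) (.e (nat_lit 532481) (nat_lit 0) (.e (nat_lit 6714) (nat_lit 360) (.e (nat_lit 164239) (nat_lit 187) .nil)))))) (.g (nat_lit 4) .nil .nil))) 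
(.lf (nat_lit 44767) (.g (nat_lit 3346) (.e (nat_lit 1253) (nat_lit 92) (.e (nat_lit 98373) (nat_lit 29) (.e (nat_lit 450561) (nat_lit 0) (.e (nat_lit 6420) (nat_lit 341) (.e (nat_lit 163885) (nat_lit 5) .nil))))) .nil))) (.nd (nat_lit 6) 
(.lf (nat_lit 44735) (.g (nat_lit 1242) (.e (nat_lit 1253) (nat_lit 92) (.e (nat_lit 98372) (nat_lit 29) (.e (nat_lit 450579) (nat_lit 5) (.e (nat_lit 532555) (nat_lit 13) .nil)))) .nil)) 
(.lf (nat_lit 44799) (.g (nat_lit 3411) (.e (nat_lit 1253) (nat_lit 92) (.e (nat_lit 98373) (nat_lit 29) (.e (nat_lit 450563) (nat_lit 0) (.e (nat_lit 4168) (nat_lit 251) .nil)))) .nil)))))))))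

noncomputable def tv621 : DT := (.nd (nat_lit 0) (.nd (nat_lit 1) (.nd (nat_lit 2) (.nd (nat_lit 3) (.nd (nat_lit 4) (.nd (nat_lit 5) (.nd (nat_lit 6) 
(.lf (nat_lit 44800) (.g (nat_lit 3464) (.e (nat_lit 1253) (nat_lit 92) (.e (nat_lit 98373) (nat_lit 29) (.e (nat_lit 450563) (nat_lit 0) (.e (nat_lit 4202) (nat_lit 251) .nil)))) .nil)) 
(.lf (nat_lit 44864) (.g (nat_lit 563) (.e (nat_lit 1253) (nat_lit 92) (.e (nat_lit 98373) (nat_lit 29) (.e (nat_lit 450580) (nat_lit 5) .nil))) .nil))) (.nd (nat_lit 6) 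
(.lf (nat_lit 44832) (.g (nat_lit 2196) (.e (nat_lit 1253) (nat_lit 92) (.e (nat_lit 98373) (nat_lit 29) (.e (nat_lit 450573) (nat_lit 1) (.e (nat_lit 500083) (nat_lit 21) .nil)))) .nil)) 
(.lf (nat_lit 44896) (.g (nat_lit 3487) (.e (nat_lit 1253) (nat_lit 92) (.e (nat_lit 98373) (nat_lit 29) (.e (nat_lit 450581) (nat_lit 5) (.e (nat_lit 532569) (nat_lit 16) (.e (nat_lit 401414) (nat_lit 0) .nil))))) .nil)))) (.nd (nat_lit 5) (.nd (nat_lit 6) 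
(.lf (nat_lit 44816) (.g (nat_lit 2475) (.e (nat_lit 1253) (nat_lit 92) (.e (nat_lit 98373) (nat_lit 29) (.e (nat_lit 450566) (nat_lit 0) (.e (nat_lit 3944) (nat_lit 239) .nil)))) .nil)) 
(.lf (nat_lit 44880) (.g (nat_lit 2324) (.e (nat_lit 1253) (nat_lit 92) (.e (nat_lit 98373) (nat_lit 29) (.e (nat_lit 450581) (nat_lit 5) (.e (nat_lit 532522) (nat_lit 7) .nil)))) .nil))) (.nd (nat_lit 6) 
(.lf (nat_lit 44848) (.g (nat_lit 2896) (.e (nat_lit 1253) (nat_lit 92) (.e (nat_lit 98373) (nat_lit 29) (.e (nat_lit 450579) (nat_lit 5) (.e (nat_lit 532486) (nat_lit 0) .nil)))) .nil)) 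
(.lf (nat_lit 44912) (.g (nat_lit 2720) (.e (nat_lit 1253) (nat_lit 92) (.e (nat_lit 98373) (nat_lit 29) (.e (nat_lit 450583) (nat_lit 7) (.e (nat_lit 556800) (nat_lit 19) .nil)))) .nil))))) (.nd (nat_lit 4) (.nd (nat_lit 5) (.nd (nat_lit 6) 
(.lf (nat_lit 44808) (.g (nat_lit 5278) (.e (nat_lit 1253) (nat_lit 92) (.e (nat_lit 98373) (nat_lit 29) (.e (nat_lit 450563) (nat_lit 0) (.e (nat_lit 6420) (nat_lit 341) (.e (nat_lit 163885) (nat_lit 5) (.e (nat_lit 221219) (nat_lit 24) (.e (nat_lit 212992) (nat_lit 0) .nil))))))) (.g (nat_lit 6) .nil .nil))) 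
(.lf (nat_lit 44872) (.g (nat_lit 2783) (.e (nat_lit 1253) (nat_lit 92) (.e (nat_lit 98373) (nat_lit 29) (.e (nat_lit 450580) (nat_lit 5) (.e (nat_lit 532526) (nat_lit 8) .nil)))) .nil))) (.nd (nat_lit 6) 
(.lf (nat_lit 44840) (.g (nat_lit 3260) (.e (nat_lit 1253) (nat_lit 92) (.e (nat_lit 98373) (nat_lit 29) (.e (nat_lit 450576) (nat_lit 2) (.e (nat_lit 507930) (nat_lit 10) (.e (nat_lit 5763) (nat_lit 315) (.e (nat_lit 164239) (nat_lit 187) .nil)))))) (.g (nat_lit 4) .nil .nil))) 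
(.lf (nat_lit 44904) (.g (nat_lit 3401) (.e (nat_lit 1253) (nat_lit 92) (.e (nat_lit 98373) (nat_lit 29) (.e (nat_lit 450583) (nat_lit 7) (.e (nat_lit 548913) (nat_lit 18) (.e (nat_lit 172033) (nat_lit 0) (.e (nat_lit 7557) (nat_lit 402) .nil)))))) (.g (nat_lit 4) .nil .nil))))) (.nd (nat_lit 5) (.nd (nat_lit 6) 
(.lf (nat_lit 44824) (.g (nat_lit 2569) (.e (nat_lit 1253) (nat_lit 92) (.e (nat_lit 98373) (nat_lit 29) (.e (nat_lit 450569) (nat_lit 0) (.e (nat_lit 3978) (nat_lit 239) .nil)))) .nil)) 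
(.lf (nat_lit 44888) (.g (nat_lit 4772) (.e (nat_lit 1253) (nat_lit 92) (.e (nat_lit 98373) (nat_lit 29) (.e (nat_lit 450581) (nat_lit 5) (.e (nat_lit 532523) (nat_lit 7) (.e (nat_lit 319506) (nat_lit 10) (.e (nat_lit 5371) (nat_lit 298) .nil)))))) (.g (nat_lit 6) .nil .nil)))) (.nd (nat_lit 6) 
(.lf (nat_lit 44856) (.g (nat_lit 2830) (.e (nat_lit 1253) (nat_lit 92) (.e (nat_lit 98373) (nat_lit 29) (.e (nat_lit 450579) (nat_lit 5) (.e (nat_lit 532525) (nat_lit 8) .nil)))) .nil)) 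
(.lf (nat_lit 44920) (.g (nat_lit 2488) (.e (nat_lit 1253) (nat_lit 92) (.e (nat_lit 98373) (nat_lit 29) (.e (nat_lit 450586) (nat_lit 10) (.e (nat_lit 573449) (nat_lit 9) .nil)))) .nil)))))) (.nd (nat_lit 3) (.nd (nat_lit 4) (.nd (nat_lit 5) (.nd (nat_lit 6) 
(.lf (nat_lit 44804) (.g (nat_lit 3057) (.e (nat_lit 1253) (nat_lit 92) (.e (nat_lit 98373) (nat_lit 29) (.e (nat_lit 450563) (nat_lit 0) (.e (nat_lit 6416) (nat_lit 341) .nil)))) .nil)) 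
(.lf (nat_lit 44868) (.g (nat_lit 4684) (.e (nat_lit 1253) (nat_lit 92) (.e (nat_lit 98373) (nat_lit 29) (.e (nat_lit 450580) (nat_lit 5) (.e (nat_lit 532523) (nat_lit 7) (.e (nat_lit 319504) (nat_lit 10) (.e (nat_lit 5351) (nat_lit 298) .nil)))))) (.g (nat_lit 5) .nil .nil)))) (.nd (nat_lit 6) 
(.lf (nat_lit 44836) (.g (nat_lit 2093) (.e (nat_lit 1253) (nat_lit 92) (.e (nat_lit 98373) (nat_lit 29) (.e (nat_lit 450576) (nat_lit 2) (.e (nat_lit 507928) (nat_lit 10) .nil)))) .nil)) 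
(.lf (nat_lit 44900) (.g (nat_lit 2673) (.e (nat_lit 1253) (nat_lit 92) (.e (nat_lit 98373) (nat_lit 29) (.e (nat_lit 450583) (nat_lit 7) (.e (nat_lit 548897) (nat_lit 14) .nil)))) .nil)))) (.nd (nat_lit 5) (.nd (nat_lit 6) 
(.lf (nat_lit 44820) (.g (nat_lit 2391) (.e (nat_lit 1253) (nat_lit 92) (.e (nat_lit 98373) (nat_lit 29) (.e (nat_lit 450568) (nat_lit 0) (.e (nat_lit 7936) (nat_lit 239) .nil)))) .nil)) 
(.lf (nat_lit 44884) (.g (nat_lit 2666) (.e (nat_lit 1253) (nat_lit 92) (.e (nat_lit 98373) (nat_lit 29) (.e (nat_lit 450581) (nat_lit 5) (.e (nat_lit 532523) (nat_lit 7) (.e (nat_lit 319500) (nat_lit 10) .nil))))) .nil))) (.nd (nat_lit 6) 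
(.lf (nat_lit 44852) (.g (nat_lit 3097) (.e (nat_lit 1253) (nat_lit 92) (.e (nat_lit 98373) (nat_lit 29) (.e (nat_lit 450579) (nat_lit 5) (.e (nat_lit 532523) (nat_lit 7) (.e (nat_lit 319504) (nat_lit 10) .nil))))) .nil)) 
(.lf (nat_lit 44916) (.g (nat_lit 2597) (.e (nat_lit 1253) (nat_lit 92) (.e (nat_lit 98373) (nat_lit 29) (.e (nat_lit 450585) (nat_lit 10) (.e (nat_lit 573471) (nat_lit 11) .nil)))) .nil))))) (.nd (nat_lit 4) (.nd (nat_lit 5) (.nd (nat_lit 6) 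
(.lf (nat_lit 44812) (.g (nat_lit 915) (.e (nat_lit 1253) (nat_lit 92) (.e (nat_lit 98373) (nat_lit 29) (.e (nat_lit 450564) (nat_lit 0) .nil))) .nil)) 
(.lf (nat_lit 44876) (.g (nat_lit 1883) (.e (nat_lit 1253) (nat_lit 92) (.e (nat_lit 98373) (nat_lit 29) (.e (nat_lit 450581) (nat_lit 5) (.e (nat_lit 532486) (nat_lit 0) .nil)))) .nil))) (.nd (nat_lit 6) 
(.lf (nat_lit 44844) (.g (nat_lit 606) (.e (nat_lit 1253) (nat_lit 92) (.e (nat_lit 98373) (nat_lit 29) (.e (nat_lit 450579) (nat_lit 5) .nil))) .nil)) 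
(.lf (nat_lit 44908) (.g (nat_lit 3617) (.e (nat_lit 1253) (nat_lit 92) (.e (nat_lit 98373) (nat_lit 29) (.e (nat_lit 450583) (nat_lit 7) (.e (nat_lit 548913) (nat_lit 18) (.e (nat_lit 172038) (nat_lit 0) .nil))))) .nil)))) (.nd (nat_lit 5) (.nd (nat_lit 6) 
(.lf (nat_lit 44828) (.g (nat_lit 2405) (.e (nat_lit 1253) (nat_lit 92) (.e (nat_lit 98373) (nat_lit 29) (.e (nat_lit 450571) (nat_lit 1) (.e (nat_lit 500083) (nat_lit 21) (.e (nat_lit 123080) (nat_lit 177) .nil))))) .nil)) 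
(.lf (nat_lit 44892) (.g (nat_lit 2313) (.e (nat_lit 1253) (nat_lit 92) (.e (nat_lit 98373) (nat_lit 29) (.e (nat_lit 450581) (nat_lit 5) (.e (nat_lit 532526) (nat_lit 8) .nil)))) .nil))) (.nd (nat_lit 6) 
(.lf (nat_lit 44860) (.g (nat_lit 2970) (.e (nat_lit 1253) (nat_lit 92) (.e (nat_lit 98373) (nat_lit 29) (.e (nat_lit 450579) (nat_lit 5) (.e (nat_lit 532553) (nat_lit 13) .nil)))) .nil)) 
(.lf (nat_lit 44924) (.g (nat_lit 2420) (.e (nat_lit 1253) (nat_lit 92) (.e (nat_lit 98373) (nat_lit 29) (.e (nat_lit 450586) (nat_lit 10) (.e (nat_lit 573457) (nat_lit 9) .nil)))) .nil))))))) (.nd (nat_lit 2) (.nd (nat_lit 3) (.nd (nat_lit 4) (.nd (nat_lit 5) (.nd (nat_lit 6) 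
(.lf (nat_lit 44802) (.g (nat_lit 3427) (.e (nat_lit 1253) (nat_lit 92) (.e (nat_lit 98373) (nat_lit 29) (.e (nat_lit 450563) (nat_lit 0) (.e (nat_lit 4288) (nat_lit 254) .nil)))) .nil)) 
(.lf (nat_lit 44866) (.g (nat_lit 2488) (.e (nat_lit 1253) (nat_lit 92) (.e (nat_lit 98373) (nat_lit 29) (.e (nat_lit 450580) (nat_lit 5) (.e (nat_lit 532523) (nat_lit 7) .nil)))) .nil))) (.nd (nat_lit 6) 
(.lf (nat_lit 44834) (.g (nat_lit 628) (.e (nat_lit 1253) (nat_lit 92) (.e (nat_lit 98373) (nat_lit 29) (.e (nat_lit 458496) (nat_lit 1) .nil))) .nil)) 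
(.lf (nat_lit 44898) (.g (nat_lit 384) (.e (nat_lit 1253) (nat_lit 92) (.e (nat_lit 98373) (nat_lit 29) (.e (nat_lit 450583) (nat_lit 7) .nil))) .nil)))) (.nd (nat_lit 5) (.nd (nat_lit 6) 
(.lf (nat_lit 44818) (.g (nat_lit 2346) (.e (nat_lit 1253) (nat_lit 92) (.e (nat_lit 98373) (nat_lit 29) (.e (nat_lit 450567) (nat_lit 0) (.e (nat_lit 4211) (nat_lit 251) .nil)))) .nil)) 
(.lf (nat_lit 44882) (.g (nat_lit 2696) (.e (nat_lit 1253) (nat_lit 92) (.e (nat_lit 98373) (nat_lit 29) (.e (nat_lit 450581) (nat_lit 5) (.e (nat_lit 532523) (nat_lit 7) (.e (nat_lit 319496) (nat_lit 10) .nil))))) .nil))) (.nd (nat_lit 6) 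
(.lf (nat_lit 44850) (.g (nat_lit 2664) (.e (nat_lit 1253) (nat_lit 92) (.e (nat_lit 98373) (nat_lit 29) (.e (nat_lit 450579) (nat_lit 5) (.e (nat_lit 532504) (nat_lit 1) .nil)))) .nil)) 
(.lf (nat_lit 44914) (.g (nat_lit 2691) (.e (nat_lit 1253) (nat_lit 92) (.e (nat_lit 98373) (nat_lit 29) (.e (nat_lit 450585) (nat_lit 10) (.e (nat_lit 573451) (nat_lit 9) .nil)))) .nil))))) (.nd (nat_lit 4) (.nd (nat_lit 5) (.nd (nat_lit 6) 
(.lf (nat_lit 44810) (.g (nat_lit 3385) (.e (nat_lit 1253) (nat_lit 92) (.e (nat_lit 98373) (nat_lit 29) (.e (nat_lit 450563) (nat_lit 0) (.e (nat_lit 6421) (nat_lit 341) .nil)))) .nil)) 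
(.lf (nat_lit 44874) (.g (nat_lit 113) (.e (nat_lit 1253) (nat_lit 92) (.e (nat_lit 98373) (nat_lit 29) (.e (nat_lit 450581) (nat_lit 5) .nil))) .nil))) (.nd (nat_lit 6) 
(.lf (nat_lit 44842) (.g (nat_lit 705) (.e (nat_lit 1253) (nat_lit 92) (.e (nat_lit 98373) (nat_lit 29) (.e (nat_lit 450578) (nat_lit 5) .nil))) .nil)) 
(.lf (nat_lit 44906) (.g (nat_lit 3556) (.e (nat_lit 1253) (nat_lit 92) (.e (nat_lit 98373) (nat_lit 29) (.e (nat_lit 450583) (nat_lit 7) (.e (nat_lit 548913) (nat_lit 18) (.e (nat_lit 172036) (nat_lit 0) .nil))))) .nil)))) (.nd (nat_lit 5) (.nd (nat_lit 6) 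
(.lf (nat_lit 44826) (.g (nat_lit 2570) (.e (nat_lit 1253) (nat_lit 92) (.e (nat_lit 98373) (nat_lit 29) (.e (nat_lit 450569) (nat_lit 0) (.e (nat_lit 4215) (nat_lit 251) .nil)))) .nil)) 
(.lf (nat_lit 44890) (.g (nat_lit 1808) (.e (nat_lit 1253) (nat_lit 92) (.e (nat_lit 98373) (nat_lit 29) (.e (nat_lit 450581) (nat_lit 5) (.e (nat_lit 532523) (nat_lit 7) (.e (nat_lit 319511) (nat_lit 10) (.e (nat_lit 5321) (nat_lit 298) .nil)))))) (.g (nat_lit 4) .nil .nil)))) (.nd (nat_lit 6) 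
(.lf (nat_lit 44858) (.g (nat_lit 3588) (.e (nat_lit 1253) (nat_lit 92) (.e (nat_lit 98373) (nat_lit 29) (.e (nat_lit 450579) (nat_lit 5) (.e (nat_lit 532526) (nat_lit 8) (.e (nat_lit 327706) (nat_lit 10) .nil))))) .nil)) 
(.lf (nat_lit 44922) (.g (nat_lit 2527) (.e (nat_lit 1253) (nat_lit 92) (.e (nat_lit 98373) (nat_lit 29) (.e (nat_lit 450586) (nat_lit 10) (.e (nat_lit 573451) (nat_lit 9) .nil)))) .nil)))))) (.nd (nat_lit 3) (.nd (nat_lit 4) (.nd (nat_lit 5) (.nd (nat_lit 6) 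
(.lf (nat_lit 44806) (.g (nat_lit 3326) (.e (nat_lit 1253) (nat_lit 92) (.e (nat_lit 98373) (nat_lit 29) (.e (nat_lit 450563) (nat_lit 0) (.e (nat_lit 6418) (nat_lit 341) .nil)))) .nil)) 
(.lf (nat_lit 44870) (.g (nat_lit 4252) (.e (nat_lit 1253) (nat_lit 92) (.e (nat_lit 98373) (nat_lit 29) (.e (nat_lit 450580) (nat_lit 5) (.e (nat_lit 532523) (nat_lit 7) (.e (nat_lit 319506) (nat_lit 10) .nil))))) .nil))) (.nd (nat_lit 6) 
(.lf (nat_lit 44838) (.g (nat_lit 3075) (.e (nat_lit 1253) (nat_lit 92) (.e (nat_lit 98373) (nat_lit 29) (.e (nat_lit 450576) (nat_lit 2) (.e (nat_lit 507930) (nat_lit 10) (.e (nat_lit 5758) (nat_lit 315) (.e (nat_lit 164238) (nat_lit 187) .nil)))))) (.g (nat_lit 4) .nil .nil))) 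
(.lf (nat_lit 44902) (.g (nat_lit 1989) (.e (nat_lit 1253) (nat_lit 92) (.e (nat_lit 98373) (nat_lit 29) (.e (nat_lit 450583) (nat_lit 7) (.e (nat_lit 548913) (nat_lit 18) .nil)))) .nil)))) (.nd (nat_lit 5) (.nd (nat_lit 6) 
(.lf (nat_lit 44822) (.g (nat_lit 2569) (.e (nat_lit 1253) (nat_lit 92) (.e (nat_lit 98373) (nat_lit 29) (.e (nat_lit 450569) (nat_lit 0) (.e (nat_lit 3962) (nat_lit 239) .nil)))) .nil)) 
(.lf (nat_lit 44886) (.g (nat_lit 4781) (.e (nat_lit 1253) (nat_lit 92) (.e (nat_lit 98373) (nat_lit 29) (.e (nat_lit 450581) (nat_lit 5) (.e (nat_lit 532523) (nat_lit 7) (.e (nat_lit 319505) (nat_lit 10) (.e (nat_lit 5351) (nat_lit 298) .nil)))))) (.g (nat_lit 0) .nil .nil)))) (.nd (nat_lit 6) 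
(.lf (nat_lit 44854) (.g (nat_lit 3977) (.e (nat_lit 1253) (nat_lit 92) (.e (nat_lit 98373) (nat_lit 29) (.e (nat_lit 450579) (nat_lit 5) (.e (nat_lit 532523) (nat_lit 7) (.e (nat_lit 319505) (nat_lit 10) (.e (nat_lit 5351) (nat_lit 298) .nil)))))) (.g (nat_lit 4) .nil .nil))) 
(.lf (nat_lit 44918) (.g (nat_lit 4352) (.e (nat_lit 1253) (nat_lit 92) (.e (nat_lit 98373) (nat_lit 29) (.e (nat_lit 450585) (nat_lit 10) (.e (nat_lit 573471) (nat_lit 11) (.e (nat_lit 16392) (nat_lit 0) (.e (nat_lit 7537) (nat_lit 402) .nil)))))) (.g (nat_lit 4) .nil .nil)))))) (.nd (nat_lit 4) (.nd (nat_lit 5) (.nd (nat_lit 6) 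
(.lf (nat_lit 44814) (.g (nat_lit 918) (.e (nat_lit 1253) (nat_lit 92) (.e (nat_lit 98373) (nat_lit 29) (.e (nat_lit 450565) (nat_lit 0) .nil))) .nil)) 
(.lf (nat_lit 44878) (.g (nat_lit 4763) (.e (nat_lit 1253) (nat_lit 92) (.e (nat_lit 98373) (nat_lit 29) (.e (nat_lit 450581) (nat_lit 5) (.e (nat_lit 532486) (nat_lit 0) (.e (nat_lit 6218) (nat_lit 333) (.e (nat_lit 57891) (nat_lit 270) .nil)))))) (.g (nat_lit 0) .nil .nil)))) (.nd (nat_lit 6) 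
(.lf (nat_lit 44846) (.g (nat_lit 2714) (.e (nat_lit 1253) (nat_lit 92) (.e (nat_lit 98373) (nat_lit 29) (.e (nat_lit 450579) (nat_lit 5) (.e (nat_lit 532481) (nat_lit 0) .nil)))) .nil)) 
(.lf (nat_lit 44910) (.g (nat_lit 2885) (.e (nat_lit 1253) (nat_lit 92) (.e (nat_lit 98373) (nat_lit 29) (.e (nat_lit 450583) (nat_lit 7) (.e (nat_lit 548914) (nat_lit 19) (.e (nat_lit 180277) (nat_lit 32) .nil))))) (.g (nat_lit 0) .nil .nil))))) (.nd (nat_lit 5) (.nd (nat_lit 6) 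
(.lf (nat_lit 44830) (.g (nat_lit 2233) (.e (nat_lit 1253) (nat_lit 92) (.e (nat_lit 98373) (nat_lit 29) (.e (nat_lit 450572) (nat_lit 1) (.e (nat_lit 499965) (nat_lit 14) .nil)))) .nil)) 
(.lf (nat_lit 44894) (.g (nat_lit 2308) (.e (nat_lit 1253) (nat_lit 92) (.e (nat_lit 98373) (nat_lit 29) (.e (nat_lit 450581) (nat_lit 5) (.e (nat_lit 532545) (nat_lit 10) .nil)))) .nil))) (.nd (nat_lit 6) 
(.lf (nat_lit 44862) (.g (nat_lit 2905) (.e (nat_lit 1253) (nat_lit 92) (.e (nat_lit 98373) (nat_lit 29) (.e (nat_lit 450579) (nat_lit 5) (.e (nat_lit 532567) (nat_lit 16) .nil)))) .nil)) 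
(.lf (nat_lit 44926) (.g (nat_lit 3554) (.e (nat_lit 1253) (nat_lit 92) (.e (nat_lit 98373) (nat_lit 29) (.e (nat_lit 450586) (nat_lit 10) (.e (nat_lit 573471) (nat_lit 11) (.e (nat_lit 16392) (nat_lit 0) .nil))))) .nil)))))))) (.nd (nat_lit 1) (.nd (nat_lit 2) (.nd (nat_lit 3) (.nd (nat_lit 4) (.nd (nat_lit 5) (.nd (nat_lit 6) 
(.lf (nat_lit 44801) (.g (nat_lit 3471) (.e (nat_lit 1253) (nat_lit 92) (.e (nat_lit 98373) (nat_lit 29) (.e (nat_lit 450563) (nat_lit 0) (.e (nat_lit 4212) (nat_lit 251) .nil)))) .nil)) 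
(.lf (nat_lit 44865) (.g (nat_lit 2836) (.e (nat_lit 1253) (nat_lit 92) (.e (nat_lit 98373) (nat_lit 29) (.e (nat_lit 450580) (nat_lit 5) (.e (nat_lit 532486) (nat_lit 0) .nil)))) .nil))) (.nd (nat_lit 6) 
(.lf (nat_lit 44833) (.g (nat_lit 775) (.e (nat_lit 1253) (nat_lit 92) (.e (nat_lit 98373) (nat_lit 29) (.e (nat_lit 450574) (nat_lit 1) .nil))) .nil)) 
(.lf (nat_lit 44897) (.g (nat_lit 628) (.e (nat_lit 1253) (nat_lit 92) (.e (nat_lit 98373) (nat_lit 29) (.e (nat_lit 458496) (nat_lit 5) .nil))) .nil)))) (.nd (nat_lit 5) (.nd (nat_lit 6) 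
(.lf (nat_lit 44817) (.g (nat_lit 951) (.e (nat_lit 1253) (nat_lit 92) (.e (nat_lit 98373) (nat_lit 29) (.e (nat_lit 450567) (nat_lit 0) .nil))) .nil)) 
(.lf (nat_lit 44881) (.g (nat_lit 906) (.e (nat_lit 1253) (nat_lit 92) (.e (nat_lit 98373) (nat_lit 29) (.e (nat_lit 450581) (nat_lit 5) (.e (nat_lit 532523) (nat_lit 7) .nil)))) .nil))) (.nd (nat_lit 6) 
(.lf (nat_lit 44849) (.g (nat_lit 2750) (.e (nat_lit 1253) (nat_lit 92) (.e (nat_lit 98373) (nat_lit 29) (.e (nat_lit 450579) (nat_lit 5) (.e (nat_lit 532501) (nat_lit 1) .nil)))) .nil)) 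
(.lf (nat_lit 44913) (.g (nat_lit 3443) (.e (nat_lit 1253) (nat_lit 92) (.e (nat_lit 98373) (nat_lit 29) (.e (nat_lit 450585) (nat_lit 10) (.e (nat_lit 573450) (nat_lit 9) (.e (nat_lit 442) (nat_lit 33) .nil))))) .nil))))) (.nd (nat_lit 4) (.nd (nat_lit 5) (.nd (nat_lit 6) 
(.lf (nat_lit 44809) (.g (nat_lit 3984) (.e (nat_lit 1253) (nat_lit 92) (.e (nat_lit 98373) (nat_lit 29) (.e (nat_lit 450563) (nat_lit 0) (.e (nat_lit 6420) (nat_lit 341) (.e (nat_lit 163885) (nat_lit 5) (.e (nat_lit 221219) (nat_lit 24) (.e (nat_lit 212993) (nat_lit 0) .nil))))))) (.g (nat_lit 4) .nil .nil))) 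
(.lf (nat_lit 44873) (.g (nat_lit 2716) (.e (nat_lit 1253) (nat_lit 92) (.e (nat_lit 98373) (nat_lit 29) (.e (nat_lit 450580) (nat_lit 5) (.e (nat_lit 532569) (nat_lit 16) .nil)))) .nil))) (.nd (nat_lit 6) 
(.lf (nat_lit 44841) (.g (nat_lit 2027) (.e (nat_lit 1253) (nat_lit 92) (.e (nat_lit 98373) (nat_lit 29) (.e (nat_lit 450576) (nat_lit 2) (.e (nat_lit 507946) (nat_lit 18) .nil)))) .nil)) 
(.lf (nat_lit 44905) (.g (nat_lit 3651) (.e (nat_lit 1253) (nat_lit 92) (.e (nat_lit 98373) (nat_lit 29) (.e (nat_lit 450583) (nat_lit 7) (.e (nat_lit 548913) (nat_lit 18) (.e (nat_lit 172035) (nat_lit 0) .nil))))) .nil)))) (.nd (nat_lit 5) (.nd (nat_lit 6) 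
(.lf (nat_lit 44825) (.g (nat_lit 2556) (.e (nat_lit 1253) (nat_lit 92) (.e (nat_lit 98373) (nat_lit 29) (.e (nat_lit 450569) (nat_lit 0) (.e (nat_lit 7936) (nat_lit 239) .nil)))) .nil)) 
(.lf (nat_lit 44889) (.g (nat_lit 2667) (.e (nat_lit 1253) (nat_lit 92) (.e (nat_lit 98373) (nat_lit 29) (.e (nat_lit 450581) (nat_lit 5) (.e (nat_lit 532523) (nat_lit 7) (.e (nat_lit 319510) (nat_lit 10) .nil))))) .nil))) (.nd (nat_lit 6) 
(.lf (nat_lit 44857) (.g (nat_lit 2781) (.e (nat_lit 1253) (nat_lit 92) (.e (nat_lit 98373) (nat_lit 29) (.e (nat_lit 450579) (nat_lit 5) (.e (nat_lit 532526) (nat_lit 8) .nil)))) .nil)) 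
(.lf (nat_lit 44921) (.g (nat_lit 2331) (.e (nat_lit 1253) (nat_lit 92) (.e (nat_lit 98373) (nat_lit 29) (.e (nat_lit 450586) (nat_lit 10) (.e (nat_lit 573450) (nat_lit 9) .nil)))) .nil)))))) (.nd (nat_lit 3) (.nd (nat_lit 4) (.nd (nat_lit 5) (.nd (nat_lit 6) 
(.lf (nat_lit 44805) (.g (nat_lit 4896) (.e (nat_lit 1253) (nat_lit 92) (.e (nat_lit 98373) (nat_lit 29) (.e (nat_lit 450563) (nat_lit 0) (.e (nat_lit 6416) (nat_lit 341) (.e (nat_lit 163885) (nat_lit 5) (.e (nat_lit 221219) (nat_lit 24) (.e (nat_lit 212992) (nat_lit 0) .nil))))))) (.g (nat_lit 5) .nil .nil))) 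
(.lf (nat_lit 44869) (.g (nat_lit 4438) (.e (nat_lit 1253) (nat_lit 92) (.e (nat_lit 98373) (nat_lit 29) (.e (nat_lit 450580) (nat_lit 5) (.e (nat_lit 532523) (nat_lit 7) (.e (nat_lit 319505) (nat_lit 10) (.e (nat_lit 5351) (nat_lit 298) .nil)))))) (.g (nat_lit 4) .nil .nil)))) (.nd (nat_lit 6) 
(.lf (nat_lit 44837) (.g (nat_lit 3116) (.e (nat_lit 1253) (nat_lit 92) (.e (nat_lit 98373) (nat_lit 29) (.e (nat_lit 450576) (nat_lit 2) (.e (nat_lit 507929) (nat_lit 10) (.e (nat_lit 5763) (nat_lit 315) (.e (nat_lit 164239) (nat_lit 187) .nil)))))) (.g (nat_lit 4) .nil .nil))) 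
(.lf (nat_lit 44901) (.g (nat_lit 2643) (.e (nat_lit 1253) (nat_lit 92) (.e (nat_lit 98373) (nat_lit 29) (.e (nat_lit 450583) (nat_lit 7) (.e (nat_lit 548898) (nat_lit 14) .nil)))) .nil)))) (.nd (nat_lit 5) (.nd (nat_lit 6) 
(.lf (nat_lit 44821) (.g (nat_lit 2391) (.e (nat_lit 1253) (nat_lit 92) (.e (nat_lit 98373) (nat_lit 29) (.e (nat_lit 450568) (nat_lit 0) (.e (nat_lit 7936) (nat_lit 244) .nil)))) .nil)) 
(.lf (nat_lit 44885) (.g (nat_lit 2880) (.e (nat_lit 1253) (nat_lit 92) (.e (nat_lit 98373) (nat_lit 29) (.e (nat_lit 450581) (nat_lit 5) (.e (nat_lit 532523) (nat_lit 7) (.e (nat_lit 319504) (nat_lit 10) (.e (nat_lit 7936) (nat_lit 298) .nil)))))) (.g (nat_lit 5) .nil .nil)))) (.nd (nat_lit 6) 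
(.lf (nat_lit 44853) (.g (nat_lit 4594) (.e (nat_lit 1253) (nat_lit 92) (.e (nat_lit 98373) (nat_lit 29) (.e (nat_lit 450579) (nat_lit 5) (.e (nat_lit 532523) (nat_lit 7) (.e (nat_lit 319504) (nat_lit 10) (.e (nat_lit 5351) (nat_lit 298) .nil)))))) (.g (nat_lit 5) .nil .nil))) 
(.lf (nat_lit 44917) (.g (nat_lit 3830) (.e (nat_lit 1253) (nat_lit 92) (.e (nat_lit 98373) (nat_lit 29) (.e (nat_lit 450585) (nat_lit 10) (.e (nat_lit 573471) (nat_lit 11) (.e (nat_lit 16392) (nat_lit 0) .nil))))) .nil))))) (.nd (nat_lit 4) (.nd (nat_lit 5) (.nd (nat_lit 6) 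
(.lf (nat_lit 44813) (.g (nat_lit 2808) (.e (nat_lit 1253) (nat_lit 92) (.e (nat_lit 98373) (nat_lit 29) (.e (nat_lit 450564) (nat_lit 0) (.e (nat_lit 3944) (nat_lit 239) .nil)))) .nil)) 
(.lf (nat_lit 44877) (.g (nat_lit 4685) (.e (nat_lit 1253) (nat_lit 92) (.e (nat_lit 98373) (nat_lit 29) (.e (nat_lit 450581) (nat_lit 5) (.e (nat_lit 532486) (nat_lit 0) (.e (nat_lit 6218) (nat_lit 333) (.e (nat_lit 57890) (nat_lit 270) .nil)))))) (.g (nat_lit 0) .nil .nil)))) (.nd (nat_lit 6) 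
(.lf (nat_lit 44845) (.g (nat_lit 2828) (.e (nat_lit 1253) (nat_lit 92) (.e (nat_lit 98373) (nat_lit 29) (.e (nat_lit 450579) (nat_lit 5) (.e (nat_lit 532480) (nat_lit 0) .nil)))) .nil)) 
(.lf (nat_lit 44909) (.g (nat_lit 3593) (.e (nat_lit 1253) (nat_lit 92) (.e (nat_lit 98373) (nat_lit 29) (.e (nat_lit 450583) (nat_lit 7) (.e (nat_lit 548913) (nat_lit 18) (.e (nat_lit 172039) (nat_lit 0) .nil))))) .nil)))) (.nd (nat_lit 5) (.nd (nat_lit 6) 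
(.lf (nat_lit 44829) (.g (nat_lit 918) (.e (nat_lit 1253) (nat_lit 92) (.e (nat_lit 98373) (nat_lit 29) (.e (nat_lit 450572) (nat_lit 1) .nil))) .nil)) 
(.lf (nat_lit 44893) (.g (nat_lit 3404) (.e (nat_lit 1253) (nat_lit 92) (.e (nat_lit 98373) (nat_lit 29) (.e (nat_lit 450581) (nat_lit 5) (.e (nat_lit 532526) (nat_lit 8) (.e (nat_lit 327705) (nat_lit 10) (.e (nat_lit 5371) (nat_lit 298) .nil)))))) (.g (nat_lit 4) .nil .nil)))) (.nd (nat_lit 6) 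
(.lf (nat_lit 44861) (.g (nat_lit 2993) (.e (nat_lit 1253) (nat_lit 92) (.e (nat_lit 98373) (nat_lit 29) (.e (nat_lit 450579) (nat_lit 5) (.e (nat_lit 532555) (nat_lit 13) .nil)))) .nil)) 
(.lf (nat_lit 44925) (.g (nat_lit 2255) (.e (nat_lit 1253) (nat_lit 92) (.e (nat_lit 98373) (nat_lit 29) (.e (nat_lit 450586) (nat_lit 10) (.e (nat_lit 573471) (nat_lit 11) .nil)))) .nil))))))) (.nd (nat_lit 2) (.nd (nat_lit 3) (.nd (nat_lit 4) (.nd (nat_lit 5) (.nd (nat_lit 6) 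
(.lf (nat_lit 44803) (.g (nat_lit 3464) (.e (nat_lit 1253) (nat_lit 92) (.e (nat_lit 98373) (nat_lit 29) (.e (nat_lit 450563) (nat_lit 0) (.e (nat_lit 4291) (nat_lit 254) .nil)))) .nil)) 
(.lf (nat_lit 44867) (.g (nat_lit 3304) (.e (nat_lit 1253) (nat_lit 92) (.e (nat_lit 98373) (nat_lit 29) (.e (nat_lit 450580) (nat_lit 5) (.e (nat_lit 532523) (nat_lit 7) (.e (nat_lit 319504) (nat_lit 10) .nil))))) .nil))) (.nd (nat_lit 6) 
(.lf (nat_lit 44835) (.g (nat_lit 634) (.e (nat_lit 1253) (nat_lit 92) (.e (nat_lit 98373) (nat_lit 29) (.e (nat_lit 450576) (nat_lit 2) .nil))) .nil)) 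
(.lf (nat_lit 44899) (.g (nat_lit 2723) (.e (nat_lit 1253) (nat_lit 92) (.e (nat_lit 98373) (nat_lit 29) (.e (nat_lit 450583) (nat_lit 7) (.e (nat_lit 548896) (nat_lit 14) .nil)))) .nil)))) (.nd (nat_lit 5) (.nd (nat_lit 6) 
(.lf (nat_lit 44819) (.g (nat_lit 868) (.e (nat_lit 1253) (nat_lit 92) (.e (nat_lit 98373) (nat_lit 29) (.e (nat_lit 450568) (nat_lit 0) .nil))) .nil)) 
(.lf (nat_lit 44883) (.g (nat_lit 2819) (.e (nat_lit 1253) (nat_lit 92) (.e (nat_lit 98373) (nat_lit 29) (.e (nat_lit 450581) (nat_lit 5) (.e (nat_lit 532523) (nat_lit 7) (.e (nat_lit 319496) (nat_lit 10) (.e (nat_lit 5351) (nat_lit 298) .nil)))))) (.g (nat_lit 4) .nil .nil)))) (.nd (nat_lit 6) 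
(.lf (nat_lit 44851) (.g (nat_lit 2462) (.e (nat_lit 1253) (nat_lit 92) (.e (nat_lit 98373) (nat_lit 29) (.e (nat_lit 450579) (nat_lit 5) (.e (nat_lit 532523) (nat_lit 7) .nil)))) .nil)) 
(.lf (nat_lit 44915) (.g (nat_lit 2704) (.e (nat_lit 1253) (nat_lit 92) (.e (nat_lit 98373) (nat_lit 29) (.e (nat_lit 450585) (nat_lit 10) (.e (nat_lit 573456) (nat_lit 9) .nil)))) .nil))))) (.nd (nat_lit 4) (.nd (nat_lit 5) (.nd (nat_lit 6) 
(.lf (nat_lit 44811) (.g (nat_lit 3335) (.e (nat_lit 1253) (nat_lit 92) (.e (nat_lit 98373) (nat_lit 29) (.e (nat_lit 450563) (nat_lit 0) (.e (nat_lit 6595) (nat_lit 351) .nil)))) .nil)) 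
(.lf (nat_lit 44875) (.g (nat_lit 2306) (.e (nat_lit 1253) (nat_lit 92) (.e (nat_lit 98373) (nat_lit 29) (.e (nat_lit 450581) (nat_lit 5) (.e (nat_lit 532482) (nat_lit 0) .nil)))) .nil))) (.nd (nat_lit 6) 
(.lf (nat_lit 44843) (.g (nat_lit 2242) (.e (nat_lit 1253) (nat_lit 92) (.e (nat_lit 98373) (nat_lit 29) (.e (nat_lit 450578) (nat_lit 5) (.e (nat_lit 532523) (nat_lit 7) .nil)))) .nil)) 
(.lf (nat_lit 44907) (.g (nat_lit 3769) (.e (nat_lit 1253) (nat_lit 92) (.e (nat_lit 98373) (nat_lit 29) (.e (nat_lit 450583) (nat_lit 7) (.e (nat_lit 548913) (nat_lit 18) (.e (nat_lit 172037) (nat_lit 0) (.e (nat_lit 7557) (nat_lit 402) .nil)))))) (.g (nat_lit 4) .nil .nil))))) (.nd (nat_lit 5) (.nd (nat_lit 6) 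
(.lf (nat_lit 44827) (.g (nat_lit 2152) (.e (nat_lit 1253) (nat_lit 92) (.e (nat_lit 98373) (nat_lit 29) (.e (nat_lit 450570) (nat_lit 1) (.e (nat_lit 500083) (nat_lit 21) .nil)))) .nil)) 
(.lf (nat_lit 44891) (.g (nat_lit 2311) (.e (nat_lit 1253) (nat_lit 92) (.e (nat_lit 98373) (nat_lit 29) (.e (nat_lit 450581) (nat_lit 5) (.e (nat_lit 532525) (nat_lit 8) .nil)))) .nil))) (.nd (nat_lit 6) 
(.lf (nat_lit 44859) (.g (nat_lit 2752) (.e (nat_lit 1253) (nat_lit 92) (.e (nat_lit 98373) (nat_lit 29) (.e (nat_lit 450579) (nat_lit 5) (.e (nat_lit 532530) (nat_lit 9) .nil)))) .nil)) 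
(.lf (nat_lit 44923) (.g (nat_lit 2171) (.e (nat_lit 1253) (nat_lit 92) (.e (nat_lit 98373) (nat_lit 29) (.e (nat_lit 450586) (nat_lit 10) (.e (nat_lit 573452) (nat_lit 9) .nil)))) .nil)))))) (.nd (nat_lit 3) (.nd (nat_lit 4) (.nd (nat_lit 5) (.nd (nat_lit 6) 
(.lf (nat_lit 44807) (.g (nat_lit 2966) (.e (nat_lit 1253) (nat_lit 92) (.e (nat_lit 98373) (nat_lit 29) (.e (nat_lit 450563) (nat_lit 0) (.e (nat_lit 6420) (nat_lit 341) .nil)))) .nil)) 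
(.lf (nat_lit 44871) (.g (nat_lit 2858) (.e (nat_lit 1253) (nat_lit 92) (.e (nat_lit 98373) (nat_lit 29) (.e (nat_lit 450580) (nat_lit 5) (.e (nat_lit 532525) (nat_lit 8) .nil)))) .nil))) (.nd (nat_lit 6) 
(.lf (nat_lit 44839) (.g (nat_lit 3310) (.e (nat_lit 1253) (nat_lit 92) (.e (nat_lit 98373) (nat_lit 29) (.e (nat_lit 450576) (nat_lit 2) (.e (nat_lit 507930) (nat_lit 10) (.e (nat_lit 5760) (nat_lit 315) (.e (nat_lit 164238) (nat_lit 187) .nil)))))) (.g (nat_lit 4) .nil .nil))) 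
(.lf (nat_lit 44903) (.g (nat_lit 3232) (.e (nat_lit 1253) (nat_lit 92) (.e (nat_lit 98373) (nat_lit 29) (.e (nat_lit 450583) (nat_lit 7) (.e (nat_lit 548913) (nat_lit 18) (.e (nat_lit 172033) (nat_lit 0) .nil))))) .nil)))) (.nd (nat_lit 5) (.nd (nat_lit 6) 
(.lf (nat_lit 44823) (.g (nat_lit 2522) (.e (nat_lit 1253) (nat_lit 92) (.e (nat_lit 98373) (nat_lit 29) (.e (nat_lit 450569) (nat_lit 0) (.e (nat_lit 3966) (nat_lit 239) .nil)))) .nil)) 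
(.lf (nat_lit 44887) (.g (nat_lit 3920) (.e (nat_lit 1253) (nat_lit 92) (.e (nat_lit 98373) (nat_lit 29) (.e (nat_lit 450581) (nat_lit 5) (.e (nat_lit 532523) (nat_lit 7) (.e (nat_lit 319506) (nat_lit 10) (.e (nat_lit 5367) (nat_lit 298) .nil)))))) (.g (nat_lit 5) .nil .nil)))) (.nd (nat_lit 6) 
(.lf (nat_lit 44855) (.g (nat_lit 4459) (.e (nat_lit 1253) (nat_lit 92) (.e (nat_lit 98373) (nat_lit 29) (.e (nat_lit 450579) (nat_lit 5) (.e (nat_lit 532523) (nat_lit 7) (.e (nat_lit 319506) (nat_lit 10) .nil))))) .nil)) 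
(.lf (nat_lit 44919) (.g (nat_lit 421) (.e (nat_lit 1253) (nat_lit 92) (.e (nat_lit 98373) (nat_lit 29) (.e (nat_lit 450586) (nat_lit 10) .nil))) .nil))))) (.nd (nat_lit 4) (.nd (nat_lit 5) (.nd (nat_lit 6) 
(.lf (nat_lit 44815) (.g (nat_lit 2656) (.e (nat_lit 1253) (nat_lit 92) (.e (nat_lit 98373) (nat_lit 29) (.e (nat_lit 450565) (nat_lit 0) (.e (nat_lit 3944) (nat_lit 239) .nil)))) .nil)) 
(.lf (nat_lit 44879) (.g (nat_lit 2326) (.e (nat_lit 1253) (nat_lit 92) (.e (nat_lit 98373) (nat_lit 29) (.e (nat_lit 450581) (nat_lit 5) (.e (nat_lit 540416) (nat_lit 0) .nil)))) .nil))) (.nd (nat_lit 6) 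
(.lf (nat_lit 44847) (.g (nat_lit 2718) (.e (nat_lit 1253) (nat_lit 92) (.e (nat_lit 98373) (nat_lit 29) (.e (nat_lit 450579) (nat_lit 5) (.e (nat_lit 532482) (nat_lit 0) .nil)))) .nil)) 
(.lf (nat_lit 44911) (.g (nat_lit 2926) (.e (nat_lit 1253) (nat_lit 92) (.e (nat_lit 98373) (nat_lit 29) (.e (nat_lit 450583) (nat_lit 7) (.e (nat_lit 548914) (nat_lit 19) (.e (nat_lit 180278) (nat_lit 32) .nil))))) (.g (nat_lit 0) .nil .nil))))) (.nd (nat_lit 5) (.nd (nat_lit 6) 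
(.lf (nat_lit 44831) (.g (nat_lit 941) (.e (nat_lit 1253) (nat_lit 92) (.e (nat_lit 98373) (nat_lit 29) (.e (nat_lit 450573) (nat_lit 1) .nil))) .nil)) 
(.lf (nat_lit 44895) (.g (nat_lit 2307) (.e (nat_lit 1253) (nat_lit 92) (.e (nat_lit 98373) (nat_lit 29) (.e (nat_lit 450581) (nat_lit 5) (.e (nat_lit 532555) (nat_lit 13) .nil)))) .nil))) (.nd (nat_lit 6) 
(.lf (nat_lit 44863) (.g (nat_lit 2725) (.e (nat_lit 1253) (nat_lit 92) (.e (nat_lit 98373) (nat_lit 29) (.e (nat_lit 450579) (nat_lit 5) (.e (nat_lit 532569) (nat_lit 16) .nil)))) .nil)) 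
(.lf (nat_lit 44927) (.g (nat_lit 5041) (.e (nat_lit 1253) (nat_lit 92) (.e (nat_lit 98373) (nat_lit 29) (.e (nat_lit 450586) (nat_lit 10) (.e (nat_lit 573471) (nat_lit 11) (.e (nat_lit 16392) (nat_lit 0) (.e (nat_lit 7537) (nat_lit 402) .nil)))))) (.g (nat_lit 5) .nil .nil))))))))))

noncomputable def tv622 : DT := (.nd (nat_lit 0) (.nd (nat_lit 1) (.nd (nat_lit 2) (.nd (nat_lit 3) (.nd (nat_lit 4) (.nd (nat_lit 5) 
(.lf (nat_lit 44928) (.g (nat_lit 4515) (.e (nat_lit 1253) (nat_lit 92) (.e (nat_lit 98373) (nat_lit 29) (.e (nat_lit 450586) (nat_lit 10) (.e (nat_lit 573471) (nat_lit 11) (.e (nat_lit 16392) (nat_lit 0) (.e (nat_lit 7555) (nat_lit 402) .nil)))))) (.g (nat_lit 4) .nil .nil))) 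
(.lf (nat_lit 44960) (.g (nat_lit 1970) (.e (nat_lit 1253) (nat_lit 92) (.e (nat_lit 98373) (nat_lit 29) (.e (nat_lit 450587) (nat_lit 10) (.e (nat_lit 573473) (nat_lit 12) (.e (nat_lit 57347) (nat_lit 0) .nil))))) .nil))) (.nd (nat_lit 5) 
(.lf (nat_lit 44944) (.g (nat_lit 4145) (.e (nat_lit 1253) (nat_lit 92) (.e (nat_lit 98373) (nat_lit 29) (.e (nat_lit 450587) (nat_lit 10) (.e (nat_lit 573461) (nat_lit 9) .nil)))) .nil)) 
(.lf (nat_lit 44976) (.g (nat_lit 4080) (.e (nat_lit 1253) (nat_lit 92) (.e (nat_lit 98373) (nat_lit 29) (.e (nat_lit 450587) (nat_lit 10) (.e (nat_lit 573473) (nat_lit 12) (.e (nat_lit 57354) (nat_lit 0) (.e (nat_lit 7270) (nat_lit 385) (.e (nat_lit 122883) (nat_lit 0) (.e (nat_lit 6489) (nat_lit 343) .nil)))))))) (.g (nat_lit 6) .nil .nil))))) (.nd (nat_lit 4) (.nd (nat_lit 5) 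
(.lf (nat_lit 44936) (.g (nat_lit 5054) (.e (nat_lit 1253) (nat_lit 92) (.e (nat_lit 98373) (nat_lit 29) (.e (nat_lit 450587) (nat_lit 10) (.e (nat_lit 573451) (nat_lit 9) .nil)))) .nil)) 
(.lf (nat_lit 44968) (.g (nat_lit 2740) (.e (nat_lit 1253) (nat_lit 92) (.e (nat_lit 98373) (nat_lit 29) (.e (nat_lit 450587) (nat_lit 10) (.e (nat_lit 573473) (nat_lit 12) (.e (nat_lit 57348) (nat_lit 0) (.e (nat_lit 7265) (nat_lit 384) (.e (nat_lit 57354) (nat_lit 0) (.e (nat_lit 6493) (nat_lit 343) .nil)))))))) (.g (nat_lit 5) .nil .nil)))) (.nd (nat_lit 5) 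
(.lf (nat_lit 44952) (.g (nat_lit 2779) (.e (nat_lit 1253) (nat_lit 92) (.e (nat_lit 98373) (nat_lit 29) (.e (nat_lit 450587) (nat_lit 10) (.e (nat_lit 573471) (nat_lit 11) .nil)))) .nil)) 
(.lf (nat_lit 44984) (.g (nat_lit 2636) (.e (nat_lit 1253) (nat_lit 92) (.e (nat_lit 98373) (nat_lit 29) (.e (nat_lit 450587) (nat_lit 10) (.e (nat_lit 573475) (nat_lit 12) (.e (nat_lit 57344) (nat_lit 0) .nil))))) .nil))))) (.nd (nat_lit 3) (.nd (nat_lit 4) (.nd (nat_lit 5) 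
(.lf (nat_lit 44932) (.g (nat_lit 2733) (.e (nat_lit 1253) (nat_lit 92) (.e (nat_lit 98373) (nat_lit 29) (.e (nat_lit 450587) (nat_lit 10) (.e (nat_lit 573449) (nat_lit 9) .nil)))) .nil)) 
(.lf (nat_lit 44964) (.g (nat_lit 2478) (.e (nat_lit 1253) (nat_lit 92) (.e (nat_lit 98373) (nat_lit 29) (.e (nat_lit 450587) (nat_lit 10) (.e (nat_lit 573473) (nat_lit 12) (.e (nat_lit 57348) (nat_lit 0) (.e (nat_lit 6850) (nat_lit 371) (.e (nat_lit 2612) (nat_lit 163) (.e (nat_lit 164239) (nat_lit 187) .nil)))))))) (.g (nat_lit 4) .nil .nil)))) (.nd (nat_lit 5) 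
(.lf (nat_lit 44948) (.g (nat_lit 3574) (.e (nat_lit 1253) (nat_lit 92) (.e (nat_lit 98373) (nat_lit 29) (.e (nat_lit 450587) (nat_lit 10) (.e (nat_lit 573465) (nat_lit 9) .nil)))) .nil)) 
(.lf (nat_lit 44980) (.g (nat_lit 2542) (.e (nat_lit 1253) (nat_lit 92) (.e (nat_lit 98373) (nat_lit 29) (.e (nat_lit 450587) (nat_lit 10) (.e (nat_lit 573473) (nat_lit 12) (.e (nat_lit 57567) (nat_lit 52) .nil))))) .nil)))) (.nd (nat_lit 4) (.nd (nat_lit 5) 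
(.lf (nat_lit 44940) (.g (nat_lit 1973) (.e (nat_lit 1253) (nat_lit 92) (.e (nat_lit 98373) (nat_lit 29) (.e (nat_lit 450587) (nat_lit 10) (.e (nat_lit 573456) (nat_lit 9) .nil)))) .nil)) 
(.lf (nat_lit 44972) (.g (nat_lit 3330) (.e (nat_lit 1253) (nat_lit 92) (.e (nat_lit 98373) (nat_lit 29) (.e (nat_lit 450587) (nat_lit 10) (.e (nat_lit 573473) (nat_lit 12) (.e (nat_lit 57352) (nat_lit 0) (.e (nat_lit 7263) (nat_lit 384) (.e (nat_lit 57354) (nat_lit 0) (.e (nat_lit 6493) (nat_lit 343) .nil)))))))) (.g (nat_lit 6) .nil .nil)))) (.nd (nat_lit 5) 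
(.lf (nat_lit 44956) (.g (nat_lit 4081) (.e (nat_lit 1253) (nat_lit 92) (.e (nat_lit 98373) (nat_lit 29) (.e (nat_lit 450587) (nat_lit 10) (.e (nat_lit 573471) (nat_lit 11) (.e (nat_lit 16396) (nat_lit 0) (.e (nat_lit 7554) (nat_lit 402) .nil)))))) (.g (nat_lit 4) .nil .nil))) 
(.lf (nat_lit 44988) (.g (nat_lit 2924) (.e (nat_lit 1253) (nat_lit 92) (.e (nat_lit 98373) (nat_lit 29) (.e (nat_lit 450587) (nat_lit 10) (.e (nat_lit 573475) (nat_lit 12) (.e (nat_lit 57344) (nat_lit 0) (.e (nat_lit 6852) (nat_lit 371) (.e (nat_lit 2612) (nat_lit 163) (.e (nat_lit 164239) (nat_lit 187) .nil)))))))) (.g (nat_lit 4) .nil .nil))))))) 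
(.nd (nat_lit 2) (.nd (nat_lit 3) (.nd (nat_lit 4) (.nd (nat_lit 5) 
(.lf (nat_lit 44930) (.g (nat_lit 3745) (.e (nat_lit 1253) (nat_lit 92) (.e (nat_lit 98373) (nat_lit 29) (.e (nat_lit 450586) (nat_lit 10) (.e (nat_lit 573471) (nat_lit 11) (.e (nat_lit 16396) (nat_lit 0) (.e (nat_lit 7556) (nat_lit 402) .nil)))))) (.g (nat_lit 4) .nil .nil))) 
(.lf (nat_lit 44962) (.g (nat_lit 3146) (.e (nat_lit 1253) (nat_lit 92) (.e (nat_lit 98373) (nat_lit 29) (.e (nat_lit 450587) (nat_lit 10) (.e (nat_lit 573473) (nat_lit 12) (.e (nat_lit 57347) (nat_lit 0) (.e (nat_lit 7265) (nat_lit 384) (.e (nat_lit 57347) (nat_lit 0) (.e (nat_lit 6450) (nat_lit 343) .nil)))))))) (.g (nat_lit 5) .nil .nil)))) (.nd (nat_lit 5) 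
(.lf (nat_lit 44946) (.g (nat_lit 4747) (.e (nat_lit 1253) (nat_lit 92) (.e (nat_lit 98373) (nat_lit 29) (.e (nat_lit 450587) (nat_lit 10) (.e (nat_lit 573463) (nat_lit 9) .nil)))) .nil)) 
(.lf (nat_lit 44978) (.g (nat_lit 2446) (.e (nat_lit 1253) (nat_lit 92) (.e (nat_lit 98373) (nat_lit 29) (.e (nat_lit 450587) (nat_lit 10) (.e (nat_lit 573473) (nat_lit 12) (.e (nat_lit 57566) (nat_lit 52) .nil))))) .nil)))) (.nd (nat_lit 4) (.nd (nat_lit 5) 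
(.lf (nat_lit 44938) (.g (nat_lit 1958) (.e (nat_lit 1253) (nat_lit 92) (.e (nat_lit 98373) (nat_lit 29) (.e (nat_lit 450587) (nat_lit 10) (.e (nat_lit 573454) (nat_lit 9) .nil)))) .nil)) 
(.lf (nat_lit 44970) (.g (nat_lit 2307) (.e (nat_lit 1253) (nat_lit 92) (.e (nat_lit 98373) (nat_lit 29) (.e (nat_lit 450587) (nat_lit 10) (.e (nat_lit 573473) (nat_lit 12) (.e (nat_lit 57352) (nat_lit 0) .nil))))) .nil))) (.nd (nat_lit 5) 
(.lf (nat_lit 44954) (.g (nat_lit 6073) (.e (nat_lit 1253) (nat_lit 92) (.e (nat_lit 98373) (nat_lit 29) (.e (nat_lit 450587) (nat_lit 10) (.e (nat_lit 573471) (nat_lit 11) (.e (nat_lit 16392) (nat_lit 0) (.e (nat_lit 7537) (nat_lit 402) .nil)))))) (.g (nat_lit 6) .nil .nil))) 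
(.lf (nat_lit 44986) (.g (nat_lit 3115) (.e (nat_lit 1253) (nat_lit 92) (.e (nat_lit 98373) (nat_lit 29) (.e (nat_lit 450587) (nat_lit 10) (.e (nat_lit 573475) (nat_lit 12) (.e (nat_lit 57344) (nat_lit 0) (.e (nat_lit 6850) (nat_lit 371) (.e (nat_lit 2612) (nat_lit 163) (.e (nat_lit 164239) (nat_lit 187) .nil)))))))) (.g (nat_lit 4) .nil .nil)))))) 
(.nd (nat_lit 3) (.nd (nat_lit 4) (.nd (nat_lit 5) 
(.lf (nat_lit 44934) (.g (nat_lit 2733) (.e (nat_lit 1253) (nat_lit 92) (.e (nat_lit 98373) (nat_lit 29) (.e (nat_lit 450587) (nat_lit 10) (.e (nat_lit 573450) (nat_lit 9) .nil)))) .nil)) 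
(.lf (nat_lit 44966) (.g (nat_lit 3072) (.e (nat_lit 1253) (nat_lit 92) (.e (nat_lit 98373) (nat_lit 29) (.e (nat_lit 450587) (nat_lit 10) (.e (nat_lit 573473) (nat_lit 12) (.e (nat_lit 57348) (nat_lit 0) (.e (nat_lit 7265) (nat_lit 384) (.e (nat_lit 57347) (nat_lit 0) (.e (nat_lit 6450) (nat_lit 343) .nil)))))))) (.g (nat_lit 5) .nil .nil)))) (.nd (nat_lit 5) 
(.lf (nat_lit 44950) (.g (nat_lit 4466) (.e (nat_lit 1253) (nat_lit 92) (.e (nat_lit 98373) (nat_lit 29) (.e (nat_lit 450587) (nat_lit 10) (.e (nat_lit 573469) (nat_lit 11) .nil)))) .nil)) 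
(.lf (nat_lit 44982) (.g (nat_lit 2585) (.e (nat_lit 1253) (nat_lit 92) (.e (nat_lit 98373) (nat_lit 29) (.e (nat_lit 450587) (nat_lit 10) (.e (nat_lit 573473) (nat_lit 12) (.e (nat_lit 57567) (nat_lit 52) (.e (nat_lit 753686) (nat_lit 8) (.e (nat_lit 164239) (nat_lit 187) .nil))))))) (.g (nat_lit 4) .nil .nil))))) (.nd (nat_lit 4) (.nd (nat_lit 5) 
(.lf (nat_lit 44942) (.g (nat_lit 4743) (.e (nat_lit 1253) (nat_lit 92) (.e (nat_lit 98373) (nat_lit 29) (.e (nat_lit 450587) (nat_lit 10) (.e (nat_lit 573458) (nat_lit 9) .nil)))) .nil)) 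
(.lf (nat_lit 44974) (.g (nat_lit 2701) (.e (nat_lit 1253) (nat_lit 92) (.e (nat_lit 98373) (nat_lit 29) (.e (nat_lit 450587) (nat_lit 10) (.e (nat_lit 573473) (nat_lit 12) (.e (nat_lit 57353) (nat_lit 0) (.e (nat_lit 7265) (nat_lit 384) (.e (nat_lit 57354) (nat_lit 0) (.e (nat_lit 6493) (nat_lit 343) .nil)))))))) (.g (nat_lit 4) .nil .nil)))) (.nd (nat_lit 5) 
(.lf (nat_lit 44958) (.g (nat_lit 4661) (.e (nat_lit 1253) (nat_lit 92) (.e (nat_lit 98373) (nat_lit 29) (.e (nat_lit 450587) (nat_lit 10) (.e (nat_lit 573472) (nat_lit 12) .nil)))) .nil)) 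
(.lf (nat_lit 44990) (.g (nat_lit 3115) (.e (nat_lit 1253) (nat_lit 92) (.e (nat_lit 98373) (nat_lit 29) (.e (nat_lit 450587) (nat_lit 10) (.e (nat_lit 573475) (nat_lit 12) (.e (nat_lit 57344) (nat_lit 0) (.e (nat_lit 6853) (nat_lit 371) (.e (nat_lit 2612) (nat_lit 163) (.e (nat_lit 164239) (nat_lit 187) .nil)))))))) (.g (nat_lit 4) .nil .nil)))))))) 
(.nd (nat_lit 1) (.nd (nat_lit 2) (.nd (nat_lit 3) (.nd (nat_lit 4) (.nd (nat_lit 5) 
(.lf (nat_lit 44929) (.g (nat_lit 3645) (.e (nat_lit 1253) (nat_lit 92) (.e (nat_lit 98373) (nat_lit 29) (.e (nat_lit 450586) (nat_lit 10) (.e (nat_lit 573471) (nat_lit 11) (.e (nat_lit 16396) (nat_lit 0) (.e (nat_lit 7554) (nat_lit 402) .nil)))))) (.g (nat_lit 4) .nil .nil))) 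
(.lf (nat_lit 44961) (.g (nat_lit 2281) (.e (nat_lit 1253) (nat_lit 92) (.e (nat_lit 98373) (nat_lit 29) (.e (nat_lit 450587) (nat_lit 10) (.e (nat_lit 573473) (nat_lit 12) (.e (nat_lit 57347) (nat_lit 0) (.e (nat_lit 7125) (nat_lit 382) (.e (nat_lit 1183) (nat_lit 87) (.e (nat_lit 57741) (nat_lit 187) .nil)))))))) (.g (nat_lit 4) .nil .nil)))) (.nd (nat_lit 5) 
(.lf (nat_lit 44945) (.g (nat_lit 4946) (.e (nat_lit 1253) (nat_lit 92) (.e (nat_lit 98373) (nat_lit 29) (.e (nat_lit 450587) (nat_lit 10) (.e (nat_lit 573462) (nat_lit 9) .nil)))) .nil)) 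
(.lf (nat_lit 44977) (.g (nat_lit 2599) (.e (nat_lit 1253) (nat_lit 92) (.e (nat_lit 98373) (nat_lit 29) (.e (nat_lit 450587) (nat_lit 10) (.e (nat_lit 573473) (nat_lit 12) (.e (nat_lit 57354) (nat_lit 0) (.e (nat_lit 7270) (nat_lit 385) (.e (nat_lit 122883) (nat_lit 0) (.e (nat_lit 6493) (nat_lit 343) .nil)))))))) (.g (nat_lit 4) .nil .nil))))) (.nd (nat_lit 4) (.nd (nat_lit 5) 
(.lf (nat_lit 44937) (.g (nat_lit 1861) (.e (nat_lit 1253) (nat_lit 92) (.e (nat_lit 98373) (nat_lit 29) (.e (nat_lit 450587) (nat_lit 10) (.e (nat_lit 573452) (nat_lit 9) .nil)))) .nil)) 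
(.lf (nat_lit 44969) (.g (nat_lit 2571) (.e (nat_lit 1253) (nat_lit 92) (.e (nat_lit 98373) (nat_lit 29) (.e (nat_lit 450587) (nat_lit 10) (.e (nat_lit 573473) (nat_lit 12) (.e (nat_lit 57350) (nat_lit 0) .nil))))) .nil))) (.nd (nat_lit 5) 
(.lf (nat_lit 44953) (.g (nat_lit 4328) (.e (nat_lit 1253) (nat_lit 92) (.e (nat_lit 98373) (nat_lit 29) (.e (nat_lit 450587) (nat_lit 10) (.e (nat_lit 573471) (nat_lit 11) (.e (nat_lit 16392) (nat_lit 0) .nil))))) .nil)) 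
(.lf (nat_lit 44985) (.g (nat_lit 3012) (.e (nat_lit 1253) (nat_lit 92) (.e (nat_lit 98373) (nat_lit 29) (.e (nat_lit 450587) (nat_lit 10) (.e (nat_lit 573475) (nat_lit 12) (.e (nat_lit 57344) (nat_lit 0) (.e (nat_lit 6850) (nat_lit 371) (.e (nat_lit 2612) (nat_lit 163) (.e (nat_lit 164238) (nat_lit 187) .nil)))))))) (.g (nat_lit 4) .nil .nil)))))) 
(.nd (nat_lit 3) (.nd (nat_lit 4) (.nd (nat_lit 5) 
(.lf (nat_lit 44933) (.g (nat_lit 3818) (.e (nat_lit 1253) (nat_lit 92) (.e (nat_lit 98373) (nat_lit 29) (.e (nat_lit 450587) (nat_lit 10) (.e (nat_lit 573449) (nat_lit 9) (.e (nat_lit 375) (nat_lit 32) (.e (nat_lit 426025) (nat_lit 0) (.e (nat_lit 7555) (nat_lit 402) .nil))))))) (.g (nat_lit 4) .nil .nil))) 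
(.lf (nat_lit 44965) (.g (nat_lit 2371) (.e (nat_lit 1253) (nat_lit 92) (.e (nat_lit 98373) (nat_lit 29) (.e (nat_lit 450587) (nat_lit 10) (.e (nat_lit 573473) (nat_lit 12) (.e (nat_lit 57348) (nat_lit 0) (.e (nat_lit 7263) (nat_lit 384) (.e (nat_lit 57354) (nat_lit 0) (.e (nat_lit 6493) (nat_lit 343) .nil)))))))) (.g (nat_lit 4) .nil .nil)))) (.nd (nat_lit 5) 
(.lf (nat_lit 44949) (.g (nat_lit 2988) (.e (nat_lit 1253) (nat_lit 92) (.e (nat_lit 98373) (nat_lit 29) (.e (nat_lit 450587) (nat_lit 10) (.e (nat_lit 581376) (nat_lit 9) .nil)))) .nil)) 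
(.lf (nat_lit 44981) (.g (nat_lit 2678) (.e (nat_lit 1253) (nat_lit 92) (.e (nat_lit 98373) (nat_lit 29) (.e (nat_lit 450587) (nat_lit 10) (.e (nat_lit 573473) (nat_lit 12) (.e (nat_lit 57567) (nat_lit 52) (.e (nat_lit 753685) (nat_lit 8) (.e (nat_lit 164239) (nat_lit 187) .nil))))))) (.g (nat_lit 4) .nil .nil))))) (.nd (nat_lit 4) (.nd (nat_lit 5) 
(.lf (nat_lit 44941) (.g (nat_lit 2010) (.e (nat_lit 1253) (nat_lit 92) (.e (nat_lit 98373) (nat_lit 29) (.e (nat_lit 450587) (nat_lit 10) (.e (nat_lit 573457) (nat_lit 9) .nil)))) .nil)) 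
(.lf (nat_lit 44973) (.g (nat_lit 2941) (.e (nat_lit 1253) (nat_lit 92) (.e (nat_lit 98373) (nat_lit 29) (.e (nat_lit 450587) (nat_lit 10) (.e (nat_lit 573473) (nat_lit 12) (.e (nat_lit 57353) (nat_lit 0) (.e (nat_lit 7265) (nat_lit 384) (.e (nat_lit 57347) (nat_lit 0) (.e (nat_lit 6499) (nat_lit 343) .nil)))))))) (.g (nat_lit 5) .nil .nil)))) (.nd (nat_lit 5) 
(.lf (nat_lit 44957) (.g (nat_lit 4236) (.e (nat_lit 1253) (nat_lit 92) (.e (nat_lit 98373) (nat_lit 29) (.e (nat_lit 450587) (nat_lit 10) (.e (nat_lit 573471) (nat_lit 11) (.e (nat_lit 16396) (nat_lit 0) (.e (nat_lit 7556) (nat_lit 402) .nil)))))) (.g (nat_lit 4) .nil .nil))) 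
(.lf (nat_lit 44989) (.g (nat_lit 2932) (.e (nat_lit 1253) (nat_lit 92) (.e (nat_lit 98373) (nat_lit 29) (.e (nat_lit 450587) (nat_lit 10) (.e (nat_lit 573475) (nat_lit 12) (.e (nat_lit 57344) (nat_lit 0) (.e (nat_lit 6853) (nat_lit 371) (.e (nat_lit 2612) (nat_lit 163) (.e (nat_lit 164238) (nat_lit 187) .nil)))))))) (.g (nat_lit 4) .nil .nil))))))) 
(.nd (nat_lit 2) (.nd (nat_lit 3) (.nd (nat_lit 4) (.nd (nat_lit 5) 
(.lf (nat_lit 44931) (.g (nat_lit 3213) (.e (nat_lit 1253) (nat_lit 92) (.e (nat_lit 98373) (nat_lit 29) (.e (nat_lit 450587) (nat_lit 10) (.e (nat_lit 573448) (nat_lit 9) .nil)))) .nil)) 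
(.lf (nat_lit 44963) (.g (nat_lit 3038) (.e (nat_lit 1253) (nat_lit 92) (.e (nat_lit 98373) (nat_lit 29) (.e (nat_lit 450587) (nat_lit 10) (.e (nat_lit 573473) (nat_lit 12) (.e (nat_lit 57347) (nat_lit 0) (.e (nat_lit 7265) (nat_lit 384) (.e (nat_lit 57347) (nat_lit 0) (.e (nat_lit 6499) (nat_lit 343) .nil)))))))) (.g (nat_lit 5) .nil .nil)))) (.nd (nat_lit 5) 
(.lf (nat_lit 44947) (.g (nat_lit 4870) (.e (nat_lit 1253) (nat_lit 92) (.e (nat_lit 98373) (nat_lit 29) (.e (nat_lit 450587) (nat_lit 10) (.e (nat_lit 573464) (nat_lit 9) .nil)))) .nil)) 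
(.lf (nat_lit 44979) (.g (nat_lit 2607) (.e (nat_lit 1253) (nat_lit 92) (.e (nat_lit 98373) (nat_lit 29) (.e (nat_lit 450587) (nat_lit 10) (.e (nat_lit 573473) (nat_lit 12) (.e (nat_lit 57566) (nat_lit 52) (.e (nat_lit 753686) (nat_lit 8) (.e (nat_lit 164238) (nat_lit 187) .nil))))))) (.g (nat_lit 4) .nil .nil))))) (.nd (nat_lit 4) (.nd (nat_lit 5) 
(.lf (nat_lit 44939) (.g (nat_lit 3572) (.e (nat_lit 1253) (nat_lit 92) (.e (nat_lit 98373) (nat_lit 29) (.e (nat_lit 450587) (nat_lit 10) (.e (nat_lit 573455) (nat_lit 9) .nil)))) .nil)) 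
(.lf (nat_lit 44971) (.g (nat_lit 2574) (.e (nat_lit 1253) (nat_lit 92) (.e (nat_lit 98373) (nat_lit 29) (.e (nat_lit 450587) (nat_lit 10) (.e (nat_lit 573473) (nat_lit 12) (.e (nat_lit 57352) (nat_lit 0) (.e (nat_lit 7122) (nat_lit 382) (.e (nat_lit 1183) (nat_lit 87) (.e (nat_lit 57741) (nat_lit 187) .nil)))))))) (.g (nat_lit 4) .nil .nil)))) (.nd (nat_lit 5) 
(.lf (nat_lit 44955) (.g (nat_lit 5376) (.e (nat_lit 1253) (nat_lit 92) (.e (nat_lit 98373) (nat_lit 29) (.e (nat_lit 450587) (nat_lit 10) (.e (nat_lit 573471) (nat_lit 11) (.e (nat_lit 16392) (nat_lit 0) (.e (nat_lit 7555) (nat_lit 402) .nil)))))) (.g (nat_lit 5) .nil .nil))) 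
(.lf (nat_lit 44987) (.g (nat_lit 2800) (.e (nat_lit 1253) (nat_lit 92) (.e (nat_lit 98373) (nat_lit 29) (.e (nat_lit 450587) (nat_lit 10) (.e (nat_lit 573475) (nat_lit 12) (.e (nat_lit 57344) (nat_lit 0) (.e (nat_lit 6852) (nat_lit 371) (.e (nat_lit 2612) (nat_lit 163) (.e (nat_lit 164238) (nat_lit 187) .nil)))))))) (.g (nat_lit 4) .nil .nil)))))) 
(.nd (nat_lit 3) (.nd (nat_lit 4) (.nd (nat_lit 5) 
(.lf (nat_lit 44935) (.g (nat_lit 3383) (.e (nat_lit 1253) (nat_lit 92) (.e (nat_lit 98373) (nat_lit 29) (.e (nat_lit 450587) (nat_lit 10) (.e (nat_lit 573450) (nat_lit 9) (.e (nat_lit 375) (nat_lit 32) .nil))))) .nil)) 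
(.lf (nat_lit 44967) (.g (nat_lit 2964) (.e (nat_lit 1253) (nat_lit 92) (.e (nat_lit 98373) (nat_lit 29) (.e (nat_lit 450587) (nat_lit 10) (.e (nat_lit 573473) (nat_lit 12) (.e (nat_lit 57348) (nat_lit 0) (.e (nat_lit 7265) (nat_lit 384) (.e (nat_lit 57347) (nat_lit 0) (.e (nat_lit 6499) (nat_lit 343) .nil)))))))) (.g (nat_lit 5) .nil .nil)))) (.nd (nat_lit 5) 
(.lf (nat_lit 44951) (.g (nat_lit 3570) (.e (nat_lit 1253) (nat_lit 92) (.e (nat_lit 98373) (nat_lit 29) (.e (nat_lit 450587) (nat_lit 10) (.e (nat_lit 573470) (nat_lit 11) .nil)))) .nil)) 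
(.lf (nat_lit 44983) (.g (nat_lit 1117) (.e (nat_lit 1253) (nat_lit 92) (.e (nat_lit 98373) (nat_lit 29) (.e (nat_lit 450587) (nat_lit 10) (.e (nat_lit 573475) (nat_lit 12) .nil)))) .nil)))) (.nd (nat_lit 4) (.nd (nat_lit 5) 
(.lf (nat_lit 44943) (.g (nat_lit 4910) (.e (nat_lit 1253) (nat_lit 92) (.e (nat_lit 98373) (nat_lit 29) (.e (nat_lit 450587) (nat_lit 10) (.e (nat_lit 573460) (nat_lit 9) .nil)))) .nil)) 
(.lf (nat_lit 44975) (.g (nat_lit 2800) (.e (nat_lit 1253) (nat_lit 92) (.e (nat_lit 98373) (nat_lit 29) (.e (nat_lit 450587) (nat_lit 10) (.e (nat_lit 573473) (nat_lit 12) (.e (nat_lit 57354) (nat_lit 0) (.e (nat_lit 7270) (nat_lit 385) (.e (nat_lit 122880) (nat_lit 0) (.e (nat_lit 6490) (nat_lit 343) .nil)))))))) (.g (nat_lit 4) .nil .nil)))) (.nd (nat_lit 5) 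
(.lf (nat_lit 44959) (.g (nat_lit 1393) (.e (nat_lit 1253) (nat_lit 92) (.e (nat_lit 98373) (nat_lit 29) (.e (nat_lit 450587) (nat_lit 10) (.e (nat_lit 573473) (nat_lit 12) .nil)))) .nil)) 
(.lf (nat_lit 44991) (.g (nat_lit 2824) (.e (nat_lit 1253) (nat_lit 92) (.e (nat_lit 98373) (nat_lit 29) (.e (nat_lit 450587) (nat_lit 10) (.e (nat_lit 573475) (nat_lit 12) (.e (nat_lit 57344) (nat_lit 0) (.e (nat_lit 7251) (nat_lit 383) (.e (nat_lit 8195) (nat_lit 0) (.e (nat_lit 5321) (nat_lit 298) .nil)))))))) (.g (nat_lit 4) .nil .nil)))))))))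

noncomputable def tv623 : DT := (.nd (nat_lit 0) (.nd (nat_lit 1) (.nd (nat_lit 2) (.nd (nat_lit 3) (.nd (nat_lit 4) (.nd (nat_lit 5) 
(.lf (nat_lit 44992) (.g (nat_lit 2678) (.e (nat_lit 1253) (nat_lit 92) (.e (nat_lit 98373) (nat_lit 29) (.e (nat_lit 450587) (nat_lit 10) (.e (nat_lit 573475) (nat_lit 12) (.e (nat_lit 57344) (nat_lit 0) (.e (nat_lit 7251) (nat_lit 383) (.e (nat_lit 8195) (nat_lit 0) (.e (nat_lit 5323) (nat_lit 298) .nil)))))))) (.g (nat_lit 4) .nil .nil))) 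
(.lf (nat_lit 45024) (.g (nat_lit 3696) (.e (nat_lit 1253) (nat_lit 92) (.e (nat_lit 98373) (nat_lit 29) (.e (nat_lit 450587) (nat_lit 10) (.e (nat_lit 573475) (nat_lit 12) (.e (nat_lit 57347) (nat_lit 0) (.e (nat_lit 7265) (nat_lit 384) (.e (nat_lit 57354) (nat_lit 0) (.e (nat_lit 6493) (nat_lit 343) .nil)))))))) (.g (nat_lit 5) .nil .nil)))) (.nd (nat_lit 5) 
(.lf (nat_lit 45008) (.g (nat_lit 2564) (.e (nat_lit 1253) (nat_lit 92) (.e (nat_lit 98373) (nat_lit 29) (.e (nat_lit 450587) (nat_lit 10) (.e (nat_lit 573475) (nat_lit 12) (.e (nat_lit 57345) (nat_lit 0) (.e (nat_lit 7265) (nat_lit 384) (.e (nat_lit 57347) (nat_lit 0) (.e (nat_lit 6499) (nat_lit 343) .nil)))))))) (.g (nat_lit 4) .nil .nil))) 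
(.lf (nat_lit 45040) (.g (nat_lit 2233) (.e (nat_lit 1253) (nat_lit 92) (.e (nat_lit 98373) (nat_lit 29) (.e (nat_lit 450587) (nat_lit 10) (.e (nat_lit 573475) (nat_lit 12) (.e (nat_lit 57351) (nat_lit 0) .nil))))) .nil)))) (.nd (nat_lit 4) (.nd (nat_lit 5) 
(.lf (nat_lit 45000) (.g (nat_lit 2462) (.e (nat_lit 1253) (nat_lit 92) (.e (nat_lit 98373) (nat_lit 29) (.e (nat_lit 450587) (nat_lit 10) (.e (nat_lit 573475) (nat_lit 12) (.e (nat_lit 57345) (nat_lit 0) (.e (nat_lit 7122) (nat_lit 382) (.e (nat_lit 1183) (nat_lit 87) (.e (nat_lit 57740) (nat_lit 187) .nil)))))))) (.g (nat_lit 4) .nil .nil))) 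
(.lf (nat_lit 45032) (.g (nat_lit 2699) (.e (nat_lit 1253) (nat_lit 92) (.e (nat_lit 98373) (nat_lit 29) (.e (nat_lit 450587) (nat_lit 10) (.e (nat_lit 573475) (nat_lit 12) (.e (nat_lit 57348) (nat_lit 0) (.e (nat_lit 6923) (nat_lit 371) (.e (nat_lit 2601) (nat_lit 163) (.e (nat_lit 164238) (nat_lit 187) .nil)))))))) (.g (nat_lit 4) .nil .nil)))) (.nd (nat_lit 5) 
(.lf (nat_lit 45016) (.g (nat_lit 2127) (.e (nat_lit 1253) (nat_lit 92) (.e (nat_lit 98373) (nat_lit 29) (.e (nat_lit 450587) (nat_lit 10) (.e (nat_lit 573475) (nat_lit 12) (.e (nat_lit 57347) (nat_lit 0) .nil))))) .nil)) 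
(.lf (nat_lit 45048) (.g (nat_lit 5178) (.e (nat_lit 1253) (nat_lit 92) (.e (nat_lit 98373) (nat_lit 29) (.e (nat_lit 450587) (nat_lit 10) (.e (nat_lit 573475) (nat_lit 12) (.e (nat_lit 57354) (nat_lit 0) (.e (nat_lit 7270) (nat_lit 385) (.e (nat_lit 122883) (nat_lit 0) (.e (nat_lit 6489) (nat_lit 343) .nil)))))))) (.g (nat_lit 7) .nil .nil)))))) (.nd (nat_lit 3) (.nd (nat_lit 4) (.nd (nat_lit 5) 
(.lf (nat_lit 44996) (.g (nat_lit 2710) (.e (nat_lit 1253) (nat_lit 92) (.e (nat_lit 98373) (nat_lit 29) (.e (nat_lit 450587) (nat_lit 10) (.e (nat_lit 573475) (nat_lit 12) (.e (nat_lit 57345) (nat_lit 0) (.e (nat_lit 6869) (nat_lit 371) (.e (nat_lit 2608) (nat_lit 163) (.e (nat_lit 164239) (nat_lit 187) .nil)))))))) (.g (nat_lit 4) .nil .nil))) 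
(.lf (nat_lit 45028) (.g (nat_lit 2516) (.e (nat_lit 1253) (nat_lit 92) (.e (nat_lit 98373) (nat_lit 29) (.e (nat_lit 450587) (nat_lit 10) (.e (nat_lit 573475) (nat_lit 12) (.e (nat_lit 57348) (nat_lit 0) (.e (nat_lit 6852) (nat_lit 371) (.e (nat_lit 2612) (nat_lit 163) (.e (nat_lit 164238) (nat_lit 187) .nil)))))))) (.g (nat_lit 4) .nil .nil)))) (.nd (nat_lit 5) 
(.lf (nat_lit 45012) (.g (nat_lit 2471) (.e (nat_lit 1253) (nat_lit 92) (.e (nat_lit 98373) (nat_lit 29) (.e (nat_lit 450587) (nat_lit 10) (.e (nat_lit 573475) (nat_lit 12) (.e (nat_lit 57346) (nat_lit 0) (.e (nat_lit 6863) (nat_lit 371) (.e (nat_lit 2606) (nat_lit 163) (.e (nat_lit 164239) (nat_lit 187) .nil)))))))) (.g (nat_lit 4) .nil .nil))) 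
(.lf (nat_lit 45044) (.g (nat_lit 3434) (.e (nat_lit 1253) (nat_lit 92) (.e (nat_lit 98373) (nat_lit 29) (.e (nat_lit 450587) (nat_lit 10) (.e (nat_lit 573475) (nat_lit 12) (.e (nat_lit 57352) (nat_lit 0) (.e (nat_lit 7263) (nat_lit 384) (.e (nat_lit 57354) (nat_lit 0) (.e (nat_lit 6493) (nat_lit 343) .nil)))))))) (.g (nat_lit 4) .nil .nil))))) (.nd (nat_lit 4) (.nd (nat_lit 5) 
(.lf (nat_lit 45004) (.g (nat_lit 2751) (.e (nat_lit 1253) (nat_lit 92) (.e (nat_lit 98373) (nat_lit 29) (.e (nat_lit 450587) (nat_lit 10) (.e (nat_lit 573475) (nat_lit 12) (.e (nat_lit 57345) (nat_lit 0) (.e (nat_lit 7247) (nat_lit 383) (.e (nat_lit 8194) (nat_lit 0) (.e (nat_lit 5355) (nat_lit 298) .nil)))))))) (.g (nat_lit 4) .nil .nil))) 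
(.lf (nat_lit 45036) (.g (nat_lit 2357) (.e (nat_lit 1253) (nat_lit 92) (.e (nat_lit 98373) (nat_lit 29) (.e (nat_lit 450587) (nat_lit 10) (.e (nat_lit 573475) (nat_lit 12) (.e (nat_lit 57349) (nat_lit 0) .nil))))) .nil))) (.nd (nat_lit 5) 
(.lf (nat_lit 45020) (.g (nat_lit 2368) (.e (nat_lit 1253) (nat_lit 92) (.e (nat_lit 98373) (nat_lit 29) (.e (nat_lit 450587) (nat_lit 10) (.e (nat_lit 573475) (nat_lit 12) (.e (nat_lit 57347) (nat_lit 0) (.e (nat_lit 7125) (nat_lit 382) (.e (nat_lit 1183) (nat_lit 87) (.e (nat_lit 57740) (nat_lit 187) .nil)))))))) (.g (nat_lit 4) .nil .nil))) 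
(.lf (nat_lit 45052) (.g (nat_lit 3045) (.e (nat_lit 1253) (nat_lit 92) (.e (nat_lit 98373) (nat_lit 29) (.e (nat_lit 450587) (nat_lit 10) (.e (nat_lit 573475) (nat_lit 12) (.e (nat_lit 57565) (nat_lit 52) .nil))))) .nil)))))) (.nd (nat_lit 2) (.nd (nat_lit 3) (.nd (nat_lit 4) (.nd (nat_lit 5) 
(.lf (nat_lit 44994) (.g (nat_lit 4412) (.e (nat_lit 1253) (nat_lit 92) (.e (nat_lit 98373) (nat_lit 29) (.e (nat_lit 450587) (nat_lit 10) (.e (nat_lit 573475) (nat_lit 12) (.e (nat_lit 57345) (nat_lit 0) (.e (nat_lit 6850) (nat_lit 371) (.e (nat_lit 2612) (nat_lit 163) (.e (nat_lit 164239) (nat_lit 187) .nil)))))))) (.g (nat_lit 8) .nil .nil))) 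
(.lf (nat_lit 45026) (.g (nat_lit 2807) (.e (nat_lit 1253) (nat_lit 92) (.e (nat_lit 98373) (nat_lit 29) (.e (nat_lit 450587) (nat_lit 10) (.e (nat_lit 573475) (nat_lit 12) (.e (nat_lit 57348) (nat_lit 0) (.e (nat_lit 6850) (nat_lit 371) (.e (nat_lit 2612) (nat_lit 163) (.e (nat_lit 164238) (nat_lit 187) .nil)))))))) (.g (nat_lit 4) .nil .nil)))) (.nd (nat_lit 5) 
(.lf (nat_lit 45010) (.g (nat_lit 2115) (.e (nat_lit 1253) (nat_lit 92) (.e (nat_lit 98373) (nat_lit 29) (.e (nat_lit 450587) (nat_lit 10) (.e (nat_lit 573475) (nat_lit 12) (.e (nat_lit 57346) (nat_lit 0) .nil))))) .nil)) 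
(.lf (nat_lit 45042) (.g (nat_lit 2921) (.e (nat_lit 1253) (nat_lit 92) (.e (nat_lit 98373) (nat_lit 29) (.e (nat_lit 450587) (nat_lit 10) (.e (nat_lit 573475) (nat_lit 12) (.e (nat_lit 57351) (nat_lit 0) (.e (nat_lit 7265) (nat_lit 384) (.e (nat_lit 57354) (nat_lit 0) (.e (nat_lit 6493) (nat_lit 343) .nil)))))))) (.g (nat_lit 5) .nil .nil))))) (.nd (nat_lit 4) (.nd (nat_lit 5) 
(.lf (nat_lit 45002) (.g (nat_lit 2925) (.e (nat_lit 1253) (nat_lit 92) (.e (nat_lit 98373) (nat_lit 29) (.e (nat_lit 450587) (nat_lit 10) (.e (nat_lit 573475) (nat_lit 12) (.e (nat_lit 57345) (nat_lit 0) (.e (nat_lit 7247) (nat_lit 383) (.e (nat_lit 8194) (nat_lit 0) (.e (nat_lit 5322) (nat_lit 298) .nil)))))))) (.g (nat_lit 5) .nil .nil))) 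
(.lf (nat_lit 45034) (.g (nat_lit 2803) (.e (nat_lit 1253) (nat_lit 92) (.e (nat_lit 98373) (nat_lit 29) (.e (nat_lit 450587) (nat_lit 10) (.e (nat_lit 573475) (nat_lit 12) (.e (nat_lit 57348) (nat_lit 0) (.e (nat_lit 7263) (nat_lit 384) (.e (nat_lit 57354) (nat_lit 0) (.e (nat_lit 6493) (nat_lit 343) .nil)))))))) (.g (nat_lit 4) .nil .nil)))) (.nd (nat_lit 5) 
(.lf (nat_lit 45018) (.g (nat_lit 2675) (.e (nat_lit 1253) (nat_lit 92) (.e (nat_lit 98373) (nat_lit 29) (.e (nat_lit 450587) (nat_lit 10) (.e (nat_lit 573475) (nat_lit 12) (.e (nat_lit 57347) (nat_lit 0) (.e (nat_lit 6923) (nat_lit 371) (.e (nat_lit 2611) (nat_lit 163) (.e (nat_lit 164238) (nat_lit 187) .nil)))))))) (.g (nat_lit 4) .nil .nil))) 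
(.lf (nat_lit 45050) (.g (nat_lit 2562) (.e (nat_lit 1253) (nat_lit 92) (.e (nat_lit 98373) (nat_lit 29) (.e (nat_lit 450587) (nat_lit 10) (.e (nat_lit 573475) (nat_lit 12) (.e (nat_lit 57356) (nat_lit 0) (.e (nat_lit 7270) (nat_lit 385) (.e (nat_lit 122883) (nat_lit 0) (.e (nat_lit 6489) (nat_lit 343) .nil)))))))) (.g (nat_lit 4) .nil .nil)))))) (.nd (nat_lit 3) (.nd (nat_lit 4) (.nd (nat_lit 5) 
(.lf (nat_lit 44998) (.g (nat_lit 2385) (.e (nat_lit 1253) (nat_lit 92) (.e (nat_lit 98373) (nat_lit 29) (.e (nat_lit 450587) (nat_lit 10) (.e (nat_lit 573475) (nat_lit 12) (.e (nat_lit 57345) (nat_lit 0) (.e (nat_lit 6940) (nat_lit 375) (.e (nat_lit 163850) (nat_lit 0) (.e (nat_lit 7556) (nat_lit 402) .nil)))))))) (.g (nat_lit 4) .nil .nil))) 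
(.lf (nat_lit 45030) (.g (nat_lit 2516) (.e (nat_lit 1253) (nat_lit 92) (.e (nat_lit 98373) (nat_lit 29) (.e (nat_lit 450587) (nat_lit 10) (.e (nat_lit 573475) (nat_lit 12) (.e (nat_lit 57348) (nat_lit 0) (.e (nat_lit 6853) (nat_lit 371) (.e (nat_lit 2612) (nat_lit 163) (.e (nat_lit 164238) (nat_lit 187) .nil)))))))) (.g (nat_lit 4) .nil .nil)))) (.nd (nat_lit 5) 
(.lf (nat_lit 45014) (.g (nat_lit 2647) (.e (nat_lit 1253) (nat_lit 92) (.e (nat_lit 98373) (nat_lit 29) (.e (nat_lit 450587) (nat_lit 10) (.e (nat_lit 573475) (nat_lit 12) (.e (nat_lit 57346) (nat_lit 0) (.e (nat_lit 6916) (nat_lit 371) (.e (nat_lit 2611) (nat_lit 163) (.e (nat_lit 164238) (nat_lit 187) .nil)))))))) (.g (nat_lit 4) .nil .nil))) 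
(.lf (nat_lit 45046) (.g (nat_lit 3179) (.e (nat_lit 1253) (nat_lit 92) (.e (nat_lit 98373) (nat_lit 29) (.e (nat_lit 450587) (nat_lit 10) (.e (nat_lit 573475) (nat_lit 12) (.e (nat_lit 57353) (nat_lit 0) (.e (nat_lit 7265) (nat_lit 384) (.e (nat_lit 57354) (nat_lit 0) (.e (nat_lit 6493) (nat_lit 343) .nil)))))))) (.g (nat_lit 5) .nil .nil))))) (.nd (nat_lit 4) (.nd (nat_lit 5) 
(.lf (nat_lit 45006) (.g (nat_lit 2653) (.e (nat_lit 1253) (nat_lit 92) (.e (nat_lit 98373) (nat_lit 29) (.e (nat_lit 450587) (nat_lit 10) (.e (nat_lit 573475) (nat_lit 12) (.e (nat_lit 57345) (nat_lit 0) (.e (nat_lit 7247) (nat_lit 383) (.e (nat_lit 8196) (nat_lit 0) (.e (nat_lit 5323) (nat_lit 298) .nil)))))))) (.g (nat_lit 4) .nil .nil))) 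
(.lf (nat_lit 45038) (.g (nat_lit 2922) (.e (nat_lit 1253) (nat_lit 92) (.e (nat_lit 98373) (nat_lit 29) (.e (nat_lit 450587) (nat_lit 10) (.e (nat_lit 573475) (nat_lit 12) (.e (nat_lit 57350) (nat_lit 0) (.e (nat_lit 7251) (nat_lit 383) (.e (nat_lit 8195) (nat_lit 0) (.e (nat_lit 5321) (nat_lit 298) .nil)))))))) (.g (nat_lit 4) .nil .nil)))) (.nd (nat_lit 5) 
(.lf (nat_lit 45022) (.g (nat_lit 2658) (.e (nat_lit 1253) (nat_lit 92) (.e (nat_lit 98373) (nat_lit 29) (.e (nat_lit 450587) (nat_lit 10) (.e (nat_lit 573475) (nat_lit 12) (.e (nat_lit 57347) (nat_lit 0) (.e (nat_lit 7247) (nat_lit 383) (.e (nat_lit 8194) (nat_lit 0) (.e (nat_lit 5322) (nat_lit 298) .nil)))))))) (.g (nat_lit 4) .nil .nil))) 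
(.lf (nat_lit 45054) (.g (nat_lit 2853) (.e (nat_lit 1253) (nat_lit 92) (.e (nat_lit 98373) (nat_lit 29) (.e (nat_lit 450587) (nat_lit 10) (.e (nat_lit 573475) (nat_lit 12) (.e (nat_lit 57566) (nat_lit 52) (.e (nat_lit 753684) (nat_lit 8) (.e (nat_lit 164238) (nat_lit 187) .nil))))))) (.g (nat_lit 4) .nil .nil)))))))) 
(.nd (nat_lit 1) (.nd (nat_lit 2) (.nd (nat_lit 3) (.nd (nat_lit 4) (.nd (nat_lit 5) 
(.lf (nat_lit 44993) (.g (nat_lit 2252) (.e (nat_lit 1253) (nat_lit 92) (.e (nat_lit 98373) (nat_lit 29) (.e (nat_lit 450587) (nat_lit 10) (.e (nat_lit 573475) (nat_lit 12) (.e (nat_lit 57345) (nat_lit 0) .nil))))) .nil)) 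
(.lf (nat_lit 45025) (.g (nat_lit 2236) (.e (nat_lit 1253) (nat_lit 92) (.e (nat_lit 98373) (nat_lit 29) (.e (nat_lit 450587) (nat_lit 10) (.e (nat_lit 573475) (nat_lit 12) (.e (nat_lit 57348) (nat_lit 0) .nil))))) .nil))) (.nd (nat_lit 5) 
(.lf (nat_lit 45009) (.g (nat_lit 2340) (.e (nat_lit 1253) (nat_lit 92) (.e (nat_lit 98373) (nat_lit 29) (.e (nat_lit 450587) (nat_lit 10) (.e (nat_lit 573475) (nat_lit 12) (.e (nat_lit 57345) (nat_lit 0) (.e (nat_lit 7265) (nat_lit 384) (.e (nat_lit 57354) (nat_lit 0) (.e (nat_lit 6493) (nat_lit 343) .nil)))))))) (.g (nat_lit 4) .nil .nil))) 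
(.lf (nat_lit 45041) (.g (nat_lit 2835) (.e (nat_lit 1253) (nat_lit 92) (.e (nat_lit 98373) (nat_lit 29) (.e (nat_lit 450587) (nat_lit 10) (.e (nat_lit 573475) (nat_lit 12) (.e (nat_lit 57351) (nat_lit 0) (.e (nat_lit 7263) (nat_lit 384) (.e (nat_lit 57354) (nat_lit 0) (.e (nat_lit 6493) (nat_lit 343) .nil)))))))) (.g (nat_lit 4) .nil .nil))))) (.nd (nat_lit 4) (.nd (nat_lit 5) 
(.lf (nat_lit 45001) (.g (nat_lit 2948) (.e (nat_lit 1253) (nat_lit 92) (.e (nat_lit 98373) (nat_lit 29) (.e (nat_lit 450587) (nat_lit 10) (.e (nat_lit 573475) (nat_lit 12) (.e (nat_lit 57345) (nat_lit 0) (.e (nat_lit 7247) (nat_lit 383) (.e (nat_lit 8194) (nat_lit 0) (.e (nat_lit 5321) (nat_lit 298) .nil)))))))) (.g (nat_lit 5) .nil .nil))) 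
(.lf (nat_lit 45033) (.g (nat_lit 3452) (.e (nat_lit 1253) (nat_lit 92) (.e (nat_lit 98373) (nat_lit 29) (.e (nat_lit 450587) (nat_lit 10) (.e (nat_lit 573475) (nat_lit 12) (.e (nat_lit 57348) (nat_lit 0) (.e (nat_lit 6923) (nat_lit 371) (.e (nat_lit 2610) (nat_lit 163) (.e (nat_lit 164239) (nat_lit 187) .nil)))))))) (.g (nat_lit 5) .nil .nil)))) (.nd (nat_lit 5) 
(.lf (nat_lit 45017) (.g (nat_lit 2652) (.e (nat_lit 1253) (nat_lit 92) (.e (nat_lit 98373) (nat_lit 29) (.e (nat_lit 450587) (nat_lit 10) (.e (nat_lit 573475) (nat_lit 12) (.e (nat_lit 57347) (nat_lit 0) (.e (nat_lit 6853) (nat_lit 371) (.e (nat_lit 2612) (nat_lit 163) (.e (nat_lit 164239) (nat_lit 187) .nil)))))))) (.g (nat_lit 4) .nil .nil))) 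
(.lf (nat_lit 45049) (.g (nat_lit 2641) (.e (nat_lit 1253) (nat_lit 92) (.e (nat_lit 98373) (nat_lit 29) (.e (nat_lit 450587) (nat_lit 10) (.e (nat_lit 573475) (nat_lit 12) (.e (nat_lit 57354) (nat_lit 0) (.e (nat_lit 7272) (nat_lit 385) (.e (nat_lit 122883) (nat_lit 0) (.e (nat_lit 6489) (nat_lit 343) .nil)))))))) (.g (nat_lit 4) .nil .nil)))))) (.nd (nat_lit 3) (.nd (nat_lit 4) (.nd (nat_lit 5) 
(.lf (nat_lit 44997) (.g (nat_lit 2730) (.e (nat_lit 1253) (nat_lit 92) (.e (nat_lit 98373) (nat_lit 29) (.e (nat_lit 450587) (nat_lit 10) (.e (nat_lit 573475) (nat_lit 12) (.e (nat_lit 57345) (nat_lit 0) (.e (nat_lit 6923) (nat_lit 371) (.e (nat_lit 2611) (nat_lit 163) (.e (nat_lit 164238) (nat_lit 187) .nil)))))))) (.g (nat_lit 4) .nil .nil))) 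
(.lf (nat_lit 45029) (.g (nat_lit 2640) (.e (nat_lit 1253) (nat_lit 92) (.e (nat_lit 98373) (nat_lit 29) (.e (nat_lit 450587) (nat_lit 10) (.e (nat_lit 573475) (nat_lit 12) (.e (nat_lit 57348) (nat_lit 0) (.e (nat_lit 6852) (nat_lit 371) (.e (nat_lit 2612) (nat_lit 163) (.e (nat_lit 164239) (nat_lit 187) .nil)))))))) (.g (nat_lit 4) .nil .nil)))) (.nd (nat_lit 5) 
(.lf (nat_lit 45013) (.g (nat_lit 2646) (.e (nat_lit 1253) (nat_lit 92) (.e (nat_lit 98373) (nat_lit 29) (.e (nat_lit 450587) (nat_lit 10) (.e (nat_lit 573475) (nat_lit 12) (.e (nat_lit 57346) (nat_lit 0) (.e (nat_lit 6863) (nat_lit 371) (.e (nat_lit 2612) (nat_lit 163) (.e (nat_lit 164238) (nat_lit 187) .nil)))))))) (.g (nat_lit 4) .nil .nil))) 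
(.lf (nat_lit 45045) (.g (nat_lit 2424) (.e (nat_lit 1253) (nat_lit 92) (.e (nat_lit 98373) (nat_lit 29) (.e (nat_lit 450587) (nat_lit 10) (.e (nat_lit 573475) (nat_lit 12) (.e (nat_lit 57353) (nat_lit 0) .nil))))) .nil)))) (.nd (nat_lit 4) (.nd (nat_lit 5) 
(.lf (nat_lit 45005) (.g (nat_lit 2712) (.e (nat_lit 1253) (nat_lit 92) (.e (nat_lit 98373) (nat_lit 29) (.e (nat_lit 450587) (nat_lit 10) (.e (nat_lit 573475) (nat_lit 12) (.e (nat_lit 57345) (nat_lit 0) (.e (nat_lit 7247) (nat_lit 383) (.e (nat_lit 8196) (nat_lit 0) (.e (nat_lit 5321) (nat_lit 298) .nil)))))))) (.g (nat_lit 4) .nil .nil))) 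
(.lf (nat_lit 45037) (.g (nat_lit 2744) (.e (nat_lit 1253) (nat_lit 92) (.e (nat_lit 98373) (nat_lit 29) (.e (nat_lit 450587) (nat_lit 10) (.e (nat_lit 573475) (nat_lit 12) (.e (nat_lit 57350) (nat_lit 0) .nil))))) .nil))) (.nd (nat_lit 5) 
(.lf (nat_lit 45021) (.g (nat_lit 2681) (.e (nat_lit 1253) (nat_lit 92) (.e (nat_lit 98373) (nat_lit 29) (.e (nat_lit 450587) (nat_lit 10) (.e (nat_lit 573475) (nat_lit 12) (.e (nat_lit 57347) (nat_lit 0) (.e (nat_lit 7247) (nat_lit 383) (.e (nat_lit 8194) (nat_lit 0) (.e (nat_lit 5321) (nat_lit 298) .nil)))))))) (.g (nat_lit 4) .nil .nil))) 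
(.lf (nat_lit 45053) (.g (nat_lit 2305) (.e (nat_lit 1253) (nat_lit 92) (.e (nat_lit 98373) (nat_lit 29) (.e (nat_lit 450587) (nat_lit 10) (.e (nat_lit 573475) (nat_lit 12) (.e (nat_lit 57566) (nat_lit 52) .nil))))) .nil)))))) (.nd (nat_lit 2) (.nd (nat_lit 3) (.nd (nat_lit 4) (.nd (nat_lit 5) 
(.lf (nat_lit 44995) (.g (nat_lit 4506) (.e (nat_lit 1253) (nat_lit 92) (.e (nat_lit 98373) (nat_lit 29) (.e (nat_lit 450587) (nat_lit 10) (.e (nat_lit 573475) (nat_lit 12) (.e (nat_lit 57345) (nat_lit 0) (.e (nat_lit 6852) (nat_lit 371) (.e (nat_lit 2612) (nat_lit 163) (.e (nat_lit 164239) (nat_lit 187) .nil)))))))) (.g (nat_lit 8) .nil .nil))) 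
(.lf (nat_lit 45027) (.g (nat_lit 2910) (.e (nat_lit 1253) (nat_lit 92) (.e (nat_lit 98373) (nat_lit 29) (.e (nat_lit 450587) (nat_lit 10) (.e (nat_lit 573475) (nat_lit 12) (.e (nat_lit 57348) (nat_lit 0) (.e (nat_lit 6850) (nat_lit 371) (.e (nat_lit 2612) (nat_lit 163) (.e (nat_lit 164239) (nat_lit 187) .nil)))))))) (.g (nat_lit 4) .nil .nil)))) (.nd (nat_lit 5) 
(.lf (nat_lit 45011) (.g (nat_lit 2622) (.e (nat_lit 1253) (nat_lit 92) (.e (nat_lit 98373) (nat_lit 29) (.e (nat_lit 450587) (nat_lit 10) (.e (nat_lit 573475) (nat_lit 12) (.e (nat_lit 57346) (nat_lit 0) (.e (nat_lit 6863) (nat_lit 371) (.e (nat_lit 2606) (nat_lit 163) (.e (nat_lit 164238) (nat_lit 187) .nil)))))))) (.g (nat_lit 4) .nil .nil))) 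
(.lf (nat_lit 45043) (.g (nat_lit 3077) (.e (nat_lit 1253) (nat_lit 92) (.e (nat_lit 98373) (nat_lit 29) (.e (nat_lit 450587) (nat_lit 10) (.e (nat_lit 573475) (nat_lit 12) (.e (nat_lit 57352) (nat_lit 0) .nil))))) .nil)))) (.nd (nat_lit 4) (.nd (nat_lit 5) 
(.lf (nat_lit 45003) (.g (nat_lit 2717) (.e (nat_lit 1253) (nat_lit 92) (.e (nat_lit 98373) (nat_lit 29) (.e (nat_lit 450587) (nat_lit 10) (.e (nat_lit 573475) (nat_lit 12) (.e (nat_lit 57345) (nat_lit 0) (.e (nat_lit 7247) (nat_lit 383) (.e (nat_lit 8194) (nat_lit 0) (.e (nat_lit 5323) (nat_lit 298) .nil)))))))) (.g (nat_lit 4) .nil .nil))) 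
(.lf (nat_lit 45035) (.g (nat_lit 3242) (.e (nat_lit 1253) (nat_lit 92) (.e (nat_lit 98373) (nat_lit 29) (.e (nat_lit 450587) (nat_lit 10) (.e (nat_lit 573475) (nat_lit 12) (.e (nat_lit 57348) (nat_lit 0) (.e (nat_lit 7265) (nat_lit 384) (.e (nat_lit 57354) (nat_lit 0) (.e (nat_lit 6493) (nat_lit 343) .nil)))))))) (.g (nat_lit 5) .nil .nil)))) (.nd (nat_lit 5) 
(.lf (nat_lit 45019) (.g (nat_lit 2715) (.e (nat_lit 1253) (nat_lit 92) (.e (nat_lit 98373) (nat_lit 29) (.e (nat_lit 450587) (nat_lit 10) (.e (nat_lit 573475) (nat_lit 12) (.e (nat_lit 57347) (nat_lit 0) (.e (nat_lit 7124) (nat_lit 382) (.e (nat_lit 1183) (nat_lit 87) (.e (nat_lit 57741) (nat_lit 187) .nil)))))))) (.g (nat_lit 4) .nil .nil))) 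
(.lf (nat_lit 45051) (.g (nat_lit 2605) (.e (nat_lit 1253) (nat_lit 92) (.e (nat_lit 98373) (nat_lit 29) (.e (nat_lit 450587) (nat_lit 10) (.e (nat_lit 573475) (nat_lit 12) (.e (nat_lit 57356) (nat_lit 0) (.e (nat_lit 7272) (nat_lit 385) (.e (nat_lit 122883) (nat_lit 0) (.e (nat_lit 6489) (nat_lit 343) .nil)))))))) (.g (nat_lit 4) .nil .nil)))))) (.nd (nat_lit 3) (.nd (nat_lit 4) (.nd (nat_lit 5) 
(.lf (nat_lit 44999) (.g (nat_lit 2536) (.e (nat_lit 1253) (nat_lit 92) (.e (nat_lit 98373) (nat_lit 29) (.e (nat_lit 450587) (nat_lit 10) (.e (nat_lit 573475) (nat_lit 12) (.e (nat_lit 57345) (nat_lit 0) (.e (nat_lit 6942) (nat_lit 375) (.e (nat_lit 163850) (nat_lit 0) (.e (nat_lit 7556) (nat_lit 402) .nil)))))))) (.g (nat_lit 4) .nil .nil))) 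
(.lf (nat_lit 45031) (.g (nat_lit 2699) (.e (nat_lit 1253) (nat_lit 92) (.e (nat_lit 98373) (nat_lit 29) (.e (nat_lit 450587) (nat_lit 10) (.e (nat_lit 573475) (nat_lit 12) (.e (nat_lit 57348) (nat_lit 0) (.e (nat_lit 6853) (nat_lit 371) (.e (nat_lit 2612) (nat_lit 163) (.e (nat_lit 164239) (nat_lit 187) .nil)))))))) (.g (nat_lit 4) .nil .nil)))) (.nd (nat_lit 5) 
(.lf (nat_lit 45015) (.g (nat_lit 2629) (.e (nat_lit 1253) (nat_lit 92) (.e (nat_lit 98373) (nat_lit 29) (.e (nat_lit 450587) (nat_lit 10) (.e (nat_lit 573475) (nat_lit 12) (.e (nat_lit 57346) (nat_lit 0) (.e (nat_lit 6920) (nat_lit 371) (.e (nat_lit 2610) (nat_lit 163) (.e (nat_lit 164239) (nat_lit 187) .nil)))))))) (.g (nat_lit 4) .nil .nil))) 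
(.lf (nat_lit 45047) (.g (nat_lit 2009) (.e (nat_lit 1253) (nat_lit 92) (.e (nat_lit 98373) (nat_lit 29) (.e (nat_lit 450587) (nat_lit 10) (.e (nat_lit 573475) (nat_lit 12) (.e (nat_lit 57354) (nat_lit 0) .nil))))) .nil)))) (.nd (nat_lit 4) (.nd (nat_lit 5) 
(.lf (nat_lit 45007) (.g (nat_lit 2672) (.e (nat_lit 1253) (nat_lit 92) (.e (nat_lit 98373) (nat_lit 29) (.e (nat_lit 450587) (nat_lit 10) (.e (nat_lit 573475) (nat_lit 12) (.e (nat_lit 57345) (nat_lit 0) (.e (nat_lit 7265) (nat_lit 384) (.e (nat_lit 57347) (nat_lit 0) (.e (nat_lit 6450) (nat_lit 343) .nil)))))))) (.g (nat_lit 4) .nil .nil))) 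
(.lf (nat_lit 45039) (.g (nat_lit 2776) (.e (nat_lit 1253) (nat_lit 92) (.e (nat_lit 98373) (nat_lit 29) (.e (nat_lit 450587) (nat_lit 10) (.e (nat_lit 573475) (nat_lit 12) (.e (nat_lit 57350) (nat_lit 0) (.e (nat_lit 7251) (nat_lit 383) (.e (nat_lit 8195) (nat_lit 0) (.e (nat_lit 5323) (nat_lit 298) .nil)))))))) (.g (nat_lit 4) .nil .nil)))) (.nd (nat_lit 5) 
(.lf (nat_lit 45023) (.g (nat_lit 3920) (.e (nat_lit 1253) (nat_lit 92) (.e (nat_lit 98373) (nat_lit 29) (.e (nat_lit 450587) (nat_lit 10) (.e (nat_lit 573475) (nat_lit 12) (.e (nat_lit 57347) (nat_lit 0) (.e (nat_lit 7265) (nat_lit 384) (.e (nat_lit 57347) (nat_lit 0) (.e (nat_lit 6499) (nat_lit 343) .nil)))))))) (.g (nat_lit 6) .nil .nil))) 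
(.lf (nat_lit 45055) (.g (nat_lit 2818) (.e (nat_lit 1253) (nat_lit 92) (.e (nat_lit 98373) (nat_lit 29) (.e (nat_lit 450587) (nat_lit 10) (.e (nat_lit 573475) (nat_lit 12) (.e (nat_lit 57566) (nat_lit 52) (.e (nat_lit 753685) (nat_lit 8) (.e (nat_lit 164238) (nat_lit 187) .nil))))))) (.g (nat_lit 4) .nil .nil)))))))))

noncomputable def tv624 : DT := (.nd (nat_lit 0) (.nd (nat_lit 1) (.nd (nat_lit 2) (.nd (nat_lit 3) (.nd (nat_lit 4) (.nd (nat_lit 5) 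
(.lf (nat_lit 45056) (.g (nat_lit 2616) (.e (nat_lit 1253) (nat_lit 92) (.e (nat_lit 98373) (nat_lit 29) (.e (nat_lit 450587) (nat_lit 10) (.e (nat_lit 573475) (nat_lit 12) (.e (nat_lit 57566) (nat_lit 52) (.e (nat_lit 753686) (nat_lit 8) (.e (nat_lit 164239) (nat_lit 187) .nil))))))) (.g (nat_lit 4) .nil .nil))) 
(.lf (nat_lit 45088) (.g (nat_lit 4553) (.e (nat_lit 1253) (nat_lit 92) (.e (nat_lit 98373) (nat_lit 29) (.e (nat_lit 450587) (nat_lit 10) (.e (nat_lit 573477) (nat_lit 12) (.e (nat_lit 57574) (nat_lit 55) (.e (nat_lit 778454) (nat_lit 10) (.e (nat_lit 8568) (nat_lit 250) .nil))))))) (.g (nat_lit 4) .nil .nil)))) (.nd (nat_lit 5) 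
(.lf (nat_lit 45072) (.g (nat_lit 2706) (.e (nat_lit 1253) (nat_lit 92) (.e (nat_lit 98373) (nat_lit 29) (.e (nat_lit 450587) (nat_lit 10) (.e (nat_lit 573475) (nat_lit 12) (.e (nat_lit 57572) (nat_lit 54) (.e (nat_lit 770069) (nat_lit 7) (.e (nat_lit 65280) (nat_lit 187) .nil))))))) (.g (nat_lit 5) .nil .nil))) 
(.lf (nat_lit 45104) (.g (nat_lit 2048) (.e (nat_lit 1253) (nat_lit 92) (.e (nat_lit 98373) (nat_lit 29) (.e (nat_lit 450588) (nat_lit 10) (.e (nat_lit 573450) (nat_lit 9) .nil)))) .nil)))) (.nd (nat_lit 4) (.nd (nat_lit 5) 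
(.lf (nat_lit 45064) (.g (nat_lit 2614) (.e (nat_lit 1253) (nat_lit 92) (.e (nat_lit 98373) (nat_lit 29) (.e (nat_lit 450587) (nat_lit 10) (.e (nat_lit 573475) (nat_lit 12) (.e (nat_lit 57569) (nat_lit 53) (.e (nat_lit 761867) (nat_lit 5) (.e (nat_lit 1037) (nat_lit 81) (.e (nat_lit 6489) (nat_lit 343) .nil)))))))) (.g (nat_lit 4) .nil .nil))) 
(.lf (nat_lit 45096) (.g (nat_lit 4827) (.e (nat_lit 1253) (nat_lit 92) (.e (nat_lit 98373) (nat_lit 29) (.e (nat_lit 450587) (nat_lit 10) (.e (nat_lit 573478) (nat_lit 12) (.e (nat_lit 57574) (nat_lit 55) (.e (nat_lit 778454) (nat_lit 10) (.e (nat_lit 8567) (nat_lit 250) .nil))))))) (.g (nat_lit 5) .nil .nil)))) (.nd (nat_lit 5) 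
(.lf (nat_lit 45080) (.g (nat_lit 4487) (.e (nat_lit 1253) (nat_lit 92) (.e (nat_lit 98373) (nat_lit 29) (.e (nat_lit 450587) (nat_lit 10) (.e (nat_lit 573475) (nat_lit 12) (.e (nat_lit 57574) (nat_lit 55) (.e (nat_lit 778454) (nat_lit 10) (.e (nat_lit 8567) (nat_lit 250) .nil))))))) (.g (nat_lit 0) .nil .nil))) 
(.lf (nat_lit 45112) (.g (nat_lit 5630) (.e (nat_lit 1253) (nat_lit 92) (.e (nat_lit 98373) (nat_lit 29) (.e (nat_lit 450588) (nat_lit 10) (.e (nat_lit 573455) (nat_lit 9) .nil)))) .nil))))) (.nd (nat_lit 3) (.nd (nat_lit 4) (.nd (nat_lit 5) 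
(.lf (nat_lit 45060) (.g (nat_lit 2472) (.e (nat_lit 1253) (nat_lit 92) (.e (nat_lit 98373) (nat_lit 29) (.e (nat_lit 450587) (nat_lit 10) (.e (nat_lit 573475) (nat_lit 12) (.e (nat_lit 57568) (nat_lit 53) .nil))))) .nil)) 
(.lf (nat_lit 45092) (.g (nat_lit 4479) (.e (nat_lit 1253) (nat_lit 92) (.e (nat_lit 98373) (nat_lit 29) (.e (nat_lit 450587) (nat_lit 10) (.e (nat_lit 573477) (nat_lit 12) (.e (nat_lit 57575) (nat_lit 55) (.e (nat_lit 778452) (nat_lit 10) (.e (nat_lit 8568) (nat_lit 250) .nil))))))) (.g (nat_lit 4) .nil .nil)))) (.nd (nat_lit 5) 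
(.lf (nat_lit 45076) (.g (nat_lit 3241) (.e (nat_lit 1253) (nat_lit 92) (.e (nat_lit 98373) (nat_lit 29) (.e (nat_lit 450587) (nat_lit 10) (.e (nat_lit 573475) (nat_lit 12) (.e (nat_lit 57574) (nat_lit 55) (.e (nat_lit 778452) (nat_lit 10) (.e (nat_lit 8567) (nat_lit 250) .nil))))))) (.g (nat_lit 5) .nil .nil))) 
(.lf (nat_lit 45108) (.g (nat_lit 3018) (.e (nat_lit 1253) (nat_lit 92) (.e (nat_lit 98373) (nat_lit 29) (.e (nat_lit 450588) (nat_lit 10) (.e (nat_lit 573451) (nat_lit 9) (.e (nat_lit 13) (nat_lit 0) .nil))))) .nil)))) (.nd (nat_lit 4) (.nd (nat_lit 5) 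
(.lf (nat_lit 45068) (.g (nat_lit 2139) (.e (nat_lit 1253) (nat_lit 92) (.e (nat_lit 98373) (nat_lit 29) (.e (nat_lit 450587) (nat_lit 10) (.e (nat_lit 573475) (nat_lit 12) (.e (nat_lit 57572) (nat_lit 54) (.e (nat_lit 770058) (nat_lit 5) (.e (nat_lit 986) (nat_lit 81) (.e (nat_lit 6490) (nat_lit 343) .nil)))))))) (.g (nat_lit 5) .nil .nil))) 
(.lf (nat_lit 45100) (.g (nat_lit 3868) (.e (nat_lit 1253) (nat_lit 92) (.e (nat_lit 98373) (nat_lit 29) (.e (nat_lit 450588) (nat_lit 10) (.e (nat_lit 573441) (nat_lit 0) .nil)))) .nil))) (.nd (nat_lit 5) 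
(.lf (nat_lit 45084) (.g (nat_lit 3559) (.e (nat_lit 1253) (nat_lit 92) (.e (nat_lit 98373) (nat_lit 29) (.e (nat_lit 450587) (nat_lit 10) (.e (nat_lit 573477) (nat_lit 12) .nil)))) .nil)) 
(.lf (nat_lit 45116) (.g (nat_lit 5815) (.e (nat_lit 1253) (nat_lit 92) (.e (nat_lit 98373) (nat_lit 29) (.e (nat_lit 450588) (nat_lit 10) (.e (nat_lit 573460) (nat_lit 9) .nil)))) .nil)))))) (.nd (nat_lit 2) (.nd (nat_lit 3) (.nd (nat_lit 4) (.nd (nat_lit 5) 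
(.lf (nat_lit 45058) (.g (nat_lit 2544) (.e (nat_lit 1253) (nat_lit 92) (.e (nat_lit 98373) (nat_lit 29) (.e (nat_lit 450587) (nat_lit 10) (.e (nat_lit 573475) (nat_lit 12) (.e (nat_lit 57567) (nat_lit 52) (.e (nat_lit 753685) (nat_lit 8) (.e (nat_lit 164239) (nat_lit 187) .nil))))))) (.g (nat_lit 4) .nil .nil))) 
(.lf (nat_lit 45090) (.g (nat_lit 4659) (.e (nat_lit 1253) (nat_lit 92) (.e (nat_lit 98373) (nat_lit 29) (.e (nat_lit 450587) (nat_lit 10) (.e (nat_lit 573477) (nat_lit 12) (.e (nat_lit 57574) (nat_lit 55) (.e (nat_lit 778455) (nat_lit 10) (.e (nat_lit 8568) (nat_lit 250) .nil))))))) (.g (nat_lit 4) .nil .nil)))) (.nd (nat_lit 5) 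
(.lf (nat_lit 45074) (.g (nat_lit 2272) (.e (nat_lit 1253) (nat_lit 92) (.e (nat_lit 98373) (nat_lit 29) (.e (nat_lit 450587) (nat_lit 10) (.e (nat_lit 573475) (nat_lit 12) (.e (nat_lit 57573) (nat_lit 55) (.e (nat_lit 778310) (nat_lit 1) (.e (nat_lit 8517) (nat_lit 191) .nil))))))) (.g (nat_lit 4) .nil .nil))) 
(.lf (nat_lit 45106) (.g (nat_lit 1953) (.e (nat_lit 1253) (nat_lit 92) (.e (nat_lit 98373) (nat_lit 29) (.e (nat_lit 450588) (nat_lit 10) (.e (nat_lit 573451) (nat_lit 9) .nil)))) .nil)))) (.nd (nat_lit 4) (.nd (nat_lit 5) 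
(.lf (nat_lit 45066) (.g (nat_lit 2143) (.e (nat_lit 1253) (nat_lit 92) (.e (nat_lit 98373) (nat_lit 29) (.e (nat_lit 450587) (nat_lit 10) (.e (nat_lit 573475) (nat_lit 12) (.e (nat_lit 57572) (nat_lit 54) (.e (nat_lit 770056) (nat_lit 5) (.e (nat_lit 986) (nat_lit 81) (.e (nat_lit 6490) (nat_lit 343) .nil)))))))) (.g (nat_lit 5) .nil .nil))) 
(.lf (nat_lit 45098) (.g (nat_lit 4943) (.e (nat_lit 1253) (nat_lit 92) (.e (nat_lit 98373) (nat_lit 29) (.e (nat_lit 450587) (nat_lit 10) (.e (nat_lit 573478) (nat_lit 12) (.e (nat_lit 57574) (nat_lit 55) (.e (nat_lit 778455) (nat_lit 10) (.e (nat_lit 8567) (nat_lit 250) .nil))))))) (.g (nat_lit 5) .nil .nil)))) (.nd (nat_lit 5) 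
(.lf (nat_lit 45082) (.g (nat_lit 4562) (.e (nat_lit 1253) (nat_lit 92) (.e (nat_lit 98373) (nat_lit 29) (.e (nat_lit 450587) (nat_lit 10) (.e (nat_lit 573475) (nat_lit 12) (.e (nat_lit 57574) (nat_lit 55) (.e (nat_lit 778455) (nat_lit 10) (.e (nat_lit 8567) (nat_lit 250) .nil))))))) (.g (nat_lit 0) .nil .nil))) 
(.lf (nat_lit 45114) (.g (nat_lit 3251) (.e (nat_lit 1253) (nat_lit 92) (.e (nat_lit 98373) (nat_lit 29) (.e (nat_lit 450588) (nat_lit 10) (.e (nat_lit 573457) (nat_lit 9) .nil)))) .nil))))) (.nd (nat_lit 3) (.nd (nat_lit 4) (.nd (nat_lit 5) 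
(.lf (nat_lit 45062) (.g (nat_lit 2109) (.e (nat_lit 1253) (nat_lit 92) (.e (nat_lit 98373) (nat_lit 29) (.e (nat_lit 450587) (nat_lit 10) (.e (nat_lit 573475) (nat_lit 12) (.e (nat_lit 57569) (nat_lit 53) (.e (nat_lit 761857) (nat_lit 0) (.e (nat_lit 2452) (nat_lit 157) (.e (nat_lit 5321) (nat_lit 298) .nil)))))))) (.g (nat_lit 4) .nil .nil))) 
(.lf (nat_lit 45094) (.g (nat_lit 3413) (.e (nat_lit 1253) (nat_lit 92) (.e (nat_lit 98373) (nat_lit 29) (.e (nat_lit 450587) (nat_lit 10) (.e (nat_lit 573478) (nat_lit 12) .nil)))) .nil))) (.nd (nat_lit 5) 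
(.lf (nat_lit 45078) (.g (nat_lit 2527) (.e (nat_lit 1253) (nat_lit 92) (.e (nat_lit 98373) (nat_lit 29) (.e (nat_lit 450587) (nat_lit 10) (.e (nat_lit 573475) (nat_lit 12) (.e (nat_lit 57574) (nat_lit 55) (.e (nat_lit 778453) (nat_lit 10) (.e (nat_lit 8567) (nat_lit 250) .nil))))))) (.g (nat_lit 4) .nil .nil))) 
(.lf (nat_lit 45110) (.g (nat_lit 2135) (.e (nat_lit 1253) (nat_lit 92) (.e (nat_lit 98373) (nat_lit 29) (.e (nat_lit 450588) (nat_lit 10) (.e (nat_lit 573452) (nat_lit 9) .nil)))) .nil)))) (.nd (nat_lit 4) (.nd (nat_lit 5) 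
(.lf (nat_lit 45070) (.g (nat_lit 2278) (.e (nat_lit 1253) (nat_lit 92) (.e (nat_lit 98373) (nat_lit 29) (.e (nat_lit 450587) (nat_lit 10) (.e (nat_lit 573475) (nat_lit 12) (.e (nat_lit 57572) (nat_lit 54) (.e (nat_lit 770068) (nat_lit 7) (.e (nat_lit 65280) (nat_lit 187) .nil))))))) (.g (nat_lit 5) .nil .nil))) 
(.lf (nat_lit 45102) (.g (nat_lit 4361) (.e (nat_lit 1253) (nat_lit 92) (.e (nat_lit 98373) (nat_lit 29) (.e (nat_lit 450588) (nat_lit 10) (.e (nat_lit 573448) (nat_lit 9) .nil)))) .nil))) (.nd (nat_lit 5) 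
(.lf (nat_lit 45086) (.g (nat_lit 4308) (.e (nat_lit 1253) (nat_lit 92) (.e (nat_lit 98373) (nat_lit 29) (.e (nat_lit 450587) (nat_lit 10) (.e (nat_lit 573477) (nat_lit 12) (.e (nat_lit 57574) (nat_lit 55) (.e (nat_lit 778452) (nat_lit 10) (.e (nat_lit 8568) (nat_lit 250) .nil))))))) (.g (nat_lit 4) .nil .nil))) 
(.lf (nat_lit 45118) (.g (nat_lit 5804) (.e (nat_lit 1253) (nat_lit 92) (.e (nat_lit 98373) (nat_lit 29) (.e (nat_lit 450588) (nat_lit 10) (.e (nat_lit 573464) (nat_lit 9) .nil)))) .nil))))))) (.nd (nat_lit 1) (.nd (nat_lit 2) (.nd (nat_lit 3) (.nd (nat_lit 4) (.nd (nat_lit 5) 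
(.lf (nat_lit 45057) (.g (nat_lit 2379) (.e (nat_lit 1253) (nat_lit 92) (.e (nat_lit 98373) (nat_lit 29) (.e (nat_lit 450587) (nat_lit 10) (.e (nat_lit 573475) (nat_lit 12) (.e (nat_lit 57567) (nat_lit 52) .nil))))) .nil)) 
(.lf (nat_lit 45089) (.g (nat_lit 5436) (.e (nat_lit 1253) (nat_lit 92) (.e (nat_lit 98373) (nat_lit 29) (.e (nat_lit 450587) (nat_lit 10) (.e (nat_lit 573477) (nat_lit 12) (.e (nat_lit 57574) (nat_lit 55) (.e (nat_lit 778455) (nat_lit 10) (.e (nat_lit 8567) (nat_lit 250) .nil))))))) (.g (nat_lit 5) .nil .nil)))) (.nd (nat_lit 5) 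
(.lf (nat_lit 45073) (.g (nat_lit 2214) (.e (nat_lit 1253) (nat_lit 92) (.e (nat_lit 98373) (nat_lit 29) (.e (nat_lit 450587) (nat_lit 10) (.e (nat_lit 573475) (nat_lit 12) (.e (nat_lit 57573) (nat_lit 55) .nil))))) .nil)) 
(.lf (nat_lit 45105) (.g (nat_lit 3647) (.e (nat_lit 1253) (nat_lit 92) (.e (nat_lit 98373) (nat_lit 29) (.e (nat_lit 450588) (nat_lit 10) (.e (nat_lit 573450) (nat_lit 9) (.e (nat_lit 375) (nat_lit 32) (.e (nat_lit 426025) (nat_lit 0) (.e (nat_lit 7555) (nat_lit 402) .nil))))))) (.g (nat_lit 4) .nil .nil))))) (.nd (nat_lit 4) (.nd (nat_lit 5) 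
(.lf (nat_lit 45065) (.g (nat_lit 2533) (.e (nat_lit 1253) (nat_lit 92) (.e (nat_lit 98373) (nat_lit 29) (.e (nat_lit 450587) (nat_lit 10) (.e (nat_lit 573475) (nat_lit 12) (.e (nat_lit 57570) (nat_lit 54) .nil))))) .nil)) 
(.lf (nat_lit 45097) (.g (nat_lit 4059) (.e (nat_lit 1253) (nat_lit 92) (.e (nat_lit 98373) (nat_lit 29) (.e (nat_lit 450587) (nat_lit 10) (.e (nat_lit 573478) (nat_lit 12) (.e (nat_lit 57574) (nat_lit 55) (.e (nat_lit 778454) (nat_lit 10) (.e (nat_lit 8568) (nat_lit 250) .nil))))))) (.g (nat_lit 4) .nil .nil)))) (.nd (nat_lit 5) 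
(.lf (nat_lit 45081) (.g (nat_lit 3721) (.e (nat_lit 1253) (nat_lit 92) (.e (nat_lit 98373) (nat_lit 29) (.e (nat_lit 450587) (nat_lit 10) (.e (nat_lit 573475) (nat_lit 12) (.e (nat_lit 57574) (nat_lit 55) (.e (nat_lit 778454) (nat_lit 10) (.e (nat_lit 8568) (nat_lit 250) .nil))))))) (.g (nat_lit 5) .nil .nil))) 
(.lf (nat_lit 45113) (.g (nat_lit 5806) (.e (nat_lit 1253) (nat_lit 92) (.e (nat_lit 98373) (nat_lit 29) (.e (nat_lit 450588) (nat_lit 10) (.e (nat_lit 573456) (nat_lit 9) .nil)))) .nil))))) (.nd (nat_lit 3) (.nd (nat_lit 4) (.nd (nat_lit 5) 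
(.lf (nat_lit 45061) (.g (nat_lit 2063) (.e (nat_lit 1253) (nat_lit 92) (.e (nat_lit 98373) (nat_lit 29) (.e (nat_lit 450587) (nat_lit 10) (.e (nat_lit 573475) (nat_lit 12) (.e (nat_lit 57569) (nat_lit 53) .nil))))) .nil)) 
(.lf (nat_lit 45093) (.g (nat_lit 4571) (.e (nat_lit 1253) (nat_lit 92) (.e (nat_lit 98373) (nat_lit 29) (.e (nat_lit 450587) (nat_lit 10) (.e (nat_lit 573477) (nat_lit 12) (.e (nat_lit 57575) (nat_lit 55) (.e (nat_lit 778454) (nat_lit 10) (.e (nat_lit 8567) (nat_lit 250) .nil))))))) (.g (nat_lit 4) .nil .nil)))) (.nd (nat_lit 5) 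
(.lf (nat_lit 45077) (.g (nat_lit 3542) (.e (nat_lit 1253) (nat_lit 92) (.e (nat_lit 98373) (nat_lit 29) (.e (nat_lit 450587) (nat_lit 10) (.e (nat_lit 573475) (nat_lit 12) (.e (nat_lit 57574) (nat_lit 55) (.e (nat_lit 778452) (nat_lit 10) (.e (nat_lit 8568) (nat_lit 250) .nil))))))) (.g (nat_lit 5) .nil .nil))) 
(.lf (nat_lit 45109) (.g (nat_lit 3208) (.e (nat_lit 1253) (nat_lit 92) (.e (nat_lit 98373) (nat_lit 29) (.e (nat_lit 450588) (nat_lit 10) (.e (nat_lit 573451) (nat_lit 9) (.e (nat_lit 359) (nat_lit 30) .nil))))) .nil)))) (.nd (nat_lit 4) (.nd (nat_lit 5) 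
(.lf (nat_lit 45069) (.g (nat_lit 2736) (.e (nat_lit 1253) (nat_lit 92) (.e (nat_lit 98373) (nat_lit 29) (.e (nat_lit 450587) (nat_lit 10) (.e (nat_lit 573475) (nat_lit 12) (.e (nat_lit 57572) (nat_lit 54) (.e (nat_lit 770067) (nat_lit 7) (.e (nat_lit 57740) (nat_lit 187) .nil))))))) (.g (nat_lit 6) .nil .nil))) 
(.lf (nat_lit 45101) (.g (nat_lit 4098) (.e (nat_lit 1253) (nat_lit 92) (.e (nat_lit 98373) (nat_lit 29) (.e (nat_lit 450588) (nat_lit 10) (.e (nat_lit 581376) (nat_lit 1) .nil)))) .nil))) (.nd (nat_lit 5) 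
(.lf (nat_lit 45085) (.g (nat_lit 4120) (.e (nat_lit 1253) (nat_lit 92) (.e (nat_lit 98373) (nat_lit 29) (.e (nat_lit 450587) (nat_lit 10) (.e (nat_lit 573477) (nat_lit 12) (.e (nat_lit 57574) (nat_lit 55) .nil))))) .nil)) 
(.lf (nat_lit 45117) (.g (nat_lit 5816) (.e (nat_lit 1253) (nat_lit 92) (.e (nat_lit 98373) (nat_lit 29) (.e (nat_lit 450588) (nat_lit 10) (.e (nat_lit 573463) (nat_lit 9) .nil)))) .nil)))))) (.nd (nat_lit 2) (.nd (nat_lit 3) (.nd (nat_lit 4) (.nd (nat_lit 5) 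
(.lf (nat_lit 45059) (.g (nat_lit 2451) (.e (nat_lit 1253) (nat_lit 92) (.e (nat_lit 98373) (nat_lit 29) (.e (nat_lit 450587) (nat_lit 10) (.e (nat_lit 573475) (nat_lit 12) (.e (nat_lit 57567) (nat_lit 52) (.e (nat_lit 753686) (nat_lit 8) (.e (nat_lit 164239) (nat_lit 187) .nil))))))) (.g (nat_lit 4) .nil .nil))) 
(.lf (nat_lit 45091) (.g (nat_lit 4472) (.e (nat_lit 1253) (nat_lit 92) (.e (nat_lit 98373) (nat_lit 29) (.e (nat_lit 450587) (nat_lit 10) (.e (nat_lit 573477) (nat_lit 12) (.e (nat_lit 57575) (nat_lit 55) .nil))))) .nil))) (.nd (nat_lit 5) 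
(.lf (nat_lit 45075) (.g (nat_lit 2265) (.e (nat_lit 1253) (nat_lit 92) (.e (nat_lit 98373) (nat_lit 29) (.e (nat_lit 450587) (nat_lit 10) (.e (nat_lit 573475) (nat_lit 12) (.e (nat_lit 57573) (nat_lit 55) (.e (nat_lit 778447) (nat_lit 10) (.e (nat_lit 8567) (nat_lit 250) .nil))))))) (.g (nat_lit 4) .nil .nil))) 
(.lf (nat_lit 45107) (.g (nat_lit 3101) (.e (nat_lit 1253) (nat_lit 92) (.e (nat_lit 98373) (nat_lit 29) (.e (nat_lit 450588) (nat_lit 10) (.e (nat_lit 573451) (nat_lit 9) (.e (nat_lit 11) (nat_lit 0) .nil))))) .nil)))) (.nd (nat_lit 4) (.nd (nat_lit 5) 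
(.lf (nat_lit 45067) (.g (nat_lit 3029) (.e (nat_lit 1253) (nat_lit 92) (.e (nat_lit 98373) (nat_lit 29) (.e (nat_lit 450587) (nat_lit 10) (.e (nat_lit 573475) (nat_lit 12) (.e (nat_lit 57572) (nat_lit 54) (.e (nat_lit 770058) (nat_lit 5) (.e (nat_lit 985) (nat_lit 81) (.e (nat_lit 6489) (nat_lit 343) .nil)))))))) (.g (nat_lit 6) .nil .nil))) 
(.lf (nat_lit 45099) (.g (nat_lit 4166) (.e (nat_lit 1253) (nat_lit 92) (.e (nat_lit 98373) (nat_lit 29) (.e (nat_lit 450587) (nat_lit 10) (.e (nat_lit 573478) (nat_lit 12) (.e (nat_lit 57574) (nat_lit 55) (.e (nat_lit 778455) (nat_lit 10) (.e (nat_lit 8568) (nat_lit 250) .nil))))))) (.g (nat_lit 4) .nil .nil)))) (.nd (nat_lit 5) 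
(.lf (nat_lit 45083) (.g (nat_lit 3786) (.e (nat_lit 1253) (nat_lit 92) (.e (nat_lit 98373) (nat_lit 29) (.e (nat_lit 450587) (nat_lit 10) (.e (nat_lit 573475) (nat_lit 12) (.e (nat_lit 57574) (nat_lit 55) (.e (nat_lit 778455) (nat_lit 10) (.e (nat_lit 8568) (nat_lit 250) .nil))))))) (.g (nat_lit 6) .nil .nil))) 
(.lf (nat_lit 45115) (.g (nat_lit 3574) (.e (nat_lit 1253) (nat_lit 92) (.e (nat_lit 98373) (nat_lit 29) (.e (nat_lit 450588) (nat_lit 10) (.e (nat_lit 573458) (nat_lit 9) .nil)))) .nil))))) (.nd (nat_lit 3) (.nd (nat_lit 4) (.nd (nat_lit 5) 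
(.lf (nat_lit 45063) (.g (nat_lit 2295) (.e (nat_lit 1253) (nat_lit 92) (.e (nat_lit 98373) (nat_lit 29) (.e (nat_lit 450587) (nat_lit 10) (.e (nat_lit 573475) (nat_lit 12) (.e (nat_lit 57569) (nat_lit 53) (.e (nat_lit 761866) (nat_lit 5) (.e (nat_lit 1037) (nat_lit 81) (.e (nat_lit 6489) (nat_lit 343) .nil)))))))) (.g (nat_lit 4) .nil .nil))) 
(.lf (nat_lit 45095) (.g (nat_lit 3851) (.e (nat_lit 1253) (nat_lit 92) (.e (nat_lit 98373) (nat_lit 29) (.e (nat_lit 450587) (nat_lit 10) (.e (nat_lit 573478) (nat_lit 12) (.e (nat_lit 57574) (nat_lit 55) .nil))))) .nil))) (.nd (nat_lit 5) 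
(.lf (nat_lit 45079) (.g (nat_lit 3199) (.e (nat_lit 1253) (nat_lit 92) (.e (nat_lit 98373) (nat_lit 29) (.e (nat_lit 450587) (nat_lit 10) (.e (nat_lit 573475) (nat_lit 12) (.e (nat_lit 57574) (nat_lit 55) (.e (nat_lit 778453) (nat_lit 10) (.e (nat_lit 8568) (nat_lit 250) .nil))))))) (.g (nat_lit 5) .nil .nil))) 
(.lf (nat_lit 45111) (.g (nat_lit 3911) (.e (nat_lit 1253) (nat_lit 92) (.e (nat_lit 98373) (nat_lit 29) (.e (nat_lit 450588) (nat_lit 10) (.e (nat_lit 573454) (nat_lit 9) .nil)))) .nil)))) (.nd (nat_lit 4) (.nd (nat_lit 5) 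
(.lf (nat_lit 45071) (.g (nat_lit 2725) (.e (nat_lit 1253) (nat_lit 92) (.e (nat_lit 98373) (nat_lit 29) (.e (nat_lit 450587) (nat_lit 10) (.e (nat_lit 573475) (nat_lit 12) (.e (nat_lit 57572) (nat_lit 54) (.e (nat_lit 770069) (nat_lit 7) (.e (nat_lit 57740) (nat_lit 187) .nil))))))) (.g (nat_lit 5) .nil .nil))) 
(.lf (nat_lit 45103) (.g (nat_lit 2849) (.e (nat_lit 1253) (nat_lit 92) (.e (nat_lit 98373) (nat_lit 29) (.e (nat_lit 450588) (nat_lit 10) (.e (nat_lit 573449) (nat_lit 9) .nil)))) .nil))) (.nd (nat_lit 5) 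
(.lf (nat_lit 45087) (.g (nat_lit 5321) (.e (nat_lit 1253) (nat_lit 92) (.e (nat_lit 98373) (nat_lit 29) (.e (nat_lit 450587) (nat_lit 10) (.e (nat_lit 573477) (nat_lit 12) (.e (nat_lit 57574) (nat_lit 55) (.e (nat_lit 778454) (nat_lit 10) (.e (nat_lit 8567) (nat_lit 250) .nil))))))) (.g (nat_lit 5) .nil .nil))) 
(.lf (nat_lit 45119) (.g (nat_lit 4098) (.e (nat_lit 1253) (nat_lit 92) (.e (nat_lit 98373) (nat_lit 29) (.e (nat_lit 450588) (nat_lit 10) (.e (nat_lit 581376) (nat_lit 9) .nil)))) .nil))))))))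

noncomputable def tv625 : DT := (.nd (nat_lit 0) (.nd (nat_lit 1) (.nd (nat_lit 2) (.nd (nat_lit 3) (.nd (nat_lit 4) (.nd (nat_lit 5) 
(.lf (nat_lit 45120) (.g (nat_lit 3906) (.e (nat_lit 1253) (nat_lit 92) (.e (nat_lit 98373) (nat_lit 29) (.e (nat_lit 450588) (nat_lit 10) (.e (nat_lit 573468) (nat_lit 10) .nil)))) .nil)) 
(.lf (nat_lit 45152) (.g (nat_lit 4556) (.e (nat_lit 1253) (nat_lit 92) (.e (nat_lit 98373) (nat_lit 29) (.e (nat_lit 450588) (nat_lit 10) (.e (nat_lit 573474) (nat_lit 12) (.e (nat_lit 57347) (nat_lit 0) (.e (nat_lit 7263) (nat_lit 384) (.e (nat_lit 57354) (nat_lit 0) (.e (nat_lit 6493) (nat_lit 343) .nil)))))))) (.g (nat_lit 5) .nil .nil)))) (.nd (nat_lit 5) 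
(.lf (nat_lit 45136) (.g (nat_lit 3386) (.e (nat_lit 1253) (nat_lit 92) (.e (nat_lit 98373) (nat_lit 29) (.e (nat_lit 450588) (nat_lit 10) (.e (nat_lit 573471) (nat_lit 11) (.e (nat_lit 16397) (nat_lit 0) .nil))))) .nil)) 
(.lf (nat_lit 45168) (.g (nat_lit 3604) (.e (nat_lit 1253) (nat_lit 92) (.e (nat_lit 98373) (nat_lit 29) (.e (nat_lit 450588) (nat_lit 10) (.e (nat_lit 573474) (nat_lit 12) (.e (nat_lit 57348) (nat_lit 0) (.e (nat_lit 7247) (nat_lit 383) (.e (nat_lit 8194) (nat_lit 0) (.e (nat_lit 5323) (nat_lit 298) .nil)))))))) (.g (nat_lit 4) .nil .nil))))) (.nd (nat_lit 4) (.nd (nat_lit 5) 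
(.lf (nat_lit 45128) (.g (nat_lit 2706) (.e (nat_lit 1253) (nat_lit 92) (.e (nat_lit 98373) (nat_lit 29) (.e (nat_lit 450588) (nat_lit 10) (.e (nat_lit 573471) (nat_lit 11) (.e (nat_lit 16388) (nat_lit 0) .nil))))) .nil)) 
(.lf (nat_lit 45160) (.g (nat_lit 3491) (.e (nat_lit 1253) (nat_lit 92) (.e (nat_lit 98373) (nat_lit 29) (.e (nat_lit 450588) (nat_lit 10) (.e (nat_lit 573474) (nat_lit 12) (.e (nat_lit 57348) (nat_lit 0) (.e (nat_lit 6923) (nat_lit 371) (.e (nat_lit 2607) (nat_lit 163) (.e (nat_lit 164239) (nat_lit 187) .nil)))))))) (.g (nat_lit 4) .nil .nil)))) (.nd (nat_lit 5) 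
(.lf (nat_lit 45144) (.g (nat_lit 1424) (.e (nat_lit 1253) (nat_lit 92) (.e (nat_lit 98373) (nat_lit 29) (.e (nat_lit 450588) (nat_lit 10) (.e (nat_lit 573474) (nat_lit 12) .nil)))) .nil)) 
(.lf (nat_lit 45176) (.g (nat_lit 3509) (.e (nat_lit 1253) (nat_lit 92) (.e (nat_lit 98373) (nat_lit 29) (.e (nat_lit 450588) (nat_lit 10) (.e (nat_lit 573474) (nat_lit 12) (.e (nat_lit 57348) (nat_lit 0) (.e (nat_lit 7265) (nat_lit 384) (.e (nat_lit 57347) (nat_lit 0) (.e (nat_lit 6461) (nat_lit 343) .nil)))))))) (.g (nat_lit 4) .nil .nil)))))) (.nd (nat_lit 3) (.nd (nat_lit 4) (.nd (nat_lit 5) 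
(.lf (nat_lit 45124) (.g (nat_lit 4157) (.e (nat_lit 1253) (nat_lit 92) (.e (nat_lit 98373) (nat_lit 29) (.e (nat_lit 450588) (nat_lit 10) (.e (nat_lit 573470) (nat_lit 11) (.e (nat_lit 16385) (nat_lit 0) (.e (nat_lit 7523) (nat_lit 402) .nil)))))) (.g (nat_lit 4) .nil .nil))) 
(.lf (nat_lit 45156) (.g (nat_lit 3713) (.e (nat_lit 1253) (nat_lit 92) (.e (nat_lit 98373) (nat_lit 29) (.e (nat_lit 450588) (nat_lit 10) (.e (nat_lit 573474) (nat_lit 12) (.e (nat_lit 57348) (nat_lit 0) (.e (nat_lit 6853) (nat_lit 371) (.e (nat_lit 2604) (nat_lit 163) (.e (nat_lit 164238) (nat_lit 187) .nil)))))))) (.g (nat_lit 4) .nil .nil)))) (.nd (nat_lit 5) 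
(.lf (nat_lit 45140) (.g (nat_lit 5989) (.e (nat_lit 1253) (nat_lit 92) (.e (nat_lit 98373) (nat_lit 29) (.e (nat_lit 450588) (nat_lit 10) (.e (nat_lit 573473) (nat_lit 12) (.e (nat_lit 57348) (nat_lit 0) (.e (nat_lit 7265) (nat_lit 384) (.e (nat_lit 57347) (nat_lit 0) (.e (nat_lit 6450) (nat_lit 343) .nil)))))))) (.g (nat_lit 4) .nil .nil))) 
(.lf (nat_lit 45172) (.g (nat_lit 3390) (.e (nat_lit 1253) (nat_lit 92) (.e (nat_lit 98373) (nat_lit 29) (.e (nat_lit 450588) (nat_lit 10) (.e (nat_lit 573474) (nat_lit 12) (.e (nat_lit 57348) (nat_lit 0) (.e (nat_lit 7261) (nat_lit 384) (.e (nat_lit 57347) (nat_lit 0) (.e (nat_lit 6450) (nat_lit 343) .nil)))))))) (.g (nat_lit 4) .nil .nil))))) (.nd (nat_lit 4) (.nd (nat_lit 5) 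
(.lf (nat_lit 45132) (.g (nat_lit 5219) (.e (nat_lit 1253) (nat_lit 92) (.e (nat_lit 98373) (nat_lit 29) (.e (nat_lit 450588) (nat_lit 10) (.e (nat_lit 573471) (nat_lit 11) (.e (nat_lit 16392) (nat_lit 0) (.e (nat_lit 7555) (nat_lit 402) .nil)))))) (.g (nat_lit 6) .nil .nil))) 
(.lf (nat_lit 45164) (.g (nat_lit 3539) (.e (nat_lit 1253) (nat_lit 92) (.e (nat_lit 98373) (nat_lit 29) (.e (nat_lit 450588) (nat_lit 10) (.e (nat_lit 573474) (nat_lit 12) (.e (nat_lit 57348) (nat_lit 0) (.e (nat_lit 7125) (nat_lit 382) (.e (nat_lit 1183) (nat_lit 87) (.e (nat_lit 57740) (nat_lit 187) .nil)))))))) (.g (nat_lit 4) .nil .nil)))) (.nd (nat_lit 5) 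
(.lf (nat_lit 45148) (.g (nat_lit 3585) (.e (nat_lit 1253) (nat_lit 92) (.e (nat_lit 98373) (nat_lit 29) (.e (nat_lit 450588) (nat_lit 10) (.e (nat_lit 573474) (nat_lit 12) (.e (nat_lit 57347) (nat_lit 0) (.e (nat_lit 7124) (nat_lit 382) (.e (nat_lit 1183) (nat_lit 87) (.e (nat_lit 57740) (nat_lit 187) .nil)))))))) (.g (nat_lit 4) .nil .nil))) 
(.lf (nat_lit 45180) (.g (nat_lit 3608) (.e (nat_lit 1253) (nat_lit 92) (.e (nat_lit 98373) (nat_lit 29) (.e (nat_lit 450588) (nat_lit 10) (.e (nat_lit 573474) (nat_lit 12) (.e (nat_lit 57351) (nat_lit 0) .nil))))) .nil)))))) (.nd (nat_lit 2) (.nd (nat_lit 3) (.nd (nat_lit 4) (.nd (nat_lit 5) 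
(.lf (nat_lit 45122) (.g (nat_lit 3456) (.e (nat_lit 1253) (nat_lit 92) (.e (nat_lit 98373) (nat_lit 29) (.e (nat_lit 450588) (nat_lit 10) (.e (nat_lit 573470) (nat_lit 11) .nil)))) .nil)) 
(.lf (nat_lit 45154) (.g (nat_lit 3238) (.e (nat_lit 1253) (nat_lit 92) (.e (nat_lit 98373) (nat_lit 29) (.e (nat_lit 450588) (nat_lit 10) (.e (nat_lit 573474) (nat_lit 12) (.e (nat_lit 57348) (nat_lit 0) .nil))))) .nil))) (.nd (nat_lit 5) 
(.lf (nat_lit 45138) (.g (nat_lit 5725) (.e (nat_lit 1253) (nat_lit 92) (.e (nat_lit 98373) (nat_lit 29) (.e (nat_lit 450588) (nat_lit 10) (.e (nat_lit 573473) (nat_lit 12) (.e (nat_lit 57347) (nat_lit 0) .nil))))) .nil)) 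
(.lf (nat_lit 45170) (.g (nat_lit 3561) (.e (nat_lit 1253) (nat_lit 92) (.e (nat_lit 98373) (nat_lit 29) (.e (nat_lit 450588) (nat_lit 10) (.e (nat_lit 573474) (nat_lit 12) (.e (nat_lit 57348) (nat_lit 0) (.e (nat_lit 7247) (nat_lit 383) (.e (nat_lit 8196) (nat_lit 0) (.e (nat_lit 5321) (nat_lit 298) .nil)))))))) (.g (nat_lit 4) .nil .nil))))) (.nd (nat_lit 4) (.nd (nat_lit 5) 
(.lf (nat_lit 45130) (.g (nat_lit 2975) (.e (nat_lit 1253) (nat_lit 92) (.e (nat_lit 98373) (nat_lit 29) (.e (nat_lit 450588) (nat_lit 10) (.e (nat_lit 573471) (nat_lit 11) (.e (nat_lit 16389) (nat_lit 0) (.e (nat_lit 7562) (nat_lit 402) .nil)))))) (.g (nat_lit 4) .nil .nil))) 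
(.lf (nat_lit 45162) (.g (nat_lit 3655) (.e (nat_lit 1253) (nat_lit 92) (.e (nat_lit 98373) (nat_lit 29) (.e (nat_lit 450588) (nat_lit 10) (.e (nat_lit 573474) (nat_lit 12) (.e (nat_lit 57348) (nat_lit 0) (.e (nat_lit 7124) (nat_lit 382) (.e (nat_lit 1183) (nat_lit 87) (.e (nat_lit 57740) (nat_lit 187) .nil)))))))) (.g (nat_lit 4) .nil .nil)))) (.nd (nat_lit 5) 
(.lf (nat_lit 45146) (.g (nat_lit 4618) (.e (nat_lit 1253) (nat_lit 92) (.e (nat_lit 98373) (nat_lit 29) (.e (nat_lit 450588) (nat_lit 10) (.e (nat_lit 573474) (nat_lit 12) (.e (nat_lit 57347) (nat_lit 0) (.e (nat_lit 6923) (nat_lit 371) (.e (nat_lit 2610) (nat_lit 163) (.e (nat_lit 164238) (nat_lit 187) .nil)))))))) (.g (nat_lit 5) .nil .nil))) 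
(.lf (nat_lit 45178) (.g (nat_lit 3597) (.e (nat_lit 1253) (nat_lit 92) (.e (nat_lit 98373) (nat_lit 29) (.e (nat_lit 450588) (nat_lit 10) (.e (nat_lit 573474) (nat_lit 12) (.e (nat_lit 57348) (nat_lit 0) (.e (nat_lit 7265) (nat_lit 384) (.e (nat_lit 57354) (nat_lit 0) (.e (nat_lit 6489) (nat_lit 343) .nil)))))))) (.g (nat_lit 4) .nil .nil)))))) (.nd (nat_lit 3) (.nd (nat_lit 4) (.nd (nat_lit 5) 
(.lf (nat_lit 45126) (.g (nat_lit 1912) (.e (nat_lit 1253) (nat_lit 92) (.e (nat_lit 98373) (nat_lit 29) (.e (nat_lit 450588) (nat_lit 10) (.e (nat_lit 573471) (nat_lit 11) .nil)))) .nil)) 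
(.lf (nat_lit 45158) (.g (nat_lit 4697) (.e (nat_lit 1253) (nat_lit 92) (.e (nat_lit 98373) (nat_lit 29) (.e (nat_lit 450588) (nat_lit 10) (.e (nat_lit 573474) (nat_lit 12) (.e (nat_lit 57348) (nat_lit 0) (.e (nat_lit 6923) (nat_lit 371) (.e (nat_lit 2601) (nat_lit 163) (.e (nat_lit 164238) (nat_lit 187) .nil)))))))) (.g (nat_lit 5) .nil .nil)))) (.nd (nat_lit 5) 
(.lf (nat_lit 45142) (.g (nat_lit 5887) (.e (nat_lit 1253) (nat_lit 92) (.e (nat_lit 98373) (nat_lit 29) (.e (nat_lit 450588) (nat_lit 10) (.e (nat_lit 573473) (nat_lit 12) (.e (nat_lit 57353) (nat_lit 0) (.e (nat_lit 7265) (nat_lit 384) (.e (nat_lit 57347) (nat_lit 0) (.e (nat_lit 6450) (nat_lit 343) .nil)))))))) (.g (nat_lit 4) .nil .nil))) 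
(.lf (nat_lit 45174) (.g (nat_lit 4847) (.e (nat_lit 1253) (nat_lit 92) (.e (nat_lit 98373) (nat_lit 29) (.e (nat_lit 450588) (nat_lit 10) (.e (nat_lit 573474) (nat_lit 12) (.e (nat_lit 57348) (nat_lit 0) (.e (nat_lit 7263) (nat_lit 384) (.e (nat_lit 57354) (nat_lit 0) (.e (nat_lit 6493) (nat_lit 343) .nil)))))))) (.g (nat_lit 6) .nil .nil))))) (.nd (nat_lit 4) (.nd (nat_lit 5) 
(.lf (nat_lit 45134) (.g (nat_lit 2823) (.e (nat_lit 1253) (nat_lit 92) (.e (nat_lit 98373) (nat_lit 29) (.e (nat_lit 450588) (nat_lit 10) (.e (nat_lit 573471) (nat_lit 11) (.e (nat_lit 16396) (nat_lit 0) .nil))))) .nil)) 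
(.lf (nat_lit 45166) (.g (nat_lit 3797) (.e (nat_lit 1253) (nat_lit 92) (.e (nat_lit 98373) (nat_lit 29) (.e (nat_lit 450588) (nat_lit 10) (.e (nat_lit 573474) (nat_lit 12) (.e (nat_lit 57348) (nat_lit 0) (.e (nat_lit 7247) (nat_lit 383) (.e (nat_lit 8194) (nat_lit 0) (.e (nat_lit 5321) (nat_lit 298) .nil)))))))) (.g (nat_lit 4) .nil .nil)))) (.nd (nat_lit 5) 
(.lf (nat_lit 45150) (.g (nat_lit 3746) (.e (nat_lit 1253) (nat_lit 92) (.e (nat_lit 98373) (nat_lit 29) (.e (nat_lit 450588) (nat_lit 10) (.e (nat_lit 573474) (nat_lit 12) (.e (nat_lit 57347) (nat_lit 0) (.e (nat_lit 7247) (nat_lit 383) (.e (nat_lit 8194) (nat_lit 0) (.e (nat_lit 5323) (nat_lit 298) .nil)))))))) (.g (nat_lit 4) .nil .nil))) 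
(.lf (nat_lit 45182) (.g (nat_lit 3889) (.e (nat_lit 1253) (nat_lit 92) (.e (nat_lit 98373) (nat_lit 29) (.e (nat_lit 450588) (nat_lit 10) (.e (nat_lit 573474) (nat_lit 12) (.e (nat_lit 57351) (nat_lit 0) (.e (nat_lit 7265) (nat_lit 384) (.e (nat_lit 57347) (nat_lit 0) (.e (nat_lit 6499) (nat_lit 343) .nil)))))))) (.g (nat_lit 4) .nil .nil)))))))) 
(.nd (nat_lit 1) (.nd (nat_lit 2) (.nd (nat_lit 3) (.nd (nat_lit 4) (.nd (nat_lit 5) 
(.lf (nat_lit 45121) (.g (nat_lit 4472) (.e (nat_lit 1253) (nat_lit 92) (.e (nat_lit 98373) (nat_lit 29) (.e (nat_lit 450588) (nat_lit 10) (.e (nat_lit 573469) (nat_lit 11) .nil)))) .nil)) 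
(.lf (nat_lit 45153) (.g (nat_lit 5102) (.e (nat_lit 1253) (nat_lit 92) (.e (nat_lit 98373) (nat_lit 29) (.e (nat_lit 450588) (nat_lit 10) (.e (nat_lit 573474) (nat_lit 12) (.e (nat_lit 57347) (nat_lit 0) (.e (nat_lit 7265) (nat_lit 384) (.e (nat_lit 57354) (nat_lit 0) (.e (nat_lit 6493) (nat_lit 343) .nil)))))))) (.g (nat_lit 6) .nil .nil)))) (.nd (nat_lit 5) 
(.lf (nat_lit 45137) (.g (nat_lit 4906) (.e (nat_lit 1253) (nat_lit 92) (.e (nat_lit 98373) (nat_lit 29) (.e (nat_lit 450588) (nat_lit 10) (.e (nat_lit 573473) (nat_lit 12) .nil)))) .nil)) 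
(.lf (nat_lit 45169) (.g (nat_lit 3652) (.e (nat_lit 1253) (nat_lit 92) (.e (nat_lit 98373) (nat_lit 29) (.e (nat_lit 450588) (nat_lit 10) (.e (nat_lit 573474) (nat_lit 12) (.e (nat_lit 57348) (nat_lit 0) (.e (nat_lit 7247) (nat_lit 383) (.e (nat_lit 8194) (nat_lit 0) (.e (nat_lit 5355) (nat_lit 298) .nil)))))))) (.g (nat_lit 4) .nil .nil))))) (.nd (nat_lit 4) (.nd (nat_lit 5) 
(.lf (nat_lit 45129) (.g (nat_lit 2929) (.e (nat_lit 1253) (nat_lit 92) (.e (nat_lit 98373) (nat_lit 29) (.e (nat_lit 450588) (nat_lit 10) (.e (nat_lit 573471) (nat_lit 11) (.e (nat_lit 16389) (nat_lit 0) .nil))))) .nil)) 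
(.lf (nat_lit 45161) (.g (nat_lit 3704) (.e (nat_lit 1253) (nat_lit 92) (.e (nat_lit 98373) (nat_lit 29) (.e (nat_lit 450588) (nat_lit 10) (.e (nat_lit 573474) (nat_lit 12) (.e (nat_lit 57348) (nat_lit 0) (.e (nat_lit 7122) (nat_lit 382) (.e (nat_lit 1183) (nat_lit 87) (.e (nat_lit 57741) (nat_lit 187) .nil)))))))) (.g (nat_lit 4) .nil .nil)))) (.nd (nat_lit 5) 
(.lf (nat_lit 45145) (.g (nat_lit 2970) (.e (nat_lit 1253) (nat_lit 92) (.e (nat_lit 98373) (nat_lit 29) (.e (nat_lit 450588) (nat_lit 10) (.e (nat_lit 573474) (nat_lit 12) (.e (nat_lit 57347) (nat_lit 0) .nil))))) .nil)) 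
(.lf (nat_lit 45177) (.g (nat_lit 5512) (.e (nat_lit 1253) (nat_lit 92) (.e (nat_lit 98373) (nat_lit 29) (.e (nat_lit 450588) (nat_lit 10) (.e (nat_lit 573474) (nat_lit 12) (.e (nat_lit 57348) (nat_lit 0) (.e (nat_lit 7265) (nat_lit 384) (.e (nat_lit 57347) (nat_lit 0) (.e (nat_lit 6499) (nat_lit 343) .nil)))))))) (.g (nat_lit 7) .nil .nil)))))) (.nd (nat_lit 3) (.nd (nat_lit 4) (.nd (nat_lit 5) 
(.lf (nat_lit 45125) (.g (nat_lit 4358) (.e (nat_lit 1253) (nat_lit 92) (.e (nat_lit 98373) (nat_lit 29) (.e (nat_lit 450588) (nat_lit 10) (.e (nat_lit 573470) (nat_lit 11) (.e (nat_lit 16385) (nat_lit 0) (.e (nat_lit 7548) (nat_lit 402) .nil)))))) (.g (nat_lit 4) .nil .nil))) 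
(.lf (nat_lit 45157) (.g (nat_lit 4672) (.e (nat_lit 1253) (nat_lit 92) (.e (nat_lit 98373) (nat_lit 29) (.e (nat_lit 450588) (nat_lit 10) (.e (nat_lit 573474) (nat_lit 12) (.e (nat_lit 57348) (nat_lit 0) (.e (nat_lit 6853) (nat_lit 371) (.e (nat_lit 2612) (nat_lit 163) (.e (nat_lit 164239) (nat_lit 187) .nil)))))))) (.g (nat_lit 5) .nil .nil)))) (.nd (nat_lit 5) 
(.lf (nat_lit 45141) (.g (nat_lit 5881) (.e (nat_lit 1253) (nat_lit 92) (.e (nat_lit 98373) (nat_lit 29) (.e (nat_lit 450588) (nat_lit 10) (.e (nat_lit 573473) (nat_lit 12) (.e (nat_lit 57348) (nat_lit 0) (.e (nat_lit 7265) (nat_lit 384) (.e (nat_lit 57347) (nat_lit 0) (.e (nat_lit 6499) (nat_lit 343) .nil)))))))) (.g (nat_lit 4) .nil .nil))) 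
(.lf (nat_lit 45173) (.g (nat_lit 3563) (.e (nat_lit 1253) (nat_lit 92) (.e (nat_lit 98373) (nat_lit 29) (.e (nat_lit 450588) (nat_lit 10) (.e (nat_lit 573474) (nat_lit 12) (.e (nat_lit 57348) (nat_lit 0) (.e (nat_lit 7261) (nat_lit 384) (.e (nat_lit 57354) (nat_lit 0) (.e (nat_lit 6493) (nat_lit 343) .nil)))))))) (.g (nat_lit 4) .nil .nil))))) (.nd (nat_lit 4) (.nd (nat_lit 5) 
(.lf (nat_lit 45133) (.g (nat_lit 3233) (.e (nat_lit 1253) (nat_lit 92) (.e (nat_lit 98373) (nat_lit 29) (.e (nat_lit 450588) (nat_lit 10) (.e (nat_lit 573471) (nat_lit 11) (.e (nat_lit 16392) (nat_lit 0) (.e (nat_lit 7559) (nat_lit 402) .nil)))))) (.g (nat_lit 4) .nil .nil))) 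
(.lf (nat_lit 45165) (.g (nat_lit 4265) (.e (nat_lit 1253) (nat_lit 92) (.e (nat_lit 98373) (nat_lit 29) (.e (nat_lit 450588) (nat_lit 10) (.e (nat_lit 573474) (nat_lit 12) (.e (nat_lit 57348) (nat_lit 0) (.e (nat_lit 7125) (nat_lit 382) (.e (nat_lit 1183) (nat_lit 87) (.e (nat_lit 57741) (nat_lit 187) .nil)))))))) (.g (nat_lit 5) .nil .nil)))) (.nd (nat_lit 5) 
(.lf (nat_lit 45149) (.g (nat_lit 4513) (.e (nat_lit 1253) (nat_lit 92) (.e (nat_lit 98373) (nat_lit 29) (.e (nat_lit 450588) (nat_lit 10) (.e (nat_lit 573474) (nat_lit 12) (.e (nat_lit 57347) (nat_lit 0) (.e (nat_lit 7125) (nat_lit 382) (.e (nat_lit 1183) (nat_lit 87) (.e (nat_lit 57741) (nat_lit 187) .nil)))))))) (.g (nat_lit 5) .nil .nil))) 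
(.lf (nat_lit 45181) (.g (nat_lit 3997) (.e (nat_lit 1253) (nat_lit 92) (.e (nat_lit 98373) (nat_lit 29) (.e (nat_lit 450588) (nat_lit 10) (.e (nat_lit 573474) (nat_lit 12) (.e (nat_lit 57351) (nat_lit 0) (.e (nat_lit 7265) (nat_lit 384) (.e (nat_lit 57347) (nat_lit 0) (.e (nat_lit 6450) (nat_lit 343) .nil)))))))) (.g (nat_lit 4) .nil .nil))))))) 
(.nd (nat_lit 2) (.nd (nat_lit 3) (.nd (nat_lit 4) (.nd (nat_lit 5) 
(.lf (nat_lit 45123) (.g (nat_lit 3982) (.e (nat_lit 1253) (nat_lit 92) (.e (nat_lit 98373) (nat_lit 29) (.e (nat_lit 450588) (nat_lit 10) (.e (nat_lit 573470) (nat_lit 11) (.e (nat_lit 16385) (nat_lit 0) .nil))))) .nil)) 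
(.lf (nat_lit 45155) (.g (nat_lit 4613) (.e (nat_lit 1253) (nat_lit 92) (.e (nat_lit 98373) (nat_lit 29) (.e (nat_lit 450588) (nat_lit 10) (.e (nat_lit 573474) (nat_lit 12) (.e (nat_lit 57348) (nat_lit 0) (.e (nat_lit 6852) (nat_lit 371) (.e (nat_lit 2612) (nat_lit 163) (.e (nat_lit 164239) (nat_lit 187) .nil)))))))) (.g (nat_lit 5) .nil .nil)))) (.nd (nat_lit 5) 
(.lf (nat_lit 45139) (.g (nat_lit 5661) (.e (nat_lit 1253) (nat_lit 92) (.e (nat_lit 98373) (nat_lit 29) (.e (nat_lit 450588) (nat_lit 10) (.e (nat_lit 573473) (nat_lit 12) (.e (nat_lit 57348) (nat_lit 0) .nil))))) .nil)) 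
(.lf (nat_lit 45171) (.g (nat_lit 3540) (.e (nat_lit 1253) (nat_lit 92) (.e (nat_lit 98373) (nat_lit 29) (.e (nat_lit 450588) (nat_lit 10) (.e (nat_lit 573474) (nat_lit 12) (.e (nat_lit 57348) (nat_lit 0) (.e (nat_lit 7247) (nat_lit 383) (.e (nat_lit 8196) (nat_lit 0) (.e (nat_lit 5323) (nat_lit 298) .nil)))))))) (.g (nat_lit 4) .nil .nil))))) (.nd (nat_lit 4) (.nd (nat_lit 5) 
(.lf (nat_lit 45131) (.g (nat_lit 5825) (.e (nat_lit 1253) (nat_lit 92) (.e (nat_lit 98373) (nat_lit 29) (.e (nat_lit 450588) (nat_lit 10) (.e (nat_lit 573471) (nat_lit 11) (.e (nat_lit 16392) (nat_lit 0) (.e (nat_lit 7537) (nat_lit 402) .nil)))))) (.g (nat_lit 6) .nil .nil))) 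
(.lf (nat_lit 45163) (.g (nat_lit 4233) (.e (nat_lit 1253) (nat_lit 92) (.e (nat_lit 98373) (nat_lit 29) (.e (nat_lit 450588) (nat_lit 10) (.e (nat_lit 573474) (nat_lit 12) (.e (nat_lit 57348) (nat_lit 0) (.e (nat_lit 7124) (nat_lit 382) (.e (nat_lit 1183) (nat_lit 87) (.e (nat_lit 57741) (nat_lit 187) .nil)))))))) (.g (nat_lit 5) .nil .nil)))) (.nd (nat_lit 5) 
(.lf (nat_lit 45147) (.g (nat_lit 4559) (.e (nat_lit 1253) (nat_lit 92) (.e (nat_lit 98373) (nat_lit 29) (.e (nat_lit 450588) (nat_lit 10) (.e (nat_lit 573474) (nat_lit 12) (.e (nat_lit 57347) (nat_lit 0) (.e (nat_lit 6923) (nat_lit 371) (.e (nat_lit 2610) (nat_lit 163) (.e (nat_lit 164239) (nat_lit 187) .nil)))))))) (.g (nat_lit 5) .nil .nil))) 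
(.lf (nat_lit 45179) (.g (nat_lit 5288) (.e (nat_lit 1253) (nat_lit 92) (.e (nat_lit 98373) (nat_lit 29) (.e (nat_lit 450588) (nat_lit 10) (.e (nat_lit 573474) (nat_lit 12) (.e (nat_lit 57348) (nat_lit 0) (.e (nat_lit 7265) (nat_lit 384) (.e (nat_lit 57354) (nat_lit 0) (.e (nat_lit 6493) (nat_lit 343) .nil)))))))) (.g (nat_lit 7) .nil .nil)))))) (.nd (nat_lit 3) (.nd (nat_lit 4) (.nd (nat_lit 5) 
(.lf (nat_lit 45127) (.g (nat_lit 3403) (.e (nat_lit 1253) (nat_lit 92) (.e (nat_lit 98373) (nat_lit 29) (.e (nat_lit 450588) (nat_lit 10) (.e (nat_lit 573471) (nat_lit 11) (.e (nat_lit 16384) (nat_lit 0) .nil))))) .nil)) 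
(.lf (nat_lit 45159) (.g (nat_lit 3475) (.e (nat_lit 1253) (nat_lit 92) (.e (nat_lit 98373) (nat_lit 29) (.e (nat_lit 450588) (nat_lit 10) (.e (nat_lit 573474) (nat_lit 12) (.e (nat_lit 57348) (nat_lit 0) (.e (nat_lit 6923) (nat_lit 371) (.e (nat_lit 2607) (nat_lit 163) (.e (nat_lit 164238) (nat_lit 187) .nil)))))))) (.g (nat_lit 4) .nil .nil)))) (.nd (nat_lit 5) 
(.lf (nat_lit 45143) (.g (nat_lit 5779) (.e (nat_lit 1253) (nat_lit 92) (.e (nat_lit 98373) (nat_lit 29) (.e (nat_lit 450588) (nat_lit 10) (.e (nat_lit 573473) (nat_lit 12) (.e (nat_lit 57353) (nat_lit 0) (.e (nat_lit 7265) (nat_lit 384) (.e (nat_lit 57347) (nat_lit 0) (.e (nat_lit 6499) (nat_lit 343) .nil)))))))) (.g (nat_lit 4) .nil .nil))) 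
(.lf (nat_lit 45175) (.g (nat_lit 5620) (.e (nat_lit 1253) (nat_lit 92) (.e (nat_lit 98373) (nat_lit 29) (.e (nat_lit 450588) (nat_lit 10) (.e (nat_lit 573474) (nat_lit 12) (.e (nat_lit 57348) (nat_lit 0) (.e (nat_lit 7265) (nat_lit 384) (.e (nat_lit 57347) (nat_lit 0) (.e (nat_lit 6450) (nat_lit 343) .nil)))))))) (.g (nat_lit 7) .nil .nil))))) (.nd (nat_lit 4) (.nd (nat_lit 5) 
(.lf (nat_lit 45135) (.g (nat_lit 4204) (.e (nat_lit 1253) (nat_lit 92) (.e (nat_lit 98373) (nat_lit 29) (.e (nat_lit 450588) (nat_lit 10) (.e (nat_lit 573471) (nat_lit 11) (.e (nat_lit 16396) (nat_lit 0) (.e (nat_lit 7554) (nat_lit 402) .nil)))))) (.g (nat_lit 0) .nil .nil))) 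
(.lf (nat_lit 45167) (.g (nat_lit 3826) (.e (nat_lit 1253) (nat_lit 92) (.e (nat_lit 98373) (nat_lit 29) (.e (nat_lit 450588) (nat_lit 10) (.e (nat_lit 573474) (nat_lit 12) (.e (nat_lit 57348) (nat_lit 0) (.e (nat_lit 7247) (nat_lit 383) (.e (nat_lit 8194) (nat_lit 0) (.e (nat_lit 5322) (nat_lit 298) .nil)))))))) (.g (nat_lit 4) .nil .nil)))) (.nd (nat_lit 5) 
(.lf (nat_lit 45151) (.g (nat_lit 3682) (.e (nat_lit 1253) (nat_lit 92) (.e (nat_lit 98373) (nat_lit 29) (.e (nat_lit 450588) (nat_lit 10) (.e (nat_lit 573474) (nat_lit 12) (.e (nat_lit 57347) (nat_lit 0) (.e (nat_lit 7247) (nat_lit 383) (.e (nat_lit 8196) (nat_lit 0) (.e (nat_lit 5323) (nat_lit 298) .nil)))))))) (.g (nat_lit 4) .nil .nil))) 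
(.lf (nat_lit 45183) (.g (nat_lit 3650) (.e (nat_lit 1253) (nat_lit 92) (.e (nat_lit 98373) (nat_lit 29) (.e (nat_lit 450588) (nat_lit 10) (.e (nat_lit 573474) (nat_lit 12) (.e (nat_lit 57351) (nat_lit 0) (.e (nat_lit 7265) (nat_lit 384) (.e (nat_lit 57354) (nat_lit 0) (.e (nat_lit 6493) (nat_lit 343) .nil)))))))) (.g (nat_lit 4) .nil .nil)))))))))

noncomputable def tv626 : DT := (.nd (nat_lit 0) (.nd (nat_lit 1) (.nd (nat_lit 2) (.nd (nat_lit 3) (.nd (nat_lit 4) (.nd (nat_lit 5) 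
(.lf (nat_lit 45184) (.g (nat_lit 3475) (.e (nat_lit 1253) (nat_lit 92) (.e (nat_lit 98373) (nat_lit 29) (.e (nat_lit 450588) (nat_lit 10) (.e (nat_lit 573474) (nat_lit 12) (.e (nat_lit 57353) (nat_lit 0) .nil))))) .nil)) 
(.lf (nat_lit 45216) (.g (nat_lit 2539) (.e (nat_lit 1253) (nat_lit 92) (.e (nat_lit 98380) (nat_lit 31) (.e (nat_lit 466947) (nat_lit 0) (.e (nat_lit 1846) (nat_lit 124) (.e (nat_lit 557104) (nat_lit 14) (.e (nat_lit 180278) (nat_lit 32) .nil)))))) (.g (nat_lit 6) .nil .nil)))) (.nd (nat_lit 5) 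
(.lf (nat_lit 45200) (.g (nat_lit 4130) (.e (nat_lit 1253) (nat_lit 92) (.e (nat_lit 98373) (nat_lit 29) (.e (nat_lit 450588) (nat_lit 10) (.e (nat_lit 573474) (nat_lit 12) (.e (nat_lit 57572) (nat_lit 54) (.e (nat_lit 770068) (nat_lit 7) (.e (nat_lit 57741) (nat_lit 187) .nil))))))) (.g (nat_lit 5) .nil .nil))) 
(.lf (nat_lit 45232) (.g (nat_lit 2833) (.e (nat_lit 1253) (nat_lit 92) (.e (nat_lit 98384) (nat_lit 32) (.e (nat_lit 475177) (nat_lit 24) (.e (nat_lit 516169) (nat_lit 13) (.e (nat_lit 458789) (nat_lit 23) .nil))))) .nil)))) (.nd (nat_lit 4) (.nd (nat_lit 5) 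
(.lf (nat_lit 45192) (.g (nat_lit 2733) (.e (nat_lit 1253) (nat_lit 92) (.e (nat_lit 98373) (nat_lit 29) (.e (nat_lit 450588) (nat_lit 10) (.e (nat_lit 573474) (nat_lit 12) (.e (nat_lit 57572) (nat_lit 54) (.e (nat_lit 770058) (nat_lit 5) (.e (nat_lit 985) (nat_lit 81) (.e (nat_lit 6494) (nat_lit 343) .nil)))))))) (.g (nat_lit 4) .nil .nil))) 
(.lf (nat_lit 45224) (.g (nat_lit 2575) (.e (nat_lit 1253) (nat_lit 92) (.e (nat_lit 98381) (nat_lit 31) (.e (nat_lit 466947) (nat_lit 0) (.e (nat_lit 1846) (nat_lit 124) (.e (nat_lit 557104) (nat_lit 14) (.e (nat_lit 180278) (nat_lit 32) .nil)))))) (.g (nat_lit 6) .nil .nil)))) (.nd (nat_lit 5) 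
(.lf (nat_lit 45208) (.g (nat_lit 5411) (.e (nat_lit 1253) (nat_lit 92) (.e (nat_lit 98373) (nat_lit 29) (.e (nat_lit 450588) (nat_lit 10) (.e (nat_lit 573475) (nat_lit 12) (.e (nat_lit 57574) (nat_lit 55) (.e (nat_lit 778455) (nat_lit 10) (.e (nat_lit 8567) (nat_lit 250) .nil))))))) (.g (nat_lit 4) .nil .nil))) 
(.lf (nat_lit 45240) (.g (nat_lit 1732) (.e (nat_lit 1253) (nat_lit 92) (.e (nat_lit 98389) (nat_lit 33) (.e (nat_lit 491556) (nat_lit 9) (.e (nat_lit 336017) (nat_lit 3) .nil)))) .nil))))) (.nd (nat_lit 3) (.nd (nat_lit 4) (.nd (nat_lit 5) 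
(.lf (nat_lit 45188) (.g (nat_lit 2278) (.e (nat_lit 1253) (nat_lit 92) (.e (nat_lit 98373) (nat_lit 29) (.e (nat_lit 450588) (nat_lit 10) (.e (nat_lit 573474) (nat_lit 12) (.e (nat_lit 57572) (nat_lit 54) .nil))))) .nil)) 
(.lf (nat_lit 45220) (.g (nat_lit 2879) (.e (nat_lit 1253) (nat_lit 92) (.e (nat_lit 98380) (nat_lit 31) (.e (nat_lit 466947) (nat_lit 0) (.e (nat_lit 1855) (nat_lit 124) (.e (nat_lit 557105) (nat_lit 14) (.e (nat_lit 180278) (nat_lit 32) .nil)))))) (.g (nat_lit 6) .nil .nil)))) (.nd (nat_lit 5) 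
(.lf (nat_lit 45204) (.g (nat_lit 3933) (.e (nat_lit 1253) (nat_lit 92) (.e (nat_lit 98373) (nat_lit 29) (.e (nat_lit 450588) (nat_lit 10) (.e (nat_lit 573475) (nat_lit 12) .nil)))) .nil)) 
(.lf (nat_lit 45236) (.g (nat_lit 2807) (.e (nat_lit 1253) (nat_lit 92) (.e (nat_lit 98384) (nat_lit 32) (.e (nat_lit 475177) (nat_lit 24) (.e (nat_lit 516171) (nat_lit 13) (.e (nat_lit 458789) (nat_lit 23) (.e (nat_lit 532501) (nat_lit 1) (.e (nat_lit 57754) (nat_lit 209) (.e (nat_lit 1086) (nat_lit 81) .nil)))))))) (.g (nat_lit 4) .nil .nil))))) (.nd (nat_lit 4) (.nd (nat_lit 5) 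
(.lf (nat_lit 45196) (.g (nat_lit 2631) (.e (nat_lit 1253) (nat_lit 92) (.e (nat_lit 98373) (nat_lit 29) (.e (nat_lit 450588) (nat_lit 10) (.e (nat_lit 573474) (nat_lit 12) (.e (nat_lit 57572) (nat_lit 54) (.e (nat_lit 770067) (nat_lit 7) (.e (nat_lit 57741) (nat_lit 187) .nil))))))) (.g (nat_lit 4) .nil .nil))) 
(.lf (nat_lit 45228) (.g (nat_lit 3004) (.e (nat_lit 1253) (nat_lit 92) (.e (nat_lit 98381) (nat_lit 31) (.e (nat_lit 466977) (nat_lit 22) (.e (nat_lit 196677) (nat_lit 16) (.e (nat_lit 123080) (nat_lit 177) (.e (nat_lit 57891) (nat_lit 270) .nil)))))) (.g (nat_lit 0) .nil .nil)))) (.nd (nat_lit 5) 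
(.lf (nat_lit 45212) (.g (nat_lit 918) (.e (nat_lit 1253) (nat_lit 92) (.e (nat_lit 98373) (nat_lit 29) (.e (nat_lit 450604) (nat_lit 22) .nil))) .nil)) 
(.lf (nat_lit 45244) (.g (nat_lit 2671) (.e (nat_lit 1254) (nat_lit 92) (.e (nat_lit 98333) (nat_lit 18) (.e (nat_lit 164398) (nat_lit 256) (.e (nat_lit 57372) (nat_lit 2) (.e (nat_lit 90172) (nat_lit 14) .nil))))) .nil)))))) (.nd (nat_lit 2) (.nd (nat_lit 3) (.nd (nat_lit 4) (.nd (nat_lit 5) 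
(.lf (nat_lit 45186) (.g (nat_lit 3561) (.e (nat_lit 1253) (nat_lit 92) (.e (nat_lit 98373) (nat_lit 29) (.e (nat_lit 450588) (nat_lit 10) (.e (nat_lit 573474) (nat_lit 12) (.e (nat_lit 57566) (nat_lit 52) .nil))))) .nil)) 
(.lf (nat_lit 45218) (.g (nat_lit 3156) (.e (nat_lit 1253) (nat_lit 92) (.e (nat_lit 98380) (nat_lit 31) (.e (nat_lit 466947) (nat_lit 0) (.e (nat_lit 1855) (nat_lit 124) (.e (nat_lit 557104) (nat_lit 14) (.e (nat_lit 180278) (nat_lit 32) .nil)))))) (.g (nat_lit 6) .nil .nil)))) (.nd (nat_lit 5) 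
(.lf (nat_lit 45202) (.g (nat_lit 3838) (.e (nat_lit 1253) (nat_lit 92) (.e (nat_lit 98373) (nat_lit 29) (.e (nat_lit 450588) (nat_lit 10) (.e (nat_lit 573474) (nat_lit 12) (.e (nat_lit 57572) (nat_lit 54) (.e (nat_lit 770069) (nat_lit 7) (.e (nat_lit 65280) (nat_lit 187) .nil))))))) (.g (nat_lit 6) .nil .nil))) 
(.lf (nat_lit 45234) (.g (nat_lit 3047) (.e (nat_lit 1253) (nat_lit 92) (.e (nat_lit 98384) (nat_lit 32) (.e (nat_lit 475177) (nat_lit 24) (.e (nat_lit 516169) (nat_lit 13) (.e (nat_lit 458789) (nat_lit 23) (.e (nat_lit 532501) (nat_lit 1) (.e (nat_lit 57754) (nat_lit 209) (.e (nat_lit 1086) (nat_lit 81) .nil)))))))) (.g (nat_lit 4) .nil .nil))))) (.nd (nat_lit 4) (.nd (nat_lit 5) 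
(.lf (nat_lit 45194) (.g (nat_lit 2470) (.e (nat_lit 1253) (nat_lit 92) (.e (nat_lit 98373) (nat_lit 29) (.e (nat_lit 450588) (nat_lit 10) (.e (nat_lit 573474) (nat_lit 12) (.e (nat_lit 57572) (nat_lit 54) (.e (nat_lit 770058) (nat_lit 5) (.e (nat_lit 1022) (nat_lit 81) (.e (nat_lit 6489) (nat_lit 343) .nil)))))))) (.g (nat_lit 4) .nil .nil))) 
(.lf (nat_lit 45226) (.g (nat_lit 2937) (.e (nat_lit 1253) (nat_lit 92) (.e (nat_lit 98381) (nat_lit 31) (.e (nat_lit 466947) (nat_lit 0) (.e (nat_lit 1855) (nat_lit 124) (.e (nat_lit 557105) (nat_lit 14) (.e (nat_lit 180277) (nat_lit 32) .nil)))))) (.g (nat_lit 6) .nil .nil)))) (.nd (nat_lit 5) 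
(.lf (nat_lit 45210) (.g (nat_lit 2536) (.e (nat_lit 1253) (nat_lit 92) (.e (nat_lit 98373) (nat_lit 29) (.e (nat_lit 450601) (nat_lit 21) (.e (nat_lit 696341) (nat_lit 7) .nil)))) .nil)) 
(.lf (nat_lit 45242) (.g (nat_lit 3282) (.e (nat_lit 1253) (nat_lit 92) (.e (nat_lit 98389) (nat_lit 33) (.e (nat_lit 491560) (nat_lit 10) (.e (nat_lit 344118) (nat_lit 21) (.e (nat_lit 516139) (nat_lit 7) (.e (nat_lit 409616) (nat_lit 10) (.e (nat_lit 5355) (nat_lit 298) .nil))))))) (.g (nat_lit 6) .nil .nil)))))) (.nd (nat_lit 3) (.nd (nat_lit 4) (.nd (nat_lit 5) 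
(.lf (nat_lit 45190) (.g (nat_lit 3533) (.e (nat_lit 1253) (nat_lit 92) (.e (nat_lit 98373) (nat_lit 29) (.e (nat_lit 450588) (nat_lit 10) (.e (nat_lit 573474) (nat_lit 12) (.e (nat_lit 57572) (nat_lit 54) (.e (nat_lit 770056) (nat_lit 5) (.e (nat_lit 986) (nat_lit 81) (.e (nat_lit 6490) (nat_lit 343) .nil)))))))) (.g (nat_lit 5) .nil .nil))) 
(.lf (nat_lit 45222) (.g (nat_lit 2608) (.e (nat_lit 1253) (nat_lit 92) (.e (nat_lit 98380) (nat_lit 31) (.e (nat_lit 466947) (nat_lit 0) (.e (nat_lit 1856) (nat_lit 124) (.e (nat_lit 557105) (nat_lit 14) (.e (nat_lit 180277) (nat_lit 32) .nil)))))) (.g (nat_lit 0) .nil .nil)))) (.nd (nat_lit 5) 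
(.lf (nat_lit 45206) (.g (nat_lit 4880) (.e (nat_lit 1253) (nat_lit 92) (.e (nat_lit 98373) (nat_lit 29) (.e (nat_lit 450588) (nat_lit 10) (.e (nat_lit 573475) (nat_lit 12) (.e (nat_lit 57574) (nat_lit 55) .nil))))) .nil)) 
(.lf (nat_lit 45238) (.g (nat_lit 4207) (.e (nat_lit 1253) (nat_lit 92) (.e (nat_lit 98389) (nat_lit 33) (.e (nat_lit 491546) (nat_lit 9) (.e (nat_lit 336028) (nat_lit 3) (.e (nat_lit 98350) (nat_lit 24) (.e (nat_lit 409616) (nat_lit 10) (.e (nat_lit 5355) (nat_lit 298) .nil))))))) (.g (nat_lit 6) .nil .nil))))) (.nd (nat_lit 4) (.nd (nat_lit 5) 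
(.lf (nat_lit 45198) (.g (nat_lit 2407) (.e (nat_lit 1253) (nat_lit 92) (.e (nat_lit 98373) (nat_lit 29) (.e (nat_lit 450588) (nat_lit 10) (.e (nat_lit 573474) (nat_lit 12) (.e (nat_lit 57572) (nat_lit 54) (.e (nat_lit 770068) (nat_lit 7) (.e (nat_lit 57738) (nat_lit 187) .nil))))))) (.g (nat_lit 4) .nil .nil))) 
(.lf (nat_lit 45230) (.g (nat_lit 2717) (.e (nat_lit 1253) (nat_lit 92) (.e (nat_lit 98384) (nat_lit 32) (.e (nat_lit 475177) (nat_lit 24) (.e (nat_lit 516150) (nat_lit 9) (.e (nat_lit 426131) (nat_lit 3) (.e (nat_lit 204829) (nat_lit 18) (.e (nat_lit 57754) (nat_lit 209) (.e (nat_lit 1082) (nat_lit 81) .nil)))))))) (.g (nat_lit 4) .nil .nil)))) (.nd (nat_lit 5) 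
(.lf (nat_lit 45214) (.g (nat_lit 1808) (.e (nat_lit 1253) (nat_lit 92) (.e (nat_lit 98374) (nat_lit 29) (.e (nat_lit 450583) (nat_lit 7) (.e (nat_lit 548914) (nat_lit 19) (.e (nat_lit 180278) (nat_lit 32) .nil))))) (.g (nat_lit 5) .nil .nil))) 
(.lf (nat_lit 45246) (.g (nat_lit 2328) (.e (nat_lit 1254) (nat_lit 92) (.e (nat_lit 98333) (nat_lit 18) (.e (nat_lit 164398) (nat_lit 256) (.e (nat_lit 57375) (nat_lit 2) (.e (nat_lit 90174) (nat_lit 14) (.e (nat_lit 180243) (nat_lit 5) (.e (nat_lit 532508) (nat_lit 2) (.e (nat_lit 106526) (nat_lit 9) .nil)))))))) (.g (nat_lit 4) .nil .nil)))))))) 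
(.nd (nat_lit 1) (.nd (nat_lit 2) (.nd (nat_lit 3) (.nd (nat_lit 4) (.nd (nat_lit 5) 
(.lf (nat_lit 45185) (.g (nat_lit 3484) (.e (nat_lit 1253) (nat_lit 92) (.e (nat_lit 98373) (nat_lit 29) (.e (nat_lit 450588) (nat_lit 10) (.e (nat_lit 573474) (nat_lit 12) (.e (nat_lit 57353) (nat_lit 0) (.e (nat_lit 7265) (nat_lit 384) (.e (nat_lit 57347) (nat_lit 0) (.e (nat_lit 6450) (nat_lit 343) .nil)))))))) (.g (nat_lit 4) .nil .nil))) 
(.lf (nat_lit 45217) (.g (nat_lit 3574) (.e (nat_lit 1253) (nat_lit 92) (.e (nat_lit 98380) (nat_lit 31) (.e (nat_lit 466947) (nat_lit 0) (.e (nat_lit 1855) (nat_lit 124) (.e (nat_lit 557103) (nat_lit 14) (.e (nat_lit 180278) (nat_lit 32) .nil)))))) (.g (nat_lit 0) .nil .nil)))) (.nd (nat_lit 5) 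
(.lf (nat_lit 45201) (.g (nat_lit 3844) (.e (nat_lit 1253) (nat_lit 92) (.e (nat_lit 98373) (nat_lit 29) (.e (nat_lit 450588) (nat_lit 10) (.e (nat_lit 573474) (nat_lit 12) (.e (nat_lit 57572) (nat_lit 54) (.e (nat_lit 770069) (nat_lit 7) (.e (nat_lit 57740) (nat_lit 187) .nil))))))) (.g (nat_lit 6) .nil .nil))) 
(.lf (nat_lit 45233) (.g (nat_lit 2989) (.e (nat_lit 1253) (nat_lit 92) (.e (nat_lit 98384) (nat_lit 32) (.e (nat_lit 475177) (nat_lit 24) (.e (nat_lit 516169) (nat_lit 13) (.e (nat_lit 458789) (nat_lit 23) (.e (nat_lit 532499) (nat_lit 1) (.e (nat_lit 57754) (nat_lit 209) (.e (nat_lit 1086) (nat_lit 81) .nil)))))))) (.g (nat_lit 4) .nil .nil))))) (.nd (nat_lit 4) (.nd (nat_lit 5) 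
(.lf (nat_lit 45193) (.g (nat_lit 2623) (.e (nat_lit 1253) (nat_lit 92) (.e (nat_lit 98373) (nat_lit 29) (.e (nat_lit 450588) (nat_lit 10) (.e (nat_lit 573474) (nat_lit 12) (.e (nat_lit 57572) (nat_lit 54) (.e (nat_lit 770058) (nat_lit 5) (.e (nat_lit 1016) (nat_lit 81) (.e (nat_lit 6499) (nat_lit 343) .nil)))))))) (.g (nat_lit 4) .nil .nil))) 
(.lf (nat_lit 45225) (.g (nat_lit 3168) (.e (nat_lit 1253) (nat_lit 92) (.e (nat_lit 98381) (nat_lit 31) (.e (nat_lit 466947) (nat_lit 0) (.e (nat_lit 1855) (nat_lit 124) (.e (nat_lit 557104) (nat_lit 14) (.e (nat_lit 180278) (nat_lit 32) .nil)))))) (.g (nat_lit 6) .nil .nil)))) (.nd (nat_lit 5) 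
(.lf (nat_lit 45209) (.g (nat_lit 5685) (.e (nat_lit 1253) (nat_lit 92) (.e (nat_lit 98373) (nat_lit 29) (.e (nat_lit 450588) (nat_lit 10) (.e (nat_lit 573478) (nat_lit 12) .nil)))) .nil)) 
(.lf (nat_lit 45241) (.g (nat_lit 3904) (.e (nat_lit 1253) (nat_lit 92) (.e (nat_lit 98389) (nat_lit 33) (.e (nat_lit 491558) (nat_lit 10) (.e (nat_lit 344119) (nat_lit 21) (.e (nat_lit 516139) (nat_lit 7) (.e (nat_lit 409616) (nat_lit 10) (.e (nat_lit 5355) (nat_lit 298) .nil))))))) (.g (nat_lit 6) .nil .nil)))))) (.nd (nat_lit 3) (.nd (nat_lit 4) (.nd (nat_lit 5) 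
(.lf (nat_lit 45189) (.g (nat_lit 2732) (.e (nat_lit 1253) (nat_lit 92) (.e (nat_lit 98373) (nat_lit 29) (.e (nat_lit 450588) (nat_lit 10) (.e (nat_lit 573474) (nat_lit 12) (.e (nat_lit 57572) (nat_lit 54) (.e (nat_lit 770056) (nat_lit 5) (.e (nat_lit 986) (nat_lit 81) (.e (nat_lit 6489) (nat_lit 343) .nil)))))))) (.g (nat_lit 4) .nil .nil))) 
(.lf (nat_lit 45221) (.g (nat_lit 2715) (.e (nat_lit 1253) (nat_lit 92) (.e (nat_lit 98380) (nat_lit 31) (.e (nat_lit 466947) (nat_lit 0) (.e (nat_lit 1856) (nat_lit 124) (.e (nat_lit 557103) (nat_lit 14) (.e (nat_lit 180278) (nat_lit 32) .nil)))))) (.g (nat_lit 0) .nil .nil)))) (.nd (nat_lit 5) 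
(.lf (nat_lit 45205) (.g (nat_lit 4766) (.e (nat_lit 1253) (nat_lit 92) (.e (nat_lit 98373) (nat_lit 29) (.e (nat_lit 450588) (nat_lit 10) (.e (nat_lit 573475) (nat_lit 12) (.e (nat_lit 57347) (nat_lit 0) .nil))))) .nil)) 
(.lf (nat_lit 45237) (.g (nat_lit 2211) (.e (nat_lit 1253) (nat_lit 92) (.e (nat_lit 98386) (nat_lit 32) (.e (nat_lit 475214) (nat_lit 42) (.e (nat_lit 720941) (nat_lit 22) .nil)))) .nil)))) (.nd (nat_lit 4) (.nd (nat_lit 5) 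
(.lf (nat_lit 45197) (.g (nat_lit 2805) (.e (nat_lit 1253) (nat_lit 92) (.e (nat_lit 98373) (nat_lit 29) (.e (nat_lit 450588) (nat_lit 10) (.e (nat_lit 573474) (nat_lit 12) (.e (nat_lit 57572) (nat_lit 54) (.e (nat_lit 770067) (nat_lit 7) (.e (nat_lit 65280) (nat_lit 187) .nil))))))) (.g (nat_lit 4) .nil .nil))) 
(.lf (nat_lit 45229) (.g (nat_lit 1200) (.e (nat_lit 1253) (nat_lit 92) (.e (nat_lit 98384) (nat_lit 32) (.e (nat_lit 475177) (nat_lit 24) .nil))) .nil))) (.nd (nat_lit 5) 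
(.lf (nat_lit 45213) (.g (nat_lit 1787) (.e (nat_lit 1253) (nat_lit 92) (.e (nat_lit 98374) (nat_lit 29) (.e (nat_lit 450583) (nat_lit 7) (.e (nat_lit 548914) (nat_lit 19) (.e (nat_lit 180277) (nat_lit 32) .nil))))) (.g (nat_lit 5) .nil .nil))) 
(.lf (nat_lit 45245) (.g (nat_lit 2400) (.e (nat_lit 1254) (nat_lit 92) (.e (nat_lit 98333) (nat_lit 18) (.e (nat_lit 164398) (nat_lit 256) (.e (nat_lit 57373) (nat_lit 2) (.e (nat_lit 90172) (nat_lit 14) .nil))))) .nil)))))) (.nd (nat_lit 2) (.nd (nat_lit 3) (.nd (nat_lit 4) (.nd (nat_lit 5) 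
(.lf (nat_lit 45187) (.g (nat_lit 3384) (.e (nat_lit 1253) (nat_lit 92) (.e (nat_lit 98373) (nat_lit 29) (.e (nat_lit 450588) (nat_lit 10) (.e (nat_lit 573474) (nat_lit 12) (.e (nat_lit 57567) (nat_lit 52) .nil))))) .nil)) 
(.lf (nat_lit 45219) (.g (nat_lit 2895) (.e (nat_lit 1253) (nat_lit 92) (.e (nat_lit 98380) (nat_lit 31) (.e (nat_lit 466947) (nat_lit 0) (.e (nat_lit 1855) (nat_lit 124) (.e (nat_lit 557105) (nat_lit 14) (.e (nat_lit 180277) (nat_lit 32) .nil)))))) (.g (nat_lit 0) .nil .nil)))) (.nd (nat_lit 5) 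
(.lf (nat_lit 45203) (.g (nat_lit 3508) (.e (nat_lit 1253) (nat_lit 92) (.e (nat_lit 98373) (nat_lit 29) (.e (nat_lit 450588) (nat_lit 10) (.e (nat_lit 573474) (nat_lit 12) (.e (nat_lit 57574) (nat_lit 55) .nil))))) .nil)) 
(.lf (nat_lit 45235) (.g (nat_lit 2690) (.e (nat_lit 1253) (nat_lit 92) (.e (nat_lit 98384) (nat_lit 32) (.e (nat_lit 475177) (nat_lit 24) (.e (nat_lit 516171) (nat_lit 13) (.e (nat_lit 458789) (nat_lit 23) .nil))))) .nil)))) (.nd (nat_lit 4) (.nd (nat_lit 5) 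
(.lf (nat_lit 45195) (.g (nat_lit 3993) (.e (nat_lit 1253) (nat_lit 92) (.e (nat_lit 98373) (nat_lit 29) (.e (nat_lit 450588) (nat_lit 10) (.e (nat_lit 573474) (nat_lit 12) (.e (nat_lit 57572) (nat_lit 54) (.e (nat_lit 770067) (nat_lit 7) (.e (nat_lit 57740) (nat_lit 187) .nil))))))) (.g (nat_lit 5) .nil .nil))) 
(.lf (nat_lit 45227) (.g (nat_lit 2932) (.e (nat_lit 1253) (nat_lit 92) (.e (nat_lit 98381) (nat_lit 31) (.e (nat_lit 466947) (nat_lit 0) (.e (nat_lit 1855) (nat_lit 124) (.e (nat_lit 557105) (nat_lit 14) (.e (nat_lit 180278) (nat_lit 32) .nil)))))) (.g (nat_lit 6) .nil .nil)))) (.nd (nat_lit 5) 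
(.lf (nat_lit 45211) (.g (nat_lit 918) (.e (nat_lit 1253) (nat_lit 92) (.e (nat_lit 98373) (nat_lit 29) (.e (nat_lit 450602) (nat_lit 22) .nil))) .nil)) 
(.lf (nat_lit 45243) (.g (nat_lit 2872) (.e (nat_lit 1253) (nat_lit 92) (.e (nat_lit 98389) (nat_lit 33) (.e (nat_lit 491560) (nat_lit 10) (.e (nat_lit 344120) (nat_lit 21) (.e (nat_lit 516139) (nat_lit 7) (.e (nat_lit 409617) (nat_lit 10) (.e (nat_lit 5355) (nat_lit 298) .nil))))))) (.g (nat_lit 5) .nil .nil)))))) (.nd (nat_lit 3) (.nd (nat_lit 4) (.nd (nat_lit 5) 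
(.lf (nat_lit 45191) (.g (nat_lit 3946) (.e (nat_lit 1253) (nat_lit 92) (.e (nat_lit 98373) (nat_lit 29) (.e (nat_lit 450588) (nat_lit 10) (.e (nat_lit 573474) (nat_lit 12) (.e (nat_lit 57572) (nat_lit 54) (.e (nat_lit 770058) (nat_lit 5) (.e (nat_lit 985) (nat_lit 81) (.e (nat_lit 6489) (nat_lit 343) .nil)))))))) (.g (nat_lit 5) .nil .nil))) 
(.lf (nat_lit 45223) (.g (nat_lit 3027) (.e (nat_lit 1253) (nat_lit 92) (.e (nat_lit 98381) (nat_lit 31) (.e (nat_lit 466945) (nat_lit 0) (.e (nat_lit 1853) (nat_lit 124) (.e (nat_lit 557104) (nat_lit 14) (.e (nat_lit 180278) (nat_lit 32) .nil)))))) (.g (nat_lit 6) .nil .nil)))) (.nd (nat_lit 5) 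
(.lf (nat_lit 45207) (.g (nat_lit 5337) (.e (nat_lit 1253) (nat_lit 92) (.e (nat_lit 98373) (nat_lit 29) (.e (nat_lit 450588) (nat_lit 10) (.e (nat_lit 573475) (nat_lit 12) (.e (nat_lit 57574) (nat_lit 55) (.e (nat_lit 778454) (nat_lit 10) (.e (nat_lit 8567) (nat_lit 250) .nil))))))) (.g (nat_lit 4) .nil .nil))) 
(.lf (nat_lit 45239) (.g (nat_lit 4984) (.e (nat_lit 1253) (nat_lit 92) (.e (nat_lit 98389) (nat_lit 33) (.e (nat_lit 491546) (nat_lit 9) (.e (nat_lit 336028) (nat_lit 3) (.e (nat_lit 98350) (nat_lit 24) (.e (nat_lit 409617) (nat_lit 10) (.e (nat_lit 5355) (nat_lit 298) .nil))))))) (.g (nat_lit 0) .nil .nil))))) (.nd (nat_lit 4) (.nd (nat_lit 5) 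
(.lf (nat_lit 45199) (.g (nat_lit 3974) (.e (nat_lit 1253) (nat_lit 92) (.e (nat_lit 98373) (nat_lit 29) (.e (nat_lit 450588) (nat_lit 10) (.e (nat_lit 573474) (nat_lit 12) (.e (nat_lit 57572) (nat_lit 54) (.e (nat_lit 770068) (nat_lit 7) (.e (nat_lit 57740) (nat_lit 187) .nil))))))) (.g (nat_lit 5) .nil .nil))) 
(.lf (nat_lit 45231) (.g (nat_lit 2820) (.e (nat_lit 1253) (nat_lit 92) (.e (nat_lit 98384) (nat_lit 32) (.e (nat_lit 475177) (nat_lit 24) (.e (nat_lit 516150) (nat_lit 9) (.e (nat_lit 426131) (nat_lit 3) (.e (nat_lit 204830) (nat_lit 18) (.e (nat_lit 57754) (nat_lit 209) (.e (nat_lit 1082) (nat_lit 81) .nil)))))))) (.g (nat_lit 4) .nil .nil)))) (.nd (nat_lit 5) 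
(.lf (nat_lit 45215) (.g (nat_lit 3004) (.e (nat_lit 1253) (nat_lit 92) (.e (nat_lit 98380) (nat_lit 31) (.e (nat_lit 466945) (nat_lit 0) (.e (nat_lit 1853) (nat_lit 124) (.e (nat_lit 557104) (nat_lit 14) (.e (nat_lit 180278) (nat_lit 32) .nil)))))) (.g (nat_lit 6) .nil .nil))) 
(.lf (nat_lit 45247) (.g (nat_lit 740) (.e (nat_lit 1254) (nat_lit 92) (.e (nat_lit 98333) (nat_lit 18) (.e (nat_lit 164399) (nat_lit 256) .nil))) .nil))))))))

noncomputable def tv627 : DT := (.nd (nat_lit 0) (.nd (nat_lit 1) (.nd (nat_lit 2) (.nd (nat_lit 3) (.nd (nat_lit 4) (.nd (nat_lit 5) 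
(.lf (nat_lit 45248) (.g (nat_lit 2058) (.e (nat_lit 1254) (nat_lit 92) (.e (nat_lit 98333) (nat_lit 18) (.e (nat_lit 164399) (nat_lit 256) (.e (nat_lit 57370) (nat_lit 2) (.e (nat_lit 90172) (nat_lit 14) .nil))))) .nil)) 
(.lf (nat_lit 45280) (.g (nat_lit 2520) (.e (nat_lit 1254) (nat_lit 92) (.e (nat_lit 98334) (nat_lit 18) (.e (nat_lit 164398) (nat_lit 256) (.e (nat_lit 57373) (nat_lit 2) (.e (nat_lit 90174) (nat_lit 14) (.e (nat_lit 180243) (nat_lit 5) (.e (nat_lit 532506) (nat_lit 2) (.e (nat_lit 106520) (nat_lit 9) .nil)))))))) (.g (nat_lit 4) .nil .nil)))) (.nd (nat_lit 5) 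
(.lf (nat_lit 45264) (.g (nat_lit 1878) (.e (nat_lit 1254) (nat_lit 92) (.e (nat_lit 98333) (nat_lit 18) (.e (nat_lit 164403) (nat_lit 256) (.e (nat_lit 57370) (nat_lit 2) .nil)))) .nil)) 
(.lf (nat_lit 45296) (.g (nat_lit 2844) (.e (nat_lit 1254) (nat_lit 92) (.e (nat_lit 98334) (nat_lit 18) (.e (nat_lit 164401) (nat_lit 256) (.e (nat_lit 57373) (nat_lit 2) (.e (nat_lit 90174) (nat_lit 14) (.e (nat_lit 180243) (nat_lit 5) (.e (nat_lit 532508) (nat_lit 2) (.e (nat_lit 106526) (nat_lit 9) .nil)))))))) (.g (nat_lit 5) .nil .nil))))) (.nd (nat_lit 4) (.nd (nat_lit 5) 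
(.lf (nat_lit 45256) (.g (nat_lit 2320) (.e (nat_lit 1254) (nat_lit 92) (.e (nat_lit 98333) (nat_lit 18) (.e (nat_lit 164399) (nat_lit 256) (.e (nat_lit 57375) (nat_lit 2) (.e (nat_lit 90172) (nat_lit 14) (.e (nat_lit 180244) (nat_lit 5) (.e (nat_lit 532508) (nat_lit 2) (.e (nat_lit 106523) (nat_lit 9) .nil)))))))) (.g (nat_lit 4) .nil .nil))) 
(.lf (nat_lit 45288) (.g (nat_lit 3453) (.e (nat_lit 1254) (nat_lit 92) (.e (nat_lit 98334) (nat_lit 18) (.e (nat_lit 164398) (nat_lit 256) (.e (nat_lit 57375) (nat_lit 2) (.e (nat_lit 90172) (nat_lit 14) (.e (nat_lit 180244) (nat_lit 5) (.e (nat_lit 532508) (nat_lit 2) (.e (nat_lit 106526) (nat_lit 9) .nil)))))))) (.g (nat_lit 5) .nil .nil)))) (.nd (nat_lit 5) 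
(.lf (nat_lit 45272) (.g (nat_lit 3364) (.e (nat_lit 1254) (nat_lit 92) (.e (nat_lit 98333) (nat_lit 18) (.e (nat_lit 164403) (nat_lit 256) (.e (nat_lit 57373) (nat_lit 2) (.e (nat_lit 90172) (nat_lit 14) (.e (nat_lit 180243) (nat_lit 5) (.e (nat_lit 532508) (nat_lit 2) (.e (nat_lit 106526) (nat_lit 9) .nil)))))))) (.g (nat_lit 4) .nil .nil))) 
(.lf (nat_lit 45304) (.g (nat_lit 1998) (.e (nat_lit 1254) (nat_lit 92) (.e (nat_lit 98342) (nat_lit 20) (.e (nat_lit 221212) (nat_lit 22) (.e (nat_lit 196669) (nat_lit 14) .nil)))) .nil))))) (.nd (nat_lit 3) (.nd (nat_lit 4) (.nd (nat_lit 5) 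
(.lf (nat_lit 45252) (.g (nat_lit 2445) (.e (nat_lit 1254) (nat_lit 92) (.e (nat_lit 98333) (nat_lit 18) (.e (nat_lit 164399) (nat_lit 256) (.e (nat_lit 57373) (nat_lit 2) (.e (nat_lit 90172) (nat_lit 14) .nil))))) .nil)) 
(.lf (nat_lit 45284) (.g (nat_lit 2528) (.e (nat_lit 1254) (nat_lit 92) (.e (nat_lit 98334) (nat_lit 18) (.e (nat_lit 164398) (nat_lit 256) (.e (nat_lit 57373) (nat_lit 2) (.e (nat_lit 90174) (nat_lit 14) (.e (nat_lit 180243) (nat_lit 5) (.e (nat_lit 532510) (nat_lit 2) (.e (nat_lit 106521) (nat_lit 9) .nil)))))))) (.g (nat_lit 4) .nil .nil)))) (.nd (nat_lit 5) 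
(.lf (nat_lit 45268) (.g (nat_lit 3819) (.e (nat_lit 1254) (nat_lit 92) (.e (nat_lit 98333) (nat_lit 18) (.e (nat_lit 164403) (nat_lit 256) (.e (nat_lit 57371) (nat_lit 2) (.e (nat_lit 90174) (nat_lit 14) (.e (nat_lit 180243) (nat_lit 5) (.e (nat_lit 532508) (nat_lit 2) (.e (nat_lit 106526) (nat_lit 9) .nil)))))))) (.g (nat_lit 5) .nil .nil))) 
(.lf (nat_lit 45300) (.g (nat_lit 4237) (.e (nat_lit 1254) (nat_lit 92) (.e (nat_lit 98335) (nat_lit 18) (.e (nat_lit 164403) (nat_lit 256) (.e (nat_lit 57373) (nat_lit 2) (.e (nat_lit 90174) (nat_lit 14) (.e (nat_lit 180243) (nat_lit 5) (.e (nat_lit 532508) (nat_lit 2) (.e (nat_lit 106526) (nat_lit 9) .nil)))))))) (.g (nat_lit 6) .nil .nil))))) (.nd (nat_lit 4) (.nd (nat_lit 5) 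
(.lf (nat_lit 45260) (.g (nat_lit 2766) (.e (nat_lit 1254) (nat_lit 92) (.e (nat_lit 98333) (nat_lit 18) (.e (nat_lit 164399) (nat_lit 256) (.e (nat_lit 57378) (nat_lit 3) (.e (nat_lit 98366) (nat_lit 27) (.e (nat_lit 434231) (nat_lit 23) (.e (nat_lit 532507) (nat_lit 2) (.e (nat_lit 106523) (nat_lit 9) .nil)))))))) (.g (nat_lit 4) .nil .nil))) 
(.lf (nat_lit 45292) (.g (nat_lit 1983) (.e (nat_lit 1254) (nat_lit 92) (.e (nat_lit 98334) (nat_lit 18) (.e (nat_lit 164398) (nat_lit 256) (.e (nat_lit 57378) (nat_lit 3) .nil)))) .nil))) (.nd (nat_lit 5) 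
(.lf (nat_lit 45276) (.g (nat_lit 3021) (.e (nat_lit 1254) (nat_lit 92) (.e (nat_lit 98334) (nat_lit 18) (.e (nat_lit 164398) (nat_lit 256) (.e (nat_lit 57371) (nat_lit 2) (.e (nat_lit 90172) (nat_lit 14) .nil))))) .nil)) 
(.lf (nat_lit 45308) (.g (nat_lit 980) (.e (nat_lit 1254) (nat_lit 92) (.e (nat_lit 98356) (nat_lit 26) (.e (nat_lit 426438) (nat_lit 18) .nil))) .nil)))))) (.nd (nat_lit 2) (.nd (nat_lit 3) (.nd (nat_lit 4) (.nd (nat_lit 5) 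
(.lf (nat_lit 45250) (.g (nat_lit 2714) (.e (nat_lit 1254) (nat_lit 92) (.e (nat_lit 98333) (nat_lit 18) (.e (nat_lit 164399) (nat_lit 256) (.e (nat_lit 57372) (nat_lit 2) (.e (nat_lit 90174) (nat_lit 14) (.e (nat_lit 180243) (nat_lit 5) (.e (nat_lit 532511) (nat_lit 2) (.e (nat_lit 106523) (nat_lit 9) .nil)))))))) (.g (nat_lit 5) .nil .nil))) 
(.lf (nat_lit 45282) (.g (nat_lit 4976) (.e (nat_lit 1254) (nat_lit 92) (.e (nat_lit 98334) (nat_lit 18) (.e (nat_lit 164398) (nat_lit 256) (.e (nat_lit 57373) (nat_lit 2) (.e (nat_lit 90174) (nat_lit 14) (.e (nat_lit 180243) (nat_lit 5) (.e (nat_lit 532508) (nat_lit 2) (.e (nat_lit 106526) (nat_lit 9) .nil)))))))) (.g (nat_lit 0) .nil .nil)))) (.nd (nat_lit 5) 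
(.lf (nat_lit 45266) (.g (nat_lit 2804) (.e (nat_lit 1254) (nat_lit 92) (.e (nat_lit 98333) (nat_lit 18) (.e (nat_lit 164403) (nat_lit 256) (.e (nat_lit 57371) (nat_lit 2) (.e (nat_lit 90172) (nat_lit 14) (.e (nat_lit 180244) (nat_lit 5) (.e (nat_lit 532508) (nat_lit 2) (.e (nat_lit 106526) (nat_lit 9) .nil)))))))) (.g (nat_lit 4) .nil .nil))) 
(.lf (nat_lit 45298) (.g (nat_lit 2669) (.e (nat_lit 1254) (nat_lit 92) (.e (nat_lit 98335) (nat_lit 18) (.e (nat_lit 164403) (nat_lit 256) (.e (nat_lit 57373) (nat_lit 2) (.e (nat_lit 90172) (nat_lit 14) .nil))))) .nil)))) (.nd (nat_lit 4) (.nd (nat_lit 5) 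
(.lf (nat_lit 45258) (.g (nat_lit 3340) (.e (nat_lit 1254) (nat_lit 92) (.e (nat_lit 98333) (nat_lit 18) (.e (nat_lit 164399) (nat_lit 256) (.e (nat_lit 57375) (nat_lit 2) (.e (nat_lit 90174) (nat_lit 14) (.e (nat_lit 180243) (nat_lit 5) (.e (nat_lit 532508) (nat_lit 2) (.e (nat_lit 106526) (nat_lit 9) .nil)))))))) (.g (nat_lit 6) .nil .nil))) 
(.lf (nat_lit 45290) (.g (nat_lit 2586) (.e (nat_lit 1254) (nat_lit 92) (.e (nat_lit 98334) (nat_lit 18) (.e (nat_lit 164398) (nat_lit 256) (.e (nat_lit 57375) (nat_lit 2) (.e (nat_lit 90174) (nat_lit 14) (.e (nat_lit 180243) (nat_lit 5) (.e (nat_lit 532511) (nat_lit 2) (.e (nat_lit 106523) (nat_lit 9) .nil)))))))) (.g (nat_lit 4) .nil .nil)))) (.nd (nat_lit 5) 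
(.lf (nat_lit 45274) (.g (nat_lit 3083) (.e (nat_lit 1254) (nat_lit 92) (.e (nat_lit 98333) (nat_lit 18) (.e (nat_lit 164403) (nat_lit 256) (.e (nat_lit 57373) (nat_lit 2) (.e (nat_lit 90174) (nat_lit 14) (.e (nat_lit 180243) (nat_lit 5) (.e (nat_lit 532508) (nat_lit 2) (.e (nat_lit 106527) (nat_lit 9) .nil)))))))) (.g (nat_lit 4) .nil .nil))) 
(.lf (nat_lit 45306) (.g (nat_lit 1872) (.e (nat_lit 1254) (nat_lit 92) (.e (nat_lit 98342) (nat_lit 20) (.e (nat_lit 221212) (nat_lit 22) (.e (nat_lit 196681) (nat_lit 17) .nil)))) .nil))))) (.nd (nat_lit 3) (.nd (nat_lit 4) (.nd (nat_lit 5) 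
(.lf (nat_lit 45254) (.g (nat_lit 2263) (.e (nat_lit 1254) (nat_lit 92) (.e (nat_lit 98333) (nat_lit 18) (.e (nat_lit 164399) (nat_lit 256) (.e (nat_lit 57373) (nat_lit 2) (.e (nat_lit 90174) (nat_lit 14) (.e (nat_lit 180243) (nat_lit 5) (.e (nat_lit 532508) (nat_lit 2) (.e (nat_lit 106525) (nat_lit 9) .nil)))))))) (.g (nat_lit 4) .nil .nil))) 
(.lf (nat_lit 45286) (.g (nat_lit 2534) (.e (nat_lit 1254) (nat_lit 92) (.e (nat_lit 98334) (nat_lit 18) (.e (nat_lit 164398) (nat_lit 256) (.e (nat_lit 57373) (nat_lit 2) (.e (nat_lit 90174) (nat_lit 14) (.e (nat_lit 180243) (nat_lit 5) (.e (nat_lit 532511) (nat_lit 2) (.e (nat_lit 106520) (nat_lit 9) .nil)))))))) (.g (nat_lit 4) .nil .nil)))) (.nd (nat_lit 5) 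
(.lf (nat_lit 45270) (.g (nat_lit 1717) (.e (nat_lit 1254) (nat_lit 92) (.e (nat_lit 98333) (nat_lit 18) (.e (nat_lit 164403) (nat_lit 256) (.e (nat_lit 57373) (nat_lit 2) .nil)))) .nil)) 
(.lf (nat_lit 45302) (.g (nat_lit 2196) (.e (nat_lit 1254) (nat_lit 92) (.e (nat_lit 98341) (nat_lit 20) (.e (nat_lit 221214) (nat_lit 23) (.e (nat_lit 204861) (nat_lit 26) (.e (nat_lit 336012) (nat_lit 2) .nil))))) .nil)))) (.nd (nat_lit 4) (.nd (nat_lit 5) 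
(.lf (nat_lit 45262) (.g (nat_lit 2296) (.e (nat_lit 1254) (nat_lit 92) (.e (nat_lit 98333) (nat_lit 18) (.e (nat_lit 164399) (nat_lit 256) (.e (nat_lit 57379) (nat_lit 3) (.e (nat_lit 98366) (nat_lit 27) (.e (nat_lit 434231) (nat_lit 23) (.e (nat_lit 532506) (nat_lit 2) (.e (nat_lit 106523) (nat_lit 9) .nil)))))))) (.g (nat_lit 4) .nil .nil))) 
(.lf (nat_lit 45294) (.g (nat_lit 2837) (.e (nat_lit 1254) (nat_lit 92) (.e (nat_lit 98334) (nat_lit 18) (.e (nat_lit 164398) (nat_lit 256) (.e (nat_lit 57379) (nat_lit 3) (.e (nat_lit 98366) (nat_lit 27) (.e (nat_lit 434231) (nat_lit 23) (.e (nat_lit 532506) (nat_lit 2) (.e (nat_lit 106523) (nat_lit 9) .nil)))))))) (.g (nat_lit 4) .nil .nil)))) (.nd (nat_lit 5) 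
(.lf (nat_lit 45278) (.g (nat_lit 3154) (.e (nat_lit 1254) (nat_lit 92) (.e (nat_lit 98334) (nat_lit 18) (.e (nat_lit 164398) (nat_lit 256) (.e (nat_lit 57372) (nat_lit 2) (.e (nat_lit 90174) (nat_lit 14) (.e (nat_lit 180243) (nat_lit 5) (.e (nat_lit 532511) (nat_lit 2) (.e (nat_lit 106526) (nat_lit 9) .nil)))))))) (.g (nat_lit 4) .nil .nil))) 
(.lf (nat_lit 45310) (.g (nat_lit 1682) (.e (nat_lit 1254) (nat_lit 92) (.e (nat_lit 98367) (nat_lit 27) (.e (nat_lit 434247) (nat_lit 28) (.e (nat_lit 573489) (nat_lit 14) .nil)))) .nil))))))) (.nd (nat_lit 1) (.nd (nat_lit 2) (.nd (nat_lit 3) (.nd (nat_lit 4) (.nd (nat_lit 5) 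
(.lf (nat_lit 45249) (.g (nat_lit 2235) (.e (nat_lit 1254) (nat_lit 92) (.e (nat_lit 98333) (nat_lit 18) (.e (nat_lit 164399) (nat_lit 256) (.e (nat_lit 57372) (nat_lit 2) (.e (nat_lit 90174) (nat_lit 14) (.e (nat_lit 180243) (nat_lit 5) (.e (nat_lit 532508) (nat_lit 2) (.e (nat_lit 106527) (nat_lit 9) .nil)))))))) (.g (nat_lit 4) .nil .nil))) 
(.lf (nat_lit 45281) (.g (nat_lit 2565) (.e (nat_lit 1254) (nat_lit 92) (.e (nat_lit 98334) (nat_lit 18) (.e (nat_lit 164398) (nat_lit 256) (.e (nat_lit 57373) (nat_lit 2) (.e (nat_lit 90174) (nat_lit 14) (.e (nat_lit 180243) (nat_lit 5) (.e (nat_lit 532508) (nat_lit 2) (.e (nat_lit 106519) (nat_lit 9) .nil)))))))) (.g (nat_lit 4) .nil .nil)))) (.nd (nat_lit 5) 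
(.lf (nat_lit 45265) (.g (nat_lit 2997) (.e (nat_lit 1254) (nat_lit 92) (.e (nat_lit 98333) (nat_lit 18) (.e (nat_lit 164403) (nat_lit 256) (.e (nat_lit 57371) (nat_lit 2) (.e (nat_lit 90172) (nat_lit 14) (.e (nat_lit 180243) (nat_lit 5) (.e (nat_lit 532508) (nat_lit 2) (.e (nat_lit 106526) (nat_lit 9) .nil)))))))) (.g (nat_lit 4) .nil .nil))) 
(.lf (nat_lit 45297) (.g (nat_lit 2031) (.e (nat_lit 1254) (nat_lit 92) (.e (nat_lit 98335) (nat_lit 18) (.e (nat_lit 164403) (nat_lit 256) (.e (nat_lit 57370) (nat_lit 2) (.e (nat_lit 90174) (nat_lit 14) (.e (nat_lit 180243) (nat_lit 5) (.e (nat_lit 532508) (nat_lit 2) (.e (nat_lit 106526) (nat_lit 9) .nil)))))))) (.g (nat_lit 4) .nil .nil))))) (.nd (nat_lit 4) (.nd (nat_lit 5) 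
(.lf (nat_lit 45257) (.g (nat_lit 2135) (.e (nat_lit 1254) (nat_lit 92) (.e (nat_lit 98333) (nat_lit 18) (.e (nat_lit 164399) (nat_lit 256) (.e (nat_lit 57375) (nat_lit 2) (.e (nat_lit 90174) (nat_lit 14) (.e (nat_lit 180243) (nat_lit 5) (.e (nat_lit 532508) (nat_lit 2) (.e (nat_lit 106520) (nat_lit 9) .nil)))))))) (.g (nat_lit 4) .nil .nil))) 
(.lf (nat_lit 45289) (.g (nat_lit 3792) (.e (nat_lit 1254) (nat_lit 92) (.e (nat_lit 98334) (nat_lit 18) (.e (nat_lit 164398) (nat_lit 256) (.e (nat_lit 57375) (nat_lit 2) (.e (nat_lit 90174) (nat_lit 14) (.e (nat_lit 180243) (nat_lit 5) (.e (nat_lit 532508) (nat_lit 2) (.e (nat_lit 106526) (nat_lit 9) .nil)))))))) (.g (nat_lit 6) .nil .nil)))) (.nd (nat_lit 5) 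
(.lf (nat_lit 45273) (.g (nat_lit 4753) (.e (nat_lit 1254) (nat_lit 92) (.e (nat_lit 98333) (nat_lit 18) (.e (nat_lit 164403) (nat_lit 256) (.e (nat_lit 57373) (nat_lit 2) (.e (nat_lit 90174) (nat_lit 14) (.e (nat_lit 180243) (nat_lit 5) (.e (nat_lit 532508) (nat_lit 2) (.e (nat_lit 106526) (nat_lit 9) .nil)))))))) (.g (nat_lit 6) .nil .nil))) 
(.lf (nat_lit 45305) (.g (nat_lit 1894) (.e (nat_lit 1254) (nat_lit 92) (.e (nat_lit 98342) (nat_lit 20) (.e (nat_lit 221212) (nat_lit 22) (.e (nat_lit 196670) (nat_lit 14) .nil)))) .nil))))) (.nd (nat_lit 3) (.nd (nat_lit 4) (.nd (nat_lit 5) 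
(.lf (nat_lit 45253) (.g (nat_lit 2554) (.e (nat_lit 1254) (nat_lit 92) (.e (nat_lit 98333) (nat_lit 18) (.e (nat_lit 164399) (nat_lit 256) (.e (nat_lit 57373) (nat_lit 2) (.e (nat_lit 90172) (nat_lit 14) (.e (nat_lit 180244) (nat_lit 5) (.e (nat_lit 532506) (nat_lit 2) (.e (nat_lit 106523) (nat_lit 9) .nil)))))))) (.g (nat_lit 4) .nil .nil))) 
(.lf (nat_lit 45285) (.g (nat_lit 3343) (.e (nat_lit 1254) (nat_lit 92) (.e (nat_lit 98334) (nat_lit 18) (.e (nat_lit 164398) (nat_lit 256) (.e (nat_lit 57373) (nat_lit 2) (.e (nat_lit 90174) (nat_lit 14) (.e (nat_lit 180243) (nat_lit 5) (.e (nat_lit 532510) (nat_lit 2) (.e (nat_lit 106523) (nat_lit 9) .nil)))))))) (.g (nat_lit 5) .nil .nil)))) (.nd (nat_lit 5) 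
(.lf (nat_lit 45269) (.g (nat_lit 2926) (.e (nat_lit 1254) (nat_lit 92) (.e (nat_lit 98333) (nat_lit 18) (.e (nat_lit 164403) (nat_lit 256) (.e (nat_lit 57371) (nat_lit 2) (.e (nat_lit 90174) (nat_lit 14) (.e (nat_lit 180243) (nat_lit 5) (.e (nat_lit 532511) (nat_lit 2) (.e (nat_lit 106526) (nat_lit 9) .nil)))))))) (.g (nat_lit 4) .nil .nil))) 
(.lf (nat_lit 45301) (.g (nat_lit 2567) (.e (nat_lit 1254) (nat_lit 92) (.e (nat_lit 98335) (nat_lit 18) (.e (nat_lit 164403) (nat_lit 256) (.e (nat_lit 57373) (nat_lit 2) (.e (nat_lit 90174) (nat_lit 14) (.e (nat_lit 180243) (nat_lit 5) (.e (nat_lit 532508) (nat_lit 2) (.e (nat_lit 106527) (nat_lit 9) .nil)))))))) (.g (nat_lit 4) .nil .nil))))) (.nd (nat_lit 4) (.nd (nat_lit 5) 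
(.lf (nat_lit 45261) (.g (nat_lit 2557) (.e (nat_lit 1254) (nat_lit 92) (.e (nat_lit 98333) (nat_lit 18) (.e (nat_lit 164399) (nat_lit 256) (.e (nat_lit 57378) (nat_lit 3) (.e (nat_lit 98367) (nat_lit 27) (.e (nat_lit 434231) (nat_lit 23) (.e (nat_lit 532507) (nat_lit 2) (.e (nat_lit 106523) (nat_lit 9) .nil)))))))) (.g (nat_lit 4) .nil .nil))) 
(.lf (nat_lit 45293) (.g (nat_lit 1929) (.e (nat_lit 1254) (nat_lit 92) (.e (nat_lit 98334) (nat_lit 18) (.e (nat_lit 164398) (nat_lit 256) (.e (nat_lit 57379) (nat_lit 3) .nil)))) .nil))) (.nd (nat_lit 5) 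
(.lf (nat_lit 45277) (.g (nat_lit 3832) (.e (nat_lit 1254) (nat_lit 92) (.e (nat_lit 98334) (nat_lit 18) (.e (nat_lit 164398) (nat_lit 256) (.e (nat_lit 57372) (nat_lit 2) (.e (nat_lit 90172) (nat_lit 14) (.e (nat_lit 180244) (nat_lit 5) (.e (nat_lit 532508) (nat_lit 2) (.e (nat_lit 106526) (nat_lit 9) .nil)))))))) (.g (nat_lit 5) .nil .nil))) 
(.lf (nat_lit 45309) (.g (nat_lit 894) (.e (nat_lit 1254) (nat_lit 92) (.e (nat_lit 98357) (nat_lit 26) (.e (nat_lit 426448) (nat_lit 20) (.e (nat_lit 114711) (nat_lit 21) .nil)))) .nil)))))) (.nd (nat_lit 2) (.nd (nat_lit 3) (.nd (nat_lit 4) (.nd (nat_lit 5) 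
(.lf (nat_lit 45251) (.g (nat_lit 2020) (.e (nat_lit 1254) (nat_lit 92) (.e (nat_lit 98333) (nat_lit 18) (.e (nat_lit 164399) (nat_lit 256) (.e (nat_lit 57373) (nat_lit 2) (.e (nat_lit 90170) (nat_lit 13) .nil))))) .nil)) 
(.lf (nat_lit 45283) (.g (nat_lit 3306) (.e (nat_lit 1254) (nat_lit 92) (.e (nat_lit 98334) (nat_lit 18) (.e (nat_lit 164398) (nat_lit 256) (.e (nat_lit 57373) (nat_lit 2) (.e (nat_lit 90174) (nat_lit 14) (.e (nat_lit 180243) (nat_lit 5) (.e (nat_lit 532508) (nat_lit 2) (.e (nat_lit 106527) (nat_lit 9) .nil)))))))) (.g (nat_lit 5) .nil .nil)))) (.nd (nat_lit 5) 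
(.lf (nat_lit 45267) (.g (nat_lit 2838) (.e (nat_lit 1254) (nat_lit 92) (.e (nat_lit 98333) (nat_lit 18) (.e (nat_lit 164403) (nat_lit 256) (.e (nat_lit 57371) (nat_lit 2) (.e (nat_lit 90174) (nat_lit 14) (.e (nat_lit 180243) (nat_lit 5) (.e (nat_lit 532508) (nat_lit 2) (.e (nat_lit 106523) (nat_lit 9) .nil)))))))) (.g (nat_lit 4) .nil .nil))) 
(.lf (nat_lit 45299) (.g (nat_lit 2560) (.e (nat_lit 1254) (nat_lit 92) (.e (nat_lit 98335) (nat_lit 18) (.e (nat_lit 164403) (nat_lit 256) (.e (nat_lit 57373) (nat_lit 2) (.e (nat_lit 90174) (nat_lit 14) .nil))))) .nil)))) (.nd (nat_lit 4) (.nd (nat_lit 5) 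
(.lf (nat_lit 45259) (.g (nat_lit 2707) (.e (nat_lit 1254) (nat_lit 92) (.e (nat_lit 98333) (nat_lit 18) (.e (nat_lit 164399) (nat_lit 256) (.e (nat_lit 57378) (nat_lit 3) (.e (nat_lit 98366) (nat_lit 27) .nil))))) .nil)) 
(.lf (nat_lit 45291) (.g (nat_lit 2885) (.e (nat_lit 1254) (nat_lit 92) (.e (nat_lit 98334) (nat_lit 18) (.e (nat_lit 164398) (nat_lit 256) (.e (nat_lit 57375) (nat_lit 2) (.e (nat_lit 90174) (nat_lit 14) (.e (nat_lit 180243) (nat_lit 5) (.e (nat_lit 532511) (nat_lit 2) (.e (nat_lit 106526) (nat_lit 9) .nil)))))))) (.g (nat_lit 5) .nil .nil)))) (.nd (nat_lit 5) 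
(.lf (nat_lit 45275) (.g (nat_lit 3120) (.e (nat_lit 1254) (nat_lit 92) (.e (nat_lit 98333) (nat_lit 18) (.e (nat_lit 164403) (nat_lit 256) (.e (nat_lit 57373) (nat_lit 2) (.e (nat_lit 90174) (nat_lit 14) (.e (nat_lit 180243) (nat_lit 5) (.e (nat_lit 532510) (nat_lit 2) (.e (nat_lit 106523) (nat_lit 9) .nil)))))))) (.g (nat_lit 4) .nil .nil))) 
(.lf (nat_lit 45307) (.g (nat_lit 2678) (.e (nat_lit 1254) (nat_lit 92) (.e (nat_lit 98356) (nat_lit 26) (.e (nat_lit 426428) (nat_lit 17) (.e (nat_lit 90170) (nat_lit 13) (.e (nat_lit 172065) (nat_lit 3) .nil))))) .nil))))) (.nd (nat_lit 3) (.nd (nat_lit 4) (.nd (nat_lit 5) 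
(.lf (nat_lit 45255) (.g (nat_lit 3206) (.e (nat_lit 1254) (nat_lit 92) (.e (nat_lit 98333) (nat_lit 18) (.e (nat_lit 164399) (nat_lit 256) (.e (nat_lit 57373) (nat_lit 2) (.e (nat_lit 90174) (nat_lit 14) (.e (nat_lit 180243) (nat_lit 5) (.e (nat_lit 532508) (nat_lit 2) (.e (nat_lit 106527) (nat_lit 9) .nil)))))))) (.g (nat_lit 5) .nil .nil))) 
(.lf (nat_lit 45287) (.g (nat_lit 4075) (.e (nat_lit 1254) (nat_lit 92) (.e (nat_lit 98334) (nat_lit 18) (.e (nat_lit 164398) (nat_lit 256) (.e (nat_lit 57373) (nat_lit 2) (.e (nat_lit 90174) (nat_lit 14) (.e (nat_lit 180243) (nat_lit 5) (.e (nat_lit 532511) (nat_lit 2) (.e (nat_lit 106526) (nat_lit 9) .nil)))))))) (.g (nat_lit 6) .nil .nil)))) (.nd (nat_lit 5) 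
(.lf (nat_lit 45271) (.g (nat_lit 3109) (.e (nat_lit 1254) (nat_lit 92) (.e (nat_lit 98333) (nat_lit 18) (.e (nat_lit 164403) (nat_lit 256) (.e (nat_lit 57373) (nat_lit 2) (.e (nat_lit 90172) (nat_lit 14) .nil))))) .nil)) 
(.lf (nat_lit 45303) (.g (nat_lit 1981) (.e (nat_lit 1254) (nat_lit 92) (.e (nat_lit 98342) (nat_lit 20) (.e (nat_lit 221212) (nat_lit 22) (.e (nat_lit 196668) (nat_lit 14) .nil)))) .nil)))) (.nd (nat_lit 4) (.nd (nat_lit 5) 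
(.lf (nat_lit 45263) (.g (nat_lit 2339) (.e (nat_lit 1254) (nat_lit 92) (.e (nat_lit 98333) (nat_lit 18) (.e (nat_lit 164399) (nat_lit 256) (.e (nat_lit 57379) (nat_lit 3) (.e (nat_lit 98366) (nat_lit 27) (.e (nat_lit 434231) (nat_lit 23) (.e (nat_lit 532507) (nat_lit 2) (.e (nat_lit 106504) (nat_lit 9) .nil)))))))) (.g (nat_lit 4) .nil .nil))) 
(.lf (nat_lit 45295) (.g (nat_lit 2880) (.e (nat_lit 1254) (nat_lit 92) (.e (nat_lit 98334) (nat_lit 18) (.e (nat_lit 164398) (nat_lit 256) (.e (nat_lit 57379) (nat_lit 3) (.e (nat_lit 98366) (nat_lit 27) (.e (nat_lit 434231) (nat_lit 23) (.e (nat_lit 532507) (nat_lit 2) (.e (nat_lit 106504) (nat_lit 9) .nil)))))))) (.g (nat_lit 4) .nil .nil)))) (.nd (nat_lit 5) 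
(.lf (nat_lit 45279) (.g (nat_lit 2723) (.e (nat_lit 1254) (nat_lit 92) (.e (nat_lit 98334) (nat_lit 18) (.e (nat_lit 164398) (nat_lit 256) (.e (nat_lit 57373) (nat_lit 2) (.e (nat_lit 90172) (nat_lit 14) .nil))))) .nil)) 
(.lf (nat_lit 45311) (.g (nat_lit 2134) (.e (nat_lit 1254) (nat_lit 92) (.e (nat_lit 98367) (nat_lit 27) (.e (nat_lit 434247) (nat_lit 28) (.e (nat_lit 573489) (nat_lit 14) (.e (nat_lit 73755) (nat_lit 8) .nil))))) .nil))))))))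

noncomputable def tv628 : DT := (.nd (nat_lit 0) (.nd (nat_lit 1) (.nd (nat_lit 2) (.nd (nat_lit 3) (.nd (nat_lit 4) (.nd (nat_lit 5) 
(.lf (nat_lit 45312) (.g (nat_lit 2876) (.e (nat_lit 1254) (nat_lit 92) (.e (nat_lit 98367) (nat_lit 27) (.e (nat_lit 434248) (nat_lit 28) (.e (nat_lit 573489) (nat_lit 14) (.e (nat_lit 73755) (nat_lit 8) .nil))))) .nil)) 
(.lf (nat_lit 45344) (.g (nat_lit 1623) (.e (nat_lit 1255) (nat_lit 92) (.e (nat_lit 98317) (nat_lit 9) (.e (nat_lit 336088) (nat_lit 9) (.e (nat_lit 336019) (nat_lit 3) (.e (nat_lit 98356) (nat_lit 26) .nil))))) .nil))) (.nd (nat_lit 5) 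
(.lf (nat_lit 45328) (.g (nat_lit 3719) (.e (nat_lit 1254) (nat_lit 92) (.e (nat_lit 98373) (nat_lit 29) (.e (nat_lit 450587) (nat_lit 10) (.e (nat_lit 573456) (nat_lit 9) .nil)))) .nil)) 
(.lf (nat_lit 45360) (.g (nat_lit 1725) (.e (nat_lit 1255) (nat_lit 92) (.e (nat_lit 98317) (nat_lit 9) (.e (nat_lit 336186) (nat_lit 11) (.e (nat_lit 368676) (nat_lit 21) (.e (nat_lit 516179) (nat_lit 15) (.e (nat_lit 475201) (nat_lit 40) (.e (nat_lit 704657) (nat_lit 9) .nil))))))) (.g (nat_lit 4) .nil .nil))))) (.nd (nat_lit 4) (.nd (nat_lit 5) 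
(.lf (nat_lit 45320) (.g (nat_lit 2528) (.e (nat_lit 1254) (nat_lit 92) (.e (nat_lit 98372) (nat_lit 29) (.e (nat_lit 450579) (nat_lit 5) (.e (nat_lit 532530) (nat_lit 9) (.e (nat_lit 336261) (nat_lit 15) .nil))))) .nil)) 
(.lf (nat_lit 45352) (.g (nat_lit 1653) (.e (nat_lit 1255) (nat_lit 92) (.e (nat_lit 98317) (nat_lit 9) (.e (nat_lit 336184) (nat_lit 11) (.e (nat_lit 368676) (nat_lit 21) (.e (nat_lit 516179) (nat_lit 15) (.e (nat_lit 475201) (nat_lit 40) (.e (nat_lit 704659) (nat_lit 9) .nil))))))) (.g (nat_lit 4) .nil .nil)))) (.nd (nat_lit 5) 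
(.lf (nat_lit 45336) (.g (nat_lit 4435) (.e (nat_lit 1254) (nat_lit 92) (.e (nat_lit 98373) (nat_lit 29) (.e (nat_lit 450588) (nat_lit 10) (.e (nat_lit 573475) (nat_lit 12) .nil)))) .nil)) 
(.lf (nat_lit 45368) (.g (nat_lit 3364) (.e (nat_lit 1255) (nat_lit 92) (.e (nat_lit 98319) (nat_lit 17) (.e (nat_lit 7591) (nat_lit 407) (.e (nat_lit 73747) (nat_lit 3) (.e (nat_lit 516139) (nat_lit 7) (.e (nat_lit 409616) (nat_lit 10) (.e (nat_lit 5345) (nat_lit 298) .nil))))))) (.g (nat_lit 6) .nil .nil)))))) (.nd (nat_lit 3) (.nd (nat_lit 4) (.nd (nat_lit 5) 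
(.lf (nat_lit 45316) (.g (nat_lit 2530) (.e (nat_lit 1254) (nat_lit 92) (.e (nat_lit 98372) (nat_lit 29) (.e (nat_lit 450579) (nat_lit 5) (.e (nat_lit 532530) (nat_lit 9) (.e (nat_lit 336257) (nat_lit 15) .nil))))) .nil)) 
(.lf (nat_lit 45348) (.g (nat_lit 1326) (.e (nat_lit 1255) (nat_lit 92) (.e (nat_lit 98317) (nat_lit 9) (.e (nat_lit 336184) (nat_lit 11) (.e (nat_lit 368676) (nat_lit 21) (.e (nat_lit 516179) (nat_lit 15) .nil))))) .nil))) (.nd (nat_lit 5) 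
(.lf (nat_lit 45332) (.g (nat_lit 4202) (.e (nat_lit 1254) (nat_lit 92) (.e (nat_lit 98373) (nat_lit 29) (.e (nat_lit 450588) (nat_lit 10) (.e (nat_lit 573452) (nat_lit 9) .nil)))) .nil)) 
(.lf (nat_lit 45364) (.g (nat_lit 1802) (.e (nat_lit 1255) (nat_lit 92) (.e (nat_lit 98317) (nat_lit 9) (.e (nat_lit 336186) (nat_lit 11) (.e (nat_lit 368676) (nat_lit 21) (.e (nat_lit 516179) (nat_lit 15) (.e (nat_lit 475201) (nat_lit 40) (.e (nat_lit 704664) (nat_lit 9) .nil))))))) (.g (nat_lit 4) .nil .nil))))) (.nd (nat_lit 4) (.nd (nat_lit 5) 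
(.lf (nat_lit 45324) (.g (nat_lit 3454) (.e (nat_lit 1254) (nat_lit 92) (.e (nat_lit 98373) (nat_lit 29) (.e (nat_lit 450562) (nat_lit 0) (.e (nat_lit 6595) (nat_lit 351) .nil)))) .nil)) 
(.lf (nat_lit 45356) (.g (nat_lit 3045) (.e (nat_lit 1255) (nat_lit 92) (.e (nat_lit 98317) (nat_lit 9) (.e (nat_lit 336186) (nat_lit 11) (.e (nat_lit 368676) (nat_lit 21) (.e (nat_lit 516179) (nat_lit 15) (.e (nat_lit 475201) (nat_lit 40) (.e (nat_lit 704620) (nat_lit 9) .nil))))))) (.g (nat_lit 7) .nil .nil)))) (.nd (nat_lit 5) 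
(.lf (nat_lit 45340) (.g (nat_lit 2828) (.e (nat_lit 1254) (nat_lit 92) (.e (nat_lit 98384) (nat_lit 32) (.e (nat_lit 475177) (nat_lit 24) (.e (nat_lit 516169) (nat_lit 13) (.e (nat_lit 458789) (nat_lit 23) .nil))))) .nil)) 
(.lf (nat_lit 45372) (.g (nat_lit 2454) (.e (nat_lit 1255) (nat_lit 92) (.e (nat_lit 98333) (nat_lit 18) (.e (nat_lit 164325) (nat_lit 230) (.e (nat_lit 163869) (nat_lit 2) .nil)))) .nil)))))) (.nd (nat_lit 2) (.nd (nat_lit 3) (.nd (nat_lit 4) (.nd (nat_lit 5) 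
(.lf (nat_lit 45314) (.g (nat_lit 579) (.e (nat_lit 1254) (nat_lit 92) (.e (nat_lit 98372) (nat_lit 29) (.e (nat_lit 450579) (nat_lit 5) .nil))) .nil)) 
(.lf (nat_lit 45346) (.g (nat_lit 3283) (.e (nat_lit 1255) (nat_lit 92) (.e (nat_lit 98317) (nat_lit 9) (.e (nat_lit 336088) (nat_lit 9) (.e (nat_lit 336019) (nat_lit 3) (.e (nat_lit 98384) (nat_lit 32) (.e (nat_lit 475201) (nat_lit 40) (.e (nat_lit 704655) (nat_lit 9) .nil))))))) (.g (nat_lit 6) .nil .nil)))) (.nd (nat_lit 5) 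
(.lf (nat_lit 45330) (.g (nat_lit 814) (.e (nat_lit 1254) (nat_lit 92) (.e (nat_lit 98373) (nat_lit 29) (.e (nat_lit 450588) (nat_lit 10) .nil))) .nil)) 
(.lf (nat_lit 45362) (.g (nat_lit 1636) (.e (nat_lit 1255) (nat_lit 92) (.e (nat_lit 98317) (nat_lit 9) (.e (nat_lit 336186) (nat_lit 11) (.e (nat_lit 368676) (nat_lit 21) (.e (nat_lit 516179) (nat_lit 15) (.e (nat_lit 475201) (nat_lit 40) (.e (nat_lit 704661) (nat_lit 9) .nil))))))) (.g (nat_lit 4) .nil .nil))))) (.nd (nat_lit 4) (.nd (nat_lit 5) 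
(.lf (nat_lit 45322) (.g (nat_lit 2541) (.e (nat_lit 1254) (nat_lit 92) (.e (nat_lit 98372) (nat_lit 29) (.e (nat_lit 450579) (nat_lit 5) (.e (nat_lit 532563) (nat_lit 15) (.e (nat_lit 385087) (nat_lit 46) .nil))))) .nil)) 
(.lf (nat_lit 45354) (.g (nat_lit 1636) (.e (nat_lit 1255) (nat_lit 92) (.e (nat_lit 98317) (nat_lit 9) (.e (nat_lit 336186) (nat_lit 11) (.e (nat_lit 368676) (nat_lit 21) (.e (nat_lit 516146) (nat_lit 9) (.e (nat_lit 426444) (nat_lit 19) (.e (nat_lit 106517) (nat_lit 9) .nil))))))) (.g (nat_lit 4) .nil .nil)))) (.nd (nat_lit 5) 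
(.lf (nat_lit 45338) (.g (nat_lit 2509) (.e (nat_lit 1254) (nat_lit 92) (.e (nat_lit 98384) (nat_lit 32) (.e (nat_lit 475177) (nat_lit 24) (.e (nat_lit 516150) (nat_lit 9) (.e (nat_lit 426131) (nat_lit 3) .nil))))) .nil)) 
(.lf (nat_lit 45370) (.g (nat_lit 3705) (.e (nat_lit 1255) (nat_lit 92) (.e (nat_lit 98323) (nat_lit 17) (.e (nat_lit 6989) (nat_lit 377) (.e (nat_lit 2777) (nat_lit 178) (.e (nat_lit 286735) (nat_lit 3) (.e (nat_lit 98350) (nat_lit 24) (.e (nat_lit 409616) (nat_lit 10) (.e (nat_lit 5345) (nat_lit 298) .nil)))))))) (.g (nat_lit 6) .nil .nil)))))) (.nd (nat_lit 3) (.nd (nat_lit 4) (.nd (nat_lit 5) 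
(.lf (nat_lit 45318) (.g (nat_lit 2751) (.e (nat_lit 1254) (nat_lit 92) (.e (nat_lit 98372) (nat_lit 29) (.e (nat_lit 450579) (nat_lit 5) (.e (nat_lit 532530) (nat_lit 9) (.e (nat_lit 336259) (nat_lit 15) .nil))))) .nil)) 
(.lf (nat_lit 45350) (.g (nat_lit 2785) (.e (nat_lit 1255) (nat_lit 92) (.e (nat_lit 98317) (nat_lit 9) (.e (nat_lit 336184) (nat_lit 11) (.e (nat_lit 368676) (nat_lit 21) (.e (nat_lit 516179) (nat_lit 15) (.e (nat_lit 475201) (nat_lit 40) (.e (nat_lit 704655) (nat_lit 9) .nil))))))) (.g (nat_lit 6) .nil .nil)))) (.nd (nat_lit 5) 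
(.lf (nat_lit 45334) (.g (nat_lit 3163) (.e (nat_lit 1254) (nat_lit 92) (.e (nat_lit 98373) (nat_lit 29) (.e (nat_lit 450588) (nat_lit 10) (.e (nat_lit 573471) (nat_lit 11) .nil)))) .nil)) 
(.lf (nat_lit 45366) (.g (nat_lit 1496) (.e (nat_lit 1255) (nat_lit 92) (.e (nat_lit 98317) (nat_lit 9) (.e (nat_lit 336186) (nat_lit 11) (.e (nat_lit 368676) (nat_lit 21) (.e (nat_lit 516179) (nat_lit 15) (.e (nat_lit 475201) (nat_lit 40) (.e (nat_lit 704671) (nat_lit 9) .nil))))))) (.g (nat_lit 4) .nil .nil))))) (.nd (nat_lit 4) (.nd (nat_lit 5) 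
(.lf (nat_lit 45326) (.g (nat_lit 983) (.e (nat_lit 1254) (nat_lit 92) (.e (nat_lit 98373) (nat_lit 29) (.e (nat_lit 450579) (nat_lit 5) .nil))) .nil)) 
(.lf (nat_lit 45358) (.g (nat_lit 2961) (.e (nat_lit 1255) (nat_lit 92) (.e (nat_lit 98317) (nat_lit 9) (.e (nat_lit 336186) (nat_lit 11) (.e (nat_lit 368676) (nat_lit 21) (.e (nat_lit 516179) (nat_lit 15) (.e (nat_lit 475201) (nat_lit 40) (.e (nat_lit 704655) (nat_lit 9) .nil))))))) (.g (nat_lit 7) .nil .nil)))) (.nd (nat_lit 5) 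
(.lf (nat_lit 45342) (.g (nat_lit 3097) (.e (nat_lit 1255) (nat_lit 92) (.e (nat_lit 98317) (nat_lit 9) (.e (nat_lit 336087) (nat_lit 9) (.e (nat_lit 336019) (nat_lit 3) (.e (nat_lit 98384) (nat_lit 32) (.e (nat_lit 475201) (nat_lit 40) (.e (nat_lit 704620) (nat_lit 9) .nil))))))) (.g (nat_lit 6) .nil .nil))) 
(.lf (nat_lit 45374) (.g (nat_lit 2347) (.e (nat_lit 1255) (nat_lit 92) (.e (nat_lit 98333) (nat_lit 18) (.e (nat_lit 164397) (nat_lit 256) (.e (nat_lit 57371) (nat_lit 2) (.e (nat_lit 90172) (nat_lit 14) .nil))))) .nil))))))) (.nd (nat_lit 1) (.nd (nat_lit 2) (.nd (nat_lit 3) (.nd (nat_lit 4) (.nd (nat_lit 5) 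
(.lf (nat_lit 45313) (.g (nat_lit 2927) (.e (nat_lit 1254) (nat_lit 92) (.e (nat_lit 98367) (nat_lit 27) (.e (nat_lit 434248) (nat_lit 28) (.e (nat_lit 573489) (nat_lit 14) (.e (nat_lit 73755) (nat_lit 8) (.e (nat_lit 557090) (nat_lit 12) (.e (nat_lit 164008) (nat_lit 41) (.e (nat_lit 663556) (nat_lit 0) .nil)))))))) (.g (nat_lit 4) .nil .nil))) 
(.lf (nat_lit 45345) (.g (nat_lit 3198) (.e (nat_lit 1255) (nat_lit 92) (.e (nat_lit 98317) (nat_lit 9) (.e (nat_lit 336088) (nat_lit 9) (.e (nat_lit 336019) (nat_lit 3) (.e (nat_lit 98384) (nat_lit 32) (.e (nat_lit 475201) (nat_lit 40) (.e (nat_lit 704620) (nat_lit 9) .nil))))))) (.g (nat_lit 6) .nil .nil)))) (.nd (nat_lit 5) 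
(.lf (nat_lit 45329) (.g (nat_lit 3671) (.e (nat_lit 1254) (nat_lit 92) (.e (nat_lit 98373) (nat_lit 29) (.e (nat_lit 450587) (nat_lit 10) (.e (nat_lit 573457) (nat_lit 9) .nil)))) .nil)) 
(.lf (nat_lit 45361) (.g (nat_lit 1829) (.e (nat_lit 1255) (nat_lit 92) (.e (nat_lit 98317) (nat_lit 9) (.e (nat_lit 336186) (nat_lit 11) (.e (nat_lit 368676) (nat_lit 21) (.e (nat_lit 516179) (nat_lit 15) (.e (nat_lit 475201) (nat_lit 40) (.e (nat_lit 704659) (nat_lit 9) .nil))))))) (.g (nat_lit 4) .nil .nil))))) (.nd (nat_lit 4) (.nd (nat_lit 5) 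
(.lf (nat_lit 45321) (.g (nat_lit 1707) (.e (nat_lit 1254) (nat_lit 92) (.e (nat_lit 98372) (nat_lit 29) (.e (nat_lit 450579) (nat_lit 5) (.e (nat_lit 532534) (nat_lit 9) .nil)))) .nil)) 
(.lf (nat_lit 45353) (.g (nat_lit 1626) (.e (nat_lit 1255) (nat_lit 92) (.e (nat_lit 98317) (nat_lit 9) (.e (nat_lit 336184) (nat_lit 11) (.e (nat_lit 368676) (nat_lit 21) (.e (nat_lit 516179) (nat_lit 15) (.e (nat_lit 475201) (nat_lit 40) (.e (nat_lit 704664) (nat_lit 9) .nil))))))) (.g (nat_lit 4) .nil .nil)))) (.nd (nat_lit 5) 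
(.lf (nat_lit 45337) (.g (nat_lit 1195) (.e (nat_lit 1254) (nat_lit 92) (.e (nat_lit 98384) (nat_lit 32) (.e (nat_lit 475177) (nat_lit 24) .nil))) .nil)) 
(.lf (nat_lit 45369) (.g (nat_lit 3255) (.e (nat_lit 1255) (nat_lit 92) (.e (nat_lit 98319) (nat_lit 17) (.e (nat_lit 7593) (nat_lit 407) (.e (nat_lit 73746) (nat_lit 3) (.e (nat_lit 516139) (nat_lit 7) (.e (nat_lit 409616) (nat_lit 10) (.e (nat_lit 5345) (nat_lit 298) .nil))))))) (.g (nat_lit 6) .nil .nil)))))) (.nd (nat_lit 3) (.nd (nat_lit 4) (.nd (nat_lit 5) 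
(.lf (nat_lit 45317) (.g (nat_lit 2198) (.e (nat_lit 1254) (nat_lit 92) (.e (nat_lit 98372) (nat_lit 29) (.e (nat_lit 450579) (nat_lit 5) (.e (nat_lit 532530) (nat_lit 9) (.e (nat_lit 336258) (nat_lit 15) .nil))))) .nil)) 
(.lf (nat_lit 45349) (.g (nat_lit 2866) (.e (nat_lit 1255) (nat_lit 92) (.e (nat_lit 98317) (nat_lit 9) (.e (nat_lit 336184) (nat_lit 11) (.e (nat_lit 368676) (nat_lit 21) (.e (nat_lit 516179) (nat_lit 15) (.e (nat_lit 475201) (nat_lit 40) (.e (nat_lit 704620) (nat_lit 9) .nil))))))) (.g (nat_lit 7) .nil .nil)))) (.nd (nat_lit 5) 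
(.lf (nat_lit 45333) (.g (nat_lit 4449) (.e (nat_lit 1254) (nat_lit 92) (.e (nat_lit 98373) (nat_lit 29) (.e (nat_lit 450588) (nat_lit 10) (.e (nat_lit 573470) (nat_lit 11) .nil)))) .nil)) 
(.lf (nat_lit 45365) (.g (nat_lit 1762) (.e (nat_lit 1255) (nat_lit 92) (.e (nat_lit 98317) (nat_lit 9) (.e (nat_lit 336186) (nat_lit 11) (.e (nat_lit 368676) (nat_lit 21) (.e (nat_lit 516179) (nat_lit 15) (.e (nat_lit 475201) (nat_lit 40) (.e (nat_lit 704670) (nat_lit 9) .nil))))))) (.g (nat_lit 4) .nil .nil))))) (.nd (nat_lit 4) (.nd (nat_lit 5) 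
(.lf (nat_lit 45325) (.g (nat_lit 3466) (.e (nat_lit 1254) (nat_lit 92) (.e (nat_lit 98373) (nat_lit 29) (.e (nat_lit 450563) (nat_lit 0) (.e (nat_lit 6595) (nat_lit 351) .nil)))) .nil)) 
(.lf (nat_lit 45357) (.g (nat_lit 1712) (.e (nat_lit 1255) (nat_lit 92) (.e (nat_lit 98317) (nat_lit 9) (.e (nat_lit 336186) (nat_lit 11) (.e (nat_lit 368676) (nat_lit 21) (.e (nat_lit 516179) (nat_lit 15) (.e (nat_lit 475201) (nat_lit 40) (.e (nat_lit 704654) (nat_lit 9) .nil))))))) (.g (nat_lit 4) .nil .nil)))) (.nd (nat_lit 5) 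
(.lf (nat_lit 45341) (.g (nat_lit 2686) (.e (nat_lit 1254) (nat_lit 92) (.e (nat_lit 98384) (nat_lit 32) (.e (nat_lit 475177) (nat_lit 24) (.e (nat_lit 516171) (nat_lit 13) (.e (nat_lit 458789) (nat_lit 23) .nil))))) .nil)) 
(.lf (nat_lit 45373) (.g (nat_lit 2875) (.e (nat_lit 1255) (nat_lit 92) (.e (nat_lit 98333) (nat_lit 18) (.e (nat_lit 164396) (nat_lit 256) (.e (nat_lit 57371) (nat_lit 2) (.e (nat_lit 90174) (nat_lit 14) (.e (nat_lit 180243) (nat_lit 5) (.e (nat_lit 532508) (nat_lit 2) (.e (nat_lit 106517) (nat_lit 9) .nil)))))))) (.g (nat_lit 5) .nil .nil))))))) 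
(.nd (nat_lit 2) (.nd (nat_lit 3) (.nd (nat_lit 4) (.nd (nat_lit 5) 
(.lf (nat_lit 45315) (.g (nat_lit 1685) (.e (nat_lit 1254) (nat_lit 92) (.e (nat_lit 98372) (nat_lit 29) (.e (nat_lit 450579) (nat_lit 5) (.e (nat_lit 532530) (nat_lit 9) .nil)))) .nil)) 
(.lf (nat_lit 45347) (.g (nat_lit 1722) (.e (nat_lit 1255) (nat_lit 92) (.e (nat_lit 98317) (nat_lit 9) (.e (nat_lit 336184) (nat_lit 11) (.e (nat_lit 368676) (nat_lit 21) (.e (nat_lit 516146) (nat_lit 9) (.e (nat_lit 426440) (nat_lit 19) (.e (nat_lit 106526) (nat_lit 9) .nil))))))) (.g (nat_lit 4) .nil .nil)))) (.nd (nat_lit 5) 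
(.lf (nat_lit 45331) (.g (nat_lit 3328) (.e (nat_lit 1254) (nat_lit 92) (.e (nat_lit 98373) (nat_lit 29) (.e (nat_lit 450588) (nat_lit 10) (.e (nat_lit 573450) (nat_lit 9) .nil)))) .nil)) 
(.lf (nat_lit 45363) (.g (nat_lit 1658) (.e (nat_lit 1255) (nat_lit 92) (.e (nat_lit 98317) (nat_lit 9) (.e (nat_lit 336186) (nat_lit 11) (.e (nat_lit 368676) (nat_lit 21) (.e (nat_lit 516179) (nat_lit 15) (.e (nat_lit 475201) (nat_lit 40) (.e (nat_lit 704663) (nat_lit 9) .nil))))))) (.g (nat_lit 4) .nil .nil))))) (.nd (nat_lit 4) (.nd (nat_lit 5) 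
(.lf (nat_lit 45323) (.g (nat_lit 1616) (.e (nat_lit 1254) (nat_lit 92) (.e (nat_lit 98372) (nat_lit 29) (.e (nat_lit 450579) (nat_lit 5) (.e (nat_lit 532566) (nat_lit 15) .nil)))) .nil)) 
(.lf (nat_lit 45355) (.g (nat_lit 1492) (.e (nat_lit 1255) (nat_lit 92) (.e (nat_lit 98317) (nat_lit 9) (.e (nat_lit 336186) (nat_lit 11) (.e (nat_lit 368676) (nat_lit 21) (.e (nat_lit 516179) (nat_lit 15) .nil))))) .nil))) (.nd (nat_lit 5) 
(.lf (nat_lit 45339) (.g (nat_lit 2525) (.e (nat_lit 1254) (nat_lit 92) (.e (nat_lit 98384) (nat_lit 32) (.e (nat_lit 475177) (nat_lit 24) (.e (nat_lit 516150) (nat_lit 9) (.e (nat_lit 426131) (nat_lit 3) (.e (nat_lit 204830) (nat_lit 18) (.e (nat_lit 57754) (nat_lit 209) (.e (nat_lit 1040) (nat_lit 81) .nil)))))))) (.g (nat_lit 4) .nil .nil))) 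
(.lf (nat_lit 45371) (.g (nat_lit 3090) (.e (nat_lit 1255) (nat_lit 92) (.e (nat_lit 98333) (nat_lit 18) (.e (nat_lit 164325) (nat_lit 230) (.e (nat_lit 163868) (nat_lit 2) (.e (nat_lit 196656) (nat_lit 11) (.e (nat_lit 16416) (nat_lit 3) (.e (nat_lit 204834) (nat_lit 19) (.e (nat_lit 106517) (nat_lit 9) .nil)))))))) (.g (nat_lit 4) .nil .nil)))))) 
(.nd (nat_lit 3) (.nd (nat_lit 4) (.nd (nat_lit 5) 
(.lf (nat_lit 45319) (.g (nat_lit 2752) (.e (nat_lit 1254) (nat_lit 92) (.e (nat_lit 98372) (nat_lit 29) (.e (nat_lit 450579) (nat_lit 5) (.e (nat_lit 532530) (nat_lit 9) (.e (nat_lit 336260) (nat_lit 15) .nil))))) .nil)) 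
(.lf (nat_lit 45351) (.g (nat_lit 1559) (.e (nat_lit 1255) (nat_lit 92) (.e (nat_lit 98317) (nat_lit 9) (.e (nat_lit 336184) (nat_lit 11) (.e (nat_lit 368676) (nat_lit 21) (.e (nat_lit 516179) (nat_lit 15) (.e (nat_lit 475201) (nat_lit 40) (.e (nat_lit 704656) (nat_lit 9) .nil))))))) (.g (nat_lit 4) .nil .nil)))) (.nd (nat_lit 5) 
(.lf (nat_lit 45335) (.g (nat_lit 4350) (.e (nat_lit 1254) (nat_lit 92) (.e (nat_lit 98373) (nat_lit 29) (.e (nat_lit 450588) (nat_lit 10) (.e (nat_lit 573473) (nat_lit 12) .nil)))) .nil)) 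
(.lf (nat_lit 45367) (.g (nat_lit 4248) (.e (nat_lit 1255) (nat_lit 92) (.e (nat_lit 98319) (nat_lit 17) (.e (nat_lit 7587) (nat_lit 406) (.e (nat_lit 65571) (nat_lit 3) (.e (nat_lit 98350) (nat_lit 24) (.e (nat_lit 409616) (nat_lit 10) (.e (nat_lit 5345) (nat_lit 298) .nil))))))) (.g (nat_lit 6) .nil .nil))))) (.nd (nat_lit 4) (.nd (nat_lit 5) 
(.lf (nat_lit 45327) (.g (nat_lit 3426) (.e (nat_lit 1254) (nat_lit 92) (.e (nat_lit 98373) (nat_lit 29) (.e (nat_lit 450587) (nat_lit 10) (.e (nat_lit 573454) (nat_lit 9) .nil)))) .nil)) 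
(.lf (nat_lit 45359) (.g (nat_lit 1735) (.e (nat_lit 1255) (nat_lit 92) (.e (nat_lit 98317) (nat_lit 9) (.e (nat_lit 336186) (nat_lit 11) (.e (nat_lit 368676) (nat_lit 21) (.e (nat_lit 516179) (nat_lit 15) (.e (nat_lit 475201) (nat_lit 40) (.e (nat_lit 704656) (nat_lit 9) .nil))))))) (.g (nat_lit 4) .nil .nil)))) (.nd (nat_lit 5) 
(.lf (nat_lit 45343) (.g (nat_lit 3182) (.e (nat_lit 1255) (nat_lit 92) (.e (nat_lit 98317) (nat_lit 9) (.e (nat_lit 336087) (nat_lit 9) (.e (nat_lit 336019) (nat_lit 3) (.e (nat_lit 98384) (nat_lit 32) (.e (nat_lit 475201) (nat_lit 40) (.e (nat_lit 704655) (nat_lit 9) .nil))))))) (.g (nat_lit 6) .nil .nil))) 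
(.lf (nat_lit 45375) (.g (nat_lit 2489) (.e (nat_lit 1255) (nat_lit 92) (.e (nat_lit 98333) (nat_lit 18) (.e (nat_lit 164397) (nat_lit 256) (.e (nat_lit 57375) (nat_lit 2) (.e (nat_lit 90174) (nat_lit 14) (.e (nat_lit 180243) (nat_lit 5) (.e (nat_lit 532508) (nat_lit 2) (.e (nat_lit 106517) (nat_lit 9) .nil)))))))) (.g (nat_lit 4) .nil .nil)))))))))

noncomputable def tv629 : DT := (.nd (nat_lit 0) (.nd (nat_lit 1) (.nd (nat_lit 2) (.nd (nat_lit 3) (.nd (nat_lit 4) (.nd (nat_lit 5) 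
(.lf (nat_lit 45376) (.g (nat_lit 2187) (.e (nat_lit 1255) (nat_lit 92) (.e (nat_lit 98333) (nat_lit 18) (.e (nat_lit 164398) (nat_lit 256) (.e (nat_lit 57373) (nat_lit 2) (.e (nat_lit 90170) (nat_lit 13) .nil))))) .nil)) 
(.lf (nat_lit 45408) (.g (nat_lit 3945) (.e (nat_lit 1255) (nat_lit 92) (.e (nat_lit 98333) (nat_lit 18) (.e (nat_lit 164403) (nat_lit 256) (.e (nat_lit 57373) (nat_lit 2) (.e (nat_lit 90170) (nat_lit 13) (.e (nat_lit 172065) (nat_lit 3) (.e (nat_lit 204834) (nat_lit 19) (.e (nat_lit 106517) (nat_lit 9) .nil)))))))) (.g (nat_lit 5) .nil .nil)))) (.nd (nat_lit 5) 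
(.lf (nat_lit 45392) (.g (nat_lit 3465) (.e (nat_lit 1255) (nat_lit 92) (.e (nat_lit 98333) (nat_lit 18) (.e (nat_lit 164399) (nat_lit 256) (.e (nat_lit 57373) (nat_lit 2) (.e (nat_lit 90170) (nat_lit 13) (.e (nat_lit 172065) (nat_lit 3) (.e (nat_lit 204834) (nat_lit 19) (.e (nat_lit 106517) (nat_lit 9) .nil)))))))) (.g (nat_lit 7) .nil .nil))) 
(.lf (nat_lit 45424) (.g (nat_lit 2787) (.e (nat_lit 1255) (nat_lit 92) (.e (nat_lit 98334) (nat_lit 18) (.e (nat_lit 164397) (nat_lit 256) (.e (nat_lit 57375) (nat_lit 2) (.e (nat_lit 90172) (nat_lit 14) (.e (nat_lit 180243) (nat_lit 5) (.e (nat_lit 532508) (nat_lit 2) (.e (nat_lit 106517) (nat_lit 9) .nil)))))))) (.g (nat_lit 5) .nil .nil))))) (.nd (nat_lit 4) (.nd (nat_lit 5) 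
(.lf (nat_lit 45384) (.g (nat_lit 2387) (.e (nat_lit 1255) (nat_lit 92) (.e (nat_lit 98333) (nat_lit 18) (.e (nat_lit 164398) (nat_lit 256) (.e (nat_lit 57378) (nat_lit 3) (.e (nat_lit 98367) (nat_lit 27) (.e (nat_lit 434231) (nat_lit 23) (.e (nat_lit 532507) (nat_lit 2) (.e (nat_lit 106517) (nat_lit 9) .nil)))))))) (.g (nat_lit 4) .nil .nil))) 
(.lf (nat_lit 45416) (.g (nat_lit 2448) (.e (nat_lit 1255) (nat_lit 92) (.e (nat_lit 98334) (nat_lit 18) (.e (nat_lit 164396) (nat_lit 256) (.e (nat_lit 57371) (nat_lit 2) (.e (nat_lit 90172) (nat_lit 14) (.e (nat_lit 180243) (nat_lit 5) (.e (nat_lit 532508) (nat_lit 2) (.e (nat_lit 106517) (nat_lit 9) .nil)))))))) (.g (nat_lit 4) .nil .nil)))) (.nd (nat_lit 5) 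
(.lf (nat_lit 45400) (.g (nat_lit 2309) (.e (nat_lit 1255) (nat_lit 92) (.e (nat_lit 98333) (nat_lit 18) (.e (nat_lit 164400) (nat_lit 256) (.e (nat_lit 57372) (nat_lit 2) (.e (nat_lit 90172) (nat_lit 14) (.e (nat_lit 180243) (nat_lit 5) (.e (nat_lit 532508) (nat_lit 2) (.e (nat_lit 106517) (nat_lit 9) .nil)))))))) (.g (nat_lit 4) .nil .nil))) 
(.lf (nat_lit 45432) (.g (nat_lit 2228) (.e (nat_lit 1255) (nat_lit 92) (.e (nat_lit 98334) (nat_lit 18) (.e (nat_lit 164398) (nat_lit 256) (.e (nat_lit 57373) (nat_lit 2) (.e (nat_lit 90172) (nat_lit 14) .nil))))) .nil))))) (.nd (nat_lit 3) (.nd (nat_lit 4) (.nd (nat_lit 5) 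
(.lf (nat_lit 45380) (.g (nat_lit 2210) (.e (nat_lit 1255) (nat_lit 92) (.e (nat_lit 98333) (nat_lit 18) (.e (nat_lit 164398) (nat_lit 256) (.e (nat_lit 57373) (nat_lit 2) (.e (nat_lit 90174) (nat_lit 14) (.e (nat_lit 180243) (nat_lit 5) (.e (nat_lit 532511) (nat_lit 2) (.e (nat_lit 106526) (nat_lit 9) .nil)))))))) (.g (nat_lit 4) .nil .nil))) 
(.lf (nat_lit 45412) (.g (nat_lit 5083) (.e (nat_lit 1255) (nat_lit 92) (.e (nat_lit 98333) (nat_lit 18) (.e (nat_lit 164403) (nat_lit 256) (.e (nat_lit 57373) (nat_lit 2) (.e (nat_lit 90174) (nat_lit 14) (.e (nat_lit 180243) (nat_lit 5) (.e (nat_lit 532508) (nat_lit 2) (.e (nat_lit 106517) (nat_lit 9) .nil)))))))) (.g (nat_lit 7) .nil .nil)))) (.nd (nat_lit 5) 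
(.lf (nat_lit 45396) (.g (nat_lit 2162) (.e (nat_lit 1255) (nat_lit 92) (.e (nat_lit 98333) (nat_lit 18) (.e (nat_lit 164399) (nat_lit 256) (.e (nat_lit 57375) (nat_lit 2) (.e (nat_lit 90172) (nat_lit 14) (.e (nat_lit 180244) (nat_lit 5) (.e (nat_lit 532508) (nat_lit 2) (.e (nat_lit 106526) (nat_lit 9) .nil)))))))) (.g (nat_lit 4) .nil .nil))) 
(.lf (nat_lit 45428) (.g (nat_lit 2692) (.e (nat_lit 1255) (nat_lit 92) (.e (nat_lit 98334) (nat_lit 18) (.e (nat_lit 164398) (nat_lit 256) (.e (nat_lit 57372) (nat_lit 2) (.e (nat_lit 90167) (nat_lit 13) .nil))))) .nil)))) (.nd (nat_lit 4) (.nd (nat_lit 5) 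
(.lf (nat_lit 45388) (.g (nat_lit 2131) (.e (nat_lit 1255) (nat_lit 92) (.e (nat_lit 98333) (nat_lit 18) (.e (nat_lit 164399) (nat_lit 256) (.e (nat_lit 57370) (nat_lit 2) (.e (nat_lit 90174) (nat_lit 14) (.e (nat_lit 180243) (nat_lit 5) (.e (nat_lit 532508) (nat_lit 2) (.e (nat_lit 106526) (nat_lit 9) .nil)))))))) (.g (nat_lit 4) .nil .nil))) 
(.lf (nat_lit 45420) (.g (nat_lit 2457) (.e (nat_lit 1255) (nat_lit 92) (.e (nat_lit 98334) (nat_lit 18) (.e (nat_lit 164396) (nat_lit 256) (.e (nat_lit 57375) (nat_lit 2) (.e (nat_lit 90174) (nat_lit 14) (.e (nat_lit 180243) (nat_lit 5) (.e (nat_lit 532508) (nat_lit 2) (.e (nat_lit 106517) (nat_lit 9) .nil)))))))) (.g (nat_lit 4) .nil .nil)))) (.nd (nat_lit 5) 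
(.lf (nat_lit 45404) (.g (nat_lit 2387) (.e (nat_lit 1255) (nat_lit 92) (.e (nat_lit 98333) (nat_lit 18) (.e (nat_lit 164402) (nat_lit 256) (.e (nat_lit 57373) (nat_lit 2) (.e (nat_lit 90174) (nat_lit 14) .nil))))) .nil)) 
(.lf (nat_lit 45436) (.g (nat_lit 3410) (.e (nat_lit 1255) (nat_lit 92) (.e (nat_lit 98334) (nat_lit 18) (.e (nat_lit 164398) (nat_lit 256) (.e (nat_lit 57375) (nat_lit 2) (.e (nat_lit 90172) (nat_lit 14) (.e (nat_lit 180244) (nat_lit 5) (.e (nat_lit 532508) (nat_lit 2) (.e (nat_lit 106517) (nat_lit 9) .nil)))))))) (.g (nat_lit 5) .nil .nil))))))) 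
(.nd (nat_lit 2) (.nd (nat_lit 3) (.nd (nat_lit 4) (.nd (nat_lit 5) 
(.lf (nat_lit 45378) (.g (nat_lit 3111) (.e (nat_lit 1255) (nat_lit 92) (.e (nat_lit 98333) (nat_lit 18) (.e (nat_lit 164398) (nat_lit 256) (.e (nat_lit 57373) (nat_lit 2) (.e (nat_lit 90174) (nat_lit 14) (.e (nat_lit 180243) (nat_lit 5) (.e (nat_lit 532508) (nat_lit 2) (.e (nat_lit 106526) (nat_lit 9) .nil)))))))) (.g (nat_lit 5) .nil .nil))) 
(.lf (nat_lit 45410) (.g (nat_lit 4235) (.e (nat_lit 1255) (nat_lit 92) (.e (nat_lit 98333) (nat_lit 18) (.e (nat_lit 164403) (nat_lit 256) (.e (nat_lit 57373) (nat_lit 2) (.e (nat_lit 90172) (nat_lit 14) (.e (nat_lit 180244) (nat_lit 5) (.e (nat_lit 532508) (nat_lit 2) (.e (nat_lit 106517) (nat_lit 9) .nil)))))))) (.g (nat_lit 5) .nil .nil)))) (.nd (nat_lit 5) 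
(.lf (nat_lit 45394) (.g (nat_lit 4427) (.e (nat_lit 1255) (nat_lit 92) (.e (nat_lit 98333) (nat_lit 18) (.e (nat_lit 164399) (nat_lit 256) (.e (nat_lit 57373) (nat_lit 2) (.e (nat_lit 90174) (nat_lit 14) (.e (nat_lit 180243) (nat_lit 5) (.e (nat_lit 532508) (nat_lit 2) (.e (nat_lit 106517) (nat_lit 9) .nil)))))))) (.g (nat_lit 0) .nil .nil))) 
(.lf (nat_lit 45426) (.g (nat_lit 3570) (.e (nat_lit 1255) (nat_lit 92) (.e (nat_lit 98334) (nat_lit 18) (.e (nat_lit 164397) (nat_lit 256) (.e (nat_lit 57379) (nat_lit 3) (.e (nat_lit 98366) (nat_lit 27) (.e (nat_lit 434231) (nat_lit 23) (.e (nat_lit 532507) (nat_lit 2) (.e (nat_lit 106517) (nat_lit 9) .nil)))))))) (.g (nat_lit 6) .nil .nil))))) (.nd (nat_lit 4) (.nd (nat_lit 5) 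
(.lf (nat_lit 45386) (.g (nat_lit 1921) (.e (nat_lit 1255) (nat_lit 92) (.e (nat_lit 98333) (nat_lit 18) (.e (nat_lit 164399) (nat_lit 256) (.e (nat_lit 57370) (nat_lit 2) (.e (nat_lit 90172) (nat_lit 14) (.e (nat_lit 180243) (nat_lit 5) (.e (nat_lit 532508) (nat_lit 2) (.e (nat_lit 106517) (nat_lit 9) .nil)))))))) (.g (nat_lit 4) .nil .nil))) 
(.lf (nat_lit 45418) (.g (nat_lit 4124) (.e (nat_lit 1255) (nat_lit 92) (.e (nat_lit 98334) (nat_lit 18) (.e (nat_lit 164396) (nat_lit 256) (.e (nat_lit 57371) (nat_lit 2) (.e (nat_lit 90174) (nat_lit 14) (.e (nat_lit 180243) (nat_lit 5) (.e (nat_lit 532508) (nat_lit 2) (.e (nat_lit 106517) (nat_lit 9) .nil)))))))) (.g (nat_lit 7) .nil .nil)))) (.nd (nat_lit 5) 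
(.lf (nat_lit 45402) (.g (nat_lit 2592) (.e (nat_lit 1255) (nat_lit 92) (.e (nat_lit 98333) (nat_lit 18) (.e (nat_lit 164402) (nat_lit 256) (.e (nat_lit 57371) (nat_lit 2) (.e (nat_lit 90172) (nat_lit 14) .nil))))) .nil)) 
(.lf (nat_lit 45434) (.g (nat_lit 4495) (.e (nat_lit 1255) (nat_lit 92) (.e (nat_lit 98334) (nat_lit 18) (.e (nat_lit 164398) (nat_lit 256) (.e (nat_lit 57373) (nat_lit 2) (.e (nat_lit 90174) (nat_lit 14) (.e (nat_lit 180243) (nat_lit 5) (.e (nat_lit 532508) (nat_lit 2) (.e (nat_lit 106517) (nat_lit 9) .nil)))))))) (.g (nat_lit 0) .nil .nil)))))) (.nd (nat_lit 3) (.nd (nat_lit 4) (.nd (nat_lit 5) 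
(.lf (nat_lit 45382) (.g (nat_lit 2799) (.e (nat_lit 1255) (nat_lit 92) (.e (nat_lit 98333) (nat_lit 18) (.e (nat_lit 164398) (nat_lit 256) (.e (nat_lit 57375) (nat_lit 2) (.e (nat_lit 90174) (nat_lit 14) (.e (nat_lit 180243) (nat_lit 5) (.e (nat_lit 532508) (nat_lit 2) (.e (nat_lit 106517) (nat_lit 9) .nil)))))))) (.g (nat_lit 5) .nil .nil))) 
(.lf (nat_lit 45414) (.g (nat_lit 3007) (.e (nat_lit 1255) (nat_lit 92) (.e (nat_lit 98333) (nat_lit 18) (.e (nat_lit 164403) (nat_lit 256) (.e (nat_lit 57373) (nat_lit 2) (.e (nat_lit 90174) (nat_lit 14) (.e (nat_lit 180243) (nat_lit 5) (.e (nat_lit 532511) (nat_lit 2) (.e (nat_lit 106517) (nat_lit 9) .nil)))))))) (.g (nat_lit 4) .nil .nil)))) (.nd (nat_lit 5) 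
(.lf (nat_lit 45398) (.g (nat_lit 2289) (.e (nat_lit 1255) (nat_lit 92) (.e (nat_lit 98333) (nat_lit 18) (.e (nat_lit 164399) (nat_lit 256) (.e (nat_lit 57375) (nat_lit 2) (.e (nat_lit 90174) (nat_lit 14) (.e (nat_lit 180243) (nat_lit 5) (.e (nat_lit 532508) (nat_lit 2) (.e (nat_lit 106526) (nat_lit 9) .nil)))))))) (.g (nat_lit 4) .nil .nil))) 
(.lf (nat_lit 45430) (.g (nat_lit 2731) (.e (nat_lit 1255) (nat_lit 92) (.e (nat_lit 98334) (nat_lit 18) (.e (nat_lit 164398) (nat_lit 256) (.e (nat_lit 57372) (nat_lit 2) (.e (nat_lit 90174) (nat_lit 14) (.e (nat_lit 180243) (nat_lit 5) (.e (nat_lit 532508) (nat_lit 2) (.e (nat_lit 106526) (nat_lit 9) .nil)))))))) (.g (nat_lit 4) .nil .nil))))) (.nd (nat_lit 4) (.nd (nat_lit 5) 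
(.lf (nat_lit 45390) (.g (nat_lit 2418) (.e (nat_lit 1255) (nat_lit 92) (.e (nat_lit 98333) (nat_lit 18) (.e (nat_lit 164399) (nat_lit 256) (.e (nat_lit 57372) (nat_lit 2) (.e (nat_lit 90172) (nat_lit 14) (.e (nat_lit 180244) (nat_lit 5) (.e (nat_lit 532508) (nat_lit 2) (.e (nat_lit 106526) (nat_lit 9) .nil)))))))) (.g (nat_lit 4) .nil .nil))) 
(.lf (nat_lit 45422) (.g (nat_lit 2356) (.e (nat_lit 1255) (nat_lit 92) (.e (nat_lit 98334) (nat_lit 18) (.e (nat_lit 164397) (nat_lit 256) (.e (nat_lit 57371) (nat_lit 2) (.e (nat_lit 90174) (nat_lit 14) (.e (nat_lit 180243) (nat_lit 5) (.e (nat_lit 532508) (nat_lit 2) (.e (nat_lit 106526) (nat_lit 9) .nil)))))))) (.g (nat_lit 4) .nil .nil)))) (.nd (nat_lit 5) 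
(.lf (nat_lit 45406) (.g (nat_lit 3223) (.e (nat_lit 1255) (nat_lit 92) (.e (nat_lit 98333) (nat_lit 18) (.e (nat_lit 164403) (nat_lit 256) (.e (nat_lit 57371) (nat_lit 2) (.e (nat_lit 90174) (nat_lit 14) (.e (nat_lit 180243) (nat_lit 5) (.e (nat_lit 532508) (nat_lit 2) (.e (nat_lit 106526) (nat_lit 9) .nil)))))))) (.g (nat_lit 4) .nil .nil))) 
(.lf (nat_lit 45438) (.g (nat_lit 3621) (.e (nat_lit 1255) (nat_lit 92) (.e (nat_lit 98334) (nat_lit 18) (.e (nat_lit 164398) (nat_lit 256) (.e (nat_lit 57375) (nat_lit 2) (.e (nat_lit 90174) (nat_lit 14) (.e (nat_lit 180243) (nat_lit 5) (.e (nat_lit 532508) (nat_lit 2) (.e (nat_lit 106517) (nat_lit 9) .nil)))))))) (.g (nat_lit 6) .nil .nil)))))))) 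
(.nd (nat_lit 1) (.nd (nat_lit 2) (.nd (nat_lit 3) (.nd (nat_lit 4) (.nd (nat_lit 5) 
(.lf (nat_lit 45377) (.g (nat_lit 4136) (.e (nat_lit 1255) (nat_lit 92) (.e (nat_lit 98333) (nat_lit 18) (.e (nat_lit 164398) (nat_lit 256) (.e (nat_lit 57373) (nat_lit 2) (.e (nat_lit 90174) (nat_lit 14) (.e (nat_lit 180243) (nat_lit 5) (.e (nat_lit 532508) (nat_lit 2) (.e (nat_lit 106517) (nat_lit 9) .nil)))))))) (.g (nat_lit 7) .nil .nil))) 
(.lf (nat_lit 45409) (.g (nat_lit 3927) (.e (nat_lit 1255) (nat_lit 92) (.e (nat_lit 98333) (nat_lit 18) (.e (nat_lit 164403) (nat_lit 256) (.e (nat_lit 57373) (nat_lit 2) (.e (nat_lit 90170) (nat_lit 13) (.e (nat_lit 172067) (nat_lit 3) (.e (nat_lit 204834) (nat_lit 19) (.e (nat_lit 106517) (nat_lit 9) .nil)))))))) (.g (nat_lit 5) .nil .nil)))) (.nd (nat_lit 5) 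
(.lf (nat_lit 45393) (.g (nat_lit 2363) (.e (nat_lit 1255) (nat_lit 92) (.e (nat_lit 98333) (nat_lit 18) (.e (nat_lit 164399) (nat_lit 256) (.e (nat_lit 57373) (nat_lit 2) (.e (nat_lit 90172) (nat_lit 14) (.e (nat_lit 180244) (nat_lit 5) (.e (nat_lit 532508) (nat_lit 2) (.e (nat_lit 106526) (nat_lit 9) .nil)))))))) (.g (nat_lit 4) .nil .nil))) 
(.lf (nat_lit 45425) (.g (nat_lit 3229) (.e (nat_lit 1255) (nat_lit 92) (.e (nat_lit 98334) (nat_lit 18) (.e (nat_lit 164397) (nat_lit 256) (.e (nat_lit 57375) (nat_lit 2) (.e (nat_lit 90174) (nat_lit 14) (.e (nat_lit 180243) (nat_lit 5) (.e (nat_lit 532508) (nat_lit 2) (.e (nat_lit 106517) (nat_lit 9) .nil)))))))) (.g (nat_lit 5) .nil .nil))))) (.nd (nat_lit 4) (.nd (nat_lit 5) 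
(.lf (nat_lit 45385) (.g (nat_lit 2686) (.e (nat_lit 1255) (nat_lit 92) (.e (nat_lit 98333) (nat_lit 18) (.e (nat_lit 164398) (nat_lit 256) (.e (nat_lit 57379) (nat_lit 3) (.e (nat_lit 98367) (nat_lit 27) (.e (nat_lit 434231) (nat_lit 23) (.e (nat_lit 532507) (nat_lit 2) (.e (nat_lit 106517) (nat_lit 9) .nil)))))))) (.g (nat_lit 4) .nil .nil))) 
(.lf (nat_lit 45417) (.g (nat_lit 2938) (.e (nat_lit 1255) (nat_lit 92) (.e (nat_lit 98334) (nat_lit 18) (.e (nat_lit 164396) (nat_lit 256) (.e (nat_lit 57371) (nat_lit 2) (.e (nat_lit 90172) (nat_lit 14) (.e (nat_lit 180244) (nat_lit 5) (.e (nat_lit 532508) (nat_lit 2) (.e (nat_lit 106517) (nat_lit 9) .nil)))))))) (.g (nat_lit 5) .nil .nil)))) (.nd (nat_lit 5) 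
(.lf (nat_lit 45401) (.g (nat_lit 2106) (.e (nat_lit 1255) (nat_lit 92) (.e (nat_lit 98333) (nat_lit 18) (.e (nat_lit 164400) (nat_lit 256) (.e (nat_lit 57375) (nat_lit 2) (.e (nat_lit 90172) (nat_lit 14) (.e (nat_lit 180243) (nat_lit 5) (.e (nat_lit 532508) (nat_lit 2) (.e (nat_lit 106517) (nat_lit 9) .nil)))))))) (.g (nat_lit 4) .nil .nil))) 
(.lf (nat_lit 45433) (.g (nat_lit 3278) (.e (nat_lit 1255) (nat_lit 92) (.e (nat_lit 98334) (nat_lit 18) (.e (nat_lit 164398) (nat_lit 256) (.e (nat_lit 57373) (nat_lit 2) (.e (nat_lit 90172) (nat_lit 14) (.e (nat_lit 180244) (nat_lit 5) (.e (nat_lit 532508) (nat_lit 2) (.e (nat_lit 106517) (nat_lit 9) .nil)))))))) (.g (nat_lit 5) .nil .nil)))))) (.nd (nat_lit 3) (.nd (nat_lit 4) (.nd (nat_lit 5) 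
(.lf (nat_lit 45381) (.g (nat_lit 2588) (.e (nat_lit 1255) (nat_lit 92) (.e (nat_lit 98333) (nat_lit 18) (.e (nat_lit 164398) (nat_lit 256) (.e (nat_lit 57375) (nat_lit 2) (.e (nat_lit 90172) (nat_lit 14) (.e (nat_lit 180244) (nat_lit 5) (.e (nat_lit 532508) (nat_lit 2) (.e (nat_lit 106517) (nat_lit 9) .nil)))))))) (.g (nat_lit 4) .nil .nil))) 
(.lf (nat_lit 45413) (.g (nat_lit 4044) (.e (nat_lit 1255) (nat_lit 92) (.e (nat_lit 98333) (nat_lit 18) (.e (nat_lit 164403) (nat_lit 256) (.e (nat_lit 57373) (nat_lit 2) (.e (nat_lit 90174) (nat_lit 14) (.e (nat_lit 180243) (nat_lit 5) (.e (nat_lit 532508) (nat_lit 2) (.e (nat_lit 106526) (nat_lit 9) .nil)))))))) (.g (nat_lit 5) .nil .nil)))) (.nd (nat_lit 5) 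
(.lf (nat_lit 45397) (.g (nat_lit 3259) (.e (nat_lit 1255) (nat_lit 92) (.e (nat_lit 98333) (nat_lit 18) (.e (nat_lit 164399) (nat_lit 256) (.e (nat_lit 57375) (nat_lit 2) (.e (nat_lit 90174) (nat_lit 14) (.e (nat_lit 180243) (nat_lit 5) (.e (nat_lit 532508) (nat_lit 2) (.e (nat_lit 106517) (nat_lit 9) .nil)))))))) (.g (nat_lit 6) .nil .nil))) 
(.lf (nat_lit 45429) (.g (nat_lit 3659) (.e (nat_lit 1255) (nat_lit 92) (.e (nat_lit 98334) (nat_lit 18) (.e (nat_lit 164398) (nat_lit 256) (.e (nat_lit 57372) (nat_lit 2) (.e (nat_lit 90172) (nat_lit 14) (.e (nat_lit 180244) (nat_lit 5) (.e (nat_lit 532508) (nat_lit 2) (.e (nat_lit 106517) (nat_lit 9) .nil)))))))) (.g (nat_lit 5) .nil .nil))))) (.nd (nat_lit 4) (.nd (nat_lit 5) 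
(.lf (nat_lit 45389) (.g (nat_lit 3588) (.e (nat_lit 1255) (nat_lit 92) (.e (nat_lit 98333) (nat_lit 18) (.e (nat_lit 164399) (nat_lit 256) (.e (nat_lit 57372) (nat_lit 2) (.e (nat_lit 90172) (nat_lit 14) (.e (nat_lit 180243) (nat_lit 5) (.e (nat_lit 532508) (nat_lit 2) (.e (nat_lit 106517) (nat_lit 9) .nil)))))))) (.g (nat_lit 6) .nil .nil))) 
(.lf (nat_lit 45421) (.g (nat_lit 2268) (.e (nat_lit 1255) (nat_lit 92) (.e (nat_lit 98334) (nat_lit 18) (.e (nat_lit 164397) (nat_lit 256) (.e (nat_lit 57371) (nat_lit 2) (.e (nat_lit 90172) (nat_lit 14) (.e (nat_lit 180243) (nat_lit 5) (.e (nat_lit 532508) (nat_lit 2) (.e (nat_lit 106517) (nat_lit 9) .nil)))))))) (.g (nat_lit 4) .nil .nil)))) (.nd (nat_lit 5) 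
(.lf (nat_lit 45405) (.g (nat_lit 2582) (.e (nat_lit 1255) (nat_lit 92) (.e (nat_lit 98333) (nat_lit 18) (.e (nat_lit 164403) (nat_lit 256) (.e (nat_lit 57371) (nat_lit 2) (.e (nat_lit 90167) (nat_lit 13) .nil))))) .nil)) 
(.lf (nat_lit 45437) (.g (nat_lit 2103) (.e (nat_lit 1255) (nat_lit 92) (.e (nat_lit 98334) (nat_lit 18) (.e (nat_lit 164398) (nat_lit 256) (.e (nat_lit 57375) (nat_lit 2) (.e (nat_lit 90174) (nat_lit 14) .nil))))) .nil)))))) (.nd (nat_lit 2) (.nd (nat_lit 3) (.nd (nat_lit 4) (.nd (nat_lit 5) 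
(.lf (nat_lit 45379) (.g (nat_lit 2060) (.e (nat_lit 1255) (nat_lit 92) (.e (nat_lit 98333) (nat_lit 18) (.e (nat_lit 164398) (nat_lit 256) (.e (nat_lit 57373) (nat_lit 2) (.e (nat_lit 90174) (nat_lit 14) (.e (nat_lit 180243) (nat_lit 5) (.e (nat_lit 532511) (nat_lit 2) (.e (nat_lit 106517) (nat_lit 9) .nil)))))))) (.g (nat_lit 4) .nil .nil))) 
(.lf (nat_lit 45411) (.g (nat_lit 3068) (.e (nat_lit 1255) (nat_lit 92) (.e (nat_lit 98333) (nat_lit 18) (.e (nat_lit 164403) (nat_lit 256) (.e (nat_lit 57373) (nat_lit 2) (.e (nat_lit 90172) (nat_lit 14) (.e (nat_lit 180244) (nat_lit 5) (.e (nat_lit 532508) (nat_lit 2) (.e (nat_lit 106526) (nat_lit 9) .nil)))))))) (.g (nat_lit 4) .nil .nil)))) (.nd (nat_lit 5) 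
(.lf (nat_lit 45395) (.g (nat_lit 3810) (.e (nat_lit 1255) (nat_lit 92) (.e (nat_lit 98333) (nat_lit 18) (.e (nat_lit 164399) (nat_lit 256) (.e (nat_lit 57374) (nat_lit 2) (.e (nat_lit 90170) (nat_lit 13) (.e (nat_lit 172065) (nat_lit 3) (.e (nat_lit 204834) (nat_lit 19) (.e (nat_lit 106517) (nat_lit 9) .nil)))))))) (.g (nat_lit 5) .nil .nil))) 
(.lf (nat_lit 45427) (.g (nat_lit 2681) (.e (nat_lit 1255) (nat_lit 92) (.e (nat_lit 98334) (nat_lit 18) (.e (nat_lit 164398) (nat_lit 256) (.e (nat_lit 57371) (nat_lit 2) (.e (nat_lit 90172) (nat_lit 14) .nil))))) .nil)))) (.nd (nat_lit 4) (.nd (nat_lit 5) 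
(.lf (nat_lit 45387) (.g (nat_lit 2730) (.e (nat_lit 1255) (nat_lit 92) (.e (nat_lit 98333) (nat_lit 18) (.e (nat_lit 164399) (nat_lit 256) (.e (nat_lit 57370) (nat_lit 2) (.e (nat_lit 90172) (nat_lit 14) (.e (nat_lit 180244) (nat_lit 5) (.e (nat_lit 532508) (nat_lit 2) (.e (nat_lit 106517) (nat_lit 9) .nil)))))))) (.g (nat_lit 5) .nil .nil))) 
(.lf (nat_lit 45419) (.g (nat_lit 2928) (.e (nat_lit 1255) (nat_lit 92) (.e (nat_lit 98334) (nat_lit 18) (.e (nat_lit 164396) (nat_lit 256) (.e (nat_lit 57371) (nat_lit 2) (.e (nat_lit 90174) (nat_lit 14) (.e (nat_lit 180243) (nat_lit 5) (.e (nat_lit 532508) (nat_lit 2) (.e (nat_lit 106526) (nat_lit 9) .nil)))))))) (.g (nat_lit 5) .nil .nil)))) (.nd (nat_lit 5) 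
(.lf (nat_lit 45403) (.g (nat_lit 2645) (.e (nat_lit 1255) (nat_lit 92) (.e (nat_lit 98333) (nat_lit 18) (.e (nat_lit 164402) (nat_lit 256) (.e (nat_lit 57371) (nat_lit 2) (.e (nat_lit 90174) (nat_lit 14) (.e (nat_lit 180243) (nat_lit 5) (.e (nat_lit 532508) (nat_lit 2) (.e (nat_lit 106517) (nat_lit 9) .nil)))))))) (.g (nat_lit 4) .nil .nil))) 
(.lf (nat_lit 45435) (.g (nat_lit 3108) (.e (nat_lit 1255) (nat_lit 92) (.e (nat_lit 98334) (nat_lit 18) (.e (nat_lit 164398) (nat_lit 256) (.e (nat_lit 57374) (nat_lit 2) (.e (nat_lit 90170) (nat_lit 13) (.e (nat_lit 172067) (nat_lit 3) (.e (nat_lit 204834) (nat_lit 19) (.e (nat_lit 106517) (nat_lit 9) .nil)))))))) (.g (nat_lit 4) .nil .nil)))))) 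
(.nd (nat_lit 3) (.nd (nat_lit 4) (.nd (nat_lit 5) 
(.lf (nat_lit 45383) (.g (nat_lit 2742) (.e (nat_lit 1255) (nat_lit 92) (.e (nat_lit 98333) (nat_lit 18) (.e (nat_lit 164398) (nat_lit 256) (.e (nat_lit 57378) (nat_lit 3) (.e (nat_lit 98366) (nat_lit 27) (.e (nat_lit 434231) (nat_lit 23) (.e (nat_lit 532507) (nat_lit 2) (.e (nat_lit 106517) (nat_lit 9) .nil)))))))) (.g (nat_lit 4) .nil .nil))) 
(.lf (nat_lit 45415) (.g (nat_lit 3143) (.e (nat_lit 1255) (nat_lit 92) (.e (nat_lit 98333) (nat_lit 18) (.e (nat_lit 164403) (nat_lit 256) (.e (nat_lit 57373) (nat_lit 2) (.e (nat_lit 90174) (nat_lit 14) (.e (nat_lit 180243) (nat_lit 5) (.e (nat_lit 532511) (nat_lit 2) (.e (nat_lit 106526) (nat_lit 9) .nil)))))))) (.g (nat_lit 4) .nil .nil)))) (.nd (nat_lit 5) 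
(.lf (nat_lit 45399) (.g (nat_lit 3426) (.e (nat_lit 1255) (nat_lit 92) (.e (nat_lit 98333) (nat_lit 18) (.e (nat_lit 164399) (nat_lit 256) (.e (nat_lit 57379) (nat_lit 3) (.e (nat_lit 98366) (nat_lit 27) (.e (nat_lit 434231) (nat_lit 23) (.e (nat_lit 532507) (nat_lit 2) (.e (nat_lit 106517) (nat_lit 9) .nil)))))))) (.g (nat_lit 6) .nil .nil))) 
(.lf (nat_lit 45431) (.g (nat_lit 2467) (.e (nat_lit 1255) (nat_lit 92) (.e (nat_lit 98334) (nat_lit 18) (.e (nat_lit 164398) (nat_lit 256) (.e (nat_lit 57373) (nat_lit 2) (.e (nat_lit 90170) (nat_lit 13) (.e (nat_lit 172065) (nat_lit 3) (.e (nat_lit 204834) (nat_lit 19) (.e (nat_lit 106517) (nat_lit 9) .nil)))))))) (.g (nat_lit 4) .nil .nil))))) (.nd (nat_lit 4) (.nd (nat_lit 5) 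
(.lf (nat_lit 45391) (.g (nat_lit 2779) (.e (nat_lit 1255) (nat_lit 92) (.e (nat_lit 98333) (nat_lit 18) (.e (nat_lit 164399) (nat_lit 256) (.e (nat_lit 57372) (nat_lit 2) (.e (nat_lit 90174) (nat_lit 14) (.e (nat_lit 180243) (nat_lit 5) (.e (nat_lit 532508) (nat_lit 2) (.e (nat_lit 106526) (nat_lit 9) .nil)))))))) (.g (nat_lit 5) .nil .nil))) 
(.lf (nat_lit 45423) (.g (nat_lit 2748) (.e (nat_lit 1255) (nat_lit 92) (.e (nat_lit 98334) (nat_lit 18) (.e (nat_lit 164397) (nat_lit 256) (.e (nat_lit 57372) (nat_lit 2) (.e (nat_lit 90172) (nat_lit 14) (.e (nat_lit 180244) (nat_lit 5) (.e (nat_lit 532508) (nat_lit 2) (.e (nat_lit 106517) (nat_lit 9) .nil)))))))) (.g (nat_lit 4) .nil .nil)))) (.nd (nat_lit 5) 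
(.lf (nat_lit 45407) (.g (nat_lit 3344) (.e (nat_lit 1255) (nat_lit 92) (.e (nat_lit 98333) (nat_lit 18) (.e (nat_lit 164403) (nat_lit 256) (.e (nat_lit 57373) (nat_lit 2) (.e (nat_lit 90167) (nat_lit 13) .nil))))) .nil)) 
(.lf (nat_lit 45439) (.g (nat_lit 2607) (.e (nat_lit 1255) (nat_lit 92) (.e (nat_lit 98334) (nat_lit 18) (.e (nat_lit 164398) (nat_lit 256) (.e (nat_lit 57375) (nat_lit 2) (.e (nat_lit 90174) (nat_lit 14) (.e (nat_lit 180243) (nat_lit 5) (.e (nat_lit 532508) (nat_lit 2) (.e (nat_lit 106526) (nat_lit 9) .nil)))))))) (.g (nat_lit 4) .nil .nil)))))))))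

noncomputable def tv630 : DT := (.nd (nat_lit 0) (.nd (nat_lit 1) (.nd (nat_lit 2) (.nd (nat_lit 3) (.nd (nat_lit 4) (.nd (nat_lit 5) 
(.lf (nat_lit 45440) (.g (nat_lit 3228) (.e (nat_lit 1255) (nat_lit 92) (.e (nat_lit 98334) (nat_lit 18) (.e (nat_lit 164398) (nat_lit 256) (.e (nat_lit 57378) (nat_lit 3) (.e (nat_lit 98366) (nat_lit 27) (.e (nat_lit 434231) (nat_lit 23) (.e (nat_lit 532507) (nat_lit 2) (.e (nat_lit 106517) (nat_lit 9) .nil)))))))) (.g (nat_lit 5) .nil .nil))) 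
(.lf (nat_lit 45472) (.g (nat_lit 2246) (.e (nat_lit 1255) (nat_lit 92) (.e (nat_lit 98334) (nat_lit 18) (.e (nat_lit 164401) (nat_lit 256) (.e (nat_lit 57373) (nat_lit 2) (.e (nat_lit 90172) (nat_lit 14) (.e (nat_lit 180243) (nat_lit 5) (.e (nat_lit 532508) (nat_lit 2) (.e (nat_lit 106517) (nat_lit 9) .nil)))))))) (.g (nat_lit 4) .nil .nil)))) (.nd (nat_lit 5) 
(.lf (nat_lit 45456) (.g (nat_lit 2430) (.e (nat_lit 1255) (nat_lit 92) (.e (nat_lit 98334) (nat_lit 18) (.e (nat_lit 164399) (nat_lit 256) (.e (nat_lit 57373) (nat_lit 2) (.e (nat_lit 90172) (nat_lit 14) .nil))))) .nil)) 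
(.lf (nat_lit 45488) (.g (nat_lit 3859) (.e (nat_lit 1255) (nat_lit 92) (.e (nat_lit 98335) (nat_lit 18) (.e (nat_lit 164403) (nat_lit 256) (.e (nat_lit 57371) (nat_lit 2) (.e (nat_lit 90172) (nat_lit 14) (.e (nat_lit 180243) (nat_lit 5) (.e (nat_lit 532508) (nat_lit 2) (.e (nat_lit 106517) (nat_lit 9) .nil)))))))) (.g (nat_lit 6) .nil .nil))))) (.nd (nat_lit 4) (.nd (nat_lit 5) 
(.lf (nat_lit 45448) (.g (nat_lit 2439) (.e (nat_lit 1255) (nat_lit 92) (.e (nat_lit 98334) (nat_lit 18) (.e (nat_lit 164399) (nat_lit 256) (.e (nat_lit 57372) (nat_lit 2) (.e (nat_lit 90167) (nat_lit 13) (.e (nat_lit 172065) (nat_lit 3) (.e (nat_lit 204834) (nat_lit 19) (.e (nat_lit 106517) (nat_lit 9) .nil)))))))) (.g (nat_lit 4) .nil .nil))) 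
(.lf (nat_lit 45480) (.g (nat_lit 2837) (.e (nat_lit 1255) (nat_lit 92) (.e (nat_lit 98334) (nat_lit 18) (.e (nat_lit 164403) (nat_lit 256) (.e (nat_lit 57373) (nat_lit 2) (.e (nat_lit 90174) (nat_lit 14) (.e (nat_lit 180243) (nat_lit 5) (.e (nat_lit 532508) (nat_lit 2) (.e (nat_lit 106526) (nat_lit 9) .nil)))))))) (.g (nat_lit 4) .nil .nil)))) (.nd (nat_lit 5) 
(.lf (nat_lit 45464) (.g (nat_lit 3572) (.e (nat_lit 1255) (nat_lit 92) (.e (nat_lit 98334) (nat_lit 18) (.e (nat_lit 164399) (nat_lit 256) (.e (nat_lit 57378) (nat_lit 3) (.e (nat_lit 98366) (nat_lit 27) (.e (nat_lit 434231) (nat_lit 23) (.e (nat_lit 532507) (nat_lit 2) (.e (nat_lit 106517) (nat_lit 9) .nil)))))))) (.g (nat_lit 5) .nil .nil))) 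
(.lf (nat_lit 45496) (.g (nat_lit 2786) (.e (nat_lit 1255) (nat_lit 92) (.e (nat_lit 98335) (nat_lit 18) (.e (nat_lit 164403) (nat_lit 256) (.e (nat_lit 57373) (nat_lit 2) (.e (nat_lit 90174) (nat_lit 14) (.e (nat_lit 180243) (nat_lit 5) (.e (nat_lit 532511) (nat_lit 2) (.e (nat_lit 106526) (nat_lit 9) .nil)))))))) (.g (nat_lit 4) .nil .nil)))))) (.nd (nat_lit 3) (.nd (nat_lit 4) (.nd (nat_lit 5) 
(.lf (nat_lit 45444) (.g (nat_lit 3425) (.e (nat_lit 1255) (nat_lit 92) (.e (nat_lit 98334) (nat_lit 18) (.e (nat_lit 164398) (nat_lit 256) (.e (nat_lit 57379) (nat_lit 3) (.e (nat_lit 98367) (nat_lit 27) (.e (nat_lit 434231) (nat_lit 23) (.e (nat_lit 532507) (nat_lit 2) (.e (nat_lit 106517) (nat_lit 9) .nil)))))))) (.g (nat_lit 5) .nil .nil))) 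
(.lf (nat_lit 45476) (.g (nat_lit 2514) (.e (nat_lit 1255) (nat_lit 92) (.e (nat_lit 98334) (nat_lit 18) (.e (nat_lit 164403) (nat_lit 256) (.e (nat_lit 57371) (nat_lit 2) (.e (nat_lit 90172) (nat_lit 14) .nil))))) .nil))) (.nd (nat_lit 5) 
(.lf (nat_lit 45460) (.g (nat_lit 2539) (.e (nat_lit 1255) (nat_lit 92) (.e (nat_lit 98334) (nat_lit 18) (.e (nat_lit 164399) (nat_lit 256) (.e (nat_lit 57373) (nat_lit 2) (.e (nat_lit 90174) (nat_lit 14) (.e (nat_lit 180243) (nat_lit 5) (.e (nat_lit 532511) (nat_lit 2) (.e (nat_lit 106526) (nat_lit 9) .nil)))))))) (.g (nat_lit 4) .nil .nil))) 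
(.lf (nat_lit 45492) (.g (nat_lit 2845) (.e (nat_lit 1255) (nat_lit 92) (.e (nat_lit 98335) (nat_lit 18) (.e (nat_lit 164403) (nat_lit 256) (.e (nat_lit 57373) (nat_lit 2) (.e (nat_lit 90167) (nat_lit 13) .nil))))) .nil)))) (.nd (nat_lit 4) (.nd (nat_lit 5) 
(.lf (nat_lit 45452) (.g (nat_lit 2350) (.e (nat_lit 1255) (nat_lit 92) (.e (nat_lit 98334) (nat_lit 18) (.e (nat_lit 164399) (nat_lit 256) (.e (nat_lit 57372) (nat_lit 2) (.e (nat_lit 90172) (nat_lit 14) (.e (nat_lit 180244) (nat_lit 5) (.e (nat_lit 532508) (nat_lit 2) (.e (nat_lit 106526) (nat_lit 9) .nil)))))))) (.g (nat_lit 4) .nil .nil))) 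
(.lf (nat_lit 45484) (.g (nat_lit 2441) (.e (nat_lit 1255) (nat_lit 92) (.e (nat_lit 98335) (nat_lit 18) (.e (nat_lit 164396) (nat_lit 256) (.e (nat_lit 57379) (nat_lit 3) (.e (nat_lit 98366) (nat_lit 27) (.e (nat_lit 434231) (nat_lit 23) (.e (nat_lit 532507) (nat_lit 2) (.e (nat_lit 106517) (nat_lit 9) .nil)))))))) (.g (nat_lit 4) .nil .nil)))) (.nd (nat_lit 5) 
(.lf (nat_lit 45468) (.g (nat_lit 2819) (.e (nat_lit 1255) (nat_lit 92) (.e (nat_lit 98334) (nat_lit 18) (.e (nat_lit 164400) (nat_lit 256) (.e (nat_lit 57375) (nat_lit 2) (.e (nat_lit 90172) (nat_lit 14) (.e (nat_lit 180244) (nat_lit 5) (.e (nat_lit 532508) (nat_lit 2) (.e (nat_lit 106517) (nat_lit 9) .nil)))))))) (.g (nat_lit 5) .nil .nil))) 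
(.lf (nat_lit 45500) (.g (nat_lit 1458) (.e (nat_lit 1255) (nat_lit 92) (.e (nat_lit 98341) (nat_lit 20) (.e (nat_lit 221210) (nat_lit 22) (.e (nat_lit 196670) (nat_lit 14) .nil)))) .nil)))))) (.nd (nat_lit 2) (.nd (nat_lit 3) (.nd (nat_lit 4) (.nd (nat_lit 5) 
(.lf (nat_lit 45442) (.g (nat_lit 1584) (.e (nat_lit 1255) (nat_lit 92) (.e (nat_lit 98334) (nat_lit 18) (.e (nat_lit 164398) (nat_lit 256) (.e (nat_lit 57379) (nat_lit 3) .nil)))) .nil)) 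
(.lf (nat_lit 45474) (.g (nat_lit 3895) (.e (nat_lit 1255) (nat_lit 92) (.e (nat_lit 98334) (nat_lit 18) (.e (nat_lit 164401) (nat_lit 256) (.e (nat_lit 57373) (nat_lit 2) (.e (nat_lit 90174) (nat_lit 14) (.e (nat_lit 180243) (nat_lit 5) (.e (nat_lit 532508) (nat_lit 2) (.e (nat_lit 106517) (nat_lit 9) .nil)))))))) (.g (nat_lit 7) .nil .nil)))) (.nd (nat_lit 5) 
(.lf (nat_lit 45458) (.g (nat_lit 3440) (.e (nat_lit 1255) (nat_lit 92) (.e (nat_lit 98334) (nat_lit 18) (.e (nat_lit 164399) (nat_lit 256) (.e (nat_lit 57373) (nat_lit 2) (.e (nat_lit 90174) (nat_lit 14) (.e (nat_lit 180243) (nat_lit 5) (.e (nat_lit 532508) (nat_lit 2) (.e (nat_lit 106526) (nat_lit 9) .nil)))))))) (.g (nat_lit 5) .nil .nil))) 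
(.lf (nat_lit 45490) (.g (nat_lit 2497) (.e (nat_lit 1255) (nat_lit 92) (.e (nat_lit 98335) (nat_lit 18) (.e (nat_lit 164403) (nat_lit 256) (.e (nat_lit 57371) (nat_lit 2) (.e (nat_lit 90172) (nat_lit 14) (.e (nat_lit 180244) (nat_lit 5) (.e (nat_lit 532508) (nat_lit 2) (.e (nat_lit 106526) (nat_lit 9) .nil)))))))) (.g (nat_lit 4) .nil .nil))))) (.nd (nat_lit 4) (.nd (nat_lit 5) 
(.lf (nat_lit 45450) (.g (nat_lit 3829) (.e (nat_lit 1255) (nat_lit 92) (.e (nat_lit 98334) (nat_lit 18) (.e (nat_lit 164399) (nat_lit 256) (.e (nat_lit 57372) (nat_lit 2) (.e (nat_lit 90172) (nat_lit 14) (.e (nat_lit 180243) (nat_lit 5) (.e (nat_lit 532508) (nat_lit 2) (.e (nat_lit 106517) (nat_lit 9) .nil)))))))) (.g (nat_lit 5) .nil .nil))) 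
(.lf (nat_lit 45482) (.g (nat_lit 3786) (.e (nat_lit 1255) (nat_lit 92) (.e (nat_lit 98335) (nat_lit 18) (.e (nat_lit 164396) (nat_lit 256) (.e (nat_lit 57371) (nat_lit 2) (.e (nat_lit 90174) (nat_lit 14) (.e (nat_lit 180243) (nat_lit 5) (.e (nat_lit 532508) (nat_lit 2) (.e (nat_lit 106517) (nat_lit 9) .nil)))))))) (.g (nat_lit 6) .nil .nil)))) (.nd (nat_lit 5) 
(.lf (nat_lit 45466) (.g (nat_lit 3681) (.e (nat_lit 1255) (nat_lit 92) (.e (nat_lit 98334) (nat_lit 18) (.e (nat_lit 164399) (nat_lit 256) (.e (nat_lit 57379) (nat_lit 3) (.e (nat_lit 98366) (nat_lit 27) (.e (nat_lit 434231) (nat_lit 23) (.e (nat_lit 532507) (nat_lit 2) (.e (nat_lit 106517) (nat_lit 9) .nil)))))))) (.g (nat_lit 6) .nil .nil))) 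
(.lf (nat_lit 45498) (.g (nat_lit 717) (.e (nat_lit 1255) (nat_lit 92) (.e (nat_lit 98341) (nat_lit 20) (.e (nat_lit 229120) (nat_lit 18) .nil))) .nil))))) (.nd (nat_lit 3) (.nd (nat_lit 4) (.nd (nat_lit 5) 
(.lf (nat_lit 45446) (.g (nat_lit 3043) (.e (nat_lit 1255) (nat_lit 92) (.e (nat_lit 98334) (nat_lit 18) (.e (nat_lit 164399) (nat_lit 256) (.e (nat_lit 57370) (nat_lit 2) (.e (nat_lit 90174) (nat_lit 14) (.e (nat_lit 180243) (nat_lit 5) (.e (nat_lit 532508) (nat_lit 2) (.e (nat_lit 106517) (nat_lit 9) .nil)))))))) (.g (nat_lit 5) .nil .nil))) 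
(.lf (nat_lit 45478) (.g (nat_lit 2808) (.e (nat_lit 1255) (nat_lit 92) (.e (nat_lit 98334) (nat_lit 18) (.e (nat_lit 164403) (nat_lit 256) (.e (nat_lit 57373) (nat_lit 2) (.e (nat_lit 90170) (nat_lit 13) (.e (nat_lit 172065) (nat_lit 3) (.e (nat_lit 204834) (nat_lit 19) (.e (nat_lit 106517) (nat_lit 9) .nil)))))))) (.g (nat_lit 4) .nil .nil)))) (.nd (nat_lit 5) 
(.lf (nat_lit 45462) (.g (nat_lit 3754) (.e (nat_lit 1255) (nat_lit 92) (.e (nat_lit 98334) (nat_lit 18) (.e (nat_lit 164399) (nat_lit 256) (.e (nat_lit 57374) (nat_lit 2) (.e (nat_lit 90170) (nat_lit 13) (.e (nat_lit 172067) (nat_lit 3) (.e (nat_lit 204834) (nat_lit 19) (.e (nat_lit 106517) (nat_lit 9) .nil)))))))) (.g (nat_lit 5) .nil .nil))) 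
(.lf (nat_lit 45494) (.g (nat_lit 2714) (.e (nat_lit 1255) (nat_lit 92) (.e (nat_lit 98335) (nat_lit 18) (.e (nat_lit 164403) (nat_lit 256) (.e (nat_lit 57373) (nat_lit 2) (.e (nat_lit 90172) (nat_lit 14) (.e (nat_lit 180244) (nat_lit 5) (.e (nat_lit 532508) (nat_lit 2) (.e (nat_lit 106526) (nat_lit 9) .nil)))))))) (.g (nat_lit 4) .nil .nil))))) (.nd (nat_lit 4) (.nd (nat_lit 5) 
(.lf (nat_lit 45454) (.g (nat_lit 2650) (.e (nat_lit 1255) (nat_lit 92) (.e (nat_lit 98334) (nat_lit 18) (.e (nat_lit 164399) (nat_lit 256) (.e (nat_lit 57372) (nat_lit 2) (.e (nat_lit 90174) (nat_lit 14) (.e (nat_lit 180243) (nat_lit 5) (.e (nat_lit 532508) (nat_lit 2) (.e (nat_lit 106526) (nat_lit 9) .nil)))))))) (.g (nat_lit 4) .nil .nil))) 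
(.lf (nat_lit 45486) (.g (nat_lit 2631) (.e (nat_lit 1255) (nat_lit 92) (.e (nat_lit 98335) (nat_lit 18) (.e (nat_lit 164403) (nat_lit 256) (.e (nat_lit 57370) (nat_lit 2) (.e (nat_lit 90172) (nat_lit 14) (.e (nat_lit 180244) (nat_lit 5) (.e (nat_lit 532508) (nat_lit 2) (.e (nat_lit 106517) (nat_lit 9) .nil)))))))) (.g (nat_lit 5) .nil .nil)))) (.nd (nat_lit 5) 
(.lf (nat_lit 45470) (.g (nat_lit 2844) (.e (nat_lit 1255) (nat_lit 92) (.e (nat_lit 98334) (nat_lit 18) (.e (nat_lit 164400) (nat_lit 256) (.e (nat_lit 57379) (nat_lit 3) (.e (nat_lit 98366) (nat_lit 27) (.e (nat_lit 434231) (nat_lit 23) (.e (nat_lit 532507) (nat_lit 2) (.e (nat_lit 106517) (nat_lit 9) .nil)))))))) (.g (nat_lit 5) .nil .nil))) 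
(.lf (nat_lit 45502) (.g (nat_lit 1981) (.e (nat_lit 1255) (nat_lit 92) (.e (nat_lit 98342) (nat_lit 20) (.e (nat_lit 221212) (nat_lit 22) (.e (nat_lit 196668) (nat_lit 14) .nil)))) .nil))))))) (.nd (nat_lit 1) (.nd (nat_lit 2) (.nd (nat_lit 3) (.nd (nat_lit 4) (.nd (nat_lit 5) 
(.lf (nat_lit 45441) (.g (nat_lit 2872) (.e (nat_lit 1255) (nat_lit 92) (.e (nat_lit 98334) (nat_lit 18) (.e (nat_lit 164398) (nat_lit 256) (.e (nat_lit 57378) (nat_lit 3) (.e (nat_lit 98367) (nat_lit 27) (.e (nat_lit 434231) (nat_lit 23) (.e (nat_lit 532507) (nat_lit 2) (.e (nat_lit 106517) (nat_lit 9) .nil)))))))) (.g (nat_lit 5) .nil .nil))) 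
(.lf (nat_lit 45473) (.g (nat_lit 2831) (.e (nat_lit 1255) (nat_lit 92) (.e (nat_lit 98334) (nat_lit 18) (.e (nat_lit 164401) (nat_lit 256) (.e (nat_lit 57373) (nat_lit 2) (.e (nat_lit 90172) (nat_lit 14) (.e (nat_lit 180244) (nat_lit 5) (.e (nat_lit 532508) (nat_lit 2) (.e (nat_lit 106517) (nat_lit 9) .nil)))))))) (.g (nat_lit 5) .nil .nil)))) (.nd (nat_lit 5) 
(.lf (nat_lit 45457) (.g (nat_lit 4719) (.e (nat_lit 1255) (nat_lit 92) (.e (nat_lit 98334) (nat_lit 18) (.e (nat_lit 164399) (nat_lit 256) (.e (nat_lit 57373) (nat_lit 2) (.e (nat_lit 90174) (nat_lit 14) (.e (nat_lit 180243) (nat_lit 5) (.e (nat_lit 532508) (nat_lit 2) (.e (nat_lit 106517) (nat_lit 9) .nil)))))))) (.g (nat_lit 7) .nil .nil))) 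
(.lf (nat_lit 45489) (.g (nat_lit 3755) (.e (nat_lit 1255) (nat_lit 92) (.e (nat_lit 98335) (nat_lit 18) (.e (nat_lit 164403) (nat_lit 256) (.e (nat_lit 57371) (nat_lit 2) (.e (nat_lit 90172) (nat_lit 14) (.e (nat_lit 180244) (nat_lit 5) (.e (nat_lit 532508) (nat_lit 2) (.e (nat_lit 106517) (nat_lit 9) .nil)))))))) (.g (nat_lit 6) .nil .nil))))) (.nd (nat_lit 4) (.nd (nat_lit 5) 
(.lf (nat_lit 45449) (.g (nat_lit 2936) (.e (nat_lit 1255) (nat_lit 92) (.e (nat_lit 98334) (nat_lit 18) (.e (nat_lit 164399) (nat_lit 256) (.e (nat_lit 57372) (nat_lit 2) (.e (nat_lit 90167) (nat_lit 13) (.e (nat_lit 172067) (nat_lit 3) (.e (nat_lit 204834) (nat_lit 19) (.e (nat_lit 106517) (nat_lit 9) .nil)))))))) (.g (nat_lit 5) .nil .nil))) 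
(.lf (nat_lit 45481) (.g (nat_lit 2121) (.e (nat_lit 1255) (nat_lit 92) (.e (nat_lit 98335) (nat_lit 18) (.e (nat_lit 164396) (nat_lit 256) (.e (nat_lit 57371) (nat_lit 2) (.e (nat_lit 90172) (nat_lit 14) .nil))))) .nil))) (.nd (nat_lit 5) 
(.lf (nat_lit 45465) (.g (nat_lit 3378) (.e (nat_lit 1255) (nat_lit 92) (.e (nat_lit 98334) (nat_lit 18) (.e (nat_lit 164399) (nat_lit 256) (.e (nat_lit 57378) (nat_lit 3) (.e (nat_lit 98367) (nat_lit 27) (.e (nat_lit 434231) (nat_lit 23) (.e (nat_lit 532507) (nat_lit 2) (.e (nat_lit 106517) (nat_lit 9) .nil)))))))) (.g (nat_lit 5) .nil .nil))) 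
(.lf (nat_lit 45497) (.g (nat_lit 3029) (.e (nat_lit 1255) (nat_lit 92) (.e (nat_lit 98335) (nat_lit 18) (.e (nat_lit 164403) (nat_lit 256) (.e (nat_lit 57378) (nat_lit 3) (.e (nat_lit 98368) (nat_lit 27) .nil))))) .nil))))) (.nd (nat_lit 3) (.nd (nat_lit 4) (.nd (nat_lit 5) 
(.lf (nat_lit 45445) (.g (nat_lit 2672) (.e (nat_lit 1255) (nat_lit 92) (.e (nat_lit 98334) (nat_lit 18) (.e (nat_lit 164399) (nat_lit 256) (.e (nat_lit 57370) (nat_lit 2) (.e (nat_lit 90172) (nat_lit 14) (.e (nat_lit 180244) (nat_lit 5) (.e (nat_lit 532508) (nat_lit 2) (.e (nat_lit 106517) (nat_lit 9) .nil)))))))) (.g (nat_lit 5) .nil .nil))) 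
(.lf (nat_lit 45477) (.g (nat_lit 2954) (.e (nat_lit 1255) (nat_lit 92) (.e (nat_lit 98334) (nat_lit 18) (.e (nat_lit 164403) (nat_lit 256) (.e (nat_lit 57371) (nat_lit 2) (.e (nat_lit 90174) (nat_lit 14) (.e (nat_lit 180243) (nat_lit 5) (.e (nat_lit 532508) (nat_lit 2) (.e (nat_lit 106517) (nat_lit 9) .nil)))))))) (.g (nat_lit 4) .nil .nil)))) (.nd (nat_lit 5) 
(.lf (nat_lit 45461) (.g (nat_lit 3881) (.e (nat_lit 1255) (nat_lit 92) (.e (nat_lit 98334) (nat_lit 18) (.e (nat_lit 164399) (nat_lit 256) (.e (nat_lit 57374) (nat_lit 2) (.e (nat_lit 90170) (nat_lit 13) (.e (nat_lit 172065) (nat_lit 3) (.e (nat_lit 204834) (nat_lit 19) (.e (nat_lit 106517) (nat_lit 9) .nil)))))))) (.g (nat_lit 5) .nil .nil))) 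
(.lf (nat_lit 45493) (.g (nat_lit 3538) (.e (nat_lit 1255) (nat_lit 92) (.e (nat_lit 98335) (nat_lit 18) (.e (nat_lit 164403) (nat_lit 256) (.e (nat_lit 57373) (nat_lit 2) (.e (nat_lit 90170) (nat_lit 13) (.e (nat_lit 172065) (nat_lit 3) (.e (nat_lit 204834) (nat_lit 19) (.e (nat_lit 106517) (nat_lit 9) .nil)))))))) (.g (nat_lit 6) .nil .nil))))) (.nd (nat_lit 4) (.nd (nat_lit 5) 
(.lf (nat_lit 45453) (.g (nat_lit 3929) (.e (nat_lit 1255) (nat_lit 92) (.e (nat_lit 98334) (nat_lit 18) (.e (nat_lit 164399) (nat_lit 256) (.e (nat_lit 57372) (nat_lit 2) (.e (nat_lit 90174) (nat_lit 14) (.e (nat_lit 180243) (nat_lit 5) (.e (nat_lit 532508) (nat_lit 2) (.e (nat_lit 106517) (nat_lit 9) .nil)))))))) (.g (nat_lit 6) .nil .nil))) 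
(.lf (nat_lit 45485) (.g (nat_lit 2926) (.e (nat_lit 1255) (nat_lit 92) (.e (nat_lit 98335) (nat_lit 18) (.e (nat_lit 164401) (nat_lit 256) (.e (nat_lit 57373) (nat_lit 2) (.e (nat_lit 90174) (nat_lit 14) (.e (nat_lit 180243) (nat_lit 5) (.e (nat_lit 532508) (nat_lit 2) (.e (nat_lit 106517) (nat_lit 9) .nil)))))))) (.g (nat_lit 5) .nil .nil)))) (.nd (nat_lit 5) 
(.lf (nat_lit 45469) (.g (nat_lit 3064) (.e (nat_lit 1255) (nat_lit 92) (.e (nat_lit 98334) (nat_lit 18) (.e (nat_lit 164400) (nat_lit 256) (.e (nat_lit 57375) (nat_lit 2) (.e (nat_lit 90174) (nat_lit 14) (.e (nat_lit 180243) (nat_lit 5) (.e (nat_lit 532508) (nat_lit 2) (.e (nat_lit 106517) (nat_lit 9) .nil)))))))) (.g (nat_lit 5) .nil .nil))) 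
(.lf (nat_lit 45501) (.g (nat_lit 2322) (.e (nat_lit 1255) (nat_lit 92) (.e (nat_lit 98342) (nat_lit 20) (.e (nat_lit 221211) (nat_lit 22) (.e (nat_lit 196666) (nat_lit 13) (.e (nat_lit 65569) (nat_lit 3) .nil))))) .nil)))))) (.nd (nat_lit 2) (.nd (nat_lit 3) (.nd (nat_lit 4) (.nd (nat_lit 5) 
(.lf (nat_lit 45443) (.g (nat_lit 4133) (.e (nat_lit 1255) (nat_lit 92) (.e (nat_lit 98334) (nat_lit 18) (.e (nat_lit 164398) (nat_lit 256) (.e (nat_lit 57379) (nat_lit 3) (.e (nat_lit 98366) (nat_lit 27) (.e (nat_lit 434231) (nat_lit 23) (.e (nat_lit 532507) (nat_lit 2) (.e (nat_lit 106517) (nat_lit 9) .nil)))))))) (.g (nat_lit 6) .nil .nil))) 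
(.lf (nat_lit 45475) (.g (nat_lit 2743) (.e (nat_lit 1255) (nat_lit 92) (.e (nat_lit 98334) (nat_lit 18) (.e (nat_lit 164401) (nat_lit 256) (.e (nat_lit 57373) (nat_lit 2) (.e (nat_lit 90174) (nat_lit 14) (.e (nat_lit 180243) (nat_lit 5) (.e (nat_lit 532508) (nat_lit 2) (.e (nat_lit 106526) (nat_lit 9) .nil)))))))) (.g (nat_lit 5) .nil .nil)))) (.nd (nat_lit 5) 
(.lf (nat_lit 45459) (.g (nat_lit 2633) (.e (nat_lit 1255) (nat_lit 92) (.e (nat_lit 98334) (nat_lit 18) (.e (nat_lit 164399) (nat_lit 256) (.e (nat_lit 57373) (nat_lit 2) (.e (nat_lit 90174) (nat_lit 14) (.e (nat_lit 180243) (nat_lit 5) (.e (nat_lit 532511) (nat_lit 2) (.e (nat_lit 106517) (nat_lit 9) .nil)))))))) (.g (nat_lit 4) .nil .nil))) 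
(.lf (nat_lit 45491) (.g (nat_lit 4627) (.e (nat_lit 1255) (nat_lit 92) (.e (nat_lit 98335) (nat_lit 18) (.e (nat_lit 164403) (nat_lit 256) (.e (nat_lit 57371) (nat_lit 2) (.e (nat_lit 90174) (nat_lit 14) (.e (nat_lit 180243) (nat_lit 5) (.e (nat_lit 532508) (nat_lit 2) (.e (nat_lit 106517) (nat_lit 9) .nil)))))))) (.g (nat_lit 0) .nil .nil))))) (.nd (nat_lit 4) (.nd (nat_lit 5) 
(.lf (nat_lit 45451) (.g (nat_lit 2511) (.e (nat_lit 1255) (nat_lit 92) (.e (nat_lit 98334) (nat_lit 18) (.e (nat_lit 164399) (nat_lit 256) (.e (nat_lit 57372) (nat_lit 2) (.e (nat_lit 90172) (nat_lit 14) (.e (nat_lit 180243) (nat_lit 5) (.e (nat_lit 532508) (nat_lit 2) (.e (nat_lit 106526) (nat_lit 9) .nil)))))))) (.g (nat_lit 4) .nil .nil))) 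
(.lf (nat_lit 45483) (.g (nat_lit 2486) (.e (nat_lit 1255) (nat_lit 92) (.e (nat_lit 98335) (nat_lit 18) (.e (nat_lit 164396) (nat_lit 256) (.e (nat_lit 57371) (nat_lit 2) (.e (nat_lit 90174) (nat_lit 14) (.e (nat_lit 180243) (nat_lit 5) (.e (nat_lit 532508) (nat_lit 2) (.e (nat_lit 106526) (nat_lit 9) .nil)))))))) (.g (nat_lit 4) .nil .nil)))) (.nd (nat_lit 5) 
(.lf (nat_lit 45467) (.g (nat_lit 2913) (.e (nat_lit 1255) (nat_lit 92) (.e (nat_lit 98334) (nat_lit 18) (.e (nat_lit 164400) (nat_lit 256) (.e (nat_lit 57372) (nat_lit 2) (.e (nat_lit 90172) (nat_lit 14) (.e (nat_lit 180244) (nat_lit 5) (.e (nat_lit 532508) (nat_lit 2) (.e (nat_lit 106517) (nat_lit 9) .nil)))))))) (.g (nat_lit 5) .nil .nil))) 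
(.lf (nat_lit 45499) (.g (nat_lit 1550) (.e (nat_lit 1255) (nat_lit 92) (.e (nat_lit 98341) (nat_lit 20) (.e (nat_lit 221210) (nat_lit 22) (.e (nat_lit 196668) (nat_lit 14) .nil)))) .nil))))) (.nd (nat_lit 3) (.nd (nat_lit 4) (.nd (nat_lit 5) 
(.lf (nat_lit 45447) (.g (nat_lit 2862) (.e (nat_lit 1255) (nat_lit 92) (.e (nat_lit 98334) (nat_lit 18) (.e (nat_lit 164399) (nat_lit 256) (.e (nat_lit 57371) (nat_lit 2) (.e (nat_lit 90174) (nat_lit 14) (.e (nat_lit 180243) (nat_lit 5) (.e (nat_lit 532508) (nat_lit 2) (.e (nat_lit 106517) (nat_lit 9) .nil)))))))) (.g (nat_lit 4) .nil .nil))) 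
(.lf (nat_lit 45479) (.g (nat_lit 2790) (.e (nat_lit 1255) (nat_lit 92) (.e (nat_lit 98334) (nat_lit 18) (.e (nat_lit 164403) (nat_lit 256) (.e (nat_lit 57373) (nat_lit 2) (.e (nat_lit 90170) (nat_lit 13) (.e (nat_lit 172067) (nat_lit 3) (.e (nat_lit 204834) (nat_lit 19) (.e (nat_lit 106517) (nat_lit 9) .nil)))))))) (.g (nat_lit 4) .nil .nil)))) (.nd (nat_lit 5) 
(.lf (nat_lit 45463) (.g (nat_lit 3304) (.e (nat_lit 1255) (nat_lit 92) (.e (nat_lit 98334) (nat_lit 18) (.e (nat_lit 164399) (nat_lit 256) (.e (nat_lit 57375) (nat_lit 2) (.e (nat_lit 90172) (nat_lit 14) (.e (nat_lit 180244) (nat_lit 5) (.e (nat_lit 532508) (nat_lit 2) (.e (nat_lit 106517) (nat_lit 9) .nil)))))))) (.g (nat_lit 5) .nil .nil))) 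
(.lf (nat_lit 45495) (.g (nat_lit 4817) (.e (nat_lit 1255) (nat_lit 92) (.e (nat_lit 98335) (nat_lit 18) (.e (nat_lit 164403) (nat_lit 256) (.e (nat_lit 57373) (nat_lit 2) (.e (nat_lit 90174) (nat_lit 14) (.e (nat_lit 180243) (nat_lit 5) (.e (nat_lit 532508) (nat_lit 2) (.e (nat_lit 106517) (nat_lit 9) .nil)))))))) (.g (nat_lit 0) .nil .nil))))) (.nd (nat_lit 4) (.nd (nat_lit 5) 
(.lf (nat_lit 45455) (.g (nat_lit 3646) (.e (nat_lit 1255) (nat_lit 92) (.e (nat_lit 98334) (nat_lit 18) (.e (nat_lit 164399) (nat_lit 256) (.e (nat_lit 57373) (nat_lit 2) (.e (nat_lit 90170) (nat_lit 13) (.e (nat_lit 172065) (nat_lit 3) (.e (nat_lit 204834) (nat_lit 19) (.e (nat_lit 106517) (nat_lit 9) .nil)))))))) (.g (nat_lit 6) .nil .nil))) 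
(.lf (nat_lit 45487) (.g (nat_lit 2058) (.e (nat_lit 1255) (nat_lit 92) (.e (nat_lit 98335) (nat_lit 18) (.e (nat_lit 164403) (nat_lit 256) (.e (nat_lit 57371) (nat_lit 2) (.e (nat_lit 90167) (nat_lit 13) (.e (nat_lit 172065) (nat_lit 3) (.e (nat_lit 204834) (nat_lit 19) (.e (nat_lit 106517) (nat_lit 9) .nil)))))))) (.g (nat_lit 4) .nil .nil)))) (.nd (nat_lit 5) 
(.lf (nat_lit 45471) (.g (nat_lit 2346) (.e (nat_lit 1255) (nat_lit 92) (.e (nat_lit 98334) (nat_lit 18) (.e (nat_lit 164401) (nat_lit 256) (.e (nat_lit 57371) (nat_lit 2) (.e (nat_lit 90174) (nat_lit 14) (.e (nat_lit 180243) (nat_lit 5) (.e (nat_lit 532508) (nat_lit 2) (.e (nat_lit 106517) (nat_lit 9) .nil)))))))) (.g (nat_lit 4) .nil .nil))) 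
(.lf (nat_lit 45503) (.g (nat_lit 2579) (.e (nat_lit 1255) (nat_lit 92) (.e (nat_lit 98342) (nat_lit 20) (.e (nat_lit 221212) (nat_lit 22) (.e (nat_lit 196668) (nat_lit 14) (.e (nat_lit 73747) (nat_lit 3) .nil))))) .nil))))))))

noncomputable def tv631 : DT := (.nd (nat_lit 0) (.nd (nat_lit 1) (.nd (nat_lit 2) (.nd (nat_lit 3) (.nd (nat_lit 4) (.nd (nat_lit 5) 
(.lf (nat_lit 45504) (.g (nat_lit 2606) (.e (nat_lit 1255) (nat_lit 92) (.e (nat_lit 98342) (nat_lit 20) (.e (nat_lit 221212) (nat_lit 22) (.e (nat_lit 196668) (nat_lit 14) (.e (nat_lit 73747) (nat_lit 3) (.e (nat_lit 516115) (nat_lit 1) (.e (nat_lit 164148) (nat_lit 152) (.e (nat_lit 1027) (nat_lit 81) .nil)))))))) (.g (nat_lit 4) .nil .nil))) 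
(.lf (nat_lit 45536) (.g (nat_lit 1756) (.e (nat_lit 1255) (nat_lit 92) (.e (nat_lit 98356) (nat_lit 26) (.e (nat_lit 426428) (nat_lit 17) (.e (nat_lit 98048) (nat_lit 5) .nil)))) .nil))) (.nd (nat_lit 5) 
(.lf (nat_lit 45520) (.g (nat_lit 3295) (.e (nat_lit 1255) (nat_lit 92) (.e (nat_lit 98350) (nat_lit 24) (.e (nat_lit 409641) (nat_lit 17) (.e (nat_lit 294931) (nat_lit 3) (.e (nat_lit 98350) (nat_lit 24) (.e (nat_lit 409616) (nat_lit 10) (.e (nat_lit 5345) (nat_lit 298) .nil))))))) (.g (nat_lit 5) .nil .nil))) 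
(.lf (nat_lit 45552) (.g (nat_lit 1442) (.e (nat_lit 1255) (nat_lit 92) (.e (nat_lit 98365) (nat_lit 26) (.e (nat_lit 426188) (nat_lit 9) (.e (nat_lit 426478) (nat_lit 27) .nil)))) .nil)))) (.nd (nat_lit 4) (.nd (nat_lit 5) 
(.lf (nat_lit 45512) (.g (nat_lit 2554) (.e (nat_lit 1255) (nat_lit 92) (.e (nat_lit 98342) (nat_lit 20) (.e (nat_lit 221212) (nat_lit 22) (.e (nat_lit 196670) (nat_lit 14) (.e (nat_lit 73746) (nat_lit 3) (.e (nat_lit 516120) (nat_lit 1) (.e (nat_lit 164160) (nat_lit 152) (.e (nat_lit 1027) (nat_lit 81) .nil)))))))) (.g (nat_lit 4) .nil .nil))) 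
(.lf (nat_lit 45544) (.g (nat_lit 4454) (.e (nat_lit 1255) (nat_lit 92) (.e (nat_lit 98356) (nat_lit 26) (.e (nat_lit 426438) (nat_lit 18) (.e (nat_lit 98334) (nat_lit 18) (.e (nat_lit 164330) (nat_lit 230) (.e (nat_lit 163874) (nat_lit 3) (.e (nat_lit 204834) (nat_lit 19) (.e (nat_lit 106517) (nat_lit 9) .nil)))))))) (.g (nat_lit 0) .nil .nil)))) (.nd (nat_lit 5) 
(.lf (nat_lit 45528) (.g (nat_lit 1912) (.e (nat_lit 1255) (nat_lit 92) (.e (nat_lit 98350) (nat_lit 24) (.e (nat_lit 409648) (nat_lit 18) (.e (nat_lit 303118) (nat_lit 3) .nil)))) .nil)) 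
(.lf (nat_lit 45560) (.g (nat_lit 2620) (.e (nat_lit 1255) (nat_lit 92) (.e (nat_lit 98365) (nat_lit 26) (.e (nat_lit 426298) (nat_lit 11) (.e (nat_lit 458789) (nat_lit 23) (.e (nat_lit 532553) (nat_lit 13) (.e (nat_lit 368662) (nat_lit 18) (.e (nat_lit 4828) (nat_lit 281) (.e (nat_lit 7936) (nat_lit 81) .nil)))))))) (.g (nat_lit 6) .nil .nil)))))) 
(.nd (nat_lit 3) (.nd (nat_lit 4) (.nd (nat_lit 5) 
(.lf (nat_lit 45508) (.g (nat_lit 2992) (.e (nat_lit 1255) (nat_lit 92) (.e (nat_lit 98342) (nat_lit 20) (.e (nat_lit 221212) (nat_lit 22) (.e (nat_lit 196670) (nat_lit 14) (.e (nat_lit 73746) (nat_lit 3) (.e (nat_lit 516115) (nat_lit 1) (.e (nat_lit 164153) (nat_lit 152) (.e (nat_lit 1027) (nat_lit 81) .nil)))))))) (.g (nat_lit 5) .nil .nil))) 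
(.lf (nat_lit 45540) (.g (nat_lit 644) (.e (nat_lit 1255) (nat_lit 92) (.e (nat_lit 98356) (nat_lit 26) (.e (nat_lit 426438) (nat_lit 18) .nil))) .nil))) (.nd (nat_lit 5) 
(.lf (nat_lit 45524) (.g (nat_lit 3898) (.e (nat_lit 1255) (nat_lit 92) (.e (nat_lit 98350) (nat_lit 24) (.e (nat_lit 409646) (nat_lit 18) (.e (nat_lit 303119) (nat_lit 3) (.e (nat_lit 204863) (nat_lit 27) (.e (nat_lit 352000) (nat_lit 8) .nil)))))) (.g (nat_lit 5) .nil .nil))) 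
(.lf (nat_lit 45556) (.g (nat_lit 1492) (.e (nat_lit 1255) (nat_lit 92) (.e (nat_lit 98365) (nat_lit 26) (.e (nat_lit 426188) (nat_lit 9) (.e (nat_lit 426550) (nat_lit 31) (.e (nat_lit 376576) (nat_lit 46) (.e (nat_lit 794680) (nat_lit 24) (.e (nat_lit 220928) (nat_lit 0) .nil))))))) (.g (nat_lit 4) .nil .nil))))) (.nd (nat_lit 4) (.nd (nat_lit 5) 
(.lf (nat_lit 45516) (.g (nat_lit 3136) (.e (nat_lit 1255) (nat_lit 92) (.e (nat_lit 98344) (nat_lit 21) (.e (nat_lit 229708) (nat_lit 256) (.e (nat_lit 57373) (nat_lit 2) (.e (nat_lit 90174) (nat_lit 14) (.e (nat_lit 180243) (nat_lit 5) (.e (nat_lit 532508) (nat_lit 2) (.e (nat_lit 106517) (nat_lit 9) .nil)))))))) (.g (nat_lit 6) .nil .nil))) 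
(.lf (nat_lit 45548) (.g (nat_lit 421) (.e (nat_lit 1255) (nat_lit 92) (.e (nat_lit 98365) (nat_lit 26) (.e (nat_lit 426187) (nat_lit 9) .nil))) .nil))) (.nd (nat_lit 5) 
(.lf (nat_lit 45532) (.g (nat_lit 3062) (.e (nat_lit 1255) (nat_lit 92) (.e (nat_lit 98350) (nat_lit 24) (.e (nat_lit 409649) (nat_lit 18) (.e (nat_lit 303118) (nat_lit 3) (.e (nat_lit 204863) (nat_lit 27) .nil))))) .nil)) 
(.lf (nat_lit 45564) (.g (nat_lit 1249) (.e (nat_lit 1255) (nat_lit 92) (.e (nat_lit 98365) (nat_lit 26) (.e (nat_lit 426298) (nat_lit 11) (.e (nat_lit 458789) (nat_lit 23) (.e (nat_lit 532555) (nat_lit 13) .nil))))) .nil)))))) (.nd (nat_lit 2) (.nd (nat_lit 3) (.nd (nat_lit 4) (.nd (nat_lit 5) 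
(.lf (nat_lit 45506) (.g (nat_lit 2363) (.e (nat_lit 1255) (nat_lit 92) (.e (nat_lit 98342) (nat_lit 20) (.e (nat_lit 221212) (nat_lit 22) (.e (nat_lit 196670) (nat_lit 14) (.e (nat_lit 73746) (nat_lit 3) .nil))))) .nil)) 
(.lf (nat_lit 45538) (.g (nat_lit 2288) (.e (nat_lit 1255) (nat_lit 92) (.e (nat_lit 98356) (nat_lit 26) (.e (nat_lit 426428) (nat_lit 17) (.e (nat_lit 90174) (nat_lit 14) (.e (nat_lit 180243) (nat_lit 5) .nil))))) .nil))) (.nd (nat_lit 5) 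
(.lf (nat_lit 45522) (.g (nat_lit 3075) (.e (nat_lit 1255) (nat_lit 92) (.e (nat_lit 98350) (nat_lit 24) (.e (nat_lit 409646) (nat_lit 18) (.e (nat_lit 303117) (nat_lit 2) (.e (nat_lit 196668) (nat_lit 14) .nil))))) .nil)) 
(.lf (nat_lit 45554) (.g (nat_lit 1944) (.e (nat_lit 1255) (nat_lit 92) (.e (nat_lit 98365) (nat_lit 26) (.e (nat_lit 426188) (nat_lit 9) (.e (nat_lit 426484) (nat_lit 27) (.e (nat_lit 336423) (nat_lit 28) (.e (nat_lit 434276) (nat_lit 39) (.e (nat_lit 671488) (nat_lit 0) .nil))))))) (.g (nat_lit 5) .nil .nil))))) (.nd (nat_lit 4) (.nd (nat_lit 5) 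
(.lf (nat_lit 45514) (.g (nat_lit 2819) (.e (nat_lit 1255) (nat_lit 92) (.e (nat_lit 98342) (nat_lit 20) (.e (nat_lit 221212) (nat_lit 22) (.e (nat_lit 196681) (nat_lit 17) (.e (nat_lit 131093) (nat_lit 2) .nil))))) .nil)) 
(.lf (nat_lit 45546) (.g (nat_lit 4315) (.e (nat_lit 1255) (nat_lit 92) (.e (nat_lit 98356) (nat_lit 26) (.e (nat_lit 426438) (nat_lit 18) (.e (nat_lit 98335) (nat_lit 18) (.e (nat_lit 164330) (nat_lit 230) (.e (nat_lit 163874) (nat_lit 3) (.e (nat_lit 204834) (nat_lit 19) (.e (nat_lit 106517) (nat_lit 9) .nil)))))))) (.g (nat_lit 0) .nil .nil)))) (.nd (nat_lit 5) 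
(.lf (nat_lit 45530) (.g (nat_lit 1902) (.e (nat_lit 1255) (nat_lit 92) (.e (nat_lit 98350) (nat_lit 24) (.e (nat_lit 409649) (nat_lit 18) (.e (nat_lit 303117) (nat_lit 2) .nil)))) .nil)) 
(.lf (nat_lit 45562) (.g (nat_lit 2283) (.e (nat_lit 1255) (nat_lit 92) (.e (nat_lit 98365) (nat_lit 26) (.e (nat_lit 426298) (nat_lit 11) (.e (nat_lit 458789) (nat_lit 23) (.e (nat_lit 532553) (nat_lit 13) (.e (nat_lit 368689) (nat_lit 34) (.e (nat_lit 622605) (nat_lit 5) .nil))))))) (.g (nat_lit 6) .nil .nil)))))) (.nd (nat_lit 3) (.nd (nat_lit 4) (.nd (nat_lit 5) 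
(.lf (nat_lit 45510) (.g (nat_lit 2715) (.e (nat_lit 1255) (nat_lit 92) (.e (nat_lit 98342) (nat_lit 20) (.e (nat_lit 221212) (nat_lit 22) (.e (nat_lit 196670) (nat_lit 14) (.e (nat_lit 73746) (nat_lit 3) (.e (nat_lit 516117) (nat_lit 1) (.e (nat_lit 164159) (nat_lit 152) (.e (nat_lit 1027) (nat_lit 81) .nil)))))))) (.g (nat_lit 4) .nil .nil))) 
(.lf (nat_lit 45542) (.g (nat_lit 2042) (.e (nat_lit 1255) (nat_lit 92) (.e (nat_lit 98356) (nat_lit 26) (.e (nat_lit 426438) (nat_lit 18) (.e (nat_lit 98334) (nat_lit 18) (.e (nat_lit 164330) (nat_lit 230) .nil))))) .nil))) (.nd (nat_lit 5) 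
(.lf (nat_lit 45526) (.g (nat_lit 1555) (.e (nat_lit 1255) (nat_lit 92) (.e (nat_lit 98350) (nat_lit 24) (.e (nat_lit 409647) (nat_lit 18) (.e (nat_lit 303118) (nat_lit 3) .nil)))) .nil)) 
(.lf (nat_lit 45558) (.g (nat_lit 1630) (.e (nat_lit 1255) (nat_lit 92) (.e (nat_lit 98365) (nat_lit 26) (.e (nat_lit 426188) (nat_lit 9) (.e (nat_lit 426566) (nat_lit 34) (.e (nat_lit 393233) (nat_lit 17) .nil))))) .nil)))) (.nd (nat_lit 4) (.nd (nat_lit 5) 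
(.lf (nat_lit 45518) (.g (nat_lit 1760) (.e (nat_lit 1255) (nat_lit 92) (.e (nat_lit 98349) (nat_lit 24) (.e (nat_lit 409646) (nat_lit 18) (.e (nat_lit 303117) (nat_lit 2) .nil)))) .nil)) 
(.lf (nat_lit 45550) (.g (nat_lit 1294) (.e (nat_lit 1255) (nat_lit 92) (.e (nat_lit 98365) (nat_lit 26) (.e (nat_lit 426187) (nat_lit 9) (.e (nat_lit 426566) (nat_lit 34) (.e (nat_lit 393253) (nat_lit 18) .nil))))) .nil))) (.nd (nat_lit 5) 
(.lf (nat_lit 45534) (.g (nat_lit 3164) (.e (nat_lit 1255) (nat_lit 92) (.e (nat_lit 98350) (nat_lit 24) (.e (nat_lit 409649) (nat_lit 18) (.e (nat_lit 303119) (nat_lit 3) (.e (nat_lit 204863) (nat_lit 27) (.e (nat_lit 352000) (nat_lit 8) .nil)))))) (.g (nat_lit 4) .nil .nil))) 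
(.lf (nat_lit 45566) (.g (nat_lit 2439) (.e (nat_lit 1255) (nat_lit 92) (.e (nat_lit 98365) (nat_lit 26) (.e (nat_lit 426298) (nat_lit 11) (.e (nat_lit 458789) (nat_lit 23) (.e (nat_lit 532555) (nat_lit 13) (.e (nat_lit 368662) (nat_lit 18) (.e (nat_lit 4828) (nat_lit 281) (.e (nat_lit 7936) (nat_lit 81) .nil)))))))) (.g (nat_lit 6) .nil .nil)))))))) 
(.nd (nat_lit 1) (.nd (nat_lit 2) (.nd (nat_lit 3) (.nd (nat_lit 4) (.nd (nat_lit 5) 
(.lf (nat_lit 45505) (.g (nat_lit 2941) (.e (nat_lit 1255) (nat_lit 92) (.e (nat_lit 98342) (nat_lit 20) (.e (nat_lit 221212) (nat_lit 22) (.e (nat_lit 196668) (nat_lit 14) (.e (nat_lit 73747) (nat_lit 3) (.e (nat_lit 516115) (nat_lit 1) (.e (nat_lit 164153) (nat_lit 152) (.e (nat_lit 1027) (nat_lit 81) .nil)))))))) (.g (nat_lit 4) .nil .nil))) 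
(.lf (nat_lit 45537) (.g (nat_lit 2687) (.e (nat_lit 1255) (nat_lit 92) (.e (nat_lit 98356) (nat_lit 26) (.e (nat_lit 426428) (nat_lit 17) (.e (nat_lit 90170) (nat_lit 13) (.e (nat_lit 172065) (nat_lit 3) .nil))))) .nil))) (.nd (nat_lit 5) 
(.lf (nat_lit 45521) (.g (nat_lit 4480) (.e (nat_lit 1255) (nat_lit 92) (.e (nat_lit 98350) (nat_lit 24) (.e (nat_lit 409645) (nat_lit 18) (.e (nat_lit 303119) (nat_lit 3) (.e (nat_lit 204863) (nat_lit 27) (.e (nat_lit 352000) (nat_lit 8) .nil)))))) (.g (nat_lit 5) .nil .nil))) 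
(.lf (nat_lit 45553) (.g (nat_lit 1308) (.e (nat_lit 1255) (nat_lit 92) (.e (nat_lit 98365) (nat_lit 26) (.e (nat_lit 426188) (nat_lit 9) (.e (nat_lit 426484) (nat_lit 27) .nil)))) .nil)))) (.nd (nat_lit 4) (.nd (nat_lit 5) 
(.lf (nat_lit 45513) (.g (nat_lit 1872) (.e (nat_lit 1255) (nat_lit 92) (.e (nat_lit 98342) (nat_lit 20) (.e (nat_lit 221212) (nat_lit 22) (.e (nat_lit 196681) (nat_lit 17) .nil)))) .nil)) 
(.lf (nat_lit 45545) (.g (nat_lit 3295) (.e (nat_lit 1255) (nat_lit 92) (.e (nat_lit 98356) (nat_lit 26) (.e (nat_lit 426438) (nat_lit 18) (.e (nat_lit 98335) (nat_lit 18) (.e (nat_lit 164330) (nat_lit 230) (.e (nat_lit 163873) (nat_lit 3) (.e (nat_lit 204834) (nat_lit 19) (.e (nat_lit 106517) (nat_lit 9) .nil)))))))) (.g (nat_lit 5) .nil .nil)))) (.nd (nat_lit 5) 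
(.lf (nat_lit 45529) (.g (nat_lit 3079) (.e (nat_lit 1255) (nat_lit 92) (.e (nat_lit 98350) (nat_lit 24) (.e (nat_lit 409648) (nat_lit 18) (.e (nat_lit 303118) (nat_lit 3) (.e (nat_lit 204863) (nat_lit 27) .nil))))) .nil)) 
(.lf (nat_lit 45561) (.g (nat_lit 1443) (.e (nat_lit 1255) (nat_lit 92) (.e (nat_lit 98365) (nat_lit 26) (.e (nat_lit 426298) (nat_lit 11) (.e (nat_lit 458789) (nat_lit 23) (.e (nat_lit 532553) (nat_lit 13) (.e (nat_lit 368689) (nat_lit 34) (.e (nat_lit 622604) (nat_lit 5) .nil))))))) (.g (nat_lit 4) .nil .nil)))))) (.nd (nat_lit 3) (.nd (nat_lit 4) (.nd (nat_lit 5) 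
(.lf (nat_lit 45509) (.g (nat_lit 2495) (.e (nat_lit 1255) (nat_lit 92) (.e (nat_lit 98342) (nat_lit 20) (.e (nat_lit 221212) (nat_lit 22) (.e (nat_lit 196670) (nat_lit 14) (.e (nat_lit 73746) (nat_lit 3) (.e (nat_lit 516117) (nat_lit 1) (.e (nat_lit 164147) (nat_lit 152) (.e (nat_lit 1027) (nat_lit 81) .nil)))))))) (.g (nat_lit 4) .nil .nil))) 
(.lf (nat_lit 45541) (.g (nat_lit 2703) (.e (nat_lit 1255) (nat_lit 92) (.e (nat_lit 98356) (nat_lit 26) (.e (nat_lit 426438) (nat_lit 18) (.e (nat_lit 98333) (nat_lit 18) (.e (nat_lit 164325) (nat_lit 230) (.e (nat_lit 163875) (nat_lit 3) (.e (nat_lit 204834) (nat_lit 19) (.e (nat_lit 106517) (nat_lit 9) .nil)))))))) (.g (nat_lit 5) .nil .nil)))) (.nd (nat_lit 5) 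
(.lf (nat_lit 45525) (.g (nat_lit 2551) (.e (nat_lit 1255) (nat_lit 92) (.e (nat_lit 98350) (nat_lit 24) (.e (nat_lit 409646) (nat_lit 18) (.e (nat_lit 303119) (nat_lit 3) (.e (nat_lit 204864) (nat_lit 27) .nil))))) .nil)) 
(.lf (nat_lit 45557) (.g (nat_lit 1079) (.e (nat_lit 1255) (nat_lit 92) (.e (nat_lit 98365) (nat_lit 26) (.e (nat_lit 426188) (nat_lit 9) (.e (nat_lit 426566) (nat_lit 34) .nil)))) .nil)))) (.nd (nat_lit 4) (.nd (nat_lit 5) 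
(.lf (nat_lit 45517) (.g (nat_lit 2396) (.e (nat_lit 1255) (nat_lit 92) (.e (nat_lit 98349) (nat_lit 24) (.e (nat_lit 409645) (nat_lit 18) (.e (nat_lit 303117) (nat_lit 2) (.e (nat_lit 196670) (nat_lit 14) .nil))))) .nil)) 
(.lf (nat_lit 45549) (.g (nat_lit 1434) (.e (nat_lit 1255) (nat_lit 92) (.e (nat_lit 98365) (nat_lit 26) (.e (nat_lit 426187) (nat_lit 9) (.e (nat_lit 426566) (nat_lit 34) (.e (nat_lit 393233) (nat_lit 17) .nil))))) .nil))) (.nd (nat_lit 5) 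
(.lf (nat_lit 45533) (.g (nat_lit 1911) (.e (nat_lit 1255) (nat_lit 92) (.e (nat_lit 98350) (nat_lit 24) (.e (nat_lit 409649) (nat_lit 18) (.e (nat_lit 303119) (nat_lit 3) .nil)))) .nil)) 
(.lf (nat_lit 45565) (.g (nat_lit 1954) (.e (nat_lit 1255) (nat_lit 92) (.e (nat_lit 98365) (nat_lit 26) (.e (nat_lit 426298) (nat_lit 11) (.e (nat_lit 458789) (nat_lit 23) (.e (nat_lit 532555) (nat_lit 13) (.e (nat_lit 368662) (nat_lit 18) (.e (nat_lit 4826) (nat_lit 281) (.e (nat_lit 7936) (nat_lit 81) .nil)))))))) (.g (nat_lit 5) .nil .nil))))))) 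
(.nd (nat_lit 2) (.nd (nat_lit 3) (.nd (nat_lit 4) (.nd (nat_lit 5) 
(.lf (nat_lit 45507) (.g (nat_lit 2491) (.e (nat_lit 1255) (nat_lit 92) (.e (nat_lit 98342) (nat_lit 20) (.e (nat_lit 221212) (nat_lit 22) (.e (nat_lit 196670) (nat_lit 14) (.e (nat_lit 73746) (nat_lit 3) (.e (nat_lit 516115) (nat_lit 1) (.e (nat_lit 164148) (nat_lit 152) (.e (nat_lit 1027) (nat_lit 81) .nil)))))))) (.g (nat_lit 4) .nil .nil))) 
(.lf (nat_lit 45539) (.g (nat_lit 649) (.e (nat_lit 1255) (nat_lit 92) (.e (nat_lit 98356) (nat_lit 26) (.e (nat_lit 426436) (nat_lit 18) .nil))) .nil))) (.nd (nat_lit 5) 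
(.lf (nat_lit 45523) (.g (nat_lit 3065) (.e (nat_lit 1255) (nat_lit 92) (.e (nat_lit 98350) (nat_lit 24) (.e (nat_lit 409646) (nat_lit 18) (.e (nat_lit 303117) (nat_lit 2) (.e (nat_lit 196669) (nat_lit 14) .nil))))) .nil)) 
(.lf (nat_lit 45555) (.g (nat_lit 2435) (.e (nat_lit 1255) (nat_lit 92) (.e (nat_lit 98365) (nat_lit 26) (.e (nat_lit 426188) (nat_lit 9) (.e (nat_lit 426486) (nat_lit 27) (.e (nat_lit 336423) (nat_lit 28) (.e (nat_lit 434276) (nat_lit 39) (.e (nat_lit 671488) (nat_lit 0) .nil))))))) (.g (nat_lit 6) .nil .nil))))) (.nd (nat_lit 4) (.nd (nat_lit 5) 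
(.lf (nat_lit 45515) (.g (nat_lit 3251) (.e (nat_lit 1255) (nat_lit 92) (.e (nat_lit 98344) (nat_lit 21) (.e (nat_lit 229707) (nat_lit 256) (.e (nat_lit 57371) (nat_lit 2) (.e (nat_lit 90174) (nat_lit 14) (.e (nat_lit 180243) (nat_lit 5) (.e (nat_lit 532508) (nat_lit 2) (.e (nat_lit 106517) (nat_lit 9) .nil)))))))) (.g (nat_lit 7) .nil .nil))) 
(.lf (nat_lit 45547) (.g (nat_lit 4166) (.e (nat_lit 1255) (nat_lit 92) (.e (nat_lit 98356) (nat_lit 26) (.e (nat_lit 426438) (nat_lit 18) (.e (nat_lit 98335) (nat_lit 18) (.e (nat_lit 164332) (nat_lit 230) (.e (nat_lit 163874) (nat_lit 3) (.e (nat_lit 204834) (nat_lit 19) (.e (nat_lit 106517) (nat_lit 9) .nil)))))))) (.g (nat_lit 6) .nil .nil)))) (.nd (nat_lit 5) 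
(.lf (nat_lit 45531) (.g (nat_lit 1923) (.e (nat_lit 1255) (nat_lit 92) (.e (nat_lit 98350) (nat_lit 24) (.e (nat_lit 409649) (nat_lit 18) (.e (nat_lit 303118) (nat_lit 3) .nil)))) .nil)) 
(.lf (nat_lit 45563) (.g (nat_lit 1535) (.e (nat_lit 1255) (nat_lit 92) (.e (nat_lit 98365) (nat_lit 26) (.e (nat_lit 426298) (nat_lit 11) (.e (nat_lit 458789) (nat_lit 23) (.e (nat_lit 532553) (nat_lit 13) (.e (nat_lit 368689) (nat_lit 34) (.e (nat_lit 630528) (nat_lit 5) .nil))))))) (.g (nat_lit 4) .nil .nil)))))) (.nd (nat_lit 3) (.nd (nat_lit 4) (.nd (nat_lit 5) 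
(.lf (nat_lit 45511) (.g (nat_lit 2668) (.e (nat_lit 1255) (nat_lit 92) (.e (nat_lit 98342) (nat_lit 20) (.e (nat_lit 221212) (nat_lit 22) (.e (nat_lit 196670) (nat_lit 14) (.e (nat_lit 73746) (nat_lit 3) (.e (nat_lit 516120) (nat_lit 1) (.e (nat_lit 164159) (nat_lit 152) (.e (nat_lit 1027) (nat_lit 81) .nil)))))))) (.g (nat_lit 4) .nil .nil))) 
(.lf (nat_lit 45543) (.g (nat_lit 3177) (.e (nat_lit 1255) (nat_lit 92) (.e (nat_lit 98356) (nat_lit 26) (.e (nat_lit 426438) (nat_lit 18) (.e (nat_lit 98334) (nat_lit 18) (.e (nat_lit 164330) (nat_lit 230) (.e (nat_lit 163873) (nat_lit 3) (.e (nat_lit 204834) (nat_lit 19) (.e (nat_lit 106517) (nat_lit 9) .nil)))))))) (.g (nat_lit 5) .nil .nil)))) (.nd (nat_lit 5) 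
(.lf (nat_lit 45527) (.g (nat_lit 2466) (.e (nat_lit 1255) (nat_lit 92) (.e (nat_lit 98350) (nat_lit 24) (.e (nat_lit 409647) (nat_lit 18) (.e (nat_lit 303119) (nat_lit 3) (.e (nat_lit 204863) (nat_lit 27) .nil))))) .nil)) 
(.lf (nat_lit 45559) (.g (nat_lit 2075) (.e (nat_lit 1255) (nat_lit 92) (.e (nat_lit 98365) (nat_lit 26) (.e (nat_lit 426298) (nat_lit 11) (.e (nat_lit 458789) (nat_lit 23) (.e (nat_lit 532553) (nat_lit 13) (.e (nat_lit 368662) (nat_lit 18) (.e (nat_lit 4826) (nat_lit 281) (.e (nat_lit 7936) (nat_lit 81) .nil)))))))) (.g (nat_lit 5) .nil .nil))))) (.nd (nat_lit 4) (.nd (nat_lit 5) 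
(.lf (nat_lit 45519) (.g (nat_lit 3015) (.e (nat_lit 1255) (nat_lit 92) (.e (nat_lit 98349) (nat_lit 24) (.e (nat_lit 409646) (nat_lit 18) (.e (nat_lit 303117) (nat_lit 2) (.e (nat_lit 196670) (nat_lit 14) .nil))))) .nil)) 
(.lf (nat_lit 45551) (.g (nat_lit 415) (.e (nat_lit 1255) (nat_lit 92) (.e (nat_lit 98365) (nat_lit 26) (.e (nat_lit 426188) (nat_lit 9) .nil))) .nil))) (.nd (nat_lit 5) 
(.lf (nat_lit 45535) (.g (nat_lit 919) (.e (nat_lit 1255) (nat_lit 92) (.e (nat_lit 98356) (nat_lit 26) (.e (nat_lit 426428) (nat_lit 17) .nil))) .nil)) 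
(.lf (nat_lit 45567) (.g (nat_lit 2020) (.e (nat_lit 1255) (nat_lit 92) (.e (nat_lit 98365) (nat_lit 26) (.e (nat_lit 426298) (nat_lit 11) (.e (nat_lit 458789) (nat_lit 23) (.e (nat_lit 532555) (nat_lit 13) (.e (nat_lit 368689) (nat_lit 34) (.e (nat_lit 622598) (nat_lit 5) .nil))))))) (.g (nat_lit 5) .nil .nil)))))))))

noncomputable def tv632 : DT := (.nd (nat_lit 0) (.nd (nat_lit 1) (.nd (nat_lit 2) (.nd (nat_lit 3) (.nd (nat_lit 4) (.nd (nat_lit 5) 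
(.lf (nat_lit 45568) (.g (nat_lit 1653) (.e (nat_lit 1255) (nat_lit 92) (.e (nat_lit 98365) (nat_lit 26) (.e (nat_lit 426298) (nat_lit 11) (.e (nat_lit 458789) (nat_lit 23) (.e (nat_lit 532555) (nat_lit 13) (.e (nat_lit 368689) (nat_lit 34) (.e (nat_lit 622604) (nat_lit 5) .nil))))))) (.g (nat_lit 4) .nil .nil))) 
(.lf (nat_lit 45600) (.g (nat_lit 4631) (.e (nat_lit 1255) (nat_lit 92) (.e (nat_lit 98366) (nat_lit 27) (.e (nat_lit 434244) (nat_lit 28) (.e (nat_lit 573487) (nat_lit 14) (.e (nat_lit 73753) (nat_lit 8) (.e (nat_lit 557089) (nat_lit 12) (.e (nat_lit 164007) (nat_lit 41) (.e (nat_lit 671488) (nat_lit 0) .nil)))))))) (.g (nat_lit 7) .nil .nil)))) (.nd (nat_lit 5) 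
(.lf (nat_lit 45584) (.g (nat_lit 1136) (.e (nat_lit 1255) (nat_lit 92) (.e (nat_lit 98365) (nat_lit 26) (.e (nat_lit 426327) (nat_lit 13) (.e (nat_lit 491264) (nat_lit 10) .nil)))) .nil)) 
(.lf (nat_lit 45616) (.g (nat_lit 2742) (.e (nat_lit 1255) (nat_lit 92) (.e (nat_lit 98366) (nat_lit 27) (.e (nat_lit 434244) (nat_lit 28) (.e (nat_lit 573488) (nat_lit 14) (.e (nat_lit 73755) (nat_lit 8) (.e (nat_lit 557090) (nat_lit 12) (.e (nat_lit 164006) (nat_lit 41) (.e (nat_lit 663559) (nat_lit 0) .nil)))))))) (.g (nat_lit 4) .nil .nil))))) (.nd (nat_lit 4) (.nd (nat_lit 5) 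
(.lf (nat_lit 45576) (.g (nat_lit 1825) (.e (nat_lit 1255) (nat_lit 92) (.e (nat_lit 98365) (nat_lit 26) (.e (nat_lit 426325) (nat_lit 13) (.e (nat_lit 491264) (nat_lit 10) (.e (nat_lit 434276) (nat_lit 39) (.e (nat_lit 671488) (nat_lit 0) .nil)))))) (.g (nat_lit 5) .nil .nil))) 
(.lf (nat_lit 45608) (.g (nat_lit 2846) (.e (nat_lit 1255) (nat_lit 92) (.e (nat_lit 98366) (nat_lit 27) (.e (nat_lit 434244) (nat_lit 28) (.e (nat_lit 573487) (nat_lit 14) (.e (nat_lit 73755) (nat_lit 8) .nil))))) .nil))) (.nd (nat_lit 5) 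
(.lf (nat_lit 45592) (.g (nat_lit 2371) (.e (nat_lit 1255) (nat_lit 92) (.e (nat_lit 98366) (nat_lit 27) (.e (nat_lit 434231) (nat_lit 23) (.e (nat_lit 532514) (nat_lit 3) (.e (nat_lit 114716) (nat_lit 22) (.e (nat_lit 90164) (nat_lit 12) (.e (nat_lit 164006) (nat_lit 41) (.e (nat_lit 671488) (nat_lit 0) .nil)))))))) (.g (nat_lit 5) .nil .nil))) 
(.lf (nat_lit 45624) (.g (nat_lit 4369) (.e (nat_lit 1255) (nat_lit 92) (.e (nat_lit 98366) (nat_lit 27) (.e (nat_lit 434245) (nat_lit 28) (.e (nat_lit 573487) (nat_lit 14) (.e (nat_lit 73753) (nat_lit 8) (.e (nat_lit 557091) (nat_lit 12) (.e (nat_lit 164006) (nat_lit 41) (.e (nat_lit 671488) (nat_lit 0) .nil)))))))) (.g (nat_lit 7) .nil .nil)))))) 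
(.nd (nat_lit 3) (.nd (nat_lit 4) (.nd (nat_lit 5) 
(.lf (nat_lit 45572) (.g (nat_lit 1902) (.e (nat_lit 1255) (nat_lit 92) (.e (nat_lit 98365) (nat_lit 26) (.e (nat_lit 426316) (nat_lit 12) (.e (nat_lit 475185) (nat_lit 29) (.e (nat_lit 557103) (nat_lit 14) .nil))))) .nil)) 
(.lf (nat_lit 45604) (.g (nat_lit 5131) (.e (nat_lit 1255) (nat_lit 92) (.e (nat_lit 98366) (nat_lit 27) (.e (nat_lit 434244) (nat_lit 28) (.e (nat_lit 573487) (nat_lit 14) (.e (nat_lit 73753) (nat_lit 8) (.e (nat_lit 557091) (nat_lit 12) (.e (nat_lit 164006) (nat_lit 41) (.e (nat_lit 671488) (nat_lit 0) .nil)))))))) (.g (nat_lit 7) .nil .nil)))) (.nd (nat_lit 5) 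
(.lf (nat_lit 45588) (.g (nat_lit 3046) (.e (nat_lit 1255) (nat_lit 92) (.e (nat_lit 98366) (nat_lit 27) (.e (nat_lit 434231) (nat_lit 23) (.e (nat_lit 532513) (nat_lit 3) (.e (nat_lit 114714) (nat_lit 22) (.e (nat_lit 90164) (nat_lit 12) (.e (nat_lit 164006) (nat_lit 41) (.e (nat_lit 671488) (nat_lit 0) .nil)))))))) (.g (nat_lit 5) .nil .nil))) 
(.lf (nat_lit 45620) (.g (nat_lit 4120) (.e (nat_lit 1255) (nat_lit 92) (.e (nat_lit 98366) (nat_lit 27) (.e (nat_lit 434245) (nat_lit 28) (.e (nat_lit 573487) (nat_lit 14) (.e (nat_lit 73753) (nat_lit 8) (.e (nat_lit 557089) (nat_lit 12) (.e (nat_lit 164006) (nat_lit 41) (.e (nat_lit 671488) (nat_lit 0) .nil)))))))) (.g (nat_lit 7) .nil .nil))))) (.nd (nat_lit 4) (.nd (nat_lit 5) 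
(.lf (nat_lit 45580) (.g (nat_lit 1833) (.e (nat_lit 1255) (nat_lit 92) (.e (nat_lit 98365) (nat_lit 26) (.e (nat_lit 426325) (nat_lit 13) (.e (nat_lit 483345) (nat_lit 17) (.e (nat_lit 2369) (nat_lit 153) (.e (nat_lit 794676) (nat_lit 24) (.e (nat_lit 220928) (nat_lit 0) .nil))))))) (.g (nat_lit 6) .nil .nil))) 
(.lf (nat_lit 45612) (.g (nat_lit 2507) (.e (nat_lit 1255) (nat_lit 92) (.e (nat_lit 98366) (nat_lit 27) (.e (nat_lit 434244) (nat_lit 28) (.e (nat_lit 573488) (nat_lit 14) (.e (nat_lit 73754) (nat_lit 8) (.e (nat_lit 557094) (nat_lit 12) (.e (nat_lit 164008) (nat_lit 41) (.e (nat_lit 671488) (nat_lit 0) .nil)))))))) (.g (nat_lit 4) .nil .nil)))) (.nd (nat_lit 5) 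
(.lf (nat_lit 45596) (.g (nat_lit 2855) (.e (nat_lit 1255) (nat_lit 92) (.e (nat_lit 98366) (nat_lit 27) (.e (nat_lit 434244) (nat_lit 28) (.e (nat_lit 573487) (nat_lit 14) (.e (nat_lit 73753) (nat_lit 8) (.e (nat_lit 557089) (nat_lit 12) (.e (nat_lit 164005) (nat_lit 41) (.e (nat_lit 663560) (nat_lit 0) .nil)))))))) (.g (nat_lit 4) .nil .nil))) 
(.lf (nat_lit 45628) (.g (nat_lit 3663) (.e (nat_lit 1255) (nat_lit 92) (.e (nat_lit 98366) (nat_lit 27) (.e (nat_lit 434245) (nat_lit 28) (.e (nat_lit 573488) (nat_lit 14) (.e (nat_lit 73755) (nat_lit 8) (.e (nat_lit 557089) (nat_lit 12) (.e (nat_lit 164006) (nat_lit 41) (.e (nat_lit 671488) (nat_lit 0) .nil)))))))) (.g (nat_lit 6) .nil .nil))))))) 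
(.nd (nat_lit 2) (.nd (nat_lit 3) (.nd (nat_lit 4) (.nd (nat_lit 5) 
(.lf (nat_lit 45570) (.g (nat_lit 1904) (.e (nat_lit 1255) (nat_lit 92) (.e (nat_lit 98365) (nat_lit 26) (.e (nat_lit 426306) (nat_lit 12) (.e (nat_lit 475183) (nat_lit 29) (.e (nat_lit 557104) (nat_lit 14) .nil))))) .nil)) 
(.lf (nat_lit 45602) (.g (nat_lit 2775) (.e (nat_lit 1255) (nat_lit 92) (.e (nat_lit 98366) (nat_lit 27) (.e (nat_lit 434244) (nat_lit 28) (.e (nat_lit 573487) (nat_lit 14) (.e (nat_lit 73753) (nat_lit 8) (.e (nat_lit 557091) (nat_lit 12) (.e (nat_lit 164004) (nat_lit 41) (.e (nat_lit 671488) (nat_lit 0) .nil)))))))) (.g (nat_lit 4) .nil .nil)))) (.nd (nat_lit 5) 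
(.lf (nat_lit 45586) (.g (nat_lit 3752) (.e (nat_lit 1255) (nat_lit 92) (.e (nat_lit 98366) (nat_lit 27) (.e (nat_lit 434231) (nat_lit 23) (.e (nat_lit 532513) (nat_lit 3) (.e (nat_lit 114714) (nat_lit 22) (.e (nat_lit 90162) (nat_lit 12) (.e (nat_lit 164007) (nat_lit 41) (.e (nat_lit 663560) (nat_lit 0) .nil)))))))) (.g (nat_lit 8) .nil .nil))) 
(.lf (nat_lit 45618) (.g (nat_lit 3854) (.e (nat_lit 1255) (nat_lit 92) (.e (nat_lit 98366) (nat_lit 27) (.e (nat_lit 434244) (nat_lit 28) (.e (nat_lit 573488) (nat_lit 14) (.e (nat_lit 73755) (nat_lit 8) (.e (nat_lit 557091) (nat_lit 12) (.e (nat_lit 164008) (nat_lit 41) (.e (nat_lit 671488) (nat_lit 0) .nil)))))))) (.g (nat_lit 5) .nil .nil))))) (.nd (nat_lit 4) (.nd (nat_lit 5) 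
(.lf (nat_lit 45578) (.g (nat_lit 1345) (.e (nat_lit 1255) (nat_lit 92) (.e (nat_lit 98365) (nat_lit 26) (.e (nat_lit 426325) (nat_lit 13) (.e (nat_lit 483345) (nat_lit 17) (.e (nat_lit 2366) (nat_lit 153) .nil))))) .nil)) 
(.lf (nat_lit 45610) (.g (nat_lit 2960) (.e (nat_lit 1255) (nat_lit 92) (.e (nat_lit 98366) (nat_lit 27) (.e (nat_lit 434244) (nat_lit 28) (.e (nat_lit 573488) (nat_lit 14) (.e (nat_lit 73753) (nat_lit 8) .nil))))) .nil))) (.nd (nat_lit 5) 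
(.lf (nat_lit 45594) (.g (nat_lit 2506) (.e (nat_lit 1255) (nat_lit 92) (.e (nat_lit 98366) (nat_lit 27) (.e (nat_lit 434244) (nat_lit 28) (.e (nat_lit 573487) (nat_lit 14) (.e (nat_lit 81664) (nat_lit 5) .nil))))) .nil)) 
(.lf (nat_lit 45626) (.g (nat_lit 2821) (.e (nat_lit 1255) (nat_lit 92) (.e (nat_lit 98366) (nat_lit 27) (.e (nat_lit 434245) (nat_lit 28) (.e (nat_lit 573487) (nat_lit 14) (.e (nat_lit 73753) (nat_lit 8) (.e (nat_lit 557094) (nat_lit 12) (.e (nat_lit 164010) (nat_lit 41) (.e (nat_lit 671488) (nat_lit 0) .nil)))))))) (.g (nat_lit 5) .nil .nil)))))) 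
(.nd (nat_lit 3) (.nd (nat_lit 4) (.nd (nat_lit 5) 
(.lf (nat_lit 45574) (.g (nat_lit 436) (.e (nat_lit 1255) (nat_lit 92) (.e (nat_lit 98365) (nat_lit 26) (.e (nat_lit 426325) (nat_lit 13) .nil))) .nil)) 
(.lf (nat_lit 45606) (.g (nat_lit 4222) (.e (nat_lit 1255) (nat_lit 92) (.e (nat_lit 98366) (nat_lit 27) (.e (nat_lit 434244) (nat_lit 28) (.e (nat_lit 573487) (nat_lit 14) (.e (nat_lit 73753) (nat_lit 8) (.e (nat_lit 557094) (nat_lit 12) (.e (nat_lit 164008) (nat_lit 41) (.e (nat_lit 671488) (nat_lit 0) .nil)))))))) (.g (nat_lit 6) .nil .nil)))) (.nd (nat_lit 5) 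
(.lf (nat_lit 45590) (.g (nat_lit 1871) (.e (nat_lit 1255) (nat_lit 92) (.e (nat_lit 98366) (nat_lit 27) (.e (nat_lit 434231) (nat_lit 23) (.e (nat_lit 532514) (nat_lit 3) (.e (nat_lit 114716) (nat_lit 22) .nil))))) .nil)) 
(.lf (nat_lit 45622) (.g (nat_lit 3897) (.e (nat_lit 1255) (nat_lit 92) (.e (nat_lit 98366) (nat_lit 27) (.e (nat_lit 434245) (nat_lit 28) (.e (nat_lit 573487) (nat_lit 14) (.e (nat_lit 73753) (nat_lit 8) (.e (nat_lit 557089) (nat_lit 12) (.e (nat_lit 164007) (nat_lit 41) (.e (nat_lit 671488) (nat_lit 0) .nil)))))))) (.g (nat_lit 6) .nil .nil))))) (.nd (nat_lit 4) (.nd (nat_lit 5) 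
(.lf (nat_lit 45582) (.g (nat_lit 1501) (.e (nat_lit 1255) (nat_lit 92) (.e (nat_lit 98365) (nat_lit 26) (.e (nat_lit 426326) (nat_lit 13) (.e (nat_lit 491264) (nat_lit 10) (.e (nat_lit 434275) (nat_lit 39) (.e (nat_lit 671488) (nat_lit 0) .nil)))))) (.g (nat_lit 5) .nil .nil))) 
(.lf (nat_lit 45614) (.g (nat_lit 3868) (.e (nat_lit 1255) (nat_lit 92) (.e (nat_lit 98366) (nat_lit 27) (.e (nat_lit 434244) (nat_lit 28) (.e (nat_lit 573488) (nat_lit 14) (.e (nat_lit 73755) (nat_lit 8) (.e (nat_lit 557089) (nat_lit 12) (.e (nat_lit 164007) (nat_lit 41) (.e (nat_lit 663560) (nat_lit 0) .nil)))))))) (.g (nat_lit 5) .nil .nil)))) (.nd (nat_lit 5) 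
(.lf (nat_lit 45598) (.g (nat_lit 4854) (.e (nat_lit 1255) (nat_lit 92) (.e (nat_lit 98366) (nat_lit 27) (.e (nat_lit 434244) (nat_lit 28) (.e (nat_lit 573487) (nat_lit 14) (.e (nat_lit 73753) (nat_lit 8) (.e (nat_lit 557089) (nat_lit 12) (.e (nat_lit 164006) (nat_lit 41) (.e (nat_lit 671488) (nat_lit 0) .nil)))))))) (.g (nat_lit 7) .nil .nil))) 
(.lf (nat_lit 45630) (.g (nat_lit 3890) (.e (nat_lit 1255) (nat_lit 92) (.e (nat_lit 98366) (nat_lit 27) (.e (nat_lit 434245) (nat_lit 28) (.e (nat_lit 573488) (nat_lit 14) (.e (nat_lit 73755) (nat_lit 8) (.e (nat_lit 557090) (nat_lit 12) (.e (nat_lit 164006) (nat_lit 41) (.e (nat_lit 671488) (nat_lit 0) .nil)))))))) (.g (nat_lit 6) .nil .nil)))))))) 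
(.nd (nat_lit 1) (.nd (nat_lit 2) (.nd (nat_lit 3) (.nd (nat_lit 4) (.nd (nat_lit 5) 
(.lf (nat_lit 45569) (.g (nat_lit 2380) (.e (nat_lit 1255) (nat_lit 92) (.e (nat_lit 98365) (nat_lit 26) (.e (nat_lit 426298) (nat_lit 11) (.e (nat_lit 458789) (nat_lit 23) (.e (nat_lit 532555) (nat_lit 13) (.e (nat_lit 368689) (nat_lit 34) (.e (nat_lit 622605) (nat_lit 5) .nil))))))) (.g (nat_lit 7) .nil .nil))) 
(.lf (nat_lit 45601) (.g (nat_lit 4446) (.e (nat_lit 1255) (nat_lit 92) (.e (nat_lit 98366) (nat_lit 27) (.e (nat_lit 434244) (nat_lit 28) (.e (nat_lit 573487) (nat_lit 14) (.e (nat_lit 73753) (nat_lit 8) (.e (nat_lit 557089) (nat_lit 12) (.e (nat_lit 164010) (nat_lit 41) (.e (nat_lit 671488) (nat_lit 0) .nil)))))))) (.g (nat_lit 6) .nil .nil)))) (.nd (nat_lit 5) 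
(.lf (nat_lit 45585) (.g (nat_lit 1871) (.e (nat_lit 1255) (nat_lit 92) (.e (nat_lit 98365) (nat_lit 26) (.e (nat_lit 426327) (nat_lit 13) (.e (nat_lit 491264) (nat_lit 10) (.e (nat_lit 434276) (nat_lit 39) (.e (nat_lit 671488) (nat_lit 0) .nil)))))) (.g (nat_lit 5) .nil .nil))) 
(.lf (nat_lit 45617) (.g (nat_lit 4586) (.e (nat_lit 1255) (nat_lit 92) (.e (nat_lit 98366) (nat_lit 27) (.e (nat_lit 434244) (nat_lit 28) (.e (nat_lit 573488) (nat_lit 14) (.e (nat_lit 73755) (nat_lit 8) (.e (nat_lit 557090) (nat_lit 12) (.e (nat_lit 164006) (nat_lit 41) (.e (nat_lit 671488) (nat_lit 0) .nil)))))))) (.g (nat_lit 6) .nil .nil))))) (.nd (nat_lit 4) (.nd (nat_lit 5) 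
(.lf (nat_lit 45577) (.g (nat_lit 1687) (.e (nat_lit 1255) (nat_lit 92) (.e (nat_lit 98365) (nat_lit 26) (.e (nat_lit 426325) (nat_lit 13) (.e (nat_lit 491264) (nat_lit 10) (.e (nat_lit 434279) (nat_lit 39) (.e (nat_lit 671488) (nat_lit 0) .nil)))))) (.g (nat_lit 5) .nil .nil))) 
(.lf (nat_lit 45609) (.g (nat_lit 2584) (.e (nat_lit 1255) (nat_lit 92) (.e (nat_lit 98366) (nat_lit 27) (.e (nat_lit 434244) (nat_lit 28) (.e (nat_lit 573488) (nat_lit 14) (.e (nat_lit 81664) (nat_lit 5) .nil))))) .nil))) (.nd (nat_lit 5) 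
(.lf (nat_lit 45593) (.g (nat_lit 2162) (.e (nat_lit 1255) (nat_lit 92) (.e (nat_lit 98366) (nat_lit 27) (.e (nat_lit 434231) (nat_lit 23) (.e (nat_lit 532514) (nat_lit 3) (.e (nat_lit 114716) (nat_lit 22) (.e (nat_lit 90181) (nat_lit 16) (.e (nat_lit 229449) (nat_lit 41) (.e (nat_lit 663560) (nat_lit 0) .nil)))))))) (.g (nat_lit 4) .nil .nil))) 
(.lf (nat_lit 45625) (.g (nat_lit 3460) (.e (nat_lit 1255) (nat_lit 92) (.e (nat_lit 98366) (nat_lit 27) (.e (nat_lit 434245) (nat_lit 28) (.e (nat_lit 573487) (nat_lit 14) (.e (nat_lit 73753) (nat_lit 8) (.e (nat_lit 557094) (nat_lit 12) (.e (nat_lit 164008) (nat_lit 41) (.e (nat_lit 671488) (nat_lit 0) .nil)))))))) (.g (nat_lit 6) .nil .nil)))))) 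
(.nd (nat_lit 3) (.nd (nat_lit 4) (.nd (nat_lit 5) 
(.lf (nat_lit 45573) (.g (nat_lit 1837) (.e (nat_lit 1255) (nat_lit 92) (.e (nat_lit 98365) (nat_lit 26) (.e (nat_lit 426316) (nat_lit 12) (.e (nat_lit 475185) (nat_lit 29) (.e (nat_lit 557105) (nat_lit 14) .nil))))) .nil)) 
(.lf (nat_lit 45605) (.g (nat_lit 2750) (.e (nat_lit 1255) (nat_lit 92) (.e (nat_lit 98366) (nat_lit 27) (.e (nat_lit 434244) (nat_lit 28) (.e (nat_lit 573487) (nat_lit 14) (.e (nat_lit 73753) (nat_lit 8) (.e (nat_lit 557093) (nat_lit 12) (.e (nat_lit 164009) (nat_lit 41) (.e (nat_lit 671488) (nat_lit 0) .nil)))))))) (.g (nat_lit 4) .nil .nil)))) (.nd (nat_lit 5) 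
(.lf (nat_lit 45589) (.g (nat_lit 2044) (.e (nat_lit 1255) (nat_lit 92) (.e (nat_lit 98366) (nat_lit 27) (.e (nat_lit 434231) (nat_lit 23) (.e (nat_lit 532514) (nat_lit 3) (.e (nat_lit 114715) (nat_lit 22) (.e (nat_lit 90165) (nat_lit 12) (.e (nat_lit 164010) (nat_lit 41) (.e (nat_lit 671488) (nat_lit 0) .nil)))))))) (.g (nat_lit 4) .nil .nil))) 
(.lf (nat_lit 45621) (.g (nat_lit 3979) (.e (nat_lit 1255) (nat_lit 92) (.e (nat_lit 98366) (nat_lit 27) (.e (nat_lit 434245) (nat_lit 28) (.e (nat_lit 573487) (nat_lit 14) (.e (nat_lit 73753) (nat_lit 8) (.e (nat_lit 557089) (nat_lit 12) (.e (nat_lit 164007) (nat_lit 41) (.e (nat_lit 663560) (nat_lit 0) .nil)))))))) (.g (nat_lit 6) .nil .nil))))) (.nd (nat_lit 4) (.nd (nat_lit 5) 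
(.lf (nat_lit 45581) (.g (nat_lit 914) (.e (nat_lit 1255) (nat_lit 92) (.e (nat_lit 98365) (nat_lit 26) (.e (nat_lit 426326) (nat_lit 13) (.e (nat_lit 491264) (nat_lit 10) .nil)))) .nil)) 
(.lf (nat_lit 45613) (.g (nat_lit 4325) (.e (nat_lit 1255) (nat_lit 92) (.e (nat_lit 98366) (nat_lit 27) (.e (nat_lit 434244) (nat_lit 28) (.e (nat_lit 573488) (nat_lit 14) (.e (nat_lit 73755) (nat_lit 8) (.e (nat_lit 557089) (nat_lit 12) (.e (nat_lit 164006) (nat_lit 41) (.e (nat_lit 671488) (nat_lit 0) .nil)))))))) (.g (nat_lit 6) .nil .nil)))) (.nd (nat_lit 5) 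
(.lf (nat_lit 45597) (.g (nat_lit 2679) (.e (nat_lit 1255) (nat_lit 92) (.e (nat_lit 98366) (nat_lit 27) (.e (nat_lit 434244) (nat_lit 28) (.e (nat_lit 573487) (nat_lit 14) (.e (nat_lit 73753) (nat_lit 8) (.e (nat_lit 557089) (nat_lit 12) (.e (nat_lit 164006) (nat_lit 41) (.e (nat_lit 663559) (nat_lit 0) .nil)))))))) (.g (nat_lit 4) .nil .nil))) 
(.lf (nat_lit 45629) (.g (nat_lit 3682) (.e (nat_lit 1255) (nat_lit 92) (.e (nat_lit 98366) (nat_lit 27) (.e (nat_lit 434245) (nat_lit 28) (.e (nat_lit 573488) (nat_lit 14) (.e (nat_lit 73755) (nat_lit 8) (.e (nat_lit 557090) (nat_lit 12) (.e (nat_lit 164005) (nat_lit 41) (.e (nat_lit 671488) (nat_lit 0) .nil)))))))) (.g (nat_lit 6) .nil .nil))))))) 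
(.nd (nat_lit 2) (.nd (nat_lit 3) (.nd (nat_lit 4) (.nd (nat_lit 5) 
(.lf (nat_lit 45571) (.g (nat_lit 1156) (.e (nat_lit 1255) (nat_lit 92) (.e (nat_lit 98365) (nat_lit 26) (.e (nat_lit 426306) (nat_lit 12) (.e (nat_lit 475184) (nat_lit 29) .nil)))) .nil)) 
(.lf (nat_lit 45603) (.g (nat_lit 2840) (.e (nat_lit 1255) (nat_lit 92) (.e (nat_lit 98366) (nat_lit 27) (.e (nat_lit 434244) (nat_lit 28) (.e (nat_lit 573487) (nat_lit 14) (.e (nat_lit 73753) (nat_lit 8) (.e (nat_lit 557091) (nat_lit 12) (.e (nat_lit 164006) (nat_lit 41) (.e (nat_lit 663560) (nat_lit 0) .nil)))))))) (.g (nat_lit 4) .nil .nil)))) (.nd (nat_lit 5) 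
(.lf (nat_lit 45587) (.g (nat_lit 3488) (.e (nat_lit 1255) (nat_lit 92) (.e (nat_lit 98366) (nat_lit 27) (.e (nat_lit 434231) (nat_lit 23) (.e (nat_lit 532513) (nat_lit 3) (.e (nat_lit 114714) (nat_lit 22) (.e (nat_lit 90162) (nat_lit 12) (.e (nat_lit 164007) (nat_lit 41) (.e (nat_lit 671488) (nat_lit 0) .nil)))))))) (.g (nat_lit 7) .nil .nil))) 
(.lf (nat_lit 45619) (.g (nat_lit 430) (.e (nat_lit 1255) (nat_lit 92) (.e (nat_lit 98366) (nat_lit 27) (.e (nat_lit 434245) (nat_lit 28) .nil))) .nil)))) (.nd (nat_lit 4) (.nd (nat_lit 5) 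
(.lf (nat_lit 45579) (.g (nat_lit 1345) (.e (nat_lit 1255) (nat_lit 92) (.e (nat_lit 98365) (nat_lit 26) (.e (nat_lit 426325) (nat_lit 13) (.e (nat_lit 483345) (nat_lit 17) (.e (nat_lit 2368) (nat_lit 153) .nil))))) .nil)) 
(.lf (nat_lit 45611) (.g (nat_lit 2440) (.e (nat_lit 1255) (nat_lit 92) (.e (nat_lit 98366) (nat_lit 27) (.e (nat_lit 434244) (nat_lit 28) (.e (nat_lit 573488) (nat_lit 14) (.e (nat_lit 73754) (nat_lit 8) .nil))))) .nil))) (.nd (nat_lit 5) 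
(.lf (nat_lit 45595) (.g (nat_lit 2544) (.e (nat_lit 1255) (nat_lit 92) (.e (nat_lit 98366) (nat_lit 27) (.e (nat_lit 434244) (nat_lit 28) (.e (nat_lit 573487) (nat_lit 14) (.e (nat_lit 73753) (nat_lit 8) .nil))))) .nil)) 
(.lf (nat_lit 45627) (.g (nat_lit 1388) (.e (nat_lit 1255) (nat_lit 92) (.e (nat_lit 98366) (nat_lit 27) (.e (nat_lit 434245) (nat_lit 28) (.e (nat_lit 573488) (nat_lit 14) (.e (nat_lit 73754) (nat_lit 8) .nil))))) .nil))))) (.nd (nat_lit 3) (.nd (nat_lit 4) (.nd (nat_lit 5) 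
(.lf (nat_lit 45575) (.g (nat_lit 1902) (.e (nat_lit 1255) (nat_lit 92) (.e (nat_lit 98365) (nat_lit 26) (.e (nat_lit 426325) (nat_lit 13) (.e (nat_lit 491264) (nat_lit 10) (.e (nat_lit 434275) (nat_lit 39) (.e (nat_lit 671488) (nat_lit 0) .nil)))))) (.g (nat_lit 5) .nil .nil))) 
(.lf (nat_lit 45607) (.g (nat_lit 3583) (.e (nat_lit 1255) (nat_lit 92) (.e (nat_lit 98366) (nat_lit 27) (.e (nat_lit 434244) (nat_lit 28) (.e (nat_lit 573487) (nat_lit 14) (.e (nat_lit 73753) (nat_lit 8) (.e (nat_lit 557094) (nat_lit 12) (.e (nat_lit 164010) (nat_lit 41) (.e (nat_lit 671488) (nat_lit 0) .nil)))))))) (.g (nat_lit 5) .nil .nil)))) (.nd (nat_lit 5) 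
(.lf (nat_lit 45591) (.g (nat_lit 2067) (.e (nat_lit 1255) (nat_lit 92) (.e (nat_lit 98366) (nat_lit 27) (.e (nat_lit 434231) (nat_lit 23) (.e (nat_lit 532514) (nat_lit 3) (.e (nat_lit 114716) (nat_lit 22) (.e (nat_lit 90162) (nat_lit 12) (.e (nat_lit 164007) (nat_lit 41) (.e (nat_lit 671488) (nat_lit 0) .nil)))))))) (.g (nat_lit 4) .nil .nil))) 
(.lf (nat_lit 45623) (.g (nat_lit 3712) (.e (nat_lit 1255) (nat_lit 92) (.e (nat_lit 98366) (nat_lit 27) (.e (nat_lit 434245) (nat_lit 28) (.e (nat_lit 573487) (nat_lit 14) (.e (nat_lit 73753) (nat_lit 8) (.e (nat_lit 557089) (nat_lit 12) (.e (nat_lit 164010) (nat_lit 41) (.e (nat_lit 671488) (nat_lit 0) .nil)))))))) (.g (nat_lit 6) .nil .nil))))) (.nd (nat_lit 4) (.nd (nat_lit 5) 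
(.lf (nat_lit 45583) (.g (nat_lit 1657) (.e (nat_lit 1255) (nat_lit 92) (.e (nat_lit 98365) (nat_lit 26) (.e (nat_lit 426326) (nat_lit 13) (.e (nat_lit 491264) (nat_lit 10) (.e (nat_lit 434276) (nat_lit 39) (.e (nat_lit 671488) (nat_lit 0) .nil)))))) (.g (nat_lit 5) .nil .nil))) 
(.lf (nat_lit 45615) (.g (nat_lit 3789) (.e (nat_lit 1255) (nat_lit 92) (.e (nat_lit 98366) (nat_lit 27) (.e (nat_lit 434244) (nat_lit 28) (.e (nat_lit 573488) (nat_lit 14) (.e (nat_lit 73755) (nat_lit 8) (.e (nat_lit 557089) (nat_lit 12) (.e (nat_lit 164007) (nat_lit 41) (.e (nat_lit 671488) (nat_lit 0) .nil)))))))) (.g (nat_lit 5) .nil .nil)))) (.nd (nat_lit 5) 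
(.lf (nat_lit 45599) (.g (nat_lit 4709) (.e (nat_lit 1255) (nat_lit 92) (.e (nat_lit 98366) (nat_lit 27) (.e (nat_lit 434244) (nat_lit 28) (.e (nat_lit 573487) (nat_lit 14) (.e (nat_lit 73753) (nat_lit 8) (.e (nat_lit 557089) (nat_lit 12) (.e (nat_lit 164007) (nat_lit 41) (.e (nat_lit 663560) (nat_lit 0) .nil)))))))) (.g (nat_lit 7) .nil .nil))) 
(.lf (nat_lit 45631) (.g (nat_lit 3575) (.e (nat_lit 1255) (nat_lit 92) (.e (nat_lit 98366) (nat_lit 27) (.e (nat_lit 434245) (nat_lit 28) (.e (nat_lit 573488) (nat_lit 14) (.e (nat_lit 73755) (nat_lit 8) (.e (nat_lit 557090) (nat_lit 12) (.e (nat_lit 164007) (nat_lit 41) (.e (nat_lit 663560) (nat_lit 0) .nil)))))))) (.g (nat_lit 6) .nil .nil)))))))))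

noncomputable def tv633 : DT := (.nd (nat_lit 0) (.nd (nat_lit 1) (.nd (nat_lit 2) (.nd (nat_lit 3) (.nd (nat_lit 4) (.nd (nat_lit 5) 
(.lf (nat_lit 45632) (.g (nat_lit 3350) (.e (nat_lit 1255) (nat_lit 92) (.e (nat_lit 98366) (nat_lit 27) (.e (nat_lit 434245) (nat_lit 28) (.e (nat_lit 573488) (nat_lit 14) (.e (nat_lit 73755) (nat_lit 8) (.e (nat_lit 557090) (nat_lit 12) (.e (nat_lit 164007) (nat_lit 41) (.e (nat_lit 671488) (nat_lit 0) .nil)))))))) (.g (nat_lit 6) .nil .nil))) 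
(.lf (nat_lit 45664) (.g (nat_lit 2263) (.e (nat_lit 1255) (nat_lit 92) (.e (nat_lit 98366) (nat_lit 27) (.e (nat_lit 434248) (nat_lit 28) (.e (nat_lit 573487) (nat_lit 14) (.e (nat_lit 73753) (nat_lit 8) (.e (nat_lit 557093) (nat_lit 12) (.e (nat_lit 164009) (nat_lit 41) (.e (nat_lit 671488) (nat_lit 0) .nil)))))))) (.g (nat_lit 4) .nil .nil)))) (.nd (nat_lit 5) 
(.lf (nat_lit 45648) (.g (nat_lit 4320) (.e (nat_lit 1255) (nat_lit 92) (.e (nat_lit 98366) (nat_lit 27) (.e (nat_lit 434247) (nat_lit 28) (.e (nat_lit 573489) (nat_lit 14) (.e (nat_lit 73755) (nat_lit 8) (.e (nat_lit 557091) (nat_lit 12) (.e (nat_lit 164006) (nat_lit 41) (.e (nat_lit 671488) (nat_lit 0) .nil)))))))) (.g (nat_lit 7) .nil .nil))) 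
(.lf (nat_lit 45680) (.g (nat_lit 2099) (.e (nat_lit 1255) (nat_lit 92) (.e (nat_lit 98367) (nat_lit 27) (.e (nat_lit 434231) (nat_lit 23) (.e (nat_lit 532514) (nat_lit 3) (.e (nat_lit 114715) (nat_lit 22) .nil))))) .nil)))) (.nd (nat_lit 4) (.nd (nat_lit 5) 
(.lf (nat_lit 45640) (.g (nat_lit 4402) (.e (nat_lit 1255) (nat_lit 92) (.e (nat_lit 98366) (nat_lit 27) (.e (nat_lit 434247) (nat_lit 28) (.e (nat_lit 573489) (nat_lit 14) (.e (nat_lit 73755) (nat_lit 8) (.e (nat_lit 557089) (nat_lit 12) (.e (nat_lit 164006) (nat_lit 41) (.e (nat_lit 671488) (nat_lit 0) .nil)))))))) (.g (nat_lit 7) .nil .nil))) 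
(.lf (nat_lit 45672) (.g (nat_lit 4134) (.e (nat_lit 1255) (nat_lit 92) (.e (nat_lit 98366) (nat_lit 27) (.e (nat_lit 434248) (nat_lit 28) (.e (nat_lit 573489) (nat_lit 14) (.e (nat_lit 73755) (nat_lit 8) (.e (nat_lit 557089) (nat_lit 12) (.e (nat_lit 164007) (nat_lit 41) (.e (nat_lit 663560) (nat_lit 0) .nil)))))))) (.g (nat_lit 5) .nil .nil)))) (.nd (nat_lit 5) 
(.lf (nat_lit 45656) (.g (nat_lit 4331) (.e (nat_lit 1255) (nat_lit 92) (.e (nat_lit 98366) (nat_lit 27) (.e (nat_lit 434248) (nat_lit 28) (.e (nat_lit 573487) (nat_lit 14) (.e (nat_lit 73753) (nat_lit 8) (.e (nat_lit 557089) (nat_lit 12) (.e (nat_lit 164006) (nat_lit 41) (.e (nat_lit 671488) (nat_lit 0) .nil)))))))) (.g (nat_lit 7) .nil .nil))) 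
(.lf (nat_lit 45688) (.g (nat_lit 831) (.e (nat_lit 1255) (nat_lit 92) (.e (nat_lit 98367) (nat_lit 27) (.e (nat_lit 434243) (nat_lit 28) .nil))) .nil))))) (.nd (nat_lit 3) (.nd (nat_lit 4) (.nd (nat_lit 5) 
(.lf (nat_lit 45636) (.g (nat_lit 1932) (.e (nat_lit 1255) (nat_lit 92) (.e (nat_lit 98366) (nat_lit 27) (.e (nat_lit 434247) (nat_lit 28) (.e (nat_lit 573489) (nat_lit 14) (.e (nat_lit 73754) (nat_lit 8) .nil))))) .nil)) 
(.lf (nat_lit 45668) (.g (nat_lit 2401) (.e (nat_lit 1255) (nat_lit 92) (.e (nat_lit 98366) (nat_lit 27) (.e (nat_lit 434248) (nat_lit 28) (.e (nat_lit 573487) (nat_lit 14) (.e (nat_lit 73755) (nat_lit 8) .nil))))) .nil))) (.nd (nat_lit 5) 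
(.lf (nat_lit 45652) (.g (nat_lit 1906) (.e (nat_lit 1255) (nat_lit 92) (.e (nat_lit 98366) (nat_lit 27) (.e (nat_lit 434248) (nat_lit 28) (.e (nat_lit 573487) (nat_lit 14) (.e (nat_lit 81664) (nat_lit 5) .nil))))) .nil)) 
(.lf (nat_lit 45684) (.g (nat_lit 2095) (.e (nat_lit 1255) (nat_lit 92) (.e (nat_lit 98367) (nat_lit 27) (.e (nat_lit 434231) (nat_lit 23) (.e (nat_lit 532514) (nat_lit 3) (.e (nat_lit 114716) (nat_lit 22) (.e (nat_lit 90181) (nat_lit 16) (.e (nat_lit 229449) (nat_lit 41) (.e (nat_lit 663560) (nat_lit 0) .nil)))))))) (.g (nat_lit 4) .nil .nil))))) (.nd (nat_lit 4) (.nd (nat_lit 5) 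
(.lf (nat_lit 45644) (.g (nat_lit 3857) (.e (nat_lit 1255) (nat_lit 92) (.e (nat_lit 98366) (nat_lit 27) (.e (nat_lit 434247) (nat_lit 28) (.e (nat_lit 573489) (nat_lit 14) (.e (nat_lit 73755) (nat_lit 8) (.e (nat_lit 557090) (nat_lit 12) (.e (nat_lit 164007) (nat_lit 41) (.e (nat_lit 663560) (nat_lit 0) .nil)))))))) (.g (nat_lit 5) .nil .nil))) 
(.lf (nat_lit 45676) (.g (nat_lit 4584) (.e (nat_lit 1255) (nat_lit 92) (.e (nat_lit 98366) (nat_lit 27) (.e (nat_lit 434248) (nat_lit 28) (.e (nat_lit 573489) (nat_lit 14) (.e (nat_lit 73755) (nat_lit 8) (.e (nat_lit 557090) (nat_lit 12) (.e (nat_lit 164007) (nat_lit 41) (.e (nat_lit 671488) (nat_lit 0) .nil)))))))) (.g (nat_lit 7) .nil .nil)))) (.nd (nat_lit 5) 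
(.lf (nat_lit 45660) (.g (nat_lit 3923) (.e (nat_lit 1255) (nat_lit 92) (.e (nat_lit 98366) (nat_lit 27) (.e (nat_lit 434248) (nat_lit 28) (.e (nat_lit 573487) (nat_lit 14) (.e (nat_lit 73753) (nat_lit 8) (.e (nat_lit 557089) (nat_lit 12) (.e (nat_lit 164010) (nat_lit 41) (.e (nat_lit 671488) (nat_lit 0) .nil)))))))) (.g (nat_lit 6) .nil .nil))) 
(.lf (nat_lit 45692) (.g (nat_lit 3537) (.e (nat_lit 1255) (nat_lit 92) (.e (nat_lit 98367) (nat_lit 27) (.e (nat_lit 434244) (nat_lit 28) (.e (nat_lit 573487) (nat_lit 14) (.e (nat_lit 73753) (nat_lit 8) (.e (nat_lit 557089) (nat_lit 12) (.e (nat_lit 164007) (nat_lit 41) (.e (nat_lit 671488) (nat_lit 0) .nil)))))))) (.g (nat_lit 5) .nil .nil))))))) 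
(.nd (nat_lit 2) (.nd (nat_lit 3) (.nd (nat_lit 4) (.nd (nat_lit 5) 
(.lf (nat_lit 45634) (.g (nat_lit 2096) (.e (nat_lit 1255) (nat_lit 92) (.e (nat_lit 98366) (nat_lit 27) (.e (nat_lit 434247) (nat_lit 28) (.e (nat_lit 573487) (nat_lit 14) (.e (nat_lit 73753) (nat_lit 8) (.e (nat_lit 557089) (nat_lit 12) (.e (nat_lit 164006) (nat_lit 41) (.e (nat_lit 671488) (nat_lit 0) .nil)))))))) (.g (nat_lit 4) .nil .nil))) 
(.lf (nat_lit 45666) (.g (nat_lit 3735) (.e (nat_lit 1255) (nat_lit 92) (.e (nat_lit 98366) (nat_lit 27) (.e (nat_lit 434248) (nat_lit 28) (.e (nat_lit 573487) (nat_lit 14) (.e (nat_lit 73753) (nat_lit 8) (.e (nat_lit 557094) (nat_lit 12) (.e (nat_lit 164008) (nat_lit 41) (.e (nat_lit 671488) (nat_lit 0) .nil)))))))) (.g (nat_lit 7) .nil .nil)))) (.nd (nat_lit 5) 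
(.lf (nat_lit 45650) (.g (nat_lit 3604) (.e (nat_lit 1255) (nat_lit 92) (.e (nat_lit 98366) (nat_lit 27) (.e (nat_lit 434247) (nat_lit 28) (.e (nat_lit 573489) (nat_lit 14) (.e (nat_lit 73755) (nat_lit 8) (.e (nat_lit 557091) (nat_lit 12) (.e (nat_lit 164008) (nat_lit 41) (.e (nat_lit 671488) (nat_lit 0) .nil)))))))) (.g (nat_lit 6) .nil .nil))) 
(.lf (nat_lit 45682) (.g (nat_lit 2284) (.e (nat_lit 1255) (nat_lit 92) (.e (nat_lit 98367) (nat_lit 27) (.e (nat_lit 434231) (nat_lit 23) (.e (nat_lit 532514) (nat_lit 3) (.e (nat_lit 114716) (nat_lit 22) (.e (nat_lit 90162) (nat_lit 12) (.e (nat_lit 164007) (nat_lit 41) (.e (nat_lit 663560) (nat_lit 0) .nil)))))))) (.g (nat_lit 4) .nil .nil))))) (.nd (nat_lit 4) (.nd (nat_lit 5) 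
(.lf (nat_lit 45642) (.g (nat_lit 3879) (.e (nat_lit 1255) (nat_lit 92) (.e (nat_lit 98366) (nat_lit 27) (.e (nat_lit 434247) (nat_lit 28) (.e (nat_lit 573489) (nat_lit 14) (.e (nat_lit 73755) (nat_lit 8) (.e (nat_lit 557089) (nat_lit 12) (.e (nat_lit 164007) (nat_lit 41) (.e (nat_lit 671488) (nat_lit 0) .nil)))))))) (.g (nat_lit 6) .nil .nil))) 
(.lf (nat_lit 45674) (.g (nat_lit 4813) (.e (nat_lit 1255) (nat_lit 92) (.e (nat_lit 98366) (nat_lit 27) (.e (nat_lit 434248) (nat_lit 28) (.e (nat_lit 573489) (nat_lit 14) (.e (nat_lit 73755) (nat_lit 8) (.e (nat_lit 557090) (nat_lit 12) (.e (nat_lit 164005) (nat_lit 41) (.e (nat_lit 671488) (nat_lit 0) .nil)))))))) (.g (nat_lit 6) .nil .nil)))) (.nd (nat_lit 5) 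
(.lf (nat_lit 45658) (.g (nat_lit 4213) (.e (nat_lit 1255) (nat_lit 92) (.e (nat_lit 98366) (nat_lit 27) (.e (nat_lit 434248) (nat_lit 28) (.e (nat_lit 573487) (nat_lit 14) (.e (nat_lit 73753) (nat_lit 8) (.e (nat_lit 557089) (nat_lit 12) (.e (nat_lit 164007) (nat_lit 41) (.e (nat_lit 663560) (nat_lit 0) .nil)))))))) (.g (nat_lit 7) .nil .nil))) 
(.lf (nat_lit 45690) (.g (nat_lit 3760) (.e (nat_lit 1255) (nat_lit 92) (.e (nat_lit 98367) (nat_lit 27) (.e (nat_lit 434244) (nat_lit 28) (.e (nat_lit 573487) (nat_lit 14) (.e (nat_lit 73753) (nat_lit 8) (.e (nat_lit 557089) (nat_lit 12) (.e (nat_lit 164006) (nat_lit 41) (.e (nat_lit 671488) (nat_lit 0) .nil)))))))) (.g (nat_lit 5) .nil .nil)))))) 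
(.nd (nat_lit 3) (.nd (nat_lit 4) (.nd (nat_lit 5) 
(.lf (nat_lit 45638) (.g (nat_lit 2239) (.e (nat_lit 1255) (nat_lit 92) (.e (nat_lit 98366) (nat_lit 27) (.e (nat_lit 434247) (nat_lit 28) (.e (nat_lit 573489) (nat_lit 14) (.e (nat_lit 73755) (nat_lit 8) (.e (nat_lit 557089) (nat_lit 12) (.e (nat_lit 164006) (nat_lit 41) (.e (nat_lit 663559) (nat_lit 0) .nil)))))))) (.g (nat_lit 4) .nil .nil))) 
(.lf (nat_lit 45670) (.g (nat_lit 3835) (.e (nat_lit 1255) (nat_lit 92) (.e (nat_lit 98366) (nat_lit 27) (.e (nat_lit 434248) (nat_lit 28) (.e (nat_lit 573489) (nat_lit 14) (.e (nat_lit 73754) (nat_lit 8) (.e (nat_lit 557093) (nat_lit 12) (.e (nat_lit 164010) (nat_lit 41) (.e (nat_lit 671488) (nat_lit 0) .nil)))))))) (.g (nat_lit 5) .nil .nil)))) (.nd (nat_lit 5) 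
(.lf (nat_lit 45654) (.g (nat_lit 2178) (.e (nat_lit 1255) (nat_lit 92) (.e (nat_lit 98366) (nat_lit 27) (.e (nat_lit 434248) (nat_lit 28) (.e (nat_lit 573487) (nat_lit 14) (.e (nat_lit 73753) (nat_lit 8) (.e (nat_lit 557089) (nat_lit 12) (.e (nat_lit 164006) (nat_lit 41) (.e (nat_lit 663559) (nat_lit 0) .nil)))))))) (.g (nat_lit 4) .nil .nil))) 
(.lf (nat_lit 45686) (.g (nat_lit 2113) (.e (nat_lit 1255) (nat_lit 92) (.e (nat_lit 98367) (nat_lit 27) (.e (nat_lit 434232) (nat_lit 23) (.e (nat_lit 532513) (nat_lit 3) (.e (nat_lit 114714) (nat_lit 22) (.e (nat_lit 90162) (nat_lit 12) (.e (nat_lit 164007) (nat_lit 41) (.e (nat_lit 663560) (nat_lit 0) .nil)))))))) (.g (nat_lit 4) .nil .nil))))) (.nd (nat_lit 4) (.nd (nat_lit 5) 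
(.lf (nat_lit 45646) (.g (nat_lit 2249) (.e (nat_lit 1255) (nat_lit 92) (.e (nat_lit 98366) (nat_lit 27) (.e (nat_lit 434247) (nat_lit 28) (.e (nat_lit 573489) (nat_lit 14) (.e (nat_lit 73755) (nat_lit 8) (.e (nat_lit 557091) (nat_lit 12) (.e (nat_lit 164006) (nat_lit 41) (.e (nat_lit 663559) (nat_lit 0) .nil)))))))) (.g (nat_lit 4) .nil .nil))) 
(.lf (nat_lit 45678) (.g (nat_lit 3571) (.e (nat_lit 1255) (nat_lit 92) (.e (nat_lit 98367) (nat_lit 27) (.e (nat_lit 434231) (nat_lit 23) (.e (nat_lit 532513) (nat_lit 3) (.e (nat_lit 114714) (nat_lit 22) (.e (nat_lit 90162) (nat_lit 12) (.e (nat_lit 164007) (nat_lit 41) (.e (nat_lit 663560) (nat_lit 0) .nil)))))))) (.g (nat_lit 5) .nil .nil)))) (.nd (nat_lit 5) 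
(.lf (nat_lit 45662) (.g (nat_lit 4045) (.e (nat_lit 1255) (nat_lit 92) (.e (nat_lit 98366) (nat_lit 27) (.e (nat_lit 434248) (nat_lit 28) (.e (nat_lit 573487) (nat_lit 14) (.e (nat_lit 73753) (nat_lit 8) (.e (nat_lit 557091) (nat_lit 12) (.e (nat_lit 164005) (nat_lit 41) (.e (nat_lit 671488) (nat_lit 0) .nil)))))))) (.g (nat_lit 6) .nil .nil))) 
(.lf (nat_lit 45694) (.g (nat_lit 3034) (.e (nat_lit 1255) (nat_lit 92) (.e (nat_lit 98367) (nat_lit 27) (.e (nat_lit 434244) (nat_lit 28) (.e (nat_lit 573487) (nat_lit 14) (.e (nat_lit 73753) (nat_lit 8) (.e (nat_lit 557090) (nat_lit 12) (.e (nat_lit 164007) (nat_lit 41) (.e (nat_lit 663560) (nat_lit 0) .nil)))))))) (.g (nat_lit 4) .nil .nil)))))))) 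
(.nd (nat_lit 1) (.nd (nat_lit 2) (.nd (nat_lit 3) (.nd (nat_lit 4) (.nd (nat_lit 5) 
(.lf (nat_lit 45633) (.g (nat_lit 3917) (.e (nat_lit 1255) (nat_lit 92) (.e (nat_lit 98366) (nat_lit 27) (.e (nat_lit 434245) (nat_lit 28) (.e (nat_lit 573488) (nat_lit 14) (.e (nat_lit 73755) (nat_lit 8) (.e (nat_lit 557091) (nat_lit 12) (.e (nat_lit 164006) (nat_lit 41) (.e (nat_lit 671488) (nat_lit 0) .nil)))))))) (.g (nat_lit 6) .nil .nil))) 
(.lf (nat_lit 45665) (.g (nat_lit 3639) (.e (nat_lit 1255) (nat_lit 92) (.e (nat_lit 98366) (nat_lit 27) (.e (nat_lit 434248) (nat_lit 28) (.e (nat_lit 573487) (nat_lit 14) (.e (nat_lit 73753) (nat_lit 8) (.e (nat_lit 557093) (nat_lit 12) (.e (nat_lit 164010) (nat_lit 41) (.e (nat_lit 671488) (nat_lit 0) .nil)))))))) (.g (nat_lit 6) .nil .nil)))) (.nd (nat_lit 5) 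
(.lf (nat_lit 45649) (.g (nat_lit 3734) (.e (nat_lit 1255) (nat_lit 92) (.e (nat_lit 98366) (nat_lit 27) (.e (nat_lit 434247) (nat_lit 28) (.e (nat_lit 573489) (nat_lit 14) (.e (nat_lit 73755) (nat_lit 8) (.e (nat_lit 557091) (nat_lit 12) (.e (nat_lit 164007) (nat_lit 41) (.e (nat_lit 663560) (nat_lit 0) .nil)))))))) (.g (nat_lit 6) .nil .nil))) 
(.lf (nat_lit 45681) (.g (nat_lit 2056) (.e (nat_lit 1255) (nat_lit 92) (.e (nat_lit 98367) (nat_lit 27) (.e (nat_lit 434231) (nat_lit 23) (.e (nat_lit 532514) (nat_lit 3) (.e (nat_lit 114716) (nat_lit 22) .nil))))) .nil)))) (.nd (nat_lit 4) (.nd (nat_lit 5) 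
(.lf (nat_lit 45641) (.g (nat_lit 3955) (.e (nat_lit 1255) (nat_lit 92) (.e (nat_lit 98366) (nat_lit 27) (.e (nat_lit 434247) (nat_lit 28) (.e (nat_lit 573489) (nat_lit 14) (.e (nat_lit 73755) (nat_lit 8) (.e (nat_lit 557089) (nat_lit 12) (.e (nat_lit 164007) (nat_lit 41) (.e (nat_lit 663560) (nat_lit 0) .nil)))))))) (.g (nat_lit 7) .nil .nil))) 
(.lf (nat_lit 45673) (.g (nat_lit 4028) (.e (nat_lit 1255) (nat_lit 92) (.e (nat_lit 98366) (nat_lit 27) (.e (nat_lit 434248) (nat_lit 28) (.e (nat_lit 573489) (nat_lit 14) (.e (nat_lit 73755) (nat_lit 8) (.e (nat_lit 557089) (nat_lit 12) (.e (nat_lit 164007) (nat_lit 41) (.e (nat_lit 671488) (nat_lit 0) .nil)))))))) (.g (nat_lit 5) .nil .nil)))) (.nd (nat_lit 5) 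
(.lf (nat_lit 45657) (.g (nat_lit 2140) (.e (nat_lit 1255) (nat_lit 92) (.e (nat_lit 98366) (nat_lit 27) (.e (nat_lit 434248) (nat_lit 28) (.e (nat_lit 573487) (nat_lit 14) (.e (nat_lit 73753) (nat_lit 8) (.e (nat_lit 557089) (nat_lit 12) (.e (nat_lit 164007) (nat_lit 41) (.e (nat_lit 663559) (nat_lit 0) .nil)))))))) (.g (nat_lit 4) .nil .nil))) 
(.lf (nat_lit 45689) (.g (nat_lit 2583) (.e (nat_lit 1255) (nat_lit 92) (.e (nat_lit 98367) (nat_lit 27) (.e (nat_lit 434244) (nat_lit 28) (.e (nat_lit 573487) (nat_lit 14) (.e (nat_lit 73753) (nat_lit 8) .nil))))) .nil))))) (.nd (nat_lit 3) (.nd (nat_lit 4) (.nd (nat_lit 5) 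
(.lf (nat_lit 45637) (.g (nat_lit 2521) (.e (nat_lit 1255) (nat_lit 92) (.e (nat_lit 98366) (nat_lit 27) (.e (nat_lit 434247) (nat_lit 28) (.e (nat_lit 573489) (nat_lit 14) (.e (nat_lit 73754) (nat_lit 8) (.e (nat_lit 557094) (nat_lit 12) (.e (nat_lit 164008) (nat_lit 41) (.e (nat_lit 671488) (nat_lit 0) .nil)))))))) (.g (nat_lit 5) .nil .nil))) 
(.lf (nat_lit 45669) (.g (nat_lit 2570) (.e (nat_lit 1255) (nat_lit 92) (.e (nat_lit 98366) (nat_lit 27) (.e (nat_lit 434248) (nat_lit 28) (.e (nat_lit 573489) (nat_lit 14) (.e (nat_lit 73754) (nat_lit 8) .nil))))) .nil))) (.nd (nat_lit 5) 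
(.lf (nat_lit 45653) (.g (nat_lit 1949) (.e (nat_lit 1255) (nat_lit 92) (.e (nat_lit 98366) (nat_lit 27) (.e (nat_lit 434248) (nat_lit 28) (.e (nat_lit 573487) (nat_lit 14) (.e (nat_lit 73753) (nat_lit 8) .nil))))) .nil)) 
(.lf (nat_lit 45685) (.g (nat_lit 1783) (.e (nat_lit 1255) (nat_lit 92) (.e (nat_lit 98367) (nat_lit 27) (.e (nat_lit 434232) (nat_lit 23) (.e (nat_lit 532513) (nat_lit 3) (.e (nat_lit 114714) (nat_lit 22) .nil))))) .nil)))) (.nd (nat_lit 4) (.nd (nat_lit 5) 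
(.lf (nat_lit 45645) (.g (nat_lit 3827) (.e (nat_lit 1255) (nat_lit 92) (.e (nat_lit 98366) (nat_lit 27) (.e (nat_lit 434247) (nat_lit 28) (.e (nat_lit 573489) (nat_lit 14) (.e (nat_lit 73755) (nat_lit 8) (.e (nat_lit 557091) (nat_lit 12) (.e (nat_lit 164005) (nat_lit 41) (.e (nat_lit 671488) (nat_lit 0) .nil)))))))) (.g (nat_lit 6) .nil .nil))) 
(.lf (nat_lit 45677) (.g (nat_lit 5042) (.e (nat_lit 1255) (nat_lit 92) (.e (nat_lit 98366) (nat_lit 27) (.e (nat_lit 434248) (nat_lit 28) (.e (nat_lit 573489) (nat_lit 14) (.e (nat_lit 73755) (nat_lit 8) (.e (nat_lit 557091) (nat_lit 12) (.e (nat_lit 164006) (nat_lit 41) (.e (nat_lit 671488) (nat_lit 0) .nil)))))))) (.g (nat_lit 6) .nil .nil)))) (.nd (nat_lit 5) 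
(.lf (nat_lit 45661) (.g (nat_lit 4742) (.e (nat_lit 1255) (nat_lit 92) (.e (nat_lit 98366) (nat_lit 27) (.e (nat_lit 434248) (nat_lit 28) (.e (nat_lit 573487) (nat_lit 14) (.e (nat_lit 73753) (nat_lit 8) (.e (nat_lit 557090) (nat_lit 12) (.e (nat_lit 164006) (nat_lit 41) (.e (nat_lit 671488) (nat_lit 0) .nil)))))))) (.g (nat_lit 7) .nil .nil))) 
(.lf (nat_lit 45693) (.g (nat_lit 2747) (.e (nat_lit 1255) (nat_lit 92) (.e (nat_lit 98367) (nat_lit 27) (.e (nat_lit 434244) (nat_lit 28) (.e (nat_lit 573487) (nat_lit 14) (.e (nat_lit 73753) (nat_lit 8) (.e (nat_lit 557090) (nat_lit 12) (.e (nat_lit 164005) (nat_lit 41) (.e (nat_lit 671488) (nat_lit 0) .nil)))))))) (.g (nat_lit 4) .nil .nil))))))) 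
(.nd (nat_lit 2) (.nd (nat_lit 3) (.nd (nat_lit 4) (.nd (nat_lit 5) 
(.lf (nat_lit 45635) (.g (nat_lit 1948) (.e (nat_lit 1255) (nat_lit 92) (.e (nat_lit 98366) (nat_lit 27) (.e (nat_lit 434247) (nat_lit 28) (.e (nat_lit 573487) (nat_lit 14) (.e (nat_lit 73753) (nat_lit 8) (.e (nat_lit 557089) (nat_lit 12) (.e (nat_lit 164007) (nat_lit 41) (.e (nat_lit 663560) (nat_lit 0) .nil)))))))) (.g (nat_lit 4) .nil .nil))) 
(.lf (nat_lit 45667) (.g (nat_lit 3096) (.e (nat_lit 1255) (nat_lit 92) (.e (nat_lit 98366) (nat_lit 27) (.e (nat_lit 434248) (nat_lit 28) (.e (nat_lit 573487) (nat_lit 14) (.e (nat_lit 73753) (nat_lit 8) (.e (nat_lit 557094) (nat_lit 12) (.e (nat_lit 164010) (nat_lit 41) (.e (nat_lit 671488) (nat_lit 0) .nil)))))))) (.g (nat_lit 5) .nil .nil)))) (.nd (nat_lit 5) 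
(.lf (nat_lit 45651) (.g (nat_lit 1089) (.e (nat_lit 1255) (nat_lit 92) (.e (nat_lit 98366) (nat_lit 27) (.e (nat_lit 434248) (nat_lit 28) (.e (nat_lit 573487) (nat_lit 14) .nil)))) .nil)) 
(.lf (nat_lit 45683) (.g (nat_lit 2181) (.e (nat_lit 1255) (nat_lit 92) (.e (nat_lit 98367) (nat_lit 27) (.e (nat_lit 434231) (nat_lit 23) (.e (nat_lit 532514) (nat_lit 3) (.e (nat_lit 114716) (nat_lit 22) (.e (nat_lit 90164) (nat_lit 12) (.e (nat_lit 164006) (nat_lit 41) (.e (nat_lit 671488) (nat_lit 0) .nil)))))))) (.g (nat_lit 4) .nil .nil))))) (.nd (nat_lit 4) (.nd (nat_lit 5) 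
(.lf (nat_lit 45643) (.g (nat_lit 4056) (.e (nat_lit 1255) (nat_lit 92) (.e (nat_lit 98366) (nat_lit 27) (.e (nat_lit 434247) (nat_lit 28) (.e (nat_lit 573489) (nat_lit 14) (.e (nat_lit 73755) (nat_lit 8) (.e (nat_lit 557089) (nat_lit 12) (.e (nat_lit 164010) (nat_lit 41) (.e (nat_lit 671488) (nat_lit 0) .nil)))))))) (.g (nat_lit 6) .nil .nil))) 
(.lf (nat_lit 45675) (.g (nat_lit 5126) (.e (nat_lit 1255) (nat_lit 92) (.e (nat_lit 98366) (nat_lit 27) (.e (nat_lit 434248) (nat_lit 28) (.e (nat_lit 573489) (nat_lit 14) (.e (nat_lit 73755) (nat_lit 8) (.e (nat_lit 557090) (nat_lit 12) (.e (nat_lit 164006) (nat_lit 41) (.e (nat_lit 671488) (nat_lit 0) .nil)))))))) (.g (nat_lit 7) .nil .nil)))) (.nd (nat_lit 5) 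
(.lf (nat_lit 45659) (.g (nat_lit 4108) (.e (nat_lit 1255) (nat_lit 92) (.e (nat_lit 98366) (nat_lit 27) (.e (nat_lit 434248) (nat_lit 28) (.e (nat_lit 573487) (nat_lit 14) (.e (nat_lit 73753) (nat_lit 8) (.e (nat_lit 557089) (nat_lit 12) (.e (nat_lit 164007) (nat_lit 41) (.e (nat_lit 671488) (nat_lit 0) .nil)))))))) (.g (nat_lit 7) .nil .nil))) 
(.lf (nat_lit 45691) (.g (nat_lit 3744) (.e (nat_lit 1255) (nat_lit 92) (.e (nat_lit 98367) (nat_lit 27) (.e (nat_lit 434244) (nat_lit 28) (.e (nat_lit 573487) (nat_lit 14) (.e (nat_lit 73753) (nat_lit 8) (.e (nat_lit 557089) (nat_lit 12) (.e (nat_lit 164007) (nat_lit 41) (.e (nat_lit 663560) (nat_lit 0) .nil)))))))) (.g (nat_lit 5) .nil .nil)))))) 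
(.nd (nat_lit 3) (.nd (nat_lit 4) (.nd (nat_lit 5) 
(.lf (nat_lit 45639) (.g (nat_lit 2082) (.e (nat_lit 1255) (nat_lit 92) (.e (nat_lit 98366) (nat_lit 27) (.e (nat_lit 434247) (nat_lit 28) (.e (nat_lit 573489) (nat_lit 14) (.e (nat_lit 73755) (nat_lit 8) (.e (nat_lit 557089) (nat_lit 12) (.e (nat_lit 164006) (nat_lit 41) (.e (nat_lit 663560) (nat_lit 0) .nil)))))))) (.g (nat_lit 4) .nil .nil))) 
(.lf (nat_lit 45671) (.g (nat_lit 3883) (.e (nat_lit 1255) (nat_lit 92) (.e (nat_lit 98366) (nat_lit 27) (.e (nat_lit 434248) (nat_lit 28) (.e (nat_lit 573489) (nat_lit 14) (.e (nat_lit 73754) (nat_lit 8) (.e (nat_lit 557094) (nat_lit 12) (.e (nat_lit 164008) (nat_lit 41) (.e (nat_lit 671488) (nat_lit 0) .nil)))))))) (.g (nat_lit 6) .nil .nil)))) (.nd (nat_lit 5) 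
(.lf (nat_lit 45655) (.g (nat_lit 2017) (.e (nat_lit 1255) (nat_lit 92) (.e (nat_lit 98366) (nat_lit 27) (.e (nat_lit 434248) (nat_lit 28) (.e (nat_lit 573487) (nat_lit 14) (.e (nat_lit 73753) (nat_lit 8) (.e (nat_lit 557089) (nat_lit 12) (.e (nat_lit 164006) (nat_lit 41) (.e (nat_lit 663560) (nat_lit 0) .nil)))))))) (.g (nat_lit 4) .nil .nil))) 
(.lf (nat_lit 45687) (.g (nat_lit 2125) (.e (nat_lit 1255) (nat_lit 92) (.e (nat_lit 98367) (nat_lit 27) (.e (nat_lit 434242) (nat_lit 28) (.e (nat_lit 573488) (nat_lit 14) (.e (nat_lit 73755) (nat_lit 8) (.e (nat_lit 557090) (nat_lit 12) (.e (nat_lit 164007) (nat_lit 41) (.e (nat_lit 663560) (nat_lit 0) .nil)))))))) (.g (nat_lit 4) .nil .nil))))) (.nd (nat_lit 4) (.nd (nat_lit 5) 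
(.lf (nat_lit 45647) (.g (nat_lit 2077) (.e (nat_lit 1255) (nat_lit 92) (.e (nat_lit 98366) (nat_lit 27) (.e (nat_lit 434247) (nat_lit 28) (.e (nat_lit 573489) (nat_lit 14) (.e (nat_lit 73755) (nat_lit 8) (.e (nat_lit 557091) (nat_lit 12) (.e (nat_lit 164006) (nat_lit 41) (.e (nat_lit 663560) (nat_lit 0) .nil)))))))) (.g (nat_lit 4) .nil .nil))) 
(.lf (nat_lit 45679) (.g (nat_lit 2549) (.e (nat_lit 1255) (nat_lit 92) (.e (nat_lit 98367) (nat_lit 27) (.e (nat_lit 434231) (nat_lit 23) (.e (nat_lit 532513) (nat_lit 3) (.e (nat_lit 114714) (nat_lit 22) (.e (nat_lit 90162) (nat_lit 12) (.e (nat_lit 164010) (nat_lit 41) (.e (nat_lit 671488) (nat_lit 0) .nil)))))))) (.g (nat_lit 4) .nil .nil)))) (.nd (nat_lit 5) 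
(.lf (nat_lit 45663) (.g (nat_lit 4644) (.e (nat_lit 1255) (nat_lit 92) (.e (nat_lit 98366) (nat_lit 27) (.e (nat_lit 434248) (nat_lit 28) (.e (nat_lit 573487) (nat_lit 14) (.e (nat_lit 73753) (nat_lit 8) (.e (nat_lit 557091) (nat_lit 12) (.e (nat_lit 164006) (nat_lit 41) (.e (nat_lit 671488) (nat_lit 0) .nil)))))))) (.g (nat_lit 7) .nil .nil))) 
(.lf (nat_lit 45695) (.g (nat_lit 2634) (.e (nat_lit 1255) (nat_lit 92) (.e (nat_lit 98367) (nat_lit 27) (.e (nat_lit 434244) (nat_lit 28) (.e (nat_lit 573487) (nat_lit 14) (.e (nat_lit 73753) (nat_lit 8) (.e (nat_lit 557090) (nat_lit 12) (.e (nat_lit 164007) (nat_lit 41) (.e (nat_lit 671488) (nat_lit 0) .nil)))))))) (.g (nat_lit 4) .nil .nil)))))))))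

noncomputable def tv634 : DT := (.nd (nat_lit 0) (.nd (nat_lit 1) (.nd (nat_lit 2) (.nd (nat_lit 3) (.nd (nat_lit 4) (.nd (nat_lit 5) 
(.lf (nat_lit 45696) (.g (nat_lit 3005) (.e (nat_lit 1255) (nat_lit 92) (.e (nat_lit 98367) (nat_lit 27) (.e (nat_lit 434244) (nat_lit 28) (.e (nat_lit 573487) (nat_lit 14) (.e (nat_lit 73753) (nat_lit 8) (.e (nat_lit 557091) (nat_lit 12) (.e (nat_lit 164005) (nat_lit 41) (.e (nat_lit 663560) (nat_lit 0) .nil)))))))) (.g (nat_lit 4) .nil .nil))) 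
(.lf (nat_lit 45728) (.g (nat_lit 2929) (.e (nat_lit 1255) (nat_lit 92) (.e (nat_lit 98367) (nat_lit 27) (.e (nat_lit 434247) (nat_lit 28) (.e (nat_lit 573489) (nat_lit 14) (.e (nat_lit 73755) (nat_lit 8) (.e (nat_lit 557089) (nat_lit 12) (.e (nat_lit 164005) (nat_lit 41) (.e (nat_lit 663560) (nat_lit 0) .nil)))))))) (.g (nat_lit 5) .nil .nil)))) (.nd (nat_lit 5) 
(.lf (nat_lit 45712) (.g (nat_lit 3220) (.e (nat_lit 1255) (nat_lit 92) (.e (nat_lit 98367) (nat_lit 27) (.e (nat_lit 434246) (nat_lit 28) (.e (nat_lit 573487) (nat_lit 14) (.e (nat_lit 73753) (nat_lit 8) (.e (nat_lit 557089) (nat_lit 12) (.e (nat_lit 164007) (nat_lit 41) (.e (nat_lit 663560) (nat_lit 0) .nil)))))))) (.g (nat_lit 5) .nil .nil))) 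
(.lf (nat_lit 45744) (.g (nat_lit 3751) (.e (nat_lit 1255) (nat_lit 92) (.e (nat_lit 98367) (nat_lit 27) (.e (nat_lit 434247) (nat_lit 28) (.e (nat_lit 573489) (nat_lit 14) (.e (nat_lit 73755) (nat_lit 8) (.e (nat_lit 557091) (nat_lit 12) (.e (nat_lit 164008) (nat_lit 41) (.e (nat_lit 671488) (nat_lit 0) .nil)))))))) (.g (nat_lit 6) .nil .nil))))) (.nd (nat_lit 4) (.nd (nat_lit 5) 
(.lf (nat_lit 45704) (.g (nat_lit 2053) (.e (nat_lit 1255) (nat_lit 92) (.e (nat_lit 98367) (nat_lit 27) (.e (nat_lit 434245) (nat_lit 28) (.e (nat_lit 573487) (nat_lit 14) (.e (nat_lit 73753) (nat_lit 8) .nil))))) .nil)) 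
(.lf (nat_lit 45736) (.g (nat_lit 4015) (.e (nat_lit 1255) (nat_lit 92) (.e (nat_lit 98367) (nat_lit 27) (.e (nat_lit 434247) (nat_lit 28) (.e (nat_lit 573489) (nat_lit 14) (.e (nat_lit 73755) (nat_lit 8) (.e (nat_lit 557090) (nat_lit 12) (.e (nat_lit 164005) (nat_lit 41) (.e (nat_lit 671488) (nat_lit 0) .nil)))))))) (.g (nat_lit 5) .nil .nil)))) (.nd (nat_lit 5) 
(.lf (nat_lit 45720) (.g (nat_lit 3824) (.e (nat_lit 1255) (nat_lit 92) (.e (nat_lit 98367) (nat_lit 27) (.e (nat_lit 434246) (nat_lit 28) (.e (nat_lit 573489) (nat_lit 14) (.e (nat_lit 73755) (nat_lit 8) (.e (nat_lit 557090) (nat_lit 12) (.e (nat_lit 164005) (nat_lit 41) (.e (nat_lit 671488) (nat_lit 0) .nil)))))))) (.g (nat_lit 6) .nil .nil))) 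
(.lf (nat_lit 45752) (.g (nat_lit 3690) (.e (nat_lit 1255) (nat_lit 92) (.e (nat_lit 98367) (nat_lit 27) (.e (nat_lit 434248) (nat_lit 28) (.e (nat_lit 573489) (nat_lit 14) (.e (nat_lit 73754) (nat_lit 8) (.e (nat_lit 557093) (nat_lit 12) (.e (nat_lit 164010) (nat_lit 41) (.e (nat_lit 671488) (nat_lit 0) .nil)))))))) (.g (nat_lit 5) .nil .nil)))))) 
(.nd (nat_lit 3) (.nd (nat_lit 4) (.nd (nat_lit 5) 
(.lf (nat_lit 45700) (.g (nat_lit 2301) (.e (nat_lit 1255) (nat_lit 92) (.e (nat_lit 98367) (nat_lit 27) (.e (nat_lit 434244) (nat_lit 28) (.e (nat_lit 573488) (nat_lit 14) (.e (nat_lit 73754) (nat_lit 8) .nil))))) .nil)) 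
(.lf (nat_lit 45732) (.g (nat_lit 2046) (.e (nat_lit 1255) (nat_lit 92) (.e (nat_lit 98367) (nat_lit 27) (.e (nat_lit 434247) (nat_lit 28) (.e (nat_lit 573489) (nat_lit 14) (.e (nat_lit 73755) (nat_lit 8) (.e (nat_lit 557089) (nat_lit 12) (.e (nat_lit 164007) (nat_lit 41) (.e (nat_lit 663559) (nat_lit 0) .nil)))))))) (.g (nat_lit 4) .nil .nil)))) (.nd (nat_lit 5) 
(.lf (nat_lit 45716) (.g (nat_lit 4050) (.e (nat_lit 1255) (nat_lit 92) (.e (nat_lit 98367) (nat_lit 27) (.e (nat_lit 434246) (nat_lit 28) (.e (nat_lit 573489) (nat_lit 14) (.e (nat_lit 73755) (nat_lit 8) (.e (nat_lit 557089) (nat_lit 12) (.e (nat_lit 164006) (nat_lit 41) (.e (nat_lit 671488) (nat_lit 0) .nil)))))))) (.g (nat_lit 7) .nil .nil))) 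
(.lf (nat_lit 45748) (.g (nat_lit 2442) (.e (nat_lit 1255) (nat_lit 92) (.e (nat_lit 98367) (nat_lit 27) (.e (nat_lit 434248) (nat_lit 28) (.e (nat_lit 573487) (nat_lit 14) (.e (nat_lit 73753) (nat_lit 8) (.e (nat_lit 557090) (nat_lit 12) (.e (nat_lit 164005) (nat_lit 41) (.e (nat_lit 663560) (nat_lit 0) .nil)))))))) (.g (nat_lit 4) .nil .nil))))) (.nd (nat_lit 4) (.nd (nat_lit 5) 
(.lf (nat_lit 45708) (.g (nat_lit 2990) (.e (nat_lit 1255) (nat_lit 92) (.e (nat_lit 98367) (nat_lit 27) (.e (nat_lit 434245) (nat_lit 28) (.e (nat_lit 573488) (nat_lit 14) (.e (nat_lit 73755) (nat_lit 8) (.e (nat_lit 557089) (nat_lit 12) (.e (nat_lit 164006) (nat_lit 41) (.e (nat_lit 671488) (nat_lit 0) .nil)))))))) (.g (nat_lit 5) .nil .nil))) 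
(.lf (nat_lit 45740) (.g (nat_lit 2327) (.e (nat_lit 1255) (nat_lit 92) (.e (nat_lit 98367) (nat_lit 27) (.e (nat_lit 434247) (nat_lit 28) (.e (nat_lit 573489) (nat_lit 14) (.e (nat_lit 73755) (nat_lit 8) (.e (nat_lit 557091) (nat_lit 12) (.e (nat_lit 164006) (nat_lit 41) (.e (nat_lit 663560) (nat_lit 0) .nil)))))))) (.g (nat_lit 4) .nil .nil)))) (.nd (nat_lit 5) 
(.lf (nat_lit 45724) (.g (nat_lit 4078) (.e (nat_lit 1255) (nat_lit 92) (.e (nat_lit 98367) (nat_lit 27) (.e (nat_lit 434246) (nat_lit 28) (.e (nat_lit 573489) (nat_lit 14) (.e (nat_lit 73755) (nat_lit 8) (.e (nat_lit 557091) (nat_lit 12) (.e (nat_lit 164006) (nat_lit 41) (.e (nat_lit 671488) (nat_lit 0) .nil)))))))) (.g (nat_lit 6) .nil .nil))) 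
(.lf (nat_lit 45756) (.g (nat_lit 2672) (.e (nat_lit 1255) (nat_lit 92) (.e (nat_lit 98367) (nat_lit 27) (.e (nat_lit 434248) (nat_lit 28) (.e (nat_lit 573489) (nat_lit 14) (.e (nat_lit 73755) (nat_lit 8) (.e (nat_lit 557090) (nat_lit 12) (.e (nat_lit 163843) (nat_lit 0) (.e (nat_lit 5808) (nat_lit 320) (.e (nat_lit 1027) (nat_lit 81) .nil))))))))) (.g (nat_lit 4) .nil .nil))))))) 
(.nd (nat_lit 2) (.nd (nat_lit 3) (.nd (nat_lit 4) (.nd (nat_lit 5) 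
(.lf (nat_lit 45698) (.g (nat_lit 2721) (.e (nat_lit 1255) (nat_lit 92) (.e (nat_lit 98367) (nat_lit 27) (.e (nat_lit 434244) (nat_lit 28) (.e (nat_lit 573487) (nat_lit 14) (.e (nat_lit 73753) (nat_lit 8) (.e (nat_lit 557091) (nat_lit 12) (.e (nat_lit 164008) (nat_lit 41) (.e (nat_lit 671488) (nat_lit 0) .nil)))))))) (.g (nat_lit 4) .nil .nil))) 
(.lf (nat_lit 45730) (.g (nat_lit 2332) (.e (nat_lit 1255) (nat_lit 92) (.e (nat_lit 98367) (nat_lit 27) (.e (nat_lit 434247) (nat_lit 28) (.e (nat_lit 573489) (nat_lit 14) (.e (nat_lit 73755) (nat_lit 8) (.e (nat_lit 557089) (nat_lit 12) (.e (nat_lit 164006) (nat_lit 41) (.e (nat_lit 663560) (nat_lit 0) .nil)))))))) (.g (nat_lit 4) .nil .nil)))) (.nd (nat_lit 5) 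
(.lf (nat_lit 45714) (.g (nat_lit 1644) (.e (nat_lit 1255) (nat_lit 92) (.e (nat_lit 98367) (nat_lit 27) (.e (nat_lit 434246) (nat_lit 28) (.e (nat_lit 573489) (nat_lit 14) (.e (nat_lit 73754) (nat_lit 8) .nil))))) .nil)) 
(.lf (nat_lit 45746) (.g (nat_lit 2383) (.e (nat_lit 1255) (nat_lit 92) (.e (nat_lit 98367) (nat_lit 27) (.e (nat_lit 434248) (nat_lit 28) (.e (nat_lit 573487) (nat_lit 14) (.e (nat_lit 73753) (nat_lit 8) (.e (nat_lit 557089) (nat_lit 12) (.e (nat_lit 164005) (nat_lit 41) (.e (nat_lit 671488) (nat_lit 0) .nil)))))))) (.g (nat_lit 4) .nil .nil))))) (.nd (nat_lit 4) (.nd (nat_lit 5) 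
(.lf (nat_lit 45706) (.g (nat_lit 3176) (.e (nat_lit 1255) (nat_lit 92) (.e (nat_lit 98367) (nat_lit 27) (.e (nat_lit 434245) (nat_lit 28) (.e (nat_lit 573487) (nat_lit 14) (.e (nat_lit 73753) (nat_lit 8) (.e (nat_lit 557089) (nat_lit 12) (.e (nat_lit 164007) (nat_lit 41) (.e (nat_lit 671488) (nat_lit 0) .nil)))))))) (.g (nat_lit 5) .nil .nil))) 
(.lf (nat_lit 45738) (.g (nat_lit 3786) (.e (nat_lit 1255) (nat_lit 92) (.e (nat_lit 98367) (nat_lit 27) (.e (nat_lit 434247) (nat_lit 28) (.e (nat_lit 573489) (nat_lit 14) (.e (nat_lit 73755) (nat_lit 8) (.e (nat_lit 557090) (nat_lit 12) (.e (nat_lit 164007) (nat_lit 41) (.e (nat_lit 671488) (nat_lit 0) .nil)))))))) (.g (nat_lit 5) .nil .nil)))) (.nd (nat_lit 5) 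
(.lf (nat_lit 45722) (.g (nat_lit 3945) (.e (nat_lit 1255) (nat_lit 92) (.e (nat_lit 98367) (nat_lit 27) (.e (nat_lit 434246) (nat_lit 28) (.e (nat_lit 573489) (nat_lit 14) (.e (nat_lit 73755) (nat_lit 8) (.e (nat_lit 557090) (nat_lit 12) (.e (nat_lit 164007) (nat_lit 41) (.e (nat_lit 663560) (nat_lit 0) .nil)))))))) (.g (nat_lit 7) .nil .nil))) 
(.lf (nat_lit 45754) (.g (nat_lit 4095) (.e (nat_lit 1255) (nat_lit 92) (.e (nat_lit 98367) (nat_lit 27) (.e (nat_lit 434248) (nat_lit 28) (.e (nat_lit 573489) (nat_lit 14) (.e (nat_lit 73755) (nat_lit 8) (.e (nat_lit 557089) (nat_lit 12) (.e (nat_lit 164007) (nat_lit 41) (.e (nat_lit 663560) (nat_lit 0) .nil)))))))) (.g (nat_lit 5) .nil .nil)))))) 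
(.nd (nat_lit 3) (.nd (nat_lit 4) (.nd (nat_lit 5) 
(.lf (nat_lit 45702) (.g (nat_lit 2641) (.e (nat_lit 1255) (nat_lit 92) (.e (nat_lit 98367) (nat_lit 27) (.e (nat_lit 434244) (nat_lit 28) (.e (nat_lit 573488) (nat_lit 14) (.e (nat_lit 73755) (nat_lit 8) (.e (nat_lit 557090) (nat_lit 12) (.e (nat_lit 164006) (nat_lit 41) (.e (nat_lit 663560) (nat_lit 0) .nil)))))))) (.g (nat_lit 4) .nil .nil))) 
(.lf (nat_lit 45734) (.g (nat_lit 4026) (.e (nat_lit 1255) (nat_lit 92) (.e (nat_lit 98367) (nat_lit 27) (.e (nat_lit 434247) (nat_lit 28) (.e (nat_lit 573489) (nat_lit 14) (.e (nat_lit 73755) (nat_lit 8) (.e (nat_lit 557089) (nat_lit 12) (.e (nat_lit 164007) (nat_lit 41) (.e (nat_lit 671488) (nat_lit 0) .nil)))))))) (.g (nat_lit 7) .nil .nil)))) (.nd (nat_lit 5) 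
(.lf (nat_lit 45718) (.g (nat_lit 3527) (.e (nat_lit 1255) (nat_lit 92) (.e (nat_lit 98367) (nat_lit 27) (.e (nat_lit 434246) (nat_lit 28) (.e (nat_lit 573489) (nat_lit 14) (.e (nat_lit 73755) (nat_lit 8) (.e (nat_lit 557089) (nat_lit 12) (.e (nat_lit 164007) (nat_lit 41) (.e (nat_lit 671488) (nat_lit 0) .nil)))))))) (.g (nat_lit 6) .nil .nil))) 
(.lf (nat_lit 45750) (.g (nat_lit 3160) (.e (nat_lit 1255) (nat_lit 92) (.e (nat_lit 98367) (nat_lit 27) (.e (nat_lit 434248) (nat_lit 28) (.e (nat_lit 573487) (nat_lit 14) (.e (nat_lit 73753) (nat_lit 8) (.e (nat_lit 557093) (nat_lit 12) (.e (nat_lit 164010) (nat_lit 41) (.e (nat_lit 671488) (nat_lit 0) .nil)))))))) (.g (nat_lit 5) .nil .nil))))) (.nd (nat_lit 4) (.nd (nat_lit 5) 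
(.lf (nat_lit 45710) (.g (nat_lit 2677) (.e (nat_lit 1255) (nat_lit 92) (.e (nat_lit 98367) (nat_lit 27) (.e (nat_lit 434245) (nat_lit 28) (.e (nat_lit 573488) (nat_lit 14) (.e (nat_lit 73755) (nat_lit 8) (.e (nat_lit 557090) (nat_lit 12) (.e (nat_lit 164007) (nat_lit 41) (.e (nat_lit 671488) (nat_lit 0) .nil)))))))) (.g (nat_lit 5) .nil .nil))) 
(.lf (nat_lit 45742) (.g (nat_lit 3997) (.e (nat_lit 1255) (nat_lit 92) (.e (nat_lit 98367) (nat_lit 27) (.e (nat_lit 434247) (nat_lit 28) (.e (nat_lit 573489) (nat_lit 14) (.e (nat_lit 73755) (nat_lit 8) (.e (nat_lit 557091) (nat_lit 12) (.e (nat_lit 164007) (nat_lit 41) (.e (nat_lit 663560) (nat_lit 0) .nil)))))))) (.g (nat_lit 6) .nil .nil)))) (.nd (nat_lit 5) 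
(.lf (nat_lit 45726) (.g (nat_lit 2007) (.e (nat_lit 1255) (nat_lit 92) (.e (nat_lit 98367) (nat_lit 27) (.e (nat_lit 434247) (nat_lit 28) (.e (nat_lit 573489) (nat_lit 14) (.e (nat_lit 73754) (nat_lit 8) .nil))))) .nil)) 
(.lf (nat_lit 45758) (.g (nat_lit 4672) (.e (nat_lit 1255) (nat_lit 92) (.e (nat_lit 98367) (nat_lit 27) (.e (nat_lit 434248) (nat_lit 28) (.e (nat_lit 573489) (nat_lit 14) (.e (nat_lit 73755) (nat_lit 8) (.e (nat_lit 557090) (nat_lit 12) (.e (nat_lit 164005) (nat_lit 41) (.e (nat_lit 671488) (nat_lit 0) .nil)))))))) (.g (nat_lit 6) .nil .nil)))))))) 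
(.nd (nat_lit 1) (.nd (nat_lit 2) (.nd (nat_lit 3) (.nd (nat_lit 4) (.nd (nat_lit 5) 
(.lf (nat_lit 45697) (.g (nat_lit 2864) (.e (nat_lit 1255) (nat_lit 92) (.e (nat_lit 98367) (nat_lit 27) (.e (nat_lit 434244) (nat_lit 28) (.e (nat_lit 573487) (nat_lit 14) (.e (nat_lit 73753) (nat_lit 8) (.e (nat_lit 557091) (nat_lit 12) (.e (nat_lit 164007) (nat_lit 41) (.e (nat_lit 671488) (nat_lit 0) .nil)))))))) (.g (nat_lit 4) .nil .nil))) 
(.lf (nat_lit 45729) (.g (nat_lit 2403) (.e (nat_lit 1255) (nat_lit 92) (.e (nat_lit 98367) (nat_lit 27) (.e (nat_lit 434247) (nat_lit 28) (.e (nat_lit 573489) (nat_lit 14) (.e (nat_lit 73755) (nat_lit 8) (.e (nat_lit 557089) (nat_lit 12) (.e (nat_lit 164006) (nat_lit 41) (.e (nat_lit 663559) (nat_lit 0) .nil)))))))) (.g (nat_lit 4) .nil .nil)))) (.nd (nat_lit 5) 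
(.lf (nat_lit 45713) (.g (nat_lit 3013) (.e (nat_lit 1255) (nat_lit 92) (.e (nat_lit 98367) (nat_lit 27) (.e (nat_lit 434246) (nat_lit 28) (.e (nat_lit 573487) (nat_lit 14) (.e (nat_lit 73753) (nat_lit 8) (.e (nat_lit 557089) (nat_lit 12) (.e (nat_lit 164007) (nat_lit 41) (.e (nat_lit 671488) (nat_lit 0) .nil)))))))) (.g (nat_lit 5) .nil .nil))) 
(.lf (nat_lit 45745) (.g (nat_lit 2232) (.e (nat_lit 1255) (nat_lit 92) (.e (nat_lit 98367) (nat_lit 27) (.e (nat_lit 434248) (nat_lit 28) (.e (nat_lit 573487) (nat_lit 14) (.e (nat_lit 73753) (nat_lit 8) .nil))))) .nil)))) (.nd (nat_lit 4) (.nd (nat_lit 5) 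
(.lf (nat_lit 45705) (.g (nat_lit 3383) (.e (nat_lit 1255) (nat_lit 92) (.e (nat_lit 98367) (nat_lit 27) (.e (nat_lit 434245) (nat_lit 28) (.e (nat_lit 573487) (nat_lit 14) (.e (nat_lit 73753) (nat_lit 8) (.e (nat_lit 557089) (nat_lit 12) (.e (nat_lit 164007) (nat_lit 41) (.e (nat_lit 663560) (nat_lit 0) .nil)))))))) (.g (nat_lit 5) .nil .nil))) 
(.lf (nat_lit 45737) (.g (nat_lit 4120) (.e (nat_lit 1255) (nat_lit 92) (.e (nat_lit 98367) (nat_lit 27) (.e (nat_lit 434247) (nat_lit 28) (.e (nat_lit 573489) (nat_lit 14) (.e (nat_lit 73755) (nat_lit 8) (.e (nat_lit 557090) (nat_lit 12) (.e (nat_lit 164007) (nat_lit 41) (.e (nat_lit 663560) (nat_lit 0) .nil)))))))) (.g (nat_lit 5) .nil .nil)))) (.nd (nat_lit 5) 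
(.lf (nat_lit 45721) (.g (nat_lit 4137) (.e (nat_lit 1255) (nat_lit 92) (.e (nat_lit 98367) (nat_lit 27) (.e (nat_lit 434246) (nat_lit 28) (.e (nat_lit 573489) (nat_lit 14) (.e (nat_lit 73755) (nat_lit 8) (.e (nat_lit 557090) (nat_lit 12) (.e (nat_lit 164006) (nat_lit 41) (.e (nat_lit 671488) (nat_lit 0) .nil)))))))) (.g (nat_lit 6) .nil .nil))) 
(.lf (nat_lit 45753) (.g (nat_lit 3738) (.e (nat_lit 1255) (nat_lit 92) (.e (nat_lit 98367) (nat_lit 27) (.e (nat_lit 434248) (nat_lit 28) (.e (nat_lit 573489) (nat_lit 14) (.e (nat_lit 73754) (nat_lit 8) (.e (nat_lit 557094) (nat_lit 12) (.e (nat_lit 164008) (nat_lit 41) (.e (nat_lit 671488) (nat_lit 0) .nil)))))))) (.g (nat_lit 6) .nil .nil)))))) 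
(.nd (nat_lit 3) (.nd (nat_lit 4) (.nd (nat_lit 5) 
(.lf (nat_lit 45701) (.g (nat_lit 3732) (.e (nat_lit 1255) (nat_lit 92) (.e (nat_lit 98367) (nat_lit 27) (.e (nat_lit 434244) (nat_lit 28) (.e (nat_lit 573488) (nat_lit 14) (.e (nat_lit 73755) (nat_lit 8) (.e (nat_lit 557089) (nat_lit 12) (.e (nat_lit 164006) (nat_lit 41) (.e (nat_lit 671488) (nat_lit 0) .nil)))))))) (.g (nat_lit 5) .nil .nil))) 
(.lf (nat_lit 45733) (.g (nat_lit 4218) (.e (nat_lit 1255) (nat_lit 92) (.e (nat_lit 98367) (nat_lit 27) (.e (nat_lit 434247) (nat_lit 28) (.e (nat_lit 573489) (nat_lit 14) (.e (nat_lit 73755) (nat_lit 8) (.e (nat_lit 557089) (nat_lit 12) (.e (nat_lit 164007) (nat_lit 41) (.e (nat_lit 663560) (nat_lit 0) .nil)))))))) (.g (nat_lit 8) .nil .nil)))) (.nd (nat_lit 5) 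
(.lf (nat_lit 45717) (.g (nat_lit 3735) (.e (nat_lit 1255) (nat_lit 92) (.e (nat_lit 98367) (nat_lit 27) (.e (nat_lit 434246) (nat_lit 28) (.e (nat_lit 573489) (nat_lit 14) (.e (nat_lit 73755) (nat_lit 8) (.e (nat_lit 557089) (nat_lit 12) (.e (nat_lit 164007) (nat_lit 41) (.e (nat_lit 663560) (nat_lit 0) .nil)))))))) (.g (nat_lit 6) .nil .nil))) 
(.lf (nat_lit 45749) (.g (nat_lit 2324) (.e (nat_lit 1255) (nat_lit 92) (.e (nat_lit 98367) (nat_lit 27) (.e (nat_lit 434248) (nat_lit 28) (.e (nat_lit 573487) (nat_lit 14) (.e (nat_lit 73753) (nat_lit 8) (.e (nat_lit 557090) (nat_lit 12) (.e (nat_lit 164008) (nat_lit 41) (.e (nat_lit 671488) (nat_lit 0) .nil)))))))) (.g (nat_lit 4) .nil .nil))))) (.nd (nat_lit 4) (.nd (nat_lit 5) 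
(.lf (nat_lit 45709) (.g (nat_lit 2662) (.e (nat_lit 1255) (nat_lit 92) (.e (nat_lit 98367) (nat_lit 27) (.e (nat_lit 434245) (nat_lit 28) (.e (nat_lit 573488) (nat_lit 14) (.e (nat_lit 73755) (nat_lit 8) (.e (nat_lit 557089) (nat_lit 12) (.e (nat_lit 164007) (nat_lit 41) (.e (nat_lit 663560) (nat_lit 0) .nil)))))))) (.g (nat_lit 5) .nil .nil))) 
(.lf (nat_lit 45741) (.g (nat_lit 4467) (.e (nat_lit 1255) (nat_lit 92) (.e (nat_lit 98367) (nat_lit 27) (.e (nat_lit 434247) (nat_lit 28) (.e (nat_lit 573489) (nat_lit 14) (.e (nat_lit 73755) (nat_lit 8) (.e (nat_lit 557091) (nat_lit 12) (.e (nat_lit 164006) (nat_lit 41) (.e (nat_lit 671488) (nat_lit 0) .nil)))))))) (.g (nat_lit 7) .nil .nil)))) (.nd (nat_lit 5) 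
(.lf (nat_lit 45725) (.g (nat_lit 1931) (.e (nat_lit 1255) (nat_lit 92) (.e (nat_lit 98367) (nat_lit 27) (.e (nat_lit 434247) (nat_lit 28) (.e (nat_lit 573487) (nat_lit 14) (.e (nat_lit 73753) (nat_lit 8) (.e (nat_lit 557089) (nat_lit 12) (.e (nat_lit 164006) (nat_lit 41) (.e (nat_lit 671488) (nat_lit 0) .nil)))))))) (.g (nat_lit 4) .nil .nil))) 
(.lf (nat_lit 45757) (.g (nat_lit 2790) (.e (nat_lit 1255) (nat_lit 92) (.e (nat_lit 98367) (nat_lit 27) (.e (nat_lit 434248) (nat_lit 28) (.e (nat_lit 573489) (nat_lit 14) (.e (nat_lit 73755) (nat_lit 8) (.e (nat_lit 557090) (nat_lit 12) (.e (nat_lit 163844) (nat_lit 0) (.e (nat_lit 5808) (nat_lit 320) (.e (nat_lit 1027) (nat_lit 81) .nil))))))))) (.g (nat_lit 4) .nil .nil))))))) 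
(.nd (nat_lit 2) (.nd (nat_lit 3) (.nd (nat_lit 4) (.nd (nat_lit 5) 
(.lf (nat_lit 45699) (.g (nat_lit 1356) (.e (nat_lit 1255) (nat_lit 92) (.e (nat_lit 98367) (nat_lit 27) (.e (nat_lit 434244) (nat_lit 28) (.e (nat_lit 573488) (nat_lit 14) .nil)))) .nil)) 
(.lf (nat_lit 45731) (.g (nat_lit 4549) (.e (nat_lit 1255) (nat_lit 92) (.e (nat_lit 98367) (nat_lit 27) (.e (nat_lit 434247) (nat_lit 28) (.e (nat_lit 573489) (nat_lit 14) (.e (nat_lit 73755) (nat_lit 8) (.e (nat_lit 557089) (nat_lit 12) (.e (nat_lit 164006) (nat_lit 41) (.e (nat_lit 671488) (nat_lit 0) .nil)))))))) (.g (nat_lit 7) .nil .nil)))) (.nd (nat_lit 5) 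
(.lf (nat_lit 45715) (.g (nat_lit 2012) (.e (nat_lit 1255) (nat_lit 92) (.e (nat_lit 98367) (nat_lit 27) (.e (nat_lit 434246) (nat_lit 28) (.e (nat_lit 573489) (nat_lit 14) (.e (nat_lit 73754) (nat_lit 8) (.e (nat_lit 557093) (nat_lit 12) (.e (nat_lit 164010) (nat_lit 41) (.e (nat_lit 671488) (nat_lit 0) .nil)))))))) (.g (nat_lit 4) .nil .nil))) 
(.lf (nat_lit 45747) (.g (nat_lit 3852) (.e (nat_lit 1255) (nat_lit 92) (.e (nat_lit 98367) (nat_lit 27) (.e (nat_lit 434248) (nat_lit 28) (.e (nat_lit 573487) (nat_lit 14) (.e (nat_lit 73753) (nat_lit 8) (.e (nat_lit 557089) (nat_lit 12) (.e (nat_lit 164006) (nat_lit 41) (.e (nat_lit 671488) (nat_lit 0) .nil)))))))) (.g (nat_lit 6) .nil .nil))))) (.nd (nat_lit 4) (.nd (nat_lit 5) 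
(.lf (nat_lit 45707) (.g (nat_lit 2332) (.e (nat_lit 1255) (nat_lit 92) (.e (nat_lit 98367) (nat_lit 27) (.e (nat_lit 434245) (nat_lit 28) (.e (nat_lit 573487) (nat_lit 14) (.e (nat_lit 73753) (nat_lit 8) (.e (nat_lit 557091) (nat_lit 12) (.e (nat_lit 164008) (nat_lit 41) (.e (nat_lit 671488) (nat_lit 0) .nil)))))))) (.g (nat_lit 4) .nil .nil))) 
(.lf (nat_lit 45739) (.g (nat_lit 3974) (.e (nat_lit 1255) (nat_lit 92) (.e (nat_lit 98367) (nat_lit 27) (.e (nat_lit 434247) (nat_lit 28) (.e (nat_lit 573489) (nat_lit 14) (.e (nat_lit 73755) (nat_lit 8) (.e (nat_lit 557091) (nat_lit 12) (.e (nat_lit 164005) (nat_lit 41) (.e (nat_lit 671488) (nat_lit 0) .nil)))))))) (.g (nat_lit 6) .nil .nil)))) (.nd (nat_lit 5) 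
(.lf (nat_lit 45723) (.g (nat_lit 3595) (.e (nat_lit 1255) (nat_lit 92) (.e (nat_lit 98367) (nat_lit 27) (.e (nat_lit 434246) (nat_lit 28) (.e (nat_lit 573489) (nat_lit 14) (.e (nat_lit 73755) (nat_lit 8) (.e (nat_lit 557090) (nat_lit 12) (.e (nat_lit 164007) (nat_lit 41) (.e (nat_lit 671488) (nat_lit 0) .nil)))))))) (.g (nat_lit 6) .nil .nil))) 
(.lf (nat_lit 45755) (.g (nat_lit 3887) (.e (nat_lit 1255) (nat_lit 92) (.e (nat_lit 98367) (nat_lit 27) (.e (nat_lit 434248) (nat_lit 28) (.e (nat_lit 573489) (nat_lit 14) (.e (nat_lit 73755) (nat_lit 8) (.e (nat_lit 557089) (nat_lit 12) (.e (nat_lit 164007) (nat_lit 41) (.e (nat_lit 671488) (nat_lit 0) .nil)))))))) (.g (nat_lit 5) .nil .nil)))))) 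
(.nd (nat_lit 3) (.nd (nat_lit 4) (.nd (nat_lit 5) 
(.lf (nat_lit 45703) (.g (nat_lit 3453) (.e (nat_lit 1255) (nat_lit 92) (.e (nat_lit 98367) (nat_lit 27) (.e (nat_lit 434244) (nat_lit 28) (.e (nat_lit 573488) (nat_lit 14) (.e (nat_lit 73755) (nat_lit 8) (.e (nat_lit 557090) (nat_lit 12) (.e (nat_lit 164007) (nat_lit 41) (.e (nat_lit 671488) (nat_lit 0) .nil)))))))) (.g (nat_lit 5) .nil .nil))) 
(.lf (nat_lit 45735) (.g (nat_lit 4203) (.e (nat_lit 1255) (nat_lit 92) (.e (nat_lit 98367) (nat_lit 27) (.e (nat_lit 434247) (nat_lit 28) (.e (nat_lit 573489) (nat_lit 14) (.e (nat_lit 73755) (nat_lit 8) (.e (nat_lit 557089) (nat_lit 12) (.e (nat_lit 164010) (nat_lit 41) (.e (nat_lit 671488) (nat_lit 0) .nil)))))))) (.g (nat_lit 7) .nil .nil)))) (.nd (nat_lit 5) 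
(.lf (nat_lit 45719) (.g (nat_lit 3704) (.e (nat_lit 1255) (nat_lit 92) (.e (nat_lit 98367) (nat_lit 27) (.e (nat_lit 434246) (nat_lit 28) (.e (nat_lit 573489) (nat_lit 14) (.e (nat_lit 73755) (nat_lit 8) (.e (nat_lit 557089) (nat_lit 12) (.e (nat_lit 164010) (nat_lit 41) (.e (nat_lit 671488) (nat_lit 0) .nil)))))))) (.g (nat_lit 6) .nil .nil))) 
(.lf (nat_lit 45751) (.g (nat_lit 3256) (.e (nat_lit 1255) (nat_lit 92) (.e (nat_lit 98367) (nat_lit 27) (.e (nat_lit 434248) (nat_lit 28) (.e (nat_lit 573487) (nat_lit 14) (.e (nat_lit 73753) (nat_lit 8) (.e (nat_lit 557094) (nat_lit 12) (.e (nat_lit 164008) (nat_lit 41) (.e (nat_lit 671488) (nat_lit 0) .nil)))))))) (.g (nat_lit 5) .nil .nil))))) (.nd (nat_lit 4) (.nd (nat_lit 5) 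
(.lf (nat_lit 45711) (.g (nat_lit 1873) (.e (nat_lit 1255) (nat_lit 92) (.e (nat_lit 98367) (nat_lit 27) (.e (nat_lit 434246) (nat_lit 28) (.e (nat_lit 573487) (nat_lit 14) (.e (nat_lit 73753) (nat_lit 8) .nil))))) .nil)) 
(.lf (nat_lit 45743) (.g (nat_lit 3714) (.e (nat_lit 1255) (nat_lit 92) (.e (nat_lit 98367) (nat_lit 27) (.e (nat_lit 434247) (nat_lit 28) (.e (nat_lit 573489) (nat_lit 14) (.e (nat_lit 73755) (nat_lit 8) (.e (nat_lit 557091) (nat_lit 12) (.e (nat_lit 164007) (nat_lit 41) (.e (nat_lit 671488) (nat_lit 0) .nil)))))))) (.g (nat_lit 6) .nil .nil)))) (.nd (nat_lit 5) 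
(.lf (nat_lit 45727) (.g (nat_lit 2606) (.e (nat_lit 1255) (nat_lit 92) (.e (nat_lit 98367) (nat_lit 27) (.e (nat_lit 434247) (nat_lit 28) (.e (nat_lit 573489) (nat_lit 14) (.e (nat_lit 73754) (nat_lit 8) (.e (nat_lit 557094) (nat_lit 12) (.e (nat_lit 164008) (nat_lit 41) (.e (nat_lit 671488) (nat_lit 0) .nil)))))))) (.g (nat_lit 5) .nil .nil))) 
(.lf (nat_lit 45759) (.g (nat_lit 4985) (.e (nat_lit 1255) (nat_lit 92) (.e (nat_lit 98367) (nat_lit 27) (.e (nat_lit 434248) (nat_lit 28) (.e (nat_lit 573489) (nat_lit 14) (.e (nat_lit 73755) (nat_lit 8) (.e (nat_lit 557090) (nat_lit 12) (.e (nat_lit 164006) (nat_lit 41) (.e (nat_lit 671488) (nat_lit 0) .nil)))))))) (.g (nat_lit 7) .nil .nil)))))))))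

noncomputable def tv635 : DT := (.nd (nat_lit 0) (.nd (nat_lit 1) (.nd (nat_lit 2) (.nd (nat_lit 3) (.nd (nat_lit 4) (.nd (nat_lit 5) 
(.lf (nat_lit 45760) (.g (nat_lit 2751) (.e (nat_lit 1255) (nat_lit 92) (.e (nat_lit 98367) (nat_lit 27) (.e (nat_lit 434248) (nat_lit 28) (.e (nat_lit 573489) (nat_lit 14) (.e (nat_lit 73755) (nat_lit 8) (.e (nat_lit 557090) (nat_lit 12) (.e (nat_lit 164007) (nat_lit 41) (.e (nat_lit 663559) (nat_lit 0) .nil)))))))) (.g (nat_lit 4) .nil .nil))) 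
(.lf (nat_lit 45792) (.g (nat_lit 1976) (.e (nat_lit 1255) (nat_lit 92) (.e (nat_lit 98372) (nat_lit 29) (.e (nat_lit 450561) (nat_lit 0) (.e (nat_lit 6416) (nat_lit 341) (.e (nat_lit 163886) (nat_lit 5) (.e (nat_lit 221218) (nat_lit 24) (.e (nat_lit 220928) (nat_lit 0) .nil))))))) (.g (nat_lit 6) .nil .nil)))) (.nd (nat_lit 5) 
(.lf (nat_lit 45776) (.g (nat_lit 734) (.e (nat_lit 1255) (nat_lit 92) (.e (nat_lit 98369) (nat_lit 28) (.e (nat_lit 450304) (nat_lit 18) (.e (nat_lit 393254) (nat_lit 18) (.e (nat_lit 164385) (nat_lit 254) (.e (nat_lit 7936) (nat_lit 81) .nil)))))) (.g (nat_lit 4) .nil .nil))) 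
(.lf (nat_lit 45808) (.g (nat_lit 1876) (.e (nat_lit 1255) (nat_lit 92) (.e (nat_lit 98372) (nat_lit 29) (.e (nat_lit 450563) (nat_lit 0) (.e (nat_lit 6416) (nat_lit 341) (.e (nat_lit 163878) (nat_lit 4) (.e (nat_lit 213013) (nat_lit 9) (.e (nat_lit 2699) (nat_lit 169) (.e (nat_lit 220928) (nat_lit 0) .nil)))))))) (.g (nat_lit 4) .nil .nil))))) (.nd (nat_lit 4) (.nd (nat_lit 5) 
(.lf (nat_lit 45768) (.g (nat_lit 2582) (.e (nat_lit 1255) (nat_lit 92) (.e (nat_lit 98369) (nat_lit 28) (.e (nat_lit 442390) (nat_lit 11) (.e (nat_lit 336387) (nat_lit 27) (.e (nat_lit 426108) (nat_lit 1) (.e (nat_lit 164385) (nat_lit 254) (.e (nat_lit 7936) (nat_lit 81) .nil))))))) (.g (nat_lit 5) .nil .nil))) 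
(.lf (nat_lit 45800) (.g (nat_lit 2958) (.e (nat_lit 1255) (nat_lit 92) (.e (nat_lit 98372) (nat_lit 29) (.e (nat_lit 450561) (nat_lit 0) (.e (nat_lit 6420) (nat_lit 341) (.e (nat_lit 163885) (nat_lit 5) (.e (nat_lit 221219) (nat_lit 24) (.e (nat_lit 220928) (nat_lit 0) .nil))))))) (.g (nat_lit 6) .nil .nil)))) (.nd (nat_lit 5) 
(.lf (nat_lit 45784) (.g (nat_lit 2331) (.e (nat_lit 1255) (nat_lit 92) (.e (nat_lit 98370) (nat_lit 28) (.e (nat_lit 442436) (nat_lit 26) (.e (nat_lit 253986) (nat_lit 10) (.e (nat_lit 8277) (nat_lit 47) (.e (nat_lit 794676) (nat_lit 24) (.e (nat_lit 220928) (nat_lit 0) .nil))))))) (.g (nat_lit 4) .nil .nil))) 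
(.lf (nat_lit 45816) (.g (nat_lit 1958) (.e (nat_lit 1255) (nat_lit 92) (.e (nat_lit 98372) (nat_lit 29) (.e (nat_lit 450563) (nat_lit 0) (.e (nat_lit 6420) (nat_lit 341) (.e (nat_lit 163878) (nat_lit 4) .nil))))) .nil))))) (.nd (nat_lit 3) (.nd (nat_lit 4) (.nd (nat_lit 5) 
(.lf (nat_lit 45764) (.g (nat_lit 656) (.e (nat_lit 1255) (nat_lit 92) (.e (nat_lit 98369) (nat_lit 28) (.e (nat_lit 442369) (nat_lit 0) (.e (nat_lit 6237) (nat_lit 335) (.e (nat_lit 164112) (nat_lit 118) (.e (nat_lit 794680) (nat_lit 24) (.e (nat_lit 220928) (nat_lit 0) .nil))))))) (.g (nat_lit 4) .nil .nil))) 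
(.lf (nat_lit 45796) (.g (nat_lit 3809) (.e (nat_lit 1255) (nat_lit 92) (.e (nat_lit 98372) (nat_lit 29) (.e (nat_lit 450561) (nat_lit 0) (.e (nat_lit 6420) (nat_lit 341) (.e (nat_lit 163843) (nat_lit 0) (.e (nat_lit 3774) (nat_lit 229) (.e (nat_lit 794680) (nat_lit 24) (.e (nat_lit 220928) (nat_lit 0) .nil)))))))) (.g (nat_lit 7) .nil .nil)))) (.nd (nat_lit 5) 
(.lf (nat_lit 45780) (.g (nat_lit 1118) (.e (nat_lit 1255) (nat_lit 92) (.e (nat_lit 98370) (nat_lit 28) (.e (nat_lit 450304) (nat_lit 18) (.e (nat_lit 393230) (nat_lit 17) (.e (nat_lit 3417) (nat_lit 213) (.e (nat_lit 671488) (nat_lit 0) .nil)))))) (.g (nat_lit 5) .nil .nil))) 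
(.lf (nat_lit 45812) (.g (nat_lit 3381) (.e (nat_lit 1255) (nat_lit 92) (.e (nat_lit 98372) (nat_lit 29) (.e (nat_lit 450563) (nat_lit 0) (.e (nat_lit 6420) (nat_lit 341) (.e (nat_lit 163843) (nat_lit 0) (.e (nat_lit 3771) (nat_lit 229) (.e (nat_lit 794679) (nat_lit 24) (.e (nat_lit 220928) (nat_lit 0) .nil)))))))) (.g (nat_lit 5) .nil .nil))))) (.nd (nat_lit 4) (.nd (nat_lit 5) 
(.lf (nat_lit 45772) (.g (nat_lit 1340) (.e (nat_lit 1255) (nat_lit 92) (.e (nat_lit 98369) (nat_lit 28) (.e (nat_lit 450304) (nat_lit 18) (.e (nat_lit 393234) (nat_lit 17) (.e (nat_lit 3432) (nat_lit 213) (.e (nat_lit 671488) (nat_lit 0) .nil)))))) (.g (nat_lit 5) .nil .nil))) 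
(.lf (nat_lit 45804) (.g (nat_lit 2002) (.e (nat_lit 1255) (nat_lit 92) (.e (nat_lit 98372) (nat_lit 29) (.e (nat_lit 450561) (nat_lit 0) (.e (nat_lit 6595) (nat_lit 351) (.e (nat_lit 2640) (nat_lit 165) (.e (nat_lit 180264) (nat_lit 21) (.e (nat_lit 671488) (nat_lit 0) .nil))))))) (.g (nat_lit 5) .nil .nil)))) (.nd (nat_lit 5) 
(.lf (nat_lit 45788) (.g (nat_lit 2095) (.e (nat_lit 1255) (nat_lit 92) (.e (nat_lit 98372) (nat_lit 29) (.e (nat_lit 450561) (nat_lit 0) (.e (nat_lit 6416) (nat_lit 341) (.e (nat_lit 163878) (nat_lit 4) (.e (nat_lit 213013) (nat_lit 9) (.e (nat_lit 2699) (nat_lit 169) (.e (nat_lit 220928) (nat_lit 0) .nil)))))))) (.g (nat_lit 7) .nil .nil))) 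
(.lf (nat_lit 45820) (.g (nat_lit 1217) (.e (nat_lit 1255) (nat_lit 92) (.e (nat_lit 98372) (nat_lit 29) (.e (nat_lit 450563) (nat_lit 0) (.e (nat_lit 6595) (nat_lit 351) .nil)))) .nil)))))) (.nd (nat_lit 2) (.nd (nat_lit 3) (.nd (nat_lit 4) (.nd (nat_lit 5) 
(.lf (nat_lit 45762) (.g (nat_lit 882) (.e (nat_lit 1255) (nat_lit 92) (.e (nat_lit 98369) (nat_lit 28) (.e (nat_lit 442369) (nat_lit 0) (.e (nat_lit 6237) (nat_lit 335) (.e (nat_lit 164112) (nat_lit 118) (.e (nat_lit 794678) (nat_lit 24) (.e (nat_lit 220928) (nat_lit 0) .nil))))))) (.g (nat_lit 5) .nil .nil))) 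
(.lf (nat_lit 45794) (.g (nat_lit 3086) (.e (nat_lit 1255) (nat_lit 92) (.e (nat_lit 98372) (nat_lit 29) (.e (nat_lit 450561) (nat_lit 0) (.e (nat_lit 6420) (nat_lit 341) (.e (nat_lit 163843) (nat_lit 0) (.e (nat_lit 3771) (nat_lit 229) (.e (nat_lit 794679) (nat_lit 24) (.e (nat_lit 220928) (nat_lit 0) .nil)))))))) (.g (nat_lit 6) .nil .nil)))) (.nd (nat_lit 5) 
(.lf (nat_lit 45778) (.g (nat_lit 931) (.e (nat_lit 1255) (nat_lit 92) (.e (nat_lit 98370) (nat_lit 28) (.e (nat_lit 442374) (nat_lit 0) (.e (nat_lit 1856) (nat_lit 124) .nil)))) .nil)) 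
(.lf (nat_lit 45810) (.g (nat_lit 1981) (.e (nat_lit 1255) (nat_lit 92) (.e (nat_lit 98372) (nat_lit 29) (.e (nat_lit 450563) (nat_lit 0) (.e (nat_lit 6416) (nat_lit 341) (.e (nat_lit 163885) (nat_lit 5) (.e (nat_lit 221218) (nat_lit 24) (.e (nat_lit 220928) (nat_lit 0) .nil))))))) (.g (nat_lit 4) .nil .nil))))) (.nd (nat_lit 4) (.nd (nat_lit 5) 
(.lf (nat_lit 45770) (.g (nat_lit 921) (.e (nat_lit 1255) (nat_lit 92) (.e (nat_lit 98369) (nat_lit 28) (.e (nat_lit 450304) (nat_lit 18) (.e (nat_lit 393234) (nat_lit 17) (.e (nat_lit 3432) (nat_lit 213) (.e (nat_lit 663552) (nat_lit 0) .nil)))))) (.g (nat_lit 4) .nil .nil))) 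
(.lf (nat_lit 45802) (.g (nat_lit 1516) (.e (nat_lit 1255) (nat_lit 92) (.e (nat_lit 98372) (nat_lit 29) (.e (nat_lit 450561) (nat_lit 0) (.e (nat_lit 6595) (nat_lit 351) (.e (nat_lit 2639) (nat_lit 165) (.e (nat_lit 180264) (nat_lit 21) (.e (nat_lit 671488) (nat_lit 0) .nil))))))) (.g (nat_lit 4) .nil .nil)))) (.nd (nat_lit 5) 
(.lf (nat_lit 45786) (.g (nat_lit 2677) (.e (nat_lit 1255) (nat_lit 92) (.e (nat_lit 98370) (nat_lit 28) (.e (nat_lit 442436) (nat_lit 26) (.e (nat_lit 253987) (nat_lit 10) (.e (nat_lit 8276) (nat_lit 47) (.e (nat_lit 794677) (nat_lit 24) (.e (nat_lit 220928) (nat_lit 0) .nil))))))) (.g (nat_lit 6) .nil .nil))) 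
(.lf (nat_lit 45818) (.g (nat_lit 2969) (.e (nat_lit 1255) (nat_lit 92) (.e (nat_lit 98372) (nat_lit 29) (.e (nat_lit 450563) (nat_lit 0) (.e (nat_lit 6420) (nat_lit 341) (.e (nat_lit 163885) (nat_lit 5) (.e (nat_lit 221218) (nat_lit 24) (.e (nat_lit 220928) (nat_lit 0) .nil))))))) (.g (nat_lit 5) .nil .nil)))))) (.nd (nat_lit 3) (.nd (nat_lit 4) (.nd (nat_lit 5) 
(.lf (nat_lit 45766) (.g (nat_lit 2131) (.e (nat_lit 1255) (nat_lit 92) (.e (nat_lit 98369) (nat_lit 28) (.e (nat_lit 442389) (nat_lit 11) (.e (nat_lit 336051) (nat_lit 6) (.e (nat_lit 147466) (nat_lit 9) (.e (nat_lit 2703) (nat_lit 169) (.e (nat_lit 220928) (nat_lit 0) .nil))))))) (.g (nat_lit 5) .nil .nil))) 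
(.lf (nat_lit 45798) (.g (nat_lit 2775) (.e (nat_lit 1255) (nat_lit 92) (.e (nat_lit 98372) (nat_lit 29) (.e (nat_lit 450561) (nat_lit 0) (.e (nat_lit 6420) (nat_lit 341) (.e (nat_lit 163884) (nat_lit 5) (.e (nat_lit 221217) (nat_lit 24) (.e (nat_lit 220928) (nat_lit 0) .nil))))))) (.g (nat_lit 6) .nil .nil)))) (.nd (nat_lit 5) 
(.lf (nat_lit 45782) (.g (nat_lit 1934) (.e (nat_lit 1255) (nat_lit 92) (.e (nat_lit 98370) (nat_lit 28) (.e (nat_lit 442436) (nat_lit 26) (.e (nat_lit 253985) (nat_lit 10) .nil)))) .nil)) 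
(.lf (nat_lit 45814) (.g (nat_lit 3427) (.e (nat_lit 1255) (nat_lit 92) (.e (nat_lit 98372) (nat_lit 29) (.e (nat_lit 450563) (nat_lit 0) (.e (nat_lit 6420) (nat_lit 341) (.e (nat_lit 163843) (nat_lit 0) (.e (nat_lit 3774) (nat_lit 229) (.e (nat_lit 794677) (nat_lit 24) (.e (nat_lit 220928) (nat_lit 0) .nil)))))))) (.g (nat_lit 5) .nil .nil))))) (.nd (nat_lit 4) (.nd (nat_lit 5) 
(.lf (nat_lit 45774) (.g (nat_lit 1218) (.e (nat_lit 1255) (nat_lit 92) (.e (nat_lit 98369) (nat_lit 28) (.e (nat_lit 450304) (nat_lit 18) (.e (nat_lit 393251) (nat_lit 18) (.e (nat_lit 164381) (nat_lit 254) .nil))))) .nil)) 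
(.lf (nat_lit 45806) (.g (nat_lit 1272) (.e (nat_lit 1255) (nat_lit 92) (.e (nat_lit 98372) (nat_lit 29) (.e (nat_lit 450562) (nat_lit 0) (.e (nat_lit 6416) (nat_lit 341) .nil)))) .nil))) (.nd (nat_lit 5) 
(.lf (nat_lit 45790) (.g (nat_lit 2156) (.e (nat_lit 1255) (nat_lit 92) (.e (nat_lit 98372) (nat_lit 29) (.e (nat_lit 450561) (nat_lit 0) (.e (nat_lit 6416) (nat_lit 341) (.e (nat_lit 163885) (nat_lit 5) (.e (nat_lit 221218) (nat_lit 24) (.e (nat_lit 220928) (nat_lit 0) .nil))))))) (.g (nat_lit 6) .nil .nil))) 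
(.lf (nat_lit 45822) (.g (nat_lit 1165) (.e (nat_lit 1255) (nat_lit 92) (.e (nat_lit 98372) (nat_lit 29) (.e (nat_lit 450579) (nat_lit 5) (.e (nat_lit 532501) (nat_lit 1) .nil)))) .nil))))))) (.nd (nat_lit 1) (.nd (nat_lit 2) (.nd (nat_lit 3) (.nd (nat_lit 4) (.nd (nat_lit 5) 
(.lf (nat_lit 45761) (.g (nat_lit 4443) (.e (nat_lit 1255) (nat_lit 92) (.e (nat_lit 98367) (nat_lit 27) (.e (nat_lit 434248) (nat_lit 28) (.e (nat_lit 573489) (nat_lit 14) (.e (nat_lit 73755) (nat_lit 8) (.e (nat_lit 557090) (nat_lit 12) (.e (nat_lit 164007) (nat_lit 41) (.e (nat_lit 671488) (nat_lit 0) .nil)))))))) (.g (nat_lit 7) .nil .nil))) 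
(.lf (nat_lit 45793) (.g (nat_lit 1417) (.e (nat_lit 1255) (nat_lit 92) (.e (nat_lit 98372) (nat_lit 29) (.e (nat_lit 450561) (nat_lit 0) (.e (nat_lit 6416) (nat_lit 341) (.e (nat_lit 163886) (nat_lit 5) (.e (nat_lit 221219) (nat_lit 24) (.e (nat_lit 220928) (nat_lit 0) .nil))))))) (.g (nat_lit 4) .nil .nil)))) (.nd (nat_lit 5) 
(.lf (nat_lit 45777) (.g (nat_lit 383) (.e (nat_lit 1255) (nat_lit 92) (.e (nat_lit 98369) (nat_lit 28) (.e (nat_lit 442436) (nat_lit 26) .nil))) .nil)) 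
(.lf (nat_lit 45809) (.g (nat_lit 2145) (.e (nat_lit 1255) (nat_lit 92) (.e (nat_lit 98372) (nat_lit 29) (.e (nat_lit 450563) (nat_lit 0) (.e (nat_lit 6416) (nat_lit 341) (.e (nat_lit 163884) (nat_lit 5) (.e (nat_lit 221217) (nat_lit 24) (.e (nat_lit 220928) (nat_lit 0) .nil))))))) (.g (nat_lit 4) .nil .nil))))) (.nd (nat_lit 4) (.nd (nat_lit 5) 
(.lf (nat_lit 45769) (.g (nat_lit 372) (.e (nat_lit 1255) (nat_lit 92) (.e (nat_lit 98369) (nat_lit 28) (.e (nat_lit 450304) (nat_lit 18) .nil))) .nil)) 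
(.lf (nat_lit 45801) (.g (nat_lit 2201) (.e (nat_lit 1255) (nat_lit 92) (.e (nat_lit 98372) (nat_lit 29) (.e (nat_lit 450561) (nat_lit 0) (.e (nat_lit 6595) (nat_lit 351) (.e (nat_lit 2638) (nat_lit 165) (.e (nat_lit 180263) (nat_lit 21) (.e (nat_lit 671488) (nat_lit 0) .nil))))))) (.g (nat_lit 5) .nil .nil)))) (.nd (nat_lit 5) 
(.lf (nat_lit 45785) (.g (nat_lit 2654) (.e (nat_lit 1255) (nat_lit 92) (.e (nat_lit 98370) (nat_lit 28) (.e (nat_lit 442436) (nat_lit 26) (.e (nat_lit 253986) (nat_lit 10) (.e (nat_lit 8277) (nat_lit 47) (.e (nat_lit 794677) (nat_lit 24) (.e (nat_lit 220928) (nat_lit 0) .nil))))))) (.g (nat_lit 6) .nil .nil))) 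
(.lf (nat_lit 45817) (.g (nat_lit 2992) (.e (nat_lit 1255) (nat_lit 92) (.e (nat_lit 98372) (nat_lit 29) (.e (nat_lit 450563) (nat_lit 0) (.e (nat_lit 6420) (nat_lit 341) (.e (nat_lit 163884) (nat_lit 5) (.e (nat_lit 221217) (nat_lit 24) (.e (nat_lit 220928) (nat_lit 0) .nil))))))) (.g (nat_lit 5) .nil .nil)))))) (.nd (nat_lit 3) (.nd (nat_lit 4) (.nd (nat_lit 5) 
(.lf (nat_lit 45765) (.g (nat_lit 385) (.e (nat_lit 1255) (nat_lit 92) (.e (nat_lit 98369) (nat_lit 28) (.e (nat_lit 442371) (nat_lit 0) .nil))) .nil)) 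
(.lf (nat_lit 45797) (.g (nat_lit 1659) (.e (nat_lit 1255) (nat_lit 92) (.e (nat_lit 98372) (nat_lit 29) (.e (nat_lit 450561) (nat_lit 0) (.e (nat_lit 6420) (nat_lit 341) (.e (nat_lit 163878) (nat_lit 4) (.e (nat_lit 213013) (nat_lit 9) (.e (nat_lit 2699) (nat_lit 169) (.e (nat_lit 220928) (nat_lit 0) .nil)))))))) (.g (nat_lit 4) .nil .nil)))) (.nd (nat_lit 5) 
(.lf (nat_lit 45781) (.g (nat_lit 1934) (.e (nat_lit 1255) (nat_lit 92) (.e (nat_lit 98370) (nat_lit 28) (.e (nat_lit 442436) (nat_lit 26) (.e (nat_lit 253953) (nat_lit 0) .nil)))) .nil)) 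
(.lf (nat_lit 45813) (.g (nat_lit 3400) (.e (nat_lit 1255) (nat_lit 92) (.e (nat_lit 98372) (nat_lit 29) (.e (nat_lit 450563) (nat_lit 0) (.e (nat_lit 6420) (nat_lit 341) (.e (nat_lit 163843) (nat_lit 0) (.e (nat_lit 3771) (nat_lit 229) (.e (nat_lit 794680) (nat_lit 24) (.e (nat_lit 220928) (nat_lit 0) .nil)))))))) (.g (nat_lit 5) .nil .nil))))) (.nd (nat_lit 4) (.nd (nat_lit 5) 
(.lf (nat_lit 45773) (.g (nat_lit 1218) (.e (nat_lit 1255) (nat_lit 92) (.e (nat_lit 98369) (nat_lit 28) (.e (nat_lit 450304) (nat_lit 18) (.e (nat_lit 393251) (nat_lit 18) (.e (nat_lit 164380) (nat_lit 254) .nil))))) .nil)) 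
(.lf (nat_lit 45805) (.g (nat_lit 2185) (.e (nat_lit 1255) (nat_lit 92) (.e (nat_lit 98372) (nat_lit 29) (.e (nat_lit 450561) (nat_lit 0) (.e (nat_lit 6595) (nat_lit 351) (.e (nat_lit 2640) (nat_lit 165) (.e (nat_lit 180265) (nat_lit 21) (.e (nat_lit 671488) (nat_lit 0) .nil))))))) (.g (nat_lit 6) .nil .nil)))) (.nd (nat_lit 5) 
(.lf (nat_lit 45789) (.g (nat_lit 2412) (.e (nat_lit 1255) (nat_lit 92) (.e (nat_lit 98372) (nat_lit 29) (.e (nat_lit 450561) (nat_lit 0) (.e (nat_lit 6416) (nat_lit 341) (.e (nat_lit 163884) (nat_lit 5) (.e (nat_lit 221217) (nat_lit 24) (.e (nat_lit 220928) (nat_lit 0) .nil))))))) (.g (nat_lit 6) .nil .nil))) 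
(.lf (nat_lit 45821) (.g (nat_lit 350) (.e (nat_lit 1255) (nat_lit 92) (.e (nat_lit 98372) (nat_lit 29) (.e (nat_lit 450579) (nat_lit 5) .nil))) .nil)))))) (.nd (nat_lit 2) (.nd (nat_lit 3) (.nd (nat_lit 4) (.nd (nat_lit 5) 
(.lf (nat_lit 45763) (.g (nat_lit 689) (.e (nat_lit 1255) (nat_lit 92) (.e (nat_lit 98369) (nat_lit 28) (.e (nat_lit 442369) (nat_lit 0) (.e (nat_lit 6237) (nat_lit 335) (.e (nat_lit 164112) (nat_lit 118) (.e (nat_lit 794679) (nat_lit 24) (.e (nat_lit 220928) (nat_lit 0) .nil))))))) (.g (nat_lit 4) .nil .nil))) 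
(.lf (nat_lit 45795) (.g (nat_lit 3105) (.e (nat_lit 1255) (nat_lit 92) (.e (nat_lit 98372) (nat_lit 29) (.e (nat_lit 450561) (nat_lit 0) (.e (nat_lit 6420) (nat_lit 341) (.e (nat_lit 163843) (nat_lit 0) (.e (nat_lit 3771) (nat_lit 229) (.e (nat_lit 794680) (nat_lit 24) (.e (nat_lit 220928) (nat_lit 0) .nil)))))))) (.g (nat_lit 6) .nil .nil)))) (.nd (nat_lit 5) 
(.lf (nat_lit 45779) (.g (nat_lit 472) (.e (nat_lit 1255) (nat_lit 92) (.e (nat_lit 98370) (nat_lit 28) (.e (nat_lit 450304) (nat_lit 18) .nil))) .nil)) 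
(.lf (nat_lit 45811) (.g (nat_lit 1790) (.e (nat_lit 1255) (nat_lit 92) (.e (nat_lit 98372) (nat_lit 29) (.e (nat_lit 450563) (nat_lit 0) (.e (nat_lit 6416) (nat_lit 341) (.e (nat_lit 163886) (nat_lit 5) (.e (nat_lit 221218) (nat_lit 24) (.e (nat_lit 220928) (nat_lit 0) .nil))))))) (.g (nat_lit 4) .nil .nil))))) (.nd (nat_lit 4) (.nd (nat_lit 5) 
(.lf (nat_lit 45771) (.g (nat_lit 1045) (.e (nat_lit 1255) (nat_lit 92) (.e (nat_lit 98369) (nat_lit 28) (.e (nat_lit 450304) (nat_lit 18) (.e (nat_lit 393234) (nat_lit 17) (.e (nat_lit 3432) (nat_lit 213) (.e (nat_lit 663560) (nat_lit 0) .nil)))))) (.g (nat_lit 4) .nil .nil))) 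
(.lf (nat_lit 45803) (.g (nat_lit 1472) (.e (nat_lit 1255) (nat_lit 92) (.e (nat_lit 98372) (nat_lit 29) (.e (nat_lit 450561) (nat_lit 0) (.e (nat_lit 6595) (nat_lit 351) (.e (nat_lit 2639) (nat_lit 165) (.e (nat_lit 180265) (nat_lit 21) (.e (nat_lit 671488) (nat_lit 0) .nil))))))) (.g (nat_lit 4) .nil .nil)))) (.nd (nat_lit 5) 
(.lf (nat_lit 45787) (.g (nat_lit 1418) (.e (nat_lit 1255) (nat_lit 92) (.e (nat_lit 98372) (nat_lit 29) (.e (nat_lit 450561) (nat_lit 0) (.e (nat_lit 6416) (nat_lit 341) (.e (nat_lit 163878) (nat_lit 4) (.e (nat_lit 213013) (nat_lit 9) (.e (nat_lit 2698) (nat_lit 169) (.e (nat_lit 220928) (nat_lit 0) .nil)))))))) (.g (nat_lit 4) .nil .nil))) 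
(.lf (nat_lit 45819) (.g (nat_lit 3174) (.e (nat_lit 1255) (nat_lit 92) (.e (nat_lit 98372) (nat_lit 29) (.e (nat_lit 450563) (nat_lit 0) (.e (nat_lit 6420) (nat_lit 341) (.e (nat_lit 163885) (nat_lit 5) (.e (nat_lit 221219) (nat_lit 24) (.e (nat_lit 220928) (nat_lit 0) .nil))))))) (.g (nat_lit 6) .nil .nil)))))) (.nd (nat_lit 3) (.nd (nat_lit 4) (.nd (nat_lit 5) 
(.lf (nat_lit 45767) (.g (nat_lit 2547) (.e (nat_lit 1255) (nat_lit 92) (.e (nat_lit 98369) (nat_lit 28) (.e (nat_lit 442390) (nat_lit 11) (.e (nat_lit 336387) (nat_lit 27) (.e (nat_lit 426107) (nat_lit 1) (.e (nat_lit 164385) (nat_lit 254) (.e (nat_lit 7936) (nat_lit 81) .nil))))))) (.g (nat_lit 6) .nil .nil))) 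
(.lf (nat_lit 45799) (.g (nat_lit 2749) (.e (nat_lit 1255) (nat_lit 92) (.e (nat_lit 98372) (nat_lit 29) (.e (nat_lit 450561) (nat_lit 0) (.e (nat_lit 6420) (nat_lit 341) (.e (nat_lit 163885) (nat_lit 5) (.e (nat_lit 221218) (nat_lit 24) (.e (nat_lit 220928) (nat_lit 0) .nil))))))) (.g (nat_lit 6) .nil .nil)))) (.nd (nat_lit 5) 
(.lf (nat_lit 45783) (.g (nat_lit 1936) (.e (nat_lit 1255) (nat_lit 92) (.e (nat_lit 98370) (nat_lit 28) (.e (nat_lit 442436) (nat_lit 26) (.e (nat_lit 253986) (nat_lit 10) .nil)))) .nil)) 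
(.lf (nat_lit 45815) (.g (nat_lit 4148) (.e (nat_lit 1255) (nat_lit 92) (.e (nat_lit 98372) (nat_lit 29) (.e (nat_lit 450563) (nat_lit 0) (.e (nat_lit 6420) (nat_lit 341) (.e (nat_lit 163843) (nat_lit 0) (.e (nat_lit 3774) (nat_lit 229) (.e (nat_lit 794680) (nat_lit 24) (.e (nat_lit 220928) (nat_lit 0) .nil)))))))) (.g (nat_lit 6) .nil .nil))))) (.nd (nat_lit 4) (.nd (nat_lit 5) 
(.lf (nat_lit 45775) (.g (nat_lit 1337) (.e (nat_lit 1255) (nat_lit 92) (.e (nat_lit 98369) (nat_lit 28) (.e (nat_lit 450304) (nat_lit 18) (.e (nat_lit 393251) (nat_lit 18) (.e (nat_lit 164381) (nat_lit 254) (.e (nat_lit 1027) (nat_lit 81) .nil)))))) (.g (nat_lit 4) .nil .nil))) 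
(.lf (nat_lit 45807) (.g (nat_lit 1659) (.e (nat_lit 1255) (nat_lit 92) (.e (nat_lit 98372) (nat_lit 29) (.e (nat_lit 450562) (nat_lit 0) (.e (nat_lit 6595) (nat_lit 351) .nil)))) .nil))) (.nd (nat_lit 5) 
(.lf (nat_lit 45791) (.g (nat_lit 2350) (.e (nat_lit 1255) (nat_lit 92) (.e (nat_lit 98372) (nat_lit 29) (.e (nat_lit 450561) (nat_lit 0) (.e (nat_lit 6416) (nat_lit 341) (.e (nat_lit 163885) (nat_lit 5) (.e (nat_lit 221219) (nat_lit 24) (.e (nat_lit 220928) (nat_lit 0) .nil))))))) (.g (nat_lit 6) .nil .nil))) 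
(.lf (nat_lit 45823) (.g (nat_lit 2198) (.e (nat_lit 1255) (nat_lit 92) (.e (nat_lit 98372) (nat_lit 29) (.e (nat_lit 450579) (nat_lit 5) (.e (nat_lit 532504) (nat_lit 1) (.e (nat_lit 57776) (nat_lit 233) .nil))))) .nil))))))))

noncomputable def tv636 : DT := (.nd (nat_lit 0) (.nd (nat_lit 1) (.nd (nat_lit 2) (.nd (nat_lit 3) (.nd (nat_lit 4) (.nd (nat_lit 5) 
(.lf (nat_lit 45824) (.g (nat_lit 2107) (.e (nat_lit 1255) (nat_lit 92) (.e (nat_lit 98372) (nat_lit 29) (.e (nat_lit 450579) (nat_lit 5) (.e (nat_lit 532522) (nat_lit 7) (.e (nat_lit 319505) (nat_lit 10) .nil))))) .nil)) 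
(.lf (nat_lit 45856) (.g (nat_lit 2098) (.e (nat_lit 1255) (nat_lit 92) (.e (nat_lit 98372) (nat_lit 29) (.e (nat_lit 450579) (nat_lit 5) (.e (nat_lit 532530) (nat_lit 9) (.e (nat_lit 336257) (nat_lit 15) (.e (nat_lit 3590) (nat_lit 224) (.e (nat_lit 753693) (nat_lit 13) .nil))))))) (.g (nat_lit 4) .nil .nil)))) (.nd (nat_lit 5) 
(.lf (nat_lit 45840) (.g (nat_lit 2292) (.e (nat_lit 1255) (nat_lit 92) (.e (nat_lit 98372) (nat_lit 29) (.e (nat_lit 450579) (nat_lit 5) (.e (nat_lit 532530) (nat_lit 9) (.e (nat_lit 335969) (nat_lit 0) .nil))))) .nil)) 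
(.lf (nat_lit 45872) (.g (nat_lit 2645) (.e (nat_lit 1255) (nat_lit 92) (.e (nat_lit 98372) (nat_lit 29) (.e (nat_lit 450579) (nat_lit 5) (.e (nat_lit 532530) (nat_lit 9) (.e (nat_lit 336260) (nat_lit 15) (.e (nat_lit 3588) (nat_lit 224) (.e (nat_lit 753693) (nat_lit 13) .nil))))))) (.g (nat_lit 5) .nil .nil))))) (.nd (nat_lit 4) (.nd (nat_lit 5) 
(.lf (nat_lit 45832) (.g (nat_lit 2596) (.e (nat_lit 1255) (nat_lit 92) (.e (nat_lit 98372) (nat_lit 29) (.e (nat_lit 450579) (nat_lit 5) (.e (nat_lit 532530) (nat_lit 9) (.e (nat_lit 335878) (nat_lit 0) (.e (nat_lit 1938) (nat_lit 132) (.e (nat_lit 630528) (nat_lit 5) .nil))))))) (.g (nat_lit 6) .nil .nil))) 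
(.lf (nat_lit 45864) (.g (nat_lit 2022) (.e (nat_lit 1255) (nat_lit 92) (.e (nat_lit 98372) (nat_lit 29) (.e (nat_lit 450579) (nat_lit 5) (.e (nat_lit 532530) (nat_lit 9) (.e (nat_lit 336258) (nat_lit 15) (.e (nat_lit 3589) (nat_lit 224) (.e (nat_lit 753693) (nat_lit 13) .nil))))))) (.g (nat_lit 4) .nil .nil)))) (.nd (nat_lit 5) 
(.lf (nat_lit 45848) (.g (nat_lit 3004) (.e (nat_lit 1255) (nat_lit 92) (.e (nat_lit 98372) (nat_lit 29) (.e (nat_lit 450579) (nat_lit 5) (.e (nat_lit 532530) (nat_lit 9) (.e (nat_lit 336240) (nat_lit 15) (.e (nat_lit 3590) (nat_lit 224) (.e (nat_lit 761600) (nat_lit 13) .nil))))))) (.g (nat_lit 6) .nil .nil))) 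
(.lf (nat_lit 45880) (.g (nat_lit 1390) (.e (nat_lit 1255) (nat_lit 92) (.e (nat_lit 98372) (nat_lit 29) (.e (nat_lit 450579) (nat_lit 5) (.e (nat_lit 532533) (nat_lit 9) .nil)))) .nil))))) (.nd (nat_lit 3) (.nd (nat_lit 4) (.nd (nat_lit 5) 
(.lf (nat_lit 45828) (.g (nat_lit 1530) (.e (nat_lit 1255) (nat_lit 92) (.e (nat_lit 98372) (nat_lit 29) (.e (nat_lit 450579) (nat_lit 5) (.e (nat_lit 532526) (nat_lit 8) (.e (nat_lit 327703) (nat_lit 10) .nil))))) .nil)) 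
(.lf (nat_lit 45860) (.g (nat_lit 2406) (.e (nat_lit 1255) (nat_lit 92) (.e (nat_lit 98372) (nat_lit 29) (.e (nat_lit 450579) (nat_lit 5) (.e (nat_lit 532530) (nat_lit 9) (.e (nat_lit 336257) (nat_lit 15) (.e (nat_lit 3594) (nat_lit 224) (.e (nat_lit 753693) (nat_lit 13) .nil))))))) (.g (nat_lit 4) .nil .nil)))) (.nd (nat_lit 5) 
(.lf (nat_lit 45844) (.g (nat_lit 2622) (.e (nat_lit 1255) (nat_lit 92) (.e (nat_lit 98372) (nat_lit 29) (.e (nat_lit 450579) (nat_lit 5) (.e (nat_lit 532530) (nat_lit 9) (.e (nat_lit 336000) (nat_lit 1) (.e (nat_lit 57783) (nat_lit 239) (.e (nat_lit 7936) (nat_lit 81) .nil))))))) (.g (nat_lit 6) .nil .nil))) 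
(.lf (nat_lit 45876) (.g (nat_lit 2287) (.e (nat_lit 1255) (nat_lit 92) (.e (nat_lit 98372) (nat_lit 29) (.e (nat_lit 450579) (nat_lit 5) (.e (nat_lit 532530) (nat_lit 9) (.e (nat_lit 336306) (nat_lit 15) .nil))))) .nil)))) (.nd (nat_lit 4) (.nd (nat_lit 5) 
(.lf (nat_lit 45836) (.g (nat_lit 2560) (.e (nat_lit 1255) (nat_lit 92) (.e (nat_lit 98372) (nat_lit 29) (.e (nat_lit 450579) (nat_lit 5) (.e (nat_lit 532530) (nat_lit 9) (.e (nat_lit 335878) (nat_lit 0) (.e (nat_lit 1943) (nat_lit 132) (.e (nat_lit 630528) (nat_lit 5) .nil))))))) (.g (nat_lit 6) .nil .nil))) 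
(.lf (nat_lit 45868) (.g (nat_lit 2287) (.e (nat_lit 1255) (nat_lit 92) (.e (nat_lit 98372) (nat_lit 29) (.e (nat_lit 450579) (nat_lit 5) (.e (nat_lit 532530) (nat_lit 9) (.e (nat_lit 336259) (nat_lit 15) .nil))))) .nil))) (.nd (nat_lit 5) 
(.lf (nat_lit 45852) (.g (nat_lit 2287) (.e (nat_lit 1255) (nat_lit 92) (.e (nat_lit 98372) (nat_lit 29) (.e (nat_lit 450579) (nat_lit 5) (.e (nat_lit 532530) (nat_lit 9) (.e (nat_lit 336249) (nat_lit 15) .nil))))) .nil)) 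
(.lf (nat_lit 45884) (.g (nat_lit 2587) (.e (nat_lit 1255) (nat_lit 92) (.e (nat_lit 98372) (nat_lit 29) (.e (nat_lit 450579) (nat_lit 5) (.e (nat_lit 532534) (nat_lit 9) (.e (nat_lit 335878) (nat_lit 0) (.e (nat_lit 1937) (nat_lit 132) (.e (nat_lit 630528) (nat_lit 5) .nil))))))) (.g (nat_lit 6) .nil .nil))))))) (.nd (nat_lit 2) (.nd (nat_lit 3) (.nd (nat_lit 4) (.nd (nat_lit 5) 
(.lf (nat_lit 45826) (.g (nat_lit 3228) (.e (nat_lit 1255) (nat_lit 92) (.e (nat_lit 98372) (nat_lit 29) (.e (nat_lit 450579) (nat_lit 5) (.e (nat_lit 532523) (nat_lit 7) (.e (nat_lit 319502) (nat_lit 10) .nil))))) .nil)) 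
(.lf (nat_lit 45858) (.g (nat_lit 2700) (.e (nat_lit 1255) (nat_lit 92) (.e (nat_lit 98372) (nat_lit 29) (.e (nat_lit 450579) (nat_lit 5) (.e (nat_lit 532530) (nat_lit 9) (.e (nat_lit 336257) (nat_lit 15) (.e (nat_lit 3592) (nat_lit 224) (.e (nat_lit 753693) (nat_lit 13) .nil))))))) (.g (nat_lit 6) .nil .nil)))) (.nd (nat_lit 5) 
(.lf (nat_lit 45842) (.g (nat_lit 2290) (.e (nat_lit 1255) (nat_lit 92) (.e (nat_lit 98372) (nat_lit 29) (.e (nat_lit 450579) (nat_lit 5) (.e (nat_lit 532530) (nat_lit 9) (.e (nat_lit 335980) (nat_lit 0) .nil))))) .nil)) 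
(.lf (nat_lit 45874) (.g (nat_lit 2277) (.e (nat_lit 1255) (nat_lit 92) (.e (nat_lit 98372) (nat_lit 29) (.e (nat_lit 450579) (nat_lit 5) (.e (nat_lit 532530) (nat_lit 9) (.e (nat_lit 336297) (nat_lit 15) .nil))))) .nil)))) (.nd (nat_lit 4) (.nd (nat_lit 5) 
(.lf (nat_lit 45834) (.g (nat_lit 2076) (.e (nat_lit 1255) (nat_lit 92) (.e (nat_lit 98372) (nat_lit 29) (.e (nat_lit 450579) (nat_lit 5) (.e (nat_lit 532530) (nat_lit 9) (.e (nat_lit 335878) (nat_lit 0) (.e (nat_lit 1943) (nat_lit 132) (.e (nat_lit 622598) (nat_lit 5) .nil))))))) (.g (nat_lit 4) .nil .nil))) 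
(.lf (nat_lit 45866) (.g (nat_lit 2225) (.e (nat_lit 1255) (nat_lit 92) (.e (nat_lit 98372) (nat_lit 29) (.e (nat_lit 450579) (nat_lit 5) (.e (nat_lit 532530) (nat_lit 9) (.e (nat_lit 336258) (nat_lit 15) (.e (nat_lit 3590) (nat_lit 224) (.e (nat_lit 753693) (nat_lit 13) .nil))))))) (.g (nat_lit 5) .nil .nil)))) (.nd (nat_lit 5) 
(.lf (nat_lit 45850) (.g (nat_lit 2287) (.e (nat_lit 1255) (nat_lit 92) (.e (nat_lit 98372) (nat_lit 29) (.e (nat_lit 450579) (nat_lit 5) (.e (nat_lit 532530) (nat_lit 9) (.e (nat_lit 336243) (nat_lit 15) .nil))))) .nil)) 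
(.lf (nat_lit 45882) (.g (nat_lit 1198) (.e (nat_lit 1255) (nat_lit 92) (.e (nat_lit 98372) (nat_lit 29) (.e (nat_lit 450579) (nat_lit 5) (.e (nat_lit 532534) (nat_lit 9) .nil)))) .nil))))) (.nd (nat_lit 3) (.nd (nat_lit 4) (.nd (nat_lit 5) 
(.lf (nat_lit 45830) (.g (nat_lit 2051) (.e (nat_lit 1255) (nat_lit 92) (.e (nat_lit 98372) (nat_lit 29) (.e (nat_lit 450579) (nat_lit 5) (.e (nat_lit 532530) (nat_lit 9) (.e (nat_lit 335878) (nat_lit 0) .nil))))) .nil)) 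
(.lf (nat_lit 45862) (.g (nat_lit 1735) (.e (nat_lit 1255) (nat_lit 92) (.e (nat_lit 98372) (nat_lit 29) (.e (nat_lit 450579) (nat_lit 5) (.e (nat_lit 532530) (nat_lit 9) (.e (nat_lit 336258) (nat_lit 15) .nil))))) .nil))) (.nd (nat_lit 5) 
(.lf (nat_lit 45846) (.g (nat_lit 3282) (.e (nat_lit 1255) (nat_lit 92) (.e (nat_lit 98372) (nat_lit 29) (.e (nat_lit 450579) (nat_lit 5) (.e (nat_lit 532530) (nat_lit 9) (.e (nat_lit 336240) (nat_lit 15) (.e (nat_lit 3590) (nat_lit 224) (.e (nat_lit 753693) (nat_lit 13) .nil))))))) (.g (nat_lit 7) .nil .nil))) 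
(.lf (nat_lit 45878) (.g (nat_lit 2223) (.e (nat_lit 1255) (nat_lit 92) (.e (nat_lit 98372) (nat_lit 29) (.e (nat_lit 450579) (nat_lit 5) (.e (nat_lit 532530) (nat_lit 9) (.e (nat_lit 336314) (nat_lit 16) .nil))))) .nil)))) (.nd (nat_lit 4) (.nd (nat_lit 5) 
(.lf (nat_lit 45838) (.g (nat_lit 2240) (.e (nat_lit 1255) (nat_lit 92) (.e (nat_lit 98372) (nat_lit 29) (.e (nat_lit 450579) (nat_lit 5) (.e (nat_lit 532530) (nat_lit 9) (.e (nat_lit 335950) (nat_lit 0) .nil))))) .nil)) 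
(.lf (nat_lit 45870) (.g (nat_lit 2635) (.e (nat_lit 1255) (nat_lit 92) (.e (nat_lit 98372) (nat_lit 29) (.e (nat_lit 450579) (nat_lit 5) (.e (nat_lit 532530) (nat_lit 9) (.e (nat_lit 336259) (nat_lit 15) (.e (nat_lit 3592) (nat_lit 224) (.e (nat_lit 753693) (nat_lit 13) .nil))))))) (.g (nat_lit 4) .nil .nil)))) (.nd (nat_lit 5) 
(.lf (nat_lit 45854) (.g (nat_lit 2713) (.e (nat_lit 1255) (nat_lit 92) (.e (nat_lit 98372) (nat_lit 29) (.e (nat_lit 450579) (nat_lit 5) (.e (nat_lit 532530) (nat_lit 9) (.e (nat_lit 336257) (nat_lit 15) (.e (nat_lit 3585) (nat_lit 224) (.e (nat_lit 753693) (nat_lit 13) .nil))))))) (.g (nat_lit 6) .nil .nil))) 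
(.lf (nat_lit 45886) (.g (nat_lit 2587) (.e (nat_lit 1255) (nat_lit 92) (.e (nat_lit 98372) (nat_lit 29) (.e (nat_lit 450579) (nat_lit 5) (.e (nat_lit 532534) (nat_lit 9) (.e (nat_lit 335878) (nat_lit 0) (.e (nat_lit 1942) (nat_lit 132) (.e (nat_lit 630528) (nat_lit 5) .nil))))))) (.g (nat_lit 6) .nil .nil)))))))) 
(.nd (nat_lit 1) (.nd (nat_lit 2) (.nd (nat_lit 3) (.nd (nat_lit 4) (.nd (nat_lit 5) 
(.lf (nat_lit 45825) (.g (nat_lit 1311) (.e (nat_lit 1255) (nat_lit 92) (.e (nat_lit 98372) (nat_lit 29) (.e (nat_lit 450579) (nat_lit 5) (.e (nat_lit 532523) (nat_lit 7) .nil)))) .nil)) 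
(.lf (nat_lit 45857) (.g (nat_lit 2399) (.e (nat_lit 1255) (nat_lit 92) (.e (nat_lit 98372) (nat_lit 29) (.e (nat_lit 450579) (nat_lit 5) (.e (nat_lit 532530) (nat_lit 9) (.e (nat_lit 336257) (nat_lit 15) (.e (nat_lit 3591) (nat_lit 224) (.e (nat_lit 753693) (nat_lit 13) .nil))))))) (.g (nat_lit 4) .nil .nil)))) (.nd (nat_lit 5) 
(.lf (nat_lit 45841) (.g (nat_lit 2287) (.e (nat_lit 1255) (nat_lit 92) (.e (nat_lit 98372) (nat_lit 29) (.e (nat_lit 450579) (nat_lit 5) (.e (nat_lit 532530) (nat_lit 9) (.e (nat_lit 335971) (nat_lit 0) .nil))))) .nil)) 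
(.lf (nat_lit 45873) (.g (nat_lit 2717) (.e (nat_lit 1255) (nat_lit 92) (.e (nat_lit 98372) (nat_lit 29) (.e (nat_lit 450579) (nat_lit 5) (.e (nat_lit 532530) (nat_lit 9) (.e (nat_lit 336261) (nat_lit 15) (.e (nat_lit 3588) (nat_lit 224) (.e (nat_lit 753693) (nat_lit 13) .nil))))))) (.g (nat_lit 6) .nil .nil))))) (.nd (nat_lit 4) (.nd (nat_lit 5) 
(.lf (nat_lit 45833) (.g (nat_lit 2539) (.e (nat_lit 1255) (nat_lit 92) (.e (nat_lit 98372) (nat_lit 29) (.e (nat_lit 450579) (nat_lit 5) (.e (nat_lit 532530) (nat_lit 9) (.e (nat_lit 335878) (nat_lit 0) (.e (nat_lit 1942) (nat_lit 132) (.e (nat_lit 630528) (nat_lit 5) .nil))))))) (.g (nat_lit 6) .nil .nil))) 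
(.lf (nat_lit 45865) (.g (nat_lit 1868) (.e (nat_lit 1255) (nat_lit 92) (.e (nat_lit 98372) (nat_lit 29) (.e (nat_lit 450579) (nat_lit 5) (.e (nat_lit 532530) (nat_lit 9) (.e (nat_lit 336258) (nat_lit 15) (.e (nat_lit 3589) (nat_lit 224) (.e (nat_lit 753697) (nat_lit 13) .nil))))))) (.g (nat_lit 4) .nil .nil)))) (.nd (nat_lit 5) 
(.lf (nat_lit 45849) (.g (nat_lit 3185) (.e (nat_lit 1255) (nat_lit 92) (.e (nat_lit 98372) (nat_lit 29) (.e (nat_lit 450579) (nat_lit 5) (.e (nat_lit 532530) (nat_lit 9) (.e (nat_lit 336240) (nat_lit 15) (.e (nat_lit 3595) (nat_lit 224) (.e (nat_lit 753693) (nat_lit 13) .nil))))))) (.g (nat_lit 6) .nil .nil))) 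
(.lf (nat_lit 45881) (.g (nat_lit 2307) (.e (nat_lit 1255) (nat_lit 92) (.e (nat_lit 98372) (nat_lit 29) (.e (nat_lit 450579) (nat_lit 5) (.e (nat_lit 532533) (nat_lit 9) (.e (nat_lit 336000) (nat_lit 1) (.e (nat_lit 57783) (nat_lit 239) (.e (nat_lit 7936) (nat_lit 81) .nil))))))) (.g (nat_lit 6) .nil .nil)))))) (.nd (nat_lit 3) (.nd (nat_lit 4) (.nd (nat_lit 5) 
(.lf (nat_lit 45829) (.g (nat_lit 1217) (.e (nat_lit 1255) (nat_lit 92) (.e (nat_lit 98372) (nat_lit 29) (.e (nat_lit 450579) (nat_lit 5) (.e (nat_lit 532530) (nat_lit 9) .nil)))) .nil)) 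
(.lf (nat_lit 45861) (.g (nat_lit 2252) (.e (nat_lit 1255) (nat_lit 92) (.e (nat_lit 98372) (nat_lit 29) (.e (nat_lit 450579) (nat_lit 5) (.e (nat_lit 532530) (nat_lit 9) (.e (nat_lit 336257) (nat_lit 15) (.e (nat_lit 3595) (nat_lit 224) (.e (nat_lit 753693) (nat_lit 13) .nil))))))) (.g (nat_lit 4) .nil .nil)))) (.nd (nat_lit 5) 
(.lf (nat_lit 45845) (.g (nat_lit 2107) (.e (nat_lit 1255) (nat_lit 92) (.e (nat_lit 98372) (nat_lit 29) (.e (nat_lit 450579) (nat_lit 5) (.e (nat_lit 532530) (nat_lit 9) (.e (nat_lit 336240) (nat_lit 15) .nil))))) .nil)) 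
(.lf (nat_lit 45877) (.g (nat_lit 1881) (.e (nat_lit 1255) (nat_lit 92) (.e (nat_lit 98372) (nat_lit 29) (.e (nat_lit 450579) (nat_lit 5) (.e (nat_lit 532530) (nat_lit 9) (.e (nat_lit 336310) (nat_lit 16) .nil))))) .nil)))) (.nd (nat_lit 4) (.nd (nat_lit 5) 
(.lf (nat_lit 45837) (.g (nat_lit 2287) (.e (nat_lit 1255) (nat_lit 92) (.e (nat_lit 98372) (nat_lit 29) (.e (nat_lit 450579) (nat_lit 5) (.e (nat_lit 532530) (nat_lit 9) (.e (nat_lit 335885) (nat_lit 0) .nil))))) .nil)) 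
(.lf (nat_lit 45869) (.g (nat_lit 2307) (.e (nat_lit 1255) (nat_lit 92) (.e (nat_lit 98372) (nat_lit 29) (.e (nat_lit 450579) (nat_lit 5) (.e (nat_lit 532530) (nat_lit 9) (.e (nat_lit 336259) (nat_lit 15) (.e (nat_lit 3591) (nat_lit 224) (.e (nat_lit 753693) (nat_lit 13) .nil))))))) (.g (nat_lit 4) .nil .nil)))) (.nd (nat_lit 5) 
(.lf (nat_lit 45853) (.g (nat_lit 2062) (.e (nat_lit 1255) (nat_lit 92) (.e (nat_lit 98372) (nat_lit 29) (.e (nat_lit 450579) (nat_lit 5) (.e (nat_lit 532530) (nat_lit 9) (.e (nat_lit 336257) (nat_lit 15) .nil))))) .nil)) 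
(.lf (nat_lit 45885) (.g (nat_lit 2655) (.e (nat_lit 1255) (nat_lit 92) (.e (nat_lit 98372) (nat_lit 29) (.e (nat_lit 450579) (nat_lit 5) (.e (nat_lit 532534) (nat_lit 9) (.e (nat_lit 335878) (nat_lit 0) (.e (nat_lit 1938) (nat_lit 132) (.e (nat_lit 630528) (nat_lit 5) .nil))))))) (.g (nat_lit 6) .nil .nil))))))) (.nd (nat_lit 2) (.nd (nat_lit 3) (.nd (nat_lit 4) (.nd (nat_lit 5) 
(.lf (nat_lit 45827) (.g (nat_lit 2107) (.e (nat_lit 1255) (nat_lit 92) (.e (nat_lit 98372) (nat_lit 29) (.e (nat_lit 450579) (nat_lit 5) (.e (nat_lit 532526) (nat_lit 8) (.e (nat_lit 327702) (nat_lit 10) (.e (nat_lit 5346) (nat_lit 298) .nil)))))) (.g (nat_lit 5) .nil .nil))) 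
(.lf (nat_lit 45859) (.g (nat_lit 2205) (.e (nat_lit 1255) (nat_lit 92) (.e (nat_lit 98372) (nat_lit 29) (.e (nat_lit 450579) (nat_lit 5) (.e (nat_lit 532530) (nat_lit 9) (.e (nat_lit 336257) (nat_lit 15) (.e (nat_lit 3593) (nat_lit 224) (.e (nat_lit 753693) (nat_lit 13) .nil))))))) (.g (nat_lit 4) .nil .nil)))) (.nd (nat_lit 5) 
(.lf (nat_lit 45843) (.g (nat_lit 2470) (.e (nat_lit 1255) (nat_lit 92) (.e (nat_lit 98372) (nat_lit 29) (.e (nat_lit 450579) (nat_lit 5) (.e (nat_lit 532530) (nat_lit 9) (.e (nat_lit 335999) (nat_lit 1) (.e (nat_lit 57783) (nat_lit 239) (.e (nat_lit 7936) (nat_lit 81) .nil))))))) (.g (nat_lit 4) .nil .nil))) 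
(.lf (nat_lit 45875) (.g (nat_lit 2287) (.e (nat_lit 1255) (nat_lit 92) (.e (nat_lit 98372) (nat_lit 29) (.e (nat_lit 450579) (nat_lit 5) (.e (nat_lit 532530) (nat_lit 9) (.e (nat_lit 336303) (nat_lit 15) .nil))))) .nil)))) (.nd (nat_lit 4) (.nd (nat_lit 5) 
(.lf (nat_lit 45835) (.g (nat_lit 2278) (.e (nat_lit 1255) (nat_lit 92) (.e (nat_lit 98372) (nat_lit 29) (.e (nat_lit 450579) (nat_lit 5) (.e (nat_lit 532530) (nat_lit 9) (.e (nat_lit 335878) (nat_lit 0) (.e (nat_lit 1943) (nat_lit 132) (.e (nat_lit 622604) (nat_lit 5) .nil))))))) (.g (nat_lit 4) .nil .nil))) 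
(.lf (nat_lit 45867) (.g (nat_lit 1947) (.e (nat_lit 1255) (nat_lit 92) (.e (nat_lit 98372) (nat_lit 29) (.e (nat_lit 450579) (nat_lit 5) (.e (nat_lit 532530) (nat_lit 9) (.e (nat_lit 336258) (nat_lit 15) (.e (nat_lit 3590) (nat_lit 224) (.e (nat_lit 761600) (nat_lit 13) .nil))))))) (.g (nat_lit 4) .nil .nil)))) (.nd (nat_lit 5) 
(.lf (nat_lit 45851) (.g (nat_lit 2287) (.e (nat_lit 1255) (nat_lit 92) (.e (nat_lit 98372) (nat_lit 29) (.e (nat_lit 450579) (nat_lit 5) (.e (nat_lit 532530) (nat_lit 9) (.e (nat_lit 336245) (nat_lit 15) .nil))))) .nil)) 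
(.lf (nat_lit 45883) (.g (nat_lit 2011) (.e (nat_lit 1255) (nat_lit 92) (.e (nat_lit 98372) (nat_lit 29) (.e (nat_lit 450579) (nat_lit 5) (.e (nat_lit 532534) (nat_lit 9) (.e (nat_lit 335878) (nat_lit 0) .nil))))) .nil))))) (.nd (nat_lit 3) (.nd (nat_lit 4) (.nd (nat_lit 5) 
(.lf (nat_lit 45831) (.g (nat_lit 2557) (.e (nat_lit 1255) (nat_lit 92) (.e (nat_lit 98372) (nat_lit 29) (.e (nat_lit 450579) (nat_lit 5) (.e (nat_lit 532530) (nat_lit 9) (.e (nat_lit 335878) (nat_lit 0) (.e (nat_lit 1937) (nat_lit 132) (.e (nat_lit 630528) (nat_lit 5) .nil))))))) (.g (nat_lit 6) .nil .nil))) 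
(.lf (nat_lit 45863) (.g (nat_lit 2564) (.e (nat_lit 1255) (nat_lit 92) (.e (nat_lit 98372) (nat_lit 29) (.e (nat_lit 450579) (nat_lit 5) (.e (nat_lit 532530) (nat_lit 9) (.e (nat_lit 336258) (nat_lit 15) (.e (nat_lit 3588) (nat_lit 224) (.e (nat_lit 753693) (nat_lit 13) .nil))))))) (.g (nat_lit 0) .nil .nil)))) (.nd (nat_lit 5) 
(.lf (nat_lit 45847) (.g (nat_lit 2655) (.e (nat_lit 1255) (nat_lit 92) (.e (nat_lit 98372) (nat_lit 29) (.e (nat_lit 450579) (nat_lit 5) (.e (nat_lit 532530) (nat_lit 9) (.e (nat_lit 336240) (nat_lit 15) (.e (nat_lit 3590) (nat_lit 224) (.e (nat_lit 753697) (nat_lit 13) .nil))))))) (.g (nat_lit 5) .nil .nil))) 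
(.lf (nat_lit 45879) (.g (nat_lit 1920) (.e (nat_lit 1255) (nat_lit 92) (.e (nat_lit 98372) (nat_lit 29) (.e (nat_lit 450579) (nat_lit 5) (.e (nat_lit 532530) (nat_lit 9) (.e (nat_lit 336340) (nat_lit 21) .nil))))) .nil)))) (.nd (nat_lit 4) (.nd (nat_lit 5) 
(.lf (nat_lit 45839) (.g (nat_lit 2492) (.e (nat_lit 1255) (nat_lit 92) (.e (nat_lit 98372) (nat_lit 29) (.e (nat_lit 450579) (nat_lit 5) (.e (nat_lit 532530) (nat_lit 9) (.e (nat_lit 335950) (nat_lit 0) (.e (nat_lit 1936) (nat_lit 132) (.e (nat_lit 622598) (nat_lit 5) .nil))))))) (.g (nat_lit 4) .nil .nil))) 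
(.lf (nat_lit 45871) (.g (nat_lit 2560) (.e (nat_lit 1255) (nat_lit 92) (.e (nat_lit 98372) (nat_lit 29) (.e (nat_lit 450579) (nat_lit 5) (.e (nat_lit 532530) (nat_lit 9) (.e (nat_lit 336259) (nat_lit 15) (.e (nat_lit 3593) (nat_lit 224) (.e (nat_lit 753693) (nat_lit 13) .nil))))))) (.g (nat_lit 4) .nil .nil)))) (.nd (nat_lit 5) 
(.lf (nat_lit 45855) (.g (nat_lit 2494) (.e (nat_lit 1255) (nat_lit 92) (.e (nat_lit 98372) (nat_lit 29) (.e (nat_lit 450579) (nat_lit 5) (.e (nat_lit 532530) (nat_lit 9) (.e (nat_lit 336257) (nat_lit 15) (.e (nat_lit 3588) (nat_lit 224) (.e (nat_lit 753693) (nat_lit 13) .nil))))))) (.g (nat_lit 5) .nil .nil))) 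
(.lf (nat_lit 45887) (.g (nat_lit 2080) (.e (nat_lit 1255) (nat_lit 92) (.e (nat_lit 98372) (nat_lit 29) (.e (nat_lit 450579) (nat_lit 5) (.e (nat_lit 532534) (nat_lit 9) (.e (nat_lit 335878) (nat_lit 0) (.e (nat_lit 1943) (nat_lit 132) (.e (nat_lit 622598) (nat_lit 5) .nil))))))) (.g (nat_lit 4) .nil .nil)))))))))

noncomputable def tv637 : DT := (.nd (nat_lit 0) (.nd (nat_lit 1) (.nd (nat_lit 2) (.nd (nat_lit 3) (.nd (nat_lit 4) (.nd (nat_lit 5) 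
(.lf (nat_lit 45888) (.g (nat_lit 2284) (.e (nat_lit 1255) (nat_lit 92) (.e (nat_lit 98372) (nat_lit 29) (.e (nat_lit 450579) (nat_lit 5) (.e (nat_lit 532534) (nat_lit 9) (.e (nat_lit 335878) (nat_lit 0) (.e (nat_lit 1943) (nat_lit 132) (.e (nat_lit 622604) (nat_lit 5) .nil))))))) (.g (nat_lit 5) .nil .nil))) 
(.lf (nat_lit 45920) (.g (nat_lit 2425) (.e (nat_lit 1255) (nat_lit 92) (.e (nat_lit 98372) (nat_lit 29) (.e (nat_lit 450579) (nat_lit 5) (.e (nat_lit 532555) (nat_lit 13) (.e (nat_lit 368662) (nat_lit 18) (.e (nat_lit 4827) (nat_lit 281) (.e (nat_lit 7936) (nat_lit 81) .nil))))))) (.g (nat_lit 5) .nil .nil)))) (.nd (nat_lit 5) 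
(.lf (nat_lit 45904) (.g (nat_lit 1480) (.e (nat_lit 1255) (nat_lit 92) (.e (nat_lit 98372) (nat_lit 29) (.e (nat_lit 450579) (nat_lit 5) (.e (nat_lit 532552) (nat_lit 13) .nil)))) .nil)) 
(.lf (nat_lit 45936) (.g (nat_lit 370) (.e (nat_lit 1255) (nat_lit 92) (.e (nat_lit 98372) (nat_lit 29) (.e (nat_lit 450583) (nat_lit 7) .nil))) .nil)))) (.nd (nat_lit 4) (.nd (nat_lit 5) 
(.lf (nat_lit 45896) (.g (nat_lit 2301) (.e (nat_lit 1255) (nat_lit 92) (.e (nat_lit 98372) (nat_lit 29) (.e (nat_lit 450579) (nat_lit 5) (.e (nat_lit 532534) (nat_lit 9) (.e (nat_lit 336240) (nat_lit 15) (.e (nat_lit 3595) (nat_lit 224) (.e (nat_lit 753697) (nat_lit 13) .nil))))))) (.g (nat_lit 4) .nil .nil))) 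
(.lf (nat_lit 45928) (.g (nat_lit 1145) (.e (nat_lit 1255) (nat_lit 92) (.e (nat_lit 98372) (nat_lit 29) (.e (nat_lit 450579) (nat_lit 5) (.e (nat_lit 532563) (nat_lit 15) .nil)))) .nil))) (.nd (nat_lit 5) 
(.lf (nat_lit 45912) (.g (nat_lit 1904) (.e (nat_lit 1255) (nat_lit 92) (.e (nat_lit 98372) (nat_lit 29) (.e (nat_lit 450579) (nat_lit 5) (.e (nat_lit 532553) (nat_lit 13) (.e (nat_lit 368689) (nat_lit 34) (.e (nat_lit 622598) (nat_lit 5) .nil)))))) (.g (nat_lit 4) .nil .nil))) 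
(.lf (nat_lit 45944) (.g (nat_lit 2083) (.e (nat_lit 1255) (nat_lit 92) (.e (nat_lit 98372) (nat_lit 29) (.e (nat_lit 450586) (nat_lit 10) (.e (nat_lit 573452) (nat_lit 9) (.e (nat_lit 430) (nat_lit 32) (.e (nat_lit 426024) (nat_lit 0) (.e (nat_lit 7936) (nat_lit 402) .nil))))))) (.g (nat_lit 6) .nil .nil)))))) (.nd (nat_lit 3) (.nd (nat_lit 4) (.nd (nat_lit 5) 
(.lf (nat_lit 45892) (.g (nat_lit 2191) (.e (nat_lit 1255) (nat_lit 92) (.e (nat_lit 98372) (nat_lit 29) (.e (nat_lit 450579) (nat_lit 5) (.e (nat_lit 532534) (nat_lit 9) (.e (nat_lit 336240) (nat_lit 15) .nil))))) .nil)) 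
(.lf (nat_lit 45924) (.g (nat_lit 1675) (.e (nat_lit 1255) (nat_lit 92) (.e (nat_lit 98372) (nat_lit 29) (.e (nat_lit 450579) (nat_lit 5) (.e (nat_lit 532555) (nat_lit 13) (.e (nat_lit 368689) (nat_lit 34) (.e (nat_lit 622604) (nat_lit 5) .nil)))))) (.g (nat_lit 4) .nil .nil)))) (.nd (nat_lit 5) 
(.lf (nat_lit 45908) (.g (nat_lit 2635) (.e (nat_lit 1255) (nat_lit 92) (.e (nat_lit 98372) (nat_lit 29) (.e (nat_lit 450579) (nat_lit 5) (.e (nat_lit 532553) (nat_lit 13) (.e (nat_lit 368662) (nat_lit 18) (.e (nat_lit 4827) (nat_lit 281) (.e (nat_lit 7936) (nat_lit 81) .nil))))))) (.g (nat_lit 5) .nil .nil))) 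
(.lf (nat_lit 45940) (.g (nat_lit 4647) (.e (nat_lit 1255) (nat_lit 92) (.e (nat_lit 98372) (nat_lit 29) (.e (nat_lit 450586) (nat_lit 10) (.e (nat_lit 573450) (nat_lit 9) (.e (nat_lit 375) (nat_lit 32) (.e (nat_lit 426025) (nat_lit 0) (.e (nat_lit 7936) (nat_lit 402) .nil))))))) (.g (nat_lit 6) .nil .nil))))) (.nd (nat_lit 4) (.nd (nat_lit 5) 
(.lf (nat_lit 45900) (.g (nat_lit 2117) (.e (nat_lit 1255) (nat_lit 92) (.e (nat_lit 98372) (nat_lit 29) (.e (nat_lit 450579) (nat_lit 5) (.e (nat_lit 532534) (nat_lit 9) (.e (nat_lit 336257) (nat_lit 15) (.e (nat_lit 3591) (nat_lit 224) (.e (nat_lit 753693) (nat_lit 13) .nil))))))) (.g (nat_lit 4) .nil .nil))) 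
(.lf (nat_lit 45932) (.g (nat_lit 1156) (.e (nat_lit 1255) (nat_lit 92) (.e (nat_lit 98372) (nat_lit 29) (.e (nat_lit 450579) (nat_lit 5) (.e (nat_lit 532566) (nat_lit 15) .nil)))) .nil))) (.nd (nat_lit 5) 
(.lf (nat_lit 45916) (.g (nat_lit 1185) (.e (nat_lit 1255) (nat_lit 92) (.e (nat_lit 98372) (nat_lit 29) (.e (nat_lit 450579) (nat_lit 5) (.e (nat_lit 532555) (nat_lit 13) .nil)))) .nil)) 
(.lf (nat_lit 45948) (.g (nat_lit 1743) (.e (nat_lit 1255) (nat_lit 92) (.e (nat_lit 98372) (nat_lit 29) (.e (nat_lit 450586) (nat_lit 10) (.e (nat_lit 573456) (nat_lit 9) (.e (nat_lit 7936) (nat_lit 33) (.e (nat_lit 442112) (nat_lit 0) .nil)))))) (.g (nat_lit 4) .nil .nil))))))) (.nd (nat_lit 2) (.nd (nat_lit 3) (.nd (nat_lit 4) (.nd (nat_lit 5) 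
(.lf (nat_lit 45890) (.g (nat_lit 2359) (.e (nat_lit 1255) (nat_lit 92) (.e (nat_lit 98372) (nat_lit 29) (.e (nat_lit 450579) (nat_lit 5) (.e (nat_lit 532534) (nat_lit 9) (.e (nat_lit 335999) (nat_lit 1) (.e (nat_lit 57783) (nat_lit 239) (.e (nat_lit 7936) (nat_lit 81) .nil))))))) (.g (nat_lit 4) .nil .nil))) 
(.lf (nat_lit 45922) (.g (nat_lit 1571) (.e (nat_lit 1255) (nat_lit 92) (.e (nat_lit 98372) (nat_lit 29) (.e (nat_lit 450579) (nat_lit 5) (.e (nat_lit 532555) (nat_lit 13) (.e (nat_lit 368662) (nat_lit 18) (.e (nat_lit 4833) (nat_lit 281) (.e (nat_lit 1039) (nat_lit 81) .nil))))))) (.g (nat_lit 4) .nil .nil)))) (.nd (nat_lit 5) 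
(.lf (nat_lit 45906) (.g (nat_lit 1762) (.e (nat_lit 1255) (nat_lit 92) (.e (nat_lit 98372) (nat_lit 29) (.e (nat_lit 450579) (nat_lit 5) (.e (nat_lit 532553) (nat_lit 13) (.e (nat_lit 368662) (nat_lit 18) (.e (nat_lit 4772) (nat_lit 281) (.e (nat_lit 1039) (nat_lit 81) .nil))))))) (.g (nat_lit 4) .nil .nil))) 
(.lf (nat_lit 45938) (.g (nat_lit 1226) (.e (nat_lit 1255) (nat_lit 92) (.e (nat_lit 98372) (nat_lit 29) (.e (nat_lit 450586) (nat_lit 10) (.e (nat_lit 573449) (nat_lit 9) .nil)))) .nil)))) (.nd (nat_lit 4) (.nd (nat_lit 5) 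
(.lf (nat_lit 45898) (.g (nat_lit 2431) (.e (nat_lit 1255) (nat_lit 92) (.e (nat_lit 98372) (nat_lit 29) (.e (nat_lit 450579) (nat_lit 5) (.e (nat_lit 532534) (nat_lit 9) (.e (nat_lit 336257) (nat_lit 15) (.e (nat_lit 3585) (nat_lit 224) (.e (nat_lit 753693) (nat_lit 13) .nil))))))) (.g (nat_lit 5) .nil .nil))) 
(.lf (nat_lit 45930) (.g (nat_lit 2598) (.e (nat_lit 1255) (nat_lit 92) (.e (nat_lit 98372) (nat_lit 29) (.e (nat_lit 450579) (nat_lit 5) (.e (nat_lit 532563) (nat_lit 15) (.e (nat_lit 385087) (nat_lit 46) (.e (nat_lit 753693) (nat_lit 13) .nil)))))) (.g (nat_lit 0) .nil .nil)))) (.nd (nat_lit 5) 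
(.lf (nat_lit 45914) (.g (nat_lit 1733) (.e (nat_lit 1255) (nat_lit 92) (.e (nat_lit 98372) (nat_lit 29) (.e (nat_lit 450579) (nat_lit 5) (.e (nat_lit 532553) (nat_lit 13) (.e (nat_lit 368689) (nat_lit 34) (.e (nat_lit 630528) (nat_lit 5) .nil)))))) (.g (nat_lit 4) .nil .nil))) 
(.lf (nat_lit 45946) (.g (nat_lit 1457) (.e (nat_lit 1255) (nat_lit 92) (.e (nat_lit 98372) (nat_lit 29) (.e (nat_lit 450586) (nat_lit 10) (.e (nat_lit 573456) (nat_lit 9) (.e (nat_lit 430) (nat_lit 32) .nil))))) .nil))))) (.nd (nat_lit 3) (.nd (nat_lit 4) (.nd (nat_lit 5) 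
(.lf (nat_lit 45894) (.g (nat_lit 2783) (.e (nat_lit 1255) (nat_lit 92) (.e (nat_lit 98372) (nat_lit 29) (.e (nat_lit 450579) (nat_lit 5) (.e (nat_lit 532534) (nat_lit 9) (.e (nat_lit 336240) (nat_lit 15) (.e (nat_lit 3590) (nat_lit 224) (.e (nat_lit 761600) (nat_lit 13) .nil))))))) (.g (nat_lit 5) .nil .nil))) 
(.lf (nat_lit 45926) (.g (nat_lit 1341) (.e (nat_lit 1255) (nat_lit 92) (.e (nat_lit 98372) (nat_lit 29) (.e (nat_lit 450579) (nat_lit 5) (.e (nat_lit 532556) (nat_lit 13) .nil)))) .nil))) (.nd (nat_lit 5) 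
(.lf (nat_lit 45910) (.g (nat_lit 1753) (.e (nat_lit 1255) (nat_lit 92) (.e (nat_lit 98372) (nat_lit 29) (.e (nat_lit 450579) (nat_lit 5) (.e (nat_lit 532553) (nat_lit 13) (.e (nat_lit 368662) (nat_lit 18) (.e (nat_lit 4833) (nat_lit 281) (.e (nat_lit 1039) (nat_lit 81) .nil))))))) (.g (nat_lit 4) .nil .nil))) 
(.lf (nat_lit 45942) (.g (nat_lit 1051) (.e (nat_lit 1255) (nat_lit 92) (.e (nat_lit 98372) (nat_lit 29) (.e (nat_lit 450586) (nat_lit 10) (.e (nat_lit 573452) (nat_lit 9) .nil)))) .nil)))) (.nd (nat_lit 4) (.nd (nat_lit 5) 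
(.lf (nat_lit 45902) (.g (nat_lit 2124) (.e (nat_lit 1255) (nat_lit 92) (.e (nat_lit 98372) (nat_lit 29) (.e (nat_lit 450579) (nat_lit 5) (.e (nat_lit 532534) (nat_lit 9) (.e (nat_lit 336257) (nat_lit 15) (.e (nat_lit 3594) (nat_lit 224) (.e (nat_lit 753693) (nat_lit 13) .nil))))))) (.g (nat_lit 4) .nil .nil))) 
(.lf (nat_lit 45934) (.g (nat_lit 1897) (.e (nat_lit 1255) (nat_lit 92) (.e (nat_lit 98372) (nat_lit 29) (.e (nat_lit 450579) (nat_lit 5) (.e (nat_lit 532566) (nat_lit 15) (.e (nat_lit 385087) (nat_lit 46) (.e (nat_lit 753693) (nat_lit 13) .nil)))))) (.g (nat_lit 0) .nil .nil)))) (.nd (nat_lit 5) 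
(.lf (nat_lit 45918) (.g (nat_lit 1580) (.e (nat_lit 1255) (nat_lit 92) (.e (nat_lit 98372) (nat_lit 29) (.e (nat_lit 450579) (nat_lit 5) (.e (nat_lit 532555) (nat_lit 13) (.e (nat_lit 368662) (nat_lit 18) (.e (nat_lit 4772) (nat_lit 281) (.e (nat_lit 1039) (nat_lit 81) .nil))))))) (.g (nat_lit 4) .nil .nil))) 
(.lf (nat_lit 45950) (.g (nat_lit 1285) (.e (nat_lit 1255) (nat_lit 92) (.e (nat_lit 98372) (nat_lit 29) (.e (nat_lit 450586) (nat_lit 10) (.e (nat_lit 573457) (nat_lit 9) (.e (nat_lit 430) (nat_lit 32) .nil))))) .nil))))))) (.nd (nat_lit 1) (.nd (nat_lit 2) (.nd (nat_lit 3) (.nd (nat_lit 4) (.nd (nat_lit 5) 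
(.lf (nat_lit 45889) (.g (nat_lit 2567) (.e (nat_lit 1255) (nat_lit 92) (.e (nat_lit 98372) (nat_lit 29) (.e (nat_lit 450579) (nat_lit 5) (.e (nat_lit 532534) (nat_lit 9) (.e (nat_lit 335878) (nat_lit 0) (.e (nat_lit 1943) (nat_lit 132) (.e (nat_lit 630528) (nat_lit 5) .nil))))))) (.g (nat_lit 6) .nil .nil))) 
(.lf (nat_lit 45921) (.g (nat_lit 2482) (.e (nat_lit 1255) (nat_lit 92) (.e (nat_lit 98372) (nat_lit 29) (.e (nat_lit 450579) (nat_lit 5) (.e (nat_lit 532555) (nat_lit 13) (.e (nat_lit 368662) (nat_lit 18) (.e (nat_lit 4828) (nat_lit 281) (.e (nat_lit 7936) (nat_lit 81) .nil))))))) (.g (nat_lit 5) .nil .nil)))) (.nd (nat_lit 5) 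
(.lf (nat_lit 45905) (.g (nat_lit 1643) (.e (nat_lit 1255) (nat_lit 92) (.e (nat_lit 98372) (nat_lit 29) (.e (nat_lit 450579) (nat_lit 5) (.e (nat_lit 532553) (nat_lit 13) (.e (nat_lit 368662) (nat_lit 18) .nil))))) .nil)) 
(.lf (nat_lit 45937) (.g (nat_lit 370) (.e (nat_lit 1255) (nat_lit 92) (.e (nat_lit 98372) (nat_lit 29) (.e (nat_lit 450586) (nat_lit 10) .nil))) .nil)))) (.nd (nat_lit 4) (.nd (nat_lit 5) 
(.lf (nat_lit 45897) (.g (nat_lit 1934) (.e (nat_lit 1255) (nat_lit 92) (.e (nat_lit 98372) (nat_lit 29) (.e (nat_lit 450579) (nat_lit 5) (.e (nat_lit 532534) (nat_lit 9) (.e (nat_lit 336257) (nat_lit 15) .nil))))) .nil)) 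
(.lf (nat_lit 45929) (.g (nat_lit 2037) (.e (nat_lit 1255) (nat_lit 92) (.e (nat_lit 98372) (nat_lit 29) (.e (nat_lit 450579) (nat_lit 5) (.e (nat_lit 532563) (nat_lit 15) (.e (nat_lit 385043) (nat_lit 21) .nil))))) .nil))) (.nd (nat_lit 5) 
(.lf (nat_lit 45913) (.g (nat_lit 2169) (.e (nat_lit 1255) (nat_lit 92) (.e (nat_lit 98372) (nat_lit 29) (.e (nat_lit 450579) (nat_lit 5) (.e (nat_lit 532553) (nat_lit 13) (.e (nat_lit 368689) (nat_lit 34) (.e (nat_lit 622605) (nat_lit 5) .nil)))))) (.g (nat_lit 6) .nil .nil))) 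
(.lf (nat_lit 45945) (.g (nat_lit 1656) (.e (nat_lit 1255) (nat_lit 92) (.e (nat_lit 98372) (nat_lit 29) (.e (nat_lit 450586) (nat_lit 10) (.e (nat_lit 573452) (nat_lit 9) (.e (nat_lit 7936) (nat_lit 33) (.e (nat_lit 442112) (nat_lit 0) .nil)))))) (.g (nat_lit 4) .nil .nil)))))) (.nd (nat_lit 3) (.nd (nat_lit 4) (.nd (nat_lit 5) 
(.lf (nat_lit 45893) (.g (nat_lit 3061) (.e (nat_lit 1255) (nat_lit 92) (.e (nat_lit 98372) (nat_lit 29) (.e (nat_lit 450579) (nat_lit 5) (.e (nat_lit 532534) (nat_lit 9) (.e (nat_lit 336240) (nat_lit 15) (.e (nat_lit 3590) (nat_lit 224) (.e (nat_lit 753693) (nat_lit 13) .nil))))))) (.g (nat_lit 6) .nil .nil))) 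
(.lf (nat_lit 45925) (.g (nat_lit 1791) (.e (nat_lit 1255) (nat_lit 92) (.e (nat_lit 98372) (nat_lit 29) (.e (nat_lit 450579) (nat_lit 5) (.e (nat_lit 532555) (nat_lit 13) (.e (nat_lit 368689) (nat_lit 34) (.e (nat_lit 630528) (nat_lit 5) .nil)))))) (.g (nat_lit 5) .nil .nil)))) (.nd (nat_lit 5) 
(.lf (nat_lit 45909) (.g (nat_lit 2733) (.e (nat_lit 1255) (nat_lit 92) (.e (nat_lit 98372) (nat_lit 29) (.e (nat_lit 450579) (nat_lit 5) (.e (nat_lit 532553) (nat_lit 13) (.e (nat_lit 368662) (nat_lit 18) (.e (nat_lit 4828) (nat_lit 281) (.e (nat_lit 7936) (nat_lit 81) .nil))))))) (.g (nat_lit 6) .nil .nil))) 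
(.lf (nat_lit 45941) (.g (nat_lit 2239) (.e (nat_lit 1255) (nat_lit 92) (.e (nat_lit 98372) (nat_lit 29) (.e (nat_lit 450586) (nat_lit 10) (.e (nat_lit 573450) (nat_lit 9) (.e (nat_lit 442) (nat_lit 33) (.e (nat_lit 442112) (nat_lit 0) .nil)))))) (.g (nat_lit 5) .nil .nil))))) (.nd (nat_lit 4) (.nd (nat_lit 5) 
(.lf (nat_lit 45901) (.g (nat_lit 2418) (.e (nat_lit 1255) (nat_lit 92) (.e (nat_lit 98372) (nat_lit 29) (.e (nat_lit 450579) (nat_lit 5) (.e (nat_lit 532534) (nat_lit 9) (.e (nat_lit 336257) (nat_lit 15) (.e (nat_lit 3592) (nat_lit 224) (.e (nat_lit 753693) (nat_lit 13) .nil))))))) (.g (nat_lit 5) .nil .nil))) 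
(.lf (nat_lit 45933) (.g (nat_lit 1296) (.e (nat_lit 1255) (nat_lit 92) (.e (nat_lit 98372) (nat_lit 29) (.e (nat_lit 450579) (nat_lit 5) (.e (nat_lit 532566) (nat_lit 15) (.e (nat_lit 385043) (nat_lit 21) .nil))))) .nil))) (.nd (nat_lit 5) 
(.lf (nat_lit 45917) (.g (nat_lit 1466) (.e (nat_lit 1255) (nat_lit 92) (.e (nat_lit 98372) (nat_lit 29) (.e (nat_lit 450579) (nat_lit 5) (.e (nat_lit 532555) (nat_lit 13) (.e (nat_lit 368662) (nat_lit 18) .nil))))) .nil)) 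
(.lf (nat_lit 45949) (.g (nat_lit 1075) (.e (nat_lit 1255) (nat_lit 92) (.e (nat_lit 98372) (nat_lit 29) (.e (nat_lit 450586) (nat_lit 10) (.e (nat_lit 573457) (nat_lit 9) .nil)))) .nil)))))) (.nd (nat_lit 2) (.nd (nat_lit 3) (.nd (nat_lit 4) (.nd (nat_lit 5) 
(.lf (nat_lit 45891) (.g (nat_lit 2690) (.e (nat_lit 1255) (nat_lit 92) (.e (nat_lit 98372) (nat_lit 29) (.e (nat_lit 450579) (nat_lit 5) (.e (nat_lit 532534) (nat_lit 9) (.e (nat_lit 336000) (nat_lit 1) (.e (nat_lit 57783) (nat_lit 239) (.e (nat_lit 7936) (nat_lit 81) .nil))))))) (.g (nat_lit 6) .nil .nil))) 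
(.lf (nat_lit 45923) (.g (nat_lit 1986) (.e (nat_lit 1255) (nat_lit 92) (.e (nat_lit 98372) (nat_lit 29) (.e (nat_lit 450579) (nat_lit 5) (.e (nat_lit 532555) (nat_lit 13) (.e (nat_lit 368689) (nat_lit 34) (.e (nat_lit 622598) (nat_lit 5) .nil)))))) (.g (nat_lit 6) .nil .nil)))) (.nd (nat_lit 5) 
(.lf (nat_lit 45907) (.g (nat_lit 2589) (.e (nat_lit 1255) (nat_lit 92) (.e (nat_lit 98372) (nat_lit 29) (.e (nat_lit 450579) (nat_lit 5) (.e (nat_lit 532553) (nat_lit 13) (.e (nat_lit 368662) (nat_lit 18) (.e (nat_lit 4776) (nat_lit 281) (.e (nat_lit 1039) (nat_lit 81) .nil))))))) (.g (nat_lit 5) .nil .nil))) 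
(.lf (nat_lit 45939) (.g (nat_lit 1112) (.e (nat_lit 1255) (nat_lit 92) (.e (nat_lit 98372) (nat_lit 29) (.e (nat_lit 450586) (nat_lit 10) (.e (nat_lit 573450) (nat_lit 9) .nil)))) .nil)))) (.nd (nat_lit 4) (.nd (nat_lit 5) 
(.lf (nat_lit 45899) (.g (nat_lit 2212) (.e (nat_lit 1255) (nat_lit 92) (.e (nat_lit 98372) (nat_lit 29) (.e (nat_lit 450579) (nat_lit 5) (.e (nat_lit 532534) (nat_lit 9) (.e (nat_lit 336257) (nat_lit 15) (.e (nat_lit 3588) (nat_lit 224) (.e (nat_lit 753693) (nat_lit 13) .nil))))))) (.g (nat_lit 4) .nil .nil))) 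
(.lf (nat_lit 45931) (.g (nat_lit 2015) (.e (nat_lit 1255) (nat_lit 92) (.e (nat_lit 98372) (nat_lit 29) (.e (nat_lit 450579) (nat_lit 5) (.e (nat_lit 532563) (nat_lit 15) (.e (nat_lit 392960) (nat_lit 46) .nil))))) .nil))) (.nd (nat_lit 5) 
(.lf (nat_lit 45915) (.g (nat_lit 1578) (.e (nat_lit 1255) (nat_lit 92) (.e (nat_lit 98372) (nat_lit 29) (.e (nat_lit 450579) (nat_lit 5) (.e (nat_lit 532554) (nat_lit 13) .nil)))) .nil)) 
(.lf (nat_lit 45947) (.g (nat_lit 2143) (.e (nat_lit 1255) (nat_lit 92) (.e (nat_lit 98372) (nat_lit 29) (.e (nat_lit 450586) (nat_lit 10) (.e (nat_lit 573456) (nat_lit 9) (.e (nat_lit 430) (nat_lit 32) (.e (nat_lit 426024) (nat_lit 0) (.e (nat_lit 7936) (nat_lit 402) .nil))))))) (.g (nat_lit 6) .nil .nil)))))) (.nd (nat_lit 3) (.nd (nat_lit 4) (.nd (nat_lit 5) 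
(.lf (nat_lit 45895) (.g (nat_lit 2960) (.e (nat_lit 1255) (nat_lit 92) (.e (nat_lit 98372) (nat_lit 29) (.e (nat_lit 450579) (nat_lit 5) (.e (nat_lit 532534) (nat_lit 9) (.e (nat_lit 336240) (nat_lit 15) (.e (nat_lit 3595) (nat_lit 224) (.e (nat_lit 753693) (nat_lit 13) .nil))))))) (.g (nat_lit 5) .nil .nil))) 
(.lf (nat_lit 45927) (.g (nat_lit 1380) (.e (nat_lit 1255) (nat_lit 92) (.e (nat_lit 98372) (nat_lit 29) (.e (nat_lit 450579) (nat_lit 5) (.e (nat_lit 532562) (nat_lit 15) .nil)))) .nil))) (.nd (nat_lit 5) 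
(.lf (nat_lit 45911) (.g (nat_lit 1707) (.e (nat_lit 1255) (nat_lit 92) (.e (nat_lit 98372) (nat_lit 29) (.e (nat_lit 450579) (nat_lit 5) (.e (nat_lit 532553) (nat_lit 13) (.e (nat_lit 368689) (nat_lit 34) .nil))))) .nil)) 
(.lf (nat_lit 45943) (.g (nat_lit 1346) (.e (nat_lit 1255) (nat_lit 92) (.e (nat_lit 98372) (nat_lit 29) (.e (nat_lit 450586) (nat_lit 10) (.e (nat_lit 573452) (nat_lit 9) (.e (nat_lit 430) (nat_lit 32) .nil))))) .nil)))) (.nd (nat_lit 4) (.nd (nat_lit 5) 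
(.lf (nat_lit 45903) (.g (nat_lit 1970) (.e (nat_lit 1255) (nat_lit 92) (.e (nat_lit 98372) (nat_lit 29) (.e (nat_lit 450579) (nat_lit 5) (.e (nat_lit 532534) (nat_lit 9) (.e (nat_lit 336257) (nat_lit 15) (.e (nat_lit 3595) (nat_lit 224) (.e (nat_lit 753693) (nat_lit 13) .nil))))))) (.g (nat_lit 4) .nil .nil))) 
(.lf (nat_lit 45935) (.g (nat_lit 1732) (.e (nat_lit 1255) (nat_lit 92) (.e (nat_lit 98372) (nat_lit 29) (.e (nat_lit 450579) (nat_lit 5) (.e (nat_lit 532569) (nat_lit 16) (.e (nat_lit 401414) (nat_lit 0) (.e (nat_lit 7936) (nat_lit 402) .nil)))))) (.g (nat_lit 4) .nil .nil)))) (.nd (nat_lit 5) 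
(.lf (nat_lit 45919) (.g (nat_lit 2407) (.e (nat_lit 1255) (nat_lit 92) (.e (nat_lit 98372) (nat_lit 29) (.e (nat_lit 450579) (nat_lit 5) (.e (nat_lit 532555) (nat_lit 13) (.e (nat_lit 368662) (nat_lit 18) (.e (nat_lit 4776) (nat_lit 281) (.e (nat_lit 1039) (nat_lit 81) .nil))))))) (.g (nat_lit 5) .nil .nil))) 
(.lf (nat_lit 45951) (.g (nat_lit 2016) (.e (nat_lit 1255) (nat_lit 92) (.e (nat_lit 98372) (nat_lit 29) (.e (nat_lit 450586) (nat_lit 10) (.e (nat_lit 573457) (nat_lit 9) (.e (nat_lit 430) (nat_lit 32) (.e (nat_lit 426024) (nat_lit 0) (.e (nat_lit 7936) (nat_lit 402) .nil))))))) (.g (nat_lit 6) .nil .nil)))))))))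

noncomputable def tv638 : DT := (.nd (nat_lit 0) (.nd (nat_lit 1) (.nd (nat_lit 2) (.nd (nat_lit 3) (.nd (nat_lit 4) (.nd (nat_lit 5) 
(.lf (nat_lit 45952) (.g (nat_lit 1548) (.e (nat_lit 1255) (nat_lit 92) (.e (nat_lit 98372) (nat_lit 29) (.e (nat_lit 450586) (nat_lit 10) (.e (nat_lit 573457) (nat_lit 9) (.e (nat_lit 7936) (nat_lit 33) (.e (nat_lit 442112) (nat_lit 0) .nil)))))) (.g (nat_lit 4) .nil .nil))) 
(.lf (nat_lit 45984) (.g (nat_lit 2446) (.e (nat_lit 1255) (nat_lit 92) (.e (nat_lit 98373) (nat_lit 29) (.e (nat_lit 450561) (nat_lit 0) (.e (nat_lit 6420) (nat_lit 341) (.e (nat_lit 163843) (nat_lit 0) (.e (nat_lit 3774) (nat_lit 229) (.e (nat_lit 794677) (nat_lit 24) (.e (nat_lit 220928) (nat_lit 0) .nil)))))))) (.g (nat_lit 4) .nil .nil)))) (.nd (nat_lit 5) 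
(.lf (nat_lit 45968) (.g (nat_lit 1367) (.e (nat_lit 1255) (nat_lit 92) (.e (nat_lit 98372) (nat_lit 29) (.e (nat_lit 450586) (nat_lit 10) (.e (nat_lit 573477) (nat_lit 12) (.e (nat_lit 57353) (nat_lit 0) (.e (nat_lit 7265) (nat_lit 384) (.e (nat_lit 57354) (nat_lit 0) (.e (nat_lit 7936) (nat_lit 343) .nil)))))))) (.g (nat_lit 4) .nil .nil))) 
(.lf (nat_lit 46000) (.g (nat_lit 1730) (.e (nat_lit 1255) (nat_lit 92) (.e (nat_lit 98373) (nat_lit 29) (.e (nat_lit 450562) (nat_lit 0) (.e (nat_lit 6418) (nat_lit 341) .nil)))) .nil)))) (.nd (nat_lit 4) (.nd (nat_lit 5) 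
(.lf (nat_lit 45960) (.g (nat_lit 1630) (.e (nat_lit 1255) (nat_lit 92) (.e (nat_lit 98372) (nat_lit 29) (.e (nat_lit 450586) (nat_lit 10) (.e (nat_lit 573471) (nat_lit 11) (.e (nat_lit 16396) (nat_lit 0) (.e (nat_lit 7936) (nat_lit 402) .nil)))))) (.g (nat_lit 4) .nil .nil))) 
(.lf (nat_lit 45992) (.g (nat_lit 2652) (.e (nat_lit 1255) (nat_lit 92) (.e (nat_lit 98373) (nat_lit 29) (.e (nat_lit 450562) (nat_lit 0) (.e (nat_lit 6416) (nat_lit 341) (.e (nat_lit 163878) (nat_lit 4) (.e (nat_lit 213013) (nat_lit 9) (.e (nat_lit 2698) (nat_lit 169) (.e (nat_lit 220928) (nat_lit 0) .nil)))))))) (.g (nat_lit 4) .nil .nil)))) (.nd (nat_lit 5) 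
(.lf (nat_lit 45976) (.g (nat_lit 1432) (.e (nat_lit 1255) (nat_lit 92) (.e (nat_lit 98372) (nat_lit 29) (.e (nat_lit 450603) (nat_lit 22) (.e (nat_lit 704728) (nat_lit 10) (.e (nat_lit 8276) (nat_lit 47) (.e (nat_lit 794677) (nat_lit 24) (.e (nat_lit 220928) (nat_lit 0) .nil))))))) (.g (nat_lit 4) .nil .nil))) 
(.lf (nat_lit 46008) (.g (nat_lit 3544) (.e (nat_lit 1255) (nat_lit 92) (.e (nat_lit 98373) (nat_lit 29) (.e (nat_lit 450562) (nat_lit 0) (.e (nat_lit 6595) (nat_lit 351) (.e (nat_lit 2640) (nat_lit 165) (.e (nat_lit 180265) (nat_lit 21) (.e (nat_lit 671488) (nat_lit 0) .nil))))))) (.g (nat_lit 6) .nil .nil)))))) (.nd (nat_lit 3) (.nd (nat_lit 4) (.nd (nat_lit 5) 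
(.lf (nat_lit 45956) (.g (nat_lit 2216) (.e (nat_lit 1255) (nat_lit 92) (.e (nat_lit 98372) (nat_lit 29) (.e (nat_lit 450586) (nat_lit 10) (.e (nat_lit 573471) (nat_lit 11) (.e (nat_lit 16386) (nat_lit 0) (.e (nat_lit 7936) (nat_lit 402) .nil)))))) (.g (nat_lit 5) .nil .nil))) 
(.lf (nat_lit 45988) (.g (nat_lit 2316) (.e (nat_lit 1255) (nat_lit 92) (.e (nat_lit 98373) (nat_lit 29) (.e (nat_lit 450561) (nat_lit 0) (.e (nat_lit 6420) (nat_lit 341) (.e (nat_lit 163885) (nat_lit 5) (.e (nat_lit 221219) (nat_lit 24) (.e (nat_lit 220928) (nat_lit 0) .nil))))))) (.g (nat_lit 4) .nil .nil)))) (.nd (nat_lit 5) 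
(.lf (nat_lit 45972) (.g (nat_lit 2227) (.e (nat_lit 1255) (nat_lit 92) (.e (nat_lit 98372) (nat_lit 29) (.e (nat_lit 450588) (nat_lit 10) (.e (nat_lit 573470) (nat_lit 11) .nil)))) .nil)) 
(.lf (nat_lit 46004) (.g (nat_lit 2831) (.e (nat_lit 1255) (nat_lit 92) (.e (nat_lit 98373) (nat_lit 29) (.e (nat_lit 450562) (nat_lit 0) (.e (nat_lit 6595) (nat_lit 351) (.e (nat_lit 2638) (nat_lit 165) (.e (nat_lit 180264) (nat_lit 21) (.e (nat_lit 671488) (nat_lit 0) .nil))))))) (.g (nat_lit 4) .nil .nil))))) (.nd (nat_lit 4) (.nd (nat_lit 5) 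
(.lf (nat_lit 45964) (.g (nat_lit 1684) (.e (nat_lit 1255) (nat_lit 92) (.e (nat_lit 98372) (nat_lit 29) (.e (nat_lit 450586) (nat_lit 10) (.e (nat_lit 573473) (nat_lit 12) (.e (nat_lit 57352) (nat_lit 0) .nil))))) .nil)) 
(.lf (nat_lit 45996) (.g (nat_lit 3470) (.e (nat_lit 1255) (nat_lit 92) (.e (nat_lit 98373) (nat_lit 29) (.e (nat_lit 450562) (nat_lit 0) (.e (nat_lit 6416) (nat_lit 341) (.e (nat_lit 163885) (nat_lit 5) (.e (nat_lit 221218) (nat_lit 24) (.e (nat_lit 220928) (nat_lit 0) .nil))))))) (.g (nat_lit 6) .nil .nil)))) (.nd (nat_lit 5) 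
(.lf (nat_lit 45980) (.g (nat_lit 1730) (.e (nat_lit 1255) (nat_lit 92) (.e (nat_lit 98372) (nat_lit 29) (.e (nat_lit 458496) (nat_lit 23) (.e (nat_lit 712749) (nat_lit 28) (.e (nat_lit 434275) (nat_lit 39) (.e (nat_lit 671488) (nat_lit 0) .nil)))))) (.g (nat_lit 5) .nil .nil))) 
(.lf (nat_lit 46012) (.g (nat_lit 3455) (.e (nat_lit 1255) (nat_lit 92) (.e (nat_lit 98373) (nat_lit 29) (.e (nat_lit 450563) (nat_lit 0) (.e (nat_lit 6416) (nat_lit 341) (.e (nat_lit 163878) (nat_lit 4) (.e (nat_lit 213013) (nat_lit 9) (.e (nat_lit 2699) (nat_lit 169) (.e (nat_lit 220928) (nat_lit 0) .nil)))))))) (.g (nat_lit 7) .nil .nil))))))) 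
(.nd (nat_lit 2) (.nd (nat_lit 3) (.nd (nat_lit 4) (.nd (nat_lit 5) 
(.lf (nat_lit 45954) (.g (nat_lit 1011) (.e (nat_lit 1255) (nat_lit 92) (.e (nat_lit 98372) (nat_lit 29) (.e (nat_lit 450586) (nat_lit 10) (.e (nat_lit 573470) (nat_lit 11) .nil)))) .nil)) 
(.lf (nat_lit 45986) (.g (nat_lit 2124) (.e (nat_lit 1255) (nat_lit 92) (.e (nat_lit 98373) (nat_lit 29) (.e (nat_lit 450561) (nat_lit 0) (.e (nat_lit 6420) (nat_lit 341) (.e (nat_lit 163884) (nat_lit 5) (.e (nat_lit 221217) (nat_lit 24) (.e (nat_lit 220928) (nat_lit 0) .nil))))))) (.g (nat_lit 4) .nil .nil)))) (.nd (nat_lit 5) 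
(.lf (nat_lit 45970) (.g (nat_lit 3663) (.e (nat_lit 1255) (nat_lit 92) (.e (nat_lit 98372) (nat_lit 29) (.e (nat_lit 450588) (nat_lit 10) (.e (nat_lit 573450) (nat_lit 9) (.e (nat_lit 375) (nat_lit 32) .nil))))) .nil)) 
(.lf (nat_lit 46002) (.g (nat_lit 2114) (.e (nat_lit 1255) (nat_lit 92) (.e (nat_lit 98373) (nat_lit 29) (.e (nat_lit 450562) (nat_lit 0) (.e (nat_lit 6595) (nat_lit 351) .nil)))) .nil)))) (.nd (nat_lit 4) (.nd (nat_lit 5) 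
(.lf (nat_lit 45962) (.g (nat_lit 1678) (.e (nat_lit 1255) (nat_lit 92) (.e (nat_lit 98372) (nat_lit 29) (.e (nat_lit 450586) (nat_lit 10) (.e (nat_lit 573473) (nat_lit 12) (.e (nat_lit 57348) (nat_lit 0) .nil))))) .nil)) 
(.lf (nat_lit 45994) (.g (nat_lit 3693) (.e (nat_lit 1255) (nat_lit 92) (.e (nat_lit 98373) (nat_lit 29) (.e (nat_lit 450562) (nat_lit 0) (.e (nat_lit 6416) (nat_lit 341) (.e (nat_lit 163884) (nat_lit 5) (.e (nat_lit 221217) (nat_lit 24) (.e (nat_lit 220928) (nat_lit 0) .nil))))))) (.g (nat_lit 6) .nil .nil)))) (.nd (nat_lit 5) 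
(.lf (nat_lit 45978) (.g (nat_lit 1473) (.e (nat_lit 1255) (nat_lit 92) (.e (nat_lit 98372) (nat_lit 29) (.e (nat_lit 458496) (nat_lit 23) (.e (nat_lit 712747) (nat_lit 28) (.e (nat_lit 434276) (nat_lit 39) (.e (nat_lit 671488) (nat_lit 0) .nil)))))) (.g (nat_lit 5) .nil .nil))) 
(.lf (nat_lit 46010) (.g (nat_lit 3084) (.e (nat_lit 1255) (nat_lit 92) (.e (nat_lit 98373) (nat_lit 29) (.e (nat_lit 450563) (nat_lit 0) (.e (nat_lit 6416) (nat_lit 341) (.e (nat_lit 163843) (nat_lit 0) (.e (nat_lit 3774) (nat_lit 229) (.e (nat_lit 794680) (nat_lit 24) (.e (nat_lit 220928) (nat_lit 0) .nil)))))))) (.g (nat_lit 5) .nil .nil)))))) (.nd (nat_lit 3) (.nd (nat_lit 4) (.nd (nat_lit 5) 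
(.lf (nat_lit 45958) (.g (nat_lit 2174) (.e (nat_lit 1255) (nat_lit 92) (.e (nat_lit 98372) (nat_lit 29) (.e (nat_lit 450586) (nat_lit 10) (.e (nat_lit 573471) (nat_lit 11) (.e (nat_lit 16389) (nat_lit 0) (.e (nat_lit 7936) (nat_lit 402) .nil)))))) (.g (nat_lit 5) .nil .nil))) 
(.lf (nat_lit 45990) (.g (nat_lit 2276) (.e (nat_lit 1255) (nat_lit 92) (.e (nat_lit 98373) (nat_lit 29) (.e (nat_lit 450562) (nat_lit 0) (.e (nat_lit 6416) (nat_lit 341) (.e (nat_lit 163843) (nat_lit 0) (.e (nat_lit 3774) (nat_lit 229) (.e (nat_lit 794677) (nat_lit 24) (.e (nat_lit 220928) (nat_lit 0) .nil)))))))) (.g (nat_lit 4) .nil .nil)))) (.nd (nat_lit 5) 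
(.lf (nat_lit 45974) (.g (nat_lit 2440) (.e (nat_lit 1255) (nat_lit 92) (.e (nat_lit 98372) (nat_lit 29) (.e (nat_lit 450588) (nat_lit 10) (.e (nat_lit 573471) (nat_lit 11) (.e (nat_lit 16388) (nat_lit 0) .nil))))) .nil)) 
(.lf (nat_lit 46006) (.g (nat_lit 2758) (.e (nat_lit 1255) (nat_lit 92) (.e (nat_lit 98373) (nat_lit 29) (.e (nat_lit 450562) (nat_lit 0) (.e (nat_lit 6595) (nat_lit 351) (.e (nat_lit 2639) (nat_lit 165) (.e (nat_lit 180265) (nat_lit 21) (.e (nat_lit 671488) (nat_lit 0) .nil))))))) (.g (nat_lit 4) .nil .nil))))) (.nd (nat_lit 4) (.nd (nat_lit 5) 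
(.lf (nat_lit 45966) (.g (nat_lit 1808) (.e (nat_lit 1255) (nat_lit 92) (.e (nat_lit 98372) (nat_lit 29) (.e (nat_lit 450586) (nat_lit 10) (.e (nat_lit 573475) (nat_lit 12) (.e (nat_lit 57351) (nat_lit 0) .nil))))) .nil)) 
(.lf (nat_lit 45998) (.g (nat_lit 3283) (.e (nat_lit 1255) (nat_lit 92) (.e (nat_lit 98373) (nat_lit 29) (.e (nat_lit 450562) (nat_lit 0) (.e (nat_lit 6416) (nat_lit 341) (.e (nat_lit 163886) (nat_lit 5) (.e (nat_lit 221218) (nat_lit 24) (.e (nat_lit 220928) (nat_lit 0) .nil))))))) (.g (nat_lit 6) .nil .nil)))) (.nd (nat_lit 5) 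
(.lf (nat_lit 45982) (.g (nat_lit 2444) (.e (nat_lit 1255) (nat_lit 92) (.e (nat_lit 98373) (nat_lit 29) (.e (nat_lit 450561) (nat_lit 0) (.e (nat_lit 6420) (nat_lit 341) (.e (nat_lit 163843) (nat_lit 0) (.e (nat_lit 3771) (nat_lit 229) (.e (nat_lit 794679) (nat_lit 24) (.e (nat_lit 220928) (nat_lit 0) .nil)))))))) (.g (nat_lit 4) .nil .nil))) 
(.lf (nat_lit 46014) (.g (nat_lit 3505) (.e (nat_lit 1255) (nat_lit 92) (.e (nat_lit 98373) (nat_lit 29) (.e (nat_lit 450563) (nat_lit 0) (.e (nat_lit 6416) (nat_lit 341) (.e (nat_lit 163885) (nat_lit 5) (.e (nat_lit 221218) (nat_lit 24) (.e (nat_lit 220928) (nat_lit 0) .nil))))))) (.g (nat_lit 6) .nil .nil)))))))) 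
(.nd (nat_lit 1) (.nd (nat_lit 2) (.nd (nat_lit 3) (.nd (nat_lit 4) (.nd (nat_lit 5) 
(.lf (nat_lit 45953) (.g (nat_lit 1614) (.e (nat_lit 1255) (nat_lit 92) (.e (nat_lit 98372) (nat_lit 29) (.e (nat_lit 450586) (nat_lit 10) (.e (nat_lit 573469) (nat_lit 11) (.e (nat_lit 16388) (nat_lit 0) .nil))))) .nil)) 
(.lf (nat_lit 45985) (.g (nat_lit 3167) (.e (nat_lit 1255) (nat_lit 92) (.e (nat_lit 98373) (nat_lit 29) (.e (nat_lit 450561) (nat_lit 0) (.e (nat_lit 6420) (nat_lit 341) (.e (nat_lit 163843) (nat_lit 0) (.e (nat_lit 3774) (nat_lit 229) (.e (nat_lit 794680) (nat_lit 24) (.e (nat_lit 220928) (nat_lit 0) .nil)))))))) (.g (nat_lit 5) .nil .nil)))) (.nd (nat_lit 5) 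
(.lf (nat_lit 45969) (.g (nat_lit 2640) (.e (nat_lit 1255) (nat_lit 92) (.e (nat_lit 98372) (nat_lit 29) (.e (nat_lit 450588) (nat_lit 10) (.e (nat_lit 573449) (nat_lit 9) .nil)))) .nil)) 
(.lf (nat_lit 46001) (.g (nat_lit 3082) (.e (nat_lit 1255) (nat_lit 92) (.e (nat_lit 98373) (nat_lit 29) (.e (nat_lit 450562) (nat_lit 0) (.e (nat_lit 6420) (nat_lit 341) (.e (nat_lit 163843) (nat_lit 0) (.e (nat_lit 3774) (nat_lit 229) (.e (nat_lit 794680) (nat_lit 24) (.e (nat_lit 220928) (nat_lit 0) .nil)))))))) (.g (nat_lit 4) .nil .nil))))) (.nd (nat_lit 4) (.nd (nat_lit 5) 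
(.lf (nat_lit 45961) (.g (nat_lit 2268) (.e (nat_lit 1255) (nat_lit 92) (.e (nat_lit 98372) (nat_lit 29) (.e (nat_lit 450586) (nat_lit 10) (.e (nat_lit 573471) (nat_lit 11) (.e (nat_lit 16399) (nat_lit 0) .nil))))) .nil)) 
(.lf (nat_lit 45993) (.g (nat_lit 3329) (.e (nat_lit 1255) (nat_lit 92) (.e (nat_lit 98373) (nat_lit 29) (.e (nat_lit 450562) (nat_lit 0) (.e (nat_lit 6416) (nat_lit 341) (.e (nat_lit 163878) (nat_lit 4) (.e (nat_lit 213013) (nat_lit 9) (.e (nat_lit 2699) (nat_lit 169) (.e (nat_lit 220928) (nat_lit 0) .nil)))))))) (.g (nat_lit 7) .nil .nil)))) (.nd (nat_lit 5) 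
(.lf (nat_lit 45977) (.g (nat_lit 1808) (.e (nat_lit 1255) (nat_lit 92) (.e (nat_lit 98372) (nat_lit 29) (.e (nat_lit 458496) (nat_lit 23) (.e (nat_lit 712747) (nat_lit 28) (.e (nat_lit 434275) (nat_lit 39) (.e (nat_lit 671488) (nat_lit 0) .nil)))))) (.g (nat_lit 5) .nil .nil))) 
(.lf (nat_lit 46009) (.g (nat_lit 422) (.e (nat_lit 1255) (nat_lit 92) (.e (nat_lit 98373) (nat_lit 29) (.e (nat_lit 450563) (nat_lit 0) .nil))) .nil))))) (.nd (nat_lit 3) (.nd (nat_lit 4) (.nd (nat_lit 5) 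
(.lf (nat_lit 45957) (.g (nat_lit 3756) (.e (nat_lit 1255) (nat_lit 92) (.e (nat_lit 98372) (nat_lit 29) (.e (nat_lit 450586) (nat_lit 10) (.e (nat_lit 573471) (nat_lit 11) (.e (nat_lit 16388) (nat_lit 0) (.e (nat_lit 7545) (nat_lit 402) .nil)))))) (.g (nat_lit 5) .nil .nil))) 
(.lf (nat_lit 45989) (.g (nat_lit 1657) (.e (nat_lit 1255) (nat_lit 92) (.e (nat_lit 98373) (nat_lit 29) (.e (nat_lit 450562) (nat_lit 0) (.e (nat_lit 6416) (nat_lit 341) .nil)))) .nil))) (.nd (nat_lit 5) 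
(.lf (nat_lit 45973) (.g (nat_lit 1791) (.e (nat_lit 1255) (nat_lit 92) (.e (nat_lit 98372) (nat_lit 29) (.e (nat_lit 450588) (nat_lit 10) (.e (nat_lit 573471) (nat_lit 11) .nil)))) .nil)) 
(.lf (nat_lit 46005) (.g (nat_lit 2802) (.e (nat_lit 1255) (nat_lit 92) (.e (nat_lit 98373) (nat_lit 29) (.e (nat_lit 450562) (nat_lit 0) (.e (nat_lit 6595) (nat_lit 351) (.e (nat_lit 2639) (nat_lit 165) (.e (nat_lit 180264) (nat_lit 21) (.e (nat_lit 671488) (nat_lit 0) .nil))))))) (.g (nat_lit 4) .nil .nil))))) (.nd (nat_lit 4) (.nd (nat_lit 5) 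
(.lf (nat_lit 45965) (.g (nat_lit 1809) (.e (nat_lit 1255) (nat_lit 92) (.e (nat_lit 98372) (nat_lit 29) (.e (nat_lit 450586) (nat_lit 10) (.e (nat_lit 573473) (nat_lit 12) (.e (nat_lit 57353) (nat_lit 0) (.e (nat_lit 7265) (nat_lit 384) (.e (nat_lit 57354) (nat_lit 0) (.e (nat_lit 7936) (nat_lit 343) .nil)))))))) (.g (nat_lit 4) .nil .nil))) 
(.lf (nat_lit 45997) (.g (nat_lit 3665) (.e (nat_lit 1255) (nat_lit 92) (.e (nat_lit 98373) (nat_lit 29) (.e (nat_lit 450562) (nat_lit 0) (.e (nat_lit 6416) (nat_lit 341) (.e (nat_lit 163885) (nat_lit 5) (.e (nat_lit 221219) (nat_lit 24) (.e (nat_lit 220928) (nat_lit 0) .nil))))))) (.g (nat_lit 6) .nil .nil)))) (.nd (nat_lit 5) 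
(.lf (nat_lit 45981) (.g (nat_lit 1650) (.e (nat_lit 1255) (nat_lit 92) (.e (nat_lit 98372) (nat_lit 29) (.e (nat_lit 458496) (nat_lit 23) (.e (nat_lit 712749) (nat_lit 28) (.e (nat_lit 434276) (nat_lit 39) (.e (nat_lit 671488) (nat_lit 0) .nil)))))) (.g (nat_lit 5) .nil .nil))) 
(.lf (nat_lit 46013) (.g (nat_lit 3715) (.e (nat_lit 1255) (nat_lit 92) (.e (nat_lit 98373) (nat_lit 29) (.e (nat_lit 450563) (nat_lit 0) (.e (nat_lit 6416) (nat_lit 341) (.e (nat_lit 163884) (nat_lit 5) (.e (nat_lit 221217) (nat_lit 24) (.e (nat_lit 220928) (nat_lit 0) .nil))))))) (.g (nat_lit 6) .nil .nil))))))) (.nd (nat_lit 2) (.nd (nat_lit 3) (.nd (nat_lit 4) (.nd (nat_lit 5) 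
(.lf (nat_lit 45955) (.g (nat_lit 819) (.e (nat_lit 1255) (nat_lit 92) (.e (nat_lit 98372) (nat_lit 29) (.e (nat_lit 450586) (nat_lit 10) (.e (nat_lit 573471) (nat_lit 11) .nil)))) .nil)) 
(.lf (nat_lit 45987) (.g (nat_lit 2107) (.e (nat_lit 1255) (nat_lit 92) (.e (nat_lit 98373) (nat_lit 29) (.e (nat_lit 450561) (nat_lit 0) (.e (nat_lit 6420) (nat_lit 341) (.e (nat_lit 163885) (nat_lit 5) (.e (nat_lit 221218) (nat_lit 24) (.e (nat_lit 220928) (nat_lit 0) .nil))))))) (.g (nat_lit 4) .nil .nil)))) (.nd (nat_lit 5) 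
(.lf (nat_lit 45971) (.g (nat_lit 2371) (.e (nat_lit 1255) (nat_lit 92) (.e (nat_lit 98372) (nat_lit 29) (.e (nat_lit 450588) (nat_lit 10) (.e (nat_lit 573452) (nat_lit 9) .nil)))) .nil)) 
(.lf (nat_lit 46003) (.g (nat_lit 3514) (.e (nat_lit 1255) (nat_lit 92) (.e (nat_lit 98373) (nat_lit 29) (.e (nat_lit 450562) (nat_lit 0) (.e (nat_lit 6595) (nat_lit 351) (.e (nat_lit 2638) (nat_lit 165) (.e (nat_lit 180263) (nat_lit 21) (.e (nat_lit 671488) (nat_lit 0) .nil))))))) (.g (nat_lit 5) .nil .nil))))) (.nd (nat_lit 4) (.nd (nat_lit 5) 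
(.lf (nat_lit 45963) (.g (nat_lit 1935) (.e (nat_lit 1255) (nat_lit 92) (.e (nat_lit 98372) (nat_lit 29) (.e (nat_lit 450586) (nat_lit 10) (.e (nat_lit 573473) (nat_lit 12) (.e (nat_lit 57348) (nat_lit 0) (.e (nat_lit 7265) (nat_lit 384) (.e (nat_lit 57354) (nat_lit 0) (.e (nat_lit 7936) (nat_lit 343) .nil)))))))) (.g (nat_lit 4) .nil .nil))) 
(.lf (nat_lit 45995) (.g (nat_lit 2322) (.e (nat_lit 1255) (nat_lit 92) (.e (nat_lit 98373) (nat_lit 29) (.e (nat_lit 450562) (nat_lit 0) (.e (nat_lit 6416) (nat_lit 341) (.e (nat_lit 163885) (nat_lit 5) (.e (nat_lit 221217) (nat_lit 24) (.e (nat_lit 220928) (nat_lit 0) .nil))))))) (.g (nat_lit 4) .nil .nil)))) (.nd (nat_lit 5) 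
(.lf (nat_lit 45979) (.g (nat_lit 1287) (.e (nat_lit 1255) (nat_lit 92) (.e (nat_lit 98372) (nat_lit 29) (.e (nat_lit 458496) (nat_lit 23) (.e (nat_lit 712749) (nat_lit 28) (.e (nat_lit 434274) (nat_lit 39) (.e (nat_lit 671488) (nat_lit 0) .nil)))))) (.g (nat_lit 5) .nil .nil))) 
(.lf (nat_lit 46011) (.g (nat_lit 2778) (.e (nat_lit 1255) (nat_lit 92) (.e (nat_lit 98373) (nat_lit 29) (.e (nat_lit 450563) (nat_lit 0) (.e (nat_lit 6416) (nat_lit 341) (.e (nat_lit 163878) (nat_lit 4) (.e (nat_lit 213013) (nat_lit 9) (.e (nat_lit 2698) (nat_lit 169) (.e (nat_lit 220928) (nat_lit 0) .nil)))))))) (.g (nat_lit 4) .nil .nil)))))) (.nd (nat_lit 3) (.nd (nat_lit 4) (.nd (nat_lit 5) 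
(.lf (nat_lit 45959) (.g (nat_lit 2487) (.e (nat_lit 1255) (nat_lit 92) (.e (nat_lit 98372) (nat_lit 29) (.e (nat_lit 450586) (nat_lit 10) (.e (nat_lit 573471) (nat_lit 11) (.e (nat_lit 16392) (nat_lit 0) (.e (nat_lit 7936) (nat_lit 402) .nil)))))) (.g (nat_lit 5) .nil .nil))) 
(.lf (nat_lit 45991) (.g (nat_lit 2996) (.e (nat_lit 1255) (nat_lit 92) (.e (nat_lit 98373) (nat_lit 29) (.e (nat_lit 450562) (nat_lit 0) (.e (nat_lit 6416) (nat_lit 341) (.e (nat_lit 163843) (nat_lit 0) (.e (nat_lit 3774) (nat_lit 229) (.e (nat_lit 794680) (nat_lit 24) (.e (nat_lit 220928) (nat_lit 0) .nil)))))))) (.g (nat_lit 5) .nil .nil)))) (.nd (nat_lit 5) 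
(.lf (nat_lit 45975) (.g (nat_lit 3706) (.e (nat_lit 1255) (nat_lit 92) (.e (nat_lit 98372) (nat_lit 29) (.e (nat_lit 450588) (nat_lit 10) (.e (nat_lit 573471) (nat_lit 11) (.e (nat_lit 16392) (nat_lit 0) .nil))))) .nil)) 
(.lf (nat_lit 46007) (.g (nat_lit 3357) (.e (nat_lit 1255) (nat_lit 92) (.e (nat_lit 98373) (nat_lit 29) (.e (nat_lit 450562) (nat_lit 0) (.e (nat_lit 6595) (nat_lit 351) (.e (nat_lit 2640) (nat_lit 165) (.e (nat_lit 180264) (nat_lit 21) (.e (nat_lit 671488) (nat_lit 0) .nil))))))) (.g (nat_lit 5) .nil .nil))))) (.nd (nat_lit 4) (.nd (nat_lit 5) 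
(.lf (nat_lit 45967) (.g (nat_lit 1379) (.e (nat_lit 1255) (nat_lit 92) (.e (nat_lit 98372) (nat_lit 29) (.e (nat_lit 450586) (nat_lit 10) (.e (nat_lit 573477) (nat_lit 12) (.e (nat_lit 57352) (nat_lit 0) .nil))))) .nil)) 
(.lf (nat_lit 45999) (.g (nat_lit 2724) (.e (nat_lit 1255) (nat_lit 92) (.e (nat_lit 98373) (nat_lit 29) (.e (nat_lit 450562) (nat_lit 0) (.e (nat_lit 6416) (nat_lit 341) (.e (nat_lit 163886) (nat_lit 5) (.e (nat_lit 221219) (nat_lit 24) (.e (nat_lit 220928) (nat_lit 0) .nil))))))) (.g (nat_lit 4) .nil .nil)))) (.nd (nat_lit 5) 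
(.lf (nat_lit 45983) (.g (nat_lit 2463) (.e (nat_lit 1255) (nat_lit 92) (.e (nat_lit 98373) (nat_lit 29) (.e (nat_lit 450561) (nat_lit 0) (.e (nat_lit 6420) (nat_lit 341) (.e (nat_lit 163843) (nat_lit 0) (.e (nat_lit 3771) (nat_lit 229) (.e (nat_lit 794680) (nat_lit 24) (.e (nat_lit 220928) (nat_lit 0) .nil)))))))) (.g (nat_lit 4) .nil .nil))) 
(.lf (nat_lit 46015) (.g (nat_lit 3690) (.e (nat_lit 1255) (nat_lit 92) (.e (nat_lit 98373) (nat_lit 29) (.e (nat_lit 450563) (nat_lit 0) (.e (nat_lit 6416) (nat_lit 341) (.e (nat_lit 163885) (nat_lit 5) (.e (nat_lit 221219) (nat_lit 24) (.e (nat_lit 220928) (nat_lit 0) .nil))))))) (.g (nat_lit 6) .nil .nil)))))))))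

noncomputable def tv639 : DT := (.nd (nat_lit 0) (.nd (nat_lit 1) (.nd (nat_lit 2) (.nd (nat_lit 3) (.nd (nat_lit 4) (.nd (nat_lit 5) 
(.lf (nat_lit 46016) (.g (nat_lit 3371) (.e (nat_lit 1255) (nat_lit 92) (.e (nat_lit 98373) (nat_lit 29) (.e (nat_lit 450563) (nat_lit 0) (.e (nat_lit 6416) (nat_lit 341) (.e (nat_lit 163886) (nat_lit 5) (.e (nat_lit 221218) (nat_lit 24) (.e (nat_lit 220928) (nat_lit 0) .nil))))))) (.g (nat_lit 6) .nil .nil))) 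
(.lf (nat_lit 46048) (.g (nat_lit 2716) (.e (nat_lit 1255) (nat_lit 92) (.e (nat_lit 98373) (nat_lit 29) (.e (nat_lit 450587) (nat_lit 10) (.e (nat_lit 573454) (nat_lit 9) (.e (nat_lit 7936) (nat_lit 33) .nil))))) .nil))) (.nd (nat_lit 5) 
(.lf (nat_lit 46032) (.g (nat_lit 2967) (.e (nat_lit 1255) (nat_lit 92) (.e (nat_lit 98373) (nat_lit 29) (.e (nat_lit 450563) (nat_lit 0) (.e (nat_lit 6595) (nat_lit 351) (.e (nat_lit 2640) (nat_lit 165) (.e (nat_lit 180264) (nat_lit 21) (.e (nat_lit 671488) (nat_lit 0) .nil))))))) (.g (nat_lit 5) .nil .nil))) 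
(.lf (nat_lit 46064) (.g (nat_lit 3436) (.e (nat_lit 1255) (nat_lit 92) (.e (nat_lit 98373) (nat_lit 29) (.e (nat_lit 450587) (nat_lit 10) (.e (nat_lit 573465) (nat_lit 9) (.e (nat_lit 444) (nat_lit 33) (.e (nat_lit 442112) (nat_lit 0) .nil)))))) (.g (nat_lit 4) .nil .nil))))) (.nd (nat_lit 4) (.nd (nat_lit 5) 
(.lf (nat_lit 46024) (.g (nat_lit 3943) (.e (nat_lit 1255) (nat_lit 92) (.e (nat_lit 98373) (nat_lit 29) (.e (nat_lit 450563) (nat_lit 0) (.e (nat_lit 6420) (nat_lit 341) (.e (nat_lit 163884) (nat_lit 5) (.e (nat_lit 221217) (nat_lit 24) (.e (nat_lit 220928) (nat_lit 0) .nil))))))) (.g (nat_lit 6) .nil .nil))) 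
(.lf (nat_lit 46056) (.g (nat_lit 2206) (.e (nat_lit 1255) (nat_lit 92) (.e (nat_lit 98373) (nat_lit 29) (.e (nat_lit 450587) (nat_lit 10) (.e (nat_lit 573457) (nat_lit 9) (.e (nat_lit 430) (nat_lit 32) .nil))))) .nil))) (.nd (nat_lit 5) 
(.lf (nat_lit 46040) (.g (nat_lit 3304) (.e (nat_lit 1255) (nat_lit 92) (.e (nat_lit 98373) (nat_lit 29) (.e (nat_lit 450587) (nat_lit 10) (.e (nat_lit 573448) (nat_lit 9) .nil)))) .nil)) 
(.lf (nat_lit 46072) (.g (nat_lit 2384) (.e (nat_lit 1255) (nat_lit 92) (.e (nat_lit 98373) (nat_lit 29) (.e (nat_lit 450587) (nat_lit 10) (.e (nat_lit 573473) (nat_lit 12) (.e (nat_lit 57347) (nat_lit 0) (.e (nat_lit 7247) (nat_lit 383) (.e (nat_lit 8194) (nat_lit 0) (.e (nat_lit 5345) (nat_lit 298) .nil)))))))) (.g (nat_lit 4) .nil .nil)))))) (.nd (nat_lit 3) (.nd (nat_lit 4) (.nd (nat_lit 5) 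
(.lf (nat_lit 46020) (.g (nat_lit 4355) (.e (nat_lit 1255) (nat_lit 92) (.e (nat_lit 98373) (nat_lit 29) (.e (nat_lit 450563) (nat_lit 0) (.e (nat_lit 6420) (nat_lit 341) (.e (nat_lit 163843) (nat_lit 0) (.e (nat_lit 3771) (nat_lit 229) (.e (nat_lit 794680) (nat_lit 24) (.e (nat_lit 220928) (nat_lit 0) .nil)))))))) (.g (nat_lit 6) .nil .nil))) 
(.lf (nat_lit 46052) (.g (nat_lit 2418) (.e (nat_lit 1255) (nat_lit 92) (.e (nat_lit 98373) (nat_lit 29) (.e (nat_lit 450587) (nat_lit 10) (.e (nat_lit 573456) (nat_lit 9) (.e (nat_lit 430) (nat_lit 32) (.e (nat_lit 426011) (nat_lit 0) (.e (nat_lit 7936) (nat_lit 402) .nil))))))) (.g (nat_lit 4) .nil .nil)))) (.nd (nat_lit 5) 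
(.lf (nat_lit 46036) (.g (nat_lit 2324) (.e (nat_lit 1255) (nat_lit 92) (.e (nat_lit 98373) (nat_lit 29) (.e (nat_lit 450581) (nat_lit 5) (.e (nat_lit 532523) (nat_lit 7) (.e (nat_lit 319504) (nat_lit 10) .nil))))) .nil)) 
(.lf (nat_lit 46068) (.g (nat_lit 3663) (.e (nat_lit 1255) (nat_lit 92) (.e (nat_lit 98373) (nat_lit 29) (.e (nat_lit 450587) (nat_lit 10) (.e (nat_lit 573472) (nat_lit 12) .nil)))) .nil)))) (.nd (nat_lit 4) (.nd (nat_lit 5) 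
(.lf (nat_lit 46028) (.g (nat_lit 2226) (.e (nat_lit 1255) (nat_lit 92) (.e (nat_lit 98373) (nat_lit 29) (.e (nat_lit 450563) (nat_lit 0) (.e (nat_lit 6421) (nat_lit 341) .nil)))) .nil)) 
(.lf (nat_lit 46060) (.g (nat_lit 3564) (.e (nat_lit 1255) (nat_lit 92) (.e (nat_lit 98373) (nat_lit 29) (.e (nat_lit 450587) (nat_lit 10) (.e (nat_lit 573458) (nat_lit 9) .nil)))) .nil))) (.nd (nat_lit 5) 
(.lf (nat_lit 46044) (.g (nat_lit 3183) (.e (nat_lit 1255) (nat_lit 92) (.e (nat_lit 98373) (nat_lit 29) (.e (nat_lit 450587) (nat_lit 10) (.e (nat_lit 573450) (nat_lit 9) (.e (nat_lit 375) (nat_lit 32) (.e (nat_lit 426025) (nat_lit 0) (.e (nat_lit 7936) (nat_lit 402) .nil))))))) (.g (nat_lit 4) .nil .nil))) 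
(.lf (nat_lit 46076) (.g (nat_lit 2700) (.e (nat_lit 1255) (nat_lit 92) (.e (nat_lit 98373) (nat_lit 29) (.e (nat_lit 450587) (nat_lit 10) (.e (nat_lit 573473) (nat_lit 12) (.e (nat_lit 57348) (nat_lit 0) (.e (nat_lit 7265) (nat_lit 384) (.e (nat_lit 57347) (nat_lit 0) (.e (nat_lit 7936) (nat_lit 343) .nil)))))))) (.g (nat_lit 5) .nil .nil))))))) 
(.nd (nat_lit 2) (.nd (nat_lit 3) (.nd (nat_lit 4) (.nd (nat_lit 5) 
(.lf (nat_lit 46018) (.g (nat_lit 2683) (.e (nat_lit 1255) (nat_lit 92) (.e (nat_lit 98373) (nat_lit 29) (.e (nat_lit 450563) (nat_lit 0) (.e (nat_lit 6420) (nat_lit 341) (.e (nat_lit 163843) (nat_lit 0) .nil))))) .nil)) 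
(.lf (nat_lit 46050) (.g (nat_lit 1769) (.e (nat_lit 1255) (nat_lit 92) (.e (nat_lit 98373) (nat_lit 29) (.e (nat_lit 450587) (nat_lit 10) (.e (nat_lit 573456) (nat_lit 9) .nil)))) .nil))) (.nd (nat_lit 5) 
(.lf (nat_lit 46034) (.g (nat_lit 2359) (.e (nat_lit 1255) (nat_lit 92) (.e (nat_lit 98373) (nat_lit 29) (.e (nat_lit 450580) (nat_lit 5) (.e (nat_lit 532523) (nat_lit 7) (.e (nat_lit 319504) (nat_lit 10) .nil))))) .nil)) 
(.lf (nat_lit 46066) (.g (nat_lit 3035) (.e (nat_lit 1255) (nat_lit 92) (.e (nat_lit 98373) (nat_lit 29) (.e (nat_lit 450587) (nat_lit 10) (.e (nat_lit 573469) (nat_lit 11) (.e (nat_lit 16388) (nat_lit 0) .nil))))) .nil)))) (.nd (nat_lit 4) (.nd (nat_lit 5) 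
(.lf (nat_lit 46026) (.g (nat_lit 3853) (.e (nat_lit 1255) (nat_lit 92) (.e (nat_lit 98373) (nat_lit 29) (.e (nat_lit 450563) (nat_lit 0) (.e (nat_lit 6420) (nat_lit 341) (.e (nat_lit 163885) (nat_lit 5) (.e (nat_lit 221218) (nat_lit 24) (.e (nat_lit 220928) (nat_lit 0) .nil))))))) (.g (nat_lit 6) .nil .nil))) 
(.lf (nat_lit 46058) (.g (nat_lit 2981) (.e (nat_lit 1255) (nat_lit 92) (.e (nat_lit 98373) (nat_lit 29) (.e (nat_lit 450587) (nat_lit 10) (.e (nat_lit 573457) (nat_lit 9) (.e (nat_lit 430) (nat_lit 32) (.e (nat_lit 426024) (nat_lit 0) (.e (nat_lit 7936) (nat_lit 402) .nil))))))) (.g (nat_lit 6) .nil .nil)))) (.nd (nat_lit 5) 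
(.lf (nat_lit 46042) (.g (nat_lit 2741) (.e (nat_lit 1255) (nat_lit 92) (.e (nat_lit 98373) (nat_lit 29) (.e (nat_lit 450587) (nat_lit 10) (.e (nat_lit 573449) (nat_lit 9) (.e (nat_lit 375) (nat_lit 32) .nil))))) .nil)) 
(.lf (nat_lit 46074) (.g (nat_lit 2275) (.e (nat_lit 1255) (nat_lit 92) (.e (nat_lit 98373) (nat_lit 29) (.e (nat_lit 450587) (nat_lit 10) (.e (nat_lit 573473) (nat_lit 12) (.e (nat_lit 57348) (nat_lit 0) .nil))))) .nil))))) (.nd (nat_lit 3) (.nd (nat_lit 4) (.nd (nat_lit 5) 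
(.lf (nat_lit 46022) (.g (nat_lit 5103) (.e (nat_lit 1255) (nat_lit 92) (.e (nat_lit 98373) (nat_lit 29) (.e (nat_lit 450563) (nat_lit 0) (.e (nat_lit 6420) (nat_lit 341) (.e (nat_lit 163843) (nat_lit 0) (.e (nat_lit 3774) (nat_lit 229) (.e (nat_lit 794680) (nat_lit 24) (.e (nat_lit 220928) (nat_lit 0) .nil)))))))) (.g (nat_lit 7) .nil .nil))) 
(.lf (nat_lit 46054) (.g (nat_lit 2606) (.e (nat_lit 1255) (nat_lit 92) (.e (nat_lit 98373) (nat_lit 29) (.e (nat_lit 450587) (nat_lit 10) (.e (nat_lit 573456) (nat_lit 9) (.e (nat_lit 7936) (nat_lit 33) (.e (nat_lit 442112) (nat_lit 0) .nil)))))) (.g (nat_lit 4) .nil .nil)))) (.nd (nat_lit 5) 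
(.lf (nat_lit 46038) (.g (nat_lit 1175) (.e (nat_lit 1255) (nat_lit 92) (.e (nat_lit 98373) (nat_lit 29) (.e (nat_lit 450583) (nat_lit 7) (.e (nat_lit 548894) (nat_lit 14) .nil)))) .nil)) 
(.lf (nat_lit 46070) (.g (nat_lit 2182) (.e (nat_lit 1255) (nat_lit 92) (.e (nat_lit 98373) (nat_lit 29) (.e (nat_lit 450587) (nat_lit 10) (.e (nat_lit 573473) (nat_lit 12) (.e (nat_lit 57347) (nat_lit 0) .nil))))) .nil)))) (.nd (nat_lit 4) (.nd (nat_lit 5) 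
(.lf (nat_lit 46030) (.g (nat_lit 2176) (.e (nat_lit 1255) (nat_lit 92) (.e (nat_lit 98373) (nat_lit 29) (.e (nat_lit 450563) (nat_lit 0) (.e (nat_lit 6595) (nat_lit 351) .nil)))) .nil)) 
(.lf (nat_lit 46062) (.g (nat_lit 3564) (.e (nat_lit 1255) (nat_lit 92) (.e (nat_lit 98373) (nat_lit 29) (.e (nat_lit 450587) (nat_lit 10) (.e (nat_lit 573463) (nat_lit 9) .nil)))) .nil))) (.nd (nat_lit 5) 
(.lf (nat_lit 46046) (.g (nat_lit 1768) (.e (nat_lit 1255) (nat_lit 92) (.e (nat_lit 98373) (nat_lit 29) (.e (nat_lit 450587) (nat_lit 10) (.e (nat_lit 573454) (nat_lit 9) .nil)))) .nil)) 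
(.lf (nat_lit 46078) (.g (nat_lit 2607) (.e (nat_lit 1255) (nat_lit 92) (.e (nat_lit 98373) (nat_lit 29) (.e (nat_lit 450587) (nat_lit 10) (.e (nat_lit 573473) (nat_lit 12) (.e (nat_lit 57352) (nat_lit 0) (.e (nat_lit 7122) (nat_lit 382) (.e (nat_lit 1183) (nat_lit 87) (.e (nat_lit 65280) (nat_lit 187) .nil)))))))) (.g (nat_lit 4) .nil .nil)))))))) 
(.nd (nat_lit 1) (.nd (nat_lit 2) (.nd (nat_lit 3) (.nd (nat_lit 4) (.nd (nat_lit 5) 
(.lf (nat_lit 46017) (.g (nat_lit 2812) (.e (nat_lit 1255) (nat_lit 92) (.e (nat_lit 98373) (nat_lit 29) (.e (nat_lit 450563) (nat_lit 0) (.e (nat_lit 6416) (nat_lit 341) (.e (nat_lit 163886) (nat_lit 5) (.e (nat_lit 221219) (nat_lit 24) (.e (nat_lit 220928) (nat_lit 0) .nil))))))) (.g (nat_lit 4) .nil .nil))) 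
(.lf (nat_lit 46049) (.g (nat_lit 3296) (.e (nat_lit 1255) (nat_lit 92) (.e (nat_lit 98373) (nat_lit 29) (.e (nat_lit 450587) (nat_lit 10) (.e (nat_lit 573455) (nat_lit 9) .nil)))) .nil))) (.nd (nat_lit 5) 
(.lf (nat_lit 46033) (.g (nat_lit 3161) (.e (nat_lit 1255) (nat_lit 92) (.e (nat_lit 98373) (nat_lit 29) (.e (nat_lit 450563) (nat_lit 0) (.e (nat_lit 6595) (nat_lit 351) (.e (nat_lit 2640) (nat_lit 165) (.e (nat_lit 180265) (nat_lit 21) (.e (nat_lit 671488) (nat_lit 0) .nil))))))) (.g (nat_lit 5) .nil .nil))) 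
(.lf (nat_lit 46065) (.g (nat_lit 2321) (.e (nat_lit 1255) (nat_lit 92) (.e (nat_lit 98373) (nat_lit 29) (.e (nat_lit 450587) (nat_lit 10) (.e (nat_lit 573469) (nat_lit 11) .nil)))) .nil)))) (.nd (nat_lit 4) (.nd (nat_lit 5) 
(.lf (nat_lit 46025) (.g (nat_lit 2816) (.e (nat_lit 1255) (nat_lit 92) (.e (nat_lit 98373) (nat_lit 29) (.e (nat_lit 450563) (nat_lit 0) (.e (nat_lit 6420) (nat_lit 341) (.e (nat_lit 163885) (nat_lit 5) (.e (nat_lit 221217) (nat_lit 24) (.e (nat_lit 220928) (nat_lit 0) .nil))))))) (.g (nat_lit 4) .nil .nil))) 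
(.lf (nat_lit 46057) (.g (nat_lit 2221) (.e (nat_lit 1255) (nat_lit 92) (.e (nat_lit 98373) (nat_lit 29) (.e (nat_lit 450587) (nat_lit 10) (.e (nat_lit 573457) (nat_lit 9) (.e (nat_lit 430) (nat_lit 32) (.e (nat_lit 426012) (nat_lit 0) (.e (nat_lit 7936) (nat_lit 402) .nil))))))) (.g (nat_lit 4) .nil .nil)))) (.nd (nat_lit 5) 
(.lf (nat_lit 46041) (.g (nat_lit 1964) (.e (nat_lit 1255) (nat_lit 92) (.e (nat_lit 98373) (nat_lit 29) (.e (nat_lit 450587) (nat_lit 10) (.e (nat_lit 573449) (nat_lit 9) .nil)))) .nil)) 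
(.lf (nat_lit 46073) (.g (nat_lit 3662) (.e (nat_lit 1255) (nat_lit 92) (.e (nat_lit 98373) (nat_lit 29) (.e (nat_lit 450587) (nat_lit 10) (.e (nat_lit 573473) (nat_lit 12) (.e (nat_lit 57347) (nat_lit 0) (.e (nat_lit 7265) (nat_lit 384) (.e (nat_lit 57354) (nat_lit 0) (.e (nat_lit 7936) (nat_lit 343) .nil)))))))) (.g (nat_lit 6) .nil .nil)))))) (.nd (nat_lit 3) (.nd (nat_lit 4) (.nd (nat_lit 5) 
(.lf (nat_lit 46021) (.g (nat_lit 4382) (.e (nat_lit 1255) (nat_lit 92) (.e (nat_lit 98373) (nat_lit 29) (.e (nat_lit 450563) (nat_lit 0) (.e (nat_lit 6420) (nat_lit 341) (.e (nat_lit 163843) (nat_lit 0) (.e (nat_lit 3774) (nat_lit 229) (.e (nat_lit 794677) (nat_lit 24) (.e (nat_lit 220928) (nat_lit 0) .nil)))))))) (.g (nat_lit 5) .nil .nil))) 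
(.lf (nat_lit 46053) (.g (nat_lit 3120) (.e (nat_lit 1255) (nat_lit 92) (.e (nat_lit 98373) (nat_lit 29) (.e (nat_lit 450587) (nat_lit 10) (.e (nat_lit 573456) (nat_lit 9) (.e (nat_lit 430) (nat_lit 32) (.e (nat_lit 426024) (nat_lit 0) (.e (nat_lit 7936) (nat_lit 402) .nil))))))) (.g (nat_lit 6) .nil .nil)))) (.nd (nat_lit 5) 
(.lf (nat_lit 46037) (.g (nat_lit 138) (.e (nat_lit 1255) (nat_lit 92) (.e (nat_lit 98373) (nat_lit 29) (.e (nat_lit 450583) (nat_lit 7) .nil))) .nil)) 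
(.lf (nat_lit 46069) (.g (nat_lit 1605) (.e (nat_lit 1255) (nat_lit 92) (.e (nat_lit 98373) (nat_lit 29) (.e (nat_lit 450587) (nat_lit 10) (.e (nat_lit 573473) (nat_lit 12) .nil)))) .nil)))) (.nd (nat_lit 4) (.nd (nat_lit 5) 
(.lf (nat_lit 46029) (.g (nat_lit 3161) (.e (nat_lit 1255) (nat_lit 92) (.e (nat_lit 98373) (nat_lit 29) (.e (nat_lit 450563) (nat_lit 0) (.e (nat_lit 6421) (nat_lit 341) (.e (nat_lit 163884) (nat_lit 5) .nil))))) .nil)) 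
(.lf (nat_lit 46061) (.g (nat_lit 3087) (.e (nat_lit 1255) (nat_lit 92) (.e (nat_lit 98373) (nat_lit 29) (.e (nat_lit 450587) (nat_lit 10) (.e (nat_lit 573461) (nat_lit 9) .nil)))) .nil))) (.nd (nat_lit 5) 
(.lf (nat_lit 46045) (.g (nat_lit 2060) (.e (nat_lit 1255) (nat_lit 92) (.e (nat_lit 98373) (nat_lit 29) (.e (nat_lit 450587) (nat_lit 10) (.e (nat_lit 573452) (nat_lit 9) .nil)))) .nil)) 
(.lf (nat_lit 46077) (.g (nat_lit 2520) (.e (nat_lit 1255) (nat_lit 92) (.e (nat_lit 98373) (nat_lit 29) (.e (nat_lit 450587) (nat_lit 10) (.e (nat_lit 573473) (nat_lit 12) (.e (nat_lit 57352) (nat_lit 0) .nil))))) .nil)))))) (.nd (nat_lit 2) (.nd (nat_lit 3) (.nd (nat_lit 4) (.nd (nat_lit 5) 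
(.lf (nat_lit 46019) (.g (nat_lit 4336) (.e (nat_lit 1255) (nat_lit 92) (.e (nat_lit 98373) (nat_lit 29) (.e (nat_lit 450563) (nat_lit 0) (.e (nat_lit 6420) (nat_lit 341) (.e (nat_lit 163843) (nat_lit 0) (.e (nat_lit 3771) (nat_lit 229) (.e (nat_lit 794679) (nat_lit 24) (.e (nat_lit 220928) (nat_lit 0) .nil)))))))) (.g (nat_lit 6) .nil .nil))) 
(.lf (nat_lit 46051) (.g (nat_lit 2411) (.e (nat_lit 1255) (nat_lit 92) (.e (nat_lit 98373) (nat_lit 29) (.e (nat_lit 450587) (nat_lit 10) (.e (nat_lit 573456) (nat_lit 9) (.e (nat_lit 430) (nat_lit 32) .nil))))) .nil))) (.nd (nat_lit 5) 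
(.lf (nat_lit 46035) (.g (nat_lit 2738) (.e (nat_lit 1255) (nat_lit 92) (.e (nat_lit 98373) (nat_lit 29) (.e (nat_lit 450580) (nat_lit 5) (.e (nat_lit 532523) (nat_lit 7) (.e (nat_lit 319505) (nat_lit 10) (.e (nat_lit 7936) (nat_lit 298) .nil)))))) (.g (nat_lit 4) .nil .nil))) 
(.lf (nat_lit 46067) (.g (nat_lit 2388) (.e (nat_lit 1255) (nat_lit 92) (.e (nat_lit 98373) (nat_lit 29) (.e (nat_lit 450587) (nat_lit 10) (.e (nat_lit 573470) (nat_lit 11) .nil)))) .nil)))) (.nd (nat_lit 4) (.nd (nat_lit 5) 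
(.lf (nat_lit 46027) (.g (nat_lit 4058) (.e (nat_lit 1255) (nat_lit 92) (.e (nat_lit 98373) (nat_lit 29) (.e (nat_lit 450563) (nat_lit 0) (.e (nat_lit 6420) (nat_lit 341) (.e (nat_lit 163885) (nat_lit 5) (.e (nat_lit 221219) (nat_lit 24) (.e (nat_lit 220928) (nat_lit 0) .nil))))))) (.g (nat_lit 6) .nil .nil))) 
(.lf (nat_lit 46059) (.g (nat_lit 2418) (.e (nat_lit 1255) (nat_lit 92) (.e (nat_lit 98373) (nat_lit 29) (.e (nat_lit 450587) (nat_lit 10) (.e (nat_lit 573457) (nat_lit 9) (.e (nat_lit 7936) (nat_lit 33) (.e (nat_lit 442112) (nat_lit 0) .nil)))))) (.g (nat_lit 4) .nil .nil)))) (.nd (nat_lit 5) 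
(.lf (nat_lit 46043) (.g (nat_lit 2420) (.e (nat_lit 1255) (nat_lit 92) (.e (nat_lit 98373) (nat_lit 29) (.e (nat_lit 450587) (nat_lit 10) (.e (nat_lit 573450) (nat_lit 9) .nil)))) .nil)) 
(.lf (nat_lit 46075) (.g (nat_lit 3067) (.e (nat_lit 1255) (nat_lit 92) (.e (nat_lit 98373) (nat_lit 29) (.e (nat_lit 450587) (nat_lit 10) (.e (nat_lit 573473) (nat_lit 12) (.e (nat_lit 57348) (nat_lit 0) (.e (nat_lit 7263) (nat_lit 384) (.e (nat_lit 57354) (nat_lit 0) (.e (nat_lit 7936) (nat_lit 343) .nil)))))))) (.g (nat_lit 6) .nil .nil)))))) (.nd (nat_lit 3) (.nd (nat_lit 4) (.nd (nat_lit 5) 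
(.lf (nat_lit 46023) (.g (nat_lit 2839) (.e (nat_lit 1255) (nat_lit 92) (.e (nat_lit 98373) (nat_lit 29) (.e (nat_lit 450563) (nat_lit 0) (.e (nat_lit 6420) (nat_lit 341) (.e (nat_lit 163878) (nat_lit 4) (.e (nat_lit 213013) (nat_lit 9) (.e (nat_lit 2699) (nat_lit 169) (.e (nat_lit 220928) (nat_lit 0) .nil)))))))) (.g (nat_lit 4) .nil .nil))) 
(.lf (nat_lit 46055) (.g (nat_lit 1812) (.e (nat_lit 1255) (nat_lit 92) (.e (nat_lit 98373) (nat_lit 29) (.e (nat_lit 450587) (nat_lit 10) (.e (nat_lit 573457) (nat_lit 9) .nil)))) .nil))) (.nd (nat_lit 5) 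
(.lf (nat_lit 46039) (.g (nat_lit 1673) (.e (nat_lit 1255) (nat_lit 92) (.e (nat_lit 98373) (nat_lit 29) (.e (nat_lit 450583) (nat_lit 7) (.e (nat_lit 548914) (nat_lit 19) (.e (nat_lit 188160) (nat_lit 32) .nil))))) (.g (nat_lit 4) .nil .nil))) 
(.lf (nat_lit 46071) (.g (nat_lit 2211) (.e (nat_lit 1255) (nat_lit 92) (.e (nat_lit 98373) (nat_lit 29) (.e (nat_lit 450587) (nat_lit 10) (.e (nat_lit 573473) (nat_lit 12) (.e (nat_lit 57347) (nat_lit 0) (.e (nat_lit 7125) (nat_lit 382) (.e (nat_lit 1183) (nat_lit 87) (.e (nat_lit 65280) (nat_lit 187) .nil)))))))) (.g (nat_lit 4) .nil .nil))))) (.nd (nat_lit 4) (.nd (nat_lit 5) 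
(.lf (nat_lit 46031) (.g (nat_lit 2950) (.e (nat_lit 1255) (nat_lit 92) (.e (nat_lit 98373) (nat_lit 29) (.e (nat_lit 450563) (nat_lit 0) (.e (nat_lit 6595) (nat_lit 351) (.e (nat_lit 2638) (nat_lit 165) (.e (nat_lit 180263) (nat_lit 21) (.e (nat_lit 671488) (nat_lit 0) .nil))))))) (.g (nat_lit 4) .nil .nil))) 
(.lf (nat_lit 46063) (.g (nat_lit 3758) (.e (nat_lit 1255) (nat_lit 92) (.e (nat_lit 98373) (nat_lit 29) (.e (nat_lit 450587) (nat_lit 10) (.e (nat_lit 573464) (nat_lit 9) .nil)))) .nil))) (.nd (nat_lit 5) 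
(.lf (nat_lit 46047) (.g (nat_lit 3186) (.e (nat_lit 1255) (nat_lit 92) (.e (nat_lit 98373) (nat_lit 29) (.e (nat_lit 450587) (nat_lit 10) (.e (nat_lit 573454) (nat_lit 9) (.e (nat_lit 441) (nat_lit 33) (.e (nat_lit 442112) (nat_lit 0) .nil)))))) (.g (nat_lit 5) .nil .nil))) 
(.lf (nat_lit 46079) (.g (nat_lit 2604) (.e (nat_lit 1255) (nat_lit 92) (.e (nat_lit 98373) (nat_lit 29) (.e (nat_lit 450587) (nat_lit 10) (.e (nat_lit 573473) (nat_lit 12) (.e (nat_lit 57352) (nat_lit 0) (.e (nat_lit 7261) (nat_lit 384) (.e (nat_lit 57354) (nat_lit 0) (.e (nat_lit 7936) (nat_lit 343) .nil)))))))) (.g (nat_lit 4) .nil .nil)))))))))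

noncomputable def tv640 : DT := (.nd (nat_lit 0) (.nd (nat_lit 1) (.nd (nat_lit 2) (.nd (nat_lit 3) (.nd (nat_lit 4) (.nd (nat_lit 5) 
(.lf (nat_lit 46080) (.g (nat_lit 4026) (.e (nat_lit 1255) (nat_lit 92) (.e (nat_lit 98373) (nat_lit 29) (.e (nat_lit 450587) (nat_lit 10) (.e (nat_lit 573473) (nat_lit 12) (.e (nat_lit 57352) (nat_lit 0) (.e (nat_lit 7263) (nat_lit 384) (.e (nat_lit 57354) (nat_lit 0) (.e (nat_lit 7936) (nat_lit 343) .nil)))))))) (.g (nat_lit 7) .nil .nil))) 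
(.lf (nat_lit 46112) (.g (nat_lit 3896) (.e (nat_lit 1255) (nat_lit 92) (.e (nat_lit 98373) (nat_lit 29) (.e (nat_lit 450587) (nat_lit 10) (.e (nat_lit 573478) (nat_lit 12) (.e (nat_lit 57351) (nat_lit 0) (.e (nat_lit 7265) (nat_lit 384) (.e (nat_lit 57347) (nat_lit 0) (.e (nat_lit 7936) (nat_lit 343) .nil)))))))) (.g (nat_lit 6) .nil .nil)))) (.nd (nat_lit 5) 
(.lf (nat_lit 46096) (.g (nat_lit 4173) (.e (nat_lit 1255) (nat_lit 92) (.e (nat_lit 98373) (nat_lit 29) (.e (nat_lit 450587) (nat_lit 10) (.e (nat_lit 573475) (nat_lit 12) (.e (nat_lit 57572) (nat_lit 54) (.e (nat_lit 770069) (nat_lit 7) (.e (nat_lit 65280) (nat_lit 187) .nil))))))) (.g (nat_lit 6) .nil .nil))) 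
(.lf (nat_lit 46128) (.g (nat_lit 2978) (.e (nat_lit 1255) (nat_lit 92) (.e (nat_lit 98373) (nat_lit 29) (.e (nat_lit 450588) (nat_lit 10) (.e (nat_lit 573452) (nat_lit 9) (.e (nat_lit 430) (nat_lit 32) .nil))))) .nil)))) (.nd (nat_lit 4) (.nd (nat_lit 5) 
(.lf (nat_lit 46088) (.g (nat_lit 3483) (.e (nat_lit 1255) (nat_lit 92) (.e (nat_lit 98373) (nat_lit 29) (.e (nat_lit 450587) (nat_lit 10) (.e (nat_lit 573475) (nat_lit 12) (.e (nat_lit 57347) (nat_lit 0) .nil))))) .nil)) 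
(.lf (nat_lit 46120) (.g (nat_lit 3282) (.e (nat_lit 1255) (nat_lit 92) (.e (nat_lit 98373) (nat_lit 29) (.e (nat_lit 450588) (nat_lit 10) (.e (nat_lit 573449) (nat_lit 9) .nil)))) .nil))) (.nd (nat_lit 5) 
(.lf (nat_lit 46104) (.g (nat_lit 3466) (.e (nat_lit 1255) (nat_lit 92) (.e (nat_lit 98373) (nat_lit 29) (.e (nat_lit 450587) (nat_lit 10) (.e (nat_lit 573477) (nat_lit 12) (.e (nat_lit 57353) (nat_lit 0) (.e (nat_lit 7263) (nat_lit 384) (.e (nat_lit 57354) (nat_lit 0) (.e (nat_lit 7936) (nat_lit 343) .nil)))))))) (.g (nat_lit 4) .nil .nil))) 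
(.lf (nat_lit 46136) (.g (nat_lit 3335) (.e (nat_lit 1255) (nat_lit 92) (.e (nat_lit 98373) (nat_lit 29) (.e (nat_lit 450588) (nat_lit 10) (.e (nat_lit 573457) (nat_lit 9) .nil)))) .nil))))) (.nd (nat_lit 3) (.nd (nat_lit 4) (.nd (nat_lit 5) 
(.lf (nat_lit 46084) (.g (nat_lit 2473) (.e (nat_lit 1255) (nat_lit 92) (.e (nat_lit 98373) (nat_lit 29) (.e (nat_lit 450587) (nat_lit 10) (.e (nat_lit 573475) (nat_lit 12) .nil)))) .nil)) 
(.lf (nat_lit 46116) (.g (nat_lit 3749) (.e (nat_lit 1255) (nat_lit 92) (.e (nat_lit 98373) (nat_lit 29) (.e (nat_lit 450587) (nat_lit 10) (.e (nat_lit 573478) (nat_lit 12) (.e (nat_lit 57353) (nat_lit 0) (.e (nat_lit 7265) (nat_lit 384) (.e (nat_lit 57347) (nat_lit 0) (.e (nat_lit 7936) (nat_lit 343) .nil)))))))) (.g (nat_lit 5) .nil .nil)))) (.nd (nat_lit 5) 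
(.lf (nat_lit 46100) (.g (nat_lit 3298) (.e (nat_lit 1255) (nat_lit 92) (.e (nat_lit 98373) (nat_lit 29) (.e (nat_lit 450587) (nat_lit 10) (.e (nat_lit 573477) (nat_lit 12) (.e (nat_lit 57352) (nat_lit 0) .nil))))) .nil)) 
(.lf (nat_lit 46132) (.g (nat_lit 3373) (.e (nat_lit 1255) (nat_lit 92) (.e (nat_lit 98373) (nat_lit 29) (.e (nat_lit 450588) (nat_lit 10) (.e (nat_lit 573452) (nat_lit 9) (.e (nat_lit 7936) (nat_lit 33) (.e (nat_lit 442112) (nat_lit 0) .nil)))))) (.g (nat_lit 4) .nil .nil))))) (.nd (nat_lit 4) (.nd (nat_lit 5) 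
(.lf (nat_lit 46092) (.g (nat_lit 4434) (.e (nat_lit 1255) (nat_lit 92) (.e (nat_lit 98373) (nat_lit 29) (.e (nat_lit 450587) (nat_lit 10) (.e (nat_lit 573475) (nat_lit 12) (.e (nat_lit 57352) (nat_lit 0) .nil))))) .nil)) 
(.lf (nat_lit 46124) (.g (nat_lit 3659) (.e (nat_lit 1255) (nat_lit 92) (.e (nat_lit 98373) (nat_lit 29) (.e (nat_lit 450588) (nat_lit 10) (.e (nat_lit 573450) (nat_lit 9) (.e (nat_lit 442) (nat_lit 33) (.e (nat_lit 442112) (nat_lit 0) .nil)))))) (.g (nat_lit 5) .nil .nil)))) (.nd (nat_lit 5) 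
(.lf (nat_lit 46108) (.g (nat_lit 3678) (.e (nat_lit 1255) (nat_lit 92) (.e (nat_lit 98373) (nat_lit 29) (.e (nat_lit 450587) (nat_lit 10) (.e (nat_lit 573477) (nat_lit 12) (.e (nat_lit 65280) (nat_lit 57) (.e (nat_lit 794627) (nat_lit 0) (.e (nat_lit 7936) (nat_lit 343) .nil))))))) (.g (nat_lit 4) .nil .nil))) 
(.lf (nat_lit 46140) (.g (nat_lit 4356) (.e (nat_lit 1255) (nat_lit 92) (.e (nat_lit 98373) (nat_lit 29) (.e (nat_lit 450588) (nat_lit 10) (.e (nat_lit 573464) (nat_lit 9) .nil)))) .nil)))))) (.nd (nat_lit 2) (.nd (nat_lit 3) (.nd (nat_lit 4) (.nd (nat_lit 5) 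
(.lf (nat_lit 46082) (.g (nat_lit 2677) (.e (nat_lit 1255) (nat_lit 92) (.e (nat_lit 98373) (nat_lit 29) (.e (nat_lit 450587) (nat_lit 10) (.e (nat_lit 573473) (nat_lit 12) (.e (nat_lit 57353) (nat_lit 0) (.e (nat_lit 7265) (nat_lit 384) (.e (nat_lit 57347) (nat_lit 0) (.e (nat_lit 7936) (nat_lit 343) .nil)))))))) (.g (nat_lit 5) .nil .nil))) 
(.lf (nat_lit 46114) (.g (nat_lit 4182) (.e (nat_lit 1255) (nat_lit 92) (.e (nat_lit 98373) (nat_lit 29) (.e (nat_lit 450587) (nat_lit 10) (.e (nat_lit 573478) (nat_lit 12) (.e (nat_lit 57352) (nat_lit 0) (.e (nat_lit 7263) (nat_lit 384) (.e (nat_lit 57354) (nat_lit 0) (.e (nat_lit 7936) (nat_lit 343) .nil)))))))) (.g (nat_lit 6) .nil .nil)))) (.nd (nat_lit 5) 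
(.lf (nat_lit 46098) (.g (nat_lit 3835) (.e (nat_lit 1255) (nat_lit 92) (.e (nat_lit 98373) (nat_lit 29) (.e (nat_lit 450587) (nat_lit 10) (.e (nat_lit 573477) (nat_lit 12) (.e (nat_lit 57351) (nat_lit 0) (.e (nat_lit 7263) (nat_lit 384) (.e (nat_lit 57354) (nat_lit 0) (.e (nat_lit 7936) (nat_lit 343) .nil)))))))) (.g (nat_lit 4) .nil .nil))) 
(.lf (nat_lit 46130) (.g (nat_lit 3019) (.e (nat_lit 1255) (nat_lit 92) (.e (nat_lit 98373) (nat_lit 29) (.e (nat_lit 450588) (nat_lit 10) (.e (nat_lit 573452) (nat_lit 9) (.e (nat_lit 430) (nat_lit 32) (.e (nat_lit 426012) (nat_lit 0) (.e (nat_lit 7936) (nat_lit 402) .nil))))))) (.g (nat_lit 4) .nil .nil))))) (.nd (nat_lit 4) (.nd (nat_lit 5) 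
(.lf (nat_lit 46090) (.g (nat_lit 3686) (.e (nat_lit 1255) (nat_lit 92) (.e (nat_lit 98373) (nat_lit 29) (.e (nat_lit 450587) (nat_lit 10) (.e (nat_lit 573475) (nat_lit 12) (.e (nat_lit 57348) (nat_lit 0) (.e (nat_lit 7265) (nat_lit 384) (.e (nat_lit 57354) (nat_lit 0) (.e (nat_lit 7936) (nat_lit 343) .nil)))))))) (.g (nat_lit 4) .nil .nil))) 
(.lf (nat_lit 46122) (.g (nat_lit 4112) (.e (nat_lit 1255) (nat_lit 92) (.e (nat_lit 98373) (nat_lit 29) (.e (nat_lit 450588) (nat_lit 10) (.e (nat_lit 573449) (nat_lit 9) (.e (nat_lit 449) (nat_lit 33) .nil))))) .nil))) (.nd (nat_lit 5) 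
(.lf (nat_lit 46106) (.g (nat_lit 4866) (.e (nat_lit 1255) (nat_lit 92) (.e (nat_lit 98373) (nat_lit 29) (.e (nat_lit 450587) (nat_lit 10) (.e (nat_lit 573477) (nat_lit 12) (.e (nat_lit 57353) (nat_lit 0) (.e (nat_lit 7265) (nat_lit 384) (.e (nat_lit 57354) (nat_lit 0) (.e (nat_lit 7936) (nat_lit 343) .nil)))))))) (.g (nat_lit 7) .nil .nil))) 
(.lf (nat_lit 46138) (.g (nat_lit 3924) (.e (nat_lit 1255) (nat_lit 92) (.e (nat_lit 98373) (nat_lit 29) (.e (nat_lit 450588) (nat_lit 10) (.e (nat_lit 573458) (nat_lit 9) .nil)))) .nil))))) (.nd (nat_lit 3) (.nd (nat_lit 4) (.nd (nat_lit 5) 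
(.lf (nat_lit 46086) (.g (nat_lit 3608) (.e (nat_lit 1255) (nat_lit 92) (.e (nat_lit 98373) (nat_lit 29) (.e (nat_lit 450587) (nat_lit 10) (.e (nat_lit 573475) (nat_lit 12) (.e (nat_lit 57345) (nat_lit 0) .nil))))) .nil)) 
(.lf (nat_lit 46118) (.g (nat_lit 3453) (.e (nat_lit 1255) (nat_lit 92) (.e (nat_lit 98373) (nat_lit 29) (.e (nat_lit 450587) (nat_lit 10) (.e (nat_lit 573478) (nat_lit 12) (.e (nat_lit 65280) (nat_lit 57) (.e (nat_lit 794627) (nat_lit 0) (.e (nat_lit 7936) (nat_lit 343) .nil))))))) (.g (nat_lit 4) .nil .nil)))) (.nd (nat_lit 5) 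
(.lf (nat_lit 46102) (.g (nat_lit 3275) (.e (nat_lit 1255) (nat_lit 92) (.e (nat_lit 98373) (nat_lit 29) (.e (nat_lit 450587) (nat_lit 10) (.e (nat_lit 573477) (nat_lit 12) (.e (nat_lit 57353) (nat_lit 0) .nil))))) .nil)) 
(.lf (nat_lit 46134) (.g (nat_lit 3847) (.e (nat_lit 1255) (nat_lit 92) (.e (nat_lit 98373) (nat_lit 29) (.e (nat_lit 450588) (nat_lit 10) (.e (nat_lit 573454) (nat_lit 9) (.e (nat_lit 441) (nat_lit 33) .nil))))) .nil)))) (.nd (nat_lit 4) (.nd (nat_lit 5) 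
(.lf (nat_lit 46094) (.g (nat_lit 3889) (.e (nat_lit 1255) (nat_lit 92) (.e (nat_lit 98373) (nat_lit 29) (.e (nat_lit 450587) (nat_lit 10) (.e (nat_lit 573475) (nat_lit 12) (.e (nat_lit 57570) (nat_lit 54) .nil))))) .nil)) 
(.lf (nat_lit 46126) (.g (nat_lit 3892) (.e (nat_lit 1255) (nat_lit 92) (.e (nat_lit 98373) (nat_lit 29) (.e (nat_lit 450588) (nat_lit 10) (.e (nat_lit 573451) (nat_lit 9) .nil)))) .nil))) (.nd (nat_lit 5) 
(.lf (nat_lit 46110) (.g (nat_lit 3252) (.e (nat_lit 1255) (nat_lit 92) (.e (nat_lit 98373) (nat_lit 29) (.e (nat_lit 450587) (nat_lit 10) (.e (nat_lit 573478) (nat_lit 12) (.e (nat_lit 57351) (nat_lit 0) .nil))))) .nil)) 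
(.lf (nat_lit 46142) (.g (nat_lit 2812) (.e (nat_lit 1255) (nat_lit 92) (.e (nat_lit 98373) (nat_lit 29) (.e (nat_lit 450588) (nat_lit 10) (.e (nat_lit 573468) (nat_lit 10) .nil)))) .nil))))))) (.nd (nat_lit 1) (.nd (nat_lit 2) (.nd (nat_lit 3) (.nd (nat_lit 4) (.nd (nat_lit 5) 
(.lf (nat_lit 46081) (.g (nat_lit 2318) (.e (nat_lit 1255) (nat_lit 92) (.e (nat_lit 98373) (nat_lit 29) (.e (nat_lit 450587) (nat_lit 10) (.e (nat_lit 573473) (nat_lit 12) (.e (nat_lit 57353) (nat_lit 0) .nil))))) .nil)) 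
(.lf (nat_lit 46113) (.g (nat_lit 4763) (.e (nat_lit 1255) (nat_lit 92) (.e (nat_lit 98373) (nat_lit 29) (.e (nat_lit 450587) (nat_lit 10) (.e (nat_lit 573478) (nat_lit 12) (.e (nat_lit 57351) (nat_lit 0) (.e (nat_lit 7265) (nat_lit 384) (.e (nat_lit 57354) (nat_lit 0) (.e (nat_lit 7936) (nat_lit 343) .nil)))))))) (.g (nat_lit 7) .nil .nil)))) (.nd (nat_lit 5) 
(.lf (nat_lit 46097) (.g (nat_lit 2879) (.e (nat_lit 1255) (nat_lit 92) (.e (nat_lit 98373) (nat_lit 29) (.e (nat_lit 450587) (nat_lit 10) (.e (nat_lit 573477) (nat_lit 12) .nil)))) .nil)) 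
(.lf (nat_lit 46129) (.g (nat_lit 3000) (.e (nat_lit 1255) (nat_lit 92) (.e (nat_lit 98373) (nat_lit 29) (.e (nat_lit 450588) (nat_lit 10) (.e (nat_lit 573452) (nat_lit 9) (.e (nat_lit 430) (nat_lit 32) (.e (nat_lit 426011) (nat_lit 0) (.e (nat_lit 7936) (nat_lit 402) .nil))))))) (.g (nat_lit 4) .nil .nil))))) (.nd (nat_lit 4) (.nd (nat_lit 5) 
(.lf (nat_lit 46089) (.g (nat_lit 3592) (.e (nat_lit 1255) (nat_lit 92) (.e (nat_lit 98373) (nat_lit 29) (.e (nat_lit 450587) (nat_lit 10) (.e (nat_lit 573475) (nat_lit 12) (.e (nat_lit 57348) (nat_lit 0) .nil))))) .nil)) 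
(.lf (nat_lit 46121) (.g (nat_lit 3991) (.e (nat_lit 1255) (nat_lit 92) (.e (nat_lit 98373) (nat_lit 29) (.e (nat_lit 450588) (nat_lit 10) (.e (nat_lit 573449) (nat_lit 9) (.e (nat_lit 375) (nat_lit 32) .nil))))) .nil))) (.nd (nat_lit 5) 
(.lf (nat_lit 46105) (.g (nat_lit 3997) (.e (nat_lit 1255) (nat_lit 92) (.e (nat_lit 98373) (nat_lit 29) (.e (nat_lit 450587) (nat_lit 10) (.e (nat_lit 573477) (nat_lit 12) (.e (nat_lit 57353) (nat_lit 0) (.e (nat_lit 7265) (nat_lit 384) (.e (nat_lit 57347) (nat_lit 0) (.e (nat_lit 7936) (nat_lit 343) .nil)))))))) (.g (nat_lit 6) .nil .nil))) 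
(.lf (nat_lit 46137) (.g (nat_lit 3643) (.e (nat_lit 1255) (nat_lit 92) (.e (nat_lit 98373) (nat_lit 29) (.e (nat_lit 450588) (nat_lit 10) (.e (nat_lit 573457) (nat_lit 9) (.e (nat_lit 430) (nat_lit 32) .nil))))) .nil))))) (.nd (nat_lit 3) (.nd (nat_lit 4) (.nd (nat_lit 5) 
(.lf (nat_lit 46085) (.g (nat_lit 3992) (.e (nat_lit 1255) (nat_lit 92) (.e (nat_lit 98373) (nat_lit 29) (.e (nat_lit 450587) (nat_lit 10) (.e (nat_lit 573475) (nat_lit 12) (.e (nat_lit 57344) (nat_lit 0) .nil))))) .nil)) 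
(.lf (nat_lit 46117) (.g (nat_lit 3486) (.e (nat_lit 1255) (nat_lit 92) (.e (nat_lit 98373) (nat_lit 29) (.e (nat_lit 450587) (nat_lit 10) (.e (nat_lit 573478) (nat_lit 12) (.e (nat_lit 65280) (nat_lit 57) (.e (nat_lit 794625) (nat_lit 0) (.e (nat_lit 7936) (nat_lit 343) .nil))))))) (.g (nat_lit 4) .nil .nil)))) (.nd (nat_lit 5) 
(.lf (nat_lit 46101) (.g (nat_lit 4612) (.e (nat_lit 1255) (nat_lit 92) (.e (nat_lit 98373) (nat_lit 29) (.e (nat_lit 450587) (nat_lit 10) (.e (nat_lit 573477) (nat_lit 12) (.e (nat_lit 57352) (nat_lit 0) (.e (nat_lit 7263) (nat_lit 384) (.e (nat_lit 57354) (nat_lit 0) (.e (nat_lit 7936) (nat_lit 343) .nil)))))))) (.g (nat_lit 7) .nil .nil))) 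
(.lf (nat_lit 46133) (.g (nat_lit 3088) (.e (nat_lit 1255) (nat_lit 92) (.e (nat_lit 98373) (nat_lit 29) (.e (nat_lit 450588) (nat_lit 10) (.e (nat_lit 573454) (nat_lit 9) .nil)))) .nil)))) (.nd (nat_lit 4) (.nd (nat_lit 5) 
(.lf (nat_lit 46093) (.g (nat_lit 3780) (.e (nat_lit 1255) (nat_lit 92) (.e (nat_lit 98373) (nat_lit 29) (.e (nat_lit 450587) (nat_lit 10) (.e (nat_lit 573475) (nat_lit 12) (.e (nat_lit 57353) (nat_lit 0) .nil))))) .nil)) 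
(.lf (nat_lit 46125) (.g (nat_lit 2962) (.e (nat_lit 1255) (nat_lit 92) (.e (nat_lit 98373) (nat_lit 29) (.e (nat_lit 450588) (nat_lit 10) (.e (nat_lit 573450) (nat_lit 9) (.e (nat_lit 473) (nat_lit 36) .nil))))) .nil))) (.nd (nat_lit 5) 
(.lf (nat_lit 46109) (.g (nat_lit 2931) (.e (nat_lit 1255) (nat_lit 92) (.e (nat_lit 98373) (nat_lit 29) (.e (nat_lit 450587) (nat_lit 10) (.e (nat_lit 573478) (nat_lit 12) .nil)))) .nil)) 
(.lf (nat_lit 46141) (.g (nat_lit 3807) (.e (nat_lit 1255) (nat_lit 92) (.e (nat_lit 98373) (nat_lit 29) (.e (nat_lit 450588) (nat_lit 10) (.e (nat_lit 581376) (nat_lit 9) .nil)))) .nil)))))) (.nd (nat_lit 2) (.nd (nat_lit 3) (.nd (nat_lit 4) (.nd (nat_lit 5) 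
(.lf (nat_lit 46083) (.g (nat_lit 2385) (.e (nat_lit 1255) (nat_lit 92) (.e (nat_lit 98373) (nat_lit 29) (.e (nat_lit 450587) (nat_lit 10) (.e (nat_lit 573473) (nat_lit 12) (.e (nat_lit 57569) (nat_lit 53) .nil))))) .nil)) 
(.lf (nat_lit 46115) (.g (nat_lit 3398) (.e (nat_lit 1255) (nat_lit 92) (.e (nat_lit 98373) (nat_lit 29) (.e (nat_lit 450587) (nat_lit 10) (.e (nat_lit 573478) (nat_lit 12) (.e (nat_lit 57353) (nat_lit 0) .nil))))) .nil))) (.nd (nat_lit 5) 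
(.lf (nat_lit 46099) (.g (nat_lit 4076) (.e (nat_lit 1255) (nat_lit 92) (.e (nat_lit 98373) (nat_lit 29) (.e (nat_lit 450587) (nat_lit 10) (.e (nat_lit 573477) (nat_lit 12) (.e (nat_lit 57351) (nat_lit 0) (.e (nat_lit 7265) (nat_lit 384) (.e (nat_lit 57354) (nat_lit 0) (.e (nat_lit 7936) (nat_lit 343) .nil)))))))) (.g (nat_lit 5) .nil .nil))) 
(.lf (nat_lit 46131) (.g (nat_lit 3827) (.e (nat_lit 1255) (nat_lit 92) (.e (nat_lit 98373) (nat_lit 29) (.e (nat_lit 450588) (nat_lit 10) (.e (nat_lit 573452) (nat_lit 9) (.e (nat_lit 430) (nat_lit 32) (.e (nat_lit 426024) (nat_lit 0) (.e (nat_lit 7936) (nat_lit 402) .nil))))))) (.g (nat_lit 6) .nil .nil))))) (.nd (nat_lit 4) (.nd (nat_lit 5) 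
(.lf (nat_lit 46091) (.g (nat_lit 3589) (.e (nat_lit 1255) (nat_lit 92) (.e (nat_lit 98373) (nat_lit 29) (.e (nat_lit 450587) (nat_lit 10) (.e (nat_lit 573475) (nat_lit 12) (.e (nat_lit 57351) (nat_lit 0) .nil))))) .nil)) 
(.lf (nat_lit 46123) (.g (nat_lit 4111) (.e (nat_lit 1255) (nat_lit 92) (.e (nat_lit 98373) (nat_lit 29) (.e (nat_lit 450588) (nat_lit 10) (.e (nat_lit 573449) (nat_lit 9) (.e (nat_lit 452) (nat_lit 33) .nil))))) .nil))) (.nd (nat_lit 5) 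
(.lf (nat_lit 46107) (.g (nat_lit 3689) (.e (nat_lit 1255) (nat_lit 92) (.e (nat_lit 98373) (nat_lit 29) (.e (nat_lit 450587) (nat_lit 10) (.e (nat_lit 573477) (nat_lit 12) (.e (nat_lit 65280) (nat_lit 57) (.e (nat_lit 794625) (nat_lit 0) (.e (nat_lit 7936) (nat_lit 343) .nil))))))) (.g (nat_lit 4) .nil .nil))) 
(.lf (nat_lit 46139) (.g (nat_lit 4367) (.e (nat_lit 1255) (nat_lit 92) (.e (nat_lit 98373) (nat_lit 29) (.e (nat_lit 450588) (nat_lit 10) (.e (nat_lit 573463) (nat_lit 9) .nil)))) .nil))))) (.nd (nat_lit 3) (.nd (nat_lit 4) (.nd (nat_lit 5) 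
(.lf (nat_lit 46087) (.g (nat_lit 3619) (.e (nat_lit 1255) (nat_lit 92) (.e (nat_lit 98373) (nat_lit 29) (.e (nat_lit 450587) (nat_lit 10) (.e (nat_lit 573475) (nat_lit 12) (.e (nat_lit 57345) (nat_lit 0) (.e (nat_lit 7263) (nat_lit 384) (.e (nat_lit 57354) (nat_lit 0) (.e (nat_lit 7936) (nat_lit 343) .nil)))))))) (.g (nat_lit 4) .nil .nil))) 
(.lf (nat_lit 46119) (.g (nat_lit 4227) (.e (nat_lit 1255) (nat_lit 92) (.e (nat_lit 98373) (nat_lit 29) (.e (nat_lit 450588) (nat_lit 10) (.e (nat_lit 573448) (nat_lit 9) .nil)))) .nil))) (.nd (nat_lit 5) 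
(.lf (nat_lit 46103) (.g (nat_lit 3583) (.e (nat_lit 1255) (nat_lit 92) (.e (nat_lit 98373) (nat_lit 29) (.e (nat_lit 450587) (nat_lit 10) (.e (nat_lit 573477) (nat_lit 12) (.e (nat_lit 57353) (nat_lit 0) (.e (nat_lit 7247) (nat_lit 383) (.e (nat_lit 8194) (nat_lit 0) (.e (nat_lit 5345) (nat_lit 298) .nil)))))))) (.g (nat_lit 4) .nil .nil))) 
(.lf (nat_lit 46135) (.g (nat_lit 4425) (.e (nat_lit 1255) (nat_lit 92) (.e (nat_lit 98373) (nat_lit 29) (.e (nat_lit 450588) (nat_lit 10) (.e (nat_lit 573455) (nat_lit 9) .nil)))) .nil)))) (.nd (nat_lit 4) (.nd (nat_lit 5) 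
(.lf (nat_lit 46095) (.g (nat_lit 3745) (.e (nat_lit 1255) (nat_lit 92) (.e (nat_lit 98373) (nat_lit 29) (.e (nat_lit 450587) (nat_lit 10) (.e (nat_lit 573475) (nat_lit 12) (.e (nat_lit 57572) (nat_lit 54) (.e (nat_lit 770068) (nat_lit 7) (.e (nat_lit 65280) (nat_lit 187) .nil))))))) (.g (nat_lit 6) .nil .nil))) 
(.lf (nat_lit 46127) (.g (nat_lit 2338) (.e (nat_lit 1255) (nat_lit 92) (.e (nat_lit 98373) (nat_lit 29) (.e (nat_lit 450588) (nat_lit 10) (.e (nat_lit 573452) (nat_lit 9) .nil)))) .nil))) (.nd (nat_lit 5) 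
(.lf (nat_lit 46111) (.g (nat_lit 4503) (.e (nat_lit 1255) (nat_lit 92) (.e (nat_lit 98373) (nat_lit 29) (.e (nat_lit 450587) (nat_lit 10) (.e (nat_lit 573478) (nat_lit 12) (.e (nat_lit 57351) (nat_lit 0) (.e (nat_lit 7263) (nat_lit 384) (.e (nat_lit 57354) (nat_lit 0) (.e (nat_lit 7936) (nat_lit 343) .nil)))))))) (.g (nat_lit 7) .nil .nil))) 
(.lf (nat_lit 46143) (.g (nat_lit 3866) (.e (nat_lit 1255) (nat_lit 92) (.e (nat_lit 98373) (nat_lit 29) (.e (nat_lit 450588) (nat_lit 10) (.e (nat_lit 573469) (nat_lit 11) .nil)))) .nil))))))))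

noncomputable def tv641 : DT := (.nd (nat_lit 0) (.nd (nat_lit 1) (.nd (nat_lit 2) (.nd (nat_lit 3) (.nd (nat_lit 4) (.nd (nat_lit 5) 
(.lf (nat_lit 46144) (.g (nat_lit 2405) (.e (nat_lit 1255) (nat_lit 92) (.e (nat_lit 98373) (nat_lit 29) (.e (nat_lit 450588) (nat_lit 10) (.e (nat_lit 573470) (nat_lit 11) .nil)))) .nil)) 
(.lf (nat_lit 46176) (.g (nat_lit 4766) (.e (nat_lit 1255) (nat_lit 92) (.e (nat_lit 98373) (nat_lit 29) (.e (nat_lit 450588) (nat_lit 10) (.e (nat_lit 573473) (nat_lit 12) (.e (nat_lit 57352) (nat_lit 0) (.e (nat_lit 7263) (nat_lit 384) (.e (nat_lit 57354) (nat_lit 0) (.e (nat_lit 7936) (nat_lit 343) .nil)))))))) (.g (nat_lit 7) .nil .nil)))) (.nd (nat_lit 5) 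
(.lf (nat_lit 46160) (.g (nat_lit 3091) (.e (nat_lit 1255) (nat_lit 92) (.e (nat_lit 98373) (nat_lit 29) (.e (nat_lit 450588) (nat_lit 10) (.e (nat_lit 573471) (nat_lit 11) (.e (nat_lit 16395) (nat_lit 0) .nil))))) .nil)) 
(.lf (nat_lit 46192) (.g (nat_lit 5109) (.e (nat_lit 1255) (nat_lit 92) (.e (nat_lit 98373) (nat_lit 29) (.e (nat_lit 450588) (nat_lit 10) (.e (nat_lit 573475) (nat_lit 12) (.e (nat_lit 57347) (nat_lit 0) (.e (nat_lit 7247) (nat_lit 383) (.e (nat_lit 8194) (nat_lit 0) (.e (nat_lit 5345) (nat_lit 298) .nil)))))))) (.g (nat_lit 5) .nil .nil))))) (.nd (nat_lit 4) (.nd (nat_lit 5) 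
(.lf (nat_lit 46152) (.g (nat_lit 2164) (.e (nat_lit 1255) (nat_lit 92) (.e (nat_lit 98373) (nat_lit 29) (.e (nat_lit 450588) (nat_lit 10) (.e (nat_lit 573471) (nat_lit 11) (.e (nat_lit 16385) (nat_lit 0) .nil))))) .nil)) 
(.lf (nat_lit 46184) (.g (nat_lit 3545) (.e (nat_lit 1255) (nat_lit 92) (.e (nat_lit 98373) (nat_lit 29) (.e (nat_lit 450588) (nat_lit 10) (.e (nat_lit 573473) (nat_lit 12) (.e (nat_lit 65280) (nat_lit 57) .nil))))) .nil))) (.nd (nat_lit 5) 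
(.lf (nat_lit 46168) (.g (nat_lit 3659) (.e (nat_lit 1255) (nat_lit 92) (.e (nat_lit 98373) (nat_lit 29) (.e (nat_lit 450588) (nat_lit 10) (.e (nat_lit 573473) (nat_lit 12) (.e (nat_lit 57347) (nat_lit 0) .nil))))) .nil)) 
(.lf (nat_lit 46200) (.g (nat_lit 4846) (.e (nat_lit 1255) (nat_lit 92) (.e (nat_lit 98373) (nat_lit 29) (.e (nat_lit 450588) (nat_lit 10) (.e (nat_lit 573475) (nat_lit 12) (.e (nat_lit 57351) (nat_lit 0) (.e (nat_lit 7263) (nat_lit 384) (.e (nat_lit 57354) (nat_lit 0) (.e (nat_lit 7936) (nat_lit 343) .nil)))))))) (.g (nat_lit 7) .nil .nil)))))) (.nd (nat_lit 3) (.nd (nat_lit 4) (.nd (nat_lit 5) 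
(.lf (nat_lit 46148) (.g (nat_lit 3557) (.e (nat_lit 1255) (nat_lit 92) (.e (nat_lit 98373) (nat_lit 29) (.e (nat_lit 450588) (nat_lit 10) (.e (nat_lit 573470) (nat_lit 11) (.e (nat_lit 16391) (nat_lit 0) .nil))))) .nil)) 
(.lf (nat_lit 46180) (.g (nat_lit 3702) (.e (nat_lit 1255) (nat_lit 92) (.e (nat_lit 98373) (nat_lit 29) (.e (nat_lit 450588) (nat_lit 10) (.e (nat_lit 573473) (nat_lit 12) (.e (nat_lit 57353) (nat_lit 0) (.e (nat_lit 7265) (nat_lit 384) (.e (nat_lit 57347) (nat_lit 0) (.e (nat_lit 6481) (nat_lit 343) .nil)))))))) (.g (nat_lit 4) .nil .nil)))) (.nd (nat_lit 5) 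
(.lf (nat_lit 46164) (.g (nat_lit 3038) (.e (nat_lit 1255) (nat_lit 92) (.e (nat_lit 98373) (nat_lit 29) (.e (nat_lit 450588) (nat_lit 10) (.e (nat_lit 573471) (nat_lit 11) (.e (nat_lit 16401) (nat_lit 0) .nil))))) .nil)) 
(.lf (nat_lit 46196) (.g (nat_lit 3919) (.e (nat_lit 1255) (nat_lit 92) (.e (nat_lit 98373) (nat_lit 29) (.e (nat_lit 450588) (nat_lit 10) (.e (nat_lit 573475) (nat_lit 12) (.e (nat_lit 57348) (nat_lit 0) .nil))))) .nil)))) (.nd (nat_lit 4) (.nd (nat_lit 5) 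
(.lf (nat_lit 46156) (.g (nat_lit 3047) (.e (nat_lit 1255) (nat_lit 92) (.e (nat_lit 98373) (nat_lit 29) (.e (nat_lit 450588) (nat_lit 10) (.e (nat_lit 573471) (nat_lit 11) (.e (nat_lit 16390) (nat_lit 0) .nil))))) .nil)) 
(.lf (nat_lit 46188) (.g (nat_lit 2924) (.e (nat_lit 1255) (nat_lit 92) (.e (nat_lit 98373) (nat_lit 29) (.e (nat_lit 450588) (nat_lit 10) (.e (nat_lit 573475) (nat_lit 12) .nil)))) .nil))) (.nd (nat_lit 5) 
(.lf (nat_lit 46172) (.g (nat_lit 3804) (.e (nat_lit 1255) (nat_lit 92) (.e (nat_lit 98373) (nat_lit 29) (.e (nat_lit 450588) (nat_lit 10) (.e (nat_lit 573473) (nat_lit 12) (.e (nat_lit 57348) (nat_lit 0) (.e (nat_lit 7265) (nat_lit 384) (.e (nat_lit 57347) (nat_lit 0) (.e (nat_lit 6481) (nat_lit 343) .nil)))))))) (.g (nat_lit 4) .nil .nil))) 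
(.lf (nat_lit 46204) (.g (nat_lit 4482) (.e (nat_lit 1255) (nat_lit 92) (.e (nat_lit 98373) (nat_lit 29) (.e (nat_lit 450588) (nat_lit 10) (.e (nat_lit 573475) (nat_lit 12) (.e (nat_lit 57353) (nat_lit 0) (.e (nat_lit 7265) (nat_lit 384) (.e (nat_lit 57354) (nat_lit 0) (.e (nat_lit 7936) (nat_lit 343) .nil)))))))) (.g (nat_lit 5) .nil .nil))))))) 
(.nd (nat_lit 2) (.nd (nat_lit 3) (.nd (nat_lit 4) (.nd (nat_lit 5) 
(.lf (nat_lit 46146) (.g (nat_lit 3151) (.e (nat_lit 1255) (nat_lit 92) (.e (nat_lit 98373) (nat_lit 29) (.e (nat_lit 450588) (nat_lit 10) (.e (nat_lit 573470) (nat_lit 11) (.e (nat_lit 16388) (nat_lit 0) (.e (nat_lit 7545) (nat_lit 402) .nil)))))) (.g (nat_lit 4) .nil .nil))) 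
(.lf (nat_lit 46178) (.g (nat_lit 4057) (.e (nat_lit 1255) (nat_lit 92) (.e (nat_lit 98373) (nat_lit 29) (.e (nat_lit 450588) (nat_lit 10) (.e (nat_lit 573473) (nat_lit 12) (.e (nat_lit 57353) (nat_lit 0) (.e (nat_lit 7247) (nat_lit 383) (.e (nat_lit 8194) (nat_lit 0) (.e (nat_lit 5345) (nat_lit 298) .nil)))))))) (.g (nat_lit 4) .nil .nil)))) (.nd (nat_lit 5) 
(.lf (nat_lit 46162) (.g (nat_lit 3059) (.e (nat_lit 1255) (nat_lit 92) (.e (nat_lit 98373) (nat_lit 29) (.e (nat_lit 450588) (nat_lit 10) (.e (nat_lit 573471) (nat_lit 11) (.e (nat_lit 16398) (nat_lit 0) .nil))))) .nil)) 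
(.lf (nat_lit 46194) (.g (nat_lit 5007) (.e (nat_lit 1255) (nat_lit 92) (.e (nat_lit 98373) (nat_lit 29) (.e (nat_lit 450588) (nat_lit 10) (.e (nat_lit 573475) (nat_lit 12) (.e (nat_lit 57347) (nat_lit 0) (.e (nat_lit 7265) (nat_lit 384) (.e (nat_lit 57347) (nat_lit 0) (.e (nat_lit 7936) (nat_lit 343) .nil)))))))) (.g (nat_lit 6) .nil .nil))))) (.nd (nat_lit 4) (.nd (nat_lit 5) 
(.lf (nat_lit 46154) (.g (nat_lit 3056) (.e (nat_lit 1255) (nat_lit 92) (.e (nat_lit 98373) (nat_lit 29) (.e (nat_lit 450588) (nat_lit 10) (.e (nat_lit 573471) (nat_lit 11) (.e (nat_lit 16388) (nat_lit 0) (.e (nat_lit 7936) (nat_lit 402) .nil)))))) (.g (nat_lit 5) .nil .nil))) 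
(.lf (nat_lit 46186) (.g (nat_lit 3865) (.e (nat_lit 1255) (nat_lit 92) (.e (nat_lit 98373) (nat_lit 29) (.e (nat_lit 450588) (nat_lit 10) (.e (nat_lit 573473) (nat_lit 12) (.e (nat_lit 65280) (nat_lit 57) (.e (nat_lit 794627) (nat_lit 0) (.e (nat_lit 7936) (nat_lit 343) .nil))))))) (.g (nat_lit 4) .nil .nil)))) (.nd (nat_lit 5) 
(.lf (nat_lit 46170) (.g (nat_lit 4156) (.e (nat_lit 1255) (nat_lit 92) (.e (nat_lit 98373) (nat_lit 29) (.e (nat_lit 450588) (nat_lit 10) (.e (nat_lit 573473) (nat_lit 12) (.e (nat_lit 57348) (nat_lit 0) (.e (nat_lit 7247) (nat_lit 383) (.e (nat_lit 8194) (nat_lit 0) (.e (nat_lit 5345) (nat_lit 298) .nil)))))))) (.g (nat_lit 5) .nil .nil))) 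
(.lf (nat_lit 46202) (.g (nat_lit 5078) (.e (nat_lit 1255) (nat_lit 92) (.e (nat_lit 98373) (nat_lit 29) (.e (nat_lit 450588) (nat_lit 10) (.e (nat_lit 573475) (nat_lit 12) (.e (nat_lit 57351) (nat_lit 0) (.e (nat_lit 7265) (nat_lit 384) (.e (nat_lit 57354) (nat_lit 0) (.e (nat_lit 7936) (nat_lit 343) .nil)))))))) (.g (nat_lit 7) .nil .nil)))))) (.nd (nat_lit 3) (.nd (nat_lit 4) (.nd (nat_lit 5) 
(.lf (nat_lit 46150) (.g (nat_lit 1414) (.e (nat_lit 1255) (nat_lit 92) (.e (nat_lit 98373) (nat_lit 29) (.e (nat_lit 450588) (nat_lit 10) (.e (nat_lit 573471) (nat_lit 11) .nil)))) .nil)) 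
(.lf (nat_lit 46182) (.g (nat_lit 5162) (.e (nat_lit 1255) (nat_lit 92) (.e (nat_lit 98373) (nat_lit 29) (.e (nat_lit 450588) (nat_lit 10) (.e (nat_lit 573473) (nat_lit 12) (.e (nat_lit 57353) (nat_lit 0) (.e (nat_lit 7265) (nat_lit 384) (.e (nat_lit 57354) (nat_lit 0) (.e (nat_lit 7936) (nat_lit 343) .nil)))))))) (.g (nat_lit 7) .nil .nil)))) (.nd (nat_lit 5) 
(.lf (nat_lit 46166) (.g (nat_lit 2992) (.e (nat_lit 1255) (nat_lit 92) (.e (nat_lit 98373) (nat_lit 29) (.e (nat_lit 450588) (nat_lit 10) (.e (nat_lit 573471) (nat_lit 11) (.e (nat_lit 16403) (nat_lit 0) .nil))))) .nil)) 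
(.lf (nat_lit 46198) (.g (nat_lit 4612) (.e (nat_lit 1255) (nat_lit 92) (.e (nat_lit 98373) (nat_lit 29) (.e (nat_lit 450588) (nat_lit 10) (.e (nat_lit 573475) (nat_lit 12) (.e (nat_lit 57348) (nat_lit 0) (.e (nat_lit 7263) (nat_lit 384) (.e (nat_lit 57354) (nat_lit 0) (.e (nat_lit 7936) (nat_lit 343) .nil)))))))) (.g (nat_lit 5) .nil .nil))))) (.nd (nat_lit 4) (.nd (nat_lit 5) 
(.lf (nat_lit 46158) (.g (nat_lit 3364) (.e (nat_lit 1255) (nat_lit 92) (.e (nat_lit 98373) (nat_lit 29) (.e (nat_lit 450588) (nat_lit 10) (.e (nat_lit 573471) (nat_lit 11) (.e (nat_lit 16392) (nat_lit 0) (.e (nat_lit 7936) (nat_lit 402) .nil)))))) (.g (nat_lit 5) .nil .nil))) 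
(.lf (nat_lit 46190) (.g (nat_lit 3763) (.e (nat_lit 1255) (nat_lit 92) (.e (nat_lit 98373) (nat_lit 29) (.e (nat_lit 450588) (nat_lit 10) (.e (nat_lit 573475) (nat_lit 12) (.e (nat_lit 57347) (nat_lit 0) .nil))))) .nil))) (.nd (nat_lit 5) 
(.lf (nat_lit 46174) (.g (nat_lit 5283) (.e (nat_lit 1255) (nat_lit 92) (.e (nat_lit 98373) (nat_lit 29) (.e (nat_lit 450588) (nat_lit 10) (.e (nat_lit 573473) (nat_lit 12) (.e (nat_lit 57348) (nat_lit 0) (.e (nat_lit 7265) (nat_lit 384) (.e (nat_lit 57354) (nat_lit 0) (.e (nat_lit 7936) (nat_lit 343) .nil)))))))) (.g (nat_lit 7) .nil .nil))) 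
(.lf (nat_lit 46206) (.g (nat_lit 4247) (.e (nat_lit 1255) (nat_lit 92) (.e (nat_lit 98373) (nat_lit 29) (.e (nat_lit 450588) (nat_lit 10) (.e (nat_lit 573475) (nat_lit 12) (.e (nat_lit 57574) (nat_lit 55) (.e (nat_lit 778362) (nat_lit 9) (.e (nat_lit 3) (nat_lit 0) (.e (nat_lit 6485) (nat_lit 343) .nil)))))))) (.g (nat_lit 4) .nil .nil)))))))) 
(.nd (nat_lit 1) (.nd (nat_lit 2) (.nd (nat_lit 3) (.nd (nat_lit 4) (.nd (nat_lit 5) 
(.lf (nat_lit 46145) (.g (nat_lit 3411) (.e (nat_lit 1255) (nat_lit 92) (.e (nat_lit 98373) (nat_lit 29) (.e (nat_lit 450588) (nat_lit 10) (.e (nat_lit 573470) (nat_lit 11) (.e (nat_lit 16385) (nat_lit 0) (.e (nat_lit 7936) (nat_lit 402) .nil)))))) (.g (nat_lit 5) .nil .nil))) 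
(.lf (nat_lit 46177) (.g (nat_lit 3594) (.e (nat_lit 1255) (nat_lit 92) (.e (nat_lit 98373) (nat_lit 29) (.e (nat_lit 450588) (nat_lit 10) (.e (nat_lit 573473) (nat_lit 12) (.e (nat_lit 57353) (nat_lit 0) .nil))))) .nil))) (.nd (nat_lit 5) 
(.lf (nat_lit 46161) (.g (nat_lit 2452) (.e (nat_lit 1255) (nat_lit 92) (.e (nat_lit 98373) (nat_lit 29) (.e (nat_lit 450588) (nat_lit 10) (.e (nat_lit 573471) (nat_lit 11) (.e (nat_lit 16396) (nat_lit 0) (.e (nat_lit 7936) (nat_lit 402) .nil)))))) (.g (nat_lit 4) .nil .nil))) 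
(.lf (nat_lit 46193) (.g (nat_lit 5219) (.e (nat_lit 1255) (nat_lit 92) (.e (nat_lit 98373) (nat_lit 29) (.e (nat_lit 450588) (nat_lit 10) (.e (nat_lit 573475) (nat_lit 12) (.e (nat_lit 57347) (nat_lit 0) (.e (nat_lit 7263) (nat_lit 384) (.e (nat_lit 57354) (nat_lit 0) (.e (nat_lit 7936) (nat_lit 343) .nil)))))))) (.g (nat_lit 6) .nil .nil))))) (.nd (nat_lit 4) (.nd (nat_lit 5) 
(.lf (nat_lit 46153) (.g (nat_lit 3097) (.e (nat_lit 1255) (nat_lit 92) (.e (nat_lit 98373) (nat_lit 29) (.e (nat_lit 450588) (nat_lit 10) (.e (nat_lit 573471) (nat_lit 11) (.e (nat_lit 16386) (nat_lit 0) (.e (nat_lit 7936) (nat_lit 402) .nil)))))) (.g (nat_lit 5) .nil .nil))) 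
(.lf (nat_lit 46185) (.g (nat_lit 3873) (.e (nat_lit 1255) (nat_lit 92) (.e (nat_lit 98373) (nat_lit 29) (.e (nat_lit 450588) (nat_lit 10) (.e (nat_lit 573473) (nat_lit 12) (.e (nat_lit 65280) (nat_lit 57) (.e (nat_lit 794625) (nat_lit 0) (.e (nat_lit 7936) (nat_lit 343) .nil))))))) (.g (nat_lit 4) .nil .nil)))) (.nd (nat_lit 5) 
(.lf (nat_lit 46169) (.g (nat_lit 3589) (.e (nat_lit 1255) (nat_lit 92) (.e (nat_lit 98373) (nat_lit 29) (.e (nat_lit 450588) (nat_lit 10) (.e (nat_lit 573473) (nat_lit 12) (.e (nat_lit 57348) (nat_lit 0) .nil))))) .nil)) 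
(.lf (nat_lit 46201) (.g (nat_lit 4211) (.e (nat_lit 1255) (nat_lit 92) (.e (nat_lit 98373) (nat_lit 29) (.e (nat_lit 450588) (nat_lit 10) (.e (nat_lit 573475) (nat_lit 12) (.e (nat_lit 57351) (nat_lit 0) (.e (nat_lit 7265) (nat_lit 384) (.e (nat_lit 57347) (nat_lit 0) (.e (nat_lit 7936) (nat_lit 343) .nil)))))))) (.g (nat_lit 5) .nil .nil)))))) (.nd (nat_lit 3) (.nd (nat_lit 4) (.nd (nat_lit 5) 
(.lf (nat_lit 46149) (.g (nat_lit 3580) (.e (nat_lit 1255) (nat_lit 92) (.e (nat_lit 98373) (nat_lit 29) (.e (nat_lit 450588) (nat_lit 10) (.e (nat_lit 573470) (nat_lit 11) (.e (nat_lit 16403) (nat_lit 0) .nil))))) .nil)) 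
(.lf (nat_lit 46181) (.g (nat_lit 4293) (.e (nat_lit 1255) (nat_lit 92) (.e (nat_lit 98373) (nat_lit 29) (.e (nat_lit 450588) (nat_lit 10) (.e (nat_lit 573473) (nat_lit 12) (.e (nat_lit 57353) (nat_lit 0) (.e (nat_lit 7265) (nat_lit 384) (.e (nat_lit 57347) (nat_lit 0) (.e (nat_lit 7936) (nat_lit 343) .nil)))))))) (.g (nat_lit 6) .nil .nil)))) (.nd (nat_lit 5) 
(.lf (nat_lit 46165) (.g (nat_lit 3029) (.e (nat_lit 1255) (nat_lit 92) (.e (nat_lit 98373) (nat_lit 29) (.e (nat_lit 450588) (nat_lit 10) (.e (nat_lit 573471) (nat_lit 11) (.e (nat_lit 16402) (nat_lit 0) .nil))))) .nil)) 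
(.lf (nat_lit 46197) (.g (nat_lit 3987) (.e (nat_lit 1255) (nat_lit 92) (.e (nat_lit 98373) (nat_lit 29) (.e (nat_lit 450588) (nat_lit 10) (.e (nat_lit 573475) (nat_lit 12) (.e (nat_lit 57348) (nat_lit 0) (.e (nat_lit 7247) (nat_lit 383) (.e (nat_lit 8194) (nat_lit 0) (.e (nat_lit 5345) (nat_lit 298) .nil)))))))) (.g (nat_lit 4) .nil .nil))))) (.nd (nat_lit 4) (.nd (nat_lit 5) 
(.lf (nat_lit 46157) (.g (nat_lit 3029) (.e (nat_lit 1255) (nat_lit 92) (.e (nat_lit 98373) (nat_lit 29) (.e (nat_lit 450588) (nat_lit 10) (.e (nat_lit 573471) (nat_lit 11) (.e (nat_lit 16391) (nat_lit 0) .nil))))) .nil)) 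
(.lf (nat_lit 46189) (.g (nat_lit 3937) (.e (nat_lit 1255) (nat_lit 92) (.e (nat_lit 98373) (nat_lit 29) (.e (nat_lit 450588) (nat_lit 10) (.e (nat_lit 573475) (nat_lit 12) (.e (nat_lit 57344) (nat_lit 0) .nil))))) .nil))) (.nd (nat_lit 5) 
(.lf (nat_lit 46173) (.g (nat_lit 4395) (.e (nat_lit 1255) (nat_lit 92) (.e (nat_lit 98373) (nat_lit 29) (.e (nat_lit 450588) (nat_lit 10) (.e (nat_lit 573473) (nat_lit 12) (.e (nat_lit 57348) (nat_lit 0) (.e (nat_lit 7265) (nat_lit 384) (.e (nat_lit 57347) (nat_lit 0) (.e (nat_lit 7936) (nat_lit 343) .nil)))))))) (.g (nat_lit 6) .nil .nil))) 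
(.lf (nat_lit 46205) (.g (nat_lit 3871) (.e (nat_lit 1255) (nat_lit 92) (.e (nat_lit 98373) (nat_lit 29) (.e (nat_lit 450588) (nat_lit 10) (.e (nat_lit 573475) (nat_lit 12) (.e (nat_lit 57574) (nat_lit 55) .nil))))) .nil)))))) (.nd (nat_lit 2) (.nd (nat_lit 3) (.nd (nat_lit 4) (.nd (nat_lit 5) 
(.lf (nat_lit 46147) (.g (nat_lit 2988) (.e (nat_lit 1255) (nat_lit 92) (.e (nat_lit 98373) (nat_lit 29) (.e (nat_lit 450588) (nat_lit 10) (.e (nat_lit 573470) (nat_lit 11) (.e (nat_lit 16388) (nat_lit 0) (.e (nat_lit 7936) (nat_lit 402) .nil)))))) (.g (nat_lit 4) .nil .nil))) 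
(.lf (nat_lit 46179) (.g (nat_lit 3781) (.e (nat_lit 1255) (nat_lit 92) (.e (nat_lit 98373) (nat_lit 29) (.e (nat_lit 450588) (nat_lit 10) (.e (nat_lit 573473) (nat_lit 12) (.e (nat_lit 57353) (nat_lit 0) (.e (nat_lit 7263) (nat_lit 384) (.e (nat_lit 57354) (nat_lit 0) (.e (nat_lit 7936) (nat_lit 343) .nil)))))))) (.g (nat_lit 4) .nil .nil)))) (.nd (nat_lit 5) 
(.lf (nat_lit 46163) (.g (nat_lit 3018) (.e (nat_lit 1255) (nat_lit 92) (.e (nat_lit 98373) (nat_lit 29) (.e (nat_lit 450588) (nat_lit 10) (.e (nat_lit 573471) (nat_lit 11) (.e (nat_lit 16399) (nat_lit 0) .nil))))) .nil)) 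
(.lf (nat_lit 46195) (.g (nat_lit 5895) (.e (nat_lit 1255) (nat_lit 92) (.e (nat_lit 98373) (nat_lit 29) (.e (nat_lit 450588) (nat_lit 10) (.e (nat_lit 573475) (nat_lit 12) (.e (nat_lit 57347) (nat_lit 0) (.e (nat_lit 7265) (nat_lit 384) (.e (nat_lit 57354) (nat_lit 0) (.e (nat_lit 7936) (nat_lit 343) .nil)))))))) (.g (nat_lit 7) .nil .nil))))) (.nd (nat_lit 4) (.nd (nat_lit 5) 
(.lf (nat_lit 46155) (.g (nat_lit 3174) (.e (nat_lit 1255) (nat_lit 92) (.e (nat_lit 98373) (nat_lit 29) (.e (nat_lit 450588) (nat_lit 10) (.e (nat_lit 573471) (nat_lit 11) (.e (nat_lit 16389) (nat_lit 0) (.e (nat_lit 7936) (nat_lit 402) .nil)))))) (.g (nat_lit 5) .nil .nil))) 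
(.lf (nat_lit 46187) (.g (nat_lit 4360) (.e (nat_lit 1255) (nat_lit 92) (.e (nat_lit 98373) (nat_lit 29) (.e (nat_lit 450588) (nat_lit 10) (.e (nat_lit 573474) (nat_lit 12) .nil)))) .nil))) (.nd (nat_lit 5) 
(.lf (nat_lit 46171) (.g (nat_lit 3604) (.e (nat_lit 1255) (nat_lit 92) (.e (nat_lit 98373) (nat_lit 29) (.e (nat_lit 450588) (nat_lit 10) (.e (nat_lit 573473) (nat_lit 12) (.e (nat_lit 57348) (nat_lit 0) (.e (nat_lit 7261) (nat_lit 384) (.e (nat_lit 57354) (nat_lit 0) (.e (nat_lit 7936) (nat_lit 343) .nil)))))))) (.g (nat_lit 4) .nil .nil))) 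
(.lf (nat_lit 46203) (.g (nat_lit 4038) (.e (nat_lit 1255) (nat_lit 92) (.e (nat_lit 98373) (nat_lit 29) (.e (nat_lit 450588) (nat_lit 10) (.e (nat_lit 573475) (nat_lit 12) (.e (nat_lit 57353) (nat_lit 0) .nil))))) .nil))))) (.nd (nat_lit 3) (.nd (nat_lit 4) (.nd (nat_lit 5) 
(.lf (nat_lit 46151) (.g (nat_lit 3241) (.e (nat_lit 1255) (nat_lit 92) (.e (nat_lit 98373) (nat_lit 29) (.e (nat_lit 450588) (nat_lit 10) (.e (nat_lit 573471) (nat_lit 11) (.e (nat_lit 16384) (nat_lit 0) (.e (nat_lit 7936) (nat_lit 402) .nil)))))) (.g (nat_lit 4) .nil .nil))) 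
(.lf (nat_lit 46183) (.g (nat_lit 3729) (.e (nat_lit 1255) (nat_lit 92) (.e (nat_lit 98373) (nat_lit 29) (.e (nat_lit 450588) (nat_lit 10) (.e (nat_lit 573473) (nat_lit 12) (.e (nat_lit 57354) (nat_lit 0) .nil))))) .nil))) (.nd (nat_lit 5) 
(.lf (nat_lit 46167) (.g (nat_lit 2845) (.e (nat_lit 1255) (nat_lit 92) (.e (nat_lit 98373) (nat_lit 29) (.e (nat_lit 450588) (nat_lit 10) (.e (nat_lit 573473) (nat_lit 12) .nil)))) .nil)) 
(.lf (nat_lit 46199) (.g (nat_lit 3722) (.e (nat_lit 1255) (nat_lit 92) (.e (nat_lit 98373) (nat_lit 29) (.e (nat_lit 450588) (nat_lit 10) (.e (nat_lit 573475) (nat_lit 12) (.e (nat_lit 57351) (nat_lit 0) .nil))))) .nil)))) (.nd (nat_lit 4) (.nd (nat_lit 5) 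
(.lf (nat_lit 46159) (.g (nat_lit 3208) (.e (nat_lit 1255) (nat_lit 92) (.e (nat_lit 98373) (nat_lit 29) (.e (nat_lit 450588) (nat_lit 10) (.e (nat_lit 573471) (nat_lit 11) (.e (nat_lit 16393) (nat_lit 0) (.e (nat_lit 7936) (nat_lit 402) .nil)))))) (.g (nat_lit 4) .nil .nil))) 
(.lf (nat_lit 46191) (.g (nat_lit 4140) (.e (nat_lit 1255) (nat_lit 92) (.e (nat_lit 98373) (nat_lit 29) (.e (nat_lit 450588) (nat_lit 10) (.e (nat_lit 573475) (nat_lit 12) (.e (nat_lit 57347) (nat_lit 0) (.e (nat_lit 7124) (nat_lit 382) (.e (nat_lit 1183) (nat_lit 87) (.e (nat_lit 65280) (nat_lit 187) .nil)))))))) (.g (nat_lit 4) .nil .nil)))) (.nd (nat_lit 5) 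
(.lf (nat_lit 46175) (.g (nat_lit 3611) (.e (nat_lit 1255) (nat_lit 92) (.e (nat_lit 98373) (nat_lit 29) (.e (nat_lit 450588) (nat_lit 10) (.e (nat_lit 573473) (nat_lit 12) (.e (nat_lit 57352) (nat_lit 0) .nil))))) .nil)) 
(.lf (nat_lit 46207) (.g (nat_lit 3659) (.e (nat_lit 1255) (nat_lit 92) (.e (nat_lit 98373) (nat_lit 29) (.e (nat_lit 450588) (nat_lit 10) (.e (nat_lit 573475) (nat_lit 12) (.e (nat_lit 65280) (nat_lit 57) .nil))))) .nil))))))))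

noncomputable def tv642 : DT := (.nd (nat_lit 0) (.nd (nat_lit 1) (.nd (nat_lit 2) (.nd (nat_lit 3) (.nd (nat_lit 4) (.nd (nat_lit 5) 
(.lf (nat_lit 46208) (.g (nat_lit 4047) (.e (nat_lit 1255) (nat_lit 92) (.e (nat_lit 98373) (nat_lit 29) (.e (nat_lit 450588) (nat_lit 10) (.e (nat_lit 573475) (nat_lit 12) (.e (nat_lit 65280) (nat_lit 57) (.e (nat_lit 794625) (nat_lit 0) (.e (nat_lit 7936) (nat_lit 343) .nil))))))) (.g (nat_lit 4) .nil .nil))) 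
(.lf (nat_lit 46240) (.g (nat_lit 1568) (.e (nat_lit 1255) (nat_lit 92) (.e (nat_lit 98388) (nat_lit 33) (.e (nat_lit 491571) (nat_lit 13) (.e (nat_lit 401152) (nat_lit 10) .nil)))) .nil))) (.nd (nat_lit 5) 
(.lf (nat_lit 46224) (.g (nat_lit 1196) (.e (nat_lit 1255) (nat_lit 92) (.e (nat_lit 98373) (nat_lit 29) (.e (nat_lit 458496) (nat_lit 23) (.e (nat_lit 712749) (nat_lit 28) (.e (nat_lit 434274) (nat_lit 39) (.e (nat_lit 671488) (nat_lit 0) .nil)))))) (.g (nat_lit 5) .nil .nil))) 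
(.lf (nat_lit 46256) (.g (nat_lit 1008) (.e (nat_lit 1256) (nat_lit 92) (.e (nat_lit 106240) (nat_lit 14) (.e (nat_lit 376867) (nat_lit 23) (.e (nat_lit 98384) (nat_lit 32) (.e (nat_lit 475201) (nat_lit 40) (.e (nat_lit 712448) (nat_lit 9) .nil)))))) (.g (nat_lit 5) .nil .nil))))) (.nd (nat_lit 4) (.nd (nat_lit 5) 
(.lf (nat_lit 46216) (.g (nat_lit 1761) (.e (nat_lit 1255) (nat_lit 92) (.e (nat_lit 98373) (nat_lit 29) (.e (nat_lit 450602) (nat_lit 22) (.e (nat_lit 704512) (nat_lit 0) (.e (nat_lit 2967) (nat_lit 185) (.e (nat_lit 434276) (nat_lit 39) (.e (nat_lit 671488) (nat_lit 0) .nil))))))) (.g (nat_lit 4) .nil .nil))) 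
(.lf (nat_lit 46248) (.g (nat_lit 2174) (.e (nat_lit 1256) (nat_lit 92) (.e (nat_lit 98317) (nat_lit 9) (.e (nat_lit 336087) (nat_lit 9) (.e (nat_lit 336019) (nat_lit 3) (.e (nat_lit 98384) (nat_lit 32) (.e (nat_lit 475199) (nat_lit 40) (.e (nat_lit 704607) (nat_lit 9) .nil))))))) (.g (nat_lit 4) .nil .nil)))) (.nd (nat_lit 5) 
(.lf (nat_lit 46232) (.g (nat_lit 2662) (.e (nat_lit 1255) (nat_lit 92) (.e (nat_lit 98384) (nat_lit 32) (.e (nat_lit 475177) (nat_lit 24) (.e (nat_lit 516150) (nat_lit 9) (.e (nat_lit 426131) (nat_lit 3) (.e (nat_lit 204830) (nat_lit 18) (.e (nat_lit 57754) (nat_lit 209) (.e (nat_lit 1039) (nat_lit 81) .nil)))))))) (.g (nat_lit 4) .nil .nil))) 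
(.lf (nat_lit 46264) (.g (nat_lit 2518) (.e (nat_lit 1256) (nat_lit 92) (.e (nat_lit 98333) (nat_lit 18) (.e (nat_lit 164399) (nat_lit 256) (.e (nat_lit 57375) (nat_lit 2) (.e (nat_lit 90172) (nat_lit 14) (.e (nat_lit 180244) (nat_lit 5) (.e (nat_lit 532508) (nat_lit 2) (.e (nat_lit 114432) (nat_lit 9) .nil)))))))) (.g (nat_lit 4) .nil .nil)))))) (.nd (nat_lit 3) (.nd (nat_lit 4) (.nd (nat_lit 5) 
(.lf (nat_lit 46212) (.g (nat_lit 2443) (.e (nat_lit 1255) (nat_lit 92) (.e (nat_lit 98373) (nat_lit 29) (.e (nat_lit 450601) (nat_lit 21) (.e (nat_lit 696341) (nat_lit 7) (.e (nat_lit 164042) (nat_lit 55) (.e (nat_lit 778336) (nat_lit 9) (.e (nat_lit 2700) (nat_lit 169) (.e (nat_lit 220928) (nat_lit 0) .nil)))))))) (.g (nat_lit 4) .nil .nil))) 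
(.lf (nat_lit 46244) (.g (nat_lit 3518) (.e (nat_lit 1256) (nat_lit 92) (.e (nat_lit 98313) (nat_lit 9) (.e (nat_lit 336088) (nat_lit 9) (.e (nat_lit 336019) (nat_lit 3) (.e (nat_lit 98384) (nat_lit 32) (.e (nat_lit 475199) (nat_lit 40) (.e (nat_lit 704607) (nat_lit 9) .nil))))))) (.g (nat_lit 6) .nil .nil)))) (.nd (nat_lit 5) 
(.lf (nat_lit 46228) (.g (nat_lit 4524) (.e (nat_lit 1255) (nat_lit 92) (.e (nat_lit 98384) (nat_lit 32) (.e (nat_lit 475177) (nat_lit 24) (.e (nat_lit 516117) (nat_lit 1) (.e (nat_lit 164330) (nat_lit 230) (.e (nat_lit 163874) (nat_lit 3) (.e (nat_lit 204834) (nat_lit 19) (.e (nat_lit 106517) (nat_lit 9) .nil)))))))) (.g (nat_lit 6) .nil .nil))) 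
(.lf (nat_lit 46260) (.g (nat_lit 3120) (.e (nat_lit 1256) (nat_lit 92) (.e (nat_lit 98333) (nat_lit 18) (.e (nat_lit 164325) (nat_lit 230) (.e (nat_lit 163873) (nat_lit 3) .nil)))) .nil)))) (.nd (nat_lit 4) (.nd (nat_lit 5) 
(.lf (nat_lit 46220) (.g (nat_lit 1757) (.e (nat_lit 1255) (nat_lit 92) (.e (nat_lit 98373) (nat_lit 29) (.e (nat_lit 450604) (nat_lit 22) (.e (nat_lit 704728) (nat_lit 10) (.e (nat_lit 8276) (nat_lit 47) (.e (nat_lit 794677) (nat_lit 24) (.e (nat_lit 220928) (nat_lit 0) .nil))))))) (.g (nat_lit 4) .nil .nil))) 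
(.lf (nat_lit 46252) (.g (nat_lit 1723) (.e (nat_lit 1256) (nat_lit 92) (.e (nat_lit 98317) (nat_lit 9) (.e (nat_lit 336186) (nat_lit 11) (.e (nat_lit 368676) (nat_lit 21) (.e (nat_lit 516179) (nat_lit 15) .nil))))) .nil))) (.nd (nat_lit 5) 
(.lf (nat_lit 46236) (.g (nat_lit 3028) (.e (nat_lit 1255) (nat_lit 92) (.e (nat_lit 98384) (nat_lit 32) (.e (nat_lit 475179) (nat_lit 24) (.e (nat_lit 516117) (nat_lit 1) (.e (nat_lit 164332) (nat_lit 230) (.e (nat_lit 163874) (nat_lit 3) (.e (nat_lit 204834) (nat_lit 19) (.e (nat_lit 106517) (nat_lit 9) .nil)))))))) (.g (nat_lit 4) .nil .nil))) 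
(.lf (nat_lit 46268) (.g (nat_lit 2721) (.e (nat_lit 1256) (nat_lit 92) (.e (nat_lit 98334) (nat_lit 18) (.e (nat_lit 164398) (nat_lit 256) (.e (nat_lit 57373) (nat_lit 2) (.e (nat_lit 90172) (nat_lit 14) .nil))))) .nil)))))) (.nd (nat_lit 2) (.nd (nat_lit 3) (.nd (nat_lit 4) (.nd (nat_lit 5) 
(.lf (nat_lit 46210) (.g (nat_lit 4358) (.e (nat_lit 1255) (nat_lit 92) (.e (nat_lit 98373) (nat_lit 29) (.e (nat_lit 450588) (nat_lit 10) (.e (nat_lit 573478) (nat_lit 12) .nil)))) .nil)) 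
(.lf (nat_lit 46242) (.g (nat_lit 2859) (.e (nat_lit 1256) (nat_lit 92) (.e (nat_lit 98312) (nat_lit 9) (.e (nat_lit 336215) (nat_lit 13) (.e (nat_lit 393229) (nat_lit 9) (.e (nat_lit 335996) (nat_lit 1) (.e (nat_lit 57830) (nat_lit 250) (.e (nat_lit 999) (nat_lit 81) .nil))))))) (.g (nat_lit 6) .nil .nil)))) (.nd (nat_lit 5) 
(.lf (nat_lit 46226) (.g (nat_lit 1559) (.e (nat_lit 1255) (nat_lit 92) (.e (nat_lit 98373) (nat_lit 29) (.e (nat_lit 458496) (nat_lit 23) (.e (nat_lit 712749) (nat_lit 28) (.e (nat_lit 434276) (nat_lit 39) (.e (nat_lit 671488) (nat_lit 0) .nil)))))) (.g (nat_lit 5) .nil .nil))) 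
(.lf (nat_lit 46258) (.g (nat_lit 1260) (.e (nat_lit 1256) (nat_lit 92) (.e (nat_lit 98333) (nat_lit 18) (.e (nat_lit 164179) (nat_lit 154) .nil))) .nil)))) (.nd (nat_lit 4) (.nd (nat_lit 5) 
(.lf (nat_lit 46218) (.g (nat_lit 1847) (.e (nat_lit 1255) (nat_lit 92) (.e (nat_lit 98373) (nat_lit 29) (.e (nat_lit 450602) (nat_lit 22) (.e (nat_lit 704594) (nat_lit 5) (.e (nat_lit 180265) (nat_lit 21) (.e (nat_lit 671488) (nat_lit 0) .nil)))))) (.g (nat_lit 4) .nil .nil))) 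
(.lf (nat_lit 46250) (.g (nat_lit 1569) (.e (nat_lit 1256) (nat_lit 92) (.e (nat_lit 98317) (nat_lit 9) (.e (nat_lit 336184) (nat_lit 11) (.e (nat_lit 368676) (nat_lit 21) (.e (nat_lit 516179) (nat_lit 15) .nil))))) .nil))) (.nd (nat_lit 5) 
(.lf (nat_lit 46234) (.g (nat_lit 2245) (.e (nat_lit 1255) (nat_lit 92) (.e (nat_lit 98384) (nat_lit 32) (.e (nat_lit 475177) (nat_lit 24) (.e (nat_lit 516171) (nat_lit 13) .nil)))) .nil)) 
(.lf (nat_lit 46266) (.g (nat_lit 2899) (.e (nat_lit 1256) (nat_lit 92) (.e (nat_lit 98333) (nat_lit 18) (.e (nat_lit 164399) (nat_lit 256) (.e (nat_lit 57378) (nat_lit 3) (.e (nat_lit 98366) (nat_lit 27) .nil))))) .nil))))) (.nd (nat_lit 3) (.nd (nat_lit 4) (.nd (nat_lit 5) 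
(.lf (nat_lit 46214) (.g (nat_lit 882) (.e (nat_lit 1255) (nat_lit 92) (.e (nat_lit 98373) (nat_lit 29) (.e (nat_lit 450602) (nat_lit 22) .nil))) .nil)) 
(.lf (nat_lit 46246) (.g (nat_lit 1336) (.e (nat_lit 1256) (nat_lit 92) (.e (nat_lit 98313) (nat_lit 9) (.e (nat_lit 336223) (nat_lit 13) (.e (nat_lit 393229) (nat_lit 9) .nil)))) .nil))) (.nd (nat_lit 5) 
(.lf (nat_lit 46230) (.g (nat_lit 4476) (.e (nat_lit 1255) (nat_lit 92) (.e (nat_lit 98384) (nat_lit 32) (.e (nat_lit 475177) (nat_lit 24) (.e (nat_lit 516120) (nat_lit 1) (.e (nat_lit 164330) (nat_lit 230) (.e (nat_lit 163874) (nat_lit 3) (.e (nat_lit 204834) (nat_lit 19) (.e (nat_lit 106517) (nat_lit 9) .nil)))))))) (.g (nat_lit 7) .nil .nil))) 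
(.lf (nat_lit 46262) (.g (nat_lit 3149) (.e (nat_lit 1256) (nat_lit 92) (.e (nat_lit 98333) (nat_lit 18) (.e (nat_lit 164399) (nat_lit 256) (.e (nat_lit 57372) (nat_lit 2) (.e (nat_lit 90174) (nat_lit 14) (.e (nat_lit 180243) (nat_lit 5) (.e (nat_lit 532508) (nat_lit 2) (.e (nat_lit 114432) (nat_lit 9) .nil)))))))) (.g (nat_lit 5) .nil .nil))))) (.nd (nat_lit 4) (.nd (nat_lit 5) 
(.lf (nat_lit 46222) (.g (nat_lit 1722) (.e (nat_lit 1255) (nat_lit 92) (.e (nat_lit 98373) (nat_lit 29) (.e (nat_lit 458496) (nat_lit 23) (.e (nat_lit 712747) (nat_lit 28) (.e (nat_lit 434275) (nat_lit 39) (.e (nat_lit 671488) (nat_lit 0) .nil)))))) (.g (nat_lit 5) .nil .nil))) 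
(.lf (nat_lit 46254) (.g (nat_lit 1334) (.e (nat_lit 1256) (nat_lit 92) (.e (nat_lit 106240) (nat_lit 11) (.e (nat_lit 352313) (nat_lit 23) (.e (nat_lit 98356) (nat_lit 26) (.e (nat_lit 426440) (nat_lit 19) (.e (nat_lit 106504) (nat_lit 9) .nil)))))) (.g (nat_lit 5) .nil .nil)))) (.nd (nat_lit 5) 
(.lf (nat_lit 46238) (.g (nat_lit 3461) (.e (nat_lit 1255) (nat_lit 92) (.e (nat_lit 98384) (nat_lit 32) (.e (nat_lit 475210) (nat_lit 41) (.e (nat_lit 712745) (nat_lit 27) (.e (nat_lit 426532) (nat_lit 28) .nil))))) .nil)) 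
(.lf (nat_lit 46270) (.g (nat_lit 2858) (.e (nat_lit 1256) (nat_lit 92) (.e (nat_lit 98334) (nat_lit 18) (.e (nat_lit 164398) (nat_lit 256) (.e (nat_lit 57379) (nat_lit 3) (.e (nat_lit 98366) (nat_lit 27) (.e (nat_lit 434231) (nat_lit 23) (.e (nat_lit 532507) (nat_lit 2) (.e (nat_lit 106504) (nat_lit 9) .nil)))))))) (.g (nat_lit 4) .nil .nil)))))))) 
(.nd (nat_lit 1) (.nd (nat_lit 2) (.nd (nat_lit 3) (.nd (nat_lit 4) (.nd (nat_lit 5) 
(.lf (nat_lit 46209) (.g (nat_lit 4039) (.e (nat_lit 1255) (nat_lit 92) (.e (nat_lit 98373) (nat_lit 29) (.e (nat_lit 450588) (nat_lit 10) (.e (nat_lit 573475) (nat_lit 12) (.e (nat_lit 65280) (nat_lit 57) (.e (nat_lit 794627) (nat_lit 0) (.e (nat_lit 7936) (nat_lit 343) .nil))))))) (.g (nat_lit 4) .nil .nil))) 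
(.lf (nat_lit 46241) (.g (nat_lit 1965) (.e (nat_lit 1256) (nat_lit 92) (.e (nat_lit 98312) (nat_lit 9) (.e (nat_lit 336078) (nat_lit 9) (.e (nat_lit 336454) (nat_lit 34) (.e (nat_lit 483364) (nat_lit 18) (.e (nat_lit 57830) (nat_lit 250) (.e (nat_lit 999) (nat_lit 81) .nil))))))) (.g (nat_lit 5) .nil .nil)))) (.nd (nat_lit 5) 
(.lf (nat_lit 46225) (.g (nat_lit 1639) (.e (nat_lit 1255) (nat_lit 92) (.e (nat_lit 98373) (nat_lit 29) (.e (nat_lit 458496) (nat_lit 23) (.e (nat_lit 712749) (nat_lit 28) (.e (nat_lit 434275) (nat_lit 39) (.e (nat_lit 671488) (nat_lit 0) .nil)))))) (.g (nat_lit 5) .nil .nil))) 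
(.lf (nat_lit 46257) (.g (nat_lit 1184) (.e (nat_lit 1256) (nat_lit 92) (.e (nat_lit 106240) (nat_lit 14) (.e (nat_lit 376869) (nat_lit 23) (.e (nat_lit 98384) (nat_lit 32) (.e (nat_lit 475201) (nat_lit 40) (.e (nat_lit 712448) (nat_lit 9) .nil)))))) (.g (nat_lit 5) .nil .nil))))) (.nd (nat_lit 4) (.nd (nat_lit 5) 
(.lf (nat_lit 46217) (.g (nat_lit 1980) (.e (nat_lit 1255) (nat_lit 92) (.e (nat_lit 98373) (nat_lit 29) (.e (nat_lit 450602) (nat_lit 22) (.e (nat_lit 704594) (nat_lit 5) (.e (nat_lit 180263) (nat_lit 21) (.e (nat_lit 671488) (nat_lit 0) .nil)))))) (.g (nat_lit 5) .nil .nil))) 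
(.lf (nat_lit 46249) (.g (nat_lit 1066) (.e (nat_lit 1256) (nat_lit 92) (.e (nat_lit 98317) (nat_lit 9) (.e (nat_lit 336184) (nat_lit 11) (.e (nat_lit 368676) (nat_lit 21) .nil)))) .nil))) (.nd (nat_lit 5) 
(.lf (nat_lit 46233) (.g (nat_lit 2278) (.e (nat_lit 1255) (nat_lit 92) (.e (nat_lit 98384) (nat_lit 32) (.e (nat_lit 475177) (nat_lit 24) (.e (nat_lit 516169) (nat_lit 13) .nil)))) .nil)) 
(.lf (nat_lit 46265) (.g (nat_lit 2471) (.e (nat_lit 1256) (nat_lit 92) (.e (nat_lit 98333) (nat_lit 18) (.e (nat_lit 164399) (nat_lit 256) (.e (nat_lit 57375) (nat_lit 2) (.e (nat_lit 90174) (nat_lit 14) (.e (nat_lit 180243) (nat_lit 5) (.e (nat_lit 532508) (nat_lit 2) (.e (nat_lit 114432) (nat_lit 9) .nil)))))))) (.g (nat_lit 4) .nil .nil)))))) (.nd (nat_lit 3) (.nd (nat_lit 4) (.nd (nat_lit 5) 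
(.lf (nat_lit 46213) (.g (nat_lit 1757) (.e (nat_lit 1255) (nat_lit 92) (.e (nat_lit 98373) (nat_lit 29) (.e (nat_lit 450601) (nat_lit 21) (.e (nat_lit 696341) (nat_lit 7) (.e (nat_lit 164059) (nat_lit 57) .nil))))) .nil)) 
(.lf (nat_lit 46245) (.g (nat_lit 461) (.e (nat_lit 1256) (nat_lit 92) (.e (nat_lit 98313) (nat_lit 9) (.e (nat_lit 336223) (nat_lit 13) .nil))) .nil))) (.nd (nat_lit 5) 
(.lf (nat_lit 46229) (.g (nat_lit 2938) (.e (nat_lit 1255) (nat_lit 92) (.e (nat_lit 98384) (nat_lit 32) (.e (nat_lit 475177) (nat_lit 24) (.e (nat_lit 516117) (nat_lit 1) (.e (nat_lit 164332) (nat_lit 230) .nil))))) .nil)) 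
(.lf (nat_lit 46261) (.g (nat_lit 2250) (.e (nat_lit 1256) (nat_lit 92) (.e (nat_lit 98333) (nat_lit 18) (.e (nat_lit 164399) (nat_lit 256) (.e (nat_lit 57370) (nat_lit 2) (.e (nat_lit 90172) (nat_lit 14) .nil))))) .nil)))) (.nd (nat_lit 4) (.nd (nat_lit 5) 
(.lf (nat_lit 46221) (.g (nat_lit 584) (.e (nat_lit 1255) (nat_lit 92) (.e (nat_lit 98373) (nat_lit 29) (.e (nat_lit 458496) (nat_lit 22) .nil))) .nil)) 
(.lf (nat_lit 46253) (.g (nat_lit 3374) (.e (nat_lit 1256) (nat_lit 92) (.e (nat_lit 98317) (nat_lit 9) (.e (nat_lit 336186) (nat_lit 11) (.e (nat_lit 368676) (nat_lit 21) (.e (nat_lit 516179) (nat_lit 15) (.e (nat_lit 475199) (nat_lit 40) (.e (nat_lit 704607) (nat_lit 9) .nil))))))) (.g (nat_lit 6) .nil .nil)))) (.nd (nat_lit 5) 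
(.lf (nat_lit 46237) (.g (nat_lit 3472) (.e (nat_lit 1255) (nat_lit 92) (.e (nat_lit 98384) (nat_lit 32) (.e (nat_lit 475179) (nat_lit 24) (.e (nat_lit 516120) (nat_lit 1) (.e (nat_lit 164332) (nat_lit 230) (.e (nat_lit 163874) (nat_lit 3) (.e (nat_lit 204834) (nat_lit 19) (.e (nat_lit 106517) (nat_lit 9) .nil)))))))) (.g (nat_lit 5) .nil .nil))) 
(.lf (nat_lit 46269) (.g (nat_lit 2462) (.e (nat_lit 1256) (nat_lit 92) (.e (nat_lit 98334) (nat_lit 18) (.e (nat_lit 164398) (nat_lit 256) (.e (nat_lit 57373) (nat_lit 2) (.e (nat_lit 90174) (nat_lit 14) (.e (nat_lit 180243) (nat_lit 5) (.e (nat_lit 532508) (nat_lit 2) (.e (nat_lit 106512) (nat_lit 9) .nil)))))))) (.g (nat_lit 4) .nil .nil))))))) 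
(.nd (nat_lit 2) (.nd (nat_lit 3) (.nd (nat_lit 4) (.nd (nat_lit 5) 
(.lf (nat_lit 46211) (.g (nat_lit 1273) (.e (nat_lit 1255) (nat_lit 92) (.e (nat_lit 98373) (nat_lit 29) (.e (nat_lit 450601) (nat_lit 21) (.e (nat_lit 696341) (nat_lit 7) .nil)))) .nil)) 
(.lf (nat_lit 46243) (.g (nat_lit 3143) (.e (nat_lit 1256) (nat_lit 92) (.e (nat_lit 98313) (nat_lit 9) (.e (nat_lit 336087) (nat_lit 9) (.e (nat_lit 336019) (nat_lit 3) (.e (nat_lit 98384) (nat_lit 32) (.e (nat_lit 475199) (nat_lit 40) (.e (nat_lit 704607) (nat_lit 9) .nil))))))) (.g (nat_lit 6) .nil .nil)))) (.nd (nat_lit 5) 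
(.lf (nat_lit 46227) (.g (nat_lit 1215) (.e (nat_lit 1255) (nat_lit 92) (.e (nat_lit 98384) (nat_lit 32) (.e (nat_lit 475177) (nat_lit 24) .nil))) .nil)) 
(.lf (nat_lit 46259) (.g (nat_lit 1148) (.e (nat_lit 1256) (nat_lit 92) (.e (nat_lit 98333) (nat_lit 18) (.e (nat_lit 164325) (nat_lit 230) .nil))) .nil)))) (.nd (nat_lit 4) (.nd (nat_lit 5) 
(.lf (nat_lit 46219) (.g (nat_lit 797) (.e (nat_lit 1255) (nat_lit 92) (.e (nat_lit 98373) (nat_lit 29) (.e (nat_lit 450604) (nat_lit 22) .nil))) .nil)) 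
(.lf (nat_lit 46251) (.g (nat_lit 1134) (.e (nat_lit 1256) (nat_lit 92) (.e (nat_lit 98317) (nat_lit 9) (.e (nat_lit 336186) (nat_lit 11) (.e (nat_lit 368676) (nat_lit 21) .nil)))) .nil))) (.nd (nat_lit 5) 
(.lf (nat_lit 46235) (.g (nat_lit 3530) (.e (nat_lit 1255) (nat_lit 92) (.e (nat_lit 98384) (nat_lit 32) (.e (nat_lit 475179) (nat_lit 24) (.e (nat_lit 516117) (nat_lit 1) (.e (nat_lit 164330) (nat_lit 230) (.e (nat_lit 163873) (nat_lit 3) (.e (nat_lit 204834) (nat_lit 19) (.e (nat_lit 106517) (nat_lit 9) .nil)))))))) (.g (nat_lit 4) .nil .nil))) 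
(.lf (nat_lit 46267) (.g (nat_lit 2688) (.e (nat_lit 1256) (nat_lit 92) (.e (nat_lit 98333) (nat_lit 18) (.e (nat_lit 164399) (nat_lit 256) (.e (nat_lit 57379) (nat_lit 3) (.e (nat_lit 98366) (nat_lit 27) (.e (nat_lit 434231) (nat_lit 23) (.e (nat_lit 532507) (nat_lit 2) (.e (nat_lit 106504) (nat_lit 9) .nil)))))))) (.g (nat_lit 4) .nil .nil)))))) 
(.nd (nat_lit 3) (.nd (nat_lit 4) (.nd (nat_lit 5) 
(.lf (nat_lit 46215) (.g (nat_lit 1838) (.e (nat_lit 1255) (nat_lit 92) (.e (nat_lit 98373) (nat_lit 29) (.e (nat_lit 450602) (nat_lit 22) (.e (nat_lit 704512) (nat_lit 0) (.e (nat_lit 2965) (nat_lit 185) (.e (nat_lit 434276) (nat_lit 39) (.e (nat_lit 671488) (nat_lit 0) .nil))))))) (.g (nat_lit 4) .nil .nil))) 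
(.lf (nat_lit 46247) (.g (nat_lit 1840) (.e (nat_lit 1256) (nat_lit 92) (.e (nat_lit 98313) (nat_lit 9) (.e (nat_lit 336223) (nat_lit 13) (.e (nat_lit 393234) (nat_lit 17) (.e (nat_lit 3559) (nat_lit 221) .nil))))) .nil))) (.nd (nat_lit 5) 
(.lf (nat_lit 46231) (.g (nat_lit 2528) (.e (nat_lit 1255) (nat_lit 92) (.e (nat_lit 98384) (nat_lit 32) (.e (nat_lit 475177) (nat_lit 24) (.e (nat_lit 516150) (nat_lit 9) (.e (nat_lit 426131) (nat_lit 3) .nil))))) .nil)) 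
(.lf (nat_lit 46263) (.g (nat_lit 2546) (.e (nat_lit 1256) (nat_lit 92) (.e (nat_lit 98333) (nat_lit 18) (.e (nat_lit 164399) (nat_lit 256) (.e (nat_lit 57373) (nat_lit 2) (.e (nat_lit 90174) (nat_lit 14) (.e (nat_lit 180243) (nat_lit 5) (.e (nat_lit 532511) (nat_lit 2) (.e (nat_lit 106512) (nat_lit 9) .nil)))))))) (.g (nat_lit 4) .nil .nil))))) (.nd (nat_lit 4) (.nd (nat_lit 5) 
(.lf (nat_lit 46223) (.g (nat_lit 1387) (.e (nat_lit 1255) (nat_lit 92) (.e (nat_lit 98373) (nat_lit 29) (.e (nat_lit 458496) (nat_lit 23) (.e (nat_lit 712747) (nat_lit 28) (.e (nat_lit 434276) (nat_lit 39) (.e (nat_lit 671488) (nat_lit 0) .nil)))))) (.g (nat_lit 5) .nil .nil))) 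
(.lf (nat_lit 46255) (.g (nat_lit 1641) (.e (nat_lit 1256) (nat_lit 92) (.e (nat_lit 106240) (nat_lit 14) (.e (nat_lit 376862) (nat_lit 22) (.e (nat_lit 90185) (nat_lit 17) (.e (nat_lit 237630) (nat_lit 15) (.e (nat_lit 2146) (nat_lit 142) (.e (nat_lit 704606) (nat_lit 9) .nil))))))) (.g (nat_lit 4) .nil .nil)))) (.nd (nat_lit 5) 
(.lf (nat_lit 46239) (.g (nat_lit 1776) (.e (nat_lit 1255) (nat_lit 92) (.e (nat_lit 98387) (nat_lit 33) (.e (nat_lit 491569) (nat_lit 13) (.e (nat_lit 401152) (nat_lit 10) (.e (nat_lit 344164) (nat_lit 37) (.e (nat_lit 647196) (nat_lit 9) .nil)))))) (.g (nat_lit 5) .nil .nil))) 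
(.lf (nat_lit 46271) (.g (nat_lit 2328) (.e (nat_lit 1256) (nat_lit 92) (.e (nat_lit 98341) (nat_lit 20) (.e (nat_lit 221210) (nat_lit 22) (.e (nat_lit 196666) (nat_lit 13) (.e (nat_lit 65571) (nat_lit 3) .nil))))) .nil))))))))

noncomputable def tv643 : DT := (.nd (nat_lit 0) (.nd (nat_lit 1) (.nd (nat_lit 2) (.nd (nat_lit 3) (.nd (nat_lit 4) (.nd (nat_lit 5) 
(.lf (nat_lit 46272) (.g (nat_lit 2935) (.e (nat_lit 1256) (nat_lit 92) (.e (nat_lit 98341) (nat_lit 20) (.e (nat_lit 221210) (nat_lit 22) (.e (nat_lit 196668) (nat_lit 14) (.e (nat_lit 73746) (nat_lit 3) (.e (nat_lit 516117) (nat_lit 1) (.e (nat_lit 164147) (nat_lit 152) (.e (nat_lit 974) (nat_lit 81) .nil)))))))) (.g (nat_lit 5) .nil .nil))) 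
(.lf (nat_lit 46304) (.g (nat_lit 2018) (.e (nat_lit 1256) (nat_lit 92) (.e (nat_lit 98341) (nat_lit 20) (.e (nat_lit 221215) (nat_lit 23) (.e (nat_lit 204852) (nat_lit 26) (.e (nat_lit 336324) (nat_lit 18) (.e (nat_lit 204830) (nat_lit 18) (.e (nat_lit 57830) (nat_lit 250) (.e (nat_lit 999) (nat_lit 81) .nil)))))))) (.g (nat_lit 4) .nil .nil)))) (.nd (nat_lit 5) 
(.lf (nat_lit 46288) (.g (nat_lit 2185) (.e (nat_lit 1256) (nat_lit 92) (.e (nat_lit 98341) (nat_lit 20) (.e (nat_lit 221210) (nat_lit 22) (.e (nat_lit 196670) (nat_lit 14) (.e (nat_lit 73746) (nat_lit 3) (.e (nat_lit 516119) (nat_lit 1) (.e (nat_lit 164147) (nat_lit 152) (.e (nat_lit 999) (nat_lit 81) .nil)))))))) (.g (nat_lit 4) .nil .nil))) 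
(.lf (nat_lit 46320) (.g (nat_lit 2605) (.e (nat_lit 1256) (nat_lit 92) (.e (nat_lit 98342) (nat_lit 20) (.e (nat_lit 221210) (nat_lit 22) (.e (nat_lit 196668) (nat_lit 14) (.e (nat_lit 73747) (nat_lit 3) (.e (nat_lit 516117) (nat_lit 1) (.e (nat_lit 164159) (nat_lit 152) (.e (nat_lit 1016) (nat_lit 81) .nil)))))))) (.g (nat_lit 4) .nil .nil))))) (.nd (nat_lit 4) (.nd (nat_lit 5) 
(.lf (nat_lit 46280) (.g (nat_lit 2197) (.e (nat_lit 1256) (nat_lit 92) (.e (nat_lit 98341) (nat_lit 20) (.e (nat_lit 221210) (nat_lit 22) (.e (nat_lit 196668) (nat_lit 14) (.e (nat_lit 73747) (nat_lit 3) (.e (nat_lit 516120) (nat_lit 1) (.e (nat_lit 164159) (nat_lit 152) (.e (nat_lit 1016) (nat_lit 81) .nil)))))))) (.g (nat_lit 4) .nil .nil))) 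
(.lf (nat_lit 46312) (.g (nat_lit 2679) (.e (nat_lit 1256) (nat_lit 92) (.e (nat_lit 98342) (nat_lit 20) (.e (nat_lit 221210) (nat_lit 22) (.e (nat_lit 196668) (nat_lit 14) (.e (nat_lit 73746) (nat_lit 3) .nil))))) .nil))) (.nd (nat_lit 5) 
(.lf (nat_lit 46296) (.g (nat_lit 2523) (.e (nat_lit 1256) (nat_lit 92) (.e (nat_lit 98341) (nat_lit 20) (.e (nat_lit 221212) (nat_lit 22) (.e (nat_lit 196670) (nat_lit 14) (.e (nat_lit 73746) (nat_lit 3) (.e (nat_lit 516120) (nat_lit 1) (.e (nat_lit 164147) (nat_lit 152) (.e (nat_lit 974) (nat_lit 81) .nil)))))))) (.g (nat_lit 5) .nil .nil))) 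
(.lf (nat_lit 46328) (.g (nat_lit 3080) (.e (nat_lit 1256) (nat_lit 92) (.e (nat_lit 98342) (nat_lit 20) (.e (nat_lit 221210) (nat_lit 22) (.e (nat_lit 196670) (nat_lit 14) (.e (nat_lit 73746) (nat_lit 3) (.e (nat_lit 516117) (nat_lit 1) (.e (nat_lit 164159) (nat_lit 152) (.e (nat_lit 1016) (nat_lit 81) .nil)))))))) (.g (nat_lit 5) .nil .nil)))))) 
(.nd (nat_lit 3) (.nd (nat_lit 4) (.nd (nat_lit 5) 
(.lf (nat_lit 46276) (.g (nat_lit 3746) (.e (nat_lit 1256) (nat_lit 92) (.e (nat_lit 98341) (nat_lit 20) (.e (nat_lit 221210) (nat_lit 22) (.e (nat_lit 196668) (nat_lit 14) (.e (nat_lit 73747) (nat_lit 3) (.e (nat_lit 516115) (nat_lit 1) (.e (nat_lit 164153) (nat_lit 152) (.e (nat_lit 999) (nat_lit 81) .nil)))))))) (.g (nat_lit 6) .nil .nil))) 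
(.lf (nat_lit 46308) (.g (nat_lit 2509) (.e (nat_lit 1256) (nat_lit 92) (.e (nat_lit 98341) (nat_lit 20) (.e (nat_lit 221215) (nat_lit 23) (.e (nat_lit 204863) (nat_lit 27) (.e (nat_lit 344118) (nat_lit 21) (.e (nat_lit 516119) (nat_lit 1) (.e (nat_lit 164150) (nat_lit 152) (.e (nat_lit 974) (nat_lit 81) .nil)))))))) (.g (nat_lit 4) .nil .nil)))) (.nd (nat_lit 5) 
(.lf (nat_lit 46292) (.g (nat_lit 799) (.e (nat_lit 1256) (nat_lit 92) (.e (nat_lit 98341) (nat_lit 20) (.e (nat_lit 221211) (nat_lit 22) .nil))) .nil)) 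
(.lf (nat_lit 46324) (.g (nat_lit 2615) (.e (nat_lit 1256) (nat_lit 92) (.e (nat_lit 98342) (nat_lit 20) (.e (nat_lit 221210) (nat_lit 22) (.e (nat_lit 196668) (nat_lit 14) (.e (nat_lit 73747) (nat_lit 3) (.e (nat_lit 516119) (nat_lit 1) (.e (nat_lit 164154) (nat_lit 152) (.e (nat_lit 999) (nat_lit 81) .nil)))))))) (.g (nat_lit 4) .nil .nil))))) (.nd (nat_lit 4) (.nd (nat_lit 5) 
(.lf (nat_lit 46284) (.g (nat_lit 2196) (.e (nat_lit 1256) (nat_lit 92) (.e (nat_lit 98341) (nat_lit 20) (.e (nat_lit 221210) (nat_lit 22) (.e (nat_lit 196670) (nat_lit 14) (.e (nat_lit 73746) (nat_lit 3) (.e (nat_lit 516115) (nat_lit 1) (.e (nat_lit 164156) (nat_lit 152) (.e (nat_lit 968) (nat_lit 81) .nil)))))))) (.g (nat_lit 4) .nil .nil))) 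
(.lf (nat_lit 46316) (.g (nat_lit 2779) (.e (nat_lit 1256) (nat_lit 92) (.e (nat_lit 98342) (nat_lit 20) (.e (nat_lit 221210) (nat_lit 22) (.e (nat_lit 196668) (nat_lit 14) (.e (nat_lit 73746) (nat_lit 3) (.e (nat_lit 516120) (nat_lit 1) (.e (nat_lit 164147) (nat_lit 152) (.e (nat_lit 974) (nat_lit 81) .nil)))))))) (.g (nat_lit 4) .nil .nil)))) (.nd (nat_lit 5) 
(.lf (nat_lit 46300) (.g (nat_lit 3308) (.e (nat_lit 1256) (nat_lit 92) (.e (nat_lit 98341) (nat_lit 20) (.e (nat_lit 221214) (nat_lit 23) (.e (nat_lit 204852) (nat_lit 26) (.e (nat_lit 336326) (nat_lit 18) (.e (nat_lit 204831) (nat_lit 18) (.e (nat_lit 57830) (nat_lit 250) (.e (nat_lit 999) (nat_lit 81) .nil)))))))) (.g (nat_lit 6) .nil .nil))) 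
(.lf (nat_lit 46332) (.g (nat_lit 2575) (.e (nat_lit 1256) (nat_lit 92) (.e (nat_lit 98342) (nat_lit 20) (.e (nat_lit 221210) (nat_lit 22) (.e (nat_lit 196670) (nat_lit 14) (.e (nat_lit 73746) (nat_lit 3) (.e (nat_lit 516119) (nat_lit 1) (.e (nat_lit 164153) (nat_lit 152) (.e (nat_lit 999) (nat_lit 81) .nil)))))))) (.g (nat_lit 4) .nil .nil))))))) 
(.nd (nat_lit 2) (.nd (nat_lit 3) (.nd (nat_lit 4) (.nd (nat_lit 5) 
(.lf (nat_lit 46274) (.g (nat_lit 2124) (.e (nat_lit 1256) (nat_lit 92) (.e (nat_lit 98341) (nat_lit 20) (.e (nat_lit 221210) (nat_lit 22) (.e (nat_lit 196668) (nat_lit 14) (.e (nat_lit 73747) (nat_lit 3) .nil))))) .nil)) 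
(.lf (nat_lit 46306) (.g (nat_lit 2503) (.e (nat_lit 1256) (nat_lit 92) (.e (nat_lit 98341) (nat_lit 20) (.e (nat_lit 221215) (nat_lit 23) (.e (nat_lit 204861) (nat_lit 26) (.e (nat_lit 336026) (nat_lit 3) (.e (nat_lit 98335) (nat_lit 18) (.e (nat_lit 164150) (nat_lit 152) (.e (nat_lit 974) (nat_lit 81) .nil)))))))) (.g (nat_lit 4) .nil .nil)))) (.nd (nat_lit 5) 
(.lf (nat_lit 46290) (.g (nat_lit 2297) (.e (nat_lit 1256) (nat_lit 92) (.e (nat_lit 98341) (nat_lit 20) (.e (nat_lit 221210) (nat_lit 22) (.e (nat_lit 196670) (nat_lit 14) (.e (nat_lit 73746) (nat_lit 3) (.e (nat_lit 516120) (nat_lit 1) (.e (nat_lit 164147) (nat_lit 152) (.e (nat_lit 999) (nat_lit 81) .nil)))))))) (.g (nat_lit 4) .nil .nil))) 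
(.lf (nat_lit 46322) (.g (nat_lit 4513) (.e (nat_lit 1256) (nat_lit 92) (.e (nat_lit 98342) (nat_lit 20) (.e (nat_lit 221210) (nat_lit 22) (.e (nat_lit 196668) (nat_lit 14) (.e (nat_lit 73747) (nat_lit 3) (.e (nat_lit 516119) (nat_lit 1) (.e (nat_lit 164150) (nat_lit 152) (.e (nat_lit 974) (nat_lit 81) .nil)))))))) (.g (nat_lit 6) .nil .nil))))) (.nd (nat_lit 4) (.nd (nat_lit 5) 
(.lf (nat_lit 46282) (.g (nat_lit 2095) (.e (nat_lit 1256) (nat_lit 92) (.e (nat_lit 98341) (nat_lit 20) (.e (nat_lit 221210) (nat_lit 22) (.e (nat_lit 196670) (nat_lit 14) (.e (nat_lit 73746) (nat_lit 3) .nil))))) .nil)) 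
(.lf (nat_lit 46314) (.g (nat_lit 2919) (.e (nat_lit 1256) (nat_lit 92) (.e (nat_lit 98342) (nat_lit 20) (.e (nat_lit 221210) (nat_lit 22) (.e (nat_lit 196668) (nat_lit 14) (.e (nat_lit 73746) (nat_lit 3) (.e (nat_lit 516117) (nat_lit 1) (.e (nat_lit 164147) (nat_lit 152) (.e (nat_lit 974) (nat_lit 81) .nil)))))))) (.g (nat_lit 4) .nil .nil)))) (.nd (nat_lit 5) 
(.lf (nat_lit 46298) (.g (nat_lit 2217) (.e (nat_lit 1256) (nat_lit 92) (.e (nat_lit 98341) (nat_lit 20) (.e (nat_lit 221214) (nat_lit 23) (.e (nat_lit 204852) (nat_lit 26) (.e (nat_lit 336324) (nat_lit 18) (.e (nat_lit 204830) (nat_lit 18) (.e (nat_lit 57830) (nat_lit 250) (.e (nat_lit 999) (nat_lit 81) .nil)))))))) (.g (nat_lit 4) .nil .nil))) 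
(.lf (nat_lit 46330) (.g (nat_lit 4112) (.e (nat_lit 1256) (nat_lit 92) (.e (nat_lit 98342) (nat_lit 20) (.e (nat_lit 221210) (nat_lit 22) (.e (nat_lit 196670) (nat_lit 14) (.e (nat_lit 73746) (nat_lit 3) (.e (nat_lit 516119) (nat_lit 1) (.e (nat_lit 164149) (nat_lit 152) (.e (nat_lit 974) (nat_lit 81) .nil)))))))) (.g (nat_lit 6) .nil .nil)))))) (.nd (nat_lit 3) (.nd (nat_lit 4) (.nd (nat_lit 5) 
(.lf (nat_lit 46278) (.g (nat_lit 2624) (.e (nat_lit 1256) (nat_lit 92) (.e (nat_lit 98341) (nat_lit 20) (.e (nat_lit 221210) (nat_lit 22) (.e (nat_lit 196668) (nat_lit 14) (.e (nat_lit 73747) (nat_lit 3) (.e (nat_lit 516117) (nat_lit 1) (.e (nat_lit 164159) (nat_lit 152) (.e (nat_lit 1016) (nat_lit 81) .nil)))))))) (.g (nat_lit 5) .nil .nil))) 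
(.lf (nat_lit 46310) (.g (nat_lit 2730) (.e (nat_lit 1256) (nat_lit 92) (.e (nat_lit 98342) (nat_lit 20) (.e (nat_lit 221210) (nat_lit 22) (.e (nat_lit 196666) (nat_lit 13) (.e (nat_lit 65569) (nat_lit 3) .nil))))) .nil))) (.nd (nat_lit 5) 
(.lf (nat_lit 46294) (.g (nat_lit 2048) (.e (nat_lit 1256) (nat_lit 92) (.e (nat_lit 98341) (nat_lit 20) (.e (nat_lit 221212) (nat_lit 22) (.e (nat_lit 196668) (nat_lit 14) (.e (nat_lit 73746) (nat_lit 3) .nil))))) .nil)) 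
(.lf (nat_lit 46326) (.g (nat_lit 4341) (.e (nat_lit 1256) (nat_lit 92) (.e (nat_lit 98342) (nat_lit 20) (.e (nat_lit 221210) (nat_lit 22) (.e (nat_lit 196670) (nat_lit 14) (.e (nat_lit 73746) (nat_lit 3) (.e (nat_lit 516115) (nat_lit 1) (.e (nat_lit 164150) (nat_lit 152) (.e (nat_lit 974) (nat_lit 81) .nil)))))))) (.g (nat_lit 6) .nil .nil))))) (.nd (nat_lit 4) (.nd (nat_lit 5) 
(.lf (nat_lit 46286) (.g (nat_lit 2214) (.e (nat_lit 1256) (nat_lit 92) (.e (nat_lit 98341) (nat_lit 20) (.e (nat_lit 221210) (nat_lit 22) (.e (nat_lit 196670) (nat_lit 14) (.e (nat_lit 73746) (nat_lit 3) (.e (nat_lit 516117) (nat_lit 1) (.e (nat_lit 164147) (nat_lit 152) (.e (nat_lit 1016) (nat_lit 81) .nil)))))))) (.g (nat_lit 4) .nil .nil))) 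
(.lf (nat_lit 46318) (.g (nat_lit 4300) (.e (nat_lit 1256) (nat_lit 92) (.e (nat_lit 98342) (nat_lit 20) (.e (nat_lit 221210) (nat_lit 22) (.e (nat_lit 196668) (nat_lit 14) (.e (nat_lit 73747) (nat_lit 3) (.e (nat_lit 516115) (nat_lit 1) (.e (nat_lit 164150) (nat_lit 152) (.e (nat_lit 974) (nat_lit 81) .nil)))))))) (.g (nat_lit 6) .nil .nil)))) (.nd (nat_lit 5) 
(.lf (nat_lit 46302) (.g (nat_lit 2242) (.e (nat_lit 1256) (nat_lit 92) (.e (nat_lit 98341) (nat_lit 20) (.e (nat_lit 221214) (nat_lit 23) (.e (nat_lit 204861) (nat_lit 26) (.e (nat_lit 336012) (nat_lit 2) (.e (nat_lit 90181) (nat_lit 16) (.e (nat_lit 229453) (nat_lit 44) (.e (nat_lit 688145) (nat_lit 13) .nil)))))))) (.g (nat_lit 4) .nil .nil))) 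
(.lf (nat_lit 46334) (.g (nat_lit 2394) (.e (nat_lit 1256) (nat_lit 92) (.e (nat_lit 98342) (nat_lit 20) (.e (nat_lit 221210) (nat_lit 22) (.e (nat_lit 196670) (nat_lit 14) (.e (nat_lit 73746) (nat_lit 3) (.e (nat_lit 516120) (nat_lit 1) (.e (nat_lit 164147) (nat_lit 152) (.e (nat_lit 999) (nat_lit 81) .nil)))))))) (.g (nat_lit 4) .nil .nil)))))))) 
(.nd (nat_lit 1) (.nd (nat_lit 2) (.nd (nat_lit 3) (.nd (nat_lit 4) (.nd (nat_lit 5) 
(.lf (nat_lit 46273) (.g (nat_lit 2521) (.e (nat_lit 1256) (nat_lit 92) (.e (nat_lit 98341) (nat_lit 20) (.e (nat_lit 221210) (nat_lit 22) (.e (nat_lit 196668) (nat_lit 14) (.e (nat_lit 73746) (nat_lit 3) (.e (nat_lit 516119) (nat_lit 1) (.e (nat_lit 164147) (nat_lit 152) (.e (nat_lit 974) (nat_lit 81) .nil)))))))) (.g (nat_lit 4) .nil .nil))) 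
(.lf (nat_lit 46305) (.g (nat_lit 2995) (.e (nat_lit 1256) (nat_lit 92) (.e (nat_lit 98341) (nat_lit 20) (.e (nat_lit 221215) (nat_lit 23) (.e (nat_lit 204861) (nat_lit 26) (.e (nat_lit 336012) (nat_lit 2) (.e (nat_lit 90181) (nat_lit 16) (.e (nat_lit 229453) (nat_lit 44) (.e (nat_lit 688145) (nat_lit 13) .nil)))))))) (.g (nat_lit 5) .nil .nil)))) (.nd (nat_lit 5) 
(.lf (nat_lit 46289) (.g (nat_lit 2310) (.e (nat_lit 1256) (nat_lit 92) (.e (nat_lit 98341) (nat_lit 20) (.e (nat_lit 221210) (nat_lit 22) (.e (nat_lit 196670) (nat_lit 14) (.e (nat_lit 73746) (nat_lit 3) (.e (nat_lit 516119) (nat_lit 1) (.e (nat_lit 164148) (nat_lit 152) (.e (nat_lit 974) (nat_lit 81) .nil)))))))) (.g (nat_lit 4) .nil .nil))) 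
(.lf (nat_lit 46321) (.g (nat_lit 2515) (.e (nat_lit 1256) (nat_lit 92) (.e (nat_lit 98342) (nat_lit 20) (.e (nat_lit 221210) (nat_lit 22) (.e (nat_lit 196668) (nat_lit 14) (.e (nat_lit 73747) (nat_lit 3) (.e (nat_lit 516119) (nat_lit 1) (.e (nat_lit 164148) (nat_lit 152) (.e (nat_lit 974) (nat_lit 81) .nil)))))))) (.g (nat_lit 4) .nil .nil))))) (.nd (nat_lit 4) (.nd (nat_lit 5) 
(.lf (nat_lit 46281) (.g (nat_lit 1610) (.e (nat_lit 1256) (nat_lit 92) (.e (nat_lit 98341) (nat_lit 20) (.e (nat_lit 221210) (nat_lit 22) (.e (nat_lit 196669) (nat_lit 14) .nil)))) .nil)) 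
(.lf (nat_lit 46313) (.g (nat_lit 2761) (.e (nat_lit 1256) (nat_lit 92) (.e (nat_lit 98342) (nat_lit 20) (.e (nat_lit 221210) (nat_lit 22) (.e (nat_lit 196668) (nat_lit 14) (.e (nat_lit 73746) (nat_lit 3) (.e (nat_lit 516115) (nat_lit 1) (.e (nat_lit 164153) (nat_lit 152) (.e (nat_lit 999) (nat_lit 81) .nil)))))))) (.g (nat_lit 4) .nil .nil)))) (.nd (nat_lit 5) 
(.lf (nat_lit 46297) (.g (nat_lit 691) (.e (nat_lit 1256) (nat_lit 92) (.e (nat_lit 98341) (nat_lit 20) (.e (nat_lit 221214) (nat_lit 23) .nil))) .nil)) 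
(.lf (nat_lit 46329) (.g (nat_lit 2399) (.e (nat_lit 1256) (nat_lit 92) (.e (nat_lit 98342) (nat_lit 20) (.e (nat_lit 221210) (nat_lit 22) (.e (nat_lit 196670) (nat_lit 14) (.e (nat_lit 73746) (nat_lit 3) (.e (nat_lit 516119) (nat_lit 1) (.e (nat_lit 164148) (nat_lit 152) (.e (nat_lit 974) (nat_lit 81) .nil)))))))) (.g (nat_lit 4) .nil .nil)))))) (.nd (nat_lit 3) (.nd (nat_lit 4) (.nd (nat_lit 5) 
(.lf (nat_lit 46277) (.g (nat_lit 2293) (.e (nat_lit 1256) (nat_lit 92) (.e (nat_lit 98341) (nat_lit 20) (.e (nat_lit 221210) (nat_lit 22) (.e (nat_lit 196668) (nat_lit 14) (.e (nat_lit 73747) (nat_lit 3) (.e (nat_lit 516115) (nat_lit 1) (.e (nat_lit 164156) (nat_lit 152) (.e (nat_lit 968) (nat_lit 81) .nil)))))))) (.g (nat_lit 4) .nil .nil))) 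
(.lf (nat_lit 46309) (.g (nat_lit 916) (.e (nat_lit 1256) (nat_lit 92) (.e (nat_lit 98342) (nat_lit 20) (.e (nat_lit 221210) (nat_lit 22) .nil))) .nil))) (.nd (nat_lit 5) 
(.lf (nat_lit 46293) (.g (nat_lit 2287) (.e (nat_lit 1256) (nat_lit 92) (.e (nat_lit 98341) (nat_lit 20) (.e (nat_lit 221211) (nat_lit 22) (.e (nat_lit 196666) (nat_lit 13) (.e (nat_lit 65569) (nat_lit 3) .nil))))) .nil)) 
(.lf (nat_lit 46325) (.g (nat_lit 2327) (.e (nat_lit 1256) (nat_lit 92) (.e (nat_lit 98342) (nat_lit 20) (.e (nat_lit 221210) (nat_lit 22) (.e (nat_lit 196670) (nat_lit 14) (.e (nat_lit 73746) (nat_lit 3) .nil))))) .nil)))) (.nd (nat_lit 4) (.nd (nat_lit 5) 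
(.lf (nat_lit 46285) (.g (nat_lit 3666) (.e (nat_lit 1256) (nat_lit 92) (.e (nat_lit 98341) (nat_lit 20) (.e (nat_lit 221210) (nat_lit 22) (.e (nat_lit 196670) (nat_lit 14) (.e (nat_lit 73746) (nat_lit 3) (.e (nat_lit 516117) (nat_lit 1) (.e (nat_lit 164147) (nat_lit 152) (.e (nat_lit 974) (nat_lit 81) .nil)))))))) (.g (nat_lit 6) .nil .nil))) 
(.lf (nat_lit 46317) (.g (nat_lit 2454) (.e (nat_lit 1256) (nat_lit 92) (.e (nat_lit 98342) (nat_lit 20) (.e (nat_lit 221210) (nat_lit 22) (.e (nat_lit 196668) (nat_lit 14) (.e (nat_lit 73747) (nat_lit 3) .nil))))) .nil))) (.nd (nat_lit 5) 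
(.lf (nat_lit 46301) (.g (nat_lit 2237) (.e (nat_lit 1256) (nat_lit 92) (.e (nat_lit 98341) (nat_lit 20) (.e (nat_lit 221214) (nat_lit 23) (.e (nat_lit 204852) (nat_lit 26) (.e (nat_lit 336326) (nat_lit 18) (.e (nat_lit 204831) (nat_lit 18) (.e (nat_lit 57830) (nat_lit 250) (.e (nat_lit 1016) (nat_lit 81) .nil)))))))) (.g (nat_lit 4) .nil .nil))) 
(.lf (nat_lit 46333) (.g (nat_lit 2594) (.e (nat_lit 1256) (nat_lit 92) (.e (nat_lit 98342) (nat_lit 20) (.e (nat_lit 221210) (nat_lit 22) (.e (nat_lit 196670) (nat_lit 14) (.e (nat_lit 73746) (nat_lit 3) (.e (nat_lit 516119) (nat_lit 1) (.e (nat_lit 164154) (nat_lit 152) (.e (nat_lit 999) (nat_lit 81) .nil)))))))) (.g (nat_lit 4) .nil .nil))))))) 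
(.nd (nat_lit 2) (.nd (nat_lit 3) (.nd (nat_lit 4) (.nd (nat_lit 5) 
(.lf (nat_lit 46275) (.g (nat_lit 4329) (.e (nat_lit 1256) (nat_lit 92) (.e (nat_lit 98341) (nat_lit 20) (.e (nat_lit 221210) (nat_lit 22) (.e (nat_lit 196668) (nat_lit 14) (.e (nat_lit 73747) (nat_lit 3) (.e (nat_lit 516115) (nat_lit 1) (.e (nat_lit 164150) (nat_lit 152) (.e (nat_lit 974) (nat_lit 81) .nil)))))))) (.g (nat_lit 7) .nil .nil))) 
(.lf (nat_lit 46307) (.g (nat_lit 2512) (.e (nat_lit 1256) (nat_lit 92) (.e (nat_lit 98341) (nat_lit 20) (.e (nat_lit 221215) (nat_lit 23) (.e (nat_lit 204863) (nat_lit 27) (.e (nat_lit 344118) (nat_lit 21) (.e (nat_lit 516119) (nat_lit 1) (.e (nat_lit 164149) (nat_lit 152) (.e (nat_lit 974) (nat_lit 81) .nil)))))))) (.g (nat_lit 4) .nil .nil)))) (.nd (nat_lit 5) 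
(.lf (nat_lit 46291) (.g (nat_lit 2338) (.e (nat_lit 1256) (nat_lit 92) (.e (nat_lit 98341) (nat_lit 20) (.e (nat_lit 221210) (nat_lit 22) (.e (nat_lit 196670) (nat_lit 14) (.e (nat_lit 73746) (nat_lit 3) (.e (nat_lit 516120) (nat_lit 1) (.e (nat_lit 164158) (nat_lit 152) (.e (nat_lit 1016) (nat_lit 81) .nil)))))))) (.g (nat_lit 4) .nil .nil))) 
(.lf (nat_lit 46323) (.g (nat_lit 2691) (.e (nat_lit 1256) (nat_lit 92) (.e (nat_lit 98342) (nat_lit 20) (.e (nat_lit 221210) (nat_lit 22) (.e (nat_lit 196668) (nat_lit 14) (.e (nat_lit 73747) (nat_lit 3) (.e (nat_lit 516119) (nat_lit 1) (.e (nat_lit 164153) (nat_lit 152) (.e (nat_lit 999) (nat_lit 81) .nil)))))))) (.g (nat_lit 4) .nil .nil))))) (.nd (nat_lit 4) (.nd (nat_lit 5) 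
(.lf (nat_lit 46283) (.g (nat_lit 3719) (.e (nat_lit 1256) (nat_lit 92) (.e (nat_lit 98341) (nat_lit 20) (.e (nat_lit 221210) (nat_lit 22) (.e (nat_lit 196670) (nat_lit 14) (.e (nat_lit 73746) (nat_lit 3) (.e (nat_lit 516115) (nat_lit 1) (.e (nat_lit 164153) (nat_lit 152) (.e (nat_lit 999) (nat_lit 81) .nil)))))))) (.g (nat_lit 6) .nil .nil))) 
(.lf (nat_lit 46315) (.g (nat_lit 3287) (.e (nat_lit 1256) (nat_lit 92) (.e (nat_lit 98342) (nat_lit 20) (.e (nat_lit 221210) (nat_lit 22) (.e (nat_lit 196668) (nat_lit 14) (.e (nat_lit 73746) (nat_lit 3) (.e (nat_lit 516119) (nat_lit 1) (.e (nat_lit 164149) (nat_lit 152) (.e (nat_lit 974) (nat_lit 81) .nil)))))))) (.g (nat_lit 5) .nil .nil)))) (.nd (nat_lit 5) 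
(.lf (nat_lit 46299) (.g (nat_lit 3456) (.e (nat_lit 1256) (nat_lit 92) (.e (nat_lit 98341) (nat_lit 20) (.e (nat_lit 221214) (nat_lit 23) (.e (nat_lit 204852) (nat_lit 26) (.e (nat_lit 336326) (nat_lit 18) (.e (nat_lit 204830) (nat_lit 18) (.e (nat_lit 57830) (nat_lit 250) (.e (nat_lit 999) (nat_lit 81) .nil)))))))) (.g (nat_lit 6) .nil .nil))) 
(.lf (nat_lit 46331) (.g (nat_lit 4394) (.e (nat_lit 1256) (nat_lit 92) (.e (nat_lit 98342) (nat_lit 20) (.e (nat_lit 221210) (nat_lit 22) (.e (nat_lit 196670) (nat_lit 14) (.e (nat_lit 73746) (nat_lit 3) (.e (nat_lit 516119) (nat_lit 1) (.e (nat_lit 164150) (nat_lit 152) (.e (nat_lit 974) (nat_lit 81) .nil)))))))) (.g (nat_lit 6) .nil .nil)))))) (.nd (nat_lit 3) (.nd (nat_lit 4) (.nd (nat_lit 5) 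
(.lf (nat_lit 46279) (.g (nat_lit 4542) (.e (nat_lit 1256) (nat_lit 92) (.e (nat_lit 98341) (nat_lit 20) (.e (nat_lit 221210) (nat_lit 22) (.e (nat_lit 196668) (nat_lit 14) (.e (nat_lit 73747) (nat_lit 3) (.e (nat_lit 516119) (nat_lit 1) (.e (nat_lit 164150) (nat_lit 152) (.e (nat_lit 974) (nat_lit 81) .nil)))))))) (.g (nat_lit 7) .nil .nil))) 
(.lf (nat_lit 46311) (.g (nat_lit 2954) (.e (nat_lit 1256) (nat_lit 92) (.e (nat_lit 98342) (nat_lit 20) (.e (nat_lit 221210) (nat_lit 22) (.e (nat_lit 196666) (nat_lit 13) (.e (nat_lit 65569) (nat_lit 3) (.e (nat_lit 98334) (nat_lit 18) (.e (nat_lit 164159) (nat_lit 152) (.e (nat_lit 1016) (nat_lit 81) .nil)))))))) (.g (nat_lit 4) .nil .nil)))) (.nd (nat_lit 5) 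
(.lf (nat_lit 46295) (.g (nat_lit 2006) (.e (nat_lit 1256) (nat_lit 92) (.e (nat_lit 98341) (nat_lit 20) (.e (nat_lit 221212) (nat_lit 22) (.e (nat_lit 196668) (nat_lit 14) (.e (nat_lit 73747) (nat_lit 3) (.e (nat_lit 516117) (nat_lit 1) (.e (nat_lit 164147) (nat_lit 152) (.e (nat_lit 974) (nat_lit 81) .nil)))))))) (.g (nat_lit 4) .nil .nil))) 
(.lf (nat_lit 46327) (.g (nat_lit 2500) (.e (nat_lit 1256) (nat_lit 92) (.e (nat_lit 98342) (nat_lit 20) (.e (nat_lit 221210) (nat_lit 22) (.e (nat_lit 196670) (nat_lit 14) (.e (nat_lit 73746) (nat_lit 3) (.e (nat_lit 516117) (nat_lit 1) (.e (nat_lit 164158) (nat_lit 152) (.e (nat_lit 1016) (nat_lit 81) .nil)))))))) (.g (nat_lit 4) .nil .nil))))) (.nd (nat_lit 4) (.nd (nat_lit 5) 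
(.lf (nat_lit 46287) (.g (nat_lit 2983) (.e (nat_lit 1256) (nat_lit 92) (.e (nat_lit 98341) (nat_lit 20) (.e (nat_lit 221210) (nat_lit 22) (.e (nat_lit 196670) (nat_lit 14) (.e (nat_lit 73746) (nat_lit 3) (.e (nat_lit 516117) (nat_lit 1) (.e (nat_lit 164159) (nat_lit 152) (.e (nat_lit 1016) (nat_lit 81) .nil)))))))) (.g (nat_lit 5) .nil .nil))) 
(.lf (nat_lit 46319) (.g (nat_lit 3105) (.e (nat_lit 1256) (nat_lit 92) (.e (nat_lit 98342) (nat_lit 20) (.e (nat_lit 221210) (nat_lit 22) (.e (nat_lit 196668) (nat_lit 14) (.e (nat_lit 73747) (nat_lit 3) (.e (nat_lit 516117) (nat_lit 1) (.e (nat_lit 164147) (nat_lit 152) (.e (nat_lit 974) (nat_lit 81) .nil)))))))) (.g (nat_lit 5) .nil .nil)))) (.nd (nat_lit 5) 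
(.lf (nat_lit 46303) (.g (nat_lit 2868) (.e (nat_lit 1256) (nat_lit 92) (.e (nat_lit 98341) (nat_lit 20) (.e (nat_lit 221214) (nat_lit 23) (.e (nat_lit 204880) (nat_lit 32) (.e (nat_lit 385066) (nat_lit 26) (.e (nat_lit 532504) (nat_lit 1) (.e (nat_lit 57830) (nat_lit 250) (.e (nat_lit 999) (nat_lit 81) .nil)))))))) (.g (nat_lit 5) .nil .nil))) 
(.lf (nat_lit 46335) (.g (nat_lit 2435) (.e (nat_lit 1256) (nat_lit 92) (.e (nat_lit 98342) (nat_lit 20) (.e (nat_lit 221210) (nat_lit 22) (.e (nat_lit 196670) (nat_lit 14) (.e (nat_lit 73746) (nat_lit 3) (.e (nat_lit 516120) (nat_lit 1) (.e (nat_lit 164158) (nat_lit 152) (.e (nat_lit 1016) (nat_lit 81) .nil)))))))) (.g (nat_lit 4) .nil .nil)))))))))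

noncomputable def tv644 : DT := (.nd (nat_lit 0) (.nd (nat_lit 1) (.nd (nat_lit 2) (.nd (nat_lit 3) (.nd (nat_lit 4) (.nd (nat_lit 5) 
(.lf (nat_lit 46336) (.g (nat_lit 849) (.e (nat_lit 1256) (nat_lit 92) (.e (nat_lit 98342) (nat_lit 20) (.e (nat_lit 221211) (nat_lit 22) .nil))) .nil)) 
(.lf (nat_lit 46368) (.g (nat_lit 2356) (.e (nat_lit 1256) (nat_lit 92) (.e (nat_lit 98342) (nat_lit 20) (.e (nat_lit 221214) (nat_lit 23) (.e (nat_lit 204861) (nat_lit 26) (.e (nat_lit 336012) (nat_lit 2) .nil))))) .nil))) (.nd (nat_lit 5) 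
(.lf (nat_lit 46352) (.g (nat_lit 3483) (.e (nat_lit 1256) (nat_lit 92) (.e (nat_lit 98342) (nat_lit 20) (.e (nat_lit 221212) (nat_lit 22) (.e (nat_lit 196670) (nat_lit 14) (.e (nat_lit 73746) (nat_lit 3) (.e (nat_lit 516117) (nat_lit 1) (.e (nat_lit 164147) (nat_lit 152) (.e (nat_lit 974) (nat_lit 81) .nil)))))))) (.g (nat_lit 7) .nil .nil))) 
(.lf (nat_lit 46384) (.g (nat_lit 1733) (.e (nat_lit 1256) (nat_lit 92) (.e (nat_lit 98349) (nat_lit 24) (.e (nat_lit 409645) (nat_lit 18) (.e (nat_lit 303119) (nat_lit 3) .nil)))) .nil)))) (.nd (nat_lit 4) (.nd (nat_lit 5) 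
(.lf (nat_lit 46344) (.g (nat_lit 1969) (.e (nat_lit 1256) (nat_lit 92) (.e (nat_lit 98342) (nat_lit 20) (.e (nat_lit 221212) (nat_lit 22) (.e (nat_lit 196668) (nat_lit 14) (.e (nat_lit 73746) (nat_lit 3) .nil))))) .nil)) 
(.lf (nat_lit 46376) (.g (nat_lit 1188) (.e (nat_lit 1256) (nat_lit 92) (.e (nat_lit 98342) (nat_lit 20) (.e (nat_lit 221215) (nat_lit 23) (.e (nat_lit 204862) (nat_lit 27) .nil)))) .nil))) (.nd (nat_lit 5) 
(.lf (nat_lit 46360) (.g (nat_lit 2013) (.e (nat_lit 1256) (nat_lit 92) (.e (nat_lit 98342) (nat_lit 20) (.e (nat_lit 221212) (nat_lit 22) (.e (nat_lit 196681) (nat_lit 17) (.e (nat_lit 131096) (nat_lit 3) (.e (nat_lit 98335) (nat_lit 18) (.e (nat_lit 164150) (nat_lit 152) (.e (nat_lit 974) (nat_lit 81) .nil)))))))) (.g (nat_lit 4) .nil .nil))) 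
(.lf (nat_lit 46392) (.g (nat_lit 2295) (.e (nat_lit 1256) (nat_lit 92) (.e (nat_lit 98350) (nat_lit 24) (.e (nat_lit 409602) (nat_lit 0) (.e (nat_lit 5293) (nat_lit 298) (.e (nat_lit 1250) (nat_lit 92) .nil))))) .nil))))) (.nd (nat_lit 3) (.nd (nat_lit 4) (.nd (nat_lit 5) 
(.lf (nat_lit 46340) (.g (nat_lit 1902) (.e (nat_lit 1256) (nat_lit 92) (.e (nat_lit 98342) (nat_lit 20) (.e (nat_lit 221211) (nat_lit 22) (.e (nat_lit 196666) (nat_lit 13) (.e (nat_lit 65571) (nat_lit 3) .nil))))) .nil)) 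
(.lf (nat_lit 46372) (.g (nat_lit 3728) (.e (nat_lit 1256) (nat_lit 92) (.e (nat_lit 98342) (nat_lit 20) (.e (nat_lit 221215) (nat_lit 23) (.e (nat_lit 204861) (nat_lit 26) (.e (nat_lit 336012) (nat_lit 2) (.e (nat_lit 90181) (nat_lit 16) (.e (nat_lit 229453) (nat_lit 44) (.e (nat_lit 688145) (nat_lit 13) .nil)))))))) (.g (nat_lit 6) .nil .nil)))) (.nd (nat_lit 5) 
(.lf (nat_lit 46356) (.g (nat_lit 3256) (.e (nat_lit 1256) (nat_lit 92) (.e (nat_lit 98342) (nat_lit 20) (.e (nat_lit 221212) (nat_lit 22) (.e (nat_lit 196670) (nat_lit 14) (.e (nat_lit 73746) (nat_lit 3) (.e (nat_lit 516120) (nat_lit 1) (.e (nat_lit 164147) (nat_lit 152) (.e (nat_lit 974) (nat_lit 81) .nil)))))))) (.g (nat_lit 6) .nil .nil))) 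
(.lf (nat_lit 46388) (.g (nat_lit 896) (.e (nat_lit 1256) (nat_lit 92) (.e (nat_lit 98350) (nat_lit 24) (.e (nat_lit 409602) (nat_lit 0) .nil))) .nil)))) (.nd (nat_lit 4) (.nd (nat_lit 5) 
(.lf (nat_lit 46348) (.g (nat_lit 1503) (.e (nat_lit 1256) (nat_lit 92) (.e (nat_lit 98342) (nat_lit 20) (.e (nat_lit 221212) (nat_lit 22) (.e (nat_lit 196669) (nat_lit 14) .nil)))) .nil)) 
(.lf (nat_lit 46380) (.g (nat_lit 2305) (.e (nat_lit 1256) (nat_lit 92) (.e (nat_lit 98342) (nat_lit 20) (.e (nat_lit 221215) (nat_lit 23) (.e (nat_lit 204880) (nat_lit 32) (.e (nat_lit 385066) (nat_lit 26) .nil))))) .nil))) (.nd (nat_lit 5) 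
(.lf (nat_lit 46364) (.g (nat_lit 3417) (.e (nat_lit 1256) (nat_lit 92) (.e (nat_lit 98342) (nat_lit 20) (.e (nat_lit 221214) (nat_lit 23) (.e (nat_lit 204852) (nat_lit 26) (.e (nat_lit 336326) (nat_lit 18) (.e (nat_lit 204830) (nat_lit 18) (.e (nat_lit 57830) (nat_lit 250) (.e (nat_lit 999) (nat_lit 81) .nil)))))))) (.g (nat_lit 6) .nil .nil))) 
(.lf (nat_lit 46396) (.g (nat_lit 725) (.e (nat_lit 1256) (nat_lit 92) (.e (nat_lit 98350) (nat_lit 24) (.e (nat_lit 417536) (nat_lit 6) .nil))) .nil)))))) (.nd (nat_lit 2) (.nd (nat_lit 3) (.nd (nat_lit 4) (.nd (nat_lit 5) 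
(.lf (nat_lit 46338) (.g (nat_lit 2262) (.e (nat_lit 1256) (nat_lit 92) (.e (nat_lit 98342) (nat_lit 20) (.e (nat_lit 221211) (nat_lit 22) (.e (nat_lit 196666) (nat_lit 13) (.e (nat_lit 65569) (nat_lit 3) .nil))))) .nil)) 
(.lf (nat_lit 46370) (.g (nat_lit 2507) (.e (nat_lit 1256) (nat_lit 92) (.e (nat_lit 98342) (nat_lit 20) (.e (nat_lit 221215) (nat_lit 23) (.e (nat_lit 204852) (nat_lit 26) (.e (nat_lit 336326) (nat_lit 18) (.e (nat_lit 204830) (nat_lit 18) (.e (nat_lit 57830) (nat_lit 250) (.e (nat_lit 1016) (nat_lit 81) .nil)))))))) (.g (nat_lit 5) .nil .nil)))) (.nd (nat_lit 5) 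
(.lf (nat_lit 46354) (.g (nat_lit 3841) (.e (nat_lit 1256) (nat_lit 92) (.e (nat_lit 98342) (nat_lit 20) (.e (nat_lit 221212) (nat_lit 22) (.e (nat_lit 196670) (nat_lit 14) (.e (nat_lit 73746) (nat_lit 3) (.e (nat_lit 516119) (nat_lit 1) (.e (nat_lit 164149) (nat_lit 152) (.e (nat_lit 974) (nat_lit 81) .nil)))))))) (.g (nat_lit 7) .nil .nil))) 
(.lf (nat_lit 46386) (.g (nat_lit 2498) (.e (nat_lit 1256) (nat_lit 92) (.e (nat_lit 98349) (nat_lit 24) (.e (nat_lit 409645) (nat_lit 18) (.e (nat_lit 303119) (nat_lit 3) (.e (nat_lit 204846) (nat_lit 24) .nil))))) .nil)))) (.nd (nat_lit 4) (.nd (nat_lit 5) 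
(.lf (nat_lit 46346) (.g (nat_lit 1961) (.e (nat_lit 1256) (nat_lit 92) (.e (nat_lit 98342) (nat_lit 20) (.e (nat_lit 221212) (nat_lit 22) (.e (nat_lit 196668) (nat_lit 14) (.e (nat_lit 73747) (nat_lit 3) (.e (nat_lit 516115) (nat_lit 1) (.e (nat_lit 164156) (nat_lit 152) (.e (nat_lit 968) (nat_lit 81) .nil)))))))) (.g (nat_lit 4) .nil .nil))) 
(.lf (nat_lit 46378) (.g (nat_lit 2243) (.e (nat_lit 1256) (nat_lit 92) (.e (nat_lit 98342) (nat_lit 20) (.e (nat_lit 221215) (nat_lit 23) (.e (nat_lit 204863) (nat_lit 27) (.e (nat_lit 344118) (nat_lit 21) .nil))))) .nil))) (.nd (nat_lit 5) 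
(.lf (nat_lit 46362) (.g (nat_lit 2174) (.e (nat_lit 1256) (nat_lit 92) (.e (nat_lit 98342) (nat_lit 20) (.e (nat_lit 221212) (nat_lit 22) (.e (nat_lit 196681) (nat_lit 17) (.e (nat_lit 131098) (nat_lit 3) (.e (nat_lit 98333) (nat_lit 18) (.e (nat_lit 164150) (nat_lit 152) (.e (nat_lit 974) (nat_lit 81) .nil)))))))) (.g (nat_lit 4) .nil .nil))) 
(.lf (nat_lit 46394) (.g (nat_lit 2312) (.e (nat_lit 1256) (nat_lit 92) (.e (nat_lit 98350) (nat_lit 24) (.e (nat_lit 409602) (nat_lit 0) (.e (nat_lit 5394) (nat_lit 301) (.e (nat_lit 57464) (nat_lit 23) (.e (nat_lit 516139) (nat_lit 7) (.e (nat_lit 409604) (nat_lit 0) (.e (nat_lit 5270) (nat_lit 298) .nil)))))))) (.g (nat_lit 4) .nil .nil)))))) (.nd (nat_lit 3) (.nd (nat_lit 4) (.nd (nat_lit 5) 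
(.lf (nat_lit 46342) (.g (nat_lit 1972) (.e (nat_lit 1256) (nat_lit 92) (.e (nat_lit 98342) (nat_lit 20) (.e (nat_lit 221211) (nat_lit 22) (.e (nat_lit 196670) (nat_lit 14) (.e (nat_lit 73746) (nat_lit 3) .nil))))) .nil)) 
(.lf (nat_lit 46374) (.g (nat_lit 2277) (.e (nat_lit 1256) (nat_lit 92) (.e (nat_lit 98342) (nat_lit 20) (.e (nat_lit 221215) (nat_lit 23) (.e (nat_lit 204861) (nat_lit 26) (.e (nat_lit 336021) (nat_lit 3) .nil))))) .nil))) (.nd (nat_lit 5) 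
(.lf (nat_lit 46358) (.g (nat_lit 1937) (.e (nat_lit 1256) (nat_lit 92) (.e (nat_lit 98342) (nat_lit 20) (.e (nat_lit 221212) (nat_lit 22) (.e (nat_lit 196681) (nat_lit 17) (.e (nat_lit 131096) (nat_lit 3) .nil))))) .nil)) 
(.lf (nat_lit 46390) (.g (nat_lit 3899) (.e (nat_lit 1256) (nat_lit 92) (.e (nat_lit 98350) (nat_lit 24) (.e (nat_lit 409602) (nat_lit 0) (.e (nat_lit 5293) (nat_lit 298) (.e (nat_lit 1232) (nat_lit 91) (.e (nat_lit 90172) (nat_lit 14) (.e (nat_lit 188160) (nat_lit 32) .nil))))))) (.g (nat_lit 5) .nil .nil))))) (.nd (nat_lit 4) (.nd (nat_lit 5) 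
(.lf (nat_lit 46350) (.g (nat_lit 1592) (.e (nat_lit 1256) (nat_lit 92) (.e (nat_lit 98342) (nat_lit 20) (.e (nat_lit 221212) (nat_lit 22) (.e (nat_lit 196670) (nat_lit 14) (.e (nat_lit 73746) (nat_lit 3) .nil))))) .nil)) 
(.lf (nat_lit 46382) (.g (nat_lit 3207) (.e (nat_lit 1256) (nat_lit 92) (.e (nat_lit 98342) (nat_lit 20) (.e (nat_lit 221215) (nat_lit 23) (.e (nat_lit 204880) (nat_lit 32) (.e (nat_lit 385066) (nat_lit 26) (.e (nat_lit 532504) (nat_lit 1) (.e (nat_lit 57830) (nat_lit 250) (.e (nat_lit 999) (nat_lit 81) .nil)))))))) (.g (nat_lit 5) .nil .nil)))) (.nd (nat_lit 5) 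
(.lf (nat_lit 46366) (.g (nat_lit 3269) (.e (nat_lit 1256) (nat_lit 92) (.e (nat_lit 98342) (nat_lit 20) (.e (nat_lit 221214) (nat_lit 23) (.e (nat_lit 204852) (nat_lit 26) (.e (nat_lit 336326) (nat_lit 18) (.e (nat_lit 204831) (nat_lit 18) (.e (nat_lit 57830) (nat_lit 250) (.e (nat_lit 999) (nat_lit 81) .nil)))))))) (.g (nat_lit 6) .nil .nil))) 
(.lf (nat_lit 46398) (.g (nat_lit 2027) (.e (nat_lit 1256) (nat_lit 92) (.e (nat_lit 98350) (nat_lit 24) (.e (nat_lit 417536) (nat_lit 6) (.e (nat_lit 286733) (nat_lit 2) (.e (nat_lit 90174) (nat_lit 14) (.e (nat_lit 188160) (nat_lit 32) .nil)))))) (.g (nat_lit 4) .nil .nil)))))))) (.nd (nat_lit 1) (.nd (nat_lit 2) (.nd (nat_lit 3) (.nd (nat_lit 4) (.nd (nat_lit 5) 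
(.lf (nat_lit 46337) (.g (nat_lit 2643) (.e (nat_lit 1256) (nat_lit 92) (.e (nat_lit 98342) (nat_lit 20) (.e (nat_lit 221211) (nat_lit 22) (.e (nat_lit 196666) (nat_lit 13) (.e (nat_lit 65566) (nat_lit 2) .nil))))) .nil)) 
(.lf (nat_lit 46369) (.g (nat_lit 2184) (.e (nat_lit 1256) (nat_lit 92) (.e (nat_lit 98342) (nat_lit 20) (.e (nat_lit 221215) (nat_lit 23) (.e (nat_lit 204852) (nat_lit 26) (.e (nat_lit 336324) (nat_lit 18) (.e (nat_lit 204830) (nat_lit 18) (.e (nat_lit 57830) (nat_lit 250) (.e (nat_lit 999) (nat_lit 81) .nil)))))))) (.g (nat_lit 4) .nil .nil)))) (.nd (nat_lit 5) 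
(.lf (nat_lit 46353) (.g (nat_lit 2396) (.e (nat_lit 1256) (nat_lit 92) (.e (nat_lit 98342) (nat_lit 20) (.e (nat_lit 221212) (nat_lit 22) (.e (nat_lit 196670) (nat_lit 14) (.e (nat_lit 73746) (nat_lit 3) (.e (nat_lit 516117) (nat_lit 1) (.e (nat_lit 164147) (nat_lit 152) (.e (nat_lit 999) (nat_lit 81) .nil)))))))) (.g (nat_lit 5) .nil .nil))) 
(.lf (nat_lit 46385) (.g (nat_lit 2854) (.e (nat_lit 1256) (nat_lit 92) (.e (nat_lit 98349) (nat_lit 24) (.e (nat_lit 409645) (nat_lit 18) (.e (nat_lit 303119) (nat_lit 3) (.e (nat_lit 204821) (nat_lit 17) .nil))))) .nil)))) (.nd (nat_lit 4) (.nd (nat_lit 5) 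
(.lf (nat_lit 46345) (.g (nat_lit 1740) (.e (nat_lit 1256) (nat_lit 92) (.e (nat_lit 98342) (nat_lit 20) (.e (nat_lit 221212) (nat_lit 22) (.e (nat_lit 196668) (nat_lit 14) (.e (nat_lit 73747) (nat_lit 3) .nil))))) .nil)) 
(.lf (nat_lit 46377) (.g (nat_lit 1889) (.e (nat_lit 1256) (nat_lit 92) (.e (nat_lit 98342) (nat_lit 20) (.e (nat_lit 221215) (nat_lit 23) (.e (nat_lit 204862) (nat_lit 27) (.e (nat_lit 344118) (nat_lit 21) .nil))))) .nil))) (.nd (nat_lit 5) 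
(.lf (nat_lit 46361) (.g (nat_lit 1968) (.e (nat_lit 1256) (nat_lit 92) (.e (nat_lit 98342) (nat_lit 20) (.e (nat_lit 221212) (nat_lit 22) (.e (nat_lit 196681) (nat_lit 17) (.e (nat_lit 131098) (nat_lit 3) .nil))))) .nil)) 
(.lf (nat_lit 46393) (.g (nat_lit 2714) (.e (nat_lit 1256) (nat_lit 92) (.e (nat_lit 98350) (nat_lit 24) (.e (nat_lit 409602) (nat_lit 0) (.e (nat_lit 5293) (nat_lit 298) (.e (nat_lit 1250) (nat_lit 92) (.e (nat_lit 98350) (nat_lit 24) (.e (nat_lit 409602) (nat_lit 0) (.e (nat_lit 5245) (nat_lit 298) .nil)))))))) (.g (nat_lit 4) .nil .nil)))))) (.nd (nat_lit 3) (.nd (nat_lit 4) (.nd (nat_lit 5) 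
(.lf (nat_lit 46341) (.g (nat_lit 2087) (.e (nat_lit 1256) (nat_lit 92) (.e (nat_lit 98342) (nat_lit 20) (.e (nat_lit 221211) (nat_lit 22) (.e (nat_lit 196666) (nat_lit 13) (.e (nat_lit 65571) (nat_lit 3) (.e (nat_lit 98334) (nat_lit 18) (.e (nat_lit 164147) (nat_lit 152) (.e (nat_lit 974) (nat_lit 81) .nil)))))))) (.g (nat_lit 4) .nil .nil))) 
(.lf (nat_lit 46373) (.g (nat_lit 2510) (.e (nat_lit 1256) (nat_lit 92) (.e (nat_lit 98342) (nat_lit 20) (.e (nat_lit 221215) (nat_lit 23) (.e (nat_lit 204861) (nat_lit 26) (.e (nat_lit 336012) (nat_lit 2) (.e (nat_lit 90181) (nat_lit 16) (.e (nat_lit 229453) (nat_lit 44) (.e (nat_lit 688152) (nat_lit 13) .nil)))))))) (.g (nat_lit 4) .nil .nil)))) (.nd (nat_lit 5) 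
(.lf (nat_lit 46357) (.g (nat_lit 1281) (.e (nat_lit 1256) (nat_lit 92) (.e (nat_lit 98342) (nat_lit 20) (.e (nat_lit 221212) (nat_lit 22) (.e (nat_lit 196681) (nat_lit 17) .nil)))) .nil)) 
(.lf (nat_lit 46389) (.g (nat_lit 2626) (.e (nat_lit 1256) (nat_lit 92) (.e (nat_lit 98350) (nat_lit 24) (.e (nat_lit 409602) (nat_lit 0) (.e (nat_lit 5293) (nat_lit 298) (.e (nat_lit 1232) (nat_lit 91) .nil))))) .nil)))) (.nd (nat_lit 4) (.nd (nat_lit 5) 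
(.lf (nat_lit 46349) (.g (nat_lit 1945) (.e (nat_lit 1256) (nat_lit 92) (.e (nat_lit 98342) (nat_lit 20) (.e (nat_lit 221212) (nat_lit 22) (.e (nat_lit 196669) (nat_lit 14) (.e (nat_lit 73747) (nat_lit 3) (.e (nat_lit 516119) (nat_lit 1) (.e (nat_lit 164149) (nat_lit 152) (.e (nat_lit 974) (nat_lit 81) .nil)))))))) (.g (nat_lit 4) .nil .nil))) 
(.lf (nat_lit 46381) (.g (nat_lit 3130) (.e (nat_lit 1256) (nat_lit 92) (.e (nat_lit 98342) (nat_lit 20) (.e (nat_lit 221215) (nat_lit 23) (.e (nat_lit 204880) (nat_lit 32) (.e (nat_lit 385066) (nat_lit 26) (.e (nat_lit 532501) (nat_lit 1) (.e (nat_lit 57830) (nat_lit 250) (.e (nat_lit 999) (nat_lit 81) .nil)))))))) (.g (nat_lit 5) .nil .nil)))) (.nd (nat_lit 5) 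
(.lf (nat_lit 46365) (.g (nat_lit 2330) (.e (nat_lit 1256) (nat_lit 92) (.e (nat_lit 98342) (nat_lit 20) (.e (nat_lit 221214) (nat_lit 23) (.e (nat_lit 204852) (nat_lit 26) (.e (nat_lit 336326) (nat_lit 18) (.e (nat_lit 204830) (nat_lit 18) (.e (nat_lit 57830) (nat_lit 250) (.e (nat_lit 1016) (nat_lit 81) .nil)))))))) (.g (nat_lit 4) .nil .nil))) 
(.lf (nat_lit 46397) (.g (nat_lit 2441) (.e (nat_lit 1256) (nat_lit 92) (.e (nat_lit 98350) (nat_lit 24) (.e (nat_lit 417536) (nat_lit 6) (.e (nat_lit 286733) (nat_lit 2) (.e (nat_lit 90173) (nat_lit 14) (.e (nat_lit 188160) (nat_lit 32) .nil)))))) (.g (nat_lit 5) .nil .nil))))))) (.nd (nat_lit 2) (.nd (nat_lit 3) (.nd (nat_lit 4) (.nd (nat_lit 5) 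
(.lf (nat_lit 46339) (.g (nat_lit 2913) (.e (nat_lit 1256) (nat_lit 92) (.e (nat_lit 98342) (nat_lit 20) (.e (nat_lit 221211) (nat_lit 22) (.e (nat_lit 196666) (nat_lit 13) (.e (nat_lit 65569) (nat_lit 3) (.e (nat_lit 98334) (nat_lit 18) (.e (nat_lit 164147) (nat_lit 152) (.e (nat_lit 974) (nat_lit 81) .nil)))))))) (.g (nat_lit 5) .nil .nil))) 
(.lf (nat_lit 46371) (.g (nat_lit 2315) (.e (nat_lit 1256) (nat_lit 92) (.e (nat_lit 98342) (nat_lit 20) (.e (nat_lit 221215) (nat_lit 23) (.e (nat_lit 204861) (nat_lit 26) (.e (nat_lit 336011) (nat_lit 2) .nil))))) .nil))) (.nd (nat_lit 5) 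
(.lf (nat_lit 46355) (.g (nat_lit 4123) (.e (nat_lit 1256) (nat_lit 92) (.e (nat_lit 98342) (nat_lit 20) (.e (nat_lit 221212) (nat_lit 22) (.e (nat_lit 196670) (nat_lit 14) (.e (nat_lit 73746) (nat_lit 3) (.e (nat_lit 516119) (nat_lit 1) (.e (nat_lit 164150) (nat_lit 152) (.e (nat_lit 974) (nat_lit 81) .nil)))))))) (.g (nat_lit 7) .nil .nil))) 
(.lf (nat_lit 46387) (.g (nat_lit 2193) (.e (nat_lit 1256) (nat_lit 92) (.e (nat_lit 98349) (nat_lit 24) (.e (nat_lit 409646) (nat_lit 18) (.e (nat_lit 303119) (nat_lit 3) (.e (nat_lit 204846) (nat_lit 24) .nil))))) .nil)))) (.nd (nat_lit 4) (.nd (nat_lit 5) 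
(.lf (nat_lit 46347) (.g (nat_lit 4215) (.e (nat_lit 1256) (nat_lit 92) (.e (nat_lit 98342) (nat_lit 20) (.e (nat_lit 221212) (nat_lit 22) (.e (nat_lit 196668) (nat_lit 14) (.e (nat_lit 73747) (nat_lit 3) (.e (nat_lit 516119) (nat_lit 1) (.e (nat_lit 164150) (nat_lit 152) (.e (nat_lit 974) (nat_lit 81) .nil)))))))) (.g (nat_lit 7) .nil .nil))) 
(.lf (nat_lit 46379) (.g (nat_lit 2271) (.e (nat_lit 1256) (nat_lit 92) (.e (nat_lit 98342) (nat_lit 20) (.e (nat_lit 221215) (nat_lit 23) (.e (nat_lit 204863) (nat_lit 27) (.e (nat_lit 344120) (nat_lit 21) .nil))))) .nil))) (.nd (nat_lit 5) 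
(.lf (nat_lit 46363) (.g (nat_lit 2180) (.e (nat_lit 1256) (nat_lit 92) (.e (nat_lit 98342) (nat_lit 20) (.e (nat_lit 221214) (nat_lit 23) (.e (nat_lit 204852) (nat_lit 26) (.e (nat_lit 336324) (nat_lit 18) (.e (nat_lit 204830) (nat_lit 18) (.e (nat_lit 57830) (nat_lit 250) (.e (nat_lit 999) (nat_lit 81) .nil)))))))) (.g (nat_lit 4) .nil .nil))) 
(.lf (nat_lit 46395) (.g (nat_lit 994) (.e (nat_lit 1256) (nat_lit 92) (.e (nat_lit 98350) (nat_lit 24) (.e (nat_lit 409604) (nat_lit 0) .nil))) .nil))))) (.nd (nat_lit 3) (.nd (nat_lit 4) (.nd (nat_lit 5) 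
(.lf (nat_lit 46343) (.g (nat_lit 447) (.e (nat_lit 1256) (nat_lit 92) (.e (nat_lit 98342) (nat_lit 20) (.e (nat_lit 221212) (nat_lit 22) .nil))) .nil)) 
(.lf (nat_lit 46375) (.g (nat_lit 2363) (.e (nat_lit 1256) (nat_lit 92) (.e (nat_lit 98342) (nat_lit 20) (.e (nat_lit 221215) (nat_lit 23) (.e (nat_lit 204861) (nat_lit 26) (.e (nat_lit 336021) (nat_lit 3) (.e (nat_lit 98333) (nat_lit 18) (.e (nat_lit 164151) (nat_lit 152) (.e (nat_lit 974) (nat_lit 81) .nil)))))))) (.g (nat_lit 4) .nil .nil)))) (.nd (nat_lit 5) 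
(.lf (nat_lit 46359) (.g (nat_lit 1954) (.e (nat_lit 1256) (nat_lit 92) (.e (nat_lit 98342) (nat_lit 20) (.e (nat_lit 221212) (nat_lit 22) (.e (nat_lit 196681) (nat_lit 17) (.e (nat_lit 131096) (nat_lit 3) (.e (nat_lit 98333) (nat_lit 18) (.e (nat_lit 164150) (nat_lit 152) (.e (nat_lit 974) (nat_lit 81) .nil)))))))) (.g (nat_lit 4) .nil .nil))) 
(.lf (nat_lit 46391) (.g (nat_lit 4206) (.e (nat_lit 1256) (nat_lit 92) (.e (nat_lit 98350) (nat_lit 24) (.e (nat_lit 409602) (nat_lit 0) (.e (nat_lit 5293) (nat_lit 298) (.e (nat_lit 1232) (nat_lit 91) (.e (nat_lit 90173) (nat_lit 14) (.e (nat_lit 188160) (nat_lit 32) .nil))))))) (.g (nat_lit 6) .nil .nil))))) (.nd (nat_lit 4) (.nd (nat_lit 5) 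
(.lf (nat_lit 46351) (.g (nat_lit 3487) (.e (nat_lit 1256) (nat_lit 92) (.e (nat_lit 98342) (nat_lit 20) (.e (nat_lit 221212) (nat_lit 22) (.e (nat_lit 196670) (nat_lit 14) (.e (nat_lit 73746) (nat_lit 3) (.e (nat_lit 516115) (nat_lit 1) (.e (nat_lit 164151) (nat_lit 152) (.e (nat_lit 974) (nat_lit 81) .nil)))))))) (.g (nat_lit 6) .nil .nil))) 
(.lf (nat_lit 46383) (.g (nat_lit 2870) (.e (nat_lit 1256) (nat_lit 92) (.e (nat_lit 98342) (nat_lit 20) (.e (nat_lit 221215) (nat_lit 23) (.e (nat_lit 204880) (nat_lit 32) (.e (nat_lit 385068) (nat_lit 26) (.e (nat_lit 532501) (nat_lit 1) (.e (nat_lit 57830) (nat_lit 250) (.e (nat_lit 1016) (nat_lit 81) .nil)))))))) (.g (nat_lit 4) .nil .nil)))) (.nd (nat_lit 5) 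
(.lf (nat_lit 46367) (.g (nat_lit 2198) (.e (nat_lit 1256) (nat_lit 92) (.e (nat_lit 98342) (nat_lit 20) (.e (nat_lit 221214) (nat_lit 23) (.e (nat_lit 204852) (nat_lit 26) (.e (nat_lit 336326) (nat_lit 18) (.e (nat_lit 204831) (nat_lit 18) (.e (nat_lit 57830) (nat_lit 250) (.e (nat_lit 1016) (nat_lit 81) .nil)))))))) (.g (nat_lit 4) .nil .nil))) 
(.lf (nat_lit 46399) (.g (nat_lit 1259) (.e (nat_lit 1256) (nat_lit 92) (.e (nat_lit 98350) (nat_lit 24) (.e (nat_lit 409623) (nat_lit 10) (.e (nat_lit 5664) (nat_lit 312) .nil)))) .nil))))))))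

noncomputable def tv645 : DT := (.nd (nat_lit 0) (.nd (nat_lit 1) (.nd (nat_lit 2) (.nd (nat_lit 3) (.nd (nat_lit 4) (.nd (nat_lit 5) 
(.lf (nat_lit 46400) (.g (nat_lit 1763) (.e (nat_lit 1256) (nat_lit 92) (.e (nat_lit 98350) (nat_lit 24) (.e (nat_lit 409623) (nat_lit 10) (.e (nat_lit 5664) (nat_lit 312) (.e (nat_lit 2679) (nat_lit 168) .nil))))) .nil)) 
(.lf (nat_lit 46432) (.g (nat_lit 3077) (.e (nat_lit 1256) (nat_lit 92) (.e (nat_lit 98350) (nat_lit 24) (.e (nat_lit 409646) (nat_lit 18) (.e (nat_lit 303119) (nat_lit 3) (.e (nat_lit 204862) (nat_lit 27) .nil))))) .nil))) (.nd (nat_lit 5) 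
(.lf (nat_lit 46416) (.g (nat_lit 2835) (.e (nat_lit 1256) (nat_lit 92) (.e (nat_lit 98350) (nat_lit 24) (.e (nat_lit 409645) (nat_lit 18) (.e (nat_lit 303112) (nat_lit 0) (.e (nat_lit 3252) (nat_lit 197) .nil))))) .nil)) 
(.lf (nat_lit 46448) (.g (nat_lit 2650) (.e (nat_lit 1256) (nat_lit 92) (.e (nat_lit 98350) (nat_lit 24) (.e (nat_lit 409648) (nat_lit 18) (.e (nat_lit 303116) (nat_lit 2) (.e (nat_lit 196668) (nat_lit 14) (.e (nat_lit 81664) (nat_lit 40) .nil)))))) (.g (nat_lit 4) .nil .nil))))) (.nd (nat_lit 4) (.nd (nat_lit 5) 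
(.lf (nat_lit 46408) (.g (nat_lit 3742) (.e (nat_lit 1256) (nat_lit 92) (.e (nat_lit 98350) (nat_lit 24) (.e (nat_lit 409643) (nat_lit 18) (.e (nat_lit 303119) (nat_lit 3) (.e (nat_lit 204821) (nat_lit 17) (.e (nat_lit 6238) (nat_lit 336) (.e (nat_lit 229643) (nat_lit 232) .nil))))))) (.g (nat_lit 6) .nil .nil))) 
(.lf (nat_lit 46440) (.g (nat_lit 1483) (.e (nat_lit 1256) (nat_lit 92) (.e (nat_lit 98350) (nat_lit 24) (.e (nat_lit 409647) (nat_lit 18) (.e (nat_lit 303118) (nat_lit 3) .nil)))) .nil))) (.nd (nat_lit 5) 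
(.lf (nat_lit 46424) (.g (nat_lit 3103) (.e (nat_lit 1256) (nat_lit 92) (.e (nat_lit 98350) (nat_lit 24) (.e (nat_lit 409645) (nat_lit 18) (.e (nat_lit 303119) (nat_lit 3) (.e (nat_lit 204864) (nat_lit 27) (.e (nat_lit 352000) (nat_lit 8) .nil)))))) (.g (nat_lit 4) .nil .nil))) 
(.lf (nat_lit 46456) (.g (nat_lit 3123) (.e (nat_lit 1256) (nat_lit 92) (.e (nat_lit 98350) (nat_lit 24) (.e (nat_lit 409648) (nat_lit 18) (.e (nat_lit 303118) (nat_lit 3) (.e (nat_lit 204862) (nat_lit 27) (.e (nat_lit 352000) (nat_lit 8) .nil)))))) (.g (nat_lit 5) .nil .nil)))))) (.nd (nat_lit 3) (.nd (nat_lit 4) (.nd (nat_lit 5) 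
(.lf (nat_lit 46404) (.g (nat_lit 1813) (.e (nat_lit 1256) (nat_lit 92) (.e (nat_lit 98350) (nat_lit 24) (.e (nat_lit 409641) (nat_lit 17) (.e (nat_lit 294930) (nat_lit 3) .nil)))) .nil)) 
(.lf (nat_lit 46436) (.g (nat_lit 3637) (.e (nat_lit 1256) (nat_lit 92) (.e (nat_lit 98350) (nat_lit 24) (.e (nat_lit 409647) (nat_lit 18) (.e (nat_lit 303117) (nat_lit 2) (.e (nat_lit 196661) (nat_lit 12) (.e (nat_lit 57723) (nat_lit 180) (.e (nat_lit 229643) (nat_lit 232) .nil))))))) (.g (nat_lit 5) .nil .nil)))) (.nd (nat_lit 5) 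
(.lf (nat_lit 46420) (.g (nat_lit 5036) (.e (nat_lit 1256) (nat_lit 92) (.e (nat_lit 98350) (nat_lit 24) (.e (nat_lit 409645) (nat_lit 18) (.e (nat_lit 303119) (nat_lit 3) (.e (nat_lit 204821) (nat_lit 17) (.e (nat_lit 6238) (nat_lit 336) (.e (nat_lit 229643) (nat_lit 232) .nil))))))) (.g (nat_lit 7) .nil .nil))) 
(.lf (nat_lit 46452) (.g (nat_lit 2927) (.e (nat_lit 1256) (nat_lit 92) (.e (nat_lit 98350) (nat_lit 24) (.e (nat_lit 409648) (nat_lit 18) (.e (nat_lit 303117) (nat_lit 2) (.e (nat_lit 196667) (nat_lit 14) .nil))))) .nil)))) (.nd (nat_lit 4) (.nd (nat_lit 5) 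
(.lf (nat_lit 46412) (.g (nat_lit 3798) (.e (nat_lit 1256) (nat_lit 92) (.e (nat_lit 98350) (nat_lit 24) (.e (nat_lit 409644) (nat_lit 18) (.e (nat_lit 303119) (nat_lit 3) (.e (nat_lit 204821) (nat_lit 17) (.e (nat_lit 6238) (nat_lit 336) (.e (nat_lit 229643) (nat_lit 232) .nil))))))) (.g (nat_lit 6) .nil .nil))) 
(.lf (nat_lit 46444) (.g (nat_lit 2504) (.e (nat_lit 1256) (nat_lit 92) (.e (nat_lit 98350) (nat_lit 24) (.e (nat_lit 409647) (nat_lit 18) (.e (nat_lit 303119) (nat_lit 3) (.e (nat_lit 204863) (nat_lit 27) (.e (nat_lit 352000) (nat_lit 8) .nil)))))) (.g (nat_lit 4) .nil .nil)))) (.nd (nat_lit 5) 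
(.lf (nat_lit 46428) (.g (nat_lit 2894) (.e (nat_lit 1256) (nat_lit 92) (.e (nat_lit 98350) (nat_lit 24) (.e (nat_lit 409646) (nat_lit 18) (.e (nat_lit 303119) (nat_lit 3) (.e (nat_lit 204821) (nat_lit 17) .nil))))) .nil)) 
(.lf (nat_lit 46460) (.g (nat_lit 2745) (.e (nat_lit 1256) (nat_lit 92) (.e (nat_lit 98350) (nat_lit 24) (.e (nat_lit 409648) (nat_lit 18) (.e (nat_lit 303119) (nat_lit 3) (.e (nat_lit 204862) (nat_lit 27) (.e (nat_lit 352000) (nat_lit 8) .nil)))))) (.g (nat_lit 4) .nil .nil))))))) (.nd (nat_lit 2) (.nd (nat_lit 3) (.nd (nat_lit 4) (.nd (nat_lit 5) 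
(.lf (nat_lit 46402) (.g (nat_lit 2218) (.e (nat_lit 1256) (nat_lit 92) (.e (nat_lit 98350) (nat_lit 24) (.e (nat_lit 409640) (nat_lit 17) (.e (nat_lit 294928) (nat_lit 2) (.e (nat_lit 90165) (nat_lit 12) (.e (nat_lit 164219) (nat_lit 180) (.e (nat_lit 229643) (nat_lit 232) .nil))))))) (.g (nat_lit 4) .nil .nil))) 
(.lf (nat_lit 46434) (.g (nat_lit 3487) (.e (nat_lit 1256) (nat_lit 92) (.e (nat_lit 98350) (nat_lit 24) (.e (nat_lit 409646) (nat_lit 18) (.e (nat_lit 303119) (nat_lit 3) (.e (nat_lit 204864) (nat_lit 27) (.e (nat_lit 352000) (nat_lit 8) .nil)))))) (.g (nat_lit 5) .nil .nil)))) (.nd (nat_lit 5) 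
(.lf (nat_lit 46418) (.g (nat_lit 1504) (.e (nat_lit 1256) (nat_lit 92) (.e (nat_lit 98350) (nat_lit 24) (.e (nat_lit 409645) (nat_lit 18) (.e (nat_lit 303119) (nat_lit 3) .nil)))) .nil)) 
(.lf (nat_lit 46450) (.g (nat_lit 1322) (.e (nat_lit 1256) (nat_lit 92) (.e (nat_lit 98350) (nat_lit 24) (.e (nat_lit 409648) (nat_lit 18) (.e (nat_lit 303117) (nat_lit 2) .nil)))) .nil)))) (.nd (nat_lit 4) (.nd (nat_lit 5) 
(.lf (nat_lit 46410) (.g (nat_lit 2416) (.e (nat_lit 1256) (nat_lit 92) (.e (nat_lit 98350) (nat_lit 24) (.e (nat_lit 409644) (nat_lit 18) (.e (nat_lit 303117) (nat_lit 2) (.e (nat_lit 196670) (nat_lit 14) .nil))))) .nil)) 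
(.lf (nat_lit 46442) (.g (nat_lit 3798) (.e (nat_lit 1256) (nat_lit 92) (.e (nat_lit 98350) (nat_lit 24) (.e (nat_lit 409647) (nat_lit 18) (.e (nat_lit 303119) (nat_lit 3) (.e (nat_lit 204821) (nat_lit 17) (.e (nat_lit 6238) (nat_lit 336) (.e (nat_lit 229643) (nat_lit 232) .nil))))))) (.g (nat_lit 6) .nil .nil)))) (.nd (nat_lit 5) 
(.lf (nat_lit 46426) (.g (nat_lit 2363) (.e (nat_lit 1256) (nat_lit 92) (.e (nat_lit 98350) (nat_lit 24) (.e (nat_lit 409646) (nat_lit 18) (.e (nat_lit 303112) (nat_lit 0) (.e (nat_lit 3252) (nat_lit 197) .nil))))) .nil)) 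
(.lf (nat_lit 46458) (.g (nat_lit 5036) (.e (nat_lit 1256) (nat_lit 92) (.e (nat_lit 98350) (nat_lit 24) (.e (nat_lit 409648) (nat_lit 18) (.e (nat_lit 303119) (nat_lit 3) (.e (nat_lit 204821) (nat_lit 17) (.e (nat_lit 6238) (nat_lit 336) (.e (nat_lit 229643) (nat_lit 232) .nil))))))) (.g (nat_lit 7) .nil .nil)))))) (.nd (nat_lit 3) (.nd (nat_lit 4) (.nd (nat_lit 5) 
(.lf (nat_lit 46406) (.g (nat_lit 4352) (.e (nat_lit 1256) (nat_lit 92) (.e (nat_lit 98350) (nat_lit 24) (.e (nat_lit 409641) (nat_lit 17) (.e (nat_lit 294931) (nat_lit 3) (.e (nat_lit 98350) (nat_lit 24) (.e (nat_lit 409616) (nat_lit 10) (.e (nat_lit 7936) (nat_lit 298) .nil))))))) (.g (nat_lit 6) .nil .nil))) 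
(.lf (nat_lit 46438) (.g (nat_lit 2554) (.e (nat_lit 1256) (nat_lit 92) (.e (nat_lit 98350) (nat_lit 24) (.e (nat_lit 409647) (nat_lit 18) (.e (nat_lit 303117) (nat_lit 2) (.e (nat_lit 196669) (nat_lit 14) .nil))))) .nil))) (.nd (nat_lit 5) 
(.lf (nat_lit 46422) (.g (nat_lit 3009) (.e (nat_lit 1256) (nat_lit 92) (.e (nat_lit 98350) (nat_lit 24) (.e (nat_lit 409645) (nat_lit 18) (.e (nat_lit 303119) (nat_lit 3) (.e (nat_lit 204862) (nat_lit 27) .nil))))) .nil)) 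
(.lf (nat_lit 46454) (.g (nat_lit 2854) (.e (nat_lit 1256) (nat_lit 92) (.e (nat_lit 98350) (nat_lit 24) (.e (nat_lit 409648) (nat_lit 18) (.e (nat_lit 303118) (nat_lit 3) (.e (nat_lit 204821) (nat_lit 17) .nil))))) .nil)))) (.nd (nat_lit 4) (.nd (nat_lit 5) 
(.lf (nat_lit 46414) (.g (nat_lit 3979) (.e (nat_lit 1256) (nat_lit 92) (.e (nat_lit 98350) (nat_lit 24) (.e (nat_lit 409644) (nat_lit 18) (.e (nat_lit 303119) (nat_lit 3) (.e (nat_lit 204846) (nat_lit 24) (.e (nat_lit 319491) (nat_lit 0) (.e (nat_lit 5270) (nat_lit 298) .nil))))))) (.g (nat_lit 5) .nil .nil))) 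
(.lf (nat_lit 46446) (.g (nat_lit 1722) (.e (nat_lit 1256) (nat_lit 92) (.e (nat_lit 98350) (nat_lit 24) (.e (nat_lit 409648) (nat_lit 18) (.e (nat_lit 303109) (nat_lit 0) .nil)))) .nil))) (.nd (nat_lit 5) 
(.lf (nat_lit 46430) (.g (nat_lit 4823) (.e (nat_lit 1256) (nat_lit 92) (.e (nat_lit 98350) (nat_lit 24) (.e (nat_lit 409646) (nat_lit 18) (.e (nat_lit 303119) (nat_lit 3) (.e (nat_lit 204846) (nat_lit 24) (.e (nat_lit 319490) (nat_lit 0) (.e (nat_lit 5270) (nat_lit 298) .nil))))))) (.g (nat_lit 0) .nil .nil))) 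
(.lf (nat_lit 46462) (.g (nat_lit 1419) (.e (nat_lit 1256) (nat_lit 92) (.e (nat_lit 98350) (nat_lit 24) (.e (nat_lit 409649) (nat_lit 18) (.e (nat_lit 303111) (nat_lit 0) (.e (nat_lit 3255) (nat_lit 197) .nil))))) .nil))))))) (.nd (nat_lit 1) (.nd (nat_lit 2) (.nd (nat_lit 3) (.nd (nat_lit 4) (.nd (nat_lit 5) 
(.lf (nat_lit 46401) (.g (nat_lit 790) (.e (nat_lit 1256) (nat_lit 92) (.e (nat_lit 98350) (nat_lit 24) (.e (nat_lit 409640) (nat_lit 17) .nil))) .nil)) 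
(.lf (nat_lit 46433) (.g (nat_lit 4089) (.e (nat_lit 1256) (nat_lit 92) (.e (nat_lit 98350) (nat_lit 24) (.e (nat_lit 409646) (nat_lit 18) (.e (nat_lit 303119) (nat_lit 3) (.e (nat_lit 204863) (nat_lit 27) (.e (nat_lit 352000) (nat_lit 8) .nil)))))) (.g (nat_lit 5) .nil .nil)))) (.nd (nat_lit 5) 
(.lf (nat_lit 46417) (.g (nat_lit 1826) (.e (nat_lit 1256) (nat_lit 92) (.e (nat_lit 98350) (nat_lit 24) (.e (nat_lit 409645) (nat_lit 18) (.e (nat_lit 303117) (nat_lit 2) .nil)))) .nil)) 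
(.lf (nat_lit 46449) (.g (nat_lit 2481) (.e (nat_lit 1256) (nat_lit 92) (.e (nat_lit 98350) (nat_lit 24) (.e (nat_lit 409648) (nat_lit 18) (.e (nat_lit 303116) (nat_lit 2) (.e (nat_lit 196669) (nat_lit 14) .nil))))) .nil)))) (.nd (nat_lit 4) (.nd (nat_lit 5) 
(.lf (nat_lit 46409) (.g (nat_lit 3438) (.e (nat_lit 1256) (nat_lit 92) (.e (nat_lit 98350) (nat_lit 24) (.e (nat_lit 409643) (nat_lit 18) (.e (nat_lit 303119) (nat_lit 3) (.e (nat_lit 204846) (nat_lit 24) (.e (nat_lit 319491) (nat_lit 0) (.e (nat_lit 5270) (nat_lit 298) .nil))))))) (.g (nat_lit 5) .nil .nil))) 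
(.lf (nat_lit 46441) (.g (nat_lit 2221) (.e (nat_lit 1256) (nat_lit 92) (.e (nat_lit 98350) (nat_lit 24) (.e (nat_lit 409647) (nat_lit 18) (.e (nat_lit 303118) (nat_lit 3) (.e (nat_lit 204846) (nat_lit 24) .nil))))) .nil))) (.nd (nat_lit 5) 
(.lf (nat_lit 46425) (.g (nat_lit 607) (.e (nat_lit 1256) (nat_lit 92) (.e (nat_lit 98350) (nat_lit 24) (.e (nat_lit 409646) (nat_lit 18) .nil))) .nil)) 
(.lf (nat_lit 46457) (.g (nat_lit 3375) (.e (nat_lit 1256) (nat_lit 92) (.e (nat_lit 98350) (nat_lit 24) (.e (nat_lit 409648) (nat_lit 18) (.e (nat_lit 303118) (nat_lit 3) (.e (nat_lit 204864) (nat_lit 27) (.e (nat_lit 352000) (nat_lit 8) .nil)))))) (.g (nat_lit 5) .nil .nil)))))) (.nd (nat_lit 3) (.nd (nat_lit 4) (.nd (nat_lit 5) 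
(.lf (nat_lit 46405) (.g (nat_lit 1840) (.e (nat_lit 1256) (nat_lit 92) (.e (nat_lit 98350) (nat_lit 24) (.e (nat_lit 409641) (nat_lit 17) (.e (nat_lit 294931) (nat_lit 3) .nil)))) .nil)) 
(.lf (nat_lit 46437) (.g (nat_lit 2765) (.e (nat_lit 1256) (nat_lit 92) (.e (nat_lit 98350) (nat_lit 24) (.e (nat_lit 409647) (nat_lit 18) (.e (nat_lit 303117) (nat_lit 2) (.e (nat_lit 196668) (nat_lit 14) (.e (nat_lit 81664) (nat_lit 40) .nil)))))) (.g (nat_lit 4) .nil .nil)))) (.nd (nat_lit 5) 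
(.lf (nat_lit 46421) (.g (nat_lit 4642) (.e (nat_lit 1256) (nat_lit 92) (.e (nat_lit 98350) (nat_lit 24) (.e (nat_lit 409645) (nat_lit 18) (.e (nat_lit 303119) (nat_lit 3) (.e (nat_lit 204846) (nat_lit 24) (.e (nat_lit 319491) (nat_lit 0) (.e (nat_lit 5270) (nat_lit 298) .nil))))))) (.g (nat_lit 5) .nil .nil))) 
(.lf (nat_lit 46453) (.g (nat_lit 701) (.e (nat_lit 1256) (nat_lit 92) (.e (nat_lit 98350) (nat_lit 24) (.e (nat_lit 409648) (nat_lit 18) (.e (nat_lit 311040) (nat_lit 2) .nil)))) .nil)))) (.nd (nat_lit 4) (.nd (nat_lit 5) 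
(.lf (nat_lit 46413) (.g (nat_lit 3526) (.e (nat_lit 1256) (nat_lit 92) (.e (nat_lit 98350) (nat_lit 24) (.e (nat_lit 409644) (nat_lit 18) (.e (nat_lit 303119) (nat_lit 3) (.e (nat_lit 204846) (nat_lit 24) (.e (nat_lit 319490) (nat_lit 0) (.e (nat_lit 5270) (nat_lit 298) .nil))))))) (.g (nat_lit 6) .nil .nil))) 
(.lf (nat_lit 46445) (.g (nat_lit 2431) (.e (nat_lit 1256) (nat_lit 92) (.e (nat_lit 98350) (nat_lit 24) (.e (nat_lit 409647) (nat_lit 18) (.e (nat_lit 303119) (nat_lit 3) (.e (nat_lit 204864) (nat_lit 27) .nil))))) .nil))) (.nd (nat_lit 5) 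
(.lf (nat_lit 46429) (.g (nat_lit 5413) (.e (nat_lit 1256) (nat_lit 92) (.e (nat_lit 98350) (nat_lit 24) (.e (nat_lit 409646) (nat_lit 18) (.e (nat_lit 303119) (nat_lit 3) (.e (nat_lit 204821) (nat_lit 17) (.e (nat_lit 6238) (nat_lit 336) (.e (nat_lit 229643) (nat_lit 232) .nil))))))) (.g (nat_lit 0) .nil .nil))) 
(.lf (nat_lit 46461) (.g (nat_lit 1472) (.e (nat_lit 1256) (nat_lit 92) (.e (nat_lit 98350) (nat_lit 24) (.e (nat_lit 409648) (nat_lit 18) (.e (nat_lit 303121) (nat_lit 5) .nil)))) .nil)))))) (.nd (nat_lit 2) (.nd (nat_lit 3) (.nd (nat_lit 4) (.nd (nat_lit 5) 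
(.lf (nat_lit 46403) (.g (nat_lit 3622) (.e (nat_lit 1256) (nat_lit 92) (.e (nat_lit 98350) (nat_lit 24) (.e (nat_lit 409641) (nat_lit 17) (.e (nat_lit 294928) (nat_lit 2) (.e (nat_lit 90165) (nat_lit 12) (.e (nat_lit 164219) (nat_lit 180) (.e (nat_lit 229643) (nat_lit 232) .nil))))))) (.g (nat_lit 5) .nil .nil))) 
(.lf (nat_lit 46435) (.g (nat_lit 1571) (.e (nat_lit 1256) (nat_lit 92) (.e (nat_lit 98350) (nat_lit 24) (.e (nat_lit 409647) (nat_lit 18) (.e (nat_lit 303117) (nat_lit 2) .nil)))) .nil))) (.nd (nat_lit 5) 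
(.lf (nat_lit 46419) (.g (nat_lit 2465) (.e (nat_lit 1256) (nat_lit 92) (.e (nat_lit 98350) (nat_lit 24) (.e (nat_lit 409645) (nat_lit 18) (.e (nat_lit 303119) (nat_lit 3) (.e (nat_lit 204821) (nat_lit 17) .nil))))) .nil)) 
(.lf (nat_lit 46451) (.g (nat_lit 2808) (.e (nat_lit 1256) (nat_lit 92) (.e (nat_lit 98350) (nat_lit 24) (.e (nat_lit 409648) (nat_lit 18) (.e (nat_lit 303117) (nat_lit 2) (.e (nat_lit 196665) (nat_lit 13) .nil))))) .nil)))) (.nd (nat_lit 4) (.nd (nat_lit 5) 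
(.lf (nat_lit 46411) (.g (nat_lit 1235) (.e (nat_lit 1256) (nat_lit 92) (.e (nat_lit 98350) (nat_lit 24) (.e (nat_lit 409644) (nat_lit 18) (.e (nat_lit 303119) (nat_lit 3) .nil)))) .nil)) 
(.lf (nat_lit 46443) (.g (nat_lit 2509) (.e (nat_lit 1256) (nat_lit 92) (.e (nat_lit 98350) (nat_lit 24) (.e (nat_lit 409647) (nat_lit 18) (.e (nat_lit 303119) (nat_lit 3) (.e (nat_lit 204846) (nat_lit 24) (.e (nat_lit 319490) (nat_lit 0) (.e (nat_lit 5270) (nat_lit 298) .nil))))))) (.g (nat_lit 4) .nil .nil)))) (.nd (nat_lit 5) 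
(.lf (nat_lit 46427) (.g (nat_lit 1573) (.e (nat_lit 1256) (nat_lit 92) (.e (nat_lit 98350) (nat_lit 24) (.e (nat_lit 409646) (nat_lit 18) (.e (nat_lit 303119) (nat_lit 3) .nil)))) .nil)) 
(.lf (nat_lit 46459) (.g (nat_lit 2748) (.e (nat_lit 1256) (nat_lit 92) (.e (nat_lit 98350) (nat_lit 24) (.e (nat_lit 409648) (nat_lit 18) (.e (nat_lit 303119) (nat_lit 3) (.e (nat_lit 204846) (nat_lit 24) (.e (nat_lit 319490) (nat_lit 0) (.e (nat_lit 5270) (nat_lit 298) .nil))))))) (.g (nat_lit 5) .nil .nil)))))) (.nd (nat_lit 3) (.nd (nat_lit 4) (.nd (nat_lit 5) 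
(.lf (nat_lit 46407) (.g (nat_lit 799) (.e (nat_lit 1256) (nat_lit 92) (.e (nat_lit 98350) (nat_lit 24) (.e (nat_lit 409642) (nat_lit 17) .nil))) .nil)) 
(.lf (nat_lit 46439) (.g (nat_lit 2787) (.e (nat_lit 1256) (nat_lit 92) (.e (nat_lit 98350) (nat_lit 24) (.e (nat_lit 409647) (nat_lit 18) (.e (nat_lit 303117) (nat_lit 2) (.e (nat_lit 196670) (nat_lit 14) (.e (nat_lit 81664) (nat_lit 40) .nil)))))) (.g (nat_lit 4) .nil .nil)))) (.nd (nat_lit 5) 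
(.lf (nat_lit 46423) (.g (nat_lit 3883) (.e (nat_lit 1256) (nat_lit 92) (.e (nat_lit 98350) (nat_lit 24) (.e (nat_lit 409645) (nat_lit 18) (.e (nat_lit 303119) (nat_lit 3) (.e (nat_lit 204863) (nat_lit 27) (.e (nat_lit 352000) (nat_lit 8) .nil)))))) (.g (nat_lit 5) .nil .nil))) 
(.lf (nat_lit 46455) (.g (nat_lit 4028) (.e (nat_lit 1256) (nat_lit 92) (.e (nat_lit 98350) (nat_lit 24) (.e (nat_lit 409648) (nat_lit 18) (.e (nat_lit 303118) (nat_lit 3) (.e (nat_lit 204846) (nat_lit 24) (.e (nat_lit 319491) (nat_lit 0) (.e (nat_lit 5270) (nat_lit 298) .nil))))))) (.g (nat_lit 5) .nil .nil))))) (.nd (nat_lit 4) (.nd (nat_lit 5) 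
(.lf (nat_lit 46415) (.g (nat_lit 2407) (.e (nat_lit 1256) (nat_lit 92) (.e (nat_lit 98350) (nat_lit 24) (.e (nat_lit 409644) (nat_lit 18) (.e (nat_lit 303119) (nat_lit 3) (.e (nat_lit 204864) (nat_lit 27) (.e (nat_lit 352000) (nat_lit 8) .nil)))))) (.g (nat_lit 4) .nil .nil))) 
(.lf (nat_lit 46447) (.g (nat_lit 2641) (.e (nat_lit 1256) (nat_lit 92) (.e (nat_lit 98350) (nat_lit 24) (.e (nat_lit 409648) (nat_lit 18) (.e (nat_lit 303116) (nat_lit 2) (.e (nat_lit 196667) (nat_lit 14) .nil))))) .nil))) (.nd (nat_lit 5) 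
(.lf (nat_lit 46431) (.g (nat_lit 2544) (.e (nat_lit 1256) (nat_lit 92) (.e (nat_lit 98350) (nat_lit 24) (.e (nat_lit 409646) (nat_lit 18) (.e (nat_lit 303119) (nat_lit 3) (.e (nat_lit 204859) (nat_lit 26) .nil))))) .nil)) 
(.lf (nat_lit 46463) (.g (nat_lit 1834) (.e (nat_lit 1256) (nat_lit 92) (.e (nat_lit 98350) (nat_lit 24) (.e (nat_lit 409649) (nat_lit 18) (.e (nat_lit 303112) (nat_lit 0) .nil)))) .nil))))))))

noncomputable def tv646 : DT := (.nd (nat_lit 0) (.nd (nat_lit 1) (.nd (nat_lit 2) (.nd (nat_lit 3) (.nd (nat_lit 4) (.nd (nat_lit 5) (.nd (nat_lit 6) 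
(.lf (nat_lit 46464) (.g (nat_lit 2673) (.e (nat_lit 1256) (nat_lit 92) (.e (nat_lit 98350) (nat_lit 24) (.e (nat_lit 409649) (nat_lit 18) (.e (nat_lit 303116) (nat_lit 2) (.e (nat_lit 196668) (nat_lit 14) .nil))))) .nil)) 
(.lf (nat_lit 46528) (.g (nat_lit 2107) (.e (nat_lit 1256) (nat_lit 92) (.e (nat_lit 98359) (nat_lit 26) (.e (nat_lit 426211) (nat_lit 9) (.e (nat_lit 426140) (nat_lit 3) (.e (nat_lit 204845) (nat_lit 24) .nil))))) .nil))) (.nd (nat_lit 6) 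
(.lf (nat_lit 46496) (.g (nat_lit 1564) (.e (nat_lit 1256) (nat_lit 92) (.e (nat_lit 98359) (nat_lit 26) (.e (nat_lit 426132) (nat_lit 3) (.e (nat_lit 204830) (nat_lit 18) (.e (nat_lit 57691) (nat_lit 156) .nil))))) .nil)) 
(.lf (nat_lit 46560) (.g (nat_lit 2102) (.e (nat_lit 1256) (nat_lit 92) (.e (nat_lit 98359) (nat_lit 26) (.e (nat_lit 426286) (nat_lit 10) (.e (nat_lit 434227) (nat_lit 20) (.e (nat_lit 507929) (nat_lit 10) (.e (nat_lit 5758) (nat_lit 315) (.e (nat_lit 171776) (nat_lit 187) .nil))))))) (.g (nat_lit 5) .nil .nil))))) (.nd (nat_lit 5) (.nd (nat_lit 6) 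
(.lf (nat_lit 46480) (.g (nat_lit 2596) (.e (nat_lit 1256) (nat_lit 92) (.e (nat_lit 98350) (nat_lit 24) (.e (nat_lit 417536) (nat_lit 18) (.e (nat_lit 303117) (nat_lit 2) (.e (nat_lit 196661) (nat_lit 12) (.e (nat_lit 57723) (nat_lit 180) (.e (nat_lit 229643) (nat_lit 232) .nil))))))) (.g (nat_lit 5) .nil .nil))) 
(.lf (nat_lit 46544) (.g (nat_lit 2289) (.e (nat_lit 1256) (nat_lit 92) (.e (nat_lit 98359) (nat_lit 26) (.e (nat_lit 426285) (nat_lit 10) (.e (nat_lit 434227) (nat_lit 20) (.e (nat_lit 507930) (nat_lit 10) (.e (nat_lit 5758) (nat_lit 315) (.e (nat_lit 171776) (nat_lit 187) .nil))))))) (.g (nat_lit 5) .nil .nil)))) (.nd (nat_lit 6) 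
(.lf (nat_lit 46512) (.g (nat_lit 3857) (.e (nat_lit 1256) (nat_lit 92) (.e (nat_lit 98359) (nat_lit 26) (.e (nat_lit 426211) (nat_lit 9) (.e (nat_lit 426125) (nat_lit 2) (.e (nat_lit 196631) (nat_lit 9) .nil))))) .nil)) 
(.lf (nat_lit 46576) (.g (nat_lit 1898) (.e (nat_lit 1256) (nat_lit 92) (.e (nat_lit 98359) (nat_lit 26) (.e (nat_lit 426286) (nat_lit 10) (.e (nat_lit 434238) (nat_lit 25) (.e (nat_lit 548894) (nat_lit 14) .nil))))) .nil))))) (.nd (nat_lit 4) (.nd (nat_lit 5) (.nd (nat_lit 6) 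
(.lf (nat_lit 46472) (.g (nat_lit 2894) (.e (nat_lit 1256) (nat_lit 92) (.e (nat_lit 98350) (nat_lit 24) (.e (nat_lit 409649) (nat_lit 18) (.e (nat_lit 303119) (nat_lit 3) (.e (nat_lit 204821) (nat_lit 17) .nil))))) .nil)) 
(.lf (nat_lit 46536) (.g (nat_lit 1148) (.e (nat_lit 1256) (nat_lit 92) (.e (nat_lit 98359) (nat_lit 26) (.e (nat_lit 426285) (nat_lit 10) (.e (nat_lit 434227) (nat_lit 20) .nil)))) .nil))) (.nd (nat_lit 6) 
(.lf (nat_lit 46504) (.g (nat_lit 1563) (.e (nat_lit 1256) (nat_lit 92) (.e (nat_lit 98359) (nat_lit 26) (.e (nat_lit 426171) (nat_lit 7) (.e (nat_lit 409631) (nat_lit 12) (.e (nat_lit 32794) (nat_lit 14) .nil))))) .nil)) 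
(.lf (nat_lit 46568) (.g (nat_lit 2350) (.e (nat_lit 1256) (nat_lit 92) (.e (nat_lit 98359) (nat_lit 26) (.e (nat_lit 426286) (nat_lit 10) (.e (nat_lit 434227) (nat_lit 20) (.e (nat_lit 507930) (nat_lit 10) (.e (nat_lit 5763) (nat_lit 315) (.e (nat_lit 171776) (nat_lit 187) .nil))))))) (.g (nat_lit 6) .nil .nil))))) (.nd (nat_lit 5) (.nd (nat_lit 6) 
(.lf (nat_lit 46488) (.g (nat_lit 2223) (.e (nat_lit 1256) (nat_lit 92) (.e (nat_lit 98356) (nat_lit 26) (.e (nat_lit 426428) (nat_lit 17) (.e (nat_lit 90174) (nat_lit 14) (.e (nat_lit 180243) (nat_lit 5) (.e (nat_lit 532499) (nat_lit 1) (.e (nat_lit 65280) (nat_lit 209) (.e (nat_lit 974) (nat_lit 81) .nil)))))))) (.g (nat_lit 4) .nil .nil))) 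
(.lf (nat_lit 46552) (.g (nat_lit 1190) (.e (nat_lit 1256) (nat_lit 92) (.e (nat_lit 98359) (nat_lit 26) (.e (nat_lit 426285) (nat_lit 10) (.e (nat_lit 434238) (nat_lit 25) .nil)))) .nil))) (.nd (nat_lit 6) 
(.lf (nat_lit 46520) (.g (nat_lit 2009) (.e (nat_lit 1256) (nat_lit 92) (.e (nat_lit 98359) (nat_lit 26) (.e (nat_lit 426211) (nat_lit 9) (.e (nat_lit 426125) (nat_lit 2) (.e (nat_lit 204544) (nat_lit 18) (.e (nat_lit 2525) (nat_lit 157) (.e (nat_lit 5003) (nat_lit 288) (.e (nat_lit 57876) (nat_lit 270) .nil)))))))) (.g (nat_lit 4) .nil .nil))) 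
(.lf (nat_lit 46584) (.g (nat_lit 1857) (.e (nat_lit 1256) (nat_lit 92) (.e (nat_lit 98359) (nat_lit 26) (.e (nat_lit 426286) (nat_lit 10) (.e (nat_lit 434238) (nat_lit 25) (.e (nat_lit 556800) (nat_lit 14) .nil))))) .nil)))))) (.nd (nat_lit 3) (.nd (nat_lit 4) (.nd (nat_lit 5) (.nd (nat_lit 6) 
(.lf (nat_lit 46468) (.g (nat_lit 3077) (.e (nat_lit 1256) (nat_lit 92) (.e (nat_lit 98350) (nat_lit 24) (.e (nat_lit 409649) (nat_lit 18) (.e (nat_lit 303118) (nat_lit 3) (.e (nat_lit 204862) (nat_lit 27) (.e (nat_lit 352000) (nat_lit 8) .nil)))))) (.g (nat_lit 5) .nil .nil))) 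
(.lf (nat_lit 46532) (.g (nat_lit 933) (.e (nat_lit 1256) (nat_lit 92) (.e (nat_lit 98359) (nat_lit 26) (.e (nat_lit 426275) (nat_lit 10) (.e (nat_lit 434231) (nat_lit 23) .nil)))) .nil))) (.nd (nat_lit 6) 
(.lf (nat_lit 46500) (.g (nat_lit 1540) (.e (nat_lit 1256) (nat_lit 92) (.e (nat_lit 98359) (nat_lit 26) (.e (nat_lit 426170) (nat_lit 7) (.e (nat_lit 409631) (nat_lit 12) (.e (nat_lit 32794) (nat_lit 14) (.e (nat_lit 2975) (nat_lit 185) (.e (nat_lit 442112) (nat_lit 0) .nil))))))) (.g (nat_lit 5) .nil .nil))) 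
(.lf (nat_lit 46564) (.g (nat_lit 2385) (.e (nat_lit 1256) (nat_lit 92) (.e (nat_lit 98359) (nat_lit 26) (.e (nat_lit 426286) (nat_lit 10) (.e (nat_lit 434227) (nat_lit 20) (.e (nat_lit 507930) (nat_lit 10) (.e (nat_lit 5756) (nat_lit 315) (.e (nat_lit 171776) (nat_lit 187) .nil))))))) (.g (nat_lit 6) .nil .nil))))) (.nd (nat_lit 5) (.nd (nat_lit 6) 
(.lf (nat_lit 46484) (.g (nat_lit 2086) (.e (nat_lit 1256) (nat_lit 92) (.e (nat_lit 98354) (nat_lit 26) (.e (nat_lit 426317) (nat_lit 12) (.e (nat_lit 475185) (nat_lit 29) (.e (nat_lit 557105) (nat_lit 14) (.e (nat_lit 188160) (nat_lit 32) .nil)))))) (.g (nat_lit 5) .nil .nil))) 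
(.lf (nat_lit 46548) (.g (nat_lit 2205) (.e (nat_lit 1256) (nat_lit 92) (.e (nat_lit 98359) (nat_lit 26) (.e (nat_lit 426285) (nat_lit 10) (.e (nat_lit 434227) (nat_lit 20) (.e (nat_lit 507942) (nat_lit 15) (.e (nat_lit 278550) (nat_lit 10) (.e (nat_lit 5271) (nat_lit 298) .nil))))))) (.g (nat_lit 5) .nil .nil)))) (.nd (nat_lit 6) 
(.lf (nat_lit 46516) (.g (nat_lit 3125) (.e (nat_lit 1256) (nat_lit 92) (.e (nat_lit 98359) (nat_lit 26) (.e (nat_lit 426211) (nat_lit 9) (.e (nat_lit 426125) (nat_lit 2) (.e (nat_lit 196683) (nat_lit 18) .nil))))) .nil)) 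
(.lf (nat_lit 46580) (.g (nat_lit 2235) (.e (nat_lit 1256) (nat_lit 92) (.e (nat_lit 98359) (nat_lit 26) (.e (nat_lit 426286) (nat_lit 10) (.e (nat_lit 434238) (nat_lit 25) (.e (nat_lit 548897) (nat_lit 14) (.e (nat_lit 2828) (nat_lit 182) (.e (nat_lit 409604) (nat_lit 0) (.e (nat_lit 5270) (nat_lit 298) .nil)))))))) (.g (nat_lit 5) .nil .nil)))))) 
(.nd (nat_lit 4) (.nd (nat_lit 5) (.nd (nat_lit 6) 
(.lf (nat_lit 46476) (.g (nat_lit 3658) (.e (nat_lit 1256) (nat_lit 92) (.e (nat_lit 98350) (nat_lit 24) (.e (nat_lit 409649) (nat_lit 18) (.e (nat_lit 303119) (nat_lit 3) (.e (nat_lit 204863) (nat_lit 27) (.e (nat_lit 352000) (nat_lit 8) .nil)))))) (.g (nat_lit 5) .nil .nil))) 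
(.lf (nat_lit 46540) (.g (nat_lit 2104) (.e (nat_lit 1256) (nat_lit 92) (.e (nat_lit 98359) (nat_lit 26) (.e (nat_lit 426285) (nat_lit 10) (.e (nat_lit 434227) (nat_lit 20) (.e (nat_lit 507929) (nat_lit 10) (.e (nat_lit 5762) (nat_lit 315) (.e (nat_lit 171776) (nat_lit 187) .nil))))))) (.g (nat_lit 5) .nil .nil)))) (.nd (nat_lit 6) 
(.lf (nat_lit 46508) (.g (nat_lit 1695) (.e (nat_lit 1256) (nat_lit 92) (.e (nat_lit 98359) (nat_lit 26) (.e (nat_lit 426171) (nat_lit 7) (.e (nat_lit 409631) (nat_lit 12) (.e (nat_lit 40704) (nat_lit 19) .nil))))) .nil)) 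
(.lf (nat_lit 46572) (.g (nat_lit 1495) (.e (nat_lit 1256) (nat_lit 92) (.e (nat_lit 98359) (nat_lit 26) (.e (nat_lit 426286) (nat_lit 10) (.e (nat_lit 434233) (nat_lit 23) (.e (nat_lit 532523) (nat_lit 7) .nil))))) .nil)))) (.nd (nat_lit 5) (.nd (nat_lit 6) 
(.lf (nat_lit 46492) (.g (nat_lit 1768) (.e (nat_lit 1256) (nat_lit 92) (.e (nat_lit 98356) (nat_lit 26) (.e (nat_lit 426438) (nat_lit 18) (.e (nat_lit 98335) (nat_lit 18) (.e (nat_lit 164326) (nat_lit 230) .nil))))) .nil)) 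
(.lf (nat_lit 46556) (.g (nat_lit 339) (.e (nat_lit 1256) (nat_lit 92) (.e (nat_lit 98359) (nat_lit 26) (.e (nat_lit 426286) (nat_lit 10) .nil))) .nil))) (.nd (nat_lit 6) 
(.lf (nat_lit 46524) (.g (nat_lit 1907) (.e (nat_lit 1256) (nat_lit 92) (.e (nat_lit 98359) (nat_lit 26) (.e (nat_lit 426211) (nat_lit 9) (.e (nat_lit 426125) (nat_lit 2) (.e (nat_lit 204544) (nat_lit 18) (.e (nat_lit 2773) (nat_lit 177) (.e (nat_lit 278550) (nat_lit 10) (.e (nat_lit 5271) (nat_lit 298) .nil)))))))) (.g (nat_lit 4) .nil .nil))) 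
(.lf (nat_lit 46588) (.g (nat_lit 1101) (.e (nat_lit 1256) (nat_lit 92) (.e (nat_lit 98359) (nat_lit 26) (.e (nat_lit 426286) (nat_lit 10) (.e (nat_lit 434242) (nat_lit 28) .nil)))) .nil))))))) (.nd (nat_lit 2) (.nd (nat_lit 3) (.nd (nat_lit 4) (.nd (nat_lit 5) (.nd (nat_lit 6) 
(.lf (nat_lit 46466) (.g (nat_lit 3367) (.e (nat_lit 1256) (nat_lit 92) (.e (nat_lit 98350) (nat_lit 24) (.e (nat_lit 409649) (nat_lit 18) (.e (nat_lit 303117) (nat_lit 2) (.e (nat_lit 196667) (nat_lit 14) (.e (nat_lit 81664) (nat_lit 40) .nil)))))) (.g (nat_lit 5) .nil .nil))) 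
(.lf (nat_lit 46530) (.g (nat_lit 2697) (.e (nat_lit 1256) (nat_lit 92) (.e (nat_lit 98359) (nat_lit 26) (.e (nat_lit 426211) (nat_lit 9) (.e (nat_lit 426140) (nat_lit 3) (.e (nat_lit 204849) (nat_lit 25) (.e (nat_lit 327708) (nat_lit 10) (.e (nat_lit 5270) (nat_lit 298) .nil))))))) (.g (nat_lit 4) .nil .nil)))) (.nd (nat_lit 6) 
(.lf (nat_lit 46498) (.g (nat_lit 730) (.e (nat_lit 1256) (nat_lit 92) (.e (nat_lit 98359) (nat_lit 26) (.e (nat_lit 426170) (nat_lit 7) (.e (nat_lit 409631) (nat_lit 12) .nil)))) .nil)) 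
(.lf (nat_lit 46562) (.g (nat_lit 2381) (.e (nat_lit 1256) (nat_lit 92) (.e (nat_lit 98359) (nat_lit 26) (.e (nat_lit 426286) (nat_lit 10) (.e (nat_lit 434227) (nat_lit 20) (.e (nat_lit 507929) (nat_lit 10) (.e (nat_lit 5763) (nat_lit 315) (.e (nat_lit 171776) (nat_lit 187) .nil))))))) (.g (nat_lit 6) .nil .nil))))) (.nd (nat_lit 5) (.nd (nat_lit 6) 
(.lf (nat_lit 46482) (.g (nat_lit 1812) (.e (nat_lit 1256) (nat_lit 92) (.e (nat_lit 98350) (nat_lit 24) (.e (nat_lit 417536) (nat_lit 18) (.e (nat_lit 303119) (nat_lit 3) (.e (nat_lit 204864) (nat_lit 27) (.e (nat_lit 352000) (nat_lit 8) .nil)))))) (.g (nat_lit 4) .nil .nil))) 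
(.lf (nat_lit 46546) (.g (nat_lit 2315) (.e (nat_lit 1256) (nat_lit 92) (.e (nat_lit 98359) (nat_lit 26) (.e (nat_lit 426285) (nat_lit 10) (.e (nat_lit 434227) (nat_lit 20) (.e (nat_lit 507930) (nat_lit 10) (.e (nat_lit 5762) (nat_lit 315) (.e (nat_lit 171776) (nat_lit 187) .nil))))))) (.g (nat_lit 5) .nil .nil)))) (.nd (nat_lit 6) 
(.lf (nat_lit 46514) (.g (nat_lit 3919) (.e (nat_lit 1256) (nat_lit 92) (.e (nat_lit 98359) (nat_lit 26) (.e (nat_lit 426211) (nat_lit 9) (.e (nat_lit 426125) (nat_lit 2) (.e (nat_lit 196638) (nat_lit 9) .nil))))) .nil)) 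
(.lf (nat_lit 46578) (.g (nat_lit 1752) (.e (nat_lit 1256) (nat_lit 92) (.e (nat_lit 98359) (nat_lit 26) (.e (nat_lit 426286) (nat_lit 10) (.e (nat_lit 434238) (nat_lit 25) (.e (nat_lit 548897) (nat_lit 14) .nil))))) .nil))))) (.nd (nat_lit 4) (.nd (nat_lit 5) (.nd (nat_lit 6) 
(.lf (nat_lit 46474) (.g (nat_lit 3030) (.e (nat_lit 1256) (nat_lit 92) (.e (nat_lit 98350) (nat_lit 24) (.e (nat_lit 409649) (nat_lit 18) (.e (nat_lit 303119) (nat_lit 3) (.e (nat_lit 204846) (nat_lit 24) (.e (nat_lit 319490) (nat_lit 0) (.e (nat_lit 5270) (nat_lit 298) .nil))))))) (.g (nat_lit 5) .nil .nil))) 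
(.lf (nat_lit 46538) (.g (nat_lit 1629) (.e (nat_lit 1256) (nat_lit 92) (.e (nat_lit 98359) (nat_lit 26) (.e (nat_lit 426285) (nat_lit 10) (.e (nat_lit 434227) (nat_lit 20) (.e (nat_lit 507928) (nat_lit 10) (.e (nat_lit 5763) (nat_lit 315) (.e (nat_lit 171776) (nat_lit 187) .nil))))))) (.g (nat_lit 4) .nil .nil)))) (.nd (nat_lit 6) 
(.lf (nat_lit 46506) (.g (nat_lit 1746) (.e (nat_lit 1256) (nat_lit 92) (.e (nat_lit 98359) (nat_lit 26) (.e (nat_lit 426171) (nat_lit 7) (.e (nat_lit 409631) (nat_lit 12) (.e (nat_lit 32794) (nat_lit 14) (.e (nat_lit 2965) (nat_lit 185) (.e (nat_lit 442112) (nat_lit 0) .nil))))))) (.g (nat_lit 4) .nil .nil))) 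
(.lf (nat_lit 46570) (.g (nat_lit 1115) (.e (nat_lit 1256) (nat_lit 92) (.e (nat_lit 98359) (nat_lit 26) (.e (nat_lit 426286) (nat_lit 10) (.e (nat_lit 434231) (nat_lit 23) .nil)))) .nil)))) (.nd (nat_lit 5) (.nd (nat_lit 6) 
(.lf (nat_lit 46490) (.g (nat_lit 651) (.e (nat_lit 1256) (nat_lit 92) (.e (nat_lit 98356) (nat_lit 26) (.e (nat_lit 426438) (nat_lit 18) .nil))) .nil)) 
(.lf (nat_lit 46554) (.g (nat_lit 1745) (.e (nat_lit 1256) (nat_lit 92) (.e (nat_lit 98359) (nat_lit 26) (.e (nat_lit 426285) (nat_lit 10) (.e (nat_lit 434238) (nat_lit 25) (.e (nat_lit 548897) (nat_lit 14) (.e (nat_lit 2828) (nat_lit 182) (.e (nat_lit 409604) (nat_lit 0) (.e (nat_lit 5270) (nat_lit 298) .nil)))))))) (.g (nat_lit 4) .nil .nil)))) (.nd (nat_lit 6) 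
(.lf (nat_lit 46522) (.g (nat_lit 1901) (.e (nat_lit 1256) (nat_lit 92) (.e (nat_lit 98359) (nat_lit 26) (.e (nat_lit 426211) (nat_lit 9) (.e (nat_lit 426125) (nat_lit 2) (.e (nat_lit 204544) (nat_lit 18) (.e (nat_lit 2766) (nat_lit 177) (.e (nat_lit 278552) (nat_lit 10) (.e (nat_lit 5271) (nat_lit 298) .nil)))))))) (.g (nat_lit 4) .nil .nil))) 
(.lf (nat_lit 46586) (.g (nat_lit 2054) (.e (nat_lit 1256) (nat_lit 92) (.e (nat_lit 98359) (nat_lit 26) (.e (nat_lit 426286) (nat_lit 10) (.e (nat_lit 434238) (nat_lit 25) (.e (nat_lit 548913) (nat_lit 18) (.e (nat_lit 172033) (nat_lit 0) (.e (nat_lit 7936) (nat_lit 402) .nil))))))) (.g (nat_lit 4) .nil .nil))))))) (.nd (nat_lit 3) (.nd (nat_lit 4) (.nd (nat_lit 5) (.nd (nat_lit 6) 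
(.lf (nat_lit 46470) (.g (nat_lit 1517) (.e (nat_lit 1256) (nat_lit 92) (.e (nat_lit 98350) (nat_lit 24) (.e (nat_lit 409649) (nat_lit 18) (.e (nat_lit 303119) (nat_lit 3) .nil)))) .nil)) 
(.lf (nat_lit 46534) (.g (nat_lit 1870) (.e (nat_lit 1256) (nat_lit 92) (.e (nat_lit 98359) (nat_lit 26) (.e (nat_lit 426275) (nat_lit 10) (.e (nat_lit 434233) (nat_lit 23) (.e (nat_lit 532523) (nat_lit 7) (.e (nat_lit 319504) (nat_lit 10) (.e (nat_lit 7936) (nat_lit 298) .nil))))))) (.g (nat_lit 5) .nil .nil)))) (.nd (nat_lit 6) 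
(.lf (nat_lit 46502) (.g (nat_lit 1445) (.e (nat_lit 1256) (nat_lit 92) (.e (nat_lit 98359) (nat_lit 26) (.e (nat_lit 426171) (nat_lit 7) (.e (nat_lit 409629) (nat_lit 12) (.e (nat_lit 32808) (nat_lit 19) (.e (nat_lit 188160) (nat_lit 32) .nil)))))) (.g (nat_lit 4) .nil .nil))) 
(.lf (nat_lit 46566) (.g (nat_lit 1740) (.e (nat_lit 1256) (nat_lit 92) (.e (nat_lit 98359) (nat_lit 26) (.e (nat_lit 426286) (nat_lit 10) (.e (nat_lit 434227) (nat_lit 20) (.e (nat_lit 507930) (nat_lit 10) (.e (nat_lit 5760) (nat_lit 315) (.e (nat_lit 171776) (nat_lit 187) .nil))))))) (.g (nat_lit 4) .nil .nil))))) (.nd (nat_lit 5) (.nd (nat_lit 6) 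
(.lf (nat_lit 46486) (.g (nat_lit 1565) (.e (nat_lit 1256) (nat_lit 92) (.e (nat_lit 98356) (nat_lit 26) (.e (nat_lit 426428) (nat_lit 17) (.e (nat_lit 90174) (nat_lit 14) .nil)))) .nil)) 
(.lf (nat_lit 46550) (.g (nat_lit 1786) (.e (nat_lit 1256) (nat_lit 92) (.e (nat_lit 98359) (nat_lit 26) (.e (nat_lit 426285) (nat_lit 10) (.e (nat_lit 434233) (nat_lit 23) (.e (nat_lit 532523) (nat_lit 7) (.e (nat_lit 319504) (nat_lit 10) (.e (nat_lit 5271) (nat_lit 298) .nil))))))) (.g (nat_lit 4) .nil .nil)))) (.nd (nat_lit 6) 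
(.lf (nat_lit 46518) (.g (nat_lit 2899) (.e (nat_lit 1256) (nat_lit 92) (.e (nat_lit 98359) (nat_lit 26) (.e (nat_lit 426211) (nat_lit 9) (.e (nat_lit 426125) (nat_lit 2) (.e (nat_lit 196686) (nat_lit 18) .nil))))) .nil)) 
(.lf (nat_lit 46582) (.g (nat_lit 1689) (.e (nat_lit 1256) (nat_lit 92) (.e (nat_lit 98359) (nat_lit 26) (.e (nat_lit 426286) (nat_lit 10) (.e (nat_lit 434238) (nat_lit 25) (.e (nat_lit 548898) (nat_lit 14) .nil))))) .nil))))) (.nd (nat_lit 4) (.nd (nat_lit 5) (.nd (nat_lit 6) 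
(.lf (nat_lit 46478) (.g (nat_lit 1781) (.e (nat_lit 1256) (nat_lit 92) (.e (nat_lit 98350) (nat_lit 24) (.e (nat_lit 409649) (nat_lit 18) (.e (nat_lit 303121) (nat_lit 5) (.e (nat_lit 245791) (nat_lit 14) (.e (nat_lit 81664) (nat_lit 40) .nil)))))) (.g (nat_lit 5) .nil .nil))) 
(.lf (nat_lit 46542) (.g (nat_lit 1585) (.e (nat_lit 1256) (nat_lit 92) (.e (nat_lit 98359) (nat_lit 26) (.e (nat_lit 426285) (nat_lit 10) (.e (nat_lit 434227) (nat_lit 20) (.e (nat_lit 507930) (nat_lit 10) .nil))))) .nil))) (.nd (nat_lit 6) 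
(.lf (nat_lit 46510) (.g (nat_lit 1181) (.e (nat_lit 1256) (nat_lit 92) (.e (nat_lit 98359) (nat_lit 26) (.e (nat_lit 426211) (nat_lit 9) (.e (nat_lit 426125) (nat_lit 2) .nil)))) .nil)) 
(.lf (nat_lit 46574) (.g (nat_lit 1168) (.e (nat_lit 1256) (nat_lit 92) (.e (nat_lit 98359) (nat_lit 26) (.e (nat_lit 426286) (nat_lit 10) (.e (nat_lit 434236) (nat_lit 25) .nil)))) .nil)))) (.nd (nat_lit 5) (.nd (nat_lit 6) 
(.lf (nat_lit 46494) (.g (nat_lit 1221) (.e (nat_lit 1256) (nat_lit 92) (.e (nat_lit 98356) (nat_lit 26) (.e (nat_lit 426438) (nat_lit 18) (.e (nat_lit 98358) (nat_lit 26) .nil)))) .nil)) 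
(.lf (nat_lit 46558) (.g (nat_lit 1586) (.e (nat_lit 1256) (nat_lit 92) (.e (nat_lit 98359) (nat_lit 26) (.e (nat_lit 426286) (nat_lit 10) (.e (nat_lit 434227) (nat_lit 20) (.e (nat_lit 507928) (nat_lit 10) .nil))))) .nil))) (.nd (nat_lit 6) 
(.lf (nat_lit 46526) (.g (nat_lit 2962) (.e (nat_lit 1256) (nat_lit 92) (.e (nat_lit 98359) (nat_lit 26) (.e (nat_lit 426211) (nat_lit 9) (.e (nat_lit 426125) (nat_lit 2) (.e (nat_lit 196700) (nat_lit 22) .nil))))) .nil)) 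
(.lf (nat_lit 46590) (.g (nat_lit 1769) (.e (nat_lit 1256) (nat_lit 92) (.e (nat_lit 98359) (nat_lit 26) (.e (nat_lit 426286) (nat_lit 10) (.e (nat_lit 434245) (nat_lit 28) (.e (nat_lit 573448) (nat_lit 9) .nil))))) .nil)))))))) (.nd (nat_lit 1) (.nd (nat_lit 2) (.nd (nat_lit 3) (.nd (nat_lit 4) (.nd (nat_lit 5) (.nd (nat_lit 6) 
(.lf (nat_lit 46465) (.g (nat_lit 2630) (.e (nat_lit 1256) (nat_lit 92) (.e (nat_lit 98350) (nat_lit 24) (.e (nat_lit 409649) (nat_lit 18) (.e (nat_lit 303117) (nat_lit 2) (.e (nat_lit 196665) (nat_lit 13) (.e (nat_lit 65561) (nat_lit 0) (.e (nat_lit 7936) (nat_lit 343) .nil))))))) (.g (nat_lit 4) .nil .nil))) 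
(.lf (nat_lit 46529) (.g (nat_lit 2612) (.e (nat_lit 1256) (nat_lit 92) (.e (nat_lit 98359) (nat_lit 26) (.e (nat_lit 426211) (nat_lit 9) (.e (nat_lit 426140) (nat_lit 3) (.e (nat_lit 204847) (nat_lit 25) .nil))))) .nil))) (.nd (nat_lit 6) 
(.lf (nat_lit 46497) (.g (nat_lit 779) (.e (nat_lit 1256) (nat_lit 92) (.e (nat_lit 98359) (nat_lit 26) (.e (nat_lit 426132) (nat_lit 3) (.e (nat_lit 204838) (nat_lit 20) .nil)))) .nil)) 
(.lf (nat_lit 46561) (.g (nat_lit 1971) (.e (nat_lit 1256) (nat_lit 92) (.e (nat_lit 98359) (nat_lit 26) (.e (nat_lit 426286) (nat_lit 10) (.e (nat_lit 434227) (nat_lit 20) (.e (nat_lit 507929) (nat_lit 10) (.e (nat_lit 5762) (nat_lit 315) (.e (nat_lit 171776) (nat_lit 187) .nil))))))) (.g (nat_lit 5) .nil .nil))))) (.nd (nat_lit 5) (.nd (nat_lit 6) 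
(.lf (nat_lit 46481) (.g (nat_lit 3562) (.e (nat_lit 1256) (nat_lit 92) (.e (nat_lit 98350) (nat_lit 24) (.e (nat_lit 417536) (nat_lit 18) (.e (nat_lit 303119) (nat_lit 3) (.e (nat_lit 204821) (nat_lit 17) (.e (nat_lit 6238) (nat_lit 336) (.e (nat_lit 229643) (nat_lit 232) .nil))))))) (.g (nat_lit 6) .nil .nil))) 
(.lf (nat_lit 46545) (.g (nat_lit 1828) (.e (nat_lit 1256) (nat_lit 92) (.e (nat_lit 98359) (nat_lit 26) (.e (nat_lit 426285) (nat_lit 10) (.e (nat_lit 434227) (nat_lit 20) (.e (nat_lit 507930) (nat_lit 10) (.e (nat_lit 5760) (nat_lit 315) (.e (nat_lit 171776) (nat_lit 187) .nil))))))) (.g (nat_lit 4) .nil .nil)))) (.nd (nat_lit 6) 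
(.lf (nat_lit 46513) (.g (nat_lit 3415) (.e (nat_lit 1256) (nat_lit 92) (.e (nat_lit 98359) (nat_lit 26) (.e (nat_lit 426211) (nat_lit 9) (.e (nat_lit 426125) (nat_lit 2) (.e (nat_lit 196637) (nat_lit 9) (.e (nat_lit 1410) (nat_lit 107) (.e (nat_lit 327708) (nat_lit 10) (.e (nat_lit 5270) (nat_lit 298) .nil)))))))) (.g (nat_lit 4) .nil .nil))) 
(.lf (nat_lit 46577) (.g (nat_lit 1879) (.e (nat_lit 1256) (nat_lit 92) (.e (nat_lit 98359) (nat_lit 26) (.e (nat_lit 426286) (nat_lit 10) (.e (nat_lit 434238) (nat_lit 25) (.e (nat_lit 548896) (nat_lit 14) .nil))))) .nil))))) (.nd (nat_lit 4) (.nd (nat_lit 5) (.nd (nat_lit 6) 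
(.lf (nat_lit 46473) (.g (nat_lit 5413) (.e (nat_lit 1256) (nat_lit 92) (.e (nat_lit 98350) (nat_lit 24) (.e (nat_lit 409649) (nat_lit 18) (.e (nat_lit 303119) (nat_lit 3) (.e (nat_lit 204821) (nat_lit 17) (.e (nat_lit 6238) (nat_lit 336) (.e (nat_lit 229643) (nat_lit 232) .nil))))))) (.g (nat_lit 0) .nil .nil))) 
(.lf (nat_lit 46537) (.g (nat_lit 1611) (.e (nat_lit 1256) (nat_lit 92) (.e (nat_lit 98359) (nat_lit 26) (.e (nat_lit 426285) (nat_lit 10) (.e (nat_lit 434227) (nat_lit 20) (.e (nat_lit 507928) (nat_lit 10) .nil))))) .nil))) (.nd (nat_lit 6) 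
(.lf (nat_lit 46505) (.g (nat_lit 2308) (.e (nat_lit 1256) (nat_lit 92) (.e (nat_lit 98359) (nat_lit 26) (.e (nat_lit 426171) (nat_lit 7) (.e (nat_lit 409631) (nat_lit 12) (.e (nat_lit 32794) (nat_lit 14) (.e (nat_lit 2958) (nat_lit 185) (.e (nat_lit 442112) (nat_lit 0) .nil))))))) (.g (nat_lit 6) .nil .nil))) 
(.lf (nat_lit 46569) (.g (nat_lit 2104) (.e (nat_lit 1256) (nat_lit 92) (.e (nat_lit 98359) (nat_lit 26) (.e (nat_lit 426286) (nat_lit 10) (.e (nat_lit 434227) (nat_lit 20) (.e (nat_lit 507942) (nat_lit 15) (.e (nat_lit 278550) (nat_lit 10) (.e (nat_lit 5271) (nat_lit 298) .nil))))))) (.g (nat_lit 5) .nil .nil))))) (.nd (nat_lit 5) (.nd (nat_lit 6) 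
(.lf (nat_lit 46489) (.g (nat_lit 3289) (.e (nat_lit 1256) (nat_lit 92) (.e (nat_lit 98356) (nat_lit 26) (.e (nat_lit 426436) (nat_lit 18) (.e (nat_lit 98335) (nat_lit 18) (.e (nat_lit 164332) (nat_lit 230) (.e (nat_lit 163869) (nat_lit 2) (.e (nat_lit 196658) (nat_lit 12) (.e (nat_lit 57532) (nat_lit 46) (.e (nat_lit 704612) (nat_lit 9) .nil))))))))) (.g (nat_lit 4) .nil .nil))) 
(.lf (nat_lit 46553) (.g (nat_lit 1662) (.e (nat_lit 1256) (nat_lit 92) (.e (nat_lit 98359) (nat_lit 26) (.e (nat_lit 426285) (nat_lit 10) (.e (nat_lit 434238) (nat_lit 25) (.e (nat_lit 548897) (nat_lit 14) .nil))))) .nil))) (.nd (nat_lit 6) 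
(.lf (nat_lit 46521) (.g (nat_lit 1752) (.e (nat_lit 1256) (nat_lit 92) (.e (nat_lit 98359) (nat_lit 26) (.e (nat_lit 426211) (nat_lit 9) (.e (nat_lit 426125) (nat_lit 2) (.e (nat_lit 204544) (nat_lit 18) (.e (nat_lit 2762) (nat_lit 176) (.e (nat_lit 270360) (nat_lit 10) (.e (nat_lit 5245) (nat_lit 298) .nil)))))))) (.g (nat_lit 4) .nil .nil))) 
(.lf (nat_lit 46585) (.g (nat_lit 1871) (.e (nat_lit 1256) (nat_lit 92) (.e (nat_lit 98359) (nat_lit 26) (.e (nat_lit 426286) (nat_lit 10) (.e (nat_lit 434238) (nat_lit 25) (.e (nat_lit 548913) (nat_lit 18) .nil))))) .nil)))))) (.nd (nat_lit 3) (.nd (nat_lit 4) (.nd (nat_lit 5) (.nd (nat_lit 6) 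
(.lf (nat_lit 46469) (.g (nat_lit 2885) (.e (nat_lit 1256) (nat_lit 92) (.e (nat_lit 98350) (nat_lit 24) (.e (nat_lit 409649) (nat_lit 18) (.e (nat_lit 303118) (nat_lit 3) (.e (nat_lit 204863) (nat_lit 27) (.e (nat_lit 352000) (nat_lit 8) .nil)))))) (.g (nat_lit 5) .nil .nil))) 
(.lf (nat_lit 46533) (.g (nat_lit 1286) (.e (nat_lit 1256) (nat_lit 92) (.e (nat_lit 98359) (nat_lit 26) (.e (nat_lit 426275) (nat_lit 10) (.e (nat_lit 434233) (nat_lit 23) (.e (nat_lit 532523) (nat_lit 7) .nil))))) .nil))) (.nd (nat_lit 6) 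
(.lf (nat_lit 46501) (.g (nat_lit 390) (.e (nat_lit 1256) (nat_lit 92) (.e (nat_lit 98359) (nat_lit 26) (.e (nat_lit 426171) (nat_lit 7) .nil))) .nil)) 
(.lf (nat_lit 46565) (.g (nat_lit 2188) (.e (nat_lit 1256) (nat_lit 92) (.e (nat_lit 98359) (nat_lit 26) (.e (nat_lit 426286) (nat_lit 10) (.e (nat_lit 434227) (nat_lit 20) (.e (nat_lit 507930) (nat_lit 10) (.e (nat_lit 5758) (nat_lit 315) (.e (nat_lit 171776) (nat_lit 187) .nil))))))) (.g (nat_lit 5) .nil .nil))))) (.nd (nat_lit 5) (.nd (nat_lit 6) 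
(.lf (nat_lit 46485) (.g (nat_lit 867) (.e (nat_lit 1256) (nat_lit 92) (.e (nat_lit 98356) (nat_lit 26) (.e (nat_lit 426428) (nat_lit 17) .nil))) .nil)) 
(.lf (nat_lit 46549) (.g (nat_lit 1392) (.e (nat_lit 1256) (nat_lit 92) (.e (nat_lit 98359) (nat_lit 26) (.e (nat_lit 426285) (nat_lit 10) (.e (nat_lit 434233) (nat_lit 23) (.e (nat_lit 532523) (nat_lit 7) .nil))))) .nil))) (.nd (nat_lit 6) 
(.lf (nat_lit 46517) (.g (nat_lit 3381) (.e (nat_lit 1256) (nat_lit 92) (.e (nat_lit 98359) (nat_lit 26) (.e (nat_lit 426211) (nat_lit 9) (.e (nat_lit 426125) (nat_lit 2) (.e (nat_lit 196683) (nat_lit 18) (.e (nat_lit 2525) (nat_lit 157) (.e (nat_lit 5003) (nat_lit 288) (.e (nat_lit 57876) (nat_lit 270) .nil)))))))) (.g (nat_lit 4) .nil .nil))) 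
(.lf (nat_lit 46581) (.g (nat_lit 1755) (.e (nat_lit 1256) (nat_lit 92) (.e (nat_lit 98359) (nat_lit 26) (.e (nat_lit 426286) (nat_lit 10) (.e (nat_lit 434238) (nat_lit 25) (.e (nat_lit 548897) (nat_lit 14) (.e (nat_lit 2975) (nat_lit 185) (.e (nat_lit 442112) (nat_lit 0) .nil))))))) (.g (nat_lit 4) .nil .nil)))))) (.nd (nat_lit 4) (.nd (nat_lit 5) (.nd (nat_lit 6) 
(.lf (nat_lit 46477) (.g (nat_lit 3357) (.e (nat_lit 1256) (nat_lit 92) (.e (nat_lit 98350) (nat_lit 24) (.e (nat_lit 409649) (nat_lit 18) (.e (nat_lit 303119) (nat_lit 3) (.e (nat_lit 204864) (nat_lit 27) (.e (nat_lit 352000) (nat_lit 8) .nil)))))) (.g (nat_lit 5) .nil .nil))) 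
(.lf (nat_lit 46541) (.g (nat_lit 2514) (.e (nat_lit 1256) (nat_lit 92) (.e (nat_lit 98359) (nat_lit 26) (.e (nat_lit 426285) (nat_lit 10) (.e (nat_lit 434227) (nat_lit 20) (.e (nat_lit 507929) (nat_lit 10) (.e (nat_lit 5763) (nat_lit 315) (.e (nat_lit 171776) (nat_lit 187) .nil))))))) (.g (nat_lit 6) .nil .nil)))) (.nd (nat_lit 6) 
(.lf (nat_lit 46509) (.g (nat_lit 542) (.e (nat_lit 1256) (nat_lit 92) (.e (nat_lit 98359) (nat_lit 26) (.e (nat_lit 426185) (nat_lit 9) .nil))) .nil)) 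
(.lf (nat_lit 46573) (.g (nat_lit 1175) (.e (nat_lit 1256) (nat_lit 92) (.e (nat_lit 98359) (nat_lit 26) (.e (nat_lit 426286) (nat_lit 10) (.e (nat_lit 434234) (nat_lit 23) .nil)))) .nil)))) (.nd (nat_lit 5) (.nd (nat_lit 6) 
(.lf (nat_lit 46493) (.g (nat_lit 4392) (.e (nat_lit 1256) (nat_lit 92) (.e (nat_lit 98356) (nat_lit 26) (.e (nat_lit 426438) (nat_lit 18) (.e (nat_lit 98335) (nat_lit 18) (.e (nat_lit 164332) (nat_lit 230) (.e (nat_lit 163869) (nat_lit 2) (.e (nat_lit 196658) (nat_lit 12) (.e (nat_lit 57532) (nat_lit 46) (.e (nat_lit 704612) (nat_lit 9) .nil))))))))) (.g (nat_lit 6) .nil .nil))) 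
(.lf (nat_lit 46557) (.g (nat_lit 1200) (.e (nat_lit 1256) (nat_lit 92) (.e (nat_lit 98359) (nat_lit 26) (.e (nat_lit 426286) (nat_lit 10) (.e (nat_lit 434227) (nat_lit 20) .nil)))) .nil))) (.nd (nat_lit 6) 
(.lf (nat_lit 46525) (.g (nat_lit 1881) (.e (nat_lit 1256) (nat_lit 92) (.e (nat_lit 98359) (nat_lit 26) (.e (nat_lit 426211) (nat_lit 9) (.e (nat_lit 426125) (nat_lit 2) (.e (nat_lit 204544) (nat_lit 18) (.e (nat_lit 2773) (nat_lit 177) (.e (nat_lit 278553) (nat_lit 10) (.e (nat_lit 5271) (nat_lit 298) .nil)))))))) (.g (nat_lit 4) .nil .nil))) 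
(.lf (nat_lit 46589) (.g (nat_lit 1022) (.e (nat_lit 1256) (nat_lit 92) (.e (nat_lit 98359) (nat_lit 26) (.e (nat_lit 426286) (nat_lit 10) (.e (nat_lit 434245) (nat_lit 28) .nil)))) .nil))))))) (.nd (nat_lit 2) (.nd (nat_lit 3) (.nd (nat_lit 4) (.nd (nat_lit 5) (.nd (nat_lit 6) 
(.lf (nat_lit 46467) (.g (nat_lit 2566) (.e (nat_lit 1256) (nat_lit 92) (.e (nat_lit 98350) (nat_lit 24) (.e (nat_lit 409649) (nat_lit 18) (.e (nat_lit 303118) (nat_lit 3) (.e (nat_lit 204819) (nat_lit 17) (.e (nat_lit 6113) (nat_lit 332) (.e (nat_lit 2406) (nat_lit 157) (.e (nat_lit 5270) (nat_lit 298) .nil)))))))) (.g (nat_lit 4) .nil .nil))) 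
(.lf (nat_lit 46531) (.g (nat_lit 574) (.e (nat_lit 1256) (nat_lit 92) (.e (nat_lit 98359) (nat_lit 26) (.e (nat_lit 426216) (nat_lit 9) .nil))) .nil))) (.nd (nat_lit 6) 
(.lf (nat_lit 46499) (.g (nat_lit 1547) (.e (nat_lit 1256) (nat_lit 92) (.e (nat_lit 98359) (nat_lit 26) (.e (nat_lit 426170) (nat_lit 7) (.e (nat_lit 409631) (nat_lit 12) (.e (nat_lit 32794) (nat_lit 14) (.e (nat_lit 2958) (nat_lit 185) (.e (nat_lit 442112) (nat_lit 0) .nil))))))) (.g (nat_lit 5) .nil .nil))) 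
(.lf (nat_lit 46563) (.g (nat_lit 1545) (.e (nat_lit 1256) (nat_lit 92) (.e (nat_lit 98359) (nat_lit 26) (.e (nat_lit 426286) (nat_lit 10) (.e (nat_lit 434227) (nat_lit 20) (.e (nat_lit 507930) (nat_lit 10) .nil))))) .nil)))) (.nd (nat_lit 5) (.nd (nat_lit 6) 
(.lf (nat_lit 46483) (.g (nat_lit 2053) (.e (nat_lit 1256) (nat_lit 92) (.e (nat_lit 98354) (nat_lit 26) (.e (nat_lit 426317) (nat_lit 12) (.e (nat_lit 475185) (nat_lit 29) (.e (nat_lit 557103) (nat_lit 14) (.e (nat_lit 188160) (nat_lit 32) .nil)))))) (.g (nat_lit 5) .nil .nil))) 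
(.lf (nat_lit 46547) (.g (nat_lit 2470) (.e (nat_lit 1256) (nat_lit 92) (.e (nat_lit 98359) (nat_lit 26) (.e (nat_lit 426285) (nat_lit 10) (.e (nat_lit 434227) (nat_lit 20) (.e (nat_lit 507930) (nat_lit 10) (.e (nat_lit 5763) (nat_lit 315) (.e (nat_lit 171776) (nat_lit 187) .nil))))))) (.g (nat_lit 6) .nil .nil)))) (.nd (nat_lit 6) 
(.lf (nat_lit 46515) (.g (nat_lit 3870) (.e (nat_lit 1256) (nat_lit 92) (.e (nat_lit 98359) (nat_lit 26) (.e (nat_lit 426211) (nat_lit 9) (.e (nat_lit 426125) (nat_lit 2) (.e (nat_lit 196677) (nat_lit 16) .nil))))) .nil)) 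
(.lf (nat_lit 46579) (.g (nat_lit 1884) (.e (nat_lit 1256) (nat_lit 92) (.e (nat_lit 98359) (nat_lit 26) (.e (nat_lit 426286) (nat_lit 10) (.e (nat_lit 434238) (nat_lit 25) (.e (nat_lit 548897) (nat_lit 14) (.e (nat_lit 2825) (nat_lit 182) (.e (nat_lit 409605) (nat_lit 0) (.e (nat_lit 5270) (nat_lit 298) .nil)))))))) (.g (nat_lit 4) .nil .nil)))))) 
(.nd (nat_lit 4) (.nd (nat_lit 5) (.nd (nat_lit 6) 
(.lf (nat_lit 46475) (.g (nat_lit 2612) (.e (nat_lit 1256) (nat_lit 92) (.e (nat_lit 98350) (nat_lit 24) (.e (nat_lit 409649) (nat_lit 18) (.e (nat_lit 303119) (nat_lit 3) (.e (nat_lit 204861) (nat_lit 26) .nil))))) .nil)) 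
(.lf (nat_lit 46539) (.g (nat_lit 2235) (.e (nat_lit 1256) (nat_lit 92) (.e (nat_lit 98359) (nat_lit 26) (.e (nat_lit 426285) (nat_lit 10) (.e (nat_lit 434227) (nat_lit 20) (.e (nat_lit 507929) (nat_lit 10) (.e (nat_lit 5758) (nat_lit 315) (.e (nat_lit 171776) (nat_lit 187) .nil))))))) (.g (nat_lit 5) .nil .nil)))) (.nd (nat_lit 6) 
(.lf (nat_lit 46507) (.g (nat_lit 2301) (.e (nat_lit 1256) (nat_lit 92) (.e (nat_lit 98359) (nat_lit 26) (.e (nat_lit 426171) (nat_lit 7) (.e (nat_lit 409631) (nat_lit 12) (.e (nat_lit 32794) (nat_lit 14) (.e (nat_lit 2975) (nat_lit 185) (.e (nat_lit 442112) (nat_lit 0) .nil))))))) (.g (nat_lit 6) .nil .nil))) 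
(.lf (nat_lit 46571) (.g (nat_lit 2950) (.e (nat_lit 1256) (nat_lit 92) (.e (nat_lit 98359) (nat_lit 26) (.e (nat_lit 426286) (nat_lit 10) (.e (nat_lit 434231) (nat_lit 23) (.e (nat_lit 532525) (nat_lit 8) (.e (nat_lit 327708) (nat_lit 10) (.e (nat_lit 5270) (nat_lit 298) .nil))))))) (.g (nat_lit 5) .nil .nil))))) (.nd (nat_lit 5) (.nd (nat_lit 6) 
(.lf (nat_lit 46491) (.g (nat_lit 1239) (.e (nat_lit 1256) (nat_lit 92) (.e (nat_lit 98356) (nat_lit 26) (.e (nat_lit 426438) (nat_lit 18) (.e (nat_lit 98335) (nat_lit 18) .nil)))) .nil)) 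
(.lf (nat_lit 46555) (.g (nat_lit 2375) (.e (nat_lit 1256) (nat_lit 92) (.e (nat_lit 98359) (nat_lit 26) (.e (nat_lit 426285) (nat_lit 10) (.e (nat_lit 434238) (nat_lit 25) (.e (nat_lit 548914) (nat_lit 19) (.e (nat_lit 188160) (nat_lit 32) .nil)))))) (.g (nat_lit 5) .nil .nil)))) (.nd (nat_lit 6) 
(.lf (nat_lit 46523) (.g (nat_lit 1803) (.e (nat_lit 1256) (nat_lit 92) (.e (nat_lit 98359) (nat_lit 26) (.e (nat_lit 426211) (nat_lit 9) (.e (nat_lit 426125) (nat_lit 2) (.e (nat_lit 204544) (nat_lit 18) (.e (nat_lit 2768) (nat_lit 177) (.e (nat_lit 278552) (nat_lit 10) (.e (nat_lit 5271) (nat_lit 298) .nil)))))))) (.g (nat_lit 4) .nil .nil))) 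
(.lf (nat_lit 46587) (.g (nat_lit 2380) (.e (nat_lit 1256) (nat_lit 92) (.e (nat_lit 98359) (nat_lit 26) (.e (nat_lit 426286) (nat_lit 10) (.e (nat_lit 434238) (nat_lit 25) (.e (nat_lit 548914) (nat_lit 19) (.e (nat_lit 188160) (nat_lit 32) .nil)))))) (.g (nat_lit 5) .nil .nil))))))) (.nd (nat_lit 3) (.nd (nat_lit 4) (.nd (nat_lit 5) (.nd (nat_lit 6) 
(.lf (nat_lit 46471) (.g (nat_lit 2379) (.e (nat_lit 1256) (nat_lit 92) (.e (nat_lit 98350) (nat_lit 24) (.e (nat_lit 409649) (nat_lit 18) (.e (nat_lit 303119) (nat_lit 3) (.e (nat_lit 204819) (nat_lit 17) .nil))))) .nil)) 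
(.lf (nat_lit 46535) (.g (nat_lit 476) (.e (nat_lit 1256) (nat_lit 92) (.e (nat_lit 98359) (nat_lit 26) (.e (nat_lit 426285) (nat_lit 10) .nil))) .nil))) (.nd (nat_lit 6) 
(.lf (nat_lit 46503) (.g (nat_lit 1037) (.e (nat_lit 1256) (nat_lit 92) (.e (nat_lit 98359) (nat_lit 26) (.e (nat_lit 426171) (nat_lit 7) (.e (nat_lit 409631) (nat_lit 12) .nil)))) .nil)) 
(.lf (nat_lit 46567) (.g (nat_lit 2214) (.e (nat_lit 1256) (nat_lit 92) (.e (nat_lit 98359) (nat_lit 26) (.e (nat_lit 426286) (nat_lit 10) (.e (nat_lit 434227) (nat_lit 20) (.e (nat_lit 507930) (nat_lit 10) (.e (nat_lit 5762) (nat_lit 315) (.e (nat_lit 171776) (nat_lit 187) .nil))))))) (.g (nat_lit 6) .nil .nil))))) (.nd (nat_lit 5) (.nd (nat_lit 6) 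
(.lf (nat_lit 46487) (.g (nat_lit 2188) (.e (nat_lit 1256) (nat_lit 92) (.e (nat_lit 98356) (nat_lit 26) (.e (nat_lit 426428) (nat_lit 17) (.e (nat_lit 90174) (nat_lit 14) (.e (nat_lit 180243) (nat_lit 5) .nil))))) .nil)) 
(.lf (nat_lit 46551) (.g (nat_lit 1631) (.e (nat_lit 1256) (nat_lit 92) (.e (nat_lit 98359) (nat_lit 26) (.e (nat_lit 426285) (nat_lit 10) (.e (nat_lit 434233) (nat_lit 23) (.e (nat_lit 532523) (nat_lit 7) (.e (nat_lit 319504) (nat_lit 10) (.e (nat_lit 7936) (nat_lit 298) .nil))))))) (.g (nat_lit 4) .nil .nil)))) (.nd (nat_lit 6) 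
(.lf (nat_lit 46519) (.g (nat_lit 1741) (.e (nat_lit 1256) (nat_lit 92) (.e (nat_lit 98359) (nat_lit 26) (.e (nat_lit 426211) (nat_lit 9) (.e (nat_lit 426125) (nat_lit 2) (.e (nat_lit 204544) (nat_lit 18) .nil))))) .nil)) 
(.lf (nat_lit 46583) (.g (nat_lit 3873) (.e (nat_lit 1256) (nat_lit 92) (.e (nat_lit 98359) (nat_lit 26) (.e (nat_lit 426286) (nat_lit 10) (.e (nat_lit 434238) (nat_lit 25) (.e (nat_lit 548898) (nat_lit 14) (.e (nat_lit 2825) (nat_lit 182) (.e (nat_lit 409605) (nat_lit 0) (.e (nat_lit 5270) (nat_lit 298) .nil)))))))) (.g (nat_lit 0) .nil .nil)))))) 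
(.nd (nat_lit 4) (.nd (nat_lit 5) (.nd (nat_lit 6) 
(.lf (nat_lit 46479) (.g (nat_lit 725) (.e (nat_lit 1256) (nat_lit 92) (.e (nat_lit 98350) (nat_lit 24) (.e (nat_lit 417536) (nat_lit 18) .nil))) .nil)) 
(.lf (nat_lit 46543) (.g (nat_lit 2486) (.e (nat_lit 1256) (nat_lit 92) (.e (nat_lit 98359) (nat_lit 26) (.e (nat_lit 426285) (nat_lit 10) (.e (nat_lit 434227) (nat_lit 20) (.e (nat_lit 507930) (nat_lit 10) (.e (nat_lit 5756) (nat_lit 315) (.e (nat_lit 171776) (nat_lit 187) .nil))))))) (.g (nat_lit 6) .nil .nil)))) (.nd (nat_lit 6) 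
(.lf (nat_lit 46511) (.g (nat_lit 3466) (.e (nat_lit 1256) (nat_lit 92) (.e (nat_lit 98359) (nat_lit 26) (.e (nat_lit 426211) (nat_lit 9) (.e (nat_lit 426125) (nat_lit 2) (.e (nat_lit 196617) (nat_lit 9) .nil))))) .nil)) 
(.lf (nat_lit 46575) (.g (nat_lit 1169) (.e (nat_lit 1256) (nat_lit 92) (.e (nat_lit 98359) (nat_lit 26) (.e (nat_lit 426286) (nat_lit 10) (.e (nat_lit 434238) (nat_lit 25) .nil)))) .nil)))) (.nd (nat_lit 5) (.nd (nat_lit 6) 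
(.lf (nat_lit 46495) (.g (nat_lit 2674) (.e (nat_lit 1256) (nat_lit 92) (.e (nat_lit 98356) (nat_lit 26) (.e (nat_lit 426438) (nat_lit 18) (.e (nat_lit 98367) (nat_lit 27) (.e (nat_lit 434227) (nat_lit 20) (.e (nat_lit 507917) (nat_lit 2) (.e (nat_lit 48896) (nat_lit 0) .nil))))))) (.g (nat_lit 4) .nil .nil))) 
(.lf (nat_lit 46559) (.g (nat_lit 1629) (.e (nat_lit 1256) (nat_lit 92) (.e (nat_lit 98359) (nat_lit 26) (.e (nat_lit 426286) (nat_lit 10) (.e (nat_lit 434227) (nat_lit 20) (.e (nat_lit 507928) (nat_lit 10) (.e (nat_lit 5763) (nat_lit 315) (.e (nat_lit 171776) (nat_lit 187) .nil))))))) (.g (nat_lit 4) .nil .nil)))) (.nd (nat_lit 6) 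
(.lf (nat_lit 46527) (.g (nat_lit 1203) (.e (nat_lit 1256) (nat_lit 92) (.e (nat_lit 98359) (nat_lit 26) (.e (nat_lit 426211) (nat_lit 9) (.e (nat_lit 426140) (nat_lit 3) .nil)))) .nil)) 
(.lf (nat_lit 46591) (.g (nat_lit 2362) (.e (nat_lit 1256) (nat_lit 92) (.e (nat_lit 98359) (nat_lit 26) (.e (nat_lit 426286) (nat_lit 10) (.e (nat_lit 434245) (nat_lit 28) (.e (nat_lit 573448) (nat_lit 9) (.e (nat_lit 473) (nat_lit 36) (.e (nat_lit 466688) (nat_lit 0) .nil))))))) (.g (nat_lit 6) .nil .nil))))))))))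

noncomputable def tv647 : DT := (.nd (nat_lit 0) (.nd (nat_lit 1) (.nd (nat_lit 2) (.nd (nat_lit 3) (.nd (nat_lit 4) (.nd (nat_lit 5) 
(.lf (nat_lit 46592) (.g (nat_lit 1716) (.e (nat_lit 1256) (nat_lit 92) (.e (nat_lit 98359) (nat_lit 26) (.e (nat_lit 426286) (nat_lit 10) (.e (nat_lit 434245) (nat_lit 28) (.e (nat_lit 573449) (nat_lit 9) .nil))))) .nil)) 
(.lf (nat_lit 46624) (.g (nat_lit 3080) (.e (nat_lit 1256) (nat_lit 92) (.e (nat_lit 98359) (nat_lit 26) (.e (nat_lit 426286) (nat_lit 10) (.e (nat_lit 434245) (nat_lit 28) (.e (nat_lit 573468) (nat_lit 10) (.e (nat_lit 8497) (nat_lit 182) (.e (nat_lit 123202) (nat_lit 270) .nil))))))) (.g (nat_lit 7) .nil .nil)))) (.nd (nat_lit 5) 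
(.lf (nat_lit 46608) (.g (nat_lit 1927) (.e (nat_lit 1256) (nat_lit 92) (.e (nat_lit 98359) (nat_lit 26) (.e (nat_lit 426286) (nat_lit 10) (.e (nat_lit 434245) (nat_lit 28) (.e (nat_lit 573451) (nat_lit 9) (.e (nat_lit 7936) (nat_lit 32) (.e (nat_lit 425984) (nat_lit 0) (.e (nat_lit 7489) (nat_lit 402) .nil)))))))) (.g (nat_lit 4) .nil .nil))) 
(.lf (nat_lit 46640) (.g (nat_lit 3217) (.e (nat_lit 1256) (nat_lit 92) (.e (nat_lit 98359) (nat_lit 26) (.e (nat_lit 426286) (nat_lit 10) (.e (nat_lit 434245) (nat_lit 28) (.e (nat_lit 573471) (nat_lit 11) (.e (nat_lit 16396) (nat_lit 0) (.e (nat_lit 7936) (nat_lit 402) .nil))))))) (.g (nat_lit 6) .nil .nil))))) (.nd (nat_lit 4) (.nd (nat_lit 5) 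
(.lf (nat_lit 46600) (.g (nat_lit 1807) (.e (nat_lit 1256) (nat_lit 92) (.e (nat_lit 98359) (nat_lit 26) (.e (nat_lit 426286) (nat_lit 10) (.e (nat_lit 434245) (nat_lit 28) (.e (nat_lit 573451) (nat_lit 9) .nil))))) .nil)) 
(.lf (nat_lit 46632) (.g (nat_lit 3447) (.e (nat_lit 1256) (nat_lit 92) (.e (nat_lit 98359) (nat_lit 26) (.e (nat_lit 426286) (nat_lit 10) (.e (nat_lit 434245) (nat_lit 28) (.e (nat_lit 573470) (nat_lit 11) (.e (nat_lit 16388) (nat_lit 0) (.e (nat_lit 7490) (nat_lit 402) .nil))))))) (.g (nat_lit 0) .nil .nil)))) (.nd (nat_lit 5) 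
(.lf (nat_lit 46616) (.g (nat_lit 1914) (.e (nat_lit 1256) (nat_lit 92) (.e (nat_lit 98359) (nat_lit 26) (.e (nat_lit 426286) (nat_lit 10) (.e (nat_lit 434245) (nat_lit 28) (.e (nat_lit 573458) (nat_lit 9) (.e (nat_lit 426) (nat_lit 32) (.e (nat_lit 426010) (nat_lit 0) (.e (nat_lit 7490) (nat_lit 402) .nil)))))))) (.g (nat_lit 4) .nil .nil))) 
(.lf (nat_lit 46648) (.g (nat_lit 1804) (.e (nat_lit 1256) (nat_lit 92) (.e (nat_lit 98359) (nat_lit 26) (.e (nat_lit 426286) (nat_lit 10) (.e (nat_lit 434247) (nat_lit 28) (.e (nat_lit 573456) (nat_lit 9) .nil))))) .nil))))) (.nd (nat_lit 3) (.nd (nat_lit 4) (.nd (nat_lit 5) 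
(.lf (nat_lit 46596) (.g (nat_lit 3360) (.e (nat_lit 1256) (nat_lit 92) (.e (nat_lit 98359) (nat_lit 26) (.e (nat_lit 426286) (nat_lit 10) (.e (nat_lit 434245) (nat_lit 28) (.e (nat_lit 573450) (nat_lit 9) (.e (nat_lit 442) (nat_lit 33) (.e (nat_lit 442112) (nat_lit 0) .nil))))))) (.g (nat_lit 6) .nil .nil))) 
(.lf (nat_lit 46628) (.g (nat_lit 1758) (.e (nat_lit 1256) (nat_lit 92) (.e (nat_lit 98359) (nat_lit 26) (.e (nat_lit 426286) (nat_lit 10) (.e (nat_lit 434245) (nat_lit 28) (.e (nat_lit 573470) (nat_lit 11) (.e (nat_lit 16386) (nat_lit 0) (.e (nat_lit 7490) (nat_lit 402) .nil))))))) (.g (nat_lit 4) .nil .nil)))) (.nd (nat_lit 5) 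
(.lf (nat_lit 46612) (.g (nat_lit 1802) (.e (nat_lit 1256) (nat_lit 92) (.e (nat_lit 98359) (nat_lit 26) (.e (nat_lit 426286) (nat_lit 10) (.e (nat_lit 434245) (nat_lit 28) (.e (nat_lit 573455) (nat_lit 9) .nil))))) .nil)) 
(.lf (nat_lit 46644) (.g (nat_lit 3739) (.e (nat_lit 1256) (nat_lit 92) (.e (nat_lit 98359) (nat_lit 26) (.e (nat_lit 426286) (nat_lit 10) (.e (nat_lit 434245) (nat_lit 28) (.e (nat_lit 573471) (nat_lit 11) (.e (nat_lit 16401) (nat_lit 0) (.e (nat_lit 7936) (nat_lit 402) .nil))))))) (.g (nat_lit 6) .nil .nil))))) (.nd (nat_lit 4) (.nd (nat_lit 5) 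
(.lf (nat_lit 46604) (.g (nat_lit 2606) (.e (nat_lit 1256) (nat_lit 92) (.e (nat_lit 98359) (nat_lit 26) (.e (nat_lit 426286) (nat_lit 10) (.e (nat_lit 434245) (nat_lit 28) (.e (nat_lit 573451) (nat_lit 9) (.e (nat_lit 365) (nat_lit 31) (.e (nat_lit 417795) (nat_lit 0) (.e (nat_lit 5258) (nat_lit 298) .nil)))))))) (.g (nat_lit 5) .nil .nil))) 
(.lf (nat_lit 46636) (.g (nat_lit 4385) (.e (nat_lit 1256) (nat_lit 92) (.e (nat_lit 98359) (nat_lit 26) (.e (nat_lit 426286) (nat_lit 10) (.e (nat_lit 434245) (nat_lit 28) (.e (nat_lit 573471) (nat_lit 11) (.e (nat_lit 16388) (nat_lit 0) (.e (nat_lit 7486) (nat_lit 402) .nil))))))) (.g (nat_lit 0) .nil .nil)))) (.nd (nat_lit 5) 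
(.lf (nat_lit 46620) (.g (nat_lit 1596) (.e (nat_lit 1256) (nat_lit 92) (.e (nat_lit 98359) (nat_lit 26) (.e (nat_lit 426286) (nat_lit 10) (.e (nat_lit 434245) (nat_lit 28) (.e (nat_lit 573468) (nat_lit 10) .nil))))) .nil)) 
(.lf (nat_lit 46652) (.g (nat_lit 2708) (.e (nat_lit 1256) (nat_lit 92) (.e (nat_lit 98359) (nat_lit 26) (.e (nat_lit 426286) (nat_lit 10) (.e (nat_lit 434247) (nat_lit 28) (.e (nat_lit 573456) (nat_lit 9) (.e (nat_lit 428) (nat_lit 32) (.e (nat_lit 425989) (nat_lit 0) (.e (nat_lit 7489) (nat_lit 402) .nil)))))))) (.g (nat_lit 5) .nil .nil))))))) 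
(.nd (nat_lit 2) (.nd (nat_lit 3) (.nd (nat_lit 4) (.nd (nat_lit 5) 
(.lf (nat_lit 46594) (.g (nat_lit 1716) (.e (nat_lit 1256) (nat_lit 92) (.e (nat_lit 98359) (nat_lit 26) (.e (nat_lit 426286) (nat_lit 10) (.e (nat_lit 434245) (nat_lit 28) (.e (nat_lit 573450) (nat_lit 9) .nil))))) .nil)) 
(.lf (nat_lit 46626) (.g (nat_lit 1744) (.e (nat_lit 1256) (nat_lit 92) (.e (nat_lit 98359) (nat_lit 26) (.e (nat_lit 426286) (nat_lit 10) (.e (nat_lit 434245) (nat_lit 28) (.e (nat_lit 573470) (nat_lit 11) .nil))))) .nil))) (.nd (nat_lit 5) 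
(.lf (nat_lit 46610) (.g (nat_lit 2669) (.e (nat_lit 1256) (nat_lit 92) (.e (nat_lit 98359) (nat_lit 26) (.e (nat_lit 426286) (nat_lit 10) (.e (nat_lit 434245) (nat_lit 28) (.e (nat_lit 573451) (nat_lit 9) (.e (nat_lit 7936) (nat_lit 33) (.e (nat_lit 442112) (nat_lit 0) .nil))))))) (.g (nat_lit 5) .nil .nil))) 
(.lf (nat_lit 46642) (.g (nat_lit 3352) (.e (nat_lit 1256) (nat_lit 92) (.e (nat_lit 98359) (nat_lit 26) (.e (nat_lit 426286) (nat_lit 10) (.e (nat_lit 434245) (nat_lit 28) (.e (nat_lit 573471) (nat_lit 11) (.e (nat_lit 16398) (nat_lit 0) (.e (nat_lit 7936) (nat_lit 402) .nil))))))) (.g (nat_lit 6) .nil .nil))))) (.nd (nat_lit 4) (.nd (nat_lit 5) 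
(.lf (nat_lit 46602) (.g (nat_lit 3144) (.e (nat_lit 1256) (nat_lit 92) (.e (nat_lit 98359) (nat_lit 26) (.e (nat_lit 426286) (nat_lit 10) (.e (nat_lit 434245) (nat_lit 28) (.e (nat_lit 573451) (nat_lit 9) (.e (nat_lit 62) (nat_lit 0) (.e (nat_lit 7089) (nat_lit 379) (.e (nat_lit 123202) (nat_lit 270) .nil)))))))) (.g (nat_lit 5) .nil .nil))) 
(.lf (nat_lit 46634) (.g (nat_lit 3026) (.e (nat_lit 1256) (nat_lit 92) (.e (nat_lit 98359) (nat_lit 26) (.e (nat_lit 426286) (nat_lit 10) (.e (nat_lit 434245) (nat_lit 28) (.e (nat_lit 573471) (nat_lit 11) (.e (nat_lit 16385) (nat_lit 0) (.e (nat_lit 7486) (nat_lit 402) .nil))))))) (.g (nat_lit 6) .nil .nil)))) (.nd (nat_lit 5) 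
(.lf (nat_lit 46618) (.g (nat_lit 2056) (.e (nat_lit 1256) (nat_lit 92) (.e (nat_lit 98359) (nat_lit 26) (.e (nat_lit 426286) (nat_lit 10) (.e (nat_lit 434245) (nat_lit 28) (.e (nat_lit 573458) (nat_lit 9) (.e (nat_lit 7936) (nat_lit 32) (.e (nat_lit 425990) (nat_lit 0) (.e (nat_lit 7489) (nat_lit 402) .nil)))))))) (.g (nat_lit 4) .nil .nil))) 
(.lf (nat_lit 46650) (.g (nat_lit 2803) (.e (nat_lit 1256) (nat_lit 92) (.e (nat_lit 98359) (nat_lit 26) (.e (nat_lit 426286) (nat_lit 10) (.e (nat_lit 434247) (nat_lit 28) (.e (nat_lit 573456) (nat_lit 9) (.e (nat_lit 428) (nat_lit 32) (.e (nat_lit 425984) (nat_lit 0) (.e (nat_lit 7489) (nat_lit 402) .nil)))))))) (.g (nat_lit 5) .nil .nil)))))) (.nd (nat_lit 3) (.nd (nat_lit 4) (.nd (nat_lit 5) 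
(.lf (nat_lit 46598) (.g (nat_lit 3058) (.e (nat_lit 1256) (nat_lit 92) (.e (nat_lit 98359) (nat_lit 26) (.e (nat_lit 426286) (nat_lit 10) (.e (nat_lit 434245) (nat_lit 28) (.e (nat_lit 573450) (nat_lit 9) (.e (nat_lit 452) (nat_lit 33) (.e (nat_lit 442112) (nat_lit 0) .nil))))))) (.g (nat_lit 6) .nil .nil))) 
(.lf (nat_lit 46630) (.g (nat_lit 2853) (.e (nat_lit 1256) (nat_lit 92) (.e (nat_lit 98359) (nat_lit 26) (.e (nat_lit 426286) (nat_lit 10) (.e (nat_lit 434245) (nat_lit 28) (.e (nat_lit 573470) (nat_lit 11) (.e (nat_lit 16387) (nat_lit 0) (.e (nat_lit 7490) (nat_lit 402) .nil))))))) (.g (nat_lit 0) .nil .nil)))) (.nd (nat_lit 5) 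
(.lf (nat_lit 46614) (.g (nat_lit 2999) (.e (nat_lit 1256) (nat_lit 92) (.e (nat_lit 98359) (nat_lit 26) (.e (nat_lit 426286) (nat_lit 10) (.e (nat_lit 434245) (nat_lit 28) (.e (nat_lit 573458) (nat_lit 9) (.e (nat_lit 420) (nat_lit 32) (.e (nat_lit 425984) (nat_lit 0) (.e (nat_lit 7489) (nat_lit 402) .nil)))))))) (.g (nat_lit 6) .nil .nil))) 
(.lf (nat_lit 46646) (.g (nat_lit 1930) (.e (nat_lit 1256) (nat_lit 92) (.e (nat_lit 98359) (nat_lit 26) (.e (nat_lit 426286) (nat_lit 10) (.e (nat_lit 434245) (nat_lit 28) (.e (nat_lit 573473) (nat_lit 12) (.e (nat_lit 57353) (nat_lit 0) (.e (nat_lit 7265) (nat_lit 384) (.e (nat_lit 57347) (nat_lit 0) (.e (nat_lit 7936) (nat_lit 343) .nil))))))))) (.g (nat_lit 4) .nil .nil))))) 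
(.nd (nat_lit 4) (.nd (nat_lit 5) 
(.lf (nat_lit 46606) (.g (nat_lit 2733) (.e (nat_lit 1256) (nat_lit 92) (.e (nat_lit 98359) (nat_lit 26) (.e (nat_lit 426286) (nat_lit 10) (.e (nat_lit 434245) (nat_lit 28) (.e (nat_lit 573451) (nat_lit 9) (.e (nat_lit 428) (nat_lit 32) (.e (nat_lit 425989) (nat_lit 0) (.e (nat_lit 7485) (nat_lit 402) .nil)))))))) (.g (nat_lit 5) .nil .nil))) 
(.lf (nat_lit 46638) (.g (nat_lit 3281) (.e (nat_lit 1256) (nat_lit 92) (.e (nat_lit 98359) (nat_lit 26) (.e (nat_lit 426286) (nat_lit 10) (.e (nat_lit 434245) (nat_lit 28) (.e (nat_lit 573471) (nat_lit 11) (.e (nat_lit 16390) (nat_lit 0) (.e (nat_lit 7936) (nat_lit 402) .nil))))))) (.g (nat_lit 6) .nil .nil)))) (.nd (nat_lit 5) 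
(.lf (nat_lit 46622) (.g (nat_lit 2522) (.e (nat_lit 1256) (nat_lit 92) (.e (nat_lit 98359) (nat_lit 26) (.e (nat_lit 426286) (nat_lit 10) (.e (nat_lit 434245) (nat_lit 28) (.e (nat_lit 573468) (nat_lit 10) (.e (nat_lit 8490) (nat_lit 180) (.e (nat_lit 1078) (nat_lit 81) (.e (nat_lit 5270) (nat_lit 298) .nil)))))))) (.g (nat_lit 5) .nil .nil))) 
(.lf (nat_lit 46654) (.g (nat_lit 2436) (.e (nat_lit 1256) (nat_lit 92) (.e (nat_lit 98359) (nat_lit 26) (.e (nat_lit 426286) (nat_lit 10) (.e (nat_lit 434247) (nat_lit 28) (.e (nat_lit 573456) (nat_lit 9) (.e (nat_lit 430) (nat_lit 32) (.e (nat_lit 426009) (nat_lit 0) (.e (nat_lit 7486) (nat_lit 402) .nil)))))))) (.g (nat_lit 5) .nil .nil)))))))) 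
(.nd (nat_lit 1) (.nd (nat_lit 2) (.nd (nat_lit 3) (.nd (nat_lit 4) (.nd (nat_lit 5) 
(.lf (nat_lit 46593) (.g (nat_lit 2706) (.e (nat_lit 1256) (nat_lit 92) (.e (nat_lit 98359) (nat_lit 26) (.e (nat_lit 426286) (nat_lit 10) (.e (nat_lit 434245) (nat_lit 28) (.e (nat_lit 573449) (nat_lit 9) (.e (nat_lit 449) (nat_lit 33) (.e (nat_lit 442112) (nat_lit 0) .nil))))))) (.g (nat_lit 5) .nil .nil))) 
(.lf (nat_lit 46625) (.g (nat_lit 3870) (.e (nat_lit 1256) (nat_lit 92) (.e (nat_lit 98359) (nat_lit 26) (.e (nat_lit 426286) (nat_lit 10) (.e (nat_lit 434245) (nat_lit 28) (.e (nat_lit 573469) (nat_lit 11) (.e (nat_lit 16388) (nat_lit 0) (.e (nat_lit 7486) (nat_lit 402) .nil))))))) (.g (nat_lit 7) .nil .nil)))) (.nd (nat_lit 5) 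
(.lf (nat_lit 46609) (.g (nat_lit 2033) (.e (nat_lit 1256) (nat_lit 92) (.e (nat_lit 98359) (nat_lit 26) (.e (nat_lit 426286) (nat_lit 10) (.e (nat_lit 434245) (nat_lit 28) (.e (nat_lit 573451) (nat_lit 9) (.e (nat_lit 7936) (nat_lit 32) (.e (nat_lit 425987) (nat_lit 0) (.e (nat_lit 7489) (nat_lit 402) .nil)))))))) (.g (nat_lit 4) .nil .nil))) 
(.lf (nat_lit 46641) (.g (nat_lit 3202) (.e (nat_lit 1256) (nat_lit 92) (.e (nat_lit 98359) (nat_lit 26) (.e (nat_lit 426286) (nat_lit 10) (.e (nat_lit 434245) (nat_lit 28) (.e (nat_lit 573471) (nat_lit 11) (.e (nat_lit 16397) (nat_lit 0) (.e (nat_lit 7936) (nat_lit 402) .nil))))))) (.g (nat_lit 6) .nil .nil))))) (.nd (nat_lit 4) (.nd (nat_lit 5) 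
(.lf (nat_lit 46601) (.g (nat_lit 2835) (.e (nat_lit 1256) (nat_lit 92) (.e (nat_lit 98359) (nat_lit 26) (.e (nat_lit 426286) (nat_lit 10) (.e (nat_lit 434245) (nat_lit 28) (.e (nat_lit 573451) (nat_lit 9) (.e (nat_lit 62) (nat_lit 0) (.e (nat_lit 7087) (nat_lit 379) (.e (nat_lit 123202) (nat_lit 270) .nil)))))))) (.g (nat_lit 5) .nil .nil))) 
(.lf (nat_lit 46633) (.g (nat_lit 1612) (.e (nat_lit 1256) (nat_lit 92) (.e (nat_lit 98359) (nat_lit 26) (.e (nat_lit 426286) (nat_lit 10) (.e (nat_lit 434245) (nat_lit 28) (.e (nat_lit 573471) (nat_lit 11) .nil))))) .nil))) (.nd (nat_lit 5) 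
(.lf (nat_lit 46617) (.g (nat_lit 2066) (.e (nat_lit 1256) (nat_lit 92) (.e (nat_lit 98359) (nat_lit 26) (.e (nat_lit 426286) (nat_lit 10) (.e (nat_lit 434245) (nat_lit 28) (.e (nat_lit 573458) (nat_lit 9) (.e (nat_lit 7936) (nat_lit 32) (.e (nat_lit 425989) (nat_lit 0) (.e (nat_lit 7489) (nat_lit 402) .nil)))))))) (.g (nat_lit 4) .nil .nil))) 
(.lf (nat_lit 46649) (.g (nat_lit 2409) (.e (nat_lit 1256) (nat_lit 92) (.e (nat_lit 98359) (nat_lit 26) (.e (nat_lit 426286) (nat_lit 10) (.e (nat_lit 434247) (nat_lit 28) (.e (nat_lit 573456) (nat_lit 9) (.e (nat_lit 365) (nat_lit 31) (.e (nat_lit 417796) (nat_lit 0) (.e (nat_lit 5258) (nat_lit 298) .nil)))))))) (.g (nat_lit 5) .nil .nil)))))) (.nd (nat_lit 3) (.nd (nat_lit 4) (.nd (nat_lit 5) 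
(.lf (nat_lit 46597) (.g (nat_lit 3192) (.e (nat_lit 1256) (nat_lit 92) (.e (nat_lit 98359) (nat_lit 26) (.e (nat_lit 426286) (nat_lit 10) (.e (nat_lit 434245) (nat_lit 28) (.e (nat_lit 573450) (nat_lit 9) (.e (nat_lit 449) (nat_lit 33) (.e (nat_lit 442112) (nat_lit 0) .nil))))))) (.g (nat_lit 6) .nil .nil))) 
(.lf (nat_lit 46629) (.g (nat_lit 2985) (.e (nat_lit 1256) (nat_lit 92) (.e (nat_lit 98359) (nat_lit 26) (.e (nat_lit 426286) (nat_lit 10) (.e (nat_lit 434245) (nat_lit 28) (.e (nat_lit 573470) (nat_lit 11) (.e (nat_lit 16387) (nat_lit 0) (.e (nat_lit 7486) (nat_lit 402) .nil))))))) (.g (nat_lit 0) .nil .nil)))) (.nd (nat_lit 5) 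
(.lf (nat_lit 46613) (.g (nat_lit 1760) (.e (nat_lit 1256) (nat_lit 92) (.e (nat_lit 98359) (nat_lit 26) (.e (nat_lit 426286) (nat_lit 10) (.e (nat_lit 434245) (nat_lit 28) (.e (nat_lit 573458) (nat_lit 9) .nil))))) .nil)) 
(.lf (nat_lit 46645) (.g (nat_lit 3614) (.e (nat_lit 1256) (nat_lit 92) (.e (nat_lit 98359) (nat_lit 26) (.e (nat_lit 426286) (nat_lit 10) (.e (nat_lit 434245) (nat_lit 28) (.e (nat_lit 573471) (nat_lit 11) (.e (nat_lit 16402) (nat_lit 0) (.e (nat_lit 7936) (nat_lit 402) .nil))))))) (.g (nat_lit 6) .nil .nil))))) (.nd (nat_lit 4) (.nd (nat_lit 5) 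
(.lf (nat_lit 46605) (.g (nat_lit 2772) (.e (nat_lit 1256) (nat_lit 92) (.e (nat_lit 98359) (nat_lit 26) (.e (nat_lit 426286) (nat_lit 10) (.e (nat_lit 434245) (nat_lit 28) (.e (nat_lit 573451) (nat_lit 9) (.e (nat_lit 365) (nat_lit 31) (.e (nat_lit 417796) (nat_lit 0) (.e (nat_lit 5258) (nat_lit 298) .nil)))))))) (.g (nat_lit 5) .nil .nil))) 
(.lf (nat_lit 46637) (.g (nat_lit 4134) (.e (nat_lit 1256) (nat_lit 92) (.e (nat_lit 98359) (nat_lit 26) (.e (nat_lit 426286) (nat_lit 10) (.e (nat_lit 434245) (nat_lit 28) (.e (nat_lit 573471) (nat_lit 11) (.e (nat_lit 16388) (nat_lit 0) (.e (nat_lit 7490) (nat_lit 402) .nil))))))) (.g (nat_lit 0) .nil .nil)))) (.nd (nat_lit 5) 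
(.lf (nat_lit 46621) (.g (nat_lit 2670) (.e (nat_lit 1256) (nat_lit 92) (.e (nat_lit 98359) (nat_lit 26) (.e (nat_lit 426286) (nat_lit 10) (.e (nat_lit 434245) (nat_lit 28) (.e (nat_lit 573468) (nat_lit 10) (.e (nat_lit 8490) (nat_lit 180) (.e (nat_lit 979) (nat_lit 81) (.e (nat_lit 5270) (nat_lit 298) .nil)))))))) (.g (nat_lit 5) .nil .nil))) 
(.lf (nat_lit 46653) (.g (nat_lit 2675) (.e (nat_lit 1256) (nat_lit 92) (.e (nat_lit 98359) (nat_lit 26) (.e (nat_lit 426286) (nat_lit 10) (.e (nat_lit 434247) (nat_lit 28) (.e (nat_lit 573456) (nat_lit 9) (.e (nat_lit 428) (nat_lit 32) (.e (nat_lit 425990) (nat_lit 0) (.e (nat_lit 7489) (nat_lit 402) .nil)))))))) (.g (nat_lit 5) .nil .nil))))))) 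
(.nd (nat_lit 2) (.nd (nat_lit 3) (.nd (nat_lit 4) (.nd (nat_lit 5) 
(.lf (nat_lit 46595) (.g (nat_lit 4839) (.e (nat_lit 1256) (nat_lit 92) (.e (nat_lit 98359) (nat_lit 26) (.e (nat_lit 426286) (nat_lit 10) (.e (nat_lit 434245) (nat_lit 28) (.e (nat_lit 573450) (nat_lit 9) (.e (nat_lit 375) (nat_lit 32) (.e (nat_lit 426025) (nat_lit 0) (.e (nat_lit 7936) (nat_lit 402) .nil)))))))) (.g (nat_lit 7) .nil .nil))) 
(.lf (nat_lit 46627) (.g (nat_lit 2416) (.e (nat_lit 1256) (nat_lit 92) (.e (nat_lit 98359) (nat_lit 26) (.e (nat_lit 426286) (nat_lit 10) (.e (nat_lit 434245) (nat_lit 28) (.e (nat_lit 573470) (nat_lit 11) (.e (nat_lit 16385) (nat_lit 0) (.e (nat_lit 7486) (nat_lit 402) .nil))))))) (.g (nat_lit 6) .nil .nil)))) (.nd (nat_lit 5) 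
(.lf (nat_lit 46611) (.g (nat_lit 2669) (.e (nat_lit 1256) (nat_lit 92) (.e (nat_lit 98359) (nat_lit 26) (.e (nat_lit 426286) (nat_lit 10) (.e (nat_lit 434245) (nat_lit 28) (.e (nat_lit 573451) (nat_lit 9) (.e (nat_lit 7936) (nat_lit 36) (.e (nat_lit 466688) (nat_lit 0) .nil))))))) (.g (nat_lit 5) .nil .nil))) 
(.lf (nat_lit 46643) (.g (nat_lit 3693) (.e (nat_lit 1256) (nat_lit 92) (.e (nat_lit 98359) (nat_lit 26) (.e (nat_lit 426286) (nat_lit 10) (.e (nat_lit 434245) (nat_lit 28) (.e (nat_lit 573471) (nat_lit 11) (.e (nat_lit 16399) (nat_lit 0) (.e (nat_lit 7936) (nat_lit 402) .nil))))))) (.g (nat_lit 6) .nil .nil))))) (.nd (nat_lit 4) (.nd (nat_lit 5) 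
(.lf (nat_lit 46603) (.g (nat_lit 2123) (.e (nat_lit 1256) (nat_lit 92) (.e (nat_lit 98359) (nat_lit 26) (.e (nat_lit 426286) (nat_lit 10) (.e (nat_lit 434245) (nat_lit 28) (.e (nat_lit 573451) (nat_lit 9) (.e (nat_lit 7936) (nat_lit 0) (.e (nat_lit 7089) (nat_lit 379) (.e (nat_lit 123202) (nat_lit 270) .nil)))))))) (.g (nat_lit 4) .nil .nil))) 
(.lf (nat_lit 46635) (.g (nat_lit 3488) (.e (nat_lit 1256) (nat_lit 92) (.e (nat_lit 98359) (nat_lit 26) (.e (nat_lit 426286) (nat_lit 10) (.e (nat_lit 434245) (nat_lit 28) (.e (nat_lit 573471) (nat_lit 11) (.e (nat_lit 16386) (nat_lit 0) (.e (nat_lit 7486) (nat_lit 402) .nil))))))) (.g (nat_lit 0) .nil .nil)))) (.nd (nat_lit 5) 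
(.lf (nat_lit 46619) (.g (nat_lit 2722) (.e (nat_lit 1256) (nat_lit 92) (.e (nat_lit 98359) (nat_lit 26) (.e (nat_lit 426286) (nat_lit 10) (.e (nat_lit 434245) (nat_lit 28) (.e (nat_lit 573458) (nat_lit 9) (.e (nat_lit 7936) (nat_lit 36) (.e (nat_lit 466688) (nat_lit 0) .nil))))))) (.g (nat_lit 5) .nil .nil))) 
(.lf (nat_lit 46651) (.g (nat_lit 2743) (.e (nat_lit 1256) (nat_lit 92) (.e (nat_lit 98359) (nat_lit 26) (.e (nat_lit 426286) (nat_lit 10) (.e (nat_lit 434247) (nat_lit 28) (.e (nat_lit 573456) (nat_lit 9) (.e (nat_lit 428) (nat_lit 32) (.e (nat_lit 425987) (nat_lit 0) (.e (nat_lit 7489) (nat_lit 402) .nil)))))))) (.g (nat_lit 5) .nil .nil)))))) (.nd (nat_lit 3) (.nd (nat_lit 4) (.nd (nat_lit 5) 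
(.lf (nat_lit 46599) (.g (nat_lit 3224) (.e (nat_lit 1256) (nat_lit 92) (.e (nat_lit 98359) (nat_lit 26) (.e (nat_lit 426286) (nat_lit 10) (.e (nat_lit 434245) (nat_lit 28) (.e (nat_lit 573450) (nat_lit 9) (.e (nat_lit 473) (nat_lit 36) (.e (nat_lit 466688) (nat_lit 0) .nil))))))) (.g (nat_lit 6) .nil .nil))) 
(.lf (nat_lit 46631) (.g (nat_lit 3507) (.e (nat_lit 1256) (nat_lit 92) (.e (nat_lit 98359) (nat_lit 26) (.e (nat_lit 426286) (nat_lit 10) (.e (nat_lit 434245) (nat_lit 28) (.e (nat_lit 573470) (nat_lit 11) (.e (nat_lit 16388) (nat_lit 0) (.e (nat_lit 7486) (nat_lit 402) .nil))))))) (.g (nat_lit 0) .nil .nil)))) (.nd (nat_lit 5) 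
(.lf (nat_lit 46615) (.g (nat_lit 1935) (.e (nat_lit 1256) (nat_lit 92) (.e (nat_lit 98359) (nat_lit 26) (.e (nat_lit 426286) (nat_lit 10) (.e (nat_lit 434245) (nat_lit 28) (.e (nat_lit 573458) (nat_lit 9) (.e (nat_lit 420) (nat_lit 32) (.e (nat_lit 425990) (nat_lit 0) (.e (nat_lit 7489) (nat_lit 402) .nil)))))))) (.g (nat_lit 4) .nil .nil))) 
(.lf (nat_lit 46647) (.g (nat_lit 1107) (.e (nat_lit 1256) (nat_lit 92) (.e (nat_lit 98359) (nat_lit 26) (.e (nat_lit 426286) (nat_lit 10) (.e (nat_lit 434247) (nat_lit 28) .nil)))) .nil)))) (.nd (nat_lit 4) (.nd (nat_lit 5) 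
(.lf (nat_lit 46607) (.g (nat_lit 2690) (.e (nat_lit 1256) (nat_lit 92) (.e (nat_lit 98359) (nat_lit 26) (.e (nat_lit 426286) (nat_lit 10) (.e (nat_lit 434245) (nat_lit 28) (.e (nat_lit 573451) (nat_lit 9) (.e (nat_lit 430) (nat_lit 32) (.e (nat_lit 426009) (nat_lit 0) (.e (nat_lit 7486) (nat_lit 402) .nil)))))))) (.g (nat_lit 5) .nil .nil))) 
(.lf (nat_lit 46639) (.g (nat_lit 3374) (.e (nat_lit 1256) (nat_lit 92) (.e (nat_lit 98359) (nat_lit 26) (.e (nat_lit 426286) (nat_lit 10) (.e (nat_lit 434245) (nat_lit 28) (.e (nat_lit 573471) (nat_lit 11) (.e (nat_lit 16392) (nat_lit 0) (.e (nat_lit 7936) (nat_lit 402) .nil))))))) (.g (nat_lit 6) .nil .nil)))) (.nd (nat_lit 5) 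
(.lf (nat_lit 46623) (.g (nat_lit 2756) (.e (nat_lit 1256) (nat_lit 92) (.e (nat_lit 98359) (nat_lit 26) (.e (nat_lit 426286) (nat_lit 10) (.e (nat_lit 434245) (nat_lit 28) (.e (nat_lit 573468) (nat_lit 10) (.e (nat_lit 8492) (nat_lit 180) (.e (nat_lit 1074) (nat_lit 81) (.e (nat_lit 5270) (nat_lit 298) .nil)))))))) (.g (nat_lit 5) .nil .nil))) 
(.lf (nat_lit 46655) (.g (nat_lit 2496) (.e (nat_lit 1256) (nat_lit 92) (.e (nat_lit 98359) (nat_lit 26) (.e (nat_lit 426286) (nat_lit 10) (.e (nat_lit 434247) (nat_lit 28) (.e (nat_lit 573456) (nat_lit 9) (.e (nat_lit 7936) (nat_lit 33) (.e (nat_lit 442112) (nat_lit 0) .nil))))))) (.g (nat_lit 5) .nil .nil)))))))))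

noncomputable def tv648 : DT := (.nd (nat_lit 0) (.nd (nat_lit 1) (.nd (nat_lit 2) (.nd (nat_lit 3) (.nd (nat_lit 4) (.nd (nat_lit 5) 
(.lf (nat_lit 46656) (.g (nat_lit 1697) (.e (nat_lit 1256) (nat_lit 92) (.e (nat_lit 98359) (nat_lit 26) (.e (nat_lit 426286) (nat_lit 10) (.e (nat_lit 434247) (nat_lit 28) (.e (nat_lit 573457) (nat_lit 9) .nil))))) .nil)) 
(.lf (nat_lit 46688) (.g (nat_lit 2166) (.e (nat_lit 1256) (nat_lit 92) (.e (nat_lit 98359) (nat_lit 26) (.e (nat_lit 426286) (nat_lit 10) (.e (nat_lit 434248) (nat_lit 28) (.e (nat_lit 573457) (nat_lit 9) .nil))))) .nil))) (.nd (nat_lit 5) 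
(.lf (nat_lit 46672) (.g (nat_lit 3158) (.e (nat_lit 1256) (nat_lit 92) (.e (nat_lit 98359) (nat_lit 26) (.e (nat_lit 426286) (nat_lit 10) (.e (nat_lit 434248) (nat_lit 28) (.e (nat_lit 573450) (nat_lit 9) (.e (nat_lit 442) (nat_lit 33) (.e (nat_lit 442112) (nat_lit 0) .nil))))))) (.g (nat_lit 6) .nil .nil))) 
(.lf (nat_lit 46704) (.g (nat_lit 2046) (.e (nat_lit 1256) (nat_lit 92) (.e (nat_lit 98359) (nat_lit 26) (.e (nat_lit 426286) (nat_lit 10) (.e (nat_lit 434248) (nat_lit 28) (.e (nat_lit 573473) (nat_lit 12) (.e (nat_lit 57353) (nat_lit 0) (.e (nat_lit 7265) (nat_lit 384) (.e (nat_lit 57347) (nat_lit 0) (.e (nat_lit 7936) (nat_lit 343) .nil))))))))) (.g (nat_lit 4) .nil .nil))))) 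
(.nd (nat_lit 4) (.nd (nat_lit 5) 
(.lf (nat_lit 46664) (.g (nat_lit 1078) (.e (nat_lit 1256) (nat_lit 92) (.e (nat_lit 98359) (nat_lit 26) (.e (nat_lit 426286) (nat_lit 10) (.e (nat_lit 434248) (nat_lit 28) .nil)))) .nil)) 
(.lf (nat_lit 46696) (.g (nat_lit 3123) (.e (nat_lit 1256) (nat_lit 92) (.e (nat_lit 98359) (nat_lit 26) (.e (nat_lit 426286) (nat_lit 10) (.e (nat_lit 434248) (nat_lit 28) (.e (nat_lit 573470) (nat_lit 11) (.e (nat_lit 16387) (nat_lit 0) (.e (nat_lit 7486) (nat_lit 402) .nil))))))) (.g (nat_lit 0) .nil .nil)))) (.nd (nat_lit 5) 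
(.lf (nat_lit 46680) (.g (nat_lit 2719) (.e (nat_lit 1256) (nat_lit 92) (.e (nat_lit 98359) (nat_lit 26) (.e (nat_lit 426286) (nat_lit 10) (.e (nat_lit 434248) (nat_lit 28) (.e (nat_lit 573452) (nat_lit 9) (.e (nat_lit 365) (nat_lit 31) (.e (nat_lit 417796) (nat_lit 0) (.e (nat_lit 5258) (nat_lit 298) .nil)))))))) (.g (nat_lit 5) .nil .nil))) 
(.lf (nat_lit 46712) (.g (nat_lit 2771) (.e (nat_lit 1256) (nat_lit 92) (.e (nat_lit 98359) (nat_lit 26) (.e (nat_lit 426310) (nat_lit 12) (.e (nat_lit 475185) (nat_lit 29) (.e (nat_lit 557103) (nat_lit 14) (.e (nat_lit 188160) (nat_lit 32) .nil)))))) (.g (nat_lit 5) .nil .nil)))))) (.nd (nat_lit 3) (.nd (nat_lit 4) (.nd (nat_lit 5) 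
(.lf (nat_lit 46660) (.g (nat_lit 2210) (.e (nat_lit 1256) (nat_lit 92) (.e (nat_lit 98359) (nat_lit 26) (.e (nat_lit 426286) (nat_lit 10) (.e (nat_lit 434247) (nat_lit 28) (.e (nat_lit 573457) (nat_lit 9) (.e (nat_lit 7936) (nat_lit 36) (.e (nat_lit 466688) (nat_lit 0) .nil))))))) (.g (nat_lit 5) .nil .nil))) 
(.lf (nat_lit 46692) (.g (nat_lit 4040) (.e (nat_lit 1256) (nat_lit 92) (.e (nat_lit 98359) (nat_lit 26) (.e (nat_lit 426286) (nat_lit 10) (.e (nat_lit 434248) (nat_lit 28) (.e (nat_lit 573469) (nat_lit 11) (.e (nat_lit 16388) (nat_lit 0) (.e (nat_lit 7490) (nat_lit 402) .nil))))))) (.g (nat_lit 7) .nil .nil)))) (.nd (nat_lit 5) 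
(.lf (nat_lit 46676) (.g (nat_lit 2919) (.e (nat_lit 1256) (nat_lit 92) (.e (nat_lit 98359) (nat_lit 26) (.e (nat_lit 426286) (nat_lit 10) (.e (nat_lit 434248) (nat_lit 28) (.e (nat_lit 573452) (nat_lit 9) (.e (nat_lit 61) (nat_lit 0) (.e (nat_lit 7087) (nat_lit 379) (.e (nat_lit 123202) (nat_lit 270) .nil)))))))) (.g (nat_lit 6) .nil .nil))) 
(.lf (nat_lit 46708) (.g (nat_lit 3362) (.e (nat_lit 1256) (nat_lit 92) (.e (nat_lit 98359) (nat_lit 26) (.e (nat_lit 426305) (nat_lit 12) (.e (nat_lit 475183) (nat_lit 29) (.e (nat_lit 557103) (nat_lit 14) (.e (nat_lit 188160) (nat_lit 32) .nil)))))) (.g (nat_lit 5) .nil .nil))))) (.nd (nat_lit 4) (.nd (nat_lit 5) 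
(.lf (nat_lit 46668) (.g (nat_lit 3256) (.e (nat_lit 1256) (nat_lit 92) (.e (nat_lit 98359) (nat_lit 26) (.e (nat_lit 426286) (nat_lit 10) (.e (nat_lit 434248) (nat_lit 28) (.e (nat_lit 573449) (nat_lit 9) (.e (nat_lit 473) (nat_lit 36) (.e (nat_lit 466688) (nat_lit 0) .nil))))))) (.g (nat_lit 6) .nil .nil))) 
(.lf (nat_lit 46700) (.g (nat_lit 4114) (.e (nat_lit 1256) (nat_lit 92) (.e (nat_lit 98359) (nat_lit 26) (.e (nat_lit 426286) (nat_lit 10) (.e (nat_lit 434248) (nat_lit 28) (.e (nat_lit 573471) (nat_lit 11) (.e (nat_lit 16387) (nat_lit 0) (.e (nat_lit 7486) (nat_lit 402) .nil))))))) (.g (nat_lit 6) .nil .nil)))) (.nd (nat_lit 5) 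
(.lf (nat_lit 46684) (.g (nat_lit 3954) (.e (nat_lit 1256) (nat_lit 92) (.e (nat_lit 98359) (nat_lit 26) (.e (nat_lit 426286) (nat_lit 10) (.e (nat_lit 434248) (nat_lit 28) (.e (nat_lit 573452) (nat_lit 9) (.e (nat_lit 430) (nat_lit 32) (.e (nat_lit 426011) (nat_lit 0) (.e (nat_lit 7490) (nat_lit 402) .nil)))))))) (.g (nat_lit 0) .nil .nil))) 
(.lf (nat_lit 46716) (.g (nat_lit 2342) (.e (nat_lit 1256) (nat_lit 92) (.e (nat_lit 98359) (nat_lit 26) (.e (nat_lit 426312) (nat_lit 12) (.e (nat_lit 475184) (nat_lit 29) (.e (nat_lit 557105) (nat_lit 14) (.e (nat_lit 188160) (nat_lit 32) .nil)))))) (.g (nat_lit 5) .nil .nil))))))) (.nd (nat_lit 2) (.nd (nat_lit 3) (.nd (nat_lit 4) (.nd (nat_lit 5) 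
(.lf (nat_lit 46658) (.g (nat_lit 1814) (.e (nat_lit 1256) (nat_lit 92) (.e (nat_lit 98359) (nat_lit 26) (.e (nat_lit 426286) (nat_lit 10) (.e (nat_lit 434247) (nat_lit 28) (.e (nat_lit 573457) (nat_lit 9) (.e (nat_lit 7936) (nat_lit 32) (.e (nat_lit 425989) (nat_lit 0) (.e (nat_lit 7485) (nat_lit 402) .nil)))))))) (.g (nat_lit 4) .nil .nil))) 
(.lf (nat_lit 46690) (.g (nat_lit 2511) (.e (nat_lit 1256) (nat_lit 92) (.e (nat_lit 98359) (nat_lit 26) (.e (nat_lit 426286) (nat_lit 10) (.e (nat_lit 434248) (nat_lit 28) (.e (nat_lit 573468) (nat_lit 10) .nil))))) .nil))) (.nd (nat_lit 5) 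
(.lf (nat_lit 46674) (.g (nat_lit 1913) (.e (nat_lit 1256) (nat_lit 92) (.e (nat_lit 98359) (nat_lit 26) (.e (nat_lit 426286) (nat_lit 10) (.e (nat_lit 434248) (nat_lit 28) (.e (nat_lit 573452) (nat_lit 9) .nil))))) .nil)) 
(.lf (nat_lit 46706) (.g (nat_lit 786) (.e (nat_lit 1256) (nat_lit 92) (.e (nat_lit 98359) (nat_lit 26) (.e (nat_lit 426290) (nat_lit 10) (.e (nat_lit 434231) (nat_lit 23) .nil)))) .nil)))) (.nd (nat_lit 4) (.nd (nat_lit 5) 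
(.lf (nat_lit 46666) (.g (nat_lit 3169) (.e (nat_lit 1256) (nat_lit 92) (.e (nat_lit 98359) (nat_lit 26) (.e (nat_lit 426286) (nat_lit 10) (.e (nat_lit 434248) (nat_lit 28) (.e (nat_lit 573449) (nat_lit 9) (.e (nat_lit 359) (nat_lit 30) (.e (nat_lit 409604) (nat_lit 0) (.e (nat_lit 5270) (nat_lit 298) .nil)))))))) (.g (nat_lit 5) .nil .nil))) 
(.lf (nat_lit 46698) (.g (nat_lit 3556) (.e (nat_lit 1256) (nat_lit 92) (.e (nat_lit 98359) (nat_lit 26) (.e (nat_lit 426286) (nat_lit 10) (.e (nat_lit 434248) (nat_lit 28) (.e (nat_lit 573470) (nat_lit 11) (.e (nat_lit 16388) (nat_lit 0) (.e (nat_lit 7490) (nat_lit 402) .nil))))))) (.g (nat_lit 0) .nil .nil)))) (.nd (nat_lit 5) 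
(.lf (nat_lit 46682) (.g (nat_lit 3050) (.e (nat_lit 1256) (nat_lit 92) (.e (nat_lit 98359) (nat_lit 26) (.e (nat_lit 426286) (nat_lit 10) (.e (nat_lit 434248) (nat_lit 28) (.e (nat_lit 573452) (nat_lit 9) (.e (nat_lit 428) (nat_lit 32) (.e (nat_lit 425990) (nat_lit 0) (.e (nat_lit 7489) (nat_lit 402) .nil)))))))) (.g (nat_lit 0) .nil .nil))) 
(.lf (nat_lit 46714) (.g (nat_lit 1779) (.e (nat_lit 1256) (nat_lit 92) (.e (nat_lit 98359) (nat_lit 26) (.e (nat_lit 426312) (nat_lit 12) (.e (nat_lit 475183) (nat_lit 29) (.e (nat_lit 557104) (nat_lit 14) (.e (nat_lit 188160) (nat_lit 32) .nil)))))) (.g (nat_lit 4) .nil .nil)))))) (.nd (nat_lit 3) (.nd (nat_lit 4) (.nd (nat_lit 5) 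
(.lf (nat_lit 46662) (.g (nat_lit 1772) (.e (nat_lit 1256) (nat_lit 92) (.e (nat_lit 98359) (nat_lit 26) (.e (nat_lit 426286) (nat_lit 10) (.e (nat_lit 434247) (nat_lit 28) (.e (nat_lit 573477) (nat_lit 12) (.e (nat_lit 57353) (nat_lit 0) (.e (nat_lit 7265) (nat_lit 384) (.e (nat_lit 57347) (nat_lit 0) (.e (nat_lit 7936) (nat_lit 343) .nil))))))))) (.g (nat_lit 4) .nil .nil))) 
(.lf (nat_lit 46694) (.g (nat_lit 2559) (.e (nat_lit 1256) (nat_lit 92) (.e (nat_lit 98359) (nat_lit 26) (.e (nat_lit 426286) (nat_lit 10) (.e (nat_lit 434248) (nat_lit 28) (.e (nat_lit 573470) (nat_lit 11) (.e (nat_lit 16385) (nat_lit 0) (.e (nat_lit 7486) (nat_lit 402) .nil))))))) (.g (nat_lit 6) .nil .nil)))) (.nd (nat_lit 5) 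
(.lf (nat_lit 46678) (.g (nat_lit 2098) (.e (nat_lit 1256) (nat_lit 92) (.e (nat_lit 98359) (nat_lit 26) (.e (nat_lit 426286) (nat_lit 10) (.e (nat_lit 434248) (nat_lit 28) (.e (nat_lit 573452) (nat_lit 9) (.e (nat_lit 7936) (nat_lit 0) (.e (nat_lit 7089) (nat_lit 379) (.e (nat_lit 123202) (nat_lit 270) .nil)))))))) (.g (nat_lit 4) .nil .nil))) 
(.lf (nat_lit 46710) (.g (nat_lit 3096) (.e (nat_lit 1256) (nat_lit 92) (.e (nat_lit 98359) (nat_lit 26) (.e (nat_lit 426305) (nat_lit 12) (.e (nat_lit 475185) (nat_lit 29) (.e (nat_lit 557103) (nat_lit 14) (.e (nat_lit 188160) (nat_lit 32) .nil)))))) (.g (nat_lit 5) .nil .nil))))) (.nd (nat_lit 4) (.nd (nat_lit 5) 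
(.lf (nat_lit 46670) (.g (nat_lit 3315) (.e (nat_lit 1256) (nat_lit 92) (.e (nat_lit 98359) (nat_lit 26) (.e (nat_lit 426286) (nat_lit 10) (.e (nat_lit 434248) (nat_lit 28) (.e (nat_lit 573450) (nat_lit 9) (.e (nat_lit 433) (nat_lit 32) (.e (nat_lit 425984) (nat_lit 0) (.e (nat_lit 7489) (nat_lit 402) .nil)))))))) (.g (nat_lit 6) .nil .nil))) 
(.lf (nat_lit 46702) (.g (nat_lit 4665) (.e (nat_lit 1256) (nat_lit 92) (.e (nat_lit 98359) (nat_lit 26) (.e (nat_lit 426286) (nat_lit 10) (.e (nat_lit 434248) (nat_lit 28) (.e (nat_lit 573471) (nat_lit 11) (.e (nat_lit 16388) (nat_lit 0) (.e (nat_lit 7486) (nat_lit 402) .nil))))))) (.g (nat_lit 7) .nil .nil)))) (.nd (nat_lit 5) 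
(.lf (nat_lit 46686) (.g (nat_lit 2644) (.e (nat_lit 1256) (nat_lit 92) (.e (nat_lit 98359) (nat_lit 26) (.e (nat_lit 426286) (nat_lit 10) (.e (nat_lit 434248) (nat_lit 28) (.e (nat_lit 573452) (nat_lit 9) (.e (nat_lit 7936) (nat_lit 36) (.e (nat_lit 466688) (nat_lit 0) .nil))))))) (.g (nat_lit 5) .nil .nil))) 
(.lf (nat_lit 46718) (.g (nat_lit 2864) (.e (nat_lit 1256) (nat_lit 92) (.e (nat_lit 98359) (nat_lit 26) (.e (nat_lit 426312) (nat_lit 12) (.e (nat_lit 475185) (nat_lit 29) (.e (nat_lit 557105) (nat_lit 14) (.e (nat_lit 188160) (nat_lit 32) .nil)))))) (.g (nat_lit 5) .nil .nil)))))))) (.nd (nat_lit 1) (.nd (nat_lit 2) (.nd (nat_lit 3) (.nd (nat_lit 4) (.nd (nat_lit 5) 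
(.lf (nat_lit 46657) (.g (nat_lit 1932) (.e (nat_lit 1256) (nat_lit 92) (.e (nat_lit 98359) (nat_lit 26) (.e (nat_lit 426286) (nat_lit 10) (.e (nat_lit 434247) (nat_lit 28) (.e (nat_lit 573457) (nat_lit 9) (.e (nat_lit 365) (nat_lit 31) (.e (nat_lit 417795) (nat_lit 0) (.e (nat_lit 5258) (nat_lit 298) .nil)))))))) (.g (nat_lit 4) .nil .nil))) 
(.lf (nat_lit 46689) (.g (nat_lit 2390) (.e (nat_lit 1256) (nat_lit 92) (.e (nat_lit 98359) (nat_lit 26) (.e (nat_lit 426286) (nat_lit 10) (.e (nat_lit 434248) (nat_lit 28) (.e (nat_lit 573457) (nat_lit 9) (.e (nat_lit 359) (nat_lit 30) (.e (nat_lit 409602) (nat_lit 0) (.e (nat_lit 5270) (nat_lit 298) .nil)))))))) (.g (nat_lit 4) .nil .nil)))) (.nd (nat_lit 5) 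
(.lf (nat_lit 46673) (.g (nat_lit 3084) (.e (nat_lit 1256) (nat_lit 92) (.e (nat_lit 98359) (nat_lit 26) (.e (nat_lit 426286) (nat_lit 10) (.e (nat_lit 434248) (nat_lit 28) (.e (nat_lit 573450) (nat_lit 9) (.e (nat_lit 473) (nat_lit 36) (.e (nat_lit 466688) (nat_lit 0) .nil))))))) (.g (nat_lit 6) .nil .nil))) 
(.lf (nat_lit 46705) (.g (nat_lit 1850) (.e (nat_lit 1256) (nat_lit 92) (.e (nat_lit 98359) (nat_lit 26) (.e (nat_lit 426286) (nat_lit 10) (.e (nat_lit 434248) (nat_lit 28) (.e (nat_lit 573475) (nat_lit 12) .nil))))) .nil)))) (.nd (nat_lit 4) (.nd (nat_lit 5) 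
(.lf (nat_lit 46665) (.g (nat_lit 2144) (.e (nat_lit 1256) (nat_lit 92) (.e (nat_lit 98359) (nat_lit 26) (.e (nat_lit 426286) (nat_lit 10) (.e (nat_lit 434248) (nat_lit 28) (.e (nat_lit 573449) (nat_lit 9) .nil))))) .nil)) 
(.lf (nat_lit 46697) (.g (nat_lit 3613) (.e (nat_lit 1256) (nat_lit 92) (.e (nat_lit 98359) (nat_lit 26) (.e (nat_lit 426286) (nat_lit 10) (.e (nat_lit 434248) (nat_lit 28) (.e (nat_lit 573470) (nat_lit 11) (.e (nat_lit 16388) (nat_lit 0) (.e (nat_lit 7486) (nat_lit 402) .nil))))))) (.g (nat_lit 0) .nil .nil)))) (.nd (nat_lit 5) 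
(.lf (nat_lit 46681) (.g (nat_lit 2507) (.e (nat_lit 1256) (nat_lit 92) (.e (nat_lit 98359) (nat_lit 26) (.e (nat_lit 426286) (nat_lit 10) (.e (nat_lit 434248) (nat_lit 28) (.e (nat_lit 573452) (nat_lit 9) (.e (nat_lit 428) (nat_lit 32) (.e (nat_lit 425989) (nat_lit 0) (.e (nat_lit 7485) (nat_lit 402) .nil)))))))) (.g (nat_lit 5) .nil .nil))) 
(.lf (nat_lit 46713) (.g (nat_lit 2667) (.e (nat_lit 1256) (nat_lit 92) (.e (nat_lit 98359) (nat_lit 26) (.e (nat_lit 426310) (nat_lit 12) (.e (nat_lit 475185) (nat_lit 29) (.e (nat_lit 557105) (nat_lit 14) (.e (nat_lit 188160) (nat_lit 32) .nil)))))) (.g (nat_lit 5) .nil .nil)))))) (.nd (nat_lit 3) (.nd (nat_lit 4) (.nd (nat_lit 5) 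
(.lf (nat_lit 46661) (.g (nat_lit 3837) (.e (nat_lit 1256) (nat_lit 92) (.e (nat_lit 98359) (nat_lit 26) (.e (nat_lit 426286) (nat_lit 10) (.e (nat_lit 434247) (nat_lit 28) (.e (nat_lit 573469) (nat_lit 11) (.e (nat_lit 16388) (nat_lit 0) (.e (nat_lit 7486) (nat_lit 402) .nil))))))) (.g (nat_lit 0) .nil .nil))) 
(.lf (nat_lit 46693) (.g (nat_lit 1785) (.e (nat_lit 1256) (nat_lit 92) (.e (nat_lit 98359) (nat_lit 26) (.e (nat_lit 426286) (nat_lit 10) (.e (nat_lit 434248) (nat_lit 28) (.e (nat_lit 573470) (nat_lit 11) .nil))))) .nil))) (.nd (nat_lit 5) 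
(.lf (nat_lit 46677) (.g (nat_lit 2151) (.e (nat_lit 1256) (nat_lit 92) (.e (nat_lit 98359) (nat_lit 26) (.e (nat_lit 426286) (nat_lit 10) (.e (nat_lit 434248) (nat_lit 28) (.e (nat_lit 573452) (nat_lit 9) (.e (nat_lit 61) (nat_lit 0) (.e (nat_lit 7088) (nat_lit 379) (.e (nat_lit 123202) (nat_lit 270) .nil)))))))) (.g (nat_lit 4) .nil .nil))) 
(.lf (nat_lit 46709) (.g (nat_lit 2608) (.e (nat_lit 1256) (nat_lit 92) (.e (nat_lit 98359) (nat_lit 26) (.e (nat_lit 426305) (nat_lit 12) (.e (nat_lit 475184) (nat_lit 29) (.e (nat_lit 557105) (nat_lit 14) (.e (nat_lit 188160) (nat_lit 32) .nil)))))) (.g (nat_lit 5) .nil .nil))))) (.nd (nat_lit 4) (.nd (nat_lit 5) 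
(.lf (nat_lit 46669) (.g (nat_lit 2043) (.e (nat_lit 1256) (nat_lit 92) (.e (nat_lit 98359) (nat_lit 26) (.e (nat_lit 426286) (nat_lit 10) (.e (nat_lit 434248) (nat_lit 28) (.e (nat_lit 573450) (nat_lit 9) .nil))))) .nil)) 
(.lf (nat_lit 46701) (.g (nat_lit 4007) (.e (nat_lit 1256) (nat_lit 92) (.e (nat_lit 98359) (nat_lit 26) (.e (nat_lit 426286) (nat_lit 10) (.e (nat_lit 434248) (nat_lit 28) (.e (nat_lit 573471) (nat_lit 11) (.e (nat_lit 16387) (nat_lit 0) (.e (nat_lit 7490) (nat_lit 402) .nil))))))) (.g (nat_lit 6) .nil .nil)))) (.nd (nat_lit 5) 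
(.lf (nat_lit 46685) (.g (nat_lit 2644) (.e (nat_lit 1256) (nat_lit 92) (.e (nat_lit 98359) (nat_lit 26) (.e (nat_lit 426286) (nat_lit 10) (.e (nat_lit 434248) (nat_lit 28) (.e (nat_lit 573452) (nat_lit 9) (.e (nat_lit 7936) (nat_lit 33) (.e (nat_lit 442112) (nat_lit 0) .nil))))))) (.g (nat_lit 5) .nil .nil))) 
(.lf (nat_lit 46717) (.g (nat_lit 2859) (.e (nat_lit 1256) (nat_lit 92) (.e (nat_lit 98359) (nat_lit 26) (.e (nat_lit 426312) (nat_lit 12) (.e (nat_lit 475185) (nat_lit 29) (.e (nat_lit 557103) (nat_lit 14) (.e (nat_lit 188160) (nat_lit 32) .nil)))))) (.g (nat_lit 5) .nil .nil))))))) (.nd (nat_lit 2) (.nd (nat_lit 3) (.nd (nat_lit 4) (.nd (nat_lit 5) 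
(.lf (nat_lit 46659) (.g (nat_lit 2210) (.e (nat_lit 1256) (nat_lit 92) (.e (nat_lit 98359) (nat_lit 26) (.e (nat_lit 426286) (nat_lit 10) (.e (nat_lit 434247) (nat_lit 28) (.e (nat_lit 573457) (nat_lit 9) (.e (nat_lit 7936) (nat_lit 33) (.e (nat_lit 442112) (nat_lit 0) .nil))))))) (.g (nat_lit 5) .nil .nil))) 
(.lf (nat_lit 46691) (.g (nat_lit 4138) (.e (nat_lit 1256) (nat_lit 92) (.e (nat_lit 98359) (nat_lit 26) (.e (nat_lit 426286) (nat_lit 10) (.e (nat_lit 434248) (nat_lit 28) (.e (nat_lit 573469) (nat_lit 11) (.e (nat_lit 16388) (nat_lit 0) (.e (nat_lit 7486) (nat_lit 402) .nil))))))) (.g (nat_lit 7) .nil .nil)))) (.nd (nat_lit 5) 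
(.lf (nat_lit 46675) (.g (nat_lit 2679) (.e (nat_lit 1256) (nat_lit 92) (.e (nat_lit 98359) (nat_lit 26) (.e (nat_lit 426286) (nat_lit 10) (.e (nat_lit 434248) (nat_lit 28) (.e (nat_lit 573452) (nat_lit 9) (.e (nat_lit 11) (nat_lit 0) (.e (nat_lit 7089) (nat_lit 379) (.e (nat_lit 123202) (nat_lit 270) .nil)))))))) (.g (nat_lit 5) .nil .nil))) 
(.lf (nat_lit 46707) (.g (nat_lit 1276) (.e (nat_lit 1256) (nat_lit 92) (.e (nat_lit 98359) (nat_lit 26) (.e (nat_lit 426290) (nat_lit 10) (.e (nat_lit 434231) (nat_lit 23) (.e (nat_lit 532523) (nat_lit 7) .nil))))) .nil)))) (.nd (nat_lit 4) (.nd (nat_lit 5) 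
(.lf (nat_lit 46667) (.g (nat_lit 2943) (.e (nat_lit 1256) (nat_lit 92) (.e (nat_lit 98359) (nat_lit 26) (.e (nat_lit 426286) (nat_lit 10) (.e (nat_lit 434248) (nat_lit 28) (.e (nat_lit 573449) (nat_lit 9) (.e (nat_lit 449) (nat_lit 33) (.e (nat_lit 442112) (nat_lit 0) .nil))))))) (.g (nat_lit 5) .nil .nil))) 
(.lf (nat_lit 46699) (.g (nat_lit 1627) (.e (nat_lit 1256) (nat_lit 92) (.e (nat_lit 98359) (nat_lit 26) (.e (nat_lit 426286) (nat_lit 10) (.e (nat_lit 434248) (nat_lit 28) (.e (nat_lit 573471) (nat_lit 11) .nil))))) .nil))) (.nd (nat_lit 5) 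
(.lf (nat_lit 46683) (.g (nat_lit 2630) (.e (nat_lit 1256) (nat_lit 92) (.e (nat_lit 98359) (nat_lit 26) (.e (nat_lit 426286) (nat_lit 10) (.e (nat_lit 434248) (nat_lit 28) (.e (nat_lit 573452) (nat_lit 9) (.e (nat_lit 430) (nat_lit 32) (.e (nat_lit 426009) (nat_lit 0) (.e (nat_lit 7486) (nat_lit 402) .nil)))))))) (.g (nat_lit 5) .nil .nil))) 
(.lf (nat_lit 46715) (.g (nat_lit 2701) (.e (nat_lit 1256) (nat_lit 92) (.e (nat_lit 98359) (nat_lit 26) (.e (nat_lit 426312) (nat_lit 12) (.e (nat_lit 475184) (nat_lit 29) (.e (nat_lit 557103) (nat_lit 14) (.e (nat_lit 188160) (nat_lit 32) .nil)))))) (.g (nat_lit 5) .nil .nil)))))) (.nd (nat_lit 3) (.nd (nat_lit 4) (.nd (nat_lit 5) 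
(.lf (nat_lit 46663) (.g (nat_lit 1625) (.e (nat_lit 1256) (nat_lit 92) (.e (nat_lit 98359) (nat_lit 26) (.e (nat_lit 426286) (nat_lit 10) (.e (nat_lit 434247) (nat_lit 28) (.e (nat_lit 573478) (nat_lit 12) .nil))))) .nil)) 
(.lf (nat_lit 46695) (.g (nat_lit 1981) (.e (nat_lit 1256) (nat_lit 92) (.e (nat_lit 98359) (nat_lit 26) (.e (nat_lit 426286) (nat_lit 10) (.e (nat_lit 434248) (nat_lit 28) (.e (nat_lit 573470) (nat_lit 11) (.e (nat_lit 16386) (nat_lit 0) (.e (nat_lit 7490) (nat_lit 402) .nil))))))) (.g (nat_lit 4) .nil .nil)))) (.nd (nat_lit 5) 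
(.lf (nat_lit 46679) (.g (nat_lit 2549) (.e (nat_lit 1256) (nat_lit 92) (.e (nat_lit 98359) (nat_lit 26) (.e (nat_lit 426286) (nat_lit 10) (.e (nat_lit 434248) (nat_lit 28) (.e (nat_lit 573452) (nat_lit 9) (.e (nat_lit 365) (nat_lit 31) (.e (nat_lit 417795) (nat_lit 0) (.e (nat_lit 5258) (nat_lit 298) .nil)))))))) (.g (nat_lit 5) .nil .nil))) 
(.lf (nat_lit 46711) (.g (nat_lit 3064) (.e (nat_lit 1256) (nat_lit 92) (.e (nat_lit 98359) (nat_lit 26) (.e (nat_lit 426305) (nat_lit 12) (.e (nat_lit 475185) (nat_lit 29) (.e (nat_lit 557105) (nat_lit 14) (.e (nat_lit 188160) (nat_lit 32) .nil)))))) (.g (nat_lit 5) .nil .nil))))) (.nd (nat_lit 4) (.nd (nat_lit 5) 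
(.lf (nat_lit 46671) (.g (nat_lit 3190) (.e (nat_lit 1256) (nat_lit 92) (.e (nat_lit 98359) (nat_lit 26) (.e (nat_lit 426286) (nat_lit 10) (.e (nat_lit 434248) (nat_lit 28) (.e (nat_lit 573450) (nat_lit 9) (.e (nat_lit 433) (nat_lit 32) (.e (nat_lit 425987) (nat_lit 0) (.e (nat_lit 7489) (nat_lit 402) .nil)))))))) (.g (nat_lit 6) .nil .nil))) 
(.lf (nat_lit 46703) (.g (nat_lit 4705) (.e (nat_lit 1256) (nat_lit 92) (.e (nat_lit 98359) (nat_lit 26) (.e (nat_lit 426286) (nat_lit 10) (.e (nat_lit 434248) (nat_lit 28) (.e (nat_lit 573471) (nat_lit 11) (.e (nat_lit 16388) (nat_lit 0) (.e (nat_lit 7490) (nat_lit 402) .nil))))))) (.g (nat_lit 0) .nil .nil)))) (.nd (nat_lit 5) 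
(.lf (nat_lit 46687) (.g (nat_lit 1842) (.e (nat_lit 1256) (nat_lit 92) (.e (nat_lit 98359) (nat_lit 26) (.e (nat_lit 426286) (nat_lit 10) (.e (nat_lit 434248) (nat_lit 28) (.e (nat_lit 573455) (nat_lit 9) .nil))))) .nil)) 
(.lf (nat_lit 46719) (.g (nat_lit 406) (.e (nat_lit 1256) (nat_lit 92) (.e (nat_lit 98359) (nat_lit 26) (.e (nat_lit 426324) (nat_lit 13) .nil))) .nil))))))))

noncomputable def tv649 : DT := (.nd (nat_lit 0) (.nd (nat_lit 1) (.nd (nat_lit 2) (.nd (nat_lit 3) (.nd (nat_lit 4) (.nd (nat_lit 5) 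
(.lf (nat_lit 46720) (.g (nat_lit 906) (.e (nat_lit 1256) (nat_lit 92) (.e (nat_lit 98359) (nat_lit 26) (.e (nat_lit 426324) (nat_lit 13) (.e (nat_lit 483370) (nat_lit 20) .nil)))) .nil)) 
(.lf (nat_lit 46752) (.g (nat_lit 2300) (.e (nat_lit 1256) (nat_lit 92) (.e (nat_lit 98359) (nat_lit 26) (.e (nat_lit 426338) (nat_lit 14) (.e (nat_lit 491539) (nat_lit 3) (.e (nat_lit 98350) (nat_lit 24) (.e (nat_lit 409602) (nat_lit 0) (.e (nat_lit 5270) (nat_lit 298) .nil))))))) (.g (nat_lit 4) .nil .nil)))) (.nd (nat_lit 5) 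
(.lf (nat_lit 46736) (.g (nat_lit 3077) (.e (nat_lit 1256) (nat_lit 92) (.e (nat_lit 98359) (nat_lit 26) (.e (nat_lit 426338) (nat_lit 14) (.e (nat_lit 491536) (nat_lit 2) (.e (nat_lit 90174) (nat_lit 14) (.e (nat_lit 188160) (nat_lit 32) .nil)))))) (.g (nat_lit 5) .nil .nil))) 
(.lf (nat_lit 46768) (.g (nat_lit 3161) (.e (nat_lit 1256) (nat_lit 92) (.e (nat_lit 98359) (nat_lit 26) (.e (nat_lit 426338) (nat_lit 14) (.e (nat_lit 491540) (nat_lit 3) (.e (nat_lit 98367) (nat_lit 27) (.e (nat_lit 442112) (nat_lit 0) .nil)))))) (.g (nat_lit 5) .nil .nil))))) (.nd (nat_lit 4) (.nd (nat_lit 5) 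
(.lf (nat_lit 46728) (.g (nat_lit 1449) (.e (nat_lit 1256) (nat_lit 92) (.e (nat_lit 98359) (nat_lit 26) (.e (nat_lit 426338) (nat_lit 14) (.e (nat_lit 491526) (nat_lit 0) .nil)))) .nil)) 
(.lf (nat_lit 46760) (.g (nat_lit 3926) (.e (nat_lit 1256) (nat_lit 92) (.e (nat_lit 98359) (nat_lit 26) (.e (nat_lit 426338) (nat_lit 14) (.e (nat_lit 491540) (nat_lit 3) (.e (nat_lit 98350) (nat_lit 24) (.e (nat_lit 409604) (nat_lit 0) (.e (nat_lit 5270) (nat_lit 298) .nil))))))) (.g (nat_lit 7) .nil .nil)))) (.nd (nat_lit 5) 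
(.lf (nat_lit 46744) (.g (nat_lit 2897) (.e (nat_lit 1256) (nat_lit 92) (.e (nat_lit 98359) (nat_lit 26) (.e (nat_lit 426338) (nat_lit 14) (.e (nat_lit 491537) (nat_lit 2) (.e (nat_lit 90165) (nat_lit 12) (.e (nat_lit 164217) (nat_lit 178) (.e (nat_lit 123202) (nat_lit 270) .nil))))))) (.g (nat_lit 4) .nil .nil))) 
(.lf (nat_lit 46776) (.g (nat_lit 2983) (.e (nat_lit 1256) (nat_lit 92) (.e (nat_lit 98366) (nat_lit 27) (.e (nat_lit 434231) (nat_lit 23) (.e (nat_lit 532490) (nat_lit 0) (.e (nat_lit 2155) (nat_lit 142) (.e (nat_lit 704744) (nat_lit 12) (.e (nat_lit 57477) (nat_lit 28) (.e (nat_lit 557090) (nat_lit 12) (.e (nat_lit 164038) (nat_lit 55) (.e (nat_lit 778246) (nat_lit 0) .nil)))))))))) (.g (nat_lit 4) .nil .nil)))))) 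
(.nd (nat_lit 3) (.nd (nat_lit 4) (.nd (nat_lit 5) 
(.lf (nat_lit 46724) (.g (nat_lit 2149) (.e (nat_lit 1256) (nat_lit 92) (.e (nat_lit 98359) (nat_lit 26) (.e (nat_lit 426331) (nat_lit 13) (.e (nat_lit 483350) (nat_lit 17) (.e (nat_lit 2384) (nat_lit 155) (.e (nat_lit 811045) (nat_lit 14) (.e (nat_lit 48896) (nat_lit 0) .nil))))))) (.g (nat_lit 6) .nil .nil))) 
(.lf (nat_lit 46756) (.g (nat_lit 3242) (.e (nat_lit 1256) (nat_lit 92) (.e (nat_lit 98359) (nat_lit 26) (.e (nat_lit 426338) (nat_lit 14) (.e (nat_lit 491540) (nat_lit 3) (.e (nat_lit 98349) (nat_lit 24) (.e (nat_lit 409604) (nat_lit 0) (.e (nat_lit 5270) (nat_lit 298) .nil))))))) (.g (nat_lit 5) .nil .nil)))) (.nd (nat_lit 5) 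
(.lf (nat_lit 46740) (.g (nat_lit 2020) (.e (nat_lit 1256) (nat_lit 92) (.e (nat_lit 98359) (nat_lit 26) (.e (nat_lit 426338) (nat_lit 14) (.e (nat_lit 491537) (nat_lit 2) (.e (nat_lit 90133) (nat_lit 9) .nil))))) .nil)) 
(.lf (nat_lit 46772) (.g (nat_lit 2365) (.e (nat_lit 1256) (nat_lit 92) (.e (nat_lit 98359) (nat_lit 26) (.e (nat_lit 426338) (nat_lit 14) (.e (nat_lit 491540) (nat_lit 3) (.e (nat_lit 98377) (nat_lit 30) (.e (nat_lit 466688) (nat_lit 0) .nil)))))) (.g (nat_lit 5) .nil .nil))))) (.nd (nat_lit 4) (.nd (nat_lit 5) 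
(.lf (nat_lit 46732) (.g (nat_lit 3109) (.e (nat_lit 1256) (nat_lit 92) (.e (nat_lit 98359) (nat_lit 26) (.e (nat_lit 426338) (nat_lit 14) (.e (nat_lit 491535) (nat_lit 2) (.e (nat_lit 90172) (nat_lit 14) (.e (nat_lit 188160) (nat_lit 32) .nil)))))) (.g (nat_lit 5) .nil .nil))) 
(.lf (nat_lit 46764) (.g (nat_lit 1771) (.e (nat_lit 1256) (nat_lit 92) (.e (nat_lit 98359) (nat_lit 26) (.e (nat_lit 426338) (nat_lit 14) (.e (nat_lit 491540) (nat_lit 3) (.e (nat_lit 98363) (nat_lit 26) .nil))))) .nil))) (.nd (nat_lit 5) 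
(.lf (nat_lit 46748) (.g (nat_lit 3192) (.e (nat_lit 1256) (nat_lit 92) (.e (nat_lit 98359) (nat_lit 26) (.e (nat_lit 426338) (nat_lit 14) (.e (nat_lit 491537) (nat_lit 2) (.e (nat_lit 90174) (nat_lit 14) (.e (nat_lit 188160) (nat_lit 32) .nil)))))) (.g (nat_lit 5) .nil .nil))) 
(.lf (nat_lit 46780) (.g (nat_lit 2566) (.e (nat_lit 1256) (nat_lit 92) (.e (nat_lit 98366) (nat_lit 27) (.e (nat_lit 434231) (nat_lit 23) (.e (nat_lit 532513) (nat_lit 3) (.e (nat_lit 114714) (nat_lit 22) (.e (nat_lit 90162) (nat_lit 12) (.e (nat_lit 164007) (nat_lit 41) (.e (nat_lit 663552) (nat_lit 0) .nil)))))))) (.g (nat_lit 4) .nil .nil))))))) 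
(.nd (nat_lit 2) (.nd (nat_lit 3) (.nd (nat_lit 4) (.nd (nat_lit 5) 
(.lf (nat_lit 46722) (.g (nat_lit 534) (.e (nat_lit 1256) (nat_lit 92) (.e (nat_lit 98359) (nat_lit 26) (.e (nat_lit 426330) (nat_lit 13) .nil))) .nil)) 
(.lf (nat_lit 46754) (.g (nat_lit 1960) (.e (nat_lit 1256) (nat_lit 92) (.e (nat_lit 98359) (nat_lit 26) (.e (nat_lit 426338) (nat_lit 14) (.e (nat_lit 491540) (nat_lit 3) (.e (nat_lit 98323) (nat_lit 17) .nil))))) .nil))) (.nd (nat_lit 5) 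
(.lf (nat_lit 46738) (.g (nat_lit 2729) (.e (nat_lit 1256) (nat_lit 92) (.e (nat_lit 98359) (nat_lit 26) (.e (nat_lit 426338) (nat_lit 14) (.e (nat_lit 491537) (nat_lit 2) (.e (nat_lit 90125) (nat_lit 9) (.e (nat_lit 2936) (nat_lit 184) (.e (nat_lit 425984) (nat_lit 0) (.e (nat_lit 7489) (nat_lit 402) .nil)))))))) (.g (nat_lit 4) .nil .nil))) 
(.lf (nat_lit 46770) (.g (nat_lit 1964) (.e (nat_lit 1256) (nat_lit 92) (.e (nat_lit 98359) (nat_lit 26) (.e (nat_lit 426338) (nat_lit 14) (.e (nat_lit 491540) (nat_lit 3) (.e (nat_lit 98375) (nat_lit 30) .nil))))) .nil)))) (.nd (nat_lit 4) (.nd (nat_lit 5) 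
(.lf (nat_lit 46730) (.g (nat_lit 2592) (.e (nat_lit 1256) (nat_lit 92) (.e (nat_lit 98359) (nat_lit 26) (.e (nat_lit 426338) (nat_lit 14) (.e (nat_lit 491526) (nat_lit 0) (.e (nat_lit 1698) (nat_lit 117) (.e (nat_lit 499927) (nat_lit 10) (.e (nat_lit 188160) (nat_lit 32) .nil))))))) (.g (nat_lit 5) .nil .nil))) 
(.lf (nat_lit 46762) (.g (nat_lit 2066) (.e (nat_lit 1256) (nat_lit 92) (.e (nat_lit 98359) (nat_lit 26) (.e (nat_lit 426338) (nat_lit 14) (.e (nat_lit 491540) (nat_lit 3) (.e (nat_lit 98353) (nat_lit 25) (.e (nat_lit 417793) (nat_lit 0) (.e (nat_lit 5271) (nat_lit 298) .nil))))))) (.g (nat_lit 4) .nil .nil)))) (.nd (nat_lit 5) 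
(.lf (nat_lit 46746) (.g (nat_lit 3084) (.e (nat_lit 1256) (nat_lit 92) (.e (nat_lit 98359) (nat_lit 26) (.e (nat_lit 426338) (nat_lit 14) (.e (nat_lit 491537) (nat_lit 2) (.e (nat_lit 90172) (nat_lit 14) (.e (nat_lit 188160) (nat_lit 32) .nil)))))) (.g (nat_lit 5) .nil .nil))) 
(.lf (nat_lit 46778) (.g (nat_lit 4591) (.e (nat_lit 1256) (nat_lit 92) (.e (nat_lit 98366) (nat_lit 27) (.e (nat_lit 434231) (nat_lit 23) (.e (nat_lit 532507) (nat_lit 2) (.e (nat_lit 106537) (nat_lit 12) (.e (nat_lit 57477) (nat_lit 28) (.e (nat_lit 557090) (nat_lit 12) (.e (nat_lit 164038) (nat_lit 55) (.e (nat_lit 778246) (nat_lit 0) .nil))))))))) (.g (nat_lit 8) .nil .nil)))))) 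
(.nd (nat_lit 3) (.nd (nat_lit 4) (.nd (nat_lit 5) 
(.lf (nat_lit 46726) (.g (nat_lit 426) (.e (nat_lit 1256) (nat_lit 92) (.e (nat_lit 98359) (nat_lit 26) (.e (nat_lit 426338) (nat_lit 14) .nil))) .nil)) 
(.lf (nat_lit 46758) (.g (nat_lit 4133) (.e (nat_lit 1256) (nat_lit 92) (.e (nat_lit 98359) (nat_lit 26) (.e (nat_lit 426338) (nat_lit 14) (.e (nat_lit 491540) (nat_lit 3) (.e (nat_lit 98350) (nat_lit 24) (.e (nat_lit 409602) (nat_lit 0) (.e (nat_lit 5245) (nat_lit 298) .nil))))))) (.g (nat_lit 0) .nil .nil)))) (.nd (nat_lit 5) 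
(.lf (nat_lit 46742) (.g (nat_lit 3381) (.e (nat_lit 1256) (nat_lit 92) (.e (nat_lit 98359) (nat_lit 26) (.e (nat_lit 426338) (nat_lit 14) (.e (nat_lit 491537) (nat_lit 2) (.e (nat_lit 90133) (nat_lit 9) (.e (nat_lit 2936) (nat_lit 184) (.e (nat_lit 425987) (nat_lit 0) (.e (nat_lit 7489) (nat_lit 402) .nil)))))))) (.g (nat_lit 6) .nil .nil))) 
(.lf (nat_lit 46774) (.g (nat_lit 505) (.e (nat_lit 1256) (nat_lit 92) (.e (nat_lit 98366) (nat_lit 27) (.e (nat_lit 434231) (nat_lit 23) .nil))) .nil)))) (.nd (nat_lit 4) (.nd (nat_lit 5) 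
(.lf (nat_lit 46734) (.g (nat_lit 3070) (.e (nat_lit 1256) (nat_lit 92) (.e (nat_lit 98359) (nat_lit 26) (.e (nat_lit 426338) (nat_lit 14) (.e (nat_lit 491536) (nat_lit 2) (.e (nat_lit 90172) (nat_lit 14) (.e (nat_lit 188160) (nat_lit 32) .nil)))))) (.g (nat_lit 5) .nil .nil))) 
(.lf (nat_lit 46766) (.g (nat_lit 3144) (.e (nat_lit 1256) (nat_lit 92) (.e (nat_lit 98359) (nat_lit 26) (.e (nat_lit 426338) (nat_lit 14) (.e (nat_lit 491540) (nat_lit 3) (.e (nat_lit 98363) (nat_lit 26) (.e (nat_lit 425987) (nat_lit 0) (.e (nat_lit 7489) (nat_lit 402) .nil))))))) (.g (nat_lit 7) .nil .nil)))) (.nd (nat_lit 5) 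
(.lf (nat_lit 46750) (.g (nat_lit 1449) (.e (nat_lit 1256) (nat_lit 92) (.e (nat_lit 98359) (nat_lit 26) (.e (nat_lit 426338) (nat_lit 14) (.e (nat_lit 491538) (nat_lit 3) .nil)))) .nil)) 
(.lf (nat_lit 46782) (.g (nat_lit 2111) (.e (nat_lit 1256) (nat_lit 92) (.e (nat_lit 98366) (nat_lit 27) (.e (nat_lit 434231) (nat_lit 23) (.e (nat_lit 532514) (nat_lit 3) (.e (nat_lit 114716) (nat_lit 22) .nil))))) .nil))))))) (.nd (nat_lit 1) (.nd (nat_lit 2) (.nd (nat_lit 3) (.nd (nat_lit 4) (.nd (nat_lit 5) 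
(.lf (nat_lit 46721) (.g (nat_lit 1095) (.e (nat_lit 1256) (nat_lit 92) (.e (nat_lit 98359) (nat_lit 26) (.e (nat_lit 426329) (nat_lit 13) (.e (nat_lit 483337) (nat_lit 9) (.e (nat_lit 426107) (nat_lit 1) .nil))))) .nil)) 
(.lf (nat_lit 46753) (.g (nat_lit 1216) (.e (nat_lit 1256) (nat_lit 92) (.e (nat_lit 98359) (nat_lit 26) (.e (nat_lit 426338) (nat_lit 14) (.e (nat_lit 491540) (nat_lit 3) .nil)))) .nil))) (.nd (nat_lit 5) 
(.lf (nat_lit 46737) (.g (nat_lit 1230) (.e (nat_lit 1256) (nat_lit 92) (.e (nat_lit 98359) (nat_lit 26) (.e (nat_lit 426338) (nat_lit 14) (.e (nat_lit 491537) (nat_lit 2) .nil)))) .nil)) 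
(.lf (nat_lit 46769) (.g (nat_lit 2798) (.e (nat_lit 1256) (nat_lit 92) (.e (nat_lit 98359) (nat_lit 26) (.e (nat_lit 426338) (nat_lit 14) (.e (nat_lit 491540) (nat_lit 3) (.e (nat_lit 98368) (nat_lit 27) (.e (nat_lit 442112) (nat_lit 0) .nil)))))) (.g (nat_lit 5) .nil .nil))))) (.nd (nat_lit 4) (.nd (nat_lit 5) 
(.lf (nat_lit 46729) (.g (nat_lit 2260) (.e (nat_lit 1256) (nat_lit 92) (.e (nat_lit 98359) (nat_lit 26) (.e (nat_lit 426338) (nat_lit 14) (.e (nat_lit 491526) (nat_lit 0) (.e (nat_lit 1698) (nat_lit 117) (.e (nat_lit 499925) (nat_lit 10) (.e (nat_lit 188160) (nat_lit 32) .nil))))))) (.g (nat_lit 4) .nil .nil))) 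
(.lf (nat_lit 46761) (.g (nat_lit 2125) (.e (nat_lit 1256) (nat_lit 92) (.e (nat_lit 98359) (nat_lit 26) (.e (nat_lit 426338) (nat_lit 14) (.e (nat_lit 491540) (nat_lit 3) (.e (nat_lit 98352) (nat_lit 25) (.e (nat_lit 417793) (nat_lit 0) (.e (nat_lit 5271) (nat_lit 298) .nil))))))) (.g (nat_lit 4) .nil .nil)))) (.nd (nat_lit 5) 
(.lf (nat_lit 46745) (.g (nat_lit 3258) (.e (nat_lit 1256) (nat_lit 92) (.e (nat_lit 98359) (nat_lit 26) (.e (nat_lit 426338) (nat_lit 14) (.e (nat_lit 491537) (nat_lit 2) (.e (nat_lit 90171) (nat_lit 14) (.e (nat_lit 188160) (nat_lit 32) .nil)))))) (.g (nat_lit 5) .nil .nil))) 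
(.lf (nat_lit 46777) (.g (nat_lit 1262) (.e (nat_lit 1256) (nat_lit 92) (.e (nat_lit 98366) (nat_lit 27) (.e (nat_lit 434231) (nat_lit 23) (.e (nat_lit 532507) (nat_lit 2) .nil)))) .nil))))) (.nd (nat_lit 3) (.nd (nat_lit 4) (.nd (nat_lit 5) 
(.lf (nat_lit 46725) (.g (nat_lit 1480) (.e (nat_lit 1256) (nat_lit 92) (.e (nat_lit 98359) (nat_lit 26) (.e (nat_lit 426331) (nat_lit 13) (.e (nat_lit 483350) (nat_lit 17) (.e (nat_lit 7936) (nat_lit 155) (.e (nat_lit 811045) (nat_lit 14) (.e (nat_lit 48896) (nat_lit 0) .nil))))))) (.g (nat_lit 4) .nil .nil))) 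
(.lf (nat_lit 46757) (.g (nat_lit 3729) (.e (nat_lit 1256) (nat_lit 92) (.e (nat_lit 98359) (nat_lit 26) (.e (nat_lit 426338) (nat_lit 14) (.e (nat_lit 491540) (nat_lit 3) (.e (nat_lit 98349) (nat_lit 24) (.e (nat_lit 409605) (nat_lit 0) (.e (nat_lit 5270) (nat_lit 298) .nil))))))) (.g (nat_lit 7) .nil .nil)))) (.nd (nat_lit 5) 
(.lf (nat_lit 46741) (.g (nat_lit 3372) (.e (nat_lit 1256) (nat_lit 92) (.e (nat_lit 98359) (nat_lit 26) (.e (nat_lit 426338) (nat_lit 14) (.e (nat_lit 491537) (nat_lit 2) (.e (nat_lit 90133) (nat_lit 9) (.e (nat_lit 2936) (nat_lit 184) (.e (nat_lit 425984) (nat_lit 0) (.e (nat_lit 7489) (nat_lit 402) .nil)))))))) (.g (nat_lit 6) .nil .nil))) 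
(.lf (nat_lit 46773) (.g (nat_lit 2037) (.e (nat_lit 1256) (nat_lit 92) (.e (nat_lit 98359) (nat_lit 26) (.e (nat_lit 426338) (nat_lit 14) (.e (nat_lit 491540) (nat_lit 3) (.e (nat_lit 98378) (nat_lit 30) (.e (nat_lit 466688) (nat_lit 0) .nil)))))) (.g (nat_lit 4) .nil .nil))))) (.nd (nat_lit 4) (.nd (nat_lit 5) 
(.lf (nat_lit 46733) (.g (nat_lit 1261) (.e (nat_lit 1256) (nat_lit 92) (.e (nat_lit 98359) (nat_lit 26) (.e (nat_lit 426338) (nat_lit 14) (.e (nat_lit 491536) (nat_lit 2) .nil)))) .nil)) 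
(.lf (nat_lit 46765) (.g (nat_lit 3186) (.e (nat_lit 1256) (nat_lit 92) (.e (nat_lit 98359) (nat_lit 26) (.e (nat_lit 426338) (nat_lit 14) (.e (nat_lit 491540) (nat_lit 3) (.e (nat_lit 98363) (nat_lit 26) (.e (nat_lit 425984) (nat_lit 0) (.e (nat_lit 7489) (nat_lit 402) .nil))))))) (.g (nat_lit 7) .nil .nil)))) (.nd (nat_lit 5) 
(.lf (nat_lit 46749) (.g (nat_lit 2369) (.e (nat_lit 1256) (nat_lit 92) (.e (nat_lit 98359) (nat_lit 26) (.e (nat_lit 426338) (nat_lit 14) (.e (nat_lit 491537) (nat_lit 2) (.e (nat_lit 98048) (nat_lit 14) .nil))))) .nil)) 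
(.lf (nat_lit 46781) (.g (nat_lit 2172) (.e (nat_lit 1256) (nat_lit 92) (.e (nat_lit 98366) (nat_lit 27) (.e (nat_lit 434231) (nat_lit 23) (.e (nat_lit 532514) (nat_lit 3) (.e (nat_lit 122624) (nat_lit 3) (.e (nat_lit 204842) (nat_lit 22) (.e (nat_lit 155392) (nat_lit 0) .nil))))))) (.g (nat_lit 4) .nil .nil))))))) (.nd (nat_lit 2) (.nd (nat_lit 3) (.nd (nat_lit 4) (.nd (nat_lit 5) 
(.lf (nat_lit 46723) (.g (nat_lit 470) (.e (nat_lit 1256) (nat_lit 92) (.e (nat_lit 98359) (nat_lit 26) (.e (nat_lit 426331) (nat_lit 13) .nil))) .nil)) 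
(.lf (nat_lit 46755) (.g (nat_lit 2126) (.e (nat_lit 1256) (nat_lit 92) (.e (nat_lit 98359) (nat_lit 26) (.e (nat_lit 426338) (nat_lit 14) (.e (nat_lit 491540) (nat_lit 3) (.e (nat_lit 98325) (nat_lit 17) (.e (nat_lit 7083) (nat_lit 379) (.e (nat_lit 123202) (nat_lit 270) .nil))))))) (.g (nat_lit 4) .nil .nil)))) (.nd (nat_lit 5) 
(.lf (nat_lit 46739) (.g (nat_lit 2759) (.e (nat_lit 1256) (nat_lit 92) (.e (nat_lit 98359) (nat_lit 26) (.e (nat_lit 426338) (nat_lit 14) (.e (nat_lit 491537) (nat_lit 2) (.e (nat_lit 90125) (nat_lit 9) (.e (nat_lit 2936) (nat_lit 184) (.e (nat_lit 425987) (nat_lit 0) (.e (nat_lit 7489) (nat_lit 402) .nil)))))))) (.g (nat_lit 4) .nil .nil))) 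
(.lf (nat_lit 46771) (.g (nat_lit 2114) (.e (nat_lit 1256) (nat_lit 92) (.e (nat_lit 98359) (nat_lit 26) (.e (nat_lit 426338) (nat_lit 14) (.e (nat_lit 491540) (nat_lit 3) (.e (nat_lit 98376) (nat_lit 30) (.e (nat_lit 466688) (nat_lit 0) .nil)))))) (.g (nat_lit 4) .nil .nil))))) (.nd (nat_lit 4) (.nd (nat_lit 5) 
(.lf (nat_lit 46731) (.g (nat_lit 1453) (.e (nat_lit 1256) (nat_lit 92) (.e (nat_lit 98359) (nat_lit 26) (.e (nat_lit 426338) (nat_lit 14) (.e (nat_lit 491535) (nat_lit 2) .nil)))) .nil)) 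
(.lf (nat_lit 46763) (.g (nat_lit 1665) (.e (nat_lit 1256) (nat_lit 92) (.e (nat_lit 98359) (nat_lit 26) (.e (nat_lit 426338) (nat_lit 14) (.e (nat_lit 491540) (nat_lit 3) (.e (nat_lit 98358) (nat_lit 26) .nil))))) .nil))) (.nd (nat_lit 5) 
(.lf (nat_lit 46747) (.g (nat_lit 2658) (.e (nat_lit 1256) (nat_lit 92) (.e (nat_lit 98359) (nat_lit 26) (.e (nat_lit 426338) (nat_lit 14) (.e (nat_lit 491537) (nat_lit 2) (.e (nat_lit 90173) (nat_lit 14) .nil))))) .nil)) 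
(.lf (nat_lit 46779) (.g (nat_lit 2625) (.e (nat_lit 1256) (nat_lit 92) (.e (nat_lit 98366) (nat_lit 27) (.e (nat_lit 434231) (nat_lit 23) (.e (nat_lit 532513) (nat_lit 3) (.e (nat_lit 122624) (nat_lit 3) (.e (nat_lit 204842) (nat_lit 22) (.e (nat_lit 155392) (nat_lit 0) .nil))))))) (.g (nat_lit 4) .nil .nil)))))) (.nd (nat_lit 3) (.nd (nat_lit 4) (.nd (nat_lit 5) 
(.lf (nat_lit 46727) (.g (nat_lit 1449) (.e (nat_lit 1256) (nat_lit 92) (.e (nat_lit 98359) (nat_lit 26) (.e (nat_lit 426338) (nat_lit 14) (.e (nat_lit 491522) (nat_lit 0) .nil)))) .nil)) 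
(.lf (nat_lit 46759) (.g (nat_lit 4287) (.e (nat_lit 1256) (nat_lit 92) (.e (nat_lit 98359) (nat_lit 26) (.e (nat_lit 426338) (nat_lit 14) (.e (nat_lit 491540) (nat_lit 3) (.e (nat_lit 98350) (nat_lit 24) (.e (nat_lit 409602) (nat_lit 0) (.e (nat_lit 5270) (nat_lit 298) .nil))))))) (.g (nat_lit 0) .nil .nil)))) (.nd (nat_lit 5) 
(.lf (nat_lit 46743) (.g (nat_lit 2031) (.e (nat_lit 1256) (nat_lit 92) (.e (nat_lit 98359) (nat_lit 26) (.e (nat_lit 426338) (nat_lit 14) (.e (nat_lit 491537) (nat_lit 2) (.e (nat_lit 90133) (nat_lit 9) (.e (nat_lit 2942) (nat_lit 184) (.e (nat_lit 425987) (nat_lit 0) (.e (nat_lit 7489) (nat_lit 402) .nil)))))))) (.g (nat_lit 4) .nil .nil))) 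
(.lf (nat_lit 46775) (.g (nat_lit 2668) (.e (nat_lit 1256) (nat_lit 92) (.e (nat_lit 98366) (nat_lit 27) (.e (nat_lit 434231) (nat_lit 23) (.e (nat_lit 532490) (nat_lit 0) (.e (nat_lit 2155) (nat_lit 142) .nil))))) .nil)))) (.nd (nat_lit 4) (.nd (nat_lit 5) 
(.lf (nat_lit 46735) (.g (nat_lit 1876) (.e (nat_lit 1256) (nat_lit 92) (.e (nat_lit 98359) (nat_lit 26) (.e (nat_lit 426338) (nat_lit 14) (.e (nat_lit 491536) (nat_lit 2) (.e (nat_lit 90173) (nat_lit 14) (.e (nat_lit 188160) (nat_lit 32) .nil)))))) (.g (nat_lit 4) .nil .nil))) 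
(.lf (nat_lit 46767) (.g (nat_lit 2879) (.e (nat_lit 1256) (nat_lit 92) (.e (nat_lit 98359) (nat_lit 26) (.e (nat_lit 426338) (nat_lit 14) (.e (nat_lit 491540) (nat_lit 3) (.e (nat_lit 98366) (nat_lit 27) (.e (nat_lit 442112) (nat_lit 0) .nil)))))) (.g (nat_lit 5) .nil .nil)))) (.nd (nat_lit 5) 
(.lf (nat_lit 46751) (.g (nat_lit 1445) (.e (nat_lit 1256) (nat_lit 92) (.e (nat_lit 98359) (nat_lit 26) (.e (nat_lit 426338) (nat_lit 14) (.e (nat_lit 491539) (nat_lit 3) .nil)))) .nil)) 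
(.lf (nat_lit 46783) (.g (nat_lit 2178) (.e (nat_lit 1256) (nat_lit 92) (.e (nat_lit 98366) (nat_lit 27) (.e (nat_lit 434231) (nat_lit 23) (.e (nat_lit 532514) (nat_lit 3) (.e (nat_lit 114718) (nat_lit 23) .nil))))) .nil))))))))

noncomputable def tv650 : DT := (.nd (nat_lit 0) (.nd (nat_lit 1) (.nd (nat_lit 2) (.nd (nat_lit 3) (.nd (nat_lit 4) (.nd (nat_lit 5) 
(.lf (nat_lit 46784) (.g (nat_lit 2224) (.e (nat_lit 1256) (nat_lit 92) (.e (nat_lit 98366) (nat_lit 27) (.e (nat_lit 434231) (nat_lit 23) (.e (nat_lit 532514) (nat_lit 3) (.e (nat_lit 114718) (nat_lit 23) (.e (nat_lit 98334) (nat_lit 18) (.e (nat_lit 164380) (nat_lit 254) (.e (nat_lit 999) (nat_lit 81) .nil)))))))) (.g (nat_lit 4) .nil .nil))) 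
(.lf (nat_lit 46816) (.g (nat_lit 1514) (.e (nat_lit 1256) (nat_lit 92) (.e (nat_lit 98366) (nat_lit 27) (.e (nat_lit 434244) (nat_lit 28) (.e (nat_lit 573488) (nat_lit 14) .nil)))) .nil))) (.nd (nat_lit 5) 
(.lf (nat_lit 46800) (.g (nat_lit 2612) (.e (nat_lit 1256) (nat_lit 92) (.e (nat_lit 98366) (nat_lit 27) (.e (nat_lit 434244) (nat_lit 28) (.e (nat_lit 573481) (nat_lit 13) (.e (nat_lit 65571) (nat_lit 3) .nil))))) .nil)) 
(.lf (nat_lit 46832) (.g (nat_lit 2000) (.e (nat_lit 1256) (nat_lit 92) (.e (nat_lit 98366) (nat_lit 27) (.e (nat_lit 434245) (nat_lit 28) (.e (nat_lit 573487) (nat_lit 14) (.e (nat_lit 81664) (nat_lit 5) .nil))))) .nil)))) (.nd (nat_lit 4) (.nd (nat_lit 5) 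
(.lf (nat_lit 46792) (.g (nat_lit 2737) (.e (nat_lit 1256) (nat_lit 92) (.e (nat_lit 98366) (nat_lit 27) (.e (nat_lit 434244) (nat_lit 28) (.e (nat_lit 573481) (nat_lit 13) (.e (nat_lit 65566) (nat_lit 2) .nil))))) .nil)) 
(.lf (nat_lit 46824) (.g (nat_lit 513) (.e (nat_lit 1256) (nat_lit 92) (.e (nat_lit 98366) (nat_lit 27) (.e (nat_lit 434245) (nat_lit 28) .nil))) .nil))) (.nd (nat_lit 5) 
(.lf (nat_lit 46808) (.g (nat_lit 2787) (.e (nat_lit 1256) (nat_lit 92) (.e (nat_lit 98366) (nat_lit 27) (.e (nat_lit 434244) (nat_lit 28) (.e (nat_lit 573487) (nat_lit 14) (.e (nat_lit 73753) (nat_lit 8) .nil))))) .nil)) 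
(.lf (nat_lit 46840) (.g (nat_lit 1816) (.e (nat_lit 1256) (nat_lit 92) (.e (nat_lit 98366) (nat_lit 27) (.e (nat_lit 434245) (nat_lit 28) (.e (nat_lit 573488) (nat_lit 14) (.e (nat_lit 73755) (nat_lit 8) .nil))))) .nil))))) (.nd (nat_lit 3) (.nd (nat_lit 4) (.nd (nat_lit 5) 
(.lf (nat_lit 46788) (.g (nat_lit 3703) (.e (nat_lit 1256) (nat_lit 92) (.e (nat_lit 98366) (nat_lit 27) (.e (nat_lit 434244) (nat_lit 28) (.e (nat_lit 573451) (nat_lit 9) (.e (nat_lit 1449) (nat_lit 108) (.e (nat_lit 336013) (nat_lit 2) (.e (nat_lit 90165) (nat_lit 12) (.e (nat_lit 164024) (nat_lit 51) (.e (nat_lit 745476) (nat_lit 0) .nil))))))))) (.g (nat_lit 4) .nil .nil))) 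
(.lf (nat_lit 46820) (.g (nat_lit 3229) (.e (nat_lit 1256) (nat_lit 92) (.e (nat_lit 98366) (nat_lit 27) (.e (nat_lit 434244) (nat_lit 28) (.e (nat_lit 573488) (nat_lit 14) (.e (nat_lit 73755) (nat_lit 8) (.e (nat_lit 557089) (nat_lit 12) (.e (nat_lit 164007) (nat_lit 41) (.e (nat_lit 663554) (nat_lit 0) .nil)))))))) (.g (nat_lit 4) .nil .nil)))) (.nd (nat_lit 5) 
(.lf (nat_lit 46804) (.g (nat_lit 2694) (.e (nat_lit 1256) (nat_lit 92) (.e (nat_lit 98366) (nat_lit 27) (.e (nat_lit 434244) (nat_lit 28) (.e (nat_lit 573487) (nat_lit 14) (.e (nat_lit 73746) (nat_lit 3) (.e (nat_lit 516120) (nat_lit 1) (.e (nat_lit 164195) (nat_lit 158) (.e (nat_lit 982) (nat_lit 81) .nil)))))))) (.g (nat_lit 4) .nil .nil))) 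
(.lf (nat_lit 46836) (.g (nat_lit 2498) (.e (nat_lit 1256) (nat_lit 92) (.e (nat_lit 98366) (nat_lit 27) (.e (nat_lit 434245) (nat_lit 28) (.e (nat_lit 573487) (nat_lit 14) (.e (nat_lit 73753) (nat_lit 8) (.e (nat_lit 557090) (nat_lit 12) (.e (nat_lit 164006) (nat_lit 41) (.e (nat_lit 671488) (nat_lit 0) .nil)))))))) (.g (nat_lit 4) .nil .nil))))) (.nd (nat_lit 4) (.nd (nat_lit 5) 
(.lf (nat_lit 46796) (.g (nat_lit 2674) (.e (nat_lit 1256) (nat_lit 92) (.e (nat_lit 98366) (nat_lit 27) (.e (nat_lit 434244) (nat_lit 28) (.e (nat_lit 573481) (nat_lit 13) (.e (nat_lit 65570) (nat_lit 3) .nil))))) .nil)) 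
(.lf (nat_lit 46828) (.g (nat_lit 3052) (.e (nat_lit 1256) (nat_lit 92) (.e (nat_lit 98366) (nat_lit 27) (.e (nat_lit 434245) (nat_lit 28) (.e (nat_lit 573481) (nat_lit 13) (.e (nat_lit 65570) (nat_lit 3) (.e (nat_lit 98325) (nat_lit 17) (.e (nat_lit 3579) (nat_lit 223) (.e (nat_lit 745476) (nat_lit 0) .nil)))))))) (.g (nat_lit 6) .nil .nil)))) (.nd (nat_lit 5) 
(.lf (nat_lit 46812) (.g (nat_lit 2978) (.e (nat_lit 1256) (nat_lit 92) (.e (nat_lit 98366) (nat_lit 27) (.e (nat_lit 434244) (nat_lit 28) (.e (nat_lit 573487) (nat_lit 14) (.e (nat_lit 73753) (nat_lit 8) (.e (nat_lit 557089) (nat_lit 12) (.e (nat_lit 164010) (nat_lit 41) (.e (nat_lit 663552) (nat_lit 0) .nil)))))))) (.g (nat_lit 4) .nil .nil))) 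
(.lf (nat_lit 46844) (.g (nat_lit 4767) (.e (nat_lit 1256) (nat_lit 92) (.e (nat_lit 98366) (nat_lit 27) (.e (nat_lit 434247) (nat_lit 28) (.e (nat_lit 573484) (nat_lit 13) (.e (nat_lit 65569) (nat_lit 3) (.e (nat_lit 98325) (nat_lit 17) (.e (nat_lit 3579) (nat_lit 223) (.e (nat_lit 745476) (nat_lit 0) .nil)))))))) (.g (nat_lit 8) .nil .nil))))))) 
(.nd (nat_lit 2) (.nd (nat_lit 3) (.nd (nat_lit 4) (.nd (nat_lit 5) 
(.lf (nat_lit 46786) (.g (nat_lit 2086) (.e (nat_lit 1256) (nat_lit 92) (.e (nat_lit 98366) (nat_lit 27) (.e (nat_lit 434231) (nat_lit 23) (.e (nat_lit 532514) (nat_lit 3) (.e (nat_lit 114719) (nat_lit 23) (.e (nat_lit 98334) (nat_lit 18) (.e (nat_lit 164380) (nat_lit 254) (.e (nat_lit 999) (nat_lit 81) .nil)))))))) (.g (nat_lit 4) .nil .nil))) 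
(.lf (nat_lit 46818) (.g (nat_lit 2900) (.e (nat_lit 1256) (nat_lit 92) (.e (nat_lit 98366) (nat_lit 27) (.e (nat_lit 434244) (nat_lit 28) (.e (nat_lit 573488) (nat_lit 14) (.e (nat_lit 81664) (nat_lit 5) .nil))))) .nil))) (.nd (nat_lit 5) 
(.lf (nat_lit 46802) (.g (nat_lit 2710) (.e (nat_lit 1256) (nat_lit 92) (.e (nat_lit 98366) (nat_lit 27) (.e (nat_lit 434244) (nat_lit 28) (.e (nat_lit 573481) (nat_lit 13) (.e (nat_lit 73472) (nat_lit 18) .nil))))) .nil)) 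
(.lf (nat_lit 46834) (.g (nat_lit 2151) (.e (nat_lit 1256) (nat_lit 92) (.e (nat_lit 98366) (nat_lit 27) (.e (nat_lit 434245) (nat_lit 28) (.e (nat_lit 573487) (nat_lit 14) (.e (nat_lit 73753) (nat_lit 8) (.e (nat_lit 557089) (nat_lit 12) (.e (nat_lit 164006) (nat_lit 41) (.e (nat_lit 671488) (nat_lit 0) .nil)))))))) (.g (nat_lit 4) .nil .nil))))) (.nd (nat_lit 4) (.nd (nat_lit 5) 
(.lf (nat_lit 46794) (.g (nat_lit 2556) (.e (nat_lit 1256) (nat_lit 92) (.e (nat_lit 98366) (nat_lit 27) (.e (nat_lit 434244) (nat_lit 28) (.e (nat_lit 573481) (nat_lit 13) (.e (nat_lit 65569) (nat_lit 3) .nil))))) .nil)) 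
(.lf (nat_lit 46826) (.g (nat_lit 1752) (.e (nat_lit 1256) (nat_lit 92) (.e (nat_lit 98366) (nat_lit 27) (.e (nat_lit 434245) (nat_lit 28) (.e (nat_lit 573481) (nat_lit 13) (.e (nat_lit 65569) (nat_lit 3) .nil))))) .nil))) (.nd (nat_lit 5) 
(.lf (nat_lit 46810) (.g (nat_lit 4013) (.e (nat_lit 1256) (nat_lit 92) (.e (nat_lit 98366) (nat_lit 27) (.e (nat_lit 434244) (nat_lit 28) (.e (nat_lit 573487) (nat_lit 14) (.e (nat_lit 73753) (nat_lit 8) (.e (nat_lit 557089) (nat_lit 12) (.e (nat_lit 164007) (nat_lit 41) (.e (nat_lit 663554) (nat_lit 0) .nil)))))))) (.g (nat_lit 5) .nil .nil))) 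
(.lf (nat_lit 46842) (.g (nat_lit 2945) (.e (nat_lit 1256) (nat_lit 92) (.e (nat_lit 98366) (nat_lit 27) (.e (nat_lit 434245) (nat_lit 28) (.e (nat_lit 573488) (nat_lit 14) (.e (nat_lit 73755) (nat_lit 8) (.e (nat_lit 557090) (nat_lit 12) (.e (nat_lit 164007) (nat_lit 41) (.e (nat_lit 663554) (nat_lit 0) .nil)))))))) (.g (nat_lit 5) .nil .nil)))))) 
(.nd (nat_lit 3) (.nd (nat_lit 4) (.nd (nat_lit 5) 
(.lf (nat_lit 46790) (.g (nat_lit 2607) (.e (nat_lit 1256) (nat_lit 92) (.e (nat_lit 98366) (nat_lit 27) (.e (nat_lit 434244) (nat_lit 28) (.e (nat_lit 573480) (nat_lit 13) (.e (nat_lit 65637) (nat_lit 15) .nil))))) .nil)) 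
(.lf (nat_lit 46822) (.g (nat_lit 3942) (.e (nat_lit 1256) (nat_lit 92) (.e (nat_lit 98366) (nat_lit 27) (.e (nat_lit 434244) (nat_lit 28) (.e (nat_lit 573488) (nat_lit 14) (.e (nat_lit 73755) (nat_lit 8) (.e (nat_lit 557090) (nat_lit 12) (.e (nat_lit 164006) (nat_lit 41) (.e (nat_lit 663554) (nat_lit 0) .nil)))))))) (.g (nat_lit 5) .nil .nil)))) (.nd (nat_lit 5) 
(.lf (nat_lit 46806) (.g (nat_lit 3209) (.e (nat_lit 1256) (nat_lit 92) (.e (nat_lit 98366) (nat_lit 27) (.e (nat_lit 434244) (nat_lit 28) (.e (nat_lit 573487) (nat_lit 14) (.e (nat_lit 73747) (nat_lit 3) (.e (nat_lit 516106) (nat_lit 0) (.e (nat_lit 3579) (nat_lit 223) (.e (nat_lit 745476) (nat_lit 0) .nil)))))))) (.g (nat_lit 4) .nil .nil))) 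
(.lf (nat_lit 46838) (.g (nat_lit 2589) (.e (nat_lit 1256) (nat_lit 92) (.e (nat_lit 98366) (nat_lit 27) (.e (nat_lit 434245) (nat_lit 28) (.e (nat_lit 573487) (nat_lit 14) (.e (nat_lit 73753) (nat_lit 8) (.e (nat_lit 557091) (nat_lit 12) (.e (nat_lit 164007) (nat_lit 41) (.e (nat_lit 663554) (nat_lit 0) .nil)))))))) (.g (nat_lit 4) .nil .nil))))) (.nd (nat_lit 4) (.nd (nat_lit 5) 
(.lf (nat_lit 46798) (.g (nat_lit 2905) (.e (nat_lit 1256) (nat_lit 92) (.e (nat_lit 98366) (nat_lit 27) (.e (nat_lit 434244) (nat_lit 28) (.e (nat_lit 573481) (nat_lit 13) (.e (nat_lit 65570) (nat_lit 3) (.e (nat_lit 98325) (nat_lit 17) (.e (nat_lit 3579) (nat_lit 223) (.e (nat_lit 745475) (nat_lit 0) .nil)))))))) (.g (nat_lit 4) .nil .nil))) 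
(.lf (nat_lit 46830) (.g (nat_lit 1955) (.e (nat_lit 1256) (nat_lit 92) (.e (nat_lit 98366) (nat_lit 27) (.e (nat_lit 434245) (nat_lit 28) (.e (nat_lit 573481) (nat_lit 13) (.e (nat_lit 73472) (nat_lit 18) .nil))))) .nil))) (.nd (nat_lit 5) 
(.lf (nat_lit 46814) (.g (nat_lit 2848) (.e (nat_lit 1256) (nat_lit 92) (.e (nat_lit 98366) (nat_lit 27) (.e (nat_lit 434244) (nat_lit 28) (.e (nat_lit 573487) (nat_lit 14) (.e (nat_lit 73753) (nat_lit 8) (.e (nat_lit 557091) (nat_lit 12) (.e (nat_lit 164005) (nat_lit 41) (.e (nat_lit 663554) (nat_lit 0) .nil)))))))) (.g (nat_lit 4) .nil .nil))) 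
(.lf (nat_lit 46846) (.g (nat_lit 1048) (.e (nat_lit 1256) (nat_lit 92) (.e (nat_lit 98366) (nat_lit 27) (.e (nat_lit 434247) (nat_lit 28) (.e (nat_lit 573485) (nat_lit 13) .nil)))) .nil))))))) (.nd (nat_lit 1) (.nd (nat_lit 2) (.nd (nat_lit 3) (.nd (nat_lit 4) (.nd (nat_lit 5) 
(.lf (nat_lit 46785) (.g (nat_lit 1968) (.e (nat_lit 1256) (nat_lit 92) (.e (nat_lit 98366) (nat_lit 27) (.e (nat_lit 434231) (nat_lit 23) (.e (nat_lit 532514) (nat_lit 3) (.e (nat_lit 114719) (nat_lit 23) .nil))))) .nil)) 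
(.lf (nat_lit 46817) (.g (nat_lit 3216) (.e (nat_lit 1256) (nat_lit 92) (.e (nat_lit 98366) (nat_lit 27) (.e (nat_lit 434244) (nat_lit 28) (.e (nat_lit 573488) (nat_lit 14) (.e (nat_lit 73744) (nat_lit 2) .nil))))) .nil))) (.nd (nat_lit 5) 
(.lf (nat_lit 46801) (.g (nat_lit 2658) (.e (nat_lit 1256) (nat_lit 92) (.e (nat_lit 98366) (nat_lit 27) (.e (nat_lit 434244) (nat_lit 28) (.e (nat_lit 573481) (nat_lit 13) (.e (nat_lit 65637) (nat_lit 15) .nil))))) .nil)) 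
(.lf (nat_lit 46833) (.g (nat_lit 2481) (.e (nat_lit 1256) (nat_lit 92) (.e (nat_lit 98366) (nat_lit 27) (.e (nat_lit 434245) (nat_lit 28) (.e (nat_lit 573487) (nat_lit 14) (.e (nat_lit 73753) (nat_lit 8) (.e (nat_lit 557089) (nat_lit 12) (.e (nat_lit 164006) (nat_lit 41) (.e (nat_lit 663554) (nat_lit 0) .nil)))))))) (.g (nat_lit 4) .nil .nil))))) (.nd (nat_lit 4) (.nd (nat_lit 5) 
(.lf (nat_lit 46793) (.g (nat_lit 2598) (.e (nat_lit 1256) (nat_lit 92) (.e (nat_lit 98366) (nat_lit 27) (.e (nat_lit 434244) (nat_lit 28) (.e (nat_lit 573481) (nat_lit 13) (.e (nat_lit 65568) (nat_lit 2) .nil))))) .nil)) 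
(.lf (nat_lit 46825) (.g (nat_lit 2052) (.e (nat_lit 1256) (nat_lit 92) (.e (nat_lit 98366) (nat_lit 27) (.e (nat_lit 434245) (nat_lit 28) (.e (nat_lit 573481) (nat_lit 13) (.e (nat_lit 65568) (nat_lit 2) .nil))))) .nil))) (.nd (nat_lit 5) 
(.lf (nat_lit 46809) (.g (nat_lit 2912) (.e (nat_lit 1256) (nat_lit 92) (.e (nat_lit 98366) (nat_lit 27) (.e (nat_lit 434244) (nat_lit 28) (.e (nat_lit 573487) (nat_lit 14) (.e (nat_lit 73753) (nat_lit 8) (.e (nat_lit 557089) (nat_lit 12) (.e (nat_lit 164006) (nat_lit 41) (.e (nat_lit 671488) (nat_lit 0) .nil)))))))) (.g (nat_lit 4) .nil .nil))) 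
(.lf (nat_lit 46841) (.g (nat_lit 2048) (.e (nat_lit 1256) (nat_lit 92) (.e (nat_lit 98366) (nat_lit 27) (.e (nat_lit 434245) (nat_lit 28) (.e (nat_lit 573488) (nat_lit 14) (.e (nat_lit 73755) (nat_lit 8) (.e (nat_lit 557089) (nat_lit 12) (.e (nat_lit 164006) (nat_lit 41) (.e (nat_lit 663554) (nat_lit 0) .nil)))))))) (.g (nat_lit 4) .nil .nil)))))) 
(.nd (nat_lit 3) (.nd (nat_lit 4) (.nd (nat_lit 5) 
(.lf (nat_lit 46789) (.g (nat_lit 3576) (.e (nat_lit 1256) (nat_lit 92) (.e (nat_lit 98366) (nat_lit 27) (.e (nat_lit 434244) (nat_lit 28) (.e (nat_lit 573480) (nat_lit 13) (.e (nat_lit 65571) (nat_lit 3) (.e (nat_lit 98325) (nat_lit 17) (.e (nat_lit 3579) (nat_lit 223) (.e (nat_lit 745476) (nat_lit 0) .nil)))))))) (.g (nat_lit 5) .nil .nil))) 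
(.lf (nat_lit 46821) (.g (nat_lit 2997) (.e (nat_lit 1256) (nat_lit 92) (.e (nat_lit 98366) (nat_lit 27) (.e (nat_lit 434244) (nat_lit 28) (.e (nat_lit 573488) (nat_lit 14) (.e (nat_lit 73755) (nat_lit 8) (.e (nat_lit 557090) (nat_lit 12) (.e (nat_lit 164005) (nat_lit 41) (.e (nat_lit 663554) (nat_lit 0) .nil)))))))) (.g (nat_lit 4) .nil .nil)))) (.nd (nat_lit 5) 
(.lf (nat_lit 46805) (.g (nat_lit 2935) (.e (nat_lit 1256) (nat_lit 92) (.e (nat_lit 98366) (nat_lit 27) (.e (nat_lit 434244) (nat_lit 28) (.e (nat_lit 573487) (nat_lit 14) (.e (nat_lit 73747) (nat_lit 3) .nil))))) .nil)) 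
(.lf (nat_lit 46837) (.g (nat_lit 2460) (.e (nat_lit 1256) (nat_lit 92) (.e (nat_lit 98366) (nat_lit 27) (.e (nat_lit 434245) (nat_lit 28) (.e (nat_lit 573487) (nat_lit 14) (.e (nat_lit 73753) (nat_lit 8) (.e (nat_lit 557090) (nat_lit 12) (.e (nat_lit 164007) (nat_lit 41) (.e (nat_lit 663554) (nat_lit 0) .nil)))))))) (.g (nat_lit 4) .nil .nil))))) (.nd (nat_lit 4) (.nd (nat_lit 5) 
(.lf (nat_lit 46797) (.g (nat_lit 2888) (.e (nat_lit 1256) (nat_lit 92) (.e (nat_lit 98366) (nat_lit 27) (.e (nat_lit 434244) (nat_lit 28) (.e (nat_lit 573481) (nat_lit 13) (.e (nat_lit 65570) (nat_lit 3) (.e (nat_lit 98325) (nat_lit 17) (.e (nat_lit 3578) (nat_lit 223) (.e (nat_lit 745476) (nat_lit 0) .nil)))))))) (.g (nat_lit 4) .nil .nil))) 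
(.lf (nat_lit 46829) (.g (nat_lit 3745) (.e (nat_lit 1256) (nat_lit 92) (.e (nat_lit 98366) (nat_lit 27) (.e (nat_lit 434245) (nat_lit 28) (.e (nat_lit 573481) (nat_lit 13) (.e (nat_lit 65571) (nat_lit 3) (.e (nat_lit 98325) (nat_lit 17) (.e (nat_lit 3579) (nat_lit 223) (.e (nat_lit 745476) (nat_lit 0) .nil)))))))) (.g (nat_lit 6) .nil .nil)))) (.nd (nat_lit 5) 
(.lf (nat_lit 46813) (.g (nat_lit 2809) (.e (nat_lit 1256) (nat_lit 92) (.e (nat_lit 98366) (nat_lit 27) (.e (nat_lit 434244) (nat_lit 28) (.e (nat_lit 573487) (nat_lit 14) (.e (nat_lit 73753) (nat_lit 8) (.e (nat_lit 557090) (nat_lit 12) (.e (nat_lit 164007) (nat_lit 41) (.e (nat_lit 663552) (nat_lit 0) .nil)))))))) (.g (nat_lit 4) .nil .nil))) 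
(.lf (nat_lit 46845) (.g (nat_lit 3576) (.e (nat_lit 1256) (nat_lit 92) (.e (nat_lit 98366) (nat_lit 27) (.e (nat_lit 434247) (nat_lit 28) (.e (nat_lit 573484) (nat_lit 13) (.e (nat_lit 65571) (nat_lit 3) (.e (nat_lit 98325) (nat_lit 17) (.e (nat_lit 3579) (nat_lit 223) (.e (nat_lit 745476) (nat_lit 0) .nil)))))))) (.g (nat_lit 6) .nil .nil))))))) 
(.nd (nat_lit 2) (.nd (nat_lit 3) (.nd (nat_lit 4) (.nd (nat_lit 5) 
(.lf (nat_lit 46787) (.g (nat_lit 1929) (.e (nat_lit 1256) (nat_lit 92) (.e (nat_lit 98366) (nat_lit 27) (.e (nat_lit 434231) (nat_lit 23) (.e (nat_lit 532579) (nat_lit 26) (.e (nat_lit 426124) (nat_lit 2) .nil))))) .nil)) 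
(.lf (nat_lit 46819) (.g (nat_lit 2832) (.e (nat_lit 1256) (nat_lit 92) (.e (nat_lit 98366) (nat_lit 27) (.e (nat_lit 434244) (nat_lit 28) (.e (nat_lit 573488) (nat_lit 14) (.e (nat_lit 73755) (nat_lit 8) .nil))))) .nil))) (.nd (nat_lit 5) 
(.lf (nat_lit 46803) (.g (nat_lit 3095) (.e (nat_lit 1256) (nat_lit 92) (.e (nat_lit 98366) (nat_lit 27) (.e (nat_lit 434244) (nat_lit 28) (.e (nat_lit 573487) (nat_lit 14) (.e (nat_lit 73744) (nat_lit 2) .nil))))) .nil)) 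
(.lf (nat_lit 46835) (.g (nat_lit 3252) (.e (nat_lit 1256) (nat_lit 92) (.e (nat_lit 98366) (nat_lit 27) (.e (nat_lit 434245) (nat_lit 28) (.e (nat_lit 573487) (nat_lit 14) (.e (nat_lit 73753) (nat_lit 8) (.e (nat_lit 557089) (nat_lit 12) (.e (nat_lit 164007) (nat_lit 41) (.e (nat_lit 663554) (nat_lit 0) .nil)))))))) (.g (nat_lit 5) .nil .nil))))) (.nd (nat_lit 4) (.nd (nat_lit 5) 
(.lf (nat_lit 46795) (.g (nat_lit 4767) (.e (nat_lit 1256) (nat_lit 92) (.e (nat_lit 98366) (nat_lit 27) (.e (nat_lit 434244) (nat_lit 28) (.e (nat_lit 573481) (nat_lit 13) (.e (nat_lit 65569) (nat_lit 3) (.e (nat_lit 98325) (nat_lit 17) (.e (nat_lit 3579) (nat_lit 223) (.e (nat_lit 745476) (nat_lit 0) .nil)))))))) (.g (nat_lit 8) .nil .nil))) 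
(.lf (nat_lit 46827) (.g (nat_lit 1903) (.e (nat_lit 1256) (nat_lit 92) (.e (nat_lit 98366) (nat_lit 27) (.e (nat_lit 434245) (nat_lit 28) (.e (nat_lit 573481) (nat_lit 13) (.e (nat_lit 65570) (nat_lit 3) .nil))))) .nil))) (.nd (nat_lit 5) 
(.lf (nat_lit 46811) (.g (nat_lit 2908) (.e (nat_lit 1256) (nat_lit 92) (.e (nat_lit 98366) (nat_lit 27) (.e (nat_lit 434244) (nat_lit 28) (.e (nat_lit 573487) (nat_lit 14) (.e (nat_lit 73753) (nat_lit 8) (.e (nat_lit 557089) (nat_lit 12) (.e (nat_lit 164007) (nat_lit 41) (.e (nat_lit 671488) (nat_lit 0) .nil)))))))) (.g (nat_lit 4) .nil .nil))) 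
(.lf (nat_lit 46843) (.g (nat_lit 1799) (.e (nat_lit 1256) (nat_lit 92) (.e (nat_lit 98366) (nat_lit 27) (.e (nat_lit 434247) (nat_lit 28) (.e (nat_lit 573484) (nat_lit 13) (.e (nat_lit 65568) (nat_lit 2) .nil))))) .nil))))) (.nd (nat_lit 3) (.nd (nat_lit 4) (.nd (nat_lit 5) 
(.lf (nat_lit 46791) (.g (nat_lit 1404) (.e (nat_lit 1256) (nat_lit 92) (.e (nat_lit 98366) (nat_lit 27) (.e (nat_lit 434244) (nat_lit 28) (.e (nat_lit 573481) (nat_lit 13) .nil)))) .nil)) 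
(.lf (nat_lit 46823) (.g (nat_lit 3116) (.e (nat_lit 1256) (nat_lit 92) (.e (nat_lit 98366) (nat_lit 27) (.e (nat_lit 434244) (nat_lit 28) (.e (nat_lit 573488) (nat_lit 14) (.e (nat_lit 73755) (nat_lit 8) (.e (nat_lit 557091) (nat_lit 12) (.e (nat_lit 164006) (nat_lit 41) (.e (nat_lit 663554) (nat_lit 0) .nil)))))))) (.g (nat_lit 4) .nil .nil)))) (.nd (nat_lit 5) 
(.lf (nat_lit 46807) (.g (nat_lit 2747) (.e (nat_lit 1256) (nat_lit 92) (.e (nat_lit 98366) (nat_lit 27) (.e (nat_lit 434244) (nat_lit 28) (.e (nat_lit 573487) (nat_lit 14) (.e (nat_lit 81664) (nat_lit 5) .nil))))) .nil)) 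
(.lf (nat_lit 46839) (.g (nat_lit 1904) (.e (nat_lit 1256) (nat_lit 92) (.e (nat_lit 98366) (nat_lit 27) (.e (nat_lit 434245) (nat_lit 28) (.e (nat_lit 573488) (nat_lit 14) (.e (nat_lit 81664) (nat_lit 5) .nil))))) .nil)))) (.nd (nat_lit 4) (.nd (nat_lit 5) 
(.lf (nat_lit 46799) (.g (nat_lit 2855) (.e (nat_lit 1256) (nat_lit 92) (.e (nat_lit 98366) (nat_lit 27) (.e (nat_lit 434244) (nat_lit 28) (.e (nat_lit 573481) (nat_lit 13) (.e (nat_lit 65570) (nat_lit 3) (.e (nat_lit 98326) (nat_lit 17) (.e (nat_lit 3579) (nat_lit 223) (.e (nat_lit 745476) (nat_lit 0) .nil)))))))) (.g (nat_lit 4) .nil .nil))) 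
(.lf (nat_lit 46831) (.g (nat_lit 1102) (.e (nat_lit 1256) (nat_lit 92) (.e (nat_lit 98366) (nat_lit 27) (.e (nat_lit 434245) (nat_lit 28) (.e (nat_lit 573487) (nat_lit 14) .nil)))) .nil))) (.nd (nat_lit 5) 
(.lf (nat_lit 46815) (.g (nat_lit 2938) (.e (nat_lit 1256) (nat_lit 92) (.e (nat_lit 98366) (nat_lit 27) (.e (nat_lit 434244) (nat_lit 28) (.e (nat_lit 573487) (nat_lit 14) (.e (nat_lit 73753) (nat_lit 8) (.e (nat_lit 557091) (nat_lit 12) (.e (nat_lit 164007) (nat_lit 41) (.e (nat_lit 663552) (nat_lit 0) .nil)))))))) (.g (nat_lit 4) .nil .nil))) 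
(.lf (nat_lit 46847) (.g (nat_lit 2976) (.e (nat_lit 1256) (nat_lit 92) (.e (nat_lit 98366) (nat_lit 27) (.e (nat_lit 434247) (nat_lit 28) (.e (nat_lit 573485) (nat_lit 13) (.e (nat_lit 65570) (nat_lit 3) (.e (nat_lit 98325) (nat_lit 17) (.e (nat_lit 3579) (nat_lit 223) (.e (nat_lit 745476) (nat_lit 0) .nil)))))))) (.g (nat_lit 6) .nil .nil)))))))))

noncomputable def tv651 : DT := (.nd (nat_lit 0) (.nd (nat_lit 1) (.nd (nat_lit 2) (.nd (nat_lit 3) (.nd (nat_lit 4) (.nd (nat_lit 5) 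
(.lf (nat_lit 46848) (.g (nat_lit 1584) (.e (nat_lit 1256) (nat_lit 92) (.e (nat_lit 98366) (nat_lit 27) (.e (nat_lit 434247) (nat_lit 28) (.e (nat_lit 573485) (nat_lit 13) (.e (nat_lit 65571) (nat_lit 3) .nil))))) .nil)) 
(.lf (nat_lit 46880) (.g (nat_lit 2938) (.e (nat_lit 1256) (nat_lit 92) (.e (nat_lit 98367) (nat_lit 27) (.e (nat_lit 434231) (nat_lit 23) (.e (nat_lit 532513) (nat_lit 3) (.e (nat_lit 114714) (nat_lit 22) (.e (nat_lit 90162) (nat_lit 12) (.e (nat_lit 164007) (nat_lit 41) (.e (nat_lit 663554) (nat_lit 0) .nil)))))))) (.g (nat_lit 4) .nil .nil)))) (.nd (nat_lit 5) 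
(.lf (nat_lit 46864) (.g (nat_lit 1929) (.e (nat_lit 1256) (nat_lit 92) (.e (nat_lit 98366) (nat_lit 27) (.e (nat_lit 434248) (nat_lit 28) (.e (nat_lit 573487) (nat_lit 14) (.e (nat_lit 81664) (nat_lit 5) .nil))))) .nil)) 
(.lf (nat_lit 46896) (.g (nat_lit 2738) (.e (nat_lit 1256) (nat_lit 92) (.e (nat_lit 98367) (nat_lit 27) (.e (nat_lit 434244) (nat_lit 28) (.e (nat_lit 573488) (nat_lit 14) (.e (nat_lit 73755) (nat_lit 8) (.e (nat_lit 557089) (nat_lit 12) (.e (nat_lit 164007) (nat_lit 41) (.e (nat_lit 663554) (nat_lit 0) .nil)))))))) (.g (nat_lit 4) .nil .nil))))) (.nd (nat_lit 4) (.nd (nat_lit 5) 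
(.lf (nat_lit 46856) (.g (nat_lit 3634) (.e (nat_lit 1256) (nat_lit 92) (.e (nat_lit 98366) (nat_lit 27) (.e (nat_lit 434248) (nat_lit 28) (.e (nat_lit 573482) (nat_lit 13) (.e (nat_lit 65569) (nat_lit 3) (.e (nat_lit 98325) (nat_lit 17) (.e (nat_lit 3579) (nat_lit 223) (.e (nat_lit 745476) (nat_lit 0) .nil)))))))) (.g (nat_lit 5) .nil .nil))) 
(.lf (nat_lit 46888) (.g (nat_lit 2572) (.e (nat_lit 1256) (nat_lit 92) (.e (nat_lit 98367) (nat_lit 27) (.e (nat_lit 434244) (nat_lit 28) (.e (nat_lit 573481) (nat_lit 13) (.e (nat_lit 65571) (nat_lit 3) .nil))))) .nil))) (.nd (nat_lit 5) 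
(.lf (nat_lit 46872) (.g (nat_lit 4384) (.e (nat_lit 1256) (nat_lit 92) (.e (nat_lit 98366) (nat_lit 27) (.e (nat_lit 434248) (nat_lit 28) (.e (nat_lit 573489) (nat_lit 14) (.e (nat_lit 73755) (nat_lit 8) (.e (nat_lit 557090) (nat_lit 12) (.e (nat_lit 164007) (nat_lit 41) (.e (nat_lit 663554) (nat_lit 0) .nil)))))))) (.g (nat_lit 6) .nil .nil))) 
(.lf (nat_lit 46904) (.g (nat_lit 2265) (.e (nat_lit 1256) (nat_lit 92) (.e (nat_lit 98367) (nat_lit 27) (.e (nat_lit 434245) (nat_lit 28) (.e (nat_lit 573487) (nat_lit 14) (.e (nat_lit 73753) (nat_lit 8) .nil))))) .nil))))) (.nd (nat_lit 3) (.nd (nat_lit 4) (.nd (nat_lit 5) 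
(.lf (nat_lit 46852) (.g (nat_lit 3517) (.e (nat_lit 1256) (nat_lit 92) (.e (nat_lit 98366) (nat_lit 27) (.e (nat_lit 434247) (nat_lit 28) (.e (nat_lit 573489) (nat_lit 14) (.e (nat_lit 73755) (nat_lit 8) (.e (nat_lit 557089) (nat_lit 12) (.e (nat_lit 164007) (nat_lit 41) (.e (nat_lit 663554) (nat_lit 0) .nil)))))))) (.g (nat_lit 6) .nil .nil))) 
(.lf (nat_lit 46884) (.g (nat_lit 3165) (.e (nat_lit 1256) (nat_lit 92) (.e (nat_lit 98367) (nat_lit 27) (.e (nat_lit 434244) (nat_lit 28) (.e (nat_lit 573451) (nat_lit 9) (.e (nat_lit 1449) (nat_lit 108) .nil))))) .nil))) (.nd (nat_lit 5) 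
(.lf (nat_lit 46868) (.g (nat_lit 2901) (.e (nat_lit 1256) (nat_lit 92) (.e (nat_lit 98366) (nat_lit 27) (.e (nat_lit 434248) (nat_lit 28) (.e (nat_lit 573487) (nat_lit 14) (.e (nat_lit 73753) (nat_lit 8) (.e (nat_lit 557089) (nat_lit 12) (.e (nat_lit 164006) (nat_lit 41) (.e (nat_lit 663554) (nat_lit 0) .nil)))))))) (.g (nat_lit 5) .nil .nil))) 
(.lf (nat_lit 46900) (.g (nat_lit 3075) (.e (nat_lit 1256) (nat_lit 92) (.e (nat_lit 98367) (nat_lit 27) (.e (nat_lit 434245) (nat_lit 28) (.e (nat_lit 573481) (nat_lit 13) (.e (nat_lit 65569) (nat_lit 3) (.e (nat_lit 98325) (nat_lit 17) (.e (nat_lit 3579) (nat_lit 223) (.e (nat_lit 745476) (nat_lit 0) .nil)))))))) (.g (nat_lit 6) .nil .nil))))) (.nd (nat_lit 4) (.nd (nat_lit 5) 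
(.lf (nat_lit 46860) (.g (nat_lit 2358) (.e (nat_lit 1256) (nat_lit 92) (.e (nat_lit 98366) (nat_lit 27) (.e (nat_lit 434248) (nat_lit 28) (.e (nat_lit 573482) (nat_lit 13) (.e (nat_lit 73472) (nat_lit 18) .nil))))) .nil)) 
(.lf (nat_lit 46892) (.g (nat_lit 2478) (.e (nat_lit 1256) (nat_lit 92) (.e (nat_lit 98367) (nat_lit 27) (.e (nat_lit 434244) (nat_lit 28) (.e (nat_lit 573487) (nat_lit 14) (.e (nat_lit 81664) (nat_lit 5) .nil))))) .nil))) (.nd (nat_lit 5) 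
(.lf (nat_lit 46876) (.g (nat_lit 2036) (.e (nat_lit 1256) (nat_lit 92) (.e (nat_lit 98367) (nat_lit 27) (.e (nat_lit 434231) (nat_lit 23) (.e (nat_lit 532507) (nat_lit 2) .nil)))) .nil)) 
(.lf (nat_lit 46908) (.g (nat_lit 2976) (.e (nat_lit 1256) (nat_lit 92) (.e (nat_lit 98367) (nat_lit 27) (.e (nat_lit 434245) (nat_lit 28) (.e (nat_lit 573488) (nat_lit 14) (.e (nat_lit 73755) (nat_lit 8) (.e (nat_lit 557090) (nat_lit 12) (.e (nat_lit 164006) (nat_lit 41) (.e (nat_lit 663554) (nat_lit 0) .nil)))))))) (.g (nat_lit 5) .nil .nil))))))) 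
(.nd (nat_lit 2) (.nd (nat_lit 3) (.nd (nat_lit 4) (.nd (nat_lit 5) 
(.lf (nat_lit 46850) (.g (nat_lit 3033) (.e (nat_lit 1256) (nat_lit 92) (.e (nat_lit 98366) (nat_lit 27) (.e (nat_lit 434247) (nat_lit 28) (.e (nat_lit 573489) (nat_lit 14) (.e (nat_lit 73755) (nat_lit 8) (.e (nat_lit 557089) (nat_lit 12) (.e (nat_lit 164006) (nat_lit 41) (.e (nat_lit 663554) (nat_lit 0) .nil)))))))) (.g (nat_lit 5) .nil .nil))) 
(.lf (nat_lit 46882) (.g (nat_lit 735) (.e (nat_lit 1256) (nat_lit 92) (.e (nat_lit 98367) (nat_lit 27) (.e (nat_lit 434234) (nat_lit 23) .nil))) .nil))) (.nd (nat_lit 5) 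
(.lf (nat_lit 46866) (.g (nat_lit 2124) (.e (nat_lit 1256) (nat_lit 92) (.e (nat_lit 98366) (nat_lit 27) (.e (nat_lit 434248) (nat_lit 28) (.e (nat_lit 573487) (nat_lit 14) (.e (nat_lit 81664) (nat_lit 5) (.e (nat_lit 532490) (nat_lit 0) (.e (nat_lit 7936) (nat_lit 151) (.e (nat_lit 778246) (nat_lit 0) .nil)))))))) (.g (nat_lit 4) .nil .nil))) 
(.lf (nat_lit 46898) (.g (nat_lit 2626) (.e (nat_lit 1256) (nat_lit 92) (.e (nat_lit 98367) (nat_lit 27) (.e (nat_lit 434244) (nat_lit 28) (.e (nat_lit 573488) (nat_lit 14) (.e (nat_lit 73755) (nat_lit 8) (.e (nat_lit 557091) (nat_lit 12) (.e (nat_lit 164006) (nat_lit 41) (.e (nat_lit 663554) (nat_lit 0) .nil)))))))) (.g (nat_lit 4) .nil .nil))))) (.nd (nat_lit 4) (.nd (nat_lit 5) 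
(.lf (nat_lit 46858) (.g (nat_lit 2596) (.e (nat_lit 1256) (nat_lit 92) (.e (nat_lit 98366) (nat_lit 27) (.e (nat_lit 434248) (nat_lit 28) (.e (nat_lit 573482) (nat_lit 13) (.e (nat_lit 65571) (nat_lit 3) (.e (nat_lit 98325) (nat_lit 17) (.e (nat_lit 3579) (nat_lit 223) (.e (nat_lit 745475) (nat_lit 0) .nil)))))))) (.g (nat_lit 4) .nil .nil))) 
(.lf (nat_lit 46890) (.g (nat_lit 2554) (.e (nat_lit 1256) (nat_lit 92) (.e (nat_lit 98367) (nat_lit 27) (.e (nat_lit 434244) (nat_lit 28) (.e (nat_lit 573481) (nat_lit 13) (.e (nat_lit 65637) (nat_lit 15) .nil))))) .nil))) (.nd (nat_lit 5) 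
(.lf (nat_lit 46874) (.g (nat_lit 3737) (.e (nat_lit 1256) (nat_lit 92) (.e (nat_lit 98367) (nat_lit 27) (.e (nat_lit 434231) (nat_lit 23) (.e (nat_lit 532490) (nat_lit 0) (.e (nat_lit 2155) (nat_lit 142) .nil))))) .nil)) 
(.lf (nat_lit 46906) (.g (nat_lit 2510) (.e (nat_lit 1256) (nat_lit 92) (.e (nat_lit 98367) (nat_lit 27) (.e (nat_lit 434245) (nat_lit 28) (.e (nat_lit 573487) (nat_lit 14) (.e (nat_lit 73753) (nat_lit 8) (.e (nat_lit 557091) (nat_lit 12) (.e (nat_lit 164006) (nat_lit 41) (.e (nat_lit 663554) (nat_lit 0) .nil)))))))) (.g (nat_lit 4) .nil .nil)))))) 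
(.nd (nat_lit 3) (.nd (nat_lit 4) (.nd (nat_lit 5) 
(.lf (nat_lit 46854) (.g (nat_lit 2489) (.e (nat_lit 1256) (nat_lit 92) (.e (nat_lit 98366) (nat_lit 27) (.e (nat_lit 434248) (nat_lit 28) (.e (nat_lit 573482) (nat_lit 13) (.e (nat_lit 65568) (nat_lit 2) .nil))))) .nil)) 
(.lf (nat_lit 46886) (.g (nat_lit 2332) (.e (nat_lit 1256) (nat_lit 92) (.e (nat_lit 98367) (nat_lit 27) (.e (nat_lit 434244) (nat_lit 28) (.e (nat_lit 573481) (nat_lit 13) (.e (nat_lit 65570) (nat_lit 3) .nil))))) .nil))) (.nd (nat_lit 5) 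
(.lf (nat_lit 46870) (.g (nat_lit 2546) (.e (nat_lit 1256) (nat_lit 92) (.e (nat_lit 98366) (nat_lit 27) (.e (nat_lit 434248) (nat_lit 28) (.e (nat_lit 573489) (nat_lit 14) (.e (nat_lit 73754) (nat_lit 8) .nil))))) .nil)) 
(.lf (nat_lit 46902) (.g (nat_lit 3521) (.e (nat_lit 1256) (nat_lit 92) (.e (nat_lit 98367) (nat_lit 27) (.e (nat_lit 434245) (nat_lit 28) (.e (nat_lit 573481) (nat_lit 13) (.e (nat_lit 65571) (nat_lit 3) (.e (nat_lit 98325) (nat_lit 17) (.e (nat_lit 3579) (nat_lit 223) (.e (nat_lit 745476) (nat_lit 0) .nil)))))))) (.g (nat_lit 5) .nil .nil))))) (.nd (nat_lit 4) (.nd (nat_lit 5) 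
(.lf (nat_lit 46862) (.g (nat_lit 1929) (.e (nat_lit 1256) (nat_lit 92) (.e (nat_lit 98366) (nat_lit 27) (.e (nat_lit 434248) (nat_lit 28) (.e (nat_lit 573487) (nat_lit 14) (.e (nat_lit 81664) (nat_lit 1) .nil))))) .nil)) 
(.lf (nat_lit 46894) (.g (nat_lit 3042) (.e (nat_lit 1256) (nat_lit 92) (.e (nat_lit 98367) (nat_lit 27) (.e (nat_lit 434244) (nat_lit 28) (.e (nat_lit 573487) (nat_lit 14) (.e (nat_lit 73753) (nat_lit 8) (.e (nat_lit 557089) (nat_lit 12) (.e (nat_lit 164007) (nat_lit 41) (.e (nat_lit 663554) (nat_lit 0) .nil)))))))) (.g (nat_lit 4) .nil .nil)))) (.nd (nat_lit 5) 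
(.lf (nat_lit 46878) (.g (nat_lit 1979) (.e (nat_lit 1256) (nat_lit 92) (.e (nat_lit 98367) (nat_lit 27) (.e (nat_lit 434231) (nat_lit 23) (.e (nat_lit 532513) (nat_lit 3) .nil)))) .nil)) 
(.lf (nat_lit 46910) (.g (nat_lit 2722) (.e (nat_lit 1256) (nat_lit 92) (.e (nat_lit 98367) (nat_lit 27) (.e (nat_lit 434245) (nat_lit 28) (.e (nat_lit 573488) (nat_lit 14) (.e (nat_lit 73755) (nat_lit 8) (.e (nat_lit 557090) (nat_lit 12) (.e (nat_lit 164007) (nat_lit 41) (.e (nat_lit 663554) (nat_lit 0) .nil)))))))) (.g (nat_lit 5) .nil .nil)))))))) 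
(.nd (nat_lit 1) (.nd (nat_lit 2) (.nd (nat_lit 3) (.nd (nat_lit 4) (.nd (nat_lit 5) 
(.lf (nat_lit 46849) (.g (nat_lit 3075) (.e (nat_lit 1256) (nat_lit 92) (.e (nat_lit 98366) (nat_lit 27) (.e (nat_lit 434247) (nat_lit 28) (.e (nat_lit 573485) (nat_lit 13) (.e (nat_lit 65571) (nat_lit 3) (.e (nat_lit 98325) (nat_lit 17) (.e (nat_lit 3579) (nat_lit 223) (.e (nat_lit 745476) (nat_lit 0) .nil)))))))) (.g (nat_lit 6) .nil .nil))) 
(.lf (nat_lit 46881) (.g (nat_lit 1801) (.e (nat_lit 1256) (nat_lit 92) (.e (nat_lit 98367) (nat_lit 27) (.e (nat_lit 434231) (nat_lit 23) (.e (nat_lit 532514) (nat_lit 3) .nil)))) .nil))) (.nd (nat_lit 5) 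
(.lf (nat_lit 46865) (.g (nat_lit 2025) (.e (nat_lit 1256) (nat_lit 92) (.e (nat_lit 98366) (nat_lit 27) (.e (nat_lit 434248) (nat_lit 28) (.e (nat_lit 573487) (nat_lit 14) (.e (nat_lit 81664) (nat_lit 5) (.e (nat_lit 532482) (nat_lit 0) (.e (nat_lit 2291) (nat_lit 151) (.e (nat_lit 778246) (nat_lit 0) .nil)))))))) (.g (nat_lit 4) .nil .nil))) 
(.lf (nat_lit 46897) (.g (nat_lit 2707) (.e (nat_lit 1256) (nat_lit 92) (.e (nat_lit 98367) (nat_lit 27) (.e (nat_lit 434244) (nat_lit 28) (.e (nat_lit 573488) (nat_lit 14) (.e (nat_lit 73755) (nat_lit 8) (.e (nat_lit 557090) (nat_lit 12) (.e (nat_lit 164007) (nat_lit 41) (.e (nat_lit 663552) (nat_lit 0) .nil)))))))) (.g (nat_lit 4) .nil .nil))))) (.nd (nat_lit 4) (.nd (nat_lit 5) 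
(.lf (nat_lit 46857) (.g (nat_lit 2586) (.e (nat_lit 1256) (nat_lit 92) (.e (nat_lit 98366) (nat_lit 27) (.e (nat_lit 434248) (nat_lit 28) (.e (nat_lit 573482) (nat_lit 13) (.e (nat_lit 65571) (nat_lit 3) (.e (nat_lit 98325) (nat_lit 17) (.e (nat_lit 3578) (nat_lit 223) (.e (nat_lit 745476) (nat_lit 0) .nil)))))))) (.g (nat_lit 4) .nil .nil))) 
(.lf (nat_lit 46889) (.g (nat_lit 3885) (.e (nat_lit 1256) (nat_lit 92) (.e (nat_lit 98367) (nat_lit 27) (.e (nat_lit 434244) (nat_lit 28) (.e (nat_lit 573481) (nat_lit 13) (.e (nat_lit 65571) (nat_lit 3) (.e (nat_lit 98325) (nat_lit 17) (.e (nat_lit 3579) (nat_lit 223) (.e (nat_lit 745476) (nat_lit 0) .nil)))))))) (.g (nat_lit 5) .nil .nil)))) (.nd (nat_lit 5) 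
(.lf (nat_lit 46873) (.g (nat_lit 735) (.e (nat_lit 1256) (nat_lit 92) (.e (nat_lit 98367) (nat_lit 27) (.e (nat_lit 434231) (nat_lit 23) .nil))) .nil)) 
(.lf (nat_lit 46905) (.g (nat_lit 2444) (.e (nat_lit 1256) (nat_lit 92) (.e (nat_lit 98367) (nat_lit 27) (.e (nat_lit 434245) (nat_lit 28) (.e (nat_lit 573487) (nat_lit 14) (.e (nat_lit 73753) (nat_lit 8) (.e (nat_lit 557089) (nat_lit 12) (.e (nat_lit 164007) (nat_lit 41) (.e (nat_lit 663552) (nat_lit 0) .nil)))))))) (.g (nat_lit 4) .nil .nil)))))) 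
(.nd (nat_lit 3) (.nd (nat_lit 4) (.nd (nat_lit 5) 
(.lf (nat_lit 46853) (.g (nat_lit 2201) (.e (nat_lit 1256) (nat_lit 92) (.e (nat_lit 98366) (nat_lit 27) (.e (nat_lit 434248) (nat_lit 28) (.e (nat_lit 573480) (nat_lit 13) (.e (nat_lit 65571) (nat_lit 3) (.e (nat_lit 98325) (nat_lit 17) (.e (nat_lit 3579) (nat_lit 223) (.e (nat_lit 745476) (nat_lit 0) .nil)))))))) (.g (nat_lit 4) .nil .nil))) 
(.lf (nat_lit 46885) (.g (nat_lit 3576) (.e (nat_lit 1256) (nat_lit 92) (.e (nat_lit 98367) (nat_lit 27) (.e (nat_lit 434244) (nat_lit 28) (.e (nat_lit 573481) (nat_lit 13) (.e (nat_lit 65569) (nat_lit 3) (.e (nat_lit 98325) (nat_lit 17) (.e (nat_lit 3579) (nat_lit 223) (.e (nat_lit 745476) (nat_lit 0) .nil)))))))) (.g (nat_lit 6) .nil .nil)))) (.nd (nat_lit 5) 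
(.lf (nat_lit 46869) (.g (nat_lit 3672) (.e (nat_lit 1256) (nat_lit 92) (.e (nat_lit 98366) (nat_lit 27) (.e (nat_lit 434248) (nat_lit 28) (.e (nat_lit 573487) (nat_lit 14) (.e (nat_lit 73753) (nat_lit 8) (.e (nat_lit 557089) (nat_lit 12) (.e (nat_lit 164007) (nat_lit 41) (.e (nat_lit 663554) (nat_lit 0) .nil)))))))) (.g (nat_lit 6) .nil .nil))) 
(.lf (nat_lit 46901) (.g (nat_lit 2828) (.e (nat_lit 1256) (nat_lit 92) (.e (nat_lit 98367) (nat_lit 27) (.e (nat_lit 434245) (nat_lit 28) (.e (nat_lit 573481) (nat_lit 13) (.e (nat_lit 65570) (nat_lit 3) (.e (nat_lit 98325) (nat_lit 17) (.e (nat_lit 3579) (nat_lit 223) (.e (nat_lit 745476) (nat_lit 0) .nil)))))))) (.g (nat_lit 5) .nil .nil))))) (.nd (nat_lit 4) (.nd (nat_lit 5) 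
(.lf (nat_lit 46861) (.g (nat_lit 1113) (.e (nat_lit 1256) (nat_lit 92) (.e (nat_lit 98366) (nat_lit 27) (.e (nat_lit 434248) (nat_lit 28) (.e (nat_lit 573487) (nat_lit 14) .nil)))) .nil)) 
(.lf (nat_lit 46893) (.g (nat_lit 2659) (.e (nat_lit 1256) (nat_lit 92) (.e (nat_lit 98367) (nat_lit 27) (.e (nat_lit 434244) (nat_lit 28) (.e (nat_lit 573487) (nat_lit 14) (.e (nat_lit 73753) (nat_lit 8) .nil))))) .nil))) (.nd (nat_lit 5) 
(.lf (nat_lit 46877) (.g (nat_lit 3520) (.e (nat_lit 1256) (nat_lit 92) (.e (nat_lit 98367) (nat_lit 27) (.e (nat_lit 434231) (nat_lit 23) (.e (nat_lit 532507) (nat_lit 2) (.e (nat_lit 106537) (nat_lit 12) (.e (nat_lit 57476) (nat_lit 28) (.e (nat_lit 557090) (nat_lit 12) (.e (nat_lit 164038) (nat_lit 55) (.e (nat_lit 778246) (nat_lit 0) .nil))))))))) (.g (nat_lit 6) .nil .nil))) 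
(.lf (nat_lit 46909) (.g (nat_lit 2231) (.e (nat_lit 1256) (nat_lit 92) (.e (nat_lit 98367) (nat_lit 27) (.e (nat_lit 434245) (nat_lit 28) (.e (nat_lit 573488) (nat_lit 14) (.e (nat_lit 73755) (nat_lit 8) (.e (nat_lit 557090) (nat_lit 12) (.e (nat_lit 164007) (nat_lit 41) (.e (nat_lit 663552) (nat_lit 0) .nil)))))))) (.g (nat_lit 4) .nil .nil))))))) 
(.nd (nat_lit 2) (.nd (nat_lit 3) (.nd (nat_lit 4) (.nd (nat_lit 5) 
(.lf (nat_lit 46851) (.g (nat_lit 3008) (.e (nat_lit 1256) (nat_lit 92) (.e (nat_lit 98366) (nat_lit 27) (.e (nat_lit 434247) (nat_lit 28) (.e (nat_lit 573489) (nat_lit 14) (.e (nat_lit 73755) (nat_lit 8) (.e (nat_lit 557089) (nat_lit 12) (.e (nat_lit 164007) (nat_lit 41) (.e (nat_lit 663552) (nat_lit 0) .nil)))))))) (.g (nat_lit 5) .nil .nil))) 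
(.lf (nat_lit 46883) (.g (nat_lit 696) (.e (nat_lit 1256) (nat_lit 92) (.e (nat_lit 98367) (nat_lit 27) (.e (nat_lit 434244) (nat_lit 28) .nil))) .nil))) (.nd (nat_lit 5) 
(.lf (nat_lit 46867) (.g (nat_lit 1972) (.e (nat_lit 1256) (nat_lit 92) (.e (nat_lit 98366) (nat_lit 27) (.e (nat_lit 434248) (nat_lit 28) (.e (nat_lit 573487) (nat_lit 14) (.e (nat_lit 73753) (nat_lit 8) .nil))))) .nil)) 
(.lf (nat_lit 46899) (.g (nat_lit 1309) (.e (nat_lit 1256) (nat_lit 92) (.e (nat_lit 98367) (nat_lit 27) (.e (nat_lit 434245) (nat_lit 28) (.e (nat_lit 573481) (nat_lit 13) .nil)))) .nil)))) (.nd (nat_lit 4) (.nd (nat_lit 5) 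
(.lf (nat_lit 46859) (.g (nat_lit 2425) (.e (nat_lit 1256) (nat_lit 92) (.e (nat_lit 98366) (nat_lit 27) (.e (nat_lit 434248) (nat_lit 28) (.e (nat_lit 573482) (nat_lit 13) (.e (nat_lit 65637) (nat_lit 15) (.e (nat_lit 3253) (nat_lit 197) (.e (nat_lit 532503) (nat_lit 1) (.e (nat_lit 57870) (nat_lit 264) (.e (nat_lit 988) (nat_lit 81) .nil))))))))) (.g (nat_lit 4) .nil .nil))) 
(.lf (nat_lit 46891) (.g (nat_lit 2481) (.e (nat_lit 1256) (nat_lit 92) (.e (nat_lit 98367) (nat_lit 27) (.e (nat_lit 434244) (nat_lit 28) (.e (nat_lit 573481) (nat_lit 13) (.e (nat_lit 73472) (nat_lit 18) .nil))))) .nil))) (.nd (nat_lit 5) 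
(.lf (nat_lit 46875) (.g (nat_lit 2600) (.e (nat_lit 1256) (nat_lit 92) (.e (nat_lit 98367) (nat_lit 27) (.e (nat_lit 434231) (nat_lit 23) (.e (nat_lit 532506) (nat_lit 2) (.e (nat_lit 106537) (nat_lit 12) (.e (nat_lit 57477) (nat_lit 28) (.e (nat_lit 557090) (nat_lit 12) (.e (nat_lit 164038) (nat_lit 55) (.e (nat_lit 778246) (nat_lit 0) .nil))))))))) (.g (nat_lit 4) .nil .nil))) 
(.lf (nat_lit 46907) (.g (nat_lit 1266) (.e (nat_lit 1256) (nat_lit 92) (.e (nat_lit 98367) (nat_lit 27) (.e (nat_lit 434245) (nat_lit 28) (.e (nat_lit 573488) (nat_lit 14) .nil)))) .nil))))) (.nd (nat_lit 3) (.nd (nat_lit 4) (.nd (nat_lit 5) 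
(.lf (nat_lit 46855) (.g (nat_lit 2593) (.e (nat_lit 1256) (nat_lit 92) (.e (nat_lit 98366) (nat_lit 27) (.e (nat_lit 434248) (nat_lit 28) (.e (nat_lit 573482) (nat_lit 13) (.e (nat_lit 65569) (nat_lit 3) .nil))))) .nil)) 
(.lf (nat_lit 46887) (.g (nat_lit 3329) (.e (nat_lit 1256) (nat_lit 92) (.e (nat_lit 98367) (nat_lit 27) (.e (nat_lit 434244) (nat_lit 28) (.e (nat_lit 573481) (nat_lit 13) (.e (nat_lit 65570) (nat_lit 3) (.e (nat_lit 98325) (nat_lit 17) (.e (nat_lit 3579) (nat_lit 223) (.e (nat_lit 745476) (nat_lit 0) .nil)))))))) (.g (nat_lit 6) .nil .nil)))) (.nd (nat_lit 5) 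
(.lf (nat_lit 46871) (.g (nat_lit 4639) (.e (nat_lit 1256) (nat_lit 92) (.e (nat_lit 98366) (nat_lit 27) (.e (nat_lit 434248) (nat_lit 28) (.e (nat_lit 573489) (nat_lit 14) (.e (nat_lit 73755) (nat_lit 8) (.e (nat_lit 557090) (nat_lit 12) (.e (nat_lit 164006) (nat_lit 41) (.e (nat_lit 663554) (nat_lit 0) .nil)))))))) (.g (nat_lit 6) .nil .nil))) 
(.lf (nat_lit 46903) (.g (nat_lit 2182) (.e (nat_lit 1256) (nat_lit 92) (.e (nat_lit 98367) (nat_lit 27) (.e (nat_lit 434245) (nat_lit 28) (.e (nat_lit 573487) (nat_lit 14) (.e (nat_lit 81664) (nat_lit 5) .nil))))) .nil)))) (.nd (nat_lit 4) (.nd (nat_lit 5) 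
(.lf (nat_lit 46863) (.g (nat_lit 2433) (.e (nat_lit 1256) (nat_lit 92) (.e (nat_lit 98366) (nat_lit 27) (.e (nat_lit 434248) (nat_lit 28) (.e (nat_lit 573487) (nat_lit 14) (.e (nat_lit 73744) (nat_lit 2) .nil))))) .nil)) 
(.lf (nat_lit 46895) (.g (nat_lit 2494) (.e (nat_lit 1256) (nat_lit 92) (.e (nat_lit 98367) (nat_lit 27) (.e (nat_lit 434244) (nat_lit 28) (.e (nat_lit 573488) (nat_lit 14) (.e (nat_lit 81664) (nat_lit 5) .nil))))) .nil))) (.nd (nat_lit 5) 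
(.lf (nat_lit 46879) (.g (nat_lit 2771) (.e (nat_lit 1256) (nat_lit 92) (.e (nat_lit 98367) (nat_lit 27) (.e (nat_lit 434231) (nat_lit 23) (.e (nat_lit 532513) (nat_lit 3) (.e (nat_lit 114714) (nat_lit 22) .nil))))) .nil)) 
(.lf (nat_lit 46911) (.g (nat_lit 746) (.e (nat_lit 1256) (nat_lit 92) (.e (nat_lit 98367) (nat_lit 27) (.e (nat_lit 434246) (nat_lit 28) .nil))) .nil))))))))

noncomputable def tv652 : DT := (.nd (nat_lit 0) (.nd (nat_lit 1) (.nd (nat_lit 2) (.nd (nat_lit 3) (.nd (nat_lit 4) (.nd (nat_lit 5) 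
(.lf (nat_lit 46912) (.g (nat_lit 2201) (.e (nat_lit 1256) (nat_lit 92) (.e (nat_lit 98367) (nat_lit 27) (.e (nat_lit 434246) (nat_lit 28) (.e (nat_lit 573482) (nat_lit 13) (.e (nat_lit 65569) (nat_lit 3) (.e (nat_lit 98325) (nat_lit 17) (.e (nat_lit 3579) (nat_lit 223) (.e (nat_lit 745476) (nat_lit 0) .nil)))))))) (.g (nat_lit 4) .nil .nil))) 
(.lf (nat_lit 46944) (.g (nat_lit 4605) (.e (nat_lit 1256) (nat_lit 92) (.e (nat_lit 98367) (nat_lit 27) (.e (nat_lit 434247) (nat_lit 28) (.e (nat_lit 573489) (nat_lit 14) (.e (nat_lit 73755) (nat_lit 8) (.e (nat_lit 557090) (nat_lit 12) (.e (nat_lit 164007) (nat_lit 41) (.e (nat_lit 663554) (nat_lit 0) .nil)))))))) (.g (nat_lit 7) .nil .nil)))) (.nd (nat_lit 5) 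
(.lf (nat_lit 46928) (.g (nat_lit 1634) (.e (nat_lit 1256) (nat_lit 92) (.e (nat_lit 98367) (nat_lit 27) (.e (nat_lit 434247) (nat_lit 28) (.e (nat_lit 573485) (nat_lit 13) .nil)))) .nil)) 
(.lf (nat_lit 46960) (.g (nat_lit 1506) (.e (nat_lit 1256) (nat_lit 92) (.e (nat_lit 98367) (nat_lit 27) (.e (nat_lit 434248) (nat_lit 28) (.e (nat_lit 573487) (nat_lit 14) .nil)))) .nil)))) (.nd (nat_lit 4) (.nd (nat_lit 5) 
(.lf (nat_lit 46920) (.g (nat_lit 2124) (.e (nat_lit 1256) (nat_lit 92) (.e (nat_lit 98367) (nat_lit 27) (.e (nat_lit 434246) (nat_lit 28) (.e (nat_lit 573489) (nat_lit 14) (.e (nat_lit 73755) (nat_lit 8) (.e (nat_lit 557090) (nat_lit 12) (.e (nat_lit 163844) (nat_lit 0) (.e (nat_lit 5809) (nat_lit 320) (.e (nat_lit 999) (nat_lit 81) .nil))))))))) (.g (nat_lit 4) .nil .nil))) 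
(.lf (nat_lit 46952) (.g (nat_lit 2335) (.e (nat_lit 1256) (nat_lit 92) (.e (nat_lit 98367) (nat_lit 27) (.e (nat_lit 434248) (nat_lit 28) (.e (nat_lit 573482) (nat_lit 13) (.e (nat_lit 65536) (nat_lit 0) .nil))))) .nil))) (.nd (nat_lit 5) 
(.lf (nat_lit 46936) (.g (nat_lit 2860) (.e (nat_lit 1256) (nat_lit 92) (.e (nat_lit 98367) (nat_lit 27) (.e (nat_lit 434247) (nat_lit 28) (.e (nat_lit 573489) (nat_lit 14) (.e (nat_lit 73755) (nat_lit 8) (.e (nat_lit 557089) (nat_lit 12) (.e (nat_lit 164005) (nat_lit 41) (.e (nat_lit 663554) (nat_lit 0) .nil)))))))) (.g (nat_lit 5) .nil .nil))) 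
(.lf (nat_lit 46968) (.g (nat_lit 3340) (.e (nat_lit 1256) (nat_lit 92) (.e (nat_lit 98367) (nat_lit 27) (.e (nat_lit 434248) (nat_lit 28) (.e (nat_lit 573487) (nat_lit 14) (.e (nat_lit 73753) (nat_lit 8) (.e (nat_lit 557089) (nat_lit 12) (.e (nat_lit 164007) (nat_lit 41) (.e (nat_lit 663552) (nat_lit 0) .nil)))))))) (.g (nat_lit 5) .nil .nil)))))) 
(.nd (nat_lit 3) (.nd (nat_lit 4) (.nd (nat_lit 5) 
(.lf (nat_lit 46916) (.g (nat_lit 2233) (.e (nat_lit 1256) (nat_lit 92) (.e (nat_lit 98367) (nat_lit 27) (.e (nat_lit 434246) (nat_lit 28) (.e (nat_lit 573487) (nat_lit 14) (.e (nat_lit 73753) (nat_lit 8) (.e (nat_lit 557089) (nat_lit 12) (.e (nat_lit 164007) (nat_lit 41) (.e (nat_lit 663552) (nat_lit 0) .nil)))))))) (.g (nat_lit 4) .nil .nil))) 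
(.lf (nat_lit 46948) (.g (nat_lit 3838) (.e (nat_lit 1256) (nat_lit 92) (.e (nat_lit 98367) (nat_lit 27) (.e (nat_lit 434247) (nat_lit 28) (.e (nat_lit 573489) (nat_lit 14) (.e (nat_lit 73755) (nat_lit 8) (.e (nat_lit 557091) (nat_lit 12) (.e (nat_lit 164007) (nat_lit 41) (.e (nat_lit 663552) (nat_lit 0) .nil)))))))) (.g (nat_lit 7) .nil .nil)))) (.nd (nat_lit 5) 
(.lf (nat_lit 46932) (.g (nat_lit 3521) (.e (nat_lit 1256) (nat_lit 92) (.e (nat_lit 98367) (nat_lit 27) (.e (nat_lit 434247) (nat_lit 28) (.e (nat_lit 573485) (nat_lit 13) (.e (nat_lit 65571) (nat_lit 3) (.e (nat_lit 98325) (nat_lit 17) (.e (nat_lit 3579) (nat_lit 223) (.e (nat_lit 745476) (nat_lit 0) .nil)))))))) (.g (nat_lit 5) .nil .nil))) 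
(.lf (nat_lit 46964) (.g (nat_lit 2553) (.e (nat_lit 1256) (nat_lit 92) (.e (nat_lit 98367) (nat_lit 27) (.e (nat_lit 434248) (nat_lit 28) (.e (nat_lit 573487) (nat_lit 14) (.e (nat_lit 81664) (nat_lit 5) .nil))))) .nil)))) (.nd (nat_lit 4) (.nd (nat_lit 5) 
(.lf (nat_lit 46924) (.g (nat_lit 2916) (.e (nat_lit 1256) (nat_lit 92) (.e (nat_lit 98367) (nat_lit 27) (.e (nat_lit 434247) (nat_lit 28) (.e (nat_lit 573484) (nat_lit 13) (.e (nat_lit 65566) (nat_lit 2) .nil))))) .nil)) 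
(.lf (nat_lit 46956) (.g (nat_lit 2586) (.e (nat_lit 1256) (nat_lit 92) (.e (nat_lit 98367) (nat_lit 27) (.e (nat_lit 434248) (nat_lit 28) (.e (nat_lit 573482) (nat_lit 13) (.e (nat_lit 65569) (nat_lit 3) (.e (nat_lit 98325) (nat_lit 17) (.e (nat_lit 3579) (nat_lit 223) (.e (nat_lit 745475) (nat_lit 0) .nil)))))))) (.g (nat_lit 4) .nil .nil)))) (.nd (nat_lit 5) 
(.lf (nat_lit 46940) (.g (nat_lit 4642) (.e (nat_lit 1256) (nat_lit 92) (.e (nat_lit 98367) (nat_lit 27) (.e (nat_lit 434247) (nat_lit 28) (.e (nat_lit 573489) (nat_lit 14) (.e (nat_lit 73755) (nat_lit 8) (.e (nat_lit 557089) (nat_lit 12) (.e (nat_lit 164007) (nat_lit 41) (.e (nat_lit 663554) (nat_lit 0) .nil)))))))) (.g (nat_lit 0) .nil .nil))) 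
(.lf (nat_lit 46972) (.g (nat_lit 2749) (.e (nat_lit 1256) (nat_lit 92) (.e (nat_lit 98367) (nat_lit 27) (.e (nat_lit 434248) (nat_lit 28) (.e (nat_lit 573487) (nat_lit 14) (.e (nat_lit 73753) (nat_lit 8) (.e (nat_lit 557091) (nat_lit 12) (.e (nat_lit 164005) (nat_lit 41) (.e (nat_lit 663554) (nat_lit 0) .nil)))))))) (.g (nat_lit 4) .nil .nil))))))) 
(.nd (nat_lit 2) (.nd (nat_lit 3) (.nd (nat_lit 4) (.nd (nat_lit 5) 
(.lf (nat_lit 46914) (.g (nat_lit 3576) (.e (nat_lit 1256) (nat_lit 92) (.e (nat_lit 98367) (nat_lit 27) (.e (nat_lit 434246) (nat_lit 28) (.e (nat_lit 573484) (nat_lit 13) (.e (nat_lit 65569) (nat_lit 3) (.e (nat_lit 98325) (nat_lit 17) (.e (nat_lit 3579) (nat_lit 223) (.e (nat_lit 745476) (nat_lit 0) .nil)))))))) (.g (nat_lit 5) .nil .nil))) 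
(.lf (nat_lit 46946) (.g (nat_lit 4154) (.e (nat_lit 1256) (nat_lit 92) (.e (nat_lit 98367) (nat_lit 27) (.e (nat_lit 434247) (nat_lit 28) (.e (nat_lit 573489) (nat_lit 14) (.e (nat_lit 73755) (nat_lit 8) (.e (nat_lit 557091) (nat_lit 12) (.e (nat_lit 164006) (nat_lit 41) (.e (nat_lit 663554) (nat_lit 0) .nil)))))))) (.g (nat_lit 7) .nil .nil)))) (.nd (nat_lit 5) 
(.lf (nat_lit 46930) (.g (nat_lit 3422) (.e (nat_lit 1256) (nat_lit 92) (.e (nat_lit 98367) (nat_lit 27) (.e (nat_lit 434247) (nat_lit 28) (.e (nat_lit 573485) (nat_lit 13) (.e (nat_lit 65570) (nat_lit 3) (.e (nat_lit 98325) (nat_lit 17) (.e (nat_lit 3579) (nat_lit 223) (.e (nat_lit 745476) (nat_lit 0) .nil)))))))) (.g (nat_lit 6) .nil .nil))) 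
(.lf (nat_lit 46962) (.g (nat_lit 2673) (.e (nat_lit 1256) (nat_lit 92) (.e (nat_lit 98367) (nat_lit 27) (.e (nat_lit 434248) (nat_lit 28) (.e (nat_lit 573487) (nat_lit 14) (.e (nat_lit 73746) (nat_lit 3) (.e (nat_lit 516117) (nat_lit 1) (.e (nat_lit 164195) (nat_lit 158) (.e (nat_lit 982) (nat_lit 81) .nil)))))))) (.g (nat_lit 4) .nil .nil))))) (.nd (nat_lit 4) (.nd (nat_lit 5) 
(.lf (nat_lit 46922) (.g (nat_lit 3592) (.e (nat_lit 1256) (nat_lit 92) (.e (nat_lit 98367) (nat_lit 27) (.e (nat_lit 434246) (nat_lit 28) (.e (nat_lit 573489) (nat_lit 14) (.e (nat_lit 73755) (nat_lit 8) (.e (nat_lit 557090) (nat_lit 12) (.e (nat_lit 164007) (nat_lit 41) (.e (nat_lit 663554) (nat_lit 0) .nil)))))))) (.g (nat_lit 6) .nil .nil))) 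
(.lf (nat_lit 46954) (.g (nat_lit 2519) (.e (nat_lit 1256) (nat_lit 92) (.e (nat_lit 98367) (nat_lit 27) (.e (nat_lit 434248) (nat_lit 28) (.e (nat_lit 573482) (nat_lit 13) (.e (nat_lit 65568) (nat_lit 2) .nil))))) .nil))) (.nd (nat_lit 5) 
(.lf (nat_lit 46938) (.g (nat_lit 3624) (.e (nat_lit 1256) (nat_lit 92) (.e (nat_lit 98367) (nat_lit 27) (.e (nat_lit 434247) (nat_lit 28) (.e (nat_lit 573489) (nat_lit 14) (.e (nat_lit 73755) (nat_lit 8) (.e (nat_lit 557089) (nat_lit 12) (.e (nat_lit 164006) (nat_lit 41) (.e (nat_lit 671488) (nat_lit 0) .nil)))))))) (.g (nat_lit 6) .nil .nil))) 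
(.lf (nat_lit 46970) (.g (nat_lit 2798) (.e (nat_lit 1256) (nat_lit 92) (.e (nat_lit 98367) (nat_lit 27) (.e (nat_lit 434248) (nat_lit 28) (.e (nat_lit 573487) (nat_lit 14) (.e (nat_lit 73753) (nat_lit 8) (.e (nat_lit 557089) (nat_lit 12) (.e (nat_lit 164010) (nat_lit 41) (.e (nat_lit 663552) (nat_lit 0) .nil)))))))) (.g (nat_lit 4) .nil .nil)))))) 
(.nd (nat_lit 3) (.nd (nat_lit 4) (.nd (nat_lit 5) 
(.lf (nat_lit 46918) (.g (nat_lit 2761) (.e (nat_lit 1256) (nat_lit 92) (.e (nat_lit 98367) (nat_lit 27) (.e (nat_lit 434246) (nat_lit 28) (.e (nat_lit 573489) (nat_lit 14) (.e (nat_lit 73755) (nat_lit 8) (.e (nat_lit 557089) (nat_lit 12) (.e (nat_lit 164007) (nat_lit 41) (.e (nat_lit 663552) (nat_lit 0) .nil)))))))) (.g (nat_lit 5) .nil .nil))) 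
(.lf (nat_lit 46950) (.g (nat_lit 1751) (.e (nat_lit 1256) (nat_lit 92) (.e (nat_lit 98367) (nat_lit 27) (.e (nat_lit 434248) (nat_lit 28) (.e (nat_lit 573480) (nat_lit 13) .nil)))) .nil))) (.nd (nat_lit 5) 
(.lf (nat_lit 46934) (.g (nat_lit 1343) (.e (nat_lit 1256) (nat_lit 92) (.e (nat_lit 98367) (nat_lit 27) (.e (nat_lit 434247) (nat_lit 28) (.e (nat_lit 573489) (nat_lit 14) .nil)))) .nil)) 
(.lf (nat_lit 46966) (.g (nat_lit 2504) (.e (nat_lit 1256) (nat_lit 92) (.e (nat_lit 98367) (nat_lit 27) (.e (nat_lit 434248) (nat_lit 28) (.e (nat_lit 573487) (nat_lit 14) (.e (nat_lit 73753) (nat_lit 8) .nil))))) .nil)))) (.nd (nat_lit 4) (.nd (nat_lit 5) 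
(.lf (nat_lit 46926) (.g (nat_lit 2596) (.e (nat_lit 1256) (nat_lit 92) (.e (nat_lit 98367) (nat_lit 27) (.e (nat_lit 434247) (nat_lit 28) (.e (nat_lit 573484) (nat_lit 13) (.e (nat_lit 65571) (nat_lit 3) .nil))))) .nil)) 
(.lf (nat_lit 46958) (.g (nat_lit 3757) (.e (nat_lit 1256) (nat_lit 92) (.e (nat_lit 98367) (nat_lit 27) (.e (nat_lit 434248) (nat_lit 28) (.e (nat_lit 573482) (nat_lit 13) (.e (nat_lit 65570) (nat_lit 3) (.e (nat_lit 98325) (nat_lit 17) (.e (nat_lit 3579) (nat_lit 223) (.e (nat_lit 745476) (nat_lit 0) .nil)))))))) (.g (nat_lit 6) .nil .nil)))) (.nd (nat_lit 5) 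
(.lf (nat_lit 46942) (.g (nat_lit 3811) (.e (nat_lit 1256) (nat_lit 92) (.e (nat_lit 98367) (nat_lit 27) (.e (nat_lit 434247) (nat_lit 28) (.e (nat_lit 573489) (nat_lit 14) (.e (nat_lit 73755) (nat_lit 8) (.e (nat_lit 557090) (nat_lit 12) (.e (nat_lit 164005) (nat_lit 41) (.e (nat_lit 663554) (nat_lit 0) .nil)))))))) (.g (nat_lit 5) .nil .nil))) 
(.lf (nat_lit 46974) (.g (nat_lit 2787) (.e (nat_lit 1256) (nat_lit 92) (.e (nat_lit 98367) (nat_lit 27) (.e (nat_lit 434248) (nat_lit 28) (.e (nat_lit 573487) (nat_lit 14) (.e (nat_lit 73753) (nat_lit 8) (.e (nat_lit 557091) (nat_lit 12) (.e (nat_lit 164007) (nat_lit 41) (.e (nat_lit 663552) (nat_lit 0) .nil)))))))) (.g (nat_lit 4) .nil .nil)))))))) 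
(.nd (nat_lit 1) (.nd (nat_lit 2) (.nd (nat_lit 3) (.nd (nat_lit 4) (.nd (nat_lit 5) 
(.lf (nat_lit 46913) (.g (nat_lit 2519) (.e (nat_lit 1256) (nat_lit 92) (.e (nat_lit 98367) (nat_lit 27) (.e (nat_lit 434246) (nat_lit 28) (.e (nat_lit 573484) (nat_lit 13) (.e (nat_lit 65569) (nat_lit 3) .nil))))) .nil)) 
(.lf (nat_lit 46945) (.g (nat_lit 3529) (.e (nat_lit 1256) (nat_lit 92) (.e (nat_lit 98367) (nat_lit 27) (.e (nat_lit 434247) (nat_lit 28) (.e (nat_lit 573489) (nat_lit 14) (.e (nat_lit 73755) (nat_lit 8) (.e (nat_lit 557091) (nat_lit 12) (.e (nat_lit 164005) (nat_lit 41) (.e (nat_lit 663554) (nat_lit 0) .nil)))))))) (.g (nat_lit 6) .nil .nil)))) (.nd (nat_lit 5) 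
(.lf (nat_lit 46929) (.g (nat_lit 3745) (.e (nat_lit 1256) (nat_lit 92) (.e (nat_lit 98367) (nat_lit 27) (.e (nat_lit 434247) (nat_lit 28) (.e (nat_lit 573485) (nat_lit 13) (.e (nat_lit 65569) (nat_lit 3) (.e (nat_lit 98325) (nat_lit 17) (.e (nat_lit 3579) (nat_lit 223) (.e (nat_lit 745476) (nat_lit 0) .nil)))))))) (.g (nat_lit 6) .nil .nil))) 
(.lf (nat_lit 46961) (.g (nat_lit 2837) (.e (nat_lit 1256) (nat_lit 92) (.e (nat_lit 98367) (nat_lit 27) (.e (nat_lit 434248) (nat_lit 28) (.e (nat_lit 573487) (nat_lit 14) (.e (nat_lit 73744) (nat_lit 2) .nil))))) .nil)))) (.nd (nat_lit 4) (.nd (nat_lit 5) 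
(.lf (nat_lit 46921) (.g (nat_lit 3101) (.e (nat_lit 1256) (nat_lit 92) (.e (nat_lit 98367) (nat_lit 27) (.e (nat_lit 434246) (nat_lit 28) (.e (nat_lit 573489) (nat_lit 14) (.e (nat_lit 73755) (nat_lit 8) (.e (nat_lit 557090) (nat_lit 12) (.e (nat_lit 164007) (nat_lit 41) (.e (nat_lit 663552) (nat_lit 0) .nil)))))))) (.g (nat_lit 5) .nil .nil))) 
(.lf (nat_lit 46953) (.g (nat_lit 2594) (.e (nat_lit 1256) (nat_lit 92) (.e (nat_lit 98367) (nat_lit 27) (.e (nat_lit 434248) (nat_lit 28) (.e (nat_lit 573482) (nat_lit 13) (.e (nat_lit 65566) (nat_lit 2) .nil))))) .nil))) (.nd (nat_lit 5) 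
(.lf (nat_lit 46937) (.g (nat_lit 4159) (.e (nat_lit 1256) (nat_lit 92) (.e (nat_lit 98367) (nat_lit 27) (.e (nat_lit 434247) (nat_lit 28) (.e (nat_lit 573489) (nat_lit 14) (.e (nat_lit 73755) (nat_lit 8) (.e (nat_lit 557089) (nat_lit 12) (.e (nat_lit 164006) (nat_lit 41) (.e (nat_lit 663554) (nat_lit 0) .nil)))))))) (.g (nat_lit 7) .nil .nil))) 
(.lf (nat_lit 46969) (.g (nat_lit 2588) (.e (nat_lit 1256) (nat_lit 92) (.e (nat_lit 98367) (nat_lit 27) (.e (nat_lit 434248) (nat_lit 28) (.e (nat_lit 573487) (nat_lit 14) (.e (nat_lit 73753) (nat_lit 8) (.e (nat_lit 557089) (nat_lit 12) (.e (nat_lit 164007) (nat_lit 41) (.e (nat_lit 671488) (nat_lit 0) .nil)))))))) (.g (nat_lit 4) .nil .nil)))))) 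
(.nd (nat_lit 3) (.nd (nat_lit 4) (.nd (nat_lit 5) 
(.lf (nat_lit 46917) (.g (nat_lit 2838) (.e (nat_lit 1256) (nat_lit 92) (.e (nat_lit 98367) (nat_lit 27) (.e (nat_lit 434246) (nat_lit 28) (.e (nat_lit 573489) (nat_lit 14) (.e (nat_lit 73755) (nat_lit 8) (.e (nat_lit 557089) (nat_lit 12) (.e (nat_lit 164006) (nat_lit 41) (.e (nat_lit 663554) (nat_lit 0) .nil)))))))) (.g (nat_lit 5) .nil .nil))) 
(.lf (nat_lit 46949) (.g (nat_lit 501) (.e (nat_lit 1256) (nat_lit 92) (.e (nat_lit 98367) (nat_lit 27) (.e (nat_lit 434248) (nat_lit 28) .nil))) .nil))) (.nd (nat_lit 5) 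
(.lf (nat_lit 46933) (.g (nat_lit 2214) (.e (nat_lit 1256) (nat_lit 92) (.e (nat_lit 98367) (nat_lit 27) (.e (nat_lit 434247) (nat_lit 28) (.e (nat_lit 573487) (nat_lit 14) (.e (nat_lit 73753) (nat_lit 8) (.e (nat_lit 557089) (nat_lit 12) (.e (nat_lit 164007) (nat_lit 41) (.e (nat_lit 663554) (nat_lit 0) .nil)))))))) (.g (nat_lit 4) .nil .nil))) 
(.lf (nat_lit 46965) (.g (nat_lit 2670) (.e (nat_lit 1256) (nat_lit 92) (.e (nat_lit 98367) (nat_lit 27) (.e (nat_lit 434248) (nat_lit 28) (.e (nat_lit 573487) (nat_lit 14) (.e (nat_lit 81664) (nat_lit 5) (.e (nat_lit 532490) (nat_lit 0) (.e (nat_lit 7936) (nat_lit 151) (.e (nat_lit 778240) (nat_lit 0) .nil)))))))) (.g (nat_lit 4) .nil .nil))))) (.nd (nat_lit 4) (.nd (nat_lit 5) 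
(.lf (nat_lit 46925) (.g (nat_lit 2726) (.e (nat_lit 1256) (nat_lit 92) (.e (nat_lit 98367) (nat_lit 27) (.e (nat_lit 434247) (nat_lit 28) (.e (nat_lit 573484) (nat_lit 13) (.e (nat_lit 65569) (nat_lit 3) .nil))))) .nil)) 
(.lf (nat_lit 46957) (.g (nat_lit 2652) (.e (nat_lit 1256) (nat_lit 92) (.e (nat_lit 98367) (nat_lit 27) (.e (nat_lit 434248) (nat_lit 28) (.e (nat_lit 573482) (nat_lit 13) (.e (nat_lit 65570) (nat_lit 3) .nil))))) .nil))) (.nd (nat_lit 5) 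
(.lf (nat_lit 46941) (.g (nat_lit 3886) (.e (nat_lit 1256) (nat_lit 92) (.e (nat_lit 98367) (nat_lit 27) (.e (nat_lit 434247) (nat_lit 28) (.e (nat_lit 573489) (nat_lit 14) (.e (nat_lit 73755) (nat_lit 8) (.e (nat_lit 557089) (nat_lit 12) (.e (nat_lit 164010) (nat_lit 41) (.e (nat_lit 663552) (nat_lit 0) .nil)))))))) (.g (nat_lit 6) .nil .nil))) 
(.lf (nat_lit 46973) (.g (nat_lit 3470) (.e (nat_lit 1256) (nat_lit 92) (.e (nat_lit 98367) (nat_lit 27) (.e (nat_lit 434248) (nat_lit 28) (.e (nat_lit 573487) (nat_lit 14) (.e (nat_lit 73753) (nat_lit 8) (.e (nat_lit 557091) (nat_lit 12) (.e (nat_lit 164006) (nat_lit 41) (.e (nat_lit 663554) (nat_lit 0) .nil)))))))) (.g (nat_lit 5) .nil .nil))))))) 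
(.nd (nat_lit 2) (.nd (nat_lit 3) (.nd (nat_lit 4) (.nd (nat_lit 5) 
(.lf (nat_lit 46915) (.g (nat_lit 2020) (.e (nat_lit 1256) (nat_lit 92) (.e (nat_lit 98367) (nat_lit 27) (.e (nat_lit 434246) (nat_lit 28) (.e (nat_lit 573487) (nat_lit 14) (.e (nat_lit 81664) (nat_lit 5) .nil))))) .nil)) 
(.lf (nat_lit 46947) (.g (nat_lit 3542) (.e (nat_lit 1256) (nat_lit 92) (.e (nat_lit 98367) (nat_lit 27) (.e (nat_lit 434247) (nat_lit 28) (.e (nat_lit 573489) (nat_lit 14) (.e (nat_lit 73755) (nat_lit 8) (.e (nat_lit 557091) (nat_lit 12) (.e (nat_lit 164006) (nat_lit 41) (.e (nat_lit 671488) (nat_lit 0) .nil)))))))) (.g (nat_lit 6) .nil .nil)))) (.nd (nat_lit 5) 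
(.lf (nat_lit 46931) (.g (nat_lit 2219) (.e (nat_lit 1256) (nat_lit 92) (.e (nat_lit 98367) (nat_lit 27) (.e (nat_lit 434247) (nat_lit 28) (.e (nat_lit 573485) (nat_lit 13) (.e (nat_lit 65571) (nat_lit 3) .nil))))) .nil)) 
(.lf (nat_lit 46963) (.g (nat_lit 2480) (.e (nat_lit 1256) (nat_lit 92) (.e (nat_lit 98367) (nat_lit 27) (.e (nat_lit 434248) (nat_lit 28) (.e (nat_lit 573487) (nat_lit 14) (.e (nat_lit 73746) (nat_lit 3) (.e (nat_lit 516120) (nat_lit 1) (.e (nat_lit 164195) (nat_lit 158) (.e (nat_lit 988) (nat_lit 81) .nil)))))))) (.g (nat_lit 4) .nil .nil))))) (.nd (nat_lit 4) (.nd (nat_lit 5) 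
(.lf (nat_lit 46923) (.g (nat_lit 1564) (.e (nat_lit 1256) (nat_lit 92) (.e (nat_lit 98367) (nat_lit 27) (.e (nat_lit 434247) (nat_lit 28) (.e (nat_lit 573484) (nat_lit 13) .nil)))) .nil)) 
(.lf (nat_lit 46955) (.g (nat_lit 2596) (.e (nat_lit 1256) (nat_lit 92) (.e (nat_lit 98367) (nat_lit 27) (.e (nat_lit 434248) (nat_lit 28) (.e (nat_lit 573482) (nat_lit 13) (.e (nat_lit 65569) (nat_lit 3) (.e (nat_lit 98325) (nat_lit 17) (.e (nat_lit 3578) (nat_lit 223) (.e (nat_lit 745476) (nat_lit 0) .nil)))))))) (.g (nat_lit 4) .nil .nil)))) (.nd (nat_lit 5) 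
(.lf (nat_lit 46939) (.g (nat_lit 4080) (.e (nat_lit 1256) (nat_lit 92) (.e (nat_lit 98367) (nat_lit 27) (.e (nat_lit 434247) (nat_lit 28) (.e (nat_lit 573489) (nat_lit 14) (.e (nat_lit 73755) (nat_lit 8) (.e (nat_lit 557089) (nat_lit 12) (.e (nat_lit 164007) (nat_lit 41) (.e (nat_lit 663552) (nat_lit 0) .nil)))))))) (.g (nat_lit 8) .nil .nil))) 
(.lf (nat_lit 46971) (.g (nat_lit 2658) (.e (nat_lit 1256) (nat_lit 92) (.e (nat_lit 98367) (nat_lit 27) (.e (nat_lit 434248) (nat_lit 28) (.e (nat_lit 573487) (nat_lit 14) (.e (nat_lit 73753) (nat_lit 8) (.e (nat_lit 557090) (nat_lit 12) (.e (nat_lit 164007) (nat_lit 41) (.e (nat_lit 663552) (nat_lit 0) .nil)))))))) (.g (nat_lit 4) .nil .nil)))))) 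
(.nd (nat_lit 3) (.nd (nat_lit 4) (.nd (nat_lit 5) 
(.lf (nat_lit 46919) (.g (nat_lit 2092) (.e (nat_lit 1256) (nat_lit 92) (.e (nat_lit 98367) (nat_lit 27) (.e (nat_lit 434246) (nat_lit 28) (.e (nat_lit 573489) (nat_lit 14) (.e (nat_lit 73755) (nat_lit 8) (.e (nat_lit 557090) (nat_lit 12) (.e (nat_lit 163844) (nat_lit 0) (.e (nat_lit 5807) (nat_lit 320) (.e (nat_lit 999) (nat_lit 81) .nil))))))))) (.g (nat_lit 4) .nil .nil))) 
(.lf (nat_lit 46951) (.g (nat_lit 1378) (.e (nat_lit 1256) (nat_lit 92) (.e (nat_lit 98367) (nat_lit 27) (.e (nat_lit 434248) (nat_lit 28) (.e (nat_lit 573482) (nat_lit 13) .nil)))) .nil))) (.nd (nat_lit 5) 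
(.lf (nat_lit 46935) (.g (nat_lit 1878) (.e (nat_lit 1256) (nat_lit 92) (.e (nat_lit 98367) (nat_lit 27) (.e (nat_lit 434247) (nat_lit 28) (.e (nat_lit 573489) (nat_lit 14) (.e (nat_lit 73754) (nat_lit 8) .nil))))) .nil)) 
(.lf (nat_lit 46967) (.g (nat_lit 2592) (.e (nat_lit 1256) (nat_lit 92) (.e (nat_lit 98367) (nat_lit 27) (.e (nat_lit 434248) (nat_lit 28) (.e (nat_lit 573487) (nat_lit 14) (.e (nat_lit 73753) (nat_lit 8) (.e (nat_lit 557089) (nat_lit 12) (.e (nat_lit 164006) (nat_lit 41) (.e (nat_lit 671488) (nat_lit 0) .nil)))))))) (.g (nat_lit 4) .nil .nil))))) (.nd (nat_lit 4) (.nd (nat_lit 5) 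
(.lf (nat_lit 46927) (.g (nat_lit 3885) (.e (nat_lit 1256) (nat_lit 92) (.e (nat_lit 98367) (nat_lit 27) (.e (nat_lit 434247) (nat_lit 28) (.e (nat_lit 573484) (nat_lit 13) (.e (nat_lit 65571) (nat_lit 3) (.e (nat_lit 98325) (nat_lit 17) (.e (nat_lit 3579) (nat_lit 223) (.e (nat_lit 745476) (nat_lit 0) .nil)))))))) (.g (nat_lit 5) .nil .nil))) 
(.lf (nat_lit 46959) (.g (nat_lit 2305) (.e (nat_lit 1256) (nat_lit 92) (.e (nat_lit 98367) (nat_lit 27) (.e (nat_lit 434248) (nat_lit 28) (.e (nat_lit 573482) (nat_lit 13) (.e (nat_lit 73472) (nat_lit 18) .nil))))) .nil))) (.nd (nat_lit 5) 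
(.lf (nat_lit 46943) (.g (nat_lit 4861) (.e (nat_lit 1256) (nat_lit 92) (.e (nat_lit 98367) (nat_lit 27) (.e (nat_lit 434247) (nat_lit 28) (.e (nat_lit 573489) (nat_lit 14) (.e (nat_lit 73755) (nat_lit 8) (.e (nat_lit 557090) (nat_lit 12) (.e (nat_lit 164006) (nat_lit 41) (.e (nat_lit 663554) (nat_lit 0) .nil)))))))) (.g (nat_lit 6) .nil .nil))) 
(.lf (nat_lit 46975) (.g (nat_lit 2514) (.e (nat_lit 1256) (nat_lit 92) (.e (nat_lit 98367) (nat_lit 27) (.e (nat_lit 434248) (nat_lit 28) (.e (nat_lit 573487) (nat_lit 14) (.e (nat_lit 73753) (nat_lit 8) (.e (nat_lit 557093) (nat_lit 12) (.e (nat_lit 164010) (nat_lit 41) (.e (nat_lit 663552) (nat_lit 0) .nil)))))))) (.g (nat_lit 4) .nil .nil)))))))))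

noncomputable def tv653 : DT := (.nd (nat_lit 0) (.nd (nat_lit 1) (.nd (nat_lit 2) (.nd (nat_lit 3) (.nd (nat_lit 4) (.nd (nat_lit 5) 
(.lf (nat_lit 46976) (.g (nat_lit 2551) (.e (nat_lit 1256) (nat_lit 92) (.e (nat_lit 98367) (nat_lit 27) (.e (nat_lit 434248) (nat_lit 28) (.e (nat_lit 573489) (nat_lit 14) (.e (nat_lit 81664) (nat_lit 5) .nil))))) .nil)) 
(.lf (nat_lit 47008) (.g (nat_lit 4265) (.e (nat_lit 1256) (nat_lit 92) (.e (nat_lit 98368) (nat_lit 27) (.e (nat_lit 434248) (nat_lit 28) (.e (nat_lit 573489) (nat_lit 14) (.e (nat_lit 73755) (nat_lit 8) (.e (nat_lit 557090) (nat_lit 12) (.e (nat_lit 164006) (nat_lit 41) (.e (nat_lit 663554) (nat_lit 0) .nil)))))))) (.g (nat_lit 6) .nil .nil)))) (.nd (nat_lit 5) 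
(.lf (nat_lit 46992) (.g (nat_lit 2731) (.e (nat_lit 1256) (nat_lit 92) (.e (nat_lit 98368) (nat_lit 27) (.e (nat_lit 434245) (nat_lit 28) (.e (nat_lit 573488) (nat_lit 14) (.e (nat_lit 73755) (nat_lit 8) (.e (nat_lit 557089) (nat_lit 12) (.e (nat_lit 164007) (nat_lit 41) (.e (nat_lit 663554) (nat_lit 0) .nil)))))))) (.g (nat_lit 5) .nil .nil))) 
(.lf (nat_lit 47024) (.g (nat_lit 2127) (.e (nat_lit 1256) (nat_lit 92) (.e (nat_lit 98370) (nat_lit 28) (.e (nat_lit 442372) (nat_lit 0) (.e (nat_lit 1855) (nat_lit 124) (.e (nat_lit 557105) (nat_lit 14) (.e (nat_lit 188160) (nat_lit 32) .nil)))))) (.g (nat_lit 5) .nil .nil))))) (.nd (nat_lit 4) (.nd (nat_lit 5) 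
(.lf (nat_lit 46984) (.g (nat_lit 3900) (.e (nat_lit 1256) (nat_lit 92) (.e (nat_lit 98367) (nat_lit 27) (.e (nat_lit 434248) (nat_lit 28) (.e (nat_lit 573489) (nat_lit 14) (.e (nat_lit 73755) (nat_lit 8) (.e (nat_lit 557090) (nat_lit 12) (.e (nat_lit 164010) (nat_lit 41) (.e (nat_lit 663552) (nat_lit 0) .nil)))))))) (.g (nat_lit 5) .nil .nil))) 
(.lf (nat_lit 47016) (.g (nat_lit 1045) (.e (nat_lit 1256) (nat_lit 92) (.e (nat_lit 98369) (nat_lit 28) (.e (nat_lit 450304) (nat_lit 0) (.e (nat_lit 1849) (nat_lit 124) (.e (nat_lit 557104) (nat_lit 14) (.e (nat_lit 188160) (nat_lit 32) .nil)))))) (.g (nat_lit 5) .nil .nil)))) (.nd (nat_lit 5) 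
(.lf (nat_lit 47000) (.g (nat_lit 1980) (.e (nat_lit 1256) (nat_lit 92) (.e (nat_lit 98368) (nat_lit 27) (.e (nat_lit 434248) (nat_lit 28) (.e (nat_lit 573480) (nat_lit 13) (.e (nat_lit 65571) (nat_lit 3) .nil))))) .nil)) 
(.lf (nat_lit 47032) (.g (nat_lit 1765) (.e (nat_lit 1256) (nat_lit 92) (.e (nat_lit 98370) (nat_lit 28) (.e (nat_lit 442378) (nat_lit 0) (.e (nat_lit 1855) (nat_lit 124) (.e (nat_lit 557105) (nat_lit 14) (.e (nat_lit 188160) (nat_lit 32) .nil)))))) (.g (nat_lit 4) .nil .nil)))))) (.nd (nat_lit 3) (.nd (nat_lit 4) (.nd (nat_lit 5) 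
(.lf (nat_lit 46980) (.g (nat_lit 4041) (.e (nat_lit 1256) (nat_lit 92) (.e (nat_lit 98367) (nat_lit 27) (.e (nat_lit 434248) (nat_lit 28) (.e (nat_lit 573489) (nat_lit 14) (.e (nat_lit 73755) (nat_lit 8) (.e (nat_lit 557090) (nat_lit 12) (.e (nat_lit 163843) (nat_lit 0) (.e (nat_lit 5809) (nat_lit 320) (.e (nat_lit 999) (nat_lit 81) .nil))))))))) (.g (nat_lit 5) .nil .nil))) 
(.lf (nat_lit 47012) (.g (nat_lit 2327) (.e (nat_lit 1256) (nat_lit 92) (.e (nat_lit 98369) (nat_lit 28) (.e (nat_lit 442374) (nat_lit 0) (.e (nat_lit 1856) (nat_lit 124) (.e (nat_lit 557105) (nat_lit 14) (.e (nat_lit 188160) (nat_lit 32) .nil)))))) (.g (nat_lit 5) .nil .nil)))) (.nd (nat_lit 5) 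
(.lf (nat_lit 46996) (.g (nat_lit 3052) (.e (nat_lit 1256) (nat_lit 92) (.e (nat_lit 98368) (nat_lit 27) (.e (nat_lit 434247) (nat_lit 28) (.e (nat_lit 573485) (nat_lit 13) (.e (nat_lit 65569) (nat_lit 3) (.e (nat_lit 98325) (nat_lit 17) (.e (nat_lit 3579) (nat_lit 223) (.e (nat_lit 745476) (nat_lit 0) .nil)))))))) (.g (nat_lit 6) .nil .nil))) 
(.lf (nat_lit 47028) (.g (nat_lit 2700) (.e (nat_lit 1256) (nat_lit 92) (.e (nat_lit 98370) (nat_lit 28) (.e (nat_lit 442374) (nat_lit 0) (.e (nat_lit 1856) (nat_lit 124) (.e (nat_lit 557105) (nat_lit 14) (.e (nat_lit 188160) (nat_lit 32) .nil)))))) (.g (nat_lit 5) .nil .nil))))) (.nd (nat_lit 4) (.nd (nat_lit 5) 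
(.lf (nat_lit 46988) (.g (nat_lit 3422) (.e (nat_lit 1256) (nat_lit 92) (.e (nat_lit 98368) (nat_lit 27) (.e (nat_lit 434245) (nat_lit 28) (.e (nat_lit 573481) (nat_lit 13) (.e (nat_lit 65571) (nat_lit 3) (.e (nat_lit 98325) (nat_lit 17) (.e (nat_lit 3579) (nat_lit 223) (.e (nat_lit 745476) (nat_lit 0) .nil)))))))) (.g (nat_lit 6) .nil .nil))) 
(.lf (nat_lit 47020) (.g (nat_lit 2094) (.e (nat_lit 1256) (nat_lit 92) (.e (nat_lit 98369) (nat_lit 28) (.e (nat_lit 442390) (nat_lit 11) (.e (nat_lit 336387) (nat_lit 27) (.e (nat_lit 426107) (nat_lit 1) (.e (nat_lit 164385) (nat_lit 254) (.e (nat_lit 7936) (nat_lit 81) .nil))))))) (.g (nat_lit 5) .nil .nil)))) (.nd (nat_lit 5) 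
(.lf (nat_lit 47004) (.g (nat_lit 1058) (.e (nat_lit 1256) (nat_lit 92) (.e (nat_lit 98368) (nat_lit 27) (.e (nat_lit 434248) (nat_lit 28) (.e (nat_lit 573487) (nat_lit 14) .nil)))) .nil)) 
(.lf (nat_lit 47036) (.g (nat_lit 1939) (.e (nat_lit 1256) (nat_lit 92) (.e (nat_lit 98370) (nat_lit 28) (.e (nat_lit 450304) (nat_lit 0) (.e (nat_lit 1848) (nat_lit 124) (.e (nat_lit 557103) (nat_lit 14) (.e (nat_lit 188160) (nat_lit 32) .nil)))))) (.g (nat_lit 5) .nil .nil))))))) (.nd (nat_lit 2) (.nd (nat_lit 3) (.nd (nat_lit 4) (.nd (nat_lit 5) 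
(.lf (nat_lit 46978) (.g (nat_lit 4192) (.e (nat_lit 1256) (nat_lit 92) (.e (nat_lit 98367) (nat_lit 27) (.e (nat_lit 434248) (nat_lit 28) (.e (nat_lit 573489) (nat_lit 14) (.e (nat_lit 73755) (nat_lit 8) (.e (nat_lit 557089) (nat_lit 12) (.e (nat_lit 164007) (nat_lit 41) (.e (nat_lit 663554) (nat_lit 0) .nil)))))))) (.g (nat_lit 5) .nil .nil))) 
(.lf (nat_lit 47010) (.g (nat_lit 1893) (.e (nat_lit 1256) (nat_lit 92) (.e (nat_lit 98369) (nat_lit 28) (.e (nat_lit 442373) (nat_lit 0) (.e (nat_lit 1853) (nat_lit 124) (.e (nat_lit 557103) (nat_lit 14) (.e (nat_lit 188160) (nat_lit 32) .nil)))))) (.g (nat_lit 5) .nil .nil)))) (.nd (nat_lit 5) 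
(.lf (nat_lit 46994) (.g (nat_lit 1728) (.e (nat_lit 1256) (nat_lit 92) (.e (nat_lit 98368) (nat_lit 27) (.e (nat_lit 434247) (nat_lit 28) (.e (nat_lit 573484) (nat_lit 13) (.e (nat_lit 65568) (nat_lit 2) .nil))))) .nil)) 
(.lf (nat_lit 47026) (.g (nat_lit 1907) (.e (nat_lit 1256) (nat_lit 92) (.e (nat_lit 98370) (nat_lit 28) (.e (nat_lit 442373) (nat_lit 0) (.e (nat_lit 1853) (nat_lit 124) (.e (nat_lit 557105) (nat_lit 14) (.e (nat_lit 188160) (nat_lit 32) .nil)))))) (.g (nat_lit 5) .nil .nil))))) (.nd (nat_lit 4) (.nd (nat_lit 5) 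
(.lf (nat_lit 46986) (.g (nat_lit 2976) (.e (nat_lit 1256) (nat_lit 92) (.e (nat_lit 98368) (nat_lit 27) (.e (nat_lit 434245) (nat_lit 28) (.e (nat_lit 573481) (nat_lit 13) (.e (nat_lit 65569) (nat_lit 3) (.e (nat_lit 98325) (nat_lit 17) (.e (nat_lit 3579) (nat_lit 223) (.e (nat_lit 745476) (nat_lit 0) .nil)))))))) (.g (nat_lit 6) .nil .nil))) 
(.lf (nat_lit 47018) (.g (nat_lit 1066) (.e (nat_lit 1256) (nat_lit 92) (.e (nat_lit 98369) (nat_lit 28) (.e (nat_lit 450304) (nat_lit 0) (.e (nat_lit 1859) (nat_lit 124) (.e (nat_lit 557105) (nat_lit 14) (.e (nat_lit 188160) (nat_lit 32) .nil)))))) (.g (nat_lit 5) .nil .nil)))) (.nd (nat_lit 5) 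
(.lf (nat_lit 47002) (.g (nat_lit 3757) (.e (nat_lit 1256) (nat_lit 92) (.e (nat_lit 98368) (nat_lit 27) (.e (nat_lit 434248) (nat_lit 28) (.e (nat_lit 573482) (nat_lit 13) (.e (nat_lit 65571) (nat_lit 3) (.e (nat_lit 98325) (nat_lit 17) (.e (nat_lit 3579) (nat_lit 223) (.e (nat_lit 745476) (nat_lit 0) .nil)))))))) (.g (nat_lit 6) .nil .nil))) 
(.lf (nat_lit 47034) (.g (nat_lit 2507) (.e (nat_lit 1256) (nat_lit 92) (.e (nat_lit 98370) (nat_lit 28) (.e (nat_lit 442378) (nat_lit 0) (.e (nat_lit 1856) (nat_lit 124) (.e (nat_lit 557105) (nat_lit 14) (.e (nat_lit 188160) (nat_lit 32) .nil)))))) (.g (nat_lit 5) .nil .nil)))))) (.nd (nat_lit 3) (.nd (nat_lit 4) (.nd (nat_lit 5) 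
(.lf (nat_lit 46982) (.g (nat_lit 3745) (.e (nat_lit 1256) (nat_lit 92) (.e (nat_lit 98367) (nat_lit 27) (.e (nat_lit 434248) (nat_lit 28) (.e (nat_lit 573489) (nat_lit 14) (.e (nat_lit 73755) (nat_lit 8) (.e (nat_lit 557090) (nat_lit 12) (.e (nat_lit 164006) (nat_lit 41) (.e (nat_lit 671488) (nat_lit 0) .nil)))))))) (.g (nat_lit 5) .nil .nil))) 
(.lf (nat_lit 47014) (.g (nat_lit 1237) (.e (nat_lit 1256) (nat_lit 92) (.e (nat_lit 98369) (nat_lit 28) (.e (nat_lit 450304) (nat_lit 0) (.e (nat_lit 1848) (nat_lit 124) (.e (nat_lit 557104) (nat_lit 14) (.e (nat_lit 188160) (nat_lit 32) .nil)))))) (.g (nat_lit 5) .nil .nil)))) (.nd (nat_lit 5) 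
(.lf (nat_lit 46998) (.g (nat_lit 3482) (.e (nat_lit 1256) (nat_lit 92) (.e (nat_lit 98368) (nat_lit 27) (.e (nat_lit 434247) (nat_lit 28) (.e (nat_lit 573489) (nat_lit 14) (.e (nat_lit 73755) (nat_lit 8) (.e (nat_lit 557089) (nat_lit 12) (.e (nat_lit 164006) (nat_lit 41) (.e (nat_lit 663554) (nat_lit 0) .nil)))))))) (.g (nat_lit 6) .nil .nil))) 
(.lf (nat_lit 47030) (.g (nat_lit 2587) (.e (nat_lit 1256) (nat_lit 92) (.e (nat_lit 98370) (nat_lit 28) (.e (nat_lit 442377) (nat_lit 0) (.e (nat_lit 1856) (nat_lit 124) (.e (nat_lit 557103) (nat_lit 14) (.e (nat_lit 188160) (nat_lit 32) .nil)))))) (.g (nat_lit 5) .nil .nil))))) (.nd (nat_lit 4) (.nd (nat_lit 5) 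
(.lf (nat_lit 46990) (.g (nat_lit 1788) (.e (nat_lit 1256) (nat_lit 92) (.e (nat_lit 98368) (nat_lit 27) (.e (nat_lit 434245) (nat_lit 28) (.e (nat_lit 573487) (nat_lit 14) (.e (nat_lit 81664) (nat_lit 5) .nil))))) .nil)) 
(.lf (nat_lit 47022) (.g (nat_lit 1200) (.e (nat_lit 1256) (nat_lit 92) (.e (nat_lit 98369) (nat_lit 28) (.e (nat_lit 442427) (nat_lit 23) (.e (nat_lit 204846) (nat_lit 24) .nil)))) .nil))) (.nd (nat_lit 5) 
(.lf (nat_lit 47006) (.g (nat_lit 2019) (.e (nat_lit 1256) (nat_lit 92) (.e (nat_lit 98368) (nat_lit 27) (.e (nat_lit 434248) (nat_lit 28) (.e (nat_lit 573487) (nat_lit 14) (.e (nat_lit 81664) (nat_lit 5) (.e (nat_lit 532490) (nat_lit 0) (.e (nat_lit 7936) (nat_lit 151) (.e (nat_lit 778240) (nat_lit 0) .nil)))))))) (.g (nat_lit 4) .nil .nil))) 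
(.lf (nat_lit 47038) (.g (nat_lit 1597) (.e (nat_lit 1256) (nat_lit 92) (.e (nat_lit 98370) (nat_lit 28) (.e (nat_lit 450304) (nat_lit 0) (.e (nat_lit 1849) (nat_lit 124) (.e (nat_lit 557103) (nat_lit 14) (.e (nat_lit 188160) (nat_lit 32) .nil)))))) (.g (nat_lit 5) .nil .nil)))))))) (.nd (nat_lit 1) (.nd (nat_lit 2) (.nd (nat_lit 3) (.nd (nat_lit 4) (.nd (nat_lit 5) 
(.lf (nat_lit 46977) (.g (nat_lit 2677) (.e (nat_lit 1256) (nat_lit 92) (.e (nat_lit 98367) (nat_lit 27) (.e (nat_lit 434248) (nat_lit 28) (.e (nat_lit 573489) (nat_lit 14) (.e (nat_lit 73754) (nat_lit 8) .nil))))) .nil)) 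
(.lf (nat_lit 47009) (.g (nat_lit 4010) (.e (nat_lit 1256) (nat_lit 92) (.e (nat_lit 98368) (nat_lit 27) (.e (nat_lit 434248) (nat_lit 28) (.e (nat_lit 573489) (nat_lit 14) (.e (nat_lit 73755) (nat_lit 8) (.e (nat_lit 557090) (nat_lit 12) (.e (nat_lit 164007) (nat_lit 41) (.e (nat_lit 663554) (nat_lit 0) .nil)))))))) (.g (nat_lit 6) .nil .nil)))) (.nd (nat_lit 5) 
(.lf (nat_lit 46993) (.g (nat_lit 3157) (.e (nat_lit 1256) (nat_lit 92) (.e (nat_lit 98368) (nat_lit 27) (.e (nat_lit 434245) (nat_lit 28) (.e (nat_lit 573488) (nat_lit 14) (.e (nat_lit 73755) (nat_lit 8) (.e (nat_lit 557090) (nat_lit 12) (.e (nat_lit 164007) (nat_lit 41) (.e (nat_lit 663554) (nat_lit 0) .nil)))))))) (.g (nat_lit 6) .nil .nil))) 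
(.lf (nat_lit 47025) (.g (nat_lit 2351) (.e (nat_lit 1256) (nat_lit 92) (.e (nat_lit 98370) (nat_lit 28) (.e (nat_lit 442373) (nat_lit 0) (.e (nat_lit 1853) (nat_lit 124) (.e (nat_lit 557103) (nat_lit 14) (.e (nat_lit 188160) (nat_lit 32) .nil)))))) (.g (nat_lit 5) .nil .nil))))) (.nd (nat_lit 4) (.nd (nat_lit 5) 
(.lf (nat_lit 46985) (.g (nat_lit 1527) (.e (nat_lit 1256) (nat_lit 92) (.e (nat_lit 98368) (nat_lit 27) (.e (nat_lit 434245) (nat_lit 28) (.e (nat_lit 573481) (nat_lit 13) (.e (nat_lit 65569) (nat_lit 3) .nil))))) .nil)) 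
(.lf (nat_lit 47017) (.g (nat_lit 1222) (.e (nat_lit 1256) (nat_lit 92) (.e (nat_lit 98369) (nat_lit 28) (.e (nat_lit 450304) (nat_lit 0) (.e (nat_lit 1859) (nat_lit 124) (.e (nat_lit 557103) (nat_lit 14) (.e (nat_lit 188160) (nat_lit 32) .nil)))))) (.g (nat_lit 5) .nil .nil)))) (.nd (nat_lit 5) 
(.lf (nat_lit 47001) (.g (nat_lit 2726) (.e (nat_lit 1256) (nat_lit 92) (.e (nat_lit 98368) (nat_lit 27) (.e (nat_lit 434248) (nat_lit 28) (.e (nat_lit 573482) (nat_lit 13) (.e (nat_lit 65570) (nat_lit 3) (.e (nat_lit 98325) (nat_lit 17) (.e (nat_lit 3579) (nat_lit 223) (.e (nat_lit 745476) (nat_lit 0) .nil)))))))) (.g (nat_lit 4) .nil .nil))) 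
(.lf (nat_lit 47033) (.g (nat_lit 2793) (.e (nat_lit 1256) (nat_lit 92) (.e (nat_lit 98370) (nat_lit 28) (.e (nat_lit 442378) (nat_lit 0) (.e (nat_lit 1856) (nat_lit 124) (.e (nat_lit 557103) (nat_lit 14) (.e (nat_lit 188160) (nat_lit 32) .nil)))))) (.g (nat_lit 5) .nil .nil)))))) (.nd (nat_lit 3) (.nd (nat_lit 4) (.nd (nat_lit 5) 
(.lf (nat_lit 46981) (.g (nat_lit 3816) (.e (nat_lit 1256) (nat_lit 92) (.e (nat_lit 98367) (nat_lit 27) (.e (nat_lit 434248) (nat_lit 28) (.e (nat_lit 573489) (nat_lit 14) (.e (nat_lit 73755) (nat_lit 8) (.e (nat_lit 557090) (nat_lit 12) (.e (nat_lit 163844) (nat_lit 0) (.e (nat_lit 5808) (nat_lit 320) (.e (nat_lit 1016) (nat_lit 81) .nil))))))))) (.g (nat_lit 5) .nil .nil))) 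
(.lf (nat_lit 47013) (.g (nat_lit 1527) (.e (nat_lit 1256) (nat_lit 92) (.e (nat_lit 98369) (nat_lit 28) (.e (nat_lit 450304) (nat_lit 0) (.e (nat_lit 1848) (nat_lit 124) (.e (nat_lit 557103) (nat_lit 14) (.e (nat_lit 188160) (nat_lit 32) .nil)))))) (.g (nat_lit 5) .nil .nil)))) (.nd (nat_lit 5) 
(.lf (nat_lit 46997) (.g (nat_lit 2729) (.e (nat_lit 1256) (nat_lit 92) (.e (nat_lit 98368) (nat_lit 27) (.e (nat_lit 434247) (nat_lit 28) (.e (nat_lit 573485) (nat_lit 13) (.e (nat_lit 65570) (nat_lit 3) (.e (nat_lit 98325) (nat_lit 17) (.e (nat_lit 3579) (nat_lit 223) (.e (nat_lit 745476) (nat_lit 0) .nil)))))))) (.g (nat_lit 6) .nil .nil))) 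
(.lf (nat_lit 47029) (.g (nat_lit 2227) (.e (nat_lit 1256) (nat_lit 92) (.e (nat_lit 98370) (nat_lit 28) (.e (nat_lit 442377) (nat_lit 0) (.e (nat_lit 1855) (nat_lit 124) (.e (nat_lit 557105) (nat_lit 14) (.e (nat_lit 188160) (nat_lit 32) .nil)))))) (.g (nat_lit 5) .nil .nil))))) (.nd (nat_lit 4) (.nd (nat_lit 5) 
(.lf (nat_lit 46989) (.g (nat_lit 878) (.e (nat_lit 1256) (nat_lit 92) (.e (nat_lit 98368) (nat_lit 27) (.e (nat_lit 434245) (nat_lit 28) (.e (nat_lit 573487) (nat_lit 14) .nil)))) .nil)) 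
(.lf (nat_lit 47021) (.g (nat_lit 128) (.e (nat_lit 1256) (nat_lit 92) (.e (nat_lit 98369) (nat_lit 28) (.e (nat_lit 450304) (nat_lit 18) .nil))) .nil))) (.nd (nat_lit 5) 
(.lf (nat_lit 47005) (.g (nat_lit 2003) (.e (nat_lit 1256) (nat_lit 92) (.e (nat_lit 98368) (nat_lit 27) (.e (nat_lit 434248) (nat_lit 28) (.e (nat_lit 573487) (nat_lit 14) (.e (nat_lit 81664) (nat_lit 5) .nil))))) .nil)) 
(.lf (nat_lit 47037) (.g (nat_lit 1649) (.e (nat_lit 1256) (nat_lit 92) (.e (nat_lit 98370) (nat_lit 28) (.e (nat_lit 450304) (nat_lit 0) (.e (nat_lit 1848) (nat_lit 124) (.e (nat_lit 557104) (nat_lit 14) (.e (nat_lit 188160) (nat_lit 32) .nil)))))) (.g (nat_lit 5) .nil .nil))))))) (.nd (nat_lit 2) (.nd (nat_lit 3) (.nd (nat_lit 4) (.nd (nat_lit 5) 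
(.lf (nat_lit 46979) (.g (nat_lit 4008) (.e (nat_lit 1256) (nat_lit 92) (.e (nat_lit 98367) (nat_lit 27) (.e (nat_lit 434248) (nat_lit 28) (.e (nat_lit 573489) (nat_lit 14) (.e (nat_lit 73755) (nat_lit 8) (.e (nat_lit 557090) (nat_lit 12) (.e (nat_lit 163843) (nat_lit 0) (.e (nat_lit 5807) (nat_lit 320) (.e (nat_lit 999) (nat_lit 81) .nil))))))))) (.g (nat_lit 5) .nil .nil))) 
(.lf (nat_lit 47011) (.g (nat_lit 2323) (.e (nat_lit 1256) (nat_lit 92) (.e (nat_lit 98369) (nat_lit 28) (.e (nat_lit 442374) (nat_lit 0) (.e (nat_lit 1856) (nat_lit 124) (.e (nat_lit 557103) (nat_lit 14) (.e (nat_lit 188160) (nat_lit 32) .nil)))))) (.g (nat_lit 5) .nil .nil)))) (.nd (nat_lit 5) 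
(.lf (nat_lit 46995) (.g (nat_lit 3329) (.e (nat_lit 1256) (nat_lit 92) (.e (nat_lit 98368) (nat_lit 27) (.e (nat_lit 434247) (nat_lit 28) (.e (nat_lit 573484) (nat_lit 13) (.e (nat_lit 65571) (nat_lit 3) (.e (nat_lit 98325) (nat_lit 17) (.e (nat_lit 3579) (nat_lit 223) (.e (nat_lit 745476) (nat_lit 0) .nil)))))))) (.g (nat_lit 6) .nil .nil))) 
(.lf (nat_lit 47027) (.g (nat_lit 2700) (.e (nat_lit 1256) (nat_lit 92) (.e (nat_lit 98370) (nat_lit 28) (.e (nat_lit 442374) (nat_lit 0) (.e (nat_lit 1856) (nat_lit 124) (.e (nat_lit 557103) (nat_lit 14) (.e (nat_lit 188160) (nat_lit 32) .nil)))))) (.g (nat_lit 5) .nil .nil))))) (.nd (nat_lit 4) (.nd (nat_lit 5) 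
(.lf (nat_lit 46987) (.g (nat_lit 2729) (.e (nat_lit 1256) (nat_lit 92) (.e (nat_lit 98368) (nat_lit 27) (.e (nat_lit 434245) (nat_lit 28) (.e (nat_lit 573481) (nat_lit 13) (.e (nat_lit 65570) (nat_lit 3) (.e (nat_lit 98325) (nat_lit 17) (.e (nat_lit 3579) (nat_lit 223) (.e (nat_lit 745476) (nat_lit 0) .nil)))))))) (.g (nat_lit 6) .nil .nil))) 
(.lf (nat_lit 47019) (.g (nat_lit 2031) (.e (nat_lit 1256) (nat_lit 92) (.e (nat_lit 98369) (nat_lit 28) (.e (nat_lit 442390) (nat_lit 11) (.e (nat_lit 336387) (nat_lit 27) (.e (nat_lit 426107) (nat_lit 1) (.e (nat_lit 164383) (nat_lit 254) (.e (nat_lit 999) (nat_lit 81) .nil))))))) (.g (nat_lit 5) .nil .nil)))) (.nd (nat_lit 5) 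
(.lf (nat_lit 47003) (.g (nat_lit 2199) (.e (nat_lit 1256) (nat_lit 92) (.e (nat_lit 98368) (nat_lit 27) (.e (nat_lit 434248) (nat_lit 28) (.e (nat_lit 573482) (nat_lit 13) (.e (nat_lit 73472) (nat_lit 18) .nil))))) .nil)) 
(.lf (nat_lit 47035) (.g (nat_lit 410) (.e (nat_lit 1256) (nat_lit 92) (.e (nat_lit 98370) (nat_lit 28) (.e (nat_lit 450304) (nat_lit 0) .nil))) .nil))))) (.nd (nat_lit 3) (.nd (nat_lit 4) (.nd (nat_lit 5) 
(.lf (nat_lit 46983) (.g (nat_lit 4460) (.e (nat_lit 1256) (nat_lit 92) (.e (nat_lit 98367) (nat_lit 27) (.e (nat_lit 434248) (nat_lit 28) (.e (nat_lit 573489) (nat_lit 14) (.e (nat_lit 73755) (nat_lit 8) (.e (nat_lit 557090) (nat_lit 12) (.e (nat_lit 164007) (nat_lit 41) (.e (nat_lit 663552) (nat_lit 0) .nil)))))))) (.g (nat_lit 6) .nil .nil))) 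
(.lf (nat_lit 47015) (.g (nat_lit 1185) (.e (nat_lit 1256) (nat_lit 92) (.e (nat_lit 98369) (nat_lit 28) (.e (nat_lit 450304) (nat_lit 0) (.e (nat_lit 1849) (nat_lit 124) (.e (nat_lit 557103) (nat_lit 14) (.e (nat_lit 188160) (nat_lit 32) .nil)))))) (.g (nat_lit 5) .nil .nil)))) (.nd (nat_lit 5) 
(.lf (nat_lit 46999) (.g (nat_lit 3477) (.e (nat_lit 1256) (nat_lit 92) (.e (nat_lit 98368) (nat_lit 27) (.e (nat_lit 434247) (nat_lit 28) (.e (nat_lit 573489) (nat_lit 14) (.e (nat_lit 73755) (nat_lit 8) (.e (nat_lit 557091) (nat_lit 12) (.e (nat_lit 164006) (nat_lit 41) (.e (nat_lit 663554) (nat_lit 0) .nil)))))))) (.g (nat_lit 6) .nil .nil))) 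
(.lf (nat_lit 47031) (.g (nat_lit 2459) (.e (nat_lit 1256) (nat_lit 92) (.e (nat_lit 98370) (nat_lit 28) (.e (nat_lit 442377) (nat_lit 0) (.e (nat_lit 1856) (nat_lit 124) (.e (nat_lit 557105) (nat_lit 14) (.e (nat_lit 188160) (nat_lit 32) .nil)))))) (.g (nat_lit 5) .nil .nil))))) (.nd (nat_lit 4) (.nd (nat_lit 5) 
(.lf (nat_lit 46991) (.g (nat_lit 1607) (.e (nat_lit 1256) (nat_lit 92) (.e (nat_lit 98368) (nat_lit 27) (.e (nat_lit 434245) (nat_lit 28) (.e (nat_lit 573488) (nat_lit 14) (.e (nat_lit 81664) (nat_lit 5) .nil))))) .nil)) 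
(.lf (nat_lit 47023) (.g (nat_lit 2678) (.e (nat_lit 1256) (nat_lit 92) (.e (nat_lit 98369) (nat_lit 28) (.e (nat_lit 442427) (nat_lit 23) (.e (nat_lit 204846) (nat_lit 24) (.e (nat_lit 319504) (nat_lit 10) .nil))))) .nil))) (.nd (nat_lit 5) 
(.lf (nat_lit 47007) (.g (nat_lit 3212) (.e (nat_lit 1256) (nat_lit 92) (.e (nat_lit 98368) (nat_lit 27) (.e (nat_lit 434248) (nat_lit 28) (.e (nat_lit 573487) (nat_lit 14) (.e (nat_lit 73753) (nat_lit 8) (.e (nat_lit 557089) (nat_lit 12) (.e (nat_lit 164007) (nat_lit 41) (.e (nat_lit 663554) (nat_lit 0) .nil)))))))) (.g (nat_lit 5) .nil .nil))) 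
(.lf (nat_lit 47039) (.g (nat_lit 1457) (.e (nat_lit 1256) (nat_lit 92) (.e (nat_lit 98370) (nat_lit 28) (.e (nat_lit 450304) (nat_lit 0) (.e (nat_lit 1849) (nat_lit 124) (.e (nat_lit 557104) (nat_lit 14) (.e (nat_lit 188160) (nat_lit 32) .nil)))))) (.g (nat_lit 5) .nil .nil)))))))))

noncomputable def tv654 : DT := (.nd (nat_lit 0) (.nd (nat_lit 1) (.nd (nat_lit 2) (.nd (nat_lit 3) (.nd (nat_lit 4) (.nd (nat_lit 5) 
(.lf (nat_lit 47040) (.g (nat_lit 2033) (.e (nat_lit 1256) (nat_lit 92) (.e (nat_lit 98370) (nat_lit 28) (.e (nat_lit 450304) (nat_lit 0) (.e (nat_lit 1853) (nat_lit 124) (.e (nat_lit 557103) (nat_lit 14) (.e (nat_lit 188160) (nat_lit 32) .nil)))))) (.g (nat_lit 5) .nil .nil))) 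
(.lf (nat_lit 47072) (.g (nat_lit 1284) (.e (nat_lit 1256) (nat_lit 92) (.e (nat_lit 98370) (nat_lit 28) (.e (nat_lit 442424) (nat_lit 22) (.e (nat_lit 196626) (nat_lit 9) .nil)))) .nil))) (.nd (nat_lit 5) 
(.lf (nat_lit 47056) (.g (nat_lit 2596) (.e (nat_lit 1256) (nat_lit 92) (.e (nat_lit 98370) (nat_lit 28) (.e (nat_lit 442390) (nat_lit 11) (.e (nat_lit 336387) (nat_lit 27) (.e (nat_lit 426108) (nat_lit 1) (.e (nat_lit 164385) (nat_lit 254) (.e (nat_lit 7936) (nat_lit 81) .nil))))))) (.g (nat_lit 5) .nil .nil))) 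
(.lf (nat_lit 47088) (.g (nat_lit 2789) (.e (nat_lit 1256) (nat_lit 92) (.e (nat_lit 98370) (nat_lit 28) (.e (nat_lit 442424) (nat_lit 22) (.e (nat_lit 196666) (nat_lit 13) (.e (nat_lit 65553) (nat_lit 0) .nil))))) .nil)))) (.nd (nat_lit 4) (.nd (nat_lit 5) 
(.lf (nat_lit 47048) (.g (nat_lit 1948) (.e (nat_lit 1256) (nat_lit 92) (.e (nat_lit 98370) (nat_lit 28) (.e (nat_lit 442390) (nat_lit 11) (.e (nat_lit 336049) (nat_lit 6) (.e (nat_lit 147500) (nat_lit 12) (.e (nat_lit 164038) (nat_lit 55) (.e (nat_lit 778246) (nat_lit 0) .nil))))))) (.g (nat_lit 7) .nil .nil))) 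
(.lf (nat_lit 47080) (.g (nat_lit 1701) (.e (nat_lit 1256) (nat_lit 92) (.e (nat_lit 98370) (nat_lit 28) (.e (nat_lit 442424) (nat_lit 22) (.e (nat_lit 196661) (nat_lit 12) (.e (nat_lit 57713) (nat_lit 176) .nil))))) .nil))) (.nd (nat_lit 5) 
(.lf (nat_lit 47064) (.g (nat_lit 1032) (.e (nat_lit 1256) (nat_lit 92) (.e (nat_lit 98370) (nat_lit 28) (.e (nat_lit 442411) (nat_lit 20) (.e (nat_lit 3238) (nat_lit 197) .nil)))) .nil)) 
(.lf (nat_lit 47096) (.g (nat_lit 3191) (.e (nat_lit 1256) (nat_lit 92) (.e (nat_lit 98370) (nat_lit 28) (.e (nat_lit 442425) (nat_lit 23) (.e (nat_lit 204846) (nat_lit 24) (.e (nat_lit 319505) (nat_lit 10) (.e (nat_lit 5245) (nat_lit 298) .nil)))))) (.g (nat_lit 5) .nil .nil)))))) (.nd (nat_lit 3) (.nd (nat_lit 4) (.nd (nat_lit 5) 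
(.lf (nat_lit 47044) (.g (nat_lit 582) (.e (nat_lit 1256) (nat_lit 92) (.e (nat_lit 98370) (nat_lit 28) (.e (nat_lit 442384) (nat_lit 10) .nil))) .nil)) 
(.lf (nat_lit 47076) (.g (nat_lit 1688) (.e (nat_lit 1256) (nat_lit 92) (.e (nat_lit 98370) (nat_lit 28) (.e (nat_lit 442424) (nat_lit 22) (.e (nat_lit 196628) (nat_lit 9) (.e (nat_lit 970) (nat_lit 81) .nil))))) .nil))) (.nd (nat_lit 5) 
(.lf (nat_lit 47060) (.g (nat_lit 1396) (.e (nat_lit 1256) (nat_lit 92) (.e (nat_lit 98370) (nat_lit 28) (.e (nat_lit 442392) (nat_lit 20) (.e (nat_lit 3238) (nat_lit 197) (.e (nat_lit 532523) (nat_lit 7) .nil))))) .nil)) 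
(.lf (nat_lit 47092) (.g (nat_lit 1287) (.e (nat_lit 1256) (nat_lit 92) (.e (nat_lit 98370) (nat_lit 28) (.e (nat_lit 442424) (nat_lit 22) (.e (nat_lit 196683) (nat_lit 18) .nil)))) .nil)))) (.nd (nat_lit 4) (.nd (nat_lit 5) 
(.lf (nat_lit 47052) (.g (nat_lit 2469) (.e (nat_lit 1256) (nat_lit 92) (.e (nat_lit 98370) (nat_lit 28) (.e (nat_lit 442390) (nat_lit 11) (.e (nat_lit 336387) (nat_lit 27) (.e (nat_lit 426107) (nat_lit 1) (.e (nat_lit 164385) (nat_lit 254) (.e (nat_lit 999) (nat_lit 81) .nil))))))) (.g (nat_lit 5) .nil .nil))) 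
(.lf (nat_lit 47084) (.g (nat_lit 2399) (.e (nat_lit 1256) (nat_lit 92) (.e (nat_lit 98370) (nat_lit 28) (.e (nat_lit 442424) (nat_lit 22) (.e (nat_lit 196661) (nat_lit 12) (.e (nat_lit 57722) (nat_lit 178) (.e (nat_lit 123202) (nat_lit 270) .nil)))))) (.g (nat_lit 6) .nil .nil)))) (.nd (nat_lit 5) 
(.lf (nat_lit 47068) (.g (nat_lit 1324) (.e (nat_lit 1256) (nat_lit 92) (.e (nat_lit 98370) (nat_lit 28) (.e (nat_lit 442417) (nat_lit 20) (.e (nat_lit 3253) (nat_lit 197) (.e (nat_lit 532523) (nat_lit 7) .nil))))) .nil)) 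
(.lf (nat_lit 47100) (.g (nat_lit 1103) (.e (nat_lit 1256) (nat_lit 92) (.e (nat_lit 98370) (nat_lit 28) (.e (nat_lit 442425) (nat_lit 23) (.e (nat_lit 204848) (nat_lit 25) .nil)))) .nil)))))) (.nd (nat_lit 2) (.nd (nat_lit 3) (.nd (nat_lit 4) (.nd (nat_lit 5) 
(.lf (nat_lit 47042) (.g (nat_lit 1634) (.e (nat_lit 1256) (nat_lit 92) (.e (nat_lit 98370) (nat_lit 28) (.e (nat_lit 450304) (nat_lit 0) (.e (nat_lit 1859) (nat_lit 124) (.e (nat_lit 557103) (nat_lit 14) (.e (nat_lit 188160) (nat_lit 32) .nil)))))) (.g (nat_lit 5) .nil .nil))) 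
(.lf (nat_lit 47074) (.g (nat_lit 1632) (.e (nat_lit 1256) (nat_lit 92) (.e (nat_lit 98370) (nat_lit 28) (.e (nat_lit 442424) (nat_lit 22) (.e (nat_lit 196626) (nat_lit 9) (.e (nat_lit 1400) (nat_lit 106) (.e (nat_lit 319511) (nat_lit 10) (.e (nat_lit 5270) (nat_lit 298) .nil))))))) (.g (nat_lit 4) .nil .nil)))) (.nd (nat_lit 5) 
(.lf (nat_lit 47058) (.g (nat_lit 1143) (.e (nat_lit 1256) (nat_lit 92) (.e (nat_lit 98370) (nat_lit 28) (.e (nat_lit 450304) (nat_lit 18) (.e (nat_lit 393234) (nat_lit 17) (.e (nat_lit 2504) (nat_lit 157) (.e (nat_lit 5818) (nat_lit 320) (.e (nat_lit 999) (nat_lit 81) .nil))))))) (.g (nat_lit 4) .nil .nil))) 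
(.lf (nat_lit 47090) (.g (nat_lit 3741) (.e (nat_lit 1256) (nat_lit 92) (.e (nat_lit 98370) (nat_lit 28) (.e (nat_lit 442424) (nat_lit 22) (.e (nat_lit 196670) (nat_lit 14) (.e (nat_lit 73729) (nat_lit 0) (.e (nat_lit 4780) (nat_lit 281) (.e (nat_lit 1011) (nat_lit 81) .nil))))))) (.g (nat_lit 6) .nil .nil))))) (.nd (nat_lit 4) (.nd (nat_lit 5) 
(.lf (nat_lit 47050) (.g (nat_lit 3068) (.e (nat_lit 1256) (nat_lit 92) (.e (nat_lit 98370) (nat_lit 28) (.e (nat_lit 442390) (nat_lit 11) (.e (nat_lit 336387) (nat_lit 27) (.e (nat_lit 426100) (nat_lit 1) (.e (nat_lit 164380) (nat_lit 254) (.e (nat_lit 999) (nat_lit 81) .nil))))))) (.g (nat_lit 5) .nil .nil))) 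
(.lf (nat_lit 47082) (.g (nat_lit 1588) (.e (nat_lit 1256) (nat_lit 92) (.e (nat_lit 98370) (nat_lit 28) (.e (nat_lit 442424) (nat_lit 22) (.e (nat_lit 196661) (nat_lit 12) (.e (nat_lit 57714) (nat_lit 176) (.e (nat_lit 995) (nat_lit 81) (.e (nat_lit 5258) (nat_lit 298) .nil))))))) (.g (nat_lit 4) .nil .nil)))) (.nd (nat_lit 5) 
(.lf (nat_lit 47066) (.g (nat_lit 1854) (.e (nat_lit 1256) (nat_lit 92) (.e (nat_lit 98370) (nat_lit 28) (.e (nat_lit 442412) (nat_lit 20) (.e (nat_lit 3272) (nat_lit 199) (.e (nat_lit 548914) (nat_lit 19) (.e (nat_lit 188160) (nat_lit 32) .nil)))))) (.g (nat_lit 5) .nil .nil))) 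
(.lf (nat_lit 47098) (.g (nat_lit 2018) (.e (nat_lit 1256) (nat_lit 92) (.e (nat_lit 98370) (nat_lit 28) (.e (nat_lit 442425) (nat_lit 23) (.e (nat_lit 204846) (nat_lit 24) (.e (nat_lit 319511) (nat_lit 10) (.e (nat_lit 5245) (nat_lit 298) .nil)))))) (.g (nat_lit 4) .nil .nil)))))) (.nd (nat_lit 3) (.nd (nat_lit 4) (.nd (nat_lit 5) 
(.lf (nat_lit 47046) (.g (nat_lit 2454) (.e (nat_lit 1256) (nat_lit 92) (.e (nat_lit 98370) (nat_lit 28) (.e (nat_lit 442389) (nat_lit 11) (.e (nat_lit 336051) (nat_lit 6) (.e (nat_lit 147466) (nat_lit 9) (.e (nat_lit 2703) (nat_lit 169) (.e (nat_lit 220928) (nat_lit 0) .nil))))))) (.g (nat_lit 6) .nil .nil))) 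
(.lf (nat_lit 47078) (.g (nat_lit 1443) (.e (nat_lit 1256) (nat_lit 92) (.e (nat_lit 98370) (nat_lit 28) (.e (nat_lit 442424) (nat_lit 22) (.e (nat_lit 196661) (nat_lit 12) (.e (nat_lit 57711) (nat_lit 176) .nil))))) .nil))) (.nd (nat_lit 5) 
(.lf (nat_lit 47062) (.g (nat_lit 1787) (.e (nat_lit 1256) (nat_lit 92) (.e (nat_lit 98370) (nat_lit 28) (.e (nat_lit 442404) (nat_lit 20) (.e (nat_lit 3238) (nat_lit 197) (.e (nat_lit 532523) (nat_lit 7) .nil))))) .nil)) 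
(.lf (nat_lit 47094) (.g (nat_lit 332) (.e (nat_lit 1256) (nat_lit 92) (.e (nat_lit 98370) (nat_lit 28) (.e (nat_lit 442425) (nat_lit 23) .nil))) .nil)))) (.nd (nat_lit 4) (.nd (nat_lit 5) 
(.lf (nat_lit 47054) (.g (nat_lit 1547) (.e (nat_lit 1256) (nat_lit 92) (.e (nat_lit 98370) (nat_lit 28) (.e (nat_lit 442390) (nat_lit 11) (.e (nat_lit 336387) (nat_lit 27) (.e (nat_lit 426107) (nat_lit 1) (.e (nat_lit 171776) (nat_lit 254) (.e (nat_lit 974) (nat_lit 81) .nil))))))) (.g (nat_lit 4) .nil .nil))) 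
(.lf (nat_lit 47086) (.g (nat_lit 2222) (.e (nat_lit 1256) (nat_lit 92) (.e (nat_lit 98370) (nat_lit 28) (.e (nat_lit 442424) (nat_lit 22) (.e (nat_lit 196666) (nat_lit 13) (.e (nat_lit 65546) (nat_lit 0) .nil))))) .nil))) (.nd (nat_lit 5) 
(.lf (nat_lit 47070) (.g (nat_lit 236) (.e (nat_lit 1256) (nat_lit 92) (.e (nat_lit 98370) (nat_lit 28) (.e (nat_lit 442424) (nat_lit 22) .nil))) .nil)) 
(.lf (nat_lit 47102) (.g (nat_lit 2677) (.e (nat_lit 1256) (nat_lit 92) (.e (nat_lit 98370) (nat_lit 28) (.e (nat_lit 442426) (nat_lit 23) (.e (nat_lit 204846) (nat_lit 24) (.e (nat_lit 319504) (nat_lit 10) (.e (nat_lit 7936) (nat_lit 298) .nil)))))) (.g (nat_lit 5) .nil .nil)))))))) (.nd (nat_lit 1) (.nd (nat_lit 2) (.nd (nat_lit 3) (.nd (nat_lit 4) (.nd (nat_lit 5) 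
(.lf (nat_lit 47041) (.g (nat_lit 1520) (.e (nat_lit 1256) (nat_lit 92) (.e (nat_lit 98370) (nat_lit 28) (.e (nat_lit 450304) (nat_lit 0) (.e (nat_lit 1853) (nat_lit 124) (.e (nat_lit 557105) (nat_lit 14) (.e (nat_lit 188160) (nat_lit 32) .nil)))))) (.g (nat_lit 5) .nil .nil))) 
(.lf (nat_lit 47073) (.g (nat_lit 1622) (.e (nat_lit 1256) (nat_lit 92) (.e (nat_lit 98370) (nat_lit 28) (.e (nat_lit 442424) (nat_lit 22) (.e (nat_lit 196626) (nat_lit 9) (.e (nat_lit 1400) (nat_lit 106) (.e (nat_lit 319505) (nat_lit 10) (.e (nat_lit 5271) (nat_lit 298) .nil))))))) (.g (nat_lit 4) .nil .nil)))) (.nd (nat_lit 5) 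
(.lf (nat_lit 47057) (.g (nat_lit 410) (.e (nat_lit 1256) (nat_lit 92) (.e (nat_lit 98370) (nat_lit 28) (.e (nat_lit 450304) (nat_lit 18) .nil))) .nil)) 
(.lf (nat_lit 47089) (.g (nat_lit 1352) (.e (nat_lit 1256) (nat_lit 92) (.e (nat_lit 98370) (nat_lit 28) (.e (nat_lit 442424) (nat_lit 22) (.e (nat_lit 196669) (nat_lit 14) .nil)))) .nil)))) (.nd (nat_lit 4) (.nd (nat_lit 5) 
(.lf (nat_lit 47049) (.g (nat_lit 1848) (.e (nat_lit 1256) (nat_lit 92) (.e (nat_lit 98370) (nat_lit 28) (.e (nat_lit 442390) (nat_lit 11) (.e (nat_lit 336049) (nat_lit 6) (.e (nat_lit 147503) (nat_lit 12) (.e (nat_lit 164042) (nat_lit 55) (.e (nat_lit 778246) (nat_lit 0) .nil))))))) (.g (nat_lit 7) .nil .nil))) 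
(.lf (nat_lit 47081) (.g (nat_lit 1497) (.e (nat_lit 1256) (nat_lit 92) (.e (nat_lit 98370) (nat_lit 28) (.e (nat_lit 442424) (nat_lit 22) (.e (nat_lit 196661) (nat_lit 12) (.e (nat_lit 57714) (nat_lit 176) .nil))))) .nil))) (.nd (nat_lit 5) 
(.lf (nat_lit 47065) (.g (nat_lit 1254) (.e (nat_lit 1256) (nat_lit 92) (.e (nat_lit 98370) (nat_lit 28) (.e (nat_lit 442412) (nat_lit 20) (.e (nat_lit 3271) (nat_lit 199) (.e (nat_lit 548914) (nat_lit 19) (.e (nat_lit 188160) (nat_lit 32) .nil)))))) (.g (nat_lit 5) .nil .nil))) 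
(.lf (nat_lit 47097) (.g (nat_lit 3488) (.e (nat_lit 1256) (nat_lit 92) (.e (nat_lit 98370) (nat_lit 28) (.e (nat_lit 442425) (nat_lit 23) (.e (nat_lit 204846) (nat_lit 24) (.e (nat_lit 319505) (nat_lit 10) (.e (nat_lit 5271) (nat_lit 298) .nil)))))) (.g (nat_lit 6) .nil .nil)))))) (.nd (nat_lit 3) (.nd (nat_lit 4) (.nd (nat_lit 5) 
(.lf (nat_lit 47045) (.g (nat_lit 431) (.e (nat_lit 1256) (nat_lit 92) (.e (nat_lit 98370) (nat_lit 28) (.e (nat_lit 442389) (nat_lit 11) .nil))) .nil)) 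
(.lf (nat_lit 47077) (.g (nat_lit 1039) (.e (nat_lit 1256) (nat_lit 92) (.e (nat_lit 98370) (nat_lit 28) (.e (nat_lit 442424) (nat_lit 22) (.e (nat_lit 196661) (nat_lit 12) .nil)))) .nil))) (.nd (nat_lit 5) 
(.lf (nat_lit 47061) (.g (nat_lit 1721) (.e (nat_lit 1256) (nat_lit 92) (.e (nat_lit 98370) (nat_lit 28) (.e (nat_lit 442392) (nat_lit 20) (.e (nat_lit 3238) (nat_lit 197) (.e (nat_lit 532523) (nat_lit 7) (.e (nat_lit 319505) (nat_lit 10) (.e (nat_lit 5271) (nat_lit 298) .nil))))))) (.g (nat_lit 4) .nil .nil))) 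
(.lf (nat_lit 47093) (.g (nat_lit 1354) (.e (nat_lit 1256) (nat_lit 92) (.e (nat_lit 98370) (nat_lit 28) (.e (nat_lit 442424) (nat_lit 22) (.e (nat_lit 196700) (nat_lit 22) .nil)))) .nil)))) (.nd (nat_lit 4) (.nd (nat_lit 5) 
(.lf (nat_lit 47053) (.g (nat_lit 2562) (.e (nat_lit 1256) (nat_lit 92) (.e (nat_lit 98370) (nat_lit 28) (.e (nat_lit 442390) (nat_lit 11) (.e (nat_lit 336387) (nat_lit 27) (.e (nat_lit 426107) (nat_lit 1) (.e (nat_lit 164385) (nat_lit 254) (.e (nat_lit 7936) (nat_lit 81) .nil))))))) (.g (nat_lit 5) .nil .nil))) 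
(.lf (nat_lit 47085) (.g (nat_lit 1243) (.e (nat_lit 1256) (nat_lit 92) (.e (nat_lit 98370) (nat_lit 28) (.e (nat_lit 442424) (nat_lit 22) (.e (nat_lit 196666) (nat_lit 13) .nil)))) .nil))) (.nd (nat_lit 5) 
(.lf (nat_lit 47069) (.g (nat_lit 1048) (.e (nat_lit 1256) (nat_lit 92) (.e (nat_lit 98370) (nat_lit 28) (.e (nat_lit 442423) (nat_lit 22) (.e (nat_lit 196626) (nat_lit 9) (.e (nat_lit 1400) (nat_lit 106) .nil))))) .nil)) 
(.lf (nat_lit 47101) (.g (nat_lit 3020) (.e (nat_lit 1256) (nat_lit 92) (.e (nat_lit 98370) (nat_lit 28) (.e (nat_lit 442426) (nat_lit 23) (.e (nat_lit 204846) (nat_lit 24) (.e (nat_lit 319504) (nat_lit 10) (.e (nat_lit 5272) (nat_lit 298) .nil)))))) (.g (nat_lit 5) .nil .nil))))))) (.nd (nat_lit 2) (.nd (nat_lit 3) (.nd (nat_lit 4) (.nd (nat_lit 5) 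
(.lf (nat_lit 47043) (.g (nat_lit 1478) (.e (nat_lit 1256) (nat_lit 92) (.e (nat_lit 98370) (nat_lit 28) (.e (nat_lit 450304) (nat_lit 0) (.e (nat_lit 1859) (nat_lit 124) (.e (nat_lit 557105) (nat_lit 14) (.e (nat_lit 188160) (nat_lit 32) .nil)))))) (.g (nat_lit 5) .nil .nil))) 
(.lf (nat_lit 47075) (.g (nat_lit 1693) (.e (nat_lit 1256) (nat_lit 92) (.e (nat_lit 98370) (nat_lit 28) (.e (nat_lit 442424) (nat_lit 22) (.e (nat_lit 196628) (nat_lit 9) (.e (nat_lit 968) (nat_lit 81) .nil))))) .nil))) (.nd (nat_lit 5) 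
(.lf (nat_lit 47059) (.g (nat_lit 1585) (.e (nat_lit 1256) (nat_lit 92) (.e (nat_lit 98370) (nat_lit 28) (.e (nat_lit 450304) (nat_lit 18) (.e (nat_lit 393251) (nat_lit 18) (.e (nat_lit 164380) (nat_lit 254) (.e (nat_lit 999) (nat_lit 81) .nil)))))) (.g (nat_lit 4) .nil .nil))) 
(.lf (nat_lit 47091) (.g (nat_lit 1483) (.e (nat_lit 1256) (nat_lit 92) (.e (nat_lit 98370) (nat_lit 28) (.e (nat_lit 442424) (nat_lit 22) (.e (nat_lit 196677) (nat_lit 16) (.e (nat_lit 123080) (nat_lit 177) (.e (nat_lit 65280) (nat_lit 270) .nil)))))) (.g (nat_lit 4) .nil .nil))))) (.nd (nat_lit 4) (.nd (nat_lit 5) 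
(.lf (nat_lit 47051) (.g (nat_lit 2627) (.e (nat_lit 1256) (nat_lit 92) (.e (nat_lit 98370) (nat_lit 28) (.e (nat_lit 442390) (nat_lit 11) (.e (nat_lit 336387) (nat_lit 27) (.e (nat_lit 426107) (nat_lit 1) (.e (nat_lit 164383) (nat_lit 254) (.e (nat_lit 999) (nat_lit 81) .nil))))))) (.g (nat_lit 5) .nil .nil))) 
(.lf (nat_lit 47083) (.g (nat_lit 1851) (.e (nat_lit 1256) (nat_lit 92) (.e (nat_lit 98370) (nat_lit 28) (.e (nat_lit 442424) (nat_lit 22) (.e (nat_lit 196661) (nat_lit 12) (.e (nat_lit 57721) (nat_lit 177) (.e (nat_lit 65280) (nat_lit 270) .nil)))))) (.g (nat_lit 5) .nil .nil)))) (.nd (nat_lit 5) 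
(.lf (nat_lit 47067) (.g (nat_lit 705) (.e (nat_lit 1256) (nat_lit 92) (.e (nat_lit 98370) (nat_lit 28) (.e (nat_lit 442414) (nat_lit 20) (.e (nat_lit 3254) (nat_lit 197) .nil)))) .nil)) 
(.lf (nat_lit 47099) (.g (nat_lit 2889) (.e (nat_lit 1256) (nat_lit 92) (.e (nat_lit 98370) (nat_lit 28) (.e (nat_lit 442425) (nat_lit 23) (.e (nat_lit 204846) (nat_lit 24) (.e (nat_lit 319511) (nat_lit 10) (.e (nat_lit 5270) (nat_lit 298) .nil)))))) (.g (nat_lit 5) .nil .nil)))))) (.nd (nat_lit 3) (.nd (nat_lit 4) (.nd (nat_lit 5) 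
(.lf (nat_lit 47047) (.g (nat_lit 1420) (.e (nat_lit 1256) (nat_lit 92) (.e (nat_lit 98370) (nat_lit 28) (.e (nat_lit 442389) (nat_lit 11) (.e (nat_lit 336051) (nat_lit 6) (.e (nat_lit 147499) (nat_lit 12) (.e (nat_lit 164038) (nat_lit 55) (.e (nat_lit 778246) (nat_lit 0) .nil))))))) (.g (nat_lit 5) .nil .nil))) 
(.lf (nat_lit 47079) (.g (nat_lit 1469) (.e (nat_lit 1256) (nat_lit 92) (.e (nat_lit 98370) (nat_lit 28) (.e (nat_lit 442424) (nat_lit 22) (.e (nat_lit 196661) (nat_lit 12) (.e (nat_lit 57712) (nat_lit 176) .nil))))) .nil))) (.nd (nat_lit 5) 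
(.lf (nat_lit 47063) (.g (nat_lit 439) (.e (nat_lit 1256) (nat_lit 92) (.e (nat_lit 98370) (nat_lit 28) (.e (nat_lit 442411) (nat_lit 20) .nil))) .nil)) 
(.lf (nat_lit 47095) (.g (nat_lit 3837) (.e (nat_lit 1256) (nat_lit 92) (.e (nat_lit 98370) (nat_lit 28) (.e (nat_lit 442425) (nat_lit 23) (.e (nat_lit 204846) (nat_lit 24) (.e (nat_lit 319504) (nat_lit 10) (.e (nat_lit 5271) (nat_lit 298) .nil)))))) (.g (nat_lit 5) .nil .nil))))) (.nd (nat_lit 4) (.nd (nat_lit 5) 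
(.lf (nat_lit 47055) (.g (nat_lit 2503) (.e (nat_lit 1256) (nat_lit 92) (.e (nat_lit 98370) (nat_lit 28) (.e (nat_lit 442390) (nat_lit 11) (.e (nat_lit 336387) (nat_lit 27) (.e (nat_lit 426108) (nat_lit 1) (.e (nat_lit 164385) (nat_lit 254) (.e (nat_lit 999) (nat_lit 81) .nil))))))) (.g (nat_lit 5) .nil .nil))) 
(.lf (nat_lit 47087) (.g (nat_lit 2449) (.e (nat_lit 1256) (nat_lit 92) (.e (nat_lit 98370) (nat_lit 28) (.e (nat_lit 442424) (nat_lit 22) (.e (nat_lit 196666) (nat_lit 13) (.e (nat_lit 65546) (nat_lit 0) (.e (nat_lit 1939) (nat_lit 132) (.e (nat_lit 622602) (nat_lit 5) .nil))))))) (.g (nat_lit 4) .nil .nil)))) (.nd (nat_lit 5) 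
(.lf (nat_lit 47071) (.g (nat_lit 1352) (.e (nat_lit 1256) (nat_lit 92) (.e (nat_lit 98370) (nat_lit 28) (.e (nat_lit 442424) (nat_lit 22) (.e (nat_lit 196622) (nat_lit 9) .nil)))) .nil)) 
(.lf (nat_lit 47103) (.g (nat_lit 2882) (.e (nat_lit 1256) (nat_lit 92) (.e (nat_lit 98370) (nat_lit 28) (.e (nat_lit 442426) (nat_lit 23) (.e (nat_lit 204846) (nat_lit 24) (.e (nat_lit 319505) (nat_lit 10) (.e (nat_lit 5271) (nat_lit 298) .nil)))))) (.g (nat_lit 0) .nil .nil)))))))))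

noncomputable def tv655 : DT := (.nd (nat_lit 0) (.nd (nat_lit 1) (.nd (nat_lit 2) (.nd (nat_lit 3) (.nd (nat_lit 4) (.nd (nat_lit 5) (.nd (nat_lit 6) 
(.lf (nat_lit 47104) (.g (nat_lit 2317) (.e (nat_lit 1256) (nat_lit 92) (.e (nat_lit 98370) (nat_lit 28) (.e (nat_lit 442426) (nat_lit 23) (.e (nat_lit 204846) (nat_lit 24) (.e (nat_lit 319505) (nat_lit 10) (.e (nat_lit 7936) (nat_lit 298) .nil)))))) (.g (nat_lit 5) .nil .nil))) 
(.lf (nat_lit 47168) (.g (nat_lit 534) (.e (nat_lit 1256) (nat_lit 92) (.e (nat_lit 98372) (nat_lit 29) (.e (nat_lit 458496) (nat_lit 0) .nil))) .nil))) (.nd (nat_lit 6) 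
(.lf (nat_lit 47136) (.g (nat_lit 2158) (.e (nat_lit 1256) (nat_lit 92) (.e (nat_lit 98370) (nat_lit 28) (.e (nat_lit 442427) (nat_lit 23) (.e (nat_lit 204845) (nat_lit 24) (.e (nat_lit 319508) (nat_lit 10) .nil))))) .nil)) 
(.lf (nat_lit 47200) (.g (nat_lit 2854) (.e (nat_lit 1256) (nat_lit 92) (.e (nat_lit 98372) (nat_lit 29) (.e (nat_lit 450579) (nat_lit 5) (.e (nat_lit 532523) (nat_lit 7) (.e (nat_lit 319504) (nat_lit 10) (.e (nat_lit 5258) (nat_lit 298) .nil)))))) (.g (nat_lit 4) .nil .nil))))) (.nd (nat_lit 5) (.nd (nat_lit 6) 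
(.lf (nat_lit 47120) (.g (nat_lit 1636) (.e (nat_lit 1256) (nat_lit 92) (.e (nat_lit 98370) (nat_lit 28) (.e (nat_lit 442427) (nat_lit 23) (.e (nat_lit 212736) (nat_lit 17) .nil)))) .nil)) 
(.lf (nat_lit 47184) (.g (nat_lit 988) (.e (nat_lit 1256) (nat_lit 92) (.e (nat_lit 98372) (nat_lit 29) (.e (nat_lit 450579) (nat_lit 5) (.e (nat_lit 532489) (nat_lit 0) .nil)))) .nil))) (.nd (nat_lit 6) 
(.lf (nat_lit 47152) (.g (nat_lit 3345) (.e (nat_lit 1256) (nat_lit 92) (.e (nat_lit 98370) (nat_lit 28) (.e (nat_lit 442427) (nat_lit 23) (.e (nat_lit 204863) (nat_lit 27) (.e (nat_lit 344096) (nat_lit 18) (.e (nat_lit 4761) (nat_lit 281) (.e (nat_lit 968) (nat_lit 81) .nil))))))) (.g (nat_lit 5) .nil .nil))) 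
(.lf (nat_lit 47216) (.g (nat_lit 1969) (.e (nat_lit 1256) (nat_lit 92) (.e (nat_lit 98372) (nat_lit 29) (.e (nat_lit 450579) (nat_lit 5) (.e (nat_lit 532526) (nat_lit 8) (.e (nat_lit 327703) (nat_lit 10) (.e (nat_lit 7936) (nat_lit 298) .nil)))))) (.g (nat_lit 5) .nil .nil)))))) (.nd (nat_lit 4) (.nd (nat_lit 5) (.nd (nat_lit 6) 
(.lf (nat_lit 47112) (.g (nat_lit 2036) (.e (nat_lit 1256) (nat_lit 92) (.e (nat_lit 98370) (nat_lit 28) (.e (nat_lit 442427) (nat_lit 23) (.e (nat_lit 204821) (nat_lit 17) (.e (nat_lit 6114) (nat_lit 332) (.e (nat_lit 980) (nat_lit 81) (.e (nat_lit 5270) (nat_lit 298) .nil))))))) (.g (nat_lit 4) .nil .nil))) 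
(.lf (nat_lit 47176) (.g (nat_lit 1193) (.e (nat_lit 1256) (nat_lit 92) (.e (nat_lit 98372) (nat_lit 29) (.e (nat_lit 450579) (nat_lit 5) (.e (nat_lit 532481) (nat_lit 0) .nil)))) .nil))) (.nd (nat_lit 6) 
(.lf (nat_lit 47144) (.g (nat_lit 2411) (.e (nat_lit 1256) (nat_lit 92) (.e (nat_lit 98370) (nat_lit 28) (.e (nat_lit 442427) (nat_lit 23) (.e (nat_lit 204846) (nat_lit 24) (.e (nat_lit 319511) (nat_lit 10) .nil))))) .nil)) 
(.lf (nat_lit 47208) (.g (nat_lit 1816) (.e (nat_lit 1256) (nat_lit 92) (.e (nat_lit 98372) (nat_lit 29) (.e (nat_lit 450579) (nat_lit 5) (.e (nat_lit 532525) (nat_lit 8) (.e (nat_lit 327705) (nat_lit 10) (.e (nat_lit 5245) (nat_lit 298) .nil)))))) (.g (nat_lit 4) .nil .nil))))) (.nd (nat_lit 5) (.nd (nat_lit 6) 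
(.lf (nat_lit 47128) (.g (nat_lit 2164) (.e (nat_lit 1256) (nat_lit 92) (.e (nat_lit 98370) (nat_lit 28) (.e (nat_lit 442427) (nat_lit 23) (.e (nat_lit 204845) (nat_lit 24) (.e (nat_lit 319502) (nat_lit 10) .nil))))) .nil)) 
(.lf (nat_lit 47192) (.g (nat_lit 1985) (.e (nat_lit 1256) (nat_lit 92) (.e (nat_lit 98372) (nat_lit 29) (.e (nat_lit 450579) (nat_lit 5) (.e (nat_lit 532522) (nat_lit 7) (.e (nat_lit 319503) (nat_lit 10) .nil))))) .nil))) (.nd (nat_lit 6) 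
(.lf (nat_lit 47160) (.g (nat_lit 1655) (.e (nat_lit 1256) (nat_lit 92) (.e (nat_lit 98370) (nat_lit 28) (.e (nat_lit 442436) (nat_lit 26) (.e (nat_lit 253984) (nat_lit 10) .nil)))) .nil)) 
(.lf (nat_lit 47224) (.g (nat_lit 2138) (.e (nat_lit 1256) (nat_lit 92) (.e (nat_lit 98372) (nat_lit 29) (.e (nat_lit 450579) (nat_lit 5) (.e (nat_lit 532530) (nat_lit 9) (.e (nat_lit 335878) (nat_lit 0) (.e (nat_lit 996) (nat_lit 81) (.e (nat_lit 4761) (nat_lit 281) (.e (nat_lit 968) (nat_lit 81) .nil)))))))) (.g (nat_lit 4) .nil .nil))))))) 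
(.nd (nat_lit 3) (.nd (nat_lit 4) (.nd (nat_lit 5) (.nd (nat_lit 6) 
(.lf (nat_lit 47108) (.g (nat_lit 2143) (.e (nat_lit 1256) (nat_lit 92) (.e (nat_lit 98370) (nat_lit 28) (.e (nat_lit 442427) (nat_lit 23) (.e (nat_lit 204816) (nat_lit 17) (.e (nat_lit 6221) (nat_lit 333) .nil))))) .nil)) 
(.lf (nat_lit 47172) (.g (nat_lit 1590) (.e (nat_lit 1256) (nat_lit 92) (.e (nat_lit 98372) (nat_lit 29) (.e (nat_lit 450576) (nat_lit 2) (.e (nat_lit 507942) (nat_lit 15) (.e (nat_lit 278550) (nat_lit 10) (.e (nat_lit 5271) (nat_lit 298) .nil)))))) (.g (nat_lit 5) .nil .nil)))) (.nd (nat_lit 6) 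
(.lf (nat_lit 47140) (.g (nat_lit 3848) (.e (nat_lit 1256) (nat_lit 92) (.e (nat_lit 98370) (nat_lit 28) (.e (nat_lit 442427) (nat_lit 23) (.e (nat_lit 204846) (nat_lit 24) (.e (nat_lit 319504) (nat_lit 10) (.e (nat_lit 5272) (nat_lit 298) .nil)))))) (.g (nat_lit 5) .nil .nil))) 
(.lf (nat_lit 47204) (.g (nat_lit 2800) (.e (nat_lit 1256) (nat_lit 92) (.e (nat_lit 98372) (nat_lit 29) (.e (nat_lit 450579) (nat_lit 5) (.e (nat_lit 532523) (nat_lit 7) (.e (nat_lit 319505) (nat_lit 10) (.e (nat_lit 5245) (nat_lit 298) .nil)))))) (.g (nat_lit 4) .nil .nil))))) (.nd (nat_lit 5) (.nd (nat_lit 6) 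
(.lf (nat_lit 47124) (.g (nat_lit 2136) (.e (nat_lit 1256) (nat_lit 92) (.e (nat_lit 98370) (nat_lit 28) (.e (nat_lit 442427) (nat_lit 23) (.e (nat_lit 204845) (nat_lit 24) (.e (nat_lit 319499) (nat_lit 10) .nil))))) .nil)) 
(.lf (nat_lit 47188) (.g (nat_lit 2201) (.e (nat_lit 1256) (nat_lit 92) (.e (nat_lit 98372) (nat_lit 29) (.e (nat_lit 450579) (nat_lit 5) (.e (nat_lit 532504) (nat_lit 1) (.e (nat_lit 57776) (nat_lit 233) .nil))))) .nil))) (.nd (nat_lit 6) 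
(.lf (nat_lit 47156) (.g (nat_lit 2462) (.e (nat_lit 1256) (nat_lit 92) (.e (nat_lit 98370) (nat_lit 28) (.e (nat_lit 442427) (nat_lit 23) (.e (nat_lit 204863) (nat_lit 27) (.e (nat_lit 344152) (nat_lit 34) .nil))))) .nil)) 
(.lf (nat_lit 47220) (.g (nat_lit 3430) (.e (nat_lit 1256) (nat_lit 92) (.e (nat_lit 98372) (nat_lit 29) (.e (nat_lit 450579) (nat_lit 5) (.e (nat_lit 532526) (nat_lit 8) (.e (nat_lit 327708) (nat_lit 10) (.e (nat_lit 5245) (nat_lit 298) .nil)))))) (.g (nat_lit 0) .nil .nil)))))) (.nd (nat_lit 4) (.nd (nat_lit 5) (.nd (nat_lit 6) 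
(.lf (nat_lit 47116) (.g (nat_lit 1837) (.e (nat_lit 1256) (nat_lit 92) (.e (nat_lit 98370) (nat_lit 28) (.e (nat_lit 442427) (nat_lit 23) (.e (nat_lit 204821) (nat_lit 17) (.e (nat_lit 6206) (nat_lit 333) (.e (nat_lit 57876) (nat_lit 270) .nil)))))) (.g (nat_lit 4) .nil .nil))) 
(.lf (nat_lit 47180) (.g (nat_lit 1102) (.e (nat_lit 1256) (nat_lit 92) (.e (nat_lit 98372) (nat_lit 29) (.e (nat_lit 450579) (nat_lit 5) (.e (nat_lit 532482) (nat_lit 0) .nil)))) .nil))) (.nd (nat_lit 6) 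
(.lf (nat_lit 47148) (.g (nat_lit 2215) (.e (nat_lit 1256) (nat_lit 92) (.e (nat_lit 98370) (nat_lit 28) (.e (nat_lit 442427) (nat_lit 23) (.e (nat_lit 204849) (nat_lit 25) (.e (nat_lit 327705) (nat_lit 10) .nil))))) .nil)) 
(.lf (nat_lit 47212) (.g (nat_lit 1988) (.e (nat_lit 1256) (nat_lit 92) (.e (nat_lit 98372) (nat_lit 29) (.e (nat_lit 450579) (nat_lit 5) (.e (nat_lit 532526) (nat_lit 8) (.e (nat_lit 327702) (nat_lit 10) (.e (nat_lit 5271) (nat_lit 298) .nil)))))) (.g (nat_lit 5) .nil .nil))))) (.nd (nat_lit 5) (.nd (nat_lit 6) 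
(.lf (nat_lit 47132) (.g (nat_lit 2014) (.e (nat_lit 1256) (nat_lit 92) (.e (nat_lit 98370) (nat_lit 28) (.e (nat_lit 442427) (nat_lit 23) (.e (nat_lit 204845) (nat_lit 24) (.e (nat_lit 319505) (nat_lit 10) .nil))))) .nil)) 
(.lf (nat_lit 47196) (.g (nat_lit 1274) (.e (nat_lit 1256) (nat_lit 92) (.e (nat_lit 98372) (nat_lit 29) (.e (nat_lit 450579) (nat_lit 5) (.e (nat_lit 532523) (nat_lit 7) .nil)))) .nil))) (.nd (nat_lit 6) 
(.lf (nat_lit 47164) (.g (nat_lit 2184) (.e (nat_lit 1256) (nat_lit 92) (.e (nat_lit 98370) (nat_lit 28) (.e (nat_lit 442436) (nat_lit 26) (.e (nat_lit 253987) (nat_lit 10) (.e (nat_lit 8282) (nat_lit 49) (.e (nat_lit 811045) (nat_lit 14) (.e (nat_lit 48896) (nat_lit 0) .nil))))))) (.g (nat_lit 5) .nil .nil))) 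
(.lf (nat_lit 47228) (.g (nat_lit 2244) (.e (nat_lit 1256) (nat_lit 92) (.e (nat_lit 98372) (nat_lit 29) (.e (nat_lit 450579) (nat_lit 5) (.e (nat_lit 532530) (nat_lit 9) (.e (nat_lit 335950) (nat_lit 0) (.e (nat_lit 1936) (nat_lit 132) (.e (nat_lit 622602) (nat_lit 5) .nil))))))) (.g (nat_lit 4) .nil .nil)))))))) 
(.nd (nat_lit 2) (.nd (nat_lit 3) (.nd (nat_lit 4) (.nd (nat_lit 5) (.nd (nat_lit 6) 
(.lf (nat_lit 47106) (.g (nat_lit 136) (.e (nat_lit 1256) (nat_lit 92) (.e (nat_lit 98370) (nat_lit 28) (.e (nat_lit 442427) (nat_lit 23) .nil))) .nil)) 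
(.lf (nat_lit 47170) (.g (nat_lit 585) (.e (nat_lit 1256) (nat_lit 92) (.e (nat_lit 98372) (nat_lit 29) (.e (nat_lit 450574) (nat_lit 1) .nil))) .nil))) (.nd (nat_lit 6) 
(.lf (nat_lit 47138) (.g (nat_lit 3988) (.e (nat_lit 1256) (nat_lit 92) (.e (nat_lit 98370) (nat_lit 28) (.e (nat_lit 442427) (nat_lit 23) (.e (nat_lit 204846) (nat_lit 24) (.e (nat_lit 319504) (nat_lit 10) (.e (nat_lit 5245) (nat_lit 298) .nil)))))) (.g (nat_lit 6) .nil .nil))) 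
(.lf (nat_lit 47202) (.g (nat_lit 3780) (.e (nat_lit 1256) (nat_lit 92) (.e (nat_lit 98372) (nat_lit 29) (.e (nat_lit 450579) (nat_lit 5) (.e (nat_lit 532523) (nat_lit 7) (.e (nat_lit 319504) (nat_lit 10) (.e (nat_lit 5272) (nat_lit 298) .nil)))))) (.g (nat_lit 5) .nil .nil))))) (.nd (nat_lit 5) (.nd (nat_lit 6) 
(.lf (nat_lit 47122) (.g (nat_lit 654) (.e (nat_lit 1256) (nat_lit 92) (.e (nat_lit 98370) (nat_lit 28) (.e (nat_lit 442427) (nat_lit 23) (.e (nat_lit 204845) (nat_lit 24) .nil)))) .nil)) 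
(.lf (nat_lit 47186) (.g (nat_lit 1737) (.e (nat_lit 1256) (nat_lit 92) (.e (nat_lit 98372) (nat_lit 29) (.e (nat_lit 450579) (nat_lit 5) (.e (nat_lit 540416) (nat_lit 0) (.e (nat_lit 6207) (nat_lit 333) (.e (nat_lit 57876) (nat_lit 270) .nil)))))) (.g (nat_lit 5) .nil .nil)))) (.nd (nat_lit 6) 
(.lf (nat_lit 47154) (.g (nat_lit 3488) (.e (nat_lit 1256) (nat_lit 92) (.e (nat_lit 98370) (nat_lit 28) (.e (nat_lit 442427) (nat_lit 23) (.e (nat_lit 204863) (nat_lit 27) (.e (nat_lit 344096) (nat_lit 18) (.e (nat_lit 4780) (nat_lit 281) (.e (nat_lit 1011) (nat_lit 81) .nil))))))) (.g (nat_lit 5) .nil .nil))) 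
(.lf (nat_lit 47218) (.g (nat_lit 2250) (.e (nat_lit 1256) (nat_lit 92) (.e (nat_lit 98372) (nat_lit 29) (.e (nat_lit 450579) (nat_lit 5) (.e (nat_lit 532526) (nat_lit 8) (.e (nat_lit 327705) (nat_lit 10) (.e (nat_lit 7936) (nat_lit 298) .nil)))))) (.g (nat_lit 5) .nil .nil)))))) (.nd (nat_lit 4) (.nd (nat_lit 5) (.nd (nat_lit 6) 
(.lf (nat_lit 47114) (.g (nat_lit 1263) (.e (nat_lit 1256) (nat_lit 92) (.e (nat_lit 98370) (nat_lit 28) (.e (nat_lit 442427) (nat_lit 23) (.e (nat_lit 204821) (nat_lit 17) (.e (nat_lit 6136) (nat_lit 332) .nil))))) .nil)) 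
(.lf (nat_lit 47178) (.g (nat_lit 2337) (.e (nat_lit 1256) (nat_lit 92) (.e (nat_lit 98372) (nat_lit 29) (.e (nat_lit 450579) (nat_lit 5) (.e (nat_lit 532481) (nat_lit 0) (.e (nat_lit 6157) (nat_lit 332) (.e (nat_lit 1010) (nat_lit 81) (.e (nat_lit 5271) (nat_lit 298) .nil))))))) (.g (nat_lit 4) .nil .nil)))) (.nd (nat_lit 6) 
(.lf (nat_lit 47146) (.g (nat_lit 2164) (.e (nat_lit 1256) (nat_lit 92) (.e (nat_lit 98370) (nat_lit 28) (.e (nat_lit 442427) (nat_lit 23) (.e (nat_lit 204846) (nat_lit 24) (.e (nat_lit 327424) (nat_lit 10) .nil))))) .nil)) 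
(.lf (nat_lit 47210) (.g (nat_lit 2275) (.e (nat_lit 1256) (nat_lit 92) (.e (nat_lit 98372) (nat_lit 29) (.e (nat_lit 450579) (nat_lit 5) (.e (nat_lit 532526) (nat_lit 8) (.e (nat_lit 327702) (nat_lit 10) (.e (nat_lit 5245) (nat_lit 298) .nil)))))) (.g (nat_lit 5) .nil .nil))))) (.nd (nat_lit 5) (.nd (nat_lit 6) 
(.lf (nat_lit 47130) (.g (nat_lit 2031) (.e (nat_lit 1256) (nat_lit 92) (.e (nat_lit 98370) (nat_lit 28) (.e (nat_lit 442427) (nat_lit 23) (.e (nat_lit 204845) (nat_lit 24) (.e (nat_lit 319504) (nat_lit 10) .nil))))) .nil)) 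
(.lf (nat_lit 47194) (.g (nat_lit 2643) (.e (nat_lit 1256) (nat_lit 92) (.e (nat_lit 98372) (nat_lit 29) (.e (nat_lit 450579) (nat_lit 5) (.e (nat_lit 532522) (nat_lit 7) (.e (nat_lit 319505) (nat_lit 10) (.e (nat_lit 5271) (nat_lit 298) .nil)))))) (.g (nat_lit 5) .nil .nil)))) (.nd (nat_lit 6) 
(.lf (nat_lit 47162) (.g (nat_lit 1557) (.e (nat_lit 1256) (nat_lit 92) (.e (nat_lit 98370) (nat_lit 28) (.e (nat_lit 442436) (nat_lit 26) (.e (nat_lit 253987) (nat_lit 10) .nil)))) .nil)) 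
(.lf (nat_lit 47226) (.g (nat_lit 2069) (.e (nat_lit 1256) (nat_lit 92) (.e (nat_lit 98372) (nat_lit 29) (.e (nat_lit 450579) (nat_lit 5) (.e (nat_lit 532530) (nat_lit 9) (.e (nat_lit 335878) (nat_lit 0) (.e (nat_lit 1937) (nat_lit 132) (.e (nat_lit 622602) (nat_lit 5) .nil))))))) (.g (nat_lit 4) .nil .nil))))))) (.nd (nat_lit 3) (.nd (nat_lit 4) (.nd (nat_lit 5) (.nd (nat_lit 6) 
(.lf (nat_lit 47110) (.g (nat_lit 1009) (.e (nat_lit 1256) (nat_lit 92) (.e (nat_lit 98370) (nat_lit 28) (.e (nat_lit 442427) (nat_lit 23) (.e (nat_lit 204821) (nat_lit 17) .nil)))) .nil)) 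
(.lf (nat_lit 47174) (.g (nat_lit 1317) (.e (nat_lit 1256) (nat_lit 92) (.e (nat_lit 98372) (nat_lit 29) (.e (nat_lit 450579) (nat_lit 5) (.e (nat_lit 532480) (nat_lit 0) .nil)))) .nil))) (.nd (nat_lit 6) 
(.lf (nat_lit 47142) (.g (nat_lit 3782) (.e (nat_lit 1256) (nat_lit 92) (.e (nat_lit 98370) (nat_lit 28) (.e (nat_lit 442427) (nat_lit 23) (.e (nat_lit 204846) (nat_lit 24) (.e (nat_lit 319505) (nat_lit 10) (.e (nat_lit 5271) (nat_lit 298) .nil)))))) (.g (nat_lit 0) .nil .nil))) 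
(.lf (nat_lit 47206) (.g (nat_lit 3342) (.e (nat_lit 1256) (nat_lit 92) (.e (nat_lit 98372) (nat_lit 29) (.e (nat_lit 450579) (nat_lit 5) (.e (nat_lit 532524) (nat_lit 8) (.e (nat_lit 327708) (nat_lit 10) (.e (nat_lit 5270) (nat_lit 298) .nil)))))) (.g (nat_lit 0) .nil .nil))))) (.nd (nat_lit 5) (.nd (nat_lit 6) 
(.lf (nat_lit 47126) (.g (nat_lit 2836) (.e (nat_lit 1256) (nat_lit 92) (.e (nat_lit 98370) (nat_lit 28) (.e (nat_lit 442427) (nat_lit 23) (.e (nat_lit 204845) (nat_lit 24) (.e (nat_lit 319500) (nat_lit 10) (.e (nat_lit 5245) (nat_lit 298) .nil)))))) (.g (nat_lit 0) .nil .nil))) 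
(.lf (nat_lit 47190) (.g (nat_lit 2376) (.e (nat_lit 1256) (nat_lit 92) (.e (nat_lit 98372) (nat_lit 29) (.e (nat_lit 450579) (nat_lit 5) (.e (nat_lit 532522) (nat_lit 7) (.e (nat_lit 319500) (nat_lit 10) (.e (nat_lit 5245) (nat_lit 298) .nil)))))) (.g (nat_lit 5) .nil .nil)))) (.nd (nat_lit 6) 
(.lf (nat_lit 47158) (.g (nat_lit 2491) (.e (nat_lit 1256) (nat_lit 92) (.e (nat_lit 98370) (nat_lit 28) (.e (nat_lit 442430) (nat_lit 24) (.e (nat_lit 229535) (nat_lit 134) (.e (nat_lit 2640) (nat_lit 165) (.e (nat_lit 188160) (nat_lit 32) .nil)))))) (.g (nat_lit 5) .nil .nil))) 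
(.lf (nat_lit 47222) (.g (nat_lit 1211) (.e (nat_lit 1256) (nat_lit 92) (.e (nat_lit 98372) (nat_lit 29) (.e (nat_lit 450579) (nat_lit 5) (.e (nat_lit 532530) (nat_lit 9) .nil)))) .nil))))) (.nd (nat_lit 4) (.nd (nat_lit 5) (.nd (nat_lit 6) 
(.lf (nat_lit 47118) (.g (nat_lit 1302) (.e (nat_lit 1256) (nat_lit 92) (.e (nat_lit 98370) (nat_lit 28) (.e (nat_lit 442427) (nat_lit 23) (.e (nat_lit 204821) (nat_lit 17) (.e (nat_lit 7936) (nat_lit 333) (.e (nat_lit 57876) (nat_lit 270) .nil)))))) (.g (nat_lit 4) .nil .nil))) 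
(.lf (nat_lit 47182) (.g (nat_lit 980) (.e (nat_lit 1256) (nat_lit 92) (.e (nat_lit 98372) (nat_lit 29) (.e (nat_lit 450579) (nat_lit 5) (.e (nat_lit 532484) (nat_lit 0) .nil)))) .nil))) (.nd (nat_lit 6) 
(.lf (nat_lit 47150) (.g (nat_lit 1270) (.e (nat_lit 1256) (nat_lit 92) (.e (nat_lit 98370) (nat_lit 28) (.e (nat_lit 442427) (nat_lit 23) (.e (nat_lit 204863) (nat_lit 27) .nil)))) .nil)) 
(.lf (nat_lit 47214) (.g (nat_lit 2597) (.e (nat_lit 1256) (nat_lit 92) (.e (nat_lit 98372) (nat_lit 29) (.e (nat_lit 450579) (nat_lit 5) (.e (nat_lit 532526) (nat_lit 8) (.e (nat_lit 327703) (nat_lit 10) (.e (nat_lit 5258) (nat_lit 298) .nil)))))) (.g (nat_lit 0) .nil .nil))))) (.nd (nat_lit 5) (.nd (nat_lit 6) 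
(.lf (nat_lit 47134) (.g (nat_lit 3200) (.e (nat_lit 1256) (nat_lit 92) (.e (nat_lit 98370) (nat_lit 28) (.e (nat_lit 442427) (nat_lit 23) (.e (nat_lit 204845) (nat_lit 24) (.e (nat_lit 319505) (nat_lit 10) (.e (nat_lit 5271) (nat_lit 298) .nil)))))) (.g (nat_lit 0) .nil .nil))) 
(.lf (nat_lit 47198) (.g (nat_lit 2826) (.e (nat_lit 1256) (nat_lit 92) (.e (nat_lit 98372) (nat_lit 29) (.e (nat_lit 450579) (nat_lit 5) (.e (nat_lit 532523) (nat_lit 7) (.e (nat_lit 319503) (nat_lit 10) .nil))))) .nil))) (.nd (nat_lit 6) 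
(.lf (nat_lit 47166) (.g (nat_lit 1326) (.e (nat_lit 1256) (nat_lit 92) (.e (nat_lit 98372) (nat_lit 29) (.e (nat_lit 450564) (nat_lit 0) (.e (nat_lit 3944) (nat_lit 239) .nil)))) .nil)) 
(.lf (nat_lit 47230) (.g (nat_lit 2245) (.e (nat_lit 1256) (nat_lit 92) (.e (nat_lit 98372) (nat_lit 29) (.e (nat_lit 450579) (nat_lit 5) (.e (nat_lit 532530) (nat_lit 9) (.e (nat_lit 335999) (nat_lit 1) .nil))))) .nil)))))))) (.nd (nat_lit 1) (.nd (nat_lit 2) (.nd (nat_lit 3) (.nd (nat_lit 4) (.nd (nat_lit 5) (.nd (nat_lit 6) 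
(.lf (nat_lit 47105) (.g (nat_lit 2385) (.e (nat_lit 1256) (nat_lit 92) (.e (nat_lit 98370) (nat_lit 28) (.e (nat_lit 442426) (nat_lit 23) (.e (nat_lit 204846) (nat_lit 24) (.e (nat_lit 319511) (nat_lit 10) (.e (nat_lit 5270) (nat_lit 298) .nil)))))) (.g (nat_lit 6) .nil .nil))) 
(.lf (nat_lit 47169) (.g (nat_lit 583) (.e (nat_lit 1256) (nat_lit 92) (.e (nat_lit 98372) (nat_lit 29) (.e (nat_lit 450571) (nat_lit 1) .nil))) .nil))) (.nd (nat_lit 6) 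
(.lf (nat_lit 47137) (.g (nat_lit 1315) (.e (nat_lit 1256) (nat_lit 92) (.e (nat_lit 98370) (nat_lit 28) (.e (nat_lit 442427) (nat_lit 23) (.e (nat_lit 204846) (nat_lit 24) .nil)))) .nil)) 
(.lf (nat_lit 47201) (.g (nat_lit 3514) (.e (nat_lit 1256) (nat_lit 92) (.e (nat_lit 98372) (nat_lit 29) (.e (nat_lit 450579) (nat_lit 5) (.e (nat_lit 532523) (nat_lit 7) (.e (nat_lit 319504) (nat_lit 10) (.e (nat_lit 5271) (nat_lit 298) .nil)))))) (.g (nat_lit 5) .nil .nil))))) (.nd (nat_lit 5) (.nd (nat_lit 6) 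
(.lf (nat_lit 47121) (.g (nat_lit 2225) (.e (nat_lit 1256) (nat_lit 92) (.e (nat_lit 98370) (nat_lit 28) (.e (nat_lit 442427) (nat_lit 23) (.e (nat_lit 212736) (nat_lit 17) (.e (nat_lit 6209) (nat_lit 333) (.e (nat_lit 57876) (nat_lit 270) .nil)))))) (.g (nat_lit 5) .nil .nil))) 
(.lf (nat_lit 47185) (.g (nat_lit 964) (.e (nat_lit 1256) (nat_lit 92) (.e (nat_lit 98372) (nat_lit 29) (.e (nat_lit 450579) (nat_lit 5) (.e (nat_lit 540416) (nat_lit 0) .nil)))) .nil))) (.nd (nat_lit 6) 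
(.lf (nat_lit 47153) (.g (nat_lit 3343) (.e (nat_lit 1256) (nat_lit 92) (.e (nat_lit 98370) (nat_lit 28) (.e (nat_lit 442427) (nat_lit 23) (.e (nat_lit 204863) (nat_lit 27) (.e (nat_lit 344096) (nat_lit 18) (.e (nat_lit 4764) (nat_lit 281) (.e (nat_lit 7936) (nat_lit 81) .nil))))))) (.g (nat_lit 5) .nil .nil))) 
(.lf (nat_lit 47217) (.g (nat_lit 3002) (.e (nat_lit 1256) (nat_lit 92) (.e (nat_lit 98372) (nat_lit 29) (.e (nat_lit 450579) (nat_lit 5) (.e (nat_lit 532526) (nat_lit 8) (.e (nat_lit 327705) (nat_lit 10) (.e (nat_lit 5245) (nat_lit 298) .nil)))))) (.g (nat_lit 0) .nil .nil)))))) (.nd (nat_lit 4) (.nd (nat_lit 5) (.nd (nat_lit 6) 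
(.lf (nat_lit 47113) (.g (nat_lit 2036) (.e (nat_lit 1256) (nat_lit 92) (.e (nat_lit 98370) (nat_lit 28) (.e (nat_lit 442427) (nat_lit 23) (.e (nat_lit 204821) (nat_lit 17) (.e (nat_lit 6114) (nat_lit 332) (.e (nat_lit 1081) (nat_lit 81) (.e (nat_lit 5270) (nat_lit 298) .nil))))))) (.g (nat_lit 4) .nil .nil))) 
(.lf (nat_lit 47177) (.g (nat_lit 2070) (.e (nat_lit 1256) (nat_lit 92) (.e (nat_lit 98372) (nat_lit 29) (.e (nat_lit 450579) (nat_lit 5) (.e (nat_lit 532481) (nat_lit 0) (.e (nat_lit 6157) (nat_lit 332) .nil))))) .nil))) (.nd (nat_lit 6) 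
(.lf (nat_lit 47145) (.g (nat_lit 3130) (.e (nat_lit 1256) (nat_lit 92) (.e (nat_lit 98370) (nat_lit 28) (.e (nat_lit 442427) (nat_lit 23) (.e (nat_lit 204846) (nat_lit 24) (.e (nat_lit 319511) (nat_lit 10) (.e (nat_lit 5270) (nat_lit 298) .nil)))))) (.g (nat_lit 5) .nil .nil))) 
(.lf (nat_lit 47209) (.g (nat_lit 1050) (.e (nat_lit 1256) (nat_lit 92) (.e (nat_lit 98372) (nat_lit 29) (.e (nat_lit 450579) (nat_lit 5) (.e (nat_lit 532526) (nat_lit 8) .nil)))) .nil)))) (.nd (nat_lit 5) (.nd (nat_lit 6) 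
(.lf (nat_lit 47129) (.g (nat_lit 2149) (.e (nat_lit 1256) (nat_lit 92) (.e (nat_lit 98370) (nat_lit 28) (.e (nat_lit 442427) (nat_lit 23) (.e (nat_lit 204845) (nat_lit 24) (.e (nat_lit 319503) (nat_lit 10) .nil))))) .nil)) 
(.lf (nat_lit 47193) (.g (nat_lit 1897) (.e (nat_lit 1256) (nat_lit 92) (.e (nat_lit 98372) (nat_lit 29) (.e (nat_lit 450579) (nat_lit 5) (.e (nat_lit 532522) (nat_lit 7) (.e (nat_lit 319504) (nat_lit 10) .nil))))) .nil))) (.nd (nat_lit 6) 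
(.lf (nat_lit 47161) (.g (nat_lit 1657) (.e (nat_lit 1256) (nat_lit 92) (.e (nat_lit 98370) (nat_lit 28) (.e (nat_lit 442436) (nat_lit 26) (.e (nat_lit 253986) (nat_lit 10) .nil)))) .nil)) 
(.lf (nat_lit 47225) (.g (nat_lit 2146) (.e (nat_lit 1256) (nat_lit 92) (.e (nat_lit 98372) (nat_lit 29) (.e (nat_lit 450579) (nat_lit 5) (.e (nat_lit 532530) (nat_lit 9) (.e (nat_lit 335878) (nat_lit 0) (.e (nat_lit 996) (nat_lit 81) (.e (nat_lit 4780) (nat_lit 281) (.e (nat_lit 1011) (nat_lit 81) .nil)))))))) (.g (nat_lit 4) .nil .nil))))))) 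
(.nd (nat_lit 3) (.nd (nat_lit 4) (.nd (nat_lit 5) (.nd (nat_lit 6) 
(.lf (nat_lit 47109) (.g (nat_lit 1559) (.e (nat_lit 1256) (nat_lit 92) (.e (nat_lit 98370) (nat_lit 28) (.e (nat_lit 442427) (nat_lit 23) (.e (nat_lit 204819) (nat_lit 17) .nil)))) .nil)) 
(.lf (nat_lit 47173) (.g (nat_lit 311) (.e (nat_lit 1256) (nat_lit 92) (.e (nat_lit 98372) (nat_lit 29) (.e (nat_lit 450579) (nat_lit 5) .nil))) .nil))) (.nd (nat_lit 6) 
(.lf (nat_lit 47141) (.g (nat_lit 3572) (.e (nat_lit 1256) (nat_lit 92) (.e (nat_lit 98370) (nat_lit 28) (.e (nat_lit 442427) (nat_lit 23) (.e (nat_lit 204846) (nat_lit 24) (.e (nat_lit 319504) (nat_lit 10) (.e (nat_lit 7936) (nat_lit 298) .nil)))))) (.g (nat_lit 5) .nil .nil))) 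
(.lf (nat_lit 47205) (.g (nat_lit 1106) (.e (nat_lit 1256) (nat_lit 92) (.e (nat_lit 98372) (nat_lit 29) (.e (nat_lit 450579) (nat_lit 5) (.e (nat_lit 532524) (nat_lit 8) .nil)))) .nil)))) (.nd (nat_lit 5) (.nd (nat_lit 6) 
(.lf (nat_lit 47125) (.g (nat_lit 1961) (.e (nat_lit 1256) (nat_lit 92) (.e (nat_lit 98370) (nat_lit 28) (.e (nat_lit 442427) (nat_lit 23) (.e (nat_lit 204845) (nat_lit 24) (.e (nat_lit 319500) (nat_lit 10) .nil))))) .nil)) 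
(.lf (nat_lit 47189) (.g (nat_lit 964) (.e (nat_lit 1256) (nat_lit 92) (.e (nat_lit 98372) (nat_lit 29) (.e (nat_lit 450579) (nat_lit 5) (.e (nat_lit 532522) (nat_lit 7) .nil)))) .nil))) (.nd (nat_lit 6) 
(.lf (nat_lit 47157) (.g (nat_lit 1559) (.e (nat_lit 1256) (nat_lit 92) (.e (nat_lit 98370) (nat_lit 28) (.e (nat_lit 442430) (nat_lit 24) (.e (nat_lit 229530) (nat_lit 131) .nil)))) .nil)) 
(.lf (nat_lit 47221) (.g (nat_lit 2232) (.e (nat_lit 1256) (nat_lit 92) (.e (nat_lit 98372) (nat_lit 29) (.e (nat_lit 450579) (nat_lit 5) (.e (nat_lit 532526) (nat_lit 8) (.e (nat_lit 327709) (nat_lit 10) (.e (nat_lit 5245) (nat_lit 298) .nil)))))) (.g (nat_lit 4) .nil .nil)))))) (.nd (nat_lit 4) (.nd (nat_lit 5) (.nd (nat_lit 6) 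
(.lf (nat_lit 47117) (.g (nat_lit 1302) (.e (nat_lit 1256) (nat_lit 92) (.e (nat_lit 98370) (nat_lit 28) (.e (nat_lit 442427) (nat_lit 23) (.e (nat_lit 204821) (nat_lit 17) (.e (nat_lit 6206) (nat_lit 333) (.e (nat_lit 65280) (nat_lit 270) .nil)))))) (.g (nat_lit 4) .nil .nil))) 
(.lf (nat_lit 47181) (.g (nat_lit 1700) (.e (nat_lit 1256) (nat_lit 92) (.e (nat_lit 98372) (nat_lit 29) (.e (nat_lit 450579) (nat_lit 5) (.e (nat_lit 532482) (nat_lit 0) (.e (nat_lit 6192) (nat_lit 332) .nil))))) .nil))) (.nd (nat_lit 6) 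
(.lf (nat_lit 47149) (.g (nat_lit 4212) (.e (nat_lit 1256) (nat_lit 92) (.e (nat_lit 98370) (nat_lit 28) (.e (nat_lit 442427) (nat_lit 23) (.e (nat_lit 204849) (nat_lit 25) (.e (nat_lit 327708) (nat_lit 10) (.e (nat_lit 5270) (nat_lit 298) .nil)))))) (.g (nat_lit 0) .nil .nil))) 
(.lf (nat_lit 47213) (.g (nat_lit 1686) (.e (nat_lit 1256) (nat_lit 92) (.e (nat_lit 98372) (nat_lit 29) (.e (nat_lit 450579) (nat_lit 5) (.e (nat_lit 532526) (nat_lit 8) (.e (nat_lit 327702) (nat_lit 10) (.e (nat_lit 7936) (nat_lit 298) .nil)))))) (.g (nat_lit 4) .nil .nil))))) (.nd (nat_lit 5) (.nd (nat_lit 6) 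
(.lf (nat_lit 47133) (.g (nat_lit 2890) (.e (nat_lit 1256) (nat_lit 92) (.e (nat_lit 98370) (nat_lit 28) (.e (nat_lit 442427) (nat_lit 23) (.e (nat_lit 204845) (nat_lit 24) (.e (nat_lit 319505) (nat_lit 10) (.e (nat_lit 5245) (nat_lit 298) .nil)))))) (.g (nat_lit 5) .nil .nil))) 
(.lf (nat_lit 47197) (.g (nat_lit 2955) (.e (nat_lit 1256) (nat_lit 92) (.e (nat_lit 98372) (nat_lit 29) (.e (nat_lit 450579) (nat_lit 5) (.e (nat_lit 532523) (nat_lit 7) (.e (nat_lit 319502) (nat_lit 10) .nil))))) .nil))) (.nd (nat_lit 6) 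
(.lf (nat_lit 47165) (.g (nat_lit 566) (.e (nat_lit 1256) (nat_lit 92) (.e (nat_lit 98372) (nat_lit 29) (.e (nat_lit 450560) (nat_lit 0) .nil))) .nil)) 
(.lf (nat_lit 47229) (.g (nat_lit 2274) (.e (nat_lit 1256) (nat_lit 92) (.e (nat_lit 98372) (nat_lit 29) (.e (nat_lit 450579) (nat_lit 5) (.e (nat_lit 532530) (nat_lit 9) (.e (nat_lit 335969) (nat_lit 0) .nil))))) .nil))))))) (.nd (nat_lit 2) (.nd (nat_lit 3) (.nd (nat_lit 4) (.nd (nat_lit 5) (.nd (nat_lit 6) 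
(.lf (nat_lit 47107) (.g (nat_lit 2279) (.e (nat_lit 1256) (nat_lit 92) (.e (nat_lit 98370) (nat_lit 28) (.e (nat_lit 442427) (nat_lit 23) (.e (nat_lit 204816) (nat_lit 17) (.e (nat_lit 6220) (nat_lit 333) .nil))))) .nil)) 
(.lf (nat_lit 47171) (.g (nat_lit 469) (.e (nat_lit 1256) (nat_lit 92) (.e (nat_lit 98372) (nat_lit 29) (.e (nat_lit 450576) (nat_lit 2) .nil))) .nil))) (.nd (nat_lit 6) 
(.lf (nat_lit 47139) (.g (nat_lit 4071) (.e (nat_lit 1256) (nat_lit 92) (.e (nat_lit 98370) (nat_lit 28) (.e (nat_lit 442427) (nat_lit 23) (.e (nat_lit 204846) (nat_lit 24) (.e (nat_lit 319504) (nat_lit 10) (.e (nat_lit 5271) (nat_lit 298) .nil)))))) (.g (nat_lit 5) .nil .nil))) 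
(.lf (nat_lit 47203) (.g (nat_lit 3414) (.e (nat_lit 1256) (nat_lit 92) (.e (nat_lit 98372) (nat_lit 29) (.e (nat_lit 450579) (nat_lit 5) (.e (nat_lit 532523) (nat_lit 7) (.e (nat_lit 319504) (nat_lit 10) (.e (nat_lit 7936) (nat_lit 298) .nil)))))) (.g (nat_lit 5) .nil .nil))))) (.nd (nat_lit 5) (.nd (nat_lit 6) 
(.lf (nat_lit 47123) (.g (nat_lit 2094) (.e (nat_lit 1256) (nat_lit 92) (.e (nat_lit 98370) (nat_lit 28) (.e (nat_lit 442427) (nat_lit 23) (.e (nat_lit 204845) (nat_lit 24) (.e (nat_lit 319497) (nat_lit 10) .nil))))) .nil)) 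
(.lf (nat_lit 47187) (.g (nat_lit 1865) (.e (nat_lit 1256) (nat_lit 92) (.e (nat_lit 98372) (nat_lit 29) (.e (nat_lit 450579) (nat_lit 5) (.e (nat_lit 532501) (nat_lit 1) (.e (nat_lit 57776) (nat_lit 233) .nil))))) .nil))) (.nd (nat_lit 6) 
(.lf (nat_lit 47155) (.g (nat_lit 2455) (.e (nat_lit 1256) (nat_lit 92) (.e (nat_lit 98370) (nat_lit 28) (.e (nat_lit 442427) (nat_lit 23) (.e (nat_lit 204863) (nat_lit 27) (.e (nat_lit 344150) (nat_lit 34) .nil))))) .nil)) 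
(.lf (nat_lit 47219) (.g (nat_lit 2256) (.e (nat_lit 1256) (nat_lit 92) (.e (nat_lit 98372) (nat_lit 29) (.e (nat_lit 450579) (nat_lit 5) (.e (nat_lit 532526) (nat_lit 8) (.e (nat_lit 327706) (nat_lit 10) (.e (nat_lit 5245) (nat_lit 298) .nil)))))) (.g (nat_lit 4) .nil .nil)))))) (.nd (nat_lit 4) (.nd (nat_lit 5) (.nd (nat_lit 6) 
(.lf (nat_lit 47115) (.g (nat_lit 1417) (.e (nat_lit 1256) (nat_lit 92) (.e (nat_lit 98370) (nat_lit 28) (.e (nat_lit 442427) (nat_lit 23) (.e (nat_lit 204821) (nat_lit 17) (.e (nat_lit 6136) (nat_lit 332) (.e (nat_lit 988) (nat_lit 81) (.e (nat_lit 5245) (nat_lit 298) .nil))))))) (.g (nat_lit 4) .nil .nil))) 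
(.lf (nat_lit 47179) (.g (nat_lit 2089) (.e (nat_lit 1256) (nat_lit 92) (.e (nat_lit 98372) (nat_lit 29) (.e (nat_lit 450579) (nat_lit 5) (.e (nat_lit 532481) (nat_lit 0) (.e (nat_lit 6192) (nat_lit 332) (.e (nat_lit 1008) (nat_lit 81) (.e (nat_lit 5271) (nat_lit 298) .nil))))))) (.g (nat_lit 4) .nil .nil)))) (.nd (nat_lit 6) 
(.lf (nat_lit 47147) (.g (nat_lit 1296) (.e (nat_lit 1256) (nat_lit 92) (.e (nat_lit 98370) (nat_lit 28) (.e (nat_lit 442427) (nat_lit 23) (.e (nat_lit 204848) (nat_lit 25) .nil)))) .nil)) 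
(.lf (nat_lit 47211) (.g (nat_lit 2301) (.e (nat_lit 1256) (nat_lit 92) (.e (nat_lit 98372) (nat_lit 29) (.e (nat_lit 450579) (nat_lit 5) (.e (nat_lit 532526) (nat_lit 8) (.e (nat_lit 327702) (nat_lit 10) (.e (nat_lit 5258) (nat_lit 298) .nil)))))) (.g (nat_lit 0) .nil .nil))))) (.nd (nat_lit 5) (.nd (nat_lit 6) 
(.lf (nat_lit 47131) (.g (nat_lit 2094) (.e (nat_lit 1256) (nat_lit 92) (.e (nat_lit 98370) (nat_lit 28) (.e (nat_lit 442427) (nat_lit 23) (.e (nat_lit 204845) (nat_lit 24) (.e (nat_lit 319504) (nat_lit 10) (.e (nat_lit 5271) (nat_lit 298) .nil)))))) (.g (nat_lit 4) .nil .nil))) 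
(.lf (nat_lit 47195) (.g (nat_lit 1822) (.e (nat_lit 1256) (nat_lit 92) (.e (nat_lit 98372) (nat_lit 29) (.e (nat_lit 450579) (nat_lit 5) (.e (nat_lit 532522) (nat_lit 7) (.e (nat_lit 327424) (nat_lit 10) .nil))))) .nil))) (.nd (nat_lit 6) 
(.lf (nat_lit 47163) (.g (nat_lit 1956) (.e (nat_lit 1256) (nat_lit 92) (.e (nat_lit 98370) (nat_lit 28) (.e (nat_lit 442436) (nat_lit 26) (.e (nat_lit 253987) (nat_lit 10) (.e (nat_lit 8279) (nat_lit 49) (.e (nat_lit 811045) (nat_lit 14) (.e (nat_lit 48896) (nat_lit 0) .nil))))))) (.g (nat_lit 4) .nil .nil))) 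
(.lf (nat_lit 47227) (.g (nat_lit 2222) (.e (nat_lit 1256) (nat_lit 92) (.e (nat_lit 98372) (nat_lit 29) (.e (nat_lit 450579) (nat_lit 5) (.e (nat_lit 532530) (nat_lit 9) (.e (nat_lit 335950) (nat_lit 0) .nil))))) .nil)))))) (.nd (nat_lit 3) (.nd (nat_lit 4) (.nd (nat_lit 5) (.nd (nat_lit 6) 
(.lf (nat_lit 47111) (.g (nat_lit 1362) (.e (nat_lit 1256) (nat_lit 92) (.e (nat_lit 98370) (nat_lit 28) (.e (nat_lit 442427) (nat_lit 23) (.e (nat_lit 204821) (nat_lit 17) (.e (nat_lit 6114) (nat_lit 332) .nil))))) .nil)) 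
(.lf (nat_lit 47175) (.g (nat_lit 1457) (.e (nat_lit 1256) (nat_lit 92) (.e (nat_lit 98372) (nat_lit 29) (.e (nat_lit 450579) (nat_lit 5) (.e (nat_lit 532480) (nat_lit 0) (.e (nat_lit 6211) (nat_lit 333) .nil))))) .nil))) (.nd (nat_lit 6) 
(.lf (nat_lit 47143) (.g (nat_lit 3268) (.e (nat_lit 1256) (nat_lit 92) (.e (nat_lit 98370) (nat_lit 28) (.e (nat_lit 442427) (nat_lit 23) (.e (nat_lit 204846) (nat_lit 24) (.e (nat_lit 319505) (nat_lit 10) (.e (nat_lit 7936) (nat_lit 298) .nil)))))) (.g (nat_lit 5) .nil .nil))) 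
(.lf (nat_lit 47207) (.g (nat_lit 1970) (.e (nat_lit 1256) (nat_lit 92) (.e (nat_lit 98372) (nat_lit 29) (.e (nat_lit 450579) (nat_lit 5) (.e (nat_lit 532525) (nat_lit 8) (.e (nat_lit 327704) (nat_lit 10) (.e (nat_lit 5245) (nat_lit 298) .nil)))))) (.g (nat_lit 4) .nil .nil))))) (.nd (nat_lit 5) (.nd (nat_lit 6) 
(.lf (nat_lit 47127) (.g (nat_lit 2503) (.e (nat_lit 1256) (nat_lit 92) (.e (nat_lit 98370) (nat_lit 28) (.e (nat_lit 442427) (nat_lit 23) (.e (nat_lit 204845) (nat_lit 24) (.e (nat_lit 319500) (nat_lit 10) (.e (nat_lit 5271) (nat_lit 298) .nil)))))) (.g (nat_lit 5) .nil .nil))) 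
(.lf (nat_lit 47191) (.g (nat_lit 2245) (.e (nat_lit 1256) (nat_lit 92) (.e (nat_lit 98372) (nat_lit 29) (.e (nat_lit 450579) (nat_lit 5) (.e (nat_lit 532522) (nat_lit 7) (.e (nat_lit 319500) (nat_lit 10) (.e (nat_lit 5271) (nat_lit 298) .nil)))))) (.g (nat_lit 5) .nil .nil)))) (.nd (nat_lit 6) 
(.lf (nat_lit 47159) (.g (nat_lit 1399) (.e (nat_lit 1256) (nat_lit 92) (.e (nat_lit 98370) (nat_lit 28) (.e (nat_lit 442430) (nat_lit 24) (.e (nat_lit 237312) (nat_lit 134) .nil)))) .nil)) 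
(.lf (nat_lit 47223) (.g (nat_lit 2044) (.e (nat_lit 1256) (nat_lit 92) (.e (nat_lit 98372) (nat_lit 29) (.e (nat_lit 450579) (nat_lit 5) (.e (nat_lit 532530) (nat_lit 9) (.e (nat_lit 335878) (nat_lit 0) .nil))))) .nil))))) (.nd (nat_lit 4) (.nd (nat_lit 5) (.nd (nat_lit 6) 
(.lf (nat_lit 47119) (.g (nat_lit 2058) (.e (nat_lit 1256) (nat_lit 92) (.e (nat_lit 98370) (nat_lit 28) (.e (nat_lit 442427) (nat_lit 23) (.e (nat_lit 204821) (nat_lit 17) (.e (nat_lit 6223) (nat_lit 334) (.e (nat_lit 123202) (nat_lit 270) .nil)))))) (.g (nat_lit 5) .nil .nil))) 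
(.lf (nat_lit 47183) (.g (nat_lit 1707) (.e (nat_lit 1256) (nat_lit 92) (.e (nat_lit 98372) (nat_lit 29) (.e (nat_lit 450579) (nat_lit 5) (.e (nat_lit 532487) (nat_lit 0) .nil)))) .nil))) (.nd (nat_lit 6) 
(.lf (nat_lit 47151) (.g (nat_lit 2323) (.e (nat_lit 1256) (nat_lit 92) (.e (nat_lit 98370) (nat_lit 28) (.e (nat_lit 442427) (nat_lit 23) (.e (nat_lit 204863) (nat_lit 27) (.e (nat_lit 344096) (nat_lit 18) .nil))))) .nil)) 
(.lf (nat_lit 47215) (.g (nat_lit 2331) (.e (nat_lit 1256) (nat_lit 92) (.e (nat_lit 98372) (nat_lit 29) (.e (nat_lit 450579) (nat_lit 5) (.e (nat_lit 532526) (nat_lit 8) (.e (nat_lit 327703) (nat_lit 10) (.e (nat_lit 5272) (nat_lit 298) .nil)))))) (.g (nat_lit 5) .nil .nil))))) (.nd (nat_lit 5) (.nd (nat_lit 6) 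
(.lf (nat_lit 47135) (.g (nat_lit 2555) (.e (nat_lit 1256) (nat_lit 92) (.e (nat_lit 98370) (nat_lit 28) (.e (nat_lit 442427) (nat_lit 23) (.e (nat_lit 204845) (nat_lit 24) (.e (nat_lit 319505) (nat_lit 10) (.e (nat_lit 7936) (nat_lit 298) .nil)))))) (.g (nat_lit 5) .nil .nil))) 
(.lf (nat_lit 47199) (.g (nat_lit 2617) (.e (nat_lit 1256) (nat_lit 92) (.e (nat_lit 98372) (nat_lit 29) (.e (nat_lit 450579) (nat_lit 5) (.e (nat_lit 532523) (nat_lit 7) (.e (nat_lit 319504) (nat_lit 10) (.e (nat_lit 5255) (nat_lit 298) .nil)))))) (.g (nat_lit 4) .nil .nil)))) (.nd (nat_lit 6) 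
(.lf (nat_lit 47167) (.g (nat_lit 1038) (.e (nat_lit 1256) (nat_lit 92) (.e (nat_lit 98372) (nat_lit 29) (.e (nat_lit 450568) (nat_lit 0) (.e (nat_lit 3978) (nat_lit 239) .nil)))) .nil)) 
(.lf (nat_lit 47231) (.g (nat_lit 2206) (.e (nat_lit 1256) (nat_lit 92) (.e (nat_lit 98372) (nat_lit 29) (.e (nat_lit 450579) (nat_lit 5) (.e (nat_lit 532530) (nat_lit 9) (.e (nat_lit 336000) (nat_lit 1) (.e (nat_lit 57783) (nat_lit 239) (.e (nat_lit 7936) (nat_lit 81) .nil))))))) (.g (nat_lit 5) .nil .nil))))))))))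

noncomputable def tv656 : DT := (.nd (nat_lit 0) (.nd (nat_lit 1) (.nd (nat_lit 2) (.nd (nat_lit 3) (.nd (nat_lit 4) (.nd (nat_lit 5) 
(.lf (nat_lit 47232) (.g (nat_lit 2346) (.e (nat_lit 1256) (nat_lit 92) (.e (nat_lit 98372) (nat_lit 29) (.e (nat_lit 450579) (nat_lit 5) (.e (nat_lit 532530) (nat_lit 9) (.e (nat_lit 336240) (nat_lit 15) (.e (nat_lit 3590) (nat_lit 224) (.e (nat_lit 753693) (nat_lit 13) .nil))))))) (.g (nat_lit 4) .nil .nil))) 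
(.lf (nat_lit 47264) (.g (nat_lit 1773) (.e (nat_lit 1256) (nat_lit 92) (.e (nat_lit 98372) (nat_lit 29) (.e (nat_lit 450579) (nat_lit 5) (.e (nat_lit 532553) (nat_lit 13) (.e (nat_lit 368689) (nat_lit 34) .nil))))) .nil))) (.nd (nat_lit 5) 
(.lf (nat_lit 47248) (.g (nat_lit 2315) (.e (nat_lit 1256) (nat_lit 92) (.e (nat_lit 98372) (nat_lit 29) (.e (nat_lit 450579) (nat_lit 5) (.e (nat_lit 532534) (nat_lit 9) (.e (nat_lit 335878) (nat_lit 0) (.e (nat_lit 996) (nat_lit 81) (.e (nat_lit 4761) (nat_lit 281) (.e (nat_lit 968) (nat_lit 81) .nil)))))))) (.g (nat_lit 4) .nil .nil))) 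
(.lf (nat_lit 47280) (.g (nat_lit 1508) (.e (nat_lit 1256) (nat_lit 92) (.e (nat_lit 98372) (nat_lit 29) (.e (nat_lit 450579) (nat_lit 5) (.e (nat_lit 532562) (nat_lit 15) .nil)))) .nil)))) (.nd (nat_lit 4) (.nd (nat_lit 5) 
(.lf (nat_lit 47240) (.g (nat_lit 2269) (.e (nat_lit 1256) (nat_lit 92) (.e (nat_lit 98372) (nat_lit 29) (.e (nat_lit 450579) (nat_lit 5) (.e (nat_lit 532530) (nat_lit 9) (.e (nat_lit 336259) (nat_lit 15) .nil))))) .nil)) 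
(.lf (nat_lit 47272) (.g (nat_lit 1668) (.e (nat_lit 1256) (nat_lit 92) (.e (nat_lit 98372) (nat_lit 29) (.e (nat_lit 450579) (nat_lit 5) (.e (nat_lit 532555) (nat_lit 13) (.e (nat_lit 368662) (nat_lit 18) (.e (nat_lit 4776) (nat_lit 281) (.e (nat_lit 7936) (nat_lit 81) .nil))))))) (.g (nat_lit 4) .nil .nil)))) (.nd (nat_lit 5) 
(.lf (nat_lit 47256) (.g (nat_lit 1809) (.e (nat_lit 1256) (nat_lit 92) (.e (nat_lit 98372) (nat_lit 29) (.e (nat_lit 450579) (nat_lit 5) (.e (nat_lit 532553) (nat_lit 13) (.e (nat_lit 368659) (nat_lit 18) .nil))))) .nil)) 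
(.lf (nat_lit 47288) (.g (nat_lit 3187) (.e (nat_lit 1256) (nat_lit 92) (.e (nat_lit 98372) (nat_lit 29) (.e (nat_lit 450580) (nat_lit 5) (.e (nat_lit 532523) (nat_lit 7) (.e (nat_lit 319504) (nat_lit 10) (.e (nat_lit 5272) (nat_lit 298) .nil)))))) (.g (nat_lit 5) .nil .nil)))))) (.nd (nat_lit 3) (.nd (nat_lit 4) (.nd (nat_lit 5) 
(.lf (nat_lit 47236) (.g (nat_lit 2075) (.e (nat_lit 1256) (nat_lit 92) (.e (nat_lit 98372) (nat_lit 29) (.e (nat_lit 450579) (nat_lit 5) (.e (nat_lit 532530) (nat_lit 9) (.e (nat_lit 336257) (nat_lit 15) .nil))))) .nil)) 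
(.lf (nat_lit 47268) (.g (nat_lit 1146) (.e (nat_lit 1256) (nat_lit 92) (.e (nat_lit 98372) (nat_lit 29) (.e (nat_lit 450579) (nat_lit 5) (.e (nat_lit 532555) (nat_lit 13) .nil)))) .nil))) (.nd (nat_lit 5) 
(.lf (nat_lit 47252) (.g (nat_lit 2416) (.e (nat_lit 1256) (nat_lit 92) (.e (nat_lit 98372) (nat_lit 29) (.e (nat_lit 450579) (nat_lit 5) (.e (nat_lit 532534) (nat_lit 9) (.e (nat_lit 336000) (nat_lit 1) (.e (nat_lit 57783) (nat_lit 239) (.e (nat_lit 7936) (nat_lit 81) .nil))))))) (.g (nat_lit 4) .nil .nil))) 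
(.lf (nat_lit 47284) (.g (nat_lit 2142) (.e (nat_lit 1256) (nat_lit 92) (.e (nat_lit 98372) (nat_lit 29) (.e (nat_lit 450579) (nat_lit 5) (.e (nat_lit 532563) (nat_lit 15) (.e (nat_lit 385087) (nat_lit 46) (.e (nat_lit 753694) (nat_lit 13) .nil)))))) (.g (nat_lit 4) .nil .nil))))) (.nd (nat_lit 4) (.nd (nat_lit 5) 
(.lf (nat_lit 47244) (.g (nat_lit 1514) (.e (nat_lit 1256) (nat_lit 92) (.e (nat_lit 98372) (nat_lit 29) (.e (nat_lit 450579) (nat_lit 5) (.e (nat_lit 532533) (nat_lit 9) .nil)))) .nil)) 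
(.lf (nat_lit 47276) (.g (nat_lit 2125) (.e (nat_lit 1256) (nat_lit 92) (.e (nat_lit 98372) (nat_lit 29) (.e (nat_lit 450579) (nat_lit 5) (.e (nat_lit 532555) (nat_lit 13) (.e (nat_lit 368689) (nat_lit 34) (.e (nat_lit 622600) (nat_lit 5) .nil)))))) (.g (nat_lit 6) .nil .nil)))) (.nd (nat_lit 5) 
(.lf (nat_lit 47260) (.g (nat_lit 1899) (.e (nat_lit 1256) (nat_lit 92) (.e (nat_lit 98372) (nat_lit 29) (.e (nat_lit 450579) (nat_lit 5) (.e (nat_lit 532553) (nat_lit 13) (.e (nat_lit 368662) (nat_lit 18) (.e (nat_lit 4776) (nat_lit 281) (.e (nat_lit 7936) (nat_lit 81) .nil))))))) (.g (nat_lit 4) .nil .nil))) 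
(.lf (nat_lit 47292) (.g (nat_lit 2011) (.e (nat_lit 1256) (nat_lit 92) (.e (nat_lit 98372) (nat_lit 29) (.e (nat_lit 450580) (nat_lit 5) (.e (nat_lit 532523) (nat_lit 7) (.e (nat_lit 319511) (nat_lit 10) (.e (nat_lit 5270) (nat_lit 298) .nil)))))) (.g (nat_lit 4) .nil .nil))))))) (.nd (nat_lit 2) (.nd (nat_lit 3) (.nd (nat_lit 4) (.nd (nat_lit 5) 
(.lf (nat_lit 47234) (.g (nat_lit 2249) (.e (nat_lit 1256) (nat_lit 92) (.e (nat_lit 98372) (nat_lit 29) (.e (nat_lit 450579) (nat_lit 5) (.e (nat_lit 532530) (nat_lit 9) (.e (nat_lit 336240) (nat_lit 15) (.e (nat_lit 3595) (nat_lit 224) (.e (nat_lit 753693) (nat_lit 13) .nil))))))) (.g (nat_lit 4) .nil .nil))) 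
(.lf (nat_lit 47266) (.g (nat_lit 1943) (.e (nat_lit 1256) (nat_lit 92) (.e (nat_lit 98372) (nat_lit 29) (.e (nat_lit 450579) (nat_lit 5) (.e (nat_lit 532553) (nat_lit 13) (.e (nat_lit 368689) (nat_lit 34) (.e (nat_lit 622601) (nat_lit 5) .nil)))))) (.g (nat_lit 4) .nil .nil)))) (.nd (nat_lit 5) 
(.lf (nat_lit 47250) (.g (nat_lit 2238) (.e (nat_lit 1256) (nat_lit 92) (.e (nat_lit 98372) (nat_lit 29) (.e (nat_lit 450579) (nat_lit 5) (.e (nat_lit 532534) (nat_lit 9) (.e (nat_lit 335878) (nat_lit 0) (.e (nat_lit 1937) (nat_lit 132) (.e (nat_lit 622602) (nat_lit 5) .nil))))))) (.g (nat_lit 4) .nil .nil))) 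
(.lf (nat_lit 47282) (.g (nat_lit 2031) (.e (nat_lit 1256) (nat_lit 92) (.e (nat_lit 98372) (nat_lit 29) (.e (nat_lit 450579) (nat_lit 5) (.e (nat_lit 532563) (nat_lit 15) (.e (nat_lit 385043) (nat_lit 21) .nil))))) .nil)))) (.nd (nat_lit 4) (.nd (nat_lit 5) 
(.lf (nat_lit 47242) (.g (nat_lit 2046) (.e (nat_lit 1256) (nat_lit 92) (.e (nat_lit 98372) (nat_lit 29) (.e (nat_lit 450579) (nat_lit 5) (.e (nat_lit 532530) (nat_lit 9) (.e (nat_lit 336261) (nat_lit 15) .nil))))) .nil)) 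
(.lf (nat_lit 47274) (.g (nat_lit 2752) (.e (nat_lit 1256) (nat_lit 92) (.e (nat_lit 98372) (nat_lit 29) (.e (nat_lit 450579) (nat_lit 5) (.e (nat_lit 532555) (nat_lit 13) (.e (nat_lit 368662) (nat_lit 18) (.e (nat_lit 4827) (nat_lit 281) (.e (nat_lit 7936) (nat_lit 81) .nil))))))) (.g (nat_lit 6) .nil .nil)))) (.nd (nat_lit 5) 
(.lf (nat_lit 47258) (.g (nat_lit 1726) (.e (nat_lit 1256) (nat_lit 92) (.e (nat_lit 98372) (nat_lit 29) (.e (nat_lit 450579) (nat_lit 5) (.e (nat_lit 532553) (nat_lit 13) (.e (nat_lit 368662) (nat_lit 18) .nil))))) .nil)) 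
(.lf (nat_lit 47290) (.g (nat_lit 2136) (.e (nat_lit 1256) (nat_lit 92) (.e (nat_lit 98372) (nat_lit 29) (.e (nat_lit 450580) (nat_lit 5) (.e (nat_lit 532523) (nat_lit 7) (.e (nat_lit 319505) (nat_lit 10) (.e (nat_lit 5245) (nat_lit 298) .nil)))))) (.g (nat_lit 4) .nil .nil)))))) (.nd (nat_lit 3) (.nd (nat_lit 4) (.nd (nat_lit 5) 
(.lf (nat_lit 47238) (.g (nat_lit 1906) (.e (nat_lit 1256) (nat_lit 92) (.e (nat_lit 98372) (nat_lit 29) (.e (nat_lit 450579) (nat_lit 5) (.e (nat_lit 532530) (nat_lit 9) (.e (nat_lit 336258) (nat_lit 15) (.e (nat_lit 3589) (nat_lit 224) (.e (nat_lit 753694) (nat_lit 13) .nil))))))) (.g (nat_lit 4) .nil .nil))) 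
(.lf (nat_lit 47270) (.g (nat_lit 1494) (.e (nat_lit 1256) (nat_lit 92) (.e (nat_lit 98372) (nat_lit 29) (.e (nat_lit 450579) (nat_lit 5) (.e (nat_lit 532555) (nat_lit 13) (.e (nat_lit 368662) (nat_lit 18) (.e (nat_lit 4772) (nat_lit 281) (.e (nat_lit 7936) (nat_lit 81) .nil))))))) (.g (nat_lit 4) .nil .nil)))) (.nd (nat_lit 5) 
(.lf (nat_lit 47254) (.g (nat_lit 2957) (.e (nat_lit 1256) (nat_lit 92) (.e (nat_lit 98372) (nat_lit 29) (.e (nat_lit 450579) (nat_lit 5) (.e (nat_lit 532534) (nat_lit 9) (.e (nat_lit 336240) (nat_lit 15) (.e (nat_lit 3590) (nat_lit 224) (.e (nat_lit 753694) (nat_lit 13) .nil))))))) (.g (nat_lit 5) .nil .nil))) 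
(.lf (nat_lit 47286) (.g (nat_lit 1322) (.e (nat_lit 1256) (nat_lit 92) (.e (nat_lit 98372) (nat_lit 29) (.e (nat_lit 450579) (nat_lit 5) (.e (nat_lit 532566) (nat_lit 15) (.e (nat_lit 385087) (nat_lit 46) .nil))))) .nil)))) (.nd (nat_lit 4) (.nd (nat_lit 5) 
(.lf (nat_lit 47246) (.g (nat_lit 1316) (.e (nat_lit 1256) (nat_lit 92) (.e (nat_lit 98372) (nat_lit 29) (.e (nat_lit 450579) (nat_lit 5) (.e (nat_lit 532534) (nat_lit 9) .nil)))) .nil)) 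
(.lf (nat_lit 47278) (.g (nat_lit 1752) (.e (nat_lit 1256) (nat_lit 92) (.e (nat_lit 98372) (nat_lit 29) (.e (nat_lit 450579) (nat_lit 5) (.e (nat_lit 532555) (nat_lit 13) (.e (nat_lit 368689) (nat_lit 34) (.e (nat_lit 622602) (nat_lit 5) .nil)))))) (.g (nat_lit 4) .nil .nil)))) (.nd (nat_lit 5) 
(.lf (nat_lit 47262) (.g (nat_lit 3011) (.e (nat_lit 1256) (nat_lit 92) (.e (nat_lit 98372) (nat_lit 29) (.e (nat_lit 450579) (nat_lit 5) (.e (nat_lit 532553) (nat_lit 13) (.e (nat_lit 368662) (nat_lit 18) (.e (nat_lit 4827) (nat_lit 281) (.e (nat_lit 7936) (nat_lit 81) .nil))))))) (.g (nat_lit 6) .nil .nil))) 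
(.lf (nat_lit 47294) (.g (nat_lit 584) (.e (nat_lit 1256) (nat_lit 92) (.e (nat_lit 98372) (nat_lit 29) (.e (nat_lit 450581) (nat_lit 5) .nil))) .nil))))))) (.nd (nat_lit 1) (.nd (nat_lit 2) (.nd (nat_lit 3) (.nd (nat_lit 4) (.nd (nat_lit 5) 
(.lf (nat_lit 47233) (.g (nat_lit 3036) (.e (nat_lit 1256) (nat_lit 92) (.e (nat_lit 98372) (nat_lit 29) (.e (nat_lit 450579) (nat_lit 5) (.e (nat_lit 532530) (nat_lit 9) (.e (nat_lit 336240) (nat_lit 15) (.e (nat_lit 3590) (nat_lit 224) (.e (nat_lit 753694) (nat_lit 13) .nil))))))) (.g (nat_lit 5) .nil .nil))) 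
(.lf (nat_lit 47265) (.g (nat_lit 2156) (.e (nat_lit 1256) (nat_lit 92) (.e (nat_lit 98372) (nat_lit 29) (.e (nat_lit 450579) (nat_lit 5) (.e (nat_lit 532553) (nat_lit 13) (.e (nat_lit 368689) (nat_lit 34) (.e (nat_lit 622600) (nat_lit 5) .nil)))))) (.g (nat_lit 4) .nil .nil)))) (.nd (nat_lit 5) 
(.lf (nat_lit 47249) (.g (nat_lit 2323) (.e (nat_lit 1256) (nat_lit 92) (.e (nat_lit 98372) (nat_lit 29) (.e (nat_lit 450579) (nat_lit 5) (.e (nat_lit 532534) (nat_lit 9) (.e (nat_lit 335878) (nat_lit 0) (.e (nat_lit 996) (nat_lit 81) (.e (nat_lit 4780) (nat_lit 281) (.e (nat_lit 1011) (nat_lit 81) .nil)))))))) (.g (nat_lit 4) .nil .nil))) 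
(.lf (nat_lit 47281) (.g (nat_lit 1152) (.e (nat_lit 1256) (nat_lit 92) (.e (nat_lit 98372) (nat_lit 29) (.e (nat_lit 450579) (nat_lit 5) (.e (nat_lit 532563) (nat_lit 15) .nil)))) .nil)))) (.nd (nat_lit 4) (.nd (nat_lit 5) 
(.lf (nat_lit 47241) (.g (nat_lit 2271) (.e (nat_lit 1256) (nat_lit 92) (.e (nat_lit 98372) (nat_lit 29) (.e (nat_lit 450579) (nat_lit 5) (.e (nat_lit 532530) (nat_lit 9) (.e (nat_lit 336260) (nat_lit 15) .nil))))) .nil)) 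
(.lf (nat_lit 47273) (.g (nat_lit 2333) (.e (nat_lit 1256) (nat_lit 92) (.e (nat_lit 98372) (nat_lit 29) (.e (nat_lit 450579) (nat_lit 5) (.e (nat_lit 532555) (nat_lit 13) (.e (nat_lit 368662) (nat_lit 18) (.e (nat_lit 4826) (nat_lit 281) (.e (nat_lit 7936) (nat_lit 81) .nil))))))) (.g (nat_lit 5) .nil .nil)))) (.nd (nat_lit 5) 
(.lf (nat_lit 47257) (.g (nat_lit 1985) (.e (nat_lit 1256) (nat_lit 92) (.e (nat_lit 98372) (nat_lit 29) (.e (nat_lit 450579) (nat_lit 5) (.e (nat_lit 532553) (nat_lit 13) (.e (nat_lit 368660) (nat_lit 18) (.e (nat_lit 4780) (nat_lit 281) (.e (nat_lit 1011) (nat_lit 81) .nil))))))) (.g (nat_lit 4) .nil .nil))) 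
(.lf (nat_lit 47289) (.g (nat_lit 2882) (.e (nat_lit 1256) (nat_lit 92) (.e (nat_lit 98372) (nat_lit 29) (.e (nat_lit 450580) (nat_lit 5) (.e (nat_lit 532523) (nat_lit 7) (.e (nat_lit 319504) (nat_lit 10) (.e (nat_lit 7936) (nat_lit 298) .nil)))))) (.g (nat_lit 5) .nil .nil)))))) (.nd (nat_lit 3) (.nd (nat_lit 4) (.nd (nat_lit 5) 
(.lf (nat_lit 47237) (.g (nat_lit 1717) (.e (nat_lit 1256) (nat_lit 92) (.e (nat_lit 98372) (nat_lit 29) (.e (nat_lit 450579) (nat_lit 5) (.e (nat_lit 532530) (nat_lit 9) (.e (nat_lit 336258) (nat_lit 15) .nil))))) .nil)) 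
(.lf (nat_lit 47269) (.g (nat_lit 1429) (.e (nat_lit 1256) (nat_lit 92) (.e (nat_lit 98372) (nat_lit 29) (.e (nat_lit 450579) (nat_lit 5) (.e (nat_lit 532555) (nat_lit 13) (.e (nat_lit 368662) (nat_lit 18) .nil))))) .nil))) (.nd (nat_lit 5) 
(.lf (nat_lit 47253) (.g (nat_lit 2308) (.e (nat_lit 1256) (nat_lit 92) (.e (nat_lit 98372) (nat_lit 29) (.e (nat_lit 450579) (nat_lit 5) (.e (nat_lit 532534) (nat_lit 9) (.e (nat_lit 336240) (nat_lit 15) .nil))))) .nil)) 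
(.lf (nat_lit 47285) (.g (nat_lit 1320) (.e (nat_lit 1256) (nat_lit 92) (.e (nat_lit 98372) (nat_lit 29) (.e (nat_lit 450579) (nat_lit 5) (.e (nat_lit 532566) (nat_lit 15) (.e (nat_lit 385043) (nat_lit 21) .nil))))) .nil)))) (.nd (nat_lit 4) (.nd (nat_lit 5) 
(.lf (nat_lit 47245) (.g (nat_lit 1857) (.e (nat_lit 1256) (nat_lit 92) (.e (nat_lit 98372) (nat_lit 29) (.e (nat_lit 450579) (nat_lit 5) (.e (nat_lit 532533) (nat_lit 9) (.e (nat_lit 336000) (nat_lit 1) (.e (nat_lit 57783) (nat_lit 239) (.e (nat_lit 7936) (nat_lit 81) .nil))))))) (.g (nat_lit 4) .nil .nil))) 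
(.lf (nat_lit 47277) (.g (nat_lit 1976) (.e (nat_lit 1256) (nat_lit 92) (.e (nat_lit 98372) (nat_lit 29) (.e (nat_lit 450579) (nat_lit 5) (.e (nat_lit 532555) (nat_lit 13) (.e (nat_lit 368689) (nat_lit 34) (.e (nat_lit 622601) (nat_lit 5) .nil)))))) (.g (nat_lit 6) .nil .nil)))) (.nd (nat_lit 5) 
(.lf (nat_lit 47261) (.g (nat_lit 2564) (.e (nat_lit 1256) (nat_lit 92) (.e (nat_lit 98372) (nat_lit 29) (.e (nat_lit 450579) (nat_lit 5) (.e (nat_lit 532553) (nat_lit 13) (.e (nat_lit 368662) (nat_lit 18) (.e (nat_lit 4826) (nat_lit 281) (.e (nat_lit 7936) (nat_lit 81) .nil))))))) (.g (nat_lit 5) .nil .nil))) 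
(.lf (nat_lit 47293) (.g (nat_lit 1339) (.e (nat_lit 1256) (nat_lit 92) (.e (nat_lit 98372) (nat_lit 29) (.e (nat_lit 450580) (nat_lit 5) (.e (nat_lit 532526) (nat_lit 8) .nil)))) .nil)))))) (.nd (nat_lit 2) (.nd (nat_lit 3) (.nd (nat_lit 4) (.nd (nat_lit 5) 
(.lf (nat_lit 47235) (.g (nat_lit 2315) (.e (nat_lit 1256) (nat_lit 92) (.e (nat_lit 98372) (nat_lit 29) (.e (nat_lit 450579) (nat_lit 5) (.e (nat_lit 532530) (nat_lit 9) (.e (nat_lit 336240) (nat_lit 15) (.e (nat_lit 3595) (nat_lit 224) (.e (nat_lit 753694) (nat_lit 13) .nil))))))) (.g (nat_lit 4) .nil .nil))) 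
(.lf (nat_lit 47267) (.g (nat_lit 1635) (.e (nat_lit 1256) (nat_lit 92) (.e (nat_lit 98372) (nat_lit 29) (.e (nat_lit 450579) (nat_lit 5) (.e (nat_lit 532554) (nat_lit 13) .nil)))) .nil))) (.nd (nat_lit 5) 
(.lf (nat_lit 47251) (.g (nat_lit 2340) (.e (nat_lit 1256) (nat_lit 92) (.e (nat_lit 98372) (nat_lit 29) (.e (nat_lit 450579) (nat_lit 5) (.e (nat_lit 532534) (nat_lit 9) (.e (nat_lit 335999) (nat_lit 1) .nil))))) .nil)) 
(.lf (nat_lit 47283) (.g (nat_lit 2058) (.e (nat_lit 1256) (nat_lit 92) (.e (nat_lit 98372) (nat_lit 29) (.e (nat_lit 450579) (nat_lit 5) (.e (nat_lit 532563) (nat_lit 15) (.e (nat_lit 385087) (nat_lit 46) .nil))))) .nil)))) (.nd (nat_lit 4) (.nd (nat_lit 5) 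
(.lf (nat_lit 47243) (.g (nat_lit 2217) (.e (nat_lit 1256) (nat_lit 92) (.e (nat_lit 98372) (nat_lit 29) (.e (nat_lit 450579) (nat_lit 5) (.e (nat_lit 532530) (nat_lit 9) (.e (nat_lit 336314) (nat_lit 16) .nil))))) .nil)) 
(.lf (nat_lit 47275) (.g (nat_lit 2401) (.e (nat_lit 1256) (nat_lit 92) (.e (nat_lit 98372) (nat_lit 29) (.e (nat_lit 450579) (nat_lit 5) (.e (nat_lit 532555) (nat_lit 13) (.e (nat_lit 368662) (nat_lit 18) (.e (nat_lit 4828) (nat_lit 281) (.e (nat_lit 7936) (nat_lit 81) .nil))))))) (.g (nat_lit 5) .nil .nil)))) (.nd (nat_lit 5) 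
(.lf (nat_lit 47259) (.g (nat_lit 2509) (.e (nat_lit 1256) (nat_lit 92) (.e (nat_lit 98372) (nat_lit 29) (.e (nat_lit 450579) (nat_lit 5) (.e (nat_lit 532553) (nat_lit 13) (.e (nat_lit 368662) (nat_lit 18) (.e (nat_lit 4776) (nat_lit 281) (.e (nat_lit 1011) (nat_lit 81) .nil))))))) (.g (nat_lit 5) .nil .nil))) 
(.lf (nat_lit 47291) (.g (nat_lit 2626) (.e (nat_lit 1256) (nat_lit 92) (.e (nat_lit 98372) (nat_lit 29) (.e (nat_lit 450580) (nat_lit 5) (.e (nat_lit 532523) (nat_lit 7) (.e (nat_lit 319505) (nat_lit 10) (.e (nat_lit 5271) (nat_lit 298) .nil)))))) (.g (nat_lit 5) .nil .nil)))))) (.nd (nat_lit 3) (.nd (nat_lit 4) (.nd (nat_lit 5) 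
(.lf (nat_lit 47239) (.g (nat_lit 1979) (.e (nat_lit 1256) (nat_lit 92) (.e (nat_lit 98372) (nat_lit 29) (.e (nat_lit 450579) (nat_lit 5) (.e (nat_lit 532530) (nat_lit 9) (.e (nat_lit 336258) (nat_lit 15) (.e (nat_lit 3590) (nat_lit 224) (.e (nat_lit 753694) (nat_lit 13) .nil))))))) (.g (nat_lit 4) .nil .nil))) 
(.lf (nat_lit 47271) (.g (nat_lit 2278) (.e (nat_lit 1256) (nat_lit 92) (.e (nat_lit 98372) (nat_lit 29) (.e (nat_lit 450579) (nat_lit 5) (.e (nat_lit 532555) (nat_lit 13) (.e (nat_lit 368662) (nat_lit 18) (.e (nat_lit 4776) (nat_lit 281) (.e (nat_lit 1011) (nat_lit 81) .nil))))))) (.g (nat_lit 5) .nil .nil)))) (.nd (nat_lit 5) 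
(.lf (nat_lit 47255) (.g (nat_lit 2052) (.e (nat_lit 1256) (nat_lit 92) (.e (nat_lit 98372) (nat_lit 29) (.e (nat_lit 450579) (nat_lit 5) (.e (nat_lit 532534) (nat_lit 9) (.e (nat_lit 336257) (nat_lit 15) .nil))))) .nil)) 
(.lf (nat_lit 47287) (.g (nat_lit 1898) (.e (nat_lit 1256) (nat_lit 92) (.e (nat_lit 98372) (nat_lit 29) (.e (nat_lit 450579) (nat_lit 5) (.e (nat_lit 532569) (nat_lit 16) (.e (nat_lit 401414) (nat_lit 0) (.e (nat_lit 7936) (nat_lit 402) .nil)))))) (.g (nat_lit 5) .nil .nil))))) (.nd (nat_lit 4) (.nd (nat_lit 5) 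
(.lf (nat_lit 47247) (.g (nat_lit 2129) (.e (nat_lit 1256) (nat_lit 92) (.e (nat_lit 98372) (nat_lit 29) (.e (nat_lit 450579) (nat_lit 5) (.e (nat_lit 532534) (nat_lit 9) (.e (nat_lit 335878) (nat_lit 0) .nil))))) .nil)) 
(.lf (nat_lit 47279) (.g (nat_lit 1279) (.e (nat_lit 1256) (nat_lit 92) (.e (nat_lit 98372) (nat_lit 29) (.e (nat_lit 450579) (nat_lit 5) (.e (nat_lit 532556) (nat_lit 13) .nil)))) .nil))) (.nd (nat_lit 5) 
(.lf (nat_lit 47263) (.g (nat_lit 2701) (.e (nat_lit 1256) (nat_lit 92) (.e (nat_lit 98372) (nat_lit 29) (.e (nat_lit 450579) (nat_lit 5) (.e (nat_lit 532553) (nat_lit 13) (.e (nat_lit 368662) (nat_lit 18) (.e (nat_lit 4828) (nat_lit 281) (.e (nat_lit 7936) (nat_lit 81) .nil))))))) (.g (nat_lit 5) .nil .nil))) 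
(.lf (nat_lit 47295) (.g (nat_lit 1877) (.e (nat_lit 1256) (nat_lit 92) (.e (nat_lit 98372) (nat_lit 29) (.e (nat_lit 450581) (nat_lit 5) (.e (nat_lit 532523) (nat_lit 7) (.e (nat_lit 319504) (nat_lit 10) .nil))))) .nil))))))))

noncomputable def tv657 : DT := (.nd (nat_lit 0) (.nd (nat_lit 1) (.nd (nat_lit 2) (.nd (nat_lit 3) (.nd (nat_lit 4) 
(.lf (nat_lit 47296) (.g (nat_lit 1776) (.e (nat_lit 1256) (nat_lit 92) (.e (nat_lit 98372) (nat_lit 29) (.e (nat_lit 450581) (nat_lit 5) (.e (nat_lit 532523) (nat_lit 7) (.e (nat_lit 319511) (nat_lit 10) (.e (nat_lit 5270) (nat_lit 298) .nil)))))) (.g (nat_lit 4) .nil .nil))) 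
(.lf (nat_lit 47312) (.g (nat_lit 3055) (.e (nat_lit 1256) (nat_lit 92) (.e (nat_lit 98372) (nat_lit 29) (.e (nat_lit 450586) (nat_lit 10) (.e (nat_lit 573451) (nat_lit 9) (.e (nat_lit 13) (nat_lit 0) (.e (nat_lit 7082) (nat_lit 378) (.e (nat_lit 57876) (nat_lit 270) .nil))))))) (.g (nat_lit 4) .nil .nil)))) (.nd (nat_lit 4) 
(.lf (nat_lit 47304) (.g (nat_lit 2053) (.e (nat_lit 1256) (nat_lit 92) (.e (nat_lit 98372) (nat_lit 29) (.e (nat_lit 450586) (nat_lit 10) (.e (nat_lit 573449) (nat_lit 9) (.e (nat_lit 473) (nat_lit 36) (.e (nat_lit 466688) (nat_lit 0) .nil)))))) (.g (nat_lit 4) .nil .nil))) 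
(.lf (nat_lit 47320) (.g (nat_lit 3135) (.e (nat_lit 1256) (nat_lit 92) (.e (nat_lit 98372) (nat_lit 29) (.e (nat_lit 450586) (nat_lit 10) (.e (nat_lit 573451) (nat_lit 9) (.e (nat_lit 365) (nat_lit 31) (.e (nat_lit 417795) (nat_lit 0) (.e (nat_lit 5271) (nat_lit 298) .nil))))))) (.g (nat_lit 4) .nil .nil))))) (.nd (nat_lit 3) (.nd (nat_lit 4) 
(.lf (nat_lit 47300) (.g (nat_lit 386) (.e (nat_lit 1256) (nat_lit 92) (.e (nat_lit 98372) (nat_lit 29) (.e (nat_lit 450586) (nat_lit 10) .nil))) .nil)) 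
(.lf (nat_lit 47316) (.g (nat_lit 3284) (.e (nat_lit 1256) (nat_lit 92) (.e (nat_lit 98372) (nat_lit 29) (.e (nat_lit 450586) (nat_lit 10) (.e (nat_lit 573451) (nat_lit 9) (.e (nat_lit 16) (nat_lit 0) (.e (nat_lit 7089) (nat_lit 379) (.e (nat_lit 123202) (nat_lit 270) .nil))))))) (.g (nat_lit 4) .nil .nil)))) (.nd (nat_lit 4) 
(.lf (nat_lit 47308) (.g (nat_lit 3008) (.e (nat_lit 1256) (nat_lit 92) (.e (nat_lit 98372) (nat_lit 29) (.e (nat_lit 450586) (nat_lit 10) (.e (nat_lit 573451) (nat_lit 9) (.e (nat_lit 11) (nat_lit 0) .nil))))) .nil)) 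
(.lf (nat_lit 47324) (.g (nat_lit 995) (.e (nat_lit 1256) (nat_lit 92) (.e (nat_lit 98372) (nat_lit 29) (.e (nat_lit 450586) (nat_lit 10) (.e (nat_lit 573452) (nat_lit 9) .nil)))) .nil))))) (.nd (nat_lit 2) (.nd (nat_lit 3) (.nd (nat_lit 4) 
(.lf (nat_lit 47298) (.g (nat_lit 1378) (.e (nat_lit 1256) (nat_lit 92) (.e (nat_lit 98372) (nat_lit 29) (.e (nat_lit 450583) (nat_lit 7) (.e (nat_lit 548894) (nat_lit 14) .nil)))) .nil)) 
(.lf (nat_lit 47314) (.g (nat_lit 3251) (.e (nat_lit 1256) (nat_lit 92) (.e (nat_lit 98372) (nat_lit 29) (.e (nat_lit 450586) (nat_lit 10) (.e (nat_lit 573451) (nat_lit 9) (.e (nat_lit 16) (nat_lit 0) (.e (nat_lit 7087) (nat_lit 379) (.e (nat_lit 123202) (nat_lit 270) .nil))))))) (.g (nat_lit 4) .nil .nil)))) (.nd (nat_lit 4) 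
(.lf (nat_lit 47306) (.g (nat_lit 2076) (.e (nat_lit 1256) (nat_lit 92) (.e (nat_lit 98372) (nat_lit 29) (.e (nat_lit 450586) (nat_lit 10) (.e (nat_lit 573450) (nat_lit 9) (.e (nat_lit 473) (nat_lit 36) (.e (nat_lit 466688) (nat_lit 0) .nil)))))) (.g (nat_lit 5) .nil .nil))) 
(.lf (nat_lit 47322) (.g (nat_lit 2851) (.e (nat_lit 1256) (nat_lit 92) (.e (nat_lit 98372) (nat_lit 29) (.e (nat_lit 450586) (nat_lit 10) (.e (nat_lit 573451) (nat_lit 9) (.e (nat_lit 428) (nat_lit 32) .nil))))) .nil)))) (.nd (nat_lit 3) (.nd (nat_lit 4) 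
(.lf (nat_lit 47302) (.g (nat_lit 2199) (.e (nat_lit 1256) (nat_lit 92) (.e (nat_lit 98372) (nat_lit 29) (.e (nat_lit 450586) (nat_lit 10) (.e (nat_lit 573449) (nat_lit 9) (.e (nat_lit 449) (nat_lit 33) .nil))))) .nil)) 
(.lf (nat_lit 47318) (.g (nat_lit 2961) (.e (nat_lit 1256) (nat_lit 92) (.e (nat_lit 98372) (nat_lit 29) (.e (nat_lit 450586) (nat_lit 10) (.e (nat_lit 573451) (nat_lit 9) (.e (nat_lit 365) (nat_lit 31) (.e (nat_lit 417793) (nat_lit 0) (.e (nat_lit 5271) (nat_lit 298) .nil))))))) (.g (nat_lit 4) .nil .nil)))) (.nd (nat_lit 4) 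
(.lf (nat_lit 47310) (.g (nat_lit 3057) (.e (nat_lit 1256) (nat_lit 92) (.e (nat_lit 98372) (nat_lit 29) (.e (nat_lit 450586) (nat_lit 10) (.e (nat_lit 573451) (nat_lit 9) (.e (nat_lit 13) (nat_lit 0) (.e (nat_lit 7079) (nat_lit 378) (.e (nat_lit 57876) (nat_lit 270) .nil))))))) (.g (nat_lit 4) .nil .nil))) 
(.lf (nat_lit 47326) (.g (nat_lit 2151) (.e (nat_lit 1256) (nat_lit 92) (.e (nat_lit 98372) (nat_lit 29) (.e (nat_lit 450586) (nat_lit 10) (.e (nat_lit 573452) (nat_lit 9) (.e (nat_lit 13) (nat_lit 0) (.e (nat_lit 7081) (nat_lit 378) (.e (nat_lit 57876) (nat_lit 270) .nil))))))) (.g (nat_lit 0) .nil .nil))))))) (.nd (nat_lit 1) (.nd (nat_lit 2) (.nd (nat_lit 3) (.nd (nat_lit 4) 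
(.lf (nat_lit 47297) (.g (nat_lit 894) (.e (nat_lit 1256) (nat_lit 92) (.e (nat_lit 98372) (nat_lit 29) (.e (nat_lit 458496) (nat_lit 5) (.e (nat_lit 532523) (nat_lit 7) (.e (nat_lit 319504) (nat_lit 10) .nil))))) .nil)) 
(.lf (nat_lit 47313) (.g (nat_lit 3232) (.e (nat_lit 1256) (nat_lit 92) (.e (nat_lit 98372) (nat_lit 29) (.e (nat_lit 450586) (nat_lit 10) (.e (nat_lit 573451) (nat_lit 9) (.e (nat_lit 16) (nat_lit 0) (.e (nat_lit 7086) (nat_lit 379) (.e (nat_lit 123202) (nat_lit 270) .nil))))))) (.g (nat_lit 4) .nil .nil)))) (.nd (nat_lit 4) 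
(.lf (nat_lit 47305) (.g (nat_lit 2261) (.e (nat_lit 1256) (nat_lit 92) (.e (nat_lit 98372) (nat_lit 29) (.e (nat_lit 450586) (nat_lit 10) (.e (nat_lit 573450) (nat_lit 9) (.e (nat_lit 442) (nat_lit 33) (.e (nat_lit 442112) (nat_lit 0) .nil)))))) (.g (nat_lit 5) .nil .nil))) 
(.lf (nat_lit 47321) (.g (nat_lit 3305) (.e (nat_lit 1256) (nat_lit 92) (.e (nat_lit 98372) (nat_lit 29) (.e (nat_lit 450586) (nat_lit 10) (.e (nat_lit 573451) (nat_lit 9) (.e (nat_lit 365) (nat_lit 31) (.e (nat_lit 417796) (nat_lit 0) (.e (nat_lit 5271) (nat_lit 298) .nil))))))) (.g (nat_lit 4) .nil .nil))))) (.nd (nat_lit 3) (.nd (nat_lit 4) 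
(.lf (nat_lit 47301) (.g (nat_lit 2169) (.e (nat_lit 1256) (nat_lit 92) (.e (nat_lit 98372) (nat_lit 29) (.e (nat_lit 450586) (nat_lit 10) (.e (nat_lit 573449) (nat_lit 9) (.e (nat_lit 359) (nat_lit 30) .nil))))) .nil)) 
(.lf (nat_lit 47317) (.g (nat_lit 4139) (.e (nat_lit 1256) (nat_lit 92) (.e (nat_lit 98372) (nat_lit 29) (.e (nat_lit 450586) (nat_lit 10) (.e (nat_lit 573451) (nat_lit 9) (.e (nat_lit 359) (nat_lit 30) (.e (nat_lit 409602) (nat_lit 0) (.e (nat_lit 5270) (nat_lit 298) .nil))))))) (.g (nat_lit 5) .nil .nil)))) (.nd (nat_lit 4) 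
(.lf (nat_lit 47309) (.g (nat_lit 3063) (.e (nat_lit 1256) (nat_lit 92) (.e (nat_lit 98372) (nat_lit 29) (.e (nat_lit 450586) (nat_lit 10) (.e (nat_lit 573451) (nat_lit 9) (.e (nat_lit 13) (nat_lit 0) (.e (nat_lit 7077) (nat_lit 378) (.e (nat_lit 57876) (nat_lit 270) .nil))))))) (.g (nat_lit 4) .nil .nil))) 
(.lf (nat_lit 47325) (.g (nat_lit 2174) (.e (nat_lit 1256) (nat_lit 92) (.e (nat_lit 98372) (nat_lit 29) (.e (nat_lit 450586) (nat_lit 10) (.e (nat_lit 573452) (nat_lit 9) (.e (nat_lit 13) (nat_lit 0) (.e (nat_lit 7077) (nat_lit 378) (.e (nat_lit 57876) (nat_lit 270) .nil))))))) (.g (nat_lit 0) .nil .nil)))))) (.nd (nat_lit 2) (.nd (nat_lit 3) (.nd (nat_lit 4) 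
(.lf (nat_lit 47299) (.g (nat_lit 1781) (.e (nat_lit 1256) (nat_lit 92) (.e (nat_lit 98372) (nat_lit 29) (.e (nat_lit 450583) (nat_lit 7) (.e (nat_lit 548914) (nat_lit 19) (.e (nat_lit 188160) (nat_lit 32) .nil))))) (.g (nat_lit 4) .nil .nil))) 
(.lf (nat_lit 47315) (.g (nat_lit 3292) (.e (nat_lit 1256) (nat_lit 92) (.e (nat_lit 98372) (nat_lit 29) (.e (nat_lit 450586) (nat_lit 10) (.e (nat_lit 573451) (nat_lit 9) (.e (nat_lit 16) (nat_lit 0) (.e (nat_lit 7088) (nat_lit 379) (.e (nat_lit 123202) (nat_lit 270) .nil))))))) (.g (nat_lit 4) .nil .nil)))) (.nd (nat_lit 4) 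
(.lf (nat_lit 47307) (.g (nat_lit 1350) (.e (nat_lit 1256) (nat_lit 92) (.e (nat_lit 98372) (nat_lit 29) (.e (nat_lit 450586) (nat_lit 10) (.e (nat_lit 573451) (nat_lit 9) .nil)))) .nil)) 
(.lf (nat_lit 47323) (.g (nat_lit 2962) (.e (nat_lit 1256) (nat_lit 92) (.e (nat_lit 98372) (nat_lit 29) (.e (nat_lit 450586) (nat_lit 10) (.e (nat_lit 573451) (nat_lit 9) (.e (nat_lit 430) (nat_lit 32) .nil))))) .nil)))) (.nd (nat_lit 3) (.nd (nat_lit 4) 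
(.lf (nat_lit 47303) (.g (nat_lit 2201) (.e (nat_lit 1256) (nat_lit 92) (.e (nat_lit 98372) (nat_lit 29) (.e (nat_lit 450586) (nat_lit 10) (.e (nat_lit 573449) (nat_lit 9) (.e (nat_lit 452) (nat_lit 33) .nil))))) .nil)) 
(.lf (nat_lit 47319) (.g (nat_lit 3002) (.e (nat_lit 1256) (nat_lit 92) (.e (nat_lit 98372) (nat_lit 29) (.e (nat_lit 450586) (nat_lit 10) (.e (nat_lit 573451) (nat_lit 9) (.e (nat_lit 365) (nat_lit 31) (.e (nat_lit 417794) (nat_lit 0) (.e (nat_lit 5271) (nat_lit 298) .nil))))))) (.g (nat_lit 4) .nil .nil)))) (.nd (nat_lit 4) 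
(.lf (nat_lit 47311) (.g (nat_lit 3066) (.e (nat_lit 1256) (nat_lit 92) (.e (nat_lit 98372) (nat_lit 29) (.e (nat_lit 450586) (nat_lit 10) (.e (nat_lit 573451) (nat_lit 9) (.e (nat_lit 13) (nat_lit 0) (.e (nat_lit 7081) (nat_lit 378) (.e (nat_lit 57876) (nat_lit 270) .nil))))))) (.g (nat_lit 4) .nil .nil))) 
(.lf (nat_lit 47327) (.g (nat_lit 2132) (.e (nat_lit 1256) (nat_lit 92) (.e (nat_lit 98372) (nat_lit 29) (.e (nat_lit 450586) (nat_lit 10) (.e (nat_lit 573452) (nat_lit 9) (.e (nat_lit 13) (nat_lit 0) (.e (nat_lit 7082) (nat_lit 378) (.e (nat_lit 57876) (nat_lit 270) .nil))))))) (.g (nat_lit 0) .nil .nil))))))))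

noncomputable def tv658 : DT := (.nd (nat_lit 0) (.nd (nat_lit 1) (.nd (nat_lit 2) (.nd (nat_lit 3) (.nd (nat_lit 4) 
(.lf (nat_lit 47328) (.g (nat_lit 2352) (.e (nat_lit 1256) (nat_lit 92) (.e (nat_lit 98372) (nat_lit 29) (.e (nat_lit 450586) (nat_lit 10) (.e (nat_lit 573452) (nat_lit 9) (.e (nat_lit 16) (nat_lit 0) (.e (nat_lit 7088) (nat_lit 379) (.e (nat_lit 123202) (nat_lit 270) .nil))))))) (.g (nat_lit 0) .nil .nil))) 
(.lf (nat_lit 47344) (.g (nat_lit 1870) (.e (nat_lit 1256) (nat_lit 92) (.e (nat_lit 98372) (nat_lit 29) (.e (nat_lit 450586) (nat_lit 10) (.e (nat_lit 573456) (nat_lit 9) (.e (nat_lit 428) (nat_lit 32) (.e (nat_lit 425989) (nat_lit 0) (.e (nat_lit 7489) (nat_lit 402) .nil))))))) (.g (nat_lit 4) .nil .nil)))) (.nd (nat_lit 4) 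
(.lf (nat_lit 47336) (.g (nat_lit 2832) (.e (nat_lit 1256) (nat_lit 92) (.e (nat_lit 98372) (nat_lit 29) (.e (nat_lit 450586) (nat_lit 10) (.e (nat_lit 573452) (nat_lit 9) (.e (nat_lit 430) (nat_lit 32) (.e (nat_lit 426011) (nat_lit 0) (.e (nat_lit 7490) (nat_lit 402) .nil))))))) (.g (nat_lit 0) .nil .nil))) 
(.lf (nat_lit 47352) (.g (nat_lit 2223) (.e (nat_lit 1256) (nat_lit 92) (.e (nat_lit 98372) (nat_lit 29) (.e (nat_lit 450586) (nat_lit 10) (.e (nat_lit 573457) (nat_lit 9) (.e (nat_lit 16) (nat_lit 0) (.e (nat_lit 7088) (nat_lit 379) (.e (nat_lit 123202) (nat_lit 270) .nil))))))) (.g (nat_lit 0) .nil .nil))))) (.nd (nat_lit 3) (.nd (nat_lit 4) 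
(.lf (nat_lit 47332) (.g (nat_lit 2353) (.e (nat_lit 1256) (nat_lit 92) (.e (nat_lit 98372) (nat_lit 29) (.e (nat_lit 450586) (nat_lit 10) (.e (nat_lit 573452) (nat_lit 9) (.e (nat_lit 365) (nat_lit 31) (.e (nat_lit 417793) (nat_lit 0) (.e (nat_lit 5271) (nat_lit 298) .nil))))))) (.g (nat_lit 0) .nil .nil))) 
(.lf (nat_lit 47348) (.g (nat_lit 1002) (.e (nat_lit 1256) (nat_lit 92) (.e (nat_lit 98372) (nat_lit 29) (.e (nat_lit 450586) (nat_lit 10) (.e (nat_lit 573457) (nat_lit 9) .nil)))) .nil))) (.nd (nat_lit 4) 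
(.lf (nat_lit 47340) (.g (nat_lit 1027) (.e (nat_lit 1256) (nat_lit 92) (.e (nat_lit 98372) (nat_lit 29) (.e (nat_lit 450586) (nat_lit 10) (.e (nat_lit 573456) (nat_lit 9) .nil)))) .nil)) 
(.lf (nat_lit 47356) (.g (nat_lit 2499) (.e (nat_lit 1256) (nat_lit 92) (.e (nat_lit 98372) (nat_lit 29) (.e (nat_lit 450586) (nat_lit 10) (.e (nat_lit 573457) (nat_lit 9) (.e (nat_lit 365) (nat_lit 31) (.e (nat_lit 417796) (nat_lit 0) (.e (nat_lit 5271) (nat_lit 298) .nil))))))) (.g (nat_lit 0) .nil .nil)))))) (.nd (nat_lit 2) (.nd (nat_lit 3) (.nd (nat_lit 4) 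
(.lf (nat_lit 47330) (.g (nat_lit 1737) (.e (nat_lit 1256) (nat_lit 92) (.e (nat_lit 98372) (nat_lit 29) (.e (nat_lit 450586) (nat_lit 10) (.e (nat_lit 573452) (nat_lit 9) (.e (nat_lit 61) (nat_lit 0) (.e (nat_lit 7086) (nat_lit 379) (.e (nat_lit 123202) (nat_lit 270) .nil))))))) (.g (nat_lit 4) .nil .nil))) 
(.lf (nat_lit 47346) (.g (nat_lit 1706) (.e (nat_lit 1256) (nat_lit 92) (.e (nat_lit 98372) (nat_lit 29) (.e (nat_lit 450586) (nat_lit 10) (.e (nat_lit 573456) (nat_lit 9) (.e (nat_lit 7936) (nat_lit 33) (.e (nat_lit 442112) (nat_lit 0) .nil)))))) (.g (nat_lit 4) .nil .nil)))) (.nd (nat_lit 4) 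
(.lf (nat_lit 47338) (.g (nat_lit 1633) (.e (nat_lit 1256) (nat_lit 92) (.e (nat_lit 98372) (nat_lit 29) (.e (nat_lit 450586) (nat_lit 10) (.e (nat_lit 573452) (nat_lit 9) (.e (nat_lit 7936) (nat_lit 33) (.e (nat_lit 442112) (nat_lit 0) .nil)))))) (.g (nat_lit 4) .nil .nil))) 
(.lf (nat_lit 47354) (.g (nat_lit 2167) (.e (nat_lit 1256) (nat_lit 92) (.e (nat_lit 98372) (nat_lit 29) (.e (nat_lit 450586) (nat_lit 10) (.e (nat_lit 573457) (nat_lit 9) (.e (nat_lit 365) (nat_lit 31) (.e (nat_lit 417793) (nat_lit 0) (.e (nat_lit 5271) (nat_lit 298) .nil))))))) (.g (nat_lit 0) .nil .nil))))) (.nd (nat_lit 3) (.nd (nat_lit 4) 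
(.lf (nat_lit 47334) (.g (nat_lit 2689) (.e (nat_lit 1256) (nat_lit 92) (.e (nat_lit 98372) (nat_lit 29) (.e (nat_lit 450586) (nat_lit 10) (.e (nat_lit 573452) (nat_lit 9) (.e (nat_lit 365) (nat_lit 31) (.e (nat_lit 417796) (nat_lit 0) (.e (nat_lit 5271) (nat_lit 298) .nil))))))) (.g (nat_lit 0) .nil .nil))) 
(.lf (nat_lit 47350) (.g (nat_lit 2026) (.e (nat_lit 1256) (nat_lit 92) (.e (nat_lit 98372) (nat_lit 29) (.e (nat_lit 450586) (nat_lit 10) (.e (nat_lit 573457) (nat_lit 9) (.e (nat_lit 13) (nat_lit 0) (.e (nat_lit 7081) (nat_lit 378) (.e (nat_lit 57876) (nat_lit 270) .nil))))))) (.g (nat_lit 0) .nil .nil)))) (.nd (nat_lit 4) 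
(.lf (nat_lit 47342) (.g (nat_lit 1970) (.e (nat_lit 1256) (nat_lit 92) (.e (nat_lit 98372) (nat_lit 29) (.e (nat_lit 450586) (nat_lit 10) (.e (nat_lit 573456) (nat_lit 9) (.e (nat_lit 428) (nat_lit 32) (.e (nat_lit 425984) (nat_lit 0) (.e (nat_lit 7489) (nat_lit 402) .nil))))))) (.g (nat_lit 4) .nil .nil))) 
(.lf (nat_lit 47358) (.g (nat_lit 1508) (.e (nat_lit 1256) (nat_lit 92) (.e (nat_lit 98372) (nat_lit 29) (.e (nat_lit 450586) (nat_lit 10) (.e (nat_lit 573457) (nat_lit 9) (.e (nat_lit 7936) (nat_lit 33) (.e (nat_lit 442112) (nat_lit 0) .nil)))))) (.g (nat_lit 4) .nil .nil))))))) (.nd (nat_lit 1) (.nd (nat_lit 2) (.nd (nat_lit 3) (.nd (nat_lit 4) 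
(.lf (nat_lit 47329) (.g (nat_lit 2346) (.e (nat_lit 1256) (nat_lit 92) (.e (nat_lit 98372) (nat_lit 29) (.e (nat_lit 450586) (nat_lit 10) (.e (nat_lit 573452) (nat_lit 9) (.e (nat_lit 16) (nat_lit 0) (.e (nat_lit 7089) (nat_lit 379) (.e (nat_lit 123202) (nat_lit 270) .nil))))))) (.g (nat_lit 0) .nil .nil))) 
(.lf (nat_lit 47345) (.g (nat_lit 1841) (.e (nat_lit 1256) (nat_lit 92) (.e (nat_lit 98372) (nat_lit 29) (.e (nat_lit 450586) (nat_lit 10) (.e (nat_lit 573456) (nat_lit 9) (.e (nat_lit 428) (nat_lit 32) (.e (nat_lit 425990) (nat_lit 0) (.e (nat_lit 7489) (nat_lit 402) .nil))))))) (.g (nat_lit 4) .nil .nil)))) (.nd (nat_lit 4) 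
(.lf (nat_lit 47337) (.g (nat_lit 2594) (.e (nat_lit 1256) (nat_lit 92) (.e (nat_lit 98372) (nat_lit 29) (.e (nat_lit 450586) (nat_lit 10) (.e (nat_lit 573452) (nat_lit 9) (.e (nat_lit 430) (nat_lit 32) (.e (nat_lit 426012) (nat_lit 0) (.e (nat_lit 7490) (nat_lit 402) .nil))))))) (.g (nat_lit 0) .nil .nil))) 
(.lf (nat_lit 47353) (.g (nat_lit 2209) (.e (nat_lit 1256) (nat_lit 92) (.e (nat_lit 98372) (nat_lit 29) (.e (nat_lit 450586) (nat_lit 10) (.e (nat_lit 573457) (nat_lit 9) (.e (nat_lit 16) (nat_lit 0) (.e (nat_lit 7089) (nat_lit 379) (.e (nat_lit 123202) (nat_lit 270) .nil))))))) (.g (nat_lit 0) .nil .nil))))) (.nd (nat_lit 3) (.nd (nat_lit 4) 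
(.lf (nat_lit 47333) (.g (nat_lit 2523) (.e (nat_lit 1256) (nat_lit 92) (.e (nat_lit 98372) (nat_lit 29) (.e (nat_lit 450586) (nat_lit 10) (.e (nat_lit 573452) (nat_lit 9) (.e (nat_lit 365) (nat_lit 31) (.e (nat_lit 417795) (nat_lit 0) (.e (nat_lit 5271) (nat_lit 298) .nil))))))) (.g (nat_lit 0) .nil .nil))) 
(.lf (nat_lit 47349) (.g (nat_lit 2032) (.e (nat_lit 1256) (nat_lit 92) (.e (nat_lit 98372) (nat_lit 29) (.e (nat_lit 450586) (nat_lit 10) (.e (nat_lit 573457) (nat_lit 9) (.e (nat_lit 13) (nat_lit 0) (.e (nat_lit 7077) (nat_lit 378) (.e (nat_lit 57876) (nat_lit 270) .nil))))))) (.g (nat_lit 0) .nil .nil)))) (.nd (nat_lit 4) 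
(.lf (nat_lit 47341) (.g (nat_lit 1609) (.e (nat_lit 1256) (nat_lit 92) (.e (nat_lit 98372) (nat_lit 29) (.e (nat_lit 450586) (nat_lit 10) (.e (nat_lit 573456) (nat_lit 9) (.e (nat_lit 359) (nat_lit 30) .nil))))) .nil)) 
(.lf (nat_lit 47357) (.g (nat_lit 1831) (.e (nat_lit 1256) (nat_lit 92) (.e (nat_lit 98372) (nat_lit 29) (.e (nat_lit 450586) (nat_lit 10) (.e (nat_lit 573457) (nat_lit 9) (.e (nat_lit 428) (nat_lit 32) (.e (nat_lit 425990) (nat_lit 0) (.e (nat_lit 7489) (nat_lit 402) .nil))))))) (.g (nat_lit 0) .nil .nil)))))) (.nd (nat_lit 2) (.nd (nat_lit 3) (.nd (nat_lit 4) 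
(.lf (nat_lit 47331) (.g (nat_lit 3364) (.e (nat_lit 1256) (nat_lit 92) (.e (nat_lit 98372) (nat_lit 29) (.e (nat_lit 450586) (nat_lit 10) (.e (nat_lit 573452) (nat_lit 9) (.e (nat_lit 359) (nat_lit 30) (.e (nat_lit 409602) (nat_lit 0) (.e (nat_lit 5270) (nat_lit 298) .nil))))))) (.g (nat_lit 0) .nil .nil))) 
(.lf (nat_lit 47347) (.g (nat_lit 1416) (.e (nat_lit 1256) (nat_lit 92) (.e (nat_lit 98372) (nat_lit 29) (.e (nat_lit 450586) (nat_lit 10) (.e (nat_lit 573456) (nat_lit 9) (.e (nat_lit 7936) (nat_lit 36) .nil))))) .nil))) (.nd (nat_lit 4) 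
(.lf (nat_lit 47339) (.g (nat_lit 1633) (.e (nat_lit 1256) (nat_lit 92) (.e (nat_lit 98372) (nat_lit 29) (.e (nat_lit 450586) (nat_lit 10) (.e (nat_lit 573452) (nat_lit 9) (.e (nat_lit 7936) (nat_lit 36) (.e (nat_lit 466688) (nat_lit 0) .nil)))))) (.g (nat_lit 4) .nil .nil))) 
(.lf (nat_lit 47355) (.g (nat_lit 2339) (.e (nat_lit 1256) (nat_lit 92) (.e (nat_lit 98372) (nat_lit 29) (.e (nat_lit 450586) (nat_lit 10) (.e (nat_lit 573457) (nat_lit 9) (.e (nat_lit 365) (nat_lit 31) (.e (nat_lit 417795) (nat_lit 0) (.e (nat_lit 5271) (nat_lit 298) .nil))))))) (.g (nat_lit 0) .nil .nil))))) (.nd (nat_lit 3) (.nd (nat_lit 4) 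
(.lf (nat_lit 47335) (.g (nat_lit 1915) (.e (nat_lit 1256) (nat_lit 92) (.e (nat_lit 98372) (nat_lit 29) (.e (nat_lit 450586) (nat_lit 10) (.e (nat_lit 573452) (nat_lit 9) (.e (nat_lit 428) (nat_lit 32) (.e (nat_lit 425990) (nat_lit 0) (.e (nat_lit 7489) (nat_lit 402) .nil))))))) (.g (nat_lit 0) .nil .nil))) 
(.lf (nat_lit 47351) (.g (nat_lit 1998) (.e (nat_lit 1256) (nat_lit 92) (.e (nat_lit 98372) (nat_lit 29) (.e (nat_lit 450586) (nat_lit 10) (.e (nat_lit 573457) (nat_lit 9) (.e (nat_lit 13) (nat_lit 0) (.e (nat_lit 7082) (nat_lit 378) (.e (nat_lit 57876) (nat_lit 270) .nil))))))) (.g (nat_lit 0) .nil .nil)))) (.nd (nat_lit 4) 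
(.lf (nat_lit 47343) (.g (nat_lit 1909) (.e (nat_lit 1256) (nat_lit 92) (.e (nat_lit 98372) (nat_lit 29) (.e (nat_lit 450586) (nat_lit 10) (.e (nat_lit 573456) (nat_lit 9) (.e (nat_lit 428) (nat_lit 32) (.e (nat_lit 425987) (nat_lit 0) (.e (nat_lit 7489) (nat_lit 402) .nil))))))) (.g (nat_lit 4) .nil .nil))) 
(.lf (nat_lit 47359) (.g (nat_lit 1508) (.e (nat_lit 1256) (nat_lit 92) (.e (nat_lit 98372) (nat_lit 29) (.e (nat_lit 450586) (nat_lit 10) (.e (nat_lit 573457) (nat_lit 9) (.e (nat_lit 7936) (nat_lit 36) (.e (nat_lit 466688) (nat_lit 0) .nil)))))) (.g (nat_lit 4) .nil .nil))))))))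

noncomputable def tv659 : DT := (.nd (nat_lit 0) (.nd (nat_lit 1) (.nd (nat_lit 2) (.nd (nat_lit 3) (.nd (nat_lit 4) (.nd (nat_lit 5) (.nd (nat_lit 6) 
(.lf (nat_lit 47360) (.g (nat_lit 1938) (.e (nat_lit 1256) (nat_lit 92) (.e (nat_lit 98372) (nat_lit 29) (.e (nat_lit 450586) (nat_lit 10) (.e (nat_lit 573469) (nat_lit 11) (.e (nat_lit 16387) (nat_lit 0) .nil))))) .nil)) 
(.lf (nat_lit 47424) (.g (nat_lit 464) (.e (nat_lit 1256) (nat_lit 92) (.e (nat_lit 98373) (nat_lit 29) (.e (nat_lit 450562) (nat_lit 0) .nil))) .nil))) (.nd (nat_lit 6) 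
(.lf (nat_lit 47392) (.g (nat_lit 3037) (.e (nat_lit 1256) (nat_lit 92) (.e (nat_lit 98372) (nat_lit 29) (.e (nat_lit 450588) (nat_lit 10) (.e (nat_lit 573452) (nat_lit 9) (.e (nat_lit 7936) (nat_lit 30) .nil))))) .nil)) 
(.lf (nat_lit 47456) (.g (nat_lit 2616) (.e (nat_lit 1256) (nat_lit 92) (.e (nat_lit 98373) (nat_lit 29) (.e (nat_lit 450579) (nat_lit 5) (.e (nat_lit 532523) (nat_lit 7) (.e (nat_lit 319504) (nat_lit 10) (.e (nat_lit 7936) (nat_lit 298) .nil)))))) (.g (nat_lit 5) .nil .nil))))) (.nd (nat_lit 5) (.nd (nat_lit 6) 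
(.lf (nat_lit 47376) (.g (nat_lit 413) (.e (nat_lit 1256) (nat_lit 92) (.e (nat_lit 98372) (nat_lit 29) (.e (nat_lit 450588) (nat_lit 10) .nil))) .nil)) 
(.lf (nat_lit 47440) (.g (nat_lit 1855) (.e (nat_lit 1256) (nat_lit 92) (.e (nat_lit 98373) (nat_lit 29) (.e (nat_lit 450563) (nat_lit 0) (.e (nat_lit 6420) (nat_lit 341) .nil)))) .nil))) (.nd (nat_lit 6) 
(.lf (nat_lit 47408) (.g (nat_lit 3820) (.e (nat_lit 1256) (nat_lit 92) (.e (nat_lit 98372) (nat_lit 29) (.e (nat_lit 450588) (nat_lit 10) (.e (nat_lit 573469) (nat_lit 11) (.e (nat_lit 16388) (nat_lit 0) .nil))))) .nil)) 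
(.lf (nat_lit 47472) (.g (nat_lit 2852) (.e (nat_lit 1256) (nat_lit 92) (.e (nat_lit 98373) (nat_lit 29) (.e (nat_lit 450581) (nat_lit 5) (.e (nat_lit 532523) (nat_lit 7) (.e (nat_lit 319505) (nat_lit 10) (.e (nat_lit 5258) (nat_lit 298) .nil)))))) (.g (nat_lit 4) .nil .nil)))))) (.nd (nat_lit 4) (.nd (nat_lit 5) (.nd (nat_lit 6) 
(.lf (nat_lit 47368) (.g (nat_lit 2506) (.e (nat_lit 1256) (nat_lit 92) (.e (nat_lit 98372) (nat_lit 29) (.e (nat_lit 450586) (nat_lit 10) (.e (nat_lit 573471) (nat_lit 11) (.e (nat_lit 16386) (nat_lit 0) (.e (nat_lit 7486) (nat_lit 402) .nil)))))) (.g (nat_lit 6) .nil .nil))) 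
(.lf (nat_lit 47432) (.g (nat_lit 1886) (.e (nat_lit 1256) (nat_lit 92) (.e (nat_lit 98373) (nat_lit 29) (.e (nat_lit 450562) (nat_lit 0) (.e (nat_lit 6416) (nat_lit 341) (.e (nat_lit 163885) (nat_lit 5) .nil))))) .nil))) (.nd (nat_lit 6) 
(.lf (nat_lit 47400) (.g (nat_lit 3128) (.e (nat_lit 1256) (nat_lit 92) (.e (nat_lit 98372) (nat_lit 29) (.e (nat_lit 450588) (nat_lit 10) (.e (nat_lit 573452) (nat_lit 9) (.e (nat_lit 430) (nat_lit 32) (.e (nat_lit 426010) (nat_lit 0) (.e (nat_lit 7490) (nat_lit 402) .nil))))))) (.g (nat_lit 4) .nil .nil))) 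
(.lf (nat_lit 47464) (.g (nat_lit 2562) (.e (nat_lit 1256) (nat_lit 92) (.e (nat_lit 98373) (nat_lit 29) (.e (nat_lit 450580) (nat_lit 5) (.e (nat_lit 532523) (nat_lit 7) (.e (nat_lit 319511) (nat_lit 10) .nil))))) .nil)))) (.nd (nat_lit 5) (.nd (nat_lit 6) 
(.lf (nat_lit 47384) (.g (nat_lit 4325) (.e (nat_lit 1256) (nat_lit 92) (.e (nat_lit 98372) (nat_lit 29) (.e (nat_lit 450588) (nat_lit 10) (.e (nat_lit 573451) (nat_lit 9) (.e (nat_lit 359) (nat_lit 30) .nil))))) .nil)) 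
(.lf (nat_lit 47448) (.g (nat_lit 614) (.e (nat_lit 1256) (nat_lit 92) (.e (nat_lit 98373) (nat_lit 29) (.e (nat_lit 450576) (nat_lit 2) .nil))) .nil))) (.nd (nat_lit 6) 
(.lf (nat_lit 47416) (.g (nat_lit 2876) (.e (nat_lit 1256) (nat_lit 92) (.e (nat_lit 98372) (nat_lit 29) (.e (nat_lit 450588) (nat_lit 10) (.e (nat_lit 573471) (nat_lit 11) (.e (nat_lit 16387) (nat_lit 0) (.e (nat_lit 7486) (nat_lit 402) .nil)))))) (.g (nat_lit 4) .nil .nil))) 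
(.lf (nat_lit 47480) (.g (nat_lit 663) (.e (nat_lit 1256) (nat_lit 92) (.e (nat_lit 98373) (nat_lit 29) (.e (nat_lit 450586) (nat_lit 10) .nil))) .nil)))))) (.nd (nat_lit 3) (.nd (nat_lit 4) (.nd (nat_lit 5) (.nd (nat_lit 6) 
(.lf (nat_lit 47364) (.g (nat_lit 2763) (.e (nat_lit 1256) (nat_lit 92) (.e (nat_lit 98372) (nat_lit 29) (.e (nat_lit 450586) (nat_lit 10) (.e (nat_lit 573470) (nat_lit 11) (.e (nat_lit 16388) (nat_lit 0) (.e (nat_lit 7486) (nat_lit 402) .nil)))))) (.g (nat_lit 0) .nil .nil))) 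
(.lf (nat_lit 47428) (.g (nat_lit 2530) (.e (nat_lit 1256) (nat_lit 92) (.e (nat_lit 98373) (nat_lit 29) (.e (nat_lit 450562) (nat_lit 0) (.e (nat_lit 4284) (nat_lit 253) (.e (nat_lit 57590) (nat_lit 73) (.e (nat_lit 425984) (nat_lit 0) (.e (nat_lit 7489) (nat_lit 402) .nil))))))) (.g (nat_lit 4) .nil .nil)))) (.nd (nat_lit 6) 
(.lf (nat_lit 47396) (.g (nat_lit 3400) (.e (nat_lit 1256) (nat_lit 92) (.e (nat_lit 98372) (nat_lit 29) (.e (nat_lit 450588) (nat_lit 10) (.e (nat_lit 573452) (nat_lit 9) (.e (nat_lit 365) (nat_lit 31) (.e (nat_lit 417796) (nat_lit 0) (.e (nat_lit 5271) (nat_lit 298) .nil))))))) (.g (nat_lit 4) .nil .nil))) 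
(.lf (nat_lit 47460) (.g (nat_lit 3595) (.e (nat_lit 1256) (nat_lit 92) (.e (nat_lit 98373) (nat_lit 29) (.e (nat_lit 450580) (nat_lit 5) (.e (nat_lit 532523) (nat_lit 7) (.e (nat_lit 319504) (nat_lit 10) (.e (nat_lit 5272) (nat_lit 298) .nil)))))) (.g (nat_lit 5) .nil .nil))))) (.nd (nat_lit 5) (.nd (nat_lit 6) 
(.lf (nat_lit 47380) (.g (nat_lit 3376) (.e (nat_lit 1256) (nat_lit 92) (.e (nat_lit 98372) (nat_lit 29) (.e (nat_lit 450588) (nat_lit 10) (.e (nat_lit 573450) (nat_lit 9) (.e (nat_lit 433) (nat_lit 32) .nil))))) .nil)) 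
(.lf (nat_lit 47444) (.g (nat_lit 2112) (.e (nat_lit 1256) (nat_lit 92) (.e (nat_lit 98373) (nat_lit 29) (.e (nat_lit 450563) (nat_lit 0) (.e (nat_lit 6595) (nat_lit 351) .nil)))) .nil))) (.nd (nat_lit 6) 
(.lf (nat_lit 47412) (.g (nat_lit 3583) (.e (nat_lit 1256) (nat_lit 92) (.e (nat_lit 98372) (nat_lit 29) (.e (nat_lit 450588) (nat_lit 10) (.e (nat_lit 573470) (nat_lit 11) (.e (nat_lit 16388) (nat_lit 0) (.e (nat_lit 7490) (nat_lit 402) .nil)))))) (.g (nat_lit 5) .nil .nil))) 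
(.lf (nat_lit 47476) (.g (nat_lit 2256) (.e (nat_lit 1256) (nat_lit 92) (.e (nat_lit 98373) (nat_lit 29) (.e (nat_lit 450583) (nat_lit 7) (.e (nat_lit 548914) (nat_lit 19) (.e (nat_lit 188160) (nat_lit 32) .nil))))) (.g (nat_lit 4) .nil .nil)))))) (.nd (nat_lit 4) (.nd (nat_lit 5) (.nd (nat_lit 6) 
(.lf (nat_lit 47372) (.g (nat_lit 2387) (.e (nat_lit 1256) (nat_lit 92) (.e (nat_lit 98372) (nat_lit 29) (.e (nat_lit 450586) (nat_lit 10) (.e (nat_lit 573471) (nat_lit 11) (.e (nat_lit 16396) (nat_lit 0) (.e (nat_lit 7936) (nat_lit 402) .nil)))))) (.g (nat_lit 5) .nil .nil))) 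
(.lf (nat_lit 47436) (.g (nat_lit 2234) (.e (nat_lit 1256) (nat_lit 92) (.e (nat_lit 98373) (nat_lit 29) (.e (nat_lit 450563) (nat_lit 0) (.e (nat_lit 4288) (nat_lit 254) .nil)))) .nil))) (.nd (nat_lit 6) 
(.lf (nat_lit 47404) (.g (nat_lit 3037) (.e (nat_lit 1256) (nat_lit 92) (.e (nat_lit 98372) (nat_lit 29) (.e (nat_lit 450588) (nat_lit 10) (.e (nat_lit 573452) (nat_lit 9) (.e (nat_lit 7936) (nat_lit 32) .nil))))) .nil)) 
(.lf (nat_lit 47468) (.g (nat_lit 2491) (.e (nat_lit 1256) (nat_lit 92) (.e (nat_lit 98373) (nat_lit 29) (.e (nat_lit 450581) (nat_lit 5) (.e (nat_lit 532523) (nat_lit 7) (.e (nat_lit 319504) (nat_lit 10) (.e (nat_lit 5255) (nat_lit 298) .nil)))))) (.g (nat_lit 4) .nil .nil))))) (.nd (nat_lit 5) (.nd (nat_lit 6) 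
(.lf (nat_lit 47388) (.g (nat_lit 3141) (.e (nat_lit 1256) (nat_lit 92) (.e (nat_lit 98372) (nat_lit 29) (.e (nat_lit 450588) (nat_lit 10) (.e (nat_lit 573452) (nat_lit 9) (.e (nat_lit 16) (nat_lit 0) (.e (nat_lit 7086) (nat_lit 379) (.e (nat_lit 123202) (nat_lit 270) .nil))))))) (.g (nat_lit 4) .nil .nil))) 
(.lf (nat_lit 47452) (.g (nat_lit 937) (.e (nat_lit 1256) (nat_lit 92) (.e (nat_lit 98373) (nat_lit 29) (.e (nat_lit 450579) (nat_lit 5) (.e (nat_lit 532523) (nat_lit 7) .nil)))) .nil))) (.nd (nat_lit 6) 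
(.lf (nat_lit 47420) (.g (nat_lit 3210) (.e (nat_lit 1256) (nat_lit 92) (.e (nat_lit 98372) (nat_lit 29) (.e (nat_lit 450588) (nat_lit 10) (.e (nat_lit 573471) (nat_lit 11) (.e (nat_lit 16396) (nat_lit 0) .nil))))) .nil)) 
(.lf (nat_lit 47484) (.g (nat_lit 1823) (.e (nat_lit 1256) (nat_lit 92) (.e (nat_lit 98373) (nat_lit 29) (.e (nat_lit 450586) (nat_lit 10) (.e (nat_lit 573470) (nat_lit 11) (.e (nat_lit 16388) (nat_lit 0) .nil))))) .nil))))))) (.nd (nat_lit 2) (.nd (nat_lit 3) (.nd (nat_lit 4) (.nd (nat_lit 5) (.nd (nat_lit 6) 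
(.lf (nat_lit 47362) (.g (nat_lit 1573) (.e (nat_lit 1256) (nat_lit 92) (.e (nat_lit 98372) (nat_lit 29) (.e (nat_lit 450586) (nat_lit 10) (.e (nat_lit 573470) (nat_lit 11) (.e (nat_lit 16386) (nat_lit 0) .nil))))) .nil)) 
(.lf (nat_lit 47426) (.g (nat_lit 2087) (.e (nat_lit 1256) (nat_lit 92) (.e (nat_lit 98373) (nat_lit 29) (.e (nat_lit 450562) (nat_lit 0) (.e (nat_lit 3953) (nat_lit 239) .nil)))) .nil))) (.nd (nat_lit 6) 
(.lf (nat_lit 47394) (.g (nat_lit 3098) (.e (nat_lit 1256) (nat_lit 92) (.e (nat_lit 98372) (nat_lit 29) (.e (nat_lit 450588) (nat_lit 10) (.e (nat_lit 573452) (nat_lit 9) (.e (nat_lit 365) (nat_lit 31) (.e (nat_lit 417794) (nat_lit 0) (.e (nat_lit 5271) (nat_lit 298) .nil))))))) (.g (nat_lit 4) .nil .nil))) 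
(.lf (nat_lit 47458) (.g (nat_lit 3654) (.e (nat_lit 1256) (nat_lit 92) (.e (nat_lit 98373) (nat_lit 29) (.e (nat_lit 450580) (nat_lit 5) (.e (nat_lit 532523) (nat_lit 7) (.e (nat_lit 319504) (nat_lit 10) (.e (nat_lit 5245) (nat_lit 298) .nil)))))) (.g (nat_lit 6) .nil .nil))))) (.nd (nat_lit 5) (.nd (nat_lit 6) 
(.lf (nat_lit 47378) (.g (nat_lit 3507) (.e (nat_lit 1256) (nat_lit 92) (.e (nat_lit 98372) (nat_lit 29) (.e (nat_lit 450588) (nat_lit 10) (.e (nat_lit 573449) (nat_lit 9) (.e (nat_lit 359) (nat_lit 30) .nil))))) .nil)) 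
(.lf (nat_lit 47442) (.g (nat_lit 2599) (.e (nat_lit 1256) (nat_lit 92) (.e (nat_lit 98373) (nat_lit 29) (.e (nat_lit 450563) (nat_lit 0) (.e (nat_lit 6420) (nat_lit 341) (.e (nat_lit 163885) (nat_lit 5) .nil))))) .nil))) (.nd (nat_lit 6) 
(.lf (nat_lit 47410) (.g (nat_lit 3310) (.e (nat_lit 1256) (nat_lit 92) (.e (nat_lit 98372) (nat_lit 29) (.e (nat_lit 450588) (nat_lit 10) (.e (nat_lit 573470) (nat_lit 11) (.e (nat_lit 16386) (nat_lit 0) .nil))))) .nil)) 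
(.lf (nat_lit 47474) (.g (nat_lit 1536) (.e (nat_lit 1256) (nat_lit 92) (.e (nat_lit 98373) (nat_lit 29) (.e (nat_lit 450583) (nat_lit 7) (.e (nat_lit 548894) (nat_lit 14) .nil)))) .nil))))) (.nd (nat_lit 4) (.nd (nat_lit 5) (.nd (nat_lit 6) 
(.lf (nat_lit 47370) (.g (nat_lit 2870) (.e (nat_lit 1256) (nat_lit 92) (.e (nat_lit 98372) (nat_lit 29) (.e (nat_lit 450586) (nat_lit 10) (.e (nat_lit 573471) (nat_lit 11) (.e (nat_lit 16388) (nat_lit 0) (.e (nat_lit 7486) (nat_lit 402) .nil)))))) (.g (nat_lit 6) .nil .nil))) 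
(.lf (nat_lit 47434) (.g (nat_lit 2213) (.e (nat_lit 1256) (nat_lit 92) (.e (nat_lit 98373) (nat_lit 29) (.e (nat_lit 450563) (nat_lit 0) (.e (nat_lit 3926) (nat_lit 239) .nil)))) .nil))) (.nd (nat_lit 6) 
(.lf (nat_lit 47402) (.g (nat_lit 3266) (.e (nat_lit 1256) (nat_lit 92) (.e (nat_lit 98372) (nat_lit 29) (.e (nat_lit 450588) (nat_lit 10) (.e (nat_lit 573452) (nat_lit 9) (.e (nat_lit 430) (nat_lit 32) (.e (nat_lit 426012) (nat_lit 0) (.e (nat_lit 7486) (nat_lit 402) .nil))))))) (.g (nat_lit 4) .nil .nil))) 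
(.lf (nat_lit 47466) (.g (nat_lit 537) (.e (nat_lit 1256) (nat_lit 92) (.e (nat_lit 98373) (nat_lit 29) (.e (nat_lit 450581) (nat_lit 5) .nil))) .nil)))) (.nd (nat_lit 5) (.nd (nat_lit 6) 
(.lf (nat_lit 47386) (.g (nat_lit 3086) (.e (nat_lit 1256) (nat_lit 92) (.e (nat_lit 98372) (nat_lit 29) (.e (nat_lit 450588) (nat_lit 10) (.e (nat_lit 573452) (nat_lit 9) (.e (nat_lit 11) (nat_lit 0) .nil))))) .nil)) 
(.lf (nat_lit 47450) (.g (nat_lit 1672) (.e (nat_lit 1256) (nat_lit 92) (.e (nat_lit 98373) (nat_lit 29) (.e (nat_lit 450578) (nat_lit 5) (.e (nat_lit 532523) (nat_lit 7) (.e (nat_lit 319504) (nat_lit 10) .nil))))) .nil))) (.nd (nat_lit 6) 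
(.lf (nat_lit 47418) (.g (nat_lit 3296) (.e (nat_lit 1256) (nat_lit 92) (.e (nat_lit 98372) (nat_lit 29) (.e (nat_lit 450588) (nat_lit 10) (.e (nat_lit 573471) (nat_lit 11) (.e (nat_lit 16388) (nat_lit 0) (.e (nat_lit 7486) (nat_lit 402) .nil)))))) (.g (nat_lit 5) .nil .nil))) 
(.lf (nat_lit 47482) (.g (nat_lit 1577) (.e (nat_lit 1256) (nat_lit 92) (.e (nat_lit 98373) (nat_lit 29) (.e (nat_lit 450586) (nat_lit 10) (.e (nat_lit 573451) (nat_lit 9) .nil)))) .nil)))))) (.nd (nat_lit 3) (.nd (nat_lit 4) (.nd (nat_lit 5) (.nd (nat_lit 6) 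
(.lf (nat_lit 47366) (.g (nat_lit 2940) (.e (nat_lit 1256) (nat_lit 92) (.e (nat_lit 98372) (nat_lit 29) (.e (nat_lit 450586) (nat_lit 10) (.e (nat_lit 573471) (nat_lit 11) (.e (nat_lit 16385) (nat_lit 0) (.e (nat_lit 7486) (nat_lit 402) .nil)))))) (.g (nat_lit 6) .nil .nil))) 
(.lf (nat_lit 47430) (.g (nat_lit 2717) (.e (nat_lit 1256) (nat_lit 92) (.e (nat_lit 98373) (nat_lit 29) (.e (nat_lit 450562) (nat_lit 0) (.e (nat_lit 4290) (nat_lit 254) (.e (nat_lit 122994) (nat_lit 74) (.e (nat_lit 442112) (nat_lit 0) .nil)))))) (.g (nat_lit 5) .nil .nil)))) (.nd (nat_lit 6) 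
(.lf (nat_lit 47398) (.g (nat_lit 2969) (.e (nat_lit 1256) (nat_lit 92) (.e (nat_lit 98372) (nat_lit 29) (.e (nat_lit 450588) (nat_lit 10) (.e (nat_lit 573452) (nat_lit 9) (.e (nat_lit 430) (nat_lit 32) .nil))))) .nil)) 
(.lf (nat_lit 47462) (.g (nat_lit 2518) (.e (nat_lit 1256) (nat_lit 92) (.e (nat_lit 98373) (nat_lit 29) (.e (nat_lit 450580) (nat_lit 5) (.e (nat_lit 532523) (nat_lit 7) (.e (nat_lit 319505) (nat_lit 10) .nil))))) .nil)))) (.nd (nat_lit 5) (.nd (nat_lit 6) 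
(.lf (nat_lit 47382) (.g (nat_lit 2938) (.e (nat_lit 1256) (nat_lit 92) (.e (nat_lit 98372) (nat_lit 29) (.e (nat_lit 450588) (nat_lit 10) (.e (nat_lit 573451) (nat_lit 9) .nil)))) .nil)) 
(.lf (nat_lit 47446) (.g (nat_lit 556) (.e (nat_lit 1256) (nat_lit 92) (.e (nat_lit 98373) (nat_lit 29) (.e (nat_lit 450574) (nat_lit 1) .nil))) .nil))) (.nd (nat_lit 6) 
(.lf (nat_lit 47414) (.g (nat_lit 3286) (.e (nat_lit 1256) (nat_lit 92) (.e (nat_lit 98372) (nat_lit 29) (.e (nat_lit 450588) (nat_lit 10) (.e (nat_lit 573471) (nat_lit 11) (.e (nat_lit 16385) (nat_lit 0) .nil))))) .nil)) 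
(.lf (nat_lit 47478) (.g (nat_lit 2110) (.e (nat_lit 1256) (nat_lit 92) (.e (nat_lit 98373) (nat_lit 29) (.e (nat_lit 450585) (nat_lit 10) (.e (nat_lit 573451) (nat_lit 9) .nil)))) .nil))))) (.nd (nat_lit 4) (.nd (nat_lit 5) (.nd (nat_lit 6) 
(.lf (nat_lit 47374) (.g (nat_lit 1730) (.e (nat_lit 1256) (nat_lit 92) (.e (nat_lit 98372) (nat_lit 29) (.e (nat_lit 450586) (nat_lit 10) (.e (nat_lit 573473) (nat_lit 12) (.e (nat_lit 57353) (nat_lit 0) .nil))))) .nil)) 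
(.lf (nat_lit 47438) (.g (nat_lit 1904) (.e (nat_lit 1256) (nat_lit 92) (.e (nat_lit 98373) (nat_lit 29) (.e (nat_lit 450563) (nat_lit 0) (.e (nat_lit 6416) (nat_lit 341) .nil)))) .nil))) (.nd (nat_lit 6) 
(.lf (nat_lit 47406) (.g (nat_lit 3037) (.e (nat_lit 1256) (nat_lit 92) (.e (nat_lit 98372) (nat_lit 29) (.e (nat_lit 450588) (nat_lit 10) (.e (nat_lit 573452) (nat_lit 9) (.e (nat_lit 7936) (nat_lit 36) .nil))))) .nil)) 
(.lf (nat_lit 47470) (.g (nat_lit 3344) (.e (nat_lit 1256) (nat_lit 92) (.e (nat_lit 98373) (nat_lit 29) (.e (nat_lit 450581) (nat_lit 5) (.e (nat_lit 532523) (nat_lit 7) (.e (nat_lit 319504) (nat_lit 10) (.e (nat_lit 5272) (nat_lit 298) .nil)))))) (.g (nat_lit 5) .nil .nil))))) (.nd (nat_lit 5) (.nd (nat_lit 6) 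
(.lf (nat_lit 47390) (.g (nat_lit 3192) (.e (nat_lit 1256) (nat_lit 92) (.e (nat_lit 98372) (nat_lit 29) (.e (nat_lit 450588) (nat_lit 10) (.e (nat_lit 573452) (nat_lit 9) (.e (nat_lit 16) (nat_lit 0) (.e (nat_lit 7088) (nat_lit 379) (.e (nat_lit 123202) (nat_lit 270) .nil))))))) (.g (nat_lit 4) .nil .nil))) 
(.lf (nat_lit 47454) (.g (nat_lit 2736) (.e (nat_lit 1256) (nat_lit 92) (.e (nat_lit 98373) (nat_lit 29) (.e (nat_lit 450579) (nat_lit 5) (.e (nat_lit 532523) (nat_lit 7) (.e (nat_lit 319504) (nat_lit 10) (.e (nat_lit 5271) (nat_lit 298) .nil)))))) (.g (nat_lit 5) .nil .nil)))) (.nd (nat_lit 6) 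
(.lf (nat_lit 47422) (.g (nat_lit 3414) (.e (nat_lit 1256) (nat_lit 92) (.e (nat_lit 98372) (nat_lit 29) (.e (nat_lit 450588) (nat_lit 10) (.e (nat_lit 573471) (nat_lit 11) (.e (nat_lit 16401) (nat_lit 0) .nil))))) .nil)) 
(.lf (nat_lit 47486) (.g (nat_lit 2366) (.e (nat_lit 1256) (nat_lit 92) (.e (nat_lit 98373) (nat_lit 29) (.e (nat_lit 450587) (nat_lit 10) (.e (nat_lit 573448) (nat_lit 9) .nil)))) .nil)))))))) (.nd (nat_lit 1) (.nd (nat_lit 2) (.nd (nat_lit 3) (.nd (nat_lit 4) (.nd (nat_lit 5) (.nd (nat_lit 6) 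
(.lf (nat_lit 47361) (.g (nat_lit 1712) (.e (nat_lit 1256) (nat_lit 92) (.e (nat_lit 98372) (nat_lit 29) (.e (nat_lit 450586) (nat_lit 10) (.e (nat_lit 573470) (nat_lit 11) (.e (nat_lit 16385) (nat_lit 0) (.e (nat_lit 7486) (nat_lit 402) .nil)))))) (.g (nat_lit 4) .nil .nil))) 
(.lf (nat_lit 47425) (.g (nat_lit 1937) (.e (nat_lit 1256) (nat_lit 92) (.e (nat_lit 98373) (nat_lit 29) (.e (nat_lit 450562) (nat_lit 0) (.e (nat_lit 3948) (nat_lit 239) .nil)))) .nil))) (.nd (nat_lit 6) 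
(.lf (nat_lit 47393) (.g (nat_lit 3065) (.e (nat_lit 1256) (nat_lit 92) (.e (nat_lit 98372) (nat_lit 29) (.e (nat_lit 450588) (nat_lit 10) (.e (nat_lit 573452) (nat_lit 9) (.e (nat_lit 365) (nat_lit 31) (.e (nat_lit 417793) (nat_lit 0) (.e (nat_lit 5271) (nat_lit 298) .nil))))))) (.g (nat_lit 4) .nil .nil))) 
(.lf (nat_lit 47457) (.g (nat_lit 1277) (.e (nat_lit 1256) (nat_lit 92) (.e (nat_lit 98373) (nat_lit 29) (.e (nat_lit 450580) (nat_lit 5) (.e (nat_lit 532523) (nat_lit 7) .nil)))) .nil)))) (.nd (nat_lit 5) (.nd (nat_lit 6) 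
(.lf (nat_lit 47377) (.g (nat_lit 2463) (.e (nat_lit 1256) (nat_lit 92) (.e (nat_lit 98372) (nat_lit 29) (.e (nat_lit 450588) (nat_lit 10) (.e (nat_lit 573449) (nat_lit 9) .nil)))) .nil)) 
(.lf (nat_lit 47441) (.g (nat_lit 2802) (.e (nat_lit 1256) (nat_lit 92) (.e (nat_lit 98373) (nat_lit 29) (.e (nat_lit 450563) (nat_lit 0) (.e (nat_lit 6420) (nat_lit 341) (.e (nat_lit 163843) (nat_lit 0) .nil))))) .nil))) (.nd (nat_lit 6) 
(.lf (nat_lit 47409) (.g (nat_lit 3094) (.e (nat_lit 1256) (nat_lit 92) (.e (nat_lit 98372) (nat_lit 29) (.e (nat_lit 450588) (nat_lit 10) (.e (nat_lit 573470) (nat_lit 11) (.e (nat_lit 16385) (nat_lit 0) .nil))))) .nil)) 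
(.lf (nat_lit 47473) (.g (nat_lit 2179) (.e (nat_lit 1256) (nat_lit 92) (.e (nat_lit 98373) (nat_lit 29) (.e (nat_lit 450581) (nat_lit 5) (.e (nat_lit 532523) (nat_lit 7) (.e (nat_lit 327424) (nat_lit 10) .nil))))) .nil))))) (.nd (nat_lit 4) (.nd (nat_lit 5) (.nd (nat_lit 6) 
(.lf (nat_lit 47369) (.g (nat_lit 2543) (.e (nat_lit 1256) (nat_lit 92) (.e (nat_lit 98372) (nat_lit 29) (.e (nat_lit 450586) (nat_lit 10) (.e (nat_lit 573471) (nat_lit 11) (.e (nat_lit 16387) (nat_lit 0) (.e (nat_lit 7486) (nat_lit 402) .nil)))))) (.g (nat_lit 6) .nil .nil))) 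
(.lf (nat_lit 47433) (.g (nat_lit 2095) (.e (nat_lit 1256) (nat_lit 92) (.e (nat_lit 98373) (nat_lit 29) (.e (nat_lit 450562) (nat_lit 0) (.e (nat_lit 6595) (nat_lit 351) .nil)))) .nil))) (.nd (nat_lit 6) 
(.lf (nat_lit 47401) (.g (nat_lit 3464) (.e (nat_lit 1256) (nat_lit 92) (.e (nat_lit 98372) (nat_lit 29) (.e (nat_lit 450588) (nat_lit 10) (.e (nat_lit 573452) (nat_lit 9) (.e (nat_lit 430) (nat_lit 32) (.e (nat_lit 426011) (nat_lit 0) (.e (nat_lit 7486) (nat_lit 402) .nil))))))) (.g (nat_lit 4) .nil .nil))) 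
(.lf (nat_lit 47465) (.g (nat_lit 1571) (.e (nat_lit 1256) (nat_lit 92) (.e (nat_lit 98373) (nat_lit 29) (.e (nat_lit 450580) (nat_lit 5) (.e (nat_lit 532526) (nat_lit 8) .nil)))) .nil)))) (.nd (nat_lit 5) (.nd (nat_lit 6) 
(.lf (nat_lit 47385) (.g (nat_lit 2193) (.e (nat_lit 1256) (nat_lit 92) (.e (nat_lit 98372) (nat_lit 29) (.e (nat_lit 450588) (nat_lit 10) (.e (nat_lit 573452) (nat_lit 9) .nil)))) .nil)) 
(.lf (nat_lit 47449) (.g (nat_lit 1068) (.e (nat_lit 1256) (nat_lit 92) (.e (nat_lit 98373) (nat_lit 29) (.e (nat_lit 450578) (nat_lit 5) (.e (nat_lit 532523) (nat_lit 7) .nil)))) .nil))) (.nd (nat_lit 6) 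
(.lf (nat_lit 47417) (.g (nat_lit 2891) (.e (nat_lit 1256) (nat_lit 92) (.e (nat_lit 98372) (nat_lit 29) (.e (nat_lit 450588) (nat_lit 10) (.e (nat_lit 573471) (nat_lit 11) (.e (nat_lit 16387) (nat_lit 0) (.e (nat_lit 7490) (nat_lit 402) .nil)))))) (.g (nat_lit 4) .nil .nil))) 
(.lf (nat_lit 47481) (.g (nat_lit 1431) (.e (nat_lit 1256) (nat_lit 92) (.e (nat_lit 98373) (nat_lit 29) (.e (nat_lit 450586) (nat_lit 10) (.e (nat_lit 573450) (nat_lit 9) .nil)))) .nil)))))) (.nd (nat_lit 3) (.nd (nat_lit 4) (.nd (nat_lit 5) (.nd (nat_lit 6) 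
(.lf (nat_lit 47365) (.g (nat_lit 2677) (.e (nat_lit 1256) (nat_lit 92) (.e (nat_lit 98372) (nat_lit 29) (.e (nat_lit 450586) (nat_lit 10) (.e (nat_lit 573470) (nat_lit 11) (.e (nat_lit 16388) (nat_lit 0) (.e (nat_lit 7490) (nat_lit 402) .nil)))))) (.g (nat_lit 0) .nil .nil))) 
(.lf (nat_lit 47429) (.g (nat_lit 2535) (.e (nat_lit 1256) (nat_lit 92) (.e (nat_lit 98373) (nat_lit 29) (.e (nat_lit 450562) (nat_lit 0) (.e (nat_lit 4284) (nat_lit 253) (.e (nat_lit 57590) (nat_lit 73) (.e (nat_lit 425987) (nat_lit 0) (.e (nat_lit 7489) (nat_lit 402) .nil))))))) (.g (nat_lit 4) .nil .nil)))) (.nd (nat_lit 6) 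
(.lf (nat_lit 47397) (.g (nat_lit 2978) (.e (nat_lit 1256) (nat_lit 92) (.e (nat_lit 98372) (nat_lit 29) (.e (nat_lit 450588) (nat_lit 10) (.e (nat_lit 573452) (nat_lit 9) (.e (nat_lit 428) (nat_lit 32) .nil))))) .nil)) 
(.lf (nat_lit 47461) (.g (nat_lit 3214) (.e (nat_lit 1256) (nat_lit 92) (.e (nat_lit 98373) (nat_lit 29) (.e (nat_lit 450580) (nat_lit 5) (.e (nat_lit 532523) (nat_lit 7) (.e (nat_lit 319504) (nat_lit 10) (.e (nat_lit 7936) (nat_lit 298) .nil)))))) (.g (nat_lit 5) .nil .nil))))) (.nd (nat_lit 5) (.nd (nat_lit 6) 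
(.lf (nat_lit 47381) (.g (nat_lit 3216) (.e (nat_lit 1256) (nat_lit 92) (.e (nat_lit 98372) (nat_lit 29) (.e (nat_lit 450588) (nat_lit 10) (.e (nat_lit 573450) (nat_lit 9) (.e (nat_lit 442) (nat_lit 33) .nil))))) .nil)) 
(.lf (nat_lit 47445) (.g (nat_lit 1034) (.e (nat_lit 1256) (nat_lit 92) (.e (nat_lit 98373) (nat_lit 29) (.e (nat_lit 450569) (nat_lit 0) .nil))) .nil))) (.nd (nat_lit 6) 
(.lf (nat_lit 47413) (.g (nat_lit 1492) (.e (nat_lit 1256) (nat_lit 92) (.e (nat_lit 98372) (nat_lit 29) (.e (nat_lit 450588) (nat_lit 10) (.e (nat_lit 573471) (nat_lit 11) .nil)))) .nil)) 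
(.lf (nat_lit 47477) (.g (nat_lit 913) (.e (nat_lit 1256) (nat_lit 92) (.e (nat_lit 98373) (nat_lit 29) (.e (nat_lit 450585) (nat_lit 10) .nil))) .nil))))) (.nd (nat_lit 4) (.nd (nat_lit 5) (.nd (nat_lit 6) 
(.lf (nat_lit 47373) (.g (nat_lit 1749) (.e (nat_lit 1256) (nat_lit 92) (.e (nat_lit 98372) (nat_lit 29) (.e (nat_lit 450586) (nat_lit 10) (.e (nat_lit 573473) (nat_lit 12) (.e (nat_lit 57348) (nat_lit 0) (.e (nat_lit 7265) (nat_lit 384) (.e (nat_lit 57347) (nat_lit 0) (.e (nat_lit 7936) (nat_lit 343) .nil)))))))) (.g (nat_lit 4) .nil .nil))) 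
(.lf (nat_lit 47437) (.g (nat_lit 2271) (.e (nat_lit 1256) (nat_lit 92) (.e (nat_lit 98373) (nat_lit 29) (.e (nat_lit 450563) (nat_lit 0) (.e (nat_lit 4291) (nat_lit 254) .nil)))) .nil))) (.nd (nat_lit 6) 
(.lf (nat_lit 47405) (.g (nat_lit 3037) (.e (nat_lit 1256) (nat_lit 92) (.e (nat_lit 98372) (nat_lit 29) (.e (nat_lit 450588) (nat_lit 10) (.e (nat_lit 573452) (nat_lit 9) (.e (nat_lit 7936) (nat_lit 33) .nil))))) .nil)) 
(.lf (nat_lit 47469) (.g (nat_lit 3303) (.e (nat_lit 1256) (nat_lit 92) (.e (nat_lit 98373) (nat_lit 29) (.e (nat_lit 450581) (nat_lit 5) (.e (nat_lit 532523) (nat_lit 7) (.e (nat_lit 319504) (nat_lit 10) (.e (nat_lit 5271) (nat_lit 298) .nil)))))) (.g (nat_lit 5) .nil .nil))))) (.nd (nat_lit 5) (.nd (nat_lit 6) 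
(.lf (nat_lit 47389) (.g (nat_lit 3166) (.e (nat_lit 1256) (nat_lit 92) (.e (nat_lit 98372) (nat_lit 29) (.e (nat_lit 450588) (nat_lit 10) (.e (nat_lit 573452) (nat_lit 9) (.e (nat_lit 16) (nat_lit 0) (.e (nat_lit 7087) (nat_lit 379) (.e (nat_lit 123202) (nat_lit 270) .nil))))))) (.g (nat_lit 4) .nil .nil))) 
(.lf (nat_lit 47453) (.g (nat_lit 2969) (.e (nat_lit 1256) (nat_lit 92) (.e (nat_lit 98373) (nat_lit 29) (.e (nat_lit 450579) (nat_lit 5) (.e (nat_lit 532523) (nat_lit 7) (.e (nat_lit 319504) (nat_lit 10) (.e (nat_lit 5245) (nat_lit 298) .nil)))))) (.g (nat_lit 5) .nil .nil)))) (.nd (nat_lit 6) 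
(.lf (nat_lit 47421) (.g (nat_lit 3402) (.e (nat_lit 1256) (nat_lit 92) (.e (nat_lit 98372) (nat_lit 29) (.e (nat_lit 450588) (nat_lit 10) (.e (nat_lit 573471) (nat_lit 11) (.e (nat_lit 16399) (nat_lit 0) .nil))))) .nil)) 
(.lf (nat_lit 47485) (.g (nat_lit 2147) (.e (nat_lit 1256) (nat_lit 92) (.e (nat_lit 98373) (nat_lit 29) (.e (nat_lit 450586) (nat_lit 10) (.e (nat_lit 573471) (nat_lit 11) (.e (nat_lit 16388) (nat_lit 0) .nil))))) .nil))))))) (.nd (nat_lit 2) (.nd (nat_lit 3) (.nd (nat_lit 4) (.nd (nat_lit 5) (.nd (nat_lit 6) 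
(.lf (nat_lit 47363) (.g (nat_lit 2259) (.e (nat_lit 1256) (nat_lit 92) (.e (nat_lit 98372) (nat_lit 29) (.e (nat_lit 450586) (nat_lit 10) (.e (nat_lit 573470) (nat_lit 11) (.e (nat_lit 16387) (nat_lit 0) (.e (nat_lit 7486) (nat_lit 402) .nil)))))) (.g (nat_lit 6) .nil .nil))) 
(.lf (nat_lit 47427) (.g (nat_lit 1832) (.e (nat_lit 1256) (nat_lit 92) (.e (nat_lit 98373) (nat_lit 29) (.e (nat_lit 450562) (nat_lit 0) (.e (nat_lit 4284) (nat_lit 253) .nil)))) .nil))) (.nd (nat_lit 6) 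
(.lf (nat_lit 47395) (.g (nat_lit 3234) (.e (nat_lit 1256) (nat_lit 92) (.e (nat_lit 98372) (nat_lit 29) (.e (nat_lit 450588) (nat_lit 10) (.e (nat_lit 573452) (nat_lit 9) (.e (nat_lit 365) (nat_lit 31) (.e (nat_lit 417795) (nat_lit 0) (.e (nat_lit 5271) (nat_lit 298) .nil))))))) (.g (nat_lit 4) .nil .nil))) 
(.lf (nat_lit 47459) (.g (nat_lit 3444) (.e (nat_lit 1256) (nat_lit 92) (.e (nat_lit 98373) (nat_lit 29) (.e (nat_lit 450580) (nat_lit 5) (.e (nat_lit 532523) (nat_lit 7) (.e (nat_lit 319504) (nat_lit 10) (.e (nat_lit 5271) (nat_lit 298) .nil)))))) (.g (nat_lit 5) .nil .nil))))) (.nd (nat_lit 5) (.nd (nat_lit 6) 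
(.lf (nat_lit 47379) (.g (nat_lit 2209) (.e (nat_lit 1256) (nat_lit 92) (.e (nat_lit 98372) (nat_lit 29) (.e (nat_lit 450588) (nat_lit 10) (.e (nat_lit 573450) (nat_lit 9) .nil)))) .nil)) 
(.lf (nat_lit 47443) (.g (nat_lit 2667) (.e (nat_lit 1256) (nat_lit 92) (.e (nat_lit 98373) (nat_lit 29) (.e (nat_lit 450563) (nat_lit 0) (.e (nat_lit 6420) (nat_lit 341) (.e (nat_lit 163885) (nat_lit 5) (.e (nat_lit 221219) (nat_lit 24) (.e (nat_lit 220928) (nat_lit 0) .nil))))))) (.g (nat_lit 4) .nil .nil)))) (.nd (nat_lit 6) 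
(.lf (nat_lit 47411) (.g (nat_lit 3069) (.e (nat_lit 1256) (nat_lit 92) (.e (nat_lit 98372) (nat_lit 29) (.e (nat_lit 450588) (nat_lit 10) (.e (nat_lit 573470) (nat_lit 11) (.e (nat_lit 16387) (nat_lit 0) .nil))))) .nil)) 
(.lf (nat_lit 47475) (.g (nat_lit 1885) (.e (nat_lit 1256) (nat_lit 92) (.e (nat_lit 98373) (nat_lit 29) (.e (nat_lit 450583) (nat_lit 7) (.e (nat_lit 548898) (nat_lit 14) (.e (nat_lit 2825) (nat_lit 182) .nil))))) .nil))))) (.nd (nat_lit 4) (.nd (nat_lit 5) (.nd (nat_lit 6) 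
(.lf (nat_lit 47371) (.g (nat_lit 1628) (.e (nat_lit 1256) (nat_lit 92) (.e (nat_lit 98372) (nat_lit 29) (.e (nat_lit 450586) (nat_lit 10) (.e (nat_lit 573471) (nat_lit 11) (.e (nat_lit 16389) (nat_lit 0) .nil))))) .nil)) 
(.lf (nat_lit 47435) (.g (nat_lit 2126) (.e (nat_lit 1256) (nat_lit 92) (.e (nat_lit 98373) (nat_lit 29) (.e (nat_lit 450563) (nat_lit 0) (.e (nat_lit 3948) (nat_lit 239) .nil)))) .nil))) (.nd (nat_lit 6) 
(.lf (nat_lit 47403) (.g (nat_lit 3370) (.e (nat_lit 1256) (nat_lit 92) (.e (nat_lit 98372) (nat_lit 29) (.e (nat_lit 450588) (nat_lit 10) (.e (nat_lit 573452) (nat_lit 9) (.e (nat_lit 430) (nat_lit 32) (.e (nat_lit 426012) (nat_lit 0) (.e (nat_lit 7490) (nat_lit 402) .nil))))))) (.g (nat_lit 4) .nil .nil))) 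
(.lf (nat_lit 47467) (.g (nat_lit 3516) (.e (nat_lit 1256) (nat_lit 92) (.e (nat_lit 98373) (nat_lit 29) (.e (nat_lit 450581) (nat_lit 5) (.e (nat_lit 532523) (nat_lit 7) (.e (nat_lit 319504) (nat_lit 10) (.e (nat_lit 5245) (nat_lit 298) .nil)))))) (.g (nat_lit 5) .nil .nil))))) (.nd (nat_lit 5) (.nd (nat_lit 6) 
(.lf (nat_lit 47387) (.g (nat_lit 3023) (.e (nat_lit 1256) (nat_lit 92) (.e (nat_lit 98372) (nat_lit 29) (.e (nat_lit 450588) (nat_lit 10) (.e (nat_lit 573452) (nat_lit 9) (.e (nat_lit 13) (nat_lit 0) .nil))))) .nil)) 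
(.lf (nat_lit 47451) (.g (nat_lit 497) (.e (nat_lit 1256) (nat_lit 92) (.e (nat_lit 98373) (nat_lit 29) (.e (nat_lit 450579) (nat_lit 5) .nil))) .nil))) (.nd (nat_lit 6) 
(.lf (nat_lit 47419) (.g (nat_lit 3684) (.e (nat_lit 1256) (nat_lit 92) (.e (nat_lit 98372) (nat_lit 29) (.e (nat_lit 450588) (nat_lit 10) (.e (nat_lit 573471) (nat_lit 11) (.e (nat_lit 16388) (nat_lit 0) (.e (nat_lit 7490) (nat_lit 402) .nil)))))) (.g (nat_lit 0) .nil .nil))) 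
(.lf (nat_lit 47483) (.g (nat_lit 1225) (.e (nat_lit 1256) (nat_lit 92) (.e (nat_lit 98373) (nat_lit 29) (.e (nat_lit 450586) (nat_lit 10) (.e (nat_lit 573452) (nat_lit 9) .nil)))) .nil)))))) (.nd (nat_lit 3) (.nd (nat_lit 4) (.nd (nat_lit 5) (.nd (nat_lit 6) 
(.lf (nat_lit 47367) (.g (nat_lit 1388) (.e (nat_lit 1256) (nat_lit 92) (.e (nat_lit 98372) (nat_lit 29) (.e (nat_lit 450586) (nat_lit 10) (.e (nat_lit 573471) (nat_lit 11) (.e (nat_lit 16386) (nat_lit 0) .nil))))) .nil)) 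
(.lf (nat_lit 47431) (.g (nat_lit 1401) (.e (nat_lit 1256) (nat_lit 92) (.e (nat_lit 98373) (nat_lit 29) (.e (nat_lit 450562) (nat_lit 0) (.e (nat_lit 6416) (nat_lit 341) .nil)))) .nil))) (.nd (nat_lit 6) 
(.lf (nat_lit 47399) (.g (nat_lit 3018) (.e (nat_lit 1256) (nat_lit 92) (.e (nat_lit 98372) (nat_lit 29) (.e (nat_lit 450588) (nat_lit 10) (.e (nat_lit 573452) (nat_lit 9) (.e (nat_lit 430) (nat_lit 32) (.e (nat_lit 426009) (nat_lit 0) (.e (nat_lit 7490) (nat_lit 402) .nil))))))) (.g (nat_lit 4) .nil .nil))) 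
(.lf (nat_lit 47463) (.g (nat_lit 2898) (.e (nat_lit 1256) (nat_lit 92) (.e (nat_lit 98373) (nat_lit 29) (.e (nat_lit 450580) (nat_lit 5) (.e (nat_lit 532523) (nat_lit 7) (.e (nat_lit 319505) (nat_lit 10) (.e (nat_lit 7936) (nat_lit 298) .nil)))))) (.g (nat_lit 4) .nil .nil))))) (.nd (nat_lit 5) (.nd (nat_lit 6) 
(.lf (nat_lit 47383) (.g (nat_lit 4307) (.e (nat_lit 1256) (nat_lit 92) (.e (nat_lit 98372) (nat_lit 29) (.e (nat_lit 450588) (nat_lit 10) (.e (nat_lit 573451) (nat_lit 9) (.e (nat_lit 16) (nat_lit 0) .nil))))) .nil)) 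
(.lf (nat_lit 47447) (.g (nat_lit 957) (.e (nat_lit 1256) (nat_lit 92) (.e (nat_lit 98373) (nat_lit 29) (.e (nat_lit 450575) (nat_lit 1) .nil))) .nil))) (.nd (nat_lit 6) 
(.lf (nat_lit 47415) (.g (nat_lit 3280) (.e (nat_lit 1256) (nat_lit 92) (.e (nat_lit 98372) (nat_lit 29) (.e (nat_lit 450588) (nat_lit 10) (.e (nat_lit 573471) (nat_lit 11) (.e (nat_lit 16386) (nat_lit 0) .nil))))) .nil)) 
(.lf (nat_lit 47479) (.g (nat_lit 2016) (.e (nat_lit 1256) (nat_lit 92) (.e (nat_lit 98373) (nat_lit 29) (.e (nat_lit 450585) (nat_lit 10) (.e (nat_lit 573471) (nat_lit 11) .nil)))) .nil))))) (.nd (nat_lit 4) (.nd (nat_lit 5) (.nd (nat_lit 6) 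
(.lf (nat_lit 47375) (.g (nat_lit 1861) (.e (nat_lit 1256) (nat_lit 92) (.e (nat_lit 98372) (nat_lit 29) (.e (nat_lit 450586) (nat_lit 10) (.e (nat_lit 573475) (nat_lit 12) (.e (nat_lit 57351) (nat_lit 0) .nil))))) .nil)) 
(.lf (nat_lit 47439) (.g (nat_lit 2350) (.e (nat_lit 1256) (nat_lit 92) (.e (nat_lit 98373) (nat_lit 29) (.e (nat_lit 450563) (nat_lit 0) (.e (nat_lit 6416) (nat_lit 341) (.e (nat_lit 163885) (nat_lit 5) .nil))))) .nil))) (.nd (nat_lit 6) 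
(.lf (nat_lit 47407) (.g (nat_lit 2327) (.e (nat_lit 1256) (nat_lit 92) (.e (nat_lit 98372) (nat_lit 29) (.e (nat_lit 450588) (nat_lit 10) (.e (nat_lit 573457) (nat_lit 9) .nil)))) .nil)) 
(.lf (nat_lit 47471) (.g (nat_lit 3044) (.e (nat_lit 1256) (nat_lit 92) (.e (nat_lit 98373) (nat_lit 29) (.e (nat_lit 450581) (nat_lit 5) (.e (nat_lit 532523) (nat_lit 7) (.e (nat_lit 319504) (nat_lit 10) (.e (nat_lit 7936) (nat_lit 298) .nil)))))) (.g (nat_lit 5) .nil .nil))))) (.nd (nat_lit 5) (.nd (nat_lit 6) 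
(.lf (nat_lit 47391) (.g (nat_lit 3185) (.e (nat_lit 1256) (nat_lit 92) (.e (nat_lit 98372) (nat_lit 29) (.e (nat_lit 450588) (nat_lit 10) (.e (nat_lit 573452) (nat_lit 9) (.e (nat_lit 16) (nat_lit 0) (.e (nat_lit 7089) (nat_lit 379) (.e (nat_lit 123202) (nat_lit 270) .nil))))))) (.g (nat_lit 4) .nil .nil))) 
(.lf (nat_lit 47455) (.g (nat_lit 2851) (.e (nat_lit 1256) (nat_lit 92) (.e (nat_lit 98373) (nat_lit 29) (.e (nat_lit 450579) (nat_lit 5) (.e (nat_lit 532523) (nat_lit 7) (.e (nat_lit 319504) (nat_lit 10) (.e (nat_lit 5272) (nat_lit 298) .nil)))))) (.g (nat_lit 5) .nil .nil)))) (.nd (nat_lit 6) 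
(.lf (nat_lit 47423) (.g (nat_lit 566) (.e (nat_lit 1256) (nat_lit 92) (.e (nat_lit 98372) (nat_lit 29) (.e (nat_lit 450604) (nat_lit 22) .nil))) .nil)) 
(.lf (nat_lit 47487) (.g (nat_lit 2815) (.e (nat_lit 1256) (nat_lit 92) (.e (nat_lit 98373) (nat_lit 29) (.e (nat_lit 450587) (nat_lit 10) (.e (nat_lit 573448) (nat_lit 9) (.e (nat_lit 473) (nat_lit 36) (.e (nat_lit 466688) (nat_lit 0) .nil)))))) (.g (nat_lit 4) .nil .nil))))))))))

noncomputable def tv660 : DT := (.nd (nat_lit 0) (.nd (nat_lit 1) (.nd (nat_lit 2) (.nd (nat_lit 3) (.nd (nat_lit 4) (.nd (nat_lit 5) 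
(.lf (nat_lit 47488) (.g (nat_lit 3969) (.e (nat_lit 1256) (nat_lit 92) (.e (nat_lit 98373) (nat_lit 29) (.e (nat_lit 450587) (nat_lit 10) (.e (nat_lit 573449) (nat_lit 9) .nil)))) .nil)) 
(.lf (nat_lit 47520) (.g (nat_lit 1668) (.e (nat_lit 1256) (nat_lit 92) (.e (nat_lit 98373) (nat_lit 29) (.e (nat_lit 450587) (nat_lit 10) (.e (nat_lit 573469) (nat_lit 11) .nil)))) .nil))) (.nd (nat_lit 5) 
(.lf (nat_lit 47504) (.g (nat_lit 1866) (.e (nat_lit 1256) (nat_lit 92) (.e (nat_lit 98373) (nat_lit 29) (.e (nat_lit 450587) (nat_lit 10) (.e (nat_lit 573456) (nat_lit 9) (.e (nat_lit 365) (nat_lit 31) .nil))))) .nil)) 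
(.lf (nat_lit 47536) (.g (nat_lit 2834) (.e (nat_lit 1256) (nat_lit 92) (.e (nat_lit 98373) (nat_lit 29) (.e (nat_lit 450588) (nat_lit 10) (.e (nat_lit 573449) (nat_lit 9) (.e (nat_lit 471) (nat_lit 36) .nil))))) .nil)))) (.nd (nat_lit 4) (.nd (nat_lit 5) 
(.lf (nat_lit 47496) (.g (nat_lit 2412) (.e (nat_lit 1256) (nat_lit 92) (.e (nat_lit 98373) (nat_lit 29) (.e (nat_lit 450587) (nat_lit 10) (.e (nat_lit 573454) (nat_lit 9) (.e (nat_lit 7936) (nat_lit 33) .nil))))) .nil)) 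
(.lf (nat_lit 47528) (.g (nat_lit 2983) (.e (nat_lit 1256) (nat_lit 92) (.e (nat_lit 98373) (nat_lit 29) (.e (nat_lit 450587) (nat_lit 10) (.e (nat_lit 573477) (nat_lit 12) (.e (nat_lit 57353) (nat_lit 0) (.e (nat_lit 7265) (nat_lit 384) (.e (nat_lit 57347) (nat_lit 0) (.e (nat_lit 7936) (nat_lit 343) .nil)))))))) (.g (nat_lit 6) .nil .nil)))) (.nd (nat_lit 5) 
(.lf (nat_lit 47512) (.g (nat_lit 2914) (.e (nat_lit 1256) (nat_lit 92) (.e (nat_lit 98373) (nat_lit 29) (.e (nat_lit 450587) (nat_lit 10) (.e (nat_lit 573457) (nat_lit 9) (.e (nat_lit 16) (nat_lit 0) (.e (nat_lit 7089) (nat_lit 379) (.e (nat_lit 123202) (nat_lit 270) .nil))))))) (.g (nat_lit 0) .nil .nil))) 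
(.lf (nat_lit 47544) (.g (nat_lit 2773) (.e (nat_lit 1256) (nat_lit 92) (.e (nat_lit 98373) (nat_lit 29) (.e (nat_lit 450588) (nat_lit 10) (.e (nat_lit 573451) (nat_lit 9) .nil)))) .nil))))) (.nd (nat_lit 3) (.nd (nat_lit 4) (.nd (nat_lit 5) 
(.lf (nat_lit 47492) (.g (nat_lit 2412) (.e (nat_lit 1256) (nat_lit 92) (.e (nat_lit 98373) (nat_lit 29) (.e (nat_lit 450587) (nat_lit 10) (.e (nat_lit 573454) (nat_lit 9) (.e (nat_lit 7936) (nat_lit 30) .nil))))) .nil)) 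
(.lf (nat_lit 47524) (.g (nat_lit 3316) (.e (nat_lit 1256) (nat_lit 92) (.e (nat_lit 98373) (nat_lit 29) (.e (nat_lit 450587) (nat_lit 10) (.e (nat_lit 573471) (nat_lit 11) .nil)))) .nil))) (.nd (nat_lit 5) 
(.lf (nat_lit 47508) (.g (nat_lit 2759) (.e (nat_lit 1256) (nat_lit 92) (.e (nat_lit 98373) (nat_lit 29) (.e (nat_lit 450587) (nat_lit 10) (.e (nat_lit 573456) (nat_lit 9) (.e (nat_lit 428) (nat_lit 32) (.e (nat_lit 425989) (nat_lit 0) (.e (nat_lit 7489) (nat_lit 402) .nil))))))) (.g (nat_lit 4) .nil .nil))) 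
(.lf (nat_lit 47540) (.g (nat_lit 2417) (.e (nat_lit 1256) (nat_lit 92) (.e (nat_lit 98373) (nat_lit 29) (.e (nat_lit 450588) (nat_lit 10) (.e (nat_lit 573450) (nat_lit 9) (.e (nat_lit 433) (nat_lit 32) .nil))))) .nil)))) (.nd (nat_lit 4) (.nd (nat_lit 5) 
(.lf (nat_lit 47500) (.g (nat_lit 3799) (.e (nat_lit 1256) (nat_lit 92) (.e (nat_lit 98373) (nat_lit 29) (.e (nat_lit 450587) (nat_lit 10) (.e (nat_lit 573455) (nat_lit 9) .nil)))) .nil)) 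
(.lf (nat_lit 47532) (.g (nat_lit 1933) (.e (nat_lit 1256) (nat_lit 92) (.e (nat_lit 98373) (nat_lit 29) (.e (nat_lit 450588) (nat_lit 10) (.e (nat_lit 573449) (nat_lit 9) .nil)))) .nil))) (.nd (nat_lit 5) 
(.lf (nat_lit 47516) (.g (nat_lit 2097) (.e (nat_lit 1256) (nat_lit 92) (.e (nat_lit 98373) (nat_lit 29) (.e (nat_lit 450587) (nat_lit 10) (.e (nat_lit 573457) (nat_lit 9) (.e (nat_lit 7936) (nat_lit 36) (.e (nat_lit 466688) (nat_lit 0) .nil)))))) (.g (nat_lit 4) .nil .nil))) 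
(.lf (nat_lit 47548) (.g (nat_lit 4301) (.e (nat_lit 1256) (nat_lit 92) (.e (nat_lit 98373) (nat_lit 29) (.e (nat_lit 450588) (nat_lit 10) (.e (nat_lit 573451) (nat_lit 9) (.e (nat_lit 16) (nat_lit 0) (.e (nat_lit 7087) (nat_lit 379) (.e (nat_lit 123202) (nat_lit 270) .nil))))))) (.g (nat_lit 4) .nil .nil))))))) (.nd (nat_lit 2) (.nd (nat_lit 3) (.nd (nat_lit 4) (.nd (nat_lit 5) 
(.lf (nat_lit 47490) (.g (nat_lit 2363) (.e (nat_lit 1256) (nat_lit 92) (.e (nat_lit 98373) (nat_lit 29) (.e (nat_lit 450587) (nat_lit 10) (.e (nat_lit 573454) (nat_lit 9) (.e (nat_lit 4) (nat_lit 0) .nil))))) .nil)) 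
(.lf (nat_lit 47522) (.g (nat_lit 4029) (.e (nat_lit 1256) (nat_lit 92) (.e (nat_lit 98373) (nat_lit 29) (.e (nat_lit 450587) (nat_lit 10) (.e (nat_lit 573469) (nat_lit 11) (.e (nat_lit 16388) (nat_lit 0) (.e (nat_lit 7486) (nat_lit 402) .nil)))))) (.g (nat_lit 0) .nil .nil)))) (.nd (nat_lit 5) 
(.lf (nat_lit 47506) (.g (nat_lit 2548) (.e (nat_lit 1256) (nat_lit 92) (.e (nat_lit 98373) (nat_lit 29) (.e (nat_lit 450587) (nat_lit 10) (.e (nat_lit 573456) (nat_lit 9) (.e (nat_lit 365) (nat_lit 31) (.e (nat_lit 417796) (nat_lit 0) (.e (nat_lit 5258) (nat_lit 298) .nil))))))) (.g (nat_lit 4) .nil .nil))) 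
(.lf (nat_lit 47538) (.g (nat_lit 2805) (.e (nat_lit 1256) (nat_lit 92) (.e (nat_lit 98373) (nat_lit 29) (.e (nat_lit 450588) (nat_lit 10) (.e (nat_lit 573449) (nat_lit 9) (.e (nat_lit 475) (nat_lit 36) .nil))))) .nil)))) (.nd (nat_lit 4) (.nd (nat_lit 5) 
(.lf (nat_lit 47498) (.g (nat_lit 2905) (.e (nat_lit 1256) (nat_lit 92) (.e (nat_lit 98373) (nat_lit 29) (.e (nat_lit 450587) (nat_lit 10) (.e (nat_lit 573454) (nat_lit 9) (.e (nat_lit 472) (nat_lit 36) (.e (nat_lit 466688) (nat_lit 0) .nil)))))) (.g (nat_lit 5) .nil .nil))) 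
(.lf (nat_lit 47530) (.g (nat_lit 2754) (.e (nat_lit 1256) (nat_lit 92) (.e (nat_lit 98373) (nat_lit 29) (.e (nat_lit 450587) (nat_lit 10) (.e (nat_lit 573478) (nat_lit 12) (.e (nat_lit 57353) (nat_lit 0) (.e (nat_lit 7265) (nat_lit 384) (.e (nat_lit 57347) (nat_lit 0) (.e (nat_lit 7936) (nat_lit 343) .nil)))))))) (.g (nat_lit 5) .nil .nil)))) (.nd (nat_lit 5) 
(.lf (nat_lit 47514) (.g (nat_lit 2272) (.e (nat_lit 1256) (nat_lit 92) (.e (nat_lit 98373) (nat_lit 29) (.e (nat_lit 450587) (nat_lit 10) (.e (nat_lit 573457) (nat_lit 9) (.e (nat_lit 365) (nat_lit 31) (.e (nat_lit 417796) (nat_lit 0) (.e (nat_lit 5258) (nat_lit 298) .nil))))))) (.g (nat_lit 4) .nil .nil))) 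
(.lf (nat_lit 47546) (.g (nat_lit 3882) (.e (nat_lit 1256) (nat_lit 92) (.e (nat_lit 98373) (nat_lit 29) (.e (nat_lit 450588) (nat_lit 10) (.e (nat_lit 573451) (nat_lit 9) (.e (nat_lit 13) (nat_lit 0) .nil))))) .nil))))) (.nd (nat_lit 3) (.nd (nat_lit 4) (.nd (nat_lit 5) 
(.lf (nat_lit 47494) (.g (nat_lit 2202) (.e (nat_lit 1256) (nat_lit 92) (.e (nat_lit 98373) (nat_lit 29) (.e (nat_lit 450587) (nat_lit 10) (.e (nat_lit 573454) (nat_lit 9) (.e (nat_lit 397) (nat_lit 32) .nil))))) .nil)) 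
(.lf (nat_lit 47526) (.g (nat_lit 1744) (.e (nat_lit 1256) (nat_lit 92) (.e (nat_lit 98373) (nat_lit 29) (.e (nat_lit 450587) (nat_lit 10) (.e (nat_lit 573477) (nat_lit 12) .nil)))) .nil))) (.nd (nat_lit 5) 
(.lf (nat_lit 47510) (.g (nat_lit 2006) (.e (nat_lit 1256) (nat_lit 92) (.e (nat_lit 98373) (nat_lit 29) (.e (nat_lit 450587) (nat_lit 10) (.e (nat_lit 573456) (nat_lit 9) (.e (nat_lit 7936) (nat_lit 36) (.e (nat_lit 466688) (nat_lit 0) .nil)))))) (.g (nat_lit 4) .nil .nil))) 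
(.lf (nat_lit 47542) (.g (nat_lit 2717) (.e (nat_lit 1256) (nat_lit 92) (.e (nat_lit 98373) (nat_lit 29) (.e (nat_lit 450588) (nat_lit 10) (.e (nat_lit 573450) (nat_lit 9) (.e (nat_lit 452) (nat_lit 33) .nil))))) .nil)))) (.nd (nat_lit 4) (.nd (nat_lit 5) 
(.lf (nat_lit 47502) (.g (nat_lit 1765) (.e (nat_lit 1256) (nat_lit 92) (.e (nat_lit 98373) (nat_lit 29) (.e (nat_lit 450587) (nat_lit 10) (.e (nat_lit 573456) (nat_lit 9) (.e (nat_lit 7936) (nat_lit 0) .nil))))) .nil)) 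
(.lf (nat_lit 47534) (.g (nat_lit 3240) (.e (nat_lit 1256) (nat_lit 92) (.e (nat_lit 98373) (nat_lit 29) (.e (nat_lit 450588) (nat_lit 10) (.e (nat_lit 573449) (nat_lit 9) (.e (nat_lit 359) (nat_lit 30) (.e (nat_lit 409605) (nat_lit 0) (.e (nat_lit 5270) (nat_lit 298) .nil))))))) (.g (nat_lit 4) .nil .nil)))) (.nd (nat_lit 5) 
(.lf (nat_lit 47518) (.g (nat_lit 4507) (.e (nat_lit 1256) (nat_lit 92) (.e (nat_lit 98373) (nat_lit 29) (.e (nat_lit 450587) (nat_lit 10) (.e (nat_lit 573463) (nat_lit 9) .nil)))) .nil)) 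
(.lf (nat_lit 47550) (.g (nat_lit 4320) (.e (nat_lit 1256) (nat_lit 92) (.e (nat_lit 98373) (nat_lit 29) (.e (nat_lit 450588) (nat_lit 10) (.e (nat_lit 573451) (nat_lit 9) (.e (nat_lit 16) (nat_lit 0) (.e (nat_lit 7089) (nat_lit 379) (.e (nat_lit 123202) (nat_lit 270) .nil))))))) (.g (nat_lit 4) .nil .nil)))))))) (.nd (nat_lit 1) (.nd (nat_lit 2) (.nd (nat_lit 3) (.nd (nat_lit 4) (.nd (nat_lit 5) 
(.lf (nat_lit 47489) (.g (nat_lit 1465) (.e (nat_lit 1256) (nat_lit 92) (.e (nat_lit 98373) (nat_lit 29) (.e (nat_lit 450587) (nat_lit 10) (.e (nat_lit 573454) (nat_lit 9) .nil)))) .nil)) 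
(.lf (nat_lit 47521) (.g (nat_lit 3035) (.e (nat_lit 1256) (nat_lit 92) (.e (nat_lit 98373) (nat_lit 29) (.e (nat_lit 450587) (nat_lit 10) (.e (nat_lit 573469) (nat_lit 11) (.e (nat_lit 16387) (nat_lit 0) .nil))))) .nil))) (.nd (nat_lit 5) 
(.lf (nat_lit 47505) (.g (nat_lit 2362) (.e (nat_lit 1256) (nat_lit 92) (.e (nat_lit 98373) (nat_lit 29) (.e (nat_lit 450587) (nat_lit 10) (.e (nat_lit 573456) (nat_lit 9) (.e (nat_lit 365) (nat_lit 31) (.e (nat_lit 417795) (nat_lit 0) (.e (nat_lit 5258) (nat_lit 298) .nil))))))) (.g (nat_lit 4) .nil .nil))) 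
(.lf (nat_lit 47537) (.g (nat_lit 3280) (.e (nat_lit 1256) (nat_lit 92) (.e (nat_lit 98373) (nat_lit 29) (.e (nat_lit 450588) (nat_lit 10) (.e (nat_lit 573449) (nat_lit 9) (.e (nat_lit 473) (nat_lit 36) (.e (nat_lit 466688) (nat_lit 0) .nil)))))) (.g (nat_lit 5) .nil .nil))))) (.nd (nat_lit 4) (.nd (nat_lit 5) 
(.lf (nat_lit 47497) (.g (nat_lit 2481) (.e (nat_lit 1256) (nat_lit 92) (.e (nat_lit 98373) (nat_lit 29) (.e (nat_lit 450587) (nat_lit 10) (.e (nat_lit 573454) (nat_lit 9) (.e (nat_lit 470) (nat_lit 36) (.e (nat_lit 466688) (nat_lit 0) .nil)))))) (.g (nat_lit 4) .nil .nil))) 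
(.lf (nat_lit 47529) (.g (nat_lit 1731) (.e (nat_lit 1256) (nat_lit 92) (.e (nat_lit 98373) (nat_lit 29) (.e (nat_lit 450587) (nat_lit 10) (.e (nat_lit 573478) (nat_lit 12) .nil)))) .nil))) (.nd (nat_lit 5) 
(.lf (nat_lit 47513) (.g (nat_lit 2110) (.e (nat_lit 1256) (nat_lit 92) (.e (nat_lit 98373) (nat_lit 29) (.e (nat_lit 450587) (nat_lit 10) (.e (nat_lit 573457) (nat_lit 9) (.e (nat_lit 365) (nat_lit 31) (.e (nat_lit 417795) (nat_lit 0) (.e (nat_lit 5258) (nat_lit 298) .nil))))))) (.g (nat_lit 4) .nil .nil))) 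
(.lf (nat_lit 47545) (.g (nat_lit 3910) (.e (nat_lit 1256) (nat_lit 92) (.e (nat_lit 98373) (nat_lit 29) (.e (nat_lit 450588) (nat_lit 10) (.e (nat_lit 573451) (nat_lit 9) (.e (nat_lit 11) (nat_lit 0) .nil))))) .nil))))) (.nd (nat_lit 3) (.nd (nat_lit 4) (.nd (nat_lit 5) 
(.lf (nat_lit 47493) (.g (nat_lit 2541) (.e (nat_lit 1256) (nat_lit 92) (.e (nat_lit 98373) (nat_lit 29) (.e (nat_lit 450587) (nat_lit 10) (.e (nat_lit 573454) (nat_lit 9) (.e (nat_lit 385) (nat_lit 32) .nil))))) .nil)) 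
(.lf (nat_lit 47525) (.g (nat_lit 4124) (.e (nat_lit 1256) (nat_lit 92) (.e (nat_lit 98373) (nat_lit 29) (.e (nat_lit 450587) (nat_lit 10) (.e (nat_lit 573475) (nat_lit 12) .nil)))) .nil))) (.nd (nat_lit 5) 
(.lf (nat_lit 47509) (.g (nat_lit 2731) (.e (nat_lit 1256) (nat_lit 92) (.e (nat_lit 98373) (nat_lit 29) (.e (nat_lit 450587) (nat_lit 10) (.e (nat_lit 573456) (nat_lit 9) (.e (nat_lit 428) (nat_lit 32) (.e (nat_lit 425990) (nat_lit 0) (.e (nat_lit 7489) (nat_lit 402) .nil))))))) (.g (nat_lit 4) .nil .nil))) 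
(.lf (nat_lit 47541) (.g (nat_lit 2750) (.e (nat_lit 1256) (nat_lit 92) (.e (nat_lit 98373) (nat_lit 29) (.e (nat_lit 450588) (nat_lit 10) (.e (nat_lit 573450) (nat_lit 9) (.e (nat_lit 449) (nat_lit 33) .nil))))) .nil)))) (.nd (nat_lit 4) (.nd (nat_lit 5) 
(.lf (nat_lit 47501) (.g (nat_lit 1401) (.e (nat_lit 1256) (nat_lit 92) (.e (nat_lit 98373) (nat_lit 29) (.e (nat_lit 450587) (nat_lit 10) (.e (nat_lit 573456) (nat_lit 9) .nil)))) .nil)) 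
(.lf (nat_lit 47533) (.g (nat_lit 3222) (.e (nat_lit 1256) (nat_lit 92) (.e (nat_lit 98373) (nat_lit 29) (.e (nat_lit 450588) (nat_lit 10) (.e (nat_lit 573449) (nat_lit 9) (.e (nat_lit 359) (nat_lit 30) (.e (nat_lit 409603) (nat_lit 0) (.e (nat_lit 5270) (nat_lit 298) .nil))))))) (.g (nat_lit 4) .nil .nil)))) (.nd (nat_lit 5) 
(.lf (nat_lit 47517) (.g (nat_lit 4614) (.e (nat_lit 1256) (nat_lit 92) (.e (nat_lit 98373) (nat_lit 29) (.e (nat_lit 450587) (nat_lit 10) (.e (nat_lit 573461) (nat_lit 9) .nil)))) .nil)) 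
(.lf (nat_lit 47549) (.g (nat_lit 4343) (.e (nat_lit 1256) (nat_lit 92) (.e (nat_lit 98373) (nat_lit 29) (.e (nat_lit 450588) (nat_lit 10) (.e (nat_lit 573451) (nat_lit 9) (.e (nat_lit 16) (nat_lit 0) (.e (nat_lit 7088) (nat_lit 379) (.e (nat_lit 123202) (nat_lit 270) .nil))))))) (.g (nat_lit 4) .nil .nil))))))) (.nd (nat_lit 2) (.nd (nat_lit 3) (.nd (nat_lit 4) (.nd (nat_lit 5) 
(.lf (nat_lit 47491) (.g (nat_lit 2425) (.e (nat_lit 1256) (nat_lit 92) (.e (nat_lit 98373) (nat_lit 29) (.e (nat_lit 450587) (nat_lit 10) (.e (nat_lit 573454) (nat_lit 9) (.e (nat_lit 70) (nat_lit 0) .nil))))) .nil)) 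
(.lf (nat_lit 47523) (.g (nat_lit 4176) (.e (nat_lit 1256) (nat_lit 92) (.e (nat_lit 98373) (nat_lit 29) (.e (nat_lit 450587) (nat_lit 10) (.e (nat_lit 573470) (nat_lit 11) .nil)))) .nil))) (.nd (nat_lit 5) 
(.lf (nat_lit 47507) (.g (nat_lit 2364) (.e (nat_lit 1256) (nat_lit 92) (.e (nat_lit 98373) (nat_lit 29) (.e (nat_lit 450587) (nat_lit 10) (.e (nat_lit 573456) (nat_lit 9) (.e (nat_lit 428) (nat_lit 32) (.e (nat_lit 425989) (nat_lit 0) (.e (nat_lit 7485) (nat_lit 402) .nil))))))) (.g (nat_lit 4) .nil .nil))) 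
(.lf (nat_lit 47539) (.g (nat_lit 1638) (.e (nat_lit 1256) (nat_lit 92) (.e (nat_lit 98373) (nat_lit 29) (.e (nat_lit 450588) (nat_lit 10) (.e (nat_lit 573450) (nat_lit 9) .nil)))) .nil)))) (.nd (nat_lit 4) (.nd (nat_lit 5) 
(.lf (nat_lit 47499) (.g (nat_lit 2844) (.e (nat_lit 1256) (nat_lit 92) (.e (nat_lit 98373) (nat_lit 29) (.e (nat_lit 450587) (nat_lit 10) (.e (nat_lit 573454) (nat_lit 9) (.e (nat_lit 7936) (nat_lit 36) (.e (nat_lit 466688) (nat_lit 0) .nil)))))) (.g (nat_lit 4) .nil .nil))) 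
(.lf (nat_lit 47531) (.g (nat_lit 2644) (.e (nat_lit 1256) (nat_lit 92) (.e (nat_lit 98373) (nat_lit 29) (.e (nat_lit 450588) (nat_lit 10) (.e (nat_lit 573448) (nat_lit 9) .nil)))) .nil))) (.nd (nat_lit 5) 
(.lf (nat_lit 47515) (.g (nat_lit 1481) (.e (nat_lit 1256) (nat_lit 92) (.e (nat_lit 98373) (nat_lit 29) (.e (nat_lit 450587) (nat_lit 10) (.e (nat_lit 573457) (nat_lit 9) (.e (nat_lit 7936) (nat_lit 32) .nil))))) .nil)) 
(.lf (nat_lit 47547) (.g (nat_lit 4274) (.e (nat_lit 1256) (nat_lit 92) (.e (nat_lit 98373) (nat_lit 29) (.e (nat_lit 450588) (nat_lit 10) (.e (nat_lit 573451) (nat_lit 9) (.e (nat_lit 16) (nat_lit 0) (.e (nat_lit 7086) (nat_lit 379) (.e (nat_lit 123202) (nat_lit 270) .nil))))))) (.g (nat_lit 4) .nil .nil)))))) (.nd (nat_lit 3) (.nd (nat_lit 4) (.nd (nat_lit 5) 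
(.lf (nat_lit 47495) (.g (nat_lit 2412) (.e (nat_lit 1256) (nat_lit 92) (.e (nat_lit 98373) (nat_lit 29) (.e (nat_lit 450587) (nat_lit 10) (.e (nat_lit 573454) (nat_lit 9) (.e (nat_lit 7936) (nat_lit 32) .nil))))) .nil)) 
(.lf (nat_lit 47527) (.g (nat_lit 2496) (.e (nat_lit 1256) (nat_lit 92) (.e (nat_lit 98373) (nat_lit 29) (.e (nat_lit 450587) (nat_lit 10) (.e (nat_lit 573477) (nat_lit 12) (.e (nat_lit 57351) (nat_lit 0) .nil))))) .nil))) (.nd (nat_lit 5) 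
(.lf (nat_lit 47511) (.g (nat_lit 1358) (.e (nat_lit 1256) (nat_lit 92) (.e (nat_lit 98373) (nat_lit 29) (.e (nat_lit 450587) (nat_lit 10) (.e (nat_lit 573457) (nat_lit 9) .nil)))) .nil)) 
(.lf (nat_lit 47543) (.g (nat_lit 3006) (.e (nat_lit 1256) (nat_lit 92) (.e (nat_lit 98373) (nat_lit 29) (.e (nat_lit 450588) (nat_lit 10) (.e (nat_lit 573450) (nat_lit 9) (.e (nat_lit 473) (nat_lit 36) (.e (nat_lit 466688) (nat_lit 0) .nil)))))) (.g (nat_lit 5) .nil .nil))))) (.nd (nat_lit 4) (.nd (nat_lit 5) 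
(.lf (nat_lit 47503) (.g (nat_lit 2286) (.e (nat_lit 1256) (nat_lit 92) (.e (nat_lit 98373) (nat_lit 29) (.e (nat_lit 450587) (nat_lit 10) (.e (nat_lit 573456) (nat_lit 9) (.e (nat_lit 359) (nat_lit 30) .nil))))) .nil)) 
(.lf (nat_lit 47535) (.g (nat_lit 2831) (.e (nat_lit 1256) (nat_lit 92) (.e (nat_lit 98373) (nat_lit 29) (.e (nat_lit 450588) (nat_lit 10) (.e (nat_lit 573449) (nat_lit 9) (.e (nat_lit 450) (nat_lit 33) .nil))))) .nil))) (.nd (nat_lit 5) 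
(.lf (nat_lit 47519) (.g (nat_lit 4456) (.e (nat_lit 1256) (nat_lit 92) (.e (nat_lit 98373) (nat_lit 29) (.e (nat_lit 450587) (nat_lit 10) (.e (nat_lit 573465) (nat_lit 9) .nil)))) .nil)) 
(.lf (nat_lit 47551) (.g (nat_lit 4345) (.e (nat_lit 1256) (nat_lit 92) (.e (nat_lit 98373) (nat_lit 29) (.e (nat_lit 450588) (nat_lit 10) (.e (nat_lit 573451) (nat_lit 9) (.e (nat_lit 62) (nat_lit 0) .nil))))) .nil))))))))

noncomputable def tv661 : DT := (.nd (nat_lit 0) (.nd (nat_lit 1) (.nd (nat_lit 2) (.nd (nat_lit 3) (.nd (nat_lit 4) (.nd (nat_lit 5) 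
(.lf (nat_lit 47552) (.g (nat_lit 3889) (.e (nat_lit 1256) (nat_lit 92) (.e (nat_lit 98373) (nat_lit 29) (.e (nat_lit 450588) (nat_lit 10) (.e (nat_lit 573451) (nat_lit 9) (.e (nat_lit 365) (nat_lit 31) .nil))))) .nil)) 
(.lf (nat_lit 47584) (.g (nat_lit 3786) (.e (nat_lit 1256) (nat_lit 92) (.e (nat_lit 98373) (nat_lit 29) (.e (nat_lit 450588) (nat_lit 10) (.e (nat_lit 573470) (nat_lit 11) (.e (nat_lit 16388) (nat_lit 0) (.e (nat_lit 7486) (nat_lit 402) .nil)))))) (.g (nat_lit 0) .nil .nil)))) (.nd (nat_lit 5) 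
(.lf (nat_lit 47568) (.g (nat_lit 2000) (.e (nat_lit 1256) (nat_lit 92) (.e (nat_lit 98373) (nat_lit 29) (.e (nat_lit 450588) (nat_lit 10) (.e (nat_lit 573454) (nat_lit 9) .nil)))) .nil)) 
(.lf (nat_lit 47600) (.g (nat_lit 2998) (.e (nat_lit 1256) (nat_lit 92) (.e (nat_lit 98373) (nat_lit 29) (.e (nat_lit 450588) (nat_lit 10) (.e (nat_lit 573471) (nat_lit 11) (.e (nat_lit 16397) (nat_lit 0) .nil))))) .nil)))) (.nd (nat_lit 4) (.nd (nat_lit 5) 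
(.lf (nat_lit 47560) (.g (nat_lit 2177) (.e (nat_lit 1256) (nat_lit 92) (.e (nat_lit 98373) (nat_lit 29) (.e (nat_lit 450588) (nat_lit 10) (.e (nat_lit 573452) (nat_lit 9) (.e (nat_lit 7936) (nat_lit 0) .nil))))) .nil)) 
(.lf (nat_lit 47592) (.g (nat_lit 3819) (.e (nat_lit 1256) (nat_lit 92) (.e (nat_lit 98373) (nat_lit 29) (.e (nat_lit 450588) (nat_lit 10) (.e (nat_lit 573471) (nat_lit 11) (.e (nat_lit 16388) (nat_lit 0) (.e (nat_lit 7486) (nat_lit 402) .nil)))))) (.g (nat_lit 6) .nil .nil)))) (.nd (nat_lit 5) 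
(.lf (nat_lit 47576) (.g (nat_lit 2867) (.e (nat_lit 1256) (nat_lit 92) (.e (nat_lit 98373) (nat_lit 29) (.e (nat_lit 450588) (nat_lit 10) (.e (nat_lit 573467) (nat_lit 10) .nil)))) .nil)) 
(.lf (nat_lit 47608) (.g (nat_lit 3662) (.e (nat_lit 1256) (nat_lit 92) (.e (nat_lit 98373) (nat_lit 29) (.e (nat_lit 450588) (nat_lit 10) (.e (nat_lit 573473) (nat_lit 12) (.e (nat_lit 57347) (nat_lit 0) .nil))))) .nil))))) (.nd (nat_lit 3) (.nd (nat_lit 4) (.nd (nat_lit 5) 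
(.lf (nat_lit 47556) (.g (nat_lit 3491) (.e (nat_lit 1256) (nat_lit 92) (.e (nat_lit 98373) (nat_lit 29) (.e (nat_lit 450588) (nat_lit 10) (.e (nat_lit 573452) (nat_lit 9) (.e (nat_lit 16) (nat_lit 0) (.e (nat_lit 7089) (nat_lit 379) (.e (nat_lit 123202) (nat_lit 270) .nil))))))) (.g (nat_lit 0) .nil .nil))) 
(.lf (nat_lit 47588) (.g (nat_lit 3015) (.e (nat_lit 1256) (nat_lit 92) (.e (nat_lit 98373) (nat_lit 29) (.e (nat_lit 450588) (nat_lit 10) (.e (nat_lit 573471) (nat_lit 11) (.e (nat_lit 16384) (nat_lit 0) .nil))))) .nil))) (.nd (nat_lit 5) 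
(.lf (nat_lit 47572) (.g (nat_lit 2845) (.e (nat_lit 1256) (nat_lit 92) (.e (nat_lit 98373) (nat_lit 29) (.e (nat_lit 450588) (nat_lit 10) (.e (nat_lit 573458) (nat_lit 9) .nil)))) .nil)) 
(.lf (nat_lit 47604) (.g (nat_lit 3498) (.e (nat_lit 1256) (nat_lit 92) (.e (nat_lit 98373) (nat_lit 29) (.e (nat_lit 450588) (nat_lit 10) (.e (nat_lit 573471) (nat_lit 11) (.e (nat_lit 16401) (nat_lit 0) (.e (nat_lit 7936) (nat_lit 402) .nil)))))) (.g (nat_lit 4) .nil .nil))))) (.nd (nat_lit 4) (.nd (nat_lit 5) 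
(.lf (nat_lit 47564) (.g (nat_lit 2569) (.e (nat_lit 1256) (nat_lit 92) (.e (nat_lit 98373) (nat_lit 29) (.e (nat_lit 450588) (nat_lit 10) (.e (nat_lit 573452) (nat_lit 9) (.e (nat_lit 365) (nat_lit 31) (.e (nat_lit 417795) (nat_lit 0) (.e (nat_lit 5258) (nat_lit 298) .nil))))))) (.g (nat_lit 4) .nil .nil))) 
(.lf (nat_lit 47596) (.g (nat_lit 3201) (.e (nat_lit 1256) (nat_lit 92) (.e (nat_lit 98373) (nat_lit 29) (.e (nat_lit 450588) (nat_lit 10) (.e (nat_lit 573471) (nat_lit 11) (.e (nat_lit 16391) (nat_lit 0) (.e (nat_lit 7936) (nat_lit 402) .nil)))))) (.g (nat_lit 4) .nil .nil)))) (.nd (nat_lit 5) 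
(.lf (nat_lit 47580) (.g (nat_lit 4446) (.e (nat_lit 1256) (nat_lit 92) (.e (nat_lit 98373) (nat_lit 29) (.e (nat_lit 450588) (nat_lit 10) (.e (nat_lit 573469) (nat_lit 11) (.e (nat_lit 16388) (nat_lit 0) (.e (nat_lit 7490) (nat_lit 402) .nil)))))) (.g (nat_lit 6) .nil .nil))) 
(.lf (nat_lit 47612) (.g (nat_lit 4247) (.e (nat_lit 1256) (nat_lit 92) (.e (nat_lit 98373) (nat_lit 29) (.e (nat_lit 450588) (nat_lit 10) (.e (nat_lit 573473) (nat_lit 12) (.e (nat_lit 57348) (nat_lit 0) (.e (nat_lit 7265) (nat_lit 384) (.e (nat_lit 57354) (nat_lit 0) (.e (nat_lit 7936) (nat_lit 343) .nil)))))))) (.g (nat_lit 5) .nil .nil))))))) 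
(.nd (nat_lit 2) (.nd (nat_lit 3) (.nd (nat_lit 4) (.nd (nat_lit 5) 
(.lf (nat_lit 47554) (.g (nat_lit 1616) (.e (nat_lit 1256) (nat_lit 92) (.e (nat_lit 98373) (nat_lit 29) (.e (nat_lit 450588) (nat_lit 10) (.e (nat_lit 573452) (nat_lit 9) .nil)))) .nil)) 
(.lf (nat_lit 47586) (.g (nat_lit 2786) (.e (nat_lit 1256) (nat_lit 92) (.e (nat_lit 98373) (nat_lit 29) (.e (nat_lit 450588) (nat_lit 10) (.e (nat_lit 573470) (nat_lit 11) (.e (nat_lit 16391) (nat_lit 0) .nil))))) .nil))) (.nd (nat_lit 5) 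
(.lf (nat_lit 47570) (.g (nat_lit 2139) (.e (nat_lit 1256) (nat_lit 92) (.e (nat_lit 98373) (nat_lit 29) (.e (nat_lit 450588) (nat_lit 10) (.e (nat_lit 573457) (nat_lit 9) .nil)))) .nil)) 
(.lf (nat_lit 47602) (.g (nat_lit 3553) (.e (nat_lit 1256) (nat_lit 92) (.e (nat_lit 98373) (nat_lit 29) (.e (nat_lit 450588) (nat_lit 10) (.e (nat_lit 573471) (nat_lit 11) (.e (nat_lit 16399) (nat_lit 0) (.e (nat_lit 7936) (nat_lit 402) .nil)))))) (.g (nat_lit 4) .nil .nil))))) (.nd (nat_lit 4) (.nd (nat_lit 5) 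
(.lf (nat_lit 47562) (.g (nat_lit 2177) (.e (nat_lit 1256) (nat_lit 92) (.e (nat_lit 98373) (nat_lit 29) (.e (nat_lit 450588) (nat_lit 10) (.e (nat_lit 573452) (nat_lit 9) (.e (nat_lit 7936) (nat_lit 30) .nil))))) .nil)) 
(.lf (nat_lit 47594) (.g (nat_lit 2822) (.e (nat_lit 1256) (nat_lit 92) (.e (nat_lit 98373) (nat_lit 29) (.e (nat_lit 450588) (nat_lit 10) (.e (nat_lit 573471) (nat_lit 11) (.e (nat_lit 16389) (nat_lit 0) (.e (nat_lit 7936) (nat_lit 402) .nil)))))) (.g (nat_lit 4) .nil .nil)))) (.nd (nat_lit 5) 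
(.lf (nat_lit 47578) (.g (nat_lit 3040) (.e (nat_lit 1256) (nat_lit 92) (.e (nat_lit 98373) (nat_lit 29) (.e (nat_lit 450588) (nat_lit 10) (.e (nat_lit 573469) (nat_lit 11) (.e (nat_lit 16387) (nat_lit 0) .nil))))) .nil)) 
(.lf (nat_lit 47610) (.g (nat_lit 3745) (.e (nat_lit 1256) (nat_lit 92) (.e (nat_lit 98373) (nat_lit 29) (.e (nat_lit 450588) (nat_lit 10) (.e (nat_lit 573473) (nat_lit 12) (.e (nat_lit 57348) (nat_lit 0) (.e (nat_lit 7263) (nat_lit 384) (.e (nat_lit 57354) (nat_lit 0) (.e (nat_lit 7936) (nat_lit 343) .nil)))))))) (.g (nat_lit 4) .nil .nil)))))) (.nd (nat_lit 3) (.nd (nat_lit 4) (.nd (nat_lit 5) 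
(.lf (nat_lit 47558) (.g (nat_lit 2571) (.e (nat_lit 1256) (nat_lit 92) (.e (nat_lit 98373) (nat_lit 29) (.e (nat_lit 450588) (nat_lit 10) (.e (nat_lit 573452) (nat_lit 9) (.e (nat_lit 61) (nat_lit 0) (.e (nat_lit 7087) (nat_lit 379) (.e (nat_lit 123202) (nat_lit 270) .nil))))))) (.g (nat_lit 4) .nil .nil))) 
(.lf (nat_lit 47590) (.g (nat_lit 2405) (.e (nat_lit 1256) (nat_lit 92) (.e (nat_lit 98373) (nat_lit 29) (.e (nat_lit 450588) (nat_lit 10) (.e (nat_lit 573471) (nat_lit 11) (.e (nat_lit 16386) (nat_lit 0) (.e (nat_lit 7936) (nat_lit 402) .nil)))))) (.g (nat_lit 4) .nil .nil)))) (.nd (nat_lit 5) 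
(.lf (nat_lit 47574) (.g (nat_lit 3277) (.e (nat_lit 1256) (nat_lit 92) (.e (nat_lit 98373) (nat_lit 29) (.e (nat_lit 450588) (nat_lit 10) (.e (nat_lit 573464) (nat_lit 9) .nil)))) .nil)) 
(.lf (nat_lit 47606) (.g (nat_lit 3100) (.e (nat_lit 1256) (nat_lit 92) (.e (nat_lit 98373) (nat_lit 29) (.e (nat_lit 450588) (nat_lit 10) (.e (nat_lit 573471) (nat_lit 11) (.e (nat_lit 16403) (nat_lit 0) .nil))))) .nil)))) (.nd (nat_lit 4) (.nd (nat_lit 5) 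
(.lf (nat_lit 47566) (.g (nat_lit 2177) (.e (nat_lit 1256) (nat_lit 92) (.e (nat_lit 98373) (nat_lit 29) (.e (nat_lit 450588) (nat_lit 10) (.e (nat_lit 573452) (nat_lit 9) (.e (nat_lit 7936) (nat_lit 32) .nil))))) .nil)) 
(.lf (nat_lit 47598) (.g (nat_lit 3199) (.e (nat_lit 1256) (nat_lit 92) (.e (nat_lit 98373) (nat_lit 29) (.e (nat_lit 450588) (nat_lit 10) (.e (nat_lit 573471) (nat_lit 11) (.e (nat_lit 16395) (nat_lit 0) .nil))))) .nil))) (.nd (nat_lit 5) 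
(.lf (nat_lit 47582) (.g (nat_lit 2600) (.e (nat_lit 1256) (nat_lit 92) (.e (nat_lit 98373) (nat_lit 29) (.e (nat_lit 450588) (nat_lit 10) (.e (nat_lit 573470) (nat_lit 11) (.e (nat_lit 16386) (nat_lit 0) .nil))))) .nil)) 
(.lf (nat_lit 47614) (.g (nat_lit 3730) (.e (nat_lit 1256) (nat_lit 92) (.e (nat_lit 98373) (nat_lit 29) (.e (nat_lit 450588) (nat_lit 10) (.e (nat_lit 573473) (nat_lit 12) (.e (nat_lit 57352) (nat_lit 0) (.e (nat_lit 7263) (nat_lit 384) (.e (nat_lit 57354) (nat_lit 0) (.e (nat_lit 7936) (nat_lit 343) .nil)))))))) (.g (nat_lit 4) .nil .nil)))))))) 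
(.nd (nat_lit 1) (.nd (nat_lit 2) (.nd (nat_lit 3) (.nd (nat_lit 4) (.nd (nat_lit 5) 
(.lf (nat_lit 47553) (.g (nat_lit 4000) (.e (nat_lit 1256) (nat_lit 92) (.e (nat_lit 98373) (nat_lit 29) (.e (nat_lit 450588) (nat_lit 10) (.e (nat_lit 573451) (nat_lit 9) (.e (nat_lit 365) (nat_lit 31) (.e (nat_lit 417796) (nat_lit 0) (.e (nat_lit 5271) (nat_lit 298) .nil))))))) (.g (nat_lit 4) .nil .nil))) 
(.lf (nat_lit 47585) (.g (nat_lit 3840) (.e (nat_lit 1256) (nat_lit 92) (.e (nat_lit 98373) (nat_lit 29) (.e (nat_lit 450588) (nat_lit 10) (.e (nat_lit 573470) (nat_lit 11) (.e (nat_lit 16388) (nat_lit 0) (.e (nat_lit 7490) (nat_lit 402) .nil)))))) (.g (nat_lit 0) .nil .nil)))) (.nd (nat_lit 5) 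
(.lf (nat_lit 47569) (.g (nat_lit 3346) (.e (nat_lit 1256) (nat_lit 92) (.e (nat_lit 98373) (nat_lit 29) (.e (nat_lit 450588) (nat_lit 10) (.e (nat_lit 573455) (nat_lit 9) .nil)))) .nil)) 
(.lf (nat_lit 47601) (.g (nat_lit 3168) (.e (nat_lit 1256) (nat_lit 92) (.e (nat_lit 98373) (nat_lit 29) (.e (nat_lit 450588) (nat_lit 10) (.e (nat_lit 573471) (nat_lit 11) (.e (nat_lit 16398) (nat_lit 0) .nil))))) .nil)))) (.nd (nat_lit 4) (.nd (nat_lit 5) 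
(.lf (nat_lit 47561) (.g (nat_lit 4485) (.e (nat_lit 1256) (nat_lit 92) (.e (nat_lit 98373) (nat_lit 29) (.e (nat_lit 450588) (nat_lit 10) (.e (nat_lit 573452) (nat_lit 9) (.e (nat_lit 359) (nat_lit 30) (.e (nat_lit 409602) (nat_lit 0) (.e (nat_lit 5270) (nat_lit 298) .nil))))))) (.g (nat_lit 0) .nil .nil))) 
(.lf (nat_lit 47593) (.g (nat_lit 4166) (.e (nat_lit 1256) (nat_lit 92) (.e (nat_lit 98373) (nat_lit 29) (.e (nat_lit 450588) (nat_lit 10) (.e (nat_lit 573471) (nat_lit 11) (.e (nat_lit 16388) (nat_lit 0) (.e (nat_lit 7490) (nat_lit 402) .nil)))))) (.g (nat_lit 0) .nil .nil)))) (.nd (nat_lit 5) 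
(.lf (nat_lit 47577) (.g (nat_lit 1176) (.e (nat_lit 1256) (nat_lit 92) (.e (nat_lit 98373) (nat_lit 29) (.e (nat_lit 450588) (nat_lit 10) (.e (nat_lit 573468) (nat_lit 10) .nil)))) .nil)) 
(.lf (nat_lit 47609) (.g (nat_lit 3805) (.e (nat_lit 1256) (nat_lit 92) (.e (nat_lit 98373) (nat_lit 29) (.e (nat_lit 450588) (nat_lit 10) (.e (nat_lit 573473) (nat_lit 12) (.e (nat_lit 57348) (nat_lit 0) (.e (nat_lit 7261) (nat_lit 384) (.e (nat_lit 57347) (nat_lit 0) (.e (nat_lit 7936) (nat_lit 343) .nil)))))))) (.g (nat_lit 4) .nil .nil)))))) (.nd (nat_lit 3) (.nd (nat_lit 4) (.nd (nat_lit 5) 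
(.lf (nat_lit 47557) (.g (nat_lit 2458) (.e (nat_lit 1256) (nat_lit 92) (.e (nat_lit 98373) (nat_lit 29) (.e (nat_lit 450588) (nat_lit 10) (.e (nat_lit 573452) (nat_lit 9) (.e (nat_lit 61) (nat_lit 0) (.e (nat_lit 7086) (nat_lit 379) (.e (nat_lit 123202) (nat_lit 270) .nil))))))) (.g (nat_lit 4) .nil .nil))) 
(.lf (nat_lit 47589) (.g (nat_lit 2669) (.e (nat_lit 1256) (nat_lit 92) (.e (nat_lit 98373) (nat_lit 29) (.e (nat_lit 450588) (nat_lit 10) (.e (nat_lit 573471) (nat_lit 11) (.e (nat_lit 16385) (nat_lit 0) (.e (nat_lit 7936) (nat_lit 402) .nil)))))) (.g (nat_lit 4) .nil .nil)))) (.nd (nat_lit 5) 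
(.lf (nat_lit 47573) (.g (nat_lit 3288) (.e (nat_lit 1256) (nat_lit 92) (.e (nat_lit 98373) (nat_lit 29) (.e (nat_lit 450588) (nat_lit 10) (.e (nat_lit 573463) (nat_lit 9) .nil)))) .nil)) 
(.lf (nat_lit 47605) (.g (nat_lit 3205) (.e (nat_lit 1256) (nat_lit 92) (.e (nat_lit 98373) (nat_lit 29) (.e (nat_lit 450588) (nat_lit 10) (.e (nat_lit 573471) (nat_lit 11) (.e (nat_lit 16402) (nat_lit 0) (.e (nat_lit 7936) (nat_lit 402) .nil)))))) (.g (nat_lit 4) .nil .nil))))) (.nd (nat_lit 4) (.nd (nat_lit 5) 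
(.lf (nat_lit 47565) (.g (nat_lit 2635) (.e (nat_lit 1256) (nat_lit 92) (.e (nat_lit 98373) (nat_lit 29) (.e (nat_lit 450588) (nat_lit 10) (.e (nat_lit 573452) (nat_lit 9) (.e (nat_lit 428) (nat_lit 32) (.e (nat_lit 425989) (nat_lit 0) (.e (nat_lit 7485) (nat_lit 402) .nil))))))) (.g (nat_lit 4) .nil .nil))) 
(.lf (nat_lit 47597) (.g (nat_lit 3195) (.e (nat_lit 1256) (nat_lit 92) (.e (nat_lit 98373) (nat_lit 29) (.e (nat_lit 450588) (nat_lit 10) (.e (nat_lit 573471) (nat_lit 11) (.e (nat_lit 16393) (nat_lit 0) .nil))))) .nil))) (.nd (nat_lit 5) 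
(.lf (nat_lit 47581) (.g (nat_lit 2743) (.e (nat_lit 1256) (nat_lit 92) (.e (nat_lit 98373) (nat_lit 29) (.e (nat_lit 450588) (nat_lit 10) (.e (nat_lit 573470) (nat_lit 11) (.e (nat_lit 16385) (nat_lit 0) (.e (nat_lit 7486) (nat_lit 402) .nil)))))) (.g (nat_lit 5) .nil .nil))) 
(.lf (nat_lit 47613) (.g (nat_lit 3615) (.e (nat_lit 1256) (nat_lit 92) (.e (nat_lit 98373) (nat_lit 29) (.e (nat_lit 450588) (nat_lit 10) (.e (nat_lit 573473) (nat_lit 12) (.e (nat_lit 57352) (nat_lit 0) .nil))))) .nil)))))) (.nd (nat_lit 2) (.nd (nat_lit 3) (.nd (nat_lit 4) (.nd (nat_lit 5) 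
(.lf (nat_lit 47555) (.g (nat_lit 3498) (.e (nat_lit 1256) (nat_lit 92) (.e (nat_lit 98373) (nat_lit 29) (.e (nat_lit 450588) (nat_lit 10) (.e (nat_lit 573452) (nat_lit 9) (.e (nat_lit 16) (nat_lit 0) (.e (nat_lit 7088) (nat_lit 379) (.e (nat_lit 123202) (nat_lit 270) .nil))))))) (.g (nat_lit 0) .nil .nil))) 
(.lf (nat_lit 47587) (.g (nat_lit 1520) (.e (nat_lit 1256) (nat_lit 92) (.e (nat_lit 98373) (nat_lit 29) (.e (nat_lit 450588) (nat_lit 10) (.e (nat_lit 573471) (nat_lit 11) .nil)))) .nil))) (.nd (nat_lit 5) 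
(.lf (nat_lit 47571) (.g (nat_lit 3201) (.e (nat_lit 1256) (nat_lit 92) (.e (nat_lit 98373) (nat_lit 29) (.e (nat_lit 450588) (nat_lit 10) (.e (nat_lit 573457) (nat_lit 9) (.e (nat_lit 428) (nat_lit 32) (.e (nat_lit 425990) (nat_lit 0) (.e (nat_lit 7489) (nat_lit 402) .nil))))))) (.g (nat_lit 5) .nil .nil))) 
(.lf (nat_lit 47603) (.g (nat_lit 3199) (.e (nat_lit 1256) (nat_lit 92) (.e (nat_lit 98373) (nat_lit 29) (.e (nat_lit 450588) (nat_lit 10) (.e (nat_lit 573471) (nat_lit 11) (.e (nat_lit 16400) (nat_lit 0) .nil))))) .nil)))) (.nd (nat_lit 4) (.nd (nat_lit 5) 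
(.lf (nat_lit 47563) (.g (nat_lit 2787) (.e (nat_lit 1256) (nat_lit 92) (.e (nat_lit 98373) (nat_lit 29) (.e (nat_lit 450588) (nat_lit 10) (.e (nat_lit 573452) (nat_lit 9) (.e (nat_lit 7936) (nat_lit 30) (.e (nat_lit 409603) (nat_lit 0) (.e (nat_lit 5270) (nat_lit 298) .nil))))))) (.g (nat_lit 4) .nil .nil))) 
(.lf (nat_lit 47595) (.g (nat_lit 3155) (.e (nat_lit 1256) (nat_lit 92) (.e (nat_lit 98373) (nat_lit 29) (.e (nat_lit 450588) (nat_lit 10) (.e (nat_lit 573471) (nat_lit 11) (.e (nat_lit 16390) (nat_lit 0) .nil))))) .nil))) (.nd (nat_lit 5) 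
(.lf (nat_lit 47579) (.g (nat_lit 4418) (.e (nat_lit 1256) (nat_lit 92) (.e (nat_lit 98373) (nat_lit 29) (.e (nat_lit 450588) (nat_lit 10) (.e (nat_lit 573469) (nat_lit 11) (.e (nat_lit 16388) (nat_lit 0) (.e (nat_lit 7486) (nat_lit 402) .nil)))))) (.g (nat_lit 6) .nil .nil))) 
(.lf (nat_lit 47611) (.g (nat_lit 5356) (.e (nat_lit 1256) (nat_lit 92) (.e (nat_lit 98373) (nat_lit 29) (.e (nat_lit 450588) (nat_lit 10) (.e (nat_lit 573473) (nat_lit 12) (.e (nat_lit 57348) (nat_lit 0) (.e (nat_lit 7265) (nat_lit 384) (.e (nat_lit 57347) (nat_lit 0) (.e (nat_lit 7936) (nat_lit 343) .nil)))))))) (.g (nat_lit 7) .nil .nil)))))) (.nd (nat_lit 3) (.nd (nat_lit 4) (.nd (nat_lit 5) 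
(.lf (nat_lit 47559) (.g (nat_lit 2667) (.e (nat_lit 1256) (nat_lit 92) (.e (nat_lit 98373) (nat_lit 29) (.e (nat_lit 450588) (nat_lit 10) (.e (nat_lit 573452) (nat_lit 9) (.e (nat_lit 61) (nat_lit 0) (.e (nat_lit 7089) (nat_lit 379) (.e (nat_lit 123202) (nat_lit 270) .nil))))))) (.g (nat_lit 4) .nil .nil))) 
(.lf (nat_lit 47591) (.g (nat_lit 2318) (.e (nat_lit 1256) (nat_lit 92) (.e (nat_lit 98373) (nat_lit 29) (.e (nat_lit 450588) (nat_lit 10) (.e (nat_lit 573471) (nat_lit 11) (.e (nat_lit 16388) (nat_lit 0) .nil))))) .nil))) (.nd (nat_lit 5) 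
(.lf (nat_lit 47575) (.g (nat_lit 2700) (.e (nat_lit 1256) (nat_lit 92) (.e (nat_lit 98373) (nat_lit 29) (.e (nat_lit 450588) (nat_lit 10) (.e (nat_lit 581376) (nat_lit 9) .nil)))) .nil)) 
(.lf (nat_lit 47607) (.g (nat_lit 2748) (.e (nat_lit 1256) (nat_lit 92) (.e (nat_lit 98373) (nat_lit 29) (.e (nat_lit 450588) (nat_lit 10) (.e (nat_lit 573473) (nat_lit 12) .nil)))) .nil)))) (.nd (nat_lit 4) (.nd (nat_lit 5) 
(.lf (nat_lit 47567) (.g (nat_lit 2769) (.e (nat_lit 1256) (nat_lit 92) (.e (nat_lit 98373) (nat_lit 29) (.e (nat_lit 450588) (nat_lit 10) (.e (nat_lit 573452) (nat_lit 9) (.e (nat_lit 7936) (nat_lit 36) (.e (nat_lit 466688) (nat_lit 0) .nil)))))) (.g (nat_lit 4) .nil .nil))) 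
(.lf (nat_lit 47599) (.g (nat_lit 3415) (.e (nat_lit 1256) (nat_lit 92) (.e (nat_lit 98373) (nat_lit 29) (.e (nat_lit 450588) (nat_lit 10) (.e (nat_lit 573471) (nat_lit 11) (.e (nat_lit 16396) (nat_lit 0) (.e (nat_lit 7936) (nat_lit 402) .nil)))))) (.g (nat_lit 5) .nil .nil)))) (.nd (nat_lit 5) 
(.lf (nat_lit 47583) (.g (nat_lit 2621) (.e (nat_lit 1256) (nat_lit 92) (.e (nat_lit 98373) (nat_lit 29) (.e (nat_lit 450588) (nat_lit 10) (.e (nat_lit 573470) (nat_lit 11) (.e (nat_lit 16386) (nat_lit 0) (.e (nat_lit 7490) (nat_lit 402) .nil)))))) (.g (nat_lit 4) .nil .nil))) 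
(.lf (nat_lit 47615) (.g (nat_lit 3641) (.e (nat_lit 1256) (nat_lit 92) (.e (nat_lit 98373) (nat_lit 29) (.e (nat_lit 450588) (nat_lit 10) (.e (nat_lit 573473) (nat_lit 12) (.e (nat_lit 57353) (nat_lit 0) (.e (nat_lit 7261) (nat_lit 384) (.e (nat_lit 57347) (nat_lit 0) (.e (nat_lit 7936) (nat_lit 343) .nil)))))))) (.g (nat_lit 4) .nil .nil)))))))))


end

end Pool.Agent.Lib.MP_5854e1_co.Cz
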