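import Pool.Agent.Lib.MP_5854e1_co.DtD

/-!
# Windows and cells of the rings
-/

set_option autoImplicit false
set_option maxRecDepth 100000
set_option deprecated.oldSectionVars true

namespace Pool.Agent.Lib.MP_5854e1_co.Cz

open Pool.Agent.Lib.MP_5854e1_co

noncomputable section

noncomputable def tv662 : DT := (.nd (nat_lit 0) (.nd (nat_lit 1) (.nd (nat_lit 2) (.nd (nat_lit 3) (.nd (nat_lit 4) (.nd (nat_lit 5) (.nd (nat_lit 6) 
(.lf (nat_lit 47616) (.g (nat_lit 5254) (.e (nat_lit 1256) (nat_lit 92) (.e (nat_lit 98373) (nat_lit 29) (.e (nat_lit 450588) (nat_lit 10) (.e (nat_lit 573473) (nat_lit 12) (.e (nat_lit 57353) (nat_lit 0) (.e (nat_lit 7265) (nat_lit 384) (.e (nat_lit 57347) (nat_lit 0) (.e (nat_lit 7936) (nat_lit 343) .nil)))))))) (.g (nat_lit 7) .nil .nil))) 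
(.lf (nat_lit 47680) (.g (nat_lit 3185) (.e (nat_lit 7936) (nat_lit 92) (.e (nat_lit 98372) (nat_lit 29) (.e (nat_lit 450588) (nat_lit 10) (.e (nat_lit 573470) (nat_lit 11) (.e (nat_lit 16388) (nat_lit 0) .nil))))) .nil))) (.nd (nat_lit 6) 
(.lf (nat_lit 47648) (.g (nat_lit 1050) (.e (nat_lit 1256) (nat_lit 92) (.e (nat_lit 98384) (nat_lit 32) (.e (nat_lit 475177) (nat_lit 24) .nil))) .nil)) 
(.lf (nat_lit 47712) (.g (nat_lit 2985) (.e (nat_lit 1257) (nat_lit 93) (.e (nat_lit 106536) (nat_lit 11) (.e (nat_lit 16416) (nat_lit 3) (.e (nat_lit 204868) (nat_lit 29) (.e (nat_lit 368384) (nat_lit 10) .nil))))) .nil)))) (.nd (nat_lit 5) (.nd (nat_lit 6) 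
(.lf (nat_lit 47632) (.g (nat_lit 4625) (.e (nat_lit 1256) (nat_lit 92) (.e (nat_lit 98373) (nat_lit 29) (.e (nat_lit 450588) (nat_lit 10) (.e (nat_lit 573475) (nat_lit 12) (.e (nat_lit 57353) (nat_lit 0) (.e (nat_lit 7265) (nat_lit 384) (.e (nat_lit 57347) (nat_lit 0) (.e (nat_lit 7936) (nat_lit 343) .nil)))))))) (.g (nat_lit 5) .nil .nil))) 
(.lf (nat_lit 47696) (.g (nat_lit 2843) (.e (nat_lit 7936) (nat_lit 92) (.e (nat_lit 98373) (nat_lit 29) (.e (nat_lit 450588) (nat_lit 10) (.e (nat_lit 573450) (nat_lit 9) .nil)))) .nil))) (.nd (nat_lit 6) 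
(.lf (nat_lit 47664) (.g (nat_lit 1551) (.e (nat_lit 7936) (nat_lit 92) (.e (nat_lit 98359) (nat_lit 26) (.e (nat_lit 426338) (nat_lit 14) (.e (nat_lit 491537) (nat_lit 2) .nil)))) .nil)) 
(.lf (nat_lit 47728) (.g (nat_lit 1063) (.e (nat_lit 1258) (nat_lit 93) (.e (nat_lit 106536) (nat_lit 11) (.e (nat_lit 16468) (nat_lit 13) .nil))) .nil))))) (.nd (nat_lit 4) (.nd (nat_lit 5) (.nd (nat_lit 6) 
(.lf (nat_lit 47624) (.g (nat_lit 4910) (.e (nat_lit 1256) (nat_lit 92) (.e (nat_lit 98373) (nat_lit 29) (.e (nat_lit 450588) (nat_lit 10) (.e (nat_lit 573475) (nat_lit 12) (.e (nat_lit 57347) (nat_lit 0) (.e (nat_lit 7265) (nat_lit 384) (.e (nat_lit 57354) (nat_lit 0) (.e (nat_lit 7936) (nat_lit 343) .nil)))))))) (.g (nat_lit 5) .nil .nil))) 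
(.lf (nat_lit 47688) (.g (nat_lit 2049) (.e (nat_lit 7936) (nat_lit 92) (.e (nat_lit 98373) (nat_lit 29) (.e (nat_lit 450580) (nat_lit 5) (.e (nat_lit 532523) (nat_lit 7) .nil)))) .nil))) (.nd (nat_lit 6) 
(.lf (nat_lit 47656) (.g (nat_lit 2126) (.e (nat_lit 1256) (nat_lit 92) (.e (nat_lit 98389) (nat_lit 33) (.e (nat_lit 491546) (nat_lit 9) (.e (nat_lit 336028) (nat_lit 3) (.e (nat_lit 98325) (nat_lit 17) (.e (nat_lit 7112) (nat_lit 381) (.e (nat_lit 229643) (nat_lit 232) .nil))))))) (.g (nat_lit 4) .nil .nil))) 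
(.lf (nat_lit 47720) (.g (nat_lit 2419) (.e (nat_lit 1258) (nat_lit 93) (.e (nat_lit 106536) (nat_lit 11) (.e (nat_lit 16412) (nat_lit 2) (.e (nat_lit 196672) (nat_lit 15) .nil)))) .nil)))) (.nd (nat_lit 5) (.nd (nat_lit 6) 
(.lf (nat_lit 47640) (.g (nat_lit 1340) (.e (nat_lit 1256) (nat_lit 92) (.e (nat_lit 98374) (nat_lit 29) (.e (nat_lit 450583) (nat_lit 7) (.e (nat_lit 548914) (nat_lit 19) (.e (nat_lit 188160) (nat_lit 32) .nil))))) (.g (nat_lit 4) .nil .nil))) 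
(.lf (nat_lit 47704) (.g (nat_lit 3033) (.e (nat_lit 7936) (nat_lit 92) (.e (nat_lit 98373) (nat_lit 29) (.e (nat_lit 450588) (nat_lit 10) (.e (nat_lit 573471) (nat_lit 11) (.e (nat_lit 16388) (nat_lit 0) .nil))))) .nil))) (.nd (nat_lit 6) 
(.lf (nat_lit 47672) (.g (nat_lit 3051) (.e (nat_lit 7936) (nat_lit 92) (.e (nat_lit 98370) (nat_lit 28) (.e (nat_lit 442427) (nat_lit 23) (.e (nat_lit 204846) (nat_lit 24) (.e (nat_lit 319511) (nat_lit 10) .nil))))) .nil)) 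
(.lf (nat_lit 47736) (.g (nat_lit 2092) (.e (nat_lit 1260) (nat_lit 93) (.e (nat_lit 106536) (nat_lit 11) (.e (nat_lit 16416) (nat_lit 3) (.e (nat_lit 204869) (nat_lit 29) .nil)))) .nil)))))) (.nd (nat_lit 3) (.nd (nat_lit 4) (.nd (nat_lit 5) (.nd (nat_lit 6) 
(.lf (nat_lit 47620) (.g (nat_lit 3905) (.e (nat_lit 1256) (nat_lit 92) (.e (nat_lit 98373) (nat_lit 29) (.e (nat_lit 450588) (nat_lit 10) (.e (nat_lit 573475) (nat_lit 12) (.e (nat_lit 57347) (nat_lit 0) (.e (nat_lit 7124) (nat_lit 382) (.e (nat_lit 1183) (nat_lit 87) (.e (nat_lit 65280) (nat_lit 187) .nil)))))))) (.g (nat_lit 4) .nil .nil))) 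
(.lf (nat_lit 47684) (.g (nat_lit 2303) (.e (nat_lit 7936) (nat_lit 92) (.e (nat_lit 98373) (nat_lit 29) (.e (nat_lit 450563) (nat_lit 0) (.e (nat_lit 6416) (nat_lit 341) .nil)))) .nil))) (.nd (nat_lit 6) 
(.lf (nat_lit 47652) (.g (nat_lit 2080) (.e (nat_lit 1256) (nat_lit 92) (.e (nat_lit 98384) (nat_lit 32) (.e (nat_lit 475177) (nat_lit 24) (.e (nat_lit 516171) (nat_lit 13) .nil)))) .nil)) 
(.lf (nat_lit 47716) (.g (nat_lit 1463) (.e (nat_lit 1257) (nat_lit 93) (.e (nat_lit 106536) (nat_lit 11) (.e (nat_lit 16466) (nat_lit 13) .nil))) .nil)))) (.nd (nat_lit 5) (.nd (nat_lit 6) 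
(.lf (nat_lit 47636) (.g (nat_lit 2469) (.e (nat_lit 1256) (nat_lit 92) (.e (nat_lit 98374) (nat_lit 29) (.e (nat_lit 450580) (nat_lit 5) (.e (nat_lit 532523) (nat_lit 7) (.e (nat_lit 319504) (nat_lit 10) (.e (nat_lit 7936) (nat_lit 298) .nil)))))) (.g (nat_lit 5) .nil .nil))) 
(.lf (nat_lit 47700) (.g (nat_lit 3146) (.e (nat_lit 7936) (nat_lit 92) (.e (nat_lit 98373) (nat_lit 29) (.e (nat_lit 450588) (nat_lit 10) (.e (nat_lit 573457) (nat_lit 9) .nil)))) .nil))) (.nd (nat_lit 6) 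
(.lf (nat_lit 47668) (.g (nat_lit 1575) (.e (nat_lit 7936) (nat_lit 92) (.e (nat_lit 98370) (nat_lit 28) (.e (nat_lit 442424) (nat_lit 22) (.e (nat_lit 196677) (nat_lit 16) .nil)))) .nil)) 
(.lf (nat_lit 47732) (.g (nat_lit 1873) (.e (nat_lit 1259) (nat_lit 93) (.e (nat_lit 106536) (nat_lit 11) (.e (nat_lit 16416) (nat_lit 3) (.e (nat_lit 204865) (nat_lit 28) .nil)))) .nil))))) (.nd (nat_lit 4) (.nd (nat_lit 5) (.nd (nat_lit 6) 
(.lf (nat_lit 47628) (.g (nat_lit 3861) (.e (nat_lit 1256) (nat_lit 92) (.e (nat_lit 98373) (nat_lit 29) (.e (nat_lit 450588) (nat_lit 10) (.e (nat_lit 573475) (nat_lit 12) (.e (nat_lit 57351) (nat_lit 0) (.e (nat_lit 7263) (nat_lit 384) (.e (nat_lit 57354) (nat_lit 0) (.e (nat_lit 7936) (nat_lit 343) .nil)))))))) (.g (nat_lit 4) .nil .nil))) 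
(.lf (nat_lit 47692) (.g (nat_lit 2811) (.e (nat_lit 7936) (nat_lit 92) (.e (nat_lit 98373) (nat_lit 29) (.e (nat_lit 450587) (nat_lit 10) (.e (nat_lit 573456) (nat_lit 9) (.e (nat_lit 430) (nat_lit 32) .nil))))) .nil))) (.nd (nat_lit 6) 
(.lf (nat_lit 47660) (.g (nat_lit 1057) (.e (nat_lit 7936) (nat_lit 92) (.e (nat_lit 98359) (nat_lit 26) (.e (nat_lit 426286) (nat_lit 10) (.e (nat_lit 434231) (nat_lit 23) .nil)))) .nil)) 
(.lf (nat_lit 47724) (.g (nat_lit 2005) (.e (nat_lit 1258) (nat_lit 93) (.e (nat_lit 106536) (nat_lit 11) (.e (nat_lit 16416) (nat_lit 3) (.e (nat_lit 204869) (nat_lit 29) .nil)))) .nil)))) (.nd (nat_lit 5) (.nd (nat_lit 6) 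
(.lf (nat_lit 47644) (.g (nat_lit 2109) (.e (nat_lit 1256) (nat_lit 92) (.e (nat_lit 98381) (nat_lit 31) (.e (nat_lit 466977) (nat_lit 22) (.e (nat_lit 196668) (nat_lit 14) (.e (nat_lit 73762) (nat_lit 16) .nil))))) .nil)) 
(.lf (nat_lit 47708) (.g (nat_lit 3131) (.e (nat_lit 1257) (nat_lit 93) (.e (nat_lit 106536) (nat_lit 11) (.e (nat_lit 16412) (nat_lit 2) (.e (nat_lit 196672) (nat_lit 15) (.e (nat_lit 81934) (nat_lit 20) .nil))))) .nil))) (.nd (nat_lit 6) 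
(.lf (nat_lit 47676) (.g (nat_lit 1331) (.e (nat_lit 7936) (nat_lit 92) (.e (nat_lit 98372) (nat_lit 29) (.e (nat_lit 450579) (nat_lit 5) (.e (nat_lit 532530) (nat_lit 9) .nil)))) .nil)) 
(.lf (nat_lit 47740) (.g (nat_lit 2294) (.e (nat_lit 1261) (nat_lit 93) (.e (nat_lit 106536) (nat_lit 11) (.e (nat_lit 16412) (nat_lit 2) (.e (nat_lit 196674) (nat_lit 15) .nil)))) .nil))))))) (.nd (nat_lit 2) (.nd (nat_lit 3) (.nd (nat_lit 4) (.nd (nat_lit 5) (.nd (nat_lit 6) 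
(.lf (nat_lit 47618) (.g (nat_lit 5313) (.e (nat_lit 1256) (nat_lit 92) (.e (nat_lit 98373) (nat_lit 29) (.e (nat_lit 450588) (nat_lit 10) (.e (nat_lit 573474) (nat_lit 12) .nil)))) .nil)) 
(.lf (nat_lit 47682) (.g (nat_lit 542) (.e (nat_lit 7936) (nat_lit 92) (.e (nat_lit 98373) (nat_lit 29) (.e (nat_lit 450562) (nat_lit 0) .nil))) .nil))) (.nd (nat_lit 6) 
(.lf (nat_lit 47650) (.g (nat_lit 2545) (.e (nat_lit 1256) (nat_lit 92) (.e (nat_lit 98384) (nat_lit 32) (.e (nat_lit 475177) (nat_lit 24) (.e (nat_lit 516150) (nat_lit 9) (.e (nat_lit 426131) (nat_lit 3) (.e (nat_lit 204829) (nat_lit 18) (.e (nat_lit 65280) (nat_lit 209) (.e (nat_lit 974) (nat_lit 81) .nil)))))))) (.g (nat_lit 4) .nil .nil))) 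
(.lf (nat_lit 47714) (.g (nat_lit 2927) (.e (nat_lit 1257) (nat_lit 93) (.e (nat_lit 106536) (nat_lit 11) (.e (nat_lit 16416) (nat_lit 3) (.e (nat_lit 204877) (nat_lit 31) .nil)))) .nil)))) (.nd (nat_lit 5) (.nd (nat_lit 6) 
(.lf (nat_lit 47634) (.g (nat_lit 3913) (.e (nat_lit 1256) (nat_lit 92) (.e (nat_lit 98373) (nat_lit 29) (.e (nat_lit 450588) (nat_lit 10) (.e (nat_lit 573475) (nat_lit 12) (.e (nat_lit 57574) (nat_lit 55) (.e (nat_lit 778455) (nat_lit 10) (.e (nat_lit 16128) (nat_lit 250) .nil))))))) (.g (nat_lit 4) .nil .nil))) 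
(.lf (nat_lit 47698) (.g (nat_lit 2793) (.e (nat_lit 7936) (nat_lit 92) (.e (nat_lit 98373) (nat_lit 29) (.e (nat_lit 450588) (nat_lit 10) (.e (nat_lit 573452) (nat_lit 9) .nil)))) .nil))) (.nd (nat_lit 6) 
(.lf (nat_lit 47666) (.g (nat_lit 2087) (.e (nat_lit 7936) (nat_lit 92) (.e (nat_lit 98359) (nat_lit 26) (.e (nat_lit 426338) (nat_lit 14) (.e (nat_lit 491540) (nat_lit 3) (.e (nat_lit 98377) (nat_lit 30) .nil))))) .nil)) 
(.lf (nat_lit 47730) (.g (nat_lit 2139) (.e (nat_lit 1259) (nat_lit 93) (.e (nat_lit 106536) (nat_lit 11) (.e (nat_lit 16412) (nat_lit 2) (.e (nat_lit 196674) (nat_lit 15) (.e (nat_lit 89856) (nat_lit 7) .nil))))) .nil))))) (.nd (nat_lit 4) (.nd (nat_lit 5) (.nd (nat_lit 6) 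
(.lf (nat_lit 47626) (.g (nat_lit 4218) (.e (nat_lit 1256) (nat_lit 92) (.e (nat_lit 98373) (nat_lit 29) (.e (nat_lit 450588) (nat_lit 10) (.e (nat_lit 573475) (nat_lit 12) (.e (nat_lit 57348) (nat_lit 0) (.e (nat_lit 7265) (nat_lit 384) (.e (nat_lit 57354) (nat_lit 0) (.e (nat_lit 7936) (nat_lit 343) .nil)))))))) (.g (nat_lit 4) .nil .nil))) 
(.lf (nat_lit 47690) (.g (nat_lit 2530) (.e (nat_lit 7936) (nat_lit 92) (.e (nat_lit 98373) (nat_lit 29) (.e (nat_lit 450587) (nat_lit 10) (.e (nat_lit 573454) (nat_lit 9) .nil)))) .nil))) (.nd (nat_lit 6) 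
(.lf (nat_lit 47658) (.g (nat_lit 815) (.e (nat_lit 7936) (nat_lit 92) (.e (nat_lit 98358) (nat_lit 26) (.e (nat_lit 426255) (nat_lit 9) .nil))) .nil)) 
(.lf (nat_lit 47722) (.g (nat_lit 1261) (.e (nat_lit 1258) (nat_lit 93) (.e (nat_lit 106536) (nat_lit 11) (.e (nat_lit 16416) (nat_lit 3) .nil))) .nil)))) (.nd (nat_lit 5) (.nd (nat_lit 6) 
(.lf (nat_lit 47642) (.g (nat_lit 1520) (.e (nat_lit 1256) (nat_lit 92) (.e (nat_lit 98381) (nat_lit 31) (.e (nat_lit 466947) (nat_lit 0) (.e (nat_lit 1856) (nat_lit 124) (.e (nat_lit 557105) (nat_lit 14) (.e (nat_lit 188160) (nat_lit 32) .nil)))))) (.g (nat_lit 4) .nil .nil))) 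
(.lf (nat_lit 47706) (.g (nat_lit 1433) (.e (nat_lit 1257) (nat_lit 93) (.e (nat_lit 106536) (nat_lit 11) (.e (nat_lit 16412) (nat_lit 2) .nil))) .nil))) (.nd (nat_lit 6) 
(.lf (nat_lit 47674) (.g (nat_lit 1388) (.e (nat_lit 7936) (nat_lit 92) (.e (nat_lit 98372) (nat_lit 29) (.e (nat_lit 450579) (nat_lit 5) (.e (nat_lit 532526) (nat_lit 8) .nil)))) .nil)) 
(.lf (nat_lit 47738) (.g (nat_lit 1338) (.e (nat_lit 1261) (nat_lit 93) (.e (nat_lit 106536) (nat_lit 11) (.e (nat_lit 16412) (nat_lit 2) .nil))) .nil)))))) (.nd (nat_lit 3) (.nd (nat_lit 4) (.nd (nat_lit 5) (.nd (nat_lit 6) 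
(.lf (nat_lit 47622) (.g (nat_lit 4234) (.e (nat_lit 1256) (nat_lit 92) (.e (nat_lit 98373) (nat_lit 29) (.e (nat_lit 450588) (nat_lit 10) (.e (nat_lit 573475) (nat_lit 12) (.e (nat_lit 57347) (nat_lit 0) (.e (nat_lit 7263) (nat_lit 384) (.e (nat_lit 57354) (nat_lit 0) (.e (nat_lit 7936) (nat_lit 343) .nil)))))))) (.g (nat_lit 4) .nil .nil))) 
(.lf (nat_lit 47686) (.g (nat_lit 793) (.e (nat_lit 7936) (nat_lit 92) (.e (nat_lit 98373) (nat_lit 29) (.e (nat_lit 450579) (nat_lit 5) .nil))) .nil))) (.nd (nat_lit 6) 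
(.lf (nat_lit 47654) (.g (nat_lit 3000) (.e (nat_lit 1256) (nat_lit 92) (.e (nat_lit 98384) (nat_lit 32) (.e (nat_lit 475179) (nat_lit 24) (.e (nat_lit 516119) (nat_lit 1) (.e (nat_lit 164326) (nat_lit 230) .nil))))) .nil)) 
(.lf (nat_lit 47718) (.g (nat_lit 1093) (.e (nat_lit 1257) (nat_lit 93) (.e (nat_lit 106536) (nat_lit 11) (.e (nat_lit 16468) (nat_lit 13) .nil))) .nil)))) (.nd (nat_lit 5) (.nd (nat_lit 6) 
(.lf (nat_lit 47638) (.g (nat_lit 2630) (.e (nat_lit 1256) (nat_lit 92) (.e (nat_lit 98374) (nat_lit 29) (.e (nat_lit 450580) (nat_lit 5) (.e (nat_lit 532523) (nat_lit 7) (.e (nat_lit 319505) (nat_lit 10) (.e (nat_lit 5271) (nat_lit 298) .nil)))))) (.g (nat_lit 6) .nil .nil))) 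
(.lf (nat_lit 47702) (.g (nat_lit 2302) (.e (nat_lit 7936) (nat_lit 92) (.e (nat_lit 98373) (nat_lit 29) (.e (nat_lit 450588) (nat_lit 10) (.e (nat_lit 573471) (nat_lit 11) .nil)))) .nil))) (.nd (nat_lit 6) 
(.lf (nat_lit 47670) (.g (nat_lit 1905) (.e (nat_lit 7936) (nat_lit 92) (.e (nat_lit 98370) (nat_lit 28) (.e (nat_lit 442427) (nat_lit 23) (.e (nat_lit 204821) (nat_lit 17) (.e (nat_lit 6206) (nat_lit 333) .nil))))) .nil)) 
(.lf (nat_lit 47734) (.g (nat_lit 1371) (.e (nat_lit 1260) (nat_lit 93) (.e (nat_lit 106536) (nat_lit 11) (.e (nat_lit 16412) (nat_lit 2) .nil))) .nil))))) (.nd (nat_lit 4) (.nd (nat_lit 5) (.nd (nat_lit 6) 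
(.lf (nat_lit 47630) (.g (nat_lit 4093) (.e (nat_lit 1256) (nat_lit 92) (.e (nat_lit 98373) (nat_lit 29) (.e (nat_lit 450588) (nat_lit 10) (.e (nat_lit 573475) (nat_lit 12) (.e (nat_lit 57351) (nat_lit 0) (.e (nat_lit 7265) (nat_lit 384) (.e (nat_lit 57354) (nat_lit 0) (.e (nat_lit 7936) (nat_lit 343) .nil)))))))) (.g (nat_lit 4) .nil .nil))) 
(.lf (nat_lit 47694) (.g (nat_lit 3258) (.e (nat_lit 7936) (nat_lit 92) (.e (nat_lit 98373) (nat_lit 29) (.e (nat_lit 450587) (nat_lit 10) (.e (nat_lit 573469) (nat_lit 11) .nil)))) .nil))) (.nd (nat_lit 6) 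
(.lf (nat_lit 47662) (.g (nat_lit 1099) (.e (nat_lit 7936) (nat_lit 92) (.e (nat_lit 98359) (nat_lit 26) (.e (nat_lit 426286) (nat_lit 10) (.e (nat_lit 434247) (nat_lit 28) .nil)))) .nil)) 
(.lf (nat_lit 47726) (.g (nat_lit 2918) (.e (nat_lit 1258) (nat_lit 93) (.e (nat_lit 106536) (nat_lit 11) (.e (nat_lit 16416) (nat_lit 3) (.e (nat_lit 204877) (nat_lit 31) .nil)))) .nil)))) (.nd (nat_lit 5) (.nd (nat_lit 6) 
(.lf (nat_lit 47646) (.g (nat_lit 2490) (.e (nat_lit 1256) (nat_lit 92) (.e (nat_lit 98381) (nat_lit 31) (.e (nat_lit 466977) (nat_lit 22) (.e (nat_lit 196670) (nat_lit 14) (.e (nat_lit 73729) (nat_lit 0) .nil))))) .nil)) 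
(.lf (nat_lit 47710) (.g (nat_lit 3145) (.e (nat_lit 1257) (nat_lit 93) (.e (nat_lit 106536) (nat_lit 11) (.e (nat_lit 16412) (nat_lit 2) (.e (nat_lit 196681) (nat_lit 17) .nil)))) .nil))) (.nd (nat_lit 6) 
(.lf (nat_lit 47678) (.g (nat_lit 1581) (.e (nat_lit 7936) (nat_lit 92) (.e (nat_lit 98372) (nat_lit 29) (.e (nat_lit 450586) (nat_lit 10) (.e (nat_lit 573471) (nat_lit 11) (.e (nat_lit 16388) (nat_lit 0) .nil))))) .nil)) 
(.lf (nat_lit 47742) (.g (nat_lit 2839) (.e (nat_lit 1261) (nat_lit 93) (.e (nat_lit 106536) (nat_lit 11) (.e (nat_lit 16416) (nat_lit 3) (.e (nat_lit 204868) (nat_lit 29) (.e (nat_lit 368384) (nat_lit 10) .nil))))) .nil)))))))) (.nd (nat_lit 1) (.nd (nat_lit 2) (.nd (nat_lit 3) (.nd (nat_lit 4) (.nd (nat_lit 5) (.nd (nat_lit 6) 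
(.lf (nat_lit 47617) (.g (nat_lit 4126) (.e (nat_lit 1256) (nat_lit 92) (.e (nat_lit 98373) (nat_lit 29) (.e (nat_lit 450588) (nat_lit 10) (.e (nat_lit 573473) (nat_lit 12) (.e (nat_lit 57353) (nat_lit 0) (.e (nat_lit 7265) (nat_lit 384) (.e (nat_lit 57354) (nat_lit 0) (.e (nat_lit 7936) (nat_lit 343) .nil)))))))) (.g (nat_lit 5) .nil .nil))) 
(.lf (nat_lit 47681) (.g (nat_lit 1806) (.e (nat_lit 7936) (nat_lit 92) (.e (nat_lit 98372) (nat_lit 29) (.e (nat_lit 450588) (nat_lit 10) (.e (nat_lit 573471) (nat_lit 11) .nil)))) .nil))) (.nd (nat_lit 6) 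
(.lf (nat_lit 47649) (.g (nat_lit 1724) (.e (nat_lit 1256) (nat_lit 92) (.e (nat_lit 98384) (nat_lit 32) (.e (nat_lit 475177) (nat_lit 24) (.e (nat_lit 516150) (nat_lit 9) .nil)))) .nil)) 
(.lf (nat_lit 47713) (.g (nat_lit 3188) (.e (nat_lit 1257) (nat_lit 93) (.e (nat_lit 106536) (nat_lit 11) (.e (nat_lit 16416) (nat_lit 3) (.e (nat_lit 204869) (nat_lit 29) (.e (nat_lit 368384) (nat_lit 10) .nil))))) .nil)))) (.nd (nat_lit 5) (.nd (nat_lit 6) 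
(.lf (nat_lit 47633) (.g (nat_lit 3785) (.e (nat_lit 1256) (nat_lit 92) (.e (nat_lit 98373) (nat_lit 29) (.e (nat_lit 450588) (nat_lit 10) (.e (nat_lit 573475) (nat_lit 12) (.e (nat_lit 57574) (nat_lit 55) .nil))))) .nil)) 
(.lf (nat_lit 47697) (.g (nat_lit 3927) (.e (nat_lit 7936) (nat_lit 92) (.e (nat_lit 98373) (nat_lit 29) (.e (nat_lit 450588) (nat_lit 10) (.e (nat_lit 573451) (nat_lit 9) .nil)))) .nil))) (.nd (nat_lit 6) 
(.lf (nat_lit 47665) (.g (nat_lit 1459) (.e (nat_lit 7936) (nat_lit 92) (.e (nat_lit 98359) (nat_lit 26) (.e (nat_lit 426338) (nat_lit 14) (.e (nat_lit 491540) (nat_lit 3) .nil)))) .nil)) 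
(.lf (nat_lit 47729) (.g (nat_lit 2208) (.e (nat_lit 1259) (nat_lit 93) (.e (nat_lit 106536) (nat_lit 11) (.e (nat_lit 16412) (nat_lit 2) (.e (nat_lit 196672) (nat_lit 15) (.e (nat_lit 89856) (nat_lit 7) (.e (nat_lit 245784) (nat_lit 9) .nil)))))) (.g (nat_lit 4) .nil .nil)))))) (.nd (nat_lit 4) (.nd (nat_lit 5) (.nd (nat_lit 6) 
(.lf (nat_lit 47625) (.g (nat_lit 3967) (.e (nat_lit 1256) (nat_lit 92) (.e (nat_lit 98373) (nat_lit 29) (.e (nat_lit 450588) (nat_lit 10) (.e (nat_lit 573475) (nat_lit 12) (.e (nat_lit 57348) (nat_lit 0) .nil))))) .nil)) 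
(.lf (nat_lit 47689) (.g (nat_lit 860) (.e (nat_lit 7936) (nat_lit 92) (.e (nat_lit 98373) (nat_lit 29) (.e (nat_lit 450583) (nat_lit 7) .nil))) .nil))) (.nd (nat_lit 6) 
(.lf (nat_lit 47657) (.g (nat_lit 2080) (.e (nat_lit 7936) (nat_lit 92) (.e (nat_lit 98352) (nat_lit 25) (.e (nat_lit 417810) (nat_lit 6) (.e (nat_lit 286733) (nat_lit 2) (.e (nat_lit 90174) (nat_lit 14) .nil))))) .nil)) 
(.lf (nat_lit 47721) (.g (nat_lit 2897) (.e (nat_lit 1258) (nat_lit 93) (.e (nat_lit 106536) (nat_lit 11) (.e (nat_lit 16412) (nat_lit 2) (.e (nat_lit 196672) (nat_lit 15) (.e (nat_lit 89856) (nat_lit 7) .nil))))) .nil)))) (.nd (nat_lit 5) (.nd (nat_lit 6) 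
(.lf (nat_lit 47641) (.g (nat_lit 1511) (.e (nat_lit 1256) (nat_lit 92) (.e (nat_lit 98381) (nat_lit 31) (.e (nat_lit 466947) (nat_lit 0) (.e (nat_lit 1856) (nat_lit 124) (.e (nat_lit 557103) (nat_lit 14) (.e (nat_lit 188160) (nat_lit 32) .nil)))))) (.g (nat_lit 4) .nil .nil))) 
(.lf (nat_lit 47705) (.g (nat_lit 3218) (.e (nat_lit 7936) (nat_lit 92) (.e (nat_lit 98373) (nat_lit 29) (.e (nat_lit 450588) (nat_lit 10) (.e (nat_lit 573471) (nat_lit 11) (.e (nat_lit 16392) (nat_lit 0) .nil))))) .nil))) (.nd (nat_lit 6) 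
(.lf (nat_lit 47673) (.g (nat_lit 429) (.e (nat_lit 7936) (nat_lit 92) (.e (nat_lit 98372) (nat_lit 29) (.e (nat_lit 450579) (nat_lit 5) .nil))) .nil)) 
(.lf (nat_lit 47737) (.g (nat_lit 1093) (.e (nat_lit 1260) (nat_lit 93) (.e (nat_lit 106536) (nat_lit 11) (.e (nat_lit 16468) (nat_lit 13) .nil))) .nil)))))) (.nd (nat_lit 3) (.nd (nat_lit 4) (.nd (nat_lit 5) (.nd (nat_lit 6) 
(.lf (nat_lit 47621) (.g (nat_lit 4121) (.e (nat_lit 1256) (nat_lit 92) (.e (nat_lit 98373) (nat_lit 29) (.e (nat_lit 450588) (nat_lit 10) (.e (nat_lit 573475) (nat_lit 12) (.e (nat_lit 57347) (nat_lit 0) (.e (nat_lit 7125) (nat_lit 382) (.e (nat_lit 1183) (nat_lit 87) (.e (nat_lit 65280) (nat_lit 187) .nil)))))))) (.g (nat_lit 4) .nil .nil))) 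
(.lf (nat_lit 47685) (.g (nat_lit 3034) (.e (nat_lit 7936) (nat_lit 92) (.e (nat_lit 98373) (nat_lit 29) (.e (nat_lit 450563) (nat_lit 0) (.e (nat_lit 6420) (nat_lit 341) (.e (nat_lit 163885) (nat_lit 5) .nil))))) .nil))) (.nd (nat_lit 6) 
(.lf (nat_lit 47653) (.g (nat_lit 1199) (.e (nat_lit 1256) (nat_lit 92) (.e (nat_lit 98384) (nat_lit 32) (.e (nat_lit 475179) (nat_lit 24) .nil))) .nil)) 
(.lf (nat_lit 47717) (.g (nat_lit 3248) (.e (nat_lit 1257) (nat_lit 93) (.e (nat_lit 106536) (nat_lit 11) (.e (nat_lit 16466) (nat_lit 13) (.e (nat_lit 483393) (nat_lit 23) .nil)))) .nil)))) (.nd (nat_lit 5) (.nd (nat_lit 6) 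
(.lf (nat_lit 47637) (.g (nat_lit 2455) (.e (nat_lit 1256) (nat_lit 92) (.e (nat_lit 98374) (nat_lit 29) (.e (nat_lit 450580) (nat_lit 5) (.e (nat_lit 532523) (nat_lit 7) (.e (nat_lit 319505) (nat_lit 10) (.e (nat_lit 5245) (nat_lit 298) .nil)))))) (.g (nat_lit 5) .nil .nil))) 
(.lf (nat_lit 47701) (.g (nat_lit 2725) (.e (nat_lit 7936) (nat_lit 92) (.e (nat_lit 98373) (nat_lit 29) (.e (nat_lit 450588) (nat_lit 10) (.e (nat_lit 573470) (nat_lit 11) .nil)))) .nil))) (.nd (nat_lit 6) 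
(.lf (nat_lit 47669) (.g (nat_lit 1636) (.e (nat_lit 7936) (nat_lit 92) (.e (nat_lit 98370) (nat_lit 28) (.e (nat_lit 442427) (nat_lit 23) (.e (nat_lit 204821) (nat_lit 17) .nil)))) .nil)) 
(.lf (nat_lit 47733) (.g (nat_lit 1997) (.e (nat_lit 1259) (nat_lit 93) (.e (nat_lit 106536) (nat_lit 11) (.e (nat_lit 16416) (nat_lit 3) (.e (nat_lit 204866) (nat_lit 28) .nil)))) .nil))))) (.nd (nat_lit 4) (.nd (nat_lit 5) (.nd (nat_lit 6) 
(.lf (nat_lit 47629) (.g (nat_lit 5223) (.e (nat_lit 1256) (nat_lit 92) (.e (nat_lit 98373) (nat_lit 29) (.e (nat_lit 450588) (nat_lit 10) (.e (nat_lit 573475) (nat_lit 12) (.e (nat_lit 57351) (nat_lit 0) (.e (nat_lit 7265) (nat_lit 384) (.e (nat_lit 57347) (nat_lit 0) (.e (nat_lit 7936) (nat_lit 343) .nil)))))))) (.g (nat_lit 7) .nil .nil))) 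
(.lf (nat_lit 47693) (.g (nat_lit 2417) (.e (nat_lit 7936) (nat_lit 92) (.e (nat_lit 98373) (nat_lit 29) (.e (nat_lit 450587) (nat_lit 10) (.e (nat_lit 573457) (nat_lit 9) .nil)))) .nil))) (.nd (nat_lit 6) 
(.lf (nat_lit 47661) (.g (nat_lit 994) (.e (nat_lit 7936) (nat_lit 92) (.e (nat_lit 98359) (nat_lit 26) (.e (nat_lit 426286) (nat_lit 10) (.e (nat_lit 434245) (nat_lit 28) .nil)))) .nil)) 
(.lf (nat_lit 47725) (.g (nat_lit 3175) (.e (nat_lit 1258) (nat_lit 93) (.e (nat_lit 106536) (nat_lit 11) (.e (nat_lit 16416) (nat_lit 3) (.e (nat_lit 204869) (nat_lit 29) (.e (nat_lit 360477) (nat_lit 11) .nil))))) .nil)))) (.nd (nat_lit 5) (.nd (nat_lit 6) 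
(.lf (nat_lit 47645) (.g (nat_lit 1546) (.e (nat_lit 1256) (nat_lit 92) (.e (nat_lit 98381) (nat_lit 31) (.e (nat_lit 466977) (nat_lit 22) (.e (nat_lit 196670) (nat_lit 14) .nil)))) .nil)) 
(.lf (nat_lit 47709) (.g (nat_lit 3312) (.e (nat_lit 1257) (nat_lit 93) (.e (nat_lit 106536) (nat_lit 11) (.e (nat_lit 16412) (nat_lit 2) (.e (nat_lit 196674) (nat_lit 15) (.e (nat_lit 81947) (nat_lit 20) .nil))))) .nil))) (.nd (nat_lit 6) 
(.lf (nat_lit 47677) (.g (nat_lit 1363) (.e (nat_lit 7936) (nat_lit 92) (.e (nat_lit 98372) (nat_lit 29) (.e (nat_lit 450579) (nat_lit 5) (.e (nat_lit 532563) (nat_lit 15) .nil)))) .nil)) 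
(.lf (nat_lit 47741) (.g (nat_lit 3315) (.e (nat_lit 1261) (nat_lit 93) (.e (nat_lit 106536) (nat_lit 11) (.e (nat_lit 16412) (nat_lit 2) (.e (nat_lit 196674) (nat_lit 15) (.e (nat_lit 81947) (nat_lit 20) .nil))))) .nil))))))) (.nd (nat_lit 2) (.nd (nat_lit 3) (.nd (nat_lit 4) (.nd (nat_lit 5) (.nd (nat_lit 6) 
(.lf (nat_lit 47619) (.g (nat_lit 2833) (.e (nat_lit 1256) (nat_lit 92) (.e (nat_lit 98373) (nat_lit 29) (.e (nat_lit 450588) (nat_lit 10) (.e (nat_lit 573475) (nat_lit 12) .nil)))) .nil)) 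
(.lf (nat_lit 47683) (.g (nat_lit 2117) (.e (nat_lit 7936) (nat_lit 92) (.e (nat_lit 98373) (nat_lit 29) (.e (nat_lit 450562) (nat_lit 0) (.e (nat_lit 6416) (nat_lit 341) .nil)))) .nil))) (.nd (nat_lit 6) 
(.lf (nat_lit 47651) (.g (nat_lit 2113) (.e (nat_lit 1256) (nat_lit 92) (.e (nat_lit 98384) (nat_lit 32) (.e (nat_lit 475177) (nat_lit 24) (.e (nat_lit 516169) (nat_lit 13) .nil)))) .nil)) 
(.lf (nat_lit 47715) (.g (nat_lit 3205) (.e (nat_lit 1257) (nat_lit 93) (.e (nat_lit 106536) (nat_lit 11) (.e (nat_lit 16436) (nat_lit 9) (.e (nat_lit 426555) (nat_lit 32) .nil)))) .nil)))) (.nd (nat_lit 5) (.nd (nat_lit 6) 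
(.lf (nat_lit 47635) (.g (nat_lit 1445) (.e (nat_lit 1256) (nat_lit 92) (.e (nat_lit 98373) (nat_lit 29) (.e (nat_lit 450601) (nat_lit 21) (.e (nat_lit 696341) (nat_lit 7) .nil)))) .nil)) 
(.lf (nat_lit 47699) (.g (nat_lit 3172) (.e (nat_lit 7936) (nat_lit 92) (.e (nat_lit 98373) (nat_lit 29) (.e (nat_lit 450588) (nat_lit 10) (.e (nat_lit 573452) (nat_lit 9) (.e (nat_lit 430) (nat_lit 32) .nil))))) .nil))) (.nd (nat_lit 6) 
(.lf (nat_lit 47667) (.g (nat_lit 1483) (.e (nat_lit 7936) (nat_lit 92) (.e (nat_lit 98370) (nat_lit 28) (.e (nat_lit 442424) (nat_lit 22) (.e (nat_lit 196661) (nat_lit 12) .nil)))) .nil)) 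
(.lf (nat_lit 47731) (.g (nat_lit 1088) (.e (nat_lit 1259) (nat_lit 93) (.e (nat_lit 106536) (nat_lit 11) (.e (nat_lit 16416) (nat_lit 3) .nil))) .nil))))) (.nd (nat_lit 4) (.nd (nat_lit 5) (.nd (nat_lit 6) 
(.lf (nat_lit 47627) (.g (nat_lit 3658) (.e (nat_lit 1256) (nat_lit 92) (.e (nat_lit 98373) (nat_lit 29) (.e (nat_lit 450588) (nat_lit 10) (.e (nat_lit 573475) (nat_lit 12) (.e (nat_lit 57351) (nat_lit 0) (.e (nat_lit 7261) (nat_lit 384) (.e (nat_lit 57347) (nat_lit 0) (.e (nat_lit 7936) (nat_lit 343) .nil)))))))) (.g (nat_lit 4) .nil .nil))) 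
(.lf (nat_lit 47691) (.g (nat_lit 2484) (.e (nat_lit 7936) (nat_lit 92) (.e (nat_lit 98373) (nat_lit 29) (.e (nat_lit 450587) (nat_lit 10) (.e (nat_lit 573456) (nat_lit 9) .nil)))) .nil))) (.nd (nat_lit 6) 
(.lf (nat_lit 47659) (.g (nat_lit 1372) (.e (nat_lit 7936) (nat_lit 92) (.e (nat_lit 98358) (nat_lit 26) (.e (nat_lit 426270) (nat_lit 9) (.e (nat_lit 426124) (nat_lit 2) (.e (nat_lit 196677) (nat_lit 16) .nil))))) .nil)) 
(.lf (nat_lit 47723) (.g (nat_lit 2029) (.e (nat_lit 1258) (nat_lit 93) (.e (nat_lit 106536) (nat_lit 11) (.e (nat_lit 16416) (nat_lit 3) (.e (nat_lit 204868) (nat_lit 29) .nil)))) .nil)))) (.nd (nat_lit 5) (.nd (nat_lit 6) 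
(.lf (nat_lit 47643) (.g (nat_lit 3458) (.e (nat_lit 1256) (nat_lit 92) (.e (nat_lit 98381) (nat_lit 31) (.e (nat_lit 466977) (nat_lit 22) (.e (nat_lit 196668) (nat_lit 14) (.e (nat_lit 73729) (nat_lit 0) (.e (nat_lit 4780) (nat_lit 281) (.e (nat_lit 1011) (nat_lit 81) .nil))))))) (.g (nat_lit 6) .nil .nil))) 
(.lf (nat_lit 47707) (.g (nat_lit 2421) (.e (nat_lit 1257) (nat_lit 93) (.e (nat_lit 106536) (nat_lit 11) (.e (nat_lit 16412) (nat_lit 2) (.e (nat_lit 196672) (nat_lit 15) .nil)))) .nil))) (.nd (nat_lit 6) 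
(.lf (nat_lit 47675) (.g (nat_lit 1935) (.e (nat_lit 7936) (nat_lit 92) (.e (nat_lit 98372) (nat_lit 29) (.e (nat_lit 450579) (nat_lit 5) (.e (nat_lit 532526) (nat_lit 8) (.e (nat_lit 327705) (nat_lit 10) .nil))))) .nil)) 
(.lf (nat_lit 47739) (.g (nat_lit 2423) (.e (nat_lit 1261) (nat_lit 93) (.e (nat_lit 106536) (nat_lit 11) (.e (nat_lit 16412) (nat_lit 2) (.e (nat_lit 196672) (nat_lit 15) .nil)))) .nil)))))) (.nd (nat_lit 3) (.nd (nat_lit 4) (.nd (nat_lit 5) (.nd (nat_lit 6) 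
(.lf (nat_lit 47623) (.g (nat_lit 6019) (.e (nat_lit 1256) (nat_lit 92) (.e (nat_lit 98373) (nat_lit 29) (.e (nat_lit 450588) (nat_lit 10) (.e (nat_lit 573475) (nat_lit 12) (.e (nat_lit 57347) (nat_lit 0) (.e (nat_lit 7265) (nat_lit 384) (.e (nat_lit 57347) (nat_lit 0) (.e (nat_lit 7936) (nat_lit 343) .nil)))))))) (.g (nat_lit 7) .nil .nil))) 
(.lf (nat_lit 47687) (.g (nat_lit 995) (.e (nat_lit 7936) (nat_lit 92) (.e (nat_lit 98373) (nat_lit 29) (.e (nat_lit 450580) (nat_lit 5) .nil))) .nil))) (.nd (nat_lit 6) 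
(.lf (nat_lit 47655) (.g (nat_lit 3136) (.e (nat_lit 1256) (nat_lit 92) (.e (nat_lit 98389) (nat_lit 33) (.e (nat_lit 491546) (nat_lit 9) (.e (nat_lit 336013) (nat_lit 2) (.e (nat_lit 90165) (nat_lit 12) (.e (nat_lit 164219) (nat_lit 180) (.e (nat_lit 229643) (nat_lit 232) .nil))))))) (.g (nat_lit 5) .nil .nil))) 
(.lf (nat_lit 47719) (.g (nat_lit 1442) (.e (nat_lit 1258) (nat_lit 93) (.e (nat_lit 106536) (nat_lit 11) (.e (nat_lit 16412) (nat_lit 2) .nil))) .nil)))) (.nd (nat_lit 5) (.nd (nat_lit 6) 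
(.lf (nat_lit 47639) (.g (nat_lit 2267) (.e (nat_lit 1256) (nat_lit 92) (.e (nat_lit 98374) (nat_lit 29) (.e (nat_lit 450580) (nat_lit 5) (.e (nat_lit 532523) (nat_lit 7) (.e (nat_lit 319505) (nat_lit 10) (.e (nat_lit 7936) (nat_lit 298) .nil)))))) (.g (nat_lit 5) .nil .nil))) 
(.lf (nat_lit 47703) (.g (nat_lit 3012) (.e (nat_lit 7936) (nat_lit 92) (.e (nat_lit 98373) (nat_lit 29) (.e (nat_lit 450588) (nat_lit 10) (.e (nat_lit 573471) (nat_lit 11) (.e (nat_lit 16386) (nat_lit 0) .nil))))) .nil))) (.nd (nat_lit 6) 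
(.lf (nat_lit 47671) (.g (nat_lit 1881) (.e (nat_lit 7936) (nat_lit 92) (.e (nat_lit 98370) (nat_lit 28) (.e (nat_lit 442427) (nat_lit 23) (.e (nat_lit 204846) (nat_lit 24) .nil)))) .nil)) 
(.lf (nat_lit 47735) (.g (nat_lit 1286) (.e (nat_lit 1260) (nat_lit 93) (.e (nat_lit 106536) (nat_lit 11) (.e (nat_lit 16416) (nat_lit 3) .nil))) .nil))))) (.nd (nat_lit 4) (.nd (nat_lit 5) (.nd (nat_lit 6) 
(.lf (nat_lit 47631) (.g (nat_lit 4077) (.e (nat_lit 1256) (nat_lit 92) (.e (nat_lit 98373) (nat_lit 29) (.e (nat_lit 450588) (nat_lit 10) (.e (nat_lit 573475) (nat_lit 12) (.e (nat_lit 57353) (nat_lit 0) .nil))))) .nil)) 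
(.lf (nat_lit 47695) (.g (nat_lit 3657) (.e (nat_lit 7936) (nat_lit 92) (.e (nat_lit 98373) (nat_lit 29) (.e (nat_lit 450588) (nat_lit 10) (.e (nat_lit 573448) (nat_lit 9) .nil)))) .nil))) (.nd (nat_lit 6) 
(.lf (nat_lit 47663) (.g (nat_lit 1087) (.e (nat_lit 7936) (nat_lit 92) (.e (nat_lit 98359) (nat_lit 26) (.e (nat_lit 426286) (nat_lit 10) (.e (nat_lit 434248) (nat_lit 28) .nil)))) .nil)) 
(.lf (nat_lit 47727) (.g (nat_lit 1457) (.e (nat_lit 1258) (nat_lit 93) (.e (nat_lit 106536) (nat_lit 11) (.e (nat_lit 16436) (nat_lit 9) .nil))) .nil)))) (.nd (nat_lit 5) (.nd (nat_lit 6) 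
(.lf (nat_lit 47647) (.g (nat_lit 1791) (.e (nat_lit 1256) (nat_lit 92) (.e (nat_lit 98381) (nat_lit 31) (.e (nat_lit 466977) (nat_lit 22) (.e (nat_lit 196677) (nat_lit 16) (.e (nat_lit 123080) (nat_lit 177) (.e (nat_lit 65280) (nat_lit 270) .nil)))))) (.g (nat_lit 4) .nil .nil))) 
(.lf (nat_lit 47711) (.g (nat_lit 3001) (.e (nat_lit 1257) (nat_lit 93) (.e (nat_lit 106536) (nat_lit 11) (.e (nat_lit 16416) (nat_lit 3) (.e (nat_lit 204861) (nat_lit 26) .nil)))) .nil))) (.nd (nat_lit 6) 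
(.lf (nat_lit 47679) (.g (nat_lit 2987) (.e (nat_lit 7936) (nat_lit 92) (.e (nat_lit 98372) (nat_lit 29) (.e (nat_lit 450588) (nat_lit 10) (.e (nat_lit 573469) (nat_lit 11) .nil)))) .nil)) 
(.lf (nat_lit 47743) (.g (nat_lit 3045) (.e (nat_lit 1261) (nat_lit 93) (.e (nat_lit 106536) (nat_lit 11) (.e (nat_lit 16416) (nat_lit 3) (.e (nat_lit 204869) (nat_lit 29) (.e (nat_lit 368384) (nat_lit 10) .nil))))) .nil)))))))))

noncomputable def tv663 : DT := (.nd (nat_lit 0) (.nd (nat_lit 1) (.nd (nat_lit 2) (.nd (nat_lit 3) (.nd (nat_lit 4) (.nd (nat_lit 5) (.nd (nat_lit 6) 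
(.lf (nat_lit 47744) (.g (nat_lit 3116) (.e (nat_lit 1261) (nat_lit 93) (.e (nat_lit 106536) (nat_lit 11) (.e (nat_lit 16416) (nat_lit 3) (.e (nat_lit 204877) (nat_lit 31) (.e (nat_lit 376855) (nat_lit 20) .nil))))) .nil)) 
(.lf (nat_lit 47808) (.g (nat_lit 3622) (.e (nat_lit 1267) (nat_lit 93) (.e (nat_lit 106536) (nat_lit 11) (.e (nat_lit 16412) (nat_lit 2) (.e (nat_lit 196672) (nat_lit 15) (.e (nat_lit 81935) (nat_lit 20) (.e (nat_lit 1879) (nat_lit 126) (.e (nat_lit 573465) (nat_lit 9) .nil))))))) (.g (nat_lit 0) .nil .nil)))) (.nd (nat_lit 6) 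
(.lf (nat_lit 47776) (.g (nat_lit 2822) (.e (nat_lit 1265) (nat_lit 93) (.e (nat_lit 106536) (nat_lit 11) (.e (nat_lit 16412) (nat_lit 2) (.e (nat_lit 196672) (nat_lit 15) (.e (nat_lit 81943) (nat_lit 20) .nil))))) .nil)) 
(.lf (nat_lit 47840) (.g (nat_lit 3115) (.e (nat_lit 1269) (nat_lit 93) (.e (nat_lit 106536) (nat_lit 11) (.e (nat_lit 16412) (nat_lit 2) (.e (nat_lit 196666) (nat_lit 13) (.e (nat_lit 65610) (nat_lit 10) (.e (nat_lit 344138) (nat_lit 29) (.e (nat_lit 589568) (nat_lit 9) .nil))))))) (.g (nat_lit 4) .nil .nil))))) (.nd (nat_lit 5) (.nd (nat_lit 6) 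
(.lf (nat_lit 47760) (.g (nat_lit 1692) (.e (nat_lit 1263) (nat_lit 93) (.e (nat_lit 106534) (nat_lit 11) (.e (nat_lit 16417) (nat_lit 3) (.e (nat_lit 204854) (nat_lit 26) (.e (nat_lit 336182) (nat_lit 11) .nil))))) .nil)) 
(.lf (nat_lit 47824) (.g (nat_lit 2063) (.e (nat_lit 1267) (nat_lit 93) (.e (nat_lit 106536) (nat_lit 11) (.e (nat_lit 16467) (nat_lit 13) (.e (nat_lit 483395) (nat_lit 24) (.e (nat_lit 344156) (nat_lit 36) .nil))))) .nil))) (.nd (nat_lit 6) 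
(.lf (nat_lit 47792) (.g (nat_lit 698) (.e (nat_lit 1266) (nat_lit 93) (.e (nat_lit 106536) (nat_lit 11) (.e (nat_lit 16416) (nat_lit 3) .nil))) .nil)) 
(.lf (nat_lit 47856) (.g (nat_lit 2355) (.e (nat_lit 1270) (nat_lit 93) (.e (nat_lit 106534) (nat_lit 11) (.e (nat_lit 16425) (nat_lit 7) (.e (nat_lit 409648) (nat_lit 18) (.e (nat_lit 303136) (nat_lit 10) .nil))))) .nil))))) (.nd (nat_lit 4) (.nd (nat_lit 5) (.nd (nat_lit 6) 
(.lf (nat_lit 47752) (.g (nat_lit 3045) (.e (nat_lit 1262) (nat_lit 93) (.e (nat_lit 106536) (nat_lit 11) (.e (nat_lit 16416) (nat_lit 3) (.e (nat_lit 204868) (nat_lit 29) (.e (nat_lit 368384) (nat_lit 10) .nil))))) .nil)) 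
(.lf (nat_lit 47816) (.g (nat_lit 2549) (.e (nat_lit 1267) (nat_lit 93) (.e (nat_lit 106536) (nat_lit 11) (.e (nat_lit 16416) (nat_lit 3) (.e (nat_lit 204866) (nat_lit 28) (.e (nat_lit 352318) (nat_lit 24) .nil))))) .nil))) (.nd (nat_lit 6) 
(.lf (nat_lit 47784) (.g (nat_lit 1463) (.e (nat_lit 1265) (nat_lit 93) (.e (nat_lit 106536) (nat_lit 11) (.e (nat_lit 16466) (nat_lit 13) .nil))) .nil)) 
(.lf (nat_lit 47848) (.g (nat_lit 3699) (.e (nat_lit 1269) (nat_lit 93) (.e (nat_lit 106536) (nat_lit 11) (.e (nat_lit 16412) (nat_lit 2) (.e (nat_lit 196681) (nat_lit 17) (.e (nat_lit 131109) (nat_lit 9) .nil))))) .nil)))) (.nd (nat_lit 5) (.nd (nat_lit 6) 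
(.lf (nat_lit 47768) (.g (nat_lit 1696) (.e (nat_lit 1264) (nat_lit 93) (.e (nat_lit 106534) (nat_lit 11) (.e (nat_lit 16425) (nat_lit 7) (.e (nat_lit 409643) (nat_lit 18) .nil)))) .nil)) 
(.lf (nat_lit 47832) (.g (nat_lit 2713) (.e (nat_lit 1268) (nat_lit 93) (.e (nat_lit 106536) (nat_lit 11) (.e (nat_lit 16416) (nat_lit 3) (.e (nat_lit 204868) (nat_lit 29) (.e (nat_lit 368384) (nat_lit 10) .nil))))) .nil))) (.nd (nat_lit 6) 
(.lf (nat_lit 47800) (.g (nat_lit 3674) (.e (nat_lit 1266) (nat_lit 93) (.e (nat_lit 106536) (nat_lit 11) (.e (nat_lit 16466) (nat_lit 13) (.e (nat_lit 483395) (nat_lit 24) .nil)))) .nil)) 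
(.lf (nat_lit 47864) (.g (nat_lit 1999) (.e (nat_lit 1270) (nat_lit 93) (.e (nat_lit 106536) (nat_lit 11) (.e (nat_lit 16412) (nat_lit 2) (.e (nat_lit 196666) (nat_lit 13) .nil)))) .nil)))))) (.nd (nat_lit 3) (.nd (nat_lit 4) (.nd (nat_lit 5) (.nd (nat_lit 6) 
(.lf (nat_lit 47748) (.g (nat_lit 2441) (.e (nat_lit 1262) (nat_lit 93) (.e (nat_lit 106536) (nat_lit 11) (.e (nat_lit 16412) (nat_lit 2) (.e (nat_lit 196672) (nat_lit 15) .nil)))) .nil)) 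
(.lf (nat_lit 47812) (.g (nat_lit 2658) (.e (nat_lit 1267) (nat_lit 93) (.e (nat_lit 106536) (nat_lit 11) (.e (nat_lit 16412) (nat_lit 2) (.e (nat_lit 196681) (nat_lit 17) .nil)))) .nil))) (.nd (nat_lit 6) 
(.lf (nat_lit 47780) (.g (nat_lit 3093) (.e (nat_lit 1265) (nat_lit 93) (.e (nat_lit 106536) (nat_lit 11) (.e (nat_lit 16416) (nat_lit 3) (.e (nat_lit 204868) (nat_lit 29) (.e (nat_lit 368384) (nat_lit 10) .nil))))) .nil)) 
(.lf (nat_lit 47844) (.g (nat_lit 2859) (.e (nat_lit 1269) (nat_lit 93) (.e (nat_lit 106536) (nat_lit 11) (.e (nat_lit 16412) (nat_lit 2) (.e (nat_lit 196672) (nat_lit 15) (.e (nat_lit 89856) (nat_lit 7) .nil))))) .nil)))) (.nd (nat_lit 5) (.nd (nat_lit 6) 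
(.lf (nat_lit 47764) (.g (nat_lit 1501) (.e (nat_lit 1263) (nat_lit 93) (.e (nat_lit 106534) (nat_lit 11) (.e (nat_lit 16425) (nat_lit 7) (.e (nat_lit 409647) (nat_lit 18) .nil)))) .nil)) 
(.lf (nat_lit 47828) (.g (nat_lit 1358) (.e (nat_lit 1268) (nat_lit 93) (.e (nat_lit 106536) (nat_lit 11) (.e (nat_lit 16412) (nat_lit 2) .nil))) .nil))) (.nd (nat_lit 6) 
(.lf (nat_lit 47796) (.g (nat_lit 2028) (.e (nat_lit 1266) (nat_lit 93) (.e (nat_lit 106536) (nat_lit 11) (.e (nat_lit 16417) (nat_lit 3) (.e (nat_lit 204869) (nat_lit 29) (.e (nat_lit 368384) (nat_lit 10) .nil))))) .nil)) 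
(.lf (nat_lit 47860) (.g (nat_lit 1496) (.e (nat_lit 1270) (nat_lit 93) (.e (nat_lit 106534) (nat_lit 11) (.e (nat_lit 16467) (nat_lit 13) (.e (nat_lit 483395) (nat_lit 24) (.e (nat_lit 344156) (nat_lit 36) .nil))))) .nil))))) (.nd (nat_lit 4) (.nd (nat_lit 5) (.nd (nat_lit 6) 
(.lf (nat_lit 47756) (.g (nat_lit 1446) (.e (nat_lit 1262) (nat_lit 93) (.e (nat_lit 106536) (nat_lit 11) (.e (nat_lit 16466) (nat_lit 13) .nil))) .nil)) 
(.lf (nat_lit 47820) (.g (nat_lit 2704) (.e (nat_lit 1267) (nat_lit 93) (.e (nat_lit 106536) (nat_lit 11) (.e (nat_lit 16463) (nat_lit 13) (.e (nat_lit 483395) (nat_lit 24) .nil)))) .nil))) (.nd (nat_lit 6) 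
(.lf (nat_lit 47788) (.g (nat_lit 2067) (.e (nat_lit 1266) (nat_lit 93) (.e (nat_lit 106536) (nat_lit 11) (.e (nat_lit 16412) (nat_lit 2) (.e (nat_lit 196666) (nat_lit 13) .nil)))) .nil)) 
(.lf (nat_lit 47852) (.g (nat_lit 3231) (.e (nat_lit 1269) (nat_lit 93) (.e (nat_lit 106536) (nat_lit 11) (.e (nat_lit 16466) (nat_lit 13) (.e (nat_lit 483393) (nat_lit 23) .nil)))) .nil)))) (.nd (nat_lit 5) (.nd (nat_lit 6) 
(.lf (nat_lit 47772) (.g (nat_lit 3673) (.e (nat_lit 1264) (nat_lit 93) (.e (nat_lit 106536) (nat_lit 11) (.e (nat_lit 16466) (nat_lit 13) (.e (nat_lit 483395) (nat_lit 24) .nil)))) .nil)) 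
(.lf (nat_lit 47836) (.g (nat_lit 1093) (.e (nat_lit 1268) (nat_lit 93) (.e (nat_lit 106536) (nat_lit 11) (.e (nat_lit 16468) (nat_lit 13) .nil))) .nil))) (.nd (nat_lit 6) 
(.lf (nat_lit 47804) (.g (nat_lit 1300) (.e (nat_lit 1267) (nat_lit 93) (.e (nat_lit 106536) (nat_lit 11) (.e (nat_lit 16411) (nat_lit 2) (.e (nat_lit 196672) (nat_lit 15) .nil)))) .nil)) 
(.lf (nat_lit 47868) (.g (nat_lit 3081) (.e (nat_lit 1270) (nat_lit 93) (.e (nat_lit 106536) (nat_lit 11) (.e (nat_lit 16412) (nat_lit 2) (.e (nat_lit 196672) (nat_lit 15) (.e (nat_lit 81935) (nat_lit 20) (.e (nat_lit 1879) (nat_lit 126) (.e (nat_lit 573461) (nat_lit 9) .nil))))))) (.g (nat_lit 6) .nil .nil)))))))) 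
(.nd (nat_lit 2) (.nd (nat_lit 3) (.nd (nat_lit 4) (.nd (nat_lit 5) (.nd (nat_lit 6) 
(.lf (nat_lit 47746) (.g (nat_lit 3014) (.e (nat_lit 1261) (nat_lit 93) (.e (nat_lit 106536) (nat_lit 11) (.e (nat_lit 16466) (nat_lit 13) (.e (nat_lit 483393) (nat_lit 23) .nil)))) .nil)) 
(.lf (nat_lit 47810) (.g (nat_lit 2549) (.e (nat_lit 1267) (nat_lit 93) (.e (nat_lit 106536) (nat_lit 11) (.e (nat_lit 16412) (nat_lit 2) (.e (nat_lit 196672) (nat_lit 15) (.e (nat_lit 81957) (nat_lit 24) .nil))))) .nil))) (.nd (nat_lit 6) 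
(.lf (nat_lit 47778) (.g (nat_lit 3195) (.e (nat_lit 1265) (nat_lit 93) (.e (nat_lit 106536) (nat_lit 11) (.e (nat_lit 16412) (nat_lit 2) (.e (nat_lit 196681) (nat_lit 17) .nil)))) .nil)) 
(.lf (nat_lit 47842) (.g (nat_lit 2380) (.e (nat_lit 1269) (nat_lit 93) (.e (nat_lit 106536) (nat_lit 11) (.e (nat_lit 16412) (nat_lit 2) (.e (nat_lit 196672) (nat_lit 15) .nil)))) .nil)))) (.nd (nat_lit 5) (.nd (nat_lit 6) 
(.lf (nat_lit 47762) (.g (nat_lit 1894) (.e (nat_lit 1263) (nat_lit 93) (.e (nat_lit 106534) (nat_lit 11) (.e (nat_lit 16425) (nat_lit 7) (.e (nat_lit 409643) (nat_lit 18) (.e (nat_lit 303143) (nat_lit 12) .nil))))) .nil)) 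
(.lf (nat_lit 47826) (.g (nat_lit 1939) (.e (nat_lit 1267) (nat_lit 93) (.e (nat_lit 106536) (nat_lit 11) (.e (nat_lit 16468) (nat_lit 13) (.e (nat_lit 483395) (nat_lit 24) (.e (nat_lit 344156) (nat_lit 36) .nil))))) .nil))) (.nd (nat_lit 6) 
(.lf (nat_lit 47794) (.g (nat_lit 2640) (.e (nat_lit 1266) (nat_lit 93) (.e (nat_lit 106536) (nat_lit 11) (.e (nat_lit 16416) (nat_lit 3) (.e (nat_lit 204869) (nat_lit 29) (.e (nat_lit 368384) (nat_lit 10) .nil))))) .nil)) 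
(.lf (nat_lit 47858) (.g (nat_lit 2433) (.e (nat_lit 1270) (nat_lit 93) (.e (nat_lit 106534) (nat_lit 11) (.e (nat_lit 16425) (nat_lit 7) (.e (nat_lit 409648) (nat_lit 18) (.e (nat_lit 303138) (nat_lit 10) (.e (nat_lit 442112) (nat_lit 37) (.e (nat_lit 647195) (nat_lit 9) .nil))))))) (.g (nat_lit 4) .nil .nil)))))) (.nd (nat_lit 4) (.nd (nat_lit 5) (.nd (nat_lit 6) 
(.lf (nat_lit 47754) (.g (nat_lit 2923) (.e (nat_lit 1262) (nat_lit 93) (.e (nat_lit 106536) (nat_lit 11) (.e (nat_lit 16416) (nat_lit 3) (.e (nat_lit 204877) (nat_lit 31) .nil)))) .nil)) 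
(.lf (nat_lit 47818) (.g (nat_lit 3305) (.e (nat_lit 1267) (nat_lit 93) (.e (nat_lit 106536) (nat_lit 11) (.e (nat_lit 16436) (nat_lit 9) (.e (nat_lit 426545) (nat_lit 30) .nil)))) .nil))) (.nd (nat_lit 6) 
(.lf (nat_lit 47786) (.g (nat_lit 2207) (.e (nat_lit 1266) (nat_lit 93) (.e (nat_lit 106534) (nat_lit 11) (.e (nat_lit 16425) (nat_lit 7) (.e (nat_lit 409649) (nat_lit 18) (.e (nat_lit 303140) (nat_lit 10) .nil))))) .nil)) 
(.lf (nat_lit 47850) (.g (nat_lit 1759) (.e (nat_lit 1269) (nat_lit 93) (.e (nat_lit 106536) (nat_lit 11) (.e (nat_lit 16416) (nat_lit 3) (.e (nat_lit 204869) (nat_lit 29) .nil)))) .nil)))) (.nd (nat_lit 5) (.nd (nat_lit 6) 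
(.lf (nat_lit 47770) (.g (nat_lit 2441) (.e (nat_lit 1264) (nat_lit 93) (.e (nat_lit 106536) (nat_lit 11) (.e (nat_lit 16412) (nat_lit 2) (.e (nat_lit 196672) (nat_lit 15) .nil)))) .nil)) 
(.lf (nat_lit 47834) (.g (nat_lit 2959) (.e (nat_lit 1268) (nat_lit 93) (.e (nat_lit 106536) (nat_lit 11) (.e (nat_lit 16416) (nat_lit 3) (.e (nat_lit 204869) (nat_lit 29) (.e (nat_lit 360477) (nat_lit 11) .nil))))) .nil))) (.nd (nat_lit 6) 
(.lf (nat_lit 47802) (.g (nat_lit 1371) (.e (nat_lit 1266) (nat_lit 93) (.e (nat_lit 106536) (nat_lit 11) (.e (nat_lit 16468) (nat_lit 13) (.e (nat_lit 483395) (nat_lit 24) .nil)))) .nil)) 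
(.lf (nat_lit 47866) (.g (nat_lit 2047) (.e (nat_lit 1270) (nat_lit 93) (.e (nat_lit 106536) (nat_lit 11) (.e (nat_lit 16412) (nat_lit 2) (.e (nat_lit 196672) (nat_lit 15) .nil)))) .nil)))))) (.nd (nat_lit 3) (.nd (nat_lit 4) (.nd (nat_lit 5) (.nd (nat_lit 6) 
(.lf (nat_lit 47750) (.g (nat_lit 3332) (.e (nat_lit 1262) (nat_lit 93) (.e (nat_lit 106536) (nat_lit 11) (.e (nat_lit 16412) (nat_lit 2) (.e (nat_lit 196674) (nat_lit 15) (.e (nat_lit 81947) (nat_lit 20) .nil))))) .nil)) 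
(.lf (nat_lit 47814) (.g (nat_lit 2562) (.e (nat_lit 1267) (nat_lit 93) (.e (nat_lit 106536) (nat_lit 11) (.e (nat_lit 16416) (nat_lit 3) (.e (nat_lit 204861) (nat_lit 26) .nil)))) .nil))) (.nd (nat_lit 6) 
(.lf (nat_lit 47782) (.g (nat_lit 2976) (.e (nat_lit 1265) (nat_lit 93) (.e (nat_lit 106536) (nat_lit 11) (.e (nat_lit 16416) (nat_lit 3) (.e (nat_lit 204877) (nat_lit 31) .nil)))) .nil)) 
(.lf (nat_lit 47846) (.g (nat_lit 2292) (.e (nat_lit 1269) (nat_lit 93) (.e (nat_lit 106536) (nat_lit 11) (.e (nat_lit 16412) (nat_lit 2) (.e (nat_lit 196674) (nat_lit 15) .nil)))) .nil)))) (.nd (nat_lit 5) (.nd (nat_lit 6) 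
(.lf (nat_lit 47766) (.g (nat_lit 2037) (.e (nat_lit 1263) (nat_lit 93) (.e (nat_lit 106534) (nat_lit 11) (.e (nat_lit 16425) (nat_lit 7) (.e (nat_lit 409649) (nat_lit 18) (.e (nat_lit 303140) (nat_lit 10) .nil))))) .nil)) 
(.lf (nat_lit 47830) (.g (nat_lit 3028) (.e (nat_lit 1268) (nat_lit 93) (.e (nat_lit 106536) (nat_lit 11) (.e (nat_lit 16412) (nat_lit 2) (.e (nat_lit 196672) (nat_lit 15) (.e (nat_lit 81934) (nat_lit 20) .nil))))) .nil))) (.nd (nat_lit 6) 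
(.lf (nat_lit 47798) (.g (nat_lit 1455) (.e (nat_lit 1266) (nat_lit 93) (.e (nat_lit 106536) (nat_lit 11) (.e (nat_lit 16436) (nat_lit 9) .nil))) .nil)) 
(.lf (nat_lit 47862) (.g (nat_lit 1288) (.e (nat_lit 1270) (nat_lit 93) (.e (nat_lit 106534) (nat_lit 11) (.e (nat_lit 16468) (nat_lit 13) (.e (nat_lit 483395) (nat_lit 24) (.e (nat_lit 344156) (nat_lit 36) .nil))))) .nil))))) (.nd (nat_lit 4) (.nd (nat_lit 5) (.nd (nat_lit 6) 
(.lf (nat_lit 47758) (.g (nat_lit 1895) (.e (nat_lit 1263) (nat_lit 93) (.e (nat_lit 106534) (nat_lit 11) (.e (nat_lit 16416) (nat_lit 3) (.e (nat_lit 204868) (nat_lit 29) (.e (nat_lit 368384) (nat_lit 10) .nil))))) .nil)) 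
(.lf (nat_lit 47822) (.g (nat_lit 2657) (.e (nat_lit 1267) (nat_lit 93) (.e (nat_lit 106536) (nat_lit 11) (.e (nat_lit 16466) (nat_lit 13) (.e (nat_lit 483393) (nat_lit 23) .nil)))) .nil))) (.nd (nat_lit 6) 
(.lf (nat_lit 47790) (.g (nat_lit 2908) (.e (nat_lit 1266) (nat_lit 93) (.e (nat_lit 106536) (nat_lit 11) (.e (nat_lit 16412) (nat_lit 2) (.e (nat_lit 196672) (nat_lit 15) (.e (nat_lit 81934) (nat_lit 20) (.e (nat_lit 7936) (nat_lit 126) (.e (nat_lit 573458) (nat_lit 9) .nil))))))) (.g (nat_lit 5) .nil .nil))) 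
(.lf (nat_lit 47854) (.g (nat_lit 1663) (.e (nat_lit 1269) (nat_lit 93) (.e (nat_lit 106536) (nat_lit 11) (.e (nat_lit 16467) (nat_lit 13) (.e (nat_lit 483395) (nat_lit 24) (.e (nat_lit 344156) (nat_lit 36) .nil))))) .nil)))) (.nd (nat_lit 5) (.nd (nat_lit 6) 
(.lf (nat_lit 47774) (.g (nat_lit 1747) (.e (nat_lit 1264) (nat_lit 93) (.e (nat_lit 106536) (nat_lit 11) (.e (nat_lit 16468) (nat_lit 13) (.e (nat_lit 483395) (nat_lit 24) .nil)))) .nil)) 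
(.lf (nat_lit 47838) (.g (nat_lit 2676) (.e (nat_lit 1269) (nat_lit 93) (.e (nat_lit 106534) (nat_lit 11) (.e (nat_lit 16425) (nat_lit 7) (.e (nat_lit 409648) (nat_lit 18) (.e (nat_lit 303138) (nat_lit 10) .nil))))) .nil))) (.nd (nat_lit 6) 
(.lf (nat_lit 47806) (.g (nat_lit 1892) (.e (nat_lit 1267) (nat_lit 93) (.e (nat_lit 106536) (nat_lit 11) (.e (nat_lit 16412) (nat_lit 2) (.e (nat_lit 196672) (nat_lit 15) .nil)))) .nil)) 
(.lf (nat_lit 47870) (.g (nat_lit 1950) (.e (nat_lit 1270) (nat_lit 93) (.e (nat_lit 106536) (nat_lit 11) (.e (nat_lit 16412) (nat_lit 2) (.e (nat_lit 196674) (nat_lit 15) .nil)))) .nil)))))))) (.nd (nat_lit 1) (.nd (nat_lit 2) (.nd (nat_lit 3) (.nd (nat_lit 4) (.nd (nat_lit 5) (.nd (nat_lit 6) 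
(.lf (nat_lit 47745) (.g (nat_lit 3051) (.e (nat_lit 1261) (nat_lit 93) (.e (nat_lit 106536) (nat_lit 11) (.e (nat_lit 16436) (nat_lit 9) (.e (nat_lit 426555) (nat_lit 32) .nil)))) .nil)) 
(.lf (nat_lit 47809) (.g (nat_lit 2273) (.e (nat_lit 1267) (nat_lit 93) (.e (nat_lit 106536) (nat_lit 11) (.e (nat_lit 16412) (nat_lit 2) (.e (nat_lit 196672) (nat_lit 15) (.e (nat_lit 81943) (nat_lit 20) .nil))))) .nil))) (.nd (nat_lit 6) 
(.lf (nat_lit 47777) (.g (nat_lit 2311) (.e (nat_lit 1265) (nat_lit 93) (.e (nat_lit 106536) (nat_lit 11) (.e (nat_lit 16412) (nat_lit 2) (.e (nat_lit 196674) (nat_lit 15) .nil)))) .nil)) 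
(.lf (nat_lit 47841) (.g (nat_lit 3031) (.e (nat_lit 1269) (nat_lit 93) (.e (nat_lit 106536) (nat_lit 11) (.e (nat_lit 16412) (nat_lit 2) (.e (nat_lit 196666) (nat_lit 13) (.e (nat_lit 65624) (nat_lit 12) .nil))))) .nil)))) (.nd (nat_lit 5) (.nd (nat_lit 6) 
(.lf (nat_lit 47761) (.g (nat_lit 1354) (.e (nat_lit 1263) (nat_lit 93) (.e (nat_lit 106534) (nat_lit 11) (.e (nat_lit 16417) (nat_lit 3) (.e (nat_lit 204870) (nat_lit 29) (.e (nat_lit 368384) (nat_lit 10) .nil))))) .nil)) 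
(.lf (nat_lit 47825) (.g (nat_lit 2974) (.e (nat_lit 1267) (nat_lit 93) (.e (nat_lit 106536) (nat_lit 11) (.e (nat_lit 16467) (nat_lit 13) (.e (nat_lit 483395) (nat_lit 24) (.e (nat_lit 344156) (nat_lit 36) (.e (nat_lit 639012) (nat_lit 13) .nil)))))) (.g (nat_lit 0) .nil .nil)))) (.nd (nat_lit 6) 
(.lf (nat_lit 47793) (.g (nat_lit 2384) (.e (nat_lit 1266) (nat_lit 93) (.e (nat_lit 106536) (nat_lit 11) (.e (nat_lit 16416) (nat_lit 3) (.e (nat_lit 204868) (nat_lit 29) (.e (nat_lit 368384) (nat_lit 10) .nil))))) .nil)) 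
(.lf (nat_lit 47857) (.g (nat_lit 1954) (.e (nat_lit 1270) (nat_lit 93) (.e (nat_lit 106534) (nat_lit 11) (.e (nat_lit 16425) (nat_lit 7) (.e (nat_lit 409648) (nat_lit 18) (.e (nat_lit 303137) (nat_lit 10) .nil))))) .nil))))) (.nd (nat_lit 4) (.nd (nat_lit 5) (.nd (nat_lit 6) 
(.lf (nat_lit 47753) (.g (nat_lit 3266) (.e (nat_lit 1262) (nat_lit 93) (.e (nat_lit 106536) (nat_lit 11) (.e (nat_lit 16416) (nat_lit 3) (.e (nat_lit 204869) (nat_lit 29) (.e (nat_lit 368384) (nat_lit 10) .nil))))) .nil)) 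
(.lf (nat_lit 47817) (.g (nat_lit 3019) (.e (nat_lit 1267) (nat_lit 93) (.e (nat_lit 106536) (nat_lit 11) (.e (nat_lit 16416) (nat_lit 3) (.e (nat_lit 204877) (nat_lit 31) (.e (nat_lit 376855) (nat_lit 20) .nil))))) .nil))) (.nd (nat_lit 6) 
(.lf (nat_lit 47785) (.g (nat_lit 2311) (.e (nat_lit 1266) (nat_lit 93) (.e (nat_lit 106534) (nat_lit 11) (.e (nat_lit 16425) (nat_lit 7) (.e (nat_lit 409648) (nat_lit 18) (.e (nat_lit 303137) (nat_lit 10) .nil))))) .nil)) 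
(.lf (nat_lit 47849) (.g (nat_lit 2623) (.e (nat_lit 1269) (nat_lit 93) (.e (nat_lit 106536) (nat_lit 11) (.e (nat_lit 16416) (nat_lit 3) (.e (nat_lit 204861) (nat_lit 26) .nil)))) .nil)))) (.nd (nat_lit 5) (.nd (nat_lit 6) 
(.lf (nat_lit 47769) (.g (nat_lit 2261) (.e (nat_lit 1264) (nat_lit 93) (.e (nat_lit 106534) (nat_lit 11) (.e (nat_lit 16425) (nat_lit 7) (.e (nat_lit 409649) (nat_lit 18) (.e (nat_lit 303143) (nat_lit 12) .nil))))) .nil)) 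
(.lf (nat_lit 47833) (.g (nat_lit 2994) (.e (nat_lit 1268) (nat_lit 93) (.e (nat_lit 106536) (nat_lit 11) (.e (nat_lit 16416) (nat_lit 3) (.e (nat_lit 204869) (nat_lit 29) (.e (nat_lit 368384) (nat_lit 10) .nil))))) .nil))) (.nd (nat_lit 6) 
(.lf (nat_lit 47801) (.g (nat_lit 1287) (.e (nat_lit 1266) (nat_lit 93) (.e (nat_lit 106536) (nat_lit 11) (.e (nat_lit 16467) (nat_lit 13) (.e (nat_lit 483395) (nat_lit 24) .nil)))) .nil)) 
(.lf (nat_lit 47865) (.g (nat_lit 2710) (.e (nat_lit 1270) (nat_lit 93) (.e (nat_lit 106536) (nat_lit 11) (.e (nat_lit 16412) (nat_lit 2) (.e (nat_lit 196666) (nat_lit 13) (.e (nat_lit 65624) (nat_lit 12) (.e (nat_lit 385059) (nat_lit 22) (.e (nat_lit 499978) (nat_lit 14) .nil))))))) (.g (nat_lit 4) .nil .nil))))))) (.nd (nat_lit 3) (.nd (nat_lit 4) (.nd (nat_lit 5) (.nd (nat_lit 6) 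
(.lf (nat_lit 47749) (.g (nat_lit 3151) (.e (nat_lit 1262) (nat_lit 93) (.e (nat_lit 106536) (nat_lit 11) (.e (nat_lit 16412) (nat_lit 2) (.e (nat_lit 196672) (nat_lit 15) (.e (nat_lit 81934) (nat_lit 20) .nil))))) .nil)) 
(.lf (nat_lit 47813) (.g (nat_lit 983) (.e (nat_lit 1267) (nat_lit 93) (.e (nat_lit 106536) (nat_lit 11) (.e (nat_lit 16416) (nat_lit 3) .nil))) .nil))) (.nd (nat_lit 6) 
(.lf (nat_lit 47781) (.g (nat_lit 3289) (.e (nat_lit 1265) (nat_lit 93) (.e (nat_lit 106536) (nat_lit 11) (.e (nat_lit 16416) (nat_lit 3) (.e (nat_lit 204869) (nat_lit 29) (.e (nat_lit 368384) (nat_lit 10) .nil))))) .nil)) 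
(.lf (nat_lit 47845) (.g (nat_lit 3569) (.e (nat_lit 1269) (nat_lit 93) (.e (nat_lit 106536) (nat_lit 11) (.e (nat_lit 16412) (nat_lit 2) (.e (nat_lit 196672) (nat_lit 15) (.e (nat_lit 81935) (nat_lit 20) (.e (nat_lit 1879) (nat_lit 126) (.e (nat_lit 573461) (nat_lit 9) .nil))))))) (.g (nat_lit 7) .nil .nil))))) (.nd (nat_lit 5) (.nd (nat_lit 6) 
(.lf (nat_lit 47765) (.g (nat_lit 2394) (.e (nat_lit 1263) (nat_lit 93) (.e (nat_lit 106534) (nat_lit 11) (.e (nat_lit 16425) (nat_lit 7) (.e (nat_lit 409648) (nat_lit 18) (.e (nat_lit 303137) (nat_lit 10) .nil))))) .nil)) 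
(.lf (nat_lit 47829) (.g (nat_lit 2318) (.e (nat_lit 1268) (nat_lit 93) (.e (nat_lit 106536) (nat_lit 11) (.e (nat_lit 16412) (nat_lit 2) (.e (nat_lit 196672) (nat_lit 15) .nil)))) .nil))) (.nd (nat_lit 6) 
(.lf (nat_lit 47797) (.g (nat_lit 1668) (.e (nat_lit 1266) (nat_lit 93) (.e (nat_lit 106536) (nat_lit 11) (.e (nat_lit 16417) (nat_lit 3) (.e (nat_lit 204870) (nat_lit 29) (.e (nat_lit 360477) (nat_lit 11) .nil))))) .nil)) 
(.lf (nat_lit 47861) (.g (nat_lit 1500) (.e (nat_lit 1270) (nat_lit 93) (.e (nat_lit 106534) (nat_lit 11) (.e (nat_lit 16467) (nat_lit 13) (.e (nat_lit 483395) (nat_lit 24) (.e (nat_lit 344156) (nat_lit 36) (.e (nat_lit 639011) (nat_lit 13) .nil)))))) (.g (nat_lit 4) .nil .nil)))))) (.nd (nat_lit 4) (.nd (nat_lit 5) (.nd (nat_lit 6) 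
(.lf (nat_lit 47757) (.g (nat_lit 577) (.e (nat_lit 1263) (nat_lit 93) (.e (nat_lit 106534) (nat_lit 11) (.e (nat_lit 16413) (nat_lit 2) .nil))) .nil)) 
(.lf (nat_lit 47821) (.g (nat_lit 2343) (.e (nat_lit 1267) (nat_lit 93) (.e (nat_lit 106536) (nat_lit 11) (.e (nat_lit 16465) (nat_lit 13) (.e (nat_lit 483395) (nat_lit 24) .nil)))) .nil))) (.nd (nat_lit 6) 
(.lf (nat_lit 47789) (.g (nat_lit 2095) (.e (nat_lit 1266) (nat_lit 93) (.e (nat_lit 106536) (nat_lit 11) (.e (nat_lit 16412) (nat_lit 2) (.e (nat_lit 196672) (nat_lit 15) .nil)))) .nil)) 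
(.lf (nat_lit 47853) (.g (nat_lit 3674) (.e (nat_lit 1269) (nat_lit 93) (.e (nat_lit 106536) (nat_lit 11) (.e (nat_lit 16466) (nat_lit 13) (.e (nat_lit 483395) (nat_lit 24) .nil)))) .nil)))) (.nd (nat_lit 5) (.nd (nat_lit 6) 
(.lf (nat_lit 47773) (.g (nat_lit 1035) (.e (nat_lit 1264) (nat_lit 93) (.e (nat_lit 106536) (nat_lit 11) (.e (nat_lit 16467) (nat_lit 13) .nil))) .nil)) 
(.lf (nat_lit 47837) (.g (nat_lit 2205) (.e (nat_lit 1269) (nat_lit 93) (.e (nat_lit 106534) (nat_lit 11) (.e (nat_lit 16425) (nat_lit 7) (.e (nat_lit 409648) (nat_lit 18) (.e (nat_lit 303137) (nat_lit 10) .nil))))) .nil))) (.nd (nat_lit 6) 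
(.lf (nat_lit 47805) (.g (nat_lit 992) (.e (nat_lit 1267) (nat_lit 93) (.e (nat_lit 106536) (nat_lit 11) (.e (nat_lit 16412) (nat_lit 2) .nil))) .nil)) 
(.lf (nat_lit 47869) (.g (nat_lit 2704) (.e (nat_lit 1270) (nat_lit 93) (.e (nat_lit 106536) (nat_lit 11) (.e (nat_lit 16412) (nat_lit 2) (.e (nat_lit 196672) (nat_lit 15) (.e (nat_lit 81957) (nat_lit 24) .nil))))) .nil))))))) (.nd (nat_lit 2) (.nd (nat_lit 3) (.nd (nat_lit 4) (.nd (nat_lit 5) (.nd (nat_lit 6) 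
(.lf (nat_lit 47747) (.g (nat_lit 1453) (.e (nat_lit 1262) (nat_lit 93) (.e (nat_lit 106536) (nat_lit 11) (.e (nat_lit 16412) (nat_lit 2) .nil))) .nil)) 
(.lf (nat_lit 47811) (.g (nat_lit 1654) (.e (nat_lit 1267) (nat_lit 93) (.e (nat_lit 106536) (nat_lit 11) (.e (nat_lit 16412) (nat_lit 2) (.e (nat_lit 196674) (nat_lit 15) .nil)))) .nil))) (.nd (nat_lit 6) 
(.lf (nat_lit 47779) (.g (nat_lit 1325) (.e (nat_lit 1265) (nat_lit 93) (.e (nat_lit 106536) (nat_lit 11) (.e (nat_lit 16416) (nat_lit 3) .nil))) .nil)) 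
(.lf (nat_lit 47843) (.g (nat_lit 2859) (.e (nat_lit 1269) (nat_lit 93) (.e (nat_lit 106536) (nat_lit 11) (.e (nat_lit 16412) (nat_lit 2) (.e (nat_lit 196672) (nat_lit 15) (.e (nat_lit 89856) (nat_lit 2) .nil))))) .nil)))) (.nd (nat_lit 5) (.nd (nat_lit 6) 
(.lf (nat_lit 47763) (.g (nat_lit 2004) (.e (nat_lit 1263) (nat_lit 93) (.e (nat_lit 106534) (nat_lit 11) (.e (nat_lit 16425) (nat_lit 7) (.e (nat_lit 409646) (nat_lit 18) (.e (nat_lit 303143) (nat_lit 12) .nil))))) .nil)) 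
(.lf (nat_lit 47827) (.g (nat_lit 2860) (.e (nat_lit 1267) (nat_lit 93) (.e (nat_lit 106536) (nat_lit 11) (.e (nat_lit 16468) (nat_lit 13) (.e (nat_lit 483395) (nat_lit 24) (.e (nat_lit 344156) (nat_lit 36) (.e (nat_lit 639012) (nat_lit 13) .nil)))))) (.g (nat_lit 0) .nil .nil)))) (.nd (nat_lit 6) 
(.lf (nat_lit 47795) (.g (nat_lit 2346) (.e (nat_lit 1266) (nat_lit 93) (.e (nat_lit 106536) (nat_lit 11) (.e (nat_lit 16416) (nat_lit 3) (.e (nat_lit 204877) (nat_lit 31) .nil)))) .nil)) 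
(.lf (nat_lit 47859) (.g (nat_lit 3399) (.e (nat_lit 1270) (nat_lit 93) (.e (nat_lit 106534) (nat_lit 11) (.e (nat_lit 16425) (nat_lit 7) (.e (nat_lit 409649) (nat_lit 18) (.e (nat_lit 303140) (nat_lit 10) (.e (nat_lit 434271) (nat_lit 38) (.e (nat_lit 655390) (nat_lit 9) .nil))))))) (.g (nat_lit 6) .nil .nil)))))) (.nd (nat_lit 4) (.nd (nat_lit 5) (.nd (nat_lit 6) 
(.lf (nat_lit 47755) (.g (nat_lit 1457) (.e (nat_lit 1262) (nat_lit 93) (.e (nat_lit 106536) (nat_lit 11) (.e (nat_lit 16436) (nat_lit 9) .nil))) .nil)) 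
(.lf (nat_lit 47819) (.g (nat_lit 2792) (.e (nat_lit 1267) (nat_lit 93) (.e (nat_lit 106536) (nat_lit 11) (.e (nat_lit 16436) (nat_lit 9) (.e (nat_lit 426555) (nat_lit 32) .nil)))) .nil))) (.nd (nat_lit 6) 
(.lf (nat_lit 47787) (.g (nat_lit 1153) (.e (nat_lit 1266) (nat_lit 93) (.e (nat_lit 106536) (nat_lit 11) (.e (nat_lit 16412) (nat_lit 2) .nil))) .nil)) 
(.lf (nat_lit 47851) (.g (nat_lit 1461) (.e (nat_lit 1269) (nat_lit 93) (.e (nat_lit 106536) (nat_lit 11) (.e (nat_lit 16436) (nat_lit 9) .nil))) .nil)))) (.nd (nat_lit 5) (.nd (nat_lit 6) 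
(.lf (nat_lit 47771) (.g (nat_lit 2161) (.e (nat_lit 1264) (nat_lit 93) (.e (nat_lit 106536) (nat_lit 11) (.e (nat_lit 16416) (nat_lit 3) (.e (nat_lit 204869) (nat_lit 29) .nil)))) .nil)) 
(.lf (nat_lit 47835) (.g (nat_lit 2682) (.e (nat_lit 1268) (nat_lit 93) (.e (nat_lit 106536) (nat_lit 11) (.e (nat_lit 16416) (nat_lit 3) (.e (nat_lit 204877) (nat_lit 31) .nil)))) .nil))) (.nd (nat_lit 6) 
(.lf (nat_lit 47803) (.g (nat_lit 1636) (.e (nat_lit 1266) (nat_lit 93) (.e (nat_lit 106536) (nat_lit 11) (.e (nat_lit 16468) (nat_lit 13) (.e (nat_lit 483396) (nat_lit 24) .nil)))) .nil)) 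
(.lf (nat_lit 47867) (.g (nat_lit 2526) (.e (nat_lit 1270) (nat_lit 93) (.e (nat_lit 106536) (nat_lit 11) (.e (nat_lit 16412) (nat_lit 2) (.e (nat_lit 196672) (nat_lit 15) (.e (nat_lit 89856) (nat_lit 2) .nil))))) .nil)))))) (.nd (nat_lit 3) (.nd (nat_lit 4) (.nd (nat_lit 5) (.nd (nat_lit 6) 
(.lf (nat_lit 47751) (.g (nat_lit 1302) (.e (nat_lit 1262) (nat_lit 93) (.e (nat_lit 106536) (nat_lit 11) (.e (nat_lit 16416) (nat_lit 3) .nil))) .nil)) 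
(.lf (nat_lit 47815) (.g (nat_lit 1711) (.e (nat_lit 1267) (nat_lit 93) (.e (nat_lit 106536) (nat_lit 11) (.e (nat_lit 16416) (nat_lit 3) (.e (nat_lit 204865) (nat_lit 28) .nil)))) .nil))) (.nd (nat_lit 6) 
(.lf (nat_lit 47783) (.g (nat_lit 3205) (.e (nat_lit 1265) (nat_lit 93) (.e (nat_lit 106536) (nat_lit 11) (.e (nat_lit 16436) (nat_lit 9) (.e (nat_lit 426555) (nat_lit 32) .nil)))) .nil)) 
(.lf (nat_lit 47847) (.g (nat_lit 3134) (.e (nat_lit 1269) (nat_lit 93) (.e (nat_lit 106536) (nat_lit 11) (.e (nat_lit 16412) (nat_lit 2) (.e (nat_lit 196681) (nat_lit 17) .nil)))) .nil)))) (.nd (nat_lit 5) (.nd (nat_lit 6) 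
(.lf (nat_lit 47767) (.g (nat_lit 2128) (.e (nat_lit 1263) (nat_lit 93) (.e (nat_lit 106534) (nat_lit 11) (.e (nat_lit 16425) (nat_lit 7) (.e (nat_lit 409649) (nat_lit 18) (.e (nat_lit 303143) (nat_lit 12) .nil))))) .nil)) 
(.lf (nat_lit 47831) (.g (nat_lit 3238) (.e (nat_lit 1268) (nat_lit 93) (.e (nat_lit 106536) (nat_lit 11) (.e (nat_lit 16412) (nat_lit 2) (.e (nat_lit 196674) (nat_lit 15) (.e (nat_lit 81947) (nat_lit 20) .nil))))) .nil))) (.nd (nat_lit 6) 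
(.lf (nat_lit 47799) (.g (nat_lit 1463) (.e (nat_lit 1266) (nat_lit 93) (.e (nat_lit 106536) (nat_lit 11) (.e (nat_lit 16466) (nat_lit 13) .nil))) .nil)) 
(.lf (nat_lit 47863) (.g (nat_lit 1231) (.e (nat_lit 1270) (nat_lit 93) (.e (nat_lit 106536) (nat_lit 11) (.e (nat_lit 16412) (nat_lit 2) .nil))) .nil))))) (.nd (nat_lit 4) (.nd (nat_lit 5) (.nd (nat_lit 6) 
(.lf (nat_lit 47759) (.g (nat_lit 2001) (.e (nat_lit 1263) (nat_lit 93) (.e (nat_lit 106534) (nat_lit 11) (.e (nat_lit 16416) (nat_lit 3) (.e (nat_lit 204869) (nat_lit 29) (.e (nat_lit 368384) (nat_lit 10) .nil))))) .nil)) 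
(.lf (nat_lit 47823) (.g (nat_lit 3206) (.e (nat_lit 1267) (nat_lit 93) (.e (nat_lit 106536) (nat_lit 11) (.e (nat_lit 16466) (nat_lit 13) (.e (nat_lit 483395) (nat_lit 24) .nil)))) .nil))) (.nd (nat_lit 6) 
(.lf (nat_lit 47791) (.g (nat_lit 3033) (.e (nat_lit 1266) (nat_lit 93) (.e (nat_lit 106536) (nat_lit 11) (.e (nat_lit 16412) (nat_lit 2) (.e (nat_lit 196674) (nat_lit 15) (.e (nat_lit 81947) (nat_lit 20) .nil))))) .nil)) 
(.lf (nat_lit 47855) (.g (nat_lit 1335) (.e (nat_lit 1269) (nat_lit 93) (.e (nat_lit 106536) (nat_lit 11) (.e (nat_lit 16468) (nat_lit 13) (.e (nat_lit 483395) (nat_lit 24) (.e (nat_lit 344156) (nat_lit 36) .nil))))) .nil)))) (.nd (nat_lit 5) (.nd (nat_lit 6) 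
(.lf (nat_lit 47775) (.g (nat_lit 2441) (.e (nat_lit 1265) (nat_lit 93) (.e (nat_lit 106536) (nat_lit 11) (.e (nat_lit 16412) (nat_lit 2) (.e (nat_lit 196672) (nat_lit 15) .nil)))) .nil)) 
(.lf (nat_lit 47839) (.g (nat_lit 1428) (.e (nat_lit 1269) (nat_lit 93) (.e (nat_lit 106536) (nat_lit 11) (.e (nat_lit 16412) (nat_lit 2) .nil))) .nil))) (.nd (nat_lit 6) 
(.lf (nat_lit 47807) (.g (nat_lit 2612) (.e (nat_lit 1267) (nat_lit 93) (.e (nat_lit 106536) (nat_lit 11) (.e (nat_lit 16412) (nat_lit 2) (.e (nat_lit 196672) (nat_lit 15) (.e (nat_lit 81933) (nat_lit 20) .nil))))) .nil)) 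
(.lf (nat_lit 47871) (.g (nat_lit 2967) (.e (nat_lit 1270) (nat_lit 93) (.e (nat_lit 106536) (nat_lit 11) (.e (nat_lit 16412) (nat_lit 2) (.e (nat_lit 196681) (nat_lit 17) .nil)))) .nil)))))))))

noncomputable def tv664 : DT := (.nd (nat_lit 0) (.nd (nat_lit 1) (.nd (nat_lit 2) (.nd (nat_lit 3) (.nd (nat_lit 4) (.nd (nat_lit 5) (.nd (nat_lit 6) 
(.lf (nat_lit 47872) (.g (nat_lit 881) (.e (nat_lit 1270) (nat_lit 93) (.e (nat_lit 106536) (nat_lit 11) (.e (nat_lit 16416) (nat_lit 3) .nil))) .nil)) 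
(.lf (nat_lit 47936) (.g (nat_lit 2169) (.e (nat_lit 1276) (nat_lit 94) (.e (nat_lit 114714) (nat_lit 22) (.e (nat_lit 90172) (nat_lit 14) (.e (nat_lit 180244) (nat_lit 5) (.e (nat_lit 532503) (nat_lit 1) .nil))))) .nil))) (.nd (nat_lit 6) 
(.lf (nat_lit 47904) (.g (nat_lit 2885) (.e (nat_lit 1271) (nat_lit 93) (.e (nat_lit 106536) (nat_lit 11) (.e (nat_lit 16436) (nat_lit 9) (.e (nat_lit 426555) (nat_lit 32) .nil)))) .nil)) 
(.lf (nat_lit 47968) (.g (nat_lit 3896) (.e (nat_lit 1277) (nat_lit 94) (.e (nat_lit 114714) (nat_lit 22) (.e (nat_lit 90172) (nat_lit 14) (.e (nat_lit 180244) (nat_lit 5) (.e (nat_lit 532501) (nat_lit 1) (.e (nat_lit 57692) (nat_lit 156) (.e (nat_lit 163871) (nat_lit 2) (.e (nat_lit 196624) (nat_lit 9) .nil)))))))) (.g (nat_lit 7) .nil .nil))))) (.nd (nat_lit 5) (.nd (nat_lit 6) 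
(.lf (nat_lit 47888) (.g (nat_lit 2669) (.e (nat_lit 1271) (nat_lit 93) (.e (nat_lit 106534) (nat_lit 11) (.e (nat_lit 16425) (nat_lit 7) (.e (nat_lit 409648) (nat_lit 18) (.e (nat_lit 303136) (nat_lit 10) .nil))))) .nil)) 
(.lf (nat_lit 47952) (.g (nat_lit 2453) (.e (nat_lit 1277) (nat_lit 94) (.e (nat_lit 114714) (nat_lit 22) (.e (nat_lit 90170) (nat_lit 13) (.e (nat_lit 172067) (nat_lit 3) (.e (nat_lit 204829) (nat_lit 18) .nil))))) .nil))) (.nd (nat_lit 6) 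
(.lf (nat_lit 47920) (.g (nat_lit 1107) (.e (nat_lit 7936) (nat_lit 93) (.e (nat_lit 106536) (nat_lit 11) (.e (nat_lit 16412) (nat_lit 2) (.e (nat_lit 196672) (nat_lit 15) (.e (nat_lit 81924) (nat_lit 0) .nil))))) .nil)) 
(.lf (nat_lit 47984) (.g (nat_lit 2085) (.e (nat_lit 1277) (nat_lit 94) (.e (nat_lit 114714) (nat_lit 22) (.e (nat_lit 90174) (nat_lit 14) (.e (nat_lit 180243) (nat_lit 5) (.e (nat_lit 532502) (nat_lit 1) (.e (nat_lit 57688) (nat_lit 156) (.e (nat_lit 163871) (nat_lit 2) (.e (nat_lit 196624) (nat_lit 9) .nil)))))))) (.g (nat_lit 4) .nil .nil)))))) 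
(.nd (nat_lit 4) (.nd (nat_lit 5) (.nd (nat_lit 6) 
(.lf (nat_lit 47880) (.g (nat_lit 667) (.e (nat_lit 1270) (nat_lit 93) (.e (nat_lit 106536) (nat_lit 11) (.e (nat_lit 16468) (nat_lit 13) .nil))) .nil)) 
(.lf (nat_lit 47944) (.g (nat_lit 2081) (.e (nat_lit 1276) (nat_lit 94) (.e (nat_lit 114718) (nat_lit 23) (.e (nat_lit 98365) (nat_lit 26) (.e (nat_lit 426133) (nat_lit 3) (.e (nat_lit 204842) (nat_lit 22) .nil))))) .nil))) (.nd (nat_lit 6) 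
(.lf (nat_lit 47912) (.g (nat_lit 2423) (.e (nat_lit 1272) (nat_lit 93) (.e (nat_lit 106536) (nat_lit 11) (.e (nat_lit 16416) (nat_lit 3) (.e (nat_lit 204876) (nat_lit 31) .nil)))) .nil)) 
(.lf (nat_lit 47976) (.g (nat_lit 2046) (.e (nat_lit 1277) (nat_lit 94) (.e (nat_lit 114714) (nat_lit 22) (.e (nat_lit 90172) (nat_lit 14) (.e (nat_lit 180244) (nat_lit 5) (.e (nat_lit 532519) (nat_lit 5) (.e (nat_lit 147500) (nat_lit 12) (.e (nat_lit 163975) (nat_lit 30) (.e (nat_lit 573450) (nat_lit 9) .nil)))))))) (.g (nat_lit 4) .nil .nil))))) (.nd (nat_lit 5) (.nd (nat_lit 6) 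
(.lf (nat_lit 47896) (.g (nat_lit 2978) (.e (nat_lit 1271) (nat_lit 93) (.e (nat_lit 106536) (nat_lit 11) (.e (nat_lit 16412) (nat_lit 2) (.e (nat_lit 196674) (nat_lit 15) (.e (nat_lit 81947) (nat_lit 20) .nil))))) .nil)) 
(.lf (nat_lit 47960) (.g (nat_lit 2887) (.e (nat_lit 1277) (nat_lit 94) (.e (nat_lit 114714) (nat_lit 22) (.e (nat_lit 90172) (nat_lit 14) (.e (nat_lit 180243) (nat_lit 5) (.e (nat_lit 532503) (nat_lit 1) (.e (nat_lit 57685) (nat_lit 156) (.e (nat_lit 163871) (nat_lit 2) (.e (nat_lit 196624) (nat_lit 9) .nil)))))))) (.g (nat_lit 5) .nil .nil)))) (.nd (nat_lit 6) 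
(.lf (nat_lit 47928) (.g (nat_lit 1899) (.e (nat_lit 1275) (nat_lit 94) (.e (nat_lit 114718) (nat_lit 23) (.e (nat_lit 98367) (nat_lit 27) (.e (nat_lit 434234) (nat_lit 23) .nil)))) .nil)) 
(.lf (nat_lit 47992) (.g (nat_lit 1705) (.e (nat_lit 1277) (nat_lit 94) (.e (nat_lit 114715) (nat_lit 22) (.e (nat_lit 90170) (nat_lit 13) (.e (nat_lit 172049) (nat_lit 0) .nil)))) .nil)))))) (.nd (nat_lit 3) (.nd (nat_lit 4) (.nd (nat_lit 5) (.nd (nat_lit 6) 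
(.lf (nat_lit 47876) (.g (nat_lit 2709) (.e (nat_lit 1270) (nat_lit 93) (.e (nat_lit 106536) (nat_lit 11) (.e (nat_lit 16463) (nat_lit 13) (.e (nat_lit 483395) (nat_lit 24) .nil)))) .nil)) 
(.lf (nat_lit 47940) (.g (nat_lit 2071) (.e (nat_lit 1276) (nat_lit 94) (.e (nat_lit 114715) (nat_lit 22) (.e (nat_lit 90170) (nat_lit 13) (.e (nat_lit 172065) (nat_lit 3) (.e (nat_lit 204830) (nat_lit 18) .nil))))) .nil))) (.nd (nat_lit 6) 
(.lf (nat_lit 47908) (.g (nat_lit 2124) (.e (nat_lit 1272) (nat_lit 93) (.e (nat_lit 106536) (nat_lit 11) (.e (nat_lit 16412) (nat_lit 2) (.e (nat_lit 196674) (nat_lit 15) .nil)))) .nil)) 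
(.lf (nat_lit 47972) (.g (nat_lit 3802) (.e (nat_lit 1277) (nat_lit 94) (.e (nat_lit 114714) (nat_lit 22) (.e (nat_lit 90172) (nat_lit 14) (.e (nat_lit 180244) (nat_lit 5) (.e (nat_lit 532503) (nat_lit 1) (.e (nat_lit 57688) (nat_lit 156) (.e (nat_lit 163871) (nat_lit 2) (.e (nat_lit 196624) (nat_lit 9) .nil)))))))) (.g (nat_lit 6) .nil .nil))))) (.nd (nat_lit 5) (.nd (nat_lit 6) 
(.lf (nat_lit 47892) (.g (nat_lit 1066) (.e (nat_lit 1271) (nat_lit 93) (.e (nat_lit 106534) (nat_lit 11) (.e (nat_lit 16468) (nat_lit 13) (.e (nat_lit 483395) (nat_lit 24) .nil)))) .nil)) 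
(.lf (nat_lit 47956) (.g (nat_lit 2397) (.e (nat_lit 1277) (nat_lit 94) (.e (nat_lit 114714) (nat_lit 22) (.e (nat_lit 90170) (nat_lit 13) (.e (nat_lit 172067) (nat_lit 3) (.e (nat_lit 204830) (nat_lit 18) (.e (nat_lit 57692) (nat_lit 156) (.e (nat_lit 163871) (nat_lit 2) (.e (nat_lit 196624) (nat_lit 9) .nil)))))))) (.g (nat_lit 4) .nil .nil)))) (.nd (nat_lit 6) 
(.lf (nat_lit 47924) (.g (nat_lit 1942) (.e (nat_lit 7936) (nat_lit 93) (.e (nat_lit 106536) (nat_lit 11) (.e (nat_lit 16416) (nat_lit 3) (.e (nat_lit 204869) (nat_lit 29) (.e (nat_lit 368384) (nat_lit 10) .nil))))) .nil)) 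
(.lf (nat_lit 47988) (.g (nat_lit 1409) (.e (nat_lit 1277) (nat_lit 94) (.e (nat_lit 114715) (nat_lit 22) (.e (nat_lit 90170) (nat_lit 13) (.e (nat_lit 172042) (nat_lit 0) .nil)))) .nil))))) (.nd (nat_lit 4) (.nd (nat_lit 5) (.nd (nat_lit 6) 
(.lf (nat_lit 47884) (.g (nat_lit 1894) (.e (nat_lit 1271) (nat_lit 93) (.e (nat_lit 106534) (nat_lit 11) (.e (nat_lit 16416) (nat_lit 3) (.e (nat_lit 204869) (nat_lit 29) (.e (nat_lit 368384) (nat_lit 10) .nil))))) .nil)) 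
(.lf (nat_lit 47948) (.g (nat_lit 2379) (.e (nat_lit 1277) (nat_lit 94) (.e (nat_lit 114714) (nat_lit 22) (.e (nat_lit 90170) (nat_lit 13) (.e (nat_lit 172065) (nat_lit 3) (.e (nat_lit 204829) (nat_lit 18) (.e (nat_lit 57686) (nat_lit 156) (.e (nat_lit 163867) (nat_lit 2) (.e (nat_lit 196624) (nat_lit 9) .nil)))))))) (.g (nat_lit 4) .nil .nil)))) (.nd (nat_lit 6) 
(.lf (nat_lit 47916) (.g (nat_lit 1346) (.e (nat_lit 1273) (nat_lit 93) (.e (nat_lit 106536) (nat_lit 11) (.e (nat_lit 16416) (nat_lit 3) .nil))) .nil)) 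
(.lf (nat_lit 47980) (.g (nat_lit 2961) (.e (nat_lit 1277) (nat_lit 94) (.e (nat_lit 114714) (nat_lit 22) (.e (nat_lit 90174) (nat_lit 14) (.e (nat_lit 180243) (nat_lit 5) (.e (nat_lit 532501) (nat_lit 1) (.e (nat_lit 57685) (nat_lit 156) (.e (nat_lit 163868) (nat_lit 2) (.e (nat_lit 196624) (nat_lit 9) .nil)))))))) (.g (nat_lit 5) .nil .nil))))) (.nd (nat_lit 5) (.nd (nat_lit 6) 
(.lf (nat_lit 47900) (.g (nat_lit 2508) (.e (nat_lit 1271) (nat_lit 93) (.e (nat_lit 106536) (nat_lit 11) (.e (nat_lit 16416) (nat_lit 3) (.e (nat_lit 204861) (nat_lit 26) .nil)))) .nil)) 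
(.lf (nat_lit 47964) (.g (nat_lit 5338) (.e (nat_lit 1277) (nat_lit 94) (.e (nat_lit 114714) (nat_lit 22) (.e (nat_lit 90172) (nat_lit 14) (.e (nat_lit 180244) (nat_lit 5) (.e (nat_lit 532499) (nat_lit 1) (.e (nat_lit 57688) (nat_lit 156) (.e (nat_lit 163867) (nat_lit 2) (.e (nat_lit 196624) (nat_lit 9) .nil)))))))) (.g (nat_lit 0) .nil .nil)))) (.nd (nat_lit 6) 
(.lf (nat_lit 47932) (.g (nat_lit 2266) (.e (nat_lit 1276) (nat_lit 94) (.e (nat_lit 114714) (nat_lit 22) (.e (nat_lit 90170) (nat_lit 13) (.e (nat_lit 172065) (nat_lit 3) (.e (nat_lit 204830) (nat_lit 18) .nil))))) .nil)) 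
(.lf (nat_lit 47996) (.g (nat_lit 4237) (.e (nat_lit 1277) (nat_lit 94) (.e (nat_lit 114715) (nat_lit 22) (.e (nat_lit 90170) (nat_lit 13) (.e (nat_lit 172065) (nat_lit 3) (.e (nat_lit 204829) (nat_lit 18) (.e (nat_lit 57688) (nat_lit 156) (.e (nat_lit 163869) (nat_lit 2) (.e (nat_lit 196624) (nat_lit 9) .nil)))))))) (.g (nat_lit 6) .nil .nil)))))))) 
(.nd (nat_lit 2) (.nd (nat_lit 3) (.nd (nat_lit 4) (.nd (nat_lit 5) (.nd (nat_lit 6) 
(.lf (nat_lit 47874) (.g (nat_lit 1764) (.e (nat_lit 1270) (nat_lit 93) (.e (nat_lit 106536) (nat_lit 11) (.e (nat_lit 16416) (nat_lit 3) (.e (nat_lit 204866) (nat_lit 28) .nil)))) .nil)) 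
(.lf (nat_lit 47938) (.g (nat_lit 1467) (.e (nat_lit 1276) (nat_lit 94) (.e (nat_lit 114714) (nat_lit 22) (.e (nat_lit 90172) (nat_lit 14) (.e (nat_lit 180248) (nat_lit 9) .nil)))) .nil))) (.nd (nat_lit 6) 
(.lf (nat_lit 47906) (.g (nat_lit 821) (.e (nat_lit 1271) (nat_lit 93) (.e (nat_lit 106536) (nat_lit 11) (.e (nat_lit 16468) (nat_lit 13) (.e (nat_lit 483395) (nat_lit 24) .nil)))) .nil)) 
(.lf (nat_lit 47970) (.g (nat_lit 3081) (.e (nat_lit 1277) (nat_lit 94) (.e (nat_lit 114714) (nat_lit 22) (.e (nat_lit 90172) (nat_lit 14) (.e (nat_lit 180244) (nat_lit 5) (.e (nat_lit 532502) (nat_lit 1) (.e (nat_lit 57692) (nat_lit 156) (.e (nat_lit 163871) (nat_lit 2) (.e (nat_lit 196624) (nat_lit 9) .nil)))))))) (.g (nat_lit 6) .nil .nil))))) (.nd (nat_lit 5) (.nd (nat_lit 6) 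
(.lf (nat_lit 47890) (.g (nat_lit 1563) (.e (nat_lit 1271) (nat_lit 93) (.e (nat_lit 106534) (nat_lit 11) (.e (nat_lit 16425) (nat_lit 7) (.e (nat_lit 409649) (nat_lit 18) .nil)))) .nil)) 
(.lf (nat_lit 47954) (.g (nat_lit 3163) (.e (nat_lit 1277) (nat_lit 94) (.e (nat_lit 114714) (nat_lit 22) (.e (nat_lit 90170) (nat_lit 13) (.e (nat_lit 172067) (nat_lit 3) (.e (nat_lit 204829) (nat_lit 18) (.e (nat_lit 57692) (nat_lit 156) (.e (nat_lit 163869) (nat_lit 2) (.e (nat_lit 196624) (nat_lit 9) .nil)))))))) (.g (nat_lit 5) .nil .nil)))) (.nd (nat_lit 6) 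
(.lf (nat_lit 47922) (.g (nat_lit 1179) (.e (nat_lit 7936) (nat_lit 93) (.e (nat_lit 106536) (nat_lit 11) (.e (nat_lit 16412) (nat_lit 2) (.e (nat_lit 196674) (nat_lit 15) (.e (nat_lit 89856) (nat_lit 2) .nil))))) .nil)) 
(.lf (nat_lit 47986) (.g (nat_lit 2076) (.e (nat_lit 1277) (nat_lit 94) (.e (nat_lit 114714) (nat_lit 22) (.e (nat_lit 90174) (nat_lit 14) (.e (nat_lit 180243) (nat_lit 5) (.e (nat_lit 532519) (nat_lit 5) .nil))))) .nil))))) (.nd (nat_lit 4) (.nd (nat_lit 5) (.nd (nat_lit 6) 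
(.lf (nat_lit 47882) (.g (nat_lit 1097) (.e (nat_lit 1271) (nat_lit 93) (.e (nat_lit 106534) (nat_lit 11) (.e (nat_lit 16412) (nat_lit 2) (.e (nat_lit 196672) (nat_lit 15) .nil)))) .nil)) 
(.lf (nat_lit 47946) (.g (nat_lit 2424) (.e (nat_lit 1276) (nat_lit 94) (.e (nat_lit 114719) (nat_lit 23) (.e (nat_lit 98365) (nat_lit 26) (.e (nat_lit 426133) (nat_lit 3) (.e (nat_lit 204842) (nat_lit 22) .nil))))) .nil))) (.nd (nat_lit 6) 
(.lf (nat_lit 47914) (.g (nat_lit 2648) (.e (nat_lit 1272) (nat_lit 93) (.e (nat_lit 106536) (nat_lit 11) (.e (nat_lit 16466) (nat_lit 13) (.e (nat_lit 483393) (nat_lit 23) .nil)))) .nil)) 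
(.lf (nat_lit 47978) (.g (nat_lit 4192) (.e (nat_lit 1277) (nat_lit 94) (.e (nat_lit 114714) (nat_lit 22) (.e (nat_lit 90174) (nat_lit 14) (.e (nat_lit 180243) (nat_lit 5) (.e (nat_lit 532499) (nat_lit 1) (.e (nat_lit 57691) (nat_lit 156) (.e (nat_lit 163871) (nat_lit 2) (.e (nat_lit 196624) (nat_lit 9) .nil)))))))) (.g (nat_lit 7) .nil .nil))))) (.nd (nat_lit 5) (.nd (nat_lit 6) 
(.lf (nat_lit 47898) (.g (nat_lit 1842) (.e (nat_lit 1271) (nat_lit 93) (.e (nat_lit 106536) (nat_lit 11) (.e (nat_lit 16415) (nat_lit 3) (.e (nat_lit 204861) (nat_lit 26) .nil)))) .nil)) 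
(.lf (nat_lit 47962) (.g (nat_lit 4602) (.e (nat_lit 1277) (nat_lit 94) (.e (nat_lit 114714) (nat_lit 22) (.e (nat_lit 90172) (nat_lit 14) (.e (nat_lit 180243) (nat_lit 5) (.e (nat_lit 532504) (nat_lit 1) (.e (nat_lit 57692) (nat_lit 156) (.e (nat_lit 163869) (nat_lit 2) (.e (nat_lit 196624) (nat_lit 9) .nil)))))))) (.g (nat_lit 7) .nil .nil)))) (.nd (nat_lit 6) 
(.lf (nat_lit 47930) (.g (nat_lit 2339) (.e (nat_lit 1275) (nat_lit 94) (.e (nat_lit 114719) (nat_lit 23) (.e (nat_lit 98367) (nat_lit 27) (.e (nat_lit 434231) (nat_lit 23) (.e (nat_lit 532499) (nat_lit 1) (.e (nat_lit 57688) (nat_lit 156) (.e (nat_lit 163867) (nat_lit 2) (.e (nat_lit 196617) (nat_lit 9) .nil)))))))) (.g (nat_lit 4) .nil .nil))) 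
(.lf (nat_lit 47994) (.g (nat_lit 2141) (.e (nat_lit 1277) (nat_lit 94) (.e (nat_lit 114715) (nat_lit 22) (.e (nat_lit 90170) (nat_lit 13) (.e (nat_lit 172064) (nat_lit 2) (.e (nat_lit 204544) (nat_lit 2) (.e (nat_lit 24602) (nat_lit 2) (.e (nat_lit 98048) (nat_lit 0) .nil))))))) (.g (nat_lit 4) .nil .nil))))))) (.nd (nat_lit 3) (.nd (nat_lit 4) (.nd (nat_lit 5) (.nd (nat_lit 6) 
(.lf (nat_lit 47878) (.g (nat_lit 3259) (.e (nat_lit 1270) (nat_lit 93) (.e (nat_lit 106536) (nat_lit 11) (.e (nat_lit 16466) (nat_lit 13) (.e (nat_lit 483395) (nat_lit 24) .nil)))) .nil)) 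
(.lf (nat_lit 47942) (.g (nat_lit 2686) (.e (nat_lit 1276) (nat_lit 94) (.e (nat_lit 114715) (nat_lit 22) (.e (nat_lit 90170) (nat_lit 13) (.e (nat_lit 172138) (nat_lit 15) (.e (nat_lit 2174) (nat_lit 143) .nil))))) .nil))) (.nd (nat_lit 6) 
(.lf (nat_lit 47910) (.g (nat_lit 1009) (.e (nat_lit 1272) (nat_lit 93) (.e (nat_lit 106536) (nat_lit 11) (.e (nat_lit 16416) (nat_lit 3) .nil))) .nil)) 
(.lf (nat_lit 47974) (.g (nat_lit 3180) (.e (nat_lit 1277) (nat_lit 94) (.e (nat_lit 114714) (nat_lit 22) (.e (nat_lit 90172) (nat_lit 14) (.e (nat_lit 180244) (nat_lit 5) (.e (nat_lit 532503) (nat_lit 1) (.e (nat_lit 57692) (nat_lit 156) (.e (nat_lit 163869) (nat_lit 2) (.e (nat_lit 196624) (nat_lit 9) .nil)))))))) (.g (nat_lit 5) .nil .nil))))) (.nd (nat_lit 5) (.nd (nat_lit 6) 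
(.lf (nat_lit 47894) (.g (nat_lit 2086) (.e (nat_lit 1271) (nat_lit 93) (.e (nat_lit 106536) (nat_lit 11) (.e (nat_lit 16412) (nat_lit 2) (.e (nat_lit 196672) (nat_lit 15) .nil)))) .nil)) 
(.lf (nat_lit 47958) (.g (nat_lit 469) (.e (nat_lit 1277) (nat_lit 94) (.e (nat_lit 114714) (nat_lit 22) (.e (nat_lit 90172) (nat_lit 14) .nil))) .nil))) (.nd (nat_lit 6) 
(.lf (nat_lit 47926) (.g (nat_lit 1983) (.e (nat_lit 1275) (nat_lit 94) (.e (nat_lit 114714) (nat_lit 22) (.e (nat_lit 90174) (nat_lit 14) (.e (nat_lit 180243) (nat_lit 5) (.e (nat_lit 532503) (nat_lit 1) .nil))))) .nil)) 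
(.lf (nat_lit 47990) (.g (nat_lit 1918) (.e (nat_lit 1277) (nat_lit 94) (.e (nat_lit 114715) (nat_lit 22) (.e (nat_lit 90170) (nat_lit 13) (.e (nat_lit 172042) (nat_lit 0) (.e (nat_lit 3409) (nat_lit 212) (.e (nat_lit 655378) (nat_lit 4) (.e (nat_lit 172076) (nat_lit 6) (.e (nat_lit 253963) (nat_lit 9) .nil)))))))) (.g (nat_lit 4) .nil .nil)))))) (.nd (nat_lit 4) (.nd (nat_lit 5) (.nd (nat_lit 6) 
(.lf (nat_lit 47886) (.g (nat_lit 1998) (.e (nat_lit 1271) (nat_lit 93) (.e (nat_lit 106534) (nat_lit 11) (.e (nat_lit 16425) (nat_lit 7) (.e (nat_lit 409647) (nat_lit 18) (.e (nat_lit 303143) (nat_lit 12) .nil))))) .nil)) 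
(.lf (nat_lit 47950) (.g (nat_lit 2938) (.e (nat_lit 1277) (nat_lit 94) (.e (nat_lit 114714) (nat_lit 22) (.e (nat_lit 90170) (nat_lit 13) (.e (nat_lit 172065) (nat_lit 3) (.e (nat_lit 204830) (nat_lit 18) (.e (nat_lit 57692) (nat_lit 156) (.e (nat_lit 163869) (nat_lit 2) (.e (nat_lit 196624) (nat_lit 9) .nil)))))))) (.g (nat_lit 5) .nil .nil)))) (.nd (nat_lit 6) 
(.lf (nat_lit 47918) (.g (nat_lit 2105) (.e (nat_lit 1273) (nat_lit 93) (.e (nat_lit 106536) (nat_lit 11) (.e (nat_lit 16416) (nat_lit 3) (.e (nat_lit 204869) (nat_lit 29) .nil)))) .nil)) 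
(.lf (nat_lit 47982) (.g (nat_lit 4342) (.e (nat_lit 1277) (nat_lit 94) (.e (nat_lit 114714) (nat_lit 22) (.e (nat_lit 90174) (nat_lit 14) (.e (nat_lit 180243) (nat_lit 5) (.e (nat_lit 532501) (nat_lit 1) (.e (nat_lit 57692) (nat_lit 156) (.e (nat_lit 163871) (nat_lit 2) (.e (nat_lit 196624) (nat_lit 9) .nil)))))))) (.g (nat_lit 7) .nil .nil))))) (.nd (nat_lit 5) (.nd (nat_lit 6) 
(.lf (nat_lit 47902) (.g (nat_lit 2387) (.e (nat_lit 1271) (nat_lit 93) (.e (nat_lit 106536) (nat_lit 11) (.e (nat_lit 16416) (nat_lit 3) (.e (nat_lit 204876) (nat_lit 31) .nil)))) .nil)) 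
(.lf (nat_lit 47966) (.g (nat_lit 5148) (.e (nat_lit 1277) (nat_lit 94) (.e (nat_lit 114714) (nat_lit 22) (.e (nat_lit 90172) (nat_lit 14) (.e (nat_lit 180244) (nat_lit 5) (.e (nat_lit 532499) (nat_lit 1) (.e (nat_lit 57692) (nat_lit 156) (.e (nat_lit 163869) (nat_lit 2) (.e (nat_lit 196624) (nat_lit 9) .nil)))))))) (.g (nat_lit 0) .nil .nil)))) (.nd (nat_lit 6) 
(.lf (nat_lit 47934) (.g (nat_lit 538) (.e (nat_lit 1276) (nat_lit 94) (.e (nat_lit 114714) (nat_lit 22) (.e (nat_lit 90172) (nat_lit 14) .nil))) .nil)) 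
(.lf (nat_lit 47998) (.g (nat_lit 4998) (.e (nat_lit 1277) (nat_lit 94) (.e (nat_lit 114715) (nat_lit 22) (.e (nat_lit 90170) (nat_lit 13) (.e (nat_lit 172065) (nat_lit 3) (.e (nat_lit 204830) (nat_lit 18) (.e (nat_lit 57691) (nat_lit 156) (.e (nat_lit 163871) (nat_lit 2) (.e (nat_lit 196624) (nat_lit 9) .nil)))))))) (.g (nat_lit 8) .nil .nil))))))))) 
(.nd (nat_lit 1) (.nd (nat_lit 2) (.nd (nat_lit 3) (.nd (nat_lit 4) (.nd (nat_lit 5) 
(.nd (nat_lit 6) 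
(.lf (nat_lit 47873) (.g (nat_lit 2585) (.e (nat_lit 1270) (nat_lit 93) (.e (nat_lit 106536) (nat_lit 11) (.e (nat_lit 16416) (nat_lit 3) (.e (nat_lit 204861) (nat_lit 26) .nil)))) .nil)) 
(.lf (nat_lit 47937) (.g (nat_lit 2131) (.e (nat_lit 1276) (nat_lit 94) (.e (nat_lit 114714) (nat_lit 22) (.e (nat_lit 90172) (nat_lit 14) (.e (nat_lit 180244) (nat_lit 5) (.e (nat_lit 532519) (nat_lit 5) .nil))))) .nil))) (.nd (nat_lit 6) 
(.lf (nat_lit 47905) (.g (nat_lit 2665) (.e (nat_lit 1271) (nat_lit 93) (.e (nat_lit 106536) (nat_lit 11) (.e (nat_lit 16466) (nat_lit 13) (.e (nat_lit 483393) (nat_lit 23) .nil)))) .nil)) 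
(.lf (nat_lit 47969) (.g (nat_lit 2035) (.e (nat_lit 1277) (nat_lit 94) (.e (nat_lit 114714) (nat_lit 22) (.e (nat_lit 90172) (nat_lit 14) (.e (nat_lit 180244) (nat_lit 5) (.e (nat_lit 532502) (nat_lit 1) .nil))))) .nil)))) (.nd (nat_lit 5) (.nd (nat_lit 6) 
(.lf (nat_lit 47889) (.g (nat_lit 2269) (.e (nat_lit 1271) (nat_lit 93) (.e (nat_lit 106534) (nat_lit 11) (.e (nat_lit 16425) (nat_lit 7) (.e (nat_lit 409648) (nat_lit 18) (.e (nat_lit 303137) (nat_lit 10) .nil))))) .nil)) 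
(.lf (nat_lit 47953) (.g (nat_lit 3236) (.e (nat_lit 1277) (nat_lit 94) (.e (nat_lit 114714) (nat_lit 22) (.e (nat_lit 90170) (nat_lit 13) (.e (nat_lit 172067) (nat_lit 3) (.e (nat_lit 204829) (nat_lit 18) (.e (nat_lit 57688) (nat_lit 156) (.e (nat_lit 163867) (nat_lit 2) (.e (nat_lit 196624) (nat_lit 9) .nil)))))))) (.g (nat_lit 5) .nil .nil)))) (.nd (nat_lit 6) 
(.lf (nat_lit 47921) (.g (nat_lit 1202) (.e (nat_lit 7936) (nat_lit 93) (.e (nat_lit 106536) (nat_lit 11) (.e (nat_lit 16412) (nat_lit 2) (.e (nat_lit 196672) (nat_lit 15) (.e (nat_lit 89856) (nat_lit 2) .nil))))) .nil)) 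
(.lf (nat_lit 47985) (.g (nat_lit 2953) (.e (nat_lit 1277) (nat_lit 94) (.e (nat_lit 114714) (nat_lit 22) (.e (nat_lit 90174) (nat_lit 14) (.e (nat_lit 180243) (nat_lit 5) (.e (nat_lit 532503) (nat_lit 1) (.e (nat_lit 57686) (nat_lit 156) (.e (nat_lit 163868) (nat_lit 2) (.e (nat_lit 196624) (nat_lit 9) .nil)))))))) (.g (nat_lit 5) .nil .nil)))))) 
(.nd (nat_lit 4) (.nd (nat_lit 5) (.nd (nat_lit 6) 
(.lf (nat_lit 47881) (.g (nat_lit 2566) (.e (nat_lit 1270) (nat_lit 93) (.e (nat_lit 106536) (nat_lit 11) (.e (nat_lit 16468) (nat_lit 13) (.e (nat_lit 483395) (nat_lit 24) (.e (nat_lit 344156) (nat_lit 36) (.e (nat_lit 639011) (nat_lit 13) .nil)))))) (.g (nat_lit 0) .nil .nil))) 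
(.lf (nat_lit 47945) (.g (nat_lit 1786) (.e (nat_lit 1276) (nat_lit 94) (.e (nat_lit 114718) (nat_lit 23) (.e (nat_lit 98384) (nat_lit 32) (.e (nat_lit 475211) (nat_lit 41) .nil)))) .nil))) (.nd (nat_lit 6) 
(.lf (nat_lit 47913) (.g (nat_lit 2644) (.e (nat_lit 1272) (nat_lit 93) (.e (nat_lit 106536) (nat_lit 11) (.e (nat_lit 16436) (nat_lit 9) (.e (nat_lit 426555) (nat_lit 32) .nil)))) .nil)) 
(.lf (nat_lit 47977) (.g (nat_lit 1418) (.e (nat_lit 1277) (nat_lit 94) (.e (nat_lit 114714) (nat_lit 22) (.e (nat_lit 90172) (nat_lit 14) (.e (nat_lit 180248) (nat_lit 9) .nil)))) .nil)))) (.nd (nat_lit 5) (.nd (nat_lit 6) 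
(.lf (nat_lit 47897) (.g (nat_lit 2489) (.e (nat_lit 1271) (nat_lit 93) (.e (nat_lit 106536) (nat_lit 11) (.e (nat_lit 16412) (nat_lit 2) (.e (nat_lit 196681) (nat_lit 17) .nil)))) .nil)) 
(.lf (nat_lit 47961) (.g (nat_lit 4070) (.e (nat_lit 1277) (nat_lit 94) (.e (nat_lit 114714) (nat_lit 22) (.e (nat_lit 90172) (nat_lit 14) (.e (nat_lit 180243) (nat_lit 5) (.e (nat_lit 532504) (nat_lit 1) (.e (nat_lit 57691) (nat_lit 156) (.e (nat_lit 163871) (nat_lit 2) (.e (nat_lit 196624) (nat_lit 9) .nil)))))))) (.g (nat_lit 6) .nil .nil)))) (.nd (nat_lit 6) 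
(.lf (nat_lit 47929) (.g (nat_lit 2015) (.e (nat_lit 1275) (nat_lit 94) (.e (nat_lit 114719) (nat_lit 23) (.e (nat_lit 98365) (nat_lit 26) (.e (nat_lit 426133) (nat_lit 3) (.e (nat_lit 204829) (nat_lit 18) .nil))))) .nil)) 
(.lf (nat_lit 47993) (.g (nat_lit 2045) (.e (nat_lit 1277) (nat_lit 94) (.e (nat_lit 114715) (nat_lit 22) (.e (nat_lit 90170) (nat_lit 13) (.e (nat_lit 172062) (nat_lit 2) (.e (nat_lit 204544) (nat_lit 2) .nil))))) .nil)))))) (.nd (nat_lit 3) (.nd (nat_lit 4) (.nd (nat_lit 5) (.nd (nat_lit 6) 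
(.lf (nat_lit 47877) (.g (nat_lit 1181) (.e (nat_lit 1270) (nat_lit 93) (.e (nat_lit 106536) (nat_lit 11) (.e (nat_lit 16466) (nat_lit 13) .nil))) .nil)) 
(.lf (nat_lit 47941) (.g (nat_lit 2028) (.e (nat_lit 1276) (nat_lit 94) (.e (nat_lit 114715) (nat_lit 22) (.e (nat_lit 90170) (nat_lit 13) (.e (nat_lit 172067) (nat_lit 3) (.e (nat_lit 204829) (nat_lit 18) .nil))))) .nil))) (.nd (nat_lit 6) 
(.lf (nat_lit 47909) (.g (nat_lit 2581) (.e (nat_lit 1272) (nat_lit 93) (.e (nat_lit 106536) (nat_lit 11) (.e (nat_lit 16412) (nat_lit 2) (.e (nat_lit 196681) (nat_lit 17) .nil)))) .nil)) 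
(.lf (nat_lit 47973) (.g (nat_lit 3009) (.e (nat_lit 1277) (nat_lit 94) (.e (nat_lit 114714) (nat_lit 22) (.e (nat_lit 90172) (nat_lit 14) (.e (nat_lit 180244) (nat_lit 5) (.e (nat_lit 532503) (nat_lit 1) (.e (nat_lit 57689) (nat_lit 156) (.e (nat_lit 163871) (nat_lit 2) (.e (nat_lit 196624) (nat_lit 9) .nil)))))))) (.g (nat_lit 5) .nil .nil))))) (.nd (nat_lit 5) (.nd (nat_lit 6) 
(.lf (nat_lit 47893) (.g (nat_lit 1089) (.e (nat_lit 1271) (nat_lit 93) (.e (nat_lit 106536) (nat_lit 11) (.e (nat_lit 16412) (nat_lit 2) .nil))) .nil)) 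
(.lf (nat_lit 47957) (.g (nat_lit 2790) (.e (nat_lit 1277) (nat_lit 94) (.e (nat_lit 114714) (nat_lit 22) (.e (nat_lit 90170) (nat_lit 13) (.e (nat_lit 172138) (nat_lit 15) (.e (nat_lit 2175) (nat_lit 143) .nil))))) .nil))) (.nd (nat_lit 6) 
(.lf (nat_lit 47925) (.g (nat_lit 758) (.e (nat_lit 7936) (nat_lit 93) (.e (nat_lit 106536) (nat_lit 11) (.e (nat_lit 16466) (nat_lit 13) (.e (nat_lit 483393) (nat_lit 23) .nil)))) .nil)) 
(.lf (nat_lit 47989) (.g (nat_lit 1891) (.e (nat_lit 1277) (nat_lit 94) (.e (nat_lit 114715) (nat_lit 22) (.e (nat_lit 90170) (nat_lit 13) (.e (nat_lit 172042) (nat_lit 0) (.e (nat_lit 3406) (nat_lit 212) .nil))))) .nil))))) (.nd (nat_lit 4) (.nd (nat_lit 5) (.nd (nat_lit 6) 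
(.lf (nat_lit 47885) (.g (nat_lit 1411) (.e (nat_lit 1271) (nat_lit 93) (.e (nat_lit 106534) (nat_lit 11) (.e (nat_lit 16416) (nat_lit 3) (.e (nat_lit 204877) (nat_lit 31) .nil)))) .nil)) 
(.lf (nat_lit 47949) (.g (nat_lit 2119) (.e (nat_lit 1277) (nat_lit 94) (.e (nat_lit 114714) (nat_lit 22) (.e (nat_lit 90170) (nat_lit 13) (.e (nat_lit 172065) (nat_lit 3) (.e (nat_lit 204830) (nat_lit 18) .nil))))) .nil))) (.nd (nat_lit 6) 
(.lf (nat_lit 47917) (.g (nat_lit 2159) (.e (nat_lit 1273) (nat_lit 93) (.e (nat_lit 106536) (nat_lit 11) (.e (nat_lit 16416) (nat_lit 3) (.e (nat_lit 204868) (nat_lit 29) .nil)))) .nil)) 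
(.lf (nat_lit 47981) (.g (nat_lit 3250) (.e (nat_lit 1277) (nat_lit 94) (.e (nat_lit 114714) (nat_lit 22) (.e (nat_lit 90174) (nat_lit 14) (.e (nat_lit 180243) (nat_lit 5) (.e (nat_lit 532501) (nat_lit 1) (.e (nat_lit 57689) (nat_lit 156) (.e (nat_lit 163871) (nat_lit 2) (.e (nat_lit 196624) (nat_lit 9) .nil)))))))) (.g (nat_lit 6) .nil .nil))))) (.nd (nat_lit 5) (.nd (nat_lit 6) 
(.lf (nat_lit 47901) (.g (nat_lit 3157) (.e (nat_lit 1271) (nat_lit 93) (.e (nat_lit 106536) (nat_lit 11) (.e (nat_lit 16416) (nat_lit 3) (.e (nat_lit 204861) (nat_lit 26) (.e (nat_lit 336076) (nat_lit 9) .nil))))) .nil)) 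
(.lf (nat_lit 47965) (.g (nat_lit 4929) (.e (nat_lit 1277) (nat_lit 94) (.e (nat_lit 114714) (nat_lit 22) (.e (nat_lit 90172) (nat_lit 14) (.e (nat_lit 180244) (nat_lit 5) (.e (nat_lit 532499) (nat_lit 1) (.e (nat_lit 57691) (nat_lit 156) (.e (nat_lit 163871) (nat_lit 2) (.e (nat_lit 196624) (nat_lit 9) .nil)))))))) (.g (nat_lit 0) .nil .nil)))) (.nd (nat_lit 6) 
(.lf (nat_lit 47933) (.g (nat_lit 2497) (.e (nat_lit 1276) (nat_lit 94) (.e (nat_lit 114714) (nat_lit 22) (.e (nat_lit 90170) (nat_lit 13) (.e (nat_lit 172067) (nat_lit 3) (.e (nat_lit 204829) (nat_lit 18) .nil))))) .nil)) 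
(.lf (nat_lit 47997) (.g (nat_lit 3789) (.e (nat_lit 1277) (nat_lit 94) (.e (nat_lit 114715) (nat_lit 22) (.e (nat_lit 90170) (nat_lit 13) (.e (nat_lit 172065) (nat_lit 3) (.e (nat_lit 204830) (nat_lit 18) (.e (nat_lit 57689) (nat_lit 156) (.e (nat_lit 163871) (nat_lit 2) (.e (nat_lit 196624) (nat_lit 9) .nil)))))))) (.g (nat_lit 7) .nil .nil)))))))) 
(.nd (nat_lit 2) (.nd (nat_lit 3) (.nd (nat_lit 4) (.nd (nat_lit 5) (.nd (nat_lit 6) 
(.lf (nat_lit 47875) (.g (nat_lit 1172) (.e (nat_lit 1270) (nat_lit 93) (.e (nat_lit 106536) (nat_lit 11) (.e (nat_lit 16436) (nat_lit 9) .nil))) .nil)) 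
(.lf (nat_lit 47939) (.g (nat_lit 2090) (.e (nat_lit 1276) (nat_lit 94) (.e (nat_lit 114714) (nat_lit 22) (.e (nat_lit 90174) (nat_lit 14) (.e (nat_lit 180243) (nat_lit 5) (.e (nat_lit 532504) (nat_lit 1) .nil))))) .nil))) (.nd (nat_lit 6) 
(.lf (nat_lit 47907) (.g (nat_lit 2253) (.e (nat_lit 1272) (nat_lit 93) (.e (nat_lit 106536) (nat_lit 11) (.e (nat_lit 16412) (nat_lit 2) (.e (nat_lit 196672) (nat_lit 15) .nil)))) .nil)) 
(.lf (nat_lit 47971) (.g (nat_lit 4952) (.e (nat_lit 1277) (nat_lit 94) (.e (nat_lit 114714) (nat_lit 22) (.e (nat_lit 90172) (nat_lit 14) (.e (nat_lit 180244) (nat_lit 5) (.e (nat_lit 532503) (nat_lit 1) (.e (nat_lit 57685) (nat_lit 156) (.e (nat_lit 163867) (nat_lit 2) (.e (nat_lit 196624) (nat_lit 9) .nil)))))))) (.g (nat_lit 0) .nil .nil))))) (.nd (nat_lit 5) (.nd (nat_lit 6) 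
(.lf (nat_lit 47891) (.g (nat_lit 988) (.e (nat_lit 1271) (nat_lit 93) (.e (nat_lit 106534) (nat_lit 11) (.e (nat_lit 16467) (nat_lit 13) (.e (nat_lit 483395) (nat_lit 24) .nil)))) .nil)) 
(.lf (nat_lit 47955) (.g (nat_lit 2371) (.e (nat_lit 1277) (nat_lit 94) (.e (nat_lit 114714) (nat_lit 22) (.e (nat_lit 90170) (nat_lit 13) (.e (nat_lit 172067) (nat_lit 3) (.e (nat_lit 204830) (nat_lit 18) .nil))))) .nil))) (.nd (nat_lit 6) 
(.lf (nat_lit 47923) (.g (nat_lit 1863) (.e (nat_lit 7936) (nat_lit 93) (.e (nat_lit 106536) (nat_lit 11) (.e (nat_lit 16416) (nat_lit 3) (.e (nat_lit 204868) (nat_lit 29) (.e (nat_lit 368384) (nat_lit 10) .nil))))) .nil)) 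
(.lf (nat_lit 47987) (.g (nat_lit 1648) (.e (nat_lit 1277) (nat_lit 94) (.e (nat_lit 114714) (nat_lit 22) (.e (nat_lit 90185) (nat_lit 17) (.e (nat_lit 237594) (nat_lit 3) (.e (nat_lit 204829) (nat_lit 18) .nil))))) .nil))))) (.nd (nat_lit 4) (.nd (nat_lit 5) (.nd (nat_lit 6) 
(.lf (nat_lit 47883) (.g (nat_lit 1826) (.e (nat_lit 1271) (nat_lit 93) (.e (nat_lit 106534) (nat_lit 11) (.e (nat_lit 16416) (nat_lit 3) (.e (nat_lit 204868) (nat_lit 29) (.e (nat_lit 368384) (nat_lit 10) (.e (nat_lit 573449) (nat_lit 9) .nil)))))) (.g (nat_lit 4) .nil .nil))) 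
(.lf (nat_lit 47947) (.g (nat_lit 2363) (.e (nat_lit 1276) (nat_lit 94) (.e (nat_lit 114719) (nat_lit 23) (.e (nat_lit 98365) (nat_lit 26) (.e (nat_lit 426139) (nat_lit 3) (.e (nat_lit 204829) (nat_lit 18) .nil))))) .nil))) (.nd (nat_lit 6) 
(.lf (nat_lit 47915) (.g (nat_lit 1453) (.e (nat_lit 1273) (nat_lit 93) (.e (nat_lit 106536) (nat_lit 11) (.e (nat_lit 16412) (nat_lit 2) .nil))) .nil)) 
(.lf (nat_lit 47979) (.g (nat_lit 2088) (.e (nat_lit 1277) (nat_lit 94) (.e (nat_lit 114714) (nat_lit 22) (.e (nat_lit 90174) (nat_lit 14) (.e (nat_lit 180243) (nat_lit 5) (.e (nat_lit 532500) (nat_lit 1) .nil))))) .nil)))) (.nd (nat_lit 5) (.nd (nat_lit 6) 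
(.lf (nat_lit 47899) (.g (nat_lit 775) (.e (nat_lit 1271) (nat_lit 93) (.e (nat_lit 106536) (nat_lit 11) (.e (nat_lit 16416) (nat_lit 3) .nil))) .nil)) 
(.lf (nat_lit 47963) (.g (nat_lit 4490) (.e (nat_lit 1277) (nat_lit 94) (.e (nat_lit 114714) (nat_lit 22) (.e (nat_lit 90172) (nat_lit 14) (.e (nat_lit 180243) (nat_lit 5) (.e (nat_lit 532504) (nat_lit 1) (.e (nat_lit 57692) (nat_lit 156) (.e (nat_lit 163871) (nat_lit 2) (.e (nat_lit 196624) (nat_lit 9) .nil)))))))) (.g (nat_lit 7) .nil .nil)))) (.nd (nat_lit 6) 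
(.lf (nat_lit 47931) (.g (nat_lit 2242) (.e (nat_lit 1275) (nat_lit 94) (.e (nat_lit 114719) (nat_lit 23) (.e (nat_lit 98387) (nat_lit 33) (.e (nat_lit 491571) (nat_lit 13) (.e (nat_lit 393258) (nat_lit 20) .nil))))) .nil)) 
(.lf (nat_lit 47995) (.g (nat_lit 2672) (.e (nat_lit 1277) (nat_lit 94) (.e (nat_lit 114715) (nat_lit 22) (.e (nat_lit 90170) (nat_lit 13) (.e (nat_lit 172064) (nat_lit 2) (.e (nat_lit 204544) (nat_lit 2) (.e (nat_lit 24604) (nat_lit 2) (.e (nat_lit 98048) (nat_lit 0) .nil))))))) (.g (nat_lit 6) .nil .nil))))))) (.nd (nat_lit 3) (.nd (nat_lit 4) (.nd (nat_lit 5) (.nd (nat_lit 6) 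
(.lf (nat_lit 47879) (.g (nat_lit 655) (.e (nat_lit 1270) (nat_lit 93) (.e (nat_lit 106536) (nat_lit 11) (.e (nat_lit 16467) (nat_lit 13) .nil))) .nil)) 
(.lf (nat_lit 47943) (.g (nat_lit 1763) (.e (nat_lit 1276) (nat_lit 94) (.e (nat_lit 114716) (nat_lit 22) (.e (nat_lit 90174) (nat_lit 14) (.e (nat_lit 180243) (nat_lit 5) (.e (nat_lit 532502) (nat_lit 1) .nil))))) .nil))) (.nd (nat_lit 6) 
(.lf (nat_lit 47911) (.g (nat_lit 2498) (.e (nat_lit 1272) (nat_lit 93) (.e (nat_lit 106536) (nat_lit 11) (.e (nat_lit 16416) (nat_lit 3) (.e (nat_lit 204861) (nat_lit 26) .nil)))) .nil)) 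
(.lf (nat_lit 47975) (.g (nat_lit 3399) (.e (nat_lit 1277) (nat_lit 94) (.e (nat_lit 114714) (nat_lit 22) (.e (nat_lit 90172) (nat_lit 14) (.e (nat_lit 180244) (nat_lit 5) (.e (nat_lit 532504) (nat_lit 1) (.e (nat_lit 57690) (nat_lit 156) (.e (nat_lit 163871) (nat_lit 2) (.e (nat_lit 196624) (nat_lit 9) .nil)))))))) (.g (nat_lit 5) .nil .nil))))) (.nd (nat_lit 5) (.nd (nat_lit 6) 
(.lf (nat_lit 47895) (.g (nat_lit 1957) (.e (nat_lit 1271) (nat_lit 93) (.e (nat_lit 106536) (nat_lit 11) (.e (nat_lit 16412) (nat_lit 2) (.e (nat_lit 196674) (nat_lit 15) .nil)))) .nil)) 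
(.lf (nat_lit 47959) (.g (nat_lit 2269) (.e (nat_lit 1277) (nat_lit 94) (.e (nat_lit 114714) (nat_lit 22) (.e (nat_lit 90172) (nat_lit 14) (.e (nat_lit 180243) (nat_lit 5) (.e (nat_lit 532502) (nat_lit 1) .nil))))) .nil))) (.nd (nat_lit 6) 
(.lf (nat_lit 47927) (.g (nat_lit 3104) (.e (nat_lit 1275) (nat_lit 94) (.e (nat_lit 114718) (nat_lit 23) (.e (nat_lit 98367) (nat_lit 27) (.e (nat_lit 434231) (nat_lit 23) (.e (nat_lit 532499) (nat_lit 1) (.e (nat_lit 57692) (nat_lit 156) (.e (nat_lit 163869) (nat_lit 2) (.e (nat_lit 196628) (nat_lit 9) .nil)))))))) (.g (nat_lit 5) .nil .nil))) 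
(.lf (nat_lit 47991) (.g (nat_lit 1796) (.e (nat_lit 1277) (nat_lit 94) (.e (nat_lit 114715) (nat_lit 22) (.e (nat_lit 90170) (nat_lit 13) (.e (nat_lit 172046) (nat_lit 0) .nil)))) .nil))))) (.nd (nat_lit 4) (.nd (nat_lit 5) (.nd (nat_lit 6) 
(.lf (nat_lit 47887) (.g (nat_lit 1360) (.e (nat_lit 1271) (nat_lit 93) (.e (nat_lit 106534) (nat_lit 11) (.e (nat_lit 16425) (nat_lit 7) (.e (nat_lit 409648) (nat_lit 18) .nil)))) .nil)) 
(.lf (nat_lit 47951) (.g (nat_lit 2864) (.e (nat_lit 1277) (nat_lit 94) (.e (nat_lit 114714) (nat_lit 22) (.e (nat_lit 90170) (nat_lit 13) (.e (nat_lit 172065) (nat_lit 3) (.e (nat_lit 204830) (nat_lit 18) (.e (nat_lit 57692) (nat_lit 156) (.e (nat_lit 163871) (nat_lit 2) (.e (nat_lit 196624) (nat_lit 9) .nil)))))))) (.g (nat_lit 5) .nil .nil)))) (.nd (nat_lit 6) 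
(.lf (nat_lit 47919) (.g (nat_lit 2045) (.e (nat_lit 7936) (nat_lit 93) (.e (nat_lit 106534) (nat_lit 11) (.e (nat_lit 16425) (nat_lit 7) (.e (nat_lit 409648) (nat_lit 18) (.e (nat_lit 303137) (nat_lit 10) .nil))))) .nil)) 
(.lf (nat_lit 47983) (.g (nat_lit 2083) (.e (nat_lit 1277) (nat_lit 94) (.e (nat_lit 114714) (nat_lit 22) (.e (nat_lit 90174) (nat_lit 14) (.e (nat_lit 180243) (nat_lit 5) (.e (nat_lit 532502) (nat_lit 1) .nil))))) .nil)))) (.nd (nat_lit 5) (.nd (nat_lit 6) 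
(.lf (nat_lit 47903) (.g (nat_lit 1414) (.e (nat_lit 1271) (nat_lit 93) (.e (nat_lit 106536) (nat_lit 11) (.e (nat_lit 16417) (nat_lit 3) (.e (nat_lit 204870) (nat_lit 29) (.e (nat_lit 368384) (nat_lit 10) .nil))))) .nil)) 
(.lf (nat_lit 47967) (.g (nat_lit 5031) (.e (nat_lit 1277) (nat_lit 94) (.e (nat_lit 114714) (nat_lit 22) (.e (nat_lit 90172) (nat_lit 14) (.e (nat_lit 180244) (nat_lit 5) (.e (nat_lit 532499) (nat_lit 1) (.e (nat_lit 57692) (nat_lit 156) (.e (nat_lit 163871) (nat_lit 2) (.e (nat_lit 196624) (nat_lit 9) .nil)))))))) (.g (nat_lit 8) .nil .nil)))) (.nd (nat_lit 6) 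
(.lf (nat_lit 47935) (.g (nat_lit 2199) (.e (nat_lit 1276) (nat_lit 94) (.e (nat_lit 114714) (nat_lit 22) (.e (nat_lit 90172) (nat_lit 14) (.e (nat_lit 180244) (nat_lit 5) (.e (nat_lit 532500) (nat_lit 1) .nil))))) .nil)) 
(.lf (nat_lit 47999) (.g (nat_lit 4808) (.e (nat_lit 1277) (nat_lit 94) (.e (nat_lit 114715) (nat_lit 22) (.e (nat_lit 90170) (nat_lit 13) (.e (nat_lit 172065) (nat_lit 3) (.e (nat_lit 204830) (nat_lit 18) (.e (nat_lit 57692) (nat_lit 156) (.e (nat_lit 163871) (nat_lit 2) (.e (nat_lit 196624) (nat_lit 9) .nil)))))))) (.g (nat_lit 8) .nil .nil))))))))))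

noncomputable def tv665 : DT := (.nd (nat_lit 0) (.nd (nat_lit 1) (.nd (nat_lit 2) (.nd (nat_lit 3) (.nd (nat_lit 4) (.nd (nat_lit 5) 
(.lf (nat_lit 48000) (.g (nat_lit 4119) (.e (nat_lit 1277) (nat_lit 94) (.e (nat_lit 114715) (nat_lit 22) (.e (nat_lit 90170) (nat_lit 13) (.e (nat_lit 172065) (nat_lit 3) (.e (nat_lit 204831) (nat_lit 18) (.e (nat_lit 57688) (nat_lit 156) (.e (nat_lit 163867) (nat_lit 2) (.e (nat_lit 196624) (nat_lit 9) .nil)))))))) (.g (nat_lit 6) .nil .nil))) 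
(.lf (nat_lit 48032) (.g (nat_lit 2360) (.e (nat_lit 1277) (nat_lit 94) (.e (nat_lit 114718) (nat_lit 23) (.e (nat_lit 98367) (nat_lit 27) (.e (nat_lit 434272) (nat_lit 38) (.e (nat_lit 655379) (nat_lit 5) .nil))))) .nil))) (.nd (nat_lit 5) 
(.lf (nat_lit 48016) (.g (nat_lit 537) (.e (nat_lit 1277) (nat_lit 94) (.e (nat_lit 114718) (nat_lit 23) (.e (nat_lit 98367) (nat_lit 27) .nil))) .nil)) 
(.lf (nat_lit 48048) (.g (nat_lit 1881) (.e (nat_lit 1277) (nat_lit 94) (.e (nat_lit 114719) (nat_lit 23) (.e (nat_lit 98365) (nat_lit 26) (.e (nat_lit 426138) (nat_lit 3) (.e (nat_lit 204831) (nat_lit 18) .nil))))) .nil)))) (.nd (nat_lit 4) (.nd (nat_lit 5) 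
(.lf (nat_lit 48008) (.g (nat_lit 1891) (.e (nat_lit 1277) (nat_lit 94) (.e (nat_lit 114715) (nat_lit 22) (.e (nat_lit 90170) (nat_lit 13) (.e (nat_lit 172138) (nat_lit 15) .nil)))) .nil)) 
(.lf (nat_lit 48040) (.g (nat_lit 2196) (.e (nat_lit 1277) (nat_lit 94) (.e (nat_lit 114719) (nat_lit 23) (.e (nat_lit 98363) (nat_lit 26) (.e (nat_lit 426129) (nat_lit 3) (.e (nat_lit 204829) (nat_lit 18) .nil))))) .nil))) (.nd (nat_lit 5) 
(.lf (nat_lit 48024) (.g (nat_lit 2134) (.e (nat_lit 1277) (nat_lit 94) (.e (nat_lit 114718) (nat_lit 23) (.e (nat_lit 98367) (nat_lit 27) (.e (nat_lit 434232) (nat_lit 23) (.e (nat_lit 532502) (nat_lit 1) (.e (nat_lit 57692) (nat_lit 156) (.e (nat_lit 163869) (nat_lit 2) (.e (nat_lit 196624) (nat_lit 9) .nil)))))))) (.g (nat_lit 4) .nil .nil))) 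
(.lf (nat_lit 48056) (.g (nat_lit 4209) (.e (nat_lit 1277) (nat_lit 94) (.e (nat_lit 114719) (nat_lit 23) (.e (nat_lit 98367) (nat_lit 27) (.e (nat_lit 434231) (nat_lit 23) (.e (nat_lit 532499) (nat_lit 1) (.e (nat_lit 57688) (nat_lit 156) (.e (nat_lit 163869) (nat_lit 2) (.e (nat_lit 196624) (nat_lit 9) .nil)))))))) (.g (nat_lit 6) .nil .nil)))))) 
(.nd (nat_lit 3) (.nd (nat_lit 4) (.nd (nat_lit 5) 
(.lf (nat_lit 48004) (.g (nat_lit 4961) (.e (nat_lit 1277) (nat_lit 94) (.e (nat_lit 114715) (nat_lit 22) (.e (nat_lit 90170) (nat_lit 13) (.e (nat_lit 172067) (nat_lit 3) (.e (nat_lit 204829) (nat_lit 18) (.e (nat_lit 57692) (nat_lit 156) (.e (nat_lit 163871) (nat_lit 2) (.e (nat_lit 196624) (nat_lit 9) .nil)))))))) (.g (nat_lit 8) .nil .nil))) 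
(.lf (nat_lit 48036) (.g (nat_lit 2066) (.e (nat_lit 1277) (nat_lit 94) (.e (nat_lit 114718) (nat_lit 23) (.e (nat_lit 98384) (nat_lit 32) (.e (nat_lit 475198) (nat_lit 40) .nil)))) .nil))) (.nd (nat_lit 5) 
(.lf (nat_lit 48020) (.g (nat_lit 2599) (.e (nat_lit 1277) (nat_lit 94) (.e (nat_lit 114718) (nat_lit 23) (.e (nat_lit 98367) (nat_lit 27) (.e (nat_lit 434231) (nat_lit 23) (.e (nat_lit 532504) (nat_lit 1) .nil))))) .nil)) 
(.lf (nat_lit 48052) (.g (nat_lit 2175) (.e (nat_lit 1277) (nat_lit 94) (.e (nat_lit 114719) (nat_lit 23) (.e (nat_lit 98366) (nat_lit 27) (.e (nat_lit 434231) (nat_lit 23) (.e (nat_lit 532519) (nat_lit 5) (.e (nat_lit 147500) (nat_lit 12) (.e (nat_lit 163975) (nat_lit 30) (.e (nat_lit 573450) (nat_lit 9) .nil)))))))) (.g (nat_lit 4) .nil .nil))))) (.nd (nat_lit 4) (.nd (nat_lit 5) 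
(.lf (nat_lit 48012) (.g (nat_lit 3461) (.e (nat_lit 1277) (nat_lit 94) (.e (nat_lit 114718) (nat_lit 23) (.e (nat_lit 98365) (nat_lit 26) (.e (nat_lit 426138) (nat_lit 3) (.e (nat_lit 204831) (nat_lit 18) (.e (nat_lit 57688) (nat_lit 156) (.e (nat_lit 163867) (nat_lit 2) (.e (nat_lit 196624) (nat_lit 9) .nil)))))))) (.g (nat_lit 6) .nil .nil))) 
(.lf (nat_lit 48044) (.g (nat_lit 4670) (.e (nat_lit 1277) (nat_lit 94) (.e (nat_lit 114719) (nat_lit 23) (.e (nat_lit 98365) (nat_lit 26) (.e (nat_lit 426133) (nat_lit 3) (.e (nat_lit 204829) (nat_lit 18) (.e (nat_lit 57692) (nat_lit 156) (.e (nat_lit 163869) (nat_lit 2) (.e (nat_lit 196624) (nat_lit 9) .nil)))))))) (.g (nat_lit 8) .nil .nil)))) (.nd (nat_lit 5) 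
(.lf (nat_lit 48028) (.g (nat_lit 3281) (.e (nat_lit 1277) (nat_lit 94) (.e (nat_lit 114718) (nat_lit 23) (.e (nat_lit 98367) (nat_lit 27) (.e (nat_lit 434232) (nat_lit 23) (.e (nat_lit 532504) (nat_lit 1) (.e (nat_lit 57690) (nat_lit 156) (.e (nat_lit 163871) (nat_lit 2) (.e (nat_lit 196624) (nat_lit 9) .nil)))))))) (.g (nat_lit 5) .nil .nil))) 
(.lf (nat_lit 48060) (.g (nat_lit 2535) (.e (nat_lit 1277) (nat_lit 94) (.e (nat_lit 114719) (nat_lit 23) (.e (nat_lit 98367) (nat_lit 27) (.e (nat_lit 434231) (nat_lit 23) (.e (nat_lit 532519) (nat_lit 5) .nil))))) .nil)))))) (.nd (nat_lit 2) (.nd (nat_lit 3) (.nd (nat_lit 4) (.nd (nat_lit 5) 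
(.lf (nat_lit 48002) (.g (nat_lit 2520) (.e (nat_lit 1277) (nat_lit 94) (.e (nat_lit 114715) (nat_lit 22) (.e (nat_lit 90170) (nat_lit 13) (.e (nat_lit 172067) (nat_lit 3) (.e (nat_lit 204828) (nat_lit 18) .nil))))) .nil)) 
(.lf (nat_lit 48034) (.g (nat_lit 1742) (.e (nat_lit 1277) (nat_lit 94) (.e (nat_lit 114718) (nat_lit 23) (.e (nat_lit 98377) (nat_lit 30) (.e (nat_lit 458789) (nat_lit 23) (.e (nat_lit 532501) (nat_lit 1) .nil))))) .nil))) (.nd (nat_lit 5) 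
(.lf (nat_lit 48018) (.g (nat_lit 5018) (.e (nat_lit 1277) (nat_lit 94) (.e (nat_lit 114718) (nat_lit 23) (.e (nat_lit 98367) (nat_lit 27) (.e (nat_lit 434231) (nat_lit 23) (.e (nat_lit 532499) (nat_lit 1) (.e (nat_lit 57692) (nat_lit 156) (.e (nat_lit 163869) (nat_lit 2) (.e (nat_lit 196624) (nat_lit 9) .nil)))))))) (.g (nat_lit 8) .nil .nil))) 
(.lf (nat_lit 48050) (.g (nat_lit 3865) (.e (nat_lit 1277) (nat_lit 94) (.e (nat_lit 114719) (nat_lit 23) (.e (nat_lit 98366) (nat_lit 27) (.e (nat_lit 434231) (nat_lit 23) (.e (nat_lit 532499) (nat_lit 1) (.e (nat_lit 57688) (nat_lit 156) (.e (nat_lit 163869) (nat_lit 2) (.e (nat_lit 196624) (nat_lit 9) .nil)))))))) (.g (nat_lit 6) .nil .nil))))) (.nd (nat_lit 4) (.nd (nat_lit 5) 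
(.lf (nat_lit 48010) (.g (nat_lit 3182) (.e (nat_lit 1277) (nat_lit 94) (.e (nat_lit 114718) (nat_lit 23) (.e (nat_lit 98365) (nat_lit 26) (.e (nat_lit 426133) (nat_lit 3) (.e (nat_lit 204831) (nat_lit 18) (.e (nat_lit 57692) (nat_lit 156) (.e (nat_lit 163869) (nat_lit 2) (.e (nat_lit 196624) (nat_lit 9) .nil)))))))) (.g (nat_lit 4) .nil .nil))) 
(.lf (nat_lit 48042) (.g (nat_lit 4724) (.e (nat_lit 1277) (nat_lit 94) (.e (nat_lit 114719) (nat_lit 23) (.e (nat_lit 98365) (nat_lit 26) (.e (nat_lit 426133) (nat_lit 3) (.e (nat_lit 204829) (nat_lit 18) (.e (nat_lit 57688) (nat_lit 156) (.e (nat_lit 163867) (nat_lit 2) (.e (nat_lit 196624) (nat_lit 9) .nil)))))))) (.g (nat_lit 8) .nil .nil)))) (.nd (nat_lit 5) 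
(.lf (nat_lit 48026) (.g (nat_lit 2913) (.e (nat_lit 1277) (nat_lit 94) (.e (nat_lit 114718) (nat_lit 23) (.e (nat_lit 98367) (nat_lit 27) (.e (nat_lit 434232) (nat_lit 23) (.e (nat_lit 532503) (nat_lit 1) (.e (nat_lit 57685) (nat_lit 156) (.e (nat_lit 163871) (nat_lit 2) (.e (nat_lit 196624) (nat_lit 9) .nil)))))))) (.g (nat_lit 5) .nil .nil))) 
(.lf (nat_lit 48058) (.g (nat_lit 3842) (.e (nat_lit 1277) (nat_lit 94) (.e (nat_lit 114719) (nat_lit 23) (.e (nat_lit 98367) (nat_lit 27) (.e (nat_lit 434231) (nat_lit 23) (.e (nat_lit 532500) (nat_lit 1) (.e (nat_lit 57685) (nat_lit 156) (.e (nat_lit 163867) (nat_lit 2) (.e (nat_lit 196624) (nat_lit 9) .nil)))))))) (.g (nat_lit 6) .nil .nil)))))) 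
(.nd (nat_lit 3) (.nd (nat_lit 4) (.nd (nat_lit 5) 
(.lf (nat_lit 48006) (.g (nat_lit 1908) (.e (nat_lit 1277) (nat_lit 94) (.e (nat_lit 114715) (nat_lit 22) (.e (nat_lit 90170) (nat_lit 13) (.e (nat_lit 172071) (nat_lit 5) .nil)))) .nil)) 
(.lf (nat_lit 48038) (.g (nat_lit 2317) (.e (nat_lit 1277) (nat_lit 94) (.e (nat_lit 114718) (nat_lit 23) (.e (nat_lit 98387) (nat_lit 33) (.e (nat_lit 491571) (nat_lit 13) (.e (nat_lit 393257) (nat_lit 20) .nil))))) .nil))) (.nd (nat_lit 5) 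
(.lf (nat_lit 48022) (.g (nat_lit 2021) (.e (nat_lit 1277) (nat_lit 94) (.e (nat_lit 114718) (nat_lit 23) (.e (nat_lit 98367) (nat_lit 27) (.e (nat_lit 434232) (nat_lit 23) (.e (nat_lit 532499) (nat_lit 1) (.e (nat_lit 57686) (nat_lit 156) (.e (nat_lit 163867) (nat_lit 2) (.e (nat_lit 196624) (nat_lit 9) .nil)))))))) (.g (nat_lit 4) .nil .nil))) 
(.lf (nat_lit 48054) (.g (nat_lit 1802) (.e (nat_lit 1277) (nat_lit 94) (.e (nat_lit 114719) (nat_lit 23) (.e (nat_lit 98366) (nat_lit 27) (.e (nat_lit 434232) (nat_lit 23) (.e (nat_lit 532504) (nat_lit 1) .nil))))) .nil)))) (.nd (nat_lit 4) (.nd (nat_lit 5) 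
(.lf (nat_lit 48014) (.g (nat_lit 3461) (.e (nat_lit 1277) (nat_lit 94) (.e (nat_lit 114718) (nat_lit 23) (.e (nat_lit 98366) (nat_lit 27) (.e (nat_lit 434231) (nat_lit 23) (.e (nat_lit 532500) (nat_lit 1) (.e (nat_lit 57689) (nat_lit 156) (.e (nat_lit 163871) (nat_lit 2) (.e (nat_lit 196624) (nat_lit 9) .nil)))))))) (.g (nat_lit 5) .nil .nil))) 
(.lf (nat_lit 48046) (.g (nat_lit 2424) (.e (nat_lit 1277) (nat_lit 94) (.e (nat_lit 114719) (nat_lit 23) (.e (nat_lit 98365) (nat_lit 26) (.e (nat_lit 426133) (nat_lit 3) (.e (nat_lit 204842) (nat_lit 22) .nil))))) .nil))) (.nd (nat_lit 5) 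
(.lf (nat_lit 48030) (.g (nat_lit 1994) (.e (nat_lit 1277) (nat_lit 94) (.e (nat_lit 114718) (nat_lit 23) (.e (nat_lit 98367) (nat_lit 27) (.e (nat_lit 434234) (nat_lit 23) (.e (nat_lit 532499) (nat_lit 1) (.e (nat_lit 57686) (nat_lit 156) (.e (nat_lit 163867) (nat_lit 2) (.e (nat_lit 196624) (nat_lit 9) .nil)))))))) (.g (nat_lit 4) .nil .nil))) 
(.lf (nat_lit 48062) (.g (nat_lit 2014) (.e (nat_lit 1277) (nat_lit 94) (.e (nat_lit 114719) (nat_lit 23) (.e (nat_lit 98367) (nat_lit 27) (.e (nat_lit 434232) (nat_lit 23) (.e (nat_lit 532502) (nat_lit 1) (.e (nat_lit 57688) (nat_lit 156) (.e (nat_lit 163867) (nat_lit 2) (.e (nat_lit 196624) (nat_lit 9) .nil)))))))) (.g (nat_lit 4) .nil .nil)))))))) 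
(.nd (nat_lit 1) (.nd (nat_lit 2) (.nd (nat_lit 3) (.nd (nat_lit 4) (.nd (nat_lit 5) 
(.lf (nat_lit 48001) (.g (nat_lit 2058) (.e (nat_lit 1277) (nat_lit 94) (.e (nat_lit 114715) (nat_lit 22) (.e (nat_lit 90170) (nat_lit 13) (.e (nat_lit 172065) (nat_lit 3) (.e (nat_lit 204842) (nat_lit 22) .nil))))) .nil)) 
(.lf (nat_lit 48033) (.g (nat_lit 1963) (.e (nat_lit 1277) (nat_lit 94) (.e (nat_lit 114718) (nat_lit 23) (.e (nat_lit 98377) (nat_lit 30) (.e (nat_lit 458789) (nat_lit 23) (.e (nat_lit 532499) (nat_lit 1) .nil))))) .nil))) (.nd (nat_lit 5) 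
(.lf (nat_lit 48017) (.g (nat_lit 3467) (.e (nat_lit 1277) (nat_lit 94) (.e (nat_lit 114718) (nat_lit 23) (.e (nat_lit 98367) (nat_lit 27) (.e (nat_lit 434231) (nat_lit 23) (.e (nat_lit 532499) (nat_lit 1) (.e (nat_lit 57686) (nat_lit 156) (.e (nat_lit 163871) (nat_lit 2) (.e (nat_lit 196624) (nat_lit 9) .nil)))))))) (.g (nat_lit 6) .nil .nil))) 
(.lf (nat_lit 48049) (.g (nat_lit 2958) (.e (nat_lit 1277) (nat_lit 94) (.e (nat_lit 114719) (nat_lit 23) (.e (nat_lit 98366) (nat_lit 27) (.e (nat_lit 434231) (nat_lit 23) (.e (nat_lit 532499) (nat_lit 1) (.e (nat_lit 57686) (nat_lit 156) (.e (nat_lit 163871) (nat_lit 2) (.e (nat_lit 196624) (nat_lit 9) .nil)))))))) (.g (nat_lit 5) .nil .nil))))) (.nd (nat_lit 4) (.nd (nat_lit 5) 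
(.lf (nat_lit 48009) (.g (nat_lit 1925) (.e (nat_lit 1277) (nat_lit 94) (.e (nat_lit 114716) (nat_lit 22) (.e (nat_lit 90172) (nat_lit 14) (.e (nat_lit 180244) (nat_lit 5) (.e (nat_lit 532502) (nat_lit 1) (.e (nat_lit 57692) (nat_lit 156) (.e (nat_lit 163871) (nat_lit 2) (.e (nat_lit 196624) (nat_lit 9) .nil)))))))) (.g (nat_lit 4) .nil .nil))) 
(.lf (nat_lit 48041) (.g (nat_lit 2138) (.e (nat_lit 1277) (nat_lit 94) (.e (nat_lit 114719) (nat_lit 23) (.e (nat_lit 98363) (nat_lit 26) (.e (nat_lit 426129) (nat_lit 3) (.e (nat_lit 204830) (nat_lit 18) .nil))))) .nil))) (.nd (nat_lit 5) 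
(.lf (nat_lit 48025) (.g (nat_lit 1974) (.e (nat_lit 1277) (nat_lit 94) (.e (nat_lit 114718) (nat_lit 23) (.e (nat_lit 98367) (nat_lit 27) (.e (nat_lit 434232) (nat_lit 23) (.e (nat_lit 532503) (nat_lit 1) .nil))))) .nil)) 
(.lf (nat_lit 48057) (.g (nat_lit 3319) (.e (nat_lit 1277) (nat_lit 94) (.e (nat_lit 114719) (nat_lit 23) (.e (nat_lit 98367) (nat_lit 27) (.e (nat_lit 434231) (nat_lit 23) (.e (nat_lit 532499) (nat_lit 1) (.e (nat_lit 57691) (nat_lit 156) (.e (nat_lit 163869) (nat_lit 2) (.e (nat_lit 196624) (nat_lit 9) .nil)))))))) (.g (nat_lit 5) .nil .nil)))))) 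
(.nd (nat_lit 3) (.nd (nat_lit 4) (.nd (nat_lit 5) 
(.lf (nat_lit 48005) (.g (nat_lit 2450) (.e (nat_lit 1277) (nat_lit 94) (.e (nat_lit 114715) (nat_lit 22) (.e (nat_lit 90170) (nat_lit 13) (.e (nat_lit 172067) (nat_lit 3) (.e (nat_lit 204831) (nat_lit 18) .nil))))) .nil)) 
(.lf (nat_lit 48037) (.g (nat_lit 2418) (.e (nat_lit 1277) (nat_lit 94) (.e (nat_lit 114718) (nat_lit 23) (.e (nat_lit 98384) (nat_lit 32) (.e (nat_lit 475199) (nat_lit 40) .nil)))) .nil))) (.nd (nat_lit 5) 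
(.lf (nat_lit 48021) (.g (nat_lit 2628) (.e (nat_lit 1277) (nat_lit 94) (.e (nat_lit 114718) (nat_lit 23) (.e (nat_lit 98367) (nat_lit 27) (.e (nat_lit 434231) (nat_lit 23) (.e (nat_lit 532519) (nat_lit 5) (.e (nat_lit 147500) (nat_lit 12) (.e (nat_lit 163975) (nat_lit 30) (.e (nat_lit 573450) (nat_lit 9) .nil)))))))) (.g (nat_lit 5) .nil .nil))) 
(.lf (nat_lit 48053) (.g (nat_lit 2699) (.e (nat_lit 1277) (nat_lit 94) (.e (nat_lit 114719) (nat_lit 23) (.e (nat_lit 98366) (nat_lit 27) (.e (nat_lit 434232) (nat_lit 23) (.e (nat_lit 532503) (nat_lit 1) (.e (nat_lit 57688) (nat_lit 156) (.e (nat_lit 163867) (nat_lit 2) (.e (nat_lit 196624) (nat_lit 9) .nil)))))))) (.g (nat_lit 5) .nil .nil))))) (.nd (nat_lit 4) (.nd (nat_lit 5) 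
(.lf (nat_lit 48013) (.g (nat_lit 3686) (.e (nat_lit 1277) (nat_lit 94) (.e (nat_lit 114718) (nat_lit 23) (.e (nat_lit 98365) (nat_lit 26) (.e (nat_lit 426139) (nat_lit 3) (.e (nat_lit 204830) (nat_lit 18) (.e (nat_lit 57692) (nat_lit 156) (.e (nat_lit 163871) (nat_lit 2) (.e (nat_lit 196624) (nat_lit 9) .nil)))))))) (.g (nat_lit 6) .nil .nil))) 
(.lf (nat_lit 48045) (.g (nat_lit 3353) (.e (nat_lit 1277) (nat_lit 94) (.e (nat_lit 114719) (nat_lit 23) (.e (nat_lit 98365) (nat_lit 26) (.e (nat_lit 426133) (nat_lit 3) (.e (nat_lit 204831) (nat_lit 18) .nil))))) .nil))) (.nd (nat_lit 5) 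
(.lf (nat_lit 48029) (.g (nat_lit 3763) (.e (nat_lit 1277) (nat_lit 94) (.e (nat_lit 114718) (nat_lit 23) (.e (nat_lit 98367) (nat_lit 27) (.e (nat_lit 434232) (nat_lit 23) (.e (nat_lit 532504) (nat_lit 1) (.e (nat_lit 57691) (nat_lit 156) (.e (nat_lit 163871) (nat_lit 2) (.e (nat_lit 196624) (nat_lit 9) .nil)))))))) (.g (nat_lit 6) .nil .nil))) 
(.lf (nat_lit 48061) (.g (nat_lit 2111) (.e (nat_lit 1277) (nat_lit 94) (.e (nat_lit 114719) (nat_lit 23) (.e (nat_lit 98367) (nat_lit 27) (.e (nat_lit 434232) (nat_lit 23) (.e (nat_lit 532499) (nat_lit 1) (.e (nat_lit 57686) (nat_lit 156) (.e (nat_lit 163868) (nat_lit 2) (.e (nat_lit 196624) (nat_lit 9) .nil)))))))) (.g (nat_lit 4) .nil .nil))))))) 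
(.nd (nat_lit 2) (.nd (nat_lit 3) (.nd (nat_lit 4) (.nd (nat_lit 5) 
(.lf (nat_lit 48003) (.g (nat_lit 2543) (.e (nat_lit 1277) (nat_lit 94) (.e (nat_lit 114715) (nat_lit 22) (.e (nat_lit 90170) (nat_lit 13) (.e (nat_lit 172067) (nat_lit 3) (.e (nat_lit 204828) (nat_lit 18) (.e (nat_lit 57691) (nat_lit 156) (.e (nat_lit 163871) (nat_lit 2) (.e (nat_lit 196624) (nat_lit 9) .nil)))))))) (.g (nat_lit 4) .nil .nil))) 
(.lf (nat_lit 48035) (.g (nat_lit 2378) (.e (nat_lit 1277) (nat_lit 94) (.e (nat_lit 114718) (nat_lit 23) (.e (nat_lit 98384) (nat_lit 32) (.e (nat_lit 475179) (nat_lit 24) (.e (nat_lit 516120) (nat_lit 1) .nil))))) .nil))) (.nd (nat_lit 5) 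
(.lf (nat_lit 48019) (.g (nat_lit 4826) (.e (nat_lit 1277) (nat_lit 94) (.e (nat_lit 114718) (nat_lit 23) (.e (nat_lit 98367) (nat_lit 27) (.e (nat_lit 434231) (nat_lit 23) (.e (nat_lit 532499) (nat_lit 1) (.e (nat_lit 57692) (nat_lit 156) (.e (nat_lit 163871) (nat_lit 2) (.e (nat_lit 196624) (nat_lit 9) .nil)))))))) (.g (nat_lit 8) .nil .nil))) 
(.lf (nat_lit 48051) (.g (nat_lit 3946) (.e (nat_lit 1277) (nat_lit 94) (.e (nat_lit 114719) (nat_lit 23) (.e (nat_lit 98366) (nat_lit 27) (.e (nat_lit 434231) (nat_lit 23) (.e (nat_lit 532500) (nat_lit 1) (.e (nat_lit 57690) (nat_lit 156) (.e (nat_lit 163871) (nat_lit 2) (.e (nat_lit 196624) (nat_lit 9) .nil)))))))) (.g (nat_lit 5) .nil .nil))))) (.nd (nat_lit 4) (.nd (nat_lit 5) 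
(.lf (nat_lit 48011) (.g (nat_lit 2093) (.e (nat_lit 1277) (nat_lit 94) (.e (nat_lit 114718) (nat_lit 23) (.e (nat_lit 98365) (nat_lit 26) (.e (nat_lit 426133) (nat_lit 3) (.e (nat_lit 204842) (nat_lit 22) (.e (nat_lit 147498) (nat_lit 12) (.e (nat_lit 163975) (nat_lit 30) (.e (nat_lit 573450) (nat_lit 9) .nil)))))))) (.g (nat_lit 4) .nil .nil))) 
(.lf (nat_lit 48043) (.g (nat_lit 3417) (.e (nat_lit 1277) (nat_lit 94) (.e (nat_lit 114719) (nat_lit 23) (.e (nat_lit 98365) (nat_lit 26) (.e (nat_lit 426133) (nat_lit 3) (.e (nat_lit 204829) (nat_lit 18) (.e (nat_lit 57688) (nat_lit 156) (.e (nat_lit 163869) (nat_lit 2) (.e (nat_lit 196624) (nat_lit 9) .nil)))))))) (.g (nat_lit 6) .nil .nil)))) (.nd (nat_lit 5) 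
(.lf (nat_lit 48027) (.g (nat_lit 1969) (.e (nat_lit 1277) (nat_lit 94) (.e (nat_lit 114718) (nat_lit 23) (.e (nat_lit 98367) (nat_lit 27) (.e (nat_lit 434232) (nat_lit 23) (.e (nat_lit 532504) (nat_lit 1) .nil))))) .nil)) 
(.lf (nat_lit 48059) (.g (nat_lit 2843) (.e (nat_lit 1277) (nat_lit 94) (.e (nat_lit 114719) (nat_lit 23) (.e (nat_lit 98367) (nat_lit 27) (.e (nat_lit 434231) (nat_lit 23) (.e (nat_lit 532502) (nat_lit 1) (.e (nat_lit 57692) (nat_lit 156) (.e (nat_lit 163871) (nat_lit 2) (.e (nat_lit 196624) (nat_lit 9) .nil)))))))) (.g (nat_lit 4) .nil .nil)))))) 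
(.nd (nat_lit 3) (.nd (nat_lit 4) (.nd (nat_lit 5) 
(.lf (nat_lit 48007) (.g (nat_lit 2036) (.e (nat_lit 1277) (nat_lit 94) (.e (nat_lit 114715) (nat_lit 22) (.e (nat_lit 90170) (nat_lit 13) (.e (nat_lit 172073) (nat_lit 5) (.e (nat_lit 245772) (nat_lit 2) .nil))))) .nil)) 
(.lf (nat_lit 48039) (.g (nat_lit 2088) (.e (nat_lit 1277) (nat_lit 94) (.e (nat_lit 114718) (nat_lit 23) (.e (nat_lit 98387) (nat_lit 33) (.e (nat_lit 491571) (nat_lit 13) (.e (nat_lit 393258) (nat_lit 20) .nil))))) .nil))) (.nd (nat_lit 5) 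
(.lf (nat_lit 48023) (.g (nat_lit 1972) (.e (nat_lit 1277) (nat_lit 94) (.e (nat_lit 114718) (nat_lit 23) (.e (nat_lit 98367) (nat_lit 27) (.e (nat_lit 434232) (nat_lit 23) (.e (nat_lit 532502) (nat_lit 1) .nil))))) .nil)) 
(.lf (nat_lit 48055) (.g (nat_lit 3313) (.e (nat_lit 1277) (nat_lit 94) (.e (nat_lit 114719) (nat_lit 23) (.e (nat_lit 98366) (nat_lit 27) (.e (nat_lit 434232) (nat_lit 23) (.e (nat_lit 532504) (nat_lit 1) (.e (nat_lit 57692) (nat_lit 156) (.e (nat_lit 163869) (nat_lit 2) (.e (nat_lit 196624) (nat_lit 9) .nil)))))))) (.g (nat_lit 6) .nil .nil))))) (.nd (nat_lit 4) (.nd (nat_lit 5) 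
(.lf (nat_lit 48015) (.g (nat_lit 3775) (.e (nat_lit 1277) (nat_lit 94) (.e (nat_lit 114718) (nat_lit 23) (.e (nat_lit 98366) (nat_lit 27) (.e (nat_lit 434231) (nat_lit 23) (.e (nat_lit 532500) (nat_lit 1) (.e (nat_lit 57690) (nat_lit 156) (.e (nat_lit 163871) (nat_lit 2) (.e (nat_lit 196624) (nat_lit 9) .nil)))))))) (.g (nat_lit 5) .nil .nil))) 
(.lf (nat_lit 48047) (.g (nat_lit 1649) (.e (nat_lit 1277) (nat_lit 94) (.e (nat_lit 114719) (nat_lit 23) (.e (nat_lit 98365) (nat_lit 26) (.e (nat_lit 426138) (nat_lit 3) .nil)))) .nil))) (.nd (nat_lit 5) 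
(.lf (nat_lit 48031) (.g (nat_lit 4535) (.e (nat_lit 1277) (nat_lit 94) (.e (nat_lit 114718) (nat_lit 23) (.e (nat_lit 98367) (nat_lit 27) (.e (nat_lit 434272) (nat_lit 38) (.e (nat_lit 655378) (nat_lit 4) (.e (nat_lit 172076) (nat_lit 6) (.e (nat_lit 253963) (nat_lit 9) .nil))))))) (.g (nat_lit 0) .nil .nil))) 
(.lf (nat_lit 48063) (.g (nat_lit 2900) (.e (nat_lit 1277) (nat_lit 94) (.e (nat_lit 114719) (nat_lit 23) (.e (nat_lit 98367) (nat_lit 27) (.e (nat_lit 434232) (nat_lit 23) (.e (nat_lit 532503) (nat_lit 1) (.e (nat_lit 57688) (nat_lit 156) (.e (nat_lit 163871) (nat_lit 2) (.e (nat_lit 196624) (nat_lit 9) .nil)))))))) (.g (nat_lit 5) .nil .nil)))))))))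

noncomputable def tv666 : DT := (.nd (nat_lit 0) (.nd (nat_lit 1) (.nd (nat_lit 2) (.nd (nat_lit 3) (.nd (nat_lit 4) (.nd (nat_lit 5) 
(.lf (nat_lit 48064) (.g (nat_lit 1938) (.e (nat_lit 1277) (nat_lit 94) (.e (nat_lit 114719) (nat_lit 23) (.e (nat_lit 98367) (nat_lit 27) (.e (nat_lit 434234) (nat_lit 23) (.e (nat_lit 532499) (nat_lit 1) (.e (nat_lit 57686) (nat_lit 156) (.e (nat_lit 163868) (nat_lit 2) (.e (nat_lit 196624) (nat_lit 9) .nil)))))))) (.g (nat_lit 4) .nil .nil))) 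
(.lf (nat_lit 48096) (.g (nat_lit 2154) (.e (nat_lit 1279) (nat_lit 94) (.e (nat_lit 114714) (nat_lit 22) (.e (nat_lit 90172) (nat_lit 14) (.e (nat_lit 180244) (nat_lit 5) (.e (nat_lit 532502) (nat_lit 1) .nil))))) .nil))) (.nd (nat_lit 5) 
(.lf (nat_lit 48080) (.g (nat_lit 3487) (.e (nat_lit 1278) (nat_lit 94) (.e (nat_lit 114716) (nat_lit 22) (.e (nat_lit 90172) (nat_lit 14) (.e (nat_lit 180244) (nat_lit 5) (.e (nat_lit 532499) (nat_lit 1) (.e (nat_lit 57692) (nat_lit 156) (.e (nat_lit 163869) (nat_lit 2) (.e (nat_lit 196626) (nat_lit 9) .nil)))))))) (.g (nat_lit 6) .nil .nil))) 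
(.lf (nat_lit 48112) (.g (nat_lit 2015) (.e (nat_lit 1279) (nat_lit 94) (.e (nat_lit 114719) (nat_lit 23) (.e (nat_lit 98365) (nat_lit 26) (.e (nat_lit 426133) (nat_lit 3) (.e (nat_lit 204829) (nat_lit 18) .nil))))) .nil)))) (.nd (nat_lit 4) (.nd (nat_lit 5) 
(.lf (nat_lit 48072) (.g (nat_lit 2249) (.e (nat_lit 1277) (nat_lit 94) (.e (nat_lit 114719) (nat_lit 23) (.e (nat_lit 98387) (nat_lit 33) (.e (nat_lit 491571) (nat_lit 13) (.e (nat_lit 393258) (nat_lit 20) .nil))))) .nil)) 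
(.lf (nat_lit 48104) (.g (nat_lit 1659) (.e (nat_lit 1279) (nat_lit 94) (.e (nat_lit 114718) (nat_lit 23) (.e (nat_lit 98365) (nat_lit 26) (.e (nat_lit 426133) (nat_lit 3) (.e (nat_lit 204829) (nat_lit 18) .nil))))) .nil))) (.nd (nat_lit 5) 
(.lf (nat_lit 48088) (.g (nat_lit 2274) (.e (nat_lit 1278) (nat_lit 94) (.e (nat_lit 114719) (nat_lit 23) (.e (nat_lit 98367) (nat_lit 27) (.e (nat_lit 434231) (nat_lit 23) (.e (nat_lit 532499) (nat_lit 1) (.e (nat_lit 57692) (nat_lit 156) (.e (nat_lit 163869) (nat_lit 2) (.e (nat_lit 196626) (nat_lit 9) .nil)))))))) (.g (nat_lit 4) .nil .nil))) 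
(.lf (nat_lit 48120) (.g (nat_lit 1851) (.e (nat_lit 1280) (nat_lit 94) (.e (nat_lit 114718) (nat_lit 23) (.e (nat_lit 98367) (nat_lit 27) (.e (nat_lit 434232) (nat_lit 23) .nil)))) .nil))))) (.nd (nat_lit 3) (.nd (nat_lit 4) (.nd (nat_lit 5) 
(.lf (nat_lit 48068) (.g (nat_lit 3038) (.e (nat_lit 1277) (nat_lit 94) (.e (nat_lit 114719) (nat_lit 23) (.e (nat_lit 98386) (nat_lit 32) (.e (nat_lit 475210) (nat_lit 41) (.e (nat_lit 712745) (nat_lit 27) .nil))))) .nil)) 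
(.lf (nat_lit 48100) (.g (nat_lit 2148) (.e (nat_lit 1279) (nat_lit 94) (.e (nat_lit 114714) (nat_lit 22) (.e (nat_lit 90174) (nat_lit 14) (.e (nat_lit 180243) (nat_lit 5) (.e (nat_lit 532502) (nat_lit 1) .nil))))) .nil))) (.nd (nat_lit 5) 
(.lf (nat_lit 48084) (.g (nat_lit 3316) (.e (nat_lit 1278) (nat_lit 94) (.e (nat_lit 114718) (nat_lit 23) (.e (nat_lit 98367) (nat_lit 27) (.e (nat_lit 434231) (nat_lit 23) (.e (nat_lit 532500) (nat_lit 1) (.e (nat_lit 57692) (nat_lit 156) (.e (nat_lit 163869) (nat_lit 2) (.e (nat_lit 196626) (nat_lit 9) .nil)))))))) (.g (nat_lit 5) .nil .nil))) 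
(.lf (nat_lit 48116) (.g (nat_lit 653) (.e (nat_lit 1280) (nat_lit 94) (.e (nat_lit 114718) (nat_lit 23) (.e (nat_lit 98356) (nat_lit 26) .nil))) .nil)))) (.nd (nat_lit 4) (.nd (nat_lit 5) 
(.lf (nat_lit 48076) (.g (nat_lit 3798) (.e (nat_lit 1278) (nat_lit 94) (.e (nat_lit 114714) (nat_lit 22) (.e (nat_lit 90172) (nat_lit 14) (.e (nat_lit 180243) (nat_lit 5) (.e (nat_lit 532504) (nat_lit 1) (.e (nat_lit 57692) (nat_lit 156) (.e (nat_lit 163869) (nat_lit 2) (.e (nat_lit 196626) (nat_lit 9) .nil)))))))) (.g (nat_lit 6) .nil .nil))) 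
(.lf (nat_lit 48108) (.g (nat_lit 2262) (.e (nat_lit 1279) (nat_lit 94) (.e (nat_lit 114718) (nat_lit 23) (.e (nat_lit 98367) (nat_lit 27) (.e (nat_lit 434231) (nat_lit 23) (.e (nat_lit 532499) (nat_lit 1) (.e (nat_lit 57692) (nat_lit 156) (.e (nat_lit 163869) (nat_lit 2) (.e (nat_lit 196643) (nat_lit 9) .nil)))))))) (.g (nat_lit 4) .nil .nil)))) (.nd (nat_lit 5) 
(.lf (nat_lit 48092) (.g (nat_lit 1908) (.e (nat_lit 1279) (nat_lit 94) (.e (nat_lit 114714) (nat_lit 22) (.e (nat_lit 90172) (nat_lit 14) (.e (nat_lit 180244) (nat_lit 5) (.e (nat_lit 532499) (nat_lit 1) .nil))))) .nil)) 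
(.lf (nat_lit 48124) (.g (nat_lit 2424) (.e (nat_lit 1280) (nat_lit 94) (.e (nat_lit 114719) (nat_lit 23) (.e (nat_lit 98365) (nat_lit 26) (.e (nat_lit 426133) (nat_lit 3) (.e (nat_lit 204842) (nat_lit 22) .nil))))) .nil)))))) (.nd (nat_lit 2) (.nd (nat_lit 3) (.nd (nat_lit 4) (.nd (nat_lit 5) 
(.lf (nat_lit 48066) (.g (nat_lit 2355) (.e (nat_lit 1277) (nat_lit 94) (.e (nat_lit 114719) (nat_lit 23) (.e (nat_lit 98384) (nat_lit 32) (.e (nat_lit 475179) (nat_lit 24) (.e (nat_lit 516119) (nat_lit 1) .nil))))) .nil)) 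
(.lf (nat_lit 48098) (.g (nat_lit 1443) (.e (nat_lit 1279) (nat_lit 94) (.e (nat_lit 114714) (nat_lit 22) (.e (nat_lit 90172) (nat_lit 14) (.e (nat_lit 180248) (nat_lit 9) .nil)))) .nil))) (.nd (nat_lit 5) 
(.lf (nat_lit 48082) (.g (nat_lit 2732) (.e (nat_lit 1278) (nat_lit 94) (.e (nat_lit 114716) (nat_lit 22) (.e (nat_lit 90172) (nat_lit 14) (.e (nat_lit 180244) (nat_lit 5) (.e (nat_lit 532504) (nat_lit 1) (.e (nat_lit 57692) (nat_lit 156) (.e (nat_lit 163869) (nat_lit 2) (.e (nat_lit 196626) (nat_lit 9) .nil)))))))) (.g (nat_lit 5) .nil .nil))) 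
(.lf (nat_lit 48114) (.g (nat_lit 4402) (.e (nat_lit 1280) (nat_lit 94) (.e (nat_lit 114716) (nat_lit 22) (.e (nat_lit 90172) (nat_lit 14) (.e (nat_lit 180244) (nat_lit 5) (.e (nat_lit 532499) (nat_lit 1) (.e (nat_lit 57688) (nat_lit 156) (.e (nat_lit 163867) (nat_lit 2) (.e (nat_lit 196617) (nat_lit 9) .nil)))))))) (.g (nat_lit 7) .nil .nil))))) (.nd (nat_lit 4) (.nd (nat_lit 5) 
(.lf (nat_lit 48074) (.g (nat_lit 3033) (.e (nat_lit 1278) (nat_lit 94) (.e (nat_lit 114698) (nat_lit 11) (.e (nat_lit 426200) (nat_lit 9) (.e (nat_lit 426555) (nat_lit 32) .nil)))) .nil)) 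
(.lf (nat_lit 48106) (.g (nat_lit 2330) (.e (nat_lit 1279) (nat_lit 94) (.e (nat_lit 114718) (nat_lit 23) (.e (nat_lit 98367) (nat_lit 27) (.e (nat_lit 434231) (nat_lit 23) (.e (nat_lit 532499) (nat_lit 1) (.e (nat_lit 57692) (nat_lit 156) (.e (nat_lit 163869) (nat_lit 2) (.e (nat_lit 196637) (nat_lit 9) .nil)))))))) (.g (nat_lit 4) .nil .nil)))) (.nd (nat_lit 5) 
(.lf (nat_lit 48090) (.g (nat_lit 4013) (.e (nat_lit 1279) (nat_lit 94) (.e (nat_lit 114714) (nat_lit 22) (.e (nat_lit 90172) (nat_lit 14) (.e (nat_lit 180243) (nat_lit 5) (.e (nat_lit 532503) (nat_lit 1) (.e (nat_lit 57688) (nat_lit 156) (.e (nat_lit 163867) (nat_lit 2) (.e (nat_lit 196617) (nat_lit 9) .nil)))))))) (.g (nat_lit 6) .nil .nil))) 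
(.lf (nat_lit 48122) (.g (nat_lit 2555) (.e (nat_lit 1280) (nat_lit 94) (.e (nat_lit 114719) (nat_lit 23) (.e (nat_lit 98365) (nat_lit 26) (.e (nat_lit 426124) (nat_lit 2) (.e (nat_lit 196624) (nat_lit 9) .nil))))) .nil))))) (.nd (nat_lit 3) (.nd (nat_lit 4) (.nd (nat_lit 5) 
(.lf (nat_lit 48070) (.g (nat_lit 1065) (.e (nat_lit 1277) (nat_lit 94) (.e (nat_lit 114719) (nat_lit 23) (.e (nat_lit 98387) (nat_lit 33) (.e (nat_lit 491570) (nat_lit 13) .nil)))) .nil)) 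
(.lf (nat_lit 48102) (.g (nat_lit 1654) (.e (nat_lit 1279) (nat_lit 94) (.e (nat_lit 114718) (nat_lit 23) (.e (nat_lit 98356) (nat_lit 26) (.e (nat_lit 426432) (nat_lit 17) .nil)))) .nil))) (.nd (nat_lit 5) 
(.lf (nat_lit 48086) (.g (nat_lit 2424) (.e (nat_lit 1278) (nat_lit 94) (.e (nat_lit 114719) (nat_lit 23) (.e (nat_lit 98365) (nat_lit 26) (.e (nat_lit 426133) (nat_lit 3) (.e (nat_lit 204842) (nat_lit 22) .nil))))) .nil)) 
(.lf (nat_lit 48118) (.g (nat_lit 2246) (.e (nat_lit 1280) (nat_lit 94) (.e (nat_lit 114718) (nat_lit 23) (.e (nat_lit 98367) (nat_lit 27) (.e (nat_lit 434231) (nat_lit 23) (.e (nat_lit 532499) (nat_lit 1) (.e (nat_lit 57692) (nat_lit 156) (.e (nat_lit 163869) (nat_lit 2) (.e (nat_lit 196638) (nat_lit 9) .nil)))))))) (.g (nat_lit 4) .nil .nil))))) (.nd (nat_lit 4) (.nd (nat_lit 5) 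
(.lf (nat_lit 48078) (.g (nat_lit 2178) (.e (nat_lit 1278) (nat_lit 94) (.e (nat_lit 114714) (nat_lit 22) (.e (nat_lit 90174) (nat_lit 14) (.e (nat_lit 180243) (nat_lit 5) (.e (nat_lit 532502) (nat_lit 1) .nil))))) .nil)) 
(.lf (nat_lit 48110) (.g (nat_lit 2148) (.e (nat_lit 1279) (nat_lit 94) (.e (nat_lit 114718) (nat_lit 23) (.e (nat_lit 98384) (nat_lit 32) (.e (nat_lit 475169) (nat_lit 22) (.e (nat_lit 507648) (nat_lit 19) .nil))))) .nil))) (.nd (nat_lit 5) 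
(.lf (nat_lit 48094) (.g (nat_lit 2966) (.e (nat_lit 1279) (nat_lit 94) (.e (nat_lit 114714) (nat_lit 22) (.e (nat_lit 90172) (nat_lit 14) (.e (nat_lit 180244) (nat_lit 5) (.e (nat_lit 532499) (nat_lit 1) (.e (nat_lit 57692) (nat_lit 156) (.e (nat_lit 163869) (nat_lit 2) (.e (nat_lit 196634) (nat_lit 9) .nil)))))))) (.g (nat_lit 5) .nil .nil))) 
(.lf (nat_lit 48126) (.g (nat_lit 329) (.e (nat_lit 1281) (nat_lit 94) (.e (nat_lit 114711) (nat_lit 21) (.e (nat_lit 57847) (nat_lit 252) .nil))) .nil))))))) (.nd (nat_lit 1) (.nd (nat_lit 2) (.nd (nat_lit 3) (.nd (nat_lit 4) (.nd (nat_lit 5) 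
(.lf (nat_lit 48065) (.g (nat_lit 2978) (.e (nat_lit 1277) (nat_lit 94) (.e (nat_lit 114719) (nat_lit 23) (.e (nat_lit 98367) (nat_lit 27) (.e (nat_lit 434234) (nat_lit 23) (.e (nat_lit 532503) (nat_lit 1) (.e (nat_lit 57688) (nat_lit 156) (.e (nat_lit 163867) (nat_lit 2) (.e (nat_lit 196624) (nat_lit 9) .nil)))))))) (.g (nat_lit 5) .nil .nil))) 
(.lf (nat_lit 48097) (.g (nat_lit 2135) (.e (nat_lit 1279) (nat_lit 94) (.e (nat_lit 114714) (nat_lit 22) (.e (nat_lit 90172) (nat_lit 14) (.e (nat_lit 180244) (nat_lit 5) (.e (nat_lit 532503) (nat_lit 1) .nil))))) .nil))) (.nd (nat_lit 5) 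
(.lf (nat_lit 48081) (.g (nat_lit 1962) (.e (nat_lit 1278) (nat_lit 94) (.e (nat_lit 114716) (nat_lit 22) (.e (nat_lit 90172) (nat_lit 14) (.e (nat_lit 180244) (nat_lit 5) (.e (nat_lit 532502) (nat_lit 1) .nil))))) .nil)) 
(.lf (nat_lit 48113) (.g (nat_lit 2006) (.e (nat_lit 1280) (nat_lit 94) (.e (nat_lit 114714) (nat_lit 22) (.e (nat_lit 90172) (nat_lit 14) (.e (nat_lit 180244) (nat_lit 5) (.e (nat_lit 532499) (nat_lit 1) (.e (nat_lit 57686) (nat_lit 156) (.e (nat_lit 163867) (nat_lit 2) (.e (nat_lit 196617) (nat_lit 9) .nil)))))))) (.g (nat_lit 4) .nil .nil))))) (.nd (nat_lit 4) (.nd (nat_lit 5) 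
(.lf (nat_lit 48073) (.g (nat_lit 2274) (.e (nat_lit 1277) (nat_lit 94) (.e (nat_lit 114719) (nat_lit 23) (.e (nat_lit 98387) (nat_lit 33) (.e (nat_lit 491571) (nat_lit 13) (.e (nat_lit 393258) (nat_lit 20) (.e (nat_lit 253960) (nat_lit 9) .nil)))))) (.g (nat_lit 4) .nil .nil))) 
(.lf (nat_lit 48105) (.g (nat_lit 2338) (.e (nat_lit 1279) (nat_lit 94) (.e (nat_lit 114718) (nat_lit 23) (.e (nat_lit 98367) (nat_lit 27) (.e (nat_lit 434231) (nat_lit 23) (.e (nat_lit 532499) (nat_lit 1) (.e (nat_lit 57688) (nat_lit 156) (.e (nat_lit 163867) (nat_lit 2) (.e (nat_lit 196639) (nat_lit 9) .nil)))))))) (.g (nat_lit 4) .nil .nil)))) (.nd (nat_lit 5) 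
(.lf (nat_lit 48089) (.g (nat_lit 1955) (.e (nat_lit 1278) (nat_lit 94) (.e (nat_lit 114719) (nat_lit 23) (.e (nat_lit 98367) (nat_lit 27) (.e (nat_lit 434232) (nat_lit 23) (.e (nat_lit 532504) (nat_lit 1) .nil))))) .nil)) 
(.lf (nat_lit 48121) (.g (nat_lit 1718) (.e (nat_lit 1280) (nat_lit 94) (.e (nat_lit 114719) (nat_lit 23) (.e (nat_lit 98365) (nat_lit 26) (.e (nat_lit 426115) (nat_lit 2) .nil)))) .nil))))) (.nd (nat_lit 3) (.nd (nat_lit 4) (.nd (nat_lit 5) 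
(.lf (nat_lit 48069) (.g (nat_lit 744) (.e (nat_lit 1277) (nat_lit 94) (.e (nat_lit 114719) (nat_lit 23) (.e (nat_lit 98387) (nat_lit 33) .nil))) .nil)) 
(.lf (nat_lit 48101) (.g (nat_lit 1229) (.e (nat_lit 1279) (nat_lit 94) (.e (nat_lit 114716) (nat_lit 22) (.e (nat_lit 90172) (nat_lit 14) (.e (nat_lit 180241) (nat_lit 4) .nil)))) .nil))) (.nd (nat_lit 5) 
(.lf (nat_lit 48085) (.g (nat_lit 2793) (.e (nat_lit 1278) (nat_lit 94) (.e (nat_lit 114718) (nat_lit 23) (.e (nat_lit 98367) (nat_lit 27) (.e (nat_lit 434232) (nat_lit 23) (.e (nat_lit 532504) (nat_lit 1) (.e (nat_lit 57692) (nat_lit 156) (.e (nat_lit 163869) (nat_lit 2) (.e (nat_lit 196626) (nat_lit 9) .nil)))))))) (.g (nat_lit 5) .nil .nil))) 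
(.lf (nat_lit 48117) (.g (nat_lit 1301) (.e (nat_lit 1280) (nat_lit 94) (.e (nat_lit 114718) (nat_lit 23) (.e (nat_lit 98365) (nat_lit 26) (.e (nat_lit 426133) (nat_lit 3) .nil)))) .nil)))) (.nd (nat_lit 4) (.nd (nat_lit 5) 
(.lf (nat_lit 48077) (.g (nat_lit 2092) (.e (nat_lit 1278) (nat_lit 94) (.e (nat_lit 114714) (nat_lit 22) (.e (nat_lit 90172) (nat_lit 14) (.e (nat_lit 180244) (nat_lit 5) (.e (nat_lit 532519) (nat_lit 5) .nil))))) .nil)) 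
(.lf (nat_lit 48109) (.g (nat_lit 1859) (.e (nat_lit 1279) (nat_lit 94) (.e (nat_lit 114718) (nat_lit 23) (.e (nat_lit 98367) (nat_lit 27) (.e (nat_lit 434232) (nat_lit 23) .nil)))) .nil))) (.nd (nat_lit 5) 
(.lf (nat_lit 48093) (.g (nat_lit 5021) (.e (nat_lit 1279) (nat_lit 94) (.e (nat_lit 114714) (nat_lit 22) (.e (nat_lit 90172) (nat_lit 14) (.e (nat_lit 180244) (nat_lit 5) (.e (nat_lit 532499) (nat_lit 1) (.e (nat_lit 57688) (nat_lit 156) (.e (nat_lit 163867) (nat_lit 2) (.e (nat_lit 196635) (nat_lit 9) .nil)))))))) (.g (nat_lit 0) .nil .nil))) 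
(.lf (nat_lit 48125) (.g (nat_lit 2228) (.e (nat_lit 1280) (nat_lit 94) (.e (nat_lit 114719) (nat_lit 23) (.e (nat_lit 98367) (nat_lit 27) (.e (nat_lit 434231) (nat_lit 23) (.e (nat_lit 532499) (nat_lit 1) .nil))))) .nil)))))) (.nd (nat_lit 2) (.nd (nat_lit 3) (.nd (nat_lit 4) (.nd (nat_lit 5) 
(.lf (nat_lit 48067) (.g (nat_lit 2587) (.e (nat_lit 1277) (nat_lit 94) (.e (nat_lit 114719) (nat_lit 23) (.e (nat_lit 98384) (nat_lit 32) (.e (nat_lit 475210) (nat_lit 41) (.e (nat_lit 712745) (nat_lit 27) .nil))))) .nil)) 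
(.lf (nat_lit 48099) (.g (nat_lit 1956) (.e (nat_lit 1279) (nat_lit 94) (.e (nat_lit 114714) (nat_lit 22) (.e (nat_lit 90174) (nat_lit 14) (.e (nat_lit 180243) (nat_lit 5) (.e (nat_lit 532501) (nat_lit 1) .nil))))) .nil))) (.nd (nat_lit 5) 
(.lf (nat_lit 48083) (.g (nat_lit 2081) (.e (nat_lit 1278) (nat_lit 94) (.e (nat_lit 114718) (nat_lit 23) (.e (nat_lit 98365) (nat_lit 26) (.e (nat_lit 426133) (nat_lit 3) (.e (nat_lit 204842) (nat_lit 22) .nil))))) .nil)) 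
(.lf (nat_lit 48115) (.g (nat_lit 4468) (.e (nat_lit 1280) (nat_lit 94) (.e (nat_lit 114716) (nat_lit 22) (.e (nat_lit 90174) (nat_lit 14) (.e (nat_lit 180243) (nat_lit 5) (.e (nat_lit 532499) (nat_lit 1) (.e (nat_lit 57688) (nat_lit 156) (.e (nat_lit 163867) (nat_lit 2) (.e (nat_lit 196617) (nat_lit 9) .nil)))))))) (.g (nat_lit 7) .nil .nil))))) (.nd (nat_lit 4) (.nd (nat_lit 5) 
(.lf (nat_lit 48075) (.g (nat_lit 1709) (.e (nat_lit 1278) (nat_lit 94) (.e (nat_lit 114698) (nat_lit 11) (.e (nat_lit 426335) (nat_lit 13) .nil))) .nil)) 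
(.lf (nat_lit 48107) (.g (nat_lit 2364) (.e (nat_lit 1279) (nat_lit 94) (.e (nat_lit 114718) (nat_lit 23) (.e (nat_lit 98367) (nat_lit 27) (.e (nat_lit 434231) (nat_lit 23) (.e (nat_lit 532499) (nat_lit 1) (.e (nat_lit 57692) (nat_lit 156) (.e (nat_lit 163869) (nat_lit 2) (.e (nat_lit 196638) (nat_lit 9) .nil)))))))) (.g (nat_lit 4) .nil .nil)))) (.nd (nat_lit 5) 
(.lf (nat_lit 48091) (.g (nat_lit 1356) (.e (nat_lit 1279) (nat_lit 94) (.e (nat_lit 114714) (nat_lit 22) (.e (nat_lit 90172) (nat_lit 14) (.e (nat_lit 180244) (nat_lit 5) .nil)))) .nil)) 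
(.lf (nat_lit 48123) (.g (nat_lit 2015) (.e (nat_lit 1280) (nat_lit 94) (.e (nat_lit 114719) (nat_lit 23) (.e (nat_lit 98365) (nat_lit 26) (.e (nat_lit 426133) (nat_lit 3) (.e (nat_lit 204829) (nat_lit 18) .nil))))) .nil))))) (.nd (nat_lit 3) (.nd (nat_lit 4) (.nd (nat_lit 5) 
(.lf (nat_lit 48071) (.g (nat_lit 2481) (.e (nat_lit 1277) (nat_lit 94) (.e (nat_lit 114719) (nat_lit 23) (.e (nat_lit 98387) (nat_lit 33) (.e (nat_lit 491571) (nat_lit 13) (.e (nat_lit 393257) (nat_lit 20) .nil))))) .nil)) 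
(.lf (nat_lit 48103) (.g (nat_lit 2583) (.e (nat_lit 1279) (nat_lit 94) (.e (nat_lit 114718) (nat_lit 23) (.e (nat_lit 98365) (nat_lit 26) (.e (nat_lit 426116) (nat_lit 2) (.e (nat_lit 196624) (nat_lit 9) .nil))))) .nil))) (.nd (nat_lit 5) 
(.lf (nat_lit 48087) (.g (nat_lit 1937) (.e (nat_lit 1278) (nat_lit 94) (.e (nat_lit 114719) (nat_lit 23) (.e (nat_lit 98366) (nat_lit 27) (.e (nat_lit 434231) (nat_lit 23) (.e (nat_lit 532499) (nat_lit 1) (.e (nat_lit 57692) (nat_lit 156) (.e (nat_lit 163869) (nat_lit 2) (.e (nat_lit 196626) (nat_lit 9) .nil)))))))) (.g (nat_lit 4) .nil .nil))) 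
(.lf (nat_lit 48119) (.g (nat_lit 2328) (.e (nat_lit 1280) (nat_lit 94) (.e (nat_lit 114718) (nat_lit 23) (.e (nat_lit 98367) (nat_lit 27) (.e (nat_lit 434231) (nat_lit 23) (.e (nat_lit 532499) (nat_lit 1) (.e (nat_lit 57692) (nat_lit 156) (.e (nat_lit 163869) (nat_lit 2) (.e (nat_lit 196643) (nat_lit 9) .nil)))))))) (.g (nat_lit 4) .nil .nil))))) (.nd (nat_lit 4) (.nd (nat_lit 5) 
(.lf (nat_lit 48079) (.g (nat_lit 2071) (.e (nat_lit 1278) (nat_lit 94) (.e (nat_lit 114715) (nat_lit 22) (.e (nat_lit 90170) (nat_lit 13) (.e (nat_lit 172065) (nat_lit 3) (.e (nat_lit 204830) (nat_lit 18) .nil))))) .nil)) 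
(.lf (nat_lit 48111) (.g (nat_lit 1358) (.e (nat_lit 1279) (nat_lit 94) (.e (nat_lit 114719) (nat_lit 23) (.e (nat_lit 98350) (nat_lit 24) (.e (nat_lit 409617) (nat_lit 10) .nil)))) .nil))) (.nd (nat_lit 5) 
(.lf (nat_lit 48095) (.g (nat_lit 1816) (.e (nat_lit 1279) (nat_lit 94) (.e (nat_lit 114714) (nat_lit 22) (.e (nat_lit 90172) (nat_lit 14) (.e (nat_lit 180244) (nat_lit 5) (.e (nat_lit 532501) (nat_lit 1) .nil))))) .nil)) 
(.lf (nat_lit 48127) (.g (nat_lit 1770) (.e (nat_lit 1281) (nat_lit 94) (.e (nat_lit 114711) (nat_lit 21) (.e (nat_lit 57870) (nat_lit 264) (.e (nat_lit 1209) (nat_lit 89) (.e (nat_lit 81664) (nat_lit 35) .nil))))) .nil))))))))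

noncomputable def tv667 : DT := (.nd (nat_lit 0) (.nd (nat_lit 1) (.nd (nat_lit 2) (.nd (nat_lit 3) (.nd (nat_lit 4) (.nd (nat_lit 5) 
(.lf (nat_lit 48128) (.g (nat_lit 914) (.e (nat_lit 1281) (nat_lit 94) (.e (nat_lit 114711) (nat_lit 21) (.e (nat_lit 57870) (nat_lit 264) (.e (nat_lit 1210) (nat_lit 89) .nil)))) .nil)) 
(.lf (nat_lit 48160) (.g (nat_lit 400) (.e (nat_lit 1281) (nat_lit 94) (.e (nat_lit 114719) (nat_lit 23) (.e (nat_lit 106240) (nat_lit 12) .nil))) .nil))) (.nd (nat_lit 5) 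
(.lf (nat_lit 48144) (.g (nat_lit 849) (.e (nat_lit 1281) (nat_lit 94) (.e (nat_lit 114716) (nat_lit 22) (.e (nat_lit 90167) (nat_lit 13) (.e (nat_lit 172064) (nat_lit 2) .nil)))) .nil)) 
(.lf (nat_lit 48176) (.g (nat_lit 2152) (.e (nat_lit 1281) (nat_lit 94) (.e (nat_lit 114719) (nat_lit 23) (.e (nat_lit 98363) (nat_lit 26) (.e (nat_lit 426129) (nat_lit 3) (.e (nat_lit 204829) (nat_lit 18) .nil))))) .nil)))) (.nd (nat_lit 4) (.nd (nat_lit 5) 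
(.lf (nat_lit 48136) (.g (nat_lit 1973) (.e (nat_lit 1281) (nat_lit 94) (.e (nat_lit 114714) (nat_lit 22) (.e (nat_lit 90172) (nat_lit 14) (.e (nat_lit 180244) (nat_lit 5) (.e (nat_lit 532499) (nat_lit 1) (.e (nat_lit 57686) (nat_lit 156) (.e (nat_lit 163867) (nat_lit 2) (.e (nat_lit 196635) (nat_lit 9) .nil)))))))) (.g (nat_lit 4) .nil .nil))) 
(.lf (nat_lit 48168) (.g (nat_lit 1861) (.e (nat_lit 1281) (nat_lit 94) (.e (nat_lit 114719) (nat_lit 23) (.e (nat_lit 98350) (nat_lit 24) (.e (nat_lit 409617) (nat_lit 10) (.e (nat_lit 632) (nat_lit 50) .nil))))) .nil))) (.nd (nat_lit 5) 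
(.lf (nat_lit 48152) (.g (nat_lit 4392) (.e (nat_lit 1281) (nat_lit 94) (.e (nat_lit 114716) (nat_lit 22) (.e (nat_lit 90174) (nat_lit 14) (.e (nat_lit 180243) (nat_lit 5) (.e (nat_lit 532499) (nat_lit 1) (.e (nat_lit 57688) (nat_lit 156) (.e (nat_lit 163867) (nat_lit 2) (.e (nat_lit 196635) (nat_lit 9) .nil)))))))) (.g (nat_lit 7) .nil .nil))) 
(.lf (nat_lit 48184) (.g (nat_lit 2371) (.e (nat_lit 1281) (nat_lit 94) (.e (nat_lit 114719) (nat_lit 23) (.e (nat_lit 98365) (nat_lit 26) (.e (nat_lit 426124) (nat_lit 2) (.e (nat_lit 196619) (nat_lit 9) .nil))))) .nil))))) (.nd (nat_lit 3) (.nd (nat_lit 4) (.nd (nat_lit 5) 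
(.lf (nat_lit 48132) (.g (nat_lit 451) (.e (nat_lit 1281) (nat_lit 94) (.e (nat_lit 114711) (nat_lit 21) (.e (nat_lit 57872) (nat_lit 264) .nil))) .nil)) 
(.lf (nat_lit 48164) (.g (nat_lit 1438) (.e (nat_lit 1281) (nat_lit 94) (.e (nat_lit 114719) (nat_lit 23) (.e (nat_lit 98320) (nat_lit 17) (.e (nat_lit 7593) (nat_lit 407) .nil)))) .nil))) (.nd (nat_lit 5) 
(.lf (nat_lit 48148) (.g (nat_lit 2564) (.e (nat_lit 1281) (nat_lit 94) (.e (nat_lit 114716) (nat_lit 22) (.e (nat_lit 90172) (nat_lit 14) (.e (nat_lit 180241) (nat_lit 4) (.e (nat_lit 524335) (nat_lit 26) (.e (nat_lit 336013) (nat_lit 2) (.e (nat_lit 98048) (nat_lit 0) .nil))))))) (.g (nat_lit 6) .nil .nil))) 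
(.lf (nat_lit 48180) (.g (nat_lit 2968) (.e (nat_lit 1281) (nat_lit 94) (.e (nat_lit 114719) (nat_lit 23) (.e (nat_lit 98365) (nat_lit 26) (.e (nat_lit 426115) (nat_lit 2) (.e (nat_lit 196624) (nat_lit 9) (.e (nat_lit 452) (nat_lit 33) (.e (nat_lit 434238) (nat_lit 25) (.e (nat_lit 548870) (nat_lit 5) .nil)))))))) (.g (nat_lit 5) .nil .nil))))) (.nd (nat_lit 4) (.nd (nat_lit 5) 
(.lf (nat_lit 48140) (.g (nat_lit 1989) (.e (nat_lit 1281) (nat_lit 94) (.e (nat_lit 114715) (nat_lit 22) (.e (nat_lit 90170) (nat_lit 13) (.e (nat_lit 172064) (nat_lit 2) (.e (nat_lit 204544) (nat_lit 2) .nil))))) .nil)) 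
(.lf (nat_lit 48172) (.g (nat_lit 2096) (.e (nat_lit 1281) (nat_lit 94) (.e (nat_lit 114719) (nat_lit 23) (.e (nat_lit 98354) (nat_lit 26) (.e (nat_lit 426140) (nat_lit 3) (.e (nat_lit 212736) (nat_lit 7) .nil))))) .nil))) (.nd (nat_lit 5) 
(.lf (nat_lit 48156) (.g (nat_lit 1650) (.e (nat_lit 1281) (nat_lit 94) (.e (nat_lit 114718) (nat_lit 23) (.e (nat_lit 98356) (nat_lit 26) (.e (nat_lit 426432) (nat_lit 17) .nil)))) .nil)) 
(.lf (nat_lit 48188) (.g (nat_lit 2690) (.e (nat_lit 1281) (nat_lit 94) (.e (nat_lit 114719) (nat_lit 23) (.e (nat_lit 98365) (nat_lit 26) (.e (nat_lit 426133) (nat_lit 3) (.e (nat_lit 212736) (nat_lit 7) .nil))))) .nil)))))) (.nd (nat_lit 2) (.nd (nat_lit 3) (.nd (nat_lit 4) (.nd (nat_lit 5) 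
(.lf (nat_lit 48130) (.g (nat_lit 3621) (.e (nat_lit 1281) (nat_lit 94) (.e (nat_lit 114711) (nat_lit 21) (.e (nat_lit 57870) (nat_lit 264) (.e (nat_lit 1220) (nat_lit 90) (.e (nat_lit 81956) (nat_lit 23) (.e (nat_lit 98346) (nat_lit 22) (.e (nat_lit 253975) (nat_lit 9) .nil))))))) (.g (nat_lit 5) .nil .nil))) 
(.lf (nat_lit 48162) (.g (nat_lit 1923) (.e (nat_lit 1281) (nat_lit 94) (.e (nat_lit 114719) (nat_lit 23) (.e (nat_lit 98320) (nat_lit 17) (.e (nat_lit 7591) (nat_lit 407) (.e (nat_lit 73729) (nat_lit 0) .nil))))) .nil))) (.nd (nat_lit 5) 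
(.lf (nat_lit 48146) (.g (nat_lit 2592) (.e (nat_lit 1281) (nat_lit 94) (.e (nat_lit 114716) (nat_lit 22) (.e (nat_lit 90172) (nat_lit 14) (.e (nat_lit 188160) (nat_lit 3) (.e (nat_lit 516195) (nat_lit 26) (.e (nat_lit 336011) (nat_lit 2) (.e (nat_lit 98048) (nat_lit 0) .nil))))))) (.g (nat_lit 6) .nil .nil))) 
(.lf (nat_lit 48178) (.g (nat_lit 1459) (.e (nat_lit 1281) (nat_lit 94) (.e (nat_lit 114719) (nat_lit 23) (.e (nat_lit 98365) (nat_lit 26) (.e (nat_lit 426014) (nat_lit 0) .nil)))) .nil)))) (.nd (nat_lit 4) (.nd (nat_lit 5) 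
(.lf (nat_lit 48138) (.g (nat_lit 1771) (.e (nat_lit 1281) (nat_lit 94) (.e (nat_lit 114715) (nat_lit 22) (.e (nat_lit 90170) (nat_lit 13) (.e (nat_lit 172049) (nat_lit 0) .nil)))) .nil)) 
(.lf (nat_lit 48170) (.g (nat_lit 2041) (.e (nat_lit 1281) (nat_lit 94) (.e (nat_lit 114719) (nat_lit 23) (.e (nat_lit 98354) (nat_lit 26) (.e (nat_lit 426125) (nat_lit 2) (.e (nat_lit 204544) (nat_lit 2) .nil))))) .nil))) (.nd (nat_lit 5) 
(.lf (nat_lit 48154) (.g (nat_lit 950) (.e (nat_lit 1281) (nat_lit 94) (.e (nat_lit 114716) (nat_lit 22) (.e (nat_lit 90185) (nat_lit 17) (.e (nat_lit 237592) (nat_lit 3) .nil)))) .nil)) 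
(.lf (nat_lit 48186) (.g (nat_lit 1839) (.e (nat_lit 1281) (nat_lit 94) (.e (nat_lit 114719) (nat_lit 23) (.e (nat_lit 98365) (nat_lit 26) (.e (nat_lit 426133) (nat_lit 3) (.e (nat_lit 204805) (nat_lit 0) .nil))))) .nil))))) (.nd (nat_lit 3) (.nd (nat_lit 4) (.nd (nat_lit 5) 
(.lf (nat_lit 48134) (.g (nat_lit 4698) (.e (nat_lit 1281) (nat_lit 94) (.e (nat_lit 114712) (nat_lit 21) (.e (nat_lit 57930) (nat_lit 282) (.e (nat_lit 163923) (nat_lit 15) (.e (nat_lit 450587) (nat_lit 10) (.e (nat_lit 573475) (nat_lit 12) (.e (nat_lit 57516) (nat_lit 42) (.e (nat_lit 671744) (nat_lit 0) .nil)))))))) (.g (nat_lit 0) .nil .nil))) 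
(.lf (nat_lit 48166) (.g (nat_lit 1917) (.e (nat_lit 1281) (nat_lit 94) (.e (nat_lit 114719) (nat_lit 23) (.e (nat_lit 98320) (nat_lit 17) (.e (nat_lit 7593) (nat_lit 407) (.e (nat_lit 73729) (nat_lit 0) (.e (nat_lit 7261) (nat_lit 384) (.e (nat_lit 57382) (nat_lit 4) (.e (nat_lit 106520) (nat_lit 9) .nil)))))))) (.g (nat_lit 4) .nil .nil)))) (.nd (nat_lit 5) 
(.lf (nat_lit 48150) (.g (nat_lit 366) (.e (nat_lit 1281) (nat_lit 94) (.e (nat_lit 114716) (nat_lit 22) (.e (nat_lit 90173) (nat_lit 14) .nil))) .nil)) 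
(.lf (nat_lit 48182) (.g (nat_lit 2721) (.e (nat_lit 1281) (nat_lit 94) (.e (nat_lit 114719) (nat_lit 23) (.e (nat_lit 98365) (nat_lit 26) (.e (nat_lit 426116) (nat_lit 2) (.e (nat_lit 196618) (nat_lit 9) .nil))))) .nil)))) (.nd (nat_lit 4) (.nd (nat_lit 5) 
(.lf (nat_lit 48142) (.g (nat_lit 1747) (.e (nat_lit 1281) (nat_lit 94) (.e (nat_lit 114715) (nat_lit 22) (.e (nat_lit 90170) (nat_lit 13) (.e (nat_lit 172073) (nat_lit 5) .nil)))) .nil)) 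
(.lf (nat_lit 48174) (.g (nat_lit 1597) (.e (nat_lit 1281) (nat_lit 94) (.e (nat_lit 114719) (nat_lit 23) (.e (nat_lit 98356) (nat_lit 26) (.e (nat_lit 426432) (nat_lit 17) .nil)))) .nil))) (.nd (nat_lit 5) 
(.lf (nat_lit 48158) (.g (nat_lit 1906) (.e (nat_lit 1281) (nat_lit 94) (.e (nat_lit 114718) (nat_lit 23) (.e (nat_lit 98367) (nat_lit 27) (.e (nat_lit 434229) (nat_lit 22) .nil)))) .nil)) 
(.lf (nat_lit 48190) (.g (nat_lit 1920) (.e (nat_lit 1281) (nat_lit 94) (.e (nat_lit 114719) (nat_lit 23) (.e (nat_lit 98365) (nat_lit 26) (.e (nat_lit 426133) (nat_lit 3) (.e (nat_lit 204829) (nat_lit 18) .nil))))) .nil))))))) (.nd (nat_lit 1) (.nd (nat_lit 2) (.nd (nat_lit 3) (.nd (nat_lit 4) (.nd (nat_lit 5) 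
(.lf (nat_lit 48129) (.g (nat_lit 1311) (.e (nat_lit 1281) (nat_lit 94) (.e (nat_lit 114711) (nat_lit 21) (.e (nat_lit 57870) (nat_lit 264) (.e (nat_lit 1211) (nat_lit 89) (.e (nat_lit 81664) (nat_lit 35) .nil))))) .nil)) 
(.lf (nat_lit 48161) (.g (nat_lit 1429) (.e (nat_lit 1281) (nat_lit 94) (.e (nat_lit 114719) (nat_lit 23) (.e (nat_lit 98320) (nat_lit 17) (.e (nat_lit 7591) (nat_lit 407) .nil)))) .nil))) (.nd (nat_lit 5) 
(.lf (nat_lit 48145) (.g (nat_lit 2447) (.e (nat_lit 1281) (nat_lit 94) (.e (nat_lit 114716) (nat_lit 22) (.e (nat_lit 90172) (nat_lit 14) (.e (nat_lit 188160) (nat_lit 1) (.e (nat_lit 499900) (nat_lit 7) (.e (nat_lit 24604) (nat_lit 2) (.e (nat_lit 98048) (nat_lit 0) .nil))))))) (.g (nat_lit 6) .nil .nil))) 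
(.lf (nat_lit 48177) (.g (nat_lit 440) (.e (nat_lit 1281) (nat_lit 94) (.e (nat_lit 114719) (nat_lit 23) (.e (nat_lit 98365) (nat_lit 26) .nil))) .nil)))) (.nd (nat_lit 4) (.nd (nat_lit 5) 
(.lf (nat_lit 48137) (.g (nat_lit 1377) (.e (nat_lit 1281) (nat_lit 94) (.e (nat_lit 114715) (nat_lit 22) (.e (nat_lit 90170) (nat_lit 13) (.e (nat_lit 172042) (nat_lit 0) .nil)))) .nil)) 
(.lf (nat_lit 48169) (.g (nat_lit 809) (.e (nat_lit 1281) (nat_lit 94) (.e (nat_lit 114719) (nat_lit 23) (.e (nat_lit 98354) (nat_lit 26) .nil))) .nil))) (.nd (nat_lit 5) 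
(.lf (nat_lit 48153) (.g (nat_lit 309) (.e (nat_lit 1281) (nat_lit 94) (.e (nat_lit 114716) (nat_lit 22) (.e (nat_lit 90181) (nat_lit 16) .nil))) .nil)) 
(.lf (nat_lit 48185) (.g (nat_lit 1428) (.e (nat_lit 1281) (nat_lit 94) (.e (nat_lit 114719) (nat_lit 23) (.e (nat_lit 98365) (nat_lit 26) (.e (nat_lit 426133) (nat_lit 3) .nil)))) .nil))))) (.nd (nat_lit 3) (.nd (nat_lit 4) (.nd (nat_lit 5) 
(.lf (nat_lit 48133) (.g (nat_lit 1842) (.e (nat_lit 1281) (nat_lit 94) (.e (nat_lit 114711) (nat_lit 21) (.e (nat_lit 57872) (nat_lit 264) (.e (nat_lit 1209) (nat_lit 89) (.e (nat_lit 81664) (nat_lit 35) (.e (nat_lit 163962) (nat_lit 25) (.e (nat_lit 532507) (nat_lit 2) (.e (nat_lit 106517) (nat_lit 9) .nil)))))))) (.g (nat_lit 4) .nil .nil))) 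
(.lf (nat_lit 48165) (.g (nat_lit 1922) (.e (nat_lit 1281) (nat_lit 94) (.e (nat_lit 114719) (nat_lit 23) (.e (nat_lit 98320) (nat_lit 17) (.e (nat_lit 7593) (nat_lit 407) (.e (nat_lit 73729) (nat_lit 0) (.e (nat_lit 7261) (nat_lit 384) (.e (nat_lit 57382) (nat_lit 4) (.e (nat_lit 106517) (nat_lit 9) .nil)))))))) (.g (nat_lit 4) .nil .nil)))) (.nd (nat_lit 5) 
(.lf (nat_lit 48149) (.g (nat_lit 1245) (.e (nat_lit 1281) (nat_lit 94) (.e (nat_lit 114716) (nat_lit 22) (.e (nat_lit 90172) (nat_lit 14) (.e (nat_lit 180248) (nat_lit 9) .nil)))) .nil)) 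
(.lf (nat_lit 48181) (.g (nat_lit 1560) (.e (nat_lit 1281) (nat_lit 94) (.e (nat_lit 114719) (nat_lit 23) (.e (nat_lit 98365) (nat_lit 26) (.e (nat_lit 426116) (nat_lit 2) .nil)))) .nil)))) (.nd (nat_lit 4) (.nd (nat_lit 5) 
(.lf (nat_lit 48141) (.g (nat_lit 2015) (.e (nat_lit 1281) (nat_lit 94) (.e (nat_lit 114715) (nat_lit 22) (.e (nat_lit 90170) (nat_lit 13) (.e (nat_lit 172067) (nat_lit 3) (.e (nat_lit 204829) (nat_lit 18) .nil))))) .nil)) 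
(.lf (nat_lit 48173) (.g (nat_lit 2096) (.e (nat_lit 1281) (nat_lit 94) (.e (nat_lit 114719) (nat_lit 23) (.e (nat_lit 98354) (nat_lit 26) (.e (nat_lit 426140) (nat_lit 3) (.e (nat_lit 212736) (nat_lit 10) .nil))))) .nil))) (.nd (nat_lit 5) 
(.lf (nat_lit 48157) (.g (nat_lit 1656) (.e (nat_lit 1281) (nat_lit 94) (.e (nat_lit 114718) (nat_lit 23) (.e (nat_lit 98365) (nat_lit 26) (.e (nat_lit 426133) (nat_lit 3) (.e (nat_lit 204829) (nat_lit 18) .nil))))) .nil)) 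
(.lf (nat_lit 48189) (.g (nat_lit 2690) (.e (nat_lit 1281) (nat_lit 94) (.e (nat_lit 114719) (nat_lit 23) (.e (nat_lit 98365) (nat_lit 26) (.e (nat_lit 426133) (nat_lit 3) (.e (nat_lit 212736) (nat_lit 10) .nil))))) .nil)))))) (.nd (nat_lit 2) (.nd (nat_lit 3) (.nd (nat_lit 4) (.nd (nat_lit 5) 
(.lf (nat_lit 48131) (.g (nat_lit 3774) (.e (nat_lit 1281) (nat_lit 94) (.e (nat_lit 114711) (nat_lit 21) (.e (nat_lit 57870) (nat_lit 264) (.e (nat_lit 1221) (nat_lit 90) (.e (nat_lit 81956) (nat_lit 23) (.e (nat_lit 98346) (nat_lit 22) (.e (nat_lit 253975) (nat_lit 9) .nil))))))) (.g (nat_lit 5) .nil .nil))) 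
(.lf (nat_lit 48163) (.g (nat_lit 1903) (.e (nat_lit 1281) (nat_lit 94) (.e (nat_lit 114719) (nat_lit 23) (.e (nat_lit 98320) (nat_lit 17) (.e (nat_lit 7591) (nat_lit 407) (.e (nat_lit 73731) (nat_lit 0) .nil))))) .nil))) (.nd (nat_lit 5) 
(.lf (nat_lit 48147) (.g (nat_lit 2272) (.e (nat_lit 1281) (nat_lit 94) (.e (nat_lit 114716) (nat_lit 22) (.e (nat_lit 90172) (nat_lit 14) (.e (nat_lit 188160) (nat_lit 3) (.e (nat_lit 516199) (nat_lit 26) (.e (nat_lit 336011) (nat_lit 2) (.e (nat_lit 98048) (nat_lit 0) .nil))))))) (.g (nat_lit 6) .nil .nil))) 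
(.lf (nat_lit 48179) (.g (nat_lit 1503) (.e (nat_lit 1281) (nat_lit 94) (.e (nat_lit 114719) (nat_lit 23) (.e (nat_lit 98365) (nat_lit 26) (.e (nat_lit 426115) (nat_lit 2) .nil)))) .nil)))) (.nd (nat_lit 4) (.nd (nat_lit 5) 
(.lf (nat_lit 48139) (.g (nat_lit 1759) (.e (nat_lit 1281) (nat_lit 94) (.e (nat_lit 114715) (nat_lit 22) (.e (nat_lit 90170) (nat_lit 13) (.e (nat_lit 172062) (nat_lit 2) .nil)))) .nil)) 
(.lf (nat_lit 48171) (.g (nat_lit 2823) (.e (nat_lit 1281) (nat_lit 94) (.e (nat_lit 114719) (nat_lit 23) (.e (nat_lit 98354) (nat_lit 26) (.e (nat_lit 426125) (nat_lit 2) (.e (nat_lit 204544) (nat_lit 2) (.e (nat_lit 24604) (nat_lit 2) (.e (nat_lit 98048) (nat_lit 0) .nil))))))) (.g (nat_lit 6) .nil .nil)))) (.nd (nat_lit 5) 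
(.lf (nat_lit 48155) (.g (nat_lit 969) (.e (nat_lit 1281) (nat_lit 94) (.e (nat_lit 114716) (nat_lit 22) (.e (nat_lit 90185) (nat_lit 17) (.e (nat_lit 237594) (nat_lit 3) .nil)))) .nil)) 
(.lf (nat_lit 48187) (.g (nat_lit 1897) (.e (nat_lit 1281) (nat_lit 94) (.e (nat_lit 114719) (nat_lit 23) (.e (nat_lit 98365) (nat_lit 26) (.e (nat_lit 426133) (nat_lit 3) (.e (nat_lit 204805) (nat_lit 0) (.e (nat_lit 6994) (nat_lit 377) (.e (nat_lit 2567) (nat_lit 160) (.e (nat_lit 32780) (nat_lit 5) .nil)))))))) (.g (nat_lit 4) .nil .nil)))))) (.nd (nat_lit 3) (.nd (nat_lit 4) (.nd (nat_lit 5) 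
(.lf (nat_lit 48135) (.g (nat_lit 1182) (.e (nat_lit 1281) (nat_lit 94) (.e (nat_lit 114714) (nat_lit 22) (.e (nat_lit 90172) (nat_lit 14) (.e (nat_lit 188160) (nat_lit 3) .nil)))) .nil)) 
(.lf (nat_lit 48167) (.g (nat_lit 3072) (.e (nat_lit 1281) (nat_lit 94) (.e (nat_lit 114719) (nat_lit 23) (.e (nat_lit 98350) (nat_lit 24) (.e (nat_lit 409616) (nat_lit 10) (.e (nat_lit 632) (nat_lit 50) .nil))))) .nil))) (.nd (nat_lit 5) 
(.lf (nat_lit 48151) (.g (nat_lit 1426) (.e (nat_lit 1281) (nat_lit 94) (.e (nat_lit 114716) (nat_lit 22) (.e (nat_lit 90174) (nat_lit 14) (.e (nat_lit 180241) (nat_lit 4) (.e (nat_lit 524335) (nat_lit 26) (.e (nat_lit 336013) (nat_lit 2) (.e (nat_lit 98048) (nat_lit 0) .nil))))))) (.g (nat_lit 4) .nil .nil))) 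
(.lf (nat_lit 48183) (.g (nat_lit 1455) (.e (nat_lit 1281) (nat_lit 94) (.e (nat_lit 114719) (nat_lit 23) (.e (nat_lit 98365) (nat_lit 26) (.e (nat_lit 426124) (nat_lit 2) .nil)))) .nil)))) (.nd (nat_lit 4) (.nd (nat_lit 5) 
(.lf (nat_lit 48143) (.g (nat_lit 1639) (.e (nat_lit 1281) (nat_lit 94) (.e (nat_lit 114715) (nat_lit 22) (.e (nat_lit 90170) (nat_lit 13) (.e (nat_lit 179968) (nat_lit 20) .nil)))) .nil)) 
(.lf (nat_lit 48175) (.g (nat_lit 1041) (.e (nat_lit 1281) (nat_lit 94) (.e (nat_lit 114719) (nat_lit 23) (.e (nat_lit 98363) (nat_lit 26) .nil))) .nil))) (.nd (nat_lit 5) 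
(.lf (nat_lit 48159) (.g (nat_lit 2145) (.e (nat_lit 1281) (nat_lit 94) (.e (nat_lit 114718) (nat_lit 23) (.e (nat_lit 98384) (nat_lit 32) (.e (nat_lit 475169) (nat_lit 22) (.e (nat_lit 507648) (nat_lit 19) .nil))))) .nil)) 
(.lf (nat_lit 48191) (.g (nat_lit 3256) (.e (nat_lit 1281) (nat_lit 94) (.e (nat_lit 114719) (nat_lit 23) (.e (nat_lit 98365) (nat_lit 26) (.e (nat_lit 426133) (nat_lit 3) (.e (nat_lit 204829) (nat_lit 18) (.e (nat_lit 57688) (nat_lit 156) (.e (nat_lit 163867) (nat_lit 2) (.e (nat_lit 196636) (nat_lit 9) .nil)))))))) (.g (nat_lit 6) .nil .nil)))))))))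

noncomputable def tv668 : DT := (.nd (nat_lit 0) (.nd (nat_lit 1) (.nd (nat_lit 2) (.nd (nat_lit 3) (.nd (nat_lit 4) (.nd (nat_lit 5) 
(.lf (nat_lit 48192) (.g (nat_lit 1968) (.e (nat_lit 1281) (nat_lit 94) (.e (nat_lit 114719) (nat_lit 23) (.e (nat_lit 98365) (nat_lit 26) (.e (nat_lit 426133) (nat_lit 3) (.e (nat_lit 204829) (nat_lit 18) (.e (nat_lit 57692) (nat_lit 156) (.e (nat_lit 163869) (nat_lit 2) (.e (nat_lit 196617) (nat_lit 9) .nil)))))))) (.g (nat_lit 4) .nil .nil))) 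
(.lf (nat_lit 48224) (.g (nat_lit 2432) (.e (nat_lit 1281) (nat_lit 94) (.e (nat_lit 114719) (nat_lit 23) (.e (nat_lit 98387) (nat_lit 33) (.e (nat_lit 491571) (nat_lit 13) (.e (nat_lit 393258) (nat_lit 20) (.e (nat_lit 253975) (nat_lit 9) .nil)))))) (.g (nat_lit 5) .nil .nil)))) (.nd (nat_lit 5) 
(.lf (nat_lit 48208) (.g (nat_lit 2204) (.e (nat_lit 1281) (nat_lit 94) (.e (nat_lit 114719) (nat_lit 23) (.e (nat_lit 98366) (nat_lit 27) (.e (nat_lit 434272) (nat_lit 38) (.e (nat_lit 655378) (nat_lit 4) (.e (nat_lit 172076) (nat_lit 6) (.e (nat_lit 253975) (nat_lit 9) .nil))))))) (.g (nat_lit 4) .nil .nil))) 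
(.lf (nat_lit 48240) (.g (nat_lit 2107) (.e (nat_lit 1284) (nat_lit 94) (.e (nat_lit 114714) (nat_lit 22) (.e (nat_lit 90172) (nat_lit 14) (.e (nat_lit 180244) (nat_lit 5) (.e (nat_lit 532503) (nat_lit 1) .nil))))) .nil)))) (.nd (nat_lit 4) (.nd (nat_lit 5) 
(.lf (nat_lit 48200) (.g (nat_lit 2278) (.e (nat_lit 1281) (nat_lit 94) (.e (nat_lit 114719) (nat_lit 23) (.e (nat_lit 98365) (nat_lit 26) (.e (nat_lit 426139) (nat_lit 3) (.e (nat_lit 204830) (nat_lit 18) (.e (nat_lit 57692) (nat_lit 156) (.e (nat_lit 163869) (nat_lit 2) (.e (nat_lit 196634) (nat_lit 9) .nil)))))))) (.g (nat_lit 4) .nil .nil))) 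
(.lf (nat_lit 48232) (.g (nat_lit 2216) (.e (nat_lit 1282) (nat_lit 94) (.e (nat_lit 114714) (nat_lit 22) (.e (nat_lit 90174) (nat_lit 14) (.e (nat_lit 180243) (nat_lit 5) (.e (nat_lit 532502) (nat_lit 1) .nil))))) .nil))) (.nd (nat_lit 5) 
(.lf (nat_lit 48216) (.g (nat_lit 2430) (.e (nat_lit 1281) (nat_lit 94) (.e (nat_lit 114719) (nat_lit 23) (.e (nat_lit 98367) (nat_lit 27) (.e (nat_lit 434232) (nat_lit 23) (.e (nat_lit 532504) (nat_lit 1) (.e (nat_lit 57692) (nat_lit 156) (.e (nat_lit 163869) (nat_lit 2) (.e (nat_lit 196638) (nat_lit 9) .nil)))))))) (.g (nat_lit 5) .nil .nil))) 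
(.lf (nat_lit 48248) (.g (nat_lit 3540) (.e (nat_lit 1286) (nat_lit 95) (.e (nat_lit 122936) (nat_lit 23) (.e (nat_lit 516131) (nat_lit 3) (.e (nat_lit 221212) (nat_lit 22) (.e (nat_lit 196670) (nat_lit 14) (.e (nat_lit 73746) (nat_lit 3) (.e (nat_lit 516115) (nat_lit 1) (.e (nat_lit 164153) (nat_lit 152) .nil)))))))) (.g (nat_lit 8) .nil .nil)))))) 
(.nd (nat_lit 3) (.nd (nat_lit 4) (.nd (nat_lit 5) 
(.lf (nat_lit 48196) (.g (nat_lit 1556) (.e (nat_lit 1281) (nat_lit 94) (.e (nat_lit 114719) (nat_lit 23) (.e (nat_lit 98365) (nat_lit 26) (.e (nat_lit 426138) (nat_lit 3) .nil)))) .nil)) 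
(.lf (nat_lit 48228) (.g (nat_lit 3581) (.e (nat_lit 1281) (nat_lit 94) (.e (nat_lit 114723) (nat_lit 24) (.e (nat_lit 106534) (nat_lit 11) (.e (nat_lit 16473) (nat_lit 14) (.e (nat_lit 491560) (nat_lit 10) (.e (nat_lit 344168) (nat_lit 40) (.e (nat_lit 671744) (nat_lit 0) .nil))))))) (.g (nat_lit 0) .nil .nil)))) (.nd (nat_lit 5) 
(.lf (nat_lit 48212) (.g (nat_lit 2866) (.e (nat_lit 1281) (nat_lit 94) (.e (nat_lit 114719) (nat_lit 23) (.e (nat_lit 98367) (nat_lit 27) (.e (nat_lit 434231) (nat_lit 23) (.e (nat_lit 532499) (nat_lit 1) (.e (nat_lit 57692) (nat_lit 156) (.e (nat_lit 163869) (nat_lit 2) (.e (nat_lit 196638) (nat_lit 9) .nil)))))))) (.g (nat_lit 5) .nil .nil))) 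
(.lf (nat_lit 48244) (.g (nat_lit 3827) (.e (nat_lit 1286) (nat_lit 95) (.e (nat_lit 122936) (nat_lit 23) (.e (nat_lit 516131) (nat_lit 3) (.e (nat_lit 221211) (nat_lit 22) (.e (nat_lit 196666) (nat_lit 13) (.e (nat_lit 65569) (nat_lit 3) (.e (nat_lit 98334) (nat_lit 18) (.e (nat_lit 164159) (nat_lit 152) .nil)))))))) (.g (nat_lit 8) .nil .nil))))) (.nd (nat_lit 4) (.nd (nat_lit 5) 
(.lf (nat_lit 48204) (.g (nat_lit 1297) (.e (nat_lit 1281) (nat_lit 94) (.e (nat_lit 114719) (nat_lit 23) (.e (nat_lit 98366) (nat_lit 27) (.e (nat_lit 434231) (nat_lit 23) .nil)))) .nil)) 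
(.lf (nat_lit 48236) (.g (nat_lit 2500) (.e (nat_lit 1284) (nat_lit 94) (.e (nat_lit 114714) (nat_lit 22) (.e (nat_lit 90172) (nat_lit 14) (.e (nat_lit 188160) (nat_lit 1) (.e (nat_lit 499900) (nat_lit 7) (.e (nat_lit 24604) (nat_lit 2) (.e (nat_lit 98048) (nat_lit 0) .nil))))))) (.g (nat_lit 6) .nil .nil)))) (.nd (nat_lit 5) 
(.lf (nat_lit 48220) (.g (nat_lit 767) (.e (nat_lit 1281) (nat_lit 94) (.e (nat_lit 114719) (nat_lit 23) (.e (nat_lit 98387) (nat_lit 33) (.e (nat_lit 491571) (nat_lit 13) .nil)))) .nil)) 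
(.lf (nat_lit 48252) (.g (nat_lit 3912) (.e (nat_lit 1286) (nat_lit 95) (.e (nat_lit 122936) (nat_lit 23) (.e (nat_lit 516131) (nat_lit 3) (.e (nat_lit 221212) (nat_lit 22) (.e (nat_lit 196670) (nat_lit 14) (.e (nat_lit 73746) (nat_lit 3) (.e (nat_lit 516117) (nat_lit 1) (.e (nat_lit 164159) (nat_lit 152) .nil)))))))) (.g (nat_lit 8) .nil .nil))))))) 
(.nd (nat_lit 2) (.nd (nat_lit 3) (.nd (nat_lit 4) (.nd (nat_lit 5) 
(.lf (nat_lit 48194) (.g (nat_lit 2488) (.e (nat_lit 1281) (nat_lit 94) (.e (nat_lit 114719) (nat_lit 23) (.e (nat_lit 98365) (nat_lit 26) (.e (nat_lit 426133) (nat_lit 3) (.e (nat_lit 204842) (nat_lit 22) (.e (nat_lit 147500) (nat_lit 12) (.e (nat_lit 163975) (nat_lit 30) (.e (nat_lit 573459) (nat_lit 9) .nil)))))))) (.g (nat_lit 4) .nil .nil))) 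
(.lf (nat_lit 48226) (.g (nat_lit 4618) (.e (nat_lit 1281) (nat_lit 94) (.e (nat_lit 114722) (nat_lit 24) (.e (nat_lit 106536) (nat_lit 11) (.e (nat_lit 16473) (nat_lit 14) (.e (nat_lit 491560) (nat_lit 10) (.e (nat_lit 344168) (nat_lit 40) (.e (nat_lit 671744) (nat_lit 0) .nil))))))) (.g (nat_lit 7) .nil .nil)))) (.nd (nat_lit 5) 
(.lf (nat_lit 48210) (.g (nat_lit 2192) (.e (nat_lit 1281) (nat_lit 94) (.e (nat_lit 114719) (nat_lit 23) (.e (nat_lit 98367) (nat_lit 27) (.e (nat_lit 434231) (nat_lit 23) (.e (nat_lit 532499) (nat_lit 1) (.e (nat_lit 57688) (nat_lit 156) (.e (nat_lit 163867) (nat_lit 2) (.e (nat_lit 196643) (nat_lit 9) .nil)))))))) (.g (nat_lit 4) .nil .nil))) 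
(.lf (nat_lit 48242) (.g (nat_lit 788) (.e (nat_lit 1284) (nat_lit 94) (.e (nat_lit 114718) (nat_lit 23) (.e (nat_lit 98387) (nat_lit 33) .nil))) .nil)))) (.nd (nat_lit 4) (.nd (nat_lit 5) 
(.lf (nat_lit 48202) (.g (nat_lit 1428) (.e (nat_lit 1281) (nat_lit 94) (.e (nat_lit 114719) (nat_lit 23) (.e (nat_lit 98366) (nat_lit 27) (.e (nat_lit 434229) (nat_lit 22) .nil)))) .nil)) 
(.lf (nat_lit 48234) (.g (nat_lit 2284) (.e (nat_lit 1284) (nat_lit 94) (.e (nat_lit 114714) (nat_lit 22) (.e (nat_lit 90170) (nat_lit 13) (.e (nat_lit 172065) (nat_lit 3) (.e (nat_lit 204830) (nat_lit 18) .nil))))) .nil))) (.nd (nat_lit 5) 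
(.lf (nat_lit 48218) (.g (nat_lit 4152) (.e (nat_lit 1281) (nat_lit 94) (.e (nat_lit 114719) (nat_lit 23) (.e (nat_lit 98367) (nat_lit 27) (.e (nat_lit 434272) (nat_lit 38) (.e (nat_lit 655378) (nat_lit 4) (.e (nat_lit 172076) (nat_lit 6) (.e (nat_lit 253975) (nat_lit 9) .nil))))))) (.g (nat_lit 0) .nil .nil))) 
(.lf (nat_lit 48250) (.g (nat_lit 3716) (.e (nat_lit 1286) (nat_lit 95) (.e (nat_lit 122936) (nat_lit 23) (.e (nat_lit 516131) (nat_lit 3) (.e (nat_lit 221212) (nat_lit 22) (.e (nat_lit 196670) (nat_lit 14) (.e (nat_lit 73746) (nat_lit 3) (.e (nat_lit 516117) (nat_lit 1) (.e (nat_lit 164157) (nat_lit 152) .nil)))))))) (.g (nat_lit 8) .nil .nil)))))) 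
(.nd (nat_lit 3) (.nd (nat_lit 4) (.nd (nat_lit 5) 
(.lf (nat_lit 48198) (.g (nat_lit 2269) (.e (nat_lit 1281) (nat_lit 94) (.e (nat_lit 114719) (nat_lit 23) (.e (nat_lit 98365) (nat_lit 26) (.e (nat_lit 426139) (nat_lit 3) (.e (nat_lit 204829) (nat_lit 18) .nil))))) .nil)) 
(.lf (nat_lit 48230) (.g (nat_lit 5447) (.e (nat_lit 1281) (nat_lit 94) (.e (nat_lit 114723) (nat_lit 24) (.e (nat_lit 106536) (nat_lit 11) (.e (nat_lit 16473) (nat_lit 14) (.e (nat_lit 491559) (nat_lit 10) (.e (nat_lit 344169) (nat_lit 40) (.e (nat_lit 671744) (nat_lit 0) .nil))))))) (.g (nat_lit 7) .nil .nil)))) (.nd (nat_lit 5) 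
(.lf (nat_lit 48214) (.g (nat_lit 1510) (.e (nat_lit 1281) (nat_lit 94) (.e (nat_lit 114719) (nat_lit 23) (.e (nat_lit 98367) (nat_lit 27) (.e (nat_lit 434232) (nat_lit 23) .nil)))) .nil)) 
(.lf (nat_lit 48246) (.g (nat_lit 3456) (.e (nat_lit 1286) (nat_lit 95) (.e (nat_lit 122936) (nat_lit 23) (.e (nat_lit 516131) (nat_lit 3) (.e (nat_lit 221212) (nat_lit 22) (.e (nat_lit 196668) (nat_lit 14) (.e (nat_lit 73747) (nat_lit 3) (.e (nat_lit 516115) (nat_lit 1) (.e (nat_lit 164153) (nat_lit 152) .nil)))))))) (.g (nat_lit 8) .nil .nil))))) (.nd (nat_lit 4) (.nd (nat_lit 5) 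
(.lf (nat_lit 48206) (.g (nat_lit 2707) (.e (nat_lit 1281) (nat_lit 94) (.e (nat_lit 114719) (nat_lit 23) (.e (nat_lit 98366) (nat_lit 27) (.e (nat_lit 434231) (nat_lit 23) (.e (nat_lit 532499) (nat_lit 1) (.e (nat_lit 57692) (nat_lit 156) (.e (nat_lit 163869) (nat_lit 2) (.e (nat_lit 196634) (nat_lit 9) .nil)))))))) (.g (nat_lit 5) .nil .nil))) 
(.lf (nat_lit 48238) (.g (nat_lit 3855) (.e (nat_lit 1284) (nat_lit 94) (.e (nat_lit 114714) (nat_lit 22) (.e (nat_lit 90172) (nat_lit 14) (.e (nat_lit 180243) (nat_lit 5) (.e (nat_lit 532504) (nat_lit 1) (.e (nat_lit 57692) (nat_lit 156) (.e (nat_lit 163869) (nat_lit 2) (.e (nat_lit 196626) (nat_lit 9) .nil)))))))) (.g (nat_lit 6) .nil .nil)))) (.nd (nat_lit 5) 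
(.lf (nat_lit 48222) (.g (nat_lit 2268) (.e (nat_lit 1281) (nat_lit 94) (.e (nat_lit 114719) (nat_lit 23) (.e (nat_lit 98387) (nat_lit 33) (.e (nat_lit 491571) (nat_lit 13) (.e (nat_lit 393257) (nat_lit 20) .nil))))) .nil)) 
(.lf (nat_lit 48254) (.g (nat_lit 3561) (.e (nat_lit 1286) (nat_lit 95) (.e (nat_lit 122936) (nat_lit 23) (.e (nat_lit 516131) (nat_lit 3) (.e (nat_lit 221212) (nat_lit 22) (.e (nat_lit 196670) (nat_lit 14) (.e (nat_lit 73746) (nat_lit 3) (.e (nat_lit 516120) (nat_lit 1) (.e (nat_lit 164158) (nat_lit 152) .nil)))))))) (.g (nat_lit 8) .nil .nil)))))))) 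
(.nd (nat_lit 1) (.nd (nat_lit 2) (.nd (nat_lit 3) (.nd (nat_lit 4) (.nd (nat_lit 5) 
(.lf (nat_lit 48193) (.g (nat_lit 2329) (.e (nat_lit 1281) (nat_lit 94) (.e (nat_lit 114719) (nat_lit 23) (.e (nat_lit 98365) (nat_lit 26) (.e (nat_lit 426133) (nat_lit 3) (.e (nat_lit 204842) (nat_lit 22) .nil))))) .nil)) 
(.lf (nat_lit 48225) (.g (nat_lit 5767) (.e (nat_lit 1281) (nat_lit 94) (.e (nat_lit 114722) (nat_lit 24) (.e (nat_lit 106536) (nat_lit 11) (.e (nat_lit 16473) (nat_lit 14) (.e (nat_lit 491559) (nat_lit 10) (.e (nat_lit 344169) (nat_lit 40) (.e (nat_lit 671744) (nat_lit 0) .nil))))))) (.g (nat_lit 0) .nil .nil)))) (.nd (nat_lit 5) 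
(.lf (nat_lit 48209) (.g (nat_lit 2046) (.e (nat_lit 1281) (nat_lit 94) (.e (nat_lit 114719) (nat_lit 23) (.e (nat_lit 98367) (nat_lit 27) (.e (nat_lit 434231) (nat_lit 23) (.e (nat_lit 532499) (nat_lit 1) .nil))))) .nil)) 
(.lf (nat_lit 48241) (.g (nat_lit 2091) (.e (nat_lit 1284) (nat_lit 94) (.e (nat_lit 114714) (nat_lit 22) (.e (nat_lit 90174) (nat_lit 14) (.e (nat_lit 180243) (nat_lit 5) (.e (nat_lit 532503) (nat_lit 1) .nil))))) .nil)))) (.nd (nat_lit 4) (.nd (nat_lit 5) 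
(.lf (nat_lit 48201) (.g (nat_lit 705) (.e (nat_lit 1281) (nat_lit 94) (.e (nat_lit 114719) (nat_lit 23) (.e (nat_lit 98366) (nat_lit 27) .nil))) .nil)) 
(.lf (nat_lit 48233) (.g (nat_lit 3039) (.e (nat_lit 1282) (nat_lit 94) (.e (nat_lit 114718) (nat_lit 23) (.e (nat_lit 98367) (nat_lit 27) (.e (nat_lit 434231) (nat_lit 23) (.e (nat_lit 532499) (nat_lit 1) (.e (nat_lit 57692) (nat_lit 156) (.e (nat_lit 163869) (nat_lit 2) (.e (nat_lit 196626) (nat_lit 9) .nil)))))))) (.g (nat_lit 5) .nil .nil)))) (.nd (nat_lit 5) 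
(.lf (nat_lit 48217) (.g (nat_lit 1511) (.e (nat_lit 1281) (nat_lit 94) (.e (nat_lit 114719) (nat_lit 23) (.e (nat_lit 98367) (nat_lit 27) (.e (nat_lit 434241) (nat_lit 27) .nil)))) .nil)) 
(.lf (nat_lit 48249) (.g (nat_lit 3314) (.e (nat_lit 1286) (nat_lit 95) (.e (nat_lit 122936) (nat_lit 23) (.e (nat_lit 516131) (nat_lit 3) (.e (nat_lit 221212) (nat_lit 22) (.e (nat_lit 196670) (nat_lit 14) (.e (nat_lit 73746) (nat_lit 3) (.e (nat_lit 516117) (nat_lit 1) (.e (nat_lit 164147) (nat_lit 152) .nil)))))))) (.g (nat_lit 7) .nil .nil)))))) 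
(.nd (nat_lit 3) (.nd (nat_lit 4) (.nd (nat_lit 5) 
(.lf (nat_lit 48197) (.g (nat_lit 1788) (.e (nat_lit 1281) (nat_lit 94) (.e (nat_lit 114719) (nat_lit 23) (.e (nat_lit 98365) (nat_lit 26) (.e (nat_lit 426138) (nat_lit 3) (.e (nat_lit 204831) (nat_lit 18) .nil))))) .nil)) 
(.lf (nat_lit 48229) (.g (nat_lit 3971) (.e (nat_lit 1281) (nat_lit 94) (.e (nat_lit 114723) (nat_lit 24) (.e (nat_lit 106535) (nat_lit 11) (.e (nat_lit 16473) (nat_lit 14) (.e (nat_lit 491560) (nat_lit 10) (.e (nat_lit 344168) (nat_lit 40) (.e (nat_lit 671744) (nat_lit 0) .nil))))))) (.g (nat_lit 7) .nil .nil)))) (.nd (nat_lit 5) 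
(.lf (nat_lit 48213) (.g (nat_lit 2148) (.e (nat_lit 1281) (nat_lit 94) (.e (nat_lit 114719) (nat_lit 23) (.e (nat_lit 98367) (nat_lit 27) (.e (nat_lit 434231) (nat_lit 23) (.e (nat_lit 532499) (nat_lit 1) (.e (nat_lit 57692) (nat_lit 156) (.e (nat_lit 163870) (nat_lit 2) (.e (nat_lit 196637) (nat_lit 9) .nil)))))))) (.g (nat_lit 4) .nil .nil))) 
(.lf (nat_lit 48245) (.g (nat_lit 3200) (.e (nat_lit 1286) (nat_lit 95) (.e (nat_lit 122936) (nat_lit 23) (.e (nat_lit 516131) (nat_lit 3) (.e (nat_lit 221211) (nat_lit 22) (.e (nat_lit 196666) (nat_lit 13) (.e (nat_lit 65571) (nat_lit 3) (.e (nat_lit 98334) (nat_lit 18) (.e (nat_lit 164159) (nat_lit 152) .nil)))))))) (.g (nat_lit 7) .nil .nil))))) (.nd (nat_lit 4) (.nd (nat_lit 5) 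
(.lf (nat_lit 48205) (.g (nat_lit 1826) (.e (nat_lit 1281) (nat_lit 94) (.e (nat_lit 114719) (nat_lit 23) (.e (nat_lit 98366) (nat_lit 27) (.e (nat_lit 434231) (nat_lit 23) (.e (nat_lit 532499) (nat_lit 1) .nil))))) .nil)) 
(.lf (nat_lit 48237) (.g (nat_lit 1224) (.e (nat_lit 1284) (nat_lit 94) (.e (nat_lit 114714) (nat_lit 22) (.e (nat_lit 90172) (nat_lit 14) (.e (nat_lit 188160) (nat_lit 3) .nil)))) .nil))) (.nd (nat_lit 5) 
(.lf (nat_lit 48221) (.g (nat_lit 1493) (.e (nat_lit 1281) (nat_lit 94) (.e (nat_lit 114719) (nat_lit 23) (.e (nat_lit 98387) (nat_lit 33) (.e (nat_lit 491571) (nat_lit 13) (.e (nat_lit 393232) (nat_lit 17) .nil))))) .nil)) 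
(.lf (nat_lit 48253) (.g (nat_lit 3649) (.e (nat_lit 1286) (nat_lit 95) (.e (nat_lit 122936) (nat_lit 23) (.e (nat_lit 516131) (nat_lit 3) (.e (nat_lit 221212) (nat_lit 22) (.e (nat_lit 196670) (nat_lit 14) (.e (nat_lit 73746) (nat_lit 3) (.e (nat_lit 516117) (nat_lit 1) (.e (nat_lit 164166) (nat_lit 152) .nil)))))))) (.g (nat_lit 8) .nil .nil))))))) 
(.nd (nat_lit 2) (.nd (nat_lit 3) (.nd (nat_lit 4) (.nd (nat_lit 5) 
(.lf (nat_lit 48195) (.g (nat_lit 1556) (.e (nat_lit 1281) (nat_lit 94) (.e (nat_lit 114719) (nat_lit 23) (.e (nat_lit 98365) (nat_lit 26) (.e (nat_lit 426137) (nat_lit 3) .nil)))) .nil)) 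
(.lf (nat_lit 48227) (.g (nat_lit 4636) (.e (nat_lit 1281) (nat_lit 94) (.e (nat_lit 114723) (nat_lit 24) (.e (nat_lit 106534) (nat_lit 11) (.e (nat_lit 16473) (nat_lit 14) (.e (nat_lit 491559) (nat_lit 10) (.e (nat_lit 344169) (nat_lit 40) (.e (nat_lit 671744) (nat_lit 0) .nil))))))) (.g (nat_lit 0) .nil .nil)))) (.nd (nat_lit 5) 
(.lf (nat_lit 48211) (.g (nat_lit 2284) (.e (nat_lit 1281) (nat_lit 94) (.e (nat_lit 114719) (nat_lit 23) (.e (nat_lit 98367) (nat_lit 27) (.e (nat_lit 434231) (nat_lit 23) (.e (nat_lit 532499) (nat_lit 1) (.e (nat_lit 57692) (nat_lit 156) (.e (nat_lit 163869) (nat_lit 2) (.e (nat_lit 196637) (nat_lit 9) .nil)))))))) (.g (nat_lit 4) .nil .nil))) 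
(.lf (nat_lit 48243) (.g (nat_lit 1983) (.e (nat_lit 7936) (nat_lit 94) (.e (nat_lit 114714) (nat_lit 22) (.e (nat_lit 90172) (nat_lit 14) (.e (nat_lit 180244) (nat_lit 5) (.e (nat_lit 532503) (nat_lit 1) .nil))))) .nil)))) (.nd (nat_lit 4) (.nd (nat_lit 5) 
(.lf (nat_lit 48203) (.g (nat_lit 3195) (.e (nat_lit 1281) (nat_lit 94) (.e (nat_lit 114719) (nat_lit 23) (.e (nat_lit 98366) (nat_lit 27) (.e (nat_lit 434229) (nat_lit 22) (.e (nat_lit 524335) (nat_lit 26) (.e (nat_lit 336013) (nat_lit 2) (.e (nat_lit 98048) (nat_lit 0) .nil))))))) (.g (nat_lit 6) .nil .nil))) 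
(.lf (nat_lit 48235) (.g (nat_lit 2515) (.e (nat_lit 1284) (nat_lit 94) (.e (nat_lit 114714) (nat_lit 22) (.e (nat_lit 90170) (nat_lit 13) (.e (nat_lit 172067) (nat_lit 3) (.e (nat_lit 204829) (nat_lit 18) .nil))))) .nil))) (.nd (nat_lit 5) 
(.lf (nat_lit 48219) (.g (nat_lit 867) (.e (nat_lit 1281) (nat_lit 94) (.e (nat_lit 114719) (nat_lit 23) (.e (nat_lit 98387) (nat_lit 33) (.e (nat_lit 491570) (nat_lit 13) .nil)))) .nil)) 
(.lf (nat_lit 48251) (.g (nat_lit 3581) (.e (nat_lit 1286) (nat_lit 95) (.e (nat_lit 122936) (nat_lit 23) (.e (nat_lit 516131) (nat_lit 3) (.e (nat_lit 221212) (nat_lit 22) (.e (nat_lit 196670) (nat_lit 14) (.e (nat_lit 73746) (nat_lit 3) (.e (nat_lit 516117) (nat_lit 1) (.e (nat_lit 164158) (nat_lit 152) .nil)))))))) (.g (nat_lit 8) .nil .nil)))))) 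
(.nd (nat_lit 3) (.nd (nat_lit 4) (.nd (nat_lit 5) 
(.lf (nat_lit 48199) (.g (nat_lit 2248) (.e (nat_lit 1281) (nat_lit 94) (.e (nat_lit 114719) (nat_lit 23) (.e (nat_lit 98365) (nat_lit 26) (.e (nat_lit 426139) (nat_lit 3) (.e (nat_lit 204830) (nat_lit 18) .nil))))) .nil)) 
(.lf (nat_lit 48231) (.g (nat_lit 2188) (.e (nat_lit 1282) (nat_lit 94) (.e (nat_lit 114714) (nat_lit 22) (.e (nat_lit 90172) (nat_lit 14) (.e (nat_lit 180244) (nat_lit 5) (.e (nat_lit 532502) (nat_lit 1) .nil))))) .nil))) (.nd (nat_lit 5) 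
(.lf (nat_lit 48215) (.g (nat_lit 1774) (.e (nat_lit 1281) (nat_lit 94) (.e (nat_lit 114719) (nat_lit 23) (.e (nat_lit 98367) (nat_lit 27) (.e (nat_lit 434232) (nat_lit 23) (.e (nat_lit 532504) (nat_lit 1) .nil))))) .nil)) 
(.lf (nat_lit 48247) (.g (nat_lit 3328) (.e (nat_lit 1286) (nat_lit 95) (.e (nat_lit 122936) (nat_lit 23) (.e (nat_lit 516131) (nat_lit 3) (.e (nat_lit 221212) (nat_lit 22) (.e (nat_lit 196668) (nat_lit 14) (.e (nat_lit 73747) (nat_lit 3) (.e (nat_lit 516117) (nat_lit 1) (.e (nat_lit 164161) (nat_lit 152) .nil)))))))) (.g (nat_lit 7) .nil .nil))))) (.nd (nat_lit 4) (.nd (nat_lit 5) 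
(.lf (nat_lit 48207) (.g (nat_lit 1430) (.e (nat_lit 1281) (nat_lit 94) (.e (nat_lit 114719) (nat_lit 23) (.e (nat_lit 98366) (nat_lit 27) (.e (nat_lit 434232) (nat_lit 23) .nil)))) .nil)) 
(.lf (nat_lit 48239) (.g (nat_lit 3890) (.e (nat_lit 1284) (nat_lit 94) (.e (nat_lit 114714) (nat_lit 22) (.e (nat_lit 90172) (nat_lit 14) (.e (nat_lit 180244) (nat_lit 5) (.e (nat_lit 532499) (nat_lit 1) (.e (nat_lit 57688) (nat_lit 156) (.e (nat_lit 163867) (nat_lit 2) (.e (nat_lit 196617) (nat_lit 9) .nil)))))))) (.g (nat_lit 6) .nil .nil)))) (.nd (nat_lit 5) 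
(.lf (nat_lit 48223) (.g (nat_lit 2343) (.e (nat_lit 1281) (nat_lit 94) (.e (nat_lit 114719) (nat_lit 23) (.e (nat_lit 98387) (nat_lit 33) (.e (nat_lit 491571) (nat_lit 13) (.e (nat_lit 393258) (nat_lit 20) (.e (nat_lit 253959) (nat_lit 9) .nil)))))) (.g (nat_lit 5) .nil .nil))) 
(.lf (nat_lit 48255) (.g (nat_lit 3965) (.e (nat_lit 1286) (nat_lit 95) (.e (nat_lit 122936) (nat_lit 23) (.e (nat_lit 516131) (nat_lit 3) (.e (nat_lit 221212) (nat_lit 22) (.e (nat_lit 196670) (nat_lit 14) (.e (nat_lit 73746) (nat_lit 3) (.e (nat_lit 516120) (nat_lit 1) (.e (nat_lit 164159) (nat_lit 152) .nil)))))))) (.g (nat_lit 8) .nil .nil)))))))))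

noncomputable def tv669 : DT := (.nd (nat_lit 0) (.nd (nat_lit 1) (.nd (nat_lit 2) (.nd (nat_lit 3) (.nd (nat_lit 4) (.nd (nat_lit 5) 
(.lf (nat_lit 48256) (.g (nat_lit 4182) (.e (nat_lit 1286) (nat_lit 95) (.e (nat_lit 122936) (nat_lit 23) (.e (nat_lit 516131) (nat_lit 3) (.e (nat_lit 221212) (nat_lit 22) (.e (nat_lit 196670) (nat_lit 14) (.e (nat_lit 73746) (nat_lit 3) (.e (nat_lit 516120) (nat_lit 1) (.e (nat_lit 164160) (nat_lit 152) .nil)))))))) (.g (nat_lit 7) .nil .nil))) 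
(.lf (nat_lit 48288) (.g (nat_lit 2895) (.e (nat_lit 1293) (nat_lit 96) (.e (nat_lit 131127) (nat_lit 13) (.e (nat_lit 393238) (nat_lit 17) (.e (nat_lit 6989) (nat_lit 377) (.e (nat_lit 2777) (nat_lit 178) (.e (nat_lit 286731) (nat_lit 1) (.e (nat_lit 57655) (nat_lit 152) .nil))))))) (.g (nat_lit 7) .nil .nil)))) (.nd (nat_lit 5) 
(.lf (nat_lit 48272) (.g (nat_lit 4080) (.e (nat_lit 1288) (nat_lit 95) (.e (nat_lit 123182) (nat_lit 264) (.e (nat_lit 1183) (nat_lit 87) (.e (nat_lit 57478) (nat_lit 28) (.e (nat_lit 557108) (nat_lit 15) (.e (nat_lit 188452) (nat_lit 23) (.e (nat_lit 204816) (nat_lit 17) (.e (nat_lit 6434) (nat_lit 343) .nil)))))))) (.g (nat_lit 6) .nil .nil))) 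
(.lf (nat_lit 48304) (.g (nat_lit 3325) (.e (nat_lit 1294) (nat_lit 96) (.e (nat_lit 131098) (nat_lit 3) (.e (nat_lit 98373) (nat_lit 29) (.e (nat_lit 450587) (nat_lit 10) (.e (nat_lit 573475) (nat_lit 12) (.e (nat_lit 57346) (nat_lit 0) (.e (nat_lit 7233) (nat_lit 382) .nil))))))) (.g (nat_lit 5) .nil .nil))))) (.nd (nat_lit 4) (.nd (nat_lit 5) 
(.lf (nat_lit 48264) (.g (nat_lit 2416) (.e (nat_lit 1286) (nat_lit 95) (.e (nat_lit 123182) (nat_lit 264) (.e (nat_lit 1201) (nat_lit 88) (.e (nat_lit 65628) (nat_lit 14) (.e (nat_lit 401459) (nat_lit 13) .nil))))) .nil)) 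
(.lf (nat_lit 48296) (.g (nat_lit 884) (.e (nat_lit 1294) (nat_lit 96) (.e (nat_lit 131091) (nat_lit 2) (.e (nat_lit 90176) (nat_lit 15) (.e (nat_lit 188450) (nat_lit 23) .nil)))) .nil))) (.nd (nat_lit 5) 
(.lf (nat_lit 48280) (.g (nat_lit 2662) (.e (nat_lit 1288) (nat_lit 95) (.e (nat_lit 123195) (nat_lit 266) (.e (nat_lit 57427) (nat_lit 15) (.e (nat_lit 360474) (nat_lit 8) .nil)))) .nil)) 
(.lf (nat_lit 48312) (.g (nat_lit 1709) (.e (nat_lit 1294) (nat_lit 96) (.e (nat_lit 131127) (nat_lit 13) (.e (nat_lit 393260) (nat_lit 21) (.e (nat_lit 409648) (nat_lit 18) (.e (nat_lit 303114) (nat_lit 1) .nil))))) .nil))))) (.nd (nat_lit 3) (.nd (nat_lit 4) (.nd (nat_lit 5) 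
(.lf (nat_lit 48260) (.g (nat_lit 162) (.e (nat_lit 1286) (nat_lit 95) (.e (nat_lit 122936) (nat_lit 23) (.e (nat_lit 516179) (nat_lit 15) .nil))) .nil)) 
(.lf (nat_lit 48292) (.g (nat_lit 1486) (.e (nat_lit 1293) (nat_lit 96) (.e (nat_lit 131127) (nat_lit 13) (.e (nat_lit 393260) (nat_lit 21) (.e (nat_lit 409644) (nat_lit 18) (.e (nat_lit 303115) (nat_lit 1) .nil))))) .nil))) (.nd (nat_lit 5) 
(.lf (nat_lit 48276) (.g (nat_lit 2442) (.e (nat_lit 1288) (nat_lit 95) (.e (nat_lit 123182) (nat_lit 264) (.e (nat_lit 1201) (nat_lit 88) (.e (nat_lit 65628) (nat_lit 14) (.e (nat_lit 401459) (nat_lit 13) .nil))))) .nil)) 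
(.lf (nat_lit 48308) (.g (nat_lit 1512) (.e (nat_lit 1294) (nat_lit 96) (.e (nat_lit 131127) (nat_lit 13) (.e (nat_lit 393260) (nat_lit 21) (.e (nat_lit 409644) (nat_lit 18) (.e (nat_lit 303115) (nat_lit 1) .nil))))) .nil)))) (.nd (nat_lit 4) (.nd (nat_lit 5) 
(.lf (nat_lit 48268) (.g (nat_lit 3762) (.e (nat_lit 1287) (nat_lit 95) (.e (nat_lit 122936) (nat_lit 23) (.e (nat_lit 516131) (nat_lit 3) (.e (nat_lit 221212) (nat_lit 22) (.e (nat_lit 196670) (nat_lit 14) (.e (nat_lit 73746) (nat_lit 3) (.e (nat_lit 516117) (nat_lit 1) (.e (nat_lit 164159) (nat_lit 152) .nil)))))))) (.g (nat_lit 8) .nil .nil))) 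
(.lf (nat_lit 48300) (.g (nat_lit 1451) (.e (nat_lit 1294) (nat_lit 96) (.e (nat_lit 131091) (nat_lit 2) (.e (nat_lit 90185) (nat_lit 17) (.e (nat_lit 237605) (nat_lit 9) (.e (nat_lit 426131) (nat_lit 3) (.e (nat_lit 204829) (nat_lit 18) (.e (nat_lit 65280) (nat_lit 221) .nil))))))) (.g (nat_lit 4) .nil .nil)))) (.nd (nat_lit 5) 
(.lf (nat_lit 48284) (.g (nat_lit 3369) (.e (nat_lit 1290) (nat_lit 95) (.e (nat_lit 122936) (nat_lit 23) (.e (nat_lit 516131) (nat_lit 3) (.e (nat_lit 221212) (nat_lit 22) (.e (nat_lit 196668) (nat_lit 14) (.e (nat_lit 73747) (nat_lit 3) (.e (nat_lit 516115) (nat_lit 1) (.e (nat_lit 164153) (nat_lit 152) .nil)))))))) (.g (nat_lit 0) .nil .nil))) 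
(.lf (nat_lit 48316) (.g (nat_lit 928) (.e (nat_lit 1294) (nat_lit 96) (.e (nat_lit 131128) (nat_lit 13) (.e (nat_lit 393301) (nat_lit 27) (.e (nat_lit 491560) (nat_lit 10) .nil)))) .nil)))))) (.nd (nat_lit 2) (.nd (nat_lit 3) (.nd (nat_lit 4) (.nd (nat_lit 5) 
(.lf (nat_lit 48258) (.g (nat_lit 3991) (.e (nat_lit 1286) (nat_lit 95) (.e (nat_lit 122936) (nat_lit 23) (.e (nat_lit 516146) (nat_lit 9) (.e (nat_lit 426428) (nat_lit 17) (.e (nat_lit 90170) (nat_lit 13) (.e (nat_lit 172065) (nat_lit 3) (.e (nat_lit 204830) (nat_lit 18) (.e (nat_lit 57754) (nat_lit 209) .nil)))))))) (.g (nat_lit 8) .nil .nil))) 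
(.lf (nat_lit 48290) (.g (nat_lit 1358) (.e (nat_lit 1293) (nat_lit 96) (.e (nat_lit 131127) (nat_lit 13) (.e (nat_lit 393260) (nat_lit 21) (.e (nat_lit 409643) (nat_lit 18) (.e (nat_lit 303115) (nat_lit 1) (.e (nat_lit 164150) (nat_lit 152) .nil)))))) (.g (nat_lit 4) .nil .nil)))) (.nd (nat_lit 5) 
(.lf (nat_lit 48274) (.g (nat_lit 3697) (.e (nat_lit 1288) (nat_lit 95) (.e (nat_lit 123182) (nat_lit 264) (.e (nat_lit 1183) (nat_lit 87) (.e (nat_lit 57480) (nat_lit 28) (.e (nat_lit 557108) (nat_lit 15) (.e (nat_lit 188452) (nat_lit 23) (.e (nat_lit 204816) (nat_lit 17) (.e (nat_lit 6436) (nat_lit 343) .nil)))))))) (.g (nat_lit 5) .nil .nil))) 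
(.lf (nat_lit 48306) (.g (nat_lit 1626) (.e (nat_lit 1294) (nat_lit 96) (.e (nat_lit 131109) (nat_lit 9) (.e (nat_lit 336443) (nat_lit 32) (.e (nat_lit 466972) (nat_lit 21) (.e (nat_lit 164332) (nat_lit 230) .nil))))) .nil)))) (.nd (nat_lit 4) (.nd (nat_lit 5) 
(.lf (nat_lit 48266) (.g (nat_lit 2647) (.e (nat_lit 1286) (nat_lit 95) (.e (nat_lit 123195) (nat_lit 266) (.e (nat_lit 57427) (nat_lit 15) (.e (nat_lit 360474) (nat_lit 8) .nil)))) .nil)) 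
(.lf (nat_lit 48298) (.g (nat_lit 1798) (.e (nat_lit 1294) (nat_lit 96) (.e (nat_lit 131091) (nat_lit 2) (.e (nat_lit 90176) (nat_lit 15) (.e (nat_lit 188450) (nat_lit 23) (.e (nat_lit 204830) (nat_lit 18) .nil))))) .nil))) (.nd (nat_lit 5) 
(.lf (nat_lit 48282) (.g (nat_lit 3098) (.e (nat_lit 1288) (nat_lit 95) (.e (nat_lit 123197) (nat_lit 266) (.e (nat_lit 57427) (nat_lit 15) (.e (nat_lit 360474) (nat_lit 8) (.e (nat_lit 557060) (nat_lit 0) .nil))))) .nil)) 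
(.lf (nat_lit 48314) (.g (nat_lit 1030) (.e (nat_lit 1294) (nat_lit 96) (.e (nat_lit 131128) (nat_lit 13) (.e (nat_lit 393265) (nat_lit 22) (.e (nat_lit 417820) (nat_lit 10) (.e (nat_lit 5761) (nat_lit 315) (.e (nat_lit 163850) (nat_lit 0) (.e (nat_lit 6270) (nat_lit 337) .nil))))))) (.g (nat_lit 4) .nil .nil)))))) (.nd (nat_lit 3) (.nd (nat_lit 4) (.nd (nat_lit 5) 
(.lf (nat_lit 48262) (.g (nat_lit 3088) (.e (nat_lit 1286) (nat_lit 95) (.e (nat_lit 123182) (nat_lit 264) (.e (nat_lit 1183) (nat_lit 87) (.e (nat_lit 57480) (nat_lit 28) (.e (nat_lit 557108) (nat_lit 15) (.e (nat_lit 188452) (nat_lit 23) (.e (nat_lit 204816) (nat_lit 17) (.e (nat_lit 6434) (nat_lit 343) .nil)))))))) (.g (nat_lit 4) .nil .nil))) 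
(.lf (nat_lit 48294) (.g (nat_lit 1813) (.e (nat_lit 1293) (nat_lit 96) (.e (nat_lit 131127) (nat_lit 13) (.e (nat_lit 393260) (nat_lit 21) (.e (nat_lit 409649) (nat_lit 18) (.e (nat_lit 303114) (nat_lit 1) .nil))))) .nil))) (.nd (nat_lit 5) 
(.lf (nat_lit 48278) (.g (nat_lit 2666) (.e (nat_lit 1288) (nat_lit 95) (.e (nat_lit 123182) (nat_lit 264) (.e (nat_lit 1201) (nat_lit 88) (.e (nat_lit 65630) (nat_lit 14) (.e (nat_lit 401459) (nat_lit 13) .nil))))) .nil)) 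
(.lf (nat_lit 48310) (.g (nat_lit 2503) (.e (nat_lit 1294) (nat_lit 96) (.e (nat_lit 131127) (nat_lit 13) (.e (nat_lit 393260) (nat_lit 21) (.e (nat_lit 409646) (nat_lit 18) (.e (nat_lit 303115) (nat_lit 1) (.e (nat_lit 164148) (nat_lit 152) .nil)))))) (.g (nat_lit 0) .nil .nil))))) (.nd (nat_lit 4) (.nd (nat_lit 5) 
(.lf (nat_lit 48270) (.g (nat_lit 1776) (.e (nat_lit 1288) (nat_lit 95) (.e (nat_lit 123182) (nat_lit 264) (.e (nat_lit 999) (nat_lit 81) (.e (nat_lit 1239) (nat_lit 91) (.e (nat_lit 98048) (nat_lit 5) (.e (nat_lit 73746) (nat_lit 3) (.e (nat_lit 516131) (nat_lit 3) (.e (nat_lit 221212) (nat_lit 22) (.e (nat_lit 196626) (nat_lit 9) .nil))))))))) (.g (nat_lit 4) .nil .nil))) 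
(.lf (nat_lit 48302) (.g (nat_lit 2123) (.e (nat_lit 1294) (nat_lit 96) (.e (nat_lit 131094) (nat_lit 2) (.e (nat_lit 90176) (nat_lit 15) (.e (nat_lit 188450) (nat_lit 23) (.e (nat_lit 204830) (nat_lit 18) (.e (nat_lit 65280) (nat_lit 221) .nil)))))) (.g (nat_lit 5) .nil .nil)))) (.nd (nat_lit 5) 
(.lf (nat_lit 48286) (.g (nat_lit 3513) (.e (nat_lit 1293) (nat_lit 96) (.e (nat_lit 131126) (nat_lit 13) (.e (nat_lit 393301) (nat_lit 27) (.e (nat_lit 491560) (nat_lit 10) (.e (nat_lit 344097) (nat_lit 18) (.e (nat_lit 7146) (nat_lit 382) .nil)))))) (.g (nat_lit 6) .nil .nil))) 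
(.lf (nat_lit 48318) (.g (nat_lit 2369) (.e (nat_lit 1294) (nat_lit 96) (.e (nat_lit 131140) (nat_lit 27) (.e (nat_lit 426500) (nat_lit 27) (.e (nat_lit 336186) (nat_lit 11) (.e (nat_lit 368676) (nat_lit 21) (.e (nat_lit 516117) (nat_lit 1) (.e (nat_lit 164159) (nat_lit 152) .nil))))))) (.g (nat_lit 6) .nil .nil)))))))) 
(.nd (nat_lit 1) (.nd (nat_lit 2) (.nd (nat_lit 3) (.nd (nat_lit 4) (.nd (nat_lit 5) 
(.lf (nat_lit 48257) (.g (nat_lit 3490) (.e (nat_lit 1286) (nat_lit 95) (.e (nat_lit 122936) (nat_lit 23) (.e (nat_lit 516131) (nat_lit 3) (.e (nat_lit 221212) (nat_lit 22) (.e (nat_lit 196670) (nat_lit 14) (.e (nat_lit 73746) (nat_lit 3) (.e (nat_lit 516120) (nat_lit 1) (.e (nat_lit 164166) (nat_lit 152) .nil)))))))) (.g (nat_lit 8) .nil .nil))) 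
(.lf (nat_lit 48289) (.g (nat_lit 2368) (.e (nat_lit 1293) (nat_lit 96) (.e (nat_lit 131127) (nat_lit 13) (.e (nat_lit 393260) (nat_lit 21) (.e (nat_lit 409623) (nat_lit 10) (.e (nat_lit 5293) (nat_lit 298) (.e (nat_lit 1176) (nat_lit 87) (.e (nat_lit 57655) (nat_lit 152) .nil))))))) (.g (nat_lit 7) .nil .nil)))) (.nd (nat_lit 5) 
(.lf (nat_lit 48273) (.g (nat_lit 2713) (.e (nat_lit 1288) (nat_lit 95) (.e (nat_lit 123182) (nat_lit 264) (.e (nat_lit 1183) (nat_lit 87) (.e (nat_lit 57480) (nat_lit 28) (.e (nat_lit 557108) (nat_lit 15) .nil))))) .nil)) 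
(.lf (nat_lit 48305) (.g (nat_lit 1375) (.e (nat_lit 1294) (nat_lit 96) (.e (nat_lit 131109) (nat_lit 9) (.e (nat_lit 336443) (nat_lit 32) (.e (nat_lit 466969) (nat_lit 21) (.e (nat_lit 164332) (nat_lit 230) .nil))))) .nil)))) (.nd (nat_lit 4) (.nd (nat_lit 5) 
(.lf (nat_lit 48265) (.g (nat_lit 2640) (.e (nat_lit 1286) (nat_lit 95) (.e (nat_lit 123182) (nat_lit 264) (.e (nat_lit 1201) (nat_lit 88) (.e (nat_lit 65630) (nat_lit 14) (.e (nat_lit 401459) (nat_lit 13) .nil))))) .nil)) 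
(.lf (nat_lit 48297) (.g (nat_lit 1809) (.e (nat_lit 1294) (nat_lit 96) (.e (nat_lit 131091) (nat_lit 2) (.e (nat_lit 90176) (nat_lit 15) (.e (nat_lit 188450) (nat_lit 23) (.e (nat_lit 204821) (nat_lit 17) .nil))))) .nil))) (.nd (nat_lit 5) 
(.lf (nat_lit 48281) (.g (nat_lit 4979) (.e (nat_lit 1288) (nat_lit 95) (.e (nat_lit 123195) (nat_lit 266) (.e (nat_lit 57427) (nat_lit 15) (.e (nat_lit 360474) (nat_lit 8) (.e (nat_lit 557060) (nat_lit 0) .nil))))) .nil)) 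
(.lf (nat_lit 48313) (.g (nat_lit 2410) (.e (nat_lit 1294) (nat_lit 96) (.e (nat_lit 131127) (nat_lit 13) (.e (nat_lit 393260) (nat_lit 21) (.e (nat_lit 409649) (nat_lit 18) (.e (nat_lit 303115) (nat_lit 1) (.e (nat_lit 164148) (nat_lit 152) .nil)))))) (.g (nat_lit 6) .nil .nil)))))) (.nd (nat_lit 3) (.nd (nat_lit 4) (.nd (nat_lit 5) 
(.lf (nat_lit 48261) (.g (nat_lit 2166) (.e (nat_lit 1286) (nat_lit 95) (.e (nat_lit 123182) (nat_lit 264) (.e (nat_lit 1183) (nat_lit 87) (.e (nat_lit 57478) (nat_lit 28) (.e (nat_lit 557108) (nat_lit 15) .nil))))) .nil)) 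
(.lf (nat_lit 48293) (.g (nat_lit 1662) (.e (nat_lit 1293) (nat_lit 96) (.e (nat_lit 131127) (nat_lit 13) (.e (nat_lit 393260) (nat_lit 21) (.e (nat_lit 409648) (nat_lit 18) (.e (nat_lit 303114) (nat_lit 1) .nil))))) .nil))) (.nd (nat_lit 5) 
(.lf (nat_lit 48277) (.g (nat_lit 3173) (.e (nat_lit 1288) (nat_lit 95) (.e (nat_lit 123182) (nat_lit 264) (.e (nat_lit 1201) (nat_lit 88) (.e (nat_lit 65628) (nat_lit 14) (.e (nat_lit 401459) (nat_lit 13) (.e (nat_lit 483344) (nat_lit 17) (.e (nat_lit 6440) (nat_lit 343) .nil))))))) (.g (nat_lit 5) .nil .nil))) 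
(.lf (nat_lit 48309) (.g (nat_lit 1061) (.e (nat_lit 1294) (nat_lit 96) (.e (nat_lit 131127) (nat_lit 13) (.e (nat_lit 393260) (nat_lit 21) (.e (nat_lit 409645) (nat_lit 18) .nil)))) .nil)))) (.nd (nat_lit 4) (.nd (nat_lit 5) 
(.lf (nat_lit 48269) (.g (nat_lit 1075) (.e (nat_lit 1288) (nat_lit 95) (.e (nat_lit 123182) (nat_lit 264) (.e (nat_lit 999) (nat_lit 81) (.e (nat_lit 1239) (nat_lit 91) .nil)))) .nil)) 
(.lf (nat_lit 48301) (.g (nat_lit 728) (.e (nat_lit 1294) (nat_lit 96) (.e (nat_lit 131094) (nat_lit 2) (.e (nat_lit 90176) (nat_lit 15) (.e (nat_lit 188450) (nat_lit 23) .nil)))) .nil))) (.nd (nat_lit 5) 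
(.lf (nat_lit 48285) (.g (nat_lit 3002) (.e (nat_lit 1293) (nat_lit 96) (.e (nat_lit 131126) (nat_lit 13) (.e (nat_lit 393301) (nat_lit 27) (.e (nat_lit 491558) (nat_lit 10) (.e (nat_lit 344097) (nat_lit 18) (.e (nat_lit 7146) (nat_lit 382) .nil)))))) (.g (nat_lit 5) .nil .nil))) 
(.lf (nat_lit 48317) (.g (nat_lit 1333) (.e (nat_lit 1294) (nat_lit 96) (.e (nat_lit 131128) (nat_lit 13) (.e (nat_lit 393301) (nat_lit 27) (.e (nat_lit 491563) (nat_lit 12) .nil)))) .nil)))))) (.nd (nat_lit 2) (.nd (nat_lit 3) (.nd (nat_lit 4) (.nd (nat_lit 5) 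
(.lf (nat_lit 48259) (.g (nat_lit 3667) (.e (nat_lit 1286) (nat_lit 95) (.e (nat_lit 122936) (nat_lit 23) (.e (nat_lit 516146) (nat_lit 9) (.e (nat_lit 426428) (nat_lit 17) (.e (nat_lit 90174) (nat_lit 14) (.e (nat_lit 180243) (nat_lit 5) (.e (nat_lit 532499) (nat_lit 1) (.e (nat_lit 57755) (nat_lit 209) .nil)))))))) (.g (nat_lit 7) .nil .nil))) 
(.lf (nat_lit 48291) (.g (nat_lit 1928) (.e (nat_lit 1293) (nat_lit 96) (.e (nat_lit 131127) (nat_lit 13) (.e (nat_lit 393260) (nat_lit 21) (.e (nat_lit 409643) (nat_lit 18) (.e (nat_lit 303115) (nat_lit 1) (.e (nat_lit 164151) (nat_lit 152) .nil)))))) (.g (nat_lit 5) .nil .nil)))) (.nd (nat_lit 5) 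
(.lf (nat_lit 48275) (.g (nat_lit 1690) (.e (nat_lit 1288) (nat_lit 95) (.e (nat_lit 123182) (nat_lit 264) (.e (nat_lit 1193) (nat_lit 88) (.e (nat_lit 65628) (nat_lit 14) (.e (nat_lit 401459) (nat_lit 13) .nil))))) .nil)) 
(.lf (nat_lit 48307) (.g (nat_lit 1975) (.e (nat_lit 1294) (nat_lit 96) (.e (nat_lit 131127) (nat_lit 13) (.e (nat_lit 393260) (nat_lit 21) (.e (nat_lit 409643) (nat_lit 18) (.e (nat_lit 303115) (nat_lit 1) (.e (nat_lit 164148) (nat_lit 152) .nil)))))) (.g (nat_lit 5) .nil .nil))))) (.nd (nat_lit 4) (.nd (nat_lit 5) 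
(.lf (nat_lit 48267) (.g (nat_lit 3518) (.e (nat_lit 1287) (nat_lit 95) (.e (nat_lit 122936) (nat_lit 23) (.e (nat_lit 516131) (nat_lit 3) (.e (nat_lit 221212) (nat_lit 22) (.e (nat_lit 196670) (nat_lit 14) (.e (nat_lit 73746) (nat_lit 3) (.e (nat_lit 516117) (nat_lit 1) (.e (nat_lit 164158) (nat_lit 152) .nil)))))))) (.g (nat_lit 8) .nil .nil))) 
(.lf (nat_lit 48299) (.g (nat_lit 1031) (.e (nat_lit 1294) (nat_lit 96) (.e (nat_lit 131091) (nat_lit 2) (.e (nat_lit 90185) (nat_lit 17) (.e (nat_lit 237605) (nat_lit 9) .nil)))) .nil))) (.nd (nat_lit 5) 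
(.lf (nat_lit 48283) (.g (nat_lit 3932) (.e (nat_lit 1289) (nat_lit 95) (.e (nat_lit 122936) (nat_lit 23) (.e (nat_lit 516146) (nat_lit 9) (.e (nat_lit 426428) (nat_lit 17) (.e (nat_lit 90170) (nat_lit 13) (.e (nat_lit 172065) (nat_lit 3) (.e (nat_lit 204830) (nat_lit 18) (.e (nat_lit 57754) (nat_lit 209) .nil)))))))) (.g (nat_lit 8) .nil .nil))) 
(.lf (nat_lit 48315) (.g (nat_lit 2043) (.e (nat_lit 1294) (nat_lit 96) (.e (nat_lit 131128) (nat_lit 13) (.e (nat_lit 393301) (nat_lit 27) (.e (nat_lit 491558) (nat_lit 10) (.e (nat_lit 344091) (nat_lit 18) .nil))))) .nil))))) (.nd (nat_lit 3) (.nd (nat_lit 4) (.nd (nat_lit 5) 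
(.lf (nat_lit 48263) (.g (nat_lit 3898) (.e (nat_lit 1286) (nat_lit 95) (.e (nat_lit 123182) (nat_lit 264) (.e (nat_lit 1183) (nat_lit 87) (.e (nat_lit 57480) (nat_lit 28) (.e (nat_lit 557108) (nat_lit 15) (.e (nat_lit 188452) (nat_lit 23) (.e (nat_lit 204816) (nat_lit 17) (.e (nat_lit 6437) (nat_lit 343) .nil)))))))) (.g (nat_lit 5) .nil .nil))) 
(.lf (nat_lit 48295) (.g (nat_lit 2202) (.e (nat_lit 1294) (nat_lit 96) (.e (nat_lit 131091) (nat_lit 2) (.e (nat_lit 90170) (nat_lit 13) (.e (nat_lit 172106) (nat_lit 10) (.e (nat_lit 434231) (nat_lit 23) .nil))))) .nil))) (.nd (nat_lit 5) 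
(.lf (nat_lit 48279) (.g (nat_lit 5013) (.e (nat_lit 1288) (nat_lit 95) (.e (nat_lit 123182) (nat_lit 264) (.e (nat_lit 1201) (nat_lit 88) (.e (nat_lit 65630) (nat_lit 14) (.e (nat_lit 401459) (nat_lit 13) (.e (nat_lit 483344) (nat_lit 17) (.e (nat_lit 6434) (nat_lit 343) .nil))))))) (.g (nat_lit 6) .nil .nil))) 
(.lf (nat_lit 48311) (.g (nat_lit 1424) (.e (nat_lit 1294) (nat_lit 96) (.e (nat_lit 131127) (nat_lit 13) (.e (nat_lit 393260) (nat_lit 21) (.e (nat_lit 409647) (nat_lit 18) (.e (nat_lit 303115) (nat_lit 1) .nil))))) .nil)))) (.nd (nat_lit 4) (.nd (nat_lit 5) 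
(.lf (nat_lit 48271) (.g (nat_lit 955) (.e (nat_lit 1288) (nat_lit 95) (.e (nat_lit 123182) (nat_lit 264) (.e (nat_lit 1016) (nat_lit 81) (.e (nat_lit 1239) (nat_lit 91) .nil)))) .nil)) 
(.lf (nat_lit 48303) (.g (nat_lit 1213) (.e (nat_lit 1294) (nat_lit 96) (.e (nat_lit 131094) (nat_lit 2) (.e (nat_lit 90185) (nat_lit 17) (.e (nat_lit 237605) (nat_lit 9) (.e (nat_lit 426131) (nat_lit 3) .nil))))) .nil))) (.nd (nat_lit 5) 
(.lf (nat_lit 48287) (.g (nat_lit 3054) (.e (nat_lit 1293) (nat_lit 96) (.e (nat_lit 131127) (nat_lit 13) (.e (nat_lit 393238) (nat_lit 17) (.e (nat_lit 6989) (nat_lit 377) (.e (nat_lit 2777) (nat_lit 178) (.e (nat_lit 286731) (nat_lit 1) (.e (nat_lit 57654) (nat_lit 152) .nil))))))) (.g (nat_lit 0) .nil .nil))) 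
(.lf (nat_lit 48319) (.g (nat_lit 2239) (.e (nat_lit 1295) (nat_lit 96) (.e (nat_lit 131127) (nat_lit 13) (.e (nat_lit 393260) (nat_lit 21) (.e (nat_lit 409648) (nat_lit 18) (.e (nat_lit 303115) (nat_lit 1) (.e (nat_lit 164148) (nat_lit 152) .nil)))))) (.g (nat_lit 5) .nil .nil)))))))))

noncomputable def tv670 : DT := (.nd (nat_lit 0) (.nd (nat_lit 1) (.nd (nat_lit 2) (.nd (nat_lit 3) (.nd (nat_lit 4) (.nd (nat_lit 5) 
(.lf (nat_lit 48320) (.g (nat_lit 1619) (.e (nat_lit 1295) (nat_lit 96) (.e (nat_lit 131127) (nat_lit 13) (.e (nat_lit 393260) (nat_lit 21) (.e (nat_lit 409649) (nat_lit 18) (.e (nat_lit 303115) (nat_lit 1) .nil))))) .nil)) 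
(.lf (nat_lit 48352) (.g (nat_lit 4277) (.e (nat_lit 1296) (nat_lit 96) (.e (nat_lit 131091) (nat_lit 2) (.e (nat_lit 90170) (nat_lit 13) (.e (nat_lit 172113) (nat_lit 10) (.e (nat_lit 434245) (nat_lit 28) (.e (nat_lit 573474) (nat_lit 12) (.e (nat_lit 57348) (nat_lit 0) (.e (nat_lit 7125) (nat_lit 382) .nil)))))))) (.g (nat_lit 6) .nil .nil)))) (.nd (nat_lit 5) 
(.lf (nat_lit 48336) (.g (nat_lit 2705) (.e (nat_lit 1296) (nat_lit 96) (.e (nat_lit 131091) (nat_lit 2) (.e (nat_lit 90170) (nat_lit 13) (.e (nat_lit 172106) (nat_lit 10) (.e (nat_lit 434231) (nat_lit 23) (.e (nat_lit 532490) (nat_lit 0) (.e (nat_lit 7936) (nat_lit 81) (.e (nat_lit 4444) (nat_lit 263) .nil)))))))) (.g (nat_lit 4) .nil .nil))) 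
(.lf (nat_lit 48368) (.g (nat_lit 3407) (.e (nat_lit 1296) (nat_lit 96) (.e (nat_lit 131091) (nat_lit 2) (.e (nat_lit 90170) (nat_lit 13) (.e (nat_lit 172113) (nat_lit 10) (.e (nat_lit 434248) (nat_lit 28) (.e (nat_lit 573473) (nat_lit 12) (.e (nat_lit 57353) (nat_lit 0) (.e (nat_lit 7124) (nat_lit 382) .nil)))))))) (.g (nat_lit 5) .nil .nil))))) (.nd (nat_lit 4) (.nd (nat_lit 5) 
(.lf (nat_lit 48328) (.g (nat_lit 2501) (.e (nat_lit 1296) (nat_lit 96) (.e (nat_lit 131090) (nat_lit 2) (.e (nat_lit 90170) (nat_lit 13) (.e (nat_lit 172113) (nat_lit 10) (.e (nat_lit 434245) (nat_lit 28) (.e (nat_lit 573474) (nat_lit 12) (.e (nat_lit 57351) (nat_lit 0) (.e (nat_lit 7125) (nat_lit 382) .nil)))))))) (.g (nat_lit 4) .nil .nil))) 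
(.lf (nat_lit 48360) (.g (nat_lit 3099) (.e (nat_lit 1296) (nat_lit 96) (.e (nat_lit 131091) (nat_lit 2) (.e (nat_lit 90170) (nat_lit 13) (.e (nat_lit 172113) (nat_lit 10) (.e (nat_lit 434247) (nat_lit 28) (.e (nat_lit 573478) (nat_lit 12) (.e (nat_lit 57351) (nat_lit 0) (.e (nat_lit 7124) (nat_lit 382) .nil)))))))) (.g (nat_lit 5) .nil .nil)))) (.nd (nat_lit 5) 
(.lf (nat_lit 48344) (.g (nat_lit 2336) (.e (nat_lit 1296) (nat_lit 96) (.e (nat_lit 131091) (nat_lit 2) (.e (nat_lit 90170) (nat_lit 13) (.e (nat_lit 172113) (nat_lit 10) (.e (nat_lit 434245) (nat_lit 28) (.e (nat_lit 573473) (nat_lit 12) (.e (nat_lit 57352) (nat_lit 0) (.e (nat_lit 7122) (nat_lit 382) .nil)))))))) (.g (nat_lit 4) .nil .nil))) 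
(.lf (nat_lit 48376) (.g (nat_lit 248) (.e (nat_lit 1296) (nat_lit 96) (.e (nat_lit 131091) (nat_lit 2) (.e (nat_lit 90176) (nat_lit 15) .nil))) .nil))))) (.nd (nat_lit 3) (.nd (nat_lit 4) (.nd (nat_lit 5) 
(.lf (nat_lit 48324) (.g (nat_lit 2844) (.e (nat_lit 1296) (nat_lit 96) (.e (nat_lit 131090) (nat_lit 2) (.e (nat_lit 90170) (nat_lit 13) (.e (nat_lit 172113) (nat_lit 10) (.e (nat_lit 434245) (nat_lit 28) (.e (nat_lit 573474) (nat_lit 12) (.e (nat_lit 57347) (nat_lit 0) (.e (nat_lit 7124) (nat_lit 382) .nil)))))))) (.g (nat_lit 4) .nil .nil))) 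
(.lf (nat_lit 48356) (.g (nat_lit 2577) (.e (nat_lit 1296) (nat_lit 96) (.e (nat_lit 131091) (nat_lit 2) (.e (nat_lit 90170) (nat_lit 13) (.e (nat_lit 172113) (nat_lit 10) (.e (nat_lit 434247) (nat_lit 28) (.e (nat_lit 573477) (nat_lit 12) (.e (nat_lit 57352) (nat_lit 0) (.e (nat_lit 7122) (nat_lit 382) .nil)))))))) (.g (nat_lit 4) .nil .nil)))) (.nd (nat_lit 5) 
(.lf (nat_lit 48340) (.g (nat_lit 4024) (.e (nat_lit 1296) (nat_lit 96) (.e (nat_lit 131091) (nat_lit 2) (.e (nat_lit 90170) (nat_lit 13) (.e (nat_lit 172113) (nat_lit 10) (.e (nat_lit 434242) (nat_lit 28) (.e (nat_lit 573474) (nat_lit 12) (.e (nat_lit 57347) (nat_lit 0) (.e (nat_lit 7124) (nat_lit 382) .nil)))))))) (.g (nat_lit 6) .nil .nil))) 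
(.lf (nat_lit 48372) (.g (nat_lit 4734) (.e (nat_lit 1296) (nat_lit 96) (.e (nat_lit 131091) (nat_lit 2) (.e (nat_lit 90170) (nat_lit 13) (.e (nat_lit 172113) (nat_lit 10) (.e (nat_lit 434248) (nat_lit 28) (.e (nat_lit 573475) (nat_lit 12) (.e (nat_lit 57347) (nat_lit 0) (.e (nat_lit 7125) (nat_lit 382) .nil)))))))) (.g (nat_lit 7) .nil .nil))))) (.nd (nat_lit 4) (.nd (nat_lit 5) 
(.lf (nat_lit 48332) (.g (nat_lit 2593) (.e (nat_lit 1296) (nat_lit 96) (.e (nat_lit 131090) (nat_lit 2) (.e (nat_lit 90170) (nat_lit 13) (.e (nat_lit 172113) (nat_lit 10) (.e (nat_lit 434248) (nat_lit 28) (.e (nat_lit 573475) (nat_lit 12) (.e (nat_lit 57348) (nat_lit 0) (.e (nat_lit 7125) (nat_lit 382) .nil)))))))) (.g (nat_lit 4) .nil .nil))) 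
(.lf (nat_lit 48364) (.g (nat_lit 2157) (.e (nat_lit 1296) (nat_lit 96) (.e (nat_lit 131091) (nat_lit 2) (.e (nat_lit 90170) (nat_lit 13) (.e (nat_lit 172113) (nat_lit 10) (.e (nat_lit 434248) (nat_lit 28) .nil))))) .nil))) (.nd (nat_lit 5) 
(.lf (nat_lit 48348) (.g (nat_lit 2529) (.e (nat_lit 1296) (nat_lit 96) (.e (nat_lit 131091) (nat_lit 2) (.e (nat_lit 90170) (nat_lit 13) (.e (nat_lit 172113) (nat_lit 10) (.e (nat_lit 434245) (nat_lit 28) (.e (nat_lit 573474) (nat_lit 12) (.e (nat_lit 57347) (nat_lit 0) (.e (nat_lit 7122) (nat_lit 382) .nil)))))))) (.g (nat_lit 4) .nil .nil))) 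
(.lf (nat_lit 48380) (.g (nat_lit 2064) (.e (nat_lit 1296) (nat_lit 96) (.e (nat_lit 131091) (nat_lit 2) (.e (nat_lit 90176) (nat_lit 15) (.e (nat_lit 188450) (nat_lit 23) (.e (nat_lit 212736) (nat_lit 1) (.e (nat_lit 164157) (nat_lit 152) .nil)))))) (.g (nat_lit 4) .nil .nil))))))) (.nd (nat_lit 2) (.nd (nat_lit 3) (.nd (nat_lit 4) (.nd (nat_lit 5) 
(.lf (nat_lit 48322) (.g (nat_lit 2212) (.e (nat_lit 1296) (nat_lit 96) (.e (nat_lit 131086) (nat_lit 1) (.e (nat_lit 57684) (nat_lit 155) (.e (nat_lit 122913) (nat_lit 13) (.e (nat_lit 344130) (nat_lit 26) (.e (nat_lit 557104) (nat_lit 14) (.e (nat_lit 180233) (nat_lit 0) (.e (nat_lit 5817) (nat_lit 320) .nil)))))))) (.g (nat_lit 5) .nil .nil))) 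
(.lf (nat_lit 48354) (.g (nat_lit 2240) (.e (nat_lit 1296) (nat_lit 96) (.e (nat_lit 131091) (nat_lit 2) (.e (nat_lit 90170) (nat_lit 13) (.e (nat_lit 172113) (nat_lit 10) (.e (nat_lit 434247) (nat_lit 28) .nil))))) .nil))) (.nd (nat_lit 5) 
(.lf (nat_lit 48338) (.g (nat_lit 3425) (.e (nat_lit 1296) (nat_lit 96) (.e (nat_lit 131091) (nat_lit 2) (.e (nat_lit 90170) (nat_lit 13) (.e (nat_lit 172106) (nat_lit 10) (.e (nat_lit 434244) (nat_lit 28) (.e (nat_lit 573473) (nat_lit 12) (.e (nat_lit 57348) (nat_lit 0) (.e (nat_lit 7125) (nat_lit 382) .nil)))))))) (.g (nat_lit 6) .nil .nil))) 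
(.lf (nat_lit 48370) (.g (nat_lit 2394) (.e (nat_lit 1296) (nat_lit 96) (.e (nat_lit 131091) (nat_lit 2) (.e (nat_lit 90170) (nat_lit 13) (.e (nat_lit 172113) (nat_lit 10) (.e (nat_lit 434248) (nat_lit 28) (.e (nat_lit 573475) (nat_lit 12) (.e (nat_lit 57347) (nat_lit 0) (.e (nat_lit 7119) (nat_lit 382) .nil)))))))) (.g (nat_lit 4) .nil .nil))))) (.nd (nat_lit 4) (.nd (nat_lit 5) 
(.lf (nat_lit 48330) (.g (nat_lit 2939) (.e (nat_lit 1296) (nat_lit 96) (.e (nat_lit 131090) (nat_lit 2) (.e (nat_lit 90170) (nat_lit 13) (.e (nat_lit 172113) (nat_lit 10) (.e (nat_lit 434248) (nat_lit 28) (.e (nat_lit 573475) (nat_lit 12) (.e (nat_lit 57347) (nat_lit 0) (.e (nat_lit 7124) (nat_lit 382) .nil)))))))) (.g (nat_lit 4) .nil .nil))) 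
(.lf (nat_lit 48362) (.g (nat_lit 3005) (.e (nat_lit 1296) (nat_lit 96) (.e (nat_lit 131091) (nat_lit 2) (.e (nat_lit 90170) (nat_lit 13) (.e (nat_lit 172113) (nat_lit 10) (.e (nat_lit 434247) (nat_lit 28) (.e (nat_lit 573478) (nat_lit 12) (.e (nat_lit 57353) (nat_lit 0) (.e (nat_lit 7124) (nat_lit 382) .nil)))))))) (.g (nat_lit 5) .nil .nil)))) (.nd (nat_lit 5) 
(.lf (nat_lit 48346) (.g (nat_lit 3374) (.e (nat_lit 1296) (nat_lit 96) (.e (nat_lit 131091) (nat_lit 2) (.e (nat_lit 90170) (nat_lit 13) (.e (nat_lit 172113) (nat_lit 10) (.e (nat_lit 434245) (nat_lit 28) (.e (nat_lit 573473) (nat_lit 12) (.e (nat_lit 57353) (nat_lit 0) (.e (nat_lit 7125) (nat_lit 382) .nil)))))))) (.g (nat_lit 6) .nil .nil))) 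
(.lf (nat_lit 48378) (.g (nat_lit 2500) (.e (nat_lit 1296) (nat_lit 96) (.e (nat_lit 131091) (nat_lit 2) (.e (nat_lit 90176) (nat_lit 15) (.e (nat_lit 188450) (nat_lit 23) (.e (nat_lit 212736) (nat_lit 1) (.e (nat_lit 164148) (nat_lit 152) .nil)))))) (.g (nat_lit 4) .nil .nil)))))) (.nd (nat_lit 3) (.nd (nat_lit 4) (.nd (nat_lit 5) 
(.lf (nat_lit 48326) (.g (nat_lit 2581) (.e (nat_lit 1296) (nat_lit 96) (.e (nat_lit 131090) (nat_lit 2) (.e (nat_lit 90170) (nat_lit 13) (.e (nat_lit 172113) (nat_lit 10) (.e (nat_lit 434245) (nat_lit 28) (.e (nat_lit 573474) (nat_lit 12) (.e (nat_lit 57348) (nat_lit 0) (.e (nat_lit 7124) (nat_lit 382) .nil)))))))) (.g (nat_lit 4) .nil .nil))) 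
(.lf (nat_lit 48358) (.g (nat_lit 3617) (.e (nat_lit 1296) (nat_lit 96) (.e (nat_lit 131091) (nat_lit 2) (.e (nat_lit 90170) (nat_lit 13) (.e (nat_lit 172113) (nat_lit 10) (.e (nat_lit 434247) (nat_lit 28) (.e (nat_lit 573477) (nat_lit 12) (.e (nat_lit 57353) (nat_lit 0) (.e (nat_lit 7125) (nat_lit 382) .nil)))))))) (.g (nat_lit 6) .nil .nil)))) (.nd (nat_lit 5) 
(.lf (nat_lit 48342) (.g (nat_lit 3321) (.e (nat_lit 1296) (nat_lit 96) (.e (nat_lit 131091) (nat_lit 2) (.e (nat_lit 90170) (nat_lit 13) (.e (nat_lit 172113) (nat_lit 10) (.e (nat_lit 434245) (nat_lit 28) (.e (nat_lit 573473) (nat_lit 12) (.e (nat_lit 57348) (nat_lit 0) (.e (nat_lit 7124) (nat_lit 382) .nil)))))))) (.g (nat_lit 5) .nil .nil))) 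
(.lf (nat_lit 48374) (.g (nat_lit 3204) (.e (nat_lit 1296) (nat_lit 96) (.e (nat_lit 131091) (nat_lit 2) (.e (nat_lit 90170) (nat_lit 13) (.e (nat_lit 172113) (nat_lit 10) (.e (nat_lit 434248) (nat_lit 28) (.e (nat_lit 573475) (nat_lit 12) (.e (nat_lit 57353) (nat_lit 0) (.e (nat_lit 7124) (nat_lit 382) .nil)))))))) (.g (nat_lit 5) .nil .nil))))) (.nd (nat_lit 4) (.nd (nat_lit 5) 
(.lf (nat_lit 48334) (.g (nat_lit 2731) (.e (nat_lit 1296) (nat_lit 96) (.e (nat_lit 131091) (nat_lit 2) (.e (nat_lit 90170) (nat_lit 13) (.e (nat_lit 172106) (nat_lit 10) (.e (nat_lit 434231) (nat_lit 23) (.e (nat_lit 532490) (nat_lit 0) (.e (nat_lit 990) (nat_lit 81) (.e (nat_lit 4435) (nat_lit 263) .nil)))))))) (.g (nat_lit 4) .nil .nil))) 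
(.lf (nat_lit 48366) (.g (nat_lit 3654) (.e (nat_lit 1296) (nat_lit 96) (.e (nat_lit 131091) (nat_lit 2) (.e (nat_lit 90170) (nat_lit 13) (.e (nat_lit 172113) (nat_lit 10) (.e (nat_lit 434248) (nat_lit 28) (.e (nat_lit 573473) (nat_lit 12) (.e (nat_lit 57348) (nat_lit 0) (.e (nat_lit 7125) (nat_lit 382) .nil)))))))) (.g (nat_lit 6) .nil .nil)))) (.nd (nat_lit 5) 
(.lf (nat_lit 48350) (.g (nat_lit 2345) (.e (nat_lit 1296) (nat_lit 96) (.e (nat_lit 131091) (nat_lit 2) (.e (nat_lit 90170) (nat_lit 13) (.e (nat_lit 172113) (nat_lit 10) (.e (nat_lit 434245) (nat_lit 28) (.e (nat_lit 573474) (nat_lit 12) (.e (nat_lit 57348) (nat_lit 0) (.e (nat_lit 7119) (nat_lit 382) .nil)))))))) (.g (nat_lit 4) .nil .nil))) 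
(.lf (nat_lit 48382) (.g (nat_lit 2094) (.e (nat_lit 1296) (nat_lit 96) (.e (nat_lit 131091) (nat_lit 2) (.e (nat_lit 90176) (nat_lit 15) (.e (nat_lit 188450) (nat_lit 23) (.e (nat_lit 212736) (nat_lit 1) (.e (nat_lit 164159) (nat_lit 152) .nil)))))) (.g (nat_lit 4) .nil .nil)))))))) (.nd (nat_lit 1) (.nd (nat_lit 2) (.nd (nat_lit 3) (.nd (nat_lit 4) (.nd (nat_lit 5) 
(.lf (nat_lit 48321) (.g (nat_lit 2924) (.e (nat_lit 1296) (nat_lit 96) (.e (nat_lit 131086) (nat_lit 1) (.e (nat_lit 57683) (nat_lit 155) (.e (nat_lit 122913) (nat_lit 13) (.e (nat_lit 344130) (nat_lit 26) (.e (nat_lit 557104) (nat_lit 14) (.e (nat_lit 180233) (nat_lit 0) (.e (nat_lit 5817) (nat_lit 320) .nil)))))))) (.g (nat_lit 6) .nil .nil))) 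
(.lf (nat_lit 48353) (.g (nat_lit 2857) (.e (nat_lit 1296) (nat_lit 96) (.e (nat_lit 131091) (nat_lit 2) (.e (nat_lit 90170) (nat_lit 13) (.e (nat_lit 172113) (nat_lit 10) (.e (nat_lit 434245) (nat_lit 28) (.e (nat_lit 573474) (nat_lit 12) (.e (nat_lit 57351) (nat_lit 0) (.e (nat_lit 7122) (nat_lit 382) .nil)))))))) (.g (nat_lit 4) .nil .nil)))) (.nd (nat_lit 5) 
(.lf (nat_lit 48337) (.g (nat_lit 2737) (.e (nat_lit 1296) (nat_lit 96) (.e (nat_lit 131091) (nat_lit 2) (.e (nat_lit 90170) (nat_lit 13) (.e (nat_lit 172106) (nat_lit 10) (.e (nat_lit 434244) (nat_lit 28) (.e (nat_lit 573473) (nat_lit 12) (.e (nat_lit 57347) (nat_lit 0) (.e (nat_lit 7125) (nat_lit 382) .nil)))))))) (.g (nat_lit 5) .nil .nil))) 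
(.lf (nat_lit 48369) (.g (nat_lit 3521) (.e (nat_lit 1296) (nat_lit 96) (.e (nat_lit 131091) (nat_lit 2) (.e (nat_lit 90170) (nat_lit 13) (.e (nat_lit 172113) (nat_lit 10) (.e (nat_lit 434248) (nat_lit 28) (.e (nat_lit 573473) (nat_lit 12) (.e (nat_lit 57353) (nat_lit 0) (.e (nat_lit 7125) (nat_lit 382) .nil)))))))) (.g (nat_lit 6) .nil .nil))))) (.nd (nat_lit 4) (.nd (nat_lit 5) 
(.lf (nat_lit 48329) (.g (nat_lit 2402) (.e (nat_lit 1296) (nat_lit 96) (.e (nat_lit 131090) (nat_lit 2) (.e (nat_lit 90170) (nat_lit 13) (.e (nat_lit 172113) (nat_lit 10) (.e (nat_lit 434247) (nat_lit 28) .nil))))) .nil)) 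
(.lf (nat_lit 48361) (.g (nat_lit 3168) (.e (nat_lit 1296) (nat_lit 96) (.e (nat_lit 131091) (nat_lit 2) (.e (nat_lit 90170) (nat_lit 13) (.e (nat_lit 172113) (nat_lit 10) (.e (nat_lit 434247) (nat_lit 28) (.e (nat_lit 573478) (nat_lit 12) (.e (nat_lit 57351) (nat_lit 0) (.e (nat_lit 7125) (nat_lit 382) .nil)))))))) (.g (nat_lit 5) .nil .nil)))) (.nd (nat_lit 5) 
(.lf (nat_lit 48345) (.g (nat_lit 3257) (.e (nat_lit 1296) (nat_lit 96) (.e (nat_lit 131091) (nat_lit 2) (.e (nat_lit 90170) (nat_lit 13) (.e (nat_lit 172113) (nat_lit 10) (.e (nat_lit 434245) (nat_lit 28) (.e (nat_lit 573473) (nat_lit 12) (.e (nat_lit 57353) (nat_lit 0) (.e (nat_lit 7124) (nat_lit 382) .nil)))))))) (.g (nat_lit 5) .nil .nil))) 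
(.lf (nat_lit 48377) (.g (nat_lit 1898) (.e (nat_lit 1296) (nat_lit 96) (.e (nat_lit 131091) (nat_lit 2) (.e (nat_lit 90176) (nat_lit 15) (.e (nat_lit 188447) (nat_lit 22) (.e (nat_lit 196661) (nat_lit 12) .nil))))) .nil))))) (.nd (nat_lit 3) (.nd (nat_lit 4) (.nd (nat_lit 5) 
(.lf (nat_lit 48325) (.g (nat_lit 3427) (.e (nat_lit 1296) (nat_lit 96) (.e (nat_lit 131090) (nat_lit 2) (.e (nat_lit 90170) (nat_lit 13) (.e (nat_lit 172113) (nat_lit 10) (.e (nat_lit 434245) (nat_lit 28) (.e (nat_lit 573474) (nat_lit 12) (.e (nat_lit 57347) (nat_lit 0) (.e (nat_lit 7125) (nat_lit 382) .nil)))))))) (.g (nat_lit 5) .nil .nil))) 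
(.lf (nat_lit 48357) (.g (nat_lit 3442) (.e (nat_lit 1296) (nat_lit 96) (.e (nat_lit 131091) (nat_lit 2) (.e (nat_lit 90170) (nat_lit 13) (.e (nat_lit 172113) (nat_lit 10) (.e (nat_lit 434247) (nat_lit 28) (.e (nat_lit 573477) (nat_lit 12) (.e (nat_lit 57353) (nat_lit 0) (.e (nat_lit 7124) (nat_lit 382) .nil)))))))) (.g (nat_lit 5) .nil .nil)))) (.nd (nat_lit 5) 
(.lf (nat_lit 48341) (.g (nat_lit 4252) (.e (nat_lit 1296) (nat_lit 96) (.e (nat_lit 131091) (nat_lit 2) (.e (nat_lit 90170) (nat_lit 13) (.e (nat_lit 172113) (nat_lit 10) (.e (nat_lit 434242) (nat_lit 28) (.e (nat_lit 573474) (nat_lit 12) (.e (nat_lit 57348) (nat_lit 0) (.e (nat_lit 7125) (nat_lit 382) .nil)))))))) (.g (nat_lit 6) .nil .nil))) 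
(.lf (nat_lit 48373) (.g (nat_lit 3848) (.e (nat_lit 1296) (nat_lit 96) (.e (nat_lit 131091) (nat_lit 2) (.e (nat_lit 90170) (nat_lit 13) (.e (nat_lit 172113) (nat_lit 10) (.e (nat_lit 434248) (nat_lit 28) (.e (nat_lit 573475) (nat_lit 12) (.e (nat_lit 57348) (nat_lit 0) (.e (nat_lit 7125) (nat_lit 382) .nil)))))))) (.g (nat_lit 6) .nil .nil))))) (.nd (nat_lit 4) (.nd (nat_lit 5) 
(.lf (nat_lit 48333) (.g (nat_lit 3327) (.e (nat_lit 1296) (nat_lit 96) (.e (nat_lit 131091) (nat_lit 2) (.e (nat_lit 90170) (nat_lit 13) (.e (nat_lit 172082) (nat_lit 7) (.e (nat_lit 409612) (nat_lit 10) (.e (nat_lit 604) (nat_lit 45) (.e (nat_lit 532501) (nat_lit 1) (.e (nat_lit 57830) (nat_lit 250) .nil)))))))) (.g (nat_lit 5) .nil .nil))) 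
(.lf (nat_lit 48365) (.g (nat_lit 3488) (.e (nat_lit 1296) (nat_lit 96) (.e (nat_lit 131091) (nat_lit 2) (.e (nat_lit 90170) (nat_lit 13) (.e (nat_lit 172113) (nat_lit 10) (.e (nat_lit 434248) (nat_lit 28) (.e (nat_lit 573473) (nat_lit 12) (.e (nat_lit 57348) (nat_lit 0) (.e (nat_lit 7124) (nat_lit 382) .nil)))))))) (.g (nat_lit 6) .nil .nil)))) (.nd (nat_lit 5) 
(.lf (nat_lit 48349) (.g (nat_lit 4627) (.e (nat_lit 1296) (nat_lit 96) (.e (nat_lit 131091) (nat_lit 2) (.e (nat_lit 90170) (nat_lit 13) (.e (nat_lit 172113) (nat_lit 10) (.e (nat_lit 434245) (nat_lit 28) (.e (nat_lit 573474) (nat_lit 12) (.e (nat_lit 57347) (nat_lit 0) (.e (nat_lit 7125) (nat_lit 382) .nil)))))))) (.g (nat_lit 7) .nil .nil))) 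
(.lf (nat_lit 48381) (.g (nat_lit 2210) (.e (nat_lit 1296) (nat_lit 96) (.e (nat_lit 131091) (nat_lit 2) (.e (nat_lit 90176) (nat_lit 15) (.e (nat_lit 188450) (nat_lit 23) (.e (nat_lit 212736) (nat_lit 1) (.e (nat_lit 164158) (nat_lit 152) .nil)))))) (.g (nat_lit 4) .nil .nil))))))) (.nd (nat_lit 2) (.nd (nat_lit 3) (.nd (nat_lit 4) (.nd (nat_lit 5) 
(.lf (nat_lit 48323) (.g (nat_lit 2450) (.e (nat_lit 1296) (nat_lit 96) (.e (nat_lit 131090) (nat_lit 2) (.e (nat_lit 90170) (nat_lit 13) (.e (nat_lit 172113) (nat_lit 10) (.e (nat_lit 434245) (nat_lit 28) .nil))))) .nil)) 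
(.lf (nat_lit 48355) (.g (nat_lit 2563) (.e (nat_lit 1296) (nat_lit 96) (.e (nat_lit 131091) (nat_lit 2) (.e (nat_lit 90170) (nat_lit 13) (.e (nat_lit 172113) (nat_lit 10) (.e (nat_lit 434247) (nat_lit 28) (.e (nat_lit 573477) (nat_lit 12) (.e (nat_lit 57351) (nat_lit 0) (.e (nat_lit 7125) (nat_lit 382) .nil)))))))) (.g (nat_lit 4) .nil .nil)))) (.nd (nat_lit 5) 
(.lf (nat_lit 48339) (.g (nat_lit 2073) (.e (nat_lit 1296) (nat_lit 96) (.e (nat_lit 131091) (nat_lit 2) (.e (nat_lit 90170) (nat_lit 13) (.e (nat_lit 172113) (nat_lit 10) (.e (nat_lit 434242) (nat_lit 28) .nil))))) .nil)) 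
(.lf (nat_lit 48371) (.g (nat_lit 2700) (.e (nat_lit 1296) (nat_lit 96) (.e (nat_lit 131091) (nat_lit 2) (.e (nat_lit 90170) (nat_lit 13) (.e (nat_lit 172113) (nat_lit 10) (.e (nat_lit 434248) (nat_lit 28) (.e (nat_lit 573475) (nat_lit 12) (.e (nat_lit 57347) (nat_lit 0) (.e (nat_lit 7122) (nat_lit 382) .nil)))))))) (.g (nat_lit 4) .nil .nil))))) (.nd (nat_lit 4) (.nd (nat_lit 5) 
(.lf (nat_lit 48331) (.g (nat_lit 3483) (.e (nat_lit 1296) (nat_lit 96) (.e (nat_lit 131090) (nat_lit 2) (.e (nat_lit 90170) (nat_lit 13) (.e (nat_lit 172113) (nat_lit 10) (.e (nat_lit 434248) (nat_lit 28) (.e (nat_lit 573475) (nat_lit 12) (.e (nat_lit 57347) (nat_lit 0) (.e (nat_lit 7125) (nat_lit 382) .nil)))))))) (.g (nat_lit 5) .nil .nil))) 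
(.lf (nat_lit 48363) (.g (nat_lit 3244) (.e (nat_lit 1296) (nat_lit 96) (.e (nat_lit 131091) (nat_lit 2) (.e (nat_lit 90170) (nat_lit 13) (.e (nat_lit 172113) (nat_lit 10) (.e (nat_lit 434247) (nat_lit 28) (.e (nat_lit 573478) (nat_lit 12) (.e (nat_lit 57353) (nat_lit 0) (.e (nat_lit 7125) (nat_lit 382) .nil)))))))) (.g (nat_lit 5) .nil .nil)))) (.nd (nat_lit 5) 
(.lf (nat_lit 48347) (.g (nat_lit 2278) (.e (nat_lit 1296) (nat_lit 96) (.e (nat_lit 131091) (nat_lit 2) (.e (nat_lit 90170) (nat_lit 13) (.e (nat_lit 172113) (nat_lit 10) (.e (nat_lit 434245) (nat_lit 28) (.e (nat_lit 573474) (nat_lit 12) (.e (nat_lit 57347) (nat_lit 0) (.e (nat_lit 7119) (nat_lit 382) .nil)))))))) (.g (nat_lit 4) .nil .nil))) 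
(.lf (nat_lit 48379) (.g (nat_lit 2234) (.e (nat_lit 1296) (nat_lit 96) (.e (nat_lit 131091) (nat_lit 2) (.e (nat_lit 90176) (nat_lit 15) (.e (nat_lit 188450) (nat_lit 23) (.e (nat_lit 212736) (nat_lit 1) (.e (nat_lit 164154) (nat_lit 152) .nil)))))) (.g (nat_lit 4) .nil .nil)))))) (.nd (nat_lit 3) (.nd (nat_lit 4) (.nd (nat_lit 5) 
(.lf (nat_lit 48327) (.g (nat_lit 3073) (.e (nat_lit 1296) (nat_lit 96) (.e (nat_lit 131090) (nat_lit 2) (.e (nat_lit 90170) (nat_lit 13) (.e (nat_lit 172113) (nat_lit 10) (.e (nat_lit 434245) (nat_lit 28) (.e (nat_lit 573474) (nat_lit 12) (.e (nat_lit 57348) (nat_lit 0) (.e (nat_lit 7125) (nat_lit 382) .nil)))))))) (.g (nat_lit 4) .nil .nil))) 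
(.lf (nat_lit 48359) (.g (nat_lit 2312) (.e (nat_lit 1296) (nat_lit 96) (.e (nat_lit 131091) (nat_lit 2) (.e (nat_lit 90170) (nat_lit 13) (.e (nat_lit 172113) (nat_lit 10) (.e (nat_lit 434247) (nat_lit 28) (.e (nat_lit 573478) (nat_lit 12) (.e (nat_lit 57351) (nat_lit 0) (.e (nat_lit 7122) (nat_lit 382) .nil)))))))) (.g (nat_lit 4) .nil .nil)))) (.nd (nat_lit 5) 
(.lf (nat_lit 48343) (.g (nat_lit 3477) (.e (nat_lit 1296) (nat_lit 96) (.e (nat_lit 131091) (nat_lit 2) (.e (nat_lit 90170) (nat_lit 13) (.e (nat_lit 172113) (nat_lit 10) (.e (nat_lit 434245) (nat_lit 28) (.e (nat_lit 573473) (nat_lit 12) (.e (nat_lit 57348) (nat_lit 0) (.e (nat_lit 7125) (nat_lit 382) .nil)))))))) (.g (nat_lit 6) .nil .nil))) 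
(.lf (nat_lit 48375) (.g (nat_lit 3366) (.e (nat_lit 1296) (nat_lit 96) (.e (nat_lit 131091) (nat_lit 2) (.e (nat_lit 90170) (nat_lit 13) (.e (nat_lit 172113) (nat_lit 10) (.e (nat_lit 434248) (nat_lit 28) (.e (nat_lit 573475) (nat_lit 12) (.e (nat_lit 57353) (nat_lit 0) (.e (nat_lit 7125) (nat_lit 382) .nil)))))))) (.g (nat_lit 5) .nil .nil))))) (.nd (nat_lit 4) (.nd (nat_lit 5) 
(.lf (nat_lit 48335) (.g (nat_lit 2607) (.e (nat_lit 1296) (nat_lit 96) (.e (nat_lit 131091) (nat_lit 2) (.e (nat_lit 90170) (nat_lit 13) (.e (nat_lit 172106) (nat_lit 10) (.e (nat_lit 434231) (nat_lit 23) (.e (nat_lit 532490) (nat_lit 0) (.e (nat_lit 7936) (nat_lit 81) (.e (nat_lit 4443) (nat_lit 263) .nil)))))))) (.g (nat_lit 4) .nil .nil))) 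
(.lf (nat_lit 48367) (.g (nat_lit 2491) (.e (nat_lit 1296) (nat_lit 96) (.e (nat_lit 131091) (nat_lit 2) (.e (nat_lit 90170) (nat_lit 13) (.e (nat_lit 172113) (nat_lit 10) (.e (nat_lit 434248) (nat_lit 28) (.e (nat_lit 573473) (nat_lit 12) (.e (nat_lit 57352) (nat_lit 0) (.e (nat_lit 7122) (nat_lit 382) .nil)))))))) (.g (nat_lit 4) .nil .nil)))) (.nd (nat_lit 5) 
(.lf (nat_lit 48351) (.g (nat_lit 2472) (.e (nat_lit 1296) (nat_lit 96) (.e (nat_lit 131091) (nat_lit 2) (.e (nat_lit 90170) (nat_lit 13) (.e (nat_lit 172113) (nat_lit 10) (.e (nat_lit 434245) (nat_lit 28) (.e (nat_lit 573474) (nat_lit 12) (.e (nat_lit 57348) (nat_lit 0) (.e (nat_lit 7122) (nat_lit 382) .nil)))))))) (.g (nat_lit 4) .nil .nil))) 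
(.lf (nat_lit 48383) (.g (nat_lit 1903) (.e (nat_lit 1296) (nat_lit 96) (.e (nat_lit 131091) (nat_lit 2) (.e (nat_lit 90176) (nat_lit 15) (.e (nat_lit 188450) (nat_lit 23) (.e (nat_lit 212736) (nat_lit 4) .nil))))) .nil))))))))

noncomputable def tv671 : DT := (.nd (nat_lit 0) (.nd (nat_lit 1) (.nd (nat_lit 2) (.nd (nat_lit 3) (.nd (nat_lit 4) (.nd (nat_lit 5) 
(.lf (nat_lit 48384) (.g (nat_lit 1991) (.e (nat_lit 1296) (nat_lit 96) (.e (nat_lit 131091) (nat_lit 2) (.e (nat_lit 90176) (nat_lit 15) (.e (nat_lit 188450) (nat_lit 23) (.e (nat_lit 212736) (nat_lit 4) (.e (nat_lit 229545) (nat_lit 152) .nil)))))) (.g (nat_lit 4) .nil .nil))) 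
(.lf (nat_lit 48416) (.g (nat_lit 3108) (.e (nat_lit 1296) (nat_lit 96) (.e (nat_lit 131092) (nat_lit 2) (.e (nat_lit 90170) (nat_lit 13) (.e (nat_lit 172106) (nat_lit 10) (.e (nat_lit 434244) (nat_lit 28) (.e (nat_lit 573474) (nat_lit 12) (.e (nat_lit 57347) (nat_lit 0) (.e (nat_lit 7124) (nat_lit 382) .nil)))))))) (.g (nat_lit 4) .nil .nil)))) (.nd (nat_lit 5) 
(.lf (nat_lit 48400) (.g (nat_lit 2194) (.e (nat_lit 1296) (nat_lit 96) (.e (nat_lit 131091) (nat_lit 2) (.e (nat_lit 90178) (nat_lit 15) (.e (nat_lit 188440) (nat_lit 20) (.e (nat_lit 3307) (nat_lit 202) (.e (nat_lit 573473) (nat_lit 12) (.e (nat_lit 57353) (nat_lit 0) (.e (nat_lit 7124) (nat_lit 382) .nil)))))))) (.g (nat_lit 4) .nil .nil))) 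
(.lf (nat_lit 48432) (.g (nat_lit 4072) (.e (nat_lit 1296) (nat_lit 96) (.e (nat_lit 131093) (nat_lit 2) (.e (nat_lit 90170) (nat_lit 13) (.e (nat_lit 172106) (nat_lit 10) (.e (nat_lit 434244) (nat_lit 28) (.e (nat_lit 573474) (nat_lit 12) (.e (nat_lit 57348) (nat_lit 0) (.e (nat_lit 7125) (nat_lit 382) .nil)))))))) (.g (nat_lit 7) .nil .nil))))) (.nd (nat_lit 4) (.nd (nat_lit 5) 
(.lf (nat_lit 48392) (.g (nat_lit 2564) (.e (nat_lit 1296) (nat_lit 96) (.e (nat_lit 131091) (nat_lit 2) (.e (nat_lit 90176) (nat_lit 15) (.e (nat_lit 188450) (nat_lit 23) (.e (nat_lit 204821) (nat_lit 17) (.e (nat_lit 7936) (nat_lit 81) (.e (nat_lit 4441) (nat_lit 263) .nil))))))) (.g (nat_lit 5) .nil .nil))) 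
(.lf (nat_lit 48424) (.g (nat_lit 3061) (.e (nat_lit 1296) (nat_lit 96) (.e (nat_lit 131093) (nat_lit 2) (.e (nat_lit 90170) (nat_lit 13) (.e (nat_lit 172106) (nat_lit 10) (.e (nat_lit 434231) (nat_lit 23) (.e (nat_lit 540416) (nat_lit 18) (.e (nat_lit 164155) (nat_lit 152) .nil))))))) (.g (nat_lit 5) .nil .nil)))) (.nd (nat_lit 5) 
(.lf (nat_lit 48408) (.g (nat_lit 2056) (.e (nat_lit 1296) (nat_lit 96) (.e (nat_lit 131091) (nat_lit 2) (.e (nat_lit 90185) (nat_lit 17) (.e (nat_lit 237605) (nat_lit 9) (.e (nat_lit 426131) (nat_lit 3) (.e (nat_lit 212736) (nat_lit 1) (.e (nat_lit 164157) (nat_lit 152) .nil))))))) (.g (nat_lit 5) .nil .nil))) 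
(.lf (nat_lit 48440) (.g (nat_lit 3950) (.e (nat_lit 1296) (nat_lit 96) (.e (nat_lit 131093) (nat_lit 2) (.e (nat_lit 90170) (nat_lit 13) (.e (nat_lit 172113) (nat_lit 10) (.e (nat_lit 434245) (nat_lit 28) (.e (nat_lit 573473) (nat_lit 12) (.e (nat_lit 57347) (nat_lit 0) (.e (nat_lit 7124) (nat_lit 382) .nil)))))))) (.g (nat_lit 6) .nil .nil)))))) 
(.nd (nat_lit 3) (.nd (nat_lit 4) (.nd (nat_lit 5) 
(.lf (nat_lit 48388) (.g (nat_lit 2188) (.e (nat_lit 1296) (nat_lit 96) (.e (nat_lit 131091) (nat_lit 2) (.e (nat_lit 90176) (nat_lit 15) (.e (nat_lit 188450) (nat_lit 23) (.e (nat_lit 204817) (nat_lit 17) (.e (nat_lit 7936) (nat_lit 81) (.e (nat_lit 4441) (nat_lit 263) .nil))))))) (.g (nat_lit 4) .nil .nil))) 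
(.lf (nat_lit 48420) (.g (nat_lit 1912) (.e (nat_lit 1296) (nat_lit 96) (.e (nat_lit 131093) (nat_lit 2) (.e (nat_lit 90170) (nat_lit 13) (.e (nat_lit 172079) (nat_lit 7) (.e (nat_lit 409611) (nat_lit 10) (.e (nat_lit 602) (nat_lit 45) (.e (nat_lit 532504) (nat_lit 1) (.e (nat_lit 57830) (nat_lit 250) .nil)))))))) (.g (nat_lit 4) .nil .nil)))) (.nd (nat_lit 5) 
(.lf (nat_lit 48404) (.g (nat_lit 2322) (.e (nat_lit 1296) (nat_lit 96) (.e (nat_lit 131091) (nat_lit 2) (.e (nat_lit 90185) (nat_lit 17) (.e (nat_lit 237605) (nat_lit 9) (.e (nat_lit 426128) (nat_lit 2) (.e (nat_lit 196698) (nat_lit 19) (.e (nat_lit 57585) (nat_lit 61) (.e (nat_lit 5072) (nat_lit 292) .nil)))))))) (.g (nat_lit 5) .nil .nil))) 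
(.lf (nat_lit 48436) (.g (nat_lit 5102) (.e (nat_lit 1296) (nat_lit 96) (.e (nat_lit 131093) (nat_lit 2) (.e (nat_lit 90170) (nat_lit 13) (.e (nat_lit 172113) (nat_lit 10) (.e (nat_lit 434242) (nat_lit 28) (.e (nat_lit 573474) (nat_lit 12) (.e (nat_lit 57347) (nat_lit 0) (.e (nat_lit 7124) (nat_lit 382) .nil)))))))) (.g (nat_lit 7) .nil .nil))))) (.nd (nat_lit 4) (.nd (nat_lit 5) 
(.lf (nat_lit 48396) (.g (nat_lit 2149) (.e (nat_lit 1296) (nat_lit 96) (.e (nat_lit 131091) (nat_lit 2) (.e (nat_lit 90176) (nat_lit 15) (.e (nat_lit 188456) (nat_lit 25) (.e (nat_lit 245762) (nat_lit 0) (.e (nat_lit 2717) (nat_lit 171) (.e (nat_lit 229629) (nat_lit 226) .nil))))))) (.g (nat_lit 4) .nil .nil))) 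
(.lf (nat_lit 48428) (.g (nat_lit 3068) (.e (nat_lit 1296) (nat_lit 96) (.e (nat_lit 131093) (nat_lit 2) (.e (nat_lit 90170) (nat_lit 13) (.e (nat_lit 172106) (nat_lit 10) (.e (nat_lit 434244) (nat_lit 28) (.e (nat_lit 573468) (nat_lit 10) (.e (nat_lit 8194) (nat_lit 0) (.e (nat_lit 4443) (nat_lit 263) .nil)))))))) (.g (nat_lit 6) .nil .nil)))) (.nd (nat_lit 5) 
(.lf (nat_lit 48412) (.g (nat_lit 2075) (.e (nat_lit 1296) (nat_lit 96) (.e (nat_lit 131091) (nat_lit 2) (.e (nat_lit 90185) (nat_lit 17) (.e (nat_lit 237605) (nat_lit 9) (.e (nat_lit 426131) (nat_lit 3) (.e (nat_lit 204817) (nat_lit 17) (.e (nat_lit 7936) (nat_lit 81) (.e (nat_lit 4441) (nat_lit 263) .nil)))))))) (.g (nat_lit 5) .nil .nil))) 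
(.lf (nat_lit 48444) (.g (nat_lit 3392) (.e (nat_lit 1296) (nat_lit 96) (.e (nat_lit 131093) (nat_lit 2) (.e (nat_lit 90170) (nat_lit 13) (.e (nat_lit 172113) (nat_lit 10) (.e (nat_lit 434245) (nat_lit 28) (.e (nat_lit 573473) (nat_lit 12) (.e (nat_lit 57352) (nat_lit 0) (.e (nat_lit 7122) (nat_lit 382) .nil)))))))) (.g (nat_lit 5) .nil .nil))))))) 
(.nd (nat_lit 2) (.nd (nat_lit 3) (.nd (nat_lit 4) (.nd (nat_lit 5) 
(.lf (nat_lit 48386) (.g (nat_lit 1643) (.e (nat_lit 1296) (nat_lit 96) (.e (nat_lit 131091) (nat_lit 2) (.e (nat_lit 90176) (nat_lit 15) (.e (nat_lit 188450) (nat_lit 23) (.e (nat_lit 204817) (nat_lit 17) .nil))))) .nil)) 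
(.lf (nat_lit 48418) (.g (nat_lit 1773) (.e (nat_lit 1296) (nat_lit 96) (.e (nat_lit 131092) (nat_lit 2) (.e (nat_lit 90170) (nat_lit 13) (.e (nat_lit 172113) (nat_lit 10) (.e (nat_lit 434247) (nat_lit 28) .nil))))) .nil))) (.nd (nat_lit 5) 
(.lf (nat_lit 48402) (.g (nat_lit 974) (.e (nat_lit 1296) (nat_lit 96) (.e (nat_lit 131091) (nat_lit 2) (.e (nat_lit 90185) (nat_lit 17) (.e (nat_lit 237605) (nat_lit 9) .nil)))) .nil)) 
(.lf (nat_lit 48434) (.g (nat_lit 2043) (.e (nat_lit 1296) (nat_lit 96) (.e (nat_lit 131093) (nat_lit 2) (.e (nat_lit 90170) (nat_lit 13) (.e (nat_lit 172113) (nat_lit 10) (.e (nat_lit 434242) (nat_lit 28) .nil))))) .nil)))) (.nd (nat_lit 4) (.nd (nat_lit 5) 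
(.lf (nat_lit 48394) (.g (nat_lit 2701) (.e (nat_lit 1296) (nat_lit 96) (.e (nat_lit 131091) (nat_lit 2) (.e (nat_lit 90176) (nat_lit 15) (.e (nat_lit 188450) (nat_lit 23) (.e (nat_lit 204821) (nat_lit 17) (.e (nat_lit 7936) (nat_lit 81) (.e (nat_lit 4444) (nat_lit 263) .nil))))))) (.g (nat_lit 5) .nil .nil))) 
(.lf (nat_lit 48426) (.g (nat_lit 2739) (.e (nat_lit 1296) (nat_lit 96) (.e (nat_lit 131093) (nat_lit 2) (.e (nat_lit 90170) (nat_lit 13) (.e (nat_lit 172106) (nat_lit 10) (.e (nat_lit 434244) (nat_lit 28) (.e (nat_lit 573468) (nat_lit 10) (.e (nat_lit 8193) (nat_lit 0) (.e (nat_lit 4443) (nat_lit 263) .nil)))))))) (.g (nat_lit 6) .nil .nil)))) (.nd (nat_lit 5) 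
(.lf (nat_lit 48410) (.g (nat_lit 2047) (.e (nat_lit 1296) (nat_lit 96) (.e (nat_lit 131091) (nat_lit 2) (.e (nat_lit 90185) (nat_lit 17) (.e (nat_lit 237605) (nat_lit 9) (.e (nat_lit 426131) (nat_lit 3) (.e (nat_lit 212736) (nat_lit 1) (.e (nat_lit 164160) (nat_lit 152) .nil))))))) (.g (nat_lit 5) .nil .nil))) 
(.lf (nat_lit 48442) (.g (nat_lit 2993) (.e (nat_lit 1296) (nat_lit 96) (.e (nat_lit 131093) (nat_lit 2) (.e (nat_lit 90170) (nat_lit 13) (.e (nat_lit 172113) (nat_lit 10) (.e (nat_lit 434245) (nat_lit 28) (.e (nat_lit 573473) (nat_lit 12) (.e (nat_lit 57348) (nat_lit 0) (.e (nat_lit 7122) (nat_lit 382) .nil)))))))) (.g (nat_lit 5) .nil .nil)))))) 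
(.nd (nat_lit 3) (.nd (nat_lit 4) (.nd (nat_lit 5) 
(.lf (nat_lit 48390) (.g (nat_lit 1726) (.e (nat_lit 1296) (nat_lit 96) (.e (nat_lit 131091) (nat_lit 2) (.e (nat_lit 90176) (nat_lit 15) (.e (nat_lit 188450) (nat_lit 23) (.e (nat_lit 204821) (nat_lit 17) .nil))))) .nil)) 
(.lf (nat_lit 48422) (.g (nat_lit 4465) (.e (nat_lit 1296) (nat_lit 96) (.e (nat_lit 131093) (nat_lit 2) (.e (nat_lit 90170) (nat_lit 13) (.e (nat_lit 172106) (nat_lit 10) (.e (nat_lit 434231) (nat_lit 23) (.e (nat_lit 532481) (nat_lit 0) (.e (nat_lit 996) (nat_lit 81) (.e (nat_lit 4435) (nat_lit 263) .nil)))))))) (.g (nat_lit 6) .nil .nil)))) (.nd (nat_lit 5) 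
(.lf (nat_lit 48406) (.g (nat_lit 1683) (.e (nat_lit 1296) (nat_lit 96) (.e (nat_lit 131091) (nat_lit 2) (.e (nat_lit 90185) (nat_lit 17) (.e (nat_lit 237605) (nat_lit 9) (.e (nat_lit 426131) (nat_lit 3) (.e (nat_lit 212736) (nat_lit 1) (.e (nat_lit 164147) (nat_lit 152) .nil))))))) (.g (nat_lit 4) .nil .nil))) 
(.lf (nat_lit 48438) (.g (nat_lit 4997) (.e (nat_lit 1296) (nat_lit 96) (.e (nat_lit 131093) (nat_lit 2) (.e (nat_lit 90170) (nat_lit 13) (.e (nat_lit 172113) (nat_lit 10) (.e (nat_lit 434242) (nat_lit 28) (.e (nat_lit 573474) (nat_lit 12) (.e (nat_lit 57348) (nat_lit 0) (.e (nat_lit 7124) (nat_lit 382) .nil)))))))) (.g (nat_lit 7) .nil .nil))))) (.nd (nat_lit 4) (.nd (nat_lit 5) 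
(.lf (nat_lit 48398) (.g (nat_lit 2258) (.e (nat_lit 1296) (nat_lit 96) (.e (nat_lit 131091) (nat_lit 2) (.e (nat_lit 90178) (nat_lit 15) (.e (nat_lit 188440) (nat_lit 20) (.e (nat_lit 3307) (nat_lit 202) (.e (nat_lit 573467) (nat_lit 10) (.e (nat_lit 8194) (nat_lit 0) (.e (nat_lit 4443) (nat_lit 263) .nil)))))))) (.g (nat_lit 4) .nil .nil))) 
(.lf (nat_lit 48430) (.g (nat_lit 4163) (.e (nat_lit 1296) (nat_lit 96) (.e (nat_lit 131093) (nat_lit 2) (.e (nat_lit 90170) (nat_lit 13) (.e (nat_lit 172106) (nat_lit 10) (.e (nat_lit 434244) (nat_lit 28) (.e (nat_lit 573473) (nat_lit 12) (.e (nat_lit 57348) (nat_lit 0) (.e (nat_lit 7125) (nat_lit 382) .nil)))))))) (.g (nat_lit 8) .nil .nil)))) (.nd (nat_lit 5) 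
(.lf (nat_lit 48414) (.g (nat_lit 3029) (.e (nat_lit 1296) (nat_lit 96) (.e (nat_lit 131091) (nat_lit 2) (.e (nat_lit 90185) (nat_lit 17) (.e (nat_lit 237605) (nat_lit 9) (.e (nat_lit 426131) (nat_lit 3) (.e (nat_lit 204829) (nat_lit 18) (.e (nat_lit 65280) (nat_lit 221) .nil))))))) (.g (nat_lit 6) .nil .nil))) 
(.lf (nat_lit 48446) (.g (nat_lit 5326) (.e (nat_lit 1296) (nat_lit 96) (.e (nat_lit 131093) (nat_lit 2) (.e (nat_lit 90170) (nat_lit 13) (.e (nat_lit 172113) (nat_lit 10) (.e (nat_lit 434245) (nat_lit 28) (.e (nat_lit 573474) (nat_lit 12) (.e (nat_lit 57347) (nat_lit 0) (.e (nat_lit 7124) (nat_lit 382) .nil)))))))) (.g (nat_lit 8) .nil .nil)))))))) 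
(.nd (nat_lit 1) (.nd (nat_lit 2) (.nd (nat_lit 3) (.nd (nat_lit 4) (.nd (nat_lit 5) 
(.lf (nat_lit 48385) (.g (nat_lit 1669) (.e (nat_lit 1296) (nat_lit 96) (.e (nat_lit 131091) (nat_lit 2) (.e (nat_lit 90176) (nat_lit 15) (.e (nat_lit 188450) (nat_lit 23) (.e (nat_lit 204815) (nat_lit 17) .nil))))) .nil)) 
(.lf (nat_lit 48417) (.g (nat_lit 2221) (.e (nat_lit 1296) (nat_lit 96) (.e (nat_lit 131092) (nat_lit 2) (.e (nat_lit 90170) (nat_lit 13) (.e (nat_lit 172113) (nat_lit 10) (.e (nat_lit 434245) (nat_lit 28) (.e (nat_lit 573474) (nat_lit 12) (.e (nat_lit 57351) (nat_lit 0) (.e (nat_lit 7124) (nat_lit 382) .nil)))))))) (.g (nat_lit 4) .nil .nil)))) (.nd (nat_lit 5) 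
(.lf (nat_lit 48401) (.g (nat_lit 977) (.e (nat_lit 1296) (nat_lit 96) (.e (nat_lit 131091) (nat_lit 2) (.e (nat_lit 90185) (nat_lit 17) (.e (nat_lit 237601) (nat_lit 9) .nil)))) .nil)) 
(.lf (nat_lit 48433) (.g (nat_lit 3419) (.e (nat_lit 1296) (nat_lit 96) (.e (nat_lit 131093) (nat_lit 2) (.e (nat_lit 90170) (nat_lit 13) (.e (nat_lit 172106) (nat_lit 10) (.e (nat_lit 434244) (nat_lit 28) (.e (nat_lit 573474) (nat_lit 12) (.e (nat_lit 57353) (nat_lit 0) (.e (nat_lit 7125) (nat_lit 382) .nil)))))))) (.g (nat_lit 6) .nil .nil))))) (.nd (nat_lit 4) (.nd (nat_lit 5) 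
(.lf (nat_lit 48393) (.g (nat_lit 2027) (.e (nat_lit 1296) (nat_lit 96) (.e (nat_lit 131091) (nat_lit 2) (.e (nat_lit 90176) (nat_lit 15) (.e (nat_lit 188450) (nat_lit 23) (.e (nat_lit 204821) (nat_lit 17) (.e (nat_lit 7936) (nat_lit 81) (.e (nat_lit 4442) (nat_lit 263) .nil))))))) (.g (nat_lit 4) .nil .nil))) 
(.lf (nat_lit 48425) (.g (nat_lit 3126) (.e (nat_lit 1296) (nat_lit 96) (.e (nat_lit 131093) (nat_lit 2) (.e (nat_lit 90170) (nat_lit 13) (.e (nat_lit 172106) (nat_lit 10) (.e (nat_lit 434244) (nat_lit 28) (.e (nat_lit 573468) (nat_lit 10) (.e (nat_lit 8192) (nat_lit 0) (.e (nat_lit 4441) (nat_lit 263) .nil)))))))) (.g (nat_lit 6) .nil .nil)))) (.nd (nat_lit 5) 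
(.lf (nat_lit 48409) (.g (nat_lit 1604) (.e (nat_lit 1296) (nat_lit 96) (.e (nat_lit 131091) (nat_lit 2) (.e (nat_lit 90185) (nat_lit 17) (.e (nat_lit 237605) (nat_lit 9) (.e (nat_lit 426131) (nat_lit 3) (.e (nat_lit 212736) (nat_lit 1) (.e (nat_lit 164159) (nat_lit 152) .nil))))))) (.g (nat_lit 4) .nil .nil))) 
(.lf (nat_lit 48441) (.g (nat_lit 2745) (.e (nat_lit 1296) (nat_lit 96) (.e (nat_lit 131093) (nat_lit 2) (.e (nat_lit 90170) (nat_lit 13) (.e (nat_lit 172113) (nat_lit 10) (.e (nat_lit 434245) (nat_lit 28) (.e (nat_lit 573473) (nat_lit 12) (.e (nat_lit 57348) (nat_lit 0) (.e (nat_lit 7119) (nat_lit 382) .nil)))))))) (.g (nat_lit 4) .nil .nil)))))) 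
(.nd (nat_lit 3) (.nd (nat_lit 4) (.nd (nat_lit 5) 
(.lf (nat_lit 48389) (.g (nat_lit 2080) (.e (nat_lit 1296) (nat_lit 96) (.e (nat_lit 131091) (nat_lit 2) (.e (nat_lit 90176) (nat_lit 15) (.e (nat_lit 188450) (nat_lit 23) (.e (nat_lit 204819) (nat_lit 17) (.e (nat_lit 968) (nat_lit 81) (.e (nat_lit 4435) (nat_lit 263) .nil))))))) (.g (nat_lit 4) .nil .nil))) 
(.lf (nat_lit 48421) (.g (nat_lit 2793) (.e (nat_lit 1296) (nat_lit 96) (.e (nat_lit 131093) (nat_lit 2) (.e (nat_lit 90170) (nat_lit 13) (.e (nat_lit 172082) (nat_lit 7) (.e (nat_lit 409617) (nat_lit 10) (.e (nat_lit 604) (nat_lit 45) (.e (nat_lit 532501) (nat_lit 1) (.e (nat_lit 57830) (nat_lit 250) .nil)))))))) (.g (nat_lit 4) .nil .nil)))) (.nd (nat_lit 5) 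
(.lf (nat_lit 48405) (.g (nat_lit 1286) (.e (nat_lit 1296) (nat_lit 96) (.e (nat_lit 131091) (nat_lit 2) (.e (nat_lit 90185) (nat_lit 17) (.e (nat_lit 237605) (nat_lit 9) (.e (nat_lit 426131) (nat_lit 3) .nil))))) .nil)) 
(.lf (nat_lit 48437) (.g (nat_lit 5379) (.e (nat_lit 1296) (nat_lit 96) (.e (nat_lit 131093) (nat_lit 2) (.e (nat_lit 90170) (nat_lit 13) (.e (nat_lit 172113) (nat_lit 10) (.e (nat_lit 434242) (nat_lit 28) (.e (nat_lit 573474) (nat_lit 12) (.e (nat_lit 57347) (nat_lit 0) (.e (nat_lit 7125) (nat_lit 382) .nil)))))))) (.g (nat_lit 8) .nil .nil))))) (.nd (nat_lit 4) (.nd (nat_lit 5) 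
(.lf (nat_lit 48397) (.g (nat_lit 1765) (.e (nat_lit 1296) (nat_lit 96) (.e (nat_lit 131091) (nat_lit 2) (.e (nat_lit 90178) (nat_lit 15) (.e (nat_lit 188440) (nat_lit 20) (.e (nat_lit 3307) (nat_lit 202) .nil))))) .nil)) 
(.lf (nat_lit 48429) (.g (nat_lit 4190) (.e (nat_lit 1296) (nat_lit 96) (.e (nat_lit 131093) (nat_lit 2) (.e (nat_lit 90170) (nat_lit 13) (.e (nat_lit 172106) (nat_lit 10) (.e (nat_lit 434244) (nat_lit 28) (.e (nat_lit 573473) (nat_lit 12) (.e (nat_lit 57348) (nat_lit 0) (.e (nat_lit 7124) (nat_lit 382) .nil)))))))) (.g (nat_lit 7) .nil .nil)))) (.nd (nat_lit 5) 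
(.lf (nat_lit 48413) (.g (nat_lit 2522) (.e (nat_lit 1296) (nat_lit 96) (.e (nat_lit 131091) (nat_lit 2) (.e (nat_lit 90185) (nat_lit 17) (.e (nat_lit 237605) (nat_lit 9) (.e (nat_lit 426131) (nat_lit 3) (.e (nat_lit 204817) (nat_lit 17) (.e (nat_lit 7936) (nat_lit 81) (.e (nat_lit 4443) (nat_lit 263) .nil)))))))) (.g (nat_lit 5) .nil .nil))) 
(.lf (nat_lit 48445) (.g (nat_lit 3211) (.e (nat_lit 1296) (nat_lit 96) (.e (nat_lit 131093) (nat_lit 2) (.e (nat_lit 90170) (nat_lit 13) (.e (nat_lit 172113) (nat_lit 10) (.e (nat_lit 434245) (nat_lit 28) (.e (nat_lit 573474) (nat_lit 12) (.e (nat_lit 57347) (nat_lit 0) (.e (nat_lit 7119) (nat_lit 382) .nil)))))))) (.g (nat_lit 5) .nil .nil))))))) 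
(.nd (nat_lit 2) (.nd (nat_lit 3) (.nd (nat_lit 4) (.nd (nat_lit 5) 
(.lf (nat_lit 48387) (.g (nat_lit 2589) (.e (nat_lit 1296) (nat_lit 96) (.e (nat_lit 131091) (nat_lit 2) (.e (nat_lit 90176) (nat_lit 15) (.e (nat_lit 188450) (nat_lit 23) (.e (nat_lit 204817) (nat_lit 17) (.e (nat_lit 996) (nat_lit 81) (.e (nat_lit 4435) (nat_lit 263) .nil))))))) (.g (nat_lit 5) .nil .nil))) 
(.lf (nat_lit 48419) (.g (nat_lit 1676) (.e (nat_lit 1296) (nat_lit 96) (.e (nat_lit 131092) (nat_lit 2) (.e (nat_lit 90176) (nat_lit 15) (.e (nat_lit 188450) (nat_lit 23) (.e (nat_lit 212736) (nat_lit 1) .nil))))) .nil))) (.nd (nat_lit 5) 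
(.lf (nat_lit 48403) (.g (nat_lit 1383) (.e (nat_lit 1296) (nat_lit 96) (.e (nat_lit 131091) (nat_lit 2) (.e (nat_lit 90185) (nat_lit 17) (.e (nat_lit 237605) (nat_lit 9) (.e (nat_lit 426128) (nat_lit 2) .nil))))) .nil)) 
(.lf (nat_lit 48435) (.g (nat_lit 2062) (.e (nat_lit 1296) (nat_lit 96) (.e (nat_lit 131093) (nat_lit 2) (.e (nat_lit 90170) (nat_lit 13) (.e (nat_lit 172113) (nat_lit 10) (.e (nat_lit 434242) (nat_lit 28) (.e (nat_lit 573473) (nat_lit 12) (.e (nat_lit 57348) (nat_lit 0) (.e (nat_lit 7124) (nat_lit 382) .nil)))))))) (.g (nat_lit 4) .nil .nil))))) (.nd (nat_lit 4) (.nd (nat_lit 5) 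
(.lf (nat_lit 48395) (.g (nat_lit 2537) (.e (nat_lit 1296) (nat_lit 96) (.e (nat_lit 131091) (nat_lit 2) (.e (nat_lit 90176) (nat_lit 15) (.e (nat_lit 188450) (nat_lit 23) (.e (nat_lit 204830) (nat_lit 18) (.e (nat_lit 65280) (nat_lit 221) .nil)))))) (.g (nat_lit 5) .nil .nil))) 
(.lf (nat_lit 48427) (.g (nat_lit 2838) (.e (nat_lit 1296) (nat_lit 96) (.e (nat_lit 131093) (nat_lit 2) (.e (nat_lit 90170) (nat_lit 13) (.e (nat_lit 172106) (nat_lit 10) (.e (nat_lit 434244) (nat_lit 28) (.e (nat_lit 573468) (nat_lit 10) (.e (nat_lit 8194) (nat_lit 0) (.e (nat_lit 4441) (nat_lit 263) .nil)))))))) (.g (nat_lit 6) .nil .nil)))) (.nd (nat_lit 5) 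
(.lf (nat_lit 48411) (.g (nat_lit 2423) (.e (nat_lit 1296) (nat_lit 96) (.e (nat_lit 131091) (nat_lit 2) (.e (nat_lit 90185) (nat_lit 17) (.e (nat_lit 237605) (nat_lit 9) (.e (nat_lit 426131) (nat_lit 3) (.e (nat_lit 204817) (nat_lit 17) (.e (nat_lit 996) (nat_lit 81) (.e (nat_lit 4435) (nat_lit 263) .nil)))))))) (.g (nat_lit 5) .nil .nil))) 
(.lf (nat_lit 48443) (.g (nat_lit 4447) (.e (nat_lit 1296) (nat_lit 96) (.e (nat_lit 131093) (nat_lit 2) (.e (nat_lit 90170) (nat_lit 13) (.e (nat_lit 172113) (nat_lit 10) (.e (nat_lit 434245) (nat_lit 28) (.e (nat_lit 573473) (nat_lit 12) (.e (nat_lit 57348) (nat_lit 0) (.e (nat_lit 7124) (nat_lit 382) .nil)))))))) (.g (nat_lit 8) .nil .nil)))))) 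
(.nd (nat_lit 3) (.nd (nat_lit 4) (.nd (nat_lit 5) 
(.lf (nat_lit 48391) (.g (nat_lit 1899) (.e (nat_lit 1296) (nat_lit 96) (.e (nat_lit 131091) (nat_lit 2) (.e (nat_lit 90176) (nat_lit 15) (.e (nat_lit 188450) (nat_lit 23) (.e (nat_lit 204821) (nat_lit 17) (.e (nat_lit 7936) (nat_lit 81) (.e (nat_lit 4435) (nat_lit 263) .nil))))))) (.g (nat_lit 4) .nil .nil))) 
(.lf (nat_lit 48423) (.g (nat_lit 2902) (.e (nat_lit 1296) (nat_lit 96) (.e (nat_lit 131093) (nat_lit 2) (.e (nat_lit 90170) (nat_lit 13) (.e (nat_lit 172106) (nat_lit 10) (.e (nat_lit 434231) (nat_lit 23) (.e (nat_lit 532490) (nat_lit 0) (.e (nat_lit 7936) (nat_lit 81) (.e (nat_lit 4444) (nat_lit 263) .nil)))))))) (.g (nat_lit 6) .nil .nil)))) (.nd (nat_lit 5) 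
(.lf (nat_lit 48407) (.g (nat_lit 2316) (.e (nat_lit 1296) (nat_lit 96) (.e (nat_lit 131091) (nat_lit 2) (.e (nat_lit 90185) (nat_lit 17) (.e (nat_lit 237605) (nat_lit 9) (.e (nat_lit 426131) (nat_lit 3) (.e (nat_lit 212736) (nat_lit 1) (.e (nat_lit 164148) (nat_lit 152) .nil))))))) (.g (nat_lit 5) .nil .nil))) 
(.lf (nat_lit 48439) (.g (nat_lit 2237) (.e (nat_lit 1296) (nat_lit 96) (.e (nat_lit 131093) (nat_lit 2) (.e (nat_lit 90170) (nat_lit 13) (.e (nat_lit 172113) (nat_lit 10) (.e (nat_lit 434245) (nat_lit 28) .nil))))) .nil)))) (.nd (nat_lit 4) (.nd (nat_lit 5) 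
(.lf (nat_lit 48399) (.g (nat_lit 2229) (.e (nat_lit 1296) (nat_lit 96) (.e (nat_lit 131091) (nat_lit 2) (.e (nat_lit 90178) (nat_lit 15) (.e (nat_lit 188440) (nat_lit 20) (.e (nat_lit 3307) (nat_lit 202) (.e (nat_lit 573473) (nat_lit 12) (.e (nat_lit 57348) (nat_lit 0) (.e (nat_lit 7124) (nat_lit 382) .nil)))))))) (.g (nat_lit 4) .nil .nil))) 
(.lf (nat_lit 48431) (.g (nat_lit 5002) (.e (nat_lit 1296) (nat_lit 96) (.e (nat_lit 131093) (nat_lit 2) (.e (nat_lit 90170) (nat_lit 13) (.e (nat_lit 172106) (nat_lit 10) (.e (nat_lit 434244) (nat_lit 28) (.e (nat_lit 573474) (nat_lit 12) (.e (nat_lit 57347) (nat_lit 0) (.e (nat_lit 7125) (nat_lit 382) .nil)))))))) (.g (nat_lit 8) .nil .nil)))) (.nd (nat_lit 5) 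
(.lf (nat_lit 48415) (.g (nat_lit 2915) (.e (nat_lit 1296) (nat_lit 96) (.e (nat_lit 131091) (nat_lit 2) (.e (nat_lit 90185) (nat_lit 17) (.e (nat_lit 237605) (nat_lit 9) (.e (nat_lit 426131) (nat_lit 3) (.e (nat_lit 204830) (nat_lit 18) (.e (nat_lit 65280) (nat_lit 221) .nil))))))) (.g (nat_lit 6) .nil .nil))) 
(.lf (nat_lit 48447) (.g (nat_lit 3278) (.e (nat_lit 1296) (nat_lit 96) (.e (nat_lit 131093) (nat_lit 2) (.e (nat_lit 90170) (nat_lit 13) (.e (nat_lit 172113) (nat_lit 10) (.e (nat_lit 434245) (nat_lit 28) (.e (nat_lit 573474) (nat_lit 12) (.e (nat_lit 57348) (nat_lit 0) (.e (nat_lit 7119) (nat_lit 382) .nil)))))))) (.g (nat_lit 5) .nil .nil)))))))))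

noncomputable def tv672 : DT := (.nd (nat_lit 0) (.nd (nat_lit 1) (.nd (nat_lit 2) (.nd (nat_lit 3) (.nd (nat_lit 4) (.nd (nat_lit 5) 
(.lf (nat_lit 48448) (.g (nat_lit 5063) (.e (nat_lit 1296) (nat_lit 96) (.e (nat_lit 131093) (nat_lit 2) (.e (nat_lit 90170) (nat_lit 13) (.e (nat_lit 172113) (nat_lit 10) (.e (nat_lit 434245) (nat_lit 28) (.e (nat_lit 573474) (nat_lit 12) (.e (nat_lit 57348) (nat_lit 0) (.e (nat_lit 7124) (nat_lit 382) .nil)))))))) (.g (nat_lit 7) .nil .nil))) 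
(.lf (nat_lit 48480) (.g (nat_lit 3990) (.e (nat_lit 1296) (nat_lit 96) (.e (nat_lit 131093) (nat_lit 2) (.e (nat_lit 90170) (nat_lit 13) (.e (nat_lit 172113) (nat_lit 10) (.e (nat_lit 434248) (nat_lit 28) (.e (nat_lit 573475) (nat_lit 12) (.e (nat_lit 57351) (nat_lit 0) (.e (nat_lit 7122) (nat_lit 382) .nil)))))))) (.g (nat_lit 6) .nil .nil)))) (.nd (nat_lit 5) 
(.lf (nat_lit 48464) (.g (nat_lit 3166) (.e (nat_lit 1296) (nat_lit 96) (.e (nat_lit 131093) (nat_lit 2) (.e (nat_lit 90170) (nat_lit 13) (.e (nat_lit 172113) (nat_lit 10) (.e (nat_lit 434248) (nat_lit 28) (.e (nat_lit 573473) (nat_lit 12) (.e (nat_lit 57348) (nat_lit 0) (.e (nat_lit 7122) (nat_lit 382) .nil)))))))) (.g (nat_lit 5) .nil .nil))) 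
(.lf (nat_lit 48496) (.g (nat_lit 3130) (.e (nat_lit 1296) (nat_lit 96) (.e (nat_lit 131094) (nat_lit 2) (.e (nat_lit 90170) (nat_lit 13) (.e (nat_lit 172113) (nat_lit 10) (.e (nat_lit 434245) (nat_lit 28) (.e (nat_lit 573473) (nat_lit 12) (.e (nat_lit 57353) (nat_lit 0) (.e (nat_lit 7125) (nat_lit 382) .nil)))))))) (.g (nat_lit 5) .nil .nil))))) (.nd (nat_lit 4) (.nd (nat_lit 5) 
(.lf (nat_lit 48456) (.g (nat_lit 3359) (.e (nat_lit 1296) (nat_lit 96) (.e (nat_lit 131093) (nat_lit 2) (.e (nat_lit 90170) (nat_lit 13) (.e (nat_lit 172113) (nat_lit 10) (.e (nat_lit 434247) (nat_lit 28) (.e (nat_lit 573478) (nat_lit 12) (.e (nat_lit 57351) (nat_lit 0) (.e (nat_lit 7122) (nat_lit 382) .nil)))))))) (.g (nat_lit 5) .nil .nil))) 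
(.lf (nat_lit 48488) (.g (nat_lit 2492) (.e (nat_lit 1296) (nat_lit 96) (.e (nat_lit 131094) (nat_lit 2) (.e (nat_lit 90170) (nat_lit 13) (.e (nat_lit 172106) (nat_lit 10) (.e (nat_lit 434244) (nat_lit 28) (.e (nat_lit 573474) (nat_lit 12) (.e (nat_lit 57348) (nat_lit 0) (.e (nat_lit 7125) (nat_lit 382) .nil)))))))) (.g (nat_lit 4) .nil .nil)))) (.nd (nat_lit 5) 
(.lf (nat_lit 48472) (.g (nat_lit 3325) (.e (nat_lit 1296) (nat_lit 96) (.e (nat_lit 131093) (nat_lit 2) (.e (nat_lit 90170) (nat_lit 13) (.e (nat_lit 172113) (nat_lit 10) (.e (nat_lit 434248) (nat_lit 28) (.e (nat_lit 573475) (nat_lit 12) (.e (nat_lit 57347) (nat_lit 0) (.e (nat_lit 7119) (nat_lit 382) .nil)))))))) (.g (nat_lit 5) .nil .nil))) 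
(.lf (nat_lit 48504) (.g (nat_lit 2291) (.e (nat_lit 1296) (nat_lit 96) (.e (nat_lit 131094) (nat_lit 2) (.e (nat_lit 90170) (nat_lit 13) (.e (nat_lit 172113) (nat_lit 10) (.e (nat_lit 434247) (nat_lit 28) (.e (nat_lit 573477) (nat_lit 12) (.e (nat_lit 57351) (nat_lit 0) (.e (nat_lit 7125) (nat_lit 382) .nil)))))))) (.g (nat_lit 4) .nil .nil)))))) 
(.nd (nat_lit 3) (.nd (nat_lit 4) (.nd (nat_lit 5) 
(.lf (nat_lit 48452) (.g (nat_lit 2226) (.e (nat_lit 1296) (nat_lit 96) (.e (nat_lit 131093) (nat_lit 2) (.e (nat_lit 90170) (nat_lit 13) (.e (nat_lit 172113) (nat_lit 10) (.e (nat_lit 434247) (nat_lit 28) .nil))))) .nil)) 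
(.lf (nat_lit 48484) (.g (nat_lit 2320) (.e (nat_lit 1296) (nat_lit 96) (.e (nat_lit 131094) (nat_lit 2) (.e (nat_lit 90170) (nat_lit 13) (.e (nat_lit 172106) (nat_lit 10) (.e (nat_lit 434244) (nat_lit 28) .nil))))) .nil))) (.nd (nat_lit 5) 
(.lf (nat_lit 48468) (.g (nat_lit 2987) (.e (nat_lit 1296) (nat_lit 96) (.e (nat_lit 131093) (nat_lit 2) (.e (nat_lit 90170) (nat_lit 13) (.e (nat_lit 172113) (nat_lit 10) (.e (nat_lit 434248) (nat_lit 28) (.e (nat_lit 573473) (nat_lit 12) (.e (nat_lit 57353) (nat_lit 0) (.e (nat_lit 7122) (nat_lit 382) .nil)))))))) (.g (nat_lit 5) .nil .nil))) 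
(.lf (nat_lit 48500) (.g (nat_lit 2647) (.e (nat_lit 1296) (nat_lit 96) (.e (nat_lit 131094) (nat_lit 2) (.e (nat_lit 90170) (nat_lit 13) (.e (nat_lit 172113) (nat_lit 10) (.e (nat_lit 434245) (nat_lit 28) (.e (nat_lit 573474) (nat_lit 12) (.e (nat_lit 57351) (nat_lit 0) (.e (nat_lit 7122) (nat_lit 382) .nil)))))))) (.g (nat_lit 4) .nil .nil))))) (.nd (nat_lit 4) (.nd (nat_lit 5) 
(.lf (nat_lit 48460) (.g (nat_lit 4199) (.e (nat_lit 1296) (nat_lit 96) (.e (nat_lit 131093) (nat_lit 2) (.e (nat_lit 90170) (nat_lit 13) (.e (nat_lit 172113) (nat_lit 10) (.e (nat_lit 434247) (nat_lit 28) (.e (nat_lit 573478) (nat_lit 12) (.e (nat_lit 57353) (nat_lit 0) (.e (nat_lit 7125) (nat_lit 382) .nil)))))))) (.g (nat_lit 8) .nil .nil))) 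
(.lf (nat_lit 48492) (.g (nat_lit 3010) (.e (nat_lit 1296) (nat_lit 96) (.e (nat_lit 131094) (nat_lit 2) (.e (nat_lit 90170) (nat_lit 13) (.e (nat_lit 172113) (nat_lit 10) (.e (nat_lit 434245) (nat_lit 28) (.e (nat_lit 573473) (nat_lit 12) (.e (nat_lit 57347) (nat_lit 0) (.e (nat_lit 7125) (nat_lit 382) .nil)))))))) (.g (nat_lit 5) .nil .nil)))) (.nd (nat_lit 5) 
(.lf (nat_lit 48476) (.g (nat_lit 3262) (.e (nat_lit 1296) (nat_lit 96) (.e (nat_lit 131093) (nat_lit 2) (.e (nat_lit 90170) (nat_lit 13) (.e (nat_lit 172113) (nat_lit 10) (.e (nat_lit 434248) (nat_lit 28) (.e (nat_lit 573475) (nat_lit 12) (.e (nat_lit 57348) (nat_lit 0) (.e (nat_lit 7122) (nat_lit 382) .nil)))))))) (.g (nat_lit 5) .nil .nil))) 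
(.lf (nat_lit 48508) (.g (nat_lit 2979) (.e (nat_lit 1296) (nat_lit 96) (.e (nat_lit 131094) (nat_lit 2) (.e (nat_lit 90170) (nat_lit 13) (.e (nat_lit 172113) (nat_lit 10) (.e (nat_lit 434247) (nat_lit 28) (.e (nat_lit 573478) (nat_lit 12) (.e (nat_lit 57353) (nat_lit 0) (.e (nat_lit 7125) (nat_lit 382) .nil)))))))) (.g (nat_lit 5) .nil .nil))))))) 
(.nd (nat_lit 2) (.nd (nat_lit 3) (.nd (nat_lit 4) (.nd (nat_lit 5) 
(.lf (nat_lit 48450) (.g (nat_lit 2559) (.e (nat_lit 1296) (nat_lit 96) (.e (nat_lit 131093) (nat_lit 2) (.e (nat_lit 90170) (nat_lit 13) (.e (nat_lit 172113) (nat_lit 10) (.e (nat_lit 434245) (nat_lit 28) (.e (nat_lit 573474) (nat_lit 12) (.e (nat_lit 57351) (nat_lit 0) (.e (nat_lit 7119) (nat_lit 382) .nil)))))))) (.g (nat_lit 4) .nil .nil))) 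
(.lf (nat_lit 48482) (.g (nat_lit 4326) (.e (nat_lit 1296) (nat_lit 96) (.e (nat_lit 131093) (nat_lit 2) (.e (nat_lit 90170) (nat_lit 13) (.e (nat_lit 172113) (nat_lit 10) (.e (nat_lit 434248) (nat_lit 28) (.e (nat_lit 573475) (nat_lit 12) (.e (nat_lit 57353) (nat_lit 0) (.e (nat_lit 7124) (nat_lit 382) .nil)))))))) (.g (nat_lit 7) .nil .nil)))) (.nd (nat_lit 5) 
(.lf (nat_lit 48466) (.g (nat_lit 3545) (.e (nat_lit 1296) (nat_lit 96) (.e (nat_lit 131093) (nat_lit 2) (.e (nat_lit 90170) (nat_lit 13) (.e (nat_lit 172113) (nat_lit 10) (.e (nat_lit 434248) (nat_lit 28) (.e (nat_lit 573473) (nat_lit 12) (.e (nat_lit 57352) (nat_lit 0) (.e (nat_lit 7122) (nat_lit 382) .nil)))))))) (.g (nat_lit 6) .nil .nil))) 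
(.lf (nat_lit 48498) (.g (nat_lit 3944) (.e (nat_lit 1296) (nat_lit 96) (.e (nat_lit 131094) (nat_lit 2) (.e (nat_lit 90170) (nat_lit 13) (.e (nat_lit 172113) (nat_lit 10) (.e (nat_lit 434245) (nat_lit 28) (.e (nat_lit 573474) (nat_lit 12) (.e (nat_lit 57347) (nat_lit 0) (.e (nat_lit 7124) (nat_lit 382) .nil)))))))) (.g (nat_lit 6) .nil .nil))))) (.nd (nat_lit 4) (.nd (nat_lit 5) 
(.lf (nat_lit 48458) (.g (nat_lit 2347) (.e (nat_lit 1296) (nat_lit 96) (.e (nat_lit 131093) (nat_lit 2) (.e (nat_lit 90170) (nat_lit 13) (.e (nat_lit 172113) (nat_lit 10) (.e (nat_lit 434247) (nat_lit 28) (.e (nat_lit 573478) (nat_lit 12) (.e (nat_lit 57352) (nat_lit 0) (.e (nat_lit 7125) (nat_lit 382) .nil)))))))) (.g (nat_lit 4) .nil .nil))) 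
(.lf (nat_lit 48490) (.g (nat_lit 2447) (.e (nat_lit 1296) (nat_lit 96) (.e (nat_lit 131094) (nat_lit 2) (.e (nat_lit 90170) (nat_lit 13) (.e (nat_lit 172106) (nat_lit 10) (.e (nat_lit 434244) (nat_lit 28) (.e (nat_lit 573474) (nat_lit 12) (.e (nat_lit 57351) (nat_lit 0) (.e (nat_lit 7125) (nat_lit 382) .nil)))))))) (.g (nat_lit 4) .nil .nil)))) (.nd (nat_lit 5) 
(.lf (nat_lit 48474) (.g (nat_lit 5687) (.e (nat_lit 1296) (nat_lit 96) (.e (nat_lit 131093) (nat_lit 2) (.e (nat_lit 90170) (nat_lit 13) (.e (nat_lit 172113) (nat_lit 10) (.e (nat_lit 434248) (nat_lit 28) (.e (nat_lit 573475) (nat_lit 12) (.e (nat_lit 57347) (nat_lit 0) (.e (nat_lit 7125) (nat_lit 382) .nil)))))))) (.g (nat_lit 0) .nil .nil))) 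
(.lf (nat_lit 48506) (.g (nat_lit 3163) (.e (nat_lit 1296) (nat_lit 96) (.e (nat_lit 131094) (nat_lit 2) (.e (nat_lit 90170) (nat_lit 13) (.e (nat_lit 172113) (nat_lit 10) (.e (nat_lit 434247) (nat_lit 28) (.e (nat_lit 573477) (nat_lit 12) (.e (nat_lit 57353) (nat_lit 0) (.e (nat_lit 7124) (nat_lit 382) .nil)))))))) (.g (nat_lit 5) .nil .nil)))))) 
(.nd (nat_lit 3) (.nd (nat_lit 4) (.nd (nat_lit 5) 
(.lf (nat_lit 48454) (.g (nat_lit 3489) (.e (nat_lit 1296) (nat_lit 96) (.e (nat_lit 131093) (nat_lit 2) (.e (nat_lit 90170) (nat_lit 13) (.e (nat_lit 172113) (nat_lit 10) (.e (nat_lit 434247) (nat_lit 28) (.e (nat_lit 573477) (nat_lit 12) (.e (nat_lit 57351) (nat_lit 0) (.e (nat_lit 7124) (nat_lit 382) .nil)))))))) (.g (nat_lit 5) .nil .nil))) 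
(.lf (nat_lit 48486) (.g (nat_lit 2583) (.e (nat_lit 1296) (nat_lit 96) (.e (nat_lit 131094) (nat_lit 2) (.e (nat_lit 90170) (nat_lit 13) (.e (nat_lit 172106) (nat_lit 10) (.e (nat_lit 434244) (nat_lit 28) (.e (nat_lit 573473) (nat_lit 12) (.e (nat_lit 57348) (nat_lit 0) (.e (nat_lit 7125) (nat_lit 382) .nil)))))))) (.g (nat_lit 4) .nil .nil)))) (.nd (nat_lit 5) 
(.lf (nat_lit 48470) (.g (nat_lit 2533) (.e (nat_lit 1296) (nat_lit 96) (.e (nat_lit 131093) (nat_lit 2) (.e (nat_lit 90170) (nat_lit 13) (.e (nat_lit 172113) (nat_lit 10) (.e (nat_lit 434248) (nat_lit 28) (.e (nat_lit 573475) (nat_lit 12) (.e (nat_lit 57344) (nat_lit 0) (.e (nat_lit 7124) (nat_lit 382) .nil)))))))) (.g (nat_lit 4) .nil .nil))) 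
(.lf (nat_lit 48502) (.g (nat_lit 2487) (.e (nat_lit 1296) (nat_lit 96) (.e (nat_lit 131094) (nat_lit 2) (.e (nat_lit 90170) (nat_lit 13) (.e (nat_lit 172113) (nat_lit 10) (.e (nat_lit 434245) (nat_lit 28) (.e (nat_lit 573474) (nat_lit 12) (.e (nat_lit 57353) (nat_lit 0) (.e (nat_lit 7124) (nat_lit 382) .nil)))))))) (.g (nat_lit 4) .nil .nil))))) (.nd (nat_lit 4) (.nd (nat_lit 5) 
(.lf (nat_lit 48462) (.g (nat_lit 4041) (.e (nat_lit 1296) (nat_lit 96) (.e (nat_lit 131093) (nat_lit 2) (.e (nat_lit 90170) (nat_lit 13) (.e (nat_lit 172113) (nat_lit 10) (.e (nat_lit 434248) (nat_lit 28) (.e (nat_lit 573473) (nat_lit 12) (.e (nat_lit 57347) (nat_lit 0) (.e (nat_lit 7124) (nat_lit 382) .nil)))))))) (.g (nat_lit 6) .nil .nil))) 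
(.lf (nat_lit 48494) (.g (nat_lit 3207) (.e (nat_lit 1296) (nat_lit 96) (.e (nat_lit 131094) (nat_lit 2) (.e (nat_lit 90170) (nat_lit 13) (.e (nat_lit 172113) (nat_lit 10) (.e (nat_lit 434245) (nat_lit 28) (.e (nat_lit 573473) (nat_lit 12) (.e (nat_lit 57348) (nat_lit 0) (.e (nat_lit 7125) (nat_lit 382) .nil)))))))) (.g (nat_lit 5) .nil .nil)))) (.nd (nat_lit 5) 
(.lf (nat_lit 48478) (.g (nat_lit 4794) (.e (nat_lit 1296) (nat_lit 96) (.e (nat_lit 131093) (nat_lit 2) (.e (nat_lit 90170) (nat_lit 13) (.e (nat_lit 172113) (nat_lit 10) (.e (nat_lit 434248) (nat_lit 28) (.e (nat_lit 573475) (nat_lit 12) (.e (nat_lit 57348) (nat_lit 0) (.e (nat_lit 7125) (nat_lit 382) .nil)))))))) (.g (nat_lit 8) .nil .nil))) 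
(.lf (nat_lit 48510) (.g (nat_lit 3074) (.e (nat_lit 1296) (nat_lit 96) (.e (nat_lit 131094) (nat_lit 2) (.e (nat_lit 90170) (nat_lit 13) (.e (nat_lit 172113) (nat_lit 10) (.e (nat_lit 434248) (nat_lit 28) (.e (nat_lit 573473) (nat_lit 12) (.e (nat_lit 57347) (nat_lit 0) (.e (nat_lit 7125) (nat_lit 382) .nil)))))))) (.g (nat_lit 5) .nil .nil)))))))) 
(.nd (nat_lit 1) (.nd (nat_lit 2) (.nd (nat_lit 3) (.nd (nat_lit 4) (.nd (nat_lit 5) 
(.lf (nat_lit 48449) (.g (nat_lit 5225) (.e (nat_lit 1296) (nat_lit 96) (.e (nat_lit 131093) (nat_lit 2) (.e (nat_lit 90170) (nat_lit 13) (.e (nat_lit 172113) (nat_lit 10) (.e (nat_lit 434245) (nat_lit 28) (.e (nat_lit 573474) (nat_lit 12) (.e (nat_lit 57348) (nat_lit 0) (.e (nat_lit 7125) (nat_lit 382) .nil)))))))) (.g (nat_lit 8) .nil .nil))) 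
(.lf (nat_lit 48481) (.g (nat_lit 2680) (.e (nat_lit 1296) (nat_lit 96) (.e (nat_lit 131093) (nat_lit 2) (.e (nat_lit 90170) (nat_lit 13) (.e (nat_lit 172113) (nat_lit 10) (.e (nat_lit 434248) (nat_lit 28) (.e (nat_lit 573475) (nat_lit 12) (.e (nat_lit 57353) (nat_lit 0) (.e (nat_lit 7122) (nat_lit 382) .nil)))))))) (.g (nat_lit 4) .nil .nil)))) (.nd (nat_lit 5) 
(.lf (nat_lit 48465) (.g (nat_lit 4612) (.e (nat_lit 1296) (nat_lit 96) (.e (nat_lit 131093) (nat_lit 2) (.e (nat_lit 90170) (nat_lit 13) (.e (nat_lit 172113) (nat_lit 10) (.e (nat_lit 434248) (nat_lit 28) (.e (nat_lit 573473) (nat_lit 12) (.e (nat_lit 57348) (nat_lit 0) (.e (nat_lit 7124) (nat_lit 382) .nil)))))))) (.g (nat_lit 8) .nil .nil))) 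
(.lf (nat_lit 48497) (.g (nat_lit 2319) (.e (nat_lit 1296) (nat_lit 96) (.e (nat_lit 131094) (nat_lit 2) (.e (nat_lit 90170) (nat_lit 13) (.e (nat_lit 172113) (nat_lit 10) (.e (nat_lit 434245) (nat_lit 28) (.e (nat_lit 573474) (nat_lit 12) (.e (nat_lit 57347) (nat_lit 0) (.e (nat_lit 7122) (nat_lit 382) .nil)))))))) (.g (nat_lit 4) .nil .nil))))) (.nd (nat_lit 4) (.nd (nat_lit 5) 
(.lf (nat_lit 48457) (.g (nat_lit 3019) (.e (nat_lit 1296) (nat_lit 96) (.e (nat_lit 131093) (nat_lit 2) (.e (nat_lit 90170) (nat_lit 13) (.e (nat_lit 172113) (nat_lit 10) (.e (nat_lit 434247) (nat_lit 28) (.e (nat_lit 573478) (nat_lit 12) (.e (nat_lit 57352) (nat_lit 0) (.e (nat_lit 7122) (nat_lit 382) .nil)))))))) (.g (nat_lit 5) .nil .nil))) 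
(.lf (nat_lit 48489) (.g (nat_lit 2355) (.e (nat_lit 1296) (nat_lit 96) (.e (nat_lit 131094) (nat_lit 2) (.e (nat_lit 90170) (nat_lit 13) (.e (nat_lit 172106) (nat_lit 10) (.e (nat_lit 434244) (nat_lit 28) (.e (nat_lit 573474) (nat_lit 12) (.e (nat_lit 57351) (nat_lit 0) (.e (nat_lit 7124) (nat_lit 382) .nil)))))))) (.g (nat_lit 4) .nil .nil)))) (.nd (nat_lit 5) 
(.lf (nat_lit 48473) (.g (nat_lit 5470) (.e (nat_lit 1296) (nat_lit 96) (.e (nat_lit 131093) (nat_lit 2) (.e (nat_lit 90170) (nat_lit 13) (.e (nat_lit 172113) (nat_lit 10) (.e (nat_lit 434248) (nat_lit 28) (.e (nat_lit 573475) (nat_lit 12) (.e (nat_lit 57347) (nat_lit 0) (.e (nat_lit 7124) (nat_lit 382) .nil)))))))) (.g (nat_lit 8) .nil .nil))) 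
(.lf (nat_lit 48505) (.g (nat_lit 2346) (.e (nat_lit 1296) (nat_lit 96) (.e (nat_lit 131094) (nat_lit 2) (.e (nat_lit 90170) (nat_lit 13) (.e (nat_lit 172113) (nat_lit 10) (.e (nat_lit 434247) (nat_lit 28) (.e (nat_lit 573477) (nat_lit 12) (.e (nat_lit 57352) (nat_lit 0) (.e (nat_lit 7122) (nat_lit 382) .nil)))))))) (.g (nat_lit 4) .nil .nil)))))) 
(.nd (nat_lit 3) (.nd (nat_lit 4) (.nd (nat_lit 5) 
(.lf (nat_lit 48453) (.g (nat_lit 2668) (.e (nat_lit 1296) (nat_lit 96) (.e (nat_lit 131093) (nat_lit 2) (.e (nat_lit 90170) (nat_lit 13) (.e (nat_lit 172113) (nat_lit 10) (.e (nat_lit 434247) (nat_lit 28) (.e (nat_lit 573477) (nat_lit 12) (.e (nat_lit 57351) (nat_lit 0) (.e (nat_lit 7122) (nat_lit 382) .nil)))))))) (.g (nat_lit 4) .nil .nil))) 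
(.lf (nat_lit 48485) (.g (nat_lit 2446) (.e (nat_lit 1296) (nat_lit 96) (.e (nat_lit 131094) (nat_lit 2) (.e (nat_lit 90170) (nat_lit 13) (.e (nat_lit 172106) (nat_lit 10) (.e (nat_lit 434244) (nat_lit 28) (.e (nat_lit 573473) (nat_lit 12) (.e (nat_lit 57348) (nat_lit 0) (.e (nat_lit 7124) (nat_lit 382) .nil)))))))) (.g (nat_lit 4) .nil .nil)))) (.nd (nat_lit 5) 
(.lf (nat_lit 48469) (.g (nat_lit 2595) (.e (nat_lit 1296) (nat_lit 96) (.e (nat_lit 131093) (nat_lit 2) (.e (nat_lit 90170) (nat_lit 13) (.e (nat_lit 172113) (nat_lit 10) (.e (nat_lit 434248) (nat_lit 28) (.e (nat_lit 573475) (nat_lit 12) (.e (nat_lit 57344) (nat_lit 0) (.e (nat_lit 7122) (nat_lit 382) .nil)))))))) (.g (nat_lit 4) .nil .nil))) 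
(.lf (nat_lit 48501) (.g (nat_lit 3352) (.e (nat_lit 1296) (nat_lit 96) (.e (nat_lit 131094) (nat_lit 2) (.e (nat_lit 90170) (nat_lit 13) (.e (nat_lit 172113) (nat_lit 10) (.e (nat_lit 434245) (nat_lit 28) (.e (nat_lit 573474) (nat_lit 12) (.e (nat_lit 57351) (nat_lit 0) (.e (nat_lit 7124) (nat_lit 382) .nil)))))))) (.g (nat_lit 5) .nil .nil))))) (.nd (nat_lit 4) (.nd (nat_lit 5) 
(.lf (nat_lit 48461) (.g (nat_lit 2147) (.e (nat_lit 1296) (nat_lit 96) (.e (nat_lit 131093) (nat_lit 2) (.e (nat_lit 90170) (nat_lit 13) (.e (nat_lit 172113) (nat_lit 10) (.e (nat_lit 434248) (nat_lit 28) .nil))))) .nil)) 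
(.lf (nat_lit 48493) (.g (nat_lit 3065) (.e (nat_lit 1296) (nat_lit 96) (.e (nat_lit 131094) (nat_lit 2) (.e (nat_lit 90170) (nat_lit 13) (.e (nat_lit 172113) (nat_lit 10) (.e (nat_lit 434245) (nat_lit 28) (.e (nat_lit 573473) (nat_lit 12) (.e (nat_lit 57348) (nat_lit 0) (.e (nat_lit 7124) (nat_lit 382) .nil)))))))) (.g (nat_lit 5) .nil .nil)))) (.nd (nat_lit 5) 
(.lf (nat_lit 48477) (.g (nat_lit 4787) (.e (nat_lit 1296) (nat_lit 96) (.e (nat_lit 131093) (nat_lit 2) (.e (nat_lit 90170) (nat_lit 13) (.e (nat_lit 172113) (nat_lit 10) (.e (nat_lit 434248) (nat_lit 28) (.e (nat_lit 573475) (nat_lit 12) (.e (nat_lit 57348) (nat_lit 0) (.e (nat_lit 7124) (nat_lit 382) .nil)))))))) (.g (nat_lit 8) .nil .nil))) 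
(.lf (nat_lit 48509) (.g (nat_lit 2100) (.e (nat_lit 1296) (nat_lit 96) (.e (nat_lit 131094) (nat_lit 2) (.e (nat_lit 90170) (nat_lit 13) (.e (nat_lit 172113) (nat_lit 10) (.e (nat_lit 434248) (nat_lit 28) .nil))))) .nil)))))) (.nd (nat_lit 2) (.nd (nat_lit 3) (.nd (nat_lit 4) (.nd (nat_lit 5) 
(.lf (nat_lit 48451) (.g (nat_lit 3913) (.e (nat_lit 1296) (nat_lit 96) (.e (nat_lit 131093) (nat_lit 2) (.e (nat_lit 90170) (nat_lit 13) (.e (nat_lit 172113) (nat_lit 10) (.e (nat_lit 434245) (nat_lit 28) (.e (nat_lit 573474) (nat_lit 12) (.e (nat_lit 57351) (nat_lit 0) (.e (nat_lit 7122) (nat_lit 382) .nil)))))))) (.g (nat_lit 6) .nil .nil))) 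
(.lf (nat_lit 48483) (.g (nat_lit 1843) (.e (nat_lit 1296) (nat_lit 96) (.e (nat_lit 131094) (nat_lit 2) (.e (nat_lit 90170) (nat_lit 13) (.e (nat_lit 172079) (nat_lit 7) (.e (nat_lit 409611) (nat_lit 10) .nil))))) .nil))) (.nd (nat_lit 5) 
(.lf (nat_lit 48467) (.g (nat_lit 2244) (.e (nat_lit 1296) (nat_lit 96) (.e (nat_lit 131093) (nat_lit 2) (.e (nat_lit 90170) (nat_lit 13) (.e (nat_lit 172113) (nat_lit 10) (.e (nat_lit 434248) (nat_lit 28) (.e (nat_lit 573473) (nat_lit 12) (.e (nat_lit 57353) (nat_lit 0) (.e (nat_lit 7119) (nat_lit 382) .nil)))))))) (.g (nat_lit 4) .nil .nil))) 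
(.lf (nat_lit 48499) (.g (nat_lit 2262) (.e (nat_lit 1296) (nat_lit 96) (.e (nat_lit 131094) (nat_lit 2) (.e (nat_lit 90170) (nat_lit 13) (.e (nat_lit 172113) (nat_lit 10) (.e (nat_lit 434245) (nat_lit 28) (.e (nat_lit 573474) (nat_lit 12) (.e (nat_lit 57348) (nat_lit 0) (.e (nat_lit 7122) (nat_lit 382) .nil)))))))) (.g (nat_lit 4) .nil .nil))))) (.nd (nat_lit 4) (.nd (nat_lit 5) 
(.lf (nat_lit 48459) (.g (nat_lit 2476) (.e (nat_lit 1296) (nat_lit 96) (.e (nat_lit 131093) (nat_lit 2) (.e (nat_lit 90170) (nat_lit 13) (.e (nat_lit 172113) (nat_lit 10) (.e (nat_lit 434247) (nat_lit 28) (.e (nat_lit 573478) (nat_lit 12) (.e (nat_lit 57353) (nat_lit 0) (.e (nat_lit 7122) (nat_lit 382) .nil)))))))) (.g (nat_lit 4) .nil .nil))) 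
(.lf (nat_lit 48491) (.g (nat_lit 2568) (.e (nat_lit 1296) (nat_lit 96) (.e (nat_lit 131094) (nat_lit 2) (.e (nat_lit 90170) (nat_lit 13) (.e (nat_lit 172113) (nat_lit 10) (.e (nat_lit 434245) (nat_lit 28) (.e (nat_lit 573473) (nat_lit 12) (.e (nat_lit 57347) (nat_lit 0) (.e (nat_lit 7124) (nat_lit 382) .nil)))))))) (.g (nat_lit 4) .nil .nil)))) (.nd (nat_lit 5) 
(.lf (nat_lit 48475) (.g (nat_lit 3012) (.e (nat_lit 1296) (nat_lit 96) (.e (nat_lit 131093) (nat_lit 2) (.e (nat_lit 90170) (nat_lit 13) (.e (nat_lit 172113) (nat_lit 10) (.e (nat_lit 434248) (nat_lit 28) (.e (nat_lit 573475) (nat_lit 12) (.e (nat_lit 57348) (nat_lit 0) (.e (nat_lit 7119) (nat_lit 382) .nil)))))))) (.g (nat_lit 5) .nil .nil))) 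
(.lf (nat_lit 48507) (.g (nat_lit 3352) (.e (nat_lit 1296) (nat_lit 96) (.e (nat_lit 131094) (nat_lit 2) (.e (nat_lit 90170) (nat_lit 13) (.e (nat_lit 172113) (nat_lit 10) (.e (nat_lit 434247) (nat_lit 28) (.e (nat_lit 573477) (nat_lit 12) (.e (nat_lit 57353) (nat_lit 0) (.e (nat_lit 7125) (nat_lit 382) .nil)))))))) (.g (nat_lit 5) .nil .nil)))))) 
(.nd (nat_lit 3) (.nd (nat_lit 4) (.nd (nat_lit 5) 
(.lf (nat_lit 48455) (.g (nat_lit 3624) (.e (nat_lit 1296) (nat_lit 96) (.e (nat_lit 131093) (nat_lit 2) (.e (nat_lit 90170) (nat_lit 13) (.e (nat_lit 172113) (nat_lit 10) (.e (nat_lit 434247) (nat_lit 28) (.e (nat_lit 573477) (nat_lit 12) (.e (nat_lit 57352) (nat_lit 0) (.e (nat_lit 7122) (nat_lit 382) .nil)))))))) (.g (nat_lit 5) .nil .nil))) 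
(.lf (nat_lit 48487) (.g (nat_lit 2496) (.e (nat_lit 1296) (nat_lit 96) (.e (nat_lit 131094) (nat_lit 2) (.e (nat_lit 90170) (nat_lit 13) (.e (nat_lit 172106) (nat_lit 10) (.e (nat_lit 434244) (nat_lit 28) (.e (nat_lit 573473) (nat_lit 12) (.e (nat_lit 57353) (nat_lit 0) (.e (nat_lit 7125) (nat_lit 382) .nil)))))))) (.g (nat_lit 4) .nil .nil)))) (.nd (nat_lit 5) 
(.lf (nat_lit 48471) (.g (nat_lit 2302) (.e (nat_lit 1296) (nat_lit 96) (.e (nat_lit 131093) (nat_lit 2) (.e (nat_lit 90170) (nat_lit 13) (.e (nat_lit 172113) (nat_lit 10) (.e (nat_lit 434248) (nat_lit 28) (.e (nat_lit 573475) (nat_lit 12) (.e (nat_lit 57345) (nat_lit 0) (.e (nat_lit 7125) (nat_lit 382) .nil)))))))) (.g (nat_lit 4) .nil .nil))) 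
(.lf (nat_lit 48503) (.g (nat_lit 2186) (.e (nat_lit 1296) (nat_lit 96) (.e (nat_lit 131094) (nat_lit 2) (.e (nat_lit 90170) (nat_lit 13) (.e (nat_lit 172113) (nat_lit 10) (.e (nat_lit 434247) (nat_lit 28) .nil))))) .nil)))) (.nd (nat_lit 4) (.nd (nat_lit 5) 
(.lf (nat_lit 48463) (.g (nat_lit 4325) (.e (nat_lit 1296) (nat_lit 96) (.e (nat_lit 131093) (nat_lit 2) (.e (nat_lit 90170) (nat_lit 13) (.e (nat_lit 172113) (nat_lit 10) (.e (nat_lit 434248) (nat_lit 28) (.e (nat_lit 573473) (nat_lit 12) (.e (nat_lit 57347) (nat_lit 0) (.e (nat_lit 7125) (nat_lit 382) .nil)))))))) (.g (nat_lit 7) .nil .nil))) 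
(.lf (nat_lit 48495) (.g (nat_lit 2999) (.e (nat_lit 1296) (nat_lit 96) (.e (nat_lit 131094) (nat_lit 2) (.e (nat_lit 90170) (nat_lit 13) (.e (nat_lit 172113) (nat_lit 10) (.e (nat_lit 434245) (nat_lit 28) (.e (nat_lit 573473) (nat_lit 12) (.e (nat_lit 57353) (nat_lit 0) (.e (nat_lit 7124) (nat_lit 382) .nil)))))))) (.g (nat_lit 5) .nil .nil)))) (.nd (nat_lit 5) 
(.lf (nat_lit 48479) (.g (nat_lit 2595) (.e (nat_lit 1296) (nat_lit 96) (.e (nat_lit 131093) (nat_lit 2) (.e (nat_lit 90170) (nat_lit 13) (.e (nat_lit 172113) (nat_lit 10) (.e (nat_lit 434248) (nat_lit 28) (.e (nat_lit 573475) (nat_lit 12) (.e (nat_lit 57351) (nat_lit 0) (.e (nat_lit 7119) (nat_lit 382) .nil)))))))) (.g (nat_lit 4) .nil .nil))) 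
(.lf (nat_lit 48511) (.g (nat_lit 3203) (.e (nat_lit 1296) (nat_lit 96) (.e (nat_lit 131094) (nat_lit 2) (.e (nat_lit 90170) (nat_lit 13) (.e (nat_lit 172113) (nat_lit 10) (.e (nat_lit 434248) (nat_lit 28) (.e (nat_lit 573473) (nat_lit 12) (.e (nat_lit 57348) (nat_lit 0) (.e (nat_lit 7124) (nat_lit 382) .nil)))))))) (.g (nat_lit 5) .nil .nil)))))))))

noncomputable def tv673 : DT := (.nd (nat_lit 0) (.nd (nat_lit 1) (.nd (nat_lit 2) (.nd (nat_lit 3) (.nd (nat_lit 4) (.nd (nat_lit 5) 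
(.lf (nat_lit 48512) (.g (nat_lit 2252) (.e (nat_lit 1296) (nat_lit 96) (.e (nat_lit 131094) (nat_lit 2) (.e (nat_lit 90170) (nat_lit 13) (.e (nat_lit 172113) (nat_lit 10) (.e (nat_lit 434248) (nat_lit 28) (.e (nat_lit 573473) (nat_lit 12) (.e (nat_lit 57352) (nat_lit 0) (.e (nat_lit 7122) (nat_lit 382) .nil)))))))) (.g (nat_lit 4) .nil .nil))) 
(.lf (nat_lit 48544) (.g (nat_lit 2228) (.e (nat_lit 1296) (nat_lit 96) (.e (nat_lit 131094) (nat_lit 2) (.e (nat_lit 90185) (nat_lit 17) (.e (nat_lit 237605) (nat_lit 9) (.e (nat_lit 426131) (nat_lit 3) (.e (nat_lit 212736) (nat_lit 1) (.e (nat_lit 164155) (nat_lit 152) .nil))))))) (.g (nat_lit 5) .nil .nil)))) (.nd (nat_lit 5) 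
(.lf (nat_lit 48528) (.g (nat_lit 2407) (.e (nat_lit 1296) (nat_lit 96) (.e (nat_lit 131094) (nat_lit 2) (.e (nat_lit 90176) (nat_lit 15) (.e (nat_lit 188450) (nat_lit 23) (.e (nat_lit 204817) (nat_lit 17) (.e (nat_lit 996) (nat_lit 81) (.e (nat_lit 4435) (nat_lit 263) .nil))))))) (.g (nat_lit 5) .nil .nil))) 
(.lf (nat_lit 48560) (.g (nat_lit 1973) (.e (nat_lit 1296) (nat_lit 96) (.e (nat_lit 131096) (nat_lit 3) (.e (nat_lit 98372) (nat_lit 29) (.e (nat_lit 450586) (nat_lit 10) (.e (nat_lit 573473) (nat_lit 12) (.e (nat_lit 57352) (nat_lit 0) (.e (nat_lit 7122) (nat_lit 382) .nil))))))) (.g (nat_lit 5) .nil .nil))))) (.nd (nat_lit 4) (.nd (nat_lit 5) 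
(.lf (nat_lit 48520) (.g (nat_lit 1646) (.e (nat_lit 1296) (nat_lit 96) (.e (nat_lit 131094) (nat_lit 2) (.e (nat_lit 90172) (nat_lit 14) (.e (nat_lit 180285) (nat_lit 45) (.e (nat_lit 2426) (nat_lit 157) .nil))))) .nil)) 
(.lf (nat_lit 48552) (.g (nat_lit 2373) (.e (nat_lit 1296) (nat_lit 96) (.e (nat_lit 131094) (nat_lit 2) (.e (nat_lit 90185) (nat_lit 17) (.e (nat_lit 237605) (nat_lit 9) (.e (nat_lit 426131) (nat_lit 3) (.e (nat_lit 204817) (nat_lit 17) (.e (nat_lit 7936) (nat_lit 81) (.e (nat_lit 4443) (nat_lit 263) .nil)))))))) (.g (nat_lit 5) .nil .nil)))) (.nd (nat_lit 5) 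
(.lf (nat_lit 48536) (.g (nat_lit 2336) (.e (nat_lit 1296) (nat_lit 96) (.e (nat_lit 131094) (nat_lit 2) (.e (nat_lit 90176) (nat_lit 15) (.e (nat_lit 188450) (nat_lit 23) (.e (nat_lit 204830) (nat_lit 18) (.e (nat_lit 65280) (nat_lit 221) .nil)))))) (.g (nat_lit 5) .nil .nil))) 
(.lf (nat_lit 48568) (.g (nat_lit 3379) (.e (nat_lit 1296) (nat_lit 96) (.e (nat_lit 131096) (nat_lit 3) (.e (nat_lit 98373) (nat_lit 29) (.e (nat_lit 450587) (nat_lit 10) (.e (nat_lit 573475) (nat_lit 12) (.e (nat_lit 57344) (nat_lit 0) (.e (nat_lit 7122) (nat_lit 382) .nil))))))) (.g (nat_lit 5) .nil .nil)))))) (.nd (nat_lit 3) (.nd (nat_lit 4) (.nd (nat_lit 5) 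
(.lf (nat_lit 48516) (.g (nat_lit 4061) (.e (nat_lit 1296) (nat_lit 96) (.e (nat_lit 131094) (nat_lit 2) (.e (nat_lit 90170) (nat_lit 13) (.e (nat_lit 172113) (nat_lit 10) (.e (nat_lit 434248) (nat_lit 28) (.e (nat_lit 573475) (nat_lit 12) (.e (nat_lit 57347) (nat_lit 0) (.e (nat_lit 7124) (nat_lit 382) .nil)))))))) (.g (nat_lit 6) .nil .nil))) 
(.lf (nat_lit 48548) (.g (nat_lit 1885) (.e (nat_lit 1296) (nat_lit 96) (.e (nat_lit 131094) (nat_lit 2) (.e (nat_lit 90185) (nat_lit 17) (.e (nat_lit 237605) (nat_lit 9) (.e (nat_lit 426131) (nat_lit 3) (.e (nat_lit 212736) (nat_lit 1) (.e (nat_lit 164160) (nat_lit 152) .nil))))))) (.g (nat_lit 5) .nil .nil)))) (.nd (nat_lit 5) 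
(.lf (nat_lit 48532) (.g (nat_lit 2278) (.e (nat_lit 1296) (nat_lit 96) (.e (nat_lit 131094) (nat_lit 2) (.e (nat_lit 90176) (nat_lit 15) (.e (nat_lit 188450) (nat_lit 23) (.e (nat_lit 204821) (nat_lit 17) (.e (nat_lit 991) (nat_lit 81) (.e (nat_lit 4435) (nat_lit 263) .nil))))))) (.g (nat_lit 5) .nil .nil))) 
(.lf (nat_lit 48564) (.g (nat_lit 1392) (.e (nat_lit 1296) (nat_lit 96) (.e (nat_lit 131096) (nat_lit 3) (.e (nat_lit 98373) (nat_lit 29) (.e (nat_lit 450586) (nat_lit 10) .nil)))) .nil)))) (.nd (nat_lit 4) (.nd (nat_lit 5) 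
(.lf (nat_lit 48524) (.g (nat_lit 2102) (.e (nat_lit 1296) (nat_lit 96) (.e (nat_lit 131094) (nat_lit 2) (.e (nat_lit 90176) (nat_lit 15) (.e (nat_lit 188450) (nat_lit 23) (.e (nat_lit 212736) (nat_lit 1) (.e (nat_lit 164158) (nat_lit 152) .nil)))))) (.g (nat_lit 4) .nil .nil))) 
(.lf (nat_lit 48556) (.g (nat_lit 4143) (.e (nat_lit 1296) (nat_lit 96) (.e (nat_lit 131095) (nat_lit 3) (.e (nat_lit 98373) (nat_lit 29) (.e (nat_lit 450588) (nat_lit 10) (.e (nat_lit 573475) (nat_lit 12) .nil))))) .nil))) (.nd (nat_lit 5) 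
(.lf (nat_lit 48540) (.g (nat_lit 2220) (.e (nat_lit 1296) (nat_lit 96) (.e (nat_lit 131094) (nat_lit 2) (.e (nat_lit 90185) (nat_lit 17) (.e (nat_lit 237605) (nat_lit 9) (.e (nat_lit 426128) (nat_lit 2) (.e (nat_lit 196698) (nat_lit 19) (.e (nat_lit 57585) (nat_lit 61) (.e (nat_lit 5072) (nat_lit 292) .nil)))))))) (.g (nat_lit 5) .nil .nil))) 
(.lf (nat_lit 48572) (.g (nat_lit 3697) (.e (nat_lit 1296) (nat_lit 96) (.e (nat_lit 131096) (nat_lit 3) (.e (nat_lit 98373) (nat_lit 29) (.e (nat_lit 450587) (nat_lit 10) (.e (nat_lit 573475) (nat_lit 12) (.e (nat_lit 57346) (nat_lit 0) (.e (nat_lit 7133) (nat_lit 382) .nil))))))) (.g (nat_lit 6) .nil .nil))))))) (.nd (nat_lit 2) (.nd (nat_lit 3) (.nd (nat_lit 4) (.nd (nat_lit 5) 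
(.lf (nat_lit 48514) (.g (nat_lit 3248) (.e (nat_lit 1296) (nat_lit 96) (.e (nat_lit 131094) (nat_lit 2) (.e (nat_lit 90170) (nat_lit 13) (.e (nat_lit 172113) (nat_lit 10) (.e (nat_lit 434248) (nat_lit 28) (.e (nat_lit 573473) (nat_lit 12) (.e (nat_lit 57353) (nat_lit 0) (.e (nat_lit 7125) (nat_lit 382) .nil)))))))) (.g (nat_lit 5) .nil .nil))) 
(.lf (nat_lit 48546) (.g (nat_lit 1834) (.e (nat_lit 1296) (nat_lit 96) (.e (nat_lit 131094) (nat_lit 2) (.e (nat_lit 90185) (nat_lit 17) (.e (nat_lit 237605) (nat_lit 9) (.e (nat_lit 426131) (nat_lit 3) (.e (nat_lit 212736) (nat_lit 1) (.e (nat_lit 164158) (nat_lit 152) .nil))))))) (.g (nat_lit 5) .nil .nil)))) (.nd (nat_lit 5) 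
(.lf (nat_lit 48530) (.g (nat_lit 2482) (.e (nat_lit 1296) (nat_lit 96) (.e (nat_lit 131094) (nat_lit 2) (.e (nat_lit 90176) (nat_lit 15) (.e (nat_lit 188450) (nat_lit 23) (.e (nat_lit 204817) (nat_lit 17) (.e (nat_lit 7936) (nat_lit 81) (.e (nat_lit 4444) (nat_lit 263) .nil))))))) (.g (nat_lit 5) .nil .nil))) 
(.lf (nat_lit 48562) (.g (nat_lit 1589) (.e (nat_lit 1296) (nat_lit 96) (.e (nat_lit 131096) (nat_lit 3) (.e (nat_lit 98372) (nat_lit 29) (.e (nat_lit 450586) (nat_lit 10) (.e (nat_lit 573478) (nat_lit 12) (.e (nat_lit 57351) (nat_lit 0) (.e (nat_lit 7122) (nat_lit 382) .nil))))))) (.g (nat_lit 4) .nil .nil))))) (.nd (nat_lit 4) (.nd (nat_lit 5) 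
(.lf (nat_lit 48522) (.g (nat_lit 2133) (.e (nat_lit 1296) (nat_lit 96) (.e (nat_lit 131094) (nat_lit 2) (.e (nat_lit 90176) (nat_lit 15) (.e (nat_lit 188450) (nat_lit 23) (.e (nat_lit 212736) (nat_lit 1) (.e (nat_lit 164154) (nat_lit 152) .nil)))))) (.g (nat_lit 4) .nil .nil))) 
(.lf (nat_lit 48554) (.g (nat_lit 2714) (.e (nat_lit 1296) (nat_lit 96) (.e (nat_lit 131094) (nat_lit 2) (.e (nat_lit 90185) (nat_lit 17) (.e (nat_lit 237605) (nat_lit 9) (.e (nat_lit 426131) (nat_lit 3) (.e (nat_lit 204830) (nat_lit 18) (.e (nat_lit 65280) (nat_lit 221) .nil))))))) (.g (nat_lit 6) .nil .nil)))) (.nd (nat_lit 5) 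
(.lf (nat_lit 48538) (.g (nat_lit 2209) (.e (nat_lit 1296) (nat_lit 96) (.e (nat_lit 131094) (nat_lit 2) (.e (nat_lit 90178) (nat_lit 15) (.e (nat_lit 188440) (nat_lit 20) (.e (nat_lit 3307) (nat_lit 202) (.e (nat_lit 573467) (nat_lit 10) (.e (nat_lit 8194) (nat_lit 0) (.e (nat_lit 4441) (nat_lit 263) .nil)))))))) (.g (nat_lit 4) .nil .nil))) 
(.lf (nat_lit 48570) (.g (nat_lit 2963) (.e (nat_lit 1296) (nat_lit 96) (.e (nat_lit 131096) (nat_lit 3) (.e (nat_lit 98373) (nat_lit 29) (.e (nat_lit 450587) (nat_lit 10) (.e (nat_lit 573475) (nat_lit 12) (.e (nat_lit 57345) (nat_lit 0) (.e (nat_lit 7119) (nat_lit 382) .nil))))))) (.g (nat_lit 5) .nil .nil)))))) (.nd (nat_lit 3) (.nd (nat_lit 4) (.nd (nat_lit 5) 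
(.lf (nat_lit 48518) (.g (nat_lit 3410) (.e (nat_lit 1296) (nat_lit 96) (.e (nat_lit 131094) (nat_lit 2) (.e (nat_lit 90170) (nat_lit 13) (.e (nat_lit 172113) (nat_lit 10) (.e (nat_lit 434248) (nat_lit 28) (.e (nat_lit 573475) (nat_lit 12) (.e (nat_lit 57351) (nat_lit 0) (.e (nat_lit 7124) (nat_lit 382) .nil)))))))) (.g (nat_lit 5) .nil .nil))) 
(.lf (nat_lit 48550) (.g (nat_lit 2302) (.e (nat_lit 1296) (nat_lit 96) (.e (nat_lit 131094) (nat_lit 2) (.e (nat_lit 90185) (nat_lit 17) (.e (nat_lit 237605) (nat_lit 9) (.e (nat_lit 426131) (nat_lit 3) (.e (nat_lit 204817) (nat_lit 17) (.e (nat_lit 996) (nat_lit 81) (.e (nat_lit 4435) (nat_lit 263) .nil)))))))) (.g (nat_lit 5) .nil .nil)))) (.nd (nat_lit 5) 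
(.lf (nat_lit 48534) (.g (nat_lit 2333) (.e (nat_lit 1296) (nat_lit 96) (.e (nat_lit 131094) (nat_lit 2) (.e (nat_lit 90176) (nat_lit 15) (.e (nat_lit 188450) (nat_lit 23) (.e (nat_lit 204821) (nat_lit 17) (.e (nat_lit 7936) (nat_lit 81) (.e (nat_lit 4441) (nat_lit 263) .nil))))))) (.g (nat_lit 5) .nil .nil))) 
(.lf (nat_lit 48566) (.g (nat_lit 2959) (.e (nat_lit 1296) (nat_lit 96) (.e (nat_lit 131096) (nat_lit 3) (.e (nat_lit 98373) (nat_lit 29) (.e (nat_lit 450587) (nat_lit 10) (.e (nat_lit 573473) (nat_lit 12) (.e (nat_lit 57348) (nat_lit 0) (.e (nat_lit 7119) (nat_lit 382) .nil))))))) (.g (nat_lit 4) .nil .nil))))) (.nd (nat_lit 4) (.nd (nat_lit 5) 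
(.lf (nat_lit 48526) (.g (nat_lit 1810) (.e (nat_lit 1296) (nat_lit 96) (.e (nat_lit 131094) (nat_lit 2) (.e (nat_lit 90176) (nat_lit 15) (.e (nat_lit 188450) (nat_lit 23) (.e (nat_lit 212736) (nat_lit 4) (.e (nat_lit 229545) (nat_lit 152) .nil)))))) (.g (nat_lit 4) .nil .nil))) 
(.lf (nat_lit 48558) (.g (nat_lit 1012) (.e (nat_lit 1296) (nat_lit 96) (.e (nat_lit 131096) (nat_lit 3) (.e (nat_lit 98372) (nat_lit 29) (.e (nat_lit 458496) (nat_lit 3) .nil)))) .nil))) (.nd (nat_lit 5) 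
(.lf (nat_lit 48542) (.g (nat_lit 1553) (.e (nat_lit 1296) (nat_lit 96) (.e (nat_lit 131094) (nat_lit 2) (.e (nat_lit 90185) (nat_lit 17) (.e (nat_lit 237605) (nat_lit 9) (.e (nat_lit 426131) (nat_lit 3) (.e (nat_lit 212736) (nat_lit 1) (.e (nat_lit 164147) (nat_lit 152) .nil))))))) (.g (nat_lit 4) .nil .nil))) 
(.lf (nat_lit 48574) (.g (nat_lit 3155) (.e (nat_lit 1296) (nat_lit 96) (.e (nat_lit 131096) (nat_lit 3) (.e (nat_lit 98373) (nat_lit 29) (.e (nat_lit 450587) (nat_lit 10) (.e (nat_lit 573475) (nat_lit 12) (.e (nat_lit 57351) (nat_lit 0) (.e (nat_lit 7122) (nat_lit 382) .nil))))))) (.g (nat_lit 5) .nil .nil)))))))) 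
(.nd (nat_lit 1) (.nd (nat_lit 2) (.nd (nat_lit 3) (.nd (nat_lit 4) (.nd (nat_lit 5) 
(.lf (nat_lit 48513) (.g (nat_lit 3120) (.e (nat_lit 1296) (nat_lit 96) (.e (nat_lit 131094) (nat_lit 2) (.e (nat_lit 90170) (nat_lit 13) (.e (nat_lit 172113) (nat_lit 10) (.e (nat_lit 434248) (nat_lit 28) (.e (nat_lit 573473) (nat_lit 12) (.e (nat_lit 57353) (nat_lit 0) (.e (nat_lit 7124) (nat_lit 382) .nil)))))))) (.g (nat_lit 5) .nil .nil))) 
(.lf (nat_lit 48545) (.g (nat_lit 1972) (.e (nat_lit 1296) (nat_lit 96) (.e (nat_lit 131094) (nat_lit 2) (.e (nat_lit 90185) (nat_lit 17) (.e (nat_lit 237605) (nat_lit 9) (.e (nat_lit 426131) (nat_lit 3) (.e (nat_lit 212736) (nat_lit 1) (.e (nat_lit 164157) (nat_lit 152) .nil))))))) (.g (nat_lit 5) .nil .nil)))) (.nd (nat_lit 5) 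
(.lf (nat_lit 48529) (.g (nat_lit 2006) (.e (nat_lit 1296) (nat_lit 96) (.e (nat_lit 131094) (nat_lit 2) (.e (nat_lit 90176) (nat_lit 15) (.e (nat_lit 188450) (nat_lit 23) (.e (nat_lit 204817) (nat_lit 17) (.e (nat_lit 7936) (nat_lit 81) (.e (nat_lit 4441) (nat_lit 263) .nil))))))) (.g (nat_lit 4) .nil .nil))) 
(.lf (nat_lit 48561) (.g (nat_lit 2178) (.e (nat_lit 1296) (nat_lit 96) (.e (nat_lit 131096) (nat_lit 3) (.e (nat_lit 98372) (nat_lit 29) (.e (nat_lit 450586) (nat_lit 10) (.e (nat_lit 573475) (nat_lit 12) (.e (nat_lit 57351) (nat_lit 0) (.e (nat_lit 7122) (nat_lit 382) .nil))))))) (.g (nat_lit 5) .nil .nil))))) (.nd (nat_lit 4) (.nd (nat_lit 5) 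
(.lf (nat_lit 48521) (.g (nat_lit 1927) (.e (nat_lit 1296) (nat_lit 96) (.e (nat_lit 131094) (nat_lit 2) (.e (nat_lit 90172) (nat_lit 14) (.e (nat_lit 180285) (nat_lit 45) (.e (nat_lit 2426) (nat_lit 157) (.e (nat_lit 604) (nat_lit 45) (.e (nat_lit 532501) (nat_lit 1) (.e (nat_lit 57830) (nat_lit 250) .nil)))))))) (.g (nat_lit 4) .nil .nil))) 
(.lf (nat_lit 48553) (.g (nat_lit 2828) (.e (nat_lit 1296) (nat_lit 96) (.e (nat_lit 131094) (nat_lit 2) (.e (nat_lit 90185) (nat_lit 17) (.e (nat_lit 237605) (nat_lit 9) (.e (nat_lit 426131) (nat_lit 3) (.e (nat_lit 204829) (nat_lit 18) (.e (nat_lit 65280) (nat_lit 221) .nil))))))) (.g (nat_lit 6) .nil .nil)))) (.nd (nat_lit 5) 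
(.lf (nat_lit 48537) (.g (nat_lit 1655) (.e (nat_lit 1296) (nat_lit 96) (.e (nat_lit 131094) (nat_lit 2) (.e (nat_lit 90178) (nat_lit 15) (.e (nat_lit 188440) (nat_lit 20) (.e (nat_lit 3307) (nat_lit 202) .nil))))) .nil)) 
(.lf (nat_lit 48569) (.g (nat_lit 3365) (.e (nat_lit 1296) (nat_lit 96) (.e (nat_lit 131096) (nat_lit 3) (.e (nat_lit 98373) (nat_lit 29) (.e (nat_lit 450587) (nat_lit 10) (.e (nat_lit 573475) (nat_lit 12) (.e (nat_lit 57344) (nat_lit 0) (.e (nat_lit 7124) (nat_lit 382) .nil))))))) (.g (nat_lit 5) .nil .nil)))))) (.nd (nat_lit 3) (.nd (nat_lit 4) (.nd (nat_lit 5) 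
(.lf (nat_lit 48517) (.g (nat_lit 3378) (.e (nat_lit 1296) (nat_lit 96) (.e (nat_lit 131094) (nat_lit 2) (.e (nat_lit 90170) (nat_lit 13) (.e (nat_lit 172113) (nat_lit 10) (.e (nat_lit 434248) (nat_lit 28) (.e (nat_lit 573475) (nat_lit 12) (.e (nat_lit 57348) (nat_lit 0) (.e (nat_lit 7124) (nat_lit 382) .nil)))))))) (.g (nat_lit 5) .nil .nil))) 
(.lf (nat_lit 48549) (.g (nat_lit 1752) (.e (nat_lit 1296) (nat_lit 96) (.e (nat_lit 131094) (nat_lit 2) (.e (nat_lit 90185) (nat_lit 17) (.e (nat_lit 237605) (nat_lit 9) (.e (nat_lit 426131) (nat_lit 3) (.e (nat_lit 212736) (nat_lit 4) (.e (nat_lit 229545) (nat_lit 152) .nil))))))) (.g (nat_lit 4) .nil .nil)))) (.nd (nat_lit 5) 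
(.lf (nat_lit 48533) (.g (nat_lit 1668) (.e (nat_lit 1296) (nat_lit 96) (.e (nat_lit 131094) (nat_lit 2) (.e (nat_lit 90176) (nat_lit 15) (.e (nat_lit 188450) (nat_lit 23) (.e (nat_lit 204821) (nat_lit 17) (.e (nat_lit 7936) (nat_lit 81) (.e (nat_lit 4435) (nat_lit 263) .nil))))))) (.g (nat_lit 4) .nil .nil))) 
(.lf (nat_lit 48565) (.g (nat_lit 2097) (.e (nat_lit 1296) (nat_lit 96) (.e (nat_lit 131096) (nat_lit 3) (.e (nat_lit 98373) (nat_lit 29) (.e (nat_lit 450586) (nat_lit 10) (.e (nat_lit 573475) (nat_lit 12) .nil))))) .nil)))) (.nd (nat_lit 4) (.nd (nat_lit 5) 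
(.lf (nat_lit 48525) (.g (nat_lit 1754) (.e (nat_lit 1296) (nat_lit 96) (.e (nat_lit 131094) (nat_lit 2) (.e (nat_lit 90176) (nat_lit 15) (.e (nat_lit 188450) (nat_lit 23) (.e (nat_lit 212736) (nat_lit 4) (.e (nat_lit 229544) (nat_lit 152) .nil)))))) (.g (nat_lit 4) .nil .nil))) 
(.lf (nat_lit 48557) (.g (nat_lit 4526) (.e (nat_lit 1296) (nat_lit 96) (.e (nat_lit 131095) (nat_lit 3) (.e (nat_lit 98373) (nat_lit 29) (.e (nat_lit 450588) (nat_lit 10) (.e (nat_lit 573475) (nat_lit 12) (.e (nat_lit 57347) (nat_lit 0) (.e (nat_lit 7124) (nat_lit 382) .nil))))))) (.g (nat_lit 4) .nil .nil)))) (.nd (nat_lit 5) 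
(.lf (nat_lit 48541) (.g (nat_lit 1163) (.e (nat_lit 1296) (nat_lit 96) (.e (nat_lit 131094) (nat_lit 2) (.e (nat_lit 90185) (nat_lit 17) (.e (nat_lit 237605) (nat_lit 9) (.e (nat_lit 426131) (nat_lit 3) .nil))))) .nil)) 
(.lf (nat_lit 48573) (.g (nat_lit 3527) (.e (nat_lit 1296) (nat_lit 96) (.e (nat_lit 131096) (nat_lit 3) (.e (nat_lit 98373) (nat_lit 29) (.e (nat_lit 450587) (nat_lit 10) (.e (nat_lit 573475) (nat_lit 12) (.e (nat_lit 57346) (nat_lit 0) (.e (nat_lit 7134) (nat_lit 382) .nil))))))) (.g (nat_lit 6) .nil .nil))))))) (.nd (nat_lit 2) (.nd (nat_lit 3) (.nd (nat_lit 4) (.nd (nat_lit 5) 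
(.lf (nat_lit 48515) (.g (nat_lit 2461) (.e (nat_lit 1296) (nat_lit 96) (.e (nat_lit 131094) (nat_lit 2) (.e (nat_lit 90170) (nat_lit 13) (.e (nat_lit 172113) (nat_lit 10) (.e (nat_lit 434248) (nat_lit 28) (.e (nat_lit 573475) (nat_lit 12) (.e (nat_lit 57347) (nat_lit 0) (.e (nat_lit 7122) (nat_lit 382) .nil)))))))) (.g (nat_lit 4) .nil .nil))) 
(.lf (nat_lit 48547) (.g (nat_lit 1943) (.e (nat_lit 1296) (nat_lit 96) (.e (nat_lit 131094) (nat_lit 2) (.e (nat_lit 90185) (nat_lit 17) (.e (nat_lit 237605) (nat_lit 9) (.e (nat_lit 426131) (nat_lit 3) (.e (nat_lit 212736) (nat_lit 1) (.e (nat_lit 164159) (nat_lit 152) .nil))))))) (.g (nat_lit 5) .nil .nil)))) (.nd (nat_lit 5) 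
(.lf (nat_lit 48531) (.g (nat_lit 1956) (.e (nat_lit 1296) (nat_lit 96) (.e (nat_lit 131094) (nat_lit 2) (.e (nat_lit 90176) (nat_lit 15) (.e (nat_lit 188450) (nat_lit 23) (.e (nat_lit 204819) (nat_lit 17) (.e (nat_lit 968) (nat_lit 81) (.e (nat_lit 4435) (nat_lit 263) .nil))))))) (.g (nat_lit 4) .nil .nil))) 
(.lf (nat_lit 48563) (.g (nat_lit 1311) (.e (nat_lit 1296) (nat_lit 96) (.e (nat_lit 131096) (nat_lit 3) (.e (nat_lit 98373) (nat_lit 29) (.e (nat_lit 458496) (nat_lit 3) .nil)))) .nil)))) (.nd (nat_lit 4) (.nd (nat_lit 5) 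
(.lf (nat_lit 48523) (.g (nat_lit 1973) (.e (nat_lit 1296) (nat_lit 96) (.e (nat_lit 131094) (nat_lit 2) (.e (nat_lit 90176) (nat_lit 15) (.e (nat_lit 188450) (nat_lit 23) (.e (nat_lit 212736) (nat_lit 1) (.e (nat_lit 164157) (nat_lit 152) .nil)))))) (.g (nat_lit 4) .nil .nil))) 
(.lf (nat_lit 48555) (.g (nat_lit 1616) (.e (nat_lit 1296) (nat_lit 96) (.e (nat_lit 131095) (nat_lit 3) (.e (nat_lit 98372) (nat_lit 29) (.e (nat_lit 450586) (nat_lit 10) (.e (nat_lit 573473) (nat_lit 12) .nil))))) .nil))) (.nd (nat_lit 5) 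
(.lf (nat_lit 48539) (.g (nat_lit 2412) (.e (nat_lit 1296) (nat_lit 96) (.e (nat_lit 131094) (nat_lit 2) (.e (nat_lit 90178) (nat_lit 15) (.e (nat_lit 188440) (nat_lit 20) (.e (nat_lit 3307) (nat_lit 202) (.e (nat_lit 573467) (nat_lit 10) (.e (nat_lit 8194) (nat_lit 0) (.e (nat_lit 4443) (nat_lit 263) .nil)))))))) (.g (nat_lit 4) .nil .nil))) 
(.lf (nat_lit 48571) (.g (nat_lit 3066) (.e (nat_lit 1296) (nat_lit 96) (.e (nat_lit 131096) (nat_lit 3) (.e (nat_lit 98373) (nat_lit 29) (.e (nat_lit 450587) (nat_lit 10) (.e (nat_lit 573475) (nat_lit 12) (.e (nat_lit 57345) (nat_lit 0) (.e (nat_lit 7123) (nat_lit 382) .nil))))))) (.g (nat_lit 5) .nil .nil)))))) (.nd (nat_lit 3) (.nd (nat_lit 4) (.nd (nat_lit 5) 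
(.lf (nat_lit 48519) (.g (nat_lit 3093) (.e (nat_lit 1296) (nat_lit 96) (.e (nat_lit 131094) (nat_lit 2) (.e (nat_lit 90170) (nat_lit 13) (.e (nat_lit 172113) (nat_lit 10) (.e (nat_lit 434248) (nat_lit 28) (.e (nat_lit 573475) (nat_lit 12) (.e (nat_lit 57353) (nat_lit 0) (.e (nat_lit 7125) (nat_lit 382) .nil)))))))) (.g (nat_lit 5) .nil .nil))) 
(.lf (nat_lit 48551) (.g (nat_lit 1954) (.e (nat_lit 1296) (nat_lit 96) (.e (nat_lit 131094) (nat_lit 2) (.e (nat_lit 90185) (nat_lit 17) (.e (nat_lit 237605) (nat_lit 9) (.e (nat_lit 426131) (nat_lit 3) (.e (nat_lit 204817) (nat_lit 17) (.e (nat_lit 7936) (nat_lit 81) (.e (nat_lit 4441) (nat_lit 263) .nil)))))))) (.g (nat_lit 5) .nil .nil)))) (.nd (nat_lit 5) 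
(.lf (nat_lit 48535) (.g (nat_lit 2401) (.e (nat_lit 1296) (nat_lit 96) (.e (nat_lit 131094) (nat_lit 2) (.e (nat_lit 90176) (nat_lit 15) (.e (nat_lit 188450) (nat_lit 23) (.e (nat_lit 204821) (nat_lit 17) (.e (nat_lit 7936) (nat_lit 81) (.e (nat_lit 4444) (nat_lit 263) .nil))))))) (.g (nat_lit 5) .nil .nil))) 
(.lf (nat_lit 48567) (.g (nat_lit 3593) (.e (nat_lit 1296) (nat_lit 96) (.e (nat_lit 131096) (nat_lit 3) (.e (nat_lit 98373) (nat_lit 29) (.e (nat_lit 450587) (nat_lit 10) (.e (nat_lit 573473) (nat_lit 12) (.e (nat_lit 57352) (nat_lit 0) (.e (nat_lit 7125) (nat_lit 382) .nil))))))) (.g (nat_lit 5) .nil .nil))))) (.nd (nat_lit 4) (.nd (nat_lit 5) 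
(.lf (nat_lit 48527) (.g (nat_lit 1466) (.e (nat_lit 1296) (nat_lit 96) (.e (nat_lit 131094) (nat_lit 2) (.e (nat_lit 90176) (nat_lit 15) (.e (nat_lit 188450) (nat_lit 23) (.e (nat_lit 204817) (nat_lit 17) .nil))))) .nil)) 
(.lf (nat_lit 48559) (.g (nat_lit 2030) (.e (nat_lit 1296) (nat_lit 96) (.e (nat_lit 131096) (nat_lit 3) (.e (nat_lit 98372) (nat_lit 29) (.e (nat_lit 450579) (nat_lit 5) (.e (nat_lit 532504) (nat_lit 1) (.e (nat_lit 65280) (nat_lit 221) .nil)))))) (.g (nat_lit 4) .nil .nil)))) (.nd (nat_lit 5) 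
(.lf (nat_lit 48543) (.g (nat_lit 2269) (.e (nat_lit 1296) (nat_lit 96) (.e (nat_lit 131094) (nat_lit 2) (.e (nat_lit 90185) (nat_lit 17) (.e (nat_lit 237605) (nat_lit 9) (.e (nat_lit 426131) (nat_lit 3) (.e (nat_lit 212736) (nat_lit 1) (.e (nat_lit 164148) (nat_lit 152) .nil))))))) (.g (nat_lit 5) .nil .nil))) 
(.lf (nat_lit 48575) (.g (nat_lit 3694) (.e (nat_lit 1296) (nat_lit 96) (.e (nat_lit 131096) (nat_lit 3) (.e (nat_lit 98373) (nat_lit 29) (.e (nat_lit 450587) (nat_lit 10) (.e (nat_lit 573475) (nat_lit 12) (.e (nat_lit 57352) (nat_lit 0) (.e (nat_lit 7122) (nat_lit 382) .nil))))))) (.g (nat_lit 5) .nil .nil)))))))))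

noncomputable def tv674 : DT := (.nd (nat_lit 0) (.nd (nat_lit 1) (.nd (nat_lit 2) (.nd (nat_lit 3) (.nd (nat_lit 4) (.nd (nat_lit 5) 
(.lf (nat_lit 48576) (.g (nat_lit 1983) (.e (nat_lit 1296) (nat_lit 96) (.e (nat_lit 131096) (nat_lit 3) (.e (nat_lit 98373) (nat_lit 29) (.e (nat_lit 450587) (nat_lit 10) (.e (nat_lit 573477) (nat_lit 12) .nil))))) .nil)) 
(.lf (nat_lit 48608) (.g (nat_lit 4520) (.e (nat_lit 1296) (nat_lit 96) (.e (nat_lit 131097) (nat_lit 3) (.e (nat_lit 98373) (nat_lit 29) (.e (nat_lit 450587) (nat_lit 10) (.e (nat_lit 573473) (nat_lit 12) (.e (nat_lit 57353) (nat_lit 0) (.e (nat_lit 7124) (nat_lit 382) .nil))))))) (.g (nat_lit 0) .nil .nil)))) (.nd (nat_lit 5) 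
(.lf (nat_lit 48592) (.g (nat_lit 1744) (.e (nat_lit 1296) (nat_lit 96) (.e (nat_lit 131097) (nat_lit 3) (.e (nat_lit 98372) (nat_lit 29) (.e (nat_lit 450586) (nat_lit 10) (.e (nat_lit 573477) (nat_lit 12) (.e (nat_lit 57352) (nat_lit 0) (.e (nat_lit 7122) (nat_lit 382) .nil))))))) (.g (nat_lit 4) .nil .nil))) 
(.lf (nat_lit 48624) (.g (nat_lit 4190) (.e (nat_lit 1296) (nat_lit 96) (.e (nat_lit 131097) (nat_lit 3) (.e (nat_lit 98373) (nat_lit 29) (.e (nat_lit 450588) (nat_lit 10) (.e (nat_lit 573473) (nat_lit 12) (.e (nat_lit 57348) (nat_lit 0) (.e (nat_lit 7122) (nat_lit 382) .nil))))))) (.g (nat_lit 5) .nil .nil))))) (.nd (nat_lit 4) (.nd (nat_lit 5) 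
(.lf (nat_lit 48584) (.g (nat_lit 3384) (.e (nat_lit 1296) (nat_lit 96) (.e (nat_lit 131096) (nat_lit 3) (.e (nat_lit 98373) (nat_lit 29) (.e (nat_lit 450588) (nat_lit 10) (.e (nat_lit 573475) (nat_lit 12) (.e (nat_lit 57353) (nat_lit 0) (.e (nat_lit 7125) (nat_lit 382) .nil))))))) (.g (nat_lit 5) .nil .nil))) 
(.lf (nat_lit 48616) (.g (nat_lit 3772) (.e (nat_lit 1296) (nat_lit 96) (.e (nat_lit 131097) (nat_lit 3) (.e (nat_lit 98373) (nat_lit 29) (.e (nat_lit 450587) (nat_lit 10) (.e (nat_lit 573475) (nat_lit 12) (.e (nat_lit 57351) (nat_lit 0) (.e (nat_lit 7122) (nat_lit 382) .nil))))))) (.g (nat_lit 5) .nil .nil)))) (.nd (nat_lit 5) 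
(.lf (nat_lit 48600) (.g (nat_lit 2956) (.e (nat_lit 1296) (nat_lit 96) (.e (nat_lit 131097) (nat_lit 3) (.e (nat_lit 98373) (nat_lit 29) (.e (nat_lit 450587) (nat_lit 10) (.e (nat_lit 573473) (nat_lit 12) (.e (nat_lit 57347) (nat_lit 0) (.e (nat_lit 7122) (nat_lit 382) .nil))))))) (.g (nat_lit 4) .nil .nil))) 
(.lf (nat_lit 48632) (.g (nat_lit 5901) (.e (nat_lit 1296) (nat_lit 96) (.e (nat_lit 131097) (nat_lit 3) (.e (nat_lit 98373) (nat_lit 29) (.e (nat_lit 450588) (nat_lit 10) (.e (nat_lit 573475) (nat_lit 12) (.e (nat_lit 57347) (nat_lit 0) (.e (nat_lit 7124) (nat_lit 382) .nil))))))) (.g (nat_lit 0) .nil .nil)))))) (.nd (nat_lit 3) (.nd (nat_lit 4) (.nd (nat_lit 5) 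
(.lf (nat_lit 48580) (.g (nat_lit 3109) (.e (nat_lit 1296) (nat_lit 96) (.e (nat_lit 131096) (nat_lit 3) (.e (nat_lit 98373) (nat_lit 29) (.e (nat_lit 450588) (nat_lit 10) (.e (nat_lit 573473) (nat_lit 12) (.e (nat_lit 57352) (nat_lit 0) (.e (nat_lit 7122) (nat_lit 382) .nil))))))) (.g (nat_lit 5) .nil .nil))) 
(.lf (nat_lit 48612) (.g (nat_lit 4575) (.e (nat_lit 1296) (nat_lit 96) (.e (nat_lit 131097) (nat_lit 3) (.e (nat_lit 98373) (nat_lit 29) (.e (nat_lit 450587) (nat_lit 10) (.e (nat_lit 573475) (nat_lit 12) (.e (nat_lit 57345) (nat_lit 0) (.e (nat_lit 7122) (nat_lit 382) .nil))))))) (.g (nat_lit 7) .nil .nil)))) (.nd (nat_lit 5) 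
(.lf (nat_lit 48596) (.g (nat_lit 2038) (.e (nat_lit 1296) (nat_lit 96) (.e (nat_lit 131097) (nat_lit 3) (.e (nat_lit 98372) (nat_lit 29) (.e (nat_lit 450586) (nat_lit 10) (.e (nat_lit 573478) (nat_lit 12) (.e (nat_lit 57353) (nat_lit 0) (.e (nat_lit 7125) (nat_lit 382) .nil))))))) (.g (nat_lit 5) .nil .nil))) 
(.lf (nat_lit 48628) (.g (nat_lit 4010) (.e (nat_lit 1296) (nat_lit 96) (.e (nat_lit 131097) (nat_lit 3) (.e (nat_lit 98373) (nat_lit 29) (.e (nat_lit 450588) (nat_lit 10) (.e (nat_lit 573473) (nat_lit 12) (.e (nat_lit 57353) (nat_lit 0) (.e (nat_lit 7122) (nat_lit 382) .nil))))))) (.g (nat_lit 5) .nil .nil))))) (.nd (nat_lit 4) (.nd (nat_lit 5) 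
(.lf (nat_lit 48588) (.g (nat_lit 2552) (.e (nat_lit 1296) (nat_lit 96) (.e (nat_lit 131097) (nat_lit 3) (.e (nat_lit 98372) (nat_lit 29) (.e (nat_lit 450586) (nat_lit 10) (.e (nat_lit 573473) (nat_lit 12) (.e (nat_lit 57353) (nat_lit 0) (.e (nat_lit 7125) (nat_lit 382) .nil))))))) (.g (nat_lit 6) .nil .nil))) 
(.lf (nat_lit 48620) (.g (nat_lit 2941) (.e (nat_lit 1296) (nat_lit 96) (.e (nat_lit 131097) (nat_lit 3) (.e (nat_lit 98373) (nat_lit 29) (.e (nat_lit 450587) (nat_lit 10) (.e (nat_lit 573478) (nat_lit 12) (.e (nat_lit 57352) (nat_lit 0) (.e (nat_lit 7122) (nat_lit 382) .nil))))))) (.g (nat_lit 4) .nil .nil)))) (.nd (nat_lit 5) 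
(.lf (nat_lit 48604) (.g (nat_lit 4544) (.e (nat_lit 1296) (nat_lit 96) (.e (nat_lit 131097) (nat_lit 3) (.e (nat_lit 98373) (nat_lit 29) (.e (nat_lit 450587) (nat_lit 10) (.e (nat_lit 573473) (nat_lit 12) (.e (nat_lit 57348) (nat_lit 0) (.e (nat_lit 7124) (nat_lit 382) .nil))))))) (.g (nat_lit 0) .nil .nil))) 
(.lf (nat_lit 48636) (.g (nat_lit 4354) (.e (nat_lit 1296) (nat_lit 96) (.e (nat_lit 131097) (nat_lit 3) (.e (nat_lit 98373) (nat_lit 29) (.e (nat_lit 450588) (nat_lit 10) (.e (nat_lit 573475) (nat_lit 12) (.e (nat_lit 57353) (nat_lit 0) (.e (nat_lit 7125) (nat_lit 382) .nil))))))) (.g (nat_lit 5) .nil .nil))))))) (.nd (nat_lit 2) (.nd (nat_lit 3) (.nd (nat_lit 4) (.nd (nat_lit 5) 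
(.lf (nat_lit 48578) (.g (nat_lit 2469) (.e (nat_lit 1296) (nat_lit 96) (.e (nat_lit 131096) (nat_lit 3) (.e (nat_lit 98373) (nat_lit 29) (.e (nat_lit 450587) (nat_lit 10) (.e (nat_lit 573478) (nat_lit 12) (.e (nat_lit 57351) (nat_lit 0) (.e (nat_lit 7122) (nat_lit 382) .nil))))))) (.g (nat_lit 5) .nil .nil))) 
(.lf (nat_lit 48610) (.g (nat_lit 3614) (.e (nat_lit 1296) (nat_lit 96) (.e (nat_lit 131097) (nat_lit 3) (.e (nat_lit 98373) (nat_lit 29) (.e (nat_lit 450587) (nat_lit 10) (.e (nat_lit 573475) (nat_lit 12) (.e (nat_lit 57344) (nat_lit 0) (.e (nat_lit 7124) (nat_lit 382) .nil))))))) (.g (nat_lit 5) .nil .nil)))) (.nd (nat_lit 5) 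
(.lf (nat_lit 48594) (.g (nat_lit 1971) (.e (nat_lit 1296) (nat_lit 96) (.e (nat_lit 131097) (nat_lit 3) (.e (nat_lit 98372) (nat_lit 29) (.e (nat_lit 450586) (nat_lit 10) (.e (nat_lit 573478) (nat_lit 12) (.e (nat_lit 57351) (nat_lit 0) (.e (nat_lit 7125) (nat_lit 382) .nil))))))) (.g (nat_lit 5) .nil .nil))) 
(.lf (nat_lit 48626) (.g (nat_lit 4570) (.e (nat_lit 1296) (nat_lit 96) (.e (nat_lit 131097) (nat_lit 3) (.e (nat_lit 98373) (nat_lit 29) (.e (nat_lit 450588) (nat_lit 10) (.e (nat_lit 573473) (nat_lit 12) (.e (nat_lit 57352) (nat_lit 0) (.e (nat_lit 7122) (nat_lit 382) .nil))))))) (.g (nat_lit 6) .nil .nil))))) (.nd (nat_lit 4) (.nd (nat_lit 5) 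
(.lf (nat_lit 48586) (.g (nat_lit 2700) (.e (nat_lit 1296) (nat_lit 96) (.e (nat_lit 131097) (nat_lit 3) (.e (nat_lit 98372) (nat_lit 29) (.e (nat_lit 450586) (nat_lit 10) (.e (nat_lit 573473) (nat_lit 12) (.e (nat_lit 57348) (nat_lit 0) (.e (nat_lit 7125) (nat_lit 382) .nil))))))) (.g (nat_lit 6) .nil .nil))) 
(.lf (nat_lit 48618) (.g (nat_lit 3438) (.e (nat_lit 1296) (nat_lit 96) (.e (nat_lit 131097) (nat_lit 3) (.e (nat_lit 98373) (nat_lit 29) (.e (nat_lit 450587) (nat_lit 10) (.e (nat_lit 573477) (nat_lit 12) (.e (nat_lit 57352) (nat_lit 0) (.e (nat_lit 7122) (nat_lit 382) .nil))))))) (.g (nat_lit 5) .nil .nil)))) (.nd (nat_lit 5) 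
(.lf (nat_lit 48602) (.g (nat_lit 3402) (.e (nat_lit 1296) (nat_lit 96) (.e (nat_lit 131097) (nat_lit 3) (.e (nat_lit 98373) (nat_lit 29) (.e (nat_lit 450587) (nat_lit 10) (.e (nat_lit 573473) (nat_lit 12) (.e (nat_lit 57348) (nat_lit 0) (.e (nat_lit 7119) (nat_lit 382) .nil))))))) (.g (nat_lit 5) .nil .nil))) 
(.lf (nat_lit 48634) (.g (nat_lit 4636) (.e (nat_lit 1296) (nat_lit 96) (.e (nat_lit 131097) (nat_lit 3) (.e (nat_lit 98373) (nat_lit 29) (.e (nat_lit 450588) (nat_lit 10) (.e (nat_lit 573475) (nat_lit 12) (.e (nat_lit 57351) (nat_lit 0) (.e (nat_lit 7122) (nat_lit 382) .nil))))))) (.g (nat_lit 6) .nil .nil)))))) (.nd (nat_lit 3) (.nd (nat_lit 4) (.nd (nat_lit 5) 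
(.lf (nat_lit 48582) (.g (nat_lit 3174) (.e (nat_lit 1296) (nat_lit 96) (.e (nat_lit 131096) (nat_lit 3) (.e (nat_lit 98373) (nat_lit 29) (.e (nat_lit 450588) (nat_lit 10) (.e (nat_lit 573475) (nat_lit 12) (.e (nat_lit 57351) (nat_lit 0) (.e (nat_lit 7122) (nat_lit 382) .nil))))))) (.g (nat_lit 5) .nil .nil))) 
(.lf (nat_lit 48614) (.g (nat_lit 4227) (.e (nat_lit 1296) (nat_lit 96) (.e (nat_lit 131097) (nat_lit 3) (.e (nat_lit 98373) (nat_lit 29) (.e (nat_lit 450587) (nat_lit 10) (.e (nat_lit 573475) (nat_lit 12) (.e (nat_lit 57346) (nat_lit 0) (.e (nat_lit 7133) (nat_lit 382) .nil))))))) (.g (nat_lit 0) .nil .nil)))) (.nd (nat_lit 5) 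
(.lf (nat_lit 48598) (.g (nat_lit 2530) (.e (nat_lit 1296) (nat_lit 96) (.e (nat_lit 131097) (nat_lit 3) (.e (nat_lit 98372) (nat_lit 29) (.e (nat_lit 450588) (nat_lit 10) (.e (nat_lit 573475) (nat_lit 12) .nil))))) .nil)) 
(.lf (nat_lit 48630) (.g (nat_lit 3075) (.e (nat_lit 1296) (nat_lit 96) (.e (nat_lit 131097) (nat_lit 3) (.e (nat_lit 98373) (nat_lit 29) (.e (nat_lit 450588) (nat_lit 10) (.e (nat_lit 573475) (nat_lit 12) .nil))))) .nil)))) (.nd (nat_lit 4) (.nd (nat_lit 5) 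
(.lf (nat_lit 48590) (.g (nat_lit 2766) (.e (nat_lit 1296) (nat_lit 96) (.e (nat_lit 131097) (nat_lit 3) (.e (nat_lit 98372) (nat_lit 29) (.e (nat_lit 450586) (nat_lit 10) (.e (nat_lit 573475) (nat_lit 12) (.e (nat_lit 57351) (nat_lit 0) (.e (nat_lit 7124) (nat_lit 382) .nil))))))) (.g (nat_lit 6) .nil .nil))) 
(.lf (nat_lit 48622) (.g (nat_lit 4718) (.e (nat_lit 1296) (nat_lit 96) (.e (nat_lit 131097) (nat_lit 3) (.e (nat_lit 98373) (nat_lit 29) (.e (nat_lit 450588) (nat_lit 10) (.e (nat_lit 573473) (nat_lit 12) (.e (nat_lit 57347) (nat_lit 0) (.e (nat_lit 7125) (nat_lit 382) .nil))))))) (.g (nat_lit 6) .nil .nil)))) (.nd (nat_lit 5) 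
(.lf (nat_lit 48606) (.g (nat_lit 4748) (.e (nat_lit 1296) (nat_lit 96) (.e (nat_lit 131097) (nat_lit 3) (.e (nat_lit 98373) (nat_lit 29) (.e (nat_lit 450587) (nat_lit 10) (.e (nat_lit 573473) (nat_lit 12) (.e (nat_lit 57352) (nat_lit 0) (.e (nat_lit 7122) (nat_lit 382) .nil))))))) (.g (nat_lit 7) .nil .nil))) 
(.lf (nat_lit 48638) (.g (nat_lit 1557) (.e (nat_lit 1296) (nat_lit 96) (.e (nat_lit 131098) (nat_lit 3) (.e (nat_lit 98372) (nat_lit 29) (.e (nat_lit 450579) (nat_lit 5) (.e (nat_lit 532499) (nat_lit 1) .nil))))) .nil))))))) (.nd (nat_lit 1) (.nd (nat_lit 2) (.nd (nat_lit 3) (.nd (nat_lit 4) (.nd (nat_lit 5) 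
(.lf (nat_lit 48577) (.g (nat_lit 2567) (.e (nat_lit 1296) (nat_lit 96) (.e (nat_lit 131096) (nat_lit 3) (.e (nat_lit 98373) (nat_lit 29) (.e (nat_lit 450587) (nat_lit 10) (.e (nat_lit 573477) (nat_lit 12) (.e (nat_lit 57352) (nat_lit 0) (.e (nat_lit 7122) (nat_lit 382) .nil))))))) (.g (nat_lit 5) .nil .nil))) 
(.lf (nat_lit 48609) (.g (nat_lit 3996) (.e (nat_lit 1296) (nat_lit 96) (.e (nat_lit 131097) (nat_lit 3) (.e (nat_lit 98373) (nat_lit 29) (.e (nat_lit 450587) (nat_lit 10) (.e (nat_lit 573475) (nat_lit 12) (.e (nat_lit 57344) (nat_lit 0) (.e (nat_lit 7122) (nat_lit 382) .nil))))))) (.g (nat_lit 5) .nil .nil)))) (.nd (nat_lit 5) 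
(.lf (nat_lit 48593) (.g (nat_lit 1658) (.e (nat_lit 1296) (nat_lit 96) (.e (nat_lit 131097) (nat_lit 3) (.e (nat_lit 98372) (nat_lit 29) (.e (nat_lit 450586) (nat_lit 10) (.e (nat_lit 573478) (nat_lit 12) (.e (nat_lit 57351) (nat_lit 0) (.e (nat_lit 7122) (nat_lit 382) .nil))))))) (.g (nat_lit 4) .nil .nil))) 
(.lf (nat_lit 48625) (.g (nat_lit 5315) (.e (nat_lit 1296) (nat_lit 96) (.e (nat_lit 131097) (nat_lit 3) (.e (nat_lit 98373) (nat_lit 29) (.e (nat_lit 450588) (nat_lit 10) (.e (nat_lit 573473) (nat_lit 12) (.e (nat_lit 57348) (nat_lit 0) (.e (nat_lit 7124) (nat_lit 382) .nil))))))) (.g (nat_lit 0) .nil .nil))))) (.nd (nat_lit 4) (.nd (nat_lit 5) 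
(.lf (nat_lit 48585) (.g (nat_lit 2809) (.e (nat_lit 1296) (nat_lit 96) (.e (nat_lit 131097) (nat_lit 3) (.e (nat_lit 98372) (nat_lit 29) (.e (nat_lit 450586) (nat_lit 10) (.e (nat_lit 573473) (nat_lit 12) (.e (nat_lit 57348) (nat_lit 0) (.e (nat_lit 7124) (nat_lit 382) .nil))))))) (.g (nat_lit 6) .nil .nil))) 
(.lf (nat_lit 48617) (.g (nat_lit 4311) (.e (nat_lit 1296) (nat_lit 96) (.e (nat_lit 131097) (nat_lit 3) (.e (nat_lit 98373) (nat_lit 29) (.e (nat_lit 450587) (nat_lit 10) (.e (nat_lit 573475) (nat_lit 12) (.e (nat_lit 57352) (nat_lit 0) (.e (nat_lit 7122) (nat_lit 382) .nil))))))) (.g (nat_lit 5) .nil .nil)))) (.nd (nat_lit 5) 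
(.lf (nat_lit 48601) (.g (nat_lit 4763) (.e (nat_lit 1296) (nat_lit 96) (.e (nat_lit 131097) (nat_lit 3) (.e (nat_lit 98373) (nat_lit 29) (.e (nat_lit 450587) (nat_lit 10) (.e (nat_lit 573473) (nat_lit 12) (.e (nat_lit 57347) (nat_lit 0) (.e (nat_lit 7125) (nat_lit 382) .nil))))))) (.g (nat_lit 0) .nil .nil))) 
(.lf (nat_lit 48633) (.g (nat_lit 3487) (.e (nat_lit 1296) (nat_lit 96) (.e (nat_lit 131097) (nat_lit 3) (.e (nat_lit 98373) (nat_lit 29) (.e (nat_lit 450588) (nat_lit 10) (.e (nat_lit 573475) (nat_lit 12) (.e (nat_lit 57351) (nat_lit 0) (.e (nat_lit 7119) (nat_lit 382) .nil))))))) (.g (nat_lit 4) .nil .nil)))))) (.nd (nat_lit 3) (.nd (nat_lit 4) (.nd (nat_lit 5) 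
(.lf (nat_lit 48581) (.g (nat_lit 2096) (.e (nat_lit 1296) (nat_lit 96) (.e (nat_lit 131096) (nat_lit 3) (.e (nat_lit 98373) (nat_lit 29) (.e (nat_lit 450588) (nat_lit 10) (.e (nat_lit 573475) (nat_lit 12) .nil))))) .nil)) 
(.lf (nat_lit 48613) (.g (nat_lit 3630) (.e (nat_lit 1296) (nat_lit 96) (.e (nat_lit 131097) (nat_lit 3) (.e (nat_lit 98373) (nat_lit 29) (.e (nat_lit 450587) (nat_lit 10) (.e (nat_lit 573475) (nat_lit 12) (.e (nat_lit 57345) (nat_lit 0) (.e (nat_lit 7123) (nat_lit 382) .nil))))))) (.g (nat_lit 5) .nil .nil)))) (.nd (nat_lit 5) 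
(.lf (nat_lit 48597) (.g (nat_lit 2569) (.e (nat_lit 1296) (nat_lit 96) (.e (nat_lit 131097) (nat_lit 3) (.e (nat_lit 98372) (nat_lit 29) (.e (nat_lit 450588) (nat_lit 10) (.e (nat_lit 573473) (nat_lit 12) .nil))))) .nil)) 
(.lf (nat_lit 48629) (.g (nat_lit 5232) (.e (nat_lit 1296) (nat_lit 96) (.e (nat_lit 131097) (nat_lit 3) (.e (nat_lit 98373) (nat_lit 29) (.e (nat_lit 450588) (nat_lit 10) (.e (nat_lit 573473) (nat_lit 12) (.e (nat_lit 57353) (nat_lit 0) (.e (nat_lit 7124) (nat_lit 382) .nil))))))) (.g (nat_lit 0) .nil .nil))))) (.nd (nat_lit 4) (.nd (nat_lit 5) 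
(.lf (nat_lit 48589) (.g (nat_lit 2257) (.e (nat_lit 1296) (nat_lit 96) (.e (nat_lit 131097) (nat_lit 3) (.e (nat_lit 98372) (nat_lit 29) (.e (nat_lit 450586) (nat_lit 10) (.e (nat_lit 573475) (nat_lit 12) (.e (nat_lit 57351) (nat_lit 0) (.e (nat_lit 7122) (nat_lit 382) .nil))))))) (.g (nat_lit 5) .nil .nil))) 
(.lf (nat_lit 48621) (.g (nat_lit 3686) (.e (nat_lit 1296) (nat_lit 96) (.e (nat_lit 131097) (nat_lit 3) (.e (nat_lit 98373) (nat_lit 29) (.e (nat_lit 450587) (nat_lit 10) (.e (nat_lit 573478) (nat_lit 12) (.e (nat_lit 57353) (nat_lit 0) (.e (nat_lit 7124) (nat_lit 382) .nil))))))) (.g (nat_lit 6) .nil .nil)))) (.nd (nat_lit 5) 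
(.lf (nat_lit 48605) (.g (nat_lit 3457) (.e (nat_lit 1296) (nat_lit 96) (.e (nat_lit 131097) (nat_lit 3) (.e (nat_lit 98373) (nat_lit 29) (.e (nat_lit 450587) (nat_lit 10) (.e (nat_lit 573473) (nat_lit 12) (.e (nat_lit 57352) (nat_lit 0) (.e (nat_lit 7119) (nat_lit 382) .nil))))))) (.g (nat_lit 5) .nil .nil))) 
(.lf (nat_lit 48637) (.g (nat_lit 1120) (.e (nat_lit 1296) (nat_lit 96) (.e (nat_lit 131098) (nat_lit 3) (.e (nat_lit 98372) (nat_lit 29) (.e (nat_lit 458496) (nat_lit 3) .nil)))) .nil)))))) (.nd (nat_lit 2) (.nd (nat_lit 3) (.nd (nat_lit 4) (.nd (nat_lit 5) 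
(.lf (nat_lit 48579) (.g (nat_lit 3239) (.e (nat_lit 1296) (nat_lit 96) (.e (nat_lit 131096) (nat_lit 3) (.e (nat_lit 98373) (nat_lit 29) (.e (nat_lit 450587) (nat_lit 10) (.e (nat_lit 573478) (nat_lit 12) (.e (nat_lit 57353) (nat_lit 0) (.e (nat_lit 7125) (nat_lit 382) .nil))))))) (.g (nat_lit 7) .nil .nil))) 
(.lf (nat_lit 48611) (.g (nat_lit 3527) (.e (nat_lit 1296) (nat_lit 96) (.e (nat_lit 131097) (nat_lit 3) (.e (nat_lit 98373) (nat_lit 29) (.e (nat_lit 450587) (nat_lit 10) (.e (nat_lit 573475) (nat_lit 12) (.e (nat_lit 57345) (nat_lit 0) (.e (nat_lit 7119) (nat_lit 382) .nil))))))) (.g (nat_lit 5) .nil .nil)))) (.nd (nat_lit 5) 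
(.lf (nat_lit 48595) (.g (nat_lit 2092) (.e (nat_lit 1296) (nat_lit 96) (.e (nat_lit 131097) (nat_lit 3) (.e (nat_lit 98372) (nat_lit 29) (.e (nat_lit 450586) (nat_lit 10) (.e (nat_lit 573478) (nat_lit 12) (.e (nat_lit 57353) (nat_lit 0) (.e (nat_lit 7124) (nat_lit 382) .nil))))))) (.g (nat_lit 5) .nil .nil))) 
(.lf (nat_lit 48627) (.g (nat_lit 3515) (.e (nat_lit 1296) (nat_lit 96) (.e (nat_lit 131097) (nat_lit 3) (.e (nat_lit 98373) (nat_lit 29) (.e (nat_lit 450588) (nat_lit 10) (.e (nat_lit 573473) (nat_lit 12) (.e (nat_lit 57353) (nat_lit 0) (.e (nat_lit 7119) (nat_lit 382) .nil))))))) (.g (nat_lit 4) .nil .nil))))) (.nd (nat_lit 4) (.nd (nat_lit 5) 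
(.lf (nat_lit 48587) (.g (nat_lit 2719) (.e (nat_lit 1296) (nat_lit 96) (.e (nat_lit 131097) (nat_lit 3) (.e (nat_lit 98372) (nat_lit 29) (.e (nat_lit 450586) (nat_lit 10) (.e (nat_lit 573473) (nat_lit 12) (.e (nat_lit 57353) (nat_lit 0) (.e (nat_lit 7124) (nat_lit 382) .nil))))))) (.g (nat_lit 6) .nil .nil))) 
(.lf (nat_lit 48619) (.g (nat_lit 3316) (.e (nat_lit 1296) (nat_lit 96) (.e (nat_lit 131097) (nat_lit 3) (.e (nat_lit 98373) (nat_lit 29) (.e (nat_lit 450587) (nat_lit 10) (.e (nat_lit 573478) (nat_lit 12) (.e (nat_lit 57351) (nat_lit 0) (.e (nat_lit 7122) (nat_lit 382) .nil))))))) (.g (nat_lit 5) .nil .nil)))) (.nd (nat_lit 5) 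
(.lf (nat_lit 48603) (.g (nat_lit 3402) (.e (nat_lit 1296) (nat_lit 96) (.e (nat_lit 131097) (nat_lit 3) (.e (nat_lit 98373) (nat_lit 29) (.e (nat_lit 450587) (nat_lit 10) (.e (nat_lit 573473) (nat_lit 12) (.e (nat_lit 57348) (nat_lit 0) (.e (nat_lit 7122) (nat_lit 382) .nil))))))) (.g (nat_lit 5) .nil .nil))) 
(.lf (nat_lit 48635) (.g (nat_lit 4524) (.e (nat_lit 1296) (nat_lit 96) (.e (nat_lit 131097) (nat_lit 3) (.e (nat_lit 98373) (nat_lit 29) (.e (nat_lit 450588) (nat_lit 10) (.e (nat_lit 573475) (nat_lit 12) (.e (nat_lit 57353) (nat_lit 0) (.e (nat_lit 7124) (nat_lit 382) .nil))))))) (.g (nat_lit 5) .nil .nil)))))) (.nd (nat_lit 3) (.nd (nat_lit 4) (.nd (nat_lit 5) 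
(.lf (nat_lit 48583) (.g (nat_lit 3413) (.e (nat_lit 1296) (nat_lit 96) (.e (nat_lit 131096) (nat_lit 3) (.e (nat_lit 98373) (nat_lit 29) (.e (nat_lit 450588) (nat_lit 10) (.e (nat_lit 573475) (nat_lit 12) (.e (nat_lit 57353) (nat_lit 0) (.e (nat_lit 7124) (nat_lit 382) .nil))))))) (.g (nat_lit 5) .nil .nil))) 
(.lf (nat_lit 48615) (.g (nat_lit 4136) (.e (nat_lit 1296) (nat_lit 96) (.e (nat_lit 131097) (nat_lit 3) (.e (nat_lit 98373) (nat_lit 29) (.e (nat_lit 450587) (nat_lit 10) (.e (nat_lit 573475) (nat_lit 12) (.e (nat_lit 57346) (nat_lit 0) (.e (nat_lit 7134) (nat_lit 382) .nil))))))) (.g (nat_lit 7) .nil .nil)))) (.nd (nat_lit 5) 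
(.lf (nat_lit 48599) (.g (nat_lit 2757) (.e (nat_lit 1296) (nat_lit 96) (.e (nat_lit 131097) (nat_lit 3) (.e (nat_lit 98373) (nat_lit 29) (.e (nat_lit 450587) (nat_lit 10) (.e (nat_lit 573473) (nat_lit 12) (.e (nat_lit 57347) (nat_lit 0) (.e (nat_lit 7119) (nat_lit 382) .nil))))))) (.g (nat_lit 4) .nil .nil))) 
(.lf (nat_lit 48631) (.g (nat_lit 4508) (.e (nat_lit 1296) (nat_lit 96) (.e (nat_lit 131097) (nat_lit 3) (.e (nat_lit 98373) (nat_lit 29) (.e (nat_lit 450588) (nat_lit 10) (.e (nat_lit 573475) (nat_lit 12) (.e (nat_lit 57347) (nat_lit 0) (.e (nat_lit 7122) (nat_lit 382) .nil))))))) (.g (nat_lit 5) .nil .nil))))) (.nd (nat_lit 4) (.nd (nat_lit 5) 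
(.lf (nat_lit 48591) (.g (nat_lit 2545) (.e (nat_lit 1296) (nat_lit 96) (.e (nat_lit 131097) (nat_lit 3) (.e (nat_lit 98372) (nat_lit 29) (.e (nat_lit 450586) (nat_lit 10) (.e (nat_lit 573475) (nat_lit 12) (.e (nat_lit 57351) (nat_lit 0) (.e (nat_lit 7125) (nat_lit 382) .nil))))))) (.g (nat_lit 5) .nil .nil))) 
(.lf (nat_lit 48623) (.g (nat_lit 4190) (.e (nat_lit 1296) (nat_lit 96) (.e (nat_lit 131097) (nat_lit 3) (.e (nat_lit 98373) (nat_lit 29) (.e (nat_lit 450588) (nat_lit 10) (.e (nat_lit 573473) (nat_lit 12) (.e (nat_lit 57348) (nat_lit 0) (.e (nat_lit 7119) (nat_lit 382) .nil))))))) (.g (nat_lit 5) .nil .nil)))) (.nd (nat_lit 5) 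
(.lf (nat_lit 48607) (.g (nat_lit 3313) (.e (nat_lit 1296) (nat_lit 96) (.e (nat_lit 131097) (nat_lit 3) (.e (nat_lit 98373) (nat_lit 29) (.e (nat_lit 450587) (nat_lit 10) (.e (nat_lit 573473) (nat_lit 12) (.e (nat_lit 57353) (nat_lit 0) (.e (nat_lit 7122) (nat_lit 382) .nil))))))) (.g (nat_lit 5) .nil .nil))) 
(.lf (nat_lit 48639) (.g (nat_lit 1972) (.e (nat_lit 1296) (nat_lit 96) (.e (nat_lit 131098) (nat_lit 3) (.e (nat_lit 98372) (nat_lit 29) (.e (nat_lit 450579) (nat_lit 5) (.e (nat_lit 532501) (nat_lit 1) (.e (nat_lit 65280) (nat_lit 221) .nil)))))) (.g (nat_lit 4) .nil .nil)))))))))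

noncomputable def tv675 : DT := (.nd (nat_lit 0) (.nd (nat_lit 1) (.nd (nat_lit 2) (.nd (nat_lit 3) (.nd (nat_lit 4) (.nd (nat_lit 5) 
(.lf (nat_lit 48640) (.g (nat_lit 2074) (.e (nat_lit 1296) (nat_lit 96) (.e (nat_lit 131098) (nat_lit 3) (.e (nat_lit 98372) (nat_lit 29) (.e (nat_lit 450579) (nat_lit 5) (.e (nat_lit 532504) (nat_lit 1) (.e (nat_lit 65280) (nat_lit 221) .nil)))))) (.g (nat_lit 4) .nil .nil))) 
(.lf (nat_lit 48672) (.g (nat_lit 3398) (.e (nat_lit 1296) (nat_lit 96) (.e (nat_lit 131098) (nat_lit 3) (.e (nat_lit 98373) (nat_lit 29) (.e (nat_lit 450587) (nat_lit 10) (.e (nat_lit 573477) (nat_lit 12) (.e (nat_lit 57351) (nat_lit 0) (.e (nat_lit 7124) (nat_lit 382) .nil))))))) (.g (nat_lit 5) .nil .nil)))) (.nd (nat_lit 5) 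
(.lf (nat_lit 48656) (.g (nat_lit 1411) (.e (nat_lit 1296) (nat_lit 96) (.e (nat_lit 131098) (nat_lit 3) (.e (nat_lit 98372) (nat_lit 29) (.e (nat_lit 450586) (nat_lit 10) (.e (nat_lit 573478) (nat_lit 12) .nil))))) .nil)) 
(.lf (nat_lit 48688) (.g (nat_lit 3977) (.e (nat_lit 1296) (nat_lit 96) (.e (nat_lit 131098) (nat_lit 3) (.e (nat_lit 98373) (nat_lit 29) (.e (nat_lit 450588) (nat_lit 10) (.e (nat_lit 573475) (nat_lit 12) (.e (nat_lit 57353) (nat_lit 0) (.e (nat_lit 7124) (nat_lit 382) .nil))))))) (.g (nat_lit 5) .nil .nil))))) (.nd (nat_lit 4) (.nd (nat_lit 5) 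
(.lf (nat_lit 48648) (.g (nat_lit 2768) (.e (nat_lit 1296) (nat_lit 96) (.e (nat_lit 131098) (nat_lit 3) (.e (nat_lit 98372) (nat_lit 29) (.e (nat_lit 450586) (nat_lit 10) (.e (nat_lit 573475) (nat_lit 12) (.e (nat_lit 57351) (nat_lit 0) (.e (nat_lit 7122) (nat_lit 382) .nil))))))) (.g (nat_lit 5) .nil .nil))) 
(.lf (nat_lit 48680) (.g (nat_lit 3514) (.e (nat_lit 1296) (nat_lit 96) (.e (nat_lit 131098) (nat_lit 3) (.e (nat_lit 98373) (nat_lit 29) (.e (nat_lit 450588) (nat_lit 10) (.e (nat_lit 573473) (nat_lit 12) (.e (nat_lit 57348) (nat_lit 0) (.e (nat_lit 7119) (nat_lit 382) .nil))))))) (.g (nat_lit 5) .nil .nil)))) (.nd (nat_lit 5) 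
(.lf (nat_lit 48664) (.g (nat_lit 3715) (.e (nat_lit 1296) (nat_lit 96) (.e (nat_lit 131098) (nat_lit 3) (.e (nat_lit 98373) (nat_lit 29) (.e (nat_lit 450587) (nat_lit 10) (.e (nat_lit 573475) (nat_lit 12) (.e (nat_lit 57344) (nat_lit 0) (.e (nat_lit 7122) (nat_lit 382) .nil))))))) (.g (nat_lit 5) .nil .nil))) 
(.lf (nat_lit 48696) (.g (nat_lit 2645) (.e (nat_lit 1296) (nat_lit 96) (.e (nat_lit 131102) (nat_lit 7) (.e (nat_lit 319534) (nat_lit 16) (.e (nat_lit 286756) (nat_lit 10) (.e (nat_lit 344168) (nat_lit 40) (.e (nat_lit 671751) (nat_lit 0) (.e (nat_lit 1182) (nat_lit 87) (.e (nat_lit 57724) (nat_lit 181) .nil)))))))) (.g (nat_lit 4) .nil .nil)))))) 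
(.nd (nat_lit 3) (.nd (nat_lit 4) (.nd (nat_lit 5) 
(.lf (nat_lit 48644) (.g (nat_lit 2575) (.e (nat_lit 1296) (nat_lit 96) (.e (nat_lit 131098) (nat_lit 3) (.e (nat_lit 98372) (nat_lit 29) (.e (nat_lit 450586) (nat_lit 10) (.e (nat_lit 573473) (nat_lit 12) (.e (nat_lit 57352) (nat_lit 0) (.e (nat_lit 7122) (nat_lit 382) .nil))))))) (.g (nat_lit 5) .nil .nil))) 
(.lf (nat_lit 48676) (.g (nat_lit 2446) (.e (nat_lit 1296) (nat_lit 96) (.e (nat_lit 131098) (nat_lit 3) (.e (nat_lit 98373) (nat_lit 29) (.e (nat_lit 450587) (nat_lit 10) (.e (nat_lit 573478) (nat_lit 12) .nil))))) .nil))) (.nd (nat_lit 5) 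
(.lf (nat_lit 48660) (.g (nat_lit 1214) (.e (nat_lit 1296) (nat_lit 96) (.e (nat_lit 131098) (nat_lit 3) (.e (nat_lit 98373) (nat_lit 29) (.e (nat_lit 458496) (nat_lit 3) .nil)))) .nil)) 
(.lf (nat_lit 48692) (.g (nat_lit 1466) (.e (nat_lit 1296) (nat_lit 96) (.e (nat_lit 131102) (nat_lit 7) (.e (nat_lit 319533) (nat_lit 16) (.e (nat_lit 286753) (nat_lit 10) (.e (nat_lit 344168) (nat_lit 40) .nil))))) .nil)))) (.nd (nat_lit 4) (.nd (nat_lit 5) 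
(.lf (nat_lit 48652) (.g (nat_lit 2017) (.e (nat_lit 1296) (nat_lit 96) (.e (nat_lit 131098) (nat_lit 3) (.e (nat_lit 98372) (nat_lit 29) (.e (nat_lit 450586) (nat_lit 10) (.e (nat_lit 573477) (nat_lit 12) (.e (nat_lit 57351) (nat_lit 0) (.e (nat_lit 7124) (nat_lit 382) .nil))))))) (.g (nat_lit 5) .nil .nil))) 
(.lf (nat_lit 48684) (.g (nat_lit 2565) (.e (nat_lit 1296) (nat_lit 96) (.e (nat_lit 131098) (nat_lit 3) (.e (nat_lit 98373) (nat_lit 29) (.e (nat_lit 450588) (nat_lit 10) (.e (nat_lit 573475) (nat_lit 12) .nil))))) .nil))) (.nd (nat_lit 5) 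
(.lf (nat_lit 48668) (.g (nat_lit 3999) (.e (nat_lit 1296) (nat_lit 96) (.e (nat_lit 131098) (nat_lit 3) (.e (nat_lit 98373) (nat_lit 29) (.e (nat_lit 450587) (nat_lit 10) (.e (nat_lit 573475) (nat_lit 12) (.e (nat_lit 57346) (nat_lit 0) (.e (nat_lit 7133) (nat_lit 382) .nil))))))) (.g (nat_lit 6) .nil .nil))) 
(.lf (nat_lit 48700) (.g (nat_lit 2614) (.e (nat_lit 1296) (nat_lit 96) (.e (nat_lit 131105) (nat_lit 9) (.e (nat_lit 336443) (nat_lit 32) (.e (nat_lit 466972) (nat_lit 21) (.e (nat_lit 164330) (nat_lit 230) (.e (nat_lit 171776) (nat_lit 62) (.e (nat_lit 57823) (nat_lit 250) .nil))))))) (.g (nat_lit 5) .nil .nil))))))) (.nd (nat_lit 2) (.nd (nat_lit 3) (.nd (nat_lit 4) (.nd (nat_lit 5) 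
(.lf (nat_lit 48642) (.g (nat_lit 2260) (.e (nat_lit 1296) (nat_lit 96) (.e (nat_lit 131098) (nat_lit 3) (.e (nat_lit 98372) (nat_lit 29) (.e (nat_lit 450586) (nat_lit 10) (.e (nat_lit 573473) (nat_lit 12) (.e (nat_lit 57348) (nat_lit 0) (.e (nat_lit 7119) (nat_lit 382) .nil))))))) (.g (nat_lit 5) .nil .nil))) 
(.lf (nat_lit 48674) (.g (nat_lit 2721) (.e (nat_lit 1296) (nat_lit 96) (.e (nat_lit 131098) (nat_lit 3) (.e (nat_lit 98373) (nat_lit 29) (.e (nat_lit 450587) (nat_lit 10) (.e (nat_lit 573477) (nat_lit 12) (.e (nat_lit 57353) (nat_lit 0) (.e (nat_lit 7122) (nat_lit 382) .nil))))))) (.g (nat_lit 4) .nil .nil)))) (.nd (nat_lit 5) 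
(.lf (nat_lit 48658) (.g (nat_lit 1797) (.e (nat_lit 1296) (nat_lit 96) (.e (nat_lit 131098) (nat_lit 3) (.e (nat_lit 98372) (nat_lit 29) (.e (nat_lit 450586) (nat_lit 10) (.e (nat_lit 573478) (nat_lit 12) (.e (nat_lit 57352) (nat_lit 0) (.e (nat_lit 7122) (nat_lit 382) .nil))))))) (.g (nat_lit 4) .nil .nil))) 
(.lf (nat_lit 48690) (.g (nat_lit 2273) (.e (nat_lit 1296) (nat_lit 96) (.e (nat_lit 131102) (nat_lit 7) (.e (nat_lit 319533) (nat_lit 16) (.e (nat_lit 286753) (nat_lit 10) (.e (nat_lit 344097) (nat_lit 18) (.e (nat_lit 5194) (nat_lit 294) (.e (nat_lit 57365) (nat_lit 1) (.e (nat_lit 57830) (nat_lit 250) .nil)))))))) (.g (nat_lit 5) .nil .nil))))) (.nd (nat_lit 4) (.nd (nat_lit 5) 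
(.lf (nat_lit 48650) (.g (nat_lit 2661) (.e (nat_lit 1296) (nat_lit 96) (.e (nat_lit 131098) (nat_lit 3) (.e (nat_lit 98372) (nat_lit 29) (.e (nat_lit 450586) (nat_lit 10) (.e (nat_lit 573475) (nat_lit 12) (.e (nat_lit 57353) (nat_lit 0) (.e (nat_lit 7125) (nat_lit 382) .nil))))))) (.g (nat_lit 5) .nil .nil))) 
(.lf (nat_lit 48682) (.g (nat_lit 3842) (.e (nat_lit 1296) (nat_lit 96) (.e (nat_lit 131098) (nat_lit 3) (.e (nat_lit 98373) (nat_lit 29) (.e (nat_lit 450588) (nat_lit 10) (.e (nat_lit 573473) (nat_lit 12) (.e (nat_lit 57352) (nat_lit 0) (.e (nat_lit 7122) (nat_lit 382) .nil))))))) (.g (nat_lit 5) .nil .nil)))) (.nd (nat_lit 5) 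
(.lf (nat_lit 48666) (.g (nat_lit 3298) (.e (nat_lit 1296) (nat_lit 96) (.e (nat_lit 131098) (nat_lit 3) (.e (nat_lit 98373) (nat_lit 29) (.e (nat_lit 450587) (nat_lit 10) (.e (nat_lit 573475) (nat_lit 12) (.e (nat_lit 57345) (nat_lit 0) (.e (nat_lit 7119) (nat_lit 382) .nil))))))) (.g (nat_lit 5) .nil .nil))) 
(.lf (nat_lit 48698) (.g (nat_lit 1505) (.e (nat_lit 1296) (nat_lit 96) (.e (nat_lit 131105) (nat_lit 9) (.e (nat_lit 336443) (nat_lit 32) (.e (nat_lit 466969) (nat_lit 21) (.e (nat_lit 164332) (nat_lit 230) (.e (nat_lit 171776) (nat_lit 62) (.e (nat_lit 57823) (nat_lit 250) .nil))))))) (.g (nat_lit 4) .nil .nil)))))) (.nd (nat_lit 3) (.nd (nat_lit 4) (.nd (nat_lit 5) 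
(.lf (nat_lit 48646) (.g (nat_lit 3169) (.e (nat_lit 1296) (nat_lit 96) (.e (nat_lit 131098) (nat_lit 3) (.e (nat_lit 98372) (nat_lit 29) (.e (nat_lit 450586) (nat_lit 10) (.e (nat_lit 573475) (nat_lit 12) (.e (nat_lit 57348) (nat_lit 0) (.e (nat_lit 7124) (nat_lit 382) .nil))))))) (.g (nat_lit 6) .nil .nil))) 
(.lf (nat_lit 48678) (.g (nat_lit 2765) (.e (nat_lit 1296) (nat_lit 96) (.e (nat_lit 131098) (nat_lit 3) (.e (nat_lit 98373) (nat_lit 29) (.e (nat_lit 450587) (nat_lit 10) (.e (nat_lit 573478) (nat_lit 12) (.e (nat_lit 57352) (nat_lit 0) (.e (nat_lit 7122) (nat_lit 382) .nil))))))) (.g (nat_lit 4) .nil .nil)))) (.nd (nat_lit 5) 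
(.lf (nat_lit 48662) (.g (nat_lit 4566) (.e (nat_lit 1296) (nat_lit 96) (.e (nat_lit 131098) (nat_lit 3) (.e (nat_lit 98373) (nat_lit 29) (.e (nat_lit 450587) (nat_lit 10) (.e (nat_lit 573473) (nat_lit 12) (.e (nat_lit 57348) (nat_lit 0) (.e (nat_lit 7124) (nat_lit 382) .nil))))))) (.g (nat_lit 7) .nil .nil))) 
(.lf (nat_lit 48694) (.g (nat_lit 3388) (.e (nat_lit 1296) (nat_lit 96) (.e (nat_lit 131102) (nat_lit 7) (.e (nat_lit 319534) (nat_lit 16) (.e (nat_lit 286756) (nat_lit 10) (.e (nat_lit 344097) (nat_lit 18) (.e (nat_lit 5194) (nat_lit 294) (.e (nat_lit 57365) (nat_lit 1) (.e (nat_lit 57830) (nat_lit 250) .nil)))))))) (.g (nat_lit 6) .nil .nil))))) (.nd (nat_lit 4) (.nd (nat_lit 5) 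
(.lf (nat_lit 48654) (.g (nat_lit 1563) (.e (nat_lit 1296) (nat_lit 96) (.e (nat_lit 131098) (nat_lit 3) (.e (nat_lit 98372) (nat_lit 29) (.e (nat_lit 450586) (nat_lit 10) (.e (nat_lit 573477) (nat_lit 12) (.e (nat_lit 57353) (nat_lit 0) (.e (nat_lit 7122) (nat_lit 382) .nil))))))) (.g (nat_lit 4) .nil .nil))) 
(.lf (nat_lit 48686) (.g (nat_lit 4582) (.e (nat_lit 1296) (nat_lit 96) (.e (nat_lit 131098) (nat_lit 3) (.e (nat_lit 98373) (nat_lit 29) (.e (nat_lit 450588) (nat_lit 10) (.e (nat_lit 573475) (nat_lit 12) (.e (nat_lit 57348) (nat_lit 0) (.e (nat_lit 7125) (nat_lit 382) .nil))))))) (.g (nat_lit 7) .nil .nil)))) (.nd (nat_lit 5) 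
(.lf (nat_lit 48670) (.g (nat_lit 3491) (.e (nat_lit 1296) (nat_lit 96) (.e (nat_lit 131098) (nat_lit 3) (.e (nat_lit 98373) (nat_lit 29) (.e (nat_lit 450587) (nat_lit 10) (.e (nat_lit 573475) (nat_lit 12) (.e (nat_lit 57351) (nat_lit 0) (.e (nat_lit 7122) (nat_lit 382) .nil))))))) (.g (nat_lit 5) .nil .nil))) 
(.lf (nat_lit 48702) (.g (nat_lit 1822) (.e (nat_lit 1296) (nat_lit 96) (.e (nat_lit 131107) (nat_lit 9) (.e (nat_lit 336369) (nat_lit 27) (.e (nat_lit 426173) (nat_lit 7) (.e (nat_lit 409649) (nat_lit 18) (.e (nat_lit 303111) (nat_lit 0) (.e (nat_lit 2422) (nat_lit 157) (.e (nat_lit 6250) (nat_lit 337) .nil)))))))) (.g (nat_lit 4) .nil .nil)))))))) 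
(.nd (nat_lit 1) (.nd (nat_lit 2) (.nd (nat_lit 3) (.nd (nat_lit 4) (.nd (nat_lit 5) 
(.lf (nat_lit 48641) (.g (nat_lit 774) (.e (nat_lit 1296) (nat_lit 96) (.e (nat_lit 131098) (nat_lit 3) (.e (nat_lit 98372) (nat_lit 29) (.e (nat_lit 450586) (nat_lit 10) .nil)))) .nil)) 
(.lf (nat_lit 48673) (.g (nat_lit 3427) (.e (nat_lit 1296) (nat_lit 96) (.e (nat_lit 131098) (nat_lit 3) (.e (nat_lit 98373) (nat_lit 29) (.e (nat_lit 450587) (nat_lit 10) (.e (nat_lit 573477) (nat_lit 12) (.e (nat_lit 57352) (nat_lit 0) (.e (nat_lit 7122) (nat_lit 382) .nil))))))) (.g (nat_lit 5) .nil .nil)))) (.nd (nat_lit 5) 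
(.lf (nat_lit 48657) (.g (nat_lit 2176) (.e (nat_lit 1296) (nat_lit 96) (.e (nat_lit 131098) (nat_lit 3) (.e (nat_lit 98372) (nat_lit 29) (.e (nat_lit 450586) (nat_lit 10) (.e (nat_lit 573478) (nat_lit 12) (.e (nat_lit 57351) (nat_lit 0) (.e (nat_lit 7122) (nat_lit 382) .nil))))))) (.g (nat_lit 5) .nil .nil))) 
(.lf (nat_lit 48689) (.g (nat_lit 3888) (.e (nat_lit 1296) (nat_lit 96) (.e (nat_lit 131098) (nat_lit 3) (.e (nat_lit 98373) (nat_lit 29) (.e (nat_lit 450588) (nat_lit 10) (.e (nat_lit 573475) (nat_lit 12) (.e (nat_lit 57353) (nat_lit 0) (.e (nat_lit 7125) (nat_lit 382) .nil))))))) (.g (nat_lit 5) .nil .nil))))) (.nd (nat_lit 4) (.nd (nat_lit 5) 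
(.lf (nat_lit 48649) (.g (nat_lit 2746) (.e (nat_lit 1296) (nat_lit 96) (.e (nat_lit 131098) (nat_lit 3) (.e (nat_lit 98372) (nat_lit 29) (.e (nat_lit 450586) (nat_lit 10) (.e (nat_lit 573475) (nat_lit 12) (.e (nat_lit 57353) (nat_lit 0) (.e (nat_lit 7124) (nat_lit 382) .nil))))))) (.g (nat_lit 5) .nil .nil))) 
(.lf (nat_lit 48681) (.g (nat_lit 3462) (.e (nat_lit 1296) (nat_lit 96) (.e (nat_lit 131098) (nat_lit 3) (.e (nat_lit 98373) (nat_lit 29) (.e (nat_lit 450588) (nat_lit 10) (.e (nat_lit 573473) (nat_lit 12) (.e (nat_lit 57348) (nat_lit 0) (.e (nat_lit 7122) (nat_lit 382) .nil))))))) (.g (nat_lit 5) .nil .nil)))) (.nd (nat_lit 5) 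
(.lf (nat_lit 48665) (.g (nat_lit 3894) (.e (nat_lit 1296) (nat_lit 96) (.e (nat_lit 131098) (nat_lit 3) (.e (nat_lit 98373) (nat_lit 29) (.e (nat_lit 450587) (nat_lit 10) (.e (nat_lit 573475) (nat_lit 12) (.e (nat_lit 57344) (nat_lit 0) (.e (nat_lit 7125) (nat_lit 382) .nil))))))) (.g (nat_lit 5) .nil .nil))) 
(.lf (nat_lit 48697) (.g (nat_lit 2314) (.e (nat_lit 1296) (nat_lit 96) (.e (nat_lit 131105) (nat_lit 9) (.e (nat_lit 336443) (nat_lit 32) (.e (nat_lit 466969) (nat_lit 21) (.e (nat_lit 164330) (nat_lit 230) (.e (nat_lit 171776) (nat_lit 62) (.e (nat_lit 57823) (nat_lit 250) .nil))))))) (.g (nat_lit 5) .nil .nil)))))) (.nd (nat_lit 3) (.nd (nat_lit 4) (.nd (nat_lit 5) 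
(.lf (nat_lit 48645) (.g (nat_lit 3864) (.e (nat_lit 1296) (nat_lit 96) (.e (nat_lit 131098) (nat_lit 3) (.e (nat_lit 98372) (nat_lit 29) (.e (nat_lit 450586) (nat_lit 10) (.e (nat_lit 573475) (nat_lit 12) (.e (nat_lit 57347) (nat_lit 0) (.e (nat_lit 7124) (nat_lit 382) .nil))))))) (.g (nat_lit 6) .nil .nil))) 
(.lf (nat_lit 48677) (.g (nat_lit 3140) (.e (nat_lit 1296) (nat_lit 96) (.e (nat_lit 131098) (nat_lit 3) (.e (nat_lit 98373) (nat_lit 29) (.e (nat_lit 450587) (nat_lit 10) (.e (nat_lit 573478) (nat_lit 12) (.e (nat_lit 57351) (nat_lit 0) (.e (nat_lit 7122) (nat_lit 382) .nil))))))) (.g (nat_lit 5) .nil .nil)))) (.nd (nat_lit 5) 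
(.lf (nat_lit 48661) (.g (nat_lit 1079) (.e (nat_lit 1296) (nat_lit 96) (.e (nat_lit 131098) (nat_lit 3) (.e (nat_lit 98373) (nat_lit 29) (.e (nat_lit 450586) (nat_lit 10) .nil)))) .nil)) 
(.lf (nat_lit 48693) (.g (nat_lit 3165) (.e (nat_lit 1296) (nat_lit 96) (.e (nat_lit 131102) (nat_lit 7) (.e (nat_lit 319534) (nat_lit 16) (.e (nat_lit 286749) (nat_lit 9) (.e (nat_lit 335997) (nat_lit 1) (.e (nat_lit 57848) (nat_lit 252) (.e (nat_lit 57365) (nat_lit 1) (.e (nat_lit 57830) (nat_lit 250) .nil)))))))) (.g (nat_lit 6) .nil .nil))))) (.nd (nat_lit 4) (.nd (nat_lit 5) 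
(.lf (nat_lit 48653) (.g (nat_lit 2267) (.e (nat_lit 1296) (nat_lit 96) (.e (nat_lit 131098) (nat_lit 3) (.e (nat_lit 98372) (nat_lit 29) (.e (nat_lit 450586) (nat_lit 10) (.e (nat_lit 573477) (nat_lit 12) (.e (nat_lit 57352) (nat_lit 0) (.e (nat_lit 7122) (nat_lit 382) .nil))))))) (.g (nat_lit 5) .nil .nil))) 
(.lf (nat_lit 48685) (.g (nat_lit 3289) (.e (nat_lit 1296) (nat_lit 96) (.e (nat_lit 131098) (nat_lit 3) (.e (nat_lit 98373) (nat_lit 29) (.e (nat_lit 450588) (nat_lit 10) (.e (nat_lit 573475) (nat_lit 12) (.e (nat_lit 57348) (nat_lit 0) (.e (nat_lit 7119) (nat_lit 382) .nil))))))) (.g (nat_lit 4) .nil .nil)))) (.nd (nat_lit 5) 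
(.lf (nat_lit 48669) (.g (nat_lit 3863) (.e (nat_lit 1296) (nat_lit 96) (.e (nat_lit 131098) (nat_lit 3) (.e (nat_lit 98373) (nat_lit 29) (.e (nat_lit 450587) (nat_lit 10) (.e (nat_lit 573475) (nat_lit 12) (.e (nat_lit 57346) (nat_lit 0) (.e (nat_lit 7134) (nat_lit 382) .nil))))))) (.g (nat_lit 6) .nil .nil))) 
(.lf (nat_lit 48701) (.g (nat_lit 2219) (.e (nat_lit 1296) (nat_lit 96) (.e (nat_lit 131105) (nat_lit 9) (.e (nat_lit 336443) (nat_lit 32) (.e (nat_lit 466972) (nat_lit 21) (.e (nat_lit 164332) (nat_lit 230) (.e (nat_lit 171776) (nat_lit 62) (.e (nat_lit 57827) (nat_lit 250) .nil))))))) (.g (nat_lit 5) .nil .nil))))))) (.nd (nat_lit 2) (.nd (nat_lit 3) (.nd (nat_lit 4) (.nd (nat_lit 5) 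
(.lf (nat_lit 48643) (.g (nat_lit 2208) (.e (nat_lit 1296) (nat_lit 96) (.e (nat_lit 131098) (nat_lit 3) (.e (nat_lit 98372) (nat_lit 29) (.e (nat_lit 450586) (nat_lit 10) (.e (nat_lit 573473) (nat_lit 12) (.e (nat_lit 57348) (nat_lit 0) (.e (nat_lit 7122) (nat_lit 382) .nil))))))) (.g (nat_lit 5) .nil .nil))) 
(.lf (nat_lit 48675) (.g (nat_lit 4198) (.e (nat_lit 1296) (nat_lit 96) (.e (nat_lit 131098) (nat_lit 3) (.e (nat_lit 98373) (nat_lit 29) (.e (nat_lit 450587) (nat_lit 10) (.e (nat_lit 573477) (nat_lit 12) (.e (nat_lit 57353) (nat_lit 0) (.e (nat_lit 7124) (nat_lit 382) .nil))))))) (.g (nat_lit 7) .nil .nil)))) (.nd (nat_lit 5) 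
(.lf (nat_lit 48659) (.g (nat_lit 2699) (.e (nat_lit 1296) (nat_lit 96) (.e (nat_lit 131098) (nat_lit 3) (.e (nat_lit 98372) (nat_lit 29) (.e (nat_lit 450588) (nat_lit 10) (.e (nat_lit 573475) (nat_lit 12) .nil))))) .nil)) 
(.lf (nat_lit 48691) (.g (nat_lit 2509) (.e (nat_lit 1296) (nat_lit 96) (.e (nat_lit 131102) (nat_lit 7) (.e (nat_lit 319533) (nat_lit 16) (.e (nat_lit 286753) (nat_lit 10) (.e (nat_lit 344097) (nat_lit 18) (.e (nat_lit 5194) (nat_lit 294) (.e (nat_lit 57368) (nat_lit 1) (.e (nat_lit 57830) (nat_lit 250) .nil)))))))) (.g (nat_lit 6) .nil .nil))))) (.nd (nat_lit 4) (.nd (nat_lit 5) 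
(.lf (nat_lit 48651) (.g (nat_lit 1459) (.e (nat_lit 1296) (nat_lit 96) (.e (nat_lit 131098) (nat_lit 3) (.e (nat_lit 98372) (nat_lit 29) (.e (nat_lit 450586) (nat_lit 10) (.e (nat_lit 573477) (nat_lit 12) .nil))))) .nil)) 
(.lf (nat_lit 48683) (.g (nat_lit 2839) (.e (nat_lit 1296) (nat_lit 96) (.e (nat_lit 131098) (nat_lit 3) (.e (nat_lit 98373) (nat_lit 29) (.e (nat_lit 450588) (nat_lit 10) (.e (nat_lit 573473) (nat_lit 12) (.e (nat_lit 57353) (nat_lit 0) (.e (nat_lit 7119) (nat_lit 382) .nil))))))) (.g (nat_lit 4) .nil .nil)))) (.nd (nat_lit 5) 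
(.lf (nat_lit 48667) (.g (nat_lit 3401) (.e (nat_lit 1296) (nat_lit 96) (.e (nat_lit 131098) (nat_lit 3) (.e (nat_lit 98373) (nat_lit 29) (.e (nat_lit 450587) (nat_lit 10) (.e (nat_lit 573475) (nat_lit 12) (.e (nat_lit 57345) (nat_lit 0) (.e (nat_lit 7123) (nat_lit 382) .nil))))))) (.g (nat_lit 5) .nil .nil))) 
(.lf (nat_lit 48699) (.g (nat_lit 2194) (.e (nat_lit 1296) (nat_lit 96) (.e (nat_lit 131105) (nat_lit 9) (.e (nat_lit 336443) (nat_lit 32) (.e (nat_lit 466969) (nat_lit 21) (.e (nat_lit 164332) (nat_lit 230) (.e (nat_lit 171776) (nat_lit 62) (.e (nat_lit 57827) (nat_lit 250) .nil))))))) (.g (nat_lit 5) .nil .nil)))))) (.nd (nat_lit 3) (.nd (nat_lit 4) (.nd (nat_lit 5) 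
(.lf (nat_lit 48647) (.g (nat_lit 3123) (.e (nat_lit 1296) (nat_lit 96) (.e (nat_lit 131098) (nat_lit 3) (.e (nat_lit 98372) (nat_lit 29) (.e (nat_lit 450586) (nat_lit 10) (.e (nat_lit 573475) (nat_lit 12) (.e (nat_lit 57348) (nat_lit 0) (.e (nat_lit 7125) (nat_lit 382) .nil))))))) (.g (nat_lit 6) .nil .nil))) 
(.lf (nat_lit 48679) (.g (nat_lit 4284) (.e (nat_lit 1296) (nat_lit 96) (.e (nat_lit 131098) (nat_lit 3) (.e (nat_lit 98373) (nat_lit 29) (.e (nat_lit 450588) (nat_lit 10) (.e (nat_lit 573473) (nat_lit 12) (.e (nat_lit 57347) (nat_lit 0) (.e (nat_lit 7125) (nat_lit 382) .nil))))))) (.g (nat_lit 6) .nil .nil)))) (.nd (nat_lit 5) 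
(.lf (nat_lit 48663) (.g (nat_lit 4527) (.e (nat_lit 1296) (nat_lit 96) (.e (nat_lit 131098) (nat_lit 3) (.e (nat_lit 98373) (nat_lit 29) (.e (nat_lit 450587) (nat_lit 10) (.e (nat_lit 573473) (nat_lit 12) (.e (nat_lit 57353) (nat_lit 0) (.e (nat_lit 7124) (nat_lit 382) .nil))))))) (.g (nat_lit 7) .nil .nil))) 
(.lf (nat_lit 48695) (.g (nat_lit 3828) (.e (nat_lit 1296) (nat_lit 96) (.e (nat_lit 131102) (nat_lit 7) (.e (nat_lit 319534) (nat_lit 16) (.e (nat_lit 286756) (nat_lit 10) (.e (nat_lit 344097) (nat_lit 18) (.e (nat_lit 5195) (nat_lit 294) (.e (nat_lit 57365) (nat_lit 1) (.e (nat_lit 57830) (nat_lit 250) .nil)))))))) (.g (nat_lit 6) .nil .nil))))) (.nd (nat_lit 4) (.nd (nat_lit 5) 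
(.lf (nat_lit 48655) (.g (nat_lit 3058) (.e (nat_lit 1296) (nat_lit 96) (.e (nat_lit 131098) (nat_lit 3) (.e (nat_lit 98372) (nat_lit 29) (.e (nat_lit 450586) (nat_lit 10) (.e (nat_lit 573477) (nat_lit 12) (.e (nat_lit 57353) (nat_lit 0) (.e (nat_lit 7124) (nat_lit 382) .nil))))))) (.g (nat_lit 7) .nil .nil))) 
(.lf (nat_lit 48687) (.g (nat_lit 3916) (.e (nat_lit 1296) (nat_lit 96) (.e (nat_lit 131098) (nat_lit 3) (.e (nat_lit 98373) (nat_lit 29) (.e (nat_lit 450588) (nat_lit 10) (.e (nat_lit 573475) (nat_lit 12) (.e (nat_lit 57351) (nat_lit 0) (.e (nat_lit 7122) (nat_lit 382) .nil))))))) (.g (nat_lit 5) .nil .nil)))) (.nd (nat_lit 5) 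
(.lf (nat_lit 48671) (.g (nat_lit 2594) (.e (nat_lit 1296) (nat_lit 96) (.e (nat_lit 131098) (nat_lit 3) (.e (nat_lit 98373) (nat_lit 29) (.e (nat_lit 450587) (nat_lit 10) (.e (nat_lit 573477) (nat_lit 12) .nil))))) .nil)) 
(.lf (nat_lit 48703) (.g (nat_lit 2870) (.e (nat_lit 1296) (nat_lit 96) (.e (nat_lit 131107) (nat_lit 9) (.e (nat_lit 336369) (nat_lit 27) (.e (nat_lit 426173) (nat_lit 7) (.e (nat_lit 409649) (nat_lit 18) (.e (nat_lit 303111) (nat_lit 0) (.e (nat_lit 2449) (nat_lit 157) (.e (nat_lit 6250) (nat_lit 337) .nil)))))))) (.g (nat_lit 6) .nil .nil)))))))))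

noncomputable def tv676 : DT := (.nd (nat_lit 0) (.nd (nat_lit 1) (.nd (nat_lit 2) (.nd (nat_lit 3) (.nd (nat_lit 4) (.nd (nat_lit 5) 
(.lf (nat_lit 48704) (.g (nat_lit 1617) (.e (nat_lit 1296) (nat_lit 96) (.e (nat_lit 131107) (nat_lit 9) (.e (nat_lit 336369) (nat_lit 27) (.e (nat_lit 426173) (nat_lit 7) (.e (nat_lit 409649) (nat_lit 18) (.e (nat_lit 303111) (nat_lit 0) (.e (nat_lit 2481) (nat_lit 157) (.e (nat_lit 6292) (nat_lit 337) .nil)))))))) (.g (nat_lit 4) .nil .nil))) 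
(.lf (nat_lit 48736) (.g (nat_lit 1962) (.e (nat_lit 1296) (nat_lit 96) (.e (nat_lit 131120) (nat_lit 12) (.e (nat_lit 385105) (nat_lit 50) (.e (nat_lit 786480) (nat_lit 29) (.e (nat_lit 352318) (nat_lit 24) (.e (nat_lit 123183) (nat_lit 264) .nil)))))) (.g (nat_lit 4) .nil .nil)))) (.nd (nat_lit 5) 
(.lf (nat_lit 48720) (.g (nat_lit 1742) (.e (nat_lit 1296) (nat_lit 96) (.e (nat_lit 131119) (nat_lit 12) (.e (nat_lit 385094) (nat_lit 49) (.e (nat_lit 778327) (nat_lit 6) (.e (nat_lit 81957) (nat_lit 24) (.e (nat_lit 123185) (nat_lit 264) .nil)))))) (.g (nat_lit 4) .nil .nil))) 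
(.lf (nat_lit 48752) (.g (nat_lit 1984) (.e (nat_lit 1296) (nat_lit 96) (.e (nat_lit 131121) (nat_lit 12) (.e (nat_lit 385094) (nat_lit 49) (.e (nat_lit 778326) (nat_lit 6) (.e (nat_lit 81957) (nat_lit 24) (.e (nat_lit 123185) (nat_lit 264) .nil)))))) (.g (nat_lit 5) .nil .nil))))) (.nd (nat_lit 4) (.nd (nat_lit 5) 
(.lf (nat_lit 48712) (.g (nat_lit 2282) (.e (nat_lit 1296) (nat_lit 96) (.e (nat_lit 131109) (nat_lit 9) (.e (nat_lit 336443) (nat_lit 32) (.e (nat_lit 466969) (nat_lit 21) (.e (nat_lit 164332) (nat_lit 230) (.e (nat_lit 171776) (nat_lit 62) (.e (nat_lit 57827) (nat_lit 250) .nil))))))) (.g (nat_lit 5) .nil .nil))) 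
(.lf (nat_lit 48744) (.g (nat_lit 984) (.e (nat_lit 1296) (nat_lit 96) (.e (nat_lit 131120) (nat_lit 12) (.e (nat_lit 385106) (nat_lit 50) (.e (nat_lit 786479) (nat_lit 29) .nil)))) .nil))) (.nd (nat_lit 5) 
(.lf (nat_lit 48728) (.g (nat_lit 2264) (.e (nat_lit 1296) (nat_lit 96) (.e (nat_lit 131119) (nat_lit 12) (.e (nat_lit 385106) (nat_lit 50) (.e (nat_lit 786483) (nat_lit 30) (.e (nat_lit 360457) (nat_lit 0) (.e (nat_lit 5818) (nat_lit 320) .nil)))))) (.g (nat_lit 4) .nil .nil))) 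
(.lf (nat_lit 48760) (.g (nat_lit 1692) (.e (nat_lit 1296) (nat_lit 96) (.e (nat_lit 131121) (nat_lit 12) (.e (nat_lit 385106) (nat_lit 50) (.e (nat_lit 786481) (nat_lit 30) (.e (nat_lit 360456) (nat_lit 0) (.e (nat_lit 5818) (nat_lit 320) .nil)))))) (.g (nat_lit 4) .nil .nil)))))) (.nd (nat_lit 3) (.nd (nat_lit 4) (.nd (nat_lit 5) 
(.lf (nat_lit 48708) (.g (nat_lit 3395) (.e (nat_lit 1296) (nat_lit 96) (.e (nat_lit 131109) (nat_lit 9) (.e (nat_lit 336019) (nat_lit 3) (.e (nat_lit 98387) (nat_lit 33) (.e (nat_lit 491566) (nat_lit 12) (.e (nat_lit 385045) (nat_lit 21) (.e (nat_lit 4186) (nat_lit 251) .nil))))))) (.g (nat_lit 5) .nil .nil))) 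
(.lf (nat_lit 48740) (.g (nat_lit 2616) (.e (nat_lit 1296) (nat_lit 96) (.e (nat_lit 131120) (nat_lit 12) (.e (nat_lit 385105) (nat_lit 50) (.e (nat_lit 786483) (nat_lit 30) (.e (nat_lit 360457) (nat_lit 0) (.e (nat_lit 5818) (nat_lit 320) .nil)))))) (.g (nat_lit 6) .nil .nil)))) (.nd (nat_lit 5) 
(.lf (nat_lit 48724) (.g (nat_lit 1505) (.e (nat_lit 1296) (nat_lit 96) (.e (nat_lit 131119) (nat_lit 12) (.e (nat_lit 385105) (nat_lit 50) (.e (nat_lit 786481) (nat_lit 30) (.e (nat_lit 360457) (nat_lit 0) (.e (nat_lit 5818) (nat_lit 320) .nil)))))) (.g (nat_lit 4) .nil .nil))) 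
(.lf (nat_lit 48756) (.g (nat_lit 1332) (.e (nat_lit 1296) (nat_lit 96) (.e (nat_lit 131121) (nat_lit 12) (.e (nat_lit 385105) (nat_lit 50) (.e (nat_lit 786481) (nat_lit 30) (.e (nat_lit 360456) (nat_lit 0) (.e (nat_lit 5818) (nat_lit 320) .nil)))))) (.g (nat_lit 4) .nil .nil))))) (.nd (nat_lit 4) (.nd (nat_lit 5) 
(.lf (nat_lit 48716) (.g (nat_lit 2275) (.e (nat_lit 1296) (nat_lit 96) (.e (nat_lit 131119) (nat_lit 12) (.e (nat_lit 385094) (nat_lit 49) (.e (nat_lit 778326) (nat_lit 6) (.e (nat_lit 81957) (nat_lit 24) (.e (nat_lit 123185) (nat_lit 264) .nil)))))) (.g (nat_lit 5) .nil .nil))) 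
(.lf (nat_lit 48748) (.g (nat_lit 2323) (.e (nat_lit 1296) (nat_lit 96) (.e (nat_lit 131120) (nat_lit 12) (.e (nat_lit 385106) (nat_lit 50) (.e (nat_lit 786483) (nat_lit 30) (.e (nat_lit 360456) (nat_lit 0) (.e (nat_lit 5818) (nat_lit 320) .nil)))))) (.g (nat_lit 0) .nil .nil)))) (.nd (nat_lit 5) 
(.lf (nat_lit 48732) (.g (nat_lit 1644) (.e (nat_lit 1296) (nat_lit 96) (.e (nat_lit 131120) (nat_lit 12) (.e (nat_lit 385104) (nat_lit 50) (.e (nat_lit 786480) (nat_lit 29) (.e (nat_lit 352318) (nat_lit 24) (.e (nat_lit 123183) (nat_lit 264) .nil)))))) (.g (nat_lit 4) .nil .nil))) 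
(.lf (nat_lit 48764) (.g (nat_lit 1567) (.e (nat_lit 1296) (nat_lit 96) (.e (nat_lit 131123) (nat_lit 12) (.e (nat_lit 385093) (nat_lit 49) (.e (nat_lit 778327) (nat_lit 6) (.e (nat_lit 81957) (nat_lit 24) (.e (nat_lit 123185) (nat_lit 264) .nil)))))) (.g (nat_lit 4) .nil .nil))))))) (.nd (nat_lit 2) (.nd (nat_lit 3) (.nd (nat_lit 4) (.nd (nat_lit 5) 
(.lf (nat_lit 48706) (.g (nat_lit 3441) (.e (nat_lit 1296) (nat_lit 96) (.e (nat_lit 131109) (nat_lit 9) (.e (nat_lit 336019) (nat_lit 3) (.e (nat_lit 98387) (nat_lit 33) (.e (nat_lit 491566) (nat_lit 12) (.e (nat_lit 385043) (nat_lit 21) (.e (nat_lit 4186) (nat_lit 251) .nil))))))) (.g (nat_lit 5) .nil .nil))) 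
(.lf (nat_lit 48738) (.g (nat_lit 2369) (.e (nat_lit 1296) (nat_lit 96) (.e (nat_lit 131120) (nat_lit 12) (.e (nat_lit 385105) (nat_lit 50) (.e (nat_lit 786481) (nat_lit 30) (.e (nat_lit 360457) (nat_lit 0) (.e (nat_lit 5818) (nat_lit 320) .nil)))))) (.g (nat_lit 6) .nil .nil)))) (.nd (nat_lit 5) 
(.lf (nat_lit 48722) (.g (nat_lit 1799) (.e (nat_lit 1296) (nat_lit 96) (.e (nat_lit 131119) (nat_lit 12) (.e (nat_lit 385094) (nat_lit 49) (.e (nat_lit 778327) (nat_lit 6) (.e (nat_lit 81959) (nat_lit 24) (.e (nat_lit 123185) (nat_lit 264) .nil)))))) (.g (nat_lit 4) .nil .nil))) 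
(.lf (nat_lit 48754) (.g (nat_lit 1831) (.e (nat_lit 1296) (nat_lit 96) (.e (nat_lit 131121) (nat_lit 12) (.e (nat_lit 385094) (nat_lit 49) (.e (nat_lit 778327) (nat_lit 6) (.e (nat_lit 81959) (nat_lit 24) (.e (nat_lit 123185) (nat_lit 264) .nil)))))) (.g (nat_lit 5) .nil .nil))))) (.nd (nat_lit 4) (.nd (nat_lit 5) 
(.lf (nat_lit 48714) (.g (nat_lit 2312) (.e (nat_lit 1296) (nat_lit 96) (.e (nat_lit 131109) (nat_lit 9) (.e (nat_lit 336443) (nat_lit 32) (.e (nat_lit 466972) (nat_lit 21) (.e (nat_lit 164332) (nat_lit 230) (.e (nat_lit 171776) (nat_lit 62) (.e (nat_lit 57827) (nat_lit 250) .nil))))))) (.g (nat_lit 5) .nil .nil))) 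
(.lf (nat_lit 48746) (.g (nat_lit 2121) (.e (nat_lit 1296) (nat_lit 96) (.e (nat_lit 131120) (nat_lit 12) (.e (nat_lit 385106) (nat_lit 50) (.e (nat_lit 786480) (nat_lit 29) (.e (nat_lit 352318) (nat_lit 24) (.e (nat_lit 123185) (nat_lit 264) .nil)))))) (.g (nat_lit 5) .nil .nil)))) (.nd (nat_lit 5) 
(.lf (nat_lit 48730) (.g (nat_lit 1451) (.e (nat_lit 1296) (nat_lit 96) (.e (nat_lit 131120) (nat_lit 12) (.e (nat_lit 385093) (nat_lit 49) (.e (nat_lit 778327) (nat_lit 6) (.e (nat_lit 81959) (nat_lit 24) (.e (nat_lit 123185) (nat_lit 264) .nil)))))) (.g (nat_lit 4) .nil .nil))) 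
(.lf (nat_lit 48762) (.g (nat_lit 2384) (.e (nat_lit 1296) (nat_lit 96) (.e (nat_lit 131121) (nat_lit 12) (.e (nat_lit 385106) (nat_lit 50) (.e (nat_lit 786483) (nat_lit 30) (.e (nat_lit 360457) (nat_lit 0) (.e (nat_lit 5818) (nat_lit 320) .nil)))))) (.g (nat_lit 5) .nil .nil)))))) (.nd (nat_lit 3) (.nd (nat_lit 4) (.nd (nat_lit 5) 
(.lf (nat_lit 48710) (.g (nat_lit 2305) (.e (nat_lit 1296) (nat_lit 96) (.e (nat_lit 131109) (nat_lit 9) (.e (nat_lit 336443) (nat_lit 32) (.e (nat_lit 466969) (nat_lit 21) (.e (nat_lit 164330) (nat_lit 230) (.e (nat_lit 171776) (nat_lit 62) (.e (nat_lit 57823) (nat_lit 250) .nil))))))) (.g (nat_lit 5) .nil .nil))) 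
(.lf (nat_lit 48742) (.g (nat_lit 2928) (.e (nat_lit 1296) (nat_lit 96) (.e (nat_lit 131120) (nat_lit 12) (.e (nat_lit 385106) (nat_lit 50) (.e (nat_lit 786478) (nat_lit 29) (.e (nat_lit 352318) (nat_lit 24) (.e (nat_lit 123184) (nat_lit 264) .nil)))))) (.g (nat_lit 0) .nil .nil)))) (.nd (nat_lit 5) 
(.lf (nat_lit 48726) (.g (nat_lit 1852) (.e (nat_lit 1296) (nat_lit 96) (.e (nat_lit 131119) (nat_lit 12) (.e (nat_lit 385106) (nat_lit 50) (.e (nat_lit 786481) (nat_lit 30) (.e (nat_lit 360457) (nat_lit 0) (.e (nat_lit 5818) (nat_lit 320) .nil)))))) (.g (nat_lit 4) .nil .nil))) 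
(.lf (nat_lit 48758) (.g (nat_lit 1387) (.e (nat_lit 1296) (nat_lit 96) (.e (nat_lit 131121) (nat_lit 12) (.e (nat_lit 385105) (nat_lit 50) (.e (nat_lit 786483) (nat_lit 30) (.e (nat_lit 360456) (nat_lit 0) (.e (nat_lit 5818) (nat_lit 320) .nil)))))) (.g (nat_lit 4) .nil .nil))))) (.nd (nat_lit 4) (.nd (nat_lit 5) 
(.lf (nat_lit 48718) (.g (nat_lit 2148) (.e (nat_lit 1296) (nat_lit 96) (.e (nat_lit 131119) (nat_lit 12) (.e (nat_lit 385094) (nat_lit 49) (.e (nat_lit 778326) (nat_lit 6) (.e (nat_lit 81959) (nat_lit 24) (.e (nat_lit 123185) (nat_lit 264) .nil)))))) (.g (nat_lit 5) .nil .nil))) 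
(.lf (nat_lit 48750) (.g (nat_lit 1378) (.e (nat_lit 1296) (nat_lit 96) (.e (nat_lit 131121) (nat_lit 12) (.e (nat_lit 385074) (nat_lit 31) (.e (nat_lit 573493) (nat_lit 15) .nil)))) .nil))) (.nd (nat_lit 5) 
(.lf (nat_lit 48734) (.g (nat_lit 1954) (.e (nat_lit 1296) (nat_lit 96) (.e (nat_lit 131120) (nat_lit 12) (.e (nat_lit 385104) (nat_lit 50) (.e (nat_lit 786480) (nat_lit 29) (.e (nat_lit 352318) (nat_lit 24) (.e (nat_lit 123185) (nat_lit 264) .nil)))))) (.g (nat_lit 5) .nil .nil))) 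
(.lf (nat_lit 48766) (.g (nat_lit 1653) (.e (nat_lit 1296) (nat_lit 96) (.e (nat_lit 131123) (nat_lit 12) (.e (nat_lit 385094) (nat_lit 49) (.e (nat_lit 778326) (nat_lit 6) (.e (nat_lit 81958) (nat_lit 24) (.e (nat_lit 123184) (nat_lit 264) .nil)))))) (.g (nat_lit 4) .nil .nil)))))))) (.nd (nat_lit 1) (.nd (nat_lit 2) (.nd (nat_lit 3) (.nd (nat_lit 4) (.nd (nat_lit 5) 
(.lf (nat_lit 48705) (.g (nat_lit 3743) (.e (nat_lit 1296) (nat_lit 96) (.e (nat_lit 131109) (nat_lit 9) (.e (nat_lit 336000) (nat_lit 1) (.e (nat_lit 57681) (nat_lit 155) (.e (nat_lit 122919) (nat_lit 15) (.e (nat_lit 360451) (nat_lit 0) (.e (nat_lit 7124) (nat_lit 382) .nil))))))) (.g (nat_lit 0) .nil .nil))) 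
(.lf (nat_lit 48737) (.g (nat_lit 3008) (.e (nat_lit 1296) (nat_lit 96) (.e (nat_lit 131120) (nat_lit 12) (.e (nat_lit 385105) (nat_lit 50) (.e (nat_lit 786480) (nat_lit 29) (.e (nat_lit 352318) (nat_lit 24) (.e (nat_lit 123184) (nat_lit 264) .nil)))))) (.g (nat_lit 0) .nil .nil)))) (.nd (nat_lit 5) 
(.lf (nat_lit 48721) (.g (nat_lit 1742) (.e (nat_lit 1296) (nat_lit 96) (.e (nat_lit 131119) (nat_lit 12) (.e (nat_lit 385094) (nat_lit 49) (.e (nat_lit 778327) (nat_lit 6) (.e (nat_lit 81959) (nat_lit 24) (.e (nat_lit 123184) (nat_lit 264) .nil)))))) (.g (nat_lit 4) .nil .nil))) 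
(.lf (nat_lit 48753) (.g (nat_lit 1754) (.e (nat_lit 1296) (nat_lit 96) (.e (nat_lit 131121) (nat_lit 12) (.e (nat_lit 385094) (nat_lit 49) (.e (nat_lit 778327) (nat_lit 6) (.e (nat_lit 81957) (nat_lit 24) (.e (nat_lit 123185) (nat_lit 264) .nil)))))) (.g (nat_lit 5) .nil .nil))))) (.nd (nat_lit 4) (.nd (nat_lit 5) 
(.lf (nat_lit 48713) (.g (nat_lit 2641) (.e (nat_lit 1296) (nat_lit 96) (.e (nat_lit 131109) (nat_lit 9) (.e (nat_lit 336443) (nat_lit 32) (.e (nat_lit 466972) (nat_lit 21) (.e (nat_lit 164330) (nat_lit 230) (.e (nat_lit 171776) (nat_lit 62) (.e (nat_lit 57823) (nat_lit 250) .nil))))))) (.g (nat_lit 5) .nil .nil))) 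
(.lf (nat_lit 48745) (.g (nat_lit 1826) (.e (nat_lit 1296) (nat_lit 96) (.e (nat_lit 131120) (nat_lit 12) (.e (nat_lit 385106) (nat_lit 50) (.e (nat_lit 786480) (nat_lit 29) (.e (nat_lit 352318) (nat_lit 24) (.e (nat_lit 123183) (nat_lit 264) .nil)))))) (.g (nat_lit 4) .nil .nil)))) (.nd (nat_lit 5) 
(.lf (nat_lit 48729) (.g (nat_lit 1442) (.e (nat_lit 1296) (nat_lit 96) (.e (nat_lit 131120) (nat_lit 12) (.e (nat_lit 385093) (nat_lit 49) (.e (nat_lit 778327) (nat_lit 6) (.e (nat_lit 81957) (nat_lit 24) (.e (nat_lit 123185) (nat_lit 264) .nil)))))) (.g (nat_lit 5) .nil .nil))) 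
(.lf (nat_lit 48761) (.g (nat_lit 1874) (.e (nat_lit 1296) (nat_lit 96) (.e (nat_lit 131121) (nat_lit 12) (.e (nat_lit 385106) (nat_lit 50) (.e (nat_lit 786483) (nat_lit 30) (.e (nat_lit 360456) (nat_lit 0) (.e (nat_lit 5818) (nat_lit 320) .nil)))))) (.g (nat_lit 4) .nil .nil)))))) (.nd (nat_lit 3) (.nd (nat_lit 4) (.nd (nat_lit 5) 
(.lf (nat_lit 48709) (.g (nat_lit 2778) (.e (nat_lit 1296) (nat_lit 96) (.e (nat_lit 131109) (nat_lit 9) (.e (nat_lit 336019) (nat_lit 3) (.e (nat_lit 98387) (nat_lit 33) (.e (nat_lit 491566) (nat_lit 12) (.e (nat_lit 385046) (nat_lit 21) (.e (nat_lit 4186) (nat_lit 251) .nil))))))) (.g (nat_lit 5) .nil .nil))) 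
(.lf (nat_lit 48741) (.g (nat_lit 1896) (.e (nat_lit 1296) (nat_lit 96) (.e (nat_lit 131120) (nat_lit 12) (.e (nat_lit 385106) (nat_lit 50) (.e (nat_lit 786478) (nat_lit 29) (.e (nat_lit 352318) (nat_lit 24) (.e (nat_lit 123183) (nat_lit 264) .nil)))))) (.g (nat_lit 4) .nil .nil)))) (.nd (nat_lit 5) 
(.lf (nat_lit 48725) (.g (nat_lit 1303) (.e (nat_lit 1296) (nat_lit 96) (.e (nat_lit 131119) (nat_lit 12) (.e (nat_lit 385105) (nat_lit 50) (.e (nat_lit 786483) (nat_lit 30) (.e (nat_lit 360456) (nat_lit 0) (.e (nat_lit 5818) (nat_lit 320) .nil)))))) (.g (nat_lit 4) .nil .nil))) 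
(.lf (nat_lit 48757) (.g (nat_lit 1606) (.e (nat_lit 1296) (nat_lit 96) (.e (nat_lit 131121) (nat_lit 12) (.e (nat_lit 385105) (nat_lit 50) (.e (nat_lit 786481) (nat_lit 30) (.e (nat_lit 360457) (nat_lit 0) (.e (nat_lit 5818) (nat_lit 320) .nil)))))) (.g (nat_lit 4) .nil .nil))))) (.nd (nat_lit 4) (.nd (nat_lit 5) 
(.lf (nat_lit 48717) (.g (nat_lit 2100) (.e (nat_lit 1296) (nat_lit 96) (.e (nat_lit 131119) (nat_lit 12) (.e (nat_lit 385094) (nat_lit 49) (.e (nat_lit 778326) (nat_lit 6) (.e (nat_lit 81959) (nat_lit 24) (.e (nat_lit 123184) (nat_lit 264) .nil)))))) (.g (nat_lit 4) .nil .nil))) 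
(.lf (nat_lit 48749) (.g (nat_lit 2736) (.e (nat_lit 1296) (nat_lit 96) (.e (nat_lit 131120) (nat_lit 12) (.e (nat_lit 385106) (nat_lit 50) (.e (nat_lit 786483) (nat_lit 30) (.e (nat_lit 360457) (nat_lit 0) (.e (nat_lit 5818) (nat_lit 320) .nil)))))) (.g (nat_lit 0) .nil .nil)))) (.nd (nat_lit 5) 
(.lf (nat_lit 48733) (.g (nat_lit 2671) (.e (nat_lit 1296) (nat_lit 96) (.e (nat_lit 131120) (nat_lit 12) (.e (nat_lit 385104) (nat_lit 50) (.e (nat_lit 786480) (nat_lit 29) (.e (nat_lit 352318) (nat_lit 24) (.e (nat_lit 123184) (nat_lit 264) .nil)))))) (.g (nat_lit 0) .nil .nil))) 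
(.lf (nat_lit 48765) (.g (nat_lit 1581) (.e (nat_lit 1296) (nat_lit 96) (.e (nat_lit 131123) (nat_lit 12) (.e (nat_lit 385093) (nat_lit 49) (.e (nat_lit 778327) (nat_lit 6) (.e (nat_lit 81959) (nat_lit 24) (.e (nat_lit 123185) (nat_lit 264) .nil)))))) (.g (nat_lit 4) .nil .nil))))))) (.nd (nat_lit 2) (.nd (nat_lit 3) (.nd (nat_lit 4) (.nd (nat_lit 5) 
(.lf (nat_lit 48707) (.g (nat_lit 3439) (.e (nat_lit 1296) (nat_lit 96) (.e (nat_lit 131109) (nat_lit 9) (.e (nat_lit 336019) (nat_lit 3) (.e (nat_lit 98387) (nat_lit 33) (.e (nat_lit 491566) (nat_lit 12) (.e (nat_lit 385044) (nat_lit 21) (.e (nat_lit 4186) (nat_lit 251) .nil))))))) (.g (nat_lit 5) .nil .nil))) 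
(.lf (nat_lit 48739) (.g (nat_lit 2250) (.e (nat_lit 1296) (nat_lit 96) (.e (nat_lit 131120) (nat_lit 12) (.e (nat_lit 385105) (nat_lit 50) (.e (nat_lit 786483) (nat_lit 30) (.e (nat_lit 360456) (nat_lit 0) (.e (nat_lit 5818) (nat_lit 320) .nil)))))) (.g (nat_lit 0) .nil .nil)))) (.nd (nat_lit 5) 
(.lf (nat_lit 48723) (.g (nat_lit 1243) (.e (nat_lit 1296) (nat_lit 96) (.e (nat_lit 131119) (nat_lit 12) (.e (nat_lit 385105) (nat_lit 50) (.e (nat_lit 786481) (nat_lit 30) (.e (nat_lit 360456) (nat_lit 0) (.e (nat_lit 5818) (nat_lit 320) .nil)))))) (.g (nat_lit 4) .nil .nil))) 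
(.lf (nat_lit 48755) (.g (nat_lit 1748) (.e (nat_lit 1296) (nat_lit 96) (.e (nat_lit 131121) (nat_lit 12) (.e (nat_lit 385105) (nat_lit 50) (.e (nat_lit 786478) (nat_lit 29) (.e (nat_lit 352318) (nat_lit 24) (.e (nat_lit 123184) (nat_lit 264) .nil)))))) (.g (nat_lit 4) .nil .nil))))) (.nd (nat_lit 4) (.nd (nat_lit 5) 
(.lf (nat_lit 48715) (.g (nat_lit 2290) (.e (nat_lit 1296) (nat_lit 96) (.e (nat_lit 131109) (nat_lit 9) (.e (nat_lit 336443) (nat_lit 32) (.e (nat_lit 466972) (nat_lit 21) (.e (nat_lit 164332) (nat_lit 230) (.e (nat_lit 171776) (nat_lit 62) (.e (nat_lit 57830) (nat_lit 250) .nil))))))) (.g (nat_lit 5) .nil .nil))) 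
(.lf (nat_lit 48747) (.g (nat_lit 2360) (.e (nat_lit 1296) (nat_lit 96) (.e (nat_lit 131120) (nat_lit 12) (.e (nat_lit 385106) (nat_lit 50) (.e (nat_lit 786481) (nat_lit 30) (.e (nat_lit 360457) (nat_lit 0) (.e (nat_lit 5818) (nat_lit 320) .nil)))))) (.g (nat_lit 0) .nil .nil)))) (.nd (nat_lit 5) 
(.lf (nat_lit 48731) (.g (nat_lit 1485) (.e (nat_lit 1296) (nat_lit 96) (.e (nat_lit 131120) (nat_lit 12) (.e (nat_lit 385094) (nat_lit 49) (.e (nat_lit 778326) (nat_lit 6) (.e (nat_lit 81958) (nat_lit 24) (.e (nat_lit 123184) (nat_lit 264) .nil)))))) (.g (nat_lit 4) .nil .nil))) 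
(.lf (nat_lit 48763) (.g (nat_lit 1549) (.e (nat_lit 1296) (nat_lit 96) (.e (nat_lit 131123) (nat_lit 12) (.e (nat_lit 385093) (nat_lit 49) (.e (nat_lit 778326) (nat_lit 6) (.e (nat_lit 81959) (nat_lit 24) (.e (nat_lit 123184) (nat_lit 264) .nil)))))) (.g (nat_lit 4) .nil .nil)))))) (.nd (nat_lit 3) (.nd (nat_lit 4) (.nd (nat_lit 5) 
(.lf (nat_lit 48711) (.g (nat_lit 1513) (.e (nat_lit 1296) (nat_lit 96) (.e (nat_lit 131109) (nat_lit 9) (.e (nat_lit 336443) (nat_lit 32) (.e (nat_lit 466969) (nat_lit 21) (.e (nat_lit 164332) (nat_lit 230) (.e (nat_lit 171776) (nat_lit 62) (.e (nat_lit 57823) (nat_lit 250) .nil))))))) (.g (nat_lit 4) .nil .nil))) 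
(.lf (nat_lit 48743) (.g (nat_lit 2216) (.e (nat_lit 1296) (nat_lit 96) (.e (nat_lit 131120) (nat_lit 12) (.e (nat_lit 385106) (nat_lit 50) (.e (nat_lit 786478) (nat_lit 29) (.e (nat_lit 352318) (nat_lit 24) (.e (nat_lit 123185) (nat_lit 264) .nil)))))) (.g (nat_lit 5) .nil .nil)))) (.nd (nat_lit 5) 
(.lf (nat_lit 48727) (.g (nat_lit 1751) (.e (nat_lit 1296) (nat_lit 96) (.e (nat_lit 131119) (nat_lit 12) (.e (nat_lit 385106) (nat_lit 50) (.e (nat_lit 786483) (nat_lit 30) (.e (nat_lit 360456) (nat_lit 0) (.e (nat_lit 5818) (nat_lit 320) .nil)))))) (.g (nat_lit 4) .nil .nil))) 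
(.lf (nat_lit 48759) (.g (nat_lit 1492) (.e (nat_lit 1296) (nat_lit 96) (.e (nat_lit 131121) (nat_lit 12) (.e (nat_lit 385106) (nat_lit 50) (.e (nat_lit 786478) (nat_lit 29) (.e (nat_lit 352318) (nat_lit 24) .nil))))) .nil)))) (.nd (nat_lit 4) (.nd (nat_lit 5) 
(.lf (nat_lit 48719) (.g (nat_lit 1893) (.e (nat_lit 1296) (nat_lit 96) (.e (nat_lit 131119) (nat_lit 12) (.e (nat_lit 385094) (nat_lit 49) (.e (nat_lit 778327) (nat_lit 6) (.e (nat_lit 81957) (nat_lit 24) (.e (nat_lit 123184) (nat_lit 264) .nil)))))) (.g (nat_lit 4) .nil .nil))) 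
(.lf (nat_lit 48751) (.g (nat_lit 2128) (.e (nat_lit 1296) (nat_lit 96) (.e (nat_lit 131121) (nat_lit 12) (.e (nat_lit 385094) (nat_lit 49) (.e (nat_lit 778326) (nat_lit 6) (.e (nat_lit 81957) (nat_lit 24) (.e (nat_lit 123184) (nat_lit 264) .nil)))))) (.g (nat_lit 5) .nil .nil)))) (.nd (nat_lit 5) 
(.lf (nat_lit 48735) (.g (nat_lit 2703) (.e (nat_lit 1296) (nat_lit 96) (.e (nat_lit 131120) (nat_lit 12) (.e (nat_lit 385105) (nat_lit 50) (.e (nat_lit 786478) (nat_lit 29) (.e (nat_lit 352318) (nat_lit 24) (.e (nat_lit 123184) (nat_lit 264) .nil)))))) (.g (nat_lit 6) .nil .nil))) 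
(.lf (nat_lit 48767) (.g (nat_lit 1415) (.e (nat_lit 1296) (nat_lit 96) (.e (nat_lit 131123) (nat_lit 12) (.e (nat_lit 385094) (nat_lit 49) (.e (nat_lit 778327) (nat_lit 6) (.e (nat_lit 81958) (nat_lit 24) (.e (nat_lit 123184) (nat_lit 264) .nil)))))) (.g (nat_lit 4) .nil .nil)))))))))

noncomputable def tv677 : DT := (.nd (nat_lit 0) (.nd (nat_lit 1) (.nd (nat_lit 2) (.nd (nat_lit 3) (.nd (nat_lit 4) (.nd (nat_lit 5) 
(.lf (nat_lit 48768) (.g (nat_lit 1794) (.e (nat_lit 1296) (nat_lit 96) (.e (nat_lit 131123) (nat_lit 12) (.e (nat_lit 385104) (nat_lit 50) (.e (nat_lit 786478) (nat_lit 29) (.e (nat_lit 352318) (nat_lit 24) (.e (nat_lit 123184) (nat_lit 264) .nil)))))) (.g (nat_lit 4) .nil .nil))) 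
(.lf (nat_lit 48800) (.g (nat_lit 2363) (.e (nat_lit 1296) (nat_lit 96) (.e (nat_lit 131125) (nat_lit 13) (.e (nat_lit 393260) (nat_lit 21) (.e (nat_lit 409643) (nat_lit 18) (.e (nat_lit 303115) (nat_lit 1) (.e (nat_lit 164159) (nat_lit 152) .nil)))))) (.g (nat_lit 5) .nil .nil)))) (.nd (nat_lit 5) 
(.lf (nat_lit 48784) (.g (nat_lit 1917) (.e (nat_lit 1296) (nat_lit 96) (.e (nat_lit 131123) (nat_lit 12) (.e (nat_lit 385106) (nat_lit 50) (.e (nat_lit 786480) (nat_lit 29) (.e (nat_lit 352318) (nat_lit 24) (.e (nat_lit 123183) (nat_lit 264) .nil)))))) (.g (nat_lit 4) .nil .nil))) 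
(.lf (nat_lit 48816) (.g (nat_lit 3145) (.e (nat_lit 1296) (nat_lit 96) (.e (nat_lit 131125) (nat_lit 13) (.e (nat_lit 393301) (nat_lit 27) (.e (nat_lit 491559) (nat_lit 10) (.e (nat_lit 344090) (nat_lit 18) (.e (nat_lit 7125) (nat_lit 382) .nil)))))) (.g (nat_lit 5) .nil .nil))))) (.nd (nat_lit 4) (.nd (nat_lit 5) 
(.lf (nat_lit 48776) (.g (nat_lit 2370) (.e (nat_lit 1296) (nat_lit 96) (.e (nat_lit 131123) (nat_lit 12) (.e (nat_lit 385105) (nat_lit 50) (.e (nat_lit 786480) (nat_lit 29) (.e (nat_lit 352318) (nat_lit 24) (.e (nat_lit 123185) (nat_lit 264) .nil)))))) (.g (nat_lit 5) .nil .nil))) 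
(.lf (nat_lit 48808) (.g (nat_lit 1425) (.e (nat_lit 1296) (nat_lit 96) (.e (nat_lit 131125) (nat_lit 13) (.e (nat_lit 393293) (nat_lit 26) (.e (nat_lit 475214) (nat_lit 42) (.e (nat_lit 720932) (nat_lit 21) .nil))))) .nil))) (.nd (nat_lit 5) 
(.lf (nat_lit 48792) (.g (nat_lit 3107) (.e (nat_lit 1296) (nat_lit 96) (.e (nat_lit 131124) (nat_lit 13) (.e (nat_lit 393301) (nat_lit 27) (.e (nat_lit 491560) (nat_lit 10) (.e (nat_lit 344094) (nat_lit 18) (.e (nat_lit 7125) (nat_lit 382) .nil)))))) (.g (nat_lit 5) .nil .nil))) 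
(.lf (nat_lit 48824) (.g (nat_lit 2343) (.e (nat_lit 1296) (nat_lit 96) (.e (nat_lit 131125) (nat_lit 13) (.e (nat_lit 393301) (nat_lit 27) (.e (nat_lit 491560) (nat_lit 10) (.e (nat_lit 344090) (nat_lit 18) (.e (nat_lit 7122) (nat_lit 382) .nil)))))) (.g (nat_lit 4) .nil .nil)))))) (.nd (nat_lit 3) (.nd (nat_lit 4) (.nd (nat_lit 5) 
(.lf (nat_lit 48772) (.g (nat_lit 2730) (.e (nat_lit 1296) (nat_lit 96) (.e (nat_lit 131123) (nat_lit 12) (.e (nat_lit 385105) (nat_lit 50) (.e (nat_lit 786478) (nat_lit 29) (.e (nat_lit 352318) (nat_lit 24) (.e (nat_lit 123184) (nat_lit 264) .nil)))))) (.g (nat_lit 6) .nil .nil))) 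
(.lf (nat_lit 48804) (.g (nat_lit 2236) (.e (nat_lit 1296) (nat_lit 96) (.e (nat_lit 131125) (nat_lit 13) (.e (nat_lit 393260) (nat_lit 21) (.e (nat_lit 409649) (nat_lit 18) (.e (nat_lit 303115) (nat_lit 1) (.e (nat_lit 164148) (nat_lit 152) .nil)))))) (.g (nat_lit 4) .nil .nil)))) (.nd (nat_lit 5) 
(.lf (nat_lit 48788) (.g (nat_lit 2490) (.e (nat_lit 1296) (nat_lit 96) (.e (nat_lit 131123) (nat_lit 12) (.e (nat_lit 385106) (nat_lit 50) (.e (nat_lit 786483) (nat_lit 30) (.e (nat_lit 360456) (nat_lit 0) (.e (nat_lit 5818) (nat_lit 320) .nil)))))) (.g (nat_lit 0) .nil .nil))) 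
(.lf (nat_lit 48820) (.g (nat_lit 2520) (.e (nat_lit 1296) (nat_lit 96) (.e (nat_lit 131125) (nat_lit 13) (.e (nat_lit 393301) (nat_lit 27) (.e (nat_lit 491559) (nat_lit 10) (.e (nat_lit 344096) (nat_lit 18) .nil))))) .nil)))) (.nd (nat_lit 4) (.nd (nat_lit 5) 
(.lf (nat_lit 48780) (.g (nat_lit 2685) (.e (nat_lit 1296) (nat_lit 96) (.e (nat_lit 131123) (nat_lit 12) (.e (nat_lit 385105) (nat_lit 50) (.e (nat_lit 786483) (nat_lit 30) (.e (nat_lit 360457) (nat_lit 0) (.e (nat_lit 5818) (nat_lit 320) .nil)))))) (.g (nat_lit 5) .nil .nil))) 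
(.lf (nat_lit 48812) (.g (nat_lit 1092) (.e (nat_lit 1296) (nat_lit 96) (.e (nat_lit 131125) (nat_lit 13) (.e (nat_lit 393301) (nat_lit 27) (.e (nat_lit 491558) (nat_lit 10) .nil)))) .nil))) (.nd (nat_lit 5) 
(.lf (nat_lit 48796) (.g (nat_lit 1891) (.e (nat_lit 1296) (nat_lit 96) (.e (nat_lit 131125) (nat_lit 13) (.e (nat_lit 393234) (nat_lit 17) (.e (nat_lit 7593) (nat_lit 407) (.e (nat_lit 73730) (nat_lit 0) (.e (nat_lit 7122) (nat_lit 382) .nil)))))) (.g (nat_lit 4) .nil .nil))) 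
(.lf (nat_lit 48828) (.g (nat_lit 1645) (.e (nat_lit 1296) (nat_lit 96) (.e (nat_lit 131126) (nat_lit 13) (.e (nat_lit 393234) (nat_lit 17) (.e (nat_lit 7591) (nat_lit 407) (.e (nat_lit 73731) (nat_lit 0) (.e (nat_lit 7124) (nat_lit 382) .nil)))))) (.g (nat_lit 4) .nil .nil))))))) (.nd (nat_lit 2) (.nd (nat_lit 3) (.nd (nat_lit 4) (.nd (nat_lit 5) 
(.lf (nat_lit 48770) (.g (nat_lit 2986) (.e (nat_lit 1296) (nat_lit 96) (.e (nat_lit 131123) (nat_lit 12) (.e (nat_lit 385104) (nat_lit 50) (.e (nat_lit 786480) (nat_lit 29) (.e (nat_lit 352318) (nat_lit 24) (.e (nat_lit 123184) (nat_lit 264) .nil)))))) (.g (nat_lit 0) .nil .nil))) 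
(.lf (nat_lit 48802) (.g (nat_lit 2240) (.e (nat_lit 1296) (nat_lit 96) (.e (nat_lit 131125) (nat_lit 13) (.e (nat_lit 393260) (nat_lit 21) (.e (nat_lit 409648) (nat_lit 18) (.e (nat_lit 303115) (nat_lit 1) (.e (nat_lit 164155) (nat_lit 152) .nil)))))) (.g (nat_lit 4) .nil .nil)))) (.nd (nat_lit 5) 
(.lf (nat_lit 48786) (.g (nat_lit 2299) (.e (nat_lit 1296) (nat_lit 96) (.e (nat_lit 131123) (nat_lit 12) (.e (nat_lit 385106) (nat_lit 50) (.e (nat_lit 786480) (nat_lit 29) (.e (nat_lit 352318) (nat_lit 24) (.e (nat_lit 123185) (nat_lit 264) .nil)))))) (.g (nat_lit 5) .nil .nil))) 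
(.lf (nat_lit 48818) (.g (nat_lit 4085) (.e (nat_lit 1296) (nat_lit 96) (.e (nat_lit 131125) (nat_lit 13) (.e (nat_lit 393301) (nat_lit 27) (.e (nat_lit 491559) (nat_lit 10) (.e (nat_lit 344091) (nat_lit 18) (.e (nat_lit 7124) (nat_lit 382) .nil)))))) (.g (nat_lit 6) .nil .nil))))) (.nd (nat_lit 4) (.nd (nat_lit 5) 
(.lf (nat_lit 48778) (.g (nat_lit 2562) (.e (nat_lit 1296) (nat_lit 96) (.e (nat_lit 131123) (nat_lit 12) (.e (nat_lit 385105) (nat_lit 50) (.e (nat_lit 786481) (nat_lit 30) (.e (nat_lit 360457) (nat_lit 0) (.e (nat_lit 5818) (nat_lit 320) .nil)))))) (.g (nat_lit 6) .nil .nil))) 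
(.lf (nat_lit 48810) (.g (nat_lit 1654) (.e (nat_lit 1296) (nat_lit 96) (.e (nat_lit 131125) (nat_lit 13) (.e (nat_lit 393300) (nat_lit 27) (.e (nat_lit 491560) (nat_lit 10) (.e (nat_lit 344090) (nat_lit 18) (.e (nat_lit 7122) (nat_lit 382) .nil)))))) (.g (nat_lit 4) .nil .nil)))) (.nd (nat_lit 5) 
(.lf (nat_lit 48794) (.g (nat_lit 1710) (.e (nat_lit 1296) (nat_lit 96) (.e (nat_lit 131125) (nat_lit 13) (.e (nat_lit 393233) (nat_lit 17) (.e (nat_lit 7593) (nat_lit 407) (.e (nat_lit 73731) (nat_lit 0) (.e (nat_lit 7122) (nat_lit 382) .nil)))))) (.g (nat_lit 4) .nil .nil))) 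
(.lf (nat_lit 48826) (.g (nat_lit 2820) (.e (nat_lit 1296) (nat_lit 96) (.e (nat_lit 131125) (nat_lit 13) (.e (nat_lit 393301) (nat_lit 27) (.e (nat_lit 491560) (nat_lit 10) (.e (nat_lit 344094) (nat_lit 18) (.e (nat_lit 7122) (nat_lit 382) .nil)))))) (.g (nat_lit 5) .nil .nil)))))) (.nd (nat_lit 3) (.nd (nat_lit 4) (.nd (nat_lit 5) 
(.lf (nat_lit 48774) (.g (nat_lit 1949) (.e (nat_lit 1296) (nat_lit 96) (.e (nat_lit 131123) (nat_lit 12) (.e (nat_lit 385105) (nat_lit 50) (.e (nat_lit 786480) (nat_lit 29) (.e (nat_lit 352318) (nat_lit 24) (.e (nat_lit 123183) (nat_lit 264) .nil)))))) (.g (nat_lit 4) .nil .nil))) 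
(.lf (nat_lit 48806) (.g (nat_lit 2594) (.e (nat_lit 1296) (nat_lit 96) (.e (nat_lit 131125) (nat_lit 13) (.e (nat_lit 393260) (nat_lit 21) (.e (nat_lit 409649) (nat_lit 18) (.e (nat_lit 303115) (nat_lit 1) (.e (nat_lit 164159) (nat_lit 152) .nil)))))) (.g (nat_lit 5) .nil .nil)))) (.nd (nat_lit 5) 
(.lf (nat_lit 48790) (.g (nat_lit 2841) (.e (nat_lit 1296) (nat_lit 96) (.e (nat_lit 131124) (nat_lit 13) (.e (nat_lit 393301) (nat_lit 27) (.e (nat_lit 491558) (nat_lit 10) (.e (nat_lit 344090) (nat_lit 18) (.e (nat_lit 7125) (nat_lit 382) .nil)))))) (.g (nat_lit 4) .nil .nil))) 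
(.lf (nat_lit 48822) (.g (nat_lit 2793) (.e (nat_lit 1296) (nat_lit 96) (.e (nat_lit 131125) (nat_lit 13) (.e (nat_lit 393301) (nat_lit 27) (.e (nat_lit 491560) (nat_lit 10) (.e (nat_lit 344087) (nat_lit 18) (.e (nat_lit 7125) (nat_lit 382) .nil)))))) (.g (nat_lit 4) .nil .nil))))) (.nd (nat_lit 4) (.nd (nat_lit 5) 
(.lf (nat_lit 48782) (.g (nat_lit 3089) (.e (nat_lit 1296) (nat_lit 96) (.e (nat_lit 131123) (nat_lit 12) (.e (nat_lit 385106) (nat_lit 50) (.e (nat_lit 786478) (nat_lit 29) (.e (nat_lit 352318) (nat_lit 24) (.e (nat_lit 123184) (nat_lit 264) .nil)))))) (.g (nat_lit 0) .nil .nil))) 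
(.lf (nat_lit 48814) (.g (nat_lit 2485) (.e (nat_lit 1296) (nat_lit 96) (.e (nat_lit 131125) (nat_lit 13) (.e (nat_lit 393301) (nat_lit 27) (.e (nat_lit 491558) (nat_lit 10) (.e (nat_lit 344095) (nat_lit 18) (.e (nat_lit 7125) (nat_lit 382) .nil)))))) (.g (nat_lit 4) .nil .nil)))) (.nd (nat_lit 5) 
(.lf (nat_lit 48798) (.g (nat_lit 1901) (.e (nat_lit 1296) (nat_lit 96) (.e (nat_lit 131125) (nat_lit 13) (.e (nat_lit 393234) (nat_lit 17) (.e (nat_lit 7593) (nat_lit 407) (.e (nat_lit 73731) (nat_lit 0) (.e (nat_lit 7122) (nat_lit 382) .nil)))))) (.g (nat_lit 4) .nil .nil))) 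
(.lf (nat_lit 48830) (.g (nat_lit 1775) (.e (nat_lit 1296) (nat_lit 96) (.e (nat_lit 131126) (nat_lit 13) (.e (nat_lit 393234) (nat_lit 17) (.e (nat_lit 7593) (nat_lit 407) (.e (nat_lit 73731) (nat_lit 0) (.e (nat_lit 7125) (nat_lit 382) .nil)))))) (.g (nat_lit 4) .nil .nil)))))))) (.nd (nat_lit 1) (.nd (nat_lit 2) (.nd (nat_lit 3) (.nd (nat_lit 4) (.nd (nat_lit 5) 
(.lf (nat_lit 48769) (.g (nat_lit 1855) (.e (nat_lit 1296) (nat_lit 96) (.e (nat_lit 131123) (nat_lit 12) (.e (nat_lit 385104) (nat_lit 50) (.e (nat_lit 786480) (nat_lit 29) (.e (nat_lit 352318) (nat_lit 24) (.e (nat_lit 123183) (nat_lit 264) .nil)))))) (.g (nat_lit 4) .nil .nil))) 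
(.lf (nat_lit 48801) (.g (nat_lit 1938) (.e (nat_lit 1296) (nat_lit 96) (.e (nat_lit 131125) (nat_lit 13) (.e (nat_lit 393260) (nat_lit 21) (.e (nat_lit 409648) (nat_lit 18) (.e (nat_lit 303114) (nat_lit 1) .nil))))) .nil))) (.nd (nat_lit 5) 
(.lf (nat_lit 48785) (.g (nat_lit 3006) (.e (nat_lit 1296) (nat_lit 96) (.e (nat_lit 131123) (nat_lit 12) (.e (nat_lit 385106) (nat_lit 50) (.e (nat_lit 786480) (nat_lit 29) (.e (nat_lit 352318) (nat_lit 24) (.e (nat_lit 123184) (nat_lit 264) .nil)))))) (.g (nat_lit 0) .nil .nil))) 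
(.lf (nat_lit 48817) (.g (nat_lit 2525) (.e (nat_lit 1296) (nat_lit 96) (.e (nat_lit 131125) (nat_lit 13) (.e (nat_lit 393301) (nat_lit 27) (.e (nat_lit 491559) (nat_lit 10) (.e (nat_lit 344091) (nat_lit 18) .nil))))) .nil)))) (.nd (nat_lit 4) (.nd (nat_lit 5) 
(.lf (nat_lit 48777) (.g (nat_lit 2262) (.e (nat_lit 1296) (nat_lit 96) (.e (nat_lit 131123) (nat_lit 12) (.e (nat_lit 385105) (nat_lit 50) (.e (nat_lit 786481) (nat_lit 30) (.e (nat_lit 360456) (nat_lit 0) (.e (nat_lit 5818) (nat_lit 320) .nil)))))) (.g (nat_lit 6) .nil .nil))) 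
(.lf (nat_lit 48809) (.g (nat_lit 1136) (.e (nat_lit 1296) (nat_lit 96) (.e (nat_lit 131125) (nat_lit 13) (.e (nat_lit 393299) (nat_lit 27) (.e (nat_lit 491560) (nat_lit 10) .nil)))) .nil))) (.nd (nat_lit 5) 
(.lf (nat_lit 48793) (.g (nat_lit 1722) (.e (nat_lit 1296) (nat_lit 96) (.e (nat_lit 131125) (nat_lit 13) (.e (nat_lit 393233) (nat_lit 17) (.e (nat_lit 7593) (nat_lit 407) (.e (nat_lit 73730) (nat_lit 0) (.e (nat_lit 7122) (nat_lit 382) .nil)))))) (.g (nat_lit 4) .nil .nil))) 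
(.lf (nat_lit 48825) (.g (nat_lit 2959) (.e (nat_lit 1296) (nat_lit 96) (.e (nat_lit 131125) (nat_lit 13) (.e (nat_lit 393301) (nat_lit 27) (.e (nat_lit 491560) (nat_lit 10) (.e (nat_lit 344091) (nat_lit 18) (.e (nat_lit 7125) (nat_lit 382) .nil)))))) (.g (nat_lit 5) .nil .nil)))))) (.nd (nat_lit 3) (.nd (nat_lit 4) (.nd (nat_lit 5) 
(.lf (nat_lit 48773) (.g (nat_lit 2024) (.e (nat_lit 1296) (nat_lit 96) (.e (nat_lit 131123) (nat_lit 12) (.e (nat_lit 385105) (nat_lit 50) (.e (nat_lit 786478) (nat_lit 29) (.e (nat_lit 352318) (nat_lit 24) (.e (nat_lit 123185) (nat_lit 264) .nil)))))) (.g (nat_lit 4) .nil .nil))) 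
(.lf (nat_lit 48805) (.g (nat_lit 2593) (.e (nat_lit 1296) (nat_lit 96) (.e (nat_lit 131125) (nat_lit 13) (.e (nat_lit 393260) (nat_lit 21) (.e (nat_lit 409649) (nat_lit 18) (.e (nat_lit 303115) (nat_lit 1) (.e (nat_lit 164155) (nat_lit 152) .nil)))))) (.g (nat_lit 5) .nil .nil)))) (.nd (nat_lit 5) 
(.lf (nat_lit 48789) (.g (nat_lit 2900) (.e (nat_lit 1296) (nat_lit 96) (.e (nat_lit 131123) (nat_lit 12) (.e (nat_lit 385106) (nat_lit 50) (.e (nat_lit 786483) (nat_lit 30) (.e (nat_lit 360457) (nat_lit 0) (.e (nat_lit 5818) (nat_lit 320) .nil)))))) (.g (nat_lit 0) .nil .nil))) 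
(.lf (nat_lit 48821) (.g (nat_lit 2838) (.e (nat_lit 1296) (nat_lit 96) (.e (nat_lit 131125) (nat_lit 13) (.e (nat_lit 393301) (nat_lit 27) (.e (nat_lit 491559) (nat_lit 10) (.e (nat_lit 344096) (nat_lit 18) (.e (nat_lit 7125) (nat_lit 382) .nil)))))) (.g (nat_lit 4) .nil .nil))))) (.nd (nat_lit 4) (.nd (nat_lit 5) 
(.lf (nat_lit 48781) (.g (nat_lit 1978) (.e (nat_lit 1296) (nat_lit 96) (.e (nat_lit 131123) (nat_lit 12) (.e (nat_lit 385106) (nat_lit 50) (.e (nat_lit 786478) (nat_lit 29) (.e (nat_lit 352318) (nat_lit 24) (.e (nat_lit 123183) (nat_lit 264) .nil)))))) (.g (nat_lit 4) .nil .nil))) 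
(.lf (nat_lit 48813) (.g (nat_lit 3231) (.e (nat_lit 1296) (nat_lit 96) (.e (nat_lit 131125) (nat_lit 13) (.e (nat_lit 393301) (nat_lit 27) (.e (nat_lit 491558) (nat_lit 10) (.e (nat_lit 344090) (nat_lit 18) (.e (nat_lit 7124) (nat_lit 382) .nil)))))) (.g (nat_lit 6) .nil .nil)))) (.nd (nat_lit 5) 
(.lf (nat_lit 48797) (.g (nat_lit 1797) (.e (nat_lit 1296) (nat_lit 96) (.e (nat_lit 131125) (nat_lit 13) (.e (nat_lit 393234) (nat_lit 17) (.e (nat_lit 7593) (nat_lit 407) (.e (nat_lit 73730) (nat_lit 0) (.e (nat_lit 7125) (nat_lit 382) .nil)))))) (.g (nat_lit 4) .nil .nil))) 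
(.lf (nat_lit 48829) (.g (nat_lit 1410) (.e (nat_lit 1296) (nat_lit 96) (.e (nat_lit 131126) (nat_lit 13) (.e (nat_lit 393234) (nat_lit 17) (.e (nat_lit 7593) (nat_lit 407) (.e (nat_lit 73731) (nat_lit 0) .nil))))) .nil)))))) (.nd (nat_lit 2) (.nd (nat_lit 3) (.nd (nat_lit 4) (.nd (nat_lit 5) 
(.lf (nat_lit 48771) (.g (nat_lit 2279) (.e (nat_lit 1296) (nat_lit 96) (.e (nat_lit 131123) (nat_lit 12) (.e (nat_lit 385104) (nat_lit 50) (.e (nat_lit 786480) (nat_lit 29) (.e (nat_lit 352318) (nat_lit 24) (.e (nat_lit 123185) (nat_lit 264) .nil)))))) (.g (nat_lit 5) .nil .nil))) 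
(.lf (nat_lit 48803) (.g (nat_lit 2384) (.e (nat_lit 1296) (nat_lit 96) (.e (nat_lit 131125) (nat_lit 13) (.e (nat_lit 393260) (nat_lit 21) (.e (nat_lit 409648) (nat_lit 18) (.e (nat_lit 303115) (nat_lit 1) (.e (nat_lit 164159) (nat_lit 152) .nil)))))) (.g (nat_lit 4) .nil .nil)))) (.nd (nat_lit 5) 
(.lf (nat_lit 48787) (.g (nat_lit 2524) (.e (nat_lit 1296) (nat_lit 96) (.e (nat_lit 131123) (nat_lit 12) (.e (nat_lit 385106) (nat_lit 50) (.e (nat_lit 786481) (nat_lit 30) (.e (nat_lit 360457) (nat_lit 0) (.e (nat_lit 5818) (nat_lit 320) .nil)))))) (.g (nat_lit 0) .nil .nil))) 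
(.lf (nat_lit 48819) (.g (nat_lit 2770) (.e (nat_lit 1296) (nat_lit 96) (.e (nat_lit 131125) (nat_lit 13) (.e (nat_lit 393301) (nat_lit 27) (.e (nat_lit 491559) (nat_lit 10) (.e (nat_lit 344095) (nat_lit 18) (.e (nat_lit 7122) (nat_lit 382) .nil)))))) (.g (nat_lit 4) .nil .nil))))) (.nd (nat_lit 4) (.nd (nat_lit 5) 
(.lf (nat_lit 48779) (.g (nat_lit 2322) (.e (nat_lit 1296) (nat_lit 96) (.e (nat_lit 131123) (nat_lit 12) (.e (nat_lit 385105) (nat_lit 50) (.e (nat_lit 786483) (nat_lit 30) (.e (nat_lit 360456) (nat_lit 0) (.e (nat_lit 5818) (nat_lit 320) .nil)))))) (.g (nat_lit 6) .nil .nil))) 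
(.lf (nat_lit 48811) (.g (nat_lit 2905) (.e (nat_lit 1296) (nat_lit 96) (.e (nat_lit 131125) (nat_lit 13) (.e (nat_lit 393300) (nat_lit 27) (.e (nat_lit 491560) (nat_lit 10) (.e (nat_lit 344090) (nat_lit 18) (.e (nat_lit 7124) (nat_lit 382) .nil)))))) (.g (nat_lit 0) .nil .nil)))) (.nd (nat_lit 5) 
(.lf (nat_lit 48795) (.g (nat_lit 1973) (.e (nat_lit 1296) (nat_lit 96) (.e (nat_lit 131125) (nat_lit 13) (.e (nat_lit 393234) (nat_lit 17) (.e (nat_lit 7591) (nat_lit 407) (.e (nat_lit 73730) (nat_lit 0) (.e (nat_lit 7122) (nat_lit 382) .nil)))))) (.g (nat_lit 4) .nil .nil))) 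
(.lf (nat_lit 48827) (.g (nat_lit 3022) (.e (nat_lit 1296) (nat_lit 96) (.e (nat_lit 131125) (nat_lit 13) (.e (nat_lit 393301) (nat_lit 27) (.e (nat_lit 491560) (nat_lit 10) (.e (nat_lit 344095) (nat_lit 18) (.e (nat_lit 7122) (nat_lit 382) .nil)))))) (.g (nat_lit 4) .nil .nil)))))) (.nd (nat_lit 3) (.nd (nat_lit 4) (.nd (nat_lit 5) 
(.lf (nat_lit 48775) (.g (nat_lit 3097) (.e (nat_lit 1296) (nat_lit 96) (.e (nat_lit 131123) (nat_lit 12) (.e (nat_lit 385105) (nat_lit 50) (.e (nat_lit 786480) (nat_lit 29) (.e (nat_lit 352318) (nat_lit 24) (.e (nat_lit 123184) (nat_lit 264) .nil)))))) (.g (nat_lit 6) .nil .nil))) 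
(.lf (nat_lit 48807) (.g (nat_lit 2357) (.e (nat_lit 1296) (nat_lit 96) (.e (nat_lit 131125) (nat_lit 13) (.e (nat_lit 393265) (nat_lit 22) (.e (nat_lit 417820) (nat_lit 10) (.e (nat_lit 5761) (nat_lit 315) (.e (nat_lit 163850) (nat_lit 0) (.e (nat_lit 6277) (nat_lit 337) .nil))))))) (.g (nat_lit 6) .nil .nil)))) (.nd (nat_lit 5) 
(.lf (nat_lit 48791) (.g (nat_lit 3155) (.e (nat_lit 1296) (nat_lit 96) (.e (nat_lit 131124) (nat_lit 13) (.e (nat_lit 393301) (nat_lit 27) (.e (nat_lit 491560) (nat_lit 10) (.e (nat_lit 344094) (nat_lit 18) (.e (nat_lit 7124) (nat_lit 382) .nil)))))) (.g (nat_lit 4) .nil .nil))) 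
(.lf (nat_lit 48823) (.g (nat_lit 3154) (.e (nat_lit 1296) (nat_lit 96) (.e (nat_lit 131125) (nat_lit 13) (.e (nat_lit 393301) (nat_lit 27) (.e (nat_lit 491560) (nat_lit 10) (.e (nat_lit 344089) (nat_lit 18) (.e (nat_lit 7134) (nat_lit 382) .nil)))))) (.g (nat_lit 4) .nil .nil))))) (.nd (nat_lit 4) (.nd (nat_lit 5) 
(.lf (nat_lit 48783) (.g (nat_lit 2385) (.e (nat_lit 1296) (nat_lit 96) (.e (nat_lit 131123) (nat_lit 12) (.e (nat_lit 385106) (nat_lit 50) (.e (nat_lit 786478) (nat_lit 29) (.e (nat_lit 352318) (nat_lit 24) (.e (nat_lit 123185) (nat_lit 264) .nil)))))) (.g (nat_lit 5) .nil .nil))) 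
(.lf (nat_lit 48815) (.g (nat_lit 3861) (.e (nat_lit 1296) (nat_lit 96) (.e (nat_lit 131125) (nat_lit 13) (.e (nat_lit 393301) (nat_lit 27) (.e (nat_lit 491558) (nat_lit 10) (.e (nat_lit 344096) (nat_lit 18) (.e (nat_lit 7124) (nat_lit 382) .nil)))))) (.g (nat_lit 0) .nil .nil)))) (.nd (nat_lit 5) 
(.lf (nat_lit 48799) (.g (nat_lit 2128) (.e (nat_lit 1296) (nat_lit 96) (.e (nat_lit 131125) (nat_lit 13) (.e (nat_lit 393260) (nat_lit 21) (.e (nat_lit 409643) (nat_lit 18) (.e (nat_lit 303115) (nat_lit 1) (.e (nat_lit 164155) (nat_lit 152) .nil)))))) (.g (nat_lit 4) .nil .nil))) 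
(.lf (nat_lit 48831) (.g (nat_lit 1789) (.e (nat_lit 1296) (nat_lit 96) (.e (nat_lit 131126) (nat_lit 13) (.e (nat_lit 393260) (nat_lit 21) (.e (nat_lit 409643) (nat_lit 18) (.e (nat_lit 303115) (nat_lit 1) (.e (nat_lit 164148) (nat_lit 152) .nil)))))) (.g (nat_lit 4) .nil .nil)))))))))

noncomputable def tv678 : DT := (.nd (nat_lit 0) (.nd (nat_lit 1) (.nd (nat_lit 2) (.nd (nat_lit 3) (.nd (nat_lit 4) (.nd (nat_lit 5) 
(.lf (nat_lit 48832) (.g (nat_lit 2332) (.e (nat_lit 1296) (nat_lit 96) (.e (nat_lit 131126) (nat_lit 13) (.e (nat_lit 393260) (nat_lit 21) (.e (nat_lit 409643) (nat_lit 18) (.e (nat_lit 303115) (nat_lit 1) (.e (nat_lit 164155) (nat_lit 152) .nil)))))) (.g (nat_lit 5) .nil .nil))) 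
(.lf (nat_lit 48864) (.g (nat_lit 2879) (.e (nat_lit 1296) (nat_lit 96) (.e (nat_lit 131127) (nat_lit 13) (.e (nat_lit 393260) (nat_lit 21) (.e (nat_lit 409645) (nat_lit 18) (.e (nat_lit 303115) (nat_lit 1) (.e (nat_lit 164148) (nat_lit 152) .nil)))))) (.g (nat_lit 5) .nil .nil)))) (.nd (nat_lit 5) 
(.lf (nat_lit 48848) (.g (nat_lit 3793) (.e (nat_lit 1296) (nat_lit 96) (.e (nat_lit 131126) (nat_lit 13) (.e (nat_lit 393301) (nat_lit 27) (.e (nat_lit 491558) (nat_lit 10) (.e (nat_lit 344091) (nat_lit 18) (.e (nat_lit 7124) (nat_lit 382) .nil)))))) (.g (nat_lit 0) .nil .nil))) 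
(.lf (nat_lit 48880) (.g (nat_lit 2900) (.e (nat_lit 1296) (nat_lit 96) (.e (nat_lit 131127) (nat_lit 13) (.e (nat_lit 393260) (nat_lit 21) (.e (nat_lit 409648) (nat_lit 18) (.e (nat_lit 303115) (nat_lit 1) (.e (nat_lit 164159) (nat_lit 152) .nil)))))) (.g (nat_lit 0) .nil .nil))))) (.nd (nat_lit 4) (.nd (nat_lit 5) 
(.lf (nat_lit 48840) (.g (nat_lit 2920) (.e (nat_lit 1296) (nat_lit 96) (.e (nat_lit 131126) (nat_lit 13) (.e (nat_lit 393260) (nat_lit 21) (.e (nat_lit 409648) (nat_lit 18) (.e (nat_lit 303115) (nat_lit 1) (.e (nat_lit 164155) (nat_lit 152) .nil)))))) (.g (nat_lit 5) .nil .nil))) 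
(.lf (nat_lit 48872) (.g (nat_lit 1900) (.e (nat_lit 1296) (nat_lit 96) (.e (nat_lit 131127) (nat_lit 13) (.e (nat_lit 393260) (nat_lit 21) (.e (nat_lit 409647) (nat_lit 18) (.e (nat_lit 303115) (nat_lit 1) (.e (nat_lit 164148) (nat_lit 152) .nil)))))) (.g (nat_lit 4) .nil .nil)))) (.nd (nat_lit 5) 
(.lf (nat_lit 48856) (.g (nat_lit 2281) (.e (nat_lit 1296) (nat_lit 96) (.e (nat_lit 131127) (nat_lit 13) (.e (nat_lit 393259) (nat_lit 21) (.e (nat_lit 409645) (nat_lit 18) (.e (nat_lit 303115) (nat_lit 1) (.e (nat_lit 164148) (nat_lit 152) .nil)))))) (.g (nat_lit 5) .nil .nil))) 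
(.lf (nat_lit 48888) (.g (nat_lit 2647) (.e (nat_lit 1296) (nat_lit 96) (.e (nat_lit 131127) (nat_lit 13) (.e (nat_lit 393271) (nat_lit 23) (.e (nat_lit 426448) (nat_lit 20) (.e (nat_lit 114712) (nat_lit 21) (.e (nat_lit 57830) (nat_lit 250) .nil)))))) (.g (nat_lit 4) .nil .nil)))))) (.nd (nat_lit 3) (.nd (nat_lit 4) (.nd (nat_lit 5) 
(.lf (nat_lit 48836) (.g (nat_lit 3074) (.e (nat_lit 1296) (nat_lit 96) (.e (nat_lit 131126) (nat_lit 13) (.e (nat_lit 393260) (nat_lit 21) (.e (nat_lit 409646) (nat_lit 18) (.e (nat_lit 303115) (nat_lit 1) (.e (nat_lit 164155) (nat_lit 152) .nil)))))) (.g (nat_lit 5) .nil .nil))) 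
(.lf (nat_lit 48868) (.g (nat_lit 2512) (.e (nat_lit 1296) (nat_lit 96) (.e (nat_lit 131127) (nat_lit 13) (.e (nat_lit 393260) (nat_lit 21) (.e (nat_lit 409646) (nat_lit 18) (.e (nat_lit 303115) (nat_lit 1) (.e (nat_lit 164148) (nat_lit 152) .nil)))))) (.g (nat_lit 5) .nil .nil)))) (.nd (nat_lit 5) 
(.lf (nat_lit 48852) (.g (nat_lit 3488) (.e (nat_lit 1296) (nat_lit 96) (.e (nat_lit 131126) (nat_lit 13) (.e (nat_lit 393301) (nat_lit 27) (.e (nat_lit 491559) (nat_lit 10) (.e (nat_lit 344091) (nat_lit 18) (.e (nat_lit 7124) (nat_lit 382) .nil)))))) (.g (nat_lit 5) .nil .nil))) 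
(.lf (nat_lit 48884) (.g (nat_lit 2624) (.e (nat_lit 1296) (nat_lit 96) (.e (nat_lit 131127) (nat_lit 13) (.e (nat_lit 393260) (nat_lit 21) (.e (nat_lit 409649) (nat_lit 18) (.e (nat_lit 303115) (nat_lit 1) (.e (nat_lit 164155) (nat_lit 152) .nil)))))) (.g (nat_lit 0) .nil .nil))))) (.nd (nat_lit 4) (.nd (nat_lit 5) 
(.lf (nat_lit 48844) (.g (nat_lit 2510) (.e (nat_lit 1296) (nat_lit 96) (.e (nat_lit 131126) (nat_lit 13) (.e (nat_lit 393260) (nat_lit 21) (.e (nat_lit 409649) (nat_lit 18) (.e (nat_lit 303115) (nat_lit 1) (.e (nat_lit 164148) (nat_lit 152) .nil)))))) (.g (nat_lit 4) .nil .nil))) 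
(.lf (nat_lit 48876) (.g (nat_lit 2001) (.e (nat_lit 1296) (nat_lit 96) (.e (nat_lit 131127) (nat_lit 13) (.e (nat_lit 393260) (nat_lit 21) (.e (nat_lit 409648) (nat_lit 18) (.e (nat_lit 303114) (nat_lit 1) (.e (nat_lit 164155) (nat_lit 152) .nil)))))) (.g (nat_lit 4) .nil .nil)))) (.nd (nat_lit 5) 
(.lf (nat_lit 48860) (.g (nat_lit 2184) (.e (nat_lit 1296) (nat_lit 96) (.e (nat_lit 131127) (nat_lit 13) (.e (nat_lit 393260) (nat_lit 21) (.e (nat_lit 409643) (nat_lit 18) (.e (nat_lit 303115) (nat_lit 1) (.e (nat_lit 164155) (nat_lit 152) .nil)))))) (.g (nat_lit 5) .nil .nil))) 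
(.lf (nat_lit 48892) (.g (nat_lit 1591) (.e (nat_lit 1296) (nat_lit 96) (.e (nat_lit 131128) (nat_lit 13) (.e (nat_lit 393233) (nat_lit 17) (.e (nat_lit 7593) (nat_lit 407) (.e (nat_lit 73730) (nat_lit 0) (.e (nat_lit 7122) (nat_lit 382) .nil)))))) (.g (nat_lit 4) .nil .nil))))))) (.nd (nat_lit 2) (.nd (nat_lit 3) (.nd (nat_lit 4) (.nd (nat_lit 5) 
(.lf (nat_lit 48834) (.g (nat_lit 3260) (.e (nat_lit 1296) (nat_lit 96) (.e (nat_lit 131126) (nat_lit 13) (.e (nat_lit 393260) (nat_lit 21) (.e (nat_lit 409645) (nat_lit 18) (.e (nat_lit 303115) (nat_lit 1) (.e (nat_lit 164155) (nat_lit 152) .nil)))))) (.g (nat_lit 5) .nil .nil))) 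
(.lf (nat_lit 48866) (.g (nat_lit 3306) (.e (nat_lit 1296) (nat_lit 96) (.e (nat_lit 131127) (nat_lit 13) (.e (nat_lit 393260) (nat_lit 21) (.e (nat_lit 409645) (nat_lit 18) (.e (nat_lit 303115) (nat_lit 1) (.e (nat_lit 164159) (nat_lit 152) .nil)))))) (.g (nat_lit 0) .nil .nil)))) (.nd (nat_lit 5) 
(.lf (nat_lit 48850) (.g (nat_lit 3876) (.e (nat_lit 1296) (nat_lit 96) (.e (nat_lit 131126) (nat_lit 13) (.e (nat_lit 393301) (nat_lit 27) (.e (nat_lit 491558) (nat_lit 10) (.e (nat_lit 344096) (nat_lit 18) (.e (nat_lit 7124) (nat_lit 382) .nil)))))) (.g (nat_lit 0) .nil .nil))) 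
(.lf (nat_lit 48882) (.g (nat_lit 2193) (.e (nat_lit 1296) (nat_lit 96) (.e (nat_lit 131127) (nat_lit 13) (.e (nat_lit 393260) (nat_lit 21) (.e (nat_lit 409649) (nat_lit 18) (.e (nat_lit 303114) (nat_lit 1) (.e (nat_lit 164159) (nat_lit 152) .nil)))))) (.g (nat_lit 5) .nil .nil))))) (.nd (nat_lit 4) (.nd (nat_lit 5) 
(.lf (nat_lit 48842) (.g (nat_lit 2003) (.e (nat_lit 1296) (nat_lit 96) (.e (nat_lit 131126) (nat_lit 13) (.e (nat_lit 393260) (nat_lit 21) (.e (nat_lit 409649) (nat_lit 18) (.e (nat_lit 303114) (nat_lit 1) .nil))))) .nil)) 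
(.lf (nat_lit 48874) (.g (nat_lit 1601) (.e (nat_lit 1296) (nat_lit 96) (.e (nat_lit 131127) (nat_lit 13) (.e (nat_lit 393260) (nat_lit 21) (.e (nat_lit 409648) (nat_lit 18) (.e (nat_lit 303104) (nat_lit 0) .nil))))) .nil))) (.nd (nat_lit 5) 
(.lf (nat_lit 48858) (.g (nat_lit 1631) (.e (nat_lit 1296) (nat_lit 96) (.e (nat_lit 131127) (nat_lit 13) (.e (nat_lit 393260) (nat_lit 21) (.e (nat_lit 409623) (nat_lit 10) (.e (nat_lit 5664) (nat_lit 312) (.e (nat_lit 2605) (nat_lit 163) (.e (nat_lit 164155) (nat_lit 152) .nil))))))) (.g (nat_lit 4) .nil .nil))) 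
(.lf (nat_lit 48890) (.g (nat_lit 1593) (.e (nat_lit 1296) (nat_lit 96) (.e (nat_lit 131128) (nat_lit 13) (.e (nat_lit 393233) (nat_lit 17) (.e (nat_lit 7591) (nat_lit 407) (.e (nat_lit 73730) (nat_lit 0) (.e (nat_lit 7122) (nat_lit 382) .nil)))))) (.g (nat_lit 4) .nil .nil)))))) (.nd (nat_lit 3) (.nd (nat_lit 4) (.nd (nat_lit 5) 
(.lf (nat_lit 48838) (.g (nat_lit 2797) (.e (nat_lit 1296) (nat_lit 96) (.e (nat_lit 131126) (nat_lit 13) (.e (nat_lit 393260) (nat_lit 21) (.e (nat_lit 409648) (nat_lit 18) (.e (nat_lit 303114) (nat_lit 1) (.e (nat_lit 164159) (nat_lit 152) .nil)))))) (.g (nat_lit 0) .nil .nil))) 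
(.lf (nat_lit 48870) (.g (nat_lit 1438) (.e (nat_lit 1296) (nat_lit 96) (.e (nat_lit 131127) (nat_lit 13) (.e (nat_lit 393260) (nat_lit 21) (.e (nat_lit 409647) (nat_lit 18) (.e (nat_lit 303114) (nat_lit 1) .nil))))) .nil))) (.nd (nat_lit 5) 
(.lf (nat_lit 48854) (.g (nat_lit 3279) (.e (nat_lit 1296) (nat_lit 96) (.e (nat_lit 131126) (nat_lit 13) (.e (nat_lit 393301) (nat_lit 27) (.e (nat_lit 491560) (nat_lit 10) (.e (nat_lit 344087) (nat_lit 18) (.e (nat_lit 7124) (nat_lit 382) .nil)))))) (.g (nat_lit 5) .nil .nil))) 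
(.lf (nat_lit 48886) (.g (nat_lit 1644) (.e (nat_lit 1296) (nat_lit 96) (.e (nat_lit 131127) (nat_lit 13) (.e (nat_lit 393260) (nat_lit 21) (.e (nat_lit 409649) (nat_lit 18) (.e (nat_lit 303115) (nat_lit 1) (.e (nat_lit 164160) (nat_lit 152) .nil)))))) (.g (nat_lit 4) .nil .nil))))) (.nd (nat_lit 4) (.nd (nat_lit 5) 
(.lf (nat_lit 48846) (.g (nat_lit 3185) (.e (nat_lit 1296) (nat_lit 96) (.e (nat_lit 131126) (nat_lit 13) (.e (nat_lit 393260) (nat_lit 21) (.e (nat_lit 409649) (nat_lit 18) (.e (nat_lit 303115) (nat_lit 1) (.e (nat_lit 164159) (nat_lit 152) .nil)))))) (.g (nat_lit 0) .nil .nil))) 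
(.lf (nat_lit 48878) (.g (nat_lit 2181) (.e (nat_lit 1296) (nat_lit 96) (.e (nat_lit 131127) (nat_lit 13) (.e (nat_lit 393260) (nat_lit 21) (.e (nat_lit 409648) (nat_lit 18) (.e (nat_lit 303115) (nat_lit 1) (.e (nat_lit 164148) (nat_lit 152) .nil)))))) (.g (nat_lit 4) .nil .nil)))) (.nd (nat_lit 5) 
(.lf (nat_lit 48862) (.g (nat_lit 1724) (.e (nat_lit 1296) (nat_lit 96) (.e (nat_lit 131127) (nat_lit 13) (.e (nat_lit 393260) (nat_lit 21) (.e (nat_lit 409644) (nat_lit 18) (.e (nat_lit 303115) (nat_lit 1) (.e (nat_lit 164148) (nat_lit 152) .nil)))))) (.g (nat_lit 4) .nil .nil))) 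
(.lf (nat_lit 48894) (.g (nat_lit 1870) (.e (nat_lit 1296) (nat_lit 96) (.e (nat_lit 131128) (nat_lit 13) (.e (nat_lit 393234) (nat_lit 17) (.e (nat_lit 7591) (nat_lit 407) (.e (nat_lit 73730) (nat_lit 0) (.e (nat_lit 7122) (nat_lit 382) .nil)))))) (.g (nat_lit 4) .nil .nil)))))))) (.nd (nat_lit 1) (.nd (nat_lit 2) (.nd (nat_lit 3) (.nd (nat_lit 4) (.nd (nat_lit 5) 
(.lf (nat_lit 48833) (.g (nat_lit 2094) (.e (nat_lit 1296) (nat_lit 96) (.e (nat_lit 131126) (nat_lit 13) (.e (nat_lit 393260) (nat_lit 21) (.e (nat_lit 409644) (nat_lit 18) (.e (nat_lit 303115) (nat_lit 1) (.e (nat_lit 164155) (nat_lit 152) .nil)))))) (.g (nat_lit 4) .nil .nil))) 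
(.lf (nat_lit 48865) (.g (nat_lit 3087) (.e (nat_lit 1296) (nat_lit 96) (.e (nat_lit 131127) (nat_lit 13) (.e (nat_lit 393260) (nat_lit 21) (.e (nat_lit 409645) (nat_lit 18) (.e (nat_lit 303115) (nat_lit 1) (.e (nat_lit 164155) (nat_lit 152) .nil)))))) (.g (nat_lit 6) .nil .nil)))) (.nd (nat_lit 5) 
(.lf (nat_lit 48849) (.g (nat_lit 2004) (.e (nat_lit 1296) (nat_lit 96) (.e (nat_lit 131126) (nat_lit 13) (.e (nat_lit 393301) (nat_lit 27) (.e (nat_lit 491558) (nat_lit 10) (.e (nat_lit 344096) (nat_lit 18) .nil))))) .nil)) 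
(.lf (nat_lit 48881) (.g (nat_lit 1753) (.e (nat_lit 1296) (nat_lit 96) (.e (nat_lit 131127) (nat_lit 13) (.e (nat_lit 393260) (nat_lit 21) (.e (nat_lit 409649) (nat_lit 18) (.e (nat_lit 303114) (nat_lit 1) .nil))))) .nil)))) (.nd (nat_lit 4) (.nd (nat_lit 5) 
(.lf (nat_lit 48841) (.g (nat_lit 3238) (.e (nat_lit 1296) (nat_lit 96) (.e (nat_lit 131126) (nat_lit 13) (.e (nat_lit 393260) (nat_lit 21) (.e (nat_lit 409648) (nat_lit 18) (.e (nat_lit 303115) (nat_lit 1) (.e (nat_lit 164159) (nat_lit 152) .nil)))))) (.g (nat_lit 0) .nil .nil))) 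
(.lf (nat_lit 48873) (.g (nat_lit 2318) (.e (nat_lit 1296) (nat_lit 96) (.e (nat_lit 131127) (nat_lit 13) (.e (nat_lit 393260) (nat_lit 21) (.e (nat_lit 409647) (nat_lit 18) (.e (nat_lit 303115) (nat_lit 1) (.e (nat_lit 164155) (nat_lit 152) .nil)))))) (.g (nat_lit 6) .nil .nil)))) (.nd (nat_lit 5) 
(.lf (nat_lit 48857) (.g (nat_lit 2508) (.e (nat_lit 1296) (nat_lit 96) (.e (nat_lit 131127) (nat_lit 13) (.e (nat_lit 393259) (nat_lit 21) (.e (nat_lit 409645) (nat_lit 18) (.e (nat_lit 303115) (nat_lit 1) (.e (nat_lit 164155) (nat_lit 152) .nil)))))) (.g (nat_lit 6) .nil .nil))) 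
(.lf (nat_lit 48889) (.g (nat_lit 3083) (.e (nat_lit 1296) (nat_lit 96) (.e (nat_lit 131128) (nat_lit 13) (.e (nat_lit 393233) (nat_lit 17) (.e (nat_lit 7591) (nat_lit 407) (.e (nat_lit 73729) (nat_lit 0) (.e (nat_lit 7124) (nat_lit 382) .nil)))))) (.g (nat_lit 6) .nil .nil)))))) (.nd (nat_lit 3) (.nd (nat_lit 4) (.nd (nat_lit 5) 
(.lf (nat_lit 48837) (.g (nat_lit 2287) (.e (nat_lit 1296) (nat_lit 96) (.e (nat_lit 131126) (nat_lit 13) (.e (nat_lit 393260) (nat_lit 21) (.e (nat_lit 409648) (nat_lit 18) (.e (nat_lit 303114) (nat_lit 1) (.e (nat_lit 164155) (nat_lit 152) .nil)))))) (.g (nat_lit 4) .nil .nil))) 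
(.lf (nat_lit 48869) (.g (nat_lit 2761) (.e (nat_lit 1296) (nat_lit 96) (.e (nat_lit 131127) (nat_lit 13) (.e (nat_lit 393260) (nat_lit 21) (.e (nat_lit 409646) (nat_lit 18) (.e (nat_lit 303115) (nat_lit 1) (.e (nat_lit 164155) (nat_lit 152) .nil)))))) (.g (nat_lit 0) .nil .nil)))) (.nd (nat_lit 5) 
(.lf (nat_lit 48853) (.g (nat_lit 3345) (.e (nat_lit 1296) (nat_lit 96) (.e (nat_lit 131126) (nat_lit 13) (.e (nat_lit 393301) (nat_lit 27) (.e (nat_lit 491559) (nat_lit 10) (.e (nat_lit 344091) (nat_lit 18) (.e (nat_lit 7125) (nat_lit 382) .nil)))))) (.g (nat_lit 5) .nil .nil))) 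
(.lf (nat_lit 48885) (.g (nat_lit 2782) (.e (nat_lit 1296) (nat_lit 96) (.e (nat_lit 131127) (nat_lit 13) (.e (nat_lit 393260) (nat_lit 21) (.e (nat_lit 409649) (nat_lit 18) (.e (nat_lit 303115) (nat_lit 1) (.e (nat_lit 164159) (nat_lit 152) .nil)))))) (.g (nat_lit 0) .nil .nil))))) (.nd (nat_lit 4) (.nd (nat_lit 5) 
(.lf (nat_lit 48845) (.g (nat_lit 3010) (.e (nat_lit 1296) (nat_lit 96) (.e (nat_lit 131126) (nat_lit 13) (.e (nat_lit 393260) (nat_lit 21) (.e (nat_lit 409649) (nat_lit 18) (.e (nat_lit 303115) (nat_lit 1) (.e (nat_lit 164155) (nat_lit 152) .nil)))))) (.g (nat_lit 5) .nil .nil))) 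
(.lf (nat_lit 48877) (.g (nat_lit 1825) (.e (nat_lit 1296) (nat_lit 96) (.e (nat_lit 131127) (nat_lit 13) (.e (nat_lit 393260) (nat_lit 21) (.e (nat_lit 409648) (nat_lit 18) (.e (nat_lit 303114) (nat_lit 1) (.e (nat_lit 164160) (nat_lit 152) .nil)))))) (.g (nat_lit 4) .nil .nil)))) (.nd (nat_lit 5) 
(.lf (nat_lit 48861) (.g (nat_lit 2576) (.e (nat_lit 1296) (nat_lit 96) (.e (nat_lit 131127) (nat_lit 13) (.e (nat_lit 393260) (nat_lit 21) (.e (nat_lit 409643) (nat_lit 18) (.e (nat_lit 303115) (nat_lit 1) (.e (nat_lit 164159) (nat_lit 152) .nil)))))) (.g (nat_lit 0) .nil .nil))) 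
(.lf (nat_lit 48893) (.g (nat_lit 1578) (.e (nat_lit 1296) (nat_lit 96) (.e (nat_lit 131128) (nat_lit 13) (.e (nat_lit 393233) (nat_lit 17) (.e (nat_lit 7593) (nat_lit 407) (.e (nat_lit 73731) (nat_lit 0) (.e (nat_lit 7122) (nat_lit 382) .nil)))))) (.g (nat_lit 4) .nil .nil))))))) (.nd (nat_lit 2) (.nd (nat_lit 3) (.nd (nat_lit 4) (.nd (nat_lit 5) 
(.lf (nat_lit 48835) (.g (nat_lit 2674) (.e (nat_lit 1296) (nat_lit 96) (.e (nat_lit 131126) (nat_lit 13) (.e (nat_lit 393260) (nat_lit 21) (.e (nat_lit 409646) (nat_lit 18) (.e (nat_lit 303115) (nat_lit 1) (.e (nat_lit 164148) (nat_lit 152) .nil)))))) (.g (nat_lit 5) .nil .nil))) 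
(.lf (nat_lit 48867) (.g (nat_lit 1819) (.e (nat_lit 1296) (nat_lit 96) (.e (nat_lit 131127) (nat_lit 13) (.e (nat_lit 393260) (nat_lit 21) (.e (nat_lit 409646) (nat_lit 18) (.e (nat_lit 303112) (nat_lit 0) .nil))))) .nil))) (.nd (nat_lit 5) 
(.lf (nat_lit 48851) (.g (nat_lit 2537) (.e (nat_lit 1296) (nat_lit 96) (.e (nat_lit 131126) (nat_lit 13) (.e (nat_lit 393301) (nat_lit 27) (.e (nat_lit 491559) (nat_lit 10) (.e (nat_lit 344090) (nat_lit 18) .nil))))) .nil)) 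
(.lf (nat_lit 48883) (.g (nat_lit 2275) (.e (nat_lit 1296) (nat_lit 96) (.e (nat_lit 131127) (nat_lit 13) (.e (nat_lit 393260) (nat_lit 21) (.e (nat_lit 409649) (nat_lit 18) (.e (nat_lit 303115) (nat_lit 1) (.e (nat_lit 164148) (nat_lit 152) .nil)))))) (.g (nat_lit 5) .nil .nil))))) (.nd (nat_lit 4) (.nd (nat_lit 5) 
(.lf (nat_lit 48843) (.g (nat_lit 2356) (.e (nat_lit 1296) (nat_lit 96) (.e (nat_lit 131126) (nat_lit 13) (.e (nat_lit 393260) (nat_lit 21) (.e (nat_lit 409649) (nat_lit 18) (.e (nat_lit 303114) (nat_lit 1) (.e (nat_lit 164159) (nat_lit 152) .nil)))))) (.g (nat_lit 5) .nil .nil))) 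
(.lf (nat_lit 48875) (.g (nat_lit 1759) (.e (nat_lit 1296) (nat_lit 96) (.e (nat_lit 131127) (nat_lit 13) (.e (nat_lit 393260) (nat_lit 21) (.e (nat_lit 409648) (nat_lit 18) (.e (nat_lit 303104) (nat_lit 0) (.e (nat_lit 2417) (nat_lit 157) (.e (nat_lit 6294) (nat_lit 337) .nil))))))) (.g (nat_lit 4) .nil .nil)))) (.nd (nat_lit 5) 
(.lf (nat_lit 48859) (.g (nat_lit 1792) (.e (nat_lit 1296) (nat_lit 96) (.e (nat_lit 131127) (nat_lit 13) (.e (nat_lit 393260) (nat_lit 21) (.e (nat_lit 409643) (nat_lit 18) (.e (nat_lit 303115) (nat_lit 1) (.e (nat_lit 164148) (nat_lit 152) .nil)))))) (.g (nat_lit 4) .nil .nil))) 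
(.lf (nat_lit 48891) (.g (nat_lit 1647) (.e (nat_lit 1296) (nat_lit 96) (.e (nat_lit 131128) (nat_lit 13) (.e (nat_lit 393233) (nat_lit 17) (.e (nat_lit 7591) (nat_lit 407) (.e (nat_lit 73731) (nat_lit 0) (.e (nat_lit 7122) (nat_lit 382) .nil)))))) (.g (nat_lit 4) .nil .nil)))))) (.nd (nat_lit 3) (.nd (nat_lit 4) (.nd (nat_lit 5) 
(.lf (nat_lit 48839) (.g (nat_lit 2351) (.e (nat_lit 1296) (nat_lit 96) (.e (nat_lit 131126) (nat_lit 13) (.e (nat_lit 393260) (nat_lit 21) (.e (nat_lit 409648) (nat_lit 18) (.e (nat_lit 303115) (nat_lit 1) (.e (nat_lit 164148) (nat_lit 152) .nil)))))) (.g (nat_lit 4) .nil .nil))) 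
(.lf (nat_lit 48871) (.g (nat_lit 1335) (.e (nat_lit 1296) (nat_lit 96) (.e (nat_lit 131127) (nat_lit 13) (.e (nat_lit 393260) (nat_lit 21) (.e (nat_lit 409647) (nat_lit 18) (.e (nat_lit 303115) (nat_lit 1) .nil))))) .nil))) (.nd (nat_lit 5) 
(.lf (nat_lit 48855) (.g (nat_lit 1550) (.e (nat_lit 1296) (nat_lit 96) (.e (nat_lit 131127) (nat_lit 13) (.e (nat_lit 393238) (nat_lit 17) (.e (nat_lit 6989) (nat_lit 377) (.e (nat_lit 2810) (nat_lit 180) (.e (nat_lit 303115) (nat_lit 1) (.e (nat_lit 164155) (nat_lit 152) .nil))))))) (.g (nat_lit 5) .nil .nil))) 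
(.lf (nat_lit 48887) (.g (nat_lit 3317) (.e (nat_lit 1296) (nat_lit 96) (.e (nat_lit 131127) (nat_lit 13) (.e (nat_lit 393271) (nat_lit 23) (.e (nat_lit 426448) (nat_lit 20) (.e (nat_lit 114710) (nat_lit 21) (.e (nat_lit 57830) (nat_lit 250) .nil)))))) (.g (nat_lit 5) .nil .nil))))) (.nd (nat_lit 4) (.nd (nat_lit 5) 
(.lf (nat_lit 48847) (.g (nat_lit 765) (.e (nat_lit 1296) (nat_lit 96) (.e (nat_lit 131126) (nat_lit 13) (.e (nat_lit 393300) (nat_lit 27) (.e (nat_lit 491558) (nat_lit 10) .nil)))) .nil)) 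
(.lf (nat_lit 48879) (.g (nat_lit 2599) (.e (nat_lit 1296) (nat_lit 96) (.e (nat_lit 131127) (nat_lit 13) (.e (nat_lit 393260) (nat_lit 21) (.e (nat_lit 409648) (nat_lit 18) (.e (nat_lit 303115) (nat_lit 1) (.e (nat_lit 164155) (nat_lit 152) .nil)))))) (.g (nat_lit 6) .nil .nil)))) (.nd (nat_lit 5) 
(.lf (nat_lit 48863) (.g (nat_lit 2142) (.e (nat_lit 1296) (nat_lit 96) (.e (nat_lit 131127) (nat_lit 13) (.e (nat_lit 393260) (nat_lit 21) (.e (nat_lit 409644) (nat_lit 18) (.e (nat_lit 303115) (nat_lit 1) (.e (nat_lit 164155) (nat_lit 152) .nil)))))) (.g (nat_lit 5) .nil .nil))) 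
(.lf (nat_lit 48895) (.g (nat_lit 2033) (.e (nat_lit 1296) (nat_lit 96) (.e (nat_lit 131128) (nat_lit 13) (.e (nat_lit 393234) (nat_lit 17) (.e (nat_lit 7591) (nat_lit 407) (.e (nat_lit 73730) (nat_lit 0) (.e (nat_lit 7125) (nat_lit 382) .nil)))))) (.g (nat_lit 5) .nil .nil)))))))))

noncomputable def tv679 : DT := (.nd (nat_lit 0) (.nd (nat_lit 1) (.nd (nat_lit 2) (.nd (nat_lit 3) (.nd (nat_lit 4) (.nd (nat_lit 5) 
(.lf (nat_lit 48896) (.g (nat_lit 1961) (.e (nat_lit 1296) (nat_lit 96) (.e (nat_lit 131128) (nat_lit 13) (.e (nat_lit 393234) (nat_lit 17) (.e (nat_lit 7591) (nat_lit 407) (.e (nat_lit 73731) (nat_lit 0) (.e (nat_lit 7122) (nat_lit 382) .nil)))))) (.g (nat_lit 4) .nil .nil))) 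
(.lf (nat_lit 48928) (.g (nat_lit 3820) (.e (nat_lit 1296) (nat_lit 96) (.e (nat_lit 131128) (nat_lit 13) (.e (nat_lit 393301) (nat_lit 27) (.e (nat_lit 491560) (nat_lit 10) (.e (nat_lit 344090) (nat_lit 18) (.e (nat_lit 7124) (nat_lit 382) .nil)))))) (.g (nat_lit 6) .nil .nil)))) (.nd (nat_lit 5) 
(.lf (nat_lit 48912) (.g (nat_lit 1882) (.e (nat_lit 1296) (nat_lit 96) (.e (nat_lit 131128) (nat_lit 13) (.e (nat_lit 393300) (nat_lit 27) (.e (nat_lit 491560) (nat_lit 10) (.e (nat_lit 344094) (nat_lit 18) (.e (nat_lit 7122) (nat_lit 382) .nil)))))) (.g (nat_lit 4) .nil .nil))) 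
(.lf (nat_lit 48944) (.g (nat_lit 1430) (.e (nat_lit 1298) (nat_lit 96) (.e (nat_lit 131126) (nat_lit 13) (.e (nat_lit 393260) (nat_lit 21) (.e (nat_lit 409643) (nat_lit 18) (.e (nat_lit 303115) (nat_lit 1) .nil))))) .nil)))) (.nd (nat_lit 4) (.nd (nat_lit 5) 
(.lf (nat_lit 48904) (.g (nat_lit 1469) (.e (nat_lit 1296) (nat_lit 96) (.e (nat_lit 131128) (nat_lit 13) (.e (nat_lit 393293) (nat_lit 26) (.e (nat_lit 475214) (nat_lit 42) (.e (nat_lit 720932) (nat_lit 21) (.e (nat_lit 57830) (nat_lit 250) .nil)))))) (.g (nat_lit 4) .nil .nil))) 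
(.lf (nat_lit 48936) (.g (nat_lit 1134) (.e (nat_lit 1297) (nat_lit 96) (.e (nat_lit 131094) (nat_lit 2) (.e (nat_lit 90172) (nat_lit 14) (.e (nat_lit 188160) (nat_lit 33) .nil)))) .nil))) (.nd (nat_lit 5) 
(.lf (nat_lit 48920) (.g (nat_lit 3842) (.e (nat_lit 1296) (nat_lit 96) (.e (nat_lit 131128) (nat_lit 13) (.e (nat_lit 393301) (nat_lit 27) (.e (nat_lit 491558) (nat_lit 10) (.e (nat_lit 344096) (nat_lit 18) (.e (nat_lit 7124) (nat_lit 382) .nil)))))) (.g (nat_lit 0) .nil .nil))) 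
(.lf (nat_lit 48952) (.g (nat_lit 2370) (.e (nat_lit 1298) (nat_lit 96) (.e (nat_lit 131128) (nat_lit 13) (.e (nat_lit 393301) (nat_lit 27) (.e (nat_lit 491560) (nat_lit 10) (.e (nat_lit 344090) (nat_lit 18) .nil))))) .nil))))) (.nd (nat_lit 3) (.nd (nat_lit 4) (.nd (nat_lit 5) 
(.lf (nat_lit 48900) (.g (nat_lit 1825) (.e (nat_lit 1296) (nat_lit 96) (.e (nat_lit 131128) (nat_lit 13) (.e (nat_lit 393234) (nat_lit 17) (.e (nat_lit 7593) (nat_lit 407) (.e (nat_lit 73730) (nat_lit 0) (.e (nat_lit 7125) (nat_lit 382) .nil)))))) (.g (nat_lit 4) .nil .nil))) 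
(.lf (nat_lit 48932) (.g (nat_lit 3046) (.e (nat_lit 1296) (nat_lit 96) (.e (nat_lit 131128) (nat_lit 13) (.e (nat_lit 393301) (nat_lit 27) (.e (nat_lit 491560) (nat_lit 10) (.e (nat_lit 344095) (nat_lit 18) .nil))))) .nil))) (.nd (nat_lit 5) 
(.lf (nat_lit 48916) (.g (nat_lit 1929) (.e (nat_lit 1296) (nat_lit 96) (.e (nat_lit 131128) (nat_lit 13) (.e (nat_lit 393301) (nat_lit 27) (.e (nat_lit 491558) (nat_lit 10) (.e (nat_lit 344090) (nat_lit 18) .nil))))) .nil)) 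
(.lf (nat_lit 48948) (.g (nat_lit 810) (.e (nat_lit 1298) (nat_lit 96) (.e (nat_lit 131128) (nat_lit 13) (.e (nat_lit 393300) (nat_lit 27) (.e (nat_lit 491560) (nat_lit 10) .nil)))) .nil)))) (.nd (nat_lit 4) (.nd (nat_lit 5) 
(.lf (nat_lit 48908) (.g (nat_lit 3104) (.e (nat_lit 1296) (nat_lit 96) (.e (nat_lit 131128) (nat_lit 13) (.e (nat_lit 393300) (nat_lit 27) (.e (nat_lit 491558) (nat_lit 10) (.e (nat_lit 344091) (nat_lit 18) (.e (nat_lit 7124) (nat_lit 382) .nil)))))) (.g (nat_lit 0) .nil .nil))) 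
(.lf (nat_lit 48940) (.g (nat_lit 1629) (.e (nat_lit 1297) (nat_lit 96) (.e (nat_lit 131109) (nat_lit 9) (.e (nat_lit 336443) (nat_lit 32) (.e (nat_lit 466972) (nat_lit 21) (.e (nat_lit 164332) (nat_lit 230) .nil))))) .nil))) (.nd (nat_lit 5) 
(.lf (nat_lit 48924) (.g (nat_lit 2736) (.e (nat_lit 1296) (nat_lit 96) (.e (nat_lit 131128) (nat_lit 13) (.e (nat_lit 393301) (nat_lit 27) (.e (nat_lit 491559) (nat_lit 10) (.e (nat_lit 344095) (nat_lit 18) .nil))))) .nil)) 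
(.lf (nat_lit 48956) (.g (nat_lit 883) (.e (nat_lit 1300) (nat_lit 96) (.e (nat_lit 131091) (nat_lit 2) (.e (nat_lit 90176) (nat_lit 15) (.e (nat_lit 188450) (nat_lit 23) .nil)))) .nil)))))) (.nd (nat_lit 2) (.nd (nat_lit 3) (.nd (nat_lit 4) (.nd (nat_lit 5) 
(.lf (nat_lit 48898) (.g (nat_lit 3335) (.e (nat_lit 1296) (nat_lit 96) (.e (nat_lit 131128) (nat_lit 13) (.e (nat_lit 393234) (nat_lit 17) (.e (nat_lit 7593) (nat_lit 407) (.e (nat_lit 73729) (nat_lit 0) (.e (nat_lit 7124) (nat_lit 382) .nil)))))) (.g (nat_lit 6) .nil .nil))) 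
(.lf (nat_lit 48930) (.g (nat_lit 3006) (.e (nat_lit 1296) (nat_lit 96) (.e (nat_lit 131128) (nat_lit 13) (.e (nat_lit 393301) (nat_lit 27) (.e (nat_lit 491560) (nat_lit 10) (.e (nat_lit 344091) (nat_lit 18) (.e (nat_lit 7125) (nat_lit 382) .nil)))))) (.g (nat_lit 5) .nil .nil)))) (.nd (nat_lit 5) 
(.lf (nat_lit 48914) (.g (nat_lit 1800) (.e (nat_lit 1296) (nat_lit 96) (.e (nat_lit 131128) (nat_lit 13) (.e (nat_lit 393300) (nat_lit 27) (.e (nat_lit 491560) (nat_lit 10) (.e (nat_lit 344095) (nat_lit 18) .nil))))) .nil)) 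
(.lf (nat_lit 48946) (.g (nat_lit 884) (.e (nat_lit 1298) (nat_lit 96) (.e (nat_lit 131128) (nat_lit 13) (.e (nat_lit 393234) (nat_lit 17) (.e (nat_lit 7593) (nat_lit 407) .nil)))) .nil)))) (.nd (nat_lit 4) (.nd (nat_lit 5) 
(.lf (nat_lit 48906) (.g (nat_lit 917) (.e (nat_lit 1296) (nat_lit 96) (.e (nat_lit 131128) (nat_lit 13) (.e (nat_lit 393298) (nat_lit 27) (.e (nat_lit 491566) (nat_lit 12) .nil)))) .nil)) 
(.lf (nat_lit 48938) (.g (nat_lit 1852) (.e (nat_lit 1297) (nat_lit 96) (.e (nat_lit 131098) (nat_lit 3) (.e (nat_lit 98365) (nat_lit 26) (.e (nat_lit 426188) (nat_lit 9) (.e (nat_lit 426438) (nat_lit 18) .nil))))) .nil))) (.nd (nat_lit 5) 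
(.lf (nat_lit 48922) (.g (nat_lit 2880) (.e (nat_lit 1296) (nat_lit 96) (.e (nat_lit 131128) (nat_lit 13) (.e (nat_lit 393301) (nat_lit 27) (.e (nat_lit 491559) (nat_lit 10) (.e (nat_lit 344090) (nat_lit 18) (.e (nat_lit 7125) (nat_lit 382) .nil)))))) (.g (nat_lit 4) .nil .nil))) 
(.lf (nat_lit 48954) (.g (nat_lit 2571) (.e (nat_lit 1298) (nat_lit 96) (.e (nat_lit 131128) (nat_lit 13) (.e (nat_lit 393301) (nat_lit 27) (.e (nat_lit 491560) (nat_lit 10) (.e (nat_lit 344096) (nat_lit 18) .nil))))) .nil))))) (.nd (nat_lit 3) (.nd (nat_lit 4) (.nd (nat_lit 5) 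
(.lf (nat_lit 48902) (.g (nat_lit 2748) (.e (nat_lit 1296) (nat_lit 96) (.e (nat_lit 131128) (nat_lit 13) (.e (nat_lit 393234) (nat_lit 17) (.e (nat_lit 7593) (nat_lit 407) (.e (nat_lit 73731) (nat_lit 0) (.e (nat_lit 7125) (nat_lit 382) .nil)))))) (.g (nat_lit 6) .nil .nil))) 
(.lf (nat_lit 48934) (.g (nat_lit 1399) (.e (nat_lit 1297) (nat_lit 96) (.e (nat_lit 131091) (nat_lit 2) (.e (nat_lit 90172) (nat_lit 14) (.e (nat_lit 188160) (nat_lit 33) .nil)))) .nil))) (.nd (nat_lit 5) 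
(.lf (nat_lit 48918) (.g (nat_lit 3757) (.e (nat_lit 1296) (nat_lit 96) (.e (nat_lit 131128) (nat_lit 13) (.e (nat_lit 393301) (nat_lit 27) (.e (nat_lit 491558) (nat_lit 10) (.e (nat_lit 344091) (nat_lit 18) (.e (nat_lit 7124) (nat_lit 382) .nil)))))) (.g (nat_lit 0) .nil .nil))) 
(.lf (nat_lit 48950) (.g (nat_lit 2223) (.e (nat_lit 1298) (nat_lit 96) (.e (nat_lit 131128) (nat_lit 13) (.e (nat_lit 393301) (nat_lit 27) (.e (nat_lit 491558) (nat_lit 10) (.e (nat_lit 344095) (nat_lit 18) .nil))))) .nil)))) (.nd (nat_lit 4) (.nd (nat_lit 5) 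
(.lf (nat_lit 48910) (.g (nat_lit 1781) (.e (nat_lit 1296) (nat_lit 96) (.e (nat_lit 131128) (nat_lit 13) (.e (nat_lit 393300) (nat_lit 27) (.e (nat_lit 491560) (nat_lit 10) (.e (nat_lit 344091) (nat_lit 18) (.e (nat_lit 7122) (nat_lit 382) .nil)))))) (.g (nat_lit 4) .nil .nil))) 
(.lf (nat_lit 48942) (.g (nat_lit 1603) (.e (nat_lit 1298) (nat_lit 96) (.e (nat_lit 131093) (nat_lit 2) (.e (nat_lit 90170) (nat_lit 13) (.e (nat_lit 172113) (nat_lit 10) .nil)))) .nil))) (.nd (nat_lit 5) 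
(.lf (nat_lit 48926) (.g (nat_lit 2727) (.e (nat_lit 1296) (nat_lit 96) (.e (nat_lit 131128) (nat_lit 13) (.e (nat_lit 393301) (nat_lit 27) (.e (nat_lit 491560) (nat_lit 10) (.e (nat_lit 344087) (nat_lit 18) (.e (nat_lit 7125) (nat_lit 382) .nil)))))) (.g (nat_lit 4) .nil .nil))) 
(.lf (nat_lit 48958) (.g (nat_lit 1629) (.e (nat_lit 1300) (nat_lit 96) (.e (nat_lit 131109) (nat_lit 9) (.e (nat_lit 336443) (nat_lit 32) (.e (nat_lit 466972) (nat_lit 21) (.e (nat_lit 164332) (nat_lit 230) .nil))))) .nil))))))) (.nd (nat_lit 1) (.nd (nat_lit 2) (.nd (nat_lit 3) (.nd (nat_lit 4) (.nd (nat_lit 5) 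
(.lf (nat_lit 48897) (.g (nat_lit 2726) (.e (nat_lit 1296) (nat_lit 96) (.e (nat_lit 131128) (nat_lit 13) (.e (nat_lit 393234) (nat_lit 17) (.e (nat_lit 7591) (nat_lit 407) (.e (nat_lit 73731) (nat_lit 0) (.e (nat_lit 7124) (nat_lit 382) .nil)))))) (.g (nat_lit 6) .nil .nil))) 
(.lf (nat_lit 48929) (.g (nat_lit 2396) (.e (nat_lit 1296) (nat_lit 96) (.e (nat_lit 131128) (nat_lit 13) (.e (nat_lit 393301) (nat_lit 27) (.e (nat_lit 491560) (nat_lit 10) (.e (nat_lit 344091) (nat_lit 18) .nil))))) .nil))) (.nd (nat_lit 5) 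
(.lf (nat_lit 48913) (.g (nat_lit 2408) (.e (nat_lit 1296) (nat_lit 96) (.e (nat_lit 131128) (nat_lit 13) (.e (nat_lit 393300) (nat_lit 27) (.e (nat_lit 491560) (nat_lit 10) (.e (nat_lit 344094) (nat_lit 18) (.e (nat_lit 7125) (nat_lit 382) .nil)))))) (.g (nat_lit 6) .nil .nil))) 
(.lf (nat_lit 48945) (.g (nat_lit 1886) (.e (nat_lit 1298) (nat_lit 96) (.e (nat_lit 131126) (nat_lit 13) (.e (nat_lit 393260) (nat_lit 21) (.e (nat_lit 409648) (nat_lit 18) (.e (nat_lit 303115) (nat_lit 1) .nil))))) .nil)))) (.nd (nat_lit 4) (.nd (nat_lit 5) 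
(.lf (nat_lit 48905) (.g (nat_lit 1077) (.e (nat_lit 1296) (nat_lit 96) (.e (nat_lit 131128) (nat_lit 13) (.e (nat_lit 393298) (nat_lit 27) (.e (nat_lit 491560) (nat_lit 10) .nil)))) .nil)) 
(.lf (nat_lit 48937) (.g (nat_lit 954) (.e (nat_lit 1297) (nat_lit 96) (.e (nat_lit 131094) (nat_lit 2) (.e (nat_lit 90185) (nat_lit 17) (.e (nat_lit 237605) (nat_lit 9) .nil)))) .nil))) (.nd (nat_lit 5) 
(.lf (nat_lit 48921) (.g (nat_lit 2882) (.e (nat_lit 1296) (nat_lit 96) (.e (nat_lit 131128) (nat_lit 13) (.e (nat_lit 393301) (nat_lit 27) (.e (nat_lit 491559) (nat_lit 10) (.e (nat_lit 344090) (nat_lit 18) (.e (nat_lit 7124) (nat_lit 382) .nil)))))) (.g (nat_lit 4) .nil .nil))) 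
(.lf (nat_lit 48953) (.g (nat_lit 2330) (.e (nat_lit 1298) (nat_lit 96) (.e (nat_lit 131128) (nat_lit 13) (.e (nat_lit 393301) (nat_lit 27) (.e (nat_lit 491560) (nat_lit 10) (.e (nat_lit 344094) (nat_lit 18) .nil))))) .nil))))) (.nd (nat_lit 3) (.nd (nat_lit 4) (.nd (nat_lit 5) 
(.lf (nat_lit 48901) (.g (nat_lit 1737) (.e (nat_lit 1296) (nat_lit 96) (.e (nat_lit 131128) (nat_lit 13) (.e (nat_lit 393234) (nat_lit 17) (.e (nat_lit 7593) (nat_lit 407) (.e (nat_lit 73731) (nat_lit 0) (.e (nat_lit 7122) (nat_lit 382) .nil)))))) (.g (nat_lit 4) .nil .nil))) 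
(.lf (nat_lit 48933) (.g (nat_lit 3696) (.e (nat_lit 1296) (nat_lit 96) (.e (nat_lit 131128) (nat_lit 13) (.e (nat_lit 393301) (nat_lit 27) (.e (nat_lit 491560) (nat_lit 10) (.e (nat_lit 344096) (nat_lit 18) (.e (nat_lit 7125) (nat_lit 382) .nil)))))) (.g (nat_lit 6) .nil .nil)))) (.nd (nat_lit 5) 
(.lf (nat_lit 48917) (.g (nat_lit 3252) (.e (nat_lit 1296) (nat_lit 96) (.e (nat_lit 131128) (nat_lit 13) (.e (nat_lit 393301) (nat_lit 27) (.e (nat_lit 491558) (nat_lit 10) (.e (nat_lit 344090) (nat_lit 18) (.e (nat_lit 7124) (nat_lit 382) .nil)))))) (.g (nat_lit 6) .nil .nil))) 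
(.lf (nat_lit 48949) (.g (nat_lit 2031) (.e (nat_lit 1298) (nat_lit 96) (.e (nat_lit 131128) (nat_lit 13) (.e (nat_lit 393301) (nat_lit 27) (.e (nat_lit 491558) (nat_lit 10) (.e (nat_lit 344091) (nat_lit 18) .nil))))) .nil)))) (.nd (nat_lit 4) (.nd (nat_lit 5) 
(.lf (nat_lit 48909) (.g (nat_lit 3014) (.e (nat_lit 1296) (nat_lit 96) (.e (nat_lit 131128) (nat_lit 13) (.e (nat_lit 393300) (nat_lit 27) (.e (nat_lit 491560) (nat_lit 10) (.e (nat_lit 344090) (nat_lit 18) (.e (nat_lit 7124) (nat_lit 382) .nil)))))) (.g (nat_lit 0) .nil .nil))) 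
(.lf (nat_lit 48941) (.g (nat_lit 3119) (.e (nat_lit 1298) (nat_lit 96) (.e (nat_lit 131093) (nat_lit 2) (.e (nat_lit 90170) (nat_lit 13) (.e (nat_lit 172106) (nat_lit 10) (.e (nat_lit 434231) (nat_lit 23) (.e (nat_lit 540416) (nat_lit 18) (.e (nat_lit 164148) (nat_lit 152) .nil))))))) (.g (nat_lit 5) .nil .nil)))) (.nd (nat_lit 5) 
(.lf (nat_lit 48925) (.g (nat_lit 2688) (.e (nat_lit 1296) (nat_lit 96) (.e (nat_lit 131128) (nat_lit 13) (.e (nat_lit 393301) (nat_lit 27) (.e (nat_lit 491559) (nat_lit 10) (.e (nat_lit 344096) (nat_lit 18) .nil))))) .nil)) 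
(.lf (nat_lit 48957) (.g (nat_lit 2453) (.e (nat_lit 1300) (nat_lit 96) (.e (nat_lit 131096) (nat_lit 3) (.e (nat_lit 98373) (nat_lit 29) (.e (nat_lit 450587) (nat_lit 10) (.e (nat_lit 573473) (nat_lit 12) .nil))))) .nil)))))) (.nd (nat_lit 2) (.nd (nat_lit 3) (.nd (nat_lit 4) (.nd (nat_lit 5) 
(.lf (nat_lit 48899) (.g (nat_lit 1738) (.e (nat_lit 1296) (nat_lit 96) (.e (nat_lit 131128) (nat_lit 13) (.e (nat_lit 393234) (nat_lit 17) (.e (nat_lit 7593) (nat_lit 407) (.e (nat_lit 73730) (nat_lit 0) (.e (nat_lit 7122) (nat_lit 382) .nil)))))) (.g (nat_lit 4) .nil .nil))) 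
(.lf (nat_lit 48931) (.g (nat_lit 2841) (.e (nat_lit 1296) (nat_lit 96) (.e (nat_lit 131128) (nat_lit 13) (.e (nat_lit 393301) (nat_lit 27) (.e (nat_lit 491560) (nat_lit 10) (.e (nat_lit 344094) (nat_lit 18) (.e (nat_lit 7122) (nat_lit 382) .nil)))))) (.g (nat_lit 5) .nil .nil)))) (.nd (nat_lit 5) 
(.lf (nat_lit 48915) (.g (nat_lit 1009) (.e (nat_lit 1296) (nat_lit 96) (.e (nat_lit 131128) (nat_lit 13) (.e (nat_lit 393301) (nat_lit 27) (.e (nat_lit 491558) (nat_lit 10) .nil)))) .nil)) 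
(.lf (nat_lit 48947) (.g (nat_lit 352) (.e (nat_lit 1298) (nat_lit 96) (.e (nat_lit 131128) (nat_lit 13) (.e (nat_lit 393260) (nat_lit 21) .nil))) .nil)))) (.nd (nat_lit 4) (.nd (nat_lit 5) 
(.lf (nat_lit 48907) (.g (nat_lit 2599) (.e (nat_lit 1296) (nat_lit 96) (.e (nat_lit 131128) (nat_lit 13) (.e (nat_lit 393300) (nat_lit 27) (.e (nat_lit 491558) (nat_lit 10) (.e (nat_lit 344090) (nat_lit 18) (.e (nat_lit 7124) (nat_lit 382) .nil)))))) (.g (nat_lit 6) .nil .nil))) 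
(.lf (nat_lit 48939) (.g (nat_lit 1376) (.e (nat_lit 1297) (nat_lit 96) (.e (nat_lit 131109) (nat_lit 9) (.e (nat_lit 336443) (nat_lit 32) (.e (nat_lit 466969) (nat_lit 21) (.e (nat_lit 164332) (nat_lit 230) .nil))))) .nil))) (.nd (nat_lit 5) 
(.lf (nat_lit 48923) (.g (nat_lit 3708) (.e (nat_lit 1296) (nat_lit 96) (.e (nat_lit 131128) (nat_lit 13) (.e (nat_lit 393301) (nat_lit 27) (.e (nat_lit 491559) (nat_lit 10) (.e (nat_lit 344091) (nat_lit 18) (.e (nat_lit 7125) (nat_lit 382) .nil)))))) (.g (nat_lit 6) .nil .nil))) 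
(.lf (nat_lit 48955) (.g (nat_lit 2167) (.e (nat_lit 1300) (nat_lit 96) (.e (nat_lit 131091) (nat_lit 2) (.e (nat_lit 90176) (nat_lit 15) (.e (nat_lit 188447) (nat_lit 22) (.e (nat_lit 196661) (nat_lit 12) (.e (nat_lit 57353) (nat_lit 0) (.e (nat_lit 4452) (nat_lit 263) .nil))))))) (.g (nat_lit 4) .nil .nil)))))) (.nd (nat_lit 3) (.nd (nat_lit 4) (.nd (nat_lit 5) 
(.lf (nat_lit 48903) (.g (nat_lit 2539) (.e (nat_lit 1296) (nat_lit 96) (.e (nat_lit 131128) (nat_lit 13) (.e (nat_lit 393265) (nat_lit 22) (.e (nat_lit 417820) (nat_lit 10) (.e (nat_lit 5761) (nat_lit 315) (.e (nat_lit 163850) (nat_lit 0) (.e (nat_lit 6277) (nat_lit 337) .nil))))))) (.g (nat_lit 6) .nil .nil))) 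
(.lf (nat_lit 48935) (.g (nat_lit 1416) (.e (nat_lit 1297) (nat_lit 96) (.e (nat_lit 131091) (nat_lit 2) (.e (nat_lit 90185) (nat_lit 17) (.e (nat_lit 237605) (nat_lit 9) (.e (nat_lit 426438) (nat_lit 18) .nil))))) .nil))) (.nd (nat_lit 5) 
(.lf (nat_lit 48919) (.g (nat_lit 2359) (.e (nat_lit 1296) (nat_lit 96) (.e (nat_lit 131128) (nat_lit 13) (.e (nat_lit 393301) (nat_lit 27) (.e (nat_lit 491558) (nat_lit 10) (.e (nat_lit 344095) (nat_lit 18) (.e (nat_lit 7125) (nat_lit 382) .nil)))))) (.g (nat_lit 4) .nil .nil))) 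
(.lf (nat_lit 48951) (.g (nat_lit 2072) (.e (nat_lit 1298) (nat_lit 96) (.e (nat_lit 131128) (nat_lit 13) (.e (nat_lit 393301) (nat_lit 27) (.e (nat_lit 491558) (nat_lit 10) (.e (nat_lit 344096) (nat_lit 18) .nil))))) .nil)))) (.nd (nat_lit 4) (.nd (nat_lit 5) 
(.lf (nat_lit 48911) (.g (nat_lit 2737) (.e (nat_lit 1296) (nat_lit 96) (.e (nat_lit 131128) (nat_lit 13) (.e (nat_lit 393300) (nat_lit 27) (.e (nat_lit 491560) (nat_lit 10) (.e (nat_lit 344091) (nat_lit 18) (.e (nat_lit 7124) (nat_lit 382) .nil)))))) (.g (nat_lit 6) .nil .nil))) 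
(.lf (nat_lit 48943) (.g (nat_lit 2429) (.e (nat_lit 1298) (nat_lit 96) (.e (nat_lit 131093) (nat_lit 2) (.e (nat_lit 90170) (nat_lit 13) (.e (nat_lit 172113) (nat_lit 10) (.e (nat_lit 434248) (nat_lit 28) .nil))))) .nil))) (.nd (nat_lit 5) 
(.lf (nat_lit 48927) (.g (nat_lit 3023) (.e (nat_lit 1296) (nat_lit 96) (.e (nat_lit 131128) (nat_lit 13) (.e (nat_lit 393301) (nat_lit 27) (.e (nat_lit 491560) (nat_lit 10) (.e (nat_lit 344089) (nat_lit 18) .nil))))) .nil)) 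
(.lf (nat_lit 48959) (.g (nat_lit 1687) (.e (nat_lit 7936) (nat_lit 96) (.e (nat_lit 131116) (nat_lit 9) (.e (nat_lit 335988) (nat_lit 1) (.e (nat_lit 57830) (nat_lit 250) (.e (nat_lit 7936) (nat_lit 172) .nil))))) .nil))))))))

noncomputable def tv680 : DT := (.nd (nat_lit 0) (.nd (nat_lit 1) (.nd (nat_lit 2) (.nd (nat_lit 3) (.nd (nat_lit 4) (.nd (nat_lit 5) 
(.lf (nat_lit 48960) (.g (nat_lit 1319) (.e (nat_lit 7936) (nat_lit 96) (.e (nat_lit 131116) (nat_lit 9) (.e (nat_lit 335988) (nat_lit 1) (.e (nat_lit 57832) (nat_lit 250) (.e (nat_lit 7936) (nat_lit 172) .nil))))) .nil)) 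
(.lf (nat_lit 48992) (.g (nat_lit 2027) (.e (nat_lit 1310) (nat_lit 98) (.e (nat_lit 147494) (nat_lit 11) (.e (nat_lit 24630) (nat_lit 9) (.e (nat_lit 336369) (nat_lit 27) (.e (nat_lit 426173) (nat_lit 7) (.e (nat_lit 409617) (nat_lit 10) (.e (nat_lit 5355) (nat_lit 298) .nil))))))) (.g (nat_lit 4) .nil .nil)))) (.nd (nat_lit 5) 
(.lf (nat_lit 48976) (.g (nat_lit 3789) (.e (nat_lit 1304) (nat_lit 97) (.e (nat_lit 139281) (nat_lit 5) (.e (nat_lit 73746) (nat_lit 3) (.e (nat_lit 516129) (nat_lit 3) (.e (nat_lit 221214) (nat_lit 23) (.e (nat_lit 204819) (nat_lit 17) (.e (nat_lit 1994) (nat_lit 137) (.e (nat_lit 663554) (nat_lit 0) .nil)))))))) (.g (nat_lit 8) .nil .nil))) 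
(.lf (nat_lit 49008) (.g (nat_lit 4332) (.e (nat_lit 1311) (nat_lit 98) (.e (nat_lit 147496) (nat_lit 11) (.e (nat_lit 24617) (nat_lit 7) (.e (nat_lit 319533) (nat_lit 16) (.e (nat_lit 286753) (nat_lit 10) (.e (nat_lit 344160) (nat_lit 37) (.e (nat_lit 647190) (nat_lit 9) .nil))))))) (.g (nat_lit 0) .nil .nil))))) (.nd (nat_lit 4) (.nd (nat_lit 5) 
(.lf (nat_lit 48968) (.g (nat_lit 1834) (.e (nat_lit 7936) (nat_lit 96) (.e (nat_lit 131127) (nat_lit 13) (.e (nat_lit 393260) (nat_lit 21) (.e (nat_lit 409649) (nat_lit 18) (.e (nat_lit 303114) (nat_lit 1) .nil))))) .nil)) 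
(.lf (nat_lit 49000) (.g (nat_lit 4447) (.e (nat_lit 1310) (nat_lit 98) (.e (nat_lit 147495) (nat_lit 11) (.e (nat_lit 24617) (nat_lit 7) (.e (nat_lit 319533) (nat_lit 16) (.e (nat_lit 286753) (nat_lit 10) (.e (nat_lit 344160) (nat_lit 37) (.e (nat_lit 647195) (nat_lit 9) .nil))))))) (.g (nat_lit 0) .nil .nil)))) (.nd (nat_lit 5) 
(.lf (nat_lit 48984) (.g (nat_lit 2775) (.e (nat_lit 1310) (nat_lit 98) (.e (nat_lit 147493) (nat_lit 11) (.e (nat_lit 24604) (nat_lit 2) (.e (nat_lit 90170) (nat_lit 13) (.e (nat_lit 172106) (nat_lit 10) (.e (nat_lit 434244) (nat_lit 28) (.e (nat_lit 573458) (nat_lit 9) .nil))))))) (.g (nat_lit 5) .nil .nil))) 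
(.lf (nat_lit 49016) (.g (nat_lit 4625) (.e (nat_lit 1312) (nat_lit 98) (.e (nat_lit 147494) (nat_lit 11) (.e (nat_lit 24604) (nat_lit 2) (.e (nat_lit 90170) (nat_lit 13) (.e (nat_lit 172106) (nat_lit 10) (.e (nat_lit 434244) (nat_lit 28) (.e (nat_lit 573449) (nat_lit 9) .nil))))))) (.g (nat_lit 0) .nil .nil)))))) (.nd (nat_lit 3) (.nd (nat_lit 4) (.nd (nat_lit 5) 
(.lf (nat_lit 48964) (.g (nat_lit 1045) (.e (nat_lit 7936) (nat_lit 96) (.e (nat_lit 131127) (nat_lit 13) (.e (nat_lit 393260) (nat_lit 21) (.e (nat_lit 409644) (nat_lit 18) .nil)))) .nil)) 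
(.lf (nat_lit 48996) (.g (nat_lit 3196) (.e (nat_lit 1310) (nat_lit 98) (.e (nat_lit 147495) (nat_lit 11) (.e (nat_lit 24605) (nat_lit 2) (.e (nat_lit 90170) (nat_lit 13) (.e (nat_lit 172106) (nat_lit 10) (.e (nat_lit 434244) (nat_lit 28) (.e (nat_lit 573458) (nat_lit 9) .nil))))))) (.g (nat_lit 5) .nil .nil)))) (.nd (nat_lit 5) 
(.lf (nat_lit 48980) (.g (nat_lit 2071) (.e (nat_lit 1309) (nat_lit 98) (.e (nat_lit 147496) (nat_lit 11) (.e (nat_lit 24617) (nat_lit 7) (.e (nat_lit 319533) (nat_lit 16) .nil)))) .nil)) 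
(.lf (nat_lit 49012) (.g (nat_lit 2108) (.e (nat_lit 1312) (nat_lit 98) (.e (nat_lit 147493) (nat_lit 11) (.e (nat_lit 24660) (nat_lit 13) (.e (nat_lit 393260) (nat_lit 21) (.e (nat_lit 409617) (nat_lit 10) (.e (nat_lit 7936) (nat_lit 298) .nil)))))) (.g (nat_lit 5) .nil .nil))))) (.nd (nat_lit 4) (.nd (nat_lit 5) 
(.lf (nat_lit 48972) (.g (nat_lit 4035) (.e (nat_lit 1304) (nat_lit 97) (.e (nat_lit 139280) (nat_lit 4) (.e (nat_lit 65598) (nat_lit 9) (.e (nat_lit 336028) (nat_lit 3) (.e (nat_lit 98367) (nat_lit 27) (.e (nat_lit 434268) (nat_lit 36) (.e (nat_lit 639007) (nat_lit 13) .nil))))))) (.g (nat_lit 6) .nil .nil))) 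
(.lf (nat_lit 49004) (.g (nat_lit 2229) (.e (nat_lit 1310) (nat_lit 98) (.e (nat_lit 147496) (nat_lit 11) (.e (nat_lit 24616) (nat_lit 7) (.e (nat_lit 319534) (nat_lit 16) (.e (nat_lit 286756) (nat_lit 10) (.e (nat_lit 344160) (nat_lit 37) (.e (nat_lit 647190) (nat_lit 9) .nil))))))) (.g (nat_lit 4) .nil .nil)))) (.nd (nat_lit 5) 
(.lf (nat_lit 48988) (.g (nat_lit 3708) (.e (nat_lit 1310) (nat_lit 98) (.e (nat_lit 147494) (nat_lit 11) (.e (nat_lit 24605) (nat_lit 2) (.e (nat_lit 90170) (nat_lit 13) (.e (nat_lit 172106) (nat_lit 10) (.e (nat_lit 434244) (nat_lit 28) (.e (nat_lit 573458) (nat_lit 9) .nil))))))) (.g (nat_lit 7) .nil .nil))) 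
(.lf (nat_lit 49020) (.g (nat_lit 2006) (.e (nat_lit 1312) (nat_lit 98) (.e (nat_lit 147494) (nat_lit 11) (.e (nat_lit 24604) (nat_lit 2) (.e (nat_lit 90185) (nat_lit 17) (.e (nat_lit 237605) (nat_lit 9) (.e (nat_lit 425986) (nat_lit 0) (.e (nat_lit 3309) (nat_lit 202) (.e (nat_lit 573456) (nat_lit 9) .nil)))))))) (.g (nat_lit 4) .nil .nil))))))) 
(.nd (nat_lit 2) (.nd (nat_lit 3) (.nd (nat_lit 4) (.nd (nat_lit 5) 
(.lf (nat_lit 48962) (.g (nat_lit 1719) (.e (nat_lit 7936) (nat_lit 96) (.e (nat_lit 131127) (nat_lit 13) (.e (nat_lit 393260) (nat_lit 21) (.e (nat_lit 409641) (nat_lit 17) .nil)))) .nil)) 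
(.lf (nat_lit 48994) (.g (nat_lit 3362) (.e (nat_lit 1310) (nat_lit 98) (.e (nat_lit 147494) (nat_lit 11) (.e (nat_lit 24660) (nat_lit 13) (.e (nat_lit 393260) (nat_lit 21) (.e (nat_lit 409617) (nat_lit 10) (.e (nat_lit 5355) (nat_lit 298) .nil)))))) (.g (nat_lit 0) .nil .nil)))) (.nd (nat_lit 5) 
(.lf (nat_lit 48978) (.g (nat_lit 1246) (.e (nat_lit 1304) (nat_lit 97) (.e (nat_lit 139281) (nat_lit 5) (.e (nat_lit 73746) (nat_lit 3) (.e (nat_lit 516131) (nat_lit 3) (.e (nat_lit 221212) (nat_lit 22) .nil))))) .nil)) 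
(.lf (nat_lit 49010) (.g (nat_lit 2214) (.e (nat_lit 1312) (nat_lit 98) (.e (nat_lit 147492) (nat_lit 11) (.e (nat_lit 24657) (nat_lit 13) (.e (nat_lit 393271) (nat_lit 23) (.e (nat_lit 426354) (nat_lit 15) (.e (nat_lit 2017) (nat_lit 139) (.e (nat_lit 679946) (nat_lit 5) .nil))))))) (.g (nat_lit 6) .nil .nil))))) (.nd (nat_lit 4) (.nd (nat_lit 5) 
(.lf (nat_lit 48970) (.g (nat_lit 1587) (.e (nat_lit 7936) (nat_lit 96) (.e (nat_lit 131127) (nat_lit 13) (.e (nat_lit 393260) (nat_lit 21) (.e (nat_lit 409650) (nat_lit 19) .nil)))) .nil)) 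
(.lf (nat_lit 49002) (.g (nat_lit 1991) (.e (nat_lit 1310) (nat_lit 98) (.e (nat_lit 147495) (nat_lit 11) (.e (nat_lit 24660) (nat_lit 13) (.e (nat_lit 393260) (nat_lit 21) (.e (nat_lit 409623) (nat_lit 10) .nil))))) .nil))) (.nd (nat_lit 5) 
(.lf (nat_lit 48986) (.g (nat_lit 4647) (.e (nat_lit 1310) (nat_lit 98) (.e (nat_lit 147494) (nat_lit 11) (.e (nat_lit 24604) (nat_lit 2) (.e (nat_lit 90170) (nat_lit 13) (.e (nat_lit 172106) (nat_lit 10) (.e (nat_lit 434244) (nat_lit 28) (.e (nat_lit 573451) (nat_lit 9) .nil))))))) (.g (nat_lit 0) .nil .nil))) 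
(.lf (nat_lit 49018) (.g (nat_lit 4913) (.e (nat_lit 1312) (nat_lit 98) (.e (nat_lit 147494) (nat_lit 11) (.e (nat_lit 24604) (nat_lit 2) (.e (nat_lit 90178) (nat_lit 15) (.e (nat_lit 188440) (nat_lit 20) (.e (nat_lit 3307) (nat_lit 202) (.e (nat_lit 573456) (nat_lit 9) .nil))))))) (.g (nat_lit 0) .nil .nil)))))) (.nd (nat_lit 3) (.nd (nat_lit 4) (.nd (nat_lit 5) 
(.lf (nat_lit 48966) (.g (nat_lit 1667) (.e (nat_lit 7936) (nat_lit 96) (.e (nat_lit 131127) (nat_lit 13) (.e (nat_lit 393260) (nat_lit 21) (.e (nat_lit 409648) (nat_lit 18) (.e (nat_lit 303115) (nat_lit 1) .nil))))) .nil)) 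
(.lf (nat_lit 48998) (.g (nat_lit 2074) (.e (nat_lit 1310) (nat_lit 98) (.e (nat_lit 147495) (nat_lit 11) (.e (nat_lit 24616) (nat_lit 7) (.e (nat_lit 319534) (nat_lit 16) (.e (nat_lit 286756) (nat_lit 10) (.e (nat_lit 344160) (nat_lit 37) (.e (nat_lit 647195) (nat_lit 9) .nil))))))) (.g (nat_lit 4) .nil .nil)))) (.nd (nat_lit 5) 
(.lf (nat_lit 48982) (.g (nat_lit 1385) (.e (nat_lit 1310) (nat_lit 98) (.e (nat_lit 147463) (nat_lit 9) (.e (nat_lit 249) (nat_lit 21) (.e (nat_lit 336215) (nat_lit 13) (.e (nat_lit 401152) (nat_lit 17) (.e (nat_lit 7112) (nat_lit 381) (.e (nat_lit 229650) (nat_lit 232) .nil))))))) (.g (nat_lit 4) .nil .nil))) 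
(.lf (nat_lit 49014) (.g (nat_lit 315) (.e (nat_lit 1312) (nat_lit 98) (.e (nat_lit 147494) (nat_lit 11) (.e (nat_lit 24603) (nat_lit 2) .nil))) .nil)))) (.nd (nat_lit 4) (.nd (nat_lit 5) 
(.lf (nat_lit 48974) (.g (nat_lit 1755) (.e (nat_lit 1304) (nat_lit 97) (.e (nat_lit 139280) (nat_lit 4) (.e (nat_lit 65626) (nat_lit 13) (.e (nat_lit 393225) (nat_lit 9) (.e (nat_lit 335906) (nat_lit 0) .nil))))) .nil)) 
(.lf (nat_lit 49006) (.g (nat_lit 4225) (.e (nat_lit 1310) (nat_lit 98) (.e (nat_lit 147496) (nat_lit 11) (.e (nat_lit 24617) (nat_lit 7) (.e (nat_lit 319534) (nat_lit 16) (.e (nat_lit 286756) (nat_lit 10) (.e (nat_lit 344160) (nat_lit 37) (.e (nat_lit 647190) (nat_lit 9) .nil))))))) (.g (nat_lit 7) .nil .nil)))) (.nd (nat_lit 5) 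
(.lf (nat_lit 48990) (.g (nat_lit 2932) (.e (nat_lit 1310) (nat_lit 98) (.e (nat_lit 147494) (nat_lit 11) (.e (nat_lit 24608) (nat_lit 3) (.e (nat_lit 98372) (nat_lit 29) (.e (nat_lit 450586) (nat_lit 10) (.e (nat_lit 573452) (nat_lit 9) .nil)))))) (.g (nat_lit 4) .nil .nil))) 
(.lf (nat_lit 49022) (.g (nat_lit 3329) (.e (nat_lit 1312) (nat_lit 98) (.e (nat_lit 147494) (nat_lit 11) (.e (nat_lit 24607) (nat_lit 3) (.e (nat_lit 98372) (nat_lit 29) (.e (nat_lit 450586) (nat_lit 10) (.e (nat_lit 573456) (nat_lit 9) .nil)))))) (.g (nat_lit 6) .nil .nil)))))))) (.nd (nat_lit 1) (.nd (nat_lit 2) (.nd (nat_lit 3) (.nd (nat_lit 4) (.nd (nat_lit 5) 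
(.lf (nat_lit 48961) (.g (nat_lit 2414) (.e (nat_lit 7936) (nat_lit 96) (.e (nat_lit 131127) (nat_lit 13) (.e (nat_lit 393260) (nat_lit 21) (.e (nat_lit 409616) (nat_lit 10) (.e (nat_lit 5355) (nat_lit 298) .nil))))) .nil)) 
(.lf (nat_lit 48993) (.g (nat_lit 1434) (.e (nat_lit 1310) (nat_lit 98) (.e (nat_lit 147494) (nat_lit 11) (.e (nat_lit 24657) (nat_lit 13) (.e (nat_lit 401152) (nat_lit 17) (.e (nat_lit 7112) (nat_lit 381) (.e (nat_lit 229651) (nat_lit 232) .nil)))))) (.g (nat_lit 5) .nil .nil)))) (.nd (nat_lit 5) 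
(.lf (nat_lit 48977) (.g (nat_lit 3989) (.e (nat_lit 1304) (nat_lit 97) (.e (nat_lit 139281) (nat_lit 5) (.e (nat_lit 73746) (nat_lit 3) (.e (nat_lit 516129) (nat_lit 3) (.e (nat_lit 221215) (nat_lit 23) (.e (nat_lit 204819) (nat_lit 17) (.e (nat_lit 1994) (nat_lit 137) (.e (nat_lit 663554) (nat_lit 0) .nil)))))))) (.g (nat_lit 8) .nil .nil))) 
(.lf (nat_lit 49009) (.g (nat_lit 3940) (.e (nat_lit 1311) (nat_lit 98) (.e (nat_lit 147496) (nat_lit 11) (.e (nat_lit 24617) (nat_lit 7) (.e (nat_lit 319534) (nat_lit 16) (.e (nat_lit 286756) (nat_lit 10) (.e (nat_lit 344160) (nat_lit 37) (.e (nat_lit 647190) (nat_lit 9) .nil))))))) (.g (nat_lit 7) .nil .nil))))) (.nd (nat_lit 4) (.nd (nat_lit 5) 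
(.lf (nat_lit 48969) (.g (nat_lit 1538) (.e (nat_lit 7936) (nat_lit 96) (.e (nat_lit 131127) (nat_lit 13) (.e (nat_lit 393260) (nat_lit 21) (.e (nat_lit 409649) (nat_lit 18) (.e (nat_lit 303115) (nat_lit 1) .nil))))) .nil)) 
(.lf (nat_lit 49001) (.g (nat_lit 3793) (.e (nat_lit 1310) (nat_lit 98) (.e (nat_lit 147495) (nat_lit 11) (.e (nat_lit 24617) (nat_lit 7) (.e (nat_lit 319534) (nat_lit 16) (.e (nat_lit 286756) (nat_lit 10) (.e (nat_lit 344160) (nat_lit 37) (.e (nat_lit 647190) (nat_lit 9) .nil))))))) (.g (nat_lit 6) .nil .nil)))) (.nd (nat_lit 5) 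
(.lf (nat_lit 48985) (.g (nat_lit 2937) (.e (nat_lit 1310) (nat_lit 98) (.e (nat_lit 147493) (nat_lit 11) (.e (nat_lit 24660) (nat_lit 13) (.e (nat_lit 393260) (nat_lit 21) (.e (nat_lit 409617) (nat_lit 10) (.e (nat_lit 5355) (nat_lit 298) .nil)))))) (.g (nat_lit 0) .nil .nil))) 
(.lf (nat_lit 49017) (.g (nat_lit 1070) (.e (nat_lit 1312) (nat_lit 98) (.e (nat_lit 147494) (nat_lit 11) (.e (nat_lit 24604) (nat_lit 2) (.e (nat_lit 90176) (nat_lit 15) .nil)))) .nil))))) (.nd (nat_lit 3) (.nd (nat_lit 4) (.nd (nat_lit 5) 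
(.lf (nat_lit 48965) (.g (nat_lit 1802) (.e (nat_lit 7936) (nat_lit 96) (.e (nat_lit 131127) (nat_lit 13) (.e (nat_lit 393260) (nat_lit 21) (.e (nat_lit 409648) (nat_lit 18) (.e (nat_lit 303108) (nat_lit 0) .nil))))) .nil)) 
(.lf (nat_lit 48997) (.g (nat_lit 2224) (.e (nat_lit 1310) (nat_lit 98) (.e (nat_lit 147495) (nat_lit 11) (.e (nat_lit 24616) (nat_lit 7) (.e (nat_lit 319533) (nat_lit 16) (.e (nat_lit 286753) (nat_lit 10) (.e (nat_lit 344160) (nat_lit 37) (.e (nat_lit 647190) (nat_lit 9) .nil))))))) (.g (nat_lit 4) .nil .nil)))) (.nd (nat_lit 5) 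
(.lf (nat_lit 48981) (.g (nat_lit 2086) (.e (nat_lit 1309) (nat_lit 98) (.e (nat_lit 147496) (nat_lit 11) (.e (nat_lit 24617) (nat_lit 7) (.e (nat_lit 319534) (nat_lit 16) .nil)))) .nil)) 
(.lf (nat_lit 49013) (.g (nat_lit 1156) (.e (nat_lit 1312) (nat_lit 98) (.e (nat_lit 147493) (nat_lit 11) (.e (nat_lit 24660) (nat_lit 13) (.e (nat_lit 393260) (nat_lit 21) (.e (nat_lit 417536) (nat_lit 10) (.e (nat_lit 5272) (nat_lit 298) .nil)))))) (.g (nat_lit 4) .nil .nil))))) (.nd (nat_lit 4) (.nd (nat_lit 5) 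
(.lf (nat_lit 48973) (.g (nat_lit 2053) (.e (nat_lit 1304) (nat_lit 97) (.e (nat_lit 139280) (nat_lit 4) (.e (nat_lit 65610) (nat_lit 10) (.e (nat_lit 344117) (nat_lit 21) (.e (nat_lit 516151) (nat_lit 9) .nil))))) .nil)) 
(.lf (nat_lit 49005) (.g (nat_lit 4438) (.e (nat_lit 1310) (nat_lit 98) (.e (nat_lit 147496) (nat_lit 11) (.e (nat_lit 24617) (nat_lit 7) (.e (nat_lit 319533) (nat_lit 16) (.e (nat_lit 286753) (nat_lit 10) (.e (nat_lit 344160) (nat_lit 37) (.e (nat_lit 647190) (nat_lit 9) .nil))))))) (.g (nat_lit 0) .nil .nil)))) (.nd (nat_lit 5) 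
(.lf (nat_lit 48989) (.g (nat_lit 1030) (.e (nat_lit 1310) (nat_lit 98) (.e (nat_lit 147494) (nat_lit 11) (.e (nat_lit 24607) (nat_lit 3) (.e (nat_lit 106240) (nat_lit 29) .nil)))) .nil)) 
(.lf (nat_lit 49021) (.g (nat_lit 4077) (.e (nat_lit 1312) (nat_lit 98) (.e (nat_lit 147494) (nat_lit 11) (.e (nat_lit 24605) (nat_lit 2) (.e (nat_lit 90170) (nat_lit 13) (.e (nat_lit 172113) (nat_lit 10) (.e (nat_lit 434247) (nat_lit 28) (.e (nat_lit 573456) (nat_lit 9) .nil))))))) (.g (nat_lit 7) .nil .nil))))))) (.nd (nat_lit 2) (.nd (nat_lit 3) (.nd (nat_lit 4) (.nd (nat_lit 5) 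
(.lf (nat_lit 48963) (.g (nat_lit 1382) (.e (nat_lit 7936) (nat_lit 96) (.e (nat_lit 131127) (nat_lit 13) (.e (nat_lit 393260) (nat_lit 21) (.e (nat_lit 409643) (nat_lit 18) (.e (nat_lit 303115) (nat_lit 1) .nil))))) .nil)) 
(.lf (nat_lit 48995) (.g (nat_lit 3026) (.e (nat_lit 1310) (nat_lit 98) (.e (nat_lit 147494) (nat_lit 11) (.e (nat_lit 24660) (nat_lit 13) (.e (nat_lit 393260) (nat_lit 21) (.e (nat_lit 409623) (nat_lit 10) (.e (nat_lit 5293) (nat_lit 298) .nil)))))) (.g (nat_lit 0) .nil .nil)))) (.nd (nat_lit 5) 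
(.lf (nat_lit 48979) (.g (nat_lit 3783) (.e (nat_lit 1304) (nat_lit 97) (.e (nat_lit 139281) (nat_lit 5) (.e (nat_lit 73746) (nat_lit 3) (.e (nat_lit 516131) (nat_lit 3) (.e (nat_lit 221215) (nat_lit 23) (.e (nat_lit 204819) (nat_lit 17) (.e (nat_lit 1994) (nat_lit 137) (.e (nat_lit 663554) (nat_lit 0) .nil)))))))) (.g (nat_lit 0) .nil .nil))) 
(.lf (nat_lit 49011) (.g (nat_lit 2113) (.e (nat_lit 1312) (nat_lit 98) (.e (nat_lit 147493) (nat_lit 11) (.e (nat_lit 24660) (nat_lit 13) (.e (nat_lit 393260) (nat_lit 21) (.e (nat_lit 409616) (nat_lit 10) (.e (nat_lit 7936) (nat_lit 298) .nil)))))) (.g (nat_lit 5) .nil .nil))))) (.nd (nat_lit 4) (.nd (nat_lit 5) 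
(.lf (nat_lit 48971) (.g (nat_lit 2389) (.e (nat_lit 1304) (nat_lit 97) (.e (nat_lit 139272) (nat_lit 0) (.e (nat_lit 1524) (nat_lit 108) (.e (nat_lit 336076) (nat_lit 9) (.e (nat_lit 336456) (nat_lit 34) (.e (nat_lit 483350) (nat_lit 17) (.e (nat_lit 1996) (nat_lit 137) (.e (nat_lit 663554) (nat_lit 0) .nil)))))))) (.g (nat_lit 6) .nil .nil))) 
(.lf (nat_lit 49003) (.g (nat_lit 2729) (.e (nat_lit 1310) (nat_lit 98) (.e (nat_lit 147496) (nat_lit 11) (.e (nat_lit 24616) (nat_lit 7) (.e (nat_lit 319533) (nat_lit 16) (.e (nat_lit 286753) (nat_lit 10) (.e (nat_lit 344160) (nat_lit 37) (.e (nat_lit 647190) (nat_lit 9) .nil))))))) (.g (nat_lit 5) .nil .nil)))) (.nd (nat_lit 5) 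
(.lf (nat_lit 48987) (.g (nat_lit 4258) (.e (nat_lit 1310) (nat_lit 98) (.e (nat_lit 147494) (nat_lit 11) (.e (nat_lit 24605) (nat_lit 2) (.e (nat_lit 90170) (nat_lit 13) (.e (nat_lit 172106) (nat_lit 10) (.e (nat_lit 434244) (nat_lit 28) (.e (nat_lit 573451) (nat_lit 9) .nil))))))) (.g (nat_lit 7) .nil .nil))) 
(.lf (nat_lit 49019) (.g (nat_lit 1973) (.e (nat_lit 1312) (nat_lit 98) (.e (nat_lit 147494) (nat_lit 11) (.e (nat_lit 24604) (nat_lit 2) (.e (nat_lit 90178) (nat_lit 15) (.e (nat_lit 188442) (nat_lit 20) .nil))))) .nil))))) (.nd (nat_lit 3) (.nd (nat_lit 4) (.nd (nat_lit 5) 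
(.lf (nat_lit 48967) (.g (nat_lit 1926) (.e (nat_lit 7936) (nat_lit 96) (.e (nat_lit 131127) (nat_lit 13) (.e (nat_lit 393260) (nat_lit 21) (.e (nat_lit 409649) (nat_lit 18) (.e (nat_lit 303111) (nat_lit 0) .nil))))) .nil)) 
(.lf (nat_lit 48999) (.g (nat_lit 4280) (.e (nat_lit 1310) (nat_lit 98) (.e (nat_lit 147495) (nat_lit 11) (.e (nat_lit 24617) (nat_lit 7) (.e (nat_lit 319533) (nat_lit 16) (.e (nat_lit 286753) (nat_lit 10) (.e (nat_lit 344160) (nat_lit 37) (.e (nat_lit 647190) (nat_lit 9) .nil))))))) (.g (nat_lit 7) .nil .nil)))) (.nd (nat_lit 5) 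
(.lf (nat_lit 48983) (.g (nat_lit 1307) (.e (nat_lit 1310) (nat_lit 98) (.e (nat_lit 147492) (nat_lit 11) (.e (nat_lit 24657) (nat_lit 13) (.e (nat_lit 401152) (nat_lit 17) (.e (nat_lit 7112) (nat_lit 381) (.e (nat_lit 229650) (nat_lit 232) .nil)))))) (.g (nat_lit 5) .nil .nil))) 
(.lf (nat_lit 49015) (.g (nat_lit 3131) (.e (nat_lit 1312) (nat_lit 98) (.e (nat_lit 147494) (nat_lit 11) (.e (nat_lit 24603) (nat_lit 2) (.e (nat_lit 90176) (nat_lit 15) (.e (nat_lit 188440) (nat_lit 20) (.e (nat_lit 3307) (nat_lit 202) (.e (nat_lit 573456) (nat_lit 9) .nil))))))) (.g (nat_lit 6) .nil .nil))))) (.nd (nat_lit 4) (.nd (nat_lit 5) 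
(.lf (nat_lit 48975) (.g (nat_lit 1455) (.e (nat_lit 1304) (nat_lit 97) (.e (nat_lit 139281) (nat_lit 5) (.e (nat_lit 73746) (nat_lit 3) (.e (nat_lit 516129) (nat_lit 3) (.e (nat_lit 221210) (nat_lit 22) (.e (nat_lit 196625) (nat_lit 9) (.e (nat_lit 1004) (nat_lit 81) (.e (nat_lit 1996) (nat_lit 137) (.e (nat_lit 663554) (nat_lit 0) .nil))))))))) (.g (nat_lit 4) .nil .nil))) 
(.lf (nat_lit 49007) (.g (nat_lit 4366) (.e (nat_lit 1310) (nat_lit 98) (.e (nat_lit 147496) (nat_lit 11) (.e (nat_lit 24617) (nat_lit 7) (.e (nat_lit 319534) (nat_lit 16) (.e (nat_lit 286756) (nat_lit 10) (.e (nat_lit 344160) (nat_lit 37) (.e (nat_lit 647195) (nat_lit 9) .nil))))))) (.g (nat_lit 7) .nil .nil)))) (.nd (nat_lit 5) 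
(.lf (nat_lit 48991) (.g (nat_lit 3881) (.e (nat_lit 1310) (nat_lit 98) (.e (nat_lit 147494) (nat_lit 11) (.e (nat_lit 24617) (nat_lit 7) (.e (nat_lit 319533) (nat_lit 16) (.e (nat_lit 286753) (nat_lit 10) (.e (nat_lit 344160) (nat_lit 37) (.e (nat_lit 647195) (nat_lit 9) .nil))))))) (.g (nat_lit 0) .nil .nil))) 
(.lf (nat_lit 49023) (.g (nat_lit 3999) (.e (nat_lit 1312) (nat_lit 98) (.e (nat_lit 147494) (nat_lit 11) (.e (nat_lit 24608) (nat_lit 3) (.e (nat_lit 98372) (nat_lit 29) (.e (nat_lit 450586) (nat_lit 10) (.e (nat_lit 573456) (nat_lit 9) .nil)))))) (.g (nat_lit 6) .nil .nil)))))))))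

noncomputable def tv681 : DT := (.nd (nat_lit 0) (.nd (nat_lit 1) (.nd (nat_lit 2) (.nd (nat_lit 3) (.nd (nat_lit 4) (.nd (nat_lit 5) 
(.lf (nat_lit 49024) (.g (nat_lit 4276) (.e (nat_lit 1312) (nat_lit 98) (.e (nat_lit 147494) (nat_lit 11) (.e (nat_lit 24609) (nat_lit 3) (.e (nat_lit 98373) (nat_lit 29) (.e (nat_lit 450587) (nat_lit 10) (.e (nat_lit 573456) (nat_lit 9) .nil)))))) (.g (nat_lit 6) .nil .nil))) 
(.lf (nat_lit 49056) (.g (nat_lit 3075) (.e (nat_lit 1315) (nat_lit 98) (.e (nat_lit 147466) (nat_lit 9) (.e (nat_lit 307) (nat_lit 22) (.e (nat_lit 344117) (nat_lit 21) (.e (nat_lit 516166) (nat_lit 12) (.e (nat_lit 450587) (nat_lit 10) (.e (nat_lit 573454) (nat_lit 9) .nil))))))) (.g (nat_lit 5) .nil .nil)))) (.nd (nat_lit 5) 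
(.lf (nat_lit 49040) (.g (nat_lit 3767) (.e (nat_lit 1312) (nat_lit 98) (.e (nat_lit 147495) (nat_lit 11) (.e (nat_lit 24608) (nat_lit 3) (.e (nat_lit 98373) (nat_lit 29) (.e (nat_lit 450587) (nat_lit 10) (.e (nat_lit 573456) (nat_lit 9) .nil)))))) (.g (nat_lit 5) .nil .nil))) 
(.lf (nat_lit 49072) (.g (nat_lit 4645) (.e (nat_lit 1315) (nat_lit 98) (.e (nat_lit 147495) (nat_lit 11) (.e (nat_lit 24604) (nat_lit 2) (.e (nat_lit 90170) (nat_lit 13) (.e (nat_lit 172113) (nat_lit 10) .nil))))) .nil)))) (.nd (nat_lit 4) (.nd (nat_lit 5) 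
(.lf (nat_lit 49032) (.g (nat_lit 2791) (.e (nat_lit 1312) (nat_lit 98) (.e (nat_lit 147494) (nat_lit 11) (.e (nat_lit 24665) (nat_lit 14) (.e (nat_lit 401444) (nat_lit 9) (.e (nat_lit 426447) (nat_lit 20) (.e (nat_lit 114721) (nat_lit 24) (.e (nat_lit 106512) (nat_lit 9) .nil))))))) (.g (nat_lit 5) .nil .nil))) 
(.lf (nat_lit 49064) (.g (nat_lit 3659) (.e (nat_lit 1315) (nat_lit 98) (.e (nat_lit 147495) (nat_lit 11) (.e (nat_lit 24588) (nat_lit 0) (.e (nat_lit 1799) (nat_lit 119) (.e (nat_lit 516166) (nat_lit 12) (.e (nat_lit 450587) (nat_lit 10) (.e (nat_lit 573454) (nat_lit 9) .nil))))))) (.g (nat_lit 5) .nil .nil)))) (.nd (nat_lit 5) 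
(.lf (nat_lit 49048) (.g (nat_lit 2230) (.e (nat_lit 1313) (nat_lit 98) (.e (nat_lit 147496) (nat_lit 11) (.e (nat_lit 24617) (nat_lit 7) (.e (nat_lit 319534) (nat_lit 16) (.e (nat_lit 286756) (nat_lit 10) .nil))))) .nil)) 
(.lf (nat_lit 49080) (.g (nat_lit 3986) (.e (nat_lit 1315) (nat_lit 98) (.e (nat_lit 147495) (nat_lit 11) (.e (nat_lit 24605) (nat_lit 2) (.e (nat_lit 90170) (nat_lit 13) (.e (nat_lit 172113) (nat_lit 10) (.e (nat_lit 434245) (nat_lit 28) (.e (nat_lit 573454) (nat_lit 9) .nil))))))) (.g (nat_lit 6) .nil .nil)))))) (.nd (nat_lit 3) (.nd (nat_lit 4) (.nd (nat_lit 5) 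
(.lf (nat_lit 49028) (.g (nat_lit 754) (.e (nat_lit 1312) (nat_lit 98) (.e (nat_lit 147494) (nat_lit 11) (.e (nat_lit 24657) (nat_lit 13) (.e (nat_lit 401152) (nat_lit 17) .nil)))) .nil)) 
(.lf (nat_lit 49060) (.g (nat_lit 2962) (.e (nat_lit 1315) (nat_lit 98) (.e (nat_lit 147492) (nat_lit 11) (.e (nat_lit 24609) (nat_lit 3) (.e (nat_lit 98373) (nat_lit 29) (.e (nat_lit 450587) (nat_lit 10) (.e (nat_lit 573454) (nat_lit 9) .nil)))))) (.g (nat_lit 5) .nil .nil)))) (.nd (nat_lit 5) 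
(.lf (nat_lit 49044) (.g (nat_lit 1244) (.e (nat_lit 1313) (nat_lit 98) (.e (nat_lit 147461) (nat_lit 0) (.e (nat_lit 1428) (nat_lit 108) (.e (nat_lit 336369) (nat_lit 27) (.e (nat_lit 426173) (nat_lit 7) .nil))))) .nil)) 
(.lf (nat_lit 49076) (.g (nat_lit 3701) (.e (nat_lit 1315) (nat_lit 98) (.e (nat_lit 147495) (nat_lit 11) (.e (nat_lit 24604) (nat_lit 2) (.e (nat_lit 90178) (nat_lit 15) (.e (nat_lit 188440) (nat_lit 20) (.e (nat_lit 3304) (nat_lit 202) (.e (nat_lit 573454) (nat_lit 9) .nil))))))) (.g (nat_lit 5) .nil .nil))))) (.nd (nat_lit 4) (.nd (nat_lit 5) 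
(.lf (nat_lit 49036) (.g (nat_lit 3737) (.e (nat_lit 1312) (nat_lit 98) (.e (nat_lit 147495) (nat_lit 11) (.e (nat_lit 24604) (nat_lit 2) (.e (nat_lit 90178) (nat_lit 15) (.e (nat_lit 188440) (nat_lit 20) (.e (nat_lit 3307) (nat_lit 202) (.e (nat_lit 573449) (nat_lit 9) .nil))))))) (.g (nat_lit 5) .nil .nil))) 
(.lf (nat_lit 49068) (.g (nat_lit 3540) (.e (nat_lit 1315) (nat_lit 98) (.e (nat_lit 147495) (nat_lit 11) (.e (nat_lit 24601) (nat_lit 2) (.e (nat_lit 90170) (nat_lit 13) (.e (nat_lit 172113) (nat_lit 10) (.e (nat_lit 434247) (nat_lit 28) (.e (nat_lit 573454) (nat_lit 9) .nil))))))) (.g (nat_lit 5) .nil .nil)))) (.nd (nat_lit 5) 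
(.lf (nat_lit 49052) (.g (nat_lit 976) (.e (nat_lit 1315) (nat_lit 98) (.e (nat_lit 147466) (nat_lit 9) (.e (nat_lit 228) (nat_lit 21) (.e (nat_lit 336023) (nat_lit 3) .nil)))) .nil)) 
(.lf (nat_lit 49084) (.g (nat_lit 3985) (.e (nat_lit 1315) (nat_lit 98) (.e (nat_lit 147495) (nat_lit 11) (.e (nat_lit 24608) (nat_lit 3) (.e (nat_lit 98372) (nat_lit 29) (.e (nat_lit 450586) (nat_lit 10) (.e (nat_lit 573454) (nat_lit 9) .nil)))))) (.g (nat_lit 5) .nil .nil))))))) (.nd (nat_lit 2) (.nd (nat_lit 3) (.nd (nat_lit 4) (.nd (nat_lit 5) 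
(.lf (nat_lit 49026) (.g (nat_lit 4052) (.e (nat_lit 1312) (nat_lit 98) (.e (nat_lit 147494) (nat_lit 11) (.e (nat_lit 24617) (nat_lit 7) (.e (nat_lit 319533) (nat_lit 16) (.e (nat_lit 286753) (nat_lit 10) (.e (nat_lit 344160) (nat_lit 37) (.e (nat_lit 647190) (nat_lit 9) .nil))))))) (.g (nat_lit 0) .nil .nil))) 
(.lf (nat_lit 49058) (.g (nat_lit 602) (.e (nat_lit 1315) (nat_lit 98) (.e (nat_lit 147466) (nat_lit 9) (.e (nat_lit 352) (nat_lit 28) .nil))) .nil))) (.nd (nat_lit 5) 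
(.lf (nat_lit 49042) (.g (nat_lit 1116) (.e (nat_lit 1312) (nat_lit 98) (.e (nat_lit 147496) (nat_lit 11) (.e (nat_lit 24617) (nat_lit 7) (.e (nat_lit 319533) (nat_lit 16) .nil)))) .nil)) 
(.lf (nat_lit 49074) (.g (nat_lit 3672) (.e (nat_lit 1315) (nat_lit 98) (.e (nat_lit 147495) (nat_lit 11) (.e (nat_lit 24604) (nat_lit 2) (.e (nat_lit 90176) (nat_lit 15) (.e (nat_lit 188440) (nat_lit 20) (.e (nat_lit 3307) (nat_lit 202) (.e (nat_lit 573454) (nat_lit 9) .nil))))))) (.g (nat_lit 5) .nil .nil))))) (.nd (nat_lit 4) (.nd (nat_lit 5) 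
(.lf (nat_lit 49034) (.g (nat_lit 846) (.e (nat_lit 1312) (nat_lit 98) (.e (nat_lit 147494) (nat_lit 11) (.e (nat_lit 24679) (nat_lit 27) (.e (nat_lit 433920) (nat_lit 29) .nil)))) .nil)) 
(.lf (nat_lit 49066) (.g (nat_lit 3690) (.e (nat_lit 1315) (nat_lit 98) (.e (nat_lit 147495) (nat_lit 11) (.e (nat_lit 24601) (nat_lit 2) (.e (nat_lit 90170) (nat_lit 13) (.e (nat_lit 172106) (nat_lit 10) (.e (nat_lit 434244) (nat_lit 28) (.e (nat_lit 573448) (nat_lit 9) .nil))))))) (.g (nat_lit 5) .nil .nil)))) (.nd (nat_lit 5) 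
(.lf (nat_lit 49050) (.g (nat_lit 3082) (.e (nat_lit 1314) (nat_lit 98) (.e (nat_lit 147496) (nat_lit 11) (.e (nat_lit 24617) (nat_lit 7) (.e (nat_lit 319533) (nat_lit 16) (.e (nat_lit 286753) (nat_lit 10) .nil))))) .nil)) 
(.lf (nat_lit 49082) (.g (nat_lit 2586) (.e (nat_lit 1315) (nat_lit 98) (.e (nat_lit 147495) (nat_lit 11) (.e (nat_lit 24607) (nat_lit 3) (.e (nat_lit 98372) (nat_lit 29) (.e (nat_lit 450586) (nat_lit 10) (.e (nat_lit 573454) (nat_lit 9) .nil)))))) (.g (nat_lit 4) .nil .nil)))))) (.nd (nat_lit 3) (.nd (nat_lit 4) (.nd (nat_lit 5) 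
(.lf (nat_lit 49030) (.g (nat_lit 3086) (.e (nat_lit 1312) (nat_lit 98) (.e (nat_lit 147494) (nat_lit 11) (.e (nat_lit 24665) (nat_lit 14) (.e (nat_lit 401444) (nat_lit 9) (.e (nat_lit 426445) (nat_lit 20) (.e (nat_lit 114723) (nat_lit 24) (.e (nat_lit 106512) (nat_lit 9) .nil))))))) (.g (nat_lit 6) .nil .nil))) 
(.lf (nat_lit 49062) (.g (nat_lit 2256) (.e (nat_lit 1315) (nat_lit 98) (.e (nat_lit 147495) (nat_lit 11) (.e (nat_lit 24586) (nat_lit 0) (.e (nat_lit 1812) (nat_lit 120) (.e (nat_lit 524322) (nat_lit 12) (.e (nat_lit 450587) (nat_lit 10) (.e (nat_lit 573454) (nat_lit 9) .nil))))))) (.g (nat_lit 4) .nil .nil)))) (.nd (nat_lit 5) 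
(.lf (nat_lit 49046) (.g (nat_lit 2369) (.e (nat_lit 1313) (nat_lit 98) (.e (nat_lit 147495) (nat_lit 11) (.e (nat_lit 24617) (nat_lit 7) (.e (nat_lit 319533) (nat_lit 16) (.e (nat_lit 286753) (nat_lit 10) .nil))))) .nil)) 
(.lf (nat_lit 49078) (.g (nat_lit 3267) (.e (nat_lit 1315) (nat_lit 98) (.e (nat_lit 147495) (nat_lit 11) (.e (nat_lit 24604) (nat_lit 2) (.e (nat_lit 90185) (nat_lit 17) (.e (nat_lit 237605) (nat_lit 9) (.e (nat_lit 425986) (nat_lit 0) (.e (nat_lit 3301) (nat_lit 202) (.e (nat_lit 573454) (nat_lit 9) .nil)))))))) (.g (nat_lit 5) .nil .nil))))) (.nd (nat_lit 4) (.nd (nat_lit 5) 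
(.lf (nat_lit 49038) (.g (nat_lit 2058) (.e (nat_lit 1312) (nat_lit 98) (.e (nat_lit 147495) (nat_lit 11) (.e (nat_lit 24605) (nat_lit 2) (.e (nat_lit 90170) (nat_lit 13) (.e (nat_lit 172113) (nat_lit 10) (.e (nat_lit 434245) (nat_lit 28) (.e (nat_lit 573449) (nat_lit 9) .nil))))))) (.g (nat_lit 4) .nil .nil))) 
(.lf (nat_lit 49070) (.g (nat_lit 3159) (.e (nat_lit 1315) (nat_lit 98) (.e (nat_lit 147495) (nat_lit 11) (.e (nat_lit 24601) (nat_lit 2) (.e (nat_lit 90178) (nat_lit 15) (.e (nat_lit 188440) (nat_lit 20) (.e (nat_lit 3307) (nat_lit 202) (.e (nat_lit 573454) (nat_lit 9) .nil))))))) (.g (nat_lit 5) .nil .nil)))) (.nd (nat_lit 5) 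
(.lf (nat_lit 49054) (.g (nat_lit 2417) (.e (nat_lit 1315) (nat_lit 98) (.e (nat_lit 147466) (nat_lit 9) (.e (nat_lit 232) (nat_lit 21) (.e (nat_lit 336060) (nat_lit 7) (.e (nat_lit 319533) (nat_lit 16) (.e (nat_lit 286753) (nat_lit 10) (.e (nat_lit 344160) (nat_lit 37) (.e (nat_lit 647189) (nat_lit 9) .nil)))))))) (.g (nat_lit 4) .nil .nil))) 
(.lf (nat_lit 49086) (.g (nat_lit 5061) (.e (nat_lit 1315) (nat_lit 98) (.e (nat_lit 147495) (nat_lit 11) (.e (nat_lit 24608) (nat_lit 3) (.e (nat_lit 98373) (nat_lit 29) (.e (nat_lit 450588) (nat_lit 10) (.e (nat_lit 573454) (nat_lit 9) .nil)))))) (.g (nat_lit 5) .nil .nil)))))))) (.nd (nat_lit 1) (.nd (nat_lit 2) (.nd (nat_lit 3) (.nd (nat_lit 4) (.nd (nat_lit 5) 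
(.lf (nat_lit 49025) (.g (nat_lit 845) (.e (nat_lit 1312) (nat_lit 98) (.e (nat_lit 147494) (nat_lit 11) (.e (nat_lit 24617) (nat_lit 7) (.e (nat_lit 319533) (nat_lit 16) .nil)))) .nil)) 
(.lf (nat_lit 49057) (.g (nat_lit 602) (.e (nat_lit 1315) (nat_lit 98) (.e (nat_lit 147466) (nat_lit 9) (.e (nat_lit 348) (nat_lit 28) .nil))) .nil))) (.nd (nat_lit 5) 
(.lf (nat_lit 49041) (.g (nat_lit 2158) (.e (nat_lit 1312) (nat_lit 98) (.e (nat_lit 147495) (nat_lit 11) (.e (nat_lit 24617) (nat_lit 7) (.e (nat_lit 319533) (nat_lit 16) (.e (nat_lit 286753) (nat_lit 10) .nil))))) .nil)) 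
(.lf (nat_lit 49073) (.g (nat_lit 2732) (.e (nat_lit 1315) (nat_lit 98) (.e (nat_lit 147495) (nat_lit 11) (.e (nat_lit 24604) (nat_lit 2) (.e (nat_lit 90176) (nat_lit 15) (.e (nat_lit 188439) (nat_lit 20) (.e (nat_lit 3296) (nat_lit 202) (.e (nat_lit 573454) (nat_lit 9) .nil))))))) (.g (nat_lit 4) .nil .nil))))) (.nd (nat_lit 4) (.nd (nat_lit 5) 
(.lf (nat_lit 49033) (.g (nat_lit 3187) (.e (nat_lit 1312) (nat_lit 98) (.e (nat_lit 147494) (nat_lit 11) (.e (nat_lit 24665) (nat_lit 14) (.e (nat_lit 401444) (nat_lit 9) (.e (nat_lit 426447) (nat_lit 20) (.e (nat_lit 114721) (nat_lit 24) (.e (nat_lit 106513) (nat_lit 9) .nil))))))) (.g (nat_lit 0) .nil .nil))) 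
(.lf (nat_lit 49065) (.g (nat_lit 849) (.e (nat_lit 1315) (nat_lit 98) (.e (nat_lit 147495) (nat_lit 11) (.e (nat_lit 24591) (nat_lit 0) .nil))) .nil))) (.nd (nat_lit 5) 
(.lf (nat_lit 49049) (.g (nat_lit 1886) (.e (nat_lit 1314) (nat_lit 98) (.e (nat_lit 147466) (nat_lit 9) (.e (nat_lit 232) (nat_lit 21) (.e (nat_lit 336013) (nat_lit 2) (.e (nat_lit 90170) (nat_lit 13) .nil))))) .nil)) 
(.lf (nat_lit 49081) (.g (nat_lit 731) (.e (nat_lit 1315) (nat_lit 98) (.e (nat_lit 147495) (nat_lit 11) (.e (nat_lit 24607) (nat_lit 3) .nil))) .nil))))) (.nd (nat_lit 3) (.nd (nat_lit 4) (.nd (nat_lit 5) 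
(.lf (nat_lit 49029) (.g (nat_lit 2518) (.e (nat_lit 1312) (nat_lit 98) (.e (nat_lit 147494) (nat_lit 11) (.e (nat_lit 24665) (nat_lit 14) (.e (nat_lit 401444) (nat_lit 9) (.e (nat_lit 426445) (nat_lit 20) (.e (nat_lit 114722) (nat_lit 24) (.e (nat_lit 106513) (nat_lit 9) .nil))))))) (.g (nat_lit 4) .nil .nil))) 
(.lf (nat_lit 49061) (.g (nat_lit 849) (.e (nat_lit 1315) (nat_lit 98) (.e (nat_lit 147495) (nat_lit 11) (.e (nat_lit 24581) (nat_lit 0) .nil))) .nil))) (.nd (nat_lit 5) 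
(.lf (nat_lit 49045) (.g (nat_lit 2096) (.e (nat_lit 1313) (nat_lit 98) (.e (nat_lit 147466) (nat_lit 9) (.e (nat_lit 232) (nat_lit 21) (.e (nat_lit 336060) (nat_lit 7) (.e (nat_lit 319533) (nat_lit 16) .nil))))) .nil)) 
(.lf (nat_lit 49077) (.g (nat_lit 1615) (.e (nat_lit 1315) (nat_lit 98) (.e (nat_lit 147495) (nat_lit 11) (.e (nat_lit 24604) (nat_lit 2) (.e (nat_lit 90185) (nat_lit 17) .nil)))) .nil)))) (.nd (nat_lit 4) (.nd (nat_lit 5) 
(.lf (nat_lit 49037) (.g (nat_lit 2143) (.e (nat_lit 1312) (nat_lit 98) (.e (nat_lit 147495) (nat_lit 11) (.e (nat_lit 24604) (nat_lit 2) (.e (nat_lit 90185) (nat_lit 17) (.e (nat_lit 237605) (nat_lit 9) .nil))))) .nil)) 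
(.lf (nat_lit 49069) (.g (nat_lit 3158) (.e (nat_lit 1315) (nat_lit 98) (.e (nat_lit 147495) (nat_lit 11) (.e (nat_lit 24601) (nat_lit 2) (.e (nat_lit 90176) (nat_lit 15) (.e (nat_lit 188440) (nat_lit 20) (.e (nat_lit 3307) (nat_lit 202) (.e (nat_lit 573454) (nat_lit 9) .nil))))))) (.g (nat_lit 5) .nil .nil)))) (.nd (nat_lit 5) 
(.lf (nat_lit 49053) (.g (nat_lit 3602) (.e (nat_lit 1315) (nat_lit 98) (.e (nat_lit 147466) (nat_lit 9) (.e (nat_lit 232) (nat_lit 21) (.e (nat_lit 336060) (nat_lit 7) (.e (nat_lit 319533) (nat_lit 16) (.e (nat_lit 286753) (nat_lit 10) (.e (nat_lit 344160) (nat_lit 37) (.e (nat_lit 647188) (nat_lit 9) .nil)))))))) (.g (nat_lit 6) .nil .nil))) 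
(.lf (nat_lit 49085) (.g (nat_lit 3596) (.e (nat_lit 1315) (nat_lit 98) (.e (nat_lit 147495) (nat_lit 11) (.e (nat_lit 24608) (nat_lit 3) (.e (nat_lit 98372) (nat_lit 29) (.e (nat_lit 450587) (nat_lit 10) (.e (nat_lit 573454) (nat_lit 9) .nil)))))) (.g (nat_lit 4) .nil .nil))))))) (.nd (nat_lit 2) (.nd (nat_lit 3) (.nd (nat_lit 4) (.nd (nat_lit 5) 
(.lf (nat_lit 49027) (.g (nat_lit 3829) (.e (nat_lit 1312) (nat_lit 98) (.e (nat_lit 147494) (nat_lit 11) (.e (nat_lit 24617) (nat_lit 7) (.e (nat_lit 319534) (nat_lit 16) (.e (nat_lit 286756) (nat_lit 10) (.e (nat_lit 344160) (nat_lit 37) (.e (nat_lit 647190) (nat_lit 9) .nil))))))) (.g (nat_lit 0) .nil .nil))) 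
(.lf (nat_lit 49059) (.g (nat_lit 3473) (.e (nat_lit 1315) (nat_lit 98) (.e (nat_lit 147467) (nat_lit 9) (.e (nat_lit 232) (nat_lit 21) (.e (nat_lit 336060) (nat_lit 7) (.e (nat_lit 319534) (nat_lit 16) (.e (nat_lit 286756) (nat_lit 10) (.e (nat_lit 344160) (nat_lit 37) (.e (nat_lit 647189) (nat_lit 9) .nil)))))))) (.g (nat_lit 6) .nil .nil)))) (.nd (nat_lit 5) 
(.lf (nat_lit 49043) (.g (nat_lit 1749) (.e (nat_lit 1312) (nat_lit 98) (.e (nat_lit 147496) (nat_lit 11) (.e (nat_lit 24617) (nat_lit 7) (.e (nat_lit 319534) (nat_lit 16) (.e (nat_lit 286756) (nat_lit 10) .nil))))) .nil)) 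
(.lf (nat_lit 49075) (.g (nat_lit 3325) (.e (nat_lit 1315) (nat_lit 98) (.e (nat_lit 147495) (nat_lit 11) (.e (nat_lit 24604) (nat_lit 2) (.e (nat_lit 90178) (nat_lit 15) (.e (nat_lit 188440) (nat_lit 20) (.e (nat_lit 3295) (nat_lit 202) (.e (nat_lit 573454) (nat_lit 9) .nil))))))) (.g (nat_lit 4) .nil .nil))))) (.nd (nat_lit 4) (.nd (nat_lit 5) 
(.lf (nat_lit 49035) (.g (nat_lit 1432) (.e (nat_lit 1312) (nat_lit 98) (.e (nat_lit 147495) (nat_lit 11) (.e (nat_lit 24604) (nat_lit 2) (.e (nat_lit 90176) (nat_lit 15) .nil)))) .nil)) 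
(.lf (nat_lit 49067) (.g (nat_lit 3063) (.e (nat_lit 1315) (nat_lit 98) (.e (nat_lit 147495) (nat_lit 11) (.e (nat_lit 24601) (nat_lit 2) (.e (nat_lit 90170) (nat_lit 13) (.e (nat_lit 172113) (nat_lit 10) (.e (nat_lit 434245) (nat_lit 28) (.e (nat_lit 573454) (nat_lit 9) .nil))))))) (.g (nat_lit 4) .nil .nil)))) (.nd (nat_lit 5) 
(.lf (nat_lit 49051) (.g (nat_lit 2886) (.e (nat_lit 1314) (nat_lit 98) (.e (nat_lit 147496) (nat_lit 11) (.e (nat_lit 24617) (nat_lit 7) (.e (nat_lit 319534) (nat_lit 16) (.e (nat_lit 286756) (nat_lit 10) (.e (nat_lit 344160) (nat_lit 37) (.e (nat_lit 647188) (nat_lit 9) .nil))))))) (.g (nat_lit 4) .nil .nil))) 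
(.lf (nat_lit 49083) (.g (nat_lit 4766) (.e (nat_lit 1315) (nat_lit 98) (.e (nat_lit 147495) (nat_lit 11) (.e (nat_lit 24607) (nat_lit 3) (.e (nat_lit 98373) (nat_lit 29) (.e (nat_lit 450587) (nat_lit 10) (.e (nat_lit 573454) (nat_lit 9) .nil)))))) (.g (nat_lit 5) .nil .nil)))))) (.nd (nat_lit 3) (.nd (nat_lit 4) (.nd (nat_lit 5) 
(.lf (nat_lit 49031) (.g (nat_lit 2466) (.e (nat_lit 1312) (nat_lit 98) (.e (nat_lit 147494) (nat_lit 11) (.e (nat_lit 24665) (nat_lit 14) (.e (nat_lit 401444) (nat_lit 9) (.e (nat_lit 426447) (nat_lit 20) .nil))))) .nil)) 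
(.lf (nat_lit 49063) (.g (nat_lit 849) (.e (nat_lit 1315) (nat_lit 98) (.e (nat_lit 147495) (nat_lit 11) (.e (nat_lit 24588) (nat_lit 0) .nil))) .nil))) (.nd (nat_lit 5) 
(.lf (nat_lit 49047) (.g (nat_lit 1779) (.e (nat_lit 1313) (nat_lit 98) (.e (nat_lit 147496) (nat_lit 11) (.e (nat_lit 24616) (nat_lit 7) (.e (nat_lit 319533) (nat_lit 16) (.e (nat_lit 286753) (nat_lit 10) .nil))))) .nil)) 
(.lf (nat_lit 49079) (.g (nat_lit 762) (.e (nat_lit 1315) (nat_lit 98) (.e (nat_lit 147495) (nat_lit 11) (.e (nat_lit 24605) (nat_lit 2) .nil))) .nil)))) (.nd (nat_lit 4) (.nd (nat_lit 5) 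
(.lf (nat_lit 49039) (.g (nat_lit 2803) (.e (nat_lit 1312) (nat_lit 98) (.e (nat_lit 147495) (nat_lit 11) (.e (nat_lit 24608) (nat_lit 3) (.e (nat_lit 98372) (nat_lit 29) (.e (nat_lit 450586) (nat_lit 10) .nil))))) .nil)) 
(.lf (nat_lit 49071) (.g (nat_lit 5441) (.e (nat_lit 1315) (nat_lit 98) (.e (nat_lit 147495) (nat_lit 11) (.e (nat_lit 24604) (nat_lit 2) (.e (nat_lit 90170) (nat_lit 13) (.e (nat_lit 172106) (nat_lit 10) (.e (nat_lit 434244) (nat_lit 28) (.e (nat_lit 573454) (nat_lit 9) .nil))))))) (.g (nat_lit 7) .nil .nil)))) (.nd (nat_lit 5) 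
(.lf (nat_lit 49055) (.g (nat_lit 3620) (.e (nat_lit 1315) (nat_lit 98) (.e (nat_lit 147466) (nat_lit 9) (.e (nat_lit 232) (nat_lit 21) (.e (nat_lit 336060) (nat_lit 7) (.e (nat_lit 319534) (nat_lit 16) (.e (nat_lit 286756) (nat_lit 10) (.e (nat_lit 344160) (nat_lit 37) (.e (nat_lit 647189) (nat_lit 9) .nil)))))))) (.g (nat_lit 6) .nil .nil))) 
(.lf (nat_lit 49087) (.g (nat_lit 4731) (.e (nat_lit 1315) (nat_lit 98) (.e (nat_lit 147495) (nat_lit 11) (.e (nat_lit 24608) (nat_lit 3) (.e (nat_lit 98381) (nat_lit 31) (.e (nat_lit 466967) (nat_lit 20) (.e (nat_lit 3305) (nat_lit 202) (.e (nat_lit 573454) (nat_lit 9) .nil))))))) (.g (nat_lit 0) .nil .nil)))))))))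

noncomputable def tv682 : DT := (.nd (nat_lit 0) (.nd (nat_lit 1) (.nd (nat_lit 2) (.nd (nat_lit 3) (.nd (nat_lit 4) (.nd (nat_lit 5) 
(.lf (nat_lit 49088) (.g (nat_lit 4063) (.e (nat_lit 1315) (nat_lit 98) (.e (nat_lit 147495) (nat_lit 11) (.e (nat_lit 24617) (nat_lit 7) (.e (nat_lit 319533) (nat_lit 16) (.e (nat_lit 286753) (nat_lit 10) (.e (nat_lit 344160) (nat_lit 37) (.e (nat_lit 647188) (nat_lit 9) .nil))))))) (.g (nat_lit 6) .nil .nil))) 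
(.lf (nat_lit 49120) (.g (nat_lit 2753) (.e (nat_lit 1320) (nat_lit 99) (.e (nat_lit 155669) (nat_lit 11) (.e (nat_lit 16425) (nat_lit 7) (.e (nat_lit 409648) (nat_lit 18) (.e (nat_lit 303137) (nat_lit 10) (.e (nat_lit 434271) (nat_lit 38) (.e (nat_lit 655387) (nat_lit 9) .nil))))))) (.g (nat_lit 0) .nil .nil)))) (.nd (nat_lit 5) 
(.lf (nat_lit 49104) (.g (nat_lit 5653) (.e (nat_lit 1315) (nat_lit 98) (.e (nat_lit 147496) (nat_lit 11) (.e (nat_lit 24604) (nat_lit 2) (.e (nat_lit 90178) (nat_lit 15) (.e (nat_lit 188440) (nat_lit 20) (.e (nat_lit 3307) (nat_lit 202) (.e (nat_lit 573454) (nat_lit 9) .nil))))))) (.g (nat_lit 0) .nil .nil))) 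
(.lf (nat_lit 49136) (.g (nat_lit 1145) (.e (nat_lit 1340) (nat_lit 101) (.e (nat_lit 278529) (nat_lit 0) (.e (nat_lit 5779) (nat_lit 317) (.e (nat_lit 180259) (nat_lit 17) (.e (nat_lit 630822) (nat_lit 17) (.e (nat_lit 73789) (nat_lit 45) .nil)))))) (.g (nat_lit 0) .nil .nil))))) (.nd (nat_lit 4) (.nd (nat_lit 5) 
(.lf (nat_lit 49096) (.g (nat_lit 2040) (.e (nat_lit 1315) (nat_lit 98) (.e (nat_lit 147496) (nat_lit 11) (.e (nat_lit 24601) (nat_lit 2) (.e (nat_lit 90170) (nat_lit 13) (.e (nat_lit 172113) (nat_lit 10) .nil))))) .nil)) 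
(.lf (nat_lit 49128) (.g (nat_lit 1912) (.e (nat_lit 1328) (nat_lit 100) (.e (nat_lit 270354) (nat_lit 8) (.e (nat_lit 303119) (nat_lit 3) (.e (nat_lit 204868) (nat_lit 29) (.e (nat_lit 368384) (nat_lit 1) .nil))))) .nil))) (.nd (nat_lit 5) 
(.lf (nat_lit 49112) (.g (nat_lit 4046) (.e (nat_lit 1315) (nat_lit 98) (.e (nat_lit 147496) (nat_lit 11) (.e (nat_lit 24617) (nat_lit 7) (.e (nat_lit 319533) (nat_lit 16) (.e (nat_lit 286753) (nat_lit 10) (.e (nat_lit 344160) (nat_lit 37) (.e (nat_lit 647188) (nat_lit 9) .nil))))))) (.g (nat_lit 0) .nil .nil))) 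
(.lf (nat_lit 49144) (.g (nat_lit 3396) (.e (nat_lit 1341) (nat_lit 101) (.e (nat_lit 278531) (nat_lit 0) (.e (nat_lit 5762) (nat_lit 315) (.e (nat_lit 163962) (nat_lit 25) (.e (nat_lit 532535) (nat_lit 9) (.e (nat_lit 336099) (nat_lit 9) (.e (nat_lit 336013) (nat_lit 2) (.e (nat_lit 98048) (nat_lit 18) .nil)))))))) (.g (nat_lit 7) .nil .nil)))))) 
(.nd (nat_lit 3) (.nd (nat_lit 4) (.nd (nat_lit 5) 
(.lf (nat_lit 49092) (.g (nat_lit 3278) (.e (nat_lit 1315) (nat_lit 98) (.e (nat_lit 147495) (nat_lit 11) (.e (nat_lit 24665) (nat_lit 14) (.e (nat_lit 401444) (nat_lit 9) (.e (nat_lit 426445) (nat_lit 20) .nil))))) .nil)) 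
(.lf (nat_lit 49124) (.g (nat_lit 2800) (.e (nat_lit 1328) (nat_lit 100) (.e (nat_lit 270354) (nat_lit 8) (.e (nat_lit 303118) (nat_lit 3) (.e (nat_lit 204855) (nat_lit 26) (.e (nat_lit 336099) (nat_lit 9) (.e (nat_lit 336013) (nat_lit 2) (.e (nat_lit 98048) (nat_lit 18) .nil))))))) (.g (nat_lit 6) .nil .nil)))) (.nd (nat_lit 5) 
(.lf (nat_lit 49108) (.g (nat_lit 538) (.e (nat_lit 1315) (nat_lit 98) (.e (nat_lit 147496) (nat_lit 11) (.e (nat_lit 24608) (nat_lit 3) .nil))) .nil)) 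
(.lf (nat_lit 49140) (.g (nat_lit 627) (.e (nat_lit 1340) (nat_lit 101) (.e (nat_lit 278546) (nat_lit 8) (.e (nat_lit 303138) (nat_lit 10) (.e (nat_lit 434269) (nat_lit 36) (.e (nat_lit 639022) (nat_lit 17) .nil))))) .nil)))) (.nd (nat_lit 4) (.nd (nat_lit 5) 
(.lf (nat_lit 49100) (.g (nat_lit 2281) (.e (nat_lit 1315) (nat_lit 98) (.e (nat_lit 147496) (nat_lit 11) (.e (nat_lit 24604) (nat_lit 2) (.e (nat_lit 90176) (nat_lit 15) (.e (nat_lit 188424) (nat_lit 20) .nil))))) .nil)) 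
(.lf (nat_lit 49132) (.g (nat_lit 2273) (.e (nat_lit 1329) (nat_lit 100) (.e (nat_lit 270373) (nat_lit 16) (.e (nat_lit 286761) (nat_lit 13) (.e (nat_lit 393293) (nat_lit 26) (.e (nat_lit 475201) (nat_lit 40) (.e (nat_lit 704780) (nat_lit 14) .nil)))))) (.g (nat_lit 5) .nil .nil)))) (.nd (nat_lit 5) 
(.lf (nat_lit 49116) (.g (nat_lit 713) (.e (nat_lit 1316) (nat_lit 98) (.e (nat_lit 147495) (nat_lit 11) (.e (nat_lit 24660) (nat_lit 13) .nil))) .nil)) 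
(.lf (nat_lit 49148) (.g (nat_lit 1763) (.e (nat_lit 1341) (nat_lit 101) (.e (nat_lit 278546) (nat_lit 8) (.e (nat_lit 303145) (nat_lit 13) (.e (nat_lit 483395) (nat_lit 24) (.e (nat_lit 344160) (nat_lit 37) .nil))))) .nil)))))) (.nd (nat_lit 2) (.nd (nat_lit 3) (.nd (nat_lit 4) (.nd (nat_lit 5) 
(.lf (nat_lit 49090) (.g (nat_lit 3440) (.e (nat_lit 1315) (nat_lit 98) (.e (nat_lit 147495) (nat_lit 11) (.e (nat_lit 24617) (nat_lit 7) (.e (nat_lit 319534) (nat_lit 16) (.e (nat_lit 286756) (nat_lit 10) (.e (nat_lit 344160) (nat_lit 37) (.e (nat_lit 647188) (nat_lit 9) .nil))))))) (.g (nat_lit 5) .nil .nil))) 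
(.lf (nat_lit 49122) (.g (nat_lit 1531) (.e (nat_lit 1320) (nat_lit 99) (.e (nat_lit 155669) (nat_lit 11) (.e (nat_lit 16435) (nat_lit 9) (.e (nat_lit 426544) (nat_lit 30) (.e (nat_lit 360479) (nat_lit 13) (.e (nat_lit 630809) (nat_lit 13) .nil)))))) (.g (nat_lit 6) .nil .nil)))) (.nd (nat_lit 5) 
(.lf (nat_lit 49106) (.g (nat_lit 1258) (.e (nat_lit 1315) (nat_lit 98) (.e (nat_lit 147496) (nat_lit 11) (.e (nat_lit 24604) (nat_lit 2) (.e (nat_lit 90185) (nat_lit 17) .nil)))) .nil)) 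
(.lf (nat_lit 49138) (.g (nat_lit 1542) (.e (nat_lit 1340) (nat_lit 101) (.e (nat_lit 278546) (nat_lit 8) (.e (nat_lit 303132) (nat_lit 9) (.e (nat_lit 426109) (nat_lit 1) (.e (nat_lit 164297) (nat_lit 226) .nil))))) .nil)))) (.nd (nat_lit 4) (.nd (nat_lit 5) 
(.lf (nat_lit 49098) (.g (nat_lit 2079) (.e (nat_lit 1315) (nat_lit 98) (.e (nat_lit 147496) (nat_lit 11) (.e (nat_lit 24603) (nat_lit 2) (.e (nat_lit 90178) (nat_lit 15) (.e (nat_lit 188442) (nat_lit 20) (.e (nat_lit 3304) (nat_lit 202) (.e (nat_lit 573454) (nat_lit 9) .nil))))))) (.g (nat_lit 4) .nil .nil))) 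
(.lf (nat_lit 49130) (.g (nat_lit 1808) (.e (nat_lit 1329) (nat_lit 100) (.e (nat_lit 270373) (nat_lit 16) (.e (nat_lit 286761) (nat_lit 13) (.e (nat_lit 393293) (nat_lit 26) (.e (nat_lit 475196) (nat_lit 40) .nil))))) .nil))) (.nd (nat_lit 5) 
(.lf (nat_lit 49114) (.g (nat_lit 3524) (.e (nat_lit 1315) (nat_lit 98) (.e (nat_lit 147496) (nat_lit 11) (.e (nat_lit 24617) (nat_lit 7) (.e (nat_lit 319534) (nat_lit 16) (.e (nat_lit 286756) (nat_lit 10) (.e (nat_lit 344160) (nat_lit 37) (.e (nat_lit 647188) (nat_lit 9) .nil))))))) (.g (nat_lit 6) .nil .nil))) 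
(.lf (nat_lit 49146) (.g (nat_lit 3455) (.e (nat_lit 1341) (nat_lit 101) (.e (nat_lit 278532) (nat_lit 0) (.e (nat_lit 5762) (nat_lit 315) (.e (nat_lit 163962) (nat_lit 25) (.e (nat_lit 532535) (nat_lit 9) (.e (nat_lit 336099) (nat_lit 9) (.e (nat_lit 336013) (nat_lit 2) (.e (nat_lit 98048) (nat_lit 18) .nil)))))))) (.g (nat_lit 7) .nil .nil)))))) 
(.nd (nat_lit 3) (.nd (nat_lit 4) (.nd (nat_lit 5) 
(.lf (nat_lit 49094) (.g (nat_lit 3470) (.e (nat_lit 1315) (nat_lit 98) (.e (nat_lit 147495) (nat_lit 11) (.e (nat_lit 24665) (nat_lit 14) (.e (nat_lit 401444) (nat_lit 9) (.e (nat_lit 426447) (nat_lit 20) (.e (nat_lit 114721) (nat_lit 24) (.e (nat_lit 106511) (nat_lit 9) .nil))))))) (.g (nat_lit 4) .nil .nil))) 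
(.lf (nat_lit 49126) (.g (nat_lit 1293) (.e (nat_lit 1328) (nat_lit 100) (.e (nat_lit 270354) (nat_lit 8) (.e (nat_lit 303119) (nat_lit 3) (.e (nat_lit 212736) (nat_lit 26) .nil)))) .nil))) (.nd (nat_lit 5) 
(.lf (nat_lit 49110) (.g (nat_lit 4422) (.e (nat_lit 1315) (nat_lit 98) (.e (nat_lit 147496) (nat_lit 11) (.e (nat_lit 24608) (nat_lit 3) (.e (nat_lit 98381) (nat_lit 31) (.e (nat_lit 466967) (nat_lit 20) (.e (nat_lit 3305) (nat_lit 202) (.e (nat_lit 573454) (nat_lit 9) .nil))))))) (.g (nat_lit 0) .nil .nil))) 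
(.lf (nat_lit 49142) (.g (nat_lit 2001) (.e (nat_lit 1340) (nat_lit 101) (.e (nat_lit 278546) (nat_lit 8) (.e (nat_lit 303143) (nat_lit 12) (.e (nat_lit 475193) (nat_lit 38) (.e (nat_lit 688180) (nat_lit 17) (.e (nat_lit 73789) (nat_lit 45) .nil)))))) (.g (nat_lit 6) .nil .nil))))) (.nd (nat_lit 4) (.nd (nat_lit 5) 
(.lf (nat_lit 49102) (.g (nat_lit 2269) (.e (nat_lit 1315) (nat_lit 98) (.e (nat_lit 147496) (nat_lit 11) (.e (nat_lit 24604) (nat_lit 2) (.e (nat_lit 90176) (nat_lit 15) (.e (nat_lit 188442) (nat_lit 20) .nil))))) .nil)) 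
(.lf (nat_lit 49134) (.g (nat_lit 3637) (.e (nat_lit 1340) (nat_lit 101) (.e (nat_lit 278529) (nat_lit 0) (.e (nat_lit 5762) (nat_lit 315) (.e (nat_lit 163962) (nat_lit 25) (.e (nat_lit 532535) (nat_lit 9) (.e (nat_lit 336099) (nat_lit 9) (.e (nat_lit 336013) (nat_lit 2) (.e (nat_lit 98048) (nat_lit 18) .nil)))))))) (.g (nat_lit 7) .nil .nil)))) (.nd (nat_lit 5) 
(.lf (nat_lit 49118) (.g (nat_lit 2773) (.e (nat_lit 1316) (nat_lit 98) (.e (nat_lit 147496) (nat_lit 11) (.e (nat_lit 24617) (nat_lit 7) (.e (nat_lit 319534) (nat_lit 16) (.e (nat_lit 286756) (nat_lit 10) .nil))))) .nil)) 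
(.lf (nat_lit 49150) (.g (nat_lit 565) (.e (nat_lit 1342) (nat_lit 101) (.e (nat_lit 278529) (nat_lit 0) (.e (nat_lit 5779) (nat_lit 317) (.e (nat_lit 180259) (nat_lit 17) (.e (nat_lit 630822) (nat_lit 17) (.e (nat_lit 73788) (nat_lit 45) .nil)))))) (.g (nat_lit 4) .nil .nil)))))))) (.nd (nat_lit 1) (.nd (nat_lit 2) (.nd (nat_lit 3) (.nd (nat_lit 4) (.nd (nat_lit 5) 
(.lf (nat_lit 49089) (.g (nat_lit 2665) (.e (nat_lit 1315) (nat_lit 98) (.e (nat_lit 147495) (nat_lit 11) (.e (nat_lit 24617) (nat_lit 7) (.e (nat_lit 319533) (nat_lit 16) (.e (nat_lit 286753) (nat_lit 10) (.e (nat_lit 344160) (nat_lit 37) (.e (nat_lit 647189) (nat_lit 9) .nil))))))) (.g (nat_lit 4) .nil .nil))) 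
(.lf (nat_lit 49121) (.g (nat_lit 2900) (.e (nat_lit 1320) (nat_lit 99) (.e (nat_lit 155669) (nat_lit 11) (.e (nat_lit 16425) (nat_lit 7) (.e (nat_lit 409649) (nat_lit 18) (.e (nat_lit 303140) (nat_lit 10) (.e (nat_lit 434271) (nat_lit 38) (.e (nat_lit 655387) (nat_lit 9) .nil))))))) (.g (nat_lit 7) .nil .nil)))) (.nd (nat_lit 5) 
(.lf (nat_lit 49105) (.g (nat_lit 4151) (.e (nat_lit 1315) (nat_lit 98) (.e (nat_lit 147496) (nat_lit 11) (.e (nat_lit 24604) (nat_lit 2) (.e (nat_lit 90178) (nat_lit 15) (.e (nat_lit 188441) (nat_lit 20) (.e (nat_lit 3304) (nat_lit 202) (.e (nat_lit 573454) (nat_lit 9) .nil))))))) (.g (nat_lit 6) .nil .nil))) 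
(.lf (nat_lit 49137) (.g (nat_lit 1482) (.e (nat_lit 1340) (nat_lit 101) (.e (nat_lit 278531) (nat_lit 0) (.e (nat_lit 5776) (nat_lit 317) (.e (nat_lit 180229) (nat_lit 0) (.e (nat_lit 5069) (nat_lit 292) (.e (nat_lit 7936) (nat_lit 89) (.e (nat_lit 73789) (nat_lit 45) .nil))))))) (.g (nat_lit 4) .nil .nil))))) (.nd (nat_lit 4) (.nd (nat_lit 5) 
(.lf (nat_lit 49097) (.g (nat_lit 3829) (.e (nat_lit 1315) (nat_lit 98) (.e (nat_lit 147496) (nat_lit 11) (.e (nat_lit 24603) (nat_lit 2) (.e (nat_lit 90176) (nat_lit 15) (.e (nat_lit 188439) (nat_lit 20) (.e (nat_lit 3304) (nat_lit 202) (.e (nat_lit 573454) (nat_lit 9) .nil))))))) (.g (nat_lit 0) .nil .nil))) 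
(.lf (nat_lit 49129) (.g (nat_lit 1907) (.e (nat_lit 1329) (nat_lit 100) (.e (nat_lit 270373) (nat_lit 16) (.e (nat_lit 286761) (nat_lit 13) (.e (nat_lit 393291) (nat_lit 26) (.e (nat_lit 475201) (nat_lit 40) .nil))))) .nil))) (.nd (nat_lit 5) 
(.lf (nat_lit 49113) (.g (nat_lit 2894) (.e (nat_lit 1315) (nat_lit 98) (.e (nat_lit 147496) (nat_lit 11) (.e (nat_lit 24617) (nat_lit 7) (.e (nat_lit 319533) (nat_lit 16) (.e (nat_lit 286753) (nat_lit 10) (.e (nat_lit 344160) (nat_lit 37) (.e (nat_lit 647189) (nat_lit 9) .nil))))))) (.g (nat_lit 5) .nil .nil))) 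
(.lf (nat_lit 49145) (.g (nat_lit 1577) (.e (nat_lit 1341) (nat_lit 101) (.e (nat_lit 278531) (nat_lit 0) (.e (nat_lit 5762) (nat_lit 315) (.e (nat_lit 163962) (nat_lit 25) (.e (nat_lit 532547) (nat_lit 11) (.e (nat_lit 352312) (nat_lit 22) (.e (nat_lit 98048) (nat_lit 18) .nil))))))) (.g (nat_lit 6) .nil .nil)))))) (.nd (nat_lit 3) (.nd (nat_lit 4) (.nd (nat_lit 5) 
(.lf (nat_lit 49093) (.g (nat_lit 3275) (.e (nat_lit 1315) (nat_lit 98) (.e (nat_lit 147495) (nat_lit 11) (.e (nat_lit 24665) (nat_lit 14) (.e (nat_lit 401444) (nat_lit 9) (.e (nat_lit 426447) (nat_lit 20) .nil))))) .nil)) 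
(.lf (nat_lit 49125) (.g (nat_lit 3885) (.e (nat_lit 1328) (nat_lit 100) (.e (nat_lit 270354) (nat_lit 8) (.e (nat_lit 303119) (nat_lit 3) (.e (nat_lit 204855) (nat_lit 26) (.e (nat_lit 336099) (nat_lit 9) (.e (nat_lit 336013) (nat_lit 2) (.e (nat_lit 98048) (nat_lit 18) .nil))))))) (.g (nat_lit 6) .nil .nil)))) (.nd (nat_lit 5) 
(.lf (nat_lit 49109) (.g (nat_lit 4477) (.e (nat_lit 1315) (nat_lit 98) (.e (nat_lit 147496) (nat_lit 11) (.e (nat_lit 24608) (nat_lit 3) (.e (nat_lit 98373) (nat_lit 29) (.e (nat_lit 450587) (nat_lit 10) (.e (nat_lit 573454) (nat_lit 9) .nil)))))) (.g (nat_lit 0) .nil .nil))) 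
(.lf (nat_lit 49141) (.g (nat_lit 988) (.e (nat_lit 1340) (nat_lit 101) (.e (nat_lit 278546) (nat_lit 8) (.e (nat_lit 303140) (nat_lit 10) (.e (nat_lit 434269) (nat_lit 36) (.e (nat_lit 639022) (nat_lit 17) .nil))))) .nil)))) (.nd (nat_lit 4) (.nd (nat_lit 5) 
(.lf (nat_lit 49101) (.g (nat_lit 3495) (.e (nat_lit 1315) (nat_lit 98) (.e (nat_lit 147496) (nat_lit 11) (.e (nat_lit 24604) (nat_lit 2) (.e (nat_lit 90176) (nat_lit 15) (.e (nat_lit 188439) (nat_lit 20) (.e (nat_lit 3304) (nat_lit 202) (.e (nat_lit 573454) (nat_lit 9) .nil))))))) (.g (nat_lit 6) .nil .nil))) 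
(.lf (nat_lit 49133) (.g (nat_lit 1949) (.e (nat_lit 1329) (nat_lit 100) (.e (nat_lit 270373) (nat_lit 16) (.e (nat_lit 286761) (nat_lit 13) (.e (nat_lit 393293) (nat_lit 26) (.e (nat_lit 483072) (nat_lit 40) .nil))))) .nil))) (.nd (nat_lit 5) 
(.lf (nat_lit 49117) (.g (nat_lit 3120) (.e (nat_lit 1316) (nat_lit 98) (.e (nat_lit 147496) (nat_lit 11) (.e (nat_lit 24617) (nat_lit 7) (.e (nat_lit 319533) (nat_lit 16) (.e (nat_lit 286753) (nat_lit 10) .nil))))) .nil)) 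
(.lf (nat_lit 49149) (.g (nat_lit 3583) (.e (nat_lit 1342) (nat_lit 101) (.e (nat_lit 278529) (nat_lit 0) (.e (nat_lit 5762) (nat_lit 315) (.e (nat_lit 163962) (nat_lit 25) (.e (nat_lit 532535) (nat_lit 9) (.e (nat_lit 336099) (nat_lit 9) (.e (nat_lit 336013) (nat_lit 2) (.e (nat_lit 98048) (nat_lit 18) .nil)))))))) (.g (nat_lit 7) .nil .nil))))))) 
(.nd (nat_lit 2) (.nd (nat_lit 3) (.nd (nat_lit 4) (.nd (nat_lit 5) 
(.lf (nat_lit 49091) (.g (nat_lit 2919) (.e (nat_lit 1315) (nat_lit 98) (.e (nat_lit 147495) (nat_lit 11) (.e (nat_lit 24660) (nat_lit 13) (.e (nat_lit 393260) (nat_lit 21) (.e (nat_lit 409616) (nat_lit 10) (.e (nat_lit 7936) (nat_lit 298) .nil)))))) (.g (nat_lit 4) .nil .nil))) 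
(.lf (nat_lit 49123) (.g (nat_lit 2292) (.e (nat_lit 1320) (nat_lit 99) (.e (nat_lit 155669) (nat_lit 11) (.e (nat_lit 16465) (nat_lit 13) (.e (nat_lit 483395) (nat_lit 24) (.e (nat_lit 344156) (nat_lit 36) (.e (nat_lit 639008) (nat_lit 13) .nil)))))) (.g (nat_lit 0) .nil .nil)))) (.nd (nat_lit 5) 
(.lf (nat_lit 49107) (.g (nat_lit 4006) (.e (nat_lit 1315) (nat_lit 98) (.e (nat_lit 147496) (nat_lit 11) (.e (nat_lit 24607) (nat_lit 3) (.e (nat_lit 98373) (nat_lit 29) (.e (nat_lit 450587) (nat_lit 10) (.e (nat_lit 573454) (nat_lit 9) .nil)))))) (.g (nat_lit 5) .nil .nil))) 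
(.lf (nat_lit 49139) (.g (nat_lit 889) (.e (nat_lit 1340) (nat_lit 101) (.e (nat_lit 278546) (nat_lit 8) (.e (nat_lit 303137) (nat_lit 10) (.e (nat_lit 434269) (nat_lit 36) (.e (nat_lit 639022) (nat_lit 17) .nil))))) .nil)))) (.nd (nat_lit 4) (.nd (nat_lit 5) 
(.lf (nat_lit 49099) (.g (nat_lit 5616) (.e (nat_lit 1315) (nat_lit 98) (.e (nat_lit 147496) (nat_lit 11) (.e (nat_lit 24604) (nat_lit 2) (.e (nat_lit 90170) (nat_lit 13) (.e (nat_lit 172106) (nat_lit 10) (.e (nat_lit 434244) (nat_lit 28) (.e (nat_lit 573454) (nat_lit 9) .nil))))))) (.g (nat_lit 0) .nil .nil))) 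
(.lf (nat_lit 49131) (.g (nat_lit 1858) (.e (nat_lit 1329) (nat_lit 100) (.e (nat_lit 270373) (nat_lit 16) (.e (nat_lit 286761) (nat_lit 13) (.e (nat_lit 393293) (nat_lit 26) (.e (nat_lit 475200) (nat_lit 40) (.e (nat_lit 704780) (nat_lit 14) .nil)))))) (.g (nat_lit 4) .nil .nil)))) (.nd (nat_lit 5) 
(.lf (nat_lit 49115) (.g (nat_lit 2817) (.e (nat_lit 1315) (nat_lit 98) (.e (nat_lit 147496) (nat_lit 11) (.e (nat_lit 24617) (nat_lit 7) (.e (nat_lit 319534) (nat_lit 16) (.e (nat_lit 286756) (nat_lit 10) (.e (nat_lit 344160) (nat_lit 37) (.e (nat_lit 647189) (nat_lit 9) .nil))))))) (.g (nat_lit 5) .nil .nil))) 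
(.lf (nat_lit 49147) (.g (nat_lit 1606) (.e (nat_lit 1341) (nat_lit 101) (.e (nat_lit 278532) (nat_lit 0) (.e (nat_lit 5762) (nat_lit 315) (.e (nat_lit 163962) (nat_lit 25) (.e (nat_lit 532547) (nat_lit 11) (.e (nat_lit 352312) (nat_lit 22) (.e (nat_lit 98048) (nat_lit 18) .nil))))))) (.g (nat_lit 6) .nil .nil)))))) (.nd (nat_lit 3) (.nd (nat_lit 4) (.nd (nat_lit 5) 
(.lf (nat_lit 49095) (.g (nat_lit 849) (.e (nat_lit 1315) (nat_lit 98) (.e (nat_lit 147495) (nat_lit 11) (.e (nat_lit 24675) (nat_lit 27) .nil))) .nil)) 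
(.lf (nat_lit 49127) (.g (nat_lit 2572) (.e (nat_lit 1328) (nat_lit 100) (.e (nat_lit 270354) (nat_lit 8) (.e (nat_lit 303119) (nat_lit 3) (.e (nat_lit 204866) (nat_lit 28) (.e (nat_lit 352312) (nat_lit 22) .nil))))) .nil))) (.nd (nat_lit 5) 
(.lf (nat_lit 49111) (.g (nat_lit 2227) (.e (nat_lit 1315) (nat_lit 98) (.e (nat_lit 147496) (nat_lit 11) (.e (nat_lit 24616) (nat_lit 7) (.e (nat_lit 319533) (nat_lit 16) (.e (nat_lit 286753) (nat_lit 10) (.e (nat_lit 344160) (nat_lit 37) (.e (nat_lit 647188) (nat_lit 9) .nil))))))) (.g (nat_lit 4) .nil .nil))) 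
(.lf (nat_lit 49143) (.g (nat_lit 870) (.e (nat_lit 1340) (nat_lit 101) (.e (nat_lit 278546) (nat_lit 8) (.e (nat_lit 303145) (nat_lit 13) (.e (nat_lit 483396) (nat_lit 24) .nil)))) .nil)))) (.nd (nat_lit 4) (.nd (nat_lit 5) 
(.lf (nat_lit 49103) (.g (nat_lit 2476) (.e (nat_lit 1315) (nat_lit 98) (.e (nat_lit 147496) (nat_lit 11) (.e (nat_lit 24604) (nat_lit 2) (.e (nat_lit 90178) (nat_lit 15) (.e (nat_lit 188436) (nat_lit 20) .nil))))) .nil)) 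
(.lf (nat_lit 49135) (.g (nat_lit 1310) (.e (nat_lit 1340) (nat_lit 101) (.e (nat_lit 278529) (nat_lit 0) (.e (nat_lit 5779) (nat_lit 317) (.e (nat_lit 180228) (nat_lit 0) (.e (nat_lit 5212) (nat_lit 295) (.e (nat_lit 122913) (nat_lit 13) (.e (nat_lit 344080) (nat_lit 13) .nil))))))) (.g (nat_lit 4) .nil .nil)))) (.nd (nat_lit 5) 
(.lf (nat_lit 49119) (.g (nat_lit 815) (.e (nat_lit 7936) (nat_lit 98) (.e (nat_lit 147494) (nat_lit 11) (.e (nat_lit 24657) (nat_lit 13) (.e (nat_lit 401152) (nat_lit 17) .nil)))) .nil)) 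
(.lf (nat_lit 49151) (.g (nat_lit 586) (.e (nat_lit 1342) (nat_lit 101) (.e (nat_lit 278529) (nat_lit 0) (.e (nat_lit 5779) (nat_lit 317) (.e (nat_lit 180259) (nat_lit 17) (.e (nat_lit 630822) (nat_lit 17) (.e (nat_lit 73791) (nat_lit 45) .nil)))))) (.g (nat_lit 4) .nil .nil)))))))))

noncomputable def tv683 : DT := (.nd (nat_lit 0) (.nd (nat_lit 1) (.nd (nat_lit 2) (.nd (nat_lit 3) (.nd (nat_lit 4) (.nd (nat_lit 5) 
(.lf (nat_lit 49152) (.g (nat_lit 561) (.e (nat_lit 1342) (nat_lit 101) (.e (nat_lit 278529) (nat_lit 0) (.e (nat_lit 5779) (nat_lit 317) (.e (nat_lit 180260) (nat_lit 18) (.e (nat_lit 639022) (nat_lit 17) (.e (nat_lit 73788) (nat_lit 45) .nil)))))) (.g (nat_lit 4) .nil .nil))) 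
(.lf (nat_lit 49184) (.g (nat_lit 991) (.e (nat_lit 1342) (nat_lit 101) (.e (nat_lit 278547) (nat_lit 8) (.e (nat_lit 303140) (nat_lit 10) (.e (nat_lit 434269) (nat_lit 36) (.e (nat_lit 639022) (nat_lit 17) (.e (nat_lit 73788) (nat_lit 45) .nil)))))) (.g (nat_lit 0) .nil .nil)))) (.nd (nat_lit 5) 
(.lf (nat_lit 49168) (.g (nat_lit 1107) (.e (nat_lit 1342) (nat_lit 101) (.e (nat_lit 278547) (nat_lit 8) (.e (nat_lit 303137) (nat_lit 10) (.e (nat_lit 434269) (nat_lit 36) (.e (nat_lit 639022) (nat_lit 17) (.e (nat_lit 73789) (nat_lit 45) .nil)))))) (.g (nat_lit 0) .nil .nil))) 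
(.lf (nat_lit 49200) (.g (nat_lit 517) (.e (nat_lit 1343) (nat_lit 101) (.e (nat_lit 278532) (nat_lit 0) (.e (nat_lit 5780) (nat_lit 317) (.e (nat_lit 180259) (nat_lit 17) (.e (nat_lit 630822) (nat_lit 17) (.e (nat_lit 73789) (nat_lit 45) .nil)))))) (.g (nat_lit 0) .nil .nil))))) (.nd (nat_lit 4) (.nd (nat_lit 5) 
(.lf (nat_lit 49160) (.g (nat_lit 583) (.e (nat_lit 1342) (nat_lit 101) (.e (nat_lit 278531) (nat_lit 0) (.e (nat_lit 5779) (nat_lit 317) (.e (nat_lit 180260) (nat_lit 18) (.e (nat_lit 639022) (nat_lit 17) (.e (nat_lit 73788) (nat_lit 45) .nil)))))) (.g (nat_lit 0) .nil .nil))) 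
(.lf (nat_lit 49192) (.g (nat_lit 541) (.e (nat_lit 1343) (nat_lit 101) (.e (nat_lit 278532) (nat_lit 0) (.e (nat_lit 5777) (nat_lit 317) (.e (nat_lit 180259) (nat_lit 17) (.e (nat_lit 630822) (nat_lit 17) (.e (nat_lit 73789) (nat_lit 45) .nil)))))) (.g (nat_lit 0) .nil .nil)))) (.nd (nat_lit 5) 
(.lf (nat_lit 49176) (.g (nat_lit 449) (.e (nat_lit 1342) (nat_lit 101) (.e (nat_lit 278547) (nat_lit 8) (.e (nat_lit 303139) (nat_lit 10) (.e (nat_lit 434265) (nat_lit 35) (.e (nat_lit 630822) (nat_lit 17) (.e (nat_lit 73788) (nat_lit 45) .nil)))))) (.g (nat_lit 6) .nil .nil))) 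
(.lf (nat_lit 49208) (.g (nat_lit 855) (.e (nat_lit 1343) (nat_lit 101) (.e (nat_lit 278547) (nat_lit 8) (.e (nat_lit 303138) (nat_lit 10) (.e (nat_lit 434265) (nat_lit 35) (.e (nat_lit 630822) (nat_lit 17) (.e (nat_lit 73789) (nat_lit 45) .nil)))))) (.g (nat_lit 0) .nil .nil)))))) (.nd (nat_lit 3) (.nd (nat_lit 4) (.nd (nat_lit 5) 
(.lf (nat_lit 49156) (.g (nat_lit 568) (.e (nat_lit 1342) (nat_lit 101) (.e (nat_lit 278531) (nat_lit 0) (.e (nat_lit 5776) (nat_lit 317) (.e (nat_lit 180260) (nat_lit 18) (.e (nat_lit 639022) (nat_lit 17) (.e (nat_lit 73788) (nat_lit 45) .nil)))))) (.g (nat_lit 0) .nil .nil))) 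
(.lf (nat_lit 49188) (.g (nat_lit 707) (.e (nat_lit 1343) (nat_lit 101) (.e (nat_lit 278532) (nat_lit 0) (.e (nat_lit 5776) (nat_lit 317) (.e (nat_lit 180259) (nat_lit 17) (.e (nat_lit 630822) (nat_lit 17) (.e (nat_lit 73789) (nat_lit 45) .nil)))))) (.g (nat_lit 0) .nil .nil)))) (.nd (nat_lit 5) 
(.lf (nat_lit 49172) (.g (nat_lit 608) (.e (nat_lit 1342) (nat_lit 101) (.e (nat_lit 278547) (nat_lit 8) (.e (nat_lit 303138) (nat_lit 10) (.e (nat_lit 434266) (nat_lit 35) (.e (nat_lit 630822) (nat_lit 17) (.e (nat_lit 73788) (nat_lit 45) .nil)))))) (.g (nat_lit 0) .nil .nil))) 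
(.lf (nat_lit 49204) (.g (nat_lit 853) (.e (nat_lit 1343) (nat_lit 101) (.e (nat_lit 278547) (nat_lit 8) (.e (nat_lit 303137) (nat_lit 10) (.e (nat_lit 434266) (nat_lit 35) (.e (nat_lit 630822) (nat_lit 17) (.e (nat_lit 73789) (nat_lit 45) .nil)))))) (.g (nat_lit 0) .nil .nil))))) (.nd (nat_lit 4) (.nd (nat_lit 5) 
(.lf (nat_lit 49164) (.g (nat_lit 2547) (.e (nat_lit 1342) (nat_lit 101) (.e (nat_lit 278547) (nat_lit 8) (.e (nat_lit 303118) (nat_lit 3) (.e (nat_lit 204855) (nat_lit 26) (.e (nat_lit 336099) (nat_lit 9) (.e (nat_lit 336013) (nat_lit 2) (.e (nat_lit 98048) (nat_lit 18) .nil))))))) (.g (nat_lit 6) .nil .nil))) 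
(.lf (nat_lit 49196) (.g (nat_lit 716) (.e (nat_lit 1343) (nat_lit 101) (.e (nat_lit 278532) (nat_lit 0) (.e (nat_lit 5779) (nat_lit 317) (.e (nat_lit 180259) (nat_lit 17) (.e (nat_lit 630822) (nat_lit 17) (.e (nat_lit 73789) (nat_lit 45) .nil)))))) (.g (nat_lit 0) .nil .nil)))) (.nd (nat_lit 5) 
(.lf (nat_lit 49180) (.g (nat_lit 597) (.e (nat_lit 1342) (nat_lit 101) (.e (nat_lit 278547) (nat_lit 8) (.e (nat_lit 303139) (nat_lit 10) (.e (nat_lit 434269) (nat_lit 36) (.e (nat_lit 639022) (nat_lit 17) (.e (nat_lit 73788) (nat_lit 45) .nil)))))) (.g (nat_lit 0) .nil .nil))) 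
(.lf (nat_lit 49212) (.g (nat_lit 780) (.e (nat_lit 1343) (nat_lit 101) (.e (nat_lit 278547) (nat_lit 8) (.e (nat_lit 303138) (nat_lit 10) (.e (nat_lit 434269) (nat_lit 36) (.e (nat_lit 639022) (nat_lit 17) (.e (nat_lit 73788) (nat_lit 45) .nil)))))) (.g (nat_lit 0) .nil .nil))))))) (.nd (nat_lit 2) (.nd (nat_lit 3) (.nd (nat_lit 4) (.nd (nat_lit 5) 
(.lf (nat_lit 49154) (.g (nat_lit 3408) (.e (nat_lit 1342) (nat_lit 101) (.e (nat_lit 278531) (nat_lit 0) (.e (nat_lit 5762) (nat_lit 315) (.e (nat_lit 163962) (nat_lit 25) (.e (nat_lit 532535) (nat_lit 9) (.e (nat_lit 336099) (nat_lit 9) (.e (nat_lit 336013) (nat_lit 2) (.e (nat_lit 98048) (nat_lit 18) .nil)))))))) (.g (nat_lit 7) .nil .nil))) 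
(.lf (nat_lit 49186) (.g (nat_lit 3463) (.e (nat_lit 1343) (nat_lit 101) (.e (nat_lit 278532) (nat_lit 0) (.e (nat_lit 5762) (nat_lit 315) (.e (nat_lit 163962) (nat_lit 25) (.e (nat_lit 532535) (nat_lit 9) (.e (nat_lit 336099) (nat_lit 9) (.e (nat_lit 336013) (nat_lit 2) (.e (nat_lit 98048) (nat_lit 18) .nil)))))))) (.g (nat_lit 7) .nil .nil)))) (.nd (nat_lit 5) 
(.lf (nat_lit 49170) (.g (nat_lit 872) (.e (nat_lit 1342) (nat_lit 101) (.e (nat_lit 278547) (nat_lit 8) (.e (nat_lit 303138) (nat_lit 10) (.e (nat_lit 434265) (nat_lit 35) (.e (nat_lit 630822) (nat_lit 17) (.e (nat_lit 73789) (nat_lit 45) .nil)))))) (.g (nat_lit 0) .nil .nil))) 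
(.lf (nat_lit 49202) (.g (nat_lit 508) (.e (nat_lit 1343) (nat_lit 101) (.e (nat_lit 278532) (nat_lit 0) (.e (nat_lit 5780) (nat_lit 317) (.e (nat_lit 180260) (nat_lit 18) (.e (nat_lit 639022) (nat_lit 17) (.e (nat_lit 73789) (nat_lit 45) .nil)))))) (.g (nat_lit 0) .nil .nil))))) (.nd (nat_lit 4) (.nd (nat_lit 5) 
(.lf (nat_lit 49162) (.g (nat_lit 418) (.e (nat_lit 1342) (nat_lit 101) (.e (nat_lit 278531) (nat_lit 0) (.e (nat_lit 5780) (nat_lit 317) (.e (nat_lit 180260) (nat_lit 18) (.e (nat_lit 639022) (nat_lit 17) (.e (nat_lit 73788) (nat_lit 45) .nil)))))) (.g (nat_lit 0) .nil .nil))) 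
(.lf (nat_lit 49194) (.g (nat_lit 519) (.e (nat_lit 1343) (nat_lit 101) (.e (nat_lit 278532) (nat_lit 0) (.e (nat_lit 5777) (nat_lit 317) (.e (nat_lit 180260) (nat_lit 18) (.e (nat_lit 639022) (nat_lit 17) (.e (nat_lit 73789) (nat_lit 45) .nil)))))) (.g (nat_lit 0) .nil .nil)))) (.nd (nat_lit 5) 
(.lf (nat_lit 49178) (.g (nat_lit 435) (.e (nat_lit 1342) (nat_lit 101) (.e (nat_lit 278547) (nat_lit 8) (.e (nat_lit 303139) (nat_lit 10) (.e (nat_lit 434266) (nat_lit 35) (.e (nat_lit 630822) (nat_lit 17) (.e (nat_lit 73788) (nat_lit 45) .nil)))))) (.g (nat_lit 0) .nil .nil))) 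
(.lf (nat_lit 49210) (.g (nat_lit 582) (.e (nat_lit 1343) (nat_lit 101) (.e (nat_lit 278547) (nat_lit 8) (.e (nat_lit 303138) (nat_lit 10) (.e (nat_lit 434266) (nat_lit 35) (.e (nat_lit 630822) (nat_lit 17) (.e (nat_lit 73788) (nat_lit 45) .nil)))))) (.g (nat_lit 0) .nil .nil)))))) (.nd (nat_lit 3) (.nd (nat_lit 4) (.nd (nat_lit 5) 
(.lf (nat_lit 49158) (.g (nat_lit 428) (.e (nat_lit 1342) (nat_lit 101) (.e (nat_lit 278531) (nat_lit 0) (.e (nat_lit 5777) (nat_lit 317) (.e (nat_lit 180260) (nat_lit 18) (.e (nat_lit 639022) (nat_lit 17) (.e (nat_lit 73788) (nat_lit 45) .nil)))))) (.g (nat_lit 0) .nil .nil))) 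
(.lf (nat_lit 49190) (.g (nat_lit 668) (.e (nat_lit 1343) (nat_lit 101) (.e (nat_lit 278532) (nat_lit 0) (.e (nat_lit 5776) (nat_lit 317) (.e (nat_lit 180260) (nat_lit 18) (.e (nat_lit 639022) (nat_lit 17) (.e (nat_lit 73789) (nat_lit 45) .nil)))))) (.g (nat_lit 0) .nil .nil)))) (.nd (nat_lit 5) 
(.lf (nat_lit 49174) (.g (nat_lit 804) (.e (nat_lit 1342) (nat_lit 101) (.e (nat_lit 278547) (nat_lit 8) (.e (nat_lit 303138) (nat_lit 10) (.e (nat_lit 434269) (nat_lit 36) (.e (nat_lit 639022) (nat_lit 17) (.e (nat_lit 73788) (nat_lit 45) .nil)))))) (.g (nat_lit 0) .nil .nil))) 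
(.lf (nat_lit 49206) (.g (nat_lit 1081) (.e (nat_lit 1343) (nat_lit 101) (.e (nat_lit 278547) (nat_lit 8) (.e (nat_lit 303137) (nat_lit 10) (.e (nat_lit 434269) (nat_lit 36) (.e (nat_lit 639022) (nat_lit 17) (.e (nat_lit 73789) (nat_lit 45) .nil)))))) (.g (nat_lit 0) .nil .nil))))) (.nd (nat_lit 4) (.nd (nat_lit 5) 
(.lf (nat_lit 49166) (.g (nat_lit 878) (.e (nat_lit 1342) (nat_lit 101) (.e (nat_lit 278547) (nat_lit 8) (.e (nat_lit 303137) (nat_lit 10) (.e (nat_lit 434266) (nat_lit 35) (.e (nat_lit 630822) (nat_lit 17) (.e (nat_lit 73789) (nat_lit 45) .nil)))))) (.g (nat_lit 0) .nil .nil))) 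
(.lf (nat_lit 49198) (.g (nat_lit 684) (.e (nat_lit 1343) (nat_lit 101) (.e (nat_lit 278532) (nat_lit 0) (.e (nat_lit 5779) (nat_lit 317) (.e (nat_lit 180260) (nat_lit 18) (.e (nat_lit 639022) (nat_lit 17) (.e (nat_lit 73789) (nat_lit 45) .nil)))))) (.g (nat_lit 0) .nil .nil)))) (.nd (nat_lit 5) 
(.lf (nat_lit 49182) (.g (nat_lit 797) (.e (nat_lit 1342) (nat_lit 101) (.e (nat_lit 278547) (nat_lit 8) (.e (nat_lit 303140) (nat_lit 10) (.e (nat_lit 434266) (nat_lit 35) (.e (nat_lit 630822) (nat_lit 17) (.e (nat_lit 73788) (nat_lit 45) .nil)))))) (.g (nat_lit 0) .nil .nil))) 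
(.lf (nat_lit 49214) (.g (nat_lit 420) (.e (nat_lit 1343) (nat_lit 101) (.e (nat_lit 278547) (nat_lit 8) (.e (nat_lit 303139) (nat_lit 10) (.e (nat_lit 434265) (nat_lit 35) (.e (nat_lit 630822) (nat_lit 17) (.e (nat_lit 73788) (nat_lit 45) .nil)))))) (.g (nat_lit 6) .nil .nil)))))))) (.nd (nat_lit 1) (.nd (nat_lit 2) (.nd (nat_lit 3) (.nd (nat_lit 4) (.nd (nat_lit 5) 
(.lf (nat_lit 49153) (.g (nat_lit 571) (.e (nat_lit 1342) (nat_lit 101) (.e (nat_lit 278529) (nat_lit 0) (.e (nat_lit 5779) (nat_lit 317) (.e (nat_lit 180260) (nat_lit 18) (.e (nat_lit 639022) (nat_lit 17) (.e (nat_lit 73791) (nat_lit 45) .nil)))))) (.g (nat_lit 4) .nil .nil))) 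
(.lf (nat_lit 49185) (.g (nat_lit 1175) (.e (nat_lit 1342) (nat_lit 101) (.e (nat_lit 278547) (nat_lit 8) (.e (nat_lit 303140) (nat_lit 10) (.e (nat_lit 434269) (nat_lit 36) (.e (nat_lit 639022) (nat_lit 17) (.e (nat_lit 73789) (nat_lit 45) .nil)))))) (.g (nat_lit 0) .nil .nil)))) (.nd (nat_lit 5) 
(.lf (nat_lit 49169) (.g (nat_lit 667) (.e (nat_lit 1342) (nat_lit 101) (.e (nat_lit 278547) (nat_lit 8) (.e (nat_lit 303138) (nat_lit 10) (.e (nat_lit 434265) (nat_lit 35) (.e (nat_lit 630822) (nat_lit 17) (.e (nat_lit 73788) (nat_lit 45) .nil)))))) (.g (nat_lit 6) .nil .nil))) 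
(.lf (nat_lit 49201) (.g (nat_lit 331) (.e (nat_lit 1343) (nat_lit 101) (.e (nat_lit 278532) (nat_lit 0) (.e (nat_lit 5780) (nat_lit 317) (.e (nat_lit 180260) (nat_lit 18) (.e (nat_lit 639022) (nat_lit 17) (.e (nat_lit 73788) (nat_lit 45) .nil)))))) (.g (nat_lit 0) .nil .nil))))) (.nd (nat_lit 4) (.nd (nat_lit 5) 
(.lf (nat_lit 49161) (.g (nat_lit 402) (.e (nat_lit 1342) (nat_lit 101) (.e (nat_lit 278531) (nat_lit 0) (.e (nat_lit 5780) (nat_lit 317) (.e (nat_lit 180259) (nat_lit 17) (.e (nat_lit 630822) (nat_lit 17) (.e (nat_lit 73788) (nat_lit 45) .nil)))))) (.g (nat_lit 0) .nil .nil))) 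
(.lf (nat_lit 49193) (.g (nat_lit 342) (.e (nat_lit 1343) (nat_lit 101) (.e (nat_lit 278532) (nat_lit 0) (.e (nat_lit 5777) (nat_lit 317) (.e (nat_lit 180260) (nat_lit 18) (.e (nat_lit 639022) (nat_lit 17) (.e (nat_lit 73788) (nat_lit 45) .nil)))))) (.g (nat_lit 0) .nil .nil)))) (.nd (nat_lit 5) 
(.lf (nat_lit 49177) (.g (nat_lit 470) (.e (nat_lit 1342) (nat_lit 101) (.e (nat_lit 278547) (nat_lit 8) (.e (nat_lit 303139) (nat_lit 10) (.e (nat_lit 434265) (nat_lit 35) (.e (nat_lit 630822) (nat_lit 17) (.e (nat_lit 73791) (nat_lit 45) .nil)))))) (.g (nat_lit 6) .nil .nil))) 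
(.lf (nat_lit 49209) (.g (nat_lit 667) (.e (nat_lit 1343) (nat_lit 101) (.e (nat_lit 278547) (nat_lit 8) (.e (nat_lit 303138) (nat_lit 10) (.e (nat_lit 434265) (nat_lit 35) (.e (nat_lit 630822) (nat_lit 17) (.e (nat_lit 73791) (nat_lit 45) .nil)))))) (.g (nat_lit 6) .nil .nil)))))) (.nd (nat_lit 3) (.nd (nat_lit 4) (.nd (nat_lit 5) 
(.lf (nat_lit 49157) (.g (nat_lit 421) (.e (nat_lit 1342) (nat_lit 101) (.e (nat_lit 278531) (nat_lit 0) (.e (nat_lit 5777) (nat_lit 317) (.e (nat_lit 180259) (nat_lit 17) (.e (nat_lit 630822) (nat_lit 17) (.e (nat_lit 73788) (nat_lit 45) .nil)))))) (.g (nat_lit 0) .nil .nil))) 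
(.lf (nat_lit 49189) (.g (nat_lit 492) (.e (nat_lit 1343) (nat_lit 101) (.e (nat_lit 278532) (nat_lit 0) (.e (nat_lit 5776) (nat_lit 317) (.e (nat_lit 180260) (nat_lit 18) (.e (nat_lit 639022) (nat_lit 17) (.e (nat_lit 73788) (nat_lit 45) .nil)))))) (.g (nat_lit 0) .nil .nil)))) (.nd (nat_lit 5) 
(.lf (nat_lit 49173) (.g (nat_lit 809) (.e (nat_lit 1342) (nat_lit 101) (.e (nat_lit 278547) (nat_lit 8) (.e (nat_lit 303138) (nat_lit 10) (.e (nat_lit 434266) (nat_lit 35) (.e (nat_lit 630822) (nat_lit 17) (.e (nat_lit 73789) (nat_lit 45) .nil)))))) (.g (nat_lit 0) .nil .nil))) 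
(.lf (nat_lit 49205) (.g (nat_lit 903) (.e (nat_lit 1343) (nat_lit 101) (.e (nat_lit 278547) (nat_lit 8) (.e (nat_lit 303137) (nat_lit 10) (.e (nat_lit 434269) (nat_lit 36) (.e (nat_lit 639022) (nat_lit 17) (.e (nat_lit 73788) (nat_lit 45) .nil)))))) (.g (nat_lit 0) .nil .nil))))) (.nd (nat_lit 4) (.nd (nat_lit 5) 
(.lf (nat_lit 49165) (.g (nat_lit 678) (.e (nat_lit 1342) (nat_lit 101) (.e (nat_lit 278547) (nat_lit 8) (.e (nat_lit 303137) (nat_lit 10) (.e (nat_lit 434266) (nat_lit 35) (.e (nat_lit 630822) (nat_lit 17) (.e (nat_lit 73788) (nat_lit 45) .nil)))))) (.g (nat_lit 0) .nil .nil))) 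
(.lf (nat_lit 49197) (.g (nat_lit 508) (.e (nat_lit 1343) (nat_lit 101) (.e (nat_lit 278532) (nat_lit 0) (.e (nat_lit 5779) (nat_lit 317) (.e (nat_lit 180260) (nat_lit 18) (.e (nat_lit 639022) (nat_lit 17) (.e (nat_lit 73788) (nat_lit 45) .nil)))))) (.g (nat_lit 0) .nil .nil)))) (.nd (nat_lit 5) 
(.lf (nat_lit 49181) (.g (nat_lit 780) (.e (nat_lit 1342) (nat_lit 101) (.e (nat_lit 278547) (nat_lit 8) (.e (nat_lit 303139) (nat_lit 10) (.e (nat_lit 434269) (nat_lit 36) (.e (nat_lit 639022) (nat_lit 17) (.e (nat_lit 73789) (nat_lit 45) .nil)))))) (.g (nat_lit 0) .nil .nil))) 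
(.lf (nat_lit 49213) (.g (nat_lit 964) (.e (nat_lit 1343) (nat_lit 101) (.e (nat_lit 278547) (nat_lit 8) (.e (nat_lit 303138) (nat_lit 10) (.e (nat_lit 434269) (nat_lit 36) (.e (nat_lit 639022) (nat_lit 17) (.e (nat_lit 73789) (nat_lit 45) .nil)))))) (.g (nat_lit 0) .nil .nil))))))) (.nd (nat_lit 2) (.nd (nat_lit 3) (.nd (nat_lit 4) (.nd (nat_lit 5) 
(.lf (nat_lit 49155) (.g (nat_lit 584) (.e (nat_lit 1342) (nat_lit 101) (.e (nat_lit 278531) (nat_lit 0) (.e (nat_lit 5776) (nat_lit 317) (.e (nat_lit 180259) (nat_lit 17) (.e (nat_lit 630822) (nat_lit 17) (.e (nat_lit 73788) (nat_lit 45) .nil)))))) (.g (nat_lit 0) .nil .nil))) 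
(.lf (nat_lit 49187) (.g (nat_lit 507) (.e (nat_lit 1343) (nat_lit 101) (.e (nat_lit 278532) (nat_lit 0) (.e (nat_lit 5776) (nat_lit 317) (.e (nat_lit 180259) (nat_lit 17) (.e (nat_lit 630822) (nat_lit 17) (.e (nat_lit 73788) (nat_lit 45) .nil)))))) (.g (nat_lit 0) .nil .nil)))) (.nd (nat_lit 5) 
(.lf (nat_lit 49171) (.g (nat_lit 685) (.e (nat_lit 1342) (nat_lit 101) (.e (nat_lit 278547) (nat_lit 8) (.e (nat_lit 303138) (nat_lit 10) (.e (nat_lit 434265) (nat_lit 35) (.e (nat_lit 630822) (nat_lit 17) (.e (nat_lit 73791) (nat_lit 45) .nil)))))) (.g (nat_lit 6) .nil .nil))) 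
(.lf (nat_lit 49203) (.g (nat_lit 648) (.e (nat_lit 1343) (nat_lit 101) (.e (nat_lit 278547) (nat_lit 8) (.e (nat_lit 303137) (nat_lit 10) (.e (nat_lit 434266) (nat_lit 35) (.e (nat_lit 630822) (nat_lit 17) (.e (nat_lit 73788) (nat_lit 45) .nil)))))) (.g (nat_lit 0) .nil .nil))))) (.nd (nat_lit 4) (.nd (nat_lit 5) 
(.lf (nat_lit 49163) (.g (nat_lit 1427) (.e (nat_lit 1342) (nat_lit 101) (.e (nat_lit 278546) (nat_lit 8) (.e (nat_lit 303143) (nat_lit 12) (.e (nat_lit 475193) (nat_lit 38) (.e (nat_lit 688180) (nat_lit 17) .nil))))) .nil)) 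
(.lf (nat_lit 49195) (.g (nat_lit 517) (.e (nat_lit 1343) (nat_lit 101) (.e (nat_lit 278532) (nat_lit 0) (.e (nat_lit 5779) (nat_lit 317) (.e (nat_lit 180259) (nat_lit 17) (.e (nat_lit 630822) (nat_lit 17) (.e (nat_lit 73788) (nat_lit 45) .nil)))))) (.g (nat_lit 0) .nil .nil)))) (.nd (nat_lit 5) 
(.lf (nat_lit 49179) (.g (nat_lit 637) (.e (nat_lit 1342) (nat_lit 101) (.e (nat_lit 278547) (nat_lit 8) (.e (nat_lit 303139) (nat_lit 10) (.e (nat_lit 434266) (nat_lit 35) (.e (nat_lit 630822) (nat_lit 17) (.e (nat_lit 73789) (nat_lit 45) .nil)))))) (.g (nat_lit 0) .nil .nil))) 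
(.lf (nat_lit 49211) (.g (nat_lit 789) (.e (nat_lit 1343) (nat_lit 101) (.e (nat_lit 278547) (nat_lit 8) (.e (nat_lit 303138) (nat_lit 10) (.e (nat_lit 434266) (nat_lit 35) (.e (nat_lit 630822) (nat_lit 17) (.e (nat_lit 73789) (nat_lit 45) .nil)))))) (.g (nat_lit 0) .nil .nil)))))) (.nd (nat_lit 3) (.nd (nat_lit 4) (.nd (nat_lit 5) 
(.lf (nat_lit 49159) (.g (nat_lit 588) (.e (nat_lit 1342) (nat_lit 101) (.e (nat_lit 278531) (nat_lit 0) (.e (nat_lit 5779) (nat_lit 317) (.e (nat_lit 180259) (nat_lit 17) (.e (nat_lit 630822) (nat_lit 17) (.e (nat_lit 73788) (nat_lit 45) .nil)))))) (.g (nat_lit 0) .nil .nil))) 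
(.lf (nat_lit 49191) (.g (nat_lit 341) (.e (nat_lit 1343) (nat_lit 101) (.e (nat_lit 278532) (nat_lit 0) (.e (nat_lit 5777) (nat_lit 317) (.e (nat_lit 180259) (nat_lit 17) (.e (nat_lit 630822) (nat_lit 17) (.e (nat_lit 73788) (nat_lit 45) .nil)))))) (.g (nat_lit 0) .nil .nil)))) (.nd (nat_lit 5) 
(.lf (nat_lit 49175) (.g (nat_lit 986) (.e (nat_lit 1342) (nat_lit 101) (.e (nat_lit 278547) (nat_lit 8) (.e (nat_lit 303138) (nat_lit 10) (.e (nat_lit 434269) (nat_lit 36) (.e (nat_lit 639022) (nat_lit 17) (.e (nat_lit 73789) (nat_lit 45) .nil)))))) (.g (nat_lit 0) .nil .nil))) 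
(.lf (nat_lit 49207) (.g (nat_lit 640) (.e (nat_lit 1343) (nat_lit 101) (.e (nat_lit 278547) (nat_lit 8) (.e (nat_lit 303138) (nat_lit 10) (.e (nat_lit 434265) (nat_lit 35) (.e (nat_lit 630822) (nat_lit 17) (.e (nat_lit 73788) (nat_lit 45) .nil)))))) (.g (nat_lit 6) .nil .nil))))) (.nd (nat_lit 4) (.nd (nat_lit 5) 
(.lf (nat_lit 49167) (.g (nat_lit 930) (.e (nat_lit 1342) (nat_lit 101) (.e (nat_lit 278547) (nat_lit 8) (.e (nat_lit 303137) (nat_lit 10) (.e (nat_lit 434269) (nat_lit 36) (.e (nat_lit 639022) (nat_lit 17) (.e (nat_lit 73788) (nat_lit 45) .nil)))))) (.g (nat_lit 0) .nil .nil))) 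
(.lf (nat_lit 49199) (.g (nat_lit 317) (.e (nat_lit 1343) (nat_lit 101) (.e (nat_lit 278532) (nat_lit 0) (.e (nat_lit 5780) (nat_lit 317) (.e (nat_lit 180259) (nat_lit 17) (.e (nat_lit 630822) (nat_lit 17) (.e (nat_lit 73788) (nat_lit 45) .nil)))))) (.g (nat_lit 0) .nil .nil)))) (.nd (nat_lit 5) 
(.lf (nat_lit 49183) (.g (nat_lit 1003) (.e (nat_lit 1342) (nat_lit 101) (.e (nat_lit 278547) (nat_lit 8) (.e (nat_lit 303140) (nat_lit 10) (.e (nat_lit 434266) (nat_lit 35) (.e (nat_lit 630822) (nat_lit 17) (.e (nat_lit 73789) (nat_lit 45) .nil)))))) (.g (nat_lit 0) .nil .nil))) 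
(.lf (nat_lit 49215) (.g (nat_lit 448) (.e (nat_lit 1343) (nat_lit 101) (.e (nat_lit 278547) (nat_lit 8) (.e (nat_lit 303139) (nat_lit 10) (.e (nat_lit 434265) (nat_lit 35) (.e (nat_lit 630822) (nat_lit 17) (.e (nat_lit 73791) (nat_lit 45) .nil)))))) (.g (nat_lit 6) .nil .nil)))))))))

noncomputable def tv684 : DT := (.nd (nat_lit 0) (.nd (nat_lit 1) (.nd (nat_lit 2) (.nd (nat_lit 3) (.nd (nat_lit 4) (.nd (nat_lit 5) 
(.lf (nat_lit 49216) (.g (nat_lit 409) (.e (nat_lit 1343) (nat_lit 101) (.e (nat_lit 278547) (nat_lit 8) (.e (nat_lit 303139) (nat_lit 10) (.e (nat_lit 434266) (nat_lit 35) (.e (nat_lit 630822) (nat_lit 17) (.e (nat_lit 73788) (nat_lit 45) .nil)))))) (.g (nat_lit 0) .nil .nil))) 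
(.lf (nat_lit 49248) (.g (nat_lit 1791) (.e (nat_lit 1346) (nat_lit 102) (.e (nat_lit 286759) (nat_lit 12) (.e (nat_lit 385074) (nat_lit 31) (.e (nat_lit 573484) (nat_lit 13) (.e (nat_lit 65617) (nat_lit 10) .nil))))) .nil))) (.nd (nat_lit 5) 
(.lf (nat_lit 49232) (.g (nat_lit 709) (.e (nat_lit 1346) (nat_lit 102) (.e (nat_lit 286735) (nat_lit 3) (.e (nat_lit 98369) (nat_lit 28) .nil))) .nil)) 
(.lf (nat_lit 49264) (.g (nat_lit 1230) (.e (nat_lit 1346) (nat_lit 102) (.e (nat_lit 286761) (nat_lit 13) (.e (nat_lit 393234) (nat_lit 17) (.e (nat_lit 7589) (nat_lit 406) .nil)))) .nil)))) (.nd (nat_lit 4) (.nd (nat_lit 5) 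
(.lf (nat_lit 49224) (.g (nat_lit 2691) (.e (nat_lit 1346) (nat_lit 102) (.e (nat_lit 286733) (nat_lit 2) (.e (nat_lit 90170) (nat_lit 13) (.e (nat_lit 172092) (nat_lit 9) .nil)))) .nil)) 
(.lf (nat_lit 49256) (.g (nat_lit 2355) (.e (nat_lit 1346) (nat_lit 102) (.e (nat_lit 286759) (nat_lit 12) (.e (nat_lit 385106) (nat_lit 50) (.e (nat_lit 786481) (nat_lit 30) (.e (nat_lit 360482) (nat_lit 15) .nil))))) .nil))) (.nd (nat_lit 5) 
(.lf (nat_lit 49240) (.g (nat_lit 2332) (.e (nat_lit 1346) (nat_lit 102) (.e (nat_lit 286735) (nat_lit 3) (.e (nat_lit 98373) (nat_lit 29) (.e (nat_lit 450587) (nat_lit 10) .nil)))) .nil)) 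
(.lf (nat_lit 49272) (.g (nat_lit 2488) (.e (nat_lit 1346) (nat_lit 102) (.e (nat_lit 286761) (nat_lit 13) (.e (nat_lit 393234) (nat_lit 17) (.e (nat_lit 7591) (nat_lit 407) (.e (nat_lit 73771) (nat_lit 23) (.e (nat_lit 753664) (nat_lit 0) .nil)))))) (.g (nat_lit 6) .nil .nil)))))) (.nd (nat_lit 3) (.nd (nat_lit 4) (.nd (nat_lit 5) 
(.lf (nat_lit 49220) (.g (nat_lit 775) (.e (nat_lit 1343) (nat_lit 101) (.e (nat_lit 278547) (nat_lit 8) (.e (nat_lit 303140) (nat_lit 10) (.e (nat_lit 434266) (nat_lit 35) (.e (nat_lit 630822) (nat_lit 17) (.e (nat_lit 73788) (nat_lit 45) .nil)))))) (.g (nat_lit 0) .nil .nil))) 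
(.lf (nat_lit 49252) (.g (nat_lit 1710) (.e (nat_lit 1346) (nat_lit 102) (.e (nat_lit 286759) (nat_lit 12) (.e (nat_lit 385074) (nat_lit 31) (.e (nat_lit 573493) (nat_lit 15) .nil)))) .nil))) (.nd (nat_lit 5) 
(.lf (nat_lit 49236) (.g (nat_lit 2966) (.e (nat_lit 1346) (nat_lit 102) (.e (nat_lit 286735) (nat_lit 3) (.e (nat_lit 98372) (nat_lit 29) (.e (nat_lit 450579) (nat_lit 5) (.e (nat_lit 532482) (nat_lit 0) .nil))))) .nil)) 
(.lf (nat_lit 49268) (.g (nat_lit 2503) (.e (nat_lit 1346) (nat_lit 102) (.e (nat_lit 286761) (nat_lit 13) (.e (nat_lit 393234) (nat_lit 17) (.e (nat_lit 7589) (nat_lit 406) (.e (nat_lit 65632) (nat_lit 15) (.e (nat_lit 6950) (nat_lit 377) .nil)))))) (.g (nat_lit 0) .nil .nil))))) (.nd (nat_lit 4) (.nd (nat_lit 5) 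
(.lf (nat_lit 49228) (.g (nat_lit 4380) (.e (nat_lit 1346) (nat_lit 102) (.e (nat_lit 286733) (nat_lit 2) (.e (nat_lit 90170) (nat_lit 13) (.e (nat_lit 172113) (nat_lit 10) (.e (nat_lit 434231) (nat_lit 23) .nil))))) .nil)) 
(.lf (nat_lit 49260) (.g (nat_lit 1328) (.e (nat_lit 1346) (nat_lit 102) (.e (nat_lit 286761) (nat_lit 13) (.e (nat_lit 393234) (nat_lit 17) (.e (nat_lit 7587) (nat_lit 406) .nil)))) .nil))) (.nd (nat_lit 5) 
(.lf (nat_lit 49244) (.g (nat_lit 870) (.e (nat_lit 1346) (nat_lit 102) (.e (nat_lit 286735) (nat_lit 3) (.e (nat_lit 98381) (nat_lit 31) .nil))) .nil)) 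
(.lf (nat_lit 49276) (.g (nat_lit 654) (.e (nat_lit 1346) (nat_lit 102) (.e (nat_lit 286761) (nat_lit 13) (.e (nat_lit 393293) (nat_lit 26) .nil))) .nil)))))) (.nd (nat_lit 2) (.nd (nat_lit 3) (.nd (nat_lit 4) (.nd (nat_lit 5) 
(.lf (nat_lit 49218) (.g (nat_lit 573) (.e (nat_lit 1343) (nat_lit 101) (.e (nat_lit 278547) (nat_lit 8) (.e (nat_lit 303139) (nat_lit 10) (.e (nat_lit 434269) (nat_lit 36) (.e (nat_lit 639022) (nat_lit 17) (.e (nat_lit 73788) (nat_lit 45) .nil)))))) (.g (nat_lit 0) .nil .nil))) 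
(.lf (nat_lit 49250) (.g (nat_lit 2298) (.e (nat_lit 1346) (nat_lit 102) (.e (nat_lit 286759) (nat_lit 12) (.e (nat_lit 385074) (nat_lit 31) (.e (nat_lit 573491) (nat_lit 15) .nil)))) .nil))) (.nd (nat_lit 5) 
(.lf (nat_lit 49234) (.g (nat_lit 1970) (.e (nat_lit 1346) (nat_lit 102) (.e (nat_lit 286735) (nat_lit 3) (.e (nat_lit 98372) (nat_lit 29) (.e (nat_lit 450579) (nat_lit 5) .nil)))) .nil)) 
(.lf (nat_lit 49266) (.g (nat_lit 2021) (.e (nat_lit 1346) (nat_lit 102) (.e (nat_lit 286761) (nat_lit 13) (.e (nat_lit 393234) (nat_lit 17) (.e (nat_lit 7589) (nat_lit 406) (.e (nat_lit 65632) (nat_lit 15) .nil))))) .nil)))) (.nd (nat_lit 4) (.nd (nat_lit 5) 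
(.lf (nat_lit 49226) (.g (nat_lit 3303) (.e (nat_lit 1346) (nat_lit 102) (.e (nat_lit 286733) (nat_lit 2) (.e (nat_lit 90170) (nat_lit 13) (.e (nat_lit 172097) (nat_lit 9) .nil)))) .nil)) 
(.lf (nat_lit 49258) (.g (nat_lit 822) (.e (nat_lit 1346) (nat_lit 102) (.e (nat_lit 286761) (nat_lit 13) (.e (nat_lit 393221) (nat_lit 0) .nil))) .nil))) (.nd (nat_lit 5) 
(.lf (nat_lit 49242) (.g (nat_lit 3686) (.e (nat_lit 1346) (nat_lit 102) (.e (nat_lit 286735) (nat_lit 3) (.e (nat_lit 98373) (nat_lit 29) (.e (nat_lit 450588) (nat_lit 10) (.e (nat_lit 573452) (nat_lit 9) .nil))))) .nil)) 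
(.lf (nat_lit 49274) (.g (nat_lit 861) (.e (nat_lit 1346) (nat_lit 102) (.e (nat_lit 286761) (nat_lit 13) (.e (nat_lit 393270) (nat_lit 23) .nil))) .nil))))) (.nd (nat_lit 3) (.nd (nat_lit 4) (.nd (nat_lit 5) 
(.lf (nat_lit 49222) (.g (nat_lit 971) (.e (nat_lit 1343) (nat_lit 101) (.e (nat_lit 278547) (nat_lit 8) (.e (nat_lit 303140) (nat_lit 10) (.e (nat_lit 434269) (nat_lit 36) (.e (nat_lit 639022) (nat_lit 17) (.e (nat_lit 73788) (nat_lit 45) .nil)))))) (.g (nat_lit 0) .nil .nil))) 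
(.lf (nat_lit 49254) (.g (nat_lit 2106) (.e (nat_lit 1346) (nat_lit 102) (.e (nat_lit 286759) (nat_lit 12) (.e (nat_lit 385102) (nat_lit 50) (.e (nat_lit 786483) (nat_lit 30) (.e (nat_lit 360484) (nat_lit 15) (.e (nat_lit 647203) (nat_lit 14) .nil)))))) (.g (nat_lit 5) .nil .nil)))) (.nd (nat_lit 5) 
(.lf (nat_lit 49238) (.g (nat_lit 2785) (.e (nat_lit 1346) (nat_lit 102) (.e (nat_lit 286735) (nat_lit 3) (.e (nat_lit 98372) (nat_lit 29) (.e (nat_lit 450579) (nat_lit 5) (.e (nat_lit 532484) (nat_lit 0) (.e (nat_lit 6168) (nat_lit 332) .nil)))))) (.g (nat_lit 4) .nil .nil))) 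
(.lf (nat_lit 49270) (.g (nat_lit 2213) (.e (nat_lit 1346) (nat_lit 102) (.e (nat_lit 286761) (nat_lit 13) (.e (nat_lit 393234) (nat_lit 17) (.e (nat_lit 7589) (nat_lit 406) (.e (nat_lit 65632) (nat_lit 15) (.e (nat_lit 7048) (nat_lit 377) .nil)))))) (.g (nat_lit 5) .nil .nil))))) (.nd (nat_lit 4) (.nd (nat_lit 5) 
(.lf (nat_lit 49230) (.g (nat_lit 2696) (.e (nat_lit 1346) (nat_lit 102) (.e (nat_lit 286733) (nat_lit 2) (.e (nat_lit 90177) (nat_lit 15) (.e (nat_lit 188452) (nat_lit 23) (.e (nat_lit 204816) (nat_lit 17) .nil))))) .nil)) 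
(.lf (nat_lit 49262) (.g (nat_lit 1924) (.e (nat_lit 1346) (nat_lit 102) (.e (nat_lit 286761) (nat_lit 13) (.e (nat_lit 393234) (nat_lit 17) (.e (nat_lit 7587) (nat_lit 406) (.e (nat_lit 65632) (nat_lit 15) (.e (nat_lit 6950) (nat_lit 377) .nil)))))) (.g (nat_lit 4) .nil .nil)))) (.nd (nat_lit 5) 
(.lf (nat_lit 49246) (.g (nat_lit 3797) (.e (nat_lit 1346) (nat_lit 102) (.e (nat_lit 286759) (nat_lit 12) (.e (nat_lit 385074) (nat_lit 31) (.e (nat_lit 573451) (nat_lit 9) .nil)))) .nil)) 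
(.lf (nat_lit 49278) (.g (nat_lit 1333) (.e (nat_lit 1346) (nat_lit 102) (.e (nat_lit 286761) (nat_lit 13) (.e (nat_lit 393293) (nat_lit 26) (.e (nat_lit 475218) (nat_lit 44) .nil)))) .nil))))))) (.nd (nat_lit 1) (.nd (nat_lit 2) (.nd (nat_lit 3) (.nd (nat_lit 4) (.nd (nat_lit 5) 
(.lf (nat_lit 49217) (.g (nat_lit 613) (.e (nat_lit 1343) (nat_lit 101) (.e (nat_lit 278547) (nat_lit 8) (.e (nat_lit 303139) (nat_lit 10) (.e (nat_lit 434266) (nat_lit 35) (.e (nat_lit 630822) (nat_lit 17) (.e (nat_lit 73789) (nat_lit 45) .nil)))))) (.g (nat_lit 0) .nil .nil))) 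
(.lf (nat_lit 49249) (.g (nat_lit 3497) (.e (nat_lit 1346) (nat_lit 102) (.e (nat_lit 286759) (nat_lit 12) (.e (nat_lit 385074) (nat_lit 31) (.e (nat_lit 573485) (nat_lit 13) (.e (nat_lit 65619) (nat_lit 10) (.e (nat_lit 344107) (nat_lit 19) (.e (nat_lit 499743) (nat_lit 0) .nil))))))) (.g (nat_lit 6) .nil .nil)))) (.nd (nat_lit 5) 
(.lf (nat_lit 49233) (.g (nat_lit 2152) (.e (nat_lit 1346) (nat_lit 102) (.e (nat_lit 286735) (nat_lit 3) (.e (nat_lit 98372) (nat_lit 29) (.e (nat_lit 458496) (nat_lit 1) .nil)))) .nil)) 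
(.lf (nat_lit 49265) (.g (nat_lit 2004) (.e (nat_lit 1346) (nat_lit 102) (.e (nat_lit 286761) (nat_lit 13) (.e (nat_lit 393234) (nat_lit 17) (.e (nat_lit 7589) (nat_lit 406) (.e (nat_lit 65631) (nat_lit 15) .nil))))) .nil)))) (.nd (nat_lit 4) (.nd (nat_lit 5) 
(.lf (nat_lit 49225) (.g (nat_lit 2611) (.e (nat_lit 1346) (nat_lit 102) (.e (nat_lit 286733) (nat_lit 2) (.e (nat_lit 90170) (nat_lit 13) (.e (nat_lit 172095) (nat_lit 9) .nil)))) .nil)) 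
(.lf (nat_lit 49257) (.g (nat_lit 1873) (.e (nat_lit 1346) (nat_lit 102) (.e (nat_lit 286759) (nat_lit 12) (.e (nat_lit 385106) (nat_lit 50) (.e (nat_lit 786483) (nat_lit 30) (.e (nat_lit 360483) (nat_lit 15) .nil))))) .nil))) (.nd (nat_lit 5) 
(.lf (nat_lit 49241) (.g (nat_lit 2537) (.e (nat_lit 1346) (nat_lit 102) (.e (nat_lit 286735) (nat_lit 3) (.e (nat_lit 98373) (nat_lit 29) (.e (nat_lit 450588) (nat_lit 10) .nil)))) .nil)) 
(.lf (nat_lit 49273) (.g (nat_lit 2229) (.e (nat_lit 1346) (nat_lit 102) (.e (nat_lit 286761) (nat_lit 13) (.e (nat_lit 393234) (nat_lit 17) (.e (nat_lit 7593) (nat_lit 407) (.e (nat_lit 73771) (nat_lit 23) (.e (nat_lit 753664) (nat_lit 0) .nil)))))) (.g (nat_lit 6) .nil .nil)))))) (.nd (nat_lit 3) (.nd (nat_lit 4) (.nd (nat_lit 5) 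
(.lf (nat_lit 49221) (.g (nat_lit 984) (.e (nat_lit 1343) (nat_lit 101) (.e (nat_lit 278547) (nat_lit 8) (.e (nat_lit 303140) (nat_lit 10) (.e (nat_lit 434266) (nat_lit 35) (.e (nat_lit 630822) (nat_lit 17) (.e (nat_lit 73789) (nat_lit 45) .nil)))))) (.g (nat_lit 0) .nil .nil))) 
(.lf (nat_lit 49253) (.g (nat_lit 353) (.e (nat_lit 1346) (nat_lit 102) (.e (nat_lit 286759) (nat_lit 12) (.e (nat_lit 385094) (nat_lit 49) .nil))) .nil))) (.nd (nat_lit 5) 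
(.lf (nat_lit 49237) (.g (nat_lit 2704) (.e (nat_lit 1346) (nat_lit 102) (.e (nat_lit 286735) (nat_lit 3) (.e (nat_lit 98372) (nat_lit 29) (.e (nat_lit 450579) (nat_lit 5) (.e (nat_lit 532484) (nat_lit 0) .nil))))) .nil)) 
(.lf (nat_lit 49269) (.g (nat_lit 2478) (.e (nat_lit 1346) (nat_lit 102) (.e (nat_lit 286761) (nat_lit 13) (.e (nat_lit 393234) (nat_lit 17) (.e (nat_lit 7589) (nat_lit 406) (.e (nat_lit 65632) (nat_lit 15) (.e (nat_lit 6953) (nat_lit 377) .nil)))))) (.g (nat_lit 0) .nil .nil))))) (.nd (nat_lit 4) (.nd (nat_lit 5) 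
(.lf (nat_lit 49229) (.g (nat_lit 3876) (.e (nat_lit 1346) (nat_lit 102) (.e (nat_lit 286733) (nat_lit 2) (.e (nat_lit 90170) (nat_lit 13) (.e (nat_lit 172115) (nat_lit 10) (.e (nat_lit 434231) (nat_lit 23) (.e (nat_lit 532490) (nat_lit 0) (.e (nat_lit 6149) (nat_lit 332) .nil))))))) (.g (nat_lit 4) .nil .nil))) 
(.lf (nat_lit 49261) (.g (nat_lit 1853) (.e (nat_lit 1346) (nat_lit 102) (.e (nat_lit 286761) (nat_lit 13) (.e (nat_lit 393234) (nat_lit 17) (.e (nat_lit 7587) (nat_lit 406) (.e (nat_lit 65632) (nat_lit 15) .nil))))) .nil))) (.nd (nat_lit 5) 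
(.lf (nat_lit 49245) (.g (nat_lit 2422) (.e (nat_lit 1346) (nat_lit 102) (.e (nat_lit 286749) (nat_lit 9) (.e (nat_lit 336028) (nat_lit 3) (.e (nat_lit 98367) (nat_lit 27) (.e (nat_lit 434275) (nat_lit 39) .nil))))) .nil)) 
(.lf (nat_lit 49277) (.g (nat_lit 1725) (.e (nat_lit 1346) (nat_lit 102) (.e (nat_lit 286761) (nat_lit 13) (.e (nat_lit 393293) (nat_lit 26) (.e (nat_lit 483072) (nat_lit 40) .nil)))) .nil)))))) (.nd (nat_lit 2) (.nd (nat_lit 3) (.nd (nat_lit 4) (.nd (nat_lit 5) 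
(.lf (nat_lit 49219) (.g (nat_lit 754) (.e (nat_lit 1343) (nat_lit 101) (.e (nat_lit 278547) (nat_lit 8) (.e (nat_lit 303139) (nat_lit 10) (.e (nat_lit 434269) (nat_lit 36) (.e (nat_lit 639022) (nat_lit 17) (.e (nat_lit 73789) (nat_lit 45) .nil)))))) (.g (nat_lit 0) .nil .nil))) 
(.lf (nat_lit 49251) (.g (nat_lit 3260) (.e (nat_lit 1346) (nat_lit 102) (.e (nat_lit 286759) (nat_lit 12) (.e (nat_lit 385074) (nat_lit 31) (.e (nat_lit 573491) (nat_lit 15) (.e (nat_lit 81951) (nat_lit 22) (.e (nat_lit 90191) (nat_lit 18) .nil)))))) (.g (nat_lit 4) .nil .nil)))) (.nd (nat_lit 5) 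
(.lf (nat_lit 49235) (.g (nat_lit 3128) (.e (nat_lit 1346) (nat_lit 102) (.e (nat_lit 286735) (nat_lit 3) (.e (nat_lit 98372) (nat_lit 29) (.e (nat_lit 450579) (nat_lit 5) (.e (nat_lit 532481) (nat_lit 0) (.e (nat_lit 6192) (nat_lit 332) .nil)))))) (.g (nat_lit 4) .nil .nil))) 
(.lf (nat_lit 49267) (.g (nat_lit 2109) (.e (nat_lit 1346) (nat_lit 102) (.e (nat_lit 286761) (nat_lit 13) (.e (nat_lit 393234) (nat_lit 17) (.e (nat_lit 7589) (nat_lit 406) (.e (nat_lit 65632) (nat_lit 15) (.e (nat_lit 6947) (nat_lit 377) .nil)))))) (.g (nat_lit 4) .nil .nil))))) (.nd (nat_lit 4) (.nd (nat_lit 5) 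
(.lf (nat_lit 49227) (.g (nat_lit 4240) (.e (nat_lit 1346) (nat_lit 102) (.e (nat_lit 286733) (nat_lit 2) (.e (nat_lit 90170) (nat_lit 13) (.e (nat_lit 172106) (nat_lit 10) (.e (nat_lit 434231) (nat_lit 23) (.e (nat_lit 532490) (nat_lit 0) (.e (nat_lit 6149) (nat_lit 332) .nil))))))) (.g (nat_lit 0) .nil .nil))) 
(.lf (nat_lit 49259) (.g (nat_lit 413) (.e (nat_lit 1346) (nat_lit 102) (.e (nat_lit 286761) (nat_lit 13) (.e (nat_lit 393234) (nat_lit 17) .nil))) .nil))) (.nd (nat_lit 5) 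
(.lf (nat_lit 49243) (.g (nat_lit 3782) (.e (nat_lit 1346) (nat_lit 102) (.e (nat_lit 286735) (nat_lit 3) (.e (nat_lit 98373) (nat_lit 29) (.e (nat_lit 450588) (nat_lit 10) (.e (nat_lit 573452) (nat_lit 9) (.e (nat_lit 11) (nat_lit 0) (.e (nat_lit 6965) (nat_lit 377) .nil))))))) (.g (nat_lit 4) .nil .nil))) 
(.lf (nat_lit 49275) (.g (nat_lit 807) (.e (nat_lit 1346) (nat_lit 102) (.e (nat_lit 286761) (nat_lit 13) (.e (nat_lit 393291) (nat_lit 26) .nil))) .nil))))) (.nd (nat_lit 3) (.nd (nat_lit 4) (.nd (nat_lit 5) 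
(.lf (nat_lit 49223) (.g (nat_lit 1154) (.e (nat_lit 1343) (nat_lit 101) (.e (nat_lit 278547) (nat_lit 8) (.e (nat_lit 303140) (nat_lit 10) (.e (nat_lit 434269) (nat_lit 36) (.e (nat_lit 639022) (nat_lit 17) (.e (nat_lit 73789) (nat_lit 45) .nil)))))) (.g (nat_lit 0) .nil .nil))) 
(.lf (nat_lit 49255) (.g (nat_lit 1985) (.e (nat_lit 1346) (nat_lit 102) (.e (nat_lit 286759) (nat_lit 12) (.e (nat_lit 385105) (nat_lit 50) (.e (nat_lit 786483) (nat_lit 30) (.e (nat_lit 360484) (nat_lit 15) (.e (nat_lit 647203) (nat_lit 14) .nil)))))) (.g (nat_lit 4) .nil .nil)))) (.nd (nat_lit 5) 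
(.lf (nat_lit 49239) (.g (nat_lit 788) (.e (nat_lit 1346) (nat_lit 102) (.e (nat_lit 286735) (nat_lit 3) (.e (nat_lit 98373) (nat_lit 29) .nil))) .nil)) 
(.lf (nat_lit 49271) (.g (nat_lit 2467) (.e (nat_lit 1346) (nat_lit 102) (.e (nat_lit 286761) (nat_lit 13) (.e (nat_lit 393234) (nat_lit 17) (.e (nat_lit 7936) (nat_lit 406) .nil)))) .nil)))) (.nd (nat_lit 4) (.nd (nat_lit 5) 
(.lf (nat_lit 49231) (.g (nat_lit 1219) (.e (nat_lit 1346) (nat_lit 102) (.e (nat_lit 286734) (nat_lit 3) (.e (nat_lit 98370) (nat_lit 28) (.e (nat_lit 442427) (nat_lit 23) .nil)))) .nil)) 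
(.lf (nat_lit 49263) (.g (nat_lit 1898) (.e (nat_lit 1346) (nat_lit 102) (.e (nat_lit 286761) (nat_lit 13) (.e (nat_lit 393234) (nat_lit 17) (.e (nat_lit 7587) (nat_lit 406) (.e (nat_lit 65632) (nat_lit 15) (.e (nat_lit 6953) (nat_lit 377) .nil)))))) (.g (nat_lit 4) .nil .nil)))) (.nd (nat_lit 5) 
(.lf (nat_lit 49247) (.g (nat_lit 1684) (.e (nat_lit 1346) (nat_lit 102) (.e (nat_lit 286759) (nat_lit 12) (.e (nat_lit 385074) (nat_lit 31) (.e (nat_lit 573456) (nat_lit 9) .nil)))) .nil)) 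
(.lf (nat_lit 49279) (.g (nat_lit 806) (.e (nat_lit 1346) (nat_lit 102) (.e (nat_lit 286761) (nat_lit 13) (.e (nat_lit 393298) (nat_lit 27) .nil))) .nil))))))))

noncomputable def tv685 : DT := (.nd (nat_lit 0) (.nd (nat_lit 1) (.nd (nat_lit 2) (.nd (nat_lit 3) (.nd (nat_lit 4) (.nd (nat_lit 5) (.nd (nat_lit 6) 
(.lf (nat_lit 49280) (.g (nat_lit 3929) (.e (nat_lit 1346) (nat_lit 102) (.e (nat_lit 286761) (nat_lit 13) (.e (nat_lit 393298) (nat_lit 27) (.e (nat_lit 491566) (nat_lit 12) (.e (nat_lit 385036) (nat_lit 16) .nil))))) .nil)) 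
(.lf (nat_lit 49344) (.g (nat_lit 554) (.e (nat_lit 1347) (nat_lit 102) (.e (nat_lit 286759) (nat_lit 12) (.e (nat_lit 385105) (nat_lit 50) .nil))) .nil))) (.nd (nat_lit 6) 
(.lf (nat_lit 49312) (.g (nat_lit 2477) (.e (nat_lit 1347) (nat_lit 102) (.e (nat_lit 286733) (nat_lit 2) (.e (nat_lit 90178) (nat_lit 15) (.e (nat_lit 188450) (nat_lit 23) .nil)))) .nil)) 
(.lf (nat_lit 49376) (.g (nat_lit 2064) (.e (nat_lit 1348) (nat_lit 102) (.e (nat_lit 286727) (nat_lit 0) (.e (nat_lit 1799) (nat_lit 119) (.e (nat_lit 516177) (nat_lit 14) (.e (nat_lit 466974) (nat_lit 22) (.e (nat_lit 196661) (nat_lit 12) (.e (nat_lit 57714) (nat_lit 176) .nil))))))) (.g (nat_lit 5) .nil .nil))))) (.nd (nat_lit 5) (.nd (nat_lit 6) 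
(.lf (nat_lit 49296) (.g (nat_lit 3425) (.e (nat_lit 1346) (nat_lit 102) (.e (nat_lit 286761) (nat_lit 13) (.e (nat_lit 393301) (nat_lit 27) (.e (nat_lit 491562) (nat_lit 12) .nil)))) .nil)) 
(.lf (nat_lit 49360) (.g (nat_lit 799) (.e (nat_lit 1347) (nat_lit 102) (.e (nat_lit 286761) (nat_lit 13) (.e (nat_lit 393296) (nat_lit 26) .nil))) .nil))) (.nd (nat_lit 6) 
(.lf (nat_lit 49328) (.g (nat_lit 700) (.e (nat_lit 1347) (nat_lit 102) (.e (nat_lit 286735) (nat_lit 3) (.e (nat_lit 98382) (nat_lit 31) .nil))) .nil)) 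
(.lf (nat_lit 49392) (.g (nat_lit 1883) (.e (nat_lit 1348) (nat_lit 102) (.e (nat_lit 286733) (nat_lit 2) (.e (nat_lit 90168) (nat_lit 13) (.e (nat_lit 172115) (nat_lit 10) (.e (nat_lit 434231) (nat_lit 23) (.e (nat_lit 532490) (nat_lit 0) (.e (nat_lit 6136) (nat_lit 332) .nil))))))) (.g (nat_lit 4) .nil .nil)))))) (.nd (nat_lit 4) (.nd (nat_lit 5) (.nd (nat_lit 6) 
(.lf (nat_lit 49288) (.g (nat_lit 3467) (.e (nat_lit 1346) (nat_lit 102) (.e (nat_lit 286761) (nat_lit 13) (.e (nat_lit 393301) (nat_lit 27) (.e (nat_lit 491552) (nat_lit 9) .nil)))) .nil)) 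
(.lf (nat_lit 49352) (.g (nat_lit 1505) (.e (nat_lit 1347) (nat_lit 102) (.e (nat_lit 286761) (nat_lit 13) (.e (nat_lit 393234) (nat_lit 17) (.e (nat_lit 7593) (nat_lit 407) .nil)))) .nil))) (.nd (nat_lit 6) 
(.lf (nat_lit 49320) (.g (nat_lit 2177) (.e (nat_lit 1347) (nat_lit 102) (.e (nat_lit 286735) (nat_lit 3) (.e (nat_lit 98370) (nat_lit 28) (.e (nat_lit 442424) (nat_lit 22) .nil)))) .nil)) 
(.lf (nat_lit 49384) (.g (nat_lit 4053) (.e (nat_lit 1348) (nat_lit 102) (.e (nat_lit 286732) (nat_lit 2) (.e (nat_lit 90170) (nat_lit 13) (.e (nat_lit 172106) (nat_lit 10) (.e (nat_lit 434231) (nat_lit 23) (.e (nat_lit 532490) (nat_lit 0) (.e (nat_lit 7936) (nat_lit 332) .nil))))))) (.g (nat_lit 6) .nil .nil))))) (.nd (nat_lit 5) (.nd (nat_lit 6) 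
(.lf (nat_lit 49304) (.g (nat_lit 4496) (.e (nat_lit 1347) (nat_lit 102) (.e (nat_lit 286733) (nat_lit 2) (.e (nat_lit 90170) (nat_lit 13) (.e (nat_lit 172106) (nat_lit 10) (.e (nat_lit 434231) (nat_lit 23) (.e (nat_lit 532490) (nat_lit 0) (.e (nat_lit 6136) (nat_lit 332) .nil))))))) (.g (nat_lit 7) .nil .nil))) 
(.lf (nat_lit 49368) (.g (nat_lit 4068) (.e (nat_lit 1347) (nat_lit 102) (.e (nat_lit 286761) (nat_lit 13) (.e (nat_lit 393301) (nat_lit 27) (.e (nat_lit 491559) (nat_lit 10) .nil)))) .nil))) (.nd (nat_lit 6) 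
(.lf (nat_lit 49336) (.g (nat_lit 1540) (.e (nat_lit 1347) (nat_lit 102) (.e (nat_lit 286759) (nat_lit 12) (.e (nat_lit 385074) (nat_lit 31) (.e (nat_lit 573484) (nat_lit 13) .nil)))) .nil)) 
(.lf (nat_lit 49400) (.g (nat_lit 1902) (.e (nat_lit 1348) (nat_lit 102) (.e (nat_lit 286733) (nat_lit 2) (.e (nat_lit 90169) (nat_lit 13) (.e (nat_lit 172094) (nat_lit 9) (.e (nat_lit 426140) (nat_lit 3) (.e (nat_lit 204821) (nat_lit 17) (.e (nat_lit 6126) (nat_lit 332) .nil))))))) (.g (nat_lit 4) .nil .nil))))))) (.nd (nat_lit 3) (.nd (nat_lit 4) (.nd (nat_lit 5) (.nd (nat_lit 6) 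
(.lf (nat_lit 49284) (.g (nat_lit 1794) (.e (nat_lit 1346) (nat_lit 102) (.e (nat_lit 286761) (nat_lit 13) (.e (nat_lit 393300) (nat_lit 27) (.e (nat_lit 491564) (nat_lit 12) .nil)))) .nil)) 
(.lf (nat_lit 49348) (.g (nat_lit 1703) (.e (nat_lit 1347) (nat_lit 102) (.e (nat_lit 286759) (nat_lit 12) (.e (nat_lit 385107) (nat_lit 51) (.e (nat_lit 794684) (nat_lit 25) .nil)))) .nil))) (.nd (nat_lit 6) 
(.lf (nat_lit 49316) (.g (nat_lit 2704) (.e (nat_lit 1347) (nat_lit 102) (.e (nat_lit 286735) (nat_lit 3) (.e (nat_lit 98356) (nat_lit 26) (.e (nat_lit 426270) (nat_lit 9) .nil)))) .nil)) 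
(.lf (nat_lit 49380) (.g (nat_lit 4628) (.e (nat_lit 1348) (nat_lit 102) (.e (nat_lit 286732) (nat_lit 2) (.e (nat_lit 90170) (nat_lit 13) (.e (nat_lit 172106) (nat_lit 10) (.e (nat_lit 434231) (nat_lit 23) (.e (nat_lit 532483) (nat_lit 0) (.e (nat_lit 7936) (nat_lit 332) .nil))))))) (.g (nat_lit 6) .nil .nil))))) (.nd (nat_lit 5) (.nd (nat_lit 6) 
(.lf (nat_lit 49300) (.g (nat_lit 2089) (.e (nat_lit 1347) (nat_lit 102) (.e (nat_lit 286732) (nat_lit 2) (.e (nat_lit 90170) (nat_lit 13) (.e (nat_lit 172106) (nat_lit 10) (.e (nat_lit 434231) (nat_lit 23) (.e (nat_lit 532490) (nat_lit 0) (.e (nat_lit 6149) (nat_lit 332) .nil))))))) (.g (nat_lit 4) .nil .nil))) 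
(.lf (nat_lit 49364) (.g (nat_lit 3912) (.e (nat_lit 1347) (nat_lit 102) (.e (nat_lit 286761) (nat_lit 13) (.e (nat_lit 393301) (nat_lit 27) (.e (nat_lit 491546) (nat_lit 9) .nil)))) .nil))) (.nd (nat_lit 6) 
(.lf (nat_lit 49332) (.g (nat_lit 2559) (.e (nat_lit 1347) (nat_lit 102) (.e (nat_lit 286749) (nat_lit 9) (.e (nat_lit 336028) (nat_lit 3) (.e (nat_lit 98367) (nat_lit 27) (.e (nat_lit 434275) (nat_lit 39) (.e (nat_lit 663585) (nat_lit 12) (.e (nat_lit 163977) (nat_lit 30) (.e (nat_lit 573503) (nat_lit 18) .nil)))))))) (.g (nat_lit 4) .nil .nil))) 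
(.lf (nat_lit 49396) (.g (nat_lit 2131) (.e (nat_lit 1348) (nat_lit 102) (.e (nat_lit 286733) (nat_lit 2) (.e (nat_lit 90169) (nat_lit 13) (.e (nat_lit 172085) (nat_lit 9) (.e (nat_lit 426140) (nat_lit 3) (.e (nat_lit 204821) (nat_lit 17) (.e (nat_lit 6126) (nat_lit 332) .nil))))))) (.g (nat_lit 4) .nil .nil)))))) (.nd (nat_lit 4) (.nd (nat_lit 5) (.nd (nat_lit 6) 
(.lf (nat_lit 49292) (.g (nat_lit 5024) (.e (nat_lit 1346) (nat_lit 102) (.e (nat_lit 286761) (nat_lit 13) (.e (nat_lit 393301) (nat_lit 27) (.e (nat_lit 491558) (nat_lit 10) (.e (nat_lit 344172) (nat_lit 41) .nil))))) .nil)) 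
(.lf (nat_lit 49356) (.g (nat_lit 1379) (.e (nat_lit 1347) (nat_lit 102) (.e (nat_lit 286761) (nat_lit 13) (.e (nat_lit 393284) (nat_lit 24) (.e (nat_lit 434274) (nat_lit 39) .nil)))) .nil))) (.nd (nat_lit 6) 
(.lf (nat_lit 49324) (.g (nat_lit 2846) (.e (nat_lit 1347) (nat_lit 102) (.e (nat_lit 286735) (nat_lit 3) (.e (nat_lit 98372) (nat_lit 29) (.e (nat_lit 450571) (nat_lit 1) .nil)))) .nil)) 
(.lf (nat_lit 49388) (.g (nat_lit 3572) (.e (nat_lit 1348) (nat_lit 102) (.e (nat_lit 286733) (nat_lit 2) (.e (nat_lit 90167) (nat_lit 13) (.e (nat_lit 172126) (nat_lit 14) (.e (nat_lit 491537) (nat_lit 2) (.e (nat_lit 90165) (nat_lit 12) (.e (nat_lit 171776) (nat_lit 176) .nil))))))) (.g (nat_lit 6) .nil .nil))))) (.nd (nat_lit 5) (.nd (nat_lit 6) 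
(.lf (nat_lit 49308) (.g (nat_lit 2826) (.e (nat_lit 1347) (nat_lit 102) (.e (nat_lit 286733) (nat_lit 2) (.e (nat_lit 90176) (nat_lit 15) (.e (nat_lit 188450) (nat_lit 23) (.e (nat_lit 204821) (nat_lit 17) .nil))))) .nil)) 
(.lf (nat_lit 49372) (.g (nat_lit 4415) (.e (nat_lit 1348) (nat_lit 102) (.e (nat_lit 286722) (nat_lit 0) (.e (nat_lit 1812) (nat_lit 120) (.e (nat_lit 524322) (nat_lit 12) (.e (nat_lit 450588) (nat_lit 10) (.e (nat_lit 573468) (nat_lit 10) (.e (nat_lit 16128) (nat_lit 180) .nil))))))) (.g (nat_lit 6) .nil .nil)))) (.nd (nat_lit 6) 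
(.lf (nat_lit 49340) (.g (nat_lit 2448) (.e (nat_lit 1347) (nat_lit 102) (.e (nat_lit 286759) (nat_lit 12) (.e (nat_lit 385074) (nat_lit 31) (.e (nat_lit 573493) (nat_lit 15) .nil)))) .nil)) 
(.lf (nat_lit 49404) (.g (nat_lit 2838) (.e (nat_lit 1348) (nat_lit 102) (.e (nat_lit 286733) (nat_lit 2) (.e (nat_lit 90169) (nat_lit 13) (.e (nat_lit 172097) (nat_lit 9) (.e (nat_lit 426125) (nat_lit 2) (.e (nat_lit 196661) (nat_lit 12) (.e (nat_lit 57713) (nat_lit 176) .nil))))))) (.g (nat_lit 5) .nil .nil)))))))) 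
(.nd (nat_lit 2) (.nd (nat_lit 3) (.nd (nat_lit 4) (.nd (nat_lit 5) (.nd (nat_lit 6) 
(.lf (nat_lit 49282) (.g (nat_lit 659) (.e (nat_lit 1346) (nat_lit 102) (.e (nat_lit 286761) (nat_lit 13) (.e (nat_lit 393300) (nat_lit 27) .nil))) .nil)) 
(.lf (nat_lit 49346) (.g (nat_lit 1776) (.e (nat_lit 1347) (nat_lit 102) (.e (nat_lit 286759) (nat_lit 12) (.e (nat_lit 385106) (nat_lit 50) (.e (nat_lit 786483) (nat_lit 30) (.e (nat_lit 360483) (nat_lit 15) .nil))))) .nil))) (.nd (nat_lit 6) 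
(.lf (nat_lit 49314) (.g (nat_lit 2149) (.e (nat_lit 1347) (nat_lit 102) (.e (nat_lit 286734) (nat_lit 3) (.e (nat_lit 98370) (nat_lit 28) (.e (nat_lit 442427) (nat_lit 23) (.e (nat_lit 204821) (nat_lit 17) .nil))))) .nil)) 
(.lf (nat_lit 49378) (.g (nat_lit 3642) (.e (nat_lit 1348) (nat_lit 102) (.e (nat_lit 286731) (nat_lit 1) (.e (nat_lit 57849) (nat_lit 252) (.e (nat_lit 57372) (nat_lit 2) (.e (nat_lit 90160) (nat_lit 11) (.e (nat_lit 24617) (nat_lit 7) (.e (nat_lit 319521) (nat_lit 13) (.e (nat_lit 49202) (nat_lit 14) .nil)))))))) (.g (nat_lit 4) .nil .nil))))) (.nd (nat_lit 5) (.nd (nat_lit 6) 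
(.lf (nat_lit 49298) (.g (nat_lit 1985) (.e (nat_lit 1347) (nat_lit 102) (.e (nat_lit 286732) (nat_lit 2) (.e (nat_lit 90170) (nat_lit 13) (.e (nat_lit 172106) (nat_lit 10) (.e (nat_lit 434231) (nat_lit 23) (.e (nat_lit 532490) (nat_lit 0) (.e (nat_lit 6126) (nat_lit 332) .nil))))))) (.g (nat_lit 4) .nil .nil))) 
(.lf (nat_lit 49362) (.g (nat_lit 722) (.e (nat_lit 1347) (nat_lit 102) (.e (nat_lit 286761) (nat_lit 13) (.e (nat_lit 393300) (nat_lit 27) .nil))) .nil))) (.nd (nat_lit 6) 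
(.lf (nat_lit 49330) (.g (nat_lit 2778) (.e (nat_lit 1347) (nat_lit 102) (.e (nat_lit 286749) (nat_lit 9) (.e (nat_lit 336028) (nat_lit 3) (.e (nat_lit 98366) (nat_lit 27) (.e (nat_lit 434275) (nat_lit 39) (.e (nat_lit 663584) (nat_lit 12) (.e (nat_lit 163976) (nat_lit 30) (.e (nat_lit 573503) (nat_lit 18) .nil)))))))) (.g (nat_lit 5) .nil .nil))) 
(.lf (nat_lit 49394) (.g (nat_lit 293) (.e (nat_lit 1348) (nat_lit 102) (.e (nat_lit 286733) (nat_lit 2) (.e (nat_lit 90169) (nat_lit 13) .nil))) .nil))))) (.nd (nat_lit 4) (.nd (nat_lit 5) (.nd (nat_lit 6) 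
(.lf (nat_lit 49290) (.g (nat_lit 3163) (.e (nat_lit 1346) (nat_lit 102) (.e (nat_lit 286761) (nat_lit 13) (.e (nat_lit 393301) (nat_lit 27) (.e (nat_lit 491556) (nat_lit 9) .nil)))) .nil)) 
(.lf (nat_lit 49354) (.g (nat_lit 794) (.e (nat_lit 1347) (nat_lit 102) (.e (nat_lit 286761) (nat_lit 13) (.e (nat_lit 393283) (nat_lit 24) .nil))) .nil))) (.nd (nat_lit 6) 
(.lf (nat_lit 49322) (.g (nat_lit 1450) (.e (nat_lit 1347) (nat_lit 102) (.e (nat_lit 286735) (nat_lit 3) (.e (nat_lit 98371) (nat_lit 28) (.e (nat_lit 442424) (nat_lit 22) .nil)))) .nil)) 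
(.lf (nat_lit 49386) (.g (nat_lit 4124) (.e (nat_lit 1348) (nat_lit 102) (.e (nat_lit 286732) (nat_lit 2) (.e (nat_lit 90170) (nat_lit 13) (.e (nat_lit 172113) (nat_lit 10) (.e (nat_lit 434245) (nat_lit 28) (.e (nat_lit 573468) (nat_lit 10) (.e (nat_lit 16128) (nat_lit 180) .nil))))))) (.g (nat_lit 6) .nil .nil))))) (.nd (nat_lit 5) (.nd (nat_lit 6) 
(.lf (nat_lit 49306) (.g (nat_lit 3818) (.e (nat_lit 1347) (nat_lit 102) (.e (nat_lit 286733) (nat_lit 2) (.e (nat_lit 90170) (nat_lit 13) (.e (nat_lit 172115) (nat_lit 10) (.e (nat_lit 434231) (nat_lit 23) (.e (nat_lit 532490) (nat_lit 0) (.e (nat_lit 6136) (nat_lit 332) .nil))))))) (.g (nat_lit 4) .nil .nil))) 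
(.lf (nat_lit 49370) (.g (nat_lit 3763) (.e (nat_lit 1347) (nat_lit 102) (.e (nat_lit 286761) (nat_lit 13) (.e (nat_lit 393301) (nat_lit 27) (.e (nat_lit 491562) (nat_lit 12) .nil)))) .nil))) (.nd (nat_lit 6) 
(.lf (nat_lit 49338) (.g (nat_lit 2683) (.e (nat_lit 1347) (nat_lit 102) (.e (nat_lit 286759) (nat_lit 12) (.e (nat_lit 385074) (nat_lit 31) (.e (nat_lit 573491) (nat_lit 15) .nil)))) .nil)) 
(.lf (nat_lit 49402) (.g (nat_lit 1631) (.e (nat_lit 1348) (nat_lit 102) (.e (nat_lit 286733) (nat_lit 2) (.e (nat_lit 90169) (nat_lit 13) (.e (nat_lit 172094) (nat_lit 9) (.e (nat_lit 426140) (nat_lit 3) (.e (nat_lit 204821) (nat_lit 17) (.e (nat_lit 7936) (nat_lit 332) .nil))))))) (.g (nat_lit 4) .nil .nil))))))) (.nd (nat_lit 3) (.nd (nat_lit 4) (.nd (nat_lit 5) (.nd (nat_lit 6) 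
(.lf (nat_lit 49286) (.g (nat_lit 3020) (.e (nat_lit 1346) (nat_lit 102) (.e (nat_lit 286761) (nat_lit 13) (.e (nat_lit 393301) (nat_lit 27) (.e (nat_lit 491547) (nat_lit 9) .nil)))) .nil)) 
(.lf (nat_lit 49350) (.g (nat_lit 621) (.e (nat_lit 1347) (nat_lit 102) (.e (nat_lit 286761) (nat_lit 13) (.e (nat_lit 393234) (nat_lit 17) .nil))) .nil))) (.nd (nat_lit 6) 
(.lf (nat_lit 49318) (.g (nat_lit 2530) (.e (nat_lit 1347) (nat_lit 102) (.e (nat_lit 286735) (nat_lit 3) (.e (nat_lit 98359) (nat_lit 26) (.e (nat_lit 426212) (nat_lit 9) .nil)))) .nil)) 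
(.lf (nat_lit 49382) (.g (nat_lit 3728) (.e (nat_lit 1348) (nat_lit 102) (.e (nat_lit 286732) (nat_lit 2) (.e (nat_lit 90170) (nat_lit 13) (.e (nat_lit 172106) (nat_lit 10) (.e (nat_lit 434231) (nat_lit 23) (.e (nat_lit 532490) (nat_lit 0) (.e (nat_lit 6147) (nat_lit 332) .nil))))))) (.g (nat_lit 5) .nil .nil))))) (.nd (nat_lit 5) (.nd (nat_lit 6) 
(.lf (nat_lit 49302) (.g (nat_lit 2520) (.e (nat_lit 1347) (nat_lit 102) (.e (nat_lit 286733) (nat_lit 2) (.e (nat_lit 90170) (nat_lit 13) (.e (nat_lit 172095) (nat_lit 9) .nil)))) .nil)) 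
(.lf (nat_lit 49366) (.g (nat_lit 3610) (.e (nat_lit 1347) (nat_lit 102) (.e (nat_lit 286761) (nat_lit 13) (.e (nat_lit 393301) (nat_lit 27) (.e (nat_lit 491556) (nat_lit 9) .nil)))) .nil))) (.nd (nat_lit 6) 
(.lf (nat_lit 49334) (.g (nat_lit 3378) (.e (nat_lit 1347) (nat_lit 102) (.e (nat_lit 286759) (nat_lit 12) (.e (nat_lit 385074) (nat_lit 31) (.e (nat_lit 573482) (nat_lit 13) .nil)))) .nil)) 
(.lf (nat_lit 49398) (.g (nat_lit 1870) (.e (nat_lit 1348) (nat_lit 102) (.e (nat_lit 286733) (nat_lit 2) (.e (nat_lit 90169) (nat_lit 13) (.e (nat_lit 172085) (nat_lit 9) (.e (nat_lit 426140) (nat_lit 3) (.e (nat_lit 204821) (nat_lit 17) (.e (nat_lit 7936) (nat_lit 332) .nil))))))) (.g (nat_lit 5) .nil .nil)))))) (.nd (nat_lit 4) (.nd (nat_lit 5) (.nd (nat_lit 6) 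
(.lf (nat_lit 49294) (.g (nat_lit 3445) (.e (nat_lit 1346) (nat_lit 102) (.e (nat_lit 286761) (nat_lit 13) (.e (nat_lit 393301) (nat_lit 27) (.e (nat_lit 491560) (nat_lit 10) .nil)))) .nil)) 
(.lf (nat_lit 49358) (.g (nat_lit 589) (.e (nat_lit 1347) (nat_lit 102) (.e (nat_lit 286761) (nat_lit 13) (.e (nat_lit 393289) (nat_lit 25) .nil))) .nil))) (.nd (nat_lit 6) 
(.lf (nat_lit 49326) (.g (nat_lit 2826) (.e (nat_lit 1347) (nat_lit 102) (.e (nat_lit 286735) (nat_lit 3) (.e (nat_lit 98373) (nat_lit 29) (.e (nat_lit 458496) (nat_lit 1) .nil)))) .nil)) 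
(.lf (nat_lit 49390) (.g (nat_lit 415) (.e (nat_lit 1348) (nat_lit 102) (.e (nat_lit 286733) (nat_lit 2) (.e (nat_lit 90168) (nat_lit 13) .nil))) .nil)))) (.nd (nat_lit 5) (.nd (nat_lit 6) 
(.lf (nat_lit 49310) (.g (nat_lit 2266) (.e (nat_lit 1347) (nat_lit 102) (.e (nat_lit 286733) (nat_lit 2) (.e (nat_lit 90178) (nat_lit 15) (.e (nat_lit 188448) (nat_lit 22) .nil)))) .nil)) 
(.lf (nat_lit 49374) (.g (nat_lit 2102) (.e (nat_lit 1348) (nat_lit 102) (.e (nat_lit 286727) (nat_lit 0) (.e (nat_lit 1799) (nat_lit 119) (.e (nat_lit 516166) (nat_lit 12) (.e (nat_lit 458496) (nat_lit 1) (.e (nat_lit 500056) (nat_lit 17) (.e (nat_lit 57713) (nat_lit 176) .nil))))))) (.g (nat_lit 4) .nil .nil)))) (.nd (nat_lit 6) 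
(.lf (nat_lit 49342) (.g (nat_lit 3752) (.e (nat_lit 1347) (nat_lit 102) (.e (nat_lit 286759) (nat_lit 12) (.e (nat_lit 385074) (nat_lit 31) (.e (nat_lit 573493) (nat_lit 15) (.e (nat_lit 81962) (nat_lit 25) .nil))))) .nil)) 
(.lf (nat_lit 49406) (.g (nat_lit 2345) (.e (nat_lit 1348) (nat_lit 102) (.e (nat_lit 286733) (nat_lit 2) (.e (nat_lit 90169) (nat_lit 13) (.e (nat_lit 172103) (nat_lit 9) (.e (nat_lit 426124) (nat_lit 2) (.e (nat_lit 196677) (nat_lit 16) (.e (nat_lit 130816) (nat_lit 176) .nil))))))) (.g (nat_lit 6) .nil .nil))))))))) 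
(.nd (nat_lit 1) (.nd (nat_lit 2) (.nd (nat_lit 3) (.nd (nat_lit 4) (.nd (nat_lit 5) 
(.nd (nat_lit 6) 
(.lf (nat_lit 49281) (.g (nat_lit 901) (.e (nat_lit 1346) (nat_lit 102) (.e (nat_lit 286761) (nat_lit 13) (.e (nat_lit 393299) (nat_lit 27) .nil))) .nil)) 
(.lf (nat_lit 49345) (.g (nat_lit 1495) (.e (nat_lit 1347) (nat_lit 102) (.e (nat_lit 286759) (nat_lit 12) (.e (nat_lit 385105) (nat_lit 50) (.e (nat_lit 786483) (nat_lit 30) .nil)))) .nil))) (.nd (nat_lit 6) 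
(.lf (nat_lit 49313) (.g (nat_lit 2117) (.e (nat_lit 1347) (nat_lit 102) (.e (nat_lit 286734) (nat_lit 3) (.e (nat_lit 98370) (nat_lit 28) (.e (nat_lit 442424) (nat_lit 22) (.e (nat_lit 196661) (nat_lit 12) .nil))))) .nil)) 
(.lf (nat_lit 49377) (.g (nat_lit 1846) (.e (nat_lit 1348) (nat_lit 102) (.e (nat_lit 286727) (nat_lit 0) (.e (nat_lit 1799) (nat_lit 119) (.e (nat_lit 516177) (nat_lit 14) (.e (nat_lit 466977) (nat_lit 22) (.e (nat_lit 196677) (nat_lit 16) (.e (nat_lit 130816) (nat_lit 176) .nil))))))) (.g (nat_lit 6) .nil .nil))))) (.nd (nat_lit 5) (.nd (nat_lit 6) 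
(.lf (nat_lit 49297) (.g (nat_lit 3570) (.e (nat_lit 1346) (nat_lit 102) (.e (nat_lit 286761) (nat_lit 13) (.e (nat_lit 393301) (nat_lit 27) (.e (nat_lit 491563) (nat_lit 12) .nil)))) .nil)) 
(.lf (nat_lit 49361) (.g (nat_lit 2046) (.e (nat_lit 1347) (nat_lit 102) (.e (nat_lit 286761) (nat_lit 13) (.e (nat_lit 393299) (nat_lit 27) (.e (nat_lit 491563) (nat_lit 12) .nil)))) .nil))) (.nd (nat_lit 6) 
(.lf (nat_lit 49329) (.g (nat_lit 1750) (.e (nat_lit 1347) (nat_lit 102) (.e (nat_lit 286748) (nat_lit 9) (.e (nat_lit 336295) (nat_lit 15) (.e (nat_lit 7936) (nat_lit 195) .nil)))) .nil)) 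
(.lf (nat_lit 49393) (.g (nat_lit 2694) (.e (nat_lit 1348) (nat_lit 102) (.e (nat_lit 286733) (nat_lit 2) (.e (nat_lit 90168) (nat_lit 13) (.e (nat_lit 172115) (nat_lit 10) (.e (nat_lit 434231) (nat_lit 23) (.e (nat_lit 532490) (nat_lit 0) (.e (nat_lit 7936) (nat_lit 332) .nil))))))) (.g (nat_lit 6) .nil .nil)))))) (.nd (nat_lit 4) (.nd (nat_lit 5) (.nd (nat_lit 6) 
(.lf (nat_lit 49289) (.g (nat_lit 3921) (.e (nat_lit 1346) (nat_lit 102) (.e (nat_lit 286761) (nat_lit 13) (.e (nat_lit 393301) (nat_lit 27) (.e (nat_lit 491552) (nat_lit 9) (.e (nat_lit 336250) (nat_lit 15) .nil))))) .nil)) 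
(.lf (nat_lit 49353) (.g (nat_lit 586) (.e (nat_lit 1347) (nat_lit 102) (.e (nat_lit 286761) (nat_lit 13) (.e (nat_lit 393265) (nat_lit 22) .nil))) .nil))) (.nd (nat_lit 6) 
(.lf (nat_lit 49321) (.g (nat_lit 826) (.e (nat_lit 1347) (nat_lit 102) (.e (nat_lit 286735) (nat_lit 3) (.e (nat_lit 98371) (nat_lit 28) .nil))) .nil)) 
(.lf (nat_lit 49385) (.g (nat_lit 4293) (.e (nat_lit 1348) (nat_lit 102) (.e (nat_lit 286732) (nat_lit 2) (.e (nat_lit 90170) (nat_lit 13) (.e (nat_lit 172106) (nat_lit 10) (.e (nat_lit 434244) (nat_lit 28) (.e (nat_lit 573468) (nat_lit 10) (.e (nat_lit 16128) (nat_lit 180) .nil))))))) (.g (nat_lit 6) .nil .nil))))) (.nd (nat_lit 5) (.nd (nat_lit 6) 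
(.lf (nat_lit 49305) (.g (nat_lit 2647) (.e (nat_lit 1347) (nat_lit 102) (.e (nat_lit 286733) (nat_lit 2) (.e (nat_lit 90170) (nat_lit 13) (.e (nat_lit 172106) (nat_lit 10) (.e (nat_lit 434231) (nat_lit 23) (.e (nat_lit 532490) (nat_lit 0) (.e (nat_lit 6149) (nat_lit 332) .nil))))))) (.g (nat_lit 4) .nil .nil))) 
(.lf (nat_lit 49369) (.g (nat_lit 3814) (.e (nat_lit 1347) (nat_lit 102) (.e (nat_lit 286761) (nat_lit 13) (.e (nat_lit 393301) (nat_lit 27) (.e (nat_lit 491560) (nat_lit 10) .nil)))) .nil))) (.nd (nat_lit 6) 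
(.lf (nat_lit 49337) (.g (nat_lit 2587) (.e (nat_lit 1347) (nat_lit 102) (.e (nat_lit 286759) (nat_lit 12) (.e (nat_lit 385074) (nat_lit 31) (.e (nat_lit 573490) (nat_lit 15) .nil)))) .nil)) 
(.lf (nat_lit 49401) (.g (nat_lit 1786) (.e (nat_lit 1348) (nat_lit 102) (.e (nat_lit 286733) (nat_lit 2) (.e (nat_lit 90169) (nat_lit 13) (.e (nat_lit 172094) (nat_lit 9) (.e (nat_lit 426140) (nat_lit 3) (.e (nat_lit 204821) (nat_lit 17) (.e (nat_lit 6136) (nat_lit 332) .nil))))))) (.g (nat_lit 4) .nil .nil))))))) (.nd (nat_lit 3) (.nd (nat_lit 4) (.nd (nat_lit 5) (.nd (nat_lit 6) 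
(.lf (nat_lit 49285) (.g (nat_lit 3548) (.e (nat_lit 1346) (nat_lit 102) (.e (nat_lit 286761) (nat_lit 13) (.e (nat_lit 393301) (nat_lit 27) (.e (nat_lit 491546) (nat_lit 9) .nil)))) .nil)) 
(.lf (nat_lit 49349) (.g (nat_lit 796) (.e (nat_lit 1347) (nat_lit 102) (.e (nat_lit 286761) (nat_lit 13) (.e (nat_lit 393223) (nat_lit 0) .nil))) .nil))) (.nd (nat_lit 6) 
(.lf (nat_lit 49317) (.g (nat_lit 2542) (.e (nat_lit 1347) (nat_lit 102) (.e (nat_lit 286735) (nat_lit 3) (.e (nat_lit 98359) (nat_lit 26) (.e (nat_lit 426185) (nat_lit 9) .nil)))) .nil)) 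
(.lf (nat_lit 49381) (.g (nat_lit 3561) (.e (nat_lit 1348) (nat_lit 102) (.e (nat_lit 286732) (nat_lit 2) (.e (nat_lit 90170) (nat_lit 13) (.e (nat_lit 172106) (nat_lit 10) (.e (nat_lit 434231) (nat_lit 23) (.e (nat_lit 532490) (nat_lit 0) (.e (nat_lit 6136) (nat_lit 332) .nil))))))) (.g (nat_lit 5) .nil .nil))))) (.nd (nat_lit 5) (.nd (nat_lit 6) 
(.lf (nat_lit 49301) (.g (nat_lit 3317) (.e (nat_lit 1347) (nat_lit 102) (.e (nat_lit 286733) (nat_lit 2) (.e (nat_lit 90170) (nat_lit 13) (.e (nat_lit 172094) (nat_lit 9) .nil)))) .nil)) 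
(.lf (nat_lit 49365) (.g (nat_lit 4389) (.e (nat_lit 1347) (nat_lit 102) (.e (nat_lit 286761) (nat_lit 13) (.e (nat_lit 393301) (nat_lit 27) (.e (nat_lit 491552) (nat_lit 9) .nil)))) .nil))) (.nd (nat_lit 6) 
(.lf (nat_lit 49333) (.g (nat_lit 1965) (.e (nat_lit 1347) (nat_lit 102) (.e (nat_lit 286759) (nat_lit 12) (.e (nat_lit 385074) (nat_lit 31) (.e (nat_lit 573456) (nat_lit 9) .nil)))) .nil)) 
(.lf (nat_lit 49397) (.g (nat_lit 2015) (.e (nat_lit 1348) (nat_lit 102) (.e (nat_lit 286733) (nat_lit 2) (.e (nat_lit 90169) (nat_lit 13) (.e (nat_lit 172085) (nat_lit 9) (.e (nat_lit 426140) (nat_lit 3) (.e (nat_lit 204821) (nat_lit 17) (.e (nat_lit 6136) (nat_lit 332) .nil))))))) (.g (nat_lit 4) .nil .nil)))))) (.nd (nat_lit 4) (.nd (nat_lit 5) (.nd (nat_lit 6) 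
(.lf (nat_lit 49293) (.g (nat_lit 4131) (.e (nat_lit 1346) (nat_lit 102) (.e (nat_lit 286761) (nat_lit 13) (.e (nat_lit 393301) (nat_lit 27) (.e (nat_lit 491559) (nat_lit 10) .nil)))) .nil)) 
(.lf (nat_lit 49357) (.g (nat_lit 2449) (.e (nat_lit 1347) (nat_lit 102) (.e (nat_lit 286761) (nat_lit 13) (.e (nat_lit 393284) (nat_lit 24) (.e (nat_lit 434276) (nat_lit 39) (.e (nat_lit 663565) (nat_lit 3) (.e (nat_lit 57713) (nat_lit 176) .nil)))))) (.g (nat_lit 0) .nil .nil)))) (.nd (nat_lit 6) 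
(.lf (nat_lit 49325) (.g (nat_lit 2757) (.e (nat_lit 1347) (nat_lit 102) (.e (nat_lit 286735) (nat_lit 3) (.e (nat_lit 98372) (nat_lit 29) (.e (nat_lit 450579) (nat_lit 5) .nil)))) .nil)) 
(.lf (nat_lit 49389) (.g (nat_lit 3282) (.e (nat_lit 1348) (nat_lit 102) (.e (nat_lit 286733) (nat_lit 2) (.e (nat_lit 90167) (nat_lit 13) (.e (nat_lit 172126) (nat_lit 14) (.e (nat_lit 491540) (nat_lit 3) (.e (nat_lit 98320) (nat_lit 17) (.e (nat_lit 7065) (nat_lit 377) .nil))))))) (.g (nat_lit 6) .nil .nil))))) (.nd (nat_lit 5) (.nd (nat_lit 6) 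
(.lf (nat_lit 49309) (.g (nat_lit 2293) (.e (nat_lit 1347) (nat_lit 102) (.e (nat_lit 286733) (nat_lit 2) (.e (nat_lit 90178) (nat_lit 15) (.e (nat_lit 188447) (nat_lit 22) .nil)))) .nil)) 
(.lf (nat_lit 49373) (.g (nat_lit 3877) (.e (nat_lit 1348) (nat_lit 102) (.e (nat_lit 286727) (nat_lit 0) (.e (nat_lit 1799) (nat_lit 119) (.e (nat_lit 516151) (nat_lit 9) (.e (nat_lit 426211) (nat_lit 9) (.e (nat_lit 426125) (nat_lit 2) (.e (nat_lit 204544) (nat_lit 12) (.e (nat_lit 57713) (nat_lit 176) .nil)))))))) (.g (nat_lit 5) .nil .nil)))) (.nd (nat_lit 6) 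
(.lf (nat_lit 49341) (.g (nat_lit 3347) (.e (nat_lit 1347) (nat_lit 102) (.e (nat_lit 286759) (nat_lit 12) (.e (nat_lit 385074) (nat_lit 31) (.e (nat_lit 573493) (nat_lit 15) (.e (nat_lit 81953) (nat_lit 22) .nil))))) .nil)) 
(.lf (nat_lit 49405) (.g (nat_lit 1743) (.e (nat_lit 1348) (nat_lit 102) (.e (nat_lit 286733) (nat_lit 2) (.e (nat_lit 90169) (nat_lit 13) (.e (nat_lit 172103) (nat_lit 9) (.e (nat_lit 426114) (nat_lit 2) (.e (nat_lit 196677) (nat_lit 16) (.e (nat_lit 130816) (nat_lit 176) .nil))))))) (.g (nat_lit 6) .nil .nil)))))))) 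
(.nd (nat_lit 2) (.nd (nat_lit 3) (.nd (nat_lit 4) (.nd (nat_lit 5) (.nd (nat_lit 6) 
(.lf (nat_lit 49283) (.g (nat_lit 1903) (.e (nat_lit 1346) (nat_lit 102) (.e (nat_lit 286761) (nat_lit 13) (.e (nat_lit 393300) (nat_lit 27) (.e (nat_lit 491552) (nat_lit 9) .nil)))) .nil)) 
(.lf (nat_lit 49347) (.g (nat_lit 1926) (.e (nat_lit 1347) (nat_lit 102) (.e (nat_lit 286759) (nat_lit 12) (.e (nat_lit 385107) (nat_lit 51) (.e (nat_lit 794683) (nat_lit 25) .nil)))) .nil))) (.nd (nat_lit 6) 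
(.lf (nat_lit 49315) (.g (nat_lit 935) (.e (nat_lit 1347) (nat_lit 102) (.e (nat_lit 286735) (nat_lit 3) (.e (nat_lit 98356) (nat_lit 26) .nil))) .nil)) 
(.lf (nat_lit 49379) (.g (nat_lit 3360) (.e (nat_lit 1348) (nat_lit 102) (.e (nat_lit 286732) (nat_lit 2) (.e (nat_lit 90170) (nat_lit 13) (.e (nat_lit 172106) (nat_lit 10) (.e (nat_lit 434231) (nat_lit 23) (.e (nat_lit 532482) (nat_lit 0) (.e (nat_lit 6192) (nat_lit 332) .nil))))))) (.g (nat_lit 5) .nil .nil))))) (.nd (nat_lit 5) (.nd (nat_lit 6) 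
(.lf (nat_lit 49299) (.g (nat_lit 3858) (.e (nat_lit 1347) (nat_lit 102) (.e (nat_lit 286732) (nat_lit 2) (.e (nat_lit 90170) (nat_lit 13) (.e (nat_lit 172106) (nat_lit 10) (.e (nat_lit 434231) (nat_lit 23) (.e (nat_lit 532490) (nat_lit 0) (.e (nat_lit 6136) (nat_lit 332) .nil))))))) (.g (nat_lit 7) .nil .nil))) 
(.lf (nat_lit 49363) (.g (nat_lit 489) (.e (nat_lit 1347) (nat_lit 102) (.e (nat_lit 286761) (nat_lit 13) (.e (nat_lit 393301) (nat_lit 27) .nil))) .nil))) (.nd (nat_lit 6) 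
(.lf (nat_lit 49331) (.g (nat_lit 2091) (.e (nat_lit 1347) (nat_lit 102) (.e (nat_lit 286749) (nat_lit 9) (.e (nat_lit 336028) (nat_lit 3) (.e (nat_lit 98366) (nat_lit 27) (.e (nat_lit 434275) (nat_lit 39) (.e (nat_lit 663585) (nat_lit 12) (.e (nat_lit 163977) (nat_lit 30) (.e (nat_lit 573503) (nat_lit 18) .nil)))))))) (.g (nat_lit 4) .nil .nil))) 
(.lf (nat_lit 49395) (.g (nat_lit 2249) (.e (nat_lit 1348) (nat_lit 102) (.e (nat_lit 286733) (nat_lit 2) (.e (nat_lit 90169) (nat_lit 13) (.e (nat_lit 172085) (nat_lit 9) (.e (nat_lit 426140) (nat_lit 3) (.e (nat_lit 204821) (nat_lit 17) (.e (nat_lit 6092) (nat_lit 332) .nil))))))) (.g (nat_lit 5) .nil .nil)))))) (.nd (nat_lit 4) (.nd (nat_lit 5) (.nd (nat_lit 6) 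
(.lf (nat_lit 49291) (.g (nat_lit 3735) (.e (nat_lit 1346) (nat_lit 102) (.e (nat_lit 286761) (nat_lit 13) (.e (nat_lit 393301) (nat_lit 27) (.e (nat_lit 491558) (nat_lit 10) .nil)))) .nil)) 
(.lf (nat_lit 49355) (.g (nat_lit 1262) (.e (nat_lit 1347) (nat_lit 102) (.e (nat_lit 286761) (nat_lit 13) (.e (nat_lit 393283) (nat_lit 24) (.e (nat_lit 434275) (nat_lit 39) .nil)))) .nil))) (.nd (nat_lit 6) 
(.lf (nat_lit 49323) (.g (nat_lit 904) (.e (nat_lit 1347) (nat_lit 102) (.e (nat_lit 286735) (nat_lit 3) (.e (nat_lit 98372) (nat_lit 29) .nil))) .nil)) 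
(.lf (nat_lit 49387) (.g (nat_lit 4197) (.e (nat_lit 1348) (nat_lit 102) (.e (nat_lit 286733) (nat_lit 2) (.e (nat_lit 90167) (nat_lit 13) (.e (nat_lit 172106) (nat_lit 10) (.e (nat_lit 434231) (nat_lit 23) (.e (nat_lit 532483) (nat_lit 0) (.e (nat_lit 7936) (nat_lit 332) .nil))))))) (.g (nat_lit 5) .nil .nil))))) (.nd (nat_lit 5) (.nd (nat_lit 6) 
(.lf (nat_lit 49307) (.g (nat_lit 2399) (.e (nat_lit 1347) (nat_lit 102) (.e (nat_lit 286733) (nat_lit 2) (.e (nat_lit 90176) (nat_lit 15) (.e (nat_lit 188449) (nat_lit 22) .nil)))) .nil)) 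
(.lf (nat_lit 49371) (.g (nat_lit 3450) (.e (nat_lit 1347) (nat_lit 102) (.e (nat_lit 286761) (nat_lit 13) (.e (nat_lit 393301) (nat_lit 27) (.e (nat_lit 491563) (nat_lit 12) (.e (nat_lit 392960) (nat_lit 16) .nil))))) .nil))) (.nd (nat_lit 6) 
(.lf (nat_lit 49339) (.g (nat_lit 2983) (.e (nat_lit 1347) (nat_lit 102) (.e (nat_lit 286759) (nat_lit 12) (.e (nat_lit 385074) (nat_lit 31) (.e (nat_lit 573492) (nat_lit 15) .nil)))) .nil)) 
(.lf (nat_lit 49403) (.g (nat_lit 2658) (.e (nat_lit 1348) (nat_lit 102) (.e (nat_lit 286733) (nat_lit 2) (.e (nat_lit 90169) (nat_lit 13) (.e (nat_lit 172097) (nat_lit 9) (.e (nat_lit 426125) (nat_lit 2) (.e (nat_lit 196661) (nat_lit 12) (.e (nat_lit 57711) (nat_lit 176) .nil))))))) (.g (nat_lit 5) .nil .nil))))))) (.nd (nat_lit 3) (.nd (nat_lit 4) (.nd (nat_lit 5) (.nd (nat_lit 6) 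
(.lf (nat_lit 49287) (.g (nat_lit 3639) (.e (nat_lit 1346) (nat_lit 102) (.e (nat_lit 286761) (nat_lit 13) (.e (nat_lit 393301) (nat_lit 27) (.e (nat_lit 491551) (nat_lit 9) .nil)))) .nil)) 
(.lf (nat_lit 49351) (.g (nat_lit 1558) (.e (nat_lit 1347) (nat_lit 102) (.e (nat_lit 286761) (nat_lit 13) (.e (nat_lit 393234) (nat_lit 17) (.e (nat_lit 7591) (nat_lit 407) .nil)))) .nil))) (.nd (nat_lit 6) 
(.lf (nat_lit 49319) (.g (nat_lit 2025) (.e (nat_lit 1347) (nat_lit 102) (.e (nat_lit 286735) (nat_lit 3) (.e (nat_lit 98369) (nat_lit 28) (.e (nat_lit 442424) (nat_lit 22) .nil)))) .nil)) 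
(.lf (nat_lit 49383) (.g (nat_lit 2429) (.e (nat_lit 1348) (nat_lit 102) (.e (nat_lit 286732) (nat_lit 2) (.e (nat_lit 90170) (nat_lit 13) (.e (nat_lit 172106) (nat_lit 10) (.e (nat_lit 434231) (nat_lit 23) (.e (nat_lit 532490) (nat_lit 0) (.e (nat_lit 6149) (nat_lit 332) .nil))))))) (.g (nat_lit 4) .nil .nil))))) (.nd (nat_lit 5) (.nd (nat_lit 6) 
(.lf (nat_lit 49303) (.g (nat_lit 3213) (.e (nat_lit 1347) (nat_lit 102) (.e (nat_lit 286733) (nat_lit 2) (.e (nat_lit 90170) (nat_lit 13) (.e (nat_lit 172097) (nat_lit 9) .nil)))) .nil)) 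
(.lf (nat_lit 49367) (.g (nat_lit 3857) (.e (nat_lit 1347) (nat_lit 102) (.e (nat_lit 286761) (nat_lit 13) (.e (nat_lit 393301) (nat_lit 27) (.e (nat_lit 491558) (nat_lit 10) .nil)))) .nil))) (.nd (nat_lit 6) 
(.lf (nat_lit 49335) (.g (nat_lit 4901) (.e (nat_lit 1347) (nat_lit 102) (.e (nat_lit 286759) (nat_lit 12) (.e (nat_lit 385074) (nat_lit 31) (.e (nat_lit 573482) (nat_lit 13) (.e (nat_lit 65598) (nat_lit 9) .nil))))) .nil)) 
(.lf (nat_lit 49399) (.g (nat_lit 2020) (.e (nat_lit 1348) (nat_lit 102) (.e (nat_lit 286733) (nat_lit 2) (.e (nat_lit 90169) (nat_lit 13) (.e (nat_lit 172094) (nat_lit 9) (.e (nat_lit 426140) (nat_lit 3) (.e (nat_lit 204821) (nat_lit 17) (.e (nat_lit 6092) (nat_lit 332) .nil))))))) (.g (nat_lit 4) .nil .nil)))))) (.nd (nat_lit 4) (.nd (nat_lit 5) (.nd (nat_lit 6) 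
(.lf (nat_lit 49295) (.g (nat_lit 5526) (.e (nat_lit 1346) (nat_lit 102) (.e (nat_lit 286761) (nat_lit 13) (.e (nat_lit 393301) (nat_lit 27) (.e (nat_lit 491560) (nat_lit 10) (.e (nat_lit 344172) (nat_lit 41) .nil))))) .nil)) 
(.lf (nat_lit 49359) (.g (nat_lit 625) (.e (nat_lit 1347) (nat_lit 102) (.e (nat_lit 286761) (nat_lit 13) (.e (nat_lit 393293) (nat_lit 26) .nil))) .nil))) (.nd (nat_lit 6) 
(.lf (nat_lit 49327) (.g (nat_lit 882) (.e (nat_lit 1347) (nat_lit 102) (.e (nat_lit 286735) (nat_lit 3) (.e (nat_lit 98374) (nat_lit 29) .nil))) .nil)) 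
(.lf (nat_lit 49391) (.g (nat_lit 2354) (.e (nat_lit 1348) (nat_lit 102) (.e (nat_lit 286733) (nat_lit 2) (.e (nat_lit 90168) (nat_lit 13) (.e (nat_lit 172097) (nat_lit 9) (.e (nat_lit 426125) (nat_lit 2) (.e (nat_lit 196661) (nat_lit 12) (.e (nat_lit 57711) (nat_lit 176) .nil))))))) (.g (nat_lit 4) .nil .nil))))) (.nd (nat_lit 5) (.nd (nat_lit 6) 
(.lf (nat_lit 49311) (.g (nat_lit 2167) (.e (nat_lit 1347) (nat_lit 102) (.e (nat_lit 286733) (nat_lit 2) (.e (nat_lit 90178) (nat_lit 15) (.e (nat_lit 188449) (nat_lit 22) .nil)))) .nil)) 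
(.lf (nat_lit 49375) (.g (nat_lit 2091) (.e (nat_lit 1348) (nat_lit 102) (.e (nat_lit 286727) (nat_lit 0) (.e (nat_lit 1799) (nat_lit 119) (.e (nat_lit 516166) (nat_lit 12) (.e (nat_lit 458496) (nat_lit 1) (.e (nat_lit 500056) (nat_lit 17) (.e (nat_lit 57714) (nat_lit 176) .nil))))))) (.g (nat_lit 4) .nil .nil)))) (.nd (nat_lit 6) 
(.lf (nat_lit 49343) (.g (nat_lit 743) (.e (nat_lit 1347) (nat_lit 102) (.e (nat_lit 286759) (nat_lit 12) (.e (nat_lit 385094) (nat_lit 49) .nil))) .nil)) 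
(.lf (nat_lit 49407) (.g (nat_lit 2535) (.e (nat_lit 1348) (nat_lit 102) (.e (nat_lit 286733) (nat_lit 2) (.e (nat_lit 90169) (nat_lit 13) (.e (nat_lit 172103) (nat_lit 9) (.e (nat_lit 426133) (nat_lit 3) (.e (nat_lit 204827) (nat_lit 17) (.e (nat_lit 7936) (nat_lit 332) .nil))))))) (.g (nat_lit 5) .nil .nil))))))))))

noncomputable def tv686 : DT := (.nd (nat_lit 0) (.nd (nat_lit 1) (.nd (nat_lit 2) (.nd (nat_lit 3) (.nd (nat_lit 4) (.nd (nat_lit 5) 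
(.lf (nat_lit 49408) (.g (nat_lit 3505) (.e (nat_lit 1348) (nat_lit 102) (.e (nat_lit 286733) (nat_lit 2) (.e (nat_lit 90169) (nat_lit 13) (.e (nat_lit 172113) (nat_lit 10) (.e (nat_lit 434245) (nat_lit 28) (.e (nat_lit 573468) (nat_lit 10) (.e (nat_lit 16128) (nat_lit 180) .nil))))))) (.g (nat_lit 6) .nil .nil))) 
(.lf (nat_lit 49440) (.g (nat_lit 2677) (.e (nat_lit 1348) (nat_lit 102) (.e (nat_lit 286733) (nat_lit 2) (.e (nat_lit 90170) (nat_lit 13) (.e (nat_lit 172120) (nat_lit 12) .nil)))) .nil))) (.nd (nat_lit 5) 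
(.lf (nat_lit 49424) (.g (nat_lit 5129) (.e (nat_lit 1348) (nat_lit 102) (.e (nat_lit 286733) (nat_lit 2) (.e (nat_lit 90170) (nat_lit 13) (.e (nat_lit 172106) (nat_lit 10) (.e (nat_lit 434231) (nat_lit 23) (.e (nat_lit 532490) (nat_lit 0) (.e (nat_lit 6147) (nat_lit 332) .nil))))))) (.g (nat_lit 6) .nil .nil))) 
(.lf (nat_lit 49456) (.g (nat_lit 2337) (.e (nat_lit 1348) (nat_lit 102) (.e (nat_lit 286733) (nat_lit 2) (.e (nat_lit 90174) (nat_lit 14) (.e (nat_lit 180288) (nat_lit 45) (.e (nat_lit 2570) (nat_lit 160) (.e (nat_lit 32804) (nat_lit 17) (.e (nat_lit 171776) (nat_lit 176) .nil))))))) (.g (nat_lit 4) .nil .nil))))) (.nd (nat_lit 4) (.nd (nat_lit 5) 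
(.lf (nat_lit 49416) (.g (nat_lit 2218) (.e (nat_lit 1348) (nat_lit 102) (.e (nat_lit 286733) (nat_lit 2) (.e (nat_lit 90170) (nat_lit 13) (.e (nat_lit 172097) (nat_lit 9) (.e (nat_lit 426125) (nat_lit 2) .nil))))) .nil)) 
(.lf (nat_lit 49448) (.g (nat_lit 385) (.e (nat_lit 1348) (nat_lit 102) (.e (nat_lit 286733) (nat_lit 2) (.e (nat_lit 90173) (nat_lit 14) .nil))) .nil))) (.nd (nat_lit 5) 
(.lf (nat_lit 49432) (.g (nat_lit 5904) (.e (nat_lit 1348) (nat_lit 102) (.e (nat_lit 286733) (nat_lit 2) (.e (nat_lit 90170) (nat_lit 13) (.e (nat_lit 172113) (nat_lit 10) (.e (nat_lit 434248) (nat_lit 28) (.e (nat_lit 573468) (nat_lit 10) (.e (nat_lit 16128) (nat_lit 180) .nil))))))) (.g (nat_lit 6) .nil .nil))) 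
(.lf (nat_lit 49464) (.g (nat_lit 3349) (.e (nat_lit 1348) (nat_lit 102) (.e (nat_lit 286733) (nat_lit 2) (.e (nat_lit 90176) (nat_lit 15) (.e (nat_lit 188447) (nat_lit 22) (.e (nat_lit 196661) (nat_lit 12) (.e (nat_lit 57715) (nat_lit 176) .nil)))))) (.g (nat_lit 4) .nil .nil)))))) (.nd (nat_lit 3) (.nd (nat_lit 4) (.nd (nat_lit 5) 
(.lf (nat_lit 49412) (.g (nat_lit 3904) (.e (nat_lit 1348) (nat_lit 102) (.e (nat_lit 286733) (nat_lit 2) (.e (nat_lit 90169) (nat_lit 13) (.e (nat_lit 172124) (nat_lit 14) (.e (nat_lit 491540) (nat_lit 3) (.e (nat_lit 98320) (nat_lit 17) (.e (nat_lit 7065) (nat_lit 377) .nil))))))) (.g (nat_lit 6) .nil .nil))) 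
(.lf (nat_lit 49444) (.g (nat_lit 1451) (.e (nat_lit 1348) (nat_lit 102) (.e (nat_lit 286733) (nat_lit 2) (.e (nat_lit 90172) (nat_lit 14) (.e (nat_lit 180285) (nat_lit 45) .nil)))) .nil))) (.nd (nat_lit 5) 
(.lf (nat_lit 49428) (.g (nat_lit 5181) (.e (nat_lit 1348) (nat_lit 102) (.e (nat_lit 286733) (nat_lit 2) (.e (nat_lit 90170) (nat_lit 13) (.e (nat_lit 172106) (nat_lit 10) (.e (nat_lit 434244) (nat_lit 28) (.e (nat_lit 573468) (nat_lit 10) (.e (nat_lit 16128) (nat_lit 180) .nil))))))) (.g (nat_lit 6) .nil .nil))) 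
(.lf (nat_lit 49460) (.g (nat_lit 2479) (.e (nat_lit 1348) (nat_lit 102) (.e (nat_lit 286733) (nat_lit 2) (.e (nat_lit 90174) (nat_lit 14) (.e (nat_lit 180288) (nat_lit 45) (.e (nat_lit 2571) (nat_lit 160) (.e (nat_lit 32810) (nat_lit 21) (.e (nat_lit 237312) (nat_lit 176) .nil))))))) (.g (nat_lit 4) .nil .nil))))) (.nd (nat_lit 4) (.nd (nat_lit 5) 
(.lf (nat_lit 49420) (.g (nat_lit 5626) (.e (nat_lit 1348) (nat_lit 102) (.e (nat_lit 286733) (nat_lit 2) (.e (nat_lit 90170) (nat_lit 13) (.e (nat_lit 172106) (nat_lit 10) (.e (nat_lit 434231) (nat_lit 23) (.e (nat_lit 532483) (nat_lit 0) (.e (nat_lit 7936) (nat_lit 332) .nil))))))) (.g (nat_lit 6) .nil .nil))) 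
(.lf (nat_lit 49452) (.g (nat_lit 2495) (.e (nat_lit 1348) (nat_lit 102) (.e (nat_lit 286733) (nat_lit 2) (.e (nat_lit 90174) (nat_lit 14) (.e (nat_lit 180277) (nat_lit 32) (.e (nat_lit 1235) (nat_lit 91) (.e (nat_lit 90165) (nat_lit 12) (.e (nat_lit 171776) (nat_lit 176) .nil))))))) (.g (nat_lit 6) .nil .nil)))) (.nd (nat_lit 5) 
(.lf (nat_lit 49436) (.g (nat_lit 3679) (.e (nat_lit 1348) (nat_lit 102) (.e (nat_lit 286733) (nat_lit 2) (.e (nat_lit 90170) (nat_lit 13) (.e (nat_lit 172115) (nat_lit 10) (.e (nat_lit 434231) (nat_lit 23) (.e (nat_lit 532490) (nat_lit 0) (.e (nat_lit 6136) (nat_lit 332) .nil))))))) (.g (nat_lit 5) .nil .nil))) 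
(.lf (nat_lit 49468) (.g (nat_lit 3325) (.e (nat_lit 1348) (nat_lit 102) (.e (nat_lit 286733) (nat_lit 2) (.e (nat_lit 90176) (nat_lit 15) (.e (nat_lit 188449) (nat_lit 22) (.e (nat_lit 196661) (nat_lit 12) (.e (nat_lit 57711) (nat_lit 176) .nil)))))) (.g (nat_lit 5) .nil .nil))))))) (.nd (nat_lit 2) (.nd (nat_lit 3) (.nd (nat_lit 4) (.nd (nat_lit 5) 
(.lf (nat_lit 49410) (.g (nat_lit 4473) (.e (nat_lit 1348) (nat_lit 102) (.e (nat_lit 286733) (nat_lit 2) (.e (nat_lit 90169) (nat_lit 13) (.e (nat_lit 172124) (nat_lit 14) (.e (nat_lit 491537) (nat_lit 2) (.e (nat_lit 90133) (nat_lit 9) (.e (nat_lit 2397) (nat_lit 157) (.e (nat_lit 7064) (nat_lit 377) .nil)))))))) (.g (nat_lit 6) .nil .nil))) 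
(.lf (nat_lit 49442) (.g (nat_lit 2087) (.e (nat_lit 1348) (nat_lit 102) (.e (nat_lit 286733) (nat_lit 2) (.e (nat_lit 90172) (nat_lit 14) (.e (nat_lit 180278) (nat_lit 32) (.e (nat_lit 1235) (nat_lit 91) (.e (nat_lit 90165) (nat_lit 12) (.e (nat_lit 171776) (nat_lit 176) .nil))))))) (.g (nat_lit 6) .nil .nil)))) (.nd (nat_lit 5) 
(.lf (nat_lit 49426) (.g (nat_lit 3830) (.e (nat_lit 1348) (nat_lit 102) (.e (nat_lit 286733) (nat_lit 2) (.e (nat_lit 90170) (nat_lit 13) (.e (nat_lit 172106) (nat_lit 10) (.e (nat_lit 434231) (nat_lit 23) (.e (nat_lit 532490) (nat_lit 0) (.e (nat_lit 6149) (nat_lit 332) .nil))))))) (.g (nat_lit 4) .nil .nil))) 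
(.lf (nat_lit 49458) (.g (nat_lit 2273) (.e (nat_lit 1348) (nat_lit 102) (.e (nat_lit 286733) (nat_lit 2) (.e (nat_lit 90174) (nat_lit 14) (.e (nat_lit 180288) (nat_lit 45) (.e (nat_lit 2571) (nat_lit 160) .nil))))) .nil)))) (.nd (nat_lit 4) (.nd (nat_lit 5) 
(.lf (nat_lit 49418) (.g (nat_lit 4596) (.e (nat_lit 1348) (nat_lit 102) (.e (nat_lit 286733) (nat_lit 2) (.e (nat_lit 90170) (nat_lit 13) (.e (nat_lit 172106) (nat_lit 10) (.e (nat_lit 434231) (nat_lit 23) (.e (nat_lit 532481) (nat_lit 0) (.e (nat_lit 6192) (nat_lit 332) .nil))))))) (.g (nat_lit 5) .nil .nil))) 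
(.lf (nat_lit 49450) (.g (nat_lit 2545) (.e (nat_lit 1348) (nat_lit 102) (.e (nat_lit 286733) (nat_lit 2) (.e (nat_lit 90173) (nat_lit 14) (.e (nat_lit 180277) (nat_lit 32) (.e (nat_lit 1252) (nat_lit 92) (.e (nat_lit 98321) (nat_lit 17) (.e (nat_lit 7060) (nat_lit 377) .nil))))))) (.g (nat_lit 4) .nil .nil)))) (.nd (nat_lit 5) 
(.lf (nat_lit 49434) (.g (nat_lit 3438) (.e (nat_lit 1348) (nat_lit 102) (.e (nat_lit 286733) (nat_lit 2) (.e (nat_lit 90170) (nat_lit 13) (.e (nat_lit 172115) (nat_lit 10) (.e (nat_lit 434231) (nat_lit 23) (.e (nat_lit 532482) (nat_lit 0) (.e (nat_lit 6192) (nat_lit 332) .nil))))))) (.g (nat_lit 5) .nil .nil))) 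
(.lf (nat_lit 49466) (.g (nat_lit 3094) (.e (nat_lit 1348) (nat_lit 102) (.e (nat_lit 286733) (nat_lit 2) (.e (nat_lit 90176) (nat_lit 15) (.e (nat_lit 188447) (nat_lit 22) (.e (nat_lit 196661) (nat_lit 12) (.e (nat_lit 65280) (nat_lit 176) .nil)))))) (.g (nat_lit 5) .nil .nil)))))) (.nd (nat_lit 3) (.nd (nat_lit 4) (.nd (nat_lit 5) 
(.lf (nat_lit 49414) (.g (nat_lit 1465) (.e (nat_lit 1348) (nat_lit 102) (.e (nat_lit 286733) (nat_lit 2) (.e (nat_lit 90170) (nat_lit 13) (.e (nat_lit 172095) (nat_lit 9) .nil)))) .nil)) 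
(.lf (nat_lit 49446) (.g (nat_lit 2173) (.e (nat_lit 1348) (nat_lit 102) (.e (nat_lit 286733) (nat_lit 2) (.e (nat_lit 90172) (nat_lit 14) (.e (nat_lit 180285) (nat_lit 45) (.e (nat_lit 2570) (nat_lit 160) (.e (nat_lit 32805) (nat_lit 17) (.e (nat_lit 171776) (nat_lit 176) .nil))))))) (.g (nat_lit 4) .nil .nil)))) (.nd (nat_lit 5) 
(.lf (nat_lit 49430) (.g (nat_lit 3257) (.e (nat_lit 1348) (nat_lit 102) (.e (nat_lit 286733) (nat_lit 2) (.e (nat_lit 90170) (nat_lit 13) (.e (nat_lit 172113) (nat_lit 10) (.e (nat_lit 434231) (nat_lit 23) (.e (nat_lit 532490) (nat_lit 0) (.e (nat_lit 7936) (nat_lit 332) .nil))))))) (.g (nat_lit 4) .nil .nil))) 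
(.lf (nat_lit 49462) (.g (nat_lit 3890) (.e (nat_lit 1348) (nat_lit 102) (.e (nat_lit 286733) (nat_lit 2) (.e (nat_lit 90176) (nat_lit 15) (.e (nat_lit 188447) (nat_lit 22) (.e (nat_lit 196661) (nat_lit 12) (.e (nat_lit 57711) (nat_lit 176) .nil)))))) (.g (nat_lit 6) .nil .nil))))) (.nd (nat_lit 4) (.nd (nat_lit 5) 
(.lf (nat_lit 49422) (.g (nat_lit 5043) (.e (nat_lit 1348) (nat_lit 102) (.e (nat_lit 286733) (nat_lit 2) (.e (nat_lit 90170) (nat_lit 13) (.e (nat_lit 172106) (nat_lit 10) (.e (nat_lit 434231) (nat_lit 23) (.e (nat_lit 532490) (nat_lit 0) (.e (nat_lit 6126) (nat_lit 332) .nil))))))) (.g (nat_lit 6) .nil .nil))) 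
(.lf (nat_lit 49454) (.g (nat_lit 1062) (.e (nat_lit 1348) (nat_lit 102) (.e (nat_lit 286733) (nat_lit 2) (.e (nat_lit 90174) (nat_lit 14) (.e (nat_lit 188160) (nat_lit 40) .nil)))) .nil))) (.nd (nat_lit 5) 
(.lf (nat_lit 49438) (.g (nat_lit 4069) (.e (nat_lit 1348) (nat_lit 102) (.e (nat_lit 286733) (nat_lit 2) (.e (nat_lit 90170) (nat_lit 13) (.e (nat_lit 172115) (nat_lit 10) (.e (nat_lit 434231) (nat_lit 23) (.e (nat_lit 532490) (nat_lit 0) (.e (nat_lit 6149) (nat_lit 332) .nil))))))) (.g (nat_lit 5) .nil .nil))) 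
(.lf (nat_lit 49470) (.g (nat_lit 2802) (.e (nat_lit 1348) (nat_lit 102) (.e (nat_lit 286733) (nat_lit 2) (.e (nat_lit 90176) (nat_lit 15) (.e (nat_lit 188449) (nat_lit 22) (.e (nat_lit 196661) (nat_lit 12) (.e (nat_lit 57714) (nat_lit 176) .nil)))))) (.g (nat_lit 4) .nil .nil)))))))) (.nd (nat_lit 1) (.nd (nat_lit 2) (.nd (nat_lit 3) (.nd (nat_lit 4) (.nd (nat_lit 5) 
(.lf (nat_lit 49409) (.g (nat_lit 2193) (.e (nat_lit 1348) (nat_lit 102) (.e (nat_lit 286733) (nat_lit 2) (.e (nat_lit 90169) (nat_lit 13) (.e (nat_lit 172115) (nat_lit 10) (.e (nat_lit 434231) (nat_lit 23) (.e (nat_lit 532490) (nat_lit 0) (.e (nat_lit 7936) (nat_lit 332) .nil))))))) (.g (nat_lit 5) .nil .nil))) 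
(.lf (nat_lit 49441) (.g (nat_lit 1664) (.e (nat_lit 1348) (nat_lit 102) (.e (nat_lit 286733) (nat_lit 2) (.e (nat_lit 90172) (nat_lit 14) (.e (nat_lit 180277) (nat_lit 32) (.e (nat_lit 1252) (nat_lit 92) .nil))))) .nil))) (.nd (nat_lit 5) 
(.lf (nat_lit 49425) (.g (nat_lit 4529) (.e (nat_lit 1348) (nat_lit 102) (.e (nat_lit 286733) (nat_lit 2) (.e (nat_lit 90170) (nat_lit 13) (.e (nat_lit 172106) (nat_lit 10) (.e (nat_lit 434231) (nat_lit 23) (.e (nat_lit 532490) (nat_lit 0) (.e (nat_lit 6148) (nat_lit 332) .nil))))))) (.g (nat_lit 5) .nil .nil))) 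
(.lf (nat_lit 49457) (.g (nat_lit 3238) (.e (nat_lit 1348) (nat_lit 102) (.e (nat_lit 286733) (nat_lit 2) (.e (nat_lit 90174) (nat_lit 14) (.e (nat_lit 180288) (nat_lit 45) (.e (nat_lit 2570) (nat_lit 160) (.e (nat_lit 32805) (nat_lit 17) (.e (nat_lit 171776) (nat_lit 176) .nil))))))) (.g (nat_lit 6) .nil .nil))))) (.nd (nat_lit 4) (.nd (nat_lit 5) 
(.lf (nat_lit 49417) (.g (nat_lit 2620) (.e (nat_lit 1348) (nat_lit 102) (.e (nat_lit 286733) (nat_lit 2) (.e (nat_lit 90170) (nat_lit 13) (.e (nat_lit 172106) (nat_lit 10) (.e (nat_lit 434231) (nat_lit 23) .nil))))) .nil)) 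
(.lf (nat_lit 49449) (.g (nat_lit 2008) (.e (nat_lit 1348) (nat_lit 102) (.e (nat_lit 286733) (nat_lit 2) (.e (nat_lit 90173) (nat_lit 14) (.e (nat_lit 180277) (nat_lit 32) (.e (nat_lit 1235) (nat_lit 91) (.e (nat_lit 90165) (nat_lit 12) (.e (nat_lit 171776) (nat_lit 176) .nil))))))) (.g (nat_lit 6) .nil .nil)))) (.nd (nat_lit 5) 
(.lf (nat_lit 49433) (.g (nat_lit 3687) (.e (nat_lit 1348) (nat_lit 102) (.e (nat_lit 286733) (nat_lit 2) (.e (nat_lit 90170) (nat_lit 13) (.e (nat_lit 172115) (nat_lit 10) (.e (nat_lit 434231) (nat_lit 23) (.e (nat_lit 532481) (nat_lit 0) (.e (nat_lit 6192) (nat_lit 332) .nil))))))) (.g (nat_lit 5) .nil .nil))) 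
(.lf (nat_lit 49465) (.g (nat_lit 2600) (.e (nat_lit 1348) (nat_lit 102) (.e (nat_lit 286733) (nat_lit 2) (.e (nat_lit 90176) (nat_lit 15) (.e (nat_lit 188447) (nat_lit 22) (.e (nat_lit 196661) (nat_lit 12) (.e (nat_lit 57718) (nat_lit 176) .nil)))))) (.g (nat_lit 4) .nil .nil)))))) (.nd (nat_lit 3) (.nd (nat_lit 4) (.nd (nat_lit 5) 
(.lf (nat_lit 49413) (.g (nat_lit 2919) (.e (nat_lit 1348) (nat_lit 102) (.e (nat_lit 286733) (nat_lit 2) (.e (nat_lit 90170) (nat_lit 13) (.e (nat_lit 172079) (nat_lit 7) .nil)))) .nil)) 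
(.lf (nat_lit 49445) (.g (nat_lit 2897) (.e (nat_lit 1348) (nat_lit 102) (.e (nat_lit 286733) (nat_lit 2) (.e (nat_lit 90172) (nat_lit 14) (.e (nat_lit 180285) (nat_lit 45) (.e (nat_lit 2569) (nat_lit 160) (.e (nat_lit 32805) (nat_lit 17) (.e (nat_lit 171776) (nat_lit 176) .nil))))))) (.g (nat_lit 6) .nil .nil)))) (.nd (nat_lit 5) 
(.lf (nat_lit 49429) (.g (nat_lit 3049) (.e (nat_lit 1348) (nat_lit 102) (.e (nat_lit 286733) (nat_lit 2) (.e (nat_lit 90170) (nat_lit 13) (.e (nat_lit 172113) (nat_lit 10) (.e (nat_lit 434231) (nat_lit 23) .nil))))) .nil)) 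
(.lf (nat_lit 49461) (.g (nat_lit 1485) (.e (nat_lit 1348) (nat_lit 102) (.e (nat_lit 286733) (nat_lit 2) (.e (nat_lit 90176) (nat_lit 15) (.e (nat_lit 188420) (nat_lit 0) (.e (nat_lit 1856) (nat_lit 124) (.e (nat_lit 557093) (nat_lit 12) (.e (nat_lit 171776) (nat_lit 176) .nil))))))) (.g (nat_lit 4) .nil .nil))))) (.nd (nat_lit 4) (.nd (nat_lit 5) 
(.lf (nat_lit 49421) (.g (nat_lit 3072) (.e (nat_lit 1348) (nat_lit 102) (.e (nat_lit 286733) (nat_lit 2) (.e (nat_lit 90170) (nat_lit 13) (.e (nat_lit 172106) (nat_lit 10) (.e (nat_lit 434231) (nat_lit 23) (.e (nat_lit 532490) (nat_lit 0) (.e (nat_lit 6092) (nat_lit 332) .nil))))))) (.g (nat_lit 4) .nil .nil))) 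
(.lf (nat_lit 49453) (.g (nat_lit 3364) (.e (nat_lit 1348) (nat_lit 102) (.e (nat_lit 286733) (nat_lit 2) (.e (nat_lit 90174) (nat_lit 14) (.e (nat_lit 180277) (nat_lit 32) (.e (nat_lit 1252) (nat_lit 92) (.e (nat_lit 98321) (nat_lit 17) (.e (nat_lit 7060) (nat_lit 377) .nil))))))) (.g (nat_lit 6) .nil .nil)))) (.nd (nat_lit 5) 
(.lf (nat_lit 49437) (.g (nat_lit 4300) (.e (nat_lit 1348) (nat_lit 102) (.e (nat_lit 286733) (nat_lit 2) (.e (nat_lit 90170) (nat_lit 13) (.e (nat_lit 172115) (nat_lit 10) (.e (nat_lit 434231) (nat_lit 23) (.e (nat_lit 532490) (nat_lit 0) (.e (nat_lit 6147) (nat_lit 332) .nil))))))) (.g (nat_lit 5) .nil .nil))) 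
(.lf (nat_lit 49469) (.g (nat_lit 3220) (.e (nat_lit 1348) (nat_lit 102) (.e (nat_lit 286733) (nat_lit 2) (.e (nat_lit 90176) (nat_lit 15) (.e (nat_lit 188449) (nat_lit 22) (.e (nat_lit 196661) (nat_lit 12) (.e (nat_lit 57713) (nat_lit 176) .nil)))))) (.g (nat_lit 5) .nil .nil))))))) (.nd (nat_lit 2) (.nd (nat_lit 3) (.nd (nat_lit 4) (.nd (nat_lit 5) 
(.lf (nat_lit 49411) (.g (nat_lit 2229) (.e (nat_lit 1348) (nat_lit 102) (.e (nat_lit 286733) (nat_lit 2) (.e (nat_lit 90169) (nat_lit 13) (.e (nat_lit 172124) (nat_lit 14) (.e (nat_lit 491540) (nat_lit 3) (.e (nat_lit 98319) (nat_lit 17) (.e (nat_lit 7065) (nat_lit 377) .nil))))))) (.g (nat_lit 4) .nil .nil))) 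
(.lf (nat_lit 49443) (.g (nat_lit 3255) (.e (nat_lit 1348) (nat_lit 102) (.e (nat_lit 286733) (nat_lit 2) (.e (nat_lit 90172) (nat_lit 14) (.e (nat_lit 180278) (nat_lit 32) (.e (nat_lit 1252) (nat_lit 92) (.e (nat_lit 98321) (nat_lit 17) (.e (nat_lit 7060) (nat_lit 377) .nil))))))) (.g (nat_lit 6) .nil .nil)))) (.nd (nat_lit 5) 
(.lf (nat_lit 49427) (.g (nat_lit 5051) (.e (nat_lit 1348) (nat_lit 102) (.e (nat_lit 286733) (nat_lit 2) (.e (nat_lit 90170) (nat_lit 13) (.e (nat_lit 172106) (nat_lit 10) (.e (nat_lit 434231) (nat_lit 23) (.e (nat_lit 532490) (nat_lit 0) (.e (nat_lit 7936) (nat_lit 332) .nil))))))) (.g (nat_lit 6) .nil .nil))) 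
(.lf (nat_lit 49459) (.g (nat_lit 3220) (.e (nat_lit 1348) (nat_lit 102) (.e (nat_lit 286733) (nat_lit 2) (.e (nat_lit 90174) (nat_lit 14) (.e (nat_lit 180288) (nat_lit 45) (.e (nat_lit 2571) (nat_lit 160) (.e (nat_lit 32805) (nat_lit 17) (.e (nat_lit 171776) (nat_lit 176) .nil))))))) (.g (nat_lit 6) .nil .nil))))) (.nd (nat_lit 4) (.nd (nat_lit 5) 
(.lf (nat_lit 49419) (.g (nat_lit 4187) (.e (nat_lit 1348) (nat_lit 102) (.e (nat_lit 286733) (nat_lit 2) (.e (nat_lit 90170) (nat_lit 13) (.e (nat_lit 172106) (nat_lit 10) (.e (nat_lit 434231) (nat_lit 23) (.e (nat_lit 532482) (nat_lit 0) (.e (nat_lit 6192) (nat_lit 332) .nil))))))) (.g (nat_lit 5) .nil .nil))) 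
(.lf (nat_lit 49451) (.g (nat_lit 1255) (.e (nat_lit 1348) (nat_lit 102) (.e (nat_lit 286733) (nat_lit 2) (.e (nat_lit 90173) (nat_lit 14) (.e (nat_lit 180278) (nat_lit 32) (.e (nat_lit 1235) (nat_lit 91) .nil))))) .nil))) (.nd (nat_lit 5) 
(.lf (nat_lit 49435) (.g (nat_lit 4584) (.e (nat_lit 1348) (nat_lit 102) (.e (nat_lit 286733) (nat_lit 2) (.e (nat_lit 90170) (nat_lit 13) (.e (nat_lit 172115) (nat_lit 10) (.e (nat_lit 434231) (nat_lit 23) (.e (nat_lit 532490) (nat_lit 0) (.e (nat_lit 6126) (nat_lit 332) .nil))))))) (.g (nat_lit 6) .nil .nil))) 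
(.lf (nat_lit 49467) (.g (nat_lit 1305) (.e (nat_lit 1348) (nat_lit 102) (.e (nat_lit 286733) (nat_lit 2) (.e (nat_lit 90176) (nat_lit 15) (.e (nat_lit 188448) (nat_lit 22) .nil)))) .nil))))) (.nd (nat_lit 3) (.nd (nat_lit 4) (.nd (nat_lit 5) 
(.lf (nat_lit 49415) (.g (nat_lit 1816) (.e (nat_lit 1348) (nat_lit 102) (.e (nat_lit 286733) (nat_lit 2) (.e (nat_lit 90170) (nat_lit 13) (.e (nat_lit 172097) (nat_lit 9) .nil)))) .nil)) 
(.lf (nat_lit 49447) (.g (nat_lit 2276) (.e (nat_lit 1348) (nat_lit 102) (.e (nat_lit 286733) (nat_lit 2) (.e (nat_lit 90172) (nat_lit 14) (.e (nat_lit 180285) (nat_lit 45) (.e (nat_lit 2571) (nat_lit 160) (.e (nat_lit 32805) (nat_lit 17) (.e (nat_lit 171776) (nat_lit 176) .nil))))))) (.g (nat_lit 4) .nil .nil)))) (.nd (nat_lit 5) 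
(.lf (nat_lit 49431) (.g (nat_lit 5478) (.e (nat_lit 1348) (nat_lit 102) (.e (nat_lit 286733) (nat_lit 2) (.e (nat_lit 90170) (nat_lit 13) (.e (nat_lit 172113) (nat_lit 10) (.e (nat_lit 434245) (nat_lit 28) (.e (nat_lit 573468) (nat_lit 10) (.e (nat_lit 16128) (nat_lit 180) .nil))))))) (.g (nat_lit 6) .nil .nil))) 
(.lf (nat_lit 49463) (.g (nat_lit 3953) (.e (nat_lit 1348) (nat_lit 102) (.e (nat_lit 286733) (nat_lit 2) (.e (nat_lit 90176) (nat_lit 15) (.e (nat_lit 188447) (nat_lit 22) (.e (nat_lit 196661) (nat_lit 12) (.e (nat_lit 57714) (nat_lit 176) .nil)))))) (.g (nat_lit 0) .nil .nil))))) (.nd (nat_lit 4) (.nd (nat_lit 5) 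
(.lf (nat_lit 49423) (.g (nat_lit 3864) (.e (nat_lit 1348) (nat_lit 102) (.e (nat_lit 286733) (nat_lit 2) (.e (nat_lit 90170) (nat_lit 13) (.e (nat_lit 172106) (nat_lit 10) (.e (nat_lit 434231) (nat_lit 23) (.e (nat_lit 532490) (nat_lit 0) (.e (nat_lit 6136) (nat_lit 332) .nil))))))) (.g (nat_lit 5) .nil .nil))) 
(.lf (nat_lit 49455) (.g (nat_lit 1399) (.e (nat_lit 1348) (nat_lit 102) (.e (nat_lit 286733) (nat_lit 2) (.e (nat_lit 90174) (nat_lit 14) (.e (nat_lit 180288) (nat_lit 45) .nil)))) .nil))) (.nd (nat_lit 5) 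
(.lf (nat_lit 49439) (.g (nat_lit 3913) (.e (nat_lit 1348) (nat_lit 102) (.e (nat_lit 286733) (nat_lit 2) (.e (nat_lit 90170) (nat_lit 13) (.e (nat_lit 172115) (nat_lit 10) (.e (nat_lit 434231) (nat_lit 23) (.e (nat_lit 532490) (nat_lit 0) (.e (nat_lit 7936) (nat_lit 332) .nil))))))) (.g (nat_lit 6) .nil .nil))) 
(.lf (nat_lit 49471) (.g (nat_lit 1990) (.e (nat_lit 1348) (nat_lit 102) (.e (nat_lit 286733) (nat_lit 2) (.e (nat_lit 90176) (nat_lit 15) (.e (nat_lit 188449) (nat_lit 22) (.e (nat_lit 196661) (nat_lit 12) (.e (nat_lit 65280) (nat_lit 176) .nil)))))) (.g (nat_lit 4) .nil .nil)))))))))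

noncomputable def tv687 : DT := (.nd (nat_lit 0) (.nd (nat_lit 1) (.nd (nat_lit 2) (.nd (nat_lit 3) (.nd (nat_lit 4) (.nd (nat_lit 5) 
(.lf (nat_lit 49472) (.g (nat_lit 2593) (.e (nat_lit 1348) (nat_lit 102) (.e (nat_lit 286733) (nat_lit 2) (.e (nat_lit 90176) (nat_lit 15) (.e (nat_lit 188450) (nat_lit 23) (.e (nat_lit 204814) (nat_lit 17) .nil))))) .nil)) 
(.lf (nat_lit 49504) (.g (nat_lit 2978) (.e (nat_lit 1348) (nat_lit 102) (.e (nat_lit 286733) (nat_lit 2) (.e (nat_lit 90177) (nat_lit 15) (.e (nat_lit 188452) (nat_lit 23) (.e (nat_lit 204816) (nat_lit 17) (.e (nat_lit 6188) (nat_lit 332) .nil)))))) (.g (nat_lit 4) .nil .nil)))) (.nd (nat_lit 5) 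
(.lf (nat_lit 49488) (.g (nat_lit 4594) (.e (nat_lit 1348) (nat_lit 102) (.e (nat_lit 286733) (nat_lit 2) (.e (nat_lit 90176) (nat_lit 15) (.e (nat_lit 188452) (nat_lit 23) (.e (nat_lit 204816) (nat_lit 17) (.e (nat_lit 6192) (nat_lit 332) .nil)))))) (.g (nat_lit 5) .nil .nil))) 
(.lf (nat_lit 49520) (.g (nat_lit 2053) (.e (nat_lit 1348) (nat_lit 102) (.e (nat_lit 286733) (nat_lit 2) (.e (nat_lit 90178) (nat_lit 15) (.e (nat_lit 188440) (nat_lit 20) (.e (nat_lit 3307) (nat_lit 202) (.e (nat_lit 573466) (nat_lit 10) (.e (nat_lit 16128) (nat_lit 180) .nil))))))) (.g (nat_lit 4) .nil .nil))))) (.nd (nat_lit 4) (.nd (nat_lit 5) 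
(.lf (nat_lit 49480) (.g (nat_lit 3780) (.e (nat_lit 1348) (nat_lit 102) (.e (nat_lit 286733) (nat_lit 2) (.e (nat_lit 90176) (nat_lit 15) (.e (nat_lit 188450) (nat_lit 23) (.e (nat_lit 204821) (nat_lit 17) (.e (nat_lit 6126) (nat_lit 332) .nil)))))) (.g (nat_lit 5) .nil .nil))) 
(.lf (nat_lit 49512) (.g (nat_lit 3044) (.e (nat_lit 1348) (nat_lit 102) (.e (nat_lit 286733) (nat_lit 2) (.e (nat_lit 90177) (nat_lit 15) (.e (nat_lit 188452) (nat_lit 23) (.e (nat_lit 204821) (nat_lit 17) (.e (nat_lit 7936) (nat_lit 332) .nil)))))) (.g (nat_lit 5) .nil .nil)))) (.nd (nat_lit 5) 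
(.lf (nat_lit 49496) (.g (nat_lit 994) (.e (nat_lit 1348) (nat_lit 102) (.e (nat_lit 286733) (nat_lit 2) (.e (nat_lit 90177) (nat_lit 15) (.e (nat_lit 188449) (nat_lit 22) .nil)))) .nil)) 
(.lf (nat_lit 49528) (.g (nat_lit 2249) (.e (nat_lit 1348) (nat_lit 102) (.e (nat_lit 286733) (nat_lit 2) (.e (nat_lit 90178) (nat_lit 15) (.e (nat_lit 188447) (nat_lit 22) (.e (nat_lit 196661) (nat_lit 12) (.e (nat_lit 65280) (nat_lit 176) .nil)))))) (.g (nat_lit 4) .nil .nil)))))) (.nd (nat_lit 3) (.nd (nat_lit 4) (.nd (nat_lit 5) 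
(.lf (nat_lit 49476) (.g (nat_lit 1963) (.e (nat_lit 1348) (nat_lit 102) (.e (nat_lit 286733) (nat_lit 2) (.e (nat_lit 90176) (nat_lit 15) (.e (nat_lit 188450) (nat_lit 23) (.e (nat_lit 204819) (nat_lit 17) .nil))))) .nil)) 
(.lf (nat_lit 49508) (.g (nat_lit 3344) (.e (nat_lit 1348) (nat_lit 102) (.e (nat_lit 286733) (nat_lit 2) (.e (nat_lit 90177) (nat_lit 15) (.e (nat_lit 188452) (nat_lit 23) (.e (nat_lit 204821) (nat_lit 17) (.e (nat_lit 6126) (nat_lit 332) .nil)))))) (.g (nat_lit 5) .nil .nil)))) (.nd (nat_lit 5) 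
(.lf (nat_lit 49492) (.g (nat_lit 2484) (.e (nat_lit 1348) (nat_lit 102) (.e (nat_lit 286733) (nat_lit 2) (.e (nat_lit 90176) (nat_lit 15) (.e (nat_lit 188452) (nat_lit 23) (.e (nat_lit 204821) (nat_lit 17) (.e (nat_lit 6149) (nat_lit 332) .nil)))))) (.g (nat_lit 4) .nil .nil))) 
(.lf (nat_lit 49524) (.g (nat_lit 1901) (.e (nat_lit 1348) (nat_lit 102) (.e (nat_lit 286733) (nat_lit 2) (.e (nat_lit 90178) (nat_lit 15) (.e (nat_lit 188441) (nat_lit 20) (.e (nat_lit 3272) (nat_lit 199) (.e (nat_lit 548910) (nat_lit 17) (.e (nat_lit 171776) (nat_lit 176) .nil))))))) (.g (nat_lit 4) .nil .nil))))) (.nd (nat_lit 4) (.nd (nat_lit 5) 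
(.lf (nat_lit 49484) (.g (nat_lit 3414) (.e (nat_lit 1348) (nat_lit 102) (.e (nat_lit 286733) (nat_lit 2) (.e (nat_lit 90176) (nat_lit 15) (.e (nat_lit 188450) (nat_lit 23) (.e (nat_lit 204821) (nat_lit 17) (.e (nat_lit 7936) (nat_lit 332) .nil)))))) (.g (nat_lit 5) .nil .nil))) 
(.lf (nat_lit 49516) (.g (nat_lit 1247) (.e (nat_lit 1348) (nat_lit 102) (.e (nat_lit 286733) (nat_lit 2) (.e (nat_lit 90178) (nat_lit 15) (.e (nat_lit 188440) (nat_lit 20) .nil)))) .nil))) (.nd (nat_lit 5) 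
(.lf (nat_lit 49500) (.g (nat_lit 1877) (.e (nat_lit 1348) (nat_lit 102) (.e (nat_lit 286733) (nat_lit 2) (.e (nat_lit 90177) (nat_lit 15) (.e (nat_lit 188450) (nat_lit 23) (.e (nat_lit 204821) (nat_lit 17) .nil))))) .nil)) 
(.lf (nat_lit 49532) (.g (nat_lit 2022) (.e (nat_lit 1348) (nat_lit 102) (.e (nat_lit 286733) (nat_lit 2) (.e (nat_lit 90178) (nat_lit 15) (.e (nat_lit 188448) (nat_lit 22) (.e (nat_lit 196661) (nat_lit 12) (.e (nat_lit 65280) (nat_lit 176) .nil)))))) (.g (nat_lit 5) .nil .nil))))))) (.nd (nat_lit 2) (.nd (nat_lit 3) (.nd (nat_lit 4) (.nd (nat_lit 5) 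
(.lf (nat_lit 49474) (.g (nat_lit 1920) (.e (nat_lit 1348) (nat_lit 102) (.e (nat_lit 286733) (nat_lit 2) (.e (nat_lit 90176) (nat_lit 15) (.e (nat_lit 188450) (nat_lit 23) (.e (nat_lit 204815) (nat_lit 17) (.e (nat_lit 7936) (nat_lit 332) .nil)))))) (.g (nat_lit 4) .nil .nil))) 
(.lf (nat_lit 49506) (.g (nat_lit 2324) (.e (nat_lit 1348) (nat_lit 102) (.e (nat_lit 286733) (nat_lit 2) (.e (nat_lit 90177) (nat_lit 15) (.e (nat_lit 188452) (nat_lit 23) (.e (nat_lit 204817) (nat_lit 17) .nil))))) .nil))) (.nd (nat_lit 5) 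
(.lf (nat_lit 49490) (.g (nat_lit 2851) (.e (nat_lit 1348) (nat_lit 102) (.e (nat_lit 286733) (nat_lit 2) (.e (nat_lit 90176) (nat_lit 15) (.e (nat_lit 188452) (nat_lit 23) (.e (nat_lit 204821) (nat_lit 17) (.e (nat_lit 6126) (nat_lit 332) .nil)))))) (.g (nat_lit 5) .nil .nil))) 
(.lf (nat_lit 49522) (.g (nat_lit 1183) (.e (nat_lit 1348) (nat_lit 102) (.e (nat_lit 286733) (nat_lit 2) (.e (nat_lit 90178) (nat_lit 15) (.e (nat_lit 188441) (nat_lit 20) .nil)))) .nil)))) (.nd (nat_lit 4) (.nd (nat_lit 5) 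
(.lf (nat_lit 49482) (.g (nat_lit 2617) (.e (nat_lit 1348) (nat_lit 102) (.e (nat_lit 286733) (nat_lit 2) (.e (nat_lit 90176) (nat_lit 15) (.e (nat_lit 188450) (nat_lit 23) (.e (nat_lit 204821) (nat_lit 17) (.e (nat_lit 6147) (nat_lit 332) .nil)))))) (.g (nat_lit 4) .nil .nil))) 
(.lf (nat_lit 49514) (.g (nat_lit 304) (.e (nat_lit 1348) (nat_lit 102) (.e (nat_lit 286733) (nat_lit 2) (.e (nat_lit 90178) (nat_lit 15) .nil))) .nil))) (.nd (nat_lit 5) 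
(.lf (nat_lit 49498) (.g (nat_lit 2422) (.e (nat_lit 1348) (nat_lit 102) (.e (nat_lit 286733) (nat_lit 2) (.e (nat_lit 90177) (nat_lit 15) (.e (nat_lit 188449) (nat_lit 22) (.e (nat_lit 196661) (nat_lit 12) (.e (nat_lit 57713) (nat_lit 176) .nil)))))) (.g (nat_lit 4) .nil .nil))) 
(.lf (nat_lit 49530) (.g (nat_lit 3252) (.e (nat_lit 1348) (nat_lit 102) (.e (nat_lit 286733) (nat_lit 2) (.e (nat_lit 90178) (nat_lit 15) (.e (nat_lit 188448) (nat_lit 22) (.e (nat_lit 196661) (nat_lit 12) (.e (nat_lit 57713) (nat_lit 176) .nil)))))) (.g (nat_lit 6) .nil .nil)))))) (.nd (nat_lit 3) (.nd (nat_lit 4) (.nd (nat_lit 5) 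
(.lf (nat_lit 49478) (.g (nat_lit 2896) (.e (nat_lit 1348) (nat_lit 102) (.e (nat_lit 286733) (nat_lit 2) (.e (nat_lit 90176) (nat_lit 15) (.e (nat_lit 188450) (nat_lit 23) (.e (nat_lit 204819) (nat_lit 17) (.e (nat_lit 7936) (nat_lit 332) .nil)))))) (.g (nat_lit 5) .nil .nil))) 
(.lf (nat_lit 49510) (.g (nat_lit 2491) (.e (nat_lit 1348) (nat_lit 102) (.e (nat_lit 286733) (nat_lit 2) (.e (nat_lit 90177) (nat_lit 15) (.e (nat_lit 188452) (nat_lit 23) (.e (nat_lit 204821) (nat_lit 17) (.e (nat_lit 6147) (nat_lit 332) .nil)))))) (.g (nat_lit 4) .nil .nil)))) (.nd (nat_lit 5) 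
(.lf (nat_lit 49494) (.g (nat_lit 320) (.e (nat_lit 1348) (nat_lit 102) (.e (nat_lit 286733) (nat_lit 2) (.e (nat_lit 90177) (nat_lit 15) .nil))) .nil)) 
(.lf (nat_lit 49526) (.g (nat_lit 3279) (.e (nat_lit 1348) (nat_lit 102) (.e (nat_lit 286733) (nat_lit 2) (.e (nat_lit 90178) (nat_lit 15) (.e (nat_lit 188447) (nat_lit 22) (.e (nat_lit 196661) (nat_lit 12) (.e (nat_lit 57713) (nat_lit 176) .nil)))))) (.g (nat_lit 5) .nil .nil))))) (.nd (nat_lit 4) (.nd (nat_lit 5) 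
(.lf (nat_lit 49486) (.g (nat_lit 2296) (.e (nat_lit 1348) (nat_lit 102) (.e (nat_lit 286733) (nat_lit 2) (.e (nat_lit 90176) (nat_lit 15) (.e (nat_lit 188452) (nat_lit 23) (.e (nat_lit 204815) (nat_lit 17) (.e (nat_lit 6192) (nat_lit 332) .nil)))))) (.g (nat_lit 4) .nil .nil))) 
(.lf (nat_lit 49518) (.g (nat_lit 2038) (.e (nat_lit 1348) (nat_lit 102) (.e (nat_lit 286733) (nat_lit 2) (.e (nat_lit 90178) (nat_lit 15) (.e (nat_lit 188440) (nat_lit 20) (.e (nat_lit 3255) (nat_lit 197) .nil))))) .nil))) (.nd (nat_lit 5) 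
(.lf (nat_lit 49502) (.g (nat_lit 4176) (.e (nat_lit 1348) (nat_lit 102) (.e (nat_lit 286733) (nat_lit 2) (.e (nat_lit 90177) (nat_lit 15) (.e (nat_lit 188452) (nat_lit 23) (.e (nat_lit 204815) (nat_lit 17) (.e (nat_lit 6192) (nat_lit 332) .nil)))))) (.g (nat_lit 0) .nil .nil))) 
(.lf (nat_lit 49534) (.g (nat_lit 4033) (.e (nat_lit 1348) (nat_lit 102) (.e (nat_lit 286733) (nat_lit 2) (.e (nat_lit 90178) (nat_lit 15) (.e (nat_lit 188449) (nat_lit 22) (.e (nat_lit 196661) (nat_lit 12) (.e (nat_lit 57711) (nat_lit 176) .nil)))))) (.g (nat_lit 0) .nil .nil)))))))) (.nd (nat_lit 1) (.nd (nat_lit 2) (.nd (nat_lit 3) (.nd (nat_lit 4) (.nd (nat_lit 5) 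
(.lf (nat_lit 49473) (.g (nat_lit 2761) (.e (nat_lit 1348) (nat_lit 102) (.e (nat_lit 286733) (nat_lit 2) (.e (nat_lit 90176) (nat_lit 15) (.e (nat_lit 188450) (nat_lit 23) (.e (nat_lit 204815) (nat_lit 17) (.e (nat_lit 6192) (nat_lit 332) .nil)))))) (.g (nat_lit 5) .nil .nil))) 
(.lf (nat_lit 49505) (.g (nat_lit 2880) (.e (nat_lit 1348) (nat_lit 102) (.e (nat_lit 286733) (nat_lit 2) (.e (nat_lit 90177) (nat_lit 15) (.e (nat_lit 188452) (nat_lit 23) (.e (nat_lit 204816) (nat_lit 17) (.e (nat_lit 7936) (nat_lit 332) .nil)))))) (.g (nat_lit 5) .nil .nil)))) (.nd (nat_lit 5) 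
(.lf (nat_lit 49489) (.g (nat_lit 2969) (.e (nat_lit 1348) (nat_lit 102) (.e (nat_lit 286733) (nat_lit 2) (.e (nat_lit 90176) (nat_lit 15) (.e (nat_lit 188452) (nat_lit 23) (.e (nat_lit 204821) (nat_lit 17) (.e (nat_lit 6092) (nat_lit 332) .nil)))))) (.g (nat_lit 5) .nil .nil))) 
(.lf (nat_lit 49521) (.g (nat_lit 4234) (.e (nat_lit 1348) (nat_lit 102) (.e (nat_lit 286733) (nat_lit 2) (.e (nat_lit 90178) (nat_lit 15) (.e (nat_lit 188440) (nat_lit 20) (.e (nat_lit 3307) (nat_lit 202) (.e (nat_lit 573468) (nat_lit 10) (.e (nat_lit 16128) (nat_lit 180) .nil))))))) (.g (nat_lit 6) .nil .nil))))) (.nd (nat_lit 4) (.nd (nat_lit 5) 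
(.lf (nat_lit 49481) (.g (nat_lit 3514) (.e (nat_lit 1348) (nat_lit 102) (.e (nat_lit 286733) (nat_lit 2) (.e (nat_lit 90176) (nat_lit 15) (.e (nat_lit 188450) (nat_lit 23) (.e (nat_lit 204821) (nat_lit 17) (.e (nat_lit 6136) (nat_lit 332) .nil)))))) (.g (nat_lit 5) .nil .nil))) 
(.lf (nat_lit 49513) (.g (nat_lit 1781) (.e (nat_lit 1348) (nat_lit 102) (.e (nat_lit 286733) (nat_lit 2) (.e (nat_lit 90177) (nat_lit 15) (.e (nat_lit 188458) (nat_lit 25) (.e (nat_lit 245784) (nat_lit 9) (.e (nat_lit 1023) (nat_lit 81) (.e (nat_lit 7936) (nat_lit 332) .nil))))))) (.g (nat_lit 5) .nil .nil)))) (.nd (nat_lit 5) 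
(.lf (nat_lit 49497) (.g (nat_lit 2507) (.e (nat_lit 1348) (nat_lit 102) (.e (nat_lit 286733) (nat_lit 2) (.e (nat_lit 90177) (nat_lit 15) (.e (nat_lit 188449) (nat_lit 22) (.e (nat_lit 196661) (nat_lit 12) (.e (nat_lit 57711) (nat_lit 176) .nil)))))) (.g (nat_lit 4) .nil .nil))) 
(.lf (nat_lit 49529) (.g (nat_lit 3071) (.e (nat_lit 1348) (nat_lit 102) (.e (nat_lit 286733) (nat_lit 2) (.e (nat_lit 90178) (nat_lit 15) (.e (nat_lit 188448) (nat_lit 22) (.e (nat_lit 196661) (nat_lit 12) (.e (nat_lit 57711) (nat_lit 176) .nil)))))) (.g (nat_lit 6) .nil .nil)))))) (.nd (nat_lit 3) (.nd (nat_lit 4) (.nd (nat_lit 5) 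
(.lf (nat_lit 49477) (.g (nat_lit 3373) (.e (nat_lit 1348) (nat_lit 102) (.e (nat_lit 286733) (nat_lit 2) (.e (nat_lit 90176) (nat_lit 15) (.e (nat_lit 188450) (nat_lit 23) (.e (nat_lit 204819) (nat_lit 17) (.e (nat_lit 6135) (nat_lit 332) .nil)))))) (.g (nat_lit 4) .nil .nil))) 
(.lf (nat_lit 49509) (.g (nat_lit 3303) (.e (nat_lit 1348) (nat_lit 102) (.e (nat_lit 286733) (nat_lit 2) (.e (nat_lit 90177) (nat_lit 15) (.e (nat_lit 188452) (nat_lit 23) (.e (nat_lit 204821) (nat_lit 17) (.e (nat_lit 6136) (nat_lit 332) .nil)))))) (.g (nat_lit 5) .nil .nil)))) (.nd (nat_lit 5) 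
(.lf (nat_lit 49493) (.g (nat_lit 2616) (.e (nat_lit 1348) (nat_lit 102) (.e (nat_lit 286733) (nat_lit 2) (.e (nat_lit 90176) (nat_lit 15) (.e (nat_lit 188452) (nat_lit 23) (.e (nat_lit 204821) (nat_lit 17) (.e (nat_lit 7936) (nat_lit 332) .nil)))))) (.g (nat_lit 5) .nil .nil))) 
(.lf (nat_lit 49525) (.g (nat_lit 3116) (.e (nat_lit 1348) (nat_lit 102) (.e (nat_lit 286733) (nat_lit 2) (.e (nat_lit 90178) (nat_lit 15) (.e (nat_lit 188447) (nat_lit 22) (.e (nat_lit 196661) (nat_lit 12) (.e (nat_lit 57711) (nat_lit 176) .nil)))))) (.g (nat_lit 5) .nil .nil))))) (.nd (nat_lit 4) (.nd (nat_lit 5) 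
(.lf (nat_lit 49485) (.g (nat_lit 2605) (.e (nat_lit 1348) (nat_lit 102) (.e (nat_lit 286733) (nat_lit 2) (.e (nat_lit 90176) (nat_lit 15) (.e (nat_lit 188450) (nat_lit 23) (.e (nat_lit 204824) (nat_lit 17) .nil))))) .nil)) 
(.lf (nat_lit 49517) (.g (nat_lit 2225) (.e (nat_lit 1348) (nat_lit 102) (.e (nat_lit 286733) (nat_lit 2) (.e (nat_lit 90178) (nat_lit 15) (.e (nat_lit 188440) (nat_lit 20) (.e (nat_lit 3238) (nat_lit 197) .nil))))) .nil))) (.nd (nat_lit 5) 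
(.lf (nat_lit 49501) (.g (nat_lit 2620) (.e (nat_lit 1348) (nat_lit 102) (.e (nat_lit 286733) (nat_lit 2) (.e (nat_lit 90177) (nat_lit 15) (.e (nat_lit 188452) (nat_lit 23) (.e (nat_lit 204815) (nat_lit 17) (.e (nat_lit 6190) (nat_lit 332) .nil)))))) (.g (nat_lit 4) .nil .nil))) 
(.lf (nat_lit 49533) (.g (nat_lit 2117) (.e (nat_lit 1348) (nat_lit 102) (.e (nat_lit 286733) (nat_lit 2) (.e (nat_lit 90178) (nat_lit 15) (.e (nat_lit 188449) (nat_lit 22) (.e (nat_lit 196628) (nat_lit 9) .nil))))) .nil)))))) (.nd (nat_lit 2) (.nd (nat_lit 3) (.nd (nat_lit 4) (.nd (nat_lit 5) 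
(.lf (nat_lit 49475) (.g (nat_lit 2785) (.e (nat_lit 1348) (nat_lit 102) (.e (nat_lit 286733) (nat_lit 2) (.e (nat_lit 90176) (nat_lit 15) (.e (nat_lit 188450) (nat_lit 23) (.e (nat_lit 204816) (nat_lit 17) (.e (nat_lit 6192) (nat_lit 332) .nil)))))) (.g (nat_lit 5) .nil .nil))) 
(.lf (nat_lit 49507) (.g (nat_lit 3516) (.e (nat_lit 1348) (nat_lit 102) (.e (nat_lit 286733) (nat_lit 2) (.e (nat_lit 90177) (nat_lit 15) (.e (nat_lit 188452) (nat_lit 23) (.e (nat_lit 204821) (nat_lit 17) (.e (nat_lit 6092) (nat_lit 332) .nil)))))) (.g (nat_lit 5) .nil .nil)))) (.nd (nat_lit 5) 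
(.lf (nat_lit 49491) (.g (nat_lit 2736) (.e (nat_lit 1348) (nat_lit 102) (.e (nat_lit 286733) (nat_lit 2) (.e (nat_lit 90176) (nat_lit 15) (.e (nat_lit 188452) (nat_lit 23) (.e (nat_lit 204821) (nat_lit 17) (.e (nat_lit 6136) (nat_lit 332) .nil)))))) (.g (nat_lit 5) .nil .nil))) 
(.lf (nat_lit 49523) (.g (nat_lit 1858) (.e (nat_lit 1348) (nat_lit 102) (.e (nat_lit 286733) (nat_lit 2) (.e (nat_lit 90178) (nat_lit 15) (.e (nat_lit 188441) (nat_lit 20) (.e (nat_lit 3143) (nat_lit 193) .nil))))) .nil)))) (.nd (nat_lit 4) (.nd (nat_lit 5) 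
(.lf (nat_lit 49483) (.g (nat_lit 2854) (.e (nat_lit 1348) (nat_lit 102) (.e (nat_lit 286733) (nat_lit 2) (.e (nat_lit 90176) (nat_lit 15) (.e (nat_lit 188450) (nat_lit 23) (.e (nat_lit 204821) (nat_lit 17) (.e (nat_lit 6149) (nat_lit 332) .nil)))))) (.g (nat_lit 4) .nil .nil))) 
(.lf (nat_lit 49515) (.g (nat_lit 2561) (.e (nat_lit 1348) (nat_lit 102) (.e (nat_lit 286733) (nat_lit 2) (.e (nat_lit 90178) (nat_lit 15) (.e (nat_lit 188418) (nat_lit 0) (.e (nat_lit 1856) (nat_lit 124) (.e (nat_lit 557093) (nat_lit 12) (.e (nat_lit 171776) (nat_lit 176) .nil))))))) (.g (nat_lit 6) .nil .nil)))) (.nd (nat_lit 5) 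
(.lf (nat_lit 49499) (.g (nat_lit 2093) (.e (nat_lit 1348) (nat_lit 102) (.e (nat_lit 286733) (nat_lit 2) (.e (nat_lit 90177) (nat_lit 15) (.e (nat_lit 188449) (nat_lit 22) (.e (nat_lit 196661) (nat_lit 12) (.e (nat_lit 57714) (nat_lit 176) .nil)))))) (.g (nat_lit 4) .nil .nil))) 
(.lf (nat_lit 49531) (.g (nat_lit 2946) (.e (nat_lit 1348) (nat_lit 102) (.e (nat_lit 286733) (nat_lit 2) (.e (nat_lit 90178) (nat_lit 15) (.e (nat_lit 188448) (nat_lit 22) (.e (nat_lit 196661) (nat_lit 12) (.e (nat_lit 57714) (nat_lit 176) .nil)))))) (.g (nat_lit 5) .nil .nil)))))) (.nd (nat_lit 3) (.nd (nat_lit 4) (.nd (nat_lit 5) 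
(.lf (nat_lit 49479) (.g (nat_lit 3072) (.e (nat_lit 1348) (nat_lit 102) (.e (nat_lit 286733) (nat_lit 2) (.e (nat_lit 90176) (nat_lit 15) (.e (nat_lit 188450) (nat_lit 23) (.e (nat_lit 204821) (nat_lit 17) (.e (nat_lit 6092) (nat_lit 332) .nil)))))) (.g (nat_lit 4) .nil .nil))) 
(.lf (nat_lit 49511) (.g (nat_lit 3288) (.e (nat_lit 1348) (nat_lit 102) (.e (nat_lit 286733) (nat_lit 2) (.e (nat_lit 90177) (nat_lit 15) (.e (nat_lit 188452) (nat_lit 23) (.e (nat_lit 204821) (nat_lit 17) (.e (nat_lit 6149) (nat_lit 332) .nil)))))) (.g (nat_lit 4) .nil .nil)))) (.nd (nat_lit 5) 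
(.lf (nat_lit 49495) (.g (nat_lit 1077) (.e (nat_lit 1348) (nat_lit 102) (.e (nat_lit 286733) (nat_lit 2) (.e (nat_lit 90177) (nat_lit 15) (.e (nat_lit 188447) (nat_lit 22) .nil)))) .nil)) 
(.lf (nat_lit 49527) (.g (nat_lit 3174) (.e (nat_lit 1348) (nat_lit 102) (.e (nat_lit 286733) (nat_lit 2) (.e (nat_lit 90178) (nat_lit 15) (.e (nat_lit 188447) (nat_lit 22) (.e (nat_lit 196661) (nat_lit 12) (.e (nat_lit 57714) (nat_lit 176) .nil)))))) (.g (nat_lit 5) .nil .nil))))) (.nd (nat_lit 4) (.nd (nat_lit 5) 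
(.lf (nat_lit 49487) (.g (nat_lit 3097) (.e (nat_lit 1348) (nat_lit 102) (.e (nat_lit 286733) (nat_lit 2) (.e (nat_lit 90176) (nat_lit 15) (.e (nat_lit 188452) (nat_lit 23) (.e (nat_lit 204816) (nat_lit 17) .nil))))) .nil)) 
(.lf (nat_lit 49519) (.g (nat_lit 3463) (.e (nat_lit 1348) (nat_lit 102) (.e (nat_lit 286733) (nat_lit 2) (.e (nat_lit 90178) (nat_lit 15) (.e (nat_lit 188440) (nat_lit 20) (.e (nat_lit 3255) (nat_lit 197) (.e (nat_lit 532490) (nat_lit 0) (.e (nat_lit 7936) (nat_lit 332) .nil))))))) (.g (nat_lit 6) .nil .nil)))) (.nd (nat_lit 5) 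
(.lf (nat_lit 49503) (.g (nat_lit 3404) (.e (nat_lit 1348) (nat_lit 102) (.e (nat_lit 286733) (nat_lit 2) (.e (nat_lit 90177) (nat_lit 15) (.e (nat_lit 188452) (nat_lit 23) (.e (nat_lit 204815) (nat_lit 17) (.e (nat_lit 7936) (nat_lit 332) .nil)))))) (.g (nat_lit 5) .nil .nil))) 
(.lf (nat_lit 49535) (.g (nat_lit 3491) (.e (nat_lit 1348) (nat_lit 102) (.e (nat_lit 286733) (nat_lit 2) (.e (nat_lit 90178) (nat_lit 15) (.e (nat_lit 188449) (nat_lit 22) (.e (nat_lit 196661) (nat_lit 12) (.e (nat_lit 57714) (nat_lit 176) .nil)))))) (.g (nat_lit 5) .nil .nil)))))))))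

noncomputable def tv688 : DT := (.nd (nat_lit 0) (.nd (nat_lit 1) (.nd (nat_lit 2) (.nd (nat_lit 3) (.nd (nat_lit 4) (.nd (nat_lit 5) 
(.lf (nat_lit 49536) (.g (nat_lit 3193) (.e (nat_lit 1348) (nat_lit 102) (.e (nat_lit 286733) (nat_lit 2) (.e (nat_lit 90178) (nat_lit 15) (.e (nat_lit 188449) (nat_lit 22) (.e (nat_lit 196661) (nat_lit 12) (.e (nat_lit 57715) (nat_lit 176) .nil)))))) (.g (nat_lit 4) .nil .nil))) 
(.lf (nat_lit 49568) (.g (nat_lit 2094) (.e (nat_lit 1348) (nat_lit 102) (.e (nat_lit 286734) (nat_lit 3) (.e (nat_lit 98370) (nat_lit 28) (.e (nat_lit 442427) (nat_lit 23) (.e (nat_lit 204821) (nat_lit 17) (.e (nat_lit 6136) (nat_lit 332) .nil)))))) (.g (nat_lit 4) .nil .nil)))) (.nd (nat_lit 5) 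
(.lf (nat_lit 49552) (.g (nat_lit 4684) (.e (nat_lit 1348) (nat_lit 102) (.e (nat_lit 286733) (nat_lit 2) (.e (nat_lit 90178) (nat_lit 15) (.e (nat_lit 188452) (nat_lit 23) (.e (nat_lit 204816) (nat_lit 17) (.e (nat_lit 6192) (nat_lit 332) .nil)))))) (.g (nat_lit 5) .nil .nil))) 
(.lf (nat_lit 49584) (.g (nat_lit 2559) (.e (nat_lit 1348) (nat_lit 102) (.e (nat_lit 286735) (nat_lit 3) (.e (nat_lit 98325) (nat_lit 17) (.e (nat_lit 7936) (nat_lit 393) (.e (nat_lit 180250) (nat_lit 10) (.e (nat_lit 573468) (nat_lit 10) (.e (nat_lit 16128) (nat_lit 180) .nil))))))) (.g (nat_lit 6) .nil .nil))))) (.nd (nat_lit 4) (.nd (nat_lit 5) 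
(.lf (nat_lit 49544) (.g (nat_lit 1210) (.e (nat_lit 1348) (nat_lit 102) (.e (nat_lit 286733) (nat_lit 2) (.e (nat_lit 90178) (nat_lit 15) (.e (nat_lit 188451) (nat_lit 23) .nil)))) .nil)) 
(.lf (nat_lit 49576) (.g (nat_lit 5218) (.e (nat_lit 1348) (nat_lit 102) (.e (nat_lit 286735) (nat_lit 3) (.e (nat_lit 98320) (nat_lit 17) (.e (nat_lit 7065) (nat_lit 377) (.e (nat_lit 1349) (nat_lit 102) (.e (nat_lit 286735) (nat_lit 3) (.e (nat_lit 98320) (nat_lit 17) (.e (nat_lit 7065) (nat_lit 377) .nil)))))))) (.g (nat_lit 8) .nil .nil)))) (.nd (nat_lit 5) 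
(.lf (nat_lit 49560) (.g (nat_lit 1152) (.e (nat_lit 1348) (nat_lit 102) (.e (nat_lit 286733) (nat_lit 2) (.e (nat_lit 90185) (nat_lit 17) (.e (nat_lit 237605) (nat_lit 9) .nil)))) .nil)) 
(.lf (nat_lit 49592) (.g (nat_lit 3453) (.e (nat_lit 1348) (nat_lit 102) (.e (nat_lit 286735) (nat_lit 3) (.e (nat_lit 98342) (nat_lit 20) (.e (nat_lit 221211) (nat_lit 22) (.e (nat_lit 204544) (nat_lit 5) (.e (nat_lit 180252) (nat_lit 10) (.e (nat_lit 573503) (nat_lit 18) .nil))))))) (.g (nat_lit 4) .nil .nil)))))) (.nd (nat_lit 3) (.nd (nat_lit 4) (.nd (nat_lit 5) 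
(.lf (nat_lit 49540) (.g (nat_lit 2575) (.e (nat_lit 1348) (nat_lit 102) (.e (nat_lit 286733) (nat_lit 2) (.e (nat_lit 90178) (nat_lit 15) (.e (nat_lit 188450) (nat_lit 23) (.e (nat_lit 204821) (nat_lit 17) (.e (nat_lit 6092) (nat_lit 332) .nil)))))) (.g (nat_lit 4) .nil .nil))) 
(.lf (nat_lit 49572) (.g (nat_lit 5394) (.e (nat_lit 1348) (nat_lit 102) (.e (nat_lit 286735) (nat_lit 3) (.e (nat_lit 98320) (nat_lit 17) (.e (nat_lit 7065) (nat_lit 377) (.e (nat_lit 1348) (nat_lit 102) (.e (nat_lit 286735) (nat_lit 3) (.e (nat_lit 98320) (nat_lit 17) (.e (nat_lit 7065) (nat_lit 377) .nil)))))))) (.g (nat_lit 7) .nil .nil)))) (.nd (nat_lit 5) 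
(.lf (nat_lit 49556) (.g (nat_lit 3444) (.e (nat_lit 1348) (nat_lit 102) (.e (nat_lit 286733) (nat_lit 2) (.e (nat_lit 90178) (nat_lit 15) (.e (nat_lit 188452) (nat_lit 23) (.e (nat_lit 204821) (nat_lit 17) (.e (nat_lit 6136) (nat_lit 332) .nil)))))) (.g (nat_lit 5) .nil .nil))) 
(.lf (nat_lit 49588) (.g (nat_lit 2136) (.e (nat_lit 1348) (nat_lit 102) (.e (nat_lit 286735) (nat_lit 3) (.e (nat_lit 98341) (nat_lit 20) (.e (nat_lit 221218) (nat_lit 24) .nil)))) .nil)))) (.nd (nat_lit 4) (.nd (nat_lit 5) 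
(.lf (nat_lit 49548) (.g (nat_lit 2469) (.e (nat_lit 1348) (nat_lit 102) (.e (nat_lit 286733) (nat_lit 2) (.e (nat_lit 90178) (nat_lit 15) (.e (nat_lit 188451) (nat_lit 23) (.e (nat_lit 204821) (nat_lit 17) (.e (nat_lit 7936) (nat_lit 332) .nil)))))) (.g (nat_lit 5) .nil .nil))) 
(.lf (nat_lit 49580) (.g (nat_lit 4359) (.e (nat_lit 1348) (nat_lit 102) (.e (nat_lit 286735) (nat_lit 3) (.e (nat_lit 98323) (nat_lit 17) (.e (nat_lit 6989) (nat_lit 377) (.e (nat_lit 1361) (nat_lit 102) (.e (nat_lit 286735) (nat_lit 3) (.e (nat_lit 98320) (nat_lit 17) (.e (nat_lit 7065) (nat_lit 377) .nil)))))))) (.g (nat_lit 7) .nil .nil)))) (.nd (nat_lit 5) 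
(.lf (nat_lit 49564) (.g (nat_lit 4003) (.e (nat_lit 1348) (nat_lit 102) (.e (nat_lit 286734) (nat_lit 3) (.e (nat_lit 98359) (nat_lit 26) (.e (nat_lit 426286) (nat_lit 10) (.e (nat_lit 434245) (nat_lit 28) (.e (nat_lit 573468) (nat_lit 10) (.e (nat_lit 16128) (nat_lit 180) .nil))))))) (.g (nat_lit 6) .nil .nil))) 
(.lf (nat_lit 49596) (.g (nat_lit 3552) (.e (nat_lit 1348) (nat_lit 102) (.e (nat_lit 286735) (nat_lit 3) (.e (nat_lit 98342) (nat_lit 20) (.e (nat_lit 221219) (nat_lit 24) (.e (nat_lit 212993) (nat_lit 0) (.e (nat_lit 1638) (nat_lit 114) (.e (nat_lit 392960) (nat_lit 16) .nil))))))) (.g (nat_lit 6) .nil .nil))))))) (.nd (nat_lit 2) (.nd (nat_lit 3) (.nd (nat_lit 4) (.nd (nat_lit 5) 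
(.lf (nat_lit 49538) (.g (nat_lit 1183) (.e (nat_lit 1348) (nat_lit 102) (.e (nat_lit 286733) (nat_lit 2) (.e (nat_lit 90178) (nat_lit 15) (.e (nat_lit 188450) (nat_lit 23) .nil)))) .nil)) 
(.lf (nat_lit 49570) (.g (nat_lit 2868) (.e (nat_lit 1348) (nat_lit 102) (.e (nat_lit 286734) (nat_lit 3) (.e (nat_lit 98373) (nat_lit 29) (.e (nat_lit 450588) (nat_lit 10) (.e (nat_lit 573468) (nat_lit 10) (.e (nat_lit 16128) (nat_lit 180) .nil)))))) (.g (nat_lit 4) .nil .nil)))) (.nd (nat_lit 5) 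
(.lf (nat_lit 49554) (.g (nat_lit 3654) (.e (nat_lit 1348) (nat_lit 102) (.e (nat_lit 286733) (nat_lit 2) (.e (nat_lit 90178) (nat_lit 15) (.e (nat_lit 188452) (nat_lit 23) (.e (nat_lit 204821) (nat_lit 17) (.e (nat_lit 6092) (nat_lit 332) .nil)))))) (.g (nat_lit 6) .nil .nil))) 
(.lf (nat_lit 49586) (.g (nat_lit 647) (.e (nat_lit 1348) (nat_lit 102) (.e (nat_lit 286735) (nat_lit 3) (.e (nat_lit 98341) (nat_lit 20) .nil))) .nil)))) (.nd (nat_lit 4) (.nd (nat_lit 5) 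
(.lf (nat_lit 49546) (.g (nat_lit 2607) (.e (nat_lit 1348) (nat_lit 102) (.e (nat_lit 286733) (nat_lit 2) (.e (nat_lit 90178) (nat_lit 15) (.e (nat_lit 188451) (nat_lit 23) (.e (nat_lit 204821) (nat_lit 17) (.e (nat_lit 6126) (nat_lit 332) .nil)))))) (.g (nat_lit 4) .nil .nil))) 
(.lf (nat_lit 49578) (.g (nat_lit 3634) (.e (nat_lit 1348) (nat_lit 102) (.e (nat_lit 286735) (nat_lit 3) (.e (nat_lit 98320) (nat_lit 17) (.e (nat_lit 7065) (nat_lit 377) (.e (nat_lit 1349) (nat_lit 102) (.e (nat_lit 286735) (nat_lit 3) (.e (nat_lit 98325) (nat_lit 17) (.e (nat_lit 7936) (nat_lit 377) .nil)))))))) (.g (nat_lit 6) .nil .nil)))) (.nd (nat_lit 5) 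
(.lf (nat_lit 49562) (.g (nat_lit 2913) (.e (nat_lit 1348) (nat_lit 102) (.e (nat_lit 286734) (nat_lit 3) (.e (nat_lit 98359) (nat_lit 26) (.e (nat_lit 426211) (nat_lit 9) (.e (nat_lit 426125) (nat_lit 2) (.e (nat_lit 204544) (nat_lit 12) (.e (nat_lit 57713) (nat_lit 176) .nil))))))) (.g (nat_lit 4) .nil .nil))) 
(.lf (nat_lit 49594) (.g (nat_lit 1751) (.e (nat_lit 1348) (nat_lit 102) (.e (nat_lit 286735) (nat_lit 3) (.e (nat_lit 98342) (nat_lit 20) (.e (nat_lit 221217) (nat_lit 24) .nil)))) .nil))))) (.nd (nat_lit 3) (.nd (nat_lit 4) (.nd (nat_lit 5) 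
(.lf (nat_lit 49542) (.g (nat_lit 3017) (.e (nat_lit 1348) (nat_lit 102) (.e (nat_lit 286733) (nat_lit 2) (.e (nat_lit 90178) (nat_lit 15) (.e (nat_lit 188450) (nat_lit 23) (.e (nat_lit 204821) (nat_lit 17) (.e (nat_lit 6136) (nat_lit 332) .nil)))))) (.g (nat_lit 4) .nil .nil))) 
(.lf (nat_lit 49574) (.g (nat_lit 2315) (.e (nat_lit 1348) (nat_lit 102) (.e (nat_lit 286735) (nat_lit 3) (.e (nat_lit 98320) (nat_lit 17) (.e (nat_lit 7065) (nat_lit 377) (.e (nat_lit 1349) (nat_lit 102) (.e (nat_lit 286733) (nat_lit 2) (.e (nat_lit 90165) (nat_lit 12) (.e (nat_lit 171776) (nat_lit 176) .nil)))))))) (.g (nat_lit 4) .nil .nil)))) (.nd (nat_lit 5) 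
(.lf (nat_lit 49558) (.g (nat_lit 3214) (.e (nat_lit 1348) (nat_lit 102) (.e (nat_lit 286733) (nat_lit 2) (.e (nat_lit 90178) (nat_lit 15) (.e (nat_lit 188452) (nat_lit 23) (.e (nat_lit 204821) (nat_lit 17) (.e (nat_lit 7936) (nat_lit 332) .nil)))))) (.g (nat_lit 5) .nil .nil))) 
(.lf (nat_lit 49590) (.g (nat_lit 362) (.e (nat_lit 1348) (nat_lit 102) (.e (nat_lit 286735) (nat_lit 3) (.e (nat_lit 98342) (nat_lit 20) .nil))) .nil)))) (.nd (nat_lit 4) (.nd (nat_lit 5) 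
(.lf (nat_lit 49550) (.g (nat_lit 3206) (.e (nat_lit 1348) (nat_lit 102) (.e (nat_lit 286733) (nat_lit 2) (.e (nat_lit 90178) (nat_lit 15) (.e (nat_lit 188452) (nat_lit 23) (.e (nat_lit 204815) (nat_lit 17) (.e (nat_lit 6192) (nat_lit 332) .nil)))))) (.g (nat_lit 4) .nil .nil))) 
(.lf (nat_lit 49582) (.g (nat_lit 1260) (.e (nat_lit 1348) (nat_lit 102) (.e (nat_lit 286735) (nat_lit 3) (.e (nat_lit 98325) (nat_lit 17) (.e (nat_lit 7083) (nat_lit 379) .nil)))) .nil))) (.nd (nat_lit 5) 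
(.lf (nat_lit 49566) (.g (nat_lit 2033) (.e (nat_lit 1348) (nat_lit 102) (.e (nat_lit 286734) (nat_lit 3) (.e (nat_lit 98370) (nat_lit 28) (.e (nat_lit 442424) (nat_lit 22) (.e (nat_lit 196661) (nat_lit 12) .nil))))) .nil)) 
(.lf (nat_lit 49598) (.g (nat_lit 3705) (.e (nat_lit 1348) (nat_lit 102) (.e (nat_lit 286735) (nat_lit 3) (.e (nat_lit 98350) (nat_lit 24) (.e (nat_lit 409602) (nat_lit 0) (.e (nat_lit 5293) (nat_lit 298) (.e (nat_lit 1250) (nat_lit 92) (.e (nat_lit 98321) (nat_lit 17) (.e (nat_lit 7060) (nat_lit 377) .nil)))))))) (.g (nat_lit 6) .nil .nil)))))))) 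
(.nd (nat_lit 1) (.nd (nat_lit 2) (.nd (nat_lit 3) (.nd (nat_lit 4) (.nd (nat_lit 5) 
(.lf (nat_lit 49537) (.g (nat_lit 2635) (.e (nat_lit 1348) (nat_lit 102) (.e (nat_lit 286733) (nat_lit 2) (.e (nat_lit 90178) (nat_lit 15) (.e (nat_lit 188449) (nat_lit 22) (.e (nat_lit 196661) (nat_lit 12) (.e (nat_lit 65280) (nat_lit 176) .nil)))))) (.g (nat_lit 5) .nil .nil))) 
(.lf (nat_lit 49569) (.g (nat_lit 1613) (.e (nat_lit 1348) (nat_lit 102) (.e (nat_lit 286734) (nat_lit 3) (.e (nat_lit 98372) (nat_lit 29) (.e (nat_lit 450579) (nat_lit 5) .nil)))) .nil))) (.nd (nat_lit 5) 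
(.lf (nat_lit 49553) (.g (nat_lit 2359) (.e (nat_lit 1348) (nat_lit 102) (.e (nat_lit 286733) (nat_lit 2) (.e (nat_lit 90178) (nat_lit 15) (.e (nat_lit 188452) (nat_lit 23) (.e (nat_lit 204817) (nat_lit 17) .nil))))) .nil)) 
(.lf (nat_lit 49585) (.g (nat_lit 2302) (.e (nat_lit 1348) (nat_lit 102) (.e (nat_lit 286735) (nat_lit 3) (.e (nat_lit 98325) (nat_lit 17) (.e (nat_lit 7936) (nat_lit 393) (.e (nat_lit 180252) (nat_lit 10) (.e (nat_lit 573468) (nat_lit 10) (.e (nat_lit 16128) (nat_lit 180) .nil))))))) (.g (nat_lit 6) .nil .nil))))) (.nd (nat_lit 4) (.nd (nat_lit 5) 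
(.lf (nat_lit 49545) (.g (nat_lit 2666) (.e (nat_lit 1348) (nat_lit 102) (.e (nat_lit 286733) (nat_lit 2) (.e (nat_lit 90178) (nat_lit 15) (.e (nat_lit 188451) (nat_lit 23) (.e (nat_lit 204821) (nat_lit 17) (.e (nat_lit 6092) (nat_lit 332) .nil)))))) (.g (nat_lit 4) .nil .nil))) 
(.lf (nat_lit 49577) (.g (nat_lit 2577) (.e (nat_lit 1348) (nat_lit 102) (.e (nat_lit 286735) (nat_lit 3) (.e (nat_lit 98320) (nat_lit 17) (.e (nat_lit 7065) (nat_lit 377) (.e (nat_lit 1349) (nat_lit 102) (.e (nat_lit 286735) (nat_lit 3) (.e (nat_lit 98321) (nat_lit 17) (.e (nat_lit 7060) (nat_lit 377) .nil)))))))) (.g (nat_lit 4) .nil .nil)))) (.nd (nat_lit 5) 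
(.lf (nat_lit 49561) (.g (nat_lit 1426) (.e (nat_lit 1348) (nat_lit 102) (.e (nat_lit 286734) (nat_lit 3) (.e (nat_lit 98359) (nat_lit 26) (.e (nat_lit 426211) (nat_lit 9) .nil)))) .nil)) 
(.lf (nat_lit 49593) (.g (nat_lit 3664) (.e (nat_lit 1348) (nat_lit 102) (.e (nat_lit 286735) (nat_lit 3) (.e (nat_lit 98342) (nat_lit 20) (.e (nat_lit 221212) (nat_lit 22) (.e (nat_lit 204544) (nat_lit 5) (.e (nat_lit 180252) (nat_lit 10) (.e (nat_lit 573503) (nat_lit 18) .nil))))))) (.g (nat_lit 4) .nil .nil)))))) (.nd (nat_lit 3) (.nd (nat_lit 4) (.nd (nat_lit 5) 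
(.lf (nat_lit 49541) (.g (nat_lit 3187) (.e (nat_lit 1348) (nat_lit 102) (.e (nat_lit 286733) (nat_lit 2) (.e (nat_lit 90178) (nat_lit 15) (.e (nat_lit 188450) (nat_lit 23) (.e (nat_lit 204821) (nat_lit 17) (.e (nat_lit 6126) (nat_lit 332) .nil)))))) (.g (nat_lit 5) .nil .nil))) 
(.lf (nat_lit 49573) (.g (nat_lit 3241) (.e (nat_lit 1348) (nat_lit 102) (.e (nat_lit 286735) (nat_lit 3) (.e (nat_lit 98320) (nat_lit 17) (.e (nat_lit 7065) (nat_lit 377) (.e (nat_lit 1348) (nat_lit 102) (.e (nat_lit 286735) (nat_lit 3) (.e (nat_lit 98325) (nat_lit 17) (.e (nat_lit 7936) (nat_lit 377) .nil)))))))) (.g (nat_lit 5) .nil .nil)))) (.nd (nat_lit 5) 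
(.lf (nat_lit 49557) (.g (nat_lit 3228) (.e (nat_lit 1348) (nat_lit 102) (.e (nat_lit 286733) (nat_lit 2) (.e (nat_lit 90178) (nat_lit 15) (.e (nat_lit 188452) (nat_lit 23) (.e (nat_lit 204821) (nat_lit 17) (.e (nat_lit 6149) (nat_lit 332) .nil)))))) (.g (nat_lit 4) .nil .nil))) 
(.lf (nat_lit 49589) (.g (nat_lit 2134) (.e (nat_lit 1348) (nat_lit 102) (.e (nat_lit 286735) (nat_lit 3) (.e (nat_lit 98341) (nat_lit 20) (.e (nat_lit 221219) (nat_lit 24) .nil)))) .nil)))) (.nd (nat_lit 4) (.nd (nat_lit 5) 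
(.lf (nat_lit 49549) (.g (nat_lit 2394) (.e (nat_lit 1348) (nat_lit 102) (.e (nat_lit 286733) (nat_lit 2) (.e (nat_lit 90178) (nat_lit 15) (.e (nat_lit 188452) (nat_lit 23) (.e (nat_lit 204815) (nat_lit 17) .nil))))) .nil)) 
(.lf (nat_lit 49581) (.g (nat_lit 1426) (.e (nat_lit 1348) (nat_lit 102) (.e (nat_lit 286735) (nat_lit 3) (.e (nat_lit 98323) (nat_lit 17) (.e (nat_lit 7936) (nat_lit 392) .nil)))) .nil))) (.nd (nat_lit 5) 
(.lf (nat_lit 49565) (.g (nat_lit 2968) (.e (nat_lit 1348) (nat_lit 102) (.e (nat_lit 286734) (nat_lit 3) (.e (nat_lit 98359) (nat_lit 26) (.e (nat_lit 426286) (nat_lit 10) (.e (nat_lit 434248) (nat_lit 28) (.e (nat_lit 573468) (nat_lit 10) (.e (nat_lit 16128) (nat_lit 180) .nil))))))) (.g (nat_lit 4) .nil .nil))) 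
(.lf (nat_lit 49597) (.g (nat_lit 4110) (.e (nat_lit 1348) (nat_lit 102) (.e (nat_lit 286735) (nat_lit 3) (.e (nat_lit 98350) (nat_lit 24) (.e (nat_lit 409602) (nat_lit 0) (.e (nat_lit 5293) (nat_lit 298) (.e (nat_lit 1250) (nat_lit 92) (.e (nat_lit 98319) (nat_lit 17) (.e (nat_lit 7065) (nat_lit 377) .nil)))))))) (.g (nat_lit 6) .nil .nil))))))) 
(.nd (nat_lit 2) (.nd (nat_lit 3) (.nd (nat_lit 4) (.nd (nat_lit 5) 
(.lf (nat_lit 49539) (.g (nat_lit 1810) (.e (nat_lit 1348) (nat_lit 102) (.e (nat_lit 286733) (nat_lit 2) (.e (nat_lit 90178) (nat_lit 15) (.e (nat_lit 188450) (nat_lit 23) (.e (nat_lit 204819) (nat_lit 17) .nil))))) .nil)) 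
(.lf (nat_lit 49571) (.g (nat_lit 2977) (.e (nat_lit 1348) (nat_lit 102) (.e (nat_lit 286735) (nat_lit 3) (.e (nat_lit 98319) (nat_lit 17) (.e (nat_lit 7065) (nat_lit 377) (.e (nat_lit 1348) (nat_lit 102) (.e (nat_lit 286735) (nat_lit 3) (.e (nat_lit 98320) (nat_lit 17) (.e (nat_lit 7065) (nat_lit 377) .nil)))))))) (.g (nat_lit 4) .nil .nil)))) (.nd (nat_lit 5) 
(.lf (nat_lit 49555) (.g (nat_lit 3595) (.e (nat_lit 1348) (nat_lit 102) (.e (nat_lit 286733) (nat_lit 2) (.e (nat_lit 90178) (nat_lit 15) (.e (nat_lit 188452) (nat_lit 23) (.e (nat_lit 204821) (nat_lit 17) (.e (nat_lit 6126) (nat_lit 332) .nil)))))) (.g (nat_lit 5) .nil .nil))) 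
(.lf (nat_lit 49587) (.g (nat_lit 2136) (.e (nat_lit 1348) (nat_lit 102) (.e (nat_lit 286735) (nat_lit 3) (.e (nat_lit 98341) (nat_lit 20) (.e (nat_lit 221217) (nat_lit 24) .nil)))) .nil)))) (.nd (nat_lit 4) (.nd (nat_lit 5) 
(.lf (nat_lit 49547) (.g (nat_lit 2793) (.e (nat_lit 1348) (nat_lit 102) (.e (nat_lit 286733) (nat_lit 2) (.e (nat_lit 90178) (nat_lit 15) (.e (nat_lit 188451) (nat_lit 23) (.e (nat_lit 204821) (nat_lit 17) (.e (nat_lit 6136) (nat_lit 332) .nil)))))) (.g (nat_lit 4) .nil .nil))) 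
(.lf (nat_lit 49579) (.g (nat_lit 1116) (.e (nat_lit 1348) (nat_lit 102) (.e (nat_lit 286735) (nat_lit 3) (.e (nat_lit 98323) (nat_lit 17) (.e (nat_lit 6989) (nat_lit 377) .nil)))) .nil))) (.nd (nat_lit 5) 
(.lf (nat_lit 49563) (.g (nat_lit 1781) (.e (nat_lit 1348) (nat_lit 102) (.e (nat_lit 286734) (nat_lit 3) (.e (nat_lit 98359) (nat_lit 26) (.e (nat_lit 426212) (nat_lit 9) .nil)))) .nil)) 
(.lf (nat_lit 49595) (.g (nat_lit 3691) (.e (nat_lit 1348) (nat_lit 102) (.e (nat_lit 286735) (nat_lit 3) (.e (nat_lit 98342) (nat_lit 20) (.e (nat_lit 221219) (nat_lit 24) (.e (nat_lit 212992) (nat_lit 0) (.e (nat_lit 1638) (nat_lit 114) (.e (nat_lit 392960) (nat_lit 16) .nil))))))) (.g (nat_lit 6) .nil .nil)))))) (.nd (nat_lit 3) (.nd (nat_lit 4) (.nd (nat_lit 5) 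
(.lf (nat_lit 49543) (.g (nat_lit 2882) (.e (nat_lit 1348) (nat_lit 102) (.e (nat_lit 286733) (nat_lit 2) (.e (nat_lit 90178) (nat_lit 15) (.e (nat_lit 188450) (nat_lit 23) (.e (nat_lit 204821) (nat_lit 17) (.e (nat_lit 7936) (nat_lit 332) .nil)))))) (.g (nat_lit 5) .nil .nil))) 
(.lf (nat_lit 49575) (.g (nat_lit 3333) (.e (nat_lit 1348) (nat_lit 102) (.e (nat_lit 286735) (nat_lit 3) (.e (nat_lit 98320) (nat_lit 17) (.e (nat_lit 7065) (nat_lit 377) (.e (nat_lit 1349) (nat_lit 102) (.e (nat_lit 286735) (nat_lit 3) (.e (nat_lit 98319) (nat_lit 17) (.e (nat_lit 7065) (nat_lit 377) .nil)))))))) (.g (nat_lit 5) .nil .nil)))) (.nd (nat_lit 5) 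
(.lf (nat_lit 49559) (.g (nat_lit 2451) (.e (nat_lit 1348) (nat_lit 102) (.e (nat_lit 286733) (nat_lit 2) (.e (nat_lit 90178) (nat_lit 15) (.e (nat_lit 188458) (nat_lit 25) (.e (nat_lit 245784) (nat_lit 9) (.e (nat_lit 1023) (nat_lit 81) (.e (nat_lit 7936) (nat_lit 332) .nil))))))) (.g (nat_lit 6) .nil .nil))) 
(.lf (nat_lit 49591) (.g (nat_lit 3210) (.e (nat_lit 1348) (nat_lit 102) (.e (nat_lit 286735) (nat_lit 3) (.e (nat_lit 98342) (nat_lit 20) (.e (nat_lit 221198) (nat_lit 20) (.e (nat_lit 3114) (nat_lit 193) (.e (nat_lit 499922) (nat_lit 10) (.e (nat_lit 180252) (nat_lit 10) (.e (nat_lit 573503) (nat_lit 18) .nil)))))))) (.g (nat_lit 4) .nil .nil))))) (.nd (nat_lit 4) (.nd (nat_lit 5) 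
(.lf (nat_lit 49551) (.g (nat_lit 3304) (.e (nat_lit 1348) (nat_lit 102) (.e (nat_lit 286733) (nat_lit 2) (.e (nat_lit 90178) (nat_lit 15) (.e (nat_lit 188452) (nat_lit 23) (.e (nat_lit 204816) (nat_lit 17) .nil))))) .nil)) 
(.lf (nat_lit 49583) (.g (nat_lit 2193) (.e (nat_lit 1348) (nat_lit 102) (.e (nat_lit 286735) (nat_lit 3) (.e (nat_lit 98325) (nat_lit 17) (.e (nat_lit 7083) (nat_lit 379) (.e (nat_lit 123176) (nat_lit 259) (.e (nat_lit 163962) (nat_lit 25) (.e (nat_lit 532490) (nat_lit 0) (.e (nat_lit 7936) (nat_lit 332) .nil)))))))) (.g (nat_lit 4) .nil .nil)))) (.nd (nat_lit 5) 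
(.lf (nat_lit 49567) (.g (nat_lit 2031) (.e (nat_lit 1348) (nat_lit 102) (.e (nat_lit 286734) (nat_lit 3) (.e (nat_lit 98370) (nat_lit 28) (.e (nat_lit 442427) (nat_lit 23) (.e (nat_lit 204821) (nat_lit 17) .nil))))) .nil)) 
(.lf (nat_lit 49599) (.g (nat_lit 5193) (.e (nat_lit 1348) (nat_lit 102) (.e (nat_lit 286735) (nat_lit 3) (.e (nat_lit 98350) (nat_lit 24) (.e (nat_lit 409602) (nat_lit 0) (.e (nat_lit 5389) (nat_lit 301) (.e (nat_lit 57464) (nat_lit 23) (.e (nat_lit 516098) (nat_lit 0) (.e (nat_lit 7065) (nat_lit 377) .nil)))))))) (.g (nat_lit 8) .nil .nil)))))))))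

noncomputable def tv689 : DT := (.nd (nat_lit 0) (.nd (nat_lit 1) (.nd (nat_lit 2) (.nd (nat_lit 3) (.nd (nat_lit 4) (.nd (nat_lit 5) 
(.lf (nat_lit 49600) (.g (nat_lit 2667) (.e (nat_lit 1348) (nat_lit 102) (.e (nat_lit 286735) (nat_lit 3) (.e (nat_lit 98350) (nat_lit 24) (.e (nat_lit 409602) (nat_lit 0) (.e (nat_lit 5389) (nat_lit 301) (.e (nat_lit 57464) (nat_lit 23) (.e (nat_lit 516106) (nat_lit 0) (.e (nat_lit 7936) (nat_lit 377) .nil)))))))) (.g (nat_lit 4) .nil .nil))) 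
(.lf (nat_lit 49632) (.g (nat_lit 2310) (.e (nat_lit 1348) (nat_lit 102) (.e (nat_lit 286735) (nat_lit 3) (.e (nat_lit 98356) (nat_lit 26) (.e (nat_lit 426248) (nat_lit 9) .nil)))) .nil))) (.nd (nat_lit 5) 
(.lf (nat_lit 49616) (.g (nat_lit 5070) (.e (nat_lit 1348) (nat_lit 102) (.e (nat_lit 286735) (nat_lit 3) (.e (nat_lit 98353) (nat_lit 25) (.e (nat_lit 417810) (nat_lit 6) (.e (nat_lit 286734) (nat_lit 3) (.e (nat_lit 98320) (nat_lit 17) (.e (nat_lit 7065) (nat_lit 377) .nil))))))) (.g (nat_lit 0) .nil .nil))) 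
(.lf (nat_lit 49648) (.g (nat_lit 2802) (.e (nat_lit 1348) (nat_lit 102) (.e (nat_lit 286735) (nat_lit 3) (.e (nat_lit 98359) (nat_lit 26) (.e (nat_lit 426185) (nat_lit 9) (.e (nat_lit 426125) (nat_lit 2) (.e (nat_lit 196661) (nat_lit 12) (.e (nat_lit 65280) (nat_lit 176) .nil))))))) (.g (nat_lit 5) .nil .nil))))) (.nd (nat_lit 4) (.nd (nat_lit 5) 
(.lf (nat_lit 49608) (.g (nat_lit 3821) (.e (nat_lit 1348) (nat_lit 102) (.e (nat_lit 286735) (nat_lit 3) (.e (nat_lit 98353) (nat_lit 25) (.e (nat_lit 417809) (nat_lit 6) (.e (nat_lit 286733) (nat_lit 2) (.e (nat_lit 90165) (nat_lit 12) (.e (nat_lit 171776) (nat_lit 176) .nil))))))) (.g (nat_lit 6) .nil .nil))) 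
(.lf (nat_lit 49640) (.g (nat_lit 2601) (.e (nat_lit 1348) (nat_lit 102) (.e (nat_lit 286735) (nat_lit 3) (.e (nat_lit 98359) (nat_lit 26) (.e (nat_lit 426166) (nat_lit 7) .nil)))) .nil))) (.nd (nat_lit 5) 
(.lf (nat_lit 49624) (.g (nat_lit 2581) (.e (nat_lit 1348) (nat_lit 102) (.e (nat_lit 286735) (nat_lit 3) (.e (nat_lit 98354) (nat_lit 26) (.e (nat_lit 426289) (nat_lit 10) (.e (nat_lit 434231) (nat_lit 23) (.e (nat_lit 532490) (nat_lit 0) (.e (nat_lit 7936) (nat_lit 332) .nil))))))) (.g (nat_lit 4) .nil .nil))) 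
(.lf (nat_lit 49656) (.g (nat_lit 2769) (.e (nat_lit 1348) (nat_lit 102) (.e (nat_lit 286735) (nat_lit 3) (.e (nat_lit 98359) (nat_lit 26) (.e (nat_lit 426209) (nat_lit 9) .nil)))) .nil))))) (.nd (nat_lit 3) (.nd (nat_lit 4) (.nd (nat_lit 5) 
(.lf (nat_lit 49604) (.g (nat_lit 2463) (.e (nat_lit 1348) (nat_lit 102) (.e (nat_lit 286735) (nat_lit 3) (.e (nat_lit 98350) (nat_lit 24) (.e (nat_lit 409607) (nat_lit 0) .nil)))) .nil)) 
(.lf (nat_lit 49636) (.g (nat_lit 4075) (.e (nat_lit 1348) (nat_lit 102) (.e (nat_lit 286735) (nat_lit 3) (.e (nat_lit 98356) (nat_lit 26) (.e (nat_lit 426270) (nat_lit 9) (.e (nat_lit 426124) (nat_lit 2) (.e (nat_lit 196677) (nat_lit 16) (.e (nat_lit 130816) (nat_lit 176) .nil))))))) (.g (nat_lit 5) .nil .nil)))) (.nd (nat_lit 5) 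
(.lf (nat_lit 49620) (.g (nat_lit 4352) (.e (nat_lit 1348) (nat_lit 102) (.e (nat_lit 286735) (nat_lit 3) (.e (nat_lit 98353) (nat_lit 25) (.e (nat_lit 417810) (nat_lit 6) (.e (nat_lit 286735) (nat_lit 3) (.e (nat_lit 98325) (nat_lit 17) (.e (nat_lit 7936) (nat_lit 377) .nil))))))) (.g (nat_lit 6) .nil .nil))) 
(.lf (nat_lit 49652) (.g (nat_lit 1579) (.e (nat_lit 1348) (nat_lit 102) (.e (nat_lit 286735) (nat_lit 3) (.e (nat_lit 98359) (nat_lit 26) (.e (nat_lit 426208) (nat_lit 9) .nil)))) .nil)))) (.nd (nat_lit 4) (.nd (nat_lit 5) 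
(.lf (nat_lit 49612) (.g (nat_lit 3409) (.e (nat_lit 1348) (nat_lit 102) (.e (nat_lit 286735) (nat_lit 3) (.e (nat_lit 98353) (nat_lit 25) (.e (nat_lit 417809) (nat_lit 6) (.e (nat_lit 286735) (nat_lit 3) (.e (nat_lit 98325) (nat_lit 17) (.e (nat_lit 7936) (nat_lit 377) .nil))))))) (.g (nat_lit 5) .nil .nil))) 
(.lf (nat_lit 49644) (.g (nat_lit 4536) (.e (nat_lit 1348) (nat_lit 102) (.e (nat_lit 286735) (nat_lit 3) (.e (nat_lit 98359) (nat_lit 26) (.e (nat_lit 426185) (nat_lit 9) (.e (nat_lit 426125) (nat_lit 2) (.e (nat_lit 196661) (nat_lit 12) (.e (nat_lit 57711) (nat_lit 176) .nil))))))) (.g (nat_lit 6) .nil .nil)))) (.nd (nat_lit 5) 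
(.lf (nat_lit 49628) (.g (nat_lit 1907) (.e (nat_lit 1348) (nat_lit 102) (.e (nat_lit 286735) (nat_lit 3) (.e (nat_lit 98356) (nat_lit 26) (.e (nat_lit 426244) (nat_lit 9) .nil)))) .nil)) 
(.lf (nat_lit 49660) (.g (nat_lit 3776) (.e (nat_lit 1348) (nat_lit 102) (.e (nat_lit 286735) (nat_lit 3) (.e (nat_lit 98359) (nat_lit 26) (.e (nat_lit 426211) (nat_lit 9) (.e (nat_lit 426125) (nat_lit 2) (.e (nat_lit 204544) (nat_lit 12) (.e (nat_lit 57713) (nat_lit 176) .nil))))))) (.g (nat_lit 5) .nil .nil))))))) (.nd (nat_lit 2) (.nd (nat_lit 3) (.nd (nat_lit 4) (.nd (nat_lit 5) 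
(.lf (nat_lit 49602) (.g (nat_lit 2111) (.e (nat_lit 1348) (nat_lit 102) (.e (nat_lit 286735) (nat_lit 3) (.e (nat_lit 98350) (nat_lit 24) (.e (nat_lit 409603) (nat_lit 0) .nil)))) .nil)) 
(.lf (nat_lit 49634) (.g (nat_lit 2315) (.e (nat_lit 1348) (nat_lit 102) (.e (nat_lit 286735) (nat_lit 3) (.e (nat_lit 98356) (nat_lit 26) (.e (nat_lit 426251) (nat_lit 9) .nil)))) .nil))) (.nd (nat_lit 5) 
(.lf (nat_lit 49618) (.g (nat_lit 5817) (.e (nat_lit 1348) (nat_lit 102) (.e (nat_lit 286735) (nat_lit 3) (.e (nat_lit 98353) (nat_lit 25) (.e (nat_lit 417810) (nat_lit 6) (.e (nat_lit 286735) (nat_lit 3) (.e (nat_lit 98320) (nat_lit 17) (.e (nat_lit 7065) (nat_lit 377) .nil))))))) (.g (nat_lit 0) .nil .nil))) 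
(.lf (nat_lit 49650) (.g (nat_lit 2771) (.e (nat_lit 1348) (nat_lit 102) (.e (nat_lit 286735) (nat_lit 3) (.e (nat_lit 98359) (nat_lit 26) (.e (nat_lit 426206) (nat_lit 9) .nil)))) .nil)))) (.nd (nat_lit 4) (.nd (nat_lit 5) 
(.lf (nat_lit 49610) (.g (nat_lit 4482) (.e (nat_lit 1348) (nat_lit 102) (.e (nat_lit 286735) (nat_lit 3) (.e (nat_lit 98353) (nat_lit 25) (.e (nat_lit 417809) (nat_lit 6) (.e (nat_lit 286734) (nat_lit 3) (.e (nat_lit 98320) (nat_lit 17) (.e (nat_lit 7065) (nat_lit 377) .nil))))))) (.g (nat_lit 7) .nil .nil))) 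
(.lf (nat_lit 49642) (.g (nat_lit 4038) (.e (nat_lit 1348) (nat_lit 102) (.e (nat_lit 286735) (nat_lit 3) (.e (nat_lit 98359) (nat_lit 26) (.e (nat_lit 426171) (nat_lit 7) (.e (nat_lit 409631) (nat_lit 12) (.e (nat_lit 32805) (nat_lit 17) (.e (nat_lit 171776) (nat_lit 176) .nil))))))) (.g (nat_lit 6) .nil .nil)))) (.nd (nat_lit 5) 
(.lf (nat_lit 49626) (.g (nat_lit 4159) (.e (nat_lit 1348) (nat_lit 102) (.e (nat_lit 286735) (nat_lit 3) (.e (nat_lit 98356) (nat_lit 26) (.e (nat_lit 426241) (nat_lit 9) (.e (nat_lit 426124) (nat_lit 2) (.e (nat_lit 196677) (nat_lit 16) (.e (nat_lit 130816) (nat_lit 176) .nil))))))) (.g (nat_lit 6) .nil .nil))) 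
(.lf (nat_lit 49658) (.g (nat_lit 3527) (.e (nat_lit 1348) (nat_lit 102) (.e (nat_lit 286735) (nat_lit 3) (.e (nat_lit 98359) (nat_lit 26) (.e (nat_lit 426211) (nat_lit 9) (.e (nat_lit 426125) (nat_lit 2) (.e (nat_lit 196661) (nat_lit 12) (.e (nat_lit 57711) (nat_lit 176) .nil))))))) (.g (nat_lit 4) .nil .nil)))))) (.nd (nat_lit 3) (.nd (nat_lit 4) (.nd (nat_lit 5) 
(.lf (nat_lit 49606) (.g (nat_lit 2817) (.e (nat_lit 1348) (nat_lit 102) (.e (nat_lit 286735) (nat_lit 3) (.e (nat_lit 98350) (nat_lit 24) (.e (nat_lit 417536) (nat_lit 6) (.e (nat_lit 286735) (nat_lit 3) (.e (nat_lit 98325) (nat_lit 17) (.e (nat_lit 7936) (nat_lit 377) .nil))))))) (.g (nat_lit 5) .nil .nil))) 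
(.lf (nat_lit 49638) (.g (nat_lit 1244) (.e (nat_lit 1348) (nat_lit 102) (.e (nat_lit 286735) (nat_lit 3) (.e (nat_lit 98357) (nat_lit 26) (.e (nat_lit 426270) (nat_lit 9) .nil)))) .nil))) (.nd (nat_lit 5) 
(.lf (nat_lit 49622) (.g (nat_lit 1138) (.e (nat_lit 1348) (nat_lit 102) (.e (nat_lit 286735) (nat_lit 3) (.e (nat_lit 98353) (nat_lit 25) (.e (nat_lit 417813) (nat_lit 9) .nil)))) .nil)) 
(.lf (nat_lit 49654) (.g (nat_lit 4569) (.e (nat_lit 1348) (nat_lit 102) (.e (nat_lit 286735) (nat_lit 3) (.e (nat_lit 98359) (nat_lit 26) (.e (nat_lit 426208) (nat_lit 9) (.e (nat_lit 426125) (nat_lit 2) (.e (nat_lit 196661) (nat_lit 12) (.e (nat_lit 57713) (nat_lit 176) .nil))))))) (.g (nat_lit 6) .nil .nil))))) (.nd (nat_lit 4) (.nd (nat_lit 5) 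
(.lf (nat_lit 49614) (.g (nat_lit 4293) (.e (nat_lit 1348) (nat_lit 102) (.e (nat_lit 286735) (nat_lit 3) (.e (nat_lit 98353) (nat_lit 25) (.e (nat_lit 417810) (nat_lit 6) (.e (nat_lit 286733) (nat_lit 2) (.e (nat_lit 90165) (nat_lit 12) (.e (nat_lit 171776) (nat_lit 176) .nil))))))) (.g (nat_lit 5) .nil .nil))) 
(.lf (nat_lit 49646) (.g (nat_lit 3914) (.e (nat_lit 1348) (nat_lit 102) (.e (nat_lit 286735) (nat_lit 3) (.e (nat_lit 98359) (nat_lit 26) (.e (nat_lit 426185) (nat_lit 9) (.e (nat_lit 426125) (nat_lit 2) (.e (nat_lit 196661) (nat_lit 12) (.e (nat_lit 57714) (nat_lit 176) .nil))))))) (.g (nat_lit 6) .nil .nil)))) (.nd (nat_lit 5) 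
(.lf (nat_lit 49630) (.g (nat_lit 3736) (.e (nat_lit 1348) (nat_lit 102) (.e (nat_lit 286735) (nat_lit 3) (.e (nat_lit 98356) (nat_lit 26) (.e (nat_lit 426244) (nat_lit 9) (.e (nat_lit 426124) (nat_lit 2) (.e (nat_lit 196677) (nat_lit 16) (.e (nat_lit 130816) (nat_lit 176) .nil))))))) (.g (nat_lit 5) .nil .nil))) 
(.lf (nat_lit 49662) (.g (nat_lit 2637) (.e (nat_lit 1348) (nat_lit 102) (.e (nat_lit 286735) (nat_lit 3) (.e (nat_lit 98359) (nat_lit 26) (.e (nat_lit 426211) (nat_lit 9) (.e (nat_lit 426140) (nat_lit 3) .nil))))) .nil))))))) (.nd (nat_lit 1) (.nd (nat_lit 2) (.nd (nat_lit 3) (.nd (nat_lit 4) (.nd (nat_lit 5) 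
(.lf (nat_lit 49601) (.g (nat_lit 2846) (.e (nat_lit 1348) (nat_lit 102) (.e (nat_lit 286735) (nat_lit 3) (.e (nat_lit 98350) (nat_lit 24) (.e (nat_lit 409602) (nat_lit 0) (.e (nat_lit 5394) (nat_lit 301) (.e (nat_lit 57464) (nat_lit 23) (.e (nat_lit 516106) (nat_lit 0) (.e (nat_lit 7936) (nat_lit 377) .nil)))))))) (.g (nat_lit 6) .nil .nil))) 
(.lf (nat_lit 49633) (.g (nat_lit 2315) (.e (nat_lit 1348) (nat_lit 102) (.e (nat_lit 286735) (nat_lit 3) (.e (nat_lit 98356) (nat_lit 26) (.e (nat_lit 426250) (nat_lit 9) .nil)))) .nil))) (.nd (nat_lit 5) 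
(.lf (nat_lit 49617) (.g (nat_lit 3986) (.e (nat_lit 1348) (nat_lit 102) (.e (nat_lit 286735) (nat_lit 3) (.e (nat_lit 98353) (nat_lit 25) (.e (nat_lit 417810) (nat_lit 6) (.e (nat_lit 286735) (nat_lit 3) (.e (nat_lit 98319) (nat_lit 17) (.e (nat_lit 7065) (nat_lit 377) .nil))))))) (.g (nat_lit 5) .nil .nil))) 
(.lf (nat_lit 49649) (.g (nat_lit 2286) (.e (nat_lit 1348) (nat_lit 102) (.e (nat_lit 286735) (nat_lit 3) (.e (nat_lit 98359) (nat_lit 26) (.e (nat_lit 426185) (nat_lit 9) (.e (nat_lit 426140) (nat_lit 3) (.e (nat_lit 204821) (nat_lit 17) (.e (nat_lit 7936) (nat_lit 332) .nil))))))) (.g (nat_lit 4) .nil .nil))))) (.nd (nat_lit 4) (.nd (nat_lit 5) 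
(.lf (nat_lit 49609) (.g (nat_lit 2584) (.e (nat_lit 1348) (nat_lit 102) (.e (nat_lit 286735) (nat_lit 3) (.e (nat_lit 98353) (nat_lit 25) (.e (nat_lit 417809) (nat_lit 6) (.e (nat_lit 286734) (nat_lit 3) (.e (nat_lit 98319) (nat_lit 17) (.e (nat_lit 7065) (nat_lit 377) .nil))))))) (.g (nat_lit 4) .nil .nil))) 
(.lf (nat_lit 49641) (.g (nat_lit 3356) (.e (nat_lit 1348) (nat_lit 102) (.e (nat_lit 286735) (nat_lit 3) (.e (nat_lit 98359) (nat_lit 26) (.e (nat_lit 426170) (nat_lit 7) (.e (nat_lit 409631) (nat_lit 12) (.e (nat_lit 32805) (nat_lit 17) (.e (nat_lit 171776) (nat_lit 176) .nil))))))) (.g (nat_lit 6) .nil .nil)))) (.nd (nat_lit 5) 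
(.lf (nat_lit 49625) (.g (nat_lit 1900) (.e (nat_lit 1348) (nat_lit 102) (.e (nat_lit 286735) (nat_lit 3) (.e (nat_lit 98356) (nat_lit 26) (.e (nat_lit 426241) (nat_lit 9) .nil)))) .nil)) 
(.lf (nat_lit 49657) (.g (nat_lit 1714) (.e (nat_lit 1348) (nat_lit 102) (.e (nat_lit 286735) (nat_lit 3) (.e (nat_lit 98359) (nat_lit 26) (.e (nat_lit 426211) (nat_lit 9) .nil)))) .nil))))) (.nd (nat_lit 3) (.nd (nat_lit 4) (.nd (nat_lit 5) 
(.lf (nat_lit 49605) (.g (nat_lit 2943) (.e (nat_lit 1348) (nat_lit 102) (.e (nat_lit 286735) (nat_lit 3) (.e (nat_lit 98350) (nat_lit 24) (.e (nat_lit 417536) (nat_lit 6) (.e (nat_lit 286733) (nat_lit 2) (.e (nat_lit 90165) (nat_lit 12) (.e (nat_lit 171776) (nat_lit 176) .nil))))))) (.g (nat_lit 6) .nil .nil))) 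
(.lf (nat_lit 49637) (.g (nat_lit 1919) (.e (nat_lit 1348) (nat_lit 102) (.e (nat_lit 286735) (nat_lit 3) (.e (nat_lit 98356) (nat_lit 26) (.e (nat_lit 433920) (nat_lit 10) .nil)))) .nil))) (.nd (nat_lit 5) 
(.lf (nat_lit 49621) (.g (nat_lit 2387) (.e (nat_lit 1348) (nat_lit 102) (.e (nat_lit 286735) (nat_lit 3) (.e (nat_lit 98353) (nat_lit 25) (.e (nat_lit 417811) (nat_lit 6) (.e (nat_lit 286733) (nat_lit 2) (.e (nat_lit 90165) (nat_lit 12) (.e (nat_lit 171776) (nat_lit 176) .nil))))))) (.g (nat_lit 4) .nil .nil))) 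
(.lf (nat_lit 49653) (.g (nat_lit 4866) (.e (nat_lit 1348) (nat_lit 102) (.e (nat_lit 286735) (nat_lit 3) (.e (nat_lit 98359) (nat_lit 26) (.e (nat_lit 426208) (nat_lit 9) (.e (nat_lit 426125) (nat_lit 2) (.e (nat_lit 196661) (nat_lit 12) (.e (nat_lit 57711) (nat_lit 176) .nil))))))) (.g (nat_lit 6) .nil .nil))))) (.nd (nat_lit 4) (.nd (nat_lit 5) 
(.lf (nat_lit 49613) (.g (nat_lit 3133) (.e (nat_lit 1348) (nat_lit 102) (.e (nat_lit 286735) (nat_lit 3) (.e (nat_lit 98353) (nat_lit 25) (.e (nat_lit 417810) (nat_lit 6) (.e (nat_lit 286733) (nat_lit 2) (.e (nat_lit 90133) (nat_lit 9) (.e (nat_lit 2397) (nat_lit 157) (.e (nat_lit 7064) (nat_lit 377) .nil)))))))) (.g (nat_lit 4) .nil .nil))) 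
(.lf (nat_lit 49645) (.g (nat_lit 4288) (.e (nat_lit 1348) (nat_lit 102) (.e (nat_lit 286735) (nat_lit 3) (.e (nat_lit 98359) (nat_lit 26) (.e (nat_lit 426185) (nat_lit 9) (.e (nat_lit 426125) (nat_lit 2) (.e (nat_lit 196661) (nat_lit 12) (.e (nat_lit 57713) (nat_lit 176) .nil))))))) (.g (nat_lit 6) .nil .nil)))) (.nd (nat_lit 5) 
(.lf (nat_lit 49629) (.g (nat_lit 2139) (.e (nat_lit 1348) (nat_lit 102) (.e (nat_lit 286735) (nat_lit 3) (.e (nat_lit 98356) (nat_lit 26) (.e (nat_lit 426244) (nat_lit 9) (.e (nat_lit 426123) (nat_lit 2) .nil))))) .nil)) 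
(.lf (nat_lit 49661) (.g (nat_lit 3448) (.e (nat_lit 1348) (nat_lit 102) (.e (nat_lit 286735) (nat_lit 3) (.e (nat_lit 98359) (nat_lit 26) (.e (nat_lit 426211) (nat_lit 9) (.e (nat_lit 426125) (nat_lit 2) (.e (nat_lit 204544) (nat_lit 16) (.e (nat_lit 130816) (nat_lit 176) .nil))))))) (.g (nat_lit 5) .nil .nil))))))) (.nd (nat_lit 2) (.nd (nat_lit 3) (.nd (nat_lit 4) (.nd (nat_lit 5) 
(.lf (nat_lit 49603) (.g (nat_lit 2226) (.e (nat_lit 1348) (nat_lit 102) (.e (nat_lit 286735) (nat_lit 3) (.e (nat_lit 98350) (nat_lit 24) (.e (nat_lit 409604) (nat_lit 0) (.e (nat_lit 5394) (nat_lit 301) (.e (nat_lit 57464) (nat_lit 23) (.e (nat_lit 516106) (nat_lit 0) (.e (nat_lit 7936) (nat_lit 377) .nil)))))))) (.g (nat_lit 4) .nil .nil))) 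
(.lf (nat_lit 49635) (.g (nat_lit 2310) (.e (nat_lit 1348) (nat_lit 102) (.e (nat_lit 286735) (nat_lit 3) (.e (nat_lit 98356) (nat_lit 26) (.e (nat_lit 426270) (nat_lit 9) .nil)))) .nil))) (.nd (nat_lit 5) 
(.lf (nat_lit 49619) (.g (nat_lit 3295) (.e (nat_lit 1348) (nat_lit 102) (.e (nat_lit 286735) (nat_lit 3) (.e (nat_lit 98353) (nat_lit 25) (.e (nat_lit 417810) (nat_lit 6) (.e (nat_lit 286735) (nat_lit 3) (.e (nat_lit 98321) (nat_lit 17) (.e (nat_lit 7060) (nat_lit 377) .nil))))))) (.g (nat_lit 5) .nil .nil))) 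
(.lf (nat_lit 49651) (.g (nat_lit 2530) (.e (nat_lit 1348) (nat_lit 102) (.e (nat_lit 286735) (nat_lit 3) (.e (nat_lit 98359) (nat_lit 26) (.e (nat_lit 426207) (nat_lit 9) .nil)))) .nil)))) (.nd (nat_lit 4) (.nd (nat_lit 5) 
(.lf (nat_lit 49611) (.g (nat_lit 3043) (.e (nat_lit 1348) (nat_lit 102) (.e (nat_lit 286735) (nat_lit 3) (.e (nat_lit 98353) (nat_lit 25) (.e (nat_lit 417809) (nat_lit 6) (.e (nat_lit 286735) (nat_lit 3) (.e (nat_lit 98319) (nat_lit 17) (.e (nat_lit 7065) (nat_lit 377) .nil))))))) (.g (nat_lit 5) .nil .nil))) 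
(.lf (nat_lit 49643) (.g (nat_lit 1606) (.e (nat_lit 1348) (nat_lit 102) (.e (nat_lit 286735) (nat_lit 3) (.e (nat_lit 98359) (nat_lit 26) (.e (nat_lit 426185) (nat_lit 9) .nil)))) .nil))) (.nd (nat_lit 5) 
(.lf (nat_lit 49627) (.g (nat_lit 2315) (.e (nat_lit 1348) (nat_lit 102) (.e (nat_lit 286735) (nat_lit 3) (.e (nat_lit 98356) (nat_lit 26) (.e (nat_lit 426243) (nat_lit 9) .nil)))) .nil)) 
(.lf (nat_lit 49659) (.g (nat_lit 3507) (.e (nat_lit 1348) (nat_lit 102) (.e (nat_lit 286735) (nat_lit 3) (.e (nat_lit 98359) (nat_lit 26) (.e (nat_lit 426211) (nat_lit 9) (.e (nat_lit 426125) (nat_lit 2) (.e (nat_lit 196661) (nat_lit 12) (.e (nat_lit 57713) (nat_lit 176) .nil))))))) (.g (nat_lit 4) .nil .nil)))))) (.nd (nat_lit 3) (.nd (nat_lit 4) (.nd (nat_lit 5) 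
(.lf (nat_lit 49607) (.g (nat_lit 2650) (.e (nat_lit 1348) (nat_lit 102) (.e (nat_lit 286735) (nat_lit 3) (.e (nat_lit 98353) (nat_lit 25) (.e (nat_lit 417809) (nat_lit 6) (.e (nat_lit 286733) (nat_lit 2) (.e (nat_lit 90133) (nat_lit 9) (.e (nat_lit 2397) (nat_lit 157) (.e (nat_lit 7064) (nat_lit 377) .nil)))))))) (.g (nat_lit 4) .nil .nil))) 
(.lf (nat_lit 49639) (.g (nat_lit 2221) (.e (nat_lit 1348) (nat_lit 102) (.e (nat_lit 286735) (nat_lit 3) (.e (nat_lit 98358) (nat_lit 26) (.e (nat_lit 426294) (nat_lit 11) .nil)))) .nil))) (.nd (nat_lit 5) 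
(.lf (nat_lit 49623) (.g (nat_lit 1338) (.e (nat_lit 1348) (nat_lit 102) (.e (nat_lit 286735) (nat_lit 3) (.e (nat_lit 98354) (nat_lit 26) (.e (nat_lit 426289) (nat_lit 10) .nil)))) .nil)) 
(.lf (nat_lit 49655) (.g (nat_lit 4559) (.e (nat_lit 1348) (nat_lit 102) (.e (nat_lit 286735) (nat_lit 3) (.e (nat_lit 98359) (nat_lit 26) (.e (nat_lit 426208) (nat_lit 9) (.e (nat_lit 426125) (nat_lit 2) (.e (nat_lit 196661) (nat_lit 12) (.e (nat_lit 57714) (nat_lit 176) .nil))))))) (.g (nat_lit 6) .nil .nil))))) (.nd (nat_lit 4) (.nd (nat_lit 5) 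
(.lf (nat_lit 49615) (.g (nat_lit 3292) (.e (nat_lit 1348) (nat_lit 102) (.e (nat_lit 286735) (nat_lit 3) (.e (nat_lit 98353) (nat_lit 25) (.e (nat_lit 417810) (nat_lit 6) (.e (nat_lit 286734) (nat_lit 3) (.e (nat_lit 98319) (nat_lit 17) (.e (nat_lit 7065) (nat_lit 377) .nil))))))) (.g (nat_lit 5) .nil .nil))) 
(.lf (nat_lit 49647) (.g (nat_lit 3591) (.e (nat_lit 1348) (nat_lit 102) (.e (nat_lit 286735) (nat_lit 3) (.e (nat_lit 98359) (nat_lit 26) (.e (nat_lit 426185) (nat_lit 9) (.e (nat_lit 426125) (nat_lit 2) (.e (nat_lit 196661) (nat_lit 12) (.e (nat_lit 57715) (nat_lit 176) .nil))))))) (.g (nat_lit 5) .nil .nil)))) (.nd (nat_lit 5) 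
(.lf (nat_lit 49631) (.g (nat_lit 2257) (.e (nat_lit 1348) (nat_lit 102) (.e (nat_lit 286735) (nat_lit 3) (.e (nat_lit 98356) (nat_lit 26) (.e (nat_lit 426246) (nat_lit 9) .nil)))) .nil)) 
(.lf (nat_lit 49663) (.g (nat_lit 1918) (.e (nat_lit 1348) (nat_lit 102) (.e (nat_lit 286735) (nat_lit 3) (.e (nat_lit 98359) (nat_lit 26) (.e (nat_lit 426212) (nat_lit 9) .nil)))) .nil))))))))

noncomputable def tv690 : DT := (.nd (nat_lit 0) (.nd (nat_lit 1) (.nd (nat_lit 2) (.nd (nat_lit 3) (.nd (nat_lit 4) (.nd (nat_lit 5) 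
(.lf (nat_lit 49664) (.g (nat_lit 4482) (.e (nat_lit 1348) (nat_lit 102) (.e (nat_lit 286735) (nat_lit 3) (.e (nat_lit 98359) (nat_lit 26) (.e (nat_lit 426212) (nat_lit 9) (.e (nat_lit 426125) (nat_lit 2) (.e (nat_lit 196661) (nat_lit 12) (.e (nat_lit 57711) (nat_lit 176) .nil))))))) (.g (nat_lit 6) .nil .nil))) 
(.lf (nat_lit 49696) (.g (nat_lit 1217) (.e (nat_lit 1348) (nat_lit 102) (.e (nat_lit 286735) (nat_lit 3) (.e (nat_lit 98362) (nat_lit 26) (.e (nat_lit 426275) (nat_lit 10) .nil)))) .nil))) (.nd (nat_lit 5) 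
(.lf (nat_lit 49680) (.g (nat_lit 4236) (.e (nat_lit 1348) (nat_lit 102) (.e (nat_lit 286735) (nat_lit 3) (.e (nat_lit 98359) (nat_lit 26) (.e (nat_lit 426285) (nat_lit 10) (.e (nat_lit 434231) (nat_lit 23) (.e (nat_lit 532490) (nat_lit 0) (.e (nat_lit 7936) (nat_lit 332) .nil))))))) (.g (nat_lit 5) .nil .nil))) 
(.lf (nat_lit 49712) (.g (nat_lit 4203) (.e (nat_lit 1348) (nat_lit 102) (.e (nat_lit 286735) (nat_lit 3) (.e (nat_lit 98365) (nat_lit 26) (.e (nat_lit 426296) (nat_lit 11) (.e (nat_lit 458789) (nat_lit 23) (.e (nat_lit 532482) (nat_lit 0) (.e (nat_lit 6192) (nat_lit 332) .nil))))))) (.g (nat_lit 6) .nil .nil))))) (.nd (nat_lit 4) (.nd (nat_lit 5) 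
(.lf (nat_lit 49672) (.g (nat_lit 2475) (.e (nat_lit 1348) (nat_lit 102) (.e (nat_lit 286735) (nat_lit 3) (.e (nat_lit 98359) (nat_lit 26) (.e (nat_lit 426219) (nat_lit 9) .nil)))) .nil)) 
(.lf (nat_lit 49704) (.g (nat_lit 3591) (.e (nat_lit 1348) (nat_lit 102) (.e (nat_lit 286735) (nat_lit 3) (.e (nat_lit 98364) (nat_lit 26) (.e (nat_lit 426298) (nat_lit 11) (.e (nat_lit 458789) (nat_lit 23) (.e (nat_lit 532481) (nat_lit 0) (.e (nat_lit 7936) (nat_lit 332) .nil))))))) (.g (nat_lit 6) .nil .nil)))) (.nd (nat_lit 5) 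
(.lf (nat_lit 49688) (.g (nat_lit 2711) (.e (nat_lit 1348) (nat_lit 102) (.e (nat_lit 286735) (nat_lit 3) (.e (nat_lit 98359) (nat_lit 26) (.e (nat_lit 426301) (nat_lit 11) .nil)))) .nil)) 
(.lf (nat_lit 49720) (.g (nat_lit 5059) (.e (nat_lit 1348) (nat_lit 102) (.e (nat_lit 286735) (nat_lit 3) (.e (nat_lit 98365) (nat_lit 26) (.e (nat_lit 426298) (nat_lit 11) (.e (nat_lit 458789) (nat_lit 23) (.e (nat_lit 532481) (nat_lit 0) (.e (nat_lit 6192) (nat_lit 332) .nil))))))) (.g (nat_lit 6) .nil .nil)))))) (.nd (nat_lit 3) (.nd (nat_lit 4) (.nd (nat_lit 5) 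
(.lf (nat_lit 49668) (.g (nat_lit 2426) (.e (nat_lit 1348) (nat_lit 102) (.e (nat_lit 286735) (nat_lit 3) (.e (nat_lit 98359) (nat_lit 26) (.e (nat_lit 426214) (nat_lit 9) .nil)))) .nil)) 
(.lf (nat_lit 49700) (.g (nat_lit 4575) (.e (nat_lit 1348) (nat_lit 102) (.e (nat_lit 286735) (nat_lit 3) (.e (nat_lit 98363) (nat_lit 26) (.e (nat_lit 426318) (nat_lit 12) (.e (nat_lit 475185) (nat_lit 29) (.e (nat_lit 557093) (nat_lit 12) (.e (nat_lit 171776) (nat_lit 176) .nil))))))) (.g (nat_lit 6) .nil .nil)))) (.nd (nat_lit 5) 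
(.lf (nat_lit 49684) (.g (nat_lit 5196) (.e (nat_lit 1348) (nat_lit 102) (.e (nat_lit 286735) (nat_lit 3) (.e (nat_lit 98359) (nat_lit 26) (.e (nat_lit 426286) (nat_lit 10) (.e (nat_lit 434245) (nat_lit 28) (.e (nat_lit 573468) (nat_lit 10) (.e (nat_lit 16128) (nat_lit 180) .nil))))))) (.g (nat_lit 6) .nil .nil))) 
(.lf (nat_lit 49716) (.g (nat_lit 4689) (.e (nat_lit 1348) (nat_lit 102) (.e (nat_lit 286735) (nat_lit 3) (.e (nat_lit 98365) (nat_lit 26) (.e (nat_lit 426297) (nat_lit 11) (.e (nat_lit 458789) (nat_lit 23) (.e (nat_lit 532481) (nat_lit 0) (.e (nat_lit 7936) (nat_lit 332) .nil))))))) (.g (nat_lit 6) .nil .nil))))) (.nd (nat_lit 4) (.nd (nat_lit 5) 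
(.lf (nat_lit 49676) (.g (nat_lit 3430) (.e (nat_lit 1348) (nat_lit 102) (.e (nat_lit 286735) (nat_lit 3) (.e (nat_lit 98359) (nat_lit 26) (.e (nat_lit 426275) (nat_lit 10) (.e (nat_lit 434231) (nat_lit 23) (.e (nat_lit 532490) (nat_lit 0) (.e (nat_lit 7936) (nat_lit 332) .nil))))))) (.g (nat_lit 5) .nil .nil))) 
(.lf (nat_lit 49708) (.g (nat_lit 1627) (.e (nat_lit 1348) (nat_lit 102) (.e (nat_lit 286735) (nat_lit 3) (.e (nat_lit 98365) (nat_lit 26) (.e (nat_lit 426213) (nat_lit 9) .nil)))) .nil))) (.nd (nat_lit 5) 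
(.lf (nat_lit 49692) (.g (nat_lit 3051) (.e (nat_lit 1348) (nat_lit 102) (.e (nat_lit 286735) (nat_lit 3) (.e (nat_lit 98359) (nat_lit 26) (.e (nat_lit 426338) (nat_lit 14) (.e (nat_lit 491537) (nat_lit 2) (.e (nat_lit 90165) (nat_lit 12) (.e (nat_lit 171776) (nat_lit 176) .nil))))))) (.g (nat_lit 4) .nil .nil))) 
(.lf (nat_lit 49724) (.g (nat_lit 4091) (.e (nat_lit 1348) (nat_lit 102) (.e (nat_lit 286735) (nat_lit 3) (.e (nat_lit 98365) (nat_lit 26) (.e (nat_lit 426298) (nat_lit 11) (.e (nat_lit 458789) (nat_lit 23) (.e (nat_lit 532487) (nat_lit 0) (.e (nat_lit 7936) (nat_lit 332) .nil))))))) (.g (nat_lit 5) .nil .nil))))))) (.nd (nat_lit 2) (.nd (nat_lit 3) (.nd (nat_lit 4) (.nd (nat_lit 5) 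
(.lf (nat_lit 49666) (.g (nat_lit 3488) (.e (nat_lit 1348) (nat_lit 102) (.e (nat_lit 286735) (nat_lit 3) (.e (nat_lit 98359) (nat_lit 26) (.e (nat_lit 426212) (nat_lit 9) (.e (nat_lit 426125) (nat_lit 2) (.e (nat_lit 196661) (nat_lit 12) (.e (nat_lit 57715) (nat_lit 176) .nil))))))) (.g (nat_lit 4) .nil .nil))) 
(.lf (nat_lit 49698) (.g (nat_lit 1275) (.e (nat_lit 1348) (nat_lit 102) (.e (nat_lit 286735) (nat_lit 3) (.e (nat_lit 98363) (nat_lit 26) (.e (nat_lit 425987) (nat_lit 0) .nil)))) .nil))) (.nd (nat_lit 5) 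
(.lf (nat_lit 49682) (.g (nat_lit 2636) (.e (nat_lit 1348) (nat_lit 102) (.e (nat_lit 286735) (nat_lit 3) (.e (nat_lit 98359) (nat_lit 26) (.e (nat_lit 426286) (nat_lit 10) (.e (nat_lit 434231) (nat_lit 23) .nil))))) .nil)) 
(.lf (nat_lit 49714) (.g (nat_lit 2901) (.e (nat_lit 1348) (nat_lit 102) (.e (nat_lit 286735) (nat_lit 3) (.e (nat_lit 98365) (nat_lit 26) (.e (nat_lit 426296) (nat_lit 11) (.e (nat_lit 458789) (nat_lit 23) (.e (nat_lit 532490) (nat_lit 0) (.e (nat_lit 7936) (nat_lit 332) .nil))))))) (.g (nat_lit 4) .nil .nil))))) (.nd (nat_lit 4) (.nd (nat_lit 5) 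
(.lf (nat_lit 49674) (.g (nat_lit 2748) (.e (nat_lit 1348) (nat_lit 102) (.e (nat_lit 286735) (nat_lit 3) (.e (nat_lit 98359) (nat_lit 26) (.e (nat_lit 426268) (nat_lit 9) .nil)))) .nil)) 
(.lf (nat_lit 49706) (.g (nat_lit 2732) (.e (nat_lit 1348) (nat_lit 102) (.e (nat_lit 286735) (nat_lit 3) (.e (nat_lit 98364) (nat_lit 26) (.e (nat_lit 426298) (nat_lit 11) (.e (nat_lit 458789) (nat_lit 23) (.e (nat_lit 532487) (nat_lit 0) (.e (nat_lit 7936) (nat_lit 332) .nil))))))) (.g (nat_lit 5) .nil .nil)))) (.nd (nat_lit 5) 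
(.lf (nat_lit 49690) (.g (nat_lit 1557) (.e (nat_lit 1348) (nat_lit 102) (.e (nat_lit 286735) (nat_lit 3) (.e (nat_lit 98359) (nat_lit 26) (.e (nat_lit 426338) (nat_lit 14) .nil)))) .nil)) 
(.lf (nat_lit 49722) (.g (nat_lit 4904) (.e (nat_lit 1348) (nat_lit 102) (.e (nat_lit 286735) (nat_lit 3) (.e (nat_lit 98365) (nat_lit 26) (.e (nat_lit 426298) (nat_lit 11) (.e (nat_lit 458789) (nat_lit 23) (.e (nat_lit 532482) (nat_lit 0) (.e (nat_lit 6192) (nat_lit 332) .nil))))))) (.g (nat_lit 6) .nil .nil)))))) (.nd (nat_lit 3) (.nd (nat_lit 4) (.nd (nat_lit 5) 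
(.lf (nat_lit 49670) (.g (nat_lit 2269) (.e (nat_lit 1348) (nat_lit 102) (.e (nat_lit 286735) (nat_lit 3) (.e (nat_lit 98359) (nat_lit 26) (.e (nat_lit 426216) (nat_lit 9) .nil)))) .nil)) 
(.lf (nat_lit 49702) (.g (nat_lit 1224) (.e (nat_lit 1348) (nat_lit 102) (.e (nat_lit 286735) (nat_lit 3) (.e (nat_lit 98364) (nat_lit 26) (.e (nat_lit 426298) (nat_lit 11) .nil)))) .nil))) (.nd (nat_lit 5) 
(.lf (nat_lit 49686) (.g (nat_lit 2371) (.e (nat_lit 1348) (nat_lit 102) (.e (nat_lit 286735) (nat_lit 3) (.e (nat_lit 98359) (nat_lit 26) (.e (nat_lit 426289) (nat_lit 10) .nil)))) .nil)) 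
(.lf (nat_lit 49718) (.g (nat_lit 2107) (.e (nat_lit 1348) (nat_lit 102) (.e (nat_lit 286735) (nat_lit 3) (.e (nat_lit 98365) (nat_lit 26) (.e (nat_lit 426298) (nat_lit 11) (.e (nat_lit 458789) (nat_lit 23) .nil))))) .nil)))) (.nd (nat_lit 4) (.nd (nat_lit 5) 
(.lf (nat_lit 49678) (.g (nat_lit 2227) (.e (nat_lit 1348) (nat_lit 102) (.e (nat_lit 286735) (nat_lit 3) (.e (nat_lit 98359) (nat_lit 26) (.e (nat_lit 426285) (nat_lit 10) .nil)))) .nil)) 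
(.lf (nat_lit 49710) (.g (nat_lit 4078) (.e (nat_lit 1348) (nat_lit 102) (.e (nat_lit 286735) (nat_lit 3) (.e (nat_lit 98365) (nat_lit 26) (.e (nat_lit 426296) (nat_lit 11) (.e (nat_lit 458789) (nat_lit 23) (.e (nat_lit 532481) (nat_lit 0) (.e (nat_lit 6192) (nat_lit 332) .nil))))))) (.g (nat_lit 6) .nil .nil)))) (.nd (nat_lit 5) 
(.lf (nat_lit 49694) (.g (nat_lit 4207) (.e (nat_lit 1348) (nat_lit 102) (.e (nat_lit 286735) (nat_lit 3) (.e (nat_lit 98359) (nat_lit 26) (.e (nat_lit 426338) (nat_lit 14) (.e (nat_lit 491540) (nat_lit 3) (.e (nat_lit 98320) (nat_lit 17) (.e (nat_lit 7065) (nat_lit 377) .nil))))))) (.g (nat_lit 6) .nil .nil))) 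
(.lf (nat_lit 49726) (.g (nat_lit 3792) (.e (nat_lit 1348) (nat_lit 102) (.e (nat_lit 286735) (nat_lit 3) (.e (nat_lit 98365) (nat_lit 26) (.e (nat_lit 426298) (nat_lit 11) (.e (nat_lit 458789) (nat_lit 23) (.e (nat_lit 532490) (nat_lit 0) (.e (nat_lit 7936) (nat_lit 332) .nil))))))) (.g (nat_lit 5) .nil .nil)))))))) 
(.nd (nat_lit 1) (.nd (nat_lit 2) (.nd (nat_lit 3) (.nd (nat_lit 4) (.nd (nat_lit 5) 
(.lf (nat_lit 49665) (.g (nat_lit 3552) (.e (nat_lit 1348) (nat_lit 102) (.e (nat_lit 286735) (nat_lit 3) (.e (nat_lit 98359) (nat_lit 26) (.e (nat_lit 426212) (nat_lit 9) (.e (nat_lit 426125) (nat_lit 2) (.e (nat_lit 196661) (nat_lit 12) (.e (nat_lit 57714) (nat_lit 176) .nil))))))) (.g (nat_lit 5) .nil .nil))) 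
(.lf (nat_lit 49697) (.g (nat_lit 2461) (.e (nat_lit 1348) (nat_lit 102) (.e (nat_lit 286735) (nat_lit 3) (.e (nat_lit 98363) (nat_lit 26) (.e (nat_lit 425984) (nat_lit 0) (.e (nat_lit 7580) (nat_lit 405) (.e (nat_lit 57464) (nat_lit 23) (.e (nat_lit 516097) (nat_lit 0) (.e (nat_lit 7065) (nat_lit 377) .nil)))))))) (.g (nat_lit 4) .nil .nil)))) (.nd (nat_lit 5) 
(.lf (nat_lit 49681) (.g (nat_lit 1446) (.e (nat_lit 1348) (nat_lit 102) (.e (nat_lit 286735) (nat_lit 3) (.e (nat_lit 98359) (nat_lit 26) (.e (nat_lit 426286) (nat_lit 10) .nil)))) .nil)) 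
(.lf (nat_lit 49713) (.g (nat_lit 3093) (.e (nat_lit 1348) (nat_lit 102) (.e (nat_lit 286735) (nat_lit 3) (.e (nat_lit 98365) (nat_lit 26) (.e (nat_lit 426296) (nat_lit 11) (.e (nat_lit 458789) (nat_lit 23) (.e (nat_lit 532487) (nat_lit 0) (.e (nat_lit 7936) (nat_lit 332) .nil))))))) (.g (nat_lit 5) .nil .nil))))) (.nd (nat_lit 4) (.nd (nat_lit 5) 
(.lf (nat_lit 49673) (.g (nat_lit 2755) (.e (nat_lit 1348) (nat_lit 102) (.e (nat_lit 286735) (nat_lit 3) (.e (nat_lit 98359) (nat_lit 26) (.e (nat_lit 426239) (nat_lit 9) .nil)))) .nil)) 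
(.lf (nat_lit 49705) (.g (nat_lit 3347) (.e (nat_lit 1348) (nat_lit 102) (.e (nat_lit 286735) (nat_lit 3) (.e (nat_lit 98364) (nat_lit 26) (.e (nat_lit 426298) (nat_lit 11) (.e (nat_lit 458789) (nat_lit 23) (.e (nat_lit 532482) (nat_lit 0) (.e (nat_lit 6192) (nat_lit 332) .nil))))))) (.g (nat_lit 6) .nil .nil)))) (.nd (nat_lit 5) 
(.lf (nat_lit 49689) (.g (nat_lit 2369) (.e (nat_lit 1348) (nat_lit 102) (.e (nat_lit 286735) (nat_lit 3) (.e (nat_lit 98359) (nat_lit 26) (.e (nat_lit 426305) (nat_lit 12) (.e (nat_lit 475185) (nat_lit 29) (.e (nat_lit 557093) (nat_lit 12) (.e (nat_lit 171776) (nat_lit 176) .nil))))))) (.g (nat_lit 4) .nil .nil))) 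
(.lf (nat_lit 49721) (.g (nat_lit 5061) (.e (nat_lit 1348) (nat_lit 102) (.e (nat_lit 286735) (nat_lit 3) (.e (nat_lit 98365) (nat_lit 26) (.e (nat_lit 426298) (nat_lit 11) (.e (nat_lit 458789) (nat_lit 23) (.e (nat_lit 532481) (nat_lit 0) (.e (nat_lit 7936) (nat_lit 332) .nil))))))) (.g (nat_lit 6) .nil .nil)))))) (.nd (nat_lit 3) (.nd (nat_lit 4) (.nd (nat_lit 5) 
(.lf (nat_lit 49669) (.g (nat_lit 2567) (.e (nat_lit 1348) (nat_lit 102) (.e (nat_lit 286735) (nat_lit 3) (.e (nat_lit 98359) (nat_lit 26) (.e (nat_lit 426215) (nat_lit 9) .nil)))) .nil)) 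
(.lf (nat_lit 49701) (.g (nat_lit 1227) (.e (nat_lit 1348) (nat_lit 102) (.e (nat_lit 286735) (nat_lit 3) (.e (nat_lit 98364) (nat_lit 26) (.e (nat_lit 426213) (nat_lit 9) .nil)))) .nil))) (.nd (nat_lit 5) 
(.lf (nat_lit 49685) (.g (nat_lit 5099) (.e (nat_lit 1348) (nat_lit 102) (.e (nat_lit 286735) (nat_lit 3) (.e (nat_lit 98359) (nat_lit 26) (.e (nat_lit 426286) (nat_lit 10) (.e (nat_lit 434248) (nat_lit 28) (.e (nat_lit 573468) (nat_lit 10) (.e (nat_lit 16128) (nat_lit 180) .nil))))))) (.g (nat_lit 6) .nil .nil))) 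
(.lf (nat_lit 49717) (.g (nat_lit 4576) (.e (nat_lit 1348) (nat_lit 102) (.e (nat_lit 286735) (nat_lit 3) (.e (nat_lit 98365) (nat_lit 26) (.e (nat_lit 426297) (nat_lit 11) (.e (nat_lit 458789) (nat_lit 23) (.e (nat_lit 532482) (nat_lit 0) (.e (nat_lit 6192) (nat_lit 332) .nil))))))) (.g (nat_lit 6) .nil .nil))))) (.nd (nat_lit 4) (.nd (nat_lit 5) 
(.lf (nat_lit 49677) (.g (nat_lit 1726) (.e (nat_lit 1348) (nat_lit 102) (.e (nat_lit 286735) (nat_lit 3) (.e (nat_lit 98359) (nat_lit 26) (.e (nat_lit 426282) (nat_lit 10) .nil)))) .nil)) 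
(.lf (nat_lit 49709) (.g (nat_lit 1648) (.e (nat_lit 1348) (nat_lit 102) (.e (nat_lit 286735) (nat_lit 3) (.e (nat_lit 98365) (nat_lit 26) (.e (nat_lit 426296) (nat_lit 11) .nil)))) .nil))) (.nd (nat_lit 5) 
(.lf (nat_lit 49693) (.g (nat_lit 2696) (.e (nat_lit 1348) (nat_lit 102) (.e (nat_lit 286735) (nat_lit 3) (.e (nat_lit 98359) (nat_lit 26) (.e (nat_lit 426338) (nat_lit 14) (.e (nat_lit 491540) (nat_lit 3) (.e (nat_lit 98319) (nat_lit 17) (.e (nat_lit 7065) (nat_lit 377) .nil))))))) (.g (nat_lit 4) .nil .nil))) 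
(.lf (nat_lit 49725) (.g (nat_lit 3085) (.e (nat_lit 1348) (nat_lit 102) (.e (nat_lit 286735) (nat_lit 3) (.e (nat_lit 98365) (nat_lit 26) (.e (nat_lit 426298) (nat_lit 11) (.e (nat_lit 458789) (nat_lit 23) (.e (nat_lit 532489) (nat_lit 0) (.e (nat_lit 7936) (nat_lit 332) .nil))))))) (.g (nat_lit 4) .nil .nil))))))) (.nd (nat_lit 2) (.nd (nat_lit 3) (.nd (nat_lit 4) (.nd (nat_lit 5) 
(.lf (nat_lit 49667) (.g (nat_lit 2749) (.e (nat_lit 1348) (nat_lit 102) (.e (nat_lit 286735) (nat_lit 3) (.e (nat_lit 98359) (nat_lit 26) (.e (nat_lit 426212) (nat_lit 9) (.e (nat_lit 426125) (nat_lit 2) (.e (nat_lit 196661) (nat_lit 12) (.e (nat_lit 65280) (nat_lit 176) .nil))))))) (.g (nat_lit 4) .nil .nil))) 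
(.lf (nat_lit 49699) (.g (nat_lit 1355) (.e (nat_lit 1348) (nat_lit 102) (.e (nat_lit 286735) (nat_lit 3) (.e (nat_lit 98363) (nat_lit 26) (.e (nat_lit 426242) (nat_lit 9) .nil)))) .nil))) (.nd (nat_lit 5) 
(.lf (nat_lit 49683) (.g (nat_lit 3188) (.e (nat_lit 1348) (nat_lit 102) (.e (nat_lit 286735) (nat_lit 3) (.e (nat_lit 98359) (nat_lit 26) (.e (nat_lit 426286) (nat_lit 10) (.e (nat_lit 434231) (nat_lit 23) (.e (nat_lit 532490) (nat_lit 0) (.e (nat_lit 7936) (nat_lit 332) .nil))))))) (.g (nat_lit 4) .nil .nil))) 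
(.lf (nat_lit 49715) (.g (nat_lit 4692) (.e (nat_lit 1348) (nat_lit 102) (.e (nat_lit 286735) (nat_lit 3) (.e (nat_lit 98365) (nat_lit 26) (.e (nat_lit 426297) (nat_lit 11) (.e (nat_lit 458789) (nat_lit 23) (.e (nat_lit 532481) (nat_lit 0) (.e (nat_lit 6192) (nat_lit 332) .nil))))))) (.g (nat_lit 6) .nil .nil))))) (.nd (nat_lit 4) (.nd (nat_lit 5) 
(.lf (nat_lit 49675) (.g (nat_lit 2373) (.e (nat_lit 1348) (nat_lit 102) (.e (nat_lit 286735) (nat_lit 3) (.e (nat_lit 98359) (nat_lit 26) (.e (nat_lit 426275) (nat_lit 10) (.e (nat_lit 434231) (nat_lit 23) .nil))))) .nil)) 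
(.lf (nat_lit 49707) (.g (nat_lit 1741) (.e (nat_lit 1348) (nat_lit 102) (.e (nat_lit 286735) (nat_lit 3) (.e (nat_lit 98365) (nat_lit 26) (.e (nat_lit 426185) (nat_lit 9) .nil)))) .nil))) (.nd (nat_lit 5) 
(.lf (nat_lit 49691) (.g (nat_lit 3352) (.e (nat_lit 1348) (nat_lit 102) (.e (nat_lit 286735) (nat_lit 3) (.e (nat_lit 98359) (nat_lit 26) (.e (nat_lit 426338) (nat_lit 14) (.e (nat_lit 491537) (nat_lit 2) (.e (nat_lit 90133) (nat_lit 9) (.e (nat_lit 2397) (nat_lit 157) (.e (nat_lit 7064) (nat_lit 377) .nil)))))))) (.g (nat_lit 4) .nil .nil))) 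
(.lf (nat_lit 49723) (.g (nat_lit 3119) (.e (nat_lit 1348) (nat_lit 102) (.e (nat_lit 286735) (nat_lit 3) (.e (nat_lit 98365) (nat_lit 26) (.e (nat_lit 426298) (nat_lit 11) (.e (nat_lit 458789) (nat_lit 23) (.e (nat_lit 532485) (nat_lit 0) (.e (nat_lit 7936) (nat_lit 332) .nil))))))) (.g (nat_lit 4) .nil .nil)))))) (.nd (nat_lit 3) (.nd (nat_lit 4) (.nd (nat_lit 5) 
(.lf (nat_lit 49671) (.g (nat_lit 2779) (.e (nat_lit 1348) (nat_lit 102) (.e (nat_lit 286735) (nat_lit 3) (.e (nat_lit 98359) (nat_lit 26) (.e (nat_lit 426218) (nat_lit 9) .nil)))) .nil)) 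
(.lf (nat_lit 49703) (.g (nat_lit 3588) (.e (nat_lit 1348) (nat_lit 102) (.e (nat_lit 286735) (nat_lit 3) (.e (nat_lit 98364) (nat_lit 26) (.e (nat_lit 426298) (nat_lit 11) (.e (nat_lit 458789) (nat_lit 23) (.e (nat_lit 532481) (nat_lit 0) (.e (nat_lit 6192) (nat_lit 332) .nil))))))) (.g (nat_lit 6) .nil .nil)))) (.nd (nat_lit 5) 
(.lf (nat_lit 49687) (.g (nat_lit 2395) (.e (nat_lit 1348) (nat_lit 102) (.e (nat_lit 286735) (nat_lit 3) (.e (nat_lit 98359) (nat_lit 26) (.e (nat_lit 426290) (nat_lit 10) (.e (nat_lit 434231) (nat_lit 23) .nil))))) .nil)) 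
(.lf (nat_lit 49719) (.g (nat_lit 3411) (.e (nat_lit 1348) (nat_lit 102) (.e (nat_lit 286735) (nat_lit 3) (.e (nat_lit 98365) (nat_lit 26) (.e (nat_lit 426298) (nat_lit 11) (.e (nat_lit 458789) (nat_lit 23) (.e (nat_lit 532480) (nat_lit 0) (.e (nat_lit 6126) (nat_lit 332) .nil))))))) (.g (nat_lit 4) .nil .nil))))) (.nd (nat_lit 4) (.nd (nat_lit 5) 
(.lf (nat_lit 49679) (.g (nat_lit 3059) (.e (nat_lit 1348) (nat_lit 102) (.e (nat_lit 286735) (nat_lit 3) (.e (nat_lit 98359) (nat_lit 26) (.e (nat_lit 426285) (nat_lit 10) (.e (nat_lit 434231) (nat_lit 23) .nil))))) .nil)) 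
(.lf (nat_lit 49711) (.g (nat_lit 4075) (.e (nat_lit 1348) (nat_lit 102) (.e (nat_lit 286735) (nat_lit 3) (.e (nat_lit 98365) (nat_lit 26) (.e (nat_lit 426296) (nat_lit 11) (.e (nat_lit 458789) (nat_lit 23) (.e (nat_lit 532481) (nat_lit 0) (.e (nat_lit 7936) (nat_lit 332) .nil))))))) (.g (nat_lit 6) .nil .nil)))) (.nd (nat_lit 5) 
(.lf (nat_lit 49695) (.g (nat_lit 605) (.e (nat_lit 1348) (nat_lit 102) (.e (nat_lit 286735) (nat_lit 3) (.e (nat_lit 98360) (nat_lit 26) .nil))) .nil)) 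
(.lf (nat_lit 49727) (.g (nat_lit 3590) (.e (nat_lit 1348) (nat_lit 102) (.e (nat_lit 286735) (nat_lit 3) (.e (nat_lit 98365) (nat_lit 26) (.e (nat_lit 426298) (nat_lit 11) (.e (nat_lit 458789) (nat_lit 23) (.e (nat_lit 532492) (nat_lit 0) (.e (nat_lit 7936) (nat_lit 332) .nil))))))) (.g (nat_lit 5) .nil .nil)))))))))

noncomputable def tv691 : DT := (.nd (nat_lit 0) (.nd (nat_lit 1) (.nd (nat_lit 2) (.nd (nat_lit 3) (.nd (nat_lit 4) (.nd (nat_lit 5) 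
(.lf (nat_lit 49728) (.g (nat_lit 3136) (.e (nat_lit 1348) (nat_lit 102) (.e (nat_lit 286735) (nat_lit 3) (.e (nat_lit 98365) (nat_lit 26) (.e (nat_lit 426298) (nat_lit 11) (.e (nat_lit 458789) (nat_lit 23) (.e (nat_lit 532496) (nat_lit 0) (.e (nat_lit 7936) (nat_lit 332) .nil))))))) (.g (nat_lit 4) .nil .nil))) 
(.lf (nat_lit 49760) (.g (nat_lit 1802) (.e (nat_lit 1348) (nat_lit 102) (.e (nat_lit 286735) (nat_lit 3) (.e (nat_lit 98370) (nat_lit 28) (.e (nat_lit 442424) (nat_lit 22) .nil)))) .nil))) (.nd (nat_lit 5) 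
(.lf (nat_lit 49744) (.g (nat_lit 3099) (.e (nat_lit 1348) (nat_lit 102) (.e (nat_lit 286735) (nat_lit 3) (.e (nat_lit 98369) (nat_lit 28) (.e (nat_lit 442422) (nat_lit 22) (.e (nat_lit 196661) (nat_lit 12) (.e (nat_lit 57711) (nat_lit 176) .nil)))))) (.g (nat_lit 4) .nil .nil))) 
(.lf (nat_lit 49776) (.g (nat_lit 3623) (.e (nat_lit 1348) (nat_lit 102) (.e (nat_lit 286735) (nat_lit 3) (.e (nat_lit 98370) (nat_lit 28) (.e (nat_lit 442427) (nat_lit 23) (.e (nat_lit 204821) (nat_lit 17) (.e (nat_lit 6149) (nat_lit 332) .nil)))))) (.g (nat_lit 4) .nil .nil))))) (.nd (nat_lit 4) (.nd (nat_lit 5) 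
(.lf (nat_lit 49736) (.g (nat_lit 1798) (.e (nat_lit 1348) (nat_lit 102) (.e (nat_lit 286735) (nat_lit 3) (.e (nat_lit 98367) (nat_lit 27) (.e (nat_lit 434180) (nat_lit 0) .nil)))) .nil)) 
(.lf (nat_lit 49768) (.g (nat_lit 3769) (.e (nat_lit 1348) (nat_lit 102) (.e (nat_lit 286735) (nat_lit 3) (.e (nat_lit 98370) (nat_lit 28) (.e (nat_lit 442424) (nat_lit 22) (.e (nat_lit 196661) (nat_lit 12) (.e (nat_lit 57715) (nat_lit 176) .nil)))))) (.g (nat_lit 4) .nil .nil)))) (.nd (nat_lit 5) 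
(.lf (nat_lit 49752) (.g (nat_lit 1619) (.e (nat_lit 1348) (nat_lit 102) (.e (nat_lit 286735) (nat_lit 3) (.e (nat_lit 98369) (nat_lit 28) (.e (nat_lit 442425) (nat_lit 23) .nil)))) .nil)) 
(.lf (nat_lit 49784) (.g (nat_lit 3132) (.e (nat_lit 1348) (nat_lit 102) (.e (nat_lit 286735) (nat_lit 3) (.e (nat_lit 98371) (nat_lit 28) (.e (nat_lit 442424) (nat_lit 22) (.e (nat_lit 196661) (nat_lit 12) (.e (nat_lit 57713) (nat_lit 176) .nil)))))) (.g (nat_lit 5) .nil .nil)))))) (.nd (nat_lit 3) (.nd (nat_lit 4) (.nd (nat_lit 5) 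
(.lf (nat_lit 49732) (.g (nat_lit 2553) (.e (nat_lit 1348) (nat_lit 102) (.e (nat_lit 286735) (nat_lit 3) (.e (nat_lit 106240) (nat_lit 26) (.e (nat_lit 426265) (nat_lit 9) (.e (nat_lit 426124) (nat_lit 2) (.e (nat_lit 196677) (nat_lit 16) (.e (nat_lit 130816) (nat_lit 176) .nil))))))) (.g (nat_lit 6) .nil .nil))) 
(.lf (nat_lit 49764) (.g (nat_lit 2977) (.e (nat_lit 1348) (nat_lit 102) (.e (nat_lit 286735) (nat_lit 3) (.e (nat_lit 98370) (nat_lit 28) (.e (nat_lit 442424) (nat_lit 22) (.e (nat_lit 196628) (nat_lit 9) (.e (nat_lit 968) (nat_lit 81) (.e (nat_lit 6192) (nat_lit 332) .nil))))))) (.g (nat_lit 4) .nil .nil)))) (.nd (nat_lit 5) 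
(.lf (nat_lit 49748) (.g (nat_lit 2062) (.e (nat_lit 1348) (nat_lit 102) (.e (nat_lit 286735) (nat_lit 3) (.e (nat_lit 98369) (nat_lit 28) (.e (nat_lit 442424) (nat_lit 22) (.e (nat_lit 196661) (nat_lit 12) .nil))))) .nil)) 
(.lf (nat_lit 49780) (.g (nat_lit 3344) (.e (nat_lit 1348) (nat_lit 102) (.e (nat_lit 286735) (nat_lit 3) (.e (nat_lit 98370) (nat_lit 28) (.e (nat_lit 442427) (nat_lit 23) (.e (nat_lit 204825) (nat_lit 17) .nil))))) .nil)))) (.nd (nat_lit 4) (.nd (nat_lit 5) 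
(.lf (nat_lit 49740) (.g (nat_lit 1989) (.e (nat_lit 1348) (nat_lit 102) (.e (nat_lit 286735) (nat_lit 3) (.e (nat_lit 98367) (nat_lit 27) (.e (nat_lit 434184) (nat_lit 8) .nil)))) .nil)) 
(.lf (nat_lit 49772) (.g (nat_lit 1551) (.e (nat_lit 1348) (nat_lit 102) (.e (nat_lit 286735) (nat_lit 3) (.e (nat_lit 98370) (nat_lit 28) (.e (nat_lit 442427) (nat_lit 23) .nil)))) .nil))) (.nd (nat_lit 5) 
(.lf (nat_lit 49756) (.g (nat_lit 3370) (.e (nat_lit 1348) (nat_lit 102) (.e (nat_lit 286735) (nat_lit 3) (.e (nat_lit 98369) (nat_lit 28) (.e (nat_lit 442427) (nat_lit 23) (.e (nat_lit 204821) (nat_lit 17) (.e (nat_lit 6149) (nat_lit 332) .nil)))))) (.g (nat_lit 4) .nil .nil))) 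
(.lf (nat_lit 49788) (.g (nat_lit 3220) (.e (nat_lit 1348) (nat_lit 102) (.e (nat_lit 286735) (nat_lit 3) (.e (nat_lit 98371) (nat_lit 28) (.e (nat_lit 442427) (nat_lit 23) (.e (nat_lit 204821) (nat_lit 17) (.e (nat_lit 6136) (nat_lit 332) .nil)))))) (.g (nat_lit 6) .nil .nil))))))) (.nd (nat_lit 2) (.nd (nat_lit 3) (.nd (nat_lit 4) (.nd (nat_lit 5) 
(.lf (nat_lit 49730) (.g (nat_lit 1657) (.e (nat_lit 1348) (nat_lit 102) (.e (nat_lit 286735) (nat_lit 3) (.e (nat_lit 106240) (nat_lit 26) (.e (nat_lit 426211) (nat_lit 9) (.e (nat_lit 426125) (nat_lit 2) (.e (nat_lit 204544) (nat_lit 16) (.e (nat_lit 130816) (nat_lit 176) .nil))))))) (.g (nat_lit 5) .nil .nil))) 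
(.lf (nat_lit 49762) (.g (nat_lit 3650) (.e (nat_lit 1348) (nat_lit 102) (.e (nat_lit 286735) (nat_lit 3) (.e (nat_lit 98370) (nat_lit 28) (.e (nat_lit 442424) (nat_lit 22) (.e (nat_lit 196628) (nat_lit 9) (.e (nat_lit 968) (nat_lit 81) (.e (nat_lit 6188) (nat_lit 332) .nil))))))) (.g (nat_lit 4) .nil .nil)))) (.nd (nat_lit 5) 
(.lf (nat_lit 49746) (.g (nat_lit 3231) (.e (nat_lit 1348) (nat_lit 102) (.e (nat_lit 286735) (nat_lit 3) (.e (nat_lit 98369) (nat_lit 28) (.e (nat_lit 442422) (nat_lit 22) (.e (nat_lit 196661) (nat_lit 12) (.e (nat_lit 57714) (nat_lit 176) .nil)))))) (.g (nat_lit 5) .nil .nil))) 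
(.lf (nat_lit 49778) (.g (nat_lit 3364) (.e (nat_lit 1348) (nat_lit 102) (.e (nat_lit 286735) (nat_lit 3) (.e (nat_lit 98370) (nat_lit 28) (.e (nat_lit 442427) (nat_lit 23) (.e (nat_lit 204823) (nat_lit 17) .nil))))) .nil)))) (.nd (nat_lit 4) (.nd (nat_lit 5) 
(.lf (nat_lit 49738) (.g (nat_lit 4248) (.e (nat_lit 1348) (nat_lit 102) (.e (nat_lit 286735) (nat_lit 3) (.e (nat_lit 98367) (nat_lit 27) (.e (nat_lit 434180) (nat_lit 0) (.e (nat_lit 1252) (nat_lit 92) (.e (nat_lit 98321) (nat_lit 17) (.e (nat_lit 7060) (nat_lit 377) .nil))))))) (.g (nat_lit 6) .nil .nil))) 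
(.lf (nat_lit 49770) (.g (nat_lit 1816) (.e (nat_lit 1348) (nat_lit 102) (.e (nat_lit 286735) (nat_lit 3) (.e (nat_lit 98370) (nat_lit 28) (.e (nat_lit 442425) (nat_lit 23) .nil)))) .nil))) (.nd (nat_lit 5) 
(.lf (nat_lit 49754) (.g (nat_lit 3637) (.e (nat_lit 1348) (nat_lit 102) (.e (nat_lit 286735) (nat_lit 3) (.e (nat_lit 98369) (nat_lit 28) (.e (nat_lit 442427) (nat_lit 23) (.e (nat_lit 204821) (nat_lit 17) (.e (nat_lit 6126) (nat_lit 332) .nil)))))) (.g (nat_lit 4) .nil .nil))) 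
(.lf (nat_lit 49786) (.g (nat_lit 3138) (.e (nat_lit 1348) (nat_lit 102) (.e (nat_lit 286735) (nat_lit 3) (.e (nat_lit 98371) (nat_lit 28) (.e (nat_lit 442427) (nat_lit 23) (.e (nat_lit 204821) (nat_lit 17) (.e (nat_lit 6092) (nat_lit 332) .nil)))))) (.g (nat_lit 6) .nil .nil)))))) (.nd (nat_lit 3) (.nd (nat_lit 4) (.nd (nat_lit 5) 
(.lf (nat_lit 49734) (.g (nat_lit 1961) (.e (nat_lit 1348) (nat_lit 102) (.e (nat_lit 286735) (nat_lit 3) (.e (nat_lit 98366) (nat_lit 27) (.e (nat_lit 434179) (nat_lit 0) .nil)))) .nil)) 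
(.lf (nat_lit 49766) (.g (nat_lit 4445) (.e (nat_lit 1348) (nat_lit 102) (.e (nat_lit 286735) (nat_lit 3) (.e (nat_lit 98370) (nat_lit 28) (.e (nat_lit 442424) (nat_lit 22) (.e (nat_lit 196661) (nat_lit 12) (.e (nat_lit 57713) (nat_lit 176) .nil)))))) (.g (nat_lit 6) .nil .nil)))) (.nd (nat_lit 5) 
(.lf (nat_lit 49750) (.g (nat_lit 3667) (.e (nat_lit 1348) (nat_lit 102) (.e (nat_lit 286735) (nat_lit 3) (.e (nat_lit 98369) (nat_lit 28) (.e (nat_lit 442424) (nat_lit 22) (.e (nat_lit 196661) (nat_lit 12) (.e (nat_lit 57713) (nat_lit 176) .nil)))))) (.g (nat_lit 5) .nil .nil))) 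
(.lf (nat_lit 49782) (.g (nat_lit 2459) (.e (nat_lit 1348) (nat_lit 102) (.e (nat_lit 286735) (nat_lit 3) (.e (nat_lit 98371) (nat_lit 28) (.e (nat_lit 442422) (nat_lit 22) (.e (nat_lit 196661) (nat_lit 12) (.e (nat_lit 57714) (nat_lit 176) .nil)))))) (.g (nat_lit 5) .nil .nil))))) (.nd (nat_lit 4) (.nd (nat_lit 5) 
(.lf (nat_lit 49742) (.g (nat_lit 1796) (.e (nat_lit 1348) (nat_lit 102) (.e (nat_lit 286735) (nat_lit 3) (.e (nat_lit 98367) (nat_lit 27) (.e (nat_lit 442112) (nat_lit 11) .nil)))) .nil)) 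
(.lf (nat_lit 49774) (.g (nat_lit 3848) (.e (nat_lit 1348) (nat_lit 102) (.e (nat_lit 286735) (nat_lit 3) (.e (nat_lit 98370) (nat_lit 28) (.e (nat_lit 442427) (nat_lit 23) (.e (nat_lit 204821) (nat_lit 17) (.e (nat_lit 6126) (nat_lit 332) .nil)))))) (.g (nat_lit 5) .nil .nil)))) (.nd (nat_lit 5) 
(.lf (nat_lit 49758) (.g (nat_lit 2015) (.e (nat_lit 1348) (nat_lit 102) (.e (nat_lit 286735) (nat_lit 3) (.e (nat_lit 98370) (nat_lit 28) (.e (nat_lit 442422) (nat_lit 22) .nil)))) .nil)) 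
(.lf (nat_lit 49790) (.g (nat_lit 2677) (.e (nat_lit 1348) (nat_lit 102) (.e (nat_lit 286735) (nat_lit 3) (.e (nat_lit 98371) (nat_lit 28) (.e (nat_lit 442427) (nat_lit 23) (.e (nat_lit 204821) (nat_lit 17) (.e (nat_lit 7936) (nat_lit 332) .nil)))))) (.g (nat_lit 5) .nil .nil)))))))) (.nd (nat_lit 1) (.nd (nat_lit 2) (.nd (nat_lit 3) (.nd (nat_lit 4) (.nd (nat_lit 5) 
(.lf (nat_lit 49729) (.g (nat_lit 1961) (.e (nat_lit 1348) (nat_lit 102) (.e (nat_lit 286735) (nat_lit 3) (.e (nat_lit 106240) (nat_lit 26) (.e (nat_lit 426211) (nat_lit 9) (.e (nat_lit 426125) (nat_lit 2) (.e (nat_lit 204544) (nat_lit 12) (.e (nat_lit 57713) (nat_lit 176) .nil))))))) (.g (nat_lit 5) .nil .nil))) 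
(.lf (nat_lit 49761) (.g (nat_lit 2933) (.e (nat_lit 1348) (nat_lit 102) (.e (nat_lit 286735) (nat_lit 3) (.e (nat_lit 98370) (nat_lit 28) (.e (nat_lit 442424) (nat_lit 22) (.e (nat_lit 196628) (nat_lit 9) .nil))))) .nil))) (.nd (nat_lit 5) 
(.lf (nat_lit 49745) (.g (nat_lit 3047) (.e (nat_lit 1348) (nat_lit 102) (.e (nat_lit 286735) (nat_lit 3) (.e (nat_lit 98369) (nat_lit 28) (.e (nat_lit 442422) (nat_lit 22) (.e (nat_lit 196661) (nat_lit 12) (.e (nat_lit 57713) (nat_lit 176) .nil)))))) (.g (nat_lit 4) .nil .nil))) 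
(.lf (nat_lit 49777) (.g (nat_lit 3572) (.e (nat_lit 1348) (nat_lit 102) (.e (nat_lit 286735) (nat_lit 3) (.e (nat_lit 98370) (nat_lit 28) (.e (nat_lit 442427) (nat_lit 23) (.e (nat_lit 204821) (nat_lit 17) (.e (nat_lit 7936) (nat_lit 332) .nil)))))) (.g (nat_lit 5) .nil .nil))))) (.nd (nat_lit 4) (.nd (nat_lit 5) 
(.lf (nat_lit 49737) (.g (nat_lit 3267) (.e (nat_lit 1348) (nat_lit 102) (.e (nat_lit 286735) (nat_lit 3) (.e (nat_lit 98367) (nat_lit 27) (.e (nat_lit 434180) (nat_lit 0) (.e (nat_lit 1235) (nat_lit 91) (.e (nat_lit 90165) (nat_lit 12) (.e (nat_lit 171776) (nat_lit 176) .nil))))))) (.g (nat_lit 6) .nil .nil))) 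
(.lf (nat_lit 49769) (.g (nat_lit 3173) (.e (nat_lit 1348) (nat_lit 102) (.e (nat_lit 286735) (nat_lit 3) (.e (nat_lit 98370) (nat_lit 28) (.e (nat_lit 442424) (nat_lit 22) (.e (nat_lit 196661) (nat_lit 12) (.e (nat_lit 65280) (nat_lit 176) .nil)))))) (.g (nat_lit 4) .nil .nil)))) (.nd (nat_lit 5) 
(.lf (nat_lit 49753) (.g (nat_lit 3762) (.e (nat_lit 1348) (nat_lit 102) (.e (nat_lit 286735) (nat_lit 3) (.e (nat_lit 98369) (nat_lit 28) (.e (nat_lit 442427) (nat_lit 23) (.e (nat_lit 204821) (nat_lit 17) (.e (nat_lit 6092) (nat_lit 332) .nil)))))) (.g (nat_lit 4) .nil .nil))) 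
(.lf (nat_lit 49785) (.g (nat_lit 3229) (.e (nat_lit 1348) (nat_lit 102) (.e (nat_lit 286735) (nat_lit 3) (.e (nat_lit 98371) (nat_lit 28) (.e (nat_lit 442424) (nat_lit 22) (.e (nat_lit 196661) (nat_lit 12) (.e (nat_lit 57714) (nat_lit 176) .nil)))))) (.g (nat_lit 5) .nil .nil)))))) (.nd (nat_lit 3) (.nd (nat_lit 4) (.nd (nat_lit 5) 
(.lf (nat_lit 49733) (.g (nat_lit 2849) (.e (nat_lit 1348) (nat_lit 102) (.e (nat_lit 286735) (nat_lit 3) (.e (nat_lit 106240) (nat_lit 26) (.e (nat_lit 426265) (nat_lit 9) (.e (nat_lit 426133) (nat_lit 3) (.e (nat_lit 204827) (nat_lit 17) (.e (nat_lit 7936) (nat_lit 332) .nil))))))) (.g (nat_lit 6) .nil .nil))) 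
(.lf (nat_lit 49765) (.g (nat_lit 4498) (.e (nat_lit 1348) (nat_lit 102) (.e (nat_lit 286735) (nat_lit 3) (.e (nat_lit 98370) (nat_lit 28) (.e (nat_lit 442424) (nat_lit 22) (.e (nat_lit 196661) (nat_lit 12) (.e (nat_lit 57711) (nat_lit 176) .nil)))))) (.g (nat_lit 6) .nil .nil)))) (.nd (nat_lit 5) 
(.lf (nat_lit 49749) (.g (nat_lit 3706) (.e (nat_lit 1348) (nat_lit 102) (.e (nat_lit 286735) (nat_lit 3) (.e (nat_lit 98369) (nat_lit 28) (.e (nat_lit 442424) (nat_lit 22) (.e (nat_lit 196661) (nat_lit 12) (.e (nat_lit 57711) (nat_lit 176) .nil)))))) (.g (nat_lit 5) .nil .nil))) 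
(.lf (nat_lit 49781) (.g (nat_lit 2274) (.e (nat_lit 1348) (nat_lit 102) (.e (nat_lit 286735) (nat_lit 3) (.e (nat_lit 98371) (nat_lit 28) (.e (nat_lit 442422) (nat_lit 22) (.e (nat_lit 196661) (nat_lit 12) (.e (nat_lit 57711) (nat_lit 176) .nil)))))) (.g (nat_lit 4) .nil .nil))))) (.nd (nat_lit 4) (.nd (nat_lit 5) 
(.lf (nat_lit 49741) (.g (nat_lit 1796) (.e (nat_lit 1348) (nat_lit 102) (.e (nat_lit 286735) (nat_lit 3) (.e (nat_lit 98367) (nat_lit 27) (.e (nat_lit 442112) (nat_lit 8) .nil)))) .nil)) 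
(.lf (nat_lit 49773) (.g (nat_lit 3988) (.e (nat_lit 1348) (nat_lit 102) (.e (nat_lit 286735) (nat_lit 3) (.e (nat_lit 98370) (nat_lit 28) (.e (nat_lit 442427) (nat_lit 23) (.e (nat_lit 204821) (nat_lit 17) (.e (nat_lit 6092) (nat_lit 332) .nil)))))) (.g (nat_lit 6) .nil .nil)))) (.nd (nat_lit 5) 
(.lf (nat_lit 49757) (.g (nat_lit 3327) (.e (nat_lit 1348) (nat_lit 102) (.e (nat_lit 286735) (nat_lit 3) (.e (nat_lit 98369) (nat_lit 28) (.e (nat_lit 442427) (nat_lit 23) (.e (nat_lit 204821) (nat_lit 17) (.e (nat_lit 7936) (nat_lit 332) .nil)))))) (.g (nat_lit 4) .nil .nil))) 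
(.lf (nat_lit 49789) (.g (nat_lit 2753) (.e (nat_lit 1348) (nat_lit 102) (.e (nat_lit 286735) (nat_lit 3) (.e (nat_lit 98371) (nat_lit 28) (.e (nat_lit 442427) (nat_lit 23) (.e (nat_lit 204821) (nat_lit 17) (.e (nat_lit 6149) (nat_lit 332) .nil)))))) (.g (nat_lit 4) .nil .nil))))))) (.nd (nat_lit 2) (.nd (nat_lit 3) (.nd (nat_lit 4) (.nd (nat_lit 5) 
(.lf (nat_lit 49731) (.g (nat_lit 2481) (.e (nat_lit 1348) (nat_lit 102) (.e (nat_lit 286735) (nat_lit 3) (.e (nat_lit 106240) (nat_lit 26) (.e (nat_lit 426265) (nat_lit 9) (.e (nat_lit 426116) (nat_lit 2) (.e (nat_lit 196677) (nat_lit 16) (.e (nat_lit 130816) (nat_lit 176) .nil))))))) (.g (nat_lit 6) .nil .nil))) 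
(.lf (nat_lit 49763) (.g (nat_lit 3882) (.e (nat_lit 1348) (nat_lit 102) (.e (nat_lit 286735) (nat_lit 3) (.e (nat_lit 98370) (nat_lit 28) (.e (nat_lit 442424) (nat_lit 22) (.e (nat_lit 196628) (nat_lit 9) (.e (nat_lit 968) (nat_lit 81) (.e (nat_lit 6190) (nat_lit 332) .nil))))))) (.g (nat_lit 4) .nil .nil)))) (.nd (nat_lit 5) 
(.lf (nat_lit 49747) (.g (nat_lit 2113) (.e (nat_lit 1348) (nat_lit 102) (.e (nat_lit 286735) (nat_lit 3) (.e (nat_lit 98369) (nat_lit 28) (.e (nat_lit 442424) (nat_lit 22) (.e (nat_lit 196628) (nat_lit 9) .nil))))) .nil)) 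
(.lf (nat_lit 49779) (.g (nat_lit 3364) (.e (nat_lit 1348) (nat_lit 102) (.e (nat_lit 286735) (nat_lit 3) (.e (nat_lit 98370) (nat_lit 28) (.e (nat_lit 442427) (nat_lit 23) (.e (nat_lit 204824) (nat_lit 17) .nil))))) .nil)))) (.nd (nat_lit 4) (.nd (nat_lit 5) 
(.lf (nat_lit 49739) (.g (nat_lit 1796) (.e (nat_lit 1348) (nat_lit 102) (.e (nat_lit 286735) (nat_lit 3) (.e (nat_lit 98367) (nat_lit 27) (.e (nat_lit 442112) (nat_lit 3) .nil)))) .nil)) 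
(.lf (nat_lit 49771) (.g (nat_lit 2678) (.e (nat_lit 1348) (nat_lit 102) (.e (nat_lit 286735) (nat_lit 3) (.e (nat_lit 98370) (nat_lit 28) (.e (nat_lit 442425) (nat_lit 23) (.e (nat_lit 204821) (nat_lit 17) .nil))))) .nil))) (.nd (nat_lit 5) 
(.lf (nat_lit 49755) (.g (nat_lit 3837) (.e (nat_lit 1348) (nat_lit 102) (.e (nat_lit 286735) (nat_lit 3) (.e (nat_lit 98369) (nat_lit 28) (.e (nat_lit 442427) (nat_lit 23) (.e (nat_lit 204821) (nat_lit 17) (.e (nat_lit 6136) (nat_lit 332) .nil)))))) (.g (nat_lit 5) .nil .nil))) 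
(.lf (nat_lit 49787) (.g (nat_lit 3020) (.e (nat_lit 1348) (nat_lit 102) (.e (nat_lit 286735) (nat_lit 3) (.e (nat_lit 98371) (nat_lit 28) (.e (nat_lit 442427) (nat_lit 23) (.e (nat_lit 204821) (nat_lit 17) (.e (nat_lit 6126) (nat_lit 332) .nil)))))) (.g (nat_lit 5) .nil .nil)))))) (.nd (nat_lit 3) (.nd (nat_lit 4) (.nd (nat_lit 5) 
(.lf (nat_lit 49735) (.g (nat_lit 1992) (.e (nat_lit 1348) (nat_lit 102) (.e (nat_lit 286735) (nat_lit 3) (.e (nat_lit 98367) (nat_lit 27) (.e (nat_lit 434177) (nat_lit 0) .nil)))) .nil)) 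
(.lf (nat_lit 49767) (.g (nat_lit 4383) (.e (nat_lit 1348) (nat_lit 102) (.e (nat_lit 286735) (nat_lit 3) (.e (nat_lit 98370) (nat_lit 28) (.e (nat_lit 442424) (nat_lit 22) (.e (nat_lit 196661) (nat_lit 12) (.e (nat_lit 57714) (nat_lit 176) .nil)))))) (.g (nat_lit 0) .nil .nil)))) (.nd (nat_lit 5) 
(.lf (nat_lit 49751) (.g (nat_lit 3637) (.e (nat_lit 1348) (nat_lit 102) (.e (nat_lit 286735) (nat_lit 3) (.e (nat_lit 98369) (nat_lit 28) (.e (nat_lit 442424) (nat_lit 22) (.e (nat_lit 196661) (nat_lit 12) (.e (nat_lit 57714) (nat_lit 176) .nil)))))) (.g (nat_lit 5) .nil .nil))) 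
(.lf (nat_lit 49783) (.g (nat_lit 3263) (.e (nat_lit 1348) (nat_lit 102) (.e (nat_lit 286735) (nat_lit 3) (.e (nat_lit 98371) (nat_lit 28) (.e (nat_lit 442424) (nat_lit 22) (.e (nat_lit 196661) (nat_lit 12) (.e (nat_lit 57711) (nat_lit 176) .nil)))))) (.g (nat_lit 6) .nil .nil))))) (.nd (nat_lit 4) (.nd (nat_lit 5) 
(.lf (nat_lit 49743) (.g (nat_lit 1570) (.e (nat_lit 1348) (nat_lit 102) (.e (nat_lit 286735) (nat_lit 3) (.e (nat_lit 98369) (nat_lit 28) (.e (nat_lit 442422) (nat_lit 22) .nil)))) .nil)) 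
(.lf (nat_lit 49775) (.g (nat_lit 4071) (.e (nat_lit 1348) (nat_lit 102) (.e (nat_lit 286735) (nat_lit 3) (.e (nat_lit 98370) (nat_lit 28) (.e (nat_lit 442427) (nat_lit 23) (.e (nat_lit 204821) (nat_lit 17) (.e (nat_lit 6136) (nat_lit 332) .nil)))))) (.g (nat_lit 5) .nil .nil)))) (.nd (nat_lit 5) 
(.lf (nat_lit 49759) (.g (nat_lit 2367) (.e (nat_lit 1348) (nat_lit 102) (.e (nat_lit 286735) (nat_lit 3) (.e (nat_lit 98370) (nat_lit 28) (.e (nat_lit 442423) (nat_lit 22) (.e (nat_lit 196661) (nat_lit 12) .nil))))) .nil)) 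
(.lf (nat_lit 49791) (.g (nat_lit 2026) (.e (nat_lit 1348) (nat_lit 102) (.e (nat_lit 286735) (nat_lit 3) (.e (nat_lit 98372) (nat_lit 29) (.e (nat_lit 450571) (nat_lit 1) .nil)))) .nil))))))))

noncomputable def tv692 : DT := (.nd (nat_lit 0) (.nd (nat_lit 1) (.nd (nat_lit 2) (.nd (nat_lit 3) (.nd (nat_lit 4) (.nd (nat_lit 5) 
(.lf (nat_lit 49792) (.g (nat_lit 2177) (.e (nat_lit 1348) (nat_lit 102) (.e (nat_lit 286735) (nat_lit 3) (.e (nat_lit 98372) (nat_lit 29) (.e (nat_lit 450571) (nat_lit 1) (.e (nat_lit 500083) (nat_lit 21) .nil))))) .nil)) 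
(.lf (nat_lit 49824) (.g (nat_lit 2248) (.e (nat_lit 1348) (nat_lit 102) (.e (nat_lit 286735) (nat_lit 3) (.e (nat_lit 98373) (nat_lit 29) (.e (nat_lit 450562) (nat_lit 0) (.e (nat_lit 4177) (nat_lit 251) (.e (nat_lit 1112) (nat_lit 82) (.e (nat_lit 16128) (nat_lit 180) .nil))))))) (.g (nat_lit 5) .nil .nil)))) (.nd (nat_lit 5) 
(.lf (nat_lit 49808) (.g (nat_lit 3161) (.e (nat_lit 1348) (nat_lit 102) (.e (nat_lit 286735) (nat_lit 3) (.e (nat_lit 98372) (nat_lit 29) (.e (nat_lit 450579) (nat_lit 5) (.e (nat_lit 532493) (nat_lit 0) .nil))))) .nil)) 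
(.lf (nat_lit 49840) (.g (nat_lit 2833) (.e (nat_lit 1348) (nat_lit 102) (.e (nat_lit 286735) (nat_lit 3) (.e (nat_lit 98373) (nat_lit 29) (.e (nat_lit 450563) (nat_lit 0) (.e (nat_lit 3996) (nat_lit 240) (.e (nat_lit 8285) (nat_lit 51) (.e (nat_lit 4921) (nat_lit 287) .nil))))))) (.g (nat_lit 5) .nil .nil))))) (.nd (nat_lit 4) (.nd (nat_lit 5) 
(.lf (nat_lit 49800) (.g (nat_lit 4201) (.e (nat_lit 1348) (nat_lit 102) (.e (nat_lit 286735) (nat_lit 3) (.e (nat_lit 98372) (nat_lit 29) (.e (nat_lit 450579) (nat_lit 5) (.e (nat_lit 532482) (nat_lit 0) (.e (nat_lit 6192) (nat_lit 332) .nil)))))) (.g (nat_lit 4) .nil .nil))) 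
(.lf (nat_lit 49832) (.g (nat_lit 2572) (.e (nat_lit 1348) (nat_lit 102) (.e (nat_lit 286735) (nat_lit 3) (.e (nat_lit 98373) (nat_lit 29) (.e (nat_lit 450562) (nat_lit 0) (.e (nat_lit 4186) (nat_lit 251) (.e (nat_lit 1113) (nat_lit 82) (.e (nat_lit 16128) (nat_lit 180) .nil))))))) (.g (nat_lit 6) .nil .nil)))) (.nd (nat_lit 5) 
(.lf (nat_lit 49816) (.g (nat_lit 2105) (.e (nat_lit 1348) (nat_lit 102) (.e (nat_lit 286735) (nat_lit 3) (.e (nat_lit 98373) (nat_lit 29) (.e (nat_lit 450562) (nat_lit 0) (.e (nat_lit 3996) (nat_lit 240) (.e (nat_lit 8286) (nat_lit 51) (.e (nat_lit 4919) (nat_lit 287) .nil))))))) (.g (nat_lit 4) .nil .nil))) 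
(.lf (nat_lit 49848) (.g (nat_lit 2128) (.e (nat_lit 1348) (nat_lit 102) (.e (nat_lit 286735) (nat_lit 3) (.e (nat_lit 98373) (nat_lit 29) (.e (nat_lit 450563) (nat_lit 0) (.e (nat_lit 3996) (nat_lit 240) (.e (nat_lit 8288) (nat_lit 51) (.e (nat_lit 4963) (nat_lit 287) .nil))))))) (.g (nat_lit 4) .nil .nil)))))) (.nd (nat_lit 3) (.nd (nat_lit 4) (.nd (nat_lit 5) 
(.lf (nat_lit 49796) (.g (nat_lit 2871) (.e (nat_lit 1348) (nat_lit 102) (.e (nat_lit 286735) (nat_lit 3) (.e (nat_lit 98372) (nat_lit 29) (.e (nat_lit 450579) (nat_lit 5) (.e (nat_lit 532480) (nat_lit 0) (.e (nat_lit 6131) (nat_lit 332) .nil)))))) (.g (nat_lit 4) .nil .nil))) 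
(.lf (nat_lit 49828) (.g (nat_lit 2328) (.e (nat_lit 1348) (nat_lit 102) (.e (nat_lit 286735) (nat_lit 3) (.e (nat_lit 98373) (nat_lit 29) (.e (nat_lit 450562) (nat_lit 0) (.e (nat_lit 4177) (nat_lit 251) (.e (nat_lit 1120) (nat_lit 82) (.e (nat_lit 16128) (nat_lit 180) .nil))))))) (.g (nat_lit 6) .nil .nil)))) (.nd (nat_lit 5) 
(.lf (nat_lit 49812) (.g (nat_lit 1817) (.e (nat_lit 1348) (nat_lit 102) (.e (nat_lit 286735) (nat_lit 3) (.e (nat_lit 98373) (nat_lit 29) (.e (nat_lit 450562) (nat_lit 0) (.e (nat_lit 3866) (nat_lit 233) (.e (nat_lit 1286) (nat_lit 95) (.e (nat_lit 130816) (nat_lit 176) .nil))))))) (.g (nat_lit 4) .nil .nil))) 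
(.lf (nat_lit 49844) (.g (nat_lit 2367) (.e (nat_lit 1348) (nat_lit 102) (.e (nat_lit 286735) (nat_lit 3) (.e (nat_lit 98373) (nat_lit 29) (.e (nat_lit 450563) (nat_lit 0) (.e (nat_lit 3996) (nat_lit 240) (.e (nat_lit 8287) (nat_lit 51) (.e (nat_lit 4919) (nat_lit 287) .nil))))))) (.g (nat_lit 4) .nil .nil))))) (.nd (nat_lit 4) (.nd (nat_lit 5) 
(.lf (nat_lit 49804) (.g (nat_lit 3161) (.e (nat_lit 1348) (nat_lit 102) (.e (nat_lit 286735) (nat_lit 3) (.e (nat_lit 98372) (nat_lit 29) (.e (nat_lit 450579) (nat_lit 5) (.e (nat_lit 532487) (nat_lit 0) .nil))))) .nil)) 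
(.lf (nat_lit 49836) (.g (nat_lit 3415) (.e (nat_lit 1348) (nat_lit 102) (.e (nat_lit 286735) (nat_lit 3) (.e (nat_lit 98373) (nat_lit 29) (.e (nat_lit 450562) (nat_lit 0) (.e (nat_lit 4284) (nat_lit 253) (.e (nat_lit 57581) (nat_lit 61) (.e (nat_lit 7936) (nat_lit 377) .nil))))))) (.g (nat_lit 6) .nil .nil)))) (.nd (nat_lit 5) 
(.lf (nat_lit 49820) (.g (nat_lit 2097) (.e (nat_lit 1348) (nat_lit 102) (.e (nat_lit 286735) (nat_lit 3) (.e (nat_lit 98373) (nat_lit 29) (.e (nat_lit 450562) (nat_lit 0) (.e (nat_lit 3996) (nat_lit 240) (.e (nat_lit 8288) (nat_lit 51) (.e (nat_lit 4963) (nat_lit 287) .nil))))))) (.g (nat_lit 4) .nil .nil))) 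
(.lf (nat_lit 49852) (.g (nat_lit 2057) (.e (nat_lit 1348) (nat_lit 102) (.e (nat_lit 286735) (nat_lit 3) (.e (nat_lit 98373) (nat_lit 29) (.e (nat_lit 450563) (nat_lit 0) (.e (nat_lit 4168) (nat_lit 251) (.e (nat_lit 1118) (nat_lit 82) (.e (nat_lit 16128) (nat_lit 180) .nil))))))) (.g (nat_lit 6) .nil .nil))))))) (.nd (nat_lit 2) (.nd (nat_lit 3) (.nd (nat_lit 4) (.nd (nat_lit 5) 
(.lf (nat_lit 49794) (.g (nat_lit 2567) (.e (nat_lit 1348) (nat_lit 102) (.e (nat_lit 286735) (nat_lit 3) (.e (nat_lit 98372) (nat_lit 29) (.e (nat_lit 450579) (nat_lit 5) (.e (nat_lit 532480) (nat_lit 0) .nil))))) .nil)) 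
(.lf (nat_lit 49826) (.g (nat_lit 2345) (.e (nat_lit 1348) (nat_lit 102) (.e (nat_lit 286735) (nat_lit 3) (.e (nat_lit 98373) (nat_lit 29) (.e (nat_lit 450562) (nat_lit 0) (.e (nat_lit 4177) (nat_lit 251) (.e (nat_lit 1114) (nat_lit 82) (.e (nat_lit 16128) (nat_lit 180) .nil))))))) (.g (nat_lit 6) .nil .nil)))) (.nd (nat_lit 5) 
(.lf (nat_lit 49810) (.g (nat_lit 6129) (.e (nat_lit 1348) (nat_lit 102) (.e (nat_lit 286735) (nat_lit 3) (.e (nat_lit 98372) (nat_lit 29) (.e (nat_lit 450588) (nat_lit 10) (.e (nat_lit 573468) (nat_lit 10) (.e (nat_lit 16128) (nat_lit 180) .nil)))))) (.g (nat_lit 5) .nil .nil))) 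
(.lf (nat_lit 49842) (.g (nat_lit 2136) (.e (nat_lit 1348) (nat_lit 102) (.e (nat_lit 286735) (nat_lit 3) (.e (nat_lit 98373) (nat_lit 29) (.e (nat_lit 450563) (nat_lit 0) (.e (nat_lit 3996) (nat_lit 240) (.e (nat_lit 8286) (nat_lit 51) (.e (nat_lit 4919) (nat_lit 287) .nil))))))) (.g (nat_lit 4) .nil .nil))))) (.nd (nat_lit 4) (.nd (nat_lit 5) 
(.lf (nat_lit 49802) (.g (nat_lit 4092) (.e (nat_lit 1348) (nat_lit 102) (.e (nat_lit 286735) (nat_lit 3) (.e (nat_lit 98372) (nat_lit 29) (.e (nat_lit 450579) (nat_lit 5) (.e (nat_lit 532484) (nat_lit 0) (.e (nat_lit 7936) (nat_lit 332) .nil)))))) (.g (nat_lit 5) .nil .nil))) 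
(.lf (nat_lit 49834) (.g (nat_lit 2081) (.e (nat_lit 1348) (nat_lit 102) (.e (nat_lit 286735) (nat_lit 3) (.e (nat_lit 98373) (nat_lit 29) (.e (nat_lit 450562) (nat_lit 0) (.e (nat_lit 4281) (nat_lit 253) (.e (nat_lit 57584) (nat_lit 61) (.e (nat_lit 7936) (nat_lit 377) .nil))))))) (.g (nat_lit 4) .nil .nil)))) (.nd (nat_lit 5) 
(.lf (nat_lit 49818) (.g (nat_lit 2336) (.e (nat_lit 1348) (nat_lit 102) (.e (nat_lit 286735) (nat_lit 3) (.e (nat_lit 98373) (nat_lit 29) (.e (nat_lit 450562) (nat_lit 0) (.e (nat_lit 3996) (nat_lit 240) (.e (nat_lit 8287) (nat_lit 51) (.e (nat_lit 4919) (nat_lit 287) .nil))))))) (.g (nat_lit 4) .nil .nil))) 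
(.lf (nat_lit 49850) (.g (nat_lit 2294) (.e (nat_lit 1348) (nat_lit 102) (.e (nat_lit 286735) (nat_lit 3) (.e (nat_lit 98373) (nat_lit 29) (.e (nat_lit 450563) (nat_lit 0) (.e (nat_lit 3996) (nat_lit 240) (.e (nat_lit 8289) (nat_lit 51) (.e (nat_lit 4963) (nat_lit 287) .nil))))))) (.g (nat_lit 4) .nil .nil)))))) (.nd (nat_lit 3) (.nd (nat_lit 4) (.nd (nat_lit 5) 
(.lf (nat_lit 49798) (.g (nat_lit 4474) (.e (nat_lit 1348) (nat_lit 102) (.e (nat_lit 286735) (nat_lit 3) (.e (nat_lit 98372) (nat_lit 29) (.e (nat_lit 450579) (nat_lit 5) (.e (nat_lit 532481) (nat_lit 0) (.e (nat_lit 6192) (nat_lit 332) .nil)))))) (.g (nat_lit 5) .nil .nil))) 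
(.lf (nat_lit 49830) (.g (nat_lit 1876) (.e (nat_lit 1348) (nat_lit 102) (.e (nat_lit 286735) (nat_lit 3) (.e (nat_lit 98373) (nat_lit 29) (.e (nat_lit 450562) (nat_lit 0) (.e (nat_lit 4185) (nat_lit 251) (.e (nat_lit 1113) (nat_lit 82) (.e (nat_lit 16128) (nat_lit 180) .nil))))))) (.g (nat_lit 4) .nil .nil)))) (.nd (nat_lit 5) 
(.lf (nat_lit 49814) (.g (nat_lit 2398) (.e (nat_lit 1348) (nat_lit 102) (.e (nat_lit 286735) (nat_lit 3) (.e (nat_lit 98373) (nat_lit 29) (.e (nat_lit 450562) (nat_lit 0) (.e (nat_lit 3996) (nat_lit 240) (.e (nat_lit 8285) (nat_lit 51) (.e (nat_lit 4919) (nat_lit 287) .nil))))))) (.g (nat_lit 4) .nil .nil))) 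
(.lf (nat_lit 49846) (.g (nat_lit 1899) (.e (nat_lit 1348) (nat_lit 102) (.e (nat_lit 286735) (nat_lit 3) (.e (nat_lit 98373) (nat_lit 29) (.e (nat_lit 450563) (nat_lit 0) (.e (nat_lit 3996) (nat_lit 240) (.e (nat_lit 8287) (nat_lit 51) (.e (nat_lit 4925) (nat_lit 287) .nil))))))) (.g (nat_lit 4) .nil .nil))))) (.nd (nat_lit 4) (.nd (nat_lit 5) 
(.lf (nat_lit 49806) (.g (nat_lit 4068) (.e (nat_lit 1348) (nat_lit 102) (.e (nat_lit 286735) (nat_lit 3) (.e (nat_lit 98372) (nat_lit 29) (.e (nat_lit 450579) (nat_lit 5) (.e (nat_lit 532489) (nat_lit 0) (.e (nat_lit 7936) (nat_lit 332) .nil)))))) (.g (nat_lit 5) .nil .nil))) 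
(.lf (nat_lit 49838) (.g (nat_lit 2175) (.e (nat_lit 1348) (nat_lit 102) (.e (nat_lit 286735) (nat_lit 3) (.e (nat_lit 98373) (nat_lit 29) (.e (nat_lit 450563) (nat_lit 0) (.e (nat_lit 3866) (nat_lit 233) (.e (nat_lit 1286) (nat_lit 95) (.e (nat_lit 130816) (nat_lit 176) .nil))))))) (.g (nat_lit 4) .nil .nil)))) (.nd (nat_lit 5) 
(.lf (nat_lit 49822) (.g (nat_lit 2263) (.e (nat_lit 1348) (nat_lit 102) (.e (nat_lit 286735) (nat_lit 3) (.e (nat_lit 98373) (nat_lit 29) (.e (nat_lit 450562) (nat_lit 0) (.e (nat_lit 3996) (nat_lit 240) (.e (nat_lit 8289) (nat_lit 51) (.e (nat_lit 4963) (nat_lit 287) .nil))))))) (.g (nat_lit 4) .nil .nil))) 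
(.lf (nat_lit 49854) (.g (nat_lit 1605) (.e (nat_lit 1348) (nat_lit 102) (.e (nat_lit 286735) (nat_lit 3) (.e (nat_lit 98373) (nat_lit 29) (.e (nat_lit 450563) (nat_lit 0) (.e (nat_lit 4176) (nat_lit 251) (.e (nat_lit 1120) (nat_lit 82) (.e (nat_lit 16128) (nat_lit 180) .nil))))))) (.g (nat_lit 4) .nil .nil)))))))) 
(.nd (nat_lit 1) (.nd (nat_lit 2) (.nd (nat_lit 3) (.nd (nat_lit 4) (.nd (nat_lit 5) 
(.lf (nat_lit 49793) (.g (nat_lit 1792) (.e (nat_lit 1348) (nat_lit 102) (.e (nat_lit 286735) (nat_lit 3) (.e (nat_lit 98372) (nat_lit 29) (.e (nat_lit 458496) (nat_lit 1) .nil)))) .nil)) 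
(.lf (nat_lit 49825) (.g (nat_lit 2446) (.e (nat_lit 1348) (nat_lit 102) (.e (nat_lit 286735) (nat_lit 3) (.e (nat_lit 98373) (nat_lit 29) (.e (nat_lit 450562) (nat_lit 0) (.e (nat_lit 4177) (nat_lit 251) (.e (nat_lit 1113) (nat_lit 82) (.e (nat_lit 16128) (nat_lit 180) .nil))))))) (.g (nat_lit 6) .nil .nil)))) (.nd (nat_lit 5) 
(.lf (nat_lit 49809) (.g (nat_lit 4566) (.e (nat_lit 1348) (nat_lit 102) (.e (nat_lit 286735) (nat_lit 3) (.e (nat_lit 98372) (nat_lit 29) (.e (nat_lit 450586) (nat_lit 10) (.e (nat_lit 573468) (nat_lit 10) (.e (nat_lit 16128) (nat_lit 180) .nil)))))) (.g (nat_lit 5) .nil .nil))) 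
(.lf (nat_lit 49841) (.g (nat_lit 1988) (.e (nat_lit 1348) (nat_lit 102) (.e (nat_lit 286735) (nat_lit 3) (.e (nat_lit 98373) (nat_lit 29) (.e (nat_lit 450563) (nat_lit 0) (.e (nat_lit 3996) (nat_lit 240) (.e (nat_lit 8285) (nat_lit 51) (.e (nat_lit 4925) (nat_lit 287) .nil))))))) (.g (nat_lit 4) .nil .nil))))) (.nd (nat_lit 4) (.nd (nat_lit 5) 
(.lf (nat_lit 49801) (.g (nat_lit 3228) (.e (nat_lit 1348) (nat_lit 102) (.e (nat_lit 286735) (nat_lit 3) (.e (nat_lit 98372) (nat_lit 29) (.e (nat_lit 450579) (nat_lit 5) (.e (nat_lit 532483) (nat_lit 0) (.e (nat_lit 7936) (nat_lit 332) .nil)))))) (.g (nat_lit 4) .nil .nil))) 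
(.lf (nat_lit 49833) (.g (nat_lit 2418) (.e (nat_lit 1348) (nat_lit 102) (.e (nat_lit 286735) (nat_lit 3) (.e (nat_lit 98373) (nat_lit 29) (.e (nat_lit 450562) (nat_lit 0) (.e (nat_lit 4186) (nat_lit 251) (.e (nat_lit 1114) (nat_lit 82) (.e (nat_lit 16128) (nat_lit 180) .nil))))))) (.g (nat_lit 6) .nil .nil)))) (.nd (nat_lit 5) 
(.lf (nat_lit 49817) (.g (nat_lit 2352) (.e (nat_lit 1348) (nat_lit 102) (.e (nat_lit 286735) (nat_lit 3) (.e (nat_lit 98373) (nat_lit 29) (.e (nat_lit 450562) (nat_lit 0) (.e (nat_lit 3996) (nat_lit 240) (.e (nat_lit 8286) (nat_lit 51) (.e (nat_lit 4921) (nat_lit 287) .nil))))))) (.g (nat_lit 4) .nil .nil))) 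
(.lf (nat_lit 49849) (.g (nat_lit 2331) (.e (nat_lit 1348) (nat_lit 102) (.e (nat_lit 286735) (nat_lit 3) (.e (nat_lit 98373) (nat_lit 29) (.e (nat_lit 450563) (nat_lit 0) (.e (nat_lit 3996) (nat_lit 240) (.e (nat_lit 8289) (nat_lit 51) (.e (nat_lit 4961) (nat_lit 287) .nil))))))) (.g (nat_lit 4) .nil .nil)))))) (.nd (nat_lit 3) (.nd (nat_lit 4) (.nd (nat_lit 5) 
(.lf (nat_lit 49797) (.g (nat_lit 3090) (.e (nat_lit 1348) (nat_lit 102) (.e (nat_lit 286735) (nat_lit 3) (.e (nat_lit 98372) (nat_lit 29) (.e (nat_lit 450579) (nat_lit 5) (.e (nat_lit 532480) (nat_lit 0) (.e (nat_lit 6146) (nat_lit 332) .nil)))))) (.g (nat_lit 4) .nil .nil))) 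
(.lf (nat_lit 49829) (.g (nat_lit 1772) (.e (nat_lit 1348) (nat_lit 102) (.e (nat_lit 286735) (nat_lit 3) (.e (nat_lit 98373) (nat_lit 29) (.e (nat_lit 450562) (nat_lit 0) (.e (nat_lit 4185) (nat_lit 251) .nil))))) .nil))) (.nd (nat_lit 5) 
(.lf (nat_lit 49813) (.g (nat_lit 1703) (.e (nat_lit 1348) (nat_lit 102) (.e (nat_lit 286735) (nat_lit 3) (.e (nat_lit 98373) (nat_lit 29) (.e (nat_lit 450562) (nat_lit 0) (.e (nat_lit 3996) (nat_lit 240) .nil))))) .nil)) 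
(.lf (nat_lit 49845) (.g (nat_lit 2775) (.e (nat_lit 1348) (nat_lit 102) (.e (nat_lit 286735) (nat_lit 3) (.e (nat_lit 98373) (nat_lit 29) (.e (nat_lit 450563) (nat_lit 0) (.e (nat_lit 3996) (nat_lit 240) (.e (nat_lit 8287) (nat_lit 51) (.e (nat_lit 4921) (nat_lit 287) .nil))))))) (.g (nat_lit 5) .nil .nil))))) (.nd (nat_lit 4) (.nd (nat_lit 5) 
(.lf (nat_lit 49805) (.g (nat_lit 3887) (.e (nat_lit 1348) (nat_lit 102) (.e (nat_lit 286735) (nat_lit 3) (.e (nat_lit 98372) (nat_lit 29) (.e (nat_lit 450579) (nat_lit 5) (.e (nat_lit 532488) (nat_lit 0) (.e (nat_lit 7936) (nat_lit 332) .nil)))))) (.g (nat_lit 5) .nil .nil))) 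
(.lf (nat_lit 49837) (.g (nat_lit 3227) (.e (nat_lit 1348) (nat_lit 102) (.e (nat_lit 286735) (nat_lit 3) (.e (nat_lit 98373) (nat_lit 29) (.e (nat_lit 450562) (nat_lit 0) (.e (nat_lit 4284) (nat_lit 253) (.e (nat_lit 57582) (nat_lit 61) (.e (nat_lit 7936) (nat_lit 377) .nil))))))) (.g (nat_lit 6) .nil .nil)))) (.nd (nat_lit 5) 
(.lf (nat_lit 49821) (.g (nat_lit 2300) (.e (nat_lit 1348) (nat_lit 102) (.e (nat_lit 286735) (nat_lit 3) (.e (nat_lit 98373) (nat_lit 29) (.e (nat_lit 450562) (nat_lit 0) (.e (nat_lit 3996) (nat_lit 240) (.e (nat_lit 8289) (nat_lit 51) (.e (nat_lit 4961) (nat_lit 287) .nil))))))) (.g (nat_lit 4) .nil .nil))) 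
(.lf (nat_lit 49853) (.g (nat_lit 1726) (.e (nat_lit 1348) (nat_lit 102) (.e (nat_lit 286735) (nat_lit 3) (.e (nat_lit 98373) (nat_lit 29) (.e (nat_lit 450563) (nat_lit 0) (.e (nat_lit 4176) (nat_lit 251) (.e (nat_lit 1119) (nat_lit 82) (.e (nat_lit 16128) (nat_lit 180) .nil))))))) (.g (nat_lit 4) .nil .nil))))))) (.nd (nat_lit 2) (.nd (nat_lit 3) (.nd (nat_lit 4) (.nd (nat_lit 5) 
(.lf (nat_lit 49795) (.g (nat_lit 3218) (.e (nat_lit 1348) (nat_lit 102) (.e (nat_lit 286735) (nat_lit 3) (.e (nat_lit 98372) (nat_lit 29) (.e (nat_lit 450579) (nat_lit 5) (.e (nat_lit 532480) (nat_lit 0) (.e (nat_lit 6126) (nat_lit 332) .nil)))))) (.g (nat_lit 4) .nil .nil))) 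
(.lf (nat_lit 49827) (.g (nat_lit 2331) (.e (nat_lit 1348) (nat_lit 102) (.e (nat_lit 286735) (nat_lit 3) (.e (nat_lit 98373) (nat_lit 29) (.e (nat_lit 450562) (nat_lit 0) (.e (nat_lit 4177) (nat_lit 251) (.e (nat_lit 1119) (nat_lit 82) (.e (nat_lit 16128) (nat_lit 180) .nil))))))) (.g (nat_lit 6) .nil .nil)))) (.nd (nat_lit 5) 
(.lf (nat_lit 49811) (.g (nat_lit 656) (.e (nat_lit 1348) (nat_lit 102) (.e (nat_lit 286735) (nat_lit 3) (.e (nat_lit 98373) (nat_lit 29) (.e (nat_lit 450562) (nat_lit 0) .nil)))) .nil)) 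
(.lf (nat_lit 49843) (.g (nat_lit 2383) (.e (nat_lit 1348) (nat_lit 102) (.e (nat_lit 286735) (nat_lit 3) (.e (nat_lit 98373) (nat_lit 29) (.e (nat_lit 450563) (nat_lit 0) (.e (nat_lit 3996) (nat_lit 240) (.e (nat_lit 8286) (nat_lit 51) (.e (nat_lit 4921) (nat_lit 287) .nil))))))) (.g (nat_lit 4) .nil .nil))))) (.nd (nat_lit 4) (.nd (nat_lit 5) 
(.lf (nat_lit 49803) (.g (nat_lit 3468) (.e (nat_lit 1348) (nat_lit 102) (.e (nat_lit 286735) (nat_lit 3) (.e (nat_lit 98372) (nat_lit 29) (.e (nat_lit 450579) (nat_lit 5) (.e (nat_lit 532485) (nat_lit 0) (.e (nat_lit 7936) (nat_lit 332) .nil)))))) (.g (nat_lit 4) .nil .nil))) 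
(.lf (nat_lit 49835) (.g (nat_lit 2629) (.e (nat_lit 1348) (nat_lit 102) (.e (nat_lit 286735) (nat_lit 3) (.e (nat_lit 98373) (nat_lit 29) (.e (nat_lit 450562) (nat_lit 0) (.e (nat_lit 4284) (nat_lit 253) (.e (nat_lit 57580) (nat_lit 61) (.e (nat_lit 7936) (nat_lit 377) .nil))))))) (.g (nat_lit 4) .nil .nil)))) (.nd (nat_lit 5) 
(.lf (nat_lit 49819) (.g (nat_lit 2744) (.e (nat_lit 1348) (nat_lit 102) (.e (nat_lit 286735) (nat_lit 3) (.e (nat_lit 98373) (nat_lit 29) (.e (nat_lit 450562) (nat_lit 0) (.e (nat_lit 3996) (nat_lit 240) (.e (nat_lit 8287) (nat_lit 51) (.e (nat_lit 4921) (nat_lit 287) .nil))))))) (.g (nat_lit 4) .nil .nil))) 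
(.lf (nat_lit 49851) (.g (nat_lit 1896) (.e (nat_lit 1348) (nat_lit 102) (.e (nat_lit 286735) (nat_lit 3) (.e (nat_lit 98373) (nat_lit 29) (.e (nat_lit 450563) (nat_lit 0) (.e (nat_lit 4168) (nat_lit 251) (.e (nat_lit 1117) (nat_lit 82) (.e (nat_lit 16128) (nat_lit 180) .nil))))))) (.g (nat_lit 5) .nil .nil)))))) (.nd (nat_lit 3) (.nd (nat_lit 4) (.nd (nat_lit 5) 
(.lf (nat_lit 49799) (.g (nat_lit 4005) (.e (nat_lit 1348) (nat_lit 102) (.e (nat_lit 286735) (nat_lit 3) (.e (nat_lit 98372) (nat_lit 29) (.e (nat_lit 450579) (nat_lit 5) (.e (nat_lit 532481) (nat_lit 0) (.e (nat_lit 7936) (nat_lit 332) .nil)))))) (.g (nat_lit 5) .nil .nil))) 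
(.lf (nat_lit 49831) (.g (nat_lit 2318) (.e (nat_lit 1348) (nat_lit 102) (.e (nat_lit 286735) (nat_lit 3) (.e (nat_lit 98373) (nat_lit 29) (.e (nat_lit 450562) (nat_lit 0) (.e (nat_lit 4186) (nat_lit 251) (.e (nat_lit 1112) (nat_lit 82) (.e (nat_lit 16128) (nat_lit 180) .nil))))))) (.g (nat_lit 5) .nil .nil)))) (.nd (nat_lit 5) 
(.lf (nat_lit 49815) (.g (nat_lit 2802) (.e (nat_lit 1348) (nat_lit 102) (.e (nat_lit 286735) (nat_lit 3) (.e (nat_lit 98373) (nat_lit 29) (.e (nat_lit 450562) (nat_lit 0) (.e (nat_lit 3996) (nat_lit 240) (.e (nat_lit 8285) (nat_lit 51) (.e (nat_lit 4921) (nat_lit 287) .nil))))))) (.g (nat_lit 4) .nil .nil))) 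
(.lf (nat_lit 49847) (.g (nat_lit 1945) (.e (nat_lit 1348) (nat_lit 102) (.e (nat_lit 286735) (nat_lit 3) (.e (nat_lit 98373) (nat_lit 29) (.e (nat_lit 450563) (nat_lit 0) (.e (nat_lit 3996) (nat_lit 240) (.e (nat_lit 8287) (nat_lit 51) (.e (nat_lit 4963) (nat_lit 287) .nil))))))) (.g (nat_lit 4) .nil .nil))))) (.nd (nat_lit 4) (.nd (nat_lit 5) 
(.lf (nat_lit 49807) (.g (nat_lit 3150) (.e (nat_lit 1348) (nat_lit 102) (.e (nat_lit 286735) (nat_lit 3) (.e (nat_lit 98372) (nat_lit 29) (.e (nat_lit 450579) (nat_lit 5) (.e (nat_lit 532490) (nat_lit 0) .nil))))) .nil)) 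
(.lf (nat_lit 49839) (.g (nat_lit 2429) (.e (nat_lit 1348) (nat_lit 102) (.e (nat_lit 286735) (nat_lit 3) (.e (nat_lit 98373) (nat_lit 29) (.e (nat_lit 450563) (nat_lit 0) (.e (nat_lit 3996) (nat_lit 240) (.e (nat_lit 8285) (nat_lit 51) (.e (nat_lit 4919) (nat_lit 287) .nil))))))) (.g (nat_lit 4) .nil .nil)))) (.nd (nat_lit 5) 
(.lf (nat_lit 49823) (.g (nat_lit 1772) (.e (nat_lit 1348) (nat_lit 102) (.e (nat_lit 286735) (nat_lit 3) (.e (nat_lit 98373) (nat_lit 29) (.e (nat_lit 450562) (nat_lit 0) (.e (nat_lit 4168) (nat_lit 251) .nil))))) .nil)) 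
(.lf (nat_lit 49855) (.g (nat_lit 1820) (.e (nat_lit 1348) (nat_lit 102) (.e (nat_lit 286735) (nat_lit 3) (.e (nat_lit 98373) (nat_lit 29) (.e (nat_lit 450563) (nat_lit 0) (.e (nat_lit 4177) (nat_lit 251) (.e (nat_lit 1112) (nat_lit 82) (.e (nat_lit 16128) (nat_lit 180) .nil))))))) (.g (nat_lit 4) .nil .nil)))))))))

noncomputable def tv693 : DT := (.nd (nat_lit 0) (.nd (nat_lit 1) (.nd (nat_lit 2) (.nd (nat_lit 3) (.nd (nat_lit 4) (.nd (nat_lit 5) 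
(.lf (nat_lit 49856) (.g (nat_lit 2035) (.e (nat_lit 1348) (nat_lit 102) (.e (nat_lit 286735) (nat_lit 3) (.e (nat_lit 98373) (nat_lit 29) (.e (nat_lit 450563) (nat_lit 0) (.e (nat_lit 4177) (nat_lit 251) (.e (nat_lit 1113) (nat_lit 82) (.e (nat_lit 16128) (nat_lit 180) .nil))))))) (.g (nat_lit 6) .nil .nil))) 
(.lf (nat_lit 49888) (.g (nat_lit 3713) (.e (nat_lit 1348) (nat_lit 102) (.e (nat_lit 286735) (nat_lit 3) (.e (nat_lit 98373) (nat_lit 29) (.e (nat_lit 450578) (nat_lit 5) (.e (nat_lit 532490) (nat_lit 0) (.e (nat_lit 7936) (nat_lit 332) .nil)))))) (.g (nat_lit 5) .nil .nil)))) (.nd (nat_lit 5) 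
(.lf (nat_lit 49872) (.g (nat_lit 2872) (.e (nat_lit 1348) (nat_lit 102) (.e (nat_lit 286735) (nat_lit 3) (.e (nat_lit 98373) (nat_lit 29) (.e (nat_lit 450572) (nat_lit 1) .nil)))) .nil)) 
(.lf (nat_lit 49904) (.g (nat_lit 4594) (.e (nat_lit 1348) (nat_lit 102) (.e (nat_lit 286735) (nat_lit 3) (.e (nat_lit 98373) (nat_lit 29) (.e (nat_lit 450579) (nat_lit 5) (.e (nat_lit 532493) (nat_lit 0) .nil))))) .nil)))) (.nd (nat_lit 4) (.nd (nat_lit 5) 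
(.lf (nat_lit 49864) (.g (nat_lit 1545) (.e (nat_lit 1348) (nat_lit 102) (.e (nat_lit 286735) (nat_lit 3) (.e (nat_lit 98373) (nat_lit 29) (.e (nat_lit 450563) (nat_lit 0) (.e (nat_lit 4200) (nat_lit 251) (.e (nat_lit 1117) (nat_lit 82) (.e (nat_lit 16128) (nat_lit 180) .nil))))))) (.g (nat_lit 4) .nil .nil))) 
(.lf (nat_lit 49896) (.g (nat_lit 4019) (.e (nat_lit 1348) (nat_lit 102) (.e (nat_lit 286735) (nat_lit 3) (.e (nat_lit 98373) (nat_lit 29) (.e (nat_lit 450579) (nat_lit 5) (.e (nat_lit 532481) (nat_lit 0) (.e (nat_lit 7936) (nat_lit 332) .nil)))))) (.g (nat_lit 4) .nil .nil)))) (.nd (nat_lit 5) 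
(.lf (nat_lit 49880) (.g (nat_lit 3902) (.e (nat_lit 1348) (nat_lit 102) (.e (nat_lit 286735) (nat_lit 3) (.e (nat_lit 98373) (nat_lit 29) (.e (nat_lit 450576) (nat_lit 2) (.e (nat_lit 507930) (nat_lit 10) .nil))))) .nil)) 
(.lf (nat_lit 49912) (.g (nat_lit 4491) (.e (nat_lit 1348) (nat_lit 102) (.e (nat_lit 286735) (nat_lit 3) (.e (nat_lit 98373) (nat_lit 29) (.e (nat_lit 450580) (nat_lit 5) (.e (nat_lit 532490) (nat_lit 0) .nil))))) .nil))))) (.nd (nat_lit 3) (.nd (nat_lit 4) (.nd (nat_lit 5) 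
(.lf (nat_lit 49860) (.g (nat_lit 1514) (.e (nat_lit 1348) (nat_lit 102) (.e (nat_lit 286735) (nat_lit 3) (.e (nat_lit 98373) (nat_lit 29) (.e (nat_lit 450563) (nat_lit 0) (.e (nat_lit 4178) (nat_lit 251) .nil))))) .nil)) 
(.lf (nat_lit 49892) (.g (nat_lit 2877) (.e (nat_lit 1348) (nat_lit 102) (.e (nat_lit 286735) (nat_lit 3) (.e (nat_lit 98373) (nat_lit 29) (.e (nat_lit 450578) (nat_lit 5) (.e (nat_lit 532497) (nat_lit 0) .nil))))) .nil))) (.nd (nat_lit 5) 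
(.lf (nat_lit 49876) (.g (nat_lit 2793) (.e (nat_lit 1348) (nat_lit 102) (.e (nat_lit 286735) (nat_lit 3) (.e (nat_lit 98373) (nat_lit 29) (.e (nat_lit 450574) (nat_lit 1) .nil)))) .nil)) 
(.lf (nat_lit 49908) (.g (nat_lit 4491) (.e (nat_lit 1348) (nat_lit 102) (.e (nat_lit 286735) (nat_lit 3) (.e (nat_lit 98373) (nat_lit 29) (.e (nat_lit 450580) (nat_lit 5) (.e (nat_lit 532481) (nat_lit 0) .nil))))) .nil)))) (.nd (nat_lit 4) (.nd (nat_lit 5) 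
(.lf (nat_lit 49868) (.g (nat_lit 1556) (.e (nat_lit 1348) (nat_lit 102) (.e (nat_lit 286735) (nat_lit 3) (.e (nat_lit 98373) (nat_lit 29) (.e (nat_lit 450563) (nat_lit 0) (.e (nat_lit 4278) (nat_lit 253) .nil))))) .nil)) 
(.lf (nat_lit 49900) (.g (nat_lit 4561) (.e (nat_lit 1348) (nat_lit 102) (.e (nat_lit 286735) (nat_lit 3) (.e (nat_lit 98373) (nat_lit 29) (.e (nat_lit 450579) (nat_lit 5) (.e (nat_lit 532485) (nat_lit 0) .nil))))) .nil))) (.nd (nat_lit 5) 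
(.lf (nat_lit 49884) (.g (nat_lit 3388) (.e (nat_lit 1348) (nat_lit 102) (.e (nat_lit 286735) (nat_lit 3) (.e (nat_lit 98373) (nat_lit 29) (.e (nat_lit 450578) (nat_lit 5) (.e (nat_lit 532481) (nat_lit 0) (.e (nat_lit 7936) (nat_lit 332) .nil)))))) (.g (nat_lit 5) .nil .nil))) 
(.lf (nat_lit 49916) (.g (nat_lit 4264) (.e (nat_lit 1348) (nat_lit 102) (.e (nat_lit 286735) (nat_lit 3) (.e (nat_lit 98373) (nat_lit 29) (.e (nat_lit 450581) (nat_lit 5) (.e (nat_lit 532482) (nat_lit 0) (.e (nat_lit 6192) (nat_lit 332) .nil)))))) (.g (nat_lit 5) .nil .nil))))))) (.nd (nat_lit 2) (.nd (nat_lit 3) (.nd (nat_lit 4) (.nd (nat_lit 5) 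
(.lf (nat_lit 49858) (.g (nat_lit 1937) (.e (nat_lit 1348) (nat_lit 102) (.e (nat_lit 286735) (nat_lit 3) (.e (nat_lit 98373) (nat_lit 29) (.e (nat_lit 450563) (nat_lit 0) (.e (nat_lit 4177) (nat_lit 251) (.e (nat_lit 1119) (nat_lit 82) (.e (nat_lit 16128) (nat_lit 180) .nil))))))) (.g (nat_lit 5) .nil .nil))) 
(.lf (nat_lit 49890) (.g (nat_lit 2877) (.e (nat_lit 1348) (nat_lit 102) (.e (nat_lit 286735) (nat_lit 3) (.e (nat_lit 98373) (nat_lit 29) (.e (nat_lit 450578) (nat_lit 5) (.e (nat_lit 532493) (nat_lit 0) .nil))))) .nil))) (.nd (nat_lit 5) 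
(.lf (nat_lit 49874) (.g (nat_lit 4061) (.e (nat_lit 1348) (nat_lit 102) (.e (nat_lit 286735) (nat_lit 3) (.e (nat_lit 98373) (nat_lit 29) (.e (nat_lit 450573) (nat_lit 1) (.e (nat_lit 500056) (nat_lit 17) .nil))))) .nil)) 
(.lf (nat_lit 49906) (.g (nat_lit 1982) (.e (nat_lit 1348) (nat_lit 102) (.e (nat_lit 286735) (nat_lit 3) (.e (nat_lit 98373) (nat_lit 29) (.e (nat_lit 450580) (nat_lit 5) .nil)))) .nil)))) (.nd (nat_lit 4) (.nd (nat_lit 5) 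
(.lf (nat_lit 49866) (.g (nat_lit 1574) (.e (nat_lit 1348) (nat_lit 102) (.e (nat_lit 286735) (nat_lit 3) (.e (nat_lit 98373) (nat_lit 29) (.e (nat_lit 450563) (nat_lit 0) (.e (nat_lit 4212) (nat_lit 251) .nil))))) .nil)) 
(.lf (nat_lit 49898) (.g (nat_lit 4594) (.e (nat_lit 1348) (nat_lit 102) (.e (nat_lit 286735) (nat_lit 3) (.e (nat_lit 98373) (nat_lit 29) (.e (nat_lit 450579) (nat_lit 5) (.e (nat_lit 532483) (nat_lit 0) .nil))))) .nil))) (.nd (nat_lit 5) 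
(.lf (nat_lit 49882) (.g (nat_lit 2877) (.e (nat_lit 1348) (nat_lit 102) (.e (nat_lit 286735) (nat_lit 3) (.e (nat_lit 98373) (nat_lit 29) (.e (nat_lit 450578) (nat_lit 5) (.e (nat_lit 532480) (nat_lit 0) .nil))))) .nil)) 
(.lf (nat_lit 49914) (.g (nat_lit 913) (.e (nat_lit 1348) (nat_lit 102) (.e (nat_lit 286735) (nat_lit 3) (.e (nat_lit 98373) (nat_lit 29) (.e (nat_lit 450581) (nat_lit 5) .nil)))) .nil))))) (.nd (nat_lit 3) (.nd (nat_lit 4) (.nd (nat_lit 5) 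
(.lf (nat_lit 49862) (.g (nat_lit 1976) (.e (nat_lit 1348) (nat_lit 102) (.e (nat_lit 286735) (nat_lit 3) (.e (nat_lit 98373) (nat_lit 29) (.e (nat_lit 450563) (nat_lit 0) (.e (nat_lit 4181) (nat_lit 251) (.e (nat_lit 1109) (nat_lit 82) (.e (nat_lit 16128) (nat_lit 180) .nil))))))) (.g (nat_lit 6) .nil .nil))) 
(.lf (nat_lit 49894) (.g (nat_lit 4346) (.e (nat_lit 1348) (nat_lit 102) (.e (nat_lit 286735) (nat_lit 3) (.e (nat_lit 98373) (nat_lit 29) (.e (nat_lit 450579) (nat_lit 5) (.e (nat_lit 532480) (nat_lit 0) .nil))))) .nil))) (.nd (nat_lit 5) 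
(.lf (nat_lit 49878) (.g (nat_lit 2362) (.e (nat_lit 1348) (nat_lit 102) (.e (nat_lit 286735) (nat_lit 3) (.e (nat_lit 98373) (nat_lit 29) (.e (nat_lit 458496) (nat_lit 1) .nil)))) .nil)) 
(.lf (nat_lit 49910) (.g (nat_lit 4556) (.e (nat_lit 1348) (nat_lit 102) (.e (nat_lit 286735) (nat_lit 3) (.e (nat_lit 98373) (nat_lit 29) (.e (nat_lit 450580) (nat_lit 5) (.e (nat_lit 532485) (nat_lit 0) .nil))))) .nil)))) (.nd (nat_lit 4) (.nd (nat_lit 5) 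
(.lf (nat_lit 49870) (.g (nat_lit 3635) (.e (nat_lit 1348) (nat_lit 102) (.e (nat_lit 286735) (nat_lit 3) (.e (nat_lit 98373) (nat_lit 29) (.e (nat_lit 450570) (nat_lit 1) (.e (nat_lit 500083) (nat_lit 21) .nil))))) .nil)) 
(.lf (nat_lit 49902) (.g (nat_lit 4470) (.e (nat_lit 1348) (nat_lit 102) (.e (nat_lit 286735) (nat_lit 3) (.e (nat_lit 98373) (nat_lit 29) (.e (nat_lit 450579) (nat_lit 5) (.e (nat_lit 532488) (nat_lit 0) (.e (nat_lit 7936) (nat_lit 332) .nil)))))) (.g (nat_lit 4) .nil .nil)))) (.nd (nat_lit 5) 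
(.lf (nat_lit 49886) (.g (nat_lit 3539) (.e (nat_lit 1348) (nat_lit 102) (.e (nat_lit 286735) (nat_lit 3) (.e (nat_lit 98373) (nat_lit 29) (.e (nat_lit 450578) (nat_lit 5) (.e (nat_lit 532483) (nat_lit 0) (.e (nat_lit 7936) (nat_lit 332) .nil)))))) (.g (nat_lit 5) .nil .nil))) 
(.lf (nat_lit 49918) (.g (nat_lit 3232) (.e (nat_lit 1348) (nat_lit 102) (.e (nat_lit 286735) (nat_lit 3) (.e (nat_lit 98373) (nat_lit 29) (.e (nat_lit 450581) (nat_lit 5) (.e (nat_lit 532487) (nat_lit 0) .nil))))) .nil))))))) (.nd (nat_lit 1) (.nd (nat_lit 2) (.nd (nat_lit 3) (.nd (nat_lit 4) (.nd (nat_lit 5) 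
(.lf (nat_lit 49857) (.g (nat_lit 1917) (.e (nat_lit 1348) (nat_lit 102) (.e (nat_lit 286735) (nat_lit 3) (.e (nat_lit 98373) (nat_lit 29) (.e (nat_lit 450563) (nat_lit 0) (.e (nat_lit 4177) (nat_lit 251) (.e (nat_lit 1114) (nat_lit 82) (.e (nat_lit 16128) (nat_lit 180) .nil))))))) (.g (nat_lit 5) .nil .nil))) 
(.lf (nat_lit 49889) (.g (nat_lit 2877) (.e (nat_lit 1348) (nat_lit 102) (.e (nat_lit 286735) (nat_lit 3) (.e (nat_lit 98373) (nat_lit 29) (.e (nat_lit 450578) (nat_lit 5) (.e (nat_lit 532492) (nat_lit 0) .nil))))) .nil))) (.nd (nat_lit 5) 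
(.lf (nat_lit 49873) (.g (nat_lit 2404) (.e (nat_lit 1348) (nat_lit 102) (.e (nat_lit 286735) (nat_lit 3) (.e (nat_lit 98373) (nat_lit 29) (.e (nat_lit 450573) (nat_lit 1) .nil)))) .nil)) 
(.lf (nat_lit 49905) (.g (nat_lit 4268) (.e (nat_lit 1348) (nat_lit 102) (.e (nat_lit 286735) (nat_lit 3) (.e (nat_lit 98373) (nat_lit 29) (.e (nat_lit 450579) (nat_lit 5) (.e (nat_lit 532501) (nat_lit 1) .nil))))) .nil)))) (.nd (nat_lit 4) (.nd (nat_lit 5) 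
(.lf (nat_lit 49865) (.g (nat_lit 1715) (.e (nat_lit 1348) (nat_lit 102) (.e (nat_lit 286735) (nat_lit 3) (.e (nat_lit 98373) (nat_lit 29) (.e (nat_lit 450563) (nat_lit 0) (.e (nat_lit 4202) (nat_lit 251) (.e (nat_lit 1117) (nat_lit 82) (.e (nat_lit 16128) (nat_lit 180) .nil))))))) (.g (nat_lit 4) .nil .nil))) 
(.lf (nat_lit 49897) (.g (nat_lit 4623) (.e (nat_lit 1348) (nat_lit 102) (.e (nat_lit 286735) (nat_lit 3) (.e (nat_lit 98373) (nat_lit 29) (.e (nat_lit 450579) (nat_lit 5) (.e (nat_lit 532482) (nat_lit 0) (.e (nat_lit 6192) (nat_lit 332) .nil)))))) (.g (nat_lit 4) .nil .nil)))) (.nd (nat_lit 5) 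
(.lf (nat_lit 49881) (.g (nat_lit 1651) (.e (nat_lit 1348) (nat_lit 102) (.e (nat_lit 286735) (nat_lit 3) (.e (nat_lit 98373) (nat_lit 29) (.e (nat_lit 450578) (nat_lit 5) .nil)))) .nil)) 
(.lf (nat_lit 49913) (.g (nat_lit 4556) (.e (nat_lit 1348) (nat_lit 102) (.e (nat_lit 286735) (nat_lit 3) (.e (nat_lit 98373) (nat_lit 29) (.e (nat_lit 450580) (nat_lit 5) (.e (nat_lit 532497) (nat_lit 0) .nil))))) .nil))))) (.nd (nat_lit 3) (.nd (nat_lit 4) (.nd (nat_lit 5) 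
(.lf (nat_lit 49861) (.g (nat_lit 1511) (.e (nat_lit 1348) (nat_lit 102) (.e (nat_lit 286735) (nat_lit 3) (.e (nat_lit 98373) (nat_lit 29) (.e (nat_lit 450563) (nat_lit 0) (.e (nat_lit 4181) (nat_lit 251) .nil))))) .nil)) 
(.lf (nat_lit 49893) (.g (nat_lit 1849) (.e (nat_lit 1348) (nat_lit 102) (.e (nat_lit 286735) (nat_lit 3) (.e (nat_lit 98373) (nat_lit 29) (.e (nat_lit 450579) (nat_lit 5) .nil)))) .nil))) (.nd (nat_lit 5) 
(.lf (nat_lit 49877) (.g (nat_lit 2877) (.e (nat_lit 1348) (nat_lit 102) (.e (nat_lit 286735) (nat_lit 3) (.e (nat_lit 98373) (nat_lit 29) (.e (nat_lit 450575) (nat_lit 1) .nil)))) .nil)) 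
(.lf (nat_lit 49909) (.g (nat_lit 4313) (.e (nat_lit 1348) (nat_lit 102) (.e (nat_lit 286735) (nat_lit 3) (.e (nat_lit 98373) (nat_lit 29) (.e (nat_lit 450580) (nat_lit 5) (.e (nat_lit 532482) (nat_lit 0) .nil))))) .nil)))) (.nd (nat_lit 4) (.nd (nat_lit 5) 
(.lf (nat_lit 49869) (.g (nat_lit 2405) (.e (nat_lit 1348) (nat_lit 102) (.e (nat_lit 286735) (nat_lit 3) (.e (nat_lit 98373) (nat_lit 29) (.e (nat_lit 450570) (nat_lit 1) .nil)))) .nil)) 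
(.lf (nat_lit 49901) (.g (nat_lit 4594) (.e (nat_lit 1348) (nat_lit 102) (.e (nat_lit 286735) (nat_lit 3) (.e (nat_lit 98373) (nat_lit 29) (.e (nat_lit 450579) (nat_lit 5) (.e (nat_lit 532487) (nat_lit 0) .nil))))) .nil))) (.nd (nat_lit 5) 
(.lf (nat_lit 49885) (.g (nat_lit 3376) (.e (nat_lit 1348) (nat_lit 102) (.e (nat_lit 286735) (nat_lit 3) (.e (nat_lit 98373) (nat_lit 29) (.e (nat_lit 450578) (nat_lit 5) (.e (nat_lit 532482) (nat_lit 0) (.e (nat_lit 6192) (nat_lit 332) .nil)))))) (.g (nat_lit 4) .nil .nil))) 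
(.lf (nat_lit 49917) (.g (nat_lit 1959) (.e (nat_lit 1348) (nat_lit 102) (.e (nat_lit 286735) (nat_lit 3) (.e (nat_lit 98373) (nat_lit 29) (.e (nat_lit 450581) (nat_lit 5) (.e (nat_lit 532486) (nat_lit 0) (.e (nat_lit 7936) (nat_lit 332) .nil)))))) (.g (nat_lit 5) .nil .nil))))))) (.nd (nat_lit 2) (.nd (nat_lit 3) (.nd (nat_lit 4) (.nd (nat_lit 5) 
(.lf (nat_lit 49859) (.g (nat_lit 1911) (.e (nat_lit 1348) (nat_lit 102) (.e (nat_lit 286735) (nat_lit 3) (.e (nat_lit 98373) (nat_lit 29) (.e (nat_lit 450563) (nat_lit 0) (.e (nat_lit 4177) (nat_lit 251) (.e (nat_lit 1120) (nat_lit 82) (.e (nat_lit 16128) (nat_lit 180) .nil))))))) (.g (nat_lit 5) .nil .nil))) 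
(.lf (nat_lit 49891) (.g (nat_lit 2877) (.e (nat_lit 1348) (nat_lit 102) (.e (nat_lit 286735) (nat_lit 3) (.e (nat_lit 98373) (nat_lit 29) (.e (nat_lit 450578) (nat_lit 5) (.e (nat_lit 532496) (nat_lit 0) .nil))))) .nil))) (.nd (nat_lit 5) 
(.lf (nat_lit 49875) (.g (nat_lit 4061) (.e (nat_lit 1348) (nat_lit 102) (.e (nat_lit 286735) (nat_lit 3) (.e (nat_lit 98373) (nat_lit 29) (.e (nat_lit 450573) (nat_lit 1) (.e (nat_lit 500083) (nat_lit 21) .nil))))) .nil)) 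
(.lf (nat_lit 49907) (.g (nat_lit 4556) (.e (nat_lit 1348) (nat_lit 102) (.e (nat_lit 286735) (nat_lit 3) (.e (nat_lit 98373) (nat_lit 29) (.e (nat_lit 450580) (nat_lit 5) (.e (nat_lit 532480) (nat_lit 0) .nil))))) .nil)))) (.nd (nat_lit 4) (.nd (nat_lit 5) 
(.lf (nat_lit 49867) (.g (nat_lit 2129) (.e (nat_lit 1348) (nat_lit 102) (.e (nat_lit 286735) (nat_lit 3) (.e (nat_lit 98373) (nat_lit 29) (.e (nat_lit 450563) (nat_lit 0) (.e (nat_lit 4212) (nat_lit 251) (.e (nat_lit 1117) (nat_lit 82) (.e (nat_lit 16128) (nat_lit 180) .nil))))))) (.g (nat_lit 6) .nil .nil))) 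
(.lf (nat_lit 49899) (.g (nat_lit 2993) (.e (nat_lit 1348) (nat_lit 102) (.e (nat_lit 286735) (nat_lit 3) (.e (nat_lit 98373) (nat_lit 29) (.e (nat_lit 450579) (nat_lit 5) (.e (nat_lit 532484) (nat_lit 0) .nil))))) .nil))) (.nd (nat_lit 5) 
(.lf (nat_lit 49883) (.g (nat_lit 3396) (.e (nat_lit 1348) (nat_lit 102) (.e (nat_lit 286735) (nat_lit 3) (.e (nat_lit 98373) (nat_lit 29) (.e (nat_lit 450578) (nat_lit 5) (.e (nat_lit 532481) (nat_lit 0) (.e (nat_lit 6192) (nat_lit 332) .nil)))))) (.g (nat_lit 4) .nil .nil))) 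
(.lf (nat_lit 49915) (.g (nat_lit 3224) (.e (nat_lit 1348) (nat_lit 102) (.e (nat_lit 286735) (nat_lit 3) (.e (nat_lit 98373) (nat_lit 29) (.e (nat_lit 450581) (nat_lit 5) (.e (nat_lit 532481) (nat_lit 0) .nil))))) .nil))))) (.nd (nat_lit 3) (.nd (nat_lit 4) (.nd (nat_lit 5) 
(.lf (nat_lit 49863) (.g (nat_lit 1556) (.e (nat_lit 1348) (nat_lit 102) (.e (nat_lit 286735) (nat_lit 3) (.e (nat_lit 98373) (nat_lit 29) (.e (nat_lit 450563) (nat_lit 0) (.e (nat_lit 4185) (nat_lit 251) .nil))))) .nil)) 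
(.lf (nat_lit 49895) (.g (nat_lit 3927) (.e (nat_lit 1348) (nat_lit 102) (.e (nat_lit 286735) (nat_lit 3) (.e (nat_lit 98373) (nat_lit 29) (.e (nat_lit 450579) (nat_lit 5) (.e (nat_lit 532481) (nat_lit 0) (.e (nat_lit 6192) (nat_lit 332) .nil)))))) (.g (nat_lit 4) .nil .nil)))) (.nd (nat_lit 5) 
(.lf (nat_lit 49879) (.g (nat_lit 2957) (.e (nat_lit 1348) (nat_lit 102) (.e (nat_lit 286735) (nat_lit 3) (.e (nat_lit 98373) (nat_lit 29) (.e (nat_lit 458496) (nat_lit 1) (.e (nat_lit 500056) (nat_lit 17) (.e (nat_lit 65280) (nat_lit 176) .nil)))))) (.g (nat_lit 5) .nil .nil))) 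
(.lf (nat_lit 49911) (.g (nat_lit 4231) (.e (nat_lit 1348) (nat_lit 102) (.e (nat_lit 286735) (nat_lit 3) (.e (nat_lit 98373) (nat_lit 29) (.e (nat_lit 450580) (nat_lit 5) (.e (nat_lit 532486) (nat_lit 0) .nil))))) .nil)))) (.nd (nat_lit 4) (.nd (nat_lit 5) 
(.lf (nat_lit 49871) (.g (nat_lit 2703) (.e (nat_lit 1348) (nat_lit 102) (.e (nat_lit 286735) (nat_lit 3) (.e (nat_lit 98373) (nat_lit 29) (.e (nat_lit 450571) (nat_lit 1) .nil)))) .nil)) 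
(.lf (nat_lit 49903) (.g (nat_lit 4608) (.e (nat_lit 1348) (nat_lit 102) (.e (nat_lit 286735) (nat_lit 3) (.e (nat_lit 98373) (nat_lit 29) (.e (nat_lit 450579) (nat_lit 5) (.e (nat_lit 532490) (nat_lit 0) .nil))))) .nil))) (.nd (nat_lit 5) 
(.lf (nat_lit 49887) (.g (nat_lit 2693) (.e (nat_lit 1348) (nat_lit 102) (.e (nat_lit 286735) (nat_lit 3) (.e (nat_lit 98373) (nat_lit 29) (.e (nat_lit 450578) (nat_lit 5) (.e (nat_lit 532490) (nat_lit 0) .nil))))) .nil)) 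
(.lf (nat_lit 49919) (.g (nat_lit 3994) (.e (nat_lit 1348) (nat_lit 102) (.e (nat_lit 286735) (nat_lit 3) (.e (nat_lit 98373) (nat_lit 29) (.e (nat_lit 450581) (nat_lit 5) (.e (nat_lit 532490) (nat_lit 0) (.e (nat_lit 7936) (nat_lit 332) .nil)))))) (.g (nat_lit 5) .nil .nil)))))))))

noncomputable def tv694 : DT := (.nd (nat_lit 0) (.nd (nat_lit 1) (.nd (nat_lit 2) (.nd (nat_lit 3) (.nd (nat_lit 4) (.nd (nat_lit 5) 
(.lf (nat_lit 49920) (.g (nat_lit 3422) (.e (nat_lit 1348) (nat_lit 102) (.e (nat_lit 286735) (nat_lit 3) (.e (nat_lit 98373) (nat_lit 29) (.e (nat_lit 450581) (nat_lit 5) (.e (nat_lit 532492) (nat_lit 0) (.e (nat_lit 7936) (nat_lit 332) .nil)))))) (.g (nat_lit 4) .nil .nil))) 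
(.lf (nat_lit 49952) (.g (nat_lit 1360) (.e (nat_lit 1348) (nat_lit 102) (.e (nat_lit 286735) (nat_lit 3) (.e (nat_lit 98373) (nat_lit 29) (.e (nat_lit 450587) (nat_lit 10) (.e (nat_lit 573457) (nat_lit 9) (.e (nat_lit 63) (nat_lit 0) (.e (nat_lit 7936) (nat_lit 377) .nil))))))) (.g (nat_lit 5) .nil .nil)))) (.nd (nat_lit 5) 
(.lf (nat_lit 49936) (.g (nat_lit 2350) (.e (nat_lit 1348) (nat_lit 102) (.e (nat_lit 286735) (nat_lit 3) (.e (nat_lit 98373) (nat_lit 29) (.e (nat_lit 450587) (nat_lit 10) (.e (nat_lit 573456) (nat_lit 9) (.e (nat_lit 50) (nat_lit 0) (.e (nat_lit 7936) (nat_lit 377) .nil))))))) (.g (nat_lit 6) .nil .nil))) 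
(.lf (nat_lit 49968) (.g (nat_lit 2458) (.e (nat_lit 1348) (nat_lit 102) (.e (nat_lit 286735) (nat_lit 3) (.e (nat_lit 98373) (nat_lit 29) (.e (nat_lit 450588) (nat_lit 10) (.e (nat_lit 573449) (nat_lit 9) (.e (nat_lit 23) (nat_lit 0) (.e (nat_lit 7060) (nat_lit 377) .nil))))))) (.g (nat_lit 4) .nil .nil))))) (.nd (nat_lit 4) (.nd (nat_lit 5) 
(.lf (nat_lit 49928) (.g (nat_lit 4099) (.e (nat_lit 1348) (nat_lit 102) (.e (nat_lit 286735) (nat_lit 3) (.e (nat_lit 98373) (nat_lit 29) (.e (nat_lit 450585) (nat_lit 10) (.e (nat_lit 573468) (nat_lit 10) (.e (nat_lit 16128) (nat_lit 180) .nil)))))) (.g (nat_lit 5) .nil .nil))) 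
(.lf (nat_lit 49960) (.g (nat_lit 4210) (.e (nat_lit 1348) (nat_lit 102) (.e (nat_lit 286735) (nat_lit 3) (.e (nat_lit 98373) (nat_lit 29) (.e (nat_lit 450588) (nat_lit 10) (.e (nat_lit 573441) (nat_lit 0) (.e (nat_lit 75) (nat_lit 0) (.e (nat_lit 6134) (nat_lit 332) .nil))))))) (.g (nat_lit 5) .nil .nil)))) (.nd (nat_lit 5) 
(.lf (nat_lit 49944) (.g (nat_lit 1301) (.e (nat_lit 1348) (nat_lit 102) (.e (nat_lit 286735) (nat_lit 3) (.e (nat_lit 98373) (nat_lit 29) (.e (nat_lit 450587) (nat_lit 10) (.e (nat_lit 573457) (nat_lit 9) (.e (nat_lit 11) (nat_lit 0) (.e (nat_lit 7936) (nat_lit 377) .nil))))))) (.g (nat_lit 6) .nil .nil))) 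
(.lf (nat_lit 49976) (.g (nat_lit 2861) (.e (nat_lit 1348) (nat_lit 102) (.e (nat_lit 286735) (nat_lit 3) (.e (nat_lit 98373) (nat_lit 29) (.e (nat_lit 450588) (nat_lit 10) (.e (nat_lit 573452) (nat_lit 9) (.e (nat_lit 18) (nat_lit 0) (.e (nat_lit 7936) (nat_lit 377) .nil))))))) (.g (nat_lit 6) .nil .nil)))))) (.nd (nat_lit 3) (.nd (nat_lit 4) (.nd (nat_lit 5) 
(.lf (nat_lit 49924) (.g (nat_lit 4249) (.e (nat_lit 1348) (nat_lit 102) (.e (nat_lit 286735) (nat_lit 3) (.e (nat_lit 98373) (nat_lit 29) (.e (nat_lit 450582) (nat_lit 6) (.e (nat_lit 540675) (nat_lit 0) .nil))))) .nil)) 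
(.lf (nat_lit 49956) (.g (nat_lit 3098) (.e (nat_lit 1348) (nat_lit 102) (.e (nat_lit 286735) (nat_lit 3) (.e (nat_lit 98373) (nat_lit 29) (.e (nat_lit 450587) (nat_lit 10) (.e (nat_lit 573466) (nat_lit 10) (.e (nat_lit 16128) (nat_lit 180) .nil)))))) (.g (nat_lit 5) .nil .nil)))) (.nd (nat_lit 5) 
(.lf (nat_lit 49940) (.g (nat_lit 1744) (.e (nat_lit 1348) (nat_lit 102) (.e (nat_lit 286735) (nat_lit 3) (.e (nat_lit 98373) (nat_lit 29) (.e (nat_lit 450587) (nat_lit 10) (.e (nat_lit 573456) (nat_lit 9) (.e (nat_lit 64) (nat_lit 0) (.e (nat_lit 7936) (nat_lit 377) .nil))))))) (.g (nat_lit 5) .nil .nil))) 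
(.lf (nat_lit 49972) (.g (nat_lit 3577) (.e (nat_lit 1348) (nat_lit 102) (.e (nat_lit 286735) (nat_lit 3) (.e (nat_lit 98373) (nat_lit 29) (.e (nat_lit 450588) (nat_lit 10) (.e (nat_lit 573452) (nat_lit 9) (.e (nat_lit 11) (nat_lit 0) (.e (nat_lit 7061) (nat_lit 377) .nil))))))) (.g (nat_lit 6) .nil .nil))))) (.nd (nat_lit 4) (.nd (nat_lit 5) 
(.lf (nat_lit 49932) (.g (nat_lit 2792) (.e (nat_lit 1348) (nat_lit 102) (.e (nat_lit 286735) (nat_lit 3) (.e (nat_lit 98373) (nat_lit 29) (.e (nat_lit 450587) (nat_lit 10) (.e (nat_lit 573454) (nat_lit 9) .nil))))) .nil)) 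
(.lf (nat_lit 49964) (.g (nat_lit 2957) (.e (nat_lit 1348) (nat_lit 102) (.e (nat_lit 286735) (nat_lit 3) (.e (nat_lit 98373) (nat_lit 29) (.e (nat_lit 450588) (nat_lit 10) (.e (nat_lit 573448) (nat_lit 9) (.e (nat_lit 0) (nat_lit 0) (.e (nat_lit 7065) (nat_lit 377) .nil))))))) (.g (nat_lit 4) .nil .nil)))) (.nd (nat_lit 5) 
(.lf (nat_lit 49948) (.g (nat_lit 1960) (.e (nat_lit 1348) (nat_lit 102) (.e (nat_lit 286735) (nat_lit 3) (.e (nat_lit 98373) (nat_lit 29) (.e (nat_lit 450587) (nat_lit 10) (.e (nat_lit 573457) (nat_lit 9) (.e (nat_lit 50) (nat_lit 0) (.e (nat_lit 7936) (nat_lit 377) .nil))))))) (.g (nat_lit 6) .nil .nil))) 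
(.lf (nat_lit 49980) (.g (nat_lit 2557) (.e (nat_lit 1348) (nat_lit 102) (.e (nat_lit 286735) (nat_lit 3) (.e (nat_lit 98373) (nat_lit 29) (.e (nat_lit 450588) (nat_lit 10) (.e (nat_lit 573452) (nat_lit 9) (.e (nat_lit 59) (nat_lit 0) (.e (nat_lit 7936) (nat_lit 377) .nil))))))) (.g (nat_lit 6) .nil .nil))))))) (.nd (nat_lit 2) (.nd (nat_lit 3) (.nd (nat_lit 4) (.nd (nat_lit 5) 
(.lf (nat_lit 49922) (.g (nat_lit 3431) (.e (nat_lit 1348) (nat_lit 102) (.e (nat_lit 286735) (nat_lit 3) (.e (nat_lit 98373) (nat_lit 29) (.e (nat_lit 450581) (nat_lit 5) (.e (nat_lit 532496) (nat_lit 0) (.e (nat_lit 7936) (nat_lit 332) .nil)))))) (.g (nat_lit 4) .nil .nil))) 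
(.lf (nat_lit 49954) (.g (nat_lit 4918) (.e (nat_lit 1348) (nat_lit 102) (.e (nat_lit 286735) (nat_lit 3) (.e (nat_lit 98373) (nat_lit 29) (.e (nat_lit 450587) (nat_lit 10) (.e (nat_lit 573458) (nat_lit 9) (.e (nat_lit 48) (nat_lit 0) (.e (nat_lit 7936) (nat_lit 377) .nil))))))) (.g (nat_lit 6) .nil .nil)))) (.nd (nat_lit 5) 
(.lf (nat_lit 49938) (.g (nat_lit 1667) (.e (nat_lit 1348) (nat_lit 102) (.e (nat_lit 286735) (nat_lit 3) (.e (nat_lit 98373) (nat_lit 29) (.e (nat_lit 450587) (nat_lit 10) (.e (nat_lit 573456) (nat_lit 9) (.e (nat_lit 62) (nat_lit 0) (.e (nat_lit 7936) (nat_lit 377) .nil))))))) (.g (nat_lit 5) .nil .nil))) 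
(.lf (nat_lit 49970) (.g (nat_lit 3121) (.e (nat_lit 1348) (nat_lit 102) (.e (nat_lit 286735) (nat_lit 3) (.e (nat_lit 98373) (nat_lit 29) (.e (nat_lit 450588) (nat_lit 10) (.e (nat_lit 573452) (nat_lit 9) (.e (nat_lit 11) (nat_lit 0) (.e (nat_lit 6965) (nat_lit 377) .nil))))))) (.g (nat_lit 5) .nil .nil))))) (.nd (nat_lit 4) (.nd (nat_lit 5) 
(.lf (nat_lit 49930) (.g (nat_lit 4184) (.e (nat_lit 1348) (nat_lit 102) (.e (nat_lit 286735) (nat_lit 3) (.e (nat_lit 98373) (nat_lit 29) (.e (nat_lit 450587) (nat_lit 10) (.e (nat_lit 573441) (nat_lit 0) (.e (nat_lit 75) (nat_lit 0) (.e (nat_lit 6134) (nat_lit 332) .nil))))))) (.g (nat_lit 4) .nil .nil))) 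
(.lf (nat_lit 49962) (.g (nat_lit 2289) (.e (nat_lit 1348) (nat_lit 102) (.e (nat_lit 286735) (nat_lit 3) (.e (nat_lit 98373) (nat_lit 29) (.e (nat_lit 450588) (nat_lit 10) (.e (nat_lit 581376) (nat_lit 1) (.e (nat_lit 8536) (nat_lit 225) .nil)))))) (.g (nat_lit 4) .nil .nil)))) (.nd (nat_lit 5) 
(.lf (nat_lit 49946) (.g (nat_lit 1410) (.e (nat_lit 1348) (nat_lit 102) (.e (nat_lit 286735) (nat_lit 3) (.e (nat_lit 98373) (nat_lit 29) (.e (nat_lit 450587) (nat_lit 10) (.e (nat_lit 573457) (nat_lit 9) (.e (nat_lit 16) (nat_lit 0) (.e (nat_lit 7936) (nat_lit 377) .nil))))))) (.g (nat_lit 6) .nil .nil))) 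
(.lf (nat_lit 49978) (.g (nat_lit 2486) (.e (nat_lit 1348) (nat_lit 102) (.e (nat_lit 286735) (nat_lit 3) (.e (nat_lit 98373) (nat_lit 29) (.e (nat_lit 450588) (nat_lit 10) (.e (nat_lit 573452) (nat_lit 9) (.e (nat_lit 50) (nat_lit 0) (.e (nat_lit 7936) (nat_lit 377) .nil))))))) (.g (nat_lit 6) .nil .nil)))))) (.nd (nat_lit 3) (.nd (nat_lit 4) (.nd (nat_lit 5) 
(.lf (nat_lit 49926) (.g (nat_lit 4045) (.e (nat_lit 1348) (nat_lit 102) (.e (nat_lit 286735) (nat_lit 3) (.e (nat_lit 98373) (nat_lit 29) (.e (nat_lit 450583) (nat_lit 7) (.e (nat_lit 548910) (nat_lit 17) (.e (nat_lit 171776) (nat_lit 176) .nil)))))) (.g (nat_lit 4) .nil .nil))) 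
(.lf (nat_lit 49958) (.g (nat_lit 2939) (.e (nat_lit 1348) (nat_lit 102) (.e (nat_lit 286735) (nat_lit 3) (.e (nat_lit 98373) (nat_lit 29) (.e (nat_lit 450587) (nat_lit 10) (.e (nat_lit 573477) (nat_lit 12) (.e (nat_lit 57565) (nat_lit 52) (.e (nat_lit 753666) (nat_lit 0) .nil))))))) (.g (nat_lit 7) .nil .nil)))) (.nd (nat_lit 5) 
(.lf (nat_lit 49942) (.g (nat_lit 2153) (.e (nat_lit 1348) (nat_lit 102) (.e (nat_lit 286735) (nat_lit 3) (.e (nat_lit 98373) (nat_lit 29) (.e (nat_lit 450587) (nat_lit 10) (.e (nat_lit 573457) (nat_lit 9) (.e (nat_lit 11) (nat_lit 0) (.e (nat_lit 7058) (nat_lit 377) .nil))))))) (.g (nat_lit 4) .nil .nil))) 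
(.lf (nat_lit 49974) (.g (nat_lit 1967) (.e (nat_lit 1348) (nat_lit 102) (.e (nat_lit 286735) (nat_lit 3) (.e (nat_lit 98373) (nat_lit 29) (.e (nat_lit 450588) (nat_lit 10) (.e (nat_lit 573452) (nat_lit 9) (.e (nat_lit 13) (nat_lit 0) (.e (nat_lit 7936) (nat_lit 377) .nil))))))) (.g (nat_lit 6) .nil .nil))))) (.nd (nat_lit 4) (.nd (nat_lit 5) 
(.lf (nat_lit 49934) (.g (nat_lit 3546) (.e (nat_lit 1348) (nat_lit 102) (.e (nat_lit 286735) (nat_lit 3) (.e (nat_lit 98373) (nat_lit 29) (.e (nat_lit 450587) (nat_lit 10) (.e (nat_lit 573454) (nat_lit 9) (.e (nat_lit 4) (nat_lit 0) (.e (nat_lit 7064) (nat_lit 377) .nil))))))) (.g (nat_lit 4) .nil .nil))) 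
(.lf (nat_lit 49966) (.g (nat_lit 2700) (.e (nat_lit 1348) (nat_lit 102) (.e (nat_lit 286735) (nat_lit 3) (.e (nat_lit 98373) (nat_lit 29) (.e (nat_lit 450588) (nat_lit 10) (.e (nat_lit 573449) (nat_lit 9) (.e (nat_lit 5) (nat_lit 0) (.e (nat_lit 7064) (nat_lit 377) .nil))))))) (.g (nat_lit 5) .nil .nil)))) (.nd (nat_lit 5) 
(.lf (nat_lit 49950) (.g (nat_lit 1843) (.e (nat_lit 1348) (nat_lit 102) (.e (nat_lit 286735) (nat_lit 3) (.e (nat_lit 98373) (nat_lit 29) (.e (nat_lit 450587) (nat_lit 10) (.e (nat_lit 573457) (nat_lit 9) (.e (nat_lit 59) (nat_lit 0) (.e (nat_lit 7936) (nat_lit 377) .nil))))))) (.g (nat_lit 6) .nil .nil))) 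
(.lf (nat_lit 49982) (.g (nat_lit 2251) (.e (nat_lit 1348) (nat_lit 102) (.e (nat_lit 286735) (nat_lit 3) (.e (nat_lit 98373) (nat_lit 29) (.e (nat_lit 450588) (nat_lit 10) (.e (nat_lit 573452) (nat_lit 9) (.e (nat_lit 62) (nat_lit 0) (.e (nat_lit 7936) (nat_lit 377) .nil))))))) (.g (nat_lit 6) .nil .nil)))))))) (.nd (nat_lit 1) (.nd (nat_lit 2) (.nd (nat_lit 3) (.nd (nat_lit 4) (.nd (nat_lit 5) 
(.lf (nat_lit 49921) (.g (nat_lit 3320) (.e (nat_lit 1348) (nat_lit 102) (.e (nat_lit 286735) (nat_lit 3) (.e (nat_lit 98373) (nat_lit 29) (.e (nat_lit 450581) (nat_lit 5) (.e (nat_lit 532493) (nat_lit 0) (.e (nat_lit 7936) (nat_lit 332) .nil)))))) (.g (nat_lit 4) .nil .nil))) 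
(.lf (nat_lit 49953) (.g (nat_lit 1652) (.e (nat_lit 1348) (nat_lit 102) (.e (nat_lit 286735) (nat_lit 3) (.e (nat_lit 98373) (nat_lit 29) (.e (nat_lit 450587) (nat_lit 10) (.e (nat_lit 573457) (nat_lit 9) (.e (nat_lit 67) (nat_lit 0) (.e (nat_lit 7936) (nat_lit 377) .nil))))))) (.g (nat_lit 6) .nil .nil)))) (.nd (nat_lit 5) 
(.lf (nat_lit 49937) (.g (nat_lit 2129) (.e (nat_lit 1348) (nat_lit 102) (.e (nat_lit 286735) (nat_lit 3) (.e (nat_lit 98373) (nat_lit 29) (.e (nat_lit 450587) (nat_lit 10) (.e (nat_lit 573456) (nat_lit 9) (.e (nat_lit 52) (nat_lit 0) (.e (nat_lit 7936) (nat_lit 377) .nil))))))) (.g (nat_lit 6) .nil .nil))) 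
(.lf (nat_lit 49969) (.g (nat_lit 2762) (.e (nat_lit 1348) (nat_lit 102) (.e (nat_lit 286735) (nat_lit 3) (.e (nat_lit 98373) (nat_lit 29) (.e (nat_lit 450588) (nat_lit 10) (.e (nat_lit 573452) (nat_lit 9) (.e (nat_lit 11) (nat_lit 0) (.e (nat_lit 6963) (nat_lit 377) .nil))))))) (.g (nat_lit 5) .nil .nil))))) (.nd (nat_lit 4) (.nd (nat_lit 5) 
(.lf (nat_lit 49929) (.g (nat_lit 4687) (.e (nat_lit 1348) (nat_lit 102) (.e (nat_lit 286735) (nat_lit 3) (.e (nat_lit 98373) (nat_lit 29) (.e (nat_lit 450586) (nat_lit 10) (.e (nat_lit 573468) (nat_lit 10) (.e (nat_lit 16128) (nat_lit 180) .nil)))))) (.g (nat_lit 5) .nil .nil))) 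
(.lf (nat_lit 49961) (.g (nat_lit 2574) (.e (nat_lit 1348) (nat_lit 102) (.e (nat_lit 286735) (nat_lit 3) (.e (nat_lit 98373) (nat_lit 29) (.e (nat_lit 450588) (nat_lit 10) (.e (nat_lit 581376) (nat_lit 1) (.e (nat_lit 8533) (nat_lit 225) .nil)))))) (.g (nat_lit 4) .nil .nil)))) (.nd (nat_lit 5) 
(.lf (nat_lit 49945) (.g (nat_lit 1444) (.e (nat_lit 1348) (nat_lit 102) (.e (nat_lit 286735) (nat_lit 3) (.e (nat_lit 98373) (nat_lit 29) (.e (nat_lit 450587) (nat_lit 10) (.e (nat_lit 573457) (nat_lit 9) (.e (nat_lit 13) (nat_lit 0) (.e (nat_lit 7936) (nat_lit 377) .nil))))))) (.g (nat_lit 6) .nil .nil))) 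
(.lf (nat_lit 49977) (.g (nat_lit 2732) (.e (nat_lit 1348) (nat_lit 102) (.e (nat_lit 286735) (nat_lit 3) (.e (nat_lit 98373) (nat_lit 29) (.e (nat_lit 450588) (nat_lit 10) (.e (nat_lit 573452) (nat_lit 9) (.e (nat_lit 34) (nat_lit 0) (.e (nat_lit 7936) (nat_lit 377) .nil))))))) (.g (nat_lit 6) .nil .nil)))))) (.nd (nat_lit 3) (.nd (nat_lit 4) (.nd (nat_lit 5) 
(.lf (nat_lit 49925) (.g (nat_lit 4261) (.e (nat_lit 1348) (nat_lit 102) (.e (nat_lit 286735) (nat_lit 3) (.e (nat_lit 98373) (nat_lit 29) (.e (nat_lit 450583) (nat_lit 7) (.e (nat_lit 548908) (nat_lit 17) .nil))))) .nil)) 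
(.lf (nat_lit 49957) (.g (nat_lit 6772) (.e (nat_lit 1348) (nat_lit 102) (.e (nat_lit 286735) (nat_lit 3) (.e (nat_lit 98373) (nat_lit 29) (.e (nat_lit 450587) (nat_lit 10) (.e (nat_lit 573468) (nat_lit 10) (.e (nat_lit 16128) (nat_lit 180) .nil)))))) (.g (nat_lit 5) .nil .nil)))) (.nd (nat_lit 5) 
(.lf (nat_lit 49941) (.g (nat_lit 1681) (.e (nat_lit 1348) (nat_lit 102) (.e (nat_lit 286735) (nat_lit 3) (.e (nat_lit 98373) (nat_lit 29) (.e (nat_lit 450587) (nat_lit 10) (.e (nat_lit 573457) (nat_lit 9) (.e (nat_lit 11) (nat_lit 0) (.e (nat_lit 6965) (nat_lit 377) .nil))))))) (.g (nat_lit 4) .nil .nil))) 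
(.lf (nat_lit 49973) (.g (nat_lit 2633) (.e (nat_lit 1348) (nat_lit 102) (.e (nat_lit 286735) (nat_lit 3) (.e (nat_lit 98373) (nat_lit 29) (.e (nat_lit 450588) (nat_lit 10) (.e (nat_lit 573452) (nat_lit 9) (.e (nat_lit 11) (nat_lit 0) (.e (nat_lit 7936) (nat_lit 377) .nil))))))) (.g (nat_lit 6) .nil .nil))))) (.nd (nat_lit 4) (.nd (nat_lit 5) 
(.lf (nat_lit 49933) (.g (nat_lit 3307) (.e (nat_lit 1348) (nat_lit 102) (.e (nat_lit 286735) (nat_lit 3) (.e (nat_lit 98373) (nat_lit 29) (.e (nat_lit 450587) (nat_lit 10) (.e (nat_lit 573454) (nat_lit 9) (.e (nat_lit 2) (nat_lit 0) (.e (nat_lit 7060) (nat_lit 377) .nil))))))) (.g (nat_lit 4) .nil .nil))) 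
(.lf (nat_lit 49965) (.g (nat_lit 2031) (.e (nat_lit 1348) (nat_lit 102) (.e (nat_lit 286735) (nat_lit 3) (.e (nat_lit 98373) (nat_lit 29) (.e (nat_lit 450588) (nat_lit 10) (.e (nat_lit 573449) (nat_lit 9) (.e (nat_lit 3) (nat_lit 0) (.e (nat_lit 7060) (nat_lit 377) .nil))))))) (.g (nat_lit 4) .nil .nil)))) (.nd (nat_lit 5) 
(.lf (nat_lit 49949) (.g (nat_lit 1603) (.e (nat_lit 1348) (nat_lit 102) (.e (nat_lit 286735) (nat_lit 3) (.e (nat_lit 98373) (nat_lit 29) (.e (nat_lit 450587) (nat_lit 10) (.e (nat_lit 573457) (nat_lit 9) (.e (nat_lit 52) (nat_lit 0) (.e (nat_lit 7936) (nat_lit 377) .nil))))))) (.g (nat_lit 6) .nil .nil))) 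
(.lf (nat_lit 49981) (.g (nat_lit 2551) (.e (nat_lit 1348) (nat_lit 102) (.e (nat_lit 286735) (nat_lit 3) (.e (nat_lit 98373) (nat_lit 29) (.e (nat_lit 450588) (nat_lit 10) (.e (nat_lit 573452) (nat_lit 9) (.e (nat_lit 61) (nat_lit 0) (.e (nat_lit 7936) (nat_lit 377) .nil))))))) (.g (nat_lit 6) .nil .nil))))))) (.nd (nat_lit 2) (.nd (nat_lit 3) (.nd (nat_lit 4) (.nd (nat_lit 5) 
(.lf (nat_lit 49923) (.g (nat_lit 3445) (.e (nat_lit 1348) (nat_lit 102) (.e (nat_lit 286735) (nat_lit 3) (.e (nat_lit 98373) (nat_lit 29) (.e (nat_lit 450581) (nat_lit 5) (.e (nat_lit 532497) (nat_lit 0) (.e (nat_lit 7936) (nat_lit 332) .nil)))))) (.g (nat_lit 4) .nil .nil))) 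
(.lf (nat_lit 49955) (.g (nat_lit 4015) (.e (nat_lit 1348) (nat_lit 102) (.e (nat_lit 286735) (nat_lit 3) (.e (nat_lit 98373) (nat_lit 29) (.e (nat_lit 450587) (nat_lit 10) (.e (nat_lit 573459) (nat_lit 9) (.e (nat_lit 65) (nat_lit 0) (.e (nat_lit 7936) (nat_lit 377) .nil))))))) (.g (nat_lit 4) .nil .nil)))) (.nd (nat_lit 5) 
(.lf (nat_lit 49939) (.g (nat_lit 1695) (.e (nat_lit 1348) (nat_lit 102) (.e (nat_lit 286735) (nat_lit 3) (.e (nat_lit 98373) (nat_lit 29) (.e (nat_lit 450587) (nat_lit 10) (.e (nat_lit 573456) (nat_lit 9) (.e (nat_lit 63) (nat_lit 0) (.e (nat_lit 7936) (nat_lit 377) .nil))))))) (.g (nat_lit 5) .nil .nil))) 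
(.lf (nat_lit 49971) (.g (nat_lit 3496) (.e (nat_lit 1348) (nat_lit 102) (.e (nat_lit 286735) (nat_lit 3) (.e (nat_lit 98373) (nat_lit 29) (.e (nat_lit 450588) (nat_lit 10) (.e (nat_lit 573452) (nat_lit 9) (.e (nat_lit 11) (nat_lit 0) (.e (nat_lit 7058) (nat_lit 377) .nil))))))) (.g (nat_lit 5) .nil .nil))))) (.nd (nat_lit 4) (.nd (nat_lit 5) 
(.lf (nat_lit 49931) (.g (nat_lit 2199) (.e (nat_lit 1348) (nat_lit 102) (.e (nat_lit 286735) (nat_lit 3) (.e (nat_lit 98373) (nat_lit 29) (.e (nat_lit 450587) (nat_lit 10) (.e (nat_lit 573448) (nat_lit 9) (.e (nat_lit 2) (nat_lit 0) (.e (nat_lit 7060) (nat_lit 377) .nil))))))) (.g (nat_lit 4) .nil .nil))) 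
(.lf (nat_lit 49963) (.g (nat_lit 2258) (.e (nat_lit 1348) (nat_lit 102) (.e (nat_lit 286735) (nat_lit 3) (.e (nat_lit 98373) (nat_lit 29) (.e (nat_lit 450588) (nat_lit 10) (.e (nat_lit 581376) (nat_lit 1) (.e (nat_lit 16128) (nat_lit 225) .nil)))))) (.g (nat_lit 4) .nil .nil)))) (.nd (nat_lit 5) 
(.lf (nat_lit 49947) (.g (nat_lit 2116) (.e (nat_lit 1348) (nat_lit 102) (.e (nat_lit 286735) (nat_lit 3) (.e (nat_lit 98373) (nat_lit 29) (.e (nat_lit 450587) (nat_lit 10) (.e (nat_lit 573457) (nat_lit 9) (.e (nat_lit 34) (nat_lit 0) (.e (nat_lit 7936) (nat_lit 377) .nil))))))) (.g (nat_lit 6) .nil .nil))) 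
(.lf (nat_lit 49979) (.g (nat_lit 2126) (.e (nat_lit 1348) (nat_lit 102) (.e (nat_lit 286735) (nat_lit 3) (.e (nat_lit 98373) (nat_lit 29) (.e (nat_lit 450588) (nat_lit 10) (.e (nat_lit 573452) (nat_lit 9) (.e (nat_lit 52) (nat_lit 0) (.e (nat_lit 7936) (nat_lit 377) .nil))))))) (.g (nat_lit 6) .nil .nil)))))) (.nd (nat_lit 3) (.nd (nat_lit 4) (.nd (nat_lit 5) 
(.lf (nat_lit 49927) (.g (nat_lit 4339) (.e (nat_lit 1348) (nat_lit 102) (.e (nat_lit 286735) (nat_lit 3) (.e (nat_lit 98373) (nat_lit 29) (.e (nat_lit 450583) (nat_lit 7) (.e (nat_lit 548916) (nat_lit 21) .nil))))) .nil)) 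
(.lf (nat_lit 49959) (.g (nat_lit 2490) (.e (nat_lit 1348) (nat_lit 102) (.e (nat_lit 286735) (nat_lit 3) (.e (nat_lit 98373) (nat_lit 29) (.e (nat_lit 450587) (nat_lit 10) (.e (nat_lit 573478) (nat_lit 12) (.e (nat_lit 57565) (nat_lit 52) (.e (nat_lit 753666) (nat_lit 0) .nil))))))) (.g (nat_lit 5) .nil .nil)))) (.nd (nat_lit 5) 
(.lf (nat_lit 49943) (.g (nat_lit 2137) (.e (nat_lit 1348) (nat_lit 102) (.e (nat_lit 286735) (nat_lit 3) (.e (nat_lit 98373) (nat_lit 29) (.e (nat_lit 450587) (nat_lit 10) (.e (nat_lit 573457) (nat_lit 9) (.e (nat_lit 11) (nat_lit 0) (.e (nat_lit 7061) (nat_lit 377) .nil))))))) (.g (nat_lit 5) .nil .nil))) 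
(.lf (nat_lit 49975) (.g (nat_lit 1972) (.e (nat_lit 1348) (nat_lit 102) (.e (nat_lit 286735) (nat_lit 3) (.e (nat_lit 98373) (nat_lit 29) (.e (nat_lit 450588) (nat_lit 10) (.e (nat_lit 573452) (nat_lit 9) (.e (nat_lit 16) (nat_lit 0) (.e (nat_lit 7936) (nat_lit 377) .nil))))))) (.g (nat_lit 6) .nil .nil))))) (.nd (nat_lit 4) (.nd (nat_lit 5) 
(.lf (nat_lit 49935) (.g (nat_lit 2524) (.e (nat_lit 1348) (nat_lit 102) (.e (nat_lit 286735) (nat_lit 3) (.e (nat_lit 98373) (nat_lit 29) (.e (nat_lit 450587) (nat_lit 10) (.e (nat_lit 573456) (nat_lit 9) (.e (nat_lit 34) (nat_lit 0) (.e (nat_lit 7936) (nat_lit 377) .nil))))))) (.g (nat_lit 6) .nil .nil))) 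
(.lf (nat_lit 49967) (.g (nat_lit 2520) (.e (nat_lit 1348) (nat_lit 102) (.e (nat_lit 286735) (nat_lit 3) (.e (nat_lit 98373) (nat_lit 29) (.e (nat_lit 450588) (nat_lit 10) (.e (nat_lit 573449) (nat_lit 9) (.e (nat_lit 21) (nat_lit 0) (.e (nat_lit 7060) (nat_lit 377) .nil))))))) (.g (nat_lit 4) .nil .nil)))) (.nd (nat_lit 5) 
(.lf (nat_lit 49951) (.g (nat_lit 1630) (.e (nat_lit 1348) (nat_lit 102) (.e (nat_lit 286735) (nat_lit 3) (.e (nat_lit 98373) (nat_lit 29) (.e (nat_lit 450587) (nat_lit 10) (.e (nat_lit 573457) (nat_lit 9) (.e (nat_lit 62) (nat_lit 0) (.e (nat_lit 7936) (nat_lit 377) .nil))))))) (.g (nat_lit 6) .nil .nil))) 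
(.lf (nat_lit 49983) (.g (nat_lit 2443) (.e (nat_lit 1348) (nat_lit 102) (.e (nat_lit 286735) (nat_lit 3) (.e (nat_lit 98373) (nat_lit 29) (.e (nat_lit 450588) (nat_lit 10) (.e (nat_lit 573452) (nat_lit 9) (.e (nat_lit 63) (nat_lit 0) (.e (nat_lit 7936) (nat_lit 377) .nil))))))) (.g (nat_lit 6) .nil .nil)))))))))

noncomputable def tv695 : DT := (.nd (nat_lit 0) (.nd (nat_lit 1) (.nd (nat_lit 2) (.nd (nat_lit 3) (.nd (nat_lit 4) (.nd (nat_lit 5) 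
(.lf (nat_lit 49984) (.g (nat_lit 2581) (.e (nat_lit 1348) (nat_lit 102) (.e (nat_lit 286735) (nat_lit 3) (.e (nat_lit 98373) (nat_lit 29) (.e (nat_lit 450588) (nat_lit 10) (.e (nat_lit 573452) (nat_lit 9) (.e (nat_lit 66) (nat_lit 0) (.e (nat_lit 7936) (nat_lit 377) .nil))))))) (.g (nat_lit 6) .nil .nil))) 
(.lf (nat_lit 50016) (.g (nat_lit 2213) (.e (nat_lit 1348) (nat_lit 102) (.e (nat_lit 286743) (nat_lit 9) (.e (nat_lit 336316) (nat_lit 17) (.e (nat_lit 204544) (nat_lit 6) (.e (nat_lit 188461) (nat_lit 26) (.e (nat_lit 261888) (nat_lit 14) .nil)))))) (.g (nat_lit 5) .nil .nil)))) (.nd (nat_lit 5) 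
(.lf (nat_lit 50000) (.g (nat_lit 3257) (.e (nat_lit 1348) (nat_lit 102) (.e (nat_lit 286735) (nat_lit 3) (.e (nat_lit 98374) (nat_lit 29) (.e (nat_lit 450580) (nat_lit 5) (.e (nat_lit 532482) (nat_lit 0) (.e (nat_lit 6192) (nat_lit 332) .nil)))))) (.g (nat_lit 5) .nil .nil))) 
(.lf (nat_lit 50032) (.g (nat_lit 3679) (.e (nat_lit 1348) (nat_lit 102) (.e (nat_lit 286747) (nat_lit 9) (.e (nat_lit 336013) (nat_lit 2) (.e (nat_lit 90170) (nat_lit 13) (.e (nat_lit 172059) (nat_lit 1) (.e (nat_lit 164327) (nat_lit 230) (.e (nat_lit 163871) (nat_lit 2) (.e (nat_lit 196691) (nat_lit 18) .nil)))))))) (.g (nat_lit 4) .nil .nil))))) (.nd (nat_lit 4) (.nd (nat_lit 5) 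
(.lf (nat_lit 49992) (.g (nat_lit 3446) (.e (nat_lit 1348) (nat_lit 102) (.e (nat_lit 286735) (nat_lit 3) (.e (nat_lit 98373) (nat_lit 29) (.e (nat_lit 450588) (nat_lit 10) (.e (nat_lit 573475) (nat_lit 12) (.e (nat_lit 57566) (nat_lit 52) (.e (nat_lit 753666) (nat_lit 0) .nil))))))) (.g (nat_lit 5) .nil .nil))) 
(.lf (nat_lit 50024) (.g (nat_lit 1678) (.e (nat_lit 1348) (nat_lit 102) (.e (nat_lit 286743) (nat_lit 9) (.e (nat_lit 336422) (nat_lit 28) (.e (nat_lit 434180) (nat_lit 0) (.e (nat_lit 1638) (nat_lit 114) (.e (nat_lit 392960) (nat_lit 16) .nil)))))) (.g (nat_lit 4) .nil .nil)))) (.nd (nat_lit 5) 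
(.lf (nat_lit 50008) (.g (nat_lit 1065) (.e (nat_lit 1348) (nat_lit 102) (.e (nat_lit 286735) (nat_lit 3) (.e (nat_lit 98381) (nat_lit 31) (.e (nat_lit 466977) (nat_lit 22) .nil)))) .nil)) 
(.lf (nat_lit 50040) (.g (nat_lit 1162) (.e (nat_lit 1348) (nat_lit 102) (.e (nat_lit 286748) (nat_lit 9) (.e (nat_lit 336046) (nat_lit 6) (.e (nat_lit 147492) (nat_lit 11) (.e (nat_lit 24650) (nat_lit 12) (.e (nat_lit 392960) (nat_lit 16) .nil)))))) (.g (nat_lit 5) .nil .nil)))))) (.nd (nat_lit 3) (.nd (nat_lit 4) (.nd (nat_lit 5) 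
(.lf (nat_lit 49988) (.g (nat_lit 2939) (.e (nat_lit 1348) (nat_lit 102) (.e (nat_lit 286735) (nat_lit 3) (.e (nat_lit 98373) (nat_lit 29) (.e (nat_lit 450588) (nat_lit 10) (.e (nat_lit 573467) (nat_lit 10) (.e (nat_lit 16128) (nat_lit 180) .nil)))))) (.g (nat_lit 5) .nil .nil))) 
(.lf (nat_lit 50020) (.g (nat_lit 3375) (.e (nat_lit 1348) (nat_lit 102) (.e (nat_lit 286743) (nat_lit 9) (.e (nat_lit 336414) (nat_lit 27) (.e (nat_lit 426347) (nat_lit 14) (.e (nat_lit 491566) (nat_lit 12) (.e (nat_lit 392960) (nat_lit 16) .nil)))))) (.g (nat_lit 5) .nil .nil)))) (.nd (nat_lit 5) 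
(.lf (nat_lit 50004) (.g (nat_lit 1493) (.e (nat_lit 1348) (nat_lit 102) (.e (nat_lit 286735) (nat_lit 3) (.e (nat_lit 98380) (nat_lit 31) (.e (nat_lit 466974) (nat_lit 22) .nil)))) .nil)) 
(.lf (nat_lit 50036) (.g (nat_lit 4086) (.e (nat_lit 1348) (nat_lit 102) (.e (nat_lit 286747) (nat_lit 9) (.e (nat_lit 336013) (nat_lit 2) (.e (nat_lit 90170) (nat_lit 13) (.e (nat_lit 172061) (nat_lit 1) (.e (nat_lit 164327) (nat_lit 230) (.e (nat_lit 163868) (nat_lit 2) (.e (nat_lit 196691) (nat_lit 18) .nil)))))))) (.g (nat_lit 4) .nil .nil))))) (.nd (nat_lit 4) (.nd (nat_lit 5) 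
(.lf (nat_lit 49996) (.g (nat_lit 3139) (.e (nat_lit 1348) (nat_lit 102) (.e (nat_lit 286735) (nat_lit 3) (.e (nat_lit 98374) (nat_lit 29) (.e (nat_lit 458496) (nat_lit 1) (.e (nat_lit 500056) (nat_lit 17) (.e (nat_lit 65280) (nat_lit 176) .nil)))))) (.g (nat_lit 5) .nil .nil))) 
(.lf (nat_lit 50028) (.g (nat_lit 3646) (.e (nat_lit 1348) (nat_lit 102) (.e (nat_lit 286747) (nat_lit 9) (.e (nat_lit 336013) (nat_lit 2) (.e (nat_lit 90134) (nat_lit 9) (.e (nat_lit 2978) (nat_lit 185) .nil))))) .nil))) (.nd (nat_lit 5) 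
(.lf (nat_lit 50012) (.g (nat_lit 2601) (.e (nat_lit 1348) (nat_lit 102) (.e (nat_lit 286735) (nat_lit 3) (.e (nat_lit 98382) (nat_lit 31) (.e (nat_lit 466974) (nat_lit 22) (.e (nat_lit 196661) (nat_lit 12) (.e (nat_lit 57714) (nat_lit 176) .nil)))))) (.g (nat_lit 4) .nil .nil))) 
(.lf (nat_lit 50044) (.g (nat_lit 2449) (.e (nat_lit 1348) (nat_lit 102) (.e (nat_lit 286748) (nat_lit 9) (.e (nat_lit 336295) (nat_lit 15) (.e (nat_lit 7936) (nat_lit 195) (.e (nat_lit 516151) (nat_lit 9) (.e (nat_lit 426285) (nat_lit 10) (.e (nat_lit 434292) (nat_lit 44) (.e (nat_lit 704818) (nat_lit 14) .nil)))))))) (.g (nat_lit 6) .nil .nil))))))) 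
(.nd (nat_lit 2) (.nd (nat_lit 3) (.nd (nat_lit 4) (.nd (nat_lit 5) 
(.lf (nat_lit 49986) (.g (nat_lit 3997) (.e (nat_lit 1348) (nat_lit 102) (.e (nat_lit 286735) (nat_lit 3) (.e (nat_lit 98373) (nat_lit 29) (.e (nat_lit 450588) (nat_lit 10) (.e (nat_lit 573458) (nat_lit 9) (.e (nat_lit 48) (nat_lit 0) (.e (nat_lit 7936) (nat_lit 377) .nil))))))) (.g (nat_lit 5) .nil .nil))) 
(.lf (nat_lit 50018) (.g (nat_lit 2689) (.e (nat_lit 1348) (nat_lit 102) (.e (nat_lit 286743) (nat_lit 9) (.e (nat_lit 336366) (nat_lit 27) (.e (nat_lit 426340) (nat_lit 14) (.e (nat_lit 491566) (nat_lit 12) (.e (nat_lit 392960) (nat_lit 16) .nil)))))) (.g (nat_lit 5) .nil .nil)))) (.nd (nat_lit 5) 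
(.lf (nat_lit 50002) (.g (nat_lit 3935) (.e (nat_lit 1348) (nat_lit 102) (.e (nat_lit 286735) (nat_lit 3) (.e (nat_lit 98374) (nat_lit 29) (.e (nat_lit 450586) (nat_lit 10) (.e (nat_lit 573468) (nat_lit 10) (.e (nat_lit 16128) (nat_lit 180) .nil)))))) (.g (nat_lit 5) .nil .nil))) 
(.lf (nat_lit 50034) (.g (nat_lit 3842) (.e (nat_lit 1348) (nat_lit 102) (.e (nat_lit 286747) (nat_lit 9) (.e (nat_lit 336013) (nat_lit 2) (.e (nat_lit 90170) (nat_lit 13) (.e (nat_lit 172061) (nat_lit 1) (.e (nat_lit 164326) (nat_lit 230) (.e (nat_lit 163868) (nat_lit 2) (.e (nat_lit 196691) (nat_lit 18) .nil)))))))) (.g (nat_lit 4) .nil .nil))))) (.nd (nat_lit 4) (.nd (nat_lit 5) 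
(.lf (nat_lit 49994) (.g (nat_lit 3339) (.e (nat_lit 1348) (nat_lit 102) (.e (nat_lit 286735) (nat_lit 3) (.e (nat_lit 98373) (nat_lit 29) (.e (nat_lit 450589) (nat_lit 11) .nil)))) .nil)) 
(.lf (nat_lit 50026) (.g (nat_lit 2892) (.e (nat_lit 1348) (nat_lit 102) (.e (nat_lit 286743) (nat_lit 9) (.e (nat_lit 336423) (nat_lit 28) (.e (nat_lit 434181) (nat_lit 0) (.e (nat_lit 1638) (nat_lit 114) (.e (nat_lit 392960) (nat_lit 16) .nil)))))) (.g (nat_lit 5) .nil .nil)))) (.nd (nat_lit 5) 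
(.lf (nat_lit 50010) (.g (nat_lit 2677) (.e (nat_lit 1348) (nat_lit 102) (.e (nat_lit 286735) (nat_lit 3) (.e (nat_lit 98382) (nat_lit 31) (.e (nat_lit 466974) (nat_lit 22) (.e (nat_lit 196661) (nat_lit 12) (.e (nat_lit 57711) (nat_lit 176) .nil)))))) (.g (nat_lit 4) .nil .nil))) 
(.lf (nat_lit 50042) (.g (nat_lit 1304) (.e (nat_lit 1348) (nat_lit 102) (.e (nat_lit 286748) (nat_lit 9) (.e (nat_lit 336295) (nat_lit 15) (.e (nat_lit 2505) (nat_lit 157) .nil)))) .nil))))) (.nd (nat_lit 3) (.nd (nat_lit 4) (.nd (nat_lit 5) 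
(.lf (nat_lit 49990) (.g (nat_lit 3702) (.e (nat_lit 1348) (nat_lit 102) (.e (nat_lit 286735) (nat_lit 3) (.e (nat_lit 98373) (nat_lit 29) (.e (nat_lit 450588) (nat_lit 10) (.e (nat_lit 573473) (nat_lit 12) (.e (nat_lit 57566) (nat_lit 52) (.e (nat_lit 753666) (nat_lit 0) .nil))))))) (.g (nat_lit 7) .nil .nil))) 
(.lf (nat_lit 50022) (.g (nat_lit 3005) (.e (nat_lit 1348) (nat_lit 102) (.e (nat_lit 286743) (nat_lit 9) (.e (nat_lit 336421) (nat_lit 28) (.e (nat_lit 434180) (nat_lit 0) (.e (nat_lit 1638) (nat_lit 114) (.e (nat_lit 392960) (nat_lit 16) .nil)))))) (.g (nat_lit 5) .nil .nil)))) (.nd (nat_lit 5) 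
(.lf (nat_lit 50006) (.g (nat_lit 2704) (.e (nat_lit 1348) (nat_lit 102) (.e (nat_lit 286735) (nat_lit 3) (.e (nat_lit 98380) (nat_lit 31) (.e (nat_lit 466977) (nat_lit 22) (.e (nat_lit 196677) (nat_lit 16) (.e (nat_lit 130816) (nat_lit 176) .nil)))))) (.g (nat_lit 4) .nil .nil))) 
(.lf (nat_lit 50038) (.g (nat_lit 3242) (.e (nat_lit 1348) (nat_lit 102) (.e (nat_lit 286748) (nat_lit 9) (.e (nat_lit 336028) (nat_lit 3) (.e (nat_lit 98367) (nat_lit 27) (.e (nat_lit 434275) (nat_lit 39) (.e (nat_lit 663584) (nat_lit 12) (.e (nat_lit 163976) (nat_lit 30) (.e (nat_lit 573503) (nat_lit 18) .nil)))))))) (.g (nat_lit 4) .nil .nil))))) (.nd (nat_lit 4) (.nd (nat_lit 5) 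
(.lf (nat_lit 49998) (.g (nat_lit 3134) (.e (nat_lit 1348) (nat_lit 102) (.e (nat_lit 286735) (nat_lit 3) (.e (nat_lit 98374) (nat_lit 29) (.e (nat_lit 450580) (nat_lit 5) (.e (nat_lit 532481) (nat_lit 0) (.e (nat_lit 6192) (nat_lit 332) .nil)))))) (.g (nat_lit 4) .nil .nil))) 
(.lf (nat_lit 50030) (.g (nat_lit 3799) (.e (nat_lit 1348) (nat_lit 102) (.e (nat_lit 286747) (nat_lit 9) (.e (nat_lit 336013) (nat_lit 2) (.e (nat_lit 90170) (nat_lit 13) (.e (nat_lit 172059) (nat_lit 1) (.e (nat_lit 164326) (nat_lit 230) (.e (nat_lit 163871) (nat_lit 2) (.e (nat_lit 196691) (nat_lit 18) .nil)))))))) (.g (nat_lit 4) .nil .nil)))) (.nd (nat_lit 5) 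
(.lf (nat_lit 50014) (.g (nat_lit 3568) (.e (nat_lit 1348) (nat_lit 102) (.e (nat_lit 286735) (nat_lit 3) (.e (nat_lit 98382) (nat_lit 31) (.e (nat_lit 466977) (nat_lit 22) (.e (nat_lit 196677) (nat_lit 16) (.e (nat_lit 130816) (nat_lit 176) .nil)))))) (.g (nat_lit 5) .nil .nil))) 
(.lf (nat_lit 50046) (.g (nat_lit 4427) (.e (nat_lit 1348) (nat_lit 102) (.e (nat_lit 286748) (nat_lit 9) (.e (nat_lit 336295) (nat_lit 15) (.e (nat_lit 3295) (nat_lit 202) (.e (nat_lit 573493) (nat_lit 15) (.e (nat_lit 81953) (nat_lit 22) (.e (nat_lit 98048) (nat_lit 18) .nil))))))) (.g (nat_lit 6) .nil .nil)))))))) 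
(.nd (nat_lit 1) (.nd (nat_lit 2) (.nd (nat_lit 3) (.nd (nat_lit 4) (.nd (nat_lit 5) 
(.lf (nat_lit 49985) (.g (nat_lit 2327) (.e (nat_lit 1348) (nat_lit 102) (.e (nat_lit 286735) (nat_lit 3) (.e (nat_lit 98373) (nat_lit 29) (.e (nat_lit 450588) (nat_lit 10) (.e (nat_lit 573452) (nat_lit 9) (.e (nat_lit 67) (nat_lit 0) (.e (nat_lit 7936) (nat_lit 377) .nil))))))) (.g (nat_lit 6) .nil .nil))) 
(.lf (nat_lit 50017) (.g (nat_lit 1516) (.e (nat_lit 1348) (nat_lit 102) (.e (nat_lit 286743) (nat_lit 9) (.e (nat_lit 336365) (nat_lit 26) (.e (nat_lit 417812) (nat_lit 7) (.e (nat_lit 294955) (nat_lit 12) (.e (nat_lit 392960) (nat_lit 16) .nil)))))) (.g (nat_lit 5) .nil .nil)))) (.nd (nat_lit 5) 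
(.lf (nat_lit 50001) (.g (nat_lit 2898) (.e (nat_lit 1348) (nat_lit 102) (.e (nat_lit 286735) (nat_lit 3) (.e (nat_lit 98374) (nat_lit 29) (.e (nat_lit 450580) (nat_lit 5) (.e (nat_lit 532490) (nat_lit 0) (.e (nat_lit 7936) (nat_lit 332) .nil)))))) (.g (nat_lit 4) .nil .nil))) 
(.lf (nat_lit 50033) (.g (nat_lit 3622) (.e (nat_lit 1348) (nat_lit 102) (.e (nat_lit 286747) (nat_lit 9) (.e (nat_lit 336013) (nat_lit 2) (.e (nat_lit 90170) (nat_lit 13) (.e (nat_lit 172061) (nat_lit 1) .nil))))) .nil)))) (.nd (nat_lit 4) (.nd (nat_lit 5) 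
(.lf (nat_lit 49993) (.g (nat_lit 3228) (.e (nat_lit 1348) (nat_lit 102) (.e (nat_lit 286735) (nat_lit 3) (.e (nat_lit 98373) (nat_lit 29) (.e (nat_lit 450588) (nat_lit 10) (.e (nat_lit 573475) (nat_lit 12) (.e (nat_lit 57567) (nat_lit 52) (.e (nat_lit 753666) (nat_lit 0) .nil))))))) (.g (nat_lit 5) .nil .nil))) 
(.lf (nat_lit 50025) (.g (nat_lit 3071) (.e (nat_lit 1348) (nat_lit 102) (.e (nat_lit 286743) (nat_lit 9) (.e (nat_lit 336423) (nat_lit 28) (.e (nat_lit 434180) (nat_lit 0) (.e (nat_lit 1638) (nat_lit 114) (.e (nat_lit 392960) (nat_lit 16) .nil)))))) (.g (nat_lit 5) .nil .nil)))) (.nd (nat_lit 5) 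
(.lf (nat_lit 50009) (.g (nat_lit 3275) (.e (nat_lit 1348) (nat_lit 102) (.e (nat_lit 286735) (nat_lit 3) (.e (nat_lit 98381) (nat_lit 31) (.e (nat_lit 466977) (nat_lit 22) (.e (nat_lit 196677) (nat_lit 16) (.e (nat_lit 130816) (nat_lit 176) .nil)))))) (.g (nat_lit 5) .nil .nil))) 
(.lf (nat_lit 50041) (.g (nat_lit 1883) (.e (nat_lit 1348) (nat_lit 102) (.e (nat_lit 286748) (nat_lit 9) (.e (nat_lit 336046) (nat_lit 6) (.e (nat_lit 147496) (nat_lit 11) (.e (nat_lit 24648) (nat_lit 12) (.e (nat_lit 392960) (nat_lit 16) .nil)))))) (.g (nat_lit 5) .nil .nil)))))) (.nd (nat_lit 3) (.nd (nat_lit 4) (.nd (nat_lit 5) 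
(.lf (nat_lit 49989) (.g (nat_lit 8018) (.e (nat_lit 1348) (nat_lit 102) (.e (nat_lit 286735) (nat_lit 3) (.e (nat_lit 98373) (nat_lit 29) (.e (nat_lit 450588) (nat_lit 10) (.e (nat_lit 573468) (nat_lit 10) (.e (nat_lit 16128) (nat_lit 180) .nil)))))) (.g (nat_lit 5) .nil .nil))) 
(.lf (nat_lit 50021) (.g (nat_lit 1959) (.e (nat_lit 1348) (nat_lit 102) (.e (nat_lit 286743) (nat_lit 9) (.e (nat_lit 343808) (nat_lit 27) (.e (nat_lit 426340) (nat_lit 14) (.e (nat_lit 491566) (nat_lit 12) (.e (nat_lit 392960) (nat_lit 16) .nil)))))) (.g (nat_lit 5) .nil .nil)))) (.nd (nat_lit 5) 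
(.lf (nat_lit 50005) (.g (nat_lit 1491) (.e (nat_lit 1348) (nat_lit 102) (.e (nat_lit 286735) (nat_lit 3) (.e (nat_lit 98380) (nat_lit 31) (.e (nat_lit 466977) (nat_lit 22) .nil)))) .nil)) 
(.lf (nat_lit 50037) (.g (nat_lit 2105) (.e (nat_lit 1348) (nat_lit 102) (.e (nat_lit 286748) (nat_lit 9) (.e (nat_lit 335891) (nat_lit 0) (.e (nat_lit 2362) (nat_lit 153) (.e (nat_lit 794637) (nat_lit 11) (.e (nat_lit 336196) (nat_lit 12) (.e (nat_lit 392960) (nat_lit 16) .nil))))))) (.g (nat_lit 6) .nil .nil))))) (.nd (nat_lit 4) (.nd (nat_lit 5) 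
(.lf (nat_lit 49997) (.g (nat_lit 1185) (.e (nat_lit 1348) (nat_lit 102) (.e (nat_lit 286735) (nat_lit 3) (.e (nat_lit 98374) (nat_lit 29) (.e (nat_lit 450580) (nat_lit 5) .nil)))) .nil)) 
(.lf (nat_lit 50029) (.g (nat_lit 3762) (.e (nat_lit 1348) (nat_lit 102) (.e (nat_lit 286747) (nat_lit 9) (.e (nat_lit 336013) (nat_lit 2) (.e (nat_lit 90170) (nat_lit 13) (.e (nat_lit 172059) (nat_lit 1) (.e (nat_lit 164326) (nat_lit 230) (.e (nat_lit 163868) (nat_lit 2) (.e (nat_lit 196691) (nat_lit 18) .nil)))))))) (.g (nat_lit 4) .nil .nil)))) (.nd (nat_lit 5) 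
(.lf (nat_lit 50013) (.g (nat_lit 2829) (.e (nat_lit 1348) (nat_lit 102) (.e (nat_lit 286735) (nat_lit 3) (.e (nat_lit 98382) (nat_lit 31) (.e (nat_lit 466974) (nat_lit 22) (.e (nat_lit 196677) (nat_lit 16) (.e (nat_lit 130816) (nat_lit 176) .nil)))))) (.g (nat_lit 5) .nil .nil))) 
(.lf (nat_lit 50045) (.g (nat_lit 5104) (.e (nat_lit 1348) (nat_lit 102) (.e (nat_lit 286748) (nat_lit 9) (.e (nat_lit 336295) (nat_lit 15) (.e (nat_lit 3295) (nat_lit 202) (.e (nat_lit 573492) (nat_lit 15) (.e (nat_lit 81953) (nat_lit 22) (.e (nat_lit 98048) (nat_lit 18) .nil))))))) (.g (nat_lit 6) .nil .nil))))))) (.nd (nat_lit 2) (.nd (nat_lit 3) (.nd (nat_lit 4) (.nd (nat_lit 5) 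
(.lf (nat_lit 49987) (.g (nat_lit 3923) (.e (nat_lit 1348) (nat_lit 102) (.e (nat_lit 286735) (nat_lit 3) (.e (nat_lit 98373) (nat_lit 29) (.e (nat_lit 450588) (nat_lit 10) (.e (nat_lit 573466) (nat_lit 10) (.e (nat_lit 16128) (nat_lit 180) .nil)))))) (.g (nat_lit 5) .nil .nil))) 
(.lf (nat_lit 50019) (.g (nat_lit 2431) (.e (nat_lit 1348) (nat_lit 102) (.e (nat_lit 286743) (nat_lit 9) (.e (nat_lit 336370) (nat_lit 27) (.e (nat_lit 426340) (nat_lit 14) (.e (nat_lit 491566) (nat_lit 12) (.e (nat_lit 392960) (nat_lit 16) .nil)))))) (.g (nat_lit 5) .nil .nil)))) (.nd (nat_lit 5) 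
(.lf (nat_lit 50003) (.g (nat_lit 1327) (.e (nat_lit 1348) (nat_lit 102) (.e (nat_lit 286735) (nat_lit 3) (.e (nat_lit 98379) (nat_lit 31) (.e (nat_lit 466976) (nat_lit 22) .nil)))) .nil)) 
(.lf (nat_lit 50035) (.g (nat_lit 3875) (.e (nat_lit 1348) (nat_lit 102) (.e (nat_lit 286747) (nat_lit 9) (.e (nat_lit 336013) (nat_lit 2) (.e (nat_lit 90170) (nat_lit 13) (.e (nat_lit 172061) (nat_lit 1) (.e (nat_lit 164326) (nat_lit 230) (.e (nat_lit 163871) (nat_lit 2) (.e (nat_lit 196691) (nat_lit 18) .nil)))))))) (.g (nat_lit 4) .nil .nil))))) (.nd (nat_lit 4) (.nd (nat_lit 5) 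
(.lf (nat_lit 49995) (.g (nat_lit 371) (.e (nat_lit 1348) (nat_lit 102) (.e (nat_lit 286735) (nat_lit 3) (.e (nat_lit 98374) (nat_lit 29) .nil))) .nil)) 
(.lf (nat_lit 50027) (.g (nat_lit 2620) (.e (nat_lit 1348) (nat_lit 102) (.e (nat_lit 286743) (nat_lit 9) (.e (nat_lit 336424) (nat_lit 28) (.e (nat_lit 434180) (nat_lit 0) (.e (nat_lit 1638) (nat_lit 114) (.e (nat_lit 392960) (nat_lit 16) .nil)))))) (.g (nat_lit 5) .nil .nil)))) (.nd (nat_lit 5) 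
(.lf (nat_lit 50011) (.g (nat_lit 2556) (.e (nat_lit 1348) (nat_lit 102) (.e (nat_lit 286735) (nat_lit 3) (.e (nat_lit 98382) (nat_lit 31) (.e (nat_lit 466974) (nat_lit 22) (.e (nat_lit 196661) (nat_lit 12) (.e (nat_lit 57713) (nat_lit 176) .nil)))))) (.g (nat_lit 4) .nil .nil))) 
(.lf (nat_lit 50043) (.g (nat_lit 2382) (.e (nat_lit 1348) (nat_lit 102) (.e (nat_lit 286748) (nat_lit 9) (.e (nat_lit 336295) (nat_lit 15) (.e (nat_lit 7936) (nat_lit 195) (.e (nat_lit 516151) (nat_lit 9) (.e (nat_lit 426211) (nat_lit 9) (.e (nat_lit 426025) (nat_lit 0) (.e (nat_lit 3480) (nat_lit 218) (.e (nat_lit 704826) (nat_lit 14) .nil))))))))) (.g (nat_lit 6) .nil .nil)))))) 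
(.nd (nat_lit 3) (.nd (nat_lit 4) (.nd (nat_lit 5) 
(.lf (nat_lit 49991) (.g (nat_lit 2190) (.e (nat_lit 1348) (nat_lit 102) (.e (nat_lit 286735) (nat_lit 3) (.e (nat_lit 98373) (nat_lit 29) (.e (nat_lit 450588) (nat_lit 10) (.e (nat_lit 573475) (nat_lit 12) (.e (nat_lit 57565) (nat_lit 52) (.e (nat_lit 753666) (nat_lit 0) .nil))))))) (.g (nat_lit 4) .nil .nil))) 
(.lf (nat_lit 50023) (.g (nat_lit 2851) (.e (nat_lit 1348) (nat_lit 102) (.e (nat_lit 286743) (nat_lit 9) (.e (nat_lit 336421) (nat_lit 28) (.e (nat_lit 434181) (nat_lit 0) (.e (nat_lit 1638) (nat_lit 114) (.e (nat_lit 392960) (nat_lit 16) .nil)))))) (.g (nat_lit 5) .nil .nil)))) (.nd (nat_lit 5) 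
(.lf (nat_lit 50007) (.g (nat_lit 1105) (.e (nat_lit 1348) (nat_lit 102) (.e (nat_lit 286735) (nat_lit 3) (.e (nat_lit 98381) (nat_lit 31) (.e (nat_lit 466976) (nat_lit 22) .nil)))) .nil)) 
(.lf (nat_lit 50039) (.g (nat_lit 3926) (.e (nat_lit 1348) (nat_lit 102) (.e (nat_lit 286748) (nat_lit 9) (.e (nat_lit 336028) (nat_lit 3) (.e (nat_lit 98367) (nat_lit 27) (.e (nat_lit 434275) (nat_lit 39) (.e (nat_lit 663584) (nat_lit 12) (.e (nat_lit 163979) (nat_lit 30) (.e (nat_lit 573503) (nat_lit 18) .nil)))))))) (.g (nat_lit 5) .nil .nil))))) (.nd (nat_lit 4) (.nd (nat_lit 5) 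
(.lf (nat_lit 49999) (.g (nat_lit 3111) (.e (nat_lit 1348) (nat_lit 102) (.e (nat_lit 286735) (nat_lit 3) (.e (nat_lit 98374) (nat_lit 29) (.e (nat_lit 450580) (nat_lit 5) (.e (nat_lit 532481) (nat_lit 0) (.e (nat_lit 7936) (nat_lit 332) .nil)))))) (.g (nat_lit 5) .nil .nil))) 
(.lf (nat_lit 50031) (.g (nat_lit 4338) (.e (nat_lit 1348) (nat_lit 102) (.e (nat_lit 286747) (nat_lit 9) (.e (nat_lit 336013) (nat_lit 2) (.e (nat_lit 90170) (nat_lit 13) (.e (nat_lit 172059) (nat_lit 1) (.e (nat_lit 164327) (nat_lit 230) (.e (nat_lit 163868) (nat_lit 2) (.e (nat_lit 196691) (nat_lit 18) .nil)))))))) (.g (nat_lit 4) .nil .nil)))) (.nd (nat_lit 5) 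
(.lf (nat_lit 50015) (.g (nat_lit 2212) (.e (nat_lit 1348) (nat_lit 102) (.e (nat_lit 286743) (nat_lit 9) (.e (nat_lit 336316) (nat_lit 17) (.e (nat_lit 204544) (nat_lit 6) (.e (nat_lit 188459) (nat_lit 26) (.e (nat_lit 261888) (nat_lit 14) .nil)))))) (.g (nat_lit 5) .nil .nil))) 
(.lf (nat_lit 50047) (.g (nat_lit 4285) (.e (nat_lit 1348) (nat_lit 102) (.e (nat_lit 286748) (nat_lit 9) (.e (nat_lit 336295) (nat_lit 15) (.e (nat_lit 3304) (nat_lit 202) (.e (nat_lit 573493) (nat_lit 15) (.e (nat_lit 81953) (nat_lit 22) (.e (nat_lit 98048) (nat_lit 18) .nil))))))) (.g (nat_lit 6) .nil .nil)))))))))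

noncomputable def tv696 : DT := (.nd (nat_lit 0) (.nd (nat_lit 1) (.nd (nat_lit 2) (.nd (nat_lit 3) (.nd (nat_lit 4) (.nd (nat_lit 5) 
(.lf (nat_lit 50048) (.g (nat_lit 2784) (.e (nat_lit 1348) (nat_lit 102) (.e (nat_lit 286748) (nat_lit 9) (.e (nat_lit 336295) (nat_lit 15) (.e (nat_lit 3305) (nat_lit 202) (.e (nat_lit 573452) (nat_lit 9) (.e (nat_lit 1562) (nat_lit 110) (.e (nat_lit 352312) (nat_lit 22) (.e (nat_lit 98048) (nat_lit 18) .nil)))))))) (.g (nat_lit 5) .nil .nil))) 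
(.lf (nat_lit 50080) (.g (nat_lit 3167) (.e (nat_lit 1348) (nat_lit 102) (.e (nat_lit 286748) (nat_lit 9) (.e (nat_lit 336389) (nat_lit 27) (.e (nat_lit 426030) (nat_lit 0) (.e (nat_lit 7562) (nat_lit 402) (.e (nat_lit 1638) (nat_lit 114) (.e (nat_lit 392960) (nat_lit 16) .nil))))))) (.g (nat_lit 6) .nil .nil)))) (.nd (nat_lit 5) 
(.lf (nat_lit 50064) (.g (nat_lit 1688) (.e (nat_lit 1348) (nat_lit 102) (.e (nat_lit 286748) (nat_lit 9) (.e (nat_lit 336295) (nat_lit 15) (.e (nat_lit 7936) (nat_lit 202) (.e (nat_lit 573493) (nat_lit 15) (.e (nat_lit 81953) (nat_lit 22) (.e (nat_lit 98048) (nat_lit 18) .nil))))))) (.g (nat_lit 6) .nil .nil))) 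
(.lf (nat_lit 50096) (.g (nat_lit 1572) (.e (nat_lit 1348) (nat_lit 102) (.e (nat_lit 286748) (nat_lit 9) (.e (nat_lit 336389) (nat_lit 27) (.e (nat_lit 426223) (nat_lit 9) .nil)))) .nil)))) (.nd (nat_lit 4) (.nd (nat_lit 5) 
(.lf (nat_lit 50056) (.g (nat_lit 2360) (.e (nat_lit 1348) (nat_lit 102) (.e (nat_lit 286748) (nat_lit 9) (.e (nat_lit 336295) (nat_lit 15) (.e (nat_lit 3305) (nat_lit 202) (.e (nat_lit 573484) (nat_lit 13) (.e (nat_lit 65589) (nat_lit 9) (.e (nat_lit 336013) (nat_lit 2) (.e (nat_lit 98048) (nat_lit 18) .nil)))))))) (.g (nat_lit 7) .nil .nil))) 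
(.lf (nat_lit 50088) (.g (nat_lit 2867) (.e (nat_lit 1348) (nat_lit 102) (.e (nat_lit 286748) (nat_lit 9) (.e (nat_lit 336389) (nat_lit 27) (.e (nat_lit 426054) (nat_lit 0) (.e (nat_lit 7556) (nat_lit 402) (.e (nat_lit 1638) (nat_lit 114) (.e (nat_lit 392960) (nat_lit 16) .nil))))))) (.g (nat_lit 6) .nil .nil)))) (.nd (nat_lit 5) 
(.lf (nat_lit 50072) (.g (nat_lit 1232) (.e (nat_lit 1348) (nat_lit 102) (.e (nat_lit 286748) (nat_lit 9) (.e (nat_lit 336389) (nat_lit 27) (.e (nat_lit 426012) (nat_lit 0) (.e (nat_lit 7111) (nat_lit 381) .nil))))) .nil)) 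
(.lf (nat_lit 50104) (.g (nat_lit 2149) (.e (nat_lit 1348) (nat_lit 102) (.e (nat_lit 286748) (nat_lit 9) (.e (nat_lit 336389) (nat_lit 27) (.e (nat_lit 426343) (nat_lit 14) (.e (nat_lit 491562) (nat_lit 12) (.e (nat_lit 392960) (nat_lit 16) .nil)))))) (.g (nat_lit 4) .nil .nil)))))) (.nd (nat_lit 3) (.nd (nat_lit 4) (.nd (nat_lit 5) 
(.lf (nat_lit 50052) (.g (nat_lit 2694) (.e (nat_lit 1348) (nat_lit 102) (.e (nat_lit 286748) (nat_lit 9) (.e (nat_lit 336295) (nat_lit 15) (.e (nat_lit 3305) (nat_lit 202) (.e (nat_lit 573456) (nat_lit 9) (.e (nat_lit 1452) (nat_lit 108) (.e (nat_lit 336099) (nat_lit 9) (.e (nat_lit 336013) (nat_lit 2) (.e (nat_lit 98048) (nat_lit 18) .nil))))))))) (.g (nat_lit 5) .nil .nil))) 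
(.lf (nat_lit 50084) (.g (nat_lit 1633) (.e (nat_lit 1348) (nat_lit 102) (.e (nat_lit 286748) (nat_lit 9) (.e (nat_lit 336389) (nat_lit 27) (.e (nat_lit 426051) (nat_lit 0) .nil)))) .nil))) (.nd (nat_lit 5) 
(.lf (nat_lit 50068) (.g (nat_lit 2208) (.e (nat_lit 1348) (nat_lit 102) (.e (nat_lit 286748) (nat_lit 9) (.e (nat_lit 336295) (nat_lit 15) (.e (nat_lit 3748) (nat_lit 228) (.e (nat_lit 786483) (nat_lit 30) (.e (nat_lit 360484) (nat_lit 15) (.e (nat_lit 647203) (nat_lit 14) .nil))))))) (.g (nat_lit 5) .nil .nil))) 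
(.lf (nat_lit 50100) (.g (nat_lit 1416) (.e (nat_lit 1348) (nat_lit 102) (.e (nat_lit 286748) (nat_lit 9) (.e (nat_lit 336389) (nat_lit 27) (.e (nat_lit 426342) (nat_lit 14) .nil)))) .nil)))) (.nd (nat_lit 4) (.nd (nat_lit 5) 
(.lf (nat_lit 50060) (.g (nat_lit 4073) (.e (nat_lit 1348) (nat_lit 102) (.e (nat_lit 286748) (nat_lit 9) (.e (nat_lit 336295) (nat_lit 15) (.e (nat_lit 3305) (nat_lit 202) (.e (nat_lit 573490) (nat_lit 15) (.e (nat_lit 81953) (nat_lit 22) (.e (nat_lit 98048) (nat_lit 18) .nil))))))) (.g (nat_lit 6) .nil .nil))) 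
(.lf (nat_lit 50092) (.g (nat_lit 1532) (.e (nat_lit 1348) (nat_lit 102) (.e (nat_lit 286748) (nat_lit 9) (.e (nat_lit 336389) (nat_lit 27) (.e (nat_lit 426213) (nat_lit 9) .nil)))) .nil))) (.nd (nat_lit 5) 
(.lf (nat_lit 50076) (.g (nat_lit 2183) (.e (nat_lit 1348) (nat_lit 102) (.e (nat_lit 286748) (nat_lit 9) (.e (nat_lit 336389) (nat_lit 27) (.e (nat_lit 426012) (nat_lit 0) (.e (nat_lit 7548) (nat_lit 402) (.e (nat_lit 1638) (nat_lit 114) (.e (nat_lit 392960) (nat_lit 16) .nil))))))) (.g (nat_lit 6) .nil .nil))) 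
(.lf (nat_lit 50108) (.g (nat_lit 2319) (.e (nat_lit 1348) (nat_lit 102) (.e (nat_lit 286748) (nat_lit 9) (.e (nat_lit 336389) (nat_lit 27) (.e (nat_lit 426344) (nat_lit 14) (.e (nat_lit 491562) (nat_lit 12) (.e (nat_lit 392960) (nat_lit 16) .nil)))))) (.g (nat_lit 4) .nil .nil))))))) (.nd (nat_lit 2) (.nd (nat_lit 3) (.nd (nat_lit 4) (.nd (nat_lit 5) 
(.lf (nat_lit 50050) (.g (nat_lit 2736) (.e (nat_lit 1348) (nat_lit 102) (.e (nat_lit 286748) (nat_lit 9) (.e (nat_lit 336295) (nat_lit 15) (.e (nat_lit 3305) (nat_lit 202) (.e (nat_lit 573456) (nat_lit 9) (.e (nat_lit 1413) (nat_lit 108) (.e (nat_lit 336099) (nat_lit 9) (.e (nat_lit 336013) (nat_lit 2) (.e (nat_lit 98048) (nat_lit 18) .nil))))))))) (.g (nat_lit 5) .nil .nil))) 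
(.lf (nat_lit 50082) (.g (nat_lit 2819) (.e (nat_lit 1348) (nat_lit 102) (.e (nat_lit 286748) (nat_lit 9) (.e (nat_lit 336389) (nat_lit 27) (.e (nat_lit 426035) (nat_lit 0) (.e (nat_lit 7556) (nat_lit 402) (.e (nat_lit 1638) (nat_lit 114) (.e (nat_lit 392960) (nat_lit 16) .nil))))))) (.g (nat_lit 6) .nil .nil)))) (.nd (nat_lit 5) 
(.lf (nat_lit 50066) (.g (nat_lit 2125) (.e (nat_lit 1348) (nat_lit 102) (.e (nat_lit 286748) (nat_lit 9) (.e (nat_lit 336295) (nat_lit 15) (.e (nat_lit 3733) (nat_lit 228) (.e (nat_lit 786483) (nat_lit 30) (.e (nat_lit 360484) (nat_lit 15) (.e (nat_lit 647203) (nat_lit 14) .nil))))))) (.g (nat_lit 5) .nil .nil))) 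
(.lf (nat_lit 50098) (.g (nat_lit 2667) (.e (nat_lit 1348) (nat_lit 102) (.e (nat_lit 286748) (nat_lit 9) (.e (nat_lit 336389) (nat_lit 27) (.e (nat_lit 426341) (nat_lit 14) (.e (nat_lit 491565) (nat_lit 12) (.e (nat_lit 392960) (nat_lit 16) .nil)))))) (.g (nat_lit 5) .nil .nil))))) (.nd (nat_lit 4) (.nd (nat_lit 5) 
(.lf (nat_lit 50058) (.g (nat_lit 2288) (.e (nat_lit 1348) (nat_lit 102) (.e (nat_lit 286748) (nat_lit 9) (.e (nat_lit 336295) (nat_lit 15) (.e (nat_lit 3305) (nat_lit 202) (.e (nat_lit 573484) (nat_lit 13) (.e (nat_lit 65599) (nat_lit 9) (.e (nat_lit 336013) (nat_lit 2) (.e (nat_lit 98048) (nat_lit 18) .nil)))))))) (.g (nat_lit 7) .nil .nil))) 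
(.lf (nat_lit 50090) (.g (nat_lit 1559) (.e (nat_lit 1348) (nat_lit 102) (.e (nat_lit 286748) (nat_lit 9) (.e (nat_lit 336389) (nat_lit 27) (.e (nat_lit 426185) (nat_lit 9) .nil)))) .nil))) (.nd (nat_lit 5) 
(.lf (nat_lit 50074) (.g (nat_lit 2372) (.e (nat_lit 1348) (nat_lit 102) (.e (nat_lit 286748) (nat_lit 9) (.e (nat_lit 336389) (nat_lit 27) (.e (nat_lit 426012) (nat_lit 0) (.e (nat_lit 7523) (nat_lit 402) (.e (nat_lit 1638) (nat_lit 114) (.e (nat_lit 392960) (nat_lit 16) .nil))))))) (.g (nat_lit 6) .nil .nil))) 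
(.lf (nat_lit 50106) (.g (nat_lit 2753) (.e (nat_lit 1348) (nat_lit 102) (.e (nat_lit 286748) (nat_lit 9) (.e (nat_lit 336389) (nat_lit 27) (.e (nat_lit 426343) (nat_lit 14) (.e (nat_lit 491564) (nat_lit 12) (.e (nat_lit 392960) (nat_lit 16) .nil)))))) (.g (nat_lit 5) .nil .nil)))))) (.nd (nat_lit 3) (.nd (nat_lit 4) (.nd (nat_lit 5) 
(.lf (nat_lit 50054) (.g (nat_lit 2559) (.e (nat_lit 1348) (nat_lit 102) (.e (nat_lit 286748) (nat_lit 9) (.e (nat_lit 336295) (nat_lit 15) (.e (nat_lit 3305) (nat_lit 202) (.e (nat_lit 573457) (nat_lit 9) (.e (nat_lit 1449) (nat_lit 108) (.e (nat_lit 336099) (nat_lit 9) (.e (nat_lit 336013) (nat_lit 2) (.e (nat_lit 98048) (nat_lit 18) .nil))))))))) (.g (nat_lit 5) .nil .nil))) 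
(.lf (nat_lit 50086) (.g (nat_lit 2816) (.e (nat_lit 1348) (nat_lit 102) (.e (nat_lit 286748) (nat_lit 9) (.e (nat_lit 336389) (nat_lit 27) (.e (nat_lit 426052) (nat_lit 0) (.e (nat_lit 7556) (nat_lit 402) (.e (nat_lit 1638) (nat_lit 114) (.e (nat_lit 392960) (nat_lit 16) .nil))))))) (.g (nat_lit 6) .nil .nil)))) (.nd (nat_lit 5) 
(.lf (nat_lit 50070) (.g (nat_lit 241) (.e (nat_lit 1348) (nat_lit 102) (.e (nat_lit 286748) (nat_lit 9) (.e (nat_lit 336389) (nat_lit 27) .nil))) .nil)) 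
(.lf (nat_lit 50102) (.g (nat_lit 1971) (.e (nat_lit 1348) (nat_lit 102) (.e (nat_lit 286748) (nat_lit 9) (.e (nat_lit 336389) (nat_lit 27) (.e (nat_lit 426343) (nat_lit 14) (.e (nat_lit 491546) (nat_lit 9) .nil))))) .nil)))) (.nd (nat_lit 4) (.nd (nat_lit 5) 
(.lf (nat_lit 50062) (.g (nat_lit 5115) (.e (nat_lit 1348) (nat_lit 102) (.e (nat_lit 286748) (nat_lit 9) (.e (nat_lit 336295) (nat_lit 15) (.e (nat_lit 3305) (nat_lit 202) (.e (nat_lit 573493) (nat_lit 15) (.e (nat_lit 81953) (nat_lit 22) (.e (nat_lit 98048) (nat_lit 18) .nil))))))) (.g (nat_lit 6) .nil .nil))) 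
(.lf (nat_lit 50094) (.g (nat_lit 1572) (.e (nat_lit 1348) (nat_lit 102) (.e (nat_lit 286748) (nat_lit 9) (.e (nat_lit 336389) (nat_lit 27) (.e (nat_lit 426220) (nat_lit 9) .nil)))) .nil))) (.nd (nat_lit 5) 
(.lf (nat_lit 50078) (.g (nat_lit 2510) (.e (nat_lit 1348) (nat_lit 102) (.e (nat_lit 286748) (nat_lit 9) (.e (nat_lit 336389) (nat_lit 27) (.e (nat_lit 426027) (nat_lit 0) (.e (nat_lit 7562) (nat_lit 402) (.e (nat_lit 1638) (nat_lit 114) (.e (nat_lit 392960) (nat_lit 16) .nil))))))) (.g (nat_lit 5) .nil .nil))) 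
(.lf (nat_lit 50110) (.g (nat_lit 3537) (.e (nat_lit 1348) (nat_lit 102) (.e (nat_lit 286749) (nat_lit 9) (.e (nat_lit 336013) (nat_lit 2) (.e (nat_lit 90170) (nat_lit 13) (.e (nat_lit 172059) (nat_lit 1) (.e (nat_lit 164326) (nat_lit 230) (.e (nat_lit 163868) (nat_lit 2) (.e (nat_lit 196691) (nat_lit 18) .nil)))))))) (.g (nat_lit 4) .nil .nil)))))))) 
(.nd (nat_lit 1) (.nd (nat_lit 2) (.nd (nat_lit 3) (.nd (nat_lit 4) (.nd (nat_lit 5) 
(.lf (nat_lit 50049) (.g (nat_lit 3285) (.e (nat_lit 1348) (nat_lit 102) (.e (nat_lit 286748) (nat_lit 9) (.e (nat_lit 336295) (nat_lit 15) (.e (nat_lit 3305) (nat_lit 202) (.e (nat_lit 573452) (nat_lit 9) (.e (nat_lit 1571) (nat_lit 110) (.e (nat_lit 352312) (nat_lit 22) (.e (nat_lit 98048) (nat_lit 18) .nil)))))))) (.g (nat_lit 7) .nil .nil))) 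
(.lf (nat_lit 50081) (.g (nat_lit 3202) (.e (nat_lit 1348) (nat_lit 102) (.e (nat_lit 286748) (nat_lit 9) (.e (nat_lit 336389) (nat_lit 27) (.e (nat_lit 426031) (nat_lit 0) (.e (nat_lit 7562) (nat_lit 402) (.e (nat_lit 1638) (nat_lit 114) (.e (nat_lit 392960) (nat_lit 16) .nil))))))) (.g (nat_lit 6) .nil .nil)))) (.nd (nat_lit 5) 
(.lf (nat_lit 50065) (.g (nat_lit 1138) (.e (nat_lit 1348) (nat_lit 102) (.e (nat_lit 286748) (nat_lit 9) (.e (nat_lit 336295) (nat_lit 15) (.e (nat_lit 3733) (nat_lit 228) .nil)))) .nil)) 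
(.lf (nat_lit 50097) (.g (nat_lit 3214) (.e (nat_lit 1348) (nat_lit 102) (.e (nat_lit 286748) (nat_lit 9) (.e (nat_lit 336389) (nat_lit 27) (.e (nat_lit 426338) (nat_lit 14) (.e (nat_lit 491566) (nat_lit 12) (.e (nat_lit 392960) (nat_lit 16) .nil)))))) (.g (nat_lit 5) .nil .nil))))) (.nd (nat_lit 4) (.nd (nat_lit 5) 
(.lf (nat_lit 50057) (.g (nat_lit 3816) (.e (nat_lit 1348) (nat_lit 102) (.e (nat_lit 286748) (nat_lit 9) (.e (nat_lit 336295) (nat_lit 15) (.e (nat_lit 3305) (nat_lit 202) (.e (nat_lit 573484) (nat_lit 13) (.e (nat_lit 65598) (nat_lit 9) (.e (nat_lit 336013) (nat_lit 2) (.e (nat_lit 98048) (nat_lit 18) .nil)))))))) (.g (nat_lit 7) .nil .nil))) 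
(.lf (nat_lit 50089) (.g (nat_lit 2460) (.e (nat_lit 1348) (nat_lit 102) (.e (nat_lit 286748) (nat_lit 9) (.e (nat_lit 336389) (nat_lit 27) (.e (nat_lit 433920) (nat_lit 0) (.e (nat_lit 7537) (nat_lit 402) (.e (nat_lit 1638) (nat_lit 114) (.e (nat_lit 392960) (nat_lit 16) .nil))))))) (.g (nat_lit 6) .nil .nil)))) (.nd (nat_lit 5) 
(.lf (nat_lit 50073) (.g (nat_lit 2682) (.e (nat_lit 1348) (nat_lit 102) (.e (nat_lit 286748) (nat_lit 9) (.e (nat_lit 336389) (nat_lit 27) (.e (nat_lit 426012) (nat_lit 0) (.e (nat_lit 7511) (nat_lit 402) (.e (nat_lit 1638) (nat_lit 114) (.e (nat_lit 392960) (nat_lit 16) .nil))))))) (.g (nat_lit 6) .nil .nil))) 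
(.lf (nat_lit 50105) (.g (nat_lit 3591) (.e (nat_lit 1348) (nat_lit 102) (.e (nat_lit 286748) (nat_lit 9) (.e (nat_lit 336389) (nat_lit 27) (.e (nat_lit 426343) (nat_lit 14) (.e (nat_lit 491563) (nat_lit 12) (.e (nat_lit 392960) (nat_lit 16) .nil)))))) (.g (nat_lit 5) .nil .nil)))))) (.nd (nat_lit 3) (.nd (nat_lit 4) (.nd (nat_lit 5) 
(.lf (nat_lit 50053) (.g (nat_lit 2857) (.e (nat_lit 1348) (nat_lit 102) (.e (nat_lit 286748) (nat_lit 9) (.e (nat_lit 336295) (nat_lit 15) (.e (nat_lit 3305) (nat_lit 202) (.e (nat_lit 573456) (nat_lit 9) (.e (nat_lit 1566) (nat_lit 110) (.e (nat_lit 352312) (nat_lit 22) (.e (nat_lit 98048) (nat_lit 18) .nil)))))))) (.g (nat_lit 5) .nil .nil))) 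
(.lf (nat_lit 50085) (.g (nat_lit 2921) (.e (nat_lit 1348) (nat_lit 102) (.e (nat_lit 286748) (nat_lit 9) (.e (nat_lit 336389) (nat_lit 27) (.e (nat_lit 426051) (nat_lit 0) (.e (nat_lit 7556) (nat_lit 402) (.e (nat_lit 1638) (nat_lit 114) (.e (nat_lit 392960) (nat_lit 16) .nil))))))) (.g (nat_lit 6) .nil .nil)))) (.nd (nat_lit 5) 
(.lf (nat_lit 50069) (.g (nat_lit 2734) (.e (nat_lit 1348) (nat_lit 102) (.e (nat_lit 286748) (nat_lit 9) (.e (nat_lit 336295) (nat_lit 15) (.e (nat_lit 6966) (nat_lit 377) (.e (nat_lit 1370) (nat_lit 103) (.e (nat_lit 294955) (nat_lit 12) (.e (nat_lit 392960) (nat_lit 16) .nil))))))) (.g (nat_lit 6) .nil .nil))) 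
(.lf (nat_lit 50101) (.g (nat_lit 3344) (.e (nat_lit 1348) (nat_lit 102) (.e (nat_lit 286748) (nat_lit 9) (.e (nat_lit 336389) (nat_lit 27) (.e (nat_lit 426342) (nat_lit 14) (.e (nat_lit 491563) (nat_lit 12) (.e (nat_lit 392960) (nat_lit 16) .nil)))))) (.g (nat_lit 5) .nil .nil))))) (.nd (nat_lit 4) (.nd (nat_lit 5) 
(.lf (nat_lit 50061) (.g (nat_lit 6925) (.e (nat_lit 1348) (nat_lit 102) (.e (nat_lit 286748) (nat_lit 9) (.e (nat_lit 336295) (nat_lit 15) (.e (nat_lit 3305) (nat_lit 202) (.e (nat_lit 573492) (nat_lit 15) (.e (nat_lit 81953) (nat_lit 22) (.e (nat_lit 98048) (nat_lit 18) .nil))))))) (.g (nat_lit 6) .nil .nil))) 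
(.lf (nat_lit 50093) (.g (nat_lit 2006) (.e (nat_lit 1348) (nat_lit 102) (.e (nat_lit 286748) (nat_lit 9) (.e (nat_lit 336389) (nat_lit 27) (.e (nat_lit 426213) (nat_lit 9) (.e (nat_lit 426025) (nat_lit 0) (.e (nat_lit 3397) (nat_lit 211) (.e (nat_lit 647181) (nat_lit 3) (.e (nat_lit 171776) (nat_lit 176) .nil)))))))) (.g (nat_lit 4) .nil .nil)))) (.nd (nat_lit 5) 
(.lf (nat_lit 50077) (.g (nat_lit 2650) (.e (nat_lit 1348) (nat_lit 102) (.e (nat_lit 286748) (nat_lit 9) (.e (nat_lit 336389) (nat_lit 27) (.e (nat_lit 426012) (nat_lit 0) (.e (nat_lit 7567) (nat_lit 402) (.e (nat_lit 1638) (nat_lit 114) (.e (nat_lit 392960) (nat_lit 16) .nil))))))) (.g (nat_lit 6) .nil .nil))) 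
(.lf (nat_lit 50109) (.g (nat_lit 4600) (.e (nat_lit 1348) (nat_lit 102) (.e (nat_lit 286748) (nat_lit 9) (.e (nat_lit 336389) (nat_lit 27) (.e (nat_lit 426344) (nat_lit 14) (.e (nat_lit 491563) (nat_lit 12) (.e (nat_lit 392960) (nat_lit 16) .nil)))))) (.g (nat_lit 5) .nil .nil))))))) (.nd (nat_lit 2) (.nd (nat_lit 3) (.nd (nat_lit 4) (.nd (nat_lit 5) 
(.lf (nat_lit 50051) (.g (nat_lit 2696) (.e (nat_lit 1348) (nat_lit 102) (.e (nat_lit 286748) (nat_lit 9) (.e (nat_lit 336295) (nat_lit 15) (.e (nat_lit 3305) (nat_lit 202) (.e (nat_lit 573456) (nat_lit 9) (.e (nat_lit 1447) (nat_lit 108) (.e (nat_lit 336099) (nat_lit 9) (.e (nat_lit 336013) (nat_lit 2) (.e (nat_lit 98048) (nat_lit 18) .nil))))))))) (.g (nat_lit 5) .nil .nil))) 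
(.lf (nat_lit 50083) (.g (nat_lit 1572) (.e (nat_lit 1348) (nat_lit 102) (.e (nat_lit 286748) (nat_lit 9) (.e (nat_lit 336389) (nat_lit 27) (.e (nat_lit 426044) (nat_lit 0) .nil)))) .nil))) (.nd (nat_lit 5) 
(.lf (nat_lit 50067) (.g (nat_lit 993) (.e (nat_lit 1348) (nat_lit 102) (.e (nat_lit 286748) (nat_lit 9) (.e (nat_lit 336295) (nat_lit 15) (.e (nat_lit 3748) (nat_lit 228) .nil)))) .nil)) 
(.lf (nat_lit 50099) (.g (nat_lit 3227) (.e (nat_lit 1348) (nat_lit 102) (.e (nat_lit 286748) (nat_lit 9) (.e (nat_lit 336389) (nat_lit 27) (.e (nat_lit 426341) (nat_lit 14) (.e (nat_lit 491566) (nat_lit 12) (.e (nat_lit 392960) (nat_lit 16) .nil)))))) (.g (nat_lit 5) .nil .nil))))) (.nd (nat_lit 4) (.nd (nat_lit 5) 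
(.lf (nat_lit 50059) (.g (nat_lit 1967) (.e (nat_lit 1348) (nat_lit 102) (.e (nat_lit 286748) (nat_lit 9) (.e (nat_lit 336295) (nat_lit 15) (.e (nat_lit 3305) (nat_lit 202) (.e (nat_lit 581376) (nat_lit 13) .nil))))) .nil)) 
(.lf (nat_lit 50091) (.g (nat_lit 1964) (.e (nat_lit 1348) (nat_lit 102) (.e (nat_lit 286748) (nat_lit 9) (.e (nat_lit 336389) (nat_lit 27) (.e (nat_lit 426204) (nat_lit 9) (.e (nat_lit 426025) (nat_lit 0) (.e (nat_lit 3397) (nat_lit 211) (.e (nat_lit 647181) (nat_lit 3) (.e (nat_lit 171776) (nat_lit 176) .nil)))))))) (.g (nat_lit 4) .nil .nil)))) (.nd (nat_lit 5) 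
(.lf (nat_lit 50075) (.g (nat_lit 3011) (.e (nat_lit 1348) (nat_lit 102) (.e (nat_lit 286748) (nat_lit 9) (.e (nat_lit 336389) (nat_lit 27) (.e (nat_lit 426012) (nat_lit 0) (.e (nat_lit 7538) (nat_lit 402) (.e (nat_lit 1638) (nat_lit 114) (.e (nat_lit 392960) (nat_lit 16) .nil))))))) (.g (nat_lit 6) .nil .nil))) 
(.lf (nat_lit 50107) (.g (nat_lit 3221) (.e (nat_lit 1348) (nat_lit 102) (.e (nat_lit 286748) (nat_lit 9) (.e (nat_lit 336389) (nat_lit 27) (.e (nat_lit 426343) (nat_lit 14) (.e (nat_lit 491565) (nat_lit 12) (.e (nat_lit 392960) (nat_lit 16) .nil)))))) (.g (nat_lit 5) .nil .nil)))))) (.nd (nat_lit 3) (.nd (nat_lit 4) (.nd (nat_lit 5) 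
(.lf (nat_lit 50055) (.g (nat_lit 4897) (.e (nat_lit 1348) (nat_lit 102) (.e (nat_lit 286748) (nat_lit 9) (.e (nat_lit 336295) (nat_lit 15) (.e (nat_lit 3305) (nat_lit 202) (.e (nat_lit 573482) (nat_lit 13) (.e (nat_lit 65598) (nat_lit 9) (.e (nat_lit 336013) (nat_lit 2) (.e (nat_lit 98048) (nat_lit 18) .nil)))))))) (.g (nat_lit 7) .nil .nil))) 
(.lf (nat_lit 50087) (.g (nat_lit 3128) (.e (nat_lit 1348) (nat_lit 102) (.e (nat_lit 286748) (nat_lit 9) (.e (nat_lit 336389) (nat_lit 27) (.e (nat_lit 426053) (nat_lit 0) (.e (nat_lit 7556) (nat_lit 402) (.e (nat_lit 1638) (nat_lit 114) (.e (nat_lit 392960) (nat_lit 16) .nil))))))) (.g (nat_lit 6) .nil .nil)))) (.nd (nat_lit 5) 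
(.lf (nat_lit 50071) (.g (nat_lit 2719) (.e (nat_lit 1348) (nat_lit 102) (.e (nat_lit 286748) (nat_lit 9) (.e (nat_lit 336389) (nat_lit 27) (.e (nat_lit 426003) (nat_lit 0) (.e (nat_lit 7557) (nat_lit 402) (.e (nat_lit 1638) (nat_lit 114) (.e (nat_lit 392960) (nat_lit 16) .nil))))))) (.g (nat_lit 6) .nil .nil))) 
(.lf (nat_lit 50103) (.g (nat_lit 2719) (.e (nat_lit 1348) (nat_lit 102) (.e (nat_lit 286748) (nat_lit 9) (.e (nat_lit 336389) (nat_lit 27) (.e (nat_lit 426343) (nat_lit 14) (.e (nat_lit 491556) (nat_lit 9) (.e (nat_lit 336300) (nat_lit 15) (.e (nat_lit 7936) (nat_lit 377) .nil))))))) (.g (nat_lit 5) .nil .nil))))) (.nd (nat_lit 4) (.nd (nat_lit 5) 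
(.lf (nat_lit 50063) (.g (nat_lit 2828) (.e (nat_lit 1348) (nat_lit 102) (.e (nat_lit 286748) (nat_lit 9) (.e (nat_lit 336295) (nat_lit 15) (.e (nat_lit 3305) (nat_lit 202) (.e (nat_lit 581376) (nat_lit 15) (.e (nat_lit 81953) (nat_lit 22) (.e (nat_lit 98048) (nat_lit 18) .nil))))))) (.g (nat_lit 6) .nil .nil))) 
(.lf (nat_lit 50095) (.g (nat_lit 1572) (.e (nat_lit 1348) (nat_lit 102) (.e (nat_lit 286748) (nat_lit 9) (.e (nat_lit 336389) (nat_lit 27) (.e (nat_lit 426222) (nat_lit 9) .nil)))) .nil))) (.nd (nat_lit 5) 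
(.lf (nat_lit 50079) (.g (nat_lit 1572) (.e (nat_lit 1348) (nat_lit 102) (.e (nat_lit 286748) (nat_lit 9) (.e (nat_lit 336389) (nat_lit 27) (.e (nat_lit 426028) (nat_lit 0) .nil)))) .nil)) 
(.lf (nat_lit 50111) (.g (nat_lit 3574) (.e (nat_lit 1348) (nat_lit 102) (.e (nat_lit 286749) (nat_lit 9) (.e (nat_lit 336013) (nat_lit 2) (.e (nat_lit 90170) (nat_lit 13) (.e (nat_lit 172059) (nat_lit 1) (.e (nat_lit 164326) (nat_lit 230) (.e (nat_lit 163871) (nat_lit 2) (.e (nat_lit 196691) (nat_lit 18) .nil)))))))) (.g (nat_lit 4) .nil .nil)))))))))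

noncomputable def tv697 : DT := (.nd (nat_lit 0) (.nd (nat_lit 1) (.nd (nat_lit 2) (.nd (nat_lit 3) (.nd (nat_lit 4) (.nd (nat_lit 5) 
(.lf (nat_lit 50112) (.g (nat_lit 3454) (.e (nat_lit 1348) (nat_lit 102) (.e (nat_lit 286749) (nat_lit 9) (.e (nat_lit 336013) (nat_lit 2) (.e (nat_lit 90170) (nat_lit 13) (.e (nat_lit 172059) (nat_lit 1) (.e (nat_lit 164327) (nat_lit 230) (.e (nat_lit 163871) (nat_lit 2) (.e (nat_lit 196691) (nat_lit 18) .nil)))))))) (.g (nat_lit 4) .nil .nil))) 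
(.lf (nat_lit 50144) (.g (nat_lit 2997) (.e (nat_lit 1348) (nat_lit 102) (.e (nat_lit 286759) (nat_lit 12) (.e (nat_lit 392960) (nat_lit 24) (.e (nat_lit 516151) (nat_lit 9) (.e (nat_lit 426211) (nat_lit 9) (.e (nat_lit 426025) (nat_lit 0) (.e (nat_lit 3480) (nat_lit 218) (.e (nat_lit 704826) (nat_lit 14) .nil)))))))) (.g (nat_lit 6) .nil .nil)))) (.nd (nat_lit 5) 
(.lf (nat_lit 50128) (.g (nat_lit 1132) (.e (nat_lit 1348) (nat_lit 102) (.e (nat_lit 286751) (nat_lit 10) (.e (nat_lit 344115) (nat_lit 20) (.e (nat_lit 507908) (nat_lit 0) (.e (nat_lit 5401) (nat_lit 302) (.e (nat_lit 65568) (nat_lit 2) (.e (nat_lit 98048) (nat_lit 18) .nil))))))) (.g (nat_lit 4) .nil .nil))) 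
(.lf (nat_lit 50160) (.g (nat_lit 2600) (.e (nat_lit 1348) (nat_lit 102) (.e (nat_lit 286759) (nat_lit 12) (.e (nat_lit 385068) (nat_lit 26) (.e (nat_lit 532513) (nat_lit 3) (.e (nat_lit 114710) (nat_lit 21) (.e (nat_lit 57692) (nat_lit 156) (.e (nat_lit 163869) (nat_lit 2) (.e (nat_lit 196683) (nat_lit 18) .nil)))))))) (.g (nat_lit 4) .nil .nil))))) (.nd (nat_lit 4) (.nd (nat_lit 5) 
(.lf (nat_lit 50120) (.g (nat_lit 3290) (.e (nat_lit 1348) (nat_lit 102) (.e (nat_lit 286749) (nat_lit 9) (.e (nat_lit 336028) (nat_lit 3) (.e (nat_lit 98367) (nat_lit 27) (.e (nat_lit 434209) (nat_lit 18) (.e (nat_lit 5223) (nat_lit 296) (.e (nat_lit 163868) (nat_lit 2) (.e (nat_lit 196691) (nat_lit 18) .nil)))))))) (.g (nat_lit 5) .nil .nil))) 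
(.lf (nat_lit 50152) (.g (nat_lit 2978) (.e (nat_lit 1348) (nat_lit 102) (.e (nat_lit 286759) (nat_lit 12) (.e (nat_lit 385068) (nat_lit 26) (.e (nat_lit 532501) (nat_lit 1) (.e (nat_lit 57783) (nat_lit 239) (.e (nat_lit 2638) (nat_lit 165) (.e (nat_lit 180272) (nat_lit 26) (.e (nat_lit 704818) (nat_lit 14) .nil)))))))) (.g (nat_lit 4) .nil .nil)))) (.nd (nat_lit 5) 
(.lf (nat_lit 50136) (.g (nat_lit 4039) (.e (nat_lit 1348) (nat_lit 102) (.e (nat_lit 286756) (nat_lit 10) (.e (nat_lit 344126) (nat_lit 25) (.e (nat_lit 548889) (nat_lit 9) (.e (nat_lit 65598) (nat_lit 9) (.e (nat_lit 336013) (nat_lit 2) (.e (nat_lit 98048) (nat_lit 18) .nil))))))) (.g (nat_lit 6) .nil .nil))) 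
(.lf (nat_lit 50168) (.g (nat_lit 4206) (.e (nat_lit 1348) (nat_lit 102) (.e (nat_lit 286759) (nat_lit 12) (.e (nat_lit 385068) (nat_lit 26) (.e (nat_lit 532515) (nat_lit 3) (.e (nat_lit 114711) (nat_lit 21) (.e (nat_lit 57688) (nat_lit 156) (.e (nat_lit 163867) (nat_lit 2) (.e (nat_lit 196691) (nat_lit 18) .nil)))))))) (.g (nat_lit 7) .nil .nil)))))) 
(.nd (nat_lit 3) (.nd (nat_lit 4) (.nd (nat_lit 5) 
(.lf (nat_lit 50116) (.g (nat_lit 3579) (.e (nat_lit 1348) (nat_lit 102) (.e (nat_lit 286749) (nat_lit 9) (.e (nat_lit 336013) (nat_lit 2) (.e (nat_lit 90170) (nat_lit 13) (.e (nat_lit 172061) (nat_lit 1) (.e (nat_lit 164327) (nat_lit 230) (.e (nat_lit 163871) (nat_lit 2) (.e (nat_lit 196691) (nat_lit 18) .nil)))))))) (.g (nat_lit 4) .nil .nil))) 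
(.lf (nat_lit 50148) (.g (nat_lit 2630) (.e (nat_lit 1348) (nat_lit 102) (.e (nat_lit 286759) (nat_lit 12) (.e (nat_lit 385068) (nat_lit 26) (.e (nat_lit 532499) (nat_lit 1) (.e (nat_lit 57783) (nat_lit 239) (.e (nat_lit 2638) (nat_lit 165) (.e (nat_lit 180272) (nat_lit 26) (.e (nat_lit 704818) (nat_lit 14) .nil)))))))) (.g (nat_lit 4) .nil .nil)))) (.nd (nat_lit 5) 
(.lf (nat_lit 50132) (.g (nat_lit 1857) (.e (nat_lit 1348) (nat_lit 102) (.e (nat_lit 286756) (nat_lit 10) (.e (nat_lit 344115) (nat_lit 20) (.e (nat_lit 507907) (nat_lit 0) (.e (nat_lit 5401) (nat_lit 302) (.e (nat_lit 65568) (nat_lit 2) (.e (nat_lit 98048) (nat_lit 18) .nil))))))) (.g (nat_lit 5) .nil .nil))) 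
(.lf (nat_lit 50164) (.g (nat_lit 2782) (.e (nat_lit 1348) (nat_lit 102) (.e (nat_lit 286759) (nat_lit 12) (.e (nat_lit 385068) (nat_lit 26) (.e (nat_lit 532515) (nat_lit 3) (.e (nat_lit 114710) (nat_lit 21) (.e (nat_lit 57688) (nat_lit 156) (.e (nat_lit 163867) (nat_lit 2) (.e (nat_lit 196691) (nat_lit 18) .nil)))))))) (.g (nat_lit 5) .nil .nil))))) (.nd (nat_lit 4) (.nd (nat_lit 5) 
(.lf (nat_lit 50124) (.g (nat_lit 4089) (.e (nat_lit 1348) (nat_lit 102) (.e (nat_lit 286749) (nat_lit 9) (.e (nat_lit 336028) (nat_lit 3) (.e (nat_lit 98367) (nat_lit 27) (.e (nat_lit 434275) (nat_lit 39) (.e (nat_lit 663584) (nat_lit 12) (.e (nat_lit 163976) (nat_lit 30) (.e (nat_lit 573503) (nat_lit 18) .nil)))))))) (.g (nat_lit 6) .nil .nil))) 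
(.lf (nat_lit 50156) (.g (nat_lit 3997) (.e (nat_lit 1348) (nat_lit 102) (.e (nat_lit 286759) (nat_lit 12) (.e (nat_lit 385068) (nat_lit 26) (.e (nat_lit 532513) (nat_lit 3) (.e (nat_lit 114710) (nat_lit 21) (.e (nat_lit 57688) (nat_lit 156) (.e (nat_lit 163867) (nat_lit 2) (.e (nat_lit 196691) (nat_lit 18) .nil)))))))) (.g (nat_lit 7) .nil .nil)))) (.nd (nat_lit 5) 
(.lf (nat_lit 50140) (.g (nat_lit 3279) (.e (nat_lit 1348) (nat_lit 102) (.e (nat_lit 286759) (nat_lit 12) (.e (nat_lit 385047) (nat_lit 21) (.e (nat_lit 4281) (nat_lit 253) (.e (nat_lit 57424) (nat_lit 14) (.e (nat_lit 352312) (nat_lit 22) (.e (nat_lit 98048) (nat_lit 18) .nil))))))) (.g (nat_lit 6) .nil .nil))) 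
(.lf (nat_lit 50172) (.g (nat_lit 2506) (.e (nat_lit 1348) (nat_lit 102) (.e (nat_lit 286759) (nat_lit 12) (.e (nat_lit 385068) (nat_lit 26) (.e (nat_lit 532515) (nat_lit 3) (.e (nat_lit 114712) (nat_lit 21) (.e (nat_lit 57692) (nat_lit 156) (.e (nat_lit 163869) (nat_lit 2) (.e (nat_lit 196683) (nat_lit 18) .nil)))))))) (.g (nat_lit 4) .nil .nil))))))) 
(.nd (nat_lit 2) (.nd (nat_lit 3) (.nd (nat_lit 4) (.nd (nat_lit 5) 
(.lf (nat_lit 50114) (.g (nat_lit 4001) (.e (nat_lit 1348) (nat_lit 102) (.e (nat_lit 286749) (nat_lit 9) (.e (nat_lit 336013) (nat_lit 2) (.e (nat_lit 90170) (nat_lit 13) (.e (nat_lit 172061) (nat_lit 1) (.e (nat_lit 164326) (nat_lit 230) (.e (nat_lit 163871) (nat_lit 2) (.e (nat_lit 196691) (nat_lit 18) .nil)))))))) (.g (nat_lit 5) .nil .nil))) 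
(.lf (nat_lit 50146) (.g (nat_lit 397) (.e (nat_lit 1348) (nat_lit 102) (.e (nat_lit 286759) (nat_lit 12) (.e (nat_lit 385068) (nat_lit 26) .nil))) .nil))) (.nd (nat_lit 5) 
(.lf (nat_lit 50130) (.g (nat_lit 3093) (.e (nat_lit 1348) (nat_lit 102) (.e (nat_lit 286751) (nat_lit 10) (.e (nat_lit 344117) (nat_lit 21) (.e (nat_lit 516160) (nat_lit 10) (.e (nat_lit 434275) (nat_lit 39) (.e (nat_lit 663584) (nat_lit 12) (.e (nat_lit 163979) (nat_lit 30) (.e (nat_lit 573503) (nat_lit 18) .nil)))))))) (.g (nat_lit 4) .nil .nil))) 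
(.lf (nat_lit 50162) (.g (nat_lit 1137) (.e (nat_lit 1348) (nat_lit 102) (.e (nat_lit 286759) (nat_lit 12) (.e (nat_lit 385068) (nat_lit 26) (.e (nat_lit 532515) (nat_lit 3) .nil)))) .nil)))) (.nd (nat_lit 4) (.nd (nat_lit 5) 
(.lf (nat_lit 50122) (.g (nat_lit 3009) (.e (nat_lit 1348) (nat_lit 102) (.e (nat_lit 286749) (nat_lit 9) (.e (nat_lit 336028) (nat_lit 3) (.e (nat_lit 98367) (nat_lit 27) (.e (nat_lit 434209) (nat_lit 18) (.e (nat_lit 5224) (nat_lit 296) (.e (nat_lit 163868) (nat_lit 2) (.e (nat_lit 196691) (nat_lit 18) .nil)))))))) (.g (nat_lit 4) .nil .nil))) 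
(.lf (nat_lit 50154) (.g (nat_lit 1964) (.e (nat_lit 1348) (nat_lit 102) (.e (nat_lit 286759) (nat_lit 12) (.e (nat_lit 385068) (nat_lit 26) (.e (nat_lit 532513) (nat_lit 3) (.e (nat_lit 114710) (nat_lit 21) .nil))))) .nil))) (.nd (nat_lit 5) 
(.lf (nat_lit 50138) (.g (nat_lit 2345) (.e (nat_lit 1348) (nat_lit 102) (.e (nat_lit 286758) (nat_lit 12) (.e (nat_lit 385073) (nat_lit 31) (.e (nat_lit 573493) (nat_lit 15) (.e (nat_lit 81953) (nat_lit 22) (.e (nat_lit 98048) (nat_lit 18) .nil)))))) (.g (nat_lit 5) .nil .nil))) 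
(.lf (nat_lit 50170) (.g (nat_lit 2659) (.e (nat_lit 1348) (nat_lit 102) (.e (nat_lit 286759) (nat_lit 12) (.e (nat_lit 385068) (nat_lit 26) (.e (nat_lit 532515) (nat_lit 3) (.e (nat_lit 114711) (nat_lit 21) (.e (nat_lit 57692) (nat_lit 156) (.e (nat_lit 163869) (nat_lit 2) (.e (nat_lit 196691) (nat_lit 18) .nil)))))))) (.g (nat_lit 5) .nil .nil)))))) 
(.nd (nat_lit 3) (.nd (nat_lit 4) (.nd (nat_lit 5) 
(.lf (nat_lit 50118) (.g (nat_lit 2675) (.e (nat_lit 1348) (nat_lit 102) (.e (nat_lit 286749) (nat_lit 9) (.e (nat_lit 336028) (nat_lit 3) (.e (nat_lit 98366) (nat_lit 27) (.e (nat_lit 434209) (nat_lit 18) (.e (nat_lit 5224) (nat_lit 296) (.e (nat_lit 163868) (nat_lit 2) (.e (nat_lit 196691) (nat_lit 18) .nil)))))))) (.g (nat_lit 4) .nil .nil))) 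
(.lf (nat_lit 50150) (.g (nat_lit 2480) (.e (nat_lit 1348) (nat_lit 102) (.e (nat_lit 286759) (nat_lit 12) (.e (nat_lit 385068) (nat_lit 26) (.e (nat_lit 532501) (nat_lit 1) (.e (nat_lit 57783) (nat_lit 239) .nil))))) .nil))) (.nd (nat_lit 5) 
(.lf (nat_lit 50134) (.g (nat_lit 2475) (.e (nat_lit 1348) (nat_lit 102) (.e (nat_lit 286756) (nat_lit 10) (.e (nat_lit 344115) (nat_lit 20) (.e (nat_lit 507923) (nat_lit 6) (.e (nat_lit 286747) (nat_lit 9) (.e (nat_lit 336013) (nat_lit 2) (.e (nat_lit 98048) (nat_lit 18) .nil))))))) (.g (nat_lit 6) .nil .nil))) 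
(.lf (nat_lit 50166) (.g (nat_lit 1743) (.e (nat_lit 1348) (nat_lit 102) (.e (nat_lit 286759) (nat_lit 12) (.e (nat_lit 385068) (nat_lit 26) (.e (nat_lit 532515) (nat_lit 3) (.e (nat_lit 114711) (nat_lit 21) .nil))))) .nil)))) (.nd (nat_lit 4) (.nd (nat_lit 5) 
(.lf (nat_lit 50126) (.g (nat_lit 2349) (.e (nat_lit 1348) (nat_lit 102) (.e (nat_lit 286749) (nat_lit 9) (.e (nat_lit 336028) (nat_lit 3) (.e (nat_lit 98367) (nat_lit 27) (.e (nat_lit 434276) (nat_lit 39) .nil))))) .nil)) 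
(.lf (nat_lit 50158) (.g (nat_lit 2247) (.e (nat_lit 1348) (nat_lit 102) (.e (nat_lit 286759) (nat_lit 12) (.e (nat_lit 385068) (nat_lit 26) (.e (nat_lit 532513) (nat_lit 3) (.e (nat_lit 114710) (nat_lit 21) (.e (nat_lit 57688) (nat_lit 156) (.e (nat_lit 163869) (nat_lit 2) (.e (nat_lit 196691) (nat_lit 18) .nil)))))))) (.g (nat_lit 4) .nil .nil)))) (.nd (nat_lit 5) 
(.lf (nat_lit 50142) (.g (nat_lit 2556) (.e (nat_lit 1348) (nat_lit 102) (.e (nat_lit 286759) (nat_lit 12) (.e (nat_lit 385047) (nat_lit 21) (.e (nat_lit 4289) (nat_lit 254) (.e (nat_lit 122916) (nat_lit 14) (.e (nat_lit 352312) (nat_lit 22) (.e (nat_lit 98048) (nat_lit 18) .nil))))))) (.g (nat_lit 5) .nil .nil))) 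
(.lf (nat_lit 50174) (.g (nat_lit 4168) (.e (nat_lit 1348) (nat_lit 102) (.e (nat_lit 286759) (nat_lit 12) (.e (nat_lit 385072) (nat_lit 31) (.e (nat_lit 573492) (nat_lit 15) (.e (nat_lit 81953) (nat_lit 22) (.e (nat_lit 98048) (nat_lit 18) .nil)))))) (.g (nat_lit 5) .nil .nil)))))))) (.nd (nat_lit 1) (.nd (nat_lit 2) (.nd (nat_lit 3) (.nd (nat_lit 4) (.nd (nat_lit 5) 
(.lf (nat_lit 50113) (.g (nat_lit 3968) (.e (nat_lit 1348) (nat_lit 102) (.e (nat_lit 286749) (nat_lit 9) (.e (nat_lit 336013) (nat_lit 2) (.e (nat_lit 90170) (nat_lit 13) (.e (nat_lit 172061) (nat_lit 1) (.e (nat_lit 164326) (nat_lit 230) (.e (nat_lit 163868) (nat_lit 2) (.e (nat_lit 196691) (nat_lit 18) .nil)))))))) (.g (nat_lit 4) .nil .nil))) 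
(.lf (nat_lit 50145) (.g (nat_lit 2427) (.e (nat_lit 1348) (nat_lit 102) (.e (nat_lit 286759) (nat_lit 12) (.e (nat_lit 392960) (nat_lit 24) (.e (nat_lit 516166) (nat_lit 12) (.e (nat_lit 450603) (nat_lit 22) (.e (nat_lit 704818) (nat_lit 14) .nil)))))) (.g (nat_lit 5) .nil .nil)))) (.nd (nat_lit 5) 
(.lf (nat_lit 50129) (.g (nat_lit 2152) (.e (nat_lit 1348) (nat_lit 102) (.e (nat_lit 286751) (nat_lit 10) (.e (nat_lit 344115) (nat_lit 20) (.e (nat_lit 507923) (nat_lit 6) (.e (nat_lit 286747) (nat_lit 9) (.e (nat_lit 336013) (nat_lit 2) (.e (nat_lit 98048) (nat_lit 18) .nil))))))) (.g (nat_lit 6) .nil .nil))) 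
(.lf (nat_lit 50161) (.g (nat_lit 3351) (.e (nat_lit 1348) (nat_lit 102) (.e (nat_lit 286759) (nat_lit 12) (.e (nat_lit 385068) (nat_lit 26) (.e (nat_lit 532513) (nat_lit 3) (.e (nat_lit 114711) (nat_lit 21) (.e (nat_lit 57688) (nat_lit 156) (.e (nat_lit 163867) (nat_lit 2) (.e (nat_lit 196691) (nat_lit 18) .nil)))))))) (.g (nat_lit 6) .nil .nil))))) (.nd (nat_lit 4) (.nd (nat_lit 5) 
(.lf (nat_lit 50121) (.g (nat_lit 2674) (.e (nat_lit 1348) (nat_lit 102) (.e (nat_lit 286749) (nat_lit 9) (.e (nat_lit 336028) (nat_lit 3) (.e (nat_lit 98367) (nat_lit 27) (.e (nat_lit 434209) (nat_lit 18) (.e (nat_lit 5223) (nat_lit 296) (.e (nat_lit 163871) (nat_lit 2) (.e (nat_lit 196691) (nat_lit 18) .nil)))))))) (.g (nat_lit 4) .nil .nil))) 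
(.lf (nat_lit 50153) (.g (nat_lit 3142) (.e (nat_lit 1348) (nat_lit 102) (.e (nat_lit 286759) (nat_lit 12) (.e (nat_lit 385068) (nat_lit 26) (.e (nat_lit 532501) (nat_lit 1) (.e (nat_lit 57783) (nat_lit 239) (.e (nat_lit 2640) (nat_lit 165) (.e (nat_lit 180271) (nat_lit 26) (.e (nat_lit 704818) (nat_lit 14) .nil)))))))) (.g (nat_lit 4) .nil .nil)))) (.nd (nat_lit 5) 
(.lf (nat_lit 50137) (.g (nat_lit 3001) (.e (nat_lit 1348) (nat_lit 102) (.e (nat_lit 286758) (nat_lit 12) (.e (nat_lit 385072) (nat_lit 31) (.e (nat_lit 573492) (nat_lit 15) (.e (nat_lit 81953) (nat_lit 22) (.e (nat_lit 98048) (nat_lit 18) .nil)))))) (.g (nat_lit 5) .nil .nil))) 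
(.lf (nat_lit 50169) (.g (nat_lit 3081) (.e (nat_lit 1348) (nat_lit 102) (.e (nat_lit 286759) (nat_lit 12) (.e (nat_lit 385068) (nat_lit 26) (.e (nat_lit 532515) (nat_lit 3) (.e (nat_lit 114711) (nat_lit 21) (.e (nat_lit 57688) (nat_lit 156) (.e (nat_lit 163867) (nat_lit 2) (.e (nat_lit 196692) (nat_lit 18) .nil)))))))) (.g (nat_lit 5) .nil .nil)))))) 
(.nd (nat_lit 3) (.nd (nat_lit 4) (.nd (nat_lit 5) 
(.lf (nat_lit 50117) (.g (nat_lit 2977) (.e (nat_lit 1348) (nat_lit 102) (.e (nat_lit 286749) (nat_lit 9) (.e (nat_lit 336028) (nat_lit 3) (.e (nat_lit 98366) (nat_lit 27) (.e (nat_lit 434209) (nat_lit 18) (.e (nat_lit 5223) (nat_lit 296) (.e (nat_lit 163868) (nat_lit 2) (.e (nat_lit 196691) (nat_lit 18) .nil)))))))) (.g (nat_lit 4) .nil .nil))) 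
(.lf (nat_lit 50149) (.g (nat_lit 2859) (.e (nat_lit 1348) (nat_lit 102) (.e (nat_lit 286759) (nat_lit 12) (.e (nat_lit 385068) (nat_lit 26) (.e (nat_lit 532499) (nat_lit 1) (.e (nat_lit 57783) (nat_lit 239) (.e (nat_lit 2640) (nat_lit 165) (.e (nat_lit 180271) (nat_lit 26) (.e (nat_lit 704818) (nat_lit 14) .nil)))))))) (.g (nat_lit 4) .nil .nil)))) (.nd (nat_lit 5) 
(.lf (nat_lit 50133) (.g (nat_lit 1861) (.e (nat_lit 1348) (nat_lit 102) (.e (nat_lit 286756) (nat_lit 10) (.e (nat_lit 344115) (nat_lit 20) (.e (nat_lit 507908) (nat_lit 0) (.e (nat_lit 5401) (nat_lit 302) (.e (nat_lit 65568) (nat_lit 2) (.e (nat_lit 98048) (nat_lit 18) .nil))))))) (.g (nat_lit 5) .nil .nil))) 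
(.lf (nat_lit 50165) (.g (nat_lit 3053) (.e (nat_lit 1348) (nat_lit 102) (.e (nat_lit 286759) (nat_lit 12) (.e (nat_lit 385068) (nat_lit 26) (.e (nat_lit 532515) (nat_lit 3) (.e (nat_lit 114710) (nat_lit 21) (.e (nat_lit 57692) (nat_lit 156) (.e (nat_lit 163869) (nat_lit 2) (.e (nat_lit 196691) (nat_lit 18) .nil)))))))) (.g (nat_lit 5) .nil .nil))))) (.nd (nat_lit 4) (.nd (nat_lit 5) 
(.lf (nat_lit 50125) (.g (nat_lit 3501) (.e (nat_lit 1348) (nat_lit 102) (.e (nat_lit 286749) (nat_lit 9) (.e (nat_lit 336028) (nat_lit 3) (.e (nat_lit 98367) (nat_lit 27) (.e (nat_lit 434275) (nat_lit 39) (.e (nat_lit 663585) (nat_lit 12) (.e (nat_lit 163977) (nat_lit 30) (.e (nat_lit 573503) (nat_lit 18) .nil)))))))) (.g (nat_lit 5) .nil .nil))) 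
(.lf (nat_lit 50157) (.g (nat_lit 2873) (.e (nat_lit 1348) (nat_lit 102) (.e (nat_lit 286759) (nat_lit 12) (.e (nat_lit 385068) (nat_lit 26) (.e (nat_lit 532513) (nat_lit 3) (.e (nat_lit 114710) (nat_lit 21) (.e (nat_lit 57688) (nat_lit 156) (.e (nat_lit 163867) (nat_lit 2) (.e (nat_lit 196692) (nat_lit 18) .nil)))))))) (.g (nat_lit 4) .nil .nil)))) (.nd (nat_lit 5) 
(.lf (nat_lit 50141) (.g (nat_lit 3015) (.e (nat_lit 1348) (nat_lit 102) (.e (nat_lit 286759) (nat_lit 12) (.e (nat_lit 385047) (nat_lit 21) (.e (nat_lit 4288) (nat_lit 254) (.e (nat_lit 122916) (nat_lit 14) (.e (nat_lit 352312) (nat_lit 22) (.e (nat_lit 98048) (nat_lit 18) .nil))))))) (.g (nat_lit 6) .nil .nil))) 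
(.lf (nat_lit 50173) (.g (nat_lit 4156) (.e (nat_lit 1348) (nat_lit 102) (.e (nat_lit 286759) (nat_lit 12) (.e (nat_lit 385068) (nat_lit 26) (.e (nat_lit 532515) (nat_lit 3) (.e (nat_lit 114712) (nat_lit 21) (.e (nat_lit 57692) (nat_lit 156) (.e (nat_lit 163869) (nat_lit 2) (.e (nat_lit 196691) (nat_lit 18) .nil)))))))) (.g (nat_lit 7) .nil .nil))))))) 
(.nd (nat_lit 2) (.nd (nat_lit 3) (.nd (nat_lit 4) (.nd (nat_lit 5) 
(.lf (nat_lit 50115) (.g (nat_lit 4212) (.e (nat_lit 1348) (nat_lit 102) (.e (nat_lit 286749) (nat_lit 9) (.e (nat_lit 336013) (nat_lit 2) (.e (nat_lit 90170) (nat_lit 13) (.e (nat_lit 172061) (nat_lit 1) (.e (nat_lit 164327) (nat_lit 230) (.e (nat_lit 163868) (nat_lit 2) (.e (nat_lit 196691) (nat_lit 18) .nil)))))))) (.g (nat_lit 5) .nil .nil))) 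
(.lf (nat_lit 50147) (.g (nat_lit 3002) (.e (nat_lit 1348) (nat_lit 102) (.e (nat_lit 286759) (nat_lit 12) (.e (nat_lit 385068) (nat_lit 26) (.e (nat_lit 532499) (nat_lit 1) (.e (nat_lit 57783) (nat_lit 239) (.e (nat_lit 2638) (nat_lit 165) (.e (nat_lit 180271) (nat_lit 26) (.e (nat_lit 704818) (nat_lit 14) .nil)))))))) (.g (nat_lit 4) .nil .nil)))) (.nd (nat_lit 5) 
(.lf (nat_lit 50131) (.g (nat_lit 2333) (.e (nat_lit 1348) (nat_lit 102) (.e (nat_lit 286751) (nat_lit 10) (.e (nat_lit 344117) (nat_lit 21) (.e (nat_lit 516185) (nat_lit 16) (.e (nat_lit 491546) (nat_lit 9) (.e (nat_lit 336013) (nat_lit 2) (.e (nat_lit 98048) (nat_lit 18) .nil))))))) (.g (nat_lit 4) .nil .nil))) 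
(.lf (nat_lit 50163) (.g (nat_lit 1952) (.e (nat_lit 1348) (nat_lit 102) (.e (nat_lit 286759) (nat_lit 12) (.e (nat_lit 385068) (nat_lit 26) (.e (nat_lit 532515) (nat_lit 3) (.e (nat_lit 114710) (nat_lit 21) .nil))))) .nil)))) (.nd (nat_lit 4) (.nd (nat_lit 5) 
(.lf (nat_lit 50123) (.g (nat_lit 3301) (.e (nat_lit 1348) (nat_lit 102) (.e (nat_lit 286749) (nat_lit 9) (.e (nat_lit 336028) (nat_lit 3) (.e (nat_lit 98367) (nat_lit 27) (.e (nat_lit 434209) (nat_lit 18) (.e (nat_lit 5224) (nat_lit 296) (.e (nat_lit 163871) (nat_lit 2) (.e (nat_lit 196691) (nat_lit 18) .nil)))))))) (.g (nat_lit 5) .nil .nil))) 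
(.lf (nat_lit 50155) (.g (nat_lit 2115) (.e (nat_lit 1348) (nat_lit 102) (.e (nat_lit 286759) (nat_lit 12) (.e (nat_lit 385068) (nat_lit 26) (.e (nat_lit 532513) (nat_lit 3) (.e (nat_lit 114710) (nat_lit 21) (.e (nat_lit 57686) (nat_lit 156) (.e (nat_lit 163871) (nat_lit 2) (.e (nat_lit 196691) (nat_lit 18) .nil)))))))) (.g (nat_lit 4) .nil .nil)))) (.nd (nat_lit 5) 
(.lf (nat_lit 50139) (.g (nat_lit 3313) (.e (nat_lit 1348) (nat_lit 102) (.e (nat_lit 286759) (nat_lit 12) (.e (nat_lit 385047) (nat_lit 21) (.e (nat_lit 4168) (nat_lit 251) (.e (nat_lit 1221) (nat_lit 90) (.e (nat_lit 81953) (nat_lit 22) (.e (nat_lit 98048) (nat_lit 18) .nil))))))) (.g (nat_lit 6) .nil .nil))) 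
(.lf (nat_lit 50171) (.g (nat_lit 4028) (.e (nat_lit 1348) (nat_lit 102) (.e (nat_lit 286759) (nat_lit 12) (.e (nat_lit 385068) (nat_lit 26) (.e (nat_lit 532515) (nat_lit 3) (.e (nat_lit 114712) (nat_lit 21) (.e (nat_lit 57691) (nat_lit 156) (.e (nat_lit 163871) (nat_lit 2) (.e (nat_lit 196691) (nat_lit 18) .nil)))))))) (.g (nat_lit 7) .nil .nil)))))) 
(.nd (nat_lit 3) (.nd (nat_lit 4) (.nd (nat_lit 5) 
(.lf (nat_lit 50119) (.g (nat_lit 2967) (.e (nat_lit 1348) (nat_lit 102) (.e (nat_lit 286749) (nat_lit 9) (.e (nat_lit 336028) (nat_lit 3) (.e (nat_lit 98366) (nat_lit 27) (.e (nat_lit 434209) (nat_lit 18) (.e (nat_lit 5224) (nat_lit 296) (.e (nat_lit 163871) (nat_lit 2) (.e (nat_lit 196691) (nat_lit 18) .nil)))))))) (.g (nat_lit 4) .nil .nil))) 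
(.lf (nat_lit 50151) (.g (nat_lit 3350) (.e (nat_lit 1348) (nat_lit 102) (.e (nat_lit 286759) (nat_lit 12) (.e (nat_lit 385068) (nat_lit 26) (.e (nat_lit 532501) (nat_lit 1) (.e (nat_lit 57783) (nat_lit 239) (.e (nat_lit 2638) (nat_lit 165) (.e (nat_lit 180271) (nat_lit 26) (.e (nat_lit 704818) (nat_lit 14) .nil)))))))) (.g (nat_lit 4) .nil .nil)))) (.nd (nat_lit 5) 
(.lf (nat_lit 50135) (.g (nat_lit 880) (.e (nat_lit 1348) (nat_lit 102) (.e (nat_lit 286756) (nat_lit 10) (.e (nat_lit 344126) (nat_lit 25) (.e (nat_lit 548873) (nat_lit 5) .nil)))) .nil)) 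
(.lf (nat_lit 50167) (.g (nat_lit 2283) (.e (nat_lit 1348) (nat_lit 102) (.e (nat_lit 286759) (nat_lit 12) (.e (nat_lit 385068) (nat_lit 26) (.e (nat_lit 532515) (nat_lit 3) (.e (nat_lit 114711) (nat_lit 21) (.e (nat_lit 57687) (nat_lit 156) (.e (nat_lit 163867) (nat_lit 2) (.e (nat_lit 196691) (nat_lit 18) .nil)))))))) (.g (nat_lit 4) .nil .nil))))) (.nd (nat_lit 4) (.nd (nat_lit 5) 
(.lf (nat_lit 50127) (.g (nat_lit 1130) (.e (nat_lit 1348) (nat_lit 102) (.e (nat_lit 286751) (nat_lit 10) (.e (nat_lit 344115) (nat_lit 20) (.e (nat_lit 507907) (nat_lit 0) (.e (nat_lit 5401) (nat_lit 302) (.e (nat_lit 65568) (nat_lit 2) (.e (nat_lit 98048) (nat_lit 18) .nil))))))) (.g (nat_lit 4) .nil .nil))) 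
(.lf (nat_lit 50159) (.g (nat_lit 2158) (.e (nat_lit 1348) (nat_lit 102) (.e (nat_lit 286759) (nat_lit 12) (.e (nat_lit 385068) (nat_lit 26) (.e (nat_lit 532513) (nat_lit 3) (.e (nat_lit 114710) (nat_lit 21) (.e (nat_lit 57688) (nat_lit 156) (.e (nat_lit 163871) (nat_lit 2) (.e (nat_lit 196691) (nat_lit 18) .nil)))))))) (.g (nat_lit 4) .nil .nil)))) (.nd (nat_lit 5) 
(.lf (nat_lit 50143) (.g (nat_lit 2296) (.e (nat_lit 1348) (nat_lit 102) (.e (nat_lit 286759) (nat_lit 12) (.e (nat_lit 392960) (nat_lit 24) (.e (nat_lit 516151) (nat_lit 9) (.e (nat_lit 426211) (nat_lit 9) (.e (nat_lit 426025) (nat_lit 0) (.e (nat_lit 3478) (nat_lit 218) (.e (nat_lit 704829) (nat_lit 14) .nil)))))))) (.g (nat_lit 5) .nil .nil))) 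
(.lf (nat_lit 50175) (.g (nat_lit 2834) (.e (nat_lit 1348) (nat_lit 102) (.e (nat_lit 286759) (nat_lit 12) (.e (nat_lit 385072) (nat_lit 31) (.e (nat_lit 573493) (nat_lit 15) (.e (nat_lit 81953) (nat_lit 22) (.e (nat_lit 98048) (nat_lit 18) .nil)))))) (.g (nat_lit 4) .nil .nil)))))))))

noncomputable def tv698 : DT := (.nd (nat_lit 0) (.nd (nat_lit 1) (.nd (nat_lit 2) (.nd (nat_lit 3) (.nd (nat_lit 4) (.nd (nat_lit 5) 
(.lf (nat_lit 50176) (.g (nat_lit 3393) (.e (nat_lit 1348) (nat_lit 102) (.e (nat_lit 286759) (nat_lit 12) (.e (nat_lit 385073) (nat_lit 31) (.e (nat_lit 573493) (nat_lit 15) (.e (nat_lit 81953) (nat_lit 22) (.e (nat_lit 98048) (nat_lit 18) .nil)))))) (.g (nat_lit 5) .nil .nil))) 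
(.lf (nat_lit 50208) (.g (nat_lit 3775) (.e (nat_lit 1348) (nat_lit 102) (.e (nat_lit 286759) (nat_lit 12) (.e (nat_lit 385074) (nat_lit 31) (.e (nat_lit 573456) (nat_lit 9) (.e (nat_lit 1453) (nat_lit 108) (.e (nat_lit 336099) (nat_lit 9) (.e (nat_lit 336013) (nat_lit 2) (.e (nat_lit 98048) (nat_lit 18) .nil)))))))) (.g (nat_lit 7) .nil .nil)))) (.nd (nat_lit 5) 
(.lf (nat_lit 50192) (.g (nat_lit 3754) (.e (nat_lit 1348) (nat_lit 102) (.e (nat_lit 286759) (nat_lit 12) (.e (nat_lit 385074) (nat_lit 31) (.e (nat_lit 573453) (nat_lit 9) .nil)))) .nil)) 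
(.lf (nat_lit 50224) (.g (nat_lit 2821) (.e (nat_lit 1348) (nat_lit 102) (.e (nat_lit 286759) (nat_lit 12) (.e (nat_lit 385074) (nat_lit 31) (.e (nat_lit 573456) (nat_lit 9) (.e (nat_lit 1576) (nat_lit 110) (.e (nat_lit 352311) (nat_lit 22) (.e (nat_lit 98048) (nat_lit 18) .nil))))))) (.g (nat_lit 4) .nil .nil))))) (.nd (nat_lit 4) (.nd (nat_lit 5) 
(.lf (nat_lit 50184) (.g (nat_lit 5124) (.e (nat_lit 1348) (nat_lit 102) (.e (nat_lit 286759) (nat_lit 12) (.e (nat_lit 385074) (nat_lit 31) (.e (nat_lit 573451) (nat_lit 9) (.e (nat_lit 1572) (nat_lit 110) .nil))))) .nil)) 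
(.lf (nat_lit 50216) (.g (nat_lit 3181) (.e (nat_lit 1348) (nat_lit 102) (.e (nat_lit 286759) (nat_lit 12) (.e (nat_lit 385074) (nat_lit 31) (.e (nat_lit 573456) (nat_lit 9) (.e (nat_lit 1564) (nat_lit 110) (.e (nat_lit 352311) (nat_lit 22) (.e (nat_lit 98048) (nat_lit 18) .nil))))))) (.g (nat_lit 4) .nil .nil)))) (.nd (nat_lit 5) 
(.lf (nat_lit 50200) (.g (nat_lit 3582) (.e (nat_lit 1348) (nat_lit 102) (.e (nat_lit 286759) (nat_lit 12) (.e (nat_lit 385074) (nat_lit 31) (.e (nat_lit 573456) (nat_lit 9) (.e (nat_lit 1439) (nat_lit 108) (.e (nat_lit 336099) (nat_lit 9) (.e (nat_lit 336013) (nat_lit 2) (.e (nat_lit 98048) (nat_lit 18) .nil)))))))) (.g (nat_lit 6) .nil .nil))) 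
(.lf (nat_lit 50232) (.g (nat_lit 2722) (.e (nat_lit 1348) (nat_lit 102) (.e (nat_lit 286759) (nat_lit 12) (.e (nat_lit 385074) (nat_lit 31) (.e (nat_lit 573456) (nat_lit 9) (.e (nat_lit 1616) (nat_lit 113) .nil))))) .nil))))) (.nd (nat_lit 3) (.nd (nat_lit 4) (.nd (nat_lit 5) 
(.lf (nat_lit 50180) (.g (nat_lit 4211) (.e (nat_lit 1348) (nat_lit 102) (.e (nat_lit 286759) (nat_lit 12) (.e (nat_lit 385074) (nat_lit 31) (.e (nat_lit 573449) (nat_lit 9) (.e (nat_lit 1562) (nat_lit 110) .nil))))) .nil)) 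
(.lf (nat_lit 50212) (.g (nat_lit 4052) (.e (nat_lit 1348) (nat_lit 102) (.e (nat_lit 286759) (nat_lit 12) (.e (nat_lit 385074) (nat_lit 31) (.e (nat_lit 573456) (nat_lit 9) (.e (nat_lit 1559) (nat_lit 110) (.e (nat_lit 352312) (nat_lit 22) (.e (nat_lit 98048) (nat_lit 18) .nil))))))) (.g (nat_lit 6) .nil .nil)))) (.nd (nat_lit 5) 
(.lf (nat_lit 50196) (.g (nat_lit 4384) (.e (nat_lit 1348) (nat_lit 102) (.e (nat_lit 286759) (nat_lit 12) (.e (nat_lit 385074) (nat_lit 31) (.e (nat_lit 573454) (nat_lit 9) (.e (nat_lit 1613) (nat_lit 113) .nil))))) .nil)) 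
(.lf (nat_lit 50228) (.g (nat_lit 2765) (.e (nat_lit 1348) (nat_lit 102) (.e (nat_lit 286759) (nat_lit 12) (.e (nat_lit 385074) (nat_lit 31) (.e (nat_lit 573456) (nat_lit 9) (.e (nat_lit 1596) (nat_lit 111) .nil))))) .nil)))) (.nd (nat_lit 4) (.nd (nat_lit 5) 
(.lf (nat_lit 50188) (.g (nat_lit 3574) (.e (nat_lit 1348) (nat_lit 102) (.e (nat_lit 286759) (nat_lit 12) (.e (nat_lit 385074) (nat_lit 31) (.e (nat_lit 573452) (nat_lit 9) (.e (nat_lit 1553) (nat_lit 110) .nil))))) .nil)) 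
(.lf (nat_lit 50220) (.g (nat_lit 4059) (.e (nat_lit 1348) (nat_lit 102) (.e (nat_lit 286759) (nat_lit 12) (.e (nat_lit 385074) (nat_lit 31) (.e (nat_lit 573456) (nat_lit 9) (.e (nat_lit 1567) (nat_lit 110) (.e (nat_lit 352312) (nat_lit 22) (.e (nat_lit 98048) (nat_lit 18) .nil))))))) (.g (nat_lit 6) .nil .nil)))) (.nd (nat_lit 5) 
(.lf (nat_lit 50204) (.g (nat_lit 3740) (.e (nat_lit 1348) (nat_lit 102) (.e (nat_lit 286759) (nat_lit 12) (.e (nat_lit 385074) (nat_lit 31) (.e (nat_lit 573456) (nat_lit 9) (.e (nat_lit 1446) (nat_lit 108) (.e (nat_lit 336099) (nat_lit 9) (.e (nat_lit 336013) (nat_lit 2) (.e (nat_lit 98048) (nat_lit 18) .nil)))))))) (.g (nat_lit 6) .nil .nil))) 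
(.lf (nat_lit 50236) (.g (nat_lit 3215) (.e (nat_lit 1348) (nat_lit 102) (.e (nat_lit 286759) (nat_lit 12) (.e (nat_lit 385074) (nat_lit 31) (.e (nat_lit 573457) (nat_lit 9) (.e (nat_lit 1562) (nat_lit 110) (.e (nat_lit 352312) (nat_lit 22) (.e (nat_lit 98048) (nat_lit 18) .nil))))))) (.g (nat_lit 4) .nil .nil))))))) (.nd (nat_lit 2) (.nd (nat_lit 3) (.nd (nat_lit 4) (.nd (nat_lit 5) 
(.lf (nat_lit 50178) (.g (nat_lit 3706) (.e (nat_lit 1348) (nat_lit 102) (.e (nat_lit 286759) (nat_lit 12) (.e (nat_lit 385074) (nat_lit 31) (.e (nat_lit 573448) (nat_lit 9) .nil)))) .nil)) 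
(.lf (nat_lit 50210) (.g (nat_lit 3749) (.e (nat_lit 1348) (nat_lit 102) (.e (nat_lit 286759) (nat_lit 12) (.e (nat_lit 385074) (nat_lit 31) (.e (nat_lit 573456) (nat_lit 9) (.e (nat_lit 1461) (nat_lit 108) (.e (nat_lit 336099) (nat_lit 9) (.e (nat_lit 336013) (nat_lit 2) (.e (nat_lit 98048) (nat_lit 18) .nil)))))))) (.g (nat_lit 7) .nil .nil)))) (.nd (nat_lit 5) 
(.lf (nat_lit 50194) (.g (nat_lit 4440) (.e (nat_lit 1348) (nat_lit 102) (.e (nat_lit 286759) (nat_lit 12) (.e (nat_lit 385074) (nat_lit 31) (.e (nat_lit 573454) (nat_lit 9) (.e (nat_lit 7936) (nat_lit 108) (.e (nat_lit 336099) (nat_lit 9) (.e (nat_lit 336013) (nat_lit 2) (.e (nat_lit 98048) (nat_lit 18) .nil)))))))) (.g (nat_lit 4) .nil .nil))) 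
(.lf (nat_lit 50226) (.g (nat_lit 2805) (.e (nat_lit 1348) (nat_lit 102) (.e (nat_lit 286759) (nat_lit 12) (.e (nat_lit 385074) (nat_lit 31) (.e (nat_lit 573456) (nat_lit 9) (.e (nat_lit 1590) (nat_lit 111) (.e (nat_lit 360459) (nat_lit 1) (.e (nat_lit 507648) (nat_lit 0) .nil))))))) (.g (nat_lit 4) .nil .nil))))) (.nd (nat_lit 4) (.nd (nat_lit 5) 
(.lf (nat_lit 50186) (.g (nat_lit 4761) (.e (nat_lit 1348) (nat_lit 102) (.e (nat_lit 286759) (nat_lit 12) (.e (nat_lit 385074) (nat_lit 31) (.e (nat_lit 573451) (nat_lit 9) (.e (nat_lit 1595) (nat_lit 111) (.e (nat_lit 360458) (nat_lit 1) (.e (nat_lit 499764) (nat_lit 0) .nil))))))) (.g (nat_lit 4) .nil .nil))) 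
(.lf (nat_lit 50218) (.g (nat_lit 2745) (.e (nat_lit 1348) (nat_lit 102) (.e (nat_lit 286759) (nat_lit 12) (.e (nat_lit 385074) (nat_lit 31) (.e (nat_lit 573456) (nat_lit 9) (.e (nat_lit 1566) (nat_lit 110) (.e (nat_lit 352311) (nat_lit 22) (.e (nat_lit 98048) (nat_lit 18) .nil))))))) (.g (nat_lit 4) .nil .nil)))) (.nd (nat_lit 5) 
(.lf (nat_lit 50202) (.g (nat_lit 4329) (.e (nat_lit 1348) (nat_lit 102) (.e (nat_lit 286759) (nat_lit 12) (.e (nat_lit 385074) (nat_lit 31) (.e (nat_lit 573456) (nat_lit 9) (.e (nat_lit 1443) (nat_lit 108) (.e (nat_lit 336099) (nat_lit 9) (.e (nat_lit 336013) (nat_lit 2) (.e (nat_lit 98048) (nat_lit 18) .nil)))))))) (.g (nat_lit 7) .nil .nil))) 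
(.lf (nat_lit 50234) (.g (nat_lit 3653) (.e (nat_lit 1348) (nat_lit 102) (.e (nat_lit 286759) (nat_lit 12) (.e (nat_lit 385074) (nat_lit 31) (.e (nat_lit 573457) (nat_lit 9) (.e (nat_lit 1449) (nat_lit 108) (.e (nat_lit 336099) (nat_lit 9) (.e (nat_lit 336013) (nat_lit 2) (.e (nat_lit 98048) (nat_lit 18) .nil)))))))) (.g (nat_lit 6) .nil .nil)))))) 
(.nd (nat_lit 3) (.nd (nat_lit 4) (.nd (nat_lit 5) 
(.lf (nat_lit 50182) (.g (nat_lit 3760) (.e (nat_lit 1348) (nat_lit 102) (.e (nat_lit 286759) (nat_lit 12) (.e (nat_lit 385074) (nat_lit 31) (.e (nat_lit 573450) (nat_lit 9) .nil)))) .nil)) 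
(.lf (nat_lit 50214) (.g (nat_lit 3516) (.e (nat_lit 1348) (nat_lit 102) (.e (nat_lit 286759) (nat_lit 12) (.e (nat_lit 385074) (nat_lit 31) (.e (nat_lit 573456) (nat_lit 9) (.e (nat_lit 1563) (nat_lit 110) (.e (nat_lit 352311) (nat_lit 22) (.e (nat_lit 98048) (nat_lit 18) .nil))))))) (.g (nat_lit 5) .nil .nil)))) (.nd (nat_lit 5) 
(.lf (nat_lit 50198) (.g (nat_lit 1592) (.e (nat_lit 1348) (nat_lit 102) (.e (nat_lit 286759) (nat_lit 12) (.e (nat_lit 385074) (nat_lit 31) (.e (nat_lit 573456) (nat_lit 9) .nil)))) .nil)) 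
(.lf (nat_lit 50230) (.g (nat_lit 2737) (.e (nat_lit 1348) (nat_lit 102) (.e (nat_lit 286759) (nat_lit 12) (.e (nat_lit 385074) (nat_lit 31) (.e (nat_lit 573456) (nat_lit 9) (.e (nat_lit 1598) (nat_lit 111) .nil))))) .nil)))) (.nd (nat_lit 4) (.nd (nat_lit 5) 
(.lf (nat_lit 50190) (.g (nat_lit 3578) (.e (nat_lit 1348) (nat_lit 102) (.e (nat_lit 286759) (nat_lit 12) (.e (nat_lit 385074) (nat_lit 31) (.e (nat_lit 573452) (nat_lit 9) (.e (nat_lit 1567) (nat_lit 110) .nil))))) .nil)) 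
(.lf (nat_lit 50222) (.g (nat_lit 4202) (.e (nat_lit 1348) (nat_lit 102) (.e (nat_lit 286759) (nat_lit 12) (.e (nat_lit 385074) (nat_lit 31) (.e (nat_lit 573456) (nat_lit 9) (.e (nat_lit 1572) (nat_lit 110) (.e (nat_lit 352312) (nat_lit 22) (.e (nat_lit 98048) (nat_lit 18) .nil))))))) (.g (nat_lit 6) .nil .nil)))) (.nd (nat_lit 5) 
(.lf (nat_lit 50206) (.g (nat_lit 4189) (.e (nat_lit 1348) (nat_lit 102) (.e (nat_lit 286759) (nat_lit 12) (.e (nat_lit 385074) (nat_lit 31) (.e (nat_lit 573456) (nat_lit 9) (.e (nat_lit 1449) (nat_lit 108) (.e (nat_lit 336099) (nat_lit 9) (.e (nat_lit 336013) (nat_lit 2) (.e (nat_lit 98048) (nat_lit 18) .nil)))))))) (.g (nat_lit 7) .nil .nil))) 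
(.lf (nat_lit 50238) (.g (nat_lit 2772) (.e (nat_lit 1348) (nat_lit 102) (.e (nat_lit 286759) (nat_lit 12) (.e (nat_lit 385074) (nat_lit 31) (.e (nat_lit 573457) (nat_lit 9) (.e (nat_lit 1572) (nat_lit 110) .nil))))) .nil))))))) (.nd (nat_lit 1) (.nd (nat_lit 2) (.nd (nat_lit 3) (.nd (nat_lit 4) (.nd (nat_lit 5) 
(.lf (nat_lit 50177) (.g (nat_lit 262) (.e (nat_lit 1348) (nat_lit 102) (.e (nat_lit 286759) (nat_lit 12) (.e (nat_lit 385074) (nat_lit 31) .nil))) .nil)) 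
(.lf (nat_lit 50209) (.g (nat_lit 4348) (.e (nat_lit 1348) (nat_lit 102) (.e (nat_lit 286759) (nat_lit 12) (.e (nat_lit 385074) (nat_lit 31) (.e (nat_lit 573456) (nat_lit 9) (.e (nat_lit 1455) (nat_lit 108) (.e (nat_lit 336099) (nat_lit 9) (.e (nat_lit 336013) (nat_lit 2) (.e (nat_lit 98048) (nat_lit 18) .nil)))))))) (.g (nat_lit 7) .nil .nil)))) (.nd (nat_lit 5) 
(.lf (nat_lit 50193) (.g (nat_lit 2937) (.e (nat_lit 1348) (nat_lit 102) (.e (nat_lit 286759) (nat_lit 12) (.e (nat_lit 385074) (nat_lit 31) (.e (nat_lit 573454) (nat_lit 9) .nil)))) .nil)) 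
(.lf (nat_lit 50225) (.g (nat_lit 2722) (.e (nat_lit 1348) (nat_lit 102) (.e (nat_lit 286759) (nat_lit 12) (.e (nat_lit 385074) (nat_lit 31) (.e (nat_lit 573456) (nat_lit 9) (.e (nat_lit 1580) (nat_lit 111) .nil))))) .nil)))) (.nd (nat_lit 4) (.nd (nat_lit 5) 
(.lf (nat_lit 50185) (.g (nat_lit 4721) (.e (nat_lit 1348) (nat_lit 102) (.e (nat_lit 286759) (nat_lit 12) (.e (nat_lit 385074) (nat_lit 31) (.e (nat_lit 573451) (nat_lit 9) (.e (nat_lit 1595) (nat_lit 111) .nil))))) .nil)) 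
(.lf (nat_lit 50217) (.g (nat_lit 3346) (.e (nat_lit 1348) (nat_lit 102) (.e (nat_lit 286759) (nat_lit 12) (.e (nat_lit 385074) (nat_lit 31) (.e (nat_lit 573456) (nat_lit 9) (.e (nat_lit 1564) (nat_lit 110) (.e (nat_lit 352312) (nat_lit 22) (.e (nat_lit 98048) (nat_lit 18) .nil))))))) (.g (nat_lit 5) .nil .nil)))) (.nd (nat_lit 5) 
(.lf (nat_lit 50201) (.g (nat_lit 3707) (.e (nat_lit 1348) (nat_lit 102) (.e (nat_lit 286759) (nat_lit 12) (.e (nat_lit 385074) (nat_lit 31) (.e (nat_lit 573456) (nat_lit 9) (.e (nat_lit 1442) (nat_lit 108) (.e (nat_lit 336099) (nat_lit 9) (.e (nat_lit 336013) (nat_lit 2) (.e (nat_lit 98048) (nat_lit 18) .nil)))))))) (.g (nat_lit 6) .nil .nil))) 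
(.lf (nat_lit 50233) (.g (nat_lit 2773) (.e (nat_lit 1348) (nat_lit 102) (.e (nat_lit 286759) (nat_lit 12) (.e (nat_lit 385074) (nat_lit 31) (.e (nat_lit 573457) (nat_lit 9) (.e (nat_lit 1413) (nat_lit 108) .nil))))) .nil))))) (.nd (nat_lit 3) (.nd (nat_lit 4) (.nd (nat_lit 5) 
(.lf (nat_lit 50181) (.g (nat_lit 4211) (.e (nat_lit 1348) (nat_lit 102) (.e (nat_lit 286759) (nat_lit 12) (.e (nat_lit 385074) (nat_lit 31) (.e (nat_lit 573449) (nat_lit 9) (.e (nat_lit 1571) (nat_lit 110) .nil))))) .nil)) 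
(.lf (nat_lit 50213) (.g (nat_lit 3931) (.e (nat_lit 1348) (nat_lit 102) (.e (nat_lit 286759) (nat_lit 12) (.e (nat_lit 385074) (nat_lit 31) (.e (nat_lit 573456) (nat_lit 9) (.e (nat_lit 1562) (nat_lit 110) (.e (nat_lit 352312) (nat_lit 22) (.e (nat_lit 98048) (nat_lit 18) .nil))))))) (.g (nat_lit 6) .nil .nil)))) (.nd (nat_lit 5) 
(.lf (nat_lit 50197) (.g (nat_lit 3793) (.e (nat_lit 1348) (nat_lit 102) (.e (nat_lit 286759) (nat_lit 12) (.e (nat_lit 385074) (nat_lit 31) (.e (nat_lit 573455) (nat_lit 9) .nil)))) .nil)) 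
(.lf (nat_lit 50229) (.g (nat_lit 2770) (.e (nat_lit 1348) (nat_lit 102) (.e (nat_lit 286759) (nat_lit 12) (.e (nat_lit 385074) (nat_lit 31) (.e (nat_lit 573456) (nat_lit 9) (.e (nat_lit 1596) (nat_lit 111) (.e (nat_lit 360459) (nat_lit 1) (.e (nat_lit 507648) (nat_lit 0) .nil))))))) (.g (nat_lit 4) .nil .nil))))) (.nd (nat_lit 4) (.nd (nat_lit 5) 
(.lf (nat_lit 50189) (.g (nat_lit 3635) (.e (nat_lit 1348) (nat_lit 102) (.e (nat_lit 286759) (nat_lit 12) (.e (nat_lit 385074) (nat_lit 31) (.e (nat_lit 573452) (nat_lit 9) (.e (nat_lit 1562) (nat_lit 110) (.e (nat_lit 352312) (nat_lit 22) (.e (nat_lit 98048) (nat_lit 18) .nil))))))) (.g (nat_lit 4) .nil .nil))) 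
(.lf (nat_lit 50221) (.g (nat_lit 3387) (.e (nat_lit 1348) (nat_lit 102) (.e (nat_lit 286759) (nat_lit 12) (.e (nat_lit 385074) (nat_lit 31) (.e (nat_lit 573456) (nat_lit 9) (.e (nat_lit 1569) (nat_lit 110) (.e (nat_lit 352312) (nat_lit 22) (.e (nat_lit 98048) (nat_lit 18) .nil))))))) (.g (nat_lit 5) .nil .nil)))) (.nd (nat_lit 5) 
(.lf (nat_lit 50205) (.g (nat_lit 3882) (.e (nat_lit 1348) (nat_lit 102) (.e (nat_lit 286759) (nat_lit 12) (.e (nat_lit 385074) (nat_lit 31) (.e (nat_lit 573456) (nat_lit 9) (.e (nat_lit 1447) (nat_lit 108) (.e (nat_lit 336099) (nat_lit 9) (.e (nat_lit 336013) (nat_lit 2) (.e (nat_lit 98048) (nat_lit 18) .nil)))))))) (.g (nat_lit 7) .nil .nil))) 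
(.lf (nat_lit 50237) (.g (nat_lit 3759) (.e (nat_lit 1348) (nat_lit 102) (.e (nat_lit 286759) (nat_lit 12) (.e (nat_lit 385074) (nat_lit 31) (.e (nat_lit 573457) (nat_lit 9) (.e (nat_lit 1569) (nat_lit 110) (.e (nat_lit 352312) (nat_lit 22) (.e (nat_lit 98048) (nat_lit 18) .nil))))))) (.g (nat_lit 6) .nil .nil))))))) (.nd (nat_lit 2) (.nd (nat_lit 3) (.nd (nat_lit 4) (.nd (nat_lit 5) 
(.lf (nat_lit 50179) (.g (nat_lit 2997) (.e (nat_lit 1348) (nat_lit 102) (.e (nat_lit 286759) (nat_lit 12) (.e (nat_lit 385074) (nat_lit 31) (.e (nat_lit 573449) (nat_lit 9) .nil)))) .nil)) 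
(.lf (nat_lit 50211) (.g (nat_lit 3958) (.e (nat_lit 1348) (nat_lit 102) (.e (nat_lit 286759) (nat_lit 12) (.e (nat_lit 385074) (nat_lit 31) (.e (nat_lit 573456) (nat_lit 9) (.e (nat_lit 1553) (nat_lit 110) (.e (nat_lit 352312) (nat_lit 22) (.e (nat_lit 98048) (nat_lit 18) .nil))))))) (.g (nat_lit 6) .nil .nil)))) (.nd (nat_lit 5) 
(.lf (nat_lit 50195) (.g (nat_lit 4123) (.e (nat_lit 1348) (nat_lit 102) (.e (nat_lit 286759) (nat_lit 12) (.e (nat_lit 385074) (nat_lit 31) (.e (nat_lit 573454) (nat_lit 9) (.e (nat_lit 7936) (nat_lit 110) .nil))))) .nil)) 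
(.lf (nat_lit 50227) (.g (nat_lit 2727) (.e (nat_lit 1348) (nat_lit 102) (.e (nat_lit 286759) (nat_lit 12) (.e (nat_lit 385074) (nat_lit 31) (.e (nat_lit 573456) (nat_lit 9) (.e (nat_lit 1592) (nat_lit 111) .nil))))) .nil)))) (.nd (nat_lit 4) (.nd (nat_lit 5) 
(.lf (nat_lit 50187) (.g (nat_lit 2584) (.e (nat_lit 1348) (nat_lit 102) (.e (nat_lit 286759) (nat_lit 12) (.e (nat_lit 385074) (nat_lit 31) (.e (nat_lit 573452) (nat_lit 9) .nil)))) .nil)) 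
(.lf (nat_lit 50219) (.g (nat_lit 3936) (.e (nat_lit 1348) (nat_lit 102) (.e (nat_lit 286759) (nat_lit 12) (.e (nat_lit 385074) (nat_lit 31) (.e (nat_lit 573456) (nat_lit 9) (.e (nat_lit 1566) (nat_lit 110) (.e (nat_lit 352312) (nat_lit 22) (.e (nat_lit 98048) (nat_lit 18) .nil))))))) (.g (nat_lit 6) .nil .nil)))) (.nd (nat_lit 5) 
(.lf (nat_lit 50203) (.g (nat_lit 3801) (.e (nat_lit 1348) (nat_lit 102) (.e (nat_lit 286759) (nat_lit 12) (.e (nat_lit 385074) (nat_lit 31) (.e (nat_lit 573456) (nat_lit 9) (.e (nat_lit 1444) (nat_lit 108) (.e (nat_lit 336099) (nat_lit 9) (.e (nat_lit 336013) (nat_lit 2) (.e (nat_lit 98048) (nat_lit 18) .nil)))))))) (.g (nat_lit 6) .nil .nil))) 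
(.lf (nat_lit 50235) (.g (nat_lit 3024) (.e (nat_lit 1348) (nat_lit 102) (.e (nat_lit 286759) (nat_lit 12) (.e (nat_lit 385074) (nat_lit 31) (.e (nat_lit 573457) (nat_lit 9) (.e (nat_lit 1553) (nat_lit 110) (.e (nat_lit 352312) (nat_lit 22) (.e (nat_lit 98048) (nat_lit 18) .nil))))))) (.g (nat_lit 4) .nil .nil)))))) (.nd (nat_lit 3) (.nd (nat_lit 4) (.nd (nat_lit 5) 
(.lf (nat_lit 50183) (.g (nat_lit 3793) (.e (nat_lit 1348) (nat_lit 102) (.e (nat_lit 286759) (nat_lit 12) (.e (nat_lit 385074) (nat_lit 31) (.e (nat_lit 573451) (nat_lit 9) .nil)))) .nil)) 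
(.lf (nat_lit 50215) (.g (nat_lit 4508) (.e (nat_lit 1348) (nat_lit 102) (.e (nat_lit 286759) (nat_lit 12) (.e (nat_lit 385074) (nat_lit 31) (.e (nat_lit 573456) (nat_lit 9) (.e (nat_lit 1563) (nat_lit 110) (.e (nat_lit 352312) (nat_lit 22) (.e (nat_lit 98048) (nat_lit 18) .nil))))))) (.g (nat_lit 6) .nil .nil)))) (.nd (nat_lit 5) 
(.lf (nat_lit 50199) (.g (nat_lit 3922) (.e (nat_lit 1348) (nat_lit 102) (.e (nat_lit 286759) (nat_lit 12) (.e (nat_lit 385074) (nat_lit 31) (.e (nat_lit 573456) (nat_lit 9) (.e (nat_lit 1413) (nat_lit 108) (.e (nat_lit 336099) (nat_lit 9) (.e (nat_lit 336013) (nat_lit 2) (.e (nat_lit 98048) (nat_lit 18) .nil)))))))) (.g (nat_lit 7) .nil .nil))) 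
(.lf (nat_lit 50231) (.g (nat_lit 2722) (.e (nat_lit 1348) (nat_lit 102) (.e (nat_lit 286759) (nat_lit 12) (.e (nat_lit 385074) (nat_lit 31) (.e (nat_lit 573456) (nat_lit 9) (.e (nat_lit 1599) (nat_lit 111) .nil))))) .nil)))) (.nd (nat_lit 4) (.nd (nat_lit 5) 
(.lf (nat_lit 50191) (.g (nat_lit 3574) (.e (nat_lit 1348) (nat_lit 102) (.e (nat_lit 286759) (nat_lit 12) (.e (nat_lit 385074) (nat_lit 31) (.e (nat_lit 573452) (nat_lit 9) (.e (nat_lit 1572) (nat_lit 110) .nil))))) .nil)) 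
(.lf (nat_lit 50223) (.g (nat_lit 3350) (.e (nat_lit 1348) (nat_lit 102) (.e (nat_lit 286759) (nat_lit 12) (.e (nat_lit 385074) (nat_lit 31) (.e (nat_lit 573456) (nat_lit 9) (.e (nat_lit 1573) (nat_lit 110) (.e (nat_lit 352311) (nat_lit 22) (.e (nat_lit 98048) (nat_lit 18) .nil))))))) (.g (nat_lit 4) .nil .nil)))) (.nd (nat_lit 5) 
(.lf (nat_lit 50207) (.g (nat_lit 3880) (.e (nat_lit 1348) (nat_lit 102) (.e (nat_lit 286759) (nat_lit 12) (.e (nat_lit 385074) (nat_lit 31) (.e (nat_lit 573456) (nat_lit 9) (.e (nat_lit 1452) (nat_lit 108) (.e (nat_lit 336099) (nat_lit 9) (.e (nat_lit 336013) (nat_lit 2) (.e (nat_lit 98048) (nat_lit 18) .nil)))))))) (.g (nat_lit 7) .nil .nil))) 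
(.lf (nat_lit 50239) (.g (nat_lit 3742) (.e (nat_lit 1348) (nat_lit 102) (.e (nat_lit 286759) (nat_lit 12) (.e (nat_lit 385074) (nat_lit 31) (.e (nat_lit 573458) (nat_lit 9) .nil)))) .nil))))))))

noncomputable def tv699 : DT := (.nd (nat_lit 0) (.nd (nat_lit 1) (.nd (nat_lit 2) (.nd (nat_lit 3) (.nd (nat_lit 4) (.nd (nat_lit 5) 
(.lf (nat_lit 50240) (.g (nat_lit 4937) (.e (nat_lit 1348) (nat_lit 102) (.e (nat_lit 286759) (nat_lit 12) (.e (nat_lit 385074) (nat_lit 31) (.e (nat_lit 573458) (nat_lit 9) (.e (nat_lit 1457) (nat_lit 108) .nil))))) .nil)) 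
(.lf (nat_lit 50272) (.g (nat_lit 3674) (.e (nat_lit 1348) (nat_lit 102) (.e (nat_lit 286759) (nat_lit 12) (.e (nat_lit 385074) (nat_lit 31) (.e (nat_lit 573484) (nat_lit 13) (.e (nat_lit 65586) (nat_lit 7) (.e (nat_lit 319500) (nat_lit 10) (.e (nat_lit 612) (nat_lit 47) (.e (nat_lit 548866) (nat_lit 0) .nil)))))))) (.g (nat_lit 4) .nil .nil)))) (.nd (nat_lit 5) 
(.lf (nat_lit 50256) (.g (nat_lit 6176) (.e (nat_lit 1348) (nat_lit 102) (.e (nat_lit 286759) (nat_lit 12) (.e (nat_lit 385074) (nat_lit 31) (.e (nat_lit 573481) (nat_lit 13) (.e (nat_lit 65598) (nat_lit 9) (.e (nat_lit 336013) (nat_lit 2) (.e (nat_lit 98048) (nat_lit 18) .nil))))))) (.g (nat_lit 6) .nil .nil))) 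
(.lf (nat_lit 50288) (.g (nat_lit 4457) (.e (nat_lit 1348) (nat_lit 102) (.e (nat_lit 286759) (nat_lit 12) (.e (nat_lit 385074) (nat_lit 31) (.e (nat_lit 573484) (nat_lit 13) (.e (nat_lit 73472) (nat_lit 9) (.e (nat_lit 336013) (nat_lit 2) (.e (nat_lit 98048) (nat_lit 18) .nil))))))) (.g (nat_lit 6) .nil .nil))))) (.nd (nat_lit 4) (.nd (nat_lit 5) 
(.lf (nat_lit 50248) (.g (nat_lit 3679) (.e (nat_lit 1348) (nat_lit 102) (.e (nat_lit 286759) (nat_lit 12) (.e (nat_lit 385074) (nat_lit 31) (.e (nat_lit 573477) (nat_lit 12) (.e (nat_lit 65280) (nat_lit 191) (.e (nat_lit 65568) (nat_lit 2) (.e (nat_lit 98048) (nat_lit 18) .nil))))))) (.g (nat_lit 4) .nil .nil))) 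
(.lf (nat_lit 50280) (.g (nat_lit 5312) (.e (nat_lit 1348) (nat_lit 102) (.e (nat_lit 286759) (nat_lit 12) (.e (nat_lit 385074) (nat_lit 31) (.e (nat_lit 573484) (nat_lit 13) (.e (nat_lit 65598) (nat_lit 9) (.e (nat_lit 336013) (nat_lit 2) (.e (nat_lit 98048) (nat_lit 18) .nil))))))) (.g (nat_lit 6) .nil .nil)))) (.nd (nat_lit 5) 
(.lf (nat_lit 50264) (.g (nat_lit 4235) (.e (nat_lit 1348) (nat_lit 102) (.e (nat_lit 286759) (nat_lit 12) (.e (nat_lit 385074) (nat_lit 31) (.e (nat_lit 573482) (nat_lit 13) (.e (nat_lit 65601) (nat_lit 9) .nil))))) .nil)) 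
(.lf (nat_lit 50296) (.g (nat_lit 2806) (.e (nat_lit 1348) (nat_lit 102) (.e (nat_lit 286759) (nat_lit 12) (.e (nat_lit 385074) (nat_lit 31) (.e (nat_lit 573484) (nat_lit 13) (.e (nat_lit 65610) (nat_lit 10) (.e (nat_lit 344106) (nat_lit 19) (.e (nat_lit 507648) (nat_lit 0) .nil))))))) (.g (nat_lit 5) .nil .nil)))))) (.nd (nat_lit 3) (.nd (nat_lit 4) (.nd (nat_lit 5) 
(.lf (nat_lit 50244) (.g (nat_lit 3756) (.e (nat_lit 1348) (nat_lit 102) (.e (nat_lit 286759) (nat_lit 12) (.e (nat_lit 385074) (nat_lit 31) (.e (nat_lit 573463) (nat_lit 9) .nil)))) .nil)) 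
(.lf (nat_lit 50276) (.g (nat_lit 3284) (.e (nat_lit 1348) (nat_lit 102) (.e (nat_lit 286759) (nat_lit 12) (.e (nat_lit 385074) (nat_lit 31) (.e (nat_lit 573484) (nat_lit 13) (.e (nat_lit 65592) (nat_lit 9) (.e (nat_lit 336005) (nat_lit 2) (.e (nat_lit 98048) (nat_lit 18) .nil))))))) (.g (nat_lit 4) .nil .nil)))) (.nd (nat_lit 5) 
(.lf (nat_lit 50260) (.g (nat_lit 4096) (.e (nat_lit 1348) (nat_lit 102) (.e (nat_lit 286759) (nat_lit 12) (.e (nat_lit 385074) (nat_lit 31) (.e (nat_lit 573482) (nat_lit 13) (.e (nat_lit 65595) (nat_lit 9) .nil))))) .nil)) 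
(.lf (nat_lit 50292) (.g (nat_lit 4314) (.e (nat_lit 1348) (nat_lit 102) (.e (nat_lit 286759) (nat_lit 12) (.e (nat_lit 385074) (nat_lit 31) (.e (nat_lit 573484) (nat_lit 13) (.e (nat_lit 65610) (nat_lit 10) (.e (nat_lit 344105) (nat_lit 19) (.e (nat_lit 499764) (nat_lit 0) .nil))))))) (.g (nat_lit 7) .nil .nil))))) (.nd (nat_lit 4) (.nd (nat_lit 5) 
(.lf (nat_lit 50252) (.g (nat_lit 4058) (.e (nat_lit 1348) (nat_lit 102) (.e (nat_lit 286759) (nat_lit 12) (.e (nat_lit 385074) (nat_lit 31) (.e (nat_lit 573480) (nat_lit 13) (.e (nat_lit 65597) (nat_lit 9) .nil))))) .nil)) 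
(.lf (nat_lit 50284) (.g (nat_lit 3590) (.e (nat_lit 1348) (nat_lit 102) (.e (nat_lit 286759) (nat_lit 12) (.e (nat_lit 385074) (nat_lit 31) (.e (nat_lit 573484) (nat_lit 13) (.e (nat_lit 65604) (nat_lit 9) .nil))))) .nil))) (.nd (nat_lit 5) 
(.lf (nat_lit 50268) (.g (nat_lit 3455) (.e (nat_lit 1348) (nat_lit 102) (.e (nat_lit 286759) (nat_lit 12) (.e (nat_lit 385074) (nat_lit 31) (.e (nat_lit 573482) (nat_lit 13) (.e (nat_lit 65608) (nat_lit 9) .nil))))) .nil)) 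
(.lf (nat_lit 50300) (.g (nat_lit 3006) (.e (nat_lit 1348) (nat_lit 102) (.e (nat_lit 286759) (nat_lit 12) (.e (nat_lit 385074) (nat_lit 31) (.e (nat_lit 573484) (nat_lit 13) (.e (nat_lit 65610) (nat_lit 10) (.e (nat_lit 344112) (nat_lit 19) (.e (nat_lit 507648) (nat_lit 0) .nil))))))) (.g (nat_lit 5) .nil .nil))))))) (.nd (nat_lit 2) (.nd (nat_lit 3) (.nd (nat_lit 4) (.nd (nat_lit 5) 
(.lf (nat_lit 50242) (.g (nat_lit 3789) (.e (nat_lit 1348) (nat_lit 102) (.e (nat_lit 286759) (nat_lit 12) (.e (nat_lit 385074) (nat_lit 31) (.e (nat_lit 573461) (nat_lit 9) .nil)))) .nil)) 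
(.lf (nat_lit 50274) (.g (nat_lit 2970) (.e (nat_lit 1348) (nat_lit 102) (.e (nat_lit 286759) (nat_lit 12) (.e (nat_lit 385074) (nat_lit 31) (.e (nat_lit 573484) (nat_lit 13) (.e (nat_lit 65592) (nat_lit 9) .nil))))) .nil))) (.nd (nat_lit 5) 
(.lf (nat_lit 50258) (.g (nat_lit 4345) (.e (nat_lit 1348) (nat_lit 102) (.e (nat_lit 286759) (nat_lit 12) (.e (nat_lit 385074) (nat_lit 31) (.e (nat_lit 573482) (nat_lit 13) (.e (nat_lit 65589) (nat_lit 9) (.e (nat_lit 336013) (nat_lit 2) (.e (nat_lit 98048) (nat_lit 18) .nil))))))) (.g (nat_lit 5) .nil .nil))) 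
(.lf (nat_lit 50290) (.g (nat_lit 3307) (.e (nat_lit 1348) (nat_lit 102) (.e (nat_lit 286759) (nat_lit 12) (.e (nat_lit 385074) (nat_lit 31) (.e (nat_lit 573484) (nat_lit 13) (.e (nat_lit 65609) (nat_lit 10) (.e (nat_lit 344105) (nat_lit 19) (.e (nat_lit 499764) (nat_lit 0) .nil))))))) (.g (nat_lit 4) .nil .nil))))) (.nd (nat_lit 4) (.nd (nat_lit 5) 
(.lf (nat_lit 50250) (.g (nat_lit 4916) (.e (nat_lit 1348) (nat_lit 102) (.e (nat_lit 286759) (nat_lit 12) (.e (nat_lit 385074) (nat_lit 31) (.e (nat_lit 573479) (nat_lit 13) (.e (nat_lit 65598) (nat_lit 9) (.e (nat_lit 336013) (nat_lit 2) (.e (nat_lit 98048) (nat_lit 18) .nil))))))) (.g (nat_lit 6) .nil .nil))) 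
(.lf (nat_lit 50282) (.g (nat_lit 4633) (.e (nat_lit 1348) (nat_lit 102) (.e (nat_lit 286759) (nat_lit 12) (.e (nat_lit 385074) (nat_lit 31) (.e (nat_lit 573484) (nat_lit 13) (.e (nat_lit 65599) (nat_lit 9) (.e (nat_lit 336013) (nat_lit 2) (.e (nat_lit 98048) (nat_lit 18) .nil))))))) (.g (nat_lit 6) .nil .nil)))) (.nd (nat_lit 5) 
(.lf (nat_lit 50266) (.g (nat_lit 4306) (.e (nat_lit 1348) (nat_lit 102) (.e (nat_lit 286759) (nat_lit 12) (.e (nat_lit 385074) (nat_lit 31) (.e (nat_lit 573482) (nat_lit 13) (.e (nat_lit 65605) (nat_lit 9) .nil))))) .nil)) 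
(.lf (nat_lit 50298) (.g (nat_lit 3365) (.e (nat_lit 1348) (nat_lit 102) (.e (nat_lit 286759) (nat_lit 12) (.e (nat_lit 385074) (nat_lit 31) (.e (nat_lit 573484) (nat_lit 13) (.e (nat_lit 65610) (nat_lit 10) (.e (nat_lit 344109) (nat_lit 19) (.e (nat_lit 507648) (nat_lit 0) .nil))))))) (.g (nat_lit 5) .nil .nil)))))) (.nd (nat_lit 3) (.nd (nat_lit 4) (.nd (nat_lit 5) 
(.lf (nat_lit 50246) (.g (nat_lit 3787) (.e (nat_lit 1348) (nat_lit 102) (.e (nat_lit 286759) (nat_lit 12) (.e (nat_lit 385074) (nat_lit 31) (.e (nat_lit 573465) (nat_lit 9) .nil)))) .nil)) 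
(.lf (nat_lit 50278) (.g (nat_lit 3397) (.e (nat_lit 1348) (nat_lit 102) (.e (nat_lit 286759) (nat_lit 12) (.e (nat_lit 385074) (nat_lit 31) (.e (nat_lit 573484) (nat_lit 13) (.e (nat_lit 65593) (nat_lit 9) .nil))))) .nil))) (.nd (nat_lit 5) 
(.lf (nat_lit 50262) (.g (nat_lit 5411) (.e (nat_lit 1348) (nat_lit 102) (.e (nat_lit 286759) (nat_lit 12) (.e (nat_lit 385074) (nat_lit 31) (.e (nat_lit 573482) (nat_lit 13) (.e (nat_lit 65598) (nat_lit 9) (.e (nat_lit 336013) (nat_lit 2) (.e (nat_lit 98048) (nat_lit 18) .nil))))))) (.g (nat_lit 6) .nil .nil))) 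
(.lf (nat_lit 50294) (.g (nat_lit 3870) (.e (nat_lit 1348) (nat_lit 102) (.e (nat_lit 286759) (nat_lit 12) (.e (nat_lit 385074) (nat_lit 31) (.e (nat_lit 573484) (nat_lit 13) (.e (nat_lit 65610) (nat_lit 10) (.e (nat_lit 344106) (nat_lit 19) (.e (nat_lit 499762) (nat_lit 0) .nil))))))) (.g (nat_lit 7) .nil .nil))))) (.nd (nat_lit 4) (.nd (nat_lit 5) 
(.lf (nat_lit 50254) (.g (nat_lit 4382) (.e (nat_lit 1348) (nat_lit 102) (.e (nat_lit 286759) (nat_lit 12) (.e (nat_lit 385074) (nat_lit 31) (.e (nat_lit 573480) (nat_lit 13) (.e (nat_lit 65603) (nat_lit 9) (.e (nat_lit 336013) (nat_lit 2) (.e (nat_lit 98048) (nat_lit 18) .nil))))))) (.g (nat_lit 5) .nil .nil))) 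
(.lf (nat_lit 50286) (.g (nat_lit 2567) (.e (nat_lit 1348) (nat_lit 102) (.e (nat_lit 286759) (nat_lit 12) (.e (nat_lit 385074) (nat_lit 31) (.e (nat_lit 573484) (nat_lit 13) (.e (nat_lit 73472) (nat_lit 9) .nil))))) .nil))) (.nd (nat_lit 5) 
(.lf (nat_lit 50270) (.g (nat_lit 1354) (.e (nat_lit 1348) (nat_lit 102) (.e (nat_lit 286759) (nat_lit 12) (.e (nat_lit 385074) (nat_lit 31) (.e (nat_lit 573484) (nat_lit 13) .nil)))) .nil)) 
(.lf (nat_lit 50302) (.g (nat_lit 3528) (.e (nat_lit 1348) (nat_lit 102) (.e (nat_lit 286759) (nat_lit 12) (.e (nat_lit 385074) (nat_lit 31) (.e (nat_lit 573484) (nat_lit 13) (.e (nat_lit 65616) (nat_lit 10) .nil))))) .nil))))))) (.nd (nat_lit 1) (.nd (nat_lit 2) (.nd (nat_lit 3) (.nd (nat_lit 4) (.nd (nat_lit 5) 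
(.lf (nat_lit 50241) (.g (nat_lit 3302) (.e (nat_lit 1348) (nat_lit 102) (.e (nat_lit 286759) (nat_lit 12) (.e (nat_lit 385074) (nat_lit 31) (.e (nat_lit 573459) (nat_lit 9) .nil)))) .nil)) 
(.lf (nat_lit 50273) (.g (nat_lit 4588) (.e (nat_lit 1348) (nat_lit 102) (.e (nat_lit 286759) (nat_lit 12) (.e (nat_lit 385074) (nat_lit 31) (.e (nat_lit 573484) (nat_lit 13) (.e (nat_lit 65589) (nat_lit 9) (.e (nat_lit 336013) (nat_lit 2) (.e (nat_lit 98048) (nat_lit 18) .nil))))))) (.g (nat_lit 6) .nil .nil)))) (.nd (nat_lit 5) 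
(.lf (nat_lit 50257) (.g (nat_lit 1986) (.e (nat_lit 1348) (nat_lit 102) (.e (nat_lit 286759) (nat_lit 12) (.e (nat_lit 385074) (nat_lit 31) (.e (nat_lit 573482) (nat_lit 13) .nil)))) .nil)) 
(.lf (nat_lit 50289) (.g (nat_lit 3270) (.e (nat_lit 1348) (nat_lit 102) (.e (nat_lit 286759) (nat_lit 12) (.e (nat_lit 385074) (nat_lit 31) (.e (nat_lit 573484) (nat_lit 13) (.e (nat_lit 65609) (nat_lit 10) .nil))))) .nil)))) (.nd (nat_lit 4) (.nd (nat_lit 5) 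
(.lf (nat_lit 50249) (.g (nat_lit 2354) (.e (nat_lit 1348) (nat_lit 102) (.e (nat_lit 286759) (nat_lit 12) (.e (nat_lit 385074) (nat_lit 31) (.e (nat_lit 573479) (nat_lit 13) .nil)))) .nil)) 
(.lf (nat_lit 50281) (.g (nat_lit 2893) (.e (nat_lit 1348) (nat_lit 102) (.e (nat_lit 286759) (nat_lit 12) (.e (nat_lit 385074) (nat_lit 31) (.e (nat_lit 573484) (nat_lit 13) (.e (nat_lit 65599) (nat_lit 9) .nil))))) .nil))) (.nd (nat_lit 5) 
(.lf (nat_lit 50265) (.g (nat_lit 4306) (.e (nat_lit 1348) (nat_lit 102) (.e (nat_lit 286759) (nat_lit 12) (.e (nat_lit 385074) (nat_lit 31) (.e (nat_lit 573482) (nat_lit 13) (.e (nat_lit 65602) (nat_lit 9) .nil))))) .nil)) 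
(.lf (nat_lit 50297) (.g (nat_lit 4112) (.e (nat_lit 1348) (nat_lit 102) (.e (nat_lit 286759) (nat_lit 12) (.e (nat_lit 385074) (nat_lit 31) (.e (nat_lit 573484) (nat_lit 13) (.e (nat_lit 65610) (nat_lit 10) (.e (nat_lit 344107) (nat_lit 19) (.e (nat_lit 507648) (nat_lit 0) .nil))))))) (.g (nat_lit 6) .nil .nil)))))) (.nd (nat_lit 3) (.nd (nat_lit 4) (.nd (nat_lit 5) 
(.lf (nat_lit 50245) (.g (nat_lit 4656) (.e (nat_lit 1348) (nat_lit 102) (.e (nat_lit 286759) (nat_lit 12) (.e (nat_lit 385074) (nat_lit 31) (.e (nat_lit 573463) (nat_lit 9) (.e (nat_lit 1454) (nat_lit 108) (.e (nat_lit 336099) (nat_lit 9) (.e (nat_lit 336013) (nat_lit 2) (.e (nat_lit 98048) (nat_lit 18) .nil)))))))) (.g (nat_lit 4) .nil .nil))) 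
(.lf (nat_lit 50277) (.g (nat_lit 3458) (.e (nat_lit 1348) (nat_lit 102) (.e (nat_lit 286759) (nat_lit 12) (.e (nat_lit 385074) (nat_lit 31) (.e (nat_lit 573484) (nat_lit 13) (.e (nat_lit 65592) (nat_lit 9) (.e (nat_lit 336008) (nat_lit 2) (.e (nat_lit 98048) (nat_lit 18) .nil))))))) (.g (nat_lit 4) .nil .nil)))) (.nd (nat_lit 5) 
(.lf (nat_lit 50261) (.g (nat_lit 4422) (.e (nat_lit 1348) (nat_lit 102) (.e (nat_lit 286759) (nat_lit 12) (.e (nat_lit 385074) (nat_lit 31) (.e (nat_lit 573482) (nat_lit 13) (.e (nat_lit 65597) (nat_lit 9) (.e (nat_lit 336013) (nat_lit 2) (.e (nat_lit 98048) (nat_lit 18) .nil))))))) (.g (nat_lit 4) .nil .nil))) 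
(.lf (nat_lit 50293) (.g (nat_lit 3600) (.e (nat_lit 1348) (nat_lit 102) (.e (nat_lit 286759) (nat_lit 12) (.e (nat_lit 385074) (nat_lit 31) (.e (nat_lit 573484) (nat_lit 13) (.e (nat_lit 65610) (nat_lit 10) (.e (nat_lit 344106) (nat_lit 19) (.e (nat_lit 499719) (nat_lit 0) .nil))))))) (.g (nat_lit 6) .nil .nil))))) (.nd (nat_lit 4) (.nd (nat_lit 5) 
(.lf (nat_lit 50253) (.g (nat_lit 5653) (.e (nat_lit 1348) (nat_lit 102) (.e (nat_lit 286759) (nat_lit 12) (.e (nat_lit 385074) (nat_lit 31) (.e (nat_lit 573480) (nat_lit 13) (.e (nat_lit 65598) (nat_lit 9) (.e (nat_lit 336013) (nat_lit 2) (.e (nat_lit 98048) (nat_lit 18) .nil))))))) (.g (nat_lit 6) .nil .nil))) 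
(.lf (nat_lit 50285) (.g (nat_lit 4199) (.e (nat_lit 1348) (nat_lit 102) (.e (nat_lit 286759) (nat_lit 12) (.e (nat_lit 385074) (nat_lit 31) (.e (nat_lit 573484) (nat_lit 13) (.e (nat_lit 65605) (nat_lit 9) (.e (nat_lit 336013) (nat_lit 2) (.e (nat_lit 98048) (nat_lit 18) .nil))))))) (.g (nat_lit 5) .nil .nil)))) (.nd (nat_lit 5) 
(.lf (nat_lit 50269) (.g (nat_lit 4841) (.e (nat_lit 1348) (nat_lit 102) (.e (nat_lit 286759) (nat_lit 12) (.e (nat_lit 385074) (nat_lit 31) (.e (nat_lit 573483) (nat_lit 13) (.e (nat_lit 65598) (nat_lit 9) (.e (nat_lit 336013) (nat_lit 2) (.e (nat_lit 98048) (nat_lit 18) .nil))))))) (.g (nat_lit 6) .nil .nil))) 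
(.lf (nat_lit 50301) (.g (nat_lit 3486) (.e (nat_lit 1348) (nat_lit 102) (.e (nat_lit 286759) (nat_lit 12) (.e (nat_lit 385074) (nat_lit 31) (.e (nat_lit 573484) (nat_lit 13) (.e (nat_lit 65614) (nat_lit 10) .nil))))) .nil)))))) (.nd (nat_lit 2) (.nd (nat_lit 3) (.nd (nat_lit 4) (.nd (nat_lit 5) 
(.lf (nat_lit 50243) (.g (nat_lit 3788) (.e (nat_lit 1348) (nat_lit 102) (.e (nat_lit 286759) (nat_lit 12) (.e (nat_lit 385074) (nat_lit 31) (.e (nat_lit 573462) (nat_lit 9) .nil)))) .nil)) 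
(.lf (nat_lit 50275) (.g (nat_lit 3406) (.e (nat_lit 1348) (nat_lit 102) (.e (nat_lit 286759) (nat_lit 12) (.e (nat_lit 385074) (nat_lit 31) (.e (nat_lit 573484) (nat_lit 13) (.e (nat_lit 65592) (nat_lit 9) (.e (nat_lit 336001) (nat_lit 2) (.e (nat_lit 98048) (nat_lit 18) .nil))))))) (.g (nat_lit 4) .nil .nil)))) (.nd (nat_lit 5) 
(.lf (nat_lit 50259) (.g (nat_lit 4335) (.e (nat_lit 1348) (nat_lit 102) (.e (nat_lit 286759) (nat_lit 12) (.e (nat_lit 385074) (nat_lit 31) (.e (nat_lit 573482) (nat_lit 13) (.e (nat_lit 65594) (nat_lit 9) .nil))))) .nil)) 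
(.lf (nat_lit 50291) (.g (nat_lit 4404) (.e (nat_lit 1348) (nat_lit 102) (.e (nat_lit 286759) (nat_lit 12) (.e (nat_lit 385074) (nat_lit 31) (.e (nat_lit 573484) (nat_lit 13) (.e (nat_lit 65610) (nat_lit 10) (.e (nat_lit 344097) (nat_lit 18) (.e (nat_lit 3853) (nat_lit 233) (.e (nat_lit 59) (nat_lit 0) .nil)))))))) (.g (nat_lit 6) .nil .nil))))) (.nd (nat_lit 4) (.nd (nat_lit 5) 
(.lf (nat_lit 50251) (.g (nat_lit 3076) (.e (nat_lit 1348) (nat_lit 102) (.e (nat_lit 286759) (nat_lit 12) (.e (nat_lit 385074) (nat_lit 31) (.e (nat_lit 573480) (nat_lit 13) .nil)))) .nil)) 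
(.lf (nat_lit 50283) (.g (nat_lit 4073) (.e (nat_lit 1348) (nat_lit 102) (.e (nat_lit 286759) (nat_lit 12) (.e (nat_lit 385074) (nat_lit 31) (.e (nat_lit 573484) (nat_lit 13) (.e (nat_lit 65601) (nat_lit 9) (.e (nat_lit 336013) (nat_lit 2) (.e (nat_lit 98048) (nat_lit 18) .nil))))))) (.g (nat_lit 4) .nil .nil)))) (.nd (nat_lit 5) 
(.lf (nat_lit 50267) (.g (nat_lit 4322) (.e (nat_lit 1348) (nat_lit 102) (.e (nat_lit 286759) (nat_lit 12) (.e (nat_lit 385074) (nat_lit 31) (.e (nat_lit 573482) (nat_lit 13) (.e (nat_lit 65607) (nat_lit 9) .nil))))) .nil)) 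
(.lf (nat_lit 50299) (.g (nat_lit 3402) (.e (nat_lit 1348) (nat_lit 102) (.e (nat_lit 286759) (nat_lit 12) (.e (nat_lit 385074) (nat_lit 31) (.e (nat_lit 573484) (nat_lit 13) (.e (nat_lit 65610) (nat_lit 10) (.e (nat_lit 344112) (nat_lit 19) (.e (nat_lit 499755) (nat_lit 0) .nil))))))) (.g (nat_lit 5) .nil .nil)))))) (.nd (nat_lit 3) (.nd (nat_lit 4) (.nd (nat_lit 5) 
(.lf (nat_lit 50247) (.g (nat_lit 2042) (.e (nat_lit 1348) (nat_lit 102) (.e (nat_lit 286759) (nat_lit 12) (.e (nat_lit 385074) (nat_lit 31) (.e (nat_lit 573477) (nat_lit 12) .nil)))) .nil)) 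
(.lf (nat_lit 50279) (.g (nat_lit 3660) (.e (nat_lit 1348) (nat_lit 102) (.e (nat_lit 286759) (nat_lit 12) (.e (nat_lit 385074) (nat_lit 31) (.e (nat_lit 573484) (nat_lit 13) (.e (nat_lit 65595) (nat_lit 9) (.e (nat_lit 336013) (nat_lit 2) (.e (nat_lit 98048) (nat_lit 18) .nil))))))) (.g (nat_lit 4) .nil .nil)))) (.nd (nat_lit 5) 
(.lf (nat_lit 50263) (.g (nat_lit 4303) (.e (nat_lit 1348) (nat_lit 102) (.e (nat_lit 286759) (nat_lit 12) (.e (nat_lit 385074) (nat_lit 31) (.e (nat_lit 573482) (nat_lit 13) (.e (nat_lit 65600) (nat_lit 9) .nil))))) .nil)) 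
(.lf (nat_lit 50295) (.g (nat_lit 3269) (.e (nat_lit 1348) (nat_lit 102) (.e (nat_lit 286759) (nat_lit 12) (.e (nat_lit 385074) (nat_lit 31) (.e (nat_lit 573484) (nat_lit 13) (.e (nat_lit 65610) (nat_lit 10) (.e (nat_lit 344106) (nat_lit 19) (.e (nat_lit 499764) (nat_lit 0) .nil))))))) (.g (nat_lit 5) .nil .nil))))) (.nd (nat_lit 4) (.nd (nat_lit 5) 
(.lf (nat_lit 50255) (.g (nat_lit 3553) (.e (nat_lit 1348) (nat_lit 102) (.e (nat_lit 286759) (nat_lit 12) (.e (nat_lit 385074) (nat_lit 31) (.e (nat_lit 573481) (nat_lit 13) .nil)))) .nil)) 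
(.lf (nat_lit 50287) (.g (nat_lit 3165) (.e (nat_lit 1348) (nat_lit 102) (.e (nat_lit 286759) (nat_lit 12) (.e (nat_lit 385074) (nat_lit 31) (.e (nat_lit 573484) (nat_lit 13) (.e (nat_lit 73472) (nat_lit 9) (.e (nat_lit 336011) (nat_lit 2) (.e (nat_lit 98048) (nat_lit 18) .nil))))))) (.g (nat_lit 4) .nil .nil)))) (.nd (nat_lit 5) 
(.lf (nat_lit 50271) (.g (nat_lit 2918) (.e (nat_lit 1348) (nat_lit 102) (.e (nat_lit 286759) (nat_lit 12) (.e (nat_lit 385074) (nat_lit 31) (.e (nat_lit 573484) (nat_lit 13) (.e (nat_lit 65586) (nat_lit 7) .nil))))) .nil)) 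
(.lf (nat_lit 50303) (.g (nat_lit 1908) (.e (nat_lit 1348) (nat_lit 102) (.e (nat_lit 286759) (nat_lit 12) (.e (nat_lit 385074) (nat_lit 31) (.e (nat_lit 573484) (nat_lit 13) (.e (nat_lit 65617) (nat_lit 10) .nil))))) .nil))))))))

noncomputable def tv700 : DT := (.nd (nat_lit 0) (.nd (nat_lit 1) (.nd (nat_lit 2) (.nd (nat_lit 3) (.nd (nat_lit 4) (.nd (nat_lit 5) 
(.lf (nat_lit 50304) (.g (nat_lit 4010) (.e (nat_lit 1348) (nat_lit 102) (.e (nat_lit 286759) (nat_lit 12) (.e (nat_lit 385074) (nat_lit 31) (.e (nat_lit 573484) (nat_lit 13) (.e (nat_lit 65617) (nat_lit 10) (.e (nat_lit 344096) (nat_lit 18) (.e (nat_lit 3862) (nat_lit 233) (.e (nat_lit 59) (nat_lit 0) .nil)))))))) (.g (nat_lit 6) .nil .nil))) 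
(.lf (nat_lit 50336) (.g (nat_lit 2678) (.e (nat_lit 1348) (nat_lit 102) (.e (nat_lit 286759) (nat_lit 12) (.e (nat_lit 385074) (nat_lit 31) (.e (nat_lit 573485) (nat_lit 13) (.e (nat_lit 65605) (nat_lit 9) (.e (nat_lit 336013) (nat_lit 2) (.e (nat_lit 98048) (nat_lit 18) .nil))))))) (.g (nat_lit 4) .nil .nil)))) (.nd (nat_lit 5) 
(.lf (nat_lit 50320) (.g (nat_lit 4292) (.e (nat_lit 1348) (nat_lit 102) (.e (nat_lit 286759) (nat_lit 12) (.e (nat_lit 385074) (nat_lit 31) (.e (nat_lit 573485) (nat_lit 13) (.e (nat_lit 65598) (nat_lit 9) (.e (nat_lit 336013) (nat_lit 2) (.e (nat_lit 98048) (nat_lit 18) .nil))))))) (.g (nat_lit 6) .nil .nil))) 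
(.lf (nat_lit 50352) (.g (nat_lit 4665) (.e (nat_lit 1348) (nat_lit 102) (.e (nat_lit 286759) (nat_lit 12) (.e (nat_lit 385074) (nat_lit 31) (.e (nat_lit 573490) (nat_lit 15) (.e (nat_lit 81953) (nat_lit 22) (.e (nat_lit 98048) (nat_lit 18) .nil)))))) (.g (nat_lit 5) .nil .nil))))) (.nd (nat_lit 4) (.nd (nat_lit 5) 
(.lf (nat_lit 50312) (.g (nat_lit 3735) (.e (nat_lit 1348) (nat_lit 102) (.e (nat_lit 286759) (nat_lit 12) (.e (nat_lit 385074) (nat_lit 31) (.e (nat_lit 573484) (nat_lit 13) (.e (nat_lit 65617) (nat_lit 10) (.e (nat_lit 344112) (nat_lit 19) (.e (nat_lit 499755) (nat_lit 0) .nil))))))) (.g (nat_lit 5) .nil .nil))) 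
(.lf (nat_lit 50344) (.g (nat_lit 1840) (.e (nat_lit 1348) (nat_lit 102) (.e (nat_lit 286759) (nat_lit 12) (.e (nat_lit 385074) (nat_lit 31) (.e (nat_lit 573487) (nat_lit 14) .nil)))) .nil))) (.nd (nat_lit 5) 
(.lf (nat_lit 50328) (.g (nat_lit 2101) (.e (nat_lit 1348) (nat_lit 102) (.e (nat_lit 286759) (nat_lit 12) (.e (nat_lit 385074) (nat_lit 31) (.e (nat_lit 573485) (nat_lit 13) (.e (nat_lit 65604) (nat_lit 9) (.e (nat_lit 335902) (nat_lit 0) (.e (nat_lit 1691) (nat_lit 117) (.e (nat_lit 499764) (nat_lit 0) .nil)))))))) (.g (nat_lit 4) .nil .nil))) 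
(.lf (nat_lit 50360) (.g (nat_lit 2718) (.e (nat_lit 1348) (nat_lit 102) (.e (nat_lit 286759) (nat_lit 12) (.e (nat_lit 385074) (nat_lit 31) (.e (nat_lit 573491) (nat_lit 15) (.e (nat_lit 81946) (nat_lit 20) (.e (nat_lit 1689) (nat_lit 117) (.e (nat_lit 499762) (nat_lit 0) .nil))))))) (.g (nat_lit 5) .nil .nil)))))) (.nd (nat_lit 3) (.nd (nat_lit 4) (.nd (nat_lit 5) 
(.lf (nat_lit 50308) (.g (nat_lit 3164) (.e (nat_lit 1348) (nat_lit 102) (.e (nat_lit 286759) (nat_lit 12) (.e (nat_lit 385074) (nat_lit 31) (.e (nat_lit 573484) (nat_lit 13) (.e (nat_lit 65617) (nat_lit 10) (.e (nat_lit 344106) (nat_lit 19) (.e (nat_lit 499764) (nat_lit 0) .nil))))))) (.g (nat_lit 5) .nil .nil))) 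
(.lf (nat_lit 50340) (.g (nat_lit 2141) (.e (nat_lit 1348) (nat_lit 102) (.e (nat_lit 286759) (nat_lit 12) (.e (nat_lit 385074) (nat_lit 31) (.e (nat_lit 573485) (nat_lit 13) (.e (nat_lit 65619) (nat_lit 10) (.e (nat_lit 344106) (nat_lit 19) (.e (nat_lit 499764) (nat_lit 0) .nil))))))) (.g (nat_lit 4) .nil .nil)))) (.nd (nat_lit 5) 
(.lf (nat_lit 50324) (.g (nat_lit 3821) (.e (nat_lit 1348) (nat_lit 102) (.e (nat_lit 286759) (nat_lit 12) (.e (nat_lit 385074) (nat_lit 31) (.e (nat_lit 573485) (nat_lit 13) (.e (nat_lit 65601) (nat_lit 9) (.e (nat_lit 336013) (nat_lit 2) (.e (nat_lit 98048) (nat_lit 18) .nil))))))) (.g (nat_lit 6) .nil .nil))) 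
(.lf (nat_lit 50356) (.g (nat_lit 2312) (.e (nat_lit 1348) (nat_lit 102) (.e (nat_lit 286759) (nat_lit 12) (.e (nat_lit 385074) (nat_lit 31) (.e (nat_lit 573491) (nat_lit 15) (.e (nat_lit 81943) (nat_lit 20) (.e (nat_lit 1689) (nat_lit 117) (.e (nat_lit 499719) (nat_lit 0) .nil))))))) (.g (nat_lit 5) .nil .nil))))) (.nd (nat_lit 4) (.nd (nat_lit 5) 
(.lf (nat_lit 50316) (.g (nat_lit 3638) (.e (nat_lit 1348) (nat_lit 102) (.e (nat_lit 286759) (nat_lit 12) (.e (nat_lit 385074) (nat_lit 31) (.e (nat_lit 573484) (nat_lit 13) (.e (nat_lit 65617) (nat_lit 10) (.e (nat_lit 352000) (nat_lit 19) (.e (nat_lit 499756) (nat_lit 0) .nil))))))) (.g (nat_lit 5) .nil .nil))) 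
(.lf (nat_lit 50348) (.g (nat_lit 3254) (.e (nat_lit 1348) (nat_lit 102) (.e (nat_lit 286759) (nat_lit 12) (.e (nat_lit 385074) (nat_lit 31) (.e (nat_lit 573487) (nat_lit 14) (.e (nat_lit 81664) (nat_lit 40) (.e (nat_lit 1239) (nat_lit 91) (.e (nat_lit 98048) (nat_lit 18) .nil))))))) (.g (nat_lit 4) .nil .nil)))) (.nd (nat_lit 5) 
(.lf (nat_lit 50332) (.g (nat_lit 2657) (.e (nat_lit 1348) (nat_lit 102) (.e (nat_lit 286759) (nat_lit 12) (.e (nat_lit 385074) (nat_lit 31) (.e (nat_lit 573485) (nat_lit 13) (.e (nat_lit 65604) (nat_lit 9) (.e (nat_lit 336001) (nat_lit 2) (.e (nat_lit 98048) (nat_lit 18) .nil))))))) (.g (nat_lit 5) .nil .nil))) 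
(.lf (nat_lit 50364) (.g (nat_lit 2909) (.e (nat_lit 1348) (nat_lit 102) (.e (nat_lit 286759) (nat_lit 12) (.e (nat_lit 385074) (nat_lit 31) (.e (nat_lit 573491) (nat_lit 15) (.e (nat_lit 81947) (nat_lit 20) (.e (nat_lit 1698) (nat_lit 117) (.e (nat_lit 507648) (nat_lit 0) .nil))))))) (.g (nat_lit 6) .nil .nil))))))) (.nd (nat_lit 2) (.nd (nat_lit 3) (.nd (nat_lit 4) (.nd (nat_lit 5) 
(.lf (nat_lit 50306) (.g (nat_lit 3379) (.e (nat_lit 1348) (nat_lit 102) (.e (nat_lit 286759) (nat_lit 12) (.e (nat_lit 385074) (nat_lit 31) (.e (nat_lit 573484) (nat_lit 13) (.e (nat_lit 65617) (nat_lit 10) (.e (nat_lit 344106) (nat_lit 19) (.e (nat_lit 499719) (nat_lit 0) .nil))))))) (.g (nat_lit 5) .nil .nil))) 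
(.lf (nat_lit 50338) (.g (nat_lit 2536) (.e (nat_lit 1348) (nat_lit 102) (.e (nat_lit 286759) (nat_lit 12) (.e (nat_lit 385074) (nat_lit 31) (.e (nat_lit 573485) (nat_lit 13) (.e (nat_lit 65619) (nat_lit 10) (.e (nat_lit 344106) (nat_lit 19) (.e (nat_lit 499719) (nat_lit 0) .nil))))))) (.g (nat_lit 5) .nil .nil)))) (.nd (nat_lit 5) 
(.lf (nat_lit 50322) (.g (nat_lit 2209) (.e (nat_lit 1348) (nat_lit 102) (.e (nat_lit 286759) (nat_lit 12) (.e (nat_lit 385074) (nat_lit 31) (.e (nat_lit 573485) (nat_lit 13) (.e (nat_lit 65601) (nat_lit 9) (.e (nat_lit 336001) (nat_lit 2) (.e (nat_lit 98048) (nat_lit 18) .nil))))))) (.g (nat_lit 4) .nil .nil))) 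
(.lf (nat_lit 50354) (.g (nat_lit 1879) (.e (nat_lit 1348) (nat_lit 102) (.e (nat_lit 286759) (nat_lit 12) (.e (nat_lit 385074) (nat_lit 31) (.e (nat_lit 573491) (nat_lit 15) (.e (nat_lit 81942) (nat_lit 20) (.e (nat_lit 1698) (nat_lit 117) (.e (nat_lit 507648) (nat_lit 0) .nil))))))) (.g (nat_lit 4) .nil .nil))))) (.nd (nat_lit 4) (.nd (nat_lit 5) 
(.lf (nat_lit 50314) (.g (nat_lit 3555) (.e (nat_lit 1348) (nat_lit 102) (.e (nat_lit 286759) (nat_lit 12) (.e (nat_lit 385074) (nat_lit 31) (.e (nat_lit 573484) (nat_lit 13) (.e (nat_lit 65617) (nat_lit 10) (.e (nat_lit 344113) (nat_lit 19) (.e (nat_lit 499755) (nat_lit 0) .nil))))))) (.g (nat_lit 5) .nil .nil))) 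
(.lf (nat_lit 50346) (.g (nat_lit 4487) (.e (nat_lit 1348) (nat_lit 102) (.e (nat_lit 286759) (nat_lit 12) (.e (nat_lit 385074) (nat_lit 31) (.e (nat_lit 573487) (nat_lit 14) (.e (nat_lit 73729) (nat_lit 0) (.e (nat_lit 4539) (nat_lit 267) (.e (nat_lit 163871) (nat_lit 2) (.e (nat_lit 196691) (nat_lit 18) .nil)))))))) (.g (nat_lit 5) .nil .nil)))) (.nd (nat_lit 5) 
(.lf (nat_lit 50330) (.g (nat_lit 2725) (.e (nat_lit 1348) (nat_lit 102) (.e (nat_lit 286759) (nat_lit 12) (.e (nat_lit 385074) (nat_lit 31) (.e (nat_lit 573485) (nat_lit 13) (.e (nat_lit 65604) (nat_lit 9) (.e (nat_lit 335904) (nat_lit 0) (.e (nat_lit 1691) (nat_lit 117) (.e (nat_lit 499764) (nat_lit 0) .nil)))))))) (.g (nat_lit 5) .nil .nil))) 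
(.lf (nat_lit 50362) (.g (nat_lit 3579) (.e (nat_lit 1348) (nat_lit 102) (.e (nat_lit 286759) (nat_lit 12) (.e (nat_lit 385074) (nat_lit 31) (.e (nat_lit 573491) (nat_lit 15) (.e (nat_lit 81947) (nat_lit 20) (.e (nat_lit 1689) (nat_lit 117) (.e (nat_lit 499719) (nat_lit 0) .nil))))))) (.g (nat_lit 6) .nil .nil)))))) (.nd (nat_lit 3) (.nd (nat_lit 4) (.nd (nat_lit 5) 
(.lf (nat_lit 50310) (.g (nat_lit 3225) (.e (nat_lit 1348) (nat_lit 102) (.e (nat_lit 286759) (nat_lit 12) (.e (nat_lit 385074) (nat_lit 31) (.e (nat_lit 573484) (nat_lit 13) (.e (nat_lit 65617) (nat_lit 10) (.e (nat_lit 344109) (nat_lit 19) (.e (nat_lit 507648) (nat_lit 0) .nil))))))) (.g (nat_lit 5) .nil .nil))) 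
(.lf (nat_lit 50342) (.g (nat_lit 2569) (.e (nat_lit 1348) (nat_lit 102) (.e (nat_lit 286759) (nat_lit 12) (.e (nat_lit 385074) (nat_lit 31) (.e (nat_lit 573485) (nat_lit 13) (.e (nat_lit 65619) (nat_lit 10) (.e (nat_lit 344109) (nat_lit 19) (.e (nat_lit 507648) (nat_lit 0) .nil))))))) (.g (nat_lit 5) .nil .nil)))) (.nd (nat_lit 5) 
(.lf (nat_lit 50326) (.g (nat_lit 2170) (.e (nat_lit 1348) (nat_lit 102) (.e (nat_lit 286759) (nat_lit 12) (.e (nat_lit 385074) (nat_lit 31) (.e (nat_lit 573485) (nat_lit 13) (.e (nat_lit 65604) (nat_lit 9) (.e (nat_lit 335886) (nat_lit 0) (.e (nat_lit 1691) (nat_lit 117) (.e (nat_lit 499764) (nat_lit 0) .nil)))))))) (.g (nat_lit 4) .nil .nil))) 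
(.lf (nat_lit 50358) (.g (nat_lit 2337) (.e (nat_lit 1348) (nat_lit 102) (.e (nat_lit 286759) (nat_lit 12) (.e (nat_lit 385074) (nat_lit 31) (.e (nat_lit 573491) (nat_lit 15) (.e (nat_lit 81943) (nat_lit 20) (.e (nat_lit 1698) (nat_lit 117) (.e (nat_lit 507648) (nat_lit 0) .nil))))))) (.g (nat_lit 6) .nil .nil))))) (.nd (nat_lit 4) (.nd (nat_lit 5) 
(.lf (nat_lit 50318) (.g (nat_lit 1091) (.e (nat_lit 1348) (nat_lit 102) (.e (nat_lit 286759) (nat_lit 12) (.e (nat_lit 385074) (nat_lit 31) (.e (nat_lit 573485) (nat_lit 13) .nil)))) .nil)) 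
(.lf (nat_lit 50350) (.g (nat_lit 3625) (.e (nat_lit 1348) (nat_lit 102) (.e (nat_lit 286759) (nat_lit 12) (.e (nat_lit 385074) (nat_lit 31) (.e (nat_lit 573489) (nat_lit 14) (.e (nat_lit 73731) (nat_lit 0) (.e (nat_lit 4539) (nat_lit 267) (.e (nat_lit 163869) (nat_lit 2) (.e (nat_lit 196691) (nat_lit 18) .nil)))))))) (.g (nat_lit 5) .nil .nil)))) (.nd (nat_lit 5) 
(.lf (nat_lit 50334) (.g (nat_lit 2855) (.e (nat_lit 1348) (nat_lit 102) (.e (nat_lit 286759) (nat_lit 12) (.e (nat_lit 385074) (nat_lit 31) (.e (nat_lit 573485) (nat_lit 13) (.e (nat_lit 65604) (nat_lit 9) (.e (nat_lit 336007) (nat_lit 2) (.e (nat_lit 98048) (nat_lit 18) .nil))))))) (.g (nat_lit 5) .nil .nil))) 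
(.lf (nat_lit 50366) (.g (nat_lit 2580) (.e (nat_lit 1348) (nat_lit 102) (.e (nat_lit 286759) (nat_lit 12) (.e (nat_lit 385074) (nat_lit 31) (.e (nat_lit 573491) (nat_lit 15) (.e (nat_lit 81952) (nat_lit 22) (.e (nat_lit 98048) (nat_lit 18) .nil)))))) (.g (nat_lit 5) .nil .nil)))))))) (.nd (nat_lit 1) (.nd (nat_lit 2) (.nd (nat_lit 3) (.nd (nat_lit 4) (.nd (nat_lit 5) 
(.lf (nat_lit 50305) (.g (nat_lit 4266) (.e (nat_lit 1348) (nat_lit 102) (.e (nat_lit 286759) (nat_lit 12) (.e (nat_lit 385074) (nat_lit 31) (.e (nat_lit 573484) (nat_lit 13) (.e (nat_lit 65617) (nat_lit 10) (.e (nat_lit 344105) (nat_lit 19) (.e (nat_lit 499764) (nat_lit 0) .nil))))))) (.g (nat_lit 0) .nil .nil))) 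
(.lf (nat_lit 50337) (.g (nat_lit 3291) (.e (nat_lit 1348) (nat_lit 102) (.e (nat_lit 286759) (nat_lit 12) (.e (nat_lit 385074) (nat_lit 31) (.e (nat_lit 573485) (nat_lit 13) (.e (nat_lit 65619) (nat_lit 10) (.e (nat_lit 344105) (nat_lit 19) (.e (nat_lit 499764) (nat_lit 0) .nil))))))) (.g (nat_lit 6) .nil .nil)))) (.nd (nat_lit 5) 
(.lf (nat_lit 50321) (.g (nat_lit 2163) (.e (nat_lit 1348) (nat_lit 102) (.e (nat_lit 286759) (nat_lit 12) (.e (nat_lit 385074) (nat_lit 31) (.e (nat_lit 573485) (nat_lit 13) (.e (nat_lit 65601) (nat_lit 9) .nil))))) .nil)) 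
(.lf (nat_lit 50353) (.g (nat_lit 3270) (.e (nat_lit 1348) (nat_lit 102) (.e (nat_lit 286759) (nat_lit 12) (.e (nat_lit 385074) (nat_lit 31) (.e (nat_lit 573491) (nat_lit 15) (.e (nat_lit 81937) (nat_lit 20) (.e (nat_lit 1691) (nat_lit 117) (.e (nat_lit 499764) (nat_lit 0) .nil))))))) (.g (nat_lit 6) .nil .nil))))) (.nd (nat_lit 4) (.nd (nat_lit 5) 
(.lf (nat_lit 50313) (.g (nat_lit 3196) (.e (nat_lit 1348) (nat_lit 102) (.e (nat_lit 286759) (nat_lit 12) (.e (nat_lit 385074) (nat_lit 31) (.e (nat_lit 573484) (nat_lit 13) (.e (nat_lit 65617) (nat_lit 10) (.e (nat_lit 344112) (nat_lit 19) (.e (nat_lit 507648) (nat_lit 0) .nil))))))) (.g (nat_lit 5) .nil .nil))) 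
(.lf (nat_lit 50345) (.g (nat_lit 3718) (.e (nat_lit 1348) (nat_lit 102) (.e (nat_lit 286759) (nat_lit 12) (.e (nat_lit 385074) (nat_lit 31) (.e (nat_lit 573487) (nat_lit 14) (.e (nat_lit 73729) (nat_lit 0) .nil))))) .nil))) (.nd (nat_lit 5) 
(.lf (nat_lit 50329) (.g (nat_lit 2857) (.e (nat_lit 1348) (nat_lit 102) (.e (nat_lit 286759) (nat_lit 12) (.e (nat_lit 385074) (nat_lit 31) (.e (nat_lit 573485) (nat_lit 13) (.e (nat_lit 65604) (nat_lit 9) (.e (nat_lit 335903) (nat_lit 0) (.e (nat_lit 1691) (nat_lit 117) (.e (nat_lit 499764) (nat_lit 0) .nil)))))))) (.g (nat_lit 5) .nil .nil))) 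
(.lf (nat_lit 50361) (.g (nat_lit 2752) (.e (nat_lit 1348) (nat_lit 102) (.e (nat_lit 286759) (nat_lit 12) (.e (nat_lit 385074) (nat_lit 31) (.e (nat_lit 573491) (nat_lit 15) (.e (nat_lit 81946) (nat_lit 20) (.e (nat_lit 1698) (nat_lit 117) (.e (nat_lit 507648) (nat_lit 0) .nil))))))) (.g (nat_lit 6) .nil .nil)))))) (.nd (nat_lit 3) (.nd (nat_lit 4) (.nd (nat_lit 5) 
(.lf (nat_lit 50309) (.g (nat_lit 3636) (.e (nat_lit 1348) (nat_lit 102) (.e (nat_lit 286759) (nat_lit 12) (.e (nat_lit 385074) (nat_lit 31) (.e (nat_lit 573484) (nat_lit 13) (.e (nat_lit 65617) (nat_lit 10) (.e (nat_lit 344107) (nat_lit 19) (.e (nat_lit 507648) (nat_lit 0) .nil))))))) (.g (nat_lit 6) .nil .nil))) 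
(.lf (nat_lit 50341) (.g (nat_lit 3798) (.e (nat_lit 1348) (nat_lit 102) (.e (nat_lit 286759) (nat_lit 12) (.e (nat_lit 385074) (nat_lit 31) (.e (nat_lit 573485) (nat_lit 13) (.e (nat_lit 65619) (nat_lit 10) (.e (nat_lit 344107) (nat_lit 19) (.e (nat_lit 507648) (nat_lit 0) .nil))))))) (.g (nat_lit 6) .nil .nil)))) (.nd (nat_lit 5) 
(.lf (nat_lit 50325) (.g (nat_lit 2722) (.e (nat_lit 1348) (nat_lit 102) (.e (nat_lit 286759) (nat_lit 12) (.e (nat_lit 385074) (nat_lit 31) (.e (nat_lit 573485) (nat_lit 13) (.e (nat_lit 65602) (nat_lit 9) (.e (nat_lit 336013) (nat_lit 2) (.e (nat_lit 98048) (nat_lit 18) .nil))))))) (.g (nat_lit 4) .nil .nil))) 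
(.lf (nat_lit 50357) (.g (nat_lit 2200) (.e (nat_lit 1348) (nat_lit 102) (.e (nat_lit 286759) (nat_lit 12) (.e (nat_lit 385074) (nat_lit 31) (.e (nat_lit 573491) (nat_lit 15) (.e (nat_lit 81943) (nat_lit 20) (.e (nat_lit 1689) (nat_lit 117) (.e (nat_lit 499762) (nat_lit 0) .nil))))))) (.g (nat_lit 5) .nil .nil))))) (.nd (nat_lit 4) (.nd (nat_lit 5) 
(.lf (nat_lit 50317) (.g (nat_lit 3270) (.e (nat_lit 1348) (nat_lit 102) (.e (nat_lit 286759) (nat_lit 12) (.e (nat_lit 385074) (nat_lit 31) (.e (nat_lit 573484) (nat_lit 13) (.e (nat_lit 65617) (nat_lit 10) (.e (nat_lit 352000) (nat_lit 19) (.e (nat_lit 507648) (nat_lit 0) .nil))))))) (.g (nat_lit 5) .nil .nil))) 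
(.lf (nat_lit 50349) (.g (nat_lit 1653) (.e (nat_lit 1348) (nat_lit 102) (.e (nat_lit 286759) (nat_lit 12) (.e (nat_lit 385074) (nat_lit 31) (.e (nat_lit 573489) (nat_lit 14) .nil)))) .nil))) (.nd (nat_lit 5) 
(.lf (nat_lit 50333) (.g (nat_lit 2791) (.e (nat_lit 1348) (nat_lit 102) (.e (nat_lit 286759) (nat_lit 12) (.e (nat_lit 385074) (nat_lit 31) (.e (nat_lit 573485) (nat_lit 13) (.e (nat_lit 65604) (nat_lit 9) (.e (nat_lit 336005) (nat_lit 2) (.e (nat_lit 98048) (nat_lit 18) .nil))))))) (.g (nat_lit 5) .nil .nil))) 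
(.lf (nat_lit 50365) (.g (nat_lit 2966) (.e (nat_lit 1348) (nat_lit 102) (.e (nat_lit 286759) (nat_lit 12) (.e (nat_lit 385074) (nat_lit 31) (.e (nat_lit 573491) (nat_lit 15) (.e (nat_lit 81951) (nat_lit 22) (.e (nat_lit 98048) (nat_lit 18) .nil)))))) (.g (nat_lit 5) .nil .nil))))))) (.nd (nat_lit 2) (.nd (nat_lit 3) (.nd (nat_lit 4) (.nd (nat_lit 5) 
(.lf (nat_lit 50307) (.g (nat_lit 3620) (.e (nat_lit 1348) (nat_lit 102) (.e (nat_lit 286759) (nat_lit 12) (.e (nat_lit 385074) (nat_lit 31) (.e (nat_lit 573484) (nat_lit 13) (.e (nat_lit 65617) (nat_lit 10) (.e (nat_lit 344106) (nat_lit 19) (.e (nat_lit 499762) (nat_lit 0) .nil))))))) (.g (nat_lit 6) .nil .nil))) 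
(.lf (nat_lit 50339) (.g (nat_lit 2804) (.e (nat_lit 1348) (nat_lit 102) (.e (nat_lit 286759) (nat_lit 12) (.e (nat_lit 385074) (nat_lit 31) (.e (nat_lit 573485) (nat_lit 13) (.e (nat_lit 65619) (nat_lit 10) (.e (nat_lit 344106) (nat_lit 19) (.e (nat_lit 499762) (nat_lit 0) .nil))))))) (.g (nat_lit 5) .nil .nil)))) (.nd (nat_lit 5) 
(.lf (nat_lit 50323) (.g (nat_lit 2409) (.e (nat_lit 1348) (nat_lit 102) (.e (nat_lit 286759) (nat_lit 12) (.e (nat_lit 385074) (nat_lit 31) (.e (nat_lit 573485) (nat_lit 13) (.e (nat_lit 65601) (nat_lit 9) (.e (nat_lit 336008) (nat_lit 2) (.e (nat_lit 98048) (nat_lit 18) .nil))))))) (.g (nat_lit 4) .nil .nil))) 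
(.lf (nat_lit 50355) (.g (nat_lit 2230) (.e (nat_lit 1348) (nat_lit 102) (.e (nat_lit 286759) (nat_lit 12) (.e (nat_lit 385074) (nat_lit 31) (.e (nat_lit 573491) (nat_lit 15) (.e (nat_lit 81943) (nat_lit 20) (.e (nat_lit 1682) (nat_lit 117) (.e (nat_lit 499764) (nat_lit 0) .nil))))))) (.g (nat_lit 6) .nil .nil))))) (.nd (nat_lit 4) (.nd (nat_lit 5) 
(.lf (nat_lit 50315) (.g (nat_lit 3521) (.e (nat_lit 1348) (nat_lit 102) (.e (nat_lit 286759) (nat_lit 12) (.e (nat_lit 385074) (nat_lit 31) (.e (nat_lit 573484) (nat_lit 13) (.e (nat_lit 65617) (nat_lit 10) (.e (nat_lit 352000) (nat_lit 19) (.e (nat_lit 499755) (nat_lit 0) .nil))))))) (.g (nat_lit 5) .nil .nil))) 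
(.lf (nat_lit 50347) (.g (nat_lit 3681) (.e (nat_lit 1348) (nat_lit 102) (.e (nat_lit 286759) (nat_lit 12) (.e (nat_lit 385074) (nat_lit 31) (.e (nat_lit 573487) (nat_lit 14) (.e (nat_lit 73785) (nat_lit 40) .nil))))) .nil))) (.nd (nat_lit 5) 
(.lf (nat_lit 50331) (.g (nat_lit 4148) (.e (nat_lit 1348) (nat_lit 102) (.e (nat_lit 286759) (nat_lit 12) (.e (nat_lit 385074) (nat_lit 31) (.e (nat_lit 573485) (nat_lit 13) (.e (nat_lit 65604) (nat_lit 9) (.e (nat_lit 335915) (nat_lit 0) (.e (nat_lit 1691) (nat_lit 117) (.e (nat_lit 499764) (nat_lit 0) .nil)))))))) (.g (nat_lit 0) .nil .nil))) 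
(.lf (nat_lit 50363) (.g (nat_lit 3439) (.e (nat_lit 1348) (nat_lit 102) (.e (nat_lit 286759) (nat_lit 12) (.e (nat_lit 385074) (nat_lit 31) (.e (nat_lit 573491) (nat_lit 15) (.e (nat_lit 81947) (nat_lit 20) (.e (nat_lit 1689) (nat_lit 117) (.e (nat_lit 499762) (nat_lit 0) .nil))))))) (.g (nat_lit 6) .nil .nil)))))) (.nd (nat_lit 3) (.nd (nat_lit 4) (.nd (nat_lit 5) 
(.lf (nat_lit 50311) (.g (nat_lit 3127) (.e (nat_lit 1348) (nat_lit 102) (.e (nat_lit 286759) (nat_lit 12) (.e (nat_lit 385074) (nat_lit 31) (.e (nat_lit 573484) (nat_lit 13) (.e (nat_lit 65617) (nat_lit 10) (.e (nat_lit 344110) (nat_lit 19) (.e (nat_lit 507648) (nat_lit 0) .nil))))))) (.g (nat_lit 5) .nil .nil))) 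
(.lf (nat_lit 50343) (.g (nat_lit 2551) (.e (nat_lit 1348) (nat_lit 102) (.e (nat_lit 286759) (nat_lit 12) (.e (nat_lit 385074) (nat_lit 31) (.e (nat_lit 573485) (nat_lit 13) (.e (nat_lit 65620) (nat_lit 10) .nil))))) .nil))) (.nd (nat_lit 5) 
(.lf (nat_lit 50327) (.g (nat_lit 2871) (.e (nat_lit 1348) (nat_lit 102) (.e (nat_lit 286759) (nat_lit 12) (.e (nat_lit 385074) (nat_lit 31) (.e (nat_lit 573485) (nat_lit 13) (.e (nat_lit 65604) (nat_lit 9) (.e (nat_lit 335900) (nat_lit 0) (.e (nat_lit 1691) (nat_lit 117) (.e (nat_lit 499764) (nat_lit 0) .nil)))))))) (.g (nat_lit 5) .nil .nil))) 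
(.lf (nat_lit 50359) (.g (nat_lit 2858) (.e (nat_lit 1348) (nat_lit 102) (.e (nat_lit 286759) (nat_lit 12) (.e (nat_lit 385074) (nat_lit 31) (.e (nat_lit 573491) (nat_lit 15) (.e (nat_lit 81946) (nat_lit 20) (.e (nat_lit 1689) (nat_lit 117) (.e (nat_lit 499719) (nat_lit 0) .nil))))))) (.g (nat_lit 5) .nil .nil))))) (.nd (nat_lit 4) (.nd (nat_lit 5) 
(.lf (nat_lit 50319) (.g (nat_lit 4103) (.e (nat_lit 1348) (nat_lit 102) (.e (nat_lit 286759) (nat_lit 12) (.e (nat_lit 385074) (nat_lit 31) (.e (nat_lit 573485) (nat_lit 13) (.e (nat_lit 65589) (nat_lit 9) (.e (nat_lit 336013) (nat_lit 2) (.e (nat_lit 98048) (nat_lit 18) .nil))))))) (.g (nat_lit 6) .nil .nil))) 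
(.lf (nat_lit 50351) (.g (nat_lit 2889) (.e (nat_lit 1348) (nat_lit 102) (.e (nat_lit 286759) (nat_lit 12) (.e (nat_lit 385074) (nat_lit 31) (.e (nat_lit 573489) (nat_lit 14) (.e (nat_lit 81664) (nat_lit 40) (.e (nat_lit 1239) (nat_lit 91) (.e (nat_lit 98048) (nat_lit 18) .nil))))))) (.g (nat_lit 4) .nil .nil)))) (.nd (nat_lit 5) 
(.lf (nat_lit 50335) (.g (nat_lit 4181) (.e (nat_lit 1348) (nat_lit 102) (.e (nat_lit 286759) (nat_lit 12) (.e (nat_lit 385074) (nat_lit 31) (.e (nat_lit 573485) (nat_lit 13) (.e (nat_lit 65604) (nat_lit 9) (.e (nat_lit 336013) (nat_lit 2) (.e (nat_lit 98048) (nat_lit 18) .nil))))))) (.g (nat_lit 6) .nil .nil))) 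
(.lf (nat_lit 50367) (.g (nat_lit 4197) (.e (nat_lit 1348) (nat_lit 102) (.e (nat_lit 286759) (nat_lit 12) (.e (nat_lit 385074) (nat_lit 31) (.e (nat_lit 573491) (nat_lit 15) (.e (nat_lit 81953) (nat_lit 22) (.e (nat_lit 98048) (nat_lit 18) .nil)))))) (.g (nat_lit 5) .nil .nil)))))))))

noncomputable def tv701 : DT := (.nd (nat_lit 0) (.nd (nat_lit 1) (.nd (nat_lit 2) (.nd (nat_lit 3) (.nd (nat_lit 4) (.nd (nat_lit 5) 
(.lf (nat_lit 50368) (.g (nat_lit 3499) (.e (nat_lit 1348) (nat_lit 102) (.e (nat_lit 286759) (nat_lit 12) (.e (nat_lit 385074) (nat_lit 31) (.e (nat_lit 573491) (nat_lit 15) (.e (nat_lit 81960) (nat_lit 25) (.e (nat_lit 139299) (nat_lit 18) .nil)))))) (.g (nat_lit 6) .nil .nil))) 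
(.lf (nat_lit 50400) (.g (nat_lit 2889) (.e (nat_lit 1348) (nat_lit 102) (.e (nat_lit 286759) (nat_lit 12) (.e (nat_lit 385106) (nat_lit 50) (.e (nat_lit 786483) (nat_lit 30) (.e (nat_lit 360483) (nat_lit 15) (.e (nat_lit 655104) (nat_lit 14) .nil)))))) (.g (nat_lit 5) .nil .nil)))) (.nd (nat_lit 5) 
(.lf (nat_lit 50384) (.g (nat_lit 3320) (.e (nat_lit 1348) (nat_lit 102) (.e (nat_lit 286759) (nat_lit 12) (.e (nat_lit 385094) (nat_lit 49) (.e (nat_lit 778326) (nat_lit 6) (.e (nat_lit 81937) (nat_lit 20) (.e (nat_lit 1987) (nat_lit 136) (.e (nat_lit 655402) (nat_lit 14) .nil))))))) (.g (nat_lit 6) .nil .nil))) 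
(.lf (nat_lit 50416) (.g (nat_lit 2248) (.e (nat_lit 1348) (nat_lit 102) (.e (nat_lit 286761) (nat_lit 13) (.e (nat_lit 401152) (nat_lit 15) (.e (nat_lit 385107) (nat_lit 51) (.e (nat_lit 794669) (nat_lit 22) (.e (nat_lit 196691) (nat_lit 18) .nil)))))) (.g (nat_lit 5) .nil .nil))))) (.nd (nat_lit 4) (.nd (nat_lit 5) 
(.lf (nat_lit 50376) (.g (nat_lit 3927) (.e (nat_lit 1348) (nat_lit 102) (.e (nat_lit 286759) (nat_lit 12) (.e (nat_lit 385074) (nat_lit 31) (.e (nat_lit 573493) (nat_lit 15) (.e (nat_lit 81962) (nat_lit 25) (.e (nat_lit 147200) (nat_lit 18) .nil)))))) (.g (nat_lit 5) .nil .nil))) 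
(.lf (nat_lit 50408) (.g (nat_lit 1174) (.e (nat_lit 1348) (nat_lit 102) (.e (nat_lit 286761) (nat_lit 13) (.e (nat_lit 393225) (nat_lit 9) (.e (nat_lit 335996) (nat_lit 1) .nil)))) .nil))) (.nd (nat_lit 5) 
(.lf (nat_lit 50392) (.g (nat_lit 2903) (.e (nat_lit 1348) (nat_lit 102) (.e (nat_lit 286759) (nat_lit 12) (.e (nat_lit 385094) (nat_lit 49) (.e (nat_lit 778327) (nat_lit 6) (.e (nat_lit 81946) (nat_lit 20) (.e (nat_lit 1988) (nat_lit 136) (.e (nat_lit 655402) (nat_lit 14) .nil))))))) (.g (nat_lit 5) .nil .nil))) 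
(.lf (nat_lit 50424) (.g (nat_lit 3020) (.e (nat_lit 1348) (nat_lit 102) (.e (nat_lit 286761) (nat_lit 13) (.e (nat_lit 393233) (nat_lit 17) (.e (nat_lit 7523) (nat_lit 402) (.e (nat_lit 1638) (nat_lit 114) (.e (nat_lit 392960) (nat_lit 16) .nil)))))) (.g (nat_lit 5) .nil .nil)))))) (.nd (nat_lit 3) (.nd (nat_lit 4) (.nd (nat_lit 5) 
(.lf (nat_lit 50372) (.g (nat_lit 2683) (.e (nat_lit 1348) (nat_lit 102) (.e (nat_lit 286759) (nat_lit 12) (.e (nat_lit 385074) (nat_lit 31) (.e (nat_lit 573493) (nat_lit 15) (.e (nat_lit 81938) (nat_lit 20) (.e (nat_lit 1698) (nat_lit 117) (.e (nat_lit 507648) (nat_lit 0) .nil))))))) (.g (nat_lit 6) .nil .nil))) 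
(.lf (nat_lit 50404) (.g (nat_lit 2838) (.e (nat_lit 1348) (nat_lit 102) (.e (nat_lit 286760) (nat_lit 13) (.e (nat_lit 393301) (nat_lit 27) (.e (nat_lit 491563) (nat_lit 12) (.e (nat_lit 392960) (nat_lit 16) .nil))))) (.g (nat_lit 4) .nil .nil)))) (.nd (nat_lit 5) 
(.lf (nat_lit 50388) (.g (nat_lit 1180) (.e (nat_lit 1348) (nat_lit 102) (.e (nat_lit 286759) (nat_lit 12) (.e (nat_lit 385094) (nat_lit 49) (.e (nat_lit 778327) (nat_lit 6) .nil)))) .nil)) 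
(.lf (nat_lit 50420) (.g (nat_lit 1441) (.e (nat_lit 1348) (nat_lit 102) (.e (nat_lit 286761) (nat_lit 13) (.e (nat_lit 393233) (nat_lit 17) (.e (nat_lit 7110) (nat_lit 380) .nil)))) .nil)))) (.nd (nat_lit 4) (.nd (nat_lit 5) 
(.lf (nat_lit 50380) (.g (nat_lit 2087) (.e (nat_lit 1348) (nat_lit 102) (.e (nat_lit 286759) (nat_lit 12) (.e (nat_lit 385094) (nat_lit 49) (.e (nat_lit 778323) (nat_lit 5) (.e (nat_lit 81664) (nat_lit 43) (.e (nat_lit 57507) (nat_lit 39) (.e (nat_lit 647203) (nat_lit 14) .nil))))))) (.g (nat_lit 4) .nil .nil))) 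
(.lf (nat_lit 50412) (.g (nat_lit 647) (.e (nat_lit 1348) (nat_lit 102) (.e (nat_lit 286761) (nat_lit 13) (.e (nat_lit 393226) (nat_lit 9) .nil))) .nil))) (.nd (nat_lit 5) 
(.lf (nat_lit 50396) (.g (nat_lit 3008) (.e (nat_lit 1348) (nat_lit 102) (.e (nat_lit 286759) (nat_lit 12) (.e (nat_lit 385105) (nat_lit 50) (.e (nat_lit 786483) (nat_lit 30) (.e (nat_lit 360484) (nat_lit 15) (.e (nat_lit 647203) (nat_lit 14) .nil)))))) (.g (nat_lit 5) .nil .nil))) 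
(.lf (nat_lit 50428) (.g (nat_lit 2665) (.e (nat_lit 1348) (nat_lit 102) (.e (nat_lit 286761) (nat_lit 13) (.e (nat_lit 393234) (nat_lit 17) (.e (nat_lit 2407) (nat_lit 157) .nil)))) .nil)))))) (.nd (nat_lit 2) (.nd (nat_lit 3) (.nd (nat_lit 4) (.nd (nat_lit 5) 
(.lf (nat_lit 50370) (.g (nat_lit 7548) (.e (nat_lit 1348) (nat_lit 102) (.e (nat_lit 286759) (nat_lit 12) (.e (nat_lit 385074) (nat_lit 31) (.e (nat_lit 573492) (nat_lit 15) (.e (nat_lit 81953) (nat_lit 22) (.e (nat_lit 98048) (nat_lit 18) .nil)))))) (.g (nat_lit 5) .nil .nil))) 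
(.lf (nat_lit 50402) (.g (nat_lit 1388) (.e (nat_lit 1348) (nat_lit 102) (.e (nat_lit 286759) (nat_lit 12) (.e (nat_lit 385107) (nat_lit 51) (.e (nat_lit 794684) (nat_lit 25) .nil)))) .nil))) (.nd (nat_lit 5) 
(.lf (nat_lit 50386) (.g (nat_lit 2296) (.e (nat_lit 1348) (nat_lit 102) (.e (nat_lit 286759) (nat_lit 12) (.e (nat_lit 385094) (nat_lit 49) (.e (nat_lit 778326) (nat_lit 6) (.e (nat_lit 81939) (nat_lit 20) (.e (nat_lit 1988) (nat_lit 136) (.e (nat_lit 655402) (nat_lit 14) .nil))))))) (.g (nat_lit 4) .nil .nil))) 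
(.lf (nat_lit 50418) (.g (nat_lit 2348) (.e (nat_lit 1348) (nat_lit 102) (.e (nat_lit 286761) (nat_lit 13) (.e (nat_lit 401152) (nat_lit 16) (.e (nat_lit 401454) (nat_lit 12) (.e (nat_lit 475182) (nat_lit 28) (.e (nat_lit 548866) (nat_lit 0) .nil)))))) (.g (nat_lit 4) .nil .nil))))) (.nd (nat_lit 4) (.nd (nat_lit 5) 
(.lf (nat_lit 50378) (.g (nat_lit 3793) (.e (nat_lit 1348) (nat_lit 102) (.e (nat_lit 286759) (nat_lit 12) (.e (nat_lit 385074) (nat_lit 31) (.e (nat_lit 573496) (nat_lit 17) .nil)))) .nil)) 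
(.lf (nat_lit 50410) (.g (nat_lit 2423) (.e (nat_lit 1348) (nat_lit 102) (.e (nat_lit 286761) (nat_lit 13) (.e (nat_lit 393225) (nat_lit 9) (.e (nat_lit 336271) (nat_lit 15) .nil)))) .nil))) (.nd (nat_lit 5) 
(.lf (nat_lit 50394) (.g (nat_lit 2330) (.e (nat_lit 1348) (nat_lit 102) (.e (nat_lit 286759) (nat_lit 12) (.e (nat_lit 385102) (nat_lit 50) (.e (nat_lit 786483) (nat_lit 30) (.e (nat_lit 360484) (nat_lit 15) (.e (nat_lit 655104) (nat_lit 14) .nil)))))) (.g (nat_lit 4) .nil .nil))) 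
(.lf (nat_lit 50426) (.g (nat_lit 2434) (.e (nat_lit 1348) (nat_lit 102) (.e (nat_lit 286761) (nat_lit 13) (.e (nat_lit 393233) (nat_lit 17) (.e (nat_lit 7538) (nat_lit 402) (.e (nat_lit 1638) (nat_lit 114) (.e (nat_lit 392960) (nat_lit 16) .nil)))))) (.g (nat_lit 4) .nil .nil)))))) (.nd (nat_lit 3) (.nd (nat_lit 4) (.nd (nat_lit 5) 
(.lf (nat_lit 50374) (.g (nat_lit 3670) (.e (nat_lit 1348) (nat_lit 102) (.e (nat_lit 286759) (nat_lit 12) (.e (nat_lit 385074) (nat_lit 31) (.e (nat_lit 573493) (nat_lit 15) (.e (nat_lit 81961) (nat_lit 25) (.e (nat_lit 147200) (nat_lit 18) .nil)))))) (.g (nat_lit 5) .nil .nil))) 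
(.lf (nat_lit 50406) (.g (nat_lit 2441) (.e (nat_lit 1348) (nat_lit 102) (.e (nat_lit 286761) (nat_lit 13) (.e (nat_lit 393221) (nat_lit 0) (.e (nat_lit 6209) (nat_lit 333) (.e (nat_lit 57816) (nat_lit 246) (.e (nat_lit 65280) (nat_lit 91) (.e (nat_lit 573503) (nat_lit 18) .nil))))))) (.g (nat_lit 4) .nil .nil)))) (.nd (nat_lit 5) 
(.lf (nat_lit 50390) (.g (nat_lit 2404) (.e (nat_lit 1348) (nat_lit 102) (.e (nat_lit 286759) (nat_lit 12) (.e (nat_lit 385094) (nat_lit 49) (.e (nat_lit 778327) (nat_lit 6) (.e (nat_lit 81937) (nat_lit 20) (.e (nat_lit 1987) (nat_lit 136) (.e (nat_lit 655402) (nat_lit 14) .nil))))))) (.g (nat_lit 4) .nil .nil))) 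
(.lf (nat_lit 50422) (.g (nat_lit 2747) (.e (nat_lit 1348) (nat_lit 102) (.e (nat_lit 286761) (nat_lit 13) (.e (nat_lit 393233) (nat_lit 17) (.e (nat_lit 7511) (nat_lit 402) (.e (nat_lit 1638) (nat_lit 114) (.e (nat_lit 392960) (nat_lit 16) .nil)))))) (.g (nat_lit 5) .nil .nil))))) (.nd (nat_lit 4) (.nd (nat_lit 5) 
(.lf (nat_lit 50382) (.g (nat_lit 2751) (.e (nat_lit 1348) (nat_lit 102) (.e (nat_lit 286759) (nat_lit 12) (.e (nat_lit 385094) (nat_lit 49) (.e (nat_lit 778326) (nat_lit 6) (.e (nat_lit 81931) (nat_lit 20) (.e (nat_lit 1990) (nat_lit 136) (.e (nat_lit 655402) (nat_lit 14) .nil))))))) (.g (nat_lit 5) .nil .nil))) 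
(.lf (nat_lit 50414) (.g (nat_lit 3022) (.e (nat_lit 1348) (nat_lit 102) (.e (nat_lit 286761) (nat_lit 13) (.e (nat_lit 393229) (nat_lit 9) (.e (nat_lit 343808) (nat_lit 20) (.e (nat_lit 221210) (nat_lit 22) (.e (nat_lit 196691) (nat_lit 18) .nil)))))) (.g (nat_lit 5) .nil .nil)))) (.nd (nat_lit 5) 
(.lf (nat_lit 50398) (.g (nat_lit 3329) (.e (nat_lit 1348) (nat_lit 102) (.e (nat_lit 286759) (nat_lit 12) (.e (nat_lit 385106) (nat_lit 50) (.e (nat_lit 786481) (nat_lit 30) (.e (nat_lit 360482) (nat_lit 15) (.e (nat_lit 655104) (nat_lit 14) .nil)))))) (.g (nat_lit 5) .nil .nil))) 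
(.lf (nat_lit 50430) (.g (nat_lit 2674) (.e (nat_lit 1348) (nat_lit 102) (.e (nat_lit 286761) (nat_lit 13) (.e (nat_lit 393234) (nat_lit 17) (.e (nat_lit 3322) (nat_lit 204) .nil)))) .nil))))))) (.nd (nat_lit 1) (.nd (nat_lit 2) (.nd (nat_lit 3) (.nd (nat_lit 4) (.nd (nat_lit 5) 
(.lf (nat_lit 50369) (.g (nat_lit 2465) (.e (nat_lit 1348) (nat_lit 102) (.e (nat_lit 286759) (nat_lit 12) (.e (nat_lit 385074) (nat_lit 31) (.e (nat_lit 573491) (nat_lit 15) (.e (nat_lit 81960) (nat_lit 25) (.e (nat_lit 147200) (nat_lit 18) .nil)))))) (.g (nat_lit 5) .nil .nil))) 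
(.lf (nat_lit 50401) (.g (nat_lit 3145) (.e (nat_lit 1348) (nat_lit 102) (.e (nat_lit 286759) (nat_lit 12) (.e (nat_lit 385106) (nat_lit 50) (.e (nat_lit 786483) (nat_lit 30) (.e (nat_lit 360484) (nat_lit 15) (.e (nat_lit 655104) (nat_lit 14) .nil)))))) (.g (nat_lit 5) .nil .nil)))) (.nd (nat_lit 5) 
(.lf (nat_lit 50385) (.g (nat_lit 2704) (.e (nat_lit 1348) (nat_lit 102) (.e (nat_lit 286759) (nat_lit 12) (.e (nat_lit 385094) (nat_lit 49) (.e (nat_lit 778326) (nat_lit 6) (.e (nat_lit 81938) (nat_lit 20) (.e (nat_lit 1985) (nat_lit 136) (.e (nat_lit 655402) (nat_lit 14) .nil))))))) (.g (nat_lit 5) .nil .nil))) 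
(.lf (nat_lit 50417) (.g (nat_lit 2101) (.e (nat_lit 1348) (nat_lit 102) (.e (nat_lit 286761) (nat_lit 13) (.e (nat_lit 401152) (nat_lit 15) (.e (nat_lit 385109) (nat_lit 51) (.e (nat_lit 794669) (nat_lit 22) (.e (nat_lit 196691) (nat_lit 18) .nil)))))) (.g (nat_lit 4) .nil .nil))))) (.nd (nat_lit 4) (.nd (nat_lit 5) 
(.lf (nat_lit 50377) (.g (nat_lit 3231) (.e (nat_lit 1348) (nat_lit 102) (.e (nat_lit 286759) (nat_lit 12) (.e (nat_lit 385074) (nat_lit 31) (.e (nat_lit 581376) (nat_lit 15) (.e (nat_lit 81953) (nat_lit 22) (.e (nat_lit 98048) (nat_lit 18) .nil)))))) (.g (nat_lit 5) .nil .nil))) 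
(.lf (nat_lit 50409) (.g (nat_lit 2992) (.e (nat_lit 1348) (nat_lit 102) (.e (nat_lit 286761) (nat_lit 13) (.e (nat_lit 393225) (nat_lit 9) (.e (nat_lit 335996) (nat_lit 1) (.e (nat_lit 57852) (nat_lit 252) (.e (nat_lit 65280) (nat_lit 63) (.e (nat_lit 196683) (nat_lit 18) .nil))))))) (.g (nat_lit 4) .nil .nil)))) (.nd (nat_lit 5) 
(.lf (nat_lit 50393) (.g (nat_lit 3126) (.e (nat_lit 1348) (nat_lit 102) (.e (nat_lit 286759) (nat_lit 12) (.e (nat_lit 385102) (nat_lit 50) (.e (nat_lit 786483) (nat_lit 30) (.e (nat_lit 360484) (nat_lit 15) (.e (nat_lit 647203) (nat_lit 14) .nil)))))) (.g (nat_lit 6) .nil .nil))) 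
(.lf (nat_lit 50425) (.g (nat_lit 2739) (.e (nat_lit 1348) (nat_lit 102) (.e (nat_lit 286761) (nat_lit 13) (.e (nat_lit 393233) (nat_lit 17) (.e (nat_lit 7534) (nat_lit 402) (.e (nat_lit 1638) (nat_lit 114) (.e (nat_lit 392960) (nat_lit 16) .nil)))))) (.g (nat_lit 5) .nil .nil)))))) (.nd (nat_lit 3) (.nd (nat_lit 4) (.nd (nat_lit 5) 
(.lf (nat_lit 50373) (.g (nat_lit 3435) (.e (nat_lit 1348) (nat_lit 102) (.e (nat_lit 286759) (nat_lit 12) (.e (nat_lit 385074) (nat_lit 31) (.e (nat_lit 573493) (nat_lit 15) (.e (nat_lit 81951) (nat_lit 22) (.e (nat_lit 98048) (nat_lit 18) .nil)))))) (.g (nat_lit 5) .nil .nil))) 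
(.lf (nat_lit 50405) (.g (nat_lit 2488) (.e (nat_lit 1348) (nat_lit 102) (.e (nat_lit 286761) (nat_lit 13) (.e (nat_lit 393221) (nat_lit 0) (.e (nat_lit 6209) (nat_lit 333) (.e (nat_lit 57814) (nat_lit 246) (.e (nat_lit 65280) (nat_lit 91) (.e (nat_lit 573503) (nat_lit 18) .nil))))))) (.g (nat_lit 4) .nil .nil)))) (.nd (nat_lit 5) 
(.lf (nat_lit 50389) (.g (nat_lit 2302) (.e (nat_lit 1348) (nat_lit 102) (.e (nat_lit 286759) (nat_lit 12) (.e (nat_lit 385094) (nat_lit 49) (.e (nat_lit 778327) (nat_lit 6) (.e (nat_lit 81936) (nat_lit 20) (.e (nat_lit 1987) (nat_lit 136) (.e (nat_lit 655402) (nat_lit 14) .nil))))))) (.g (nat_lit 4) .nil .nil))) 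
(.lf (nat_lit 50421) (.g (nat_lit 1438) (.e (nat_lit 1348) (nat_lit 102) (.e (nat_lit 286761) (nat_lit 13) (.e (nat_lit 393233) (nat_lit 17) (.e (nat_lit 7111) (nat_lit 381) .nil)))) .nil)))) (.nd (nat_lit 4) (.nd (nat_lit 5) 
(.lf (nat_lit 50381) (.g (nat_lit 1178) (.e (nat_lit 1348) (nat_lit 102) (.e (nat_lit 286759) (nat_lit 12) (.e (nat_lit 385094) (nat_lit 49) (.e (nat_lit 778326) (nat_lit 6) .nil)))) .nil)) 
(.lf (nat_lit 50413) (.g (nat_lit 1204) (.e (nat_lit 1348) (nat_lit 102) (.e (nat_lit 286761) (nat_lit 13) (.e (nat_lit 393226) (nat_lit 9) (.e (nat_lit 343808) (nat_lit 20) .nil)))) .nil))) (.nd (nat_lit 5) 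
(.lf (nat_lit 50397) (.g (nat_lit 2318) (.e (nat_lit 1348) (nat_lit 102) (.e (nat_lit 286759) (nat_lit 12) (.e (nat_lit 385105) (nat_lit 50) (.e (nat_lit 786483) (nat_lit 30) (.e (nat_lit 360484) (nat_lit 15) (.e (nat_lit 655104) (nat_lit 14) .nil)))))) (.g (nat_lit 4) .nil .nil))) 
(.lf (nat_lit 50429) (.g (nat_lit 2674) (.e (nat_lit 1348) (nat_lit 102) (.e (nat_lit 286761) (nat_lit 13) (.e (nat_lit 393234) (nat_lit 17) (.e (nat_lit 2409) (nat_lit 157) .nil)))) .nil)))))) (.nd (nat_lit 2) (.nd (nat_lit 3) (.nd (nat_lit 4) (.nd (nat_lit 5) 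
(.lf (nat_lit 50371) (.g (nat_lit 2902) (.e (nat_lit 1348) (nat_lit 102) (.e (nat_lit 286759) (nat_lit 12) (.e (nat_lit 385074) (nat_lit 31) (.e (nat_lit 573493) (nat_lit 15) (.e (nat_lit 81928) (nat_lit 20) (.e (nat_lit 1691) (nat_lit 117) (.e (nat_lit 499764) (nat_lit 0) .nil))))))) (.g (nat_lit 5) .nil .nil))) 
(.lf (nat_lit 50403) (.g (nat_lit 2429) (.e (nat_lit 1348) (nat_lit 102) (.e (nat_lit 286760) (nat_lit 13) (.e (nat_lit 393299) (nat_lit 27) (.e (nat_lit 491563) (nat_lit 12) (.e (nat_lit 392960) (nat_lit 16) .nil))))) (.g (nat_lit 4) .nil .nil)))) (.nd (nat_lit 5) 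
(.lf (nat_lit 50387) (.g (nat_lit 2536) (.e (nat_lit 1348) (nat_lit 102) (.e (nat_lit 286759) (nat_lit 12) (.e (nat_lit 385094) (nat_lit 49) (.e (nat_lit 778326) (nat_lit 6) (.e (nat_lit 81959) (nat_lit 24) (.e (nat_lit 123218) (nat_lit 278) (.e (nat_lit 7936) (nat_lit 0) .nil))))))) (.g (nat_lit 5) .nil .nil))) 
(.lf (nat_lit 50419) (.g (nat_lit 1888) (.e (nat_lit 1348) (nat_lit 102) (.e (nat_lit 286761) (nat_lit 13) (.e (nat_lit 393232) (nat_lit 17) (.e (nat_lit 7513) (nat_lit 402) .nil)))) .nil)))) (.nd (nat_lit 4) (.nd (nat_lit 5) 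
(.lf (nat_lit 50379) (.g (nat_lit 3793) (.e (nat_lit 1348) (nat_lit 102) (.e (nat_lit 286759) (nat_lit 12) (.e (nat_lit 385074) (nat_lit 31) (.e (nat_lit 573497) (nat_lit 17) .nil)))) .nil)) 
(.lf (nat_lit 50411) (.g (nat_lit 2611) (.e (nat_lit 1348) (nat_lit 102) (.e (nat_lit 286761) (nat_lit 13) (.e (nat_lit 393225) (nat_lit 9) (.e (nat_lit 336275) (nat_lit 15) .nil)))) .nil))) (.nd (nat_lit 5) 
(.lf (nat_lit 50395) (.g (nat_lit 1689) (.e (nat_lit 1348) (nat_lit 102) (.e (nat_lit 286759) (nat_lit 12) (.e (nat_lit 385105) (nat_lit 50) (.e (nat_lit 786483) (nat_lit 30) (.e (nat_lit 360483) (nat_lit 15) .nil))))) .nil)) 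
(.lf (nat_lit 50427) (.g (nat_lit 2630) (.e (nat_lit 1348) (nat_lit 102) (.e (nat_lit 286761) (nat_lit 13) (.e (nat_lit 393234) (nat_lit 17) (.e (nat_lit 2405) (nat_lit 157) .nil)))) .nil))))) (.nd (nat_lit 3) (.nd (nat_lit 4) (.nd (nat_lit 5) 
(.lf (nat_lit 50375) (.g (nat_lit 4201) (.e (nat_lit 1348) (nat_lit 102) (.e (nat_lit 286759) (nat_lit 12) (.e (nat_lit 385074) (nat_lit 31) (.e (nat_lit 573493) (nat_lit 15) (.e (nat_lit 81962) (nat_lit 25) (.e (nat_lit 139299) (nat_lit 18) .nil)))))) (.g (nat_lit 0) .nil .nil))) 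
(.lf (nat_lit 50407) (.g (nat_lit 2363) (.e (nat_lit 1348) (nat_lit 102) (.e (nat_lit 286761) (nat_lit 13) (.e (nat_lit 393221) (nat_lit 0) (.e (nat_lit 6217) (nat_lit 333) (.e (nat_lit 57816) (nat_lit 246) (.e (nat_lit 65280) (nat_lit 91) (.e (nat_lit 573503) (nat_lit 18) .nil))))))) (.g (nat_lit 4) .nil .nil)))) (.nd (nat_lit 5) 
(.lf (nat_lit 50391) (.g (nat_lit 2172) (.e (nat_lit 1348) (nat_lit 102) (.e (nat_lit 286759) (nat_lit 12) (.e (nat_lit 385094) (nat_lit 49) (.e (nat_lit 778327) (nat_lit 6) (.e (nat_lit 81946) (nat_lit 20) (.e (nat_lit 1968) (nat_lit 135) (.e (nat_lit 647203) (nat_lit 14) .nil))))))) (.g (nat_lit 4) .nil .nil))) 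
(.lf (nat_lit 50423) (.g (nat_lit 1502) (.e (nat_lit 1348) (nat_lit 102) (.e (nat_lit 286761) (nat_lit 13) (.e (nat_lit 393233) (nat_lit 17) (.e (nat_lit 7523) (nat_lit 402) (.e (nat_lit 1637) (nat_lit 114) .nil))))) .nil)))) (.nd (nat_lit 4) (.nd (nat_lit 5) 
(.lf (nat_lit 50383) (.g (nat_lit 2493) (.e (nat_lit 1348) (nat_lit 102) (.e (nat_lit 286759) (nat_lit 12) (.e (nat_lit 385094) (nat_lit 49) (.e (nat_lit 778326) (nat_lit 6) (.e (nat_lit 81936) (nat_lit 20) (.e (nat_lit 1987) (nat_lit 136) (.e (nat_lit 655402) (nat_lit 14) .nil))))))) (.g (nat_lit 4) .nil .nil))) 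
(.lf (nat_lit 50415) (.g (nat_lit 2084) (.e (nat_lit 1348) (nat_lit 102) (.e (nat_lit 286761) (nat_lit 13) (.e (nat_lit 401152) (nat_lit 15) (.e (nat_lit 385107) (nat_lit 51) (.e (nat_lit 794666) (nat_lit 22) (.e (nat_lit 196691) (nat_lit 18) .nil)))))) (.g (nat_lit 5) .nil .nil)))) (.nd (nat_lit 5) 
(.lf (nat_lit 50399) (.g (nat_lit 2858) (.e (nat_lit 1348) (nat_lit 102) (.e (nat_lit 286759) (nat_lit 12) (.e (nat_lit 385106) (nat_lit 50) (.e (nat_lit 786483) (nat_lit 30) (.e (nat_lit 360451) (nat_lit 0) (.e (nat_lit 5429) (nat_lit 306) (.e (nat_lit 71) (nat_lit 0) .nil))))))) (.g (nat_lit 4) .nil .nil))) 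
(.lf (nat_lit 50431) (.g (nat_lit 2674) (.e (nat_lit 1348) (nat_lit 102) (.e (nat_lit 286761) (nat_lit 13) (.e (nat_lit 393234) (nat_lit 17) (.e (nat_lit 3331) (nat_lit 204) .nil)))) .nil))))))))

noncomputable def tv702 : DT := (.nd (nat_lit 0) (.nd (nat_lit 1) (.nd (nat_lit 2) (.nd (nat_lit 3) (.nd (nat_lit 4) (.nd (nat_lit 5) (.nd (nat_lit 6) 
(.lf (nat_lit 50432) (.g (nat_lit 2649) (.e (nat_lit 1348) (nat_lit 102) (.e (nat_lit 286761) (nat_lit 13) (.e (nat_lit 393234) (nat_lit 17) (.e (nat_lit 3442) (nat_lit 215) .nil)))) .nil)) 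
(.lf (nat_lit 50496) (.g (nat_lit 2332) (.e (nat_lit 1348) (nat_lit 102) (.e (nat_lit 286761) (nat_lit 13) (.e (nat_lit 393234) (nat_lit 17) (.e (nat_lit 7587) (nat_lit 406) (.e (nat_lit 65635) (nat_lit 15) (.e (nat_lit 7936) (nat_lit 377) .nil)))))) (.g (nat_lit 5) .nil .nil)))) (.nd (nat_lit 6) 
(.lf (nat_lit 50464) (.g (nat_lit 2638) (.e (nat_lit 1348) (nat_lit 102) (.e (nat_lit 286761) (nat_lit 13) (.e (nat_lit 393234) (nat_lit 17) (.e (nat_lit 7495) (nat_lit 402) (.e (nat_lit 1626) (nat_lit 114) (.e (nat_lit 392960) (nat_lit 16) .nil)))))) (.g (nat_lit 5) .nil .nil))) 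
(.lf (nat_lit 50528) (.g (nat_lit 3392) (.e (nat_lit 1348) (nat_lit 102) (.e (nat_lit 286761) (nat_lit 13) (.e (nat_lit 393234) (nat_lit 17) (.e (nat_lit 7593) (nat_lit 407) (.e (nat_lit 73729) (nat_lit 0) (.e (nat_lit 6848) (nat_lit 371) (.e (nat_lit 61) (nat_lit 0) .nil))))))) (.g (nat_lit 5) .nil .nil))))) (.nd (nat_lit 5) (.nd (nat_lit 6) 
(.lf (nat_lit 50448) (.g (nat_lit 3938) (.e (nat_lit 1348) (nat_lit 102) (.e (nat_lit 286761) (nat_lit 13) (.e (nat_lit 393234) (nat_lit 17) (.e (nat_lit 7109) (nat_lit 380) (.e (nat_lit 164367) (nat_lit 247) (.e (nat_lit 16128) (nat_lit 225) .nil)))))) (.g (nat_lit 5) .nil .nil))) 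
(.lf (nat_lit 50512) (.g (nat_lit 2346) (.e (nat_lit 1348) (nat_lit 102) (.e (nat_lit 286761) (nat_lit 13) (.e (nat_lit 393234) (nat_lit 17) (.e (nat_lit 7589) (nat_lit 406) (.e (nat_lit 65638) (nat_lit 15) (.e (nat_lit 7936) (nat_lit 377) .nil)))))) (.g (nat_lit 5) .nil .nil)))) (.nd (nat_lit 6) 
(.lf (nat_lit 50480) (.g (nat_lit 1478) (.e (nat_lit 1348) (nat_lit 102) (.e (nat_lit 286761) (nat_lit 13) (.e (nat_lit 393234) (nat_lit 17) (.e (nat_lit 7538) (nat_lit 402) .nil)))) .nil)) 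
(.lf (nat_lit 50544) (.g (nat_lit 2617) (.e (nat_lit 1348) (nat_lit 102) (.e (nat_lit 286761) (nat_lit 13) (.e (nat_lit 393245) (nat_lit 17) (.e (nat_lit 7556) (nat_lit 402) (.e (nat_lit 1638) (nat_lit 114) (.e (nat_lit 392960) (nat_lit 16) .nil)))))) (.g (nat_lit 4) .nil .nil)))))) (.nd (nat_lit 4) (.nd (nat_lit 5) (.nd (nat_lit 6) 
(.lf (nat_lit 50440) (.g (nat_lit 2674) (.e (nat_lit 1348) (nat_lit 102) (.e (nat_lit 286761) (nat_lit 13) (.e (nat_lit 393234) (nat_lit 17) (.e (nat_lit 3548) (nat_lit 219) .nil)))) .nil)) 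
(.lf (nat_lit 50504) (.g (nat_lit 1485) (.e (nat_lit 1348) (nat_lit 102) (.e (nat_lit 286761) (nat_lit 13) (.e (nat_lit 393234) (nat_lit 17) (.e (nat_lit 7587) (nat_lit 406) (.e (nat_lit 73472) (nat_lit 15) (.e (nat_lit 7936) (nat_lit 377) .nil)))))) (.g (nat_lit 4) .nil .nil)))) (.nd (nat_lit 6) 
(.lf (nat_lit 50472) (.g (nat_lit 3275) (.e (nat_lit 1348) (nat_lit 102) (.e (nat_lit 286761) (nat_lit 13) (.e (nat_lit 393234) (nat_lit 17) (.e (nat_lit 7513) (nat_lit 402) (.e (nat_lit 1638) (nat_lit 114) (.e (nat_lit 392960) (nat_lit 16) .nil)))))) (.g (nat_lit 5) .nil .nil))) 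
(.lf (nat_lit 50536) (.g (nat_lit 2573) (.e (nat_lit 1348) (nat_lit 102) (.e (nat_lit 286761) (nat_lit 13) (.e (nat_lit 393234) (nat_lit 17) (.e (nat_lit 7601) (nat_lit 409) .nil)))) .nil)))) (.nd (nat_lit 5) (.nd (nat_lit 6) 
(.lf (nat_lit 50456) (.g (nat_lit 2350) (.e (nat_lit 1348) (nat_lit 102) (.e (nat_lit 286761) (nat_lit 13) (.e (nat_lit 393234) (nat_lit 17) (.e (nat_lit 7486) (nat_lit 402) (.e (nat_lit 1634) (nat_lit 114) (.e (nat_lit 392960) (nat_lit 16) .nil)))))) (.g (nat_lit 5) .nil .nil))) 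
(.lf (nat_lit 50520) (.g (nat_lit 2855) (.e (nat_lit 1348) (nat_lit 102) (.e (nat_lit 286761) (nat_lit 13) (.e (nat_lit 393234) (nat_lit 17) (.e (nat_lit 7591) (nat_lit 407) (.e (nat_lit 73729) (nat_lit 0) (.e (nat_lit 6848) (nat_lit 371) (.e (nat_lit 62) (nat_lit 0) .nil))))))) (.g (nat_lit 4) .nil .nil)))) (.nd (nat_lit 6) 
(.lf (nat_lit 50488) (.g (nat_lit 3108) (.e (nat_lit 1348) (nat_lit 102) (.e (nat_lit 286761) (nat_lit 13) (.e (nat_lit 393234) (nat_lit 17) (.e (nat_lit 7567) (nat_lit 402) (.e (nat_lit 1638) (nat_lit 114) (.e (nat_lit 392960) (nat_lit 16) .nil)))))) (.g (nat_lit 5) .nil .nil))) 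
(.lf (nat_lit 50552) (.g (nat_lit 4013) (.e (nat_lit 1348) (nat_lit 102) (.e (nat_lit 286761) (nat_lit 13) (.e (nat_lit 393251) (nat_lit 18) (.e (nat_lit 164179) (nat_lit 154) (.e (nat_lit 57346) (nat_lit 0) (.e (nat_lit 6712) (nat_lit 360) (.e (nat_lit 163979) (nat_lit 30) (.e (nat_lit 573503) (nat_lit 18) .nil)))))))) (.g (nat_lit 5) .nil .nil))))))) 
(.nd (nat_lit 3) (.nd (nat_lit 4) (.nd (nat_lit 5) (.nd (nat_lit 6) 
(.lf (nat_lit 50436) (.g (nat_lit 2674) (.e (nat_lit 1348) (nat_lit 102) (.e (nat_lit 286761) (nat_lit 13) (.e (nat_lit 393234) (nat_lit 17) (.e (nat_lit 3481) (nat_lit 218) .nil)))) .nil)) 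
(.lf (nat_lit 50500) (.g (nat_lit 1601) (.e (nat_lit 1348) (nat_lit 102) (.e (nat_lit 286761) (nat_lit 13) (.e (nat_lit 393234) (nat_lit 17) (.e (nat_lit 7587) (nat_lit 406) (.e (nat_lit 65639) (nat_lit 15) (.e (nat_lit 7936) (nat_lit 377) .nil)))))) (.g (nat_lit 4) .nil .nil)))) (.nd (nat_lit 6) 
(.lf (nat_lit 50468) (.g (nat_lit 2653) (.e (nat_lit 1348) (nat_lit 102) (.e (nat_lit 286761) (nat_lit 13) (.e (nat_lit 393234) (nat_lit 17) (.e (nat_lit 7509) (nat_lit 402) .nil)))) .nil)) 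
(.lf (nat_lit 50532) (.g (nat_lit 2871) (.e (nat_lit 1348) (nat_lit 102) (.e (nat_lit 286761) (nat_lit 13) (.e (nat_lit 393234) (nat_lit 17) (.e (nat_lit 7593) (nat_lit 407) (.e (nat_lit 73730) (nat_lit 0) (.e (nat_lit 6848) (nat_lit 371) (.e (nat_lit 61) (nat_lit 0) .nil))))))) (.g (nat_lit 4) .nil .nil))))) (.nd (nat_lit 5) (.nd (nat_lit 6) 
(.lf (nat_lit 50452) (.g (nat_lit 3500) (.e (nat_lit 1348) (nat_lit 102) (.e (nat_lit 286761) (nat_lit 13) (.e (nat_lit 393234) (nat_lit 17) (.e (nat_lit 7111) (nat_lit 381) (.e (nat_lit 229655) (nat_lit 233) (.e (nat_lit 16128) (nat_lit 180) .nil)))))) (.g (nat_lit 5) .nil .nil))) 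
(.lf (nat_lit 50516) (.g (nat_lit 1774) (.e (nat_lit 1348) (nat_lit 102) (.e (nat_lit 286761) (nat_lit 13) (.e (nat_lit 393234) (nat_lit 17) (.e (nat_lit 7589) (nat_lit 406) (.e (nat_lit 73472) (nat_lit 15) (.e (nat_lit 7936) (nat_lit 377) .nil)))))) (.g (nat_lit 4) .nil .nil)))) (.nd (nat_lit 6) 
(.lf (nat_lit 50484) (.g (nat_lit 2673) (.e (nat_lit 1348) (nat_lit 102) (.e (nat_lit 286761) (nat_lit 13) (.e (nat_lit 393234) (nat_lit 17) (.e (nat_lit 7547) (nat_lit 402) .nil)))) .nil)) 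
(.lf (nat_lit 50548) (.g (nat_lit 2131) (.e (nat_lit 1348) (nat_lit 102) (.e (nat_lit 286761) (nat_lit 13) (.e (nat_lit 393251) (nat_lit 18) (.e (nat_lit 164172) (nat_lit 153) .nil)))) .nil))))) (.nd (nat_lit 4) (.nd (nat_lit 5) (.nd (nat_lit 6) 
(.lf (nat_lit 50444) (.g (nat_lit 2662) (.e (nat_lit 1348) (nat_lit 102) (.e (nat_lit 286761) (nat_lit 13) (.e (nat_lit 393234) (nat_lit 17) (.e (nat_lit 3557) (nat_lit 220) .nil)))) .nil)) 
(.lf (nat_lit 50508) (.g (nat_lit 2165) (.e (nat_lit 1348) (nat_lit 102) (.e (nat_lit 286761) (nat_lit 13) (.e (nat_lit 393234) (nat_lit 17) (.e (nat_lit 7589) (nat_lit 406) (.e (nat_lit 65634) (nat_lit 15) (.e (nat_lit 7936) (nat_lit 377) .nil)))))) (.g (nat_lit 4) .nil .nil)))) (.nd (nat_lit 6) 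
(.lf (nat_lit 50476) (.g (nat_lit 3851) (.e (nat_lit 1348) (nat_lit 102) (.e (nat_lit 286761) (nat_lit 13) (.e (nat_lit 393234) (nat_lit 17) (.e (nat_lit 7536) (nat_lit 402) (.e (nat_lit 1454) (nat_lit 108) (.e (nat_lit 336295) (nat_lit 15) (.e (nat_lit 7936) (nat_lit 377) .nil))))))) (.g (nat_lit 6) .nil .nil))) 
(.lf (nat_lit 50540) (.g (nat_lit 585) (.e (nat_lit 1348) (nat_lit 102) (.e (nat_lit 286761) (nat_lit 13) (.e (nat_lit 393237) (nat_lit 17) .nil))) .nil)))) (.nd (nat_lit 5) (.nd (nat_lit 6) 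
(.lf (nat_lit 50460) (.g (nat_lit 2112) (.e (nat_lit 1348) (nat_lit 102) (.e (nat_lit 286761) (nat_lit 13) (.e (nat_lit 393234) (nat_lit 17) (.e (nat_lit 7490) (nat_lit 402) (.e (nat_lit 1632) (nat_lit 114) (.e (nat_lit 392960) (nat_lit 16) .nil)))))) (.g (nat_lit 5) .nil .nil))) 
(.lf (nat_lit 50524) (.g (nat_lit 2990) (.e (nat_lit 1348) (nat_lit 102) (.e (nat_lit 286761) (nat_lit 13) (.e (nat_lit 393234) (nat_lit 17) (.e (nat_lit 7591) (nat_lit 407) (.e (nat_lit 73771) (nat_lit 23) (.e (nat_lit 753666) (nat_lit 0) .nil)))))) (.g (nat_lit 4) .nil .nil)))) (.nd (nat_lit 6) 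
(.lf (nat_lit 50492) (.g (nat_lit 1990) (.e (nat_lit 1348) (nat_lit 102) (.e (nat_lit 286761) (nat_lit 13) (.e (nat_lit 393234) (nat_lit 17) (.e (nat_lit 7587) (nat_lit 406) (.e (nat_lit 65631) (nat_lit 15) (.e (nat_lit 7936) (nat_lit 377) .nil)))))) (.g (nat_lit 5) .nil .nil))) 
(.lf (nat_lit 50556) (.g (nat_lit 3153) (.e (nat_lit 1348) (nat_lit 102) (.e (nat_lit 286761) (nat_lit 13) (.e (nat_lit 393259) (nat_lit 21) (.e (nat_lit 409646) (nat_lit 18) (.e (nat_lit 303149) (nat_lit 15) (.e (nat_lit 6134) (nat_lit 332) .nil)))))) (.g (nat_lit 4) .nil .nil)))))))) (.nd (nat_lit 2) (.nd (nat_lit 3) (.nd (nat_lit 4) (.nd (nat_lit 5) (.nd (nat_lit 6) 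
(.lf (nat_lit 50434) (.g (nat_lit 2675) (.e (nat_lit 1348) (nat_lit 102) (.e (nat_lit 286761) (nat_lit 13) (.e (nat_lit 393234) (nat_lit 17) (.e (nat_lit 3461) (nat_lit 216) .nil)))) .nil)) 
(.lf (nat_lit 50498) (.g (nat_lit 2053) (.e (nat_lit 1348) (nat_lit 102) (.e (nat_lit 286761) (nat_lit 13) (.e (nat_lit 393234) (nat_lit 17) (.e (nat_lit 7587) (nat_lit 406) (.e (nat_lit 65637) (nat_lit 15) (.e (nat_lit 7936) (nat_lit 377) .nil)))))) (.g (nat_lit 5) .nil .nil)))) (.nd (nat_lit 6) 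
(.lf (nat_lit 50466) (.g (nat_lit 2641) (.e (nat_lit 1348) (nat_lit 102) (.e (nat_lit 286761) (nat_lit 13) (.e (nat_lit 393234) (nat_lit 17) (.e (nat_lit 7505) (nat_lit 402) .nil)))) .nil)) 
(.lf (nat_lit 50530) (.g (nat_lit 3564) (.e (nat_lit 1348) (nat_lit 102) (.e (nat_lit 286761) (nat_lit 13) (.e (nat_lit 393234) (nat_lit 17) (.e (nat_lit 7593) (nat_lit 407) (.e (nat_lit 73729) (nat_lit 0) (.e (nat_lit 6848) (nat_lit 371) (.e (nat_lit 68) (nat_lit 0) .nil))))))) (.g (nat_lit 5) .nil .nil))))) (.nd (nat_lit 5) (.nd (nat_lit 6) 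
(.lf (nat_lit 50450) (.g (nat_lit 2687) (.e (nat_lit 1348) (nat_lit 102) (.e (nat_lit 286761) (nat_lit 13) (.e (nat_lit 393234) (nat_lit 17) (.e (nat_lit 7110) (nat_lit 380) (.e (nat_lit 164367) (nat_lit 247) (.e (nat_lit 16128) (nat_lit 225) .nil)))))) (.g (nat_lit 4) .nil .nil))) 
(.lf (nat_lit 50514) (.g (nat_lit 2110) (.e (nat_lit 1348) (nat_lit 102) (.e (nat_lit 286761) (nat_lit 13) (.e (nat_lit 393234) (nat_lit 17) (.e (nat_lit 7589) (nat_lit 406) (.e (nat_lit 65640) (nat_lit 15) (.e (nat_lit 7936) (nat_lit 377) .nil)))))) (.g (nat_lit 4) .nil .nil)))) (.nd (nat_lit 6) 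
(.lf (nat_lit 50482) (.g (nat_lit 2589) (.e (nat_lit 1348) (nat_lit 102) (.e (nat_lit 286761) (nat_lit 13) (.e (nat_lit 393234) (nat_lit 17) (.e (nat_lit 7539) (nat_lit 402) .nil)))) .nil)) 
(.lf (nat_lit 50546) (.g (nat_lit 2375) (.e (nat_lit 1348) (nat_lit 102) (.e (nat_lit 286761) (nat_lit 13) (.e (nat_lit 401152) (nat_lit 17) (.e (nat_lit 7537) (nat_lit 402) (.e (nat_lit 1638) (nat_lit 114) (.e (nat_lit 392960) (nat_lit 16) .nil)))))) (.g (nat_lit 5) .nil .nil)))))) (.nd (nat_lit 4) (.nd (nat_lit 5) (.nd (nat_lit 6) 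
(.lf (nat_lit 50442) (.g (nat_lit 2526) (.e (nat_lit 1348) (nat_lit 102) (.e (nat_lit 286761) (nat_lit 13) (.e (nat_lit 393234) (nat_lit 17) (.e (nat_lit 3555) (nat_lit 220) .nil)))) .nil)) 
(.lf (nat_lit 50506) (.g (nat_lit 2326) (.e (nat_lit 1348) (nat_lit 102) (.e (nat_lit 286761) (nat_lit 13) (.e (nat_lit 393234) (nat_lit 17) (.e (nat_lit 7589) (nat_lit 406) (.e (nat_lit 65632) (nat_lit 15) (.e (nat_lit 7936) (nat_lit 377) .nil)))))) (.g (nat_lit 5) .nil .nil)))) (.nd (nat_lit 6) 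
(.lf (nat_lit 50474) (.g (nat_lit 1784) (.e (nat_lit 1348) (nat_lit 102) (.e (nat_lit 286761) (nat_lit 13) (.e (nat_lit 393234) (nat_lit 17) (.e (nat_lit 7523) (nat_lit 402) .nil)))) .nil)) 
(.lf (nat_lit 50538) (.g (nat_lit 2548) (.e (nat_lit 1348) (nat_lit 102) (.e (nat_lit 286761) (nat_lit 13) (.e (nat_lit 393234) (nat_lit 17) (.e (nat_lit 7604) (nat_lit 409) (.e (nat_lit 131132) (nat_lit 15) (.e (nat_lit 7936) (nat_lit 377) .nil)))))) (.g (nat_lit 4) .nil .nil))))) (.nd (nat_lit 5) (.nd (nat_lit 6) 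
(.lf (nat_lit 50458) (.g (nat_lit 2024) (.e (nat_lit 1348) (nat_lit 102) (.e (nat_lit 286761) (nat_lit 13) (.e (nat_lit 393234) (nat_lit 17) (.e (nat_lit 7490) (nat_lit 402) (.e (nat_lit 1630) (nat_lit 114) (.e (nat_lit 392960) (nat_lit 16) .nil)))))) (.g (nat_lit 4) .nil .nil))) 
(.lf (nat_lit 50522) (.g (nat_lit 2535) (.e (nat_lit 1348) (nat_lit 102) (.e (nat_lit 286761) (nat_lit 13) (.e (nat_lit 393234) (nat_lit 17) (.e (nat_lit 7591) (nat_lit 407) (.e (nat_lit 73730) (nat_lit 0) (.e (nat_lit 6848) (nat_lit 371) (.e (nat_lit 12) (nat_lit 0) .nil))))))) (.g (nat_lit 4) .nil .nil)))) (.nd (nat_lit 6) 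
(.lf (nat_lit 50490) (.g (nat_lit 3077) (.e (nat_lit 1348) (nat_lit 102) (.e (nat_lit 286761) (nat_lit 13) (.e (nat_lit 393234) (nat_lit 17) (.e (nat_lit 7936) (nat_lit 402) (.e (nat_lit 1638) (nat_lit 114) (.e (nat_lit 392960) (nat_lit 16) .nil)))))) (.g (nat_lit 5) .nil .nil))) 
(.lf (nat_lit 50554) (.g (nat_lit 2779) (.e (nat_lit 1348) (nat_lit 102) (.e (nat_lit 286761) (nat_lit 13) (.e (nat_lit 393251) (nat_lit 18) (.e (nat_lit 164179) (nat_lit 154) (.e (nat_lit 57432) (nat_lit 16) .nil))))) .nil)))))) (.nd (nat_lit 3) (.nd (nat_lit 4) (.nd (nat_lit 5) (.nd (nat_lit 6) 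
(.lf (nat_lit 50438) (.g (nat_lit 2680) (.e (nat_lit 1348) (nat_lit 102) (.e (nat_lit 286761) (nat_lit 13) (.e (nat_lit 393234) (nat_lit 17) (.e (nat_lit 3544) (nat_lit 219) .nil)))) .nil)) 
(.lf (nat_lit 50502) (.g (nat_lit 2419) (.e (nat_lit 1348) (nat_lit 102) (.e (nat_lit 286761) (nat_lit 13) (.e (nat_lit 393234) (nat_lit 17) (.e (nat_lit 7587) (nat_lit 406) (.e (nat_lit 65641) (nat_lit 15) (.e (nat_lit 7936) (nat_lit 377) .nil)))))) (.g (nat_lit 5) .nil .nil)))) (.nd (nat_lit 6) 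
(.lf (nat_lit 50470) (.g (nat_lit 4234) (.e (nat_lit 1348) (nat_lit 102) (.e (nat_lit 286761) (nat_lit 13) (.e (nat_lit 393234) (nat_lit 17) (.e (nat_lit 7511) (nat_lit 402) (.e (nat_lit 1638) (nat_lit 114) (.e (nat_lit 392960) (nat_lit 16) .nil)))))) (.g (nat_lit 5) .nil .nil))) 
(.lf (nat_lit 50534) (.g (nat_lit 2837) (.e (nat_lit 1348) (nat_lit 102) (.e (nat_lit 286761) (nat_lit 13) (.e (nat_lit 393234) (nat_lit 17) (.e (nat_lit 7593) (nat_lit 407) (.e (nat_lit 73730) (nat_lit 0) (.e (nat_lit 6848) (nat_lit 371) (.e (nat_lit 71) (nat_lit 0) .nil))))))) (.g (nat_lit 4) .nil .nil))))) (.nd (nat_lit 5) (.nd (nat_lit 6) 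
(.lf (nat_lit 50454) (.g (nat_lit 3514) (.e (nat_lit 1348) (nat_lit 102) (.e (nat_lit 286761) (nat_lit 13) (.e (nat_lit 393234) (nat_lit 17) (.e (nat_lit 7118) (nat_lit 381) (.e (nat_lit 229655) (nat_lit 233) (.e (nat_lit 16128) (nat_lit 180) .nil)))))) (.g (nat_lit 5) .nil .nil))) 
(.lf (nat_lit 50518) (.g (nat_lit 2737) (.e (nat_lit 1348) (nat_lit 102) (.e (nat_lit 286761) (nat_lit 13) (.e (nat_lit 393234) (nat_lit 17) (.e (nat_lit 7591) (nat_lit 407) (.e (nat_lit 73729) (nat_lit 0) (.e (nat_lit 6848) (nat_lit 371) (.e (nat_lit 12) (nat_lit 0) .nil))))))) (.g (nat_lit 4) .nil .nil)))) (.nd (nat_lit 6) 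
(.lf (nat_lit 50486) (.g (nat_lit 2137) (.e (nat_lit 1348) (nat_lit 102) (.e (nat_lit 286761) (nat_lit 13) (.e (nat_lit 393234) (nat_lit 17) (.e (nat_lit 7565) (nat_lit 402) .nil)))) .nil)) 
(.lf (nat_lit 50550) (.g (nat_lit 3063) (.e (nat_lit 1348) (nat_lit 102) (.e (nat_lit 286761) (nat_lit 13) (.e (nat_lit 393251) (nat_lit 18) (.e (nat_lit 164179) (nat_lit 154) (.e (nat_lit 57346) (nat_lit 0) .nil))))) .nil))))) (.nd (nat_lit 4) (.nd (nat_lit 5) (.nd (nat_lit 6) 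
(.lf (nat_lit 50446) (.g (nat_lit 2623) (.e (nat_lit 1348) (nat_lit 102) (.e (nat_lit 286761) (nat_lit 13) (.e (nat_lit 393234) (nat_lit 17) (.e (nat_lit 6963) (nat_lit 377) .nil)))) .nil)) 
(.lf (nat_lit 50510) (.g (nat_lit 2299) (.e (nat_lit 1348) (nat_lit 102) (.e (nat_lit 286761) (nat_lit 13) (.e (nat_lit 393234) (nat_lit 17) (.e (nat_lit 7589) (nat_lit 406) (.e (nat_lit 65636) (nat_lit 15) (.e (nat_lit 7936) (nat_lit 377) .nil)))))) (.g (nat_lit 5) .nil .nil)))) (.nd (nat_lit 6) 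
(.lf (nat_lit 50478) (.g (nat_lit 3143) (.e (nat_lit 1348) (nat_lit 102) (.e (nat_lit 286761) (nat_lit 13) (.e (nat_lit 393234) (nat_lit 17) (.e (nat_lit 7536) (nat_lit 402) (.e (nat_lit 1633) (nat_lit 114) (.e (nat_lit 392960) (nat_lit 16) .nil)))))) (.g (nat_lit 5) .nil .nil))) 
(.lf (nat_lit 50542) (.g (nat_lit 1988) (.e (nat_lit 1348) (nat_lit 102) (.e (nat_lit 286761) (nat_lit 13) (.e (nat_lit 393238) (nat_lit 17) (.e (nat_lit 7101) (nat_lit 380) .nil)))) .nil)))) (.nd (nat_lit 5) (.nd (nat_lit 6) 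
(.lf (nat_lit 50462) (.g (nat_lit 2166) (.e (nat_lit 1348) (nat_lit 102) (.e (nat_lit 286761) (nat_lit 13) (.e (nat_lit 393234) (nat_lit 17) (.e (nat_lit 7491) (nat_lit 402) .nil)))) .nil)) 
(.lf (nat_lit 50526) (.g (nat_lit 1118) (.e (nat_lit 1348) (nat_lit 102) (.e (nat_lit 286761) (nat_lit 13) (.e (nat_lit 393234) (nat_lit 17) (.e (nat_lit 7593) (nat_lit 407) .nil)))) .nil))) (.nd (nat_lit 6) 
(.lf (nat_lit 50494) (.g (nat_lit 1756) (.e (nat_lit 1348) (nat_lit 102) (.e (nat_lit 286761) (nat_lit 13) (.e (nat_lit 393234) (nat_lit 17) (.e (nat_lit 7587) (nat_lit 406) (.e (nat_lit 65633) (nat_lit 15) (.e (nat_lit 7936) (nat_lit 377) .nil)))))) (.g (nat_lit 4) .nil .nil))) 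
(.lf (nat_lit 50558) (.g (nat_lit 2389) (.e (nat_lit 1348) (nat_lit 102) (.e (nat_lit 286761) (nat_lit 13) (.e (nat_lit 393260) (nat_lit 21) (.e (nat_lit 409617) (nat_lit 10) .nil)))) .nil)))))))) (.nd (nat_lit 1) (.nd (nat_lit 2) (.nd (nat_lit 3) (.nd (nat_lit 4) (.nd (nat_lit 5) (.nd (nat_lit 6) 
(.lf (nat_lit 50433) (.g (nat_lit 2645) (.e (nat_lit 1348) (nat_lit 102) (.e (nat_lit 286761) (nat_lit 13) (.e (nat_lit 393234) (nat_lit 17) (.e (nat_lit 3451) (nat_lit 215) .nil)))) .nil)) 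
(.lf (nat_lit 50497) (.g (nat_lit 2228) (.e (nat_lit 1348) (nat_lit 102) (.e (nat_lit 286761) (nat_lit 13) (.e (nat_lit 393234) (nat_lit 17) (.e (nat_lit 7587) (nat_lit 406) (.e (nat_lit 65636) (nat_lit 15) (.e (nat_lit 7936) (nat_lit 377) .nil)))))) (.g (nat_lit 5) .nil .nil)))) (.nd (nat_lit 6) 
(.lf (nat_lit 50465) (.g (nat_lit 2367) (.e (nat_lit 1348) (nat_lit 102) (.e (nat_lit 286761) (nat_lit 13) (.e (nat_lit 393234) (nat_lit 17) (.e (nat_lit 7502) (nat_lit 402) .nil)))) .nil)) 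
(.lf (nat_lit 50529) (.g (nat_lit 2786) (.e (nat_lit 1348) (nat_lit 102) (.e (nat_lit 286761) (nat_lit 13) (.e (nat_lit 393234) (nat_lit 17) (.e (nat_lit 7593) (nat_lit 407) (.e (nat_lit 73729) (nat_lit 0) (.e (nat_lit 6848) (nat_lit 371) (.e (nat_lit 62) (nat_lit 0) .nil))))))) (.g (nat_lit 4) .nil .nil))))) (.nd (nat_lit 5) (.nd (nat_lit 6) 
(.lf (nat_lit 50449) (.g (nat_lit 4008) (.e (nat_lit 1348) (nat_lit 102) (.e (nat_lit 286761) (nat_lit 13) (.e (nat_lit 393234) (nat_lit 17) (.e (nat_lit 7109) (nat_lit 380) (.e (nat_lit 164368) (nat_lit 247) (.e (nat_lit 16128) (nat_lit 225) .nil)))))) (.g (nat_lit 5) .nil .nil))) 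
(.lf (nat_lit 50513) (.g (nat_lit 2199) (.e (nat_lit 1348) (nat_lit 102) (.e (nat_lit 286761) (nat_lit 13) (.e (nat_lit 393234) (nat_lit 17) (.e (nat_lit 7589) (nat_lit 406) (.e (nat_lit 65639) (nat_lit 15) (.e (nat_lit 7936) (nat_lit 377) .nil)))))) (.g (nat_lit 5) .nil .nil)))) (.nd (nat_lit 6) 
(.lf (nat_lit 50481) (.g (nat_lit 3519) (.e (nat_lit 1348) (nat_lit 102) (.e (nat_lit 286761) (nat_lit 13) (.e (nat_lit 393234) (nat_lit 17) (.e (nat_lit 7538) (nat_lit 402) (.e (nat_lit 1638) (nat_lit 114) (.e (nat_lit 392960) (nat_lit 16) .nil)))))) (.g (nat_lit 5) .nil .nil))) 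
(.lf (nat_lit 50545) (.g (nat_lit 3130) (.e (nat_lit 1348) (nat_lit 102) (.e (nat_lit 286761) (nat_lit 13) (.e (nat_lit 393246) (nat_lit 17) (.e (nat_lit 7556) (nat_lit 402) (.e (nat_lit 1638) (nat_lit 114) (.e (nat_lit 392960) (nat_lit 16) .nil)))))) (.g (nat_lit 5) .nil .nil)))))) (.nd (nat_lit 4) (.nd (nat_lit 5) (.nd (nat_lit 6) 
(.lf (nat_lit 50441) (.g (nat_lit 2674) (.e (nat_lit 1348) (nat_lit 102) (.e (nat_lit 286761) (nat_lit 13) (.e (nat_lit 393234) (nat_lit 17) (.e (nat_lit 3549) (nat_lit 219) .nil)))) .nil)) 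
(.lf (nat_lit 50505) (.g (nat_lit 2307) (.e (nat_lit 1348) (nat_lit 102) (.e (nat_lit 286761) (nat_lit 13) (.e (nat_lit 393234) (nat_lit 17) (.e (nat_lit 7589) (nat_lit 406) (.e (nat_lit 65631) (nat_lit 15) (.e (nat_lit 7936) (nat_lit 377) .nil)))))) (.g (nat_lit 5) .nil .nil)))) (.nd (nat_lit 6) 
(.lf (nat_lit 50473) (.g (nat_lit 2674) (.e (nat_lit 1348) (nat_lit 102) (.e (nat_lit 286761) (nat_lit 13) (.e (nat_lit 393234) (nat_lit 17) (.e (nat_lit 7514) (nat_lit 402) .nil)))) .nil)) 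
(.lf (nat_lit 50537) (.g (nat_lit 2625) (.e (nat_lit 1348) (nat_lit 102) (.e (nat_lit 286761) (nat_lit 13) (.e (nat_lit 393234) (nat_lit 17) (.e (nat_lit 7604) (nat_lit 409) (.e (nat_lit 131130) (nat_lit 15) (.e (nat_lit 7936) (nat_lit 377) .nil)))))) (.g (nat_lit 4) .nil .nil))))) (.nd (nat_lit 5) (.nd (nat_lit 6) 
(.lf (nat_lit 50457) (.g (nat_lit 1762) (.e (nat_lit 1348) (nat_lit 102) (.e (nat_lit 286761) (nat_lit 13) (.e (nat_lit 393234) (nat_lit 17) (.e (nat_lit 7490) (nat_lit 402) (.e (nat_lit 1626) (nat_lit 114) (.e (nat_lit 392960) (nat_lit 16) .nil)))))) (.g (nat_lit 4) .nil .nil))) 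
(.lf (nat_lit 50521) (.g (nat_lit 3427) (.e (nat_lit 1348) (nat_lit 102) (.e (nat_lit 286761) (nat_lit 13) (.e (nat_lit 393234) (nat_lit 17) (.e (nat_lit 7591) (nat_lit 407) (.e (nat_lit 73729) (nat_lit 0) (.e (nat_lit 6848) (nat_lit 371) (.e (nat_lit 71) (nat_lit 0) .nil))))))) (.g (nat_lit 5) .nil .nil)))) (.nd (nat_lit 6) 
(.lf (nat_lit 50489) (.g (nat_lit 1878) (.e (nat_lit 1348) (nat_lit 102) (.e (nat_lit 286761) (nat_lit 13) (.e (nat_lit 393234) (nat_lit 17) (.e (nat_lit 7936) (nat_lit 402) .nil)))) .nil)) 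
(.lf (nat_lit 50553) (.g (nat_lit 3532) (.e (nat_lit 1348) (nat_lit 102) (.e (nat_lit 286761) (nat_lit 13) (.e (nat_lit 393251) (nat_lit 18) (.e (nat_lit 164179) (nat_lit 154) (.e (nat_lit 57346) (nat_lit 0) (.e (nat_lit 6714) (nat_lit 360) (.e (nat_lit 163975) (nat_lit 30) (.e (nat_lit 573503) (nat_lit 18) .nil)))))))) (.g (nat_lit 4) .nil .nil))))))) 
(.nd (nat_lit 3) (.nd (nat_lit 4) (.nd (nat_lit 5) (.nd (nat_lit 6) 
(.lf (nat_lit 50437) (.g (nat_lit 2647) (.e (nat_lit 1348) (nat_lit 102) (.e (nat_lit 286761) (nat_lit 13) (.e (nat_lit 393234) (nat_lit 17) (.e (nat_lit 3485) (nat_lit 218) .nil)))) .nil)) 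
(.lf (nat_lit 50501) (.g (nat_lit 1770) (.e (nat_lit 1348) (nat_lit 102) (.e (nat_lit 286761) (nat_lit 13) (.e (nat_lit 393234) (nat_lit 17) (.e (nat_lit 7587) (nat_lit 406) (.e (nat_lit 65640) (nat_lit 15) (.e (nat_lit 7936) (nat_lit 377) .nil)))))) (.g (nat_lit 4) .nil .nil)))) (.nd (nat_lit 6) 
(.lf (nat_lit 50469) (.g (nat_lit 2509) (.e (nat_lit 1348) (nat_lit 102) (.e (nat_lit 286761) (nat_lit 13) (.e (nat_lit 393234) (nat_lit 17) (.e (nat_lit 7511) (nat_lit 402) .nil)))) .nil)) 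
(.lf (nat_lit 50533) (.g (nat_lit 3043) (.e (nat_lit 1348) (nat_lit 102) (.e (nat_lit 286761) (nat_lit 13) (.e (nat_lit 393234) (nat_lit 17) (.e (nat_lit 7593) (nat_lit 407) (.e (nat_lit 73730) (nat_lit 0) (.e (nat_lit 6848) (nat_lit 371) (.e (nat_lit 68) (nat_lit 0) .nil))))))) (.g (nat_lit 4) .nil .nil))))) (.nd (nat_lit 5) (.nd (nat_lit 6) 
(.lf (nat_lit 50453) (.g (nat_lit 3478) (.e (nat_lit 1348) (nat_lit 102) (.e (nat_lit 286761) (nat_lit 13) (.e (nat_lit 393234) (nat_lit 17) (.e (nat_lit 7111) (nat_lit 381) (.e (nat_lit 229691) (nat_lit 247) (.e (nat_lit 16128) (nat_lit 225) .nil)))))) (.g (nat_lit 5) .nil .nil))) 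
(.lf (nat_lit 50517) (.g (nat_lit 1140) (.e (nat_lit 1348) (nat_lit 102) (.e (nat_lit 286761) (nat_lit 13) (.e (nat_lit 393234) (nat_lit 17) (.e (nat_lit 7591) (nat_lit 407) .nil)))) .nil))) (.nd (nat_lit 6) 
(.lf (nat_lit 50485) (.g (nat_lit 3659) (.e (nat_lit 1348) (nat_lit 102) (.e (nat_lit 286761) (nat_lit 13) (.e (nat_lit 393234) (nat_lit 17) (.e (nat_lit 7548) (nat_lit 402) (.e (nat_lit 1638) (nat_lit 114) (.e (nat_lit 392960) (nat_lit 16) .nil)))))) (.g (nat_lit 5) .nil .nil))) 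
(.lf (nat_lit 50549) (.g (nat_lit 2429) (.e (nat_lit 1348) (nat_lit 102) (.e (nat_lit 286761) (nat_lit 13) (.e (nat_lit 393251) (nat_lit 18) (.e (nat_lit 164172) (nat_lit 153) (.e (nat_lit 8196) (nat_lit 0) .nil))))) .nil))))) (.nd (nat_lit 4) (.nd (nat_lit 5) (.nd (nat_lit 6) 
(.lf (nat_lit 50445) (.g (nat_lit 2600) (.e (nat_lit 1348) (nat_lit 102) (.e (nat_lit 286761) (nat_lit 13) (.e (nat_lit 393234) (nat_lit 17) (.e (nat_lit 6957) (nat_lit 377) .nil)))) .nil)) 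
(.lf (nat_lit 50509) (.g (nat_lit 2294) (.e (nat_lit 1348) (nat_lit 102) (.e (nat_lit 286761) (nat_lit 13) (.e (nat_lit 393234) (nat_lit 17) (.e (nat_lit 7589) (nat_lit 406) (.e (nat_lit 65635) (nat_lit 15) (.e (nat_lit 7936) (nat_lit 377) .nil)))))) (.g (nat_lit 5) .nil .nil)))) (.nd (nat_lit 6) 
(.lf (nat_lit 50477) (.g (nat_lit 2259) (.e (nat_lit 1348) (nat_lit 102) (.e (nat_lit 286761) (nat_lit 13) (.e (nat_lit 393234) (nat_lit 17) (.e (nat_lit 7536) (nat_lit 402) (.e (nat_lit 1626) (nat_lit 114) (.e (nat_lit 392960) (nat_lit 16) .nil)))))) (.g (nat_lit 5) .nil .nil))) 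
(.lf (nat_lit 50541) (.g (nat_lit 1095) (.e (nat_lit 1348) (nat_lit 102) (.e (nat_lit 286761) (nat_lit 13) (.e (nat_lit 393237) (nat_lit 17) (.e (nat_lit 7936) (nat_lit 402) .nil)))) .nil)))) (.nd (nat_lit 5) (.nd (nat_lit 6) 
(.lf (nat_lit 50461) (.g (nat_lit 2398) (.e (nat_lit 1348) (nat_lit 102) (.e (nat_lit 286761) (nat_lit 13) (.e (nat_lit 393234) (nat_lit 17) (.e (nat_lit 7490) (nat_lit 402) (.e (nat_lit 1642) (nat_lit 114) (.e (nat_lit 392960) (nat_lit 16) .nil)))))) (.g (nat_lit 5) .nil .nil))) 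
(.lf (nat_lit 50525) (.g (nat_lit 1758) (.e (nat_lit 1348) (nat_lit 102) (.e (nat_lit 286761) (nat_lit 13) (.e (nat_lit 393234) (nat_lit 17) (.e (nat_lit 7591) (nat_lit 407) (.e (nat_lit 81664) (nat_lit 23) .nil))))) .nil))) (.nd (nat_lit 6) 
(.lf (nat_lit 50493) (.g (nat_lit 1565) (.e (nat_lit 1348) (nat_lit 102) (.e (nat_lit 286761) (nat_lit 13) (.e (nat_lit 393234) (nat_lit 17) (.e (nat_lit 7587) (nat_lit 406) (.e (nat_lit 65632) (nat_lit 15) (.e (nat_lit 7936) (nat_lit 377) .nil)))))) (.g (nat_lit 4) .nil .nil))) 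
(.lf (nat_lit 50557) (.g (nat_lit 2757) (.e (nat_lit 1348) (nat_lit 102) (.e (nat_lit 286761) (nat_lit 13) (.e (nat_lit 393260) (nat_lit 21) (.e (nat_lit 409616) (nat_lit 10) .nil)))) .nil))))))) (.nd (nat_lit 2) (.nd (nat_lit 3) (.nd (nat_lit 4) (.nd (nat_lit 5) (.nd (nat_lit 6) 
(.lf (nat_lit 50435) (.g (nat_lit 2674) (.e (nat_lit 1348) (nat_lit 102) (.e (nat_lit 286761) (nat_lit 13) (.e (nat_lit 393234) (nat_lit 17) (.e (nat_lit 3473) (nat_lit 218) .nil)))) .nil)) 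
(.lf (nat_lit 50499) (.g (nat_lit 2160) (.e (nat_lit 1348) (nat_lit 102) (.e (nat_lit 286761) (nat_lit 13) (.e (nat_lit 393234) (nat_lit 17) (.e (nat_lit 7587) (nat_lit 406) (.e (nat_lit 65638) (nat_lit 15) (.e (nat_lit 7936) (nat_lit 377) .nil)))))) (.g (nat_lit 5) .nil .nil)))) (.nd (nat_lit 6) 
(.lf (nat_lit 50467) (.g (nat_lit 2145) (.e (nat_lit 1348) (nat_lit 102) (.e (nat_lit 286761) (nat_lit 13) (.e (nat_lit 393234) (nat_lit 17) (.e (nat_lit 7507) (nat_lit 402) .nil)))) .nil)) 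
(.lf (nat_lit 50531) (.g (nat_lit 3358) (.e (nat_lit 1348) (nat_lit 102) (.e (nat_lit 286761) (nat_lit 13) (.e (nat_lit 393234) (nat_lit 17) (.e (nat_lit 7593) (nat_lit 407) (.e (nat_lit 73729) (nat_lit 0) (.e (nat_lit 6848) (nat_lit 371) (.e (nat_lit 71) (nat_lit 0) .nil))))))) (.g (nat_lit 5) .nil .nil))))) (.nd (nat_lit 5) (.nd (nat_lit 6) 
(.lf (nat_lit 50451) (.g (nat_lit 3433) (.e (nat_lit 1348) (nat_lit 102) (.e (nat_lit 286761) (nat_lit 13) (.e (nat_lit 393234) (nat_lit 17) (.e (nat_lit 7110) (nat_lit 380) (.e (nat_lit 164368) (nat_lit 247) (.e (nat_lit 16128) (nat_lit 225) .nil)))))) (.g (nat_lit 5) .nil .nil))) 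
(.lf (nat_lit 50515) (.g (nat_lit 2626) (.e (nat_lit 1348) (nat_lit 102) (.e (nat_lit 286761) (nat_lit 13) (.e (nat_lit 393234) (nat_lit 17) (.e (nat_lit 7589) (nat_lit 406) (.e (nat_lit 65642) (nat_lit 15) (.e (nat_lit 7936) (nat_lit 377) .nil)))))) (.g (nat_lit 5) .nil .nil)))) (.nd (nat_lit 6) 
(.lf (nat_lit 50483) (.g (nat_lit 2925) (.e (nat_lit 1348) (nat_lit 102) (.e (nat_lit 286761) (nat_lit 13) (.e (nat_lit 393234) (nat_lit 17) (.e (nat_lit 7545) (nat_lit 402) (.e (nat_lit 1635) (nat_lit 114) (.e (nat_lit 392960) (nat_lit 16) .nil)))))) (.g (nat_lit 4) .nil .nil))) 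
(.lf (nat_lit 50547) (.g (nat_lit 1905) (.e (nat_lit 1348) (nat_lit 102) (.e (nat_lit 286761) (nat_lit 13) (.e (nat_lit 393251) (nat_lit 18) (.e (nat_lit 171776) (nat_lit 146) .nil)))) .nil))))) (.nd (nat_lit 4) (.nd (nat_lit 5) (.nd (nat_lit 6) 
(.lf (nat_lit 50443) (.g (nat_lit 2651) (.e (nat_lit 1348) (nat_lit 102) (.e (nat_lit 286761) (nat_lit 13) (.e (nat_lit 393234) (nat_lit 17) (.e (nat_lit 3556) (nat_lit 220) .nil)))) .nil)) 
(.lf (nat_lit 50507) (.g (nat_lit 2369) (.e (nat_lit 1348) (nat_lit 102) (.e (nat_lit 286761) (nat_lit 13) (.e (nat_lit 393234) (nat_lit 17) (.e (nat_lit 7589) (nat_lit 406) (.e (nat_lit 65633) (nat_lit 15) (.e (nat_lit 7936) (nat_lit 377) .nil)))))) (.g (nat_lit 5) .nil .nil)))) (.nd (nat_lit 6) 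
(.lf (nat_lit 50475) (.g (nat_lit 3210) (.e (nat_lit 1348) (nat_lit 102) (.e (nat_lit 286761) (nat_lit 13) (.e (nat_lit 393234) (nat_lit 17) (.e (nat_lit 7523) (nat_lit 402) (.e (nat_lit 1638) (nat_lit 114) (.e (nat_lit 392960) (nat_lit 16) .nil)))))) (.g (nat_lit 5) .nil .nil))) 
(.lf (nat_lit 50539) (.g (nat_lit 1878) (.e (nat_lit 1348) (nat_lit 102) (.e (nat_lit 286761) (nat_lit 13) (.e (nat_lit 393234) (nat_lit 17) (.e (nat_lit 7936) (nat_lit 409) .nil)))) .nil)))) (.nd (nat_lit 5) (.nd (nat_lit 6) 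
(.lf (nat_lit 50459) (.g (nat_lit 2215) (.e (nat_lit 1348) (nat_lit 102) (.e (nat_lit 286761) (nat_lit 13) (.e (nat_lit 393234) (nat_lit 17) (.e (nat_lit 7490) (nat_lit 402) (.e (nat_lit 1631) (nat_lit 114) (.e (nat_lit 392960) (nat_lit 16) .nil)))))) (.g (nat_lit 5) .nil .nil))) 
(.lf (nat_lit 50523) (.g (nat_lit 2616) (.e (nat_lit 1348) (nat_lit 102) (.e (nat_lit 286761) (nat_lit 13) (.e (nat_lit 393234) (nat_lit 17) (.e (nat_lit 7591) (nat_lit 407) (.e (nat_lit 73733) (nat_lit 0) (.e (nat_lit 6892) (nat_lit 371) (.e (nat_lit 59) (nat_lit 0) .nil))))))) (.g (nat_lit 4) .nil .nil)))) (.nd (nat_lit 6) 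
(.lf (nat_lit 50491) (.g (nat_lit 1761) (.e (nat_lit 1348) (nat_lit 102) (.e (nat_lit 286761) (nat_lit 13) (.e (nat_lit 393234) (nat_lit 17) (.e (nat_lit 7583) (nat_lit 405) .nil)))) .nil)) 
(.lf (nat_lit 50555) (.g (nat_lit 3357) (.e (nat_lit 1348) (nat_lit 102) (.e (nat_lit 286761) (nat_lit 13) (.e (nat_lit 393259) (nat_lit 21) (.e (nat_lit 409645) (nat_lit 18) (.e (nat_lit 303149) (nat_lit 15) (.e (nat_lit 6134) (nat_lit 332) .nil)))))) (.g (nat_lit 4) .nil .nil))))))) (.nd (nat_lit 3) (.nd (nat_lit 4) (.nd (nat_lit 5) (.nd (nat_lit 6) 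
(.lf (nat_lit 50439) (.g (nat_lit 3534) (.e (nat_lit 1348) (nat_lit 102) (.e (nat_lit 286761) (nat_lit 13) (.e (nat_lit 393234) (nat_lit 17) (.e (nat_lit 3544) (nat_lit 219) (.e (nat_lit 712717) (nat_lit 15) (.e (nat_lit 3774) (nat_lit 229) (.e (nat_lit 794669) (nat_lit 22) (.e (nat_lit 196691) (nat_lit 18) .nil)))))))) (.g (nat_lit 4) .nil .nil))) 
(.lf (nat_lit 50503) (.g (nat_lit 2391) (.e (nat_lit 1348) (nat_lit 102) (.e (nat_lit 286761) (nat_lit 13) (.e (nat_lit 393234) (nat_lit 17) (.e (nat_lit 7587) (nat_lit 406) (.e (nat_lit 65642) (nat_lit 15) (.e (nat_lit 7936) (nat_lit 377) .nil)))))) (.g (nat_lit 5) .nil .nil)))) (.nd (nat_lit 6) 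
(.lf (nat_lit 50471) (.g (nat_lit 1601) (.e (nat_lit 1348) (nat_lit 102) (.e (nat_lit 286761) (nat_lit 13) (.e (nat_lit 393234) (nat_lit 17) (.e (nat_lit 7513) (nat_lit 402) .nil)))) .nil)) 
(.lf (nat_lit 50535) (.g (nat_lit 1609) (.e (nat_lit 1348) (nat_lit 102) (.e (nat_lit 286761) (nat_lit 13) (.e (nat_lit 393234) (nat_lit 17) (.e (nat_lit 7593) (nat_lit 407) (.e (nat_lit 81664) (nat_lit 23) .nil))))) .nil)))) (.nd (nat_lit 5) (.nd (nat_lit 6) 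
(.lf (nat_lit 50455) (.g (nat_lit 2674) (.e (nat_lit 1348) (nat_lit 102) (.e (nat_lit 286761) (nat_lit 13) (.e (nat_lit 393234) (nat_lit 17) (.e (nat_lit 7303) (nat_lit 388) .nil)))) .nil)) 
(.lf (nat_lit 50519) (.g (nat_lit 3461) (.e (nat_lit 1348) (nat_lit 102) (.e (nat_lit 286761) (nat_lit 13) (.e (nat_lit 393234) (nat_lit 17) (.e (nat_lit 7591) (nat_lit 407) (.e (nat_lit 73729) (nat_lit 0) (.e (nat_lit 6848) (nat_lit 371) (.e (nat_lit 61) (nat_lit 0) .nil))))))) (.g (nat_lit 5) .nil .nil)))) (.nd (nat_lit 6) 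
(.lf (nat_lit 50487) (.g (nat_lit 1562) (.e (nat_lit 1348) (nat_lit 102) (.e (nat_lit 286761) (nat_lit 13) (.e (nat_lit 393234) (nat_lit 17) (.e (nat_lit 7567) (nat_lit 402) .nil)))) .nil)) 
(.lf (nat_lit 50551) (.g (nat_lit 4124) (.e (nat_lit 1348) (nat_lit 102) (.e (nat_lit 286761) (nat_lit 13) (.e (nat_lit 393251) (nat_lit 18) (.e (nat_lit 164179) (nat_lit 154) (.e (nat_lit 57346) (nat_lit 0) (.e (nat_lit 6712) (nat_lit 360) (.e (nat_lit 163975) (nat_lit 30) (.e (nat_lit 573503) (nat_lit 18) .nil)))))))) (.g (nat_lit 5) .nil .nil)))))) 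
(.nd (nat_lit 4) (.nd (nat_lit 5) (.nd (nat_lit 6) 
(.lf (nat_lit 50447) (.g (nat_lit 1659) (.e (nat_lit 1348) (nat_lit 102) (.e (nat_lit 286761) (nat_lit 13) (.e (nat_lit 393234) (nat_lit 17) (.e (nat_lit 7065) (nat_lit 377) .nil)))) .nil)) 
(.lf (nat_lit 50511) (.g (nat_lit 2296) (.e (nat_lit 1348) (nat_lit 102) (.e (nat_lit 286761) (nat_lit 13) (.e (nat_lit 393234) (nat_lit 17) (.e (nat_lit 7589) (nat_lit 406) (.e (nat_lit 65637) (nat_lit 15) (.e (nat_lit 7936) (nat_lit 377) .nil)))))) (.g (nat_lit 5) .nil .nil)))) (.nd (nat_lit 6) 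
(.lf (nat_lit 50479) (.g (nat_lit 1685) (.e (nat_lit 1348) (nat_lit 102) (.e (nat_lit 286761) (nat_lit 13) (.e (nat_lit 393234) (nat_lit 17) (.e (nat_lit 7536) (nat_lit 402) (.e (nat_lit 7936) (nat_lit 114) .nil))))) .nil)) 
(.lf (nat_lit 50543) (.g (nat_lit 2876) (.e (nat_lit 1348) (nat_lit 102) (.e (nat_lit 286761) (nat_lit 13) (.e (nat_lit 393244) (nat_lit 17) (.e (nat_lit 7556) (nat_lit 402) (.e (nat_lit 1638) (nat_lit 114) (.e (nat_lit 392960) (nat_lit 16) .nil)))))) (.g (nat_lit 5) .nil .nil))))) (.nd (nat_lit 5) (.nd (nat_lit 6) 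
(.lf (nat_lit 50463) (.g (nat_lit 2674) (.e (nat_lit 1348) (nat_lit 102) (.e (nat_lit 286761) (nat_lit 13) (.e (nat_lit 393234) (nat_lit 17) (.e (nat_lit 7493) (nat_lit 402) .nil)))) .nil)) 
(.lf (nat_lit 50527) (.g (nat_lit 2668) (.e (nat_lit 1348) (nat_lit 102) (.e (nat_lit 286761) (nat_lit 13) (.e (nat_lit 393234) (nat_lit 17) (.e (nat_lit 7593) (nat_lit 407) (.e (nat_lit 73729) (nat_lit 0) (.e (nat_lit 6848) (nat_lit 371) (.e (nat_lit 12) (nat_lit 0) .nil))))))) (.g (nat_lit 4) .nil .nil)))) (.nd (nat_lit 6) 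
(.lf (nat_lit 50495) (.g (nat_lit 1933) (.e (nat_lit 1348) (nat_lit 102) (.e (nat_lit 286761) (nat_lit 13) (.e (nat_lit 393234) (nat_lit 17) (.e (nat_lit 7587) (nat_lit 406) (.e (nat_lit 65634) (nat_lit 15) (.e (nat_lit 7936) (nat_lit 377) .nil)))))) (.g (nat_lit 4) .nil .nil))) 
(.lf (nat_lit 50559) (.g (nat_lit 2054) (.e (nat_lit 1348) (nat_lit 102) (.e (nat_lit 286761) (nat_lit 13) (.e (nat_lit 393260) (nat_lit 21) (.e (nat_lit 409648) (nat_lit 18) .nil)))) .nil)))))))))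

noncomputable def tv703 : DT := (.nd (nat_lit 0) (.nd (nat_lit 1) (.nd (nat_lit 2) (.nd (nat_lit 3) (.nd (nat_lit 4) (.nd (nat_lit 5) (.nd (nat_lit 6) 
(.lf (nat_lit 50560) (.g (nat_lit 3286) (.e (nat_lit 1348) (nat_lit 102) (.e (nat_lit 286761) (nat_lit 13) (.e (nat_lit 393263) (nat_lit 22) (.e (nat_lit 417829) (nat_lit 18) (.e (nat_lit 303149) (nat_lit 15) (.e (nat_lit 6134) (nat_lit 332) .nil)))))) (.g (nat_lit 4) .nil .nil))) 
(.lf (nat_lit 50624) (.g (nat_lit 2656) (.e (nat_lit 1348) (nat_lit 102) (.e (nat_lit 286761) (nat_lit 13) (.e (nat_lit 393298) (nat_lit 27) (.e (nat_lit 491550) (nat_lit 9) (.e (nat_lit 336284) (nat_lit 15) (.e (nat_lit 7936) (nat_lit 377) .nil)))))) (.g (nat_lit 5) .nil .nil)))) (.nd (nat_lit 6) 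
(.lf (nat_lit 50592) (.g (nat_lit 3704) (.e (nat_lit 1348) (nat_lit 102) (.e (nat_lit 286761) (nat_lit 13) (.e (nat_lit 393291) (nat_lit 26) (.e (nat_lit 475219) (nat_lit 44) (.e (nat_lit 737281) (nat_lit 0) (.e (nat_lit 4961) (nat_lit 287) .nil)))))) (.g (nat_lit 5) .nil .nil))) 
(.lf (nat_lit 50656) (.g (nat_lit 2594) (.e (nat_lit 1348) (nat_lit 102) (.e (nat_lit 286761) (nat_lit 13) (.e (nat_lit 393300) (nat_lit 27) (.e (nat_lit 491549) (nat_lit 9) (.e (nat_lit 336245) (nat_lit 15) (.e (nat_lit 7936) (nat_lit 377) .nil)))))) (.g (nat_lit 4) .nil .nil))))) (.nd (nat_lit 5) (.nd (nat_lit 6) 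
(.lf (nat_lit 50576) (.g (nat_lit 3833) (.e (nat_lit 1348) (nat_lit 102) (.e (nat_lit 286761) (nat_lit 13) (.e (nat_lit 393282) (nat_lit 24) (.e (nat_lit 434275) (nat_lit 39) (.e (nat_lit 663565) (nat_lit 3) (.e (nat_lit 57713) (nat_lit 176) .nil)))))) (.g (nat_lit 5) .nil .nil))) 
(.lf (nat_lit 50640) (.g (nat_lit 2741) (.e (nat_lit 1348) (nat_lit 102) (.e (nat_lit 286761) (nat_lit 13) (.e (nat_lit 393300) (nat_lit 27) (.e (nat_lit 491547) (nat_lit 9) (.e (nat_lit 336247) (nat_lit 15) (.e (nat_lit 7936) (nat_lit 377) .nil)))))) (.g (nat_lit 5) .nil .nil)))) (.nd (nat_lit 6) 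
(.lf (nat_lit 50608) (.g (nat_lit 1384) (.e (nat_lit 1348) (nat_lit 102) (.e (nat_lit 286761) (nat_lit 13) (.e (nat_lit 393293) (nat_lit 26) (.e (nat_lit 475217) (nat_lit 44) .nil)))) .nil)) 
(.lf (nat_lit 50672) (.g (nat_lit 4397) (.e (nat_lit 1348) (nat_lit 102) (.e (nat_lit 286761) (nat_lit 13) (.e (nat_lit 393300) (nat_lit 27) (.e (nat_lit 491549) (nat_lit 9) (.e (nat_lit 336306) (nat_lit 15) (.e (nat_lit 7936) (nat_lit 377) .nil)))))) (.g (nat_lit 5) .nil .nil)))))) (.nd (nat_lit 4) (.nd (nat_lit 5) (.nd (nat_lit 6) 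
(.lf (nat_lit 50568) (.g (nat_lit 2672) (.e (nat_lit 1348) (nat_lit 102) (.e (nat_lit 286761) (nat_lit 13) (.e (nat_lit 393265) (nat_lit 22) (.e (nat_lit 417820) (nat_lit 10) (.e (nat_lit 5373) (nat_lit 299) (.e (nat_lit 16128) (nat_lit 180) .nil)))))) (.g (nat_lit 5) .nil .nil))) 
(.lf (nat_lit 50632) (.g (nat_lit 2089) (.e (nat_lit 1348) (nat_lit 102) (.e (nat_lit 286761) (nat_lit 13) (.e (nat_lit 393299) (nat_lit 27) (.e (nat_lit 491562) (nat_lit 12) .nil)))) .nil))) (.nd (nat_lit 6) 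
(.lf (nat_lit 50600) (.g (nat_lit 2826) (.e (nat_lit 1348) (nat_lit 102) (.e (nat_lit 286761) (nat_lit 13) (.e (nat_lit 393293) (nat_lit 26) (.e (nat_lit 475198) (nat_lit 40) (.e (nat_lit 704846) (nat_lit 15) (.e (nat_lit 57803) (nat_lit 245) .nil)))))) (.g (nat_lit 4) .nil .nil))) 
(.lf (nat_lit 50664) (.g (nat_lit 2881) (.e (nat_lit 1348) (nat_lit 102) (.e (nat_lit 286761) (nat_lit 13) (.e (nat_lit 393300) (nat_lit 27) (.e (nat_lit 491549) (nat_lit 9) (.e (nat_lit 336269) (nat_lit 15) (.e (nat_lit 7936) (nat_lit 377) .nil)))))) (.g (nat_lit 4) .nil .nil))))) (.nd (nat_lit 5) (.nd (nat_lit 6) 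
(.lf (nat_lit 50584) (.g (nat_lit 2204) (.e (nat_lit 1348) (nat_lit 102) (.e (nat_lit 286761) (nat_lit 13) (.e (nat_lit 393284) (nat_lit 24) (.e (nat_lit 434276) (nat_lit 39) (.e (nat_lit 663565) (nat_lit 3) (.e (nat_lit 65280) (nat_lit 176) .nil)))))) (.g (nat_lit 4) .nil .nil))) 
(.lf (nat_lit 50648) (.g (nat_lit 1882) (.e (nat_lit 1348) (nat_lit 102) (.e (nat_lit 286761) (nat_lit 13) (.e (nat_lit 393300) (nat_lit 27) (.e (nat_lit 491547) (nat_lit 9) (.e (nat_lit 336297) (nat_lit 15) (.e (nat_lit 7936) (nat_lit 377) .nil)))))) (.g (nat_lit 4) .nil .nil)))) (.nd (nat_lit 6) 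
(.lf (nat_lit 50616) (.g (nat_lit 2779) (.e (nat_lit 1348) (nat_lit 102) (.e (nat_lit 286761) (nat_lit 13) (.e (nat_lit 393298) (nat_lit 27) (.e (nat_lit 491549) (nat_lit 9) (.e (nat_lit 336240) (nat_lit 15) (.e (nat_lit 7060) (nat_lit 377) .nil)))))) (.g (nat_lit 4) .nil .nil))) 
(.lf (nat_lit 50680) (.g (nat_lit 2549) (.e (nat_lit 1348) (nat_lit 102) (.e (nat_lit 286761) (nat_lit 13) (.e (nat_lit 393300) (nat_lit 27) (.e (nat_lit 491556) (nat_lit 9) (.e (nat_lit 336307) (nat_lit 15) (.e (nat_lit 7936) (nat_lit 377) .nil)))))) (.g (nat_lit 4) .nil .nil))))))) (.nd (nat_lit 3) (.nd (nat_lit 4) (.nd (nat_lit 5) (.nd (nat_lit 6) 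
(.lf (nat_lit 50564) (.g (nat_lit 2341) (.e (nat_lit 1348) (nat_lit 102) (.e (nat_lit 286761) (nat_lit 13) (.e (nat_lit 393264) (nat_lit 22) (.e (nat_lit 417817) (nat_lit 10) (.e (nat_lit 5742) (nat_lit 313) (.e (nat_lit 16128) (nat_lit 225) .nil)))))) (.g (nat_lit 4) .nil .nil))) 
(.lf (nat_lit 50628) (.g (nat_lit 2900) (.e (nat_lit 1348) (nat_lit 102) (.e (nat_lit 286761) (nat_lit 13) (.e (nat_lit 393298) (nat_lit 27) (.e (nat_lit 491564) (nat_lit 12) (.e (nat_lit 392960) (nat_lit 16) .nil))))) (.g (nat_lit 4) .nil .nil)))) (.nd (nat_lit 6) 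
(.lf (nat_lit 50596) (.g (nat_lit 1649) (.e (nat_lit 1348) (nat_lit 102) (.e (nat_lit 286761) (nat_lit 13) (.e (nat_lit 393293) (nat_lit 26) (.e (nat_lit 475162) (nat_lit 21) .nil)))) .nil)) 
(.lf (nat_lit 50660) (.g (nat_lit 3372) (.e (nat_lit 1348) (nat_lit 102) (.e (nat_lit 286761) (nat_lit 13) (.e (nat_lit 393300) (nat_lit 27) (.e (nat_lit 491549) (nat_lit 9) (.e (nat_lit 336260) (nat_lit 15) (.e (nat_lit 7936) (nat_lit 377) .nil)))))) (.g (nat_lit 5) .nil .nil))))) (.nd (nat_lit 5) (.nd (nat_lit 6) 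
(.lf (nat_lit 50580) (.g (nat_lit 2835) (.e (nat_lit 1348) (nat_lit 102) (.e (nat_lit 286761) (nat_lit 13) (.e (nat_lit 393283) (nat_lit 24) (.e (nat_lit 434276) (nat_lit 39) (.e (nat_lit 663565) (nat_lit 3) (.e (nat_lit 57713) (nat_lit 176) .nil)))))) (.g (nat_lit 4) .nil .nil))) 
(.lf (nat_lit 50644) (.g (nat_lit 2093) (.e (nat_lit 1348) (nat_lit 102) (.e (nat_lit 286761) (nat_lit 13) (.e (nat_lit 393300) (nat_lit 27) (.e (nat_lit 491547) (nat_lit 9) (.e (nat_lit 336269) (nat_lit 15) (.e (nat_lit 7936) (nat_lit 377) .nil)))))) (.g (nat_lit 4) .nil .nil)))) (.nd (nat_lit 6) 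
(.lf (nat_lit 50612) (.g (nat_lit 1735) (.e (nat_lit 1348) (nat_lit 102) (.e (nat_lit 286761) (nat_lit 13) (.e (nat_lit 393293) (nat_lit 26) (.e (nat_lit 483072) (nat_lit 44) .nil)))) .nil)) 
(.lf (nat_lit 50676) (.g (nat_lit 2144) (.e (nat_lit 1348) (nat_lit 102) (.e (nat_lit 286761) (nat_lit 13) (.e (nat_lit 393300) (nat_lit 27) (.e (nat_lit 491556) (nat_lit 9) (.e (nat_lit 336244) (nat_lit 15) (.e (nat_lit 7936) (nat_lit 377) .nil)))))) (.g (nat_lit 4) .nil .nil)))))) (.nd (nat_lit 4) (.nd (nat_lit 5) (.nd (nat_lit 6) 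
(.lf (nat_lit 50572) (.g (nat_lit 365) (.e (nat_lit 1348) (nat_lit 102) (.e (nat_lit 286761) (nat_lit 13) (.e (nat_lit 393270) (nat_lit 23) .nil))) .nil)) 
(.lf (nat_lit 50636) (.g (nat_lit 2559) (.e (nat_lit 1348) (nat_lit 102) (.e (nat_lit 286761) (nat_lit 13) (.e (nat_lit 393300) (nat_lit 27) (.e (nat_lit 491546) (nat_lit 9) (.e (nat_lit 336292) (nat_lit 15) (.e (nat_lit 7936) (nat_lit 377) .nil)))))) (.g (nat_lit 4) .nil .nil)))) (.nd (nat_lit 6) 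
(.lf (nat_lit 50604) (.g (nat_lit 1309) (.e (nat_lit 1348) (nat_lit 102) (.e (nat_lit 286761) (nat_lit 13) (.e (nat_lit 393293) (nat_lit 26) (.e (nat_lit 475207) (nat_lit 41) .nil)))) .nil)) 
(.lf (nat_lit 50668) (.g (nat_lit 2840) (.e (nat_lit 1348) (nat_lit 102) (.e (nat_lit 286761) (nat_lit 13) (.e (nat_lit 393300) (nat_lit 27) (.e (nat_lit 491549) (nat_lit 9) (.e (nat_lit 336286) (nat_lit 15) (.e (nat_lit 7936) (nat_lit 377) .nil)))))) (.g (nat_lit 4) .nil .nil))))) (.nd (nat_lit 5) (.nd (nat_lit 6) 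
(.lf (nat_lit 50588) (.g (nat_lit 1948) (.e (nat_lit 1348) (nat_lit 102) (.e (nat_lit 286761) (nat_lit 13) (.e (nat_lit 393291) (nat_lit 26) (.e (nat_lit 475216) (nat_lit 44) .nil)))) .nil)) 
(.lf (nat_lit 50652) (.g (nat_lit 1786) (.e (nat_lit 1348) (nat_lit 102) (.e (nat_lit 286761) (nat_lit 13) (.e (nat_lit 393300) (nat_lit 27) (.e (nat_lit 491547) (nat_lit 9) (.e (nat_lit 336308) (nat_lit 15) (.e (nat_lit 7936) (nat_lit 377) .nil)))))) (.g (nat_lit 4) .nil .nil)))) (.nd (nat_lit 6) 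
(.lf (nat_lit 50620) (.g (nat_lit 2138) (.e (nat_lit 1348) (nat_lit 102) (.e (nat_lit 286761) (nat_lit 13) (.e (nat_lit 393298) (nat_lit 27) (.e (nat_lit 491550) (nat_lit 9) (.e (nat_lit 336242) (nat_lit 15) (.e (nat_lit 7064) (nat_lit 377) .nil)))))) (.g (nat_lit 4) .nil .nil))) 
(.lf (nat_lit 50684) (.g (nat_lit 3251) (.e (nat_lit 1348) (nat_lit 102) (.e (nat_lit 286761) (nat_lit 13) (.e (nat_lit 393300) (nat_lit 27) (.e (nat_lit 491565) (nat_lit 12) (.e (nat_lit 392960) (nat_lit 16) .nil))))) (.g (nat_lit 4) .nil .nil)))))))) (.nd (nat_lit 2) (.nd (nat_lit 3) (.nd (nat_lit 4) (.nd (nat_lit 5) (.nd (nat_lit 6) 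
(.lf (nat_lit 50562) (.g (nat_lit 2326) (.e (nat_lit 1348) (nat_lit 102) (.e (nat_lit 286761) (nat_lit 13) (.e (nat_lit 393264) (nat_lit 22) (.e (nat_lit 417814) (nat_lit 10) (.e (nat_lit 5741) (nat_lit 313) (.e (nat_lit 16128) (nat_lit 225) .nil)))))) (.g (nat_lit 4) .nil .nil))) 
(.lf (nat_lit 50626) (.g (nat_lit 2692) (.e (nat_lit 1348) (nat_lit 102) (.e (nat_lit 286761) (nat_lit 13) (.e (nat_lit 393298) (nat_lit 27) (.e (nat_lit 491562) (nat_lit 12) (.e (nat_lit 392960) (nat_lit 16) .nil))))) (.g (nat_lit 4) .nil .nil)))) (.nd (nat_lit 6) 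
(.lf (nat_lit 50594) (.g (nat_lit 189) (.e (nat_lit 1348) (nat_lit 102) (.e (nat_lit 286761) (nat_lit 13) (.e (nat_lit 393293) (nat_lit 26) .nil))) .nil)) 
(.lf (nat_lit 50658) (.g (nat_lit 2067) (.e (nat_lit 1348) (nat_lit 102) (.e (nat_lit 286761) (nat_lit 13) (.e (nat_lit 393300) (nat_lit 27) (.e (nat_lit 491549) (nat_lit 9) (.e (nat_lit 336257) (nat_lit 15) .nil))))) .nil)))) (.nd (nat_lit 5) (.nd (nat_lit 6) 
(.lf (nat_lit 50578) (.g (nat_lit 3133) (.e (nat_lit 1348) (nat_lit 102) (.e (nat_lit 286761) (nat_lit 13) (.e (nat_lit 393282) (nat_lit 24) (.e (nat_lit 434276) (nat_lit 39) (.e (nat_lit 663565) (nat_lit 3) (.e (nat_lit 57713) (nat_lit 176) .nil)))))) (.g (nat_lit 4) .nil .nil))) 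
(.lf (nat_lit 50642) (.g (nat_lit 1940) (.e (nat_lit 1348) (nat_lit 102) (.e (nat_lit 286761) (nat_lit 13) (.e (nat_lit 393300) (nat_lit 27) (.e (nat_lit 491547) (nat_lit 9) (.e (nat_lit 336263) (nat_lit 15) (.e (nat_lit 7936) (nat_lit 377) .nil)))))) (.g (nat_lit 4) .nil .nil)))) (.nd (nat_lit 6) 
(.lf (nat_lit 50610) (.g (nat_lit 1309) (.e (nat_lit 1348) (nat_lit 102) (.e (nat_lit 286761) (nat_lit 13) (.e (nat_lit 393293) (nat_lit 26) (.e (nat_lit 475219) (nat_lit 44) .nil)))) .nil)) 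
(.lf (nat_lit 50674) (.g (nat_lit 1638) (.e (nat_lit 1348) (nat_lit 102) (.e (nat_lit 286761) (nat_lit 13) (.e (nat_lit 393300) (nat_lit 27) (.e (nat_lit 491553) (nat_lit 9) .nil)))) .nil))))) (.nd (nat_lit 4) (.nd (nat_lit 5) (.nd (nat_lit 6) 
(.lf (nat_lit 50570) (.g (nat_lit 1638) (.e (nat_lit 1348) (nat_lit 102) (.e (nat_lit 286761) (nat_lit 13) (.e (nat_lit 393265) (nat_lit 22) (.e (nat_lit 417828) (nat_lit 18) .nil)))) .nil)) 
(.lf (nat_lit 50634) (.g (nat_lit 2187) (.e (nat_lit 1348) (nat_lit 102) (.e (nat_lit 286761) (nat_lit 13) (.e (nat_lit 393299) (nat_lit 27) (.e (nat_lit 491565) (nat_lit 12) .nil)))) .nil))) (.nd (nat_lit 6) 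
(.lf (nat_lit 50602) (.g (nat_lit 2717) (.e (nat_lit 1348) (nat_lit 102) (.e (nat_lit 286761) (nat_lit 13) (.e (nat_lit 393293) (nat_lit 26) (.e (nat_lit 475204) (nat_lit 40) (.e (nat_lit 704808) (nat_lit 14) (.e (nat_lit 1008) (nat_lit 81) (.e (nat_lit 4921) (nat_lit 287) .nil))))))) (.g (nat_lit 4) .nil .nil))) 
(.lf (nat_lit 50666) (.g (nat_lit 3338) (.e (nat_lit 1348) (nat_lit 102) (.e (nat_lit 286761) (nat_lit 13) (.e (nat_lit 393300) (nat_lit 27) (.e (nat_lit 491549) (nat_lit 9) (.e (nat_lit 336284) (nat_lit 15) (.e (nat_lit 7936) (nat_lit 377) .nil)))))) (.g (nat_lit 5) .nil .nil))))) (.nd (nat_lit 5) (.nd (nat_lit 6) 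
(.lf (nat_lit 50586) (.g (nat_lit 1332) (.e (nat_lit 1348) (nat_lit 102) (.e (nat_lit 286761) (nat_lit 13) (.e (nat_lit 393289) (nat_lit 25) (.e (nat_lit 466688) (nat_lit 37) .nil)))) .nil)) 
(.lf (nat_lit 50650) (.g (nat_lit 1967) (.e (nat_lit 1348) (nat_lit 102) (.e (nat_lit 286761) (nat_lit 13) (.e (nat_lit 393300) (nat_lit 27) (.e (nat_lit 491547) (nat_lit 9) (.e (nat_lit 336303) (nat_lit 15) (.e (nat_lit 7936) (nat_lit 377) .nil)))))) (.g (nat_lit 4) .nil .nil)))) (.nd (nat_lit 6) 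
(.lf (nat_lit 50618) (.g (nat_lit 2663) (.e (nat_lit 1348) (nat_lit 102) (.e (nat_lit 286761) (nat_lit 13) (.e (nat_lit 393298) (nat_lit 27) (.e (nat_lit 491549) (nat_lit 9) (.e (nat_lit 336306) (nat_lit 15) (.e (nat_lit 7936) (nat_lit 377) .nil)))))) (.g (nat_lit 4) .nil .nil))) 
(.lf (nat_lit 50682) (.g (nat_lit 3485) (.e (nat_lit 1348) (nat_lit 102) (.e (nat_lit 286761) (nat_lit 13) (.e (nat_lit 393300) (nat_lit 27) (.e (nat_lit 491563) (nat_lit 12) (.e (nat_lit 392960) (nat_lit 16) .nil))))) (.g (nat_lit 4) .nil .nil))))))) (.nd (nat_lit 3) (.nd (nat_lit 4) (.nd (nat_lit 5) (.nd (nat_lit 6) 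
(.lf (nat_lit 50566) (.g (nat_lit 1103) (.e (nat_lit 1348) (nat_lit 102) (.e (nat_lit 286761) (nat_lit 13) (.e (nat_lit 393264) (nat_lit 22) (.e (nat_lit 417830) (nat_lit 19) .nil)))) .nil)) 
(.lf (nat_lit 50630) (.g (nat_lit 3788) (.e (nat_lit 1348) (nat_lit 102) (.e (nat_lit 286761) (nat_lit 13) (.e (nat_lit 393298) (nat_lit 27) (.e (nat_lit 491566) (nat_lit 12) (.e (nat_lit 392960) (nat_lit 16) .nil))))) (.g (nat_lit 4) .nil .nil)))) (.nd (nat_lit 6) 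
(.lf (nat_lit 50598) (.g (nat_lit 2116) (.e (nat_lit 1348) (nat_lit 102) (.e (nat_lit 286761) (nat_lit 13) (.e (nat_lit 393293) (nat_lit 26) (.e (nat_lit 475198) (nat_lit 40) (.e (nat_lit 704602) (nat_lit 7) .nil))))) .nil)) 
(.lf (nat_lit 50662) (.g (nat_lit 2977) (.e (nat_lit 1348) (nat_lit 102) (.e (nat_lit 286761) (nat_lit 13) (.e (nat_lit 393300) (nat_lit 27) (.e (nat_lit 491549) (nat_lit 9) (.e (nat_lit 336265) (nat_lit 15) (.e (nat_lit 7936) (nat_lit 377) .nil)))))) (.g (nat_lit 4) .nil .nil))))) (.nd (nat_lit 5) (.nd (nat_lit 6) 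
(.lf (nat_lit 50582) (.g (nat_lit 2317) (.e (nat_lit 1348) (nat_lit 102) (.e (nat_lit 286761) (nat_lit 13) (.e (nat_lit 393284) (nat_lit 24) (.e (nat_lit 434275) (nat_lit 39) (.e (nat_lit 663565) (nat_lit 3) .nil))))) .nil)) 
(.lf (nat_lit 50646) (.g (nat_lit 2039) (.e (nat_lit 1348) (nat_lit 102) (.e (nat_lit 286761) (nat_lit 13) (.e (nat_lit 393300) (nat_lit 27) (.e (nat_lit 491547) (nat_lit 9) (.e (nat_lit 336284) (nat_lit 15) (.e (nat_lit 7936) (nat_lit 377) .nil)))))) (.g (nat_lit 4) .nil .nil)))) (.nd (nat_lit 6) 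
(.lf (nat_lit 50614) (.g (nat_lit 2402) (.e (nat_lit 1348) (nat_lit 102) (.e (nat_lit 286761) (nat_lit 13) (.e (nat_lit 393297) (nat_lit 27) (.e (nat_lit 491566) (nat_lit 12) (.e (nat_lit 392960) (nat_lit 16) .nil))))) (.g (nat_lit 4) .nil .nil))) 
(.lf (nat_lit 50678) (.g (nat_lit 2075) (.e (nat_lit 1348) (nat_lit 102) (.e (nat_lit 286761) (nat_lit 13) (.e (nat_lit 393300) (nat_lit 27) (.e (nat_lit 491556) (nat_lit 9) (.e (nat_lit 336276) (nat_lit 15) (.e (nat_lit 7936) (nat_lit 377) .nil)))))) (.g (nat_lit 4) .nil .nil)))))) (.nd (nat_lit 4) (.nd (nat_lit 5) (.nd (nat_lit 6) 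
(.lf (nat_lit 50574) (.g (nat_lit 1371) (.e (nat_lit 1348) (nat_lit 102) (.e (nat_lit 286761) (nat_lit 13) (.e (nat_lit 393270) (nat_lit 23) (.e (nat_lit 426360) (nat_lit 15) .nil)))) .nil)) 
(.lf (nat_lit 50638) (.g (nat_lit 2537) (.e (nat_lit 1348) (nat_lit 102) (.e (nat_lit 286761) (nat_lit 13) (.e (nat_lit 393300) (nat_lit 27) (.e (nat_lit 491547) (nat_lit 9) (.e (nat_lit 336240) (nat_lit 15) (.e (nat_lit 7060) (nat_lit 377) .nil)))))) (.g (nat_lit 5) .nil .nil)))) (.nd (nat_lit 6) 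
(.lf (nat_lit 50606) (.g (nat_lit 2919) (.e (nat_lit 1348) (nat_lit 102) (.e (nat_lit 286761) (nat_lit 13) (.e (nat_lit 393293) (nat_lit 26) (.e (nat_lit 475210) (nat_lit 41) (.e (nat_lit 712722) (nat_lit 15) (.e (nat_lit 7936) (nat_lit 377) .nil)))))) (.g (nat_lit 4) .nil .nil))) 
(.lf (nat_lit 50670) (.g (nat_lit 2985) (.e (nat_lit 1348) (nat_lit 102) (.e (nat_lit 286761) (nat_lit 13) (.e (nat_lit 393300) (nat_lit 27) (.e (nat_lit 491549) (nat_lit 9) (.e (nat_lit 336301) (nat_lit 15) (.e (nat_lit 7936) (nat_lit 377) .nil)))))) (.g (nat_lit 4) .nil .nil))))) (.nd (nat_lit 5) (.nd (nat_lit 6) 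
(.lf (nat_lit 50590) (.g (nat_lit 2296) (.e (nat_lit 1348) (nat_lit 102) (.e (nat_lit 286761) (nat_lit 13) (.e (nat_lit 393291) (nat_lit 26) (.e (nat_lit 475219) (nat_lit 44) (.e (nat_lit 737281) (nat_lit 0) .nil))))) .nil)) 
(.lf (nat_lit 50654) (.g (nat_lit 3280) (.e (nat_lit 1348) (nat_lit 102) (.e (nat_lit 286761) (nat_lit 13) (.e (nat_lit 393300) (nat_lit 27) (.e (nat_lit 491549) (nat_lit 9) (.e (nat_lit 336240) (nat_lit 15) (.e (nat_lit 7060) (nat_lit 377) .nil)))))) (.g (nat_lit 5) .nil .nil)))) (.nd (nat_lit 6) 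
(.lf (nat_lit 50622) (.g (nat_lit 2378) (.e (nat_lit 1348) (nat_lit 102) (.e (nat_lit 286761) (nat_lit 13) (.e (nat_lit 393298) (nat_lit 27) (.e (nat_lit 491550) (nat_lit 9) (.e (nat_lit 336247) (nat_lit 15) (.e (nat_lit 7936) (nat_lit 377) .nil)))))) (.g (nat_lit 4) .nil .nil))) 
(.lf (nat_lit 50686) (.g (nat_lit 463) (.e (nat_lit 1348) (nat_lit 102) (.e (nat_lit 286761) (nat_lit 13) (.e (nat_lit 393301) (nat_lit 27) .nil))) .nil)))))))) (.nd (nat_lit 1) (.nd (nat_lit 2) (.nd (nat_lit 3) (.nd (nat_lit 4) (.nd (nat_lit 5) (.nd (nat_lit 6) 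
(.lf (nat_lit 50561) (.g (nat_lit 1141) (.e (nat_lit 1348) (nat_lit 102) (.e (nat_lit 286761) (nat_lit 13) (.e (nat_lit 393264) (nat_lit 22) (.e (nat_lit 417792) (nat_lit 0) .nil)))) .nil)) 
(.lf (nat_lit 50625) (.g (nat_lit 1537) (.e (nat_lit 1348) (nat_lit 102) (.e (nat_lit 286761) (nat_lit 13) (.e (nat_lit 393298) (nat_lit 27) (.e (nat_lit 491550) (nat_lit 9) (.e (nat_lit 336306) (nat_lit 15) (.e (nat_lit 7936) (nat_lit 377) .nil)))))) (.g (nat_lit 4) .nil .nil)))) (.nd (nat_lit 6) 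
(.lf (nat_lit 50593) (.g (nat_lit 1918) (.e (nat_lit 1348) (nat_lit 102) (.e (nat_lit 286761) (nat_lit 13) (.e (nat_lit 393291) (nat_lit 26) (.e (nat_lit 475220) (nat_lit 44) .nil)))) .nil)) 
(.lf (nat_lit 50657) (.g (nat_lit 3420) (.e (nat_lit 1348) (nat_lit 102) (.e (nat_lit 286761) (nat_lit 13) (.e (nat_lit 393300) (nat_lit 27) (.e (nat_lit 491549) (nat_lit 9) (.e (nat_lit 336247) (nat_lit 15) (.e (nat_lit 7936) (nat_lit 377) .nil)))))) (.g (nat_lit 5) .nil .nil))))) (.nd (nat_lit 5) (.nd (nat_lit 6) 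
(.lf (nat_lit 50577) (.g (nat_lit 2563) (.e (nat_lit 1348) (nat_lit 102) (.e (nat_lit 286761) (nat_lit 13) (.e (nat_lit 393282) (nat_lit 24) (.e (nat_lit 434275) (nat_lit 39) (.e (nat_lit 663565) (nat_lit 3) (.e (nat_lit 65280) (nat_lit 176) .nil)))))) (.g (nat_lit 4) .nil .nil))) 
(.lf (nat_lit 50641) (.g (nat_lit 2672) (.e (nat_lit 1348) (nat_lit 102) (.e (nat_lit 286761) (nat_lit 13) (.e (nat_lit 393300) (nat_lit 27) (.e (nat_lit 491547) (nat_lit 9) (.e (nat_lit 336258) (nat_lit 15) (.e (nat_lit 7936) (nat_lit 377) .nil)))))) (.g (nat_lit 5) .nil .nil)))) (.nd (nat_lit 6) 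
(.lf (nat_lit 50609) (.g (nat_lit 2670) (.e (nat_lit 1348) (nat_lit 102) (.e (nat_lit 286761) (nat_lit 13) (.e (nat_lit 393293) (nat_lit 26) (.e (nat_lit 475217) (nat_lit 44) (.e (nat_lit 737290) (nat_lit 0) (.e (nat_lit 4961) (nat_lit 287) .nil)))))) (.g (nat_lit 5) .nil .nil))) 
(.lf (nat_lit 50673) (.g (nat_lit 3033) (.e (nat_lit 1348) (nat_lit 102) (.e (nat_lit 286761) (nat_lit 13) (.e (nat_lit 393300) (nat_lit 27) (.e (nat_lit 491549) (nat_lit 9) (.e (nat_lit 336308) (nat_lit 15) (.e (nat_lit 7936) (nat_lit 377) .nil)))))) (.g (nat_lit 4) .nil .nil)))))) (.nd (nat_lit 4) (.nd (nat_lit 5) (.nd (nat_lit 6) 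
(.lf (nat_lit 50569) (.g (nat_lit 2889) (.e (nat_lit 1348) (nat_lit 102) (.e (nat_lit 286761) (nat_lit 13) (.e (nat_lit 393265) (nat_lit 22) (.e (nat_lit 417820) (nat_lit 10) (.e (nat_lit 5740) (nat_lit 313) (.e (nat_lit 16128) (nat_lit 225) .nil)))))) (.g (nat_lit 5) .nil .nil))) 
(.lf (nat_lit 50633) (.g (nat_lit 3805) (.e (nat_lit 1348) (nat_lit 102) (.e (nat_lit 286761) (nat_lit 13) (.e (nat_lit 393299) (nat_lit 27) (.e (nat_lit 491563) (nat_lit 12) (.e (nat_lit 392960) (nat_lit 16) .nil))))) (.g (nat_lit 4) .nil .nil)))) (.nd (nat_lit 6) 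
(.lf (nat_lit 50601) (.g (nat_lit 1299) (.e (nat_lit 1348) (nat_lit 102) (.e (nat_lit 286761) (nat_lit 13) (.e (nat_lit 393293) (nat_lit 26) (.e (nat_lit 475204) (nat_lit 40) .nil)))) .nil)) 
(.lf (nat_lit 50665) (.g (nat_lit 2978) (.e (nat_lit 1348) (nat_lit 102) (.e (nat_lit 286761) (nat_lit 13) (.e (nat_lit 393300) (nat_lit 27) (.e (nat_lit 491549) (nat_lit 9) (.e (nat_lit 336270) (nat_lit 15) (.e (nat_lit 7936) (nat_lit 377) .nil)))))) (.g (nat_lit 4) .nil .nil))))) (.nd (nat_lit 5) (.nd (nat_lit 6) 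
(.lf (nat_lit 50585) (.g (nat_lit 1655) (.e (nat_lit 1348) (nat_lit 102) (.e (nat_lit 286761) (nat_lit 13) (.e (nat_lit 393284) (nat_lit 24) (.e (nat_lit 434281) (nat_lit 40) .nil)))) .nil)) 
(.lf (nat_lit 50649) (.g (nat_lit 1738) (.e (nat_lit 1348) (nat_lit 102) (.e (nat_lit 286761) (nat_lit 13) (.e (nat_lit 393300) (nat_lit 27) (.e (nat_lit 491547) (nat_lit 9) (.e (nat_lit 336301) (nat_lit 15) (.e (nat_lit 7936) (nat_lit 377) .nil)))))) (.g (nat_lit 4) .nil .nil)))) (.nd (nat_lit 6) 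
(.lf (nat_lit 50617) (.g (nat_lit 3096) (.e (nat_lit 1348) (nat_lit 102) (.e (nat_lit 286761) (nat_lit 13) (.e (nat_lit 393298) (nat_lit 27) (.e (nat_lit 491549) (nat_lit 9) (.e (nat_lit 336284) (nat_lit 15) (.e (nat_lit 7936) (nat_lit 377) .nil)))))) (.g (nat_lit 4) .nil .nil))) 
(.lf (nat_lit 50681) (.g (nat_lit 2371) (.e (nat_lit 1348) (nat_lit 102) (.e (nat_lit 286761) (nat_lit 13) (.e (nat_lit 393300) (nat_lit 27) (.e (nat_lit 491562) (nat_lit 12) (.e (nat_lit 392960) (nat_lit 16) .nil))))) (.g (nat_lit 4) .nil .nil))))))) (.nd (nat_lit 3) (.nd (nat_lit 4) (.nd (nat_lit 5) (.nd (nat_lit 6) 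
(.lf (nat_lit 50565) (.g (nat_lit 2409) (.e (nat_lit 1348) (nat_lit 102) (.e (nat_lit 286761) (nat_lit 13) (.e (nat_lit 393264) (nat_lit 22) (.e (nat_lit 417828) (nat_lit 18) (.e (nat_lit 303149) (nat_lit 15) (.e (nat_lit 6134) (nat_lit 332) .nil)))))) (.g (nat_lit 4) .nil .nil))) 
(.lf (nat_lit 50629) (.g (nat_lit 3140) (.e (nat_lit 1348) (nat_lit 102) (.e (nat_lit 286761) (nat_lit 13) (.e (nat_lit 393298) (nat_lit 27) (.e (nat_lit 491565) (nat_lit 12) (.e (nat_lit 392960) (nat_lit 16) .nil))))) (.g (nat_lit 4) .nil .nil)))) (.nd (nat_lit 6) 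
(.lf (nat_lit 50597) (.g (nat_lit 2229) (.e (nat_lit 1348) (nat_lit 102) (.e (nat_lit 286761) (nat_lit 13) (.e (nat_lit 393293) (nat_lit 26) (.e (nat_lit 475196) (nat_lit 40) (.e (nat_lit 704590) (nat_lit 3) (.e (nat_lit 171776) (nat_lit 176) .nil)))))) (.g (nat_lit 5) .nil .nil))) 
(.lf (nat_lit 50661) (.g (nat_lit 2639) (.e (nat_lit 1348) (nat_lit 102) (.e (nat_lit 286761) (nat_lit 13) (.e (nat_lit 393300) (nat_lit 27) (.e (nat_lit 491549) (nat_lit 9) (.e (nat_lit 336263) (nat_lit 15) (.e (nat_lit 7936) (nat_lit 377) .nil)))))) (.g (nat_lit 4) .nil .nil))))) (.nd (nat_lit 5) (.nd (nat_lit 6) 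
(.lf (nat_lit 50581) (.g (nat_lit 2918) (.e (nat_lit 1348) (nat_lit 102) (.e (nat_lit 286761) (nat_lit 13) (.e (nat_lit 393284) (nat_lit 24) (.e (nat_lit 434274) (nat_lit 39) (.e (nat_lit 663565) (nat_lit 3) (.e (nat_lit 57713) (nat_lit 176) .nil)))))) (.g (nat_lit 5) .nil .nil))) 
(.lf (nat_lit 50645) (.g (nat_lit 2170) (.e (nat_lit 1348) (nat_lit 102) (.e (nat_lit 286761) (nat_lit 13) (.e (nat_lit 393300) (nat_lit 27) (.e (nat_lit 491547) (nat_lit 9) (.e (nat_lit 336270) (nat_lit 15) (.e (nat_lit 7936) (nat_lit 377) .nil)))))) (.g (nat_lit 4) .nil .nil)))) (.nd (nat_lit 6) 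
(.lf (nat_lit 50613) (.g (nat_lit 2011) (.e (nat_lit 1348) (nat_lit 102) (.e (nat_lit 286761) (nat_lit 13) (.e (nat_lit 393296) (nat_lit 26) (.e (nat_lit 475216) (nat_lit 44) (.e (nat_lit 737282) (nat_lit 0) .nil))))) .nil)) 
(.lf (nat_lit 50677) (.g (nat_lit 1970) (.e (nat_lit 1348) (nat_lit 102) (.e (nat_lit 286761) (nat_lit 13) (.e (nat_lit 393300) (nat_lit 27) (.e (nat_lit 491556) (nat_lit 9) (.e (nat_lit 336246) (nat_lit 15) (.e (nat_lit 7936) (nat_lit 377) .nil)))))) (.g (nat_lit 4) .nil .nil)))))) (.nd (nat_lit 4) (.nd (nat_lit 5) (.nd (nat_lit 6) 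
(.lf (nat_lit 50573) (.g (nat_lit 1467) (.e (nat_lit 1348) (nat_lit 102) (.e (nat_lit 286761) (nat_lit 13) (.e (nat_lit 393270) (nat_lit 23) (.e (nat_lit 426354) (nat_lit 15) .nil)))) .nil)) 
(.lf (nat_lit 50637) (.g (nat_lit 2482) (.e (nat_lit 1348) (nat_lit 102) (.e (nat_lit 286761) (nat_lit 13) (.e (nat_lit 393300) (nat_lit 27) (.e (nat_lit 491546) (nat_lit 9) (.e (nat_lit 336302) (nat_lit 15) (.e (nat_lit 7936) (nat_lit 377) .nil)))))) (.g (nat_lit 4) .nil .nil)))) (.nd (nat_lit 6) 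
(.lf (nat_lit 50605) (.g (nat_lit 2113) (.e (nat_lit 1348) (nat_lit 102) (.e (nat_lit 286761) (nat_lit 13) (.e (nat_lit 393293) (nat_lit 26) (.e (nat_lit 475208) (nat_lit 41) (.e (nat_lit 712719) (nat_lit 15) (.e (nat_lit 7936) (nat_lit 377) .nil)))))) (.g (nat_lit 5) .nil .nil))) 
(.lf (nat_lit 50669) (.g (nat_lit 2373) (.e (nat_lit 1348) (nat_lit 102) (.e (nat_lit 286761) (nat_lit 13) (.e (nat_lit 393300) (nat_lit 27) (.e (nat_lit 491549) (nat_lit 9) (.e (nat_lit 336299) (nat_lit 15) .nil))))) .nil)))) (.nd (nat_lit 5) (.nd (nat_lit 6) 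
(.lf (nat_lit 50589) (.g (nat_lit 1835) (.e (nat_lit 1348) (nat_lit 102) (.e (nat_lit 286761) (nat_lit 13) (.e (nat_lit 393291) (nat_lit 26) (.e (nat_lit 475219) (nat_lit 44) .nil)))) .nil)) 
(.lf (nat_lit 50653) (.g (nat_lit 1469) (.e (nat_lit 1348) (nat_lit 102) (.e (nat_lit 286761) (nat_lit 13) (.e (nat_lit 393300) (nat_lit 27) (.e (nat_lit 491548) (nat_lit 9) .nil)))) .nil))) (.nd (nat_lit 6) 
(.lf (nat_lit 50621) (.g (nat_lit 2172) (.e (nat_lit 1348) (nat_lit 102) (.e (nat_lit 286761) (nat_lit 13) (.e (nat_lit 393298) (nat_lit 27) (.e (nat_lit 491550) (nat_lit 9) (.e (nat_lit 336242) (nat_lit 15) (.e (nat_lit 7936) (nat_lit 377) .nil)))))) (.g (nat_lit 5) .nil .nil))) 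
(.lf (nat_lit 50685) (.g (nat_lit 1705) (.e (nat_lit 1348) (nat_lit 102) (.e (nat_lit 286761) (nat_lit 13) (.e (nat_lit 393300) (nat_lit 27) (.e (nat_lit 491572) (nat_lit 14) .nil)))) .nil))))))) (.nd (nat_lit 2) (.nd (nat_lit 3) (.nd (nat_lit 4) (.nd (nat_lit 5) (.nd (nat_lit 6) 
(.lf (nat_lit 50563) (.g (nat_lit 2331) (.e (nat_lit 1348) (nat_lit 102) (.e (nat_lit 286761) (nat_lit 13) (.e (nat_lit 393264) (nat_lit 22) (.e (nat_lit 417814) (nat_lit 10) (.e (nat_lit 5743) (nat_lit 313) (.e (nat_lit 16128) (nat_lit 225) .nil)))))) (.g (nat_lit 4) .nil .nil))) 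
(.lf (nat_lit 50627) (.g (nat_lit 3259) (.e (nat_lit 1348) (nat_lit 102) (.e (nat_lit 286761) (nat_lit 13) (.e (nat_lit 393298) (nat_lit 27) (.e (nat_lit 491563) (nat_lit 12) (.e (nat_lit 392960) (nat_lit 16) .nil))))) (.g (nat_lit 4) .nil .nil)))) (.nd (nat_lit 6) 
(.lf (nat_lit 50595) (.g (nat_lit 1627) (.e (nat_lit 1348) (nat_lit 102) (.e (nat_lit 286761) (nat_lit 13) (.e (nat_lit 393293) (nat_lit 26) (.e (nat_lit 475160) (nat_lit 21) .nil)))) .nil)) 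
(.lf (nat_lit 50659) (.g (nat_lit 3612) (.e (nat_lit 1348) (nat_lit 102) (.e (nat_lit 286761) (nat_lit 13) (.e (nat_lit 393300) (nat_lit 27) (.e (nat_lit 491549) (nat_lit 9) (.e (nat_lit 336258) (nat_lit 15) (.e (nat_lit 7936) (nat_lit 377) .nil)))))) (.g (nat_lit 5) .nil .nil))))) (.nd (nat_lit 5) (.nd (nat_lit 6) 
(.lf (nat_lit 50579) (.g (nat_lit 3310) (.e (nat_lit 1348) (nat_lit 102) (.e (nat_lit 286761) (nat_lit 13) (.e (nat_lit 393283) (nat_lit 24) (.e (nat_lit 434275) (nat_lit 39) (.e (nat_lit 663565) (nat_lit 3) (.e (nat_lit 57713) (nat_lit 176) .nil)))))) (.g (nat_lit 4) .nil .nil))) 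
(.lf (nat_lit 50643) (.g (nat_lit 2138) (.e (nat_lit 1348) (nat_lit 102) (.e (nat_lit 286761) (nat_lit 13) (.e (nat_lit 393300) (nat_lit 27) (.e (nat_lit 491547) (nat_lit 9) (.e (nat_lit 336265) (nat_lit 15) (.e (nat_lit 7936) (nat_lit 377) .nil)))))) (.g (nat_lit 4) .nil .nil)))) (.nd (nat_lit 6) 
(.lf (nat_lit 50611) (.g (nat_lit 2746) (.e (nat_lit 1348) (nat_lit 102) (.e (nat_lit 286761) (nat_lit 13) (.e (nat_lit 393293) (nat_lit 26) (.e (nat_lit 475219) (nat_lit 44) (.e (nat_lit 737281) (nat_lit 0) (.e (nat_lit 4961) (nat_lit 287) .nil)))))) (.g (nat_lit 5) .nil .nil))) 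
(.lf (nat_lit 50675) (.g (nat_lit 1792) (.e (nat_lit 1348) (nat_lit 102) (.e (nat_lit 286761) (nat_lit 13) (.e (nat_lit 393300) (nat_lit 27) (.e (nat_lit 491556) (nat_lit 9) (.e (nat_lit 336239) (nat_lit 15) (.e (nat_lit 7060) (nat_lit 377) .nil)))))) (.g (nat_lit 4) .nil .nil)))))) (.nd (nat_lit 4) (.nd (nat_lit 5) (.nd (nat_lit 6) 
(.lf (nat_lit 50571) (.g (nat_lit 3090) (.e (nat_lit 1348) (nat_lit 102) (.e (nat_lit 286761) (nat_lit 13) (.e (nat_lit 393265) (nat_lit 22) (.e (nat_lit 417828) (nat_lit 18) (.e (nat_lit 303149) (nat_lit 15) (.e (nat_lit 6134) (nat_lit 332) .nil)))))) (.g (nat_lit 4) .nil .nil))) 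
(.lf (nat_lit 50635) (.g (nat_lit 2547) (.e (nat_lit 1348) (nat_lit 102) (.e (nat_lit 286761) (nat_lit 13) (.e (nat_lit 393300) (nat_lit 27) (.e (nat_lit 491546) (nat_lit 9) (.e (nat_lit 336270) (nat_lit 15) (.e (nat_lit 7936) (nat_lit 377) .nil)))))) (.g (nat_lit 4) .nil .nil)))) (.nd (nat_lit 6) 
(.lf (nat_lit 50603) (.g (nat_lit 936) (.e (nat_lit 1348) (nat_lit 102) (.e (nat_lit 286761) (nat_lit 13) (.e (nat_lit 393293) (nat_lit 26) (.e (nat_lit 475205) (nat_lit 40) .nil)))) .nil)) 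
(.lf (nat_lit 50667) (.g (nat_lit 3187) (.e (nat_lit 1348) (nat_lit 102) (.e (nat_lit 286761) (nat_lit 13) (.e (nat_lit 393300) (nat_lit 27) (.e (nat_lit 491549) (nat_lit 9) (.e (nat_lit 336285) (nat_lit 15) (.e (nat_lit 7936) (nat_lit 377) .nil)))))) (.g (nat_lit 4) .nil .nil))))) (.nd (nat_lit 5) (.nd (nat_lit 6) 
(.lf (nat_lit 50587) (.g (nat_lit 1375) (.e (nat_lit 1348) (nat_lit 102) (.e (nat_lit 286761) (nat_lit 13) (.e (nat_lit 393290) (nat_lit 26) (.e (nat_lit 475219) (nat_lit 44) .nil)))) .nil)) 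
(.lf (nat_lit 50651) (.g (nat_lit 1856) (.e (nat_lit 1348) (nat_lit 102) (.e (nat_lit 286761) (nat_lit 13) (.e (nat_lit 393300) (nat_lit 27) (.e (nat_lit 491547) (nat_lit 9) (.e (nat_lit 336304) (nat_lit 15) (.e (nat_lit 7936) (nat_lit 377) .nil)))))) (.g (nat_lit 4) .nil .nil)))) (.nd (nat_lit 6) 
(.lf (nat_lit 50619) (.g (nat_lit 1776) (.e (nat_lit 1348) (nat_lit 102) (.e (nat_lit 286761) (nat_lit 13) (.e (nat_lit 393298) (nat_lit 27) (.e (nat_lit 491550) (nat_lit 9) (.e (nat_lit 336238) (nat_lit 15) .nil))))) .nil)) 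
(.lf (nat_lit 50683) (.g (nat_lit 2966) (.e (nat_lit 1348) (nat_lit 102) (.e (nat_lit 286761) (nat_lit 13) (.e (nat_lit 393300) (nat_lit 27) (.e (nat_lit 491564) (nat_lit 12) (.e (nat_lit 392960) (nat_lit 16) .nil))))) (.g (nat_lit 4) .nil .nil))))))) (.nd (nat_lit 3) (.nd (nat_lit 4) (.nd (nat_lit 5) (.nd (nat_lit 6) 
(.lf (nat_lit 50567) (.g (nat_lit 1743) (.e (nat_lit 1348) (nat_lit 102) (.e (nat_lit 286761) (nat_lit 13) (.e (nat_lit 393265) (nat_lit 22) (.e (nat_lit 417819) (nat_lit 10) .nil)))) .nil)) 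
(.lf (nat_lit 50631) (.g (nat_lit 3927) (.e (nat_lit 1348) (nat_lit 102) (.e (nat_lit 286761) (nat_lit 13) (.e (nat_lit 393298) (nat_lit 27) (.e (nat_lit 491566) (nat_lit 12) (.e (nat_lit 385076) (nat_lit 33) .nil))))) .nil))) (.nd (nat_lit 6) 
(.lf (nat_lit 50599) (.g (nat_lit 1994) (.e (nat_lit 1348) (nat_lit 102) (.e (nat_lit 286761) (nat_lit 13) (.e (nat_lit 393293) (nat_lit 26) (.e (nat_lit 475198) (nat_lit 40) (.e (nat_lit 704772) (nat_lit 14) .nil))))) .nil)) 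
(.lf (nat_lit 50663) (.g (nat_lit 2605) (.e (nat_lit 1348) (nat_lit 102) (.e (nat_lit 286761) (nat_lit 13) (.e (nat_lit 393300) (nat_lit 27) (.e (nat_lit 491549) (nat_lit 9) (.e (nat_lit 336266) (nat_lit 15) (.e (nat_lit 7936) (nat_lit 377) .nil)))))) (.g (nat_lit 4) .nil .nil))))) (.nd (nat_lit 5) (.nd (nat_lit 6) 
(.lf (nat_lit 50583) (.g (nat_lit 3435) (.e (nat_lit 1348) (nat_lit 102) (.e (nat_lit 286761) (nat_lit 13) (.e (nat_lit 393284) (nat_lit 24) (.e (nat_lit 434276) (nat_lit 39) (.e (nat_lit 663565) (nat_lit 3) (.e (nat_lit 57713) (nat_lit 176) .nil)))))) (.g (nat_lit 0) .nil .nil))) 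
(.lf (nat_lit 50647) (.g (nat_lit 2218) (.e (nat_lit 1348) (nat_lit 102) (.e (nat_lit 286761) (nat_lit 13) (.e (nat_lit 393300) (nat_lit 27) (.e (nat_lit 491547) (nat_lit 9) (.e (nat_lit 336285) (nat_lit 15) (.e (nat_lit 7936) (nat_lit 377) .nil)))))) (.g (nat_lit 4) .nil .nil)))) (.nd (nat_lit 6) 
(.lf (nat_lit 50615) (.g (nat_lit 1492) (.e (nat_lit 1348) (nat_lit 102) (.e (nat_lit 286761) (nat_lit 13) (.e (nat_lit 393298) (nat_lit 27) (.e (nat_lit 491549) (nat_lit 9) .nil)))) .nil)) 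
(.lf (nat_lit 50679) (.g (nat_lit 3012) (.e (nat_lit 1348) (nat_lit 102) (.e (nat_lit 286761) (nat_lit 13) (.e (nat_lit 393300) (nat_lit 27) (.e (nat_lit 491556) (nat_lit 9) (.e (nat_lit 336300) (nat_lit 15) (.e (nat_lit 7936) (nat_lit 377) .nil)))))) (.g (nat_lit 5) .nil .nil)))))) (.nd (nat_lit 4) (.nd (nat_lit 5) (.nd (nat_lit 6) 
(.lf (nat_lit 50575) (.g (nat_lit 655) (.e (nat_lit 1348) (nat_lit 102) (.e (nat_lit 286761) (nat_lit 13) (.e (nat_lit 393275) (nat_lit 23) .nil))) .nil)) 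
(.lf (nat_lit 50639) (.g (nat_lit 1874) (.e (nat_lit 1348) (nat_lit 102) (.e (nat_lit 286761) (nat_lit 13) (.e (nat_lit 393300) (nat_lit 27) (.e (nat_lit 491547) (nat_lit 9) (.e (nat_lit 336243) (nat_lit 15) (.e (nat_lit 7936) (nat_lit 377) .nil)))))) (.g (nat_lit 4) .nil .nil)))) (.nd (nat_lit 6) 
(.lf (nat_lit 50607) (.g (nat_lit 2715) (.e (nat_lit 1348) (nat_lit 102) (.e (nat_lit 286761) (nat_lit 13) (.e (nat_lit 393293) (nat_lit 26) (.e (nat_lit 475216) (nat_lit 44) (.e (nat_lit 737283) (nat_lit 0) (.e (nat_lit 4963) (nat_lit 287) .nil)))))) (.g (nat_lit 6) .nil .nil))) 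
(.lf (nat_lit 50671) (.g (nat_lit 2858) (.e (nat_lit 1348) (nat_lit 102) (.e (nat_lit 286761) (nat_lit 13) (.e (nat_lit 393300) (nat_lit 27) (.e (nat_lit 491549) (nat_lit 9) (.e (nat_lit 336302) (nat_lit 15) (.e (nat_lit 7936) (nat_lit 377) .nil)))))) (.g (nat_lit 4) .nil .nil))))) (.nd (nat_lit 5) (.nd (nat_lit 6) 
(.lf (nat_lit 50591) (.g (nat_lit 3298) (.e (nat_lit 1348) (nat_lit 102) (.e (nat_lit 286761) (nat_lit 13) (.e (nat_lit 393291) (nat_lit 26) (.e (nat_lit 475219) (nat_lit 44) (.e (nat_lit 737281) (nat_lit 0) (.e (nat_lit 4921) (nat_lit 287) .nil)))))) (.g (nat_lit 4) .nil .nil))) 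
(.lf (nat_lit 50655) (.g (nat_lit 2710) (.e (nat_lit 1348) (nat_lit 102) (.e (nat_lit 286761) (nat_lit 13) (.e (nat_lit 393300) (nat_lit 27) (.e (nat_lit 491549) (nat_lit 9) (.e (nat_lit 336243) (nat_lit 15) (.e (nat_lit 7936) (nat_lit 377) .nil)))))) (.g (nat_lit 4) .nil .nil)))) (.nd (nat_lit 6) 
(.lf (nat_lit 50623) (.g (nat_lit 2139) (.e (nat_lit 1348) (nat_lit 102) (.e (nat_lit 286761) (nat_lit 13) (.e (nat_lit 393298) (nat_lit 27) (.e (nat_lit 491550) (nat_lit 9) (.e (nat_lit 336270) (nat_lit 15) (.e (nat_lit 7936) (nat_lit 377) .nil)))))) (.g (nat_lit 4) .nil .nil))) 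
(.lf (nat_lit 50687) (.g (nat_lit 3814) (.e (nat_lit 1348) (nat_lit 102) (.e (nat_lit 286761) (nat_lit 13) (.e (nat_lit 393301) (nat_lit 27) (.e (nat_lit 491520) (nat_lit 0) .nil)))) .nil)))))))))

noncomputable def tv704 : DT := (.nd (nat_lit 0) (.nd (nat_lit 1) (.nd (nat_lit 2) (.nd (nat_lit 3) (.nd (nat_lit 4) (.nd (nat_lit 5) 
(.lf (nat_lit 50688) (.g (nat_lit 4599) (.e (nat_lit 1348) (nat_lit 102) (.e (nat_lit 286761) (nat_lit 13) (.e (nat_lit 393301) (nat_lit 27) (.e (nat_lit 491525) (nat_lit 0) .nil)))) .nil)) 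
(.lf (nat_lit 50720) (.g (nat_lit 3243) (.e (nat_lit 1348) (nat_lit 102) (.e (nat_lit 286761) (nat_lit 13) (.e (nat_lit 393301) (nat_lit 27) (.e (nat_lit 491552) (nat_lit 9) (.e (nat_lit 336255) (nat_lit 15) (.e (nat_lit 7936) (nat_lit 377) .nil)))))) (.g (nat_lit 5) .nil .nil)))) (.nd (nat_lit 5) 
(.lf (nat_lit 50704) (.g (nat_lit 4681) (.e (nat_lit 1348) (nat_lit 102) (.e (nat_lit 286761) (nat_lit 13) (.e (nat_lit 393301) (nat_lit 27) (.e (nat_lit 491546) (nat_lit 9) (.e (nat_lit 336292) (nat_lit 15) (.e (nat_lit 7936) (nat_lit 377) .nil)))))) (.g (nat_lit 4) .nil .nil))) 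
(.lf (nat_lit 50736) (.g (nat_lit 3595) (.e (nat_lit 1348) (nat_lit 102) (.e (nat_lit 286761) (nat_lit 13) (.e (nat_lit 393301) (nat_lit 27) (.e (nat_lit 491558) (nat_lit 10) .nil)))) .nil)))) (.nd (nat_lit 4) (.nd (nat_lit 5) 
(.lf (nat_lit 50696) (.g (nat_lit 4177) (.e (nat_lit 1348) (nat_lit 102) (.e (nat_lit 286761) (nat_lit 13) (.e (nat_lit 393301) (nat_lit 27) (.e (nat_lit 491546) (nat_lit 9) (.e (nat_lit 336259) (nat_lit 15) .nil))))) .nil)) 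
(.lf (nat_lit 50728) (.g (nat_lit 3759) (.e (nat_lit 1348) (nat_lit 102) (.e (nat_lit 286761) (nat_lit 13) (.e (nat_lit 393301) (nat_lit 27) (.e (nat_lit 491552) (nat_lit 9) (.e (nat_lit 336295) (nat_lit 15) (.e (nat_lit 7936) (nat_lit 377) .nil)))))) (.g (nat_lit 5) .nil .nil)))) (.nd (nat_lit 5) 
(.lf (nat_lit 50712) (.g (nat_lit 4125) (.e (nat_lit 1348) (nat_lit 102) (.e (nat_lit 286761) (nat_lit 13) (.e (nat_lit 393301) (nat_lit 27) (.e (nat_lit 491551) (nat_lit 9) .nil)))) .nil)) 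
(.lf (nat_lit 50744) (.g (nat_lit 4911) (.e (nat_lit 1348) (nat_lit 102) (.e (nat_lit 286761) (nat_lit 13) (.e (nat_lit 393301) (nat_lit 27) (.e (nat_lit 491560) (nat_lit 10) (.e (nat_lit 344096) (nat_lit 18) .nil))))) .nil))))) (.nd (nat_lit 3) (.nd (nat_lit 4) (.nd (nat_lit 5) 
(.lf (nat_lit 50692) (.g (nat_lit 2977) (.e (nat_lit 1348) (nat_lit 102) (.e (nat_lit 286761) (nat_lit 13) (.e (nat_lit 393301) (nat_lit 27) (.e (nat_lit 491546) (nat_lit 9) .nil)))) .nil)) 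
(.lf (nat_lit 50724) (.g (nat_lit 1866) (.e (nat_lit 1348) (nat_lit 102) (.e (nat_lit 286761) (nat_lit 13) (.e (nat_lit 393301) (nat_lit 27) (.e (nat_lit 491552) (nat_lit 9) (.e (nat_lit 336287) (nat_lit 15) (.e (nat_lit 7936) (nat_lit 377) .nil)))))) (.g (nat_lit 4) .nil .nil)))) (.nd (nat_lit 5) 
(.lf (nat_lit 50708) (.g (nat_lit 4166) (.e (nat_lit 1348) (nat_lit 102) (.e (nat_lit 286761) (nat_lit 13) (.e (nat_lit 393301) (nat_lit 27) (.e (nat_lit 491546) (nat_lit 9) (.e (nat_lit 336304) (nat_lit 15) .nil))))) .nil)) 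
(.lf (nat_lit 50740) (.g (nat_lit 4618) (.e (nat_lit 1348) (nat_lit 102) (.e (nat_lit 286761) (nat_lit 13) (.e (nat_lit 393301) (nat_lit 27) (.e (nat_lit 491559) (nat_lit 10) .nil)))) .nil)))) (.nd (nat_lit 4) (.nd (nat_lit 5) 
(.lf (nat_lit 50700) (.g (nat_lit 4159) (.e (nat_lit 1348) (nat_lit 102) (.e (nat_lit 286761) (nat_lit 13) (.e (nat_lit 393301) (nat_lit 27) (.e (nat_lit 491546) (nat_lit 9) (.e (nat_lit 336269) (nat_lit 15) .nil))))) .nil)) 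
(.lf (nat_lit 50732) (.g (nat_lit 3932) (.e (nat_lit 1348) (nat_lit 102) (.e (nat_lit 286761) (nat_lit 13) (.e (nat_lit 393301) (nat_lit 27) (.e (nat_lit 491556) (nat_lit 9) (.e (nat_lit 336300) (nat_lit 15) (.e (nat_lit 7936) (nat_lit 377) .nil)))))) (.g (nat_lit 4) .nil .nil)))) (.nd (nat_lit 5) 
(.lf (nat_lit 50716) (.g (nat_lit 3651) (.e (nat_lit 1348) (nat_lit 102) (.e (nat_lit 286761) (nat_lit 13) (.e (nat_lit 393301) (nat_lit 27) (.e (nat_lit 491552) (nat_lit 9) (.e (nat_lit 336248) (nat_lit 15) (.e (nat_lit 7065) (nat_lit 377) .nil)))))) (.g (nat_lit 0) .nil .nil))) 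
(.lf (nat_lit 50748) (.g (nat_lit 3824) (.e (nat_lit 1348) (nat_lit 102) (.e (nat_lit 286761) (nat_lit 13) (.e (nat_lit 393301) (nat_lit 27) (.e (nat_lit 491572) (nat_lit 14) .nil)))) .nil)))))) (.nd (nat_lit 2) (.nd (nat_lit 3) (.nd (nat_lit 4) (.nd (nat_lit 5) 
(.lf (nat_lit 50690) (.g (nat_lit 4872) (.e (nat_lit 1348) (nat_lit 102) (.e (nat_lit 286761) (nat_lit 13) (.e (nat_lit 393301) (nat_lit 27) (.e (nat_lit 491532) (nat_lit 1) .nil)))) .nil)) 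
(.lf (nat_lit 50722) (.g (nat_lit 2264) (.e (nat_lit 1348) (nat_lit 102) (.e (nat_lit 286761) (nat_lit 13) (.e (nat_lit 393301) (nat_lit 27) (.e (nat_lit 491552) (nat_lit 9) (.e (nat_lit 336280) (nat_lit 15) (.e (nat_lit 7936) (nat_lit 377) .nil)))))) (.g (nat_lit 5) .nil .nil)))) (.nd (nat_lit 5) 
(.lf (nat_lit 50706) (.g (nat_lit 4166) (.e (nat_lit 1348) (nat_lit 102) (.e (nat_lit 286761) (nat_lit 13) (.e (nat_lit 393301) (nat_lit 27) (.e (nat_lit 491546) (nat_lit 9) (.e (nat_lit 336297) (nat_lit 15) .nil))))) .nil)) 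
(.lf (nat_lit 50738) (.g (nat_lit 4711) (.e (nat_lit 1348) (nat_lit 102) (.e (nat_lit 286761) (nat_lit 13) (.e (nat_lit 393301) (nat_lit 27) (.e (nat_lit 491558) (nat_lit 10) (.e (nat_lit 344091) (nat_lit 18) .nil))))) .nil)))) (.nd (nat_lit 4) (.nd (nat_lit 5) 
(.lf (nat_lit 50698) (.g (nat_lit 4339) (.e (nat_lit 1348) (nat_lit 102) (.e (nat_lit 286761) (nat_lit 13) (.e (nat_lit 393301) (nat_lit 27) (.e (nat_lit 491546) (nat_lit 9) (.e (nat_lit 336266) (nat_lit 15) (.e (nat_lit 7936) (nat_lit 377) .nil)))))) (.g (nat_lit 4) .nil .nil))) 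
(.lf (nat_lit 50730) (.g (nat_lit 4152) (.e (nat_lit 1348) (nat_lit 102) (.e (nat_lit 286761) (nat_lit 13) (.e (nat_lit 393301) (nat_lit 27) (.e (nat_lit 491555) (nat_lit 9) .nil)))) .nil))) (.nd (nat_lit 5) 
(.lf (nat_lit 50714) (.g (nat_lit 3107) (.e (nat_lit 1348) (nat_lit 102) (.e (nat_lit 286761) (nat_lit 13) (.e (nat_lit 393301) (nat_lit 27) (.e (nat_lit 491552) (nat_lit 9) (.e (nat_lit 336248) (nat_lit 15) (.e (nat_lit 7058) (nat_lit 377) .nil)))))) (.g (nat_lit 4) .nil .nil))) 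
(.lf (nat_lit 50746) (.g (nat_lit 3056) (.e (nat_lit 1348) (nat_lit 102) (.e (nat_lit 286761) (nat_lit 13) (.e (nat_lit 393301) (nat_lit 27) (.e (nat_lit 491562) (nat_lit 12) (.e (nat_lit 392960) (nat_lit 16) .nil))))) (.g (nat_lit 4) .nil .nil)))))) (.nd (nat_lit 3) (.nd (nat_lit 4) (.nd (nat_lit 5) 
(.lf (nat_lit 50694) (.g (nat_lit 4149) (.e (nat_lit 1348) (nat_lit 102) (.e (nat_lit 286761) (nat_lit 13) (.e (nat_lit 393301) (nat_lit 27) (.e (nat_lit 491546) (nat_lit 9) (.e (nat_lit 336247) (nat_lit 15) .nil))))) .nil)) 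
(.lf (nat_lit 50726) (.g (nat_lit 2325) (.e (nat_lit 1348) (nat_lit 102) (.e (nat_lit 286761) (nat_lit 13) (.e (nat_lit 393301) (nat_lit 27) (.e (nat_lit 491552) (nat_lit 9) (.e (nat_lit 336291) (nat_lit 15) (.e (nat_lit 7936) (nat_lit 377) .nil)))))) (.g (nat_lit 4) .nil .nil)))) (.nd (nat_lit 5) 
(.lf (nat_lit 50710) (.g (nat_lit 2299) (.e (nat_lit 1348) (nat_lit 102) (.e (nat_lit 286761) (nat_lit 13) (.e (nat_lit 393301) (nat_lit 27) (.e (nat_lit 491547) (nat_lit 9) .nil)))) .nil)) 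
(.lf (nat_lit 50742) (.g (nat_lit 5002) (.e (nat_lit 1348) (nat_lit 102) (.e (nat_lit 286761) (nat_lit 13) (.e (nat_lit 393301) (nat_lit 27) (.e (nat_lit 491560) (nat_lit 10) (.e (nat_lit 344088) (nat_lit 18) .nil))))) .nil)))) (.nd (nat_lit 4) (.nd (nat_lit 5) 
(.lf (nat_lit 50702) (.g (nat_lit 4289) (.e (nat_lit 1348) (nat_lit 102) (.e (nat_lit 286761) (nat_lit 13) (.e (nat_lit 393301) (nat_lit 27) (.e (nat_lit 491546) (nat_lit 9) (.e (nat_lit 336285) (nat_lit 15) (.e (nat_lit 7936) (nat_lit 377) .nil)))))) (.g (nat_lit 4) .nil .nil))) 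
(.lf (nat_lit 50734) (.g (nat_lit 4158) (.e (nat_lit 1348) (nat_lit 102) (.e (nat_lit 286761) (nat_lit 13) (.e (nat_lit 393301) (nat_lit 27) (.e (nat_lit 491557) (nat_lit 9) .nil)))) .nil))) (.nd (nat_lit 5) 
(.lf (nat_lit 50718) (.g (nat_lit 2139) (.e (nat_lit 1348) (nat_lit 102) (.e (nat_lit 286761) (nat_lit 13) (.e (nat_lit 393301) (nat_lit 27) (.e (nat_lit 491552) (nat_lit 9) (.e (nat_lit 336250) (nat_lit 15) (.e (nat_lit 7936) (nat_lit 377) .nil)))))) (.g (nat_lit 5) .nil .nil))) 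
(.lf (nat_lit 50750) (.g (nat_lit 4569) (.e (nat_lit 1348) (nat_lit 102) (.e (nat_lit 286761) (nat_lit 13) (.e (nat_lit 393301) (nat_lit 27) (.e (nat_lit 491578) (nat_lit 15) .nil)))) .nil))))))) (.nd (nat_lit 1) (.nd (nat_lit 2) (.nd (nat_lit 3) (.nd (nat_lit 4) (.nd (nat_lit 5) 
(.lf (nat_lit 50689) (.g (nat_lit 3792) (.e (nat_lit 1348) (nat_lit 102) (.e (nat_lit 286761) (nat_lit 13) (.e (nat_lit 393301) (nat_lit 27) (.e (nat_lit 491526) (nat_lit 0) .nil)))) .nil)) 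
(.lf (nat_lit 50721) (.g (nat_lit 2538) (.e (nat_lit 1348) (nat_lit 102) (.e (nat_lit 286761) (nat_lit 13) (.e (nat_lit 393301) (nat_lit 27) (.e (nat_lit 491552) (nat_lit 9) (.e (nat_lit 336267) (nat_lit 15) (.e (nat_lit 7936) (nat_lit 377) .nil)))))) (.g (nat_lit 5) .nil .nil)))) (.nd (nat_lit 5) 
(.lf (nat_lit 50705) (.g (nat_lit 4193) (.e (nat_lit 1348) (nat_lit 102) (.e (nat_lit 286761) (nat_lit 13) (.e (nat_lit 393301) (nat_lit 27) (.e (nat_lit 491546) (nat_lit 9) (.e (nat_lit 336295) (nat_lit 15) .nil))))) .nil)) 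
(.lf (nat_lit 50737) (.g (nat_lit 5083) (.e (nat_lit 1348) (nat_lit 102) (.e (nat_lit 286761) (nat_lit 13) (.e (nat_lit 393301) (nat_lit 27) (.e (nat_lit 491558) (nat_lit 10) (.e (nat_lit 344088) (nat_lit 18) .nil))))) .nil)))) (.nd (nat_lit 4) (.nd (nat_lit 5) 
(.lf (nat_lit 50697) (.g (nat_lit 4216) (.e (nat_lit 1348) (nat_lit 102) (.e (nat_lit 286761) (nat_lit 13) (.e (nat_lit 393301) (nat_lit 27) (.e (nat_lit 491546) (nat_lit 9) (.e (nat_lit 336265) (nat_lit 15) (.e (nat_lit 7936) (nat_lit 377) .nil)))))) (.g (nat_lit 4) .nil .nil))) 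
(.lf (nat_lit 50729) (.g (nat_lit 4013) (.e (nat_lit 1348) (nat_lit 102) (.e (nat_lit 286761) (nat_lit 13) (.e (nat_lit 393301) (nat_lit 27) (.e (nat_lit 491553) (nat_lit 9) .nil)))) .nil))) (.nd (nat_lit 5) 
(.lf (nat_lit 50713) (.g (nat_lit 2398) (.e (nat_lit 1348) (nat_lit 102) (.e (nat_lit 286761) (nat_lit 13) (.e (nat_lit 393301) (nat_lit 27) (.e (nat_lit 491552) (nat_lit 9) (.e (nat_lit 336248) (nat_lit 15) (.e (nat_lit 6961) (nat_lit 377) .nil)))))) (.g (nat_lit 4) .nil .nil))) 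
(.lf (nat_lit 50745) (.g (nat_lit 4576) (.e (nat_lit 1348) (nat_lit 102) (.e (nat_lit 286761) (nat_lit 13) (.e (nat_lit 393301) (nat_lit 27) (.e (nat_lit 491560) (nat_lit 10) (.e (nat_lit 344097) (nat_lit 18) .nil))))) .nil))))) (.nd (nat_lit 3) (.nd (nat_lit 4) (.nd (nat_lit 5) 
(.lf (nat_lit 50693) (.g (nat_lit 4166) (.e (nat_lit 1348) (nat_lit 102) (.e (nat_lit 286761) (nat_lit 13) (.e (nat_lit 393301) (nat_lit 27) (.e (nat_lit 491546) (nat_lit 9) (.e (nat_lit 336245) (nat_lit 15) .nil))))) .nil)) 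
(.lf (nat_lit 50725) (.g (nat_lit 2436) (.e (nat_lit 1348) (nat_lit 102) (.e (nat_lit 286761) (nat_lit 13) (.e (nat_lit 393301) (nat_lit 27) (.e (nat_lit 491552) (nat_lit 9) (.e (nat_lit 336289) (nat_lit 15) (.e (nat_lit 7936) (nat_lit 377) .nil)))))) (.g (nat_lit 5) .nil .nil)))) (.nd (nat_lit 5) 
(.lf (nat_lit 50709) (.g (nat_lit 4166) (.e (nat_lit 1348) (nat_lit 102) (.e (nat_lit 286761) (nat_lit 13) (.e (nat_lit 393301) (nat_lit 27) (.e (nat_lit 491546) (nat_lit 9) (.e (nat_lit 336308) (nat_lit 15) .nil))))) .nil)) 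
(.lf (nat_lit 50741) (.g (nat_lit 2878) (.e (nat_lit 1348) (nat_lit 102) (.e (nat_lit 286761) (nat_lit 13) (.e (nat_lit 393301) (nat_lit 27) (.e (nat_lit 491560) (nat_lit 10) .nil)))) .nil)))) (.nd (nat_lit 4) (.nd (nat_lit 5) 
(.lf (nat_lit 50701) (.g (nat_lit 4694) (.e (nat_lit 1348) (nat_lit 102) (.e (nat_lit 286761) (nat_lit 13) (.e (nat_lit 393301) (nat_lit 27) (.e (nat_lit 491546) (nat_lit 9) (.e (nat_lit 336270) (nat_lit 15) (.e (nat_lit 7936) (nat_lit 377) .nil)))))) (.g (nat_lit 4) .nil .nil))) 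
(.lf (nat_lit 50733) (.g (nat_lit 3576) (.e (nat_lit 1348) (nat_lit 102) (.e (nat_lit 286761) (nat_lit 13) (.e (nat_lit 393301) (nat_lit 27) (.e (nat_lit 491556) (nat_lit 9) (.e (nat_lit 336307) (nat_lit 15) .nil))))) .nil))) (.nd (nat_lit 5) 
(.lf (nat_lit 50717) (.g (nat_lit 2729) (.e (nat_lit 1348) (nat_lit 102) (.e (nat_lit 286761) (nat_lit 13) (.e (nat_lit 393301) (nat_lit 27) (.e (nat_lit 491552) (nat_lit 9) (.e (nat_lit 336248) (nat_lit 15) (.e (nat_lit 7936) (nat_lit 377) .nil)))))) (.g (nat_lit 5) .nil .nil))) 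
(.lf (nat_lit 50749) (.g (nat_lit 4506) (.e (nat_lit 1348) (nat_lit 102) (.e (nat_lit 286761) (nat_lit 13) (.e (nat_lit 393301) (nat_lit 27) (.e (nat_lit 491575) (nat_lit 15) .nil)))) .nil)))))) (.nd (nat_lit 2) (.nd (nat_lit 3) (.nd (nat_lit 4) (.nd (nat_lit 5) 
(.lf (nat_lit 50691) (.g (nat_lit 4795) (.e (nat_lit 1348) (nat_lit 102) (.e (nat_lit 286761) (nat_lit 13) (.e (nat_lit 393301) (nat_lit 27) (.e (nat_lit 491544) (nat_lit 7) .nil)))) .nil)) 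
(.lf (nat_lit 50723) (.g (nat_lit 2694) (.e (nat_lit 1348) (nat_lit 102) (.e (nat_lit 286761) (nat_lit 13) (.e (nat_lit 393301) (nat_lit 27) (.e (nat_lit 491552) (nat_lit 9) (.e (nat_lit 336282) (nat_lit 15) (.e (nat_lit 7936) (nat_lit 377) .nil)))))) (.g (nat_lit 5) .nil .nil)))) (.nd (nat_lit 5) 
(.lf (nat_lit 50707) (.g (nat_lit 4605) (.e (nat_lit 1348) (nat_lit 102) (.e (nat_lit 286761) (nat_lit 13) (.e (nat_lit 393301) (nat_lit 27) (.e (nat_lit 491546) (nat_lit 9) (.e (nat_lit 336302) (nat_lit 15) (.e (nat_lit 7936) (nat_lit 377) .nil)))))) (.g (nat_lit 4) .nil .nil))) 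
(.lf (nat_lit 50739) (.g (nat_lit 4700) (.e (nat_lit 1348) (nat_lit 102) (.e (nat_lit 286761) (nat_lit 13) (.e (nat_lit 393301) (nat_lit 27) (.e (nat_lit 491558) (nat_lit 10) (.e (nat_lit 344096) (nat_lit 18) .nil))))) .nil)))) (.nd (nat_lit 4) (.nd (nat_lit 5) 
(.lf (nat_lit 50699) (.g (nat_lit 4172) (.e (nat_lit 1348) (nat_lit 102) (.e (nat_lit 286761) (nat_lit 13) (.e (nat_lit 393301) (nat_lit 27) (.e (nat_lit 491546) (nat_lit 9) (.e (nat_lit 336267) (nat_lit 15) .nil))))) .nil)) 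
(.lf (nat_lit 50731) (.g (nat_lit 2137) (.e (nat_lit 1348) (nat_lit 102) (.e (nat_lit 286761) (nat_lit 13) (.e (nat_lit 393301) (nat_lit 27) (.e (nat_lit 491556) (nat_lit 9) .nil)))) .nil))) (.nd (nat_lit 5) 
(.lf (nat_lit 50715) (.g (nat_lit 3423) (.e (nat_lit 1348) (nat_lit 102) (.e (nat_lit 286761) (nat_lit 13) (.e (nat_lit 393301) (nat_lit 27) (.e (nat_lit 491552) (nat_lit 9) (.e (nat_lit 336248) (nat_lit 15) (.e (nat_lit 7064) (nat_lit 377) .nil)))))) (.g (nat_lit 0) .nil .nil))) 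
(.lf (nat_lit 50747) (.g (nat_lit 4077) (.e (nat_lit 1348) (nat_lit 102) (.e (nat_lit 286761) (nat_lit 13) (.e (nat_lit 393301) (nat_lit 27) (.e (nat_lit 491563) (nat_lit 12) (.e (nat_lit 392960) (nat_lit 16) .nil))))) (.g (nat_lit 4) .nil .nil)))))) (.nd (nat_lit 3) (.nd (nat_lit 4) (.nd (nat_lit 5) 
(.lf (nat_lit 50695) (.g (nat_lit 4166) (.e (nat_lit 1348) (nat_lit 102) (.e (nat_lit 286761) (nat_lit 13) (.e (nat_lit 393301) (nat_lit 27) (.e (nat_lit 491546) (nat_lit 9) (.e (nat_lit 336258) (nat_lit 15) .nil))))) .nil)) 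
(.lf (nat_lit 50727) (.g (nat_lit 2892) (.e (nat_lit 1348) (nat_lit 102) (.e (nat_lit 286761) (nat_lit 13) (.e (nat_lit 393301) (nat_lit 27) (.e (nat_lit 491552) (nat_lit 9) (.e (nat_lit 336294) (nat_lit 15) (.e (nat_lit 7936) (nat_lit 377) .nil)))))) (.g (nat_lit 5) .nil .nil)))) (.nd (nat_lit 5) 
(.lf (nat_lit 50711) (.g (nat_lit 3405) (.e (nat_lit 1348) (nat_lit 102) (.e (nat_lit 286761) (nat_lit 13) (.e (nat_lit 393301) (nat_lit 27) (.e (nat_lit 491547) (nat_lit 9) (.e (nat_lit 336247) (nat_lit 15) .nil))))) .nil)) 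
(.lf (nat_lit 50743) (.g (nat_lit 5038) (.e (nat_lit 1348) (nat_lit 102) (.e (nat_lit 286761) (nat_lit 13) (.e (nat_lit 393301) (nat_lit 27) (.e (nat_lit 491560) (nat_lit 10) (.e (nat_lit 344089) (nat_lit 18) .nil))))) .nil)))) (.nd (nat_lit 4) (.nd (nat_lit 5) 
(.lf (nat_lit 50703) (.g (nat_lit 4221) (.e (nat_lit 1348) (nat_lit 102) (.e (nat_lit 286761) (nat_lit 13) (.e (nat_lit 393301) (nat_lit 27) (.e (nat_lit 491546) (nat_lit 9) (.e (nat_lit 336286) (nat_lit 15) (.e (nat_lit 7936) (nat_lit 377) .nil)))))) (.g (nat_lit 4) .nil .nil))) 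
(.lf (nat_lit 50735) (.g (nat_lit 3391) (.e (nat_lit 1348) (nat_lit 102) (.e (nat_lit 286761) (nat_lit 13) (.e (nat_lit 393301) (nat_lit 27) (.e (nat_lit 499456) (nat_lit 9) .nil)))) .nil))) (.nd (nat_lit 5) 
(.lf (nat_lit 50719) (.g (nat_lit 2235) (.e (nat_lit 1348) (nat_lit 102) (.e (nat_lit 286761) (nat_lit 13) (.e (nat_lit 393301) (nat_lit 27) (.e (nat_lit 491552) (nat_lit 9) (.e (nat_lit 336253) (nat_lit 15) (.e (nat_lit 7936) (nat_lit 377) .nil)))))) (.g (nat_lit 5) .nil .nil))) 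
(.lf (nat_lit 50751) (.g (nat_lit 3391) (.e (nat_lit 1348) (nat_lit 102) (.e (nat_lit 286761) (nat_lit 13) (.e (nat_lit 393301) (nat_lit 27) (.e (nat_lit 499456) (nat_lit 23) .nil)))) .nil))))))))

noncomputable def tv705 : DT := (.nd (nat_lit 0) (.nd (nat_lit 1) (.nd (nat_lit 2) (.nd (nat_lit 3) (.nd (nat_lit 4) (.nd (nat_lit 5) 
(.lf (nat_lit 50752) (.g (nat_lit 1867) (.e (nat_lit 1348) (nat_lit 102) (.e (nat_lit 286761) (nat_lit 13) (.e (nat_lit 401152) (nat_lit 27) (.e (nat_lit 491566) (nat_lit 12) (.e (nat_lit 392960) (nat_lit 16) .nil))))) (.g (nat_lit 4) .nil .nil))) 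
(.lf (nat_lit 50784) (.g (nat_lit 3752) (.e (nat_lit 1349) (nat_lit 102) (.e (nat_lit 286733) (nat_lit 2) (.e (nat_lit 90170) (nat_lit 13) (.e (nat_lit 172095) (nat_lit 9) (.e (nat_lit 426125) (nat_lit 2) (.e (nat_lit 196661) (nat_lit 12) (.e (nat_lit 57714) (nat_lit 176) .nil))))))) (.g (nat_lit 5) .nil .nil)))) (.nd (nat_lit 5) 
(.lf (nat_lit 50768) (.g (nat_lit 3479) (.e (nat_lit 1349) (nat_lit 102) (.e (nat_lit 286732) (nat_lit 2) (.e (nat_lit 90170) (nat_lit 13) (.e (nat_lit 172106) (nat_lit 10) (.e (nat_lit 434231) (nat_lit 23) (.e (nat_lit 532490) (nat_lit 0) (.e (nat_lit 6149) (nat_lit 332) .nil))))))) (.g (nat_lit 6) .nil .nil))) 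
(.lf (nat_lit 50800) (.g (nat_lit 2771) (.e (nat_lit 1349) (nat_lit 102) (.e (nat_lit 286733) (nat_lit 2) (.e (nat_lit 90170) (nat_lit 13) (.e (nat_lit 172106) (nat_lit 10) (.e (nat_lit 434244) (nat_lit 28) .nil))))) .nil)))) (.nd (nat_lit 4) (.nd (nat_lit 5) 
(.lf (nat_lit 50760) (.g (nat_lit 1537) (.e (nat_lit 1349) (nat_lit 102) (.e (nat_lit 286727) (nat_lit 0) (.e (nat_lit 1799) (nat_lit 119) (.e (nat_lit 516177) (nat_lit 14) (.e (nat_lit 466976) (nat_lit 22) (.e (nat_lit 196661) (nat_lit 12) (.e (nat_lit 57714) (nat_lit 176) .nil))))))) (.g (nat_lit 5) .nil .nil))) 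
(.lf (nat_lit 50792) (.g (nat_lit 5561) (.e (nat_lit 1349) (nat_lit 102) (.e (nat_lit 286733) (nat_lit 2) (.e (nat_lit 90170) (nat_lit 13) (.e (nat_lit 172106) (nat_lit 10) (.e (nat_lit 434231) (nat_lit 23) (.e (nat_lit 532481) (nat_lit 0) (.e (nat_lit 6192) (nat_lit 332) .nil))))))) (.g (nat_lit 6) .nil .nil)))) (.nd (nat_lit 5) 
(.lf (nat_lit 50776) (.g (nat_lit 3185) (.e (nat_lit 1349) (nat_lit 102) (.e (nat_lit 286733) (nat_lit 2) (.e (nat_lit 90170) (nat_lit 13) (.e (nat_lit 172085) (nat_lit 9) (.e (nat_lit 426125) (nat_lit 2) (.e (nat_lit 196661) (nat_lit 12) (.e (nat_lit 65280) (nat_lit 176) .nil))))))) (.g (nat_lit 4) .nil .nil))) 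
(.lf (nat_lit 50808) (.g (nat_lit 4491) (.e (nat_lit 1349) (nat_lit 102) (.e (nat_lit 286733) (nat_lit 2) (.e (nat_lit 90170) (nat_lit 13) (.e (nat_lit 172115) (nat_lit 10) (.e (nat_lit 434231) (nat_lit 23) (.e (nat_lit 532481) (nat_lit 0) (.e (nat_lit 6192) (nat_lit 332) .nil))))))) (.g (nat_lit 5) .nil .nil)))))) (.nd (nat_lit 3) (.nd (nat_lit 4) (.nd (nat_lit 5) 
(.lf (nat_lit 50756) (.g (nat_lit 2193) (.e (nat_lit 1349) (nat_lit 102) (.e (nat_lit 286727) (nat_lit 0) (.e (nat_lit 1799) (nat_lit 119) (.e (nat_lit 516166) (nat_lit 12) (.e (nat_lit 458496) (nat_lit 1) (.e (nat_lit 500056) (nat_lit 17) (.e (nat_lit 65280) (nat_lit 176) .nil))))))) (.g (nat_lit 6) .nil .nil))) 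
(.lf (nat_lit 50788) (.g (nat_lit 3525) (.e (nat_lit 1349) (nat_lit 102) (.e (nat_lit 286733) (nat_lit 2) (.e (nat_lit 90170) (nat_lit 13) (.e (nat_lit 172097) (nat_lit 9) (.e (nat_lit 426125) (nat_lit 2) (.e (nat_lit 196661) (nat_lit 12) (.e (nat_lit 57714) (nat_lit 176) .nil))))))) (.g (nat_lit 4) .nil .nil)))) (.nd (nat_lit 5) 
(.lf (nat_lit 50772) (.g (nat_lit 3080) (.e (nat_lit 1349) (nat_lit 102) (.e (nat_lit 286733) (nat_lit 2) (.e (nat_lit 90170) (nat_lit 13) (.e (nat_lit 172079) (nat_lit 7) .nil)))) .nil)) 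
(.lf (nat_lit 50804) (.g (nat_lit 4227) (.e (nat_lit 1349) (nat_lit 102) (.e (nat_lit 286733) (nat_lit 2) (.e (nat_lit 90170) (nat_lit 13) (.e (nat_lit 172113) (nat_lit 10) (.e (nat_lit 434231) (nat_lit 23) (.e (nat_lit 532490) (nat_lit 0) (.e (nat_lit 6149) (nat_lit 332) .nil))))))) (.g (nat_lit 4) .nil .nil))))) (.nd (nat_lit 4) (.nd (nat_lit 5) 
(.lf (nat_lit 50764) (.g (nat_lit 4103) (.e (nat_lit 1349) (nat_lit 102) (.e (nat_lit 286732) (nat_lit 2) (.e (nat_lit 90170) (nat_lit 13) (.e (nat_lit 172106) (nat_lit 10) (.e (nat_lit 434231) (nat_lit 23) (.e (nat_lit 532482) (nat_lit 0) (.e (nat_lit 6192) (nat_lit 332) .nil))))))) (.g (nat_lit 6) .nil .nil))) 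
(.lf (nat_lit 50796) (.g (nat_lit 4435) (.e (nat_lit 1349) (nat_lit 102) (.e (nat_lit 286733) (nat_lit 2) (.e (nat_lit 90170) (nat_lit 13) (.e (nat_lit 172106) (nat_lit 10) (.e (nat_lit 434231) (nat_lit 23) (.e (nat_lit 532490) (nat_lit 0) (.e (nat_lit 6092) (nat_lit 332) .nil))))))) (.g (nat_lit 6) .nil .nil)))) (.nd (nat_lit 5) 
(.lf (nat_lit 50780) (.g (nat_lit 3108) (.e (nat_lit 1349) (nat_lit 102) (.e (nat_lit 286733) (nat_lit 2) (.e (nat_lit 90170) (nat_lit 13) (.e (nat_lit 172092) (nat_lit 9) (.e (nat_lit 426125) (nat_lit 2) (.e (nat_lit 196661) (nat_lit 12) (.e (nat_lit 65280) (nat_lit 176) .nil))))))) (.g (nat_lit 5) .nil .nil))) 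
(.lf (nat_lit 50812) (.g (nat_lit 3414) (.e (nat_lit 1349) (nat_lit 102) (.e (nat_lit 286733) (nat_lit 2) (.e (nat_lit 90170) (nat_lit 13) (.e (nat_lit 172115) (nat_lit 10) (.e (nat_lit 434231) (nat_lit 23) (.e (nat_lit 532490) (nat_lit 0) (.e (nat_lit 7936) (nat_lit 332) .nil))))))) (.g (nat_lit 4) .nil .nil))))))) (.nd (nat_lit 2) (.nd (nat_lit 3) (.nd (nat_lit 4) (.nd (nat_lit 5) 
(.lf (nat_lit 50754) (.g (nat_lit 2871) (.e (nat_lit 1349) (nat_lit 102) (.e (nat_lit 286727) (nat_lit 0) (.e (nat_lit 1799) (nat_lit 119) (.e (nat_lit 516163) (nat_lit 11) (.e (nat_lit 442424) (nat_lit 22) (.e (nat_lit 196661) (nat_lit 12) (.e (nat_lit 57714) (nat_lit 176) .nil))))))) (.g (nat_lit 5) .nil .nil))) 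
(.lf (nat_lit 50786) (.g (nat_lit 2324) (.e (nat_lit 1349) (nat_lit 102) (.e (nat_lit 286733) (nat_lit 2) (.e (nat_lit 90170) (nat_lit 13) (.e (nat_lit 172097) (nat_lit 9) .nil)))) .nil))) (.nd (nat_lit 5) 
(.lf (nat_lit 50770) (.g (nat_lit 442) (.e (nat_lit 1349) (nat_lit 102) (.e (nat_lit 286733) (nat_lit 2) (.e (nat_lit 90169) (nat_lit 13) .nil))) .nil)) 
(.lf (nat_lit 50802) (.g (nat_lit 3854) (.e (nat_lit 1349) (nat_lit 102) (.e (nat_lit 286733) (nat_lit 2) (.e (nat_lit 90170) (nat_lit 13) (.e (nat_lit 172113) (nat_lit 10) (.e (nat_lit 434231) (nat_lit 23) (.e (nat_lit 532481) (nat_lit 0) (.e (nat_lit 6192) (nat_lit 332) .nil))))))) (.g (nat_lit 4) .nil .nil))))) (.nd (nat_lit 4) (.nd (nat_lit 5) 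
(.lf (nat_lit 50762) (.g (nat_lit 2551) (.e (nat_lit 1349) (nat_lit 102) (.e (nat_lit 286727) (nat_lit 0) (.e (nat_lit 1799) (nat_lit 119) (.e (nat_lit 516177) (nat_lit 14) (.e (nat_lit 466977) (nat_lit 22) (.e (nat_lit 196661) (nat_lit 12) (.e (nat_lit 57714) (nat_lit 176) .nil))))))) (.g (nat_lit 6) .nil .nil))) 
(.lf (nat_lit 50794) (.g (nat_lit 4877) (.e (nat_lit 1349) (nat_lit 102) (.e (nat_lit 286733) (nat_lit 2) (.e (nat_lit 90170) (nat_lit 13) (.e (nat_lit 172106) (nat_lit 10) (.e (nat_lit 434231) (nat_lit 23) (.e (nat_lit 532483) (nat_lit 0) (.e (nat_lit 7936) (nat_lit 332) .nil))))))) (.g (nat_lit 5) .nil .nil)))) (.nd (nat_lit 5) 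
(.lf (nat_lit 50778) (.g (nat_lit 3387) (.e (nat_lit 1349) (nat_lit 102) (.e (nat_lit 286733) (nat_lit 2) (.e (nat_lit 90170) (nat_lit 13) (.e (nat_lit 172092) (nat_lit 9) (.e (nat_lit 426125) (nat_lit 2) (.e (nat_lit 196661) (nat_lit 12) (.e (nat_lit 57711) (nat_lit 176) .nil))))))) (.g (nat_lit 4) .nil .nil))) 
(.lf (nat_lit 50810) (.g (nat_lit 4399) (.e (nat_lit 1349) (nat_lit 102) (.e (nat_lit 286733) (nat_lit 2) (.e (nat_lit 90170) (nat_lit 13) (.e (nat_lit 172115) (nat_lit 10) (.e (nat_lit 434231) (nat_lit 23) (.e (nat_lit 532490) (nat_lit 0) (.e (nat_lit 6092) (nat_lit 332) .nil))))))) (.g (nat_lit 5) .nil .nil)))))) (.nd (nat_lit 3) (.nd (nat_lit 4) (.nd (nat_lit 5) 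
(.lf (nat_lit 50758) (.g (nat_lit 2316) (.e (nat_lit 1349) (nat_lit 102) (.e (nat_lit 286727) (nat_lit 0) (.e (nat_lit 1799) (nat_lit 119) (.e (nat_lit 516177) (nat_lit 14) (.e (nat_lit 466974) (nat_lit 22) (.e (nat_lit 196661) (nat_lit 12) (.e (nat_lit 65280) (nat_lit 176) .nil))))))) (.g (nat_lit 6) .nil .nil))) 
(.lf (nat_lit 50790) (.g (nat_lit 4067) (.e (nat_lit 1349) (nat_lit 102) (.e (nat_lit 286733) (nat_lit 2) (.e (nat_lit 90170) (nat_lit 13) (.e (nat_lit 172097) (nat_lit 9) (.e (nat_lit 426140) (nat_lit 3) (.e (nat_lit 204821) (nat_lit 17) (.e (nat_lit 6136) (nat_lit 332) .nil))))))) (.g (nat_lit 5) .nil .nil)))) (.nd (nat_lit 5) 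
(.lf (nat_lit 50774) (.g (nat_lit 3464) (.e (nat_lit 1349) (nat_lit 102) (.e (nat_lit 286733) (nat_lit 2) (.e (nat_lit 90170) (nat_lit 13) (.e (nat_lit 172085) (nat_lit 9) (.e (nat_lit 426125) (nat_lit 2) (.e (nat_lit 196661) (nat_lit 12) (.e (nat_lit 57711) (nat_lit 176) .nil))))))) (.g (nat_lit 4) .nil .nil))) 
(.lf (nat_lit 50806) (.g (nat_lit 3946) (.e (nat_lit 1349) (nat_lit 102) (.e (nat_lit 286733) (nat_lit 2) (.e (nat_lit 90170) (nat_lit 13) (.e (nat_lit 172113) (nat_lit 10) (.e (nat_lit 434245) (nat_lit 28) (.e (nat_lit 573468) (nat_lit 10) (.e (nat_lit 16128) (nat_lit 180) .nil))))))) (.g (nat_lit 4) .nil .nil))))) (.nd (nat_lit 4) (.nd (nat_lit 5) 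
(.lf (nat_lit 50766) (.g (nat_lit 3207) (.e (nat_lit 1349) (nat_lit 102) (.e (nat_lit 286732) (nat_lit 2) (.e (nat_lit 90170) (nat_lit 13) (.e (nat_lit 172106) (nat_lit 10) (.e (nat_lit 434231) (nat_lit 23) (.e (nat_lit 532490) (nat_lit 0) (.e (nat_lit 6092) (nat_lit 332) .nil))))))) (.g (nat_lit 5) .nil .nil))) 
(.lf (nat_lit 50798) (.g (nat_lit 4804) (.e (nat_lit 1349) (nat_lit 102) (.e (nat_lit 286733) (nat_lit 2) (.e (nat_lit 90170) (nat_lit 13) (.e (nat_lit 172106) (nat_lit 10) (.e (nat_lit 434231) (nat_lit 23) (.e (nat_lit 532490) (nat_lit 0) (.e (nat_lit 6149) (nat_lit 332) .nil))))))) (.g (nat_lit 6) .nil .nil)))) (.nd (nat_lit 5) 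
(.lf (nat_lit 50782) (.g (nat_lit 1830) (.e (nat_lit 1349) (nat_lit 102) (.e (nat_lit 286733) (nat_lit 2) (.e (nat_lit 90170) (nat_lit 13) (.e (nat_lit 172095) (nat_lit 9) .nil)))) .nil)) 
(.lf (nat_lit 50814) (.g (nat_lit 486) (.e (nat_lit 1349) (nat_lit 102) (.e (nat_lit 286733) (nat_lit 2) (.e (nat_lit 90171) (nat_lit 14) .nil))) .nil))))))) (.nd (nat_lit 1) (.nd (nat_lit 2) (.nd (nat_lit 3) (.nd (nat_lit 4) (.nd (nat_lit 5) 
(.lf (nat_lit 50753) (.g (nat_lit 2923) (.e (nat_lit 1348) (nat_lit 102) (.e (nat_lit 286765) (nat_lit 15) (.e (nat_lit 3238) (nat_lit 197) (.e (nat_lit 532544) (nat_lit 10) (.e (nat_lit 344133) (nat_lit 26) (.e (nat_lit 557105) (nat_lit 14) (.e (nat_lit 180252) (nat_lit 10) (.e (nat_lit 573503) (nat_lit 18) .nil)))))))) (.g (nat_lit 4) .nil .nil))) 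
(.lf (nat_lit 50785) (.g (nat_lit 3593) (.e (nat_lit 1349) (nat_lit 102) (.e (nat_lit 286733) (nat_lit 2) (.e (nat_lit 90170) (nat_lit 13) (.e (nat_lit 172095) (nat_lit 9) (.e (nat_lit 426125) (nat_lit 2) (.e (nat_lit 196661) (nat_lit 12) (.e (nat_lit 65280) (nat_lit 176) .nil))))))) (.g (nat_lit 5) .nil .nil)))) (.nd (nat_lit 5) 
(.lf (nat_lit 50769) (.g (nat_lit 3992) (.e (nat_lit 1349) (nat_lit 102) (.e (nat_lit 286732) (nat_lit 2) (.e (nat_lit 90170) (nat_lit 13) (.e (nat_lit 172106) (nat_lit 10) (.e (nat_lit 434231) (nat_lit 23) (.e (nat_lit 532490) (nat_lit 0) (.e (nat_lit 7936) (nat_lit 332) .nil))))))) (.g (nat_lit 6) .nil .nil))) 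
(.lf (nat_lit 50801) (.g (nat_lit 2512) (.e (nat_lit 1349) (nat_lit 102) (.e (nat_lit 286733) (nat_lit 2) (.e (nat_lit 90170) (nat_lit 13) (.e (nat_lit 172113) (nat_lit 10) .nil)))) .nil)))) (.nd (nat_lit 4) (.nd (nat_lit 5) 
(.lf (nat_lit 50761) (.g (nat_lit 1453) (.e (nat_lit 1349) (nat_lit 102) (.e (nat_lit 286727) (nat_lit 0) (.e (nat_lit 1799) (nat_lit 119) (.e (nat_lit 516177) (nat_lit 14) (.e (nat_lit 466976) (nat_lit 22) (.e (nat_lit 196661) (nat_lit 12) (.e (nat_lit 65280) (nat_lit 176) .nil))))))) (.g (nat_lit 5) .nil .nil))) 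
(.lf (nat_lit 50793) (.g (nat_lit 5150) (.e (nat_lit 1349) (nat_lit 102) (.e (nat_lit 286733) (nat_lit 2) (.e (nat_lit 90170) (nat_lit 13) (.e (nat_lit 172106) (nat_lit 10) (.e (nat_lit 434231) (nat_lit 23) (.e (nat_lit 532482) (nat_lit 0) (.e (nat_lit 6192) (nat_lit 332) .nil))))))) (.g (nat_lit 6) .nil .nil)))) (.nd (nat_lit 5) 
(.lf (nat_lit 50777) (.g (nat_lit 2039) (.e (nat_lit 1349) (nat_lit 102) (.e (nat_lit 286733) (nat_lit 2) (.e (nat_lit 90170) (nat_lit 13) (.e (nat_lit 172092) (nat_lit 9) (.e (nat_lit 426125) (nat_lit 2) .nil))))) .nil)) 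
(.lf (nat_lit 50809) (.g (nat_lit 4240) (.e (nat_lit 1349) (nat_lit 102) (.e (nat_lit 286733) (nat_lit 2) (.e (nat_lit 90170) (nat_lit 13) (.e (nat_lit 172115) (nat_lit 10) (.e (nat_lit 434231) (nat_lit 23) (.e (nat_lit 532482) (nat_lit 0) (.e (nat_lit 6192) (nat_lit 332) .nil))))))) (.g (nat_lit 5) .nil .nil)))))) (.nd (nat_lit 3) (.nd (nat_lit 4) (.nd (nat_lit 5) 
(.lf (nat_lit 50757) (.g (nat_lit 2562) (.e (nat_lit 1349) (nat_lit 102) (.e (nat_lit 286727) (nat_lit 0) (.e (nat_lit 1799) (nat_lit 119) (.e (nat_lit 516177) (nat_lit 14) (.e (nat_lit 466974) (nat_lit 22) (.e (nat_lit 196661) (nat_lit 12) (.e (nat_lit 57714) (nat_lit 176) .nil))))))) (.g (nat_lit 7) .nil .nil))) 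
(.lf (nat_lit 50789) (.g (nat_lit 4349) (.e (nat_lit 1349) (nat_lit 102) (.e (nat_lit 286733) (nat_lit 2) (.e (nat_lit 90170) (nat_lit 13) (.e (nat_lit 172097) (nat_lit 9) (.e (nat_lit 426140) (nat_lit 3) (.e (nat_lit 204821) (nat_lit 17) (.e (nat_lit 6092) (nat_lit 332) .nil))))))) (.g (nat_lit 5) .nil .nil)))) (.nd (nat_lit 5) 
(.lf (nat_lit 50773) (.g (nat_lit 1782) (.e (nat_lit 1349) (nat_lit 102) (.e (nat_lit 286733) (nat_lit 2) (.e (nat_lit 90170) (nat_lit 13) (.e (nat_lit 172085) (nat_lit 9) .nil)))) .nil)) 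
(.lf (nat_lit 50805) (.g (nat_lit 4055) (.e (nat_lit 1349) (nat_lit 102) (.e (nat_lit 286733) (nat_lit 2) (.e (nat_lit 90170) (nat_lit 13) (.e (nat_lit 172113) (nat_lit 10) (.e (nat_lit 434231) (nat_lit 23) (.e (nat_lit 532490) (nat_lit 0) (.e (nat_lit 7936) (nat_lit 332) .nil))))))) (.g (nat_lit 4) .nil .nil))))) (.nd (nat_lit 4) (.nd (nat_lit 5) 
(.lf (nat_lit 50765) (.g (nat_lit 4156) (.e (nat_lit 1349) (nat_lit 102) (.e (nat_lit 286732) (nat_lit 2) (.e (nat_lit 90170) (nat_lit 13) (.e (nat_lit 172106) (nat_lit 10) (.e (nat_lit 434231) (nat_lit 23) (.e (nat_lit 532483) (nat_lit 0) (.e (nat_lit 7936) (nat_lit 332) .nil))))))) (.g (nat_lit 6) .nil .nil))) 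
(.lf (nat_lit 50797) (.g (nat_lit 3061) (.e (nat_lit 1349) (nat_lit 102) (.e (nat_lit 286733) (nat_lit 2) (.e (nat_lit 90170) (nat_lit 13) (.e (nat_lit 172106) (nat_lit 10) (.e (nat_lit 434231) (nat_lit 23) (.e (nat_lit 532490) (nat_lit 0) (.e (nat_lit 6147) (nat_lit 332) .nil))))))) (.g (nat_lit 4) .nil .nil)))) (.nd (nat_lit 5) 
(.lf (nat_lit 50781) (.g (nat_lit 2428) (.e (nat_lit 1349) (nat_lit 102) (.e (nat_lit 286733) (nat_lit 2) (.e (nat_lit 90170) (nat_lit 13) (.e (nat_lit 172094) (nat_lit 9) .nil)))) .nil)) 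
(.lf (nat_lit 50813) (.g (nat_lit 3837) (.e (nat_lit 1349) (nat_lit 102) (.e (nat_lit 286733) (nat_lit 2) (.e (nat_lit 90170) (nat_lit 13) (.e (nat_lit 172124) (nat_lit 14) (.e (nat_lit 491540) (nat_lit 3) (.e (nat_lit 98320) (nat_lit 17) (.e (nat_lit 7065) (nat_lit 377) .nil))))))) (.g (nat_lit 4) .nil .nil))))))) (.nd (nat_lit 2) (.nd (nat_lit 3) (.nd (nat_lit 4) (.nd (nat_lit 5) 
(.lf (nat_lit 50755) (.g (nat_lit 1292) (.e (nat_lit 1349) (nat_lit 102) (.e (nat_lit 286727) (nat_lit 0) (.e (nat_lit 1799) (nat_lit 119) (.e (nat_lit 516166) (nat_lit 12) (.e (nat_lit 458496) (nat_lit 1) (.e (nat_lit 500056) (nat_lit 17) (.e (nat_lit 57711) (nat_lit 176) .nil))))))) (.g (nat_lit 4) .nil .nil))) 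
(.lf (nat_lit 50787) (.g (nat_lit 3849) (.e (nat_lit 1349) (nat_lit 102) (.e (nat_lit 286733) (nat_lit 2) (.e (nat_lit 90170) (nat_lit 13) (.e (nat_lit 172097) (nat_lit 9) (.e (nat_lit 426125) (nat_lit 2) (.e (nat_lit 196661) (nat_lit 12) (.e (nat_lit 57711) (nat_lit 176) .nil))))))) (.g (nat_lit 4) .nil .nil)))) (.nd (nat_lit 5) 
(.lf (nat_lit 50771) (.g (nat_lit 2099) (.e (nat_lit 1349) (nat_lit 102) (.e (nat_lit 286733) (nat_lit 2) (.e (nat_lit 90169) (nat_lit 13) (.e (nat_lit 172124) (nat_lit 14) (.e (nat_lit 491540) (nat_lit 3) (.e (nat_lit 98319) (nat_lit 17) (.e (nat_lit 7065) (nat_lit 377) .nil))))))) (.g (nat_lit 4) .nil .nil))) 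
(.lf (nat_lit 50803) (.g (nat_lit 4449) (.e (nat_lit 1349) (nat_lit 102) (.e (nat_lit 286733) (nat_lit 2) (.e (nat_lit 90170) (nat_lit 13) (.e (nat_lit 172113) (nat_lit 10) (.e (nat_lit 434231) (nat_lit 23) (.e (nat_lit 532490) (nat_lit 0) (.e (nat_lit 6136) (nat_lit 332) .nil))))))) (.g (nat_lit 4) .nil .nil))))) (.nd (nat_lit 4) (.nd (nat_lit 5) 
(.lf (nat_lit 50763) (.g (nat_lit 2261) (.e (nat_lit 1349) (nat_lit 102) (.e (nat_lit 286727) (nat_lit 0) (.e (nat_lit 1799) (nat_lit 119) (.e (nat_lit 516177) (nat_lit 14) (.e (nat_lit 466977) (nat_lit 22) (.e (nat_lit 196677) (nat_lit 16) (.e (nat_lit 130816) (nat_lit 176) .nil))))))) (.g (nat_lit 6) .nil .nil))) 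
(.lf (nat_lit 50795) (.g (nat_lit 3164) (.e (nat_lit 1349) (nat_lit 102) (.e (nat_lit 286733) (nat_lit 2) (.e (nat_lit 90170) (nat_lit 13) (.e (nat_lit 172106) (nat_lit 10) (.e (nat_lit 434231) (nat_lit 23) (.e (nat_lit 532486) (nat_lit 0) (.e (nat_lit 6135) (nat_lit 332) .nil))))))) (.g (nat_lit 4) .nil .nil)))) (.nd (nat_lit 5) 
(.lf (nat_lit 50779) (.g (nat_lit 3604) (.e (nat_lit 1349) (nat_lit 102) (.e (nat_lit 286733) (nat_lit 2) (.e (nat_lit 90170) (nat_lit 13) (.e (nat_lit 172092) (nat_lit 9) (.e (nat_lit 426125) (nat_lit 2) (.e (nat_lit 196661) (nat_lit 12) (.e (nat_lit 57714) (nat_lit 176) .nil))))))) (.g (nat_lit 5) .nil .nil))) 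
(.lf (nat_lit 50811) (.g (nat_lit 4794) (.e (nat_lit 1349) (nat_lit 102) (.e (nat_lit 286733) (nat_lit 2) (.e (nat_lit 90170) (nat_lit 13) (.e (nat_lit 172115) (nat_lit 10) (.e (nat_lit 434231) (nat_lit 23) (.e (nat_lit 532490) (nat_lit 0) (.e (nat_lit 6136) (nat_lit 332) .nil))))))) (.g (nat_lit 6) .nil .nil)))))) (.nd (nat_lit 3) (.nd (nat_lit 4) (.nd (nat_lit 5) 
(.lf (nat_lit 50759) (.g (nat_lit 1522) (.e (nat_lit 1349) (nat_lit 102) (.e (nat_lit 286727) (nat_lit 0) (.e (nat_lit 1799) (nat_lit 119) (.e (nat_lit 516177) (nat_lit 14) (.e (nat_lit 466974) (nat_lit 22) (.e (nat_lit 196677) (nat_lit 16) (.e (nat_lit 130816) (nat_lit 176) .nil))))))) (.g (nat_lit 5) .nil .nil))) 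
(.lf (nat_lit 50791) (.g (nat_lit 3615) (.e (nat_lit 1349) (nat_lit 102) (.e (nat_lit 286733) (nat_lit 2) (.e (nat_lit 90170) (nat_lit 13) (.e (nat_lit 172097) (nat_lit 9) (.e (nat_lit 426140) (nat_lit 3) (.e (nat_lit 204821) (nat_lit 17) (.e (nat_lit 7936) (nat_lit 332) .nil))))))) (.g (nat_lit 4) .nil .nil)))) (.nd (nat_lit 5) 
(.lf (nat_lit 50775) (.g (nat_lit 3681) (.e (nat_lit 1349) (nat_lit 102) (.e (nat_lit 286733) (nat_lit 2) (.e (nat_lit 90170) (nat_lit 13) (.e (nat_lit 172085) (nat_lit 9) (.e (nat_lit 426125) (nat_lit 2) (.e (nat_lit 196661) (nat_lit 12) (.e (nat_lit 57714) (nat_lit 176) .nil))))))) (.g (nat_lit 5) .nil .nil))) 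
(.lf (nat_lit 50807) (.g (nat_lit 2205) (.e (nat_lit 1349) (nat_lit 102) (.e (nat_lit 286733) (nat_lit 2) (.e (nat_lit 90170) (nat_lit 13) (.e (nat_lit 172115) (nat_lit 10) .nil)))) .nil)))) (.nd (nat_lit 4) (.nd (nat_lit 5) 
(.lf (nat_lit 50767) (.g (nat_lit 4252) (.e (nat_lit 1349) (nat_lit 102) (.e (nat_lit 286732) (nat_lit 2) (.e (nat_lit 90170) (nat_lit 13) (.e (nat_lit 172106) (nat_lit 10) (.e (nat_lit 434231) (nat_lit 23) (.e (nat_lit 532490) (nat_lit 0) (.e (nat_lit 6136) (nat_lit 332) .nil))))))) (.g (nat_lit 0) .nil .nil))) 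
(.lf (nat_lit 50799) (.g (nat_lit 4713) (.e (nat_lit 1349) (nat_lit 102) (.e (nat_lit 286733) (nat_lit 2) (.e (nat_lit 90170) (nat_lit 13) (.e (nat_lit 172106) (nat_lit 10) (.e (nat_lit 434231) (nat_lit 23) (.e (nat_lit 532490) (nat_lit 0) (.e (nat_lit 7936) (nat_lit 332) .nil))))))) (.g (nat_lit 6) .nil .nil)))) (.nd (nat_lit 5) 
(.lf (nat_lit 50783) (.g (nat_lit 3654) (.e (nat_lit 1349) (nat_lit 102) (.e (nat_lit 286733) (nat_lit 2) (.e (nat_lit 90170) (nat_lit 13) (.e (nat_lit 172095) (nat_lit 9) (.e (nat_lit 426125) (nat_lit 2) (.e (nat_lit 196661) (nat_lit 12) (.e (nat_lit 57711) (nat_lit 176) .nil))))))) (.g (nat_lit 5) .nil .nil))) 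
(.lf (nat_lit 50815) (.g (nat_lit 1425) (.e (nat_lit 1349) (nat_lit 102) (.e (nat_lit 286733) (nat_lit 2) (.e (nat_lit 90172) (nat_lit 14) (.e (nat_lit 180277) (nat_lit 32) .nil)))) .nil))))))))

noncomputable def tv706 : DT := (.nd (nat_lit 0) (.nd (nat_lit 1) (.nd (nat_lit 2) (.nd (nat_lit 3) (.nd (nat_lit 4) (.nd (nat_lit 5) 
(.lf (nat_lit 50816) (.g (nat_lit 1732) (.e (nat_lit 1349) (nat_lit 102) (.e (nat_lit 286733) (nat_lit 2) (.e (nat_lit 90172) (nat_lit 14) (.e (nat_lit 180285) (nat_lit 45) .nil)))) .nil)) 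
(.lf (nat_lit 50848) (.g (nat_lit 3518) (.e (nat_lit 1349) (nat_lit 102) (.e (nat_lit 286733) (nat_lit 2) (.e (nat_lit 90178) (nat_lit 15) (.e (nat_lit 188449) (nat_lit 22) (.e (nat_lit 196661) (nat_lit 12) (.e (nat_lit 57714) (nat_lit 176) .nil)))))) (.g (nat_lit 5) .nil .nil)))) (.nd (nat_lit 5) 
(.lf (nat_lit 50832) (.g (nat_lit 4039) (.e (nat_lit 1349) (nat_lit 102) (.e (nat_lit 286733) (nat_lit 2) (.e (nat_lit 90177) (nat_lit 15) (.e (nat_lit 188452) (nat_lit 23) (.e (nat_lit 204815) (nat_lit 17) (.e (nat_lit 6192) (nat_lit 332) .nil)))))) (.g (nat_lit 5) .nil .nil))) 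
(.lf (nat_lit 50864) (.g (nat_lit 2355) (.e (nat_lit 1349) (nat_lit 102) (.e (nat_lit 286734) (nat_lit 3) (.e (nat_lit 98359) (nat_lit 26) (.e (nat_lit 426286) (nat_lit 10) (.e (nat_lit 434231) (nat_lit 23) .nil))))) .nil)))) (.nd (nat_lit 4) (.nd (nat_lit 5) 
(.lf (nat_lit 50824) (.g (nat_lit 3459) (.e (nat_lit 1349) (nat_lit 102) (.e (nat_lit 286733) (nat_lit 2) (.e (nat_lit 90176) (nat_lit 15) (.e (nat_lit 188450) (nat_lit 23) (.e (nat_lit 204817) (nat_lit 17) (.e (nat_lit 7936) (nat_lit 332) .nil)))))) (.g (nat_lit 4) .nil .nil))) 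
(.lf (nat_lit 50856) (.g (nat_lit 2758) (.e (nat_lit 1349) (nat_lit 102) (.e (nat_lit 286733) (nat_lit 2) (.e (nat_lit 90178) (nat_lit 15) (.e (nat_lit 188452) (nat_lit 23) (.e (nat_lit 204815) (nat_lit 17) .nil))))) .nil))) (.nd (nat_lit 5) 
(.lf (nat_lit 50840) (.g (nat_lit 3172) (.e (nat_lit 1349) (nat_lit 102) (.e (nat_lit 286733) (nat_lit 2) (.e (nat_lit 90178) (nat_lit 15) (.e (nat_lit 188447) (nat_lit 22) (.e (nat_lit 196661) (nat_lit 12) (.e (nat_lit 57714) (nat_lit 176) .nil)))))) (.g (nat_lit 6) .nil .nil))) 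
(.lf (nat_lit 50872) (.g (nat_lit 2555) (.e (nat_lit 1349) (nat_lit 102) (.e (nat_lit 286734) (nat_lit 3) (.e (nat_lit 98370) (nat_lit 28) (.e (nat_lit 442427) (nat_lit 23) (.e (nat_lit 204821) (nat_lit 17) (.e (nat_lit 7936) (nat_lit 332) .nil)))))) (.g (nat_lit 5) .nil .nil)))))) (.nd (nat_lit 3) (.nd (nat_lit 4) (.nd (nat_lit 5) 
(.lf (nat_lit 50820) (.g (nat_lit 3107) (.e (nat_lit 1349) (nat_lit 102) (.e (nat_lit 286733) (nat_lit 2) (.e (nat_lit 90176) (nat_lit 15) (.e (nat_lit 188447) (nat_lit 22) (.e (nat_lit 196661) (nat_lit 12) (.e (nat_lit 57711) (nat_lit 176) .nil)))))) (.g (nat_lit 4) .nil .nil))) 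
(.lf (nat_lit 50852) (.g (nat_lit 2452) (.e (nat_lit 1349) (nat_lit 102) (.e (nat_lit 286733) (nat_lit 2) (.e (nat_lit 90178) (nat_lit 15) (.e (nat_lit 188450) (nat_lit 23) (.e (nat_lit 204821) (nat_lit 17) (.e (nat_lit 7936) (nat_lit 332) .nil)))))) (.g (nat_lit 4) .nil .nil)))) (.nd (nat_lit 5) 
(.lf (nat_lit 50836) (.g (nat_lit 3513) (.e (nat_lit 1349) (nat_lit 102) (.e (nat_lit 286733) (nat_lit 2) (.e (nat_lit 90177) (nat_lit 15) (.e (nat_lit 188452) (nat_lit 23) (.e (nat_lit 204821) (nat_lit 17) (.e (nat_lit 6136) (nat_lit 332) .nil)))))) (.g (nat_lit 4) .nil .nil))) 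
(.lf (nat_lit 50868) (.g (nat_lit 2217) (.e (nat_lit 1349) (nat_lit 102) (.e (nat_lit 286734) (nat_lit 3) (.e (nat_lit 98370) (nat_lit 28) (.e (nat_lit 442424) (nat_lit 22) (.e (nat_lit 196661) (nat_lit 12) (.e (nat_lit 65280) (nat_lit 176) .nil)))))) (.g (nat_lit 4) .nil .nil))))) (.nd (nat_lit 4) (.nd (nat_lit 5) 
(.lf (nat_lit 50828) (.g (nat_lit 3210) (.e (nat_lit 1349) (nat_lit 102) (.e (nat_lit 286733) (nat_lit 2) (.e (nat_lit 90176) (nat_lit 15) (.e (nat_lit 188450) (nat_lit 23) (.e (nat_lit 204821) (nat_lit 17) (.e (nat_lit 7936) (nat_lit 332) .nil)))))) (.g (nat_lit 4) .nil .nil))) 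
(.lf (nat_lit 50860) (.g (nat_lit 3329) (.e (nat_lit 1349) (nat_lit 102) (.e (nat_lit 286733) (nat_lit 2) (.e (nat_lit 90178) (nat_lit 15) (.e (nat_lit 188452) (nat_lit 23) (.e (nat_lit 204821) (nat_lit 17) (.e (nat_lit 6092) (nat_lit 332) .nil)))))) (.g (nat_lit 4) .nil .nil)))) (.nd (nat_lit 5) 
(.lf (nat_lit 50844) (.g (nat_lit 2946) (.e (nat_lit 1349) (nat_lit 102) (.e (nat_lit 286733) (nat_lit 2) (.e (nat_lit 90178) (nat_lit 15) (.e (nat_lit 188448) (nat_lit 22) (.e (nat_lit 196661) (nat_lit 12) (.e (nat_lit 57714) (nat_lit 176) .nil)))))) (.g (nat_lit 6) .nil .nil))) 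
(.lf (nat_lit 50876) (.g (nat_lit 2332) (.e (nat_lit 1349) (nat_lit 102) (.e (nat_lit 286734) (nat_lit 3) (.e (nat_lit 98372) (nat_lit 29) (.e (nat_lit 450579) (nat_lit 5) (.e (nat_lit 532488) (nat_lit 0) .nil))))) .nil)))))) (.nd (nat_lit 2) (.nd (nat_lit 3) (.nd (nat_lit 4) (.nd (nat_lit 5) 
(.lf (nat_lit 50818) (.g (nat_lit 1301) (.e (nat_lit 1349) (nat_lit 102) (.e (nat_lit 286733) (nat_lit 2) (.e (nat_lit 90174) (nat_lit 14) (.e (nat_lit 188160) (nat_lit 40) .nil)))) .nil)) 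
(.lf (nat_lit 50850) (.g (nat_lit 2136) (.e (nat_lit 1349) (nat_lit 102) (.e (nat_lit 286733) (nat_lit 2) (.e (nat_lit 90178) (nat_lit 15) (.e (nat_lit 188450) (nat_lit 23) (.e (nat_lit 204821) (nat_lit 17) (.e (nat_lit 6092) (nat_lit 332) .nil)))))) (.g (nat_lit 4) .nil .nil)))) (.nd (nat_lit 5) 
(.lf (nat_lit 50834) (.g (nat_lit 3311) (.e (nat_lit 1349) (nat_lit 102) (.e (nat_lit 286733) (nat_lit 2) (.e (nat_lit 90177) (nat_lit 15) (.e (nat_lit 188452) (nat_lit 23) (.e (nat_lit 204817) (nat_lit 17) (.e (nat_lit 7936) (nat_lit 332) .nil)))))) (.g (nat_lit 4) .nil .nil))) 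
(.lf (nat_lit 50866) (.g (nat_lit 641) (.e (nat_lit 1349) (nat_lit 102) (.e (nat_lit 286734) (nat_lit 3) (.e (nat_lit 98369) (nat_lit 28) .nil))) .nil)))) (.nd (nat_lit 4) (.nd (nat_lit 5) 
(.lf (nat_lit 50826) (.g (nat_lit 2800) (.e (nat_lit 1349) (nat_lit 102) (.e (nat_lit 286733) (nat_lit 2) (.e (nat_lit 90176) (nat_lit 15) (.e (nat_lit 188450) (nat_lit 23) (.e (nat_lit 204821) (nat_lit 17) (.e (nat_lit 6092) (nat_lit 332) .nil)))))) (.g (nat_lit 4) .nil .nil))) 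
(.lf (nat_lit 50858) (.g (nat_lit 2738) (.e (nat_lit 1349) (nat_lit 102) (.e (nat_lit 286733) (nat_lit 2) (.e (nat_lit 90178) (nat_lit 15) (.e (nat_lit 188452) (nat_lit 23) (.e (nat_lit 204817) (nat_lit 17) (.e (nat_lit 7936) (nat_lit 332) .nil)))))) (.g (nat_lit 4) .nil .nil)))) (.nd (nat_lit 5) 
(.lf (nat_lit 50842) (.g (nat_lit 1297) (.e (nat_lit 1349) (nat_lit 102) (.e (nat_lit 286733) (nat_lit 2) (.e (nat_lit 90178) (nat_lit 15) (.e (nat_lit 188448) (nat_lit 22) .nil)))) .nil)) 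
(.lf (nat_lit 50874) (.g (nat_lit 2426) (.e (nat_lit 1349) (nat_lit 102) (.e (nat_lit 286734) (nat_lit 3) (.e (nat_lit 98372) (nat_lit 29) (.e (nat_lit 450579) (nat_lit 5) (.e (nat_lit 532482) (nat_lit 0) .nil))))) .nil))))) (.nd (nat_lit 3) (.nd (nat_lit 4) (.nd (nat_lit 5) 
(.lf (nat_lit 50822) (.g (nat_lit 3688) (.e (nat_lit 1349) (nat_lit 102) (.e (nat_lit 286733) (nat_lit 2) (.e (nat_lit 90176) (nat_lit 15) (.e (nat_lit 188447) (nat_lit 22) (.e (nat_lit 196661) (nat_lit 12) (.e (nat_lit 65280) (nat_lit 176) .nil)))))) (.g (nat_lit 5) .nil .nil))) 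
(.lf (nat_lit 50854) (.g (nat_lit 2630) (.e (nat_lit 1349) (nat_lit 102) (.e (nat_lit 286733) (nat_lit 2) (.e (nat_lit 90178) (nat_lit 15) (.e (nat_lit 188451) (nat_lit 23) (.e (nat_lit 204821) (nat_lit 17) (.e (nat_lit 6136) (nat_lit 332) .nil)))))) (.g (nat_lit 6) .nil .nil)))) (.nd (nat_lit 5) 
(.lf (nat_lit 50838) (.g (nat_lit 3339) (.e (nat_lit 1349) (nat_lit 102) (.e (nat_lit 286733) (nat_lit 2) (.e (nat_lit 90177) (nat_lit 15) (.e (nat_lit 188452) (nat_lit 23) (.e (nat_lit 204821) (nat_lit 17) (.e (nat_lit 7936) (nat_lit 332) .nil)))))) (.g (nat_lit 4) .nil .nil))) 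
(.lf (nat_lit 50870) (.g (nat_lit 2890) (.e (nat_lit 1349) (nat_lit 102) (.e (nat_lit 286734) (nat_lit 3) (.e (nat_lit 98370) (nat_lit 28) (.e (nat_lit 442427) (nat_lit 23) (.e (nat_lit 204821) (nat_lit 17) (.e (nat_lit 6092) (nat_lit 332) .nil)))))) (.g (nat_lit 5) .nil .nil))))) (.nd (nat_lit 4) (.nd (nat_lit 5) 
(.lf (nat_lit 50830) (.g (nat_lit 2075) (.e (nat_lit 1349) (nat_lit 102) (.e (nat_lit 286733) (nat_lit 2) (.e (nat_lit 90177) (nat_lit 15) (.e (nat_lit 188447) (nat_lit 22) (.e (nat_lit 196661) (nat_lit 12) .nil))))) .nil)) 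
(.lf (nat_lit 50862) (.g (nat_lit 2898) (.e (nat_lit 1349) (nat_lit 102) (.e (nat_lit 286733) (nat_lit 2) (.e (nat_lit 90178) (nat_lit 15) (.e (nat_lit 188452) (nat_lit 23) (.e (nat_lit 204821) (nat_lit 17) (.e (nat_lit 7936) (nat_lit 332) .nil)))))) (.g (nat_lit 4) .nil .nil)))) (.nd (nat_lit 5) 
(.lf (nat_lit 50846) (.g (nat_lit 2192) (.e (nat_lit 1349) (nat_lit 102) (.e (nat_lit 286733) (nat_lit 2) (.e (nat_lit 90178) (nat_lit 15) (.e (nat_lit 188449) (nat_lit 22) (.e (nat_lit 196661) (nat_lit 12) .nil))))) .nil)) 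
(.lf (nat_lit 50878) (.g (nat_lit 517) (.e (nat_lit 1349) (nat_lit 102) (.e (nat_lit 286734) (nat_lit 3) (.e (nat_lit 98381) (nat_lit 31) .nil))) .nil))))))) (.nd (nat_lit 1) (.nd (nat_lit 2) (.nd (nat_lit 3) (.nd (nat_lit 4) (.nd (nat_lit 5) 
(.lf (nat_lit 50817) (.g (nat_lit 2060) (.e (nat_lit 1349) (nat_lit 102) (.e (nat_lit 286733) (nat_lit 2) (.e (nat_lit 90174) (nat_lit 14) (.e (nat_lit 180277) (nat_lit 32) (.e (nat_lit 1074) (nat_lit 81) .nil))))) .nil)) 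
(.lf (nat_lit 50849) (.g (nat_lit 3412) (.e (nat_lit 1349) (nat_lit 102) (.e (nat_lit 286733) (nat_lit 2) (.e (nat_lit 90178) (nat_lit 15) (.e (nat_lit 188449) (nat_lit 22) (.e (nat_lit 196661) (nat_lit 12) (.e (nat_lit 65280) (nat_lit 176) .nil)))))) (.g (nat_lit 5) .nil .nil)))) (.nd (nat_lit 5) 
(.lf (nat_lit 50833) (.g (nat_lit 4781) (.e (nat_lit 1349) (nat_lit 102) (.e (nat_lit 286733) (nat_lit 2) (.e (nat_lit 90177) (nat_lit 15) (.e (nat_lit 188452) (nat_lit 23) (.e (nat_lit 204816) (nat_lit 17) (.e (nat_lit 6192) (nat_lit 332) .nil)))))) (.g (nat_lit 0) .nil .nil))) 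
(.lf (nat_lit 50865) (.g (nat_lit 2511) (.e (nat_lit 1349) (nat_lit 102) (.e (nat_lit 286734) (nat_lit 3) (.e (nat_lit 98359) (nat_lit 26) (.e (nat_lit 426338) (nat_lit 14) (.e (nat_lit 491537) (nat_lit 2) (.e (nat_lit 90133) (nat_lit 9) (.e (nat_lit 2397) (nat_lit 157) (.e (nat_lit 7064) (nat_lit 377) .nil)))))))) (.g (nat_lit 4) .nil .nil))))) (.nd (nat_lit 4) (.nd (nat_lit 5) 
(.lf (nat_lit 50825) (.g (nat_lit 2380) (.e (nat_lit 1349) (nat_lit 102) (.e (nat_lit 286733) (nat_lit 2) (.e (nat_lit 90176) (nat_lit 15) (.e (nat_lit 188450) (nat_lit 23) (.e (nat_lit 204819) (nat_lit 17) .nil))))) .nil)) 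
(.lf (nat_lit 50857) (.g (nat_lit 4438) (.e (nat_lit 1349) (nat_lit 102) (.e (nat_lit 286733) (nat_lit 2) (.e (nat_lit 90178) (nat_lit 15) (.e (nat_lit 188452) (nat_lit 23) (.e (nat_lit 204816) (nat_lit 17) (.e (nat_lit 6192) (nat_lit 332) .nil)))))) (.g (nat_lit 4) .nil .nil)))) (.nd (nat_lit 5) 
(.lf (nat_lit 50841) (.g (nat_lit 2996) (.e (nat_lit 1349) (nat_lit 102) (.e (nat_lit 286733) (nat_lit 2) (.e (nat_lit 90178) (nat_lit 15) (.e (nat_lit 188447) (nat_lit 22) (.e (nat_lit 196661) (nat_lit 12) (.e (nat_lit 65280) (nat_lit 176) .nil)))))) (.g (nat_lit 5) .nil .nil))) 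
(.lf (nat_lit 50873) (.g (nat_lit 2489) (.e (nat_lit 1349) (nat_lit 102) (.e (nat_lit 286734) (nat_lit 3) (.e (nat_lit 98372) (nat_lit 29) (.e (nat_lit 450579) (nat_lit 5) (.e (nat_lit 532481) (nat_lit 0) (.e (nat_lit 6192) (nat_lit 332) .nil)))))) (.g (nat_lit 4) .nil .nil)))))) (.nd (nat_lit 3) (.nd (nat_lit 4) (.nd (nat_lit 5) 
(.lf (nat_lit 50821) (.g (nat_lit 3705) (.e (nat_lit 1349) (nat_lit 102) (.e (nat_lit 286733) (nat_lit 2) (.e (nat_lit 90176) (nat_lit 15) (.e (nat_lit 188447) (nat_lit 22) (.e (nat_lit 196661) (nat_lit 12) (.e (nat_lit 57714) (nat_lit 176) .nil)))))) (.g (nat_lit 5) .nil .nil))) 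
(.lf (nat_lit 50853) (.g (nat_lit 2455) (.e (nat_lit 1349) (nat_lit 102) (.e (nat_lit 286733) (nat_lit 2) (.e (nat_lit 90178) (nat_lit 15) (.e (nat_lit 188451) (nat_lit 23) (.e (nat_lit 204821) (nat_lit 17) (.e (nat_lit 6092) (nat_lit 332) .nil)))))) (.g (nat_lit 5) .nil .nil)))) (.nd (nat_lit 5) 
(.lf (nat_lit 50837) (.g (nat_lit 2852) (.e (nat_lit 1349) (nat_lit 102) (.e (nat_lit 286733) (nat_lit 2) (.e (nat_lit 90177) (nat_lit 15) (.e (nat_lit 188452) (nat_lit 23) (.e (nat_lit 204821) (nat_lit 17) (.e (nat_lit 6149) (nat_lit 332) .nil)))))) (.g (nat_lit 4) .nil .nil))) 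
(.lf (nat_lit 50869) (.g (nat_lit 2014) (.e (nat_lit 1349) (nat_lit 102) (.e (nat_lit 286734) (nat_lit 3) (.e (nat_lit 98370) (nat_lit 28) (.e (nat_lit 442427) (nat_lit 23) (.e (nat_lit 204821) (nat_lit 17) .nil))))) .nil)))) (.nd (nat_lit 4) (.nd (nat_lit 5) 
(.lf (nat_lit 50829) (.g (nat_lit 3977) (.e (nat_lit 1349) (nat_lit 102) (.e (nat_lit 286733) (nat_lit 2) (.e (nat_lit 90176) (nat_lit 15) (.e (nat_lit 188452) (nat_lit 23) (.e (nat_lit 204816) (nat_lit 17) (.e (nat_lit 6192) (nat_lit 332) .nil)))))) (.g (nat_lit 4) .nil .nil))) 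
(.lf (nat_lit 50861) (.g (nat_lit 3167) (.e (nat_lit 1349) (nat_lit 102) (.e (nat_lit 286733) (nat_lit 2) (.e (nat_lit 90178) (nat_lit 15) (.e (nat_lit 188452) (nat_lit 23) (.e (nat_lit 204821) (nat_lit 17) (.e (nat_lit 6136) (nat_lit 332) .nil)))))) (.g (nat_lit 4) .nil .nil)))) (.nd (nat_lit 5) 
(.lf (nat_lit 50845) (.g (nat_lit 2768) (.e (nat_lit 1349) (nat_lit 102) (.e (nat_lit 286733) (nat_lit 2) (.e (nat_lit 90178) (nat_lit 15) (.e (nat_lit 188448) (nat_lit 22) (.e (nat_lit 196661) (nat_lit 12) (.e (nat_lit 65280) (nat_lit 176) .nil)))))) (.g (nat_lit 5) .nil .nil))) 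
(.lf (nat_lit 50877) (.g (nat_lit 2446) (.e (nat_lit 1349) (nat_lit 102) (.e (nat_lit 286734) (nat_lit 3) (.e (nat_lit 98372) (nat_lit 29) (.e (nat_lit 450579) (nat_lit 5) (.e (nat_lit 532489) (nat_lit 0) .nil))))) .nil)))))) (.nd (nat_lit 2) (.nd (nat_lit 3) (.nd (nat_lit 4) (.nd (nat_lit 5) 
(.lf (nat_lit 50819) (.g (nat_lit 2469) (.e (nat_lit 1349) (nat_lit 102) (.e (nat_lit 286733) (nat_lit 2) (.e (nat_lit 90176) (nat_lit 15) (.e (nat_lit 188447) (nat_lit 22) (.e (nat_lit 196661) (nat_lit 12) .nil))))) .nil)) 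
(.lf (nat_lit 50851) (.g (nat_lit 2626) (.e (nat_lit 1349) (nat_lit 102) (.e (nat_lit 286733) (nat_lit 2) (.e (nat_lit 90178) (nat_lit 15) (.e (nat_lit 188450) (nat_lit 23) (.e (nat_lit 204821) (nat_lit 17) (.e (nat_lit 6136) (nat_lit 332) .nil)))))) (.g (nat_lit 5) .nil .nil)))) (.nd (nat_lit 5) 
(.lf (nat_lit 50835) (.g (nat_lit 3634) (.e (nat_lit 1349) (nat_lit 102) (.e (nat_lit 286733) (nat_lit 2) (.e (nat_lit 90177) (nat_lit 15) (.e (nat_lit 188452) (nat_lit 23) (.e (nat_lit 204821) (nat_lit 17) (.e (nat_lit 6092) (nat_lit 332) .nil)))))) (.g (nat_lit 4) .nil .nil))) 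
(.lf (nat_lit 50867) (.g (nat_lit 2915) (.e (nat_lit 1349) (nat_lit 102) (.e (nat_lit 286734) (nat_lit 3) (.e (nat_lit 98370) (nat_lit 28) (.e (nat_lit 442424) (nat_lit 22) (.e (nat_lit 196661) (nat_lit 12) (.e (nat_lit 57714) (nat_lit 176) .nil)))))) (.g (nat_lit 5) .nil .nil))))) (.nd (nat_lit 4) (.nd (nat_lit 5) 
(.lf (nat_lit 50827) (.g (nat_lit 3253) (.e (nat_lit 1349) (nat_lit 102) (.e (nat_lit 286733) (nat_lit 2) (.e (nat_lit 90176) (nat_lit 15) (.e (nat_lit 188450) (nat_lit 23) (.e (nat_lit 204821) (nat_lit 17) (.e (nat_lit 6136) (nat_lit 332) .nil)))))) (.g (nat_lit 4) .nil .nil))) 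
(.lf (nat_lit 50859) (.g (nat_lit 2518) (.e (nat_lit 1349) (nat_lit 102) (.e (nat_lit 286733) (nat_lit 2) (.e (nat_lit 90178) (nat_lit 15) (.e (nat_lit 188452) (nat_lit 23) (.e (nat_lit 204821) (nat_lit 17) .nil))))) .nil))) (.nd (nat_lit 5) 
(.lf (nat_lit 50843) (.g (nat_lit 2470) (.e (nat_lit 1349) (nat_lit 102) (.e (nat_lit 286733) (nat_lit 2) (.e (nat_lit 90178) (nat_lit 15) (.e (nat_lit 188448) (nat_lit 22) (.e (nat_lit 196661) (nat_lit 12) (.e (nat_lit 57711) (nat_lit 176) .nil)))))) (.g (nat_lit 4) .nil .nil))) 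
(.lf (nat_lit 50875) (.g (nat_lit 2388) (.e (nat_lit 1349) (nat_lit 102) (.e (nat_lit 286734) (nat_lit 3) (.e (nat_lit 98372) (nat_lit 29) (.e (nat_lit 450579) (nat_lit 5) (.e (nat_lit 532484) (nat_lit 0) .nil))))) .nil))))) (.nd (nat_lit 3) (.nd (nat_lit 4) (.nd (nat_lit 5) 
(.lf (nat_lit 50823) (.g (nat_lit 2537) (.e (nat_lit 1349) (nat_lit 102) (.e (nat_lit 286733) (nat_lit 2) (.e (nat_lit 90176) (nat_lit 15) (.e (nat_lit 188450) (nat_lit 23) (.e (nat_lit 204816) (nat_lit 17) (.e (nat_lit 6192) (nat_lit 332) .nil)))))) (.g (nat_lit 4) .nil .nil))) 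
(.lf (nat_lit 50855) (.g (nat_lit 2267) (.e (nat_lit 1349) (nat_lit 102) (.e (nat_lit 286733) (nat_lit 2) (.e (nat_lit 90178) (nat_lit 15) (.e (nat_lit 188451) (nat_lit 23) (.e (nat_lit 204821) (nat_lit 17) (.e (nat_lit 7936) (nat_lit 332) .nil)))))) (.g (nat_lit 5) .nil .nil)))) (.nd (nat_lit 5) 
(.lf (nat_lit 50839) (.g (nat_lit 2516) (.e (nat_lit 1349) (nat_lit 102) (.e (nat_lit 286733) (nat_lit 2) (.e (nat_lit 90178) (nat_lit 15) (.e (nat_lit 188447) (nat_lit 22) (.e (nat_lit 196661) (nat_lit 12) (.e (nat_lit 57711) (nat_lit 176) .nil)))))) (.g (nat_lit 4) .nil .nil))) 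
(.lf (nat_lit 50871) (.g (nat_lit 3200) (.e (nat_lit 1349) (nat_lit 102) (.e (nat_lit 286734) (nat_lit 3) (.e (nat_lit 98370) (nat_lit 28) (.e (nat_lit 442427) (nat_lit 23) (.e (nat_lit 204821) (nat_lit 17) (.e (nat_lit 6136) (nat_lit 332) .nil)))))) (.g (nat_lit 0) .nil .nil))))) (.nd (nat_lit 4) (.nd (nat_lit 5) 
(.lf (nat_lit 50831) (.g (nat_lit 1498) (.e (nat_lit 1349) (nat_lit 102) (.e (nat_lit 286733) (nat_lit 2) (.e (nat_lit 90177) (nat_lit 15) (.e (nat_lit 188450) (nat_lit 23) .nil)))) .nil)) 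
(.lf (nat_lit 50863) (.g (nat_lit 2005) (.e (nat_lit 1349) (nat_lit 102) (.e (nat_lit 286734) (nat_lit 3) (.e (nat_lit 98359) (nat_lit 26) (.e (nat_lit 426212) (nat_lit 9) (.e (nat_lit 426125) (nat_lit 2) .nil))))) .nil))) (.nd (nat_lit 5) 
(.lf (nat_lit 50847) (.g (nat_lit 3465) (.e (nat_lit 1349) (nat_lit 102) (.e (nat_lit 286733) (nat_lit 2) (.e (nat_lit 90178) (nat_lit 15) (.e (nat_lit 188449) (nat_lit 22) (.e (nat_lit 196661) (nat_lit 12) (.e (nat_lit 57711) (nat_lit 176) .nil)))))) (.g (nat_lit 5) .nil .nil))) 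
(.lf (nat_lit 50879) (.g (nat_lit 981) (.e (nat_lit 1349) (nat_lit 102) (.e (nat_lit 286735) (nat_lit 3) (.e (nat_lit 98319) (nat_lit 17) (.e (nat_lit 7065) (nat_lit 377) .nil)))) .nil))))))))

noncomputable def tv707 : DT := (.nd (nat_lit 0) (.nd (nat_lit 1) (.nd (nat_lit 2) (.nd (nat_lit 3) (.nd (nat_lit 4) (.nd (nat_lit 5) 
(.lf (nat_lit 50880) (.g (nat_lit 2977) (.e (nat_lit 1349) (nat_lit 102) (.e (nat_lit 286735) (nat_lit 3) (.e (nat_lit 98319) (nat_lit 17) (.e (nat_lit 7065) (nat_lit 377) (.e (nat_lit 1349) (nat_lit 102) (.e (nat_lit 286735) (nat_lit 3) (.e (nat_lit 98320) (nat_lit 17) (.e (nat_lit 7065) (nat_lit 377) .nil)))))))) (.g (nat_lit 5) .nil .nil))) 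
(.lf (nat_lit 50912) (.g (nat_lit 2429) (.e (nat_lit 1349) (nat_lit 102) (.e (nat_lit 286735) (nat_lit 3) (.e (nat_lit 98359) (nat_lit 26) (.e (nat_lit 426185) (nat_lit 9) (.e (nat_lit 426140) (nat_lit 3) (.e (nat_lit 204821) (nat_lit 17) (.e (nat_lit 7936) (nat_lit 332) .nil))))))) (.g (nat_lit 4) .nil .nil)))) (.nd (nat_lit 5) 
(.lf (nat_lit 50896) (.g (nat_lit 3415) (.e (nat_lit 1349) (nat_lit 102) (.e (nat_lit 286735) (nat_lit 3) (.e (nat_lit 98353) (nat_lit 25) (.e (nat_lit 417810) (nat_lit 6) (.e (nat_lit 286735) (nat_lit 3) (.e (nat_lit 98319) (nat_lit 17) (.e (nat_lit 7065) (nat_lit 377) .nil))))))) (.g (nat_lit 5) .nil .nil))) 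
(.lf (nat_lit 50928) (.g (nat_lit 1759) (.e (nat_lit 1349) (nat_lit 102) (.e (nat_lit 286735) (nat_lit 3) (.e (nat_lit 98359) (nat_lit 26) (.e (nat_lit 426216) (nat_lit 9) .nil)))) .nil)))) (.nd (nat_lit 4) (.nd (nat_lit 5) 
(.lf (nat_lit 50888) (.g (nat_lit 2567) (.e (nat_lit 1349) (nat_lit 102) (.e (nat_lit 286735) (nat_lit 3) (.e (nat_lit 98342) (nat_lit 20) (.e (nat_lit 221212) (nat_lit 22) (.e (nat_lit 196628) (nat_lit 9) (.e (nat_lit 186) (nat_lit 14) (.e (nat_lit 221210) (nat_lit 22) (.e (nat_lit 196691) (nat_lit 18) .nil)))))))) (.g (nat_lit 4) .nil .nil))) 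
(.lf (nat_lit 50920) (.g (nat_lit 4504) (.e (nat_lit 1349) (nat_lit 102) (.e (nat_lit 286735) (nat_lit 3) (.e (nat_lit 98359) (nat_lit 26) (.e (nat_lit 426208) (nat_lit 9) (.e (nat_lit 426125) (nat_lit 2) (.e (nat_lit 196661) (nat_lit 12) (.e (nat_lit 65280) (nat_lit 176) .nil))))))) (.g (nat_lit 6) .nil .nil)))) (.nd (nat_lit 5) 
(.lf (nat_lit 50904) (.g (nat_lit 744) (.e (nat_lit 1349) (nat_lit 102) (.e (nat_lit 286735) (nat_lit 3) (.e (nat_lit 98357) (nat_lit 26) .nil))) .nil)) 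
(.lf (nat_lit 50936) (.g (nat_lit 2552) (.e (nat_lit 1349) (nat_lit 102) (.e (nat_lit 286735) (nat_lit 3) (.e (nat_lit 98359) (nat_lit 26) (.e (nat_lit 426285) (nat_lit 10) (.e (nat_lit 434231) (nat_lit 23) .nil))))) .nil))))) (.nd (nat_lit 3) (.nd (nat_lit 4) (.nd (nat_lit 5) 
(.lf (nat_lit 50884) (.g (nat_lit 1358) (.e (nat_lit 1349) (nat_lit 102) (.e (nat_lit 286735) (nat_lit 3) (.e (nat_lit 98342) (nat_lit 20) (.e (nat_lit 221196) (nat_lit 20) .nil)))) .nil)) 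
(.lf (nat_lit 50916) (.g (nat_lit 1450) (.e (nat_lit 1349) (nat_lit 102) (.e (nat_lit 286735) (nat_lit 3) (.e (nat_lit 98359) (nat_lit 26) (.e (nat_lit 426208) (nat_lit 9) .nil)))) .nil))) (.nd (nat_lit 5) 
(.lf (nat_lit 50900) (.g (nat_lit 1505) (.e (nat_lit 1349) (nat_lit 102) (.e (nat_lit 286735) (nat_lit 3) (.e (nat_lit 98356) (nat_lit 26) (.e (nat_lit 426244) (nat_lit 9) .nil)))) .nil)) 
(.lf (nat_lit 50932) (.g (nat_lit 2033) (.e (nat_lit 1349) (nat_lit 102) (.e (nat_lit 286735) (nat_lit 3) (.e (nat_lit 98359) (nat_lit 26) (.e (nat_lit 426219) (nat_lit 9) .nil)))) .nil)))) (.nd (nat_lit 4) (.nd (nat_lit 5) 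
(.lf (nat_lit 50892) (.g (nat_lit 2386) (.e (nat_lit 1349) (nat_lit 102) (.e (nat_lit 286735) (nat_lit 3) (.e (nat_lit 98350) (nat_lit 24) (.e (nat_lit 409607) (nat_lit 0) .nil)))) .nil)) 
(.lf (nat_lit 50924) (.g (nat_lit 4053) (.e (nat_lit 1349) (nat_lit 102) (.e (nat_lit 286735) (nat_lit 3) (.e (nat_lit 98359) (nat_lit 26) (.e (nat_lit 426212) (nat_lit 9) (.e (nat_lit 426125) (nat_lit 2) (.e (nat_lit 196661) (nat_lit 12) (.e (nat_lit 65280) (nat_lit 176) .nil))))))) (.g (nat_lit 6) .nil .nil)))) (.nd (nat_lit 5) 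
(.lf (nat_lit 50908) (.g (nat_lit 4236) (.e (nat_lit 1349) (nat_lit 102) (.e (nat_lit 286735) (nat_lit 3) (.e (nat_lit 98359) (nat_lit 26) (.e (nat_lit 426185) (nat_lit 9) (.e (nat_lit 426125) (nat_lit 2) (.e (nat_lit 196661) (nat_lit 12) (.e (nat_lit 57714) (nat_lit 176) .nil))))))) (.g (nat_lit 6) .nil .nil))) 
(.lf (nat_lit 50940) (.g (nat_lit 4984) (.e (nat_lit 1349) (nat_lit 102) (.e (nat_lit 286735) (nat_lit 3) (.e (nat_lit 98359) (nat_lit 26) (.e (nat_lit 426338) (nat_lit 14) (.e (nat_lit 491540) (nat_lit 3) (.e (nat_lit 98320) (nat_lit 17) (.e (nat_lit 7065) (nat_lit 377) .nil))))))) (.g (nat_lit 0) .nil .nil))))))) (.nd (nat_lit 2) (.nd (nat_lit 3) (.nd (nat_lit 4) (.nd (nat_lit 5) 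
(.lf (nat_lit 50882) (.g (nat_lit 744) (.e (nat_lit 1349) (nat_lit 102) (.e (nat_lit 286735) (nat_lit 3) (.e (nat_lit 98338) (nat_lit 19) .nil))) .nil)) 
(.lf (nat_lit 50914) (.g (nat_lit 2082) (.e (nat_lit 1349) (nat_lit 102) (.e (nat_lit 286735) (nat_lit 3) (.e (nat_lit 98359) (nat_lit 26) (.e (nat_lit 426207) (nat_lit 9) .nil)))) .nil))) (.nd (nat_lit 5) 
(.lf (nat_lit 50898) (.g (nat_lit 1498) (.e (nat_lit 1349) (nat_lit 102) (.e (nat_lit 286735) (nat_lit 3) (.e (nat_lit 98356) (nat_lit 26) (.e (nat_lit 426241) (nat_lit 9) .nil)))) .nil)) 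
(.lf (nat_lit 50930) (.g (nat_lit 3020) (.e (nat_lit 1349) (nat_lit 102) (.e (nat_lit 286735) (nat_lit 3) (.e (nat_lit 98359) (nat_lit 26) (.e (nat_lit 426216) (nat_lit 9) (.e (nat_lit 426125) (nat_lit 2) (.e (nat_lit 196661) (nat_lit 12) (.e (nat_lit 65280) (nat_lit 176) .nil))))))) (.g (nat_lit 5) .nil .nil))))) (.nd (nat_lit 4) (.nd (nat_lit 5) 
(.lf (nat_lit 50890) (.g (nat_lit 2386) (.e (nat_lit 1349) (nat_lit 102) (.e (nat_lit 286735) (nat_lit 3) (.e (nat_lit 98350) (nat_lit 24) (.e (nat_lit 409600) (nat_lit 0) .nil)))) .nil)) 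
(.lf (nat_lit 50922) (.g (nat_lit 2234) (.e (nat_lit 1349) (nat_lit 102) (.e (nat_lit 286735) (nat_lit 3) (.e (nat_lit 98359) (nat_lit 26) (.e (nat_lit 426211) (nat_lit 9) (.e (nat_lit 426140) (nat_lit 3) .nil))))) .nil))) (.nd (nat_lit 5) 
(.lf (nat_lit 50906) (.g (nat_lit 1796) (.e (nat_lit 1349) (nat_lit 102) (.e (nat_lit 286735) (nat_lit 3) (.e (nat_lit 98359) (nat_lit 26) (.e (nat_lit 426170) (nat_lit 7) .nil)))) .nil)) 
(.lf (nat_lit 50938) (.g (nat_lit 2137) (.e (nat_lit 1349) (nat_lit 102) (.e (nat_lit 286735) (nat_lit 3) (.e (nat_lit 98359) (nat_lit 26) (.e (nat_lit 426290) (nat_lit 10) (.e (nat_lit 434231) (nat_lit 23) .nil))))) .nil))))) (.nd (nat_lit 3) (.nd (nat_lit 4) (.nd (nat_lit 5) 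
(.lf (nat_lit 50886) (.g (nat_lit 2330) (.e (nat_lit 1349) (nat_lit 102) (.e (nat_lit 286735) (nat_lit 3) (.e (nat_lit 98342) (nat_lit 20) (.e (nat_lit 221212) (nat_lit 22) (.e (nat_lit 204544) (nat_lit 0) (.e (nat_lit 2958) (nat_lit 185) (.e (nat_lit 434248) (nat_lit 28) (.e (nat_lit 573503) (nat_lit 18) .nil)))))))) (.g (nat_lit 4) .nil .nil))) 
(.lf (nat_lit 50918) (.g (nat_lit 4769) (.e (nat_lit 1349) (nat_lit 102) (.e (nat_lit 286735) (nat_lit 3) (.e (nat_lit 98359) (nat_lit 26) (.e (nat_lit 426208) (nat_lit 9) (.e (nat_lit 426125) (nat_lit 2) (.e (nat_lit 196661) (nat_lit 12) (.e (nat_lit 57714) (nat_lit 176) .nil))))))) (.g (nat_lit 6) .nil .nil)))) (.nd (nat_lit 5) 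
(.lf (nat_lit 50902) (.g (nat_lit 1907) (.e (nat_lit 1349) (nat_lit 102) (.e (nat_lit 286735) (nat_lit 3) (.e (nat_lit 98356) (nat_lit 26) (.e (nat_lit 426248) (nat_lit 9) .nil)))) .nil)) 
(.lf (nat_lit 50934) (.g (nat_lit 2254) (.e (nat_lit 1349) (nat_lit 102) (.e (nat_lit 286735) (nat_lit 3) (.e (nat_lit 98359) (nat_lit 26) (.e (nat_lit 426268) (nat_lit 9) .nil)))) .nil)))) (.nd (nat_lit 4) (.nd (nat_lit 5) 
(.lf (nat_lit 50894) (.g (nat_lit 2467) (.e (nat_lit 1349) (nat_lit 102) (.e (nat_lit 286735) (nat_lit 3) (.e (nat_lit 98353) (nat_lit 25) (.e (nat_lit 417809) (nat_lit 6) (.e (nat_lit 286735) (nat_lit 3) (.e (nat_lit 98319) (nat_lit 17) (.e (nat_lit 7065) (nat_lit 377) .nil))))))) (.g (nat_lit 4) .nil .nil))) 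
(.lf (nat_lit 50926) (.g (nat_lit 1918) (.e (nat_lit 1349) (nat_lit 102) (.e (nat_lit 286735) (nat_lit 3) (.e (nat_lit 98359) (nat_lit 26) (.e (nat_lit 426214) (nat_lit 9) .nil)))) .nil))) (.nd (nat_lit 5) 
(.lf (nat_lit 50910) (.g (nat_lit 4094) (.e (nat_lit 1349) (nat_lit 102) (.e (nat_lit 286735) (nat_lit 3) (.e (nat_lit 98359) (nat_lit 26) (.e (nat_lit 426185) (nat_lit 9) (.e (nat_lit 426125) (nat_lit 2) (.e (nat_lit 196661) (nat_lit 12) (.e (nat_lit 65280) (nat_lit 176) .nil))))))) (.g (nat_lit 6) .nil .nil))) 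
(.lf (nat_lit 50942) (.g (nat_lit 3755) (.e (nat_lit 1349) (nat_lit 102) (.e (nat_lit 286735) (nat_lit 3) (.e (nat_lit 98363) (nat_lit 26) (.e (nat_lit 425987) (nat_lit 0) (.e (nat_lit 7582) (nat_lit 405) (.e (nat_lit 57464) (nat_lit 23) (.e (nat_lit 516098) (nat_lit 0) (.e (nat_lit 7065) (nat_lit 377) .nil)))))))) (.g (nat_lit 0) .nil .nil)))))))) 
(.nd (nat_lit 1) (.nd (nat_lit 2) (.nd (nat_lit 3) (.nd (nat_lit 4) (.nd (nat_lit 5) 
(.lf (nat_lit 50881) (.g (nat_lit 2381) (.e (nat_lit 1349) (nat_lit 102) (.e (nat_lit 286735) (nat_lit 3) (.e (nat_lit 98325) (nat_lit 17) (.e (nat_lit 7083) (nat_lit 379) (.e (nat_lit 123212) (nat_lit 273) (.e (nat_lit 57464) (nat_lit 23) (.e (nat_lit 516097) (nat_lit 0) (.e (nat_lit 7065) (nat_lit 377) .nil)))))))) (.g (nat_lit 4) .nil .nil))) 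
(.lf (nat_lit 50913) (.g (nat_lit 2596) (.e (nat_lit 1349) (nat_lit 102) (.e (nat_lit 286735) (nat_lit 3) (.e (nat_lit 98359) (nat_lit 26) (.e (nat_lit 426206) (nat_lit 9) (.e (nat_lit 426125) (nat_lit 2) .nil))))) .nil))) (.nd (nat_lit 5) 
(.lf (nat_lit 50897) (.g (nat_lit 744) (.e (nat_lit 1349) (nat_lit 102) (.e (nat_lit 286735) (nat_lit 3) (.e (nat_lit 98355) (nat_lit 26) .nil))) .nil)) 
(.lf (nat_lit 50929) (.g (nat_lit 3179) (.e (nat_lit 1349) (nat_lit 102) (.e (nat_lit 286735) (nat_lit 3) (.e (nat_lit 98359) (nat_lit 26) (.e (nat_lit 426216) (nat_lit 9) (.e (nat_lit 426125) (nat_lit 2) (.e (nat_lit 196661) (nat_lit 12) (.e (nat_lit 57714) (nat_lit 176) .nil))))))) (.g (nat_lit 5) .nil .nil))))) (.nd (nat_lit 4) (.nd (nat_lit 5) 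
(.lf (nat_lit 50889) (.g (nat_lit 3022) (.e (nat_lit 1349) (nat_lit 102) (.e (nat_lit 286735) (nat_lit 3) (.e (nat_lit 98349) (nat_lit 24) (.e (nat_lit 409602) (nat_lit 0) (.e (nat_lit 5394) (nat_lit 301) (.e (nat_lit 57464) (nat_lit 23) (.e (nat_lit 516098) (nat_lit 0) (.e (nat_lit 7065) (nat_lit 377) .nil)))))))) (.g (nat_lit 4) .nil .nil))) 
(.lf (nat_lit 50921) (.g (nat_lit 2261) (.e (nat_lit 1349) (nat_lit 102) (.e (nat_lit 286735) (nat_lit 3) (.e (nat_lit 98359) (nat_lit 26) (.e (nat_lit 426209) (nat_lit 9) .nil)))) .nil))) (.nd (nat_lit 5) 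
(.lf (nat_lit 50905) (.g (nat_lit 540) (.e (nat_lit 1349) (nat_lit 102) (.e (nat_lit 286735) (nat_lit 3) (.e (nat_lit 98359) (nat_lit 26) .nil))) .nil)) 
(.lf (nat_lit 50937) (.g (nat_lit 2414) (.e (nat_lit 1349) (nat_lit 102) (.e (nat_lit 286735) (nat_lit 3) (.e (nat_lit 98359) (nat_lit 26) (.e (nat_lit 426286) (nat_lit 10) (.e (nat_lit 434231) (nat_lit 23) .nil))))) .nil))))) (.nd (nat_lit 3) (.nd (nat_lit 4) (.nd (nat_lit 5) 
(.lf (nat_lit 50885) (.g (nat_lit 2414) (.e (nat_lit 1349) (nat_lit 102) (.e (nat_lit 286735) (nat_lit 3) (.e (nat_lit 98342) (nat_lit 20) (.e (nat_lit 221210) (nat_lit 22) (.e (nat_lit 204544) (nat_lit 5) (.e (nat_lit 180250) (nat_lit 10) (.e (nat_lit 573503) (nat_lit 18) .nil))))))) (.g (nat_lit 4) .nil .nil))) 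
(.lf (nat_lit 50917) (.g (nat_lit 4310) (.e (nat_lit 1349) (nat_lit 102) (.e (nat_lit 286735) (nat_lit 3) (.e (nat_lit 98359) (nat_lit 26) (.e (nat_lit 426208) (nat_lit 9) (.e (nat_lit 426125) (nat_lit 2) (.e (nat_lit 196661) (nat_lit 12) (.e (nat_lit 57711) (nat_lit 176) .nil))))))) (.g (nat_lit 6) .nil .nil)))) (.nd (nat_lit 5) 
(.lf (nat_lit 50901) (.g (nat_lit 2857) (.e (nat_lit 1349) (nat_lit 102) (.e (nat_lit 286735) (nat_lit 3) (.e (nat_lit 98356) (nat_lit 26) (.e (nat_lit 426246) (nat_lit 9) (.e (nat_lit 426125) (nat_lit 2) (.e (nat_lit 196661) (nat_lit 12) (.e (nat_lit 57714) (nat_lit 176) .nil))))))) (.g (nat_lit 4) .nil .nil))) 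
(.lf (nat_lit 50933) (.g (nat_lit 3314) (.e (nat_lit 1349) (nat_lit 102) (.e (nat_lit 286735) (nat_lit 3) (.e (nat_lit 98359) (nat_lit 26) (.e (nat_lit 426219) (nat_lit 9) (.e (nat_lit 426125) (nat_lit 2) (.e (nat_lit 196661) (nat_lit 12) (.e (nat_lit 57714) (nat_lit 176) .nil))))))) (.g (nat_lit 5) .nil .nil))))) (.nd (nat_lit 4) (.nd (nat_lit 5) 
(.lf (nat_lit 50893) (.g (nat_lit 4100) (.e (nat_lit 1349) (nat_lit 102) (.e (nat_lit 286735) (nat_lit 3) (.e (nat_lit 98353) (nat_lit 25) (.e (nat_lit 417809) (nat_lit 6) (.e (nat_lit 286734) (nat_lit 3) (.e (nat_lit 98320) (nat_lit 17) (.e (nat_lit 7065) (nat_lit 377) .nil))))))) (.g (nat_lit 7) .nil .nil))) 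
(.lf (nat_lit 50925) (.g (nat_lit 1954) (.e (nat_lit 1349) (nat_lit 102) (.e (nat_lit 286735) (nat_lit 3) (.e (nat_lit 98359) (nat_lit 26) (.e (nat_lit 426212) (nat_lit 9) (.e (nat_lit 426140) (nat_lit 3) .nil))))) .nil))) (.nd (nat_lit 5) 
(.lf (nat_lit 50909) (.g (nat_lit 3055) (.e (nat_lit 1349) (nat_lit 102) (.e (nat_lit 286735) (nat_lit 3) (.e (nat_lit 98359) (nat_lit 26) (.e (nat_lit 426185) (nat_lit 9) (.e (nat_lit 426125) (nat_lit 2) (.e (nat_lit 196661) (nat_lit 12) (.e (nat_lit 57715) (nat_lit 176) .nil))))))) (.g (nat_lit 5) .nil .nil))) 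
(.lf (nat_lit 50941) (.g (nat_lit 3887) (.e (nat_lit 1349) (nat_lit 102) (.e (nat_lit 286735) (nat_lit 3) (.e (nat_lit 98363) (nat_lit 26) (.e (nat_lit 425984) (nat_lit 0) (.e (nat_lit 7582) (nat_lit 405) (.e (nat_lit 57464) (nat_lit 23) (.e (nat_lit 516098) (nat_lit 0) (.e (nat_lit 7065) (nat_lit 377) .nil)))))))) (.g (nat_lit 0) .nil .nil))))))) 
(.nd (nat_lit 2) (.nd (nat_lit 3) (.nd (nat_lit 4) (.nd (nat_lit 5) 
(.lf (nat_lit 50883) (.g (nat_lit 544) (.e (nat_lit 1349) (nat_lit 102) (.e (nat_lit 286735) (nat_lit 3) (.e (nat_lit 98342) (nat_lit 20) .nil))) .nil)) 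
(.lf (nat_lit 50915) (.g (nat_lit 3307) (.e (nat_lit 1349) (nat_lit 102) (.e (nat_lit 286735) (nat_lit 3) (.e (nat_lit 98359) (nat_lit 26) (.e (nat_lit 426207) (nat_lit 9) (.e (nat_lit 426125) (nat_lit 2) (.e (nat_lit 196661) (nat_lit 12) (.e (nat_lit 57714) (nat_lit 176) .nil))))))) (.g (nat_lit 5) .nil .nil)))) (.nd (nat_lit 5) 
(.lf (nat_lit 50899) (.g (nat_lit 2568) (.e (nat_lit 1349) (nat_lit 102) (.e (nat_lit 286735) (nat_lit 3) (.e (nat_lit 98356) (nat_lit 26) (.e (nat_lit 426241) (nat_lit 9) (.e (nat_lit 426124) (nat_lit 2) (.e (nat_lit 196677) (nat_lit 16) (.e (nat_lit 130816) (nat_lit 176) .nil))))))) (.g (nat_lit 5) .nil .nil))) 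
(.lf (nat_lit 50931) (.g (nat_lit 2501) (.e (nat_lit 1349) (nat_lit 102) (.e (nat_lit 286735) (nat_lit 3) (.e (nat_lit 98359) (nat_lit 26) (.e (nat_lit 426218) (nat_lit 9) (.e (nat_lit 426125) (nat_lit 2) .nil))))) .nil)))) (.nd (nat_lit 4) (.nd (nat_lit 5) 
(.lf (nat_lit 50891) (.g (nat_lit 1970) (.e (nat_lit 1349) (nat_lit 102) (.e (nat_lit 286735) (nat_lit 3) (.e (nat_lit 98350) (nat_lit 24) (.e (nat_lit 409603) (nat_lit 0) .nil)))) .nil)) 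
(.lf (nat_lit 50923) (.g (nat_lit 2964) (.e (nat_lit 1349) (nat_lit 102) (.e (nat_lit 286735) (nat_lit 3) (.e (nat_lit 98359) (nat_lit 26) (.e (nat_lit 426212) (nat_lit 9) (.e (nat_lit 426125) (nat_lit 2) (.e (nat_lit 196661) (nat_lit 12) (.e (nat_lit 57715) (nat_lit 176) .nil))))))) (.g (nat_lit 4) .nil .nil)))) (.nd (nat_lit 5) 
(.lf (nat_lit 50907) (.g (nat_lit 4092) (.e (nat_lit 1349) (nat_lit 102) (.e (nat_lit 286735) (nat_lit 3) (.e (nat_lit 98359) (nat_lit 26) (.e (nat_lit 426185) (nat_lit 9) (.e (nat_lit 426125) (nat_lit 2) (.e (nat_lit 196661) (nat_lit 12) (.e (nat_lit 57711) (nat_lit 176) .nil))))))) (.g (nat_lit 6) .nil .nil))) 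
(.lf (nat_lit 50939) (.g (nat_lit 3288) (.e (nat_lit 1349) (nat_lit 102) (.e (nat_lit 286735) (nat_lit 3) (.e (nat_lit 98359) (nat_lit 26) (.e (nat_lit 426338) (nat_lit 14) (.e (nat_lit 491540) (nat_lit 3) (.e (nat_lit 98319) (nat_lit 17) (.e (nat_lit 7065) (nat_lit 377) .nil))))))) (.g (nat_lit 5) .nil .nil)))))) (.nd (nat_lit 3) (.nd (nat_lit 4) (.nd (nat_lit 5) 
(.lf (nat_lit 50887) (.g (nat_lit 3006) (.e (nat_lit 1349) (nat_lit 102) (.e (nat_lit 286735) (nat_lit 3) (.e (nat_lit 98342) (nat_lit 20) (.e (nat_lit 221212) (nat_lit 22) (.e (nat_lit 196620) (nat_lit 9) (.e (nat_lit 186) (nat_lit 14) (.e (nat_lit 221210) (nat_lit 22) (.e (nat_lit 196691) (nat_lit 18) .nil)))))))) (.g (nat_lit 4) .nil .nil))) 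
(.lf (nat_lit 50919) (.g (nat_lit 3224) (.e (nat_lit 1349) (nat_lit 102) (.e (nat_lit 286735) (nat_lit 3) (.e (nat_lit 98359) (nat_lit 26) (.e (nat_lit 426208) (nat_lit 9) (.e (nat_lit 426125) (nat_lit 2) (.e (nat_lit 196661) (nat_lit 12) (.e (nat_lit 57715) (nat_lit 176) .nil))))))) (.g (nat_lit 5) .nil .nil)))) (.nd (nat_lit 5) 
(.lf (nat_lit 50903) (.g (nat_lit 3184) (.e (nat_lit 1349) (nat_lit 102) (.e (nat_lit 286735) (nat_lit 3) (.e (nat_lit 98356) (nat_lit 26) (.e (nat_lit 426270) (nat_lit 9) (.e (nat_lit 426123) (nat_lit 2) (.e (nat_lit 196661) (nat_lit 12) (.e (nat_lit 57714) (nat_lit 176) .nil))))))) (.g (nat_lit 5) .nil .nil))) 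
(.lf (nat_lit 50935) (.g (nat_lit 1751) (.e (nat_lit 1349) (nat_lit 102) (.e (nat_lit 286735) (nat_lit 3) (.e (nat_lit 98359) (nat_lit 26) (.e (nat_lit 426275) (nat_lit 10) .nil)))) .nil)))) (.nd (nat_lit 4) (.nd (nat_lit 5) 
(.lf (nat_lit 50895) (.g (nat_lit 2721) (.e (nat_lit 1349) (nat_lit 102) (.e (nat_lit 286735) (nat_lit 3) (.e (nat_lit 98353) (nat_lit 25) (.e (nat_lit 417810) (nat_lit 6) (.e (nat_lit 286734) (nat_lit 3) (.e (nat_lit 98319) (nat_lit 17) (.e (nat_lit 7065) (nat_lit 377) .nil))))))) (.g (nat_lit 4) .nil .nil))) 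
(.lf (nat_lit 50927) (.g (nat_lit 2061) (.e (nat_lit 1349) (nat_lit 102) (.e (nat_lit 286735) (nat_lit 3) (.e (nat_lit 98359) (nat_lit 26) (.e (nat_lit 426215) (nat_lit 9) .nil)))) .nil))) (.nd (nat_lit 5) 
(.lf (nat_lit 50911) (.g (nat_lit 2551) (.e (nat_lit 1349) (nat_lit 102) (.e (nat_lit 286735) (nat_lit 3) (.e (nat_lit 98359) (nat_lit 26) (.e (nat_lit 426185) (nat_lit 9) (.e (nat_lit 426140) (nat_lit 3) (.e (nat_lit 204821) (nat_lit 17) (.e (nat_lit 6092) (nat_lit 332) .nil))))))) (.g (nat_lit 4) .nil .nil))) 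
(.lf (nat_lit 50943) (.g (nat_lit 3054) (.e (nat_lit 1349) (nat_lit 102) (.e (nat_lit 286735) (nat_lit 3) (.e (nat_lit 98365) (nat_lit 26) (.e (nat_lit 426296) (nat_lit 11) (.e (nat_lit 458789) (nat_lit 23) (.e (nat_lit 532481) (nat_lit 0) (.e (nat_lit 6192) (nat_lit 332) .nil))))))) (.g (nat_lit 6) .nil .nil)))))))))

noncomputable def tv708 : DT := (.nd (nat_lit 0) (.nd (nat_lit 1) (.nd (nat_lit 2) (.nd (nat_lit 3) (.nd (nat_lit 4) (.nd (nat_lit 5) 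
(.lf (nat_lit 50944) (.g (nat_lit 3177) (.e (nat_lit 1349) (nat_lit 102) (.e (nat_lit 286735) (nat_lit 3) (.e (nat_lit 98365) (nat_lit 26) (.e (nat_lit 426296) (nat_lit 11) (.e (nat_lit 458789) (nat_lit 23) (.e (nat_lit 532482) (nat_lit 0) (.e (nat_lit 6192) (nat_lit 332) .nil))))))) (.g (nat_lit 6) .nil .nil))) 
(.lf (nat_lit 50976) (.g (nat_lit 2803) (.e (nat_lit 1349) (nat_lit 102) (.e (nat_lit 286735) (nat_lit 3) (.e (nat_lit 98371) (nat_lit 28) (.e (nat_lit 442424) (nat_lit 22) (.e (nat_lit 196661) (nat_lit 12) (.e (nat_lit 65280) (nat_lit 176) .nil)))))) (.g (nat_lit 5) .nil .nil)))) (.nd (nat_lit 5) 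
(.lf (nat_lit 50960) (.g (nat_lit 3191) (.e (nat_lit 1349) (nat_lit 102) (.e (nat_lit 286735) (nat_lit 3) (.e (nat_lit 98369) (nat_lit 28) (.e (nat_lit 442427) (nat_lit 23) (.e (nat_lit 204821) (nat_lit 17) (.e (nat_lit 6092) (nat_lit 332) .nil)))))) (.g (nat_lit 5) .nil .nil))) 
(.lf (nat_lit 50992) (.g (nat_lit 2322) (.e (nat_lit 1349) (nat_lit 102) (.e (nat_lit 286735) (nat_lit 3) (.e (nat_lit 98373) (nat_lit 29) (.e (nat_lit 450562) (nat_lit 0) (.e (nat_lit 3996) (nat_lit 240) (.e (nat_lit 8289) (nat_lit 51) (.e (nat_lit 4965) (nat_lit 287) .nil))))))) (.g (nat_lit 4) .nil .nil))))) (.nd (nat_lit 4) (.nd (nat_lit 5) 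
(.lf (nat_lit 50952) (.g (nat_lit 1564) (.e (nat_lit 1349) (nat_lit 102) (.e (nat_lit 286735) (nat_lit 3) (.e (nat_lit 98367) (nat_lit 27) (.e (nat_lit 442112) (nat_lit 0) .nil)))) .nil)) 
(.lf (nat_lit 50984) (.g (nat_lit 4071) (.e (nat_lit 1349) (nat_lit 102) (.e (nat_lit 286735) (nat_lit 3) (.e (nat_lit 98372) (nat_lit 29) (.e (nat_lit 450579) (nat_lit 5) (.e (nat_lit 532481) (nat_lit 0) (.e (nat_lit 6192) (nat_lit 332) .nil)))))) (.g (nat_lit 5) .nil .nil)))) (.nd (nat_lit 5) 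
(.lf (nat_lit 50968) (.g (nat_lit 2560) (.e (nat_lit 1349) (nat_lit 102) (.e (nat_lit 286735) (nat_lit 3) (.e (nat_lit 98370) (nat_lit 28) (.e (nat_lit 442424) (nat_lit 22) (.e (nat_lit 196661) (nat_lit 12) (.e (nat_lit 57715) (nat_lit 176) .nil)))))) (.g (nat_lit 4) .nil .nil))) 
(.lf (nat_lit 51000) (.g (nat_lit 3301) (.e (nat_lit 1349) (nat_lit 102) (.e (nat_lit 286735) (nat_lit 3) (.e (nat_lit 98373) (nat_lit 29) (.e (nat_lit 450570) (nat_lit 1) (.e (nat_lit 500056) (nat_lit 17) .nil))))) .nil))))) (.nd (nat_lit 3) (.nd (nat_lit 4) (.nd (nat_lit 5) 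
(.lf (nat_lit 50948) (.g (nat_lit 4396) (.e (nat_lit 1349) (nat_lit 102) (.e (nat_lit 286735) (nat_lit 3) (.e (nat_lit 98365) (nat_lit 26) (.e (nat_lit 426298) (nat_lit 11) (.e (nat_lit 458789) (nat_lit 23) (.e (nat_lit 532481) (nat_lit 0) (.e (nat_lit 6192) (nat_lit 332) .nil))))))) (.g (nat_lit 7) .nil .nil))) 
(.lf (nat_lit 50980) (.g (nat_lit 496) (.e (nat_lit 1349) (nat_lit 102) (.e (nat_lit 286735) (nat_lit 3) (.e (nat_lit 98372) (nat_lit 29) .nil))) .nil))) (.nd (nat_lit 5) 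
(.lf (nat_lit 50964) (.g (nat_lit 1592) (.e (nat_lit 1349) (nat_lit 102) (.e (nat_lit 286735) (nat_lit 3) (.e (nat_lit 98370) (nat_lit 28) (.e (nat_lit 442422) (nat_lit 22) .nil)))) .nil)) 
(.lf (nat_lit 50996) (.g (nat_lit 2414) (.e (nat_lit 1349) (nat_lit 102) (.e (nat_lit 286735) (nat_lit 3) (.e (nat_lit 98373) (nat_lit 29) (.e (nat_lit 450563) (nat_lit 0) (.e (nat_lit 3996) (nat_lit 240) (.e (nat_lit 8287) (nat_lit 51) (.e (nat_lit 4965) (nat_lit 287) .nil))))))) (.g (nat_lit 5) .nil .nil))))) (.nd (nat_lit 4) (.nd (nat_lit 5) 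
(.lf (nat_lit 50956) (.g (nat_lit 1274) (.e (nat_lit 1349) (nat_lit 102) (.e (nat_lit 286735) (nat_lit 3) (.e (nat_lit 98369) (nat_lit 28) (.e (nat_lit 442424) (nat_lit 22) .nil)))) .nil)) 
(.lf (nat_lit 50988) (.g (nat_lit 3359) (.e (nat_lit 1349) (nat_lit 102) (.e (nat_lit 286735) (nat_lit 3) (.e (nat_lit 98372) (nat_lit 29) (.e (nat_lit 450579) (nat_lit 5) (.e (nat_lit 532489) (nat_lit 0) (.e (nat_lit 7936) (nat_lit 332) .nil)))))) (.g (nat_lit 4) .nil .nil)))) (.nd (nat_lit 5) 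
(.lf (nat_lit 50972) (.g (nat_lit 2900) (.e (nat_lit 1349) (nat_lit 102) (.e (nat_lit 286735) (nat_lit 3) (.e (nat_lit 98370) (nat_lit 28) (.e (nat_lit 442427) (nat_lit 23) (.e (nat_lit 204821) (nat_lit 17) (.e (nat_lit 6149) (nat_lit 332) .nil)))))) (.g (nat_lit 4) .nil .nil))) 
(.lf (nat_lit 51004) (.g (nat_lit 4035) (.e (nat_lit 1349) (nat_lit 102) (.e (nat_lit 286735) (nat_lit 3) (.e (nat_lit 98373) (nat_lit 29) (.e (nat_lit 450573) (nat_lit 1) (.e (nat_lit 500056) (nat_lit 17) .nil))))) .nil)))))) (.nd (nat_lit 2) (.nd (nat_lit 3) (.nd (nat_lit 4) (.nd (nat_lit 5) 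
(.lf (nat_lit 50946) (.g (nat_lit 3710) (.e (nat_lit 1349) (nat_lit 102) (.e (nat_lit 286735) (nat_lit 3) (.e (nat_lit 98365) (nat_lit 26) (.e (nat_lit 426297) (nat_lit 11) (.e (nat_lit 458789) (nat_lit 23) (.e (nat_lit 532482) (nat_lit 0) (.e (nat_lit 6192) (nat_lit 332) .nil))))))) (.g (nat_lit 6) .nil .nil))) 
(.lf (nat_lit 50978) (.g (nat_lit 2882) (.e (nat_lit 1349) (nat_lit 102) (.e (nat_lit 286735) (nat_lit 3) (.e (nat_lit 98371) (nat_lit 28) (.e (nat_lit 442427) (nat_lit 23) (.e (nat_lit 204821) (nat_lit 17) (.e (nat_lit 6136) (nat_lit 332) .nil)))))) (.g (nat_lit 0) .nil .nil)))) (.nd (nat_lit 5) 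
(.lf (nat_lit 50962) (.g (nat_lit 2559) (.e (nat_lit 1349) (nat_lit 102) (.e (nat_lit 286735) (nat_lit 3) (.e (nat_lit 98369) (nat_lit 28) (.e (nat_lit 442427) (nat_lit 23) (.e (nat_lit 204821) (nat_lit 17) (.e (nat_lit 6149) (nat_lit 332) .nil)))))) (.g (nat_lit 4) .nil .nil))) 
(.lf (nat_lit 50994) (.g (nat_lit 1836) (.e (nat_lit 1349) (nat_lit 102) (.e (nat_lit 286735) (nat_lit 3) (.e (nat_lit 98373) (nat_lit 29) (.e (nat_lit 450563) (nat_lit 0) (.e (nat_lit 3996) (nat_lit 240) .nil))))) .nil)))) (.nd (nat_lit 4) (.nd (nat_lit 5) 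
(.lf (nat_lit 50954) (.g (nat_lit 553) (.e (nat_lit 1349) (nat_lit 102) (.e (nat_lit 286735) (nat_lit 3) (.e (nat_lit 98369) (nat_lit 28) .nil))) .nil)) 
(.lf (nat_lit 50986) (.g (nat_lit 3424) (.e (nat_lit 1349) (nat_lit 102) (.e (nat_lit 286735) (nat_lit 3) (.e (nat_lit 98372) (nat_lit 29) (.e (nat_lit 450579) (nat_lit 5) (.e (nat_lit 532484) (nat_lit 0) (.e (nat_lit 7936) (nat_lit 332) .nil)))))) (.g (nat_lit 4) .nil .nil)))) (.nd (nat_lit 5) 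
(.lf (nat_lit 50970) (.g (nat_lit 3483) (.e (nat_lit 1349) (nat_lit 102) (.e (nat_lit 286735) (nat_lit 3) (.e (nat_lit 98370) (nat_lit 28) (.e (nat_lit 442427) (nat_lit 23) (.e (nat_lit 204821) (nat_lit 17) (.e (nat_lit 6092) (nat_lit 332) .nil)))))) (.g (nat_lit 6) .nil .nil))) 
(.lf (nat_lit 51002) (.g (nat_lit 2426) (.e (nat_lit 1349) (nat_lit 102) (.e (nat_lit 286735) (nat_lit 3) (.e (nat_lit 98373) (nat_lit 29) (.e (nat_lit 450572) (nat_lit 1) .nil)))) .nil))))) (.nd (nat_lit 3) (.nd (nat_lit 4) (.nd (nat_lit 5) 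
(.lf (nat_lit 50950) (.g (nat_lit 4239) (.e (nat_lit 1349) (nat_lit 102) (.e (nat_lit 286735) (nat_lit 3) (.e (nat_lit 98365) (nat_lit 26) (.e (nat_lit 426298) (nat_lit 11) (.e (nat_lit 458789) (nat_lit 23) (.e (nat_lit 532482) (nat_lit 0) (.e (nat_lit 6192) (nat_lit 332) .nil))))))) (.g (nat_lit 0) .nil .nil))) 
(.lf (nat_lit 50982) (.g (nat_lit 1686) (.e (nat_lit 1349) (nat_lit 102) (.e (nat_lit 286735) (nat_lit 3) (.e (nat_lit 98372) (nat_lit 29) (.e (nat_lit 458496) (nat_lit 1) .nil)))) .nil))) (.nd (nat_lit 5) 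
(.lf (nat_lit 50966) (.g (nat_lit 3381) (.e (nat_lit 1349) (nat_lit 102) (.e (nat_lit 286735) (nat_lit 3) (.e (nat_lit 98370) (nat_lit 28) (.e (nat_lit 442424) (nat_lit 22) (.e (nat_lit 196661) (nat_lit 12) (.e (nat_lit 57711) (nat_lit 176) .nil)))))) (.g (nat_lit 5) .nil .nil))) 
(.lf (nat_lit 50998) (.g (nat_lit 2291) (.e (nat_lit 1349) (nat_lit 102) (.e (nat_lit 286735) (nat_lit 3) (.e (nat_lit 98373) (nat_lit 29) (.e (nat_lit 450563) (nat_lit 0) (.e (nat_lit 3996) (nat_lit 240) (.e (nat_lit 8289) (nat_lit 51) (.e (nat_lit 4965) (nat_lit 287) .nil))))))) (.g (nat_lit 4) .nil .nil))))) (.nd (nat_lit 4) (.nd (nat_lit 5) 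
(.lf (nat_lit 50958) (.g (nat_lit 3444) (.e (nat_lit 1349) (nat_lit 102) (.e (nat_lit 286735) (nat_lit 3) (.e (nat_lit 98369) (nat_lit 28) (.e (nat_lit 442424) (nat_lit 22) (.e (nat_lit 196661) (nat_lit 12) (.e (nat_lit 57714) (nat_lit 176) .nil)))))) (.g (nat_lit 6) .nil .nil))) 
(.lf (nat_lit 50990) (.g (nat_lit 2020) (.e (nat_lit 1349) (nat_lit 102) (.e (nat_lit 286735) (nat_lit 3) (.e (nat_lit 98373) (nat_lit 29) (.e (nat_lit 450562) (nat_lit 0) (.e (nat_lit 3996) (nat_lit 240) .nil))))) .nil))) (.nd (nat_lit 5) 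
(.lf (nat_lit 50974) (.g (nat_lit 2402) (.e (nat_lit 1349) (nat_lit 102) (.e (nat_lit 286735) (nat_lit 3) (.e (nat_lit 98371) (nat_lit 28) (.e (nat_lit 442422) (nat_lit 22) (.e (nat_lit 196661) (nat_lit 12) (.e (nat_lit 57714) (nat_lit 176) .nil)))))) (.g (nat_lit 5) .nil .nil))) 
(.lf (nat_lit 51006) (.g (nat_lit 2435) (.e (nat_lit 1349) (nat_lit 102) (.e (nat_lit 286735) (nat_lit 3) (.e (nat_lit 98373) (nat_lit 29) (.e (nat_lit 450575) (nat_lit 1) .nil)))) .nil))))))) (.nd (nat_lit 1) (.nd (nat_lit 2) (.nd (nat_lit 3) (.nd (nat_lit 4) (.nd (nat_lit 5) 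
(.lf (nat_lit 50945) (.g (nat_lit 3828) (.e (nat_lit 1349) (nat_lit 102) (.e (nat_lit 286735) (nat_lit 3) (.e (nat_lit 98365) (nat_lit 26) (.e (nat_lit 426297) (nat_lit 11) (.e (nat_lit 458789) (nat_lit 23) (.e (nat_lit 532481) (nat_lit 0) (.e (nat_lit 6192) (nat_lit 332) .nil))))))) (.g (nat_lit 6) .nil .nil))) 
(.lf (nat_lit 50977) (.g (nat_lit 2578) (.e (nat_lit 1349) (nat_lit 102) (.e (nat_lit 286735) (nat_lit 3) (.e (nat_lit 98371) (nat_lit 28) (.e (nat_lit 442427) (nat_lit 23) (.e (nat_lit 204821) (nat_lit 17) (.e (nat_lit 6092) (nat_lit 332) .nil)))))) (.g (nat_lit 6) .nil .nil)))) (.nd (nat_lit 5) 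
(.lf (nat_lit 50961) (.g (nat_lit 3488) (.e (nat_lit 1349) (nat_lit 102) (.e (nat_lit 286735) (nat_lit 3) (.e (nat_lit 98369) (nat_lit 28) (.e (nat_lit 442427) (nat_lit 23) (.e (nat_lit 204821) (nat_lit 17) (.e (nat_lit 6136) (nat_lit 332) .nil)))))) (.g (nat_lit 6) .nil .nil))) 
(.lf (nat_lit 50993) (.g (nat_lit 2671) (.e (nat_lit 1349) (nat_lit 102) (.e (nat_lit 286735) (nat_lit 3) (.e (nat_lit 98373) (nat_lit 29) (.e (nat_lit 450562) (nat_lit 0) (.e (nat_lit 4284) (nat_lit 253) .nil))))) .nil)))) (.nd (nat_lit 4) (.nd (nat_lit 5) 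
(.lf (nat_lit 50953) (.g (nat_lit 1564) (.e (nat_lit 1349) (nat_lit 102) (.e (nat_lit 286735) (nat_lit 3) (.e (nat_lit 98367) (nat_lit 27) (.e (nat_lit 442112) (nat_lit 8) .nil)))) .nil)) 
(.lf (nat_lit 50985) (.g (nat_lit 3795) (.e (nat_lit 1349) (nat_lit 102) (.e (nat_lit 286735) (nat_lit 3) (.e (nat_lit 98372) (nat_lit 29) (.e (nat_lit 450579) (nat_lit 5) (.e (nat_lit 532482) (nat_lit 0) (.e (nat_lit 6192) (nat_lit 332) .nil)))))) (.g (nat_lit 4) .nil .nil)))) (.nd (nat_lit 5) 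
(.lf (nat_lit 50969) (.g (nat_lit 3751) (.e (nat_lit 1349) (nat_lit 102) (.e (nat_lit 286735) (nat_lit 3) (.e (nat_lit 98370) (nat_lit 28) (.e (nat_lit 442424) (nat_lit 22) (.e (nat_lit 196661) (nat_lit 12) (.e (nat_lit 65280) (nat_lit 176) .nil)))))) (.g (nat_lit 5) .nil .nil))) 
(.lf (nat_lit 51001) (.g (nat_lit 2403) (.e (nat_lit 1349) (nat_lit 102) (.e (nat_lit 286735) (nat_lit 3) (.e (nat_lit 98373) (nat_lit 29) (.e (nat_lit 450571) (nat_lit 1) .nil)))) .nil))))) (.nd (nat_lit 3) (.nd (nat_lit 4) (.nd (nat_lit 5) 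
(.lf (nat_lit 50949) (.g (nat_lit 2533) (.e (nat_lit 1349) (nat_lit 102) (.e (nat_lit 286735) (nat_lit 3) (.e (nat_lit 98365) (nat_lit 26) (.e (nat_lit 426298) (nat_lit 11) (.e (nat_lit 458789) (nat_lit 23) (.e (nat_lit 532481) (nat_lit 0) (.e (nat_lit 7936) (nat_lit 332) .nil))))))) (.g (nat_lit 4) .nil .nil))) 
(.lf (nat_lit 50981) (.g (nat_lit 2169) (.e (nat_lit 1349) (nat_lit 102) (.e (nat_lit 286735) (nat_lit 3) (.e (nat_lit 98372) (nat_lit 29) (.e (nat_lit 450571) (nat_lit 1) .nil)))) .nil))) (.nd (nat_lit 5) 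
(.lf (nat_lit 50965) (.g (nat_lit 1424) (.e (nat_lit 1349) (nat_lit 102) (.e (nat_lit 286735) (nat_lit 3) (.e (nat_lit 98370) (nat_lit 28) (.e (nat_lit 442423) (nat_lit 22) .nil)))) .nil)) 
(.lf (nat_lit 50997) (.g (nat_lit 1947) (.e (nat_lit 1349) (nat_lit 102) (.e (nat_lit 286735) (nat_lit 3) (.e (nat_lit 98373) (nat_lit 29) (.e (nat_lit 450563) (nat_lit 0) (.e (nat_lit 3996) (nat_lit 240) (.e (nat_lit 8288) (nat_lit 51) (.e (nat_lit 4965) (nat_lit 287) .nil))))))) (.g (nat_lit 4) .nil .nil))))) (.nd (nat_lit 4) (.nd (nat_lit 5) 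
(.lf (nat_lit 50957) (.g (nat_lit 2768) (.e (nat_lit 1349) (nat_lit 102) (.e (nat_lit 286735) (nat_lit 3) (.e (nat_lit 98369) (nat_lit 28) (.e (nat_lit 442424) (nat_lit 22) (.e (nat_lit 196661) (nat_lit 12) (.e (nat_lit 57711) (nat_lit 176) .nil)))))) (.g (nat_lit 4) .nil .nil))) 
(.lf (nat_lit 50989) (.g (nat_lit 2748) (.e (nat_lit 1349) (nat_lit 102) (.e (nat_lit 286735) (nat_lit 3) (.e (nat_lit 98372) (nat_lit 29) (.e (nat_lit 450579) (nat_lit 5) (.e (nat_lit 532501) (nat_lit 1) .nil))))) .nil))) (.nd (nat_lit 5) 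
(.lf (nat_lit 50973) (.g (nat_lit 3268) (.e (nat_lit 1349) (nat_lit 102) (.e (nat_lit 286735) (nat_lit 3) (.e (nat_lit 98370) (nat_lit 28) (.e (nat_lit 442427) (nat_lit 23) (.e (nat_lit 204821) (nat_lit 17) (.e (nat_lit 7936) (nat_lit 332) .nil)))))) (.g (nat_lit 5) .nil .nil))) 
(.lf (nat_lit 51005) (.g (nat_lit 2349) (.e (nat_lit 1349) (nat_lit 102) (.e (nat_lit 286735) (nat_lit 3) (.e (nat_lit 98373) (nat_lit 29) (.e (nat_lit 450574) (nat_lit 1) .nil)))) .nil)))))) (.nd (nat_lit 2) (.nd (nat_lit 3) (.nd (nat_lit 4) (.nd (nat_lit 5) 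
(.lf (nat_lit 50947) (.g (nat_lit 1730) (.e (nat_lit 1349) (nat_lit 102) (.e (nat_lit 286735) (nat_lit 3) (.e (nat_lit 98365) (nat_lit 26) (.e (nat_lit 426298) (nat_lit 11) (.e (nat_lit 458789) (nat_lit 23) .nil))))) .nil)) 
(.lf (nat_lit 50979) (.g (nat_lit 2317) (.e (nat_lit 1349) (nat_lit 102) (.e (nat_lit 286735) (nat_lit 3) (.e (nat_lit 98371) (nat_lit 28) (.e (nat_lit 442427) (nat_lit 23) (.e (nat_lit 204821) (nat_lit 17) (.e (nat_lit 7936) (nat_lit 332) .nil)))))) (.g (nat_lit 5) .nil .nil)))) (.nd (nat_lit 5) 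
(.lf (nat_lit 50963) (.g (nat_lit 2956) (.e (nat_lit 1349) (nat_lit 102) (.e (nat_lit 286735) (nat_lit 3) (.e (nat_lit 98369) (nat_lit 28) (.e (nat_lit 442427) (nat_lit 23) (.e (nat_lit 204821) (nat_lit 17) (.e (nat_lit 7936) (nat_lit 332) .nil)))))) (.g (nat_lit 4) .nil .nil))) 
(.lf (nat_lit 50995) (.g (nat_lit 1905) (.e (nat_lit 1349) (nat_lit 102) (.e (nat_lit 286735) (nat_lit 3) (.e (nat_lit 98373) (nat_lit 29) (.e (nat_lit 450563) (nat_lit 0) (.e (nat_lit 3996) (nat_lit 240) (.e (nat_lit 8286) (nat_lit 51) (.e (nat_lit 4965) (nat_lit 287) .nil))))))) (.g (nat_lit 4) .nil .nil))))) (.nd (nat_lit 4) (.nd (nat_lit 5) 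
(.lf (nat_lit 50955) (.g (nat_lit 2403) (.e (nat_lit 1349) (nat_lit 102) (.e (nat_lit 286735) (nat_lit 3) (.e (nat_lit 98369) (nat_lit 28) (.e (nat_lit 442422) (nat_lit 22) (.e (nat_lit 196661) (nat_lit 12) (.e (nat_lit 65280) (nat_lit 176) .nil)))))) (.g (nat_lit 4) .nil .nil))) 
(.lf (nat_lit 50987) (.g (nat_lit 3412) (.e (nat_lit 1349) (nat_lit 102) (.e (nat_lit 286735) (nat_lit 3) (.e (nat_lit 98372) (nat_lit 29) (.e (nat_lit 450579) (nat_lit 5) (.e (nat_lit 532488) (nat_lit 0) (.e (nat_lit 7936) (nat_lit 332) .nil)))))) (.g (nat_lit 5) .nil .nil)))) (.nd (nat_lit 5) 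
(.lf (nat_lit 50971) (.g (nat_lit 3782) (.e (nat_lit 1349) (nat_lit 102) (.e (nat_lit 286735) (nat_lit 3) (.e (nat_lit 98370) (nat_lit 28) (.e (nat_lit 442427) (nat_lit 23) (.e (nat_lit 204821) (nat_lit 17) (.e (nat_lit 6136) (nat_lit 332) .nil)))))) (.g (nat_lit 0) .nil .nil))) 
(.lf (nat_lit 51003) (.g (nat_lit 2377) (.e (nat_lit 1349) (nat_lit 102) (.e (nat_lit 286735) (nat_lit 3) (.e (nat_lit 98373) (nat_lit 29) (.e (nat_lit 450573) (nat_lit 1) .nil)))) .nil))))) (.nd (nat_lit 3) (.nd (nat_lit 4) (.nd (nat_lit 5) 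
(.lf (nat_lit 50951) (.g (nat_lit 1741) (.e (nat_lit 1349) (nat_lit 102) (.e (nat_lit 286735) (nat_lit 3) (.e (nat_lit 98367) (nat_lit 27) (.e (nat_lit 434177) (nat_lit 0) .nil)))) .nil)) 
(.lf (nat_lit 50983) (.g (nat_lit 2631) (.e (nat_lit 1349) (nat_lit 102) (.e (nat_lit 286735) (nat_lit 3) (.e (nat_lit 98372) (nat_lit 29) (.e (nat_lit 450579) (nat_lit 5) (.e (nat_lit 532480) (nat_lit 0) .nil))))) .nil))) (.nd (nat_lit 5) 
(.lf (nat_lit 50967) (.g (nat_lit 3977) (.e (nat_lit 1349) (nat_lit 102) (.e (nat_lit 286735) (nat_lit 3) (.e (nat_lit 98370) (nat_lit 28) (.e (nat_lit 442424) (nat_lit 22) (.e (nat_lit 196661) (nat_lit 12) (.e (nat_lit 57714) (nat_lit 176) .nil)))))) (.g (nat_lit 6) .nil .nil))) 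
(.lf (nat_lit 50999) (.g (nat_lit 2070) (.e (nat_lit 1349) (nat_lit 102) (.e (nat_lit 286735) (nat_lit 3) (.e (nat_lit 98373) (nat_lit 29) (.e (nat_lit 450570) (nat_lit 1) .nil)))) .nil)))) (.nd (nat_lit 4) (.nd (nat_lit 5) 
(.lf (nat_lit 50959) (.g (nat_lit 3264) (.e (nat_lit 1349) (nat_lit 102) (.e (nat_lit 286735) (nat_lit 3) (.e (nat_lit 98369) (nat_lit 28) (.e (nat_lit 442424) (nat_lit 22) (.e (nat_lit 196661) (nat_lit 12) (.e (nat_lit 65280) (nat_lit 176) .nil)))))) (.g (nat_lit 5) .nil .nil))) 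
(.lf (nat_lit 50991) (.g (nat_lit 2445) (.e (nat_lit 1349) (nat_lit 102) (.e (nat_lit 286735) (nat_lit 3) (.e (nat_lit 98373) (nat_lit 29) (.e (nat_lit 450562) (nat_lit 0) (.e (nat_lit 3996) (nat_lit 240) (.e (nat_lit 8287) (nat_lit 51) (.e (nat_lit 4965) (nat_lit 287) .nil))))))) (.g (nat_lit 4) .nil .nil)))) (.nd (nat_lit 5) 
(.lf (nat_lit 50975) (.g (nat_lit 2478) (.e (nat_lit 1349) (nat_lit 102) (.e (nat_lit 286735) (nat_lit 3) (.e (nat_lit 98371) (nat_lit 28) (.e (nat_lit 442424) (nat_lit 22) (.e (nat_lit 196661) (nat_lit 12) (.e (nat_lit 57711) (nat_lit 176) .nil)))))) (.g (nat_lit 5) .nil .nil))) 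
(.lf (nat_lit 51007) (.g (nat_lit 2045) (.e (nat_lit 1349) (nat_lit 102) (.e (nat_lit 286735) (nat_lit 3) (.e (nat_lit 98373) (nat_lit 29) (.e (nat_lit 458496) (nat_lit 1) .nil)))) .nil))))))))

noncomputable def tv709 : DT := (.nd (nat_lit 0) (.nd (nat_lit 1) (.nd (nat_lit 2) (.nd (nat_lit 3) (.nd (nat_lit 4) (.nd (nat_lit 5) 
(.lf (nat_lit 51008) (.g (nat_lit 3164) (.e (nat_lit 1349) (nat_lit 102) (.e (nat_lit 286735) (nat_lit 3) (.e (nat_lit 98373) (nat_lit 29) (.e (nat_lit 458496) (nat_lit 1) (.e (nat_lit 500056) (nat_lit 17) (.e (nat_lit 65280) (nat_lit 176) .nil)))))) (.g (nat_lit 5) .nil .nil))) 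
(.lf (nat_lit 51040) (.g (nat_lit 3159) (.e (nat_lit 1349) (nat_lit 102) (.e (nat_lit 286735) (nat_lit 3) (.e (nat_lit 98373) (nat_lit 29) (.e (nat_lit 450588) (nat_lit 10) (.e (nat_lit 573449) (nat_lit 9) (.e (nat_lit 1) (nat_lit 0) (.e (nat_lit 7064) (nat_lit 377) .nil))))))) (.g (nat_lit 5) .nil .nil)))) (.nd (nat_lit 5) 
(.lf (nat_lit 51024) (.g (nat_lit 3784) (.e (nat_lit 1349) (nat_lit 102) (.e (nat_lit 286735) (nat_lit 3) (.e (nat_lit 98373) (nat_lit 29) (.e (nat_lit 450581) (nat_lit 5) (.e (nat_lit 532482) (nat_lit 0) .nil))))) .nil)) 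
(.lf (nat_lit 51056) (.g (nat_lit 501) (.e (nat_lit 1349) (nat_lit 102) (.e (nat_lit 286735) (nat_lit 3) (.e (nat_lit 98381) (nat_lit 31) .nil))) .nil)))) (.nd (nat_lit 4) (.nd (nat_lit 5) 
(.lf (nat_lit 51016) (.g (nat_lit 4395) (.e (nat_lit 1349) (nat_lit 102) (.e (nat_lit 286735) (nat_lit 3) (.e (nat_lit 98373) (nat_lit 29) (.e (nat_lit 450579) (nat_lit 5) (.e (nat_lit 532482) (nat_lit 0) (.e (nat_lit 6192) (nat_lit 332) .nil)))))) (.g (nat_lit 4) .nil .nil))) 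
(.lf (nat_lit 51048) (.g (nat_lit 2656) (.e (nat_lit 1349) (nat_lit 102) (.e (nat_lit 286735) (nat_lit 3) (.e (nat_lit 98373) (nat_lit 29) (.e (nat_lit 450588) (nat_lit 10) (.e (nat_lit 573473) (nat_lit 12) (.e (nat_lit 57567) (nat_lit 52) (.e (nat_lit 753666) (nat_lit 0) .nil))))))) (.g (nat_lit 5) .nil .nil)))) (.nd (nat_lit 5) 
(.lf (nat_lit 51032) (.g (nat_lit 2520) (.e (nat_lit 1349) (nat_lit 102) (.e (nat_lit 286735) (nat_lit 3) (.e (nat_lit 98373) (nat_lit 29) (.e (nat_lit 450587) (nat_lit 10) (.e (nat_lit 573456) (nat_lit 9) (.e (nat_lit 52) (nat_lit 0) (.e (nat_lit 7936) (nat_lit 377) .nil))))))) (.g (nat_lit 6) .nil .nil))) 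
(.lf (nat_lit 51064) (.g (nat_lit 2729) (.e (nat_lit 1349) (nat_lit 102) (.e (nat_lit 286735) (nat_lit 3) (.e (nat_lit 98382) (nat_lit 31) (.e (nat_lit 466974) (nat_lit 22) (.e (nat_lit 196661) (nat_lit 12) (.e (nat_lit 65280) (nat_lit 176) .nil)))))) (.g (nat_lit 5) .nil .nil)))))) (.nd (nat_lit 3) (.nd (nat_lit 4) (.nd (nat_lit 5) 
(.lf (nat_lit 51012) (.g (nat_lit 2724) (.e (nat_lit 1349) (nat_lit 102) (.e (nat_lit 286735) (nat_lit 3) (.e (nat_lit 98373) (nat_lit 29) (.e (nat_lit 450578) (nat_lit 5) (.e (nat_lit 532490) (nat_lit 0) .nil))))) .nil)) 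
(.lf (nat_lit 51044) (.g (nat_lit 3732) (.e (nat_lit 1349) (nat_lit 102) (.e (nat_lit 286735) (nat_lit 3) (.e (nat_lit 98373) (nat_lit 29) (.e (nat_lit 450588) (nat_lit 10) (.e (nat_lit 573466) (nat_lit 10) (.e (nat_lit 16128) (nat_lit 180) .nil)))))) (.g (nat_lit 4) .nil .nil)))) (.nd (nat_lit 5) 
(.lf (nat_lit 51028) (.g (nat_lit 2704) (.e (nat_lit 1349) (nat_lit 102) (.e (nat_lit 286735) (nat_lit 3) (.e (nat_lit 98373) (nat_lit 29) (.e (nat_lit 450587) (nat_lit 10) (.e (nat_lit 573448) (nat_lit 9) (.e (nat_lit 0) (nat_lit 0) (.e (nat_lit 7064) (nat_lit 377) .nil))))))) (.g (nat_lit 4) .nil .nil))) 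
(.lf (nat_lit 51060) (.g (nat_lit 2769) (.e (nat_lit 1349) (nat_lit 102) (.e (nat_lit 286735) (nat_lit 3) (.e (nat_lit 98381) (nat_lit 31) (.e (nat_lit 466977) (nat_lit 22) (.e (nat_lit 196661) (nat_lit 12) (.e (nat_lit 57714) (nat_lit 176) .nil)))))) (.g (nat_lit 4) .nil .nil))))) (.nd (nat_lit 4) (.nd (nat_lit 5) 
(.lf (nat_lit 51020) (.g (nat_lit 1760) (.e (nat_lit 1349) (nat_lit 102) (.e (nat_lit 286735) (nat_lit 3) (.e (nat_lit 98373) (nat_lit 29) (.e (nat_lit 450580) (nat_lit 5) .nil)))) .nil)) 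
(.lf (nat_lit 51052) (.g (nat_lit 1534) (.e (nat_lit 1349) (nat_lit 102) (.e (nat_lit 286735) (nat_lit 3) (.e (nat_lit 98374) (nat_lit 29) (.e (nat_lit 458496) (nat_lit 1) .nil)))) .nil))) (.nd (nat_lit 5) 
(.lf (nat_lit 51036) (.g (nat_lit 3318) (.e (nat_lit 1349) (nat_lit 102) (.e (nat_lit 286735) (nat_lit 3) (.e (nat_lit 98373) (nat_lit 29) (.e (nat_lit 450587) (nat_lit 10) (.e (nat_lit 573467) (nat_lit 10) (.e (nat_lit 16128) (nat_lit 180) .nil)))))) (.g (nat_lit 4) .nil .nil))) 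
(.lf (nat_lit 51068) (.g (nat_lit 2315) (.e (nat_lit 1349) (nat_lit 102) (.e (nat_lit 286735) (nat_lit 3) (.e (nat_lit 98382) (nat_lit 31) (.e (nat_lit 466977) (nat_lit 22) (.e (nat_lit 196677) (nat_lit 16) (.e (nat_lit 130816) (nat_lit 176) .nil)))))) (.g (nat_lit 4) .nil .nil))))))) (.nd (nat_lit 2) (.nd (nat_lit 3) (.nd (nat_lit 4) (.nd (nat_lit 5) 
(.lf (nat_lit 51010) (.g (nat_lit 2949) (.e (nat_lit 1349) (nat_lit 102) (.e (nat_lit 286735) (nat_lit 3) (.e (nat_lit 98373) (nat_lit 29) (.e (nat_lit 450578) (nat_lit 5) (.e (nat_lit 532481) (nat_lit 0) (.e (nat_lit 6192) (nat_lit 332) .nil)))))) (.g (nat_lit 4) .nil .nil))) 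
(.lf (nat_lit 51042) (.g (nat_lit 2276) (.e (nat_lit 1349) (nat_lit 102) (.e (nat_lit 286735) (nat_lit 3) (.e (nat_lit 98373) (nat_lit 29) (.e (nat_lit 450588) (nat_lit 10) (.e (nat_lit 573452) (nat_lit 9) (.e (nat_lit 11) (nat_lit 0) (.e (nat_lit 6965) (nat_lit 377) .nil))))))) (.g (nat_lit 5) .nil .nil)))) (.nd (nat_lit 5) 
(.lf (nat_lit 51026) (.g (nat_lit 1951) (.e (nat_lit 1349) (nat_lit 102) (.e (nat_lit 286735) (nat_lit 3) (.e (nat_lit 98373) (nat_lit 29) (.e (nat_lit 450583) (nat_lit 7) .nil)))) .nil)) 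
(.lf (nat_lit 51058) (.g (nat_lit 2824) (.e (nat_lit 1349) (nat_lit 102) (.e (nat_lit 286735) (nat_lit 3) (.e (nat_lit 98381) (nat_lit 31) (.e (nat_lit 466976) (nat_lit 22) (.e (nat_lit 196661) (nat_lit 12) (.e (nat_lit 57714) (nat_lit 176) .nil)))))) (.g (nat_lit 5) .nil .nil))))) (.nd (nat_lit 4) (.nd (nat_lit 5) 
(.lf (nat_lit 51018) (.g (nat_lit 4003) (.e (nat_lit 1349) (nat_lit 102) (.e (nat_lit 286735) (nat_lit 3) (.e (nat_lit 98373) (nat_lit 29) (.e (nat_lit 450579) (nat_lit 5) (.e (nat_lit 532489) (nat_lit 0) .nil))))) .nil)) 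
(.lf (nat_lit 51050) (.g (nat_lit 2192) (.e (nat_lit 1349) (nat_lit 102) (.e (nat_lit 286735) (nat_lit 3) (.e (nat_lit 98373) (nat_lit 29) (.e (nat_lit 450588) (nat_lit 10) (.e (nat_lit 573475) (nat_lit 12) (.e (nat_lit 57567) (nat_lit 52) (.e (nat_lit 753666) (nat_lit 0) .nil))))))) (.g (nat_lit 5) .nil .nil)))) (.nd (nat_lit 5) 
(.lf (nat_lit 51034) (.g (nat_lit 1994) (.e (nat_lit 1349) (nat_lit 102) (.e (nat_lit 286735) (nat_lit 3) (.e (nat_lit 98373) (nat_lit 29) (.e (nat_lit 450587) (nat_lit 10) (.e (nat_lit 573457) (nat_lit 9) (.e (nat_lit 52) (nat_lit 0) (.e (nat_lit 7936) (nat_lit 377) .nil))))))) (.g (nat_lit 6) .nil .nil))) 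
(.lf (nat_lit 51066) (.g (nat_lit 2345) (.e (nat_lit 1349) (nat_lit 102) (.e (nat_lit 286735) (nat_lit 3) (.e (nat_lit 98382) (nat_lit 31) (.e (nat_lit 466976) (nat_lit 22) (.e (nat_lit 196661) (nat_lit 12) (.e (nat_lit 65280) (nat_lit 176) .nil)))))) (.g (nat_lit 5) .nil .nil)))))) (.nd (nat_lit 3) (.nd (nat_lit 4) (.nd (nat_lit 5) 
(.lf (nat_lit 51014) (.g (nat_lit 4245) (.e (nat_lit 1349) (nat_lit 102) (.e (nat_lit 286735) (nat_lit 3) (.e (nat_lit 98373) (nat_lit 29) (.e (nat_lit 450579) (nat_lit 5) (.e (nat_lit 532480) (nat_lit 0) .nil))))) .nil)) 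
(.lf (nat_lit 51046) (.g (nat_lit 3499) (.e (nat_lit 1349) (nat_lit 102) (.e (nat_lit 286735) (nat_lit 3) (.e (nat_lit 98373) (nat_lit 29) (.e (nat_lit 450588) (nat_lit 10) (.e (nat_lit 573468) (nat_lit 10) (.e (nat_lit 16128) (nat_lit 180) .nil)))))) (.g (nat_lit 4) .nil .nil)))) (.nd (nat_lit 5) 
(.lf (nat_lit 51030) (.g (nat_lit 3364) (.e (nat_lit 1349) (nat_lit 102) (.e (nat_lit 286735) (nat_lit 3) (.e (nat_lit 98373) (nat_lit 29) (.e (nat_lit 450587) (nat_lit 10) (.e (nat_lit 573454) (nat_lit 9) (.e (nat_lit 0) (nat_lit 0) (.e (nat_lit 7064) (nat_lit 377) .nil))))))) (.g (nat_lit 4) .nil .nil))) 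
(.lf (nat_lit 51062) (.g (nat_lit 2092) (.e (nat_lit 1349) (nat_lit 102) (.e (nat_lit 286735) (nat_lit 3) (.e (nat_lit 98382) (nat_lit 31) (.e (nat_lit 466974) (nat_lit 22) (.e (nat_lit 196661) (nat_lit 12) (.e (nat_lit 57711) (nat_lit 176) .nil)))))) (.g (nat_lit 4) .nil .nil))))) (.nd (nat_lit 4) (.nd (nat_lit 5) 
(.lf (nat_lit 51022) (.g (nat_lit 4091) (.e (nat_lit 1349) (nat_lit 102) (.e (nat_lit 286735) (nat_lit 3) (.e (nat_lit 98373) (nat_lit 29) (.e (nat_lit 450580) (nat_lit 5) (.e (nat_lit 532482) (nat_lit 0) .nil))))) .nil)) 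
(.lf (nat_lit 51054) (.g (nat_lit 1328) (.e (nat_lit 1349) (nat_lit 102) (.e (nat_lit 286735) (nat_lit 3) (.e (nat_lit 98374) (nat_lit 29) (.e (nat_lit 450580) (nat_lit 5) .nil)))) .nil))) (.nd (nat_lit 5) 
(.lf (nat_lit 51038) (.g (nat_lit 1562) (.e (nat_lit 1349) (nat_lit 102) (.e (nat_lit 286735) (nat_lit 3) (.e (nat_lit 98373) (nat_lit 29) (.e (nat_lit 450587) (nat_lit 10) (.e (nat_lit 573478) (nat_lit 12) (.e (nat_lit 57565) (nat_lit 52) (.e (nat_lit 753666) (nat_lit 0) .nil))))))) (.g (nat_lit 4) .nil .nil))) 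
(.lf (nat_lit 51070) (.g (nat_lit 3635) (.e (nat_lit 1349) (nat_lit 102) (.e (nat_lit 286742) (nat_lit 9) (.e (nat_lit 336013) (nat_lit 2) (.e (nat_lit 90170) (nat_lit 13) (.e (nat_lit 172059) (nat_lit 1) (.e (nat_lit 164326) (nat_lit 230) (.e (nat_lit 163868) (nat_lit 2) (.e (nat_lit 196691) (nat_lit 18) .nil)))))))) (.g (nat_lit 4) .nil .nil)))))))) 
(.nd (nat_lit 1) (.nd (nat_lit 2) (.nd (nat_lit 3) (.nd (nat_lit 4) (.nd (nat_lit 5) 
(.lf (nat_lit 51009) (.g (nat_lit 1682) (.e (nat_lit 1349) (nat_lit 102) (.e (nat_lit 286735) (nat_lit 3) (.e (nat_lit 98373) (nat_lit 29) (.e (nat_lit 450578) (nat_lit 5) .nil)))) .nil)) 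
(.lf (nat_lit 51041) (.g (nat_lit 2304) (.e (nat_lit 1349) (nat_lit 102) (.e (nat_lit 286735) (nat_lit 3) (.e (nat_lit 98373) (nat_lit 29) (.e (nat_lit 450588) (nat_lit 10) (.e (nat_lit 573449) (nat_lit 9) (.e (nat_lit 14) (nat_lit 0) (.e (nat_lit 7064) (nat_lit 377) .nil))))))) (.g (nat_lit 4) .nil .nil)))) (.nd (nat_lit 5) 
(.lf (nat_lit 51025) (.g (nat_lit 2045) (.e (nat_lit 1349) (nat_lit 102) (.e (nat_lit 286735) (nat_lit 3) (.e (nat_lit 98373) (nat_lit 29) (.e (nat_lit 458496) (nat_lit 5) .nil)))) .nil)) 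
(.lf (nat_lit 51057) (.g (nat_lit 1360) (.e (nat_lit 1349) (nat_lit 102) (.e (nat_lit 286735) (nat_lit 3) (.e (nat_lit 98381) (nat_lit 31) (.e (nat_lit 466976) (nat_lit 22) .nil)))) .nil)))) (.nd (nat_lit 4) (.nd (nat_lit 5) 
(.lf (nat_lit 51017) (.g (nat_lit 4049) (.e (nat_lit 1349) (nat_lit 102) (.e (nat_lit 286735) (nat_lit 3) (.e (nat_lit 98373) (nat_lit 29) (.e (nat_lit 450579) (nat_lit 5) (.e (nat_lit 532488) (nat_lit 0) .nil))))) .nil)) 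
(.lf (nat_lit 51049) (.g (nat_lit 2332) (.e (nat_lit 1349) (nat_lit 102) (.e (nat_lit 286735) (nat_lit 3) (.e (nat_lit 98373) (nat_lit 29) (.e (nat_lit 450588) (nat_lit 10) (.e (nat_lit 573475) (nat_lit 12) (.e (nat_lit 57566) (nat_lit 52) (.e (nat_lit 753666) (nat_lit 0) .nil))))))) (.g (nat_lit 5) .nil .nil)))) (.nd (nat_lit 5) 
(.lf (nat_lit 51033) (.g (nat_lit 2322) (.e (nat_lit 1349) (nat_lit 102) (.e (nat_lit 286735) (nat_lit 3) (.e (nat_lit 98373) (nat_lit 29) (.e (nat_lit 450587) (nat_lit 10) (.e (nat_lit 573457) (nat_lit 9) (.e (nat_lit 11) (nat_lit 0) (.e (nat_lit 7058) (nat_lit 377) .nil))))))) (.g (nat_lit 6) .nil .nil))) 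
(.lf (nat_lit 51065) (.g (nat_lit 2242) (.e (nat_lit 1349) (nat_lit 102) (.e (nat_lit 286735) (nat_lit 3) (.e (nat_lit 98382) (nat_lit 31) (.e (nat_lit 466976) (nat_lit 22) (.e (nat_lit 196661) (nat_lit 12) (.e (nat_lit 57714) (nat_lit 176) .nil)))))) (.g (nat_lit 5) .nil .nil)))))) (.nd (nat_lit 3) (.nd (nat_lit 4) (.nd (nat_lit 5) 
(.lf (nat_lit 51013) (.g (nat_lit 1883) (.e (nat_lit 1349) (nat_lit 102) (.e (nat_lit 286735) (nat_lit 3) (.e (nat_lit 98373) (nat_lit 29) (.e (nat_lit 450579) (nat_lit 5) .nil)))) .nil)) 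
(.lf (nat_lit 51045) (.g (nat_lit 3211) (.e (nat_lit 1349) (nat_lit 102) (.e (nat_lit 286735) (nat_lit 3) (.e (nat_lit 98373) (nat_lit 29) (.e (nat_lit 450588) (nat_lit 10) (.e (nat_lit 573467) (nat_lit 10) (.e (nat_lit 16128) (nat_lit 180) .nil)))))) (.g (nat_lit 5) .nil .nil)))) (.nd (nat_lit 5) 
(.lf (nat_lit 51029) (.g (nat_lit 2679) (.e (nat_lit 1349) (nat_lit 102) (.e (nat_lit 286735) (nat_lit 3) (.e (nat_lit 98373) (nat_lit 29) (.e (nat_lit 450587) (nat_lit 10) (.e (nat_lit 573448) (nat_lit 9) (.e (nat_lit 5) (nat_lit 0) (.e (nat_lit 7064) (nat_lit 377) .nil))))))) (.g (nat_lit 4) .nil .nil))) 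
(.lf (nat_lit 51061) (.g (nat_lit 3166) (.e (nat_lit 1349) (nat_lit 102) (.e (nat_lit 286735) (nat_lit 3) (.e (nat_lit 98381) (nat_lit 31) (.e (nat_lit 466977) (nat_lit 22) (.e (nat_lit 196677) (nat_lit 16) (.e (nat_lit 130816) (nat_lit 176) .nil)))))) (.g (nat_lit 5) .nil .nil))))) (.nd (nat_lit 4) (.nd (nat_lit 5) 
(.lf (nat_lit 51021) (.g (nat_lit 4269) (.e (nat_lit 1349) (nat_lit 102) (.e (nat_lit 286735) (nat_lit 3) (.e (nat_lit 98373) (nat_lit 29) (.e (nat_lit 450580) (nat_lit 5) (.e (nat_lit 532481) (nat_lit 0) .nil))))) .nil)) 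
(.lf (nat_lit 51053) (.g (nat_lit 2679) (.e (nat_lit 1349) (nat_lit 102) (.e (nat_lit 286735) (nat_lit 3) (.e (nat_lit 98374) (nat_lit 29) (.e (nat_lit 458496) (nat_lit 1) (.e (nat_lit 500056) (nat_lit 17) (.e (nat_lit 65280) (nat_lit 176) .nil)))))) (.g (nat_lit 5) .nil .nil)))) (.nd (nat_lit 5) 
(.lf (nat_lit 51037) (.g (nat_lit 2011) (.e (nat_lit 1349) (nat_lit 102) (.e (nat_lit 286735) (nat_lit 3) (.e (nat_lit 98373) (nat_lit 29) (.e (nat_lit 450587) (nat_lit 10) (.e (nat_lit 573477) (nat_lit 12) (.e (nat_lit 57565) (nat_lit 52) (.e (nat_lit 753666) (nat_lit 0) .nil))))))) (.g (nat_lit 5) .nil .nil))) 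
(.lf (nat_lit 51069) (.g (nat_lit 3113) (.e (nat_lit 1349) (nat_lit 102) (.e (nat_lit 286740) (nat_lit 7) (.e (nat_lit 319505) (nat_lit 10) (.e (nat_lit 618) (nat_lit 48) (.e (nat_lit 557109) (nat_lit 15) (.e (nat_lit 188461) (nat_lit 26) (.e (nat_lit 254007) (nat_lit 14) .nil))))))) (.g (nat_lit 5) .nil .nil))))))) (.nd (nat_lit 2) (.nd (nat_lit 3) (.nd (nat_lit 4) (.nd (nat_lit 5) 
(.lf (nat_lit 51011) (.g (nat_lit 2927) (.e (nat_lit 1349) (nat_lit 102) (.e (nat_lit 286735) (nat_lit 3) (.e (nat_lit 98373) (nat_lit 29) (.e (nat_lit 450578) (nat_lit 5) (.e (nat_lit 532482) (nat_lit 0) (.e (nat_lit 6192) (nat_lit 332) .nil)))))) (.g (nat_lit 4) .nil .nil))) 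
(.lf (nat_lit 51043) (.g (nat_lit 2304) (.e (nat_lit 1349) (nat_lit 102) (.e (nat_lit 286735) (nat_lit 3) (.e (nat_lit 98373) (nat_lit 29) (.e (nat_lit 450588) (nat_lit 10) (.e (nat_lit 573452) (nat_lit 9) (.e (nat_lit 52) (nat_lit 0) (.e (nat_lit 7936) (nat_lit 377) .nil))))))) (.g (nat_lit 6) .nil .nil)))) (.nd (nat_lit 5) 
(.lf (nat_lit 51027) (.g (nat_lit 2586) (.e (nat_lit 1349) (nat_lit 102) (.e (nat_lit 286735) (nat_lit 3) (.e (nat_lit 98373) (nat_lit 29) (.e (nat_lit 450586) (nat_lit 10) .nil)))) .nil)) 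
(.lf (nat_lit 51059) (.g (nat_lit 2890) (.e (nat_lit 1349) (nat_lit 102) (.e (nat_lit 286735) (nat_lit 3) (.e (nat_lit 98381) (nat_lit 31) (.e (nat_lit 466976) (nat_lit 22) (.e (nat_lit 196661) (nat_lit 12) (.e (nat_lit 65280) (nat_lit 176) .nil)))))) (.g (nat_lit 5) .nil .nil))))) (.nd (nat_lit 4) (.nd (nat_lit 5) 
(.lf (nat_lit 51019) (.g (nat_lit 4167) (.e (nat_lit 1349) (nat_lit 102) (.e (nat_lit 286735) (nat_lit 3) (.e (nat_lit 98373) (nat_lit 29) (.e (nat_lit 450579) (nat_lit 5) (.e (nat_lit 532501) (nat_lit 1) .nil))))) .nil)) 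
(.lf (nat_lit 51051) (.g (nat_lit 550) (.e (nat_lit 1349) (nat_lit 102) (.e (nat_lit 286735) (nat_lit 3) (.e (nat_lit 98374) (nat_lit 29) .nil))) .nil))) (.nd (nat_lit 5) 
(.lf (nat_lit 51035) (.g (nat_lit 3120) (.e (nat_lit 1349) (nat_lit 102) (.e (nat_lit 286735) (nat_lit 3) (.e (nat_lit 98373) (nat_lit 29) (.e (nat_lit 450587) (nat_lit 10) (.e (nat_lit 573466) (nat_lit 10) (.e (nat_lit 16128) (nat_lit 180) .nil)))))) (.g (nat_lit 4) .nil .nil))) 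
(.lf (nat_lit 51067) (.g (nat_lit 2341) (.e (nat_lit 1349) (nat_lit 102) (.e (nat_lit 286735) (nat_lit 3) (.e (nat_lit 98382) (nat_lit 31) (.e (nat_lit 466977) (nat_lit 22) (.e (nat_lit 196661) (nat_lit 12) (.e (nat_lit 57714) (nat_lit 176) .nil)))))) (.g (nat_lit 4) .nil .nil)))))) (.nd (nat_lit 3) (.nd (nat_lit 4) (.nd (nat_lit 5) 
(.lf (nat_lit 51015) (.g (nat_lit 3739) (.e (nat_lit 1349) (nat_lit 102) (.e (nat_lit 286735) (nat_lit 3) (.e (nat_lit 98373) (nat_lit 29) (.e (nat_lit 450579) (nat_lit 5) (.e (nat_lit 532481) (nat_lit 0) .nil))))) .nil)) 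
(.lf (nat_lit 51047) (.g (nat_lit 2588) (.e (nat_lit 1349) (nat_lit 102) (.e (nat_lit 286735) (nat_lit 3) (.e (nat_lit 98373) (nat_lit 29) (.e (nat_lit 450588) (nat_lit 10) (.e (nat_lit 573473) (nat_lit 12) (.e (nat_lit 57566) (nat_lit 52) (.e (nat_lit 753666) (nat_lit 0) .nil))))))) (.g (nat_lit 5) .nil .nil)))) (.nd (nat_lit 5) 
(.lf (nat_lit 51031) (.g (nat_lit 5115) (.e (nat_lit 1349) (nat_lit 102) (.e (nat_lit 286735) (nat_lit 3) (.e (nat_lit 98373) (nat_lit 29) (.e (nat_lit 450587) (nat_lit 10) (.e (nat_lit 573454) (nat_lit 9) (.e (nat_lit 4) (nat_lit 0) (.e (nat_lit 7064) (nat_lit 377) .nil))))))) (.g (nat_lit 5) .nil .nil))) 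
(.lf (nat_lit 51063) (.g (nat_lit 2774) (.e (nat_lit 1349) (nat_lit 102) (.e (nat_lit 286735) (nat_lit 3) (.e (nat_lit 98382) (nat_lit 31) (.e (nat_lit 466974) (nat_lit 22) (.e (nat_lit 196661) (nat_lit 12) (.e (nat_lit 57714) (nat_lit 176) .nil)))))) (.g (nat_lit 5) .nil .nil))))) (.nd (nat_lit 4) (.nd (nat_lit 5) 
(.lf (nat_lit 51023) (.g (nat_lit 1475) (.e (nat_lit 1349) (nat_lit 102) (.e (nat_lit 286735) (nat_lit 3) (.e (nat_lit 98373) (nat_lit 29) (.e (nat_lit 450581) (nat_lit 5) .nil)))) .nil)) 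
(.lf (nat_lit 51055) (.g (nat_lit 1037) (.e (nat_lit 1349) (nat_lit 102) (.e (nat_lit 286735) (nat_lit 3) (.e (nat_lit 98379) (nat_lit 31) (.e (nat_lit 466976) (nat_lit 22) (.e (nat_lit 196661) (nat_lit 12) .nil))))) .nil))) (.nd (nat_lit 5) 
(.lf (nat_lit 51039) (.g (nat_lit 2718) (.e (nat_lit 1349) (nat_lit 102) (.e (nat_lit 286735) (nat_lit 3) (.e (nat_lit 98373) (nat_lit 29) (.e (nat_lit 450588) (nat_lit 10) (.e (nat_lit 573448) (nat_lit 9) (.e (nat_lit 4) (nat_lit 0) (.e (nat_lit 7064) (nat_lit 377) .nil))))))) (.g (nat_lit 4) .nil .nil))) 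
(.lf (nat_lit 51071) (.g (nat_lit 3681) (.e (nat_lit 1349) (nat_lit 102) (.e (nat_lit 286742) (nat_lit 9) (.e (nat_lit 336013) (nat_lit 2) (.e (nat_lit 90170) (nat_lit 13) (.e (nat_lit 172059) (nat_lit 1) (.e (nat_lit 164326) (nat_lit 230) (.e (nat_lit 163871) (nat_lit 2) (.e (nat_lit 196691) (nat_lit 18) .nil)))))))) (.g (nat_lit 4) .nil .nil)))))))))

noncomputable def tv710 : DT := (.nd (nat_lit 0) (.nd (nat_lit 1) (.nd (nat_lit 2) (.nd (nat_lit 3) (.nd (nat_lit 4) (.nd (nat_lit 5) 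
(.lf (nat_lit 51072) (.g (nat_lit 3561) (.e (nat_lit 1349) (nat_lit 102) (.e (nat_lit 286742) (nat_lit 9) (.e (nat_lit 336013) (nat_lit 2) (.e (nat_lit 90170) (nat_lit 13) (.e (nat_lit 172059) (nat_lit 1) (.e (nat_lit 164327) (nat_lit 230) (.e (nat_lit 163871) (nat_lit 2) (.e (nat_lit 196691) (nat_lit 18) .nil)))))))) (.g (nat_lit 4) .nil .nil))) 
(.lf (nat_lit 51104) (.g (nat_lit 2481) (.e (nat_lit 1349) (nat_lit 102) (.e (nat_lit 286748) (nat_lit 9) (.e (nat_lit 336005) (nat_lit 2) (.e (nat_lit 90185) (nat_lit 17) (.e (nat_lit 237582) (nat_lit 1) (.e (nat_lit 164326) (nat_lit 230) (.e (nat_lit 163871) (nat_lit 2) (.e (nat_lit 196691) (nat_lit 18) .nil)))))))) (.g (nat_lit 4) .nil .nil)))) (.nd (nat_lit 5) 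
(.lf (nat_lit 51088) (.g (nat_lit 4552) (.e (nat_lit 1349) (nat_lit 102) (.e (nat_lit 286747) (nat_lit 9) (.e (nat_lit 336013) (nat_lit 2) (.e (nat_lit 90185) (nat_lit 17) (.e (nat_lit 237582) (nat_lit 1) (.e (nat_lit 164332) (nat_lit 230) (.e (nat_lit 163869) (nat_lit 2) (.e (nat_lit 196691) (nat_lit 18) .nil)))))))) (.g (nat_lit 4) .nil .nil))) 
(.lf (nat_lit 51120) (.g (nat_lit 4163) (.e (nat_lit 1349) (nat_lit 102) (.e (nat_lit 286748) (nat_lit 9) (.e (nat_lit 336013) (nat_lit 2) (.e (nat_lit 90170) (nat_lit 13) (.e (nat_lit 172059) (nat_lit 1) (.e (nat_lit 164326) (nat_lit 230) (.e (nat_lit 163868) (nat_lit 2) (.e (nat_lit 196691) (nat_lit 18) .nil)))))))) (.g (nat_lit 5) .nil .nil))))) (.nd (nat_lit 4) (.nd (nat_lit 5) 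
(.lf (nat_lit 51080) (.g (nat_lit 3655) (.e (nat_lit 1349) (nat_lit 102) (.e (nat_lit 286747) (nat_lit 9) (.e (nat_lit 336013) (nat_lit 2) (.e (nat_lit 90170) (nat_lit 13) (.e (nat_lit 172059) (nat_lit 1) .nil))))) .nil)) 
(.lf (nat_lit 51112) (.g (nat_lit 2269) (.e (nat_lit 1349) (nat_lit 102) (.e (nat_lit 286748) (nat_lit 9) (.e (nat_lit 336006) (nat_lit 2) (.e (nat_lit 90185) (nat_lit 17) (.e (nat_lit 237584) (nat_lit 1) (.e (nat_lit 164326) (nat_lit 230) (.e (nat_lit 163871) (nat_lit 2) (.e (nat_lit 196691) (nat_lit 18) .nil)))))))) (.g (nat_lit 4) .nil .nil)))) (.nd (nat_lit 5) 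
(.lf (nat_lit 51096) (.g (nat_lit 1926) (.e (nat_lit 1349) (nat_lit 102) (.e (nat_lit 286748) (nat_lit 9) (.e (nat_lit 336001) (nat_lit 2) (.e (nat_lit 90172) (nat_lit 14) (.e (nat_lit 180229) (nat_lit 0) (.e (nat_lit 5224) (nat_lit 296) (.e (nat_lit 163871) (nat_lit 2) (.e (nat_lit 196691) (nat_lit 18) .nil)))))))) (.g (nat_lit 4) .nil .nil))) 
(.lf (nat_lit 51128) (.g (nat_lit 2631) (.e (nat_lit 1349) (nat_lit 102) (.e (nat_lit 286748) (nat_lit 9) (.e (nat_lit 336020) (nat_lit 3) (.e (nat_lit 98358) (nat_lit 26) (.e (nat_lit 426112) (nat_lit 1) (.e (nat_lit 164327) (nat_lit 230) (.e (nat_lit 163868) (nat_lit 2) (.e (nat_lit 196691) (nat_lit 18) .nil)))))))) (.g (nat_lit 4) .nil .nil)))))) 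
(.nd (nat_lit 3) (.nd (nat_lit 4) (.nd (nat_lit 5) 
(.lf (nat_lit 51076) (.g (nat_lit 937) (.e (nat_lit 1349) (nat_lit 102) (.e (nat_lit 286742) (nat_lit 9) (.e (nat_lit 336456) (nat_lit 34) (.e (nat_lit 491264) (nat_lit 3) .nil)))) .nil)) 
(.lf (nat_lit 51108) (.g (nat_lit 2356) (.e (nat_lit 1349) (nat_lit 102) (.e (nat_lit 286748) (nat_lit 9) (.e (nat_lit 336005) (nat_lit 2) (.e (nat_lit 90185) (nat_lit 17) (.e (nat_lit 237584) (nat_lit 1) (.e (nat_lit 164327) (nat_lit 230) (.e (nat_lit 163871) (nat_lit 2) (.e (nat_lit 196691) (nat_lit 18) .nil)))))))) (.g (nat_lit 4) .nil .nil)))) (.nd (nat_lit 5) 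
(.lf (nat_lit 51092) (.g (nat_lit 2749) (.e (nat_lit 1349) (nat_lit 102) (.e (nat_lit 286747) (nat_lit 9) (.e (nat_lit 336028) (nat_lit 3) (.e (nat_lit 98367) (nat_lit 27) (.e (nat_lit 434275) (nat_lit 39) (.e (nat_lit 663584) (nat_lit 12) (.e (nat_lit 163979) (nat_lit 30) (.e (nat_lit 573503) (nat_lit 18) .nil)))))))) (.g (nat_lit 4) .nil .nil))) 
(.lf (nat_lit 51124) (.g (nat_lit 4416) (.e (nat_lit 1349) (nat_lit 102) (.e (nat_lit 286748) (nat_lit 9) (.e (nat_lit 336013) (nat_lit 2) (.e (nat_lit 90170) (nat_lit 13) (.e (nat_lit 172061) (nat_lit 1) (.e (nat_lit 164326) (nat_lit 230) (.e (nat_lit 163871) (nat_lit 2) (.e (nat_lit 196691) (nat_lit 18) .nil)))))))) (.g (nat_lit 6) .nil .nil))))) (.nd (nat_lit 4) (.nd (nat_lit 5) 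
(.lf (nat_lit 51084) (.g (nat_lit 5345) (.e (nat_lit 1349) (nat_lit 102) (.e (nat_lit 286747) (nat_lit 9) (.e (nat_lit 336013) (nat_lit 2) (.e (nat_lit 90170) (nat_lit 13) (.e (nat_lit 172061) (nat_lit 1) (.e (nat_lit 164326) (nat_lit 230) (.e (nat_lit 163868) (nat_lit 2) (.e (nat_lit 196691) (nat_lit 18) .nil)))))))) (.g (nat_lit 7) .nil .nil))) 
(.lf (nat_lit 51116) (.g (nat_lit 2672) (.e (nat_lit 1349) (nat_lit 102) (.e (nat_lit 286748) (nat_lit 9) (.e (nat_lit 336008) (nat_lit 2) (.e (nat_lit 90185) (nat_lit 17) (.e (nat_lit 237582) (nat_lit 1) (.e (nat_lit 164326) (nat_lit 230) (.e (nat_lit 163871) (nat_lit 2) (.e (nat_lit 196691) (nat_lit 18) .nil)))))))) (.g (nat_lit 5) .nil .nil)))) (.nd (nat_lit 5) 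
(.lf (nat_lit 51100) (.g (nat_lit 2917) (.e (nat_lit 1349) (nat_lit 102) (.e (nat_lit 286748) (nat_lit 9) (.e (nat_lit 336001) (nat_lit 2) (.e (nat_lit 90185) (nat_lit 17) (.e (nat_lit 237584) (nat_lit 1) (.e (nat_lit 164326) (nat_lit 230) (.e (nat_lit 163868) (nat_lit 2) (.e (nat_lit 196691) (nat_lit 18) .nil)))))))) (.g (nat_lit 6) .nil .nil))) 
(.lf (nat_lit 51132) (.g (nat_lit 2647) (.e (nat_lit 1349) (nat_lit 102) (.e (nat_lit 286748) (nat_lit 9) (.e (nat_lit 336024) (nat_lit 3) (.e (nat_lit 98358) (nat_lit 26) (.e (nat_lit 426112) (nat_lit 1) (.e (nat_lit 164327) (nat_lit 230) (.e (nat_lit 163871) (nat_lit 2) (.e (nat_lit 196691) (nat_lit 18) .nil)))))))) (.g (nat_lit 4) .nil .nil))))))) 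
(.nd (nat_lit 2) (.nd (nat_lit 3) (.nd (nat_lit 4) (.nd (nat_lit 5) 
(.lf (nat_lit 51074) (.g (nat_lit 4454) (.e (nat_lit 1349) (nat_lit 102) (.e (nat_lit 286742) (nat_lit 9) (.e (nat_lit 336013) (nat_lit 2) (.e (nat_lit 90170) (nat_lit 13) (.e (nat_lit 172061) (nat_lit 1) (.e (nat_lit 164326) (nat_lit 230) (.e (nat_lit 163871) (nat_lit 2) (.e (nat_lit 196691) (nat_lit 18) .nil)))))))) (.g (nat_lit 5) .nil .nil))) 
(.lf (nat_lit 51106) (.g (nat_lit 2653) (.e (nat_lit 1349) (nat_lit 102) (.e (nat_lit 286748) (nat_lit 9) (.e (nat_lit 336005) (nat_lit 2) (.e (nat_lit 90185) (nat_lit 17) (.e (nat_lit 237584) (nat_lit 1) (.e (nat_lit 164326) (nat_lit 230) (.e (nat_lit 163868) (nat_lit 2) (.e (nat_lit 196691) (nat_lit 18) .nil)))))))) (.g (nat_lit 5) .nil .nil)))) (.nd (nat_lit 5) 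
(.lf (nat_lit 51090) (.g (nat_lit 3772) (.e (nat_lit 1349) (nat_lit 102) (.e (nat_lit 286747) (nat_lit 9) (.e (nat_lit 336013) (nat_lit 2) (.e (nat_lit 90185) (nat_lit 17) (.e (nat_lit 237584) (nat_lit 1) (.e (nat_lit 164327) (nat_lit 230) (.e (nat_lit 163868) (nat_lit 2) (.e (nat_lit 196691) (nat_lit 18) .nil)))))))) (.g (nat_lit 4) .nil .nil))) 
(.lf (nat_lit 51122) (.g (nat_lit 4089) (.e (nat_lit 1349) (nat_lit 102) (.e (nat_lit 286748) (nat_lit 9) (.e (nat_lit 336013) (nat_lit 2) (.e (nat_lit 90170) (nat_lit 13) (.e (nat_lit 172059) (nat_lit 1) (.e (nat_lit 164327) (nat_lit 230) (.e (nat_lit 163871) (nat_lit 2) (.e (nat_lit 196691) (nat_lit 18) .nil)))))))) (.g (nat_lit 5) .nil .nil))))) (.nd (nat_lit 4) (.nd (nat_lit 5) 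
(.lf (nat_lit 51082) (.g (nat_lit 5311) (.e (nat_lit 1349) (nat_lit 102) (.e (nat_lit 286747) (nat_lit 9) (.e (nat_lit 336013) (nat_lit 2) (.e (nat_lit 90170) (nat_lit 13) (.e (nat_lit 172059) (nat_lit 1) (.e (nat_lit 164326) (nat_lit 230) (.e (nat_lit 163871) (nat_lit 2) (.e (nat_lit 196691) (nat_lit 18) .nil)))))))) (.g (nat_lit 7) .nil .nil))) 
(.lf (nat_lit 51114) (.g (nat_lit 1840) (.e (nat_lit 1349) (nat_lit 102) (.e (nat_lit 286748) (nat_lit 9) (.e (nat_lit 336008) (nat_lit 2) (.e (nat_lit 90172) (nat_lit 14) (.e (nat_lit 180229) (nat_lit 0) (.e (nat_lit 5224) (nat_lit 296) (.e (nat_lit 163868) (nat_lit 2) (.e (nat_lit 196691) (nat_lit 18) .nil)))))))) (.g (nat_lit 4) .nil .nil)))) (.nd (nat_lit 5) 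
(.lf (nat_lit 51098) (.g (nat_lit 2688) (.e (nat_lit 1349) (nat_lit 102) (.e (nat_lit 286748) (nat_lit 9) (.e (nat_lit 336001) (nat_lit 2) (.e (nat_lit 90185) (nat_lit 17) (.e (nat_lit 237582) (nat_lit 1) (.e (nat_lit 164326) (nat_lit 230) (.e (nat_lit 163871) (nat_lit 2) (.e (nat_lit 196691) (nat_lit 18) .nil)))))))) (.g (nat_lit 5) .nil .nil))) 
(.lf (nat_lit 51130) (.g (nat_lit 2068) (.e (nat_lit 1349) (nat_lit 102) (.e (nat_lit 286748) (nat_lit 9) (.e (nat_lit 336022) (nat_lit 3) (.e (nat_lit 98365) (nat_lit 26) (.e (nat_lit 426098) (nat_lit 1) (.e (nat_lit 164327) (nat_lit 230) (.e (nat_lit 163868) (nat_lit 2) (.e (nat_lit 196691) (nat_lit 18) .nil)))))))) (.g (nat_lit 4) .nil .nil)))))) 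
(.nd (nat_lit 3) (.nd (nat_lit 4) (.nd (nat_lit 5) 
(.lf (nat_lit 51078) (.g (nat_lit 3646) (.e (nat_lit 1349) (nat_lit 102) (.e (nat_lit 286747) (nat_lit 9) (.e (nat_lit 336013) (nat_lit 2) (.e (nat_lit 90134) (nat_lit 9) (.e (nat_lit 2978) (nat_lit 185) .nil))))) .nil)) 
(.lf (nat_lit 51110) (.g (nat_lit 2078) (.e (nat_lit 1349) (nat_lit 102) (.e (nat_lit 286748) (nat_lit 9) (.e (nat_lit 336006) (nat_lit 2) (.e (nat_lit 90185) (nat_lit 17) (.e (nat_lit 237582) (nat_lit 1) (.e (nat_lit 164326) (nat_lit 230) (.e (nat_lit 163871) (nat_lit 2) (.e (nat_lit 196691) (nat_lit 18) .nil)))))))) (.g (nat_lit 4) .nil .nil)))) (.nd (nat_lit 5) 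
(.lf (nat_lit 51094) (.g (nat_lit 2156) (.e (nat_lit 1349) (nat_lit 102) (.e (nat_lit 286748) (nat_lit 9) (.e (nat_lit 336001) (nat_lit 2) (.e (nat_lit 90170) (nat_lit 13) (.e (nat_lit 172061) (nat_lit 1) .nil))))) .nil)) 
(.lf (nat_lit 51126) (.g (nat_lit 3441) (.e (nat_lit 1349) (nat_lit 102) (.e (nat_lit 286748) (nat_lit 9) (.e (nat_lit 336013) (nat_lit 2) (.e (nat_lit 90185) (nat_lit 17) (.e (nat_lit 237582) (nat_lit 1) .nil))))) .nil)))) (.nd (nat_lit 4) (.nd (nat_lit 5) 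
(.lf (nat_lit 51086) (.g (nat_lit 4965) (.e (nat_lit 1349) (nat_lit 102) (.e (nat_lit 286747) (nat_lit 9) (.e (nat_lit 336013) (nat_lit 2) (.e (nat_lit 90170) (nat_lit 13) (.e (nat_lit 172061) (nat_lit 1) (.e (nat_lit 164327) (nat_lit 230) (.e (nat_lit 163871) (nat_lit 2) (.e (nat_lit 196691) (nat_lit 18) .nil)))))))) (.g (nat_lit 6) .nil .nil))) 
(.lf (nat_lit 51118) (.g (nat_lit 2895) (.e (nat_lit 1349) (nat_lit 102) (.e (nat_lit 286748) (nat_lit 9) (.e (nat_lit 336008) (nat_lit 2) (.e (nat_lit 90185) (nat_lit 17) (.e (nat_lit 237584) (nat_lit 1) (.e (nat_lit 164326) (nat_lit 230) (.e (nat_lit 163871) (nat_lit 2) (.e (nat_lit 196691) (nat_lit 18) .nil)))))))) (.g (nat_lit 6) .nil .nil)))) (.nd (nat_lit 5) 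
(.lf (nat_lit 51102) (.g (nat_lit 2014) (.e (nat_lit 1349) (nat_lit 102) (.e (nat_lit 286748) (nat_lit 9) (.e (nat_lit 336001) (nat_lit 2) (.e (nat_lit 90185) (nat_lit 17) (.e (nat_lit 237585) (nat_lit 1) (.e (nat_lit 164332) (nat_lit 230) (.e (nat_lit 163867) (nat_lit 2) (.e (nat_lit 196691) (nat_lit 18) .nil)))))))) (.g (nat_lit 4) .nil .nil))) 
(.lf (nat_lit 51134) (.g (nat_lit 1810) (.e (nat_lit 1349) (nat_lit 102) (.e (nat_lit 286748) (nat_lit 9) (.e (nat_lit 336028) (nat_lit 3) (.e (nat_lit 98359) (nat_lit 26) (.e (nat_lit 426097) (nat_lit 1) (.e (nat_lit 164326) (nat_lit 230) (.e (nat_lit 163868) (nat_lit 2) (.e (nat_lit 196691) (nat_lit 18) .nil)))))))) (.g (nat_lit 4) .nil .nil)))))))) 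
(.nd (nat_lit 1) (.nd (nat_lit 2) (.nd (nat_lit 3) (.nd (nat_lit 4) (.nd (nat_lit 5) 
(.lf (nat_lit 51073) (.g (nat_lit 4412) (.e (nat_lit 1349) (nat_lit 102) (.e (nat_lit 286742) (nat_lit 9) (.e (nat_lit 336013) (nat_lit 2) (.e (nat_lit 90170) (nat_lit 13) (.e (nat_lit 172061) (nat_lit 1) (.e (nat_lit 164326) (nat_lit 230) (.e (nat_lit 163868) (nat_lit 2) (.e (nat_lit 196691) (nat_lit 18) .nil)))))))) (.g (nat_lit 5) .nil .nil))) 
(.lf (nat_lit 51105) (.g (nat_lit 2415) (.e (nat_lit 1349) (nat_lit 102) (.e (nat_lit 286748) (nat_lit 9) (.e (nat_lit 336005) (nat_lit 2) (.e (nat_lit 90185) (nat_lit 17) (.e (nat_lit 237582) (nat_lit 1) (.e (nat_lit 164327) (nat_lit 230) (.e (nat_lit 163871) (nat_lit 2) (.e (nat_lit 196691) (nat_lit 18) .nil)))))))) (.g (nat_lit 4) .nil .nil)))) (.nd (nat_lit 5) 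
(.lf (nat_lit 51089) (.g (nat_lit 3695) (.e (nat_lit 1349) (nat_lit 102) (.e (nat_lit 286747) (nat_lit 9) (.e (nat_lit 336013) (nat_lit 2) (.e (nat_lit 90185) (nat_lit 17) (.e (nat_lit 237584) (nat_lit 1) .nil))))) .nil)) 
(.lf (nat_lit 51121) (.g (nat_lit 4209) (.e (nat_lit 1349) (nat_lit 102) (.e (nat_lit 286748) (nat_lit 9) (.e (nat_lit 336013) (nat_lit 2) (.e (nat_lit 90170) (nat_lit 13) (.e (nat_lit 172059) (nat_lit 1) (.e (nat_lit 164326) (nat_lit 230) (.e (nat_lit 163871) (nat_lit 2) (.e (nat_lit 196691) (nat_lit 18) .nil)))))))) (.g (nat_lit 5) .nil .nil))))) (.nd (nat_lit 4) (.nd (nat_lit 5) 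
(.lf (nat_lit 51081) (.g (nat_lit 5265) (.e (nat_lit 1349) (nat_lit 102) (.e (nat_lit 286747) (nat_lit 9) (.e (nat_lit 336013) (nat_lit 2) (.e (nat_lit 90170) (nat_lit 13) (.e (nat_lit 172059) (nat_lit 1) (.e (nat_lit 164326) (nat_lit 230) (.e (nat_lit 163868) (nat_lit 2) (.e (nat_lit 196691) (nat_lit 18) .nil)))))))) (.g (nat_lit 7) .nil .nil))) 
(.lf (nat_lit 51113) (.g (nat_lit 1669) (.e (nat_lit 1349) (nat_lit 102) (.e (nat_lit 286748) (nat_lit 9) (.e (nat_lit 336008) (nat_lit 2) (.e (nat_lit 90172) (nat_lit 14) (.e (nat_lit 180229) (nat_lit 0) (.e (nat_lit 5223) (nat_lit 296) (.e (nat_lit 163868) (nat_lit 2) (.e (nat_lit 196691) (nat_lit 18) .nil)))))))) (.g (nat_lit 4) .nil .nil)))) (.nd (nat_lit 5) 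
(.lf (nat_lit 51097) (.g (nat_lit 2668) (.e (nat_lit 1349) (nat_lit 102) (.e (nat_lit 286748) (nat_lit 9) (.e (nat_lit 336001) (nat_lit 2) (.e (nat_lit 90185) (nat_lit 17) (.e (nat_lit 237582) (nat_lit 1) (.e (nat_lit 164326) (nat_lit 230) (.e (nat_lit 163868) (nat_lit 2) (.e (nat_lit 196691) (nat_lit 18) .nil)))))))) (.g (nat_lit 5) .nil .nil))) 
(.lf (nat_lit 51129) (.g (nat_lit 2278) (.e (nat_lit 1349) (nat_lit 102) (.e (nat_lit 286748) (nat_lit 9) (.e (nat_lit 336020) (nat_lit 3) (.e (nat_lit 98365) (nat_lit 26) (.e (nat_lit 426098) (nat_lit 1) (.e (nat_lit 164327) (nat_lit 230) (.e (nat_lit 163868) (nat_lit 2) (.e (nat_lit 196691) (nat_lit 18) .nil)))))))) (.g (nat_lit 4) .nil .nil)))))) 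
(.nd (nat_lit 3) (.nd (nat_lit 4) (.nd (nat_lit 5) 
(.lf (nat_lit 51077) (.g (nat_lit 378) (.e (nat_lit 1349) (nat_lit 102) (.e (nat_lit 286743) (nat_lit 9) (.e (nat_lit 336455) (nat_lit 34) .nil))) .nil)) 
(.lf (nat_lit 51109) (.g (nat_lit 2058) (.e (nat_lit 1349) (nat_lit 102) (.e (nat_lit 286748) (nat_lit 9) (.e (nat_lit 336006) (nat_lit 2) (.e (nat_lit 90185) (nat_lit 17) (.e (nat_lit 237582) (nat_lit 1) (.e (nat_lit 164326) (nat_lit 230) (.e (nat_lit 163868) (nat_lit 2) (.e (nat_lit 196691) (nat_lit 18) .nil)))))))) (.g (nat_lit 4) .nil .nil)))) (.nd (nat_lit 5) 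
(.lf (nat_lit 51093) (.g (nat_lit 433) (.e (nat_lit 1349) (nat_lit 102) (.e (nat_lit 286748) (nat_lit 9) (.e (nat_lit 335938) (nat_lit 0) .nil))) .nil)) 
(.lf (nat_lit 51125) (.g (nat_lit 3994) (.e (nat_lit 1349) (nat_lit 102) (.e (nat_lit 286748) (nat_lit 9) (.e (nat_lit 336013) (nat_lit 2) (.e (nat_lit 90170) (nat_lit 13) (.e (nat_lit 172061) (nat_lit 1) (.e (nat_lit 164327) (nat_lit 230) (.e (nat_lit 163871) (nat_lit 2) (.e (nat_lit 196691) (nat_lit 18) .nil)))))))) (.g (nat_lit 5) .nil .nil))))) (.nd (nat_lit 4) (.nd (nat_lit 5) 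
(.lf (nat_lit 51085) (.g (nat_lit 5387) (.e (nat_lit 1349) (nat_lit 102) (.e (nat_lit 286747) (nat_lit 9) (.e (nat_lit 336013) (nat_lit 2) (.e (nat_lit 90170) (nat_lit 13) (.e (nat_lit 172061) (nat_lit 1) (.e (nat_lit 164326) (nat_lit 230) (.e (nat_lit 163871) (nat_lit 2) (.e (nat_lit 196691) (nat_lit 18) .nil)))))))) (.g (nat_lit 7) .nil .nil))) 
(.lf (nat_lit 51117) (.g (nat_lit 2875) (.e (nat_lit 1349) (nat_lit 102) (.e (nat_lit 286748) (nat_lit 9) (.e (nat_lit 336008) (nat_lit 2) (.e (nat_lit 90185) (nat_lit 17) (.e (nat_lit 237584) (nat_lit 1) (.e (nat_lit 164326) (nat_lit 230) (.e (nat_lit 163868) (nat_lit 2) (.e (nat_lit 196691) (nat_lit 18) .nil)))))))) (.g (nat_lit 6) .nil .nil)))) (.nd (nat_lit 5) 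
(.lf (nat_lit 51101) (.g (nat_lit 2937) (.e (nat_lit 1349) (nat_lit 102) (.e (nat_lit 286748) (nat_lit 9) (.e (nat_lit 336001) (nat_lit 2) (.e (nat_lit 90185) (nat_lit 17) (.e (nat_lit 237584) (nat_lit 1) (.e (nat_lit 164326) (nat_lit 230) (.e (nat_lit 163871) (nat_lit 2) (.e (nat_lit 196691) (nat_lit 18) .nil)))))))) (.g (nat_lit 6) .nil .nil))) 
(.lf (nat_lit 51133) (.g (nat_lit 2004) (.e (nat_lit 1349) (nat_lit 102) (.e (nat_lit 286748) (nat_lit 9) (.e (nat_lit 336024) (nat_lit 3) (.e (nat_lit 98377) (nat_lit 30) (.e (nat_lit 458774) (nat_lit 18) (.e (nat_lit 5224) (nat_lit 296) (.e (nat_lit 163871) (nat_lit 2) (.e (nat_lit 196691) (nat_lit 18) .nil)))))))) (.g (nat_lit 5) .nil .nil))))))) 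
(.nd (nat_lit 2) (.nd (nat_lit 3) (.nd (nat_lit 4) (.nd (nat_lit 5) 
(.lf (nat_lit 51075) (.g (nat_lit 4032) (.e (nat_lit 1349) (nat_lit 102) (.e (nat_lit 286742) (nat_lit 9) (.e (nat_lit 336013) (nat_lit 2) (.e (nat_lit 90170) (nat_lit 13) (.e (nat_lit 172061) (nat_lit 1) (.e (nat_lit 164327) (nat_lit 230) (.e (nat_lit 163871) (nat_lit 2) (.e (nat_lit 196691) (nat_lit 18) .nil)))))))) (.g (nat_lit 4) .nil .nil))) 
(.lf (nat_lit 51107) (.g (nat_lit 2673) (.e (nat_lit 1349) (nat_lit 102) (.e (nat_lit 286748) (nat_lit 9) (.e (nat_lit 336005) (nat_lit 2) (.e (nat_lit 90185) (nat_lit 17) (.e (nat_lit 237584) (nat_lit 1) (.e (nat_lit 164326) (nat_lit 230) (.e (nat_lit 163871) (nat_lit 2) (.e (nat_lit 196691) (nat_lit 18) .nil)))))))) (.g (nat_lit 5) .nil .nil)))) (.nd (nat_lit 5) 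
(.lf (nat_lit 51091) (.g (nat_lit 4542) (.e (nat_lit 1349) (nat_lit 102) (.e (nat_lit 286747) (nat_lit 9) (.e (nat_lit 336013) (nat_lit 2) (.e (nat_lit 90185) (nat_lit 17) (.e (nat_lit 237585) (nat_lit 1) (.e (nat_lit 164332) (nat_lit 230) (.e (nat_lit 163869) (nat_lit 2) (.e (nat_lit 196691) (nat_lit 18) .nil)))))))) (.g (nat_lit 5) .nil .nil))) 
(.lf (nat_lit 51123) (.g (nat_lit 4374) (.e (nat_lit 1349) (nat_lit 102) (.e (nat_lit 286748) (nat_lit 9) (.e (nat_lit 336013) (nat_lit 2) (.e (nat_lit 90170) (nat_lit 13) (.e (nat_lit 172061) (nat_lit 1) (.e (nat_lit 164326) (nat_lit 230) (.e (nat_lit 163868) (nat_lit 2) (.e (nat_lit 196691) (nat_lit 18) .nil)))))))) (.g (nat_lit 5) .nil .nil))))) (.nd (nat_lit 4) (.nd (nat_lit 5) 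
(.lf (nat_lit 51083) (.g (nat_lit 5191) (.e (nat_lit 1349) (nat_lit 102) (.e (nat_lit 286747) (nat_lit 9) (.e (nat_lit 336013) (nat_lit 2) (.e (nat_lit 90170) (nat_lit 13) (.e (nat_lit 172059) (nat_lit 1) (.e (nat_lit 164327) (nat_lit 230) (.e (nat_lit 163871) (nat_lit 2) (.e (nat_lit 196691) (nat_lit 18) .nil)))))))) (.g (nat_lit 6) .nil .nil))) 
(.lf (nat_lit 51115) (.g (nat_lit 2652) (.e (nat_lit 1349) (nat_lit 102) (.e (nat_lit 286748) (nat_lit 9) (.e (nat_lit 336008) (nat_lit 2) (.e (nat_lit 90185) (nat_lit 17) (.e (nat_lit 237582) (nat_lit 1) (.e (nat_lit 164326) (nat_lit 230) (.e (nat_lit 163868) (nat_lit 2) (.e (nat_lit 196691) (nat_lit 18) .nil)))))))) (.g (nat_lit 5) .nil .nil)))) (.nd (nat_lit 5) 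
(.lf (nat_lit 51099) (.g (nat_lit 2622) (.e (nat_lit 1349) (nat_lit 102) (.e (nat_lit 286748) (nat_lit 9) (.e (nat_lit 336001) (nat_lit 2) (.e (nat_lit 90185) (nat_lit 17) (.e (nat_lit 237582) (nat_lit 1) (.e (nat_lit 164327) (nat_lit 230) (.e (nat_lit 163871) (nat_lit 2) (.e (nat_lit 196691) (nat_lit 18) .nil)))))))) (.g (nat_lit 4) .nil .nil))) 
(.lf (nat_lit 51131) (.g (nat_lit 2600) (.e (nat_lit 1349) (nat_lit 102) (.e (nat_lit 286748) (nat_lit 9) (.e (nat_lit 336023) (nat_lit 3) (.e (nat_lit 98358) (nat_lit 26) (.e (nat_lit 426112) (nat_lit 1) (.e (nat_lit 164327) (nat_lit 230) (.e (nat_lit 163871) (nat_lit 2) (.e (nat_lit 196691) (nat_lit 18) .nil)))))))) (.g (nat_lit 4) .nil .nil)))))) 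
(.nd (nat_lit 3) (.nd (nat_lit 4) (.nd (nat_lit 5) 
(.lf (nat_lit 51079) (.g (nat_lit 2025) (.e (nat_lit 1349) (nat_lit 102) (.e (nat_lit 286747) (nat_lit 9) (.e (nat_lit 336013) (nat_lit 2) (.e (nat_lit 90166) (nat_lit 13) .nil)))) .nil)) 
(.lf (nat_lit 51111) (.g (nat_lit 2249) (.e (nat_lit 1349) (nat_lit 102) (.e (nat_lit 286748) (nat_lit 9) (.e (nat_lit 336006) (nat_lit 2) (.e (nat_lit 90185) (nat_lit 17) (.e (nat_lit 237584) (nat_lit 1) (.e (nat_lit 164326) (nat_lit 230) (.e (nat_lit 163868) (nat_lit 2) (.e (nat_lit 196691) (nat_lit 18) .nil)))))))) (.g (nat_lit 4) .nil .nil)))) (.nd (nat_lit 5) 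
(.lf (nat_lit 51095) (.g (nat_lit 2292) (.e (nat_lit 1349) (nat_lit 102) (.e (nat_lit 286748) (nat_lit 9) (.e (nat_lit 336001) (nat_lit 2) (.e (nat_lit 90170) (nat_lit 13) (.e (nat_lit 172061) (nat_lit 1) (.e (nat_lit 164327) (nat_lit 230) (.e (nat_lit 163868) (nat_lit 2) (.e (nat_lit 196691) (nat_lit 18) .nil)))))))) (.g (nat_lit 4) .nil .nil))) 
(.lf (nat_lit 51127) (.g (nat_lit 3289) (.e (nat_lit 1349) (nat_lit 102) (.e (nat_lit 286748) (nat_lit 9) (.e (nat_lit 336013) (nat_lit 2) (.e (nat_lit 90185) (nat_lit 17) (.e (nat_lit 237585) (nat_lit 1) .nil))))) .nil)))) (.nd (nat_lit 4) (.nd (nat_lit 5) 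
(.lf (nat_lit 51087) (.g (nat_lit 3821) (.e (nat_lit 1349) (nat_lit 102) (.e (nat_lit 286747) (nat_lit 9) (.e (nat_lit 336013) (nat_lit 2) (.e (nat_lit 90185) (nat_lit 17) (.e (nat_lit 237582) (nat_lit 1) .nil))))) .nil)) 
(.lf (nat_lit 51119) (.g (nat_lit 3267) (.e (nat_lit 1349) (nat_lit 102) (.e (nat_lit 286748) (nat_lit 9) (.e (nat_lit 336013) (nat_lit 2) (.e (nat_lit 90134) (nat_lit 9) (.e (nat_lit 2978) (nat_lit 185) .nil))))) .nil))) (.nd (nat_lit 5) 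
(.lf (nat_lit 51103) (.g (nat_lit 2461) (.e (nat_lit 1349) (nat_lit 102) (.e (nat_lit 286748) (nat_lit 9) (.e (nat_lit 336005) (nat_lit 2) (.e (nat_lit 90185) (nat_lit 17) (.e (nat_lit 237582) (nat_lit 1) (.e (nat_lit 164326) (nat_lit 230) (.e (nat_lit 163868) (nat_lit 2) (.e (nat_lit 196691) (nat_lit 18) .nil)))))))) (.g (nat_lit 4) .nil .nil))) 
(.lf (nat_lit 51135) (.g (nat_lit 1819) (.e (nat_lit 1349) (nat_lit 102) (.e (nat_lit 286748) (nat_lit 9) (.e (nat_lit 336028) (nat_lit 3) (.e (nat_lit 98359) (nat_lit 26) (.e (nat_lit 426097) (nat_lit 1) (.e (nat_lit 164326) (nat_lit 230) (.e (nat_lit 163871) (nat_lit 2) (.e (nat_lit 196691) (nat_lit 18) .nil)))))))) (.g (nat_lit 4) .nil .nil)))))))))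

noncomputable def tv711 : DT := (.nd (nat_lit 0) (.nd (nat_lit 1) (.nd (nat_lit 2) (.nd (nat_lit 3) (.nd (nat_lit 4) (.nd (nat_lit 5) 
(.lf (nat_lit 51136) (.g (nat_lit 2073) (.e (nat_lit 1349) (nat_lit 102) (.e (nat_lit 286748) (nat_lit 9) (.e (nat_lit 336028) (nat_lit 3) (.e (nat_lit 98359) (nat_lit 26) (.e (nat_lit 426097) (nat_lit 1) (.e (nat_lit 164327) (nat_lit 230) (.e (nat_lit 163871) (nat_lit 2) (.e (nat_lit 196691) (nat_lit 18) .nil)))))))) (.g (nat_lit 4) .nil .nil))) 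
(.lf (nat_lit 51168) (.g (nat_lit 2061) (.e (nat_lit 1349) (nat_lit 102) (.e (nat_lit 286748) (nat_lit 9) (.e (nat_lit 336295) (nat_lit 15) (.e (nat_lit 3305) (nat_lit 202) (.e (nat_lit 573484) (nat_lit 13) (.e (nat_lit 65599) (nat_lit 9) (.e (nat_lit 336013) (nat_lit 2) (.e (nat_lit 98048) (nat_lit 18) .nil)))))))) (.g (nat_lit 6) .nil .nil)))) (.nd (nat_lit 5) 
(.lf (nat_lit 51152) (.g (nat_lit 840) (.e (nat_lit 1349) (nat_lit 102) (.e (nat_lit 286748) (nat_lit 9) (.e (nat_lit 336295) (nat_lit 15) (.e (nat_lit 7936) (nat_lit 195) .nil)))) .nil)) 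
(.lf (nat_lit 51184) (.g (nat_lit 2004) (.e (nat_lit 1349) (nat_lit 102) (.e (nat_lit 286748) (nat_lit 9) (.e (nat_lit 336295) (nat_lit 15) (.e (nat_lit 3748) (nat_lit 228) (.e (nat_lit 786467) (nat_lit 27) (.e (nat_lit 336173) (nat_lit 10) (.e (nat_lit 344160) (nat_lit 37) (.e (nat_lit 647203) (nat_lit 14) .nil)))))))) (.g (nat_lit 4) .nil .nil))))) (.nd (nat_lit 4) (.nd (nat_lit 5) 
(.lf (nat_lit 51144) (.g (nat_lit 3770) (.e (nat_lit 1349) (nat_lit 102) (.e (nat_lit 286748) (nat_lit 9) (.e (nat_lit 336028) (nat_lit 3) (.e (nat_lit 98367) (nat_lit 27) (.e (nat_lit 434209) (nat_lit 18) (.e (nat_lit 5224) (nat_lit 296) (.e (nat_lit 163871) (nat_lit 2) (.e (nat_lit 196691) (nat_lit 18) .nil)))))))) (.g (nat_lit 6) .nil .nil))) 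
(.lf (nat_lit 51176) (.g (nat_lit 2031) (.e (nat_lit 1349) (nat_lit 102) (.e (nat_lit 286748) (nat_lit 9) (.e (nat_lit 336295) (nat_lit 15) (.e (nat_lit 3632) (nat_lit 227) (.e (nat_lit 778321) (nat_lit 4) (.e (nat_lit 65617) (nat_lit 10) (.e (nat_lit 344164) (nat_lit 37) (.e (nat_lit 647203) (nat_lit 14) .nil)))))))) (.g (nat_lit 4) .nil .nil)))) (.nd (nat_lit 5) 
(.lf (nat_lit 51160) (.g (nat_lit 2092) (.e (nat_lit 1349) (nat_lit 102) (.e (nat_lit 286748) (nat_lit 9) (.e (nat_lit 336295) (nat_lit 15) (.e (nat_lit 3305) (nat_lit 202) (.e (nat_lit 573452) (nat_lit 9) .nil))))) .nil)) 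
(.lf (nat_lit 51192) (.g (nat_lit 1321) (.e (nat_lit 1349) (nat_lit 102) (.e (nat_lit 286748) (nat_lit 9) (.e (nat_lit 336389) (nat_lit 27) (.e (nat_lit 426012) (nat_lit 0) (.e (nat_lit 7507) (nat_lit 402) (.e (nat_lit 1512) (nat_lit 108) (.e (nat_lit 336241) (nat_lit 15) (.e (nat_lit 7064) (nat_lit 377) .nil)))))))) (.g (nat_lit 4) .nil .nil)))))) 
(.nd (nat_lit 3) (.nd (nat_lit 4) (.nd (nat_lit 5) 
(.lf (nat_lit 51140) (.g (nat_lit 3428) (.e (nat_lit 1349) (nat_lit 102) (.e (nat_lit 286748) (nat_lit 9) (.e (nat_lit 336028) (nat_lit 3) (.e (nat_lit 98366) (nat_lit 27) (.e (nat_lit 434275) (nat_lit 39) (.e (nat_lit 663584) (nat_lit 12) (.e (nat_lit 163976) (nat_lit 30) (.e (nat_lit 573503) (nat_lit 18) .nil)))))))) (.g (nat_lit 6) .nil .nil))) 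
(.lf (nat_lit 51172) (.g (nat_lit 2103) (.e (nat_lit 1349) (nat_lit 102) (.e (nat_lit 286748) (nat_lit 9) (.e (nat_lit 336295) (nat_lit 15) (.e (nat_lit 3632) (nat_lit 227) (.e (nat_lit 778248) (nat_lit 0) .nil))))) .nil))) (.nd (nat_lit 5) 
(.lf (nat_lit 51156) (.g (nat_lit 2085) (.e (nat_lit 1349) (nat_lit 102) (.e (nat_lit 286748) (nat_lit 9) (.e (nat_lit 336295) (nat_lit 15) (.e (nat_lit 3253) (nat_lit 197) (.e (nat_lit 532513) (nat_lit 3) (.e (nat_lit 114710) (nat_lit 21) (.e (nat_lit 57688) (nat_lit 156) (.e (nat_lit 163867) (nat_lit 2) (.e (nat_lit 196691) (nat_lit 18) .nil))))))))) (.g (nat_lit 4) .nil .nil))) 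
(.lf (nat_lit 51188) (.g (nat_lit 2461) (.e (nat_lit 1349) (nat_lit 102) (.e (nat_lit 286748) (nat_lit 9) (.e (nat_lit 336295) (nat_lit 15) (.e (nat_lit 6966) (nat_lit 377) (.e (nat_lit 1370) (nat_lit 103) (.e (nat_lit 294955) (nat_lit 12) (.e (nat_lit 392960) (nat_lit 16) .nil))))))) (.g (nat_lit 5) .nil .nil))))) (.nd (nat_lit 4) (.nd (nat_lit 5) 
(.lf (nat_lit 51148) (.g (nat_lit 3207) (.e (nat_lit 1349) (nat_lit 102) (.e (nat_lit 286748) (nat_lit 9) (.e (nat_lit 336028) (nat_lit 3) (.e (nat_lit 98367) (nat_lit 27) (.e (nat_lit 434276) (nat_lit 39) (.e (nat_lit 663585) (nat_lit 12) (.e (nat_lit 163977) (nat_lit 30) (.e (nat_lit 573503) (nat_lit 18) .nil)))))))) (.g (nat_lit 5) .nil .nil))) 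
(.lf (nat_lit 51180) (.g (nat_lit 3010) (.e (nat_lit 1349) (nat_lit 102) (.e (nat_lit 286748) (nat_lit 9) (.e (nat_lit 336295) (nat_lit 15) (.e (nat_lit 3747) (nat_lit 228) (.e (nat_lit 786473) (nat_lit 27) (.e (nat_lit 343808) (nat_lit 10) (.e (nat_lit 344160) (nat_lit 37) (.e (nat_lit 647203) (nat_lit 14) .nil)))))))) (.g (nat_lit 5) .nil .nil)))) (.nd (nat_lit 5) 
(.lf (nat_lit 51164) (.g (nat_lit 2010) (.e (nat_lit 1349) (nat_lit 102) (.e (nat_lit 286748) (nat_lit 9) (.e (nat_lit 336295) (nat_lit 15) (.e (nat_lit 3305) (nat_lit 202) (.e (nat_lit 573457) (nat_lit 9) .nil))))) .nil)) 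
(.lf (nat_lit 51196) (.g (nat_lit 1095) (.e (nat_lit 1349) (nat_lit 102) (.e (nat_lit 286748) (nat_lit 9) (.e (nat_lit 336389) (nat_lit 27) (.e (nat_lit 426012) (nat_lit 0) (.e (nat_lit 7567) (nat_lit 402) .nil))))) .nil)))))) (.nd (nat_lit 2) (.nd (nat_lit 3) (.nd (nat_lit 4) (.nd (nat_lit 5) 
(.lf (nat_lit 51138) (.g (nat_lit 2140) (.e (nat_lit 1349) (nat_lit 102) (.e (nat_lit 286748) (nat_lit 9) (.e (nat_lit 336028) (nat_lit 3) (.e (nat_lit 98366) (nat_lit 27) (.e (nat_lit 434209) (nat_lit 18) (.e (nat_lit 5223) (nat_lit 296) (.e (nat_lit 163871) (nat_lit 2) (.e (nat_lit 196691) (nat_lit 18) .nil)))))))) (.g (nat_lit 4) .nil .nil))) 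
(.lf (nat_lit 51170) (.g (nat_lit 3023) (.e (nat_lit 1349) (nat_lit 102) (.e (nat_lit 286748) (nat_lit 9) (.e (nat_lit 336295) (nat_lit 15) (.e (nat_lit 3305) (nat_lit 202) (.e (nat_lit 573493) (nat_lit 15) (.e (nat_lit 81962) (nat_lit 25) (.e (nat_lit 147200) (nat_lit 18) .nil))))))) (.g (nat_lit 5) .nil .nil)))) (.nd (nat_lit 5) 
(.lf (nat_lit 51154) (.g (nat_lit 2333) (.e (nat_lit 1349) (nat_lit 102) (.e (nat_lit 286748) (nat_lit 9) (.e (nat_lit 336295) (nat_lit 15) (.e (nat_lit 3230) (nat_lit 197) (.e (nat_lit 532514) (nat_lit 3) (.e (nat_lit 114712) (nat_lit 21) (.e (nat_lit 57692) (nat_lit 156) (.e (nat_lit 163871) (nat_lit 2) (.e (nat_lit 196691) (nat_lit 18) .nil))))))))) (.g (nat_lit 5) .nil .nil))) 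
(.lf (nat_lit 51186) (.g (nat_lit 2355) (.e (nat_lit 1349) (nat_lit 102) (.e (nat_lit 286748) (nat_lit 9) (.e (nat_lit 336295) (nat_lit 15) (.e (nat_lit 3748) (nat_lit 228) (.e (nat_lit 786470) (nat_lit 27) (.e (nat_lit 336173) (nat_lit 10) (.e (nat_lit 344160) (nat_lit 37) (.e (nat_lit 647203) (nat_lit 14) .nil)))))))) (.g (nat_lit 4) .nil .nil))))) (.nd (nat_lit 4) (.nd (nat_lit 5) 
(.lf (nat_lit 51146) (.g (nat_lit 4700) (.e (nat_lit 1349) (nat_lit 102) (.e (nat_lit 286748) (nat_lit 9) (.e (nat_lit 336028) (nat_lit 3) (.e (nat_lit 98367) (nat_lit 27) (.e (nat_lit 434275) (nat_lit 39) (.e (nat_lit 663585) (nat_lit 12) (.e (nat_lit 163977) (nat_lit 30) (.e (nat_lit 573503) (nat_lit 18) .nil)))))))) (.g (nat_lit 7) .nil .nil))) 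
(.lf (nat_lit 51178) (.g (nat_lit 1222) (.e (nat_lit 1349) (nat_lit 102) (.e (nat_lit 286748) (nat_lit 9) (.e (nat_lit 336295) (nat_lit 15) (.e (nat_lit 3733) (nat_lit 228) .nil)))) .nil))) (.nd (nat_lit 5) 
(.lf (nat_lit 51162) (.g (nat_lit 2863) (.e (nat_lit 1349) (nat_lit 102) (.e (nat_lit 286748) (nat_lit 9) (.e (nat_lit 336295) (nat_lit 15) (.e (nat_lit 3305) (nat_lit 202) (.e (nat_lit 573456) (nat_lit 9) (.e (nat_lit 1449) (nat_lit 108) (.e (nat_lit 336099) (nat_lit 9) (.e (nat_lit 336013) (nat_lit 2) (.e (nat_lit 98048) (nat_lit 18) .nil))))))))) (.g (nat_lit 5) .nil .nil))) 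
(.lf (nat_lit 51194) (.g (nat_lit 1137) (.e (nat_lit 1349) (nat_lit 102) (.e (nat_lit 286748) (nat_lit 9) (.e (nat_lit 336389) (nat_lit 27) (.e (nat_lit 426012) (nat_lit 0) (.e (nat_lit 7511) (nat_lit 402) .nil))))) .nil))))) (.nd (nat_lit 3) (.nd (nat_lit 4) (.nd (nat_lit 5) 
(.lf (nat_lit 51142) (.g (nat_lit 3143) (.e (nat_lit 1349) (nat_lit 102) (.e (nat_lit 286748) (nat_lit 9) (.e (nat_lit 336028) (nat_lit 3) (.e (nat_lit 98367) (nat_lit 27) (.e (nat_lit 434209) (nat_lit 18) (.e (nat_lit 5223) (nat_lit 296) (.e (nat_lit 163871) (nat_lit 2) (.e (nat_lit 196691) (nat_lit 18) .nil)))))))) (.g (nat_lit 5) .nil .nil))) 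
(.lf (nat_lit 51174) (.g (nat_lit 1952) (.e (nat_lit 1349) (nat_lit 102) (.e (nat_lit 286748) (nat_lit 9) (.e (nat_lit 336295) (nat_lit 15) (.e (nat_lit 3632) (nat_lit 227) (.e (nat_lit 778321) (nat_lit 4) .nil))))) .nil))) (.nd (nat_lit 5) 
(.lf (nat_lit 51158) (.g (nat_lit 2831) (.e (nat_lit 1349) (nat_lit 102) (.e (nat_lit 286748) (nat_lit 9) (.e (nat_lit 336295) (nat_lit 15) (.e (nat_lit 3253) (nat_lit 197) (.e (nat_lit 532515) (nat_lit 3) (.e (nat_lit 114712) (nat_lit 21) (.e (nat_lit 57692) (nat_lit 156) (.e (nat_lit 163869) (nat_lit 2) (.e (nat_lit 196691) (nat_lit 18) .nil))))))))) (.g (nat_lit 5) .nil .nil))) 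
(.lf (nat_lit 51190) (.g (nat_lit 1386) (.e (nat_lit 1349) (nat_lit 102) (.e (nat_lit 286748) (nat_lit 9) (.e (nat_lit 336389) (nat_lit 27) (.e (nat_lit 426003) (nat_lit 0) .nil)))) .nil)))) (.nd (nat_lit 4) (.nd (nat_lit 5) 
(.lf (nat_lit 51150) (.g (nat_lit 1889) (.e (nat_lit 1349) (nat_lit 102) (.e (nat_lit 286748) (nat_lit 9) (.e (nat_lit 336295) (nat_lit 15) (.e (nat_lit 2505) (nat_lit 157) (.e (nat_lit 4211) (nat_lit 251) (.e (nat_lit 1221) (nat_lit 90) (.e (nat_lit 81953) (nat_lit 22) (.e (nat_lit 98048) (nat_lit 18) .nil)))))))) (.g (nat_lit 4) .nil .nil))) 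
(.lf (nat_lit 51182) (.g (nat_lit 1810) (.e (nat_lit 1349) (nat_lit 102) (.e (nat_lit 286748) (nat_lit 9) (.e (nat_lit 336295) (nat_lit 15) (.e (nat_lit 3747) (nat_lit 228) (.e (nat_lit 786483) (nat_lit 30) (.e (nat_lit 360483) (nat_lit 15) (.e (nat_lit 647203) (nat_lit 14) .nil))))))) (.g (nat_lit 4) .nil .nil)))) (.nd (nat_lit 5) 
(.lf (nat_lit 51166) (.g (nat_lit 2397) (.e (nat_lit 1349) (nat_lit 102) (.e (nat_lit 286748) (nat_lit 9) (.e (nat_lit 336295) (nat_lit 15) (.e (nat_lit 3305) (nat_lit 202) (.e (nat_lit 573479) (nat_lit 13) (.e (nat_lit 65598) (nat_lit 9) (.e (nat_lit 336013) (nat_lit 2) (.e (nat_lit 98048) (nat_lit 18) .nil)))))))) (.g (nat_lit 4) .nil .nil))) 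
(.lf (nat_lit 51198) (.g (nat_lit 1451) (.e (nat_lit 1349) (nat_lit 102) (.e (nat_lit 286748) (nat_lit 9) (.e (nat_lit 336389) (nat_lit 27) (.e (nat_lit 426035) (nat_lit 0) .nil)))) .nil))))))) (.nd (nat_lit 1) (.nd (nat_lit 2) (.nd (nat_lit 3) (.nd (nat_lit 4) (.nd (nat_lit 5) 
(.lf (nat_lit 51137) (.g (nat_lit 2756) (.e (nat_lit 1349) (nat_lit 102) (.e (nat_lit 286748) (nat_lit 9) (.e (nat_lit 336028) (nat_lit 3) (.e (nat_lit 98366) (nat_lit 27) (.e (nat_lit 434209) (nat_lit 18) (.e (nat_lit 5223) (nat_lit 296) (.e (nat_lit 163868) (nat_lit 2) (.e (nat_lit 196691) (nat_lit 18) .nil)))))))) (.g (nat_lit 5) .nil .nil))) 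
(.lf (nat_lit 51169) (.g (nat_lit 3445) (.e (nat_lit 1349) (nat_lit 102) (.e (nat_lit 286748) (nat_lit 9) (.e (nat_lit 336295) (nat_lit 15) (.e (nat_lit 3305) (nat_lit 202) (.e (nat_lit 573491) (nat_lit 15) (.e (nat_lit 81960) (nat_lit 25) (.e (nat_lit 139299) (nat_lit 18) .nil))))))) (.g (nat_lit 6) .nil .nil)))) (.nd (nat_lit 5) 
(.lf (nat_lit 51153) (.g (nat_lit 2412) (.e (nat_lit 1349) (nat_lit 102) (.e (nat_lit 286748) (nat_lit 9) (.e (nat_lit 336295) (nat_lit 15) (.e (nat_lit 7936) (nat_lit 195) (.e (nat_lit 516151) (nat_lit 9) (.e (nat_lit 426211) (nat_lit 9) (.e (nat_lit 426025) (nat_lit 0) (.e (nat_lit 3480) (nat_lit 218) (.e (nat_lit 704826) (nat_lit 14) .nil))))))))) (.g (nat_lit 6) .nil .nil))) 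
(.lf (nat_lit 51185) (.g (nat_lit 2429) (.e (nat_lit 1349) (nat_lit 102) (.e (nat_lit 286748) (nat_lit 9) (.e (nat_lit 336295) (nat_lit 15) (.e (nat_lit 3748) (nat_lit 228) (.e (nat_lit 786470) (nat_lit 27) (.e (nat_lit 336172) (nat_lit 10) (.e (nat_lit 344160) (nat_lit 37) (.e (nat_lit 647203) (nat_lit 14) .nil)))))))) (.g (nat_lit 5) .nil .nil))))) (.nd (nat_lit 4) (.nd (nat_lit 5) 
(.lf (nat_lit 51145) (.g (nat_lit 4475) (.e (nat_lit 1349) (nat_lit 102) (.e (nat_lit 286748) (nat_lit 9) (.e (nat_lit 336028) (nat_lit 3) (.e (nat_lit 98367) (nat_lit 27) (.e (nat_lit 434275) (nat_lit 39) (.e (nat_lit 663584) (nat_lit 12) (.e (nat_lit 163976) (nat_lit 30) (.e (nat_lit 573503) (nat_lit 18) .nil)))))))) (.g (nat_lit 6) .nil .nil))) 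
(.lf (nat_lit 51177) (.g (nat_lit 2391) (.e (nat_lit 1349) (nat_lit 102) (.e (nat_lit 286748) (nat_lit 9) (.e (nat_lit 336295) (nat_lit 15) (.e (nat_lit 3632) (nat_lit 227) (.e (nat_lit 786176) (nat_lit 4) (.e (nat_lit 65619) (nat_lit 10) (.e (nat_lit 344160) (nat_lit 37) (.e (nat_lit 647203) (nat_lit 14) .nil)))))))) (.g (nat_lit 4) .nil .nil)))) (.nd (nat_lit 5) 
(.lf (nat_lit 51161) (.g (nat_lit 2916) (.e (nat_lit 1349) (nat_lit 102) (.e (nat_lit 286748) (nat_lit 9) (.e (nat_lit 336295) (nat_lit 15) (.e (nat_lit 3305) (nat_lit 202) (.e (nat_lit 573456) (nat_lit 9) (.e (nat_lit 1443) (nat_lit 108) (.e (nat_lit 336099) (nat_lit 9) (.e (nat_lit 336013) (nat_lit 2) (.e (nat_lit 98048) (nat_lit 18) .nil))))))))) (.g (nat_lit 5) .nil .nil))) 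
(.lf (nat_lit 51193) (.g (nat_lit 1309) (.e (nat_lit 1349) (nat_lit 102) (.e (nat_lit 286748) (nat_lit 9) (.e (nat_lit 336389) (nat_lit 27) (.e (nat_lit 426012) (nat_lit 0) (.e (nat_lit 7507) (nat_lit 402) (.e (nat_lit 1515) (nat_lit 108) (.e (nat_lit 336241) (nat_lit 15) (.e (nat_lit 7064) (nat_lit 377) .nil)))))))) (.g (nat_lit 4) .nil .nil)))))) 
(.nd (nat_lit 3) (.nd (nat_lit 4) (.nd (nat_lit 5) 
(.lf (nat_lit 51141) (.g (nat_lit 2021) (.e (nat_lit 1349) (nat_lit 102) (.e (nat_lit 286748) (nat_lit 9) (.e (nat_lit 336028) (nat_lit 3) (.e (nat_lit 98366) (nat_lit 27) (.e (nat_lit 434276) (nat_lit 39) (.e (nat_lit 663585) (nat_lit 12) (.e (nat_lit 163977) (nat_lit 30) (.e (nat_lit 573503) (nat_lit 18) .nil)))))))) (.g (nat_lit 4) .nil .nil))) 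
(.lf (nat_lit 51173) (.g (nat_lit 2105) (.e (nat_lit 1349) (nat_lit 102) (.e (nat_lit 286748) (nat_lit 9) (.e (nat_lit 336295) (nat_lit 15) (.e (nat_lit 3632) (nat_lit 227) (.e (nat_lit 778253) (nat_lit 0) .nil))))) .nil))) (.nd (nat_lit 5) 
(.lf (nat_lit 51157) (.g (nat_lit 2754) (.e (nat_lit 1349) (nat_lit 102) (.e (nat_lit 286748) (nat_lit 9) (.e (nat_lit 336295) (nat_lit 15) (.e (nat_lit 3253) (nat_lit 197) (.e (nat_lit 532515) (nat_lit 3) (.e (nat_lit 114712) (nat_lit 21) (.e (nat_lit 57691) (nat_lit 156) (.e (nat_lit 163871) (nat_lit 2) (.e (nat_lit 196691) (nat_lit 18) .nil))))))))) (.g (nat_lit 5) .nil .nil))) 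
(.lf (nat_lit 51189) (.g (nat_lit 147) (.e (nat_lit 1349) (nat_lit 102) (.e (nat_lit 286748) (nat_lit 9) (.e (nat_lit 336389) (nat_lit 27) .nil))) .nil)))) (.nd (nat_lit 4) (.nd (nat_lit 5) 
(.lf (nat_lit 51149) (.g (nat_lit 202) (.e (nat_lit 1349) (nat_lit 102) (.e (nat_lit 286748) (nat_lit 9) (.e (nat_lit 336295) (nat_lit 15) .nil))) .nil)) 
(.lf (nat_lit 51181) (.g (nat_lit 1852) (.e (nat_lit 1349) (nat_lit 102) (.e (nat_lit 286748) (nat_lit 9) (.e (nat_lit 336295) (nat_lit 15) (.e (nat_lit 3747) (nat_lit 228) (.e (nat_lit 786481) (nat_lit 30) (.e (nat_lit 360482) (nat_lit 15) (.e (nat_lit 647203) (nat_lit 14) .nil))))))) (.g (nat_lit 4) .nil .nil)))) (.nd (nat_lit 5) 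
(.lf (nat_lit 51165) (.g (nat_lit 2332) (.e (nat_lit 1349) (nat_lit 102) (.e (nat_lit 286748) (nat_lit 9) (.e (nat_lit 336295) (nat_lit 15) (.e (nat_lit 3305) (nat_lit 202) (.e (nat_lit 573457) (nat_lit 9) (.e (nat_lit 1449) (nat_lit 108) (.e (nat_lit 336099) (nat_lit 9) (.e (nat_lit 336013) (nat_lit 2) (.e (nat_lit 98048) (nat_lit 18) .nil))))))))) (.g (nat_lit 4) .nil .nil))) 
(.lf (nat_lit 51197) (.g (nat_lit 1464) (.e (nat_lit 1349) (nat_lit 102) (.e (nat_lit 286748) (nat_lit 9) (.e (nat_lit 336389) (nat_lit 27) (.e (nat_lit 426027) (nat_lit 0) .nil)))) .nil)))))) (.nd (nat_lit 2) (.nd (nat_lit 3) (.nd (nat_lit 4) (.nd (nat_lit 5) 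
(.lf (nat_lit 51139) (.g (nat_lit 2746) (.e (nat_lit 1349) (nat_lit 102) (.e (nat_lit 286748) (nat_lit 9) (.e (nat_lit 336028) (nat_lit 3) (.e (nat_lit 98366) (nat_lit 27) (.e (nat_lit 434209) (nat_lit 18) (.e (nat_lit 5224) (nat_lit 296) (.e (nat_lit 163871) (nat_lit 2) (.e (nat_lit 196691) (nat_lit 18) .nil)))))))) (.g (nat_lit 5) .nil .nil))) 
(.lf (nat_lit 51171) (.g (nat_lit 2241) (.e (nat_lit 1349) (nat_lit 102) (.e (nat_lit 286748) (nat_lit 9) (.e (nat_lit 336295) (nat_lit 15) (.e (nat_lit 3305) (nat_lit 202) (.e (nat_lit 581376) (nat_lit 15) (.e (nat_lit 81953) (nat_lit 22) (.e (nat_lit 98048) (nat_lit 18) .nil))))))) (.g (nat_lit 4) .nil .nil)))) (.nd (nat_lit 5) 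
(.lf (nat_lit 51155) (.g (nat_lit 1453) (.e (nat_lit 1349) (nat_lit 102) (.e (nat_lit 286748) (nat_lit 9) (.e (nat_lit 336295) (nat_lit 15) (.e (nat_lit 3251) (nat_lit 197) .nil)))) .nil)) 
(.lf (nat_lit 51187) (.g (nat_lit 2058) (.e (nat_lit 1349) (nat_lit 102) (.e (nat_lit 286748) (nat_lit 9) (.e (nat_lit 336295) (nat_lit 15) (.e (nat_lit 3748) (nat_lit 228) (.e (nat_lit 786470) (nat_lit 27) (.e (nat_lit 336176) (nat_lit 10) (.e (nat_lit 344161) (nat_lit 37) (.e (nat_lit 647203) (nat_lit 14) .nil)))))))) (.g (nat_lit 4) .nil .nil))))) (.nd (nat_lit 4) (.nd (nat_lit 5) 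
(.lf (nat_lit 51147) (.g (nat_lit 2709) (.e (nat_lit 1349) (nat_lit 102) (.e (nat_lit 286748) (nat_lit 9) (.e (nat_lit 336028) (nat_lit 3) (.e (nat_lit 98367) (nat_lit 27) (.e (nat_lit 434275) (nat_lit 39) (.e (nat_lit 663585) (nat_lit 12) (.e (nat_lit 163979) (nat_lit 30) (.e (nat_lit 573503) (nat_lit 18) .nil)))))))) (.g (nat_lit 4) .nil .nil))) 
(.lf (nat_lit 51179) (.g (nat_lit 3509) (.e (nat_lit 1349) (nat_lit 102) (.e (nat_lit 286748) (nat_lit 9) (.e (nat_lit 336295) (nat_lit 15) (.e (nat_lit 3733) (nat_lit 228) (.e (nat_lit 786483) (nat_lit 30) (.e (nat_lit 360484) (nat_lit 15) (.e (nat_lit 647203) (nat_lit 14) .nil))))))) (.g (nat_lit 7) .nil .nil)))) (.nd (nat_lit 5) 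
(.lf (nat_lit 51163) (.g (nat_lit 2979) (.e (nat_lit 1349) (nat_lit 102) (.e (nat_lit 286748) (nat_lit 9) (.e (nat_lit 336295) (nat_lit 15) (.e (nat_lit 3305) (nat_lit 202) (.e (nat_lit 573456) (nat_lit 9) (.e (nat_lit 1455) (nat_lit 108) (.e (nat_lit 336099) (nat_lit 9) (.e (nat_lit 336013) (nat_lit 2) (.e (nat_lit 98048) (nat_lit 18) .nil))))))))) (.g (nat_lit 5) .nil .nil))) 
(.lf (nat_lit 51195) (.g (nat_lit 1246) (.e (nat_lit 1349) (nat_lit 102) (.e (nat_lit 286748) (nat_lit 9) (.e (nat_lit 336389) (nat_lit 27) (.e (nat_lit 426012) (nat_lit 0) (.e (nat_lit 7565) (nat_lit 402) (.e (nat_lit 1512) (nat_lit 108) (.e (nat_lit 336241) (nat_lit 15) (.e (nat_lit 7064) (nat_lit 377) .nil)))))))) (.g (nat_lit 4) .nil .nil)))))) 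
(.nd (nat_lit 3) (.nd (nat_lit 4) (.nd (nat_lit 5) 
(.lf (nat_lit 51143) (.g (nat_lit 3478) (.e (nat_lit 1349) (nat_lit 102) (.e (nat_lit 286748) (nat_lit 9) (.e (nat_lit 336028) (nat_lit 3) (.e (nat_lit 98367) (nat_lit 27) (.e (nat_lit 434209) (nat_lit 18) (.e (nat_lit 5224) (nat_lit 296) (.e (nat_lit 163868) (nat_lit 2) (.e (nat_lit 196691) (nat_lit 18) .nil)))))))) (.g (nat_lit 5) .nil .nil))) 
(.lf (nat_lit 51175) (.g (nat_lit 2300) (.e (nat_lit 1349) (nat_lit 102) (.e (nat_lit 286748) (nat_lit 9) (.e (nat_lit 336295) (nat_lit 15) (.e (nat_lit 3632) (nat_lit 227) (.e (nat_lit 778321) (nat_lit 4) (.e (nat_lit 65609) (nat_lit 10) (.e (nat_lit 344160) (nat_lit 37) (.e (nat_lit 647203) (nat_lit 14) .nil)))))))) (.g (nat_lit 4) .nil .nil)))) (.nd (nat_lit 5) 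
(.lf (nat_lit 51159) (.g (nat_lit 2269) (.e (nat_lit 1349) (nat_lit 102) (.e (nat_lit 286748) (nat_lit 9) (.e (nat_lit 336295) (nat_lit 15) (.e (nat_lit 3253) (nat_lit 197) (.e (nat_lit 532515) (nat_lit 3) (.e (nat_lit 114712) (nat_lit 21) (.e (nat_lit 57692) (nat_lit 156) (.e (nat_lit 163871) (nat_lit 2) (.e (nat_lit 196691) (nat_lit 18) .nil))))))))) (.g (nat_lit 4) .nil .nil))) 
(.lf (nat_lit 51191) (.g (nat_lit 1632) (.e (nat_lit 1349) (nat_lit 102) (.e (nat_lit 286748) (nat_lit 9) (.e (nat_lit 336389) (nat_lit 27) (.e (nat_lit 426012) (nat_lit 0) (.e (nat_lit 7502) (nat_lit 402) (.e (nat_lit 1512) (nat_lit 108) (.e (nat_lit 336241) (nat_lit 15) (.e (nat_lit 7064) (nat_lit 377) .nil)))))))) (.g (nat_lit 4) .nil .nil))))) (.nd (nat_lit 4) (.nd (nat_lit 5) 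
(.lf (nat_lit 51151) (.g (nat_lit 840) (.e (nat_lit 1349) (nat_lit 102) (.e (nat_lit 286748) (nat_lit 9) (.e (nat_lit 336295) (nat_lit 15) (.e (nat_lit 7936) (nat_lit 193) .nil)))) .nil)) 
(.lf (nat_lit 51183) (.g (nat_lit 1239) (.e (nat_lit 1349) (nat_lit 102) (.e (nat_lit 286748) (nat_lit 9) (.e (nat_lit 336295) (nat_lit 15) (.e (nat_lit 3748) (nat_lit 228) .nil)))) .nil))) (.nd (nat_lit 5) 
(.lf (nat_lit 51167) (.g (nat_lit 4670) (.e (nat_lit 1349) (nat_lit 102) (.e (nat_lit 286748) (nat_lit 9) (.e (nat_lit 336295) (nat_lit 15) (.e (nat_lit 3305) (nat_lit 202) (.e (nat_lit 573482) (nat_lit 13) (.e (nat_lit 65598) (nat_lit 9) (.e (nat_lit 336013) (nat_lit 2) (.e (nat_lit 98048) (nat_lit 18) .nil)))))))) (.g (nat_lit 6) .nil .nil))) 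
(.lf (nat_lit 51199) (.g (nat_lit 1508) (.e (nat_lit 1349) (nat_lit 102) (.e (nat_lit 286748) (nat_lit 9) (.e (nat_lit 336389) (nat_lit 27) (.e (nat_lit 426051) (nat_lit 0) .nil)))) .nil))))))))

noncomputable def tv712 : DT := (.nd (nat_lit 0) (.nd (nat_lit 1) (.nd (nat_lit 2) (.nd (nat_lit 3) (.nd (nat_lit 4) (.nd (nat_lit 5) 
(.lf (nat_lit 51200) (.g (nat_lit 1424) (.e (nat_lit 1349) (nat_lit 102) (.e (nat_lit 286748) (nat_lit 9) (.e (nat_lit 336389) (nat_lit 27) (.e (nat_lit 426052) (nat_lit 0) .nil)))) .nil)) 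
(.lf (nat_lit 51232) (.g (nat_lit 2643) (.e (nat_lit 1349) (nat_lit 102) (.e (nat_lit 286748) (nat_lit 9) (.e (nat_lit 336389) (nat_lit 27) (.e (nat_lit 426308) (nat_lit 12) (.e (nat_lit 475216) (nat_lit 44) (.e (nat_lit 737284) (nat_lit 0) (.e (nat_lit 4965) (nat_lit 287) .nil))))))) (.g (nat_lit 0) .nil .nil)))) (.nd (nat_lit 5) 
(.lf (nat_lit 51216) (.g (nat_lit 2208) (.e (nat_lit 1349) (nat_lit 102) (.e (nat_lit 286748) (nat_lit 9) (.e (nat_lit 336389) (nat_lit 27) (.e (nat_lit 426305) (nat_lit 12) (.e (nat_lit 475219) (nat_lit 44) .nil))))) .nil)) 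
(.lf (nat_lit 51248) (.g (nat_lit 1766) (.e (nat_lit 1349) (nat_lit 102) (.e (nat_lit 286748) (nat_lit 9) (.e (nat_lit 336389) (nat_lit 27) (.e (nat_lit 426343) (nat_lit 14) (.e (nat_lit 491549) (nat_lit 9) .nil))))) .nil)))) (.nd (nat_lit 4) (.nd (nat_lit 5) 
(.lf (nat_lit 51208) (.g (nat_lit 2114) (.e (nat_lit 1349) (nat_lit 102) (.e (nat_lit 286748) (nat_lit 9) (.e (nat_lit 336389) (nat_lit 27) (.e (nat_lit 426190) (nat_lit 9) (.e (nat_lit 426141) (nat_lit 4) (.e (nat_lit 229678) (nat_lit 244) (.e (nat_lit 163842) (nat_lit 0) (.e (nat_lit 7065) (nat_lit 377) .nil)))))))) (.g (nat_lit 4) .nil .nil))) 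
(.lf (nat_lit 51240) (.g (nat_lit 2494) (.e (nat_lit 1349) (nat_lit 102) (.e (nat_lit 286748) (nat_lit 9) (.e (nat_lit 336389) (nat_lit 27) (.e (nat_lit 426316) (nat_lit 12) (.e (nat_lit 475220) (nat_lit 44) .nil))))) .nil))) (.nd (nat_lit 5) 
(.lf (nat_lit 51224) (.g (nat_lit 2955) (.e (nat_lit 1349) (nat_lit 102) (.e (nat_lit 286748) (nat_lit 9) (.e (nat_lit 336389) (nat_lit 27) (.e (nat_lit 426306) (nat_lit 12) (.e (nat_lit 475220) (nat_lit 44) (.e (nat_lit 737281) (nat_lit 0) (.e (nat_lit 4965) (nat_lit 287) .nil))))))) (.g (nat_lit 5) .nil .nil))) 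
(.lf (nat_lit 51256) (.g (nat_lit 2855) (.e (nat_lit 1349) (nat_lit 102) (.e (nat_lit 286748) (nat_lit 9) (.e (nat_lit 336389) (nat_lit 27) (.e (nat_lit 426343) (nat_lit 14) (.e (nat_lit 491565) (nat_lit 12) (.e (nat_lit 392960) (nat_lit 16) .nil)))))) (.g (nat_lit 5) .nil .nil)))))) (.nd (nat_lit 3) (.nd (nat_lit 4) (.nd (nat_lit 5) 
(.lf (nat_lit 51204) (.g (nat_lit 1362) (.e (nat_lit 1349) (nat_lit 102) (.e (nat_lit 286748) (nat_lit 9) (.e (nat_lit 336389) (nat_lit 27) (.e (nat_lit 426180) (nat_lit 8) .nil)))) .nil)) 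
(.lf (nat_lit 51236) (.g (nat_lit 1464) (.e (nat_lit 1349) (nat_lit 102) (.e (nat_lit 286748) (nat_lit 9) (.e (nat_lit 336389) (nat_lit 27) (.e (nat_lit 426314) (nat_lit 12) .nil)))) .nil))) (.nd (nat_lit 5) 
(.lf (nat_lit 51220) (.g (nat_lit 2350) (.e (nat_lit 1349) (nat_lit 102) (.e (nat_lit 286748) (nat_lit 9) (.e (nat_lit 336389) (nat_lit 27) (.e (nat_lit 426306) (nat_lit 12) (.e (nat_lit 475216) (nat_lit 44) .nil))))) .nil)) 
(.lf (nat_lit 51252) (.g (nat_lit 2338) (.e (nat_lit 1349) (nat_lit 102) (.e (nat_lit 286748) (nat_lit 9) (.e (nat_lit 336389) (nat_lit 27) (.e (nat_lit 426343) (nat_lit 14) (.e (nat_lit 491552) (nat_lit 9) (.e (nat_lit 336248) (nat_lit 15) (.e (nat_lit 7065) (nat_lit 377) .nil))))))) (.g (nat_lit 4) .nil .nil))))) (.nd (nat_lit 4) (.nd (nat_lit 5) 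
(.lf (nat_lit 51212) (.g (nat_lit 3143) (.e (nat_lit 1349) (nat_lit 102) (.e (nat_lit 286748) (nat_lit 9) (.e (nat_lit 336389) (nat_lit 27) (.e (nat_lit 426222) (nat_lit 9) (.e (nat_lit 426144) (nat_lit 4) (.e (nat_lit 229678) (nat_lit 244) (.e (nat_lit 163842) (nat_lit 0) (.e (nat_lit 7065) (nat_lit 377) .nil)))))))) (.g (nat_lit 6) .nil .nil))) 
(.lf (nat_lit 51244) (.g (nat_lit 869) (.e (nat_lit 1349) (nat_lit 102) (.e (nat_lit 286748) (nat_lit 9) (.e (nat_lit 336389) (nat_lit 27) (.e (nat_lit 426343) (nat_lit 14) .nil)))) .nil))) (.nd (nat_lit 5) 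
(.lf (nat_lit 51228) (.g (nat_lit 2040) (.e (nat_lit 1349) (nat_lit 102) (.e (nat_lit 286748) (nat_lit 9) (.e (nat_lit 336389) (nat_lit 27) (.e (nat_lit 426308) (nat_lit 12) (.e (nat_lit 475207) (nat_lit 41) (.e (nat_lit 712716) (nat_lit 15) (.e (nat_lit 7065) (nat_lit 377) .nil))))))) (.g (nat_lit 4) .nil .nil))) 
(.lf (nat_lit 51260) (.g (nat_lit 1258) (.e (nat_lit 1349) (nat_lit 102) (.e (nat_lit 286748) (nat_lit 9) (.e (nat_lit 336389) (nat_lit 27) (.e (nat_lit 433920) (nat_lit 14) .nil)))) .nil)))))) (.nd (nat_lit 2) (.nd (nat_lit 3) (.nd (nat_lit 4) (.nd (nat_lit 5) 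
(.lf (nat_lit 51202) (.g (nat_lit 1258) (.e (nat_lit 1349) (nat_lit 102) (.e (nat_lit 286748) (nat_lit 9) (.e (nat_lit 336389) (nat_lit 27) (.e (nat_lit 433920) (nat_lit 0) .nil)))) .nil)) 
(.lf (nat_lit 51234) (.g (nat_lit 1906) (.e (nat_lit 1349) (nat_lit 102) (.e (nat_lit 286748) (nat_lit 9) (.e (nat_lit 336389) (nat_lit 27) (.e (nat_lit 426308) (nat_lit 12) (.e (nat_lit 475219) (nat_lit 44) (.e (nat_lit 737281) (nat_lit 0) (.e (nat_lit 4965) (nat_lit 287) .nil))))))) (.g (nat_lit 4) .nil .nil)))) (.nd (nat_lit 5) 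
(.lf (nat_lit 51218) (.g (nat_lit 2838) (.e (nat_lit 1349) (nat_lit 102) (.e (nat_lit 286748) (nat_lit 9) (.e (nat_lit 336389) (nat_lit 27) (.e (nat_lit 426305) (nat_lit 12) (.e (nat_lit 475220) (nat_lit 44) (.e (nat_lit 737281) (nat_lit 0) (.e (nat_lit 4965) (nat_lit 287) .nil))))))) (.g (nat_lit 5) .nil .nil))) 
(.lf (nat_lit 51250) (.g (nat_lit 1823) (.e (nat_lit 1349) (nat_lit 102) (.e (nat_lit 286748) (nat_lit 9) (.e (nat_lit 336389) (nat_lit 27) (.e (nat_lit 426343) (nat_lit 14) (.e (nat_lit 491552) (nat_lit 9) .nil))))) .nil)))) (.nd (nat_lit 4) (.nd (nat_lit 5) 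
(.lf (nat_lit 51210) (.g (nat_lit 1724) (.e (nat_lit 1349) (nat_lit 102) (.e (nat_lit 286748) (nat_lit 9) (.e (nat_lit 336389) (nat_lit 27) (.e (nat_lit 426204) (nat_lit 9) (.e (nat_lit 426025) (nat_lit 0) .nil))))) .nil)) 
(.lf (nat_lit 51242) (.g (nat_lit 2385) (.e (nat_lit 1349) (nat_lit 102) (.e (nat_lit 286748) (nat_lit 9) (.e (nat_lit 336389) (nat_lit 27) (.e (nat_lit 426341) (nat_lit 14) (.e (nat_lit 491565) (nat_lit 12) (.e (nat_lit 392960) (nat_lit 16) .nil)))))) (.g (nat_lit 5) .nil .nil)))) (.nd (nat_lit 5) 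
(.lf (nat_lit 51226) (.g (nat_lit 2024) (.e (nat_lit 1349) (nat_lit 102) (.e (nat_lit 286748) (nat_lit 9) (.e (nat_lit 336389) (nat_lit 27) (.e (nat_lit 426307) (nat_lit 12) (.e (nat_lit 475216) (nat_lit 44) (.e (nat_lit 737283) (nat_lit 0) (.e (nat_lit 4965) (nat_lit 287) .nil))))))) (.g (nat_lit 4) .nil .nil))) 
(.lf (nat_lit 51258) (.g (nat_lit 3560) (.e (nat_lit 1349) (nat_lit 102) (.e (nat_lit 286748) (nat_lit 9) (.e (nat_lit 336389) (nat_lit 27) (.e (nat_lit 426344) (nat_lit 14) (.e (nat_lit 491556) (nat_lit 9) (.e (nat_lit 336241) (nat_lit 15) (.e (nat_lit 7064) (nat_lit 377) .nil))))))) (.g (nat_lit 0) .nil .nil)))))) (.nd (nat_lit 3) (.nd (nat_lit 4) (.nd (nat_lit 5) 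
(.lf (nat_lit 51206) (.g (nat_lit 2086) (.e (nat_lit 1349) (nat_lit 102) (.e (nat_lit 286748) (nat_lit 9) (.e (nat_lit 336389) (nat_lit 27) (.e (nat_lit 426185) (nat_lit 9) (.e (nat_lit 426142) (nat_lit 4) (.e (nat_lit 229678) (nat_lit 244) (.e (nat_lit 163842) (nat_lit 0) (.e (nat_lit 7065) (nat_lit 377) .nil)))))))) (.g (nat_lit 4) .nil .nil))) 
(.lf (nat_lit 51238) (.g (nat_lit 2564) (.e (nat_lit 1349) (nat_lit 102) (.e (nat_lit 286748) (nat_lit 9) (.e (nat_lit 336389) (nat_lit 27) (.e (nat_lit 426315) (nat_lit 12) (.e (nat_lit 475216) (nat_lit 44) (.e (nat_lit 737284) (nat_lit 0) (.e (nat_lit 4965) (nat_lit 287) .nil))))))) (.g (nat_lit 5) .nil .nil)))) (.nd (nat_lit 5) 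
(.lf (nat_lit 51222) (.g (nat_lit 2358) (.e (nat_lit 1349) (nat_lit 102) (.e (nat_lit 286748) (nat_lit 9) (.e (nat_lit 336389) (nat_lit 27) (.e (nat_lit 426306) (nat_lit 12) (.e (nat_lit 475219) (nat_lit 44) .nil))))) .nil)) 
(.lf (nat_lit 51254) (.g (nat_lit 2615) (.e (nat_lit 1349) (nat_lit 102) (.e (nat_lit 286748) (nat_lit 9) (.e (nat_lit 336389) (nat_lit 27) (.e (nat_lit 426343) (nat_lit 14) (.e (nat_lit 491562) (nat_lit 12) (.e (nat_lit 392960) (nat_lit 16) .nil)))))) (.g (nat_lit 5) .nil .nil))))) (.nd (nat_lit 4) (.nd (nat_lit 5) 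
(.lf (nat_lit 51214) (.g (nat_lit 2386) (.e (nat_lit 1349) (nat_lit 102) (.e (nat_lit 286748) (nat_lit 9) (.e (nat_lit 336389) (nat_lit 27) (.e (nat_lit 426258) (nat_lit 9) (.e (nat_lit 426147) (nat_lit 4) (.e (nat_lit 229681) (nat_lit 244) (.e (nat_lit 163842) (nat_lit 0) (.e (nat_lit 7065) (nat_lit 377) .nil)))))))) (.g (nat_lit 4) .nil .nil))) 
(.lf (nat_lit 51246) (.g (nat_lit 3580) (.e (nat_lit 1349) (nat_lit 102) (.e (nat_lit 286748) (nat_lit 9) (.e (nat_lit 336389) (nat_lit 27) (.e (nat_lit 426343) (nat_lit 14) (.e (nat_lit 491546) (nat_lit 9) (.e (nat_lit 336238) (nat_lit 15) (.e (nat_lit 7064) (nat_lit 377) .nil))))))) (.g (nat_lit 5) .nil .nil)))) (.nd (nat_lit 5) 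
(.lf (nat_lit 51230) (.g (nat_lit 1690) (.e (nat_lit 1349) (nat_lit 102) (.e (nat_lit 286748) (nat_lit 9) (.e (nat_lit 336389) (nat_lit 27) (.e (nat_lit 426308) (nat_lit 12) (.e (nat_lit 475216) (nat_lit 44) .nil))))) .nil)) 
(.lf (nat_lit 51262) (.g (nat_lit 1610) (.e (nat_lit 1349) (nat_lit 102) (.e (nat_lit 286748) (nat_lit 9) (.e (nat_lit 336389) (nat_lit 27) (.e (nat_lit 426408) (nat_lit 15) (.e (nat_lit 6216) (nat_lit 333) (.e (nat_lit 57809) (nat_lit 246) (.e (nat_lit 65280) (nat_lit 91) (.e (nat_lit 573503) (nat_lit 18) .nil)))))))) (.g (nat_lit 4) .nil .nil)))))))) 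
(.nd (nat_lit 1) (.nd (nat_lit 2) (.nd (nat_lit 3) (.nd (nat_lit 4) (.nd (nat_lit 5) 
(.lf (nat_lit 51201) (.g (nat_lit 1480) (.e (nat_lit 1349) (nat_lit 102) (.e (nat_lit 286748) (nat_lit 9) (.e (nat_lit 336389) (nat_lit 27) (.e (nat_lit 426054) (nat_lit 0) .nil)))) .nil)) 
(.lf (nat_lit 51233) (.g (nat_lit 1833) (.e (nat_lit 1349) (nat_lit 102) (.e (nat_lit 286748) (nat_lit 9) (.e (nat_lit 336389) (nat_lit 27) (.e (nat_lit 426308) (nat_lit 12) (.e (nat_lit 475218) (nat_lit 44) .nil))))) .nil))) (.nd (nat_lit 5) 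
(.lf (nat_lit 51217) (.g (nat_lit 2083) (.e (nat_lit 1349) (nat_lit 102) (.e (nat_lit 286748) (nat_lit 9) (.e (nat_lit 336389) (nat_lit 27) (.e (nat_lit 426305) (nat_lit 12) (.e (nat_lit 475220) (nat_lit 44) .nil))))) .nil)) 
(.lf (nat_lit 51249) (.g (nat_lit 3440) (.e (nat_lit 1349) (nat_lit 102) (.e (nat_lit 286748) (nat_lit 9) (.e (nat_lit 336389) (nat_lit 27) (.e (nat_lit 426343) (nat_lit 14) (.e (nat_lit 491549) (nat_lit 9) (.e (nat_lit 336242) (nat_lit 15) (.e (nat_lit 7064) (nat_lit 377) .nil))))))) (.g (nat_lit 5) .nil .nil))))) (.nd (nat_lit 4) (.nd (nat_lit 5) 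
(.lf (nat_lit 51209) (.g (nat_lit 2372) (.e (nat_lit 1349) (nat_lit 102) (.e (nat_lit 286748) (nat_lit 9) (.e (nat_lit 336389) (nat_lit 27) (.e (nat_lit 426190) (nat_lit 9) (.e (nat_lit 426148) (nat_lit 4) (.e (nat_lit 229678) (nat_lit 244) (.e (nat_lit 163842) (nat_lit 0) (.e (nat_lit 7065) (nat_lit 377) .nil)))))))) (.g (nat_lit 4) .nil .nil))) 
(.lf (nat_lit 51241) (.g (nat_lit 2737) (.e (nat_lit 1349) (nat_lit 102) (.e (nat_lit 286748) (nat_lit 9) (.e (nat_lit 336389) (nat_lit 27) (.e (nat_lit 426338) (nat_lit 14) (.e (nat_lit 491566) (nat_lit 12) (.e (nat_lit 392960) (nat_lit 16) .nil)))))) (.g (nat_lit 5) .nil .nil)))) (.nd (nat_lit 5) 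
(.lf (nat_lit 51225) (.g (nat_lit 2418) (.e (nat_lit 1349) (nat_lit 102) (.e (nat_lit 286748) (nat_lit 9) (.e (nat_lit 336389) (nat_lit 27) (.e (nat_lit 426306) (nat_lit 12) (.e (nat_lit 475220) (nat_lit 44) (.e (nat_lit 737290) (nat_lit 0) (.e (nat_lit 4961) (nat_lit 287) .nil))))))) (.g (nat_lit 4) .nil .nil))) 
(.lf (nat_lit 51257) (.g (nat_lit 2713) (.e (nat_lit 1349) (nat_lit 102) (.e (nat_lit 286748) (nat_lit 9) (.e (nat_lit 336389) (nat_lit 27) (.e (nat_lit 426344) (nat_lit 14) (.e (nat_lit 491546) (nat_lit 9) (.e (nat_lit 336242) (nat_lit 15) (.e (nat_lit 7064) (nat_lit 377) .nil))))))) (.g (nat_lit 5) .nil .nil)))))) (.nd (nat_lit 3) (.nd (nat_lit 4) (.nd (nat_lit 5) 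
(.lf (nat_lit 51205) (.g (nat_lit 1888) (.e (nat_lit 1349) (nat_lit 102) (.e (nat_lit 286748) (nat_lit 9) (.e (nat_lit 336389) (nat_lit 27) (.e (nat_lit 426182) (nat_lit 8) (.e (nat_lit 417829) (nat_lit 18) (.e (nat_lit 303149) (nat_lit 15) (.e (nat_lit 6134) (nat_lit 332) .nil))))))) (.g (nat_lit 4) .nil .nil))) 
(.lf (nat_lit 51237) (.g (nat_lit 2822) (.e (nat_lit 1349) (nat_lit 102) (.e (nat_lit 286748) (nat_lit 9) (.e (nat_lit 336389) (nat_lit 27) (.e (nat_lit 426315) (nat_lit 12) (.e (nat_lit 475216) (nat_lit 44) (.e (nat_lit 737283) (nat_lit 0) (.e (nat_lit 4965) (nat_lit 287) .nil))))))) (.g (nat_lit 6) .nil .nil)))) (.nd (nat_lit 5) 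
(.lf (nat_lit 51221) (.g (nat_lit 2635) (.e (nat_lit 1349) (nat_lit 102) (.e (nat_lit 286748) (nat_lit 9) (.e (nat_lit 336389) (nat_lit 27) (.e (nat_lit 426306) (nat_lit 12) (.e (nat_lit 475216) (nat_lit 44) (.e (nat_lit 737283) (nat_lit 0) (.e (nat_lit 4965) (nat_lit 287) .nil))))))) (.g (nat_lit 4) .nil .nil))) 
(.lf (nat_lit 51253) (.g (nat_lit 2563) (.e (nat_lit 1349) (nat_lit 102) (.e (nat_lit 286748) (nat_lit 9) (.e (nat_lit 336389) (nat_lit 27) (.e (nat_lit 426343) (nat_lit 14) (.e (nat_lit 491556) (nat_lit 9) (.e (nat_lit 343808) (nat_lit 15) (.e (nat_lit 7065) (nat_lit 377) .nil))))))) (.g (nat_lit 5) .nil .nil))))) (.nd (nat_lit 4) (.nd (nat_lit 5) 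
(.lf (nat_lit 51213) (.g (nat_lit 1464) (.e (nat_lit 1349) (nat_lit 102) (.e (nat_lit 286748) (nat_lit 9) (.e (nat_lit 336389) (nat_lit 27) (.e (nat_lit 426223) (nat_lit 9) .nil)))) .nil)) 
(.lf (nat_lit 51245) (.g (nat_lit 1760) (.e (nat_lit 1349) (nat_lit 102) (.e (nat_lit 286748) (nat_lit 9) (.e (nat_lit 336389) (nat_lit 27) (.e (nat_lit 426343) (nat_lit 14) (.e (nat_lit 491546) (nat_lit 9) .nil))))) .nil))) (.nd (nat_lit 5) 
(.lf (nat_lit 51229) (.g (nat_lit 2027) (.e (nat_lit 1349) (nat_lit 102) (.e (nat_lit 286748) (nat_lit 9) (.e (nat_lit 336389) (nat_lit 27) (.e (nat_lit 426308) (nat_lit 12) (.e (nat_lit 475209) (nat_lit 41) (.e (nat_lit 712716) (nat_lit 15) (.e (nat_lit 7065) (nat_lit 377) .nil))))))) (.g (nat_lit 4) .nil .nil))) 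
(.lf (nat_lit 51261) (.g (nat_lit 1814) (.e (nat_lit 1349) (nat_lit 102) (.e (nat_lit 286748) (nat_lit 9) (.e (nat_lit 336389) (nat_lit 27) (.e (nat_lit 426408) (nat_lit 15) (.e (nat_lit 6207) (nat_lit 333) (.e (nat_lit 57809) (nat_lit 246) (.e (nat_lit 65280) (nat_lit 91) (.e (nat_lit 573503) (nat_lit 18) .nil)))))))) (.g (nat_lit 4) .nil .nil))))))) 
(.nd (nat_lit 2) (.nd (nat_lit 3) (.nd (nat_lit 4) (.nd (nat_lit 5) 
(.lf (nat_lit 51203) (.g (nat_lit 2310) (.e (nat_lit 1349) (nat_lit 102) (.e (nat_lit 286748) (nat_lit 9) (.e (nat_lit 336389) (nat_lit 27) (.e (nat_lit 426166) (nat_lit 7) (.e (nat_lit 409645) (nat_lit 18) (.e (nat_lit 303149) (nat_lit 15) (.e (nat_lit 6134) (nat_lit 332) .nil))))))) (.g (nat_lit 5) .nil .nil))) 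
(.lf (nat_lit 51235) (.g (nat_lit 2282) (.e (nat_lit 1349) (nat_lit 102) (.e (nat_lit 286748) (nat_lit 9) (.e (nat_lit 336389) (nat_lit 27) (.e (nat_lit 426313) (nat_lit 12) (.e (nat_lit 475220) (nat_lit 44) (.e (nat_lit 737281) (nat_lit 0) (.e (nat_lit 4965) (nat_lit 287) .nil))))))) (.g (nat_lit 4) .nil .nil)))) (.nd (nat_lit 5) 
(.lf (nat_lit 51219) (.g (nat_lit 2316) (.e (nat_lit 1349) (nat_lit 102) (.e (nat_lit 286748) (nat_lit 9) (.e (nat_lit 336389) (nat_lit 27) (.e (nat_lit 426305) (nat_lit 12) (.e (nat_lit 475220) (nat_lit 44) (.e (nat_lit 737290) (nat_lit 0) (.e (nat_lit 4961) (nat_lit 287) .nil))))))) (.g (nat_lit 4) .nil .nil))) 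
(.lf (nat_lit 51251) (.g (nat_lit 2273) (.e (nat_lit 1349) (nat_lit 102) (.e (nat_lit 286748) (nat_lit 9) (.e (nat_lit 336389) (nat_lit 27) (.e (nat_lit 426343) (nat_lit 14) (.e (nat_lit 491552) (nat_lit 9) (.e (nat_lit 336248) (nat_lit 15) (.e (nat_lit 7064) (nat_lit 377) .nil))))))) (.g (nat_lit 4) .nil .nil))))) (.nd (nat_lit 4) (.nd (nat_lit 5) 
(.lf (nat_lit 51211) (.g (nat_lit 2286) (.e (nat_lit 1349) (nat_lit 102) (.e (nat_lit 286748) (nat_lit 9) (.e (nat_lit 336389) (nat_lit 27) (.e (nat_lit 426221) (nat_lit 9) (.e (nat_lit 426144) (nat_lit 4) (.e (nat_lit 229680) (nat_lit 244) (.e (nat_lit 163842) (nat_lit 0) (.e (nat_lit 7065) (nat_lit 377) .nil)))))))) (.g (nat_lit 4) .nil .nil))) 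
(.lf (nat_lit 51243) (.g (nat_lit 2771) (.e (nat_lit 1349) (nat_lit 102) (.e (nat_lit 286748) (nat_lit 9) (.e (nat_lit 336389) (nat_lit 27) (.e (nat_lit 426341) (nat_lit 14) (.e (nat_lit 491566) (nat_lit 12) (.e (nat_lit 392960) (nat_lit 16) .nil)))))) (.g (nat_lit 5) .nil .nil)))) (.nd (nat_lit 5) 
(.lf (nat_lit 51227) (.g (nat_lit 1830) (.e (nat_lit 1349) (nat_lit 102) (.e (nat_lit 286748) (nat_lit 9) (.e (nat_lit 336389) (nat_lit 27) (.e (nat_lit 426308) (nat_lit 12) (.e (nat_lit 475204) (nat_lit 40) .nil))))) .nil)) 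
(.lf (nat_lit 51259) (.g (nat_lit 2810) (.e (nat_lit 1349) (nat_lit 102) (.e (nat_lit 286748) (nat_lit 9) (.e (nat_lit 336389) (nat_lit 27) (.e (nat_lit 426344) (nat_lit 14) (.e (nat_lit 491562) (nat_lit 12) (.e (nat_lit 392960) (nat_lit 16) .nil)))))) (.g (nat_lit 5) .nil .nil)))))) (.nd (nat_lit 3) (.nd (nat_lit 4) (.nd (nat_lit 5) 
(.lf (nat_lit 51207) (.g (nat_lit 1990) (.e (nat_lit 1349) (nat_lit 102) (.e (nat_lit 286748) (nat_lit 9) (.e (nat_lit 336389) (nat_lit 27) (.e (nat_lit 426189) (nat_lit 9) (.e (nat_lit 426148) (nat_lit 4) .nil))))) .nil)) 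
(.lf (nat_lit 51239) (.g (nat_lit 2450) (.e (nat_lit 1349) (nat_lit 102) (.e (nat_lit 286748) (nat_lit 9) (.e (nat_lit 336389) (nat_lit 27) (.e (nat_lit 426316) (nat_lit 12) (.e (nat_lit 475216) (nat_lit 44) .nil))))) .nil))) (.nd (nat_lit 5) 
(.lf (nat_lit 51223) (.g (nat_lit 2197) (.e (nat_lit 1349) (nat_lit 102) (.e (nat_lit 286748) (nat_lit 9) (.e (nat_lit 336389) (nat_lit 27) (.e (nat_lit 426306) (nat_lit 12) (.e (nat_lit 475220) (nat_lit 44) .nil))))) .nil)) 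
(.lf (nat_lit 51255) (.g (nat_lit 2509) (.e (nat_lit 1349) (nat_lit 102) (.e (nat_lit 286748) (nat_lit 9) (.e (nat_lit 336389) (nat_lit 27) (.e (nat_lit 426343) (nat_lit 14) (.e (nat_lit 491564) (nat_lit 12) (.e (nat_lit 392960) (nat_lit 16) .nil)))))) (.g (nat_lit 5) .nil .nil))))) (.nd (nat_lit 4) (.nd (nat_lit 5) 
(.lf (nat_lit 51215) (.g (nat_lit 1953) (.e (nat_lit 1349) (nat_lit 102) (.e (nat_lit 286748) (nat_lit 9) (.e (nat_lit 336389) (nat_lit 27) (.e (nat_lit 426300) (nat_lit 11) (.e (nat_lit 466688) (nat_lit 18) (.e (nat_lit 5587) (nat_lit 310) (.e (nat_lit 163842) (nat_lit 0) (.e (nat_lit 7065) (nat_lit 377) .nil)))))))) (.g (nat_lit 4) .nil .nil))) 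
(.lf (nat_lit 51247) (.g (nat_lit 2443) (.e (nat_lit 1349) (nat_lit 102) (.e (nat_lit 286748) (nat_lit 9) (.e (nat_lit 336389) (nat_lit 27) (.e (nat_lit 426343) (nat_lit 14) (.e (nat_lit 491548) (nat_lit 9) (.e (nat_lit 336242) (nat_lit 15) (.e (nat_lit 7064) (nat_lit 377) .nil))))))) (.g (nat_lit 4) .nil .nil)))) (.nd (nat_lit 5) 
(.lf (nat_lit 51231) (.g (nat_lit 2733) (.e (nat_lit 1349) (nat_lit 102) (.e (nat_lit 286748) (nat_lit 9) (.e (nat_lit 336389) (nat_lit 27) (.e (nat_lit 426308) (nat_lit 12) (.e (nat_lit 475216) (nat_lit 44) (.e (nat_lit 737283) (nat_lit 0) (.e (nat_lit 4965) (nat_lit 287) .nil))))))) (.g (nat_lit 0) .nil .nil))) 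
(.lf (nat_lit 51263) (.g (nat_lit 1682) (.e (nat_lit 1349) (nat_lit 102) (.e (nat_lit 286748) (nat_lit 9) (.e (nat_lit 336389) (nat_lit 27) (.e (nat_lit 426408) (nat_lit 15) (.e (nat_lit 6216) (nat_lit 333) (.e (nat_lit 57810) (nat_lit 246) (.e (nat_lit 65280) (nat_lit 91) (.e (nat_lit 573503) (nat_lit 18) .nil)))))))) (.g (nat_lit 4) .nil .nil)))))))))

noncomputable def tv713 : DT := (.nd (nat_lit 0) (.nd (nat_lit 1) (.nd (nat_lit 2) (.nd (nat_lit 3) (.nd (nat_lit 4) (.nd (nat_lit 5) 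
(.lf (nat_lit 51264) (.g (nat_lit 1437) (.e (nat_lit 1349) (nat_lit 102) (.e (nat_lit 286748) (nat_lit 9) (.e (nat_lit 336389) (nat_lit 27) (.e (nat_lit 426517) (nat_lit 27) .nil)))) .nil)) 
(.lf (nat_lit 51296) (.g (nat_lit 3107) (.e (nat_lit 1349) (nat_lit 102) (.e (nat_lit 286752) (nat_lit 10) (.e (nat_lit 344169) (nat_lit 40) (.e (nat_lit 671762) (nat_lit 4) (.e (nat_lit 65610) (nat_lit 10) (.e (nat_lit 344160) (nat_lit 37) (.e (nat_lit 647203) (nat_lit 14) .nil))))))) (.g (nat_lit 5) .nil .nil)))) (.nd (nat_lit 5) 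
(.lf (nat_lit 51280) (.g (nat_lit 2307) (.e (nat_lit 1349) (nat_lit 102) (.e (nat_lit 286749) (nat_lit 9) (.e (nat_lit 336028) (nat_lit 3) (.e (nat_lit 98354) (nat_lit 26) (.e (nat_lit 426109) (nat_lit 1) (.e (nat_lit 164326) (nat_lit 230) (.e (nat_lit 163871) (nat_lit 2) (.e (nat_lit 196691) (nat_lit 18) .nil)))))))) (.g (nat_lit 4) .nil .nil))) 
(.lf (nat_lit 51312) (.g (nat_lit 2787) (.e (nat_lit 1349) (nat_lit 102) (.e (nat_lit 286756) (nat_lit 10) (.e (nat_lit 344117) (nat_lit 21) (.e (nat_lit 516160) (nat_lit 10) (.e (nat_lit 434209) (nat_lit 18) .nil))))) .nil)))) (.nd (nat_lit 4) (.nd (nat_lit 5) 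
(.lf (nat_lit 51272) (.g (nat_lit 1258) (.e (nat_lit 1349) (nat_lit 102) (.e (nat_lit 286748) (nat_lit 9) (.e (nat_lit 336389) (nat_lit 27) (.e (nat_lit 433920) (nat_lit 35) .nil)))) .nil)) 
(.lf (nat_lit 51304) (.g (nat_lit 1989) (.e (nat_lit 1349) (nat_lit 102) (.e (nat_lit 286756) (nat_lit 10) (.e (nat_lit 344115) (nat_lit 20) (.e (nat_lit 507907) (nat_lit 0) (.e (nat_lit 5401) (nat_lit 302) (.e (nat_lit 65568) (nat_lit 2) (.e (nat_lit 98048) (nat_lit 18) .nil))))))) (.g (nat_lit 6) .nil .nil)))) (.nd (nat_lit 5) 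
(.lf (nat_lit 51288) (.g (nat_lit 4413) (.e (nat_lit 1349) (nat_lit 102) (.e (nat_lit 286749) (nat_lit 9) (.e (nat_lit 336028) (nat_lit 3) (.e (nat_lit 98367) (nat_lit 27) (.e (nat_lit 434209) (nat_lit 18) (.e (nat_lit 5223) (nat_lit 296) (.e (nat_lit 163868) (nat_lit 2) (.e (nat_lit 196691) (nat_lit 18) .nil)))))))) (.g (nat_lit 7) .nil .nil))) 
(.lf (nat_lit 51320) (.g (nat_lit 2793) (.e (nat_lit 1349) (nat_lit 102) (.e (nat_lit 286756) (nat_lit 10) (.e (nat_lit 344117) (nat_lit 21) (.e (nat_lit 516170) (nat_lit 13) (.e (nat_lit 458774) (nat_lit 18) (.e (nat_lit 5224) (nat_lit 296) (.e (nat_lit 163871) (nat_lit 2) (.e (nat_lit 196691) (nat_lit 18) .nil)))))))) (.g (nat_lit 4) .nil .nil)))))) 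
(.nd (nat_lit 3) (.nd (nat_lit 4) (.nd (nat_lit 5) 
(.lf (nat_lit 51268) (.g (nat_lit 2343) (.e (nat_lit 1349) (nat_lit 102) (.e (nat_lit 286748) (nat_lit 9) (.e (nat_lit 336389) (nat_lit 27) (.e (nat_lit 426518) (nat_lit 27) (.e (nat_lit 336335) (nat_lit 20) (.e (nat_lit 221210) (nat_lit 22) (.e (nat_lit 196691) (nat_lit 18) .nil))))))) (.g (nat_lit 5) .nil .nil))) 
(.lf (nat_lit 51300) (.g (nat_lit 3399) (.e (nat_lit 1349) (nat_lit 102) (.e (nat_lit 286753) (nat_lit 10) (.e (nat_lit 344169) (nat_lit 40) (.e (nat_lit 671762) (nat_lit 4) (.e (nat_lit 65619) (nat_lit 10) (.e (nat_lit 344160) (nat_lit 37) (.e (nat_lit 647203) (nat_lit 14) .nil))))))) (.g (nat_lit 6) .nil .nil)))) (.nd (nat_lit 5) 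
(.lf (nat_lit 51284) (.g (nat_lit 3490) (.e (nat_lit 1349) (nat_lit 102) (.e (nat_lit 286749) (nat_lit 9) (.e (nat_lit 336028) (nat_lit 3) (.e (nat_lit 98366) (nat_lit 27) (.e (nat_lit 434209) (nat_lit 18) (.e (nat_lit 5223) (nat_lit 296) (.e (nat_lit 163871) (nat_lit 2) (.e (nat_lit 196691) (nat_lit 18) .nil)))))))) (.g (nat_lit 6) .nil .nil))) 
(.lf (nat_lit 51316) (.g (nat_lit 2974) (.e (nat_lit 1349) (nat_lit 102) (.e (nat_lit 286756) (nat_lit 10) (.e (nat_lit 344117) (nat_lit 21) (.e (nat_lit 516160) (nat_lit 10) (.e (nat_lit 434275) (nat_lit 39) .nil))))) .nil)))) (.nd (nat_lit 4) (.nd (nat_lit 5) 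
(.lf (nat_lit 51276) (.g (nat_lit 5081) (.e (nat_lit 1349) (nat_lit 102) (.e (nat_lit 286749) (nat_lit 9) (.e (nat_lit 336013) (nat_lit 2) (.e (nat_lit 90170) (nat_lit 13) (.e (nat_lit 172061) (nat_lit 1) (.e (nat_lit 164326) (nat_lit 230) (.e (nat_lit 163868) (nat_lit 2) (.e (nat_lit 196691) (nat_lit 18) .nil)))))))) (.g (nat_lit 8) .nil .nil))) 
(.lf (nat_lit 51308) (.g (nat_lit 3182) (.e (nat_lit 1349) (nat_lit 102) (.e (nat_lit 286756) (nat_lit 10) (.e (nat_lit 344117) (nat_lit 21) (.e (nat_lit 516151) (nat_lit 9) (.e (nat_lit 426097) (nat_lit 1) (.e (nat_lit 164327) (nat_lit 230) (.e (nat_lit 163871) (nat_lit 2) (.e (nat_lit 196691) (nat_lit 18) .nil)))))))) (.g (nat_lit 4) .nil .nil)))) (.nd (nat_lit 5) 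
(.lf (nat_lit 51292) (.g (nat_lit 2817) (.e (nat_lit 1349) (nat_lit 102) (.e (nat_lit 286749) (nat_lit 9) (.e (nat_lit 336028) (nat_lit 3) (.e (nat_lit 98367) (nat_lit 27) (.e (nat_lit 434276) (nat_lit 39) (.e (nat_lit 663584) (nat_lit 12) (.e (nat_lit 163976) (nat_lit 30) (.e (nat_lit 573503) (nat_lit 18) .nil)))))))) (.g (nat_lit 4) .nil .nil))) 
(.lf (nat_lit 51324) (.g (nat_lit 3930) (.e (nat_lit 1349) (nat_lit 102) (.e (nat_lit 286756) (nat_lit 10) (.e (nat_lit 344168) (nat_lit 40) (.e (nat_lit 671762) (nat_lit 4) (.e (nat_lit 65619) (nat_lit 10) (.e (nat_lit 344160) (nat_lit 37) (.e (nat_lit 647203) (nat_lit 14) .nil))))))) (.g (nat_lit 7) .nil .nil))))))) (.nd (nat_lit 2) (.nd (nat_lit 3) (.nd (nat_lit 4) (.nd (nat_lit 5) 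
(.lf (nat_lit 51266) (.g (nat_lit 1464) (.e (nat_lit 1349) (nat_lit 102) (.e (nat_lit 286748) (nat_lit 9) (.e (nat_lit 336389) (nat_lit 27) (.e (nat_lit 426518) (nat_lit 27) .nil)))) .nil)) 
(.lf (nat_lit 51298) (.g (nat_lit 2455) (.e (nat_lit 1349) (nat_lit 102) (.e (nat_lit 286753) (nat_lit 10) (.e (nat_lit 344168) (nat_lit 40) (.e (nat_lit 671762) (nat_lit 4) (.e (nat_lit 65619) (nat_lit 10) (.e (nat_lit 344160) (nat_lit 37) (.e (nat_lit 647203) (nat_lit 14) .nil))))))) (.g (nat_lit 4) .nil .nil)))) (.nd (nat_lit 5) 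
(.lf (nat_lit 51282) (.g (nat_lit 2341) (.e (nat_lit 1349) (nat_lit 102) (.e (nat_lit 286749) (nat_lit 9) (.e (nat_lit 336028) (nat_lit 3) (.e (nat_lit 98359) (nat_lit 26) (.e (nat_lit 426097) (nat_lit 1) (.e (nat_lit 164326) (nat_lit 230) (.e (nat_lit 163871) (nat_lit 2) (.e (nat_lit 196691) (nat_lit 18) .nil)))))))) (.g (nat_lit 4) .nil .nil))) 
(.lf (nat_lit 51314) (.g (nat_lit 2962) (.e (nat_lit 1349) (nat_lit 102) (.e (nat_lit 286756) (nat_lit 10) (.e (nat_lit 344117) (nat_lit 21) (.e (nat_lit 516160) (nat_lit 10) (.e (nat_lit 434209) (nat_lit 18) (.e (nat_lit 5224) (nat_lit 296) (.e (nat_lit 163868) (nat_lit 2) (.e (nat_lit 196691) (nat_lit 18) .nil)))))))) (.g (nat_lit 4) .nil .nil))))) (.nd (nat_lit 4) (.nd (nat_lit 5) 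
(.lf (nat_lit 51274) (.g (nat_lit 4576) (.e (nat_lit 1349) (nat_lit 102) (.e (nat_lit 286749) (nat_lit 9) (.e (nat_lit 336013) (nat_lit 2) (.e (nat_lit 90170) (nat_lit 13) (.e (nat_lit 172059) (nat_lit 1) (.e (nat_lit 164327) (nat_lit 230) (.e (nat_lit 163871) (nat_lit 2) (.e (nat_lit 196691) (nat_lit 18) .nil)))))))) (.g (nat_lit 7) .nil .nil))) 
(.lf (nat_lit 51306) (.g (nat_lit 2246) (.e (nat_lit 1349) (nat_lit 102) (.e (nat_lit 286756) (nat_lit 10) (.e (nat_lit 344115) (nat_lit 20) (.e (nat_lit 507923) (nat_lit 6) (.e (nat_lit 286747) (nat_lit 9) (.e (nat_lit 336013) (nat_lit 2) (.e (nat_lit 98048) (nat_lit 18) .nil))))))) (.g (nat_lit 6) .nil .nil)))) (.nd (nat_lit 5) 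
(.lf (nat_lit 51290) (.g (nat_lit 4132) (.e (nat_lit 1349) (nat_lit 102) (.e (nat_lit 286749) (nat_lit 9) (.e (nat_lit 336028) (nat_lit 3) (.e (nat_lit 98367) (nat_lit 27) (.e (nat_lit 434209) (nat_lit 18) (.e (nat_lit 5224) (nat_lit 296) (.e (nat_lit 163868) (nat_lit 2) (.e (nat_lit 196691) (nat_lit 18) .nil)))))))) (.g (nat_lit 6) .nil .nil))) 
(.lf (nat_lit 51322) (.g (nat_lit 3260) (.e (nat_lit 1349) (nat_lit 102) (.e (nat_lit 286756) (nat_lit 10) (.e (nat_lit 344168) (nat_lit 40) (.e (nat_lit 671762) (nat_lit 4) (.e (nat_lit 65610) (nat_lit 10) (.e (nat_lit 344160) (nat_lit 37) (.e (nat_lit 647203) (nat_lit 14) .nil))))))) (.g (nat_lit 6) .nil .nil)))))) (.nd (nat_lit 3) (.nd (nat_lit 4) (.nd (nat_lit 5) 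
(.lf (nat_lit 51270) (.g (nat_lit 2155) (.e (nat_lit 1349) (nat_lit 102) (.e (nat_lit 286748) (nat_lit 9) (.e (nat_lit 336389) (nat_lit 27) (.e (nat_lit 426521) (nat_lit 27) (.e (nat_lit 343808) (nat_lit 20) (.e (nat_lit 221212) (nat_lit 22) (.e (nat_lit 196691) (nat_lit 18) .nil))))))) (.g (nat_lit 4) .nil .nil))) 
(.lf (nat_lit 51302) (.g (nat_lit 3166) (.e (nat_lit 1349) (nat_lit 102) (.e (nat_lit 286755) (nat_lit 10) (.e (nat_lit 344169) (nat_lit 40) (.e (nat_lit 671762) (nat_lit 4) (.e (nat_lit 65610) (nat_lit 10) (.e (nat_lit 344160) (nat_lit 37) (.e (nat_lit 647203) (nat_lit 14) .nil))))))) (.g (nat_lit 5) .nil .nil)))) (.nd (nat_lit 5) 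
(.lf (nat_lit 51286) (.g (nat_lit 4096) (.e (nat_lit 1349) (nat_lit 102) (.e (nat_lit 286749) (nat_lit 9) (.e (nat_lit 336028) (nat_lit 3) (.e (nat_lit 98366) (nat_lit 27) (.e (nat_lit 434209) (nat_lit 18) (.e (nat_lit 5224) (nat_lit 296) (.e (nat_lit 163871) (nat_lit 2) (.e (nat_lit 196691) (nat_lit 18) .nil)))))))) (.g (nat_lit 7) .nil .nil))) 
(.lf (nat_lit 51318) (.g (nat_lit 3746) (.e (nat_lit 1349) (nat_lit 102) (.e (nat_lit 286756) (nat_lit 10) (.e (nat_lit 344117) (nat_lit 21) (.e (nat_lit 516160) (nat_lit 10) (.e (nat_lit 434275) (nat_lit 39) (.e (nat_lit 663584) (nat_lit 12) (.e (nat_lit 163979) (nat_lit 30) (.e (nat_lit 573503) (nat_lit 18) .nil)))))))) (.g (nat_lit 5) .nil .nil))))) (.nd (nat_lit 4) (.nd (nat_lit 5) 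
(.lf (nat_lit 51278) (.g (nat_lit 4701) (.e (nat_lit 1349) (nat_lit 102) (.e (nat_lit 286749) (nat_lit 9) (.e (nat_lit 336013) (nat_lit 2) (.e (nat_lit 90170) (nat_lit 13) (.e (nat_lit 172061) (nat_lit 1) (.e (nat_lit 164327) (nat_lit 230) (.e (nat_lit 163871) (nat_lit 2) (.e (nat_lit 196691) (nat_lit 18) .nil)))))))) (.g (nat_lit 7) .nil .nil))) 
(.lf (nat_lit 51310) (.g (nat_lit 2707) (.e (nat_lit 1349) (nat_lit 102) (.e (nat_lit 286756) (nat_lit 10) (.e (nat_lit 344117) (nat_lit 21) (.e (nat_lit 516159) (nat_lit 10) (.e (nat_lit 434209) (nat_lit 18) (.e (nat_lit 5224) (nat_lit 296) (.e (nat_lit 163868) (nat_lit 2) (.e (nat_lit 196691) (nat_lit 18) .nil)))))))) (.g (nat_lit 4) .nil .nil)))) (.nd (nat_lit 5) 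
(.lf (nat_lit 51294) (.g (nat_lit 2377) (.e (nat_lit 1349) (nat_lit 102) (.e (nat_lit 286749) (nat_lit 9) (.e (nat_lit 336028) (nat_lit 3) (.e (nat_lit 98367) (nat_lit 27) (.e (nat_lit 434278) (nat_lit 39) (.e (nat_lit 663584) (nat_lit 12) (.e (nat_lit 163976) (nat_lit 30) (.e (nat_lit 573503) (nat_lit 18) .nil)))))))) (.g (nat_lit 4) .nil .nil))) 
(.lf (nat_lit 51326) (.g (nat_lit 3059) (.e (nat_lit 1349) (nat_lit 102) (.e (nat_lit 286757) (nat_lit 11) (.e (nat_lit 368676) (nat_lit 21) (.e (nat_lit 516169) (nat_lit 13) (.e (nat_lit 458774) (nat_lit 18) (.e (nat_lit 5224) (nat_lit 296) (.e (nat_lit 163868) (nat_lit 2) (.e (nat_lit 196691) (nat_lit 18) .nil)))))))) (.g (nat_lit 5) .nil .nil)))))))) 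
(.nd (nat_lit 1) (.nd (nat_lit 2) (.nd (nat_lit 3) (.nd (nat_lit 4) (.nd (nat_lit 5) 
(.lf (nat_lit 51265) (.g (nat_lit 1889) (.e (nat_lit 1349) (nat_lit 102) (.e (nat_lit 286748) (nat_lit 9) (.e (nat_lit 336389) (nat_lit 27) (.e (nat_lit 426517) (nat_lit 27) (.e (nat_lit 343808) (nat_lit 20) .nil))))) .nil)) 
(.lf (nat_lit 51297) (.g (nat_lit 3789) (.e (nat_lit 1349) (nat_lit 102) (.e (nat_lit 286752) (nat_lit 10) (.e (nat_lit 344169) (nat_lit 40) (.e (nat_lit 671762) (nat_lit 4) (.e (nat_lit 65619) (nat_lit 10) (.e (nat_lit 344160) (nat_lit 37) (.e (nat_lit 647203) (nat_lit 14) .nil))))))) (.g (nat_lit 6) .nil .nil)))) (.nd (nat_lit 5) 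
(.lf (nat_lit 51281) (.g (nat_lit 2332) (.e (nat_lit 1349) (nat_lit 102) (.e (nat_lit 286749) (nat_lit 9) (.e (nat_lit 336028) (nat_lit 3) (.e (nat_lit 98359) (nat_lit 26) (.e (nat_lit 426097) (nat_lit 1) (.e (nat_lit 164326) (nat_lit 230) (.e (nat_lit 163868) (nat_lit 2) (.e (nat_lit 196691) (nat_lit 18) .nil)))))))) (.g (nat_lit 4) .nil .nil))) 
(.lf (nat_lit 51313) (.g (nat_lit 3145) (.e (nat_lit 1349) (nat_lit 102) (.e (nat_lit 286756) (nat_lit 10) (.e (nat_lit 344117) (nat_lit 21) (.e (nat_lit 516160) (nat_lit 10) (.e (nat_lit 434209) (nat_lit 18) (.e (nat_lit 5223) (nat_lit 296) (.e (nat_lit 163868) (nat_lit 2) (.e (nat_lit 196691) (nat_lit 18) .nil)))))))) (.g (nat_lit 4) .nil .nil))))) (.nd (nat_lit 4) (.nd (nat_lit 5) 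
(.lf (nat_lit 51273) (.g (nat_lit 5225) (.e (nat_lit 1349) (nat_lit 102) (.e (nat_lit 286749) (nat_lit 9) (.e (nat_lit 336013) (nat_lit 2) (.e (nat_lit 90170) (nat_lit 13) (.e (nat_lit 172059) (nat_lit 1) (.e (nat_lit 164327) (nat_lit 230) (.e (nat_lit 163868) (nat_lit 2) (.e (nat_lit 196691) (nat_lit 18) .nil)))))))) (.g (nat_lit 7) .nil .nil))) 
(.lf (nat_lit 51305) (.g (nat_lit 1993) (.e (nat_lit 1349) (nat_lit 102) (.e (nat_lit 286756) (nat_lit 10) (.e (nat_lit 344115) (nat_lit 20) (.e (nat_lit 507908) (nat_lit 0) (.e (nat_lit 5401) (nat_lit 302) (.e (nat_lit 65568) (nat_lit 2) (.e (nat_lit 98048) (nat_lit 18) .nil))))))) (.g (nat_lit 6) .nil .nil)))) (.nd (nat_lit 5) 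
(.lf (nat_lit 51289) (.g (nat_lit 3797) (.e (nat_lit 1349) (nat_lit 102) (.e (nat_lit 286749) (nat_lit 9) (.e (nat_lit 336028) (nat_lit 3) (.e (nat_lit 98367) (nat_lit 27) (.e (nat_lit 434209) (nat_lit 18) (.e (nat_lit 5223) (nat_lit 296) (.e (nat_lit 163871) (nat_lit 2) (.e (nat_lit 196691) (nat_lit 18) .nil)))))))) (.g (nat_lit 5) .nil .nil))) 
(.lf (nat_lit 51321) (.g (nat_lit 3803) (.e (nat_lit 1349) (nat_lit 102) (.e (nat_lit 286756) (nat_lit 10) (.e (nat_lit 344126) (nat_lit 25) (.e (nat_lit 548889) (nat_lit 9) (.e (nat_lit 65598) (nat_lit 9) (.e (nat_lit 336013) (nat_lit 2) (.e (nat_lit 98048) (nat_lit 18) .nil))))))) (.g (nat_lit 6) .nil .nil)))))) (.nd (nat_lit 3) (.nd (nat_lit 4) (.nd (nat_lit 5) 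
(.lf (nat_lit 51269) (.g (nat_lit 2087) (.e (nat_lit 1349) (nat_lit 102) (.e (nat_lit 286748) (nat_lit 9) (.e (nat_lit 336389) (nat_lit 27) (.e (nat_lit 426518) (nat_lit 27) (.e (nat_lit 343808) (nat_lit 20) (.e (nat_lit 221210) (nat_lit 22) (.e (nat_lit 196691) (nat_lit 18) .nil))))))) (.g (nat_lit 4) .nil .nil))) 
(.lf (nat_lit 51301) (.g (nat_lit 2025) (.e (nat_lit 1349) (nat_lit 102) (.e (nat_lit 286755) (nat_lit 10) (.e (nat_lit 344168) (nat_lit 40) (.e (nat_lit 671762) (nat_lit 4) (.e (nat_lit 65610) (nat_lit 10) (.e (nat_lit 344160) (nat_lit 37) (.e (nat_lit 647203) (nat_lit 14) .nil))))))) (.g (nat_lit 4) .nil .nil)))) (.nd (nat_lit 5) 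
(.lf (nat_lit 51285) (.g (nat_lit 3804) (.e (nat_lit 1349) (nat_lit 102) (.e (nat_lit 286749) (nat_lit 9) (.e (nat_lit 336028) (nat_lit 3) (.e (nat_lit 98366) (nat_lit 27) (.e (nat_lit 434209) (nat_lit 18) (.e (nat_lit 5224) (nat_lit 296) (.e (nat_lit 163868) (nat_lit 2) (.e (nat_lit 196691) (nat_lit 18) .nil)))))))) (.g (nat_lit 6) .nil .nil))) 
(.lf (nat_lit 51317) (.g (nat_lit 3000) (.e (nat_lit 1349) (nat_lit 102) (.e (nat_lit 286756) (nat_lit 10) (.e (nat_lit 344117) (nat_lit 21) (.e (nat_lit 516160) (nat_lit 10) (.e (nat_lit 434275) (nat_lit 39) (.e (nat_lit 663584) (nat_lit 12) (.e (nat_lit 163976) (nat_lit 30) (.e (nat_lit 573503) (nat_lit 18) .nil)))))))) (.g (nat_lit 4) .nil .nil))))) (.nd (nat_lit 4) (.nd (nat_lit 5) 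
(.lf (nat_lit 51277) (.g (nat_lit 5324) (.e (nat_lit 1349) (nat_lit 102) (.e (nat_lit 286749) (nat_lit 9) (.e (nat_lit 336013) (nat_lit 2) (.e (nat_lit 90170) (nat_lit 13) (.e (nat_lit 172061) (nat_lit 1) (.e (nat_lit 164327) (nat_lit 230) (.e (nat_lit 163868) (nat_lit 2) (.e (nat_lit 196691) (nat_lit 18) .nil)))))))) (.g (nat_lit 7) .nil .nil))) 
(.lf (nat_lit 51309) (.g (nat_lit 2890) (.e (nat_lit 1349) (nat_lit 102) (.e (nat_lit 286756) (nat_lit 10) (.e (nat_lit 344117) (nat_lit 21) (.e (nat_lit 516159) (nat_lit 10) (.e (nat_lit 434209) (nat_lit 18) (.e (nat_lit 5223) (nat_lit 296) (.e (nat_lit 163868) (nat_lit 2) (.e (nat_lit 196691) (nat_lit 18) .nil)))))))) (.g (nat_lit 4) .nil .nil)))) (.nd (nat_lit 5) 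
(.lf (nat_lit 51293) (.g (nat_lit 3385) (.e (nat_lit 1349) (nat_lit 102) (.e (nat_lit 286749) (nat_lit 9) (.e (nat_lit 336028) (nat_lit 3) (.e (nat_lit 98367) (nat_lit 27) (.e (nat_lit 434276) (nat_lit 39) (.e (nat_lit 663584) (nat_lit 12) (.e (nat_lit 163979) (nat_lit 30) (.e (nat_lit 573503) (nat_lit 18) .nil)))))))) (.g (nat_lit 5) .nil .nil))) 
(.lf (nat_lit 51325) (.g (nat_lit 2316) (.e (nat_lit 1349) (nat_lit 102) (.e (nat_lit 286756) (nat_lit 10) (.e (nat_lit 344169) (nat_lit 40) (.e (nat_lit 671761) (nat_lit 4) (.e (nat_lit 65610) (nat_lit 10) (.e (nat_lit 344160) (nat_lit 37) (.e (nat_lit 647203) (nat_lit 14) .nil))))))) (.g (nat_lit 5) .nil .nil))))))) (.nd (nat_lit 2) (.nd (nat_lit 3) (.nd (nat_lit 4) (.nd (nat_lit 5) 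
(.lf (nat_lit 51267) (.g (nat_lit 1868) (.e (nat_lit 1349) (nat_lit 102) (.e (nat_lit 286748) (nat_lit 9) (.e (nat_lit 336389) (nat_lit 27) (.e (nat_lit 426518) (nat_lit 27) (.e (nat_lit 336272) (nat_lit 15) .nil))))) .nil)) 
(.lf (nat_lit 51299) (.g (nat_lit 2895) (.e (nat_lit 1349) (nat_lit 102) (.e (nat_lit 286753) (nat_lit 10) (.e (nat_lit 344169) (nat_lit 40) (.e (nat_lit 671762) (nat_lit 4) (.e (nat_lit 65610) (nat_lit 10) (.e (nat_lit 344160) (nat_lit 37) (.e (nat_lit 647203) (nat_lit 14) .nil))))))) (.g (nat_lit 5) .nil .nil)))) (.nd (nat_lit 5) 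
(.lf (nat_lit 51283) (.g (nat_lit 4106) (.e (nat_lit 1349) (nat_lit 102) (.e (nat_lit 286749) (nat_lit 9) (.e (nat_lit 336028) (nat_lit 3) (.e (nat_lit 98366) (nat_lit 27) (.e (nat_lit 434209) (nat_lit 18) (.e (nat_lit 5223) (nat_lit 296) (.e (nat_lit 163868) (nat_lit 2) (.e (nat_lit 196691) (nat_lit 18) .nil)))))))) (.g (nat_lit 7) .nil .nil))) 
(.lf (nat_lit 51315) (.g (nat_lit 3254) (.e (nat_lit 1349) (nat_lit 102) (.e (nat_lit 286756) (nat_lit 10) (.e (nat_lit 344117) (nat_lit 21) (.e (nat_lit 516160) (nat_lit 10) (.e (nat_lit 434209) (nat_lit 18) (.e (nat_lit 5224) (nat_lit 296) (.e (nat_lit 163871) (nat_lit 2) (.e (nat_lit 196691) (nat_lit 18) .nil)))))))) (.g (nat_lit 4) .nil .nil))))) (.nd (nat_lit 4) (.nd (nat_lit 5) 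
(.lf (nat_lit 51275) (.g (nat_lit 3549) (.e (nat_lit 1349) (nat_lit 102) (.e (nat_lit 286749) (nat_lit 9) (.e (nat_lit 336013) (nat_lit 2) (.e (nat_lit 90170) (nat_lit 13) (.e (nat_lit 172060) (nat_lit 1) .nil))))) .nil)) 
(.lf (nat_lit 51307) (.g (nat_lit 2986) (.e (nat_lit 1349) (nat_lit 102) (.e (nat_lit 286756) (nat_lit 10) (.e (nat_lit 344117) (nat_lit 21) (.e (nat_lit 516151) (nat_lit 9) (.e (nat_lit 426097) (nat_lit 1) .nil))))) .nil))) (.nd (nat_lit 5) 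
(.lf (nat_lit 51291) (.g (nat_lit 4424) (.e (nat_lit 1349) (nat_lit 102) (.e (nat_lit 286749) (nat_lit 9) (.e (nat_lit 336028) (nat_lit 3) (.e (nat_lit 98367) (nat_lit 27) (.e (nat_lit 434209) (nat_lit 18) (.e (nat_lit 5224) (nat_lit 296) (.e (nat_lit 163871) (nat_lit 2) (.e (nat_lit 196691) (nat_lit 18) .nil)))))))) (.g (nat_lit 7) .nil .nil))) 
(.lf (nat_lit 51323) (.g (nat_lit 2025) (.e (nat_lit 1349) (nat_lit 102) (.e (nat_lit 286756) (nat_lit 10) (.e (nat_lit 344168) (nat_lit 40) (.e (nat_lit 671762) (nat_lit 4) (.e (nat_lit 65617) (nat_lit 10) (.e (nat_lit 344161) (nat_lit 37) (.e (nat_lit 647203) (nat_lit 14) .nil))))))) (.g (nat_lit 4) .nil .nil)))))) (.nd (nat_lit 3) (.nd (nat_lit 4) (.nd (nat_lit 5) 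
(.lf (nat_lit 51271) (.g (nat_lit 1464) (.e (nat_lit 1349) (nat_lit 102) (.e (nat_lit 286748) (nat_lit 9) (.e (nat_lit 336389) (nat_lit 27) (.e (nat_lit 426523) (nat_lit 27) .nil)))) .nil)) 
(.lf (nat_lit 51303) (.g (nat_lit 3797) (.e (nat_lit 1349) (nat_lit 102) (.e (nat_lit 286755) (nat_lit 10) (.e (nat_lit 344169) (nat_lit 40) (.e (nat_lit 671762) (nat_lit 4) (.e (nat_lit 65619) (nat_lit 10) (.e (nat_lit 344160) (nat_lit 37) (.e (nat_lit 647203) (nat_lit 14) .nil))))))) (.g (nat_lit 6) .nil .nil)))) (.nd (nat_lit 5) 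
(.lf (nat_lit 51287) (.g (nat_lit 2327) (.e (nat_lit 1349) (nat_lit 102) (.e (nat_lit 286749) (nat_lit 9) (.e (nat_lit 336028) (nat_lit 3) (.e (nat_lit 98366) (nat_lit 27) (.e (nat_lit 434276) (nat_lit 39) (.e (nat_lit 663584) (nat_lit 12) (.e (nat_lit 163976) (nat_lit 30) (.e (nat_lit 573503) (nat_lit 18) .nil)))))))) (.g (nat_lit 4) .nil .nil))) 
(.lf (nat_lit 51319) (.g (nat_lit 2492) (.e (nat_lit 1349) (nat_lit 102) (.e (nat_lit 286756) (nat_lit 10) (.e (nat_lit 344117) (nat_lit 21) (.e (nat_lit 516170) (nat_lit 13) (.e (nat_lit 458774) (nat_lit 18) (.e (nat_lit 5224) (nat_lit 296) (.e (nat_lit 163868) (nat_lit 2) (.e (nat_lit 196691) (nat_lit 18) .nil)))))))) (.g (nat_lit 4) .nil .nil))))) (.nd (nat_lit 4) (.nd (nat_lit 5) 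
(.lf (nat_lit 51279) (.g (nat_lit 2259) (.e (nat_lit 1349) (nat_lit 102) (.e (nat_lit 286749) (nat_lit 9) (.e (nat_lit 336028) (nat_lit 3) (.e (nat_lit 98354) (nat_lit 26) (.e (nat_lit 426109) (nat_lit 1) (.e (nat_lit 164326) (nat_lit 230) (.e (nat_lit 163868) (nat_lit 2) (.e (nat_lit 196691) (nat_lit 18) .nil)))))))) (.g (nat_lit 4) .nil .nil))) 
(.lf (nat_lit 51311) (.g (nat_lit 2999) (.e (nat_lit 1349) (nat_lit 102) (.e (nat_lit 286756) (nat_lit 10) (.e (nat_lit 344117) (nat_lit 21) (.e (nat_lit 516159) (nat_lit 10) (.e (nat_lit 434209) (nat_lit 18) (.e (nat_lit 5224) (nat_lit 296) (.e (nat_lit 163871) (nat_lit 2) (.e (nat_lit 196691) (nat_lit 18) .nil)))))))) (.g (nat_lit 4) .nil .nil)))) (.nd (nat_lit 5) 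
(.lf (nat_lit 51295) (.g (nat_lit 2841) (.e (nat_lit 1349) (nat_lit 102) (.e (nat_lit 286749) (nat_lit 9) (.e (nat_lit 336028) (nat_lit 3) (.e (nat_lit 98367) (nat_lit 27) (.e (nat_lit 434278) (nat_lit 39) (.e (nat_lit 663584) (nat_lit 12) (.e (nat_lit 163979) (nat_lit 30) (.e (nat_lit 573503) (nat_lit 18) .nil)))))))) (.g (nat_lit 4) .nil .nil))) 
(.lf (nat_lit 51327) (.g (nat_lit 3132) (.e (nat_lit 1349) (nat_lit 102) (.e (nat_lit 286757) (nat_lit 11) (.e (nat_lit 368676) (nat_lit 21) (.e (nat_lit 516171) (nat_lit 13) (.e (nat_lit 458774) (nat_lit 18) (.e (nat_lit 5224) (nat_lit 296) (.e (nat_lit 163868) (nat_lit 2) (.e (nat_lit 196691) (nat_lit 18) .nil)))))))) (.g (nat_lit 5) .nil .nil)))))))))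

noncomputable def tv714 : DT := (.nd (nat_lit 0) (.nd (nat_lit 1) (.nd (nat_lit 2) (.nd (nat_lit 3) (.nd (nat_lit 4) (.nd (nat_lit 5) 
(.lf (nat_lit 51328) (.g (nat_lit 3433) (.e (nat_lit 1349) (nat_lit 102) (.e (nat_lit 286757) (nat_lit 11) (.e (nat_lit 368676) (nat_lit 21) (.e (nat_lit 516171) (nat_lit 13) (.e (nat_lit 458774) (nat_lit 18) (.e (nat_lit 5224) (nat_lit 296) (.e (nat_lit 163871) (nat_lit 2) (.e (nat_lit 196691) (nat_lit 18) .nil)))))))) (.g (nat_lit 6) .nil .nil))) 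
(.lf (nat_lit 51360) (.g (nat_lit 2737) (.e (nat_lit 1349) (nat_lit 102) (.e (nat_lit 286759) (nat_lit 12) (.e (nat_lit 385068) (nat_lit 26) (.e (nat_lit 532515) (nat_lit 3) (.e (nat_lit 114711) (nat_lit 21) (.e (nat_lit 57686) (nat_lit 156) (.e (nat_lit 163868) (nat_lit 2) (.e (nat_lit 196691) (nat_lit 18) .nil)))))))) (.g (nat_lit 4) .nil .nil)))) (.nd (nat_lit 5) 
(.lf (nat_lit 51344) (.g (nat_lit 2966) (.e (nat_lit 1349) (nat_lit 102) (.e (nat_lit 286759) (nat_lit 12) (.e (nat_lit 385068) (nat_lit 26) (.e (nat_lit 532513) (nat_lit 3) (.e (nat_lit 114710) (nat_lit 21) (.e (nat_lit 57688) (nat_lit 156) (.e (nat_lit 163871) (nat_lit 2) (.e (nat_lit 196691) (nat_lit 18) .nil)))))))) (.g (nat_lit 5) .nil .nil))) 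
(.lf (nat_lit 51376) (.g (nat_lit 3799) (.e (nat_lit 1349) (nat_lit 102) (.e (nat_lit 286759) (nat_lit 12) (.e (nat_lit 385072) (nat_lit 31) (.e (nat_lit 573492) (nat_lit 15) (.e (nat_lit 81953) (nat_lit 22) (.e (nat_lit 98048) (nat_lit 18) .nil)))))) (.g (nat_lit 5) .nil .nil))))) (.nd (nat_lit 4) (.nd (nat_lit 5) 
(.lf (nat_lit 51336) (.g (nat_lit 2372) (.e (nat_lit 1349) (nat_lit 102) (.e (nat_lit 286759) (nat_lit 12) (.e (nat_lit 385068) (nat_lit 26) (.e (nat_lit 532501) (nat_lit 1) (.e (nat_lit 57783) (nat_lit 239) .nil))))) .nil)) 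
(.lf (nat_lit 51368) (.g (nat_lit 4033) (.e (nat_lit 1349) (nat_lit 102) (.e (nat_lit 286759) (nat_lit 12) (.e (nat_lit 385068) (nat_lit 26) (.e (nat_lit 532515) (nat_lit 3) (.e (nat_lit 114711) (nat_lit 21) (.e (nat_lit 57691) (nat_lit 156) (.e (nat_lit 163871) (nat_lit 2) (.e (nat_lit 196691) (nat_lit 18) .nil)))))))) (.g (nat_lit 6) .nil .nil)))) (.nd (nat_lit 5) 
(.lf (nat_lit 51352) (.g (nat_lit 2493) (.e (nat_lit 1349) (nat_lit 102) (.e (nat_lit 286759) (nat_lit 12) (.e (nat_lit 385068) (nat_lit 26) (.e (nat_lit 532513) (nat_lit 3) (.e (nat_lit 114712) (nat_lit 21) (.e (nat_lit 57692) (nat_lit 156) (.e (nat_lit 163869) (nat_lit 2) (.e (nat_lit 196691) (nat_lit 18) .nil)))))))) (.g (nat_lit 4) .nil .nil))) 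
(.lf (nat_lit 51384) (.g (nat_lit 4639) (.e (nat_lit 1349) (nat_lit 102) (.e (nat_lit 286759) (nat_lit 12) (.e (nat_lit 385074) (nat_lit 31) (.e (nat_lit 573451) (nat_lit 9) (.e (nat_lit 1595) (nat_lit 111) .nil))))) .nil))))) (.nd (nat_lit 3) (.nd (nat_lit 4) (.nd (nat_lit 5) 
(.lf (nat_lit 51332) (.g (nat_lit 2033) (.e (nat_lit 1349) (nat_lit 102) (.e (nat_lit 286759) (nat_lit 12) (.e (nat_lit 385047) (nat_lit 21) (.e (nat_lit 4289) (nat_lit 254) (.e (nat_lit 122916) (nat_lit 14) (.e (nat_lit 352312) (nat_lit 22) (.e (nat_lit 98048) (nat_lit 18) .nil))))))) (.g (nat_lit 5) .nil .nil))) 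
(.lf (nat_lit 51364) (.g (nat_lit 4564) (.e (nat_lit 1349) (nat_lit 102) (.e (nat_lit 286759) (nat_lit 12) (.e (nat_lit 385068) (nat_lit 26) (.e (nat_lit 532515) (nat_lit 3) (.e (nat_lit 114711) (nat_lit 21) (.e (nat_lit 57688) (nat_lit 156) (.e (nat_lit 163868) (nat_lit 2) (.e (nat_lit 196691) (nat_lit 18) .nil)))))))) (.g (nat_lit 7) .nil .nil)))) (.nd (nat_lit 5) 
(.lf (nat_lit 51348) (.g (nat_lit 4129) (.e (nat_lit 1349) (nat_lit 102) (.e (nat_lit 286759) (nat_lit 12) (.e (nat_lit 385068) (nat_lit 26) (.e (nat_lit 532513) (nat_lit 3) (.e (nat_lit 114711) (nat_lit 21) (.e (nat_lit 57688) (nat_lit 156) (.e (nat_lit 163867) (nat_lit 2) (.e (nat_lit 196691) (nat_lit 18) .nil)))))))) (.g (nat_lit 6) .nil .nil))) 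
(.lf (nat_lit 51380) (.g (nat_lit 3673) (.e (nat_lit 1349) (nat_lit 102) (.e (nat_lit 286759) (nat_lit 12) (.e (nat_lit 385074) (nat_lit 31) (.e (nat_lit 573448) (nat_lit 9) .nil)))) .nil)))) (.nd (nat_lit 4) (.nd (nat_lit 5) 
(.lf (nat_lit 51340) (.g (nat_lit 3185) (.e (nat_lit 1349) (nat_lit 102) (.e (nat_lit 286759) (nat_lit 12) (.e (nat_lit 385068) (nat_lit 26) (.e (nat_lit 532513) (nat_lit 3) (.e (nat_lit 114710) (nat_lit 21) (.e (nat_lit 57686) (nat_lit 156) (.e (nat_lit 163868) (nat_lit 2) (.e (nat_lit 196691) (nat_lit 18) .nil)))))))) (.g (nat_lit 5) .nil .nil))) 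
(.lf (nat_lit 51372) (.g (nat_lit 4321) (.e (nat_lit 1349) (nat_lit 102) (.e (nat_lit 286759) (nat_lit 12) (.e (nat_lit 385068) (nat_lit 26) (.e (nat_lit 532515) (nat_lit 3) (.e (nat_lit 114712) (nat_lit 21) (.e (nat_lit 57691) (nat_lit 156) (.e (nat_lit 163869) (nat_lit 2) (.e (nat_lit 196691) (nat_lit 18) .nil)))))))) (.g (nat_lit 7) .nil .nil)))) (.nd (nat_lit 5) 
(.lf (nat_lit 51356) (.g (nat_lit 3802) (.e (nat_lit 1349) (nat_lit 102) (.e (nat_lit 286759) (nat_lit 12) (.e (nat_lit 385068) (nat_lit 26) (.e (nat_lit 532515) (nat_lit 3) (.e (nat_lit 114710) (nat_lit 21) (.e (nat_lit 57692) (nat_lit 156) (.e (nat_lit 163869) (nat_lit 2) (.e (nat_lit 196691) (nat_lit 18) .nil)))))))) (.g (nat_lit 6) .nil .nil))) 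
(.lf (nat_lit 51388) (.g (nat_lit 3653) (.e (nat_lit 1349) (nat_lit 102) (.e (nat_lit 286759) (nat_lit 12) (.e (nat_lit 385074) (nat_lit 31) (.e (nat_lit 573453) (nat_lit 9) .nil)))) .nil)))))) (.nd (nat_lit 2) (.nd (nat_lit 3) (.nd (nat_lit 4) (.nd (nat_lit 5) 
(.lf (nat_lit 51330) (.g (nat_lit 2734) (.e (nat_lit 1349) (nat_lit 102) (.e (nat_lit 286759) (nat_lit 12) (.e (nat_lit 385047) (nat_lit 21) (.e (nat_lit 4281) (nat_lit 253) (.e (nat_lit 57424) (nat_lit 14) (.e (nat_lit 352312) (nat_lit 22) (.e (nat_lit 98048) (nat_lit 18) .nil))))))) (.g (nat_lit 5) .nil .nil))) 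
(.lf (nat_lit 51362) (.g (nat_lit 3070) (.e (nat_lit 1349) (nat_lit 102) (.e (nat_lit 286759) (nat_lit 12) (.e (nat_lit 385068) (nat_lit 26) (.e (nat_lit 532515) (nat_lit 3) (.e (nat_lit 114711) (nat_lit 21) (.e (nat_lit 57687) (nat_lit 156) (.e (nat_lit 163867) (nat_lit 2) (.e (nat_lit 196691) (nat_lit 18) .nil)))))))) (.g (nat_lit 5) .nil .nil)))) (.nd (nat_lit 5) 
(.lf (nat_lit 51346) (.g (nat_lit 5023) (.e (nat_lit 1349) (nat_lit 102) (.e (nat_lit 286759) (nat_lit 12) (.e (nat_lit 385068) (nat_lit 26) (.e (nat_lit 532513) (nat_lit 3) (.e (nat_lit 114710) (nat_lit 21) (.e (nat_lit 57692) (nat_lit 156) (.e (nat_lit 163869) (nat_lit 2) (.e (nat_lit 196691) (nat_lit 18) .nil)))))))) (.g (nat_lit 7) .nil .nil))) 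
(.lf (nat_lit 51378) (.g (nat_lit 3135) (.e (nat_lit 1349) (nat_lit 102) (.e (nat_lit 286759) (nat_lit 12) (.e (nat_lit 385073) (nat_lit 31) (.e (nat_lit 573493) (nat_lit 15) (.e (nat_lit 81953) (nat_lit 22) (.e (nat_lit 98048) (nat_lit 18) .nil)))))) (.g (nat_lit 5) .nil .nil))))) (.nd (nat_lit 4) (.nd (nat_lit 5) 
(.lf (nat_lit 51338) (.g (nat_lit 2665) (.e (nat_lit 1349) (nat_lit 102) (.e (nat_lit 286759) (nat_lit 12) (.e (nat_lit 385068) (nat_lit 26) (.e (nat_lit 532501) (nat_lit 1) (.e (nat_lit 57783) (nat_lit 239) (.e (nat_lit 2640) (nat_lit 165) (.e (nat_lit 180271) (nat_lit 26) (.e (nat_lit 704818) (nat_lit 14) .nil)))))))) (.g (nat_lit 4) .nil .nil))) 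
(.lf (nat_lit 51370) (.g (nat_lit 2664) (.e (nat_lit 1349) (nat_lit 102) (.e (nat_lit 286759) (nat_lit 12) (.e (nat_lit 385068) (nat_lit 26) (.e (nat_lit 532515) (nat_lit 3) (.e (nat_lit 114711) (nat_lit 21) (.e (nat_lit 57692) (nat_lit 156) (.e (nat_lit 163871) (nat_lit 2) (.e (nat_lit 196691) (nat_lit 18) .nil)))))))) (.g (nat_lit 4) .nil .nil)))) (.nd (nat_lit 5) 
(.lf (nat_lit 51354) (.g (nat_lit 3554) (.e (nat_lit 1349) (nat_lit 102) (.e (nat_lit 286759) (nat_lit 12) (.e (nat_lit 385068) (nat_lit 26) (.e (nat_lit 532515) (nat_lit 3) (.e (nat_lit 114710) (nat_lit 21) (.e (nat_lit 57688) (nat_lit 156) (.e (nat_lit 163867) (nat_lit 2) (.e (nat_lit 196691) (nat_lit 18) .nil)))))))) (.g (nat_lit 6) .nil .nil))) 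
(.lf (nat_lit 51386) (.g (nat_lit 3427) (.e (nat_lit 1349) (nat_lit 102) (.e (nat_lit 286759) (nat_lit 12) (.e (nat_lit 385074) (nat_lit 31) (.e (nat_lit 573452) (nat_lit 9) (.e (nat_lit 1562) (nat_lit 110) .nil))))) .nil))))) (.nd (nat_lit 3) (.nd (nat_lit 4) (.nd (nat_lit 5) 
(.lf (nat_lit 51334) (.g (nat_lit 2741) (.e (nat_lit 1349) (nat_lit 102) (.e (nat_lit 286759) (nat_lit 12) (.e (nat_lit 392960) (nat_lit 24) (.e (nat_lit 516151) (nat_lit 9) (.e (nat_lit 426285) (nat_lit 10) (.e (nat_lit 434292) (nat_lit 44) (.e (nat_lit 704818) (nat_lit 14) .nil))))))) (.g (nat_lit 5) .nil .nil))) 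
(.lf (nat_lit 51366) (.g (nat_lit 3833) (.e (nat_lit 1349) (nat_lit 102) (.e (nat_lit 286759) (nat_lit 12) (.e (nat_lit 385068) (nat_lit 26) (.e (nat_lit 532515) (nat_lit 3) (.e (nat_lit 114711) (nat_lit 21) (.e (nat_lit 57688) (nat_lit 156) (.e (nat_lit 163871) (nat_lit 2) (.e (nat_lit 196691) (nat_lit 18) .nil)))))))) (.g (nat_lit 6) .nil .nil)))) (.nd (nat_lit 5) 
(.lf (nat_lit 51350) (.g (nat_lit 2965) (.e (nat_lit 1349) (nat_lit 102) (.e (nat_lit 286759) (nat_lit 12) (.e (nat_lit 385068) (nat_lit 26) (.e (nat_lit 532513) (nat_lit 3) (.e (nat_lit 114711) (nat_lit 21) (.e (nat_lit 57688) (nat_lit 156) (.e (nat_lit 163871) (nat_lit 2) (.e (nat_lit 196691) (nat_lit 18) .nil)))))))) (.g (nat_lit 4) .nil .nil))) 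
(.lf (nat_lit 51382) (.g (nat_lit 4043) (.e (nat_lit 1349) (nat_lit 102) (.e (nat_lit 286759) (nat_lit 12) (.e (nat_lit 385074) (nat_lit 31) (.e (nat_lit 573449) (nat_lit 9) (.e (nat_lit 1571) (nat_lit 110) .nil))))) .nil)))) (.nd (nat_lit 4) (.nd (nat_lit 5) 
(.lf (nat_lit 51342) (.g (nat_lit 4775) (.e (nat_lit 1349) (nat_lit 102) (.e (nat_lit 286759) (nat_lit 12) (.e (nat_lit 385068) (nat_lit 26) (.e (nat_lit 532513) (nat_lit 3) (.e (nat_lit 114710) (nat_lit 21) (.e (nat_lit 57688) (nat_lit 156) (.e (nat_lit 163867) (nat_lit 2) (.e (nat_lit 196691) (nat_lit 18) .nil)))))))) (.g (nat_lit 7) .nil .nil))) 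
(.lf (nat_lit 51374) (.g (nat_lit 4905) (.e (nat_lit 1349) (nat_lit 102) (.e (nat_lit 286759) (nat_lit 12) (.e (nat_lit 385068) (nat_lit 26) (.e (nat_lit 532515) (nat_lit 3) (.e (nat_lit 114712) (nat_lit 21) (.e (nat_lit 57692) (nat_lit 156) (.e (nat_lit 163869) (nat_lit 2) (.e (nat_lit 196691) (nat_lit 18) .nil)))))))) (.g (nat_lit 0) .nil .nil)))) (.nd (nat_lit 5) 
(.lf (nat_lit 51358) (.g (nat_lit 2444) (.e (nat_lit 1349) (nat_lit 102) (.e (nat_lit 286759) (nat_lit 12) (.e (nat_lit 385068) (nat_lit 26) (.e (nat_lit 532515) (nat_lit 3) (.e (nat_lit 114711) (nat_lit 21) (.e (nat_lit 57685) (nat_lit 156) (.e (nat_lit 163867) (nat_lit 2) (.e (nat_lit 196691) (nat_lit 18) .nil)))))))) (.g (nat_lit 4) .nil .nil))) 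
(.lf (nat_lit 51390) (.g (nat_lit 1325) (.e (nat_lit 1349) (nat_lit 102) (.e (nat_lit 286759) (nat_lit 12) (.e (nat_lit 385074) (nat_lit 31) (.e (nat_lit 573456) (nat_lit 9) .nil)))) .nil))))))) (.nd (nat_lit 1) (.nd (nat_lit 2) (.nd (nat_lit 3) (.nd (nat_lit 4) (.nd (nat_lit 5) 
(.lf (nat_lit 51329) (.g (nat_lit 1475) (.e (nat_lit 1349) (nat_lit 102) (.e (nat_lit 286758) (nat_lit 12) (.e (nat_lit 385073) (nat_lit 31) (.e (nat_lit 573493) (nat_lit 15) (.e (nat_lit 81953) (nat_lit 22) .nil))))) .nil)) 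
(.lf (nat_lit 51361) (.g (nat_lit 2475) (.e (nat_lit 1349) (nat_lit 102) (.e (nat_lit 286759) (nat_lit 12) (.e (nat_lit 385068) (nat_lit 26) (.e (nat_lit 532515) (nat_lit 3) (.e (nat_lit 114711) (nat_lit 21) (.e (nat_lit 57686) (nat_lit 156) (.e (nat_lit 163871) (nat_lit 2) (.e (nat_lit 196691) (nat_lit 18) .nil)))))))) (.g (nat_lit 4) .nil .nil)))) (.nd (nat_lit 5) 
(.lf (nat_lit 51345) (.g (nat_lit 4401) (.e (nat_lit 1349) (nat_lit 102) (.e (nat_lit 286759) (nat_lit 12) (.e (nat_lit 385068) (nat_lit 26) (.e (nat_lit 532513) (nat_lit 3) (.e (nat_lit 114710) (nat_lit 21) (.e (nat_lit 57691) (nat_lit 156) (.e (nat_lit 163871) (nat_lit 2) (.e (nat_lit 196691) (nat_lit 18) .nil)))))))) (.g (nat_lit 6) .nil .nil))) 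
(.lf (nat_lit 51377) (.g (nat_lit 2385) (.e (nat_lit 1349) (nat_lit 102) (.e (nat_lit 286759) (nat_lit 12) (.e (nat_lit 385072) (nat_lit 31) (.e (nat_lit 573493) (nat_lit 15) (.e (nat_lit 81953) (nat_lit 22) (.e (nat_lit 98048) (nat_lit 18) .nil)))))) (.g (nat_lit 4) .nil .nil))))) (.nd (nat_lit 4) (.nd (nat_lit 5) 
(.lf (nat_lit 51337) (.g (nat_lit 2834) (.e (nat_lit 1349) (nat_lit 102) (.e (nat_lit 286759) (nat_lit 12) (.e (nat_lit 385068) (nat_lit 26) (.e (nat_lit 532501) (nat_lit 1) (.e (nat_lit 57783) (nat_lit 239) (.e (nat_lit 2638) (nat_lit 165) (.e (nat_lit 180271) (nat_lit 26) (.e (nat_lit 704818) (nat_lit 14) .nil)))))))) (.g (nat_lit 4) .nil .nil))) 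
(.lf (nat_lit 51369) (.g (nat_lit 3408) (.e (nat_lit 1349) (nat_lit 102) (.e (nat_lit 286759) (nat_lit 12) (.e (nat_lit 385068) (nat_lit 26) (.e (nat_lit 532515) (nat_lit 3) (.e (nat_lit 114711) (nat_lit 21) (.e (nat_lit 57692) (nat_lit 156) (.e (nat_lit 163869) (nat_lit 2) (.e (nat_lit 196691) (nat_lit 18) .nil)))))))) (.g (nat_lit 5) .nil .nil)))) (.nd (nat_lit 5) 
(.lf (nat_lit 51353) (.g (nat_lit 1014) (.e (nat_lit 1349) (nat_lit 102) (.e (nat_lit 286759) (nat_lit 12) (.e (nat_lit 385068) (nat_lit 26) (.e (nat_lit 532515) (nat_lit 3) .nil)))) .nil)) 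
(.lf (nat_lit 51385) (.g (nat_lit 2477) (.e (nat_lit 1349) (nat_lit 102) (.e (nat_lit 286759) (nat_lit 12) (.e (nat_lit 385074) (nat_lit 31) (.e (nat_lit 573452) (nat_lit 9) .nil)))) .nil))))) (.nd (nat_lit 3) (.nd (nat_lit 4) (.nd (nat_lit 5) 
(.lf (nat_lit 51333) (.g (nat_lit 2407) (.e (nat_lit 1349) (nat_lit 102) (.e (nat_lit 286759) (nat_lit 12) (.e (nat_lit 392960) (nat_lit 24) (.e (nat_lit 516151) (nat_lit 9) (.e (nat_lit 426211) (nat_lit 9) (.e (nat_lit 426025) (nat_lit 0) (.e (nat_lit 3480) (nat_lit 218) (.e (nat_lit 704826) (nat_lit 14) .nil)))))))) (.g (nat_lit 5) .nil .nil))) 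
(.lf (nat_lit 51365) (.g (nat_lit 3870) (.e (nat_lit 1349) (nat_lit 102) (.e (nat_lit 286759) (nat_lit 12) (.e (nat_lit 385068) (nat_lit 26) (.e (nat_lit 532515) (nat_lit 3) (.e (nat_lit 114711) (nat_lit 21) (.e (nat_lit 57688) (nat_lit 156) (.e (nat_lit 163869) (nat_lit 2) (.e (nat_lit 196691) (nat_lit 18) .nil)))))))) (.g (nat_lit 6) .nil .nil)))) (.nd (nat_lit 5) 
(.lf (nat_lit 51349) (.g (nat_lit 3002) (.e (nat_lit 1349) (nat_lit 102) (.e (nat_lit 286759) (nat_lit 12) (.e (nat_lit 385068) (nat_lit 26) (.e (nat_lit 532513) (nat_lit 3) (.e (nat_lit 114711) (nat_lit 21) (.e (nat_lit 57688) (nat_lit 156) (.e (nat_lit 163869) (nat_lit 2) (.e (nat_lit 196691) (nat_lit 18) .nil)))))))) (.g (nat_lit 5) .nil .nil))) 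
(.lf (nat_lit 51381) (.g (nat_lit 2855) (.e (nat_lit 1349) (nat_lit 102) (.e (nat_lit 286759) (nat_lit 12) (.e (nat_lit 385074) (nat_lit 31) (.e (nat_lit 573449) (nat_lit 9) .nil)))) .nil)))) (.nd (nat_lit 4) (.nd (nat_lit 5) 
(.lf (nat_lit 51341) (.g (nat_lit 2923) (.e (nat_lit 1349) (nat_lit 102) (.e (nat_lit 286759) (nat_lit 12) (.e (nat_lit 385068) (nat_lit 26) (.e (nat_lit 532513) (nat_lit 3) (.e (nat_lit 114710) (nat_lit 21) (.e (nat_lit 57686) (nat_lit 156) (.e (nat_lit 163871) (nat_lit 2) (.e (nat_lit 196691) (nat_lit 18) .nil)))))))) (.g (nat_lit 4) .nil .nil))) 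
(.lf (nat_lit 51373) (.g (nat_lit 4830) (.e (nat_lit 1349) (nat_lit 102) (.e (nat_lit 286759) (nat_lit 12) (.e (nat_lit 385068) (nat_lit 26) (.e (nat_lit 532515) (nat_lit 3) (.e (nat_lit 114712) (nat_lit 21) (.e (nat_lit 57691) (nat_lit 156) (.e (nat_lit 163871) (nat_lit 2) (.e (nat_lit 196691) (nat_lit 18) .nil)))))))) (.g (nat_lit 7) .nil .nil)))) (.nd (nat_lit 5) 
(.lf (nat_lit 51357) (.g (nat_lit 3061) (.e (nat_lit 1349) (nat_lit 102) (.e (nat_lit 286759) (nat_lit 12) (.e (nat_lit 385068) (nat_lit 26) (.e (nat_lit 532515) (nat_lit 3) (.e (nat_lit 114710) (nat_lit 21) (.e (nat_lit 57692) (nat_lit 156) (.e (nat_lit 163871) (nat_lit 2) (.e (nat_lit 196691) (nat_lit 18) .nil)))))))) (.g (nat_lit 5) .nil .nil))) 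
(.lf (nat_lit 51389) (.g (nat_lit 4140) (.e (nat_lit 1349) (nat_lit 102) (.e (nat_lit 286759) (nat_lit 12) (.e (nat_lit 385074) (nat_lit 31) (.e (nat_lit 573454) (nat_lit 9) (.e (nat_lit 7936) (nat_lit 108) (.e (nat_lit 336099) (nat_lit 9) (.e (nat_lit 336013) (nat_lit 2) (.e (nat_lit 98048) (nat_lit 18) .nil)))))))) (.g (nat_lit 4) .nil .nil))))))) 
(.nd (nat_lit 2) (.nd (nat_lit 3) (.nd (nat_lit 4) (.nd (nat_lit 5) 
(.lf (nat_lit 51331) (.g (nat_lit 2493) (.e (nat_lit 1349) (nat_lit 102) (.e (nat_lit 286759) (nat_lit 12) (.e (nat_lit 385047) (nat_lit 21) (.e (nat_lit 4288) (nat_lit 254) (.e (nat_lit 122916) (nat_lit 14) (.e (nat_lit 352312) (nat_lit 22) (.e (nat_lit 98048) (nat_lit 18) .nil))))))) (.g (nat_lit 5) .nil .nil))) 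
(.lf (nat_lit 51363) (.g (nat_lit 4978) (.e (nat_lit 1349) (nat_lit 102) (.e (nat_lit 286759) (nat_lit 12) (.e (nat_lit 385068) (nat_lit 26) (.e (nat_lit 532515) (nat_lit 3) (.e (nat_lit 114711) (nat_lit 21) (.e (nat_lit 57688) (nat_lit 156) (.e (nat_lit 163867) (nat_lit 2) (.e (nat_lit 196691) (nat_lit 18) .nil)))))))) (.g (nat_lit 0) .nil .nil)))) (.nd (nat_lit 5) 
(.lf (nat_lit 51347) (.g (nat_lit 4282) (.e (nat_lit 1349) (nat_lit 102) (.e (nat_lit 286759) (nat_lit 12) (.e (nat_lit 385068) (nat_lit 26) (.e (nat_lit 532513) (nat_lit 3) (.e (nat_lit 114710) (nat_lit 21) (.e (nat_lit 57692) (nat_lit 156) (.e (nat_lit 163871) (nat_lit 2) (.e (nat_lit 196691) (nat_lit 18) .nil)))))))) (.g (nat_lit 6) .nil .nil))) 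
(.lf (nat_lit 51379) (.g (nat_lit 353) (.e (nat_lit 1349) (nat_lit 102) (.e (nat_lit 286759) (nat_lit 12) (.e (nat_lit 385074) (nat_lit 31) .nil))) .nil)))) (.nd (nat_lit 4) (.nd (nat_lit 5) 
(.lf (nat_lit 51339) (.g (nat_lit 2747) (.e (nat_lit 1349) (nat_lit 102) (.e (nat_lit 286759) (nat_lit 12) (.e (nat_lit 385068) (nat_lit 26) (.e (nat_lit 532513) (nat_lit 3) (.e (nat_lit 114710) (nat_lit 21) (.e (nat_lit 57686) (nat_lit 156) (.e (nat_lit 163867) (nat_lit 2) (.e (nat_lit 196691) (nat_lit 18) .nil)))))))) (.g (nat_lit 4) .nil .nil))) 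
(.lf (nat_lit 51371) (.g (nat_lit 2217) (.e (nat_lit 1349) (nat_lit 102) (.e (nat_lit 286759) (nat_lit 12) (.e (nat_lit 385068) (nat_lit 26) (.e (nat_lit 532515) (nat_lit 3) (.e (nat_lit 114712) (nat_lit 21) (.e (nat_lit 57689) (nat_lit 156) (.e (nat_lit 163871) (nat_lit 2) (.e (nat_lit 196691) (nat_lit 18) .nil)))))))) (.g (nat_lit 4) .nil .nil)))) (.nd (nat_lit 5) 
(.lf (nat_lit 51355) (.g (nat_lit 3180) (.e (nat_lit 1349) (nat_lit 102) (.e (nat_lit 286759) (nat_lit 12) (.e (nat_lit 385068) (nat_lit 26) (.e (nat_lit 532515) (nat_lit 3) (.e (nat_lit 114710) (nat_lit 21) (.e (nat_lit 57691) (nat_lit 156) (.e (nat_lit 163871) (nat_lit 2) (.e (nat_lit 196691) (nat_lit 18) .nil)))))))) (.g (nat_lit 5) .nil .nil))) 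
(.lf (nat_lit 51387) (.g (nat_lit 3408) (.e (nat_lit 1349) (nat_lit 102) (.e (nat_lit 286759) (nat_lit 12) (.e (nat_lit 385074) (nat_lit 31) (.e (nat_lit 573452) (nat_lit 9) (.e (nat_lit 1571) (nat_lit 110) .nil))))) .nil))))) (.nd (nat_lit 3) (.nd (nat_lit 4) (.nd (nat_lit 5) 
(.lf (nat_lit 51335) (.g (nat_lit 2318) (.e (nat_lit 1349) (nat_lit 102) (.e (nat_lit 286759) (nat_lit 12) (.e (nat_lit 392960) (nat_lit 24) (.e (nat_lit 516166) (nat_lit 12) (.e (nat_lit 450603) (nat_lit 22) (.e (nat_lit 704818) (nat_lit 14) .nil)))))) (.g (nat_lit 4) .nil .nil))) 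
(.lf (nat_lit 51367) (.g (nat_lit 3479) (.e (nat_lit 1349) (nat_lit 102) (.e (nat_lit 286759) (nat_lit 12) (.e (nat_lit 385068) (nat_lit 26) (.e (nat_lit 532515) (nat_lit 3) (.e (nat_lit 114711) (nat_lit 21) (.e (nat_lit 57691) (nat_lit 156) (.e (nat_lit 163869) (nat_lit 2) (.e (nat_lit 196691) (nat_lit 18) .nil)))))))) (.g (nat_lit 5) .nil .nil)))) (.nd (nat_lit 5) 
(.lf (nat_lit 51351) (.g (nat_lit 2610) (.e (nat_lit 1349) (nat_lit 102) (.e (nat_lit 286759) (nat_lit 12) (.e (nat_lit 385068) (nat_lit 26) (.e (nat_lit 532513) (nat_lit 3) (.e (nat_lit 114711) (nat_lit 21) (.e (nat_lit 57691) (nat_lit 156) (.e (nat_lit 163871) (nat_lit 2) (.e (nat_lit 196691) (nat_lit 18) .nil)))))))) (.g (nat_lit 4) .nil .nil))) 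
(.lf (nat_lit 51383) (.g (nat_lit 3739) (.e (nat_lit 1349) (nat_lit 102) (.e (nat_lit 286759) (nat_lit 12) (.e (nat_lit 385074) (nat_lit 31) (.e (nat_lit 573451) (nat_lit 9) .nil)))) .nil)))) (.nd (nat_lit 4) (.nd (nat_lit 5) 
(.lf (nat_lit 51343) (.g (nat_lit 3003) (.e (nat_lit 1349) (nat_lit 102) (.e (nat_lit 286759) (nat_lit 12) (.e (nat_lit 385068) (nat_lit 26) (.e (nat_lit 532513) (nat_lit 3) (.e (nat_lit 114710) (nat_lit 21) (.e (nat_lit 57688) (nat_lit 156) (.e (nat_lit 163869) (nat_lit 2) (.e (nat_lit 196691) (nat_lit 18) .nil)))))))) (.g (nat_lit 5) .nil .nil))) 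
(.lf (nat_lit 51375) (.g (nat_lit 4342) (.e (nat_lit 1349) (nat_lit 102) (.e (nat_lit 286759) (nat_lit 12) (.e (nat_lit 385068) (nat_lit 26) (.e (nat_lit 532515) (nat_lit 3) (.e (nat_lit 114712) (nat_lit 21) (.e (nat_lit 57692) (nat_lit 156) (.e (nat_lit 163871) (nat_lit 2) (.e (nat_lit 196691) (nat_lit 18) .nil)))))))) (.g (nat_lit 7) .nil .nil)))) (.nd (nat_lit 5) 
(.lf (nat_lit 51359) (.g (nat_lit 2299) (.e (nat_lit 1349) (nat_lit 102) (.e (nat_lit 286759) (nat_lit 12) (.e (nat_lit 385068) (nat_lit 26) (.e (nat_lit 532515) (nat_lit 3) (.e (nat_lit 114711) (nat_lit 21) (.e (nat_lit 57686) (nat_lit 156) (.e (nat_lit 163867) (nat_lit 2) (.e (nat_lit 196691) (nat_lit 18) .nil)))))))) (.g (nat_lit 4) .nil .nil))) 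
(.lf (nat_lit 51391) (.g (nat_lit 3704) (.e (nat_lit 1349) (nat_lit 102) (.e (nat_lit 286759) (nat_lit 12) (.e (nat_lit 385074) (nat_lit 31) (.e (nat_lit 573456) (nat_lit 9) (.e (nat_lit 1413) (nat_lit 108) (.e (nat_lit 336099) (nat_lit 9) (.e (nat_lit 336013) (nat_lit 2) (.e (nat_lit 98048) (nat_lit 18) .nil)))))))) (.g (nat_lit 7) .nil .nil)))))))))

noncomputable def tv715 : DT := (.nd (nat_lit 0) (.nd (nat_lit 1) (.nd (nat_lit 2) (.nd (nat_lit 3) (.nd (nat_lit 4) (.nd (nat_lit 5) 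
(.lf (nat_lit 51392) (.g (nat_lit 3364) (.e (nat_lit 1349) (nat_lit 102) (.e (nat_lit 286759) (nat_lit 12) (.e (nat_lit 385074) (nat_lit 31) (.e (nat_lit 573456) (nat_lit 9) (.e (nat_lit 1439) (nat_lit 108) (.e (nat_lit 336099) (nat_lit 9) (.e (nat_lit 336013) (nat_lit 2) (.e (nat_lit 98048) (nat_lit 18) .nil)))))))) (.g (nat_lit 6) .nil .nil))) 
(.lf (nat_lit 51424) (.g (nat_lit 2455) (.e (nat_lit 1349) (nat_lit 102) (.e (nat_lit 286759) (nat_lit 12) (.e (nat_lit 385074) (nat_lit 31) (.e (nat_lit 573456) (nat_lit 9) (.e (nat_lit 1616) (nat_lit 113) .nil))))) .nil))) (.nd (nat_lit 5) 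
(.lf (nat_lit 51408) (.g (nat_lit 3034) (.e (nat_lit 1349) (nat_lit 102) (.e (nat_lit 286759) (nat_lit 12) (.e (nat_lit 385074) (nat_lit 31) (.e (nat_lit 573456) (nat_lit 9) (.e (nat_lit 1564) (nat_lit 110) (.e (nat_lit 352311) (nat_lit 22) (.e (nat_lit 98048) (nat_lit 18) .nil))))))) (.g (nat_lit 4) .nil .nil))) 
(.lf (nat_lit 51440) (.g (nat_lit 4711) (.e (nat_lit 1349) (nat_lit 102) (.e (nat_lit 286759) (nat_lit 12) (.e (nat_lit 385074) (nat_lit 31) (.e (nat_lit 573479) (nat_lit 13) (.e (nat_lit 65598) (nat_lit 9) (.e (nat_lit 336013) (nat_lit 2) (.e (nat_lit 98048) (nat_lit 18) .nil))))))) (.g (nat_lit 6) .nil .nil))))) (.nd (nat_lit 4) (.nd (nat_lit 5) 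
(.lf (nat_lit 51400) (.g (nat_lit 3557) (.e (nat_lit 1349) (nat_lit 102) (.e (nat_lit 286759) (nat_lit 12) (.e (nat_lit 385074) (nat_lit 31) (.e (nat_lit 573456) (nat_lit 9) (.e (nat_lit 1453) (nat_lit 108) (.e (nat_lit 336099) (nat_lit 9) (.e (nat_lit 336013) (nat_lit 2) (.e (nat_lit 98048) (nat_lit 18) .nil)))))))) (.g (nat_lit 7) .nil .nil))) 
(.lf (nat_lit 51432) (.g (nat_lit 3199) (.e (nat_lit 1349) (nat_lit 102) (.e (nat_lit 286759) (nat_lit 12) (.e (nat_lit 385074) (nat_lit 31) (.e (nat_lit 573459) (nat_lit 9) .nil)))) .nil))) (.nd (nat_lit 5) 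
(.lf (nat_lit 51416) (.g (nat_lit 2674) (.e (nat_lit 1349) (nat_lit 102) (.e (nat_lit 286759) (nat_lit 12) (.e (nat_lit 385074) (nat_lit 31) (.e (nat_lit 573456) (nat_lit 9) (.e (nat_lit 1576) (nat_lit 110) (.e (nat_lit 352311) (nat_lit 22) (.e (nat_lit 98048) (nat_lit 18) .nil))))))) (.g (nat_lit 4) .nil .nil))) 
(.lf (nat_lit 51448) (.g (nat_lit 4477) (.e (nat_lit 1349) (nat_lit 102) (.e (nat_lit 286759) (nat_lit 12) (.e (nat_lit 385074) (nat_lit 31) (.e (nat_lit 573482) (nat_lit 13) (.e (nat_lit 65597) (nat_lit 9) .nil))))) .nil))))) (.nd (nat_lit 3) (.nd (nat_lit 4) (.nd (nat_lit 5) 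
(.lf (nat_lit 51396) (.g (nat_lit 3522) (.e (nat_lit 1349) (nat_lit 102) (.e (nat_lit 286759) (nat_lit 12) (.e (nat_lit 385074) (nat_lit 31) (.e (nat_lit 573456) (nat_lit 9) (.e (nat_lit 1446) (nat_lit 108) (.e (nat_lit 336099) (nat_lit 9) (.e (nat_lit 336013) (nat_lit 2) (.e (nat_lit 98048) (nat_lit 18) .nil)))))))) (.g (nat_lit 6) .nil .nil))) 
(.lf (nat_lit 51428) (.g (nat_lit 2484) (.e (nat_lit 1349) (nat_lit 102) (.e (nat_lit 286759) (nat_lit 12) (.e (nat_lit 385074) (nat_lit 31) (.e (nat_lit 573457) (nat_lit 9) (.e (nat_lit 1562) (nat_lit 110) .nil))))) .nil))) (.nd (nat_lit 5) 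
(.lf (nat_lit 51412) (.g (nat_lit 2676) (.e (nat_lit 1349) (nat_lit 102) (.e (nat_lit 286759) (nat_lit 12) (.e (nat_lit 385074) (nat_lit 31) (.e (nat_lit 573456) (nat_lit 9) (.e (nat_lit 1569) (nat_lit 110) (.e (nat_lit 352312) (nat_lit 22) (.e (nat_lit 98048) (nat_lit 18) .nil))))))) (.g (nat_lit 4) .nil .nil))) 
(.lf (nat_lit 51444) (.g (nat_lit 5940) (.e (nat_lit 1349) (nat_lit 102) (.e (nat_lit 286759) (nat_lit 12) (.e (nat_lit 385074) (nat_lit 31) (.e (nat_lit 573481) (nat_lit 13) (.e (nat_lit 65598) (nat_lit 9) (.e (nat_lit 336013) (nat_lit 2) (.e (nat_lit 98048) (nat_lit 18) .nil))))))) (.g (nat_lit 5) .nil .nil))))) (.nd (nat_lit 4) (.nd (nat_lit 5) 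
(.lf (nat_lit 51404) (.g (nat_lit 2440) (.e (nat_lit 1349) (nat_lit 102) (.e (nat_lit 286759) (nat_lit 12) (.e (nat_lit 385074) (nat_lit 31) (.e (nat_lit 573456) (nat_lit 9) (.e (nat_lit 1559) (nat_lit 110) .nil))))) .nil)) 
(.lf (nat_lit 51436) (.g (nat_lit 4351) (.e (nat_lit 1349) (nat_lit 102) (.e (nat_lit 286759) (nat_lit 12) (.e (nat_lit 385074) (nat_lit 31) (.e (nat_lit 573463) (nat_lit 9) (.e (nat_lit 1454) (nat_lit 108) (.e (nat_lit 336099) (nat_lit 9) (.e (nat_lit 336013) (nat_lit 2) (.e (nat_lit 98048) (nat_lit 18) .nil)))))))) (.g (nat_lit 4) .nil .nil)))) (.nd (nat_lit 5) 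
(.lf (nat_lit 51420) (.g (nat_lit 2498) (.e (nat_lit 1349) (nat_lit 102) (.e (nat_lit 286759) (nat_lit 12) (.e (nat_lit 385074) (nat_lit 31) (.e (nat_lit 573456) (nat_lit 9) (.e (nat_lit 1596) (nat_lit 111) .nil))))) .nil)) 
(.lf (nat_lit 51452) (.g (nat_lit 4330) (.e (nat_lit 1349) (nat_lit 102) (.e (nat_lit 286759) (nat_lit 12) (.e (nat_lit 385074) (nat_lit 31) (.e (nat_lit 573482) (nat_lit 13) (.e (nat_lit 65603) (nat_lit 9) (.e (nat_lit 336013) (nat_lit 2) (.e (nat_lit 98048) (nat_lit 18) .nil))))))) (.g (nat_lit 4) .nil .nil))))))) (.nd (nat_lit 2) (.nd (nat_lit 3) (.nd (nat_lit 4) (.nd (nat_lit 5) 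
(.lf (nat_lit 51394) (.g (nat_lit 4111) (.e (nat_lit 1349) (nat_lit 102) (.e (nat_lit 286759) (nat_lit 12) (.e (nat_lit 385074) (nat_lit 31) (.e (nat_lit 573456) (nat_lit 9) (.e (nat_lit 1443) (nat_lit 108) (.e (nat_lit 336099) (nat_lit 9) (.e (nat_lit 336013) (nat_lit 2) (.e (nat_lit 98048) (nat_lit 18) .nil)))))))) (.g (nat_lit 7) .nil .nil))) 
(.lf (nat_lit 51426) (.g (nat_lit 3374) (.e (nat_lit 1349) (nat_lit 102) (.e (nat_lit 286759) (nat_lit 12) (.e (nat_lit 385074) (nat_lit 31) (.e (nat_lit 573457) (nat_lit 9) (.e (nat_lit 1449) (nat_lit 108) (.e (nat_lit 336099) (nat_lit 9) (.e (nat_lit 336013) (nat_lit 2) (.e (nat_lit 98048) (nat_lit 18) .nil)))))))) (.g (nat_lit 6) .nil .nil)))) (.nd (nat_lit 5) 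
(.lf (nat_lit 51410) (.g (nat_lit 2598) (.e (nat_lit 1349) (nat_lit 102) (.e (nat_lit 286759) (nat_lit 12) (.e (nat_lit 385074) (nat_lit 31) (.e (nat_lit 573456) (nat_lit 9) (.e (nat_lit 1566) (nat_lit 110) (.e (nat_lit 352311) (nat_lit 22) (.e (nat_lit 98048) (nat_lit 18) .nil))))))) (.g (nat_lit 4) .nil .nil))) 
(.lf (nat_lit 51442) (.g (nat_lit 5445) (.e (nat_lit 1349) (nat_lit 102) (.e (nat_lit 286759) (nat_lit 12) (.e (nat_lit 385074) (nat_lit 31) (.e (nat_lit 573480) (nat_lit 13) (.e (nat_lit 65598) (nat_lit 9) (.e (nat_lit 336013) (nat_lit 2) (.e (nat_lit 98048) (nat_lit 18) .nil))))))) (.g (nat_lit 5) .nil .nil))))) (.nd (nat_lit 4) (.nd (nat_lit 5) 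
(.lf (nat_lit 51402) (.g (nat_lit 3531) (.e (nat_lit 1349) (nat_lit 102) (.e (nat_lit 286759) (nat_lit 12) (.e (nat_lit 385074) (nat_lit 31) (.e (nat_lit 573456) (nat_lit 9) (.e (nat_lit 1461) (nat_lit 108) (.e (nat_lit 336099) (nat_lit 9) (.e (nat_lit 336013) (nat_lit 2) (.e (nat_lit 98048) (nat_lit 18) .nil)))))))) (.g (nat_lit 7) .nil .nil))) 
(.lf (nat_lit 51434) (.g (nat_lit 3724) (.e (nat_lit 1349) (nat_lit 102) (.e (nat_lit 286759) (nat_lit 12) (.e (nat_lit 385074) (nat_lit 31) (.e (nat_lit 573462) (nat_lit 9) .nil)))) .nil))) (.nd (nat_lit 5) 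
(.lf (nat_lit 51418) (.g (nat_lit 2658) (.e (nat_lit 1349) (nat_lit 102) (.e (nat_lit 286759) (nat_lit 12) (.e (nat_lit 385074) (nat_lit 31) (.e (nat_lit 573456) (nat_lit 9) (.e (nat_lit 1590) (nat_lit 111) (.e (nat_lit 360459) (nat_lit 1) (.e (nat_lit 507648) (nat_lit 0) .nil))))))) (.g (nat_lit 4) .nil .nil))) 
(.lf (nat_lit 51450) (.g (nat_lit 4513) (.e (nat_lit 1349) (nat_lit 102) (.e (nat_lit 286759) (nat_lit 12) (.e (nat_lit 385074) (nat_lit 31) (.e (nat_lit 573482) (nat_lit 13) (.e (nat_lit 65600) (nat_lit 9) .nil))))) .nil))))) (.nd (nat_lit 3) (.nd (nat_lit 4) (.nd (nat_lit 5) 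
(.lf (nat_lit 51398) (.g (nat_lit 3971) (.e (nat_lit 1349) (nat_lit 102) (.e (nat_lit 286759) (nat_lit 12) (.e (nat_lit 385074) (nat_lit 31) (.e (nat_lit 573456) (nat_lit 9) (.e (nat_lit 1449) (nat_lit 108) (.e (nat_lit 336099) (nat_lit 9) (.e (nat_lit 336013) (nat_lit 2) (.e (nat_lit 98048) (nat_lit 18) .nil)))))))) (.g (nat_lit 7) .nil .nil))) 
(.lf (nat_lit 51430) (.g (nat_lit 2439) (.e (nat_lit 1349) (nat_lit 102) (.e (nat_lit 286759) (nat_lit 12) (.e (nat_lit 385074) (nat_lit 31) (.e (nat_lit 573457) (nat_lit 9) (.e (nat_lit 1592) (nat_lit 111) .nil))))) .nil))) (.nd (nat_lit 5) 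
(.lf (nat_lit 51414) (.g (nat_lit 3203) (.e (nat_lit 1349) (nat_lit 102) (.e (nat_lit 286759) (nat_lit 12) (.e (nat_lit 385074) (nat_lit 31) (.e (nat_lit 573456) (nat_lit 9) (.e (nat_lit 1573) (nat_lit 110) (.e (nat_lit 352311) (nat_lit 22) (.e (nat_lit 98048) (nat_lit 18) .nil))))))) (.g (nat_lit 5) .nil .nil))) 
(.lf (nat_lit 51446) (.g (nat_lit 4545) (.e (nat_lit 1349) (nat_lit 102) (.e (nat_lit 286759) (nat_lit 12) (.e (nat_lit 385074) (nat_lit 31) (.e (nat_lit 573482) (nat_lit 13) (.e (nat_lit 65594) (nat_lit 9) .nil))))) .nil)))) (.nd (nat_lit 4) (.nd (nat_lit 5) 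
(.lf (nat_lit 51406) (.g (nat_lit 3220) (.e (nat_lit 1349) (nat_lit 102) (.e (nat_lit 286759) (nat_lit 12) (.e (nat_lit 385074) (nat_lit 31) (.e (nat_lit 573456) (nat_lit 9) (.e (nat_lit 1562) (nat_lit 110) (.e (nat_lit 352312) (nat_lit 22) (.e (nat_lit 98048) (nat_lit 18) .nil))))))) (.g (nat_lit 5) .nil .nil))) 
(.lf (nat_lit 51438) (.g (nat_lit 1739) (.e (nat_lit 1349) (nat_lit 102) (.e (nat_lit 286759) (nat_lit 12) (.e (nat_lit 385074) (nat_lit 31) (.e (nat_lit 573477) (nat_lit 12) .nil)))) .nil))) (.nd (nat_lit 5) 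
(.lf (nat_lit 51422) (.g (nat_lit 2470) (.e (nat_lit 1349) (nat_lit 102) (.e (nat_lit 286759) (nat_lit 12) (.e (nat_lit 385074) (nat_lit 31) (.e (nat_lit 573456) (nat_lit 9) (.e (nat_lit 1598) (nat_lit 111) .nil))))) .nil)) 
(.lf (nat_lit 51454) (.g (nat_lit 1130) (.e (nat_lit 1349) (nat_lit 102) (.e (nat_lit 286759) (nat_lit 12) (.e (nat_lit 385074) (nat_lit 31) (.e (nat_lit 573484) (nat_lit 13) .nil)))) .nil))))))) (.nd (nat_lit 1) (.nd (nat_lit 2) (.nd (nat_lit 3) (.nd (nat_lit 4) (.nd (nat_lit 5) 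
(.lf (nat_lit 51393) (.g (nat_lit 3489) (.e (nat_lit 1349) (nat_lit 102) (.e (nat_lit 286759) (nat_lit 12) (.e (nat_lit 385074) (nat_lit 31) (.e (nat_lit 573456) (nat_lit 9) (.e (nat_lit 1442) (nat_lit 108) (.e (nat_lit 336099) (nat_lit 9) (.e (nat_lit 336013) (nat_lit 2) (.e (nat_lit 98048) (nat_lit 18) .nil)))))))) (.g (nat_lit 6) .nil .nil))) 
(.lf (nat_lit 51425) (.g (nat_lit 2485) (.e (nat_lit 1349) (nat_lit 102) (.e (nat_lit 286759) (nat_lit 12) (.e (nat_lit 385074) (nat_lit 31) (.e (nat_lit 573457) (nat_lit 9) (.e (nat_lit 1413) (nat_lit 108) .nil))))) .nil))) (.nd (nat_lit 5) 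
(.lf (nat_lit 51409) (.g (nat_lit 2635) (.e (nat_lit 1349) (nat_lit 102) (.e (nat_lit 286759) (nat_lit 12) (.e (nat_lit 385074) (nat_lit 31) (.e (nat_lit 573456) (nat_lit 9) (.e (nat_lit 1564) (nat_lit 110) (.e (nat_lit 352312) (nat_lit 22) (.e (nat_lit 98048) (nat_lit 18) .nil))))))) (.g (nat_lit 4) .nil .nil))) 
(.lf (nat_lit 51441) (.g (nat_lit 3560) (.e (nat_lit 1349) (nat_lit 102) (.e (nat_lit 286759) (nat_lit 12) (.e (nat_lit 385074) (nat_lit 31) (.e (nat_lit 573480) (nat_lit 13) .nil)))) .nil)))) (.nd (nat_lit 4) (.nd (nat_lit 5) 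
(.lf (nat_lit 51401) (.g (nat_lit 4130) (.e (nat_lit 1349) (nat_lit 102) (.e (nat_lit 286759) (nat_lit 12) (.e (nat_lit 385074) (nat_lit 31) (.e (nat_lit 573456) (nat_lit 9) (.e (nat_lit 1455) (nat_lit 108) (.e (nat_lit 336099) (nat_lit 9) (.e (nat_lit 336013) (nat_lit 2) (.e (nat_lit 98048) (nat_lit 18) .nil)))))))) (.g (nat_lit 7) .nil .nil))) 
(.lf (nat_lit 51433) (.g (nat_lit 3727) (.e (nat_lit 1349) (nat_lit 102) (.e (nat_lit 286759) (nat_lit 12) (.e (nat_lit 385074) (nat_lit 31) (.e (nat_lit 573461) (nat_lit 9) .nil)))) .nil))) (.nd (nat_lit 5) 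
(.lf (nat_lit 51417) (.g (nat_lit 2455) (.e (nat_lit 1349) (nat_lit 102) (.e (nat_lit 286759) (nat_lit 12) (.e (nat_lit 385074) (nat_lit 31) (.e (nat_lit 573456) (nat_lit 9) (.e (nat_lit 1580) (nat_lit 111) .nil))))) .nil)) 
(.lf (nat_lit 51449) (.g (nat_lit 4954) (.e (nat_lit 1349) (nat_lit 102) (.e (nat_lit 286759) (nat_lit 12) (.e (nat_lit 385074) (nat_lit 31) (.e (nat_lit 573482) (nat_lit 13) (.e (nat_lit 65598) (nat_lit 9) (.e (nat_lit 336013) (nat_lit 2) (.e (nat_lit 98048) (nat_lit 18) .nil))))))) (.g (nat_lit 5) .nil .nil)))))) (.nd (nat_lit 3) (.nd (nat_lit 4) (.nd (nat_lit 5) 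
(.lf (nat_lit 51397) (.g (nat_lit 3664) (.e (nat_lit 1349) (nat_lit 102) (.e (nat_lit 286759) (nat_lit 12) (.e (nat_lit 385074) (nat_lit 31) (.e (nat_lit 573456) (nat_lit 9) (.e (nat_lit 1447) (nat_lit 108) (.e (nat_lit 336099) (nat_lit 9) (.e (nat_lit 336013) (nat_lit 2) (.e (nat_lit 98048) (nat_lit 18) .nil)))))))) (.g (nat_lit 7) .nil .nil))) 
(.lf (nat_lit 51429) (.g (nat_lit 2987) (.e (nat_lit 1349) (nat_lit 102) (.e (nat_lit 286759) (nat_lit 12) (.e (nat_lit 385074) (nat_lit 31) (.e (nat_lit 573457) (nat_lit 9) (.e (nat_lit 1569) (nat_lit 110) (.e (nat_lit 352312) (nat_lit 22) (.e (nat_lit 98048) (nat_lit 18) .nil))))))) (.g (nat_lit 4) .nil .nil)))) (.nd (nat_lit 5) 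
(.lf (nat_lit 51413) (.g (nat_lit 3491) (.e (nat_lit 1349) (nat_lit 102) (.e (nat_lit 286759) (nat_lit 12) (.e (nat_lit 385074) (nat_lit 31) (.e (nat_lit 573456) (nat_lit 9) (.e (nat_lit 1572) (nat_lit 110) (.e (nat_lit 352312) (nat_lit 22) (.e (nat_lit 98048) (nat_lit 18) .nil))))))) (.g (nat_lit 6) .nil .nil))) 
(.lf (nat_lit 51445) (.g (nat_lit 4157) (.e (nat_lit 1349) (nat_lit 102) (.e (nat_lit 286759) (nat_lit 12) (.e (nat_lit 385074) (nat_lit 31) (.e (nat_lit 573482) (nat_lit 13) (.e (nat_lit 65589) (nat_lit 9) .nil))))) .nil)))) (.nd (nat_lit 4) (.nd (nat_lit 5) 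
(.lf (nat_lit 51405) (.g (nat_lit 3341) (.e (nat_lit 1349) (nat_lit 102) (.e (nat_lit 286759) (nat_lit 12) (.e (nat_lit 385074) (nat_lit 31) (.e (nat_lit 573456) (nat_lit 9) (.e (nat_lit 1559) (nat_lit 110) (.e (nat_lit 352312) (nat_lit 22) (.e (nat_lit 98048) (nat_lit 18) .nil))))))) (.g (nat_lit 6) .nil .nil))) 
(.lf (nat_lit 51437) (.g (nat_lit 3732) (.e (nat_lit 1349) (nat_lit 102) (.e (nat_lit 286759) (nat_lit 12) (.e (nat_lit 385074) (nat_lit 31) (.e (nat_lit 573465) (nat_lit 9) .nil)))) .nil))) (.nd (nat_lit 5) 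
(.lf (nat_lit 51421) (.g (nat_lit 2623) (.e (nat_lit 1349) (nat_lit 102) (.e (nat_lit 286759) (nat_lit 12) (.e (nat_lit 385074) (nat_lit 31) (.e (nat_lit 573456) (nat_lit 9) (.e (nat_lit 1596) (nat_lit 111) (.e (nat_lit 360459) (nat_lit 1) (.e (nat_lit 507648) (nat_lit 0) .nil))))))) (.g (nat_lit 4) .nil .nil))) 
(.lf (nat_lit 51453) (.g (nat_lit 3875) (.e (nat_lit 1349) (nat_lit 102) (.e (nat_lit 286759) (nat_lit 12) (.e (nat_lit 385074) (nat_lit 31) (.e (nat_lit 573482) (nat_lit 13) (.e (nat_lit 65608) (nat_lit 9) .nil))))) .nil)))))) (.nd (nat_lit 2) (.nd (nat_lit 3) (.nd (nat_lit 4) (.nd (nat_lit 5) 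
(.lf (nat_lit 51395) (.g (nat_lit 3583) (.e (nat_lit 1349) (nat_lit 102) (.e (nat_lit 286759) (nat_lit 12) (.e (nat_lit 385074) (nat_lit 31) (.e (nat_lit 573456) (nat_lit 9) (.e (nat_lit 1444) (nat_lit 108) (.e (nat_lit 336099) (nat_lit 9) (.e (nat_lit 336013) (nat_lit 2) (.e (nat_lit 98048) (nat_lit 18) .nil)))))))) (.g (nat_lit 6) .nil .nil))) 
(.lf (nat_lit 51427) (.g (nat_lit 2484) (.e (nat_lit 1349) (nat_lit 102) (.e (nat_lit 286759) (nat_lit 12) (.e (nat_lit 385074) (nat_lit 31) (.e (nat_lit 573457) (nat_lit 9) (.e (nat_lit 1553) (nat_lit 110) .nil))))) .nil))) (.nd (nat_lit 5) 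
(.lf (nat_lit 51411) (.g (nat_lit 3348) (.e (nat_lit 1349) (nat_lit 102) (.e (nat_lit 286759) (nat_lit 12) (.e (nat_lit 385074) (nat_lit 31) (.e (nat_lit 573456) (nat_lit 9) (.e (nat_lit 1567) (nat_lit 110) (.e (nat_lit 352312) (nat_lit 22) (.e (nat_lit 98048) (nat_lit 18) .nil))))))) (.g (nat_lit 6) .nil .nil))) 
(.lf (nat_lit 51443) (.g (nat_lit 3439) (.e (nat_lit 1349) (nat_lit 102) (.e (nat_lit 286759) (nat_lit 12) (.e (nat_lit 385074) (nat_lit 31) (.e (nat_lit 573481) (nat_lit 13) .nil)))) .nil)))) (.nd (nat_lit 4) (.nd (nat_lit 5) 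
(.lf (nat_lit 51403) (.g (nat_lit 3247) (.e (nat_lit 1349) (nat_lit 102) (.e (nat_lit 286759) (nat_lit 12) (.e (nat_lit 385074) (nat_lit 31) (.e (nat_lit 573456) (nat_lit 9) (.e (nat_lit 1553) (nat_lit 110) (.e (nat_lit 352312) (nat_lit 22) (.e (nat_lit 98048) (nat_lit 18) .nil))))))) (.g (nat_lit 5) .nil .nil))) 
(.lf (nat_lit 51435) (.g (nat_lit 3651) (.e (nat_lit 1349) (nat_lit 102) (.e (nat_lit 286759) (nat_lit 12) (.e (nat_lit 385074) (nat_lit 31) (.e (nat_lit 573463) (nat_lit 9) .nil)))) .nil))) (.nd (nat_lit 5) 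
(.lf (nat_lit 51419) (.g (nat_lit 2532) (.e (nat_lit 1349) (nat_lit 102) (.e (nat_lit 286759) (nat_lit 12) (.e (nat_lit 385074) (nat_lit 31) (.e (nat_lit 573456) (nat_lit 9) (.e (nat_lit 1592) (nat_lit 111) (.e (nat_lit 360459) (nat_lit 1) (.e (nat_lit 507648) (nat_lit 0) .nil))))))) (.g (nat_lit 4) .nil .nil))) 
(.lf (nat_lit 51451) (.g (nat_lit 4444) (.e (nat_lit 1349) (nat_lit 102) (.e (nat_lit 286759) (nat_lit 12) (.e (nat_lit 385074) (nat_lit 31) (.e (nat_lit 573482) (nat_lit 13) (.e (nat_lit 65601) (nat_lit 9) .nil))))) .nil))))) (.nd (nat_lit 3) (.nd (nat_lit 4) (.nd (nat_lit 5) 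
(.lf (nat_lit 51399) (.g (nat_lit 3662) (.e (nat_lit 1349) (nat_lit 102) (.e (nat_lit 286759) (nat_lit 12) (.e (nat_lit 385074) (nat_lit 31) (.e (nat_lit 573456) (nat_lit 9) (.e (nat_lit 1452) (nat_lit 108) (.e (nat_lit 336099) (nat_lit 9) (.e (nat_lit 336013) (nat_lit 2) (.e (nat_lit 98048) (nat_lit 18) .nil)))))))) (.g (nat_lit 7) .nil .nil))) 
(.lf (nat_lit 51431) (.g (nat_lit 3614) (.e (nat_lit 1349) (nat_lit 102) (.e (nat_lit 286759) (nat_lit 12) (.e (nat_lit 385074) (nat_lit 31) (.e (nat_lit 573458) (nat_lit 9) .nil)))) .nil))) (.nd (nat_lit 5) 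
(.lf (nat_lit 51415) (.g (nat_lit 2455) (.e (nat_lit 1349) (nat_lit 102) (.e (nat_lit 286759) (nat_lit 12) (.e (nat_lit 385074) (nat_lit 31) (.e (nat_lit 573456) (nat_lit 9) (.e (nat_lit 1575) (nat_lit 110) .nil))))) .nil)) 
(.lf (nat_lit 51447) (.g (nat_lit 4306) (.e (nat_lit 1349) (nat_lit 102) (.e (nat_lit 286759) (nat_lit 12) (.e (nat_lit 385074) (nat_lit 31) (.e (nat_lit 573482) (nat_lit 13) (.e (nat_lit 65595) (nat_lit 9) .nil))))) .nil)))) (.nd (nat_lit 4) (.nd (nat_lit 5) 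
(.lf (nat_lit 51407) (.g (nat_lit 3369) (.e (nat_lit 1349) (nat_lit 102) (.e (nat_lit 286759) (nat_lit 12) (.e (nat_lit 385074) (nat_lit 31) (.e (nat_lit 573456) (nat_lit 9) (.e (nat_lit 1563) (nat_lit 110) (.e (nat_lit 352311) (nat_lit 22) (.e (nat_lit 98048) (nat_lit 18) .nil))))))) (.g (nat_lit 5) .nil .nil))) 
(.lf (nat_lit 51439) (.g (nat_lit 3818) (.e (nat_lit 1349) (nat_lit 102) (.e (nat_lit 286759) (nat_lit 12) (.e (nat_lit 385074) (nat_lit 31) (.e (nat_lit 573477) (nat_lit 12) (.e (nat_lit 65280) (nat_lit 191) (.e (nat_lit 65568) (nat_lit 2) (.e (nat_lit 98048) (nat_lit 18) .nil))))))) (.g (nat_lit 6) .nil .nil)))) (.nd (nat_lit 5) 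
(.lf (nat_lit 51423) (.g (nat_lit 2455) (.e (nat_lit 1349) (nat_lit 102) (.e (nat_lit 286759) (nat_lit 12) (.e (nat_lit 385074) (nat_lit 31) (.e (nat_lit 573456) (nat_lit 9) (.e (nat_lit 1599) (nat_lit 111) .nil))))) .nil)) 
(.lf (nat_lit 51455) (.g (nat_lit 2694) (.e (nat_lit 1349) (nat_lit 102) (.e (nat_lit 286759) (nat_lit 12) (.e (nat_lit 385074) (nat_lit 31) (.e (nat_lit 573484) (nat_lit 13) (.e (nat_lit 65586) (nat_lit 7) .nil))))) .nil))))))))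

noncomputable def tv716 : DT := (.nd (nat_lit 0) (.nd (nat_lit 1) (.nd (nat_lit 2) (.nd (nat_lit 3) (.nd (nat_lit 4) (.nd (nat_lit 5) 
(.lf (nat_lit 51456) (.g (nat_lit 2863) (.e (nat_lit 1349) (nat_lit 102) (.e (nat_lit 286759) (nat_lit 12) (.e (nat_lit 385074) (nat_lit 31) (.e (nat_lit 573484) (nat_lit 13) (.e (nat_lit 65586) (nat_lit 7) (.e (nat_lit 319516) (nat_lit 11) (.e (nat_lit 8379) (nat_lit 102) (.e (nat_lit 60) (nat_lit 0) .nil)))))))) (.g (nat_lit 4) .nil .nil))) 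
(.lf (nat_lit 51488) (.g (nat_lit 3560) (.e (nat_lit 1349) (nat_lit 102) (.e (nat_lit 286759) (nat_lit 12) (.e (nat_lit 385074) (nat_lit 31) (.e (nat_lit 573484) (nat_lit 13) (.e (nat_lit 65617) (nat_lit 10) (.e (nat_lit 344106) (nat_lit 19) (.e (nat_lit 499719) (nat_lit 0) .nil))))))) (.g (nat_lit 6) .nil .nil)))) (.nd (nat_lit 5) 
(.lf (nat_lit 51472) (.g (nat_lit 4240) (.e (nat_lit 1349) (nat_lit 102) (.e (nat_lit 286759) (nat_lit 12) (.e (nat_lit 385074) (nat_lit 31) (.e (nat_lit 573484) (nat_lit 13) (.e (nat_lit 73472) (nat_lit 9) (.e (nat_lit 336013) (nat_lit 2) (.e (nat_lit 98048) (nat_lit 18) .nil))))))) (.g (nat_lit 6) .nil .nil))) 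
(.lf (nat_lit 51504) (.g (nat_lit 2441) (.e (nat_lit 1349) (nat_lit 102) (.e (nat_lit 286759) (nat_lit 12) (.e (nat_lit 385074) (nat_lit 31) (.e (nat_lit 573485) (nat_lit 13) (.e (nat_lit 65601) (nat_lit 9) (.e (nat_lit 336001) (nat_lit 2) (.e (nat_lit 98048) (nat_lit 18) .nil))))))) (.g (nat_lit 4) .nil .nil))))) (.nd (nat_lit 4) (.nd (nat_lit 5) 
(.lf (nat_lit 51464) (.g (nat_lit 5095) (.e (nat_lit 1349) (nat_lit 102) (.e (nat_lit 286759) (nat_lit 12) (.e (nat_lit 385074) (nat_lit 31) (.e (nat_lit 573484) (nat_lit 13) (.e (nat_lit 65598) (nat_lit 9) (.e (nat_lit 336013) (nat_lit 2) (.e (nat_lit 98048) (nat_lit 18) .nil))))))) (.g (nat_lit 6) .nil .nil))) 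
(.lf (nat_lit 51496) (.g (nat_lit 3720) (.e (nat_lit 1349) (nat_lit 102) (.e (nat_lit 286759) (nat_lit 12) (.e (nat_lit 385074) (nat_lit 31) (.e (nat_lit 573484) (nat_lit 13) (.e (nat_lit 65617) (nat_lit 10) (.e (nat_lit 344112) (nat_lit 19) (.e (nat_lit 499755) (nat_lit 0) .nil))))))) (.g (nat_lit 5) .nil .nil)))) (.nd (nat_lit 5) 
(.lf (nat_lit 51480) (.g (nat_lit 3219) (.e (nat_lit 1349) (nat_lit 102) (.e (nat_lit 286759) (nat_lit 12) (.e (nat_lit 385074) (nat_lit 31) (.e (nat_lit 573484) (nat_lit 13) (.e (nat_lit 65610) (nat_lit 10) (.e (nat_lit 344109) (nat_lit 19) (.e (nat_lit 507648) (nat_lit 0) .nil))))))) (.g (nat_lit 5) .nil .nil))) 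
(.lf (nat_lit 51512) (.g (nat_lit 2664) (.e (nat_lit 1349) (nat_lit 102) (.e (nat_lit 286759) (nat_lit 12) (.e (nat_lit 385074) (nat_lit 31) (.e (nat_lit 573485) (nat_lit 13) (.e (nat_lit 65604) (nat_lit 9) (.e (nat_lit 335904) (nat_lit 0) (.e (nat_lit 1691) (nat_lit 117) (.e (nat_lit 499764) (nat_lit 0) .nil)))))))) (.g (nat_lit 5) .nil .nil)))))) 
(.nd (nat_lit 3) (.nd (nat_lit 4) (.nd (nat_lit 5) 
(.lf (nat_lit 51460) (.g (nat_lit 3138) (.e (nat_lit 1349) (nat_lit 102) (.e (nat_lit 286759) (nat_lit 12) (.e (nat_lit 385074) (nat_lit 31) (.e (nat_lit 573484) (nat_lit 13) (.e (nat_lit 65592) (nat_lit 9) (.e (nat_lit 336005) (nat_lit 2) (.e (nat_lit 98048) (nat_lit 18) .nil))))))) (.g (nat_lit 4) .nil .nil))) 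
(.lf (nat_lit 51492) (.g (nat_lit 2555) (.e (nat_lit 1349) (nat_lit 102) (.e (nat_lit 286759) (nat_lit 12) (.e (nat_lit 385074) (nat_lit 31) (.e (nat_lit 573484) (nat_lit 13) (.e (nat_lit 65617) (nat_lit 10) (.e (nat_lit 344106) (nat_lit 19) (.e (nat_lit 507648) (nat_lit 0) .nil))))))) (.g (nat_lit 5) .nil .nil)))) (.nd (nat_lit 5) 
(.lf (nat_lit 51476) (.g (nat_lit 2592) (.e (nat_lit 1349) (nat_lit 102) (.e (nat_lit 286759) (nat_lit 12) (.e (nat_lit 385074) (nat_lit 31) (.e (nat_lit 573484) (nat_lit 13) (.e (nat_lit 65610) (nat_lit 10) (.e (nat_lit 344106) (nat_lit 19) (.e (nat_lit 499726) (nat_lit 0) .nil))))))) (.g (nat_lit 5) .nil .nil))) 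
(.lf (nat_lit 51508) (.g (nat_lit 2109) (.e (nat_lit 1349) (nat_lit 102) (.e (nat_lit 286759) (nat_lit 12) (.e (nat_lit 385074) (nat_lit 31) (.e (nat_lit 573485) (nat_lit 13) (.e (nat_lit 65604) (nat_lit 9) (.e (nat_lit 335886) (nat_lit 0) (.e (nat_lit 1691) (nat_lit 117) (.e (nat_lit 499764) (nat_lit 0) .nil)))))))) (.g (nat_lit 4) .nil .nil))))) (.nd (nat_lit 4) (.nd (nat_lit 5) 
(.lf (nat_lit 51468) (.g (nat_lit 3366) (.e (nat_lit 1349) (nat_lit 102) (.e (nat_lit 286759) (nat_lit 12) (.e (nat_lit 385074) (nat_lit 31) (.e (nat_lit 573484) (nat_lit 13) (.e (nat_lit 65604) (nat_lit 9) .nil))))) .nil)) 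
(.lf (nat_lit 51500) (.g (nat_lit 1175) (.e (nat_lit 1349) (nat_lit 102) (.e (nat_lit 286759) (nat_lit 12) (.e (nat_lit 385074) (nat_lit 31) (.e (nat_lit 573485) (nat_lit 13) .nil)))) .nil))) (.nd (nat_lit 5) 
(.lf (nat_lit 51484) (.g (nat_lit 3509) (.e (nat_lit 1349) (nat_lit 102) (.e (nat_lit 286759) (nat_lit 12) (.e (nat_lit 385074) (nat_lit 31) (.e (nat_lit 573484) (nat_lit 13) (.e (nat_lit 65617) (nat_lit 10) (.e (nat_lit 344087) (nat_lit 18) (.e (nat_lit 3877) (nat_lit 233) (.e (nat_lit 60) (nat_lit 0) .nil)))))))) (.g (nat_lit 5) .nil .nil))) 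
(.lf (nat_lit 51516) (.g (nat_lit 2992) (.e (nat_lit 1349) (nat_lit 102) (.e (nat_lit 286759) (nat_lit 12) (.e (nat_lit 385074) (nat_lit 31) (.e (nat_lit 573485) (nat_lit 13) (.e (nat_lit 65604) (nat_lit 9) (.e (nat_lit 336007) (nat_lit 2) (.e (nat_lit 98048) (nat_lit 18) .nil))))))) (.g (nat_lit 5) .nil .nil))))))) (.nd (nat_lit 2) (.nd (nat_lit 3) (.nd (nat_lit 4) (.nd (nat_lit 5) 
(.lf (nat_lit 51458) (.g (nat_lit 2746) (.e (nat_lit 1349) (nat_lit 102) (.e (nat_lit 286759) (nat_lit 12) (.e (nat_lit 385074) (nat_lit 31) (.e (nat_lit 573484) (nat_lit 13) (.e (nat_lit 65592) (nat_lit 9) .nil))))) .nil)) 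
(.lf (nat_lit 51490) (.g (nat_lit 3487) (.e (nat_lit 1349) (nat_lit 102) (.e (nat_lit 286759) (nat_lit 12) (.e (nat_lit 385074) (nat_lit 31) (.e (nat_lit 573484) (nat_lit 13) (.e (nat_lit 65617) (nat_lit 10) (.e (nat_lit 344106) (nat_lit 19) (.e (nat_lit 499762) (nat_lit 0) .nil))))))) (.g (nat_lit 6) .nil .nil)))) (.nd (nat_lit 5) 
(.lf (nat_lit 51474) (.g (nat_lit 2647) (.e (nat_lit 1349) (nat_lit 102) (.e (nat_lit 286759) (nat_lit 12) (.e (nat_lit 385074) (nat_lit 31) (.e (nat_lit 573484) (nat_lit 13) (.e (nat_lit 65610) (nat_lit 10) (.e (nat_lit 344105) (nat_lit 19) (.e (nat_lit 499719) (nat_lit 0) .nil))))))) (.g (nat_lit 5) .nil .nil))) 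
(.lf (nat_lit 51506) (.g (nat_lit 3887) (.e (nat_lit 1349) (nat_lit 102) (.e (nat_lit 286759) (nat_lit 12) (.e (nat_lit 385074) (nat_lit 31) (.e (nat_lit 573485) (nat_lit 13) (.e (nat_lit 65601) (nat_lit 9) (.e (nat_lit 336013) (nat_lit 2) (.e (nat_lit 98048) (nat_lit 18) .nil))))))) (.g (nat_lit 6) .nil .nil))))) (.nd (nat_lit 4) (.nd (nat_lit 5) 
(.lf (nat_lit 51466) (.g (nat_lit 4416) (.e (nat_lit 1349) (nat_lit 102) (.e (nat_lit 286759) (nat_lit 12) (.e (nat_lit 385074) (nat_lit 31) (.e (nat_lit 573484) (nat_lit 13) (.e (nat_lit 65599) (nat_lit 9) (.e (nat_lit 336013) (nat_lit 2) (.e (nat_lit 98048) (nat_lit 18) .nil))))))) (.g (nat_lit 6) .nil .nil))) 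
(.lf (nat_lit 51498) (.g (nat_lit 3547) (.e (nat_lit 1349) (nat_lit 102) (.e (nat_lit 286759) (nat_lit 12) (.e (nat_lit 385074) (nat_lit 31) (.e (nat_lit 573484) (nat_lit 13) (.e (nat_lit 65617) (nat_lit 10) (.e (nat_lit 352000) (nat_lit 19) (.e (nat_lit 499755) (nat_lit 0) .nil))))))) (.g (nat_lit 5) .nil .nil)))) (.nd (nat_lit 5) 
(.lf (nat_lit 51482) (.g (nat_lit 3262) (.e (nat_lit 1349) (nat_lit 102) (.e (nat_lit 286759) (nat_lit 12) (.e (nat_lit 385074) (nat_lit 31) (.e (nat_lit 573484) (nat_lit 13) (.e (nat_lit 65614) (nat_lit 10) .nil))))) .nil)) 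
(.lf (nat_lit 51514) (.g (nat_lit 2889) (.e (nat_lit 1349) (nat_lit 102) (.e (nat_lit 286759) (nat_lit 12) (.e (nat_lit 385074) (nat_lit 31) (.e (nat_lit 573485) (nat_lit 13) (.e (nat_lit 65604) (nat_lit 9) (.e (nat_lit 336001) (nat_lit 2) (.e (nat_lit 98048) (nat_lit 18) .nil))))))) (.g (nat_lit 5) .nil .nil)))))) (.nd (nat_lit 3) (.nd (nat_lit 4) (.nd (nat_lit 5) 
(.lf (nat_lit 51462) (.g (nat_lit 3173) (.e (nat_lit 1349) (nat_lit 102) (.e (nat_lit 286759) (nat_lit 12) (.e (nat_lit 385074) (nat_lit 31) (.e (nat_lit 573484) (nat_lit 13) (.e (nat_lit 65593) (nat_lit 9) .nil))))) .nil)) 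
(.lf (nat_lit 51494) (.g (nat_lit 3079) (.e (nat_lit 1349) (nat_lit 102) (.e (nat_lit 286759) (nat_lit 12) (.e (nat_lit 385074) (nat_lit 31) (.e (nat_lit 573484) (nat_lit 13) (.e (nat_lit 65617) (nat_lit 10) (.e (nat_lit 344109) (nat_lit 19) (.e (nat_lit 507648) (nat_lit 0) .nil))))))) (.g (nat_lit 5) .nil .nil)))) (.nd (nat_lit 5) 
(.lf (nat_lit 51478) (.g (nat_lit 2660) (.e (nat_lit 1349) (nat_lit 102) (.e (nat_lit 286759) (nat_lit 12) (.e (nat_lit 385074) (nat_lit 31) (.e (nat_lit 573484) (nat_lit 13) (.e (nat_lit 65610) (nat_lit 10) (.e (nat_lit 344106) (nat_lit 19) (.e (nat_lit 507648) (nat_lit 0) .nil))))))) (.g (nat_lit 5) .nil .nil))) 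
(.lf (nat_lit 51510) (.g (nat_lit 2040) (.e (nat_lit 1349) (nat_lit 102) (.e (nat_lit 286759) (nat_lit 12) (.e (nat_lit 385074) (nat_lit 31) (.e (nat_lit 573485) (nat_lit 13) (.e (nat_lit 65604) (nat_lit 9) (.e (nat_lit 335902) (nat_lit 0) (.e (nat_lit 1691) (nat_lit 117) (.e (nat_lit 499764) (nat_lit 0) .nil)))))))) (.g (nat_lit 4) .nil .nil))))) (.nd (nat_lit 4) (.nd (nat_lit 5) 
(.lf (nat_lit 51470) (.g (nat_lit 2343) (.e (nat_lit 1349) (nat_lit 102) (.e (nat_lit 286759) (nat_lit 12) (.e (nat_lit 385074) (nat_lit 31) (.e (nat_lit 573484) (nat_lit 13) (.e (nat_lit 73472) (nat_lit 9) .nil))))) .nil)) 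
(.lf (nat_lit 51502) (.g (nat_lit 4358) (.e (nat_lit 1349) (nat_lit 102) (.e (nat_lit 286759) (nat_lit 12) (.e (nat_lit 385074) (nat_lit 31) (.e (nat_lit 573485) (nat_lit 13) (.e (nat_lit 65598) (nat_lit 9) (.e (nat_lit 336013) (nat_lit 2) (.e (nat_lit 98048) (nat_lit 18) .nil))))))) (.g (nat_lit 6) .nil .nil)))) (.nd (nat_lit 5) 
(.lf (nat_lit 51486) (.g (nat_lit 2479) (.e (nat_lit 1349) (nat_lit 102) (.e (nat_lit 286759) (nat_lit 12) (.e (nat_lit 385074) (nat_lit 31) (.e (nat_lit 573484) (nat_lit 13) (.e (nat_lit 65617) (nat_lit 10) (.e (nat_lit 344105) (nat_lit 19) (.e (nat_lit 499719) (nat_lit 0) .nil))))))) (.g (nat_lit 4) .nil .nil))) 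
(.lf (nat_lit 51518) (.g (nat_lit 2744) (.e (nat_lit 1349) (nat_lit 102) (.e (nat_lit 286759) (nat_lit 12) (.e (nat_lit 385074) (nat_lit 31) (.e (nat_lit 573485) (nat_lit 13) (.e (nat_lit 65605) (nat_lit 9) (.e (nat_lit 336013) (nat_lit 2) (.e (nat_lit 98048) (nat_lit 18) .nil))))))) (.g (nat_lit 4) .nil .nil)))))))) 
(.nd (nat_lit 1) (.nd (nat_lit 2) (.nd (nat_lit 3) (.nd (nat_lit 4) (.nd (nat_lit 5) 
(.lf (nat_lit 51457) (.g (nat_lit 4371) (.e (nat_lit 1349) (nat_lit 102) (.e (nat_lit 286759) (nat_lit 12) (.e (nat_lit 385074) (nat_lit 31) (.e (nat_lit 573484) (nat_lit 13) (.e (nat_lit 65589) (nat_lit 9) (.e (nat_lit 336013) (nat_lit 2) (.e (nat_lit 98048) (nat_lit 18) .nil))))))) (.g (nat_lit 6) .nil .nil))) 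
(.lf (nat_lit 51489) (.g (nat_lit 2487) (.e (nat_lit 1349) (nat_lit 102) (.e (nat_lit 286759) (nat_lit 12) (.e (nat_lit 385074) (nat_lit 31) (.e (nat_lit 573484) (nat_lit 13) (.e (nat_lit 65617) (nat_lit 10) (.e (nat_lit 344106) (nat_lit 19) (.e (nat_lit 499726) (nat_lit 0) .nil))))))) (.g (nat_lit 4) .nil .nil)))) (.nd (nat_lit 5) 
(.lf (nat_lit 51473) (.g (nat_lit 3046) (.e (nat_lit 1349) (nat_lit 102) (.e (nat_lit 286759) (nat_lit 12) (.e (nat_lit 385074) (nat_lit 31) (.e (nat_lit 573484) (nat_lit 13) (.e (nat_lit 65609) (nat_lit 10) .nil))))) .nil)) 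
(.lf (nat_lit 51505) (.g (nat_lit 2546) (.e (nat_lit 1349) (nat_lit 102) (.e (nat_lit 286759) (nat_lit 12) (.e (nat_lit 385074) (nat_lit 31) (.e (nat_lit 573485) (nat_lit 13) (.e (nat_lit 65601) (nat_lit 9) (.e (nat_lit 336008) (nat_lit 2) (.e (nat_lit 98048) (nat_lit 18) .nil))))))) (.g (nat_lit 4) .nil .nil))))) (.nd (nat_lit 4) (.nd (nat_lit 5) 
(.lf (nat_lit 51465) (.g (nat_lit 2669) (.e (nat_lit 1349) (nat_lit 102) (.e (nat_lit 286759) (nat_lit 12) (.e (nat_lit 385074) (nat_lit 31) (.e (nat_lit 573484) (nat_lit 13) (.e (nat_lit 65599) (nat_lit 9) .nil))))) .nil)) 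
(.lf (nat_lit 51497) (.g (nat_lit 3581) (.e (nat_lit 1349) (nat_lit 102) (.e (nat_lit 286759) (nat_lit 12) (.e (nat_lit 385074) (nat_lit 31) (.e (nat_lit 573484) (nat_lit 13) (.e (nat_lit 65617) (nat_lit 10) (.e (nat_lit 344113) (nat_lit 19) (.e (nat_lit 499755) (nat_lit 0) .nil))))))) (.g (nat_lit 5) .nil .nil)))) (.nd (nat_lit 5) 
(.lf (nat_lit 51481) (.g (nat_lit 3401) (.e (nat_lit 1349) (nat_lit 102) (.e (nat_lit 286759) (nat_lit 12) (.e (nat_lit 385074) (nat_lit 31) (.e (nat_lit 573484) (nat_lit 13) (.e (nat_lit 65610) (nat_lit 10) (.e (nat_lit 344112) (nat_lit 19) (.e (nat_lit 499755) (nat_lit 0) .nil))))))) (.g (nat_lit 5) .nil .nil))) 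
(.lf (nat_lit 51513) (.g (nat_lit 4087) (.e (nat_lit 1349) (nat_lit 102) (.e (nat_lit 286759) (nat_lit 12) (.e (nat_lit 385074) (nat_lit 31) (.e (nat_lit 573485) (nat_lit 13) (.e (nat_lit 65604) (nat_lit 9) (.e (nat_lit 335915) (nat_lit 0) (.e (nat_lit 1691) (nat_lit 117) (.e (nat_lit 499764) (nat_lit 0) .nil)))))))) (.g (nat_lit 0) .nil .nil)))))) 
(.nd (nat_lit 3) (.nd (nat_lit 4) (.nd (nat_lit 5) 
(.lf (nat_lit 51461) (.g (nat_lit 3312) (.e (nat_lit 1349) (nat_lit 102) (.e (nat_lit 286759) (nat_lit 12) (.e (nat_lit 385074) (nat_lit 31) (.e (nat_lit 573484) (nat_lit 13) (.e (nat_lit 65592) (nat_lit 9) (.e (nat_lit 336008) (nat_lit 2) (.e (nat_lit 98048) (nat_lit 18) .nil))))))) (.g (nat_lit 4) .nil .nil))) 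
(.lf (nat_lit 51493) (.g (nat_lit 3343) (.e (nat_lit 1349) (nat_lit 102) (.e (nat_lit 286759) (nat_lit 12) (.e (nat_lit 385074) (nat_lit 31) (.e (nat_lit 573484) (nat_lit 13) (.e (nat_lit 65617) (nat_lit 10) (.e (nat_lit 344107) (nat_lit 19) (.e (nat_lit 507648) (nat_lit 0) .nil))))))) (.g (nat_lit 6) .nil .nil)))) (.nd (nat_lit 5) 
(.lf (nat_lit 51477) (.g (nat_lit 2865) (.e (nat_lit 1349) (nat_lit 102) (.e (nat_lit 286759) (nat_lit 12) (.e (nat_lit 385074) (nat_lit 31) (.e (nat_lit 573484) (nat_lit 13) (.e (nat_lit 65610) (nat_lit 10) (.e (nat_lit 344106) (nat_lit 19) (.e (nat_lit 499764) (nat_lit 0) .nil))))))) (.g (nat_lit 5) .nil .nil))) 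
(.lf (nat_lit 51509) (.g (nat_lit 2810) (.e (nat_lit 1349) (nat_lit 102) (.e (nat_lit 286759) (nat_lit 12) (.e (nat_lit 385074) (nat_lit 31) (.e (nat_lit 573485) (nat_lit 13) (.e (nat_lit 65604) (nat_lit 9) (.e (nat_lit 335900) (nat_lit 0) (.e (nat_lit 1691) (nat_lit 117) (.e (nat_lit 499764) (nat_lit 0) .nil)))))))) (.g (nat_lit 5) .nil .nil))))) (.nd (nat_lit 4) (.nd (nat_lit 5) 
(.lf (nat_lit 51469) (.g (nat_lit 3982) (.e (nat_lit 1349) (nat_lit 102) (.e (nat_lit 286759) (nat_lit 12) (.e (nat_lit 385074) (nat_lit 31) (.e (nat_lit 573484) (nat_lit 13) (.e (nat_lit 65605) (nat_lit 9) (.e (nat_lit 336013) (nat_lit 2) (.e (nat_lit 98048) (nat_lit 18) .nil))))))) (.g (nat_lit 4) .nil .nil))) 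
(.lf (nat_lit 51501) (.g (nat_lit 4169) (.e (nat_lit 1349) (nat_lit 102) (.e (nat_lit 286759) (nat_lit 12) (.e (nat_lit 385074) (nat_lit 31) (.e (nat_lit 573485) (nat_lit 13) (.e (nat_lit 65589) (nat_lit 9) (.e (nat_lit 336013) (nat_lit 2) (.e (nat_lit 98048) (nat_lit 18) .nil))))))) (.g (nat_lit 6) .nil .nil)))) (.nd (nat_lit 5) 
(.lf (nat_lit 51485) (.g (nat_lit 2808) (.e (nat_lit 1349) (nat_lit 102) (.e (nat_lit 286759) (nat_lit 12) (.e (nat_lit 385074) (nat_lit 31) (.e (nat_lit 573484) (nat_lit 13) (.e (nat_lit 65617) (nat_lit 10) (.e (nat_lit 344088) (nat_lit 18) (.e (nat_lit 3837) (nat_lit 233) (.e (nat_lit 71) (nat_lit 0) .nil)))))))) (.g (nat_lit 4) .nil .nil))) 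
(.lf (nat_lit 51517) (.g (nat_lit 4247) (.e (nat_lit 1349) (nat_lit 102) (.e (nat_lit 286759) (nat_lit 12) (.e (nat_lit 385074) (nat_lit 31) (.e (nat_lit 573485) (nat_lit 13) (.e (nat_lit 65604) (nat_lit 9) (.e (nat_lit 336013) (nat_lit 2) (.e (nat_lit 98048) (nat_lit 18) .nil))))))) (.g (nat_lit 6) .nil .nil))))))) (.nd (nat_lit 2) (.nd (nat_lit 3) (.nd (nat_lit 4) (.nd (nat_lit 5) 
(.lf (nat_lit 51459) (.g (nat_lit 3355) (.e (nat_lit 1349) (nat_lit 102) (.e (nat_lit 286759) (nat_lit 12) (.e (nat_lit 385074) (nat_lit 31) (.e (nat_lit 573484) (nat_lit 13) (.e (nat_lit 65592) (nat_lit 9) (.e (nat_lit 336001) (nat_lit 2) (.e (nat_lit 98048) (nat_lit 18) .nil))))))) (.g (nat_lit 4) .nil .nil))) 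
(.lf (nat_lit 51491) (.g (nat_lit 2760) (.e (nat_lit 1349) (nat_lit 102) (.e (nat_lit 286759) (nat_lit 12) (.e (nat_lit 385074) (nat_lit 31) (.e (nat_lit 573484) (nat_lit 13) (.e (nat_lit 65617) (nat_lit 10) (.e (nat_lit 344106) (nat_lit 19) (.e (nat_lit 499764) (nat_lit 0) .nil))))))) (.g (nat_lit 5) .nil .nil)))) (.nd (nat_lit 5) 
(.lf (nat_lit 51475) (.g (nat_lit 3975) (.e (nat_lit 1349) (nat_lit 102) (.e (nat_lit 286759) (nat_lit 12) (.e (nat_lit 385074) (nat_lit 31) (.e (nat_lit 573484) (nat_lit 13) (.e (nat_lit 65610) (nat_lit 10) (.e (nat_lit 344105) (nat_lit 19) (.e (nat_lit 499764) (nat_lit 0) .nil))))))) (.g (nat_lit 7) .nil .nil))) 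
(.lf (nat_lit 51507) (.g (nat_lit 2788) (.e (nat_lit 1349) (nat_lit 102) (.e (nat_lit 286759) (nat_lit 12) (.e (nat_lit 385074) (nat_lit 31) (.e (nat_lit 573485) (nat_lit 13) (.e (nat_lit 65602) (nat_lit 9) (.e (nat_lit 336013) (nat_lit 2) (.e (nat_lit 98048) (nat_lit 18) .nil))))))) (.g (nat_lit 4) .nil .nil))))) (.nd (nat_lit 4) (.nd (nat_lit 5) 
(.lf (nat_lit 51467) (.g (nat_lit 3856) (.e (nat_lit 1349) (nat_lit 102) (.e (nat_lit 286759) (nat_lit 12) (.e (nat_lit 385074) (nat_lit 31) (.e (nat_lit 573484) (nat_lit 13) (.e (nat_lit 65601) (nat_lit 9) (.e (nat_lit 336013) (nat_lit 2) (.e (nat_lit 98048) (nat_lit 18) .nil))))))) (.g (nat_lit 4) .nil .nil))) 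
(.lf (nat_lit 51499) (.g (nat_lit 2959) (.e (nat_lit 1349) (nat_lit 102) (.e (nat_lit 286759) (nat_lit 12) (.e (nat_lit 385074) (nat_lit 31) (.e (nat_lit 573484) (nat_lit 13) (.e (nat_lit 65617) (nat_lit 10) (.e (nat_lit 352000) (nat_lit 19) (.e (nat_lit 507648) (nat_lit 0) .nil))))))) (.g (nat_lit 5) .nil .nil)))) (.nd (nat_lit 5) 
(.lf (nat_lit 51483) (.g (nat_lit 1684) (.e (nat_lit 1349) (nat_lit 102) (.e (nat_lit 286759) (nat_lit 12) (.e (nat_lit 385074) (nat_lit 31) (.e (nat_lit 573484) (nat_lit 13) (.e (nat_lit 65617) (nat_lit 10) .nil))))) .nil)) 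
(.lf (nat_lit 51515) (.g (nat_lit 2928) (.e (nat_lit 1349) (nat_lit 102) (.e (nat_lit 286759) (nat_lit 12) (.e (nat_lit 385074) (nat_lit 31) (.e (nat_lit 573485) (nat_lit 13) (.e (nat_lit 65604) (nat_lit 9) (.e (nat_lit 336005) (nat_lit 2) (.e (nat_lit 98048) (nat_lit 18) .nil))))))) (.g (nat_lit 5) .nil .nil)))))) (.nd (nat_lit 3) (.nd (nat_lit 4) (.nd (nat_lit 5) 
(.lf (nat_lit 51463) (.g (nat_lit 3443) (.e (nat_lit 1349) (nat_lit 102) (.e (nat_lit 286759) (nat_lit 12) (.e (nat_lit 385074) (nat_lit 31) (.e (nat_lit 573484) (nat_lit 13) (.e (nat_lit 65595) (nat_lit 9) (.e (nat_lit 336013) (nat_lit 2) (.e (nat_lit 98048) (nat_lit 18) .nil))))))) (.g (nat_lit 4) .nil .nil))) 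
(.lf (nat_lit 51495) (.g (nat_lit 2981) (.e (nat_lit 1349) (nat_lit 102) (.e (nat_lit 286759) (nat_lit 12) (.e (nat_lit 385074) (nat_lit 31) (.e (nat_lit 573484) (nat_lit 13) (.e (nat_lit 65617) (nat_lit 10) (.e (nat_lit 344110) (nat_lit 19) (.e (nat_lit 507648) (nat_lit 0) .nil))))))) (.g (nat_lit 5) .nil .nil)))) (.nd (nat_lit 5) 
(.lf (nat_lit 51479) (.g (nat_lit 3819) (.e (nat_lit 1349) (nat_lit 102) (.e (nat_lit 286759) (nat_lit 12) (.e (nat_lit 385074) (nat_lit 31) (.e (nat_lit 573484) (nat_lit 13) (.e (nat_lit 65610) (nat_lit 10) (.e (nat_lit 344107) (nat_lit 19) (.e (nat_lit 507648) (nat_lit 0) .nil))))))) (.g (nat_lit 6) .nil .nil))) 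
(.lf (nat_lit 51511) (.g (nat_lit 2796) (.e (nat_lit 1349) (nat_lit 102) (.e (nat_lit 286759) (nat_lit 12) (.e (nat_lit 385074) (nat_lit 31) (.e (nat_lit 573485) (nat_lit 13) (.e (nat_lit 65604) (nat_lit 9) (.e (nat_lit 335903) (nat_lit 0) (.e (nat_lit 1691) (nat_lit 117) (.e (nat_lit 499764) (nat_lit 0) .nil)))))))) (.g (nat_lit 5) .nil .nil))))) (.nd (nat_lit 4) (.nd (nat_lit 5) 
(.lf (nat_lit 51471) (.g (nat_lit 3099) (.e (nat_lit 1349) (nat_lit 102) (.e (nat_lit 286759) (nat_lit 12) (.e (nat_lit 385074) (nat_lit 31) (.e (nat_lit 573484) (nat_lit 13) (.e (nat_lit 73472) (nat_lit 9) (.e (nat_lit 336011) (nat_lit 2) (.e (nat_lit 98048) (nat_lit 18) .nil))))))) (.g (nat_lit 6) .nil .nil))) 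
(.lf (nat_lit 51503) (.g (nat_lit 2246) (.e (nat_lit 1349) (nat_lit 102) (.e (nat_lit 286759) (nat_lit 12) (.e (nat_lit 385074) (nat_lit 31) (.e (nat_lit 573485) (nat_lit 13) (.e (nat_lit 65601) (nat_lit 9) .nil))))) .nil))) (.nd (nat_lit 5) 
(.lf (nat_lit 51487) (.g (nat_lit 3879) (.e (nat_lit 1349) (nat_lit 102) (.e (nat_lit 286759) (nat_lit 12) (.e (nat_lit 385074) (nat_lit 31) (.e (nat_lit 573484) (nat_lit 13) (.e (nat_lit 65617) (nat_lit 10) (.e (nat_lit 344105) (nat_lit 19) (.e (nat_lit 499764) (nat_lit 0) .nil))))))) (.g (nat_lit 0) .nil .nil))) 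
(.lf (nat_lit 51519) (.g (nat_lit 3193) (.e (nat_lit 1349) (nat_lit 102) (.e (nat_lit 286759) (nat_lit 12) (.e (nat_lit 385074) (nat_lit 31) (.e (nat_lit 573485) (nat_lit 13) (.e (nat_lit 65619) (nat_lit 10) (.e (nat_lit 344105) (nat_lit 19) (.e (nat_lit 499764) (nat_lit 0) .nil))))))) (.g (nat_lit 5) .nil .nil)))))))))

noncomputable def tv717 : DT := (.nd (nat_lit 0) (.nd (nat_lit 1) (.nd (nat_lit 2) (.nd (nat_lit 3) (.nd (nat_lit 4) (.nd (nat_lit 5) 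
(.lf (nat_lit 51520) (.g (nat_lit 3017) (.e (nat_lit 1349) (nat_lit 102) (.e (nat_lit 286759) (nat_lit 12) (.e (nat_lit 385074) (nat_lit 31) (.e (nat_lit 573485) (nat_lit 13) (.e (nat_lit 65619) (nat_lit 10) (.e (nat_lit 344106) (nat_lit 19) (.e (nat_lit 499719) (nat_lit 0) .nil))))))) (.g (nat_lit 5) .nil .nil))) 
(.lf (nat_lit 51552) (.g (nat_lit 3616) (.e (nat_lit 1349) (nat_lit 102) (.e (nat_lit 286759) (nat_lit 12) (.e (nat_lit 385074) (nat_lit 31) (.e (nat_lit 573491) (nat_lit 15) (.e (nat_lit 81951) (nat_lit 22) (.e (nat_lit 98048) (nat_lit 18) .nil)))))) (.g (nat_lit 5) .nil .nil)))) (.nd (nat_lit 5) 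
(.lf (nat_lit 51536) (.g (nat_lit 3576) (.e (nat_lit 1349) (nat_lit 102) (.e (nat_lit 286759) (nat_lit 12) (.e (nat_lit 385074) (nat_lit 31) (.e (nat_lit 573489) (nat_lit 14) (.e (nat_lit 73729) (nat_lit 0) .nil))))) .nil)) 
(.lf (nat_lit 51568) (.g (nat_lit 3944) (.e (nat_lit 1349) (nat_lit 102) (.e (nat_lit 286759) (nat_lit 12) (.e (nat_lit 385094) (nat_lit 49) (.e (nat_lit 778241) (nat_lit 0) (.e (nat_lit 1454) (nat_lit 108) (.e (nat_lit 336176) (nat_lit 10) (.e (nat_lit 344161) (nat_lit 37) (.e (nat_lit 647203) (nat_lit 14) .nil)))))))) (.g (nat_lit 6) .nil .nil))))) (.nd (nat_lit 4) (.nd (nat_lit 5) 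
(.lf (nat_lit 51528) (.g (nat_lit 4359) (.e (nat_lit 1349) (nat_lit 102) (.e (nat_lit 286759) (nat_lit 12) (.e (nat_lit 385074) (nat_lit 31) (.e (nat_lit 573487) (nat_lit 14) (.e (nat_lit 73729) (nat_lit 0) .nil))))) .nil)) 
(.lf (nat_lit 51560) (.g (nat_lit 3026) (.e (nat_lit 1349) (nat_lit 102) (.e (nat_lit 286759) (nat_lit 12) (.e (nat_lit 385074) (nat_lit 31) (.e (nat_lit 573493) (nat_lit 15) (.e (nat_lit 81961) (nat_lit 25) .nil))))) .nil))) (.nd (nat_lit 5) 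
(.lf (nat_lit 51544) (.g (nat_lit 2529) (.e (nat_lit 1349) (nat_lit 102) (.e (nat_lit 286759) (nat_lit 12) (.e (nat_lit 385074) (nat_lit 31) (.e (nat_lit 573491) (nat_lit 15) (.e (nat_lit 81928) (nat_lit 20) .nil))))) .nil)) 
(.lf (nat_lit 51576) (.g (nat_lit 2420) (.e (nat_lit 1349) (nat_lit 102) (.e (nat_lit 286759) (nat_lit 12) (.e (nat_lit 385094) (nat_lit 49) (.e (nat_lit 778320) (nat_lit 4) (.e (nat_lit 65612) (nat_lit 10) (.e (nat_lit 344162) (nat_lit 37) (.e (nat_lit 647203) (nat_lit 14) .nil))))))) (.g (nat_lit 4) .nil .nil)))))) (.nd (nat_lit 3) (.nd (nat_lit 4) (.nd (nat_lit 5) 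
(.lf (nat_lit 51524) (.g (nat_lit 3788) (.e (nat_lit 1349) (nat_lit 102) (.e (nat_lit 286759) (nat_lit 12) (.e (nat_lit 385074) (nat_lit 31) (.e (nat_lit 573485) (nat_lit 13) (.e (nat_lit 65619) (nat_lit 10) (.e (nat_lit 344107) (nat_lit 19) (.e (nat_lit 507648) (nat_lit 0) .nil))))))) (.g (nat_lit 6) .nil .nil))) 
(.lf (nat_lit 51556) (.g (nat_lit 2351) (.e (nat_lit 1349) (nat_lit 102) (.e (nat_lit 286759) (nat_lit 12) (.e (nat_lit 385074) (nat_lit 31) (.e (nat_lit 573493) (nat_lit 15) (.e (nat_lit 81938) (nat_lit 20) (.e (nat_lit 1689) (nat_lit 117) (.e (nat_lit 499719) (nat_lit 0) .nil))))))) (.g (nat_lit 5) .nil .nil)))) (.nd (nat_lit 5) 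
(.lf (nat_lit 51540) (.g (nat_lit 3637) (.e (nat_lit 1349) (nat_lit 102) (.e (nat_lit 286759) (nat_lit 12) (.e (nat_lit 385074) (nat_lit 31) (.e (nat_lit 573489) (nat_lit 14) (.e (nat_lit 73731) (nat_lit 0) (.e (nat_lit 4535) (nat_lit 267) (.e (nat_lit 163871) (nat_lit 2) (.e (nat_lit 196691) (nat_lit 18) .nil)))))))) (.g (nat_lit 4) .nil .nil))) 
(.lf (nat_lit 51572) (.g (nat_lit 2605) (.e (nat_lit 1349) (nat_lit 102) (.e (nat_lit 286759) (nat_lit 12) (.e (nat_lit 385094) (nat_lit 49) (.e (nat_lit 778253) (nat_lit 0) (.e (nat_lit 1557) (nat_lit 110) (.e (nat_lit 352302) (nat_lit 20) (.e (nat_lit 1968) (nat_lit 135) (.e (nat_lit 647203) (nat_lit 14) .nil)))))))) (.g (nat_lit 4) .nil .nil))))) (.nd (nat_lit 4) (.nd (nat_lit 5) 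
(.lf (nat_lit 51532) (.g (nat_lit 4323) (.e (nat_lit 1349) (nat_lit 102) (.e (nat_lit 286759) (nat_lit 12) (.e (nat_lit 385074) (nat_lit 31) (.e (nat_lit 573487) (nat_lit 14) (.e (nat_lit 73785) (nat_lit 40) .nil))))) .nil)) 
(.lf (nat_lit 51564) (.g (nat_lit 2696) (.e (nat_lit 1349) (nat_lit 102) (.e (nat_lit 286759) (nat_lit 12) (.e (nat_lit 385074) (nat_lit 31) (.e (nat_lit 581376) (nat_lit 15) (.e (nat_lit 81953) (nat_lit 22) (.e (nat_lit 98048) (nat_lit 18) .nil)))))) (.g (nat_lit 5) .nil .nil)))) (.nd (nat_lit 5) 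
(.lf (nat_lit 51548) (.g (nat_lit 2124) (.e (nat_lit 1349) (nat_lit 102) (.e (nat_lit 286759) (nat_lit 12) (.e (nat_lit 385074) (nat_lit 31) (.e (nat_lit 573491) (nat_lit 15) (.e (nat_lit 81946) (nat_lit 20) .nil))))) .nil)) 
(.lf (nat_lit 51580) (.g (nat_lit 2665) (.e (nat_lit 1349) (nat_lit 102) (.e (nat_lit 286759) (nat_lit 12) (.e (nat_lit 385094) (nat_lit 49) (.e (nat_lit 778320) (nat_lit 4) (.e (nat_lit 65613) (nat_lit 10) (.e (nat_lit 344162) (nat_lit 37) (.e (nat_lit 647203) (nat_lit 14) .nil))))))) (.g (nat_lit 4) .nil .nil))))))) (.nd (nat_lit 2) (.nd (nat_lit 3) (.nd (nat_lit 4) (.nd (nat_lit 5) 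
(.lf (nat_lit 51522) (.g (nat_lit 2020) (.e (nat_lit 1349) (nat_lit 102) (.e (nat_lit 286759) (nat_lit 12) (.e (nat_lit 385074) (nat_lit 31) (.e (nat_lit 573485) (nat_lit 13) (.e (nat_lit 65619) (nat_lit 10) (.e (nat_lit 344106) (nat_lit 19) (.e (nat_lit 499764) (nat_lit 0) .nil))))))) (.g (nat_lit 4) .nil .nil))) 
(.lf (nat_lit 51554) (.g (nat_lit 3984) (.e (nat_lit 1349) (nat_lit 102) (.e (nat_lit 286759) (nat_lit 12) (.e (nat_lit 385074) (nat_lit 31) (.e (nat_lit 573491) (nat_lit 15) (.e (nat_lit 81960) (nat_lit 25) (.e (nat_lit 139299) (nat_lit 18) .nil)))))) (.g (nat_lit 6) .nil .nil)))) (.nd (nat_lit 5) 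
(.lf (nat_lit 51538) (.g (nat_lit 3353) (.e (nat_lit 1349) (nat_lit 102) (.e (nat_lit 286759) (nat_lit 12) (.e (nat_lit 385074) (nat_lit 31) (.e (nat_lit 573489) (nat_lit 14) (.e (nat_lit 73731) (nat_lit 0) .nil))))) .nil)) 
(.lf (nat_lit 51570) (.g (nat_lit 2465) (.e (nat_lit 1349) (nat_lit 102) (.e (nat_lit 286759) (nat_lit 12) (.e (nat_lit 385094) (nat_lit 49) (.e (nat_lit 778253) (nat_lit 0) (.e (nat_lit 1437) (nat_lit 108) (.e (nat_lit 336178) (nat_lit 10) (.e (nat_lit 344160) (nat_lit 37) (.e (nat_lit 647203) (nat_lit 14) .nil)))))))) (.g (nat_lit 4) .nil .nil))))) (.nd (nat_lit 4) (.nd (nat_lit 5) 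
(.lf (nat_lit 51530) (.g (nat_lit 5939) (.e (nat_lit 1349) (nat_lit 102) (.e (nat_lit 286759) (nat_lit 12) (.e (nat_lit 385074) (nat_lit 31) (.e (nat_lit 573487) (nat_lit 14) (.e (nat_lit 73729) (nat_lit 0) (.e (nat_lit 4539) (nat_lit 267) (.e (nat_lit 163871) (nat_lit 2) (.e (nat_lit 196691) (nat_lit 18) .nil)))))))) (.g (nat_lit 6) .nil .nil))) 
(.lf (nat_lit 51562) (.g (nat_lit 4428) (.e (nat_lit 1349) (nat_lit 102) (.e (nat_lit 286759) (nat_lit 12) (.e (nat_lit 385074) (nat_lit 31) (.e (nat_lit 573493) (nat_lit 15) (.e (nat_lit 81962) (nat_lit 25) (.e (nat_lit 139299) (nat_lit 18) .nil)))))) (.g (nat_lit 5) .nil .nil)))) (.nd (nat_lit 5) 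
(.lf (nat_lit 51546) (.g (nat_lit 2680) (.e (nat_lit 1349) (nat_lit 102) (.e (nat_lit 286759) (nat_lit 12) (.e (nat_lit 385074) (nat_lit 31) (.e (nat_lit 573491) (nat_lit 15) (.e (nat_lit 81937) (nat_lit 20) .nil))))) .nil)) 
(.lf (nat_lit 51578) (.g (nat_lit 2331) (.e (nat_lit 1349) (nat_lit 102) (.e (nat_lit 286759) (nat_lit 12) (.e (nat_lit 385094) (nat_lit 49) (.e (nat_lit 778320) (nat_lit 4) (.e (nat_lit 65612) (nat_lit 10) (.e (nat_lit 344164) (nat_lit 37) (.e (nat_lit 647203) (nat_lit 14) .nil))))))) (.g (nat_lit 4) .nil .nil)))))) (.nd (nat_lit 3) (.nd (nat_lit 4) (.nd (nat_lit 5) 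
(.lf (nat_lit 51526) (.g (nat_lit 2634) (.e (nat_lit 1349) (nat_lit 102) (.e (nat_lit 286759) (nat_lit 12) (.e (nat_lit 385074) (nat_lit 31) (.e (nat_lit 573485) (nat_lit 13) (.e (nat_lit 65620) (nat_lit 10) .nil))))) .nil)) 
(.lf (nat_lit 51558) (.g (nat_lit 5088) (.e (nat_lit 1349) (nat_lit 102) (.e (nat_lit 286759) (nat_lit 12) (.e (nat_lit 385074) (nat_lit 31) (.e (nat_lit 573493) (nat_lit 15) (.e (nat_lit 81953) (nat_lit 22) (.e (nat_lit 98048) (nat_lit 18) .nil)))))) (.g (nat_lit 5) .nil .nil)))) (.nd (nat_lit 5) 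
(.lf (nat_lit 51542) (.g (nat_lit 3228) (.e (nat_lit 1349) (nat_lit 102) (.e (nat_lit 286759) (nat_lit 12) (.e (nat_lit 385074) (nat_lit 31) (.e (nat_lit 573489) (nat_lit 14) (.e (nat_lit 81664) (nat_lit 40) (.e (nat_lit 1239) (nat_lit 91) (.e (nat_lit 98048) (nat_lit 18) .nil))))))) (.g (nat_lit 4) .nil .nil))) 
(.lf (nat_lit 51574) (.g (nat_lit 2461) (.e (nat_lit 1349) (nat_lit 102) (.e (nat_lit 286759) (nat_lit 12) (.e (nat_lit 385094) (nat_lit 49) (.e (nat_lit 778320) (nat_lit 4) (.e (nat_lit 65611) (nat_lit 10) (.e (nat_lit 344161) (nat_lit 37) (.e (nat_lit 647203) (nat_lit 14) .nil))))))) (.g (nat_lit 4) .nil .nil))))) (.nd (nat_lit 4) (.nd (nat_lit 5) 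
(.lf (nat_lit 51534) (.g (nat_lit 3631) (.e (nat_lit 1349) (nat_lit 102) (.e (nat_lit 286759) (nat_lit 12) (.e (nat_lit 385074) (nat_lit 31) (.e (nat_lit 573488) (nat_lit 14) .nil)))) .nil)) 
(.lf (nat_lit 51566) (.g (nat_lit 3739) (.e (nat_lit 1349) (nat_lit 102) (.e (nat_lit 286759) (nat_lit 12) (.e (nat_lit 385074) (nat_lit 31) (.e (nat_lit 573497) (nat_lit 17) .nil)))) .nil))) (.nd (nat_lit 5) 
(.lf (nat_lit 51550) (.g (nat_lit 2554) (.e (nat_lit 1349) (nat_lit 102) (.e (nat_lit 286759) (nat_lit 12) (.e (nat_lit 385074) (nat_lit 31) (.e (nat_lit 573491) (nat_lit 15) (.e (nat_lit 81947) (nat_lit 20) .nil))))) .nil)) 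
(.lf (nat_lit 51582) (.g (nat_lit 2630) (.e (nat_lit 1349) (nat_lit 102) (.e (nat_lit 286759) (nat_lit 12) (.e (nat_lit 385094) (nat_lit 49) (.e (nat_lit 778320) (nat_lit 4) (.e (nat_lit 65613) (nat_lit 10) (.e (nat_lit 344164) (nat_lit 37) (.e (nat_lit 647203) (nat_lit 14) .nil))))))) (.g (nat_lit 4) .nil .nil)))))))) 
(.nd (nat_lit 1) (.nd (nat_lit 2) (.nd (nat_lit 3) (.nd (nat_lit 4) (.nd (nat_lit 5) 
(.lf (nat_lit 51521) (.g (nat_lit 2953) (.e (nat_lit 1349) (nat_lit 102) (.e (nat_lit 286759) (nat_lit 12) (.e (nat_lit 385074) (nat_lit 31) (.e (nat_lit 573485) (nat_lit 13) (.e (nat_lit 65619) (nat_lit 10) (.e (nat_lit 344106) (nat_lit 19) (.e (nat_lit 499762) (nat_lit 0) .nil))))))) (.g (nat_lit 5) .nil .nil))) 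
(.lf (nat_lit 51553) (.g (nat_lit 2682) (.e (nat_lit 1349) (nat_lit 102) (.e (nat_lit 286759) (nat_lit 12) (.e (nat_lit 385074) (nat_lit 31) (.e (nat_lit 573491) (nat_lit 15) (.e (nat_lit 81952) (nat_lit 22) .nil))))) .nil))) (.nd (nat_lit 5) 
(.lf (nat_lit 51537) (.g (nat_lit 3567) (.e (nat_lit 1349) (nat_lit 102) (.e (nat_lit 286759) (nat_lit 12) (.e (nat_lit 385074) (nat_lit 31) (.e (nat_lit 573489) (nat_lit 14) (.e (nat_lit 73730) (nat_lit 0) .nil))))) .nil)) 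
(.lf (nat_lit 51569) (.g (nat_lit 2442) (.e (nat_lit 1349) (nat_lit 102) (.e (nat_lit 286759) (nat_lit 12) (.e (nat_lit 385094) (nat_lit 49) (.e (nat_lit 778253) (nat_lit 0) (.e (nat_lit 1434) (nat_lit 108) (.e (nat_lit 336176) (nat_lit 10) (.e (nat_lit 344161) (nat_lit 37) (.e (nat_lit 647203) (nat_lit 14) .nil)))))))) (.g (nat_lit 4) .nil .nil))))) (.nd (nat_lit 4) (.nd (nat_lit 5) 
(.lf (nat_lit 51529) (.g (nat_lit 4900) (.e (nat_lit 1349) (nat_lit 102) (.e (nat_lit 286759) (nat_lit 12) (.e (nat_lit 385074) (nat_lit 31) (.e (nat_lit 573487) (nat_lit 14) (.e (nat_lit 73729) (nat_lit 0) (.e (nat_lit 4539) (nat_lit 267) (.e (nat_lit 163869) (nat_lit 2) (.e (nat_lit 196691) (nat_lit 18) .nil)))))))) (.g (nat_lit 4) .nil .nil))) 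
(.lf (nat_lit 51561) (.g (nat_lit 3823) (.e (nat_lit 1349) (nat_lit 102) (.e (nat_lit 286759) (nat_lit 12) (.e (nat_lit 385074) (nat_lit 31) (.e (nat_lit 573493) (nat_lit 15) (.e (nat_lit 81961) (nat_lit 25) (.e (nat_lit 139299) (nat_lit 18) .nil)))))) (.g (nat_lit 4) .nil .nil)))) (.nd (nat_lit 5) 
(.lf (nat_lit 51545) (.g (nat_lit 2681) (.e (nat_lit 1349) (nat_lit 102) (.e (nat_lit 286759) (nat_lit 12) (.e (nat_lit 385074) (nat_lit 31) (.e (nat_lit 573491) (nat_lit 15) (.e (nat_lit 81936) (nat_lit 20) .nil))))) .nil)) 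
(.lf (nat_lit 51577) (.g (nat_lit 2477) (.e (nat_lit 1349) (nat_lit 102) (.e (nat_lit 286759) (nat_lit 12) (.e (nat_lit 385094) (nat_lit 49) (.e (nat_lit 778320) (nat_lit 4) (.e (nat_lit 65612) (nat_lit 10) (.e (nat_lit 344163) (nat_lit 37) (.e (nat_lit 647203) (nat_lit 14) .nil))))))) (.g (nat_lit 4) .nil .nil)))))) (.nd (nat_lit 3) (.nd (nat_lit 4) (.nd (nat_lit 5) 
(.lf (nat_lit 51525) (.g (nat_lit 2706) (.e (nat_lit 1349) (nat_lit 102) (.e (nat_lit 286759) (nat_lit 12) (.e (nat_lit 385074) (nat_lit 31) (.e (nat_lit 573485) (nat_lit 13) (.e (nat_lit 65619) (nat_lit 10) (.e (nat_lit 344109) (nat_lit 19) (.e (nat_lit 507648) (nat_lit 0) .nil))))))) (.g (nat_lit 5) .nil .nil))) 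
(.lf (nat_lit 51557) (.g (nat_lit 3983) (.e (nat_lit 1349) (nat_lit 102) (.e (nat_lit 286759) (nat_lit 12) (.e (nat_lit 385074) (nat_lit 31) (.e (nat_lit 573493) (nat_lit 15) (.e (nat_lit 81951) (nat_lit 22) (.e (nat_lit 98048) (nat_lit 18) .nil)))))) (.g (nat_lit 5) .nil .nil)))) (.nd (nat_lit 5) 
(.lf (nat_lit 51541) (.g (nat_lit 5817) (.e (nat_lit 1349) (nat_lit 102) (.e (nat_lit 286759) (nat_lit 12) (.e (nat_lit 385074) (nat_lit 31) (.e (nat_lit 573489) (nat_lit 14) (.e (nat_lit 73731) (nat_lit 0) (.e (nat_lit 4539) (nat_lit 267) (.e (nat_lit 163871) (nat_lit 2) (.e (nat_lit 196691) (nat_lit 18) .nil)))))))) (.g (nat_lit 0) .nil .nil))) 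
(.lf (nat_lit 51573) (.g (nat_lit 3076) (.e (nat_lit 1349) (nat_lit 102) (.e (nat_lit 286759) (nat_lit 12) (.e (nat_lit 385094) (nat_lit 49) (.e (nat_lit 778290) (nat_lit 0) (.e (nat_lit 1454) (nat_lit 108) (.e (nat_lit 336176) (nat_lit 10) (.e (nat_lit 344161) (nat_lit 37) (.e (nat_lit 647203) (nat_lit 14) .nil)))))))) (.g (nat_lit 4) .nil .nil))))) (.nd (nat_lit 4) (.nd (nat_lit 5) 
(.lf (nat_lit 51533) (.g (nat_lit 3862) (.e (nat_lit 1349) (nat_lit 102) (.e (nat_lit 286759) (nat_lit 12) (.e (nat_lit 385074) (nat_lit 31) (.e (nat_lit 573487) (nat_lit 14) (.e (nat_lit 81664) (nat_lit 40) (.e (nat_lit 1239) (nat_lit 91) (.e (nat_lit 98048) (nat_lit 18) .nil))))))) (.g (nat_lit 4) .nil .nil))) 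
(.lf (nat_lit 51565) (.g (nat_lit 3739) (.e (nat_lit 1349) (nat_lit 102) (.e (nat_lit 286759) (nat_lit 12) (.e (nat_lit 385074) (nat_lit 31) (.e (nat_lit 573496) (nat_lit 17) .nil)))) .nil))) (.nd (nat_lit 5) 
(.lf (nat_lit 51549) (.g (nat_lit 2286) (.e (nat_lit 1349) (nat_lit 102) (.e (nat_lit 286759) (nat_lit 12) (.e (nat_lit 385074) (nat_lit 31) (.e (nat_lit 573491) (nat_lit 15) (.e (nat_lit 81946) (nat_lit 20) (.e (nat_lit 1689) (nat_lit 117) (.e (nat_lit 499719) (nat_lit 0) .nil))))))) (.g (nat_lit 4) .nil .nil))) 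
(.lf (nat_lit 51581) (.g (nat_lit 2748) (.e (nat_lit 1349) (nat_lit 102) (.e (nat_lit 286759) (nat_lit 12) (.e (nat_lit 385094) (nat_lit 49) (.e (nat_lit 778320) (nat_lit 4) (.e (nat_lit 65613) (nat_lit 10) (.e (nat_lit 344163) (nat_lit 37) (.e (nat_lit 647203) (nat_lit 14) .nil))))))) (.g (nat_lit 4) .nil .nil))))))) (.nd (nat_lit 2) (.nd (nat_lit 3) (.nd (nat_lit 4) (.nd (nat_lit 5) 
(.lf (nat_lit 51523) (.g (nat_lit 1815) (.e (nat_lit 1349) (nat_lit 102) (.e (nat_lit 286759) (nat_lit 12) (.e (nat_lit 385074) (nat_lit 31) (.e (nat_lit 573485) (nat_lit 13) (.e (nat_lit 65619) (nat_lit 10) (.e (nat_lit 344106) (nat_lit 19) (.e (nat_lit 507648) (nat_lit 0) .nil))))))) (.g (nat_lit 4) .nil .nil))) 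
(.lf (nat_lit 51555) (.g (nat_lit 3184) (.e (nat_lit 1349) (nat_lit 102) (.e (nat_lit 286759) (nat_lit 12) (.e (nat_lit 385074) (nat_lit 31) (.e (nat_lit 573491) (nat_lit 15) (.e (nat_lit 81960) (nat_lit 25) (.e (nat_lit 147200) (nat_lit 18) .nil)))))) (.g (nat_lit 4) .nil .nil)))) (.nd (nat_lit 5) 
(.lf (nat_lit 51539) (.g (nat_lit 3606) (.e (nat_lit 1349) (nat_lit 102) (.e (nat_lit 286759) (nat_lit 12) (.e (nat_lit 385074) (nat_lit 31) (.e (nat_lit 573489) (nat_lit 14) (.e (nat_lit 73731) (nat_lit 0) (.e (nat_lit 4535) (nat_lit 267) (.e (nat_lit 163867) (nat_lit 2) (.e (nat_lit 196691) (nat_lit 18) .nil)))))))) (.g (nat_lit 4) .nil .nil))) 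
(.lf (nat_lit 51571) (.g (nat_lit 2706) (.e (nat_lit 1349) (nat_lit 102) (.e (nat_lit 286759) (nat_lit 12) (.e (nat_lit 385094) (nat_lit 49) (.e (nat_lit 778253) (nat_lit 0) (.e (nat_lit 1438) (nat_lit 108) (.e (nat_lit 336173) (nat_lit 10) (.e (nat_lit 344160) (nat_lit 37) (.e (nat_lit 647203) (nat_lit 14) .nil)))))))) (.g (nat_lit 4) .nil .nil))))) (.nd (nat_lit 4) (.nd (nat_lit 5) 
(.lf (nat_lit 51531) (.g (nat_lit 4366) (.e (nat_lit 1349) (nat_lit 102) (.e (nat_lit 286759) (nat_lit 12) (.e (nat_lit 385074) (nat_lit 31) (.e (nat_lit 573487) (nat_lit 14) (.e (nat_lit 73731) (nat_lit 0) .nil))))) .nil)) 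
(.lf (nat_lit 51563) (.g (nat_lit 4005) (.e (nat_lit 1349) (nat_lit 102) (.e (nat_lit 286759) (nat_lit 12) (.e (nat_lit 385074) (nat_lit 31) (.e (nat_lit 573493) (nat_lit 15) (.e (nat_lit 81962) (nat_lit 25) (.e (nat_lit 147200) (nat_lit 18) .nil)))))) (.g (nat_lit 5) .nil .nil)))) (.nd (nat_lit 5) 
(.lf (nat_lit 51547) (.g (nat_lit 1747) (.e (nat_lit 1349) (nat_lit 102) (.e (nat_lit 286759) (nat_lit 12) (.e (nat_lit 385074) (nat_lit 31) (.e (nat_lit 573491) (nat_lit 15) (.e (nat_lit 81943) (nat_lit 20) .nil))))) .nil)) 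
(.lf (nat_lit 51579) (.g (nat_lit 2583) (.e (nat_lit 1349) (nat_lit 102) (.e (nat_lit 286759) (nat_lit 12) (.e (nat_lit 385094) (nat_lit 49) (.e (nat_lit 778320) (nat_lit 4) (.e (nat_lit 65613) (nat_lit 10) (.e (nat_lit 344158) (nat_lit 37) (.e (nat_lit 647203) (nat_lit 14) .nil))))))) (.g (nat_lit 4) .nil .nil)))))) (.nd (nat_lit 3) (.nd (nat_lit 4) (.nd (nat_lit 5) 
(.lf (nat_lit 51527) (.g (nat_lit 2482) (.e (nat_lit 1349) (nat_lit 102) (.e (nat_lit 286759) (nat_lit 12) (.e (nat_lit 385074) (nat_lit 31) (.e (nat_lit 573487) (nat_lit 14) .nil)))) .nil)) 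
(.lf (nat_lit 51559) (.g (nat_lit 2657) (.e (nat_lit 1349) (nat_lit 102) (.e (nat_lit 286759) (nat_lit 12) (.e (nat_lit 385074) (nat_lit 31) (.e (nat_lit 573493) (nat_lit 15) (.e (nat_lit 81960) (nat_lit 25) .nil))))) .nil))) (.nd (nat_lit 5) 
(.lf (nat_lit 51543) (.g (nat_lit 4230) (.e (nat_lit 1349) (nat_lit 102) (.e (nat_lit 286759) (nat_lit 12) (.e (nat_lit 385074) (nat_lit 31) (.e (nat_lit 573490) (nat_lit 15) (.e (nat_lit 81953) (nat_lit 22) (.e (nat_lit 98048) (nat_lit 18) .nil)))))) (.g (nat_lit 5) .nil .nil))) 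
(.lf (nat_lit 51575) (.g (nat_lit 2261) (.e (nat_lit 1349) (nat_lit 102) (.e (nat_lit 286759) (nat_lit 12) (.e (nat_lit 385094) (nat_lit 49) (.e (nat_lit 778320) (nat_lit 4) (.e (nat_lit 65612) (nat_lit 10) (.e (nat_lit 344158) (nat_lit 37) (.e (nat_lit 647203) (nat_lit 14) .nil))))))) (.g (nat_lit 4) .nil .nil))))) (.nd (nat_lit 4) (.nd (nat_lit 5) 
(.lf (nat_lit 51535) (.g (nat_lit 2192) (.e (nat_lit 1349) (nat_lit 102) (.e (nat_lit 286759) (nat_lit 12) (.e (nat_lit 385074) (nat_lit 31) (.e (nat_lit 573489) (nat_lit 14) .nil)))) .nil)) 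
(.lf (nat_lit 51567) (.g (nat_lit 3420) (.e (nat_lit 1349) (nat_lit 102) (.e (nat_lit 286759) (nat_lit 12) (.e (nat_lit 385094) (nat_lit 49) (.e (nat_lit 778241) (nat_lit 0) (.e (nat_lit 1454) (nat_lit 108) (.e (nat_lit 336176) (nat_lit 10) (.e (nat_lit 344160) (nat_lit 37) (.e (nat_lit 647203) (nat_lit 14) .nil)))))))) (.g (nat_lit 5) .nil .nil)))) (.nd (nat_lit 5) 
(.lf (nat_lit 51551) (.g (nat_lit 3007) (.e (nat_lit 1349) (nat_lit 102) (.e (nat_lit 286759) (nat_lit 12) (.e (nat_lit 385074) (nat_lit 31) (.e (nat_lit 573491) (nat_lit 15) (.e (nat_lit 81947) (nat_lit 20) (.e (nat_lit 1689) (nat_lit 117) (.e (nat_lit 499719) (nat_lit 0) .nil))))))) (.g (nat_lit 4) .nil .nil))) 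
(.lf (nat_lit 51583) (.g (nat_lit 2497) (.e (nat_lit 1349) (nat_lit 102) (.e (nat_lit 286759) (nat_lit 12) (.e (nat_lit 385094) (nat_lit 49) (.e (nat_lit 778320) (nat_lit 4) (.e (nat_lit 65615) (nat_lit 10) (.e (nat_lit 344161) (nat_lit 37) (.e (nat_lit 647203) (nat_lit 14) .nil))))))) (.g (nat_lit 4) .nil .nil)))))))))

noncomputable def tv718 : DT := (.nd (nat_lit 0) (.nd (nat_lit 1) (.nd (nat_lit 2) (.nd (nat_lit 3) (.nd (nat_lit 4) (.nd (nat_lit 5) 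
(.lf (nat_lit 51584) (.g (nat_lit 2231) (.e (nat_lit 1349) (nat_lit 102) (.e (nat_lit 286759) (nat_lit 12) (.e (nat_lit 385094) (nat_lit 49) (.e (nat_lit 778320) (nat_lit 4) (.e (nat_lit 65615) (nat_lit 10) (.e (nat_lit 344163) (nat_lit 37) (.e (nat_lit 647203) (nat_lit 14) .nil))))))) (.g (nat_lit 4) .nil .nil))) 
(.lf (nat_lit 51616) (.g (nat_lit 2516) (.e (nat_lit 1349) (nat_lit 102) (.e (nat_lit 286759) (nat_lit 12) (.e (nat_lit 385106) (nat_lit 50) (.e (nat_lit 786483) (nat_lit 30) (.e (nat_lit 360482) (nat_lit 15) (.e (nat_lit 647203) (nat_lit 14) .nil)))))) (.g (nat_lit 4) .nil .nil)))) (.nd (nat_lit 5) 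
(.lf (nat_lit 51600) (.g (nat_lit 2714) (.e (nat_lit 1349) (nat_lit 102) (.e (nat_lit 286759) (nat_lit 12) (.e (nat_lit 385094) (nat_lit 49) (.e (nat_lit 778326) (nat_lit 6) (.e (nat_lit 81959) (nat_lit 24) (.e (nat_lit 123218) (nat_lit 278) (.e (nat_lit 7936) (nat_lit 0) .nil))))))) (.g (nat_lit 6) .nil .nil))) 
(.lf (nat_lit 51632) (.g (nat_lit 2174) (.e (nat_lit 1349) (nat_lit 102) (.e (nat_lit 286761) (nat_lit 13) (.e (nat_lit 393234) (nat_lit 17) (.e (nat_lit 2398) (nat_lit 157) .nil)))) .nil)))) (.nd (nat_lit 4) (.nd (nat_lit 5) 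
(.lf (nat_lit 51592) (.g (nat_lit 3117) (.e (nat_lit 1349) (nat_lit 102) (.e (nat_lit 286759) (nat_lit 12) (.e (nat_lit 385094) (nat_lit 49) (.e (nat_lit 778326) (nat_lit 6) (.e (nat_lit 81937) (nat_lit 20) (.e (nat_lit 1987) (nat_lit 136) (.e (nat_lit 655402) (nat_lit 14) .nil))))))) (.g (nat_lit 5) .nil .nil))) 
(.lf (nat_lit 51624) (.g (nat_lit 2052) (.e (nat_lit 1349) (nat_lit 102) (.e (nat_lit 286761) (nat_lit 13) (.e (nat_lit 393225) (nat_lit 9) (.e (nat_lit 336271) (nat_lit 15) .nil)))) .nil))) (.nd (nat_lit 5) 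
(.lf (nat_lit 51608) (.g (nat_lit 2483) (.e (nat_lit 1349) (nat_lit 102) (.e (nat_lit 286759) (nat_lit 12) (.e (nat_lit 385105) (nat_lit 50) (.e (nat_lit 786483) (nat_lit 30) (.e (nat_lit 360483) (nat_lit 15) (.e (nat_lit 647203) (nat_lit 14) .nil)))))) (.g (nat_lit 4) .nil .nil))) 
(.lf (nat_lit 51640) (.g (nat_lit 2261) (.e (nat_lit 1349) (nat_lit 102) (.e (nat_lit 286761) (nat_lit 13) (.e (nat_lit 393234) (nat_lit 17) (.e (nat_lit 3544) (nat_lit 219) .nil)))) .nil))))) (.nd (nat_lit 3) (.nd (nat_lit 4) (.nd (nat_lit 5) 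
(.lf (nat_lit 51588) (.g (nat_lit 1973) (.e (nat_lit 1349) (nat_lit 102) (.e (nat_lit 286759) (nat_lit 12) (.e (nat_lit 385094) (nat_lit 49) (.e (nat_lit 778324) (nat_lit 5) (.e (nat_lit 81664) (nat_lit 43) (.e (nat_lit 57507) (nat_lit 39) (.e (nat_lit 647203) (nat_lit 14) .nil))))))) (.g (nat_lit 4) .nil .nil))) 
(.lf (nat_lit 51620) (.g (nat_lit 1304) (.e (nat_lit 1349) (nat_lit 102) (.e (nat_lit 286760) (nat_lit 13) (.e (nat_lit 401152) (nat_lit 15) (.e (nat_lit 385107) (nat_lit 51) (.e (nat_lit 794666) (nat_lit 22) (.e (nat_lit 196691) (nat_lit 18) .nil)))))) (.g (nat_lit 4) .nil .nil)))) (.nd (nat_lit 5) 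
(.lf (nat_lit 51604) (.g (nat_lit 2240) (.e (nat_lit 1349) (nat_lit 102) (.e (nat_lit 286759) (nat_lit 12) (.e (nat_lit 385094) (nat_lit 49) (.e (nat_lit 778327) (nat_lit 6) (.e (nat_lit 81947) (nat_lit 20) (.e (nat_lit 1969) (nat_lit 135) (.e (nat_lit 647203) (nat_lit 14) .nil))))))) (.g (nat_lit 4) .nil .nil))) 
(.lf (nat_lit 51636) (.g (nat_lit 2253) (.e (nat_lit 1349) (nat_lit 102) (.e (nat_lit 286761) (nat_lit 13) (.e (nat_lit 393234) (nat_lit 17) (.e (nat_lit 3474) (nat_lit 218) .nil)))) .nil)))) (.nd (nat_lit 4) (.nd (nat_lit 5) 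
(.lf (nat_lit 51596) (.g (nat_lit 2237) (.e (nat_lit 1349) (nat_lit 102) (.e (nat_lit 286759) (nat_lit 12) (.e (nat_lit 385094) (nat_lit 49) (.e (nat_lit 778326) (nat_lit 6) (.e (nat_lit 81945) (nat_lit 20) (.e (nat_lit 1975) (nat_lit 135) (.e (nat_lit 647203) (nat_lit 14) .nil))))))) (.g (nat_lit 4) .nil .nil))) 
(.lf (nat_lit 51628) (.g (nat_lit 2746) (.e (nat_lit 1349) (nat_lit 102) (.e (nat_lit 286761) (nat_lit 13) (.e (nat_lit 393229) (nat_lit 9) (.e (nat_lit 343808) (nat_lit 20) (.e (nat_lit 221210) (nat_lit 22) (.e (nat_lit 196691) (nat_lit 18) .nil)))))) (.g (nat_lit 5) .nil .nil)))) (.nd (nat_lit 5) 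
(.lf (nat_lit 51612) (.g (nat_lit 3038) (.e (nat_lit 1349) (nat_lit 102) (.e (nat_lit 286759) (nat_lit 12) (.e (nat_lit 385106) (nat_lit 50) (.e (nat_lit 786470) (nat_lit 27) (.e (nat_lit 336176) (nat_lit 10) (.e (nat_lit 344161) (nat_lit 37) (.e (nat_lit 647203) (nat_lit 14) .nil))))))) (.g (nat_lit 5) .nil .nil))) 
(.lf (nat_lit 51644) (.g (nat_lit 2230) (.e (nat_lit 1349) (nat_lit 102) (.e (nat_lit 286761) (nat_lit 13) (.e (nat_lit 393234) (nat_lit 17) (.e (nat_lit 3556) (nat_lit 220) .nil)))) .nil)))))) (.nd (nat_lit 2) (.nd (nat_lit 3) (.nd (nat_lit 4) (.nd (nat_lit 5) 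
(.lf (nat_lit 51586) (.g (nat_lit 3851) (.e (nat_lit 1349) (nat_lit 102) (.e (nat_lit 286759) (nat_lit 12) (.e (nat_lit 385094) (nat_lit 49) (.e (nat_lit 778320) (nat_lit 4) (.e (nat_lit 65619) (nat_lit 10) (.e (nat_lit 344160) (nat_lit 37) (.e (nat_lit 647203) (nat_lit 14) .nil))))))) (.g (nat_lit 7) .nil .nil))) 
(.lf (nat_lit 51618) (.g (nat_lit 4183) (.e (nat_lit 1349) (nat_lit 102) (.e (nat_lit 286759) (nat_lit 12) (.e (nat_lit 385106) (nat_lit 50) (.e (nat_lit 786483) (nat_lit 30) (.e (nat_lit 360484) (nat_lit 15) (.e (nat_lit 647203) (nat_lit 14) .nil)))))) (.g (nat_lit 0) .nil .nil)))) (.nd (nat_lit 5) 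
(.lf (nat_lit 51602) (.g (nat_lit 2230) (.e (nat_lit 1349) (nat_lit 102) (.e (nat_lit 286759) (nat_lit 12) (.e (nat_lit 385094) (nat_lit 49) (.e (nat_lit 778327) (nat_lit 6) (.e (nat_lit 81940) (nat_lit 20) (.e (nat_lit 1979) (nat_lit 135) (.e (nat_lit 647203) (nat_lit 14) .nil))))))) (.g (nat_lit 4) .nil .nil))) 
(.lf (nat_lit 51634) (.g (nat_lit 2228) (.e (nat_lit 1349) (nat_lit 102) (.e (nat_lit 286761) (nat_lit 13) (.e (nat_lit 393234) (nat_lit 17) (.e (nat_lit 3442) (nat_lit 215) .nil)))) .nil)))) (.nd (nat_lit 4) (.nd (nat_lit 5) 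
(.lf (nat_lit 51594) (.g (nat_lit 2846) (.e (nat_lit 1349) (nat_lit 102) (.e (nat_lit 286759) (nat_lit 12) (.e (nat_lit 385094) (nat_lit 49) (.e (nat_lit 778326) (nat_lit 6) (.e (nat_lit 81943) (nat_lit 20) (.e (nat_lit 1988) (nat_lit 136) (.e (nat_lit 655402) (nat_lit 14) .nil))))))) (.g (nat_lit 6) .nil .nil))) 
(.lf (nat_lit 51626) (.g (nat_lit 1119) (.e (nat_lit 1349) (nat_lit 102) (.e (nat_lit 286761) (nat_lit 13) (.e (nat_lit 393225) (nat_lit 9) (.e (nat_lit 343808) (nat_lit 15) .nil)))) .nil))) (.nd (nat_lit 5) 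
(.lf (nat_lit 51610) (.g (nat_lit 2471) (.e (nat_lit 1349) (nat_lit 102) (.e (nat_lit 286759) (nat_lit 12) (.e (nat_lit 385106) (nat_lit 50) (.e (nat_lit 786467) (nat_lit 27) (.e (nat_lit 336176) (nat_lit 10) (.e (nat_lit 344160) (nat_lit 37) (.e (nat_lit 647203) (nat_lit 14) .nil))))))) (.g (nat_lit 4) .nil .nil))) 
(.lf (nat_lit 51642) (.g (nat_lit 2253) (.e (nat_lit 1349) (nat_lit 102) (.e (nat_lit 286761) (nat_lit 13) (.e (nat_lit 393234) (nat_lit 17) (.e (nat_lit 3549) (nat_lit 219) .nil)))) .nil))))) (.nd (nat_lit 3) (.nd (nat_lit 4) (.nd (nat_lit 5) 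
(.lf (nat_lit 51590) (.g (nat_lit 2540) (.e (nat_lit 1349) (nat_lit 102) (.e (nat_lit 286759) (nat_lit 12) (.e (nat_lit 385094) (nat_lit 49) (.e (nat_lit 778326) (nat_lit 6) (.e (nat_lit 81931) (nat_lit 20) (.e (nat_lit 1990) (nat_lit 136) (.e (nat_lit 655402) (nat_lit 14) .nil))))))) (.g (nat_lit 5) .nil .nil))) 
(.lf (nat_lit 51622) (.g (nat_lit 2187) (.e (nat_lit 1349) (nat_lit 102) (.e (nat_lit 286760) (nat_lit 13) (.e (nat_lit 393299) (nat_lit 27) (.e (nat_lit 491563) (nat_lit 12) (.e (nat_lit 392960) (nat_lit 16) .nil))))) .nil))) (.nd (nat_lit 5) 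
(.lf (nat_lit 51606) (.g (nat_lit 2302) (.e (nat_lit 1349) (nat_lit 102) (.e (nat_lit 286759) (nat_lit 12) (.e (nat_lit 385102) (nat_lit 50) (.e (nat_lit 786483) (nat_lit 30) (.e (nat_lit 360484) (nat_lit 15) (.e (nat_lit 655104) (nat_lit 14) .nil)))))) (.g (nat_lit 4) .nil .nil))) 
(.lf (nat_lit 51638) (.g (nat_lit 2253) (.e (nat_lit 1349) (nat_lit 102) (.e (nat_lit 286761) (nat_lit 13) (.e (nat_lit 393234) (nat_lit 17) (.e (nat_lit 3481) (nat_lit 218) .nil)))) .nil)))) (.nd (nat_lit 4) (.nd (nat_lit 5) 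
(.lf (nat_lit 51598) (.g (nat_lit 3582) (.e (nat_lit 1349) (nat_lit 102) (.e (nat_lit 286759) (nat_lit 12) (.e (nat_lit 385094) (nat_lit 49) (.e (nat_lit 778326) (nat_lit 6) (.e (nat_lit 81947) (nat_lit 20) (.e (nat_lit 1968) (nat_lit 135) (.e (nat_lit 647203) (nat_lit 14) .nil))))))) (.g (nat_lit 7) .nil .nil))) 
(.lf (nat_lit 51630) (.g (nat_lit 2230) (.e (nat_lit 1349) (nat_lit 102) (.e (nat_lit 286761) (nat_lit 13) (.e (nat_lit 401152) (nat_lit 15) (.e (nat_lit 385109) (nat_lit 51) (.e (nat_lit 794669) (nat_lit 22) (.e (nat_lit 196691) (nat_lit 18) .nil)))))) (.g (nat_lit 4) .nil .nil)))) (.nd (nat_lit 5) 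
(.lf (nat_lit 51614) (.g (nat_lit 2108) (.e (nat_lit 1349) (nat_lit 102) (.e (nat_lit 286759) (nat_lit 12) (.e (nat_lit 385106) (nat_lit 50) (.e (nat_lit 786472) (nat_lit 27) .nil)))) .nil)) 
(.lf (nat_lit 51646) (.g (nat_lit 2178) (.e (nat_lit 1349) (nat_lit 102) (.e (nat_lit 286761) (nat_lit 13) (.e (nat_lit 393234) (nat_lit 17) (.e (nat_lit 6957) (nat_lit 377) .nil)))) .nil))))))) (.nd (nat_lit 1) (.nd (nat_lit 2) (.nd (nat_lit 3) (.nd (nat_lit 4) (.nd (nat_lit 5) 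
(.lf (nat_lit 51585) (.g (nat_lit 3118) (.e (nat_lit 1349) (nat_lit 102) (.e (nat_lit 286759) (nat_lit 12) (.e (nat_lit 385094) (nat_lit 49) (.e (nat_lit 778320) (nat_lit 4) (.e (nat_lit 65617) (nat_lit 10) (.e (nat_lit 344160) (nat_lit 37) (.e (nat_lit 647203) (nat_lit 14) .nil))))))) (.g (nat_lit 5) .nil .nil))) 
(.lf (nat_lit 51617) (.g (nat_lit 2931) (.e (nat_lit 1349) (nat_lit 102) (.e (nat_lit 286759) (nat_lit 12) (.e (nat_lit 385106) (nat_lit 50) (.e (nat_lit 786483) (nat_lit 30) (.e (nat_lit 360483) (nat_lit 15) (.e (nat_lit 655104) (nat_lit 14) .nil)))))) (.g (nat_lit 5) .nil .nil)))) (.nd (nat_lit 5) 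
(.lf (nat_lit 51601) (.g (nat_lit 1110) (.e (nat_lit 1349) (nat_lit 102) (.e (nat_lit 286759) (nat_lit 12) (.e (nat_lit 385094) (nat_lit 49) (.e (nat_lit 778327) (nat_lit 6) .nil)))) .nil)) 
(.lf (nat_lit 51633) (.g (nat_lit 2223) (.e (nat_lit 1349) (nat_lit 102) (.e (nat_lit 286761) (nat_lit 13) (.e (nat_lit 393234) (nat_lit 17) (.e (nat_lit 2405) (nat_lit 157) .nil)))) .nil)))) (.nd (nat_lit 4) (.nd (nat_lit 5) 
(.lf (nat_lit 51593) (.g (nat_lit 2493) (.e (nat_lit 1349) (nat_lit 102) (.e (nat_lit 286759) (nat_lit 12) (.e (nat_lit 385094) (nat_lit 49) (.e (nat_lit 778326) (nat_lit 6) (.e (nat_lit 81938) (nat_lit 20) (.e (nat_lit 1985) (nat_lit 136) (.e (nat_lit 655402) (nat_lit 14) .nil))))))) (.g (nat_lit 5) .nil .nil))) 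
(.lf (nat_lit 51625) (.g (nat_lit 2217) (.e (nat_lit 1349) (nat_lit 102) (.e (nat_lit 286761) (nat_lit 13) (.e (nat_lit 393225) (nat_lit 9) (.e (nat_lit 336288) (nat_lit 15) .nil)))) .nil))) (.nd (nat_lit 5) 
(.lf (nat_lit 51609) (.g (nat_lit 2520) (.e (nat_lit 1349) (nat_lit 102) (.e (nat_lit 286759) (nat_lit 12) (.e (nat_lit 385105) (nat_lit 50) (.e (nat_lit 786483) (nat_lit 30) (.e (nat_lit 360484) (nat_lit 15) (.e (nat_lit 655104) (nat_lit 14) .nil)))))) (.g (nat_lit 4) .nil .nil))) 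
(.lf (nat_lit 51641) (.g (nat_lit 2253) (.e (nat_lit 1349) (nat_lit 102) (.e (nat_lit 286761) (nat_lit 13) (.e (nat_lit 393234) (nat_lit 17) (.e (nat_lit 3546) (nat_lit 219) .nil)))) .nil))))) (.nd (nat_lit 3) (.nd (nat_lit 4) (.nd (nat_lit 5) 
(.lf (nat_lit 51589) (.g (nat_lit 849) (.e (nat_lit 1349) (nat_lit 102) (.e (nat_lit 286759) (nat_lit 12) (.e (nat_lit 385094) (nat_lit 49) (.e (nat_lit 778326) (nat_lit 6) .nil)))) .nil)) 
(.lf (nat_lit 51621) (.g (nat_lit 1390) (.e (nat_lit 1349) (nat_lit 102) (.e (nat_lit 286760) (nat_lit 13) (.e (nat_lit 401152) (nat_lit 15) (.e (nat_lit 385107) (nat_lit 51) (.e (nat_lit 794669) (nat_lit 22) (.e (nat_lit 196691) (nat_lit 18) .nil)))))) (.g (nat_lit 4) .nil .nil)))) (.nd (nat_lit 5) 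
(.lf (nat_lit 51605) (.g (nat_lit 2280) (.e (nat_lit 1349) (nat_lit 102) (.e (nat_lit 286759) (nat_lit 12) (.e (nat_lit 385094) (nat_lit 49) (.e (nat_lit 778331) (nat_lit 8) .nil)))) .nil)) 
(.lf (nat_lit 51637) (.g (nat_lit 2236) (.e (nat_lit 1349) (nat_lit 102) (.e (nat_lit 286761) (nat_lit 13) (.e (nat_lit 393234) (nat_lit 17) (.e (nat_lit 3479) (nat_lit 218) .nil)))) .nil)))) (.nd (nat_lit 4) (.nd (nat_lit 5) 
(.lf (nat_lit 51597) (.g (nat_lit 2189) (.e (nat_lit 1349) (nat_lit 102) (.e (nat_lit 286759) (nat_lit 12) (.e (nat_lit 385094) (nat_lit 49) (.e (nat_lit 778326) (nat_lit 6) (.e (nat_lit 81946) (nat_lit 20) (.e (nat_lit 1968) (nat_lit 135) (.e (nat_lit 647203) (nat_lit 14) .nil))))))) (.g (nat_lit 4) .nil .nil))) 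
(.lf (nat_lit 51629) (.g (nat_lit 2137) (.e (nat_lit 1349) (nat_lit 102) (.e (nat_lit 286761) (nat_lit 13) (.e (nat_lit 401152) (nat_lit 15) (.e (nat_lit 385109) (nat_lit 51) (.e (nat_lit 794666) (nat_lit 22) (.e (nat_lit 196691) (nat_lit 18) .nil)))))) (.g (nat_lit 5) .nil .nil)))) (.nd (nat_lit 5) 
(.lf (nat_lit 51613) (.g (nat_lit 3703) (.e (nat_lit 1349) (nat_lit 102) (.e (nat_lit 286759) (nat_lit 12) (.e (nat_lit 385106) (nat_lit 50) (.e (nat_lit 786471) (nat_lit 27) (.e (nat_lit 336173) (nat_lit 10) (.e (nat_lit 344160) (nat_lit 37) (.e (nat_lit 647203) (nat_lit 14) .nil))))))) (.g (nat_lit 5) .nil .nil))) 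
(.lf (nat_lit 51645) (.g (nat_lit 2240) (.e (nat_lit 1349) (nat_lit 102) (.e (nat_lit 286761) (nat_lit 13) (.e (nat_lit 393234) (nat_lit 17) (.e (nat_lit 3557) (nat_lit 220) .nil)))) .nil)))))) (.nd (nat_lit 2) (.nd (nat_lit 3) (.nd (nat_lit 4) (.nd (nat_lit 5) 
(.lf (nat_lit 51587) (.g (nat_lit 3559) (.e (nat_lit 1349) (nat_lit 102) (.e (nat_lit 286759) (nat_lit 12) (.e (nat_lit 385094) (nat_lit 49) (.e (nat_lit 778321) (nat_lit 4) (.e (nat_lit 65617) (nat_lit 10) (.e (nat_lit 344161) (nat_lit 37) (.e (nat_lit 647203) (nat_lit 14) .nil))))))) (.g (nat_lit 6) .nil .nil))) 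
(.lf (nat_lit 51619) (.g (nat_lit 3178) (.e (nat_lit 1349) (nat_lit 102) (.e (nat_lit 286759) (nat_lit 12) (.e (nat_lit 385106) (nat_lit 50) (.e (nat_lit 786483) (nat_lit 30) (.e (nat_lit 360484) (nat_lit 15) (.e (nat_lit 655104) (nat_lit 14) .nil)))))) (.g (nat_lit 5) .nil .nil)))) (.nd (nat_lit 5) 
(.lf (nat_lit 51603) (.g (nat_lit 2754) (.e (nat_lit 1349) (nat_lit 102) (.e (nat_lit 286759) (nat_lit 12) (.e (nat_lit 385094) (nat_lit 49) (.e (nat_lit 778327) (nat_lit 6) (.e (nat_lit 81946) (nat_lit 20) (.e (nat_lit 1988) (nat_lit 136) (.e (nat_lit 655402) (nat_lit 14) .nil))))))) (.g (nat_lit 5) .nil .nil))) 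
(.lf (nat_lit 51635) (.g (nat_lit 2224) (.e (nat_lit 1349) (nat_lit 102) (.e (nat_lit 286761) (nat_lit 13) (.e (nat_lit 393234) (nat_lit 17) (.e (nat_lit 3451) (nat_lit 215) .nil)))) .nil)))) (.nd (nat_lit 4) (.nd (nat_lit 5) 
(.lf (nat_lit 51595) (.g (nat_lit 2225) (.e (nat_lit 1349) (nat_lit 102) (.e (nat_lit 286759) (nat_lit 12) (.e (nat_lit 385094) (nat_lit 49) (.e (nat_lit 778326) (nat_lit 6) (.e (nat_lit 81945) (nat_lit 20) (.e (nat_lit 1966) (nat_lit 135) (.e (nat_lit 647203) (nat_lit 14) .nil))))))) (.g (nat_lit 4) .nil .nil))) 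
(.lf (nat_lit 51627) (.g (nat_lit 693) (.e (nat_lit 1349) (nat_lit 102) (.e (nat_lit 286761) (nat_lit 13) (.e (nat_lit 393227) (nat_lit 9) .nil))) .nil))) (.nd (nat_lit 5) 
(.lf (nat_lit 51611) (.g (nat_lit 2367) (.e (nat_lit 1349) (nat_lit 102) (.e (nat_lit 286759) (nat_lit 12) (.e (nat_lit 385106) (nat_lit 50) (.e (nat_lit 786470) (nat_lit 27) (.e (nat_lit 336175) (nat_lit 10) (.e (nat_lit 344160) (nat_lit 37) (.e (nat_lit 647203) (nat_lit 14) .nil))))))) (.g (nat_lit 4) .nil .nil))) 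
(.lf (nat_lit 51643) (.g (nat_lit 2165) (.e (nat_lit 1349) (nat_lit 102) (.e (nat_lit 286761) (nat_lit 13) (.e (nat_lit 393234) (nat_lit 17) (.e (nat_lit 3555) (nat_lit 220) .nil)))) .nil))))) (.nd (nat_lit 3) (.nd (nat_lit 4) (.nd (nat_lit 5) 
(.lf (nat_lit 51591) (.g (nat_lit 2287) (.e (nat_lit 1349) (nat_lit 102) (.e (nat_lit 286759) (nat_lit 12) (.e (nat_lit 385094) (nat_lit 49) (.e (nat_lit 778326) (nat_lit 6) (.e (nat_lit 81936) (nat_lit 20) (.e (nat_lit 1987) (nat_lit 136) (.e (nat_lit 655402) (nat_lit 14) .nil))))))) (.g (nat_lit 4) .nil .nil))) 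
(.lf (nat_lit 51623) (.g (nat_lit 2518) (.e (nat_lit 1349) (nat_lit 102) (.e (nat_lit 286760) (nat_lit 13) (.e (nat_lit 393301) (nat_lit 27) (.e (nat_lit 491563) (nat_lit 12) (.e (nat_lit 392960) (nat_lit 16) .nil))))) (.g (nat_lit 4) .nil .nil)))) (.nd (nat_lit 5) 
(.lf (nat_lit 51607) (.g (nat_lit 1069) (.e (nat_lit 1349) (nat_lit 102) (.e (nat_lit 286759) (nat_lit 12) (.e (nat_lit 385105) (nat_lit 50) (.e (nat_lit 786483) (nat_lit 30) .nil)))) .nil)) 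
(.lf (nat_lit 51639) (.g (nat_lit 2225) (.e (nat_lit 1349) (nat_lit 102) (.e (nat_lit 286761) (nat_lit 13) (.e (nat_lit 393234) (nat_lit 17) (.e (nat_lit 3485) (nat_lit 218) .nil)))) .nil)))) (.nd (nat_lit 4) (.nd (nat_lit 5) 
(.lf (nat_lit 51599) (.g (nat_lit 2195) (.e (nat_lit 1349) (nat_lit 102) (.e (nat_lit 286759) (nat_lit 12) (.e (nat_lit 385094) (nat_lit 49) (.e (nat_lit 778326) (nat_lit 6) (.e (nat_lit 81947) (nat_lit 20) (.e (nat_lit 1969) (nat_lit 135) (.e (nat_lit 647203) (nat_lit 14) .nil))))))) (.g (nat_lit 4) .nil .nil))) 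
(.lf (nat_lit 51631) (.g (nat_lit 257) (.e (nat_lit 1349) (nat_lit 102) (.e (nat_lit 286761) (nat_lit 13) (.e (nat_lit 393234) (nat_lit 17) .nil))) .nil))) (.nd (nat_lit 5) 
(.lf (nat_lit 51615) (.g (nat_lit 3366) (.e (nat_lit 1349) (nat_lit 102) (.e (nat_lit 286759) (nat_lit 12) (.e (nat_lit 385106) (nat_lit 50) (.e (nat_lit 786481) (nat_lit 30) (.e (nat_lit 360482) (nat_lit 15) (.e (nat_lit 655104) (nat_lit 14) .nil)))))) (.g (nat_lit 5) .nil .nil))) 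
(.lf (nat_lit 51647) (.g (nat_lit 1238) (.e (nat_lit 1349) (nat_lit 102) (.e (nat_lit 286761) (nat_lit 13) (.e (nat_lit 393234) (nat_lit 17) (.e (nat_lit 7065) (nat_lit 377) .nil)))) .nil))))))))

noncomputable def tv719 : DT := (.nd (nat_lit 0) (.nd (nat_lit 1) (.nd (nat_lit 2) (.nd (nat_lit 3) (.nd (nat_lit 4) (.nd (nat_lit 5) 
(.lf (nat_lit 51648) (.g (nat_lit 1959) (.e (nat_lit 1349) (nat_lit 102) (.e (nat_lit 286761) (nat_lit 13) (.e (nat_lit 393234) (nat_lit 17) (.e (nat_lit 7065) (nat_lit 377) (.e (nat_lit 1115) (nat_lit 82) .nil))))) .nil)) 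
(.lf (nat_lit 51680) (.g (nat_lit 4392) (.e (nat_lit 1349) (nat_lit 102) (.e (nat_lit 286761) (nat_lit 13) (.e (nat_lit 393234) (nat_lit 17) (.e (nat_lit 7536) (nat_lit 402) (.e (nat_lit 1454) (nat_lit 108) (.e (nat_lit 336295) (nat_lit 15) (.e (nat_lit 7936) (nat_lit 377) .nil))))))) (.g (nat_lit 6) .nil .nil)))) (.nd (nat_lit 5) 
(.lf (nat_lit 51664) (.g (nat_lit 1995) (.e (nat_lit 1349) (nat_lit 102) (.e (nat_lit 286761) (nat_lit 13) (.e (nat_lit 393234) (nat_lit 17) (.e (nat_lit 7490) (nat_lit 402) (.e (nat_lit 1626) (nat_lit 114) (.e (nat_lit 392960) (nat_lit 16) .nil)))))) (.g (nat_lit 4) .nil .nil))) 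
(.lf (nat_lit 51696) (.g (nat_lit 2058) (.e (nat_lit 1349) (nat_lit 102) (.e (nat_lit 286761) (nat_lit 13) (.e (nat_lit 393234) (nat_lit 17) (.e (nat_lit 7587) (nat_lit 406) (.e (nat_lit 65635) (nat_lit 15) (.e (nat_lit 7936) (nat_lit 377) .nil)))))) (.g (nat_lit 4) .nil .nil))))) (.nd (nat_lit 4) (.nd (nat_lit 5) 
(.lf (nat_lit 51656) (.g (nat_lit 3738) (.e (nat_lit 1349) (nat_lit 102) (.e (nat_lit 286761) (nat_lit 13) (.e (nat_lit 393234) (nat_lit 17) (.e (nat_lit 7110) (nat_lit 380) (.e (nat_lit 164368) (nat_lit 247) (.e (nat_lit 16128) (nat_lit 225) .nil)))))) (.g (nat_lit 5) .nil .nil))) 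
(.lf (nat_lit 51688) (.g (nat_lit 1846) (.e (nat_lit 1349) (nat_lit 102) (.e (nat_lit 286761) (nat_lit 13) (.e (nat_lit 393234) (nat_lit 17) (.e (nat_lit 7936) (nat_lit 402) .nil)))) .nil))) (.nd (nat_lit 5) 
(.lf (nat_lit 51672) (.g (nat_lit 1604) (.e (nat_lit 1349) (nat_lit 102) (.e (nat_lit 286761) (nat_lit 13) (.e (nat_lit 393234) (nat_lit 17) (.e (nat_lit 7507) (nat_lit 402) .nil)))) .nil)) 
(.lf (nat_lit 51704) (.g (nat_lit 2668) (.e (nat_lit 1349) (nat_lit 102) (.e (nat_lit 286761) (nat_lit 13) (.e (nat_lit 393234) (nat_lit 17) (.e (nat_lit 7589) (nat_lit 406) (.e (nat_lit 65631) (nat_lit 15) (.e (nat_lit 6961) (nat_lit 377) .nil)))))) (.g (nat_lit 5) .nil .nil)))))) (.nd (nat_lit 3) (.nd (nat_lit 4) (.nd (nat_lit 5) 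
(.lf (nat_lit 51652) (.g (nat_lit 2930) (.e (nat_lit 1349) (nat_lit 102) (.e (nat_lit 286761) (nat_lit 13) (.e (nat_lit 393234) (nat_lit 17) (.e (nat_lit 7109) (nat_lit 380) (.e (nat_lit 164367) (nat_lit 247) (.e (nat_lit 16128) (nat_lit 225) .nil)))))) (.g (nat_lit 4) .nil .nil))) 
(.lf (nat_lit 51684) (.g (nat_lit 2738) (.e (nat_lit 1349) (nat_lit 102) (.e (nat_lit 286761) (nat_lit 13) (.e (nat_lit 393234) (nat_lit 17) (.e (nat_lit 7536) (nat_lit 402) (.e (nat_lit 7936) (nat_lit 114) (.e (nat_lit 392960) (nat_lit 16) .nil)))))) (.g (nat_lit 4) .nil .nil)))) (.nd (nat_lit 5) 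
(.lf (nat_lit 51668) (.g (nat_lit 2354) (.e (nat_lit 1349) (nat_lit 102) (.e (nat_lit 286761) (nat_lit 13) (.e (nat_lit 393234) (nat_lit 17) (.e (nat_lit 7490) (nat_lit 402) (.e (nat_lit 1642) (nat_lit 114) (.e (nat_lit 392960) (nat_lit 16) .nil)))))) (.g (nat_lit 5) .nil .nil))) 
(.lf (nat_lit 51700) (.g (nat_lit 1533) (.e (nat_lit 1349) (nat_lit 102) (.e (nat_lit 286761) (nat_lit 13) (.e (nat_lit 393234) (nat_lit 17) (.e (nat_lit 7587) (nat_lit 406) (.e (nat_lit 65639) (nat_lit 15) .nil))))) .nil)))) (.nd (nat_lit 4) (.nd (nat_lit 5) 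
(.lf (nat_lit 51660) (.g (nat_lit 2213) (.e (nat_lit 1349) (nat_lit 102) (.e (nat_lit 286761) (nat_lit 13) (.e (nat_lit 393234) (nat_lit 17) (.e (nat_lit 7486) (nat_lit 402) (.e (nat_lit 1634) (nat_lit 114) (.e (nat_lit 392960) (nat_lit 16) .nil)))))) (.g (nat_lit 4) .nil .nil))) 
(.lf (nat_lit 51692) (.g (nat_lit 2140) (.e (nat_lit 1349) (nat_lit 102) (.e (nat_lit 286761) (nat_lit 13) (.e (nat_lit 393234) (nat_lit 17) (.e (nat_lit 7587) (nat_lit 406) (.e (nat_lit 65632) (nat_lit 15) (.e (nat_lit 7064) (nat_lit 377) .nil)))))) (.g (nat_lit 4) .nil .nil)))) (.nd (nat_lit 5) 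
(.lf (nat_lit 51676) (.g (nat_lit 2253) (.e (nat_lit 1349) (nat_lit 102) (.e (nat_lit 286761) (nat_lit 13) (.e (nat_lit 393234) (nat_lit 17) (.e (nat_lit 7514) (nat_lit 402) .nil)))) .nil)) 
(.lf (nat_lit 51708) (.g (nat_lit 1861) (.e (nat_lit 1349) (nat_lit 102) (.e (nat_lit 286761) (nat_lit 13) (.e (nat_lit 393234) (nat_lit 17) (.e (nat_lit 7589) (nat_lit 406) (.e (nat_lit 65634) (nat_lit 15) (.e (nat_lit 7936) (nat_lit 377) .nil)))))) (.g (nat_lit 4) .nil .nil))))))) (.nd (nat_lit 2) (.nd (nat_lit 3) (.nd (nat_lit 4) (.nd (nat_lit 5) 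
(.lf (nat_lit 51650) (.g (nat_lit 2253) (.e (nat_lit 1349) (nat_lit 102) (.e (nat_lit 286761) (nat_lit 13) (.e (nat_lit 393234) (nat_lit 17) (.e (nat_lit 7075) (nat_lit 378) .nil)))) .nil)) 
(.lf (nat_lit 51682) (.g (nat_lit 2805) (.e (nat_lit 1349) (nat_lit 102) (.e (nat_lit 286761) (nat_lit 13) (.e (nat_lit 393234) (nat_lit 17) (.e (nat_lit 7536) (nat_lit 402) (.e (nat_lit 1626) (nat_lit 114) (.e (nat_lit 392960) (nat_lit 16) .nil)))))) (.g (nat_lit 5) .nil .nil)))) (.nd (nat_lit 5) 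
(.lf (nat_lit 51666) (.g (nat_lit 2202) (.e (nat_lit 1349) (nat_lit 102) (.e (nat_lit 286761) (nat_lit 13) (.e (nat_lit 393234) (nat_lit 17) (.e (nat_lit 7490) (nat_lit 402) (.e (nat_lit 1631) (nat_lit 114) (.e (nat_lit 392960) (nat_lit 16) .nil)))))) (.g (nat_lit 5) .nil .nil))) 
(.lf (nat_lit 51698) (.g (nat_lit 1865) (.e (nat_lit 1349) (nat_lit 102) (.e (nat_lit 286761) (nat_lit 13) (.e (nat_lit 393234) (nat_lit 17) (.e (nat_lit 7587) (nat_lit 406) (.e (nat_lit 65637) (nat_lit 15) (.e (nat_lit 7936) (nat_lit 377) .nil)))))) (.g (nat_lit 5) .nil .nil))))) (.nd (nat_lit 4) (.nd (nat_lit 5) 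
(.lf (nat_lit 51658) (.g (nat_lit 2302) (.e (nat_lit 1349) (nat_lit 102) (.e (nat_lit 286761) (nat_lit 13) (.e (nat_lit 393234) (nat_lit 17) (.e (nat_lit 7309) (nat_lit 388) .nil)))) .nil)) 
(.lf (nat_lit 51690) (.g (nat_lit 2432) (.e (nat_lit 1349) (nat_lit 102) (.e (nat_lit 286761) (nat_lit 13) (.e (nat_lit 393234) (nat_lit 17) (.e (nat_lit 7587) (nat_lit 406) (.e (nat_lit 65631) (nat_lit 15) (.e (nat_lit 7064) (nat_lit 377) .nil)))))) (.g (nat_lit 5) .nil .nil)))) (.nd (nat_lit 5) 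
(.lf (nat_lit 51674) (.g (nat_lit 2342) (.e (nat_lit 1349) (nat_lit 102) (.e (nat_lit 286761) (nat_lit 13) (.e (nat_lit 393234) (nat_lit 17) (.e (nat_lit 7513) (nat_lit 402) .nil)))) .nil)) 
(.lf (nat_lit 51706) (.g (nat_lit 2106) (.e (nat_lit 1349) (nat_lit 102) (.e (nat_lit 286761) (nat_lit 13) (.e (nat_lit 393234) (nat_lit 17) (.e (nat_lit 7589) (nat_lit 406) (.e (nat_lit 65632) (nat_lit 15) (.e (nat_lit 7936) (nat_lit 377) .nil)))))) (.g (nat_lit 5) .nil .nil)))))) (.nd (nat_lit 3) (.nd (nat_lit 4) (.nd (nat_lit 5) 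
(.lf (nat_lit 51654) (.g (nat_lit 2100) (.e (nat_lit 1349) (nat_lit 102) (.e (nat_lit 286761) (nat_lit 13) (.e (nat_lit 393234) (nat_lit 17) (.e (nat_lit 7110) (nat_lit 380) .nil)))) .nil)) 
(.lf (nat_lit 51686) (.g (nat_lit 2937) (.e (nat_lit 1349) (nat_lit 102) (.e (nat_lit 286761) (nat_lit 13) (.e (nat_lit 393234) (nat_lit 17) (.e (nat_lit 7545) (nat_lit 402) (.e (nat_lit 1627) (nat_lit 114) (.e (nat_lit 392960) (nat_lit 16) .nil)))))) (.g (nat_lit 5) .nil .nil)))) (.nd (nat_lit 5) 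
(.lf (nat_lit 51670) (.g (nat_lit 2229) (.e (nat_lit 1349) (nat_lit 102) (.e (nat_lit 286761) (nat_lit 13) (.e (nat_lit 393234) (nat_lit 17) (.e (nat_lit 7495) (nat_lit 402) (.e (nat_lit 1626) (nat_lit 114) (.e (nat_lit 392960) (nat_lit 16) .nil)))))) (.g (nat_lit 5) .nil .nil))) 
(.lf (nat_lit 51702) (.g (nat_lit 2178) (.e (nat_lit 1349) (nat_lit 102) (.e (nat_lit 286761) (nat_lit 13) (.e (nat_lit 393234) (nat_lit 17) (.e (nat_lit 7587) (nat_lit 406) (.e (nat_lit 65641) (nat_lit 15) (.e (nat_lit 7936) (nat_lit 377) .nil)))))) (.g (nat_lit 5) .nil .nil))))) (.nd (nat_lit 4) (.nd (nat_lit 5) 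
(.lf (nat_lit 51662) (.g (nat_lit 2540) (.e (nat_lit 1349) (nat_lit 102) (.e (nat_lit 286761) (nat_lit 13) (.e (nat_lit 393234) (nat_lit 17) (.e (nat_lit 7490) (nat_lit 402) (.e (nat_lit 1422) (nat_lit 108) (.e (nat_lit 336242) (nat_lit 15) (.e (nat_lit 7064) (nat_lit 377) .nil))))))) (.g (nat_lit 5) .nil .nil))) 
(.lf (nat_lit 51694) (.g (nat_lit 1505) (.e (nat_lit 1349) (nat_lit 102) (.e (nat_lit 286761) (nat_lit 13) (.e (nat_lit 393234) (nat_lit 17) (.e (nat_lit 7587) (nat_lit 406) (.e (nat_lit 65633) (nat_lit 15) (.e (nat_lit 7936) (nat_lit 377) .nil)))))) (.g (nat_lit 4) .nil .nil)))) (.nd (nat_lit 5) 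
(.lf (nat_lit 51678) (.g (nat_lit 2498) (.e (nat_lit 1349) (nat_lit 102) (.e (nat_lit 286761) (nat_lit 13) (.e (nat_lit 393234) (nat_lit 17) (.e (nat_lit 7523) (nat_lit 402) (.e (nat_lit 1512) (nat_lit 108) .nil))))) .nil)) 
(.lf (nat_lit 51710) (.g (nat_lit 1995) (.e (nat_lit 1349) (nat_lit 102) (.e (nat_lit 286761) (nat_lit 13) (.e (nat_lit 393234) (nat_lit 17) (.e (nat_lit 7589) (nat_lit 406) (.e (nat_lit 65636) (nat_lit 15) (.e (nat_lit 7936) (nat_lit 377) .nil)))))) (.g (nat_lit 4) .nil .nil)))))))) (.nd (nat_lit 1) (.nd (nat_lit 2) (.nd (nat_lit 3) (.nd (nat_lit 4) (.nd (nat_lit 5) 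
(.lf (nat_lit 51649) (.g (nat_lit 1924) (.e (nat_lit 1349) (nat_lit 102) (.e (nat_lit 286761) (nat_lit 13) (.e (nat_lit 393234) (nat_lit 17) (.e (nat_lit 7065) (nat_lit 377) (.e (nat_lit 2489) (nat_lit 157) .nil))))) .nil)) 
(.lf (nat_lit 51681) (.g (nat_lit 2785) (.e (nat_lit 1349) (nat_lit 102) (.e (nat_lit 286761) (nat_lit 13) (.e (nat_lit 393234) (nat_lit 17) (.e (nat_lit 7536) (nat_lit 402) (.e (nat_lit 7936) (nat_lit 108) (.e (nat_lit 336241) (nat_lit 15) (.e (nat_lit 7064) (nat_lit 377) .nil))))))) (.g (nat_lit 4) .nil .nil)))) (.nd (nat_lit 5) 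
(.lf (nat_lit 51665) (.g (nat_lit 1963) (.e (nat_lit 1349) (nat_lit 102) (.e (nat_lit 286761) (nat_lit 13) (.e (nat_lit 393234) (nat_lit 17) (.e (nat_lit 7490) (nat_lit 402) (.e (nat_lit 1630) (nat_lit 114) (.e (nat_lit 392960) (nat_lit 16) .nil)))))) (.g (nat_lit 4) .nil .nil))) 
(.lf (nat_lit 51697) (.g (nat_lit 1954) (.e (nat_lit 1349) (nat_lit 102) (.e (nat_lit 286761) (nat_lit 13) (.e (nat_lit 393234) (nat_lit 17) (.e (nat_lit 7587) (nat_lit 406) (.e (nat_lit 65636) (nat_lit 15) (.e (nat_lit 7936) (nat_lit 377) .nil)))))) (.g (nat_lit 4) .nil .nil))))) (.nd (nat_lit 4) (.nd (nat_lit 5) 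
(.lf (nat_lit 51657) (.g (nat_lit 2206) (.e (nat_lit 1349) (nat_lit 102) (.e (nat_lit 286761) (nat_lit 13) (.e (nat_lit 393234) (nat_lit 17) (.e (nat_lit 7118) (nat_lit 381) .nil)))) .nil)) 
(.lf (nat_lit 51689) (.g (nat_lit 2332) (.e (nat_lit 1349) (nat_lit 102) (.e (nat_lit 286761) (nat_lit 13) (.e (nat_lit 393234) (nat_lit 17) (.e (nat_lit 7587) (nat_lit 406) (.e (nat_lit 65631) (nat_lit 15) (.e (nat_lit 6961) (nat_lit 377) .nil)))))) (.g (nat_lit 4) .nil .nil)))) (.nd (nat_lit 5) 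
(.lf (nat_lit 51673) (.g (nat_lit 2462) (.e (nat_lit 1349) (nat_lit 102) (.e (nat_lit 286761) (nat_lit 13) (.e (nat_lit 393234) (nat_lit 17) (.e (nat_lit 7511) (nat_lit 402) (.e (nat_lit 1638) (nat_lit 114) .nil))))) .nil)) 
(.lf (nat_lit 51705) (.g (nat_lit 1996) (.e (nat_lit 1349) (nat_lit 102) (.e (nat_lit 286761) (nat_lit 13) (.e (nat_lit 393234) (nat_lit 17) (.e (nat_lit 7589) (nat_lit 406) (.e (nat_lit 65631) (nat_lit 15) (.e (nat_lit 7936) (nat_lit 377) .nil)))))) (.g (nat_lit 4) .nil .nil)))))) (.nd (nat_lit 3) (.nd (nat_lit 4) (.nd (nat_lit 5) 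
(.lf (nat_lit 51653) (.g (nat_lit 2533) (.e (nat_lit 1349) (nat_lit 102) (.e (nat_lit 286761) (nat_lit 13) (.e (nat_lit 393234) (nat_lit 17) (.e (nat_lit 7109) (nat_lit 380) (.e (nat_lit 164368) (nat_lit 247) .nil))))) .nil)) 
(.lf (nat_lit 51685) (.g (nat_lit 2879) (.e (nat_lit 1349) (nat_lit 102) (.e (nat_lit 286761) (nat_lit 13) (.e (nat_lit 393234) (nat_lit 17) (.e (nat_lit 7538) (nat_lit 402) (.e (nat_lit 1638) (nat_lit 114) (.e (nat_lit 392960) (nat_lit 16) .nil)))))) (.g (nat_lit 5) .nil .nil)))) (.nd (nat_lit 5) 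
(.lf (nat_lit 51669) (.g (nat_lit 2253) (.e (nat_lit 1349) (nat_lit 102) (.e (nat_lit 286761) (nat_lit 13) (.e (nat_lit 393234) (nat_lit 17) (.e (nat_lit 7493) (nat_lit 402) .nil)))) .nil)) 
(.lf (nat_lit 51701) (.g (nat_lit 1540) (.e (nat_lit 1349) (nat_lit 102) (.e (nat_lit 286761) (nat_lit 13) (.e (nat_lit 393234) (nat_lit 17) (.e (nat_lit 7587) (nat_lit 406) (.e (nat_lit 65640) (nat_lit 15) .nil))))) .nil)))) (.nd (nat_lit 4) (.nd (nat_lit 5) 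
(.lf (nat_lit 51661) (.g (nat_lit 2100) (.e (nat_lit 1349) (nat_lit 102) (.e (nat_lit 286761) (nat_lit 13) (.e (nat_lit 393234) (nat_lit 17) (.e (nat_lit 7490) (nat_lit 402) (.e (nat_lit 1419) (nat_lit 108) (.e (nat_lit 336242) (nat_lit 15) (.e (nat_lit 7064) (nat_lit 377) .nil))))))) (.g (nat_lit 4) .nil .nil))) 
(.lf (nat_lit 51693) (.g (nat_lit 1375) (.e (nat_lit 1349) (nat_lit 102) (.e (nat_lit 286761) (nat_lit 13) (.e (nat_lit 393234) (nat_lit 17) (.e (nat_lit 7587) (nat_lit 406) (.e (nat_lit 65632) (nat_lit 15) (.e (nat_lit 7936) (nat_lit 377) .nil)))))) (.g (nat_lit 4) .nil .nil)))) (.nd (nat_lit 5) 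
(.lf (nat_lit 51677) (.g (nat_lit 2127) (.e (nat_lit 1349) (nat_lit 102) (.e (nat_lit 286761) (nat_lit 13) (.e (nat_lit 393234) (nat_lit 17) (.e (nat_lit 7522) (nat_lit 402) .nil)))) .nil)) 
(.lf (nat_lit 51709) (.g (nat_lit 1990) (.e (nat_lit 1349) (nat_lit 102) (.e (nat_lit 286761) (nat_lit 13) (.e (nat_lit 393234) (nat_lit 17) (.e (nat_lit 7589) (nat_lit 406) (.e (nat_lit 65635) (nat_lit 15) (.e (nat_lit 7936) (nat_lit 377) .nil)))))) (.g (nat_lit 4) .nil .nil))))))) (.nd (nat_lit 2) (.nd (nat_lit 3) (.nd (nat_lit 4) (.nd (nat_lit 5) 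
(.lf (nat_lit 51651) (.g (nat_lit 2253) (.e (nat_lit 1349) (nat_lit 102) (.e (nat_lit 286761) (nat_lit 13) (.e (nat_lit 393234) (nat_lit 17) (.e (nat_lit 7080) (nat_lit 378) .nil)))) .nil)) 
(.lf (nat_lit 51683) (.g (nat_lit 3392) (.e (nat_lit 1349) (nat_lit 102) (.e (nat_lit 286761) (nat_lit 13) (.e (nat_lit 393234) (nat_lit 17) (.e (nat_lit 7536) (nat_lit 402) (.e (nat_lit 1633) (nat_lit 114) (.e (nat_lit 392960) (nat_lit 16) .nil)))))) (.g (nat_lit 5) .nil .nil)))) (.nd (nat_lit 5) 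
(.lf (nat_lit 51667) (.g (nat_lit 2051) (.e (nat_lit 1349) (nat_lit 102) (.e (nat_lit 286761) (nat_lit 13) (.e (nat_lit 393234) (nat_lit 17) (.e (nat_lit 7490) (nat_lit 402) (.e (nat_lit 1632) (nat_lit 114) (.e (nat_lit 392960) (nat_lit 16) .nil)))))) (.g (nat_lit 4) .nil .nil))) 
(.lf (nat_lit 51699) (.g (nat_lit 1889) (.e (nat_lit 1349) (nat_lit 102) (.e (nat_lit 286761) (nat_lit 13) (.e (nat_lit 393234) (nat_lit 17) (.e (nat_lit 7587) (nat_lit 406) (.e (nat_lit 65638) (nat_lit 15) (.e (nat_lit 7936) (nat_lit 377) .nil)))))) (.g (nat_lit 4) .nil .nil))))) (.nd (nat_lit 4) (.nd (nat_lit 5) 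
(.lf (nat_lit 51659) (.g (nat_lit 1391) (.e (nat_lit 1349) (nat_lit 102) (.e (nat_lit 286761) (nat_lit 13) (.e (nat_lit 393234) (nat_lit 17) (.e (nat_lit 7486) (nat_lit 402) .nil)))) .nil)) 
(.lf (nat_lit 51691) (.g (nat_lit 1709) (.e (nat_lit 1349) (nat_lit 102) (.e (nat_lit 286761) (nat_lit 13) (.e (nat_lit 393234) (nat_lit 17) (.e (nat_lit 7587) (nat_lit 406) (.e (nat_lit 65631) (nat_lit 15) (.e (nat_lit 7936) (nat_lit 377) .nil)))))) (.g (nat_lit 4) .nil .nil)))) (.nd (nat_lit 5) 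
(.lf (nat_lit 51675) (.g (nat_lit 2556) (.e (nat_lit 1349) (nat_lit 102) (.e (nat_lit 286761) (nat_lit 13) (.e (nat_lit 393234) (nat_lit 17) (.e (nat_lit 7513) (nat_lit 402) (.e (nat_lit 1512) (nat_lit 108) .nil))))) .nil)) 
(.lf (nat_lit 51707) (.g (nat_lit 2088) (.e (nat_lit 1349) (nat_lit 102) (.e (nat_lit 286761) (nat_lit 13) (.e (nat_lit 393234) (nat_lit 17) (.e (nat_lit 7589) (nat_lit 406) (.e (nat_lit 65633) (nat_lit 15) (.e (nat_lit 7936) (nat_lit 377) .nil)))))) (.g (nat_lit 5) .nil .nil)))))) (.nd (nat_lit 3) (.nd (nat_lit 4) (.nd (nat_lit 5) 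
(.lf (nat_lit 51655) (.g (nat_lit 3527) (.e (nat_lit 1349) (nat_lit 102) (.e (nat_lit 286761) (nat_lit 13) (.e (nat_lit 393234) (nat_lit 17) (.e (nat_lit 7110) (nat_lit 380) (.e (nat_lit 164367) (nat_lit 247) (.e (nat_lit 16128) (nat_lit 225) .nil)))))) (.g (nat_lit 5) .nil .nil))) 
(.lf (nat_lit 51687) (.g (nat_lit 2039) (.e (nat_lit 1349) (nat_lit 102) (.e (nat_lit 286761) (nat_lit 13) (.e (nat_lit 393234) (nat_lit 17) (.e (nat_lit 7567) (nat_lit 402) .nil)))) .nil))) (.nd (nat_lit 5) 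
(.lf (nat_lit 51671) (.g (nat_lit 2059) (.e (nat_lit 1349) (nat_lit 102) (.e (nat_lit 286761) (nat_lit 13) (.e (nat_lit 393234) (nat_lit 17) (.e (nat_lit 7502) (nat_lit 402) .nil)))) .nil)) 
(.lf (nat_lit 51703) (.g (nat_lit 2117) (.e (nat_lit 1349) (nat_lit 102) (.e (nat_lit 286761) (nat_lit 13) (.e (nat_lit 393234) (nat_lit 17) (.e (nat_lit 7587) (nat_lit 406) (.e (nat_lit 65642) (nat_lit 15) (.e (nat_lit 7936) (nat_lit 377) .nil)))))) (.g (nat_lit 5) .nil .nil))))) (.nd (nat_lit 4) (.nd (nat_lit 5) 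
(.lf (nat_lit 51663) (.g (nat_lit 2065) (.e (nat_lit 1349) (nat_lit 102) (.e (nat_lit 286761) (nat_lit 13) (.e (nat_lit 393234) (nat_lit 17) (.e (nat_lit 7490) (nat_lit 402) (.e (nat_lit 1433) (nat_lit 108) (.e (nat_lit 336242) (nat_lit 15) (.e (nat_lit 7064) (nat_lit 377) .nil))))))) (.g (nat_lit 4) .nil .nil))) 
(.lf (nat_lit 51695) (.g (nat_lit 1659) (.e (nat_lit 1349) (nat_lit 102) (.e (nat_lit 286761) (nat_lit 13) (.e (nat_lit 393234) (nat_lit 17) (.e (nat_lit 7587) (nat_lit 406) (.e (nat_lit 65634) (nat_lit 15) (.e (nat_lit 7936) (nat_lit 377) .nil)))))) (.g (nat_lit 4) .nil .nil)))) (.nd (nat_lit 5) 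
(.lf (nat_lit 51679) (.g (nat_lit 1501) (.e (nat_lit 1349) (nat_lit 102) (.e (nat_lit 286761) (nat_lit 13) (.e (nat_lit 393234) (nat_lit 17) (.e (nat_lit 7536) (nat_lit 402) .nil)))) .nil)) 
(.lf (nat_lit 51711) (.g (nat_lit 2078) (.e (nat_lit 1349) (nat_lit 102) (.e (nat_lit 286761) (nat_lit 13) (.e (nat_lit 393234) (nat_lit 17) (.e (nat_lit 7589) (nat_lit 406) (.e (nat_lit 65637) (nat_lit 15) (.e (nat_lit 7936) (nat_lit 377) .nil)))))) (.g (nat_lit 5) .nil .nil)))))))))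

noncomputable def tv720 : DT := (.nd (nat_lit 0) (.nd (nat_lit 1) (.nd (nat_lit 2) (.nd (nat_lit 3) (.nd (nat_lit 4) (.nd (nat_lit 5) (.nd (nat_lit 6) 
(.lf (nat_lit 51712) (.g (nat_lit 2045) (.e (nat_lit 1349) (nat_lit 102) (.e (nat_lit 286761) (nat_lit 13) (.e (nat_lit 393234) (nat_lit 17) (.e (nat_lit 7589) (nat_lit 406) (.e (nat_lit 65638) (nat_lit 15) (.e (nat_lit 7936) (nat_lit 377) .nil)))))) (.g (nat_lit 4) .nil .nil))) 
(.lf (nat_lit 51776) (.g (nat_lit 2219) (.e (nat_lit 1349) (nat_lit 102) (.e (nat_lit 286761) (nat_lit 13) (.e (nat_lit 393293) (nat_lit 26) (.e (nat_lit 475218) (nat_lit 44) (.e (nat_lit 737289) (nat_lit 0) (.e (nat_lit 4961) (nat_lit 287) .nil)))))) (.g (nat_lit 0) .nil .nil)))) (.nd (nat_lit 6) 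
(.lf (nat_lit 51744) (.g (nat_lit 1606) (.e (nat_lit 1349) (nat_lit 102) (.e (nat_lit 286761) (nat_lit 13) (.e (nat_lit 393260) (nat_lit 21) (.e (nat_lit 409623) (nat_lit 10) .nil)))) .nil)) 
(.lf (nat_lit 51808) (.g (nat_lit 2906) (.e (nat_lit 1349) (nat_lit 102) (.e (nat_lit 286761) (nat_lit 13) (.e (nat_lit 393300) (nat_lit 27) (.e (nat_lit 491549) (nat_lit 9) (.e (nat_lit 336285) (nat_lit 15) .nil))))) .nil)))) (.nd (nat_lit 5) (.nd (nat_lit 6) 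
(.lf (nat_lit 51728) (.g (nat_lit 2396) (.e (nat_lit 1349) (nat_lit 102) (.e (nat_lit 286761) (nat_lit 13) (.e (nat_lit 393234) (nat_lit 17) (.e (nat_lit 7591) (nat_lit 407) (.e (nat_lit 73731) (nat_lit 0) (.e (nat_lit 6848) (nat_lit 371) (.e (nat_lit 71) (nat_lit 0) .nil))))))) (.g (nat_lit 4) .nil .nil))) 
(.lf (nat_lit 51792) (.g (nat_lit 1758) (.e (nat_lit 1349) (nat_lit 102) (.e (nat_lit 286761) (nat_lit 13) (.e (nat_lit 393300) (nat_lit 27) (.e (nat_lit 491520) (nat_lit 0) .nil)))) .nil))) (.nd (nat_lit 6) 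
(.lf (nat_lit 51760) (.g (nat_lit 2386) (.e (nat_lit 1349) (nat_lit 102) (.e (nat_lit 286761) (nat_lit 13) (.e (nat_lit 393270) (nat_lit 23) (.e (nat_lit 426360) (nat_lit 15) (.e (nat_lit 2240) (nat_lit 146) (.e (nat_lit 737283) (nat_lit 0) (.e (nat_lit 4965) (nat_lit 287) .nil))))))) (.g (nat_lit 4) .nil .nil))) 
(.lf (nat_lit 51824) (.g (nat_lit 3661) (.e (nat_lit 1349) (nat_lit 102) (.e (nat_lit 286761) (nat_lit 13) (.e (nat_lit 393301) (nat_lit 27) (.e (nat_lit 491520) (nat_lit 0) .nil)))) .nil))))) (.nd (nat_lit 4) (.nd (nat_lit 5) (.nd (nat_lit 6) 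
(.lf (nat_lit 51720) (.g (nat_lit 2351) (.e (nat_lit 1349) (nat_lit 102) (.e (nat_lit 286761) (nat_lit 13) (.e (nat_lit 393234) (nat_lit 17) (.e (nat_lit 7591) (nat_lit 407) (.e (nat_lit 73728) (nat_lit 0) (.e (nat_lit 6848) (nat_lit 371) (.e (nat_lit 71) (nat_lit 0) .nil))))))) (.g (nat_lit 4) .nil .nil))) 
(.lf (nat_lit 51784) (.g (nat_lit 2287) (.e (nat_lit 1349) (nat_lit 102) (.e (nat_lit 286761) (nat_lit 13) (.e (nat_lit 393298) (nat_lit 27) (.e (nat_lit 491549) (nat_lit 9) (.e (nat_lit 336257) (nat_lit 15) (.e (nat_lit 7065) (nat_lit 377) .nil)))))) (.g (nat_lit 4) .nil .nil)))) (.nd (nat_lit 6) 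
(.lf (nat_lit 51752) (.g (nat_lit 549) (.e (nat_lit 1349) (nat_lit 102) (.e (nat_lit 286761) (nat_lit 13) (.e (nat_lit 393265) (nat_lit 22) .nil))) .nil)) 
(.lf (nat_lit 51816) (.g (nat_lit 2510) (.e (nat_lit 1349) (nat_lit 102) (.e (nat_lit 286761) (nat_lit 13) (.e (nat_lit 393300) (nat_lit 27) (.e (nat_lit 491556) (nat_lit 9) (.e (nat_lit 336237) (nat_lit 15) (.e (nat_lit 7064) (nat_lit 377) .nil)))))) (.g (nat_lit 4) .nil .nil))))) (.nd (nat_lit 5) (.nd (nat_lit 6) 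
(.lf (nat_lit 51736) (.g (nat_lit 3108) (.e (nat_lit 1349) (nat_lit 102) (.e (nat_lit 286761) (nat_lit 13) (.e (nat_lit 393251) (nat_lit 18) (.e (nat_lit 164179) (nat_lit 154) (.e (nat_lit 57346) (nat_lit 0) (.e (nat_lit 6712) (nat_lit 360) (.e (nat_lit 163976) (nat_lit 30) (.e (nat_lit 573503) (nat_lit 18) .nil)))))))) (.g (nat_lit 4) .nil .nil))) 
(.lf (nat_lit 51800) (.g (nat_lit 2906) (.e (nat_lit 1349) (nat_lit 102) (.e (nat_lit 286761) (nat_lit 13) (.e (nat_lit 393300) (nat_lit 27) (.e (nat_lit 491549) (nat_lit 9) (.e (nat_lit 336243) (nat_lit 15) .nil))))) .nil))) (.nd (nat_lit 6) 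
(.lf (nat_lit 51768) (.g (nat_lit 417) (.e (nat_lit 1349) (nat_lit 102) (.e (nat_lit 286761) (nat_lit 13) (.e (nat_lit 393293) (nat_lit 26) .nil))) .nil)) 
(.lf (nat_lit 51832) (.g (nat_lit 3139) (.e (nat_lit 1349) (nat_lit 102) (.e (nat_lit 286761) (nat_lit 13) (.e (nat_lit 393301) (nat_lit 27) (.e (nat_lit 491547) (nat_lit 9) (.e (nat_lit 336257) (nat_lit 15) .nil))))) .nil)))))) (.nd (nat_lit 3) (.nd (nat_lit 4) (.nd (nat_lit 5) (.nd (nat_lit 6) 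
(.lf (nat_lit 51716) (.g (nat_lit 1868) (.e (nat_lit 1349) (nat_lit 102) (.e (nat_lit 286761) (nat_lit 13) (.e (nat_lit 393234) (nat_lit 17) (.e (nat_lit 7589) (nat_lit 406) (.e (nat_lit 73472) (nat_lit 15) (.e (nat_lit 7065) (nat_lit 377) .nil)))))) (.g (nat_lit 4) .nil .nil))) 
(.lf (nat_lit 51780) (.g (nat_lit 2545) (.e (nat_lit 1349) (nat_lit 102) (.e (nat_lit 286761) (nat_lit 13) (.e (nat_lit 393296) (nat_lit 26) (.e (nat_lit 475216) (nat_lit 44) (.e (nat_lit 737284) (nat_lit 0) (.e (nat_lit 4965) (nat_lit 287) .nil)))))) (.g (nat_lit 4) .nil .nil)))) (.nd (nat_lit 6) 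
(.lf (nat_lit 51748) (.g (nat_lit 2768) (.e (nat_lit 1349) (nat_lit 102) (.e (nat_lit 286761) (nat_lit 13) (.e (nat_lit 393263) (nat_lit 22) (.e (nat_lit 417829) (nat_lit 18) (.e (nat_lit 303149) (nat_lit 15) (.e (nat_lit 6134) (nat_lit 332) .nil)))))) (.g (nat_lit 4) .nil .nil))) 
(.lf (nat_lit 51812) (.g (nat_lit 3908) (.e (nat_lit 1349) (nat_lit 102) (.e (nat_lit 286761) (nat_lit 13) (.e (nat_lit 393300) (nat_lit 27) (.e (nat_lit 491549) (nat_lit 9) (.e (nat_lit 336306) (nat_lit 15) (.e (nat_lit 7936) (nat_lit 377) .nil)))))) (.g (nat_lit 5) .nil .nil))))) (.nd (nat_lit 5) (.nd (nat_lit 6) 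
(.lf (nat_lit 51732) (.g (nat_lit 2378) (.e (nat_lit 1349) (nat_lit 102) (.e (nat_lit 286761) (nat_lit 13) (.e (nat_lit 393234) (nat_lit 17) (.e (nat_lit 7593) (nat_lit 407) (.e (nat_lit 73730) (nat_lit 0) (.e (nat_lit 6848) (nat_lit 371) (.e (nat_lit 61) (nat_lit 0) .nil))))))) (.g (nat_lit 4) .nil .nil))) 
(.lf (nat_lit 51796) (.g (nat_lit 3485) (.e (nat_lit 1349) (nat_lit 102) (.e (nat_lit 286761) (nat_lit 13) (.e (nat_lit 393300) (nat_lit 27) (.e (nat_lit 491547) (nat_lit 9) (.e (nat_lit 336257) (nat_lit 15) (.e (nat_lit 7065) (nat_lit 377) .nil)))))) (.g (nat_lit 5) .nil .nil)))) (.nd (nat_lit 6) 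
(.lf (nat_lit 51764) (.g (nat_lit 1565) (.e (nat_lit 1349) (nat_lit 102) (.e (nat_lit 286761) (nat_lit 13) (.e (nat_lit 393284) (nat_lit 24) (.e (nat_lit 434275) (nat_lit 39) .nil)))) .nil)) 
(.lf (nat_lit 51828) (.g (nat_lit 4231) (.e (nat_lit 1349) (nat_lit 102) (.e (nat_lit 286761) (nat_lit 13) (.e (nat_lit 393301) (nat_lit 27) (.e (nat_lit 491546) (nat_lit 9) (.e (nat_lit 336238) (nat_lit 15) (.e (nat_lit 7064) (nat_lit 377) .nil)))))) (.g (nat_lit 4) .nil .nil)))))) (.nd (nat_lit 4) (.nd (nat_lit 5) (.nd (nat_lit 6) 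
(.lf (nat_lit 51724) (.g (nat_lit 3165) (.e (nat_lit 1349) (nat_lit 102) (.e (nat_lit 286761) (nat_lit 13) (.e (nat_lit 393234) (nat_lit 17) (.e (nat_lit 7591) (nat_lit 407) (.e (nat_lit 73729) (nat_lit 0) (.e (nat_lit 6848) (nat_lit 371) (.e (nat_lit 71) (nat_lit 0) .nil))))))) (.g (nat_lit 5) .nil .nil))) 
(.lf (nat_lit 51788) (.g (nat_lit 2738) (.e (nat_lit 1349) (nat_lit 102) (.e (nat_lit 286761) (nat_lit 13) (.e (nat_lit 393298) (nat_lit 27) (.e (nat_lit 491565) (nat_lit 12) (.e (nat_lit 392960) (nat_lit 16) .nil))))) (.g (nat_lit 4) .nil .nil)))) (.nd (nat_lit 6) 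
(.lf (nat_lit 51756) (.g (nat_lit 2953) (.e (nat_lit 1349) (nat_lit 102) (.e (nat_lit 286761) (nat_lit 13) (.e (nat_lit 393265) (nat_lit 22) (.e (nat_lit 417820) (nat_lit 10) (.e (nat_lit 5373) (nat_lit 299) (.e (nat_lit 16128) (nat_lit 180) .nil)))))) (.g (nat_lit 5) .nil .nil))) 
(.lf (nat_lit 51820) (.g (nat_lit 3050) (.e (nat_lit 1349) (nat_lit 102) (.e (nat_lit 286761) (nat_lit 13) (.e (nat_lit 393300) (nat_lit 27) (.e (nat_lit 491562) (nat_lit 12) (.e (nat_lit 392960) (nat_lit 16) .nil))))) (.g (nat_lit 4) .nil .nil))))) (.nd (nat_lit 5) (.nd (nat_lit 6) 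
(.lf (nat_lit 51740) (.g (nat_lit 2948) (.e (nat_lit 1349) (nat_lit 102) (.e (nat_lit 286761) (nat_lit 13) (.e (nat_lit 393259) (nat_lit 21) (.e (nat_lit 409645) (nat_lit 18) (.e (nat_lit 303149) (nat_lit 15) (.e (nat_lit 6134) (nat_lit 332) .nil)))))) (.g (nat_lit 4) .nil .nil))) 
(.lf (nat_lit 51804) (.g (nat_lit 2906) (.e (nat_lit 1349) (nat_lit 102) (.e (nat_lit 286761) (nat_lit 13) (.e (nat_lit 393300) (nat_lit 27) (.e (nat_lit 491549) (nat_lit 9) (.e (nat_lit 336265) (nat_lit 15) .nil))))) .nil))) (.nd (nat_lit 6) 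
(.lf (nat_lit 51772) (.g (nat_lit 3362) (.e (nat_lit 1349) (nat_lit 102) (.e (nat_lit 286761) (nat_lit 13) (.e (nat_lit 393293) (nat_lit 26) (.e (nat_lit 475209) (nat_lit 41) (.e (nat_lit 712716) (nat_lit 15) (.e (nat_lit 7065) (nat_lit 377) .nil)))))) (.g (nat_lit 0) .nil .nil))) 
(.lf (nat_lit 51836) (.g (nat_lit 3520) (.e (nat_lit 1349) (nat_lit 102) (.e (nat_lit 286761) (nat_lit 13) (.e (nat_lit 393301) (nat_lit 27) (.e (nat_lit 491555) (nat_lit 9) .nil)))) .nil))))))) (.nd (nat_lit 2) (.nd (nat_lit 3) (.nd (nat_lit 4) (.nd (nat_lit 5) (.nd (nat_lit 6) 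
(.lf (nat_lit 51714) (.g (nat_lit 1806) (.e (nat_lit 1349) (nat_lit 102) (.e (nat_lit 286761) (nat_lit 13) (.e (nat_lit 393234) (nat_lit 17) (.e (nat_lit 7589) (nat_lit 406) (.e (nat_lit 65640) (nat_lit 15) (.e (nat_lit 7936) (nat_lit 377) .nil)))))) (.g (nat_lit 4) .nil .nil))) 
(.lf (nat_lit 51778) (.g (nat_lit 2358) (.e (nat_lit 1349) (nat_lit 102) (.e (nat_lit 286761) (nat_lit 13) (.e (nat_lit 393293) (nat_lit 26) (.e (nat_lit 475219) (nat_lit 44) (.e (nat_lit 737281) (nat_lit 0) (.e (nat_lit 4961) (nat_lit 287) .nil)))))) (.g (nat_lit 5) .nil .nil)))) (.nd (nat_lit 6) 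
(.lf (nat_lit 51746) (.g (nat_lit 1581) (.e (nat_lit 1349) (nat_lit 102) (.e (nat_lit 286761) (nat_lit 13) (.e (nat_lit 393260) (nat_lit 21) (.e (nat_lit 417536) (nat_lit 18) .nil)))) .nil)) 
(.lf (nat_lit 51810) (.g (nat_lit 2906) (.e (nat_lit 1349) (nat_lit 102) (.e (nat_lit 286761) (nat_lit 13) (.e (nat_lit 393300) (nat_lit 27) (.e (nat_lit 491549) (nat_lit 9) (.e (nat_lit 336301) (nat_lit 15) .nil))))) .nil)))) (.nd (nat_lit 5) (.nd (nat_lit 6) 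
(.lf (nat_lit 51730) (.g (nat_lit 2899) (.e (nat_lit 1349) (nat_lit 102) (.e (nat_lit 286761) (nat_lit 13) (.e (nat_lit 393234) (nat_lit 17) (.e (nat_lit 7593) (nat_lit 407) (.e (nat_lit 73729) (nat_lit 0) (.e (nat_lit 6848) (nat_lit 371) (.e (nat_lit 61) (nat_lit 0) .nil))))))) (.g (nat_lit 5) .nil .nil))) 
(.lf (nat_lit 51794) (.g (nat_lit 3422) (.e (nat_lit 1349) (nat_lit 102) (.e (nat_lit 286761) (nat_lit 13) (.e (nat_lit 393300) (nat_lit 27) (.e (nat_lit 491547) (nat_lit 9) (.e (nat_lit 336238) (nat_lit 15) (.e (nat_lit 7064) (nat_lit 377) .nil)))))) (.g (nat_lit 0) .nil .nil)))) (.nd (nat_lit 6) 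
(.lf (nat_lit 51762) (.g (nat_lit 700) (.e (nat_lit 1349) (nat_lit 102) (.e (nat_lit 286761) (nat_lit 13) (.e (nat_lit 393275) (nat_lit 23) .nil))) .nil)) 
(.lf (nat_lit 51826) (.g (nat_lit 4240) (.e (nat_lit 1349) (nat_lit 102) (.e (nat_lit 286761) (nat_lit 13) (.e (nat_lit 393301) (nat_lit 27) (.e (nat_lit 491532) (nat_lit 1) .nil)))) .nil))))) (.nd (nat_lit 4) (.nd (nat_lit 5) (.nd (nat_lit 6) 
(.lf (nat_lit 51722) (.g (nat_lit 2352) (.e (nat_lit 1349) (nat_lit 102) (.e (nat_lit 286761) (nat_lit 13) (.e (nat_lit 393234) (nat_lit 17) (.e (nat_lit 7591) (nat_lit 407) (.e (nat_lit 73729) (nat_lit 0) (.e (nat_lit 6848) (nat_lit 371) (.e (nat_lit 12) (nat_lit 0) .nil))))))) (.g (nat_lit 4) .nil .nil))) 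
(.lf (nat_lit 51786) (.g (nat_lit 3099) (.e (nat_lit 1349) (nat_lit 102) (.e (nat_lit 286761) (nat_lit 13) (.e (nat_lit 393298) (nat_lit 27) (.e (nat_lit 491550) (nat_lit 9) (.e (nat_lit 336238) (nat_lit 15) (.e (nat_lit 7064) (nat_lit 377) .nil)))))) (.g (nat_lit 5) .nil .nil)))) (.nd (nat_lit 6) 
(.lf (nat_lit 51754) (.g (nat_lit 2553) (.e (nat_lit 1349) (nat_lit 102) (.e (nat_lit 286761) (nat_lit 13) (.e (nat_lit 393265) (nat_lit 22) (.e (nat_lit 417817) (nat_lit 10) (.e (nat_lit 5742) (nat_lit 313) (.e (nat_lit 16128) (nat_lit 225) .nil)))))) (.g (nat_lit 4) .nil .nil))) 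
(.lf (nat_lit 51818) (.g (nat_lit 2236) (.e (nat_lit 1349) (nat_lit 102) (.e (nat_lit 286761) (nat_lit 13) (.e (nat_lit 393300) (nat_lit 27) (.e (nat_lit 491556) (nat_lit 9) (.e (nat_lit 336307) (nat_lit 15) .nil))))) .nil)))) (.nd (nat_lit 5) (.nd (nat_lit 6) 
(.lf (nat_lit 51738) (.g (nat_lit 4039) (.e (nat_lit 1349) (nat_lit 102) (.e (nat_lit 286761) (nat_lit 13) (.e (nat_lit 393251) (nat_lit 18) (.e (nat_lit 164179) (nat_lit 154) (.e (nat_lit 57346) (nat_lit 0) (.e (nat_lit 6714) (nat_lit 360) (.e (nat_lit 163975) (nat_lit 30) (.e (nat_lit 573503) (nat_lit 18) .nil)))))))) (.g (nat_lit 4) .nil .nil))) 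
(.lf (nat_lit 51802) (.g (nat_lit 3151) (.e (nat_lit 1349) (nat_lit 102) (.e (nat_lit 286761) (nat_lit 13) (.e (nat_lit 393300) (nat_lit 27) (.e (nat_lit 491549) (nat_lit 9) (.e (nat_lit 336258) (nat_lit 15) (.e (nat_lit 7936) (nat_lit 377) .nil)))))) (.g (nat_lit 4) .nil .nil)))) (.nd (nat_lit 6) 
(.lf (nat_lit 51770) (.g (nat_lit 2761) (.e (nat_lit 1349) (nat_lit 102) (.e (nat_lit 286761) (nat_lit 13) (.e (nat_lit 393293) (nat_lit 26) (.e (nat_lit 475198) (nat_lit 40) (.e (nat_lit 704846) (nat_lit 15) (.e (nat_lit 57803) (nat_lit 245) .nil)))))) (.g (nat_lit 4) .nil .nil))) 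
(.lf (nat_lit 51834) (.g (nat_lit 2116) (.e (nat_lit 1349) (nat_lit 102) (.e (nat_lit 286761) (nat_lit 13) (.e (nat_lit 393301) (nat_lit 27) (.e (nat_lit 491552) (nat_lit 9) (.e (nat_lit 336282) (nat_lit 15) (.e (nat_lit 7936) (nat_lit 377) .nil)))))) (.g (nat_lit 5) .nil .nil))))))) (.nd (nat_lit 3) (.nd (nat_lit 4) (.nd (nat_lit 5) (.nd (nat_lit 6) 
(.lf (nat_lit 51718) (.g (nat_lit 1846) (.e (nat_lit 1349) (nat_lit 102) (.e (nat_lit 286761) (nat_lit 13) (.e (nat_lit 393234) (nat_lit 17) (.e (nat_lit 7936) (nat_lit 406) .nil)))) .nil)) 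
(.lf (nat_lit 51782) (.g (nat_lit 2521) (.e (nat_lit 1349) (nat_lit 102) (.e (nat_lit 286761) (nat_lit 13) (.e (nat_lit 393298) (nat_lit 27) (.e (nat_lit 491548) (nat_lit 9) (.e (nat_lit 336242) (nat_lit 15) .nil))))) .nil))) (.nd (nat_lit 6) 
(.lf (nat_lit 51750) (.g (nat_lit 2098) (.e (nat_lit 1349) (nat_lit 102) (.e (nat_lit 286761) (nat_lit 13) (.e (nat_lit 393264) (nat_lit 22) (.e (nat_lit 417816) (nat_lit 10) (.e (nat_lit 5742) (nat_lit 313) (.e (nat_lit 16128) (nat_lit 225) .nil)))))) (.g (nat_lit 5) .nil .nil))) 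
(.lf (nat_lit 51814) (.g (nat_lit 1498) (.e (nat_lit 1349) (nat_lit 102) (.e (nat_lit 286761) (nat_lit 13) (.e (nat_lit 393300) (nat_lit 27) (.e (nat_lit 491552) (nat_lit 9) .nil)))) .nil)))) (.nd (nat_lit 5) (.nd (nat_lit 6) 
(.lf (nat_lit 51734) (.g (nat_lit 2151) (.e (nat_lit 1349) (nat_lit 102) (.e (nat_lit 286761) (nat_lit 13) (.e (nat_lit 393234) (nat_lit 17) (.e (nat_lit 7601) (nat_lit 409) .nil)))) .nil)) 
(.lf (nat_lit 51798) (.g (nat_lit 3826) (.e (nat_lit 1349) (nat_lit 102) (.e (nat_lit 286761) (nat_lit 13) (.e (nat_lit 393300) (nat_lit 27) (.e (nat_lit 491549) (nat_lit 9) (.e (nat_lit 336238) (nat_lit 15) (.e (nat_lit 7064) (nat_lit 377) .nil)))))) (.g (nat_lit 0) .nil .nil)))) (.nd (nat_lit 6) 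
(.lf (nat_lit 51766) (.g (nat_lit 1538) (.e (nat_lit 1349) (nat_lit 102) (.e (nat_lit 286761) (nat_lit 13) (.e (nat_lit 393291) (nat_lit 26) (.e (nat_lit 475219) (nat_lit 44) .nil)))) .nil)) 
(.lf (nat_lit 51830) (.g (nat_lit 2223) (.e (nat_lit 1349) (nat_lit 102) (.e (nat_lit 286761) (nat_lit 13) (.e (nat_lit 393301) (nat_lit 27) (.e (nat_lit 491547) (nat_lit 9) .nil)))) .nil))))) (.nd (nat_lit 4) (.nd (nat_lit 5) (.nd (nat_lit 6) 
(.lf (nat_lit 51726) (.g (nat_lit 2150) (.e (nat_lit 1349) (nat_lit 102) (.e (nat_lit 286761) (nat_lit 13) (.e (nat_lit 393234) (nat_lit 17) (.e (nat_lit 7591) (nat_lit 407) (.e (nat_lit 73730) (nat_lit 0) (.e (nat_lit 6848) (nat_lit 371) (.e (nat_lit 12) (nat_lit 0) .nil))))))) (.g (nat_lit 4) .nil .nil))) 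
(.lf (nat_lit 51790) (.g (nat_lit 3455) (.e (nat_lit 1349) (nat_lit 102) (.e (nat_lit 286761) (nat_lit 13) (.e (nat_lit 393299) (nat_lit 27) (.e (nat_lit 491563) (nat_lit 12) (.e (nat_lit 392960) (nat_lit 16) .nil))))) (.g (nat_lit 4) .nil .nil)))) (.nd (nat_lit 6) 
(.lf (nat_lit 51758) (.g (nat_lit 2799) (.e (nat_lit 1349) (nat_lit 102) (.e (nat_lit 286761) (nat_lit 13) (.e (nat_lit 393265) (nat_lit 22) (.e (nat_lit 417828) (nat_lit 18) (.e (nat_lit 303149) (nat_lit 15) (.e (nat_lit 6134) (nat_lit 332) .nil)))))) (.g (nat_lit 4) .nil .nil))) 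
(.lf (nat_lit 51822) (.g (nat_lit 2840) (.e (nat_lit 1349) (nat_lit 102) (.e (nat_lit 286761) (nat_lit 13) (.e (nat_lit 393300) (nat_lit 27) (.e (nat_lit 491564) (nat_lit 12) (.e (nat_lit 392960) (nat_lit 16) .nil))))) (.g (nat_lit 4) .nil .nil))))) (.nd (nat_lit 5) (.nd (nat_lit 6) 
(.lf (nat_lit 51742) (.g (nat_lit 485) (.e (nat_lit 1349) (nat_lit 102) (.e (nat_lit 286761) (nat_lit 13) (.e (nat_lit 393260) (nat_lit 21) .nil))) .nil)) 
(.lf (nat_lit 51806) (.g (nat_lit 2906) (.e (nat_lit 1349) (nat_lit 102) (.e (nat_lit 286761) (nat_lit 13) (.e (nat_lit 393300) (nat_lit 27) (.e (nat_lit 491549) (nat_lit 9) (.e (nat_lit 336270) (nat_lit 15) .nil))))) .nil))) (.nd (nat_lit 6) 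
(.lf (nat_lit 51774) (.g (nat_lit 2000) (.e (nat_lit 1349) (nat_lit 102) (.e (nat_lit 286761) (nat_lit 13) (.e (nat_lit 393293) (nat_lit 26) (.e (nat_lit 475218) (nat_lit 44) (.e (nat_lit 737281) (nat_lit 0) (.e (nat_lit 4961) (nat_lit 287) .nil)))))) (.g (nat_lit 4) .nil .nil))) 
(.lf (nat_lit 51838) (.g (nat_lit 2680) (.e (nat_lit 1349) (nat_lit 102) (.e (nat_lit 286761) (nat_lit 13) (.e (nat_lit 393301) (nat_lit 27) (.e (nat_lit 499456) (nat_lit 9) .nil)))) .nil)))))))) (.nd (nat_lit 1) (.nd (nat_lit 2) (.nd (nat_lit 3) (.nd (nat_lit 4) (.nd (nat_lit 5) (.nd (nat_lit 6) 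
(.lf (nat_lit 51713) (.g (nat_lit 1895) (.e (nat_lit 1349) (nat_lit 102) (.e (nat_lit 286761) (nat_lit 13) (.e (nat_lit 393234) (nat_lit 17) (.e (nat_lit 7589) (nat_lit 406) (.e (nat_lit 65639) (nat_lit 15) (.e (nat_lit 7936) (nat_lit 377) .nil)))))) (.g (nat_lit 4) .nil .nil))) 
(.lf (nat_lit 51777) (.g (nat_lit 1035) (.e (nat_lit 1349) (nat_lit 102) (.e (nat_lit 286761) (nat_lit 13) (.e (nat_lit 393293) (nat_lit 26) (.e (nat_lit 475219) (nat_lit 44) .nil)))) .nil))) (.nd (nat_lit 6) 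
(.lf (nat_lit 51745) (.g (nat_lit 3027) (.e (nat_lit 1349) (nat_lit 102) (.e (nat_lit 286761) (nat_lit 13) (.e (nat_lit 393260) (nat_lit 21) (.e (nat_lit 409649) (nat_lit 18) (.e (nat_lit 303149) (nat_lit 15) (.e (nat_lit 6134) (nat_lit 332) .nil)))))) (.g (nat_lit 4) .nil .nil))) 
(.lf (nat_lit 51809) (.g (nat_lit 2906) (.e (nat_lit 1349) (nat_lit 102) (.e (nat_lit 286761) (nat_lit 13) (.e (nat_lit 393300) (nat_lit 27) (.e (nat_lit 491549) (nat_lit 9) (.e (nat_lit 336286) (nat_lit 15) .nil))))) .nil)))) (.nd (nat_lit 5) (.nd (nat_lit 6) 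
(.lf (nat_lit 51729) (.g (nat_lit 2195) (.e (nat_lit 1349) (nat_lit 102) (.e (nat_lit 286761) (nat_lit 13) (.e (nat_lit 393234) (nat_lit 17) (.e (nat_lit 7593) (nat_lit 407) (.e (nat_lit 73729) (nat_lit 0) (.e (nat_lit 6848) (nat_lit 371) (.e (nat_lit 12) (nat_lit 0) .nil))))))) (.g (nat_lit 4) .nil .nil))) 
(.lf (nat_lit 51793) (.g (nat_lit 2637) (.e (nat_lit 1349) (nat_lit 102) (.e (nat_lit 286761) (nat_lit 13) (.e (nat_lit 393300) (nat_lit 27) (.e (nat_lit 491546) (nat_lit 9) (.e (nat_lit 336238) (nat_lit 15) (.e (nat_lit 7064) (nat_lit 377) .nil)))))) (.g (nat_lit 4) .nil .nil)))) (.nd (nat_lit 6) 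
(.lf (nat_lit 51761) (.g (nat_lit 2405) (.e (nat_lit 1349) (nat_lit 102) (.e (nat_lit 286761) (nat_lit 13) (.e (nat_lit 393270) (nat_lit 23) (.e (nat_lit 426402) (nat_lit 15) (.e (nat_lit 2222) (nat_lit 146) (.e (nat_lit 737284) (nat_lit 0) (.e (nat_lit 4965) (nat_lit 287) .nil))))))) (.g (nat_lit 4) .nil .nil))) 
(.lf (nat_lit 51825) (.g (nat_lit 3367) (.e (nat_lit 1349) (nat_lit 102) (.e (nat_lit 286761) (nat_lit 13) (.e (nat_lit 393301) (nat_lit 27) (.e (nat_lit 491526) (nat_lit 0) .nil)))) .nil))))) (.nd (nat_lit 4) (.nd (nat_lit 5) (.nd (nat_lit 6) 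
(.lf (nat_lit 51721) (.g (nat_lit 1460) (.e (nat_lit 1349) (nat_lit 102) (.e (nat_lit 286761) (nat_lit 13) (.e (nat_lit 393234) (nat_lit 17) (.e (nat_lit 7591) (nat_lit 407) (.e (nat_lit 73729) (nat_lit 0) .nil))))) .nil)) 
(.lf (nat_lit 51785) (.g (nat_lit 2039) (.e (nat_lit 1349) (nat_lit 102) (.e (nat_lit 286761) (nat_lit 13) (.e (nat_lit 393298) (nat_lit 27) (.e (nat_lit 491549) (nat_lit 9) (.e (nat_lit 336284) (nat_lit 15) .nil))))) .nil))) (.nd (nat_lit 6) 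
(.lf (nat_lit 51753) (.g (nat_lit 1692) (.e (nat_lit 1349) (nat_lit 102) (.e (nat_lit 286761) (nat_lit 13) (.e (nat_lit 393265) (nat_lit 22) (.e (nat_lit 417804) (nat_lit 1) (.e (nat_lit 8467) (nat_lit 148) .nil))))) .nil)) 
(.lf (nat_lit 51817) (.g (nat_lit 2434) (.e (nat_lit 1349) (nat_lit 102) (.e (nat_lit 286761) (nat_lit 13) (.e (nat_lit 393300) (nat_lit 27) (.e (nat_lit 491556) (nat_lit 9) (.e (nat_lit 336300) (nat_lit 15) (.e (nat_lit 7936) (nat_lit 377) .nil)))))) (.g (nat_lit 4) .nil .nil))))) (.nd (nat_lit 5) (.nd (nat_lit 6) 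
(.lf (nat_lit 51737) (.g (nat_lit 4201) (.e (nat_lit 1349) (nat_lit 102) (.e (nat_lit 286761) (nat_lit 13) (.e (nat_lit 393251) (nat_lit 18) (.e (nat_lit 164179) (nat_lit 154) (.e (nat_lit 57346) (nat_lit 0) (.e (nat_lit 6712) (nat_lit 360) (.e (nat_lit 163979) (nat_lit 30) (.e (nat_lit 573503) (nat_lit 18) .nil)))))))) (.g (nat_lit 5) .nil .nil))) 
(.lf (nat_lit 51801) (.g (nat_lit 3020) (.e (nat_lit 1349) (nat_lit 102) (.e (nat_lit 286761) (nat_lit 13) (.e (nat_lit 393300) (nat_lit 27) (.e (nat_lit 491549) (nat_lit 9) (.e (nat_lit 336247) (nat_lit 15) (.e (nat_lit 7936) (nat_lit 377) .nil)))))) (.g (nat_lit 4) .nil .nil)))) (.nd (nat_lit 6) 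
(.lf (nat_lit 51769) (.g (nat_lit 1175) (.e (nat_lit 1349) (nat_lit 102) (.e (nat_lit 286761) (nat_lit 13) (.e (nat_lit 393293) (nat_lit 26) (.e (nat_lit 475192) (nat_lit 37) .nil)))) .nil)) 
(.lf (nat_lit 51833) (.g (nat_lit 3446) (.e (nat_lit 1349) (nat_lit 102) (.e (nat_lit 286761) (nat_lit 13) (.e (nat_lit 393301) (nat_lit 27) (.e (nat_lit 491551) (nat_lit 9) .nil)))) .nil)))))) (.nd (nat_lit 3) (.nd (nat_lit 4) (.nd (nat_lit 5) (.nd (nat_lit 6) 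
(.lf (nat_lit 51717) (.g (nat_lit 1452) (.e (nat_lit 1349) (nat_lit 102) (.e (nat_lit 286761) (nat_lit 13) (.e (nat_lit 393234) (nat_lit 17) (.e (nat_lit 7589) (nat_lit 406) (.e (nat_lit 73472) (nat_lit 15) (.e (nat_lit 7936) (nat_lit 377) .nil)))))) (.g (nat_lit 4) .nil .nil))) 
(.lf (nat_lit 51781) (.g (nat_lit 2231) (.e (nat_lit 1349) (nat_lit 102) (.e (nat_lit 286761) (nat_lit 13) (.e (nat_lit 393297) (nat_lit 27) (.e (nat_lit 491566) (nat_lit 12) (.e (nat_lit 392960) (nat_lit 16) .nil))))) (.g (nat_lit 4) .nil .nil)))) (.nd (nat_lit 6) 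
(.lf (nat_lit 51749) (.g (nat_lit 2078) (.e (nat_lit 1349) (nat_lit 102) (.e (nat_lit 286761) (nat_lit 13) (.e (nat_lit 393264) (nat_lit 22) (.e (nat_lit 417814) (nat_lit 10) (.e (nat_lit 5742) (nat_lit 313) (.e (nat_lit 16128) (nat_lit 225) .nil)))))) (.g (nat_lit 5) .nil .nil))) 
(.lf (nat_lit 51813) (.g (nat_lit 2906) (.e (nat_lit 1349) (nat_lit 102) (.e (nat_lit 286761) (nat_lit 13) (.e (nat_lit 393300) (nat_lit 27) (.e (nat_lit 491549) (nat_lit 9) (.e (nat_lit 336308) (nat_lit 15) .nil))))) .nil)))) (.nd (nat_lit 5) (.nd (nat_lit 6) 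
(.lf (nat_lit 51733) (.g (nat_lit 2487) (.e (nat_lit 1349) (nat_lit 102) (.e (nat_lit 286761) (nat_lit 13) (.e (nat_lit 393234) (nat_lit 17) (.e (nat_lit 7593) (nat_lit 407) (.e (nat_lit 73730) (nat_lit 0) (.e (nat_lit 6848) (nat_lit 371) (.e (nat_lit 71) (nat_lit 0) .nil))))))) (.g (nat_lit 4) .nil .nil))) 
(.lf (nat_lit 51797) (.g (nat_lit 2371) (.e (nat_lit 1349) (nat_lit 102) (.e (nat_lit 286761) (nat_lit 13) (.e (nat_lit 393300) (nat_lit 27) (.e (nat_lit 491547) (nat_lit 9) (.e (nat_lit 336258) (nat_lit 15) (.e (nat_lit 7936) (nat_lit 377) .nil)))))) (.g (nat_lit 4) .nil .nil)))) (.nd (nat_lit 6) 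
(.lf (nat_lit 51765) (.g (nat_lit 3343) (.e (nat_lit 1349) (nat_lit 102) (.e (nat_lit 286761) (nat_lit 13) (.e (nat_lit 393284) (nat_lit 24) (.e (nat_lit 434276) (nat_lit 39) (.e (nat_lit 663565) (nat_lit 3) (.e (nat_lit 65280) (nat_lit 176) .nil)))))) (.g (nat_lit 5) .nil .nil))) 
(.lf (nat_lit 51829) (.g (nat_lit 4956) (.e (nat_lit 1349) (nat_lit 102) (.e (nat_lit 286761) (nat_lit 13) (.e (nat_lit 393301) (nat_lit 27) (.e (nat_lit 491546) (nat_lit 9) (.e (nat_lit 336242) (nat_lit 15) (.e (nat_lit 7064) (nat_lit 377) .nil)))))) (.g (nat_lit 0) .nil .nil)))))) (.nd (nat_lit 4) (.nd (nat_lit 5) (.nd (nat_lit 6) 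
(.lf (nat_lit 51725) (.g (nat_lit 2246) (.e (nat_lit 1349) (nat_lit 102) (.e (nat_lit 286761) (nat_lit 13) (.e (nat_lit 393234) (nat_lit 17) (.e (nat_lit 7591) (nat_lit 407) (.e (nat_lit 73729) (nat_lit 0) (.e (nat_lit 6869) (nat_lit 371) (.e (nat_lit 59) (nat_lit 0) .nil))))))) (.g (nat_lit 4) .nil .nil))) 
(.lf (nat_lit 51789) (.g (nat_lit 3448) (.e (nat_lit 1349) (nat_lit 102) (.e (nat_lit 286761) (nat_lit 13) (.e (nat_lit 393298) (nat_lit 27) (.e (nat_lit 491566) (nat_lit 12) (.e (nat_lit 392960) (nat_lit 16) .nil))))) (.g (nat_lit 4) .nil .nil)))) (.nd (nat_lit 6) 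
(.lf (nat_lit 51757) (.g (nat_lit 3145) (.e (nat_lit 1349) (nat_lit 102) (.e (nat_lit 286761) (nat_lit 13) (.e (nat_lit 393265) (nat_lit 22) (.e (nat_lit 417820) (nat_lit 10) (.e (nat_lit 5740) (nat_lit 313) (.e (nat_lit 16128) (nat_lit 225) .nil)))))) (.g (nat_lit 5) .nil .nil))) 
(.lf (nat_lit 51821) (.g (nat_lit 2936) (.e (nat_lit 1349) (nat_lit 102) (.e (nat_lit 286761) (nat_lit 13) (.e (nat_lit 393300) (nat_lit 27) (.e (nat_lit 491563) (nat_lit 12) (.e (nat_lit 392960) (nat_lit 16) .nil))))) (.g (nat_lit 4) .nil .nil))))) (.nd (nat_lit 5) (.nd (nat_lit 6) 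
(.lf (nat_lit 51741) (.g (nat_lit 2723) (.e (nat_lit 1349) (nat_lit 102) (.e (nat_lit 286761) (nat_lit 13) (.e (nat_lit 393259) (nat_lit 21) (.e (nat_lit 409646) (nat_lit 18) (.e (nat_lit 303149) (nat_lit 15) (.e (nat_lit 6134) (nat_lit 332) .nil)))))) (.g (nat_lit 4) .nil .nil))) 
(.lf (nat_lit 51805) (.g (nat_lit 2906) (.e (nat_lit 1349) (nat_lit 102) (.e (nat_lit 286761) (nat_lit 13) (.e (nat_lit 393300) (nat_lit 27) (.e (nat_lit 491549) (nat_lit 9) (.e (nat_lit 336269) (nat_lit 15) .nil))))) .nil))) (.nd (nat_lit 6) 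
(.lf (nat_lit 51773) (.g (nat_lit 2114) (.e (nat_lit 1349) (nat_lit 102) (.e (nat_lit 286761) (nat_lit 13) (.e (nat_lit 393293) (nat_lit 26) (.e (nat_lit 475217) (nat_lit 44) (.e (nat_lit 737290) (nat_lit 0) (.e (nat_lit 4961) (nat_lit 287) .nil)))))) (.g (nat_lit 5) .nil .nil))) 
(.lf (nat_lit 51837) (.g (nat_lit 2833) (.e (nat_lit 1349) (nat_lit 102) (.e (nat_lit 286761) (nat_lit 13) (.e (nat_lit 393301) (nat_lit 27) (.e (nat_lit 491556) (nat_lit 9) (.e (nat_lit 343808) (nat_lit 15) .nil))))) .nil))))))) (.nd (nat_lit 2) (.nd (nat_lit 3) (.nd (nat_lit 4) (.nd (nat_lit 5) (.nd (nat_lit 6) 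
(.lf (nat_lit 51715) (.g (nat_lit 2322) (.e (nat_lit 1349) (nat_lit 102) (.e (nat_lit 286761) (nat_lit 13) (.e (nat_lit 393234) (nat_lit 17) (.e (nat_lit 7589) (nat_lit 406) (.e (nat_lit 65642) (nat_lit 15) (.e (nat_lit 7936) (nat_lit 377) .nil)))))) (.g (nat_lit 5) .nil .nil))) 
(.lf (nat_lit 51779) (.g (nat_lit 2800) (.e (nat_lit 1349) (nat_lit 102) (.e (nat_lit 286761) (nat_lit 13) (.e (nat_lit 393296) (nat_lit 26) (.e (nat_lit 475216) (nat_lit 44) (.e (nat_lit 737283) (nat_lit 0) (.e (nat_lit 4965) (nat_lit 287) .nil)))))) (.g (nat_lit 6) .nil .nil)))) (.nd (nat_lit 6) 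
(.lf (nat_lit 51747) (.g (nat_lit 669) (.e (nat_lit 1349) (nat_lit 102) (.e (nat_lit 286761) (nat_lit 13) (.e (nat_lit 393262) (nat_lit 22) .nil))) .nil)) 
(.lf (nat_lit 51811) (.g (nat_lit 2906) (.e (nat_lit 1349) (nat_lit 102) (.e (nat_lit 286761) (nat_lit 13) (.e (nat_lit 393300) (nat_lit 27) (.e (nat_lit 491549) (nat_lit 9) (.e (nat_lit 336302) (nat_lit 15) .nil))))) .nil)))) (.nd (nat_lit 5) (.nd (nat_lit 6) 
(.lf (nat_lit 51731) (.g (nat_lit 3008) (.e (nat_lit 1349) (nat_lit 102) (.e (nat_lit 286761) (nat_lit 13) (.e (nat_lit 393234) (nat_lit 17) (.e (nat_lit 7593) (nat_lit 407) (.e (nat_lit 73729) (nat_lit 0) (.e (nat_lit 6848) (nat_lit 371) (.e (nat_lit 71) (nat_lit 0) .nil))))))) (.g (nat_lit 5) .nil .nil))) 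
(.lf (nat_lit 51795) (.g (nat_lit 2501) (.e (nat_lit 1349) (nat_lit 102) (.e (nat_lit 286761) (nat_lit 13) (.e (nat_lit 393300) (nat_lit 27) (.e (nat_lit 491547) (nat_lit 9) (.e (nat_lit 336247) (nat_lit 15) (.e (nat_lit 7936) (nat_lit 377) .nil)))))) (.g (nat_lit 4) .nil .nil)))) (.nd (nat_lit 6) 
(.lf (nat_lit 51763) (.g (nat_lit 792) (.e (nat_lit 1349) (nat_lit 102) (.e (nat_lit 286761) (nat_lit 13) (.e (nat_lit 393284) (nat_lit 24) .nil))) .nil)) 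
(.lf (nat_lit 51827) (.g (nat_lit 2526) (.e (nat_lit 1349) (nat_lit 102) (.e (nat_lit 286761) (nat_lit 13) (.e (nat_lit 393301) (nat_lit 27) (.e (nat_lit 491546) (nat_lit 9) .nil)))) .nil))))) (.nd (nat_lit 4) (.nd (nat_lit 5) (.nd (nat_lit 6) 
(.lf (nat_lit 51723) (.g (nat_lit 3056) (.e (nat_lit 1349) (nat_lit 102) (.e (nat_lit 286761) (nat_lit 13) (.e (nat_lit 393234) (nat_lit 17) (.e (nat_lit 7591) (nat_lit 407) (.e (nat_lit 73729) (nat_lit 0) (.e (nat_lit 6848) (nat_lit 371) (.e (nat_lit 61) (nat_lit 0) .nil))))))) (.g (nat_lit 5) .nil .nil))) 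
(.lf (nat_lit 51787) (.g (nat_lit 2820) (.e (nat_lit 1349) (nat_lit 102) (.e (nat_lit 286761) (nat_lit 13) (.e (nat_lit 393298) (nat_lit 27) (.e (nat_lit 491562) (nat_lit 12) (.e (nat_lit 392960) (nat_lit 16) .nil))))) (.g (nat_lit 4) .nil .nil)))) (.nd (nat_lit 6) 
(.lf (nat_lit 51755) (.g (nat_lit 1349) (.e (nat_lit 1349) (nat_lit 102) (.e (nat_lit 286761) (nat_lit 13) (.e (nat_lit 393265) (nat_lit 22) (.e (nat_lit 417820) (nat_lit 10) .nil)))) .nil)) 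
(.lf (nat_lit 51819) (.g (nat_lit 2431) (.e (nat_lit 1349) (nat_lit 102) (.e (nat_lit 286761) (nat_lit 13) (.e (nat_lit 393300) (nat_lit 27) (.e (nat_lit 491556) (nat_lit 9) (.e (nat_lit 343808) (nat_lit 15) (.e (nat_lit 7065) (nat_lit 377) .nil)))))) (.g (nat_lit 4) .nil .nil))))) (.nd (nat_lit 5) (.nd (nat_lit 6) 
(.lf (nat_lit 51739) (.g (nat_lit 2650) (.e (nat_lit 1349) (nat_lit 102) (.e (nat_lit 286761) (nat_lit 13) (.e (nat_lit 393251) (nat_lit 18) (.e (nat_lit 164179) (nat_lit 154) (.e (nat_lit 57432) (nat_lit 16) .nil))))) .nil)) 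
(.lf (nat_lit 51803) (.g (nat_lit 3021) (.e (nat_lit 1349) (nat_lit 102) (.e (nat_lit 286761) (nat_lit 13) (.e (nat_lit 393300) (nat_lit 27) (.e (nat_lit 491549) (nat_lit 9) (.e (nat_lit 336260) (nat_lit 15) (.e (nat_lit 7936) (nat_lit 377) .nil)))))) (.g (nat_lit 4) .nil .nil)))) (.nd (nat_lit 6) 
(.lf (nat_lit 51771) (.g (nat_lit 2108) (.e (nat_lit 1349) (nat_lit 102) (.e (nat_lit 286761) (nat_lit 13) (.e (nat_lit 393293) (nat_lit 26) (.e (nat_lit 475208) (nat_lit 41) (.e (nat_lit 712719) (nat_lit 15) (.e (nat_lit 7936) (nat_lit 377) .nil)))))) (.g (nat_lit 5) .nil .nil))) 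
(.lf (nat_lit 51835) (.g (nat_lit 3512) (.e (nat_lit 1349) (nat_lit 102) (.e (nat_lit 286761) (nat_lit 13) (.e (nat_lit 393301) (nat_lit 27) (.e (nat_lit 491553) (nat_lit 9) .nil)))) .nil)))))) (.nd (nat_lit 3) (.nd (nat_lit 4) (.nd (nat_lit 5) (.nd (nat_lit 6) 
(.lf (nat_lit 51719) (.g (nat_lit 791) (.e (nat_lit 1349) (nat_lit 102) (.e (nat_lit 286761) (nat_lit 13) (.e (nat_lit 393234) (nat_lit 17) (.e (nat_lit 7591) (nat_lit 407) .nil)))) .nil)) 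
(.lf (nat_lit 51783) (.g (nat_lit 2558) (.e (nat_lit 1349) (nat_lit 102) (.e (nat_lit 286761) (nat_lit 13) (.e (nat_lit 393298) (nat_lit 27) (.e (nat_lit 491549) (nat_lit 9) (.e (nat_lit 336238) (nat_lit 15) (.e (nat_lit 7064) (nat_lit 377) .nil)))))) (.g (nat_lit 4) .nil .nil)))) (.nd (nat_lit 6) 
(.lf (nat_lit 51751) (.g (nat_lit 2295) (.e (nat_lit 1349) (nat_lit 102) (.e (nat_lit 286761) (nat_lit 13) (.e (nat_lit 393264) (nat_lit 22) (.e (nat_lit 417817) (nat_lit 10) (.e (nat_lit 5742) (nat_lit 313) (.e (nat_lit 16128) (nat_lit 225) .nil)))))) (.g (nat_lit 5) .nil .nil))) 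
(.lf (nat_lit 51815) (.g (nat_lit 1682) (.e (nat_lit 1349) (nat_lit 102) (.e (nat_lit 286761) (nat_lit 13) (.e (nat_lit 393300) (nat_lit 27) (.e (nat_lit 491554) (nat_lit 9) .nil)))) .nil)))) (.nd (nat_lit 5) (.nd (nat_lit 6) 
(.lf (nat_lit 51735) (.g (nat_lit 616) (.e (nat_lit 1349) (nat_lit 102) (.e (nat_lit 286761) (nat_lit 13) (.e (nat_lit 393237) (nat_lit 17) .nil))) .nil)) 
(.lf (nat_lit 51799) (.g (nat_lit 2887) (.e (nat_lit 1349) (nat_lit 102) (.e (nat_lit 286761) (nat_lit 13) (.e (nat_lit 393300) (nat_lit 27) (.e (nat_lit 491549) (nat_lit 9) (.e (nat_lit 336238) (nat_lit 15) (.e (nat_lit 7065) (nat_lit 377) .nil)))))) (.g (nat_lit 4) .nil .nil)))) (.nd (nat_lit 6) 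
(.lf (nat_lit 51767) (.g (nat_lit 3078) (.e (nat_lit 1349) (nat_lit 102) (.e (nat_lit 286761) (nat_lit 13) (.e (nat_lit 393291) (nat_lit 26) (.e (nat_lit 475219) (nat_lit 44) (.e (nat_lit 737281) (nat_lit 0) (.e (nat_lit 4961) (nat_lit 287) .nil)))))) (.g (nat_lit 4) .nil .nil))) 
(.lf (nat_lit 51831) (.g (nat_lit 3951) (.e (nat_lit 1349) (nat_lit 102) (.e (nat_lit 286761) (nat_lit 13) (.e (nat_lit 393301) (nat_lit 27) (.e (nat_lit 491547) (nat_lit 9) (.e (nat_lit 336242) (nat_lit 15) (.e (nat_lit 7064) (nat_lit 377) .nil)))))) (.g (nat_lit 4) .nil .nil)))))) (.nd (nat_lit 4) (.nd (nat_lit 5) (.nd (nat_lit 6) 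
(.lf (nat_lit 51727) (.g (nat_lit 2287) (.e (nat_lit 1349) (nat_lit 102) (.e (nat_lit 286761) (nat_lit 13) (.e (nat_lit 393234) (nat_lit 17) (.e (nat_lit 7591) (nat_lit 407) (.e (nat_lit 73731) (nat_lit 0) (.e (nat_lit 6848) (nat_lit 371) (.e (nat_lit 61) (nat_lit 0) .nil))))))) (.g (nat_lit 4) .nil .nil))) 
(.lf (nat_lit 51791) (.g (nat_lit 1623) (.e (nat_lit 1349) (nat_lit 102) (.e (nat_lit 286761) (nat_lit 13) (.e (nat_lit 393299) (nat_lit 27) (.e (nat_lit 491565) (nat_lit 12) .nil)))) .nil))) (.nd (nat_lit 6) 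
(.lf (nat_lit 51759) (.g (nat_lit 2470) (.e (nat_lit 1349) (nat_lit 102) (.e (nat_lit 286761) (nat_lit 13) (.e (nat_lit 393270) (nat_lit 23) (.e (nat_lit 426354) (nat_lit 15) (.e (nat_lit 2226) (nat_lit 146) (.e (nat_lit 737283) (nat_lit 0) (.e (nat_lit 4965) (nat_lit 287) .nil))))))) (.g (nat_lit 4) .nil .nil))) 
(.lf (nat_lit 51823) (.g (nat_lit 3168) (.e (nat_lit 1349) (nat_lit 102) (.e (nat_lit 286761) (nat_lit 13) (.e (nat_lit 393300) (nat_lit 27) (.e (nat_lit 491565) (nat_lit 12) (.e (nat_lit 392960) (nat_lit 16) .nil))))) (.g (nat_lit 4) .nil .nil))))) (.nd (nat_lit 5) (.nd (nat_lit 6) 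
(.lf (nat_lit 51743) (.g (nat_lit 2389) (.e (nat_lit 1349) (nat_lit 102) (.e (nat_lit 286761) (nat_lit 13) (.e (nat_lit 393260) (nat_lit 21) (.e (nat_lit 409616) (nat_lit 10) .nil)))) .nil)) 
(.lf (nat_lit 51807) (.g (nat_lit 3077) (.e (nat_lit 1349) (nat_lit 102) (.e (nat_lit 286761) (nat_lit 13) (.e (nat_lit 393300) (nat_lit 27) (.e (nat_lit 491549) (nat_lit 9) (.e (nat_lit 336284) (nat_lit 15) (.e (nat_lit 7936) (nat_lit 377) .nil)))))) (.g (nat_lit 4) .nil .nil)))) (.nd (nat_lit 6) 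
(.lf (nat_lit 51775) (.g (nat_lit 2183) (.e (nat_lit 1349) (nat_lit 102) (.e (nat_lit 286761) (nat_lit 13) (.e (nat_lit 393293) (nat_lit 26) (.e (nat_lit 475218) (nat_lit 44) (.e (nat_lit 737286) (nat_lit 0) (.e (nat_lit 4961) (nat_lit 287) .nil)))))) (.g (nat_lit 6) .nil .nil))) 
(.lf (nat_lit 51839) (.g (nat_lit 3406) (.e (nat_lit 1349) (nat_lit 102) (.e (nat_lit 286761) (nat_lit 13) (.e (nat_lit 393301) (nat_lit 27) (.e (nat_lit 491558) (nat_lit 10) .nil)))) .nil)))))))))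

noncomputable def tv721 : DT := (.nd (nat_lit 0) (.nd (nat_lit 1) (.nd (nat_lit 2) (.nd (nat_lit 3) (.nd (nat_lit 4) (.nd (nat_lit 5) (.nd (nat_lit 6) 
(.lf (nat_lit 51840) (.g (nat_lit 4788) (.e (nat_lit 1349) (nat_lit 102) (.e (nat_lit 286761) (nat_lit 13) (.e (nat_lit 393301) (nat_lit 27) (.e (nat_lit 491558) (nat_lit 10) (.e (nat_lit 344088) (nat_lit 18) .nil))))) .nil)) 
(.lf (nat_lit 51904) (.g (nat_lit 3470) (.e (nat_lit 1352) (nat_lit 102) (.e (nat_lit 286752) (nat_lit 10) (.e (nat_lit 344126) (nat_lit 25) (.e (nat_lit 548889) (nat_lit 9) (.e (nat_lit 65598) (nat_lit 9) (.e (nat_lit 336013) (nat_lit 2) (.e (nat_lit 98048) (nat_lit 18) .nil))))))) (.g (nat_lit 6) .nil .nil)))) (.nd (nat_lit 6) 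
(.lf (nat_lit 51872) (.g (nat_lit 2595) (.e (nat_lit 1351) (nat_lit 102) (.e (nat_lit 286735) (nat_lit 3) (.e (nat_lit 98373) (nat_lit 29) (.e (nat_lit 450587) (nat_lit 10) .nil)))) .nil)) 
(.lf (nat_lit 51936) (.g (nat_lit 2915) (.e (nat_lit 1353) (nat_lit 102) (.e (nat_lit 286733) (nat_lit 2) (.e (nat_lit 90170) (nat_lit 13) (.e (nat_lit 172115) (nat_lit 10) .nil)))) .nil)))) (.nd (nat_lit 5) (.nd (nat_lit 6) 
(.lf (nat_lit 51856) (.g (nat_lit 3229) (.e (nat_lit 1349) (nat_lit 102) (.e (nat_lit 286762) (nat_lit 14) (.e (nat_lit 401458) (nat_lit 13) (.e (nat_lit 483395) (nat_lit 24) (.e (nat_lit 344160) (nat_lit 37) (.e (nat_lit 647203) (nat_lit 14) .nil)))))) (.g (nat_lit 6) .nil .nil))) 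
(.lf (nat_lit 51920) (.g (nat_lit 2256) (.e (nat_lit 1352) (nat_lit 102) (.e (nat_lit 286761) (nat_lit 13) (.e (nat_lit 393300) (nat_lit 27) (.e (nat_lit 491552) (nat_lit 9) .nil)))) .nil))) (.nd (nat_lit 6) 
(.lf (nat_lit 51888) (.g (nat_lit 1926) (.e (nat_lit 1351) (nat_lit 102) (.e (nat_lit 286761) (nat_lit 13) (.e (nat_lit 393234) (nat_lit 17) (.e (nat_lit 7589) (nat_lit 406) (.e (nat_lit 65632) (nat_lit 15) .nil))))) .nil)) 
(.lf (nat_lit 51952) (.g (nat_lit 472) (.e (nat_lit 1353) (nat_lit 102) (.e (nat_lit 286734) (nat_lit 3) (.e (nat_lit 98381) (nat_lit 31) .nil))) .nil))))) (.nd (nat_lit 4) (.nd (nat_lit 5) (.nd (nat_lit 6) 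
(.lf (nat_lit 51848) (.g (nat_lit 2983) (.e (nat_lit 1349) (nat_lit 102) (.e (nat_lit 286761) (nat_lit 13) (.e (nat_lit 393301) (nat_lit 27) (.e (nat_lit 491562) (nat_lit 12) (.e (nat_lit 392960) (nat_lit 16) .nil))))) (.g (nat_lit 4) .nil .nil))) 
(.lf (nat_lit 51912) (.g (nat_lit 2781) (.e (nat_lit 1352) (nat_lit 102) (.e (nat_lit 286761) (nat_lit 13) (.e (nat_lit 393234) (nat_lit 17) (.e (nat_lit 7589) (nat_lit 406) (.e (nat_lit 65632) (nat_lit 15) (.e (nat_lit 6953) (nat_lit 377) .nil)))))) (.g (nat_lit 6) .nil .nil)))) (.nd (nat_lit 6) 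
(.lf (nat_lit 51880) (.g (nat_lit 1916) (.e (nat_lit 1351) (nat_lit 102) (.e (nat_lit 286759) (nat_lit 12) (.e (nat_lit 385074) (nat_lit 31) (.e (nat_lit 573456) (nat_lit 9) .nil)))) .nil)) 
(.lf (nat_lit 51944) (.g (nat_lit 2001) (.e (nat_lit 1353) (nat_lit 102) (.e (nat_lit 286733) (nat_lit 2) (.e (nat_lit 90178) (nat_lit 15) (.e (nat_lit 188450) (nat_lit 23) .nil)))) .nil)))) (.nd (nat_lit 5) (.nd (nat_lit 6) 
(.lf (nat_lit 51864) (.g (nat_lit 2153) (.e (nat_lit 1350) (nat_lit 102) (.e (nat_lit 286761) (nat_lit 13) (.e (nat_lit 393234) (nat_lit 17) (.e (nat_lit 7589) (nat_lit 406) .nil)))) .nil)) 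
(.lf (nat_lit 51928) (.g (nat_lit 3374) (.e (nat_lit 1352) (nat_lit 102) (.e (nat_lit 286761) (nat_lit 13) (.e (nat_lit 393301) (nat_lit 27) (.e (nat_lit 491556) (nat_lit 9) .nil)))) .nil))) (.nd (nat_lit 6) 
(.lf (nat_lit 51896) (.g (nat_lit 3736) (.e (nat_lit 1351) (nat_lit 102) (.e (nat_lit 286761) (nat_lit 13) (.e (nat_lit 393301) (nat_lit 27) (.e (nat_lit 491552) (nat_lit 9) .nil)))) .nil)) 
(.lf (nat_lit 51960) (.g (nat_lit 3186) (.e (nat_lit 1353) (nat_lit 102) (.e (nat_lit 286735) (nat_lit 3) (.e (nat_lit 98370) (nat_lit 28) (.e (nat_lit 442424) (nat_lit 22) (.e (nat_lit 196628) (nat_lit 9) .nil))))) .nil)))))) (.nd (nat_lit 3) (.nd (nat_lit 4) (.nd (nat_lit 5) (.nd (nat_lit 6) 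
(.lf (nat_lit 51844) (.g (nat_lit 3801) (.e (nat_lit 1349) (nat_lit 102) (.e (nat_lit 286761) (nat_lit 13) (.e (nat_lit 393301) (nat_lit 27) (.e (nat_lit 491559) (nat_lit 10) .nil)))) .nil)) 
(.lf (nat_lit 51908) (.g (nat_lit 700) (.e (nat_lit 1352) (nat_lit 102) (.e (nat_lit 286761) (nat_lit 13) (.e (nat_lit 393233) (nat_lit 17) .nil))) .nil))) (.nd (nat_lit 6) 
(.lf (nat_lit 51876) (.g (nat_lit 1389) (.e (nat_lit 1351) (nat_lit 102) (.e (nat_lit 286753) (nat_lit 10) (.e (nat_lit 344115) (nat_lit 20) (.e (nat_lit 507923) (nat_lit 6) (.e (nat_lit 286747) (nat_lit 9) (.e (nat_lit 336013) (nat_lit 2) (.e (nat_lit 98048) (nat_lit 18) .nil))))))) (.g (nat_lit 4) .nil .nil))) 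
(.lf (nat_lit 51940) (.g (nat_lit 1981) (.e (nat_lit 1353) (nat_lit 102) (.e (nat_lit 286733) (nat_lit 2) (.e (nat_lit 90177) (nat_lit 15) (.e (nat_lit 188449) (nat_lit 22) .nil)))) .nil)))) (.nd (nat_lit 5) (.nd (nat_lit 6) 
(.lf (nat_lit 51860) (.g (nat_lit 1547) (.e (nat_lit 1350) (nat_lit 102) (.e (nat_lit 286734) (nat_lit 3) (.e (nat_lit 98370) (nat_lit 28) (.e (nat_lit 442424) (nat_lit 22) .nil)))) .nil)) 
(.lf (nat_lit 51924) (.g (nat_lit 3704) (.e (nat_lit 1352) (nat_lit 102) (.e (nat_lit 286761) (nat_lit 13) (.e (nat_lit 393301) (nat_lit 27) (.e (nat_lit 491551) (nat_lit 9) .nil)))) .nil))) (.nd (nat_lit 6) 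
(.lf (nat_lit 51892) (.g (nat_lit 836) (.e (nat_lit 1351) (nat_lit 102) (.e (nat_lit 286761) (nat_lit 13) (.e (nat_lit 393270) (nat_lit 23) .nil))) .nil)) 
(.lf (nat_lit 51956) (.g (nat_lit 2070) (.e (nat_lit 1353) (nat_lit 102) (.e (nat_lit 286735) (nat_lit 3) (.e (nat_lit 98359) (nat_lit 26) (.e (nat_lit 426212) (nat_lit 9) .nil)))) .nil))))) (.nd (nat_lit 4) (.nd (nat_lit 5) (.nd (nat_lit 6) 
(.lf (nat_lit 51852) (.g (nat_lit 3875) (.e (nat_lit 1349) (nat_lit 102) (.e (nat_lit 286761) (nat_lit 13) (.e (nat_lit 393301) (nat_lit 27) (.e (nat_lit 491575) (nat_lit 15) .nil)))) .nil)) 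
(.lf (nat_lit 51916) (.g (nat_lit 1918) (.e (nat_lit 1352) (nat_lit 102) (.e (nat_lit 286761) (nat_lit 13) (.e (nat_lit 393293) (nat_lit 26) (.e (nat_lit 483072) (nat_lit 40) .nil)))) .nil))) (.nd (nat_lit 6) 
(.lf (nat_lit 51884) (.g (nat_lit 3174) (.e (nat_lit 1351) (nat_lit 102) (.e (nat_lit 286759) (nat_lit 12) (.e (nat_lit 385074) (nat_lit 31) (.e (nat_lit 581376) (nat_lit 13) .nil)))) .nil)) 
(.lf (nat_lit 51948) (.g (nat_lit 1554) (.e (nat_lit 1353) (nat_lit 102) (.e (nat_lit 286734) (nat_lit 3) (.e (nat_lit 98370) (nat_lit 28) (.e (nat_lit 442424) (nat_lit 22) .nil)))) .nil)))) (.nd (nat_lit 5) (.nd (nat_lit 6) 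
(.lf (nat_lit 51868) (.g (nat_lit 3446) (.e (nat_lit 1351) (nat_lit 102) (.e (nat_lit 286733) (nat_lit 2) (.e (nat_lit 90170) (nat_lit 13) (.e (nat_lit 172097) (nat_lit 9) .nil)))) .nil)) 
(.lf (nat_lit 51932) (.g (nat_lit 2187) (.e (nat_lit 1353) (nat_lit 102) (.e (nat_lit 286733) (nat_lit 2) (.e (nat_lit 90170) (nat_lit 13) (.e (nat_lit 172095) (nat_lit 9) .nil)))) .nil))) (.nd (nat_lit 6) 
(.lf (nat_lit 51900) (.g (nat_lit 3946) (.e (nat_lit 1352) (nat_lit 102) (.e (nat_lit 286735) (nat_lit 3) (.e (nat_lit 98373) (nat_lit 29) (.e (nat_lit 450588) (nat_lit 10) (.e (nat_lit 573452) (nat_lit 9) .nil))))) .nil)) 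
(.lf (nat_lit 51964) (.g (nat_lit 1966) (.e (nat_lit 1353) (nat_lit 102) (.e (nat_lit 286735) (nat_lit 3) (.e (nat_lit 98372) (nat_lit 29) (.e (nat_lit 450571) (nat_lit 1) .nil)))) .nil))))))) (.nd (nat_lit 2) (.nd (nat_lit 3) (.nd (nat_lit 4) (.nd (nat_lit 5) (.nd (nat_lit 6) 
(.lf (nat_lit 51842) (.g (nat_lit 4523) (.e (nat_lit 1349) (nat_lit 102) (.e (nat_lit 286761) (nat_lit 13) (.e (nat_lit 393301) (nat_lit 27) (.e (nat_lit 491558) (nat_lit 10) (.e (nat_lit 344091) (nat_lit 18) .nil))))) .nil)) 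
(.lf (nat_lit 51906) (.g (nat_lit 1814) (.e (nat_lit 1352) (nat_lit 102) (.e (nat_lit 286756) (nat_lit 10) (.e (nat_lit 344115) (nat_lit 20) (.e (nat_lit 507923) (nat_lit 6) (.e (nat_lit 286747) (nat_lit 9) (.e (nat_lit 336013) (nat_lit 2) (.e (nat_lit 98048) (nat_lit 18) .nil))))))) (.g (nat_lit 6) .nil .nil)))) (.nd (nat_lit 6) 
(.lf (nat_lit 51874) (.g (nat_lit 619) (.e (nat_lit 1351) (nat_lit 102) (.e (nat_lit 286748) (nat_lit 9) (.e (nat_lit 336295) (nat_lit 15) .nil))) .nil)) 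
(.lf (nat_lit 51938) (.g (nat_lit 3228) (.e (nat_lit 1353) (nat_lit 102) (.e (nat_lit 286733) (nat_lit 2) (.e (nat_lit 90176) (nat_lit 15) (.e (nat_lit 188450) (nat_lit 23) (.e (nat_lit 204817) (nat_lit 17) .nil))))) .nil)))) (.nd (nat_lit 5) (.nd (nat_lit 6) 
(.lf (nat_lit 51858) (.g (nat_lit 3230) (.e (nat_lit 1349) (nat_lit 102) (.e (nat_lit 286765) (nat_lit 15) (.e (nat_lit 3238) (nat_lit 197) (.e (nat_lit 532544) (nat_lit 10) (.e (nat_lit 344131) (nat_lit 26) (.e (nat_lit 557105) (nat_lit 14) (.e (nat_lit 180252) (nat_lit 10) (.e (nat_lit 573503) (nat_lit 18) .nil)))))))) (.g (nat_lit 4) .nil .nil))) 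
(.lf (nat_lit 51922) (.g (nat_lit 564) (.e (nat_lit 1352) (nat_lit 102) (.e (nat_lit 286761) (nat_lit 13) (.e (nat_lit 393301) (nat_lit 27) .nil))) .nil))) (.nd (nat_lit 6) 
(.lf (nat_lit 51890) (.g (nat_lit 2342) (.e (nat_lit 1351) (nat_lit 102) (.e (nat_lit 286761) (nat_lit 13) (.e (nat_lit 393234) (nat_lit 17) (.e (nat_lit 7589) (nat_lit 406) (.e (nat_lit 65632) (nat_lit 15) (.e (nat_lit 6953) (nat_lit 377) .nil)))))) (.g (nat_lit 0) .nil .nil))) 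
(.lf (nat_lit 51954) (.g (nat_lit 2051) (.e (nat_lit 1353) (nat_lit 102) (.e (nat_lit 286735) (nat_lit 3) (.e (nat_lit 98359) (nat_lit 26) (.e (nat_lit 426185) (nat_lit 9) .nil)))) .nil))))) (.nd (nat_lit 4) (.nd (nat_lit 5) (.nd (nat_lit 6) 
(.lf (nat_lit 51850) (.g (nat_lit 2680) (.e (nat_lit 1349) (nat_lit 102) (.e (nat_lit 286761) (nat_lit 13) (.e (nat_lit 393301) (nat_lit 27) (.e (nat_lit 499456) (nat_lit 12) .nil)))) .nil)) 
(.lf (nat_lit 51914) (.g (nat_lit 795) (.e (nat_lit 1352) (nat_lit 102) (.e (nat_lit 286761) (nat_lit 13) (.e (nat_lit 393237) (nat_lit 17) .nil))) .nil))) (.nd (nat_lit 6) 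
(.lf (nat_lit 51882) (.g (nat_lit 4835) (.e (nat_lit 1351) (nat_lit 102) (.e (nat_lit 286759) (nat_lit 12) (.e (nat_lit 385074) (nat_lit 31) (.e (nat_lit 573482) (nat_lit 13) (.e (nat_lit 65598) (nat_lit 9) .nil))))) .nil)) 
(.lf (nat_lit 51946) (.g (nat_lit 2091) (.e (nat_lit 1353) (nat_lit 102) (.e (nat_lit 286734) (nat_lit 3) (.e (nat_lit 98359) (nat_lit 26) (.e (nat_lit 426211) (nat_lit 9) (.e (nat_lit 426125) (nat_lit 2) (.e (nat_lit 204544) (nat_lit 21) (.e (nat_lit 164275) (nat_lit 221) .nil))))))) (.g (nat_lit 4) .nil .nil))))) (.nd (nat_lit 5) (.nd (nat_lit 6) 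
(.lf (nat_lit 51866) (.g (nat_lit 969) (.e (nat_lit 1350) (nat_lit 102) (.e (nat_lit 286761) (nat_lit 13) (.e (nat_lit 393301) (nat_lit 27) .nil))) .nil)) 
(.lf (nat_lit 51930) (.g (nat_lit 3639) (.e (nat_lit 1352) (nat_lit 102) (.e (nat_lit 286761) (nat_lit 13) (.e (nat_lit 393301) (nat_lit 27) (.e (nat_lit 491563) (nat_lit 12) .nil)))) .nil))) (.nd (nat_lit 6) 
(.lf (nat_lit 51898) (.g (nat_lit 4267) (.e (nat_lit 1351) (nat_lit 102) (.e (nat_lit 286761) (nat_lit 13) (.e (nat_lit 393301) (nat_lit 27) (.e (nat_lit 491563) (nat_lit 12) .nil)))) .nil)) 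
(.lf (nat_lit 51962) (.g (nat_lit 1831) (.e (nat_lit 1353) (nat_lit 102) (.e (nat_lit 286735) (nat_lit 3) (.e (nat_lit 98370) (nat_lit 28) (.e (nat_lit 442427) (nat_lit 23) .nil)))) .nil)))))) (.nd (nat_lit 3) (.nd (nat_lit 4) (.nd (nat_lit 5) (.nd (nat_lit 6) 
(.lf (nat_lit 51846) (.g (nat_lit 5038) (.e (nat_lit 1349) (nat_lit 102) (.e (nat_lit 286761) (nat_lit 13) (.e (nat_lit 393301) (nat_lit 27) (.e (nat_lit 491560) (nat_lit 10) (.e (nat_lit 344088) (nat_lit 18) .nil))))) .nil)) 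
(.lf (nat_lit 51910) (.g (nat_lit 1941) (.e (nat_lit 1352) (nat_lit 102) (.e (nat_lit 286761) (nat_lit 13) (.e (nat_lit 393234) (nat_lit 17) (.e (nat_lit 7587) (nat_lit 406) .nil)))) .nil))) (.nd (nat_lit 6) 
(.lf (nat_lit 51878) (.g (nat_lit 1995) (.e (nat_lit 1351) (nat_lit 102) (.e (nat_lit 286756) (nat_lit 10) (.e (nat_lit 344115) (nat_lit 20) (.e (nat_lit 507923) (nat_lit 6) (.e (nat_lit 286747) (nat_lit 9) (.e (nat_lit 336013) (nat_lit 2) (.e (nat_lit 98048) (nat_lit 18) .nil))))))) (.g (nat_lit 6) .nil .nil))) 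
(.lf (nat_lit 51942) (.g (nat_lit 1926) (.e (nat_lit 1353) (nat_lit 102) (.e (nat_lit 286733) (nat_lit 2) (.e (nat_lit 90178) (nat_lit 15) (.e (nat_lit 188448) (nat_lit 22) .nil)))) .nil)))) (.nd (nat_lit 5) (.nd (nat_lit 6) 
(.lf (nat_lit 51862) (.g (nat_lit 1310) (.e (nat_lit 1350) (nat_lit 102) (.e (nat_lit 286756) (nat_lit 10) (.e (nat_lit 344115) (nat_lit 20) (.e (nat_lit 507923) (nat_lit 6) (.e (nat_lit 286747) (nat_lit 9) .nil))))) .nil)) 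
(.lf (nat_lit 51926) (.g (nat_lit 3836) (.e (nat_lit 1352) (nat_lit 102) (.e (nat_lit 286761) (nat_lit 13) (.e (nat_lit 393301) (nat_lit 27) (.e (nat_lit 491552) (nat_lit 9) (.e (nat_lit 336248) (nat_lit 15) (.e (nat_lit 6953) (nat_lit 377) .nil)))))) (.g (nat_lit 4) .nil .nil)))) (.nd (nat_lit 6) 
(.lf (nat_lit 51894) (.g (nat_lit 680) (.e (nat_lit 1351) (nat_lit 102) (.e (nat_lit 286761) (nat_lit 13) (.e (nat_lit 393301) (nat_lit 27) .nil))) .nil)) 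
(.lf (nat_lit 51958) (.g (nat_lit 1827) (.e (nat_lit 1353) (nat_lit 102) (.e (nat_lit 286735) (nat_lit 3) (.e (nat_lit 98369) (nat_lit 28) (.e (nat_lit 442424) (nat_lit 22) .nil)))) .nil))))) (.nd (nat_lit 4) (.nd (nat_lit 5) (.nd (nat_lit 6) 
(.lf (nat_lit 51854) (.g (nat_lit 504) (.e (nat_lit 1349) (nat_lit 102) (.e (nat_lit 286762) (nat_lit 14) (.e (nat_lit 401458) (nat_lit 13) .nil))) .nil)) 
(.lf (nat_lit 51918) (.g (nat_lit 902) (.e (nat_lit 1352) (nat_lit 102) (.e (nat_lit 286761) (nat_lit 13) (.e (nat_lit 393300) (nat_lit 27) .nil))) .nil))) (.nd (nat_lit 6) 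
(.lf (nat_lit 51886) (.g (nat_lit 1787) (.e (nat_lit 1351) (nat_lit 102) (.e (nat_lit 286761) (nat_lit 13) (.e (nat_lit 393234) (nat_lit 17) (.e (nat_lit 7587) (nat_lit 406) (.e (nat_lit 65632) (nat_lit 15) (.e (nat_lit 6950) (nat_lit 377) .nil)))))) (.g (nat_lit 4) .nil .nil))) 
(.lf (nat_lit 51950) (.g (nat_lit 2164) (.e (nat_lit 1353) (nat_lit 102) (.e (nat_lit 286734) (nat_lit 3) (.e (nat_lit 98370) (nat_lit 28) (.e (nat_lit 442427) (nat_lit 23) (.e (nat_lit 204821) (nat_lit 17) .nil))))) .nil)))) (.nd (nat_lit 5) (.nd (nat_lit 6) 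
(.lf (nat_lit 51870) (.g (nat_lit 982) (.e (nat_lit 1351) (nat_lit 102) (.e (nat_lit 286735) (nat_lit 3) (.e (nat_lit 98372) (nat_lit 29) .nil))) .nil)) 
(.lf (nat_lit 51934) (.g (nat_lit 4264) (.e (nat_lit 1353) (nat_lit 102) (.e (nat_lit 286733) (nat_lit 2) (.e (nat_lit 90170) (nat_lit 13) (.e (nat_lit 172106) (nat_lit 10) (.e (nat_lit 434231) (nat_lit 23) (.e (nat_lit 532490) (nat_lit 0) (.e (nat_lit 7936) (nat_lit 332) .nil))))))) (.g (nat_lit 6) .nil .nil)))) (.nd (nat_lit 6) 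
(.lf (nat_lit 51902) (.g (nat_lit 766) (.e (nat_lit 1352) (nat_lit 102) (.e (nat_lit 286748) (nat_lit 9) (.e (nat_lit 336389) (nat_lit 27) .nil))) .nil)) 
(.lf (nat_lit 51966) (.g (nat_lit 1560) (.e (nat_lit 1353) (nat_lit 102) (.e (nat_lit 286735) (nat_lit 3) (.e (nat_lit 98372) (nat_lit 29) (.e (nat_lit 450579) (nat_lit 5) .nil)))) .nil)))))))) (.nd (nat_lit 1) (.nd (nat_lit 2) (.nd (nat_lit 3) (.nd (nat_lit 4) (.nd (nat_lit 5) (.nd (nat_lit 6) 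
(.lf (nat_lit 51841) (.g (nat_lit 4469) (.e (nat_lit 1349) (nat_lit 102) (.e (nat_lit 286761) (nat_lit 13) (.e (nat_lit 393301) (nat_lit 27) (.e (nat_lit 491558) (nat_lit 10) (.e (nat_lit 344090) (nat_lit 18) .nil))))) .nil)) 
(.lf (nat_lit 51905) (.g (nat_lit 886) (.e (nat_lit 1352) (nat_lit 102) (.e (nat_lit 286755) (nat_lit 10) (.e (nat_lit 344115) (nat_lit 20) (.e (nat_lit 507923) (nat_lit 6) (.e (nat_lit 286747) (nat_lit 9) .nil))))) .nil))) (.nd (nat_lit 6) 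
(.lf (nat_lit 51873) (.g (nat_lit 4015) (.e (nat_lit 1351) (nat_lit 102) (.e (nat_lit 286735) (nat_lit 3) (.e (nat_lit 98373) (nat_lit 29) (.e (nat_lit 450588) (nat_lit 10) (.e (nat_lit 573452) (nat_lit 9) .nil))))) .nil)) 
(.lf (nat_lit 51937) (.g (nat_lit 1882) (.e (nat_lit 1353) (nat_lit 102) (.e (nat_lit 286733) (nat_lit 2) (.e (nat_lit 90176) (nat_lit 15) (.e (nat_lit 188450) (nat_lit 23) .nil)))) .nil)))) (.nd (nat_lit 5) (.nd (nat_lit 6) 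
(.lf (nat_lit 51857) (.g (nat_lit 3269) (.e (nat_lit 1349) (nat_lit 102) (.e (nat_lit 286762) (nat_lit 14) (.e (nat_lit 401459) (nat_lit 13) (.e (nat_lit 483395) (nat_lit 24) (.e (nat_lit 344160) (nat_lit 37) (.e (nat_lit 647203) (nat_lit 14) .nil)))))) (.g (nat_lit 6) .nil .nil))) 
(.lf (nat_lit 51921) (.g (nat_lit 2001) (.e (nat_lit 1352) (nat_lit 102) (.e (nat_lit 286761) (nat_lit 13) (.e (nat_lit 393300) (nat_lit 27) (.e (nat_lit 491556) (nat_lit 9) .nil)))) .nil))) (.nd (nat_lit 6) 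
(.lf (nat_lit 51889) (.g (nat_lit 2336) (.e (nat_lit 1351) (nat_lit 102) (.e (nat_lit 286761) (nat_lit 13) (.e (nat_lit 393234) (nat_lit 17) (.e (nat_lit 7589) (nat_lit 406) (.e (nat_lit 65632) (nat_lit 15) (.e (nat_lit 6950) (nat_lit 377) .nil)))))) (.g (nat_lit 6) .nil .nil))) 
(.lf (nat_lit 51953) (.g (nat_lit 759) (.e (nat_lit 1353) (nat_lit 102) (.e (nat_lit 286735) (nat_lit 3) (.e (nat_lit 98359) (nat_lit 26) .nil))) .nil))))) (.nd (nat_lit 4) (.nd (nat_lit 5) (.nd (nat_lit 6) 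
(.lf (nat_lit 51849) (.g (nat_lit 3387) (.e (nat_lit 1349) (nat_lit 102) (.e (nat_lit 286761) (nat_lit 13) (.e (nat_lit 393301) (nat_lit 27) (.e (nat_lit 491563) (nat_lit 12) (.e (nat_lit 392960) (nat_lit 16) .nil))))) (.g (nat_lit 4) .nil .nil))) 
(.lf (nat_lit 51913) (.g (nat_lit 2088) (.e (nat_lit 1352) (nat_lit 102) (.e (nat_lit 286761) (nat_lit 13) (.e (nat_lit 393234) (nat_lit 17) (.e (nat_lit 7936) (nat_lit 406) .nil)))) .nil))) (.nd (nat_lit 6) 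
(.lf (nat_lit 51881) (.g (nat_lit 3312) (.e (nat_lit 1351) (nat_lit 102) (.e (nat_lit 286759) (nat_lit 12) (.e (nat_lit 385074) (nat_lit 31) (.e (nat_lit 573482) (nat_lit 13) .nil)))) .nil)) 
(.lf (nat_lit 51945) (.g (nat_lit 2640) (.e (nat_lit 1353) (nat_lit 102) (.e (nat_lit 286734) (nat_lit 3) (.e (nat_lit 98359) (nat_lit 26) (.e (nat_lit 426211) (nat_lit 9) (.e (nat_lit 426125) (nat_lit 2) (.e (nat_lit 204544) (nat_lit 21) (.e (nat_lit 164272) (nat_lit 221) .nil))))))) (.g (nat_lit 5) .nil .nil))))) (.nd (nat_lit 5) (.nd (nat_lit 6) 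
(.lf (nat_lit 51865) (.g (nat_lit 2507) (.e (nat_lit 1350) (nat_lit 102) (.e (nat_lit 286761) (nat_lit 13) (.e (nat_lit 393293) (nat_lit 26) (.e (nat_lit 483072) (nat_lit 40) .nil)))) .nil)) 
(.lf (nat_lit 51929) (.g (nat_lit 3603) (.e (nat_lit 1352) (nat_lit 102) (.e (nat_lit 286761) (nat_lit 13) (.e (nat_lit 393301) (nat_lit 27) (.e (nat_lit 499456) (nat_lit 9) .nil)))) .nil))) (.nd (nat_lit 6) 
(.lf (nat_lit 51897) (.g (nat_lit 3434) (.e (nat_lit 1351) (nat_lit 102) (.e (nat_lit 286761) (nat_lit 13) (.e (nat_lit 393301) (nat_lit 27) (.e (nat_lit 491556) (nat_lit 9) .nil)))) .nil)) 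
(.lf (nat_lit 51961) (.g (nat_lit 4179) (.e (nat_lit 1353) (nat_lit 102) (.e (nat_lit 286735) (nat_lit 3) (.e (nat_lit 98370) (nat_lit 28) (.e (nat_lit 442424) (nat_lit 22) (.e (nat_lit 196628) (nat_lit 9) (.e (nat_lit 970) (nat_lit 81) (.e (nat_lit 6177) (nat_lit 332) .nil))))))) (.g (nat_lit 5) .nil .nil))))))) (.nd (nat_lit 3) (.nd (nat_lit 4) (.nd (nat_lit 5) (.nd (nat_lit 6) 
(.lf (nat_lit 51845) (.g (nat_lit 2915) (.e (nat_lit 1349) (nat_lit 102) (.e (nat_lit 286761) (nat_lit 13) (.e (nat_lit 393301) (nat_lit 27) (.e (nat_lit 491560) (nat_lit 10) .nil)))) .nil)) 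
(.lf (nat_lit 51909) (.g (nat_lit 1573) (.e (nat_lit 1352) (nat_lit 102) (.e (nat_lit 286761) (nat_lit 13) (.e (nat_lit 393233) (nat_lit 17) (.e (nat_lit 7589) (nat_lit 406) .nil)))) .nil))) (.nd (nat_lit 6) 
(.lf (nat_lit 51877) (.g (nat_lit 3424) (.e (nat_lit 1351) (nat_lit 102) (.e (nat_lit 286753) (nat_lit 10) (.e (nat_lit 344126) (nat_lit 25) (.e (nat_lit 548889) (nat_lit 9) (.e (nat_lit 65598) (nat_lit 9) (.e (nat_lit 336013) (nat_lit 2) (.e (nat_lit 98048) (nat_lit 18) .nil))))))) (.g (nat_lit 5) .nil .nil))) 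
(.lf (nat_lit 51941) (.g (nat_lit 1826) (.e (nat_lit 1353) (nat_lit 102) (.e (nat_lit 286733) (nat_lit 2) (.e (nat_lit 90177) (nat_lit 15) (.e (nat_lit 188452) (nat_lit 23) .nil)))) .nil)))) (.nd (nat_lit 5) (.nd (nat_lit 6) 
(.lf (nat_lit 51861) (.g (nat_lit 2158) (.e (nat_lit 1350) (nat_lit 102) (.e (nat_lit 286734) (nat_lit 3) (.e (nat_lit 98370) (nat_lit 28) (.e (nat_lit 442427) (nat_lit 23) (.e (nat_lit 204821) (nat_lit 17) .nil))))) .nil)) 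
(.lf (nat_lit 51925) (.g (nat_lit 3059) (.e (nat_lit 1352) (nat_lit 102) (.e (nat_lit 286761) (nat_lit 13) (.e (nat_lit 393301) (nat_lit 27) (.e (nat_lit 491552) (nat_lit 9) .nil)))) .nil))) (.nd (nat_lit 6) 
(.lf (nat_lit 51893) (.g (nat_lit 651) (.e (nat_lit 1351) (nat_lit 102) (.e (nat_lit 286761) (nat_lit 13) (.e (nat_lit 393293) (nat_lit 26) .nil))) .nil)) 
(.lf (nat_lit 51957) (.g (nat_lit 772) (.e (nat_lit 1353) (nat_lit 102) (.e (nat_lit 286735) (nat_lit 3) (.e (nat_lit 98369) (nat_lit 28) .nil))) .nil))))) (.nd (nat_lit 4) (.nd (nat_lit 5) (.nd (nat_lit 6) 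
(.lf (nat_lit 51853) (.g (nat_lit 3002) (.e (nat_lit 1349) (nat_lit 102) (.e (nat_lit 286762) (nat_lit 14) (.e (nat_lit 401457) (nat_lit 13) (.e (nat_lit 483394) (nat_lit 24) (.e (nat_lit 344160) (nat_lit 37) (.e (nat_lit 647203) (nat_lit 14) .nil)))))) (.g (nat_lit 5) .nil .nil))) 
(.lf (nat_lit 51917) (.g (nat_lit 864) (.e (nat_lit 1352) (nat_lit 102) (.e (nat_lit 286761) (nat_lit 13) (.e (nat_lit 393298) (nat_lit 27) .nil))) .nil))) (.nd (nat_lit 6) 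
(.lf (nat_lit 51885) (.g (nat_lit 1247) (.e (nat_lit 1351) (nat_lit 102) (.e (nat_lit 286761) (nat_lit 13) (.e (nat_lit 393234) (nat_lit 17) (.e (nat_lit 7587) (nat_lit 406) .nil)))) .nil)) 
(.lf (nat_lit 51949) (.g (nat_lit 2857) (.e (nat_lit 1353) (nat_lit 102) (.e (nat_lit 286734) (nat_lit 3) (.e (nat_lit 98370) (nat_lit 28) (.e (nat_lit 442424) (nat_lit 22) (.e (nat_lit 196628) (nat_lit 9) (.e (nat_lit 970) (nat_lit 81) (.e (nat_lit 6177) (nat_lit 332) .nil))))))) (.g (nat_lit 5) .nil .nil))))) (.nd (nat_lit 5) (.nd (nat_lit 6) 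
(.lf (nat_lit 51869) (.g (nat_lit 2667) (.e (nat_lit 1351) (nat_lit 102) (.e (nat_lit 286733) (nat_lit 2) (.e (nat_lit 90177) (nat_lit 15) (.e (nat_lit 188452) (nat_lit 23) (.e (nat_lit 204816) (nat_lit 17) .nil))))) .nil)) 
(.lf (nat_lit 51933) (.g (nat_lit 2732) (.e (nat_lit 1353) (nat_lit 102) (.e (nat_lit 286733) (nat_lit 2) (.e (nat_lit 90170) (nat_lit 13) (.e (nat_lit 172097) (nat_lit 9) .nil)))) .nil))) (.nd (nat_lit 6) 
(.lf (nat_lit 51901) (.g (nat_lit 4031) (.e (nat_lit 1352) (nat_lit 102) (.e (nat_lit 286735) (nat_lit 3) (.e (nat_lit 98373) (nat_lit 29) (.e (nat_lit 450588) (nat_lit 10) (.e (nat_lit 573452) (nat_lit 9) (.e (nat_lit 13) (nat_lit 0) (.e (nat_lit 6953) (nat_lit 377) .nil))))))) (.g (nat_lit 4) .nil .nil))) 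
(.lf (nat_lit 51965) (.g (nat_lit 2358) (.e (nat_lit 1353) (nat_lit 102) (.e (nat_lit 286735) (nat_lit 3) (.e (nat_lit 98372) (nat_lit 29) (.e (nat_lit 458496) (nat_lit 1) (.e (nat_lit 500056) (nat_lit 17) (.e (nat_lit 65280) (nat_lit 176) .nil)))))) (.g (nat_lit 5) .nil .nil)))))))) (.nd (nat_lit 2) (.nd (nat_lit 3) (.nd (nat_lit 4) (.nd (nat_lit 5) (.nd (nat_lit 6) 
(.lf (nat_lit 51843) (.g (nat_lit 4512) (.e (nat_lit 1349) (nat_lit 102) (.e (nat_lit 286761) (nat_lit 13) (.e (nat_lit 393301) (nat_lit 27) (.e (nat_lit 491558) (nat_lit 10) (.e (nat_lit 344096) (nat_lit 18) .nil))))) .nil)) 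
(.lf (nat_lit 51907) (.g (nat_lit 3426) (.e (nat_lit 1352) (nat_lit 102) (.e (nat_lit 286756) (nat_lit 10) (.e (nat_lit 344126) (nat_lit 25) (.e (nat_lit 548889) (nat_lit 9) (.e (nat_lit 65598) (nat_lit 9) (.e (nat_lit 336013) (nat_lit 2) (.e (nat_lit 98048) (nat_lit 18) .nil))))))) (.g (nat_lit 6) .nil .nil)))) (.nd (nat_lit 6) 
(.lf (nat_lit 51875) (.g (nat_lit 3598) (.e (nat_lit 1351) (nat_lit 102) (.e (nat_lit 286752) (nat_lit 10) (.e (nat_lit 344126) (nat_lit 25) (.e (nat_lit 548889) (nat_lit 9) (.e (nat_lit 65598) (nat_lit 9) (.e (nat_lit 336013) (nat_lit 2) (.e (nat_lit 98048) (nat_lit 18) .nil))))))) (.g (nat_lit 6) .nil .nil))) 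
(.lf (nat_lit 51939) (.g (nat_lit 2955) (.e (nat_lit 1353) (nat_lit 102) (.e (nat_lit 286733) (nat_lit 2) (.e (nat_lit 90176) (nat_lit 15) (.e (nat_lit 188450) (nat_lit 23) (.e (nat_lit 204821) (nat_lit 17) .nil))))) .nil)))) (.nd (nat_lit 5) (.nd (nat_lit 6) 
(.lf (nat_lit 51859) (.g (nat_lit 3568) (.e (nat_lit 1350) (nat_lit 102) (.e (nat_lit 286733) (nat_lit 2) (.e (nat_lit 90170) (nat_lit 13) (.e (nat_lit 172097) (nat_lit 9) .nil)))) .nil)) 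
(.lf (nat_lit 51923) (.g (nat_lit 3629) (.e (nat_lit 1352) (nat_lit 102) (.e (nat_lit 286761) (nat_lit 13) (.e (nat_lit 393301) (nat_lit 27) (.e (nat_lit 491546) (nat_lit 9) .nil)))) .nil))) (.nd (nat_lit 6) 
(.lf (nat_lit 51891) (.g (nat_lit 2574) (.e (nat_lit 1351) (nat_lit 102) (.e (nat_lit 286761) (nat_lit 13) (.e (nat_lit 393234) (nat_lit 17) (.e (nat_lit 7936) (nat_lit 406) .nil)))) .nil)) 
(.lf (nat_lit 51955) (.g (nat_lit 2621) (.e (nat_lit 1353) (nat_lit 102) (.e (nat_lit 286735) (nat_lit 3) (.e (nat_lit 98359) (nat_lit 26) (.e (nat_lit 426211) (nat_lit 9) (.e (nat_lit 426125) (nat_lit 2) .nil))))) .nil))))) (.nd (nat_lit 4) (.nd (nat_lit 5) (.nd (nat_lit 6) 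
(.lf (nat_lit 51851) (.g (nat_lit 3284) (.e (nat_lit 1349) (nat_lit 102) (.e (nat_lit 286761) (nat_lit 13) (.e (nat_lit 393301) (nat_lit 27) (.e (nat_lit 491572) (nat_lit 14) .nil)))) .nil)) 
(.lf (nat_lit 51915) (.g (nat_lit 697) (.e (nat_lit 1352) (nat_lit 102) (.e (nat_lit 286761) (nat_lit 13) (.e (nat_lit 393293) (nat_lit 26) .nil))) .nil))) (.nd (nat_lit 6) 
(.lf (nat_lit 51883) (.g (nat_lit 1559) (.e (nat_lit 1351) (nat_lit 102) (.e (nat_lit 286759) (nat_lit 12) (.e (nat_lit 385074) (nat_lit 31) (.e (nat_lit 573485) (nat_lit 13) .nil)))) .nil)) 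
(.lf (nat_lit 51947) (.g (nat_lit 536) (.e (nat_lit 1353) (nat_lit 102) (.e (nat_lit 286734) (nat_lit 3) (.e (nat_lit 98370) (nat_lit 28) .nil))) .nil)))) (.nd (nat_lit 5) (.nd (nat_lit 6) 
(.lf (nat_lit 51867) (.g (nat_lit 4742) (.e (nat_lit 1350) (nat_lit 102) (.e (nat_lit 286761) (nat_lit 13) (.e (nat_lit 393301) (nat_lit 27) (.e (nat_lit 491552) (nat_lit 9) .nil)))) .nil)) 
(.lf (nat_lit 51931) (.g (nat_lit 2267) (.e (nat_lit 1353) (nat_lit 102) (.e (nat_lit 286733) (nat_lit 2) (.e (nat_lit 90170) (nat_lit 13) (.e (nat_lit 172092) (nat_lit 9) .nil)))) .nil))) (.nd (nat_lit 6) 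
(.lf (nat_lit 51899) (.g (nat_lit 2567) (.e (nat_lit 1352) (nat_lit 102) (.e (nat_lit 286735) (nat_lit 3) (.e (nat_lit 98373) (nat_lit 29) (.e (nat_lit 450587) (nat_lit 10) .nil)))) .nil)) 
(.lf (nat_lit 51963) (.g (nat_lit 853) (.e (nat_lit 1353) (nat_lit 102) (.e (nat_lit 286735) (nat_lit 3) (.e (nat_lit 98371) (nat_lit 28) .nil))) .nil)))))) (.nd (nat_lit 3) (.nd (nat_lit 4) (.nd (nat_lit 5) (.nd (nat_lit 6) 
(.lf (nat_lit 51847) (.g (nat_lit 4994) (.e (nat_lit 1349) (nat_lit 102) (.e (nat_lit 286761) (nat_lit 13) (.e (nat_lit 393301) (nat_lit 27) (.e (nat_lit 491560) (nat_lit 10) (.e (nat_lit 344089) (nat_lit 18) .nil))))) .nil)) 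
(.lf (nat_lit 51911) (.g (nat_lit 1746) (.e (nat_lit 1352) (nat_lit 102) (.e (nat_lit 286761) (nat_lit 13) (.e (nat_lit 393234) (nat_lit 17) (.e (nat_lit 7589) (nat_lit 406) .nil)))) .nil))) (.nd (nat_lit 6) 
(.lf (nat_lit 51879) (.g (nat_lit 3558) (.e (nat_lit 1351) (nat_lit 102) (.e (nat_lit 286756) (nat_lit 10) (.e (nat_lit 344126) (nat_lit 25) (.e (nat_lit 548889) (nat_lit 9) (.e (nat_lit 65598) (nat_lit 9) (.e (nat_lit 336013) (nat_lit 2) (.e (nat_lit 98048) (nat_lit 18) .nil))))))) (.g (nat_lit 6) .nil .nil))) 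
(.lf (nat_lit 51943) (.g (nat_lit 2095) (.e (nat_lit 1353) (nat_lit 102) (.e (nat_lit 286733) (nat_lit 2) (.e (nat_lit 90178) (nat_lit 15) (.e (nat_lit 188449) (nat_lit 22) .nil)))) .nil)))) (.nd (nat_lit 5) (.nd (nat_lit 6) 
(.lf (nat_lit 51863) (.g (nat_lit 2464) (.e (nat_lit 1350) (nat_lit 102) (.e (nat_lit 286761) (nat_lit 13) (.e (nat_lit 393234) (nat_lit 17) (.e (nat_lit 7587) (nat_lit 406) .nil)))) .nil)) 
(.lf (nat_lit 51927) (.g (nat_lit 3901) (.e (nat_lit 1352) (nat_lit 102) (.e (nat_lit 286761) (nat_lit 13) (.e (nat_lit 393301) (nat_lit 27) (.e (nat_lit 491552) (nat_lit 9) (.e (nat_lit 336250) (nat_lit 15) (.e (nat_lit 6953) (nat_lit 377) .nil)))))) (.g (nat_lit 6) .nil .nil)))) (.nd (nat_lit 6) 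
(.lf (nat_lit 51895) (.g (nat_lit 3910) (.e (nat_lit 1351) (nat_lit 102) (.e (nat_lit 286761) (nat_lit 13) (.e (nat_lit 393301) (nat_lit 27) (.e (nat_lit 491551) (nat_lit 9) .nil)))) .nil)) 
(.lf (nat_lit 51959) (.g (nat_lit 2042) (.e (nat_lit 1353) (nat_lit 102) (.e (nat_lit 286735) (nat_lit 3) (.e (nat_lit 98370) (nat_lit 28) (.e (nat_lit 442424) (nat_lit 22) .nil)))) .nil))))) (.nd (nat_lit 4) (.nd (nat_lit 5) (.nd (nat_lit 6) 
(.lf (nat_lit 51855) (.g (nat_lit 3133) (.e (nat_lit 1349) (nat_lit 102) (.e (nat_lit 286762) (nat_lit 14) (.e (nat_lit 401458) (nat_lit 13) (.e (nat_lit 483394) (nat_lit 24) (.e (nat_lit 344160) (nat_lit 37) (.e (nat_lit 647203) (nat_lit 14) .nil)))))) (.g (nat_lit 6) .nil .nil))) 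
(.lf (nat_lit 51919) (.g (nat_lit 2039) (.e (nat_lit 1352) (nat_lit 102) (.e (nat_lit 286761) (nat_lit 13) (.e (nat_lit 393300) (nat_lit 27) (.e (nat_lit 491551) (nat_lit 9) .nil)))) .nil))) (.nd (nat_lit 6) 
(.lf (nat_lit 51887) (.g (nat_lit 1806) (.e (nat_lit 1351) (nat_lit 102) (.e (nat_lit 286761) (nat_lit 13) (.e (nat_lit 393234) (nat_lit 17) (.e (nat_lit 7587) (nat_lit 406) (.e (nat_lit 65632) (nat_lit 15) (.e (nat_lit 6953) (nat_lit 377) .nil)))))) (.g (nat_lit 4) .nil .nil))) 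
(.lf (nat_lit 51951) (.g (nat_lit 1427) (.e (nat_lit 1353) (nat_lit 102) (.e (nat_lit 286734) (nat_lit 3) (.e (nat_lit 98372) (nat_lit 29) (.e (nat_lit 450579) (nat_lit 5) .nil)))) .nil)))) (.nd (nat_lit 5) (.nd (nat_lit 6) 
(.lf (nat_lit 51871) (.g (nat_lit 2864) (.e (nat_lit 1351) (nat_lit 102) (.e (nat_lit 286735) (nat_lit 3) (.e (nat_lit 98372) (nat_lit 29) (.e (nat_lit 450579) (nat_lit 5) .nil)))) .nil)) 
(.lf (nat_lit 51935) (.g (nat_lit 2715) (.e (nat_lit 1353) (nat_lit 102) (.e (nat_lit 286733) (nat_lit 2) (.e (nat_lit 90170) (nat_lit 13) (.e (nat_lit 172113) (nat_lit 10) .nil)))) .nil))) (.nd (nat_lit 6) 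
(.lf (nat_lit 51903) (.g (nat_lit 1829) (.e (nat_lit 1352) (nat_lit 102) (.e (nat_lit 286748) (nat_lit 9) (.e (nat_lit 336389) (nat_lit 27) (.e (nat_lit 426012) (nat_lit 0) (.e (nat_lit 7589) (nat_lit 406) (.e (nat_lit 65632) (nat_lit 15) (.e (nat_lit 6953) (nat_lit 377) .nil))))))) (.g (nat_lit 4) .nil .nil))) 
(.lf (nat_lit 51967) (.g (nat_lit 2790) (.e (nat_lit 1353) (nat_lit 102) (.e (nat_lit 286735) (nat_lit 3) (.e (nat_lit 98372) (nat_lit 29) (.e (nat_lit 450579) (nat_lit 5) (.e (nat_lit 532484) (nat_lit 0) (.e (nat_lit 7936) (nat_lit 332) .nil)))))) (.g (nat_lit 5) .nil .nil))))))))))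

noncomputable def tv722 : DT := (.nd (nat_lit 0) (.nd (nat_lit 1) (.nd (nat_lit 2) (.nd (nat_lit 3) (.nd (nat_lit 4) (.nd (nat_lit 5) (.nd (nat_lit 6) 
(.lf (nat_lit 51968) (.g (nat_lit 2373) (.e (nat_lit 1353) (nat_lit 102) (.e (nat_lit 286735) (nat_lit 3) (.e (nat_lit 98372) (nat_lit 29) (.e (nat_lit 450579) (nat_lit 5) (.e (nat_lit 532488) (nat_lit 0) (.e (nat_lit 7936) (nat_lit 332) .nil)))))) (.g (nat_lit 4) .nil .nil))) 
(.lf (nat_lit 52032) (.g (nat_lit 2761) (.e (nat_lit 1353) (nat_lit 102) (.e (nat_lit 286761) (nat_lit 13) (.e (nat_lit 393298) (nat_lit 27) (.e (nat_lit 491565) (nat_lit 12) (.e (nat_lit 385037) (nat_lit 16) .nil))))) (.g (nat_lit 4) .nil .nil)))) (.nd (nat_lit 6) 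
(.lf (nat_lit 52000) (.g (nat_lit 2542) (.e (nat_lit 1353) (nat_lit 102) (.e (nat_lit 286759) (nat_lit 12) (.e (nat_lit 385074) (nat_lit 31) (.e (nat_lit 573484) (nat_lit 13) (.e (nat_lit 65617) (nat_lit 10) .nil))))) .nil)) 
(.lf (nat_lit 52064) (.g (nat_lit 3511) (.e (nat_lit 1353) (nat_lit 102) (.e (nat_lit 286761) (nat_lit 13) (.e (nat_lit 393301) (nat_lit 27) (.e (nat_lit 491560) (nat_lit 10) .nil)))) .nil)))) (.nd (nat_lit 5) (.nd (nat_lit 6) 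
(.lf (nat_lit 51984) (.g (nat_lit 4270) (.e (nat_lit 1353) (nat_lit 102) (.e (nat_lit 286735) (nat_lit 3) (.e (nat_lit 98373) (nat_lit 29) (.e (nat_lit 450588) (nat_lit 10) (.e (nat_lit 573452) (nat_lit 9) (.e (nat_lit 13) (nat_lit 0) (.e (nat_lit 6956) (nat_lit 377) .nil))))))) (.g (nat_lit 6) .nil .nil))) 
(.lf (nat_lit 52048) (.g (nat_lit 4680) (.e (nat_lit 1353) (nat_lit 102) (.e (nat_lit 286761) (nat_lit 13) (.e (nat_lit 393301) (nat_lit 27) (.e (nat_lit 491551) (nat_lit 9) (.e (nat_lit 336250) (nat_lit 15) .nil))))) .nil))) (.nd (nat_lit 6) 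
(.lf (nat_lit 52016) (.g (nat_lit 2558) (.e (nat_lit 1353) (nat_lit 102) (.e (nat_lit 286761) (nat_lit 13) (.e (nat_lit 393234) (nat_lit 17) (.e (nat_lit 7587) (nat_lit 406) (.e (nat_lit 65632) (nat_lit 15) .nil))))) .nil)) 
(.lf (nat_lit 52080) (.g (nat_lit 746) (.e (nat_lit 1354) (nat_lit 102) (.e (nat_lit 286761) (nat_lit 13) (.e (nat_lit 393301) (nat_lit 27) .nil))) .nil))))) (.nd (nat_lit 4) (.nd (nat_lit 5) (.nd (nat_lit 6) 
(.lf (nat_lit 51976) (.g (nat_lit 2599) (.e (nat_lit 1353) (nat_lit 102) (.e (nat_lit 286735) (nat_lit 3) (.e (nat_lit 98373) (nat_lit 29) (.e (nat_lit 450587) (nat_lit 10) (.e (nat_lit 573457) (nat_lit 9) (.e (nat_lit 16) (nat_lit 0) (.e (nat_lit 7046) (nat_lit 377) .nil))))))) (.g (nat_lit 4) .nil .nil))) 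
(.lf (nat_lit 52040) (.g (nat_lit 2933) (.e (nat_lit 1353) (nat_lit 102) (.e (nat_lit 286761) (nat_lit 13) (.e (nat_lit 393300) (nat_lit 27) (.e (nat_lit 491564) (nat_lit 12) (.e (nat_lit 385037) (nat_lit 16) .nil))))) (.g (nat_lit 5) .nil .nil)))) (.nd (nat_lit 6) 
(.lf (nat_lit 52008) (.g (nat_lit 2654) (.e (nat_lit 1353) (nat_lit 102) (.e (nat_lit 286759) (nat_lit 12) (.e (nat_lit 385106) (nat_lit 50) (.e (nat_lit 786483) (nat_lit 30) (.e (nat_lit 360484) (nat_lit 15) (.e (nat_lit 655104) (nat_lit 14) .nil)))))) (.g (nat_lit 5) .nil .nil))) 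
(.lf (nat_lit 52072) (.g (nat_lit 3270) (.e (nat_lit 1353) (nat_lit 102) (.e (nat_lit 286761) (nat_lit 13) (.e (nat_lit 393301) (nat_lit 27) (.e (nat_lit 491563) (nat_lit 12) (.e (nat_lit 392960) (nat_lit 16) .nil))))) (.g (nat_lit 4) .nil .nil))))) (.nd (nat_lit 5) (.nd (nat_lit 6) 
(.lf (nat_lit 51992) (.g (nat_lit 1411) (.e (nat_lit 1353) (nat_lit 102) (.e (nat_lit 286735) (nat_lit 3) (.e (nat_lit 98381) (nat_lit 31) (.e (nat_lit 466977) (nat_lit 22) .nil)))) .nil)) 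
(.lf (nat_lit 52056) (.g (nat_lit 3706) (.e (nat_lit 1353) (nat_lit 102) (.e (nat_lit 286761) (nat_lit 13) (.e (nat_lit 393301) (nat_lit 27) (.e (nat_lit 491556) (nat_lit 9) .nil)))) .nil))) (.nd (nat_lit 6) 
(.lf (nat_lit 52024) (.g (nat_lit 1953) (.e (nat_lit 1353) (nat_lit 102) (.e (nat_lit 286761) (nat_lit 13) (.e (nat_lit 393291) (nat_lit 26) (.e (nat_lit 475219) (nat_lit 44) .nil)))) .nil)) 
(.lf (nat_lit 52088) (.g (nat_lit 1995) (.e (nat_lit 1355) (nat_lit 102) (.e (nat_lit 286733) (nat_lit 2) (.e (nat_lit 90177) (nat_lit 15) (.e (nat_lit 188449) (nat_lit 22) .nil)))) .nil)))))) (.nd (nat_lit 3) (.nd (nat_lit 4) (.nd (nat_lit 5) (.nd (nat_lit 6) 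
(.lf (nat_lit 51972) (.g (nat_lit 2319) (.e (nat_lit 1353) (nat_lit 102) (.e (nat_lit 286735) (nat_lit 3) (.e (nat_lit 98373) (nat_lit 29) (.e (nat_lit 450587) (nat_lit 10) (.e (nat_lit 573457) (nat_lit 9) .nil))))) .nil)) 
(.lf (nat_lit 52036) (.g (nat_lit 1745) (.e (nat_lit 1353) (nat_lit 102) (.e (nat_lit 286761) (nat_lit 13) (.e (nat_lit 393300) (nat_lit 27) (.e (nat_lit 491547) (nat_lit 9) .nil)))) .nil))) (.nd (nat_lit 6) 
(.lf (nat_lit 52004) (.g (nat_lit 2221) (.e (nat_lit 1353) (nat_lit 102) (.e (nat_lit 286759) (nat_lit 12) (.e (nat_lit 385094) (nat_lit 49) (.e (nat_lit 778326) (nat_lit 6) .nil)))) .nil)) 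
(.lf (nat_lit 52068) (.g (nat_lit 5732) (.e (nat_lit 1353) (nat_lit 102) (.e (nat_lit 286761) (nat_lit 13) (.e (nat_lit 393301) (nat_lit 27) (.e (nat_lit 491560) (nat_lit 10) (.e (nat_lit 344172) (nat_lit 41) .nil))))) .nil)))) (.nd (nat_lit 5) (.nd (nat_lit 6) 
(.lf (nat_lit 51988) (.g (nat_lit 4420) (.e (nat_lit 1353) (nat_lit 102) (.e (nat_lit 286735) (nat_lit 3) (.e (nat_lit 98373) (nat_lit 29) (.e (nat_lit 450588) (nat_lit 10) (.e (nat_lit 573467) (nat_lit 10) .nil))))) .nil)) 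
(.lf (nat_lit 52052) (.g (nat_lit 3311) (.e (nat_lit 1353) (nat_lit 102) (.e (nat_lit 286761) (nat_lit 13) (.e (nat_lit 393301) (nat_lit 27) (.e (nat_lit 491552) (nat_lit 9) (.e (nat_lit 336250) (nat_lit 15) (.e (nat_lit 6956) (nat_lit 377) .nil)))))) (.g (nat_lit 4) .nil .nil)))) (.nd (nat_lit 6) 
(.lf (nat_lit 52020) (.g (nat_lit 2735) (.e (nat_lit 1353) (nat_lit 102) (.e (nat_lit 286761) (nat_lit 13) (.e (nat_lit 393234) (nat_lit 17) (.e (nat_lit 7936) (nat_lit 406) .nil)))) .nil)) 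
(.lf (nat_lit 52084) (.g (nat_lit 3997) (.e (nat_lit 1355) (nat_lit 102) (.e (nat_lit 286733) (nat_lit 2) (.e (nat_lit 90170) (nat_lit 13) (.e (nat_lit 172106) (nat_lit 10) (.e (nat_lit 434231) (nat_lit 23) (.e (nat_lit 532490) (nat_lit 0) (.e (nat_lit 6149) (nat_lit 332) .nil))))))) (.g (nat_lit 7) .nil .nil)))))) (.nd (nat_lit 4) (.nd (nat_lit 5) (.nd (nat_lit 6) 
(.lf (nat_lit 51980) (.g (nat_lit 3504) (.e (nat_lit 1353) (nat_lit 102) (.e (nat_lit 286735) (nat_lit 3) (.e (nat_lit 98373) (nat_lit 29) (.e (nat_lit 450588) (nat_lit 10) (.e (nat_lit 573452) (nat_lit 9) (.e (nat_lit 11) (nat_lit 0) (.e (nat_lit 6957) (nat_lit 377) .nil))))))) (.g (nat_lit 4) .nil .nil))) 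
(.lf (nat_lit 52044) (.g (nat_lit 4829) (.e (nat_lit 1353) (nat_lit 102) (.e (nat_lit 286761) (nat_lit 13) (.e (nat_lit 393301) (nat_lit 27) (.e (nat_lit 491546) (nat_lit 9) (.e (nat_lit 336245) (nat_lit 15) .nil))))) .nil))) (.nd (nat_lit 6) 
(.lf (nat_lit 52012) (.g (nat_lit 937) (.e (nat_lit 1353) (nat_lit 102) (.e (nat_lit 286761) (nat_lit 13) (.e (nat_lit 393233) (nat_lit 17) .nil))) .nil)) 
(.lf (nat_lit 52076) (.g (nat_lit 961) (.e (nat_lit 1354) (nat_lit 102) (.e (nat_lit 286735) (nat_lit 3) (.e (nat_lit 98373) (nat_lit 29) .nil))) .nil)))) (.nd (nat_lit 5) (.nd (nat_lit 6) 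
(.lf (nat_lit 51996) (.g (nat_lit 3681) (.e (nat_lit 1353) (nat_lit 102) (.e (nat_lit 286756) (nat_lit 10) (.e (nat_lit 344126) (nat_lit 25) (.e (nat_lit 548889) (nat_lit 9) (.e (nat_lit 65598) (nat_lit 9) (.e (nat_lit 336013) (nat_lit 2) (.e (nat_lit 98048) (nat_lit 18) .nil))))))) (.g (nat_lit 6) .nil .nil))) 
(.lf (nat_lit 52060) (.g (nat_lit 5045) (.e (nat_lit 1353) (nat_lit 102) (.e (nat_lit 286761) (nat_lit 13) (.e (nat_lit 393301) (nat_lit 27) (.e (nat_lit 491558) (nat_lit 10) (.e (nat_lit 344091) (nat_lit 18) .nil))))) .nil))) (.nd (nat_lit 6) 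
(.lf (nat_lit 52028) (.g (nat_lit 737) (.e (nat_lit 1353) (nat_lit 102) (.e (nat_lit 286761) (nat_lit 13) (.e (nat_lit 393298) (nat_lit 27) .nil))) .nil)) 
(.lf (nat_lit 52092) (.g (nat_lit 2094) (.e (nat_lit 1355) (nat_lit 102) (.e (nat_lit 286734) (nat_lit 3) (.e (nat_lit 98370) (nat_lit 28) (.e (nat_lit 442427) (nat_lit 23) (.e (nat_lit 204821) (nat_lit 17) .nil))))) .nil))))))) (.nd (nat_lit 2) (.nd (nat_lit 3) (.nd (nat_lit 4) (.nd (nat_lit 5) (.nd (nat_lit 6) 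
(.lf (nat_lit 51970) (.g (nat_lit 2481) (.e (nat_lit 1353) (nat_lit 102) (.e (nat_lit 286735) (nat_lit 3) (.e (nat_lit 98373) (nat_lit 29) (.e (nat_lit 458496) (nat_lit 1) .nil)))) .nil)) 
(.lf (nat_lit 52034) (.g (nat_lit 911) (.e (nat_lit 1353) (nat_lit 102) (.e (nat_lit 286761) (nat_lit 13) (.e (nat_lit 393299) (nat_lit 27) .nil))) .nil))) (.nd (nat_lit 6) 
(.lf (nat_lit 52002) (.g (nat_lit 2278) (.e (nat_lit 1353) (nat_lit 102) (.e (nat_lit 286759) (nat_lit 12) (.e (nat_lit 385074) (nat_lit 31) (.e (nat_lit 573491) (nat_lit 15) .nil)))) .nil)) 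
(.lf (nat_lit 52066) (.g (nat_lit 5531) (.e (nat_lit 1353) (nat_lit 102) (.e (nat_lit 286761) (nat_lit 13) (.e (nat_lit 393301) (nat_lit 27) (.e (nat_lit 491560) (nat_lit 10) (.e (nat_lit 344170) (nat_lit 41) .nil))))) .nil)))) (.nd (nat_lit 5) (.nd (nat_lit 6) 
(.lf (nat_lit 51986) (.g (nat_lit 4278) (.e (nat_lit 1353) (nat_lit 102) (.e (nat_lit 286735) (nat_lit 3) (.e (nat_lit 98373) (nat_lit 29) (.e (nat_lit 450588) (nat_lit 10) (.e (nat_lit 573452) (nat_lit 9) (.e (nat_lit 16) (nat_lit 0) (.e (nat_lit 7046) (nat_lit 377) .nil))))))) (.g (nat_lit 6) .nil .nil))) 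
(.lf (nat_lit 52050) (.g (nat_lit 3449) (.e (nat_lit 1353) (nat_lit 102) (.e (nat_lit 286761) (nat_lit 13) (.e (nat_lit 393301) (nat_lit 27) (.e (nat_lit 491552) (nat_lit 9) (.e (nat_lit 336248) (nat_lit 15) .nil))))) .nil))) (.nd (nat_lit 6) 
(.lf (nat_lit 52018) (.g (nat_lit 2715) (.e (nat_lit 1353) (nat_lit 102) (.e (nat_lit 286761) (nat_lit 13) (.e (nat_lit 393234) (nat_lit 17) (.e (nat_lit 7589) (nat_lit 406) (.e (nat_lit 65632) (nat_lit 15) (.e (nat_lit 6956) (nat_lit 377) .nil)))))) (.g (nat_lit 4) .nil .nil))) 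
(.lf (nat_lit 52082) (.g (nat_lit 3316) (.e (nat_lit 1355) (nat_lit 102) (.e (nat_lit 286733) (nat_lit 2) (.e (nat_lit 90170) (nat_lit 13) (.e (nat_lit 172097) (nat_lit 9) .nil)))) .nil))))) (.nd (nat_lit 4) (.nd (nat_lit 5) (.nd (nat_lit 6) 
(.lf (nat_lit 51978) (.g (nat_lit 3479) (.e (nat_lit 1353) (nat_lit 102) (.e (nat_lit 286735) (nat_lit 3) (.e (nat_lit 98373) (nat_lit 29) (.e (nat_lit 450588) (nat_lit 10) (.e (nat_lit 573452) (nat_lit 9) .nil))))) .nil)) 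
(.lf (nat_lit 52042) (.g (nat_lit 3640) (.e (nat_lit 1353) (nat_lit 102) (.e (nat_lit 286761) (nat_lit 13) (.e (nat_lit 393301) (nat_lit 27) (.e (nat_lit 491546) (nat_lit 9) .nil)))) .nil))) (.nd (nat_lit 6) 
(.lf (nat_lit 52010) (.g (nat_lit 3394) (.e (nat_lit 1353) (nat_lit 102) (.e (nat_lit 286760) (nat_lit 13) (.e (nat_lit 393298) (nat_lit 27) (.e (nat_lit 491566) (nat_lit 12) (.e (nat_lit 385037) (nat_lit 16) .nil))))) (.g (nat_lit 4) .nil .nil))) 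
(.lf (nat_lit 52074) (.g (nat_lit 3558) (.e (nat_lit 1354) (nat_lit 102) (.e (nat_lit 286733) (nat_lit 2) (.e (nat_lit 90170) (nat_lit 13) (.e (nat_lit 172097) (nat_lit 9) .nil)))) .nil)))) (.nd (nat_lit 5) (.nd (nat_lit 6) 
(.lf (nat_lit 51994) (.g (nat_lit 1806) (.e (nat_lit 1353) (nat_lit 102) (.e (nat_lit 286735) (nat_lit 3) (.e (nat_lit 98382) (nat_lit 31) (.e (nat_lit 466976) (nat_lit 22) .nil)))) .nil)) 
(.lf (nat_lit 52058) (.g (nat_lit 3825) (.e (nat_lit 1353) (nat_lit 102) (.e (nat_lit 286761) (nat_lit 13) (.e (nat_lit 393301) (nat_lit 27) (.e (nat_lit 499456) (nat_lit 9) .nil)))) .nil))) (.nd (nat_lit 6) 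
(.lf (nat_lit 52026) (.g (nat_lit 2102) (.e (nat_lit 1353) (nat_lit 102) (.e (nat_lit 286761) (nat_lit 13) (.e (nat_lit 393293) (nat_lit 26) (.e (nat_lit 483072) (nat_lit 40) .nil)))) .nil)) 
(.lf (nat_lit 52090) (.g (nat_lit 2316) (.e (nat_lit 1355) (nat_lit 102) (.e (nat_lit 286733) (nat_lit 2) (.e (nat_lit 90178) (nat_lit 15) (.e (nat_lit 188448) (nat_lit 22) .nil)))) .nil)))))) (.nd (nat_lit 3) (.nd (nat_lit 4) (.nd (nat_lit 5) (.nd (nat_lit 6) 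
(.lf (nat_lit 51974) (.g (nat_lit 2620) (.e (nat_lit 1353) (nat_lit 102) (.e (nat_lit 286735) (nat_lit 3) (.e (nat_lit 98373) (nat_lit 29) (.e (nat_lit 450587) (nat_lit 10) (.e (nat_lit 573457) (nat_lit 9) (.e (nat_lit 13) (nat_lit 0) (.e (nat_lit 6956) (nat_lit 377) .nil))))))) (.g (nat_lit 4) .nil .nil))) 
(.lf (nat_lit 52038) (.g (nat_lit 1925) (.e (nat_lit 1353) (nat_lit 102) (.e (nat_lit 286761) (nat_lit 13) (.e (nat_lit 393300) (nat_lit 27) (.e (nat_lit 491552) (nat_lit 9) .nil)))) .nil))) (.nd (nat_lit 6) 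
(.lf (nat_lit 52006) (.g (nat_lit 1393) (.e (nat_lit 1353) (nat_lit 102) (.e (nat_lit 286759) (nat_lit 12) (.e (nat_lit 385105) (nat_lit 50) (.e (nat_lit 786483) (nat_lit 30) .nil)))) .nil)) 
(.lf (nat_lit 52070) (.g (nat_lit 4015) (.e (nat_lit 1353) (nat_lit 102) (.e (nat_lit 286761) (nat_lit 13) (.e (nat_lit 393301) (nat_lit 27) (.e (nat_lit 491562) (nat_lit 12) (.e (nat_lit 385037) (nat_lit 16) .nil))))) (.g (nat_lit 4) .nil .nil))))) (.nd (nat_lit 5) (.nd (nat_lit 6) 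
(.lf (nat_lit 51990) (.g (nat_lit 1442) (.e (nat_lit 1353) (nat_lit 102) (.e (nat_lit 286735) (nat_lit 3) (.e (nat_lit 98381) (nat_lit 31) (.e (nat_lit 466976) (nat_lit 22) .nil)))) .nil)) 
(.lf (nat_lit 52054) (.g (nat_lit 3427) (.e (nat_lit 1353) (nat_lit 102) (.e (nat_lit 286761) (nat_lit 13) (.e (nat_lit 393301) (nat_lit 27) (.e (nat_lit 491552) (nat_lit 9) (.e (nat_lit 336250) (nat_lit 15) (.e (nat_lit 7048) (nat_lit 377) .nil)))))) (.g (nat_lit 5) .nil .nil)))) (.nd (nat_lit 6) 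
(.lf (nat_lit 52022) (.g (nat_lit 2090) (.e (nat_lit 1353) (nat_lit 102) (.e (nat_lit 286761) (nat_lit 13) (.e (nat_lit 393265) (nat_lit 22) (.e (nat_lit 417820) (nat_lit 10) .nil)))) .nil)) 
(.lf (nat_lit 52086) (.g (nat_lit 2532) (.e (nat_lit 1355) (nat_lit 102) (.e (nat_lit 286733) (nat_lit 2) (.e (nat_lit 90176) (nat_lit 15) (.e (nat_lit 188449) (nat_lit 22) .nil)))) .nil))))) (.nd (nat_lit 4) (.nd (nat_lit 5) (.nd (nat_lit 6) 
(.lf (nat_lit 51982) (.g (nat_lit 3669) (.e (nat_lit 1353) (nat_lit 102) (.e (nat_lit 286735) (nat_lit 3) (.e (nat_lit 98373) (nat_lit 29) (.e (nat_lit 450588) (nat_lit 10) (.e (nat_lit 573452) (nat_lit 9) (.e (nat_lit 11) (nat_lit 0) (.e (nat_lit 7047) (nat_lit 377) .nil))))))) (.g (nat_lit 4) .nil .nil))) 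
(.lf (nat_lit 52046) (.g (nat_lit 4219) (.e (nat_lit 1353) (nat_lit 102) (.e (nat_lit 286761) (nat_lit 13) (.e (nat_lit 393301) (nat_lit 27) (.e (nat_lit 491547) (nat_lit 9) (.e (nat_lit 336242) (nat_lit 15) .nil))))) .nil))) (.nd (nat_lit 6) 
(.lf (nat_lit 52014) (.g (nat_lit 2566) (.e (nat_lit 1353) (nat_lit 102) (.e (nat_lit 286761) (nat_lit 13) (.e (nat_lit 393234) (nat_lit 17) (.e (nat_lit 7536) (nat_lit 402) .nil)))) .nil)) 
(.lf (nat_lit 52078) (.g (nat_lit 1310) (.e (nat_lit 1354) (nat_lit 102) (.e (nat_lit 286759) (nat_lit 12) (.e (nat_lit 385074) (nat_lit 31) .nil))) .nil)))) (.nd (nat_lit 5) (.nd (nat_lit 6) 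
(.lf (nat_lit 51998) (.g (nat_lit 3269) (.e (nat_lit 1353) (nat_lit 102) (.e (nat_lit 286759) (nat_lit 12) (.e (nat_lit 385074) (nat_lit 31) (.e (nat_lit 573482) (nat_lit 13) .nil)))) .nil)) 
(.lf (nat_lit 52062) (.g (nat_lit 5369) (.e (nat_lit 1353) (nat_lit 102) (.e (nat_lit 286761) (nat_lit 13) (.e (nat_lit 393301) (nat_lit 27) (.e (nat_lit 491558) (nat_lit 10) (.e (nat_lit 344172) (nat_lit 41) .nil))))) .nil))) (.nd (nat_lit 6) 
(.lf (nat_lit 52030) (.g (nat_lit 2377) (.e (nat_lit 1353) (nat_lit 102) (.e (nat_lit 286761) (nat_lit 13) (.e (nat_lit 393298) (nat_lit 27) (.e (nat_lit 491550) (nat_lit 9) (.e (nat_lit 336242) (nat_lit 15) .nil))))) .nil)) 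
(.lf (nat_lit 52094) (.g (nat_lit 545) (.e (nat_lit 1355) (nat_lit 102) (.e (nat_lit 286734) (nat_lit 3) (.e (nat_lit 98381) (nat_lit 31) .nil))) .nil)))))))) (.nd (nat_lit 1) (.nd (nat_lit 2) (.nd (nat_lit 3) (.nd (nat_lit 4) (.nd (nat_lit 5) (.nd (nat_lit 6) 
(.lf (nat_lit 51969) (.g (nat_lit 2697) (.e (nat_lit 1353) (nat_lit 102) (.e (nat_lit 286735) (nat_lit 3) (.e (nat_lit 98372) (nat_lit 29) (.e (nat_lit 450579) (nat_lit 5) (.e (nat_lit 532489) (nat_lit 0) (.e (nat_lit 7936) (nat_lit 332) .nil)))))) (.g (nat_lit 5) .nil .nil))) 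
(.lf (nat_lit 52033) (.g (nat_lit 4021) (.e (nat_lit 1353) (nat_lit 102) (.e (nat_lit 286761) (nat_lit 13) (.e (nat_lit 393298) (nat_lit 27) (.e (nat_lit 491566) (nat_lit 12) (.e (nat_lit 385037) (nat_lit 16) .nil))))) .nil))) (.nd (nat_lit 6) 
(.lf (nat_lit 52001) (.g (nat_lit 2114) (.e (nat_lit 1353) (nat_lit 102) (.e (nat_lit 286759) (nat_lit 12) (.e (nat_lit 385074) (nat_lit 31) (.e (nat_lit 573485) (nat_lit 13) .nil)))) .nil)) 
(.lf (nat_lit 52065) (.g (nat_lit 5554) (.e (nat_lit 1353) (nat_lit 102) (.e (nat_lit 286761) (nat_lit 13) (.e (nat_lit 393301) (nat_lit 27) (.e (nat_lit 491560) (nat_lit 10) (.e (nat_lit 344088) (nat_lit 18) .nil))))) .nil)))) (.nd (nat_lit 5) (.nd (nat_lit 6) 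
(.lf (nat_lit 51985) (.g (nat_lit 4389) (.e (nat_lit 1353) (nat_lit 102) (.e (nat_lit 286735) (nat_lit 3) (.e (nat_lit 98373) (nat_lit 29) (.e (nat_lit 450588) (nat_lit 10) (.e (nat_lit 573452) (nat_lit 9) (.e (nat_lit 13) (nat_lit 0) (.e (nat_lit 7048) (nat_lit 377) .nil))))))) (.g (nat_lit 6) .nil .nil))) 
(.lf (nat_lit 52049) (.g (nat_lit 2548) (.e (nat_lit 1353) (nat_lit 102) (.e (nat_lit 286761) (nat_lit 13) (.e (nat_lit 393301) (nat_lit 27) (.e (nat_lit 491552) (nat_lit 9) .nil)))) .nil))) (.nd (nat_lit 6) 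
(.lf (nat_lit 52017) (.g (nat_lit 1828) (.e (nat_lit 1353) (nat_lit 102) (.e (nat_lit 286761) (nat_lit 13) (.e (nat_lit 393234) (nat_lit 17) (.e (nat_lit 7589) (nat_lit 406) .nil)))) .nil)) 
(.lf (nat_lit 52081) (.g (nat_lit 4938) (.e (nat_lit 1354) (nat_lit 102) (.e (nat_lit 286761) (nat_lit 13) (.e (nat_lit 393301) (nat_lit 27) (.e (nat_lit 491552) (nat_lit 9) .nil)))) .nil))))) (.nd (nat_lit 4) (.nd (nat_lit 5) (.nd (nat_lit 6) 
(.lf (nat_lit 51977) (.g (nat_lit 2146) (.e (nat_lit 1353) (nat_lit 102) (.e (nat_lit 286735) (nat_lit 3) (.e (nat_lit 98373) (nat_lit 29) (.e (nat_lit 450588) (nat_lit 10) .nil)))) .nil)) 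
(.lf (nat_lit 52041) (.g (nat_lit 2784) (.e (nat_lit 1353) (nat_lit 102) (.e (nat_lit 286761) (nat_lit 13) (.e (nat_lit 393300) (nat_lit 27) (.e (nat_lit 491565) (nat_lit 12) (.e (nat_lit 385037) (nat_lit 16) .nil))))) .nil))) (.nd (nat_lit 6) 
(.lf (nat_lit 52009) (.g (nat_lit 2031) (.e (nat_lit 1353) (nat_lit 102) (.e (nat_lit 286759) (nat_lit 12) (.e (nat_lit 385107) (nat_lit 51) (.e (nat_lit 794684) (nat_lit 25) .nil)))) .nil)) 
(.lf (nat_lit 52073) (.g (nat_lit 3825) (.e (nat_lit 1353) (nat_lit 102) (.e (nat_lit 286761) (nat_lit 13) (.e (nat_lit 393301) (nat_lit 27) (.e (nat_lit 499456) (nat_lit 12) .nil)))) .nil)))) (.nd (nat_lit 5) (.nd (nat_lit 6) 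
(.lf (nat_lit 51993) (.g (nat_lit 842) (.e (nat_lit 1353) (nat_lit 102) (.e (nat_lit 286735) (nat_lit 3) (.e (nat_lit 98382) (nat_lit 31) .nil))) .nil)) 
(.lf (nat_lit 52057) (.g (nat_lit 4662) (.e (nat_lit 1353) (nat_lit 102) (.e (nat_lit 286761) (nat_lit 13) (.e (nat_lit 393301) (nat_lit 27) (.e (nat_lit 491556) (nat_lit 9) (.e (nat_lit 343808) (nat_lit 15) .nil))))) .nil))) (.nd (nat_lit 6) 
(.lf (nat_lit 52025) (.g (nat_lit 929) (.e (nat_lit 1353) (nat_lit 102) (.e (nat_lit 286761) (nat_lit 13) (.e (nat_lit 393293) (nat_lit 26) .nil))) .nil)) 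
(.lf (nat_lit 52089) (.g (nat_lit 2343) (.e (nat_lit 1355) (nat_lit 102) (.e (nat_lit 286733) (nat_lit 2) (.e (nat_lit 90178) (nat_lit 15) (.e (nat_lit 188447) (nat_lit 22) .nil)))) .nil)))))) (.nd (nat_lit 3) (.nd (nat_lit 4) (.nd (nat_lit 5) (.nd (nat_lit 6) 
(.lf (nat_lit 51973) (.g (nat_lit 2586) (.e (nat_lit 1353) (nat_lit 102) (.e (nat_lit 286735) (nat_lit 3) (.e (nat_lit 98373) (nat_lit 29) (.e (nat_lit 450587) (nat_lit 10) (.e (nat_lit 573457) (nat_lit 9) (.e (nat_lit 13) (nat_lit 0) (.e (nat_lit 6947) (nat_lit 377) .nil))))))) (.g (nat_lit 4) .nil .nil))) 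
(.lf (nat_lit 52037) (.g (nat_lit 1679) (.e (nat_lit 1353) (nat_lit 102) (.e (nat_lit 286761) (nat_lit 13) (.e (nat_lit 393300) (nat_lit 27) (.e (nat_lit 491549) (nat_lit 9) .nil)))) .nil))) (.nd (nat_lit 6) 
(.lf (nat_lit 52005) (.g (nat_lit 2229) (.e (nat_lit 1353) (nat_lit 102) (.e (nat_lit 286759) (nat_lit 12) (.e (nat_lit 385094) (nat_lit 49) (.e (nat_lit 778327) (nat_lit 6) .nil)))) .nil)) 
(.lf (nat_lit 52069) (.g (nat_lit 2953) (.e (nat_lit 1353) (nat_lit 102) (.e (nat_lit 286761) (nat_lit 13) (.e (nat_lit 393301) (nat_lit 27) (.e (nat_lit 491562) (nat_lit 12) .nil)))) .nil)))) (.nd (nat_lit 5) (.nd (nat_lit 6) 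
(.lf (nat_lit 51989) (.g (nat_lit 915) (.e (nat_lit 1353) (nat_lit 102) (.e (nat_lit 286735) (nat_lit 3) (.e (nat_lit 98379) (nat_lit 31) .nil))) .nil)) 
(.lf (nat_lit 52053) (.g (nat_lit 3163) (.e (nat_lit 1353) (nat_lit 102) (.e (nat_lit 286761) (nat_lit 13) (.e (nat_lit 393301) (nat_lit 27) (.e (nat_lit 491552) (nat_lit 9) (.e (nat_lit 336250) (nat_lit 15) (.e (nat_lit 7047) (nat_lit 377) .nil)))))) (.g (nat_lit 4) .nil .nil)))) (.nd (nat_lit 6) 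
(.lf (nat_lit 52021) (.g (nat_lit 911) (.e (nat_lit 1353) (nat_lit 102) (.e (nat_lit 286761) (nat_lit 13) (.e (nat_lit 393237) (nat_lit 17) .nil))) .nil)) 
(.lf (nat_lit 52085) (.g (nat_lit 2093) (.e (nat_lit 1355) (nat_lit 102) (.e (nat_lit 286733) (nat_lit 2) (.e (nat_lit 90170) (nat_lit 13) (.e (nat_lit 172106) (nat_lit 10) (.e (nat_lit 434231) (nat_lit 23) (.e (nat_lit 532490) (nat_lit 0) (.e (nat_lit 7936) (nat_lit 332) .nil))))))) (.g (nat_lit 4) .nil .nil)))))) (.nd (nat_lit 4) (.nd (nat_lit 5) (.nd (nat_lit 6) 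
(.lf (nat_lit 51981) (.g (nat_lit 4561) (.e (nat_lit 1353) (nat_lit 102) (.e (nat_lit 286735) (nat_lit 3) (.e (nat_lit 98373) (nat_lit 29) (.e (nat_lit 450588) (nat_lit 10) (.e (nat_lit 573452) (nat_lit 9) (.e (nat_lit 11) (nat_lit 0) (.e (nat_lit 7044) (nat_lit 377) .nil))))))) (.g (nat_lit 5) .nil .nil))) 
(.lf (nat_lit 52045) (.g (nat_lit 3434) (.e (nat_lit 1353) (nat_lit 102) (.e (nat_lit 286761) (nat_lit 13) (.e (nat_lit 393301) (nat_lit 27) (.e (nat_lit 491547) (nat_lit 9) .nil)))) .nil))) (.nd (nat_lit 6) 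
(.lf (nat_lit 52013) (.g (nat_lit 581) (.e (nat_lit 1353) (nat_lit 102) (.e (nat_lit 286761) (nat_lit 13) (.e (nat_lit 393234) (nat_lit 17) .nil))) .nil)) 
(.lf (nat_lit 52077) (.g (nat_lit 3050) (.e (nat_lit 1354) (nat_lit 102) (.e (nat_lit 286735) (nat_lit 3) (.e (nat_lit 98373) (nat_lit 29) (.e (nat_lit 450588) (nat_lit 10) .nil)))) .nil)))) (.nd (nat_lit 5) (.nd (nat_lit 6) 
(.lf (nat_lit 51997) (.g (nat_lit 3378) (.e (nat_lit 1353) (nat_lit 102) (.e (nat_lit 286759) (nat_lit 12) (.e (nat_lit 385074) (nat_lit 31) (.e (nat_lit 573449) (nat_lit 9) .nil)))) .nil)) 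
(.lf (nat_lit 52061) (.g (nat_lit 5480) (.e (nat_lit 1353) (nat_lit 102) (.e (nat_lit 286761) (nat_lit 13) (.e (nat_lit 393301) (nat_lit 27) (.e (nat_lit 491558) (nat_lit 10) (.e (nat_lit 344171) (nat_lit 41) .nil))))) .nil))) (.nd (nat_lit 6) 
(.lf (nat_lit 52029) (.g (nat_lit 1653) (.e (nat_lit 1353) (nat_lit 102) (.e (nat_lit 286761) (nat_lit 13) (.e (nat_lit 393298) (nat_lit 27) (.e (nat_lit 491549) (nat_lit 9) .nil)))) .nil)) 
(.lf (nat_lit 52093) (.g (nat_lit 2300) (.e (nat_lit 1355) (nat_lit 102) (.e (nat_lit 286734) (nat_lit 3) (.e (nat_lit 98372) (nat_lit 29) (.e (nat_lit 450579) (nat_lit 5) (.e (nat_lit 532484) (nat_lit 0) .nil))))) .nil))))))) (.nd (nat_lit 2) (.nd (nat_lit 3) (.nd (nat_lit 4) (.nd (nat_lit 5) (.nd (nat_lit 6) 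
(.lf (nat_lit 51971) (.g (nat_lit 2023) (.e (nat_lit 1353) (nat_lit 102) (.e (nat_lit 286735) (nat_lit 3) (.e (nat_lit 98373) (nat_lit 29) (.e (nat_lit 450587) (nat_lit 10) .nil)))) .nil)) 
(.lf (nat_lit 52035) (.g (nat_lit 721) (.e (nat_lit 1353) (nat_lit 102) (.e (nat_lit 286761) (nat_lit 13) (.e (nat_lit 393300) (nat_lit 27) .nil))) .nil))) (.nd (nat_lit 6) 
(.lf (nat_lit 52003) (.g (nat_lit 2740) (.e (nat_lit 1353) (nat_lit 102) (.e (nat_lit 286759) (nat_lit 12) (.e (nat_lit 385074) (nat_lit 31) (.e (nat_lit 573492) (nat_lit 15) .nil)))) .nil)) 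
(.lf (nat_lit 52067) (.g (nat_lit 5592) (.e (nat_lit 1353) (nat_lit 102) (.e (nat_lit 286761) (nat_lit 13) (.e (nat_lit 393301) (nat_lit 27) (.e (nat_lit 491560) (nat_lit 10) (.e (nat_lit 344171) (nat_lit 41) .nil))))) .nil)))) (.nd (nat_lit 5) (.nd (nat_lit 6) 
(.lf (nat_lit 51987) (.g (nat_lit 4560) (.e (nat_lit 1353) (nat_lit 102) (.e (nat_lit 286735) (nat_lit 3) (.e (nat_lit 98373) (nat_lit 29) (.e (nat_lit 450588) (nat_lit 10) (.e (nat_lit 573452) (nat_lit 9) (.e (nat_lit 61) (nat_lit 0) (.e (nat_lit 7046) (nat_lit 377) .nil))))))) (.g (nat_lit 5) .nil .nil))) 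
(.lf (nat_lit 52051) (.g (nat_lit 2993) (.e (nat_lit 1353) (nat_lit 102) (.e (nat_lit 286761) (nat_lit 13) (.e (nat_lit 393301) (nat_lit 27) (.e (nat_lit 491552) (nat_lit 9) (.e (nat_lit 336250) (nat_lit 15) .nil))))) .nil))) (.nd (nat_lit 6) 
(.lf (nat_lit 52019) (.g (nat_lit 2594) (.e (nat_lit 1353) (nat_lit 102) (.e (nat_lit 286761) (nat_lit 13) (.e (nat_lit 393234) (nat_lit 17) (.e (nat_lit 7589) (nat_lit 406) (.e (nat_lit 65632) (nat_lit 15) (.e (nat_lit 7048) (nat_lit 377) .nil)))))) (.g (nat_lit 4) .nil .nil))) 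
(.lf (nat_lit 52083) (.g (nat_lit 2890) (.e (nat_lit 1355) (nat_lit 102) (.e (nat_lit 286733) (nat_lit 2) (.e (nat_lit 90170) (nat_lit 13) (.e (nat_lit 172106) (nat_lit 10) (.e (nat_lit 434231) (nat_lit 23) (.e (nat_lit 532490) (nat_lit 0) (.e (nat_lit 6126) (nat_lit 332) .nil))))))) (.g (nat_lit 5) .nil .nil)))))) (.nd (nat_lit 4) (.nd (nat_lit 5) (.nd (nat_lit 6) 
(.lf (nat_lit 51979) (.g (nat_lit 3914) (.e (nat_lit 1353) (nat_lit 102) (.e (nat_lit 286735) (nat_lit 3) (.e (nat_lit 98373) (nat_lit 29) (.e (nat_lit 450588) (nat_lit 10) (.e (nat_lit 573452) (nat_lit 9) (.e (nat_lit 11) (nat_lit 0) (.e (nat_lit 6947) (nat_lit 377) .nil))))))) (.g (nat_lit 4) .nil .nil))) 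
(.lf (nat_lit 52043) (.g (nat_lit 5097) (.e (nat_lit 1353) (nat_lit 102) (.e (nat_lit 286761) (nat_lit 13) (.e (nat_lit 393301) (nat_lit 27) (.e (nat_lit 491546) (nat_lit 9) (.e (nat_lit 336242) (nat_lit 15) (.e (nat_lit 7048) (nat_lit 377) .nil)))))) (.g (nat_lit 5) .nil .nil)))) (.nd (nat_lit 6) 
(.lf (nat_lit 52011) (.g (nat_lit 2106) (.e (nat_lit 1353) (nat_lit 102) (.e (nat_lit 286760) (nat_lit 13) (.e (nat_lit 393301) (nat_lit 27) (.e (nat_lit 491563) (nat_lit 12) (.e (nat_lit 392960) (nat_lit 16) .nil))))) .nil)) 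
(.lf (nat_lit 52075) (.g (nat_lit 3684) (.e (nat_lit 1354) (nat_lit 102) (.e (nat_lit 286733) (nat_lit 2) (.e (nat_lit 90170) (nat_lit 13) (.e (nat_lit 172115) (nat_lit 10) .nil)))) .nil)))) (.nd (nat_lit 5) (.nd (nat_lit 6) 
(.lf (nat_lit 51995) (.g (nat_lit 2079) (.e (nat_lit 1353) (nat_lit 102) (.e (nat_lit 286756) (nat_lit 10) (.e (nat_lit 344115) (nat_lit 20) (.e (nat_lit 507923) (nat_lit 6) (.e (nat_lit 286747) (nat_lit 9) (.e (nat_lit 336013) (nat_lit 2) (.e (nat_lit 98048) (nat_lit 18) .nil))))))) (.g (nat_lit 6) .nil .nil))) 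
(.lf (nat_lit 52059) (.g (nat_lit 3929) (.e (nat_lit 1353) (nat_lit 102) (.e (nat_lit 286761) (nat_lit 13) (.e (nat_lit 393301) (nat_lit 27) (.e (nat_lit 491558) (nat_lit 10) .nil)))) .nil))) (.nd (nat_lit 6) 
(.lf (nat_lit 52027) (.g (nat_lit 3585) (.e (nat_lit 1353) (nat_lit 102) (.e (nat_lit 286761) (nat_lit 13) (.e (nat_lit 393297) (nat_lit 27) (.e (nat_lit 491566) (nat_lit 12) (.e (nat_lit 385037) (nat_lit 16) .nil))))) .nil)) 
(.lf (nat_lit 52091) (.g (nat_lit 2217) (.e (nat_lit 1355) (nat_lit 102) (.e (nat_lit 286733) (nat_lit 2) (.e (nat_lit 90178) (nat_lit 15) (.e (nat_lit 188449) (nat_lit 22) .nil)))) .nil)))))) (.nd (nat_lit 3) (.nd (nat_lit 4) (.nd (nat_lit 5) (.nd (nat_lit 6) 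
(.lf (nat_lit 51975) (.g (nat_lit 2739) (.e (nat_lit 1353) (nat_lit 102) (.e (nat_lit 286735) (nat_lit 3) (.e (nat_lit 98373) (nat_lit 29) (.e (nat_lit 450587) (nat_lit 10) (.e (nat_lit 573457) (nat_lit 9) (.e (nat_lit 13) (nat_lit 0) (.e (nat_lit 7048) (nat_lit 377) .nil))))))) (.g (nat_lit 4) .nil .nil))) 
(.lf (nat_lit 52039) (.g (nat_lit 4211) (.e (nat_lit 1353) (nat_lit 102) (.e (nat_lit 286761) (nat_lit 13) (.e (nat_lit 393300) (nat_lit 27) (.e (nat_lit 491563) (nat_lit 12) (.e (nat_lit 385037) (nat_lit 16) .nil))))) .nil))) (.nd (nat_lit 6) 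
(.lf (nat_lit 52007) (.g (nat_lit 1998) (.e (nat_lit 1353) (nat_lit 102) (.e (nat_lit 286759) (nat_lit 12) (.e (nat_lit 385106) (nat_lit 50) (.e (nat_lit 786481) (nat_lit 30) .nil)))) .nil)) 
(.lf (nat_lit 52071) (.g (nat_lit 4942) (.e (nat_lit 1353) (nat_lit 102) (.e (nat_lit 286761) (nat_lit 13) (.e (nat_lit 393301) (nat_lit 27) (.e (nat_lit 491563) (nat_lit 12) (.e (nat_lit 385037) (nat_lit 16) .nil))))) .nil)))) (.nd (nat_lit 5) (.nd (nat_lit 6) 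
(.lf (nat_lit 51991) (.g (nat_lit 2422) (.e (nat_lit 1353) (nat_lit 102) (.e (nat_lit 286735) (nat_lit 3) (.e (nat_lit 98381) (nat_lit 31) (.e (nat_lit 466976) (nat_lit 22) (.e (nat_lit 196628) (nat_lit 9) (.e (nat_lit 970) (nat_lit 81) (.e (nat_lit 6177) (nat_lit 332) .nil))))))) (.g (nat_lit 5) .nil .nil))) 
(.lf (nat_lit 52055) (.g (nat_lit 4045) (.e (nat_lit 1353) (nat_lit 102) (.e (nat_lit 286761) (nat_lit 13) (.e (nat_lit 393301) (nat_lit 27) (.e (nat_lit 491555) (nat_lit 9) .nil)))) .nil))) (.nd (nat_lit 6) 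
(.lf (nat_lit 52023) (.g (nat_lit 918) (.e (nat_lit 1353) (nat_lit 102) (.e (nat_lit 286761) (nat_lit 13) (.e (nat_lit 393270) (nat_lit 23) .nil))) .nil)) 
(.lf (nat_lit 52087) (.g (nat_lit 837) (.e (nat_lit 1355) (nat_lit 102) (.e (nat_lit 286733) (nat_lit 2) (.e (nat_lit 90177) (nat_lit 15) .nil))) .nil))))) (.nd (nat_lit 4) (.nd (nat_lit 5) (.nd (nat_lit 6) 
(.lf (nat_lit 51983) (.g (nat_lit 3626) (.e (nat_lit 1353) (nat_lit 102) (.e (nat_lit 286735) (nat_lit 3) (.e (nat_lit 98373) (nat_lit 29) (.e (nat_lit 450588) (nat_lit 10) (.e (nat_lit 573452) (nat_lit 9) (.e (nat_lit 13) (nat_lit 0) (.e (nat_lit 6954) (nat_lit 377) .nil))))))) (.g (nat_lit 4) .nil .nil))) 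
(.lf (nat_lit 52047) (.g (nat_lit 3852) (.e (nat_lit 1353) (nat_lit 102) (.e (nat_lit 286761) (nat_lit 13) (.e (nat_lit 393301) (nat_lit 27) (.e (nat_lit 491551) (nat_lit 9) .nil)))) .nil))) (.nd (nat_lit 6) 
(.lf (nat_lit 52015) (.g (nat_lit 2033) (.e (nat_lit 1353) (nat_lit 102) (.e (nat_lit 286761) (nat_lit 13) (.e (nat_lit 393234) (nat_lit 17) (.e (nat_lit 7587) (nat_lit 406) .nil)))) .nil)) 
(.lf (nat_lit 52079) (.g (nat_lit 1117) (.e (nat_lit 1354) (nat_lit 102) (.e (nat_lit 286761) (nat_lit 13) (.e (nat_lit 393234) (nat_lit 17) .nil))) .nil)))) (.nd (nat_lit 5) (.nd (nat_lit 6) 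
(.lf (nat_lit 51999) (.g (nat_lit 1988) (.e (nat_lit 1353) (nat_lit 102) (.e (nat_lit 286759) (nat_lit 12) (.e (nat_lit 385074) (nat_lit 31) (.e (nat_lit 573484) (nat_lit 13) .nil)))) .nil)) 
(.lf (nat_lit 52063) (.g (nat_lit 4206) (.e (nat_lit 1353) (nat_lit 102) (.e (nat_lit 286761) (nat_lit 13) (.e (nat_lit 393301) (nat_lit 27) (.e (nat_lit 491559) (nat_lit 10) .nil)))) .nil))) (.nd (nat_lit 6) 
(.lf (nat_lit 52031) (.g (nat_lit 3001) (.e (nat_lit 1353) (nat_lit 102) (.e (nat_lit 286761) (nat_lit 13) (.e (nat_lit 393298) (nat_lit 27) (.e (nat_lit 491564) (nat_lit 12) (.e (nat_lit 385037) (nat_lit 16) .nil))))) (.g (nat_lit 4) .nil .nil))) 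
(.lf (nat_lit 52095) (.g (nat_lit 939) (.e (nat_lit 1355) (nat_lit 102) (.e (nat_lit 286735) (nat_lit 3) (.e (nat_lit 98356) (nat_lit 26) .nil))) .nil)))))))))

noncomputable def tv723 : DT := (.nd (nat_lit 0) (.nd (nat_lit 1) (.nd (nat_lit 2) (.nd (nat_lit 3) (.nd (nat_lit 4) (.nd (nat_lit 5) (.nd (nat_lit 6) 
(.lf (nat_lit 52096) (.g (nat_lit 2452) (.e (nat_lit 1355) (nat_lit 102) (.e (nat_lit 286735) (nat_lit 3) (.e (nat_lit 98359) (nat_lit 26) (.e (nat_lit 426185) (nat_lit 9) .nil)))) .nil)) 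
(.lf (nat_lit 52160) (.g (nat_lit 4015) (.e (nat_lit 1356) (nat_lit 102) (.e (nat_lit 286735) (nat_lit 3) (.e (nat_lit 98373) (nat_lit 29) (.e (nat_lit 450588) (nat_lit 10) (.e (nat_lit 573452) (nat_lit 9) .nil))))) .nil))) (.nd (nat_lit 6) 
(.lf (nat_lit 52128) (.g (nat_lit 1749) (.e (nat_lit 1355) (nat_lit 102) (.e (nat_lit 286759) (nat_lit 12) (.e (nat_lit 385102) (nat_lit 50) (.e (nat_lit 786483) (nat_lit 30) (.e (nat_lit 360484) (nat_lit 15) (.e (nat_lit 647203) (nat_lit 14) .nil)))))) (.g (nat_lit 5) .nil .nil))) 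
(.lf (nat_lit 52192) (.g (nat_lit 2733) (.e (nat_lit 1357) (nat_lit 102) (.e (nat_lit 286753) (nat_lit 10) (.e (nat_lit 344126) (nat_lit 25) (.e (nat_lit 548889) (nat_lit 9) (.e (nat_lit 65598) (nat_lit 9) (.e (nat_lit 336013) (nat_lit 2) (.e (nat_lit 98048) (nat_lit 18) .nil))))))) (.g (nat_lit 4) .nil .nil))))) (.nd (nat_lit 5) (.nd (nat_lit 6) 
(.lf (nat_lit 52112) (.g (nat_lit 2961) (.e (nat_lit 1355) (nat_lit 102) (.e (nat_lit 286735) (nat_lit 3) (.e (nat_lit 98373) (nat_lit 29) (.e (nat_lit 450588) (nat_lit 10) .nil)))) .nil)) 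
(.lf (nat_lit 52176) (.g (nat_lit 1151) (.e (nat_lit 1356) (nat_lit 102) (.e (nat_lit 286761) (nat_lit 13) (.e (nat_lit 393234) (nat_lit 17) .nil))) .nil))) (.nd (nat_lit 6) 
(.lf (nat_lit 52144) (.g (nat_lit 4216) (.e (nat_lit 1355) (nat_lit 102) (.e (nat_lit 286761) (nat_lit 13) (.e (nat_lit 393301) (nat_lit 27) (.e (nat_lit 491559) (nat_lit 10) .nil)))) .nil)) 
(.lf (nat_lit 52208) (.g (nat_lit 4015) (.e (nat_lit 1358) (nat_lit 102) (.e (nat_lit 286735) (nat_lit 3) (.e (nat_lit 98373) (nat_lit 29) (.e (nat_lit 450588) (nat_lit 10) (.e (nat_lit 573452) (nat_lit 9) .nil))))) .nil))))) (.nd (nat_lit 4) (.nd (nat_lit 5) (.nd (nat_lit 6) 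
(.lf (nat_lit 52104) (.g (nat_lit 692) (.e (nat_lit 1355) (nat_lit 102) (.e (nat_lit 286735) (nat_lit 3) (.e (nat_lit 98372) (nat_lit 29) .nil))) .nil)) 
(.lf (nat_lit 52168) (.g (nat_lit 228) (.e (nat_lit 1356) (nat_lit 102) (.e (nat_lit 286753) (nat_lit 10) (.e (nat_lit 344157) (nat_lit 36) .nil))) .nil))) (.nd (nat_lit 6) 
(.lf (nat_lit 52136) (.g (nat_lit 841) (.e (nat_lit 1355) (nat_lit 102) (.e (nat_lit 286761) (nat_lit 13) (.e (nat_lit 393298) (nat_lit 27) .nil))) .nil)) 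
(.lf (nat_lit 52200) (.g (nat_lit 2646) (.e (nat_lit 1358) (nat_lit 102) (.e (nat_lit 286734) (nat_lit 3) (.e (nat_lit 98370) (nat_lit 28) (.e (nat_lit 442424) (nat_lit 22) (.e (nat_lit 196661) (nat_lit 12) (.e (nat_lit 57711) (nat_lit 176) .nil)))))) (.g (nat_lit 5) .nil .nil))))) (.nd (nat_lit 5) (.nd (nat_lit 6) 
(.lf (nat_lit 52120) (.g (nat_lit 1610) (.e (nat_lit 1355) (nat_lit 102) (.e (nat_lit 286753) (nat_lit 10) (.e (nat_lit 344168) (nat_lit 40) (.e (nat_lit 671762) (nat_lit 4) (.e (nat_lit 65617) (nat_lit 10) .nil))))) .nil)) 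
(.lf (nat_lit 52184) (.g (nat_lit 4229) (.e (nat_lit 1356) (nat_lit 102) (.e (nat_lit 286761) (nat_lit 13) (.e (nat_lit 393301) (nat_lit 27) (.e (nat_lit 491562) (nat_lit 12) .nil)))) .nil))) (.nd (nat_lit 6) 
(.lf (nat_lit 52152) (.g (nat_lit 2395) (.e (nat_lit 1356) (nat_lit 102) (.e (nat_lit 286734) (nat_lit 3) (.e (nat_lit 98372) (nat_lit 29) (.e (nat_lit 450579) (nat_lit 5) (.e (nat_lit 532489) (nat_lit 0) .nil))))) .nil)) 
(.lf (nat_lit 52216) (.g (nat_lit 2506) (.e (nat_lit 1358) (nat_lit 102) (.e (nat_lit 286749) (nat_lit 9) (.e (nat_lit 336013) (nat_lit 2) (.e (nat_lit 90170) (nat_lit 13) (.e (nat_lit 172059) (nat_lit 1) .nil))))) .nil)))))) (.nd (nat_lit 3) (.nd (nat_lit 4) (.nd (nat_lit 5) (.nd (nat_lit 6) 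
(.lf (nat_lit 52100) (.g (nat_lit 765) (.e (nat_lit 1355) (nat_lit 102) (.e (nat_lit 286735) (nat_lit 3) (.e (nat_lit 98370) (nat_lit 28) .nil))) .nil)) 
(.lf (nat_lit 52164) (.g (nat_lit 924) (.e (nat_lit 1356) (nat_lit 102) (.e (nat_lit 286753) (nat_lit 10) (.e (nat_lit 344126) (nat_lit 25) (.e (nat_lit 548873) (nat_lit 5) .nil)))) .nil))) (.nd (nat_lit 6) 
(.lf (nat_lit 52132) (.g (nat_lit 3021) (.e (nat_lit 1355) (nat_lit 102) (.e (nat_lit 286761) (nat_lit 13) (.e (nat_lit 393234) (nat_lit 17) (.e (nat_lit 3555) (nat_lit 220) .nil)))) .nil)) 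
(.lf (nat_lit 52196) (.g (nat_lit 3497) (.e (nat_lit 1358) (nat_lit 102) (.e (nat_lit 286732) (nat_lit 2) (.e (nat_lit 90170) (nat_lit 13) (.e (nat_lit 172106) (nat_lit 10) (.e (nat_lit 434231) (nat_lit 23) (.e (nat_lit 532490) (nat_lit 0) (.e (nat_lit 6149) (nat_lit 332) .nil))))))) (.g (nat_lit 6) .nil .nil))))) (.nd (nat_lit 5) (.nd (nat_lit 6) 
(.lf (nat_lit 52116) (.g (nat_lit 2506) (.e (nat_lit 1355) (nat_lit 102) (.e (nat_lit 286749) (nat_lit 9) (.e (nat_lit 336013) (nat_lit 2) (.e (nat_lit 90170) (nat_lit 13) (.e (nat_lit 172059) (nat_lit 1) .nil))))) .nil)) 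
(.lf (nat_lit 52180) (.g (nat_lit 4804) (.e (nat_lit 1356) (nat_lit 102) (.e (nat_lit 286761) (nat_lit 13) (.e (nat_lit 393301) (nat_lit 27) (.e (nat_lit 491552) (nat_lit 9) .nil)))) .nil))) (.nd (nat_lit 6) 
(.lf (nat_lit 52148) (.g (nat_lit 557) (.e (nat_lit 1355) (nat_lit 102) (.e (nat_lit 286762) (nat_lit 14) (.e (nat_lit 401458) (nat_lit 13) .nil))) .nil)) 
(.lf (nat_lit 52212) (.g (nat_lit 3683) (.e (nat_lit 1358) (nat_lit 102) (.e (nat_lit 286747) (nat_lit 9) (.e (nat_lit 336013) (nat_lit 2) (.e (nat_lit 90170) (nat_lit 13) (.e (nat_lit 172061) (nat_lit 1) (.e (nat_lit 164326) (nat_lit 230) (.e (nat_lit 163868) (nat_lit 2) (.e (nat_lit 196691) (nat_lit 18) .nil)))))))) (.g (nat_lit 4) .nil .nil)))))) 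
(.nd (nat_lit 4) (.nd (nat_lit 5) (.nd (nat_lit 6) 
(.lf (nat_lit 52108) (.g (nat_lit 3074) (.e (nat_lit 1355) (nat_lit 102) (.e (nat_lit 286735) (nat_lit 3) (.e (nat_lit 98372) (nat_lit 29) (.e (nat_lit 450579) (nat_lit 5) (.e (nat_lit 532484) (nat_lit 0) .nil))))) .nil)) 
(.lf (nat_lit 52172) (.g (nat_lit 924) (.e (nat_lit 1356) (nat_lit 102) (.e (nat_lit 286756) (nat_lit 10) (.e (nat_lit 344126) (nat_lit 25) (.e (nat_lit 548873) (nat_lit 5) .nil)))) .nil))) (.nd (nat_lit 6) 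
(.lf (nat_lit 52140) (.g (nat_lit 3545) (.e (nat_lit 1355) (nat_lit 102) (.e (nat_lit 286761) (nat_lit 13) (.e (nat_lit 393301) (nat_lit 27) (.e (nat_lit 491547) (nat_lit 9) .nil)))) .nil)) 
(.lf (nat_lit 52204) (.g (nat_lit 2415) (.e (nat_lit 1358) (nat_lit 102) (.e (nat_lit 286735) (nat_lit 3) (.e (nat_lit 98372) (nat_lit 29) (.e (nat_lit 458496) (nat_lit 1) .nil)))) .nil)))) (.nd (nat_lit 5) (.nd (nat_lit 6) 
(.lf (nat_lit 52124) (.g (nat_lit 3093) (.e (nat_lit 1355) (nat_lit 102) (.e (nat_lit 286759) (nat_lit 12) (.e (nat_lit 385074) (nat_lit 31) (.e (nat_lit 573482) (nat_lit 13) .nil)))) .nil)) 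
(.lf (nat_lit 52188) (.g (nat_lit 3473) (.e (nat_lit 1357) (nat_lit 102) (.e (nat_lit 286733) (nat_lit 2) (.e (nat_lit 90170) (nat_lit 13) (.e (nat_lit 172097) (nat_lit 9) .nil)))) .nil))) (.nd (nat_lit 6) 
(.lf (nat_lit 52156) (.g (nat_lit 2886) (.e (nat_lit 1356) (nat_lit 102) (.e (nat_lit 286735) (nat_lit 3) (.e (nat_lit 98372) (nat_lit 29) (.e (nat_lit 450579) (nat_lit 5) (.e (nat_lit 532489) (nat_lit 0) .nil))))) .nil)) 
(.lf (nat_lit 52220) (.g (nat_lit 2867) (.e (nat_lit 1358) (nat_lit 102) (.e (nat_lit 286749) (nat_lit 9) (.e (nat_lit 336013) (nat_lit 2) (.e (nat_lit 90170) (nat_lit 13) (.e (nat_lit 172061) (nat_lit 1) (.e (nat_lit 164326) (nat_lit 230) (.e (nat_lit 163868) (nat_lit 2) (.e (nat_lit 196691) (nat_lit 18) .nil)))))))) (.g (nat_lit 4) .nil .nil)))))))) 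
(.nd (nat_lit 2) (.nd (nat_lit 3) (.nd (nat_lit 4) (.nd (nat_lit 5) (.nd (nat_lit 6) 
(.lf (nat_lit 52098) (.g (nat_lit 999) (.e (nat_lit 1355) (nat_lit 102) (.e (nat_lit 286735) (nat_lit 3) (.e (nat_lit 98369) (nat_lit 28) .nil))) .nil)) 
(.lf (nat_lit 52162) (.g (nat_lit 1557) (.e (nat_lit 1356) (nat_lit 102) (.e (nat_lit 286753) (nat_lit 10) (.e (nat_lit 344115) (nat_lit 20) (.e (nat_lit 507923) (nat_lit 6) (.e (nat_lit 286747) (nat_lit 9) (.e (nat_lit 336013) (nat_lit 2) (.e (nat_lit 98048) (nat_lit 18) .nil))))))) (.g (nat_lit 5) .nil .nil)))) (.nd (nat_lit 6) 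
(.lf (nat_lit 52130) (.g (nat_lit 1965) (.e (nat_lit 1355) (nat_lit 102) (.e (nat_lit 286759) (nat_lit 12) (.e (nat_lit 385106) (nat_lit 50) (.e (nat_lit 786483) (nat_lit 30) (.e (nat_lit 360483) (nat_lit 15) (.e (nat_lit 647203) (nat_lit 14) .nil)))))) (.g (nat_lit 4) .nil .nil))) 
(.lf (nat_lit 52194) (.g (nat_lit 3679) (.e (nat_lit 1357) (nat_lit 102) (.e (nat_lit 286759) (nat_lit 12) (.e (nat_lit 385074) (nat_lit 31) (.e (nat_lit 573493) (nat_lit 15) .nil)))) .nil)))) (.nd (nat_lit 5) (.nd (nat_lit 6) 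
(.lf (nat_lit 52114) (.g (nat_lit 917) (.e (nat_lit 1355) (nat_lit 102) (.e (nat_lit 286735) (nat_lit 3) (.e (nat_lit 98381) (nat_lit 31) .nil))) .nil)) 
(.lf (nat_lit 52178) (.g (nat_lit 1030) (.e (nat_lit 1356) (nat_lit 102) (.e (nat_lit 286761) (nat_lit 13) (.e (nat_lit 393300) (nat_lit 27) .nil))) .nil))) (.nd (nat_lit 6) 
(.lf (nat_lit 52146) (.g (nat_lit 3510) (.e (nat_lit 1355) (nat_lit 102) (.e (nat_lit 286761) (nat_lit 13) (.e (nat_lit 393301) (nat_lit 27) (.e (nat_lit 491562) (nat_lit 12) .nil)))) .nil)) 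
(.lf (nat_lit 52210) (.g (nat_lit 3740) (.e (nat_lit 1358) (nat_lit 102) (.e (nat_lit 286747) (nat_lit 9) (.e (nat_lit 336013) (nat_lit 2) (.e (nat_lit 90170) (nat_lit 13) (.e (nat_lit 172059) (nat_lit 1) (.e (nat_lit 164326) (nat_lit 230) (.e (nat_lit 163871) (nat_lit 2) (.e (nat_lit 196691) (nat_lit 18) .nil)))))))) (.g (nat_lit 4) .nil .nil)))))) 
(.nd (nat_lit 4) (.nd (nat_lit 5) (.nd (nat_lit 6) 
(.lf (nat_lit 52106) (.g (nat_lit 2340) (.e (nat_lit 1355) (nat_lit 102) (.e (nat_lit 286735) (nat_lit 3) (.e (nat_lit 98372) (nat_lit 29) (.e (nat_lit 450579) (nat_lit 5) .nil)))) .nil)) 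
(.lf (nat_lit 52170) (.g (nat_lit 465) (.e (nat_lit 1356) (nat_lit 102) (.e (nat_lit 286756) (nat_lit 10) (.e (nat_lit 344117) (nat_lit 21) .nil))) .nil))) (.nd (nat_lit 6) 
(.lf (nat_lit 52138) (.g (nat_lit 619) (.e (nat_lit 1355) (nat_lit 102) (.e (nat_lit 286761) (nat_lit 13) (.e (nat_lit 393301) (nat_lit 27) .nil))) .nil)) 
(.lf (nat_lit 52202) (.g (nat_lit 2273) (.e (nat_lit 1358) (nat_lit 102) (.e (nat_lit 286734) (nat_lit 3) (.e (nat_lit 98370) (nat_lit 28) (.e (nat_lit 442427) (nat_lit 23) (.e (nat_lit 204821) (nat_lit 17) (.e (nat_lit 6092) (nat_lit 332) .nil)))))) (.g (nat_lit 4) .nil .nil))))) (.nd (nat_lit 5) (.nd (nat_lit 6) 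
(.lf (nat_lit 52122) (.g (nat_lit 1904) (.e (nat_lit 1355) (nat_lit 102) (.e (nat_lit 286756) (nat_lit 10) (.e (nat_lit 344115) (nat_lit 20) (.e (nat_lit 507923) (nat_lit 6) (.e (nat_lit 286747) (nat_lit 9) (.e (nat_lit 336013) (nat_lit 2) (.e (nat_lit 98048) (nat_lit 18) .nil))))))) (.g (nat_lit 6) .nil .nil))) 
(.lf (nat_lit 52186) (.g (nat_lit 2019) (.e (nat_lit 1357) (nat_lit 102) (.e (nat_lit 286732) (nat_lit 2) (.e (nat_lit 90170) (nat_lit 13) (.e (nat_lit 172106) (nat_lit 10) (.e (nat_lit 434231) (nat_lit 23) .nil))))) .nil))) (.nd (nat_lit 6) 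
(.lf (nat_lit 52154) (.g (nat_lit 3317) (.e (nat_lit 1356) (nat_lit 102) (.e (nat_lit 286735) (nat_lit 3) (.e (nat_lit 98372) (nat_lit 29) (.e (nat_lit 450579) (nat_lit 5) (.e (nat_lit 532481) (nat_lit 0) (.e (nat_lit 6157) (nat_lit 332) .nil)))))) (.g (nat_lit 4) .nil .nil))) 
(.lf (nat_lit 52218) (.g (nat_lit 2996) (.e (nat_lit 1358) (nat_lit 102) (.e (nat_lit 286749) (nat_lit 9) (.e (nat_lit 336013) (nat_lit 2) (.e (nat_lit 90170) (nat_lit 13) (.e (nat_lit 172059) (nat_lit 1) (.e (nat_lit 164327) (nat_lit 230) (.e (nat_lit 163868) (nat_lit 2) (.e (nat_lit 196691) (nat_lit 18) .nil)))))))) (.g (nat_lit 5) .nil .nil))))))) 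
(.nd (nat_lit 3) (.nd (nat_lit 4) (.nd (nat_lit 5) (.nd (nat_lit 6) 
(.lf (nat_lit 52102) (.g (nat_lit 934) (.e (nat_lit 1355) (nat_lit 102) (.e (nat_lit 286735) (nat_lit 3) (.e (nat_lit 98371) (nat_lit 28) .nil))) .nil)) 
(.lf (nat_lit 52166) (.g (nat_lit 2485) (.e (nat_lit 1356) (nat_lit 102) (.e (nat_lit 286753) (nat_lit 10) (.e (nat_lit 344126) (nat_lit 25) (.e (nat_lit 548889) (nat_lit 9) (.e (nat_lit 65598) (nat_lit 9) .nil))))) .nil))) (.nd (nat_lit 6) 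
(.lf (nat_lit 52134) (.g (nat_lit 2521) (.e (nat_lit 1355) (nat_lit 102) (.e (nat_lit 286761) (nat_lit 13) (.e (nat_lit 393234) (nat_lit 17) (.e (nat_lit 7589) (nat_lit 406) .nil)))) .nil)) 
(.lf (nat_lit 52198) (.g (nat_lit 3228) (.e (nat_lit 1358) (nat_lit 102) (.e (nat_lit 286733) (nat_lit 2) (.e (nat_lit 90170) (nat_lit 13) (.e (nat_lit 172106) (nat_lit 10) (.e (nat_lit 434231) (nat_lit 23) (.e (nat_lit 532490) (nat_lit 0) (.e (nat_lit 6136) (nat_lit 332) .nil))))))) (.g (nat_lit 5) .nil .nil))))) (.nd (nat_lit 5) (.nd (nat_lit 6) 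
(.lf (nat_lit 52118) (.g (nat_lit 2389) (.e (nat_lit 1355) (nat_lit 102) (.e (nat_lit 286753) (nat_lit 10) (.e (nat_lit 344117) (nat_lit 21) (.e (nat_lit 516151) (nat_lit 9) (.e (nat_lit 426097) (nat_lit 1) .nil))))) .nil)) 
(.lf (nat_lit 52182) (.g (nat_lit 4928) (.e (nat_lit 1356) (nat_lit 102) (.e (nat_lit 286761) (nat_lit 13) (.e (nat_lit 393301) (nat_lit 27) (.e (nat_lit 491559) (nat_lit 10) .nil)))) .nil))) (.nd (nat_lit 6) 
(.lf (nat_lit 52150) (.g (nat_lit 2337) (.e (nat_lit 1356) (nat_lit 102) (.e (nat_lit 286734) (nat_lit 3) (.e (nat_lit 98372) (nat_lit 29) (.e (nat_lit 450579) (nat_lit 5) (.e (nat_lit 532484) (nat_lit 0) .nil))))) .nil)) 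
(.lf (nat_lit 52214) (.g (nat_lit 3821) (.e (nat_lit 1358) (nat_lit 102) (.e (nat_lit 286747) (nat_lit 9) (.e (nat_lit 336013) (nat_lit 2) (.e (nat_lit 90185) (nat_lit 17) (.e (nat_lit 237582) (nat_lit 1) .nil))))) .nil))))) (.nd (nat_lit 4) (.nd (nat_lit 5) (.nd (nat_lit 6) 
(.lf (nat_lit 52110) (.g (nat_lit 861) (.e (nat_lit 1355) (nat_lit 102) (.e (nat_lit 286735) (nat_lit 3) (.e (nat_lit 98373) (nat_lit 29) .nil))) .nil)) 
(.lf (nat_lit 52174) (.g (nat_lit 3629) (.e (nat_lit 1356) (nat_lit 102) (.e (nat_lit 286756) (nat_lit 10) (.e (nat_lit 344126) (nat_lit 25) (.e (nat_lit 548889) (nat_lit 9) (.e (nat_lit 65598) (nat_lit 9) (.e (nat_lit 336013) (nat_lit 2) (.e (nat_lit 98048) (nat_lit 18) .nil))))))) (.g (nat_lit 6) .nil .nil)))) (.nd (nat_lit 6) 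
(.lf (nat_lit 52142) (.g (nat_lit 3688) (.e (nat_lit 1355) (nat_lit 102) (.e (nat_lit 286761) (nat_lit 13) (.e (nat_lit 393301) (nat_lit 27) (.e (nat_lit 491556) (nat_lit 9) .nil)))) .nil)) 
(.lf (nat_lit 52206) (.g (nat_lit 970) (.e (nat_lit 1358) (nat_lit 102) (.e (nat_lit 286735) (nat_lit 3) (.e (nat_lit 98373) (nat_lit 29) .nil))) .nil)))) (.nd (nat_lit 5) (.nd (nat_lit 6) 
(.lf (nat_lit 52126) (.g (nat_lit 1772) (.e (nat_lit 1355) (nat_lit 102) (.e (nat_lit 286759) (nat_lit 12) (.e (nat_lit 385074) (nat_lit 31) (.e (nat_lit 573485) (nat_lit 13) .nil)))) .nil)) 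
(.lf (nat_lit 52190) (.g (nat_lit 1219) (.e (nat_lit 1357) (nat_lit 102) (.e (nat_lit 286734) (nat_lit 3) (.e (nat_lit 98370) (nat_lit 28) (.e (nat_lit 442427) (nat_lit 23) .nil)))) .nil))) (.nd (nat_lit 6) 
(.lf (nat_lit 52158) (.g (nat_lit 3505) (.e (nat_lit 1356) (nat_lit 102) (.e (nat_lit 286735) (nat_lit 3) (.e (nat_lit 98373) (nat_lit 29) (.e (nat_lit 450579) (nat_lit 5) .nil)))) .nil)) 
(.lf (nat_lit 52222) (.g (nat_lit 3095) (.e (nat_lit 1358) (nat_lit 102) (.e (nat_lit 286749) (nat_lit 9) (.e (nat_lit 336013) (nat_lit 2) (.e (nat_lit 90170) (nat_lit 13) (.e (nat_lit 172061) (nat_lit 1) (.e (nat_lit 164327) (nat_lit 230) (.e (nat_lit 163868) (nat_lit 2) (.e (nat_lit 196691) (nat_lit 18) .nil)))))))) (.g (nat_lit 4) .nil .nil))))))))) 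
(.nd (nat_lit 1) (.nd (nat_lit 2) (.nd (nat_lit 3) (.nd (nat_lit 4) (.nd (nat_lit 5) 
(.nd (nat_lit 6) 
(.lf (nat_lit 52097) (.g (nat_lit 2422) (.e (nat_lit 1355) (nat_lit 102) (.e (nat_lit 286735) (nat_lit 3) (.e (nat_lit 98359) (nat_lit 26) (.e (nat_lit 426212) (nat_lit 9) .nil)))) .nil)) 
(.lf (nat_lit 52161) (.g (nat_lit 537) (.e (nat_lit 1356) (nat_lit 102) (.e (nat_lit 286747) (nat_lit 9) (.e (nat_lit 336013) (nat_lit 2) (.e (nat_lit 98048) (nat_lit 2) .nil)))) .nil))) (.nd (nat_lit 6) 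
(.lf (nat_lit 52129) (.g (nat_lit 1721) (.e (nat_lit 1355) (nat_lit 102) (.e (nat_lit 286759) (nat_lit 12) (.e (nat_lit 385105) (nat_lit 50) (.e (nat_lit 786483) (nat_lit 30) (.e (nat_lit 360484) (nat_lit 15) (.e (nat_lit 647203) (nat_lit 14) .nil)))))) (.g (nat_lit 4) .nil .nil))) 
(.lf (nat_lit 52193) (.g (nat_lit 1273) (.e (nat_lit 1357) (nat_lit 102) (.e (nat_lit 286759) (nat_lit 12) (.e (nat_lit 385074) (nat_lit 31) .nil))) .nil)))) (.nd (nat_lit 5) (.nd (nat_lit 6) 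
(.lf (nat_lit 52113) (.g (nat_lit 3988) (.e (nat_lit 1355) (nat_lit 102) (.e (nat_lit 286735) (nat_lit 3) (.e (nat_lit 98373) (nat_lit 29) (.e (nat_lit 450588) (nat_lit 10) (.e (nat_lit 573452) (nat_lit 9) .nil))))) .nil)) 
(.lf (nat_lit 52177) (.g (nat_lit 1170) (.e (nat_lit 1356) (nat_lit 102) (.e (nat_lit 286761) (nat_lit 13) (.e (nat_lit 393298) (nat_lit 27) .nil))) .nil))) (.nd (nat_lit 6) 
(.lf (nat_lit 52145) (.g (nat_lit 3667) (.e (nat_lit 1355) (nat_lit 102) (.e (nat_lit 286761) (nat_lit 13) (.e (nat_lit 393301) (nat_lit 27) (.e (nat_lit 491560) (nat_lit 10) .nil)))) .nil)) 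
(.lf (nat_lit 52209) (.g (nat_lit 3655) (.e (nat_lit 1358) (nat_lit 102) (.e (nat_lit 286747) (nat_lit 9) (.e (nat_lit 336013) (nat_lit 2) (.e (nat_lit 90170) (nat_lit 13) (.e (nat_lit 172059) (nat_lit 1) .nil))))) .nil))))) (.nd (nat_lit 4) (.nd (nat_lit 5) (.nd (nat_lit 6) 
(.lf (nat_lit 52105) (.g (nat_lit 2540) (.e (nat_lit 1355) (nat_lit 102) (.e (nat_lit 286735) (nat_lit 3) (.e (nat_lit 98372) (nat_lit 29) (.e (nat_lit 458496) (nat_lit 1) .nil)))) .nil)) 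
(.lf (nat_lit 52169) (.g (nat_lit 2047) (.e (nat_lit 1356) (nat_lit 102) (.e (nat_lit 286756) (nat_lit 10) (.e (nat_lit 344115) (nat_lit 20) (.e (nat_lit 507923) (nat_lit 6) (.e (nat_lit 286747) (nat_lit 9) (.e (nat_lit 336013) (nat_lit 2) (.e (nat_lit 98048) (nat_lit 18) .nil))))))) (.g (nat_lit 6) .nil .nil)))) (.nd (nat_lit 6) 
(.lf (nat_lit 52137) (.g (nat_lit 804) (.e (nat_lit 1355) (nat_lit 102) (.e (nat_lit 286761) (nat_lit 13) (.e (nat_lit 393300) (nat_lit 27) .nil))) .nil)) 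
(.lf (nat_lit 52201) (.g (nat_lit 2136) (.e (nat_lit 1358) (nat_lit 102) (.e (nat_lit 286734) (nat_lit 3) (.e (nat_lit 98370) (nat_lit 28) (.e (nat_lit 442427) (nat_lit 23) (.e (nat_lit 204821) (nat_lit 17) .nil))))) .nil)))) (.nd (nat_lit 5) (.nd (nat_lit 6) 
(.lf (nat_lit 52121) (.g (nat_lit 2805) (.e (nat_lit 1355) (nat_lit 102) (.e (nat_lit 286753) (nat_lit 10) (.e (nat_lit 344169) (nat_lit 40) (.e (nat_lit 671762) (nat_lit 4) (.e (nat_lit 65610) (nat_lit 10) (.e (nat_lit 344160) (nat_lit 37) (.e (nat_lit 647203) (nat_lit 14) .nil))))))) (.g (nat_lit 5) .nil .nil))) 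
(.lf (nat_lit 52185) (.g (nat_lit 4316) (.e (nat_lit 1356) (nat_lit 102) (.e (nat_lit 286761) (nat_lit 13) (.e (nat_lit 393301) (nat_lit 27) (.e (nat_lit 491563) (nat_lit 12) .nil)))) .nil))) (.nd (nat_lit 6) 
(.lf (nat_lit 52153) (.g (nat_lit 2163) (.e (nat_lit 1356) (nat_lit 102) (.e (nat_lit 286735) (nat_lit 3) (.e (nat_lit 98372) (nat_lit 29) (.e (nat_lit 450579) (nat_lit 5) .nil)))) .nil)) 
(.lf (nat_lit 52217) (.g (nat_lit 2573) (.e (nat_lit 1358) (nat_lit 102) (.e (nat_lit 286749) (nat_lit 9) (.e (nat_lit 336013) (nat_lit 2) (.e (nat_lit 90170) (nat_lit 13) (.e (nat_lit 172059) (nat_lit 1) (.e (nat_lit 164326) (nat_lit 230) (.e (nat_lit 163871) (nat_lit 2) (.e (nat_lit 196691) (nat_lit 18) .nil)))))))) (.g (nat_lit 4) .nil .nil))))))) 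
(.nd (nat_lit 3) (.nd (nat_lit 4) (.nd (nat_lit 5) (.nd (nat_lit 6) 
(.lf (nat_lit 52101) (.g (nat_lit 3037) (.e (nat_lit 1355) (nat_lit 102) (.e (nat_lit 286735) (nat_lit 3) (.e (nat_lit 98370) (nat_lit 28) (.e (nat_lit 442424) (nat_lit 22) (.e (nat_lit 196661) (nat_lit 12) .nil))))) .nil)) 
(.lf (nat_lit 52165) (.g (nat_lit 1707) (.e (nat_lit 1356) (nat_lit 102) (.e (nat_lit 286753) (nat_lit 10) (.e (nat_lit 344126) (nat_lit 25) (.e (nat_lit 548874) (nat_lit 5) (.e (nat_lit 1598) (nat_lit 111) .nil))))) .nil))) (.nd (nat_lit 6) 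
(.lf (nat_lit 52133) (.g (nat_lit 2447) (.e (nat_lit 1355) (nat_lit 102) (.e (nat_lit 286761) (nat_lit 13) (.e (nat_lit 393234) (nat_lit 17) (.e (nat_lit 7587) (nat_lit 406) .nil)))) .nil)) 
(.lf (nat_lit 52197) (.g (nat_lit 3332) (.e (nat_lit 1358) (nat_lit 102) (.e (nat_lit 286733) (nat_lit 2) (.e (nat_lit 90170) (nat_lit 13) (.e (nat_lit 172097) (nat_lit 9) .nil)))) .nil)))) (.nd (nat_lit 5) (.nd (nat_lit 6) 
(.lf (nat_lit 52117) (.g (nat_lit 1288) (.e (nat_lit 1355) (nat_lit 102) (.e (nat_lit 286753) (nat_lit 10) (.e (nat_lit 344115) (nat_lit 20) (.e (nat_lit 507923) (nat_lit 6) (.e (nat_lit 286747) (nat_lit 9) (.e (nat_lit 336013) (nat_lit 2) (.e (nat_lit 98048) (nat_lit 18) .nil))))))) (.g (nat_lit 4) .nil .nil))) 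
(.lf (nat_lit 52181) (.g (nat_lit 4678) (.e (nat_lit 1356) (nat_lit 102) (.e (nat_lit 286761) (nat_lit 13) (.e (nat_lit 393301) (nat_lit 27) (.e (nat_lit 491558) (nat_lit 10) .nil)))) .nil))) (.nd (nat_lit 6) 
(.lf (nat_lit 52149) (.g (nat_lit 1551) (.e (nat_lit 1356) (nat_lit 102) (.e (nat_lit 286734) (nat_lit 3) (.e (nat_lit 98372) (nat_lit 29) (.e (nat_lit 450579) (nat_lit 5) .nil)))) .nil)) 
(.lf (nat_lit 52213) (.g (nat_lit 3816) (.e (nat_lit 1358) (nat_lit 102) (.e (nat_lit 286747) (nat_lit 9) (.e (nat_lit 336013) (nat_lit 2) (.e (nat_lit 90170) (nat_lit 13) (.e (nat_lit 172061) (nat_lit 1) (.e (nat_lit 164326) (nat_lit 230) (.e (nat_lit 163871) (nat_lit 2) (.e (nat_lit 196691) (nat_lit 18) .nil)))))))) (.g (nat_lit 4) .nil .nil)))))) 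
(.nd (nat_lit 4) (.nd (nat_lit 5) (.nd (nat_lit 6) 
(.lf (nat_lit 52109) (.g (nat_lit 3254) (.e (nat_lit 1355) (nat_lit 102) (.e (nat_lit 286735) (nat_lit 3) (.e (nat_lit 98372) (nat_lit 29) (.e (nat_lit 450579) (nat_lit 5) (.e (nat_lit 532484) (nat_lit 0) (.e (nat_lit 6200) (nat_lit 332) .nil)))))) (.g (nat_lit 4) .nil .nil))) 
(.lf (nat_lit 52173) (.g (nat_lit 1706) (.e (nat_lit 1356) (nat_lit 102) (.e (nat_lit 286756) (nat_lit 10) (.e (nat_lit 344126) (nat_lit 25) (.e (nat_lit 548874) (nat_lit 5) (.e (nat_lit 1598) (nat_lit 111) .nil))))) .nil))) (.nd (nat_lit 6) 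
(.lf (nat_lit 52141) (.g (nat_lit 3789) (.e (nat_lit 1355) (nat_lit 102) (.e (nat_lit 286761) (nat_lit 13) (.e (nat_lit 393301) (nat_lit 27) (.e (nat_lit 491552) (nat_lit 9) .nil)))) .nil)) 
(.lf (nat_lit 52205) (.g (nat_lit 2445) (.e (nat_lit 1358) (nat_lit 102) (.e (nat_lit 286735) (nat_lit 3) (.e (nat_lit 98372) (nat_lit 29) (.e (nat_lit 450579) (nat_lit 5) .nil)))) .nil)))) (.nd (nat_lit 5) (.nd (nat_lit 6) 
(.lf (nat_lit 52125) (.g (nat_lit 1794) (.e (nat_lit 1355) (nat_lit 102) (.e (nat_lit 286759) (nat_lit 12) (.e (nat_lit 385074) (nat_lit 31) (.e (nat_lit 573484) (nat_lit 13) .nil)))) .nil)) 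
(.lf (nat_lit 52189) (.g (nat_lit 3146) (.e (nat_lit 1357) (nat_lit 102) (.e (nat_lit 286733) (nat_lit 2) (.e (nat_lit 90170) (nat_lit 13) (.e (nat_lit 172106) (nat_lit 10) (.e (nat_lit 434231) (nat_lit 23) (.e (nat_lit 532490) (nat_lit 0) (.e (nat_lit 6092) (nat_lit 332) .nil))))))) (.g (nat_lit 4) .nil .nil)))) (.nd (nat_lit 6) 
(.lf (nat_lit 52157) (.g (nat_lit 972) (.e (nat_lit 1356) (nat_lit 102) (.e (nat_lit 286735) (nat_lit 3) (.e (nat_lit 98373) (nat_lit 29) .nil))) .nil)) 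
(.lf (nat_lit 52221) (.g (nat_lit 3000) (.e (nat_lit 1358) (nat_lit 102) (.e (nat_lit 286749) (nat_lit 9) (.e (nat_lit 336013) (nat_lit 2) (.e (nat_lit 90170) (nat_lit 13) (.e (nat_lit 172061) (nat_lit 1) (.e (nat_lit 164326) (nat_lit 230) (.e (nat_lit 163871) (nat_lit 2) (.e (nat_lit 196691) (nat_lit 18) .nil)))))))) (.g (nat_lit 4) .nil .nil)))))))) 
(.nd (nat_lit 2) (.nd (nat_lit 3) (.nd (nat_lit 4) (.nd (nat_lit 5) (.nd (nat_lit 6) 
(.lf (nat_lit 52099) (.g (nat_lit 2226) (.e (nat_lit 1355) (nat_lit 102) (.e (nat_lit 286735) (nat_lit 3) (.e (nat_lit 98369) (nat_lit 28) (.e (nat_lit 442424) (nat_lit 22) .nil)))) .nil)) 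
(.lf (nat_lit 52163) (.g (nat_lit 1017) (.e (nat_lit 1356) (nat_lit 102) (.e (nat_lit 286753) (nat_lit 10) (.e (nat_lit 344126) (nat_lit 25) (.e (nat_lit 548872) (nat_lit 5) .nil)))) .nil))) (.nd (nat_lit 6) 
(.lf (nat_lit 52131) (.g (nat_lit 1114) (.e (nat_lit 1355) (nat_lit 102) (.e (nat_lit 286761) (nat_lit 13) (.e (nat_lit 393234) (nat_lit 17) .nil))) .nil)) 
(.lf (nat_lit 52195) (.g (nat_lit 1051) (.e (nat_lit 1357) (nat_lit 102) (.e (nat_lit 286761) (nat_lit 13) (.e (nat_lit 393301) (nat_lit 27) .nil))) .nil)))) (.nd (nat_lit 5) (.nd (nat_lit 6) 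
(.lf (nat_lit 52115) (.g (nat_lit 921) (.e (nat_lit 1355) (nat_lit 102) (.e (nat_lit 286735) (nat_lit 3) (.e (nat_lit 98382) (nat_lit 31) .nil))) .nil)) 
(.lf (nat_lit 52179) (.g (nat_lit 812) (.e (nat_lit 1356) (nat_lit 102) (.e (nat_lit 286761) (nat_lit 13) (.e (nat_lit 393301) (nat_lit 27) .nil))) .nil))) (.nd (nat_lit 6) 
(.lf (nat_lit 52147) (.g (nat_lit 3283) (.e (nat_lit 1355) (nat_lit 102) (.e (nat_lit 286761) (nat_lit 13) (.e (nat_lit 393301) (nat_lit 27) (.e (nat_lit 491563) (nat_lit 12) .nil)))) .nil)) 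
(.lf (nat_lit 52211) (.g (nat_lit 3623) (.e (nat_lit 1358) (nat_lit 102) (.e (nat_lit 286747) (nat_lit 9) (.e (nat_lit 336013) (nat_lit 2) (.e (nat_lit 90170) (nat_lit 13) (.e (nat_lit 172061) (nat_lit 1) .nil))))) .nil))))) (.nd (nat_lit 4) (.nd (nat_lit 5) (.nd (nat_lit 6) 
(.lf (nat_lit 52107) (.g (nat_lit 3348) (.e (nat_lit 1355) (nat_lit 102) (.e (nat_lit 286735) (nat_lit 3) (.e (nat_lit 98372) (nat_lit 29) (.e (nat_lit 450579) (nat_lit 5) (.e (nat_lit 532481) (nat_lit 0) .nil))))) .nil)) 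
(.lf (nat_lit 52171) (.g (nat_lit 1029) (.e (nat_lit 1356) (nat_lit 102) (.e (nat_lit 286756) (nat_lit 10) (.e (nat_lit 344126) (nat_lit 25) (.e (nat_lit 548872) (nat_lit 5) .nil)))) .nil))) (.nd (nat_lit 6) 
(.lf (nat_lit 52139) (.g (nat_lit 3650) (.e (nat_lit 1355) (nat_lit 102) (.e (nat_lit 286761) (nat_lit 13) (.e (nat_lit 393301) (nat_lit 27) (.e (nat_lit 491546) (nat_lit 9) .nil)))) .nil)) 
(.lf (nat_lit 52203) (.g (nat_lit 593) (.e (nat_lit 1358) (nat_lit 102) (.e (nat_lit 286734) (nat_lit 3) (.e (nat_lit 98372) (nat_lit 29) .nil))) .nil)))) (.nd (nat_lit 5) (.nd (nat_lit 6) 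
(.lf (nat_lit 52123) (.g (nat_lit 3487) (.e (nat_lit 1355) (nat_lit 102) (.e (nat_lit 286756) (nat_lit 10) (.e (nat_lit 344126) (nat_lit 25) (.e (nat_lit 548889) (nat_lit 9) (.e (nat_lit 65598) (nat_lit 9) (.e (nat_lit 336013) (nat_lit 2) (.e (nat_lit 98048) (nat_lit 18) .nil))))))) (.g (nat_lit 6) .nil .nil))) 
(.lf (nat_lit 52187) (.g (nat_lit 2801) (.e (nat_lit 1357) (nat_lit 102) (.e (nat_lit 286732) (nat_lit 2) (.e (nat_lit 90170) (nat_lit 13) (.e (nat_lit 172106) (nat_lit 10) (.e (nat_lit 434231) (nat_lit 23) (.e (nat_lit 532490) (nat_lit 0) (.e (nat_lit 6149) (nat_lit 332) .nil))))))) (.g (nat_lit 5) .nil .nil)))) (.nd (nat_lit 6) 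
(.lf (nat_lit 52155) (.g (nat_lit 2997) (.e (nat_lit 1356) (nat_lit 102) (.e (nat_lit 286735) (nat_lit 3) (.e (nat_lit 98372) (nat_lit 29) (.e (nat_lit 450579) (nat_lit 5) (.e (nat_lit 532484) (nat_lit 0) (.e (nat_lit 6157) (nat_lit 332) .nil)))))) (.g (nat_lit 4) .nil .nil))) 
(.lf (nat_lit 52219) (.g (nat_lit 2856) (.e (nat_lit 1358) (nat_lit 102) (.e (nat_lit 286749) (nat_lit 9) (.e (nat_lit 336013) (nat_lit 2) (.e (nat_lit 90170) (nat_lit 13) (.e (nat_lit 172061) (nat_lit 1) .nil))))) .nil)))))) (.nd (nat_lit 3) (.nd (nat_lit 4) (.nd (nat_lit 5) (.nd (nat_lit 6) 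
(.lf (nat_lit 52103) (.g (nat_lit 1677) (.e (nat_lit 1355) (nat_lit 102) (.e (nat_lit 286735) (nat_lit 3) (.e (nat_lit 98371) (nat_lit 28) (.e (nat_lit 442424) (nat_lit 22) .nil)))) .nil)) 
(.lf (nat_lit 52167) (.g (nat_lit 3517) (.e (nat_lit 1356) (nat_lit 102) (.e (nat_lit 286753) (nat_lit 10) (.e (nat_lit 344126) (nat_lit 25) (.e (nat_lit 548889) (nat_lit 9) (.e (nat_lit 65598) (nat_lit 9) (.e (nat_lit 336013) (nat_lit 2) (.e (nat_lit 98048) (nat_lit 18) .nil))))))) (.g (nat_lit 6) .nil .nil)))) (.nd (nat_lit 6) 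
(.lf (nat_lit 52135) (.g (nat_lit 894) (.e (nat_lit 1355) (nat_lit 102) (.e (nat_lit 286761) (nat_lit 13) (.e (nat_lit 393284) (nat_lit 24) .nil))) .nil)) 
(.lf (nat_lit 52199) (.g (nat_lit 578) (.e (nat_lit 1358) (nat_lit 102) (.e (nat_lit 286734) (nat_lit 3) (.e (nat_lit 98359) (nat_lit 26) .nil))) .nil)))) (.nd (nat_lit 5) (.nd (nat_lit 6) 
(.lf (nat_lit 52119) (.g (nat_lit 3323) (.e (nat_lit 1355) (nat_lit 102) (.e (nat_lit 286753) (nat_lit 10) (.e (nat_lit 344126) (nat_lit 25) (.e (nat_lit 548889) (nat_lit 9) (.e (nat_lit 65598) (nat_lit 9) (.e (nat_lit 336013) (nat_lit 2) (.e (nat_lit 98048) (nat_lit 18) .nil))))))) (.g (nat_lit 5) .nil .nil))) 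
(.lf (nat_lit 52183) (.g (nat_lit 4355) (.e (nat_lit 1356) (nat_lit 102) (.e (nat_lit 286761) (nat_lit 13) (.e (nat_lit 393301) (nat_lit 27) (.e (nat_lit 491560) (nat_lit 10) .nil)))) .nil))) (.nd (nat_lit 6) 
(.lf (nat_lit 52151) (.g (nat_lit 2281) (.e (nat_lit 1356) (nat_lit 102) (.e (nat_lit 286734) (nat_lit 3) (.e (nat_lit 98372) (nat_lit 29) (.e (nat_lit 450579) (nat_lit 5) (.e (nat_lit 532488) (nat_lit 0) .nil))))) .nil)) 
(.lf (nat_lit 52215) (.g (nat_lit 3669) (.e (nat_lit 1358) (nat_lit 102) (.e (nat_lit 286747) (nat_lit 9) (.e (nat_lit 336013) (nat_lit 2) (.e (nat_lit 90185) (nat_lit 17) (.e (nat_lit 237585) (nat_lit 1) .nil))))) .nil))))) (.nd (nat_lit 4) (.nd (nat_lit 5) (.nd (nat_lit 6) 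
(.lf (nat_lit 52111) (.g (nat_lit 3129) (.e (nat_lit 1355) (nat_lit 102) (.e (nat_lit 286735) (nat_lit 3) (.e (nat_lit 98373) (nat_lit 29) (.e (nat_lit 458496) (nat_lit 1) .nil)))) .nil)) 
(.lf (nat_lit 52175) (.g (nat_lit 3172) (.e (nat_lit 1356) (nat_lit 102) (.e (nat_lit 286759) (nat_lit 12) (.e (nat_lit 385074) (nat_lit 31) (.e (nat_lit 573491) (nat_lit 15) .nil)))) .nil))) (.nd (nat_lit 6) 
(.lf (nat_lit 52143) (.g (nat_lit 3959) (.e (nat_lit 1355) (nat_lit 102) (.e (nat_lit 286761) (nat_lit 13) (.e (nat_lit 393301) (nat_lit 27) (.e (nat_lit 491558) (nat_lit 10) .nil)))) .nil)) 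
(.lf (nat_lit 52207) (.g (nat_lit 2849) (.e (nat_lit 1358) (nat_lit 102) (.e (nat_lit 286735) (nat_lit 3) (.e (nat_lit 98373) (nat_lit 29) (.e (nat_lit 450588) (nat_lit 10) .nil)))) .nil)))) (.nd (nat_lit 5) (.nd (nat_lit 6) 
(.lf (nat_lit 52127) (.g (nat_lit 1935) (.e (nat_lit 1355) (nat_lit 102) (.e (nat_lit 286759) (nat_lit 12) (.e (nat_lit 385074) (nat_lit 31) (.e (nat_lit 573491) (nat_lit 15) .nil)))) .nil)) 
(.lf (nat_lit 52191) (.g (nat_lit 797) (.e (nat_lit 1357) (nat_lit 102) (.e (nat_lit 286753) (nat_lit 10) (.e (nat_lit 344115) (nat_lit 20) (.e (nat_lit 507923) (nat_lit 6) .nil)))) .nil))) (.nd (nat_lit 6) 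
(.lf (nat_lit 52159) (.g (nat_lit 2595) (.e (nat_lit 1356) (nat_lit 102) (.e (nat_lit 286735) (nat_lit 3) (.e (nat_lit 98373) (nat_lit 29) (.e (nat_lit 450587) (nat_lit 10) .nil)))) .nil)) 
(.lf (nat_lit 52223) (.g (nat_lit 423) (.e (nat_lit 1358) (nat_lit 102) (.e (nat_lit 286749) (nat_lit 9) (.e (nat_lit 336028) (nat_lit 3) .nil))) .nil)))))))))

noncomputable def tv724 : DT := (.nd (nat_lit 0) (.nd (nat_lit 1) (.nd (nat_lit 2) (.nd (nat_lit 3) (.nd (nat_lit 4) (.nd (nat_lit 5) 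
(.lf (nat_lit 52224) (.g (nat_lit 2307) (.e (nat_lit 1358) (nat_lit 102) (.e (nat_lit 286749) (nat_lit 9) (.e (nat_lit 336028) (nat_lit 3) (.e (nat_lit 98366) (nat_lit 27) (.e (nat_lit 434275) (nat_lit 39) (.e (nat_lit 663584) (nat_lit 12) (.e (nat_lit 163976) (nat_lit 30) (.e (nat_lit 573503) (nat_lit 18) .nil)))))))) (.g (nat_lit 4) .nil .nil))) 
(.lf (nat_lit 52256) (.g (nat_lit 2080) (.e (nat_lit 1358) (nat_lit 102) (.e (nat_lit 286753) (nat_lit 10) (.e (nat_lit 344117) (nat_lit 21) (.e (nat_lit 516185) (nat_lit 16) (.e (nat_lit 491546) (nat_lit 9) .nil))))) .nil))) (.nd (nat_lit 5) 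
(.lf (nat_lit 52240) (.g (nat_lit 2198) (.e (nat_lit 1358) (nat_lit 102) (.e (nat_lit 286753) (nat_lit 10) (.e (nat_lit 344117) (nat_lit 21) (.e (nat_lit 516159) (nat_lit 10) (.e (nat_lit 434209) (nat_lit 18) (.e (nat_lit 5224) (nat_lit 296) (.e (nat_lit 163868) (nat_lit 2) (.e (nat_lit 196690) (nat_lit 18) .nil)))))))) (.g (nat_lit 5) .nil .nil))) 
(.lf (nat_lit 52272) (.g (nat_lit 2275) (.e (nat_lit 1358) (nat_lit 102) (.e (nat_lit 286753) (nat_lit 10) (.e (nat_lit 344138) (nat_lit 29) (.e (nat_lit 581651) (nat_lit 4) (.e (nat_lit 172094) (nat_lit 9) (.e (nat_lit 426162) (nat_lit 6) (.e (nat_lit 254008) (nat_lit 14) .nil))))))) (.g (nat_lit 0) .nil .nil))))) (.nd (nat_lit 4) (.nd (nat_lit 5) 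
(.lf (nat_lit 52232) (.g (nat_lit 5169) (.e (nat_lit 1358) (nat_lit 102) (.e (nat_lit 286753) (nat_lit 10) (.e (nat_lit 344117) (nat_lit 21) (.e (nat_lit 516151) (nat_lit 9) (.e (nat_lit 426097) (nat_lit 1) (.e (nat_lit 164327) (nat_lit 230) (.e (nat_lit 163868) (nat_lit 2) (.e (nat_lit 196691) (nat_lit 18) .nil)))))))) (.g (nat_lit 0) .nil .nil))) 
(.lf (nat_lit 52264) (.g (nat_lit 1766) (.e (nat_lit 1358) (nat_lit 102) (.e (nat_lit 286753) (nat_lit 10) (.e (nat_lit 344126) (nat_lit 25) (.e (nat_lit 548872) (nat_lit 5) (.e (nat_lit 1598) (nat_lit 111) (.e (nat_lit 360462) (nat_lit 1) (.e (nat_lit 499755) (nat_lit 0) .nil))))))) (.g (nat_lit 5) .nil .nil)))) (.nd (nat_lit 5) 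
(.lf (nat_lit 52248) (.g (nat_lit 2172) (.e (nat_lit 1358) (nat_lit 102) (.e (nat_lit 286753) (nat_lit 10) (.e (nat_lit 344117) (nat_lit 21) (.e (nat_lit 516160) (nat_lit 10) (.e (nat_lit 434275) (nat_lit 39) (.e (nat_lit 663585) (nat_lit 12) (.e (nat_lit 163979) (nat_lit 30) (.e (nat_lit 573503) (nat_lit 18) .nil)))))))) (.g (nat_lit 4) .nil .nil))) 
(.lf (nat_lit 52280) (.g (nat_lit 3701) (.e (nat_lit 1358) (nat_lit 102) (.e (nat_lit 286753) (nat_lit 10) (.e (nat_lit 344183) (nat_lit 49) (.e (nat_lit 819219) (nat_lit 4) (.e (nat_lit 172106) (nat_lit 10) (.e (nat_lit 434244) (nat_lit 28) (.e (nat_lit 573503) (nat_lit 18) .nil))))))) (.g (nat_lit 0) .nil .nil)))))) (.nd (nat_lit 3) (.nd (nat_lit 4) (.nd (nat_lit 5) 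
(.lf (nat_lit 52228) (.g (nat_lit 2891) (.e (nat_lit 1358) (nat_lit 102) (.e (nat_lit 286753) (nat_lit 10) (.e (nat_lit 344117) (nat_lit 21) (.e (nat_lit 516106) (nat_lit 0) (.e (nat_lit 7936) (nat_lit 407) (.e (nat_lit 73742) (nat_lit 1) (.e (nat_lit 499755) (nat_lit 0) .nil))))))) (.g (nat_lit 4) .nil .nil))) 
(.lf (nat_lit 52260) (.g (nat_lit 2813) (.e (nat_lit 1358) (nat_lit 102) (.e (nat_lit 286753) (nat_lit 10) (.e (nat_lit 344123) (nat_lit 24) (.e (nat_lit 540724) (nat_lit 28) (.e (nat_lit 442434) (nat_lit 26) (.e (nat_lit 254007) (nat_lit 14) .nil)))))) (.g (nat_lit 0) .nil .nil)))) (.nd (nat_lit 5) 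
(.lf (nat_lit 52244) (.g (nat_lit 4133) (.e (nat_lit 1358) (nat_lit 102) (.e (nat_lit 286753) (nat_lit 10) (.e (nat_lit 344117) (nat_lit 21) (.e (nat_lit 516160) (nat_lit 10) (.e (nat_lit 434209) (nat_lit 18) (.e (nat_lit 5223) (nat_lit 296) (.e (nat_lit 163868) (nat_lit 2) (.e (nat_lit 196691) (nat_lit 18) .nil)))))))) (.g (nat_lit 8) .nil .nil))) 
(.lf (nat_lit 52276) (.g (nat_lit 2749) (.e (nat_lit 1358) (nat_lit 102) (.e (nat_lit 286753) (nat_lit 10) (.e (nat_lit 344138) (nat_lit 29) (.e (nat_lit 581653) (nat_lit 6) (.e (nat_lit 188461) (nat_lit 26) (.e (nat_lit 254008) (nat_lit 14) .nil)))))) (.g (nat_lit 0) .nil .nil))))) (.nd (nat_lit 4) (.nd (nat_lit 5) 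
(.lf (nat_lit 52236) (.g (nat_lit 3845) (.e (nat_lit 1358) (nat_lit 102) (.e (nat_lit 286753) (nat_lit 10) (.e (nat_lit 344117) (nat_lit 21) (.e (nat_lit 516151) (nat_lit 9) (.e (nat_lit 426104) (nat_lit 1) (.e (nat_lit 164326) (nat_lit 230) (.e (nat_lit 163871) (nat_lit 2) (.e (nat_lit 196691) (nat_lit 18) .nil)))))))) (.g (nat_lit 6) .nil .nil))) 
(.lf (nat_lit 52268) (.g (nat_lit 1864) (.e (nat_lit 1358) (nat_lit 102) (.e (nat_lit 286753) (nat_lit 10) (.e (nat_lit 344126) (nat_lit 25) (.e (nat_lit 548873) (nat_lit 5) (.e (nat_lit 1598) (nat_lit 111) (.e (nat_lit 360462) (nat_lit 1) (.e (nat_lit 499755) (nat_lit 0) .nil))))))) (.g (nat_lit 6) .nil .nil)))) (.nd (nat_lit 5) 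
(.lf (nat_lit 52252) (.g (nat_lit 2056) (.e (nat_lit 1358) (nat_lit 102) (.e (nat_lit 286753) (nat_lit 10) (.e (nat_lit 344117) (nat_lit 21) (.e (nat_lit 516170) (nat_lit 13) (.e (nat_lit 458774) (nat_lit 18) (.e (nat_lit 5224) (nat_lit 296) (.e (nat_lit 163868) (nat_lit 2) (.e (nat_lit 196690) (nat_lit 18) .nil)))))))) (.g (nat_lit 5) .nil .nil))) 
(.lf (nat_lit 52284) (.g (nat_lit 2266) (.e (nat_lit 1358) (nat_lit 102) (.e (nat_lit 286759) (nat_lit 12) (.e (nat_lit 385106) (nat_lit 50) (.e (nat_lit 786481) (nat_lit 30) (.e (nat_lit 360482) (nat_lit 15) .nil))))) .nil)))))) (.nd (nat_lit 2) (.nd (nat_lit 3) (.nd (nat_lit 4) (.nd (nat_lit 5) 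
(.lf (nat_lit 52226) (.g (nat_lit 2676) (.e (nat_lit 1358) (nat_lit 102) (.e (nat_lit 286749) (nat_lit 9) (.e (nat_lit 336028) (nat_lit 3) (.e (nat_lit 98367) (nat_lit 27) (.e (nat_lit 434275) (nat_lit 39) (.e (nat_lit 663584) (nat_lit 12) (.e (nat_lit 163976) (nat_lit 30) (.e (nat_lit 573503) (nat_lit 18) .nil)))))))) (.g (nat_lit 4) .nil .nil))) 
(.lf (nat_lit 52258) (.g (nat_lit 1915) (.e (nat_lit 1358) (nat_lit 102) (.e (nat_lit 286753) (nat_lit 10) (.e (nat_lit 344117) (nat_lit 21) (.e (nat_lit 516195) (nat_lit 26) (.e (nat_lit 335995) (nat_lit 1) .nil))))) .nil))) (.nd (nat_lit 5) 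
(.lf (nat_lit 52242) (.g (nat_lit 5172) (.e (nat_lit 1358) (nat_lit 102) (.e (nat_lit 286753) (nat_lit 10) (.e (nat_lit 344117) (nat_lit 21) (.e (nat_lit 516159) (nat_lit 10) (.e (nat_lit 434275) (nat_lit 39) (.e (nat_lit 663584) (nat_lit 12) (.e (nat_lit 163979) (nat_lit 30) (.e (nat_lit 573503) (nat_lit 18) .nil)))))))) (.g (nat_lit 0) .nil .nil))) 
(.lf (nat_lit 52274) (.g (nat_lit 2670) (.e (nat_lit 1358) (nat_lit 102) (.e (nat_lit 286753) (nat_lit 10) (.e (nat_lit 344138) (nat_lit 29) (.e (nat_lit 581653) (nat_lit 6) (.e (nat_lit 188459) (nat_lit 26) (.e (nat_lit 254008) (nat_lit 14) .nil)))))) (.g (nat_lit 0) .nil .nil))))) (.nd (nat_lit 4) (.nd (nat_lit 5) 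
(.lf (nat_lit 52234) (.g (nat_lit 2873) (.e (nat_lit 1358) (nat_lit 102) (.e (nat_lit 286753) (nat_lit 10) (.e (nat_lit 344117) (nat_lit 21) (.e (nat_lit 516151) (nat_lit 9) (.e (nat_lit 426104) (nat_lit 1) .nil))))) .nil)) 
(.lf (nat_lit 52266) (.g (nat_lit 2128) (.e (nat_lit 1358) (nat_lit 102) (.e (nat_lit 286753) (nat_lit 10) (.e (nat_lit 344126) (nat_lit 25) (.e (nat_lit 548873) (nat_lit 5) (.e (nat_lit 1586) (nat_lit 111) (.e (nat_lit 360462) (nat_lit 1) (.e (nat_lit 499755) (nat_lit 0) .nil))))))) (.g (nat_lit 6) .nil .nil)))) (.nd (nat_lit 5) 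
(.lf (nat_lit 52250) (.g (nat_lit 1240) (.e (nat_lit 1358) (nat_lit 102) (.e (nat_lit 286753) (nat_lit 10) (.e (nat_lit 344117) (nat_lit 21) (.e (nat_lit 516169) (nat_lit 13) .nil)))) .nil)) 
(.lf (nat_lit 52282) (.g (nat_lit 2409) (.e (nat_lit 1358) (nat_lit 102) (.e (nat_lit 286759) (nat_lit 12) (.e (nat_lit 385074) (nat_lit 31) (.e (nat_lit 573493) (nat_lit 15) .nil)))) .nil))))) (.nd (nat_lit 3) (.nd (nat_lit 4) (.nd (nat_lit 5) 
(.lf (nat_lit 52230) (.g (nat_lit 2868) (.e (nat_lit 1358) (nat_lit 102) (.e (nat_lit 286753) (nat_lit 10) (.e (nat_lit 344117) (nat_lit 21) (.e (nat_lit 516143) (nat_lit 9) (.e (nat_lit 426109) (nat_lit 1) (.e (nat_lit 164326) (nat_lit 230) (.e (nat_lit 163871) (nat_lit 2) (.e (nat_lit 196691) (nat_lit 18) .nil)))))))) (.g (nat_lit 7) .nil .nil))) 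
(.lf (nat_lit 52262) (.g (nat_lit 2797) (.e (nat_lit 1358) (nat_lit 102) (.e (nat_lit 286753) (nat_lit 10) (.e (nat_lit 344123) (nat_lit 24) (.e (nat_lit 540724) (nat_lit 28) (.e (nat_lit 442436) (nat_lit 26) (.e (nat_lit 254007) (nat_lit 14) .nil)))))) (.g (nat_lit 0) .nil .nil)))) (.nd (nat_lit 5) 
(.lf (nat_lit 52246) (.g (nat_lit 3950) (.e (nat_lit 1358) (nat_lit 102) (.e (nat_lit 286753) (nat_lit 10) (.e (nat_lit 344117) (nat_lit 21) (.e (nat_lit 516160) (nat_lit 10) (.e (nat_lit 434209) (nat_lit 18) (.e (nat_lit 5224) (nat_lit 296) (.e (nat_lit 163868) (nat_lit 2) (.e (nat_lit 196691) (nat_lit 18) .nil)))))))) (.g (nat_lit 7) .nil .nil))) 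
(.lf (nat_lit 52278) (.g (nat_lit 1186) (.e (nat_lit 1358) (nat_lit 102) (.e (nat_lit 286753) (nat_lit 10) (.e (nat_lit 344160) (nat_lit 37) (.e (nat_lit 647195) (nat_lit 9) .nil)))) .nil)))) (.nd (nat_lit 4) (.nd (nat_lit 5) 
(.lf (nat_lit 52238) (.g (nat_lit 3103) (.e (nat_lit 1358) (nat_lit 102) (.e (nat_lit 286753) (nat_lit 10) (.e (nat_lit 344117) (nat_lit 21) (.e (nat_lit 516151) (nat_lit 9) (.e (nat_lit 426104) (nat_lit 1) (.e (nat_lit 164327) (nat_lit 230) (.e (nat_lit 163871) (nat_lit 2) (.e (nat_lit 196691) (nat_lit 18) .nil)))))))) (.g (nat_lit 4) .nil .nil))) 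
(.lf (nat_lit 52270) (.g (nat_lit 2356) (.e (nat_lit 1358) (nat_lit 102) (.e (nat_lit 286753) (nat_lit 10) (.e (nat_lit 344126) (nat_lit 25) (.e (nat_lit 548874) (nat_lit 5) (.e (nat_lit 1598) (nat_lit 111) (.e (nat_lit 360462) (nat_lit 1) (.e (nat_lit 499755) (nat_lit 0) .nil))))))) (.g (nat_lit 6) .nil .nil)))) (.nd (nat_lit 5) 
(.lf (nat_lit 52254) (.g (nat_lit 3887) (.e (nat_lit 1358) (nat_lit 102) (.e (nat_lit 286753) (nat_lit 10) (.e (nat_lit 344117) (nat_lit 21) (.e (nat_lit 516170) (nat_lit 13) (.e (nat_lit 458774) (nat_lit 18) (.e (nat_lit 5224) (nat_lit 296) (.e (nat_lit 163871) (nat_lit 2) (.e (nat_lit 196691) (nat_lit 18) .nil)))))))) (.g (nat_lit 0) .nil .nil))) 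
(.lf (nat_lit 52286) (.g (nat_lit 2738) (.e (nat_lit 1358) (nat_lit 102) (.e (nat_lit 286761) (nat_lit 13) (.e (nat_lit 393234) (nat_lit 17) (.e (nat_lit 7589) (nat_lit 406) .nil)))) .nil))))))) (.nd (nat_lit 1) (.nd (nat_lit 2) (.nd (nat_lit 3) (.nd (nat_lit 4) (.nd (nat_lit 5) 
(.lf (nat_lit 52225) (.g (nat_lit 2422) (.e (nat_lit 1358) (nat_lit 102) (.e (nat_lit 286749) (nat_lit 9) (.e (nat_lit 336028) (nat_lit 3) (.e (nat_lit 98367) (nat_lit 27) (.e (nat_lit 434275) (nat_lit 39) .nil))))) .nil)) 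
(.lf (nat_lit 52257) (.g (nat_lit 1250) (.e (nat_lit 1358) (nat_lit 102) (.e (nat_lit 286753) (nat_lit 10) (.e (nat_lit 344117) (nat_lit 21) (.e (nat_lit 516195) (nat_lit 26) .nil)))) .nil))) (.nd (nat_lit 5) 
(.lf (nat_lit 52241) (.g (nat_lit 3620) (.e (nat_lit 1358) (nat_lit 102) (.e (nat_lit 286753) (nat_lit 10) (.e (nat_lit 344117) (nat_lit 21) (.e (nat_lit 516159) (nat_lit 10) (.e (nat_lit 434209) (nat_lit 18) (.e (nat_lit 5224) (nat_lit 296) (.e (nat_lit 163868) (nat_lit 2) (.e (nat_lit 196691) (nat_lit 18) .nil)))))))) (.g (nat_lit 7) .nil .nil))) 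
(.lf (nat_lit 52273) (.g (nat_lit 2706) (.e (nat_lit 1358) (nat_lit 102) (.e (nat_lit 286753) (nat_lit 10) (.e (nat_lit 344138) (nat_lit 29) (.e (nat_lit 581653) (nat_lit 6) (.e (nat_lit 188459) (nat_lit 26) (.e (nat_lit 254007) (nat_lit 14) .nil)))))) (.g (nat_lit 0) .nil .nil))))) (.nd (nat_lit 4) (.nd (nat_lit 5) 
(.lf (nat_lit 52233) (.g (nat_lit 4521) (.e (nat_lit 1358) (nat_lit 102) (.e (nat_lit 286753) (nat_lit 10) (.e (nat_lit 344117) (nat_lit 21) (.e (nat_lit 516151) (nat_lit 9) (.e (nat_lit 426097) (nat_lit 1) (.e (nat_lit 164327) (nat_lit 230) (.e (nat_lit 163871) (nat_lit 2) (.e (nat_lit 196691) (nat_lit 18) .nil)))))))) (.g (nat_lit 0) .nil .nil))) 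
(.lf (nat_lit 52265) (.g (nat_lit 897) (.e (nat_lit 1358) (nat_lit 102) (.e (nat_lit 286753) (nat_lit 10) (.e (nat_lit 344126) (nat_lit 25) (.e (nat_lit 548873) (nat_lit 5) .nil)))) .nil))) (.nd (nat_lit 5) 
(.lf (nat_lit 52249) (.g (nat_lit 2247) (.e (nat_lit 1358) (nat_lit 102) (.e (nat_lit 286753) (nat_lit 10) (.e (nat_lit 344117) (nat_lit 21) (.e (nat_lit 516160) (nat_lit 10) (.e (nat_lit 434276) (nat_lit 39) .nil))))) .nil)) 
(.lf (nat_lit 52281) (.g (nat_lit 2970) (.e (nat_lit 1358) (nat_lit 102) (.e (nat_lit 286759) (nat_lit 12) (.e (nat_lit 385074) (nat_lit 31) (.e (nat_lit 573491) (nat_lit 15) .nil)))) .nil))))) (.nd (nat_lit 3) (.nd (nat_lit 4) (.nd (nat_lit 5) 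
(.lf (nat_lit 52229) (.g (nat_lit 3029) (.e (nat_lit 1358) (nat_lit 102) (.e (nat_lit 286753) (nat_lit 10) (.e (nat_lit 344117) (nat_lit 21) (.e (nat_lit 516106) (nat_lit 0) (.e (nat_lit 7936) (nat_lit 407) (.e (nat_lit 73743) (nat_lit 1) (.e (nat_lit 499755) (nat_lit 0) .nil))))))) (.g (nat_lit 4) .nil .nil))) 
(.lf (nat_lit 52261) (.g (nat_lit 1581) (.e (nat_lit 1358) (nat_lit 102) (.e (nat_lit 286753) (nat_lit 10) (.e (nat_lit 344123) (nat_lit 24) (.e (nat_lit 540724) (nat_lit 28) (.e (nat_lit 442435) (nat_lit 26) (.e (nat_lit 254008) (nat_lit 14) .nil)))))) (.g (nat_lit 0) .nil .nil)))) (.nd (nat_lit 5) 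
(.lf (nat_lit 52245) (.g (nat_lit 2528) (.e (nat_lit 1358) (nat_lit 102) (.e (nat_lit 286753) (nat_lit 10) (.e (nat_lit 344117) (nat_lit 21) (.e (nat_lit 516160) (nat_lit 10) (.e (nat_lit 434209) (nat_lit 18) (.e (nat_lit 5224) (nat_lit 296) (.e (nat_lit 163868) (nat_lit 2) (.e (nat_lit 196690) (nat_lit 18) .nil)))))))) (.g (nat_lit 5) .nil .nil))) 
(.lf (nat_lit 52277) (.g (nat_lit 181) (.e (nat_lit 1358) (nat_lit 102) (.e (nat_lit 286753) (nat_lit 10) (.e (nat_lit 344157) (nat_lit 36) .nil))) .nil)))) (.nd (nat_lit 4) (.nd (nat_lit 5) 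
(.lf (nat_lit 52237) (.g (nat_lit 2967) (.e (nat_lit 1358) (nat_lit 102) (.e (nat_lit 286753) (nat_lit 10) (.e (nat_lit 344117) (nat_lit 21) (.e (nat_lit 516151) (nat_lit 9) (.e (nat_lit 426104) (nat_lit 1) (.e (nat_lit 164327) (nat_lit 230) (.e (nat_lit 163868) (nat_lit 2) (.e (nat_lit 196690) (nat_lit 18) .nil)))))))) (.g (nat_lit 4) .nil .nil))) 
(.lf (nat_lit 52269) (.g (nat_lit 2759) (.e (nat_lit 1358) (nat_lit 102) (.e (nat_lit 286753) (nat_lit 10) (.e (nat_lit 344126) (nat_lit 25) (.e (nat_lit 548874) (nat_lit 5) (.e (nat_lit 1586) (nat_lit 111) (.e (nat_lit 360462) (nat_lit 1) (.e (nat_lit 499755) (nat_lit 0) .nil))))))) (.g (nat_lit 7) .nil .nil)))) (.nd (nat_lit 5) 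
(.lf (nat_lit 52253) (.g (nat_lit 3478) (.e (nat_lit 1358) (nat_lit 102) (.e (nat_lit 286753) (nat_lit 10) (.e (nat_lit 344117) (nat_lit 21) (.e (nat_lit 516170) (nat_lit 13) (.e (nat_lit 458774) (nat_lit 18) (.e (nat_lit 5224) (nat_lit 296) (.e (nat_lit 163868) (nat_lit 2) (.e (nat_lit 196691) (nat_lit 18) .nil)))))))) (.g (nat_lit 7) .nil .nil))) 
(.lf (nat_lit 52285) (.g (nat_lit 1134) (.e (nat_lit 1358) (nat_lit 102) (.e (nat_lit 286761) (nat_lit 13) (.e (nat_lit 393234) (nat_lit 17) .nil))) .nil)))))) (.nd (nat_lit 2) (.nd (nat_lit 3) (.nd (nat_lit 4) (.nd (nat_lit 5) 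
(.lf (nat_lit 52227) (.g (nat_lit 1808) (.e (nat_lit 1358) (nat_lit 102) (.e (nat_lit 286753) (nat_lit 10) (.e (nat_lit 344115) (nat_lit 20) (.e (nat_lit 507923) (nat_lit 6) (.e (nat_lit 286747) (nat_lit 9) (.e (nat_lit 336013) (nat_lit 2) (.e (nat_lit 98048) (nat_lit 18) .nil))))))) (.g (nat_lit 6) .nil .nil))) 
(.lf (nat_lit 52259) (.g (nat_lit 2188) (.e (nat_lit 1358) (nat_lit 102) (.e (nat_lit 286753) (nat_lit 10) (.e (nat_lit 344117) (nat_lit 21) (.e (nat_lit 516195) (nat_lit 26) (.e (nat_lit 335995) (nat_lit 1) (.e (nat_lit 57848) (nat_lit 252) (.e (nat_lit 57385) (nat_lit 4) (.e (nat_lit 106551) (nat_lit 14) .nil)))))))) (.g (nat_lit 4) .nil .nil)))) (.nd (nat_lit 5) 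
(.lf (nat_lit 52243) (.g (nat_lit 1189) (.e (nat_lit 1358) (nat_lit 102) (.e (nat_lit 286753) (nat_lit 10) (.e (nat_lit 344117) (nat_lit 21) (.e (nat_lit 516160) (nat_lit 10) .nil)))) .nil)) 
(.lf (nat_lit 52275) (.g (nat_lit 2867) (.e (nat_lit 1358) (nat_lit 102) (.e (nat_lit 286753) (nat_lit 10) (.e (nat_lit 344138) (nat_lit 29) (.e (nat_lit 581653) (nat_lit 6) (.e (nat_lit 188461) (nat_lit 26) (.e (nat_lit 254007) (nat_lit 14) .nil)))))) (.g (nat_lit 0) .nil .nil))))) (.nd (nat_lit 4) (.nd (nat_lit 5) 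
(.lf (nat_lit 52235) (.g (nat_lit 2991) (.e (nat_lit 1358) (nat_lit 102) (.e (nat_lit 286753) (nat_lit 10) (.e (nat_lit 344117) (nat_lit 21) (.e (nat_lit 516151) (nat_lit 9) (.e (nat_lit 426104) (nat_lit 1) (.e (nat_lit 164326) (nat_lit 230) (.e (nat_lit 163868) (nat_lit 2) (.e (nat_lit 196690) (nat_lit 18) .nil)))))))) (.g (nat_lit 4) .nil .nil))) 
(.lf (nat_lit 52267) (.g (nat_lit 1281) (.e (nat_lit 1358) (nat_lit 102) (.e (nat_lit 286753) (nat_lit 10) (.e (nat_lit 344126) (nat_lit 25) (.e (nat_lit 548873) (nat_lit 5) (.e (nat_lit 1595) (nat_lit 111) (.e (nat_lit 360458) (nat_lit 1) (.e (nat_lit 499724) (nat_lit 0) .nil))))))) (.g (nat_lit 4) .nil .nil)))) (.nd (nat_lit 5) 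
(.lf (nat_lit 52251) (.g (nat_lit 3187) (.e (nat_lit 1358) (nat_lit 102) (.e (nat_lit 286753) (nat_lit 10) (.e (nat_lit 344117) (nat_lit 21) (.e (nat_lit 516169) (nat_lit 13) (.e (nat_lit 458774) (nat_lit 18) (.e (nat_lit 5224) (nat_lit 296) (.e (nat_lit 163871) (nat_lit 2) (.e (nat_lit 196691) (nat_lit 18) .nil)))))))) (.g (nat_lit 7) .nil .nil))) 
(.lf (nat_lit 52283) (.g (nat_lit 1638) (.e (nat_lit 1358) (nat_lit 102) (.e (nat_lit 286759) (nat_lit 12) (.e (nat_lit 385105) (nat_lit 50) (.e (nat_lit 786483) (nat_lit 30) .nil)))) .nil))))) (.nd (nat_lit 3) (.nd (nat_lit 4) (.nd (nat_lit 5) 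
(.lf (nat_lit 52231) (.g (nat_lit 4319) (.e (nat_lit 1358) (nat_lit 102) (.e (nat_lit 286753) (nat_lit 10) (.e (nat_lit 344117) (nat_lit 21) (.e (nat_lit 516151) (nat_lit 9) (.e (nat_lit 426097) (nat_lit 1) (.e (nat_lit 164327) (nat_lit 230) (.e (nat_lit 163868) (nat_lit 2) (.e (nat_lit 196690) (nat_lit 18) .nil)))))))) (.g (nat_lit 7) .nil .nil))) 
(.lf (nat_lit 52263) (.g (nat_lit 2304) (.e (nat_lit 1358) (nat_lit 102) (.e (nat_lit 286753) (nat_lit 10) (.e (nat_lit 344123) (nat_lit 24) (.e (nat_lit 540724) (nat_lit 28) (.e (nat_lit 442436) (nat_lit 26) (.e (nat_lit 254008) (nat_lit 14) .nil)))))) (.g (nat_lit 0) .nil .nil)))) (.nd (nat_lit 5) 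
(.lf (nat_lit 52247) (.g (nat_lit 4350) (.e (nat_lit 1358) (nat_lit 102) (.e (nat_lit 286753) (nat_lit 10) (.e (nat_lit 344117) (nat_lit 21) (.e (nat_lit 516160) (nat_lit 10) (.e (nat_lit 434209) (nat_lit 18) (.e (nat_lit 5224) (nat_lit 296) (.e (nat_lit 163871) (nat_lit 2) (.e (nat_lit 196691) (nat_lit 18) .nil)))))))) (.g (nat_lit 0) .nil .nil))) 
(.lf (nat_lit 52279) (.g (nat_lit 3704) (.e (nat_lit 1358) (nat_lit 102) (.e (nat_lit 286753) (nat_lit 10) (.e (nat_lit 344169) (nat_lit 40) (.e (nat_lit 671762) (nat_lit 4) (.e (nat_lit 65617) (nat_lit 10) (.e (nat_lit 344164) (nat_lit 37) (.e (nat_lit 647203) (nat_lit 14) .nil))))))) (.g (nat_lit 0) .nil .nil))))) (.nd (nat_lit 4) (.nd (nat_lit 5) 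
(.lf (nat_lit 52239) (.g (nat_lit 3803) (.e (nat_lit 1358) (nat_lit 102) (.e (nat_lit 286753) (nat_lit 10) (.e (nat_lit 344117) (nat_lit 21) (.e (nat_lit 516159) (nat_lit 10) (.e (nat_lit 434209) (nat_lit 18) (.e (nat_lit 5223) (nat_lit 296) (.e (nat_lit 163868) (nat_lit 2) (.e (nat_lit 196691) (nat_lit 18) .nil)))))))) (.g (nat_lit 8) .nil .nil))) 
(.lf (nat_lit 52271) (.g (nat_lit 3680) (.e (nat_lit 1358) (nat_lit 102) (.e (nat_lit 286753) (nat_lit 10) (.e (nat_lit 344126) (nat_lit 25) (.e (nat_lit 548889) (nat_lit 9) (.e (nat_lit 65598) (nat_lit 9) (.e (nat_lit 336013) (nat_lit 2) (.e (nat_lit 98048) (nat_lit 18) .nil))))))) (.g (nat_lit 6) .nil .nil)))) (.nd (nat_lit 5) 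
(.lf (nat_lit 52255) (.g (nat_lit 1843) (.e (nat_lit 1358) (nat_lit 102) (.e (nat_lit 286753) (nat_lit 10) (.e (nat_lit 344117) (nat_lit 21) (.e (nat_lit 516171) (nat_lit 13) (.e (nat_lit 458774) (nat_lit 18) .nil))))) .nil)) 
(.lf (nat_lit 52287) (.g (nat_lit 1112) (.e (nat_lit 1358) (nat_lit 102) (.e (nat_lit 286761) (nat_lit 13) (.e (nat_lit 393298) (nat_lit 27) .nil))) .nil))))))))

noncomputable def tv725 : DT := (.nd (nat_lit 0) (.nd (nat_lit 1) (.nd (nat_lit 2) (.nd (nat_lit 3) (.nd (nat_lit 4) (.nd (nat_lit 5) 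
(.lf (nat_lit 52288) (.g (nat_lit 1015) (.e (nat_lit 1358) (nat_lit 102) (.e (nat_lit 286761) (nat_lit 13) (.e (nat_lit 393300) (nat_lit 27) .nil))) .nil)) 
(.lf (nat_lit 52320) (.g (nat_lit 2036) (.e (nat_lit 1359) (nat_lit 102) (.e (nat_lit 286734) (nat_lit 3) (.e (nat_lit 98359) (nat_lit 26) (.e (nat_lit 426338) (nat_lit 14) (.e (nat_lit 491537) (nat_lit 2) .nil))))) .nil))) (.nd (nat_lit 5) 
(.lf (nat_lit 52304) (.g (nat_lit 2685) (.e (nat_lit 1359) (nat_lit 102) (.e (nat_lit 286732) (nat_lit 2) (.e (nat_lit 90170) (nat_lit 13) (.e (nat_lit 172106) (nat_lit 10) (.e (nat_lit 434231) (nat_lit 23) (.e (nat_lit 532486) (nat_lit 0) (.e (nat_lit 6138) (nat_lit 332) .nil))))))) (.g (nat_lit 5) .nil .nil))) 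
(.lf (nat_lit 52336) (.g (nat_lit 2489) (.e (nat_lit 1359) (nat_lit 102) (.e (nat_lit 286735) (nat_lit 3) (.e (nat_lit 98350) (nat_lit 24) (.e (nat_lit 409602) (nat_lit 0) .nil)))) .nil)))) (.nd (nat_lit 4) (.nd (nat_lit 5) 
(.lf (nat_lit 52296) (.g (nat_lit 4839) (.e (nat_lit 1358) (nat_lit 102) (.e (nat_lit 286761) (nat_lit 13) (.e (nat_lit 393301) (nat_lit 27) (.e (nat_lit 491559) (nat_lit 10) .nil)))) .nil)) 
(.lf (nat_lit 52328) (.g (nat_lit 590) (.e (nat_lit 1359) (nat_lit 102) (.e (nat_lit 286734) (nat_lit 3) (.e (nat_lit 98372) (nat_lit 29) .nil))) .nil))) (.nd (nat_lit 5) 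
(.lf (nat_lit 52312) (.g (nat_lit 2340) (.e (nat_lit 1359) (nat_lit 102) (.e (nat_lit 286732) (nat_lit 2) (.e (nat_lit 90178) (nat_lit 15) (.e (nat_lit 188449) (nat_lit 22) .nil)))) .nil)) 
(.lf (nat_lit 52344) (.g (nat_lit 906) (.e (nat_lit 1359) (nat_lit 102) (.e (nat_lit 286735) (nat_lit 3) (.e (nat_lit 98372) (nat_lit 29) .nil))) .nil))))) (.nd (nat_lit 3) (.nd (nat_lit 4) (.nd (nat_lit 5) 
(.lf (nat_lit 52292) (.g (nat_lit 4759) (.e (nat_lit 1358) (nat_lit 102) (.e (nat_lit 286761) (nat_lit 13) (.e (nat_lit 393301) (nat_lit 27) (.e (nat_lit 491552) (nat_lit 9) .nil)))) .nil)) 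
(.lf (nat_lit 52324) (.g (nat_lit 3212) (.e (nat_lit 1359) (nat_lit 102) (.e (nat_lit 286734) (nat_lit 3) (.e (nat_lit 98370) (nat_lit 28) (.e (nat_lit 442424) (nat_lit 22) (.e (nat_lit 196661) (nat_lit 12) (.e (nat_lit 57711) (nat_lit 176) .nil)))))) (.g (nat_lit 0) .nil .nil)))) (.nd (nat_lit 5) 
(.lf (nat_lit 52308) (.g (nat_lit 4468) (.e (nat_lit 1359) (nat_lit 102) (.e (nat_lit 286732) (nat_lit 2) (.e (nat_lit 90170) (nat_lit 13) (.e (nat_lit 172106) (nat_lit 10) (.e (nat_lit 434231) (nat_lit 23) (.e (nat_lit 532490) (nat_lit 0) (.e (nat_lit 6147) (nat_lit 332) .nil))))))) (.g (nat_lit 7) .nil .nil))) 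
(.lf (nat_lit 52340) (.g (nat_lit 1035) (.e (nat_lit 1359) (nat_lit 102) (.e (nat_lit 286735) (nat_lit 3) (.e (nat_lit 98369) (nat_lit 28) .nil))) .nil)))) (.nd (nat_lit 4) (.nd (nat_lit 5) 
(.lf (nat_lit 52300) (.g (nat_lit 3009) (.e (nat_lit 1359) (nat_lit 102) (.e (nat_lit 286732) (nat_lit 2) (.e (nat_lit 90170) (nat_lit 13) (.e (nat_lit 172106) (nat_lit 10) (.e (nat_lit 434231) (nat_lit 23) (.e (nat_lit 532480) (nat_lit 0) (.e (nat_lit 6146) (nat_lit 332) .nil))))))) (.g (nat_lit 5) .nil .nil))) 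
(.lf (nat_lit 52332) (.g (nat_lit 2586) (.e (nat_lit 1359) (nat_lit 102) (.e (nat_lit 286734) (nat_lit 3) (.e (nat_lit 98372) (nat_lit 29) (.e (nat_lit 450579) (nat_lit 5) (.e (nat_lit 532489) (nat_lit 0) .nil))))) .nil))) (.nd (nat_lit 5) 
(.lf (nat_lit 52316) (.g (nat_lit 3466) (.e (nat_lit 1359) (nat_lit 102) (.e (nat_lit 286733) (nat_lit 2) (.e (nat_lit 90170) (nat_lit 13) (.e (nat_lit 172106) (nat_lit 10) (.e (nat_lit 434231) (nat_lit 23) (.e (nat_lit 532490) (nat_lit 0) (.e (nat_lit 6148) (nat_lit 332) .nil))))))) (.g (nat_lit 4) .nil .nil))) 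
(.lf (nat_lit 52348) (.g (nat_lit 3444) (.e (nat_lit 1359) (nat_lit 102) (.e (nat_lit 286735) (nat_lit 3) (.e (nat_lit 98372) (nat_lit 29) (.e (nat_lit 450579) (nat_lit 5) (.e (nat_lit 532489) (nat_lit 0) .nil))))) .nil)))))) (.nd (nat_lit 2) (.nd (nat_lit 3) (.nd (nat_lit 4) (.nd (nat_lit 5) 
(.lf (nat_lit 52290) (.g (nat_lit 4325) (.e (nat_lit 1358) (nat_lit 102) (.e (nat_lit 286761) (nat_lit 13) (.e (nat_lit 393301) (nat_lit 27) (.e (nat_lit 491546) (nat_lit 9) .nil)))) .nil)) 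
(.lf (nat_lit 52322) (.g (nat_lit 372) (.e (nat_lit 1359) (nat_lit 102) (.e (nat_lit 286734) (nat_lit 3) (.e (nat_lit 98370) (nat_lit 28) .nil))) .nil))) (.nd (nat_lit 5) 
(.lf (nat_lit 52306) (.g (nat_lit 4128) (.e (nat_lit 1359) (nat_lit 102) (.e (nat_lit 286732) (nat_lit 2) (.e (nat_lit 90170) (nat_lit 13) (.e (nat_lit 172106) (nat_lit 10) (.e (nat_lit 434231) (nat_lit 23) (.e (nat_lit 532490) (nat_lit 0) (.e (nat_lit 6092) (nat_lit 332) .nil))))))) (.g (nat_lit 7) .nil .nil))) 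
(.lf (nat_lit 52338) (.g (nat_lit 2481) (.e (nat_lit 1359) (nat_lit 102) (.e (nat_lit 286735) (nat_lit 3) (.e (nat_lit 98359) (nat_lit 26) (.e (nat_lit 426185) (nat_lit 9) .nil)))) .nil)))) (.nd (nat_lit 4) (.nd (nat_lit 5) 
(.lf (nat_lit 52298) (.g (nat_lit 4367) (.e (nat_lit 1358) (nat_lit 102) (.e (nat_lit 286761) (nat_lit 13) (.e (nat_lit 393301) (nat_lit 27) (.e (nat_lit 491563) (nat_lit 12) .nil)))) .nil)) 
(.lf (nat_lit 52330) (.g (nat_lit 2528) (.e (nat_lit 1359) (nat_lit 102) (.e (nat_lit 286734) (nat_lit 3) (.e (nat_lit 98372) (nat_lit 29) (.e (nat_lit 450579) (nat_lit 5) (.e (nat_lit 532484) (nat_lit 0) .nil))))) .nil))) (.nd (nat_lit 5) 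
(.lf (nat_lit 52314) (.g (nat_lit 4038) (.e (nat_lit 1359) (nat_lit 102) (.e (nat_lit 286733) (nat_lit 2) (.e (nat_lit 90170) (nat_lit 13) (.e (nat_lit 172106) (nat_lit 10) (.e (nat_lit 434231) (nat_lit 23) (.e (nat_lit 532490) (nat_lit 0) (.e (nat_lit 6136) (nat_lit 332) .nil))))))) (.g (nat_lit 5) .nil .nil))) 
(.lf (nat_lit 52346) (.g (nat_lit 3455) (.e (nat_lit 1359) (nat_lit 102) (.e (nat_lit 286735) (nat_lit 3) (.e (nat_lit 98372) (nat_lit 29) (.e (nat_lit 450579) (nat_lit 5) (.e (nat_lit 532484) (nat_lit 0) .nil))))) .nil))))) (.nd (nat_lit 3) (.nd (nat_lit 4) (.nd (nat_lit 5) 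
(.lf (nat_lit 52294) (.g (nat_lit 4509) (.e (nat_lit 1358) (nat_lit 102) (.e (nat_lit 286761) (nat_lit 13) (.e (nat_lit 393301) (nat_lit 27) (.e (nat_lit 499456) (nat_lit 9) .nil)))) .nil)) 
(.lf (nat_lit 52326) (.g (nat_lit 2836) (.e (nat_lit 1359) (nat_lit 102) (.e (nat_lit 286734) (nat_lit 3) (.e (nat_lit 98370) (nat_lit 28) (.e (nat_lit 442427) (nat_lit 23) (.e (nat_lit 204821) (nat_lit 17) (.e (nat_lit 6092) (nat_lit 332) .nil)))))) (.g (nat_lit 0) .nil .nil)))) (.nd (nat_lit 5) 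
(.lf (nat_lit 52310) (.g (nat_lit 3862) (.e (nat_lit 1359) (nat_lit 102) (.e (nat_lit 286732) (nat_lit 2) (.e (nat_lit 90170) (nat_lit 13) (.e (nat_lit 172106) (nat_lit 10) (.e (nat_lit 434231) (nat_lit 23) (.e (nat_lit 532490) (nat_lit 0) (.e (nat_lit 7936) (nat_lit 332) .nil))))))) (.g (nat_lit 6) .nil .nil))) 
(.lf (nat_lit 52342) (.g (nat_lit 2260) (.e (nat_lit 1359) (nat_lit 102) (.e (nat_lit 286735) (nat_lit 3) (.e (nat_lit 98370) (nat_lit 28) (.e (nat_lit 442424) (nat_lit 22) .nil)))) .nil)))) (.nd (nat_lit 4) (.nd (nat_lit 5) 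
(.lf (nat_lit 52302) (.g (nat_lit 4230) (.e (nat_lit 1359) (nat_lit 102) (.e (nat_lit 286732) (nat_lit 2) (.e (nat_lit 90170) (nat_lit 13) (.e (nat_lit 172106) (nat_lit 10) (.e (nat_lit 434231) (nat_lit 23) (.e (nat_lit 532482) (nat_lit 0) (.e (nat_lit 6192) (nat_lit 332) .nil))))))) (.g (nat_lit 7) .nil .nil))) 
(.lf (nat_lit 52334) (.g (nat_lit 1802) (.e (nat_lit 1359) (nat_lit 102) (.e (nat_lit 286734) (nat_lit 3) (.e (nat_lit 98381) (nat_lit 31) (.e (nat_lit 466977) (nat_lit 22) (.e (nat_lit 196677) (nat_lit 16) (.e (nat_lit 123074) (nat_lit 176) .nil)))))) (.g (nat_lit 4) .nil .nil)))) (.nd (nat_lit 5) 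
(.lf (nat_lit 52318) (.g (nat_lit 2666) (.e (nat_lit 1359) (nat_lit 102) (.e (nat_lit 286733) (nat_lit 2) (.e (nat_lit 90177) (nat_lit 15) (.e (nat_lit 188452) (nat_lit 23) (.e (nat_lit 204816) (nat_lit 17) .nil))))) .nil)) 
(.lf (nat_lit 52350) (.g (nat_lit 2400) (.e (nat_lit 1359) (nat_lit 102) (.e (nat_lit 286735) (nat_lit 3) (.e (nat_lit 98373) (nat_lit 29) (.e (nat_lit 450587) (nat_lit 10) .nil)))) .nil))))))) (.nd (nat_lit 1) (.nd (nat_lit 2) (.nd (nat_lit 3) (.nd (nat_lit 4) (.nd (nat_lit 5) 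
(.lf (nat_lit 52289) (.g (nat_lit 881) (.e (nat_lit 1358) (nat_lit 102) (.e (nat_lit 286761) (nat_lit 13) (.e (nat_lit 393301) (nat_lit 27) .nil))) .nil)) 
(.lf (nat_lit 52321) (.g (nat_lit 589) (.e (nat_lit 1359) (nat_lit 102) (.e (nat_lit 286734) (nat_lit 3) (.e (nat_lit 98369) (nat_lit 28) .nil))) .nil))) (.nd (nat_lit 5) 
(.lf (nat_lit 52305) (.g (nat_lit 2040) (.e (nat_lit 1359) (nat_lit 102) (.e (nat_lit 286732) (nat_lit 2) (.e (nat_lit 90170) (nat_lit 13) (.e (nat_lit 172106) (nat_lit 10) (.e (nat_lit 434231) (nat_lit 23) (.e (nat_lit 532486) (nat_lit 0) (.e (nat_lit 6139) (nat_lit 332) .nil))))))) (.g (nat_lit 4) .nil .nil))) 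
(.lf (nat_lit 52337) (.g (nat_lit 867) (.e (nat_lit 1359) (nat_lit 102) (.e (nat_lit 286735) (nat_lit 3) (.e (nat_lit 98359) (nat_lit 26) .nil))) .nil)))) (.nd (nat_lit 4) (.nd (nat_lit 5) 
(.lf (nat_lit 52297) (.g (nat_lit 4342) (.e (nat_lit 1358) (nat_lit 102) (.e (nat_lit 286761) (nat_lit 13) (.e (nat_lit 393301) (nat_lit 27) (.e (nat_lit 491560) (nat_lit 10) .nil)))) .nil)) 
(.lf (nat_lit 52329) (.g (nat_lit 1741) (.e (nat_lit 1359) (nat_lit 102) (.e (nat_lit 286734) (nat_lit 3) (.e (nat_lit 98372) (nat_lit 29) (.e (nat_lit 450579) (nat_lit 5) .nil)))) .nil))) (.nd (nat_lit 5) 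
(.lf (nat_lit 52313) (.g (nat_lit 3076) (.e (nat_lit 1359) (nat_lit 102) (.e (nat_lit 286733) (nat_lit 2) (.e (nat_lit 90170) (nat_lit 13) (.e (nat_lit 172097) (nat_lit 9) .nil)))) .nil)) 
(.lf (nat_lit 52345) (.g (nat_lit 2757) (.e (nat_lit 1359) (nat_lit 102) (.e (nat_lit 286735) (nat_lit 3) (.e (nat_lit 98372) (nat_lit 29) (.e (nat_lit 458496) (nat_lit 1) .nil)))) .nil))))) (.nd (nat_lit 3) (.nd (nat_lit 4) (.nd (nat_lit 5) 
(.lf (nat_lit 52293) (.g (nat_lit 4162) (.e (nat_lit 1358) (nat_lit 102) (.e (nat_lit 286761) (nat_lit 13) (.e (nat_lit 393301) (nat_lit 27) (.e (nat_lit 491556) (nat_lit 9) .nil)))) .nil)) 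
(.lf (nat_lit 52325) (.g (nat_lit 1961) (.e (nat_lit 1359) (nat_lit 102) (.e (nat_lit 286734) (nat_lit 3) (.e (nat_lit 98370) (nat_lit 28) (.e (nat_lit 442427) (nat_lit 23) (.e (nat_lit 204821) (nat_lit 17) .nil))))) .nil))) (.nd (nat_lit 5) 
(.lf (nat_lit 52309) (.g (nat_lit 3979) (.e (nat_lit 1359) (nat_lit 102) (.e (nat_lit 286732) (nat_lit 2) (.e (nat_lit 90170) (nat_lit 13) (.e (nat_lit 172106) (nat_lit 10) (.e (nat_lit 434231) (nat_lit 23) (.e (nat_lit 532490) (nat_lit 0) (.e (nat_lit 6149) (nat_lit 332) .nil))))))) (.g (nat_lit 0) .nil .nil))) 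
(.lf (nat_lit 52341) (.g (nat_lit 2254) (.e (nat_lit 1359) (nat_lit 102) (.e (nat_lit 286735) (nat_lit 3) (.e (nat_lit 98369) (nat_lit 28) (.e (nat_lit 442424) (nat_lit 22) .nil)))) .nil)))) (.nd (nat_lit 4) (.nd (nat_lit 5) 
(.lf (nat_lit 52301) (.g (nat_lit 4639) (.e (nat_lit 1359) (nat_lit 102) (.e (nat_lit 286732) (nat_lit 2) (.e (nat_lit 90170) (nat_lit 13) (.e (nat_lit 172106) (nat_lit 10) (.e (nat_lit 434231) (nat_lit 23) (.e (nat_lit 532481) (nat_lit 0) (.e (nat_lit 6192) (nat_lit 332) .nil))))))) (.g (nat_lit 6) .nil .nil))) 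
(.lf (nat_lit 52333) (.g (nat_lit 540) (.e (nat_lit 1359) (nat_lit 102) (.e (nat_lit 286734) (nat_lit 3) (.e (nat_lit 98373) (nat_lit 29) .nil))) .nil))) (.nd (nat_lit 5) 
(.lf (nat_lit 52317) (.g (nat_lit 1967) (.e (nat_lit 1359) (nat_lit 102) (.e (nat_lit 286733) (nat_lit 2) (.e (nat_lit 90177) (nat_lit 15) (.e (nat_lit 188449) (nat_lit 22) .nil)))) .nil)) 
(.lf (nat_lit 52349) (.g (nat_lit 731) (.e (nat_lit 1359) (nat_lit 102) (.e (nat_lit 286735) (nat_lit 3) (.e (nat_lit 98373) (nat_lit 29) .nil))) .nil)))))) (.nd (nat_lit 2) (.nd (nat_lit 3) (.nd (nat_lit 4) (.nd (nat_lit 5) 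
(.lf (nat_lit 52291) (.g (nat_lit 4020) (.e (nat_lit 1358) (nat_lit 102) (.e (nat_lit 286761) (nat_lit 13) (.e (nat_lit 393301) (nat_lit 27) (.e (nat_lit 491547) (nat_lit 9) .nil)))) .nil)) 
(.lf (nat_lit 52323) (.g (nat_lit 1941) (.e (nat_lit 1359) (nat_lit 102) (.e (nat_lit 286734) (nat_lit 3) (.e (nat_lit 98370) (nat_lit 28) (.e (nat_lit 442424) (nat_lit 22) (.e (nat_lit 196661) (nat_lit 12) .nil))))) .nil))) (.nd (nat_lit 5) 
(.lf (nat_lit 52307) (.g (nat_lit 4082) (.e (nat_lit 1359) (nat_lit 102) (.e (nat_lit 286732) (nat_lit 2) (.e (nat_lit 90170) (nat_lit 13) (.e (nat_lit 172106) (nat_lit 10) (.e (nat_lit 434231) (nat_lit 23) (.e (nat_lit 532490) (nat_lit 0) (.e (nat_lit 6136) (nat_lit 332) .nil))))))) (.g (nat_lit 0) .nil .nil))) 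
(.lf (nat_lit 52339) (.g (nat_lit 2450) (.e (nat_lit 1359) (nat_lit 102) (.e (nat_lit 286735) (nat_lit 3) (.e (nat_lit 98359) (nat_lit 26) (.e (nat_lit 426212) (nat_lit 9) .nil)))) .nil)))) (.nd (nat_lit 4) (.nd (nat_lit 5) 
(.lf (nat_lit 52299) (.g (nat_lit 1617) (.e (nat_lit 1359) (nat_lit 102) (.e (nat_lit 286732) (nat_lit 2) (.e (nat_lit 90170) (nat_lit 13) (.e (nat_lit 172097) (nat_lit 9) .nil)))) .nil)) 
(.lf (nat_lit 52331) (.g (nat_lit 2472) (.e (nat_lit 1359) (nat_lit 102) (.e (nat_lit 286734) (nat_lit 3) (.e (nat_lit 98372) (nat_lit 29) (.e (nat_lit 450579) (nat_lit 5) (.e (nat_lit 532488) (nat_lit 0) .nil))))) .nil))) (.nd (nat_lit 5) 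
(.lf (nat_lit 52315) (.g (nat_lit 4170) (.e (nat_lit 1359) (nat_lit 102) (.e (nat_lit 286733) (nat_lit 2) (.e (nat_lit 90170) (nat_lit 13) (.e (nat_lit 172106) (nat_lit 10) (.e (nat_lit 434231) (nat_lit 23) (.e (nat_lit 532490) (nat_lit 0) (.e (nat_lit 6147) (nat_lit 332) .nil))))))) (.g (nat_lit 5) .nil .nil))) 
(.lf (nat_lit 52347) (.g (nat_lit 3392) (.e (nat_lit 1359) (nat_lit 102) (.e (nat_lit 286735) (nat_lit 3) (.e (nat_lit 98372) (nat_lit 29) (.e (nat_lit 450579) (nat_lit 5) (.e (nat_lit 532488) (nat_lit 0) .nil))))) .nil))))) (.nd (nat_lit 3) (.nd (nat_lit 4) (.nd (nat_lit 5) 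
(.lf (nat_lit 52295) (.g (nat_lit 4628) (.e (nat_lit 1358) (nat_lit 102) (.e (nat_lit 286761) (nat_lit 13) (.e (nat_lit 393301) (nat_lit 27) (.e (nat_lit 491558) (nat_lit 10) .nil)))) .nil)) 
(.lf (nat_lit 52327) (.g (nat_lit 2503) (.e (nat_lit 1359) (nat_lit 102) (.e (nat_lit 286734) (nat_lit 3) (.e (nat_lit 98370) (nat_lit 28) (.e (nat_lit 442427) (nat_lit 23) (.e (nat_lit 204821) (nat_lit 17) (.e (nat_lit 6136) (nat_lit 332) .nil)))))) (.g (nat_lit 5) .nil .nil)))) (.nd (nat_lit 5) 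
(.lf (nat_lit 52311) (.g (nat_lit 2381) (.e (nat_lit 1359) (nat_lit 102) (.e (nat_lit 286732) (nat_lit 2) (.e (nat_lit 90170) (nat_lit 13) (.e (nat_lit 172113) (nat_lit 10) (.e (nat_lit 434245) (nat_lit 28) .nil))))) .nil)) 
(.lf (nat_lit 52343) (.g (nat_lit 983) (.e (nat_lit 1359) (nat_lit 102) (.e (nat_lit 286735) (nat_lit 3) (.e (nat_lit 98371) (nat_lit 28) .nil))) .nil)))) (.nd (nat_lit 4) (.nd (nat_lit 5) 
(.lf (nat_lit 52303) (.g (nat_lit 3490) (.e (nat_lit 1359) (nat_lit 102) (.e (nat_lit 286732) (nat_lit 2) (.e (nat_lit 90170) (nat_lit 13) (.e (nat_lit 172106) (nat_lit 10) (.e (nat_lit 434231) (nat_lit 23) (.e (nat_lit 532483) (nat_lit 0) (.e (nat_lit 7936) (nat_lit 332) .nil))))))) (.g (nat_lit 5) .nil .nil))) 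
(.lf (nat_lit 52335) (.g (nat_lit 1016) (.e (nat_lit 1359) (nat_lit 102) (.e (nat_lit 286735) (nat_lit 3) (.e (nat_lit 98350) (nat_lit 24) .nil))) .nil))) (.nd (nat_lit 5) 
(.lf (nat_lit 52319) (.g (nat_lit 1679) (.e (nat_lit 1359) (nat_lit 102) (.e (nat_lit 286734) (nat_lit 3) (.e (nat_lit 98359) (nat_lit 26) (.e (nat_lit 426212) (nat_lit 9) .nil)))) .nil)) 
(.lf (nat_lit 52351) (.g (nat_lit 2749) (.e (nat_lit 1359) (nat_lit 102) (.e (nat_lit 286735) (nat_lit 3) (.e (nat_lit 98373) (nat_lit 29) (.e (nat_lit 450588) (nat_lit 10) .nil)))) .nil))))))))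

noncomputable def tv726 : DT := (.nd (nat_lit 0) (.nd (nat_lit 1) (.nd (nat_lit 2) (.nd (nat_lit 3) (.nd (nat_lit 4) (.nd (nat_lit 5) 
(.lf (nat_lit 52352) (.g (nat_lit 3910) (.e (nat_lit 1359) (nat_lit 102) (.e (nat_lit 286735) (nat_lit 3) (.e (nat_lit 98373) (nat_lit 29) (.e (nat_lit 450588) (nat_lit 10) (.e (nat_lit 573452) (nat_lit 9) (.e (nat_lit 11) (nat_lit 0) (.e (nat_lit 6964) (nat_lit 377) .nil))))))) (.g (nat_lit 4) .nil .nil))) 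
(.lf (nat_lit 52384) (.g (nat_lit 2378) (.e (nat_lit 1359) (nat_lit 102) (.e (nat_lit 286749) (nat_lit 9) (.e (nat_lit 336028) (nat_lit 3) (.e (nat_lit 98359) (nat_lit 26) (.e (nat_lit 426097) (nat_lit 1) (.e (nat_lit 164326) (nat_lit 230) (.e (nat_lit 163868) (nat_lit 2) (.e (nat_lit 196691) (nat_lit 18) .nil)))))))) (.g (nat_lit 5) .nil .nil)))) (.nd (nat_lit 5) 
(.lf (nat_lit 52368) (.g (nat_lit 1345) (.e (nat_lit 1359) (nat_lit 102) (.e (nat_lit 286749) (nat_lit 9) (.e (nat_lit 335997) (nat_lit 1) (.e (nat_lit 57871) (nat_lit 264) (.e (nat_lit 1199) (nat_lit 88) .nil))))) .nil)) 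
(.lf (nat_lit 52400) (.g (nat_lit 3059) (.e (nat_lit 1359) (nat_lit 102) (.e (nat_lit 286749) (nat_lit 9) (.e (nat_lit 336028) (nat_lit 3) (.e (nat_lit 98367) (nat_lit 27) (.e (nat_lit 434276) (nat_lit 39) (.e (nat_lit 663584) (nat_lit 12) (.e (nat_lit 163979) (nat_lit 30) (.e (nat_lit 573503) (nat_lit 18) .nil)))))))) (.g (nat_lit 5) .nil .nil))))) (.nd (nat_lit 4) (.nd (nat_lit 5) 
(.lf (nat_lit 52360) (.g (nat_lit 3719) (.e (nat_lit 1359) (nat_lit 102) (.e (nat_lit 286747) (nat_lit 9) (.e (nat_lit 336013) (nat_lit 2) (.e (nat_lit 90170) (nat_lit 13) (.e (nat_lit 172059) (nat_lit 1) (.e (nat_lit 164327) (nat_lit 230) (.e (nat_lit 163871) (nat_lit 2) (.e (nat_lit 196691) (nat_lit 18) .nil)))))))) (.g (nat_lit 4) .nil .nil))) 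
(.lf (nat_lit 52392) (.g (nat_lit 2571) (.e (nat_lit 1359) (nat_lit 102) (.e (nat_lit 286749) (nat_lit 9) (.e (nat_lit 336028) (nat_lit 3) (.e (nat_lit 98366) (nat_lit 27) (.e (nat_lit 434276) (nat_lit 39) (.e (nat_lit 663584) (nat_lit 12) (.e (nat_lit 163979) (nat_lit 30) (.e (nat_lit 573503) (nat_lit 18) .nil)))))))) (.g (nat_lit 4) .nil .nil)))) (.nd (nat_lit 5) 
(.lf (nat_lit 52376) (.g (nat_lit 3076) (.e (nat_lit 1359) (nat_lit 102) (.e (nat_lit 286749) (nat_lit 9) (.e (nat_lit 336013) (nat_lit 2) (.e (nat_lit 90170) (nat_lit 13) (.e (nat_lit 172061) (nat_lit 1) (.e (nat_lit 164326) (nat_lit 230) (.e (nat_lit 163868) (nat_lit 2) (.e (nat_lit 196692) (nat_lit 18) .nil)))))))) (.g (nat_lit 4) .nil .nil))) 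
(.lf (nat_lit 52408) (.g (nat_lit 1803) (.e (nat_lit 1359) (nat_lit 102) (.e (nat_lit 286756) (nat_lit 10) (.e (nat_lit 344115) (nat_lit 20) (.e (nat_lit 507907) (nat_lit 0) (.e (nat_lit 5409) (nat_lit 303) (.e (nat_lit 73738) (nat_lit 1) (.e (nat_lit 499724) (nat_lit 0) .nil))))))) (.g (nat_lit 6) .nil .nil)))))) (.nd (nat_lit 3) (.nd (nat_lit 4) (.nd (nat_lit 5) 
(.lf (nat_lit 52356) (.g (nat_lit 3631) (.e (nat_lit 1359) (nat_lit 102) (.e (nat_lit 286742) (nat_lit 9) (.e (nat_lit 336013) (nat_lit 2) (.e (nat_lit 90170) (nat_lit 13) (.e (nat_lit 172061) (nat_lit 1) .nil))))) .nil)) 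
(.lf (nat_lit 52388) (.g (nat_lit 3549) (.e (nat_lit 1359) (nat_lit 102) (.e (nat_lit 286749) (nat_lit 9) (.e (nat_lit 336028) (nat_lit 3) (.e (nat_lit 98366) (nat_lit 27) (.e (nat_lit 434209) (nat_lit 18) (.e (nat_lit 5223) (nat_lit 296) (.e (nat_lit 163871) (nat_lit 2) (.e (nat_lit 196691) (nat_lit 18) .nil)))))))) (.g (nat_lit 6) .nil .nil)))) (.nd (nat_lit 5) 
(.lf (nat_lit 52372) (.g (nat_lit 3067) (.e (nat_lit 1359) (nat_lit 102) (.e (nat_lit 286749) (nat_lit 9) (.e (nat_lit 336013) (nat_lit 2) (.e (nat_lit 90170) (nat_lit 13) (.e (nat_lit 172059) (nat_lit 1) (.e (nat_lit 164327) (nat_lit 230) (.e (nat_lit 163868) (nat_lit 2) (.e (nat_lit 196692) (nat_lit 18) .nil)))))))) (.g (nat_lit 4) .nil .nil))) 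
(.lf (nat_lit 52404) (.g (nat_lit 422) (.e (nat_lit 1359) (nat_lit 102) (.e (nat_lit 286756) (nat_lit 10) (.e (nat_lit 344115) (nat_lit 20) .nil))) .nil)))) (.nd (nat_lit 4) (.nd (nat_lit 5) 
(.lf (nat_lit 52364) (.g (nat_lit 4116) (.e (nat_lit 1359) (nat_lit 102) (.e (nat_lit 286747) (nat_lit 9) (.e (nat_lit 336013) (nat_lit 2) (.e (nat_lit 90170) (nat_lit 13) (.e (nat_lit 172061) (nat_lit 1) (.e (nat_lit 164327) (nat_lit 230) (.e (nat_lit 163868) (nat_lit 2) (.e (nat_lit 196691) (nat_lit 18) .nil)))))))) (.g (nat_lit 5) .nil .nil))) 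
(.lf (nat_lit 52396) (.g (nat_lit 4175) (.e (nat_lit 1359) (nat_lit 102) (.e (nat_lit 286749) (nat_lit 9) (.e (nat_lit 336028) (nat_lit 3) (.e (nat_lit 98367) (nat_lit 27) (.e (nat_lit 434209) (nat_lit 18) (.e (nat_lit 5224) (nat_lit 296) (.e (nat_lit 163868) (nat_lit 2) (.e (nat_lit 196691) (nat_lit 18) .nil)))))))) (.g (nat_lit 6) .nil .nil)))) (.nd (nat_lit 5) 
(.lf (nat_lit 52380) (.g (nat_lit 4586) (.e (nat_lit 1359) (nat_lit 102) (.e (nat_lit 286749) (nat_lit 9) (.e (nat_lit 336013) (nat_lit 2) (.e (nat_lit 90170) (nat_lit 13) (.e (nat_lit 172061) (nat_lit 1) (.e (nat_lit 164327) (nat_lit 230) (.e (nat_lit 163871) (nat_lit 2) (.e (nat_lit 196691) (nat_lit 18) .nil)))))))) (.g (nat_lit 7) .nil .nil))) 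
(.lf (nat_lit 52412) (.g (nat_lit 1252) (.e (nat_lit 1359) (nat_lit 102) (.e (nat_lit 286756) (nat_lit 10) (.e (nat_lit 344115) (nat_lit 20) (.e (nat_lit 507908) (nat_lit 0) (.e (nat_lit 5401) (nat_lit 302) (.e (nat_lit 65568) (nat_lit 2) (.e (nat_lit 98048) (nat_lit 18) .nil))))))) (.g (nat_lit 4) .nil .nil))))))) (.nd (nat_lit 2) (.nd (nat_lit 3) (.nd (nat_lit 4) (.nd (nat_lit 5) 
(.lf (nat_lit 52354) (.g (nat_lit 4224) (.e (nat_lit 1359) (nat_lit 102) (.e (nat_lit 286740) (nat_lit 7) (.e (nat_lit 319505) (nat_lit 10) (.e (nat_lit 618) (nat_lit 48) (.e (nat_lit 557109) (nat_lit 15) (.e (nat_lit 188461) (nat_lit 26) (.e (nat_lit 254007) (nat_lit 14) .nil))))))) (.g (nat_lit 7) .nil .nil))) 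
(.lf (nat_lit 52386) (.g (nat_lit 1646) (.e (nat_lit 1359) (nat_lit 102) (.e (nat_lit 286749) (nat_lit 9) (.e (nat_lit 336028) (nat_lit 3) (.e (nat_lit 98365) (nat_lit 26) .nil)))) .nil))) (.nd (nat_lit 5) 
(.lf (nat_lit 52370) (.g (nat_lit 4519) (.e (nat_lit 1359) (nat_lit 102) (.e (nat_lit 286749) (nat_lit 9) (.e (nat_lit 336013) (nat_lit 2) (.e (nat_lit 90170) (nat_lit 13) (.e (nat_lit 172059) (nat_lit 1) (.e (nat_lit 164326) (nat_lit 230) (.e (nat_lit 163868) (nat_lit 2) (.e (nat_lit 196691) (nat_lit 18) .nil)))))))) (.g (nat_lit 8) .nil .nil))) 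
(.lf (nat_lit 52402) (.g (nat_lit 2364) (.e (nat_lit 1359) (nat_lit 102) (.e (nat_lit 286749) (nat_lit 9) (.e (nat_lit 336028) (nat_lit 3) (.e (nat_lit 98367) (nat_lit 27) (.e (nat_lit 434278) (nat_lit 39) .nil))))) .nil)))) (.nd (nat_lit 4) (.nd (nat_lit 5) 
(.lf (nat_lit 52362) (.g (nat_lit 3866) (.e (nat_lit 1359) (nat_lit 102) (.e (nat_lit 286747) (nat_lit 9) (.e (nat_lit 336013) (nat_lit 2) (.e (nat_lit 90170) (nat_lit 13) (.e (nat_lit 172061) (nat_lit 1) (.e (nat_lit 164326) (nat_lit 230) (.e (nat_lit 163868) (nat_lit 2) (.e (nat_lit 196691) (nat_lit 18) .nil)))))))) (.g (nat_lit 4) .nil .nil))) 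
(.lf (nat_lit 52394) (.g (nat_lit 4456) (.e (nat_lit 1359) (nat_lit 102) (.e (nat_lit 286749) (nat_lit 9) (.e (nat_lit 336028) (nat_lit 3) (.e (nat_lit 98367) (nat_lit 27) (.e (nat_lit 434209) (nat_lit 18) (.e (nat_lit 5223) (nat_lit 296) (.e (nat_lit 163868) (nat_lit 2) (.e (nat_lit 196691) (nat_lit 18) .nil)))))))) (.g (nat_lit 7) .nil .nil)))) (.nd (nat_lit 5) 
(.lf (nat_lit 52378) (.g (nat_lit 5200) (.e (nat_lit 1359) (nat_lit 102) (.e (nat_lit 286749) (nat_lit 9) (.e (nat_lit 336013) (nat_lit 2) (.e (nat_lit 90170) (nat_lit 13) (.e (nat_lit 172061) (nat_lit 1) (.e (nat_lit 164327) (nat_lit 230) (.e (nat_lit 163868) (nat_lit 2) (.e (nat_lit 196691) (nat_lit 18) .nil)))))))) (.g (nat_lit 7) .nil .nil))) 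
(.lf (nat_lit 52410) (.g (nat_lit 1572) (.e (nat_lit 1359) (nat_lit 102) (.e (nat_lit 286756) (nat_lit 10) (.e (nat_lit 344115) (nat_lit 20) (.e (nat_lit 507907) (nat_lit 0) (.e (nat_lit 5412) (nat_lit 303) (.e (nat_lit 73738) (nat_lit 1) (.e (nat_lit 499724) (nat_lit 0) .nil))))))) (.g (nat_lit 5) .nil .nil)))))) (.nd (nat_lit 3) (.nd (nat_lit 4) (.nd (nat_lit 5) 
(.lf (nat_lit 52358) (.g (nat_lit 3786) (.e (nat_lit 1359) (nat_lit 102) (.e (nat_lit 286747) (nat_lit 9) (.e (nat_lit 336013) (nat_lit 2) (.e (nat_lit 90170) (nat_lit 13) (.e (nat_lit 172059) (nat_lit 1) (.e (nat_lit 164326) (nat_lit 230) (.e (nat_lit 163868) (nat_lit 2) (.e (nat_lit 196691) (nat_lit 18) .nil)))))))) (.g (nat_lit 4) .nil .nil))) 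
(.lf (nat_lit 52390) (.g (nat_lit 2155) (.e (nat_lit 1359) (nat_lit 102) (.e (nat_lit 286749) (nat_lit 9) (.e (nat_lit 336028) (nat_lit 3) (.e (nat_lit 98366) (nat_lit 27) (.e (nat_lit 434275) (nat_lit 39) (.e (nat_lit 663585) (nat_lit 12) (.e (nat_lit 163979) (nat_lit 30) (.e (nat_lit 573503) (nat_lit 18) .nil)))))))) (.g (nat_lit 4) .nil .nil)))) (.nd (nat_lit 5) 
(.lf (nat_lit 52374) (.g (nat_lit 3243) (.e (nat_lit 1359) (nat_lit 102) (.e (nat_lit 286749) (nat_lit 9) (.e (nat_lit 336013) (nat_lit 2) (.e (nat_lit 90170) (nat_lit 13) (.e (nat_lit 172061) (nat_lit 1) (.e (nat_lit 164326) (nat_lit 230) (.e (nat_lit 163868) (nat_lit 2) (.e (nat_lit 196690) (nat_lit 18) .nil)))))))) (.g (nat_lit 4) .nil .nil))) 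
(.lf (nat_lit 52406) (.g (nat_lit 1330) (.e (nat_lit 1359) (nat_lit 102) (.e (nat_lit 286756) (nat_lit 10) (.e (nat_lit 344115) (nat_lit 20) (.e (nat_lit 507906) (nat_lit 0) (.e (nat_lit 5412) (nat_lit 303) (.e (nat_lit 73742) (nat_lit 1) (.e (nat_lit 499755) (nat_lit 0) .nil))))))) (.g (nat_lit 5) .nil .nil))))) (.nd (nat_lit 4) (.nd (nat_lit 5) 
(.lf (nat_lit 52366) (.g (nat_lit 3669) (.e (nat_lit 1359) (nat_lit 102) (.e (nat_lit 286747) (nat_lit 9) (.e (nat_lit 336013) (nat_lit 2) (.e (nat_lit 90185) (nat_lit 17) (.e (nat_lit 237585) (nat_lit 1) .nil))))) .nil)) 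
(.lf (nat_lit 52398) (.g (nat_lit 2628) (.e (nat_lit 1359) (nat_lit 102) (.e (nat_lit 286749) (nat_lit 9) (.e (nat_lit 336028) (nat_lit 3) (.e (nat_lit 98367) (nat_lit 27) (.e (nat_lit 434275) (nat_lit 39) (.e (nat_lit 663585) (nat_lit 12) (.e (nat_lit 163979) (nat_lit 30) (.e (nat_lit 573503) (nat_lit 18) .nil)))))))) (.g (nat_lit 4) .nil .nil)))) (.nd (nat_lit 5) 
(.lf (nat_lit 52382) (.g (nat_lit 2369) (.e (nat_lit 1359) (nat_lit 102) (.e (nat_lit 286749) (nat_lit 9) (.e (nat_lit 336028) (nat_lit 3) (.e (nat_lit 98354) (nat_lit 26) (.e (nat_lit 426109) (nat_lit 1) (.e (nat_lit 164326) (nat_lit 230) (.e (nat_lit 163871) (nat_lit 2) (.e (nat_lit 196691) (nat_lit 18) .nil)))))))) (.g (nat_lit 5) .nil .nil))) 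
(.lf (nat_lit 52414) (.g (nat_lit 1649) (.e (nat_lit 1359) (nat_lit 102) (.e (nat_lit 286756) (nat_lit 10) (.e (nat_lit 344115) (nat_lit 20) (.e (nat_lit 507908) (nat_lit 0) (.e (nat_lit 5410) (nat_lit 303) (.e (nat_lit 73738) (nat_lit 1) (.e (nat_lit 499724) (nat_lit 0) .nil))))))) (.g (nat_lit 7) .nil .nil)))))))) 
(.nd (nat_lit 1) (.nd (nat_lit 2) (.nd (nat_lit 3) (.nd (nat_lit 4) (.nd (nat_lit 5) 
(.lf (nat_lit 52353) (.g (nat_lit 912) (.e (nat_lit 1359) (nat_lit 102) (.e (nat_lit 286735) (nat_lit 3) (.e (nat_lit 98382) (nat_lit 31) .nil))) .nil)) 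
(.lf (nat_lit 52385) (.g (nat_lit 2403) (.e (nat_lit 1359) (nat_lit 102) (.e (nat_lit 286749) (nat_lit 9) (.e (nat_lit 336028) (nat_lit 3) (.e (nat_lit 98359) (nat_lit 26) (.e (nat_lit 426097) (nat_lit 1) (.e (nat_lit 164326) (nat_lit 230) (.e (nat_lit 163871) (nat_lit 2) (.e (nat_lit 196691) (nat_lit 18) .nil)))))))) (.g (nat_lit 5) .nil .nil)))) (.nd (nat_lit 5) 
(.lf (nat_lit 52369) (.g (nat_lit 2800) (.e (nat_lit 1359) (nat_lit 102) (.e (nat_lit 286749) (nat_lit 9) (.e (nat_lit 336013) (nat_lit 2) (.e (nat_lit 90170) (nat_lit 13) (.e (nat_lit 172059) (nat_lit 1) (.e (nat_lit 164326) (nat_lit 230) (.e (nat_lit 163868) (nat_lit 2) (.e (nat_lit 196690) (nat_lit 18) .nil)))))))) (.g (nat_lit 4) .nil .nil))) 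
(.lf (nat_lit 52401) (.g (nat_lit 2676) (.e (nat_lit 1359) (nat_lit 102) (.e (nat_lit 286749) (nat_lit 9) (.e (nat_lit 336028) (nat_lit 3) (.e (nat_lit 98367) (nat_lit 27) (.e (nat_lit 434276) (nat_lit 39) (.e (nat_lit 663585) (nat_lit 12) (.e (nat_lit 163977) (nat_lit 30) (.e (nat_lit 573503) (nat_lit 18) .nil)))))))) (.g (nat_lit 4) .nil .nil))))) (.nd (nat_lit 4) (.nd (nat_lit 5) 
(.lf (nat_lit 52361) (.g (nat_lit 3623) (.e (nat_lit 1359) (nat_lit 102) (.e (nat_lit 286747) (nat_lit 9) (.e (nat_lit 336013) (nat_lit 2) (.e (nat_lit 90170) (nat_lit 13) (.e (nat_lit 172061) (nat_lit 1) .nil))))) .nil)) 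
(.lf (nat_lit 52393) (.g (nat_lit 1494) (.e (nat_lit 1359) (nat_lit 102) (.e (nat_lit 286749) (nat_lit 9) (.e (nat_lit 336028) (nat_lit 3) (.e (nat_lit 98367) (nat_lit 27) .nil)))) .nil))) (.nd (nat_lit 5) 
(.lf (nat_lit 52377) (.g (nat_lit 3335) (.e (nat_lit 1359) (nat_lit 102) (.e (nat_lit 286749) (nat_lit 9) (.e (nat_lit 336013) (nat_lit 2) (.e (nat_lit 90170) (nat_lit 13) (.e (nat_lit 172061) (nat_lit 1) (.e (nat_lit 164327) (nat_lit 230) (.e (nat_lit 163868) (nat_lit 2) (.e (nat_lit 196690) (nat_lit 18) .nil)))))))) (.g (nat_lit 4) .nil .nil))) 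
(.lf (nat_lit 52409) (.g (nat_lit 1644) (.e (nat_lit 1359) (nat_lit 102) (.e (nat_lit 286756) (nat_lit 10) (.e (nat_lit 344115) (nat_lit 20) (.e (nat_lit 507907) (nat_lit 0) (.e (nat_lit 5410) (nat_lit 303) (.e (nat_lit 73738) (nat_lit 1) (.e (nat_lit 499724) (nat_lit 0) .nil))))))) (.g (nat_lit 7) .nil .nil)))))) (.nd (nat_lit 3) (.nd (nat_lit 4) (.nd (nat_lit 5) 
(.lf (nat_lit 52357) (.g (nat_lit 944) (.e (nat_lit 1359) (nat_lit 102) (.e (nat_lit 286742) (nat_lit 9) (.e (nat_lit 336456) (nat_lit 34) (.e (nat_lit 491264) (nat_lit 3) .nil)))) .nil)) 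
(.lf (nat_lit 52389) (.g (nat_lit 4155) (.e (nat_lit 1359) (nat_lit 102) (.e (nat_lit 286749) (nat_lit 9) (.e (nat_lit 336028) (nat_lit 3) (.e (nat_lit 98366) (nat_lit 27) (.e (nat_lit 434209) (nat_lit 18) (.e (nat_lit 5224) (nat_lit 296) (.e (nat_lit 163871) (nat_lit 2) (.e (nat_lit 196691) (nat_lit 18) .nil)))))))) (.g (nat_lit 7) .nil .nil)))) (.nd (nat_lit 5) 
(.lf (nat_lit 52373) (.g (nat_lit 4461) (.e (nat_lit 1359) (nat_lit 102) (.e (nat_lit 286749) (nat_lit 9) (.e (nat_lit 336013) (nat_lit 2) (.e (nat_lit 90170) (nat_lit 13) (.e (nat_lit 172059) (nat_lit 1) (.e (nat_lit 164327) (nat_lit 230) (.e (nat_lit 163871) (nat_lit 2) (.e (nat_lit 196691) (nat_lit 18) .nil)))))))) (.g (nat_lit 7) .nil .nil))) 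
(.lf (nat_lit 52405) (.g (nat_lit 1486) (.e (nat_lit 1359) (nat_lit 102) (.e (nat_lit 286756) (nat_lit 10) (.e (nat_lit 344115) (nat_lit 20) (.e (nat_lit 507906) (nat_lit 0) (.e (nat_lit 5412) (nat_lit 303) (.e (nat_lit 73738) (nat_lit 1) (.e (nat_lit 499724) (nat_lit 0) .nil))))))) (.g (nat_lit 5) .nil .nil))))) (.nd (nat_lit 4) (.nd (nat_lit 5) 
(.lf (nat_lit 52365) (.g (nat_lit 3821) (.e (nat_lit 1359) (nat_lit 102) (.e (nat_lit 286747) (nat_lit 9) (.e (nat_lit 336013) (nat_lit 2) (.e (nat_lit 90185) (nat_lit 17) (.e (nat_lit 237582) (nat_lit 1) .nil))))) .nil)) 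
(.lf (nat_lit 52397) (.g (nat_lit 4487) (.e (nat_lit 1359) (nat_lit 102) (.e (nat_lit 286749) (nat_lit 9) (.e (nat_lit 336028) (nat_lit 3) (.e (nat_lit 98367) (nat_lit 27) (.e (nat_lit 434209) (nat_lit 18) (.e (nat_lit 5224) (nat_lit 296) (.e (nat_lit 163871) (nat_lit 2) (.e (nat_lit 196691) (nat_lit 18) .nil)))))))) (.g (nat_lit 7) .nil .nil)))) (.nd (nat_lit 5) 
(.lf (nat_lit 52381) (.g (nat_lit 2305) (.e (nat_lit 1359) (nat_lit 102) (.e (nat_lit 286749) (nat_lit 9) (.e (nat_lit 336028) (nat_lit 3) (.e (nat_lit 98354) (nat_lit 26) (.e (nat_lit 426109) (nat_lit 1) (.e (nat_lit 164326) (nat_lit 230) (.e (nat_lit 163868) (nat_lit 2) (.e (nat_lit 196691) (nat_lit 18) .nil)))))))) (.g (nat_lit 4) .nil .nil))) 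
(.lf (nat_lit 52413) (.g (nat_lit 1759) (.e (nat_lit 1359) (nat_lit 102) (.e (nat_lit 286756) (nat_lit 10) (.e (nat_lit 344115) (nat_lit 20) (.e (nat_lit 507908) (nat_lit 0) (.e (nat_lit 5409) (nat_lit 303) (.e (nat_lit 73738) (nat_lit 1) (.e (nat_lit 499724) (nat_lit 0) .nil))))))) (.g (nat_lit 5) .nil .nil))))))) (.nd (nat_lit 2) (.nd (nat_lit 3) (.nd (nat_lit 4) (.nd (nat_lit 5) 
(.lf (nat_lit 52355) (.g (nat_lit 3196) (.e (nat_lit 1359) (nat_lit 102) (.e (nat_lit 286742) (nat_lit 9) (.e (nat_lit 336013) (nat_lit 2) (.e (nat_lit 90170) (nat_lit 13) (.e (nat_lit 172059) (nat_lit 1) .nil))))) .nil)) 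
(.lf (nat_lit 52387) (.g (nat_lit 4145) (.e (nat_lit 1359) (nat_lit 102) (.e (nat_lit 286749) (nat_lit 9) (.e (nat_lit 336028) (nat_lit 3) (.e (nat_lit 98366) (nat_lit 27) (.e (nat_lit 434209) (nat_lit 18) (.e (nat_lit 5223) (nat_lit 296) (.e (nat_lit 163868) (nat_lit 2) (.e (nat_lit 196691) (nat_lit 18) .nil)))))))) (.g (nat_lit 7) .nil .nil)))) (.nd (nat_lit 5) 
(.lf (nat_lit 52371) (.g (nat_lit 5101) (.e (nat_lit 1359) (nat_lit 102) (.e (nat_lit 286749) (nat_lit 9) (.e (nat_lit 336013) (nat_lit 2) (.e (nat_lit 90170) (nat_lit 13) (.e (nat_lit 172059) (nat_lit 1) (.e (nat_lit 164327) (nat_lit 230) (.e (nat_lit 163868) (nat_lit 2) (.e (nat_lit 196691) (nat_lit 18) .nil)))))))) (.g (nat_lit 7) .nil .nil))) 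
(.lf (nat_lit 52403) (.g (nat_lit 2515) (.e (nat_lit 1359) (nat_lit 102) (.e (nat_lit 286749) (nat_lit 9) (.e (nat_lit 336028) (nat_lit 3) (.e (nat_lit 98367) (nat_lit 27) (.e (nat_lit 434278) (nat_lit 39) (.e (nat_lit 663584) (nat_lit 12) (.e (nat_lit 163979) (nat_lit 30) (.e (nat_lit 573503) (nat_lit 18) .nil)))))))) (.g (nat_lit 4) .nil .nil))))) (.nd (nat_lit 4) (.nd (nat_lit 5) 
(.lf (nat_lit 52363) (.g (nat_lit 3915) (.e (nat_lit 1359) (nat_lit 102) (.e (nat_lit 286747) (nat_lit 9) (.e (nat_lit 336013) (nat_lit 2) (.e (nat_lit 90170) (nat_lit 13) (.e (nat_lit 172061) (nat_lit 1) (.e (nat_lit 164326) (nat_lit 230) (.e (nat_lit 163871) (nat_lit 2) (.e (nat_lit 196691) (nat_lit 18) .nil)))))))) (.g (nat_lit 4) .nil .nil))) 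
(.lf (nat_lit 52395) (.g (nat_lit 3860) (.e (nat_lit 1359) (nat_lit 102) (.e (nat_lit 286749) (nat_lit 9) (.e (nat_lit 336028) (nat_lit 3) (.e (nat_lit 98367) (nat_lit 27) (.e (nat_lit 434209) (nat_lit 18) (.e (nat_lit 5223) (nat_lit 296) (.e (nat_lit 163871) (nat_lit 2) (.e (nat_lit 196691) (nat_lit 18) .nil)))))))) (.g (nat_lit 6) .nil .nil)))) (.nd (nat_lit 5) 
(.lf (nat_lit 52379) (.g (nat_lit 3168) (.e (nat_lit 1359) (nat_lit 102) (.e (nat_lit 286749) (nat_lit 9) (.e (nat_lit 336013) (nat_lit 2) (.e (nat_lit 90170) (nat_lit 13) (.e (nat_lit 172061) (nat_lit 1) (.e (nat_lit 164327) (nat_lit 230) (.e (nat_lit 163868) (nat_lit 2) (.e (nat_lit 196692) (nat_lit 18) .nil)))))))) (.g (nat_lit 4) .nil .nil))) 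
(.lf (nat_lit 52411) (.g (nat_lit 1416) (.e (nat_lit 1359) (nat_lit 102) (.e (nat_lit 286756) (nat_lit 10) (.e (nat_lit 344115) (nat_lit 20) (.e (nat_lit 507907) (nat_lit 0) (.e (nat_lit 5412) (nat_lit 303) (.e (nat_lit 73742) (nat_lit 1) (.e (nat_lit 499755) (nat_lit 0) .nil))))))) (.g (nat_lit 5) .nil .nil)))))) (.nd (nat_lit 3) (.nd (nat_lit 4) (.nd (nat_lit 5) 
(.lf (nat_lit 52359) (.g (nat_lit 3839) (.e (nat_lit 1359) (nat_lit 102) (.e (nat_lit 286747) (nat_lit 9) (.e (nat_lit 336013) (nat_lit 2) (.e (nat_lit 90170) (nat_lit 13) (.e (nat_lit 172059) (nat_lit 1) (.e (nat_lit 164326) (nat_lit 230) (.e (nat_lit 163871) (nat_lit 2) (.e (nat_lit 196691) (nat_lit 18) .nil)))))))) (.g (nat_lit 4) .nil .nil))) 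
(.lf (nat_lit 52391) (.g (nat_lit 2266) (.e (nat_lit 1359) (nat_lit 102) (.e (nat_lit 286749) (nat_lit 9) (.e (nat_lit 336028) (nat_lit 3) (.e (nat_lit 98366) (nat_lit 27) (.e (nat_lit 434276) (nat_lit 39) .nil))))) .nil))) (.nd (nat_lit 5) 
(.lf (nat_lit 52375) (.g (nat_lit 4950) (.e (nat_lit 1359) (nat_lit 102) (.e (nat_lit 286749) (nat_lit 9) (.e (nat_lit 336013) (nat_lit 2) (.e (nat_lit 90170) (nat_lit 13) (.e (nat_lit 172061) (nat_lit 1) (.e (nat_lit 164326) (nat_lit 230) (.e (nat_lit 163868) (nat_lit 2) (.e (nat_lit 196691) (nat_lit 18) .nil)))))))) (.g (nat_lit 8) .nil .nil))) 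
(.lf (nat_lit 52407) (.g (nat_lit 1248) (.e (nat_lit 1359) (nat_lit 102) (.e (nat_lit 286756) (nat_lit 10) (.e (nat_lit 344115) (nat_lit 20) (.e (nat_lit 507907) (nat_lit 0) (.e (nat_lit 5401) (nat_lit 302) (.e (nat_lit 65568) (nat_lit 2) (.e (nat_lit 98048) (nat_lit 18) .nil))))))) (.g (nat_lit 4) .nil .nil))))) (.nd (nat_lit 4) (.nd (nat_lit 5) 
(.lf (nat_lit 52367) (.g (nat_lit 518) (.e (nat_lit 1359) (nat_lit 102) (.e (nat_lit 286748) (nat_lit 9) (.e (nat_lit 336295) (nat_lit 15) .nil))) .nil)) 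
(.lf (nat_lit 52399) (.g (nat_lit 2402) (.e (nat_lit 1359) (nat_lit 102) (.e (nat_lit 286749) (nat_lit 9) (.e (nat_lit 336028) (nat_lit 3) (.e (nat_lit 98367) (nat_lit 27) (.e (nat_lit 434276) (nat_lit 39) (.e (nat_lit 663584) (nat_lit 12) (.e (nat_lit 163976) (nat_lit 30) (.e (nat_lit 573503) (nat_lit 18) .nil)))))))) (.g (nat_lit 4) .nil .nil)))) (.nd (nat_lit 5) 
(.lf (nat_lit 52383) (.g (nat_lit 1768) (.e (nat_lit 1359) (nat_lit 102) (.e (nat_lit 286749) (nat_lit 9) (.e (nat_lit 336028) (nat_lit 3) (.e (nat_lit 98359) (nat_lit 26) (.e (nat_lit 426097) (nat_lit 1) .nil))))) .nil)) 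
(.lf (nat_lit 52415) (.g (nat_lit 1597) (.e (nat_lit 1359) (nat_lit 102) (.e (nat_lit 286756) (nat_lit 10) (.e (nat_lit 344115) (nat_lit 20) (.e (nat_lit 507908) (nat_lit 0) (.e (nat_lit 5412) (nat_lit 303) (.e (nat_lit 73738) (nat_lit 1) (.e (nat_lit 499724) (nat_lit 0) .nil))))))) (.g (nat_lit 5) .nil .nil)))))))))

noncomputable def tv727 : DT := (.nd (nat_lit 0) (.nd (nat_lit 1) (.nd (nat_lit 2) (.nd (nat_lit 3) (.nd (nat_lit 4) (.nd (nat_lit 5) 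
(.lf (nat_lit 52416) (.g (nat_lit 1441) (.e (nat_lit 1359) (nat_lit 102) (.e (nat_lit 286756) (nat_lit 10) (.e (nat_lit 344115) (nat_lit 20) (.e (nat_lit 507908) (nat_lit 0) (.e (nat_lit 5412) (nat_lit 303) (.e (nat_lit 73742) (nat_lit 1) (.e (nat_lit 499755) (nat_lit 0) .nil))))))) (.g (nat_lit 5) .nil .nil))) 
(.lf (nat_lit 52448) (.g (nat_lit 1956) (.e (nat_lit 1359) (nat_lit 102) (.e (nat_lit 286756) (nat_lit 10) (.e (nat_lit 344117) (nat_lit 21) (.e (nat_lit 516171) (nat_lit 13) (.e (nat_lit 458774) (nat_lit 18) (.e (nat_lit 5224) (nat_lit 296) (.e (nat_lit 163871) (nat_lit 2) (.e (nat_lit 196691) (nat_lit 18) .nil)))))))) (.g (nat_lit 4) .nil .nil)))) (.nd (nat_lit 5) 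
(.lf (nat_lit 52432) (.g (nat_lit 3520) (.e (nat_lit 1359) (nat_lit 102) (.e (nat_lit 286756) (nat_lit 10) (.e (nat_lit 344117) (nat_lit 21) (.e (nat_lit 516159) (nat_lit 10) (.e (nat_lit 434209) (nat_lit 18) (.e (nat_lit 5223) (nat_lit 296) (.e (nat_lit 163871) (nat_lit 2) (.e (nat_lit 196691) (nat_lit 18) .nil)))))))) (.g (nat_lit 5) .nil .nil))) 
(.lf (nat_lit 52464) (.g (nat_lit 1687) (.e (nat_lit 1359) (nat_lit 102) (.e (nat_lit 286756) (nat_lit 10) (.e (nat_lit 344126) (nat_lit 25) (.e (nat_lit 548874) (nat_lit 5) (.e (nat_lit 1595) (nat_lit 111) (.e (nat_lit 360458) (nat_lit 1) (.e (nat_lit 499719) (nat_lit 0) .nil))))))) (.g (nat_lit 4) .nil .nil))))) (.nd (nat_lit 4) (.nd (nat_lit 5) 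
(.lf (nat_lit 52424) (.g (nat_lit 4136) (.e (nat_lit 1359) (nat_lit 102) (.e (nat_lit 286756) (nat_lit 10) (.e (nat_lit 344117) (nat_lit 21) (.e (nat_lit 516151) (nat_lit 9) (.e (nat_lit 426097) (nat_lit 1) (.e (nat_lit 164326) (nat_lit 230) (.e (nat_lit 163871) (nat_lit 2) (.e (nat_lit 196691) (nat_lit 18) .nil)))))))) (.g (nat_lit 6) .nil .nil))) 
(.lf (nat_lit 52456) (.g (nat_lit 766) (.e (nat_lit 1359) (nat_lit 102) (.e (nat_lit 286756) (nat_lit 10) (.e (nat_lit 344126) (nat_lit 25) (.e (nat_lit 548873) (nat_lit 5) .nil)))) .nil))) (.nd (nat_lit 5) 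
(.lf (nat_lit 52440) (.g (nat_lit 3810) (.e (nat_lit 1359) (nat_lit 102) (.e (nat_lit 286756) (nat_lit 10) (.e (nat_lit 344117) (nat_lit 21) (.e (nat_lit 516160) (nat_lit 10) (.e (nat_lit 434275) (nat_lit 39) (.e (nat_lit 663584) (nat_lit 12) (.e (nat_lit 163976) (nat_lit 30) (.e (nat_lit 573503) (nat_lit 18) .nil)))))))) (.g (nat_lit 5) .nil .nil))) 
(.lf (nat_lit 52472) (.g (nat_lit 2953) (.e (nat_lit 1359) (nat_lit 102) (.e (nat_lit 286756) (nat_lit 10) (.e (nat_lit 344168) (nat_lit 40) (.e (nat_lit 671762) (nat_lit 4) (.e (nat_lit 65617) (nat_lit 10) (.e (nat_lit 344164) (nat_lit 37) (.e (nat_lit 647203) (nat_lit 14) .nil))))))) (.g (nat_lit 6) .nil .nil)))))) (.nd (nat_lit 3) (.nd (nat_lit 4) (.nd (nat_lit 5) 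
(.lf (nat_lit 52420) (.g (nat_lit 2953) (.e (nat_lit 1359) (nat_lit 102) (.e (nat_lit 286756) (nat_lit 10) (.e (nat_lit 344117) (nat_lit 21) (.e (nat_lit 516143) (nat_lit 9) (.e (nat_lit 426109) (nat_lit 1) (.e (nat_lit 164326) (nat_lit 230) (.e (nat_lit 163868) (nat_lit 2) (.e (nat_lit 196691) (nat_lit 18) .nil)))))))) (.g (nat_lit 4) .nil .nil))) 
(.lf (nat_lit 52452) (.g (nat_lit 2066) (.e (nat_lit 1359) (nat_lit 102) (.e (nat_lit 286756) (nat_lit 10) (.e (nat_lit 344117) (nat_lit 21) (.e (nat_lit 516195) (nat_lit 26) (.e (nat_lit 335995) (nat_lit 1) (.e (nat_lit 57848) (nat_lit 252) (.e (nat_lit 57385) (nat_lit 4) (.e (nat_lit 106551) (nat_lit 14) .nil)))))))) (.g (nat_lit 4) .nil .nil)))) (.nd (nat_lit 5) 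
(.lf (nat_lit 52436) (.g (nat_lit 3977) (.e (nat_lit 1359) (nat_lit 102) (.e (nat_lit 286756) (nat_lit 10) (.e (nat_lit 344117) (nat_lit 21) (.e (nat_lit 516159) (nat_lit 10) (.e (nat_lit 434275) (nat_lit 39) (.e (nat_lit 663584) (nat_lit 12) (.e (nat_lit 163976) (nat_lit 30) (.e (nat_lit 573503) (nat_lit 18) .nil)))))))) (.g (nat_lit 6) .nil .nil))) 
(.lf (nat_lit 52468) (.g (nat_lit 2674) (.e (nat_lit 1359) (nat_lit 102) (.e (nat_lit 286756) (nat_lit 10) (.e (nat_lit 344126) (nat_lit 25) (.e (nat_lit 548874) (nat_lit 5) (.e (nat_lit 1598) (nat_lit 111) (.e (nat_lit 360462) (nat_lit 1) (.e (nat_lit 499755) (nat_lit 0) .nil))))))) (.g (nat_lit 7) .nil .nil))))) (.nd (nat_lit 4) (.nd (nat_lit 5) 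
(.lf (nat_lit 52428) (.g (nat_lit 4428) (.e (nat_lit 1359) (nat_lit 102) (.e (nat_lit 286756) (nat_lit 10) (.e (nat_lit 344117) (nat_lit 21) (.e (nat_lit 516151) (nat_lit 9) (.e (nat_lit 426097) (nat_lit 1) (.e (nat_lit 164327) (nat_lit 230) (.e (nat_lit 163871) (nat_lit 2) (.e (nat_lit 196691) (nat_lit 18) .nil)))))))) (.g (nat_lit 7) .nil .nil))) 
(.lf (nat_lit 52460) (.g (nat_lit 2076) (.e (nat_lit 1359) (nat_lit 102) (.e (nat_lit 286756) (nat_lit 10) (.e (nat_lit 344126) (nat_lit 25) (.e (nat_lit 548873) (nat_lit 5) (.e (nat_lit 1598) (nat_lit 111) (.e (nat_lit 360462) (nat_lit 1) (.e (nat_lit 499755) (nat_lit 0) .nil))))))) (.g (nat_lit 7) .nil .nil)))) (.nd (nat_lit 5) 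
(.lf (nat_lit 52444) (.g (nat_lit 3327) (.e (nat_lit 1359) (nat_lit 102) (.e (nat_lit 286756) (nat_lit 10) (.e (nat_lit 344117) (nat_lit 21) (.e (nat_lit 516169) (nat_lit 13) (.e (nat_lit 458774) (nat_lit 18) (.e (nat_lit 5224) (nat_lit 296) (.e (nat_lit 163871) (nat_lit 2) (.e (nat_lit 196691) (nat_lit 18) .nil)))))))) (.g (nat_lit 5) .nil .nil))) 
(.lf (nat_lit 52476) (.g (nat_lit 384) (.e (nat_lit 1359) (nat_lit 102) (.e (nat_lit 286756) (nat_lit 10) (.e (nat_lit 344183) (nat_lit 49) .nil))) .nil)))))) (.nd (nat_lit 2) (.nd (nat_lit 3) (.nd (nat_lit 4) (.nd (nat_lit 5) 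
(.lf (nat_lit 52418) (.g (nat_lit 338) (.e (nat_lit 1359) (nat_lit 102) (.e (nat_lit 286756) (nat_lit 10) (.e (nat_lit 344117) (nat_lit 21) .nil))) .nil)) 
(.lf (nat_lit 52450) (.g (nat_lit 2260) (.e (nat_lit 1359) (nat_lit 102) (.e (nat_lit 286756) (nat_lit 10) (.e (nat_lit 344117) (nat_lit 21) (.e (nat_lit 516195) (nat_lit 26) (.e (nat_lit 335995) (nat_lit 1) (.e (nat_lit 57848) (nat_lit 252) (.e (nat_lit 57383) (nat_lit 4) (.e (nat_lit 106545) (nat_lit 14) .nil)))))))) (.g (nat_lit 4) .nil .nil)))) (.nd (nat_lit 5) 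
(.lf (nat_lit 52434) (.g (nat_lit 4245) (.e (nat_lit 1359) (nat_lit 102) (.e (nat_lit 286756) (nat_lit 10) (.e (nat_lit 344117) (nat_lit 21) (.e (nat_lit 516159) (nat_lit 10) (.e (nat_lit 434209) (nat_lit 18) (.e (nat_lit 5224) (nat_lit 296) (.e (nat_lit 163871) (nat_lit 2) (.e (nat_lit 196691) (nat_lit 18) .nil)))))))) (.g (nat_lit 7) .nil .nil))) 
(.lf (nat_lit 52466) (.g (nat_lit 1491) (.e (nat_lit 1359) (nat_lit 102) (.e (nat_lit 286756) (nat_lit 10) (.e (nat_lit 344126) (nat_lit 25) (.e (nat_lit 548874) (nat_lit 5) (.e (nat_lit 1598) (nat_lit 111) .nil))))) .nil)))) (.nd (nat_lit 4) (.nd (nat_lit 5) 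
(.lf (nat_lit 52426) (.g (nat_lit 5186) (.e (nat_lit 1359) (nat_lit 102) (.e (nat_lit 286756) (nat_lit 10) (.e (nat_lit 344117) (nat_lit 21) (.e (nat_lit 516151) (nat_lit 9) (.e (nat_lit 426097) (nat_lit 1) (.e (nat_lit 164327) (nat_lit 230) (.e (nat_lit 163868) (nat_lit 2) (.e (nat_lit 196691) (nat_lit 18) .nil)))))))) (.g (nat_lit 7) .nil .nil))) 
(.lf (nat_lit 52458) (.g (nat_lit 2427) (.e (nat_lit 1359) (nat_lit 102) (.e (nat_lit 286756) (nat_lit 10) (.e (nat_lit 344126) (nat_lit 25) (.e (nat_lit 548873) (nat_lit 5) (.e (nat_lit 1586) (nat_lit 111) (.e (nat_lit 360462) (nat_lit 1) (.e (nat_lit 499755) (nat_lit 0) .nil))))))) (.g (nat_lit 7) .nil .nil)))) (.nd (nat_lit 5) 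
(.lf (nat_lit 52442) (.g (nat_lit 3266) (.e (nat_lit 1359) (nat_lit 102) (.e (nat_lit 286756) (nat_lit 10) (.e (nat_lit 344117) (nat_lit 21) (.e (nat_lit 516160) (nat_lit 10) (.e (nat_lit 434275) (nat_lit 39) (.e (nat_lit 663585) (nat_lit 12) (.e (nat_lit 163977) (nat_lit 30) (.e (nat_lit 573503) (nat_lit 18) .nil)))))))) (.g (nat_lit 4) .nil .nil))) 
(.lf (nat_lit 52474) (.g (nat_lit 421) (.e (nat_lit 1359) (nat_lit 102) (.e (nat_lit 286756) (nat_lit 10) (.e (nat_lit 344174) (nat_lit 42) .nil))) .nil))))) (.nd (nat_lit 3) (.nd (nat_lit 4) (.nd (nat_lit 5) 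
(.lf (nat_lit 52422) (.g (nat_lit 1357) (.e (nat_lit 1359) (nat_lit 102) (.e (nat_lit 286756) (nat_lit 10) (.e (nat_lit 344117) (nat_lit 21) (.e (nat_lit 516151) (nat_lit 9) .nil)))) .nil)) 
(.lf (nat_lit 52454) (.g (nat_lit 395) (.e (nat_lit 1359) (nat_lit 102) (.e (nat_lit 286756) (nat_lit 10) (.e (nat_lit 344126) (nat_lit 25) .nil))) .nil))) (.nd (nat_lit 5) 
(.lf (nat_lit 52438) (.g (nat_lit 4197) (.e (nat_lit 1359) (nat_lit 102) (.e (nat_lit 286756) (nat_lit 10) (.e (nat_lit 344117) (nat_lit 21) (.e (nat_lit 516160) (nat_lit 10) (.e (nat_lit 434209) (nat_lit 18) (.e (nat_lit 5224) (nat_lit 296) (.e (nat_lit 163868) (nat_lit 2) (.e (nat_lit 196691) (nat_lit 18) .nil)))))))) (.g (nat_lit 6) .nil .nil))) 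
(.lf (nat_lit 52470) (.g (nat_lit 2319) (.e (nat_lit 1359) (nat_lit 102) (.e (nat_lit 286756) (nat_lit 10) (.e (nat_lit 344126) (nat_lit 25) (.e (nat_lit 548891) (nat_lit 11) (.e (nat_lit 81953) (nat_lit 22) .nil))))) .nil)))) (.nd (nat_lit 4) (.nd (nat_lit 5) 
(.lf (nat_lit 52430) (.g (nat_lit 1548) (.e (nat_lit 1359) (nat_lit 102) (.e (nat_lit 286756) (nat_lit 10) (.e (nat_lit 344117) (nat_lit 21) (.e (nat_lit 516159) (nat_lit 10) .nil)))) .nil)) 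
(.lf (nat_lit 52462) (.g (nat_lit 3039) (.e (nat_lit 1359) (nat_lit 102) (.e (nat_lit 286756) (nat_lit 10) (.e (nat_lit 344126) (nat_lit 25) (.e (nat_lit 548874) (nat_lit 5) (.e (nat_lit 1586) (nat_lit 111) (.e (nat_lit 360462) (nat_lit 1) (.e (nat_lit 499755) (nat_lit 0) .nil))))))) (.g (nat_lit 7) .nil .nil)))) (.nd (nat_lit 5) 
(.lf (nat_lit 52446) (.g (nat_lit 3727) (.e (nat_lit 1359) (nat_lit 102) (.e (nat_lit 286756) (nat_lit 10) (.e (nat_lit 344117) (nat_lit 21) (.e (nat_lit 516170) (nat_lit 13) (.e (nat_lit 458774) (nat_lit 18) (.e (nat_lit 5224) (nat_lit 296) (.e (nat_lit 163868) (nat_lit 2) (.e (nat_lit 196691) (nat_lit 18) .nil)))))))) (.g (nat_lit 6) .nil .nil))) 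
(.lf (nat_lit 52478) (.g (nat_lit 1757) (.e (nat_lit 1359) (nat_lit 102) (.e (nat_lit 286758) (nat_lit 12) (.e (nat_lit 385105) (nat_lit 50) (.e (nat_lit 786483) (nat_lit 30) (.e (nat_lit 360484) (nat_lit 15) (.e (nat_lit 647203) (nat_lit 14) .nil)))))) (.g (nat_lit 4) .nil .nil)))))))) (.nd (nat_lit 1) (.nd (nat_lit 2) (.nd (nat_lit 3) (.nd (nat_lit 4) (.nd (nat_lit 5) 
(.lf (nat_lit 52417) (.g (nat_lit 2376) (.e (nat_lit 1359) (nat_lit 102) (.e (nat_lit 286756) (nat_lit 10) (.e (nat_lit 344115) (nat_lit 20) (.e (nat_lit 507923) (nat_lit 6) (.e (nat_lit 286747) (nat_lit 9) (.e (nat_lit 336013) (nat_lit 2) (.e (nat_lit 98048) (nat_lit 18) .nil))))))) (.g (nat_lit 6) .nil .nil))) 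
(.lf (nat_lit 52449) (.g (nat_lit 2012) (.e (nat_lit 1359) (nat_lit 102) (.e (nat_lit 286756) (nat_lit 10) (.e (nat_lit 344117) (nat_lit 21) (.e (nat_lit 516195) (nat_lit 26) (.e (nat_lit 335995) (nat_lit 1) .nil))))) .nil))) (.nd (nat_lit 5) 
(.lf (nat_lit 52433) (.g (nat_lit 3942) (.e (nat_lit 1359) (nat_lit 102) (.e (nat_lit 286756) (nat_lit 10) (.e (nat_lit 344117) (nat_lit 21) (.e (nat_lit 516159) (nat_lit 10) (.e (nat_lit 434209) (nat_lit 18) (.e (nat_lit 5224) (nat_lit 296) (.e (nat_lit 163868) (nat_lit 2) (.e (nat_lit 196691) (nat_lit 18) .nil)))))))) (.g (nat_lit 6) .nil .nil))) 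
(.lf (nat_lit 52465) (.g (nat_lit 2422) (.e (nat_lit 1359) (nat_lit 102) (.e (nat_lit 286756) (nat_lit 10) (.e (nat_lit 344126) (nat_lit 25) (.e (nat_lit 548874) (nat_lit 5) (.e (nat_lit 1595) (nat_lit 111) (.e (nat_lit 360458) (nat_lit 1) (.e (nat_lit 499724) (nat_lit 0) .nil))))))) (.g (nat_lit 5) .nil .nil))))) (.nd (nat_lit 4) (.nd (nat_lit 5) 
(.lf (nat_lit 52425) (.g (nat_lit 3184) (.e (nat_lit 1359) (nat_lit 102) (.e (nat_lit 286756) (nat_lit 10) (.e (nat_lit 344117) (nat_lit 21) (.e (nat_lit 516151) (nat_lit 9) (.e (nat_lit 426097) (nat_lit 1) (.e (nat_lit 164327) (nat_lit 230) (.e (nat_lit 163868) (nat_lit 2) (.e (nat_lit 196690) (nat_lit 18) .nil)))))))) (.g (nat_lit 4) .nil .nil))) 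
(.lf (nat_lit 52457) (.g (nat_lit 1502) (.e (nat_lit 1359) (nat_lit 102) (.e (nat_lit 286756) (nat_lit 10) (.e (nat_lit 344126) (nat_lit 25) (.e (nat_lit 548873) (nat_lit 5) (.e (nat_lit 1562) (nat_lit 110) (.e (nat_lit 352312) (nat_lit 22) (.e (nat_lit 98048) (nat_lit 18) .nil))))))) (.g (nat_lit 4) .nil .nil)))) (.nd (nat_lit 5) 
(.lf (nat_lit 52441) (.g (nat_lit 4584) (.e (nat_lit 1359) (nat_lit 102) (.e (nat_lit 286756) (nat_lit 10) (.e (nat_lit 344117) (nat_lit 21) (.e (nat_lit 516160) (nat_lit 10) (.e (nat_lit 434275) (nat_lit 39) (.e (nat_lit 663584) (nat_lit 12) (.e (nat_lit 163979) (nat_lit 30) (.e (nat_lit 573503) (nat_lit 18) .nil)))))))) (.g (nat_lit 6) .nil .nil))) 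
(.lf (nat_lit 52473) (.g (nat_lit 1946) (.e (nat_lit 1359) (nat_lit 102) (.e (nat_lit 286756) (nat_lit 10) (.e (nat_lit 344169) (nat_lit 40) (.e (nat_lit 671762) (nat_lit 4) (.e (nat_lit 65620) (nat_lit 10) (.e (nat_lit 344160) (nat_lit 37) (.e (nat_lit 647203) (nat_lit 14) .nil))))))) (.g (nat_lit 4) .nil .nil)))))) (.nd (nat_lit 3) (.nd (nat_lit 4) (.nd (nat_lit 5) 
(.lf (nat_lit 52421) (.g (nat_lit 3008) (.e (nat_lit 1359) (nat_lit 102) (.e (nat_lit 286756) (nat_lit 10) (.e (nat_lit 344117) (nat_lit 21) (.e (nat_lit 516143) (nat_lit 9) (.e (nat_lit 426109) (nat_lit 1) (.e (nat_lit 164326) (nat_lit 230) (.e (nat_lit 163871) (nat_lit 2) (.e (nat_lit 196691) (nat_lit 18) .nil)))))))) (.g (nat_lit 5) .nil .nil))) 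
(.lf (nat_lit 52453) (.g (nat_lit 2762) (.e (nat_lit 1359) (nat_lit 102) (.e (nat_lit 286756) (nat_lit 10) (.e (nat_lit 344123) (nat_lit 24) (.e (nat_lit 540724) (nat_lit 28) (.e (nat_lit 442434) (nat_lit 26) (.e (nat_lit 254008) (nat_lit 14) .nil)))))) (.g (nat_lit 0) .nil .nil)))) (.nd (nat_lit 5) 
(.lf (nat_lit 52437) (.g (nat_lit 3775) (.e (nat_lit 1359) (nat_lit 102) (.e (nat_lit 286756) (nat_lit 10) (.e (nat_lit 344117) (nat_lit 21) (.e (nat_lit 516160) (nat_lit 10) (.e (nat_lit 434209) (nat_lit 18) (.e (nat_lit 5223) (nat_lit 296) (.e (nat_lit 163871) (nat_lit 2) (.e (nat_lit 196691) (nat_lit 18) .nil)))))))) (.g (nat_lit 5) .nil .nil))) 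
(.lf (nat_lit 52469) (.g (nat_lit 3939) (.e (nat_lit 1359) (nat_lit 102) (.e (nat_lit 286756) (nat_lit 10) (.e (nat_lit 344126) (nat_lit 25) (.e (nat_lit 548889) (nat_lit 9) (.e (nat_lit 65598) (nat_lit 9) (.e (nat_lit 336013) (nat_lit 2) (.e (nat_lit 98048) (nat_lit 18) .nil))))))) (.g (nat_lit 6) .nil .nil))))) (.nd (nat_lit 4) (.nd (nat_lit 5) 
(.lf (nat_lit 52429) (.g (nat_lit 3681) (.e (nat_lit 1359) (nat_lit 102) (.e (nat_lit 286756) (nat_lit 10) (.e (nat_lit 344117) (nat_lit 21) (.e (nat_lit 516151) (nat_lit 9) (.e (nat_lit 426104) (nat_lit 1) .nil))))) .nil)) 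
(.lf (nat_lit 52461) (.g (nat_lit 2022) (.e (nat_lit 1359) (nat_lit 102) (.e (nat_lit 286756) (nat_lit 10) (.e (nat_lit 344126) (nat_lit 25) (.e (nat_lit 548874) (nat_lit 5) (.e (nat_lit 1562) (nat_lit 110) (.e (nat_lit 352312) (nat_lit 22) (.e (nat_lit 98048) (nat_lit 18) .nil))))))) (.g (nat_lit 4) .nil .nil)))) (.nd (nat_lit 5) 
(.lf (nat_lit 52445) (.g (nat_lit 1603) (.e (nat_lit 1359) (nat_lit 102) (.e (nat_lit 286756) (nat_lit 10) (.e (nat_lit 344117) (nat_lit 21) (.e (nat_lit 516170) (nat_lit 13) .nil)))) .nil)) 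
(.lf (nat_lit 52477) (.g (nat_lit 3533) (.e (nat_lit 1359) (nat_lit 102) (.e (nat_lit 286756) (nat_lit 10) (.e (nat_lit 344183) (nat_lit 49) (.e (nat_lit 819219) (nat_lit 4) (.e (nat_lit 172115) (nat_lit 10) (.e (nat_lit 434244) (nat_lit 28) (.e (nat_lit 573502) (nat_lit 18) .nil))))))) (.g (nat_lit 0) .nil .nil))))))) (.nd (nat_lit 2) (.nd (nat_lit 3) (.nd (nat_lit 4) (.nd (nat_lit 5) 
(.lf (nat_lit 52419) (.g (nat_lit 2506) (.e (nat_lit 1359) (nat_lit 102) (.e (nat_lit 286756) (nat_lit 10) (.e (nat_lit 344117) (nat_lit 21) (.e (nat_lit 516106) (nat_lit 0) (.e (nat_lit 7936) (nat_lit 407) .nil))))) .nil)) 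
(.lf (nat_lit 52451) (.g (nat_lit 2264) (.e (nat_lit 1359) (nat_lit 102) (.e (nat_lit 286756) (nat_lit 10) (.e (nat_lit 344117) (nat_lit 21) (.e (nat_lit 516195) (nat_lit 26) (.e (nat_lit 335995) (nat_lit 1) (.e (nat_lit 57848) (nat_lit 252) (.e (nat_lit 57383) (nat_lit 4) (.e (nat_lit 106550) (nat_lit 14) .nil)))))))) (.g (nat_lit 4) .nil .nil)))) (.nd (nat_lit 5) 
(.lf (nat_lit 52435) (.g (nat_lit 2524) (.e (nat_lit 1359) (nat_lit 102) (.e (nat_lit 286756) (nat_lit 10) (.e (nat_lit 344117) (nat_lit 21) (.e (nat_lit 516159) (nat_lit 10) (.e (nat_lit 434275) (nat_lit 39) .nil))))) .nil)) 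
(.lf (nat_lit 52467) (.g (nat_lit 1862) (.e (nat_lit 1359) (nat_lit 102) (.e (nat_lit 286756) (nat_lit 10) (.e (nat_lit 344126) (nat_lit 25) (.e (nat_lit 548874) (nat_lit 5) (.e (nat_lit 1598) (nat_lit 111) (.e (nat_lit 360458) (nat_lit 1) (.e (nat_lit 499724) (nat_lit 0) .nil))))))) (.g (nat_lit 4) .nil .nil))))) (.nd (nat_lit 4) (.nd (nat_lit 5) 
(.lf (nat_lit 52427) (.g (nat_lit 3017) (.e (nat_lit 1359) (nat_lit 102) (.e (nat_lit 286756) (nat_lit 10) (.e (nat_lit 344117) (nat_lit 21) (.e (nat_lit 516151) (nat_lit 9) (.e (nat_lit 426097) (nat_lit 1) (.e (nat_lit 164327) (nat_lit 230) (.e (nat_lit 163868) (nat_lit 2) (.e (nat_lit 196692) (nat_lit 18) .nil)))))))) (.g (nat_lit 4) .nil .nil))) 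
(.lf (nat_lit 52459) (.g (nat_lit 1993) (.e (nat_lit 1359) (nat_lit 102) (.e (nat_lit 286756) (nat_lit 10) (.e (nat_lit 344126) (nat_lit 25) (.e (nat_lit 548873) (nat_lit 5) (.e (nat_lit 1595) (nat_lit 111) (.e (nat_lit 360458) (nat_lit 1) (.e (nat_lit 499724) (nat_lit 0) .nil))))))) (.g (nat_lit 5) .nil .nil)))) (.nd (nat_lit 5) 
(.lf (nat_lit 52443) (.g (nat_lit 3015) (.e (nat_lit 1359) (nat_lit 102) (.e (nat_lit 286756) (nat_lit 10) (.e (nat_lit 344117) (nat_lit 21) (.e (nat_lit 516169) (nat_lit 13) (.e (nat_lit 458774) (nat_lit 18) (.e (nat_lit 5224) (nat_lit 296) (.e (nat_lit 163868) (nat_lit 2) (.e (nat_lit 196691) (nat_lit 18) .nil)))))))) (.g (nat_lit 4) .nil .nil))) 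
(.lf (nat_lit 52475) (.g (nat_lit 1008) (.e (nat_lit 1359) (nat_lit 102) (.e (nat_lit 286756) (nat_lit 10) (.e (nat_lit 344177) (nat_lit 43) (.e (nat_lit 770058) (nat_lit 5) .nil)))) .nil))))) (.nd (nat_lit 3) (.nd (nat_lit 4) (.nd (nat_lit 5) 
(.lf (nat_lit 52423) (.g (nat_lit 4120) (.e (nat_lit 1359) (nat_lit 102) (.e (nat_lit 286756) (nat_lit 10) (.e (nat_lit 344117) (nat_lit 21) (.e (nat_lit 516151) (nat_lit 9) (.e (nat_lit 426097) (nat_lit 1) (.e (nat_lit 164326) (nat_lit 230) (.e (nat_lit 163868) (nat_lit 2) (.e (nat_lit 196691) (nat_lit 18) .nil)))))))) (.g (nat_lit 6) .nil .nil))) 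
(.lf (nat_lit 52455) (.g (nat_lit 2032) (.e (nat_lit 1359) (nat_lit 102) (.e (nat_lit 286756) (nat_lit 10) (.e (nat_lit 344126) (nat_lit 25) (.e (nat_lit 548872) (nat_lit 5) (.e (nat_lit 1598) (nat_lit 111) (.e (nat_lit 360462) (nat_lit 1) (.e (nat_lit 499755) (nat_lit 0) .nil))))))) (.g (nat_lit 6) .nil .nil)))) (.nd (nat_lit 5) 
(.lf (nat_lit 52439) (.g (nat_lit 4500) (.e (nat_lit 1359) (nat_lit 102) (.e (nat_lit 286756) (nat_lit 10) (.e (nat_lit 344117) (nat_lit 21) (.e (nat_lit 516160) (nat_lit 10) (.e (nat_lit 434209) (nat_lit 18) (.e (nat_lit 5224) (nat_lit 296) (.e (nat_lit 163871) (nat_lit 2) (.e (nat_lit 196691) (nat_lit 18) .nil)))))))) (.g (nat_lit 7) .nil .nil))) 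
(.lf (nat_lit 52471) (.g (nat_lit 1689) (.e (nat_lit 1359) (nat_lit 102) (.e (nat_lit 286756) (nat_lit 10) (.e (nat_lit 344138) (nat_lit 29) (.e (nat_lit 581651) (nat_lit 4) (.e (nat_lit 172094) (nat_lit 9) (.e (nat_lit 426162) (nat_lit 6) (.e (nat_lit 254008) (nat_lit 14) .nil))))))) (.g (nat_lit 5) .nil .nil))))) (.nd (nat_lit 4) (.nd (nat_lit 5) 
(.lf (nat_lit 52431) (.g (nat_lit 4125) (.e (nat_lit 1359) (nat_lit 102) (.e (nat_lit 286756) (nat_lit 10) (.e (nat_lit 344117) (nat_lit 21) (.e (nat_lit 516159) (nat_lit 10) (.e (nat_lit 434209) (nat_lit 18) (.e (nat_lit 5223) (nat_lit 296) (.e (nat_lit 163868) (nat_lit 2) (.e (nat_lit 196691) (nat_lit 18) .nil)))))))) (.g (nat_lit 7) .nil .nil))) 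
(.lf (nat_lit 52463) (.g (nat_lit 1651) (.e (nat_lit 1359) (nat_lit 102) (.e (nat_lit 286756) (nat_lit 10) (.e (nat_lit 344126) (nat_lit 25) (.e (nat_lit 548874) (nat_lit 5) (.e (nat_lit 1589) (nat_lit 111) .nil))))) .nil))) (.nd (nat_lit 5) 
(.lf (nat_lit 52447) (.g (nat_lit 4039) (.e (nat_lit 1359) (nat_lit 102) (.e (nat_lit 286756) (nat_lit 10) (.e (nat_lit 344117) (nat_lit 21) (.e (nat_lit 516170) (nat_lit 13) (.e (nat_lit 458774) (nat_lit 18) (.e (nat_lit 5224) (nat_lit 296) (.e (nat_lit 163871) (nat_lit 2) (.e (nat_lit 196691) (nat_lit 18) .nil)))))))) (.g (nat_lit 7) .nil .nil))) 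
(.lf (nat_lit 52479) (.g (nat_lit 1986) (.e (nat_lit 1359) (nat_lit 102) (.e (nat_lit 286759) (nat_lit 12) (.e (nat_lit 385074) (nat_lit 31) (.e (nat_lit 573484) (nat_lit 13) (.e (nat_lit 65617) (nat_lit 10) (.e (nat_lit 344106) (nat_lit 19) (.e (nat_lit 499724) (nat_lit 0) .nil))))))) (.g (nat_lit 4) .nil .nil)))))))))

noncomputable def tv728 : DT := (.nd (nat_lit 0) (.nd (nat_lit 1) (.nd (nat_lit 2) (.nd (nat_lit 3) (.nd (nat_lit 4) (.nd (nat_lit 5) (.nd (nat_lit 6) 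
(.lf (nat_lit 52480) (.g (nat_lit 1429) (.e (nat_lit 1359) (nat_lit 102) (.e (nat_lit 286759) (nat_lit 12) (.e (nat_lit 385074) (nat_lit 31) (.e (nat_lit 573485) (nat_lit 13) .nil)))) .nil)) 
(.lf (nat_lit 52544) (.g (nat_lit 4459) (.e (nat_lit 1360) (nat_lit 102) (.e (nat_lit 286733) (nat_lit 2) (.e (nat_lit 90176) (nat_lit 15) (.e (nat_lit 188452) (nat_lit 23) (.e (nat_lit 204816) (nat_lit 17) .nil))))) .nil))) (.nd (nat_lit 6) 
(.lf (nat_lit 52512) (.g (nat_lit 3086) (.e (nat_lit 1359) (nat_lit 102) (.e (nat_lit 286762) (nat_lit 14) (.e (nat_lit 401457) (nat_lit 13) (.e (nat_lit 483394) (nat_lit 24) (.e (nat_lit 344160) (nat_lit 37) (.e (nat_lit 647203) (nat_lit 14) .nil)))))) (.g (nat_lit 5) .nil .nil))) 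
(.lf (nat_lit 52576) (.g (nat_lit 3663) (.e (nat_lit 1360) (nat_lit 102) (.e (nat_lit 286735) (nat_lit 3) (.e (nat_lit 98373) (nat_lit 29) (.e (nat_lit 450587) (nat_lit 10) (.e (nat_lit 573457) (nat_lit 9) (.e (nat_lit 11) (nat_lit 0) (.e (nat_lit 6952) (nat_lit 377) .nil))))))) (.g (nat_lit 4) .nil .nil))))) (.nd (nat_lit 5) (.nd (nat_lit 6) 
(.lf (nat_lit 52496) (.g (nat_lit 1022) (.e (nat_lit 1359) (nat_lit 102) (.e (nat_lit 286761) (nat_lit 13) (.e (nat_lit 393298) (nat_lit 27) .nil))) .nil)) 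
(.lf (nat_lit 52560) (.g (nat_lit 1409) (.e (nat_lit 1360) (nat_lit 102) (.e (nat_lit 286734) (nat_lit 3) (.e (nat_lit 98372) (nat_lit 29) (.e (nat_lit 450579) (nat_lit 5) .nil)))) .nil))) (.nd (nat_lit 6) 
(.lf (nat_lit 52528) (.g (nat_lit 4436) (.e (nat_lit 1360) (nat_lit 102) (.e (nat_lit 286733) (nat_lit 2) (.e (nat_lit 90170) (nat_lit 13) (.e (nat_lit 172106) (nat_lit 10) (.e (nat_lit 434231) (nat_lit 23) (.e (nat_lit 532482) (nat_lit 0) (.e (nat_lit 6079) (nat_lit 332) .nil))))))) (.g (nat_lit 6) .nil .nil))) 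
(.lf (nat_lit 52592) (.g (nat_lit 2580) (.e (nat_lit 1360) (nat_lit 102) (.e (nat_lit 286748) (nat_lit 9) (.e (nat_lit 336389) (nat_lit 27) (.e (nat_lit 426012) (nat_lit 0) (.e (nat_lit 7589) (nat_lit 406) (.e (nat_lit 65632) (nat_lit 15) (.e (nat_lit 6953) (nat_lit 377) .nil))))))) (.g (nat_lit 5) .nil .nil)))))) (.nd (nat_lit 4) (.nd (nat_lit 5) (.nd (nat_lit 6) 
(.lf (nat_lit 52488) (.g (nat_lit 1236) (.e (nat_lit 1359) (nat_lit 102) (.e (nat_lit 286760) (nat_lit 13) (.e (nat_lit 393229) (nat_lit 9) (.e (nat_lit 343808) (nat_lit 20) .nil)))) .nil)) 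
(.lf (nat_lit 52552) (.g (nat_lit 2768) (.e (nat_lit 1360) (nat_lit 102) (.e (nat_lit 286734) (nat_lit 3) (.e (nat_lit 98359) (nat_lit 26) (.e (nat_lit 426212) (nat_lit 9) (.e (nat_lit 426125) (nat_lit 2) (.e (nat_lit 196661) (nat_lit 12) (.e (nat_lit 57711) (nat_lit 176) .nil))))))) (.g (nat_lit 4) .nil .nil)))) (.nd (nat_lit 6) 
(.lf (nat_lit 52520) (.g (nat_lit 3866) (.e (nat_lit 1360) (nat_lit 102) (.e (nat_lit 286733) (nat_lit 2) (.e (nat_lit 90170) (nat_lit 13) (.e (nat_lit 172092) (nat_lit 9) (.e (nat_lit 426125) (nat_lit 2) (.e (nat_lit 196661) (nat_lit 12) (.e (nat_lit 57711) (nat_lit 176) .nil))))))) (.g (nat_lit 5) .nil .nil))) 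
(.lf (nat_lit 52584) (.g (nat_lit 6285) (.e (nat_lit 1360) (nat_lit 102) (.e (nat_lit 286735) (nat_lit 3) (.e (nat_lit 98373) (nat_lit 29) (.e (nat_lit 450588) (nat_lit 10) (.e (nat_lit 573452) (nat_lit 9) (.e (nat_lit 11) (nat_lit 0) (.e (nat_lit 6953) (nat_lit 377) .nil))))))) (.g (nat_lit 5) .nil .nil))))) (.nd (nat_lit 5) (.nd (nat_lit 6) 
(.lf (nat_lit 52504) (.g (nat_lit 3789) (.e (nat_lit 1359) (nat_lit 102) (.e (nat_lit 286761) (nat_lit 13) (.e (nat_lit 393301) (nat_lit 27) (.e (nat_lit 499456) (nat_lit 9) .nil)))) .nil)) 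
(.lf (nat_lit 52568) (.g (nat_lit 2380) (.e (nat_lit 1360) (nat_lit 102) (.e (nat_lit 286735) (nat_lit 3) (.e (nat_lit 98372) (nat_lit 29) (.e (nat_lit 450579) (nat_lit 5) (.e (nat_lit 532484) (nat_lit 0) (.e (nat_lit 7936) (nat_lit 332) .nil)))))) (.g (nat_lit 5) .nil .nil)))) (.nd (nat_lit 6) 
(.lf (nat_lit 52536) (.g (nat_lit 2688) (.e (nat_lit 1360) (nat_lit 102) (.e (nat_lit 286733) (nat_lit 2) (.e (nat_lit 90170) (nat_lit 13) (.e (nat_lit 172113) (nat_lit 10) .nil)))) .nil)) 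
(.lf (nat_lit 52600) (.g (nat_lit 2875) (.e (nat_lit 1360) (nat_lit 102) (.e (nat_lit 286748) (nat_lit 9) (.e (nat_lit 336389) (nat_lit 27) (.e (nat_lit 426308) (nat_lit 12) (.e (nat_lit 475201) (nat_lit 40) (.e (nat_lit 704839) (nat_lit 15) (.e (nat_lit 57794) (nat_lit 245) .nil))))))) (.g (nat_lit 4) .nil .nil))))))) (.nd (nat_lit 3) (.nd (nat_lit 4) (.nd (nat_lit 5) (.nd (nat_lit 6) 
(.lf (nat_lit 52484) (.g (nat_lit 1141) (.e (nat_lit 1359) (nat_lit 102) (.e (nat_lit 286759) (nat_lit 12) (.e (nat_lit 385094) (nat_lit 49) (.e (nat_lit 778327) (nat_lit 6) .nil)))) .nil)) 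
(.lf (nat_lit 52548) (.g (nat_lit 863) (.e (nat_lit 1360) (nat_lit 102) (.e (nat_lit 286733) (nat_lit 2) (.e (nat_lit 90178) (nat_lit 15) .nil))) .nil))) (.nd (nat_lit 6) 
(.lf (nat_lit 52516) (.g (nat_lit 3292) (.e (nat_lit 1360) (nat_lit 102) (.e (nat_lit 286732) (nat_lit 2) (.e (nat_lit 90170) (nat_lit 13) (.e (nat_lit 172106) (nat_lit 10) (.e (nat_lit 434231) (nat_lit 23) (.e (nat_lit 532486) (nat_lit 0) (.e (nat_lit 6109) (nat_lit 332) .nil))))))) (.g (nat_lit 5) .nil .nil))) 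
(.lf (nat_lit 52580) (.g (nat_lit 4545) (.e (nat_lit 1360) (nat_lit 102) (.e (nat_lit 286735) (nat_lit 3) (.e (nat_lit 98373) (nat_lit 29) (.e (nat_lit 450588) (nat_lit 10) (.e (nat_lit 573451) (nat_lit 9) (.e (nat_lit 13) (nat_lit 0) (.e (nat_lit 6952) (nat_lit 377) .nil))))))) (.g (nat_lit 4) .nil .nil))))) (.nd (nat_lit 5) (.nd (nat_lit 6) 
(.lf (nat_lit 52500) (.g (nat_lit 3604) (.e (nat_lit 1359) (nat_lit 102) (.e (nat_lit 286761) (nat_lit 13) (.e (nat_lit 393301) (nat_lit 27) (.e (nat_lit 491546) (nat_lit 9) .nil)))) .nil)) 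
(.lf (nat_lit 52564) (.g (nat_lit 3501) (.e (nat_lit 1360) (nat_lit 102) (.e (nat_lit 286735) (nat_lit 3) (.e (nat_lit 98372) (nat_lit 29) (.e (nat_lit 450579) (nat_lit 5) (.e (nat_lit 532480) (nat_lit 0) (.e (nat_lit 6109) (nat_lit 332) .nil)))))) (.g (nat_lit 0) .nil .nil)))) (.nd (nat_lit 6) 
(.lf (nat_lit 52532) (.g (nat_lit 3306) (.e (nat_lit 1360) (nat_lit 102) (.e (nat_lit 286733) (nat_lit 2) (.e (nat_lit 90170) (nat_lit 13) (.e (nat_lit 172106) (nat_lit 10) (.e (nat_lit 434231) (nat_lit 23) (.e (nat_lit 532486) (nat_lit 0) (.e (nat_lit 6122) (nat_lit 332) .nil))))))) (.g (nat_lit 5) .nil .nil))) 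
(.lf (nat_lit 52596) (.g (nat_lit 3011) (.e (nat_lit 1360) (nat_lit 102) (.e (nat_lit 286748) (nat_lit 9) (.e (nat_lit 336389) (nat_lit 27) (.e (nat_lit 426306) (nat_lit 12) (.e (nat_lit 475201) (nat_lit 40) .nil))))) .nil))))) (.nd (nat_lit 4) (.nd (nat_lit 5) (.nd (nat_lit 6) 
(.lf (nat_lit 52492) (.g (nat_lit 1014) (.e (nat_lit 1359) (nat_lit 102) (.e (nat_lit 286761) (nat_lit 13) (.e (nat_lit 393225) (nat_lit 9) .nil))) .nil)) 
(.lf (nat_lit 52556) (.g (nat_lit 3025) (.e (nat_lit 1360) (nat_lit 102) (.e (nat_lit 286734) (nat_lit 3) (.e (nat_lit 98370) (nat_lit 28) (.e (nat_lit 442424) (nat_lit 22) (.e (nat_lit 196661) (nat_lit 12) (.e (nat_lit 57711) (nat_lit 176) .nil)))))) (.g (nat_lit 5) .nil .nil)))) (.nd (nat_lit 6) 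
(.lf (nat_lit 52524) (.g (nat_lit 4328) (.e (nat_lit 1360) (nat_lit 102) (.e (nat_lit 286733) (nat_lit 2) (.e (nat_lit 90170) (nat_lit 13) (.e (nat_lit 172097) (nat_lit 9) (.e (nat_lit 426125) (nat_lit 2) (.e (nat_lit 196661) (nat_lit 12) (.e (nat_lit 57711) (nat_lit 176) .nil))))))) (.g (nat_lit 5) .nil .nil))) 
(.lf (nat_lit 52588) (.g (nat_lit 766) (.e (nat_lit 1360) (nat_lit 102) (.e (nat_lit 286748) (nat_lit 9) (.e (nat_lit 336389) (nat_lit 27) .nil))) .nil)))) (.nd (nat_lit 5) (.nd (nat_lit 6) 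
(.lf (nat_lit 52508) (.g (nat_lit 5593) (.e (nat_lit 1359) (nat_lit 102) (.e (nat_lit 286761) (nat_lit 13) (.e (nat_lit 393301) (nat_lit 27) (.e (nat_lit 491560) (nat_lit 10) (.e (nat_lit 344172) (nat_lit 41) .nil))))) .nil)) 
(.lf (nat_lit 52572) (.g (nat_lit 4680) (.e (nat_lit 1360) (nat_lit 102) (.e (nat_lit 286735) (nat_lit 3) (.e (nat_lit 98373) (nat_lit 29) (.e (nat_lit 450562) (nat_lit 0) (.e (nat_lit 4284) (nat_lit 253) .nil))))) .nil))) (.nd (nat_lit 6) 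
(.lf (nat_lit 52540) (.g (nat_lit 1892) (.e (nat_lit 1360) (nat_lit 102) (.e (nat_lit 286733) (nat_lit 2) (.e (nat_lit 90176) (nat_lit 15) (.e (nat_lit 188450) (nat_lit 23) .nil)))) .nil)) 
(.lf (nat_lit 52604) (.g (nat_lit 1245) (.e (nat_lit 1360) (nat_lit 102) (.e (nat_lit 286752) (nat_lit 10) (.e (nat_lit 344177) (nat_lit 43) (.e (nat_lit 770055) (nat_lit 5) (.e (nat_lit 1575) (nat_lit 110) .nil))))) .nil))))))) (.nd (nat_lit 2) (.nd (nat_lit 3) (.nd (nat_lit 4) (.nd (nat_lit 5) (.nd (nat_lit 6) 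
(.lf (nat_lit 52482) (.g (nat_lit 3323) (.e (nat_lit 1359) (nat_lit 102) (.e (nat_lit 286759) (nat_lit 12) (.e (nat_lit 385074) (nat_lit 31) (.e (nat_lit 573493) (nat_lit 15) (.e (nat_lit 81961) (nat_lit 25) .nil))))) .nil)) 
(.lf (nat_lit 52546) (.g (nat_lit 3920) (.e (nat_lit 1360) (nat_lit 102) (.e (nat_lit 286733) (nat_lit 2) (.e (nat_lit 90177) (nat_lit 15) (.e (nat_lit 188452) (nat_lit 23) (.e (nat_lit 204816) (nat_lit 17) (.e (nat_lit 6079) (nat_lit 332) .nil)))))) (.g (nat_lit 5) .nil .nil)))) (.nd (nat_lit 6) 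
(.lf (nat_lit 52514) (.g (nat_lit 2966) (.e (nat_lit 1359) (nat_lit 102) (.e (nat_lit 286762) (nat_lit 14) (.e (nat_lit 401459) (nat_lit 13) (.e (nat_lit 483394) (nat_lit 24) (.e (nat_lit 344160) (nat_lit 37) (.e (nat_lit 647203) (nat_lit 14) .nil)))))) (.g (nat_lit 5) .nil .nil))) 
(.lf (nat_lit 52578) (.g (nat_lit 4694) (.e (nat_lit 1360) (nat_lit 102) (.e (nat_lit 286735) (nat_lit 3) (.e (nat_lit 98373) (nat_lit 29) (.e (nat_lit 450587) (nat_lit 10) (.e (nat_lit 573457) (nat_lit 9) (.e (nat_lit 13) (nat_lit 0) (.e (nat_lit 6950) (nat_lit 377) .nil))))))) (.g (nat_lit 6) .nil .nil))))) (.nd (nat_lit 5) (.nd (nat_lit 6) 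
(.lf (nat_lit 52498) (.g (nat_lit 985) (.e (nat_lit 1359) (nat_lit 102) (.e (nat_lit 286761) (nat_lit 13) (.e (nat_lit 393300) (nat_lit 27) .nil))) .nil)) 
(.lf (nat_lit 52562) (.g (nat_lit 2432) (.e (nat_lit 1360) (nat_lit 102) (.e (nat_lit 286735) (nat_lit 3) (.e (nat_lit 98370) (nat_lit 28) (.e (nat_lit 442424) (nat_lit 22) (.e (nat_lit 196628) (nat_lit 9) .nil))))) .nil))) (.nd (nat_lit 6) 
(.lf (nat_lit 52530) (.g (nat_lit 3358) (.e (nat_lit 1360) (nat_lit 102) (.e (nat_lit 286733) (nat_lit 2) (.e (nat_lit 90170) (nat_lit 13) (.e (nat_lit 172106) (nat_lit 10) (.e (nat_lit 434231) (nat_lit 23) (.e (nat_lit 532486) (nat_lit 0) (.e (nat_lit 6106) (nat_lit 332) .nil))))))) (.g (nat_lit 5) .nil .nil))) 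
(.lf (nat_lit 52594) (.g (nat_lit 3248) (.e (nat_lit 1360) (nat_lit 102) (.e (nat_lit 286748) (nat_lit 9) (.e (nat_lit 336389) (nat_lit 27) (.e (nat_lit 426188) (nat_lit 9) (.e (nat_lit 426444) (nat_lit 19) .nil))))) .nil))))) (.nd (nat_lit 4) (.nd (nat_lit 5) (.nd (nat_lit 6) 
(.lf (nat_lit 52490) (.g (nat_lit 1672) (.e (nat_lit 1359) (nat_lit 102) (.e (nat_lit 286761) (nat_lit 13) (.e (nat_lit 393221) (nat_lit 0) (.e (nat_lit 7936) (nat_lit 362) .nil)))) .nil)) 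
(.lf (nat_lit 52554) (.g (nat_lit 2822) (.e (nat_lit 1360) (nat_lit 102) (.e (nat_lit 286734) (nat_lit 3) (.e (nat_lit 98370) (nat_lit 28) (.e (nat_lit 442424) (nat_lit 22) (.e (nat_lit 196628) (nat_lit 9) (.e (nat_lit 968) (nat_lit 81) (.e (nat_lit 6084) (nat_lit 332) .nil))))))) (.g (nat_lit 4) .nil .nil)))) (.nd (nat_lit 6) 
(.lf (nat_lit 52522) (.g (nat_lit 4133) (.e (nat_lit 1360) (nat_lit 102) (.e (nat_lit 286733) (nat_lit 2) (.e (nat_lit 90170) (nat_lit 13) (.e (nat_lit 172095) (nat_lit 9) (.e (nat_lit 426125) (nat_lit 2) (.e (nat_lit 196661) (nat_lit 12) (.e (nat_lit 57711) (nat_lit 176) .nil))))))) (.g (nat_lit 5) .nil .nil))) 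
(.lf (nat_lit 52586) (.g (nat_lit 4765) (.e (nat_lit 1360) (nat_lit 102) (.e (nat_lit 286735) (nat_lit 3) (.e (nat_lit 98373) (nat_lit 29) (.e (nat_lit 450588) (nat_lit 10) (.e (nat_lit 573457) (nat_lit 9) .nil))))) .nil)))) (.nd (nat_lit 5) (.nd (nat_lit 6) 
(.lf (nat_lit 52506) (.g (nat_lit 4170) (.e (nat_lit 1359) (nat_lit 102) (.e (nat_lit 286761) (nat_lit 13) (.e (nat_lit 393301) (nat_lit 27) (.e (nat_lit 491559) (nat_lit 10) .nil)))) .nil)) 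
(.lf (nat_lit 52570) (.g (nat_lit 2175) (.e (nat_lit 1360) (nat_lit 102) (.e (nat_lit 286735) (nat_lit 3) (.e (nat_lit 98372) (nat_lit 29) (.e (nat_lit 450579) (nat_lit 5) (.e (nat_lit 532488) (nat_lit 0) (.e (nat_lit 7936) (nat_lit 332) .nil)))))) (.g (nat_lit 5) .nil .nil)))) (.nd (nat_lit 6) 
(.lf (nat_lit 52538) (.g (nat_lit 2873) (.e (nat_lit 1360) (nat_lit 102) (.e (nat_lit 286733) (nat_lit 2) (.e (nat_lit 90170) (nat_lit 13) (.e (nat_lit 172115) (nat_lit 10) .nil)))) .nil)) 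
(.lf (nat_lit 52602) (.g (nat_lit 2729) (.e (nat_lit 1360) (nat_lit 102) (.e (nat_lit 286748) (nat_lit 9) (.e (nat_lit 336389) (nat_lit 27) (.e (nat_lit 426343) (nat_lit 14) (.e (nat_lit 491552) (nat_lit 9) .nil))))) .nil)))))) (.nd (nat_lit 3) (.nd (nat_lit 4) (.nd (nat_lit 5) (.nd (nat_lit 6) 
(.lf (nat_lit 52486) (.g (nat_lit 2685) (.e (nat_lit 1359) (nat_lit 102) (.e (nat_lit 286759) (nat_lit 12) (.e (nat_lit 385102) (nat_lit 50) (.e (nat_lit 786483) (nat_lit 30) (.e (nat_lit 360484) (nat_lit 15) (.e (nat_lit 647203) (nat_lit 14) .nil)))))) (.g (nat_lit 6) .nil .nil))) 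
(.lf (nat_lit 52550) (.g (nat_lit 3805) (.e (nat_lit 1360) (nat_lit 102) (.e (nat_lit 286734) (nat_lit 3) (.e (nat_lit 98359) (nat_lit 26) (.e (nat_lit 426211) (nat_lit 9) (.e (nat_lit 426125) (nat_lit 2) (.e (nat_lit 196661) (nat_lit 12) (.e (nat_lit 57711) (nat_lit 176) .nil))))))) (.g (nat_lit 5) .nil .nil)))) (.nd (nat_lit 6) 
(.lf (nat_lit 52518) (.g (nat_lit 3943) (.e (nat_lit 1360) (nat_lit 102) (.e (nat_lit 286733) (nat_lit 2) (.e (nat_lit 90170) (nat_lit 13) (.e (nat_lit 172085) (nat_lit 9) (.e (nat_lit 426125) (nat_lit 2) (.e (nat_lit 196661) (nat_lit 12) (.e (nat_lit 57711) (nat_lit 176) .nil))))))) (.g (nat_lit 5) .nil .nil))) 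
(.lf (nat_lit 52582) (.g (nat_lit 6138) (.e (nat_lit 1360) (nat_lit 102) (.e (nat_lit 286735) (nat_lit 3) (.e (nat_lit 98373) (nat_lit 29) (.e (nat_lit 450588) (nat_lit 10) (.e (nat_lit 573452) (nat_lit 9) (.e (nat_lit 11) (nat_lit 0) (.e (nat_lit 6950) (nat_lit 377) .nil))))))) (.g (nat_lit 5) .nil .nil))))) (.nd (nat_lit 5) (.nd (nat_lit 6) 
(.lf (nat_lit 52502) (.g (nat_lit 3768) (.e (nat_lit 1359) (nat_lit 102) (.e (nat_lit 286761) (nat_lit 13) (.e (nat_lit 393301) (nat_lit 27) (.e (nat_lit 491552) (nat_lit 9) .nil)))) .nil)) 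
(.lf (nat_lit 52566) (.g (nat_lit 2357) (.e (nat_lit 1360) (nat_lit 102) (.e (nat_lit 286735) (nat_lit 3) (.e (nat_lit 98372) (nat_lit 29) (.e (nat_lit 450579) (nat_lit 5) (.e (nat_lit 532482) (nat_lit 0) (.e (nat_lit 6079) (nat_lit 332) .nil)))))) (.g (nat_lit 4) .nil .nil)))) (.nd (nat_lit 6) 
(.lf (nat_lit 52534) (.g (nat_lit 4033) (.e (nat_lit 1360) (nat_lit 102) (.e (nat_lit 286733) (nat_lit 2) (.e (nat_lit 90170) (nat_lit 13) (.e (nat_lit 172106) (nat_lit 10) (.e (nat_lit 434231) (nat_lit 23) (.e (nat_lit 532490) (nat_lit 0) (.e (nat_lit 7936) (nat_lit 332) .nil))))))) (.g (nat_lit 6) .nil .nil))) 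
(.lf (nat_lit 52598) (.g (nat_lit 2733) (.e (nat_lit 1360) (nat_lit 102) (.e (nat_lit 286748) (nat_lit 9) (.e (nat_lit 336389) (nat_lit 27) (.e (nat_lit 426308) (nat_lit 12) (.e (nat_lit 475201) (nat_lit 40) .nil))))) .nil))))) (.nd (nat_lit 4) (.nd (nat_lit 5) (.nd (nat_lit 6) 
(.lf (nat_lit 52494) (.g (nat_lit 2336) (.e (nat_lit 1359) (nat_lit 102) (.e (nat_lit 286761) (nat_lit 13) (.e (nat_lit 393234) (nat_lit 17) (.e (nat_lit 7589) (nat_lit 406) .nil)))) .nil)) 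
(.lf (nat_lit 52558) (.g (nat_lit 2809) (.e (nat_lit 1360) (nat_lit 102) (.e (nat_lit 286734) (nat_lit 3) (.e (nat_lit 98370) (nat_lit 28) (.e (nat_lit 442427) (nat_lit 23) (.e (nat_lit 204821) (nat_lit 17) (.e (nat_lit 6092) (nat_lit 332) .nil)))))) (.g (nat_lit 4) .nil .nil)))) (.nd (nat_lit 6) 
(.lf (nat_lit 52526) (.g (nat_lit 4556) (.e (nat_lit 1360) (nat_lit 102) (.e (nat_lit 286733) (nat_lit 2) (.e (nat_lit 90170) (nat_lit 13) (.e (nat_lit 172106) (nat_lit 10) (.e (nat_lit 434231) (nat_lit 23) (.e (nat_lit 532481) (nat_lit 0) (.e (nat_lit 6079) (nat_lit 332) .nil))))))) (.g (nat_lit 5) .nil .nil))) 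
(.lf (nat_lit 52590) (.g (nat_lit 2498) (.e (nat_lit 1360) (nat_lit 102) (.e (nat_lit 286748) (nat_lit 9) (.e (nat_lit 336389) (nat_lit 27) (.e (nat_lit 426012) (nat_lit 0) (.e (nat_lit 7589) (nat_lit 406) (.e (nat_lit 65632) (nat_lit 15) (.e (nat_lit 6950) (nat_lit 377) .nil))))))) (.g (nat_lit 4) .nil .nil))))) (.nd (nat_lit 5) (.nd (nat_lit 6) 
(.lf (nat_lit 52510) (.g (nat_lit 3072) (.e (nat_lit 1359) (nat_lit 102) (.e (nat_lit 286761) (nat_lit 13) (.e (nat_lit 393301) (nat_lit 27) (.e (nat_lit 491563) (nat_lit 12) .nil)))) .nil)) 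
(.lf (nat_lit 52574) (.g (nat_lit 3285) (.e (nat_lit 1360) (nat_lit 102) (.e (nat_lit 286735) (nat_lit 3) (.e (nat_lit 98373) (nat_lit 29) (.e (nat_lit 450587) (nat_lit 10) (.e (nat_lit 573457) (nat_lit 9) .nil))))) .nil))) (.nd (nat_lit 6) 
(.lf (nat_lit 52542) (.g (nat_lit 3364) (.e (nat_lit 1360) (nat_lit 102) (.e (nat_lit 286733) (nat_lit 2) (.e (nat_lit 90176) (nat_lit 15) (.e (nat_lit 188450) (nat_lit 23) (.e (nat_lit 204819) (nat_lit 17) (.e (nat_lit 6109) (nat_lit 332) .nil)))))) (.g (nat_lit 4) .nil .nil))) 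
(.lf (nat_lit 52606) (.g (nat_lit 2520) (.e (nat_lit 1360) (nat_lit 102) (.e (nat_lit 286753) (nat_lit 10) (.e (nat_lit 344115) (nat_lit 20) (.e (nat_lit 507923) (nat_lit 6) (.e (nat_lit 286747) (nat_lit 9) (.e (nat_lit 336013) (nat_lit 2) (.e (nat_lit 98048) (nat_lit 18) .nil))))))) (.g (nat_lit 6) .nil .nil))))))))) 
(.nd (nat_lit 1) (.nd (nat_lit 2) (.nd (nat_lit 3) (.nd (nat_lit 4) (.nd (nat_lit 5) 
(.nd (nat_lit 6) 
(.lf (nat_lit 52481) (.g (nat_lit 2644) (.e (nat_lit 1359) (nat_lit 102) (.e (nat_lit 286759) (nat_lit 12) (.e (nat_lit 385074) (nat_lit 31) (.e (nat_lit 573491) (nat_lit 15) (.e (nat_lit 81960) (nat_lit 25) .nil))))) .nil)) 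
(.lf (nat_lit 52545) (.g (nat_lit 830) (.e (nat_lit 1360) (nat_lit 102) (.e (nat_lit 286733) (nat_lit 2) (.e (nat_lit 90177) (nat_lit 15) .nil))) .nil))) (.nd (nat_lit 6) 
(.lf (nat_lit 52513) (.g (nat_lit 2155) (.e (nat_lit 1359) (nat_lit 102) (.e (nat_lit 286762) (nat_lit 14) (.e (nat_lit 401458) (nat_lit 13) (.e (nat_lit 483396) (nat_lit 24) (.e (nat_lit 344161) (nat_lit 37) (.e (nat_lit 647203) (nat_lit 14) .nil)))))) (.g (nat_lit 4) .nil .nil))) 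
(.lf (nat_lit 52577) (.g (nat_lit 3674) (.e (nat_lit 1360) (nat_lit 102) (.e (nat_lit 286735) (nat_lit 3) (.e (nat_lit 98373) (nat_lit 29) (.e (nat_lit 450587) (nat_lit 10) (.e (nat_lit 573457) (nat_lit 9) (.e (nat_lit 11) (nat_lit 0) (.e (nat_lit 6953) (nat_lit 377) .nil))))))) (.g (nat_lit 4) .nil .nil))))) (.nd (nat_lit 5) (.nd (nat_lit 6) 
(.lf (nat_lit 52497) (.g (nat_lit 1080) (.e (nat_lit 1359) (nat_lit 102) (.e (nat_lit 286761) (nat_lit 13) (.e (nat_lit 393299) (nat_lit 27) .nil))) .nil)) 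
(.lf (nat_lit 52561) (.g (nat_lit 956) (.e (nat_lit 1360) (nat_lit 102) (.e (nat_lit 286734) (nat_lit 3) (.e (nat_lit 98381) (nat_lit 31) (.e (nat_lit 466976) (nat_lit 22) .nil)))) .nil))) (.nd (nat_lit 6) 
(.lf (nat_lit 52529) (.g (nat_lit 5172) (.e (nat_lit 1360) (nat_lit 102) (.e (nat_lit 286733) (nat_lit 2) (.e (nat_lit 90170) (nat_lit 13) (.e (nat_lit 172106) (nat_lit 10) (.e (nat_lit 434231) (nat_lit 23) (.e (nat_lit 532482) (nat_lit 0) (.e (nat_lit 6084) (nat_lit 332) .nil))))))) (.g (nat_lit 0) .nil .nil))) 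
(.lf (nat_lit 52593) (.g (nat_lit 3088) (.e (nat_lit 1360) (nat_lit 102) (.e (nat_lit 286748) (nat_lit 9) (.e (nat_lit 336389) (nat_lit 27) (.e (nat_lit 426187) (nat_lit 9) (.e (nat_lit 426444) (nat_lit 19) .nil))))) .nil))))) (.nd (nat_lit 4) (.nd (nat_lit 5) (.nd (nat_lit 6) 
(.lf (nat_lit 52489) (.g (nat_lit 2121) (.e (nat_lit 1359) (nat_lit 102) (.e (nat_lit 286760) (nat_lit 13) (.e (nat_lit 393301) (nat_lit 27) (.e (nat_lit 491563) (nat_lit 12) (.e (nat_lit 392960) (nat_lit 16) .nil))))) .nil)) 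
(.lf (nat_lit 52553) (.g (nat_lit 2375) (.e (nat_lit 1360) (nat_lit 102) (.e (nat_lit 286734) (nat_lit 3) (.e (nat_lit 98370) (nat_lit 28) (.e (nat_lit 442424) (nat_lit 22) (.e (nat_lit 196628) (nat_lit 9) .nil))))) .nil))) (.nd (nat_lit 6) 
(.lf (nat_lit 52521) (.g (nat_lit 1975) (.e (nat_lit 1360) (nat_lit 102) (.e (nat_lit 286733) (nat_lit 2) (.e (nat_lit 90170) (nat_lit 13) (.e (nat_lit 172095) (nat_lit 9) .nil)))) .nil)) 
(.lf (nat_lit 52585) (.g (nat_lit 6412) (.e (nat_lit 1360) (nat_lit 102) (.e (nat_lit 286735) (nat_lit 3) (.e (nat_lit 98373) (nat_lit 29) (.e (nat_lit 450588) (nat_lit 10) (.e (nat_lit 573452) (nat_lit 9) (.e (nat_lit 13) (nat_lit 0) (.e (nat_lit 6950) (nat_lit 377) .nil))))))) (.g (nat_lit 6) .nil .nil))))) (.nd (nat_lit 5) (.nd (nat_lit 6) 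
(.lf (nat_lit 52505) (.g (nat_lit 3913) (.e (nat_lit 1359) (nat_lit 102) (.e (nat_lit 286761) (nat_lit 13) (.e (nat_lit 393301) (nat_lit 27) (.e (nat_lit 491558) (nat_lit 10) .nil)))) .nil)) 
(.lf (nat_lit 52569) (.g (nat_lit 2594) (.e (nat_lit 1360) (nat_lit 102) (.e (nat_lit 286735) (nat_lit 3) (.e (nat_lit 98372) (nat_lit 29) (.e (nat_lit 450579) (nat_lit 5) (.e (nat_lit 532486) (nat_lit 0) (.e (nat_lit 6109) (nat_lit 332) .nil)))))) (.g (nat_lit 4) .nil .nil)))) (.nd (nat_lit 6) 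
(.lf (nat_lit 52537) (.g (nat_lit 3746) (.e (nat_lit 1360) (nat_lit 102) (.e (nat_lit 286733) (nat_lit 2) (.e (nat_lit 90170) (nat_lit 13) (.e (nat_lit 172113) (nat_lit 10) (.e (nat_lit 434231) (nat_lit 23) .nil))))) .nil)) 
(.lf (nat_lit 52601) (.g (nat_lit 3107) (.e (nat_lit 1360) (nat_lit 102) (.e (nat_lit 286748) (nat_lit 9) (.e (nat_lit 336389) (nat_lit 27) (.e (nat_lit 426308) (nat_lit 12) (.e (nat_lit 475201) (nat_lit 40) (.e (nat_lit 704841) (nat_lit 15) (.e (nat_lit 57793) (nat_lit 245) .nil))))))) (.g (nat_lit 4) .nil .nil))))))) (.nd (nat_lit 3) (.nd (nat_lit 4) (.nd (nat_lit 5) (.nd (nat_lit 6) 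
(.lf (nat_lit 52485) (.g (nat_lit 1723) (.e (nat_lit 1359) (nat_lit 102) (.e (nat_lit 286759) (nat_lit 12) (.e (nat_lit 385094) (nat_lit 49) (.e (nat_lit 778327) (nat_lit 6) (.e (nat_lit 81946) (nat_lit 20) (.e (nat_lit 1968) (nat_lit 135) (.e (nat_lit 647203) (nat_lit 14) .nil))))))) (.g (nat_lit 4) .nil .nil))) 
(.lf (nat_lit 52549) (.g (nat_lit 4252) (.e (nat_lit 1360) (nat_lit 102) (.e (nat_lit 286733) (nat_lit 2) (.e (nat_lit 90178) (nat_lit 15) (.e (nat_lit 188452) (nat_lit 23) (.e (nat_lit 204816) (nat_lit 17) .nil))))) .nil))) (.nd (nat_lit 6) 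
(.lf (nat_lit 52517) (.g (nat_lit 1926) (.e (nat_lit 1360) (nat_lit 102) (.e (nat_lit 286733) (nat_lit 2) (.e (nat_lit 90170) (nat_lit 13) (.e (nat_lit 172085) (nat_lit 9) .nil)))) .nil)) 
(.lf (nat_lit 52581) (.g (nat_lit 4932) (.e (nat_lit 1360) (nat_lit 102) (.e (nat_lit 286735) (nat_lit 3) (.e (nat_lit 98373) (nat_lit 29) (.e (nat_lit 450588) (nat_lit 10) (.e (nat_lit 573452) (nat_lit 9) .nil))))) .nil)))) (.nd (nat_lit 5) (.nd (nat_lit 6) 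
(.lf (nat_lit 52501) (.g (nat_lit 3604) (.e (nat_lit 1359) (nat_lit 102) (.e (nat_lit 286761) (nat_lit 13) (.e (nat_lit 393301) (nat_lit 27) (.e (nat_lit 491547) (nat_lit 9) .nil)))) .nil)) 
(.lf (nat_lit 52565) (.g (nat_lit 3663) (.e (nat_lit 1360) (nat_lit 102) (.e (nat_lit 286735) (nat_lit 3) (.e (nat_lit 98372) (nat_lit 29) (.e (nat_lit 450579) (nat_lit 5) (.e (nat_lit 532481) (nat_lit 0) (.e (nat_lit 6084) (nat_lit 332) .nil)))))) (.g (nat_lit 6) .nil .nil)))) (.nd (nat_lit 6) 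
(.lf (nat_lit 52533) (.g (nat_lit 5007) (.e (nat_lit 1360) (nat_lit 102) (.e (nat_lit 286733) (nat_lit 2) (.e (nat_lit 90170) (nat_lit 13) (.e (nat_lit 172106) (nat_lit 10) (.e (nat_lit 434231) (nat_lit 23) (.e (nat_lit 532490) (nat_lit 0) (.e (nat_lit 6092) (nat_lit 332) .nil))))))) (.g (nat_lit 0) .nil .nil))) 
(.lf (nat_lit 52597) (.g (nat_lit 2712) (.e (nat_lit 1360) (nat_lit 102) (.e (nat_lit 286748) (nat_lit 9) (.e (nat_lit 336389) (nat_lit 27) (.e (nat_lit 426308) (nat_lit 12) (.e (nat_lit 475200) (nat_lit 40) .nil))))) .nil))))) (.nd (nat_lit 4) (.nd (nat_lit 5) (.nd (nat_lit 6) 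
(.lf (nat_lit 52493) (.g (nat_lit 922) (.e (nat_lit 1359) (nat_lit 102) (.e (nat_lit 286761) (nat_lit 13) (.e (nat_lit 393234) (nat_lit 17) .nil))) .nil)) 
(.lf (nat_lit 52557) (.g (nat_lit 1141) (.e (nat_lit 1360) (nat_lit 102) (.e (nat_lit 286734) (nat_lit 3) (.e (nat_lit 98370) (nat_lit 28) (.e (nat_lit 442427) (nat_lit 23) .nil)))) .nil))) (.nd (nat_lit 6) 
(.lf (nat_lit 52525) (.g (nat_lit 2808) (.e (nat_lit 1360) (nat_lit 102) (.e (nat_lit 286733) (nat_lit 2) (.e (nat_lit 90170) (nat_lit 13) (.e (nat_lit 172106) (nat_lit 10) (.e (nat_lit 434231) (nat_lit 23) (.e (nat_lit 532480) (nat_lit 0) (.e (nat_lit 6110) (nat_lit 332) .nil))))))) (.g (nat_lit 4) .nil .nil))) 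
(.lf (nat_lit 52589) (.g (nat_lit 1864) (.e (nat_lit 1360) (nat_lit 102) (.e (nat_lit 286748) (nat_lit 9) (.e (nat_lit 336389) (nat_lit 27) (.e (nat_lit 426011) (nat_lit 0) .nil)))) .nil)))) (.nd (nat_lit 5) (.nd (nat_lit 6) 
(.lf (nat_lit 52509) (.g (nat_lit 3464) (.e (nat_lit 1359) (nat_lit 102) (.e (nat_lit 286761) (nat_lit 13) (.e (nat_lit 393301) (nat_lit 27) (.e (nat_lit 491562) (nat_lit 12) .nil)))) .nil)) 
(.lf (nat_lit 52573) (.g (nat_lit 3333) (.e (nat_lit 1360) (nat_lit 102) (.e (nat_lit 286735) (nat_lit 3) (.e (nat_lit 98373) (nat_lit 29) (.e (nat_lit 450587) (nat_lit 10) (.e (nat_lit 573456) (nat_lit 9) .nil))))) .nil))) (.nd (nat_lit 6) 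
(.lf (nat_lit 52541) (.g (nat_lit 3203) (.e (nat_lit 1360) (nat_lit 102) (.e (nat_lit 286733) (nat_lit 2) (.e (nat_lit 90176) (nat_lit 15) (.e (nat_lit 188450) (nat_lit 23) (.e (nat_lit 204816) (nat_lit 17) .nil))))) .nil)) 
(.lf (nat_lit 52605) (.g (nat_lit 1202) (.e (nat_lit 1360) (nat_lit 102) (.e (nat_lit 286752) (nat_lit 10) (.e (nat_lit 344177) (nat_lit 43) (.e (nat_lit 770057) (nat_lit 5) (.e (nat_lit 1575) (nat_lit 110) .nil))))) .nil))))))) (.nd (nat_lit 2) (.nd (nat_lit 3) (.nd (nat_lit 4) (.nd (nat_lit 5) (.nd (nat_lit 6) 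
(.lf (nat_lit 52483) (.g (nat_lit 332) (.e (nat_lit 1359) (nat_lit 102) (.e (nat_lit 286759) (nat_lit 12) (.e (nat_lit 385094) (nat_lit 49) .nil))) .nil)) 
(.lf (nat_lit 52547) (.g (nat_lit 4772) (.e (nat_lit 1360) (nat_lit 102) (.e (nat_lit 286733) (nat_lit 2) (.e (nat_lit 90177) (nat_lit 15) (.e (nat_lit 188452) (nat_lit 23) (.e (nat_lit 204816) (nat_lit 17) (.e (nat_lit 6084) (nat_lit 332) .nil)))))) (.g (nat_lit 6) .nil .nil)))) (.nd (nat_lit 6) 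
(.lf (nat_lit 52515) (.g (nat_lit 3171) (.e (nat_lit 1359) (nat_lit 102) (.e (nat_lit 286762) (nat_lit 14) (.e (nat_lit 401459) (nat_lit 13) (.e (nat_lit 483396) (nat_lit 24) (.e (nat_lit 344161) (nat_lit 37) .nil))))) .nil)) 
(.lf (nat_lit 52579) (.g (nat_lit 4527) (.e (nat_lit 1360) (nat_lit 102) (.e (nat_lit 286735) (nat_lit 3) (.e (nat_lit 98373) (nat_lit 29) (.e (nat_lit 450588) (nat_lit 10) (.e (nat_lit 573451) (nat_lit 9) .nil))))) .nil)))) (.nd (nat_lit 5) (.nd (nat_lit 6) 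
(.lf (nat_lit 52499) (.g (nat_lit 566) (.e (nat_lit 1359) (nat_lit 102) (.e (nat_lit 286761) (nat_lit 13) (.e (nat_lit 393301) (nat_lit 27) .nil))) .nil)) 
(.lf (nat_lit 52563) (.g (nat_lit 1889) (.e (nat_lit 1360) (nat_lit 102) (.e (nat_lit 286735) (nat_lit 3) (.e (nat_lit 98372) (nat_lit 29) (.e (nat_lit 450579) (nat_lit 5) (.e (nat_lit 532480) (nat_lit 0) (.e (nat_lit 6106) (nat_lit 332) .nil)))))) (.g (nat_lit 4) .nil .nil)))) (.nd (nat_lit 6) 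
(.lf (nat_lit 52531) (.g (nat_lit 2756) (.e (nat_lit 1360) (nat_lit 102) (.e (nat_lit 286733) (nat_lit 2) (.e (nat_lit 90170) (nat_lit 13) (.e (nat_lit 172106) (nat_lit 10) (.e (nat_lit 434231) (nat_lit 23) (.e (nat_lit 532486) (nat_lit 0) (.e (nat_lit 6110) (nat_lit 332) .nil))))))) (.g (nat_lit 4) .nil .nil))) 
(.lf (nat_lit 52595) (.g (nat_lit 1863) (.e (nat_lit 1360) (nat_lit 102) (.e (nat_lit 286748) (nat_lit 9) (.e (nat_lit 336389) (nat_lit 27) (.e (nat_lit 426190) (nat_lit 9) .nil)))) .nil))))) (.nd (nat_lit 4) (.nd (nat_lit 5) (.nd (nat_lit 6) 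
(.lf (nat_lit 52491) (.g (nat_lit 1097) (.e (nat_lit 1359) (nat_lit 102) (.e (nat_lit 286761) (nat_lit 13) (.e (nat_lit 393223) (nat_lit 0) .nil))) .nil)) 
(.lf (nat_lit 52555) (.g (nat_lit 3185) (.e (nat_lit 1360) (nat_lit 102) (.e (nat_lit 286734) (nat_lit 3) (.e (nat_lit 98370) (nat_lit 28) (.e (nat_lit 442424) (nat_lit 22) (.e (nat_lit 196628) (nat_lit 9) (.e (nat_lit 970) (nat_lit 81) (.e (nat_lit 6078) (nat_lit 332) .nil))))))) (.g (nat_lit 4) .nil .nil)))) (.nd (nat_lit 6) 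
(.lf (nat_lit 52523) (.g (nat_lit 2785) (.e (nat_lit 1360) (nat_lit 102) (.e (nat_lit 286733) (nat_lit 2) (.e (nat_lit 90170) (nat_lit 13) (.e (nat_lit 172097) (nat_lit 9) .nil)))) .nil)) 
(.lf (nat_lit 52587) (.g (nat_lit 604) (.e (nat_lit 1360) (nat_lit 102) (.e (nat_lit 286735) (nat_lit 3) (.e (nat_lit 98381) (nat_lit 31) .nil))) .nil)))) (.nd (nat_lit 5) (.nd (nat_lit 6) 
(.lf (nat_lit 52507) (.g (nat_lit 3485) (.e (nat_lit 1359) (nat_lit 102) (.e (nat_lit 286761) (nat_lit 13) (.e (nat_lit 393301) (nat_lit 27) (.e (nat_lit 491560) (nat_lit 10) .nil)))) .nil)) 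
(.lf (nat_lit 52571) (.g (nat_lit 2299) (.e (nat_lit 1360) (nat_lit 102) (.e (nat_lit 286735) (nat_lit 3) (.e (nat_lit 98372) (nat_lit 29) (.e (nat_lit 450579) (nat_lit 5) (.e (nat_lit 532489) (nat_lit 0) (.e (nat_lit 7936) (nat_lit 332) .nil)))))) (.g (nat_lit 5) .nil .nil)))) (.nd (nat_lit 6) 
(.lf (nat_lit 52539) (.g (nat_lit 2539) (.e (nat_lit 1360) (nat_lit 102) (.e (nat_lit 286733) (nat_lit 2) (.e (nat_lit 90176) (nat_lit 15) (.e (nat_lit 188449) (nat_lit 22) .nil)))) .nil)) 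
(.lf (nat_lit 52603) (.g (nat_lit 3962) (.e (nat_lit 1360) (nat_lit 102) (.e (nat_lit 286752) (nat_lit 10) (.e (nat_lit 344126) (nat_lit 25) (.e (nat_lit 548889) (nat_lit 9) (.e (nat_lit 65598) (nat_lit 9) (.e (nat_lit 336013) (nat_lit 2) (.e (nat_lit 98048) (nat_lit 18) .nil))))))) (.g (nat_lit 6) .nil .nil))))))) (.nd (nat_lit 3) (.nd (nat_lit 4) (.nd (nat_lit 5) (.nd (nat_lit 6) 
(.lf (nat_lit 52487) (.g (nat_lit 2624) (.e (nat_lit 1359) (nat_lit 102) (.e (nat_lit 286759) (nat_lit 12) (.e (nat_lit 385105) (nat_lit 50) (.e (nat_lit 786483) (nat_lit 30) (.e (nat_lit 360484) (nat_lit 15) (.e (nat_lit 647203) (nat_lit 14) .nil)))))) (.g (nat_lit 5) .nil .nil))) 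
(.lf (nat_lit 52551) (.g (nat_lit 2809) (.e (nat_lit 1360) (nat_lit 102) (.e (nat_lit 286734) (nat_lit 3) (.e (nat_lit 98359) (nat_lit 26) (.e (nat_lit 426211) (nat_lit 9) (.e (nat_lit 426125) (nat_lit 2) (.e (nat_lit 204544) (nat_lit 21) (.e (nat_lit 164261) (nat_lit 221) .nil))))))) (.g (nat_lit 4) .nil .nil)))) (.nd (nat_lit 6) 
(.lf (nat_lit 52519) (.g (nat_lit 3190) (.e (nat_lit 1360) (nat_lit 102) (.e (nat_lit 286733) (nat_lit 2) (.e (nat_lit 90170) (nat_lit 13) (.e (nat_lit 172091) (nat_lit 9) .nil)))) .nil)) 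
(.lf (nat_lit 52583) (.g (nat_lit 6277) (.e (nat_lit 1360) (nat_lit 102) (.e (nat_lit 286735) (nat_lit 3) (.e (nat_lit 98373) (nat_lit 29) (.e (nat_lit 450588) (nat_lit 10) (.e (nat_lit 573452) (nat_lit 9) (.e (nat_lit 11) (nat_lit 0) (.e (nat_lit 6952) (nat_lit 377) .nil))))))) (.g (nat_lit 5) .nil .nil))))) (.nd (nat_lit 5) (.nd (nat_lit 6) 
(.lf (nat_lit 52503) (.g (nat_lit 3747) (.e (nat_lit 1359) (nat_lit 102) (.e (nat_lit 286761) (nat_lit 13) (.e (nat_lit 393301) (nat_lit 27) (.e (nat_lit 491556) (nat_lit 9) .nil)))) .nil)) 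
(.lf (nat_lit 52567) (.g (nat_lit 3339) (.e (nat_lit 1360) (nat_lit 102) (.e (nat_lit 286735) (nat_lit 3) (.e (nat_lit 98372) (nat_lit 29) (.e (nat_lit 450579) (nat_lit 5) (.e (nat_lit 532482) (nat_lit 0) (.e (nat_lit 6084) (nat_lit 332) .nil)))))) (.g (nat_lit 6) .nil .nil)))) (.nd (nat_lit 6) 
(.lf (nat_lit 52535) (.g (nat_lit 2971) (.e (nat_lit 1360) (nat_lit 102) (.e (nat_lit 286733) (nat_lit 2) (.e (nat_lit 90170) (nat_lit 13) (.e (nat_lit 172106) (nat_lit 10) (.e (nat_lit 434244) (nat_lit 28) (.e (nat_lit 573451) (nat_lit 9) (.e (nat_lit 13) (nat_lit 0) (.e (nat_lit 6953) (nat_lit 377) .nil)))))))) (.g (nat_lit 4) .nil .nil))) 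
(.lf (nat_lit 52599) (.g (nat_lit 2847) (.e (nat_lit 1360) (nat_lit 102) (.e (nat_lit 286748) (nat_lit 9) (.e (nat_lit 336389) (nat_lit 27) (.e (nat_lit 426308) (nat_lit 12) (.e (nat_lit 475201) (nat_lit 40) (.e (nat_lit 704839) (nat_lit 15) (.e (nat_lit 57793) (nat_lit 245) .nil))))))) (.g (nat_lit 4) .nil .nil)))))) (.nd (nat_lit 4) (.nd (nat_lit 5) (.nd (nat_lit 6) 
(.lf (nat_lit 52495) (.g (nat_lit 1031) (.e (nat_lit 1359) (nat_lit 102) (.e (nat_lit 286761) (nat_lit 13) (.e (nat_lit 393265) (nat_lit 22) .nil))) .nil)) 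
(.lf (nat_lit 52559) (.g (nat_lit 363) (.e (nat_lit 1360) (nat_lit 102) (.e (nat_lit 286734) (nat_lit 3) (.e (nat_lit 98372) (nat_lit 29) .nil))) .nil))) (.nd (nat_lit 6) 
(.lf (nat_lit 52527) (.g (nat_lit 5841) (.e (nat_lit 1360) (nat_lit 102) (.e (nat_lit 286733) (nat_lit 2) (.e (nat_lit 90170) (nat_lit 13) (.e (nat_lit 172106) (nat_lit 10) (.e (nat_lit 434231) (nat_lit 23) (.e (nat_lit 532481) (nat_lit 0) (.e (nat_lit 6084) (nat_lit 332) .nil))))))) (.g (nat_lit 6) .nil .nil))) 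
(.lf (nat_lit 52591) (.g (nat_lit 2559) (.e (nat_lit 1360) (nat_lit 102) (.e (nat_lit 286748) (nat_lit 9) (.e (nat_lit 336389) (nat_lit 27) (.e (nat_lit 426012) (nat_lit 0) (.e (nat_lit 7589) (nat_lit 406) (.e (nat_lit 65632) (nat_lit 15) (.e (nat_lit 6952) (nat_lit 377) .nil))))))) (.g (nat_lit 5) .nil .nil))))) (.nd (nat_lit 5) (.nd (nat_lit 6) 
(.lf (nat_lit 52511) (.g (nat_lit 512) (.e (nat_lit 1359) (nat_lit 102) (.e (nat_lit 286762) (nat_lit 14) (.e (nat_lit 401457) (nat_lit 13) .nil))) .nil)) 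
(.lf (nat_lit 52575) (.g (nat_lit 3557) (.e (nat_lit 1360) (nat_lit 102) (.e (nat_lit 286735) (nat_lit 3) (.e (nat_lit 98373) (nat_lit 29) (.e (nat_lit 450587) (nat_lit 10) (.e (nat_lit 573457) (nat_lit 9) (.e (nat_lit 11) (nat_lit 0) (.e (nat_lit 6950) (nat_lit 377) .nil))))))) (.g (nat_lit 4) .nil .nil)))) (.nd (nat_lit 6) 
(.lf (nat_lit 52543) (.g (nat_lit 2197) (.e (nat_lit 1360) (nat_lit 102) (.e (nat_lit 286733) (nat_lit 2) (.e (nat_lit 90176) (nat_lit 15) (.e (nat_lit 188452) (nat_lit 23) .nil)))) .nil)) 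
(.lf (nat_lit 52607) (.g (nat_lit 2598) (.e (nat_lit 1360) (nat_lit 102) (.e (nat_lit 286753) (nat_lit 10) (.e (nat_lit 344117) (nat_lit 21) (.e (nat_lit 516185) (nat_lit 16) (.e (nat_lit 491546) (nat_lit 9) (.e (nat_lit 336013) (nat_lit 2) (.e (nat_lit 98048) (nat_lit 18) .nil))))))) (.g (nat_lit 4) .nil .nil))))))))))

noncomputable def tv729 : DT := (.nd (nat_lit 0) (.nd (nat_lit 1) (.nd (nat_lit 2) (.nd (nat_lit 3) (.nd (nat_lit 4) (.nd (nat_lit 5) 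
(.lf (nat_lit 52608) (.g (nat_lit 1956) (.e (nat_lit 1360) (nat_lit 102) (.e (nat_lit 286753) (nat_lit 10) (.e (nat_lit 344117) (nat_lit 21) (.e (nat_lit 516195) (nat_lit 26) (.e (nat_lit 335995) (nat_lit 1) .nil))))) .nil)) 
(.lf (nat_lit 52640) (.g (nat_lit 1664) (.e (nat_lit 1360) (nat_lit 102) (.e (nat_lit 286754) (nat_lit 10) (.e (nat_lit 344174) (nat_lit 42) (.e (nat_lit 761869) (nat_lit 5) (.e (nat_lit 1574) (nat_lit 110) (.e (nat_lit 352257) (nat_lit 0) (.e (nat_lit 6950) (nat_lit 377) .nil))))))) (.g (nat_lit 4) .nil .nil)))) (.nd (nat_lit 5) 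
(.lf (nat_lit 52624) (.g (nat_lit 1856) (.e (nat_lit 1360) (nat_lit 102) (.e (nat_lit 286753) (nat_lit 10) (.e (nat_lit 344174) (nat_lit 42) (.e (nat_lit 761868) (nat_lit 5) (.e (nat_lit 1558) (nat_lit 110) (.e (nat_lit 352257) (nat_lit 0) (.e (nat_lit 6953) (nat_lit 377) .nil))))))) (.g (nat_lit 5) .nil .nil))) 
(.lf (nat_lit 52656) (.g (nat_lit 2129) (.e (nat_lit 1360) (nat_lit 102) (.e (nat_lit 286761) (nat_lit 13) (.e (nat_lit 393233) (nat_lit 17) (.e (nat_lit 7589) (nat_lit 406) (.e (nat_lit 65632) (nat_lit 15) (.e (nat_lit 6953) (nat_lit 377) .nil)))))) (.g (nat_lit 4) .nil .nil))))) (.nd (nat_lit 4) (.nd (nat_lit 5) 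
(.lf (nat_lit 52616) (.g (nat_lit 1565) (.e (nat_lit 1360) (nat_lit 102) (.e (nat_lit 286753) (nat_lit 10) (.e (nat_lit 344157) (nat_lit 36) (.e (nat_lit 638997) (nat_lit 8) (.e (nat_lit 172037) (nat_lit 0) (.e (nat_lit 7107) (nat_lit 380) (.e (nat_lit 164261) (nat_lit 221) .nil))))))) (.g (nat_lit 4) .nil .nil))) 
(.lf (nat_lit 52648) (.g (nat_lit 1917) (.e (nat_lit 1360) (nat_lit 102) (.e (nat_lit 286760) (nat_lit 13) (.e (nat_lit 393293) (nat_lit 26) (.e (nat_lit 475201) (nat_lit 40) (.e (nat_lit 704839) (nat_lit 15) (.e (nat_lit 57794) (nat_lit 245) .nil)))))) (.g (nat_lit 4) .nil .nil)))) (.nd (nat_lit 5) 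
(.lf (nat_lit 52632) (.g (nat_lit 2113) (.e (nat_lit 1360) (nat_lit 102) (.e (nat_lit 286753) (nat_lit 10) (.e (nat_lit 344177) (nat_lit 43) (.e (nat_lit 770056) (nat_lit 5) (.e (nat_lit 1575) (nat_lit 110) (.e (nat_lit 352257) (nat_lit 0) (.e (nat_lit 6952) (nat_lit 377) .nil))))))) (.g (nat_lit 5) .nil .nil))) 
(.lf (nat_lit 52664) (.g (nat_lit 2015) (.e (nat_lit 1360) (nat_lit 102) (.e (nat_lit 286761) (nat_lit 13) (.e (nat_lit 393291) (nat_lit 26) (.e (nat_lit 475219) (nat_lit 44) (.e (nat_lit 737286) (nat_lit 0) .nil))))) .nil))))) (.nd (nat_lit 3) (.nd (nat_lit 4) (.nd (nat_lit 5) 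
(.lf (nat_lit 52612) (.g (nat_lit 2237) (.e (nat_lit 1360) (nat_lit 102) (.e (nat_lit 286753) (nat_lit 10) (.e (nat_lit 344156) (nat_lit 36) (.e (nat_lit 638998) (nat_lit 8) (.e (nat_lit 172037) (nat_lit 0) (.e (nat_lit 7107) (nat_lit 380) (.e (nat_lit 164261) (nat_lit 221) .nil))))))) (.g (nat_lit 4) .nil .nil))) 
(.lf (nat_lit 52644) (.g (nat_lit 3479) (.e (nat_lit 1360) (nat_lit 102) (.e (nat_lit 286756) (nat_lit 10) (.e (nat_lit 344126) (nat_lit 25) (.e (nat_lit 548889) (nat_lit 9) (.e (nat_lit 65598) (nat_lit 9) (.e (nat_lit 336013) (nat_lit 2) (.e (nat_lit 98048) (nat_lit 18) .nil))))))) (.g (nat_lit 5) .nil .nil)))) (.nd (nat_lit 5) 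
(.lf (nat_lit 52628) (.g (nat_lit 1241) (.e (nat_lit 1360) (nat_lit 102) (.e (nat_lit 286753) (nat_lit 10) (.e (nat_lit 344177) (nat_lit 43) (.e (nat_lit 770055) (nat_lit 5) (.e (nat_lit 1562) (nat_lit 110) .nil))))) .nil)) 
(.lf (nat_lit 52660) (.g (nat_lit 803) (.e (nat_lit 1360) (nat_lit 102) (.e (nat_lit 286761) (nat_lit 13) (.e (nat_lit 393267) (nat_lit 23) .nil))) .nil)))) (.nd (nat_lit 4) (.nd (nat_lit 5) 
(.lf (nat_lit 52620) (.g (nat_lit 2313) (.e (nat_lit 1360) (nat_lit 102) (.e (nat_lit 286753) (nat_lit 10) (.e (nat_lit 344174) (nat_lit 42) (.e (nat_lit 761866) (nat_lit 5) (.e (nat_lit 1574) (nat_lit 110) (.e (nat_lit 352257) (nat_lit 0) (.e (nat_lit 6952) (nat_lit 377) .nil))))))) (.g (nat_lit 6) .nil .nil))) 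
(.lf (nat_lit 52652) (.g (nat_lit 1558) (.e (nat_lit 1360) (nat_lit 102) (.e (nat_lit 286760) (nat_lit 13) (.e (nat_lit 393301) (nat_lit 27) (.e (nat_lit 491552) (nat_lit 9) .nil)))) .nil))) (.nd (nat_lit 5) 
(.lf (nat_lit 52636) (.g (nat_lit 2094) (.e (nat_lit 1360) (nat_lit 102) (.e (nat_lit 286753) (nat_lit 10) (.e (nat_lit 344177) (nat_lit 43) (.e (nat_lit 770058) (nat_lit 5) (.e (nat_lit 1575) (nat_lit 110) (.e (nat_lit 352257) (nat_lit 0) (.e (nat_lit 6952) (nat_lit 377) .nil))))))) (.g (nat_lit 5) .nil .nil))) 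
(.lf (nat_lit 52668) (.g (nat_lit 821) (.e (nat_lit 1360) (nat_lit 102) (.e (nat_lit 286761) (nat_lit 13) (.e (nat_lit 393293) (nat_lit 26) (.e (nat_lit 475218) (nat_lit 44) .nil)))) .nil)))))) (.nd (nat_lit 2) (.nd (nat_lit 3) (.nd (nat_lit 4) (.nd (nat_lit 5) 
(.lf (nat_lit 52610) (.g (nat_lit 4150) (.e (nat_lit 1360) (nat_lit 102) (.e (nat_lit 286753) (nat_lit 10) (.e (nat_lit 344126) (nat_lit 25) (.e (nat_lit 548889) (nat_lit 9) (.e (nat_lit 65598) (nat_lit 9) (.e (nat_lit 336013) (nat_lit 2) (.e (nat_lit 98048) (nat_lit 18) .nil))))))) (.g (nat_lit 6) .nil .nil))) 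
(.lf (nat_lit 52642) (.g (nat_lit 1435) (.e (nat_lit 1360) (nat_lit 102) (.e (nat_lit 286754) (nat_lit 10) (.e (nat_lit 344174) (nat_lit 42) (.e (nat_lit 761869) (nat_lit 5) (.e (nat_lit 1574) (nat_lit 110) (.e (nat_lit 352257) (nat_lit 0) (.e (nat_lit 6953) (nat_lit 377) .nil))))))) (.g (nat_lit 4) .nil .nil)))) (.nd (nat_lit 5) 
(.lf (nat_lit 52626) (.g (nat_lit 2025) (.e (nat_lit 1360) (nat_lit 102) (.e (nat_lit 286753) (nat_lit 10) (.e (nat_lit 344174) (nat_lit 42) (.e (nat_lit 761869) (nat_lit 5) (.e (nat_lit 1558) (nat_lit 110) (.e (nat_lit 352257) (nat_lit 0) (.e (nat_lit 6952) (nat_lit 377) .nil))))))) (.g (nat_lit 5) .nil .nil))) 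
(.lf (nat_lit 52658) (.g (nat_lit 3119) (.e (nat_lit 1360) (nat_lit 102) (.e (nat_lit 286761) (nat_lit 13) (.e (nat_lit 393234) (nat_lit 17) (.e (nat_lit 7587) (nat_lit 406) (.e (nat_lit 65632) (nat_lit 15) (.e (nat_lit 6953) (nat_lit 377) .nil)))))) (.g (nat_lit 6) .nil .nil))))) (.nd (nat_lit 4) (.nd (nat_lit 5) 
(.lf (nat_lit 52618) (.g (nat_lit 2606) (.e (nat_lit 1360) (nat_lit 102) (.e (nat_lit 286753) (nat_lit 10) (.e (nat_lit 344157) (nat_lit 36) (.e (nat_lit 638999) (nat_lit 8) (.e (nat_lit 172079) (nat_lit 7) (.e (nat_lit 409618) (nat_lit 10) (.e (nat_lit 4854) (nat_lit 287) .nil))))))) (.g (nat_lit 6) .nil .nil))) 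
(.lf (nat_lit 52650) (.g (nat_lit 1017) (.e (nat_lit 1360) (nat_lit 102) (.e (nat_lit 286760) (nat_lit 13) (.e (nat_lit 393293) (nat_lit 26) (.e (nat_lit 483072) (nat_lit 40) .nil)))) .nil))) (.nd (nat_lit 5) 
(.lf (nat_lit 52634) (.g (nat_lit 1582) (.e (nat_lit 1360) (nat_lit 102) (.e (nat_lit 286753) (nat_lit 10) (.e (nat_lit 344177) (nat_lit 43) (.e (nat_lit 770057) (nat_lit 5) (.e (nat_lit 1562) (nat_lit 110) (.e (nat_lit 352257) (nat_lit 0) (.e (nat_lit 6953) (nat_lit 377) .nil))))))) (.g (nat_lit 4) .nil .nil))) 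
(.lf (nat_lit 52666) (.g (nat_lit 2306) (.e (nat_lit 1360) (nat_lit 102) (.e (nat_lit 286761) (nat_lit 13) (.e (nat_lit 393293) (nat_lit 26) (.e (nat_lit 475200) (nat_lit 40) (.e (nat_lit 704841) (nat_lit 15) (.e (nat_lit 57793) (nat_lit 245) .nil)))))) (.g (nat_lit 6) .nil .nil)))))) (.nd (nat_lit 3) (.nd (nat_lit 4) (.nd (nat_lit 5) 
(.lf (nat_lit 52614) (.g (nat_lit 2484) (.e (nat_lit 1360) (nat_lit 102) (.e (nat_lit 286753) (nat_lit 10) (.e (nat_lit 344156) (nat_lit 36) (.e (nat_lit 638998) (nat_lit 8) (.e (nat_lit 172039) (nat_lit 0) (.e (nat_lit 7107) (nat_lit 380) (.e (nat_lit 164261) (nat_lit 221) .nil))))))) (.g (nat_lit 5) .nil .nil))) 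
(.lf (nat_lit 52646) (.g (nat_lit 1098) (.e (nat_lit 1360) (nat_lit 102) (.e (nat_lit 286760) (nat_lit 13) (.e (nat_lit 393291) (nat_lit 26) (.e (nat_lit 475201) (nat_lit 40) .nil)))) .nil))) (.nd (nat_lit 5) 
(.lf (nat_lit 52630) (.g (nat_lit 2004) (.e (nat_lit 1360) (nat_lit 102) (.e (nat_lit 286753) (nat_lit 10) (.e (nat_lit 344177) (nat_lit 43) (.e (nat_lit 770055) (nat_lit 5) (.e (nat_lit 1575) (nat_lit 110) (.e (nat_lit 352257) (nat_lit 0) (.e (nat_lit 6952) (nat_lit 377) .nil))))))) (.g (nat_lit 4) .nil .nil))) 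
(.lf (nat_lit 52662) (.g (nat_lit 810) (.e (nat_lit 1360) (nat_lit 102) (.e (nat_lit 286761) (nat_lit 13) (.e (nat_lit 393273) (nat_lit 23) .nil))) .nil)))) (.nd (nat_lit 4) (.nd (nat_lit 5) 
(.lf (nat_lit 52622) (.g (nat_lit 1927) (.e (nat_lit 1360) (nat_lit 102) (.e (nat_lit 286753) (nat_lit 10) (.e (nat_lit 344174) (nat_lit 42) (.e (nat_lit 761868) (nat_lit 5) (.e (nat_lit 1558) (nat_lit 110) (.e (nat_lit 352257) (nat_lit 0) (.e (nat_lit 6950) (nat_lit 377) .nil))))))) (.g (nat_lit 5) .nil .nil))) 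
(.lf (nat_lit 52654) (.g (nat_lit 2255) (.e (nat_lit 1360) (nat_lit 102) (.e (nat_lit 286761) (nat_lit 13) (.e (nat_lit 393233) (nat_lit 17) (.e (nat_lit 7589) (nat_lit 406) (.e (nat_lit 65632) (nat_lit 15) (.e (nat_lit 6950) (nat_lit 377) .nil)))))) (.g (nat_lit 4) .nil .nil)))) (.nd (nat_lit 5) 
(.lf (nat_lit 52638) (.g (nat_lit 1612) (.e (nat_lit 1360) (nat_lit 102) (.e (nat_lit 286754) (nat_lit 10) (.e (nat_lit 344174) (nat_lit 42) (.e (nat_lit 761866) (nat_lit 5) (.e (nat_lit 1574) (nat_lit 110) (.e (nat_lit 352257) (nat_lit 0) (.e (nat_lit 6950) (nat_lit 377) .nil))))))) (.g (nat_lit 4) .nil .nil))) 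
(.lf (nat_lit 52670) (.g (nat_lit 1922) (.e (nat_lit 1360) (nat_lit 102) (.e (nat_lit 286761) (nat_lit 13) (.e (nat_lit 393298) (nat_lit 27) (.e (nat_lit 491552) (nat_lit 9) .nil)))) .nil))))))) (.nd (nat_lit 1) (.nd (nat_lit 2) (.nd (nat_lit 3) (.nd (nat_lit 4) (.nd (nat_lit 5) 
(.lf (nat_lit 52609) (.g (nat_lit 1733) (.e (nat_lit 1360) (nat_lit 102) (.e (nat_lit 286753) (nat_lit 10) (.e (nat_lit 344123) (nat_lit 24) (.e (nat_lit 540724) (nat_lit 28) (.e (nat_lit 442434) (nat_lit 26) (.e (nat_lit 261888) (nat_lit 14) .nil)))))) (.g (nat_lit 5) .nil .nil))) 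
(.lf (nat_lit 52641) (.g (nat_lit 1653) (.e (nat_lit 1360) (nat_lit 102) (.e (nat_lit 286754) (nat_lit 10) (.e (nat_lit 344174) (nat_lit 42) (.e (nat_lit 761869) (nat_lit 5) (.e (nat_lit 1574) (nat_lit 110) (.e (nat_lit 352257) (nat_lit 0) (.e (nat_lit 6952) (nat_lit 377) .nil))))))) (.g (nat_lit 4) .nil .nil)))) (.nd (nat_lit 5) 
(.lf (nat_lit 52625) (.g (nat_lit 2045) (.e (nat_lit 1360) (nat_lit 102) (.e (nat_lit 286753) (nat_lit 10) (.e (nat_lit 344174) (nat_lit 42) (.e (nat_lit 761868) (nat_lit 5) (.e (nat_lit 1574) (nat_lit 110) (.e (nat_lit 352257) (nat_lit 0) (.e (nat_lit 6952) (nat_lit 377) .nil))))))) (.g (nat_lit 6) .nil .nil))) 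
(.lf (nat_lit 52657) (.g (nat_lit 3102) (.e (nat_lit 1360) (nat_lit 102) (.e (nat_lit 286761) (nat_lit 13) (.e (nat_lit 393234) (nat_lit 17) (.e (nat_lit 7587) (nat_lit 406) (.e (nat_lit 65632) (nat_lit 15) (.e (nat_lit 6952) (nat_lit 377) .nil)))))) (.g (nat_lit 6) .nil .nil))))) (.nd (nat_lit 4) (.nd (nat_lit 5) 
(.lf (nat_lit 52617) (.g (nat_lit 2265) (.e (nat_lit 1360) (nat_lit 102) (.e (nat_lit 286753) (nat_lit 10) (.e (nat_lit 344157) (nat_lit 36) (.e (nat_lit 638999) (nat_lit 8) (.e (nat_lit 172038) (nat_lit 0) (.e (nat_lit 7107) (nat_lit 380) (.e (nat_lit 164261) (nat_lit 221) .nil))))))) (.g (nat_lit 6) .nil .nil))) 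
(.lf (nat_lit 52649) (.g (nat_lit 2400) (.e (nat_lit 1360) (nat_lit 102) (.e (nat_lit 286760) (nat_lit 13) (.e (nat_lit 393293) (nat_lit 26) (.e (nat_lit 475201) (nat_lit 40) (.e (nat_lit 704841) (nat_lit 15) (.e (nat_lit 57793) (nat_lit 245) .nil)))))) (.g (nat_lit 5) .nil .nil)))) (.nd (nat_lit 5) 
(.lf (nat_lit 52633) (.g (nat_lit 1662) (.e (nat_lit 1360) (nat_lit 102) (.e (nat_lit 286753) (nat_lit 10) (.e (nat_lit 344177) (nat_lit 43) (.e (nat_lit 770057) (nat_lit 5) (.e (nat_lit 1562) (nat_lit 110) (.e (nat_lit 352257) (nat_lit 0) (.e (nat_lit 6950) (nat_lit 377) .nil))))))) (.g (nat_lit 4) .nil .nil))) 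
(.lf (nat_lit 52665) (.g (nat_lit 504) (.e (nat_lit 1360) (nat_lit 102) (.e (nat_lit 286761) (nat_lit 13) (.e (nat_lit 393293) (nat_lit 26) .nil))) .nil))))) (.nd (nat_lit 3) (.nd (nat_lit 4) (.nd (nat_lit 5) 
(.lf (nat_lit 52613) (.g (nat_lit 2998) (.e (nat_lit 1360) (nat_lit 102) (.e (nat_lit 286753) (nat_lit 10) (.e (nat_lit 344156) (nat_lit 36) (.e (nat_lit 638998) (nat_lit 8) (.e (nat_lit 172038) (nat_lit 0) (.e (nat_lit 7107) (nat_lit 380) (.e (nat_lit 164261) (nat_lit 221) .nil))))))) (.g (nat_lit 6) .nil .nil))) 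
(.lf (nat_lit 52645) (.g (nat_lit 476) (.e (nat_lit 1360) (nat_lit 102) (.e (nat_lit 286756) (nat_lit 10) (.e (nat_lit 344174) (nat_lit 42) .nil))) .nil))) (.nd (nat_lit 5) 
(.lf (nat_lit 52629) (.g (nat_lit 2092) (.e (nat_lit 1360) (nat_lit 102) (.e (nat_lit 286753) (nat_lit 10) (.e (nat_lit 344177) (nat_lit 43) (.e (nat_lit 770055) (nat_lit 5) (.e (nat_lit 1575) (nat_lit 110) (.e (nat_lit 352257) (nat_lit 0) (.e (nat_lit 6950) (nat_lit 377) .nil))))))) (.g (nat_lit 4) .nil .nil))) 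
(.lf (nat_lit 52661) (.g (nat_lit 2012) (.e (nat_lit 1360) (nat_lit 102) (.e (nat_lit 286761) (nat_lit 13) (.e (nat_lit 393270) (nat_lit 23) (.e (nat_lit 426442) (nat_lit 19) (.e (nat_lit 106556) (nat_lit 15) (.e (nat_lit 57794) (nat_lit 245) .nil)))))) (.g (nat_lit 5) .nil .nil))))) (.nd (nat_lit 4) (.nd (nat_lit 5) 
(.lf (nat_lit 52621) (.g (nat_lit 2113) (.e (nat_lit 1360) (nat_lit 102) (.e (nat_lit 286753) (nat_lit 10) (.e (nat_lit 344174) (nat_lit 42) (.e (nat_lit 761867) (nat_lit 5) (.e (nat_lit 1574) (nat_lit 110) (.e (nat_lit 352257) (nat_lit 0) (.e (nat_lit 6952) (nat_lit 377) .nil))))))) (.g (nat_lit 6) .nil .nil))) 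
(.lf (nat_lit 52653) (.g (nat_lit 1981) (.e (nat_lit 1360) (nat_lit 102) (.e (nat_lit 286761) (nat_lit 13) (.e (nat_lit 393233) (nat_lit 17) (.e (nat_lit 7587) (nat_lit 406) (.e (nat_lit 65632) (nat_lit 15) .nil))))) .nil))) (.nd (nat_lit 5) 
(.lf (nat_lit 52637) (.g (nat_lit 2088) (.e (nat_lit 1360) (nat_lit 102) (.e (nat_lit 286753) (nat_lit 10) (.e (nat_lit 344177) (nat_lit 43) (.e (nat_lit 770058) (nat_lit 5) (.e (nat_lit 1575) (nat_lit 110) (.e (nat_lit 352257) (nat_lit 0) (.e (nat_lit 6953) (nat_lit 377) .nil))))))) (.g (nat_lit 5) .nil .nil))) 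
(.lf (nat_lit 52669) (.g (nat_lit 749) (.e (nat_lit 1360) (nat_lit 102) (.e (nat_lit 286761) (nat_lit 13) (.e (nat_lit 393298) (nat_lit 27) .nil))) .nil)))))) (.nd (nat_lit 2) (.nd (nat_lit 3) (.nd (nat_lit 4) (.nd (nat_lit 5) 
(.lf (nat_lit 52611) (.g (nat_lit 2022) (.e (nat_lit 1360) (nat_lit 102) (.e (nat_lit 286753) (nat_lit 10) (.e (nat_lit 344156) (nat_lit 36) (.e (nat_lit 638998) (nat_lit 8) (.e (nat_lit 172033) (nat_lit 0) (.e (nat_lit 7107) (nat_lit 380) (.e (nat_lit 164261) (nat_lit 221) .nil))))))) (.g (nat_lit 4) .nil .nil))) 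
(.lf (nat_lit 52643) (.g (nat_lit 1940) (.e (nat_lit 1360) (nat_lit 102) (.e (nat_lit 286756) (nat_lit 10) (.e (nat_lit 344115) (nat_lit 20) (.e (nat_lit 507923) (nat_lit 6) (.e (nat_lit 286747) (nat_lit 9) (.e (nat_lit 336013) (nat_lit 2) (.e (nat_lit 98048) (nat_lit 18) .nil))))))) (.g (nat_lit 4) .nil .nil)))) (.nd (nat_lit 5) 
(.lf (nat_lit 52627) (.g (nat_lit 2041) (.e (nat_lit 1360) (nat_lit 102) (.e (nat_lit 286753) (nat_lit 10) (.e (nat_lit 344174) (nat_lit 42) (.e (nat_lit 761869) (nat_lit 5) (.e (nat_lit 1558) (nat_lit 110) (.e (nat_lit 352257) (nat_lit 0) (.e (nat_lit 6953) (nat_lit 377) .nil))))))) (.g (nat_lit 6) .nil .nil))) 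
(.lf (nat_lit 52659) (.g (nat_lit 2185) (.e (nat_lit 1360) (nat_lit 102) (.e (nat_lit 286761) (nat_lit 13) (.e (nat_lit 393234) (nat_lit 17) (.e (nat_lit 7587) (nat_lit 406) (.e (nat_lit 73472) (nat_lit 15) .nil))))) .nil)))) (.nd (nat_lit 4) (.nd (nat_lit 5) 
(.lf (nat_lit 52619) (.g (nat_lit 1211) (.e (nat_lit 1360) (nat_lit 102) (.e (nat_lit 286753) (nat_lit 10) (.e (nat_lit 344173) (nat_lit 42) (.e (nat_lit 761869) (nat_lit 5) (.e (nat_lit 1574) (nat_lit 110) (.e (nat_lit 352257) (nat_lit 0) (.e (nat_lit 6953) (nat_lit 377) .nil))))))) (.g (nat_lit 4) .nil .nil))) 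
(.lf (nat_lit 52651) (.g (nat_lit 1036) (.e (nat_lit 1360) (nat_lit 102) (.e (nat_lit 286760) (nat_lit 13) (.e (nat_lit 393293) (nat_lit 26) (.e (nat_lit 475218) (nat_lit 44) .nil)))) .nil))) (.nd (nat_lit 5) 
(.lf (nat_lit 52635) (.g (nat_lit 2182) (.e (nat_lit 1360) (nat_lit 102) (.e (nat_lit 286753) (nat_lit 10) (.e (nat_lit 344177) (nat_lit 43) (.e (nat_lit 770058) (nat_lit 5) (.e (nat_lit 1575) (nat_lit 110) (.e (nat_lit 352257) (nat_lit 0) (.e (nat_lit 6950) (nat_lit 377) .nil))))))) (.g (nat_lit 5) .nil .nil))) 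
(.lf (nat_lit 52667) (.g (nat_lit 2078) (.e (nat_lit 1360) (nat_lit 102) (.e (nat_lit 286761) (nat_lit 13) (.e (nat_lit 393293) (nat_lit 26) (.e (nat_lit 475201) (nat_lit 40) (.e (nat_lit 704841) (nat_lit 15) (.e (nat_lit 57793) (nat_lit 245) .nil)))))) (.g (nat_lit 4) .nil .nil)))))) (.nd (nat_lit 3) (.nd (nat_lit 4) (.nd (nat_lit 5) 
(.lf (nat_lit 52615) (.g (nat_lit 3164) (.e (nat_lit 1360) (nat_lit 102) (.e (nat_lit 286753) (nat_lit 10) (.e (nat_lit 344156) (nat_lit 36) (.e (nat_lit 638998) (nat_lit 8) (.e (nat_lit 172079) (nat_lit 7) (.e (nat_lit 409618) (nat_lit 10) (.e (nat_lit 4854) (nat_lit 287) .nil))))))) (.g (nat_lit 6) .nil .nil))) 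
(.lf (nat_lit 52647) (.g (nat_lit 2138) (.e (nat_lit 1360) (nat_lit 102) (.e (nat_lit 286760) (nat_lit 13) (.e (nat_lit 393293) (nat_lit 26) (.e (nat_lit 475201) (nat_lit 40) (.e (nat_lit 704839) (nat_lit 15) (.e (nat_lit 57793) (nat_lit 245) .nil)))))) (.g (nat_lit 4) .nil .nil)))) (.nd (nat_lit 5) 
(.lf (nat_lit 52631) (.g (nat_lit 1998) (.e (nat_lit 1360) (nat_lit 102) (.e (nat_lit 286753) (nat_lit 10) (.e (nat_lit 344177) (nat_lit 43) (.e (nat_lit 770055) (nat_lit 5) (.e (nat_lit 1575) (nat_lit 110) (.e (nat_lit 352257) (nat_lit 0) (.e (nat_lit 6953) (nat_lit 377) .nil))))))) (.g (nat_lit 5) .nil .nil))) 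
(.lf (nat_lit 52663) (.g (nat_lit 1561) (.e (nat_lit 1360) (nat_lit 102) (.e (nat_lit 286761) (nat_lit 13) (.e (nat_lit 393291) (nat_lit 26) (.e (nat_lit 475219) (nat_lit 44) .nil)))) .nil)))) (.nd (nat_lit 4) (.nd (nat_lit 5) 
(.lf (nat_lit 52623) (.g (nat_lit 1841) (.e (nat_lit 1360) (nat_lit 102) (.e (nat_lit 286753) (nat_lit 10) (.e (nat_lit 344174) (nat_lit 42) (.e (nat_lit 761868) (nat_lit 5) (.e (nat_lit 1558) (nat_lit 110) (.e (nat_lit 352257) (nat_lit 0) (.e (nat_lit 6952) (nat_lit 377) .nil))))))) (.g (nat_lit 4) .nil .nil))) 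
(.lf (nat_lit 52655) (.g (nat_lit 2135) (.e (nat_lit 1360) (nat_lit 102) (.e (nat_lit 286761) (nat_lit 13) (.e (nat_lit 393233) (nat_lit 17) (.e (nat_lit 7589) (nat_lit 406) (.e (nat_lit 65632) (nat_lit 15) (.e (nat_lit 6952) (nat_lit 377) .nil)))))) (.g (nat_lit 4) .nil .nil)))) (.nd (nat_lit 5) 
(.lf (nat_lit 52639) (.g (nat_lit 1601) (.e (nat_lit 1360) (nat_lit 102) (.e (nat_lit 286754) (nat_lit 10) (.e (nat_lit 344174) (nat_lit 42) (.e (nat_lit 761866) (nat_lit 5) (.e (nat_lit 1574) (nat_lit 110) (.e (nat_lit 352257) (nat_lit 0) (.e (nat_lit 6952) (nat_lit 377) .nil))))))) (.g (nat_lit 4) .nil .nil))) 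
(.lf (nat_lit 52671) (.g (nat_lit 2516) (.e (nat_lit 1360) (nat_lit 102) (.e (nat_lit 286761) (nat_lit 13) (.e (nat_lit 393298) (nat_lit 27) (.e (nat_lit 491552) (nat_lit 9) (.e (nat_lit 336250) (nat_lit 15) .nil))))) .nil))))))))

noncomputable def tv730 : DT := (.nd (nat_lit 0) (.nd (nat_lit 1) (.nd (nat_lit 2) (.nd (nat_lit 3) (.nd (nat_lit 4) (.nd (nat_lit 5) 
(.lf (nat_lit 52672) (.g (nat_lit 1345) (.e (nat_lit 1360) (nat_lit 102) (.e (nat_lit 286761) (nat_lit 13) (.e (nat_lit 393300) (nat_lit 27) (.e (nat_lit 491551) (nat_lit 9) .nil)))) .nil)) 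
(.lf (nat_lit 52704) (.g (nat_lit 3425) (.e (nat_lit 1361) (nat_lit 102) (.e (nat_lit 286733) (nat_lit 2) (.e (nat_lit 90170) (nat_lit 13) (.e (nat_lit 172095) (nat_lit 9) (.e (nat_lit 426125) (nat_lit 2) (.e (nat_lit 196661) (nat_lit 12) (.e (nat_lit 57712) (nat_lit 176) .nil))))))) (.g (nat_lit 5) .nil .nil)))) (.nd (nat_lit 5) 
(.lf (nat_lit 52688) (.g (nat_lit 3803) (.e (nat_lit 1360) (nat_lit 102) (.e (nat_lit 286761) (nat_lit 13) (.e (nat_lit 393301) (nat_lit 27) (.e (nat_lit 499456) (nat_lit 9) .nil)))) .nil)) 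
(.lf (nat_lit 52720) (.g (nat_lit 2992) (.e (nat_lit 1361) (nat_lit 102) (.e (nat_lit 286733) (nat_lit 2) (.e (nat_lit 90177) (nat_lit 15) (.e (nat_lit 188452) (nat_lit 23) (.e (nat_lit 204814) (nat_lit 17) (.e (nat_lit 6113) (nat_lit 332) .nil)))))) (.g (nat_lit 4) .nil .nil))))) (.nd (nat_lit 4) (.nd (nat_lit 5) 
(.lf (nat_lit 52680) (.g (nat_lit 4391) (.e (nat_lit 1360) (nat_lit 102) (.e (nat_lit 286761) (nat_lit 13) (.e (nat_lit 393301) (nat_lit 27) (.e (nat_lit 491551) (nat_lit 9) (.e (nat_lit 336250) (nat_lit 15) (.e (nat_lit 6950) (nat_lit 377) .nil)))))) (.g (nat_lit 4) .nil .nil))) 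
(.lf (nat_lit 52712) (.g (nat_lit 2711) (.e (nat_lit 1361) (nat_lit 102) (.e (nat_lit 286733) (nat_lit 2) (.e (nat_lit 90170) (nat_lit 13) (.e (nat_lit 172126) (nat_lit 14) .nil)))) .nil))) (.nd (nat_lit 5) 
(.lf (nat_lit 52696) (.g (nat_lit 1681) (.e (nat_lit 1361) (nat_lit 102) (.e (nat_lit 286727) (nat_lit 0) (.e (nat_lit 1799) (nat_lit 119) (.e (nat_lit 516166) (nat_lit 12) (.e (nat_lit 458496) (nat_lit 1) .nil))))) .nil)) 
(.lf (nat_lit 52728) (.g (nat_lit 2884) (.e (nat_lit 1361) (nat_lit 102) (.e (nat_lit 286733) (nat_lit 2) (.e (nat_lit 90178) (nat_lit 15) (.e (nat_lit 188448) (nat_lit 22) (.e (nat_lit 196661) (nat_lit 12) (.e (nat_lit 57712) (nat_lit 176) .nil)))))) (.g (nat_lit 6) .nil .nil)))))) (.nd (nat_lit 3) (.nd (nat_lit 4) (.nd (nat_lit 5) 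
(.lf (nat_lit 52676) (.g (nat_lit 4229) (.e (nat_lit 1360) (nat_lit 102) (.e (nat_lit 286761) (nat_lit 13) (.e (nat_lit 393301) (nat_lit 27) (.e (nat_lit 491546) (nat_lit 9) (.e (nat_lit 336248) (nat_lit 15) .nil))))) .nil)) 
(.lf (nat_lit 52708) (.g (nat_lit 4090) (.e (nat_lit 1361) (nat_lit 102) (.e (nat_lit 286733) (nat_lit 2) (.e (nat_lit 90170) (nat_lit 13) (.e (nat_lit 172106) (nat_lit 10) (.e (nat_lit 434231) (nat_lit 23) (.e (nat_lit 532490) (nat_lit 0) (.e (nat_lit 6114) (nat_lit 332) .nil))))))) (.g (nat_lit 6) .nil .nil)))) (.nd (nat_lit 5) 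
(.lf (nat_lit 52692) (.g (nat_lit 1781) (.e (nat_lit 1361) (nat_lit 102) (.e (nat_lit 286722) (nat_lit 0) (.e (nat_lit 1691) (nat_lit 117) (.e (nat_lit 499928) (nat_lit 11) (.e (nat_lit 188449) (nat_lit 22) (.e (nat_lit 196661) (nat_lit 12) (.e (nat_lit 57712) (nat_lit 176) .nil))))))) (.g (nat_lit 6) .nil .nil))) 
(.lf (nat_lit 52724) (.g (nat_lit 2241) (.e (nat_lit 1361) (nat_lit 102) (.e (nat_lit 286733) (nat_lit 2) (.e (nat_lit 90177) (nat_lit 15) (.e (nat_lit 188452) (nat_lit 23) (.e (nat_lit 212736) (nat_lit 17) (.e (nat_lit 6113) (nat_lit 332) .nil)))))) (.g (nat_lit 4) .nil .nil))))) (.nd (nat_lit 4) (.nd (nat_lit 5) 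
(.lf (nat_lit 52684) (.g (nat_lit 3969) (.e (nat_lit 1360) (nat_lit 102) (.e (nat_lit 286761) (nat_lit 13) (.e (nat_lit 393301) (nat_lit 27) (.e (nat_lit 491553) (nat_lit 9) .nil)))) .nil)) 
(.lf (nat_lit 52716) (.g (nat_lit 2641) (.e (nat_lit 1361) (nat_lit 102) (.e (nat_lit 286733) (nat_lit 2) (.e (nat_lit 90176) (nat_lit 15) (.e (nat_lit 188452) (nat_lit 23) (.e (nat_lit 204819) (nat_lit 17) (.e (nat_lit 6113) (nat_lit 332) .nil)))))) (.g (nat_lit 4) .nil .nil)))) (.nd (nat_lit 5) 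
(.lf (nat_lit 52700) (.g (nat_lit 3415) (.e (nat_lit 1361) (nat_lit 102) (.e (nat_lit 286733) (nat_lit 2) (.e (nat_lit 90169) (nat_lit 13) (.e (nat_lit 172124) (nat_lit 14) (.e (nat_lit 491540) (nat_lit 3) (.e (nat_lit 98323) (nat_lit 17) (.e (nat_lit 6989) (nat_lit 377) .nil))))))) (.g (nat_lit 6) .nil .nil))) 
(.lf (nat_lit 52732) (.g (nat_lit 1907) (.e (nat_lit 1361) (nat_lit 102) (.e (nat_lit 286733) (nat_lit 2) (.e (nat_lit 90178) (nat_lit 15) (.e (nat_lit 188451) (nat_lit 23) (.e (nat_lit 204821) (nat_lit 17) (.e (nat_lit 6114) (nat_lit 332) .nil)))))) (.g (nat_lit 4) .nil .nil))))))) (.nd (nat_lit 2) (.nd (nat_lit 3) (.nd (nat_lit 4) (.nd (nat_lit 5) 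
(.lf (nat_lit 52674) (.g (nat_lit 1815) (.e (nat_lit 1360) (nat_lit 102) (.e (nat_lit 286761) (nat_lit 13) (.e (nat_lit 393300) (nat_lit 27) (.e (nat_lit 491552) (nat_lit 9) (.e (nat_lit 336250) (nat_lit 15) .nil))))) .nil)) 
(.lf (nat_lit 52706) (.g (nat_lit 2290) (.e (nat_lit 1361) (nat_lit 102) (.e (nat_lit 286733) (nat_lit 2) (.e (nat_lit 90170) (nat_lit 13) (.e (nat_lit 172106) (nat_lit 10) (.e (nat_lit 434231) (nat_lit 23) .nil))))) .nil))) (.nd (nat_lit 5) 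
(.lf (nat_lit 52690) (.g (nat_lit 4146) (.e (nat_lit 1360) (nat_lit 102) (.e (nat_lit 286761) (nat_lit 13) (.e (nat_lit 393301) (nat_lit 27) (.e (nat_lit 491575) (nat_lit 15) .nil)))) .nil)) 
(.lf (nat_lit 52722) (.g (nat_lit 4039) (.e (nat_lit 1361) (nat_lit 102) (.e (nat_lit 286733) (nat_lit 2) (.e (nat_lit 90177) (nat_lit 15) (.e (nat_lit 188452) (nat_lit 23) (.e (nat_lit 204819) (nat_lit 17) (.e (nat_lit 6113) (nat_lit 332) .nil)))))) (.g (nat_lit 0) .nil .nil))))) (.nd (nat_lit 4) (.nd (nat_lit 5) 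
(.lf (nat_lit 52682) (.g (nat_lit 4328) (.e (nat_lit 1360) (nat_lit 102) (.e (nat_lit 286761) (nat_lit 13) (.e (nat_lit 393301) (nat_lit 27) (.e (nat_lit 491551) (nat_lit 9) (.e (nat_lit 336250) (nat_lit 15) (.e (nat_lit 6953) (nat_lit 377) .nil)))))) (.g (nat_lit 4) .nil .nil))) 
(.lf (nat_lit 52714) (.g (nat_lit 3262) (.e (nat_lit 1361) (nat_lit 102) (.e (nat_lit 286733) (nat_lit 2) (.e (nat_lit 90176) (nat_lit 15) (.e (nat_lit 188447) (nat_lit 22) (.e (nat_lit 196661) (nat_lit 12) (.e (nat_lit 57712) (nat_lit 176) .nil)))))) (.g (nat_lit 4) .nil .nil)))) (.nd (nat_lit 5) 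
(.lf (nat_lit 52698) (.g (nat_lit 1656) (.e (nat_lit 1361) (nat_lit 102) (.e (nat_lit 286727) (nat_lit 0) (.e (nat_lit 1799) (nat_lit 119) (.e (nat_lit 516177) (nat_lit 14) (.e (nat_lit 466976) (nat_lit 22) (.e (nat_lit 196661) (nat_lit 12) (.e (nat_lit 57712) (nat_lit 176) .nil))))))) (.g (nat_lit 5) .nil .nil))) 
(.lf (nat_lit 52730) (.g (nat_lit 3638) (.e (nat_lit 1361) (nat_lit 102) (.e (nat_lit 286733) (nat_lit 2) (.e (nat_lit 90178) (nat_lit 15) (.e (nat_lit 188450) (nat_lit 23) (.e (nat_lit 204819) (nat_lit 17) (.e (nat_lit 6113) (nat_lit 332) .nil)))))) (.g (nat_lit 6) .nil .nil)))))) (.nd (nat_lit 3) (.nd (nat_lit 4) (.nd (nat_lit 5) 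
(.lf (nat_lit 52678) (.g (nat_lit 3118) (.e (nat_lit 1360) (nat_lit 102) (.e (nat_lit 286761) (nat_lit 13) (.e (nat_lit 393301) (nat_lit 27) (.e (nat_lit 491547) (nat_lit 9) .nil)))) .nil)) 
(.lf (nat_lit 52710) (.g (nat_lit 3769) (.e (nat_lit 1361) (nat_lit 102) (.e (nat_lit 286733) (nat_lit 2) (.e (nat_lit 90170) (nat_lit 13) (.e (nat_lit 172113) (nat_lit 10) (.e (nat_lit 434231) (nat_lit 23) (.e (nat_lit 532490) (nat_lit 0) (.e (nat_lit 6114) (nat_lit 332) .nil))))))) (.g (nat_lit 4) .nil .nil)))) (.nd (nat_lit 5) 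
(.lf (nat_lit 52694) (.g (nat_lit 2982) (.e (nat_lit 1361) (nat_lit 102) (.e (nat_lit 286727) (nat_lit 0) (.e (nat_lit 1799) (nat_lit 119) (.e (nat_lit 516163) (nat_lit 11) (.e (nat_lit 442424) (nat_lit 22) (.e (nat_lit 196661) (nat_lit 12) (.e (nat_lit 57712) (nat_lit 176) .nil))))))) (.g (nat_lit 5) .nil .nil))) 
(.lf (nat_lit 52726) (.g (nat_lit 1599) (.e (nat_lit 1361) (nat_lit 102) (.e (nat_lit 286733) (nat_lit 2) (.e (nat_lit 90178) (nat_lit 15) (.e (nat_lit 196352) (nat_lit 20) .nil)))) .nil)))) (.nd (nat_lit 4) (.nd (nat_lit 5) 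
(.lf (nat_lit 52686) (.g (nat_lit 2886) (.e (nat_lit 1360) (nat_lit 102) (.e (nat_lit 286761) (nat_lit 13) (.e (nat_lit 393301) (nat_lit 27) (.e (nat_lit 491556) (nat_lit 9) .nil)))) .nil)) 
(.lf (nat_lit 52718) (.g (nat_lit 3545) (.e (nat_lit 1361) (nat_lit 102) (.e (nat_lit 286733) (nat_lit 2) (.e (nat_lit 90177) (nat_lit 15) (.e (nat_lit 188450) (nat_lit 23) (.e (nat_lit 204819) (nat_lit 17) (.e (nat_lit 6113) (nat_lit 332) .nil)))))) (.g (nat_lit 0) .nil .nil)))) (.nd (nat_lit 5) 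
(.lf (nat_lit 52702) (.g (nat_lit 3284) (.e (nat_lit 1361) (nat_lit 102) (.e (nat_lit 286733) (nat_lit 2) (.e (nat_lit 90170) (nat_lit 13) (.e (nat_lit 172092) (nat_lit 9) (.e (nat_lit 426125) (nat_lit 2) (.e (nat_lit 196661) (nat_lit 12) (.e (nat_lit 57712) (nat_lit 176) .nil))))))) (.g (nat_lit 5) .nil .nil))) 
(.lf (nat_lit 52734) (.g (nat_lit 3823) (.e (nat_lit 1361) (nat_lit 102) (.e (nat_lit 286733) (nat_lit 2) (.e (nat_lit 90178) (nat_lit 15) (.e (nat_lit 188452) (nat_lit 23) (.e (nat_lit 204819) (nat_lit 17) (.e (nat_lit 6113) (nat_lit 332) .nil)))))) (.g (nat_lit 5) .nil .nil)))))))) (.nd (nat_lit 1) (.nd (nat_lit 2) (.nd (nat_lit 3) (.nd (nat_lit 4) (.nd (nat_lit 5) 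
(.lf (nat_lit 52673) (.g (nat_lit 2041) (.e (nat_lit 1360) (nat_lit 102) (.e (nat_lit 286761) (nat_lit 13) (.e (nat_lit 393300) (nat_lit 27) (.e (nat_lit 491552) (nat_lit 9) (.e (nat_lit 336248) (nat_lit 15) .nil))))) .nil)) 
(.lf (nat_lit 52705) (.g (nat_lit 2476) (.e (nat_lit 1361) (nat_lit 102) (.e (nat_lit 286733) (nat_lit 2) (.e (nat_lit 90170) (nat_lit 13) (.e (nat_lit 172097) (nat_lit 9) .nil)))) .nil))) (.nd (nat_lit 5) 
(.lf (nat_lit 52689) (.g (nat_lit 2629) (.e (nat_lit 1360) (nat_lit 102) (.e (nat_lit 286761) (nat_lit 13) (.e (nat_lit 393301) (nat_lit 27) (.e (nat_lit 491563) (nat_lit 12) .nil)))) .nil)) 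
(.lf (nat_lit 52721) (.g (nat_lit 1808) (.e (nat_lit 1361) (nat_lit 102) (.e (nat_lit 286733) (nat_lit 2) (.e (nat_lit 90177) (nat_lit 15) (.e (nat_lit 188452) (nat_lit 23) (.e (nat_lit 204816) (nat_lit 17) (.e (nat_lit 6152) (nat_lit 332) .nil)))))) (.g (nat_lit 4) .nil .nil))))) (.nd (nat_lit 4) (.nd (nat_lit 5) 
(.lf (nat_lit 52681) (.g (nat_lit 4206) (.e (nat_lit 1360) (nat_lit 102) (.e (nat_lit 286761) (nat_lit 13) (.e (nat_lit 393301) (nat_lit 27) (.e (nat_lit 491551) (nat_lit 9) (.e (nat_lit 336250) (nat_lit 15) (.e (nat_lit 6952) (nat_lit 377) .nil)))))) (.g (nat_lit 4) .nil .nil))) 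
(.lf (nat_lit 52713) (.g (nat_lit 1366) (.e (nat_lit 1361) (nat_lit 102) (.e (nat_lit 286733) (nat_lit 2) (.e (nat_lit 90174) (nat_lit 14) (.e (nat_lit 188160) (nat_lit 40) .nil)))) .nil))) (.nd (nat_lit 5) 
(.lf (nat_lit 52697) (.g (nat_lit 2675) (.e (nat_lit 1361) (nat_lit 102) (.e (nat_lit 286727) (nat_lit 0) (.e (nat_lit 1799) (nat_lit 119) (.e (nat_lit 516177) (nat_lit 14) (.e (nat_lit 466974) (nat_lit 22) (.e (nat_lit 196661) (nat_lit 12) (.e (nat_lit 57712) (nat_lit 176) .nil))))))) (.g (nat_lit 7) .nil .nil))) 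
(.lf (nat_lit 52729) (.g (nat_lit 3031) (.e (nat_lit 1361) (nat_lit 102) (.e (nat_lit 286733) (nat_lit 2) (.e (nat_lit 90178) (nat_lit 15) (.e (nat_lit 188449) (nat_lit 22) (.e (nat_lit 196661) (nat_lit 12) (.e (nat_lit 57712) (nat_lit 176) .nil)))))) (.g (nat_lit 5) .nil .nil)))))) (.nd (nat_lit 3) (.nd (nat_lit 4) (.nd (nat_lit 5) 
(.lf (nat_lit 52677) (.g (nat_lit 4134) (.e (nat_lit 1360) (nat_lit 102) (.e (nat_lit 286761) (nat_lit 13) (.e (nat_lit 393301) (nat_lit 27) (.e (nat_lit 491546) (nat_lit 9) (.e (nat_lit 343808) (nat_lit 15) .nil))))) .nil)) 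
(.lf (nat_lit 52709) (.g (nat_lit 3412) (.e (nat_lit 1361) (nat_lit 102) (.e (nat_lit 286733) (nat_lit 2) (.e (nat_lit 90170) (nat_lit 13) (.e (nat_lit 172113) (nat_lit 10) (.e (nat_lit 434231) (nat_lit 23) (.e (nat_lit 532486) (nat_lit 0) (.e (nat_lit 6113) (nat_lit 332) .nil))))))) (.g (nat_lit 4) .nil .nil)))) (.nd (nat_lit 5) 
(.lf (nat_lit 52693) (.g (nat_lit 454) (.e (nat_lit 1361) (nat_lit 102) (.e (nat_lit 286727) (nat_lit 0) (.e (nat_lit 1799) (nat_lit 119) .nil))) .nil)) 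
(.lf (nat_lit 52725) (.g (nat_lit 2316) (.e (nat_lit 1361) (nat_lit 102) (.e (nat_lit 286733) (nat_lit 2) (.e (nat_lit 90178) (nat_lit 15) (.e (nat_lit 188440) (nat_lit 20) (.e (nat_lit 3255) (nat_lit 197) (.e (nat_lit 532486) (nat_lit 0) (.e (nat_lit 6113) (nat_lit 332) .nil))))))) (.g (nat_lit 4) .nil .nil))))) (.nd (nat_lit 4) (.nd (nat_lit 5) 
(.lf (nat_lit 52685) (.g (nat_lit 3925) (.e (nat_lit 1360) (nat_lit 102) (.e (nat_lit 286761) (nat_lit 13) (.e (nat_lit 393301) (nat_lit 27) (.e (nat_lit 491555) (nat_lit 9) .nil)))) .nil)) 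
(.lf (nat_lit 52717) (.g (nat_lit 261) (.e (nat_lit 1361) (nat_lit 102) (.e (nat_lit 286733) (nat_lit 2) (.e (nat_lit 90177) (nat_lit 15) .nil))) .nil))) (.nd (nat_lit 5) 
(.lf (nat_lit 52701) (.g (nat_lit 3361) (.e (nat_lit 1361) (nat_lit 102) (.e (nat_lit 286733) (nat_lit 2) (.e (nat_lit 90170) (nat_lit 13) (.e (nat_lit 172085) (nat_lit 9) (.e (nat_lit 426125) (nat_lit 2) (.e (nat_lit 196661) (nat_lit 12) (.e (nat_lit 57712) (nat_lit 176) .nil))))))) (.g (nat_lit 5) .nil .nil))) 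
(.lf (nat_lit 52733) (.g (nat_lit 3689) (.e (nat_lit 1361) (nat_lit 102) (.e (nat_lit 286733) (nat_lit 2) (.e (nat_lit 90178) (nat_lit 15) (.e (nat_lit 188452) (nat_lit 23) (.e (nat_lit 204814) (nat_lit 17) .nil))))) .nil)))))) (.nd (nat_lit 2) (.nd (nat_lit 3) (.nd (nat_lit 4) (.nd (nat_lit 5) 
(.lf (nat_lit 52675) (.g (nat_lit 3193) (.e (nat_lit 1360) (nat_lit 102) (.e (nat_lit 286761) (nat_lit 13) (.e (nat_lit 393301) (nat_lit 27) (.e (nat_lit 491546) (nat_lit 9) .nil)))) .nil)) 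
(.lf (nat_lit 52707) (.g (nat_lit 4742) (.e (nat_lit 1361) (nat_lit 102) (.e (nat_lit 286733) (nat_lit 2) (.e (nat_lit 90170) (nat_lit 13) (.e (nat_lit 172106) (nat_lit 10) (.e (nat_lit 434231) (nat_lit 23) (.e (nat_lit 532486) (nat_lit 0) (.e (nat_lit 6113) (nat_lit 332) .nil))))))) (.g (nat_lit 0) .nil .nil)))) (.nd (nat_lit 5) 
(.lf (nat_lit 52691) (.g (nat_lit 3803) (.e (nat_lit 1360) (nat_lit 102) (.e (nat_lit 286761) (nat_lit 13) (.e (nat_lit 393301) (nat_lit 27) (.e (nat_lit 499456) (nat_lit 15) .nil)))) .nil)) 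
(.lf (nat_lit 52723) (.g (nat_lit 3157) (.e (nat_lit 1361) (nat_lit 102) (.e (nat_lit 286733) (nat_lit 2) (.e (nat_lit 90177) (nat_lit 15) (.e (nat_lit 188452) (nat_lit 23) (.e (nat_lit 204821) (nat_lit 17) (.e (nat_lit 6092) (nat_lit 332) .nil)))))) (.g (nat_lit 6) .nil .nil))))) (.nd (nat_lit 4) (.nd (nat_lit 5) 
(.lf (nat_lit 52683) (.g (nat_lit 3335) (.e (nat_lit 1360) (nat_lit 102) (.e (nat_lit 286761) (nat_lit 13) (.e (nat_lit 393301) (nat_lit 27) (.e (nat_lit 491552) (nat_lit 9) (.e (nat_lit 336248) (nat_lit 15) (.e (nat_lit 6952) (nat_lit 377) .nil)))))) (.g (nat_lit 5) .nil .nil))) 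
(.lf (nat_lit 52715) (.g (nat_lit 4256) (.e (nat_lit 1361) (nat_lit 102) (.e (nat_lit 286733) (nat_lit 2) (.e (nat_lit 90176) (nat_lit 15) (.e (nat_lit 188450) (nat_lit 23) (.e (nat_lit 204819) (nat_lit 17) (.e (nat_lit 6113) (nat_lit 332) .nil)))))) (.g (nat_lit 0) .nil .nil)))) (.nd (nat_lit 5) 
(.lf (nat_lit 52699) (.g (nat_lit 2585) (.e (nat_lit 1361) (nat_lit 102) (.e (nat_lit 286727) (nat_lit 0) (.e (nat_lit 1799) (nat_lit 119) (.e (nat_lit 516177) (nat_lit 14) (.e (nat_lit 466977) (nat_lit 22) (.e (nat_lit 196661) (nat_lit 12) (.e (nat_lit 57712) (nat_lit 176) .nil))))))) (.g (nat_lit 6) .nil .nil))) 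
(.lf (nat_lit 52731) (.g (nat_lit 2011) (.e (nat_lit 1361) (nat_lit 102) (.e (nat_lit 286733) (nat_lit 2) (.e (nat_lit 90178) (nat_lit 15) (.e (nat_lit 188450) (nat_lit 23) (.e (nat_lit 204821) (nat_lit 17) (.e (nat_lit 6114) (nat_lit 332) .nil)))))) (.g (nat_lit 4) .nil .nil)))))) (.nd (nat_lit 3) (.nd (nat_lit 4) (.nd (nat_lit 5) 
(.lf (nat_lit 52679) (.g (nat_lit 3941) (.e (nat_lit 1360) (nat_lit 102) (.e (nat_lit 286761) (nat_lit 13) (.e (nat_lit 393301) (nat_lit 27) (.e (nat_lit 491551) (nat_lit 9) (.e (nat_lit 336248) (nat_lit 15) .nil))))) .nil)) 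
(.lf (nat_lit 52711) (.g (nat_lit 4652) (.e (nat_lit 1361) (nat_lit 102) (.e (nat_lit 286733) (nat_lit 2) (.e (nat_lit 90170) (nat_lit 13) (.e (nat_lit 172115) (nat_lit 10) (.e (nat_lit 434231) (nat_lit 23) (.e (nat_lit 532490) (nat_lit 0) (.e (nat_lit 6114) (nat_lit 332) .nil))))))) (.g (nat_lit 5) .nil .nil)))) (.nd (nat_lit 5) 
(.lf (nat_lit 52695) (.g (nat_lit 1632) (.e (nat_lit 1361) (nat_lit 102) (.e (nat_lit 286727) (nat_lit 0) (.e (nat_lit 1799) (nat_lit 119) (.e (nat_lit 516163) (nat_lit 11) (.e (nat_lit 442427) (nat_lit 23) (.e (nat_lit 204821) (nat_lit 17) (.e (nat_lit 6114) (nat_lit 332) .nil))))))) (.g (nat_lit 4) .nil .nil))) 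
(.lf (nat_lit 52727) (.g (nat_lit 2886) (.e (nat_lit 1361) (nat_lit 102) (.e (nat_lit 286733) (nat_lit 2) (.e (nat_lit 90178) (nat_lit 15) (.e (nat_lit 188447) (nat_lit 22) (.e (nat_lit 196661) (nat_lit 12) (.e (nat_lit 57712) (nat_lit 176) .nil)))))) (.g (nat_lit 5) .nil .nil))))) (.nd (nat_lit 4) (.nd (nat_lit 5) 
(.lf (nat_lit 52687) (.g (nat_lit 3842) (.e (nat_lit 1360) (nat_lit 102) (.e (nat_lit 286761) (nat_lit 13) (.e (nat_lit 393301) (nat_lit 27) (.e (nat_lit 491556) (nat_lit 9) (.e (nat_lit 343808) (nat_lit 15) .nil))))) .nil)) 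
(.lf (nat_lit 52719) (.g (nat_lit 1776) (.e (nat_lit 1361) (nat_lit 102) (.e (nat_lit 286733) (nat_lit 2) (.e (nat_lit 90177) (nat_lit 15) (.e (nat_lit 188450) (nat_lit 23) (.e (nat_lit 204821) (nat_lit 17) (.e (nat_lit 6114) (nat_lit 332) .nil)))))) (.g (nat_lit 4) .nil .nil)))) (.nd (nat_lit 5) 
(.lf (nat_lit 52703) (.g (nat_lit 1778) (.e (nat_lit 1361) (nat_lit 102) (.e (nat_lit 286733) (nat_lit 2) (.e (nat_lit 90170) (nat_lit 13) (.e (nat_lit 172095) (nat_lit 9) .nil)))) .nil)) 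
(.lf (nat_lit 52735) (.g (nat_lit 2562) (.e (nat_lit 1361) (nat_lit 102) (.e (nat_lit 286733) (nat_lit 2) (.e (nat_lit 90178) (nat_lit 15) (.e (nat_lit 188452) (nat_lit 23) (.e (nat_lit 204821) (nat_lit 17) .nil))))) .nil))))))))

noncomputable def tv731 : DT := (.nd (nat_lit 0) (.nd (nat_lit 1) (.nd (nat_lit 2) (.nd (nat_lit 3) (.nd (nat_lit 4) (.nd (nat_lit 5) (.nd (nat_lit 6) 
(.lf (nat_lit 52736) (.g (nat_lit 1671) (.e (nat_lit 1361) (nat_lit 102) (.e (nat_lit 286733) (nat_lit 2) (.e (nat_lit 90178) (nat_lit 15) (.e (nat_lit 188458) (nat_lit 25) .nil)))) .nil)) 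
(.lf (nat_lit 52800) (.g (nat_lit 2876) (.e (nat_lit 1361) (nat_lit 102) (.e (nat_lit 286735) (nat_lit 3) (.e (nat_lit 98373) (nat_lit 29) (.e (nat_lit 458496) (nat_lit 1) .nil)))) .nil))) (.nd (nat_lit 6) 
(.lf (nat_lit 52768) (.g (nat_lit 3715) (.e (nat_lit 1361) (nat_lit 102) (.e (nat_lit 286735) (nat_lit 3) (.e (nat_lit 98359) (nat_lit 26) (.e (nat_lit 426338) (nat_lit 14) (.e (nat_lit 491540) (nat_lit 3) (.e (nat_lit 98323) (nat_lit 17) (.e (nat_lit 6989) (nat_lit 377) .nil))))))) (.g (nat_lit 5) .nil .nil))) 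
(.lf (nat_lit 52832) (.g (nat_lit 1775) (.e (nat_lit 1361) (nat_lit 102) (.e (nat_lit 286748) (nat_lit 9) (.e (nat_lit 336389) (nat_lit 27) (.e (nat_lit 426343) (nat_lit 14) .nil)))) .nil)))) (.nd (nat_lit 5) (.nd (nat_lit 6) 
(.lf (nat_lit 52752) (.g (nat_lit 2802) (.e (nat_lit 1361) (nat_lit 102) (.e (nat_lit 286735) (nat_lit 3) (.e (nat_lit 98356) (nat_lit 26) (.e (nat_lit 426246) (nat_lit 9) (.e (nat_lit 426125) (nat_lit 2) (.e (nat_lit 196661) (nat_lit 12) (.e (nat_lit 57712) (nat_lit 176) .nil))))))) (.g (nat_lit 4) .nil .nil))) 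
(.lf (nat_lit 52816) (.g (nat_lit 2341) (.e (nat_lit 1361) (nat_lit 102) (.e (nat_lit 286735) (nat_lit 3) (.e (nat_lit 98381) (nat_lit 31) (.e (nat_lit 466981) (nat_lit 23) (.e (nat_lit 204819) (nat_lit 17) .nil))))) .nil))) (.nd (nat_lit 6) 
(.lf (nat_lit 52784) (.g (nat_lit 2411) (.e (nat_lit 1361) (nat_lit 102) (.e (nat_lit 286735) (nat_lit 3) (.e (nat_lit 98370) (nat_lit 28) (.e (nat_lit 442427) (nat_lit 23) (.e (nat_lit 204821) (nat_lit 17) .nil))))) .nil)) 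
(.lf (nat_lit 52848) (.g (nat_lit 892) (.e (nat_lit 1361) (nat_lit 102) (.e (nat_lit 286759) (nat_lit 12) (.e (nat_lit 385094) (nat_lit 49) .nil))) .nil))))) (.nd (nat_lit 4) (.nd (nat_lit 5) (.nd (nat_lit 6) 
(.lf (nat_lit 52744) (.g (nat_lit 1446) (.e (nat_lit 1361) (nat_lit 102) (.e (nat_lit 286735) (nat_lit 3) (.e (nat_lit 98349) (nat_lit 24) (.e (nat_lit 417536) (nat_lit 8) .nil)))) .nil)) 
(.lf (nat_lit 52808) (.g (nat_lit 3345) (.e (nat_lit 1361) (nat_lit 102) (.e (nat_lit 286735) (nat_lit 3) (.e (nat_lit 98373) (nat_lit 29) (.e (nat_lit 450588) (nat_lit 10) (.e (nat_lit 573452) (nat_lit 9) .nil))))) .nil))) (.nd (nat_lit 6) 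
(.lf (nat_lit 52776) (.g (nat_lit 2018) (.e (nat_lit 1361) (nat_lit 102) (.e (nat_lit 286735) (nat_lit 3) (.e (nat_lit 98369) (nat_lit 28) (.e (nat_lit 442427) (nat_lit 23) (.e (nat_lit 204821) (nat_lit 17) (.e (nat_lit 6092) (nat_lit 332) .nil)))))) (.g (nat_lit 4) .nil .nil))) 
(.lf (nat_lit 52840) (.g (nat_lit 4849) (.e (nat_lit 1361) (nat_lit 102) (.e (nat_lit 286759) (nat_lit 12) (.e (nat_lit 385074) (nat_lit 31) (.e (nat_lit 573482) (nat_lit 13) (.e (nat_lit 65589) (nat_lit 9) .nil))))) .nil)))) (.nd (nat_lit 5) (.nd (nat_lit 6) 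
(.lf (nat_lit 52760) (.g (nat_lit 1814) (.e (nat_lit 1361) (nat_lit 102) (.e (nat_lit 286735) (nat_lit 3) (.e (nat_lit 98359) (nat_lit 26) (.e (nat_lit 426212) (nat_lit 9) .nil)))) .nil)) 
(.lf (nat_lit 52824) (.g (nat_lit 1269) (.e (nat_lit 1361) (nat_lit 102) (.e (nat_lit 286743) (nat_lit 9) (.e (nat_lit 336433) (nat_lit 30) (.e (nat_lit 450569) (nat_lit 0) (.e (nat_lit 5599) (nat_lit 310) (.e (nat_lit 163846) (nat_lit 0) (.e (nat_lit 6989) (nat_lit 377) .nil))))))) (.g (nat_lit 5) .nil .nil)))) (.nd (nat_lit 6) 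
(.lf (nat_lit 52792) (.g (nat_lit 1600) (.e (nat_lit 1361) (nat_lit 102) (.e (nat_lit 286735) (nat_lit 3) (.e (nat_lit 98372) (nat_lit 29) (.e (nat_lit 458496) (nat_lit 1) .nil)))) .nil)) 
(.lf (nat_lit 52856) (.g (nat_lit 1880) (.e (nat_lit 1361) (nat_lit 102) (.e (nat_lit 286759) (nat_lit 12) (.e (nat_lit 385106) (nat_lit 50) (.e (nat_lit 786483) (nat_lit 30) (.e (nat_lit 360451) (nat_lit 0) (.e (nat_lit 5441) (nat_lit 306) (.e (nat_lit 11) (nat_lit 0) .nil))))))) (.g (nat_lit 4) .nil .nil))))))) (.nd (nat_lit 3) (.nd (nat_lit 4) (.nd (nat_lit 5) (.nd (nat_lit 6) 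
(.lf (nat_lit 52740) (.g (nat_lit 2581) (.e (nat_lit 1361) (nat_lit 102) (.e (nat_lit 286735) (nat_lit 3) (.e (nat_lit 98325) (nat_lit 17) (.e (nat_lit 6986) (nat_lit 377) (.e (nat_lit 1374) (nat_lit 104) (.e (nat_lit 303119) (nat_lit 3) (.e (nat_lit 204819) (nat_lit 17) (.e (nat_lit 6113) (nat_lit 332) .nil)))))))) (.g (nat_lit 4) .nil .nil))) 
(.lf (nat_lit 52804) (.g (nat_lit 2876) (.e (nat_lit 1361) (nat_lit 102) (.e (nat_lit 286735) (nat_lit 3) (.e (nat_lit 98373) (nat_lit 29) (.e (nat_lit 458496) (nat_lit 5) .nil)))) .nil))) (.nd (nat_lit 6) 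
(.lf (nat_lit 52772) (.g (nat_lit 2683) (.e (nat_lit 1361) (nat_lit 102) (.e (nat_lit 286735) (nat_lit 3) (.e (nat_lit 98369) (nat_lit 28) (.e (nat_lit 442424) (nat_lit 22) (.e (nat_lit 196661) (nat_lit 12) (.e (nat_lit 57712) (nat_lit 176) .nil)))))) (.g (nat_lit 6) .nil .nil))) 
(.lf (nat_lit 52836) (.g (nat_lit 2356) (.e (nat_lit 1361) (nat_lit 102) (.e (nat_lit 286759) (nat_lit 12) (.e (nat_lit 385074) (nat_lit 31) (.e (nat_lit 573456) (nat_lit 9) .nil)))) .nil)))) (.nd (nat_lit 5) (.nd (nat_lit 6) 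
(.lf (nat_lit 52756) (.g (nat_lit 661) (.e (nat_lit 1361) (nat_lit 102) (.e (nat_lit 286735) (nat_lit 3) (.e (nat_lit 98359) (nat_lit 26) .nil))) .nil)) 
(.lf (nat_lit 52820) (.g (nat_lit 1677) (.e (nat_lit 1361) (nat_lit 102) (.e (nat_lit 286743) (nat_lit 9) (.e (nat_lit 336369) (nat_lit 27) (.e (nat_lit 426173) (nat_lit 7) (.e (nat_lit 409649) (nat_lit 18) .nil))))) .nil))) (.nd (nat_lit 6) 
(.lf (nat_lit 52788) (.g (nat_lit 1545) (.e (nat_lit 1361) (nat_lit 102) (.e (nat_lit 286735) (nat_lit 3) (.e (nat_lit 98371) (nat_lit 28) (.e (nat_lit 442427) (nat_lit 23) (.e (nat_lit 204821) (nat_lit 17) (.e (nat_lit 6092) (nat_lit 332) .nil)))))) (.g (nat_lit 4) .nil .nil))) 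
(.lf (nat_lit 52852) (.g (nat_lit 1891) (.e (nat_lit 1361) (nat_lit 102) (.e (nat_lit 286759) (nat_lit 12) (.e (nat_lit 385106) (nat_lit 50) (.e (nat_lit 786481) (nat_lit 30) (.e (nat_lit 360482) (nat_lit 15) (.e (nat_lit 655104) (nat_lit 14) .nil)))))) (.g (nat_lit 4) .nil .nil)))))) (.nd (nat_lit 4) (.nd (nat_lit 5) (.nd (nat_lit 6) 
(.lf (nat_lit 52748) (.g (nat_lit 1653) (.e (nat_lit 1361) (nat_lit 102) (.e (nat_lit 286735) (nat_lit 3) (.e (nat_lit 98356) (nat_lit 26) (.e (nat_lit 426244) (nat_lit 9) .nil)))) .nil)) 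
(.lf (nat_lit 52812) (.g (nat_lit 3021) (.e (nat_lit 1361) (nat_lit 102) (.e (nat_lit 286735) (nat_lit 3) (.e (nat_lit 98380) (nat_lit 31) (.e (nat_lit 466979) (nat_lit 23) (.e (nat_lit 204819) (nat_lit 17) (.e (nat_lit 6113) (nat_lit 332) .nil)))))) (.g (nat_lit 6) .nil .nil)))) (.nd (nat_lit 6) 
(.lf (nat_lit 52780) (.g (nat_lit 3359) (.e (nat_lit 1361) (nat_lit 102) (.e (nat_lit 286735) (nat_lit 3) (.e (nat_lit 98370) (nat_lit 28) (.e (nat_lit 442424) (nat_lit 22) (.e (nat_lit 196661) (nat_lit 12) (.e (nat_lit 57712) (nat_lit 176) .nil)))))) (.g (nat_lit 5) .nil .nil))) 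
(.lf (nat_lit 52844) (.g (nat_lit 4939) (.e (nat_lit 1361) (nat_lit 102) (.e (nat_lit 286759) (nat_lit 12) (.e (nat_lit 385074) (nat_lit 31) (.e (nat_lit 573482) (nat_lit 13) (.e (nat_lit 65603) (nat_lit 9) .nil))))) .nil)))) (.nd (nat_lit 5) (.nd (nat_lit 6) 
(.lf (nat_lit 52764) (.g (nat_lit 1870) (.e (nat_lit 1361) (nat_lit 102) (.e (nat_lit 286735) (nat_lit 3) (.e (nat_lit 98359) (nat_lit 26) (.e (nat_lit 426282) (nat_lit 10) .nil)))) .nil)) 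
(.lf (nat_lit 52828) (.g (nat_lit 2210) (.e (nat_lit 1361) (nat_lit 102) (.e (nat_lit 286743) (nat_lit 9) (.e (nat_lit 336443) (nat_lit 32) (.e (nat_lit 466972) (nat_lit 21) (.e (nat_lit 164402) (nat_lit 256) (.e (nat_lit 57350) (nat_lit 0) (.e (nat_lit 6113) (nat_lit 332) .nil))))))) (.g (nat_lit 4) .nil .nil)))) (.nd (nat_lit 6) 
(.lf (nat_lit 52796) (.g (nat_lit 542) (.e (nat_lit 1361) (nat_lit 102) (.e (nat_lit 286735) (nat_lit 3) (.e (nat_lit 98373) (nat_lit 29) .nil))) .nil)) 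
(.lf (nat_lit 52860) (.g (nat_lit 2144) (.e (nat_lit 1361) (nat_lit 102) (.e (nat_lit 286759) (nat_lit 12) (.e (nat_lit 385107) (nat_lit 51) (.e (nat_lit 794676) (nat_lit 24) (.e (nat_lit 213030) (nat_lit 11) (.e (nat_lit 24584) (nat_lit 0) (.e (nat_lit 6113) (nat_lit 332) .nil))))))) (.g (nat_lit 5) .nil .nil)))))))) 
(.nd (nat_lit 2) (.nd (nat_lit 3) (.nd (nat_lit 4) (.nd (nat_lit 5) (.nd (nat_lit 6) 
(.lf (nat_lit 52738) (.g (nat_lit 1706) (.e (nat_lit 1361) (nat_lit 102) (.e (nat_lit 286734) (nat_lit 3) (.e (nat_lit 98372) (nat_lit 29) (.e (nat_lit 450579) (nat_lit 5) .nil)))) .nil)) 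
(.lf (nat_lit 52802) (.g (nat_lit 4938) (.e (nat_lit 1361) (nat_lit 102) (.e (nat_lit 286735) (nat_lit 3) (.e (nat_lit 98373) (nat_lit 29) (.e (nat_lit 450580) (nat_lit 5) (.e (nat_lit 532486) (nat_lit 0) .nil))))) .nil))) (.nd (nat_lit 6) 
(.lf (nat_lit 52770) (.g (nat_lit 2503) (.e (nat_lit 1361) (nat_lit 102) (.e (nat_lit 286735) (nat_lit 3) (.e (nat_lit 98367) (nat_lit 27) (.e (nat_lit 434180) (nat_lit 0) (.e (nat_lit 1253) (nat_lit 92) .nil))))) .nil)) 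
(.lf (nat_lit 52834) (.g (nat_lit 501) (.e (nat_lit 1361) (nat_lit 102) (.e (nat_lit 286759) (nat_lit 12) (.e (nat_lit 385047) (nat_lit 21) .nil))) .nil)))) (.nd (nat_lit 5) (.nd (nat_lit 6) 
(.lf (nat_lit 52754) (.g (nat_lit 3072) (.e (nat_lit 1361) (nat_lit 102) (.e (nat_lit 286735) (nat_lit 3) (.e (nat_lit 98356) (nat_lit 26) (.e (nat_lit 426270) (nat_lit 9) (.e (nat_lit 426123) (nat_lit 2) (.e (nat_lit 196661) (nat_lit 12) (.e (nat_lit 57712) (nat_lit 176) .nil))))))) (.g (nat_lit 5) .nil .nil))) 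
(.lf (nat_lit 52818) (.g (nat_lit 1638) (.e (nat_lit 1361) (nat_lit 102) (.e (nat_lit 286735) (nat_lit 3) (.e (nat_lit 98382) (nat_lit 31) (.e (nat_lit 466976) (nat_lit 22) (.e (nat_lit 196661) (nat_lit 12) (.e (nat_lit 57712) (nat_lit 176) .nil)))))) (.g (nat_lit 5) .nil .nil)))) (.nd (nat_lit 6) 
(.lf (nat_lit 52786) (.g (nat_lit 3051) (.e (nat_lit 1361) (nat_lit 102) (.e (nat_lit 286735) (nat_lit 3) (.e (nat_lit 98370) (nat_lit 28) (.e (nat_lit 442427) (nat_lit 23) (.e (nat_lit 212736) (nat_lit 17) .nil))))) .nil)) 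
(.lf (nat_lit 52850) (.g (nat_lit 2117) (.e (nat_lit 1361) (nat_lit 102) (.e (nat_lit 286759) (nat_lit 12) (.e (nat_lit 385106) (nat_lit 50) (.e (nat_lit 786481) (nat_lit 30) (.e (nat_lit 360455) (nat_lit 0) .nil))))) .nil))))) (.nd (nat_lit 4) (.nd (nat_lit 5) (.nd (nat_lit 6) 
(.lf (nat_lit 52746) (.g (nat_lit 358) (.e (nat_lit 1361) (nat_lit 102) (.e (nat_lit 286735) (nat_lit 3) (.e (nat_lit 98353) (nat_lit 25) .nil))) .nil)) 
(.lf (nat_lit 52810) (.g (nat_lit 3604) (.e (nat_lit 1361) (nat_lit 102) (.e (nat_lit 286735) (nat_lit 3) (.e (nat_lit 98373) (nat_lit 29) (.e (nat_lit 450588) (nat_lit 10) (.e (nat_lit 573452) (nat_lit 9) (.e (nat_lit 59) (nat_lit 0) (.e (nat_lit 6988) (nat_lit 377) .nil))))))) (.g (nat_lit 4) .nil .nil)))) (.nd (nat_lit 6) 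
(.lf (nat_lit 52778) (.g (nat_lit 1823) (.e (nat_lit 1361) (nat_lit 102) (.e (nat_lit 286735) (nat_lit 3) (.e (nat_lit 98370) (nat_lit 28) (.e (nat_lit 442422) (nat_lit 22) .nil)))) .nil)) 
(.lf (nat_lit 52842) (.g (nat_lit 5169) (.e (nat_lit 1361) (nat_lit 102) (.e (nat_lit 286759) (nat_lit 12) (.e (nat_lit 385074) (nat_lit 31) (.e (nat_lit 573482) (nat_lit 13) (.e (nat_lit 65597) (nat_lit 9) .nil))))) .nil)))) (.nd (nat_lit 5) (.nd (nat_lit 6) 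
(.lf (nat_lit 52762) (.g (nat_lit 2713) (.e (nat_lit 1361) (nat_lit 102) (.e (nat_lit 286735) (nat_lit 3) (.e (nat_lit 98359) (nat_lit 26) (.e (nat_lit 426219) (nat_lit 9) (.e (nat_lit 426125) (nat_lit 2) (.e (nat_lit 196661) (nat_lit 12) (.e (nat_lit 57712) (nat_lit 176) .nil))))))) (.g (nat_lit 4) .nil .nil))) 
(.lf (nat_lit 52826) (.g (nat_lit 1204) (.e (nat_lit 1361) (nat_lit 102) (.e (nat_lit 286743) (nat_lit 9) (.e (nat_lit 336433) (nat_lit 30) (.e (nat_lit 450569) (nat_lit 0) (.e (nat_lit 5949) (nat_lit 322) (.e (nat_lit 57350) (nat_lit 0) (.e (nat_lit 6113) (nat_lit 332) .nil))))))) (.g (nat_lit 5) .nil .nil)))) (.nd (nat_lit 6) 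
(.lf (nat_lit 52794) (.g (nat_lit 2586) (.e (nat_lit 1361) (nat_lit 102) (.e (nat_lit 286735) (nat_lit 3) (.e (nat_lit 98372) (nat_lit 29) (.e (nat_lit 450580) (nat_lit 5) (.e (nat_lit 532486) (nat_lit 0) (.e (nat_lit 6113) (nat_lit 332) .nil)))))) (.g (nat_lit 4) .nil .nil))) 
(.lf (nat_lit 52858) (.g (nat_lit 2148) (.e (nat_lit 1361) (nat_lit 102) (.e (nat_lit 286759) (nat_lit 12) (.e (nat_lit 385106) (nat_lit 50) (.e (nat_lit 786483) (nat_lit 30) (.e (nat_lit 360483) (nat_lit 15) (.e (nat_lit 655104) (nat_lit 14) .nil)))))) (.g (nat_lit 5) .nil .nil))))))) (.nd (nat_lit 3) (.nd (nat_lit 4) (.nd (nat_lit 5) (.nd (nat_lit 6) 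
(.lf (nat_lit 52742) (.g (nat_lit 2303) (.e (nat_lit 1361) (nat_lit 102) (.e (nat_lit 286735) (nat_lit 3) (.e (nat_lit 98325) (nat_lit 17) (.e (nat_lit 7936) (nat_lit 393) (.e (nat_lit 180243) (nat_lit 5) (.e (nat_lit 532486) (nat_lit 0) (.e (nat_lit 6113) (nat_lit 332) .nil))))))) (.g (nat_lit 5) .nil .nil))) 
(.lf (nat_lit 52806) (.g (nat_lit 2427) (.e (nat_lit 1361) (nat_lit 102) (.e (nat_lit 286735) (nat_lit 3) (.e (nat_lit 98373) (nat_lit 29) (.e (nat_lit 450588) (nat_lit 10) .nil)))) .nil))) (.nd (nat_lit 6) 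
(.lf (nat_lit 52774) (.g (nat_lit 2468) (.e (nat_lit 1361) (nat_lit 102) (.e (nat_lit 286735) (nat_lit 3) (.e (nat_lit 98369) (nat_lit 28) (.e (nat_lit 442427) (nat_lit 23) (.e (nat_lit 204814) (nat_lit 17) .nil))))) .nil)) 
(.lf (nat_lit 52838) (.g (nat_lit 4387) (.e (nat_lit 1361) (nat_lit 102) (.e (nat_lit 286759) (nat_lit 12) (.e (nat_lit 385074) (nat_lit 31) (.e (nat_lit 573481) (nat_lit 13) (.e (nat_lit 65598) (nat_lit 9) .nil))))) .nil)))) (.nd (nat_lit 5) (.nd (nat_lit 6) 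
(.lf (nat_lit 52758) (.g (nat_lit 2770) (.e (nat_lit 1361) (nat_lit 102) (.e (nat_lit 286735) (nat_lit 3) (.e (nat_lit 98359) (nat_lit 26) (.e (nat_lit 426207) (nat_lit 9) (.e (nat_lit 426125) (nat_lit 2) (.e (nat_lit 196661) (nat_lit 12) (.e (nat_lit 57712) (nat_lit 176) .nil))))))) (.g (nat_lit 4) .nil .nil))) 
(.lf (nat_lit 52822) (.g (nat_lit 1241) (.e (nat_lit 1361) (nat_lit 102) (.e (nat_lit 286743) (nat_lit 9) (.e (nat_lit 336427) (nat_lit 29) (.e (nat_lit 442428) (nat_lit 24) (.e (nat_lit 229681) (nat_lit 244) .nil))))) .nil))) (.nd (nat_lit 6) 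
(.lf (nat_lit 52790) (.g (nat_lit 402) (.e (nat_lit 1361) (nat_lit 102) (.e (nat_lit 286735) (nat_lit 3) (.e (nat_lit 98372) (nat_lit 29) .nil))) .nil)) 
(.lf (nat_lit 52854) (.g (nat_lit 2071) (.e (nat_lit 1361) (nat_lit 102) (.e (nat_lit 286759) (nat_lit 12) (.e (nat_lit 385106) (nat_lit 50) (.e (nat_lit 786483) (nat_lit 30) (.e (nat_lit 360451) (nat_lit 0) (.e (nat_lit 5429) (nat_lit 306) (.e (nat_lit 12) (nat_lit 0) .nil))))))) (.g (nat_lit 4) .nil .nil)))))) (.nd (nat_lit 4) (.nd (nat_lit 5) (.nd (nat_lit 6) 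
(.lf (nat_lit 52750) (.g (nat_lit 1887) (.e (nat_lit 1361) (nat_lit 102) (.e (nat_lit 286735) (nat_lit 3) (.e (nat_lit 98356) (nat_lit 26) (.e (nat_lit 426244) (nat_lit 9) (.e (nat_lit 426137) (nat_lit 3) .nil))))) .nil)) 
(.lf (nat_lit 52814) (.g (nat_lit 1951) (.e (nat_lit 1361) (nat_lit 102) (.e (nat_lit 286735) (nat_lit 3) (.e (nat_lit 98381) (nat_lit 31) (.e (nat_lit 466976) (nat_lit 22) (.e (nat_lit 196661) (nat_lit 12) (.e (nat_lit 57712) (nat_lit 176) .nil)))))) (.g (nat_lit 4) .nil .nil)))) (.nd (nat_lit 6) 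
(.lf (nat_lit 52782) (.g (nat_lit 3671) (.e (nat_lit 1361) (nat_lit 102) (.e (nat_lit 286735) (nat_lit 3) (.e (nat_lit 98370) (nat_lit 28) (.e (nat_lit 442427) (nat_lit 23) (.e (nat_lit 204814) (nat_lit 17) (.e (nat_lit 6113) (nat_lit 332) .nil)))))) (.g (nat_lit 4) .nil .nil))) 
(.lf (nat_lit 52846) (.g (nat_lit 3608) (.e (nat_lit 1361) (nat_lit 102) (.e (nat_lit 286759) (nat_lit 12) (.e (nat_lit 385074) (nat_lit 31) (.e (nat_lit 573491) (nat_lit 15) (.e (nat_lit 81947) (nat_lit 20) .nil))))) .nil)))) (.nd (nat_lit 5) (.nd (nat_lit 6) 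
(.lf (nat_lit 52766) (.g (nat_lit 2906) (.e (nat_lit 1361) (nat_lit 102) (.e (nat_lit 286735) (nat_lit 3) (.e (nat_lit 98359) (nat_lit 26) (.e (nat_lit 426286) (nat_lit 10) (.e (nat_lit 434231) (nat_lit 23) .nil))))) .nil)) 
(.lf (nat_lit 52830) (.g (nat_lit 1771) (.e (nat_lit 1361) (nat_lit 102) (.e (nat_lit 286743) (nat_lit 9) (.e (nat_lit 336444) (nat_lit 32) (.e (nat_lit 466972) (nat_lit 21) (.e (nat_lit 164402) (nat_lit 256) (.e (nat_lit 57350) (nat_lit 0) (.e (nat_lit 6113) (nat_lit 332) .nil))))))) (.g (nat_lit 5) .nil .nil)))) (.nd (nat_lit 6) 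
(.lf (nat_lit 52798) (.g (nat_lit 3935) (.e (nat_lit 1361) (nat_lit 102) (.e (nat_lit 286735) (nat_lit 3) (.e (nat_lit 98373) (nat_lit 29) (.e (nat_lit 450562) (nat_lit 0) (.e (nat_lit 4284) (nat_lit 253) .nil))))) .nil)) 
(.lf (nat_lit 52862) (.g (nat_lit 2431) (.e (nat_lit 1361) (nat_lit 102) (.e (nat_lit 286759) (nat_lit 12) (.e (nat_lit 385107) (nat_lit 51) (.e (nat_lit 794680) (nat_lit 24) (.e (nat_lit 213030) (nat_lit 11) (.e (nat_lit 24584) (nat_lit 0) (.e (nat_lit 6113) (nat_lit 332) .nil))))))) (.g (nat_lit 6) .nil .nil))))))))) 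
(.nd (nat_lit 1) (.nd (nat_lit 2) (.nd (nat_lit 3) (.nd (nat_lit 4) (.nd (nat_lit 5) 
(.nd (nat_lit 6) 
(.lf (nat_lit 52737) (.g (nat_lit 1457) (.e (nat_lit 1361) (nat_lit 102) (.e (nat_lit 286734) (nat_lit 3) (.e (nat_lit 98370) (nat_lit 28) (.e (nat_lit 442424) (nat_lit 22) .nil)))) .nil)) 
(.lf (nat_lit 52801) (.g (nat_lit 2947) (.e (nat_lit 1361) (nat_lit 102) (.e (nat_lit 286735) (nat_lit 3) (.e (nat_lit 98373) (nat_lit 29) (.e (nat_lit 450578) (nat_lit 5) .nil)))) .nil))) (.nd (nat_lit 6) 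
(.lf (nat_lit 52769) (.g (nat_lit 3483) (.e (nat_lit 1361) (nat_lit 102) (.e (nat_lit 286735) (nat_lit 3) (.e (nat_lit 98365) (nat_lit 26) (.e (nat_lit 426298) (nat_lit 11) (.e (nat_lit 458789) (nat_lit 23) (.e (nat_lit 532486) (nat_lit 0) (.e (nat_lit 6113) (nat_lit 332) .nil))))))) (.g (nat_lit 6) .nil .nil))) 
(.lf (nat_lit 52833) (.g (nat_lit 1782) (.e (nat_lit 1361) (nat_lit 102) (.e (nat_lit 286754) (nat_lit 10) (.e (nat_lit 344177) (nat_lit 43) (.e (nat_lit 770074) (nat_lit 10) (.e (nat_lit 81920) (nat_lit 0) .nil))))) .nil)))) (.nd (nat_lit 5) (.nd (nat_lit 6) 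
(.lf (nat_lit 52753) (.g (nat_lit 2055) (.e (nat_lit 1361) (nat_lit 102) (.e (nat_lit 286735) (nat_lit 3) (.e (nat_lit 98356) (nat_lit 26) (.e (nat_lit 426248) (nat_lit 9) .nil)))) .nil)) 
(.lf (nat_lit 52817) (.g (nat_lit 2176) (.e (nat_lit 1361) (nat_lit 102) (.e (nat_lit 286735) (nat_lit 3) (.e (nat_lit 98382) (nat_lit 31) (.e (nat_lit 466974) (nat_lit 22) (.e (nat_lit 196661) (nat_lit 12) (.e (nat_lit 57712) (nat_lit 176) .nil)))))) (.g (nat_lit 5) .nil .nil)))) (.nd (nat_lit 6) 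
(.lf (nat_lit 52785) (.g (nat_lit 3130) (.e (nat_lit 1361) (nat_lit 102) (.e (nat_lit 286735) (nat_lit 3) (.e (nat_lit 98370) (nat_lit 28) (.e (nat_lit 442427) (nat_lit 23) (.e (nat_lit 204821) (nat_lit 17) (.e (nat_lit 6114) (nat_lit 332) .nil)))))) (.g (nat_lit 5) .nil .nil))) 
(.lf (nat_lit 52849) (.g (nat_lit 2502) (.e (nat_lit 1361) (nat_lit 102) (.e (nat_lit 286759) (nat_lit 12) (.e (nat_lit 385094) (nat_lit 49) (.e (nat_lit 778326) (nat_lit 6) .nil)))) .nil))))) (.nd (nat_lit 4) (.nd (nat_lit 5) (.nd (nat_lit 6) 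
(.lf (nat_lit 52745) (.g (nat_lit 2169) (.e (nat_lit 1361) (nat_lit 102) (.e (nat_lit 286735) (nat_lit 3) (.e (nat_lit 98350) (nat_lit 24) (.e (nat_lit 409603) (nat_lit 0) .nil)))) .nil)) 
(.lf (nat_lit 52809) (.g (nat_lit 4475) (.e (nat_lit 1361) (nat_lit 102) (.e (nat_lit 286735) (nat_lit 3) (.e (nat_lit 98373) (nat_lit 29) (.e (nat_lit 450588) (nat_lit 10) (.e (nat_lit 573452) (nat_lit 9) (.e (nat_lit 11) (nat_lit 0) (.e (nat_lit 6989) (nat_lit 377) .nil))))))) (.g (nat_lit 5) .nil .nil)))) (.nd (nat_lit 6) 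
(.lf (nat_lit 52777) (.g (nat_lit 2889) (.e (nat_lit 1361) (nat_lit 102) (.e (nat_lit 286735) (nat_lit 3) (.e (nat_lit 98369) (nat_lit 28) (.e (nat_lit 442427) (nat_lit 23) (.e (nat_lit 204821) (nat_lit 17) (.e (nat_lit 6114) (nat_lit 332) .nil)))))) (.g (nat_lit 5) .nil .nil))) 
(.lf (nat_lit 52841) (.g (nat_lit 4998) (.e (nat_lit 1361) (nat_lit 102) (.e (nat_lit 286759) (nat_lit 12) (.e (nat_lit 385074) (nat_lit 31) (.e (nat_lit 573482) (nat_lit 13) (.e (nat_lit 65595) (nat_lit 9) .nil))))) .nil)))) (.nd (nat_lit 5) (.nd (nat_lit 6) 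
(.lf (nat_lit 52761) (.g (nat_lit 2566) (.e (nat_lit 1361) (nat_lit 102) (.e (nat_lit 286735) (nat_lit 3) (.e (nat_lit 98359) (nat_lit 26) (.e (nat_lit 426216) (nat_lit 9) (.e (nat_lit 426125) (nat_lit 2) (.e (nat_lit 196661) (nat_lit 12) (.e (nat_lit 57712) (nat_lit 176) .nil))))))) (.g (nat_lit 4) .nil .nil))) 
(.lf (nat_lit 52825) (.g (nat_lit 1099) (.e (nat_lit 1361) (nat_lit 102) (.e (nat_lit 286743) (nat_lit 9) (.e (nat_lit 336433) (nat_lit 30) (.e (nat_lit 450569) (nat_lit 0) (.e (nat_lit 5947) (nat_lit 322) (.e (nat_lit 57350) (nat_lit 0) (.e (nat_lit 6113) (nat_lit 332) .nil))))))) (.g (nat_lit 5) .nil .nil)))) (.nd (nat_lit 6) 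
(.lf (nat_lit 52793) (.g (nat_lit 3356) (.e (nat_lit 1361) (nat_lit 102) (.e (nat_lit 286735) (nat_lit 3) (.e (nat_lit 98372) (nat_lit 29) (.e (nat_lit 450579) (nat_lit 5) (.e (nat_lit 532480) (nat_lit 0) (.e (nat_lit 6113) (nat_lit 332) .nil)))))) (.g (nat_lit 0) .nil .nil))) 
(.lf (nat_lit 52857) (.g (nat_lit 1962) (.e (nat_lit 1361) (nat_lit 102) (.e (nat_lit 286759) (nat_lit 12) (.e (nat_lit 385106) (nat_lit 50) (.e (nat_lit 786483) (nat_lit 30) (.e (nat_lit 368384) (nat_lit 0) .nil))))) .nil)))))) (.nd (nat_lit 3) (.nd (nat_lit 4) (.nd (nat_lit 5) (.nd (nat_lit 6) 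
(.lf (nat_lit 52741) (.g (nat_lit 2359) (.e (nat_lit 1361) (nat_lit 102) (.e (nat_lit 286735) (nat_lit 3) (.e (nat_lit 98325) (nat_lit 17) (.e (nat_lit 6986) (nat_lit 377) (.e (nat_lit 1376) (nat_lit 104) (.e (nat_lit 303119) (nat_lit 3) (.e (nat_lit 204819) (nat_lit 17) (.e (nat_lit 6113) (nat_lit 332) .nil)))))))) (.g (nat_lit 4) .nil .nil))) 
(.lf (nat_lit 52805) (.g (nat_lit 2310) (.e (nat_lit 1361) (nat_lit 102) (.e (nat_lit 286735) (nat_lit 3) (.e (nat_lit 98373) (nat_lit 29) (.e (nat_lit 450587) (nat_lit 10) (.e (nat_lit 573457) (nat_lit 9) .nil))))) .nil))) (.nd (nat_lit 6) 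
(.lf (nat_lit 52773) (.g (nat_lit 3022) (.e (nat_lit 1361) (nat_lit 102) (.e (nat_lit 286735) (nat_lit 3) (.e (nat_lit 98369) (nat_lit 28) (.e (nat_lit 442425) (nat_lit 23) (.e (nat_lit 204819) (nat_lit 17) (.e (nat_lit 6113) (nat_lit 332) .nil)))))) (.g (nat_lit 6) .nil .nil))) 
(.lf (nat_lit 52837) (.g (nat_lit 2789) (.e (nat_lit 1361) (nat_lit 102) (.e (nat_lit 286759) (nat_lit 12) (.e (nat_lit 385074) (nat_lit 31) (.e (nat_lit 573479) (nat_lit 13) .nil)))) .nil)))) (.nd (nat_lit 5) (.nd (nat_lit 6) 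
(.lf (nat_lit 52757) (.g (nat_lit 1874) (.e (nat_lit 1361) (nat_lit 102) (.e (nat_lit 286735) (nat_lit 3) (.e (nat_lit 98359) (nat_lit 26) (.e (nat_lit 426185) (nat_lit 9) .nil)))) .nil)) 
(.lf (nat_lit 52821) (.g (nat_lit 2644) (.e (nat_lit 1361) (nat_lit 102) (.e (nat_lit 286743) (nat_lit 9) (.e (nat_lit 336426) (nat_lit 29) (.e (nat_lit 442430) (nat_lit 24) (.e (nat_lit 229678) (nat_lit 244) (.e (nat_lit 163846) (nat_lit 0) (.e (nat_lit 6989) (nat_lit 377) .nil))))))) (.g (nat_lit 6) .nil .nil)))) (.nd (nat_lit 6) 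
(.lf (nat_lit 52789) (.g (nat_lit 2385) (.e (nat_lit 1361) (nat_lit 102) (.e (nat_lit 286735) (nat_lit 3) (.e (nat_lit 98371) (nat_lit 28) (.e (nat_lit 442427) (nat_lit 23) (.e (nat_lit 204821) (nat_lit 17) (.e (nat_lit 6114) (nat_lit 332) .nil)))))) (.g (nat_lit 6) .nil .nil))) 
(.lf (nat_lit 52853) (.g (nat_lit 2413) (.e (nat_lit 1361) (nat_lit 102) (.e (nat_lit 286759) (nat_lit 12) (.e (nat_lit 385106) (nat_lit 50) (.e (nat_lit 786483) (nat_lit 30) (.e (nat_lit 360451) (nat_lit 0) (.e (nat_lit 5429) (nat_lit 306) (.e (nat_lit 11) (nat_lit 0) .nil))))))) (.g (nat_lit 5) .nil .nil)))))) (.nd (nat_lit 4) (.nd (nat_lit 5) (.nd (nat_lit 6) 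
(.lf (nat_lit 52749) (.g (nat_lit 1884) (.e (nat_lit 1361) (nat_lit 102) (.e (nat_lit 286735) (nat_lit 3) (.e (nat_lit 98356) (nat_lit 26) (.e (nat_lit 426244) (nat_lit 9) (.e (nat_lit 426123) (nat_lit 2) .nil))))) .nil)) 
(.lf (nat_lit 52813) (.g (nat_lit 2214) (.e (nat_lit 1361) (nat_lit 102) (.e (nat_lit 286735) (nat_lit 3) (.e (nat_lit 98381) (nat_lit 31) (.e (nat_lit 466967) (nat_lit 20) (.e (nat_lit 3253) (nat_lit 197) (.e (nat_lit 532486) (nat_lit 0) (.e (nat_lit 6113) (nat_lit 332) .nil))))))) (.g (nat_lit 5) .nil .nil)))) (.nd (nat_lit 6) 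
(.lf (nat_lit 52781) (.g (nat_lit 1627) (.e (nat_lit 1361) (nat_lit 102) (.e (nat_lit 286735) (nat_lit 3) (.e (nat_lit 98370) (nat_lit 28) (.e (nat_lit 442425) (nat_lit 23) .nil)))) .nil)) 
(.lf (nat_lit 52845) (.g (nat_lit 4649) (.e (nat_lit 1361) (nat_lit 102) (.e (nat_lit 286759) (nat_lit 12) (.e (nat_lit 385074) (nat_lit 31) (.e (nat_lit 573482) (nat_lit 13) (.e (nat_lit 65604) (nat_lit 9) .nil))))) .nil)))) (.nd (nat_lit 5) (.nd (nat_lit 6) 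
(.lf (nat_lit 52765) (.g (nat_lit 2680) (.e (nat_lit 1361) (nat_lit 102) (.e (nat_lit 286735) (nat_lit 3) (.e (nat_lit 98359) (nat_lit 26) (.e (nat_lit 426285) (nat_lit 10) (.e (nat_lit 434231) (nat_lit 23) .nil))))) .nil)) 
(.lf (nat_lit 52829) (.g (nat_lit 1769) (.e (nat_lit 1361) (nat_lit 102) (.e (nat_lit 286743) (nat_lit 9) (.e (nat_lit 336444) (nat_lit 32) (.e (nat_lit 466971) (nat_lit 21) (.e (nat_lit 164401) (nat_lit 256) (.e (nat_lit 57350) (nat_lit 0) (.e (nat_lit 6113) (nat_lit 332) .nil))))))) (.g (nat_lit 5) .nil .nil)))) (.nd (nat_lit 6) 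
(.lf (nat_lit 52797) (.g (nat_lit 2237) (.e (nat_lit 1361) (nat_lit 102) (.e (nat_lit 286735) (nat_lit 3) (.e (nat_lit 98373) (nat_lit 29) (.e (nat_lit 450562) (nat_lit 0) .nil)))) .nil)) 
(.lf (nat_lit 52861) (.g (nat_lit 2334) (.e (nat_lit 1361) (nat_lit 102) (.e (nat_lit 286759) (nat_lit 12) (.e (nat_lit 385107) (nat_lit 51) (.e (nat_lit 794677) (nat_lit 24) (.e (nat_lit 213030) (nat_lit 11) (.e (nat_lit 24584) (nat_lit 0) (.e (nat_lit 6113) (nat_lit 332) .nil))))))) (.g (nat_lit 6) .nil .nil)))))))) 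
(.nd (nat_lit 2) (.nd (nat_lit 3) (.nd (nat_lit 4) (.nd (nat_lit 5) (.nd (nat_lit 6) 
(.lf (nat_lit 52739) (.g (nat_lit 1934) (.e (nat_lit 1361) (nat_lit 102) (.e (nat_lit 286735) (nat_lit 3) (.e (nat_lit 98323) (nat_lit 17) (.e (nat_lit 6989) (nat_lit 377) (.e (nat_lit 1376) (nat_lit 104) .nil))))) .nil)) 
(.lf (nat_lit 52803) (.g (nat_lit 2800) (.e (nat_lit 1361) (nat_lit 102) (.e (nat_lit 286735) (nat_lit 3) (.e (nat_lit 98373) (nat_lit 29) (.e (nat_lit 450581) (nat_lit 5) (.e (nat_lit 532486) (nat_lit 0) (.e (nat_lit 6113) (nat_lit 332) .nil)))))) (.g (nat_lit 4) .nil .nil)))) (.nd (nat_lit 6) 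
(.lf (nat_lit 52771) (.g (nat_lit 2294) (.e (nat_lit 1361) (nat_lit 102) (.e (nat_lit 286735) (nat_lit 3) (.e (nat_lit 98369) (nat_lit 28) (.e (nat_lit 442422) (nat_lit 22) (.e (nat_lit 196661) (nat_lit 12) (.e (nat_lit 57712) (nat_lit 176) .nil)))))) (.g (nat_lit 6) .nil .nil))) 
(.lf (nat_lit 52835) (.g (nat_lit 538) (.e (nat_lit 1361) (nat_lit 102) (.e (nat_lit 286759) (nat_lit 12) (.e (nat_lit 385068) (nat_lit 26) .nil))) .nil)))) (.nd (nat_lit 5) (.nd (nat_lit 6) 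
(.lf (nat_lit 52755) (.g (nat_lit 3621) (.e (nat_lit 1361) (nat_lit 102) (.e (nat_lit 286735) (nat_lit 3) (.e (nat_lit 98356) (nat_lit 26) (.e (nat_lit 426270) (nat_lit 9) (.e (nat_lit 426139) (nat_lit 3) (.e (nat_lit 204819) (nat_lit 17) (.e (nat_lit 6113) (nat_lit 332) .nil))))))) (.g (nat_lit 5) .nil .nil))) 
(.lf (nat_lit 52819) (.g (nat_lit 1766) (.e (nat_lit 1361) (nat_lit 102) (.e (nat_lit 286735) (nat_lit 3) (.e (nat_lit 98382) (nat_lit 31) (.e (nat_lit 466977) (nat_lit 22) (.e (nat_lit 196661) (nat_lit 12) .nil))))) .nil))) (.nd (nat_lit 6) 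
(.lf (nat_lit 52787) (.g (nat_lit 1725) (.e (nat_lit 1361) (nat_lit 102) (.e (nat_lit 286735) (nat_lit 3) (.e (nat_lit 98371) (nat_lit 28) (.e (nat_lit 442422) (nat_lit 22) (.e (nat_lit 196661) (nat_lit 12) (.e (nat_lit 57712) (nat_lit 176) .nil)))))) (.g (nat_lit 5) .nil .nil))) 
(.lf (nat_lit 52851) (.g (nat_lit 1810) (.e (nat_lit 1361) (nat_lit 102) (.e (nat_lit 286759) (nat_lit 12) (.e (nat_lit 385106) (nat_lit 50) (.e (nat_lit 786481) (nat_lit 30) (.e (nat_lit 368384) (nat_lit 0) .nil))))) .nil))))) (.nd (nat_lit 4) (.nd (nat_lit 5) (.nd (nat_lit 6) 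
(.lf (nat_lit 52747) (.g (nat_lit 2552) (.e (nat_lit 1361) (nat_lit 102) (.e (nat_lit 286735) (nat_lit 3) (.e (nat_lit 98353) (nat_lit 25) (.e (nat_lit 417810) (nat_lit 6) (.e (nat_lit 286734) (nat_lit 3) (.e (nat_lit 98323) (nat_lit 17) (.e (nat_lit 6989) (nat_lit 377) .nil))))))) (.g (nat_lit 5) .nil .nil))) 
(.lf (nat_lit 52811) (.g (nat_lit 428) (.e (nat_lit 1361) (nat_lit 102) (.e (nat_lit 286735) (nat_lit 3) (.e (nat_lit 98374) (nat_lit 29) .nil))) .nil))) (.nd (nat_lit 6) 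
(.lf (nat_lit 52779) (.g (nat_lit 1655) (.e (nat_lit 1361) (nat_lit 102) (.e (nat_lit 286735) (nat_lit 3) (.e (nat_lit 98370) (nat_lit 28) (.e (nat_lit 442423) (nat_lit 22) .nil)))) .nil)) 
(.lf (nat_lit 52843) (.g (nat_lit 5137) (.e (nat_lit 1361) (nat_lit 102) (.e (nat_lit 286759) (nat_lit 12) (.e (nat_lit 385074) (nat_lit 31) (.e (nat_lit 573482) (nat_lit 13) (.e (nat_lit 65601) (nat_lit 9) .nil))))) .nil)))) (.nd (nat_lit 5) (.nd (nat_lit 6) 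
(.lf (nat_lit 52763) (.g (nat_lit 1877) (.e (nat_lit 1361) (nat_lit 102) (.e (nat_lit 286735) (nat_lit 3) (.e (nat_lit 98359) (nat_lit 26) (.e (nat_lit 426275) (nat_lit 10) .nil)))) .nil)) 
(.lf (nat_lit 52827) (.g (nat_lit 1169) (.e (nat_lit 1361) (nat_lit 102) (.e (nat_lit 286743) (nat_lit 9) (.e (nat_lit 336434) (nat_lit 30) (.e (nat_lit 450568) (nat_lit 0) (.e (nat_lit 5949) (nat_lit 322) (.e (nat_lit 57350) (nat_lit 0) (.e (nat_lit 6113) (nat_lit 332) .nil))))))) (.g (nat_lit 4) .nil .nil)))) (.nd (nat_lit 6) 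
(.lf (nat_lit 52795) (.g (nat_lit 2218) (.e (nat_lit 1361) (nat_lit 102) (.e (nat_lit 286735) (nat_lit 3) (.e (nat_lit 98372) (nat_lit 29) (.e (nat_lit 450581) (nat_lit 5) (.e (nat_lit 532486) (nat_lit 0) (.e (nat_lit 6113) (nat_lit 332) .nil)))))) (.g (nat_lit 5) .nil .nil))) 
(.lf (nat_lit 52859) (.g (nat_lit 2607) (.e (nat_lit 1361) (nat_lit 102) (.e (nat_lit 286759) (nat_lit 12) (.e (nat_lit 385106) (nat_lit 50) (.e (nat_lit 786483) (nat_lit 30) (.e (nat_lit 360484) (nat_lit 15) (.e (nat_lit 655104) (nat_lit 14) .nil)))))) (.g (nat_lit 5) .nil .nil))))))) (.nd (nat_lit 3) (.nd (nat_lit 4) (.nd (nat_lit 5) (.nd (nat_lit 6) 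
(.lf (nat_lit 52743) (.g (nat_lit 613) (.e (nat_lit 1361) (nat_lit 102) (.e (nat_lit 286735) (nat_lit 3) (.e (nat_lit 98349) (nat_lit 24) .nil))) .nil)) 
(.lf (nat_lit 52807) (.g (nat_lit 5490) (.e (nat_lit 1361) (nat_lit 102) (.e (nat_lit 286735) (nat_lit 3) (.e (nat_lit 98373) (nat_lit 29) (.e (nat_lit 450588) (nat_lit 10) (.e (nat_lit 573451) (nat_lit 9) .nil))))) .nil))) (.nd (nat_lit 6) 
(.lf (nat_lit 52775) (.g (nat_lit 3333) (.e (nat_lit 1361) (nat_lit 102) (.e (nat_lit 286735) (nat_lit 3) (.e (nat_lit 98369) (nat_lit 28) (.e (nat_lit 442427) (nat_lit 23) (.e (nat_lit 204819) (nat_lit 17) (.e (nat_lit 6113) (nat_lit 332) .nil)))))) (.g (nat_lit 5) .nil .nil))) 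
(.lf (nat_lit 52839) (.g (nat_lit 2646) (.e (nat_lit 1361) (nat_lit 102) (.e (nat_lit 286759) (nat_lit 12) (.e (nat_lit 385074) (nat_lit 31) (.e (nat_lit 573482) (nat_lit 13) .nil)))) .nil)))) (.nd (nat_lit 5) (.nd (nat_lit 6) 
(.lf (nat_lit 52759) (.g (nat_lit 4341) (.e (nat_lit 1361) (nat_lit 102) (.e (nat_lit 286735) (nat_lit 3) (.e (nat_lit 98359) (nat_lit 26) (.e (nat_lit 426208) (nat_lit 9) (.e (nat_lit 426125) (nat_lit 2) (.e (nat_lit 196661) (nat_lit 12) (.e (nat_lit 57712) (nat_lit 176) .nil))))))) (.g (nat_lit 6) .nil .nil))) 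
(.lf (nat_lit 52823) (.g (nat_lit 1270) (.e (nat_lit 1361) (nat_lit 102) (.e (nat_lit 286743) (nat_lit 9) (.e (nat_lit 336433) (nat_lit 30) (.e (nat_lit 450563) (nat_lit 0) (.e (nat_lit 5934) (nat_lit 322) .nil))))) .nil))) (.nd (nat_lit 6) 
(.lf (nat_lit 52791) (.g (nat_lit 1835) (.e (nat_lit 1361) (nat_lit 102) (.e (nat_lit 286735) (nat_lit 3) (.e (nat_lit 98372) (nat_lit 29) (.e (nat_lit 450571) (nat_lit 1) .nil)))) .nil)) 
(.lf (nat_lit 52855) (.g (nat_lit 2075) (.e (nat_lit 1361) (nat_lit 102) (.e (nat_lit 286759) (nat_lit 12) (.e (nat_lit 385106) (nat_lit 50) (.e (nat_lit 786483) (nat_lit 30) (.e (nat_lit 360451) (nat_lit 0) (.e (nat_lit 5429) (nat_lit 306) (.e (nat_lit 21) (nat_lit 0) .nil))))))) (.g (nat_lit 4) .nil .nil)))))) (.nd (nat_lit 4) (.nd (nat_lit 5) (.nd (nat_lit 6) 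
(.lf (nat_lit 52751) (.g (nat_lit 3224) (.e (nat_lit 1361) (nat_lit 102) (.e (nat_lit 286735) (nat_lit 3) (.e (nat_lit 98356) (nat_lit 26) (.e (nat_lit 426244) (nat_lit 9) (.e (nat_lit 426139) (nat_lit 3) (.e (nat_lit 204819) (nat_lit 17) (.e (nat_lit 6113) (nat_lit 332) .nil))))))) (.g (nat_lit 5) .nil .nil))) 
(.lf (nat_lit 52815) (.g (nat_lit 1379) (.e (nat_lit 1361) (nat_lit 102) (.e (nat_lit 286735) (nat_lit 3) (.e (nat_lit 98381) (nat_lit 31) (.e (nat_lit 466980) (nat_lit 23) .nil)))) .nil))) (.nd (nat_lit 6) 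
(.lf (nat_lit 52783) (.g (nat_lit 4389) (.e (nat_lit 1361) (nat_lit 102) (.e (nat_lit 286735) (nat_lit 3) (.e (nat_lit 98370) (nat_lit 28) (.e (nat_lit 442427) (nat_lit 23) (.e (nat_lit 204819) (nat_lit 17) (.e (nat_lit 6113) (nat_lit 332) .nil)))))) (.g (nat_lit 6) .nil .nil))) 
(.lf (nat_lit 52847) (.g (nat_lit 2523) (.e (nat_lit 1361) (nat_lit 102) (.e (nat_lit 286759) (nat_lit 12) (.e (nat_lit 385074) (nat_lit 31) (.e (nat_lit 581376) (nat_lit 15) .nil)))) .nil)))) (.nd (nat_lit 5) (.nd (nat_lit 6) 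
(.lf (nat_lit 52767) (.g (nat_lit 2266) (.e (nat_lit 1361) (nat_lit 102) (.e (nat_lit 286735) (nat_lit 3) (.e (nat_lit 98359) (nat_lit 26) (.e (nat_lit 426290) (nat_lit 10) (.e (nat_lit 434231) (nat_lit 23) .nil))))) .nil)) 
(.lf (nat_lit 52831) (.g (nat_lit 766) (.e (nat_lit 1361) (nat_lit 102) (.e (nat_lit 286748) (nat_lit 9) (.e (nat_lit 336389) (nat_lit 27) .nil))) .nil))) (.nd (nat_lit 6) 
(.lf (nat_lit 52799) (.g (nat_lit 3335) (.e (nat_lit 1361) (nat_lit 102) (.e (nat_lit 286735) (nat_lit 3) (.e (nat_lit 98373) (nat_lit 29) (.e (nat_lit 450574) (nat_lit 1) .nil)))) .nil)) 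
(.lf (nat_lit 52863) (.g (nat_lit 1718) (.e (nat_lit 1361) (nat_lit 102) (.e (nat_lit 286759) (nat_lit 12) (.e (nat_lit 385107) (nat_lit 51) (.e (nat_lit 794681) (nat_lit 25) .nil)))) .nil)))))))))

noncomputable def tv732 : DT := (.nd (nat_lit 0) (.nd (nat_lit 1) (.nd (nat_lit 2) (.nd (nat_lit 3) (.nd (nat_lit 4) (.nd (nat_lit 5) (.nd (nat_lit 6) 
(.lf (nat_lit 52864) (.g (nat_lit 1188) (.e (nat_lit 1361) (nat_lit 102) (.e (nat_lit 286759) (nat_lit 12) (.e (nat_lit 385107) (nat_lit 51) (.e (nat_lit 794683) (nat_lit 25) .nil)))) .nil)) 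
(.lf (nat_lit 52928) (.g (nat_lit 678) (.e (nat_lit 1361) (nat_lit 102) (.e (nat_lit 286761) (nat_lit 13) (.e (nat_lit 393288) (nat_lit 25) .nil))) .nil))) (.nd (nat_lit 6) 
(.lf (nat_lit 52896) (.g (nat_lit 1615) (.e (nat_lit 1361) (nat_lit 102) (.e (nat_lit 286761) (nat_lit 13) (.e (nat_lit 393260) (nat_lit 21) (.e (nat_lit 409623) (nat_lit 10) (.e (nat_lit 5293) (nat_lit 298) .nil))))) .nil)) 
(.lf (nat_lit 52960) (.g (nat_lit 1465) (.e (nat_lit 1361) (nat_lit 102) (.e (nat_lit 286761) (nat_lit 13) (.e (nat_lit 393300) (nat_lit 27) (.e (nat_lit 491553) (nat_lit 9) .nil)))) .nil)))) (.nd (nat_lit 5) (.nd (nat_lit 6) 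
(.lf (nat_lit 52880) (.g (nat_lit 1950) (.e (nat_lit 1361) (nat_lit 102) (.e (nat_lit 286761) (nat_lit 13) (.e (nat_lit 393234) (nat_lit 17) (.e (nat_lit 7495) (nat_lit 402) .nil)))) .nil)) 
(.lf (nat_lit 52944) (.g (nat_lit 2459) (.e (nat_lit 1361) (nat_lit 102) (.e (nat_lit 286761) (nat_lit 13) (.e (nat_lit 393298) (nat_lit 27) (.e (nat_lit 491565) (nat_lit 12) (.e (nat_lit 385032) (nat_lit 16) .nil))))) (.g (nat_lit 4) .nil .nil)))) (.nd (nat_lit 6) 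
(.lf (nat_lit 52912) (.g (nat_lit 391) (.e (nat_lit 1361) (nat_lit 102) (.e (nat_lit 286761) (nat_lit 13) (.e (nat_lit 393265) (nat_lit 22) .nil))) .nil)) 
(.lf (nat_lit 52976) (.g (nat_lit 4645) (.e (nat_lit 1361) (nat_lit 102) (.e (nat_lit 286761) (nat_lit 13) (.e (nat_lit 393301) (nat_lit 27) (.e (nat_lit 491546) (nat_lit 9) (.e (nat_lit 336289) (nat_lit 15) (.e (nat_lit 6988) (nat_lit 377) .nil)))))) (.g (nat_lit 6) .nil .nil)))))) (.nd (nat_lit 4) (.nd (nat_lit 5) (.nd (nat_lit 6) 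
(.lf (nat_lit 52872) (.g (nat_lit 480) (.e (nat_lit 1361) (nat_lit 102) (.e (nat_lit 286761) (nat_lit 13) (.e (nat_lit 393233) (nat_lit 17) .nil))) .nil)) 
(.lf (nat_lit 52936) (.g (nat_lit 1517) (.e (nat_lit 1361) (nat_lit 102) (.e (nat_lit 286761) (nat_lit 13) (.e (nat_lit 393297) (nat_lit 27) (.e (nat_lit 491566) (nat_lit 12) (.e (nat_lit 392960) (nat_lit 16) .nil))))) (.g (nat_lit 4) .nil .nil)))) (.nd (nat_lit 6) 
(.lf (nat_lit 52904) (.g (nat_lit 2381) (.e (nat_lit 1361) (nat_lit 102) (.e (nat_lit 286761) (nat_lit 13) (.e (nat_lit 393260) (nat_lit 21) (.e (nat_lit 409648) (nat_lit 18) (.e (nat_lit 311040) (nat_lit 15) (.e (nat_lit 6113) (nat_lit 332) .nil)))))) (.g (nat_lit 4) .nil .nil))) 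
(.lf (nat_lit 52968) (.g (nat_lit 4092) (.e (nat_lit 1361) (nat_lit 102) (.e (nat_lit 286761) (nat_lit 13) (.e (nat_lit 393301) (nat_lit 27) (.e (nat_lit 491525) (nat_lit 0) .nil)))) .nil)))) (.nd (nat_lit 5) (.nd (nat_lit 6) 
(.lf (nat_lit 52888) (.g (nat_lit 2478) (.e (nat_lit 1361) (nat_lit 102) (.e (nat_lit 286761) (nat_lit 13) (.e (nat_lit 393234) (nat_lit 17) (.e (nat_lit 7589) (nat_lit 406) (.e (nat_lit 65638) (nat_lit 15) (.e (nat_lit 6988) (nat_lit 377) .nil)))))) (.g (nat_lit 4) .nil .nil))) 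
(.lf (nat_lit 52952) (.g (nat_lit 2371) (.e (nat_lit 1361) (nat_lit 102) (.e (nat_lit 286761) (nat_lit 13) (.e (nat_lit 393300) (nat_lit 27) (.e (nat_lit 491547) (nat_lit 9) (.e (nat_lit 336299) (nat_lit 15) .nil))))) .nil))) (.nd (nat_lit 6) 
(.lf (nat_lit 52920) (.g (nat_lit 2629) (.e (nat_lit 1361) (nat_lit 102) (.e (nat_lit 286761) (nat_lit 13) (.e (nat_lit 393265) (nat_lit 22) (.e (nat_lit 417828) (nat_lit 18) (.e (nat_lit 303149) (nat_lit 15) (.e (nat_lit 6112) (nat_lit 332) .nil)))))) (.g (nat_lit 6) .nil .nil))) 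
(.lf (nat_lit 52984) (.g (nat_lit 3326) (.e (nat_lit 1361) (nat_lit 102) (.e (nat_lit 286761) (nat_lit 13) (.e (nat_lit 393301) (nat_lit 27) (.e (nat_lit 491552) (nat_lit 9) (.e (nat_lit 336248) (nat_lit 15) (.e (nat_lit 6988) (nat_lit 377) .nil)))))) (.g (nat_lit 4) .nil .nil))))))) (.nd (nat_lit 3) (.nd (nat_lit 4) (.nd (nat_lit 5) (.nd (nat_lit 6) 
(.lf (nat_lit 52868) (.g (nat_lit 2668) (.e (nat_lit 1361) (nat_lit 102) (.e (nat_lit 286759) (nat_lit 12) (.e (nat_lit 385107) (nat_lit 51) (.e (nat_lit 794684) (nat_lit 25) (.e (nat_lit 221194) (nat_lit 11) (.e (nat_lit 335906) (nat_lit 0) (.e (nat_lit 6113) (nat_lit 332) .nil))))))) (.g (nat_lit 5) .nil .nil))) 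
(.lf (nat_lit 52932) (.g (nat_lit 1710) (.e (nat_lit 1361) (nat_lit 102) (.e (nat_lit 286761) (nat_lit 13) (.e (nat_lit 393293) (nat_lit 26) (.e (nat_lit 475198) (nat_lit 40) (.e (nat_lit 704590) (nat_lit 3) .nil))))) .nil))) (.nd (nat_lit 6) 
(.lf (nat_lit 52900) (.g (nat_lit 1231) (.e (nat_lit 1361) (nat_lit 102) (.e (nat_lit 286761) (nat_lit 13) (.e (nat_lit 393260) (nat_lit 21) (.e (nat_lit 417536) (nat_lit 10) .nil)))) .nil)) 
(.lf (nat_lit 52964) (.g (nat_lit 1320) (.e (nat_lit 1361) (nat_lit 102) (.e (nat_lit 286761) (nat_lit 13) (.e (nat_lit 393300) (nat_lit 27) (.e (nat_lit 491556) (nat_lit 9) .nil)))) .nil)))) (.nd (nat_lit 5) (.nd (nat_lit 6) 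
(.lf (nat_lit 52884) (.g (nat_lit 1453) (.e (nat_lit 1361) (nat_lit 102) (.e (nat_lit 286761) (nat_lit 13) (.e (nat_lit 393234) (nat_lit 17) (.e (nat_lit 7589) (nat_lit 406) .nil)))) .nil)) 
(.lf (nat_lit 52948) (.g (nat_lit 2240) (.e (nat_lit 1361) (nat_lit 102) (.e (nat_lit 286761) (nat_lit 13) (.e (nat_lit 393300) (nat_lit 27) (.e (nat_lit 491546) (nat_lit 9) (.e (nat_lit 336249) (nat_lit 15) (.e (nat_lit 6989) (nat_lit 377) .nil)))))) (.g (nat_lit 4) .nil .nil)))) (.nd (nat_lit 6) 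
(.lf (nat_lit 52916) (.g (nat_lit 1542) (.e (nat_lit 1361) (nat_lit 102) (.e (nat_lit 286761) (nat_lit 13) (.e (nat_lit 393265) (nat_lit 22) (.e (nat_lit 417820) (nat_lit 10) (.e (nat_lit 5277) (nat_lit 298) .nil))))) .nil)) 
(.lf (nat_lit 52980) (.g (nat_lit 3616) (.e (nat_lit 1361) (nat_lit 102) (.e (nat_lit 286761) (nat_lit 13) (.e (nat_lit 393301) (nat_lit 27) (.e (nat_lit 491551) (nat_lit 9) .nil)))) .nil))))) (.nd (nat_lit 4) (.nd (nat_lit 5) (.nd (nat_lit 6) 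
(.lf (nat_lit 52876) (.g (nat_lit 498) (.e (nat_lit 1361) (nat_lit 102) (.e (nat_lit 286761) (nat_lit 13) (.e (nat_lit 393234) (nat_lit 17) .nil))) .nil)) 
(.lf (nat_lit 52940) (.g (nat_lit 2735) (.e (nat_lit 1361) (nat_lit 102) (.e (nat_lit 286761) (nat_lit 13) (.e (nat_lit 393298) (nat_lit 27) (.e (nat_lit 491549) (nat_lit 9) (.e (nat_lit 336306) (nat_lit 15) (.e (nat_lit 6986) (nat_lit 377) .nil)))))) (.g (nat_lit 4) .nil .nil)))) (.nd (nat_lit 6) 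
(.lf (nat_lit 52908) (.g (nat_lit 1269) (.e (nat_lit 1361) (nat_lit 102) (.e (nat_lit 286761) (nat_lit 13) (.e (nat_lit 393263) (nat_lit 22) (.e (nat_lit 417817) (nat_lit 10) (.e (nat_lit 5364) (nat_lit 298) .nil))))) .nil)) 
(.lf (nat_lit 52972) (.g (nat_lit 3959) (.e (nat_lit 1361) (nat_lit 102) (.e (nat_lit 286761) (nat_lit 13) (.e (nat_lit 393301) (nat_lit 27) (.e (nat_lit 491546) (nat_lit 9) (.e (nat_lit 336249) (nat_lit 15) .nil))))) .nil)))) (.nd (nat_lit 5) (.nd (nat_lit 6) 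
(.lf (nat_lit 52892) (.g (nat_lit 1712) (.e (nat_lit 1361) (nat_lit 102) (.e (nat_lit 286761) (nat_lit 13) (.e (nat_lit 393234) (nat_lit 17) (.e (nat_lit 7936) (nat_lit 409) .nil)))) .nil)) 
(.lf (nat_lit 52956) (.g (nat_lit 2880) (.e (nat_lit 1361) (nat_lit 102) (.e (nat_lit 286761) (nat_lit 13) (.e (nat_lit 393300) (nat_lit 27) (.e (nat_lit 491549) (nat_lit 9) (.e (nat_lit 336299) (nat_lit 15) (.e (nat_lit 6988) (nat_lit 377) .nil)))))) (.g (nat_lit 4) .nil .nil)))) (.nd (nat_lit 6) 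
(.lf (nat_lit 52924) (.g (nat_lit 2090) (.e (nat_lit 1361) (nat_lit 102) (.e (nat_lit 286761) (nat_lit 13) (.e (nat_lit 393275) (nat_lit 23) (.e (nat_lit 426144) (nat_lit 4) (.e (nat_lit 229678) (nat_lit 244) (.e (nat_lit 163846) (nat_lit 0) (.e (nat_lit 6989) (nat_lit 377) .nil))))))) (.g (nat_lit 5) .nil .nil))) 
(.lf (nat_lit 52988) (.g (nat_lit 3610) (.e (nat_lit 1361) (nat_lit 102) (.e (nat_lit 286761) (nat_lit 13) (.e (nat_lit 393301) (nat_lit 27) (.e (nat_lit 491555) (nat_lit 9) .nil)))) .nil))))))) (.nd (nat_lit 2) (.nd (nat_lit 3) (.nd (nat_lit 4) (.nd (nat_lit 5) (.nd (nat_lit 6) 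
(.lf (nat_lit 52866) (.g (nat_lit 2830) (.e (nat_lit 1361) (nat_lit 102) (.e (nat_lit 286759) (nat_lit 12) (.e (nat_lit 385107) (nat_lit 51) (.e (nat_lit 794683) (nat_lit 25) (.e (nat_lit 221194) (nat_lit 11) (.e (nat_lit 335906) (nat_lit 0) (.e (nat_lit 6113) (nat_lit 332) .nil))))))) (.g (nat_lit 5) .nil .nil))) 
(.lf (nat_lit 52930) (.g (nat_lit 1631) (.e (nat_lit 1361) (nat_lit 102) (.e (nat_lit 286761) (nat_lit 13) (.e (nat_lit 393289) (nat_lit 25) (.e (nat_lit 458774) (nat_lit 18) (.e (nat_lit 5951) (nat_lit 322) (.e (nat_lit 57350) (nat_lit 0) (.e (nat_lit 6113) (nat_lit 332) .nil))))))) (.g (nat_lit 4) .nil .nil)))) (.nd (nat_lit 6) 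
(.lf (nat_lit 52898) (.g (nat_lit 1645) (.e (nat_lit 1361) (nat_lit 102) (.e (nat_lit 286761) (nat_lit 13) (.e (nat_lit 393260) (nat_lit 21) (.e (nat_lit 409623) (nat_lit 10) (.e (nat_lit 5664) (nat_lit 312) .nil))))) .nil)) 
(.lf (nat_lit 52962) (.g (nat_lit 1332) (.e (nat_lit 1361) (nat_lit 102) (.e (nat_lit 286761) (nat_lit 13) (.e (nat_lit 393300) (nat_lit 27) (.e (nat_lit 491555) (nat_lit 9) .nil)))) .nil)))) (.nd (nat_lit 5) (.nd (nat_lit 6) 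
(.lf (nat_lit 52882) (.g (nat_lit 2509) (.e (nat_lit 1361) (nat_lit 102) (.e (nat_lit 286761) (nat_lit 13) (.e (nat_lit 393234) (nat_lit 17) (.e (nat_lit 7587) (nat_lit 406) (.e (nat_lit 65631) (nat_lit 15) (.e (nat_lit 6989) (nat_lit 377) .nil)))))) (.g (nat_lit 4) .nil .nil))) 
(.lf (nat_lit 52946) (.g (nat_lit 2643) (.e (nat_lit 1361) (nat_lit 102) (.e (nat_lit 286761) (nat_lit 13) (.e (nat_lit 393299) (nat_lit 27) (.e (nat_lit 491563) (nat_lit 12) (.e (nat_lit 392960) (nat_lit 16) .nil))))) (.g (nat_lit 4) .nil .nil)))) (.nd (nat_lit 6) 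
(.lf (nat_lit 52914) (.g (nat_lit 1161) (.e (nat_lit 1361) (nat_lit 102) (.e (nat_lit 286761) (nat_lit 13) (.e (nat_lit 393265) (nat_lit 22) (.e (nat_lit 417817) (nat_lit 10) .nil)))) .nil)) 
(.lf (nat_lit 52978) (.g (nat_lit 3598) (.e (nat_lit 1361) (nat_lit 102) (.e (nat_lit 286761) (nat_lit 13) (.e (nat_lit 393301) (nat_lit 27) (.e (nat_lit 491547) (nat_lit 9) (.e (nat_lit 336257) (nat_lit 15) (.e (nat_lit 6989) (nat_lit 377) .nil)))))) (.g (nat_lit 4) .nil .nil)))))) (.nd (nat_lit 4) (.nd (nat_lit 5) (.nd (nat_lit 6) 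
(.lf (nat_lit 52874) (.g (nat_lit 1207) (.e (nat_lit 1361) (nat_lit 102) (.e (nat_lit 286761) (nat_lit 13) (.e (nat_lit 393233) (nat_lit 17) (.e (nat_lit 7589) (nat_lit 406) .nil)))) .nil)) 
(.lf (nat_lit 52938) (.g (nat_lit 1323) (.e (nat_lit 1361) (nat_lit 102) (.e (nat_lit 286761) (nat_lit 13) (.e (nat_lit 393298) (nat_lit 27) (.e (nat_lit 491549) (nat_lit 9) .nil)))) .nil))) (.nd (nat_lit 6) 
(.lf (nat_lit 52906) (.g (nat_lit 1231) (.e (nat_lit 1361) (nat_lit 102) (.e (nat_lit 286761) (nat_lit 13) (.e (nat_lit 393260) (nat_lit 21) (.e (nat_lit 417536) (nat_lit 18) .nil)))) .nil)) 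
(.lf (nat_lit 52970) (.g (nat_lit 4350) (.e (nat_lit 1361) (nat_lit 102) (.e (nat_lit 286761) (nat_lit 13) (.e (nat_lit 393301) (nat_lit 27) (.e (nat_lit 491526) (nat_lit 0) (.e (nat_lit 6493) (nat_lit 343) .nil))))) .nil)))) (.nd (nat_lit 5) (.nd (nat_lit 6) 
(.lf (nat_lit 52890) (.g (nat_lit 1952) (.e (nat_lit 1361) (nat_lit 102) (.e (nat_lit 286761) (nat_lit 13) (.e (nat_lit 393234) (nat_lit 17) (.e (nat_lit 7589) (nat_lit 406) (.e (nat_lit 73472) (nat_lit 15) (.e (nat_lit 6988) (nat_lit 377) .nil)))))) (.g (nat_lit 4) .nil .nil))) 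
(.lf (nat_lit 52954) (.g (nat_lit 3880) (.e (nat_lit 1361) (nat_lit 102) (.e (nat_lit 286761) (nat_lit 13) (.e (nat_lit 393300) (nat_lit 27) (.e (nat_lit 491549) (nat_lit 9) (.e (nat_lit 336257) (nat_lit 15) (.e (nat_lit 6989) (nat_lit 377) .nil)))))) (.g (nat_lit 0) .nil .nil)))) (.nd (nat_lit 6) 
(.lf (nat_lit 52922) (.g (nat_lit 754) (.e (nat_lit 1361) (nat_lit 102) (.e (nat_lit 286761) (nat_lit 13) (.e (nat_lit 393266) (nat_lit 23) .nil))) .nil)) 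
(.lf (nat_lit 52986) (.g (nat_lit 3556) (.e (nat_lit 1361) (nat_lit 102) (.e (nat_lit 286761) (nat_lit 13) (.e (nat_lit 393301) (nat_lit 27) (.e (nat_lit 491552) (nat_lit 9) (.e (nat_lit 336290) (nat_lit 15) .nil))))) .nil)))))) (.nd (nat_lit 3) (.nd (nat_lit 4) (.nd (nat_lit 5) (.nd (nat_lit 6) 
(.lf (nat_lit 52870) (.g (nat_lit 2945) (.e (nat_lit 1361) (nat_lit 102) (.e (nat_lit 286759) (nat_lit 12) (.e (nat_lit 385115) (nat_lit 53) (.e (nat_lit 811045) (nat_lit 14) (.e (nat_lit 40996) (nat_lit 11) (.e (nat_lit 24584) (nat_lit 0) (.e (nat_lit 6113) (nat_lit 332) .nil))))))) (.g (nat_lit 0) .nil .nil))) 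
(.lf (nat_lit 52934) (.g (nat_lit 3026) (.e (nat_lit 1361) (nat_lit 102) (.e (nat_lit 286761) (nat_lit 13) (.e (nat_lit 393293) (nat_lit 26) (.e (nat_lit 475209) (nat_lit 41) (.e (nat_lit 712716) (nat_lit 15) (.e (nat_lit 6989) (nat_lit 377) .nil)))))) (.g (nat_lit 0) .nil .nil)))) (.nd (nat_lit 6) 
(.lf (nat_lit 52902) (.g (nat_lit 2081) (.e (nat_lit 1361) (nat_lit 102) (.e (nat_lit 286761) (nat_lit 13) (.e (nat_lit 393260) (nat_lit 21) (.e (nat_lit 409644) (nat_lit 18) (.e (nat_lit 303149) (nat_lit 15) (.e (nat_lit 6112) (nat_lit 332) .nil)))))) (.g (nat_lit 4) .nil .nil))) 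
(.lf (nat_lit 52966) (.g (nat_lit 3759) (.e (nat_lit 1361) (nat_lit 102) (.e (nat_lit 286761) (nat_lit 13) (.e (nat_lit 393300) (nat_lit 27) (.e (nat_lit 491563) (nat_lit 12) (.e (nat_lit 385032) (nat_lit 16) .nil))))) (.g (nat_lit 4) .nil .nil))))) (.nd (nat_lit 5) (.nd (nat_lit 6) 
(.lf (nat_lit 52886) (.g (nat_lit 2252) (.e (nat_lit 1361) (nat_lit 102) (.e (nat_lit 286761) (nat_lit 13) (.e (nat_lit 393234) (nat_lit 17) (.e (nat_lit 7589) (nat_lit 406) (.e (nat_lit 65634) (nat_lit 15) .nil))))) .nil)) 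
(.lf (nat_lit 52950) (.g (nat_lit 2140) (.e (nat_lit 1361) (nat_lit 102) (.e (nat_lit 286761) (nat_lit 13) (.e (nat_lit 393300) (nat_lit 27) (.e (nat_lit 491546) (nat_lit 9) (.e (nat_lit 336289) (nat_lit 15) (.e (nat_lit 6988) (nat_lit 377) .nil)))))) (.g (nat_lit 4) .nil .nil)))) (.nd (nat_lit 6) 
(.lf (nat_lit 52918) (.g (nat_lit 2368) (.e (nat_lit 1361) (nat_lit 102) (.e (nat_lit 286761) (nat_lit 13) (.e (nat_lit 393265) (nat_lit 22) (.e (nat_lit 417820) (nat_lit 10) (.e (nat_lit 5626) (nat_lit 312) (.e (nat_lit 20) (nat_lit 0) (.e (nat_lit 6115) (nat_lit 332) .nil))))))) (.g (nat_lit 5) .nil .nil))) 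
(.lf (nat_lit 52982) (.g (nat_lit 4404) (.e (nat_lit 1361) (nat_lit 102) (.e (nat_lit 286761) (nat_lit 13) (.e (nat_lit 393301) (nat_lit 27) (.e (nat_lit 491551) (nat_lit 9) (.e (nat_lit 343808) (nat_lit 15) .nil))))) .nil))))) (.nd (nat_lit 4) (.nd (nat_lit 5) (.nd (nat_lit 6) 
(.lf (nat_lit 52878) (.g (nat_lit 1681) (.e (nat_lit 1361) (nat_lit 102) (.e (nat_lit 286761) (nat_lit 13) (.e (nat_lit 393234) (nat_lit 17) (.e (nat_lit 7110) (nat_lit 380) .nil)))) .nil)) 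
(.lf (nat_lit 52942) (.g (nat_lit 2237) (.e (nat_lit 1361) (nat_lit 102) (.e (nat_lit 286761) (nat_lit 13) (.e (nat_lit 393298) (nat_lit 27) (.e (nat_lit 491552) (nat_lit 9) (.e (nat_lit 343808) (nat_lit 15) .nil))))) .nil))) (.nd (nat_lit 6) 
(.lf (nat_lit 52910) (.g (nat_lit 580) (.e (nat_lit 1361) (nat_lit 102) (.e (nat_lit 286761) (nat_lit 13) (.e (nat_lit 393264) (nat_lit 22) .nil))) .nil)) 
(.lf (nat_lit 52974) (.g (nat_lit 4406) (.e (nat_lit 1361) (nat_lit 102) (.e (nat_lit 286761) (nat_lit 13) (.e (nat_lit 393301) (nat_lit 27) (.e (nat_lit 491546) (nat_lit 9) (.e (nat_lit 336257) (nat_lit 15) (.e (nat_lit 6989) (nat_lit 377) .nil)))))) (.g (nat_lit 4) .nil .nil))))) (.nd (nat_lit 5) (.nd (nat_lit 6) 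
(.lf (nat_lit 52894) (.g (nat_lit 1261) (.e (nat_lit 1361) (nat_lit 102) (.e (nat_lit 286761) (nat_lit 13) (.e (nat_lit 393238) (nat_lit 17) (.e (nat_lit 7101) (nat_lit 380) .nil)))) .nil)) 
(.lf (nat_lit 52958) (.g (nat_lit 2244) (.e (nat_lit 1361) (nat_lit 102) (.e (nat_lit 286761) (nat_lit 13) (.e (nat_lit 393300) (nat_lit 27) (.e (nat_lit 491552) (nat_lit 9) (.e (nat_lit 336248) (nat_lit 15) (.e (nat_lit 6989) (nat_lit 377) .nil)))))) (.g (nat_lit 4) .nil .nil)))) (.nd (nat_lit 6) 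
(.lf (nat_lit 52926) (.g (nat_lit 2241) (.e (nat_lit 1361) (nat_lit 102) (.e (nat_lit 286761) (nat_lit 13) (.e (nat_lit 393281) (nat_lit 23) (.e (nat_lit 426100) (nat_lit 1) (.e (nat_lit 164399) (nat_lit 256) (.e (nat_lit 57350) (nat_lit 0) (.e (nat_lit 6113) (nat_lit 332) .nil))))))) (.g (nat_lit 4) .nil .nil))) 
(.lf (nat_lit 52990) (.g (nat_lit 2124) (.e (nat_lit 1361) (nat_lit 102) (.e (nat_lit 286761) (nat_lit 13) (.e (nat_lit 393301) (nat_lit 27) (.e (nat_lit 491556) (nat_lit 9) .nil)))) .nil)))))))) (.nd (nat_lit 1) (.nd (nat_lit 2) (.nd (nat_lit 3) (.nd (nat_lit 4) (.nd (nat_lit 5) (.nd (nat_lit 6) 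
(.lf (nat_lit 52865) (.g (nat_lit 2523) (.e (nat_lit 1361) (nat_lit 102) (.e (nat_lit 286759) (nat_lit 12) (.e (nat_lit 385107) (nat_lit 51) (.e (nat_lit 794683) (nat_lit 25) (.e (nat_lit 221190) (nat_lit 11) (.e (nat_lit 335906) (nat_lit 0) (.e (nat_lit 6113) (nat_lit 332) .nil))))))) (.g (nat_lit 7) .nil .nil))) 
(.lf (nat_lit 52929) (.g (nat_lit 411) (.e (nat_lit 1361) (nat_lit 102) (.e (nat_lit 286761) (nat_lit 13) (.e (nat_lit 393289) (nat_lit 25) .nil))) .nil))) (.nd (nat_lit 6) 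
(.lf (nat_lit 52897) (.g (nat_lit 2068) (.e (nat_lit 1361) (nat_lit 102) (.e (nat_lit 286761) (nat_lit 13) (.e (nat_lit 393260) (nat_lit 21) (.e (nat_lit 409623) (nat_lit 10) (.e (nat_lit 5629) (nat_lit 312) (.e (nat_lit 11) (nat_lit 0) (.e (nat_lit 6113) (nat_lit 332) .nil))))))) (.g (nat_lit 4) .nil .nil))) 
(.lf (nat_lit 52961) (.g (nat_lit 1671) (.e (nat_lit 1361) (nat_lit 102) (.e (nat_lit 286761) (nat_lit 13) (.e (nat_lit 393300) (nat_lit 27) (.e (nat_lit 491554) (nat_lit 9) .nil)))) .nil)))) (.nd (nat_lit 5) (.nd (nat_lit 6) 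
(.lf (nat_lit 52881) (.g (nat_lit 1574) (.e (nat_lit 1361) (nat_lit 102) (.e (nat_lit 286761) (nat_lit 13) (.e (nat_lit 393234) (nat_lit 17) (.e (nat_lit 7587) (nat_lit 406) .nil)))) .nil)) 
(.lf (nat_lit 52945) (.g (nat_lit 384) (.e (nat_lit 1361) (nat_lit 102) (.e (nat_lit 286761) (nat_lit 13) (.e (nat_lit 393299) (nat_lit 27) .nil))) .nil))) (.nd (nat_lit 6) 
(.lf (nat_lit 52913) (.g (nat_lit 2090) (.e (nat_lit 1361) (nat_lit 102) (.e (nat_lit 286761) (nat_lit 13) (.e (nat_lit 393265) (nat_lit 22) (.e (nat_lit 417804) (nat_lit 1) (.e (nat_lit 8468) (nat_lit 148) (.e (nat_lit 163846) (nat_lit 0) (.e (nat_lit 6989) (nat_lit 377) .nil))))))) (.g (nat_lit 0) .nil .nil))) 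
(.lf (nat_lit 52977) (.g (nat_lit 2534) (.e (nat_lit 1361) (nat_lit 102) (.e (nat_lit 286761) (nat_lit 13) (.e (nat_lit 393301) (nat_lit 27) (.e (nat_lit 491547) (nat_lit 9) .nil)))) .nil))))) (.nd (nat_lit 4) (.nd (nat_lit 5) (.nd (nat_lit 6) 
(.lf (nat_lit 52873) (.g (nat_lit 1219) (.e (nat_lit 1361) (nat_lit 102) (.e (nat_lit 286761) (nat_lit 13) (.e (nat_lit 393233) (nat_lit 17) (.e (nat_lit 7587) (nat_lit 406) .nil)))) .nil)) 
(.lf (nat_lit 52937) (.g (nat_lit 441) (.e (nat_lit 1361) (nat_lit 102) (.e (nat_lit 286761) (nat_lit 13) (.e (nat_lit 393298) (nat_lit 27) .nil))) .nil))) (.nd (nat_lit 6) 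
(.lf (nat_lit 52905) (.g (nat_lit 2820) (.e (nat_lit 1361) (nat_lit 102) (.e (nat_lit 286761) (nat_lit 13) (.e (nat_lit 393260) (nat_lit 21) (.e (nat_lit 409649) (nat_lit 18) (.e (nat_lit 303149) (nat_lit 15) (.e (nat_lit 6112) (nat_lit 332) .nil)))))) (.g (nat_lit 6) .nil .nil))) 
(.lf (nat_lit 52969) (.g (nat_lit 3206) (.e (nat_lit 1361) (nat_lit 102) (.e (nat_lit 286761) (nat_lit 13) (.e (nat_lit 393301) (nat_lit 27) (.e (nat_lit 491526) (nat_lit 0) .nil)))) .nil)))) (.nd (nat_lit 5) (.nd (nat_lit 6) 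
(.lf (nat_lit 52889) (.g (nat_lit 2284) (.e (nat_lit 1361) (nat_lit 102) (.e (nat_lit 286761) (nat_lit 13) (.e (nat_lit 393234) (nat_lit 17) (.e (nat_lit 7589) (nat_lit 406) (.e (nat_lit 65639) (nat_lit 15) (.e (nat_lit 6988) (nat_lit 377) .nil)))))) (.g (nat_lit 4) .nil .nil))) 
(.lf (nat_lit 52953) (.g (nat_lit 1997) (.e (nat_lit 1361) (nat_lit 102) (.e (nat_lit 286761) (nat_lit 13) (.e (nat_lit 393300) (nat_lit 27) (.e (nat_lit 491548) (nat_lit 9) (.e (nat_lit 343808) (nat_lit 15) (.e (nat_lit 6989) (nat_lit 377) .nil)))))) (.g (nat_lit 4) .nil .nil)))) (.nd (nat_lit 6) 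
(.lf (nat_lit 52921) (.g (nat_lit 2413) (.e (nat_lit 1361) (nat_lit 102) (.e (nat_lit 286761) (nat_lit 13) (.e (nat_lit 393265) (nat_lit 22) (.e (nat_lit 417829) (nat_lit 18) (.e (nat_lit 303149) (nat_lit 15) (.e (nat_lit 6112) (nat_lit 332) .nil)))))) (.g (nat_lit 6) .nil .nil))) 
(.lf (nat_lit 52985) (.g (nat_lit 3092) (.e (nat_lit 1361) (nat_lit 102) (.e (nat_lit 286761) (nat_lit 13) (.e (nat_lit 393301) (nat_lit 27) (.e (nat_lit 491552) (nat_lit 9) (.e (nat_lit 336253) (nat_lit 15) .nil))))) .nil)))))) (.nd (nat_lit 3) (.nd (nat_lit 4) (.nd (nat_lit 5) (.nd (nat_lit 6) 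
(.lf (nat_lit 52869) (.g (nat_lit 990) (.e (nat_lit 1361) (nat_lit 102) (.e (nat_lit 286759) (nat_lit 12) (.e (nat_lit 385114) (nat_lit 53) (.e (nat_lit 811045) (nat_lit 14) .nil)))) .nil)) 
(.lf (nat_lit 52933) (.g (nat_lit 1079) (.e (nat_lit 1361) (nat_lit 102) (.e (nat_lit 286761) (nat_lit 13) (.e (nat_lit 393293) (nat_lit 26) (.e (nat_lit 475205) (nat_lit 40) .nil)))) .nil))) (.nd (nat_lit 6) 
(.lf (nat_lit 52901) (.g (nat_lit 2013) (.e (nat_lit 1361) (nat_lit 102) (.e (nat_lit 286761) (nat_lit 13) (.e (nat_lit 393260) (nat_lit 21) (.e (nat_lit 409643) (nat_lit 18) (.e (nat_lit 303149) (nat_lit 15) (.e (nat_lit 6112) (nat_lit 332) .nil)))))) (.g (nat_lit 4) .nil .nil))) 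
(.lf (nat_lit 52965) (.g (nat_lit 2254) (.e (nat_lit 1361) (nat_lit 102) (.e (nat_lit 286761) (nat_lit 13) (.e (nat_lit 393300) (nat_lit 27) (.e (nat_lit 491556) (nat_lit 9) (.e (nat_lit 343808) (nat_lit 15) .nil))))) .nil)))) (.nd (nat_lit 5) (.nd (nat_lit 6) 
(.lf (nat_lit 52885) (.g (nat_lit 2809) (.e (nat_lit 1361) (nat_lit 102) (.e (nat_lit 286761) (nat_lit 13) (.e (nat_lit 393234) (nat_lit 17) (.e (nat_lit 7589) (nat_lit 406) (.e (nat_lit 65631) (nat_lit 15) (.e (nat_lit 6989) (nat_lit 377) .nil)))))) (.g (nat_lit 5) .nil .nil))) 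
(.lf (nat_lit 52949) (.g (nat_lit 1979) (.e (nat_lit 1361) (nat_lit 102) (.e (nat_lit 286761) (nat_lit 13) (.e (nat_lit 393300) (nat_lit 27) (.e (nat_lit 491546) (nat_lit 9) (.e (nat_lit 336257) (nat_lit 15) .nil))))) .nil))) (.nd (nat_lit 6) 
(.lf (nat_lit 52917) (.g (nat_lit 1240) (.e (nat_lit 1361) (nat_lit 102) (.e (nat_lit 286761) (nat_lit 13) (.e (nat_lit 393265) (nat_lit 22) (.e (nat_lit 417820) (nat_lit 10) (.e (nat_lit 5612) (nat_lit 312) .nil))))) .nil)) 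
(.lf (nat_lit 52981) (.g (nat_lit 4576) (.e (nat_lit 1361) (nat_lit 102) (.e (nat_lit 286761) (nat_lit 13) (.e (nat_lit 393301) (nat_lit 27) (.e (nat_lit 491551) (nat_lit 9) (.e (nat_lit 336289) (nat_lit 15) .nil))))) .nil))))) (.nd (nat_lit 4) (.nd (nat_lit 5) (.nd (nat_lit 6) 
(.lf (nat_lit 52877) (.g (nat_lit 1864) (.e (nat_lit 1361) (nat_lit 102) (.e (nat_lit 286761) (nat_lit 13) (.e (nat_lit 393234) (nat_lit 17) (.e (nat_lit 7065) (nat_lit 377) .nil)))) .nil)) 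
(.lf (nat_lit 52941) (.g (nat_lit 1559) (.e (nat_lit 1361) (nat_lit 102) (.e (nat_lit 286761) (nat_lit 13) (.e (nat_lit 393298) (nat_lit 27) (.e (nat_lit 491552) (nat_lit 9) .nil)))) .nil))) (.nd (nat_lit 6) 
(.lf (nat_lit 52909) (.g (nat_lit 1855) (.e (nat_lit 1361) (nat_lit 102) (.e (nat_lit 286761) (nat_lit 13) (.e (nat_lit 393263) (nat_lit 22) (.e (nat_lit 417829) (nat_lit 18) (.e (nat_lit 303149) (nat_lit 15) (.e (nat_lit 6112) (nat_lit 332) .nil)))))) (.g (nat_lit 4) .nil .nil))) 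
(.lf (nat_lit 52973) (.g (nat_lit 4063) (.e (nat_lit 1361) (nat_lit 102) (.e (nat_lit 286761) (nat_lit 13) (.e (nat_lit 393301) (nat_lit 27) (.e (nat_lit 491546) (nat_lit 9) (.e (nat_lit 336255) (nat_lit 15) .nil))))) .nil)))) (.nd (nat_lit 5) (.nd (nat_lit 6) 
(.lf (nat_lit 52893) (.g (nat_lit 566) (.e (nat_lit 1361) (nat_lit 102) (.e (nat_lit 286761) (nat_lit 13) (.e (nat_lit 393237) (nat_lit 17) .nil))) .nil)) 
(.lf (nat_lit 52957) (.g (nat_lit 1484) (.e (nat_lit 1361) (nat_lit 102) (.e (nat_lit 286761) (nat_lit 13) (.e (nat_lit 393300) (nat_lit 27) (.e (nat_lit 491552) (nat_lit 9) .nil)))) .nil))) (.nd (nat_lit 6) 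
(.lf (nat_lit 52925) (.g (nat_lit 754) (.e (nat_lit 1361) (nat_lit 102) (.e (nat_lit 286761) (nat_lit 13) (.e (nat_lit 393279) (nat_lit 23) .nil))) .nil)) 
(.lf (nat_lit 52989) (.g (nat_lit 4251) (.e (nat_lit 1361) (nat_lit 102) (.e (nat_lit 286761) (nat_lit 13) (.e (nat_lit 393301) (nat_lit 27) (.e (nat_lit 491555) (nat_lit 9) (.e (nat_lit 336288) (nat_lit 15) .nil))))) .nil))))))) (.nd (nat_lit 2) (.nd (nat_lit 3) (.nd (nat_lit 4) (.nd (nat_lit 5) (.nd (nat_lit 6) 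
(.lf (nat_lit 52867) (.g (nat_lit 1357) (.e (nat_lit 1361) (nat_lit 102) (.e (nat_lit 286759) (nat_lit 12) (.e (nat_lit 385107) (nat_lit 51) (.e (nat_lit 794684) (nat_lit 25) (.e (nat_lit 221193) (nat_lit 11) (.e (nat_lit 335906) (nat_lit 0) (.e (nat_lit 6113) (nat_lit 332) .nil))))))) (.g (nat_lit 4) .nil .nil))) 
(.lf (nat_lit 52931) (.g (nat_lit 483) (.e (nat_lit 1361) (nat_lit 102) (.e (nat_lit 286761) (nat_lit 13) (.e (nat_lit 393293) (nat_lit 26) .nil))) .nil))) (.nd (nat_lit 6) 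
(.lf (nat_lit 52899) (.g (nat_lit 2068) (.e (nat_lit 1361) (nat_lit 102) (.e (nat_lit 286761) (nat_lit 13) (.e (nat_lit 393260) (nat_lit 21) (.e (nat_lit 409623) (nat_lit 10) (.e (nat_lit 5664) (nat_lit 312) (.e (nat_lit 75) (nat_lit 0) (.e (nat_lit 6112) (nat_lit 332) .nil))))))) (.g (nat_lit 4) .nil .nil))) 
(.lf (nat_lit 52963) (.g (nat_lit 3057) (.e (nat_lit 1361) (nat_lit 102) (.e (nat_lit 286761) (nat_lit 13) (.e (nat_lit 393300) (nat_lit 27) (.e (nat_lit 491555) (nat_lit 9) (.e (nat_lit 336288) (nat_lit 15) (.e (nat_lit 6988) (nat_lit 377) .nil)))))) (.g (nat_lit 6) .nil .nil))))) (.nd (nat_lit 5) (.nd (nat_lit 6) 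
(.lf (nat_lit 52883) (.g (nat_lit 2355) (.e (nat_lit 1361) (nat_lit 102) (.e (nat_lit 286761) (nat_lit 13) (.e (nat_lit 393234) (nat_lit 17) (.e (nat_lit 7587) (nat_lit 406) (.e (nat_lit 65638) (nat_lit 15) (.e (nat_lit 6988) (nat_lit 377) .nil)))))) (.g (nat_lit 4) .nil .nil))) 
(.lf (nat_lit 52947) (.g (nat_lit 1381) (.e (nat_lit 1361) (nat_lit 102) (.e (nat_lit 286761) (nat_lit 13) (.e (nat_lit 393299) (nat_lit 27) (.e (nat_lit 491565) (nat_lit 12) .nil)))) .nil))) (.nd (nat_lit 6) 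
(.lf (nat_lit 52915) (.g (nat_lit 888) (.e (nat_lit 1361) (nat_lit 102) (.e (nat_lit 286761) (nat_lit 13) (.e (nat_lit 393265) (nat_lit 22) (.e (nat_lit 417820) (nat_lit 10) .nil)))) .nil)) 
(.lf (nat_lit 52979) (.g (nat_lit 3758) (.e (nat_lit 1361) (nat_lit 102) (.e (nat_lit 286761) (nat_lit 13) (.e (nat_lit 393301) (nat_lit 27) (.e (nat_lit 491547) (nat_lit 9) (.e (nat_lit 343808) (nat_lit 15) (.e (nat_lit 6989) (nat_lit 377) .nil)))))) (.g (nat_lit 4) .nil .nil)))))) (.nd (nat_lit 4) (.nd (nat_lit 5) (.nd (nat_lit 6) 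
(.lf (nat_lit 52875) (.g (nat_lit 1345) (.e (nat_lit 1361) (nat_lit 102) (.e (nat_lit 286761) (nat_lit 13) (.e (nat_lit 393233) (nat_lit 17) (.e (nat_lit 7601) (nat_lit 409) .nil)))) .nil)) 
(.lf (nat_lit 52939) (.g (nat_lit 2953) (.e (nat_lit 1361) (nat_lit 102) (.e (nat_lit 286761) (nat_lit 13) (.e (nat_lit 393298) (nat_lit 27) (.e (nat_lit 491549) (nat_lit 9) (.e (nat_lit 336257) (nat_lit 15) (.e (nat_lit 6989) (nat_lit 377) .nil)))))) (.g (nat_lit 5) .nil .nil)))) (.nd (nat_lit 6) 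
(.lf (nat_lit 52907) (.g (nat_lit 536) (.e (nat_lit 1361) (nat_lit 102) (.e (nat_lit 286761) (nat_lit 13) (.e (nat_lit 393263) (nat_lit 22) .nil))) .nil)) 
(.lf (nat_lit 52971) (.g (nat_lit 3115) (.e (nat_lit 1361) (nat_lit 102) (.e (nat_lit 286761) (nat_lit 13) (.e (nat_lit 393301) (nat_lit 27) (.e (nat_lit 491546) (nat_lit 9) .nil)))) .nil)))) (.nd (nat_lit 5) (.nd (nat_lit 6) 
(.lf (nat_lit 52891) (.g (nat_lit 1850) (.e (nat_lit 1361) (nat_lit 102) (.e (nat_lit 286761) (nat_lit 13) (.e (nat_lit 393234) (nat_lit 17) (.e (nat_lit 7601) (nat_lit 409) .nil)))) .nil)) 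
(.lf (nat_lit 52955) (.g (nat_lit 2881) (.e (nat_lit 1361) (nat_lit 102) (.e (nat_lit 286761) (nat_lit 13) (.e (nat_lit 393300) (nat_lit 27) (.e (nat_lit 491549) (nat_lit 9) (.e (nat_lit 336260) (nat_lit 15) (.e (nat_lit 6986) (nat_lit 377) .nil)))))) (.g (nat_lit 4) .nil .nil)))) (.nd (nat_lit 6) 
(.lf (nat_lit 52923) (.g (nat_lit 1663) (.e (nat_lit 1361) (nat_lit 102) (.e (nat_lit 286761) (nat_lit 13) (.e (nat_lit 393270) (nat_lit 23) (.e (nat_lit 426111) (nat_lit 1) (.e (nat_lit 164399) (nat_lit 256) (.e (nat_lit 57350) (nat_lit 0) (.e (nat_lit 6113) (nat_lit 332) .nil))))))) (.g (nat_lit 4) .nil .nil))) 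
(.lf (nat_lit 52987) (.g (nat_lit 3637) (.e (nat_lit 1361) (nat_lit 102) (.e (nat_lit 286761) (nat_lit 13) (.e (nat_lit 393301) (nat_lit 27) (.e (nat_lit 491553) (nat_lit 9) .nil)))) .nil)))))) (.nd (nat_lit 3) (.nd (nat_lit 4) (.nd (nat_lit 5) (.nd (nat_lit 6) 
(.lf (nat_lit 52871) (.g (nat_lit 2858) (.e (nat_lit 1361) (nat_lit 102) (.e (nat_lit 286759) (nat_lit 12) (.e (nat_lit 385115) (nat_lit 53) (.e (nat_lit 811045) (nat_lit 14) (.e (nat_lit 40997) (nat_lit 11) (.e (nat_lit 24584) (nat_lit 0) (.e (nat_lit 6113) (nat_lit 332) .nil))))))) (.g (nat_lit 0) .nil .nil))) 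
(.lf (nat_lit 52935) (.g (nat_lit 1991) (.e (nat_lit 1361) (nat_lit 102) (.e (nat_lit 286761) (nat_lit 13) (.e (nat_lit 393293) (nat_lit 26) (.e (nat_lit 475210) (nat_lit 41) (.e (nat_lit 712716) (nat_lit 15) .nil))))) .nil))) (.nd (nat_lit 6) 
(.lf (nat_lit 52903) (.g (nat_lit 2730) (.e (nat_lit 1361) (nat_lit 102) (.e (nat_lit 286761) (nat_lit 13) (.e (nat_lit 393260) (nat_lit 21) (.e (nat_lit 409648) (nat_lit 18) (.e (nat_lit 303149) (nat_lit 15) (.e (nat_lit 6112) (nat_lit 332) .nil)))))) (.g (nat_lit 4) .nil .nil))) 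
(.lf (nat_lit 52967) (.g (nat_lit 2467) (.e (nat_lit 1361) (nat_lit 102) (.e (nat_lit 286761) (nat_lit 13) (.e (nat_lit 393300) (nat_lit 27) (.e (nat_lit 491565) (nat_lit 12) (.e (nat_lit 385032) (nat_lit 16) .nil))))) (.g (nat_lit 4) .nil .nil))))) (.nd (nat_lit 5) (.nd (nat_lit 6) 
(.lf (nat_lit 52887) (.g (nat_lit 1923) (.e (nat_lit 1361) (nat_lit 102) (.e (nat_lit 286761) (nat_lit 13) (.e (nat_lit 393234) (nat_lit 17) (.e (nat_lit 7589) (nat_lit 406) (.e (nat_lit 65637) (nat_lit 15) .nil))))) .nil)) 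
(.lf (nat_lit 52951) (.g (nat_lit 2357) (.e (nat_lit 1361) (nat_lit 102) (.e (nat_lit 286761) (nat_lit 13) (.e (nat_lit 393300) (nat_lit 27) (.e (nat_lit 491546) (nat_lit 9) (.e (nat_lit 343808) (nat_lit 15) (.e (nat_lit 6989) (nat_lit 377) .nil)))))) (.g (nat_lit 4) .nil .nil)))) (.nd (nat_lit 6) 
(.lf (nat_lit 52919) (.g (nat_lit 3759) (.e (nat_lit 1361) (nat_lit 102) (.e (nat_lit 286761) (nat_lit 13) (.e (nat_lit 393265) (nat_lit 22) (.e (nat_lit 417828) (nat_lit 18) (.e (nat_lit 303147) (nat_lit 15) (.e (nat_lit 6114) (nat_lit 332) .nil)))))) (.g (nat_lit 0) .nil .nil))) 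
(.lf (nat_lit 52983) (.g (nat_lit 2397) (.e (nat_lit 1361) (nat_lit 102) (.e (nat_lit 286761) (nat_lit 13) (.e (nat_lit 393301) (nat_lit 27) (.e (nat_lit 491552) (nat_lit 9) .nil)))) .nil))))) (.nd (nat_lit 4) (.nd (nat_lit 5) (.nd (nat_lit 6) 
(.lf (nat_lit 52879) (.g (nat_lit 2425) (.e (nat_lit 1361) (nat_lit 102) (.e (nat_lit 286761) (nat_lit 13) (.e (nat_lit 393234) (nat_lit 17) (.e (nat_lit 7110) (nat_lit 380) (.e (nat_lit 164340) (nat_lit 232) .nil))))) .nil)) 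
(.lf (nat_lit 52943) (.g (nat_lit 2367) (.e (nat_lit 1361) (nat_lit 102) (.e (nat_lit 286761) (nat_lit 13) (.e (nat_lit 393298) (nat_lit 27) (.e (nat_lit 491564) (nat_lit 12) (.e (nat_lit 385032) (nat_lit 16) .nil))))) .nil))) (.nd (nat_lit 6) 
(.lf (nat_lit 52911) (.g (nat_lit 1898) (.e (nat_lit 1361) (nat_lit 102) (.e (nat_lit 286761) (nat_lit 13) (.e (nat_lit 393264) (nat_lit 22) (.e (nat_lit 417827) (nat_lit 17) (.e (nat_lit 294964) (nat_lit 15) (.e (nat_lit 6988) (nat_lit 377) .nil)))))) (.g (nat_lit 0) .nil .nil))) 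
(.lf (nat_lit 52975) (.g (nat_lit 4132) (.e (nat_lit 1361) (nat_lit 102) (.e (nat_lit 286761) (nat_lit 13) (.e (nat_lit 393301) (nat_lit 27) (.e (nat_lit 491546) (nat_lit 9) (.e (nat_lit 336259) (nat_lit 15) .nil))))) .nil)))) (.nd (nat_lit 5) (.nd (nat_lit 6) 
(.lf (nat_lit 52895) (.g (nat_lit 2462) (.e (nat_lit 1361) (nat_lit 102) (.e (nat_lit 286761) (nat_lit 13) (.e (nat_lit 393259) (nat_lit 21) (.e (nat_lit 409646) (nat_lit 18) (.e (nat_lit 303149) (nat_lit 15) (.e (nat_lit 6112) (nat_lit 332) .nil)))))) (.g (nat_lit 5) .nil .nil))) 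
(.lf (nat_lit 52959) (.g (nat_lit 2300) (.e (nat_lit 1361) (nat_lit 102) (.e (nat_lit 286761) (nat_lit 13) (.e (nat_lit 393300) (nat_lit 27) (.e (nat_lit 491552) (nat_lit 9) (.e (nat_lit 336287) (nat_lit 15) (.e (nat_lit 6988) (nat_lit 377) .nil)))))) (.g (nat_lit 4) .nil .nil)))) (.nd (nat_lit 6) 
(.lf (nat_lit 52927) (.g (nat_lit 541) (.e (nat_lit 1361) (nat_lit 102) (.e (nat_lit 286761) (nat_lit 13) (.e (nat_lit 393282) (nat_lit 24) .nil))) .nil)) 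
(.lf (nat_lit 52991) (.g (nat_lit 3080) (.e (nat_lit 1361) (nat_lit 102) (.e (nat_lit 286761) (nat_lit 13) (.e (nat_lit 393301) (nat_lit 27) (.e (nat_lit 491556) (nat_lit 9) (.e (nat_lit 343808) (nat_lit 15) .nil))))) .nil)))))))))

noncomputable def tv733 : DT := (.nd (nat_lit 0) (.nd (nat_lit 1) (.nd (nat_lit 2) (.nd (nat_lit 3) (.nd (nat_lit 4) (.nd (nat_lit 5) (.nd (nat_lit 6) 
(.lf (nat_lit 52992) (.g (nat_lit 3614) (.e (nat_lit 1361) (nat_lit 102) (.e (nat_lit 286761) (nat_lit 13) (.e (nat_lit 393301) (nat_lit 27) (.e (nat_lit 491557) (nat_lit 9) .nil)))) .nil)) 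
(.lf (nat_lit 53056) (.g (nat_lit 632) (.e (nat_lit 1363) (nat_lit 102) (.e (nat_lit 286761) (nat_lit 13) (.e (nat_lit 393301) (nat_lit 27) .nil))) .nil))) (.nd (nat_lit 6) 
(.lf (nat_lit 53024) (.g (nat_lit 3956) (.e (nat_lit 1362) (nat_lit 102) (.e (nat_lit 286761) (nat_lit 13) (.e (nat_lit 393301) (nat_lit 27) (.e (nat_lit 491552) (nat_lit 9) (.e (nat_lit 336253) (nat_lit 15) .nil))))) .nil)) 
(.lf (nat_lit 53088) (.g (nat_lit 1722) (.e (nat_lit 7936) (nat_lit 102) (.e (nat_lit 286733) (nat_lit 2) (.e (nat_lit 90177) (nat_lit 15) (.e (nat_lit 188449) (nat_lit 22) (.e (nat_lit 196661) (nat_lit 12) .nil))))) .nil)))) (.nd (nat_lit 5) (.nd (nat_lit 6) 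
(.lf (nat_lit 53008) (.g (nat_lit 2380) (.e (nat_lit 1362) (nat_lit 102) (.e (nat_lit 286735) (nat_lit 3) (.e (nat_lit 98373) (nat_lit 29) (.e (nat_lit 450587) (nat_lit 10) .nil)))) .nil)) 
(.lf (nat_lit 53072) (.g (nat_lit 3283) (.e (nat_lit 1363) (nat_lit 102) (.e (nat_lit 286761) (nat_lit 13) (.e (nat_lit 393301) (nat_lit 27) (.e (nat_lit 491563) (nat_lit 12) .nil)))) .nil))) (.nd (nat_lit 6) 
(.lf (nat_lit 53040) (.g (nat_lit 1939) (.e (nat_lit 1363) (nat_lit 102) (.e (nat_lit 286759) (nat_lit 12) (.e (nat_lit 385106) (nat_lit 50) (.e (nat_lit 786483) (nat_lit 30) (.e (nat_lit 360483) (nat_lit 15) .nil))))) .nil)) 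
(.lf (nat_lit 53104) (.g (nat_lit 945) (.e (nat_lit 7936) (nat_lit 102) (.e (nat_lit 286735) (nat_lit 3) (.e (nat_lit 98371) (nat_lit 28) (.e (nat_lit 442424) (nat_lit 22) .nil)))) .nil))))) (.nd (nat_lit 4) (.nd (nat_lit 5) (.nd (nat_lit 6) 
(.lf (nat_lit 53000) (.g (nat_lit 3163) (.e (nat_lit 1361) (nat_lit 102) (.e (nat_lit 286761) (nat_lit 13) (.e (nat_lit 393301) (nat_lit 27) (.e (nat_lit 499456) (nat_lit 12) .nil)))) .nil)) 
(.lf (nat_lit 53064) (.g (nat_lit 3789) (.e (nat_lit 1363) (nat_lit 102) (.e (nat_lit 286761) (nat_lit 13) (.e (nat_lit 393301) (nat_lit 27) (.e (nat_lit 491552) (nat_lit 9) (.e (nat_lit 336290) (nat_lit 15) .nil))))) .nil))) (.nd (nat_lit 6) 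
(.lf (nat_lit 53032) (.g (nat_lit 986) (.e (nat_lit 1363) (nat_lit 102) (.e (nat_lit 286735) (nat_lit 3) (.e (nat_lit 98372) (nat_lit 29) .nil))) .nil)) 
(.lf (nat_lit 53096) (.g (nat_lit 2181) (.e (nat_lit 7936) (nat_lit 102) (.e (nat_lit 286734) (nat_lit 3) (.e (nat_lit 98372) (nat_lit 29) (.e (nat_lit 450579) (nat_lit 5) (.e (nat_lit 532484) (nat_lit 0) .nil))))) .nil)))) (.nd (nat_lit 5) (.nd (nat_lit 6) 
(.lf (nat_lit 53016) (.g (nat_lit 1011) (.e (nat_lit 1362) (nat_lit 102) (.e (nat_lit 286761) (nat_lit 13) (.e (nat_lit 393234) (nat_lit 17) (.e (nat_lit 7589) (nat_lit 406) .nil)))) .nil)) 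
(.lf (nat_lit 53080) (.g (nat_lit 3601) (.e (nat_lit 7936) (nat_lit 102) (.e (nat_lit 286733) (nat_lit 2) (.e (nat_lit 90170) (nat_lit 13) (.e (nat_lit 172113) (nat_lit 10) (.e (nat_lit 434245) (nat_lit 28) .nil))))) .nil))) (.nd (nat_lit 6) 
(.lf (nat_lit 53048) (.g (nat_lit 2070) (.e (nat_lit 1363) (nat_lit 102) (.e (nat_lit 286761) (nat_lit 13) (.e (nat_lit 393234) (nat_lit 17) (.e (nat_lit 7589) (nat_lit 406) (.e (nat_lit 73472) (nat_lit 15) (.e (nat_lit 6975) (nat_lit 377) .nil)))))) (.g (nat_lit 4) .nil .nil))) 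
(.lf (nat_lit 53112) (.g (nat_lit 2067) (.e (nat_lit 7936) (nat_lit 102) (.e (nat_lit 286735) (nat_lit 3) (.e (nat_lit 98373) (nat_lit 29) (.e (nat_lit 458496) (nat_lit 1) .nil)))) .nil)))))) (.nd (nat_lit 3) (.nd (nat_lit 4) (.nd (nat_lit 5) (.nd (nat_lit 6) 
(.lf (nat_lit 52996) (.g (nat_lit 3170) (.e (nat_lit 1361) (nat_lit 102) (.e (nat_lit 286761) (nat_lit 13) (.e (nat_lit 393301) (nat_lit 27) (.e (nat_lit 491562) (nat_lit 12) .nil)))) .nil)) 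
(.lf (nat_lit 53060) (.g (nat_lit 4680) (.e (nat_lit 1363) (nat_lit 102) (.e (nat_lit 286761) (nat_lit 13) (.e (nat_lit 393301) (nat_lit 27) (.e (nat_lit 491551) (nat_lit 9) (.e (nat_lit 336253) (nat_lit 15) .nil))))) .nil))) (.nd (nat_lit 6) 
(.lf (nat_lit 53028) (.g (nat_lit 3225) (.e (nat_lit 1363) (nat_lit 102) (.e (nat_lit 286733) (nat_lit 2) (.e (nat_lit 90170) (nat_lit 13) (.e (nat_lit 172097) (nat_lit 9) .nil)))) .nil)) 
(.lf (nat_lit 53092) (.g (nat_lit 1843) (.e (nat_lit 7936) (nat_lit 102) (.e (nat_lit 286734) (nat_lit 3) (.e (nat_lit 98359) (nat_lit 26) (.e (nat_lit 426211) (nat_lit 9) (.e (nat_lit 426125) (nat_lit 2) .nil))))) .nil)))) (.nd (nat_lit 5) (.nd (nat_lit 6) 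
(.lf (nat_lit 53012) (.g (nat_lit 1024) (.e (nat_lit 1362) (nat_lit 102) (.e (nat_lit 286761) (nat_lit 13) (.e (nat_lit 393234) (nat_lit 17) (.e (nat_lit 7587) (nat_lit 406) .nil)))) .nil)) 
(.lf (nat_lit 53076) (.g (nat_lit 3084) (.e (nat_lit 7936) (nat_lit 102) (.e (nat_lit 286733) (nat_lit 2) (.e (nat_lit 90170) (nat_lit 13) (.e (nat_lit 172079) (nat_lit 7) .nil)))) .nil))) (.nd (nat_lit 6) 
(.lf (nat_lit 53044) (.g (nat_lit 661) (.e (nat_lit 1363) (nat_lit 102) (.e (nat_lit 286761) (nat_lit 13) (.e (nat_lit 393234) (nat_lit 17) .nil))) .nil)) 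
(.lf (nat_lit 53108) (.g (nat_lit 2047) (.e (nat_lit 7936) (nat_lit 102) (.e (nat_lit 286735) (nat_lit 3) (.e (nat_lit 98372) (nat_lit 29) (.e (nat_lit 450579) (nat_lit 5) (.e (nat_lit 532484) (nat_lit 0) .nil))))) .nil))))) (.nd (nat_lit 4) (.nd (nat_lit 5) (.nd (nat_lit 6) 
(.lf (nat_lit 53004) (.g (nat_lit 3584) (.e (nat_lit 1362) (nat_lit 102) (.e (nat_lit 286733) (nat_lit 2) (.e (nat_lit 90170) (nat_lit 13) (.e (nat_lit 172106) (nat_lit 10) (.e (nat_lit 434244) (nat_lit 28) .nil))))) .nil)) 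
(.lf (nat_lit 53068) (.g (nat_lit 4521) (.e (nat_lit 1363) (nat_lit 102) (.e (nat_lit 286761) (nat_lit 13) (.e (nat_lit 393301) (nat_lit 27) (.e (nat_lit 491556) (nat_lit 9) (.e (nat_lit 336298) (nat_lit 15) .nil))))) .nil))) (.nd (nat_lit 6) 
(.lf (nat_lit 53036) (.g (nat_lit 4704) (.e (nat_lit 1363) (nat_lit 102) (.e (nat_lit 286735) (nat_lit 3) (.e (nat_lit 98373) (nat_lit 29) (.e (nat_lit 450588) (nat_lit 10) (.e (nat_lit 573452) (nat_lit 9) (.e (nat_lit 61) (nat_lit 0) (.e (nat_lit 6975) (nat_lit 377) .nil))))))) (.g (nat_lit 5) .nil .nil))) 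
(.lf (nat_lit 53100) (.g (nat_lit 1563) (.e (nat_lit 7936) (nat_lit 102) (.e (nat_lit 286735) (nat_lit 3) (.e (nat_lit 98369) (nat_lit 28) (.e (nat_lit 442424) (nat_lit 22) .nil)))) .nil)))) (.nd (nat_lit 5) (.nd (nat_lit 6) 
(.lf (nat_lit 53020) (.g (nat_lit 3651) (.e (nat_lit 1362) (nat_lit 102) (.e (nat_lit 286761) (nat_lit 13) (.e (nat_lit 393301) (nat_lit 27) (.e (nat_lit 491546) (nat_lit 9) .nil)))) .nil)) 
(.lf (nat_lit 53084) (.g (nat_lit 1883) (.e (nat_lit 7936) (nat_lit 102) (.e (nat_lit 286733) (nat_lit 2) (.e (nat_lit 90176) (nat_lit 15) (.e (nat_lit 188449) (nat_lit 22) .nil)))) .nil))) (.nd (nat_lit 6) 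
(.lf (nat_lit 53052) (.g (nat_lit 1791) (.e (nat_lit 1363) (nat_lit 102) (.e (nat_lit 286761) (nat_lit 13) (.e (nat_lit 393300) (nat_lit 27) (.e (nat_lit 491551) (nat_lit 9) .nil)))) .nil)) 
(.lf (nat_lit 53116) (.g (nat_lit 3162) (.e (nat_lit 7936) (nat_lit 102) (.e (nat_lit 286735) (nat_lit 3) (.e (nat_lit 98373) (nat_lit 29) (.e (nat_lit 450588) (nat_lit 10) (.e (nat_lit 573452) (nat_lit 9) .nil))))) .nil))))))) (.nd (nat_lit 2) (.nd (nat_lit 3) (.nd (nat_lit 4) (.nd (nat_lit 5) (.nd (nat_lit 6) 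
(.lf (nat_lit 52994) (.g (nat_lit 3532) (.e (nat_lit 1361) (nat_lit 102) (.e (nat_lit 286761) (nat_lit 13) (.e (nat_lit 393301) (nat_lit 27) (.e (nat_lit 491558) (nat_lit 10) .nil)))) .nil)) 
(.lf (nat_lit 53058) (.g (nat_lit 3247) (.e (nat_lit 1363) (nat_lit 102) (.e (nat_lit 286761) (nat_lit 13) (.e (nat_lit 393301) (nat_lit 27) (.e (nat_lit 491547) (nat_lit 9) .nil)))) .nil))) (.nd (nat_lit 6) 
(.lf (nat_lit 53026) (.g (nat_lit 3480) (.e (nat_lit 1362) (nat_lit 102) (.e (nat_lit 286761) (nat_lit 13) (.e (nat_lit 393301) (nat_lit 27) (.e (nat_lit 491562) (nat_lit 12) .nil)))) .nil)) 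
(.lf (nat_lit 53090) (.g (nat_lit 1696) (.e (nat_lit 7936) (nat_lit 102) (.e (nat_lit 286733) (nat_lit 2) (.e (nat_lit 90178) (nat_lit 15) (.e (nat_lit 188448) (nat_lit 22) .nil)))) .nil)))) (.nd (nat_lit 5) (.nd (nat_lit 6) 
(.lf (nat_lit 53010) (.g (nat_lit 3444) (.e (nat_lit 1362) (nat_lit 102) (.e (nat_lit 286759) (nat_lit 12) (.e (nat_lit 385074) (nat_lit 31) (.e (nat_lit 573482) (nat_lit 13) .nil)))) .nil)) 
(.lf (nat_lit 53074) (.g (nat_lit 745) (.e (nat_lit 7936) (nat_lit 102) (.e (nat_lit 286727) (nat_lit 0) (.e (nat_lit 1799) (nat_lit 119) (.e (nat_lit 516177) (nat_lit 14) .nil)))) .nil))) (.nd (nat_lit 6) 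
(.lf (nat_lit 53042) (.g (nat_lit 1570) (.e (nat_lit 1363) (nat_lit 102) (.e (nat_lit 286761) (nat_lit 13) (.e (nat_lit 393233) (nat_lit 17) (.e (nat_lit 7589) (nat_lit 406) .nil)))) .nil)) 
(.lf (nat_lit 53106) (.g (nat_lit 1732) (.e (nat_lit 7936) (nat_lit 102) (.e (nat_lit 286735) (nat_lit 3) (.e (nat_lit 98372) (nat_lit 29) (.e (nat_lit 458496) (nat_lit 1) .nil)))) .nil))))) (.nd (nat_lit 4) (.nd (nat_lit 5) (.nd (nat_lit 6) 
(.lf (nat_lit 53002) (.g (nat_lit 3219) (.e (nat_lit 1362) (nat_lit 102) (.e (nat_lit 286733) (nat_lit 2) (.e (nat_lit 90170) (nat_lit 13) (.e (nat_lit 172097) (nat_lit 9) .nil)))) .nil)) 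
(.lf (nat_lit 53066) (.g (nat_lit 3715) (.e (nat_lit 1363) (nat_lit 102) (.e (nat_lit 286761) (nat_lit 13) (.e (nat_lit 393301) (nat_lit 27) (.e (nat_lit 491555) (nat_lit 9) .nil)))) .nil))) (.nd (nat_lit 6) 
(.lf (nat_lit 53034) (.g (nat_lit 3721) (.e (nat_lit 1363) (nat_lit 102) (.e (nat_lit 286735) (nat_lit 3) (.e (nat_lit 98373) (nat_lit 29) (.e (nat_lit 450588) (nat_lit 10) (.e (nat_lit 573452) (nat_lit 9) .nil))))) .nil)) 
(.lf (nat_lit 53098) (.g (nat_lit 619) (.e (nat_lit 7936) (nat_lit 102) (.e (nat_lit 286735) (nat_lit 3) (.e (nat_lit 98359) (nat_lit 26) .nil))) .nil)))) (.nd (nat_lit 5) (.nd (nat_lit 6) 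
(.lf (nat_lit 53018) (.g (nat_lit 2358) (.e (nat_lit 1362) (nat_lit 102) (.e (nat_lit 286761) (nat_lit 13) (.e (nat_lit 393234) (nat_lit 17) (.e (nat_lit 7936) (nat_lit 406) .nil)))) .nil)) 
(.lf (nat_lit 53082) (.g (nat_lit 3258) (.e (nat_lit 7936) (nat_lit 102) (.e (nat_lit 286733) (nat_lit 2) (.e (nat_lit 90170) (nat_lit 13) (.e (nat_lit 172115) (nat_lit 10) (.e (nat_lit 434231) (nat_lit 23) .nil))))) .nil))) (.nd (nat_lit 6) 
(.lf (nat_lit 53050) (.g (nat_lit 2122) (.e (nat_lit 1363) (nat_lit 102) (.e (nat_lit 286761) (nat_lit 13) (.e (nat_lit 393298) (nat_lit 27) (.e (nat_lit 491552) (nat_lit 9) .nil)))) .nil)) 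
(.lf (nat_lit 53114) (.g (nat_lit 1872) (.e (nat_lit 7936) (nat_lit 102) (.e (nat_lit 286735) (nat_lit 3) (.e (nat_lit 98373) (nat_lit 29) (.e (nat_lit 450587) (nat_lit 10) (.e (nat_lit 573457) (nat_lit 9) .nil))))) .nil)))))) (.nd (nat_lit 3) (.nd (nat_lit 4) (.nd (nat_lit 5) (.nd (nat_lit 6) 
(.lf (nat_lit 52998) (.g (nat_lit 1761) (.e (nat_lit 1361) (nat_lit 102) (.e (nat_lit 286761) (nat_lit 13) (.e (nat_lit 393301) (nat_lit 27) (.e (nat_lit 491563) (nat_lit 12) .nil)))) .nil)) 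
(.lf (nat_lit 53062) (.g (nat_lit 3387) (.e (nat_lit 1363) (nat_lit 102) (.e (nat_lit 286761) (nat_lit 13) (.e (nat_lit 393301) (nat_lit 27) (.e (nat_lit 491552) (nat_lit 9) (.e (nat_lit 336248) (nat_lit 15) .nil))))) .nil))) (.nd (nat_lit 6) 
(.lf (nat_lit 53030) (.g (nat_lit 3352) (.e (nat_lit 1363) (nat_lit 102) (.e (nat_lit 286733) (nat_lit 2) (.e (nat_lit 90170) (nat_lit 13) (.e (nat_lit 172115) (nat_lit 10) .nil)))) .nil)) 
(.lf (nat_lit 53094) (.g (nat_lit 366) (.e (nat_lit 7936) (nat_lit 102) (.e (nat_lit 286734) (nat_lit 3) (.e (nat_lit 98372) (nat_lit 29) .nil))) .nil)))) (.nd (nat_lit 5) (.nd (nat_lit 6) 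
(.lf (nat_lit 53014) (.g (nat_lit 1934) (.e (nat_lit 1362) (nat_lit 102) (.e (nat_lit 286761) (nat_lit 13) (.e (nat_lit 393234) (nat_lit 17) (.e (nat_lit 7587) (nat_lit 406) (.e (nat_lit 65633) (nat_lit 15) (.e (nat_lit 6975) (nat_lit 377) .nil)))))) (.g (nat_lit 5) .nil .nil))) 
(.lf (nat_lit 53078) (.g (nat_lit 2887) (.e (nat_lit 7936) (nat_lit 102) (.e (nat_lit 286733) (nat_lit 2) (.e (nat_lit 90170) (nat_lit 13) (.e (nat_lit 172097) (nat_lit 9) .nil)))) .nil))) (.nd (nat_lit 6) 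
(.lf (nat_lit 53046) (.g (nat_lit 2075) (.e (nat_lit 1363) (nat_lit 102) (.e (nat_lit 286761) (nat_lit 13) (.e (nat_lit 393234) (nat_lit 17) (.e (nat_lit 7587) (nat_lit 406) (.e (nat_lit 73472) (nat_lit 15) .nil))))) .nil)) 
(.lf (nat_lit 53110) (.g (nat_lit 2150) (.e (nat_lit 7936) (nat_lit 102) (.e (nat_lit 286735) (nat_lit 3) (.e (nat_lit 98373) (nat_lit 29) (.e (nat_lit 450562) (nat_lit 0) .nil)))) .nil))))) (.nd (nat_lit 4) (.nd (nat_lit 5) (.nd (nat_lit 6) 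
(.lf (nat_lit 53006) (.g (nat_lit 2035) (.e (nat_lit 1362) (nat_lit 102) (.e (nat_lit 286733) (nat_lit 2) (.e (nat_lit 90176) (nat_lit 15) (.e (nat_lit 188447) (nat_lit 22) .nil)))) .nil)) 
(.lf (nat_lit 53070) (.g (nat_lit 3619) (.e (nat_lit 1363) (nat_lit 102) (.e (nat_lit 286761) (nat_lit 13) (.e (nat_lit 393301) (nat_lit 27) (.e (nat_lit 499456) (nat_lit 9) .nil)))) .nil))) (.nd (nat_lit 6) 
(.lf (nat_lit 53038) (.g (nat_lit 3159) (.e (nat_lit 1363) (nat_lit 102) (.e (nat_lit 286759) (nat_lit 12) (.e (nat_lit 385074) (nat_lit 31) (.e (nat_lit 573482) (nat_lit 13) .nil)))) .nil)) 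
(.lf (nat_lit 53102) (.g (nat_lit 2271) (.e (nat_lit 7936) (nat_lit 102) (.e (nat_lit 286735) (nat_lit 3) (.e (nat_lit 98370) (nat_lit 28) (.e (nat_lit 442424) (nat_lit 22) (.e (nat_lit 196661) (nat_lit 12) .nil))))) .nil)))) (.nd (nat_lit 5) (.nd (nat_lit 6) 
(.lf (nat_lit 53022) (.g (nat_lit 3658) (.e (nat_lit 1362) (nat_lit 102) (.e (nat_lit 286761) (nat_lit 13) (.e (nat_lit 393301) (nat_lit 27) (.e (nat_lit 491551) (nat_lit 9) .nil)))) .nil)) 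
(.lf (nat_lit 53086) (.g (nat_lit 323) (.e (nat_lit 7936) (nat_lit 102) (.e (nat_lit 286733) (nat_lit 2) (.e (nat_lit 90177) (nat_lit 15) .nil))) .nil))) (.nd (nat_lit 6) 
(.lf (nat_lit 53054) (.g (nat_lit 2192) (.e (nat_lit 1363) (nat_lit 102) (.e (nat_lit 286761) (nat_lit 13) (.e (nat_lit 393300) (nat_lit 27) (.e (nat_lit 491554) (nat_lit 9) .nil)))) .nil)) 
(.lf (nat_lit 53118) (.g (nat_lit 369) (.e (nat_lit 7936) (nat_lit 102) (.e (nat_lit 286743) (nat_lit 9) (.e (nat_lit 336446) (nat_lit 33) .nil))) .nil)))))))) (.nd (nat_lit 1) (.nd (nat_lit 2) (.nd (nat_lit 3) (.nd (nat_lit 4) (.nd (nat_lit 5) (.nd (nat_lit 6) 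
(.lf (nat_lit 52993) (.g (nat_lit 3163) (.e (nat_lit 1361) (nat_lit 102) (.e (nat_lit 286761) (nat_lit 13) (.e (nat_lit 393301) (nat_lit 27) (.e (nat_lit 499456) (nat_lit 9) .nil)))) .nil)) 
(.lf (nat_lit 53057) (.g (nat_lit 3652) (.e (nat_lit 1363) (nat_lit 102) (.e (nat_lit 286761) (nat_lit 13) (.e (nat_lit 393301) (nat_lit 27) (.e (nat_lit 491546) (nat_lit 9) .nil)))) .nil))) (.nd (nat_lit 6) 
(.lf (nat_lit 53025) (.g (nat_lit 3328) (.e (nat_lit 1362) (nat_lit 102) (.e (nat_lit 286761) (nat_lit 13) (.e (nat_lit 393301) (nat_lit 27) (.e (nat_lit 491556) (nat_lit 9) .nil)))) .nil)) 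
(.lf (nat_lit 53089) (.g (nat_lit 1797) (.e (nat_lit 7936) (nat_lit 102) (.e (nat_lit 286733) (nat_lit 2) (.e (nat_lit 90178) (nat_lit 15) (.e (nat_lit 188447) (nat_lit 22) .nil)))) .nil)))) (.nd (nat_lit 5) (.nd (nat_lit 6) 
(.lf (nat_lit 53009) (.g (nat_lit 3711) (.e (nat_lit 1362) (nat_lit 102) (.e (nat_lit 286735) (nat_lit 3) (.e (nat_lit 98373) (nat_lit 29) (.e (nat_lit 450588) (nat_lit 10) (.e (nat_lit 573452) (nat_lit 9) .nil))))) .nil)) 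
(.lf (nat_lit 53073) (.g (nat_lit 1697) (.e (nat_lit 7936) (nat_lit 102) (.e (nat_lit 286727) (nat_lit 0) (.e (nat_lit 1799) (nat_lit 119) (.e (nat_lit 516166) (nat_lit 12) (.e (nat_lit 458496) (nat_lit 1) .nil))))) .nil))) (.nd (nat_lit 6) 
(.lf (nat_lit 53041) (.g (nat_lit 725) (.e (nat_lit 1363) (nat_lit 102) (.e (nat_lit 286761) (nat_lit 13) (.e (nat_lit 393233) (nat_lit 17) .nil))) .nil)) 
(.lf (nat_lit 53105) (.g (nat_lit 920) (.e (nat_lit 7936) (nat_lit 102) (.e (nat_lit 286735) (nat_lit 3) (.e (nat_lit 98371) (nat_lit 28) (.e (nat_lit 442427) (nat_lit 23) .nil)))) .nil))))) (.nd (nat_lit 4) (.nd (nat_lit 5) (.nd (nat_lit 6) 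
(.lf (nat_lit 53001) (.g (nat_lit 3612) (.e (nat_lit 1361) (nat_lit 102) (.e (nat_lit 286761) (nat_lit 13) (.e (nat_lit 393301) (nat_lit 27) (.e (nat_lit 491572) (nat_lit 14) .nil)))) .nil)) 
(.lf (nat_lit 53065) (.g (nat_lit 3741) (.e (nat_lit 1363) (nat_lit 102) (.e (nat_lit 286761) (nat_lit 13) (.e (nat_lit 393301) (nat_lit 27) (.e (nat_lit 491553) (nat_lit 9) .nil)))) .nil))) (.nd (nat_lit 6) 
(.lf (nat_lit 53033) (.g (nat_lit 2407) (.e (nat_lit 1363) (nat_lit 102) (.e (nat_lit 286735) (nat_lit 3) (.e (nat_lit 98373) (nat_lit 29) (.e (nat_lit 450587) (nat_lit 10) .nil)))) .nil)) 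
(.lf (nat_lit 53097) (.g (nat_lit 413) (.e (nat_lit 7936) (nat_lit 102) (.e (nat_lit 286734) (nat_lit 3) (.e (nat_lit 98381) (nat_lit 31) .nil))) .nil)))) (.nd (nat_lit 5) (.nd (nat_lit 6) 
(.lf (nat_lit 53017) (.g (nat_lit 1694) (.e (nat_lit 1362) (nat_lit 102) (.e (nat_lit 286761) (nat_lit 13) (.e (nat_lit 393234) (nat_lit 17) (.e (nat_lit 7589) (nat_lit 406) (.e (nat_lit 65633) (nat_lit 15) .nil))))) .nil)) 
(.lf (nat_lit 53081) (.g (nat_lit 3354) (.e (nat_lit 7936) (nat_lit 102) (.e (nat_lit 286733) (nat_lit 2) (.e (nat_lit 90170) (nat_lit 13) (.e (nat_lit 172113) (nat_lit 10) (.e (nat_lit 434248) (nat_lit 28) .nil))))) .nil))) (.nd (nat_lit 6) 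
(.lf (nat_lit 53049) (.g (nat_lit 888) (.e (nat_lit 1363) (nat_lit 102) (.e (nat_lit 286761) (nat_lit 13) (.e (nat_lit 393298) (nat_lit 27) .nil))) .nil)) 
(.lf (nat_lit 53113) (.g (nat_lit 2173) (.e (nat_lit 7936) (nat_lit 102) (.e (nat_lit 286735) (nat_lit 3) (.e (nat_lit 98373) (nat_lit 29) (.e (nat_lit 450583) (nat_lit 7) .nil)))) .nil)))))) (.nd (nat_lit 3) (.nd (nat_lit 4) (.nd (nat_lit 5) (.nd (nat_lit 6) 
(.lf (nat_lit 52997) (.g (nat_lit 4384) (.e (nat_lit 1361) (nat_lit 102) (.e (nat_lit 286761) (nat_lit 13) (.e (nat_lit 393301) (nat_lit 27) (.e (nat_lit 491562) (nat_lit 12) (.e (nat_lit 385032) (nat_lit 16) .nil))))) .nil)) 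
(.lf (nat_lit 53061) (.g (nat_lit 2646) (.e (nat_lit 1363) (nat_lit 102) (.e (nat_lit 286761) (nat_lit 13) (.e (nat_lit 393301) (nat_lit 27) (.e (nat_lit 491552) (nat_lit 9) .nil)))) .nil))) (.nd (nat_lit 6) 
(.lf (nat_lit 53029) (.g (nat_lit 3248) (.e (nat_lit 1363) (nat_lit 102) (.e (nat_lit 286733) (nat_lit 2) (.e (nat_lit 90170) (nat_lit 13) (.e (nat_lit 172106) (nat_lit 10) (.e (nat_lit 434244) (nat_lit 28) .nil))))) .nil)) 
(.lf (nat_lit 53093) (.g (nat_lit 1403) (.e (nat_lit 7936) (nat_lit 102) (.e (nat_lit 286734) (nat_lit 3) (.e (nat_lit 98370) (nat_lit 28) (.e (nat_lit 442424) (nat_lit 22) .nil)))) .nil)))) (.nd (nat_lit 5) (.nd (nat_lit 6) 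
(.lf (nat_lit 53013) (.g (nat_lit 1616) (.e (nat_lit 1362) (nat_lit 102) (.e (nat_lit 286761) (nat_lit 13) (.e (nat_lit 393234) (nat_lit 17) (.e (nat_lit 7587) (nat_lit 406) (.e (nat_lit 65633) (nat_lit 15) .nil))))) .nil)) 
(.lf (nat_lit 53077) (.g (nat_lit 2991) (.e (nat_lit 7936) (nat_lit 102) (.e (nat_lit 286733) (nat_lit 2) (.e (nat_lit 90170) (nat_lit 13) (.e (nat_lit 172094) (nat_lit 9) .nil)))) .nil))) (.nd (nat_lit 6) 
(.lf (nat_lit 53045) (.g (nat_lit 2365) (.e (nat_lit 1363) (nat_lit 102) (.e (nat_lit 286761) (nat_lit 13) (.e (nat_lit 393234) (nat_lit 17) (.e (nat_lit 7587) (nat_lit 406) (.e (nat_lit 65633) (nat_lit 15) (.e (nat_lit 6975) (nat_lit 377) .nil)))))) (.g (nat_lit 4) .nil .nil))) 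
(.lf (nat_lit 53109) (.g (nat_lit 2036) (.e (nat_lit 7936) (nat_lit 102) (.e (nat_lit 286735) (nat_lit 3) (.e (nat_lit 98372) (nat_lit 29) (.e (nat_lit 450579) (nat_lit 5) (.e (nat_lit 532489) (nat_lit 0) .nil))))) .nil))))) (.nd (nat_lit 4) (.nd (nat_lit 5) (.nd (nat_lit 6) 
(.lf (nat_lit 53005) (.g (nat_lit 3346) (.e (nat_lit 1362) (nat_lit 102) (.e (nat_lit 286733) (nat_lit 2) (.e (nat_lit 90170) (nat_lit 13) (.e (nat_lit 172115) (nat_lit 10) .nil)))) .nil)) 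
(.lf (nat_lit 53069) (.g (nat_lit 4338) (.e (nat_lit 1363) (nat_lit 102) (.e (nat_lit 286761) (nat_lit 13) (.e (nat_lit 393301) (nat_lit 27) (.e (nat_lit 491556) (nat_lit 9) (.e (nat_lit 343808) (nat_lit 15) .nil))))) .nil))) (.nd (nat_lit 6) 
(.lf (nat_lit 53037) (.g (nat_lit 843) (.e (nat_lit 1363) (nat_lit 102) (.e (nat_lit 286752) (nat_lit 10) (.e (nat_lit 344177) (nat_lit 43) (.e (nat_lit 770057) (nat_lit 5) .nil)))) .nil)) 
(.lf (nat_lit 53101) (.g (nat_lit 1482) (.e (nat_lit 7936) (nat_lit 102) (.e (nat_lit 286735) (nat_lit 3) (.e (nat_lit 98369) (nat_lit 28) (.e (nat_lit 442427) (nat_lit 23) .nil)))) .nil)))) (.nd (nat_lit 5) (.nd (nat_lit 6) 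
(.lf (nat_lit 53021) (.g (nat_lit 3185) (.e (nat_lit 1362) (nat_lit 102) (.e (nat_lit 286761) (nat_lit 13) (.e (nat_lit 393301) (nat_lit 27) (.e (nat_lit 491547) (nat_lit 9) .nil)))) .nil)) 
(.lf (nat_lit 53085) (.g (nat_lit 1927) (.e (nat_lit 7936) (nat_lit 102) (.e (nat_lit 286733) (nat_lit 2) (.e (nat_lit 90176) (nat_lit 15) (.e (nat_lit 188450) (nat_lit 23) (.e (nat_lit 204819) (nat_lit 17) .nil))))) .nil))) (.nd (nat_lit 6) 
(.lf (nat_lit 53053) (.g (nat_lit 2007) (.e (nat_lit 1363) (nat_lit 102) (.e (nat_lit 286761) (nat_lit 13) (.e (nat_lit 393300) (nat_lit 27) (.e (nat_lit 491552) (nat_lit 9) .nil)))) .nil)) 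
(.lf (nat_lit 53117) (.g (nat_lit 1018) (.e (nat_lit 7936) (nat_lit 102) (.e (nat_lit 286743) (nat_lit 9) (.e (nat_lit 336316) (nat_lit 17) (.e (nat_lit 204544) (nat_lit 6) .nil)))) .nil))))))) (.nd (nat_lit 2) (.nd (nat_lit 3) (.nd (nat_lit 4) (.nd (nat_lit 5) (.nd (nat_lit 6) 
(.lf (nat_lit 52995) (.g (nat_lit 3530) (.e (nat_lit 1361) (nat_lit 102) (.e (nat_lit 286761) (nat_lit 13) (.e (nat_lit 393301) (nat_lit 27) (.e (nat_lit 491560) (nat_lit 10) .nil)))) .nil)) 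
(.lf (nat_lit 53059) (.g (nat_lit 3720) (.e (nat_lit 1363) (nat_lit 102) (.e (nat_lit 286761) (nat_lit 13) (.e (nat_lit 393301) (nat_lit 27) (.e (nat_lit 491551) (nat_lit 9) .nil)))) .nil))) (.nd (nat_lit 6) 
(.lf (nat_lit 53027) (.g (nat_lit 3522) (.e (nat_lit 1362) (nat_lit 102) (.e (nat_lit 286761) (nat_lit 13) (.e (nat_lit 393301) (nat_lit 27) (.e (nat_lit 491563) (nat_lit 12) .nil)))) .nil)) 
(.lf (nat_lit 53091) (.g (nat_lit 1921) (.e (nat_lit 7936) (nat_lit 102) (.e (nat_lit 286733) (nat_lit 2) (.e (nat_lit 90178) (nat_lit 15) (.e (nat_lit 188449) (nat_lit 22) .nil)))) .nil)))) (.nd (nat_lit 5) (.nd (nat_lit 6) 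
(.lf (nat_lit 53011) (.g (nat_lit 3021) (.e (nat_lit 1362) (nat_lit 102) (.e (nat_lit 286759) (nat_lit 12) (.e (nat_lit 385074) (nat_lit 31) (.e (nat_lit 573491) (nat_lit 15) .nil)))) .nil)) 
(.lf (nat_lit 53075) (.g (nat_lit 632) (.e (nat_lit 7936) (nat_lit 102) (.e (nat_lit 286733) (nat_lit 2) (.e (nat_lit 90169) (nat_lit 13) .nil))) .nil))) (.nd (nat_lit 6) 
(.lf (nat_lit 53043) (.g (nat_lit 1576) (.e (nat_lit 1363) (nat_lit 102) (.e (nat_lit 286761) (nat_lit 13) (.e (nat_lit 393233) (nat_lit 17) (.e (nat_lit 7936) (nat_lit 406) .nil)))) .nil)) 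
(.lf (nat_lit 53107) (.g (nat_lit 1313) (.e (nat_lit 7936) (nat_lit 102) (.e (nat_lit 286735) (nat_lit 3) (.e (nat_lit 98372) (nat_lit 29) (.e (nat_lit 450579) (nat_lit 5) .nil)))) .nil))))) (.nd (nat_lit 4) (.nd (nat_lit 5) (.nd (nat_lit 6) 
(.lf (nat_lit 53003) (.g (nat_lit 4002) (.e (nat_lit 1362) (nat_lit 102) (.e (nat_lit 286733) (nat_lit 2) (.e (nat_lit 90170) (nat_lit 13) (.e (nat_lit 172106) (nat_lit 10) (.e (nat_lit 434231) (nat_lit 23) (.e (nat_lit 532490) (nat_lit 0) (.e (nat_lit 6092) (nat_lit 332) .nil))))))) (.g (nat_lit 5) .nil .nil))) 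
(.lf (nat_lit 53067) (.g (nat_lit 3382) (.e (nat_lit 1363) (nat_lit 102) (.e (nat_lit 286761) (nat_lit 13) (.e (nat_lit 393301) (nat_lit 27) (.e (nat_lit 491556) (nat_lit 9) .nil)))) .nil))) (.nd (nat_lit 6) 
(.lf (nat_lit 53035) (.g (nat_lit 3770) (.e (nat_lit 1363) (nat_lit 102) (.e (nat_lit 286735) (nat_lit 3) (.e (nat_lit 98373) (nat_lit 29) (.e (nat_lit 450588) (nat_lit 10) (.e (nat_lit 573452) (nat_lit 9) (.e (nat_lit 61) (nat_lit 0) (.e (nat_lit 6973) (nat_lit 377) .nil))))))) (.g (nat_lit 4) .nil .nil))) 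
(.lf (nat_lit 53099) (.g (nat_lit 1576) (.e (nat_lit 7936) (nat_lit 102) (.e (nat_lit 286735) (nat_lit 3) (.e (nat_lit 98369) (nat_lit 28) (.e (nat_lit 442422) (nat_lit 22) .nil)))) .nil)))) (.nd (nat_lit 5) (.nd (nat_lit 6) 
(.lf (nat_lit 53019) (.g (nat_lit 539) (.e (nat_lit 1362) (nat_lit 102) (.e (nat_lit 286761) (nat_lit 13) (.e (nat_lit 393300) (nat_lit 27) .nil))) .nil)) 
(.lf (nat_lit 53083) (.g (nat_lit 2892) (.e (nat_lit 7936) (nat_lit 102) (.e (nat_lit 286733) (nat_lit 2) (.e (nat_lit 90176) (nat_lit 15) (.e (nat_lit 188447) (nat_lit 22) (.e (nat_lit 196661) (nat_lit 12) .nil))))) .nil))) (.nd (nat_lit 6) 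
(.lf (nat_lit 53051) (.g (nat_lit 1828) (.e (nat_lit 1363) (nat_lit 102) (.e (nat_lit 286761) (nat_lit 13) (.e (nat_lit 393300) (nat_lit 27) (.e (nat_lit 491547) (nat_lit 9) .nil)))) .nil)) 
(.lf (nat_lit 53115) (.g (nat_lit 1313) (.e (nat_lit 7936) (nat_lit 102) (.e (nat_lit 286735) (nat_lit 3) (.e (nat_lit 98373) (nat_lit 29) (.e (nat_lit 450588) (nat_lit 10) .nil)))) .nil)))))) (.nd (nat_lit 3) (.nd (nat_lit 4) (.nd (nat_lit 5) (.nd (nat_lit 6) 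
(.lf (nat_lit 52999) (.g (nat_lit 2943) (.e (nat_lit 1361) (nat_lit 102) (.e (nat_lit 286761) (nat_lit 13) (.e (nat_lit 393301) (nat_lit 27) (.e (nat_lit 491563) (nat_lit 12) (.e (nat_lit 392960) (nat_lit 16) .nil))))) (.g (nat_lit 4) .nil .nil))) 
(.lf (nat_lit 53063) (.g (nat_lit 3856) (.e (nat_lit 1363) (nat_lit 102) (.e (nat_lit 286761) (nat_lit 13) (.e (nat_lit 393301) (nat_lit 27) (.e (nat_lit 491552) (nat_lit 9) (.e (nat_lit 336253) (nat_lit 15) (.e (nat_lit 6975) (nat_lit 377) .nil)))))) (.g (nat_lit 0) .nil .nil)))) (.nd (nat_lit 6) 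
(.lf (nat_lit 53031) (.g (nat_lit 2035) (.e (nat_lit 1363) (nat_lit 102) (.e (nat_lit 286733) (nat_lit 2) (.e (nat_lit 90176) (nat_lit 15) (.e (nat_lit 188447) (nat_lit 22) .nil)))) .nil)) 
(.lf (nat_lit 53095) (.g (nat_lit 1395) (.e (nat_lit 7936) (nat_lit 102) (.e (nat_lit 286734) (nat_lit 3) (.e (nat_lit 98372) (nat_lit 29) (.e (nat_lit 450579) (nat_lit 5) .nil)))) .nil)))) (.nd (nat_lit 5) (.nd (nat_lit 6) 
(.lf (nat_lit 53015) (.g (nat_lit 1546) (.e (nat_lit 1362) (nat_lit 102) (.e (nat_lit 286761) (nat_lit 13) (.e (nat_lit 393234) (nat_lit 17) (.e (nat_lit 7587) (nat_lit 406) (.e (nat_lit 73472) (nat_lit 15) (.e (nat_lit 6975) (nat_lit 377) .nil)))))) (.g (nat_lit 4) .nil .nil))) 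
(.lf (nat_lit 53079) (.g (nat_lit 3438) (.e (nat_lit 7936) (nat_lit 102) (.e (nat_lit 286733) (nat_lit 2) (.e (nat_lit 90170) (nat_lit 13) (.e (nat_lit 172113) (nat_lit 10) (.e (nat_lit 434231) (nat_lit 23) .nil))))) .nil))) (.nd (nat_lit 6) 
(.lf (nat_lit 53047) (.g (nat_lit 1685) (.e (nat_lit 1363) (nat_lit 102) (.e (nat_lit 286761) (nat_lit 13) (.e (nat_lit 393234) (nat_lit 17) (.e (nat_lit 7589) (nat_lit 406) .nil)))) .nil)) 
(.lf (nat_lit 53111) (.g (nat_lit 2093) (.e (nat_lit 7936) (nat_lit 102) (.e (nat_lit 286735) (nat_lit 3) (.e (nat_lit 98373) (nat_lit 29) (.e (nat_lit 450563) (nat_lit 0) .nil)))) .nil))))) (.nd (nat_lit 4) (.nd (nat_lit 5) (.nd (nat_lit 6) 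
(.lf (nat_lit 53007) (.g (nat_lit 974) (.e (nat_lit 1362) (nat_lit 102) (.e (nat_lit 286735) (nat_lit 3) (.e (nat_lit 98372) (nat_lit 29) .nil))) .nil)) 
(.lf (nat_lit 53071) (.g (nat_lit 3512) (.e (nat_lit 1363) (nat_lit 102) (.e (nat_lit 286761) (nat_lit 13) (.e (nat_lit 393301) (nat_lit 27) (.e (nat_lit 491562) (nat_lit 12) .nil)))) .nil))) (.nd (nat_lit 6) 
(.lf (nat_lit 53039) (.g (nat_lit 2794) (.e (nat_lit 1363) (nat_lit 102) (.e (nat_lit 286759) (nat_lit 12) (.e (nat_lit 385074) (nat_lit 31) (.e (nat_lit 573491) (nat_lit 15) .nil)))) .nil)) 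
(.lf (nat_lit 53103) (.g (nat_lit 2164) (.e (nat_lit 7936) (nat_lit 102) (.e (nat_lit 286735) (nat_lit 3) (.e (nat_lit 98370) (nat_lit 28) (.e (nat_lit 442427) (nat_lit 23) (.e (nat_lit 204821) (nat_lit 17) .nil))))) .nil)))) (.nd (nat_lit 5) (.nd (nat_lit 6) 
(.lf (nat_lit 53023) (.g (nat_lit 3262) (.e (nat_lit 1362) (nat_lit 102) (.e (nat_lit 286761) (nat_lit 13) (.e (nat_lit 393301) (nat_lit 27) (.e (nat_lit 491552) (nat_lit 9) .nil)))) .nil)) 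
(.lf (nat_lit 53087) (.g (nat_lit 1680) (.e (nat_lit 7936) (nat_lit 102) (.e (nat_lit 286733) (nat_lit 2) (.e (nat_lit 90177) (nat_lit 15) (.e (nat_lit 188447) (nat_lit 22) (.e (nat_lit 196661) (nat_lit 12) .nil))))) .nil))) (.nd (nat_lit 6) 
(.lf (nat_lit 53055) (.g (nat_lit 2796) (.e (nat_lit 1363) (nat_lit 102) (.e (nat_lit 286761) (nat_lit 13) (.e (nat_lit 393300) (nat_lit 27) (.e (nat_lit 491556) (nat_lit 9) (.e (nat_lit 336298) (nat_lit 15) .nil))))) .nil)) 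
(.lf (nat_lit 53119) (.g (nat_lit 345) (.e (nat_lit 7936) (nat_lit 102) (.e (nat_lit 286748) (nat_lit 9) (.e (nat_lit 336389) (nat_lit 27) .nil))) .nil)))))))))

noncomputable def tv734 : DT := (.nd (nat_lit 0) (.nd (nat_lit 1) (.nd (nat_lit 2) (.nd (nat_lit 3) (.nd (nat_lit 4) (.nd (nat_lit 5) (.nd (nat_lit 6) 
(.lf (nat_lit 53120) (.g (nat_lit 1507) (.e (nat_lit 7936) (nat_lit 102) (.e (nat_lit 286748) (nat_lit 9) (.e (nat_lit 336389) (nat_lit 27) (.e (nat_lit 426011) (nat_lit 0) .nil)))) .nil)) 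
(.lf (nat_lit 53184) (.g (nat_lit 3366) (.e (nat_lit 7936) (nat_lit 102) (.e (nat_lit 286761) (nat_lit 13) (.e (nat_lit 393298) (nat_lit 27) (.e (nat_lit 491566) (nat_lit 12) (.e (nat_lit 385036) (nat_lit 16) .nil))))) .nil))) (.nd (nat_lit 6) 
(.lf (nat_lit 53152) (.g (nat_lit 1700) (.e (nat_lit 7936) (nat_lit 102) (.e (nat_lit 286761) (nat_lit 13) (.e (nat_lit 393260) (nat_lit 21) (.e (nat_lit 409623) (nat_lit 10) (.e (nat_lit 5664) (nat_lit 312) .nil))))) .nil)) 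
(.lf (nat_lit 53216) (.g (nat_lit 2283) (.e (nat_lit 7936) (nat_lit 102) (.e (nat_lit 286761) (nat_lit 13) (.e (nat_lit 393301) (nat_lit 27) (.e (nat_lit 491558) (nat_lit 10) .nil)))) .nil)))) (.nd (nat_lit 5) (.nd (nat_lit 6) 
(.lf (nat_lit 53136) (.g (nat_lit 2738) (.e (nat_lit 7936) (nat_lit 102) (.e (nat_lit 286760) (nat_lit 13) (.e (nat_lit 393298) (nat_lit 27) (.e (nat_lit 491566) (nat_lit 12) (.e (nat_lit 385036) (nat_lit 16) .nil))))) .nil)) 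
(.lf (nat_lit 53200) (.g (nat_lit 3801) (.e (nat_lit 7936) (nat_lit 102) (.e (nat_lit 286761) (nat_lit 13) (.e (nat_lit 393301) (nat_lit 27) (.e (nat_lit 491546) (nat_lit 9) (.e (nat_lit 336255) (nat_lit 15) .nil))))) .nil))) (.nd (nat_lit 6) 
(.lf (nat_lit 53168) (.g (nat_lit 507) (.e (nat_lit 7936) (nat_lit 102) (.e (nat_lit 286761) (nat_lit 13) (.e (nat_lit 393293) (nat_lit 26) .nil))) .nil)) 
(.lf (nat_lit 53232) (.g (nat_lit 1009) (.e (nat_lit 1364) (nat_lit 103) (.e (nat_lit 294960) (nat_lit 13) (.e (nat_lit 393238) (nat_lit 17) (.e (nat_lit 7936) (nat_lit 406) .nil)))) .nil))))) (.nd (nat_lit 4) (.nd (nat_lit 5) (.nd (nat_lit 6) 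
(.lf (nat_lit 53128) (.g (nat_lit 2420) (.e (nat_lit 7936) (nat_lit 102) (.e (nat_lit 286759) (nat_lit 12) (.e (nat_lit 385074) (nat_lit 31) (.e (nat_lit 573482) (nat_lit 13) .nil)))) .nil)) 
(.lf (nat_lit 53192) (.g (nat_lit 1579) (.e (nat_lit 7936) (nat_lit 102) (.e (nat_lit 286761) (nat_lit 13) (.e (nat_lit 393300) (nat_lit 27) (.e (nat_lit 491554) (nat_lit 9) .nil)))) .nil))) (.nd (nat_lit 6) 
(.lf (nat_lit 53160) (.g (nat_lit 771) (.e (nat_lit 7936) (nat_lit 102) (.e (nat_lit 286761) (nat_lit 13) (.e (nat_lit 393265) (nat_lit 22) (.e (nat_lit 417820) (nat_lit 10) .nil)))) .nil)) 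
(.lf (nat_lit 53224) (.g (nat_lit 2827) (.e (nat_lit 1364) (nat_lit 103) (.e (nat_lit 294928) (nat_lit 2) (.e (nat_lit 90176) (nat_lit 15) (.e (nat_lit 188447) (nat_lit 22) (.e (nat_lit 196661) (nat_lit 12) (.e (nat_lit 57711) (nat_lit 176) .nil)))))) (.g (nat_lit 0) .nil .nil))))) (.nd (nat_lit 5) (.nd (nat_lit 6) 
(.lf (nat_lit 53144) (.g (nat_lit 2110) (.e (nat_lit 7936) (nat_lit 102) (.e (nat_lit 286761) (nat_lit 13) (.e (nat_lit 393234) (nat_lit 17) (.e (nat_lit 7587) (nat_lit 406) (.e (nat_lit 65632) (nat_lit 15) .nil))))) .nil)) 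
(.lf (nat_lit 53208) (.g (nat_lit 3102) (.e (nat_lit 7936) (nat_lit 102) (.e (nat_lit 286761) (nat_lit 13) (.e (nat_lit 393301) (nat_lit 27) (.e (nat_lit 491552) (nat_lit 9) (.e (nat_lit 336255) (nat_lit 15) .nil))))) .nil))) (.nd (nat_lit 6) 
(.lf (nat_lit 53176) (.g (nat_lit 1626) (.e (nat_lit 7936) (nat_lit 102) (.e (nat_lit 286761) (nat_lit 13) (.e (nat_lit 393298) (nat_lit 27) (.e (nat_lit 491552) (nat_lit 9) .nil)))) .nil)) 
(.lf (nat_lit 53240) (.g (nat_lit 3999) (.e (nat_lit 1365) (nat_lit 103) (.e (nat_lit 294928) (nat_lit 2) (.e (nat_lit 90170) (nat_lit 13) (.e (nat_lit 172106) (nat_lit 10) (.e (nat_lit 434231) (nat_lit 23) (.e (nat_lit 532490) (nat_lit 0) (.e (nat_lit 6149) (nat_lit 332) .nil))))))) (.g (nat_lit 7) .nil .nil))))))) (.nd (nat_lit 3) (.nd (nat_lit 4) (.nd (nat_lit 5) (.nd (nat_lit 6) 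
(.lf (nat_lit 53124) (.g (nat_lit 1428) (.e (nat_lit 7936) (nat_lit 102) (.e (nat_lit 286749) (nat_lit 9) (.e (nat_lit 336028) (nat_lit 3) (.e (nat_lit 98367) (nat_lit 27) .nil)))) .nil)) 
(.lf (nat_lit 53188) (.g (nat_lit 1199) (.e (nat_lit 7936) (nat_lit 102) (.e (nat_lit 286761) (nat_lit 13) (.e (nat_lit 393300) (nat_lit 27) (.e (nat_lit 491547) (nat_lit 9) .nil)))) .nil))) (.nd (nat_lit 6) 
(.lf (nat_lit 53156) (.g (nat_lit 1441) (.e (nat_lit 7936) (nat_lit 102) (.e (nat_lit 286761) (nat_lit 13) (.e (nat_lit 393260) (nat_lit 21) (.e (nat_lit 409647) (nat_lit 18) .nil)))) .nil)) 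
(.lf (nat_lit 53220) (.g (nat_lit 3529) (.e (nat_lit 7936) (nat_lit 102) (.e (nat_lit 286761) (nat_lit 13) (.e (nat_lit 393301) (nat_lit 27) (.e (nat_lit 491560) (nat_lit 10) (.e (nat_lit 344172) (nat_lit 41) .nil))))) .nil)))) (.nd (nat_lit 5) (.nd (nat_lit 6) 
(.lf (nat_lit 53140) (.g (nat_lit 1214) (.e (nat_lit 7936) (nat_lit 102) (.e (nat_lit 286761) (nat_lit 13) (.e (nat_lit 393233) (nat_lit 17) (.e (nat_lit 7587) (nat_lit 406) .nil)))) .nil)) 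
(.lf (nat_lit 53204) (.g (nat_lit 2023) (.e (nat_lit 7936) (nat_lit 102) (.e (nat_lit 286761) (nat_lit 13) (.e (nat_lit 393301) (nat_lit 27) (.e (nat_lit 491552) (nat_lit 9) .nil)))) .nil))) (.nd (nat_lit 6) 
(.lf (nat_lit 53172) (.g (nat_lit 1342) (.e (nat_lit 7936) (nat_lit 102) (.e (nat_lit 286761) (nat_lit 13) (.e (nat_lit 393293) (nat_lit 26) (.e (nat_lit 483072) (nat_lit 40) .nil)))) .nil)) 
(.lf (nat_lit 53236) (.g (nat_lit 2548) (.e (nat_lit 1365) (nat_lit 103) (.e (nat_lit 294927) (nat_lit 2) (.e (nat_lit 90170) (nat_lit 13) (.e (nat_lit 172106) (nat_lit 10) (.e (nat_lit 434231) (nat_lit 23) (.e (nat_lit 532490) (nat_lit 0) (.e (nat_lit 6092) (nat_lit 332) .nil))))))) (.g (nat_lit 4) .nil .nil)))))) (.nd (nat_lit 4) (.nd (nat_lit 5) (.nd (nat_lit 6) 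
(.lf (nat_lit 53132) (.g (nat_lit 1149) (.e (nat_lit 7936) (nat_lit 102) (.e (nat_lit 286759) (nat_lit 12) (.e (nat_lit 385106) (nat_lit 50) (.e (nat_lit 786483) (nat_lit 30) (.e (nat_lit 360451) (nat_lit 0) .nil))))) .nil)) 
(.lf (nat_lit 53196) (.g (nat_lit 1064) (.e (nat_lit 7936) (nat_lit 102) (.e (nat_lit 286761) (nat_lit 13) (.e (nat_lit 393300) (nat_lit 27) (.e (nat_lit 491565) (nat_lit 12) .nil)))) .nil))) (.nd (nat_lit 6) 
(.lf (nat_lit 53164) (.g (nat_lit 926) (.e (nat_lit 7936) (nat_lit 102) (.e (nat_lit 286761) (nat_lit 13) (.e (nat_lit 393270) (nat_lit 23) (.e (nat_lit 426444) (nat_lit 19) .nil)))) .nil)) 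
(.lf (nat_lit 53228) (.g (nat_lit 533) (.e (nat_lit 1364) (nat_lit 103) (.e (nat_lit 294940) (nat_lit 9) (.e (nat_lit 336421) (nat_lit 28) (.e (nat_lit 442112) (nat_lit 4) .nil)))) .nil)))) (.nd (nat_lit 5) (.nd (nat_lit 6) 
(.lf (nat_lit 53148) (.g (nat_lit 600) (.e (nat_lit 7936) (nat_lit 102) (.e (nat_lit 286761) (nat_lit 13) (.e (nat_lit 393237) (nat_lit 17) .nil))) .nil)) 
(.lf (nat_lit 53212) (.g (nat_lit 3466) (.e (nat_lit 7936) (nat_lit 102) (.e (nat_lit 286761) (nat_lit 13) (.e (nat_lit 393301) (nat_lit 27) (.e (nat_lit 491555) (nat_lit 9) .nil)))) .nil))) (.nd (nat_lit 6) 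
(.lf (nat_lit 53180) (.g (nat_lit 1485) (.e (nat_lit 7936) (nat_lit 102) (.e (nat_lit 286761) (nat_lit 13) (.e (nat_lit 393298) (nat_lit 27) (.e (nat_lit 491566) (nat_lit 12) .nil)))) .nil)) 
(.lf (nat_lit 53244) (.g (nat_lit 2275) (.e (nat_lit 1365) (nat_lit 103) (.e (nat_lit 294928) (nat_lit 2) (.e (nat_lit 90176) (nat_lit 15) (.e (nat_lit 188450) (nat_lit 23) (.e (nat_lit 204821) (nat_lit 17) (.e (nat_lit 6092) (nat_lit 332) .nil)))))) (.g (nat_lit 5) .nil .nil)))))))) (.nd (nat_lit 2) (.nd (nat_lit 3) (.nd (nat_lit 4) (.nd (nat_lit 5) (.nd (nat_lit 6) 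
(.lf (nat_lit 53122) (.g (nat_lit 2042) (.e (nat_lit 7936) (nat_lit 102) (.e (nat_lit 286749) (nat_lit 9) (.e (nat_lit 336013) (nat_lit 2) (.e (nat_lit 90165) (nat_lit 12) (.e (nat_lit 171776) (nat_lit 192) .nil))))) .nil)) 
(.lf (nat_lit 53186) (.g (nat_lit 302) (.e (nat_lit 7936) (nat_lit 102) (.e (nat_lit 286761) (nat_lit 13) (.e (nat_lit 393300) (nat_lit 27) .nil))) .nil))) (.nd (nat_lit 6) 
(.lf (nat_lit 53154) (.g (nat_lit 1996) (.e (nat_lit 7936) (nat_lit 102) (.e (nat_lit 286761) (nat_lit 13) (.e (nat_lit 393260) (nat_lit 21) (.e (nat_lit 409644) (nat_lit 18) (.e (nat_lit 303149) (nat_lit 15) .nil))))) .nil)) 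
(.lf (nat_lit 53218) (.g (nat_lit 3123) (.e (nat_lit 7936) (nat_lit 102) (.e (nat_lit 286761) (nat_lit 13) (.e (nat_lit 393301) (nat_lit 27) (.e (nat_lit 491559) (nat_lit 10) .nil)))) .nil)))) (.nd (nat_lit 5) (.nd (nat_lit 6) 
(.lf (nat_lit 53138) (.g (nat_lit 262) (.e (nat_lit 7936) (nat_lit 102) (.e (nat_lit 286760) (nat_lit 13) (.e (nat_lit 393300) (nat_lit 27) .nil))) .nil)) 
(.lf (nat_lit 53202) (.g (nat_lit 2423) (.e (nat_lit 7936) (nat_lit 102) (.e (nat_lit 286761) (nat_lit 13) (.e (nat_lit 393301) (nat_lit 27) (.e (nat_lit 491547) (nat_lit 9) .nil)))) .nil))) (.nd (nat_lit 6) 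
(.lf (nat_lit 53170) (.g (nat_lit 1351) (.e (nat_lit 7936) (nat_lit 102) (.e (nat_lit 286761) (nat_lit 13) (.e (nat_lit 393293) (nat_lit 26) (.e (nat_lit 475201) (nat_lit 40) .nil)))) .nil)) 
(.lf (nat_lit 53234) (.g (nat_lit 935) (.e (nat_lit 1364) (nat_lit 103) (.e (nat_lit 294960) (nat_lit 13) (.e (nat_lit 393260) (nat_lit 21) (.e (nat_lit 417536) (nat_lit 16) .nil)))) .nil))))) (.nd (nat_lit 4) (.nd (nat_lit 5) (.nd (nat_lit 6) 
(.lf (nat_lit 53130) (.g (nat_lit 1419) (.e (nat_lit 7936) (nat_lit 102) (.e (nat_lit 286759) (nat_lit 12) (.e (nat_lit 385074) (nat_lit 31) (.e (nat_lit 573485) (nat_lit 13) .nil)))) .nil)) 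
(.lf (nat_lit 53194) (.g (nat_lit 1031) (.e (nat_lit 7936) (nat_lit 102) (.e (nat_lit 286761) (nat_lit 13) (.e (nat_lit 393300) (nat_lit 27) (.e (nat_lit 491564) (nat_lit 12) .nil)))) .nil))) (.nd (nat_lit 6) 
(.lf (nat_lit 53162) (.g (nat_lit 1063) (.e (nat_lit 7936) (nat_lit 102) (.e (nat_lit 286761) (nat_lit 13) (.e (nat_lit 393265) (nat_lit 22) (.e (nat_lit 417827) (nat_lit 17) .nil)))) .nil)) 
(.lf (nat_lit 53226) (.g (nat_lit 2466) (.e (nat_lit 1364) (nat_lit 103) (.e (nat_lit 294940) (nat_lit 9) (.e (nat_lit 336395) (nat_lit 27) (.e (nat_lit 426340) (nat_lit 14) (.e (nat_lit 491566) (nat_lit 12) (.e (nat_lit 385032) (nat_lit 16) .nil)))))) (.g (nat_lit 5) .nil .nil))))) (.nd (nat_lit 5) (.nd (nat_lit 6) 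
(.lf (nat_lit 53146) (.g (nat_lit 2112) (.e (nat_lit 7936) (nat_lit 102) (.e (nat_lit 286761) (nat_lit 13) (.e (nat_lit 393234) (nat_lit 17) (.e (nat_lit 7589) (nat_lit 406) (.e (nat_lit 65632) (nat_lit 15) .nil))))) .nil)) 
(.lf (nat_lit 53210) (.g (nat_lit 3182) (.e (nat_lit 7936) (nat_lit 102) (.e (nat_lit 286761) (nat_lit 13) (.e (nat_lit 393301) (nat_lit 27) (.e (nat_lit 491552) (nat_lit 9) (.e (nat_lit 336290) (nat_lit 15) .nil))))) .nil))) (.nd (nat_lit 6) 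
(.lf (nat_lit 53178) (.g (nat_lit 1584) (.e (nat_lit 7936) (nat_lit 102) (.e (nat_lit 286761) (nat_lit 13) (.e (nat_lit 393298) (nat_lit 27) (.e (nat_lit 491565) (nat_lit 12) .nil)))) .nil)) 
(.lf (nat_lit 53242) (.g (nat_lit 2107) (.e (nat_lit 1365) (nat_lit 103) (.e (nat_lit 294928) (nat_lit 2) (.e (nat_lit 90176) (nat_lit 15) (.e (nat_lit 188450) (nat_lit 23) (.e (nat_lit 204817) (nat_lit 17) (.e (nat_lit 6200) (nat_lit 332) .nil)))))) (.g (nat_lit 5) .nil .nil))))))) (.nd (nat_lit 3) (.nd (nat_lit 4) (.nd (nat_lit 5) (.nd (nat_lit 6) 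
(.lf (nat_lit 53126) (.g (nat_lit 1784) (.e (nat_lit 7936) (nat_lit 102) (.e (nat_lit 286756) (nat_lit 10) (.e (nat_lit 344129) (nat_lit 26) (.e (nat_lit 557087) (nat_lit 11) (.e (nat_lit 24632) (nat_lit 9) .nil))))) .nil)) 
(.lf (nat_lit 53190) (.g (nat_lit 1178) (.e (nat_lit 7936) (nat_lit 102) (.e (nat_lit 286761) (nat_lit 13) (.e (nat_lit 393300) (nat_lit 27) (.e (nat_lit 491551) (nat_lit 9) .nil)))) .nil))) (.nd (nat_lit 6) 
(.lf (nat_lit 53158) (.g (nat_lit 832) (.e (nat_lit 7936) (nat_lit 102) (.e (nat_lit 286761) (nat_lit 13) (.e (nat_lit 393263) (nat_lit 22) (.e (nat_lit 417829) (nat_lit 18) .nil)))) .nil)) 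
(.lf (nat_lit 53222) (.g (nat_lit 2728) (.e (nat_lit 7936) (nat_lit 102) (.e (nat_lit 286761) (nat_lit 13) (.e (nat_lit 393301) (nat_lit 27) (.e (nat_lit 491563) (nat_lit 12) .nil)))) .nil)))) (.nd (nat_lit 5) (.nd (nat_lit 6) 
(.lf (nat_lit 53142) (.g (nat_lit 1211) (.e (nat_lit 7936) (nat_lit 102) (.e (nat_lit 286761) (nat_lit 13) (.e (nat_lit 393233) (nat_lit 17) (.e (nat_lit 7936) (nat_lit 406) .nil)))) .nil)) 
(.lf (nat_lit 53206) (.g (nat_lit 2655) (.e (nat_lit 7936) (nat_lit 102) (.e (nat_lit 286761) (nat_lit 13) (.e (nat_lit 393301) (nat_lit 27) (.e (nat_lit 491552) (nat_lit 9) (.e (nat_lit 336250) (nat_lit 15) .nil))))) .nil))) (.nd (nat_lit 6) 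
(.lf (nat_lit 53174) (.g (nat_lit 1178) (.e (nat_lit 7936) (nat_lit 102) (.e (nat_lit 286761) (nat_lit 13) (.e (nat_lit 393293) (nat_lit 26) (.e (nat_lit 475218) (nat_lit 44) .nil)))) .nil)) 
(.lf (nat_lit 53238) (.g (nat_lit 4137) (.e (nat_lit 1365) (nat_lit 103) (.e (nat_lit 294928) (nat_lit 2) (.e (nat_lit 90170) (nat_lit 13) (.e (nat_lit 172106) (nat_lit 10) (.e (nat_lit 434231) (nat_lit 23) (.e (nat_lit 532482) (nat_lit 0) (.e (nat_lit 6192) (nat_lit 332) .nil))))))) (.g (nat_lit 7) .nil .nil)))))) (.nd (nat_lit 4) (.nd (nat_lit 5) (.nd (nat_lit 6) 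
(.lf (nat_lit 53134) (.g (nat_lit 2672) (.e (nat_lit 7936) (nat_lit 102) (.e (nat_lit 286760) (nat_lit 13) (.e (nat_lit 393298) (nat_lit 27) (.e (nat_lit 491566) (nat_lit 12) (.e (nat_lit 385032) (nat_lit 16) .nil))))) .nil)) 
(.lf (nat_lit 53198) (.g (nat_lit 3027) (.e (nat_lit 7936) (nat_lit 102) (.e (nat_lit 286761) (nat_lit 13) (.e (nat_lit 393301) (nat_lit 27) (.e (nat_lit 491526) (nat_lit 0) .nil)))) .nil))) (.nd (nat_lit 6) 
(.lf (nat_lit 53166) (.g (nat_lit 1472) (.e (nat_lit 7936) (nat_lit 102) (.e (nat_lit 286761) (nat_lit 13) (.e (nat_lit 393291) (nat_lit 26) (.e (nat_lit 475219) (nat_lit 44) .nil)))) .nil)) 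
(.lf (nat_lit 53230) (.g (nat_lit 2145) (.e (nat_lit 1364) (nat_lit 103) (.e (nat_lit 294959) (nat_lit 13) (.e (nat_lit 393260) (nat_lit 21) (.e (nat_lit 409616) (nat_lit 10) (.e (nat_lit 7936) (nat_lit 313) .nil))))) .nil)))) (.nd (nat_lit 5) (.nd (nat_lit 6) 
(.lf (nat_lit 53150) (.g (nat_lit 1858) (.e (nat_lit 7936) (nat_lit 102) (.e (nat_lit 286761) (nat_lit 13) (.e (nat_lit 393251) (nat_lit 18) (.e (nat_lit 164179) (nat_lit 154) .nil)))) .nil)) 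
(.lf (nat_lit 53214) (.g (nat_lit 3507) (.e (nat_lit 7936) (nat_lit 102) (.e (nat_lit 286761) (nat_lit 13) (.e (nat_lit 393301) (nat_lit 27) (.e (nat_lit 491557) (nat_lit 9) .nil)))) .nil))) (.nd (nat_lit 6) 
(.lf (nat_lit 53182) (.g (nat_lit 4314) (.e (nat_lit 7936) (nat_lit 102) (.e (nat_lit 286761) (nat_lit 13) (.e (nat_lit 393298) (nat_lit 27) (.e (nat_lit 491566) (nat_lit 12) (.e (nat_lit 385034) (nat_lit 16) .nil))))) .nil)) 
(.lf (nat_lit 53246) (.g (nat_lit 2301) (.e (nat_lit 1365) (nat_lit 103) (.e (nat_lit 294928) (nat_lit 2) (.e (nat_lit 90176) (nat_lit 15) (.e (nat_lit 188450) (nat_lit 23) (.e (nat_lit 204821) (nat_lit 17) (.e (nat_lit 6149) (nat_lit 332) .nil)))))) (.g (nat_lit 0) .nil .nil))))))))) (.nd (nat_lit 1) (.nd (nat_lit 2) (.nd (nat_lit 3) (.nd (nat_lit 4) (.nd (nat_lit 5) (.nd (nat_lit 6) 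
(.lf (nat_lit 53121) (.g (nat_lit 980) (.e (nat_lit 7936) (nat_lit 102) (.e (nat_lit 286748) (nat_lit 9) (.e (nat_lit 336389) (nat_lit 27) (.e (nat_lit 426012) (nat_lit 0) .nil)))) .nil)) 
(.lf (nat_lit 53185) (.g (nat_lit 3914) (.e (nat_lit 7936) (nat_lit 102) (.e (nat_lit 286761) (nat_lit 13) (.e (nat_lit 393298) (nat_lit 27) (.e (nat_lit 491566) (nat_lit 12) (.e (nat_lit 385038) (nat_lit 16) .nil))))) .nil))) (.nd (nat_lit 6) 
(.lf (nat_lit 53153) (.g (nat_lit 1978) (.e (nat_lit 7936) (nat_lit 102) (.e (nat_lit 286761) (nat_lit 13) (.e (nat_lit 393260) (nat_lit 21) (.e (nat_lit 409643) (nat_lit 18) (.e (nat_lit 303149) (nat_lit 15) .nil))))) .nil)) 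
(.lf (nat_lit 53217) (.g (nat_lit 3499) (.e (nat_lit 7936) (nat_lit 102) (.e (nat_lit 286761) (nat_lit 13) (.e (nat_lit 393301) (nat_lit 27) (.e (nat_lit 491558) (nat_lit 10) (.e (nat_lit 344172) (nat_lit 41) .nil))))) .nil)))) (.nd (nat_lit 5) (.nd (nat_lit 6) 
(.lf (nat_lit 53137) (.g (nat_lit 3397) (.e (nat_lit 7936) (nat_lit 102) (.e (nat_lit 286760) (nat_lit 13) (.e (nat_lit 393298) (nat_lit 27) (.e (nat_lit 491566) (nat_lit 12) (.e (nat_lit 385038) (nat_lit 16) .nil))))) .nil)) 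
(.lf (nat_lit 53201) (.g (nat_lit 3702) (.e (nat_lit 7936) (nat_lit 102) (.e (nat_lit 286761) (nat_lit 13) (.e (nat_lit 393301) (nat_lit 27) (.e (nat_lit 491546) (nat_lit 9) (.e (nat_lit 336289) (nat_lit 15) .nil))))) .nil))) (.nd (nat_lit 6) 
(.lf (nat_lit 53169) (.g (nat_lit 1336) (.e (nat_lit 7936) (nat_lit 102) (.e (nat_lit 286761) (nat_lit 13) (.e (nat_lit 393293) (nat_lit 26) (.e (nat_lit 475200) (nat_lit 40) .nil)))) .nil)) 
(.lf (nat_lit 53233) (.g (nat_lit 1743) (.e (nat_lit 1364) (nat_lit 103) (.e (nat_lit 294960) (nat_lit 13) (.e (nat_lit 393260) (nat_lit 21) (.e (nat_lit 409616) (nat_lit 10) .nil)))) .nil))))) (.nd (nat_lit 4) (.nd (nat_lit 5) (.nd (nat_lit 6) 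
(.lf (nat_lit 53129) (.g (nat_lit 3874) (.e (nat_lit 7936) (nat_lit 102) (.e (nat_lit 286759) (nat_lit 12) (.e (nat_lit 385074) (nat_lit 31) (.e (nat_lit 573482) (nat_lit 13) (.e (nat_lit 65598) (nat_lit 9) .nil))))) .nil)) 
(.lf (nat_lit 53193) (.g (nat_lit 1627) (.e (nat_lit 7936) (nat_lit 102) (.e (nat_lit 286761) (nat_lit 13) (.e (nat_lit 393300) (nat_lit 27) (.e (nat_lit 491555) (nat_lit 9) (.e (nat_lit 336288) (nat_lit 15) .nil))))) .nil))) (.nd (nat_lit 6) 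
(.lf (nat_lit 53161) (.g (nat_lit 747) (.e (nat_lit 7936) (nat_lit 102) (.e (nat_lit 286761) (nat_lit 13) (.e (nat_lit 393265) (nat_lit 22) (.e (nat_lit 425728) (nat_lit 16) .nil)))) .nil)) 
(.lf (nat_lit 53225) (.g (nat_lit 2573) (.e (nat_lit 1364) (nat_lit 103) (.e (nat_lit 294928) (nat_lit 2) (.e (nat_lit 90176) (nat_lit 15) (.e (nat_lit 188450) (nat_lit 23) (.e (nat_lit 204821) (nat_lit 17) (.e (nat_lit 6092) (nat_lit 332) .nil)))))) (.g (nat_lit 6) .nil .nil))))) (.nd (nat_lit 5) (.nd (nat_lit 6) 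
(.lf (nat_lit 53145) (.g (nat_lit 1370) (.e (nat_lit 7936) (nat_lit 102) (.e (nat_lit 286761) (nat_lit 13) (.e (nat_lit 393234) (nat_lit 17) (.e (nat_lit 7589) (nat_lit 406) .nil)))) .nil)) 
(.lf (nat_lit 53209) (.g (nat_lit 2771) (.e (nat_lit 7936) (nat_lit 102) (.e (nat_lit 286761) (nat_lit 13) (.e (nat_lit 393301) (nat_lit 27) (.e (nat_lit 491552) (nat_lit 9) (.e (nat_lit 336287) (nat_lit 15) .nil))))) .nil))) (.nd (nat_lit 6) 
(.lf (nat_lit 53177) (.g (nat_lit 1624) (.e (nat_lit 7936) (nat_lit 102) (.e (nat_lit 286761) (nat_lit 13) (.e (nat_lit 393298) (nat_lit 27) (.e (nat_lit 491564) (nat_lit 12) .nil)))) .nil)) 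
(.lf (nat_lit 53241) (.g (nat_lit 1761) (.e (nat_lit 1365) (nat_lit 103) (.e (nat_lit 294928) (nat_lit 2) (.e (nat_lit 90176) (nat_lit 15) (.e (nat_lit 188450) (nat_lit 23) (.e (nat_lit 204816) (nat_lit 17) (.e (nat_lit 6192) (nat_lit 332) .nil)))))) (.g (nat_lit 4) .nil .nil))))))) (.nd (nat_lit 3) (.nd (nat_lit 4) (.nd (nat_lit 5) (.nd (nat_lit 6) 
(.lf (nat_lit 53125) (.g (nat_lit 426) (.e (nat_lit 7936) (nat_lit 102) (.e (nat_lit 286756) (nat_lit 10) (.e (nat_lit 344126) (nat_lit 25) .nil))) .nil)) 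
(.lf (nat_lit 53189) (.g (nat_lit 2830) (.e (nat_lit 7936) (nat_lit 102) (.e (nat_lit 286761) (nat_lit 13) (.e (nat_lit 393300) (nat_lit 27) (.e (nat_lit 491549) (nat_lit 9) (.e (nat_lit 336306) (nat_lit 15) .nil))))) .nil))) (.nd (nat_lit 6) 
(.lf (nat_lit 53157) (.g (nat_lit 2564) (.e (nat_lit 7936) (nat_lit 102) (.e (nat_lit 286761) (nat_lit 13) (.e (nat_lit 393260) (nat_lit 21) (.e (nat_lit 409648) (nat_lit 18) (.e (nat_lit 303149) (nat_lit 15) .nil))))) .nil)) 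
(.lf (nat_lit 53221) (.g (nat_lit 3070) (.e (nat_lit 7936) (nat_lit 102) (.e (nat_lit 286761) (nat_lit 13) (.e (nat_lit 393301) (nat_lit 27) (.e (nat_lit 491562) (nat_lit 12) .nil)))) .nil)))) (.nd (nat_lit 5) (.nd (nat_lit 6) 
(.lf (nat_lit 53141) (.g (nat_lit 1525) (.e (nat_lit 7936) (nat_lit 102) (.e (nat_lit 286761) (nat_lit 13) (.e (nat_lit 393233) (nat_lit 17) (.e (nat_lit 7589) (nat_lit 406) (.e (nat_lit 65632) (nat_lit 15) .nil))))) .nil)) 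
(.lf (nat_lit 53205) (.g (nat_lit 2764) (.e (nat_lit 7936) (nat_lit 102) (.e (nat_lit 286761) (nat_lit 13) (.e (nat_lit 393301) (nat_lit 27) (.e (nat_lit 491552) (nat_lit 9) (.e (nat_lit 336248) (nat_lit 15) .nil))))) .nil))) (.nd (nat_lit 6) 
(.lf (nat_lit 53173) (.g (nat_lit 1089) (.e (nat_lit 7936) (nat_lit 102) (.e (nat_lit 286761) (nat_lit 13) (.e (nat_lit 393293) (nat_lit 26) (.e (nat_lit 475209) (nat_lit 41) .nil)))) .nil)) 
(.lf (nat_lit 53237) (.g (nat_lit 2559) (.e (nat_lit 1365) (nat_lit 103) (.e (nat_lit 294927) (nat_lit 2) (.e (nat_lit 90170) (nat_lit 13) (.e (nat_lit 172106) (nat_lit 10) (.e (nat_lit 434231) (nat_lit 23) (.e (nat_lit 532490) (nat_lit 0) (.e (nat_lit 6126) (nat_lit 332) .nil))))))) (.g (nat_lit 4) .nil .nil)))))) (.nd (nat_lit 4) (.nd (nat_lit 5) (.nd (nat_lit 6) 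
(.lf (nat_lit 53133) (.g (nat_lit 1365) (.e (nat_lit 7936) (nat_lit 102) (.e (nat_lit 286759) (nat_lit 12) (.e (nat_lit 385106) (nat_lit 50) (.e (nat_lit 786483) (nat_lit 30) (.e (nat_lit 360483) (nat_lit 15) .nil))))) .nil)) 
(.lf (nat_lit 53197) (.g (nat_lit 1986) (.e (nat_lit 7936) (nat_lit 102) (.e (nat_lit 286761) (nat_lit 13) (.e (nat_lit 393300) (nat_lit 27) (.e (nat_lit 491565) (nat_lit 12) (.e (nat_lit 385033) (nat_lit 16) .nil))))) .nil))) (.nd (nat_lit 6) 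
(.lf (nat_lit 53165) (.g (nat_lit 1222) (.e (nat_lit 7936) (nat_lit 102) (.e (nat_lit 286761) (nat_lit 13) (.e (nat_lit 393284) (nat_lit 24) (.e (nat_lit 434276) (nat_lit 39) (.e (nat_lit 671488) (nat_lit 17) .nil))))) .nil)) 
(.lf (nat_lit 53229) (.g (nat_lit 641) (.e (nat_lit 1364) (nat_lit 103) (.e (nat_lit 294940) (nat_lit 9) (.e (nat_lit 336438) (nat_lit 31) (.e (nat_lit 466688) (nat_lit 4) .nil)))) .nil)))) (.nd (nat_lit 5) (.nd (nat_lit 6) 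
(.lf (nat_lit 53149) (.g (nat_lit 800) (.e (nat_lit 7936) (nat_lit 102) (.e (nat_lit 286761) (nat_lit 13) (.e (nat_lit 393237) (nat_lit 17) (.e (nat_lit 7936) (nat_lit 406) .nil)))) .nil)) 
(.lf (nat_lit 53213) (.g (nat_lit 1788) (.e (nat_lit 7936) (nat_lit 102) (.e (nat_lit 286761) (nat_lit 13) (.e (nat_lit 393301) (nat_lit 27) (.e (nat_lit 491556) (nat_lit 9) .nil)))) .nil))) (.nd (nat_lit 6) 
(.lf (nat_lit 53181) (.g (nat_lit 3203) (.e (nat_lit 7936) (nat_lit 102) (.e (nat_lit 286761) (nat_lit 13) (.e (nat_lit 393298) (nat_lit 27) (.e (nat_lit 491566) (nat_lit 12) (.e (nat_lit 385032) (nat_lit 16) .nil))))) .nil)) 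
(.lf (nat_lit 53245) (.g (nat_lit 1988) (.e (nat_lit 1365) (nat_lit 103) (.e (nat_lit 294928) (nat_lit 2) (.e (nat_lit 90176) (nat_lit 15) (.e (nat_lit 188450) (nat_lit 23) (.e (nat_lit 204821) (nat_lit 17) (.e (nat_lit 6136) (nat_lit 332) .nil)))))) (.g (nat_lit 5) .nil .nil)))))))) (.nd (nat_lit 2) (.nd (nat_lit 3) (.nd (nat_lit 4) (.nd (nat_lit 5) (.nd (nat_lit 6) 
(.lf (nat_lit 53123) (.g (nat_lit 984) (.e (nat_lit 7936) (nat_lit 102) (.e (nat_lit 286749) (nat_lit 9) (.e (nat_lit 336028) (nat_lit 3) (.e (nat_lit 98325) (nat_lit 17) .nil)))) .nil)) 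
(.lf (nat_lit 53187) (.g (nat_lit 1178) (.e (nat_lit 7936) (nat_lit 102) (.e (nat_lit 286761) (nat_lit 13) (.e (nat_lit 393300) (nat_lit 27) (.e (nat_lit 491546) (nat_lit 9) .nil)))) .nil))) (.nd (nat_lit 6) 
(.lf (nat_lit 53155) (.g (nat_lit 2256) (.e (nat_lit 7936) (nat_lit 102) (.e (nat_lit 286761) (nat_lit 13) (.e (nat_lit 393260) (nat_lit 21) (.e (nat_lit 409645) (nat_lit 18) (.e (nat_lit 303149) (nat_lit 15) .nil))))) .nil)) 
(.lf (nat_lit 53219) (.g (nat_lit 1934) (.e (nat_lit 7936) (nat_lit 102) (.e (nat_lit 286761) (nat_lit 13) (.e (nat_lit 393301) (nat_lit 27) (.e (nat_lit 491560) (nat_lit 10) .nil)))) .nil)))) (.nd (nat_lit 5) (.nd (nat_lit 6) 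
(.lf (nat_lit 53139) (.g (nat_lit 482) (.e (nat_lit 7936) (nat_lit 102) (.e (nat_lit 286761) (nat_lit 13) (.e (nat_lit 393233) (nat_lit 17) .nil))) .nil)) 
(.lf (nat_lit 53203) (.g (nat_lit 3182) (.e (nat_lit 7936) (nat_lit 102) (.e (nat_lit 286761) (nat_lit 13) (.e (nat_lit 393301) (nat_lit 27) (.e (nat_lit 491551) (nat_lit 9) .nil)))) .nil))) (.nd (nat_lit 6) 
(.lf (nat_lit 53171) (.g (nat_lit 1640) (.e (nat_lit 7936) (nat_lit 102) (.e (nat_lit 286761) (nat_lit 13) (.e (nat_lit 393293) (nat_lit 26) (.e (nat_lit 475201) (nat_lit 40) (.e (nat_lit 704841) (nat_lit 15) .nil))))) .nil)) 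
(.lf (nat_lit 53235) (.g (nat_lit 1922) (.e (nat_lit 1365) (nat_lit 103) (.e (nat_lit 294927) (nat_lit 2) (.e (nat_lit 90170) (nat_lit 13) (.e (nat_lit 172097) (nat_lit 9) (.e (nat_lit 426125) (nat_lit 2) .nil))))) .nil))))) (.nd (nat_lit 4) (.nd (nat_lit 5) (.nd (nat_lit 6) 
(.lf (nat_lit 53131) (.g (nat_lit 2658) (.e (nat_lit 7936) (nat_lit 102) (.e (nat_lit 286759) (nat_lit 12) (.e (nat_lit 385074) (nat_lit 31) (.e (nat_lit 573491) (nat_lit 15) (.e (nat_lit 81951) (nat_lit 22) .nil))))) .nil)) 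
(.lf (nat_lit 53195) (.g (nat_lit 1713) (.e (nat_lit 7936) (nat_lit 102) (.e (nat_lit 286761) (nat_lit 13) (.e (nat_lit 393300) (nat_lit 27) (.e (nat_lit 491564) (nat_lit 12) (.e (nat_lit 385033) (nat_lit 16) .nil))))) .nil))) (.nd (nat_lit 6) 
(.lf (nat_lit 53163) (.g (nat_lit 933) (.e (nat_lit 7936) (nat_lit 102) (.e (nat_lit 286761) (nat_lit 13) (.e (nat_lit 393270) (nat_lit 23) (.e (nat_lit 426442) (nat_lit 19) .nil)))) .nil)) 
(.lf (nat_lit 53227) (.g (nat_lit 981) (.e (nat_lit 1364) (nat_lit 103) (.e (nat_lit 294940) (nat_lit 9) (.e (nat_lit 336395) (nat_lit 27) (.e (nat_lit 426340) (nat_lit 14) (.e (nat_lit 491566) (nat_lit 12) (.e (nat_lit 392960) (nat_lit 16) .nil)))))) (.g (nat_lit 4) .nil .nil))))) (.nd (nat_lit 5) (.nd (nat_lit 6) 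
(.lf (nat_lit 53147) (.g (nat_lit 1476) (.e (nat_lit 7936) (nat_lit 102) (.e (nat_lit 286761) (nat_lit 13) (.e (nat_lit 393234) (nat_lit 17) (.e (nat_lit 7936) (nat_lit 406) .nil)))) .nil)) 
(.lf (nat_lit 53211) (.g (nat_lit 3492) (.e (nat_lit 7936) (nat_lit 102) (.e (nat_lit 286761) (nat_lit 13) (.e (nat_lit 393301) (nat_lit 27) (.e (nat_lit 491553) (nat_lit 9) .nil)))) .nil))) (.nd (nat_lit 6) 
(.lf (nat_lit 53179) (.g (nat_lit 2471) (.e (nat_lit 7936) (nat_lit 102) (.e (nat_lit 286761) (nat_lit 13) (.e (nat_lit 393298) (nat_lit 27) (.e (nat_lit 491565) (nat_lit 12) (.e (nat_lit 385033) (nat_lit 16) .nil))))) .nil)) 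
(.lf (nat_lit 53243) (.g (nat_lit 2677) (.e (nat_lit 1365) (nat_lit 103) (.e (nat_lit 294928) (nat_lit 2) (.e (nat_lit 90176) (nat_lit 15) (.e (nat_lit 188450) (nat_lit 23) (.e (nat_lit 204819) (nat_lit 17) (.e (nat_lit 6109) (nat_lit 332) .nil)))))) (.g (nat_lit 6) .nil .nil))))))) (.nd (nat_lit 3) (.nd (nat_lit 4) (.nd (nat_lit 5) (.nd (nat_lit 6) 
(.lf (nat_lit 53127) (.g (nat_lit 471) (.e (nat_lit 7936) (nat_lit 102) (.e (nat_lit 286759) (nat_lit 12) (.e (nat_lit 385074) (nat_lit 31) .nil))) .nil)) 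
(.lf (nat_lit 53191) (.g (nat_lit 1394) (.e (nat_lit 7936) (nat_lit 102) (.e (nat_lit 286761) (nat_lit 13) (.e (nat_lit 393300) (nat_lit 27) (.e (nat_lit 491552) (nat_lit 9) .nil)))) .nil))) (.nd (nat_lit 6) 
(.lf (nat_lit 53159) (.g (nat_lit 694) (.e (nat_lit 7936) (nat_lit 102) (.e (nat_lit 286761) (nat_lit 13) (.e (nat_lit 393264) (nat_lit 22) (.e (nat_lit 417827) (nat_lit 17) .nil)))) .nil)) 
(.lf (nat_lit 53223) (.g (nat_lit 3467) (.e (nat_lit 7936) (nat_lit 102) (.e (nat_lit 286761) (nat_lit 13) (.e (nat_lit 393301) (nat_lit 27) (.e (nat_lit 491572) (nat_lit 14) .nil)))) .nil)))) (.nd (nat_lit 5) (.nd (nat_lit 6) 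
(.lf (nat_lit 53143) (.g (nat_lit 1442) (.e (nat_lit 7936) (nat_lit 102) (.e (nat_lit 286761) (nat_lit 13) (.e (nat_lit 393234) (nat_lit 17) (.e (nat_lit 7587) (nat_lit 406) .nil)))) .nil)) 
(.lf (nat_lit 53207) (.g (nat_lit 2718) (.e (nat_lit 7936) (nat_lit 102) (.e (nat_lit 286761) (nat_lit 13) (.e (nat_lit 393301) (nat_lit 27) (.e (nat_lit 491552) (nat_lit 9) (.e (nat_lit 336253) (nat_lit 15) .nil))))) .nil))) (.nd (nat_lit 6) 
(.lf (nat_lit 53175) (.g (nat_lit 514) (.e (nat_lit 7936) (nat_lit 102) (.e (nat_lit 286761) (nat_lit 13) (.e (nat_lit 393298) (nat_lit 27) .nil))) .nil)) 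
(.lf (nat_lit 53239) (.g (nat_lit 3853) (.e (nat_lit 1365) (nat_lit 103) (.e (nat_lit 294928) (nat_lit 2) (.e (nat_lit 90170) (nat_lit 13) (.e (nat_lit 172106) (nat_lit 10) (.e (nat_lit 434231) (nat_lit 23) (.e (nat_lit 532483) (nat_lit 0) (.e (nat_lit 6200) (nat_lit 332) .nil))))))) (.g (nat_lit 5) .nil .nil)))))) (.nd (nat_lit 4) (.nd (nat_lit 5) (.nd (nat_lit 6) 
(.lf (nat_lit 53135) (.g (nat_lit 3582) (.e (nat_lit 7936) (nat_lit 102) (.e (nat_lit 286760) (nat_lit 13) (.e (nat_lit 393298) (nat_lit 27) (.e (nat_lit 491566) (nat_lit 12) (.e (nat_lit 385035) (nat_lit 16) .nil))))) .nil)) 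
(.lf (nat_lit 53199) (.g (nat_lit 2854) (.e (nat_lit 7936) (nat_lit 102) (.e (nat_lit 286761) (nat_lit 13) (.e (nat_lit 393301) (nat_lit 27) (.e (nat_lit 491546) (nat_lit 9) .nil)))) .nil))) (.nd (nat_lit 6) 
(.lf (nat_lit 53167) (.g (nat_lit 1925) (.e (nat_lit 7936) (nat_lit 102) (.e (nat_lit 286761) (nat_lit 13) (.e (nat_lit 393291) (nat_lit 26) (.e (nat_lit 475219) (nat_lit 44) (.e (nat_lit 737280) (nat_lit 0) .nil))))) .nil)) 
(.lf (nat_lit 53231) (.g (nat_lit 808) (.e (nat_lit 1364) (nat_lit 103) (.e (nat_lit 294959) (nat_lit 13) (.e (nat_lit 393297) (nat_lit 27) (.e (nat_lit 491566) (nat_lit 12) (.e (nat_lit 392960) (nat_lit 16) .nil))))) (.g (nat_lit 4) .nil .nil))))) (.nd (nat_lit 5) (.nd (nat_lit 6) 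
(.lf (nat_lit 53151) (.g (nat_lit 1231) (.e (nat_lit 7936) (nat_lit 102) (.e (nat_lit 286761) (nat_lit 13) (.e (nat_lit 393260) (nat_lit 21) (.e (nat_lit 409623) (nat_lit 10) .nil)))) .nil)) 
(.lf (nat_lit 53215) (.g (nat_lit 2719) (.e (nat_lit 7936) (nat_lit 102) (.e (nat_lit 286761) (nat_lit 13) (.e (nat_lit 393301) (nat_lit 27) (.e (nat_lit 499456) (nat_lit 9) .nil)))) .nil))) (.nd (nat_lit 6) 
(.lf (nat_lit 53183) (.g (nat_lit 4470) (.e (nat_lit 7936) (nat_lit 102) (.e (nat_lit 286761) (nat_lit 13) (.e (nat_lit 393298) (nat_lit 27) (.e (nat_lit 491566) (nat_lit 12) (.e (nat_lit 385035) (nat_lit 16) .nil))))) .nil)) 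
(.lf (nat_lit 53247) (.g (nat_lit 1616) (.e (nat_lit 1365) (nat_lit 103) (.e (nat_lit 294930) (nat_lit 3) (.e (nat_lit 98372) (nat_lit 29) (.e (nat_lit 450579) (nat_lit 5) (.e (nat_lit 532488) (nat_lit 0) (.e (nat_lit 7936) (nat_lit 332) .nil)))))) (.g (nat_lit 5) .nil .nil))))))))))

noncomputable def tv735 : DT := (.nd (nat_lit 0) (.nd (nat_lit 1) (.nd (nat_lit 2) (.nd (nat_lit 3) (.nd (nat_lit 4) (.nd (nat_lit 5) 
(.lf (nat_lit 53248) (.g (nat_lit 1663) (.e (nat_lit 1365) (nat_lit 103) (.e (nat_lit 294931) (nat_lit 3) (.e (nat_lit 98372) (nat_lit 29) (.e (nat_lit 450579) (nat_lit 5) (.e (nat_lit 532484) (nat_lit 0) .nil))))) .nil)) 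
(.lf (nat_lit 53280) (.g (nat_lit 1262) (.e (nat_lit 1366) (nat_lit 103) (.e (nat_lit 294930) (nat_lit 3) (.e (nat_lit 98381) (nat_lit 31) (.e (nat_lit 466976) (nat_lit 22) (.e (nat_lit 196661) (nat_lit 12) (.e (nat_lit 57711) (nat_lit 176) .nil)))))) (.g (nat_lit 5) .nil .nil)))) (.nd (nat_lit 5) 
(.lf (nat_lit 53264) (.g (nat_lit 2495) (.e (nat_lit 1365) (nat_lit 103) (.e (nat_lit 294958) (nat_lit 13) (.e (nat_lit 393301) (nat_lit 27) (.e (nat_lit 491563) (nat_lit 12) (.e (nat_lit 392960) (nat_lit 16) .nil))))) .nil)) 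
(.lf (nat_lit 53296) (.g (nat_lit 1006) (.e (nat_lit 1367) (nat_lit 103) (.e (nat_lit 294927) (nat_lit 2) (.e (nat_lit 90176) (nat_lit 15) (.e (nat_lit 188450) (nat_lit 23) .nil)))) .nil)))) (.nd (nat_lit 4) (.nd (nat_lit 5) 
(.lf (nat_lit 53256) (.g (nat_lit 2808) (.e (nat_lit 1365) (nat_lit 103) (.e (nat_lit 294941) (nat_lit 9) (.e (nat_lit 336395) (nat_lit 27) (.e (nat_lit 426340) (nat_lit 14) (.e (nat_lit 491566) (nat_lit 12) (.e (nat_lit 385036) (nat_lit 16) .nil)))))) (.g (nat_lit 5) .nil .nil))) 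
(.lf (nat_lit 53288) (.g (nat_lit 1581) (.e (nat_lit 1366) (nat_lit 103) (.e (nat_lit 294958) (nat_lit 13) (.e (nat_lit 393301) (nat_lit 27) (.e (nat_lit 491563) (nat_lit 12) .nil)))) .nil))) (.nd (nat_lit 5) 
(.lf (nat_lit 53272) (.g (nat_lit 2420) (.e (nat_lit 1365) (nat_lit 103) (.e (nat_lit 294960) (nat_lit 13) (.e (nat_lit 393260) (nat_lit 21) (.e (nat_lit 409617) (nat_lit 10) (.e (nat_lit 7936) (nat_lit 313) .nil))))) .nil)) 
(.lf (nat_lit 53304) (.g (nat_lit 3397) (.e (nat_lit 1367) (nat_lit 103) (.e (nat_lit 294928) (nat_lit 2) (.e (nat_lit 90170) (nat_lit 13) (.e (nat_lit 172106) (nat_lit 10) (.e (nat_lit 434231) (nat_lit 23) (.e (nat_lit 532480) (nat_lit 0) (.e (nat_lit 6122) (nat_lit 332) .nil))))))) (.g (nat_lit 5) .nil .nil)))))) (.nd (nat_lit 3) (.nd (nat_lit 4) (.nd (nat_lit 5) 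
(.lf (nat_lit 53252) (.g (nat_lit 2426) (.e (nat_lit 1365) (nat_lit 103) (.e (nat_lit 294940) (nat_lit 9) (.e (nat_lit 336395) (nat_lit 27) (.e (nat_lit 426340) (nat_lit 14) (.e (nat_lit 491566) (nat_lit 12) (.e (nat_lit 385036) (nat_lit 16) .nil)))))) (.g (nat_lit 5) .nil .nil))) 
(.lf (nat_lit 53284) (.g (nat_lit 1810) (.e (nat_lit 1366) (nat_lit 103) (.e (nat_lit 294941) (nat_lit 9) (.e (nat_lit 336369) (nat_lit 27) (.e (nat_lit 426173) (nat_lit 7) (.e (nat_lit 409649) (nat_lit 18) (.e (nat_lit 303149) (nat_lit 15) (.e (nat_lit 6120) (nat_lit 332) .nil))))))) (.g (nat_lit 4) .nil .nil)))) (.nd (nat_lit 5) 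
(.lf (nat_lit 53268) (.g (nat_lit 2266) (.e (nat_lit 1365) (nat_lit 103) (.e (nat_lit 294959) (nat_lit 13) (.e (nat_lit 393297) (nat_lit 27) (.e (nat_lit 491566) (nat_lit 12) (.e (nat_lit 385036) (nat_lit 16) .nil))))) (.g (nat_lit 4) .nil .nil))) 
(.lf (nat_lit 53300) (.g (nat_lit 2799) (.e (nat_lit 1367) (nat_lit 103) (.e (nat_lit 294928) (nat_lit 2) (.e (nat_lit 90170) (nat_lit 13) (.e (nat_lit 172097) (nat_lit 9) (.e (nat_lit 426125) (nat_lit 2) (.e (nat_lit 196661) (nat_lit 12) (.e (nat_lit 57711) (nat_lit 176) .nil))))))) (.g (nat_lit 5) .nil .nil))))) (.nd (nat_lit 4) (.nd (nat_lit 5) 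
(.lf (nat_lit 53260) (.g (nat_lit 1455) (.e (nat_lit 1365) (nat_lit 103) (.e (nat_lit 294941) (nat_lit 9) (.e (nat_lit 336421) (nat_lit 28) (.e (nat_lit 434180) (nat_lit 0) (.e (nat_lit 1638) (nat_lit 114) .nil))))) .nil)) 
(.lf (nat_lit 53292) (.g (nat_lit 2898) (.e (nat_lit 1367) (nat_lit 103) (.e (nat_lit 294927) (nat_lit 2) (.e (nat_lit 90170) (nat_lit 13) (.e (nat_lit 172097) (nat_lit 9) (.e (nat_lit 426140) (nat_lit 3) (.e (nat_lit 204821) (nat_lit 17) (.e (nat_lit 6092) (nat_lit 332) .nil))))))) (.g (nat_lit 5) .nil .nil)))) (.nd (nat_lit 5) 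
(.lf (nat_lit 53276) (.g (nat_lit 2656) (.e (nat_lit 1366) (nat_lit 103) (.e (nat_lit 294930) (nat_lit 3) (.e (nat_lit 98370) (nat_lit 28) (.e (nat_lit 442424) (nat_lit 22) (.e (nat_lit 196661) (nat_lit 12) (.e (nat_lit 57711) (nat_lit 176) .nil)))))) (.g (nat_lit 0) .nil .nil))) 
(.lf (nat_lit 53308) (.g (nat_lit 3464) (.e (nat_lit 1367) (nat_lit 103) (.e (nat_lit 294928) (nat_lit 2) (.e (nat_lit 90170) (nat_lit 13) (.e (nat_lit 172106) (nat_lit 10) (.e (nat_lit 434231) (nat_lit 23) (.e (nat_lit 532486) (nat_lit 0) (.e (nat_lit 6106) (nat_lit 332) .nil))))))) (.g (nat_lit 6) .nil .nil))))))) (.nd (nat_lit 2) (.nd (nat_lit 3) (.nd (nat_lit 4) (.nd (nat_lit 5) 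
(.lf (nat_lit 53250) (.g (nat_lit 422) (.e (nat_lit 1365) (nat_lit 103) (.e (nat_lit 294931) (nat_lit 3) (.e (nat_lit 98381) (nat_lit 31) .nil))) .nil)) 
(.lf (nat_lit 53282) (.g (nat_lit 1379) (.e (nat_lit 1366) (nat_lit 103) (.e (nat_lit 294940) (nat_lit 9) (.e (nat_lit 336395) (nat_lit 27) (.e (nat_lit 426340) (nat_lit 14) (.e (nat_lit 491566) (nat_lit 12) (.e (nat_lit 392960) (nat_lit 16) .nil)))))) (.g (nat_lit 5) .nil .nil)))) (.nd (nat_lit 5) 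
(.lf (nat_lit 53266) (.g (nat_lit 2331) (.e (nat_lit 1365) (nat_lit 103) (.e (nat_lit 294959) (nat_lit 13) (.e (nat_lit 393260) (nat_lit 21) (.e (nat_lit 409616) (nat_lit 10) (.e (nat_lit 7936) (nat_lit 313) (.e (nat_lit 8535) (nat_lit 225) .nil)))))) (.g (nat_lit 4) .nil .nil))) 
(.lf (nat_lit 53298) (.g (nat_lit 1826) (.e (nat_lit 1367) (nat_lit 103) (.e (nat_lit 294927) (nat_lit 2) (.e (nat_lit 90176) (nat_lit 15) (.e (nat_lit 188450) (nat_lit 23) (.e (nat_lit 204819) (nat_lit 17) .nil))))) .nil)))) (.nd (nat_lit 4) (.nd (nat_lit 5) 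
(.lf (nat_lit 53258) (.g (nat_lit 923) (.e (nat_lit 1365) (nat_lit 103) (.e (nat_lit 294941) (nat_lit 9) (.e (nat_lit 336421) (nat_lit 28) (.e (nat_lit 434178) (nat_lit 0) .nil)))) .nil)) 
(.lf (nat_lit 53290) (.g (nat_lit 856) (.e (nat_lit 1366) (nat_lit 103) (.e (nat_lit 294959) (nat_lit 13) (.e (nat_lit 393297) (nat_lit 27) (.e (nat_lit 491566) (nat_lit 12) (.e (nat_lit 392960) (nat_lit 16) .nil))))) (.g (nat_lit 4) .nil .nil)))) (.nd (nat_lit 5) 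
(.lf (nat_lit 53274) (.g (nat_lit 2734) (.e (nat_lit 1366) (nat_lit 103) (.e (nat_lit 294928) (nat_lit 2) (.e (nat_lit 90176) (nat_lit 15) (.e (nat_lit 188447) (nat_lit 22) (.e (nat_lit 196661) (nat_lit 12) (.e (nat_lit 57711) (nat_lit 176) .nil)))))) (.g (nat_lit 0) .nil .nil))) 
(.lf (nat_lit 53306) (.g (nat_lit 3621) (.e (nat_lit 1367) (nat_lit 103) (.e (nat_lit 294928) (nat_lit 2) (.e (nat_lit 90170) (nat_lit 13) (.e (nat_lit 172106) (nat_lit 10) (.e (nat_lit 434231) (nat_lit 23) (.e (nat_lit 532482) (nat_lit 0) (.e (nat_lit 6079) (nat_lit 332) .nil))))))) (.g (nat_lit 5) .nil .nil)))))) (.nd (nat_lit 3) (.nd (nat_lit 4) (.nd (nat_lit 5) 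
(.lf (nat_lit 53254) (.g (nat_lit 1000) (.e (nat_lit 1365) (nat_lit 103) (.e (nat_lit 294940) (nat_lit 9) (.e (nat_lit 336454) (nat_lit 34) (.e (nat_lit 491264) (nat_lit 3) .nil)))) .nil)) 
(.lf (nat_lit 53286) (.g (nat_lit 923) (.e (nat_lit 1366) (nat_lit 103) (.e (nat_lit 294941) (nat_lit 9) (.e (nat_lit 336421) (nat_lit 28) (.e (nat_lit 434178) (nat_lit 0) .nil)))) .nil))) (.nd (nat_lit 5) 
(.lf (nat_lit 53270) (.g (nat_lit 2110) (.e (nat_lit 1365) (nat_lit 103) (.e (nat_lit 294960) (nat_lit 13) (.e (nat_lit 393238) (nat_lit 17) (.e (nat_lit 7101) (nat_lit 380) (.e (nat_lit 164368) (nat_lit 247) (.e (nat_lit 8534) (nat_lit 225) .nil)))))) (.g (nat_lit 6) .nil .nil))) 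
(.lf (nat_lit 53302) (.g (nat_lit 3305) (.e (nat_lit 1367) (nat_lit 103) (.e (nat_lit 294928) (nat_lit 2) (.e (nat_lit 90170) (nat_lit 13) (.e (nat_lit 172106) (nat_lit 10) (.e (nat_lit 434231) (nat_lit 23) (.e (nat_lit 532480) (nat_lit 0) (.e (nat_lit 6106) (nat_lit 332) .nil))))))) (.g (nat_lit 5) .nil .nil))))) (.nd (nat_lit 4) (.nd (nat_lit 5) 
(.lf (nat_lit 53262) (.g (nat_lit 2167) (.e (nat_lit 1365) (nat_lit 103) (.e (nat_lit 294955) (nat_lit 12) (.e (nat_lit 385102) (nat_lit 50) (.e (nat_lit 786483) (nat_lit 30) (.e (nat_lit 360484) (nat_lit 15) (.e (nat_lit 647203) (nat_lit 14) .nil)))))) (.g (nat_lit 6) .nil .nil))) 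
(.lf (nat_lit 53294) (.g (nat_lit 3151) (.e (nat_lit 1367) (nat_lit 103) (.e (nat_lit 294927) (nat_lit 2) (.e (nat_lit 90170) (nat_lit 13) (.e (nat_lit 172106) (nat_lit 10) (.e (nat_lit 434231) (nat_lit 23) (.e (nat_lit 532486) (nat_lit 0) (.e (nat_lit 6122) (nat_lit 332) .nil))))))) (.g (nat_lit 5) .nil .nil)))) (.nd (nat_lit 5) 
(.lf (nat_lit 53278) (.g (nat_lit 2030) (.e (nat_lit 1366) (nat_lit 103) (.e (nat_lit 294930) (nat_lit 3) (.e (nat_lit 98372) (nat_lit 29) (.e (nat_lit 450579) (nat_lit 5) (.e (nat_lit 532480) (nat_lit 0) (.e (nat_lit 6122) (nat_lit 332) .nil)))))) (.g (nat_lit 0) .nil .nil))) 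
(.lf (nat_lit 53310) (.g (nat_lit 3450) (.e (nat_lit 1367) (nat_lit 103) (.e (nat_lit 294928) (nat_lit 2) (.e (nat_lit 90170) (nat_lit 13) (.e (nat_lit 172106) (nat_lit 10) (.e (nat_lit 434231) (nat_lit 23) (.e (nat_lit 532486) (nat_lit 0) (.e (nat_lit 6116) (nat_lit 332) .nil))))))) (.g (nat_lit 6) .nil .nil)))))))) 
(.nd (nat_lit 1) (.nd (nat_lit 2) (.nd (nat_lit 3) (.nd (nat_lit 4) (.nd (nat_lit 5) 
(.lf (nat_lit 53249) (.g (nat_lit 1918) (.e (nat_lit 1365) (nat_lit 103) (.e (nat_lit 294931) (nat_lit 3) (.e (nat_lit 98372) (nat_lit 29) (.e (nat_lit 450579) (nat_lit 5) (.e (nat_lit 532488) (nat_lit 0) (.e (nat_lit 7936) (nat_lit 332) .nil)))))) (.g (nat_lit 4) .nil .nil))) 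
(.lf (nat_lit 53281) (.g (nat_lit 1473) (.e (nat_lit 1366) (nat_lit 103) (.e (nat_lit 294938) (nat_lit 9) (.e (nat_lit 336395) (nat_lit 27) (.e (nat_lit 426340) (nat_lit 14) (.e (nat_lit 491566) (nat_lit 12) (.e (nat_lit 392960) (nat_lit 16) .nil)))))) (.g (nat_lit 5) .nil .nil)))) (.nd (nat_lit 5) 
(.lf (nat_lit 53265) (.g (nat_lit 2190) (.e (nat_lit 1365) (nat_lit 103) (.e (nat_lit 294959) (nat_lit 13) (.e (nat_lit 393260) (nat_lit 21) (.e (nat_lit 409616) (nat_lit 10) (.e (nat_lit 7936) (nat_lit 313) .nil))))) .nil)) 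
(.lf (nat_lit 53297) (.g (nat_lit 1905) (.e (nat_lit 1367) (nat_lit 103) (.e (nat_lit 294927) (nat_lit 2) (.e (nat_lit 90176) (nat_lit 15) (.e (nat_lit 188450) (nat_lit 23) (.e (nat_lit 204816) (nat_lit 17) .nil))))) .nil)))) (.nd (nat_lit 4) (.nd (nat_lit 5) 
(.lf (nat_lit 53257) (.g (nat_lit 1743) (.e (nat_lit 1365) (nat_lit 103) (.e (nat_lit 294941) (nat_lit 9) (.e (nat_lit 336395) (nat_lit 27) (.e (nat_lit 426340) (nat_lit 14) (.e (nat_lit 491566) (nat_lit 12) (.e (nat_lit 392960) (nat_lit 16) .nil)))))) (.g (nat_lit 5) .nil .nil))) 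
(.lf (nat_lit 53289) (.g (nat_lit 2142) (.e (nat_lit 1366) (nat_lit 103) (.e (nat_lit 294959) (nat_lit 13) (.e (nat_lit 393260) (nat_lit 21) (.e (nat_lit 409616) (nat_lit 10) (.e (nat_lit 7936) (nat_lit 313) .nil))))) .nil))) (.nd (nat_lit 5) 
(.lf (nat_lit 53273) (.g (nat_lit 3083) (.e (nat_lit 1366) (nat_lit 103) (.e (nat_lit 294927) (nat_lit 2) (.e (nat_lit 90170) (nat_lit 13) (.e (nat_lit 172097) (nat_lit 9) (.e (nat_lit 426140) (nat_lit 3) (.e (nat_lit 204821) (nat_lit 17) (.e (nat_lit 6092) (nat_lit 332) .nil))))))) (.g (nat_lit 7) .nil .nil))) 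
(.lf (nat_lit 53305) (.g (nat_lit 5357) (.e (nat_lit 1367) (nat_lit 103) (.e (nat_lit 294928) (nat_lit 2) (.e (nat_lit 90170) (nat_lit 13) (.e (nat_lit 172106) (nat_lit 10) (.e (nat_lit 434231) (nat_lit 23) (.e (nat_lit 532481) (nat_lit 0) (.e (nat_lit 6084) (nat_lit 332) .nil))))))) (.g (nat_lit 6) .nil .nil)))))) (.nd (nat_lit 3) (.nd (nat_lit 4) (.nd (nat_lit 5) 
(.lf (nat_lit 53253) (.g (nat_lit 1372) (.e (nat_lit 1365) (nat_lit 103) (.e (nat_lit 294940) (nat_lit 9) (.e (nat_lit 336395) (nat_lit 27) (.e (nat_lit 426340) (nat_lit 14) (.e (nat_lit 491566) (nat_lit 12) (.e (nat_lit 392960) (nat_lit 16) .nil)))))) (.g (nat_lit 5) .nil .nil))) 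
(.lf (nat_lit 53285) (.g (nat_lit 329) (.e (nat_lit 1366) (nat_lit 103) (.e (nat_lit 294941) (nat_lit 9) (.e (nat_lit 336421) (nat_lit 28) .nil))) .nil))) (.nd (nat_lit 5) 
(.lf (nat_lit 53269) (.g (nat_lit 1622) (.e (nat_lit 1365) (nat_lit 103) (.e (nat_lit 294960) (nat_lit 13) (.e (nat_lit 393238) (nat_lit 17) (.e (nat_lit 7101) (nat_lit 380) (.e (nat_lit 164368) (nat_lit 247) .nil))))) .nil)) 
(.lf (nat_lit 53301) (.g (nat_lit 2156) (.e (nat_lit 1367) (nat_lit 103) (.e (nat_lit 294928) (nat_lit 2) (.e (nat_lit 90170) (nat_lit 13) (.e (nat_lit 172097) (nat_lit 9) (.e (nat_lit 426140) (nat_lit 3) (.e (nat_lit 204821) (nat_lit 17) (.e (nat_lit 6092) (nat_lit 332) .nil))))))) (.g (nat_lit 4) .nil .nil))))) (.nd (nat_lit 4) (.nd (nat_lit 5) 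
(.lf (nat_lit 53261) (.g (nat_lit 1309) (.e (nat_lit 1365) (nat_lit 103) (.e (nat_lit 294955) (nat_lit 12) (.e (nat_lit 385073) (nat_lit 31) (.e (nat_lit 573493) (nat_lit 15) (.e (nat_lit 81962) (nat_lit 25) .nil))))) .nil)) 
(.lf (nat_lit 53293) (.g (nat_lit 3795) (.e (nat_lit 1367) (nat_lit 103) (.e (nat_lit 294927) (nat_lit 2) (.e (nat_lit 90170) (nat_lit 13) (.e (nat_lit 172106) (nat_lit 10) (.e (nat_lit 434231) (nat_lit 23) (.e (nat_lit 532482) (nat_lit 0) (.e (nat_lit 6084) (nat_lit 332) .nil))))))) (.g (nat_lit 5) .nil .nil)))) (.nd (nat_lit 5) 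
(.lf (nat_lit 53277) (.g (nat_lit 2486) (.e (nat_lit 1366) (nat_lit 103) (.e (nat_lit 294930) (nat_lit 3) (.e (nat_lit 98370) (nat_lit 28) (.e (nat_lit 442427) (nat_lit 23) (.e (nat_lit 204821) (nat_lit 17) (.e (nat_lit 6092) (nat_lit 332) .nil)))))) (.g (nat_lit 6) .nil .nil))) 
(.lf (nat_lit 53309) (.g (nat_lit 3250) (.e (nat_lit 1367) (nat_lit 103) (.e (nat_lit 294928) (nat_lit 2) (.e (nat_lit 90170) (nat_lit 13) (.e (nat_lit 172106) (nat_lit 10) (.e (nat_lit 434231) (nat_lit 23) (.e (nat_lit 532486) (nat_lit 0) (.e (nat_lit 6109) (nat_lit 332) .nil))))))) (.g (nat_lit 5) .nil .nil))))))) (.nd (nat_lit 2) (.nd (nat_lit 3) (.nd (nat_lit 4) (.nd (nat_lit 5) 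
(.lf (nat_lit 53251) (.g (nat_lit 1044) (.e (nat_lit 1365) (nat_lit 103) (.e (nat_lit 294938) (nat_lit 9) (.e (nat_lit 336454) (nat_lit 34) (.e (nat_lit 491264) (nat_lit 3) .nil)))) .nil)) 
(.lf (nat_lit 53283) (.g (nat_lit 645) (.e (nat_lit 1366) (nat_lit 103) (.e (nat_lit 294940) (nat_lit 9) (.e (nat_lit 336438) (nat_lit 31) (.e (nat_lit 466688) (nat_lit 4) .nil)))) .nil))) (.nd (nat_lit 5) 
(.lf (nat_lit 53267) (.g (nat_lit 2326) (.e (nat_lit 1365) (nat_lit 103) (.e (nat_lit 294959) (nat_lit 13) (.e (nat_lit 393260) (nat_lit 21) (.e (nat_lit 409616) (nat_lit 10) (.e (nat_lit 7936) (nat_lit 313) (.e (nat_lit 8536) (nat_lit 225) .nil)))))) (.g (nat_lit 4) .nil .nil))) 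
(.lf (nat_lit 53299) (.g (nat_lit 1816) (.e (nat_lit 1367) (nat_lit 103) (.e (nat_lit 294927) (nat_lit 2) (.e (nat_lit 90176) (nat_lit 15) (.e (nat_lit 188450) (nat_lit 23) (.e (nat_lit 204821) (nat_lit 17) (.e (nat_lit 6092) (nat_lit 332) .nil)))))) (.g (nat_lit 4) .nil .nil))))) (.nd (nat_lit 4) (.nd (nat_lit 5) 
(.lf (nat_lit 53259) (.g (nat_lit 831) (.e (nat_lit 1365) (nat_lit 103) (.e (nat_lit 294941) (nat_lit 9) (.e (nat_lit 336421) (nat_lit 28) (.e (nat_lit 434179) (nat_lit 0) .nil)))) .nil)) 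
(.lf (nat_lit 53291) (.g (nat_lit 3420) (.e (nat_lit 1367) (nat_lit 103) (.e (nat_lit 294927) (nat_lit 2) (.e (nat_lit 90170) (nat_lit 13) (.e (nat_lit 172097) (nat_lit 9) (.e (nat_lit 426125) (nat_lit 2) (.e (nat_lit 196661) (nat_lit 12) (.e (nat_lit 57711) (nat_lit 176) .nil))))))) (.g (nat_lit 6) .nil .nil)))) (.nd (nat_lit 5) 
(.lf (nat_lit 53275) (.g (nat_lit 1754) (.e (nat_lit 1366) (nat_lit 103) (.e (nat_lit 294928) (nat_lit 2) (.e (nat_lit 90176) (nat_lit 15) (.e (nat_lit 188450) (nat_lit 23) (.e (nat_lit 204819) (nat_lit 17) .nil))))) .nil)) 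
(.lf (nat_lit 53307) (.g (nat_lit 4696) (.e (nat_lit 1367) (nat_lit 103) (.e (nat_lit 294928) (nat_lit 2) (.e (nat_lit 90170) (nat_lit 13) (.e (nat_lit 172106) (nat_lit 10) (.e (nat_lit 434231) (nat_lit 23) (.e (nat_lit 532482) (nat_lit 0) (.e (nat_lit 6084) (nat_lit 332) .nil))))))) (.g (nat_lit 0) .nil .nil)))))) (.nd (nat_lit 3) (.nd (nat_lit 4) (.nd (nat_lit 5) 
(.lf (nat_lit 53255) (.g (nat_lit 1100) (.e (nat_lit 1365) (nat_lit 103) (.e (nat_lit 294941) (nat_lit 9) (.e (nat_lit 336369) (nat_lit 27) (.e (nat_lit 426173) (nat_lit 7) .nil)))) .nil)) 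
(.lf (nat_lit 53287) (.g (nat_lit 1976) (.e (nat_lit 1366) (nat_lit 103) (.e (nat_lit 294957) (nat_lit 13) (.e (nat_lit 393301) (nat_lit 27) (.e (nat_lit 491563) (nat_lit 12) (.e (nat_lit 392960) (nat_lit 16) .nil))))) .nil))) (.nd (nat_lit 5) 
(.lf (nat_lit 53271) (.g (nat_lit 2534) (.e (nat_lit 1365) (nat_lit 103) (.e (nat_lit 294960) (nat_lit 13) (.e (nat_lit 393260) (nat_lit 21) (.e (nat_lit 409616) (nat_lit 10) (.e (nat_lit 7936) (nat_lit 313) .nil))))) .nil)) 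
(.lf (nat_lit 53303) (.g (nat_lit 3377) (.e (nat_lit 1367) (nat_lit 103) (.e (nat_lit 294928) (nat_lit 2) (.e (nat_lit 90170) (nat_lit 13) (.e (nat_lit 172106) (nat_lit 10) (.e (nat_lit 434231) (nat_lit 23) (.e (nat_lit 532480) (nat_lit 0) (.e (nat_lit 6116) (nat_lit 332) .nil))))))) (.g (nat_lit 5) .nil .nil))))) (.nd (nat_lit 4) (.nd (nat_lit 5) 
(.lf (nat_lit 53263) (.g (nat_lit 1968) (.e (nat_lit 1365) (nat_lit 103) (.e (nat_lit 294957) (nat_lit 13) (.e (nat_lit 393301) (nat_lit 27) (.e (nat_lit 491563) (nat_lit 12) (.e (nat_lit 392960) (nat_lit 16) .nil))))) .nil)) 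
(.lf (nat_lit 53295) (.g (nat_lit 2364) (.e (nat_lit 1367) (nat_lit 103) (.e (nat_lit 294927) (nat_lit 2) (.e (nat_lit 90176) (nat_lit 15) (.e (nat_lit 188447) (nat_lit 22) (.e (nat_lit 196661) (nat_lit 12) (.e (nat_lit 57711) (nat_lit 176) .nil)))))) (.g (nat_lit 5) .nil .nil)))) (.nd (nat_lit 5) 
(.lf (nat_lit 53279) (.g (nat_lit 1511) (.e (nat_lit 1366) (nat_lit 103) (.e (nat_lit 294930) (nat_lit 3) (.e (nat_lit 98372) (nat_lit 29) (.e (nat_lit 450579) (nat_lit 5) (.e (nat_lit 532481) (nat_lit 0) .nil))))) .nil)) 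
(.lf (nat_lit 53311) (.g (nat_lit 3894) (.e (nat_lit 1367) (nat_lit 103) (.e (nat_lit 294928) (nat_lit 2) (.e (nat_lit 90170) (nat_lit 13) (.e (nat_lit 172106) (nat_lit 10) (.e (nat_lit 434231) (nat_lit 23) (.e (nat_lit 532486) (nat_lit 0) (.e (nat_lit 6122) (nat_lit 332) .nil))))))) (.g (nat_lit 0) .nil .nil)))))))))

noncomputable def tv736 : DT := (.nd (nat_lit 0) (.nd (nat_lit 1) (.nd (nat_lit 2) (.nd (nat_lit 3) (.nd (nat_lit 4) (.nd (nat_lit 5) 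
(.lf (nat_lit 53312) (.g (nat_lit 4113) (.e (nat_lit 1367) (nat_lit 103) (.e (nat_lit 294928) (nat_lit 2) (.e (nat_lit 90170) (nat_lit 13) (.e (nat_lit 172106) (nat_lit 10) (.e (nat_lit 434231) (nat_lit 23) (.e (nat_lit 532490) (nat_lit 0) (.e (nat_lit 7936) (nat_lit 332) .nil))))))) (.g (nat_lit 6) .nil .nil))) 
(.lf (nat_lit 53344) (.g (nat_lit 3182) (.e (nat_lit 1367) (nat_lit 103) (.e (nat_lit 294931) (nat_lit 3) (.e (nat_lit 98372) (nat_lit 29) (.e (nat_lit 450579) (nat_lit 5) (.e (nat_lit 532481) (nat_lit 0) (.e (nat_lit 6084) (nat_lit 332) .nil)))))) (.g (nat_lit 6) .nil .nil)))) (.nd (nat_lit 5) 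
(.lf (nat_lit 53328) (.g (nat_lit 1622) (.e (nat_lit 1367) (nat_lit 103) (.e (nat_lit 294930) (nat_lit 3) (.e (nat_lit 98370) (nat_lit 28) (.e (nat_lit 442424) (nat_lit 22) (.e (nat_lit 196661) (nat_lit 12) .nil))))) .nil)) 
(.lf (nat_lit 53360) (.g (nat_lit 4663) (.e (nat_lit 1367) (nat_lit 103) (.e (nat_lit 294931) (nat_lit 3) (.e (nat_lit 98373) (nat_lit 29) (.e (nat_lit 450588) (nat_lit 10) (.e (nat_lit 573451) (nat_lit 9) (.e (nat_lit 13) (nat_lit 0) (.e (nat_lit 6953) (nat_lit 377) .nil))))))) (.g (nat_lit 6) .nil .nil))))) (.nd (nat_lit 4) (.nd (nat_lit 5) 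
(.lf (nat_lit 53320) (.g (nat_lit 2863) (.e (nat_lit 1367) (nat_lit 103) (.e (nat_lit 294928) (nat_lit 2) (.e (nat_lit 90176) (nat_lit 15) (.e (nat_lit 188450) (nat_lit 23) (.e (nat_lit 204819) (nat_lit 17) (.e (nat_lit 6116) (nat_lit 332) .nil)))))) (.g (nat_lit 5) .nil .nil))) 
(.lf (nat_lit 53352) (.g (nat_lit 1885) (.e (nat_lit 1367) (nat_lit 103) (.e (nat_lit 294931) (nat_lit 3) (.e (nat_lit 98373) (nat_lit 29) (.e (nat_lit 450573) (nat_lit 1) .nil)))) .nil))) (.nd (nat_lit 5) 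
(.lf (nat_lit 53336) (.g (nat_lit 1678) (.e (nat_lit 1367) (nat_lit 103) (.e (nat_lit 294931) (nat_lit 3) (.e (nat_lit 98365) (nat_lit 26) (.e (nat_lit 426298) (nat_lit 11) (.e (nat_lit 458789) (nat_lit 23) (.e (nat_lit 532481) (nat_lit 0) (.e (nat_lit 6084) (nat_lit 332) .nil))))))) (.g (nat_lit 4) .nil .nil))) 
(.lf (nat_lit 53368) (.g (nat_lit 1575) (.e (nat_lit 1367) (nat_lit 103) (.e (nat_lit 294938) (nat_lit 9) (.e (nat_lit 336454) (nat_lit 34) (.e (nat_lit 491264) (nat_lit 3) (.e (nat_lit 221211) (nat_lit 22) (.e (nat_lit 196684) (nat_lit 18) .nil)))))) (.g (nat_lit 5) .nil .nil)))))) (.nd (nat_lit 3) (.nd (nat_lit 4) (.nd (nat_lit 5) 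
(.lf (nat_lit 53316) (.g (nat_lit 1890) (.e (nat_lit 1367) (nat_lit 103) (.e (nat_lit 294928) (nat_lit 2) (.e (nat_lit 90176) (nat_lit 15) (.e (nat_lit 188450) (nat_lit 23) (.e (nat_lit 204815) (nat_lit 17) (.e (nat_lit 6084) (nat_lit 332) .nil)))))) (.g (nat_lit 4) .nil .nil))) 
(.lf (nat_lit 53348) (.g (nat_lit 2206) (.e (nat_lit 1367) (nat_lit 103) (.e (nat_lit 294931) (nat_lit 3) (.e (nat_lit 98372) (nat_lit 29) (.e (nat_lit 450579) (nat_lit 5) (.e (nat_lit 532488) (nat_lit 0) (.e (nat_lit 7936) (nat_lit 332) .nil)))))) (.g (nat_lit 5) .nil .nil)))) (.nd (nat_lit 5) 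
(.lf (nat_lit 53332) (.g (nat_lit 1276) (.e (nat_lit 1367) (nat_lit 103) (.e (nat_lit 294930) (nat_lit 3) (.e (nat_lit 98372) (nat_lit 29) (.e (nat_lit 450579) (nat_lit 5) (.e (nat_lit 532489) (nat_lit 0) .nil))))) .nil)) 
(.lf (nat_lit 53364) (.g (nat_lit 4569) (.e (nat_lit 1367) (nat_lit 103) (.e (nat_lit 294931) (nat_lit 3) (.e (nat_lit 98373) (nat_lit 29) (.e (nat_lit 450588) (nat_lit 10) (.e (nat_lit 573457) (nat_lit 9) .nil))))) .nil)))) (.nd (nat_lit 4) (.nd (nat_lit 5) 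
(.lf (nat_lit 53324) (.g (nat_lit 3404) (.e (nat_lit 1367) (nat_lit 103) (.e (nat_lit 294928) (nat_lit 2) (.e (nat_lit 90177) (nat_lit 15) (.e (nat_lit 188452) (nat_lit 23) (.e (nat_lit 204816) (nat_lit 17) (.e (nat_lit 6084) (nat_lit 332) .nil)))))) (.g (nat_lit 4) .nil .nil))) 
(.lf (nat_lit 53356) (.g (nat_lit 3272) (.e (nat_lit 1367) (nat_lit 103) (.e (nat_lit 294931) (nat_lit 3) (.e (nat_lit 98373) (nat_lit 29) (.e (nat_lit 450587) (nat_lit 10) (.e (nat_lit 573457) (nat_lit 9) (.e (nat_lit 13) (nat_lit 0) (.e (nat_lit 6952) (nat_lit 377) .nil))))))) (.g (nat_lit 4) .nil .nil)))) (.nd (nat_lit 5) 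
(.lf (nat_lit 53340) (.g (nat_lit 859) (.e (nat_lit 1367) (nat_lit 103) (.e (nat_lit 294931) (nat_lit 3) (.e (nat_lit 98372) (nat_lit 29) (.e (nat_lit 450579) (nat_lit 5) .nil)))) .nil)) 
(.lf (nat_lit 53372) (.g (nat_lit 1878) (.e (nat_lit 1367) (nat_lit 103) (.e (nat_lit 294941) (nat_lit 9) (.e (nat_lit 336421) (nat_lit 28) (.e (nat_lit 434178) (nat_lit 0) (.e (nat_lit 1515) (nat_lit 108) (.e (nat_lit 336241) (nat_lit 15) (.e (nat_lit 6953) (nat_lit 377) .nil))))))) (.g (nat_lit 7) .nil .nil))))))) (.nd (nat_lit 2) (.nd (nat_lit 3) (.nd (nat_lit 4) (.nd (nat_lit 5) 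
(.lf (nat_lit 53314) (.g (nat_lit 2282) (.e (nat_lit 1367) (nat_lit 103) (.e (nat_lit 294928) (nat_lit 2) (.e (nat_lit 90170) (nat_lit 13) (.e (nat_lit 172106) (nat_lit 10) (.e (nat_lit 434244) (nat_lit 28) (.e (nat_lit 573451) (nat_lit 9) (.e (nat_lit 13) (nat_lit 0) (.e (nat_lit 6952) (nat_lit 377) .nil)))))))) (.g (nat_lit 4) .nil .nil))) 
(.lf (nat_lit 53346) (.g (nat_lit 2711) (.e (nat_lit 1367) (nat_lit 103) (.e (nat_lit 294931) (nat_lit 3) (.e (nat_lit 98372) (nat_lit 29) (.e (nat_lit 450579) (nat_lit 5) (.e (nat_lit 532482) (nat_lit 0) (.e (nat_lit 6084) (nat_lit 332) .nil)))))) (.g (nat_lit 6) .nil .nil)))) (.nd (nat_lit 5) 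
(.lf (nat_lit 53330) (.g (nat_lit 1584) (.e (nat_lit 1367) (nat_lit 103) (.e (nat_lit 294930) (nat_lit 3) (.e (nat_lit 98372) (nat_lit 29) (.e (nat_lit 450579) (nat_lit 5) (.e (nat_lit 532480) (nat_lit 0) (.e (nat_lit 6116) (nat_lit 332) .nil)))))) (.g (nat_lit 4) .nil .nil))) 
(.lf (nat_lit 53362) (.g (nat_lit 3704) (.e (nat_lit 1367) (nat_lit 103) (.e (nat_lit 294931) (nat_lit 3) (.e (nat_lit 98373) (nat_lit 29) (.e (nat_lit 450588) (nat_lit 10) (.e (nat_lit 573452) (nat_lit 9) (.e (nat_lit 11) (nat_lit 0) (.e (nat_lit 6952) (nat_lit 377) .nil))))))) (.g (nat_lit 4) .nil .nil))))) (.nd (nat_lit 4) (.nd (nat_lit 5) 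
(.lf (nat_lit 53322) (.g (nat_lit 2250) (.e (nat_lit 1367) (nat_lit 103) (.e (nat_lit 294928) (nat_lit 2) (.e (nat_lit 90176) (nat_lit 15) (.e (nat_lit 188450) (nat_lit 23) (.e (nat_lit 204821) (nat_lit 17) (.e (nat_lit 7936) (nat_lit 332) .nil)))))) (.g (nat_lit 5) .nil .nil))) 
(.lf (nat_lit 53354) (.g (nat_lit 2006) (.e (nat_lit 1367) (nat_lit 103) (.e (nat_lit 294931) (nat_lit 3) (.e (nat_lit 98373) (nat_lit 29) (.e (nat_lit 450576) (nat_lit 2) .nil)))) .nil))) (.nd (nat_lit 5) 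
(.lf (nat_lit 53338) (.g (nat_lit 2215) (.e (nat_lit 1367) (nat_lit 103) (.e (nat_lit 294931) (nat_lit 3) (.e (nat_lit 98370) (nat_lit 28) (.e (nat_lit 442427) (nat_lit 23) (.e (nat_lit 204821) (nat_lit 17) .nil))))) .nil)) 
(.lf (nat_lit 53370) (.g (nat_lit 1719) (.e (nat_lit 1367) (nat_lit 103) (.e (nat_lit 294941) (nat_lit 9) (.e (nat_lit 336421) (nat_lit 28) (.e (nat_lit 434178) (nat_lit 0) (.e (nat_lit 1512) (nat_lit 108) (.e (nat_lit 336241) (nat_lit 15) (.e (nat_lit 6953) (nat_lit 377) .nil))))))) (.g (nat_lit 6) .nil .nil)))))) (.nd (nat_lit 3) (.nd (nat_lit 4) (.nd (nat_lit 5) 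
(.lf (nat_lit 53318) (.g (nat_lit 2952) (.e (nat_lit 1367) (nat_lit 103) (.e (nat_lit 294928) (nat_lit 2) (.e (nat_lit 90176) (nat_lit 15) (.e (nat_lit 188450) (nat_lit 23) (.e (nat_lit 204819) (nat_lit 17) (.e (nat_lit 6106) (nat_lit 332) .nil)))))) (.g (nat_lit 5) .nil .nil))) 
(.lf (nat_lit 53350) (.g (nat_lit 1564) (.e (nat_lit 1367) (nat_lit 103) (.e (nat_lit 294931) (nat_lit 3) (.e (nat_lit 98372) (nat_lit 29) (.e (nat_lit 450579) (nat_lit 5) (.e (nat_lit 540416) (nat_lit 0) (.e (nat_lit 6120) (nat_lit 332) .nil)))))) (.g (nat_lit 4) .nil .nil)))) (.nd (nat_lit 5) 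
(.lf (nat_lit 53334) (.g (nat_lit 4218) (.e (nat_lit 1367) (nat_lit 103) (.e (nat_lit 294930) (nat_lit 3) (.e (nat_lit 98373) (nat_lit 29) (.e (nat_lit 450588) (nat_lit 10) (.e (nat_lit 573452) (nat_lit 9) (.e (nat_lit 13) (nat_lit 0) (.e (nat_lit 6953) (nat_lit 377) .nil))))))) (.g (nat_lit 4) .nil .nil))) 
(.lf (nat_lit 53366) (.g (nat_lit 1110) (.e (nat_lit 1367) (nat_lit 103) (.e (nat_lit 294938) (nat_lit 9) (.e (nat_lit 336421) (nat_lit 28) (.e (nat_lit 434178) (nat_lit 0) (.e (nat_lit 1515) (nat_lit 108) (.e (nat_lit 336241) (nat_lit 15) (.e (nat_lit 6950) (nat_lit 377) .nil))))))) (.g (nat_lit 4) .nil .nil))))) (.nd (nat_lit 4) (.nd (nat_lit 5) 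
(.lf (nat_lit 53326) (.g (nat_lit 2190) (.e (nat_lit 1367) (nat_lit 103) (.e (nat_lit 294928) (nat_lit 2) (.e (nat_lit 90178) (nat_lit 15) (.e (nat_lit 188449) (nat_lit 22) (.e (nat_lit 196661) (nat_lit 12) .nil))))) .nil)) 
(.lf (nat_lit 53358) (.g (nat_lit 4430) (.e (nat_lit 1367) (nat_lit 103) (.e (nat_lit 294931) (nat_lit 3) (.e (nat_lit 98373) (nat_lit 29) (.e (nat_lit 450588) (nat_lit 10) (.e (nat_lit 573451) (nat_lit 9) (.e (nat_lit 11) (nat_lit 0) (.e (nat_lit 6952) (nat_lit 377) .nil))))))) (.g (nat_lit 5) .nil .nil)))) (.nd (nat_lit 5) 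
(.lf (nat_lit 53342) (.g (nat_lit 2397) (.e (nat_lit 1367) (nat_lit 103) (.e (nat_lit 294931) (nat_lit 3) (.e (nat_lit 98372) (nat_lit 29) (.e (nat_lit 450579) (nat_lit 5) (.e (nat_lit 532480) (nat_lit 0) (.e (nat_lit 6116) (nat_lit 332) .nil)))))) (.g (nat_lit 0) .nil .nil))) 
(.lf (nat_lit 53374) (.g (nat_lit 1169) (.e (nat_lit 1367) (nat_lit 103) (.e (nat_lit 294941) (nat_lit 9) (.e (nat_lit 336430) (nat_lit 29) (.e (nat_lit 450304) (nat_lit 4) .nil)))) .nil))))))) (.nd (nat_lit 1) (.nd (nat_lit 2) (.nd (nat_lit 3) (.nd (nat_lit 4) (.nd (nat_lit 5) 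
(.lf (nat_lit 53313) (.g (nat_lit 2444) (.e (nat_lit 1367) (nat_lit 103) (.e (nat_lit 294928) (nat_lit 2) (.e (nat_lit 90170) (nat_lit 13) (.e (nat_lit 172106) (nat_lit 10) (.e (nat_lit 434244) (nat_lit 28) (.e (nat_lit 573451) (nat_lit 9) (.e (nat_lit 11) (nat_lit 0) (.e (nat_lit 6953) (nat_lit 377) .nil)))))))) (.g (nat_lit 4) .nil .nil))) 
(.lf (nat_lit 53345) (.g (nat_lit 1640) (.e (nat_lit 1367) (nat_lit 103) (.e (nat_lit 294931) (nat_lit 3) (.e (nat_lit 98372) (nat_lit 29) (.e (nat_lit 450579) (nat_lit 5) (.e (nat_lit 532482) (nat_lit 0) .nil))))) .nil))) (.nd (nat_lit 5) 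
(.lf (nat_lit 53329) (.g (nat_lit 1518) (.e (nat_lit 1367) (nat_lit 103) (.e (nat_lit 294930) (nat_lit 3) (.e (nat_lit 98372) (nat_lit 29) (.e (nat_lit 450579) (nat_lit 5) (.e (nat_lit 532480) (nat_lit 0) (.e (nat_lit 6106) (nat_lit 332) .nil)))))) (.g (nat_lit 4) .nil .nil))) 
(.lf (nat_lit 53361) (.g (nat_lit 3442) (.e (nat_lit 1367) (nat_lit 103) (.e (nat_lit 294931) (nat_lit 3) (.e (nat_lit 98373) (nat_lit 29) (.e (nat_lit 450588) (nat_lit 10) (.e (nat_lit 573452) (nat_lit 9) .nil))))) .nil)))) (.nd (nat_lit 4) (.nd (nat_lit 5) 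
(.lf (nat_lit 53321) (.g (nat_lit 3047) (.e (nat_lit 1367) (nat_lit 103) (.e (nat_lit 294928) (nat_lit 2) (.e (nat_lit 90176) (nat_lit 15) (.e (nat_lit 188450) (nat_lit 23) (.e (nat_lit 204819) (nat_lit 17) (.e (nat_lit 6122) (nat_lit 332) .nil)))))) (.g (nat_lit 0) .nil .nil))) 
(.lf (nat_lit 53353) (.g (nat_lit 1567) (.e (nat_lit 1367) (nat_lit 103) (.e (nat_lit 294931) (nat_lit 3) (.e (nat_lit 98373) (nat_lit 29) (.e (nat_lit 458496) (nat_lit 1) .nil)))) .nil))) (.nd (nat_lit 5) 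
(.lf (nat_lit 53337) (.g (nat_lit 1842) (.e (nat_lit 1367) (nat_lit 103) (.e (nat_lit 294931) (nat_lit 3) (.e (nat_lit 98370) (nat_lit 28) (.e (nat_lit 442424) (nat_lit 22) (.e (nat_lit 196661) (nat_lit 12) .nil))))) .nil)) 
(.lf (nat_lit 53369) (.g (nat_lit 864) (.e (nat_lit 1367) (nat_lit 103) (.e (nat_lit 294940) (nat_lit 9) (.e (nat_lit 336421) (nat_lit 28) (.e (nat_lit 434178) (nat_lit 0) (.e (nat_lit 1515) (nat_lit 108) .nil))))) .nil))))) (.nd (nat_lit 3) (.nd (nat_lit 4) (.nd (nat_lit 5) 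
(.lf (nat_lit 53317) (.g (nat_lit 2113) (.e (nat_lit 1367) (nat_lit 103) (.e (nat_lit 294928) (nat_lit 2) (.e (nat_lit 90176) (nat_lit 15) (.e (nat_lit 188450) (nat_lit 23) (.e (nat_lit 204816) (nat_lit 17) (.e (nat_lit 6079) (nat_lit 332) .nil)))))) (.g (nat_lit 4) .nil .nil))) 
(.lf (nat_lit 53349) (.g (nat_lit 2039) (.e (nat_lit 1367) (nat_lit 103) (.e (nat_lit 294931) (nat_lit 3) (.e (nat_lit 98372) (nat_lit 29) (.e (nat_lit 450579) (nat_lit 5) (.e (nat_lit 532489) (nat_lit 0) (.e (nat_lit 7936) (nat_lit 332) .nil)))))) (.g (nat_lit 5) .nil .nil)))) (.nd (nat_lit 5) 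
(.lf (nat_lit 53333) (.g (nat_lit 4108) (.e (nat_lit 1367) (nat_lit 103) (.e (nat_lit 294930) (nat_lit 3) (.e (nat_lit 98373) (nat_lit 29) (.e (nat_lit 450588) (nat_lit 10) (.e (nat_lit 573452) (nat_lit 9) .nil))))) .nil)) 
(.lf (nat_lit 53365) (.g (nat_lit 1532) (.e (nat_lit 1367) (nat_lit 103) (.e (nat_lit 294938) (nat_lit 9) (.e (nat_lit 336421) (nat_lit 28) (.e (nat_lit 434178) (nat_lit 0) (.e (nat_lit 1512) (nat_lit 108) (.e (nat_lit 336241) (nat_lit 15) (.e (nat_lit 6953) (nat_lit 377) .nil))))))) (.g (nat_lit 6) .nil .nil))))) (.nd (nat_lit 4) (.nd (nat_lit 5) 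
(.lf (nat_lit 53325) (.g (nat_lit 469) (.e (nat_lit 1367) (nat_lit 103) (.e (nat_lit 294928) (nat_lit 2) (.e (nat_lit 90178) (nat_lit 15) .nil))) .nil)) 
(.lf (nat_lit 53357) (.g (nat_lit 3053) (.e (nat_lit 1367) (nat_lit 103) (.e (nat_lit 294931) (nat_lit 3) (.e (nat_lit 98373) (nat_lit 29) (.e (nat_lit 450588) (nat_lit 10) (.e (nat_lit 573451) (nat_lit 9) .nil))))) .nil))) (.nd (nat_lit 5) 
(.lf (nat_lit 53341) (.g (nat_lit 2431) (.e (nat_lit 1367) (nat_lit 103) (.e (nat_lit 294931) (nat_lit 3) (.e (nat_lit 98372) (nat_lit 29) (.e (nat_lit 450579) (nat_lit 5) (.e (nat_lit 532480) (nat_lit 0) (.e (nat_lit 6106) (nat_lit 332) .nil)))))) (.g (nat_lit 0) .nil .nil))) 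
(.lf (nat_lit 53373) (.g (nat_lit 1690) (.e (nat_lit 1367) (nat_lit 103) (.e (nat_lit 294941) (nat_lit 9) (.e (nat_lit 336421) (nat_lit 28) (.e (nat_lit 434179) (nat_lit 0) (.e (nat_lit 1512) (nat_lit 108) (.e (nat_lit 336241) (nat_lit 15) (.e (nat_lit 6953) (nat_lit 377) .nil))))))) (.g (nat_lit 6) .nil .nil))))))) (.nd (nat_lit 2) (.nd (nat_lit 3) (.nd (nat_lit 4) (.nd (nat_lit 5) 
(.lf (nat_lit 53315) (.g (nat_lit 2299) (.e (nat_lit 1367) (nat_lit 103) (.e (nat_lit 294928) (nat_lit 2) (.e (nat_lit 90170) (nat_lit 13) (.e (nat_lit 172106) (nat_lit 10) (.e (nat_lit 434244) (nat_lit 28) (.e (nat_lit 573451) (nat_lit 9) (.e (nat_lit 13) (nat_lit 0) (.e (nat_lit 6953) (nat_lit 377) .nil)))))))) (.g (nat_lit 4) .nil .nil))) 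
(.lf (nat_lit 53347) (.g (nat_lit 2122) (.e (nat_lit 1367) (nat_lit 103) (.e (nat_lit 294931) (nat_lit 3) (.e (nat_lit 98372) (nat_lit 29) (.e (nat_lit 450579) (nat_lit 5) (.e (nat_lit 532484) (nat_lit 0) (.e (nat_lit 7936) (nat_lit 332) .nil)))))) (.g (nat_lit 5) .nil .nil)))) (.nd (nat_lit 5) 
(.lf (nat_lit 53331) (.g (nat_lit 1377) (.e (nat_lit 1367) (nat_lit 103) (.e (nat_lit 294930) (nat_lit 3) (.e (nat_lit 98372) (nat_lit 29) (.e (nat_lit 450579) (nat_lit 5) (.e (nat_lit 532488) (nat_lit 0) (.e (nat_lit 7936) (nat_lit 332) .nil)))))) (.g (nat_lit 4) .nil .nil))) 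
(.lf (nat_lit 53363) (.g (nat_lit 4035) (.e (nat_lit 1367) (nat_lit 103) (.e (nat_lit 294931) (nat_lit 3) (.e (nat_lit 98373) (nat_lit 29) (.e (nat_lit 450588) (nat_lit 10) (.e (nat_lit 573452) (nat_lit 9) (.e (nat_lit 11) (nat_lit 0) (.e (nat_lit 6953) (nat_lit 377) .nil))))))) (.g (nat_lit 5) .nil .nil))))) (.nd (nat_lit 4) (.nd (nat_lit 5) 
(.lf (nat_lit 53323) (.g (nat_lit 1935) (.e (nat_lit 1367) (nat_lit 103) (.e (nat_lit 294928) (nat_lit 2) (.e (nat_lit 90176) (nat_lit 15) (.e (nat_lit 188450) (nat_lit 23) (.e (nat_lit 212736) (nat_lit 17) .nil))))) .nil)) 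
(.lf (nat_lit 53355) (.g (nat_lit 1505) (.e (nat_lit 1367) (nat_lit 103) (.e (nat_lit 294931) (nat_lit 3) (.e (nat_lit 98373) (nat_lit 29) (.e (nat_lit 450579) (nat_lit 5) .nil)))) .nil))) (.nd (nat_lit 5) 
(.lf (nat_lit 53339) (.g (nat_lit 1309) (.e (nat_lit 1367) (nat_lit 103) (.e (nat_lit 294931) (nat_lit 3) (.e (nat_lit 98372) (nat_lit 29) (.e (nat_lit 458496) (nat_lit 1) .nil)))) .nil)) 
(.lf (nat_lit 53371) (.g (nat_lit 1352) (.e (nat_lit 1367) (nat_lit 103) (.e (nat_lit 294941) (nat_lit 9) (.e (nat_lit 336421) (nat_lit 28) (.e (nat_lit 434178) (nat_lit 0) (.e (nat_lit 1515) (nat_lit 108) (.e (nat_lit 336241) (nat_lit 15) (.e (nat_lit 6952) (nat_lit 377) .nil))))))) (.g (nat_lit 4) .nil .nil)))))) (.nd (nat_lit 3) (.nd (nat_lit 4) (.nd (nat_lit 5) 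
(.lf (nat_lit 53319) (.g (nat_lit 3389) (.e (nat_lit 1367) (nat_lit 103) (.e (nat_lit 294928) (nat_lit 2) (.e (nat_lit 90176) (nat_lit 15) (.e (nat_lit 188450) (nat_lit 23) (.e (nat_lit 204819) (nat_lit 17) (.e (nat_lit 6109) (nat_lit 332) .nil)))))) (.g (nat_lit 0) .nil .nil))) 
(.lf (nat_lit 53351) (.g (nat_lit 296) (.e (nat_lit 1367) (nat_lit 103) (.e (nat_lit 294931) (nat_lit 3) (.e (nat_lit 98373) (nat_lit 29) .nil))) .nil))) (.nd (nat_lit 5) 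
(.lf (nat_lit 53335) (.g (nat_lit 2129) (.e (nat_lit 1367) (nat_lit 103) (.e (nat_lit 294930) (nat_lit 3) (.e (nat_lit 98381) (nat_lit 31) (.e (nat_lit 466977) (nat_lit 22) (.e (nat_lit 196677) (nat_lit 16) (.e (nat_lit 123073) (nat_lit 176) .nil)))))) (.g (nat_lit 0) .nil .nil))) 
(.lf (nat_lit 53367) (.g (nat_lit 1491) (.e (nat_lit 1367) (nat_lit 103) (.e (nat_lit 294938) (nat_lit 9) (.e (nat_lit 336421) (nat_lit 28) (.e (nat_lit 434179) (nat_lit 0) (.e (nat_lit 1512) (nat_lit 108) (.e (nat_lit 336241) (nat_lit 15) (.e (nat_lit 6953) (nat_lit 377) .nil))))))) (.g (nat_lit 6) .nil .nil))))) (.nd (nat_lit 4) (.nd (nat_lit 5) 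
(.lf (nat_lit 53327) (.g (nat_lit 3486) (.e (nat_lit 1367) (nat_lit 103) (.e (nat_lit 294928) (nat_lit 2) (.e (nat_lit 90178) (nat_lit 15) (.e (nat_lit 188452) (nat_lit 23) (.e (nat_lit 204816) (nat_lit 17) .nil))))) .nil)) 
(.lf (nat_lit 53359) (.g (nat_lit 4769) (.e (nat_lit 1367) (nat_lit 103) (.e (nat_lit 294931) (nat_lit 3) (.e (nat_lit 98373) (nat_lit 29) (.e (nat_lit 450588) (nat_lit 10) (.e (nat_lit 573451) (nat_lit 9) (.e (nat_lit 13) (nat_lit 0) (.e (nat_lit 6952) (nat_lit 377) .nil))))))) (.g (nat_lit 7) .nil .nil)))) (.nd (nat_lit 5) 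
(.lf (nat_lit 53343) (.g (nat_lit 2625) (.e (nat_lit 1367) (nat_lit 103) (.e (nat_lit 294931) (nat_lit 3) (.e (nat_lit 98372) (nat_lit 29) (.e (nat_lit 450579) (nat_lit 5) (.e (nat_lit 532480) (nat_lit 0) (.e (nat_lit 6122) (nat_lit 332) .nil)))))) (.g (nat_lit 0) .nil .nil))) 
(.lf (nat_lit 53375) (.g (nat_lit 1047) (.e (nat_lit 1367) (nat_lit 103) (.e (nat_lit 294955) (nat_lit 12) (.e (nat_lit 385102) (nat_lit 50) (.e (nat_lit 786483) (nat_lit 30) (.e (nat_lit 360484) (nat_lit 15) .nil))))) .nil))))))))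

noncomputable def tv737 : DT := (.nd (nat_lit 0) (.nd (nat_lit 1) (.nd (nat_lit 2) (.nd (nat_lit 3) (.nd (nat_lit 4) (.nd (nat_lit 5) 
(.lf (nat_lit 53376) (.g (nat_lit 2025) (.e (nat_lit 1367) (nat_lit 103) (.e (nat_lit 294957) (nat_lit 13) (.e (nat_lit 393271) (nat_lit 23) (.e (nat_lit 426444) (nat_lit 19) (.e (nat_lit 106556) (nat_lit 15) .nil))))) .nil)) 
(.lf (nat_lit 53408) (.g (nat_lit 919) (.e (nat_lit 1367) (nat_lit 103) (.e (nat_lit 294958) (nat_lit 13) (.e (nat_lit 393293) (nat_lit 26) (.e (nat_lit 483072) (nat_lit 40) .nil)))) .nil))) (.nd (nat_lit 5) 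
(.lf (nat_lit 53392) (.g (nat_lit 2148) (.e (nat_lit 1367) (nat_lit 103) (.e (nat_lit 294958) (nat_lit 13) (.e (nat_lit 393260) (nat_lit 21) (.e (nat_lit 409649) (nat_lit 18) (.e (nat_lit 303149) (nat_lit 15) .nil))))) .nil)) 
(.lf (nat_lit 53424) (.g (nat_lit 2291) (.e (nat_lit 1367) (nat_lit 103) (.e (nat_lit 294958) (nat_lit 13) (.e (nat_lit 393301) (nat_lit 27) (.e (nat_lit 491563) (nat_lit 12) (.e (nat_lit 392960) (nat_lit 16) .nil))))) (.g (nat_lit 4) .nil .nil))))) (.nd (nat_lit 4) (.nd (nat_lit 5) 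
(.lf (nat_lit 53384) (.g (nat_lit 1165) (.e (nat_lit 1367) (nat_lit 103) (.e (nat_lit 294958) (nat_lit 13) (.e (nat_lit 393234) (nat_lit 17) (.e (nat_lit 7936) (nat_lit 406) .nil)))) .nil)) 
(.lf (nat_lit 53416) (.g (nat_lit 2723) (.e (nat_lit 1367) (nat_lit 103) (.e (nat_lit 294958) (nat_lit 13) (.e (nat_lit 393301) (nat_lit 27) (.e (nat_lit 491551) (nat_lit 9) (.e (nat_lit 336250) (nat_lit 15) (.e (nat_lit 6952) (nat_lit 377) .nil)))))) (.g (nat_lit 5) .nil .nil)))) (.nd (nat_lit 5) 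
(.lf (nat_lit 53400) (.g (nat_lit 1055) (.e (nat_lit 1367) (nat_lit 103) (.e (nat_lit 294958) (nat_lit 13) (.e (nat_lit 393290) (nat_lit 26) (.e (nat_lit 475219) (nat_lit 44) (.e (nat_lit 737285) (nat_lit 0) .nil))))) .nil)) 
(.lf (nat_lit 53432) (.g (nat_lit 1930) (.e (nat_lit 1367) (nat_lit 103) (.e (nat_lit 294959) (nat_lit 13) (.e (nat_lit 393268) (nat_lit 23) (.e (nat_lit 426444) (nat_lit 19) (.e (nat_lit 106556) (nat_lit 15) (.e (nat_lit 57794) (nat_lit 245) .nil)))))) (.g (nat_lit 4) .nil .nil)))))) (.nd (nat_lit 3) (.nd (nat_lit 4) (.nd (nat_lit 5) 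
(.lf (nat_lit 53380) (.g (nat_lit 1619) (.e (nat_lit 1367) (nat_lit 103) (.e (nat_lit 294957) (nat_lit 13) (.e (nat_lit 393301) (nat_lit 27) (.e (nat_lit 491563) (nat_lit 12) (.e (nat_lit 392960) (nat_lit 16) .nil))))) .nil)) 
(.lf (nat_lit 53412) (.g (nat_lit 1445) (.e (nat_lit 1367) (nat_lit 103) (.e (nat_lit 294958) (nat_lit 13) (.e (nat_lit 393294) (nat_lit 26) (.e (nat_lit 475218) (nat_lit 44) .nil)))) .nil))) (.nd (nat_lit 5) 
(.lf (nat_lit 53396) (.g (nat_lit 2546) (.e (nat_lit 1367) (nat_lit 103) (.e (nat_lit 294958) (nat_lit 13) (.e (nat_lit 393271) (nat_lit 23) (.e (nat_lit 426444) (nat_lit 19) (.e (nat_lit 106556) (nat_lit 15) (.e (nat_lit 57794) (nat_lit 245) .nil)))))) (.g (nat_lit 5) .nil .nil))) 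
(.lf (nat_lit 53428) (.g (nat_lit 1522) (.e (nat_lit 1367) (nat_lit 103) (.e (nat_lit 294959) (nat_lit 13) (.e (nat_lit 393260) (nat_lit 21) (.e (nat_lit 409646) (nat_lit 18) (.e (nat_lit 303149) (nat_lit 15) (.e (nat_lit 6120) (nat_lit 332) .nil)))))) (.g (nat_lit 4) .nil .nil))))) (.nd (nat_lit 4) (.nd (nat_lit 5) 
(.lf (nat_lit 53388) (.g (nat_lit 2228) (.e (nat_lit 1367) (nat_lit 103) (.e (nat_lit 294958) (nat_lit 13) (.e (nat_lit 393260) (nat_lit 21) (.e (nat_lit 409617) (nat_lit 10) (.e (nat_lit 7936) (nat_lit 313) .nil))))) .nil)) 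
(.lf (nat_lit 53420) (.g (nat_lit 2930) (.e (nat_lit 1367) (nat_lit 103) (.e (nat_lit 294958) (nat_lit 13) (.e (nat_lit 393301) (nat_lit 27) (.e (nat_lit 491552) (nat_lit 9) (.e (nat_lit 336248) (nat_lit 15) (.e (nat_lit 6953) (nat_lit 377) .nil)))))) (.g (nat_lit 6) .nil .nil)))) (.nd (nat_lit 5) 
(.lf (nat_lit 53404) (.g (nat_lit 1640) (.e (nat_lit 1367) (nat_lit 103) (.e (nat_lit 294958) (nat_lit 13) (.e (nat_lit 393290) (nat_lit 26) (.e (nat_lit 475219) (nat_lit 44) (.e (nat_lit 737286) (nat_lit 0) (.e (nat_lit 4868) (nat_lit 287) .nil)))))) (.g (nat_lit 5) .nil .nil))) 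
(.lf (nat_lit 53436) (.g (nat_lit 1752) (.e (nat_lit 1367) (nat_lit 103) (.e (nat_lit 294959) (nat_lit 13) (.e (nat_lit 393291) (nat_lit 26) (.e (nat_lit 475201) (nat_lit 40) (.e (nat_lit 704841) (nat_lit 15) (.e (nat_lit 57794) (nat_lit 245) .nil)))))) (.g (nat_lit 5) .nil .nil))))))) (.nd (nat_lit 2) (.nd (nat_lit 3) (.nd (nat_lit 4) (.nd (nat_lit 5) 
(.lf (nat_lit 53378) (.g (nat_lit 2134) (.e (nat_lit 1367) (nat_lit 103) (.e (nat_lit 294957) (nat_lit 13) (.e (nat_lit 393301) (nat_lit 27) (.e (nat_lit 491552) (nat_lit 9) (.e (nat_lit 336248) (nat_lit 15) .nil))))) .nil)) 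
(.lf (nat_lit 53410) (.g (nat_lit 1842) (.e (nat_lit 1367) (nat_lit 103) (.e (nat_lit 294958) (nat_lit 13) (.e (nat_lit 393294) (nat_lit 26) (.e (nat_lit 475200) (nat_lit 40) (.e (nat_lit 704841) (nat_lit 15) .nil))))) .nil))) (.nd (nat_lit 5) 
(.lf (nat_lit 53394) (.g (nat_lit 2207) (.e (nat_lit 1367) (nat_lit 103) (.e (nat_lit 294958) (nat_lit 13) (.e (nat_lit 393268) (nat_lit 23) (.e (nat_lit 426444) (nat_lit 19) (.e (nat_lit 106556) (nat_lit 15) .nil))))) .nil)) 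
(.lf (nat_lit 53426) (.g (nat_lit 2341) (.e (nat_lit 1367) (nat_lit 103) (.e (nat_lit 294959) (nat_lit 13) (.e (nat_lit 393260) (nat_lit 21) (.e (nat_lit 409616) (nat_lit 10) (.e (nat_lit 7936) (nat_lit 313) (.e (nat_lit 8534) (nat_lit 225) .nil)))))) (.g (nat_lit 4) .nil .nil))))) (.nd (nat_lit 4) (.nd (nat_lit 5) 
(.lf (nat_lit 53386) (.g (nat_lit 326) (.e (nat_lit 1367) (nat_lit 103) (.e (nat_lit 294958) (nat_lit 13) (.e (nat_lit 393242) (nat_lit 17) .nil))) .nil)) 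
(.lf (nat_lit 53418) (.g (nat_lit 2242) (.e (nat_lit 1367) (nat_lit 103) (.e (nat_lit 294958) (nat_lit 13) (.e (nat_lit 393301) (nat_lit 27) (.e (nat_lit 491552) (nat_lit 9) (.e (nat_lit 336248) (nat_lit 15) .nil))))) .nil))) (.nd (nat_lit 5) 
(.lf (nat_lit 53402) (.g (nat_lit 1401) (.e (nat_lit 1367) (nat_lit 103) (.e (nat_lit 294958) (nat_lit 13) (.e (nat_lit 393290) (nat_lit 26) (.e (nat_lit 475219) (nat_lit 44) (.e (nat_lit 737286) (nat_lit 0) (.e (nat_lit 4864) (nat_lit 287) .nil)))))) (.g (nat_lit 4) .nil .nil))) 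
(.lf (nat_lit 53434) (.g (nat_lit 1218) (.e (nat_lit 1367) (nat_lit 103) (.e (nat_lit 294959) (nat_lit 13) (.e (nat_lit 393279) (nat_lit 23) (.e (nat_lit 426443) (nat_lit 19) (.e (nat_lit 106556) (nat_lit 15) (.e (nat_lit 57794) (nat_lit 245) .nil)))))) (.g (nat_lit 0) .nil .nil)))))) (.nd (nat_lit 3) (.nd (nat_lit 4) (.nd (nat_lit 5) 
(.lf (nat_lit 53382) (.g (nat_lit 1831) (.e (nat_lit 1367) (nat_lit 103) (.e (nat_lit 294958) (nat_lit 13) (.e (nat_lit 393234) (nat_lit 17) (.e (nat_lit 7587) (nat_lit 406) (.e (nat_lit 65632) (nat_lit 15) .nil))))) .nil)) 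
(.lf (nat_lit 53414) (.g (nat_lit 2318) (.e (nat_lit 1367) (nat_lit 103) (.e (nat_lit 294958) (nat_lit 13) (.e (nat_lit 393301) (nat_lit 27) (.e (nat_lit 491551) (nat_lit 9) (.e (nat_lit 336248) (nat_lit 15) .nil))))) .nil))) (.nd (nat_lit 5) 
(.lf (nat_lit 53398) (.g (nat_lit 2279) (.e (nat_lit 1367) (nat_lit 103) (.e (nat_lit 294958) (nat_lit 13) (.e (nat_lit 393273) (nat_lit 23) (.e (nat_lit 426444) (nat_lit 19) (.e (nat_lit 106556) (nat_lit 15) (.e (nat_lit 57794) (nat_lit 245) .nil)))))) (.g (nat_lit 5) .nil .nil))) 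
(.lf (nat_lit 53430) (.g (nat_lit 1806) (.e (nat_lit 1367) (nat_lit 103) (.e (nat_lit 294959) (nat_lit 13) (.e (nat_lit 393260) (nat_lit 21) (.e (nat_lit 409648) (nat_lit 18) (.e (nat_lit 303149) (nat_lit 15) (.e (nat_lit 6098) (nat_lit 332) .nil)))))) (.g (nat_lit 4) .nil .nil))))) (.nd (nat_lit 4) (.nd (nat_lit 5) 
(.lf (nat_lit 53390) (.g (nat_lit 2229) (.e (nat_lit 1367) (nat_lit 103) (.e (nat_lit 294958) (nat_lit 13) (.e (nat_lit 393260) (nat_lit 21) (.e (nat_lit 409645) (nat_lit 18) (.e (nat_lit 303149) (nat_lit 15) .nil))))) .nil)) 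
(.lf (nat_lit 53422) (.g (nat_lit 2761) (.e (nat_lit 1367) (nat_lit 103) (.e (nat_lit 294958) (nat_lit 13) (.e (nat_lit 393301) (nat_lit 27) (.e (nat_lit 491552) (nat_lit 9) (.e (nat_lit 336250) (nat_lit 15) (.e (nat_lit 6952) (nat_lit 377) .nil)))))) (.g (nat_lit 5) .nil .nil)))) (.nd (nat_lit 5) 
(.lf (nat_lit 53406) (.g (nat_lit 1844) (.e (nat_lit 1367) (nat_lit 103) (.e (nat_lit 294958) (nat_lit 13) (.e (nat_lit 393291) (nat_lit 26) (.e (nat_lit 475201) (nat_lit 40) (.e (nat_lit 704839) (nat_lit 15) .nil))))) .nil)) 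
(.lf (nat_lit 53438) (.g (nat_lit 1007) (.e (nat_lit 1367) (nat_lit 103) (.e (nat_lit 294960) (nat_lit 13) (.e (nat_lit 393238) (nat_lit 17) (.e (nat_lit 7936) (nat_lit 406) .nil)))) .nil))))))) (.nd (nat_lit 1) (.nd (nat_lit 2) (.nd (nat_lit 3) (.nd (nat_lit 4) (.nd (nat_lit 5) 
(.lf (nat_lit 53377) (.g (nat_lit 486) (.e (nat_lit 1367) (nat_lit 103) (.e (nat_lit 294957) (nat_lit 13) (.e (nat_lit 393279) (nat_lit 23) (.e (nat_lit 433920) (nat_lit 19) .nil)))) .nil)) 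
(.lf (nat_lit 53409) (.g (nat_lit 323) (.e (nat_lit 1367) (nat_lit 103) (.e (nat_lit 294958) (nat_lit 13) (.e (nat_lit 393294) (nat_lit 26) .nil))) .nil))) (.nd (nat_lit 5) 
(.lf (nat_lit 53393) (.g (nat_lit 2300) (.e (nat_lit 1367) (nat_lit 103) (.e (nat_lit 294958) (nat_lit 13) (.e (nat_lit 393260) (nat_lit 21) (.e (nat_lit 409649) (nat_lit 18) (.e (nat_lit 303149) (nat_lit 15) (.e (nat_lit 6120) (nat_lit 332) .nil)))))) (.g (nat_lit 4) .nil .nil))) 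
(.lf (nat_lit 53425) (.g (nat_lit 2143) (.e (nat_lit 1367) (nat_lit 103) (.e (nat_lit 294959) (nat_lit 13) (.e (nat_lit 393260) (nat_lit 21) (.e (nat_lit 409616) (nat_lit 10) (.e (nat_lit 7936) (nat_lit 313) .nil))))) .nil)))) (.nd (nat_lit 4) (.nd (nat_lit 5) 
(.lf (nat_lit 53385) (.g (nat_lit 992) (.e (nat_lit 1367) (nat_lit 103) (.e (nat_lit 294958) (nat_lit 13) (.e (nat_lit 393238) (nat_lit 17) (.e (nat_lit 7936) (nat_lit 406) .nil)))) .nil)) 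
(.lf (nat_lit 53417) (.g (nat_lit 2889) (.e (nat_lit 1367) (nat_lit 103) (.e (nat_lit 294958) (nat_lit 13) (.e (nat_lit 393301) (nat_lit 27) (.e (nat_lit 491551) (nat_lit 9) (.e (nat_lit 336250) (nat_lit 15) (.e (nat_lit 6953) (nat_lit 377) .nil)))))) (.g (nat_lit 0) .nil .nil)))) (.nd (nat_lit 5) 
(.lf (nat_lit 53401) (.g (nat_lit 1222) (.e (nat_lit 1367) (nat_lit 103) (.e (nat_lit 294958) (nat_lit 13) (.e (nat_lit 393290) (nat_lit 26) (.e (nat_lit 475219) (nat_lit 44) (.e (nat_lit 737285) (nat_lit 0) (.e (nat_lit 4883) (nat_lit 287) .nil)))))) (.g (nat_lit 4) .nil .nil))) 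
(.lf (nat_lit 53433) (.g (nat_lit 2207) (.e (nat_lit 1367) (nat_lit 103) (.e (nat_lit 294959) (nat_lit 13) (.e (nat_lit 393271) (nat_lit 23) (.e (nat_lit 426444) (nat_lit 19) (.e (nat_lit 106556) (nat_lit 15) (.e (nat_lit 57794) (nat_lit 245) .nil)))))) (.g (nat_lit 0) .nil .nil)))))) (.nd (nat_lit 3) (.nd (nat_lit 4) (.nd (nat_lit 5) 
(.lf (nat_lit 53381) (.g (nat_lit 1106) (.e (nat_lit 1367) (nat_lit 103) (.e (nat_lit 294958) (nat_lit 13) (.e (nat_lit 393234) (nat_lit 17) (.e (nat_lit 7587) (nat_lit 406) .nil)))) .nil)) 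
(.lf (nat_lit 53413) (.g (nat_lit 1472) (.e (nat_lit 1367) (nat_lit 103) (.e (nat_lit 294958) (nat_lit 13) (.e (nat_lit 393301) (nat_lit 27) (.e (nat_lit 491546) (nat_lit 9) .nil)))) .nil))) (.nd (nat_lit 5) 
(.lf (nat_lit 53397) (.g (nat_lit 1245) (.e (nat_lit 1367) (nat_lit 103) (.e (nat_lit 294958) (nat_lit 13) (.e (nat_lit 393272) (nat_lit 23) (.e (nat_lit 426444) (nat_lit 19) (.e (nat_lit 106556) (nat_lit 15) (.e (nat_lit 57794) (nat_lit 245) .nil)))))) (.g (nat_lit 4) .nil .nil))) 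
(.lf (nat_lit 53429) (.g (nat_lit 1500) (.e (nat_lit 1367) (nat_lit 103) (.e (nat_lit 294959) (nat_lit 13) (.e (nat_lit 393260) (nat_lit 21) (.e (nat_lit 409648) (nat_lit 18) (.e (nat_lit 303149) (nat_lit 15) .nil))))) .nil)))) (.nd (nat_lit 4) (.nd (nat_lit 5) 
(.lf (nat_lit 53389) (.g (nat_lit 1822) (.e (nat_lit 1367) (nat_lit 103) (.e (nat_lit 294958) (nat_lit 13) (.e (nat_lit 393260) (nat_lit 21) (.e (nat_lit 409643) (nat_lit 18) (.e (nat_lit 303149) (nat_lit 15) .nil))))) .nil)) 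
(.lf (nat_lit 53421) (.g (nat_lit 2347) (.e (nat_lit 1367) (nat_lit 103) (.e (nat_lit 294958) (nat_lit 13) (.e (nat_lit 393301) (nat_lit 27) (.e (nat_lit 491552) (nat_lit 9) (.e (nat_lit 336250) (nat_lit 15) .nil))))) .nil))) (.nd (nat_lit 5) 
(.lf (nat_lit 53405) (.g (nat_lit 1194) (.e (nat_lit 1367) (nat_lit 103) (.e (nat_lit 294958) (nat_lit 13) (.e (nat_lit 393290) (nat_lit 26) (.e (nat_lit 475219) (nat_lit 44) (.e (nat_lit 737286) (nat_lit 0) (.e (nat_lit 4882) (nat_lit 287) .nil)))))) (.g (nat_lit 4) .nil .nil))) 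
(.lf (nat_lit 53437) (.g (nat_lit 2197) (.e (nat_lit 1367) (nat_lit 103) (.e (nat_lit 294960) (nat_lit 13) (.e (nat_lit 393238) (nat_lit 17) (.e (nat_lit 7101) (nat_lit 380) (.e (nat_lit 164368) (nat_lit 247) (.e (nat_lit 8534) (nat_lit 225) .nil)))))) (.g (nat_lit 5) .nil .nil))))))) (.nd (nat_lit 2) (.nd (nat_lit 3) (.nd (nat_lit 4) (.nd (nat_lit 5) 
(.lf (nat_lit 53379) (.g (nat_lit 2123) (.e (nat_lit 1367) (nat_lit 103) (.e (nat_lit 294957) (nat_lit 13) (.e (nat_lit 393301) (nat_lit 27) (.e (nat_lit 491552) (nat_lit 9) (.e (nat_lit 336250) (nat_lit 15) .nil))))) .nil)) 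
(.lf (nat_lit 53411) (.g (nat_lit 2573) (.e (nat_lit 1367) (nat_lit 103) (.e (nat_lit 294958) (nat_lit 13) (.e (nat_lit 393294) (nat_lit 26) (.e (nat_lit 475201) (nat_lit 40) (.e (nat_lit 704841) (nat_lit 15) (.e (nat_lit 57794) (nat_lit 245) .nil)))))) (.g (nat_lit 5) .nil .nil)))) (.nd (nat_lit 5) 
(.lf (nat_lit 53395) (.g (nat_lit 1260) (.e (nat_lit 1367) (nat_lit 103) (.e (nat_lit 294958) (nat_lit 13) (.e (nat_lit 393270) (nat_lit 23) (.e (nat_lit 426444) (nat_lit 19) (.e (nat_lit 106556) (nat_lit 15) .nil))))) .nil)) 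
(.lf (nat_lit 53427) (.g (nat_lit 1280) (.e (nat_lit 1367) (nat_lit 103) (.e (nat_lit 294959) (nat_lit 13) (.e (nat_lit 393260) (nat_lit 21) (.e (nat_lit 409646) (nat_lit 18) (.e (nat_lit 303149) (nat_lit 15) .nil))))) .nil)))) (.nd (nat_lit 4) (.nd (nat_lit 5) 
(.lf (nat_lit 53387) (.g (nat_lit 2746) (.e (nat_lit 1367) (nat_lit 103) (.e (nat_lit 294958) (nat_lit 13) (.e (nat_lit 393260) (nat_lit 21) (.e (nat_lit 409616) (nat_lit 10) (.e (nat_lit 7936) (nat_lit 313) .nil))))) .nil)) 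
(.lf (nat_lit 53419) (.g (nat_lit 2533) (.e (nat_lit 1367) (nat_lit 103) (.e (nat_lit 294958) (nat_lit 13) (.e (nat_lit 393301) (nat_lit 27) (.e (nat_lit 491552) (nat_lit 9) (.e (nat_lit 336248) (nat_lit 15) (.e (nat_lit 6952) (nat_lit 377) .nil)))))) (.g (nat_lit 4) .nil .nil)))) (.nd (nat_lit 5) 
(.lf (nat_lit 53403) (.g (nat_lit 1204) (.e (nat_lit 1367) (nat_lit 103) (.e (nat_lit 294958) (nat_lit 13) (.e (nat_lit 393290) (nat_lit 26) (.e (nat_lit 475219) (nat_lit 44) (.e (nat_lit 737286) (nat_lit 0) (.e (nat_lit 4867) (nat_lit 287) .nil)))))) (.g (nat_lit 4) .nil .nil))) 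
(.lf (nat_lit 53435) (.g (nat_lit 1807) (.e (nat_lit 1367) (nat_lit 103) (.e (nat_lit 294959) (nat_lit 13) (.e (nat_lit 393291) (nat_lit 26) (.e (nat_lit 475201) (nat_lit 40) (.e (nat_lit 704839) (nat_lit 15) (.e (nat_lit 57794) (nat_lit 245) .nil)))))) (.g (nat_lit 4) .nil .nil)))))) (.nd (nat_lit 3) (.nd (nat_lit 4) (.nd (nat_lit 5) 
(.lf (nat_lit 53383) (.g (nat_lit 2095) (.e (nat_lit 1367) (nat_lit 103) (.e (nat_lit 294958) (nat_lit 13) (.e (nat_lit 393234) (nat_lit 17) (.e (nat_lit 7589) (nat_lit 406) (.e (nat_lit 65632) (nat_lit 15) (.e (nat_lit 6952) (nat_lit 377) .nil)))))) (.g (nat_lit 4) .nil .nil))) 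
(.lf (nat_lit 53415) (.g (nat_lit 2265) (.e (nat_lit 1367) (nat_lit 103) (.e (nat_lit 294958) (nat_lit 13) (.e (nat_lit 393301) (nat_lit 27) (.e (nat_lit 491551) (nat_lit 9) (.e (nat_lit 336250) (nat_lit 15) .nil))))) .nil))) (.nd (nat_lit 5) 
(.lf (nat_lit 53399) (.g (nat_lit 337) (.e (nat_lit 1367) (nat_lit 103) (.e (nat_lit 294958) (nat_lit 13) (.e (nat_lit 393290) (nat_lit 26) .nil))) .nil)) 
(.lf (nat_lit 53431) (.g (nat_lit 1455) (.e (nat_lit 1367) (nat_lit 103) (.e (nat_lit 294959) (nat_lit 13) (.e (nat_lit 393260) (nat_lit 21) (.e (nat_lit 409649) (nat_lit 18) (.e (nat_lit 303149) (nat_lit 15) .nil))))) .nil)))) (.nd (nat_lit 4) (.nd (nat_lit 5) 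
(.lf (nat_lit 53391) (.g (nat_lit 2665) (.e (nat_lit 1367) (nat_lit 103) (.e (nat_lit 294958) (nat_lit 13) (.e (nat_lit 393260) (nat_lit 21) (.e (nat_lit 409645) (nat_lit 18) (.e (nat_lit 303149) (nat_lit 15) (.e (nat_lit 6120) (nat_lit 332) .nil)))))) (.g (nat_lit 4) .nil .nil))) 
(.lf (nat_lit 53423) (.g (nat_lit 3235) (.e (nat_lit 1367) (nat_lit 103) (.e (nat_lit 294958) (nat_lit 13) (.e (nat_lit 393301) (nat_lit 27) (.e (nat_lit 491556) (nat_lit 9) (.e (nat_lit 343808) (nat_lit 15) (.e (nat_lit 6953) (nat_lit 377) .nil)))))) (.g (nat_lit 4) .nil .nil)))) (.nd (nat_lit 5) 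
(.lf (nat_lit 53407) (.g (nat_lit 1671) (.e (nat_lit 1367) (nat_lit 103) (.e (nat_lit 294958) (nat_lit 13) (.e (nat_lit 393291) (nat_lit 26) (.e (nat_lit 475201) (nat_lit 40) (.e (nat_lit 704841) (nat_lit 15) .nil))))) .nil)) 
(.lf (nat_lit 53439) (.g (nat_lit 496) (.e (nat_lit 1367) (nat_lit 103) (.e (nat_lit 294960) (nat_lit 13) (.e (nat_lit 393242) (nat_lit 17) (.e (nat_lit 7936) (nat_lit 406) .nil)))) .nil))))))))

noncomputable def tv738 : DT := (.nd (nat_lit 0) (.nd (nat_lit 1) (.nd (nat_lit 2) (.nd (nat_lit 3) (.nd (nat_lit 4) (.nd (nat_lit 5) 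
(.lf (nat_lit 53440) (.g (nat_lit 313) (.e (nat_lit 1367) (nat_lit 103) (.e (nat_lit 294960) (nat_lit 13) (.e (nat_lit 393260) (nat_lit 21) .nil))) .nil)) 
(.lf (nat_lit 53472) (.g (nat_lit 2932) (.e (nat_lit 1368) (nat_lit 103) (.e (nat_lit 294928) (nat_lit 2) (.e (nat_lit 90176) (nat_lit 15) (.e (nat_lit 188447) (nat_lit 22) (.e (nat_lit 196661) (nat_lit 12) (.e (nat_lit 57711) (nat_lit 176) .nil)))))) (.g (nat_lit 0) .nil .nil)))) (.nd (nat_lit 5) 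
(.lf (nat_lit 53456) (.g (nat_lit 2159) (.e (nat_lit 1367) (nat_lit 103) (.e (nat_lit 294960) (nat_lit 13) (.e (nat_lit 393291) (nat_lit 26) (.e (nat_lit 475201) (nat_lit 40) (.e (nat_lit 704841) (nat_lit 15) (.e (nat_lit 57794) (nat_lit 245) .nil)))))) (.g (nat_lit 6) .nil .nil))) 
(.lf (nat_lit 53488) (.g (nat_lit 1748) (.e (nat_lit 1368) (nat_lit 103) (.e (nat_lit 294938) (nat_lit 9) (.e (nat_lit 336454) (nat_lit 34) (.e (nat_lit 491264) (nat_lit 3) (.e (nat_lit 221211) (nat_lit 22) (.e (nat_lit 196686) (nat_lit 18) .nil)))))) (.g (nat_lit 5) .nil .nil))))) (.nd (nat_lit 4) (.nd (nat_lit 5) 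
(.lf (nat_lit 53448) (.g (nat_lit 1658) (.e (nat_lit 1367) (nat_lit 103) (.e (nat_lit 294960) (nat_lit 13) (.e (nat_lit 393260) (nat_lit 21) (.e (nat_lit 409646) (nat_lit 18) (.e (nat_lit 303149) (nat_lit 15) .nil))))) .nil)) 
(.lf (nat_lit 53480) (.g (nat_lit 1969) (.e (nat_lit 1368) (nat_lit 103) (.e (nat_lit 294928) (nat_lit 2) (.e (nat_lit 90176) (nat_lit 15) (.e (nat_lit 188450) (nat_lit 23) (.e (nat_lit 204821) (nat_lit 17) (.e (nat_lit 7936) (nat_lit 332) .nil)))))) (.g (nat_lit 5) .nil .nil)))) (.nd (nat_lit 5) 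
(.lf (nat_lit 53464) (.g (nat_lit 4131) (.e (nat_lit 1368) (nat_lit 103) (.e (nat_lit 294928) (nat_lit 2) (.e (nat_lit 90170) (nat_lit 13) (.e (nat_lit 172106) (nat_lit 10) (.e (nat_lit 434231) (nat_lit 23) (.e (nat_lit 532482) (nat_lit 0) (.e (nat_lit 6192) (nat_lit 332) .nil))))))) (.g (nat_lit 5) .nil .nil))) 
(.lf (nat_lit 53496) (.g (nat_lit 1070) (.e (nat_lit 1368) (nat_lit 103) (.e (nat_lit 294958) (nat_lit 13) (.e (nat_lit 401152) (nat_lit 15) (.e (nat_lit 385109) (nat_lit 51) (.e (nat_lit 794666) (nat_lit 22) (.e (nat_lit 196691) (nat_lit 18) .nil)))))) (.g (nat_lit 4) .nil .nil)))))) (.nd (nat_lit 3) (.nd (nat_lit 4) (.nd (nat_lit 5) 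
(.lf (nat_lit 53444) (.g (nat_lit 1630) (.e (nat_lit 1367) (nat_lit 103) (.e (nat_lit 294960) (nat_lit 13) (.e (nat_lit 393260) (nat_lit 21) (.e (nat_lit 409643) (nat_lit 18) (.e (nat_lit 303149) (nat_lit 15) .nil))))) .nil)) 
(.lf (nat_lit 53476) (.g (nat_lit 1632) (.e (nat_lit 1368) (nat_lit 103) (.e (nat_lit 294928) (nat_lit 2) (.e (nat_lit 90176) (nat_lit 15) (.e (nat_lit 188450) (nat_lit 23) (.e (nat_lit 204816) (nat_lit 17) (.e (nat_lit 6192) (nat_lit 332) .nil)))))) (.g (nat_lit 4) .nil .nil)))) (.nd (nat_lit 5) 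
(.lf (nat_lit 53460) (.g (nat_lit 3004) (.e (nat_lit 1368) (nat_lit 103) (.e (nat_lit 294927) (nat_lit 2) (.e (nat_lit 90170) (nat_lit 13) (.e (nat_lit 172106) (nat_lit 10) (.e (nat_lit 434231) (nat_lit 23) (.e (nat_lit 532490) (nat_lit 0) (.e (nat_lit 6149) (nat_lit 332) .nil))))))) (.g (nat_lit 4) .nil .nil))) 
(.lf (nat_lit 53492) (.g (nat_lit 1452) (.e (nat_lit 1368) (nat_lit 103) (.e (nat_lit 294953) (nat_lit 12) (.e (nat_lit 385109) (nat_lit 51) (.e (nat_lit 794683) (nat_lit 25) (.e (nat_lit 229120) (nat_lit 12) .nil))))) .nil)))) (.nd (nat_lit 4) (.nd (nat_lit 5) 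
(.lf (nat_lit 53452) (.g (nat_lit 1998) (.e (nat_lit 1367) (nat_lit 103) (.e (nat_lit 294960) (nat_lit 13) (.e (nat_lit 393260) (nat_lit 21) (.e (nat_lit 409649) (nat_lit 18) (.e (nat_lit 303149) (nat_lit 15) .nil))))) .nil)) 
(.lf (nat_lit 53484) (.g (nat_lit 2836) (.e (nat_lit 1368) (nat_lit 103) (.e (nat_lit 294931) (nat_lit 3) (.e (nat_lit 98372) (nat_lit 29) (.e (nat_lit 450579) (nat_lit 5) (.e (nat_lit 532488) (nat_lit 0) (.e (nat_lit 7936) (nat_lit 332) .nil)))))) (.g (nat_lit 5) .nil .nil)))) (.nd (nat_lit 5) 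
(.lf (nat_lit 53468) (.g (nat_lit 4035) (.e (nat_lit 1368) (nat_lit 103) (.e (nat_lit 294928) (nat_lit 2) (.e (nat_lit 90170) (nat_lit 13) (.e (nat_lit 172106) (nat_lit 10) (.e (nat_lit 434231) (nat_lit 23) (.e (nat_lit 532490) (nat_lit 0) (.e (nat_lit 7936) (nat_lit 332) .nil))))))) (.g (nat_lit 6) .nil .nil))) 
(.lf (nat_lit 53500) (.g (nat_lit 1899) (.e (nat_lit 1368) (nat_lit 103) (.e (nat_lit 294958) (nat_lit 13) (.e (nat_lit 393283) (nat_lit 24) (.e (nat_lit 434275) (nat_lit 39) (.e (nat_lit 663565) (nat_lit 3) (.e (nat_lit 57717) (nat_lit 176) .nil)))))) (.g (nat_lit 4) .nil .nil))))))) (.nd (nat_lit 2) (.nd (nat_lit 3) (.nd (nat_lit 4) (.nd (nat_lit 5) 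
(.lf (nat_lit 53442) (.g (nat_lit 2553) (.e (nat_lit 1367) (nat_lit 103) (.e (nat_lit 294960) (nat_lit 13) (.e (nat_lit 393260) (nat_lit 21) (.e (nat_lit 409617) (nat_lit 10) (.e (nat_lit 7936) (nat_lit 313) (.e (nat_lit 8534) (nat_lit 225) .nil)))))) (.g (nat_lit 4) .nil .nil))) 
(.lf (nat_lit 53474) (.g (nat_lit 2736) (.e (nat_lit 1368) (nat_lit 103) (.e (nat_lit 294928) (nat_lit 2) (.e (nat_lit 90176) (nat_lit 15) (.e (nat_lit 188447) (nat_lit 22) (.e (nat_lit 196661) (nat_lit 12) (.e (nat_lit 57715) (nat_lit 176) .nil)))))) (.g (nat_lit 6) .nil .nil)))) (.nd (nat_lit 5) 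
(.lf (nat_lit 53458) (.g (nat_lit 1667) (.e (nat_lit 1367) (nat_lit 103) (.e (nat_lit 294960) (nat_lit 13) (.e (nat_lit 393291) (nat_lit 26) (.e (nat_lit 475219) (nat_lit 44) (.e (nat_lit 737286) (nat_lit 0) .nil))))) .nil)) 
(.lf (nat_lit 53490) (.g (nat_lit 1727) (.e (nat_lit 1368) (nat_lit 103) (.e (nat_lit 294941) (nat_lit 9) (.e (nat_lit 336421) (nat_lit 28) (.e (nat_lit 434178) (nat_lit 0) (.e (nat_lit 1515) (nat_lit 108) (.e (nat_lit 336241) (nat_lit 15) (.e (nat_lit 7064) (nat_lit 377) .nil))))))) (.g (nat_lit 4) .nil .nil))))) (.nd (nat_lit 4) (.nd (nat_lit 5) 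
(.lf (nat_lit 53450) (.g (nat_lit 2029) (.e (nat_lit 1367) (nat_lit 103) (.e (nat_lit 294960) (nat_lit 13) (.e (nat_lit 393260) (nat_lit 21) (.e (nat_lit 409648) (nat_lit 18) (.e (nat_lit 303149) (nat_lit 15) .nil))))) .nil)) 
(.lf (nat_lit 53482) (.g (nat_lit 1381) (.e (nat_lit 1368) (nat_lit 103) (.e (nat_lit 294931) (nat_lit 3) (.e (nat_lit 98372) (nat_lit 29) (.e (nat_lit 458496) (nat_lit 1) .nil)))) .nil))) (.nd (nat_lit 5) 
(.lf (nat_lit 53466) (.g (nat_lit 4462) (.e (nat_lit 1368) (nat_lit 103) (.e (nat_lit 294928) (nat_lit 2) (.e (nat_lit 90170) (nat_lit 13) (.e (nat_lit 172106) (nat_lit 10) (.e (nat_lit 434231) (nat_lit 23) (.e (nat_lit 532490) (nat_lit 0) (.e (nat_lit 6126) (nat_lit 332) .nil))))))) (.g (nat_lit 6) .nil .nil))) 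
(.lf (nat_lit 53498) (.g (nat_lit 1710) (.e (nat_lit 1368) (nat_lit 103) (.e (nat_lit 294958) (nat_lit 13) (.e (nat_lit 393283) (nat_lit 24) (.e (nat_lit 434274) (nat_lit 39) (.e (nat_lit 663565) (nat_lit 3) (.e (nat_lit 57713) (nat_lit 176) .nil)))))) (.g (nat_lit 5) .nil .nil)))))) (.nd (nat_lit 3) (.nd (nat_lit 4) (.nd (nat_lit 5) 
(.lf (nat_lit 53446) (.g (nat_lit 2113) (.e (nat_lit 1367) (nat_lit 103) (.e (nat_lit 294960) (nat_lit 13) (.e (nat_lit 393260) (nat_lit 21) (.e (nat_lit 409645) (nat_lit 18) (.e (nat_lit 303149) (nat_lit 15) .nil))))) .nil)) 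
(.lf (nat_lit 53478) (.g (nat_lit 2701) (.e (nat_lit 1368) (nat_lit 103) (.e (nat_lit 294928) (nat_lit 2) (.e (nat_lit 90176) (nat_lit 15) (.e (nat_lit 188450) (nat_lit 23) (.e (nat_lit 204821) (nat_lit 17) (.e (nat_lit 6092) (nat_lit 332) .nil)))))) (.g (nat_lit 6) .nil .nil)))) (.nd (nat_lit 5) 
(.lf (nat_lit 53462) (.g (nat_lit 1658) (.e (nat_lit 1368) (nat_lit 103) (.e (nat_lit 294928) (nat_lit 2) (.e (nat_lit 90170) (nat_lit 13) (.e (nat_lit 172097) (nat_lit 9) .nil)))) .nil)) 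
(.lf (nat_lit 53494) (.g (nat_lit 1425) (.e (nat_lit 1368) (nat_lit 103) (.e (nat_lit 294958) (nat_lit 13) (.e (nat_lit 401152) (nat_lit 15) (.e (nat_lit 385107) (nat_lit 51) (.e (nat_lit 794666) (nat_lit 22) (.e (nat_lit 196691) (nat_lit 18) .nil)))))) (.g (nat_lit 4) .nil .nil))))) (.nd (nat_lit 4) (.nd (nat_lit 5) 
(.lf (nat_lit 53454) (.g (nat_lit 2052) (.e (nat_lit 1367) (nat_lit 103) (.e (nat_lit 294960) (nat_lit 13) (.e (nat_lit 393268) (nat_lit 23) (.e (nat_lit 426444) (nat_lit 19) (.e (nat_lit 106556) (nat_lit 15) (.e (nat_lit 57794) (nat_lit 245) .nil)))))) (.g (nat_lit 5) .nil .nil))) 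
(.lf (nat_lit 53486) (.g (nat_lit 1680) (.e (nat_lit 1368) (nat_lit 103) (.e (nat_lit 294938) (nat_lit 9) (.e (nat_lit 336395) (nat_lit 27) (.e (nat_lit 426340) (nat_lit 14) (.e (nat_lit 491566) (nat_lit 12) (.e (nat_lit 392960) (nat_lit 16) .nil)))))) (.g (nat_lit 5) .nil .nil)))) (.nd (nat_lit 5) 
(.lf (nat_lit 53470) (.g (nat_lit 2990) (.e (nat_lit 1368) (nat_lit 103) (.e (nat_lit 294928) (nat_lit 2) (.e (nat_lit 90170) (nat_lit 13) (.e (nat_lit 172126) (nat_lit 14) (.e (nat_lit 491537) (nat_lit 2) .nil))))) .nil)) 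
(.lf (nat_lit 53502) (.g (nat_lit 2349) (.e (nat_lit 1368) (nat_lit 103) (.e (nat_lit 294958) (nat_lit 13) (.e (nat_lit 393283) (nat_lit 24) (.e (nat_lit 434276) (nat_lit 39) (.e (nat_lit 663565) (nat_lit 3) (.e (nat_lit 57713) (nat_lit 176) .nil)))))) (.g (nat_lit 5) .nil .nil)))))))) (.nd (nat_lit 1) (.nd (nat_lit 2) (.nd (nat_lit 3) (.nd (nat_lit 4) (.nd (nat_lit 5) 
(.lf (nat_lit 53441) (.g (nat_lit 2437) (.e (nat_lit 1367) (nat_lit 103) (.e (nat_lit 294960) (nat_lit 13) (.e (nat_lit 393260) (nat_lit 21) (.e (nat_lit 409616) (nat_lit 10) (.e (nat_lit 7936) (nat_lit 313) .nil))))) .nil)) 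
(.lf (nat_lit 53473) (.g (nat_lit 2837) (.e (nat_lit 1368) (nat_lit 103) (.e (nat_lit 294928) (nat_lit 2) (.e (nat_lit 90176) (nat_lit 15) (.e (nat_lit 188447) (nat_lit 22) (.e (nat_lit 196661) (nat_lit 12) (.e (nat_lit 57713) (nat_lit 176) .nil)))))) (.g (nat_lit 6) .nil .nil)))) (.nd (nat_lit 5) 
(.lf (nat_lit 53457) (.g (nat_lit 1196) (.e (nat_lit 1367) (nat_lit 103) (.e (nat_lit 294960) (nat_lit 13) (.e (nat_lit 393291) (nat_lit 26) (.e (nat_lit 475219) (nat_lit 44) .nil)))) .nil)) 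
(.lf (nat_lit 53489) (.g (nat_lit 1004) (.e (nat_lit 1368) (nat_lit 103) (.e (nat_lit 294940) (nat_lit 9) (.e (nat_lit 336454) (nat_lit 34) (.e (nat_lit 491264) (nat_lit 3) .nil)))) .nil)))) (.nd (nat_lit 4) (.nd (nat_lit 5) 
(.lf (nat_lit 53449) (.g (nat_lit 1272) (.e (nat_lit 1367) (nat_lit 103) (.e (nat_lit 294960) (nat_lit 13) (.e (nat_lit 393260) (nat_lit 21) (.e (nat_lit 409647) (nat_lit 18) .nil)))) .nil)) 
(.lf (nat_lit 53481) (.g (nat_lit 1919) (.e (nat_lit 1368) (nat_lit 103) (.e (nat_lit 294928) (nat_lit 2) (.e (nat_lit 90185) (nat_lit 17) (.e (nat_lit 237600) (nat_lit 9) .nil)))) .nil))) (.nd (nat_lit 5) 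
(.lf (nat_lit 53465) (.g (nat_lit 3846) (.e (nat_lit 1368) (nat_lit 103) (.e (nat_lit 294928) (nat_lit 2) (.e (nat_lit 90170) (nat_lit 13) (.e (nat_lit 172106) (nat_lit 10) (.e (nat_lit 434231) (nat_lit 23) (.e (nat_lit 532490) (nat_lit 0) (.e (nat_lit 6092) (nat_lit 332) .nil))))))) (.g (nat_lit 6) .nil .nil))) 
(.lf (nat_lit 53497) (.g (nat_lit 2231) (.e (nat_lit 1368) (nat_lit 103) (.e (nat_lit 294958) (nat_lit 13) (.e (nat_lit 393282) (nat_lit 24) (.e (nat_lit 434275) (nat_lit 39) (.e (nat_lit 663565) (nat_lit 3) (.e (nat_lit 57713) (nat_lit 176) .nil)))))) (.g (nat_lit 5) .nil .nil)))))) (.nd (nat_lit 3) (.nd (nat_lit 4) (.nd (nat_lit 5) 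
(.lf (nat_lit 53445) (.g (nat_lit 1312) (.e (nat_lit 1367) (nat_lit 103) (.e (nat_lit 294960) (nat_lit 13) (.e (nat_lit 393260) (nat_lit 21) (.e (nat_lit 409644) (nat_lit 18) .nil)))) .nil)) 
(.lf (nat_lit 53477) (.g (nat_lit 1530) (.e (nat_lit 1368) (nat_lit 103) (.e (nat_lit 294928) (nat_lit 2) (.e (nat_lit 90176) (nat_lit 15) (.e (nat_lit 188450) (nat_lit 23) (.e (nat_lit 204817) (nat_lit 17) .nil))))) .nil))) (.nd (nat_lit 5) 
(.lf (nat_lit 53461) (.g (nat_lit 1518) (.e (nat_lit 1368) (nat_lit 103) (.e (nat_lit 294927) (nat_lit 2) (.e (nat_lit 90170) (nat_lit 13) (.e (nat_lit 172126) (nat_lit 14) .nil)))) .nil)) 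
(.lf (nat_lit 53493) (.g (nat_lit 2096) (.e (nat_lit 1368) (nat_lit 103) (.e (nat_lit 294957) (nat_lit 13) (.e (nat_lit 393301) (nat_lit 27) (.e (nat_lit 491563) (nat_lit 12) (.e (nat_lit 392960) (nat_lit 16) .nil))))) (.g (nat_lit 4) .nil .nil))))) (.nd (nat_lit 4) (.nd (nat_lit 5) 
(.lf (nat_lit 53453) (.g (nat_lit 2148) (.e (nat_lit 1367) (nat_lit 103) (.e (nat_lit 294960) (nat_lit 13) (.e (nat_lit 393260) (nat_lit 21) (.e (nat_lit 409649) (nat_lit 18) (.e (nat_lit 303149) (nat_lit 15) (.e (nat_lit 6120) (nat_lit 332) .nil)))))) (.g (nat_lit 4) .nil .nil))) 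
(.lf (nat_lit 53485) (.g (nat_lit 2623) (.e (nat_lit 1368) (nat_lit 103) (.e (nat_lit 294931) (nat_lit 3) (.e (nat_lit 98372) (nat_lit 29) (.e (nat_lit 450579) (nat_lit 5) (.e (nat_lit 532489) (nat_lit 0) (.e (nat_lit 7936) (nat_lit 332) .nil)))))) (.g (nat_lit 5) .nil .nil)))) (.nd (nat_lit 5) 
(.lf (nat_lit 53469) (.g (nat_lit 2445) (.e (nat_lit 1368) (nat_lit 103) (.e (nat_lit 294928) (nat_lit 2) (.e (nat_lit 90170) (nat_lit 13) (.e (nat_lit 172106) (nat_lit 10) (.e (nat_lit 434244) (nat_lit 28) (.e (nat_lit 573468) (nat_lit 10) (.e (nat_lit 16128) (nat_lit 180) .nil))))))) (.g (nat_lit 4) .nil .nil))) 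
(.lf (nat_lit 53501) (.g (nat_lit 1349) (.e (nat_lit 1368) (nat_lit 103) (.e (nat_lit 294958) (nat_lit 13) (.e (nat_lit 393283) (nat_lit 24) (.e (nat_lit 434276) (nat_lit 39) (.e (nat_lit 663565) (nat_lit 3) .nil))))) .nil)))))) (.nd (nat_lit 2) (.nd (nat_lit 3) (.nd (nat_lit 4) (.nd (nat_lit 5) 
(.lf (nat_lit 53443) (.g (nat_lit 1161) (.e (nat_lit 1367) (nat_lit 103) (.e (nat_lit 294960) (nat_lit 13) (.e (nat_lit 393260) (nat_lit 21) (.e (nat_lit 409623) (nat_lit 10) .nil)))) .nil)) 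
(.lf (nat_lit 53475) (.g (nat_lit 2214) (.e (nat_lit 1368) (nat_lit 103) (.e (nat_lit 294928) (nat_lit 2) (.e (nat_lit 90176) (nat_lit 15) (.e (nat_lit 188447) (nat_lit 22) (.e (nat_lit 196661) (nat_lit 12) (.e (nat_lit 57717) (nat_lit 176) .nil)))))) (.g (nat_lit 4) .nil .nil)))) (.nd (nat_lit 5) 
(.lf (nat_lit 53459) (.g (nat_lit 1520) (.e (nat_lit 1368) (nat_lit 103) (.e (nat_lit 294927) (nat_lit 2) (.e (nat_lit 90170) (nat_lit 13) (.e (nat_lit 172097) (nat_lit 9) .nil)))) .nil)) 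
(.lf (nat_lit 53491) (.g (nat_lit 1559) (.e (nat_lit 1368) (nat_lit 103) (.e (nat_lit 294941) (nat_lit 9) (.e (nat_lit 336421) (nat_lit 28) (.e (nat_lit 434179) (nat_lit 0) (.e (nat_lit 1515) (nat_lit 108) (.e (nat_lit 336241) (nat_lit 15) (.e (nat_lit 7064) (nat_lit 377) .nil))))))) (.g (nat_lit 4) .nil .nil))))) (.nd (nat_lit 4) (.nd (nat_lit 5) 
(.lf (nat_lit 53451) (.g (nat_lit 2070) (.e (nat_lit 1367) (nat_lit 103) (.e (nat_lit 294960) (nat_lit 13) (.e (nat_lit 393260) (nat_lit 21) (.e (nat_lit 409648) (nat_lit 18) (.e (nat_lit 303149) (nat_lit 15) (.e (nat_lit 6120) (nat_lit 332) .nil)))))) (.g (nat_lit 4) .nil .nil))) 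
(.lf (nat_lit 53483) (.g (nat_lit 2722) (.e (nat_lit 1368) (nat_lit 103) (.e (nat_lit 294931) (nat_lit 3) (.e (nat_lit 98372) (nat_lit 29) (.e (nat_lit 450579) (nat_lit 5) (.e (nat_lit 532484) (nat_lit 0) (.e (nat_lit 7936) (nat_lit 332) .nil)))))) (.g (nat_lit 5) .nil .nil)))) (.nd (nat_lit 5) 
(.lf (nat_lit 53467) (.g (nat_lit 4613) (.e (nat_lit 1368) (nat_lit 103) (.e (nat_lit 294928) (nat_lit 2) (.e (nat_lit 90170) (nat_lit 13) (.e (nat_lit 172106) (nat_lit 10) (.e (nat_lit 434231) (nat_lit 23) (.e (nat_lit 532490) (nat_lit 0) (.e (nat_lit 6149) (nat_lit 332) .nil))))))) (.g (nat_lit 7) .nil .nil))) 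
(.lf (nat_lit 53499) (.g (nat_lit 3079) (.e (nat_lit 1368) (nat_lit 103) (.e (nat_lit 294958) (nat_lit 13) (.e (nat_lit 393283) (nat_lit 24) (.e (nat_lit 434275) (nat_lit 39) (.e (nat_lit 663565) (nat_lit 3) (.e (nat_lit 57713) (nat_lit 176) .nil)))))) (.g (nat_lit 0) .nil .nil)))))) (.nd (nat_lit 3) (.nd (nat_lit 4) (.nd (nat_lit 5) 
(.lf (nat_lit 53447) (.g (nat_lit 2165) (.e (nat_lit 1367) (nat_lit 103) (.e (nat_lit 294960) (nat_lit 13) (.e (nat_lit 393260) (nat_lit 21) (.e (nat_lit 409645) (nat_lit 18) (.e (nat_lit 303149) (nat_lit 15) (.e (nat_lit 6120) (nat_lit 332) .nil)))))) (.g (nat_lit 4) .nil .nil))) 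
(.lf (nat_lit 53479) (.g (nat_lit 2331) (.e (nat_lit 1368) (nat_lit 103) (.e (nat_lit 294928) (nat_lit 2) (.e (nat_lit 90176) (nat_lit 15) (.e (nat_lit 188450) (nat_lit 23) (.e (nat_lit 204821) (nat_lit 17) (.e (nat_lit 6126) (nat_lit 332) .nil)))))) (.g (nat_lit 5) .nil .nil)))) (.nd (nat_lit 5) 
(.lf (nat_lit 53463) (.g (nat_lit 4542) (.e (nat_lit 1368) (nat_lit 103) (.e (nat_lit 294928) (nat_lit 2) (.e (nat_lit 90170) (nat_lit 13) (.e (nat_lit 172106) (nat_lit 10) (.e (nat_lit 434231) (nat_lit 23) (.e (nat_lit 532481) (nat_lit 0) (.e (nat_lit 6192) (nat_lit 332) .nil))))))) (.g (nat_lit 5) .nil .nil))) 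
(.lf (nat_lit 53495) (.g (nat_lit 1521) (.e (nat_lit 1368) (nat_lit 103) (.e (nat_lit 294958) (nat_lit 13) (.e (nat_lit 401152) (nat_lit 15) (.e (nat_lit 385107) (nat_lit 51) (.e (nat_lit 794669) (nat_lit 22) (.e (nat_lit 196691) (nat_lit 18) .nil)))))) (.g (nat_lit 5) .nil .nil))))) (.nd (nat_lit 4) (.nd (nat_lit 5) 
(.lf (nat_lit 53455) (.g (nat_lit 2201) (.e (nat_lit 1367) (nat_lit 103) (.e (nat_lit 294960) (nat_lit 13) (.e (nat_lit 393291) (nat_lit 26) (.e (nat_lit 475201) (nat_lit 40) (.e (nat_lit 704839) (nat_lit 15) (.e (nat_lit 57794) (nat_lit 245) .nil)))))) (.g (nat_lit 5) .nil .nil))) 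
(.lf (nat_lit 53487) (.g (nat_lit 1046) (.e (nat_lit 1368) (nat_lit 103) (.e (nat_lit 294938) (nat_lit 9) (.e (nat_lit 336454) (nat_lit 34) (.e (nat_lit 491264) (nat_lit 3) .nil)))) .nil))) (.nd (nat_lit 5) 
(.lf (nat_lit 53471) (.g (nat_lit 3252) (.e (nat_lit 1368) (nat_lit 103) (.e (nat_lit 294928) (nat_lit 2) (.e (nat_lit 90170) (nat_lit 13) (.e (nat_lit 172126) (nat_lit 14) (.e (nat_lit 491537) (nat_lit 2) (.e (nat_lit 90133) (nat_lit 9) (.e (nat_lit 2400) (nat_lit 157) (.e (nat_lit 7064) (nat_lit 377) .nil)))))))) (.g (nat_lit 4) .nil .nil))) 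
(.lf (nat_lit 53503) (.g (nat_lit 1807) (.e (nat_lit 1368) (nat_lit 103) (.e (nat_lit 294958) (nat_lit 13) (.e (nat_lit 393283) (nat_lit 24) (.e (nat_lit 434281) (nat_lit 40) (.e (nat_lit 671759) (nat_lit 3) (.e (nat_lit 57713) (nat_lit 176) .nil)))))) (.g (nat_lit 5) .nil .nil)))))))))

noncomputable def tv739 : DT := (.nd (nat_lit 0) (.nd (nat_lit 1) (.nd (nat_lit 2) (.nd (nat_lit 3) (.nd (nat_lit 4) (.nd (nat_lit 5) 
(.lf (nat_lit 53504) (.g (nat_lit 2544) (.e (nat_lit 1368) (nat_lit 103) (.e (nat_lit 294958) (nat_lit 13) (.e (nat_lit 393301) (nat_lit 27) (.e (nat_lit 491563) (nat_lit 12) (.e (nat_lit 392960) (nat_lit 16) .nil))))) (.g (nat_lit 4) .nil .nil))) 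
(.lf (nat_lit 53536) (.g (nat_lit 2023) (.e (nat_lit 1370) (nat_lit 103) (.e (nat_lit 294931) (nat_lit 3) (.e (nat_lit 98373) (nat_lit 29) (.e (nat_lit 450571) (nat_lit 1) (.e (nat_lit 500056) (nat_lit 17) .nil))))) .nil))) (.nd (nat_lit 5) 
(.lf (nat_lit 53520) (.g (nat_lit 4646) (.e (nat_lit 1370) (nat_lit 103) (.e (nat_lit 294928) (nat_lit 2) (.e (nat_lit 90170) (nat_lit 13) (.e (nat_lit 172106) (nat_lit 10) (.e (nat_lit 434231) (nat_lit 23) (.e (nat_lit 532490) (nat_lit 0) (.e (nat_lit 6092) (nat_lit 332) .nil))))))) (.g (nat_lit 6) .nil .nil))) 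
(.lf (nat_lit 53552) (.g (nat_lit 1740) (.e (nat_lit 1370) (nat_lit 103) (.e (nat_lit 294955) (nat_lit 12) (.e (nat_lit 385102) (nat_lit 50) (.e (nat_lit 786483) (nat_lit 30) (.e (nat_lit 360484) (nat_lit 15) (.e (nat_lit 655104) (nat_lit 14) .nil)))))) (.g (nat_lit 5) .nil .nil))))) (.nd (nat_lit 4) (.nd (nat_lit 5) 
(.lf (nat_lit 53512) (.g (nat_lit 3588) (.e (nat_lit 1369) (nat_lit 103) (.e (nat_lit 294928) (nat_lit 2) (.e (nat_lit 90176) (nat_lit 15) (.e (nat_lit 188452) (nat_lit 23) (.e (nat_lit 204816) (nat_lit 17) .nil))))) .nil)) 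
(.lf (nat_lit 53544) (.g (nat_lit 1989) (.e (nat_lit 1370) (nat_lit 103) (.e (nat_lit 294941) (nat_lit 9) (.e (nat_lit 336421) (nat_lit 28) (.e (nat_lit 434180) (nat_lit 0) (.e (nat_lit 1638) (nat_lit 114) (.e (nat_lit 392960) (nat_lit 16) .nil)))))) (.g (nat_lit 5) .nil .nil)))) (.nd (nat_lit 5) 
(.lf (nat_lit 53528) (.g (nat_lit 2697) (.e (nat_lit 1370) (nat_lit 103) (.e (nat_lit 294931) (nat_lit 3) (.e (nat_lit 98359) (nat_lit 26) (.e (nat_lit 426211) (nat_lit 9) (.e (nat_lit 426140) (nat_lit 3) (.e (nat_lit 204821) (nat_lit 17) (.e (nat_lit 6114) (nat_lit 332) .nil))))))) (.g (nat_lit 4) .nil .nil))) 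
(.lf (nat_lit 53560) (.g (nat_lit 2002) (.e (nat_lit 1370) (nat_lit 103) (.e (nat_lit 294960) (nat_lit 13) (.e (nat_lit 393259) (nat_lit 21) (.e (nat_lit 409646) (nat_lit 18) (.e (nat_lit 303149) (nat_lit 15) (.e (nat_lit 6092) (nat_lit 332) .nil)))))) (.g (nat_lit 4) .nil .nil)))))) (.nd (nat_lit 3) (.nd (nat_lit 4) (.nd (nat_lit 5) 
(.lf (nat_lit 53508) (.g (nat_lit 1767) (.e (nat_lit 1368) (nat_lit 103) (.e (nat_lit 302848) (nat_lit 35) (.e (nat_lit 491566) (nat_lit 12) (.e (nat_lit 385092) (nat_lit 49) (.e (nat_lit 778324) (nat_lit 5) (.e (nat_lit 73791) (nat_lit 45) .nil)))))) (.g (nat_lit 5) .nil .nil))) 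
(.lf (nat_lit 53540) (.g (nat_lit 1861) (.e (nat_lit 1370) (nat_lit 103) (.e (nat_lit 294941) (nat_lit 9) (.e (nat_lit 336369) (nat_lit 27) (.e (nat_lit 426173) (nat_lit 7) (.e (nat_lit 409648) (nat_lit 18) (.e (nat_lit 311040) (nat_lit 15) (.e (nat_lit 6113) (nat_lit 332) .nil))))))) (.g (nat_lit 4) .nil .nil)))) (.nd (nat_lit 5) 
(.lf (nat_lit 53524) (.g (nat_lit 1906) (.e (nat_lit 1370) (nat_lit 103) (.e (nat_lit 294928) (nat_lit 2) (.e (nat_lit 90178) (nat_lit 15) (.e (nat_lit 188447) (nat_lit 22) (.e (nat_lit 196661) (nat_lit 12) .nil))))) .nil)) 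
(.lf (nat_lit 53556) (.g (nat_lit 2005) (.e (nat_lit 1370) (nat_lit 103) (.e (nat_lit 294960) (nat_lit 13) (.e (nat_lit 393238) (nat_lit 17) (.e (nat_lit 6989) (nat_lit 377) (.e (nat_lit 2777) (nat_lit 178) (.e (nat_lit 286763) (nat_lit 15) (.e (nat_lit 6966) (nat_lit 377) .nil))))))) (.g (nat_lit 4) .nil .nil))))) (.nd (nat_lit 4) (.nd (nat_lit 5) 
(.lf (nat_lit 53516) (.g (nat_lit 4445) (.e (nat_lit 1370) (nat_lit 103) (.e (nat_lit 294927) (nat_lit 2) (.e (nat_lit 90170) (nat_lit 13) (.e (nat_lit 172113) (nat_lit 10) (.e (nat_lit 434231) (nat_lit 23) (.e (nat_lit 532490) (nat_lit 0) (.e (nat_lit 6114) (nat_lit 332) .nil))))))) (.g (nat_lit 6) .nil .nil))) 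
(.lf (nat_lit 53548) (.g (nat_lit 4267) (.e (nat_lit 1370) (nat_lit 103) (.e (nat_lit 294955) (nat_lit 12) (.e (nat_lit 385072) (nat_lit 31) (.e (nat_lit 573492) (nat_lit 15) (.e (nat_lit 81953) (nat_lit 22) (.e (nat_lit 90187) (nat_lit 18) .nil)))))) (.g (nat_lit 5) .nil .nil)))) (.nd (nat_lit 5) 
(.lf (nat_lit 53532) (.g (nat_lit 2083) (.e (nat_lit 1370) (nat_lit 103) (.e (nat_lit 294931) (nat_lit 3) (.e (nat_lit 98370) (nat_lit 28) (.e (nat_lit 442424) (nat_lit 22) (.e (nat_lit 196661) (nat_lit 12) (.e (nat_lit 57711) (nat_lit 176) .nil)))))) (.g (nat_lit 4) .nil .nil))) 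
(.lf (nat_lit 53564) (.g (nat_lit 1349) (.e (nat_lit 1370) (nat_lit 103) (.e (nat_lit 294960) (nat_lit 13) (.e (nat_lit 393260) (nat_lit 21) (.e (nat_lit 409617) (nat_lit 10) .nil)))) .nil)))))) (.nd (nat_lit 2) (.nd (nat_lit 3) (.nd (nat_lit 4) (.nd (nat_lit 5) 
(.lf (nat_lit 53506) (.g (nat_lit 1378) (.e (nat_lit 1368) (nat_lit 103) (.e (nat_lit 294960) (nat_lit 13) (.e (nat_lit 393260) (nat_lit 21) (.e (nat_lit 409646) (nat_lit 18) .nil)))) .nil)) 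
(.lf (nat_lit 53538) (.g (nat_lit 2272) (.e (nat_lit 1370) (nat_lit 103) (.e (nat_lit 294931) (nat_lit 3) (.e (nat_lit 98373) (nat_lit 29) (.e (nat_lit 450573) (nat_lit 1) (.e (nat_lit 500056) (nat_lit 17) (.e (nat_lit 57712) (nat_lit 176) .nil)))))) (.g (nat_lit 4) .nil .nil)))) (.nd (nat_lit 5) 
(.lf (nat_lit 53522) (.g (nat_lit 2220) (.e (nat_lit 1370) (nat_lit 103) (.e (nat_lit 294928) (nat_lit 2) (.e (nat_lit 90176) (nat_lit 15) (.e (nat_lit 188450) (nat_lit 23) (.e (nat_lit 204819) (nat_lit 17) (.e (nat_lit 6093) (nat_lit 332) .nil)))))) (.g (nat_lit 4) .nil .nil))) 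
(.lf (nat_lit 53554) (.g (nat_lit 316) (.e (nat_lit 1370) (nat_lit 103) (.e (nat_lit 294960) (nat_lit 13) (.e (nat_lit 393238) (nat_lit 17) .nil))) .nil)))) (.nd (nat_lit 4) (.nd (nat_lit 5) 
(.lf (nat_lit 53514) (.g (nat_lit 2793) (.e (nat_lit 1370) (nat_lit 103) (.e (nat_lit 294927) (nat_lit 2) (.e (nat_lit 90170) (nat_lit 13) (.e (nat_lit 172097) (nat_lit 9) (.e (nat_lit 426125) (nat_lit 2) (.e (nat_lit 196661) (nat_lit 12) (.e (nat_lit 57712) (nat_lit 176) .nil))))))) (.g (nat_lit 5) .nil .nil))) 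
(.lf (nat_lit 53546) (.g (nat_lit 333) (.e (nat_lit 1370) (nat_lit 103) (.e (nat_lit 294941) (nat_lit 9) (.e (nat_lit 336430) (nat_lit 29) .nil))) .nil))) (.nd (nat_lit 5) 
(.lf (nat_lit 53530) (.g (nat_lit 1295) (.e (nat_lit 1370) (nat_lit 103) (.e (nat_lit 294931) (nat_lit 3) (.e (nat_lit 98367) (nat_lit 27) (.e (nat_lit 442112) (nat_lit 8) .nil)))) .nil)) 
(.lf (nat_lit 53562) (.g (nat_lit 323) (.e (nat_lit 1370) (nat_lit 103) (.e (nat_lit 294960) (nat_lit 13) (.e (nat_lit 393260) (nat_lit 21) .nil))) .nil))))) (.nd (nat_lit 3) (.nd (nat_lit 4) (.nd (nat_lit 5) 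
(.lf (nat_lit 53510) (.g (nat_lit 2372) (.e (nat_lit 1369) (nat_lit 103) (.e (nat_lit 294928) (nat_lit 2) (.e (nat_lit 90176) (nat_lit 15) (.e (nat_lit 188450) (nat_lit 23) (.e (nat_lit 204816) (nat_lit 17) (.e (nat_lit 6079) (nat_lit 332) .nil)))))) (.g (nat_lit 5) .nil .nil))) 
(.lf (nat_lit 53542) (.g (nat_lit 3272) (.e (nat_lit 1370) (nat_lit 103) (.e (nat_lit 294941) (nat_lit 9) (.e (nat_lit 336395) (nat_lit 27) (.e (nat_lit 426340) (nat_lit 14) (.e (nat_lit 491566) (nat_lit 12) (.e (nat_lit 385032) (nat_lit 16) .nil)))))) (.g (nat_lit 5) .nil .nil)))) (.nd (nat_lit 5) 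
(.lf (nat_lit 53526) (.g (nat_lit 2350) (.e (nat_lit 1370) (nat_lit 103) (.e (nat_lit 294928) (nat_lit 2) (.e (nat_lit 90178) (nat_lit 15) (.e (nat_lit 188449) (nat_lit 22) (.e (nat_lit 196661) (nat_lit 12) (.e (nat_lit 57711) (nat_lit 176) .nil)))))) (.g (nat_lit 4) .nil .nil))) 
(.lf (nat_lit 53558) (.g (nat_lit 1720) (.e (nat_lit 1370) (nat_lit 103) (.e (nat_lit 294960) (nat_lit 13) (.e (nat_lit 393238) (nat_lit 17) (.e (nat_lit 7101) (nat_lit 380) (.e (nat_lit 164353) (nat_lit 246) (.e (nat_lit 63) (nat_lit 0) (.e (nat_lit 6092) (nat_lit 332) .nil))))))) (.g (nat_lit 4) .nil .nil))))) (.nd (nat_lit 4) (.nd (nat_lit 5) 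
(.lf (nat_lit 53518) (.g (nat_lit 902) (.e (nat_lit 1370) (nat_lit 103) (.e (nat_lit 294927) (nat_lit 2) (.e (nat_lit 90178) (nat_lit 15) (.e (nat_lit 188447) (nat_lit 22) .nil)))) .nil)) 
(.lf (nat_lit 53550) (.g (nat_lit 2392) (.e (nat_lit 1370) (nat_lit 103) (.e (nat_lit 294955) (nat_lit 12) (.e (nat_lit 385073) (nat_lit 31) (.e (nat_lit 573493) (nat_lit 15) (.e (nat_lit 81953) (nat_lit 22) (.e (nat_lit 98048) (nat_lit 18) .nil)))))) (.g (nat_lit 5) .nil .nil)))) (.nd (nat_lit 5) 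
(.lf (nat_lit 53534) (.g (nat_lit 4212) (.e (nat_lit 1370) (nat_lit 103) (.e (nat_lit 294931) (nat_lit 3) (.e (nat_lit 98370) (nat_lit 28) (.e (nat_lit 442427) (nat_lit 23) (.e (nat_lit 204821) (nat_lit 17) (.e (nat_lit 6114) (nat_lit 332) .nil)))))) (.g (nat_lit 0) .nil .nil))) 
(.lf (nat_lit 53566) (.g (nat_lit 1373) (.e (nat_lit 1370) (nat_lit 103) (.e (nat_lit 294960) (nat_lit 13) (.e (nat_lit 393260) (nat_lit 21) (.e (nat_lit 409623) (nat_lit 10) (.e (nat_lit 5259) (nat_lit 298) .nil))))) .nil))))))) (.nd (nat_lit 1) (.nd (nat_lit 2) (.nd (nat_lit 3) (.nd (nat_lit 4) (.nd (nat_lit 5) 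
(.lf (nat_lit 53505) (.g (nat_lit 2757) (.e (nat_lit 1368) (nat_lit 103) (.e (nat_lit 294960) (nat_lit 13) (.e (nat_lit 393260) (nat_lit 21) (.e (nat_lit 409616) (nat_lit 10) (.e (nat_lit 7936) (nat_lit 313) .nil))))) .nil)) 
(.lf (nat_lit 53537) (.g (nat_lit 1639) (.e (nat_lit 1370) (nat_lit 103) (.e (nat_lit 294931) (nat_lit 3) (.e (nat_lit 98373) (nat_lit 29) (.e (nat_lit 450573) (nat_lit 1) .nil)))) .nil))) (.nd (nat_lit 5) 
(.lf (nat_lit 53521) (.g (nat_lit 3537) (.e (nat_lit 1370) (nat_lit 103) (.e (nat_lit 294928) (nat_lit 2) (.e (nat_lit 90176) (nat_lit 15) (.e (nat_lit 188447) (nat_lit 22) (.e (nat_lit 196661) (nat_lit 12) (.e (nat_lit 57711) (nat_lit 176) .nil)))))) (.g (nat_lit 0) .nil .nil))) 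
(.lf (nat_lit 53553) (.g (nat_lit 1846) (.e (nat_lit 1370) (nat_lit 103) (.e (nat_lit 294958) (nat_lit 13) (.e (nat_lit 393281) (nat_lit 23) (.e (nat_lit 426100) (nat_lit 1) (.e (nat_lit 164399) (nat_lit 256) (.e (nat_lit 57350) (nat_lit 0) (.e (nat_lit 6113) (nat_lit 332) .nil))))))) (.g (nat_lit 4) .nil .nil))))) (.nd (nat_lit 4) (.nd (nat_lit 5) 
(.lf (nat_lit 53513) (.g (nat_lit 4897) (.e (nat_lit 1370) (nat_lit 103) (.e (nat_lit 294926) (nat_lit 2) (.e (nat_lit 90170) (nat_lit 13) (.e (nat_lit 172106) (nat_lit 10) (.e (nat_lit 434231) (nat_lit 23) (.e (nat_lit 532490) (nat_lit 0) (.e (nat_lit 6114) (nat_lit 332) .nil))))))) (.g (nat_lit 0) .nil .nil))) 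
(.lf (nat_lit 53545) (.g (nat_lit 2032) (.e (nat_lit 1370) (nat_lit 103) (.e (nat_lit 294941) (nat_lit 9) (.e (nat_lit 336421) (nat_lit 28) (.e (nat_lit 434181) (nat_lit 0) (.e (nat_lit 1638) (nat_lit 114) (.e (nat_lit 392960) (nat_lit 16) .nil)))))) (.g (nat_lit 5) .nil .nil)))) (.nd (nat_lit 5) 
(.lf (nat_lit 53529) (.g (nat_lit 2237) (.e (nat_lit 1370) (nat_lit 103) (.e (nat_lit 294931) (nat_lit 3) (.e (nat_lit 98359) (nat_lit 26) (.e (nat_lit 426212) (nat_lit 9) (.e (nat_lit 426125) (nat_lit 2) (.e (nat_lit 196661) (nat_lit 12) (.e (nat_lit 57712) (nat_lit 176) .nil))))))) (.g (nat_lit 4) .nil .nil))) 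
(.lf (nat_lit 53561) (.g (nat_lit 2074) (.e (nat_lit 1370) (nat_lit 103) (.e (nat_lit 294960) (nat_lit 13) (.e (nat_lit 393259) (nat_lit 21) (.e (nat_lit 409646) (nat_lit 18) (.e (nat_lit 303149) (nat_lit 15) (.e (nat_lit 6112) (nat_lit 332) .nil)))))) (.g (nat_lit 4) .nil .nil)))))) (.nd (nat_lit 3) (.nd (nat_lit 4) (.nd (nat_lit 5) 
(.lf (nat_lit 53509) (.g (nat_lit 2754) (.e (nat_lit 1369) (nat_lit 103) (.e (nat_lit 294928) (nat_lit 2) (.e (nat_lit 90176) (nat_lit 15) (.e (nat_lit 188447) (nat_lit 22) (.e (nat_lit 196661) (nat_lit 12) (.e (nat_lit 57711) (nat_lit 176) .nil)))))) (.g (nat_lit 0) .nil .nil))) 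
(.lf (nat_lit 53541) (.g (nat_lit 2588) (.e (nat_lit 1370) (nat_lit 103) (.e (nat_lit 294941) (nat_lit 9) (.e (nat_lit 336369) (nat_lit 27) (.e (nat_lit 426173) (nat_lit 7) (.e (nat_lit 409649) (nat_lit 18) (.e (nat_lit 303149) (nat_lit 15) (.e (nat_lit 6092) (nat_lit 332) .nil))))))) (.g (nat_lit 5) .nil .nil)))) (.nd (nat_lit 5) 
(.lf (nat_lit 53525) (.g (nat_lit 1537) (.e (nat_lit 1370) (nat_lit 103) (.e (nat_lit 294928) (nat_lit 2) (.e (nat_lit 90178) (nat_lit 15) (.e (nat_lit 188448) (nat_lit 22) (.e (nat_lit 196661) (nat_lit 12) .nil))))) .nil)) 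
(.lf (nat_lit 53557) (.g (nat_lit 1705) (.e (nat_lit 1370) (nat_lit 103) (.e (nat_lit 294960) (nat_lit 13) (.e (nat_lit 393238) (nat_lit 17) (.e (nat_lit 7101) (nat_lit 380) (.e (nat_lit 164353) (nat_lit 246) (.e (nat_lit 16) (nat_lit 0) (.e (nat_lit 6092) (nat_lit 332) .nil))))))) (.g (nat_lit 4) .nil .nil))))) (.nd (nat_lit 4) (.nd (nat_lit 5) 
(.lf (nat_lit 53517) (.g (nat_lit 2788) (.e (nat_lit 1370) (nat_lit 103) (.e (nat_lit 294927) (nat_lit 2) (.e (nat_lit 90176) (nat_lit 15) (.e (nat_lit 188447) (nat_lit 22) (.e (nat_lit 196661) (nat_lit 12) (.e (nat_lit 57712) (nat_lit 176) .nil)))))) (.g (nat_lit 0) .nil .nil))) 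
(.lf (nat_lit 53549) (.g (nat_lit 2525) (.e (nat_lit 1370) (nat_lit 103) (.e (nat_lit 294955) (nat_lit 12) (.e (nat_lit 385072) (nat_lit 31) (.e (nat_lit 573492) (nat_lit 15) (.e (nat_lit 81953) (nat_lit 22) (.e (nat_lit 98048) (nat_lit 18) .nil)))))) (.g (nat_lit 4) .nil .nil)))) (.nd (nat_lit 5) 
(.lf (nat_lit 53533) (.g (nat_lit 2312) (.e (nat_lit 1370) (nat_lit 103) (.e (nat_lit 294931) (nat_lit 3) (.e (nat_lit 98370) (nat_lit 28) (.e (nat_lit 442427) (nat_lit 23) (.e (nat_lit 204821) (nat_lit 17) (.e (nat_lit 6092) (nat_lit 332) .nil)))))) (.g (nat_lit 4) .nil .nil))) 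
(.lf (nat_lit 53565) (.g (nat_lit 888) (.e (nat_lit 1370) (nat_lit 103) (.e (nat_lit 294960) (nat_lit 13) (.e (nat_lit 393260) (nat_lit 21) (.e (nat_lit 409623) (nat_lit 10) .nil)))) .nil)))))) (.nd (nat_lit 2) (.nd (nat_lit 3) (.nd (nat_lit 4) (.nd (nat_lit 5) 
(.lf (nat_lit 53507) (.g (nat_lit 2509) (.e (nat_lit 1368) (nat_lit 103) (.e (nat_lit 294960) (nat_lit 13) (.e (nat_lit 393260) (nat_lit 21) (.e (nat_lit 409648) (nat_lit 18) (.e (nat_lit 303147) (nat_lit 15) (.e (nat_lit 6136) (nat_lit 332) .nil)))))) (.g (nat_lit 4) .nil .nil))) 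
(.lf (nat_lit 53539) (.g (nat_lit 1906) (.e (nat_lit 1370) (nat_lit 103) (.e (nat_lit 294931) (nat_lit 3) (.e (nat_lit 98381) (nat_lit 31) (.e (nat_lit 466977) (nat_lit 22) (.e (nat_lit 196661) (nat_lit 12) (.e (nat_lit 57712) (nat_lit 176) .nil)))))) (.g (nat_lit 4) .nil .nil)))) (.nd (nat_lit 5) 
(.lf (nat_lit 53523) (.g (nat_lit 3430) (.e (nat_lit 1370) (nat_lit 103) (.e (nat_lit 294928) (nat_lit 2) (.e (nat_lit 90176) (nat_lit 15) (.e (nat_lit 188450) (nat_lit 23) (.e (nat_lit 204821) (nat_lit 17) (.e (nat_lit 6092) (nat_lit 332) .nil)))))) (.g (nat_lit 0) .nil .nil))) 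
(.lf (nat_lit 53555) (.g (nat_lit 728) (.e (nat_lit 1370) (nat_lit 103) (.e (nat_lit 294960) (nat_lit 13) (.e (nat_lit 393238) (nat_lit 17) (.e (nat_lit 6989) (nat_lit 377) .nil)))) .nil)))) (.nd (nat_lit 4) (.nd (nat_lit 5) 
(.lf (nat_lit 53515) (.g (nat_lit 2950) (.e (nat_lit 1370) (nat_lit 103) (.e (nat_lit 294927) (nat_lit 2) (.e (nat_lit 90170) (nat_lit 13) (.e (nat_lit 172097) (nat_lit 9) (.e (nat_lit 426140) (nat_lit 3) (.e (nat_lit 204821) (nat_lit 17) (.e (nat_lit 6114) (nat_lit 332) .nil))))))) (.g (nat_lit 5) .nil .nil))) 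
(.lf (nat_lit 53547) (.g (nat_lit 4109) (.e (nat_lit 1370) (nat_lit 103) (.e (nat_lit 294941) (nat_lit 9) (.e (nat_lit 336432) (nat_lit 30) (.e (nat_lit 450569) (nat_lit 0) (.e (nat_lit 5947) (nat_lit 322) (.e (nat_lit 57354) (nat_lit 0) (.e (nat_lit 6114) (nat_lit 332) .nil))))))) (.g (nat_lit 0) .nil .nil)))) (.nd (nat_lit 5) 
(.lf (nat_lit 53531) (.g (nat_lit 1930) (.e (nat_lit 1370) (nat_lit 103) (.e (nat_lit 294931) (nat_lit 3) (.e (nat_lit 98370) (nat_lit 28) (.e (nat_lit 442423) (nat_lit 22) (.e (nat_lit 196661) (nat_lit 12) (.e (nat_lit 57712) (nat_lit 176) .nil)))))) (.g (nat_lit 4) .nil .nil))) 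
(.lf (nat_lit 53563) (.g (nat_lit 2090) (.e (nat_lit 1370) (nat_lit 103) (.e (nat_lit 294960) (nat_lit 13) (.e (nat_lit 393260) (nat_lit 21) (.e (nat_lit 409614) (nat_lit 10) .nil)))) .nil))))) (.nd (nat_lit 3) (.nd (nat_lit 4) (.nd (nat_lit 5) 
(.lf (nat_lit 53511) (.g (nat_lit 2773) (.e (nat_lit 1369) (nat_lit 103) (.e (nat_lit 294928) (nat_lit 2) (.e (nat_lit 90176) (nat_lit 15) (.e (nat_lit 188450) (nat_lit 23) (.e (nat_lit 204819) (nat_lit 17) (.e (nat_lit 6109) (nat_lit 332) .nil)))))) (.g (nat_lit 6) .nil .nil))) 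
(.lf (nat_lit 53543) (.g (nat_lit 1805) (.e (nat_lit 1370) (nat_lit 103) (.e (nat_lit 294941) (nat_lit 9) (.e (nat_lit 336395) (nat_lit 27) (.e (nat_lit 426340) (nat_lit 14) (.e (nat_lit 491566) (nat_lit 12) (.e (nat_lit 392960) (nat_lit 16) .nil)))))) (.g (nat_lit 5) .nil .nil)))) (.nd (nat_lit 5) 
(.lf (nat_lit 53527) (.g (nat_lit 2172) (.e (nat_lit 1370) (nat_lit 103) (.e (nat_lit 294929) (nat_lit 3) (.e (nat_lit 98370) (nat_lit 28) (.e (nat_lit 442424) (nat_lit 22) (.e (nat_lit 196661) (nat_lit 12) (.e (nat_lit 57712) (nat_lit 176) .nil)))))) (.g (nat_lit 5) .nil .nil))) 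
(.lf (nat_lit 53559) (.g (nat_lit 306) (.e (nat_lit 1370) (nat_lit 103) (.e (nat_lit 294960) (nat_lit 13) (.e (nat_lit 393259) (nat_lit 21) .nil))) .nil)))) (.nd (nat_lit 4) (.nd (nat_lit 5) 
(.lf (nat_lit 53519) (.g (nat_lit 1851) (.e (nat_lit 1370) (nat_lit 103) (.e (nat_lit 294927) (nat_lit 2) (.e (nat_lit 90185) (nat_lit 17) (.e (nat_lit 237606) (nat_lit 9) .nil)))) .nil)) 
(.lf (nat_lit 53551) (.g (nat_lit 1625) (.e (nat_lit 1370) (nat_lit 103) (.e (nat_lit 294955) (nat_lit 12) (.e (nat_lit 385074) (nat_lit 31) (.e (nat_lit 573493) (nat_lit 15) .nil)))) .nil))) (.nd (nat_lit 5) 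
(.lf (nat_lit 53535) (.g (nat_lit 1481) (.e (nat_lit 1370) (nat_lit 103) (.e (nat_lit 294931) (nat_lit 3) (.e (nat_lit 98371) (nat_lit 28) (.e (nat_lit 442424) (nat_lit 22) (.e (nat_lit 196661) (nat_lit 12) (.e (nat_lit 57712) (nat_lit 176) .nil)))))) (.g (nat_lit 4) .nil .nil))) 
(.lf (nat_lit 53567) (.g (nat_lit 1430) (.e (nat_lit 1370) (nat_lit 103) (.e (nat_lit 294960) (nat_lit 13) (.e (nat_lit 393260) (nat_lit 21) (.e (nat_lit 409623) (nat_lit 10) (.e (nat_lit 5612) (nat_lit 312) .nil))))) .nil))))))))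


end

end Pool.Agent.Lib.MP_5854e1_co.Cz
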